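import Pool.Agent.MalP.P7.E7a
import Pool.Agent.MalP.MGrad

/-! # p = 7: the homogeneous elements of the T-ideal of `zz` -/

set_option autoImplicit false
set_option linter.unusedSectionVars false

namespace Pool.Agent.MalP

universe u

variable (F : Type u) [Field F] [C23 F]

namespace E7bAux

section

variable {F}

theorem pe_mem {x : Fin 5 → FreeMalcev F ℕ} {y : FreeMalcev F ℕ} {c : Fin 5 → Multiset ℕ}
    {d : Multiset ℕ} (hx : ∀ i, x i ∈ GM F (c i)) (hy : y ∈ GM F d) :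
    pe x y ∈ GM F ((∑ i, c i) + d) := by
  have e0 : (∑ i, c i) = c 0 + c 1 + c 2 + c 3 + c 4 := by
    simp [Fin.sum_univ_succ, add_assoc]
  rw [e0]
  unfold pe
  have h1 : ((((x 0 * y) * x 1) * x 2) * x 3) * x 4 ∈ GM F (c 0 + c 1 + c 2 + c 3 + c 4 + d) := by
    have h := GM_mul (GM_mul (GM_mul (GM_mul (GM_mul (hx 0) hy) (hx 1)) (hx 2)) (hx 3)) (hx 4)
    have e : c 0 + d + c 1 + c 2 + c 3 + c 4 = c 0 + c 1 + c 2 + c 3 + c 4 + d := by abel
    rwa [e] at h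
  have h2 : ((((x 0 * x 1) * y) * x 2) * x 3) * x 4 ∈ GM F (c 0 + c 1 + c 2 + c 3 + c 4 + d) := by
    have h := GM_mul (GM_mul (GM_mul (GM_mul (GM_mul (hx 0) (hx 1)) hy) (hx 2)) (hx 3)) (hx 4)
    have e : c 0 + c 1 + d + c 2 + c 3 + c 4 = c 0 + c 1 + c 2 + c 3 + c 4 + d := by abel
    rwa [e] at h
  have h3 : ((((x 0 * x 1) * x 2) * y) * x 3) * x 4 ∈ GM F (c 0 + c 1 + c 2 + c 3 + c 4 + d) := by
    have h := GM_mul (GM_mul (GM_mul (GM_mul (GM_mul (hx 0) (hx 1)) (hx 2)) hy) (hx 3)) (hx 4)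
    have e : c 0 + c 1 + c 2 + d + c 3 + c 4 = c 0 + c 1 + c 2 + c 3 + c 4 + d := by abel
    rwa [e] at h
  have h4 : (((x 0 * x 1) * y) * x 2) * (x 3 * x 4) ∈ GM F (c 0 + c 1 + c 2 + c 3 + c 4 + d) := by
    have h := GM_mul (GM_mul (GM_mul (GM_mul (hx 0) (hx 1)) hy) (hx 2)) (GM_mul (hx 3) (hx 4))
    have e : c 0 + c 1 + d + c 2 + (c 3 + c 4) = c 0 + c 1 + c 2 + c 3 + c 4 + d := by abel
    rwa [e] at h
  have h5 : (((x 0 * x 1) * x 2) * x 3) * (x 4 * y) ∈ GM F (c 0 + c 1 + c 2 + c 3 + c 4 + d) := by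
    have h := GM_mul (GM_mul (GM_mul (GM_mul (hx 0) (hx 1)) (hx 2)) (hx 3)) (GM_mul (hx 4) hy)
    have e : c 0 + c 1 + c 2 + c 3 + (c 4 + d) = c 0 + c 1 + c 2 + c 3 + c 4 + d := by abel
    rwa [e] at h
  exact Submodule.sub_mem _ (Submodule.sub_mem _ (Submodule.add_mem _ (Submodule.add_mem _
    (Submodule.smul_of_tower_mem _ 2 h1) (Submodule.smul_of_tower_mem _ 5 h2))
    (Submodule.smul_of_tower_mem _ 4 h3))
    (Submodule.smul_of_tower_mem _ 3 h4)) (Submodule.smul_of_tower_mem _ 2 h5)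

theorem eL_mem {x : Fin 5 → FreeMalcev F ℕ} {y : FreeMalcev F ℕ} {c : Fin 5 → Multiset ℕ}
    {d : Multiset ℕ} (hx : ∀ i, x i ∈ GM F (c i)) (hy : y ∈ GM F d) :
    eL F x y ∈ GM F ((∑ i, c i) + d) := by
  rw [eL_apply]
  apply Submodule.sum_mem
  intro s _
  have h : pe (x ∘ s) y ∈ GM F ((∑ i, c (s i)) + d) := pe_mem (fun i => hx (s i)) hy
  rw [Equiv.sum_comp s c] at h
  rw [Units.smul_def]
  exact Submodule.smul_of_tower_mem _ _ h

theorem ee_mem {x0 x1 x2 x3 x4 y : FreeMalcev F ℕ} {c0 c1 c2 c3 c4 d : Multiset ℕ}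
    (h0 : x0 ∈ GM F c0) (h1 : x1 ∈ GM F c1) (h2 : x2 ∈ GM F c2) (h3 : x3 ∈ GM F c3)
    (h4 : x4 ∈ GM F c4) (hy : y ∈ GM F d) :
    ee F x0 x1 x2 x3 x4 y ∈ GM F (c0 + c1 + c2 + c3 + c4 + d) := by
  unfold ee
  have h := eL_mem (F := F) (x := ![x0, x1, x2, x3, x4]) (c := ![c0, c1, c2, c3, c4]) (y := y)
    (d := d) (by intro i; fin_cases i <;> assumption) hy
  have e : (∑ i, (![c0, c1, c2, c3, c4] : Fin 5 → Multiset ℕ) i) = c0 + c1 + c2 + c3 + c4 := by
    simp [Fin.sum_univ_succ, add_assoc]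
  rwa [e] at h

theorem wdM_mem (w : FreeMagma ℕ) : (wdM w : FreeMalcev F ℕ) ∈ GM F (content w) := by
  rw [GM_eq]
  exact Submodule.subset_span ⟨w, rfl, rfl⟩

end

/-- the multidegree of the value at the letters `i` -/
def ct (i : Fin 8 → ℕ) : Multiset ℕ := (List.ofFn i : List ℕ)

theorem ct_eq (i : Fin 8 → ℕ) :
    ct i = {i 0} + {i 1} + {i 2} + {i 3} + {i 4} + {i 5} + {i 6} + {i 7} := by
  unfold ct
  simp [List.ofFn_succ, ← Multiset.cons_coe, ← Multiset.singleton_add, add_assoc]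

theorem of_mem (i : ℕ) : (FreeMalcev.of i : FreeMalcev F ℕ) ∈ GM F {i} := by
  rw [of_eq_wdM]
  exact wdM_mem (FreeMagma.of i)

theorem zz_mem {x0 x1 x2 x3 x4 u v c : FreeMalcev F ℕ} {c0 c1 c2 c3 c4 d e f : Multiset ℕ}
    (h0 : x0 ∈ GM F c0) (h1 : x1 ∈ GM F c1) (h2 : x2 ∈ GM F c2) (h3 : x3 ∈ GM F c3)
    (h4 : x4 ∈ GM F c4) (hu : u ∈ GM F d) (hv : v ∈ GM F e) (hc : c ∈ GM F f) :
    zz F x0 x1 x2 x3 x4 u v c ∈ GM F (c0 + c1 + c2 + c3 + c4 + d + e + f) := by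
  unfold zz
  refine GM_mul ?_ hc
  have a1 := ee_mem h0 h1 h2 h3 h4 (GM_mul hu hv)
  have a2 := GM_mul (ee_mem h0 h1 h2 h3 h4 hv) hu
  have a3 := GM_mul (ee_mem h0 h1 h2 h3 h4 hu) hv
  have e1 : c0 + c1 + c2 + c3 + c4 + (d + e) = c0 + c1 + c2 + c3 + c4 + d + e := by abel
  have e2 : c0 + c1 + c2 + c3 + c4 + e + d = c0 + c1 + c2 + c3 + c4 + d + e := by abel
  rw [e1] at a1
  rw [e2] at a2
  exact Submodule.add_mem _ (Submodule.sub_mem _ a1 a2) a3

theorem zzM_mem (i : Fin 8 → ℕ) :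
    zzM F (fun j => (FreeMalcev.of (i j) : FreeMalcev F ℕ)) ∈ GM F (ct i) := by
  rw [zzM_apply, ct_eq]
  exact zz_mem F (of_mem F _) (of_mem F _) (of_mem F _) (of_mem F _) (of_mem F _) (of_mem F _)
    (of_mem F _) (of_mem F _)

theorem mem_span (h7 : (7 : F) = 0) {m : Multiset ℕ} {q : FreeMalcev F ℕ} (hq : q ∈ E7sub F)
    (hg : q ∈ GM F m) : q ∈ Submodule.span F {p | ∃ i : Fin 8 → ℕ, ct i = m ∧
      p = zzM F fun j => (FreeMalcev.of (i j) : FreeMalcev F ℕ)} := by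
  have h1 : piM F m q = q := by rw [piM_of_mem hg, if_pos rfl]
  rw [E7sub_eq F h7] at hq
  have h2 : piM F m q ∈ Submodule.map (piM F m) (Submodule.span F (Set.range fun i : Fin 8 → ℕ =>
    zzM F fun j => (FreeMalcev.of (i j) : FreeMalcev F ℕ))) := Submodule.mem_map_of_mem hq
  rw [h1, Submodule.map_span] at h2
  refine Submodule.span_le.2 ?_ h2
  rintro _ ⟨_, ⟨i, rfl⟩, rfl⟩
  change piM F m (zzM F fun j => (FreeMalcev.of (i j) : FreeMalcev F ℕ)) ∈ _
  rw [piM_of_mem (zzM_mem F i)]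
  split_ifs with h
  · exact Submodule.subset_span ⟨i, h, rfl⟩
  · exact Submodule.zero_mem _

theorem ee_zero_of {f : Fin 5 → FreeMalcev F ℕ} (hf : ¬ Function.Injective f) (y : FreeMalcev F ℕ) :
    ee F (f 0) (f 1) (f 2) (f 3) (f 4) y = 0 := by
  unfold Function.Injective at hf
  push Not at hf
  obtain ⟨a, b, hab, hne⟩ := hf
  unfold ee
  have h1 : ![f 0, f 1, f 2, f 3, f 4] = f := by
    funext i
    fin_cases i <;> rfl
  rw [h1, AlternatingMap.map_eq_zero_of_eq _ _ hab hne]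
  rfl

theorem zzM_zero (i : Fin 8 → ℕ) (h : ¬ ([i 0, i 1, i 2, i 3, i 4] : List ℕ).Nodup ∨ i 5 = i 6) :
    zzM F (fun j => (FreeMalcev.of (i j) : FreeMalcev F ℕ)) = 0 := by
  rw [zzM_apply]
  rcases h with h | h
  · have h1 : ¬ Function.Injective (![i 0, i 1, i 2, i 3, i 4] : Fin 5 → ℕ) := by
      intro h2
      apply h
      have h3 := List.nodup_ofFn.2 h2
      simpa [List.ofFn_succ] using h3
    have h2 : ¬ Function.Injective (fun j => (FreeMalcev.of ((![i 0, i 1, i 2, i 3, i 4] : Fin 5 → ℕ) j) :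
        FreeMalcev F ℕ)) := by
      unfold Function.Injective at h1
      push Not at h1
      obtain ⟨a, b, hab, hne⟩ := h1
      intro h3
      exact hne (h3 (congrArg FreeMalcev.of hab))
    unfold zz
    have h3 := ee_zero_of F h2
    change ∀ y, ee F (FreeMalcev.of (i 0)) (FreeMalcev.of (i 1)) (FreeMalcev.of (i 2))
      (FreeMalcev.of (i 3)) (FreeMalcev.of (i 4)) y = 0 at h3
    rw [h3, h3, h3, zero_mul, zero_mul, sub_zero, add_zero, zero_mul]
  · rw [h, zz_uu F FreeMalcev.isMalcev]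

/-- the values with `y` not in the first five places -/
def Sset (L : Finset ℕ) (y : ℕ) : Set (FreeMalcev F ℕ) :=
  {p | ∃ i : Fin 8 → ℕ, Function.Injective i ∧ (∀ j, i j ∈ L) ∧
      (∀ j : Fin 8, (j : ℕ) < 5 → i j ≠ y) ∧ p = zzM F fun j => (FreeMalcev.of (i j) : FreeMalcev F ℕ)}

theorem goodf (L : Finset ℕ) (y : ℕ) (f : Fin 8 → ℕ) (hf : Function.Injective f) (hL : ∀ j, f j ∈ L)
    (hy : ∀ j : Fin 8, (j : ℕ) < 5 → f j ≠ y) :
    zz F (FreeMalcev.of (f 0)) (FreeMalcev.of (f 1)) (FreeMalcev.of (f 2)) (FreeMalcev.of (f 3))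
      (FreeMalcev.of (f 4)) (FreeMalcev.of (f 5)) (FreeMalcev.of (f 6)) (FreeMalcev.of (f 7) : FreeMalcev F ℕ) ∈
      Submodule.span F (Sset F L y) :=
  Submodule.subset_span ⟨f, hf, hL, hy, by rw [zzM_apply]⟩

theorem three_mem {p : FreeMalcev F ℕ} {S : Submodule F (FreeMalcev F ℕ)} (h : 3 • p ∈ S) : p ∈ S := by
  have h3 : (3 : F) ≠ 0 := C23.three
  have h1 : p = (3 : F)⁻¹ • (3 • p) := by
    rw [← Nat.cast_smul_eq_nsmul F, smul_smul]
    push_cast
    rw [inv_mul_cancel₀ h3, one_smul]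
  rw [h1]
  exact Submodule.smul_mem _ _ h

/-- the case where `y` is in the first place -/
theorem firstf (h7 : (7 : F) = 0) (L : Finset ℕ) (f : Fin 8 → ℕ) (hf : Function.Injective f)
    (hL : ∀ j, f j ∈ L) :
    zz F (FreeMalcev.of (f 0)) (FreeMalcev.of (f 1)) (FreeMalcev.of (f 2)) (FreeMalcev.of (f 3))
      (FreeMalcev.of (f 4)) (FreeMalcev.of (f 5)) (FreeMalcev.of (f 6)) (FreeMalcev.of (f 7) : FreeMalcev F ℕ) ∈
      Submodule.span F (Sset F L (f 0)) := by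
  apply three_mem
  rw [three_zz_move F h7 FreeMalcev.isMalcev]
  unfold zD
  have key : ∀ s : Fin 8 → Fin 8, Function.Injective s → (∀ j : Fin 8, (j : ℕ) < 5 → s j ≠ 0) →
      zz F (FreeMalcev.of (f (s 0))) (FreeMalcev.of (f (s 1))) (FreeMalcev.of (f (s 2)))
        (FreeMalcev.of (f (s 3))) (FreeMalcev.of (f (s 4))) (FreeMalcev.of (f (s 5)))
        (FreeMalcev.of (f (s 6))) (FreeMalcev.of (f (s 7)) : FreeMalcev F ℕ) ∈
      Submodule.span F (Sset F L (f 0)) := fun s h1 h2 =>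
    goodf F L (f 0) (f ∘ s) (hf.comp h1) (fun j => hL (s j)) fun j hj h => h2 j hj (hf h)
  exact Submodule.add_mem _ (Submodule.add_mem _ (Submodule.sub_mem _ (Submodule.neg_mem _
    (Submodule.add_mem _ (key ![6, 1, 2, 3, 4, 5, 7, 0] (by decide) (by decide))
      (key ![6, 1, 2, 3, 4, 5, 0, 7] (by decide) (by decide))))
    (Submodule.add_mem _ (key ![7, 1, 2, 3, 4, 5, 0, 6] (by decide) (by decide))
      (key ![7, 1, 2, 3, 4, 5, 6, 0] (by decide) (by decide))))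
    (Submodule.add_mem _ (key ![5, 1, 2, 3, 4, 6, 7, 0] (by decide) (by decide))
      (key ![5, 1, 2, 3, 4, 6, 0, 7] (by decide) (by decide))))
    (Submodule.add_mem _ (key ![7, 1, 2, 3, 4, 6, 0, 5] (by decide) (by decide))
      (key ![7, 1, 2, 3, 4, 6, 5, 0] (by decide) (by decide)))

theorem span_memf (h7 : (7 : F) = 0) (L : Finset ℕ) (y : ℕ) (f : Fin 8 → ℕ) (hf : Function.Injective f)
    (hL : ∀ j, f j ∈ L) :
    zz F (FreeMalcev.of (f 0)) (FreeMalcev.of (f 1)) (FreeMalcev.of (f 2)) (FreeMalcev.of (f 3))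
      (FreeMalcev.of (f 4)) (FreeMalcev.of (f 5)) (FreeMalcev.of (f 6)) (FreeMalcev.of (f 7) : FreeMalcev F ℕ) ∈
      Submodule.span F (Sset F L y) := by
  by_cases hy : ∃ j : Fin 8, (j : ℕ) < 5 ∧ f j = y
  · obtain ⟨j, hj, rfl⟩ := hy
    have key : ∀ s : Fin 8 → Fin 8, Function.Injective s → s 0 = j →
        zz F (FreeMalcev.of (f (s 0))) (FreeMalcev.of (f (s 1))) (FreeMalcev.of (f (s 2)))
          (FreeMalcev.of (f (s 3))) (FreeMalcev.of (f (s 4))) (FreeMalcev.of (f (s 5)))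
          (FreeMalcev.of (f (s 6))) (FreeMalcev.of (f (s 7)) : FreeMalcev F ℕ) ∈
        Submodule.span F (Sset F L (f j)) := by
      intro s h1 h2
      rw [← h2]
      exact firstf F h7 L (f ∘ s) (hf.comp h1) (fun i => hL (s i))
    fin_cases j
    · exact key ![0, 1, 2, 3, 4, 5, 6, 7] (by decide) rfl
    · rw [zz_s01]
      exact Submodule.neg_mem _ (key ![1, 0, 2, 3, 4, 5, 6, 7] (by decide) rfl)
    · rw [zz_s12, zz_s01, neg_neg]
      exact key ![2, 0, 1, 3, 4, 5, 6, 7] (by decide) rfl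
    · rw [zz_s23, zz_s12, zz_s01, neg_neg]
      exact Submodule.neg_mem _ (key ![3, 0, 1, 2, 4, 5, 6, 7] (by decide) rfl)
    · rw [zz_s34, zz_s23, zz_s12, zz_s01, neg_neg, neg_neg]
      exact key ![4, 0, 1, 2, 3, 5, 6, 7] (by decide) rfl
    all_goals exact absurd hj (by decide)
  · push Not at hy
    exact goodf F L y f hf hL hy

end E7bAux

open E7bAux

theorem E7_card (h7 : (7 : F) = 0) {m : Multiset ℕ} (hm : Multiset.card m ≠ 8)
    {q : FreeMalcev F ℕ} (hq : q ∈ E7sub F) (hg : q ∈ GM F m) : q = 0 := by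
  have h := mem_span F h7 hq hg
  have h0 : {p : FreeMalcev F ℕ | ∃ i : Fin 8 → ℕ, ct i = m ∧
      p = zzM F fun j => (FreeMalcev.of (i j) : FreeMalcev F ℕ)} = ∅ := by
    rw [Set.eq_empty_iff_forall_notMem]
    rintro p ⟨i, hi, -⟩
    apply hm
    rw [← hi]
    unfold ct
    rw [Multiset.coe_card, List.length_ofFn]
  rwa [h0, Submodule.span_empty, Submodule.mem_bot] at h

/-- a letter occurring four times occurs at least once among the places 5, 6, 7 twice, or twice among 0..4 -/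
theorem E7_four (h7 : (7 : F) = 0) {m : Multiset ℕ} {i : ℕ} (hm : 4 ≤ m.count i)
    {q : FreeMalcev F ℕ} (hq : q ∈ E7sub F) (hg : q ∈ GM F m) : q = 0 := by
  have h := mem_span F h7 hq hg
  rw [← Submodule.mem_bot F]
  refine Submodule.span_le.2 ?_ h
  intro p hp
  obtain ⟨f, hf, hp⟩ := hp
  rw [SetLike.mem_coe, hp, Submodule.mem_bot]
  apply zzM_zero
  by_contra hc
  push Not at hc
  obtain ⟨h1, h2⟩ := hc
  have h3 := List.nodup_iff_count_le_one.1 h1 i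
  rw [← hf, ct_eq] at hm
  simp only [Multiset.count_add, Multiset.count_singleton] at hm
  simp only [List.count_cons, List.count_nil, beq_iff_eq] at h3
  have e : ∀ j : Fin 8, (if f j = i then 1 else 0) = (if i = f j then (1 : ℕ) else 0) := by
    intro j
    by_cases hj : f j = i
    · rw [if_pos hj, if_pos hj.symm]
    · rw [if_neg hj, if_neg (Ne.symm hj)]
  rw [e 0, e 1, e 2, e 3, e 4] at h3
  have h4 : (if i = f 5 then 1 else 0) + (if i = f 6 then (1 : ℕ) else 0) ≤ 1 := by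
    by_cases h5 : i = f 5
    · have h6 : i ≠ f 6 := fun h => h2 (h5.symm.trans h)
      rw [if_neg h6]
      split_ifs <;> omega
    · rw [if_neg h5]
      split_ifs <;> omega
  have h5 : (if i = f 7 then (1 : ℕ) else 0) ≤ 1 := by split_ifs <;> omega
  omega

/-- for helper52: in multidegree `L`, `|L| = 8`, `y ∈ L`: the values at letters with `y` not in the first five places -/
theorem E7_span (h7 : (7 : F) = 0) {L : Finset ℕ} {y : ℕ} {q : FreeMalcev F ℕ}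
    (hq : q ∈ E7sub F) (hg : q ∈ GM F L.val) :
    q ∈ Submodule.span F {p | ∃ i : Fin 8 → ℕ, Function.Injective i ∧ (∀ j, i j ∈ L) ∧
      (∀ j : Fin 8, (j : ℕ) < 5 → i j ≠ y) ∧ p = zzM F fun j => (FreeMalcev.of (i j) : FreeMalcev F ℕ)} := by
  have h := mem_span F h7 hq hg
  change q ∈ Submodule.span F (Sset F L y)
  refine Submodule.span_le.2 ?_ h
  intro p hp
  obtain ⟨f, hf, hp⟩ := hp
  rw [SetLike.mem_coe, hp, zzM_apply]
  have h1 : (List.ofFn f).Nodup := by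
    have h2 : (ct f).Nodup := by rw [hf]; exact L.nodup
    exact Multiset.coe_nodup.1 h2
  refine span_memf F h7 L y f (List.nodup_ofFn.1 h1) fun j => ?_
  have h2 : f j ∈ ct f := Multiset.mem_coe.2 ((List.mem_ofFn' f _).2 ⟨j, rfl⟩)
  rw [hf] at h2
  exact h2

end Pool.Agent.MalP
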