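import Pool.Agent.MalP.P7.ChkDef

/-! # Data for the certificate of zC1Ex -/

set_option autoImplicit false
set_option maxRecDepth 100000

namespace Pool.Agent.MalP.Chk7

noncomputable def dC1a_c529 : Cm := .mk (nat_lit 18) (nat_lit 529) (nat_lit 20) (nat_lit 4) (.c (nat_lit 4) (nat_lit 1) (nat_lit 3) (nat_lit 1) (nat_lit 4) (.c (nat_lit 7) (nat_lit 1) (nat_lit 2) (nat_lit 1) (nat_lit 5) (.c (nat_lit 9) (nat_lit 1) (nat_lit 1) (nat_lit 1) (nat_lit 6) (.c (nat_lit 10) (nat_lit 3) (nat_lit 0) (nat_lit 1) (nat_lit 7) (.c (nat_lit 2512) (nat_lit 0) (nat_lit 5) (nat_lit 1) (nat_lit 10) .nil)))))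

noncomputable def dC1a_c514 : Cm := .mk (nat_lit 30) (nat_lit 514) (nat_lit 28) (nat_lit 3) (.c (nat_lit 4) (nat_lit 1) (nat_lit 4) (nat_lit 1) (nat_lit 3) (.c (nat_lit 9) (nat_lit 1) (nat_lit 2) (nat_lit 1) (nat_lit 4) (.c (nat_lit 14) (nat_lit 2) (nat_lit 0) (nat_lit 1) (nat_lit 5) (.c (nat_lit 2512) (nat_lit 0) (nat_lit 6) (nat_lit 1) (nat_lit 7) .nil))))

noncomputable def dC1a_c289 : Cm := .mk (nat_lit 24) (nat_lit 289) (nat_lit 24) (nat_lit 4) (.c (nat_lit 5) (nat_lit 1) (nat_lit 3) (nat_lit 1) (nat_lit 4) (.c (nat_lit 8) (nat_lit 1) (nat_lit 2) (nat_lit 1) (nat_lit 5) (.c (nat_lit 10) (nat_lit 3) (nat_lit 1) (nat_lit 1) (nat_lit 6) (.c (nat_lit 13) (nat_lit 1) (nat_lit 0) (nat_lit 1) (nat_lit 9) (.c (nat_lit 2032) (nat_lit 0) (nat_lit 4) (nat_lit 1) (nat_lit 10) .nil)))))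

noncomputable def dC1a_c274 : Cm := .mk (nat_lit 34) (nat_lit 274) (nat_lit 31) (nat_lit 6) (.c (nat_lit 5) (nat_lit 1) (nat_lit 4) (nat_lit 1) (nat_lit 6) (.c (nat_lit 6) (nat_lit 1) (nat_lit 3) (nat_lit 1) (nat_lit 7) (.c (nat_lit 10) (nat_lit 3) (nat_lit 2) (nat_lit 1) (nat_lit 8) (.c (nat_lit 14) (nat_lit 2) (nat_lit 1) (nat_lit 1) (nat_lit 11) (.c (nat_lit 16) (nat_lit 2) (nat_lit 0) (nat_lit 1) (nat_lit 13) .nil)))))

noncomputable def dC1a_c34 : Cm := .mk (nat_lit 43) (nat_lit 34) (nat_lit 37) (nat_lit 3) (.c (nat_lit 5) (nat_lit 1) (nat_lit 5) (nat_lit 1) (nat_lit 3) (.c (nat_lit 13) (nat_lit 1) (nat_lit 2) (nat_lit 1) (nat_lit 4) (.c (nat_lit 16) (nat_lit 2) (nat_lit 1) (nat_lit 1) (nat_lit 5) (.c (nat_lit 2032) (nat_lit 0) (nat_lit 6) (nat_lit 1) (nat_lit 7) .nil))))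

noncomputable def dC1a_c259 : Cm := .mk (nat_lit 47) (nat_lit 259) (nat_lit 40) (nat_lit 3) (.c (nat_lit 6) (nat_lit 1) (nat_lit 4) (nat_lit 1) (nat_lit 3) (.c (nat_lit 14) (nat_lit 2) (nat_lit 2) (nat_lit 1) (nat_lit 4) (.c (nat_lit 18) (nat_lit 1) (nat_lit 0) (nat_lit 1) (nat_lit 6) .nil)))

noncomputable def dC1a_c19 : Cm := .mk (nat_lit 51) (nat_lit 19) (nat_lit 43) (nat_lit 3) (.c (nat_lit 6) (nat_lit 1) (nat_lit 5) (nat_lit 1) (nat_lit 3) (.c (nat_lit 16) (nat_lit 2) (nat_lit 2) (nat_lit 1) (nat_lit 4) (.c (nat_lit 18) (nat_lit 1) (nat_lit 1) (nat_lit 1) (nat_lit 6) .nil)))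

noncomputable def dC1a_c545 : Cm := .mk (nat_lit 56) (nat_lit 545) (nat_lit 47) (nat_lit 8) (.c (nat_lit 7) (nat_lit 1) (nat_lit 5) (nat_lit 1) (nat_lit 8) (.c (nat_lit 8) (nat_lit 1) (nat_lit 4) (nat_lit 1) (nat_lit 9) (.c (nat_lit 10) (nat_lit 3) (nat_lit 3) (nat_lit 1) (nat_lit 10) (.c (nat_lit 19) (nat_lit 1) (nat_lit 2) (nat_lit 1) (nat_lit 13) (.c (nat_lit 20) (nat_lit 4) (nat_lit 1) (nat_lit 1) (nat_lit 14) (.c (nat_lit 24) (nat_lit 4) (nat_lit 0) (nat_lit 1) (nat_lit 18) (.c (nat_lit 2512) (nat_lit 0) (nat_lit 13) (nat_lit 1) (nat_lit 22) (.c (nat_lit 2032) (nat_lit 0) (nat_lit 9) (nat_lit 1) (nat_lit 22) .nil))))))))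

noncomputable def dC1a_c544 : Cm := .mk (nat_lit 16) (nat_lit 544) (nat_lit 19) (nat_lit 1) (.c (nat_lit 3) (nat_lit 1) (nat_lit 3) (nat_lit 1) (nat_lit 1) (.c (nat_lit 7) (nat_lit 1) (nat_lit 1) (nat_lit 1) (nat_lit 2) (.c (nat_lit 8) (nat_lit 1) (nat_lit 0) (nat_lit 1) (nat_lit 3) (.c (nat_lit 2512) (nat_lit 0) (nat_lit 2032) (nat_lit 0) (nat_lit 4) .nil))))

noncomputable def dC1a_c530 : Cm := .mk (nat_lit 70) (nat_lit 530) (nat_lit 55) (nat_lit 11) (.c (nat_lit 7) (nat_lit 1) (nat_lit 6) (nat_lit 1) (nat_lit 11) (.c (nat_lit 9) (nat_lit 1) (nat_lit 5) (nat_lit 1) (nat_lit 12) (.c (nat_lit 10) (nat_lit 3) (nat_lit 4) (nat_lit 1) (nat_lit 13) (.c (nat_lit 14) (nat_lit 2) (nat_lit 3) (nat_lit 1) (nat_lit 16) (.c (nat_lit 20) (nat_lit 4) (nat_lit 2) (nat_lit 1) (nat_lit 18) (.c (nat_lit 28) (nat_lit 3) (nat_lit 1) (nat_lit 1) (nat_lit 22) (.c (nat_lit 31) (nat_lit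 6) (nat_lit 0) (nat_lit 1) (nat_lit 25) (.c (nat_lit 2512) (nat_lit 0) (nat_lit 16) (nat_lit 2) (nat_lit 31) .nil))))))))

noncomputable def dC1a_c515 : Cm := .mk (nat_lit 110) (nat_lit 515) (nat_lit 77) (nat_lit 5) (.c (nat_lit 9) (nat_lit 1) (nat_lit 6) (nat_lit 1) (nat_lit 5) (.c (nat_lit 14) (nat_lit 2) (nat_lit 4) (nat_lit 1) (nat_lit 6) (.c (nat_lit 28) (nat_lit 3) (nat_lit 2) (nat_lit 1) (nat_lit 8) (.c (nat_lit 40) (nat_lit 3) (nat_lit 0) (nat_lit 1) (nat_lit 11) (.c (nat_lit 2512) (nat_lit 0) (nat_lit 18) (nat_lit 1) (nat_lit 14) .nil)))))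

noncomputable def dC1a_c546 : Cm := .mk (nat_lit 164) (nat_lit 546) (nat_lit 107) (nat_lit 25) (.c (nat_lit 10) (nat_lit 3) (nat_lit 10) (nat_lit 3) (nat_lit 25) (.c (nat_lit 13) (nat_lit 1) (nat_lit 9) (nat_lit 1) (nat_lit 34) (.c (nat_lit 14) (nat_lit 2) (nat_lit 8) (nat_lit 1) (nat_lit 35) (.c (nat_lit 16) (nat_lit 2) (nat_lit 7) (nat_lit 1) (nat_lit 37) (.c (nat_lit 19) (nat_lit 1) (nat_lit 6) (nat_lit 1) (nat_lit 39) (.c (nat_lit 20) (nat_lit 4) (nat_lit 5) (nat_lit 1) (nat_lit 40) (.c (nat_lit 24) (nat_lit 4) (nat_lit 4) (nat_lit 1) (nat_lit 44) (.c (nat_lit 31) (nat_lit 6) (nat_lit 3) (nat_lit 1) (nat_lit 48) (.c (nat_lit 47) (nat_lit 8) (nat_lit 2) (nat_lit 1) (nat_lit 54) (.c (nat_lit 55) (nat_lit 11) (nat_lit 1) (nat_lit 1) (nat_lit 62) (.c (nat_lit 66) (nat_lit 11) (nat_lit 0) (nat_lit 1) (nat_lit 73) (.c (nat_lit 2512) (nat_lit 0) (nat_lit 37) (nat_lit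 3) (nat_lit 84) (.c (nat_lit 2032) (nat_lit 0) (nat_lit 28) (nat_lit 3) (nat_lit 84) .nil)))))))))))))

noncomputable def dC1a_c290 : Cm := .mk (nat_lit 90) (nat_lit 290) (nat_lit 66) (nat_lit 11) (.c (nat_lit 8) (nat_lit 1) (nat_lit 6) (nat_lit 1) (nat_lit 11) (.c (nat_lit 10) (nat_lit 3) (nat_lit 5) (nat_lit 1) (nat_lit 12) (.c (nat_lit 13) (nat_lit 1) (nat_lit 4) (nat_lit 1) (nat_lit 15) (.c (nat_lit 16) (nat_lit 2) (nat_lit 3) (nat_lit 1) (nat_lit 16) (.c (nat_lit 24) (nat_lit 4) (nat_lit 2) (nat_lit 1) (nat_lit 18) (.c (nat_lit 31) (nat_lit 6) (nat_lit 1) (nat_lit 1) (nat_lit 22) (.c (nat_lit 37) (nat_lit 3) (nat_lit 0) (nat_lit 1) (nat_lit 28) (.c (nat_lit 2032) (nat_lit 0) (nat_lit 14) (nat_lit 2) (nat_lit 31) .nil))))))))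

noncomputable def dC1a_c35 : Cm := .mk (nat_lit 139) (nat_lit 35) (nat_lit 93) (nat_lit 5) (.c (nat_lit 13) (nat_lit 1) (nat_lit 6) (nat_lit 1) (nat_lit 5) (.c (nat_lit 16) (nat_lit 2) (nat_lit 5) (nat_lit 1) (nat_lit 6) (.c (nat_lit 37) (nat_lit 3) (nat_lit 2) (nat_lit 1) (nat_lit 8) (.c (nat_lit 43) (nat_lit 3) (nat_lit 1) (nat_lit 1) (nat_lit 11) (.c (nat_lit 2032) (nat_lit 0) (nat_lit 18) (nat_lit 1) (nat_lit 14) .nil)))))

noncomputable def dC1a_c275 : Cm := .mk (nat_lit 119) (nat_lit 275) (nat_lit 82) (nat_lit 11) (.c (nat_lit 10) (nat_lit 3) (nat_lit 6) (nat_lit 1) (nat_lit 11) (.c (nat_lit 14) (nat_lit 2) (nat_lit 5) (nat_lit 1) (nat_lit 14) (.c (nat_lit 16) (nat_lit 2) (nat_lit 4) (nat_lit 1) (nat_lit 16) (.c (nat_lit 18) (nat_lit 1) (nat_lit 3) (nat_lit 1) (nat_lit 18) (.c (nat_lit 31) (nat_lit 6) (nat_lit 2) (nat_lit 1) (nat_lit 19) (.c (nat_lit 40) (nat_lit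 3) (nat_lit 1) (nat_lit 1) (nat_lit 25) (.c (nat_lit 43) (nat_lit 3) (nat_lit 0) (nat_lit 1) (nat_lit 28) .nil)))))))

noncomputable def dC1a_c531 : Cm := .mk (nat_lit 219) (nat_lit 531) (nat_lit 132) (nat_lit 21) (.c (nat_lit 14) (nat_lit 2) (nat_lit 10) (nat_lit 3) (nat_lit 21) (.c (nat_lit 16) (nat_lit 2) (nat_lit 9) (nat_lit 1) (nat_lit 27) (.c (nat_lit 18) (nat_lit 1) (nat_lit 7) (nat_lit 1) (nat_lit 29) (.c (nat_lit 20) (nat_lit 4) (nat_lit 6) (nat_lit 1) (nat_lit 30) (.c (nat_lit 28) (nat_lit 3) (nat_lit 5) (nat_lit 1) (nat_lit 34) (.c (nat_lit 31) (nat_lit 6) (nat_lit 4) (nat_lit 1) (nat_lit 37) (.c (nat_lit 40) (nat_lit 3) (nat_lit 3) (nat_lit 1) (nat_lit 43) (.c (nat_lit 55) (nat_lit 11) (nat_lit 2) (nat_lit 1) (nat_lit 46) (.c (nat_lit 77) (nat_lit 5) (nat_lit 1) (nat_lit 1) (nat_lit 57) (.c (nat_lit 82) (nat_lit 11) (nat_lit 0) (nat_lit 1) (nat_lit 62) (.c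 (nat_lit 2512) (nat_lit 0) (nat_lit 43) (nat_lit 3) (nat_lit 73) .nil)))))))))))

noncomputable def dC1a_c291 : Cm := .mk (nat_lit 271) (nat_lit 291) (nat_lit 153) (nat_lit 21) (.c (nat_lit 14) (nat_lit 2) (nat_lit 13) (nat_lit 1) (nat_lit 21) (.c (nat_lit 16) (nat_lit 2) (nat_lit 10) (nat_lit 3) (nat_lit 23) (.c (nat_lit 18) (nat_lit 1) (nat_lit 8) (nat_lit 1) (nat_lit 29) (.c (nat_lit 24) (nat_lit 4) (nat_lit 6) (nat_lit 1) (nat_lit 30) (.c (nat_lit 31) (nat_lit 6) (nat_lit 5) (nat_lit 1) (nat_lit 34) (.c (nat_lit 37) (nat_lit 3) (nat_lit 4) (nat_lit 1) (nat_lit 40) (.c (nat_lit 43) (nat_lit 3) (nat_lit 3) (nat_lit 1) (nat_lit 43) (.c (nat_lit 66) (nat_lit 11) (nat_lit 2) (nat_lit 1) (nat_lit 46) (.c (nat_lit 82) (nat_lit 11) (nat_lit 1) (nat_lit 1) (nat_lit 57) (.c (nat_lit 93) (nat_lit 5) (nat_lit 0) (nat_lit 1) (nat_lit 68) (.c (nat_lit 2032) (nat_lit 0) (nat_lit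 40) (nat_lit 3) (nat_lit 73) .nil)))))))))))

noncomputable def dC1a_c260 : Cm := .mk (nat_lit 148) (nat_lit 260) (nat_lit 98) (nat_lit 4) (.c (nat_lit 14) (nat_lit 2) (nat_lit 6) (nat_lit 1) (nat_lit 4) (.c (nat_lit 18) (nat_lit 1) (nat_lit 4) (nat_lit 1) (nat_lit 6) (.c (nat_lit 40) (nat_lit 3) (nat_lit 2) (nat_lit 1) (nat_lit 7) (.c (nat_lit 46) (nat_lit 1) (nat_lit 0) (nat_lit 1) (nat_lit 10) .nil))))

noncomputable def dC1a_c516 : Cm := .mk (nat_lit 323) (nat_lit 516) (nat_lit 174) (nat_lit 6) (.c (nat_lit 14) (nat_lit 2) (nat_lit 14) (nat_lit 2) (nat_lit 6) (.c (nat_lit 18) (nat_lit 1) (nat_lit 9) (nat_lit 1) (nat_lit 10) (.c (nat_lit 28) (nat_lit 3) (nat_lit 6) (nat_lit 1) (nat_lit 11) (.c (nat_lit 40) (nat_lit 3) (nat_lit 4) (nat_lit 1) (nat_lit 14) (.c (nat_lit 77) (nat_lit 5) (nat_lit 2) (nat_lit 1) (nat_lit 17) (.c (nat_lit 98) (nat_lit 4) (nat_lit 0) (nat_lit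 1) (nat_lit 22) (.c (nat_lit 2512) (nat_lit 0) (nat_lit 46) (nat_lit 1) (nat_lit 26) .nil)))))))

noncomputable def dC1a_c276 : Cm := .mk (nat_lit 340) (nat_lit 276) (nat_lit 180) (nat_lit 16) (.c (nat_lit 16) (nat_lit 2) (nat_lit 14) (nat_lit 2) (nat_lit 16) (.c (nat_lit 18) (nat_lit 1) (nat_lit 10) (nat_lit 3) (nat_lit 20) (.c (nat_lit 31) (nat_lit 6) (nat_lit 6) (nat_lit 1) (nat_lit 23) (.c (nat_lit 40) (nat_lit 3) (nat_lit 5) (nat_lit 1) (nat_lit 29) (.c (nat_lit 43) (nat_lit 3) (nat_lit 4) (nat_lit 1) (nat_lit 32) (.c (nat_lit 46) (nat_lit 1) (nat_lit 3) (nat_lit 1) (nat_lit 35) (.c (nat_lit 82) (nat_lit 11) (nat_lit 2) (nat_lit 1) (nat_lit 36) (.c (nat_lit 98) (nat_lit 4) (nat_lit 1) (nat_lit 1) (nat_lit 47) (.c (nat_lit 102) (nat_lit 4) (nat_lit 0) (nat_lit 1) (nat_lit 51) .nil)))))))))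

noncomputable def dC1a_c20 : Cm := .mk (nat_lit 155) (nat_lit 20) (nat_lit 102) (nat_lit 4) (.c (nat_lit 16) (nat_lit 2) (nat_lit 6) (nat_lit 1) (nat_lit 4) (.c (nat_lit 18) (nat_lit 1) (nat_lit 5) (nat_lit 1) (nat_lit 6) (.c (nat_lit 43) (nat_lit 3) (nat_lit 2) (nat_lit 1) (nat_lit 7) (.c (nat_lit 46) (nat_lit 1) (nat_lit 1) (nat_lit 1) (nat_lit 10) .nil))))

noncomputable def dC1a_c36 : Cm := .mk (nat_lit 379) (nat_lit 36) (nat_lit 196) (nat_lit 6) (.c (nat_lit 16) (nat_lit 2) (nat_lit 16) (nat_lit 2) (nat_lit 6) (.c (nat_lit 18) (nat_lit 1) (nat_lit 13) (nat_lit 1) (nat_lit 10) (.c (nat_lit 37) (nat_lit 3) (nat_lit 6) (nat_lit 1) (nat_lit 11) (.c (nat_lit 43) (nat_lit 3) (nat_lit 5) (nat_lit 1) (nat_lit 14) (.c (nat_lit 93) (nat_lit 5) (nat_lit 2) (nat_lit 1) (nat_lit 17) (.c (nat_lit 102) (nat_lit 4) (nat_lit 1) (nat_lit 1) (nat_lit 22) (.c (nat_lit 2032) (nat_lit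 0) (nat_lit 46) (nat_lit 1) (nat_lit 26) .nil)))))))

noncomputable def dC1a_c5 : Cm := .mk (nat_lit 162) (nat_lit 5) (nat_lit 106) (nat_lit 1) (.c (nat_lit 18) (nat_lit 1) (nat_lit 6) (nat_lit 1) (nat_lit 1) (.c (nat_lit 46) (nat_lit 1) (nat_lit 2) (nat_lit 1) (nat_lit 2) .nil))

noncomputable def dC1a_c261 : Cm := .mk (nat_lit 396) (nat_lit 261) (nat_lit 202) (nat_lit 5) (.c (nat_lit 18) (nat_lit 1) (nat_lit 14) (nat_lit 2) (nat_lit 5) (.c (nat_lit 40) (nat_lit 3) (nat_lit 6) (nat_lit 1) (nat_lit 7) (.c (nat_lit 46) (nat_lit 1) (nat_lit 4) (nat_lit 1) (nat_lit 10) (.c (nat_lit 98) (nat_lit 4) (nat_lit 2) (nat_lit 1) (nat_lit 11) (.c (nat_lit 106) (nat_lit 1) (nat_lit 0) (nat_lit 1) (nat_lit 15) .nil)))))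

noncomputable def dC1a_c21 : Cm := .mk (nat_lit 407) (nat_lit 21) (nat_lit 207) (nat_lit 5) (.c (nat_lit 18) (nat_lit 1) (nat_lit 16) (nat_lit 2) (nat_lit 5) (.c (nat_lit 43) (nat_lit 3) (nat_lit 6) (nat_lit 1) (nat_lit 7) (.c (nat_lit 46) (nat_lit 1) (nat_lit 5) (nat_lit 1) (nat_lit 10) (.c (nat_lit 102) (nat_lit 4) (nat_lit 2) (nat_lit 1) (nat_lit 11) (.c (nat_lit 106) (nat_lit 1) (nat_lit 1) (nat_lit 1) (nat_lit 15) .nil)))))

noncomputable def dC1a_c547 : Cm := .mk (nat_lit 418) (nat_lit 547) (nat_lit 212) (nat_lit 48) (.c (nat_lit 19) (nat_lit 1) (nat_lit 18) (nat_lit 1) (nat_lit 48) (.c (nat_lit 20) (nat_lit 4) (nat_lit 16) (nat_lit 2) (nat_lit 49) (.c (nat_lit 24) (nat_lit 4) (nat_lit 14) (nat_lit 2) (nat_lit 57) (.c (nat_lit 28) (nat_lit 3) (nat_lit 13) (nat_lit 1) (nat_lit 65) (.c (nat_lit 31) (nat_lit 6) (nat_lit 10) (nat_lit 3) (nat_lit 68) (.c (nat_lit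 37) (nat_lit 3) (nat_lit 9) (nat_lit 1) (nat_lit 86) (.c (nat_lit 40) (nat_lit 3) (nat_lit 8) (nat_lit 1) (nat_lit 89) (.c (nat_lit 43) (nat_lit 3) (nat_lit 7) (nat_lit 1) (nat_lit 92) (.c (nat_lit 47) (nat_lit 8) (nat_lit 6) (nat_lit 1) (nat_lit 95) (.c (nat_lit 55) (nat_lit 11) (nat_lit 5) (nat_lit 1) (nat_lit 103) (.c (nat_lit 66) (nat_lit 11) (nat_lit 4) (nat_lit 1) (nat_lit 114) (.c (nat_lit 82) (nat_lit 11) (nat_lit 3) (nat_lit 1) (nat_lit 125) (.c (nat_lit 107) (nat_lit 25) (nat_lit 2) (nat_lit 1) (nat_lit 136) (.c (nat_lit 132) (nat_lit 21) (nat_lit 1) (nat_lit 1) (nat_lit 161) (.c (nat_lit 153) (nat_lit 21) (nat_lit 0) (nat_lit 1) (nat_lit 182) (.c (nat_lit 2512) (nat_lit 0) (nat_lit 93) (nat_lit 5) (nat_lit 203) (.c (nat_lit 2032) (nat_lit 0) (nat_lit 77) (nat_lit 5) (nat_lit 203) .nil)))))))))))))))))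

noncomputable def dC1a_c532 : Cm := .mk (nat_lit 573) (nat_lit 532) (nat_lit 260) (nat_lit 30) (.c (nat_lit 20) (nat_lit 4) (nat_lit 18) (nat_lit 1) (nat_lit 30) (.c (nat_lit 28) (nat_lit 3) (nat_lit 16) (nat_lit 2) (nat_lit 34) (.c (nat_lit 31) (nat_lit 6) (nat_lit 14) (nat_lit 2) (nat_lit 40) (.c (nat_lit 40) (nat_lit 3) (nat_lit 10) (nat_lit 3) (nat_lit 52) (.c (nat_lit 43) (nat_lit 3) (nat_lit 9) (nat_lit 1) (nat_lit 61) (.c (nat_lit 46) (nat_lit 1) (nat_lit 7) (nat_lit 1) (nat_lit 64) (.c (nat_lit 55) (nat_lit 11) (nat_lit 6) (nat_lit 1) (nat_lit 65) (.c (nat_lit 77) (nat_lit 5) (nat_lit 5) (nat_lit 1) (nat_lit 76) (.c (nat_lit 82) (nat_lit 11) (nat_lit 4) (nat_lit 1) (nat_lit 81) (.c (nat_lit 98) (nat_lit 4) (nat_lit 3) (nat_lit 1) (nat_lit 92) (.c (nat_lit 132) (nat_lit 21) (nat_lit 2) (nat_lit 1) (nat_lit 96) (.c (nat_lit 174) (nat_lit 6) (nat_lit 1) (nat_lit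 1) (nat_lit 117) (.c (nat_lit 180) (nat_lit 16) (nat_lit 0) (nat_lit 1) (nat_lit 123) (.c (nat_lit 2512) (nat_lit 0) (nat_lit 102) (nat_lit 4) (nat_lit 139) .nil))))))))))))))

noncomputable def dC1a_i0 : IL := (.s true (nat_lit 1) (nat_lit 11) (nat_lit 6) (nat_lit 0) (nat_lit 1) true (nat_lit 1) true (nat_lit 13) true (nat_lit 4) true (nat_lit 8) true (nat_lit 14) (.e false (nat_lit 1) (nat_lit 20) (nat_lit 17) (nat_lit 1) (.e false (nat_lit 1) (nat_lit 21) (nat_lit 17) (nat_lit 1) (.e false (nat_lit 3) (nat_lit 132) (nat_lit 1) (nat_lit 13) (.e false (nat_lit 2) (nat_lit 133) (nat_lit 1) (nat_lit 13) (.e true (nat_lit 2) (nat_lit 134) (nat_lit 1) (nat_lit 13) (.e true (nat_lit 2) (nat_lit 135) (nat_lit 1) (nat_lit 13) (.e false (nat_lit 3) (nat_lit 136) (nat_lit 1) (nat_lit 13) (.e true (nat_lit 3) (nat_lit 138) (nat_lit 1) (nat_lit 13) (.e true (nat_lit 1) (nat_lit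 139) (nat_lit 1) (nat_lit 13) (.e false (nat_lit 3) (nat_lit 141) (nat_lit 1) (nat_lit 13) (.e false (nat_lit 3) (nat_lit 142) (nat_lit 1) (nat_lit 13) (.e true (nat_lit 2) (nat_lit 144) (nat_lit 1) (nat_lit 13) (.e true (nat_lit 1) (nat_lit 145) (nat_lit 1) (nat_lit 13) (.e false (nat_lit 1) (nat_lit 146) (nat_lit 1) (nat_lit 13) (.e true (nat_lit 2) (nat_lit 148) (nat_lit 1) (nat_lit 13) (.e true (nat_lit 3) (nat_lit 149) (nat_lit 1) (nat_lit 13) (.e true (nat_lit 1) (nat_lit 151) (nat_lit 1) (nat_lit 13) (.e false (nat_lit 3) (nat_lit 152) (nat_lit 1) (nat_lit 13) (.e true (nat_lit 1) (nat_lit 35) (nat_lit 11) (nat_lit 4) (.e true (nat_lit 1) (nat_lit 48) (nat_lit 6) (nat_lit 8) (.e false (nat_lit 1) (nat_lit 50) (nat_lit 6) (nat_lit 8) (.e true (nat_lit 1) (nat_lit 54) (nat_lit 6) (nat_lit 8) (.e false (nat_lit 1) (nat_lit 172) (nat_lit 0) (nat_lit 14) (.u (nat_lit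 2) (.p (nat_lit 0) (nat_lit 1) (.p (nat_lit 1) (nat_lit 2) (.n (nat_lit 2) (nat_lit 1) (.n (nat_lit 5) (nat_lit 2) (.n (nat_lit 6) (nat_lit 1) (.p (nat_lit 7) (nat_lit 1) (.n (nat_lit 10) (nat_lit 1) (.n (nat_lit 11) (nat_lit 1) (.p (nat_lit 12) (nat_lit 1) (.p (nat_lit 15) (nat_lit 1) (.n (nat_lit 17) (nat_lit 1) (.p (nat_lit 18) (nat_lit 1) (.p (nat_lit 20) (nat_lit 1) (.n (nat_lit 22) (nat_lit 2) (.p (nat_lit 23) (nat_lit 1) (.p (nat_lit 24) (nat_lit 2) (.p (nat_lit 25) (nat_lit 1) (.n (nat_lit 26) (nat_lit 1) (.n (nat_lit 27) (nat_lit 1) (.p (nat_lit 28) (nat_lit 1) (.n (nat_lit 31) (nat_lit 1) (.p (nat_lit 32) (nat_lit 1) (.n (nat_lit 33) (nat_lit 1) (.p (nat_lit 36) (nat_lit 1) (.n (nat_lit 38) (nat_lit 1) (.p (nat_lit 40) (nat_lit 1) .z)))))))))))))))))))))))))) .nil)))))))))))))))))))))))))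

noncomputable def dC1a_i1 : IL := (.e false (nat_lit 1) (nat_lit 157) (nat_lit 0) (nat_lit 14) (.e true (nat_lit 3) (nat_lit 167) (nat_lit 0) (nat_lit 14) (.e true (nat_lit 2) (nat_lit 155) (nat_lit 0) (nat_lit 14) (.e true (nat_lit 1) (nat_lit 163) (nat_lit 0) (nat_lit 14) (.e true (nat_lit 2) (nat_lit 153) (nat_lit 0) (nat_lit 14) (.e false (nat_lit 2) (nat_lit 159) (nat_lit 0) (nat_lit 14) (.e false (nat_lit 3) (nat_lit 160) (nat_lit 0) (nat_lit 14) (.e false (nat_lit 1) (nat_lit 161) (nat_lit 0) (nat_lit 14) (.e false (nat_lit 1) (nat_lit 170) (nat_lit 0) (nat_lit 14) (.e false (nat_lit 1) (nat_lit 173) (nat_lit 0) (nat_lit 14) (.e false (nat_lit 2) (nat_lit 165) (nat_lit 0) (nat_lit 14) (.e false (nat_lit 2) (nat_lit 166) (nat_lit 0) (nat_lit 14) (.e true (nat_lit 1) (nat_lit 154) (nat_lit 0) (nat_lit 14) (.e false (nat_lit 2) (nat_lit 171) (nat_lit 0) (nat_lit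 14) (.e true (nat_lit 2) (nat_lit 172) (nat_lit 0) (nat_lit 14) (.e true (nat_lit 3) (nat_lit 156) (nat_lit 0) (nat_lit 14) (.e false (nat_lit 3) (nat_lit 162) (nat_lit 0) (nat_lit 14) (.e true (nat_lit 2) (nat_lit 55) (nat_lit 5) (nat_lit 9) (.e false (nat_lit 2) (nat_lit 56) (nat_lit 5) (nat_lit 9) (.e false (nat_lit 3) (nat_lit 57) (nat_lit 5) (nat_lit 9) (.e true (nat_lit 2) (nat_lit 58) (nat_lit 5) (nat_lit 9) (.e false (nat_lit 1) (nat_lit 61) (nat_lit 5) (nat_lit 9) (.e true (nat_lit 2) (nat_lit 64) (nat_lit 5) (nat_lit 9) (.e false (nat_lit 3) (nat_lit 65) (nat_lit 5) (nat_lit 9) (.u (nat_lit 2) (.p (nat_lit 0) (nat_lit 2) (.p (nat_lit 1) (nat_lit 1) (.n (nat_lit 2) (nat_lit 1) (.n (nat_lit 3) (nat_lit 1) (.n (nat_lit 5) (nat_lit 1) (.p (nat_lit 6) (nat_lit 2) (.p (nat_lit 7) (nat_lit 1) (.p (nat_lit 8) (nat_lit 2) (.n (nat_lit 9) (nat_lit 1) (.p (nat_lit 11)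 (nat_lit 2) (.p (nat_lit 12) (nat_lit 3) (.p (nat_lit 14) (nat_lit 3) (.n (nat_lit 15) (nat_lit 1) (.p (nat_lit 18) (nat_lit 1) (.p (nat_lit 19) (nat_lit 1) (.p (nat_lit 20) (nat_lit 3) (.p (nat_lit 22) (nat_lit 1) (.n (nat_lit 23) (nat_lit 1) (.p (nat_lit 24) (nat_lit 4) (.p (nat_lit 25) (nat_lit 1) (.n (nat_lit 27) (nat_lit 3) (.p (nat_lit 28) (nat_lit 2) (.n (nat_lit 29) (nat_lit 2) (.p (nat_lit 30) (nat_lit 4) (.p (nat_lit 31) (nat_lit 3) (.n (nat_lit 32) (nat_lit 2) (.n (nat_lit 33) (nat_lit 1) (.p (nat_lit 34) (nat_lit 3) (.n (nat_lit 35) (nat_lit 3) (.n (nat_lit 36) (nat_lit 3) (.p (nat_lit 40) (nat_lit 1) (.n (nat_lit 42) (nat_lit 1) (.n (nat_lit 105) (nat_lit 1) (.n (nat_lit 113) (nat_lit 1) (.n (nat_lit 182) (nat_lit 1) (.p (nat_lit 184) (nat_lit 1) (.p (nat_lit 186) (nat_lit 1) (.n (nat_lit 190) (nat_lit 1) (.p (nat_lit 192) (nat_lit 1) (.n (nat_lit 202)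 (nat_lit 1) .z)))))))))))))))))))))))))))))))))))))))) .nil)))))))))))))))))))))))))

noncomputable def dC1a_c292 : Cm := .mk (nat_lit 682) (nat_lit 292) (nat_lit 290) (nat_lit 30) (.c (nat_lit 24) (nat_lit 4) (nat_lit 18) (nat_lit 1) (nat_lit 30) (.c (nat_lit 31) (nat_lit 6) (nat_lit 16) (nat_lit 2) (nat_lit 34) (.c (nat_lit 37) (nat_lit 3) (nat_lit 14) (nat_lit 2) (nat_lit 46) (.c (nat_lit 40) (nat_lit 3) (nat_lit 13) (nat_lit 1) (nat_lit 52) (.c (nat_lit 43) (nat_lit 3) (nat_lit 10) (nat_lit 3) (nat_lit 55) (.c (nat_lit 46) (nat_lit 1) (nat_lit 8) (nat_lit 1) (nat_lit 64) (.c (nat_lit 66) (nat_lit 11) (nat_lit 6) (nat_lit 1) (nat_lit 65) (.c (nat_lit 82) (nat_lit 11) (nat_lit 5) (nat_lit 1) (nat_lit 76) (.c (nat_lit 93) (nat_lit 5) (nat_lit 4) (nat_lit 1) (nat_lit 87) (.c (nat_lit 102) (nat_lit 4) (nat_lit 3) (nat_lit 1) (nat_lit 92) (.c (nat_lit 153) (nat_lit 21)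 (nat_lit 2) (nat_lit 1) (nat_lit 96) (.c (nat_lit 180) (nat_lit 16) (nat_lit 1) (nat_lit 1) (nat_lit 117) (.c (nat_lit 196) (nat_lit 6) (nat_lit 0) (nat_lit 1) (nat_lit 133) (.c (nat_lit 2032) (nat_lit 0) (nat_lit 98) (nat_lit 4) (nat_lit 139) .nil))))))))))))))

noncomputable def dC1a_i2 : IL := (.e false (nat_lit 1) (nat_lit 41) (nat_lit 8) (nat_lit 6) (.e true (nat_lit 2) (nat_lit 132) (nat_lit 1) (nat_lit 13) (.e false (nat_lit 2) (nat_lit 133) (nat_lit 1) (nat_lit 13) (.e false (nat_lit 3) (nat_lit 134) (nat_lit 1) (nat_lit 13) (.e true (nat_lit 2) (nat_lit 135) (nat_lit 1) (nat_lit 13) (.e false (nat_lit 1) (nat_lit 138) (nat_lit 1) (nat_lit 13) (.e true (nat_lit 1) (nat_lit 141) (nat_lit 1) (nat_lit 13) (.e false (nat_lit 2) (nat_lit 142) (nat_lit 1) (nat_lit 13) (.e false (nat_lit 2) (nat_lit 82) (nat_lit 3) (nat_lit 11) (.e false (nat_lit 2) (nat_lit 83) (nat_lit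 3) (nat_lit 11) (.e false (nat_lit 1) (nat_lit 84) (nat_lit 3) (nat_lit 11) (.e false (nat_lit 1) (nat_lit 85) (nat_lit 3) (nat_lit 11) (.e true (nat_lit 2) (nat_lit 86) (nat_lit 3) (nat_lit 11) (.e false (nat_lit 2) (nat_lit 87) (nat_lit 3) (nat_lit 11) (.e false (nat_lit 1) (nat_lit 88) (nat_lit 3) (nat_lit 11) (.e true (nat_lit 1) (nat_lit 89) (nat_lit 3) (nat_lit 11) (.e true (nat_lit 1) (nat_lit 91) (nat_lit 3) (nat_lit 11) (.e true (nat_lit 2) (nat_lit 107) (nat_lit 2) (nat_lit 12) (.e true (nat_lit 2) (nat_lit 112) (nat_lit 2) (nat_lit 12) (.e false (nat_lit 2) (nat_lit 114) (nat_lit 2) (nat_lit 12) (.e true (nat_lit 1) (nat_lit 121) (nat_lit 2) (nat_lit 12) (.e false (nat_lit 1) (nat_lit 123) (nat_lit 2) (nat_lit 12) (.e false (nat_lit 1) (nat_lit 126) (nat_lit 2) (nat_lit 12) (.e false (nat_lit 1) (nat_lit 129) (nat_lit 2) (nat_lit 12) (.u (nat_lit 2) (.n (nat_lit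 0) (nat_lit 2) (.p (nat_lit 1) (nat_lit 1) (.n (nat_lit 3) (nat_lit 3) (.p (nat_lit 4) (nat_lit 2) (.p (nat_lit 7) (nat_lit 1) (.n (nat_lit 8) (nat_lit 3) (.p (nat_lit 9) (nat_lit 2) (.n (nat_lit 10) (nat_lit 1) (.p (nat_lit 11) (nat_lit 1) (.p (nat_lit 12) (nat_lit 1) (.n (nat_lit 14) (nat_lit 2) (.n (nat_lit 15) (nat_lit 1) (.p (nat_lit 17) (nat_lit 1) (.p (nat_lit 19) (nat_lit 3) (.p (nat_lit 20) (nat_lit 1) (.p (nat_lit 22) (nat_lit 1) (.n (nat_lit 23) (nat_lit 1) (.n (nat_lit 24) (nat_lit 1) (.n (nat_lit 25) (nat_lit 3) (.n (nat_lit 26) (nat_lit 1) (.p (nat_lit 29) (nat_lit 3) (.p (nat_lit 30) (nat_lit 2) (.p (nat_lit 31) (nat_lit 2) (.n (nat_lit 32) (nat_lit 1) (.p (nat_lit 33) (nat_lit 1) .z))))))))))))))))))))))))) .nil)))))))))))))))))))))))))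

noncomputable def dC1a_i3 : IL := (.e true (nat_lit 3) (nat_lit 164) (nat_lit 0) (nat_lit 14) (.e false (nat_lit 2) (nat_lit 165) (nat_lit 0) (nat_lit 14) (.e true (nat_lit 1) (nat_lit 168) (nat_lit 0) (nat_lit 14) (.e true (nat_lit 2) (nat_lit 169) (nat_lit 0) (nat_lit 14) (.e true (nat_lit 1) (nat_lit 170) (nat_lit 0) (nat_lit 14) (.e false (nat_lit 3) (nat_lit 171) (nat_lit 0) (nat_lit 14) (.e true (nat_lit 1) (nat_lit 172) (nat_lit 0) (nat_lit 14) (.e true (nat_lit 2) (nat_lit 173) (nat_lit 0) (nat_lit 14) (.e true (nat_lit 3) (nat_lit 132) (nat_lit 1) (nat_lit 13) (.e true (nat_lit 3) (nat_lit 133) (nat_lit 1) (nat_lit 13) (.e true (nat_lit 1) (nat_lit 134) (nat_lit 1) (nat_lit 13) (.e true (nat_lit 3) (nat_lit 138) (nat_lit 1) (nat_lit 13) (.e true (nat_lit 3) (nat_lit 139) (nat_lit 1) (nat_lit 13) (.e false (nat_lit 2) (nat_lit 141) (nat_lit 1) (nat_lit 13)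 (.e false (nat_lit 1) (nat_lit 143) (nat_lit 1) (nat_lit 13) (.e true (nat_lit 2) (nat_lit 149) (nat_lit 1) (nat_lit 13) (.e false (nat_lit 3) (nat_lit 151) (nat_lit 1) (nat_lit 13) (.e true (nat_lit 1) (nat_lit 152) (nat_lit 1) (nat_lit 13) (.e false (nat_lit 1) (nat_lit 140) (nat_lit 1) (nat_lit 13) (.e false (nat_lit 3) (nat_lit 136) (nat_lit 1) (nat_lit 13) (.e true (nat_lit 3) (nat_lit 144) (nat_lit 1) (nat_lit 13) (.e true (nat_lit 3) (nat_lit 145) (nat_lit 1) (nat_lit 13) (.e true (nat_lit 2) (nat_lit 147) (nat_lit 1) (nat_lit 13) (.e false (nat_lit 2) (nat_lit 148) (nat_lit 1) (nat_lit 13) (.u (nat_lit 2) (.p (nat_lit 0) (nat_lit 1) (.p (nat_lit 2) (nat_lit 1) (.p (nat_lit 3) (nat_lit 2) (.p (nat_lit 4) (nat_lit 1) (.n (nat_lit 5) (nat_lit 1) (.n (nat_lit 6) (nat_lit 2) (.p (nat_lit 7) (nat_lit 2) (.p (nat_lit 9) (nat_lit 2) (.n (nat_lit 10) (nat_lit 1) (.n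 (nat_lit 11) (nat_lit 2) (.p (nat_lit 12) (nat_lit 2) (.n (nat_lit 14) (nat_lit 1) (.p (nat_lit 15) (nat_lit 2) (.p (nat_lit 19) (nat_lit 1) (.n (nat_lit 20) (nat_lit 1) (.p (nat_lit 21) (nat_lit 1) (.p (nat_lit 22) (nat_lit 1) (.p (nat_lit 23) (nat_lit 2) (.p (nat_lit 24) (nat_lit 1) (.n (nat_lit 27) (nat_lit 4) (.p (nat_lit 28) (nat_lit 1) (.p (nat_lit 29) (nat_lit 3) (.n (nat_lit 30) (nat_lit 1) (.n (nat_lit 31) (nat_lit 1) (.n (nat_lit 32) (nat_lit 1) (.p (nat_lit 36) (nat_lit 1) (.n (nat_lit 38) (nat_lit 1) (.p (nat_lit 40) (nat_lit 1) (.p (nat_lit 161) (nat_lit 1) (.p (nat_lit 163) (nat_lit 2) (.p (nat_lit 164) (nat_lit 1) (.p (nat_lit 166) (nat_lit 1) (.p (nat_lit 167) (nat_lit 1) (.p (nat_lit 168) (nat_lit 2) (.n (nat_lit 169) (nat_lit 1) (.n (nat_lit 170) (nat_lit 1) (.n (nat_lit 171) (nat_lit 2) (.p (nat_lit 173) (nat_lit 1) (.p (nat_lit 174) (nat_lit 1) (.p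 (nat_lit 178) (nat_lit 2) (.p (nat_lit 179) (nat_lit 2) (.n (nat_lit 180) (nat_lit 1) (.n (nat_lit 181) (nat_lit 1) .z))))))))))))))))))))))))))))))))))))))))))) .nil)))))))))))))))))))))))))

noncomputable def dC1a_c517 : Cm := .mk (nat_lit 791) (nat_lit 517) (nat_lit 320) (nat_lit 8) (.c (nat_lit 28) (nat_lit 3) (nat_lit 18) (nat_lit 1) (nat_lit 8) (.c (nat_lit 40) (nat_lit 3) (nat_lit 14) (nat_lit 2) (nat_lit 11) (.c (nat_lit 46) (nat_lit 1) (nat_lit 9) (nat_lit 1) (nat_lit 17) (.c (nat_lit 77) (nat_lit 5) (nat_lit 6) (nat_lit 1) (nat_lit 18) (.c (nat_lit 98) (nat_lit 4) (nat_lit 4) (nat_lit 1) (nat_lit 23) (.c (nat_lit 174) (nat_lit 6) (nat_lit 2) (nat_lit 1) (nat_lit 27) (.c (nat_lit 202) (nat_lit 5) (nat_lit 0) (nat_lit 1) (nat_lit 33) (.c (nat_lit 2512) (nat_lit 0) (nat_lit 106) (nat_lit 1) (nat_lit 38) .nil))))))))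

noncomputable def dC1a_i4 : IL := (.s false (nat_lit 3) (nat_lit 16) (nat_lit 2) (nat_lit 0) (nat_lit 0) true (nat_lit 5) true (nat_lit 9) false (nat_lit 1) true (nat_lit 7) true (nat_lit 9) (.e true (nat_lit 3) (nat_lit 21) (nat_lit 6) (nat_lit 3) (.e false (nat_lit 3) (nat_lit 22) (nat_lit 6) (nat_lit 3) (.e true (nat_lit 3) (nat_lit 56) (nat_lit 2) (nat_lit 7) (.e false (nat_lit 1) (nat_lit 57) (nat_lit 2) (nat_lit 7) (.e false (nat_lit 3) (nat_lit 58) (nat_lit 2) (nat_lit 7) (.e true (nat_lit 1) (nat_lit 62) (nat_lit 2) (nat_lit 7) (.e true (nat_lit 2) (nat_lit 65) (nat_lit 2) (nat_lit 7) (.e true (nat_lit 1) (nat_lit 55) (nat_lit 2) (nat_lit 7) (.e true (nat_lit 3) (nat_lit 61) (nat_lit 2) (nat_lit 7) (.e false (nat_lit 3) (nat_lit 64) (nat_lit 2) (nat_lit 7) (.e true (nat_lit 3) (nat_lit 17) (nat_lit 9) (nat_lit 1) (.e false (nat_lit 1) (nat_lit 35) (nat_lit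 4) (nat_lit 5) (.e true (nat_lit 3) (nat_lit 78) (nat_lit 1) (nat_lit 8) (.e false (nat_lit 3) (nat_lit 83) (nat_lit 0) (nat_lit 9) (.e false (nat_lit 1) (nat_lit 87) (nat_lit 0) (nat_lit 9) (.e true (nat_lit 1) (nat_lit 92) (nat_lit 0) (nat_lit 9) (.e true (nat_lit 3) (nat_lit 20) (nat_lit 6) (nat_lit 3) (.e true (nat_lit 3) (nat_lit 79) (nat_lit 1) (nat_lit 8) (.e false (nat_lit 3) (nat_lit 81) (nat_lit 1) (nat_lit 8) (.e true (nat_lit 3) (nat_lit 14) (nat_lit 11) (nat_lit 0) (.e false (nat_lit 1) (nat_lit 80) (nat_lit 1) (nat_lit 8) (.e true (nat_lit 1) (nat_lit 60) (nat_lit 2) (nat_lit 7) (.e true (nat_lit 3) (nat_lit 16) (nat_lit 9) (nat_lit 1) (.u (nat_lit 2) (.n (nat_lit 2) (nat_lit 1) (.p (nat_lit 3) (nat_lit 1) (.n (nat_lit 4) (nat_lit 6) (.p (nat_lit 5) (nat_lit 2) (.n (nat_lit 7) (nat_lit 1) (.p (nat_lit 8) (nat_lit 2) (.p (nat_lit 11) (nat_lit 1) (.n (nat_lit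 12) (nat_lit 2) (.p (nat_lit 16) (nat_lit 1) (.n (nat_lit 17) (nat_lit 1) (.n (nat_lit 18) (nat_lit 2) (.p (nat_lit 20) (nat_lit 1) (.p (nat_lit 25) (nat_lit 1) (.p (nat_lit 28) (nat_lit 1) (.p (nat_lit 47) (nat_lit 2) (.n (nat_lit 48) (nat_lit 3) (.n (nat_lit 49) (nat_lit 2) (.p (nat_lit 52) (nat_lit 1) (.n (nat_lit 53) (nat_lit 1) (.n (nat_lit 55) (nat_lit 1) (.p (nat_lit 56) (nat_lit 2) (.p (nat_lit 57) (nat_lit 1) (.p (nat_lit 58) (nat_lit 2) (.n (nat_lit 61) (nat_lit 1) (.p (nat_lit 65) (nat_lit 1) (.n (nat_lit 67) (nat_lit 1) (.n (nat_lit 71) (nat_lit 1) (.p (nat_lit 72) (nat_lit 1) .z)))))))))))))))))))))))))))) .nil)))))))))))))))))))))))))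

noncomputable def dC1a_c277 : Cm := .mk (nat_lit 821) (nat_lit 277) (nat_lit 328) (nat_lit 19) (.c (nat_lit 31) (nat_lit 6) (nat_lit 18) (nat_lit 1) (nat_lit 19) (.c (nat_lit 40) (nat_lit 3) (nat_lit 16) (nat_lit 2) (nat_lit 25) (.c (nat_lit 43) (nat_lit 3) (nat_lit 14) (nat_lit 2) (nat_lit 31) (.c (nat_lit 46) (nat_lit 1) (nat_lit 10) (nat_lit 3) (nat_lit 37) (.c (nat_lit 82) (nat_lit 11) (nat_lit 6) (nat_lit 1) (nat_lit 40) (.c (nat_lit 98) (nat_lit 4) (nat_lit 5) (nat_lit 1) (nat_lit 51) (.c (nat_lit 102) (nat_lit 4) (nat_lit 4) (nat_lit 1) (nat_lit 55) (.c (nat_lit 106) (nat_lit 1) (nat_lit 3) (nat_lit 1) (nat_lit 59) (.c (nat_lit 180) (nat_lit 16) (nat_lit 2) (nat_lit 1) (nat_lit 60) (.c (nat_lit 202) (nat_lit 5) (nat_lit 1) (nat_lit 1) (nat_lit 76) (.c (nat_lit 207) (nat_lit 5) (nat_lit 0) (nat_lit 1) (nat_lit 81) .nil)))))))))))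

noncomputable def dC1a_i5 : IL := (.e true (nat_lit 1) (nat_lit 53) (nat_lit 6) (nat_lit 8) (.e false (nat_lit 1) (nat_lit 33) (nat_lit 10) (nat_lit 4) (.e true (nat_lit 1) (nat_lit 34) (nat_lit 10) (nat_lit 4) (.e false (nat_lit 1) (nat_lit 36) (nat_lit 10) (nat_lit 4) (.e false (nat_lit 3) (nat_lit 132) (nat_lit 1) (nat_lit 13) (.e true (nat_lit 2) (nat_lit 133) (nat_lit 1) (nat_lit 13) (.e false (nat_lit 2) (nat_lit 134) (nat_lit 1) (nat_lit 13) (.e true (nat_lit 3) (nat_lit 135) (nat_lit 1) (nat_lit 13) (.e true (nat_lit 3) (nat_lit 136) (nat_lit 1) (nat_lit 13) (.e true (nat_lit 2) (nat_lit 137) (nat_lit 1) (nat_lit 13) (.e false (nat_lit 2) (nat_lit 138) (nat_lit 1) (nat_lit 13) (.e true (nat_lit 2) (nat_lit 139) (nat_lit 1) (nat_lit 13) (.e true (nat_lit 1) (nat_lit 141) (nat_lit 1) (nat_lit 13) (.e false (nat_lit 2) (nat_lit 142) (nat_lit 1) (nat_lit 13) (.e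 true (nat_lit 1) (nat_lit 143) (nat_lit 1) (nat_lit 13) (.e true (nat_lit 2) (nat_lit 144) (nat_lit 1) (nat_lit 13) (.e true (nat_lit 1) (nat_lit 145) (nat_lit 1) (nat_lit 13) (.e false (nat_lit 1) (nat_lit 146) (nat_lit 1) (nat_lit 13) (.e true (nat_lit 2) (nat_lit 147) (nat_lit 1) (nat_lit 13) (.e true (nat_lit 1) (nat_lit 149) (nat_lit 1) (nat_lit 13) (.e true (nat_lit 1) (nat_lit 150) (nat_lit 1) (nat_lit 13) (.e true (nat_lit 3) (nat_lit 151) (nat_lit 1) (nat_lit 13) (.e true (nat_lit 3) (nat_lit 152) (nat_lit 1) (nat_lit 13) (.e false (nat_lit 1) (nat_lit 167) (nat_lit 0) (nat_lit 14) (.u (nat_lit 2) (.p (nat_lit 1) (nat_lit 3) (.n (nat_lit 2) (nat_lit 1) (.n (nat_lit 3) (nat_lit 1) (.n (nat_lit 5) (nat_lit 1) (.p (nat_lit 6) (nat_lit 1) (.n (nat_lit 7) (nat_lit 1) (.n (nat_lit 9) (nat_lit 1) (.n (nat_lit 10) (nat_lit 1) (.n (nat_lit 11) (nat_lit 1) (.n (nat_lit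 15) (nat_lit 1) (.p (nat_lit 17) (nat_lit 1) (.n (nat_lit 19) (nat_lit 1) (.p (nat_lit 21) (nat_lit 1) (.n (nat_lit 22) (nat_lit 1) (.n (nat_lit 23) (nat_lit 1) (.p (nat_lit 30) (nat_lit 1) (.p (nat_lit 32) (nat_lit 1) (.p (nat_lit 33) (nat_lit 1) (.n (nat_lit 36) (nat_lit 1) (.p (nat_lit 37) (nat_lit 1) .z)))))))))))))))))))) .nil)))))))))))))))))))))))))

noncomputable def dC1a_i6 : IL := (.e false (nat_lit 1) (nat_lit 293) (nat_lit 0) (nat_lit 19) (.e false (nat_lit 1) (nat_lit 294) (nat_lit 0) (nat_lit 19) (.e false (nat_lit 1) (nat_lit 295) (nat_lit 0) (nat_lit 19) (.e true (nat_lit 1) (nat_lit 296) (nat_lit 0) (nat_lit 19) (.e false (nat_lit 1) (nat_lit 297) (nat_lit 0) (nat_lit 19) (.e false (nat_lit 1) (nat_lit 299) (nat_lit 0) (nat_lit 19) (.e false (nat_lit 2) (nat_lit 300) (nat_lit 0) (nat_lit 19) (.e true (nat_lit 3) (nat_lit 301) (nat_lit 0) (nat_lit 19)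 (.e true (nat_lit 2) (nat_lit 302) (nat_lit 0) (nat_lit 19) (.e true (nat_lit 3) (nat_lit 304) (nat_lit 0) (nat_lit 19) (.e false (nat_lit 1) (nat_lit 305) (nat_lit 0) (nat_lit 19) (.e true (nat_lit 3) (nat_lit 307) (nat_lit 0) (nat_lit 19) (.e true (nat_lit 3) (nat_lit 308) (nat_lit 0) (nat_lit 19) (.e false (nat_lit 1) (nat_lit 310) (nat_lit 0) (nat_lit 19) (.e true (nat_lit 1) (nat_lit 312) (nat_lit 0) (nat_lit 19) (.e true (nat_lit 2) (nat_lit 316) (nat_lit 0) (nat_lit 19) (.e true (nat_lit 2) (nat_lit 317) (nat_lit 0) (nat_lit 19) (.e false (nat_lit 2) (nat_lit 318) (nat_lit 0) (nat_lit 19) (.e true (nat_lit 1) (nat_lit 214) (nat_lit 2) (nat_lit 17) (.e true (nat_lit 2) (nat_lit 217) (nat_lit 2) (nat_lit 17) (.e false (nat_lit 1) (nat_lit 222) (nat_lit 2) (nat_lit 17) (.e true (nat_lit 1) (nat_lit 224) (nat_lit 2) (nat_lit 17) (.e false (nat_lit 1) (nat_lit 227)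 (nat_lit 2) (nat_lit 17) (.e false (nat_lit 1) (nat_lit 230) (nat_lit 2) (nat_lit 17) (.u (nat_lit 2) (.n (nat_lit 0) (nat_lit 1) (.p (nat_lit 1) (nat_lit 1) (.n (nat_lit 2) (nat_lit 2) (.p (nat_lit 3) (nat_lit 1) (.p (nat_lit 4) (nat_lit 1) (.n (nat_lit 5) (nat_lit 2) (.n (nat_lit 7) (nat_lit 1) (.n (nat_lit 8) (nat_lit 2) (.n (nat_lit 9) (nat_lit 1) (.n (nat_lit 12) (nat_lit 1) (.n (nat_lit 14) (nat_lit 1) (.p (nat_lit 15) (nat_lit 1) (.n (nat_lit 17) (nat_lit 1) (.n (nat_lit 18) (nat_lit 1) (.p (nat_lit 19) (nat_lit 1) (.n (nat_lit 20) (nat_lit 1) (.n (nat_lit 26) (nat_lit 2) (.n (nat_lit 28) (nat_lit 1) (.n (nat_lit 29) (nat_lit 1) (.n (nat_lit 32) (nat_lit 1) (.n (nat_lit 34) (nat_lit 1) (.p (nat_lit 36) (nat_lit 1) (.n (nat_lit 37) (nat_lit 1) (.p (nat_lit 38) (nat_lit 2) (.n (nat_lit 39) (nat_lit 1) (.n (nat_lit 40) (nat_lit 1) (.n (nat_lit 49) (nat_lit 1) (.n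 (nat_lit 50) (nat_lit 1) (.p (nat_lit 51) (nat_lit 1) (.n (nat_lit 53) (nat_lit 1) (.p (nat_lit 55) (nat_lit 1) (.p (nat_lit 69) (nat_lit 1) (.n (nat_lit 70) (nat_lit 1) (.p (nat_lit 78) (nat_lit 1) .z)))))))))))))))))))))))))))))))))) .nil)))))))))))))))))))))))))

noncomputable def dC1a_c548 : Cm := .mk (nat_lit 917) (nat_lit 548) (nat_lit 355) (nat_lit 71) (.c (nat_lit 31) (nat_lit 6) (nat_lit 31) (nat_lit 6) (nat_lit 71) (.c (nat_lit 37) (nat_lit 3) (nat_lit 28) (nat_lit 3) (nat_lit 107) (.c (nat_lit 40) (nat_lit 3) (nat_lit 24) (nat_lit 4) (nat_lit 116) (.c (nat_lit 43) (nat_lit 3) (nat_lit 20) (nat_lit 4) (nat_lit 128) (.c (nat_lit 46) (nat_lit 1) (nat_lit 19) (nat_lit 1) (nat_lit 140) (.c (nat_lit 47) (nat_lit 8) (nat_lit 18) (nat_lit 1) (nat_lit 141) (.c (nat_lit 55) (nat_lit 11) (nat_lit 16) (nat_lit 2) (nat_lit 149) (.c (nat_lit 66) (nat_lit 11) (nat_lit 14)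 (nat_lit 2) (nat_lit 171) (.c (nat_lit 77) (nat_lit 5) (nat_lit 13) (nat_lit 1) (nat_lit 193) (.c (nat_lit 82) (nat_lit 11) (nat_lit 10) (nat_lit 3) (nat_lit 198) (.c (nat_lit 93) (nat_lit 5) (nat_lit 9) (nat_lit 1) (nat_lit 231) (.c (nat_lit 98) (nat_lit 4) (nat_lit 8) (nat_lit 1) (nat_lit 236) (.c (nat_lit 102) (nat_lit 4) (nat_lit 7) (nat_lit 1) (nat_lit 240) (.c (nat_lit 107) (nat_lit 25) (nat_lit 6) (nat_lit 1) (nat_lit 244) (.c (nat_lit 132) (nat_lit 21) (nat_lit 5) (nat_lit 1) (nat_lit 269) (.c (nat_lit 153) (nat_lit 21) (nat_lit 4) (nat_lit 1) (nat_lit 290) (.c (nat_lit 180) (nat_lit 16) (nat_lit 3) (nat_lit 1) (nat_lit 311) (.c (nat_lit 212) (nat_lit 48) (nat_lit 2) (nat_lit 1) (nat_lit 327) (.c (nat_lit 260) (nat_lit 30) (nat_lit 1) (nat_lit 1) (nat_lit 375) (.c (nat_lit 290) (nat_lit 30) (nat_lit 0) (nat_lit 1) (nat_lit 405) (.c (nat_lit 2512) (nat_lit 0)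 (nat_lit 196) (nat_lit 6) (nat_lit 435) (.c (nat_lit 2032) (nat_lit 0) (nat_lit 174) (nat_lit 6) (nat_lit 435) .nil))))))))))))))))))))))

noncomputable def dC1a_i7 : IL := (.e true (nat_lit 1) (nat_lit 165) (nat_lit 0) (nat_lit 14) (.e true (nat_lit 3) (nat_lit 167) (nat_lit 0) (nat_lit 14) (.e false (nat_lit 1) (nat_lit 168) (nat_lit 0) (nat_lit 14) (.e true (nat_lit 1) (nat_lit 170) (nat_lit 0) (nat_lit 14) (.e false (nat_lit 2) (nat_lit 171) (nat_lit 0) (nat_lit 14) (.e false (nat_lit 1) (nat_lit 172) (nat_lit 0) (nat_lit 14) (.e false (nat_lit 3) (nat_lit 173) (nat_lit 0) (nat_lit 14) (.e false (nat_lit 1) (nat_lit 108) (nat_lit 2) (nat_lit 12) (.e false (nat_lit 1) (nat_lit 109) (nat_lit 2) (nat_lit 12) (.e true (nat_lit 2) (nat_lit 112) (nat_lit 2) (nat_lit 12) (.e true (nat_lit 1) (nat_lit 113) (nat_lit 2) (nat_lit 12) (.e false (nat_lit 3) (nat_lit 114) (nat_lit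 2) (nat_lit 12) (.e true (nat_lit 1) (nat_lit 116) (nat_lit 2) (nat_lit 12) (.e false (nat_lit 2) (nat_lit 117) (nat_lit 2) (nat_lit 12) (.e false (nat_lit 1) (nat_lit 118) (nat_lit 2) (nat_lit 12) (.e false (nat_lit 3) (nat_lit 119) (nat_lit 2) (nat_lit 12) (.e true (nat_lit 3) (nat_lit 120) (nat_lit 2) (nat_lit 12) (.e false (nat_lit 3) (nat_lit 121) (nat_lit 2) (nat_lit 12) (.e false (nat_lit 3) (nat_lit 124) (nat_lit 2) (nat_lit 12) (.e false (nat_lit 1) (nat_lit 129) (nat_lit 2) (nat_lit 12) (.e true (nat_lit 1) (nat_lit 110) (nat_lit 2) (nat_lit 12) (.e true (nat_lit 3) (nat_lit 123) (nat_lit 2) (nat_lit 12) (.e false (nat_lit 1) (nat_lit 130) (nat_lit 2) (nat_lit 12) (.e true (nat_lit 1) (nat_lit 127) (nat_lit 2) (nat_lit 12) (.u (nat_lit 2) (.n (nat_lit 0) (nat_lit 1) (.n (nat_lit 1) (nat_lit 1) (.p (nat_lit 2) (nat_lit 3) (.n (nat_lit 6) (nat_lit 1) (.n (nat_lit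 7) (nat_lit 2) (.n (nat_lit 9) (nat_lit 2) (.n (nat_lit 10) (nat_lit 2) (.n (nat_lit 11) (nat_lit 3) (.n (nat_lit 12) (nat_lit 2) (.n (nat_lit 14) (nat_lit 1) (.n (nat_lit 15) (nat_lit 3) (.p (nat_lit 16) (nat_lit 1) (.n (nat_lit 17) (nat_lit 2) (.n (nat_lit 18) (nat_lit 1) (.n (nat_lit 19) (nat_lit 3) (.n (nat_lit 20) (nat_lit 2) (.n (nat_lit 21) (nat_lit 2) (.n (nat_lit 22) (nat_lit 3) (.p (nat_lit 23) (nat_lit 1) (.n (nat_lit 24) (nat_lit 2) (.p (nat_lit 25) (nat_lit 5) (.n (nat_lit 26) (nat_lit 2) (.n (nat_lit 27) (nat_lit 1) (.n (nat_lit 28) (nat_lit 2) (.n (nat_lit 29) (nat_lit 1) (.n (nat_lit 30) (nat_lit 1) (.n (nat_lit 32) (nat_lit 2) (.p (nat_lit 33) (nat_lit 1) (.n (nat_lit 34) (nat_lit 2) (.p (nat_lit 35) (nat_lit 2) (.p (nat_lit 39) (nat_lit 1) (.n (nat_lit 40) (nat_lit 1) (.n (nat_lit 45) (nat_lit 1) (.n (nat_lit 143) (nat_lit 1) (.p (nat_lit 149) (nat_lit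 1) (.n (nat_lit 153) (nat_lit 1) .z)))))))))))))))))))))))))))))))))))) .nil)))))))))))))))))))))))))

noncomputable def dC1a_i8 : IL := (.e false (nat_lit 1) (nat_lit 138) (nat_lit 1) (nat_lit 13) (.e true (nat_lit 1) (nat_lit 139) (nat_lit 1) (nat_lit 13) (.e true (nat_lit 2) (nat_lit 140) (nat_lit 1) (nat_lit 13) (.e true (nat_lit 1) (nat_lit 141) (nat_lit 1) (nat_lit 13) (.e false (nat_lit 3) (nat_lit 142) (nat_lit 1) (nat_lit 13) (.e false (nat_lit 1) (nat_lit 143) (nat_lit 1) (nat_lit 13) (.e true (nat_lit 3) (nat_lit 144) (nat_lit 1) (nat_lit 13) (.e true (nat_lit 1) (nat_lit 146) (nat_lit 1) (nat_lit 13) (.e true (nat_lit 1) (nat_lit 147) (nat_lit 1) (nat_lit 13) (.e false (nat_lit 1) (nat_lit 148) (nat_lit 1) (nat_lit 13) (.e true (nat_lit 3) (nat_lit 149) (nat_lit 1) (nat_lit 13) (.e false (nat_lit 1) (nat_lit 150) (nat_lit 1) (nat_lit 13) (.e false (nat_lit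 1) (nat_lit 151) (nat_lit 1) (nat_lit 13) (.e false (nat_lit 3) (nat_lit 152) (nat_lit 1) (nat_lit 13) (.e true (nat_lit 1) (nat_lit 116) (nat_lit 2) (nat_lit 12) (.e false (nat_lit 1) (nat_lit 117) (nat_lit 2) (nat_lit 12) (.e false (nat_lit 1) (nat_lit 118) (nat_lit 2) (nat_lit 12) (.e false (nat_lit 3) (nat_lit 121) (nat_lit 2) (nat_lit 12) (.e false (nat_lit 1) (nat_lit 109) (nat_lit 2) (nat_lit 12) (.e false (nat_lit 3) (nat_lit 119) (nat_lit 2) (nat_lit 12) (.e true (nat_lit 3) (nat_lit 120) (nat_lit 2) (nat_lit 12) (.e true (nat_lit 3) (nat_lit 123) (nat_lit 2) (nat_lit 12) (.e false (nat_lit 3) (nat_lit 124) (nat_lit 2) (nat_lit 12) (.e false (nat_lit 1) (nat_lit 130) (nat_lit 2) (nat_lit 12) (.u (nat_lit 2) (.p (nat_lit 0) (nat_lit 1) (.n (nat_lit 1) (nat_lit 2) (.p (nat_lit 2) (nat_lit 1) (.p (nat_lit 3) (nat_lit 2) (.n (nat_lit 4) (nat_lit 1) (.n (nat_lit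 6) (nat_lit 1) (.n (nat_lit 7) (nat_lit 1) (.n (nat_lit 10) (nat_lit 2) (.n (nat_lit 11) (nat_lit 4) (.n (nat_lit 12) (nat_lit 1) (.p (nat_lit 14) (nat_lit 1) (.n (nat_lit 17) (nat_lit 2) (.n (nat_lit 18) (nat_lit 1) (.n (nat_lit 19) (nat_lit 2) (.n (nat_lit 22) (nat_lit 2) (.p (nat_lit 23) (nat_lit 3) (.p (nat_lit 25) (nat_lit 4) (.n (nat_lit 26) (nat_lit 1) (.n (nat_lit 27) (nat_lit 1) (.n (nat_lit 28) (nat_lit 1) (.n (nat_lit 29) (nat_lit 1) (.n (nat_lit 30) (nat_lit 1) (.n (nat_lit 32) (nat_lit 3) (.n (nat_lit 34) (nat_lit 2) (.p (nat_lit 35) (nat_lit 2) (.p (nat_lit 36) (nat_lit 1) (.p (nat_lit 37) (nat_lit 1) (.p (nat_lit 39) (nat_lit 1) (.n (nat_lit 40) (nat_lit 1) (.n (nat_lit 45) (nat_lit 1) (.n (nat_lit 150) (nat_lit 1) (.p (nat_lit 152) (nat_lit 1) (.n (nat_lit 153) (nat_lit 1) .z))))))))))))))))))))))))))))))))) .nil)))))))))))))))))))))))))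

noncomputable def dC1a_i9 : IL := (.e true (nat_lit 3) (nat_lit 156) (nat_lit 0) (nat_lit 14) (.e false (nat_lit 1) (nat_lit 157) (nat_lit 0) (nat_lit 14) (.e true (nat_lit 2) (nat_lit 159) (nat_lit 0) (nat_lit 14) (.e false (nat_lit 1) (nat_lit 160) (nat_lit 0) (nat_lit 14) (.e true (nat_lit 3) (nat_lit 161) (nat_lit 0) (nat_lit 14) (.e false (nat_lit 2) (nat_lit 162) (nat_lit 0) (nat_lit 14) (.e false (nat_lit 2) (nat_lit 163) (nat_lit 0) (nat_lit 14) (.e true (nat_lit 3) (nat_lit 164) (nat_lit 0) (nat_lit 14) (.e true (nat_lit 1) (nat_lit 165) (nat_lit 0) (nat_lit 14) (.e false (nat_lit 1) (nat_lit 166) (nat_lit 0) (nat_lit 14) (.e true (nat_lit 3) (nat_lit 168) (nat_lit 0) (nat_lit 14) (.e false (nat_lit 2) (nat_lit 170) (nat_lit 0) (nat_lit 14) (.e true (nat_lit 2) (nat_lit 173) (nat_lit 0) (nat_lit 14) (.e true (nat_lit 1) (nat_lit 109) (nat_lit 2) (nat_lit 12)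 (.e false (nat_lit 1) (nat_lit 112) (nat_lit 2) (nat_lit 12) (.e true (nat_lit 1) (nat_lit 114) (nat_lit 2) (nat_lit 12) (.e false (nat_lit 2) (nat_lit 115) (nat_lit 2) (nat_lit 12) (.e false (nat_lit 1) (nat_lit 116) (nat_lit 2) (nat_lit 12) (.e true (nat_lit 1) (nat_lit 120) (nat_lit 2) (nat_lit 12) (.e false (nat_lit 1) (nat_lit 123) (nat_lit 2) (nat_lit 12) (.e true (nat_lit 1) (nat_lit 124) (nat_lit 2) (nat_lit 12) (.e false (nat_lit 1) (nat_lit 125) (nat_lit 2) (nat_lit 12) (.e true (nat_lit 1) (nat_lit 129) (nat_lit 2) (nat_lit 12) (.e true (nat_lit 1) (nat_lit 130) (nat_lit 2) (nat_lit 12) (.u (nat_lit 2) (.n (nat_lit 0) (nat_lit 1) (.n (nat_lit 2) (nat_lit 1) (.p (nat_lit 3) (nat_lit 2) (.n (nat_lit 4) (nat_lit 1) (.p (nat_lit 5) (nat_lit 1) (.p (nat_lit 7) (nat_lit 1) (.n (nat_lit 8) (nat_lit 1) (.n (nat_lit 9) (nat_lit 1) (.p (nat_lit 10) (nat_lit 1) (.p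 (nat_lit 11) (nat_lit 1) (.p (nat_lit 15) (nat_lit 1) (.n (nat_lit 19) (nat_lit 2) (.n (nat_lit 20) (nat_lit 1) (.p (nat_lit 21) (nat_lit 2) (.p (nat_lit 22) (nat_lit 1) (.p (nat_lit 24) (nat_lit 1) (.n (nat_lit 25) (nat_lit 2) (.p (nat_lit 26) (nat_lit 3) (.n (nat_lit 27) (nat_lit 1) (.p (nat_lit 28) (nat_lit 2) (.p (nat_lit 29) (nat_lit 1) (.n (nat_lit 30) (nat_lit 1) (.p (nat_lit 31) (nat_lit 1) (.p (nat_lit 32) (nat_lit 1) (.p (nat_lit 33) (nat_lit 1) (.p (nat_lit 34) (nat_lit 1) (.n (nat_lit 35) (nat_lit 1) (.n (nat_lit 36) (nat_lit 1) (.n (nat_lit 39) (nat_lit 1) .z))))))))))))))))))))))))))))) .nil)))))))))))))))))))))))))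

noncomputable def dC1a_i10 : IL := (.e false (nat_lit 1) (nat_lit 169) (nat_lit 0) (nat_lit 14) (.e false (nat_lit 1) (nat_lit 170) (nat_lit 0) (nat_lit 14) (.e false (nat_lit 1) (nat_lit 171) (nat_lit 0) (nat_lit 14) (.e true (nat_lit 1) (nat_lit 172) (nat_lit 0) (nat_lit 14) (.e true (nat_lit 1) (nat_lit 173) (nat_lit 0) (nat_lit 14) (.e false (nat_lit 1) (nat_lit 147) (nat_lit 1) (nat_lit 13) (.e true (nat_lit 1) (nat_lit 148) (nat_lit 1) (nat_lit 13) (.e true (nat_lit 3) (nat_lit 134) (nat_lit 1) (nat_lit 13) (.e true (nat_lit 2) (nat_lit 135) (nat_lit 1) (nat_lit 13) (.e false (nat_lit 2) (nat_lit 137) (nat_lit 1) (nat_lit 13) (.e true (nat_lit 1) (nat_lit 139) (nat_lit 1) (nat_lit 13) (.e false (nat_lit 1) (nat_lit 142) (nat_lit 1) (nat_lit 13) (.e true (nat_lit 1) (nat_lit 143) (nat_lit 1) (nat_lit 13) (.e true (nat_lit 1) (nat_lit 144) (nat_lit 1) (nat_lit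 13) (.e true (nat_lit 1) (nat_lit 146) (nat_lit 1) (nat_lit 13) (.e true (nat_lit 1) (nat_lit 149) (nat_lit 1) (nat_lit 13) (.e false (nat_lit 2) (nat_lit 150) (nat_lit 1) (nat_lit 13) (.e true (nat_lit 3) (nat_lit 151) (nat_lit 1) (nat_lit 13) (.e true (nat_lit 2) (nat_lit 152) (nat_lit 1) (nat_lit 13) (.e false (nat_lit 2) (nat_lit 133) (nat_lit 1) (nat_lit 13) (.e true (nat_lit 3) (nat_lit 140) (nat_lit 1) (nat_lit 13) (.e true (nat_lit 2) (nat_lit 138) (nat_lit 1) (nat_lit 13) (.e false (nat_lit 3) (nat_lit 141) (nat_lit 1) (nat_lit 13) (.e false (nat_lit 3) (nat_lit 145) (nat_lit 1) (nat_lit 13) (.u (nat_lit 2) (.p (nat_lit 0) (nat_lit 2) (.p (nat_lit 2) (nat_lit 2) (.p (nat_lit 5) (nat_lit 1) (.p (nat_lit 6) (nat_lit 1) (.n (nat_lit 7) (nat_lit 1) (.p (nat_lit 8) (nat_lit 3) (.n (nat_lit 9) (nat_lit 2) (.n (nat_lit 10) (nat_lit 2) (.n (nat_lit 11) (nat_lit 3)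 (.n (nat_lit 12) (nat_lit 2) (.n (nat_lit 15) (nat_lit 2) (.p (nat_lit 16) (nat_lit 1) (.n (nat_lit 17) (nat_lit 1) (.p (nat_lit 19) (nat_lit 1) (.n (nat_lit 21) (nat_lit 1) (.n (nat_lit 22) (nat_lit 2) (.p (nat_lit 24) (nat_lit 1) (.p (nat_lit 25) (nat_lit 2) (.p (nat_lit 26) (nat_lit 1) (.p (nat_lit 27) (nat_lit 2) (.n (nat_lit 29) (nat_lit 1) (.p (nat_lit 37) (nat_lit 1) (.n (nat_lit 39) (nat_lit 1) (.n (nat_lit 46) (nat_lit 1) (.p (nat_lit 161) (nat_lit 1) (.n (nat_lit 162) (nat_lit 1) (.p (nat_lit 163) (nat_lit 1) (.p (nat_lit 164) (nat_lit 1) (.p (nat_lit 168) (nat_lit 1) (.n (nat_lit 169) (nat_lit 1) (.n (nat_lit 171) (nat_lit 2) (.p (nat_lit 173) (nat_lit 1) (.n (nat_lit 174) (nat_lit 1) (.p (nat_lit 180) (nat_lit 1) .z)))))))))))))))))))))))))))))))))) .nil)))))))))))))))))))))))))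

noncomputable def dC1a_i11 : IL := (.e true (nat_lit 1) (nat_lit 58) (nat_lit 6) (nat_lit 6) (.e true (nat_lit 3) (nat_lit 59) (nat_lit 6) (nat_lit 6) (.e true (nat_lit 3) (nat_lit 60) (nat_lit 6) (nat_lit 6) (.e false (nat_lit 3) (nat_lit 61) (nat_lit 6) (nat_lit 6) (.e false (nat_lit 1) (nat_lit 63) (nat_lit 6) (nat_lit 6) (.e false (nat_lit 3) (nat_lit 64) (nat_lit 6) (nat_lit 6) (.e true (nat_lit 3) (nat_lit 65) (nat_lit 6) (nat_lit 6) (.e true (nat_lit 3) (nat_lit 132) (nat_lit 2) (nat_lit 10) (.e true (nat_lit 3) (nat_lit 133) (nat_lit 2) (nat_lit 10) (.e false (nat_lit 3) (nat_lit 134) (nat_lit 2) (nat_lit 10) (.e false (nat_lit 3) (nat_lit 135) (nat_lit 2) (nat_lit 10) (.e false (nat_lit 1) (nat_lit 136) (nat_lit 2) (nat_lit 10) (.e false (nat_lit 1) (nat_lit 137) (nat_lit 2) (nat_lit 10) (.e true (nat_lit 2) (nat_lit 138) (nat_lit 2) (nat_lit 10) (.e false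 (nat_lit 3) (nat_lit 139) (nat_lit 2) (nat_lit 10) (.e true (nat_lit 3) (nat_lit 142) (nat_lit 2) (nat_lit 10) (.e true (nat_lit 3) (nat_lit 143) (nat_lit 2) (nat_lit 10) (.e true (nat_lit 1) (nat_lit 145) (nat_lit 2) (nat_lit 10) (.e true (nat_lit 3) (nat_lit 146) (nat_lit 2) (nat_lit 10) (.e true (nat_lit 2) (nat_lit 149) (nat_lit 2) (nat_lit 10) (.e false (nat_lit 1) (nat_lit 152) (nat_lit 2) (nat_lit 10) (.e false (nat_lit 2) (nat_lit 141) (nat_lit 2) (nat_lit 10) (.e true (nat_lit 2) (nat_lit 151) (nat_lit 2) (nat_lit 10) (.e false (nat_lit 1) (nat_lit 183) (nat_lit 0) (nat_lit 12) (.u (nat_lit 2) (.n (nat_lit 1) (nat_lit 4) (.n (nat_lit 2) (nat_lit 1) (.p (nat_lit 3) (nat_lit 3) (.p (nat_lit 4) (nat_lit 1) (.p (nat_lit 5) (nat_lit 3) (.p (nat_lit 6) (nat_lit 3) (.n (nat_lit 7) (nat_lit 3) (.p (nat_lit 8) (nat_lit 2) (.p (nat_lit 9) (nat_lit 2) (.p (nat_lit 11)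 (nat_lit 3) (.n (nat_lit 12) (nat_lit 2) (.p (nat_lit 13) (nat_lit 1) (.n (nat_lit 14) (nat_lit 1) (.n (nat_lit 17) (nat_lit 3) (.p (nat_lit 20) (nat_lit 1) (.p (nat_lit 26) (nat_lit 1) (.n (nat_lit 27) (nat_lit 1) (.n (nat_lit 28) (nat_lit 2) (.p (nat_lit 97) (nat_lit 1) (.n (nat_lit 99) (nat_lit 1) (.n (nat_lit 103) (nat_lit 1) (.p (nat_lit 106) (nat_lit 1) (.p (nat_lit 109) (nat_lit 1) .z))))))))))))))))))))))) .nil)))))))))))))))))))))))))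

noncomputable def dC1a_i12 : IL := (.s true (nat_lit 1) (nat_lit 16) (nat_lit 2) (nat_lit 4) (nat_lit 1) true (nat_lit 7) true (nat_lit 11) true (nat_lit 1) true (nat_lit 10) true (nat_lit 8) (.e false (nat_lit 1) (nat_lit 82) (nat_lit 5) (nat_lit 7) (.e false (nat_lit 1) (nat_lit 83) (nat_lit 5) (nat_lit 7) (.e false (nat_lit 1) (nat_lit 85) (nat_lit 5) (nat_lit 7) (.e true (nat_lit 1) (nat_lit 86) (nat_lit 5) (nat_lit 7) (.e false (nat_lit 1) (nat_lit 87) (nat_lit 5) (nat_lit 7) (.e false (nat_lit 1) (nat_lit 88) (nat_lit 5) (nat_lit 7) (.e true (nat_lit 1) (nat_lit 91) (nat_lit 5) (nat_lit 7) (.e true (nat_lit 2) (nat_lit 180) (nat_lit 1) (nat_lit 11) (.e true (nat_lit 1) (nat_lit 181) (nat_lit 1) (nat_lit 11) (.e false (nat_lit 1) (nat_lit 182) (nat_lit 1) (nat_lit 11) (.e true (nat_lit 3) (nat_lit 183) (nat_lit 1) (nat_lit 11) (.e false (nat_lit 2) (nat_lit 184)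 (nat_lit 1) (nat_lit 11) (.e false (nat_lit 2) (nat_lit 185) (nat_lit 1) (nat_lit 11) (.e false (nat_lit 3) (nat_lit 186) (nat_lit 1) (nat_lit 11) (.e false (nat_lit 3) (nat_lit 187) (nat_lit 1) (nat_lit 11) (.e false (nat_lit 3) (nat_lit 189) (nat_lit 1) (nat_lit 11) (.e false (nat_lit 3) (nat_lit 190) (nat_lit 1) (nat_lit 11) (.e false (nat_lit 1) (nat_lit 195) (nat_lit 1) (nat_lit 11) (.e false (nat_lit 1) (nat_lit 158) (nat_lit 2) (nat_lit 10) (.e true (nat_lit 1) (nat_lit 163) (nat_lit 2) (nat_lit 10) (.e false (nat_lit 1) (nat_lit 165) (nat_lit 2) (nat_lit 10) (.e true (nat_lit 1) (nat_lit 172) (nat_lit 2) (nat_lit 10) (.e false (nat_lit 1) (nat_lit 94) (nat_lit 4) (nat_lit 8) (.u (nat_lit 2) (.p (nat_lit 0) (nat_lit 2) (.n (nat_lit 1) (nat_lit 1) (.p (nat_lit 2) (nat_lit 2) (.n (nat_lit 3) (nat_lit 5) (.n (nat_lit 4) (nat_lit 1) (.n (nat_lit 5) (nat_lit 1) (.n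 (nat_lit 6) (nat_lit 4) (.p (nat_lit 7) (nat_lit 5) (.n (nat_lit 11) (nat_lit 2) (.p (nat_lit 12) (nat_lit 4) (.p (nat_lit 14) (nat_lit 2) (.p (nat_lit 15) (nat_lit 2) (.p (nat_lit 17) (nat_lit 1) (.p (nat_lit 18) (nat_lit 1) (.n (nat_lit 20) (nat_lit 3) (.n (nat_lit 21) (nat_lit 1) (.p (nat_lit 22) (nat_lit 2) (.p (nat_lit 23) (nat_lit 1) (.n (nat_lit 26) (nat_lit 1) (.n (nat_lit 27) (nat_lit 3) (.n (nat_lit 29) (nat_lit 1) .z))))))))))))))))))))) .nil)))))))))))))))))))))))))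

noncomputable def dC1a_i13 : IL := (.e false (nat_lit 2) (nat_lit 236) (nat_lit 2) (nat_lit 17) (.e true (nat_lit 2) (nat_lit 237) (nat_lit 2) (nat_lit 17) (.e false (nat_lit 2) (nat_lit 239) (nat_lit 2) (nat_lit 17) (.e false (nat_lit 1) (nat_lit 240) (nat_lit 2) (nat_lit 17) (.e false (nat_lit 1) (nat_lit 241) (nat_lit 2) (nat_lit 17) (.e false (nat_lit 2) (nat_lit 243) (nat_lit 2) (nat_lit 17) (.e true (nat_lit 2) (nat_lit 245) (nat_lit 2) (nat_lit 17) (.e true (nat_lit 2) (nat_lit 248) (nat_lit 2) (nat_lit 17) (.e true (nat_lit 3) (nat_lit 249) (nat_lit 2) (nat_lit 17) (.e true (nat_lit 1) (nat_lit 250) (nat_lit 2) (nat_lit 17) (.e false (nat_lit 3) (nat_lit 251) (nat_lit 2) (nat_lit 17) (.e false (nat_lit 1) (nat_lit 252) (nat_lit 2) (nat_lit 17) (.e true (nat_lit 1) (nat_lit 253) (nat_lit 2) (nat_lit 17) (.e true (nat_lit 3) (nat_lit 258) (nat_lit 2) (nat_lit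 17) (.e true (nat_lit 1) (nat_lit 260) (nat_lit 1) (nat_lit 18) (.e false (nat_lit 1) (nat_lit 261) (nat_lit 1) (nat_lit 18) (.e true (nat_lit 3) (nat_lit 262) (nat_lit 1) (nat_lit 18) (.e true (nat_lit 1) (nat_lit 263) (nat_lit 1) (nat_lit 18) (.e false (nat_lit 1) (nat_lit 266) (nat_lit 1) (nat_lit 18) (.e true (nat_lit 2) (nat_lit 267) (nat_lit 1) (nat_lit 18) (.e true (nat_lit 1) (nat_lit 269) (nat_lit 1) (nat_lit 18) (.e false (nat_lit 2) (nat_lit 270) (nat_lit 1) (nat_lit 18) (.e true (nat_lit 1) (nat_lit 275) (nat_lit 1) (nat_lit 18) (.e false (nat_lit 1) (nat_lit 279) (nat_lit 1) (nat_lit 18) (.u (nat_lit 2) (.n (nat_lit 0) (nat_lit 2) (.p (nat_lit 1) (nat_lit 1) (.p (nat_lit 2) (nat_lit 3) (.p (nat_lit 3) (nat_lit 2) (.p (nat_lit 4) (nat_lit 3) (.n (nat_lit 6) (nat_lit 2) (.n (nat_lit 7) (nat_lit 1) (.n (nat_lit 8) (nat_lit 3) (.n (nat_lit 9) (nat_lit 2) (.n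 (nat_lit 11) (nat_lit 3) (.n (nat_lit 12) (nat_lit 1) (.n (nat_lit 13) (nat_lit 2) (.n (nat_lit 14) (nat_lit 3) (.p (nat_lit 15) (nat_lit 1) (.p (nat_lit 18) (nat_lit 1) (.p (nat_lit 19) (nat_lit 1) (.p (nat_lit 20) (nat_lit 1) (.n (nat_lit 23) (nat_lit 1) (.p (nat_lit 24) (nat_lit 1) (.p (nat_lit 25) (nat_lit 1) (.p (nat_lit 27) (nat_lit 1) (.p (nat_lit 28) (nat_lit 1) (.n (nat_lit 29) (nat_lit 2) (.p (nat_lit 30) (nat_lit 2) (.p (nat_lit 32) (nat_lit 3) (.n (nat_lit 33) (nat_lit 2) (.n (nat_lit 34) (nat_lit 2) (.p (nat_lit 36) (nat_lit 1) (.p (nat_lit 37) (nat_lit 1) (.p (nat_lit 38) (nat_lit 5) (.p (nat_lit 39) (nat_lit 2) (.n (nat_lit 40) (nat_lit 1) (.p (nat_lit 41) (nat_lit 4) (.n (nat_lit 45) (nat_lit 1) (.n (nat_lit 50) (nat_lit 1) (.n (nat_lit 54) (nat_lit 3) (.p (nat_lit 56) (nat_lit 1) (.p (nat_lit 58) (nat_lit 1) (.p (nat_lit 60) (nat_lit 1) (.n (nat_lit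 61) (nat_lit 1) (.n (nat_lit 62) (nat_lit 1) (.p (nat_lit 67) (nat_lit 1) (.n (nat_lit 69) (nat_lit 1) (.p (nat_lit 70) (nat_lit 1) .z)))))))))))))))))))))))))))))))))))))))))))) .nil)))))))))))))))))))))))))

noncomputable def dC1a_i14 : IL := (.e false (nat_lit 3) (nat_lit 238) (nat_lit 2) (nat_lit 17) (.e false (nat_lit 1) (nat_lit 239) (nat_lit 2) (nat_lit 17) (.e true (nat_lit 2) (nat_lit 240) (nat_lit 2) (nat_lit 17) (.e true (nat_lit 3) (nat_lit 241) (nat_lit 2) (nat_lit 17) (.e false (nat_lit 1) (nat_lit 249) (nat_lit 2) (nat_lit 17) (.e true (nat_lit 2) (nat_lit 250) (nat_lit 2) (nat_lit 17) (.e true (nat_lit 1) (nat_lit 251) (nat_lit 2) (nat_lit 17) (.e false (nat_lit 2) (nat_lit 252) (nat_lit 2) (nat_lit 17) (.e true (nat_lit 1) (nat_lit 253) (nat_lit 2) (nat_lit 17) (.e false (nat_lit 1) (nat_lit 260) (nat_lit 1) (nat_lit 18) (.e true (nat_lit 1) (nat_lit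 261) (nat_lit 1) (nat_lit 18) (.e false (nat_lit 2) (nat_lit 262) (nat_lit 1) (nat_lit 18) (.e false (nat_lit 1) (nat_lit 263) (nat_lit 1) (nat_lit 18) (.e false (nat_lit 3) (nat_lit 264) (nat_lit 1) (nat_lit 18) (.e true (nat_lit 3) (nat_lit 265) (nat_lit 1) (nat_lit 18) (.e false (nat_lit 3) (nat_lit 266) (nat_lit 1) (nat_lit 18) (.e false (nat_lit 1) (nat_lit 267) (nat_lit 1) (nat_lit 18) (.e true (nat_lit 1) (nat_lit 268) (nat_lit 1) (nat_lit 18) (.e true (nat_lit 3) (nat_lit 269) (nat_lit 1) (nat_lit 18) (.e false (nat_lit 2) (nat_lit 270) (nat_lit 1) (nat_lit 18) (.e true (nat_lit 1) (nat_lit 276) (nat_lit 1) (nat_lit 18) (.e false (nat_lit 1) (nat_lit 277) (nat_lit 1) (nat_lit 18) (.e false (nat_lit 1) (nat_lit 278) (nat_lit 1) (nat_lit 18) (.e true (nat_lit 1) (nat_lit 279) (nat_lit 1) (nat_lit 18) (.u (nat_lit 2) (.p (nat_lit 0) (nat_lit 4) (.p (nat_lit 1)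 (nat_lit 3) (.n (nat_lit 2) (nat_lit 4) (.n (nat_lit 3) (nat_lit 2) (.n (nat_lit 4) (nat_lit 1) (.p (nat_lit 5) (nat_lit 1) (.n (nat_lit 6) (nat_lit 2) (.p (nat_lit 7) (nat_lit 1) (.p (nat_lit 9) (nat_lit 1) (.n (nat_lit 10) (nat_lit 2) (.n (nat_lit 11) (nat_lit 3) (.p (nat_lit 14) (nat_lit 1) (.p (nat_lit 15) (nat_lit 3) (.p (nat_lit 17) (nat_lit 5) (.p (nat_lit 18) (nat_lit 2) (.n (nat_lit 20) (nat_lit 1) (.p (nat_lit 24) (nat_lit 1) (.p (nat_lit 25) (nat_lit 1) (.p (nat_lit 26) (nat_lit 2) (.n (nat_lit 27) (nat_lit 3) (.n (nat_lit 28) (nat_lit 2) (.p (nat_lit 29) (nat_lit 1) (.p (nat_lit 30) (nat_lit 3) (.n (nat_lit 31) (nat_lit 1) (.n (nat_lit 32) (nat_lit 1) (.p (nat_lit 33) (nat_lit 1) (.p (nat_lit 35) (nat_lit 2) (.p (nat_lit 37) (nat_lit 2) (.n (nat_lit 38) (nat_lit 2) (.n (nat_lit 39) (nat_lit 4) (.p (nat_lit 40) (nat_lit 6) (.n (nat_lit 41) (nat_lit 1) (.n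 (nat_lit 45) (nat_lit 1) (.p (nat_lit 46) (nat_lit 1) (.n (nat_lit 48) (nat_lit 1) (.p (nat_lit 49) (nat_lit 1) (.p (nat_lit 50) (nat_lit 1) (.n (nat_lit 51) (nat_lit 1) (.p (nat_lit 54) (nat_lit 2) (.n (nat_lit 55) (nat_lit 1) (.n (nat_lit 57) (nat_lit 1) (.n (nat_lit 59) (nat_lit 1) (.n (nat_lit 60) (nat_lit 2) (.n (nat_lit 61) (nat_lit 1) (.p (nat_lit 62) (nat_lit 1) (.p (nat_lit 64) (nat_lit 1) (.p (nat_lit 67) (nat_lit 2) (.n (nat_lit 68) (nat_lit 1) (.p (nat_lit 69) (nat_lit 1) (.n (nat_lit 70) (nat_lit 1) .z)))))))))))))))))))))))))))))))))))))))))))))))))) .nil)))))))))))))))))))))))))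

noncomputable def dC1a_i15 : IL := (.e true (nat_lit 1) (nat_lit 57) (nat_lit 2) (nat_lit 7) (.e true (nat_lit 2) (nat_lit 58) (nat_lit 2) (nat_lit 7) (.e false (nat_lit 1) (nat_lit 62) (nat_lit 2) (nat_lit 7) (.e true (nat_lit 1) (nat_lit 65) (nat_lit 2) (nat_lit 7) (.e false (nat_lit 1) (nat_lit 59) (nat_lit 2) (nat_lit 7) (.e false (nat_lit 1) (nat_lit 60) (nat_lit 2) (nat_lit 7) (.e true (nat_lit 2) (nat_lit 61) (nat_lit 2) (nat_lit 7) (.e true (nat_lit 3) (nat_lit 63) (nat_lit 2) (nat_lit 7) (.e true (nat_lit 1) (nat_lit 28) (nat_lit 5) (nat_lit 4) (.e false (nat_lit 1) (nat_lit 82) (nat_lit 0) (nat_lit 9) (.e false (nat_lit 1) (nat_lit 83) (nat_lit 0) (nat_lit 9) (.e false (nat_lit 2) (nat_lit 87) (nat_lit 0) (nat_lit 9) (.e false (nat_lit 1) (nat_lit 18) (nat_lit 7) (nat_lit 2) (.e true (nat_lit 1) (nat_lit 85) (nat_lit 0) (nat_lit 9) (.e true (nat_lit 2) (nat_lit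 22) (nat_lit 6) (nat_lit 3) (.e false (nat_lit 3) (nat_lit 55) (nat_lit 2) (nat_lit 7) (.e false (nat_lit 3) (nat_lit 17) (nat_lit 9) (nat_lit 1) (.e false (nat_lit 1) (nat_lit 20) (nat_lit 6) (nat_lit 3) (.e false (nat_lit 1) (nat_lit 21) (nat_lit 6) (nat_lit 3) (.e true (nat_lit 2) (nat_lit 77) (nat_lit 1) (nat_lit 8) (.e true (nat_lit 3) (nat_lit 78) (nat_lit 1) (nat_lit 8) (.e true (nat_lit 1) (nat_lit 79) (nat_lit 1) (nat_lit 8) (.e false (nat_lit 1) (nat_lit 81) (nat_lit 1) (nat_lit 8) (.e false (nat_lit 2) (nat_lit 16) (nat_lit 9) (nat_lit 1) (.u (nat_lit 2) (.p (nat_lit 1) (nat_lit 1) (.n (nat_lit 3) (nat_lit 1) (.p (nat_lit 4) (nat_lit 2) (.p (nat_lit 5) (nat_lit 1) (.p (nat_lit 6) (nat_lit 1) (.n (nat_lit 9) (nat_lit 1) (.p (nat_lit 10) (nat_lit 1) (.n (nat_lit 11) (nat_lit 1) (.n (nat_lit 12) (nat_lit 1) (.n (nat_lit 20) (nat_lit 1) (.n (nat_lit 28) (nat_lit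 1) (.p (nat_lit 48) (nat_lit 2) (.n (nat_lit 50) (nat_lit 1) (.n (nat_lit 51) (nat_lit 1) (.p (nat_lit 52) (nat_lit 1) (.p (nat_lit 55) (nat_lit 1) (.p (nat_lit 56) (nat_lit 3) (.p (nat_lit 62) (nat_lit 1) (.p (nat_lit 63) (nat_lit 1) (.n (nat_lit 66) (nat_lit 1) (.p (nat_lit 67) (nat_lit 1) .z))))))))))))))))))))) .nil)))))))))))))))))))))))))

noncomputable def dC1a_i16 : IL := (.e false (nat_lit 1) (nat_lit 86) (nat_lit 3) (nat_lit 11) (.e false (nat_lit 2) (nat_lit 153) (nat_lit 0) (nat_lit 14) (.e false (nat_lit 1) (nat_lit 154) (nat_lit 0) (nat_lit 14) (.e false (nat_lit 1) (nat_lit 156) (nat_lit 0) (nat_lit 14) (.e true (nat_lit 1) (nat_lit 158) (nat_lit 0) (nat_lit 14) (.e true (nat_lit 2) (nat_lit 159) (nat_lit 0) (nat_lit 14) (.e true (nat_lit 1) (nat_lit 161) (nat_lit 0) (nat_lit 14) (.e false (nat_lit 1) (nat_lit 163) (nat_lit 0) (nat_lit 14) (.e false (nat_lit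 2) (nat_lit 132) (nat_lit 1) (nat_lit 13) (.e true (nat_lit 2) (nat_lit 134) (nat_lit 1) (nat_lit 13) (.e false (nat_lit 3) (nat_lit 135) (nat_lit 1) (nat_lit 13) (.e true (nat_lit 3) (nat_lit 136) (nat_lit 1) (nat_lit 13) (.e true (nat_lit 2) (nat_lit 137) (nat_lit 1) (nat_lit 13) (.e true (nat_lit 3) (nat_lit 138) (nat_lit 1) (nat_lit 13) (.e false (nat_lit 2) (nat_lit 140) (nat_lit 1) (nat_lit 13) (.e false (nat_lit 2) (nat_lit 143) (nat_lit 1) (nat_lit 13) (.e true (nat_lit 2) (nat_lit 144) (nat_lit 1) (nat_lit 13) (.e true (nat_lit 1) (nat_lit 145) (nat_lit 1) (nat_lit 13) (.e true (nat_lit 1) (nat_lit 146) (nat_lit 1) (nat_lit 13) (.e false (nat_lit 2) (nat_lit 148) (nat_lit 1) (nat_lit 13) (.e true (nat_lit 1) (nat_lit 149) (nat_lit 1) (nat_lit 13) (.e true (nat_lit 1) (nat_lit 151) (nat_lit 1) (nat_lit 13) (.e false (nat_lit 3) (nat_lit 152) (nat_lit 1) (nat_lit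 13) (.e false (nat_lit 1) (nat_lit 123) (nat_lit 2) (nat_lit 12) (.u (nat_lit 2) (.p (nat_lit 0) (nat_lit 1) (.p (nat_lit 1) (nat_lit 1) (.n (nat_lit 3) (nat_lit 1) (.p (nat_lit 8) (nat_lit 2) (.p (nat_lit 9) (nat_lit 1) (.n (nat_lit 10) (nat_lit 1) (.n (nat_lit 12) (nat_lit 1) (.n (nat_lit 15) (nat_lit 1) (.p (nat_lit 20) (nat_lit 1) (.p (nat_lit 26) (nat_lit 1) (.p (nat_lit 28) (nat_lit 1) (.p (nat_lit 30) (nat_lit 1) (.n (nat_lit 33) (nat_lit 1) (.p (nat_lit 36) (nat_lit 1) .z)))))))))))))) .nil)))))))))))))))))))))))))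

noncomputable def dC1a_i17 : IL := (.e true (nat_lit 2) (nat_lit 235) (nat_lit 2) (nat_lit 17) (.e true (nat_lit 2) (nat_lit 236) (nat_lit 2) (nat_lit 17) (.e true (nat_lit 1) (nat_lit 237) (nat_lit 2) (nat_lit 17) (.e false (nat_lit 2) (nat_lit 238) (nat_lit 2) (nat_lit 17) (.e false (nat_lit 1) (nat_lit 239) (nat_lit 2) (nat_lit 17) (.e true (nat_lit 2) (nat_lit 241) (nat_lit 2) (nat_lit 17) (.e false (nat_lit 1) (nat_lit 242) (nat_lit 2) (nat_lit 17) (.e true (nat_lit 2) (nat_lit 243) (nat_lit 2) (nat_lit 17) (.e false (nat_lit 2) (nat_lit 247) (nat_lit 2) (nat_lit 17) (.e false (nat_lit 3) (nat_lit 248) (nat_lit 2) (nat_lit 17) (.e false (nat_lit 3) (nat_lit 213) (nat_lit 2) (nat_lit 17) (.e false (nat_lit 3) (nat_lit 214) (nat_lit 2) (nat_lit 17) (.e true (nat_lit 2) (nat_lit 222) (nat_lit 2) (nat_lit 17) (.e true (nat_lit 2) (nat_lit 223) (nat_lit 2) (nat_lit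 17) (.e false (nat_lit 1) (nat_lit 228) (nat_lit 2) (nat_lit 17) (.e true (nat_lit 3) (nat_lit 240) (nat_lit 2) (nat_lit 17) (.e false (nat_lit 2) (nat_lit 246) (nat_lit 2) (nat_lit 17) (.e true (nat_lit 1) (nat_lit 249) (nat_lit 2) (nat_lit 17) (.e false (nat_lit 2) (nat_lit 250) (nat_lit 2) (nat_lit 17) (.e false (nat_lit 1) (nat_lit 251) (nat_lit 2) (nat_lit 17) (.e true (nat_lit 2) (nat_lit 252) (nat_lit 2) (nat_lit 17) (.e false (nat_lit 2) (nat_lit 253) (nat_lit 2) (nat_lit 17) (.e true (nat_lit 1) (nat_lit 258) (nat_lit 2) (nat_lit 17) (.e true (nat_lit 1) (nat_lit 184) (nat_lit 3) (nat_lit 16) (.u (nat_lit 2) (.n (nat_lit 0) (nat_lit 1) (.n (nat_lit 2) (nat_lit 3) (.n (nat_lit 3) (nat_lit 2) (.n (nat_lit 5) (nat_lit 1) (.n (nat_lit 6) (nat_lit 2) (.p (nat_lit 7) (nat_lit 3) (.p (nat_lit 8) (nat_lit 3) (.n (nat_lit 10) (nat_lit 2) (.p (nat_lit 11) (nat_lit 2)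 (.n (nat_lit 13) (nat_lit 1) (.n (nat_lit 14) (nat_lit 1) (.p (nat_lit 15) (nat_lit 4) (.n (nat_lit 17) (nat_lit 2) (.p (nat_lit 18) (nat_lit 1) (.p (nat_lit 20) (nat_lit 3) (.p (nat_lit 26) (nat_lit 1) (.n (nat_lit 27) (nat_lit 2) (.n (nat_lit 28) (nat_lit 2) (.p (nat_lit 31) (nat_lit 1) (.p (nat_lit 32) (nat_lit 2) (.p (nat_lit 33) (nat_lit 4) (.p (nat_lit 34) (nat_lit 1) (.n (nat_lit 35) (nat_lit 1) (.p (nat_lit 36) (nat_lit 1) (.p (nat_lit 37) (nat_lit 2) (.n (nat_lit 38) (nat_lit 4) (.p (nat_lit 40) (nat_lit 1) (.n (nat_lit 41) (nat_lit 2) (.p (nat_lit 48) (nat_lit 1) (.n (nat_lit 49) (nat_lit 2) (.p (nat_lit 50) (nat_lit 2) (.n (nat_lit 51) (nat_lit 1) (.p (nat_lit 53) (nat_lit 2) (.p (nat_lit 54) (nat_lit 1) (.p (nat_lit 55) (nat_lit 1) (.n (nat_lit 57) (nat_lit 2) (.p (nat_lit 58) (nat_lit 1) (.p (nat_lit 59) (nat_lit 2) (.n (nat_lit 60) (nat_lit 1) (.p (nat_lit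 62) (nat_lit 1) (.n (nat_lit 63) (nat_lit 1) (.p (nat_lit 64) (nat_lit 1) (.n (nat_lit 67) (nat_lit 4) (.p (nat_lit 68) (nat_lit 2) (.n (nat_lit 69) (nat_lit 1) (.n (nat_lit 70) (nat_lit 1) (.p (nat_lit 330) (nat_lit 1) (.p (nat_lit 332) (nat_lit 1) (.p (nat_lit 333) (nat_lit 1) (.n (nat_lit 334) (nat_lit 1) (.n (nat_lit 335) (nat_lit 1) (.p (nat_lit 339) (nat_lit 1) (.n (nat_lit 341) (nat_lit 1) (.p (nat_lit 342) (nat_lit 1) (.p (nat_lit 350) (nat_lit 1) (.n (nat_lit 354) (nat_lit 1) (.p (nat_lit 356) (nat_lit 1) (.p (nat_lit 358) (nat_lit 1) (.n (nat_lit 363) (nat_lit 1) .z))))))))))))))))))))))))))))))))))))))))))))))))))))))))))) .nil)))))))))))))))))))))))))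

noncomputable def dC1a_i18 : IL := (.s true (nat_lit 1) (nat_lit 35) (nat_lit 2) (nat_lit 3) (nat_lit 2) true (nat_lit 13) true (nat_lit 17) true (nat_lit 0) true (nat_lit 17) true (nat_lit 16) (.a false (nat_lit 1) (nat_lit 31) (nat_lit 35) (nat_lit 0) (nat_lit 0) (.e true (nat_lit 2) (nat_lit 107) (nat_lit 6) (nat_lit 13) (.e true (nat_lit 2) (nat_lit 112) (nat_lit 6) (nat_lit 13) (.e false (nat_lit 2) (nat_lit 114) (nat_lit 6) (nat_lit 13) (.e true (nat_lit 1) (nat_lit 121) (nat_lit 6) (nat_lit 13) (.e false (nat_lit 1) (nat_lit 123) (nat_lit 6) (nat_lit 13) (.e false (nat_lit 1) (nat_lit 126) (nat_lit 6) (nat_lit 13) (.e false (nat_lit 1) (nat_lit 129) (nat_lit 6) (nat_lit 13) (.e true (nat_lit 3) (nat_lit 212) (nat_lit 2) (nat_lit 17) (.e true (nat_lit 2) (nat_lit 215) (nat_lit 2) (nat_lit 17) (.e true (nat_lit 3) (nat_lit 216) (nat_lit 2) (nat_lit 17) (.e true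 (nat_lit 1) (nat_lit 217) (nat_lit 2) (nat_lit 17) (.e true (nat_lit 2) (nat_lit 218) (nat_lit 2) (nat_lit 17) (.e false (nat_lit 2) (nat_lit 219) (nat_lit 2) (nat_lit 17) (.e false (nat_lit 2) (nat_lit 220) (nat_lit 2) (nat_lit 17) (.e false (nat_lit 1) (nat_lit 221) (nat_lit 2) (nat_lit 17) (.e true (nat_lit 3) (nat_lit 224) (nat_lit 2) (nat_lit 17) (.e true (nat_lit 2) (nat_lit 225) (nat_lit 2) (nat_lit 17) (.e false (nat_lit 2) (nat_lit 226) (nat_lit 2) (nat_lit 17) (.e true (nat_lit 2) (nat_lit 227) (nat_lit 2) (nat_lit 17) (.e false (nat_lit 2) (nat_lit 229) (nat_lit 2) (nat_lit 17) (.e true (nat_lit 1) (nat_lit 230) (nat_lit 2) (nat_lit 17) (.e true (nat_lit 1) (nat_lit 231) (nat_lit 2) (nat_lit 17) (.e false (nat_lit 3) (nat_lit 233) (nat_lit 2) (nat_lit 17) dC1a_i17)))))))))))))))))))))))))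

noncomputable def dC1a_i19 : IL := (.e false (nat_lit 1) (nat_lit 311) (nat_lit 0) (nat_lit 19) (.e true (nat_lit 2) (nat_lit 313) (nat_lit 0) (nat_lit 19) (.e false (nat_lit 2) (nat_lit 316) (nat_lit 0) (nat_lit 19) (.e true (nat_lit 1) (nat_lit 318) (nat_lit 0) (nat_lit 19) (.e true (nat_lit 1) (nat_lit 319) (nat_lit 0) (nat_lit 19) (.e true (nat_lit 3) (nat_lit 212) (nat_lit 2) (nat_lit 17) (.e false (nat_lit 1) (nat_lit 213) (nat_lit 2) (nat_lit 17) (.e false (nat_lit 3) (nat_lit 214) (nat_lit 2) (nat_lit 17) (.e true (nat_lit 2) (nat_lit 217) (nat_lit 2) (nat_lit 17) (.e false (nat_lit 1) (nat_lit 218) (nat_lit 2) (nat_lit 17) (.e true (nat_lit 3) (nat_lit 219) (nat_lit 2) (nat_lit 17) (.e true (nat_lit 2) (nat_lit 220) (nat_lit 2) (nat_lit 17) (.e false (nat_lit 1) (nat_lit 221) (nat_lit 2) (nat_lit 17) (.e false (nat_lit 3) (nat_lit 222) (nat_lit 2) (nat_lit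 17) (.e true (nat_lit 1) (nat_lit 224) (nat_lit 2) (nat_lit 17) (.e false (nat_lit 2) (nat_lit 225) (nat_lit 2) (nat_lit 17) (.e true (nat_lit 1) (nat_lit 226) (nat_lit 2) (nat_lit 17) (.e true (nat_lit 3) (nat_lit 227) (nat_lit 2) (nat_lit 17) (.e false (nat_lit 1) (nat_lit 229) (nat_lit 2) (nat_lit 17) (.e true (nat_lit 2) (nat_lit 215) (nat_lit 2) (nat_lit 17) (.e false (nat_lit 1) (nat_lit 223) (nat_lit 2) (nat_lit 17) (.e true (nat_lit 3) (nat_lit 230) (nat_lit 2) (nat_lit 17) (.e true (nat_lit 3) (nat_lit 231) (nat_lit 2) (nat_lit 17) (.e true (nat_lit 1) (nat_lit 35) (nat_lit 31) (nat_lit 0) (.u (nat_lit 2) (.n (nat_lit 0) (nat_lit 2) (.n (nat_lit 1) (nat_lit 2) (.n (nat_lit 3) (nat_lit 2) (.p (nat_lit 4) (nat_lit 2) (.n (nat_lit 5) (nat_lit 3) (.n (nat_lit 6) (nat_lit 3) (.p (nat_lit 7) (nat_lit 3) (.p (nat_lit 8) (nat_lit 3) (.n (nat_lit 9) (nat_lit 3) (.p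 (nat_lit 11) (nat_lit 1) (.p (nat_lit 13) (nat_lit 1) (.p (nat_lit 14) (nat_lit 2) (.n (nat_lit 15) (nat_lit 1) (.n (nat_lit 17) (nat_lit 1) (.n (nat_lit 18) (nat_lit 2) (.p (nat_lit 19) (nat_lit 1) (.p (nat_lit 20) (nat_lit 3) (.p (nat_lit 26) (nat_lit 4) (.n (nat_lit 28) (nat_lit 1) (.n (nat_lit 29) (nat_lit 4) (.p (nat_lit 31) (nat_lit 1) (.n (nat_lit 32) (nat_lit 4) (.p (nat_lit 33) (nat_lit 1) (.n (nat_lit 34) (nat_lit 3) (.n (nat_lit 35) (nat_lit 1) (.p (nat_lit 36) (nat_lit 4) (.p (nat_lit 38) (nat_lit 1) (.p (nat_lit 39) (nat_lit 1) (.p (nat_lit 40) (nat_lit 3) (.n (nat_lit 41) (nat_lit 2) (.n (nat_lit 49) (nat_lit 3) (.p (nat_lit 50) (nat_lit 1) (.n (nat_lit 51) (nat_lit 1) (.p (nat_lit 52) (nat_lit 1) (.p (nat_lit 55) (nat_lit 1) (.n (nat_lit 56) (nat_lit 1) (.n (nat_lit 57) (nat_lit 1) (.n (nat_lit 99) (nat_lit 1) (.p (nat_lit 327) (nat_lit 1) (.p (nat_lit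 331) (nat_lit 1) (.p (nat_lit 334) (nat_lit 1) (.p (nat_lit 335) (nat_lit 1) (.n (nat_lit 336) (nat_lit 1) (.n (nat_lit 337) (nat_lit 1) (.n (nat_lit 338) (nat_lit 1) (.p (nat_lit 339) (nat_lit 1) .z)))))))))))))))))))))))))))))))))))))))))))))) .nil)))))))))))))))))))))))))

noncomputable def dC1a_i20 : IL := (.e false (nat_lit 1) (nat_lit 72) (nat_lit 15) (nat_lit 7) (.e false (nat_lit 1) (nat_lit 260) (nat_lit 1) (nat_lit 18) (.e true (nat_lit 1) (nat_lit 261) (nat_lit 1) (nat_lit 18) (.e false (nat_lit 2) (nat_lit 263) (nat_lit 1) (nat_lit 18) (.e true (nat_lit 2) (nat_lit 264) (nat_lit 1) (nat_lit 18) (.e true (nat_lit 1) (nat_lit 266) (nat_lit 1) (nat_lit 18) (.e true (nat_lit 1) (nat_lit 267) (nat_lit 1) (nat_lit 18) (.e false (nat_lit 1) (nat_lit 268) (nat_lit 1) (nat_lit 18) (.e true (nat_lit 3) (nat_lit 269) (nat_lit 1) (nat_lit 18) (.e false (nat_lit 3) (nat_lit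 270) (nat_lit 1) (nat_lit 18) (.e true (nat_lit 2) (nat_lit 271) (nat_lit 1) (nat_lit 18) (.e true (nat_lit 2) (nat_lit 272) (nat_lit 1) (nat_lit 18) (.e true (nat_lit 3) (nat_lit 273) (nat_lit 1) (nat_lit 18) (.e false (nat_lit 2) (nat_lit 274) (nat_lit 1) (nat_lit 18) (.e true (nat_lit 3) (nat_lit 277) (nat_lit 1) (nat_lit 18) (.e true (nat_lit 3) (nat_lit 278) (nat_lit 1) (nat_lit 18) (.e false (nat_lit 1) (nat_lit 279) (nat_lit 1) (nat_lit 18) (.e true (nat_lit 2) (nat_lit 285) (nat_lit 1) (nat_lit 18) (.e false (nat_lit 2) (nat_lit 286) (nat_lit 1) (nat_lit 18) (.e false (nat_lit 2) (nat_lit 287) (nat_lit 1) (nat_lit 18) (.e true (nat_lit 3) (nat_lit 288) (nat_lit 1) (nat_lit 18) (.e false (nat_lit 2) (nat_lit 262) (nat_lit 1) (nat_lit 18) (.e true (nat_lit 1) (nat_lit 265) (nat_lit 1) (nat_lit 18) (.e false (nat_lit 1) (nat_lit 280) (nat_lit 1) (nat_lit 18) (.u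 (nat_lit 2) (.p (nat_lit 0) (nat_lit 1) (.n (nat_lit 1) (nat_lit 1) (.n (nat_lit 2) (nat_lit 3) (.p (nat_lit 4) (nat_lit 1) (.n (nat_lit 6) (nat_lit 2) (.p (nat_lit 7) (nat_lit 2) (.p (nat_lit 8) (nat_lit 3) (.p (nat_lit 9) (nat_lit 2) (.p (nat_lit 10) (nat_lit 1) (.n (nat_lit 14) (nat_lit 4) (.n (nat_lit 17) (nat_lit 2) (.n (nat_lit 20) (nat_lit 1) (.p (nat_lit 26) (nat_lit 1) (.n (nat_lit 27) (nat_lit 4) (.n (nat_lit 28) (nat_lit 1) (.p (nat_lit 29) (nat_lit 1) (.p (nat_lit 30) (nat_lit 3) (.p (nat_lit 31) (nat_lit 1) (.n (nat_lit 32) (nat_lit 1) (.p (nat_lit 33) (nat_lit 2) (.n (nat_lit 35) (nat_lit 1) (.n (nat_lit 37) (nat_lit 2) (.p (nat_lit 38) (nat_lit 1) (.p (nat_lit 39) (nat_lit 1) (.p (nat_lit 41) (nat_lit 2) (.n (nat_lit 376) (nat_lit 1) (.n (nat_lit 377) (nat_lit 3) (.n (nat_lit 378) (nat_lit 1) (.p (nat_lit 379) (nat_lit 3) (.p (nat_lit 381) (nat_lit 3)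 (.p (nat_lit 382) (nat_lit 1) (.n (nat_lit 386) (nat_lit 1) (.p (nat_lit 388) (nat_lit 1) (.p (nat_lit 392) (nat_lit 1) (.p (nat_lit 394) (nat_lit 1) (.p (nat_lit 395) (nat_lit 1) (.n (nat_lit 396) (nat_lit 1) (.n (nat_lit 397) (nat_lit 1) (.p (nat_lit 402) (nat_lit 1) (.p (nat_lit 403) (nat_lit 1) .z)))))))))))))))))))))))))))))))))))))))) .nil)))))))))))))))))))))))))

noncomputable def dC1a_i21 : IL := (.e true (nat_lit 1) (nat_lit 31) (nat_lit 5) (nat_lit 4) (.e true (nat_lit 2) (nat_lit 32) (nat_lit 5) (nat_lit 4) (.e true (nat_lit 2) (nat_lit 71) (nat_lit 2) (nat_lit 7) (.e true (nat_lit 2) (nat_lit 76) (nat_lit 2) (nat_lit 7) (.e false (nat_lit 2) (nat_lit 82) (nat_lit 1) (nat_lit 8) (.e false (nat_lit 3) (nat_lit 83) (nat_lit 1) (nat_lit 8) (.e true (nat_lit 1) (nat_lit 17) (nat_lit 10) (nat_lit 1) (.e true (nat_lit 3) (nat_lit 45) (nat_lit 3) (nat_lit 6) (.e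 true (nat_lit 1) (nat_lit 24) (nat_lit 6) (nat_lit 3) (.e true (nat_lit 1) (nat_lit 26) (nat_lit 6) (nat_lit 3) (.e true (nat_lit 1) (nat_lit 27) (nat_lit 6) (nat_lit 3) (.e false (nat_lit 1) (nat_lit 85) (nat_lit 1) (nat_lit 8) (.e false (nat_lit 2) (nat_lit 17) (nat_lit 11) (nat_lit 1) (.e false (nat_lit 1) (nat_lit 91) (nat_lit 1) (nat_lit 8) (.e true (nat_lit 3) (nat_lit 66) (nat_lit 2) (nat_lit 7) (.e false (nat_lit 3) (nat_lit 69) (nat_lit 2) (nat_lit 7) (.e true (nat_lit 2) (nat_lit 90) (nat_lit 1) (nat_lit 8) (.e true (nat_lit 2) (nat_lit 68) (nat_lit 2) (nat_lit 7) (.e true (nat_lit 1) (nat_lit 16) (nat_lit 10) (nat_lit 1) (.e true (nat_lit 1) (nat_lit 43) (nat_lit 3) (nat_lit 6) (.e true (nat_lit 1) (nat_lit 16) (nat_lit 11) (nat_lit 1) (.e true (nat_lit 1) (nat_lit 73) (nat_lit 2) (nat_lit 7) (.e true (nat_lit 1) (nat_lit 75) (nat_lit 2) (nat_lit 7) (.e true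 (nat_lit 2) (nat_lit 18) (nat_lit 8) (nat_lit 2) (.u (nat_lit 2) (.n (nat_lit 0) (nat_lit 1) (.p (nat_lit 2) (nat_lit 1) (.p (nat_lit 4) (nat_lit 1) (.p (nat_lit 5) (nat_lit 1) (.n (nat_lit 8) (nat_lit 1) (.n (nat_lit 10) (nat_lit 1) (.p (nat_lit 11) (nat_lit 1) (.p (nat_lit 12) (nat_lit 1) (.n (nat_lit 14) (nat_lit 1) (.p (nat_lit 17) (nat_lit 1) (.n (nat_lit 19) (nat_lit 1) (.p (nat_lit 46) (nat_lit 1) (.n (nat_lit 57) (nat_lit 1) (.n (nat_lit 58) (nat_lit 1) (.p (nat_lit 59) (nat_lit 1) (.p (nat_lit 65) (nat_lit 1) .z)))))))))))))))) .nil)))))))))))))))))))))))))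

noncomputable def dC1a_i22 : IL := (.e false (nat_lit 1) (nat_lit 136) (nat_lit 1) (nat_lit 13) (.e false (nat_lit 3) (nat_lit 137) (nat_lit 1) (nat_lit 13) (.e false (nat_lit 2) (nat_lit 138) (nat_lit 1) (nat_lit 13) (.e true (nat_lit 2) (nat_lit 139) (nat_lit 1) (nat_lit 13) (.e true (nat_lit 1) (nat_lit 140) (nat_lit 1) (nat_lit 13) (.e false (nat_lit 2) (nat_lit 141) (nat_lit 1) (nat_lit 13) (.e false (nat_lit 2) (nat_lit 142) (nat_lit 1) (nat_lit 13) (.e false (nat_lit 1) (nat_lit 143) (nat_lit 1) (nat_lit 13) (.e false (nat_lit 1) (nat_lit 144) (nat_lit 1) (nat_lit 13) (.e false (nat_lit 2) (nat_lit 145) (nat_lit 1) (nat_lit 13) (.e false (nat_lit 3) (nat_lit 146) (nat_lit 1) (nat_lit 13) (.e true (nat_lit 1) (nat_lit 147) (nat_lit 1) (nat_lit 13) (.e false (nat_lit 1) (nat_lit 148) (nat_lit 1) (nat_lit 13) (.e false (nat_lit 3) (nat_lit 149) (nat_lit 1) (nat_lit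 13) (.e true (nat_lit 3) (nat_lit 150) (nat_lit 1) (nat_lit 13) (.e true (nat_lit 3) (nat_lit 151) (nat_lit 1) (nat_lit 13) (.e true (nat_lit 2) (nat_lit 152) (nat_lit 1) (nat_lit 13) (.e false (nat_lit 1) (nat_lit 116) (nat_lit 2) (nat_lit 12) (.e true (nat_lit 1) (nat_lit 120) (nat_lit 2) (nat_lit 12) (.e true (nat_lit 1) (nat_lit 109) (nat_lit 2) (nat_lit 12) (.e false (nat_lit 1) (nat_lit 115) (nat_lit 2) (nat_lit 12) (.e false (nat_lit 1) (nat_lit 123) (nat_lit 2) (nat_lit 12) (.e true (nat_lit 1) (nat_lit 124) (nat_lit 2) (nat_lit 12) (.e true (nat_lit 1) (nat_lit 130) (nat_lit 2) (nat_lit 12) (.u (nat_lit 2) (.n (nat_lit 0) (nat_lit 3) (.p (nat_lit 1) (nat_lit 3) (.n (nat_lit 2) (nat_lit 2) (.n (nat_lit 3) (nat_lit 1) (.n (nat_lit 4) (nat_lit 1) (.n (nat_lit 5) (nat_lit 1) (.n (nat_lit 8) (nat_lit 1) (.n (nat_lit 9) (nat_lit 3) (.p (nat_lit 12) (nat_lit 2) (.n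 (nat_lit 14) (nat_lit 1) (.p (nat_lit 17) (nat_lit 1) (.n (nat_lit 19) (nat_lit 3) (.n (nat_lit 20) (nat_lit 1) (.n (nat_lit 23) (nat_lit 3) (.n (nat_lit 24) (nat_lit 2) (.p (nat_lit 27) (nat_lit 1) (.p (nat_lit 28) (nat_lit 1) (.n (nat_lit 29) (nat_lit 1) (.n (nat_lit 30) (nat_lit 1) (.p (nat_lit 31) (nat_lit 2) (.p (nat_lit 32) (nat_lit 3) (.p (nat_lit 33) (nat_lit 1) (.p (nat_lit 34) (nat_lit 1) (.n (nat_lit 35) (nat_lit 1) (.n (nat_lit 36) (nat_lit 3) (.n (nat_lit 39) (nat_lit 1) (.p (nat_lit 149) (nat_lit 1) (.n (nat_lit 152) (nat_lit 1) .z)))))))))))))))))))))))))))) .nil)))))))))))))))))))))))))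

noncomputable def dC1a_i23 : IL := (.e true (nat_lit 3) (nat_lit 291) (nat_lit 0) (nat_lit 19) (.e false (nat_lit 1) (nat_lit 294) (nat_lit 0) (nat_lit 19) (.e false (nat_lit 1) (nat_lit 298) (nat_lit 0) (nat_lit 19) (.e true (nat_lit 2) (nat_lit 299) (nat_lit 0) (nat_lit 19) (.e true (nat_lit 2) (nat_lit 301) (nat_lit 0) (nat_lit 19) (.e false (nat_lit 1) (nat_lit 304) (nat_lit 0) (nat_lit 19) (.e true (nat_lit 1) (nat_lit 307) (nat_lit 0) (nat_lit 19) (.e false (nat_lit 3) (nat_lit 308) (nat_lit 0) (nat_lit 19) (.e false (nat_lit 1) (nat_lit 311) (nat_lit 0) (nat_lit 19) (.e false (nat_lit 1) (nat_lit 317) (nat_lit 0) (nat_lit 19) (.e false (nat_lit 1) (nat_lit 221) (nat_lit 2) (nat_lit 17) (.e true (nat_lit 3) (nat_lit 223) (nat_lit 2) (nat_lit 17) (.e false (nat_lit 1) (nat_lit 226) (nat_lit 2) (nat_lit 17) (.e true (nat_lit 3) (nat_lit 212) (nat_lit 2) (nat_lit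 17) (.e true (nat_lit 3) (nat_lit 214) (nat_lit 2) (nat_lit 17) (.e false (nat_lit 1) (nat_lit 215) (nat_lit 2) (nat_lit 17) (.e false (nat_lit 2) (nat_lit 217) (nat_lit 2) (nat_lit 17) (.e false (nat_lit 1) (nat_lit 218) (nat_lit 2) (nat_lit 17) (.e true (nat_lit 1) (nat_lit 219) (nat_lit 2) (nat_lit 17) (.e true (nat_lit 3) (nat_lit 220) (nat_lit 2) (nat_lit 17) (.e false (nat_lit 3) (nat_lit 222) (nat_lit 2) (nat_lit 17) (.e true (nat_lit 2) (nat_lit 224) (nat_lit 2) (nat_lit 17) (.e false (nat_lit 1) (nat_lit 227) (nat_lit 2) (nat_lit 17) (.e true (nat_lit 2) (nat_lit 229) (nat_lit 2) (nat_lit 17) (.u (nat_lit 2) (.n (nat_lit 1) (nat_lit 2) (.p (nat_lit 2) (nat_lit 1) (.p (nat_lit 3) (nat_lit 1) (.n (nat_lit 5) (nat_lit 1) (.n (nat_lit 6) (nat_lit 1) (.n (nat_lit 9) (nat_lit 1) (.n (nat_lit 12) (nat_lit 1) (.n (nat_lit 14) (nat_lit 1) (.p (nat_lit 18) (nat_lit 2)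 (.p (nat_lit 20) (nat_lit 1) (.p (nat_lit 24) (nat_lit 1) (.p (nat_lit 25) (nat_lit 1) (.n (nat_lit 26) (nat_lit 2) (.p (nat_lit 27) (nat_lit 2) (.n (nat_lit 28) (nat_lit 1) (.n (nat_lit 29) (nat_lit 1) (.n (nat_lit 30) (nat_lit 1) (.p (nat_lit 31) (nat_lit 2) (.n (nat_lit 32) (nat_lit 2) (.n (nat_lit 33) (nat_lit 1) (.n (nat_lit 34) (nat_lit 2) (.n (nat_lit 35) (nat_lit 1) (.p (nat_lit 38) (nat_lit 2) (.n (nat_lit 39) (nat_lit 1) (.n (nat_lit 45) (nat_lit 1) (.n (nat_lit 46) (nat_lit 1) (.p (nat_lit 48) (nat_lit 1) (.n (nat_lit 49) (nat_lit 4) (.n (nat_lit 50) (nat_lit 2) (.p (nat_lit 51) (nat_lit 1) (.n (nat_lit 53) (nat_lit 1) (.n (nat_lit 54) (nat_lit 2) (.p (nat_lit 55) (nat_lit 2) (.n (nat_lit 59) (nat_lit 1) (.p (nat_lit 67) (nat_lit 1) (.n (nat_lit 68) (nat_lit 1) (.p (nat_lit 69) (nat_lit 1) (.n (nat_lit 71) (nat_lit 1) (.p (nat_lit 338) (nat_lit 1) .z)))))))))))))))))))))))))))))))))))))))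 .nil)))))))))))))))))))))))))

noncomputable def dC1a_i24 : IL := (.e true (nat_lit 1) (nat_lit 91) (nat_lit 11) (nat_lit 9) (.e false (nat_lit 2) (nat_lit 290) (nat_lit 0) (nat_lit 19) (.e true (nat_lit 3) (nat_lit 291) (nat_lit 0) (nat_lit 19) (.e true (nat_lit 1) (nat_lit 292) (nat_lit 0) (nat_lit 19) (.e true (nat_lit 2) (nat_lit 294) (nat_lit 0) (nat_lit 19) (.e false (nat_lit 2) (nat_lit 295) (nat_lit 0) (nat_lit 19) (.e true (nat_lit 2) (nat_lit 296) (nat_lit 0) (nat_lit 19) (.e false (nat_lit 2) (nat_lit 297) (nat_lit 0) (nat_lit 19) (.e true (nat_lit 1) (nat_lit 298) (nat_lit 0) (nat_lit 19) (.e true (nat_lit 3) (nat_lit 299) (nat_lit 0) (nat_lit 19) (.e false (nat_lit 3) (nat_lit 300) (nat_lit 0) (nat_lit 19) (.e false (nat_lit 3) (nat_lit 302) (nat_lit 0) (nat_lit 19) (.e false (nat_lit 3) (nat_lit 304) (nat_lit 0) (nat_lit 19) (.e true (nat_lit 1) (nat_lit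 305) (nat_lit 0) (nat_lit 19) (.e false (nat_lit 1) (nat_lit 307) (nat_lit 0) (nat_lit 19) (.e true (nat_lit 2) (nat_lit 308) (nat_lit 0) (nat_lit 19) (.e true (nat_lit 1) (nat_lit 309) (nat_lit 0) (nat_lit 19) (.e false (nat_lit 1) (nat_lit 310) (nat_lit 0) (nat_lit 19) (.e true (nat_lit 1) (nat_lit 311) (nat_lit 0) (nat_lit 19) (.e true (nat_lit 1) (nat_lit 312) (nat_lit 0) (nat_lit 19) (.e true (nat_lit 3) (nat_lit 316) (nat_lit 0) (nat_lit 19) (.e true (nat_lit 2) (nat_lit 317) (nat_lit 0) (nat_lit 19) (.e true (nat_lit 3) (nat_lit 318) (nat_lit 0) (nat_lit 19) (.e false (nat_lit 1) (nat_lit 319) (nat_lit 0) (nat_lit 19) (.u (nat_lit 2) (.n (nat_lit 0) (nat_lit 1) (.n (nat_lit 1) (nat_lit 1) (.p (nat_lit 2) (nat_lit 1) (.p (nat_lit 3) (nat_lit 2) (.p (nat_lit 4) (nat_lit 1) (.n (nat_lit 6) (nat_lit 1) (.p (nat_lit 7) (nat_lit 1) (.n (nat_lit 8) (nat_lit 1) (.p (nat_lit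 12) (nat_lit 1) (.n (nat_lit 14) (nat_lit 1) (.p (nat_lit 15) (nat_lit 1) (.n (nat_lit 18) (nat_lit 1) (.p (nat_lit 20) (nat_lit 1) (.p (nat_lit 30) (nat_lit 1) (.p (nat_lit 31) (nat_lit 1) (.n (nat_lit 35) (nat_lit 1) (.n (nat_lit 37) (nat_lit 1) (.p (nat_lit 38) (nat_lit 3) (.p (nat_lit 41) (nat_lit 1) (.p (nat_lit 44) (nat_lit 1) (.n (nat_lit 46) (nat_lit 1) (.p (nat_lit 48) (nat_lit 1) (.n (nat_lit 49) (nat_lit 1) (.n (nat_lit 54) (nat_lit 1) (.p (nat_lit 55) (nat_lit 1) (.p (nat_lit 67) (nat_lit 1) (.n (nat_lit 68) (nat_lit 1) .z))))))))))))))))))))))))))) .nil)))))))))))))))))))))))))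

noncomputable def dC1a_i25 : IL := (.e false (nat_lit 2) (nat_lit 291) (nat_lit 0) (nat_lit 19) (.e true (nat_lit 2) (nat_lit 293) (nat_lit 0) (nat_lit 19) (.e false (nat_lit 1) (nat_lit 295) (nat_lit 0) (nat_lit 19) (.e false (nat_lit 2) (nat_lit 296) (nat_lit 0) (nat_lit 19) (.e true (nat_lit 2) (nat_lit 298) (nat_lit 0) (nat_lit 19) (.e true (nat_lit 1) (nat_lit 299) (nat_lit 0) (nat_lit 19) (.e true (nat_lit 1) (nat_lit 300) (nat_lit 0) (nat_lit 19) (.e false (nat_lit 3) (nat_lit 307) (nat_lit 0) (nat_lit 19) (.e true (nat_lit 1) (nat_lit 308) (nat_lit 0) (nat_lit 19) (.e true (nat_lit 1) (nat_lit 310) (nat_lit 0) (nat_lit 19) (.e false (nat_lit 2) (nat_lit 311) (nat_lit 0) (nat_lit 19) (.e true (nat_lit 2) (nat_lit 313) (nat_lit 0) (nat_lit 19) (.e false (nat_lit 2) (nat_lit 316) (nat_lit 0) (nat_lit 19) (.e false (nat_lit 1) (nat_lit 317) (nat_lit 0) (nat_lit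 19) (.e true (nat_lit 3) (nat_lit 294) (nat_lit 0) (nat_lit 19) (.e false (nat_lit 2) (nat_lit 301) (nat_lit 0) (nat_lit 19) (.e false (nat_lit 3) (nat_lit 302) (nat_lit 0) (nat_lit 19) (.e false (nat_lit 2) (nat_lit 305) (nat_lit 0) (nat_lit 19) (.e true (nat_lit 3) (nat_lit 318) (nat_lit 0) (nat_lit 19) (.e false (nat_lit 2) (nat_lit 36) (nat_lit 31) (nat_lit 0) (.e false (nat_lit 1) (nat_lit 36) (nat_lit 32) (nat_lit 0) (.e true (nat_lit 1) (nat_lit 36) (nat_lit 34) (nat_lit 0) (.e true (nat_lit 1) (nat_lit 36) (nat_lit 35) (nat_lit 0) (.u (nat_lit 2) (.p (nat_lit 0) (nat_lit 3) (.p (nat_lit 2) (nat_lit 1) (.n (nat_lit 3) (nat_lit 2) (.p (nat_lit 4) (nat_lit 2) (.p (nat_lit 5) (nat_lit 3) (.n (nat_lit 6) (nat_lit 1) (.n (nat_lit 8) (nat_lit 1) (.p (nat_lit 9) (nat_lit 3) (.p (nat_lit 10) (nat_lit 1) (.p (nat_lit 12) (nat_lit 2) (.n (nat_lit 15) (nat_lit 4) (.p (nat_lit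 17) (nat_lit 1) (.p (nat_lit 18) (nat_lit 1) (.n (nat_lit 19) (nat_lit 1) (.p (nat_lit 20) (nat_lit 1) (.n (nat_lit 21) (nat_lit 1) (.p (nat_lit 22) (nat_lit 1) (.p (nat_lit 23) (nat_lit 1) (.n (nat_lit 24) (nat_lit 1) (.n (nat_lit 26) (nat_lit 1) (.p (nat_lit 27) (nat_lit 1) (.p (nat_lit 28) (nat_lit 2) (.p (nat_lit 29) (nat_lit 1) (.p (nat_lit 30) (nat_lit 2) (.p (nat_lit 31) (nat_lit 1) (.p (nat_lit 32) (nat_lit 2) (.n (nat_lit 33) (nat_lit 2) (.n (nat_lit 34) (nat_lit 4) (.p (nat_lit 36) (nat_lit 2) (.n (nat_lit 37) (nat_lit 2) (.p (nat_lit 38) (nat_lit 1) (.n (nat_lit 39) (nat_lit 1) (.n (nat_lit 40) (nat_lit 1) (.p (nat_lit 41) (nat_lit 2) (.p (nat_lit 42) (nat_lit 1) (.n (nat_lit 43) (nat_lit 1) (.p (nat_lit 44) (nat_lit 1) (.p (nat_lit 45) (nat_lit 2) (.p (nat_lit 49) (nat_lit 2) (.n (nat_lit 50) (nat_lit 1) (.p (nat_lit 51) (nat_lit 1) (.p (nat_lit 53) (nat_lit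 1) (.p (nat_lit 54) (nat_lit 1) (.n (nat_lit 55) (nat_lit 2) (.n (nat_lit 56) (nat_lit 1) (.n (nat_lit 57) (nat_lit 1) (.p (nat_lit 58) (nat_lit 2) (.p (nat_lit 59) (nat_lit 2) (.n (nat_lit 60) (nat_lit 1) (.p (nat_lit 62) (nat_lit 1) (.p (nat_lit 64) (nat_lit 1) (.n (nat_lit 65) (nat_lit 1) (.p (nat_lit 66) (nat_lit 1) (.p (nat_lit 67) (nat_lit 2) (.n (nat_lit 69) (nat_lit 1) (.n (nat_lit 70) (nat_lit 1) (.n (nat_lit 106) (nat_lit 1) (.p (nat_lit 151) (nat_lit 1) (.p (nat_lit 159) (nat_lit 1) (.p (nat_lit 405) (nat_lit 1) .z)))))))))))))))))))))))))))))))))))))))))))))))))))))))))))) (.u (nat_lit 2) (.n (nat_lit 406) (nat_lit 1) (.p (nat_lit 407) (nat_lit 1) (.p (nat_lit 408) (nat_lit 1) (.p (nat_lit 409) (nat_lit 3) (.n (nat_lit 410) (nat_lit 2) (.p (nat_lit 412) (nat_lit 1) (.n (nat_lit 413) (nat_lit 2) (.p (nat_lit 414) (nat_lit 1) (.n (nat_lit 416) (nat_lit 1)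 (.n (nat_lit 417) (nat_lit 1) (.p (nat_lit 419) (nat_lit 1) (.n (nat_lit 423) (nat_lit 1) (.n (nat_lit 425) (nat_lit 1) (.n (nat_lit 426) (nat_lit 3) (.n (nat_lit 428) (nat_lit 2) (.n (nat_lit 429) (nat_lit 2) (.n (nat_lit 430) (nat_lit 2) (.n (nat_lit 431) (nat_lit 3) (.p (nat_lit 432) (nat_lit 1) (.n (nat_lit 433) (nat_lit 1) (.p (nat_lit 434) (nat_lit 3) .z))))))))))))))))))))) .nil)))))))))))))))))))))))))

noncomputable def dC1a_i26 : IL := (.e false (nat_lit 1) (nat_lit 302) (nat_lit 0) (nat_lit 19) (.e false (nat_lit 3) (nat_lit 304) (nat_lit 0) (nat_lit 19) (.e false (nat_lit 3) (nat_lit 305) (nat_lit 0) (nat_lit 19) (.e true (nat_lit 3) (nat_lit 308) (nat_lit 0) (nat_lit 19) (.e false (nat_lit 1) (nat_lit 313) (nat_lit 0) (nat_lit 19) (.e true (nat_lit 1) (nat_lit 318) (nat_lit 0) (nat_lit 19) (.e false (nat_lit 2) (nat_lit 212) (nat_lit 2) (nat_lit 17) (.e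 false (nat_lit 3) (nat_lit 213) (nat_lit 2) (nat_lit 17) (.e true (nat_lit 3) (nat_lit 214) (nat_lit 2) (nat_lit 17) (.e false (nat_lit 3) (nat_lit 215) (nat_lit 2) (nat_lit 17) (.e true (nat_lit 1) (nat_lit 216) (nat_lit 2) (nat_lit 17) (.e false (nat_lit 2) (nat_lit 218) (nat_lit 2) (nat_lit 17) (.e true (nat_lit 1) (nat_lit 219) (nat_lit 2) (nat_lit 17) (.e false (nat_lit 3) (nat_lit 220) (nat_lit 2) (nat_lit 17) (.e true (nat_lit 2) (nat_lit 221) (nat_lit 2) (nat_lit 17) (.e true (nat_lit 2) (nat_lit 222) (nat_lit 2) (nat_lit 17) (.e false (nat_lit 3) (nat_lit 223) (nat_lit 2) (nat_lit 17) (.e false (nat_lit 1) (nat_lit 224) (nat_lit 2) (nat_lit 17) (.e true (nat_lit 1) (nat_lit 225) (nat_lit 2) (nat_lit 17) (.e false (nat_lit 3) (nat_lit 227) (nat_lit 2) (nat_lit 17) (.e true (nat_lit 2) (nat_lit 229) (nat_lit 2) (nat_lit 17) (.e false (nat_lit 2) (nat_lit 231)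 (nat_lit 2) (nat_lit 17) (.e false (nat_lit 1) (nat_lit 34) (nat_lit 31) (nat_lit 0) (.e false (nat_lit 1) (nat_lit 34) (nat_lit 32) (nat_lit 0) (.u (nat_lit 2) (.n (nat_lit 2) (nat_lit 1) (.p (nat_lit 3) (nat_lit 4) (.n (nat_lit 4) (nat_lit 3) (.n (nat_lit 5) (nat_lit 1) (.p (nat_lit 6) (nat_lit 3) (.n (nat_lit 7) (nat_lit 6) (.p (nat_lit 8) (nat_lit 2) (.p (nat_lit 9) (nat_lit 3) (.n (nat_lit 11) (nat_lit 2) (.n (nat_lit 12) (nat_lit 5) (.p (nat_lit 13) (nat_lit 3) (.n (nat_lit 14) (nat_lit 1) (.p (nat_lit 15) (nat_lit 2) (.n (nat_lit 17) (nat_lit 4) (.p (nat_lit 19) (nat_lit 4) (.n (nat_lit 20) (nat_lit 3) (.n (nat_lit 26) (nat_lit 1) (.n (nat_lit 27) (nat_lit 4) (.n (nat_lit 28) (nat_lit 2) (.p (nat_lit 29) (nat_lit 4) (.n (nat_lit 30) (nat_lit 3) (.p (nat_lit 31) (nat_lit 2) (.p (nat_lit 32) (nat_lit 3) (.p (nat_lit 33) (nat_lit 1) (.p (nat_lit 34) (nat_lit 3)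 (.n (nat_lit 35) (nat_lit 2) (.n (nat_lit 36) (nat_lit 8) (.p (nat_lit 37) (nat_lit 1) (.n (nat_lit 38) (nat_lit 1) (.p (nat_lit 39) (nat_lit 6) (.n (nat_lit 40) (nat_lit 1) (.n (nat_lit 50) (nat_lit 2) (.p (nat_lit 51) (nat_lit 2) (.n (nat_lit 52) (nat_lit 1) (.p (nat_lit 53) (nat_lit 1) (.p (nat_lit 54) (nat_lit 3) (.p (nat_lit 55) (nat_lit 1) (.p (nat_lit 56) (nat_lit 1) (.p (nat_lit 57) (nat_lit 4) (.n (nat_lit 58) (nat_lit 3) (.n (nat_lit 63) (nat_lit 1) (.p (nat_lit 64) (nat_lit 1) .z)))))))))))))))))))))))))))))))))))))))))) .nil)))))))))))))))))))))))))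

noncomputable def dC1a_i27 : IL := (.e false (nat_lit 3) (nat_lit 292) (nat_lit 0) (nat_lit 19) (.e false (nat_lit 2) (nat_lit 294) (nat_lit 0) (nat_lit 19) (.e false (nat_lit 1) (nat_lit 295) (nat_lit 0) (nat_lit 19) (.e true (nat_lit 1) (nat_lit 296) (nat_lit 0) (nat_lit 19) (.e false (nat_lit 3) (nat_lit 297) (nat_lit 0) (nat_lit 19) (.e true (nat_lit 1) (nat_lit 298) (nat_lit 0) (nat_lit 19) (.e true (nat_lit 3) (nat_lit 299) (nat_lit 0) (nat_lit 19) (.e true (nat_lit 2) (nat_lit 300) (nat_lit 0) (nat_lit 19) (.e false (nat_lit 3) (nat_lit 302) (nat_lit 0) (nat_lit 19) (.e false (nat_lit 2) (nat_lit 304) (nat_lit 0) (nat_lit 19) (.e false (nat_lit 2) (nat_lit 305) (nat_lit 0) (nat_lit 19) (.e false (nat_lit 1) (nat_lit 308) (nat_lit 0) (nat_lit 19) (.e false (nat_lit 3) (nat_lit 310) (nat_lit 0) (nat_lit 19) (.e false (nat_lit 1) (nat_lit 311) (nat_lit 0) (nat_lit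 19) (.e true (nat_lit 2) (nat_lit 313) (nat_lit 0) (nat_lit 19) (.e true (nat_lit 1) (nat_lit 316) (nat_lit 0) (nat_lit 19) (.e true (nat_lit 1) (nat_lit 317) (nat_lit 0) (nat_lit 19) (.e true (nat_lit 3) (nat_lit 318) (nat_lit 0) (nat_lit 19) (.e true (nat_lit 1) (nat_lit 319) (nat_lit 0) (nat_lit 19) (.e true (nat_lit 1) (nat_lit 38) (nat_lit 30) (nat_lit 1) (.e false (nat_lit 3) (nat_lit 301) (nat_lit 0) (nat_lit 19) (.e false (nat_lit 2) (nat_lit 293) (nat_lit 0) (nat_lit 19) (.e false (nat_lit 1) (nat_lit 64) (nat_lit 16) (nat_lit 6) (.u (nat_lit 2) (.p (nat_lit 0) (nat_lit 2) (.n (nat_lit 1) (nat_lit 1) (.n (nat_lit 3) (nat_lit 1) (.p (nat_lit 4) (nat_lit 3) (.p (nat_lit 5) (nat_lit 1) (.n (nat_lit 6) (nat_lit 1) (.p (nat_lit 7) (nat_lit 1) (.p (nat_lit 8) (nat_lit 3) (.p (nat_lit 9) (nat_lit 1) (.n (nat_lit 10) (nat_lit 1) (.n (nat_lit 11) (nat_lit 2) (.n (nat_lit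 12) (nat_lit 1) (.n (nat_lit 14) (nat_lit 2) (.n (nat_lit 15) (nat_lit 3) (.n (nat_lit 17) (nat_lit 2) (.p (nat_lit 18) (nat_lit 1) (.p (nat_lit 26) (nat_lit 4) (.p (nat_lit 29) (nat_lit 1) (.p (nat_lit 30) (nat_lit 1) (.p (nat_lit 31) (nat_lit 2) (.p (nat_lit 32) (nat_lit 2) (.p (nat_lit 33) (nat_lit 1) (.p (nat_lit 34) (nat_lit 1) (.n (nat_lit 35) (nat_lit 1) (.n (nat_lit 36) (nat_lit 1) (.n (nat_lit 37) (nat_lit 2) (.p (nat_lit 38) (nat_lit 1) (.n (nat_lit 40) (nat_lit 2) (.p (nat_lit 41) (nat_lit 3) (.n (nat_lit 375) (nat_lit 1) (.n (nat_lit 376) (nat_lit 1) (.n (nat_lit 377) (nat_lit 1) (.p (nat_lit 378) (nat_lit 1) (.p (nat_lit 379) (nat_lit 1) (.p (nat_lit 380) (nat_lit 1) (.p (nat_lit 381) (nat_lit 2) (.p (nat_lit 383) (nat_lit 1) (.n (nat_lit 384) (nat_lit 2) (.n (nat_lit 386) (nat_lit 1) (.n (nat_lit 388) (nat_lit 2) (.p (nat_lit 389) (nat_lit 3) (.n (nat_lit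 392) (nat_lit 2) (.n (nat_lit 393) (nat_lit 2) (.n (nat_lit 394) (nat_lit 3) (.n (nat_lit 395) (nat_lit 1) (.p (nat_lit 397) (nat_lit 1) (.p (nat_lit 401) (nat_lit 1) (.p (nat_lit 402) (nat_lit 2) (.p (nat_lit 403) (nat_lit 1) (.n (nat_lit 404) (nat_lit 1) (.n (nat_lit 405) (nat_lit 2) (.p (nat_lit 406) (nat_lit 1) (.n (nat_lit 407) (nat_lit 2) (.n (nat_lit 408) (nat_lit 2) (.n (nat_lit 409) (nat_lit 2) (.n (nat_lit 410) (nat_lit 1) (.n (nat_lit 411) (nat_lit 2) (.p (nat_lit 412) (nat_lit 1) (.p (nat_lit 413) (nat_lit 2) (.p (nat_lit 414) (nat_lit 1) .z)))))))))))))))))))))))))))))))))))))))))))))))))))))))))))) (.u (nat_lit 2) (.p (nat_lit 415) (nat_lit 2) (.n (nat_lit 416) (nat_lit 3) (.p (nat_lit 417) (nat_lit 1) (.p (nat_lit 419) (nat_lit 1) (.n (nat_lit 420) (nat_lit 1) (.p (nat_lit 422) (nat_lit 1) (.n (nat_lit 425) (nat_lit 2) (.p (nat_lit 428) (nat_lit 1) (.p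 (nat_lit 431) (nat_lit 1) (.p (nat_lit 433) (nat_lit 1) .z)))))))))) .nil)))))))))))))))))))))))))

noncomputable def dC1a_i28 : IL := (.s false (nat_lit 1) (nat_lit 16) (nat_lit 15) (nat_lit 1) (nat_lit 0) true (nat_lit 1) true (nat_lit 19) true (nat_lit 6) true (nat_lit 7) true (nat_lit 18) (.e true (nat_lit 2) (nat_lit 261) (nat_lit 1) (nat_lit 18) (.e false (nat_lit 3) (nat_lit 266) (nat_lit 1) (nat_lit 18) (.e false (nat_lit 3) (nat_lit 267) (nat_lit 1) (nat_lit 18) (.e true (nat_lit 2) (nat_lit 268) (nat_lit 1) (nat_lit 18) (.e true (nat_lit 2) (nat_lit 269) (nat_lit 1) (nat_lit 18) (.e false (nat_lit 3) (nat_lit 274) (nat_lit 1) (nat_lit 18) (.e true (nat_lit 1) (nat_lit 277) (nat_lit 1) (nat_lit 18) (.e true (nat_lit 3) (nat_lit 278) (nat_lit 1) (nat_lit 18) (.e false (nat_lit 1) (nat_lit 279) (nat_lit 1) (nat_lit 18) (.e false (nat_lit 1) (nat_lit 280) (nat_lit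 1) (nat_lit 18) (.e false (nat_lit 2) (nat_lit 286) (nat_lit 1) (nat_lit 18) (.e true (nat_lit 2) (nat_lit 287) (nat_lit 1) (nat_lit 18) (.e true (nat_lit 2) (nat_lit 288) (nat_lit 1) (nat_lit 18) (.e false (nat_lit 1) (nat_lit 289) (nat_lit 1) (nat_lit 18) (.e false (nat_lit 1) (nat_lit 265) (nat_lit 1) (nat_lit 18) (.e true (nat_lit 2) (nat_lit 282) (nat_lit 1) (nat_lit 18) (.e false (nat_lit 2) (nat_lit 271) (nat_lit 1) (nat_lit 18) (.e false (nat_lit 3) (nat_lit 260) (nat_lit 1) (nat_lit 18) (.e true (nat_lit 1) (nat_lit 281) (nat_lit 1) (nat_lit 18) (.e false (nat_lit 2) (nat_lit 272) (nat_lit 1) (nat_lit 18) (.e true (nat_lit 3) (nat_lit 270) (nat_lit 1) (nat_lit 18) (.e false (nat_lit 1) (nat_lit 61) (nat_lit 16) (nat_lit 6) (.e false (nat_lit 2) (nat_lit 290) (nat_lit 0) (nat_lit 19) (.e true (nat_lit 3) (nat_lit 291) (nat_lit 0) (nat_lit 19) dC1a_i27)))))))))))))))))))))))))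

noncomputable def dC1a_c37 : Cm := .mk (nat_lit 887) (nat_lit 37) (nat_lit 347) (nat_lit 8) (.c (nat_lit 37) (nat_lit 3) (nat_lit 18) (nat_lit 1) (nat_lit 8) (.c (nat_lit 43) (nat_lit 3) (nat_lit 16) (nat_lit 2) (nat_lit 11) (.c (nat_lit 46) (nat_lit 1) (nat_lit 13) (nat_lit 1) (nat_lit 17) (.c (nat_lit 93) (nat_lit 5) (nat_lit 6) (nat_lit 1) (nat_lit 18) (.c (nat_lit 102) (nat_lit 4) (nat_lit 5) (nat_lit 1) (nat_lit 23) (.c (nat_lit 196) (nat_lit 6) (nat_lit 2) (nat_lit 1) (nat_lit 27) (.c (nat_lit 207) (nat_lit 5) (nat_lit 1) (nat_lit 1) (nat_lit 33) (.c (nat_lit 2032) (nat_lit 0) (nat_lit 106) (nat_lit 1) (nat_lit 38) .nil))))))))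

noncomputable def dC1a_i29 : IL := (.e false (nat_lit 3) (nat_lit 222) (nat_lit 2) (nat_lit 17) (.e true (nat_lit 1) (nat_lit 223) (nat_lit 2) (nat_lit 17) (.e false (nat_lit 2) (nat_lit 224) (nat_lit 2) (nat_lit 17) (.e true (nat_lit 2) (nat_lit 226) (nat_lit 2) (nat_lit 17) (.e true (nat_lit 1) (nat_lit 227) (nat_lit 2) (nat_lit 17) (.e true (nat_lit 1) (nat_lit 228) (nat_lit 2) (nat_lit 17) (.e true (nat_lit 2) (nat_lit 229) (nat_lit 2) (nat_lit 17) (.e false (nat_lit 1) (nat_lit 230) (nat_lit 2) (nat_lit 17) (.e false (nat_lit 3) (nat_lit 234) (nat_lit 2) (nat_lit 17) (.e false (nat_lit 3) (nat_lit 235) (nat_lit 2) (nat_lit 17) (.e true (nat_lit 3) (nat_lit 238) (nat_lit 2) (nat_lit 17) (.e false (nat_lit 3) (nat_lit 239) (nat_lit 2) (nat_lit 17) (.e true (nat_lit 2) (nat_lit 241) (nat_lit 2) (nat_lit 17) (.e true (nat_lit 1) (nat_lit 244) (nat_lit 2) (nat_lit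 17) (.e true (nat_lit 3) (nat_lit 245) (nat_lit 2) (nat_lit 17) (.e false (nat_lit 3) (nat_lit 248) (nat_lit 2) (nat_lit 17) (.e false (nat_lit 1) (nat_lit 256) (nat_lit 2) (nat_lit 17) (.e false (nat_lit 2) (nat_lit 258) (nat_lit 2) (nat_lit 17) (.e true (nat_lit 1) (nat_lit 259) (nat_lit 2) (nat_lit 17) (.e true (nat_lit 3) (nat_lit 217) (nat_lit 2) (nat_lit 17) (.e true (nat_lit 1) (nat_lit 231) (nat_lit 2) (nat_lit 17) (.e false (nat_lit 1) (nat_lit 237) (nat_lit 2) (nat_lit 17) (.e true (nat_lit 3) (nat_lit 240) (nat_lit 2) (nat_lit 17) (.e false (nat_lit 2) (nat_lit 242) (nat_lit 2) (nat_lit 17) (.u (nat_lit 2) (.n (nat_lit 1) (nat_lit 5) (.p (nat_lit 2) (nat_lit 1) (.p (nat_lit 3) (nat_lit 4) (.n (nat_lit 4) (nat_lit 1) (.n (nat_lit 5) (nat_lit 3) (.p (nat_lit 6) (nat_lit 2) (.p (nat_lit 7) (nat_lit 4) (.n (nat_lit 8) (nat_lit 1) (.n (nat_lit 9) (nat_lit 2) (.p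 (nat_lit 10) (nat_lit 1) (.n (nat_lit 12) (nat_lit 3) (.p (nat_lit 13) (nat_lit 3) (.p (nat_lit 14) (nat_lit 3) (.n (nat_lit 15) (nat_lit 2) (.n (nat_lit 17) (nat_lit 1) (.p (nat_lit 18) (nat_lit 4) (.p (nat_lit 19) (nat_lit 4) (.p (nat_lit 23) (nat_lit 1) (.n (nat_lit 26) (nat_lit 1) (.p (nat_lit 27) (nat_lit 4) (.n (nat_lit 28) (nat_lit 4) (.n (nat_lit 30) (nat_lit 2) (.p (nat_lit 31) (nat_lit 1) (.n (nat_lit 32) (nat_lit 1) (.n (nat_lit 33) (nat_lit 3) (.n (nat_lit 34) (nat_lit 4) (.p (nat_lit 35) (nat_lit 4) (.p (nat_lit 37) (nat_lit 1) (.p (nat_lit 38) (nat_lit 6) (.p (nat_lit 39) (nat_lit 1) (.n (nat_lit 40) (nat_lit 1) (.p (nat_lit 41) (nat_lit 1) (.n (nat_lit 49) (nat_lit 6) (.n (nat_lit 50) (nat_lit 1) (.p (nat_lit 51) (nat_lit 1) (.n (nat_lit 52) (nat_lit 1) (.n (nat_lit 54) (nat_lit 1) (.p (nat_lit 55) (nat_lit 6) (.n (nat_lit 56) (nat_lit 1) (.p (nat_lit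 57) (nat_lit 2) (.n (nat_lit 58) (nat_lit 2) (.p (nat_lit 61) (nat_lit 1) (.n (nat_lit 63) (nat_lit 2) (.p (nat_lit 64) (nat_lit 1) (.p (nat_lit 70) (nat_lit 1) (.p (nat_lit 335) (nat_lit 1) (.p (nat_lit 343) (nat_lit 1) (.n (nat_lit 349) (nat_lit 1) (.n (nat_lit 354) (nat_lit 1) (.p (nat_lit 356) (nat_lit 1) (.n (nat_lit 358) (nat_lit 1) (.p (nat_lit 359) (nat_lit 1) (.p (nat_lit 360) (nat_lit 1) (.n (nat_lit 363) (nat_lit 1) (.n (nat_lit 371) (nat_lit 1) .z))))))))))))))))))))))))))))))))))))))))))))))))))))))) .nil)))))))))))))))))))))))))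

noncomputable def dC1a_i30 : IL := (.e true (nat_lit 2) (nat_lit 290) (nat_lit 0) (nat_lit 19) (.e false (nat_lit 2) (nat_lit 291) (nat_lit 0) (nat_lit 19) (.e false (nat_lit 2) (nat_lit 294) (nat_lit 0) (nat_lit 19) (.e false (nat_lit 1) (nat_lit 295) (nat_lit 0) (nat_lit 19) (.e false (nat_lit 2) (nat_lit 296) (nat_lit 0) (nat_lit 19) (.e true (nat_lit 3) (nat_lit 298) (nat_lit 0) (nat_lit 19) (.e true (nat_lit 1) (nat_lit 299) (nat_lit 0) (nat_lit 19) (.e false (nat_lit 3) (nat_lit 301) (nat_lit 0) (nat_lit 19) (.e true (nat_lit 3) (nat_lit 302) (nat_lit 0) (nat_lit 19) (.e true (nat_lit 2) (nat_lit 305) (nat_lit 0) (nat_lit 19) (.e true (nat_lit 3) (nat_lit 310) (nat_lit 0) (nat_lit 19) (.e false (nat_lit 1) (nat_lit 311) (nat_lit 0) (nat_lit 19) (.e false (nat_lit 2) (nat_lit 314) (nat_lit 0) (nat_lit 19) (.e true (nat_lit 2) (nat_lit 316) (nat_lit 0) (nat_lit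 19) (.e false (nat_lit 3) (nat_lit 317) (nat_lit 0) (nat_lit 19) (.e false (nat_lit 3) (nat_lit 318) (nat_lit 0) (nat_lit 19) (.e true (nat_lit 1) (nat_lit 319) (nat_lit 0) (nat_lit 19) (.e false (nat_lit 3) (nat_lit 303) (nat_lit 0) (nat_lit 19) (.e false (nat_lit 1) (nat_lit 304) (nat_lit 0) (nat_lit 19) (.e true (nat_lit 3) (nat_lit 306) (nat_lit 0) (nat_lit 19) (.e true (nat_lit 3) (nat_lit 309) (nat_lit 0) (nat_lit 19) (.e true (nat_lit 1) (nat_lit 300) (nat_lit 0) (nat_lit 19) (.e true (nat_lit 2) (nat_lit 315) (nat_lit 0) (nat_lit 19) (.e false (nat_lit 2) (nat_lit 292) (nat_lit 0) (nat_lit 19) (.u (nat_lit 2) (.p (nat_lit 0) (nat_lit 1) (.n (nat_lit 2) (nat_lit 1) (.n (nat_lit 3) (nat_lit 2) (.n (nat_lit 4) (nat_lit 1) (.p (nat_lit 6) (nat_lit 2) (.n (nat_lit 7) (nat_lit 2) (.n (nat_lit 8) (nat_lit 1) (.n (nat_lit 9) (nat_lit 1) (.p (nat_lit 11) (nat_lit 1)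 (.p (nat_lit 14) (nat_lit 2) (.p (nat_lit 18) (nat_lit 2) (.n (nat_lit 19) (nat_lit 1) (.n (nat_lit 20) (nat_lit 1) (.p (nat_lit 24) (nat_lit 1) (.p (nat_lit 405) (nat_lit 1) (.p (nat_lit 406) (nat_lit 1) (.p (nat_lit 409) (nat_lit 1) (.n (nat_lit 410) (nat_lit 2) (.n (nat_lit 411) (nat_lit 1) (.p (nat_lit 414) (nat_lit 1) (.n (nat_lit 416) (nat_lit 1) (.n (nat_lit 417) (nat_lit 1) (.p (nat_lit 419) (nat_lit 1) (.n (nat_lit 420) (nat_lit 1) (.p (nat_lit 422) (nat_lit 1) (.p (nat_lit 423) (nat_lit 2) (.p (nat_lit 424) (nat_lit 1) (.p (nat_lit 425) (nat_lit 1) (.n (nat_lit 426) (nat_lit 1) (.n (nat_lit 428) (nat_lit 3) (.n (nat_lit 429) (nat_lit 1) (.p (nat_lit 434) (nat_lit 1) .z)))))))))))))))))))))))))))))))) .nil)))))))))))))))))))))))))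

noncomputable def dC1a_i31 : IL := (.s false (nat_lit 1) (nat_lit 30) (nat_lit 2) (nat_lit 1) (nat_lit 5) true (nat_lit 6) true (nat_lit 14) true (nat_lit 1) true (nat_lit 17) true (nat_lit 18) (.e true (nat_lit 1) (nat_lit 61) (nat_lit 16) (nat_lit 6) (.e false (nat_lit 1) (nat_lit 145) (nat_lit 5) (nat_lit 14) (.e true (nat_lit 1) (nat_lit 37) (nat_lit 30) (nat_lit 1) (.e false (nat_lit 1) (nat_lit 39) (nat_lit 30) (nat_lit 1) (.e false (nat_lit 1) (nat_lit 238) (nat_lit 2) (nat_lit 17) (.e true (nat_lit 1) (nat_lit 245) (nat_lit 2) (nat_lit 17) (.e false (nat_lit 1) (nat_lit 259) (nat_lit 2) (nat_lit 17) (.e false (nat_lit 2) (nat_lit 260) (nat_lit 1) (nat_lit 18) (.e true (nat_lit 3) (nat_lit 262) (nat_lit 1) (nat_lit 18) (.e true (nat_lit 2) (nat_lit 263) (nat_lit 1) (nat_lit 18) (.e false (nat_lit 2) (nat_lit 264) (nat_lit 1) (nat_lit 18) (.e true (nat_lit 2)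 (nat_lit 265) (nat_lit 1) (nat_lit 18) (.e true (nat_lit 3) (nat_lit 266) (nat_lit 1) (nat_lit 18) (.e false (nat_lit 3) (nat_lit 267) (nat_lit 1) (nat_lit 18) (.e true (nat_lit 1) (nat_lit 268) (nat_lit 1) (nat_lit 18) (.e true (nat_lit 2) (nat_lit 269) (nat_lit 1) (nat_lit 18) (.e false (nat_lit 3) (nat_lit 270) (nat_lit 1) (nat_lit 18) (.e false (nat_lit 1) (nat_lit 271) (nat_lit 1) (nat_lit 18) (.e false (nat_lit 2) (nat_lit 272) (nat_lit 1) (nat_lit 18) (.e false (nat_lit 3) (nat_lit 277) (nat_lit 1) (nat_lit 18) (.e true (nat_lit 2) (nat_lit 278) (nat_lit 1) (nat_lit 18) (.e true (nat_lit 1) (nat_lit 279) (nat_lit 1) (nat_lit 18) (.e true (nat_lit 1) (nat_lit 280) (nat_lit 1) (nat_lit 18) (.u (nat_lit 2) (.n (nat_lit 2) (nat_lit 1) (.n (nat_lit 3) (nat_lit 1) (.p (nat_lit 4) (nat_lit 1) (.p (nat_lit 5) (nat_lit 1) (.n (nat_lit 7) (nat_lit 1) (.n (nat_lit 9) (nat_lit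 2) (.n (nat_lit 10) (nat_lit 2) (.n (nat_lit 11) (nat_lit 1) (.n (nat_lit 13) (nat_lit 1) (.p (nat_lit 14) (nat_lit 3) (.p (nat_lit 15) (nat_lit 1) (.p (nat_lit 18) (nat_lit 1) (.n (nat_lit 19) (nat_lit 1) (.n (nat_lit 20) (nat_lit 1) (.p (nat_lit 23) (nat_lit 1) (.p (nat_lit 24) (nat_lit 1) (.p (nat_lit 25) (nat_lit 1) (.p (nat_lit 27) (nat_lit 2) (.n (nat_lit 29) (nat_lit 1) (.n (nat_lit 31) (nat_lit 2) (.p (nat_lit 32) (nat_lit 3) (.n (nat_lit 33) (nat_lit 2) (.p (nat_lit 34) (nat_lit 1) (.p (nat_lit 35) (nat_lit 1) (.p (nat_lit 36) (nat_lit 1) (.p (nat_lit 37) (nat_lit 1) (.p (nat_lit 39) (nat_lit 1) (.p (nat_lit 40) (nat_lit 2) (.p (nat_lit 41) (nat_lit 1) (.n (nat_lit 49) (nat_lit 1) (.p (nat_lit 50) (nat_lit 1) (.n (nat_lit 51) (nat_lit 1) (.n (nat_lit 52) (nat_lit 1) (.p (nat_lit 53) (nat_lit 1) (.n (nat_lit 57) (nat_lit 1) (.p (nat_lit 58) (nat_lit 1) (.p (nat_lit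 59) (nat_lit 1) (.p (nat_lit 61) (nat_lit 1) (.p (nat_lit 63) (nat_lit 1) (.p (nat_lit 68) (nat_lit 1) (.n (nat_lit 69) (nat_lit 1) .z))))))))))))))))))))))))))))))))))))))))) .nil)))))))))))))))))))))))))

noncomputable def dC1a_i32 : IL := (.e false (nat_lit 1) (nat_lit 248) (nat_lit 2) (nat_lit 17) (.e false (nat_lit 1) (nat_lit 246) (nat_lit 2) (nat_lit 17) (.e true (nat_lit 2) (nat_lit 223) (nat_lit 2) (nat_lit 17) (.e false (nat_lit 1) (nat_lit 231) (nat_lit 2) (nat_lit 17) (.e true (nat_lit 1) (nat_lit 213) (nat_lit 2) (nat_lit 17) (.e false (nat_lit 1) (nat_lit 195) (nat_lit 3) (nat_lit 16) (.e true (nat_lit 3) (nat_lit 260) (nat_lit 1) (nat_lit 18) (.e false (nat_lit 3) (nat_lit 261) (nat_lit 1) (nat_lit 18) (.e false (nat_lit 3) (nat_lit 263) (nat_lit 1) (nat_lit 18) (.e false (nat_lit 3) (nat_lit 264) (nat_lit 1) (nat_lit 18) (.e false (nat_lit 3) (nat_lit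 265) (nat_lit 1) (nat_lit 18) (.e false (nat_lit 1) (nat_lit 266) (nat_lit 1) (nat_lit 18) (.e false (nat_lit 2) (nat_lit 267) (nat_lit 1) (nat_lit 18) (.e true (nat_lit 3) (nat_lit 268) (nat_lit 1) (nat_lit 18) (.e true (nat_lit 3) (nat_lit 273) (nat_lit 1) (nat_lit 18) (.e true (nat_lit 2) (nat_lit 274) (nat_lit 1) (nat_lit 18) (.e true (nat_lit 3) (nat_lit 277) (nat_lit 1) (nat_lit 18) (.e false (nat_lit 2) (nat_lit 278) (nat_lit 1) (nat_lit 18) (.e false (nat_lit 2) (nat_lit 279) (nat_lit 1) (nat_lit 18) (.e false (nat_lit 1) (nat_lit 280) (nat_lit 1) (nat_lit 18) (.e true (nat_lit 1) (nat_lit 283) (nat_lit 1) (nat_lit 18) (.e true (nat_lit 3) (nat_lit 286) (nat_lit 1) (nat_lit 18) (.e false (nat_lit 3) (nat_lit 288) (nat_lit 1) (nat_lit 18) (.u (nat_lit 2) (.n (nat_lit 0) (nat_lit 2) (.p (nat_lit 2) (nat_lit 4) (.p (nat_lit 3) (nat_lit 4) (.p (nat_lit 4) (nat_lit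 1) (.n (nat_lit 5) (nat_lit 3) (.p (nat_lit 6) (nat_lit 2) (.p (nat_lit 7) (nat_lit 2) (.n (nat_lit 8) (nat_lit 5) (.p (nat_lit 9) (nat_lit 1) (.p (nat_lit 10) (nat_lit 4) (.n (nat_lit 12) (nat_lit 7) (.p (nat_lit 13) (nat_lit 1) (.n (nat_lit 14) (nat_lit 3) (.n (nat_lit 15) (nat_lit 2) (.p (nat_lit 18) (nat_lit 1) (.p (nat_lit 19) (nat_lit 2) (.n (nat_lit 26) (nat_lit 5) (.p (nat_lit 27) (nat_lit 3) (.p (nat_lit 28) (nat_lit 1) (.p (nat_lit 29) (nat_lit 2) (.p (nat_lit 30) (nat_lit 1) (.p (nat_lit 31) (nat_lit 5) (.p (nat_lit 33) (nat_lit 6) (.n (nat_lit 34) (nat_lit 2) (.p (nat_lit 35) (nat_lit 1) (.n (nat_lit 37) (nat_lit 3) (.p (nat_lit 38) (nat_lit 4) (.n (nat_lit 40) (nat_lit 6) (.p (nat_lit 41) (nat_lit 1) (.p (nat_lit 45) (nat_lit 1) (.n (nat_lit 49) (nat_lit 4) (.n (nat_lit 50) (nat_lit 3) (.p (nat_lit 51) (nat_lit 2) (.p (nat_lit 53) (nat_lit 2) (.n (nat_lit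 54) (nat_lit 1) (.p (nat_lit 55) (nat_lit 4) (.p (nat_lit 57) (nat_lit 2) (.n (nat_lit 58) (nat_lit 1) (.n (nat_lit 60) (nat_lit 1) (.n (nat_lit 61) (nat_lit 1) (.p (nat_lit 62) (nat_lit 1) (.n (nat_lit 63) (nat_lit 2) (.p (nat_lit 64) (nat_lit 1) (.n (nat_lit 69) (nat_lit 1) (.p (nat_lit 70) (nat_lit 1) (.p (nat_lit 327) (nat_lit 2) (.p (nat_lit 328) (nat_lit 1) (.p (nat_lit 329) (nat_lit 1) (.n (nat_lit 331) (nat_lit 1) (.p (nat_lit 332) (nat_lit 1) (.p (nat_lit 335) (nat_lit 2) (.n (nat_lit 337) (nat_lit 2) (.n (nat_lit 338) (nat_lit 1) (.n (nat_lit 339) (nat_lit 1) (.n (nat_lit 342) (nat_lit 1) (.n (nat_lit 344) (nat_lit 1) (.p (nat_lit 347) (nat_lit 1) (.p (nat_lit 348) (nat_lit 1) (.p (nat_lit 350) (nat_lit 1) (.p (nat_lit 351) (nat_lit 1) .z)))))))))))))))))))))))))))))))))))))))))))))))))))))))))))) (.u (nat_lit 2) (.p (nat_lit 352) (nat_lit 2) (.p (nat_lit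 353) (nat_lit 1) (.p (nat_lit 355) (nat_lit 1) (.p (nat_lit 356) (nat_lit 1) (.p (nat_lit 357) (nat_lit 1) .z))))) .nil)))))))))))))))))))))))))

noncomputable def dC1a_i33 : IL := (.e false (nat_lit 3) (nat_lit 218) (nat_lit 2) (nat_lit 17) (.e true (nat_lit 2) (nat_lit 219) (nat_lit 2) (nat_lit 17) (.e false (nat_lit 1) (nat_lit 220) (nat_lit 2) (nat_lit 17) (.e false (nat_lit 1) (nat_lit 222) (nat_lit 2) (nat_lit 17) (.e true (nat_lit 2) (nat_lit 223) (nat_lit 2) (nat_lit 17) (.e true (nat_lit 2) (nat_lit 225) (nat_lit 2) (nat_lit 17) (.e true (nat_lit 1) (nat_lit 226) (nat_lit 2) (nat_lit 17) (.e false (nat_lit 1) (nat_lit 228) (nat_lit 2) (nat_lit 17) (.e true (nat_lit 2) (nat_lit 229) (nat_lit 2) (nat_lit 17) (.e true (nat_lit 1) (nat_lit 230) (nat_lit 2) (nat_lit 17) (.e false (nat_lit 2) (nat_lit 231) (nat_lit 2) (nat_lit 17) (.e true (nat_lit 2) (nat_lit 232)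 (nat_lit 2) (nat_lit 17) (.e true (nat_lit 3) (nat_lit 233) (nat_lit 2) (nat_lit 17) (.e true (nat_lit 2) (nat_lit 235) (nat_lit 2) (nat_lit 17) (.e true (nat_lit 3) (nat_lit 236) (nat_lit 2) (nat_lit 17) (.e false (nat_lit 3) (nat_lit 238) (nat_lit 2) (nat_lit 17) (.e false (nat_lit 1) (nat_lit 239) (nat_lit 2) (nat_lit 17) (.e true (nat_lit 2) (nat_lit 240) (nat_lit 2) (nat_lit 17) (.e false (nat_lit 1) (nat_lit 241) (nat_lit 2) (nat_lit 17) (.e true (nat_lit 1) (nat_lit 242) (nat_lit 2) (nat_lit 17) (.e true (nat_lit 1) (nat_lit 243) (nat_lit 2) (nat_lit 17) (.e false (nat_lit 2) (nat_lit 245) (nat_lit 2) (nat_lit 17) (.e false (nat_lit 1) (nat_lit 246) (nat_lit 2) (nat_lit 17) (.e true (nat_lit 2) (nat_lit 248) (nat_lit 2) (nat_lit 17) (.u (nat_lit 2) (.p (nat_lit 0) (nat_lit 2) (.p (nat_lit 1) (nat_lit 2) (.n (nat_lit 2) (nat_lit 2) (.p (nat_lit 3) (nat_lit 3)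 (.n (nat_lit 4) (nat_lit 1) (.p (nat_lit 6) (nat_lit 2) (.n (nat_lit 7) (nat_lit 4) (.p (nat_lit 10) (nat_lit 1) (.n (nat_lit 11) (nat_lit 1) (.p (nat_lit 12) (nat_lit 1) (.n (nat_lit 13) (nat_lit 2) (.n (nat_lit 14) (nat_lit 1) (.p (nat_lit 15) (nat_lit 2) (.n (nat_lit 17) (nat_lit 1) (.n (nat_lit 18) (nat_lit 2) (.n (nat_lit 19) (nat_lit 4) (.n (nat_lit 20) (nat_lit 2) (.n (nat_lit 26) (nat_lit 2) (.n (nat_lit 27) (nat_lit 1) (.p (nat_lit 28) (nat_lit 2) (.p (nat_lit 29) (nat_lit 1) (.n (nat_lit 30) (nat_lit 1) (.p (nat_lit 31) (nat_lit 1) (.p (nat_lit 32) (nat_lit 1) (.n (nat_lit 35) (nat_lit 2) (.p (nat_lit 36) (nat_lit 2) (.p (nat_lit 37) (nat_lit 3) (.n (nat_lit 38) (nat_lit 3) (.n (nat_lit 40) (nat_lit 2) (.n (nat_lit 45) (nat_lit 1) (.p (nat_lit 49) (nat_lit 2) (.n (nat_lit 50) (nat_lit 1) (.n (nat_lit 51) (nat_lit 1) (.n (nat_lit 52) (nat_lit 1) (.n (nat_lit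 53) (nat_lit 1) (.p (nat_lit 54) (nat_lit 3) (.n (nat_lit 55) (nat_lit 3) (.n (nat_lit 57) (nat_lit 2) (.p (nat_lit 58) (nat_lit 2) (.n (nat_lit 60) (nat_lit 1) (.n (nat_lit 61) (nat_lit 1) (.p (nat_lit 62) (nat_lit 1) (.p (nat_lit 63) (nat_lit 1) (.p (nat_lit 69) (nat_lit 2) (.n (nat_lit 70) (nat_lit 3) .z))))))))))))))))))))))))))))))))))))))))))))) .nil)))))))))))))))))))))))))

noncomputable def dC1a_i34 : IL := (.e false (nat_lit 3) (nat_lit 261) (nat_lit 1) (nat_lit 18) (.e false (nat_lit 3) (nat_lit 262) (nat_lit 1) (nat_lit 18) (.e true (nat_lit 2) (nat_lit 263) (nat_lit 1) (nat_lit 18) (.e false (nat_lit 1) (nat_lit 265) (nat_lit 1) (nat_lit 18) (.e true (nat_lit 1) (nat_lit 266) (nat_lit 1) (nat_lit 18) (.e true (nat_lit 2) (nat_lit 267) (nat_lit 1) (nat_lit 18) (.e true (nat_lit 3) (nat_lit 268) (nat_lit 1) (nat_lit 18) (.e false (nat_lit 3) (nat_lit 269)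 (nat_lit 1) (nat_lit 18) (.e false (nat_lit 2) (nat_lit 270) (nat_lit 1) (nat_lit 18) (.e true (nat_lit 1) (nat_lit 271) (nat_lit 1) (nat_lit 18) (.e true (nat_lit 2) (nat_lit 272) (nat_lit 1) (nat_lit 18) (.e false (nat_lit 3) (nat_lit 273) (nat_lit 1) (nat_lit 18) (.e true (nat_lit 1) (nat_lit 274) (nat_lit 1) (nat_lit 18) (.e false (nat_lit 1) (nat_lit 275) (nat_lit 1) (nat_lit 18) (.e true (nat_lit 2) (nat_lit 277) (nat_lit 1) (nat_lit 18) (.e false (nat_lit 1) (nat_lit 278) (nat_lit 1) (nat_lit 18) (.e true (nat_lit 2) (nat_lit 279) (nat_lit 1) (nat_lit 18) (.e true (nat_lit 2) (nat_lit 280) (nat_lit 1) (nat_lit 18) (.e true (nat_lit 1) (nat_lit 195) (nat_lit 3) (nat_lit 16) (.e true (nat_lit 1) (nat_lit 212) (nat_lit 2) (nat_lit 17) (.e true (nat_lit 3) (nat_lit 213) (nat_lit 2) (nat_lit 17) (.e true (nat_lit 3) (nat_lit 214) (nat_lit 2) (nat_lit 17) (.e false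 (nat_lit 2) (nat_lit 215) (nat_lit 2) (nat_lit 17) (.e true (nat_lit 3) (nat_lit 216) (nat_lit 2) (nat_lit 17) (.e false (nat_lit 2) (nat_lit 217) (nat_lit 2) (nat_lit 17) dC1a_i33)))))))))))))))))))))))))

noncomputable def dC1a_i35 : IL := (.s false (nat_lit 1) (nat_lit 40) (nat_lit 4) (nat_lit 1) (nat_lit 1) true (nat_lit 9) true (nat_lit 18) false (nat_lit 2) true (nat_lit 15) true (nat_lit 18) (.e true (nat_lit 1) (nat_lit 88) (nat_lit 11) (nat_lit 9) (.e true (nat_lit 2) (nat_lit 260) (nat_lit 1) (nat_lit 18) (.e false (nat_lit 2) (nat_lit 262) (nat_lit 1) (nat_lit 18) (.e false (nat_lit 1) (nat_lit 267) (nat_lit 1) (nat_lit 18) (.e false (nat_lit 2) (nat_lit 268) (nat_lit 1) (nat_lit 18) (.e true (nat_lit 3) (nat_lit 269) (nat_lit 1) (nat_lit 18) (.e true (nat_lit 2) (nat_lit 271) (nat_lit 1) (nat_lit 18) (.e false (nat_lit 3) (nat_lit 278) (nat_lit 1) (nat_lit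 18) (.e false (nat_lit 1) (nat_lit 279) (nat_lit 1) (nat_lit 18) (.e false (nat_lit 3) (nat_lit 280) (nat_lit 1) (nat_lit 18) (.e true (nat_lit 2) (nat_lit 288) (nat_lit 1) (nat_lit 18) (.e false (nat_lit 1) (nat_lit 261) (nat_lit 1) (nat_lit 18) (.e true (nat_lit 1) (nat_lit 263) (nat_lit 1) (nat_lit 18) (.e false (nat_lit 1) (nat_lit 270) (nat_lit 1) (nat_lit 18) (.e true (nat_lit 1) (nat_lit 272) (nat_lit 1) (nat_lit 18) (.e false (nat_lit 1) (nat_lit 273) (nat_lit 1) (nat_lit 18) (.e true (nat_lit 1) (nat_lit 277) (nat_lit 1) (nat_lit 18) (.e false (nat_lit 3) (nat_lit 287) (nat_lit 1) (nat_lit 18) (.e true (nat_lit 1) (nat_lit 265) (nat_lit 1) (nat_lit 18) (.e true (nat_lit 2) (nat_lit 266) (nat_lit 1) (nat_lit 18) (.e true (nat_lit 2) (nat_lit 274) (nat_lit 1) (nat_lit 18) (.e false (nat_lit 1) (nat_lit 276) (nat_lit 1) (nat_lit 18) (.e true (nat_lit 1) (nat_lit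 284) (nat_lit 1) (nat_lit 18) (.u (nat_lit 2) (.n (nat_lit 0) (nat_lit 3) (.n (nat_lit 4) (nat_lit 2) (.n (nat_lit 6) (nat_lit 1) (.p (nat_lit 7) (nat_lit 1) (.p (nat_lit 8) (nat_lit 3) (.p (nat_lit 9) (nat_lit 1) (.p (nat_lit 10) (nat_lit 1) (.p (nat_lit 11) (nat_lit 2) (.p (nat_lit 12) (nat_lit 2) (.n (nat_lit 14) (nat_lit 3) (.p (nat_lit 15) (nat_lit 1) (.n (nat_lit 18) (nat_lit 1) (.p (nat_lit 20) (nat_lit 1) (.n (nat_lit 26) (nat_lit 1) (.n (nat_lit 27) (nat_lit 5) (.n (nat_lit 28) (nat_lit 2) (.n (nat_lit 32) (nat_lit 4) (.p (nat_lit 33) (nat_lit 3) (.p (nat_lit 34) (nat_lit 1) (.n (nat_lit 35) (nat_lit 1) (.n (nat_lit 36) (nat_lit 1) (.p (nat_lit 38) (nat_lit 1) (.p (nat_lit 39) (nat_lit 1) (.p (nat_lit 40) (nat_lit 2) (.n (nat_lit 41) (nat_lit 1) (.p (nat_lit 375) (nat_lit 1) (.n (nat_lit 382) (nat_lit 1) (.p (nat_lit 384) (nat_lit 1) (.p (nat_lit 387) (nat_lit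 1) (.n (nat_lit 395) (nat_lit 1) (.p (nat_lit 397) (nat_lit 1) (.n (nat_lit 401) (nat_lit 1) (.n (nat_lit 402) (nat_lit 1) (.p (nat_lit 403) (nat_lit 1) (.n (nat_lit 404) (nat_lit 1) .z))))))))))))))))))))))))))))))))))) .nil)))))))))))))))))))))))))

noncomputable def dC1a_i36 : IL := (.e false (nat_lit 1) (nat_lit 40) (nat_lit 25) (nat_lit 2) (.e true (nat_lit 2) (nat_lit 290) (nat_lit 0) (nat_lit 19) (.e true (nat_lit 2) (nat_lit 291) (nat_lit 0) (nat_lit 19) (.e false (nat_lit 1) (nat_lit 292) (nat_lit 0) (nat_lit 19) (.e true (nat_lit 1) (nat_lit 293) (nat_lit 0) (nat_lit 19) (.e true (nat_lit 1) (nat_lit 294) (nat_lit 0) (nat_lit 19) (.e false (nat_lit 1) (nat_lit 295) (nat_lit 0) (nat_lit 19) (.e true (nat_lit 1) (nat_lit 296) (nat_lit 0) (nat_lit 19) (.e false (nat_lit 1) (nat_lit 297) (nat_lit 0) (nat_lit 19) (.e true (nat_lit 1) (nat_lit 299) (nat_lit 0) (nat_lit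 19) (.e false (nat_lit 1) (nat_lit 300) (nat_lit 0) (nat_lit 19) (.e false (nat_lit 1) (nat_lit 304) (nat_lit 0) (nat_lit 19) (.e false (nat_lit 1) (nat_lit 306) (nat_lit 0) (nat_lit 19) (.e false (nat_lit 1) (nat_lit 307) (nat_lit 0) (nat_lit 19) (.e false (nat_lit 1) (nat_lit 308) (nat_lit 0) (nat_lit 19) (.e true (nat_lit 1) (nat_lit 309) (nat_lit 0) (nat_lit 19) (.e true (nat_lit 1) (nat_lit 310) (nat_lit 0) (nat_lit 19) (.e true (nat_lit 1) (nat_lit 73) (nat_lit 14) (nat_lit 7) (.e false (nat_lit 1) (nat_lit 78) (nat_lit 13) (nat_lit 8) (.e false (nat_lit 1) (nat_lit 80) (nat_lit 13) (nat_lit 8) (.e true (nat_lit 1) (nat_lit 81) (nat_lit 13) (nat_lit 8) (.e true (nat_lit 1) (nat_lit 237) (nat_lit 2) (nat_lit 17) (.e false (nat_lit 1) (nat_lit 244) (nat_lit 2) (nat_lit 17) (.e true (nat_lit 1) (nat_lit 258) (nat_lit 2) (nat_lit 17) (.u (nat_lit 2) (.n (nat_lit 0)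 (nat_lit 1) (.n (nat_lit 2) (nat_lit 1) (.p (nat_lit 3) (nat_lit 1) (.p (nat_lit 5) (nat_lit 1) (.n (nat_lit 6) (nat_lit 1) (.p (nat_lit 7) (nat_lit 1) (.n (nat_lit 10) (nat_lit 1) (.p (nat_lit 11) (nat_lit 1) (.p (nat_lit 12) (nat_lit 1) (.n (nat_lit 13) (nat_lit 1) (.p (nat_lit 14) (nat_lit 1) (.p (nat_lit 15) (nat_lit 1) (.p (nat_lit 18) (nat_lit 2) (.p (nat_lit 20) (nat_lit 1) (.n (nat_lit 28) (nat_lit 1) (.n (nat_lit 29) (nat_lit 1) (.p (nat_lit 30) (nat_lit 1) (.n (nat_lit 31) (nat_lit 1) (.p (nat_lit 32) (nat_lit 1) (.p (nat_lit 34) (nat_lit 1) (.p (nat_lit 35) (nat_lit 1) (.n (nat_lit 36) (nat_lit 1) (.p (nat_lit 38) (nat_lit 2) (.p (nat_lit 40) (nat_lit 1) (.p (nat_lit 41) (nat_lit 2) (.n (nat_lit 44) (nat_lit 1) (.n (nat_lit 49) (nat_lit 1) (.n (nat_lit 54) (nat_lit 1) (.p (nat_lit 69) (nat_lit 1) (.p (nat_lit 70) (nat_lit 1) .z))))))))))))))))))))))))))))))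 .nil)))))))))))))))))))))))))

noncomputable def dC1a_i37 : IL := (.e false (nat_lit 1) (nat_lit 283) (nat_lit 2) (nat_lit 13) (.e true (nat_lit 2) (nat_lit 286) (nat_lit 2) (nat_lit 13) (.e true (nat_lit 1) (nat_lit 42) (nat_lit 31) (nat_lit 0) (.e true (nat_lit 1) (nat_lit 272) (nat_lit 2) (nat_lit 13) (.e false (nat_lit 1) (nat_lit 57) (nat_lit 18) (nat_lit 3) (.e false (nat_lit 1) (nat_lit 100) (nat_lit 10) (nat_lit 6) (.e true (nat_lit 3) (nat_lit 328) (nat_lit 0) (nat_lit 15) (.e false (nat_lit 2) (nat_lit 329) (nat_lit 0) (nat_lit 15) (.e true (nat_lit 2) (nat_lit 330) (nat_lit 0) (nat_lit 15) (.e true (nat_lit 1) (nat_lit 331) (nat_lit 0) (nat_lit 15) (.e false (nat_lit 2) (nat_lit 332) (nat_lit 0) (nat_lit 15) (.e false (nat_lit 3) (nat_lit 333) (nat_lit 0) (nat_lit 15) (.e false (nat_lit 1) (nat_lit 334) (nat_lit 0) (nat_lit 15) (.e false (nat_lit 1) (nat_lit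 335) (nat_lit 0) (nat_lit 15) (.e true (nat_lit 1) (nat_lit 336) (nat_lit 0) (nat_lit 15) (.e true (nat_lit 2) (nat_lit 337) (nat_lit 0) (nat_lit 15) (.e true (nat_lit 1) (nat_lit 340) (nat_lit 0) (nat_lit 15) (.e false (nat_lit 1) (nat_lit 344) (nat_lit 0) (nat_lit 15) (.e true (nat_lit 1) (nat_lit 345) (nat_lit 0) (nat_lit 15) (.e true (nat_lit 1) (nat_lit 41) (nat_lit 31) (nat_lit 0) (.e true (nat_lit 2) (nat_lit 203) (nat_lit 3) (nat_lit 12) (.e true (nat_lit 2) (nat_lit 204) (nat_lit 3) (nat_lit 12) (.e false (nat_lit 1) (nat_lit 206) (nat_lit 3) (nat_lit 12) (.e true (nat_lit 2) (nat_lit 288) (nat_lit 2) (nat_lit 13) (.u (nat_lit 2) (.n (nat_lit 0) (nat_lit 1) (.p (nat_lit 1) (nat_lit 1) (.p (nat_lit 2) (nat_lit 2) (.n (nat_lit 3) (nat_lit 3) (.p (nat_lit 5) (nat_lit 4) (.p (nat_lit 6) (nat_lit 5) (.p (nat_lit 7) (nat_lit 5) (.p (nat_lit 8) (nat_lit 2) (.p (nat_lit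 9) (nat_lit 1) (.p (nat_lit 10) (nat_lit 4) (.n (nat_lit 13) (nat_lit 1) (.p (nat_lit 15) (nat_lit 7) (.p (nat_lit 17) (nat_lit 1) (.p (nat_lit 18) (nat_lit 1) (.p (nat_lit 19) (nat_lit 1) (.p (nat_lit 20) (nat_lit 1) (.p (nat_lit 21) (nat_lit 1) (.p (nat_lit 22) (nat_lit 1) (.n (nat_lit 24) (nat_lit 1) (.p (nat_lit 25) (nat_lit 1) (.p (nat_lit 26) (nat_lit 2) (.p (nat_lit 27) (nat_lit 2) (.n (nat_lit 28) (nat_lit 1) (.p (nat_lit 30) (nat_lit 3) (.p (nat_lit 33) (nat_lit 6) (.n (nat_lit 174) (nat_lit 1) (.p (nat_lit 175) (nat_lit 1) (.n (nat_lit 180) (nat_lit 1) (.n (nat_lit 181) (nat_lit 1) (.n (nat_lit 185) (nat_lit 1) (.p (nat_lit 188) (nat_lit 1) (.n (nat_lit 192) (nat_lit 1) .z)))))))))))))))))))))))))))))))) .nil)))))))))))))))))))))))))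

noncomputable def dC1a_c533 : Cm := .mk (nat_lit 1215) (nat_lit 533) (nat_lit 426) (nat_lit 34) (.c (nat_lit 40) (nat_lit 3) (nat_lit 31) (nat_lit 6) (nat_lit 34) (.c (nat_lit 43) (nat_lit 3) (nat_lit 28) (nat_lit 3) (nat_lit 52) (.c (nat_lit 46) (nat_lit 1) (nat_lit 20) (nat_lit 4) (nat_lit 61) (.c (nat_lit 55) (nat_lit 11) (nat_lit 18) (nat_lit 1) (nat_lit 65) (.c (nat_lit 77) (nat_lit 5) (nat_lit 16) (nat_lit 2) (nat_lit 76) (.c (nat_lit 82) (nat_lit 11) (nat_lit 14) (nat_lit 2) (nat_lit 86) (.c (nat_lit 98) (nat_lit 4) (nat_lit 10) (nat_lit 3) (nat_lit 108) (.c (nat_lit 102) (nat_lit 4) (nat_lit 9) (nat_lit 1) (nat_lit 120) (.c (nat_lit 106) (nat_lit 1) (nat_lit 7) (nat_lit 1) (nat_lit 124) (.c (nat_lit 132) (nat_lit 21) (nat_lit 6) (nat_lit 1) (nat_lit 125) (.c (nat_lit 174) (nat_lit 6) (nat_lit 5) (nat_lit 1) (nat_lit 146) (.c (nat_lit 180) (nat_lit 16) (nat_lit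 4) (nat_lit 1) (nat_lit 152) (.c (nat_lit 202) (nat_lit 5) (nat_lit 3) (nat_lit 1) (nat_lit 168) (.c (nat_lit 260) (nat_lit 30) (nat_lit 2) (nat_lit 1) (nat_lit 173) (.c (nat_lit 320) (nat_lit 8) (nat_lit 1) (nat_lit 1) (nat_lit 203) (.c (nat_lit 328) (nat_lit 19) (nat_lit 0) (nat_lit 1) (nat_lit 211) (.c (nat_lit 2512) (nat_lit 0) (nat_lit 207) (nat_lit 5) (nat_lit 230) .nil)))))))))))))))))

noncomputable def dC1a_i38 : IL := (.e false (nat_lit 1) (nat_lit 261) (nat_lit 2) (nat_lit 13) (.e true (nat_lit 2) (nat_lit 263) (nat_lit 2) (nat_lit 13) (.e false (nat_lit 1) (nat_lit 264) (nat_lit 2) (nat_lit 13) (.e false (nat_lit 3) (nat_lit 265) (nat_lit 2) (nat_lit 13) (.e true (nat_lit 3) (nat_lit 266) (nat_lit 2) (nat_lit 13) (.e false (nat_lit 3) (nat_lit 267) (nat_lit 2) (nat_lit 13) (.e true (nat_lit 1) (nat_lit 268) (nat_lit 2) (nat_lit 13) (.e false (nat_lit 2)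 (nat_lit 269) (nat_lit 2) (nat_lit 13) (.e true (nat_lit 3) (nat_lit 270) (nat_lit 2) (nat_lit 13) (.e false (nat_lit 2) (nat_lit 271) (nat_lit 2) (nat_lit 13) (.e true (nat_lit 2) (nat_lit 272) (nat_lit 2) (nat_lit 13) (.e true (nat_lit 3) (nat_lit 274) (nat_lit 2) (nat_lit 13) (.e false (nat_lit 2) (nat_lit 277) (nat_lit 2) (nat_lit 13) (.e false (nat_lit 1) (nat_lit 278) (nat_lit 2) (nat_lit 13) (.e false (nat_lit 2) (nat_lit 280) (nat_lit 2) (nat_lit 13) (.e false (nat_lit 1) (nat_lit 281) (nat_lit 2) (nat_lit 13) (.e false (nat_lit 1) (nat_lit 283) (nat_lit 2) (nat_lit 13) (.e true (nat_lit 1) (nat_lit 284) (nat_lit 2) (nat_lit 13) (.e false (nat_lit 2) (nat_lit 286) (nat_lit 2) (nat_lit 13) (.e false (nat_lit 1) (nat_lit 287) (nat_lit 2) (nat_lit 13) (.e false (nat_lit 3) (nat_lit 288) (nat_lit 2) (nat_lit 13) (.e true (nat_lit 1) (nat_lit 289) (nat_lit 2) (nat_lit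 13) (.e false (nat_lit 1) (nat_lit 275) (nat_lit 2) (nat_lit 13) (.e true (nat_lit 1) (nat_lit 276) (nat_lit 2) (nat_lit 13) (.u (nat_lit 2) (.n (nat_lit 0) (nat_lit 4) (.n (nat_lit 1) (nat_lit 4) (.p (nat_lit 2) (nat_lit 2) (.n (nat_lit 3) (nat_lit 5) (.p (nat_lit 5) (nat_lit 3) (.p (nat_lit 8) (nat_lit 3) (.p (nat_lit 10) (nat_lit 1) (.n (nat_lit 13) (nat_lit 2) (.p (nat_lit 15) (nat_lit 4) (.p (nat_lit 16) (nat_lit 1) (.n (nat_lit 17) (nat_lit 2) (.p (nat_lit 18) (nat_lit 1) (.n (nat_lit 19) (nat_lit 3) (.p (nat_lit 22) (nat_lit 2) (.n (nat_lit 23) (nat_lit 1) (.p (nat_lit 24) (nat_lit 1) (.p (nat_lit 26) (nat_lit 2) (.p (nat_lit 27) (nat_lit 1) (.p (nat_lit 30) (nat_lit 1) (.p (nat_lit 173) (nat_lit 1) (.n (nat_lit 177) (nat_lit 1) (.p (nat_lit 179) (nat_lit 1) (.p (nat_lit 183) (nat_lit 1) (.p (nat_lit 185) (nat_lit 1) .z)))))))))))))))))))))))) .nil)))))))))))))))))))))))))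

noncomputable def dC1a_c293 : Cm := .mk (nat_lit 1393) (nat_lit 293) (nat_lit 460) (nat_lit 34) (.c (nat_lit 40) (nat_lit 3) (nat_lit 37) (nat_lit 3) (nat_lit 34) (.c (nat_lit 43) (nat_lit 3) (nat_lit 31) (nat_lit 6) (nat_lit 43) (.c (nat_lit 46) (nat_lit 1) (nat_lit 24) (nat_lit 4) (nat_lit 61) (.c (nat_lit 66) (nat_lit 11) (nat_lit 18) (nat_lit 1) (nat_lit 65) (.c (nat_lit 82) (nat_lit 11) (nat_lit 16) (nat_lit 2) (nat_lit 76) (.c (nat_lit 93) (nat_lit 5) (nat_lit 14) (nat_lit 2) (nat_lit 98) (.c (nat_lit 98) (nat_lit 4) (nat_lit 13) (nat_lit 1) (nat_lit 108) (.c (nat_lit 102) (nat_lit 4) (nat_lit 10) (nat_lit 3) (nat_lit 112) (.c (nat_lit 106) (nat_lit 1) (nat_lit 8) (nat_lit 1) (nat_lit 124) (.c (nat_lit 153) (nat_lit 21) (nat_lit 6) (nat_lit 1) (nat_lit 125) (.c (nat_lit 180) (nat_lit 16) (nat_lit 5) (nat_lit 1) (nat_lit 146) (.c (nat_lit 196) (nat_lit 6) (nat_lit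 4) (nat_lit 1) (nat_lit 162) (.c (nat_lit 207) (nat_lit 5) (nat_lit 3) (nat_lit 1) (nat_lit 168) (.c (nat_lit 290) (nat_lit 30) (nat_lit 2) (nat_lit 1) (nat_lit 173) (.c (nat_lit 328) (nat_lit 19) (nat_lit 1) (nat_lit 1) (nat_lit 203) (.c (nat_lit 347) (nat_lit 8) (nat_lit 0) (nat_lit 1) (nat_lit 222) (.c (nat_lit 2032) (nat_lit 0) (nat_lit 202) (nat_lit 5) (nat_lit 230) .nil)))))))))))))))))

noncomputable def dC1a_t0 : Tr := (.nd (.nd (.nd (.nd (.nd (.nd (.nd .leaf (nat_lit 1024) (nat_lit 0) (.p (nat_lit 3) (nat_lit 1) .z) .df .leaf) (nat_lit 2048) (nat_lit 1) (.p (nat_lit 4) (nat_lit 1) .z) .df (.nd .leaf (nat_lit 2049) (nat_lit 2) (.p (nat_lit 5) (nat_lit 1) .z) .df .leaf)) (nat_lit 2050) (nat_lit 3) (.p (nat_lit 6) (nat_lit 1) .z) .df (.nd (.nd .leaf (nat_lit 3072) (nat_lit 4) (.p (nat_lit 7) (nat_lit 1) .z) .df .leaf) (nat_lit 3073) (nat_lit 5) (.p (nat_lit 8)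 (nat_lit 1) .z) .df .leaf)) (nat_lit 3074) (nat_lit 7) (.p (nat_lit 10) (nat_lit 1) .z) .df (.nd (.nd (.nd .leaf (nat_lit 4096) (nat_lit 6) (.p (nat_lit 9) (nat_lit 1) .z) .df .leaf) (nat_lit 4097) (nat_lit 8) (.p (nat_lit 11) (nat_lit 1) .z) .df .leaf) (nat_lit 4098) (nat_lit 11) (.p (nat_lit 14) (nat_lit 1) .z) .df (.nd (.nd .leaf (nat_lit 4099) (nat_lit 23) (.n (nat_lit 21) (nat_lit 1) (.p (nat_lit 22) (nat_lit 1) (.p (nat_lit 23) (nat_lit 1) .z))) (.ct dC1a_c529 (nat_lit 1) (nat_lit 0) (.s true (nat_lit 1) (nat_lit 2) (nat_lit 0) (nat_lit 0) (nat_lit 1) true (nat_lit 0) true (nat_lit 2) true (nat_lit 1) true (nat_lit 3) true (nat_lit 3) (.e true (nat_lit 1) (nat_lit 9) (nat_lit 1) (nat_lit 2) (.e false (nat_lit 1) (nat_lit 10) (nat_lit 0) (nat_lit 3) (.e false (nat_lit 1) (nat_lit 12) (nat_lit 0) (nat_lit 3) .nil))))) .leaf) (nat_lit 4100) (nat_lit 33) (.n (nat_lit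 28) (nat_lit 1) (.n (nat_lit 29) (nat_lit 1) (.p (nat_lit 30) (nat_lit 1) .z))) (.ct dC1a_c514 (nat_lit 1) (nat_lit 0) (.s true (nat_lit 1) (nat_lit 2) (nat_lit 0) (nat_lit 0) (nat_lit 2) true (nat_lit 0) true (nat_lit 1) true (nat_lit 1) true (nat_lit 2) true (nat_lit 2) (.e true (nat_lit 1) (nat_lit 9) (nat_lit 2) (nat_lit 1) (.e true (nat_lit 1) (nat_lit 14) (nat_lit 0) (nat_lit 2) (.e false (nat_lit 1) (nat_lit 15) (nat_lit 0) (nat_lit 2) .nil))))) .leaf))) (nat_lit 5120) (nat_lit 9) (.p (nat_lit 12) (nat_lit 1) .z) .df (.nd (.nd (.nd (.nd .leaf (nat_lit 5121) (nat_lit 10) (.p (nat_lit 13) (nat_lit 1) .z) .df .leaf) (nat_lit 5122) (nat_lit 13) (.p (nat_lit 16) (nat_lit 1) .z) .df .leaf) (nat_lit 5123) (nat_lit 29) (.p (nat_lit 24) (nat_lit 1) (.n (nat_lit 26) (nat_lit 1) (.p (nat_lit 27) (nat_lit 1) .z))) (.ct dC1a_c289 (nat_lit 1) (nat_lit 0) (.s true (nat_lit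 1) (nat_lit 2) (nat_lit 0) (nat_lit 1) (nat_lit 1) true (nat_lit 0) true (nat_lit 2) true (nat_lit 1) true (nat_lit 3) true (nat_lit 2) (.e true (nat_lit 1) (nat_lit 11) (nat_lit 1) (nat_lit 2) (.e false (nat_lit 1) (nat_lit 8) (nat_lit 2) (nat_lit 1) (.e false (nat_lit 1) (nat_lit 12) (nat_lit 1) (nat_lit 2) .nil))))) (.nd (.nd .leaf (nat_lit 5124) (nat_lit 41) (.n (nat_lit 31) (nat_lit 1) (.n (nat_lit 32) (nat_lit 1) (.p (nat_lit 35) (nat_lit 1) (.n (nat_lit 36) (nat_lit 1) .z)))) (.ct dC1a_c274 (nat_lit 1) (nat_lit 0) (.s true (nat_lit 1) (nat_lit 2) (nat_lit 0) (nat_lit 1) (nat_lit 2) true (nat_lit 0) true (nat_lit 2) true (nat_lit 2) true (nat_lit 4) true (nat_lit 3) (.e true (nat_lit 1) (nat_lit 11) (nat_lit 2) (nat_lit 2) (.e true (nat_lit 1) (nat_lit 10) (nat_lit 2) (nat_lit 2) (.e true (nat_lit 1) (nat_lit 16) (nat_lit 0) (nat_lit 4) (.e false (nat_lit 1) (nat_lit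 15) (nat_lit 1) (nat_lit 3) .nil)))))) .leaf) (nat_lit 5125) (nat_lit 46) (.n (nat_lit 37) (nat_lit 1) (.n (nat_lit 38) (nat_lit 1) (.p (nat_lit 39) (nat_lit 1) .z))) (.ct dC1a_c34 (nat_lit 1) (nat_lit 0) (.s true (nat_lit 1) (nat_lit 2) (nat_lit 1) (nat_lit 1) (nat_lit 2) true (nat_lit 0) true (nat_lit 1) true (nat_lit 1) true (nat_lit 2) true (nat_lit 2) (.e true (nat_lit 1) (nat_lit 13) (nat_lit 2) (nat_lit 1) (.e true (nat_lit 1) (nat_lit 16) (nat_lit 1) (nat_lit 2) (.e false (nat_lit 1) (nat_lit 17) (nat_lit 1) (nat_lit 2) .nil))))) .leaf)) (nat_lit 6144) (nat_lit 12) (.p (nat_lit 15) (nat_lit 1) .z) .df (.nd (.nd (.nd .leaf (nat_lit 6145) (nat_lit 14) (.p (nat_lit 17) (nat_lit 1) .z) .df .leaf) (nat_lit 6146) (nat_lit 15) (.p (nat_lit 18) (nat_lit 1) .z) .df .leaf) (nat_lit 6147) (nat_lit 40) (.n (nat_lit 32) (nat_lit 1) (.p (nat_lit 33) (nat_lit 1) (.n (nat_lit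 34) (nat_lit 1) (.p (nat_lit 36) (nat_lit 1) .z)))) (.ct dC1a_c274 (nat_lit 1) (nat_lit 1) (.s true (nat_lit 1) (nat_lit 2) (nat_lit 0) (nat_lit 2) (nat_lit 1) true (nat_lit 1) true (nat_lit 3) true (nat_lit 2) true (nat_lit 4) true (nat_lit 2) (.e true (nat_lit 1) (nat_lit 14) (nat_lit 1) (nat_lit 3) (.e true (nat_lit 1) (nat_lit 11) (nat_lit 2) (nat_lit 2) (.e false (nat_lit 1) (nat_lit 16) (nat_lit 0) (nat_lit 4) (.e false (nat_lit 1) (nat_lit 12) (nat_lit 2) (nat_lit 2) .nil)))))) (.nd (.nd .leaf (nat_lit 6148) (nat_lit 50) (.n (nat_lit 41) (nat_lit 1) (.n (nat_lit 42) (nat_lit 1) .z)) (.ct dC1a_c259 (nat_lit 1) (nat_lit 0) (.s true (nat_lit 1) (nat_lit 2) (nat_lit 0) (nat_lit 2) (nat_lit 2) true (nat_lit 0) true (nat_lit 1) true (nat_lit 1) true (nat_lit 2) true (nat_lit 1) (.e true (nat_lit 1) (nat_lit 18) (nat_lit 0) (nat_lit 2) (.e true (nat_lit 1) (nat_lit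 15) (nat_lit 2) (nat_lit 1) .nil)))) .leaf) (nat_lit 6149) (nat_lit 54) (.n (nat_lit 44) (nat_lit 1) (.n (nat_lit 45) (nat_lit 1) .z)) (.ct dC1a_c19 (nat_lit 1) (nat_lit 0) (.s true (nat_lit 1) (nat_lit 2) (nat_lit 1) (nat_lit 2) (nat_lit 2) true (nat_lit 0) true (nat_lit 1) true (nat_lit 1) true (nat_lit 2) true (nat_lit 1) (.e true (nat_lit 1) (nat_lit 18) (nat_lit 1) (nat_lit 2) (.e true (nat_lit 1) (nat_lit 17) (nat_lit 2) (nat_lit 1) .nil)))) .leaf)))) (nat_lit 7169) (nat_lit 16) (.p (nat_lit 19) (nat_lit 1) .z) .df (.nd (.nd (.nd (.nd (.nd .leaf (nat_lit 7170) (nat_lit 18) (.p (nat_lit 20) (nat_lit 1) .z) .df .leaf) (nat_lit 7173) (nat_lit 66) (.p (nat_lit 48) (nat_lit 1) (.n (nat_lit 52) (nat_lit 1) (.p (nat_lit 54) (nat_lit 1) .z))) (.ct dC1a_c545 (nat_lit 1) (nat_lit 0) (.s false (nat_lit 1) (nat_lit 3) (nat_lit 2) (nat_lit 0) (nat_lit 1) true (nat_lit 0) true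 (nat_lit 4) true (nat_lit 2) true (nat_lit 3) true (nat_lit 5) (.e false (nat_lit 1) (nat_lit 22) (nat_lit 1) (nat_lit 4) (.e false (nat_lit 1) (nat_lit 11) (nat_lit 3) (nat_lit 2) (.e true (nat_lit 1) (nat_lit 24) (nat_lit 0) (nat_lit 5) .nil))))) .leaf) (nat_lit 7174) (nat_lit 80) (.p (nat_lit 65) (nat_lit 1) .z) .df (.nd (.nd .leaf (nat_lit 8192) (nat_lit 17) (.p (nat_lit 19) (nat_lit 1) .z) (.ct dC1a_c544 (nat_lit 1) (nat_lit 2) (.s false (nat_lit 1) (nat_lit 1) (nat_lit 0) (nat_lit 0) (nat_lit 1) true (nat_lit 0) true (nat_lit 1) true (nat_lit 1) true (nat_lit 2) true (nat_lit 2) (.a true (nat_lit 3) (nat_lit 3) (nat_lit 3) (nat_lit 0) (nat_lit 0) (.e false (nat_lit 1) (nat_lit 7) (nat_lit 1) (nat_lit 1) (.u (nat_lit 2) (.p (nat_lit 1) (nat_lit 1) .z) .nil))))) .leaf) (nat_lit 8194) (nat_lit 24) (.p (nat_lit 24) (nat_lit 1) .z) .df .leaf)) (nat_lit 8196) (nat_lit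 63) (.p (nat_lit 54) (nat_lit 1) .z) .df (.nd (.nd (.nd .leaf (nat_lit 8198) (nat_lit 98) (.p (nat_lit 74) (nat_lit 1) .z) .df .leaf) (nat_lit 9217) (nat_lit 19) (.p (nat_lit 21) (nat_lit 1) .z) .df .leaf) (nat_lit 9218) (nat_lit 30) (.p (nat_lit 28) (nat_lit 1) .z) .df (.nd (.nd .leaf (nat_lit 9221) (nat_lit 85) (.n (nat_lit 55) (nat_lit 1) (.n (nat_lit 57) (nat_lit 1) (.n (nat_lit 59) (nat_lit 3) (.n (nat_lit 60) (nat_lit 3) (.n (nat_lit 61) (nat_lit 3) (.n (nat_lit 62) (nat_lit 1) (.n (nat_lit 63) (nat_lit 1) (.p (nat_lit 64) (nat_lit 3) (.n (nat_lit 65) (nat_lit 2) .z))))))))) (.ct dC1a_c530 (nat_lit 1) (nat_lit 1) (.s false (nat_lit 1) (nat_lit 4) (nat_lit 2) (nat_lit 0) (nat_lit 1) true (nat_lit 1) true (nat_lit 5) true (nat_lit 2) true (nat_lit 4) true (nat_lit 6) (.e false (nat_lit 1) (nat_lit 29) (nat_lit 1) (nat_lit 5) (.e true (nat_lit 1) (nat_lit 11) (nat_lit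 4) (nat_lit 2) (.e true (nat_lit 1) (nat_lit 21) (nat_lit 2) (nat_lit 4) (.e false (nat_lit 1) (nat_lit 22) (nat_lit 2) (nat_lit 4) (.e false (nat_lit 1) (nat_lit 23) (nat_lit 2) (nat_lit 4) (.e true (nat_lit 1) (nat_lit 32) (nat_lit 0) (nat_lit 6) (.u (nat_lit 2) (.p (nat_lit 5) (nat_lit 1) .z) .nil))))))))) .leaf) (nat_lit 9222) (nat_lit 117) (.p (nat_lit 77) (nat_lit 1) (.p (nat_lit 78) (nat_lit 1) (.n (nat_lit 79) (nat_lit 1) (.p (nat_lit 81) (nat_lit 1) .z)))) (.ct dC1a_c515 (nat_lit 1) (nat_lit 0) (.s false (nat_lit 1) (nat_lit 6) (nat_lit 0) (nat_lit 2) (nat_lit 0) false (nat_lit 4) true (nat_lit 3) true (nat_lit 0) true (nat_lit 3) true (nat_lit 2) (.e false (nat_lit 2) (nat_lit 41) (nat_lit 0) (nat_lit 3) (.e false (nat_lit 1) (nat_lit 42) (nat_lit 0) (nat_lit 3) (.e true (nat_lit 1) (nat_lit 30) (nat_lit 2) (nat_lit 2) .nil))))) .leaf))) (nat_lit 10240) (nat_lit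 20) (.p (nat_lit 22) (nat_lit 1) .z) .df (.nd (.nd (.nd (.nd .leaf (nat_lit 10241) (nat_lit 25) (.p (nat_lit 25) (nat_lit 1) .z) .df .leaf) (nat_lit 10242) (nat_lit 34) (.p (nat_lit 31) (nat_lit 1) .z) .df .leaf) (nat_lit 10243) (nat_lit 68) (.n (nat_lit 47) (nat_lit 1) (.n (nat_lit 48) (nat_lit 1) (.n (nat_lit 49) (nat_lit 1) (.p (nat_lit 50) (nat_lit 1) (.p (nat_lit 51) (nat_lit 1) (.p (nat_lit 52) (nat_lit 1) (.p (nat_lit 53) (nat_lit 1) (.n (nat_lit 54) (nat_lit 1) .z)))))))) (.ct dC1a_c545 (nat_lit 1) (nat_lit 2) (.s true (nat_lit 1) (nat_lit 3) (nat_lit 1) (nat_lit 0) (nat_lit 2) true (nat_lit 0) true (nat_lit 3) true (nat_lit 2) true (nat_lit 4) true (nat_lit 5) (.e true (nat_lit 1) (nat_lit 7) (nat_lit 5) (nat_lit 0) (.e true (nat_lit 1) (nat_lit 19) (nat_lit 2) (nat_lit 3) (.e true (nat_lit 1) (nat_lit 21) (nat_lit 1) (nat_lit 4) (.e false (nat_lit 1) (nat_lit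 22) (nat_lit 1) (nat_lit 4) (.e false (nat_lit 1) (nat_lit 23) (nat_lit 1) (nat_lit 4) (.e false (nat_lit 1) (nat_lit 25) (nat_lit 0) (nat_lit 5) .nil)))))))) (.nd (.nd .leaf (nat_lit 10244) (nat_lit 89) (.n (nat_lit 55) (nat_lit 1) (.p (nat_lit 56) (nat_lit 1) (.n (nat_lit 57) (nat_lit 3) (.n (nat_lit 58) (nat_lit 1) (.p (nat_lit 61) (nat_lit 1) (.n (nat_lit 62) (nat_lit 1) (.n (nat_lit 64) (nat_lit 1) (.p (nat_lit 65) (nat_lit 2) .z)))))))) (.ct dC1a_c530 (nat_lit 1) (nat_lit 2) (.s true (nat_lit 1) (nat_lit 3) (nat_lit 2) (nat_lit 2) (nat_lit 0) true (nat_lit 2) true (nat_lit 6) true (nat_lit 3) true (nat_lit 4) true (nat_lit 4) (.e true (nat_lit 1) (nat_lit 31) (nat_lit 0) (nat_lit 6) (.e true (nat_lit 1) (nat_lit 15) (nat_lit 3) (nat_lit 3) (.e true (nat_lit 1) (nat_lit 21) (nat_lit 2) (nat_lit 4) (.e false (nat_lit 1) (nat_lit 22) (nat_lit 2) (nat_lit 4) (.e false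 (nat_lit 1) (nat_lit 23) (nat_lit 2) (nat_lit 4) (.e false (nat_lit 1) (nat_lit 20) (nat_lit 2) (nat_lit 4) (.u (nat_lit 2) (.p (nat_lit 2) (nat_lit 1) .z) .nil))))))))) .leaf) (nat_lit 10245) (nat_lit 99) (.p (nat_lit 75) (nat_lit 1) .z) .df .leaf)) (nat_lit 10246) (nat_lit 127) (.p (nat_lit 90) (nat_lit 1) .z) .df (.nd (.nd (.nd .leaf (nat_lit 10250) (nat_lit 207) (.n (nat_lit 107) (nat_lit 1) (.p (nat_lit 109) (nat_lit 1) (.n (nat_lit 110) (nat_lit 2) (.n (nat_lit 111) (nat_lit 1) (.n (nat_lit 112) (nat_lit 3) (.p (nat_lit 114) (nat_lit 3) (.n (nat_lit 115) (nat_lit 1) (.p (nat_lit 116) (nat_lit 2) (.p (nat_lit 117) (nat_lit 3) (.n (nat_lit 118) (nat_lit 2) (.p (nat_lit 119) (nat_lit 3) (.n (nat_lit 120) (nat_lit 3) (.n (nat_lit 121) (nat_lit 3) (.n (nat_lit 122) (nat_lit 1) (.p (nat_lit 123) (nat_lit 3) (.n (nat_lit 124) (nat_lit 1) (.n (nat_lit 125) (nat_lit 2)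 (.p (nat_lit 126) (nat_lit 1) (.n (nat_lit 127) (nat_lit 1) (.n (nat_lit 128) (nat_lit 1) (.p (nat_lit 129) (nat_lit 2) (.p (nat_lit 130) (nat_lit 1) (.n (nat_lit 131) (nat_lit 1) .z))))))))))))))))))))))) (.ct dC1a_c546 (nat_lit 1) (nat_lit 0) (.s true (nat_lit 1) (nat_lit 10) (nat_lit 0) (nat_lit 1) (nat_lit 2) true (nat_lit 6) true (nat_lit 8) true (nat_lit 0) true (nat_lit 10) true (nat_lit 9) (.e true (nat_lit 1) (nat_lit 25) (nat_lit 4) (nat_lit 6) (.e true (nat_lit 1) (nat_lit 50) (nat_lit 2) (nat_lit 8) (.e true (nat_lit 1) (nat_lit 75) (nat_lit 0) (nat_lit 10) (.e false (nat_lit 1) (nat_lit 62) (nat_lit 1) (nat_lit 9) .nil)))))) .leaf) (nat_lit 11264) (nat_lit 22) (.p (nat_lit 20) (nat_lit 1) (.p (nat_lit 21) (nat_lit 1) (.n (nat_lit 22) (nat_lit 1) .z))) (.ct dC1a_c529 (nat_lit 1) (nat_lit 3) (.s true (nat_lit 1) (nat_lit 2) (nat_lit 0) (nat_lit 1) (nat_lit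 0) false (nat_lit 4) true (nat_lit 3) true (nat_lit 1) true (nat_lit 3) true (nat_lit 2) (.e false (nat_lit 1) (nat_lit 7) (nat_lit 2) (nat_lit 1) (.e true (nat_lit 1) (nat_lit 10) (nat_lit 0) (nat_lit 3) (.e false (nat_lit 1) (nat_lit 9) (nat_lit 1) (nat_lit 2) .nil))))) .leaf) (nat_lit 11265) (nat_lit 26) (.p (nat_lit 26) (nat_lit 1) .z) .df (.nd (.nd .leaf (nat_lit 11266) (nat_lit 35) (.p (nat_lit 32) (nat_lit 1) .z) .df .leaf) (nat_lit 11267) (nat_lit 64) (.p (nat_lit 48) (nat_lit 1) (.n (nat_lit 50) (nat_lit 1) (.p (nat_lit 54) (nat_lit 1) .z))) (.ct dC1a_c545 (nat_lit 1) (nat_lit 2) (.s true (nat_lit 1) (nat_lit 4) (nat_lit 0) (nat_lit 1) (nat_lit 1) true (nat_lit 2) true (nat_lit 4) true (nat_lit 1) true (nat_lit 5) true (nat_lit 4) (.e false (nat_lit 1) (nat_lit 8) (nat_lit 4) (nat_lit 1) (.e false (nat_lit 1) (nat_lit 20) (nat_lit 1) (nat_lit 4) (.e true (nat_lit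 1) (nat_lit 22) (nat_lit 1) (nat_lit 4) .nil))))) .leaf))))) (nat_lit 11268) (nat_lit 84) (.p (nat_lit 55) (nat_lit 1) (.n (nat_lit 56) (nat_lit 1) (.p (nat_lit 57) (nat_lit 2) (.p (nat_lit 58) (nat_lit 1) (.p (nat_lit 59) (nat_lit 3) (.n (nat_lit 60) (nat_lit 3) (.p (nat_lit 61) (nat_lit 3) (.p (nat_lit 62) (nat_lit 1) (.n (nat_lit 64) (nat_lit 3) (.p (nat_lit 65) (nat_lit 2) .z)))))))))) (.ct dC1a_c530 (nat_lit 1) (nat_lit 2) (.s true (nat_lit 1) (nat_lit 4) (nat_lit 0) (nat_lit 2) (nat_lit 1) true (nat_lit 3) true (nat_lit 5) true (nat_lit 2) true (nat_lit 6) true (nat_lit 4) (.e true (nat_lit 1) (nat_lit 14) (nat_lit 3) (nat_lit 3) (.e true (nat_lit 1) (nat_lit 28) (nat_lit 1) (nat_lit 5) (.e true (nat_lit 1) (nat_lit 31) (nat_lit 0) (nat_lit 6) (.e true (nat_lit 1) (nat_lit 32) (nat_lit 0) (nat_lit 6) (.e false (nat_lit 1) (nat_lit 35) (nat_lit 0) (nat_lit 6) (.e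 true (nat_lit 1) (nat_lit 36) (nat_lit 0) (nat_lit 6) (.e false (nat_lit 1) (nat_lit 20) (nat_lit 2) (nat_lit 4) (.e false (nat_lit 1) (nat_lit 21) (nat_lit 2) (nat_lit 4) (.e true (nat_lit 1) (nat_lit 22) (nat_lit 2) (nat_lit 4) (.u (nat_lit 2) (.n (nat_lit 4) (nat_lit 1) (.p (nat_lit 9) (nat_lit 1) .z)) .nil)))))))))))) (.nd (.nd (.nd (.nd (.nd (.nd .leaf (nat_lit 11269) (nat_lit 100) (.p (nat_lit 76) (nat_lit 1) .z) .df .leaf) (nat_lit 11270) (nat_lit 128) (.p (nat_lit 91) (nat_lit 1) .z) .df (.nd .leaf (nat_lit 11274) (nat_lit 201) (.n (nat_lit 108) (nat_lit 1) (.p (nat_lit 110) (nat_lit 1) (.n (nat_lit 115) (nat_lit 1) (.n (nat_lit 117) (nat_lit 1) (.p (nat_lit 119) (nat_lit 3) (.n (nat_lit 120) (nat_lit 3) (.n (nat_lit 121) (nat_lit 3) (.n (nat_lit 122) (nat_lit 1) (.p (nat_lit 123) (nat_lit 3) (.n (nat_lit 124) (nat_lit 2) (.n (nat_lit 128) (nat_lit 1) (.p (nat_lit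 130) (nat_lit 1) (.n (nat_lit 131) (nat_lit 1) .z))))))))))))) (.ct dC1a_c546 (nat_lit 1) (nat_lit 0) (.s true (nat_lit 1) (nat_lit 11) (nat_lit 0) (nat_lit 1) (nat_lit 2) true (nat_lit 6) true (nat_lit 8) true (nat_lit 0) true (nat_lit 10) true (nat_lit 9) (.a true (nat_lit 1) (nat_lit 10) (nat_lit 11) (nat_lit 0) (nat_lit 0) (.e true (nat_lit 1) (nat_lit 26) (nat_lit 4) (nat_lit 6) (.e true (nat_lit 1) (nat_lit 48) (nat_lit 2) (nat_lit 8) (.e true (nat_lit 1) (nat_lit 49) (nat_lit 2) (nat_lit 8) (.e false (nat_lit 1) (nat_lit 50) (nat_lit 2) (nat_lit 8) (.e true (nat_lit 1) (nat_lit 76) (nat_lit 0) (nat_lit 10) (.e false (nat_lit 1) (nat_lit 63) (nat_lit 1) (nat_lit 9) .nil))))))))) .leaf)) (nat_lit 11275) (nat_lit 200) (.n (nat_lit 115) (nat_lit 1) (.p (nat_lit 116) (nat_lit 1) (.n (nat_lit 117) (nat_lit 2) (.n (nat_lit 118) (nat_lit 1) (.p (nat_lit 119) (nat_lit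 3) (.p (nat_lit 120) (nat_lit 2) (.n (nat_lit 121) (nat_lit 2) (.n (nat_lit 122) (nat_lit 1) (.p (nat_lit 123) (nat_lit 3) (.n (nat_lit 124) (nat_lit 2) (.n (nat_lit 131) (nat_lit 1) .z))))))))))) (.ct dC1a_c546 (nat_lit 1) (nat_lit 0) (.s true (nat_lit 1) (nat_lit 4) (nat_lit 1) (nat_lit 1) (nat_lit 4) true (nat_lit 0) true (nat_lit 6) true (nat_lit 6) true (nat_lit 9) true (nat_lit 9) (.e true (nat_lit 1) (nat_lit 26) (nat_lit 4) (nat_lit 6) (.e true (nat_lit 1) (nat_lit 55) (nat_lit 1) (nat_lit 9) (.e false (nat_lit 1) (nat_lit 56) (nat_lit 1) (nat_lit 9) (.e true (nat_lit 2) (nat_lit 57) (nat_lit 1) (nat_lit 9) (.e true (nat_lit 1) (nat_lit 58) (nat_lit 1) (nat_lit 9) (.e false (nat_lit 3) (nat_lit 59) (nat_lit 1) (nat_lit 9) (.e false (nat_lit 2) (nat_lit 60) (nat_lit 1) (nat_lit 9) (.e true (nat_lit 2) (nat_lit 61) (nat_lit 1) (nat_lit 9) (.e true (nat_lit 1)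 (nat_lit 62) (nat_lit 1) (nat_lit 9) (.e false (nat_lit 3) (nat_lit 64) (nat_lit 1) (nat_lit 9) (.e true (nat_lit 2) (nat_lit 65) (nat_lit 1) (nat_lit 9) (.u (nat_lit 2) (.n (nat_lit 66) (nat_lit 1) .z) .nil)))))))))))))) (.nd (.nd .leaf (nat_lit 12288) (nat_lit 21) (.p (nat_lit 23) (nat_lit 1) .z) .df .leaf) (nat_lit 12289) (nat_lit 27) (.p (nat_lit 27) (nat_lit 1) .z) .df .leaf)) (nat_lit 12290) (nat_lit 36) (.p (nat_lit 33) (nat_lit 1) .z) .df (.nd (.nd (.nd .leaf (nat_lit 12291) (nat_lit 67) (.p (nat_lit 48) (nat_lit 1) (.n (nat_lit 53) (nat_lit 1) (.p (nat_lit 54) (nat_lit 1) .z))) (.ct dC1a_c545 (nat_lit 1) (nat_lit 2) (.s true (nat_lit 1) (nat_lit 3) (nat_lit 2) (nat_lit 1) (nat_lit 0) true (nat_lit 1) true (nat_lit 5) true (nat_lit 2) true (nat_lit 3) true (nat_lit 4) (.e false (nat_lit 1) (nat_lit 8) (nat_lit 4) (nat_lit 1) (.e true (nat_lit 1) (nat_lit 25)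 (nat_lit 0) (nat_lit 5) (.e false (nat_lit 1) (nat_lit 20) (nat_lit 1) (nat_lit 4) .nil))))) .leaf) (nat_lit 12292) (nat_lit 82) (.p (nat_lit 56) (nat_lit 2) (.n (nat_lit 57) (nat_lit 2) (.n (nat_lit 58) (nat_lit 1) (.n (nat_lit 59) (nat_lit 1) (.n (nat_lit 60) (nat_lit 1) (.p (nat_lit 61) (nat_lit 1) (.n (nat_lit 62) (nat_lit 1) (.n (nat_lit 63) (nat_lit 1) (.p (nat_lit 65) (nat_lit 1) .z))))))))) (.ct dC1a_c530 (nat_lit 1) (nat_lit 2) (.s true (nat_lit 1) (nat_lit 4) (nat_lit 1) (nat_lit 2) (nat_lit 0) true (nat_lit 3) true (nat_lit 6) true (nat_lit 2) true (nat_lit 5) true (nat_lit 4) (.e false (nat_lit 1) (nat_lit 14) (nat_lit 3) (nat_lit 3) (.e true (nat_lit 1) (nat_lit 32) (nat_lit 0) (nat_lit 6) (.e true (nat_lit 1) (nat_lit 28) (nat_lit 1) (nat_lit 5) (.e true (nat_lit 1) (nat_lit 29) (nat_lit 1) (nat_lit 5) (.e false (nat_lit 1) (nat_lit 30) (nat_lit 1) (nat_lit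 5) (.e false (nat_lit 1) (nat_lit 21) (nat_lit 2) (nat_lit 4) .nil)))))))) .leaf) (nat_lit 12293) (nat_lit 106) (.n (nat_lit 66) (nat_lit 1) (.n (nat_lit 67) (nat_lit 1) (.n (nat_lit 70) (nat_lit 1) (.p (nat_lit 72) (nat_lit 1) (.n (nat_lit 73) (nat_lit 1) (.p (nat_lit 74) (nat_lit 1) (.n (nat_lit 76) (nat_lit 1) .z))))))) (.ct dC1a_c290 (nat_lit 1) (nat_lit 1) (.s false (nat_lit 1) (nat_lit 5) (nat_lit 2) (nat_lit 0) (nat_lit 1) true (nat_lit 1) true (nat_lit 5) true (nat_lit 1) true (nat_lit 4) true (nat_lit 6) (.e false (nat_lit 1) (nat_lit 36) (nat_lit 1) (nat_lit 5) (.e true (nat_lit 1) (nat_lit 11) (nat_lit 5) (nat_lit 1) (.e false (nat_lit 1) (nat_lit 24) (nat_lit 2) (nat_lit 4) (.e true (nat_lit 1) (nat_lit 26) (nat_lit 2) (nat_lit 4) (.e false (nat_lit 1) (nat_lit 27) (nat_lit 2) (nat_lit 4) (.e true (nat_lit 1) (nat_lit 37) (nat_lit 0) (nat_lit 6) .nil))))))))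 (.nd (.nd .leaf (nat_lit 12294) (nat_lit 129) (.p (nat_lit 92) (nat_lit 1) .z) .df .leaf) (nat_lit 12299) (nat_lit 214) (.n (nat_lit 107) (nat_lit 2) (.n (nat_lit 108) (nat_lit 3) (.n (nat_lit 109) (nat_lit 2) (.n (nat_lit 111) (nat_lit 3) (.n (nat_lit 112) (nat_lit 3) (.p (nat_lit 114) (nat_lit 3) (.p (nat_lit 115) (nat_lit 2) (.n (nat_lit 117) (nat_lit 3) (.n (nat_lit 118) (nat_lit 2) (.p (nat_lit 120) (nat_lit 2) (.p (nat_lit 121) (nat_lit 2) (.p (nat_lit 122) (nat_lit 1) (.n (nat_lit 123) (nat_lit 3) (.n (nat_lit 124) (nat_lit 1) (.n (nat_lit 125) (nat_lit 1) (.n (nat_lit 126) (nat_lit 3) (.p (nat_lit 128) (nat_lit 1) (.n (nat_lit 129) (nat_lit 1) (.p (nat_lit 130) (nat_lit 1) .z))))))))))))))))))) (.ct dC1a_c546 (nat_lit 1) (nat_lit 0) (.s true (nat_lit 1) (nat_lit 11) (nat_lit 1) (nat_lit 2) (nat_lit 0) true (nat_lit 7) true (nat_lit 10) true (nat_lit 0) true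 (nat_lit 9) true (nat_lit 8) (.e false (nat_lit 1) (nat_lit 32) (nat_lit 3) (nat_lit 7) (.e true (nat_lit 1) (nat_lit 68) (nat_lit 0) (nat_lit 10) (.e false (nat_lit 1) (nat_lit 55) (nat_lit 1) (nat_lit 9) (.e true (nat_lit 1) (nat_lit 56) (nat_lit 1) (nat_lit 9) (.e false (nat_lit 2) (nat_lit 57) (nat_lit 1) (nat_lit 9) (.e false (nat_lit 1) (nat_lit 58) (nat_lit 1) (nat_lit 9) (.e false (nat_lit 3) (nat_lit 59) (nat_lit 1) (nat_lit 9) (.e true (nat_lit 3) (nat_lit 60) (nat_lit 1) (nat_lit 9) (.e false (nat_lit 3) (nat_lit 61) (nat_lit 1) (nat_lit 9) (.e false (nat_lit 1) (nat_lit 62) (nat_lit 1) (nat_lit 9) (.e true (nat_lit 3) (nat_lit 64) (nat_lit 1) (nat_lit 9) (.e false (nat_lit 2) (nat_lit 65) (nat_lit 1) (nat_lit 9) (.e false (nat_lit 1) (nat_lit 48) (nat_lit 2) (nat_lit 8) (.e false (nat_lit 1) (nat_lit 49) (nat_lit 2) (nat_lit 8) (.e true (nat_lit 1) (nat_lit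 50) (nat_lit 2) (nat_lit 8) (.u (nat_lit 2) (.p (nat_lit 1) (nat_lit 1) (.p (nat_lit 4) (nat_lit 1) (.p (nat_lit 10) (nat_lit 1) (.p (nat_lit 11) (nat_lit 1) (.n (nat_lit 13) (nat_lit 1) (.p (nat_lit 17) (nat_lit 1) .z)))))) .nil)))))))))))))))))) .leaf))) (nat_lit 12300) (nat_lit 216) (.n (nat_lit 107) (nat_lit 1) (.p (nat_lit 108) (nat_lit 1) (.p (nat_lit 109) (nat_lit 2) (.n (nat_lit 110) (nat_lit 2) (.p (nat_lit 112) (nat_lit 2) (.n (nat_lit 114) (nat_lit 2) (.n (nat_lit 115) (nat_lit 1) (.n (nat_lit 116) (nat_lit 2) (.p (nat_lit 117) (nat_lit 2) (.p (nat_lit 120) (nat_lit 2) (.n (nat_lit 121) (nat_lit 1) (.n (nat_lit 125) (nat_lit 2) (.p (nat_lit 126) (nat_lit 1) (.n (nat_lit 127) (nat_lit 1) (.p (nat_lit 128) (nat_lit 1) (.p (nat_lit 129) (nat_lit 3) (.p (nat_lit 130) (nat_lit 1) .z))))))))))))))))) (.ct dC1a_c546 (nat_lit 1) (nat_lit 0) (.s false (nat_lit 1)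 (nat_lit 12) (nat_lit 2) (nat_lit 1) (nat_lit 0) true (nat_lit 6) true (nat_lit 10) true (nat_lit 0) true (nat_lit 8) true (nat_lit 9) (.e true (nat_lit 1) (nat_lit 27) (nat_lit 4) (nat_lit 6) (.e true (nat_lit 1) (nat_lit 67) (nat_lit 0) (nat_lit 10) (.e false (nat_lit 1) (nat_lit 71) (nat_lit 0) (nat_lit 10) (.e true (nat_lit 1) (nat_lit 75) (nat_lit 0) (nat_lit 10) (.e true (nat_lit 1) (nat_lit 48) (nat_lit 2) (nat_lit 8) (.e false (nat_lit 1) (nat_lit 53) (nat_lit 2) (nat_lit 8) (.e true (nat_lit 1) (nat_lit 54) (nat_lit 2) (nat_lit 8) (.e true (nat_lit 1) (nat_lit 58) (nat_lit 1) (nat_lit 9) (.u (nat_lit 2) (.n (nat_lit 5) (nat_lit 1) (.p (nat_lit 14) (nat_lit 1) (.n (nat_lit 17) (nat_lit 1) .z))) .nil))))))))))) (.nd (.nd (.nd (.nd .leaf (nat_lit 13312) (nat_lit 28) (.p (nat_lit 24) (nat_lit 1) (.n (nat_lit 25) (nat_lit 1) (.p (nat_lit 27) (nat_lit 1) .z))) (.ct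 dC1a_c289 (nat_lit 1) (nat_lit 3) (.s false (nat_lit 1) (nat_lit 2) (nat_lit 1) (nat_lit 0) (nat_lit 1) false (nat_lit 4) true (nat_lit 2) true (nat_lit 1) true (nat_lit 2) true (nat_lit 3) (.e false (nat_lit 1) (nat_lit 12) (nat_lit 1) (nat_lit 2) (.e false (nat_lit 1) (nat_lit 8) (nat_lit 2) (nat_lit 1) (.e true (nat_lit 1) (nat_lit 10) (nat_lit 1) (nat_lit 2) .nil))))) .leaf) (nat_lit 13314) (nat_lit 43) (.p (nat_lit 37) (nat_lit 1) .z) .df .leaf) (nat_lit 13316) (nat_lit 103) (.n (nat_lit 71) (nat_lit 1) (.p (nat_lit 72) (nat_lit 1) (.n (nat_lit 76) (nat_lit 1) .z))) (.ct dC1a_c290 (nat_lit 1) (nat_lit 2) (.s false (nat_lit 1) (nat_lit 4) (nat_lit 2) (nat_lit 1) (nat_lit 1) true (nat_lit 1) true (nat_lit 5) true (nat_lit 2) true (nat_lit 4) true (nat_lit 5) (.e true (nat_lit 1) (nat_lit 11) (nat_lit 5) (nat_lit 1) (.e false (nat_lit 1) (nat_lit 34) (nat_lit 1) (nat_lit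 5) (.e true (nat_lit 1) (nat_lit 32) (nat_lit 1) (nat_lit 5) .nil))))) (.nd (.nd .leaf (nat_lit 13318) (nat_lit 146) (.p (nat_lit 93) (nat_lit 1) (.p (nat_lit 94) (nat_lit 1) (.n (nat_lit 95) (nat_lit 1) (.p (nat_lit 97) (nat_lit 1) .z)))) (.ct dC1a_c35 (nat_lit 1) (nat_lit 0) (.s false (nat_lit 1) (nat_lit 6) (nat_lit 1) (nat_lit 2) (nat_lit 1) false (nat_lit 4) true (nat_lit 3) true (nat_lit 0) true (nat_lit 3) true (nat_lit 2) (.e false (nat_lit 2) (nat_lit 44) (nat_lit 1) (nat_lit 3) (.e false (nat_lit 1) (nat_lit 45) (nat_lit 1) (nat_lit 3) (.e true (nat_lit 1) (nat_lit 39) (nat_lit 2) (nat_lit 2) .nil))))) .leaf) (nat_lit 13321) (nat_lit 195) (.n (nat_lit 116) (nat_lit 1) (.p (nat_lit 119) (nat_lit 1) (.n (nat_lit 130) (nat_lit 1) .z))) (.ct dC1a_c546 (nat_lit 1) (nat_lit 1) (.s false (nat_lit 1) (nat_lit 9) (nat_lit 2) (nat_lit 1) (nat_lit 1) true (nat_lit 5)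 true (nat_lit 9) true (nat_lit 1) true (nat_lit 8) true (nat_lit 9) (.e true (nat_lit 1) (nat_lit 21) (nat_lit 5) (nat_lit 5) (.e false (nat_lit 1) (nat_lit 59) (nat_lit 1) (nat_lit 9) (.e true (nat_lit 1) (nat_lit 56) (nat_lit 1) (nat_lit 9) .nil))))) .leaf)) (nat_lit 14336) (nat_lit 31) (.p (nat_lit 29) (nat_lit 1) .z) .df (.nd (.nd (.nd .leaf (nat_lit 14337) (nat_lit 37) (.p (nat_lit 34) (nat_lit 1) .z) .df .leaf) (nat_lit 14338) (nat_lit 47) (.p (nat_lit 40) (nat_lit 1) .z) .df .leaf) (nat_lit 14339) (nat_lit 81) (.p (nat_lit 56) (nat_lit 1) (.n (nat_lit 57) (nat_lit 2) (.n (nat_lit 58) (nat_lit 1) (.n (nat_lit 62) (nat_lit 1) (.p (nat_lit 65) (nat_lit 1) .z))))) (.ct dC1a_c530 (nat_lit 1) (nat_lit 3) (.s true (nat_lit 1) (nat_lit 3) (nat_lit 2) (nat_lit 0) (nat_lit 2) true (nat_lit 0) true (nat_lit 4) true (nat_lit 3) true (nat_lit 4) true (nat_lit 6) (.e false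 (nat_lit 1) (nat_lit 7) (nat_lit 6) (nat_lit 0) (.e true (nat_lit 2) (nat_lit 22) (nat_lit 2) (nat_lit 4) (.e false (nat_lit 1) (nat_lit 21) (nat_lit 2) (nat_lit 4) (.e true (nat_lit 1) (nat_lit 23) (nat_lit 2) (nat_lit 4) (.e true (nat_lit 1) (nat_lit 31) (nat_lit 0) (nat_lit 6) .nil))))))) (.nd (.nd .leaf (nat_lit 14340) (nat_lit 118) (.n (nat_lit 78) (nat_lit 1) (.n (nat_lit 80) (nat_lit 1) (.p (nat_lit 81) (nat_lit 1) .z))) (.ct dC1a_c515 (nat_lit 1) (nat_lit 1) (.s true (nat_lit 1) (nat_lit 4) (nat_lit 2) (nat_lit 0) (nat_lit 2) true (nat_lit 0) true (nat_lit 2) true (nat_lit 1) true (nat_lit 2) true (nat_lit 3) (.e false (nat_lit 1) (nat_lit 9) (nat_lit 6) (nat_lit 0) (.e true (nat_lit 2) (nat_lit 29) (nat_lit 2) (nat_lit 2) (.e true (nat_lit 1) (nat_lit 28) (nat_lit 2) (nat_lit 2) (.e false (nat_lit 1) (nat_lit 30) (nat_lit 2) (nat_lit 2) (.e true (nat_lit 1)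 (nat_lit 40) (nat_lit 0) (nat_lit 3) .nil))))))) .leaf) (nat_lit 14341) (nat_lit 133) (.n (nat_lit 82) (nat_lit 1) (.n (nat_lit 83) (nat_lit 1) (.p (nat_lit 86) (nat_lit 1) (.n (nat_lit 87) (nat_lit 2) (.n (nat_lit 89) (nat_lit 1) (.p (nat_lit 92) (nat_lit 1) .z)))))) (.ct dC1a_c275 (nat_lit 1) (nat_lit 1) (.s true (nat_lit 1) (nat_lit 5) (nat_lit 2) (nat_lit 0) (nat_lit 2) true (nat_lit 0) true (nat_lit 4) true (nat_lit 1) true (nat_lit 4) true (nat_lit 6) (.e false (nat_lit 1) (nat_lit 12) (nat_lit 6) (nat_lit 0) (.e true (nat_lit 2) (nat_lit 36) (nat_lit 2) (nat_lit 4) (.e true (nat_lit 1) (nat_lit 31) (nat_lit 2) (nat_lit 4) (.e true (nat_lit 1) (nat_lit 32) (nat_lit 2) (nat_lit 4) (.e false (nat_lit 1) (nat_lit 35) (nat_lit 2) (nat_lit 4) (.e true (nat_lit 1) (nat_lit 43) (nat_lit 0) (nat_lit 6) .nil)))))))) .leaf)))) (nat_lit 14342) (nat_lit 151) (.p (nat_lit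 101) (nat_lit 1) .z) .df (.nd (.nd (.nd (.nd (.nd .leaf (nat_lit 14344) (nat_lit 192) (.n (nat_lit 112) (nat_lit 1) (.p (nat_lit 114) (nat_lit 1) (.n (nat_lit 125) (nat_lit 1) (.p (nat_lit 129) (nat_lit 1) .z)))) (.ct dC1a_c546 (nat_lit 1) (nat_lit 2) (.s true (nat_lit 1) (nat_lit 8) (nat_lit 2) (nat_lit 0) (nat_lit 2) true (nat_lit 4) true (nat_lit 8) true (nat_lit 2) true (nat_lit 8) true (nat_lit 10) (.e false (nat_lit 1) (nat_lit 19) (nat_lit 6) (nat_lit 4) (.e true (nat_lit 1) (nat_lit 52) (nat_lit 2) (nat_lit 8) (.e false (nat_lit 1) (nat_lit 54) (nat_lit 2) (nat_lit 8) (.e true (nat_lit 1) (nat_lit 66) (nat_lit 0) (nat_lit 10) .nil)))))) .leaf) (nat_lit 14346) (nat_lit 244) (.n (nat_lit 132) (nat_lit 1) (.p (nat_lit 133) (nat_lit 1) (.n (nat_lit 134) (nat_lit 3) (.n (nat_lit 135) (nat_lit 1) (.p (nat_lit 138) (nat_lit 1) (.n (nat_lit 139) (nat_lit 2) (.n (nat_lit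 141) (nat_lit 1) (.p (nat_lit 142) (nat_lit 2) (.n (nat_lit 147) (nat_lit 1) (.p (nat_lit 151) (nat_lit 1) .z)))))))))) (.ct dC1a_c531 (nat_lit 1) (nat_lit 0) (.s true (nat_lit 1) (nat_lit 10) (nat_lit 2) (nat_lit 0) (nat_lit 2) true (nat_lit 3) true (nat_lit 7) true (nat_lit 0) true (nat_lit 7) true (nat_lit 9) (.e false (nat_lit 1) (nat_lit 22) (nat_lit 6) (nat_lit 3) (.e true (nat_lit 2) (nat_lit 62) (nat_lit 2) (nat_lit 7) (.e true (nat_lit 1) (nat_lit 55) (nat_lit 2) (nat_lit 7) (.e false (nat_lit 1) (nat_lit 56) (nat_lit 2) (nat_lit 7) (.e true (nat_lit 3) (nat_lit 57) (nat_lit 2) (nat_lit 7) (.e true (nat_lit 1) (nat_lit 58) (nat_lit 2) (nat_lit 7) (.e false (nat_lit 1) (nat_lit 61) (nat_lit 2) (nat_lit 7) (.e true (nat_lit 1) (nat_lit 64) (nat_lit 2) (nat_lit 7) (.e false (nat_lit 2) (nat_lit 65) (nat_lit 2) (nat_lit 7) (.e true (nat_lit 1) (nat_lit 82) (nat_lit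 0) (nat_lit 9) .nil)))))))))))) .leaf) (nat_lit 14347) (nat_lit 245) (.p (nat_lit 132) (nat_lit 1) (.n (nat_lit 133) (nat_lit 1) (.p (nat_lit 134) (nat_lit 2) (.p (nat_lit 135) (nat_lit 1) (.p (nat_lit 136) (nat_lit 3) (.n (nat_lit 137) (nat_lit 3) (.p (nat_lit 138) (nat_lit 3) (.p (nat_lit 139) (nat_lit 1) (.n (nat_lit 140) (nat_lit 1) (.n (nat_lit 141) (nat_lit 3) (.p (nat_lit 142) (nat_lit 2) (.n (nat_lit 148) (nat_lit 1) (.p (nat_lit 149) (nat_lit 1) (.p (nat_lit 150) (nat_lit 1) (.n (nat_lit 151) (nat_lit 1) .z))))))))))))))) (.ct dC1a_c531 (nat_lit 1) (nat_lit 0) (.s true (nat_lit 1) (nat_lit 11) (nat_lit 2) (nat_lit 0) (nat_lit 2) true (nat_lit 3) true (nat_lit 7) true (nat_lit 0) true (nat_lit 7) true (nat_lit 9) (.e false (nat_lit 1) (nat_lit 20) (nat_lit 6) (nat_lit 3) (.e false (nat_lit 1) (nat_lit 21) (nat_lit 6) (nat_lit 3) (.e true (nat_lit 1) (nat_lit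 22) (nat_lit 6) (nat_lit 3) (.e true (nat_lit 1) (nat_lit 63) (nat_lit 2) (nat_lit 7) (.e false (nat_lit 1) (nat_lit 55) (nat_lit 2) (nat_lit 7) (.e true (nat_lit 1) (nat_lit 56) (nat_lit 2) (nat_lit 7) (.e false (nat_lit 2) (nat_lit 57) (nat_lit 2) (nat_lit 7) (.e false (nat_lit 1) (nat_lit 58) (nat_lit 2) (nat_lit 7) (.e false (nat_lit 3) (nat_lit 59) (nat_lit 2) (nat_lit 7) (.e true (nat_lit 3) (nat_lit 60) (nat_lit 2) (nat_lit 7) (.e false (nat_lit 3) (nat_lit 61) (nat_lit 2) (nat_lit 7) (.e false (nat_lit 1) (nat_lit 62) (nat_lit 2) (nat_lit 7) (.e true (nat_lit 3) (nat_lit 64) (nat_lit 2) (nat_lit 7) (.e false (nat_lit 2) (nat_lit 65) (nat_lit 2) (nat_lit 7) (.e true (nat_lit 1) (nat_lit 83) (nat_lit 0) (nat_lit 9) .nil))))))))))))))))) (.nd (.nd .leaf (nat_lit 14348) (nat_lit 263) (.p (nat_lit 132) (nat_lit 3) (.p (nat_lit 133) (nat_lit 3) (.p (nat_lit 134) (nat_lit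 2) (.n (nat_lit 135) (nat_lit 1) (.n (nat_lit 136) (nat_lit 3) (.p (nat_lit 138) (nat_lit 3) (.p (nat_lit 140) (nat_lit 2) (.p (nat_lit 142) (nat_lit 3) (.p (nat_lit 143) (nat_lit 1) (.p (nat_lit 144) (nat_lit 2) (.p (nat_lit 145) (nat_lit 1) (.n (nat_lit 146) (nat_lit 1) (.p (nat_lit 147) (nat_lit 1) (.n (nat_lit 148) (nat_lit 1) (.n (nat_lit 149) (nat_lit 1) (.p (nat_lit 150) (nat_lit 2) (.n (nat_lit 151) (nat_lit 2) (.p (nat_lit 152) (nat_lit 3) .z)))))))))))))))))) (.ct dC1a_c531 (nat_lit 1) (nat_lit 0) (.s true (nat_lit 1) (nat_lit 14) (nat_lit 1) (nat_lit 2) (nat_lit 0) true (nat_lit 6) true (nat_lit 9) false (nat_lit 0) true (nat_lit 8) true (nat_lit 7) (.e false (nat_lit 1) (nat_lit 40) (nat_lit 3) (nat_lit 6) (.e true (nat_lit 1) (nat_lit 85) (nat_lit 0) (nat_lit 9) (.e true (nat_lit 1) (nat_lit 78) (nat_lit 1) (nat_lit 8) (.e true (nat_lit 1) (nat_lit 80)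 (nat_lit 1) (nat_lit 8) (.e false (nat_lit 1) (nat_lit 81) (nat_lit 1) (nat_lit 8) (.e false (nat_lit 1) (nat_lit 60) (nat_lit 2) (nat_lit 7) (.u (nat_lit 2) (.p (nat_lit 5) (nat_lit 1) (.n (nat_lit 8) (nat_lit 1) (.n (nat_lit 12) (nat_lit 1) (.n (nat_lit 20) (nat_lit 1) .z)))) .nil))))))))) .leaf) (nat_lit 14349) (nat_lit 302) (.p (nat_lit 153) (nat_lit 2) (.p (nat_lit 154) (nat_lit 2) (.n (nat_lit 155) (nat_lit 1) (.p (nat_lit 156) (nat_lit 1) (.p (nat_lit 157) (nat_lit 1) (.n (nat_lit 158) (nat_lit 1) (.p (nat_lit 159) (nat_lit 1) (.n (nat_lit 160) (nat_lit 1) (.p (nat_lit 162) (nat_lit 1) (.n (nat_lit 163) (nat_lit 1) (.n (nat_lit 167) (nat_lit 1) (.n (nat_lit 169) (nat_lit 1) (.n (nat_lit 170) (nat_lit 1) (.n (nat_lit 171) (nat_lit 1) (.p (nat_lit 172) (nat_lit 1) (.p (nat_lit 173) (nat_lit 1) .z)))))))))))))))) (.ct dC1a_c291 (nat_lit 1) (nat_lit 0) (.s true (nat_lit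 1) (nat_lit 13) (nat_lit 2) (nat_lit 0) (nat_lit 2) true (nat_lit 3) true (nat_lit 7) true (nat_lit 0) true (nat_lit 7) true (nat_lit 9) (.e false (nat_lit 1) (nat_lit 24) (nat_lit 6) (nat_lit 3) (.e true (nat_lit 1) (nat_lit 25) (nat_lit 6) (nat_lit 3) (.e false (nat_lit 1) (nat_lit 27) (nat_lit 6) (nat_lit 3) (.e true (nat_lit 1) (nat_lit 73) (nat_lit 2) (nat_lit 7) (.e true (nat_lit 1) (nat_lit 71) (nat_lit 2) (nat_lit 7) (.e false (nat_lit 1) (nat_lit 72) (nat_lit 2) (nat_lit 7) (.e true (nat_lit 1) (nat_lit 76) (nat_lit 2) (nat_lit 7) (.e true (nat_lit 1) (nat_lit 93) (nat_lit 0) (nat_lit 9) .nil)))))))))) .leaf)) (nat_lit 15360) (nat_lit 32) (.p (nat_lit 30) (nat_lit 1) .z) .df (.nd (.nd (.nd .leaf (nat_lit 15361) (nat_lit 38) (.p (nat_lit 35) (nat_lit 1) .z) .df .leaf) (nat_lit 15362) (nat_lit 48) (.p (nat_lit 41) (nat_lit 1) .z) .df .leaf) (nat_lit 15363) (nat_lit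 88) (.p (nat_lit 55) (nat_lit 2) (.n (nat_lit 56) (nat_lit 2) (.n (nat_lit 57) (nat_lit 3) (.p (nat_lit 58) (nat_lit 2) (.n (nat_lit 61) (nat_lit 1) (.p (nat_lit 64) (nat_lit 1) (.n (nat_lit 65) (nat_lit 2) .z))))))) (.ct dC1a_c530 (nat_lit 1) (nat_lit 3) (.s true (nat_lit 1) (nat_lit 6) (nat_lit 0) (nat_lit 0) (nat_lit 1) true (nat_lit 3) true (nat_lit 5) true (nat_lit 0) true (nat_lit 6) true (nat_lit 6) (.e true (nat_lit 1) (nat_lit 30) (nat_lit 1) (nat_lit 5) (.e false (nat_lit 2) (nat_lit 34) (nat_lit 0) (nat_lit 6) (.e true (nat_lit 2) (nat_lit 36) (nat_lit 0) (nat_lit 6) (.e true (nat_lit 2) (nat_lit 31) (nat_lit 0) (nat_lit 6) (.e false (nat_lit 1) (nat_lit 35) (nat_lit 0) (nat_lit 6) (.u (nat_lit 2) (.p (nat_lit 2) (nat_lit 1) (.p (nat_lit 10) (nat_lit 2) .z)) .nil)))))))) (.nd (.nd .leaf (nat_lit 15364) (nat_lit 116) (.p (nat_lit 77) (nat_lit 2) (.p (nat_lit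 78) (nat_lit 2) (.n (nat_lit 79) (nat_lit 1) (.n (nat_lit 81) (nat_lit 1) .z)))) (.ct dC1a_c515 (nat_lit 1) (nat_lit 1) (.s true (nat_lit 1) (nat_lit 6) (nat_lit 0) (nat_lit 0) (nat_lit 2) true (nat_lit 1) true (nat_lit 2) true (nat_lit 0) true (nat_lit 3) true (nat_lit 3) (.e true (nat_lit 1) (nat_lit 30) (nat_lit 2) (nat_lit 2) (.e false (nat_lit 1) (nat_lit 41) (nat_lit 0) (nat_lit 3) (.e false (nat_lit 2) (nat_lit 42) (nat_lit 0) (nat_lit 3) .nil))))) .leaf) (nat_lit 15365) (nat_lit 132) (.p (nat_lit 82) (nat_lit 2) (.p (nat_lit 83) (nat_lit 2) (.p (nat_lit 84) (nat_lit 1) (.p (nat_lit 85) (nat_lit 1) (.n (nat_lit 86) (nat_lit 2) (.p (nat_lit 87) (nat_lit 2) (.p (nat_lit 88) (nat_lit 1) (.n (nat_lit 89) (nat_lit 1) (.n (nat_lit 91) (nat_lit 1) .z))))))))) (.ct dC1a_c275 (nat_lit 1) (nat_lit 1) (.s true (nat_lit 1) (nat_lit 5) (nat_lit 2) (nat_lit 2) (nat_lit 0)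 true (nat_lit 2) true (nat_lit 6) true (nat_lit 1) true (nat_lit 4) true (nat_lit 4) (.e true (nat_lit 1) (nat_lit 16) (nat_lit 4) (nat_lit 2) (.e true (nat_lit 1) (nat_lit 43) (nat_lit 0) (nat_lit 6) (.e false (nat_lit 1) (nat_lit 31) (nat_lit 2) (nat_lit 4) (.e false (nat_lit 1) (nat_lit 32) (nat_lit 2) (nat_lit 4) (.e true (nat_lit 1) (nat_lit 35) (nat_lit 2) (nat_lit 4) (.e false (nat_lit 1) (nat_lit 36) (nat_lit 2) (nat_lit 4) (.e false (nat_lit 1) (nat_lit 33) (nat_lit 2) (nat_lit 4) .nil))))))))) .leaf))) (nat_lit 15366) (nat_lit 153) (.p (nat_lit 99) (nat_lit 2) (.p (nat_lit 100) (nat_lit 2) .z)) (.ct dC1a_c260 (nat_lit 1) (nat_lit 0) (.s true (nat_lit 3) (nat_lit 6) (nat_lit 2) (nat_lit 0) (nat_lit 2) true (nat_lit 0) true (nat_lit 2) true (nat_lit 0) true (nat_lit 2) true (nat_lit 3) (.s false (nat_lit 3) (nat_lit 6) (nat_lit 2) (nat_lit 2) (nat_lit 0) true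 (nat_lit 1) true (nat_lit 3) true (nat_lit 0) true (nat_lit 2) true (nat_lit 2) (.e true (nat_lit 2) (nat_lit 42) (nat_lit 2) (nat_lit 2) (.e true (nat_lit 3) (nat_lit 14) (nat_lit 6) (nat_lit 0) (.e true (nat_lit 2) (nat_lit 41) (nat_lit 2) (nat_lit 2) (.e false (nat_lit 3) (nat_lit 18) (nat_lit 4) (nat_lit 1) (.u (nat_lit 2) (.n (nat_lit 1) (nat_lit 1) (.n (nat_lit 2) (nat_lit 1) (.p (nat_lit 5) (nat_lit 1) (.n (nat_lit 8) (nat_lit 1) (.n (nat_lit 9) (nat_lit 1) .z))))) .nil)))))))) (.nd (.nd (.nd (.nd .leaf (nat_lit 15368) (nat_lit 194) (.p (nat_lit 107) (nat_lit 2) (.p (nat_lit 112) (nat_lit 2) (.n (nat_lit 114) (nat_lit 2) (.n (nat_lit 126) (nat_lit 1) (.n (nat_lit 129) (nat_lit 1) .z))))) (.ct dC1a_c546 (nat_lit 1) (nat_lit 2) (.s true (nat_lit 1) (nat_lit 8) (nat_lit 2) (nat_lit 2) (nat_lit 0) true (nat_lit 6) true (nat_lit 10) true (nat_lit 2) true (nat_lit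 8) true (nat_lit 8) (.e true (nat_lit 1) (nat_lit 24) (nat_lit 4) (nat_lit 6) (.e true (nat_lit 1) (nat_lit 66) (nat_lit 0) (nat_lit 10) (.e true (nat_lit 1) (nat_lit 54) (nat_lit 2) (nat_lit 8) (.e false (nat_lit 1) (nat_lit 47) (nat_lit 2) (nat_lit 8) .nil)))))) .leaf) (nat_lit 15370) (nat_lit 254) (.p (nat_lit 132) (nat_lit 3) (.n (nat_lit 133) (nat_lit 2) (.p (nat_lit 134) (nat_lit 2) (.n (nat_lit 135) (nat_lit 3) (.n (nat_lit 136) (nat_lit 3) (.n (nat_lit 137) (nat_lit 2) (.p (nat_lit 138) (nat_lit 2) (.n (nat_lit 139) (nat_lit 2) (.n (nat_lit 141) (nat_lit 1) (.p (nat_lit 142) (nat_lit 2) (.n (nat_lit 143) (nat_lit 1) (.n (nat_lit 144) (nat_lit 2) (.n (nat_lit 145) (nat_lit 1) (.p (nat_lit 146) (nat_lit 1) (.n (nat_lit 147) (nat_lit 2) (.n (nat_lit 149) (nat_lit 1) (.n (nat_lit 150) (nat_lit 1) (.n (nat_lit 151) (nat_lit 3) (.n (nat_lit 152) (nat_lit 3) .z)))))))))))))))))))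 (.ct dC1a_c531 (nat_lit 1) (nat_lit 0) (.s true (nat_lit 1) (nat_lit 10) (nat_lit 2) (nat_lit 2) (nat_lit 0) true (nat_lit 5) true (nat_lit 9) true (nat_lit 0) true (nat_lit 7) true (nat_lit 7) (.e true (nat_lit 1) (nat_lit 31) (nat_lit 4) (nat_lit 5) (.e true (nat_lit 1) (nat_lit 82) (nat_lit 0) (nat_lit 9) (.e false (nat_lit 1) (nat_lit 55) (nat_lit 2) (nat_lit 7) (.e true (nat_lit 1) (nat_lit 56) (nat_lit 2) (nat_lit 7) (.e true (nat_lit 3) (nat_lit 57) (nat_lit 2) (nat_lit 7) (.e false (nat_lit 1) (nat_lit 58) (nat_lit 2) (nat_lit 7) (.e true (nat_lit 1) (nat_lit 61) (nat_lit 2) (nat_lit 7) (.e false (nat_lit 1) (nat_lit 62) (nat_lit 2) (nat_lit 7) (.e false (nat_lit 1) (nat_lit 64) (nat_lit 2) (nat_lit 7) (.e true (nat_lit 2) (nat_lit 65) (nat_lit 2) (nat_lit 7) (.u (nat_lit 2) (.n (nat_lit 2) (nat_lit 1) (.p (nat_lit 3) (nat_lit 1) (.n (nat_lit 10) (nat_lit 1)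 (.p (nat_lit 48) (nat_lit 1) .z)))) .nil))))))))))))) .leaf) (nat_lit 15371) (nat_lit 258) (.p (nat_lit 132) (nat_lit 3) (.n (nat_lit 133) (nat_lit 1) (.n (nat_lit 134) (nat_lit 1) (.p (nat_lit 135) (nat_lit 3) (.n (nat_lit 136) (nat_lit 3) (.n (nat_lit 137) (nat_lit 1) (.n (nat_lit 138) (nat_lit 2) (.n (nat_lit 139) (nat_lit 3) (.p (nat_lit 140) (nat_lit 2) (.p (nat_lit 141) (nat_lit 2) (.n (nat_lit 142) (nat_lit 1) (.n (nat_lit 144) (nat_lit 2) (.n (nat_lit 145) (nat_lit 1) (.p (nat_lit 146) (nat_lit 1) (.n (nat_lit 148) (nat_lit 2) (.p (nat_lit 149) (nat_lit 3) (.n (nat_lit 150) (nat_lit 1) (.p (nat_lit 152) (nat_lit 3) .z)))))))))))))))))) (.ct dC1a_c531 (nat_lit 1) (nat_lit 0) (.s true (nat_lit 1) (nat_lit 11) (nat_lit 2) (nat_lit 2) (nat_lit 0) true (nat_lit 5) true (nat_lit 9) true (nat_lit 0) true (nat_lit 7) true (nat_lit 7) (.e true (nat_lit 1) (nat_lit 32)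 (nat_lit 4) (nat_lit 5) (.e true (nat_lit 1) (nat_lit 83) (nat_lit 0) (nat_lit 9) (.e false (nat_lit 2) (nat_lit 56) (nat_lit 2) (nat_lit 7) (.e true (nat_lit 3) (nat_lit 57) (nat_lit 2) (nat_lit 7) (.e true (nat_lit 1) (nat_lit 58) (nat_lit 2) (nat_lit 7) (.e true (nat_lit 3) (nat_lit 59) (nat_lit 2) (nat_lit 7) (.e false (nat_lit 3) (nat_lit 60) (nat_lit 2) (nat_lit 7) (.e true (nat_lit 3) (nat_lit 61) (nat_lit 2) (nat_lit 7) (.e true (nat_lit 1) (nat_lit 62) (nat_lit 2) (nat_lit 7) (.e false (nat_lit 3) (nat_lit 64) (nat_lit 2) (nat_lit 7) (.e true (nat_lit 2) (nat_lit 65) (nat_lit 2) (nat_lit 7) (.u (nat_lit 2) (.n (nat_lit 3) (nat_lit 1) (.p (nat_lit 5) (nat_lit 1) .z)) .nil)))))))))))))) (.nd (.nd .leaf (nat_lit 15372) (nat_lit 266) (.p (nat_lit 132) (nat_lit 1) (.p (nat_lit 133) (nat_lit 3) (.n (nat_lit 134) (nat_lit 1) (.p (nat_lit 135) (nat_lit 3) (.p (nat_lit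 136) (nat_lit 3) (.n (nat_lit 137) (nat_lit 1) (.p (nat_lit 138) (nat_lit 3) (.n (nat_lit 139) (nat_lit 3) (.p (nat_lit 140) (nat_lit 3) (.p (nat_lit 141) (nat_lit 2) (.p (nat_lit 142) (nat_lit 1) (.p (nat_lit 143) (nat_lit 2) (.p (nat_lit 144) (nat_lit 2) (.n (nat_lit 145) (nat_lit 1) (.p (nat_lit 147) (nat_lit 2) (.n (nat_lit 148) (nat_lit 2) (.n (nat_lit 149) (nat_lit 2) (.p (nat_lit 151) (nat_lit 3) (.n (nat_lit 152) (nat_lit 2) .z))))))))))))))))))) (.ct dC1a_c531 (nat_lit 1) (nat_lit 0) (.s true (nat_lit 1) (nat_lit 12) (nat_lit 2) (nat_lit 2) (nat_lit 0) true (nat_lit 5) true (nat_lit 9) true (nat_lit 0) true (nat_lit 7) true (nat_lit 7) (.e true (nat_lit 1) (nat_lit 33) (nat_lit 4) (nat_lit 5) (.e true (nat_lit 1) (nat_lit 84) (nat_lit 0) (nat_lit 9) (.e true (nat_lit 2) (nat_lit 56) (nat_lit 2) (nat_lit 7) (.e false (nat_lit 2) (nat_lit 57) (nat_lit 2) (nat_lit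 7) (.e false (nat_lit 2) (nat_lit 58) (nat_lit 2) (nat_lit 7) (.e false (nat_lit 1) (nat_lit 59) (nat_lit 2) (nat_lit 7) (.e false (nat_lit 1) (nat_lit 60) (nat_lit 2) (nat_lit 7) (.e true (nat_lit 1) (nat_lit 61) (nat_lit 2) (nat_lit 7) (.e false (nat_lit 1) (nat_lit 62) (nat_lit 2) (nat_lit 7) (.e false (nat_lit 1) (nat_lit 63) (nat_lit 2) (nat_lit 7) (.e true (nat_lit 1) (nat_lit 65) (nat_lit 2) (nat_lit 7) (.u (nat_lit 2) (.p (nat_lit 2) (nat_lit 1) (.p (nat_lit 5) (nat_lit 1) (.n (nat_lit 6) (nat_lit 1) (.p (nat_lit 7) (nat_lit 1) (.n (nat_lit 10) (nat_lit 1) (.p (nat_lit 17) (nat_lit 1) (.n (nat_lit 19) (nat_lit 1) .z))))))) .nil)))))))))))))) .leaf) (nat_lit 15373) (nat_lit 320) (.n (nat_lit 153) (nat_lit 3) (.p (nat_lit 154) (nat_lit 2) (.p (nat_lit 156) (nat_lit 2) (.p (nat_lit 157) (nat_lit 2) (.p (nat_lit 158) (nat_lit 2) (.n (nat_lit 159) (nat_lit 3) (.p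 (nat_lit 160) (nat_lit 3) (.n (nat_lit 161) (nat_lit 3) (.p (nat_lit 162) (nat_lit 1) (.n (nat_lit 163) (nat_lit 3) (.n (nat_lit 164) (nat_lit 3) (.p (nat_lit 165) (nat_lit 2) (.n (nat_lit 168) (nat_lit 1) (.n (nat_lit 169) (nat_lit 2) (.n (nat_lit 170) (nat_lit 1) (.p (nat_lit 171) (nat_lit 3) (.n (nat_lit 172) (nat_lit 1) (.n (nat_lit 173) (nat_lit 2) .z)))))))))))))))))) (.ct dC1a_c291 (nat_lit 1) (nat_lit 0) (.s true (nat_lit 1) (nat_lit 13) (nat_lit 2) (nat_lit 2) (nat_lit 0) true (nat_lit 5) true (nat_lit 9) true (nat_lit 0) true (nat_lit 7) true (nat_lit 7) (.e true (nat_lit 1) (nat_lit 37) (nat_lit 4) (nat_lit 5) (.e true (nat_lit 1) (nat_lit 93) (nat_lit 0) (nat_lit 9) (.e false (nat_lit 1) (nat_lit 71) (nat_lit 2) (nat_lit 7) (.e true (nat_lit 1) (nat_lit 72) (nat_lit 2) (nat_lit 7) (.e false (nat_lit 1) (nat_lit 76) (nat_lit 2) (nat_lit 7) (.e false (nat_lit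 1) (nat_lit 66) (nat_lit 2) (nat_lit 7) (.e true (nat_lit 1) (nat_lit 67) (nat_lit 2) (nat_lit 7) (.e false (nat_lit 1) (nat_lit 69) (nat_lit 2) (nat_lit 7) (.u (nat_lit 2) (.p (nat_lit 0) (nat_lit 1) (.p (nat_lit 10) (nat_lit 1) .z)) .nil))))))))))) .leaf)) (nat_lit 15374) (nat_lit 333) (.p (nat_lit 174) (nat_lit 1) (.n (nat_lit 176) (nat_lit 3) (.n (nat_lit 177) (nat_lit 2) (.n (nat_lit 178) (nat_lit 1) (.n (nat_lit 179) (nat_lit 3) .z))))) (.ct dC1a_c516 (nat_lit 1) (nat_lit 0) (.s true (nat_lit 1) (nat_lit 14) (nat_lit 2) (nat_lit 2) (nat_lit 0) true (nat_lit 3) true (nat_lit 5) true (nat_lit 0) true (nat_lit 4) true (nat_lit 4) (.e true (nat_lit 1) (nat_lit 40) (nat_lit 4) (nat_lit 3) (.e true (nat_lit 1) (nat_lit 98) (nat_lit 0) (nat_lit 5) (.e false (nat_lit 2) (nat_lit 78) (nat_lit 2) (nat_lit 4) (.e false (nat_lit 1) (nat_lit 80) (nat_lit 2) (nat_lit 4) (.e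 true (nat_lit 1) (nat_lit 81) (nat_lit 2) (nat_lit 4) (.u (nat_lit 2) (.p (nat_lit 3) (nat_lit 1) .z) .nil)))))))) (.nd (.nd (.nd .leaf (nat_lit 16384) (nat_lit 39) (.p (nat_lit 36) (nat_lit 1) .z) .df .leaf) (nat_lit 16385) (nat_lit 44) (.p (nat_lit 38) (nat_lit 1) .z) .df .leaf) (nat_lit 16386) (nat_lit 51) (.p (nat_lit 43) (nat_lit 1) .z) .df (.nd (.nd .leaf (nat_lit 16387) (nat_lit 101) (.n (nat_lit 66) (nat_lit 1) (.n (nat_lit 67) (nat_lit 1) (.p (nat_lit 68) (nat_lit 1) (.n (nat_lit 69) (nat_lit 1) (.n (nat_lit 70) (nat_lit 1) (.p (nat_lit 74) (nat_lit 1) .z)))))) (.ct dC1a_c290 (nat_lit 1) (nat_lit 3) (.s true (nat_lit 1) (nat_lit 3) (nat_lit 2) (nat_lit 1) (nat_lit 2) true (nat_lit 0) true (nat_lit 4) true (nat_lit 3) true (nat_lit 4) true (nat_lit 5) (.e false (nat_lit 1) (nat_lit 8) (nat_lit 6) (nat_lit 0) (.e true (nat_lit 1) (nat_lit 25) (nat_lit 2) (nat_lit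 4) (.e true (nat_lit 1) (nat_lit 24) (nat_lit 2) (nat_lit 4) (.e false (nat_lit 1) (nat_lit 26) (nat_lit 2) (nat_lit 4) (.e true (nat_lit 1) (nat_lit 27) (nat_lit 2) (nat_lit 4) (.e true (nat_lit 1) (nat_lit 31) (nat_lit 1) (nat_lit 5) .nil)))))))) .leaf) (nat_lit 16388) (nat_lit 131) (.n (nat_lit 82) (nat_lit 1) (.n (nat_lit 83) (nat_lit 1) (.n (nat_lit 85) (nat_lit 1) (.p (nat_lit 86) (nat_lit 1) (.n (nat_lit 87) (nat_lit 1) (.n (nat_lit 88) (nat_lit 1) (.p (nat_lit 91) (nat_lit 1) .z))))))) (.ct dC1a_c275 (nat_lit 1) (nat_lit 2) (.s true (nat_lit 1) (nat_lit 4) (nat_lit 2) (nat_lit 1) (nat_lit 2) true (nat_lit 0) true (nat_lit 4) true (nat_lit 2) true (nat_lit 4) true (nat_lit 5) (.e false (nat_lit 1) (nat_lit 11) (nat_lit 6) (nat_lit 0) (.e true (nat_lit 1) (nat_lit 34) (nat_lit 2) (nat_lit 4) (.e true (nat_lit 1) (nat_lit 31) (nat_lit 2) (nat_lit 4) (.e true (nat_lit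 1) (nat_lit 32) (nat_lit 2) (nat_lit 4) (.e false (nat_lit 1) (nat_lit 35) (nat_lit 2) (nat_lit 4) (.e true (nat_lit 1) (nat_lit 36) (nat_lit 2) (nat_lit 4) (.e true (nat_lit 1) (nat_lit 40) (nat_lit 1) (nat_lit 5) .nil))))))))) .leaf))))))

noncomputable def dC1a_t1 : Tr := (.nd (.nd (.nd (.nd (.nd (.nd (.nd .leaf (nat_lit 16390) (nat_lit 158) (.p (nat_lit 105) (nat_lit 1) .z) .df .leaf) (nat_lit 16391) (nat_lit 189) (.n (nat_lit 112) (nat_lit 1) (.p (nat_lit 114) (nat_lit 1) (.n (nat_lit 115) (nat_lit 1) (.p (nat_lit 129) (nat_lit 1) .z)))) (.ct dC1a_c546 (nat_lit 1) (nat_lit 3) (.s true (nat_lit 1) (nat_lit 7) (nat_lit 2) (nat_lit 1) (nat_lit 2) true (nat_lit 4) true (nat_lit 8) true (nat_lit 3) true (nat_lit 8) true (nat_lit 9) (.e false (nat_lit 1) (nat_lit 19) (nat_lit 6) (nat_lit 4) (.e true (nat_lit 1) (nat_lit 52) (nat_lit 2) (nat_lit 8) (.e false (nat_lit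 1) (nat_lit 54) (nat_lit 2) (nat_lit 8) (.e true (nat_lit 1) (nat_lit 55) (nat_lit 1) (nat_lit 9) .nil)))))) (.nd .leaf (nat_lit 16393) (nat_lit 241) (.n (nat_lit 132) (nat_lit 1) (.n (nat_lit 134) (nat_lit 1) (.p (nat_lit 136) (nat_lit 3) (.n (nat_lit 137) (nat_lit 3) (.n (nat_lit 138) (nat_lit 3) (.n (nat_lit 139) (nat_lit 1) (.n (nat_lit 140) (nat_lit 1) (.p (nat_lit 141) (nat_lit 3) (.n (nat_lit 142) (nat_lit 2) (.n (nat_lit 143) (nat_lit 1) (.p (nat_lit 150) (nat_lit 1) .z))))))))))) (.ct dC1a_c531 (nat_lit 1) (nat_lit 1) (.s true (nat_lit 1) (nat_lit 9) (nat_lit 2) (nat_lit 1) (nat_lit 2) true (nat_lit 3) true (nat_lit 7) true (nat_lit 1) true (nat_lit 7) true (nat_lit 8) (.e false (nat_lit 1) (nat_lit 21) (nat_lit 6) (nat_lit 3) (.e false (nat_lit 3) (nat_lit 59) (nat_lit 2) (nat_lit 7) (.e true (nat_lit 1) (nat_lit 55) (nat_lit 2) (nat_lit 7) (.e true (nat_lit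 1) (nat_lit 57) (nat_lit 2) (nat_lit 7) (.e true (nat_lit 3) (nat_lit 60) (nat_lit 2) (nat_lit 7) (.e true (nat_lit 3) (nat_lit 61) (nat_lit 2) (nat_lit 7) (.e true (nat_lit 1) (nat_lit 62) (nat_lit 2) (nat_lit 7) (.e true (nat_lit 1) (nat_lit 63) (nat_lit 2) (nat_lit 7) (.e false (nat_lit 3) (nat_lit 64) (nat_lit 2) (nat_lit 7) (.e true (nat_lit 2) (nat_lit 65) (nat_lit 2) (nat_lit 7) (.e true (nat_lit 1) (nat_lit 77) (nat_lit 1) (nat_lit 8) (.u (nat_lit 2) (.n (nat_lit 50) (nat_lit 1) .z) .nil)))))))))))))) .leaf)) (nat_lit 16394) (nat_lit 293) (.n (nat_lit 157) (nat_lit 1) (.p (nat_lit 162) (nat_lit 1) (.n (nat_lit 164) (nat_lit 1) (.p (nat_lit 171) (nat_lit 1) .z)))) (.ct dC1a_c291 (nat_lit 1) (nat_lit 1) (.s true (nat_lit 1) (nat_lit 10) (nat_lit 2) (nat_lit 1) (nat_lit 2) true (nat_lit 3) true (nat_lit 7) true (nat_lit 1) true (nat_lit 7) true (nat_lit 8) (.e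 false (nat_lit 1) (nat_lit 25) (nat_lit 6) (nat_lit 3) (.e true (nat_lit 1) (nat_lit 70) (nat_lit 2) (nat_lit 7) (.e false (nat_lit 1) (nat_lit 75) (nat_lit 2) (nat_lit 7) (.e true (nat_lit 1) (nat_lit 82) (nat_lit 1) (nat_lit 8) .nil)))))) (.nd (.nd .leaf (nat_lit 16395) (nat_lit 299) (.n (nat_lit 158) (nat_lit 1) (.p (nat_lit 163) (nat_lit 1) (.n (nat_lit 165) (nat_lit 1) (.p (nat_lit 172) (nat_lit 1) .z)))) (.ct dC1a_c291 (nat_lit 1) (nat_lit 1) (.s true (nat_lit 1) (nat_lit 11) (nat_lit 2) (nat_lit 1) (nat_lit 2) true (nat_lit 3) true (nat_lit 7) true (nat_lit 1) true (nat_lit 7) true (nat_lit 8) (.e false (nat_lit 1) (nat_lit 26) (nat_lit 6) (nat_lit 3) (.e true (nat_lit 1) (nat_lit 71) (nat_lit 2) (nat_lit 7) (.e false (nat_lit 1) (nat_lit 76) (nat_lit 2) (nat_lit 7) (.e true (nat_lit 1) (nat_lit 83) (nat_lit 1) (nat_lit 8) .nil)))))) .leaf) (nat_lit 16396) (nat_lit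 307) (.p (nat_lit 154) (nat_lit 1) (.p (nat_lit 155) (nat_lit 1) (.n (nat_lit 156) (nat_lit 1) (.p (nat_lit 157) (nat_lit 2) (.n (nat_lit 158) (nat_lit 1) (.n (nat_lit 159) (nat_lit 3) (.p (nat_lit 160) (nat_lit 3) (.n (nat_lit 161) (nat_lit 2) (.n (nat_lit 162) (nat_lit 2) (.n (nat_lit 164) (nat_lit 1) (.n (nat_lit 165) (nat_lit 1) (.p (nat_lit 167) (nat_lit 1) (.n (nat_lit 170) (nat_lit 3) (.n (nat_lit 171) (nat_lit 3) (.p (nat_lit 172) (nat_lit 1) .z))))))))))))))) (.ct dC1a_c291 (nat_lit 1) (nat_lit 1) (.s true (nat_lit 1) (nat_lit 12) (nat_lit 2) (nat_lit 1) (nat_lit 2) true (nat_lit 3) true (nat_lit 7) true (nat_lit 1) true (nat_lit 7) true (nat_lit 8) (.e false (nat_lit 1) (nat_lit 27) (nat_lit 6) (nat_lit 3) (.e true (nat_lit 1) (nat_lit 71) (nat_lit 2) (nat_lit 7) (.e false (nat_lit 1) (nat_lit 75) (nat_lit 2) (nat_lit 7) (.e true (nat_lit 1) (nat_lit 66) (nat_lit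 2) (nat_lit 7) (.e true (nat_lit 1) (nat_lit 70) (nat_lit 2) (nat_lit 7) (.e false (nat_lit 1) (nat_lit 72) (nat_lit 2) (nat_lit 7) (.e true (nat_lit 1) (nat_lit 73) (nat_lit 2) (nat_lit 7) (.e false (nat_lit 1) (nat_lit 74) (nat_lit 2) (nat_lit 7) (.e true (nat_lit 1) (nat_lit 76) (nat_lit 2) (nat_lit 7) (.e true (nat_lit 1) (nat_lit 84) (nat_lit 1) (nat_lit 8) (.u (nat_lit 2) (.p (nat_lit 6) (nat_lit 1) (.n (nat_lit 7) (nat_lit 1) (.p (nat_lit 9) (nat_lit 1) .z))) .nil))))))))))))) .leaf)) (nat_lit 16398) (nat_lit 365) (.n (nat_lit 180) (nat_lit 2) (.n (nat_lit 181) (nat_lit 1) (.p (nat_lit 182) (nat_lit 1) (.p (nat_lit 183) (nat_lit 3) (.p (nat_lit 184) (nat_lit 2) (.p (nat_lit 186) (nat_lit 1) (.p (nat_lit 187) (nat_lit 1) (.p (nat_lit 188) (nat_lit 1) (.n (nat_lit 189) (nat_lit 2) (.n (nat_lit 190) (nat_lit 1) (.n (nat_lit 191) (nat_lit 1) (.n (nat_lit 193) (nat_lit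 1) .z)))))))))))) (.ct dC1a_c276 (nat_lit 1) (nat_lit 0) (.s false (nat_lit 1) (nat_lit 14) (nat_lit 1) (nat_lit 2) (nat_lit 2) true (nat_lit 3) true (nat_lit 6) true (nat_lit 0) true (nat_lit 7) true (nat_lit 6) (.e false (nat_lit 1) (nat_lit 40) (nat_lit 5) (nat_lit 3) (.e false (nat_lit 1) (nat_lit 85) (nat_lit 2) (nat_lit 6) (.e true (nat_lit 1) (nat_lit 101) (nat_lit 1) (nat_lit 7) (.e false (nat_lit 1) (nat_lit 88) (nat_lit 2) (nat_lit 6) .nil)))))) (.nd (.nd (.nd .leaf (nat_lit 16399) (nat_lit 377) (.n (nat_lit 180) (nat_lit 3) (.n (nat_lit 181) (nat_lit 2) (.p (nat_lit 182) (nat_lit 1) (.p (nat_lit 184) (nat_lit 3) (.n (nat_lit 185) (nat_lit 3) (.n (nat_lit 186) (nat_lit 2) (.n (nat_lit 187) (nat_lit 1) (.p (nat_lit 189) (nat_lit 2) (.p (nat_lit 190) (nat_lit 1) (.n (nat_lit 191) (nat_lit 1) (.n (nat_lit 193) (nat_lit 1) (.n (nat_lit 194) (nat_lit 1) (.n (nat_lit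 195) (nat_lit 1) .z))))))))))))) (.ct dC1a_c276 (nat_lit 1) (nat_lit 0) (.s false (nat_lit 1) (nat_lit 16) (nat_lit 2) (nat_lit 2) (nat_lit 0) true (nat_lit 4) true (nat_lit 8) false (nat_lit 0) true (nat_lit 6) true (nat_lit 6) (.e false (nat_lit 1) (nat_lit 43) (nat_lit 4) (nat_lit 4) (.e false (nat_lit 1) (nat_lit 102) (nat_lit 0) (nat_lit 8) (.e true (nat_lit 1) (nat_lit 82) (nat_lit 2) (nat_lit 6) (.e true (nat_lit 1) (nat_lit 83) (nat_lit 2) (nat_lit 6) (.e true (nat_lit 1) (nat_lit 85) (nat_lit 2) (nat_lit 6) (.e false (nat_lit 1) (nat_lit 86) (nat_lit 2) (nat_lit 6) (.e true (nat_lit 2) (nat_lit 87) (nat_lit 2) (nat_lit 6) (.e true (nat_lit 1) (nat_lit 88) (nat_lit 2) (nat_lit 6) (.e false (nat_lit 1) (nat_lit 91) (nat_lit 2) (nat_lit 6) (.u (nat_lit 2) (.p (nat_lit 0) (nat_lit 1) (.n (nat_lit 4) (nat_lit 1) (.n (nat_lit 9) (nat_lit 1) (.n (nat_lit 10) (nat_lit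 1) .z)))) .nil)))))))))))) .leaf) (nat_lit 17408) (nat_lit 42) (.n (nat_lit 31) (nat_lit 2) (.n (nat_lit 32) (nat_lit 1) (.p (nat_lit 33) (nat_lit 1) (.p (nat_lit 34) (nat_lit 1) (.p (nat_lit 35) (nat_lit 1) (.n (nat_lit 36) (nat_lit 1) .z)))))) (.ct dC1a_c274 (nat_lit 1) (nat_lit 4) (.s false (nat_lit 1) (nat_lit 2) (nat_lit 1) (nat_lit 0) (nat_lit 2) false (nat_lit 0) true (nat_lit 2) true (nat_lit 2) true (nat_lit 3) true (nat_lit 4) (.e false (nat_lit 1) (nat_lit 5) (nat_lit 4) (nat_lit 0) (.e false (nat_lit 1) (nat_lit 12) (nat_lit 2) (nat_lit 2) (.e true (nat_lit 1) (nat_lit 10) (nat_lit 2) (nat_lit 2) (.e false (nat_lit 1) (nat_lit 14) (nat_lit 1) (nat_lit 3) .nil)))))) .leaf) (nat_lit 17409) (nat_lit 45) (.p (nat_lit 39) (nat_lit 1) .z) .df (.nd (.nd .leaf (nat_lit 17410) (nat_lit 52) (.p (nat_lit 44) (nat_lit 1) .z) .df .leaf) (nat_lit 17411) (nat_lit 102)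 (.p (nat_lit 66) (nat_lit 2) (.n (nat_lit 68) (nat_lit 1) (.p (nat_lit 69) (nat_lit 1) (.n (nat_lit 70) (nat_lit 1) (.n (nat_lit 75) (nat_lit 1) .z))))) (.ct dC1a_c290 (nat_lit 1) (nat_lit 3) (.s true (nat_lit 1) (nat_lit 3) (nat_lit 2) (nat_lit 2) (nat_lit 1) true (nat_lit 1) true (nat_lit 5) true (nat_lit 3) true (nat_lit 4) true (nat_lit 4) (.e true (nat_lit 1) (nat_lit 10) (nat_lit 5) (nat_lit 1) (.e true (nat_lit 1) (nat_lit 31) (nat_lit 1) (nat_lit 5) (.e false (nat_lit 2) (nat_lit 24) (nat_lit 2) (nat_lit 4) (.e true (nat_lit 1) (nat_lit 26) (nat_lit 2) (nat_lit 4) (.e false (nat_lit 1) (nat_lit 27) (nat_lit 2) (nat_lit 4) .nil))))))) .leaf))) (nat_lit 17412) (nat_lit 134) (.p (nat_lit 82) (nat_lit 2) (.p (nat_lit 83) (nat_lit 3) (.n (nat_lit 86) (nat_lit 2) (.p (nat_lit 87) (nat_lit 3) (.n (nat_lit 88) (nat_lit 1) (.p (nat_lit 89) (nat_lit 1) (.n (nat_lit 92)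 (nat_lit 1) .z))))))) (.ct dC1a_c275 (nat_lit 1) (nat_lit 2) (.s true (nat_lit 1) (nat_lit 4) (nat_lit 2) (nat_lit 2) (nat_lit 1) true (nat_lit 1) true (nat_lit 5) true (nat_lit 2) true (nat_lit 4) true (nat_lit 4) (.e true (nat_lit 1) (nat_lit 14) (nat_lit 5) (nat_lit 1) (.e true (nat_lit 1) (nat_lit 40) (nat_lit 1) (nat_lit 5) (.e false (nat_lit 1) (nat_lit 31) (nat_lit 2) (nat_lit 4) (.e false (nat_lit 2) (nat_lit 32) (nat_lit 2) (nat_lit 4) (.e true (nat_lit 1) (nat_lit 35) (nat_lit 2) (nat_lit 4) (.e false (nat_lit 1) (nat_lit 36) (nat_lit 2) (nat_lit 4) .nil)))))))) (.nd (.nd (.nd (.nd .leaf (nat_lit 17413) (nat_lit 145) (.p (nat_lit 93) (nat_lit 2) (.p (nat_lit 94) (nat_lit 2) (.n (nat_lit 95) (nat_lit 1) (.n (nat_lit 97) (nat_lit 1) .z)))) (.ct dC1a_c35 (nat_lit 1) (nat_lit 1) (.s true (nat_lit 1) (nat_lit 6) (nat_lit 1) (nat_lit 1) (nat_lit 2) true (nat_lit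 1) true (nat_lit 2) true (nat_lit 0) true (nat_lit 3) true (nat_lit 3) (.e true (nat_lit 1) (nat_lit 39) (nat_lit 2) (nat_lit 2) (.e false (nat_lit 1) (nat_lit 44) (nat_lit 1) (nat_lit 3) (.e false (nat_lit 2) (nat_lit 45) (nat_lit 1) (nat_lit 3) .nil))))) .leaf) (nat_lit 17414) (nat_lit 160) (.p (nat_lit 103) (nat_lit 2) (.p (nat_lit 104) (nat_lit 2) .z)) (.ct dC1a_c20 (nat_lit 1) (nat_lit 0) (.s true (nat_lit 3) (nat_lit 6) (nat_lit 2) (nat_lit 1) (nat_lit 2) true (nat_lit 0) true (nat_lit 2) true (nat_lit 0) true (nat_lit 2) true (nat_lit 3) (.s false (nat_lit 3) (nat_lit 6) (nat_lit 2) (nat_lit 2) (nat_lit 1) true (nat_lit 1) true (nat_lit 3) true (nat_lit 0) true (nat_lit 2) true (nat_lit 2) (.e true (nat_lit 2) (nat_lit 45) (nat_lit 2) (nat_lit 2) (.e true (nat_lit 3) (nat_lit 16) (nat_lit 6) (nat_lit 0) (.e true (nat_lit 2) (nat_lit 44) (nat_lit 2) (nat_lit 2)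 (.e false (nat_lit 3) (nat_lit 18) (nat_lit 5) (nat_lit 1) (.u (nat_lit 2) (.n (nat_lit 1) (nat_lit 1) (.n (nat_lit 2) (nat_lit 1) (.p (nat_lit 5) (nat_lit 1) (.n (nat_lit 8) (nat_lit 1) (.n (nat_lit 9) (nat_lit 1) .z))))) .nil)))))))) .leaf) (nat_lit 17415) (nat_lit 191) (.p (nat_lit 107) (nat_lit 2) (.p (nat_lit 112) (nat_lit 2) (.n (nat_lit 114) (nat_lit 2) (.n (nat_lit 124) (nat_lit 1) (.n (nat_lit 129) (nat_lit 1) .z))))) (.ct dC1a_c546 (nat_lit 1) (nat_lit 3) (.s true (nat_lit 1) (nat_lit 7) (nat_lit 2) (nat_lit 2) (nat_lit 1) true (nat_lit 5) true (nat_lit 9) true (nat_lit 3) true (nat_lit 8) true (nat_lit 8) (.e true (nat_lit 1) (nat_lit 20) (nat_lit 5) (nat_lit 5) (.e true (nat_lit 1) (nat_lit 55) (nat_lit 1) (nat_lit 9) (.e true (nat_lit 1) (nat_lit 48) (nat_lit 2) (nat_lit 8) (.e false (nat_lit 1) (nat_lit 52) (nat_lit 2) (nat_lit 8) (.e true (nat_lit 1)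 (nat_lit 54) (nat_lit 2) (nat_lit 8) (.e false (nat_lit 1) (nat_lit 47) (nat_lit 2) (nat_lit 8) .nil)))))))) (.nd (.nd .leaf (nat_lit 17417) (nat_lit 242) (.p (nat_lit 132) (nat_lit 1) (.p (nat_lit 133) (nat_lit 1) (.p (nat_lit 134) (nat_lit 1) (.p (nat_lit 136) (nat_lit 3) (.p (nat_lit 137) (nat_lit 3) (.p (nat_lit 138) (nat_lit 3) (.p (nat_lit 139) (nat_lit 1) (.p (nat_lit 140) (nat_lit 1) (.n (nat_lit 141) (nat_lit 3) (.p (nat_lit 142) (nat_lit 2) (.n (nat_lit 143) (nat_lit 1) (.n (nat_lit 152) (nat_lit 1) .z)))))))))))) (.ct dC1a_c531 (nat_lit 1) (nat_lit 1) (.s true (nat_lit 1) (nat_lit 9) (nat_lit 2) (nat_lit 2) (nat_lit 1) true (nat_lit 4) true (nat_lit 8) true (nat_lit 1) true (nat_lit 7) true (nat_lit 7) (.e true (nat_lit 1) (nat_lit 28) (nat_lit 5) (nat_lit 4) (.e true (nat_lit 1) (nat_lit 77) (nat_lit 1) (nat_lit 8) (.e false (nat_lit 1) (nat_lit 55) (nat_lit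 2) (nat_lit 7) (.e false (nat_lit 1) (nat_lit 57) (nat_lit 2) (nat_lit 7) (.e false (nat_lit 3) (nat_lit 59) (nat_lit 2) (nat_lit 7) (.e false (nat_lit 3) (nat_lit 60) (nat_lit 2) (nat_lit 7) (.e false (nat_lit 3) (nat_lit 61) (nat_lit 2) (nat_lit 7) (.e false (nat_lit 1) (nat_lit 62) (nat_lit 2) (nat_lit 7) (.e false (nat_lit 1) (nat_lit 63) (nat_lit 2) (nat_lit 7) (.e true (nat_lit 3) (nat_lit 64) (nat_lit 2) (nat_lit 7) (.e false (nat_lit 2) (nat_lit 65) (nat_lit 2) (nat_lit 7) (.e false (nat_lit 1) (nat_lit 56) (nat_lit 2) (nat_lit 7) .nil)))))))))))))) .leaf) (nat_lit 17418) (nat_lit 295) (.p (nat_lit 154) (nat_lit 2) (.p (nat_lit 157) (nat_lit 2) (.n (nat_lit 162) (nat_lit 2) (.n (nat_lit 167) (nat_lit 1) (.n (nat_lit 171) (nat_lit 1) .z))))) (.ct dC1a_c291 (nat_lit 1) (nat_lit 1) (.s true (nat_lit 1) (nat_lit 10) (nat_lit 2) (nat_lit 2) (nat_lit 1) true (nat_lit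 4) true (nat_lit 8) true (nat_lit 1) true (nat_lit 7) true (nat_lit 7) (.e true (nat_lit 1) (nat_lit 31) (nat_lit 5) (nat_lit 4) (.e true (nat_lit 1) (nat_lit 82) (nat_lit 1) (nat_lit 8) (.e true (nat_lit 1) (nat_lit 75) (nat_lit 2) (nat_lit 7) (.e false (nat_lit 1) (nat_lit 67) (nat_lit 2) (nat_lit 7) .nil)))))) .leaf)) (nat_lit 17419) (nat_lit 301) (.p (nat_lit 155) (nat_lit 2) (.p (nat_lit 158) (nat_lit 2) (.n (nat_lit 163) (nat_lit 2) (.n (nat_lit 168) (nat_lit 1) (.n (nat_lit 172) (nat_lit 1) .z))))) (.ct dC1a_c291 (nat_lit 1) (nat_lit 1) (.s true (nat_lit 1) (nat_lit 11) (nat_lit 2) (nat_lit 2) (nat_lit 1) true (nat_lit 4) true (nat_lit 8) true (nat_lit 1) true (nat_lit 7) true (nat_lit 7) (.e true (nat_lit 1) (nat_lit 32) (nat_lit 5) (nat_lit 4) (.e true (nat_lit 1) (nat_lit 83) (nat_lit 1) (nat_lit 8) (.e true (nat_lit 1) (nat_lit 76) (nat_lit 2) (nat_lit 7)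 (.e false (nat_lit 1) (nat_lit 68) (nat_lit 2) (nat_lit 7) .nil)))))) (.nd (.nd (.nd .leaf (nat_lit 17420) (nat_lit 310) (.p (nat_lit 153) (nat_lit 3) (.n (nat_lit 154) (nat_lit 1) (.n (nat_lit 155) (nat_lit 1) (.p (nat_lit 156) (nat_lit 3) (.p (nat_lit 157) (nat_lit 2) (.p (nat_lit 158) (nat_lit 2) (.n (nat_lit 159) (nat_lit 3) (.p (nat_lit 160) (nat_lit 3) (.p (nat_lit 161) (nat_lit 1) (.n (nat_lit 162) (nat_lit 3) (.n (nat_lit 163) (nat_lit 3) (.n (nat_lit 167) (nat_lit 2) (.n (nat_lit 168) (nat_lit 1) (.p (nat_lit 171) (nat_lit 2) (.n (nat_lit 172) (nat_lit 1) (.p (nat_lit 173) (nat_lit 3) .z)))))))))))))))) (.ct dC1a_c291 (nat_lit 1) (nat_lit 1) (.s true (nat_lit 1) (nat_lit 12) (nat_lit 2) (nat_lit 2) (nat_lit 1) true (nat_lit 4) true (nat_lit 8) true (nat_lit 1) true (nat_lit 7) true (nat_lit 7) (.e true (nat_lit 1) (nat_lit 33) (nat_lit 5) (nat_lit 4) (.e true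 (nat_lit 1) (nat_lit 84) (nat_lit 1) (nat_lit 8) (.e false (nat_lit 1) (nat_lit 66) (nat_lit 2) (nat_lit 7) (.e false (nat_lit 1) (nat_lit 67) (nat_lit 2) (nat_lit 7) (.e false (nat_lit 1) (nat_lit 70) (nat_lit 2) (nat_lit 7) (.e true (nat_lit 1) (nat_lit 72) (nat_lit 2) (nat_lit 7) (.e false (nat_lit 1) (nat_lit 73) (nat_lit 2) (nat_lit 7) (.e true (nat_lit 1) (nat_lit 74) (nat_lit 2) (nat_lit 7) (.e false (nat_lit 1) (nat_lit 76) (nat_lit 2) (nat_lit 7) (.e false (nat_lit 1) (nat_lit 69) (nat_lit 2) (nat_lit 7) (.u (nat_lit 2) (.n (nat_lit 3) (nat_lit 1) (.p (nat_lit 6) (nat_lit 1) (.n (nat_lit 7) (nat_lit 1) (.n (nat_lit 8) (nat_lit 1) (.p (nat_lit 9) (nat_lit 1) (.p (nat_lit 10) (nat_lit 1) (.p (nat_lit 14) (nat_lit 1) (.n (nat_lit 18) (nat_lit 1) (.n (nat_lit 20) (nat_lit 1) .z))))))))) .nil))))))))))))) .leaf) (nat_lit 17422) (nat_lit 359) (.p (nat_lit 180) (nat_lit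 1) (.p (nat_lit 181) (nat_lit 1) (.p (nat_lit 183) (nat_lit 1) (.n (nat_lit 184) (nat_lit 1) (.p (nat_lit 185) (nat_lit 2) (.p (nat_lit 187) (nat_lit 1) (.n (nat_lit 190) (nat_lit 1) (.n (nat_lit 191) (nat_lit 1) (.n (nat_lit 195) (nat_lit 1) .z))))))))) (.ct dC1a_c276 (nat_lit 1) (nat_lit 0) (.s true (nat_lit 1) (nat_lit 14) (nat_lit 2) (nat_lit 2) (nat_lit 1) true (nat_lit 3) true (nat_lit 7) true (nat_lit 0) true (nat_lit 6) true (nat_lit 6) (.e true (nat_lit 1) (nat_lit 40) (nat_lit 5) (nat_lit 3) (.e true (nat_lit 1) (nat_lit 98) (nat_lit 1) (nat_lit 7) (.e false (nat_lit 1) (nat_lit 82) (nat_lit 2) (nat_lit 6) (.e false (nat_lit 1) (nat_lit 83) (nat_lit 2) (nat_lit 6) (.e true (nat_lit 1) (nat_lit 86) (nat_lit 2) (nat_lit 6) (.e false (nat_lit 2) (nat_lit 87) (nat_lit 2) (nat_lit 6) (.e false (nat_lit 1) (nat_lit 89) (nat_lit 2) (nat_lit 6) (.e true (nat_lit 1)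 (nat_lit 92) (nat_lit 2) (nat_lit 6) (.e false (nat_lit 1) (nat_lit 85) (nat_lit 2) (nat_lit 6) .nil))))))))))) .leaf) (nat_lit 17423) (nat_lit 373) (.n (nat_lit 180) (nat_lit 2) (.p (nat_lit 183) (nat_lit 2) (.p (nat_lit 184) (nat_lit 2) (.n (nat_lit 185) (nat_lit 2) (.n (nat_lit 186) (nat_lit 2) (.p (nat_lit 188) (nat_lit 3) (.p (nat_lit 189) (nat_lit 1) (.p (nat_lit 190) (nat_lit 1) (.n (nat_lit 191) (nat_lit 2) (.n (nat_lit 192) (nat_lit 1) (.n (nat_lit 193) (nat_lit 3) (.p (nat_lit 194) (nat_lit 1) (.n (nat_lit 195) (nat_lit 2) .z))))))))))))) (.ct dC1a_c276 (nat_lit 1) (nat_lit 0) (.s true (nat_lit 1) (nat_lit 15) (nat_lit 2) (nat_lit 2) (nat_lit 1) true (nat_lit 3) true (nat_lit 7) true (nat_lit 0) true (nat_lit 6) true (nat_lit 6) (.e true (nat_lit 1) (nat_lit 41) (nat_lit 5) (nat_lit 3) (.e true (nat_lit 1) (nat_lit 99) (nat_lit 1) (nat_lit 7) (.e true (nat_lit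 2) (nat_lit 82) (nat_lit 2) (nat_lit 6) (.e true (nat_lit 2) (nat_lit 83) (nat_lit 2) (nat_lit 6) (.e true (nat_lit 1) (nat_lit 84) (nat_lit 2) (nat_lit 6) (.e true (nat_lit 1) (nat_lit 85) (nat_lit 2) (nat_lit 6) (.e false (nat_lit 3) (nat_lit 86) (nat_lit 2) (nat_lit 6) (.e true (nat_lit 2) (nat_lit 87) (nat_lit 2) (nat_lit 6) (.e true (nat_lit 1) (nat_lit 88) (nat_lit 2) (nat_lit 6) (.e false (nat_lit 1) (nat_lit 89) (nat_lit 2) (nat_lit 6) (.e false (nat_lit 1) (nat_lit 91) (nat_lit 2) (nat_lit 6) (.u (nat_lit 2) (.n (nat_lit 1) (nat_lit 1) .z) .nil)))))))))))))) (.nd (.nd .leaf (nat_lit 17424) (nat_lit 389) (.p (nat_lit 196) (nat_lit 1) (.n (nat_lit 198) (nat_lit 3) (.n (nat_lit 199) (nat_lit 2) (.n (nat_lit 200) (nat_lit 1) (.n (nat_lit 201) (nat_lit 3) .z))))) (.ct dC1a_c36 (nat_lit 1) (nat_lit 0) (.s true (nat_lit 1) (nat_lit 16) (nat_lit 2) (nat_lit 2) (nat_lit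 1) true (nat_lit 3) true (nat_lit 5) true (nat_lit 0) true (nat_lit 4) true (nat_lit 4) (.e true (nat_lit 1) (nat_lit 43) (nat_lit 5) (nat_lit 3) (.e true (nat_lit 1) (nat_lit 102) (nat_lit 1) (nat_lit 5) (.e false (nat_lit 2) (nat_lit 94) (nat_lit 2) (nat_lit 4) (.e false (nat_lit 1) (nat_lit 96) (nat_lit 2) (nat_lit 4) (.e true (nat_lit 1) (nat_lit 97) (nat_lit 2) (nat_lit 4) (.u (nat_lit 2) (.p (nat_lit 3) (nat_lit 1) .z) .nil)))))))) .leaf) (nat_lit 18432) (nat_lit 49) (.p (nat_lit 42) (nat_lit 1) .z) .df .leaf)))) (nat_lit 18433) (nat_lit 53) (.p (nat_lit 45) (nat_lit 1) .z) .df (.nd (.nd (.nd (.nd (.nd .leaf (nat_lit 18434) (nat_lit 55) (.p (nat_lit 46) (nat_lit 1) .z) .df .leaf) (nat_lit 18435) (nat_lit 130) (.p (nat_lit 83) (nat_lit 1) (.n (nat_lit 84) (nat_lit 1) (.p (nat_lit 85) (nat_lit 1) (.n (nat_lit 87) (nat_lit 1) (.n (nat_lit 90) (nat_lit 1) .z)))))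 (.ct dC1a_c275 (nat_lit 1) (nat_lit 3) (.s true (nat_lit 1) (nat_lit 3) (nat_lit 2) (nat_lit 2) (nat_lit 2) true (nat_lit 0) true (nat_lit 4) true (nat_lit 3) true (nat_lit 4) true (nat_lit 4) (.e true (nat_lit 1) (nat_lit 10) (nat_lit 6) (nat_lit 0) (.e false (nat_lit 1) (nat_lit 32) (nat_lit 2) (nat_lit 4) (.e true (nat_lit 1) (nat_lit 33) (nat_lit 2) (nat_lit 4) (.e false (nat_lit 1) (nat_lit 34) (nat_lit 2) (nat_lit 4) (.e true (nat_lit 1) (nat_lit 36) (nat_lit 2) (nat_lit 4) .nil))))))) .leaf) (nat_lit 18436) (nat_lit 152) (.n (nat_lit 99) (nat_lit 1) (.n (nat_lit 100) (nat_lit 1) (.p (nat_lit 101) (nat_lit 1) .z))) (.ct dC1a_c260 (nat_lit 1) (nat_lit 1) (.s false (nat_lit 1) (nat_lit 4) (nat_lit 2) (nat_lit 2) (nat_lit 2) true (nat_lit 0) true (nat_lit 2) true (nat_lit 1) true (nat_lit 2) true (nat_lit 2) (.e false (nat_lit 1) (nat_lit 14) (nat_lit 6) (nat_lit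 0) (.e true (nat_lit 1) (nat_lit 41) (nat_lit 2) (nat_lit 2) (.e true (nat_lit 1) (nat_lit 42) (nat_lit 2) (nat_lit 2) .nil))))) (.nd (.nd .leaf (nat_lit 18437) (nat_lit 159) (.n (nat_lit 103) (nat_lit 1) (.n (nat_lit 104) (nat_lit 1) (.p (nat_lit 105) (nat_lit 1) .z))) (.ct dC1a_c20 (nat_lit 1) (nat_lit 1) (.s false (nat_lit 1) (nat_lit 5) (nat_lit 2) (nat_lit 2) (nat_lit 2) true (nat_lit 0) true (nat_lit 2) true (nat_lit 1) true (nat_lit 2) true (nat_lit 2) (.e false (nat_lit 1) (nat_lit 16) (nat_lit 6) (nat_lit 0) (.e true (nat_lit 1) (nat_lit 44) (nat_lit 2) (nat_lit 2) (.e true (nat_lit 1) (nat_lit 45) (nat_lit 2) (nat_lit 2) .nil))))) .leaf) (nat_lit 18438) (nat_lit 163) .z (.ct dC1a_c5 (nat_lit 1) (nat_lit 0) (.s false (nat_lit 3) (nat_lit 6) (nat_lit 2) (nat_lit 2) (nat_lit 2) true (nat_lit 0) true (nat_lit 1) true (nat_lit 0) true (nat_lit 1) true (nat_lit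 1) (.u (nat_lit 2) (.p (nat_lit 1) (nat_lit 1) .z) .nil))) .leaf)) (nat_lit 18439) (nat_lit 240) (.p (nat_lit 142) (nat_lit 1) (.n (nat_lit 149) (nat_lit 1) .z)) (.ct dC1a_c531 (nat_lit 1) (nat_lit 2) (.s true (nat_lit 1) (nat_lit 7) (nat_lit 2) (nat_lit 2) (nat_lit 2) true (nat_lit 3) true (nat_lit 7) true (nat_lit 2) true (nat_lit 7) true (nat_lit 7) (.e true (nat_lit 1) (nat_lit 20) (nat_lit 6) (nat_lit 3) (.e false (nat_lit 1) (nat_lit 65) (nat_lit 2) (nat_lit 7) .nil)))) (.nd (.nd (.nd .leaf (nat_lit 18440) (nat_lit 292) (.p (nat_lit 161) (nat_lit 1) (.n (nat_lit 170) (nat_lit 1) .z)) (.ct dC1a_c291 (nat_lit 1) (nat_lit 2) (.s true (nat_lit 1) (nat_lit 8) (nat_lit 2) (nat_lit 2) (nat_lit 2) true (nat_lit 3) true (nat_lit 7) true (nat_lit 2) true (nat_lit 7) true (nat_lit 7) (.e true (nat_lit 1) (nat_lit 24) (nat_lit 6) (nat_lit 3) (.e false (nat_lit 1) (nat_lit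 74) (nat_lit 2) (nat_lit 7) .nil)))) .leaf) (nat_lit 18441) (nat_lit 338) (.p (nat_lit 175) (nat_lit 1) (.p (nat_lit 176) (nat_lit 1) (.n (nat_lit 178) (nat_lit 1) (.n (nat_lit 179) (nat_lit 1) .z)))) (.ct dC1a_c516 (nat_lit 1) (nat_lit 1) (.s false (nat_lit 1) (nat_lit 9) (nat_lit 2) (nat_lit 2) (nat_lit 2) true (nat_lit 2) true (nat_lit 4) true (nat_lit 1) true (nat_lit 4) true (nat_lit 4) (.e false (nat_lit 1) (nat_lit 28) (nat_lit 6) (nat_lit 2) (.e true (nat_lit 1) (nat_lit 77) (nat_lit 2) (nat_lit 4) (.e true (nat_lit 1) (nat_lit 78) (nat_lit 2) (nat_lit 4) (.e false (nat_lit 1) (nat_lit 79) (nat_lit 2) (nat_lit 4) (.e true (nat_lit 1) (nat_lit 81) (nat_lit 2) (nat_lit 4) (.u (nat_lit 2) (.n (nat_lit 1) (nat_lit 1) .z) .nil)))))))) .leaf) (nat_lit 18442) (nat_lit 356) (.n (nat_lit 188) (nat_lit 1) (.p (nat_lit 192) (nat_lit 1) .z)) (.ct dC1a_c276 (nat_lit 1) (nat_lit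 1) (.s false (nat_lit 1) (nat_lit 6) (nat_lit 3) (nat_lit 2) (nat_lit 2) true (nat_lit 1) true (nat_lit 6) true (nat_lit 2) true (nat_lit 5) true (nat_lit 6) (.e false (nat_lit 1) (nat_lit 31) (nat_lit 6) (nat_lit 2) (.e true (nat_lit 1) (nat_lit 90) (nat_lit 2) (nat_lit 6) .nil)))) (.nd (.nd .leaf (nat_lit 18443) (nat_lit 357) (.n (nat_lit 189) (nat_lit 1) (.p (nat_lit 193) (nat_lit 1) .z)) (.ct dC1a_c276 (nat_lit 1) (nat_lit 1) (.s false (nat_lit 1) (nat_lit 11) (nat_lit 2) (nat_lit 2) (nat_lit 2) true (nat_lit 2) true (nat_lit 6) true (nat_lit 1) true (nat_lit 6) true (nat_lit 6) (.e false (nat_lit 1) (nat_lit 32) (nat_lit 6) (nat_lit 2) (.e true (nat_lit 1) (nat_lit 91) (nat_lit 2) (nat_lit 6) .nil)))) .leaf) (nat_lit 18444) (nat_lit 358) (.n (nat_lit 190) (nat_lit 1) (.p (nat_lit 194) (nat_lit 1) .z)) (.ct dC1a_c276 (nat_lit 1) (nat_lit 1) (.s false (nat_lit 1)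 (nat_lit 12) (nat_lit 2) (nat_lit 2) (nat_lit 2) true (nat_lit 2) true (nat_lit 6) true (nat_lit 1) true (nat_lit 6) true (nat_lit 6) (.e false (nat_lit 1) (nat_lit 33) (nat_lit 6) (nat_lit 2) (.e true (nat_lit 1) (nat_lit 92) (nat_lit 2) (nat_lit 6) .nil)))) .leaf))) (nat_lit 18445) (nat_lit 394) (.p (nat_lit 197) (nat_lit 1) (.p (nat_lit 198) (nat_lit 1) (.n (nat_lit 200) (nat_lit 1) (.n (nat_lit 201) (nat_lit 1) .z)))) (.ct dC1a_c36 (nat_lit 1) (nat_lit 1) (.s false (nat_lit 1) (nat_lit 13) (nat_lit 2) (nat_lit 2) (nat_lit 2) true (nat_lit 2) true (nat_lit 4) true (nat_lit 1) true (nat_lit 4) true (nat_lit 4) (.e false (nat_lit 1) (nat_lit 37) (nat_lit 6) (nat_lit 2) (.e true (nat_lit 1) (nat_lit 93) (nat_lit 2) (nat_lit 4) (.e true (nat_lit 1) (nat_lit 94) (nat_lit 2) (nat_lit 4) (.e false (nat_lit 1) (nat_lit 95) (nat_lit 2) (nat_lit 4) (.e true (nat_lit 1) (nat_lit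 97) (nat_lit 2) (nat_lit 4) (.u (nat_lit 2) (.n (nat_lit 1) (nat_lit 1) .z) .nil)))))))) (.nd (.nd (.nd (.nd .leaf (nat_lit 18446) (nat_lit 405) (.n (nat_lit 204) (nat_lit 1) (.p (nat_lit 205) (nat_lit 1) (.n (nat_lit 206) (nat_lit 1) .z))) (.ct dC1a_c261 (nat_lit 1) (nat_lit 0) (.s true (nat_lit 1) (nat_lit 18) (nat_lit 0) (nat_lit 2) (nat_lit 2) true (nat_lit 2) true (nat_lit 3) false (nat_lit 0) true (nat_lit 4) true (nat_lit 3) (.e true (nat_lit 1) (nat_lit 46) (nat_lit 4) (nat_lit 2) (.e true (nat_lit 1) (nat_lit 100) (nat_lit 2) (nat_lit 3) (.e true (nat_lit 1) (nat_lit 99) (nat_lit 2) (nat_lit 3) (.e false (nat_lit 1) (nat_lit 101) (nat_lit 2) (nat_lit 3) .nil)))))) .leaf) (nat_lit 18447) (nat_lit 401) (.p (nat_lit 206) (nat_lit 1) .z) (.ct dC1a_c261 (nat_lit 1) (nat_lit 0) (.s true (nat_lit 1) (nat_lit 6) (nat_lit 0) (nat_lit 2) (nat_lit 6) true (nat_lit 0)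 true (nat_lit 1) true (nat_lit 1) true (nat_lit 4) true (nat_lit 3) (.e false (nat_lit 1) (nat_lit 42) (nat_lit 6) (nat_lit 1) .nil))) .leaf) (nat_lit 18448) (nat_lit 416) (.n (nat_lit 209) (nat_lit 1) (.p (nat_lit 210) (nat_lit 1) (.n (nat_lit 211) (nat_lit 1) .z))) (.ct dC1a_c21 (nat_lit 1) (nat_lit 0) (.s true (nat_lit 1) (nat_lit 18) (nat_lit 1) (nat_lit 2) (nat_lit 2) true (nat_lit 2) true (nat_lit 3) false (nat_lit 0) true (nat_lit 4) true (nat_lit 3) (.e true (nat_lit 1) (nat_lit 46) (nat_lit 5) (nat_lit 2) (.e true (nat_lit 1) (nat_lit 104) (nat_lit 2) (nat_lit 3) (.e true (nat_lit 1) (nat_lit 103) (nat_lit 2) (nat_lit 3) (.e false (nat_lit 1) (nat_lit 105) (nat_lit 2) (nat_lit 3) .nil)))))) (.nd (.nd .leaf (nat_lit 18449) (nat_lit 412) (.p (nat_lit 211) (nat_lit 1) .z) (.ct dC1a_c21 (nat_lit 1) (nat_lit 0) (.s true (nat_lit 1) (nat_lit 6) (nat_lit 1) (nat_lit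 2) (nat_lit 6) true (nat_lit 0) true (nat_lit 1) true (nat_lit 1) true (nat_lit 4) true (nat_lit 3) (.e false (nat_lit 1) (nat_lit 45) (nat_lit 6) (nat_lit 1) .nil))) .leaf) (nat_lit 19458) (nat_lit 56) (.p (nat_lit 47) (nat_lit 1) .z) .df .leaf)) (nat_lit 19462) (nat_lit 186) (.p (nat_lit 129) (nat_lit 1) .z) .df (.nd (.nd (.nd .leaf (nat_lit 19474) (nat_lit 501) (.p (nat_lit 212) (nat_lit 2) (.p (nat_lit 213) (nat_lit 3) (.n (nat_lit 214) (nat_lit 1) (.p (nat_lit 215) (nat_lit 1) (.n (nat_lit 216) (nat_lit 2) (.p (nat_lit 217) (nat_lit 2) (.p (nat_lit 218) (nat_lit 3) (.n (nat_lit 219) (nat_lit 3) (.p (nat_lit 220) (nat_lit 1) (.n (nat_lit 221) (nat_lit 2) (.n (nat_lit 222) (nat_lit 1) (.p (nat_lit 223) (nat_lit 1) (.n (nat_lit 224) (nat_lit 1) (.n (nat_lit 226) (nat_lit 2) (.n (nat_lit 227) (nat_lit 3) (.n (nat_lit 229) (nat_lit 2) (.n (nat_lit 230) (nat_lit 1) (.n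 (nat_lit 231) (nat_lit 2) (.p (nat_lit 232) (nat_lit 3) (.p (nat_lit 234) (nat_lit 3) (.p (nat_lit 235) (nat_lit 3) (.p (nat_lit 236) (nat_lit 1) (.p (nat_lit 237) (nat_lit 2) (.n (nat_lit 238) (nat_lit 2) (.n (nat_lit 240) (nat_lit 3) (.p (nat_lit 242) (nat_lit 2) (.p (nat_lit 243) (nat_lit 1) (.n (nat_lit 244) (nat_lit 3) (.n (nat_lit 245) (nat_lit 2) (.n (nat_lit 248) (nat_lit 1) .z)))))))))))))))))))))))))))))) (.ct dC1a_c547 (nat_lit 1) (nat_lit 0) (.s false (nat_lit 1) (nat_lit 8) (nat_lit 6) (nat_lit 0) (nat_lit 2) true (nat_lit 0) true (nat_lit 12) true (nat_lit 6) true (nat_lit 8) true (nat_lit 14) (.e false (nat_lit 1) (nat_lit 126) (nat_lit 2) (nat_lit 12) (.e false (nat_lit 1) (nat_lit 41) (nat_lit 8) (nat_lit 6) (.e false (nat_lit 1) (nat_lit 54) (nat_lit 6) (nat_lit 8) (.e true (nat_lit 1) (nat_lit 170) (nat_lit 0) (nat_lit 14) (.u (nat_lit 2) (.n (nat_lit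 0) (nat_lit 1) (.n (nat_lit 3) (nat_lit 1) (.p (nat_lit 4) (nat_lit 1) (.p (nat_lit 5) (nat_lit 1) (.p (nat_lit 7) (nat_lit 1) (.n (nat_lit 8) (nat_lit 1) (.p (nat_lit 15) (nat_lit 1) (.p (nat_lit 17) (nat_lit 1) (.n (nat_lit 18) (nat_lit 1) (.n (nat_lit 22) (nat_lit 1) (.n (nat_lit 23) (nat_lit 1) (.n (nat_lit 24) (nat_lit 1) (.n (nat_lit 25) (nat_lit 1) (.p (nat_lit 29) (nat_lit 1) (.p (nat_lit 31) (nat_lit 1) .z))))))))))))))) .nil))))))) .leaf) (nat_lit 20481) (nat_lit 57) (.p (nat_lit 48) (nat_lit 1) .z) .df .leaf) (nat_lit 20482) (nat_lit 70) (.p (nat_lit 55) (nat_lit 1) .z) .df (.nd (.nd .leaf (nat_lit 20485) (nat_lit 190) (.n (nat_lit 107) (nat_lit 1) (.n (nat_lit 108) (nat_lit 1) (.n (nat_lit 112) (nat_lit 1) (.p (nat_lit 114) (nat_lit 1) (.n (nat_lit 115) (nat_lit 1) (.p (nat_lit 124) (nat_lit 1) (.p (nat_lit 129) (nat_lit 1) .z))))))) (.ct dC1a_c546 (nat_lit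 1) (nat_lit 5) (.s true (nat_lit 1) (nat_lit 7) (nat_lit 1) (nat_lit 2) (nat_lit 2) true (nat_lit 5) true (nat_lit 8) true (nat_lit 3) true (nat_lit 9) true (nat_lit 8) (.e true (nat_lit 1) (nat_lit 47) (nat_lit 2) (nat_lit 8) (.e false (nat_lit 1) (nat_lit 16) (nat_lit 7) (nat_lit 3) (.e false (nat_lit 1) (nat_lit 65) (nat_lit 1) (nat_lit 9) (.e true (nat_lit 1) (nat_lit 48) (nat_lit 2) (nat_lit 8) .nil)))))) .leaf) (nat_lit 20486) (nat_lit 236) (.p (nat_lit 149) (nat_lit 1) .z) .df .leaf))))) (nat_lit 20496) (nat_lit 513) (.p (nat_lit 212) (nat_lit 1) (.p (nat_lit 214) (nat_lit 1) (.n (nat_lit 215) (nat_lit 3) (.n (nat_lit 216) (nat_lit 2) (.p (nat_lit 217) (nat_lit 2) (.n (nat_lit 218) (nat_lit 1) (.p (nat_lit 219) (nat_lit 1) (.n (nat_lit 220) (nat_lit 2) (.n (nat_lit 221) (nat_lit 2) (.n (nat_lit 223) (nat_lit 3) (.n (nat_lit 224) (nat_lit 2) (.p (nat_lit 227)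 (nat_lit 1) (.p (nat_lit 229) (nat_lit 3) (.n (nat_lit 231) (nat_lit 2) (.p (nat_lit 232) (nat_lit 3) (.n (nat_lit 234) (nat_lit 1) (.n (nat_lit 235) (nat_lit 1) (.n (nat_lit 236) (nat_lit 3) (.n (nat_lit 237) (nat_lit 2) (.p (nat_lit 238) (nat_lit 1) (.p (nat_lit 239) (nat_lit 3) (.p (nat_lit 240) (nat_lit 1) (.n (nat_lit 241) (nat_lit 2) (.p (nat_lit 242) (nat_lit 1) (.n (nat_lit 250) (nat_lit 1) .z))))))))))))))))))))))))) (.ct dC1a_c547 (nat_lit 1) (nat_lit 1) (.s true (nat_lit 1) (nat_lit 20) (nat_lit 1) (nat_lit 2) (nat_lit 2) true (nat_lit 9) true (nat_lit 12) false (nat_lit 1) true (nat_lit 13) true (nat_lit 12) (.e true (nat_lit 1) (nat_lit 55) (nat_lit 5) (nat_lit 9) (.e true (nat_lit 1) (nat_lit 108) (nat_lit 2) (nat_lit 12) (.e false (nat_lit 1) (nat_lit 149) (nat_lit 1) (nat_lit 13) (.e true (nat_lit 1) (nat_lit 115) (nat_lit 2) (nat_lit 12) (.u (nat_lit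 2) (.n (nat_lit 0) (nat_lit 1) (.p (nat_lit 4) (nat_lit 1) (.n (nat_lit 15) (nat_lit 1) (.p (nat_lit 19) (nat_lit 1) (.n (nat_lit 21) (nat_lit 1) (.n (nat_lit 23) (nat_lit 1) (.n (nat_lit 26) (nat_lit 1) (.n (nat_lit 28) (nat_lit 1) .z)))))))) .nil))))))) (.nd (.nd (.nd (.nd (.nd (.nd .leaf (nat_lit 20497) (nat_lit 506) (.n (nat_lit 212) (nat_lit 2) (.p (nat_lit 213) (nat_lit 3) (.n (nat_lit 214) (nat_lit 3) (.p (nat_lit 217) (nat_lit 1) (.p (nat_lit 218) (nat_lit 2) (.n (nat_lit 219) (nat_lit 2) (.n (nat_lit 220) (nat_lit 3) (.p (nat_lit 222) (nat_lit 2) (.p (nat_lit 223) (nat_lit 3) (.p (nat_lit 224) (nat_lit 3) (.p (nat_lit 226) (nat_lit 2) (.p (nat_lit 227) (nat_lit 2) (.n (nat_lit 229) (nat_lit 2) (.p (nat_lit 230) (nat_lit 1) (.p (nat_lit 232) (nat_lit 2) (.n (nat_lit 233) (nat_lit 3) (.n (nat_lit 234) (nat_lit 2) (.p (nat_lit 235) (nat_lit 2) (.n (nat_lit 237)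 (nat_lit 2) (.n (nat_lit 239) (nat_lit 2) (.p (nat_lit 240) (nat_lit 1) (.n (nat_lit 241) (nat_lit 1) (.p (nat_lit 242) (nat_lit 3) (.n (nat_lit 243) (nat_lit 3) (.n (nat_lit 244) (nat_lit 1) (.n (nat_lit 245) (nat_lit 3) (.p (nat_lit 248) (nat_lit 3) (.n (nat_lit 250) (nat_lit 2) .z)))))))))))))))))))))))))))) (.ct dC1a_c547 (nat_lit 1) (nat_lit 1) (.s false (nat_lit 1) (nat_lit 7) (nat_lit 6) (nat_lit 2) (nat_lit 1) true (nat_lit 1) true (nat_lit 13) true (nat_lit 7) true (nat_lit 8) true (nat_lit 12) (.e false (nat_lit 1) (nat_lit 142) (nat_lit 1) (nat_lit 13) (.e false (nat_lit 1) (nat_lit 45) (nat_lit 7) (nat_lit 7) (.e true (nat_lit 1) (nat_lit 48) (nat_lit 6) (nat_lit 8) (.e false (nat_lit 1) (nat_lit 52) (nat_lit 6) (nat_lit 8) (.e true (nat_lit 1) (nat_lit 54) (nat_lit 6) (nat_lit 8) (.e true (nat_lit 1) (nat_lit 129) (nat_lit 2) (nat_lit 12) (.u (nat_lit 2)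 (.n (nat_lit 1) (nat_lit 1) (.p (nat_lit 2) (nat_lit 1) (.p (nat_lit 4) (nat_lit 1) (.n (nat_lit 5) (nat_lit 1) (.n (nat_lit 6) (nat_lit 1) (.p (nat_lit 7) (nat_lit 1) (.p (nat_lit 8) (nat_lit 1) (.n (nat_lit 12) (nat_lit 1) (.p (nat_lit 14) (nat_lit 1) (.n (nat_lit 15) (nat_lit 2) (.n (nat_lit 19) (nat_lit 1) (.n (nat_lit 20) (nat_lit 1) (.p (nat_lit 21) (nat_lit 1) (.p (nat_lit 22) (nat_lit 1) (.n (nat_lit 26) (nat_lit 1) (.p (nat_lit 27) (nat_lit 1) (.n (nat_lit 28) (nat_lit 1) (.n (nat_lit 29) (nat_lit 1) (.n (nat_lit 30) (nat_lit 1) (.n (nat_lit 33) (nat_lit 1) .z)))))))))))))))))))) .nil))))))))) .leaf) (nat_lit 20498) (nat_lit 603) (.n (nat_lit 277) (nat_lit 1) (.p (nat_lit 286) (nat_lit 1) .z)) (.ct dC1a_c532 (nat_lit 1) (nat_lit 0) (.s false (nat_lit 1) (nat_lit 7) (nat_lit 2) (nat_lit 2) (nat_lit 6) true (nat_lit 0) true (nat_lit 6) true (nat_lit 5) true (nat_lit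 10) true (nat_lit 10) (.e false (nat_lit 1) (nat_lit 55) (nat_lit 6) (nat_lit 6) (.e true (nat_lit 1) (nat_lit 149) (nat_lit 2) (nat_lit 10) .nil)))) .leaf) (nat_lit 21505) (nat_lit 58) (.p (nat_lit 49) (nat_lit 1) .z) .df (.nd (.nd .leaf (nat_lit 21506) (nat_lit 71) (.p (nat_lit 56) (nat_lit 1) .z) .df .leaf) (nat_lit 21509) (nat_lit 187) (.p (nat_lit 130) (nat_lit 1) .z) .df .leaf)) (nat_lit 21510) (nat_lit 237) (.p (nat_lit 150) (nat_lit 1) .z) .df (.nd (.nd (.nd .leaf (nat_lit 21520) (nat_lit 483) (.p (nat_lit 212) (nat_lit 2) (.n (nat_lit 213) (nat_lit 3) (.p (nat_lit 214) (nat_lit 1) (.p (nat_lit 215) (nat_lit 3) (.p (nat_lit 216) (nat_lit 1) (.p (nat_lit 217) (nat_lit 3) (.n (nat_lit 218) (nat_lit 2) (.p (nat_lit 219) (nat_lit 2) (.p (nat_lit 220) (nat_lit 1) (.n (nat_lit 221) (nat_lit 2) (.p (nat_lit 222) (nat_lit 1) (.p (nat_lit 223) (nat_lit 1) (.n (nat_lit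 224) (nat_lit 3) (.n (nat_lit 227) (nat_lit 2) (.p (nat_lit 229) (nat_lit 1) (.p (nat_lit 231) (nat_lit 3) (.n (nat_lit 233) (nat_lit 1) (.n (nat_lit 234) (nat_lit 2) (.p (nat_lit 235) (nat_lit 3) (.n (nat_lit 236) (nat_lit 2) (.n (nat_lit 237) (nat_lit 2) (.p (nat_lit 238) (nat_lit 2) (.p (nat_lit 239) (nat_lit 2) (.n (nat_lit 240) (nat_lit 1) (.p (nat_lit 241) (nat_lit 1) (.n (nat_lit 242) (nat_lit 2) (.n (nat_lit 243) (nat_lit 2) (.n (nat_lit 244) (nat_lit 2) (.p (nat_lit 245) (nat_lit 1) (.p (nat_lit 248) (nat_lit 2) (.n (nat_lit 251) (nat_lit 1) .z))))))))))))))))))))))))))))))) (.ct dC1a_c547 (nat_lit 1) (nat_lit 1) (.s true (nat_lit 1) (nat_lit 21) (nat_lit 1) (nat_lit 2) (nat_lit 2) true (nat_lit 9) true (nat_lit 12) false (nat_lit 1) true (nat_lit 13) true (nat_lit 12) (.e true (nat_lit 1) (nat_lit 56) (nat_lit 5) (nat_lit 9) (.e true (nat_lit 1) (nat_lit 109)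 (nat_lit 2) (nat_lit 12) (.e false (nat_lit 1) (nat_lit 150) (nat_lit 1) (nat_lit 13) (.e true (nat_lit 1) (nat_lit 116) (nat_lit 2) (nat_lit 12) (.u (nat_lit 2) (.n (nat_lit 26) (nat_lit 1) .z) .nil))))))) .leaf) (nat_lit 21521) (nat_lit 479) (.p (nat_lit 212) (nat_lit 1) (.n (nat_lit 213) (nat_lit 1) (.p (nat_lit 214) (nat_lit 1) (.p (nat_lit 215) (nat_lit 1) (.n (nat_lit 216) (nat_lit 2) (.p (nat_lit 217) (nat_lit 3) (.n (nat_lit 218) (nat_lit 3) (.p (nat_lit 219) (nat_lit 3) (.n (nat_lit 220) (nat_lit 1) (.n (nat_lit 221) (nat_lit 3) (.p (nat_lit 222) (nat_lit 3) (.n (nat_lit 223) (nat_lit 3) (.p (nat_lit 224) (nat_lit 3) (.n (nat_lit 226) (nat_lit 3) (.p (nat_lit 227) (nat_lit 2) (.n (nat_lit 229) (nat_lit 2) (.p (nat_lit 230) (nat_lit 1) (.p (nat_lit 231) (nat_lit 1) (.p (nat_lit 232) (nat_lit 3) (.n (nat_lit 233) (nat_lit 3) (.n (nat_lit 234) (nat_lit 1) (.p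 (nat_lit 235) (nat_lit 1) (.p (nat_lit 236) (nat_lit 3) (.p (nat_lit 237) (nat_lit 2) (.p (nat_lit 238) (nat_lit 2) (.n (nat_lit 239) (nat_lit 1) (.n (nat_lit 240) (nat_lit 3) (.p (nat_lit 241) (nat_lit 3) (.n (nat_lit 243) (nat_lit 1) (.p (nat_lit 248) (nat_lit 1) (.n (nat_lit 251) (nat_lit 2) (.p (nat_lit 258) (nat_lit 2) (.n (nat_lit 259) (nat_lit 1) .z))))))))))))))))))))))))))))))))) (.ct dC1a_c547 (nat_lit 1) (nat_lit 1) (.s false (nat_lit 1) (nat_lit 21) (nat_lit 2) (nat_lit 2) (nat_lit 1) true (nat_lit 9) true (nat_lit 13) false (nat_lit 1) true (nat_lit 12) true (nat_lit 12) (.e false (nat_lit 1) (nat_lit 56) (nat_lit 5) (nat_lit 9) (.e false (nat_lit 1) (nat_lit 133) (nat_lit 1) (nat_lit 13) (.e false (nat_lit 1) (nat_lit 130) (nat_lit 2) (nat_lit 12) (.e true (nat_lit 1) (nat_lit 109) (nat_lit 2) (nat_lit 12) (.u (nat_lit 2) (.n (nat_lit 3) (nat_lit 1) (.p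 (nat_lit 4) (nat_lit 1) (.p (nat_lit 6) (nat_lit 1) (.n (nat_lit 12) (nat_lit 1) (.p (nat_lit 14) (nat_lit 1) (.n (nat_lit 15) (nat_lit 1) (.p (nat_lit 28) (nat_lit 1) (.n (nat_lit 29) (nat_lit 1) (.p (nat_lit 39) (nat_lit 1) .z))))))))) .nil))))))) .leaf) (nat_lit 21522) (nat_lit 604) (.n (nat_lit 278) (nat_lit 1) (.p (nat_lit 287) (nat_lit 1) .z)) (.ct dC1a_c532 (nat_lit 1) (nat_lit 0) (.s false (nat_lit 1) (nat_lit 21) (nat_lit 2) (nat_lit 2) (nat_lit 2) true (nat_lit 6) true (nat_lit 10) false (nat_lit 0) true (nat_lit 10) true (nat_lit 10) (.e false (nat_lit 1) (nat_lit 56) (nat_lit 6) (nat_lit 6) (.e true (nat_lit 1) (nat_lit 150) (nat_lit 2) (nat_lit 10) .nil)))) (.nd (.nd .leaf (nat_lit 22529) (nat_lit 59) (.p (nat_lit 50) (nat_lit 1) .z) .df .leaf) (nat_lit 22530) (nat_lit 72) (.p (nat_lit 57) (nat_lit 1) .z) .df .leaf))) (nat_lit 22533) (nat_lit 210) (.p (nat_lit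 107) (nat_lit 1) (.p (nat_lit 108) (nat_lit 3) (.p (nat_lit 109) (nat_lit 2) (.n (nat_lit 111) (nat_lit 3) (.p (nat_lit 112) (nat_lit 2) (.n (nat_lit 114) (nat_lit 2) (.n (nat_lit 115) (nat_lit 2) (.n (nat_lit 116) (nat_lit 2) (.p (nat_lit 118) (nat_lit 3) (.n (nat_lit 120) (nat_lit 2) (.n (nat_lit 121) (nat_lit 3) (.p (nat_lit 122) (nat_lit 1) (.n (nat_lit 123) (nat_lit 3) (.n (nat_lit 124) (nat_lit 1) (.p (nat_lit 125) (nat_lit 1) (.p (nat_lit 126) (nat_lit 3) (.p (nat_lit 129) (nat_lit 2) (.n (nat_lit 130) (nat_lit 1) .z)))))))))))))))))) (.ct dC1a_c546 (nat_lit 1) (nat_lit 5) (.s false (nat_lit 1) (nat_lit 10) (nat_lit 2) (nat_lit 0) (nat_lit 1) true (nat_lit 5) true (nat_lit 9) true (nat_lit 0) true (nat_lit 8) true (nat_lit 10) (.e false (nat_lit 1) (nat_lit 62) (nat_lit 1) (nat_lit 9) (.e true (nat_lit 1) (nat_lit 11) (nat_lit 10) (nat_lit 0) (.e true (nat_lit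 1) (nat_lit 47) (nat_lit 2) (nat_lit 8) (.e true (nat_lit 1) (nat_lit 48) (nat_lit 2) (nat_lit 8) (.e true (nat_lit 1) (nat_lit 49) (nat_lit 2) (nat_lit 8) (.e false (nat_lit 1) (nat_lit 50) (nat_lit 2) (nat_lit 8) (.e false (nat_lit 1) (nat_lit 51) (nat_lit 2) (nat_lit 8) (.e false (nat_lit 1) (nat_lit 52) (nat_lit 2) (nat_lit 8) (.e false (nat_lit 1) (nat_lit 53) (nat_lit 2) (nat_lit 8) (.e true (nat_lit 1) (nat_lit 54) (nat_lit 2) (nat_lit 8) (.e true (nat_lit 1) (nat_lit 67) (nat_lit 0) (nat_lit 10) (.u (nat_lit 2) (.p (nat_lit 4) (nat_lit 1) (.p (nat_lit 13) (nat_lit 1) (.p (nat_lit 14) (nat_lit 1) .z))) .nil)))))))))))))) (.nd (.nd (.nd (.nd .leaf (nat_lit 22534) (nat_lit 238) (.p (nat_lit 151) (nat_lit 1) .z) .df .leaf) (nat_lit 22544) (nat_lit 539) (.n (nat_lit 212) (nat_lit 1) (.p (nat_lit 213) (nat_lit 3) (.p (nat_lit 214) (nat_lit 3) (.n (nat_lit 215) (nat_lit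 3) (.p (nat_lit 216) (nat_lit 3) (.n (nat_lit 218) (nat_lit 2) (.p (nat_lit 219) (nat_lit 2) (.n (nat_lit 220) (nat_lit 3) (.p (nat_lit 221) (nat_lit 3) (.n (nat_lit 222) (nat_lit 3) (.n (nat_lit 226) (nat_lit 3) (.p (nat_lit 229) (nat_lit 3) (.p (nat_lit 231) (nat_lit 3) (.n (nat_lit 232) (nat_lit 1) (.n (nat_lit 233) (nat_lit 1) (.n (nat_lit 234) (nat_lit 1) (.n (nat_lit 235) (nat_lit 3) (.n (nat_lit 236) (nat_lit 2) (.n (nat_lit 237) (nat_lit 1) (.n (nat_lit 239) (nat_lit 1) (.n (nat_lit 240) (nat_lit 3) (.p (nat_lit 241) (nat_lit 3) (.n (nat_lit 242) (nat_lit 3) (.n (nat_lit 243) (nat_lit 3) (.p (nat_lit 244) (nat_lit 1) (.p (nat_lit 245) (nat_lit 3) (.p (nat_lit 248) (nat_lit 3) (.n (nat_lit 252) (nat_lit 1) .z)))))))))))))))))))))))))))) (.ct dC1a_c547 (nat_lit 1) (nat_lit 1) (.s true (nat_lit 1) (nat_lit 22) (nat_lit 1) (nat_lit 2) (nat_lit 2) true (nat_lit 9)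 true (nat_lit 12) false (nat_lit 1) true (nat_lit 13) true (nat_lit 12) (.e true (nat_lit 1) (nat_lit 57) (nat_lit 5) (nat_lit 9) (.e true (nat_lit 1) (nat_lit 110) (nat_lit 2) (nat_lit 12) (.e false (nat_lit 1) (nat_lit 151) (nat_lit 1) (nat_lit 13) (.e true (nat_lit 1) (nat_lit 117) (nat_lit 2) (nat_lit 12) (.u (nat_lit 2) (.n (nat_lit 1) (nat_lit 1) (.n (nat_lit 2) (nat_lit 1) (.p (nat_lit 3) (nat_lit 1) (.p (nat_lit 10) (nat_lit 1) (.p (nat_lit 23) (nat_lit 1) .z))))) .nil))))))) .leaf) (nat_lit 22545) (nat_lit 545) (.p (nat_lit 212) (nat_lit 3) (.p (nat_lit 214) (nat_lit 2) (.p (nat_lit 215) (nat_lit 3) (.n (nat_lit 216) (nat_lit 3) (.p (nat_lit 217) (nat_lit 2) (.n (nat_lit 218) (nat_lit 2) (.p (nat_lit 219) (nat_lit 2) (.p (nat_lit 220) (nat_lit 2) (.n (nat_lit 221) (nat_lit 2) (.p (nat_lit 222) (nat_lit 2) (.n (nat_lit 223) (nat_lit 2) (.n (nat_lit 224) (nat_lit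 3) (.n (nat_lit 227) (nat_lit 2) (.n (nat_lit 229) (nat_lit 2) (.p (nat_lit 231) (nat_lit 1) (.p (nat_lit 232) (nat_lit 1) (.p (nat_lit 233) (nat_lit 1) (.p (nat_lit 234) (nat_lit 2) (.p (nat_lit 235) (nat_lit 1) (.n (nat_lit 236) (nat_lit 3) (.p (nat_lit 237) (nat_lit 2) (.p (nat_lit 238) (nat_lit 3) (.n (nat_lit 240) (nat_lit 2) (.p (nat_lit 243) (nat_lit 2) (.n (nat_lit 244) (nat_lit 3) (.n (nat_lit 245) (nat_lit 2) (.n (nat_lit 248) (nat_lit 2) (.n (nat_lit 252) (nat_lit 2) .z)))))))))))))))))))))))))))) (.ct dC1a_c547 (nat_lit 1) (nat_lit 1) dC1a_i0) (.nd (.nd .leaf (nat_lit 22546) (nat_lit 605) (.n (nat_lit 279) (nat_lit 1) (.p (nat_lit 288) (nat_lit 1) .z)) (.ct dC1a_c532 (nat_lit 1) (nat_lit 0) (.s false (nat_lit 1) (nat_lit 22) (nat_lit 2) (nat_lit 2) (nat_lit 2) true (nat_lit 6) true (nat_lit 10) false (nat_lit 0) true (nat_lit 10) true (nat_lit 10) (.e false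 (nat_lit 1) (nat_lit 57) (nat_lit 6) (nat_lit 6) (.e true (nat_lit 1) (nat_lit 151) (nat_lit 2) (nat_lit 10) .nil)))) .leaf) (nat_lit 23553) (nat_lit 60) (.p (nat_lit 51) (nat_lit 1) .z) .df .leaf)) (nat_lit 23554) (nat_lit 73) (.p (nat_lit 58) (nat_lit 1) .z) .df (.nd (.nd (.nd .leaf (nat_lit 23557) (nat_lit 213) (.p (nat_lit 108) (nat_lit 3) (.n (nat_lit 109) (nat_lit 3) (.p (nat_lit 110) (nat_lit 1) (.p (nat_lit 111) (nat_lit 3) (.p (nat_lit 112) (nat_lit 1) (.n (nat_lit 114) (nat_lit 1) (.p (nat_lit 115) (nat_lit 3) (.p (nat_lit 116) (nat_lit 3) (.n (nat_lit 117) (nat_lit 1) (.n (nat_lit 118) (nat_lit 3) (.n (nat_lit 121) (nat_lit 3) (.n (nat_lit 122) (nat_lit 1) (.p (nat_lit 123) (nat_lit 3) (.p (nat_lit 124) (nat_lit 1) (.p (nat_lit 125) (nat_lit 1) (.p (nat_lit 126) (nat_lit 3) (.p (nat_lit 129) (nat_lit 3) (.p (nat_lit 130) (nat_lit 1) .z)))))))))))))))))) (.ct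 dC1a_c546 (nat_lit 1) (nat_lit 5) (.s false (nat_lit 1) (nat_lit 5) (nat_lit 0) (nat_lit 1) (nat_lit 4) true (nat_lit 1) true (nat_lit 6) true (nat_lit 5) true (nat_lit 10) true (nat_lit 9) (.e false (nat_lit 1) (nat_lit 13) (nat_lit 9) (nat_lit 1) (.e false (nat_lit 1) (nat_lit 27) (nat_lit 4) (nat_lit 6) (.e false (nat_lit 1) (nat_lit 21) (nat_lit 5) (nat_lit 5) (.e true (nat_lit 1) (nat_lit 22) (nat_lit 5) (nat_lit 5) (.e false (nat_lit 1) (nat_lit 76) (nat_lit 0) (nat_lit 10) (.e false (nat_lit 3) (nat_lit 64) (nat_lit 1) (nat_lit 9) (.e false (nat_lit 1) (nat_lit 56) (nat_lit 1) (nat_lit 9) (.e true (nat_lit 1) (nat_lit 57) (nat_lit 1) (nat_lit 9) (.e false (nat_lit 3) (nat_lit 59) (nat_lit 1) (nat_lit 9) (.e false (nat_lit 3) (nat_lit 60) (nat_lit 1) (nat_lit 9) (.e true (nat_lit 3) (nat_lit 61) (nat_lit 1) (nat_lit 9) (.e true (nat_lit 3) (nat_lit 65) (nat_lit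 1) (nat_lit 9) (.u (nat_lit 2) (.n (nat_lit 1) (nat_lit 1) (.p (nat_lit 12) (nat_lit 1) (.p (nat_lit 13) (nat_lit 1) (.n (nat_lit 19) (nat_lit 1) (.n (nat_lit 22) (nat_lit 1) (.n (nat_lit 71) (nat_lit 1) .z)))))) .nil))))))))))))))) .leaf) (nat_lit 23558) (nat_lit 259) (.p (nat_lit 132) (nat_lit 1) (.n (nat_lit 133) (nat_lit 3) (.p (nat_lit 134) (nat_lit 3) (.n (nat_lit 135) (nat_lit 1) (.n (nat_lit 136) (nat_lit 3) (.n (nat_lit 137) (nat_lit 1) (.p (nat_lit 138) (nat_lit 3) (.n (nat_lit 140) (nat_lit 3) (.p (nat_lit 142) (nat_lit 2) (.n (nat_lit 143) (nat_lit 2) (.p (nat_lit 144) (nat_lit 3) (.p (nat_lit 145) (nat_lit 2) (.n (nat_lit 149) (nat_lit 3) (.p (nat_lit 150) (nat_lit 1) (.p (nat_lit 151) (nat_lit 1) (.p (nat_lit 152) (nat_lit 2) .z)))))))))))))))) (.ct dC1a_c531 (nat_lit 1) (nat_lit 3) (.s true (nat_lit 1) (nat_lit 6) (nat_lit 0) (nat_lit 1) (nat_lit 4) true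 (nat_lit 1) true (nat_lit 5) true (nat_lit 3) true (nat_lit 9) true (nat_lit 8) (.e true (nat_lit 1) (nat_lit 17) (nat_lit 9) (nat_lit 1) (.e true (nat_lit 1) (nat_lit 35) (nat_lit 4) (nat_lit 5) (.e false (nat_lit 1) (nat_lit 21) (nat_lit 6) (nat_lit 3) (.e true (nat_lit 1) (nat_lit 22) (nat_lit 6) (nat_lit 3) (.e false (nat_lit 1) (nat_lit 91) (nat_lit 0) (nat_lit 9) (.e true (nat_lit 1) (nat_lit 77) (nat_lit 1) (nat_lit 8) (.e true (nat_lit 1) (nat_lit 78) (nat_lit 1) (nat_lit 8) (.u (nat_lit 2) (.n (nat_lit 0) (nat_lit 1) (.n (nat_lit 10) (nat_lit 1) (.p (nat_lit 17) (nat_lit 1) (.n (nat_lit 20) (nat_lit 1) .z)))) .nil)))))))))) .leaf) (nat_lit 23568) (nat_lit 529) (.p (nat_lit 212) (nat_lit 1) (.n (nat_lit 213) (nat_lit 2) (.p (nat_lit 214) (nat_lit 3) (.n (nat_lit 215) (nat_lit 2) (.n (nat_lit 217) (nat_lit 1) (.p (nat_lit 218) (nat_lit 1) (.n (nat_lit 219) (nat_lit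 1) (.p (nat_lit 220) (nat_lit 3) (.p (nat_lit 221) (nat_lit 1) (.n (nat_lit 222) (nat_lit 1) (.p (nat_lit 223) (nat_lit 1) (.p (nat_lit 224) (nat_lit 2) (.n (nat_lit 226) (nat_lit 1) (.n (nat_lit 227) (nat_lit 1) (.n (nat_lit 231) (nat_lit 3) (.n (nat_lit 232) (nat_lit 3) (.n (nat_lit 233) (nat_lit 2) (.p (nat_lit 234) (nat_lit 2) (.p (nat_lit 235) (nat_lit 1) (.p (nat_lit 237) (nat_lit 1) (.p (nat_lit 238) (nat_lit 2) (.p (nat_lit 239) (nat_lit 1) (.p (nat_lit 240) (nat_lit 2) (.n (nat_lit 241) (nat_lit 3) (.p (nat_lit 243) (nat_lit 1) (.n (nat_lit 244) (nat_lit 3) (.n (nat_lit 245) (nat_lit 2) (.n (nat_lit 248) (nat_lit 1) (.n (nat_lit 250) (nat_lit 1) (.n (nat_lit 251) (nat_lit 1) (.p (nat_lit 252) (nat_lit 2) .z))))))))))))))))))))))))))))))) (.ct dC1a_c547 (nat_lit 1) (nat_lit 1) (.s true (nat_lit 1) (nat_lit 16) (nat_lit 5) (nat_lit 0) (nat_lit 0) true (nat_lit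 4) true (nat_lit 14) true (nat_lit 1) true (nat_lit 9) true (nat_lit 14) (.e false (nat_lit 1) (nat_lit 36) (nat_lit 12) (nat_lit 4) (.e false (nat_lit 3) (nat_lit 154) (nat_lit 0) (nat_lit 14) (.e false (nat_lit 2) (nat_lit 157) (nat_lit 0) (nat_lit 14) (.e false (nat_lit 1) (nat_lit 158) (nat_lit 0) (nat_lit 14) (.e true (nat_lit 1) (nat_lit 159) (nat_lit 0) (nat_lit 14) (.e false (nat_lit 1) (nat_lit 160) (nat_lit 0) (nat_lit 14) (.e false (nat_lit 1) (nat_lit 161) (nat_lit 0) (nat_lit 14) (.e false (nat_lit 1) (nat_lit 163) (nat_lit 0) (nat_lit 14) (.e false (nat_lit 1) (nat_lit 171) (nat_lit 0) (nat_lit 14) (.e true (nat_lit 1) (nat_lit 172) (nat_lit 0) (nat_lit 14) (.e false (nat_lit 1) (nat_lit 173) (nat_lit 0) (nat_lit 14) (.e false (nat_lit 2) (nat_lit 167) (nat_lit 0) (nat_lit 14) (.e false (nat_lit 2) (nat_lit 153) (nat_lit 0) (nat_lit 14) (.e true (nat_lit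 3) (nat_lit 168) (nat_lit 0) (nat_lit 14) (.u (nat_lit 2) (.p (nat_lit 0) (nat_lit 1) (.p (nat_lit 1) (nat_lit 1) (.p (nat_lit 4) (nat_lit 1) (.n (nat_lit 11) (nat_lit 1) (.p (nat_lit 19) (nat_lit 1) (.n (nat_lit 184) (nat_lit 1) (.n (nat_lit 186) (nat_lit 1) (.p (nat_lit 187) (nat_lit 1) (.n (nat_lit 189) (nat_lit 1) (.n (nat_lit 191) (nat_lit 1) (.n (nat_lit 192) (nat_lit 1) (.n (nat_lit 200) (nat_lit 1) (.n (nat_lit 201) (nat_lit 1) (.p (nat_lit 202) (nat_lit 1) .z)))))))))))))) .nil))))))))))))))))) (.nd (.nd .leaf (nat_lit 23569) (nat_lit 541) (.p (nat_lit 212) (nat_lit 1) (.n (nat_lit 213) (nat_lit 1) (.p (nat_lit 214) (nat_lit 3) (.n (nat_lit 216) (nat_lit 2) (.p (nat_lit 217) (nat_lit 3) (.p (nat_lit 218) (nat_lit 2) (.n (nat_lit 219) (nat_lit 2) (.n (nat_lit 221) (nat_lit 1) (.n (nat_lit 226) (nat_lit 2) (.p (nat_lit 229) (nat_lit 2) (.n (nat_lit 230) (nat_lit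 3) (.p (nat_lit 231) (nat_lit 2) (.p (nat_lit 232) (nat_lit 1) (.p (nat_lit 233) (nat_lit 2) (.n (nat_lit 234) (nat_lit 2) (.p (nat_lit 235) (nat_lit 2) (.n (nat_lit 237) (nat_lit 2) (.n (nat_lit 238) (nat_lit 2) (.n (nat_lit 240) (nat_lit 2) (.n (nat_lit 242) (nat_lit 3) (.n (nat_lit 243) (nat_lit 1) (.p (nat_lit 244) (nat_lit 1) (.p (nat_lit 245) (nat_lit 3) (.p (nat_lit 248) (nat_lit 1) (.n (nat_lit 250) (nat_lit 2) (.n (nat_lit 251) (nat_lit 2) (.n (nat_lit 252) (nat_lit 3) (.p (nat_lit 258) (nat_lit 2) (.n (nat_lit 259) (nat_lit 1) .z))))))))))))))))))))))))))))) (.ct dC1a_c547 (nat_lit 1) (nat_lit 1) (.s false (nat_lit 1) (nat_lit 17) (nat_lit 0) (nat_lit 5) (nat_lit 0) false (nat_lit 15) true (nat_lit 14) true (nat_lit 1) true (nat_lit 14) true (nat_lit 9) dC1a_i1)) .leaf) (nat_lit 23570) (nat_lit 652) (.n (nat_lit 260) (nat_lit 3) (.n (nat_lit 261) (nat_lit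 1) (.p (nat_lit 262) (nat_lit 3) (.n (nat_lit 263) (nat_lit 3) (.p (nat_lit 264) (nat_lit 1) (.p (nat_lit 265) (nat_lit 2) (.n (nat_lit 266) (nat_lit 3) (.n (nat_lit 267) (nat_lit 1) (.p (nat_lit 268) (nat_lit 3) (.p (nat_lit 269) (nat_lit 3) (.n (nat_lit 271) (nat_lit 1) (.n (nat_lit 272) (nat_lit 2) (.p (nat_lit 273) (nat_lit 2) (.p (nat_lit 274) (nat_lit 3) (.n (nat_lit 277) (nat_lit 2) (.p (nat_lit 278) (nat_lit 3) (.p (nat_lit 279) (nat_lit 1) (.p (nat_lit 280) (nat_lit 3) (.n (nat_lit 286) (nat_lit 3) (.p (nat_lit 287) (nat_lit 1) (.p (nat_lit 288) (nat_lit 3) .z))))))))))))))))))))) (.ct dC1a_c532 (nat_lit 1) (nat_lit 0) (.s false (nat_lit 1) (nat_lit 23) (nat_lit 2) (nat_lit 2) (nat_lit 2) true (nat_lit 6) true (nat_lit 10) false (nat_lit 0) true (nat_lit 10) true (nat_lit 10) (.e false (nat_lit 1) (nat_lit 58) (nat_lit 6) (nat_lit 6) (.e false (nat_lit 1) (nat_lit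 135) (nat_lit 2) (nat_lit 10) (.e true (nat_lit 1) (nat_lit 132) (nat_lit 2) (nat_lit 10) (.e false (nat_lit 3) (nat_lit 133) (nat_lit 2) (nat_lit 10) (.e true (nat_lit 3) (nat_lit 134) (nat_lit 2) (nat_lit 10) (.e false (nat_lit 3) (nat_lit 136) (nat_lit 2) (nat_lit 10) (.e false (nat_lit 1) (nat_lit 137) (nat_lit 2) (nat_lit 10) (.e true (nat_lit 3) (nat_lit 138) (nat_lit 2) (nat_lit 10) (.e false (nat_lit 3) (nat_lit 140) (nat_lit 2) (nat_lit 10) (.e true (nat_lit 2) (nat_lit 142) (nat_lit 2) (nat_lit 10) (.e false (nat_lit 2) (nat_lit 143) (nat_lit 2) (nat_lit 10) (.e true (nat_lit 3) (nat_lit 144) (nat_lit 2) (nat_lit 10) (.e true (nat_lit 2) (nat_lit 145) (nat_lit 2) (nat_lit 10) (.e false (nat_lit 3) (nat_lit 149) (nat_lit 2) (nat_lit 10) (.e true (nat_lit 1) (nat_lit 150) (nat_lit 2) (nat_lit 10) (.e true (nat_lit 1) (nat_lit 151) (nat_lit 2) (nat_lit 10) (.e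 true (nat_lit 2) (nat_lit 152) (nat_lit 2) (nat_lit 10) (.u (nat_lit 2) (.p (nat_lit 1) (nat_lit 1) (.n (nat_lit 2) (nat_lit 1) (.p (nat_lit 3) (nat_lit 1) (.n (nat_lit 13) (nat_lit 1) (.p (nat_lit 17) (nat_lit 1) (.n (nat_lit 18) (nat_lit 1) (.n (nat_lit 20) (nat_lit 1) .z))))))) .nil)))))))))))))))))))) .leaf)))) (nat_lit 24576) (nat_lit 61) (.p (nat_lit 52) (nat_lit 1) .z) .df (.nd (.nd (.nd (.nd (.nd .leaf (nat_lit 24578) (nat_lit 90) (.p (nat_lit 66) (nat_lit 1) .z) .df .leaf) (nat_lit 24580) (nat_lit 193) (.n (nat_lit 107) (nat_lit 1) (.n (nat_lit 112) (nat_lit 2) (.p (nat_lit 114) (nat_lit 1) (.n (nat_lit 125) (nat_lit 1) (.p (nat_lit 126) (nat_lit 1) (.p (nat_lit 129) (nat_lit 1) .z)))))) (.ct dC1a_c546 (nat_lit 1) (nat_lit 6) (.s true (nat_lit 1) (nat_lit 8) (nat_lit 0) (nat_lit 2) (nat_lit 2) true (nat_lit 6) true (nat_lit 8) true (nat_lit 2) true (nat_lit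 10) true (nat_lit 8) (.e true (nat_lit 1) (nat_lit 47) (nat_lit 2) (nat_lit 8) (.e false (nat_lit 1) (nat_lit 14) (nat_lit 8) (nat_lit 2) (.e false (nat_lit 1) (nat_lit 74) (nat_lit 0) (nat_lit 10) (.e true (nat_lit 1) (nat_lit 52) (nat_lit 2) (nat_lit 8) .nil)))))) .leaf) (nat_lit 24582) (nat_lit 288) (.p (nat_lit 170) (nat_lit 1) .z) .df (.nd (.nd .leaf (nat_lit 24590) (nat_lit 497) (.n (nat_lit 212) (nat_lit 2) (.p (nat_lit 213) (nat_lit 3) (.p (nat_lit 214) (nat_lit 1) (.n (nat_lit 215) (nat_lit 2) (.n (nat_lit 216) (nat_lit 3) (.p (nat_lit 217) (nat_lit 1) (.n (nat_lit 218) (nat_lit 3) (.p (nat_lit 219) (nat_lit 3) (.n (nat_lit 220) (nat_lit 2) (.p (nat_lit 221) (nat_lit 1) (.n (nat_lit 222) (nat_lit 2) (.p (nat_lit 223) (nat_lit 2) (.n (nat_lit 224) (nat_lit 1) (.n (nat_lit 227) (nat_lit 3) (.p (nat_lit 229) (nat_lit 3) (.n (nat_lit 231) (nat_lit 1) (.p (nat_lit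 232) (nat_lit 3) (.p (nat_lit 233) (nat_lit 2) (.p (nat_lit 235) (nat_lit 2) (.n (nat_lit 236) (nat_lit 2) (.p (nat_lit 237) (nat_lit 1) (.n (nat_lit 238) (nat_lit 3) (.p (nat_lit 240) (nat_lit 3) (.p (nat_lit 242) (nat_lit 3) (.n (nat_lit 253) (nat_lit 1) .z))))))))))))))))))))))))) (.ct dC1a_c547 (nat_lit 1) (nat_lit 2) (.s true (nat_lit 1) (nat_lit 8) (nat_lit 4) (nat_lit 2) (nat_lit 2) true (nat_lit 2) true (nat_lit 12) true (nat_lit 6) true (nat_lit 10) true (nat_lit 12) (.e true (nat_lit 1) (nat_lit 40) (nat_lit 8) (nat_lit 6) (.e false (nat_lit 1) (nat_lit 74) (nat_lit 4) (nat_lit 10) (.e true (nat_lit 1) (nat_lit 107) (nat_lit 2) (nat_lit 12) (.e true (nat_lit 2) (nat_lit 112) (nat_lit 2) (nat_lit 12) (.e true (nat_lit 1) (nat_lit 125) (nat_lit 2) (nat_lit 12) (.e false (nat_lit 1) (nat_lit 126) (nat_lit 2) (nat_lit 12) (.e false (nat_lit 1) (nat_lit 129) (nat_lit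 2) (nat_lit 12) (.u (nat_lit 2) (.p (nat_lit 0) (nat_lit 1) (.n (nat_lit 3) (nat_lit 1) (.p (nat_lit 4) (nat_lit 1) (.n (nat_lit 7) (nat_lit 1) (.p (nat_lit 15) (nat_lit 1) (.n (nat_lit 28) (nat_lit 1) (.n (nat_lit 30) (nat_lit 1) (.p (nat_lit 31) (nat_lit 1) (.n (nat_lit 33) (nat_lit 1) .z))))))))) .nil)))))))))) .leaf) (nat_lit 24591) (nat_lit 504) (.n (nat_lit 212) (nat_lit 3) (.n (nat_lit 213) (nat_lit 3) (.n (nat_lit 214) (nat_lit 2) (.n (nat_lit 215) (nat_lit 1) (.p (nat_lit 216) (nat_lit 3) (.p (nat_lit 217) (nat_lit 1) (.p (nat_lit 218) (nat_lit 1) (.n (nat_lit 219) (nat_lit 1) (.p (nat_lit 220) (nat_lit 2) (.p (nat_lit 221) (nat_lit 2) (.n (nat_lit 222) (nat_lit 3) (.n (nat_lit 223) (nat_lit 1) (.p (nat_lit 224) (nat_lit 3) (.n (nat_lit 226) (nat_lit 2) (.p (nat_lit 227) (nat_lit 2) (.p (nat_lit 229) (nat_lit 2) (.p (nat_lit 230) (nat_lit 1) (.n (nat_lit 231)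 (nat_lit 1) (.n (nat_lit 232) (nat_lit 3) (.p (nat_lit 233) (nat_lit 3) (.n (nat_lit 234) (nat_lit 2) (.p (nat_lit 235) (nat_lit 1) (.n (nat_lit 236) (nat_lit 1) (.p (nat_lit 237) (nat_lit 1) (.p (nat_lit 238) (nat_lit 2) (.n (nat_lit 239) (nat_lit 3) (.p (nat_lit 240) (nat_lit 3) (.p (nat_lit 241) (nat_lit 2) (.p (nat_lit 242) (nat_lit 1) (.n (nat_lit 243) (nat_lit 1) (.p (nat_lit 244) (nat_lit 3) (.p (nat_lit 245) (nat_lit 2) (.p (nat_lit 248) (nat_lit 1) (.n (nat_lit 253) (nat_lit 2) .z)))))))))))))))))))))))))))))))))) (.ct dC1a_c547 (nat_lit 1) (nat_lit 2) (.s false (nat_lit 1) (nat_lit 8) (nat_lit 6) (nat_lit 2) (nat_lit 0) true (nat_lit 2) true (nat_lit 14) true (nat_lit 6) true (nat_lit 8) true (nat_lit 12) (.e false (nat_lit 1) (nat_lit 161) (nat_lit 0) (nat_lit 14) (.e false (nat_lit 1) (nat_lit 42) (nat_lit 8) (nat_lit 6) (.e true (nat_lit 1) (nat_lit 54)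 (nat_lit 6) (nat_lit 8) (.e true (nat_lit 1) (nat_lit 129) (nat_lit 2) (nat_lit 12) (.u (nat_lit 2) (.p (nat_lit 2) (nat_lit 1) (.p (nat_lit 3) (nat_lit 1) (.p (nat_lit 10) (nat_lit 1) (.n (nat_lit 12) (nat_lit 1) (.p (nat_lit 14) (nat_lit 1) (.n (nat_lit 15) (nat_lit 1) (.n (nat_lit 17) (nat_lit 1) (.n (nat_lit 19) (nat_lit 1) (.p (nat_lit 22) (nat_lit 1) (.p (nat_lit 24) (nat_lit 1) (.n (nat_lit 30) (nat_lit 1) (.n (nat_lit 33) (nat_lit 1) .z)))))))))))) .nil))))))) .leaf)) (nat_lit 24594) (nat_lit 712) (.n (nat_lit 307) (nat_lit 1) (.p (nat_lit 316) (nat_lit 1) .z)) (.ct dC1a_c292 (nat_lit 1) (nat_lit 0) (.s false (nat_lit 1) (nat_lit 8) (nat_lit 2) (nat_lit 2) (nat_lit 6) true (nat_lit 0) true (nat_lit 6) true (nat_lit 5) true (nat_lit 10) true (nat_lit 10) (.e false (nat_lit 1) (nat_lit 66) (nat_lit 6) (nat_lit 6) (.e true (nat_lit 1) (nat_lit 170) (nat_lit 2)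 (nat_lit 10) .nil)))) (.nd (.nd (.nd .leaf (nat_lit 25600) (nat_lit 62) (.p (nat_lit 53) (nat_lit 1) .z) .df .leaf) (nat_lit 25602) (nat_lit 91) (.p (nat_lit 67) (nat_lit 1) .z) .df .leaf) (nat_lit 25604) (nat_lit 206) (.p (nat_lit 107) (nat_lit 1) (.n (nat_lit 109) (nat_lit 1) (.p (nat_lit 110) (nat_lit 1) (.p (nat_lit 111) (nat_lit 1) (.p (nat_lit 112) (nat_lit 3) (.n (nat_lit 114) (nat_lit 3) (.p (nat_lit 115) (nat_lit 1) (.n (nat_lit 116) (nat_lit 2) (.n (nat_lit 117) (nat_lit 3) (.p (nat_lit 118) (nat_lit 2) (.n (nat_lit 119) (nat_lit 3) (.p (nat_lit 120) (nat_lit 3) (.p (nat_lit 121) (nat_lit 3) (.p (nat_lit 122) (nat_lit 2) (.n (nat_lit 123) (nat_lit 3) (.p (nat_lit 124) (nat_lit 1) (.p (nat_lit 125) (nat_lit 2) (.n (nat_lit 126) (nat_lit 1) (.p (nat_lit 128) (nat_lit 1) (.n (nat_lit 129) (nat_lit 2) (.n (nat_lit 130) (nat_lit 1) (.p (nat_lit 131) (nat_lit 1)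 .z)))))))))))))))))))))) (.ct dC1a_c546 (nat_lit 1) (nat_lit 6) (.s false (nat_lit 1) (nat_lit 4) (nat_lit 3) (nat_lit 2) (nat_lit 1) true (nat_lit 2) true (nat_lit 9) true (nat_lit 6) true (nat_lit 7) true (nat_lit 8) (.e true (nat_lit 1) (nat_lit 14) (nat_lit 8) (nat_lit 2) (.e true (nat_lit 1) (nat_lit 56) (nat_lit 1) (nat_lit 9) (.e false (nat_lit 1) (nat_lit 57) (nat_lit 1) (nat_lit 9) (.e false (nat_lit 1) (nat_lit 58) (nat_lit 1) (nat_lit 9) (.e false (nat_lit 1) (nat_lit 31) (nat_lit 3) (nat_lit 7) (.e false (nat_lit 1) (nat_lit 32) (nat_lit 3) (nat_lit 7) (.e true (nat_lit 1) (nat_lit 35) (nat_lit 3) (nat_lit 7) (.e false (nat_lit 1) (nat_lit 36) (nat_lit 3) (nat_lit 7) (.e true (nat_lit 1) (nat_lit 48) (nat_lit 2) (nat_lit 8) (.e false (nat_lit 1) (nat_lit 50) (nat_lit 2) (nat_lit 8) (.e true (nat_lit 1) (nat_lit 54) (nat_lit 2) (nat_lit 8) (.u (nat_lit 2)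 (.p (nat_lit 10) (nat_lit 1) (.n (nat_lit 16) (nat_lit 1) .z)) .nil)))))))))))))) (.nd (.nd .leaf (nat_lit 25606) (nat_lit 289) (.p (nat_lit 171) (nat_lit 1) .z) .df .leaf) (nat_lit 25614) (nat_lit 551) (.p (nat_lit 212) (nat_lit 2) (.n (nat_lit 213) (nat_lit 3) (.n (nat_lit 215) (nat_lit 1) (.n (nat_lit 216) (nat_lit 2) (.p (nat_lit 218) (nat_lit 2) (.n (nat_lit 219) (nat_lit 2) (.n (nat_lit 221) (nat_lit 1) (.p (nat_lit 222) (nat_lit 3) (.p (nat_lit 223) (nat_lit 3) (.p (nat_lit 224) (nat_lit 1) (.p (nat_lit 227) (nat_lit 3) (.p (nat_lit 228) (nat_lit 3) (.p (nat_lit 229) (nat_lit 2) (.p (nat_lit 230) (nat_lit 1) (.p (nat_lit 231) (nat_lit 2) (.p (nat_lit 232) (nat_lit 2) (.n (nat_lit 233) (nat_lit 3) (.n (nat_lit 234) (nat_lit 2) (.p (nat_lit 235) (nat_lit 2) (.p (nat_lit 236) (nat_lit 2) (.n (nat_lit 237) (nat_lit 2) (.p (nat_lit 239) (nat_lit 2) (.p (nat_lit 240)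 (nat_lit 1) (.p (nat_lit 241) (nat_lit 1) (.p (nat_lit 243) (nat_lit 2) (.n (nat_lit 245) (nat_lit 2) (.n (nat_lit 248) (nat_lit 2) (.n (nat_lit 249) (nat_lit 3) (.n (nat_lit 250) (nat_lit 1) (.p (nat_lit 251) (nat_lit 3) (.p (nat_lit 252) (nat_lit 1) (.n (nat_lit 253) (nat_lit 1) (.n (nat_lit 258) (nat_lit 3) .z))))))))))))))))))))))))))))))))) (.ct dC1a_c547 (nat_lit 1) (nat_lit 2) (.s true (nat_lit 1) (nat_lit 13) (nat_lit 2) (nat_lit 0) (nat_lit 4) true (nat_lit 2) true (nat_lit 10) true (nat_lit 3) true (nat_lit 12) true (nat_lit 14) (.e false (nat_lit 1) (nat_lit 24) (nat_lit 14) (nat_lit 2) (.e false (nat_lit 1) (nat_lit 27) (nat_lit 14) (nat_lit 2) (.e true (nat_lit 1) (nat_lit 73) (nat_lit 4) (nat_lit 10) (.e false (nat_lit 1) (nat_lit 28) (nat_lit 13) (nat_lit 3) (.e false (nat_lit 1) (nat_lit 29) (nat_lit 13) (nat_lit 3) (.e true (nat_lit 1) (nat_lit 30)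 (nat_lit 13) (nat_lit 3) (.e true (nat_lit 1) (nat_lit 116) (nat_lit 2) (nat_lit 12) (.e false (nat_lit 1) (nat_lit 119) (nat_lit 2) (nat_lit 12) (.e true (nat_lit 1) (nat_lit 130) (nat_lit 2) (nat_lit 12) (.e false (nat_lit 1) (nat_lit 158) (nat_lit 0) (nat_lit 14) (.e true (nat_lit 1) (nat_lit 159) (nat_lit 0) (nat_lit 14) (.e false (nat_lit 1) (nat_lit 163) (nat_lit 0) (nat_lit 14) (.u (nat_lit 2) (.n (nat_lit 6) (nat_lit 1) (.p (nat_lit 7) (nat_lit 1) (.n (nat_lit 15) (nat_lit 1) (.n (nat_lit 19) (nat_lit 1) (.p (nat_lit 21) (nat_lit 1) (.n (nat_lit 24) (nat_lit 1) (.n (nat_lit 26) (nat_lit 1) (.n (nat_lit 27) (nat_lit 1) (.p (nat_lit 29) (nat_lit 1) (.p (nat_lit 30) (nat_lit 1) (.n (nat_lit 31) (nat_lit 1) (.p (nat_lit 32) (nat_lit 1) (.p (nat_lit 33) (nat_lit 1) (.n (nat_lit 44) (nat_lit 1) (.p (nat_lit 46) (nat_lit 1) .z))))))))))))))) .nil))))))))))))))) .leaf)))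 (nat_lit 25615) (nat_lit 530) (.p (nat_lit 213) (nat_lit 1) (.p (nat_lit 214) (nat_lit 2) (.p (nat_lit 215) (nat_lit 3) (.n (nat_lit 216) (nat_lit 1) (.p (nat_lit 218) (nat_lit 1) (.n (nat_lit 219) (nat_lit 1) (.n (nat_lit 220) (nat_lit 2) (.n (nat_lit 221) (nat_lit 2) (.n (nat_lit 222) (nat_lit 2) (.n (nat_lit 223) (nat_lit 1) (.p (nat_lit 224) (nat_lit 1) (.p (nat_lit 226) (nat_lit 2) (.p (nat_lit 227) (nat_lit 3) (.n (nat_lit 228) (nat_lit 1) (.n (nat_lit 229) (nat_lit 2) (.p (nat_lit 230) (nat_lit 2) (.p (nat_lit 231) (nat_lit 2) (.n (nat_lit 232) (nat_lit 3) (.p (nat_lit 233) (nat_lit 1) (.p (nat_lit 235) (nat_lit 1) (.n (nat_lit 236) (nat_lit 1) (.p (nat_lit 237) (nat_lit 2) (.p (nat_lit 238) (nat_lit 3) (.p (nat_lit 239) (nat_lit 1) (.n (nat_lit 240) (nat_lit 2) (.n (nat_lit 241) (nat_lit 3) (.n (nat_lit 242) (nat_lit 2) (.n (nat_lit 244) (nat_lit 1) (.p (nat_lit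 249) (nat_lit 1) (.n (nat_lit 250) (nat_lit 2) (.n (nat_lit 251) (nat_lit 1) (.p (nat_lit 252) (nat_lit 2) (.n (nat_lit 253) (nat_lit 2) (.p (nat_lit 258) (nat_lit 1) .z)))))))))))))))))))))))))))))))))) (.ct dC1a_c547 (nat_lit 1) (nat_lit 2) (.s true (nat_lit 1) (nat_lit 15) (nat_lit 3) (nat_lit 2) (nat_lit 1) true (nat_lit 6) true (nat_lit 13) true (nat_lit 2) true (nat_lit 11) true (nat_lit 12) dC1a_i2)) (.nd (.nd (.nd (.nd .leaf (nat_lit 25618) (nat_lit 713) (.n (nat_lit 308) (nat_lit 1) (.p (nat_lit 317) (nat_lit 1) .z)) (.ct dC1a_c292 (nat_lit 1) (nat_lit 0) (.s false (nat_lit 1) (nat_lit 25) (nat_lit 2) (nat_lit 2) (nat_lit 2) true (nat_lit 6) true (nat_lit 10) false (nat_lit 0) true (nat_lit 10) true (nat_lit 10) (.e false (nat_lit 1) (nat_lit 67) (nat_lit 6) (nat_lit 6) (.e true (nat_lit 1) (nat_lit 171) (nat_lit 2) (nat_lit 10) .nil)))) .leaf) (nat_lit 26624)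 (nat_lit 65) (.p (nat_lit 48) (nat_lit 1) (.p (nat_lit 51) (nat_lit 1) (.p (nat_lit 54) (nat_lit 1) .z))) (.ct dC1a_c545 (nat_lit 1) (nat_lit 5) (.s true (nat_lit 1) (nat_lit 4) (nat_lit 1) (nat_lit 1) (nat_lit 0) true (nat_lit 2) true (nat_lit 5) true (nat_lit 1) true (nat_lit 4) true (nat_lit 4) (.e false (nat_lit 1) (nat_lit 11) (nat_lit 3) (nat_lit 2) (.e false (nat_lit 1) (nat_lit 22) (nat_lit 1) (nat_lit 4) (.e false (nat_lit 1) (nat_lit 23) (nat_lit 1) (nat_lit 4) .nil))))) .leaf) (nat_lit 26626) (nat_lit 92) (.p (nat_lit 68) (nat_lit 1) .z) .df (.nd (.nd .leaf (nat_lit 26628) (nat_lit 188) (.p (nat_lit 131) (nat_lit 1) .z) .df .leaf) (nat_lit 26630) (nat_lit 290) (.p (nat_lit 172) (nat_lit 1) .z) .df .leaf)) (nat_lit 26638) (nat_lit 527) (.n (nat_lit 212) (nat_lit 2) (.n (nat_lit 213) (nat_lit 2) (.n (nat_lit 214) (nat_lit 2) (.n (nat_lit 215) (nat_lit 3) (.n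 (nat_lit 217) (nat_lit 3) (.p (nat_lit 218) (nat_lit 3) (.n (nat_lit 219) (nat_lit 3) (.n (nat_lit 220) (nat_lit 1) (.n (nat_lit 222) (nat_lit 3) (.n (nat_lit 223) (nat_lit 2) (.n (nat_lit 224) (nat_lit 3) (.p (nat_lit 226) (nat_lit 1) (.n (nat_lit 227) (nat_lit 2) (.p (nat_lit 230) (nat_lit 1) (.n (nat_lit 232) (nat_lit 3) (.n (nat_lit 233) (nat_lit 2) (.n (nat_lit 234) (nat_lit 1) (.n (nat_lit 235) (nat_lit 3) (.n (nat_lit 236) (nat_lit 1) (.p (nat_lit 237) (nat_lit 1) (.p (nat_lit 238) (nat_lit 3) (.p (nat_lit 239) (nat_lit 1) (.n (nat_lit 240) (nat_lit 2) (.n (nat_lit 241) (nat_lit 3) (.p (nat_lit 249) (nat_lit 1) (.n (nat_lit 250) (nat_lit 2) (.n (nat_lit 251) (nat_lit 1) (.p (nat_lit 252) (nat_lit 2) (.n (nat_lit 253) (nat_lit 1) .z))))))))))))))))))))))))))))) (.ct dC1a_c547 (nat_lit 1) (nat_lit 2) (.s false (nat_lit 1) (nat_lit 14) (nat_lit 1) (nat_lit 4) (nat_lit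 1) false (nat_lit 16) true (nat_lit 13) true (nat_lit 2) true (nat_lit 13) true (nat_lit 10) (.e true (nat_lit 2) (nat_lit 133) (nat_lit 1) (nat_lit 13) (.e true (nat_lit 3) (nat_lit 134) (nat_lit 1) (nat_lit 13) (.e false (nat_lit 2) (nat_lit 135) (nat_lit 1) (nat_lit 13) (.e true (nat_lit 2) (nat_lit 138) (nat_lit 1) (nat_lit 13) (.e false (nat_lit 2) (nat_lit 139) (nat_lit 1) (nat_lit 13) (.e true (nat_lit 3) (nat_lit 140) (nat_lit 1) (nat_lit 13) (.e false (nat_lit 1) (nat_lit 141) (nat_lit 1) (nat_lit 13) (.e false (nat_lit 2) (nat_lit 142) (nat_lit 1) (nat_lit 13) (.e false (nat_lit 1) (nat_lit 143) (nat_lit 1) (nat_lit 13) (.e false (nat_lit 1) (nat_lit 144) (nat_lit 1) (nat_lit 13) (.e true (nat_lit 3) (nat_lit 145) (nat_lit 1) (nat_lit 13) (.e false (nat_lit 2) (nat_lit 146) (nat_lit 1) (nat_lit 13) (.e false (nat_lit 2) (nat_lit 148) (nat_lit 1) (nat_lit 13)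 (.e true (nat_lit 3) (nat_lit 150) (nat_lit 1) (nat_lit 13) (.e false (nat_lit 3) (nat_lit 151) (nat_lit 1) (nat_lit 13) (.e false (nat_lit 2) (nat_lit 152) (nat_lit 1) (nat_lit 13) (.e true (nat_lit 3) (nat_lit 136) (nat_lit 1) (nat_lit 13) (.e true (nat_lit 1) (nat_lit 72) (nat_lit 4) (nat_lit 10) (.u (nat_lit 2) (.n (nat_lit 0) (nat_lit 1) (.p (nat_lit 1) (nat_lit 1) (.n (nat_lit 2) (nat_lit 1) (.p (nat_lit 4) (nat_lit 1) (.n (nat_lit 5) (nat_lit 2) (.n (nat_lit 6) (nat_lit 1) (.p (nat_lit 7) (nat_lit 1) (.n (nat_lit 8) (nat_lit 2) (.p (nat_lit 9) (nat_lit 2) (.p (nat_lit 10) (nat_lit 2) (.p (nat_lit 11) (nat_lit 1) (.p (nat_lit 12) (nat_lit 3) (.p (nat_lit 15) (nat_lit 3) (.p (nat_lit 17) (nat_lit 1) (.n (nat_lit 20) (nat_lit 1) (.p (nat_lit 21) (nat_lit 1) (.p (nat_lit 22) (nat_lit 1) (.n (nat_lit 24) (nat_lit 2) (.n (nat_lit 25) (nat_lit 1) (.n (nat_lit 27) (nat_lit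 2) (.n (nat_lit 28) (nat_lit 1) (.p (nat_lit 29) (nat_lit 1) (.n (nat_lit 30) (nat_lit 1) (.p (nat_lit 31) (nat_lit 1) (.p (nat_lit 32) (nat_lit 1) (.n (nat_lit 36) (nat_lit 1) (.p (nat_lit 169) (nat_lit 1) (.n (nat_lit 171) (nat_lit 1) .z)))))))))))))))))))))))))))) .nil))))))))))))))))))))) (.nd (.nd (.nd .leaf (nat_lit 26639) (nat_lit 532) (.p (nat_lit 212) (nat_lit 1) (.n (nat_lit 213) (nat_lit 1) (.p (nat_lit 214) (nat_lit 2) (.n (nat_lit 215) (nat_lit 2) (.p (nat_lit 216) (nat_lit 2) (.p (nat_lit 217) (nat_lit 2) (.p (nat_lit 218) (nat_lit 2) (.n (nat_lit 219) (nat_lit 2) (.p (nat_lit 220) (nat_lit 1) (.n (nat_lit 221) (nat_lit 2) (.p (nat_lit 222) (nat_lit 1) (.p (nat_lit 223) (nat_lit 3) (.p (nat_lit 224) (nat_lit 3) (.p (nat_lit 226) (nat_lit 2) (.p (nat_lit 227) (nat_lit 2) (.p (nat_lit 229) (nat_lit 3) (.n (nat_lit 232) (nat_lit 1) (.n (nat_lit 233) (nat_lit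 3) (.p (nat_lit 234) (nat_lit 1) (.n (nat_lit 235) (nat_lit 2) (.n (nat_lit 236) (nat_lit 3) (.n (nat_lit 237) (nat_lit 1) (.p (nat_lit 238) (nat_lit 3) (.p (nat_lit 239) (nat_lit 3) (.n (nat_lit 240) (nat_lit 2) (.n (nat_lit 241) (nat_lit 2) (.p (nat_lit 242) (nat_lit 1) (.p (nat_lit 243) (nat_lit 2) (.p (nat_lit 244) (nat_lit 1) (.p (nat_lit 245) (nat_lit 3) (.n (nat_lit 248) (nat_lit 2) (.p (nat_lit 249) (nat_lit 2) (.p (nat_lit 250) (nat_lit 3) (.n (nat_lit 251) (nat_lit 2) (.n (nat_lit 252) (nat_lit 3) (.n (nat_lit 253) (nat_lit 2) (.p (nat_lit 258) (nat_lit 2) (.n (nat_lit 259) (nat_lit 1) .z)))))))))))))))))))))))))))))))))))))) (.ct dC1a_c547 (nat_lit 1) (nat_lit 2) (.s false (nat_lit 1) (nat_lit 15) (nat_lit 0) (nat_lit 1) (nat_lit 5) true (nat_lit 4) true (nat_lit 9) true (nat_lit 2) true (nat_lit 14) true (nat_lit 13) (.e false (nat_lit 1) (nat_lit 35) (nat_lit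 12) (nat_lit 4) (.e false (nat_lit 1) (nat_lit 61) (nat_lit 5) (nat_lit 9) (.e false (nat_lit 1) (nat_lit 24) (nat_lit 15) (nat_lit 2) (.e false (nat_lit 1) (nat_lit 27) (nat_lit 15) (nat_lit 2) (.e true (nat_lit 3) (nat_lit 153) (nat_lit 0) (nat_lit 14) (.e false (nat_lit 2) (nat_lit 154) (nat_lit 0) (nat_lit 14) (.e false (nat_lit 2) (nat_lit 156) (nat_lit 0) (nat_lit 14) (.e false (nat_lit 2) (nat_lit 157) (nat_lit 0) (nat_lit 14) (.e false (nat_lit 2) (nat_lit 158) (nat_lit 0) (nat_lit 14) (.e true (nat_lit 3) (nat_lit 159) (nat_lit 0) (nat_lit 14) (.e false (nat_lit 3) (nat_lit 160) (nat_lit 0) (nat_lit 14) (.e true (nat_lit 3) (nat_lit 161) (nat_lit 0) (nat_lit 14) (.e false (nat_lit 1) (nat_lit 162) (nat_lit 0) (nat_lit 14) (.e true (nat_lit 3) (nat_lit 163) (nat_lit 0) (nat_lit 14) dC1a_i3)))))))))))))))) .leaf) (nat_lit 26642) (nat_lit 714) (.n (nat_lit 309)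 (nat_lit 1) (.p (nat_lit 318) (nat_lit 1) .z)) (.ct dC1a_c292 (nat_lit 1) (nat_lit 0) (.s false (nat_lit 1) (nat_lit 26) (nat_lit 2) (nat_lit 2) (nat_lit 2) true (nat_lit 6) true (nat_lit 10) false (nat_lit 0) true (nat_lit 10) true (nat_lit 10) (.e false (nat_lit 1) (nat_lit 68) (nat_lit 6) (nat_lit 6) (.e true (nat_lit 1) (nat_lit 172) (nat_lit 2) (nat_lit 10) .nil)))) .leaf) (nat_lit 27648) (nat_lit 69) (.p (nat_lit 47) (nat_lit 2) (.p (nat_lit 48) (nat_lit 2) (.p (nat_lit 49) (nat_lit 1) (.n (nat_lit 50) (nat_lit 2) (.n (nat_lit 52) (nat_lit 2) (.n (nat_lit 53) (nat_lit 1) (.p (nat_lit 54) (nat_lit 3) .z))))))) (.ct dC1a_c545 (nat_lit 1) (nat_lit 5) (.s false (nat_lit 1) (nat_lit 3) (nat_lit 0) (nat_lit 1) (nat_lit 2) true (nat_lit 1) true (nat_lit 3) true (nat_lit 2) true (nat_lit 5) true (nat_lit 4) (.e false (nat_lit 1) (nat_lit 8) (nat_lit 4) (nat_lit 1) (.e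 false (nat_lit 1) (nat_lit 19) (nat_lit 2) (nat_lit 3) (.e true (nat_lit 1) (nat_lit 10) (nat_lit 3) (nat_lit 2) (.e true (nat_lit 1) (nat_lit 24) (nat_lit 0) (nat_lit 5) (.e false (nat_lit 1) (nat_lit 26) (nat_lit 0) (nat_lit 5) (.e true (nat_lit 1) (nat_lit 22) (nat_lit 1) (nat_lit 4) .nil)))))))) (.nd (.nd .leaf (nat_lit 27650) (nat_lit 93) (.p (nat_lit 69) (nat_lit 1) .z) .df .leaf) (nat_lit 27652) (nat_lit 203) (.p (nat_lit 107) (nat_lit 1) (.n (nat_lit 108) (nat_lit 1) (.n (nat_lit 109) (nat_lit 1) (.p (nat_lit 110) (nat_lit 1) (.p (nat_lit 112) (nat_lit 3) (.n (nat_lit 114) (nat_lit 3) (.p (nat_lit 115) (nat_lit 1) (.p (nat_lit 116) (nat_lit 1) (.p (nat_lit 119) (nat_lit 3) (.p (nat_lit 120) (nat_lit 2) (.n (nat_lit 121) (nat_lit 3) (.n (nat_lit 123) (nat_lit 3) (.p (nat_lit 124) (nat_lit 3) (.p (nat_lit 125) (nat_lit 2) (.n (nat_lit 126) (nat_lit 1) (.n (nat_lit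 128) (nat_lit 1) (.n (nat_lit 129) (nat_lit 2) .z))))))))))))))))) (.ct dC1a_c546 (nat_lit 1) (nat_lit 6) (.s false (nat_lit 1) (nat_lit 4) (nat_lit 2) (nat_lit 1) (nat_lit 3) true (nat_lit 0) true (nat_lit 7) true (nat_lit 6) true (nat_lit 8) true (nat_lit 9) (.e false (nat_lit 1) (nat_lit 11) (nat_lit 10) (nat_lit 0) (.e false (nat_lit 1) (nat_lit 34) (nat_lit 3) (nat_lit 7) (.e true (nat_lit 1) (nat_lit 24) (nat_lit 4) (nat_lit 6) (.e false (nat_lit 1) (nat_lit 26) (nat_lit 4) (nat_lit 6) (.e true (nat_lit 1) (nat_lit 54) (nat_lit 2) (nat_lit 8) (.e false (nat_lit 1) (nat_lit 56) (nat_lit 1) (nat_lit 9) (.e true (nat_lit 1) (nat_lit 57) (nat_lit 1) (nat_lit 9) (.e true (nat_lit 1) (nat_lit 58) (nat_lit 1) (nat_lit 9) (.u (nat_lit 2) (.n (nat_lit 13) (nat_lit 1) (.p (nat_lit 16) (nat_lit 1) (.n (nat_lit 17) (nat_lit 1) .z))) .nil))))))))))) .leaf))))))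

noncomputable def dC1a_t2 : Tr := (.nd dC1a_t0 (nat_lit 16389) (nat_lit 147) (.n (nat_lit 94) (nat_lit 1) (.n (nat_lit 96) (nat_lit 1) (.p (nat_lit 97) (nat_lit 1) .z))) (.ct dC1a_c35 (nat_lit 1) (nat_lit 1) (.s true (nat_lit 1) (nat_lit 5) (nat_lit 2) (nat_lit 1) (nat_lit 2) true (nat_lit 0) true (nat_lit 2) true (nat_lit 1) true (nat_lit 2) true (nat_lit 3) (.e false (nat_lit 1) (nat_lit 13) (nat_lit 6) (nat_lit 0) (.e true (nat_lit 2) (nat_lit 38) (nat_lit 2) (nat_lit 2) (.e true (nat_lit 1) (nat_lit 37) (nat_lit 2) (nat_lit 2) (.e false (nat_lit 1) (nat_lit 39) (nat_lit 2) (nat_lit 2) (.e true (nat_lit 1) (nat_lit 43) (nat_lit 1) (nat_lit 3) .nil))))))) dC1a_t1)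

noncomputable def dC1a_t3 : Tr := (.nd (.nd (.nd (.nd (.nd (.nd (.nd .leaf (nat_lit 27662) (nat_lit 550) (.p (nat_lit 212) (nat_lit 1) (.n (nat_lit 213) (nat_lit 3) (.n (nat_lit 214) (nat_lit 2) (.p (nat_lit 215) (nat_lit 1) (.p (nat_lit 216) (nat_lit 2) (.p (nat_lit 217) (nat_lit 1) (.n (nat_lit 218) (nat_lit 1) (.p (nat_lit 219) (nat_lit 1) (.n (nat_lit 220) (nat_lit 3) (.n (nat_lit 221) (nat_lit 1) (.p (nat_lit 222) (nat_lit 1) (.p (nat_lit 223) (nat_lit 2) (.p (nat_lit 226) (nat_lit 2) (.n (nat_lit 228) (nat_lit 3) (.p (nat_lit 229) (nat_lit 1) (.n (nat_lit 231) (nat_lit 3) (.n (nat_lit 232) (nat_lit 1) (.p (nat_lit 233) (nat_lit 2) (.p (nat_lit 234) (nat_lit 2) (.n (nat_lit 235) (nat_lit 3) (.n (nat_lit 236) (nat_lit 1) (.n (nat_lit 237) (nat_lit 3) (.n (nat_lit 238) (nat_lit 2) (.n (nat_lit 239) (nat_lit 1) (.p (nat_lit 240) (nat_lit 1) (.p (nat_lit 241) (nat_lit 3) (.p (nat_lit 242) (nat_lit 2) (.n (nat_lit 243) (nat_lit 2) (.p (nat_lit 245) (nat_lit 2) (.p (nat_lit 248) (nat_lit 2) (.n (nat_lit 249) (nat_lit 3) (.n (nat_lit 250) (nat_lit 1) (.p (nat_lit 251) (nat_lit 3) (.p (nat_lit 252) (nat_lit 1) (.p (nat_lit 258) (nat_lit 3) .z))))))))))))))))))))))))))))))))))) (.ct dC1a_c547 (nat_lit 1) (nat_lit 2) (.s false (nat_lit 1) (nat_lit 14) (nat_lit 1) (nat_lit 2) (nat_lit 3) true (nat_lit 6) true (nat_lit 11) true (nat_lit 2) true (nat_lit 13) true (nat_lit 12) (.e false (nat_lit 1) (nat_lit 40) (nat_lit 8) (nat_lit 6) (.e false (nat_lit 1) (nat_lit 85) (nat_lit 3) (nat_lit 11) (.e true (nat_lit 1) (nat_lit 24) (nat_lit 14) (nat_lit 2) (.e false (nat_lit 1) (nat_lit 26) (nat_lit 14) (nat_lit 2) (.e true (nat_lit 1) (nat_lit 132) (nat_lit 1) (nat_lit 13) (.e false (nat_lit 1) (nat_lit 133) (nat_lit 1) (nat_lit 13) (.e true (nat_lit 3) (nat_lit 134) (nat_lit 1) (nat_lit 13) (.e true (nat_lit 1) (nat_lit 135) (nat_lit 1) (nat_lit 13) (.e false (nat_lit 1) (nat_lit 138) (nat_lit 1) (nat_lit 13) (.e true (nat_lit 2) (nat_lit 139) (nat_lit 1) (nat_lit 13) (.e true (nat_lit 1) (nat_lit 141) (nat_lit 1) (nat_lit 13) (.e false (nat_lit 2) (nat_lit 142) (nat_lit 1) (nat_lit 13) (.e true (nat_lit 1) (nat_lit 147) (nat_lit 1) (nat_lit 13) (.e false (nat_lit 1) (nat_lit 151) (nat_lit 1) (nat_lit 13) (.e true (nat_lit 1) (nat_lit 116) (nat_lit 2) (nat_lit 12) (.e false (nat_lit 2) (nat_lit 117) (nat_lit 2) (nat_lit 12) (.e false (nat_lit 1) (nat_lit 118) (nat_lit 2) (nat_lit 12) (.e false (nat_lit 1) (nat_lit 122) (nat_lit 2) (nat_lit 12) (.e true (nat_lit 1) (nat_lit 124) (nat_lit 2) (nat_lit 12) (.u (nat_lit 2) (.n (nat_lit 1) (nat_lit 2) (.p (nat_lit 4) (nat_lit 1) (.n (nat_lit 5) (nat_lit 1) (.p (nat_lit 6) (nat_lit 2) (.n (nat_lit 7) (nat_lit 1) (.p (nat_lit 8) (nat_lit 1) (.p (nat_lit 10) (nat_lit 1) (.n (nat_lit 11) (nat_lit 2) (.p (nat_lit 12) (nat_lit 1) (.n (nat_lit 17) (nat_lit 1) (.p (nat_lit 19) (nat_lit 1) (.n (nat_lit 20) (nat_lit 1) (.n (nat_lit 21) (nat_lit 2) (.n (nat_lit 25) (nat_lit 1) (.p (nat_lit 26) (nat_lit 1) (.n (nat_lit 29) (nat_lit 1) (.n (nat_lit 30) (nat_lit 1) (.p (nat_lit 34) (nat_lit 1) (.n (nat_lit 35) (nat_lit 1) (.n (nat_lit 36) (nat_lit 1) (.n (nat_lit 39) (nat_lit 1) .z))))))))))))))))))))) .nil)))))))))))))))))))))) .leaf) (nat_lit 27663) (nat_lit 531) (.p (nat_lit 212) (nat_lit 1) (.p (nat_lit 213) (nat_lit 2) (.p (nat_lit 214) (nat_lit 3) (.p (nat_lit 215) (nat_lit 3) (.n (nat_lit 216) (nat_lit 3) (.p (nat_lit 217) (nat_lit 1) (.p (nat_lit 218) (nat_lit 2) (.n (nat_lit 219) (nat_lit 2) (.p (nat_lit 220) (nat_lit 3) (.p (nat_lit 221) (nat_lit 2) (.p (nat_lit 222) (nat_lit 2) (.n (nat_lit 223) (nat_lit 1) (.p (nat_lit 224) (nat_lit 1) (.p (nat_lit 226) (nat_lit 1) (.p (nat_lit 227) (nat_lit 3) (.p (nat_lit 228) (nat_lit 1) (.n (nat_lit 229) (nat_lit 3) (.p (nat_lit 231) (nat_lit 3) (.n (nat_lit 233) (nat_lit 2) (.p (nat_lit 234) (nat_lit 2) (.p (nat_lit 237) (nat_lit 1) (.n (nat_lit 239) (nat_lit 3) (.p (nat_lit 240) (nat_lit 2) (.p (nat_lit 241) (nat_lit 2) (.n (nat_lit 242) (nat_lit 3) (.p (nat_lit 243) (nat_lit 1) (.p (nat_lit 244) (nat_lit 3) (.n (nat_lit 245) (nat_lit 1) (.n (nat_lit 248) (nat_lit 1) (.p (nat_lit 249) (nat_lit 1) (.n (nat_lit 250) (nat_lit 2) (.n (nat_lit 251) (nat_lit 1) (.p (nat_lit 252) (nat_lit 2) (.p (nat_lit 258) (nat_lit 1) (.n (nat_lit 259) (nat_lit 1) .z))))))))))))))))))))))))))))))))))) (.ct dC1a_c547 (nat_lit 1) (nat_lit 2) (.s false (nat_lit 1) (nat_lit 13) (nat_lit 6) (nat_lit 0) (nat_lit 0) true (nat_lit 2) true (nat_lit 14) true (nat_lit 3) true (nat_lit 8) true (nat_lit 14) (.e true (nat_lit 1) (nat_lit 24) (nat_lit 15) (nat_lit 2) (.e false (nat_lit 1) (nat_lit 25) (nat_lit 15) (nat_lit 2) (.e false (nat_lit 1) (nat_lit 153) (nat_lit 0) (nat_lit 14) (.e true (nat_lit 1) (nat_lit 154) (nat_lit 0) (nat_lit 14) (.e false (nat_lit 2) (nat_lit 155) (nat_lit 0) (nat_lit 14) (.e true (nat_lit 2) (nat_lit 156) (nat_lit 0) (nat_lit 14) (.e false (nat_lit 3) (nat_lit 157) (nat_lit 0) (nat_lit 14) (.e false (nat_lit 1) (nat_lit 159) (nat_lit 0) (nat_lit 14) (.e true (nat_lit 1) (nat_lit 160) (nat_lit 0) (nat_lit 14) (.e false (nat_lit 3) (nat_lit 161) (nat_lit 0) (nat_lit 14) (.e true (nat_lit 2) (nat_lit 163) (nat_lit 0) (nat_lit 14) (.e true (nat_lit 2) (nat_lit 165) (nat_lit 0) (nat_lit 14) (.e false (nat_lit 1) (nat_lit 168) (nat_lit 0) (nat_lit 14) (.e false (nat_lit 3) (nat_lit 170) (nat_lit 0) (nat_lit 14) (.e true (nat_lit 1) (nat_lit 171) (nat_lit 0) (nat_lit 14) (.e true (nat_lit 3) (nat_lit 162) (nat_lit 0) (nat_lit 14) (.e false (nat_lit 2) (nat_lit 167) (nat_lit 0) (nat_lit 14) (.e false (nat_lit 3) (nat_lit 164) (nat_lit 0) (nat_lit 14) (.e false (nat_lit 2) (nat_lit 169) (nat_lit 0) (nat_lit 14) (.e false (nat_lit 1) (nat_lit 30) (nat_lit 13) (nat_lit 3) (.e true (nat_lit 1) (nat_lit 172) (nat_lit 0) (nat_lit 14) (.u (nat_lit 2) (.n (nat_lit 8) (nat_lit 1) (.n (nat_lit 9) (nat_lit 1) (.p (nat_lit 11) (nat_lit 1) (.n (nat_lit 12) (nat_lit 1) (.p (nat_lit 14) (nat_lit 1) (.p (nat_lit 27) (nat_lit 1) (.n (nat_lit 28) (nat_lit 1) (.n (nat_lit 29) (nat_lit 1) (.n (nat_lit 32) (nat_lit 1) (.n (nat_lit 182) (nat_lit 1) (.n (nat_lit 190) (nat_lit 1) (.p (nat_lit 191) (nat_lit 1) (.p (nat_lit 194) (nat_lit 1) (.n (nat_lit 195) (nat_lit 1) (.p (nat_lit 197) (nat_lit 1) .z))))))))))))))) .nil)))))))))))))))))))))))) (.nd .leaf (nat_lit 27666) (nat_lit 734) (.p (nat_lit 290) (nat_lit 1) (.p (nat_lit 291) (nat_lit 1) (.p (nat_lit 292) (nat_lit 2) (.n (nat_lit 293) (nat_lit 2) (.n (nat_lit 294) (nat_lit 3) (.p (nat_lit 298) (nat_lit 1) (.p (nat_lit 299) (nat_lit 1) (.n (nat_lit 301) (nat_lit 1) (.n (nat_lit 304) (nat_lit 2) (.p (nat_lit 308) (nat_lit 1) (.n (nat_lit 309) (nat_lit 1) (.n (nat_lit 310) (nat_lit 1) (.p (nat_lit 316) (nat_lit 3) (.n (nat_lit 317) (nat_lit 3) (.p (nat_lit 318) (nat_lit 1) .z))))))))))))))) (.ct dC1a_c292 (nat_lit 1) (nat_lit 0) (.s false (nat_lit 1) (nat_lit 27) (nat_lit 2) (nat_lit 2) (nat_lit 2) true (nat_lit 6) true (nat_lit 10) false (nat_lit 0) true (nat_lit 10) true (nat_lit 10) (.e false (nat_lit 1) (nat_lit 69) (nat_lit 6) (nat_lit 6) (.e true (nat_lit 1) (nat_lit 156) (nat_lit 2) (nat_lit 10) (.e true (nat_lit 2) (nat_lit 153) (nat_lit 2) (nat_lit 10) (.e true (nat_lit 2) (nat_lit 154) (nat_lit 2) (nat_lit 10) (.e false (nat_lit 1) (nat_lit 155) (nat_lit 2) (nat_lit 10) (.e true (nat_lit 1) (nat_lit 157) (nat_lit 2) (nat_lit 10) (.e true (nat_lit 1) (nat_lit 162) (nat_lit 2) (nat_lit 10) (.e false (nat_lit 1) (nat_lit 167) (nat_lit 2) (nat_lit 10) (.e false (nat_lit 2) (nat_lit 170) (nat_lit 2) (nat_lit 10) (.e true (nat_lit 1) (nat_lit 172) (nat_lit 2) (nat_lit 10) (.e true (nat_lit 1) (nat_lit 173) (nat_lit 2) (nat_lit 10) .nil))))))))))))) .leaf)) (nat_lit 28673) (nat_lit 74) (.p (nat_lit 59) (nat_lit 1) .z) .df (.nd (.nd .leaf (nat_lit 28674) (nat_lit 110) (.p (nat_lit 77) (nat_lit 1) .z) .df .leaf) (nat_lit 28677) (nat_lit 239) (.p (nat_lit 152) (nat_lit 1) .z) .df .leaf)) (nat_lit 28678) (nat_lit 337) (.n (nat_lit 175) (nat_lit 2) (.p (nat_lit 176) (nat_lit 3) (.n (nat_lit 177) (nat_lit 3) (.n (nat_lit 178) (nat_lit 1) (.p (nat_lit 179) (nat_lit 1) .z))))) (.ct dC1a_c516 (nat_lit 1) (nat_lit 2) (.s false (nat_lit 1) (nat_lit 6) (nat_lit 0) (nat_lit 4) (nat_lit 2) true (nat_lit 3) true (nat_lit 4) true (nat_lit 2) true (nat_lit 5) true (nat_lit 3) (.e true (nat_lit 1) (nat_lit 41) (nat_lit 4) (nat_lit 3) (.e false (nat_lit 2) (nat_lit 77) (nat_lit 2) (nat_lit 4) (.e false (nat_lit 2) (nat_lit 78) (nat_lit 2) (nat_lit 4) (.e true (nat_lit 1) (nat_lit 79) (nat_lit 2) (nat_lit 4) (.e true (nat_lit 1) (nat_lit 81) (nat_lit 2) (nat_lit 4) (.e false (nat_lit 1) (nat_lit 101) (nat_lit 0) (nat_lit 5) (.u (nat_lit 2) (.n (nat_lit 2) (nat_lit 1) (.p (nat_lit 3) (nat_lit 1) .z)) .nil))))))))) (.nd (.nd (.nd .leaf (nat_lit 28685) (nat_lit 467) (.n (nat_lit 236) (nat_lit 1) (.p (nat_lit 243) (nat_lit 1) (.n (nat_lit 257) (nat_lit 1) .z))) (.ct dC1a_c547 (nat_lit 1) (nat_lit 3) (.s false (nat_lit 1) (nat_lit 28) (nat_lit 2) (nat_lit 1) (nat_lit 1) true (nat_lit 9) true (nat_lit 13) false (nat_lit 3) true (nat_lit 12) true (nat_lit 13) (.e true (nat_lit 1) (nat_lit 59) (nat_lit 5) (nat_lit 9) (.e false (nat_lit 1) (nat_lit 143) (nat_lit 1) (nat_lit 13) (.e true (nat_lit 1) (nat_lit 136) (nat_lit 1) (nat_lit 13) .nil))))) .leaf) (nat_lit 28688) (nat_lit 640) (.n (nat_lit 261) (nat_lit 1) (.p (nat_lit 262) (nat_lit 2) (.p (nat_lit 264) (nat_lit 2) (.p (nat_lit 265) (nat_lit 3) (.p (nat_lit 266) (nat_lit 1) (.n (nat_lit 267) (nat_lit 3) (.p (nat_lit 268) (nat_lit 3) (.p (nat_lit 269) (nat_lit 2) (.n (nat_lit 270) (nat_lit 2) (.p (nat_lit 271) (nat_lit 2) (.p (nat_lit 272) (nat_lit 2) (.n (nat_lit 273) (nat_lit 1) (.n (nat_lit 277) (nat_lit 1) (.p (nat_lit 278) (nat_lit 1) (.n (nat_lit 279) (nat_lit 2) (.n (nat_lit 280) (nat_lit 2) (.p (nat_lit 281) (nat_lit 1) (.p (nat_lit 286) (nat_lit 3) (.n (nat_lit 287) (nat_lit 2) (.n (nat_lit 288) (nat_lit 1) .z)))))))))))))))))))) (.ct dC1a_c532 (nat_lit 1) (nat_lit 1) (.s true (nat_lit 1) (nat_lit 28) (nat_lit 1) (nat_lit 2) (nat_lit 2) true (nat_lit 7) true (nat_lit 10) false (nat_lit 1) true (nat_lit 11) true (nat_lit 10) (.e true (nat_lit 1) (nat_lit 77) (nat_lit 5) (nat_lit 7) (.e true (nat_lit 1) (nat_lit 136) (nat_lit 2) (nat_lit 10) (.e true (nat_lit 2) (nat_lit 175) (nat_lit 1) (nat_lit 11) (.e false (nat_lit 3) (nat_lit 176) (nat_lit 1) (nat_lit 11) (.e true (nat_lit 3) (nat_lit 177) (nat_lit 1) (nat_lit 11) (.e true (nat_lit 1) (nat_lit 178) (nat_lit 1) (nat_lit 11) (.e false (nat_lit 1) (nat_lit 179) (nat_lit 1) (nat_lit 11) (.e true (nat_lit 1) (nat_lit 143) (nat_lit 2) (nat_lit 10) (.u (nat_lit 2) (.p (nat_lit 1) (nat_lit 1) (.p (nat_lit 2) (nat_lit 1) (.n (nat_lit 3) (nat_lit 1) (.n (nat_lit 5) (nat_lit 1) (.n (nat_lit 6) (nat_lit 1) (.n (nat_lit 7) (nat_lit 1) (.p (nat_lit 8) (nat_lit 1) (.p (nat_lit 9) (nat_lit 1) (.n (nat_lit 12) (nat_lit 1) (.p (nat_lit 18) (nat_lit 2) (.p (nat_lit 19) (nat_lit 1) (.n (nat_lit 20) (nat_lit 2) (.p (nat_lit 22) (nat_lit 2) (.n (nat_lit 26) (nat_lit 1) (.p (nat_lit 28) (nat_lit 1) (.n (nat_lit 29) (nat_lit 2) .z)))))))))))))))) .nil))))))))))) .leaf) (nat_lit 28689) (nat_lit 606) (.n (nat_lit 264) (nat_lit 1) (.p (nat_lit 280) (nat_lit 1) (.p (nat_lit 281) (nat_lit 1) (.p (nat_lit 289) (nat_lit 1) .z)))) (.ct dC1a_c532 (nat_lit 1) (nat_lit 1) (.s false (nat_lit 1) (nat_lit 28) (nat_lit 2) (nat_lit 2) (nat_lit 1) true (nat_lit 7) true (nat_lit 11) false (nat_lit 1) true (nat_lit 10) true (nat_lit 10) (.e false (nat_lit 1) (nat_lit 77) (nat_lit 5) (nat_lit 7) (.e false (nat_lit 1) (nat_lit 174) (nat_lit 1) (nat_lit 11) (.e false (nat_lit 1) (nat_lit 152) (nat_lit 2) (nat_lit 10) (.e true (nat_lit 1) (nat_lit 136) (nat_lit 2) (nat_lit 10) .nil)))))) (.nd (.nd .leaf (nat_lit 28690) (nat_lit 799) (.p (nat_lit 321) (nat_lit 2) (.n (nat_lit 322) (nat_lit 3) (.p (nat_lit 323) (nat_lit 3) (.p (nat_lit 324) (nat_lit 1) (.n (nat_lit 325) (nat_lit 1) (.p (nat_lit 326) (nat_lit 1) .z)))))) (.ct dC1a_c517 (nat_lit 1) (nat_lit 0) (.s false (nat_lit 1) (nat_lit 9) (nat_lit 2) (nat_lit 2) (nat_lit 6) true (nat_lit 0) true (nat_lit 3) true (nat_lit 2) true (nat_lit 5) true (nat_lit 5) (.e false (nat_lit 1) (nat_lit 77) (nat_lit 6) (nat_lit 3) (.e false (nat_lit 2) (nat_lit 175) (nat_lit 2) (nat_lit 5) (.e true (nat_lit 3) (nat_lit 176) (nat_lit 2) (nat_lit 5) (.e false (nat_lit 1) (nat_lit 178) (nat_lit 2) (nat_lit 5) (.e true (nat_lit 1) (nat_lit 179) (nat_lit 2) (nat_lit 5) (.e false (nat_lit 3) (nat_lit 177) (nat_lit 2) (nat_lit 5) (.u (nat_lit 2) (.n (nat_lit 28) (nat_lit 1) .z) .nil))))))))) .leaf) (nat_lit 29697) (nat_lit 75) (.p (nat_lit 60) (nat_lit 1) .z) .df .leaf))) (nat_lit 29698) (nat_lit 111) (.p (nat_lit 78) (nat_lit 1) .z) .df (.nd (.nd (.nd (.nd .leaf (nat_lit 29701) (nat_lit 247) (.p (nat_lit 132) (nat_lit 1) (.p (nat_lit 133) (nat_lit 1) (.p (nat_lit 134) (nat_lit 1) (.n (nat_lit 135) (nat_lit 1) (.p (nat_lit 136) (nat_lit 3) (.n (nat_lit 137) (nat_lit 2) (.n (nat_lit 138) (nat_lit 2) (.n (nat_lit 139) (nat_lit 1) (.n (nat_lit 140) (nat_lit 2) (.p (nat_lit 141) (nat_lit 3) (.n (nat_lit 142) (nat_lit 2) (.p (nat_lit 143) (nat_lit 2) (.n (nat_lit 144) (nat_lit 1) (.n (nat_lit 145) (nat_lit 3) (.p (nat_lit 146) (nat_lit 2) (.p (nat_lit 150) (nat_lit 1) (.p (nat_lit 151) (nat_lit 1) (.n (nat_lit 152) (nat_lit 3) .z)))))))))))))))))) (.ct dC1a_c531 (nat_lit 1) (nat_lit 4) (.s false (nat_lit 1) (nat_lit 14) (nat_lit 2) (nat_lit 0) (nat_lit 1) true (nat_lit 4) true (nat_lit 8) false (nat_lit 0) true (nat_lit 7) true (nat_lit 9) (.e false (nat_lit 1) (nat_lit 80) (nat_lit 1) (nat_lit 8) (.e true (nat_lit 1) (nat_lit 14) (nat_lit 11) (nat_lit 0) (.e false (nat_lit 1) (nat_lit 56) (nat_lit 2) (nat_lit 7) (.e true (nat_lit 2) (nat_lit 57) (nat_lit 2) (nat_lit 7) (.e true (nat_lit 1) (nat_lit 58) (nat_lit 2) (nat_lit 7) (.e true (nat_lit 1) (nat_lit 62) (nat_lit 2) (nat_lit 7) (.e false (nat_lit 1) (nat_lit 65) (nat_lit 2) (nat_lit 7) (.e true (nat_lit 1) (nat_lit 85) (nat_lit 0) (nat_lit 9) (.u (nat_lit 2) (.n (nat_lit 2) (nat_lit 1) (.n (nat_lit 4) (nat_lit 1) (.p (nat_lit 5) (nat_lit 1) .z))) .nil))))))))))) .leaf) (nat_lit 29702) (nat_lit 332) (.p (nat_lit 174) (nat_lit 1) (.n (nat_lit 175) (nat_lit 2) (.n (nat_lit 176) (nat_lit 3) (.n (nat_lit 177) (nat_lit 2) (.p (nat_lit 178) (nat_lit 1) (.n (nat_lit 179) (nat_lit 2) .z)))))) (.ct dC1a_c516 (nat_lit 1) (nat_lit 2) (.s false (nat_lit 1) (nat_lit 14) (nat_lit 2) (nat_lit 0) (nat_lit 2) true (nat_lit 2) true (nat_lit 4) true (nat_lit 0) true (nat_lit 4) true (nat_lit 5) (.a true (nat_lit 3) (nat_lit 14) (nat_lit 14) (nat_lit 0) (nat_lit 0) (.e false (nat_lit 2) (nat_lit 80) (nat_lit 2) (nat_lit 4) (.e false (nat_lit 1) (nat_lit 78) (nat_lit 2) (nat_lit 4) (.e true (nat_lit 1) (nat_lit 81) (nat_lit 2) (nat_lit 4) (.e false (nat_lit 1) (nat_lit 98) (nat_lit 0) (nat_lit 5) (.u (nat_lit 2) (.p (nat_lit 3) (nat_lit 1) (.p (nat_lit 6) (nat_lit 1) .z)) .nil)))))))) .leaf) (nat_lit 29709) (nat_lit 469) (.n (nat_lit 237) (nat_lit 1) (.p (nat_lit 244) (nat_lit 1) (.n (nat_lit 258) (nat_lit 1) .z))) (.ct dC1a_c547 (nat_lit 1) (nat_lit 3) (.s false (nat_lit 1) (nat_lit 29) (nat_lit 2) (nat_lit 1) (nat_lit 1) true (nat_lit 9) true (nat_lit 13) false (nat_lit 3) true (nat_lit 12) true (nat_lit 13) (.e true (nat_lit 1) (nat_lit 60) (nat_lit 5) (nat_lit 9) (.e false (nat_lit 1) (nat_lit 144) (nat_lit 1) (nat_lit 13) (.e true (nat_lit 1) (nat_lit 137) (nat_lit 1) (nat_lit 13) .nil))))) (.nd (.nd .leaf (nat_lit 29712) (nat_lit 666) (.p (nat_lit 260) (nat_lit 3) (.p (nat_lit 261) (nat_lit 3) (.p (nat_lit 262) (nat_lit 3) (.n (nat_lit 263) (nat_lit 3) (.n (nat_lit 264) (nat_lit 1) (.p (nat_lit 265) (nat_lit 2) (.n (nat_lit 266) (nat_lit 2) (.p (nat_lit 268) (nat_lit 2) (.n (nat_lit 270) (nat_lit 3) (.n (nat_lit 272) (nat_lit 1) (.p (nat_lit 273) (nat_lit 3) (.n (nat_lit 274) (nat_lit 3) (.p (nat_lit 277) (nat_lit 1) (.n (nat_lit 279) (nat_lit 1) (.n (nat_lit 280) (nat_lit 2) (.p (nat_lit 282) (nat_lit 1) (.p (nat_lit 286) (nat_lit 1) (.n (nat_lit 287) (nat_lit 1) (.p (nat_lit 288) (nat_lit 1) .z))))))))))))))))))) (.ct dC1a_c532 (nat_lit 1) (nat_lit 1) (.s true (nat_lit 1) (nat_lit 29) (nat_lit 1) (nat_lit 2) (nat_lit 2) true (nat_lit 7) true (nat_lit 10) false (nat_lit 1) true (nat_lit 11) true (nat_lit 10) (.e true (nat_lit 1) (nat_lit 78) (nat_lit 5) (nat_lit 7) (.e true (nat_lit 1) (nat_lit 137) (nat_lit 2) (nat_lit 10) (.e false (nat_lit 1) (nat_lit 174) (nat_lit 1) (nat_lit 11) (.e true (nat_lit 2) (nat_lit 175) (nat_lit 1) (nat_lit 11) (.e true (nat_lit 3) (nat_lit 176) (nat_lit 1) (nat_lit 11) (.e true (nat_lit 2) (nat_lit 177) (nat_lit 1) (nat_lit 11) (.e false (nat_lit 1) (nat_lit 178) (nat_lit 1) (nat_lit 11) (.e true (nat_lit 2) (nat_lit 179) (nat_lit 1) (nat_lit 11) (.e true (nat_lit 1) (nat_lit 144) (nat_lit 2) (nat_lit 10) (.u (nat_lit 2) (.p (nat_lit 0) (nat_lit 1) (.n (nat_lit 1) (nat_lit 2) (.n (nat_lit 2) (nat_lit 4) (.p (nat_lit 3) (nat_lit 1) (.p (nat_lit 4) (nat_lit 2) (.n (nat_lit 5) (nat_lit 1) (.p (nat_lit 6) (nat_lit 4) (.p (nat_lit 10) (nat_lit 1) (.n (nat_lit 11) (nat_lit 1) (.n (nat_lit 13) (nat_lit 1) (.n (nat_lit 18) (nat_lit 1) (.p (nat_lit 19) (nat_lit 2) (.p (nat_lit 20) (nat_lit 1) (.n (nat_lit 21) (nat_lit 1) (.n (nat_lit 22) (nat_lit 1) (.p (nat_lit 27) (nat_lit 1) (.p (nat_lit 28) (nat_lit 1) .z))))))))))))))))) .nil)))))))))))) .leaf) (nat_lit 29713) (nat_lit 665) (.n (nat_lit 260) (nat_lit 2) (.p (nat_lit 261) (nat_lit 3) (.n (nat_lit 262) (nat_lit 3) (.p (nat_lit 264) (nat_lit 2) (.n (nat_lit 265) (nat_lit 1) (.p (nat_lit 266) (nat_lit 3) (.n (nat_lit 267) (nat_lit 3) (.n (nat_lit 268) (nat_lit 1) (.p (nat_lit 269) (nat_lit 2) (.n (nat_lit 270) (nat_lit 3) (.p (nat_lit 271) (nat_lit 1) (.p (nat_lit 272) (nat_lit 1) (.n (nat_lit 274) (nat_lit 2) (.n (nat_lit 277) (nat_lit 2) (.n (nat_lit 279) (nat_lit 1) (.n (nat_lit 280) (nat_lit 1) (.p (nat_lit 281) (nat_lit 1) (.p (nat_lit 282) (nat_lit 2) (.p (nat_lit 286) (nat_lit 1) (.n (nat_lit 287) (nat_lit 1) (.p (nat_lit 288) (nat_lit 2) (.n (nat_lit 289) (nat_lit 1) .z)))))))))))))))))))))) (.ct dC1a_c532 (nat_lit 1) (nat_lit 1) (.s false (nat_lit 1) (nat_lit 29) (nat_lit 2) (nat_lit 2) (nat_lit 1) true (nat_lit 7) true (nat_lit 11) false (nat_lit 1) true (nat_lit 10) true (nat_lit 10) (.e false (nat_lit 1) (nat_lit 78) (nat_lit 5) (nat_lit 7) (.e false (nat_lit 1) (nat_lit 175) (nat_lit 1) (nat_lit 11) (.e false (nat_lit 1) (nat_lit 132) (nat_lit 2) (nat_lit 10) (.e false (nat_lit 1) (nat_lit 133) (nat_lit 2) (nat_lit 10) (.e false (nat_lit 1) (nat_lit 134) (nat_lit 2) (nat_lit 10) (.e true (nat_lit 1) (nat_lit 135) (nat_lit 2) (nat_lit 10) (.e false (nat_lit 3) (nat_lit 136) (nat_lit 2) (nat_lit 10) (.e true (nat_lit 3) (nat_lit 137) (nat_lit 2) (nat_lit 10) (.e true (nat_lit 2) (nat_lit 138) (nat_lit 2) (nat_lit 10) (.e true (nat_lit 1) (nat_lit 139) (nat_lit 2) (nat_lit 10) (.e true (nat_lit 2) (nat_lit 140) (nat_lit 2) (nat_lit 10) (.e false (nat_lit 3) (nat_lit 141) (nat_lit 2) (nat_lit 10) (.e true (nat_lit 2) (nat_lit 142) (nat_lit 2) (nat_lit 10) (.e false (nat_lit 2) (nat_lit 143) (nat_lit 2) (nat_lit 10) (.e true (nat_lit 1) (nat_lit 144) (nat_lit 2) (nat_lit 10) (.e true (nat_lit 3) (nat_lit 145) (nat_lit 2) (nat_lit 10) (.e false (nat_lit 2) (nat_lit 146) (nat_lit 2) (nat_lit 10) (.e false (nat_lit 1) (nat_lit 150) (nat_lit 2) (nat_lit 10) (.e false (nat_lit 1) (nat_lit 151) (nat_lit 2) (nat_lit 10) (.e true (nat_lit 3) (nat_lit 152) (nat_lit 2) (nat_lit 10) (.u (nat_lit 2) (.p (nat_lit 2) (nat_lit 1) (.n (nat_lit 6) (nat_lit 1) (.p (nat_lit 14) (nat_lit 1) .z))) .nil))))))))))))))))))))))) .leaf)) (nat_lit 29714) (nat_lit 807) (.n (nat_lit 320) (nat_lit 3) (.p (nat_lit 321) (nat_lit 2) (.p (nat_lit 322) (nat_lit 3) (.p (nat_lit 323) (nat_lit 3) (.n (nat_lit 324) (nat_lit 2) (.n (nat_lit 325) (nat_lit 2) (.n (nat_lit 326) (nat_lit 1) .z))))))) (.ct dC1a_c517 (nat_lit 1) (nat_lit 0) (.s false (nat_lit 1) (nat_lit 29) (nat_lit 2) (nat_lit 2) (nat_lit 2) true (nat_lit 3) true (nat_lit 5) false (nat_lit 0) true (nat_lit 5) true (nat_lit 5) (.e false (nat_lit 1) (nat_lit 78) (nat_lit 6) (nat_lit 3) (.e false (nat_lit 2) (nat_lit 175) (nat_lit 2) (nat_lit 5) (.e true (nat_lit 1) (nat_lit 174) (nat_lit 2) (nat_lit 5) (.e false (nat_lit 3) (nat_lit 176) (nat_lit 2) (nat_lit 5) (.e false (nat_lit 2) (nat_lit 177) (nat_lit 2) (nat_lit 5) (.e true (nat_lit 1) (nat_lit 178) (nat_lit 2) (nat_lit 5) (.e false (nat_lit 2) (nat_lit 179) (nat_lit 2) (nat_lit 5) (.u (nat_lit 2) (.p (nat_lit 5) (nat_lit 1) .z) .nil)))))))))) (.nd (.nd (.nd .leaf (nat_lit 30721) (nat_lit 76) (.p (nat_lit 61) (nat_lit 1) .z) .df .leaf) (nat_lit 30722) (nat_lit 112) (.p (nat_lit 79) (nat_lit 1) .z) .df .leaf) (nat_lit 30725) (nat_lit 268) (.p (nat_lit 132) (nat_lit 2) (.n (nat_lit 134) (nat_lit 3) (.n (nat_lit 135) (nat_lit 2) (.p (nat_lit 136) (nat_lit 2) (.n (nat_lit 137) (nat_lit 2) (.n (nat_lit 138) (nat_lit 3) (.p (nat_lit 139) (nat_lit 3) (.n (nat_lit 140) (nat_lit 1) (.n (nat_lit 141) (nat_lit 2) (.p (nat_lit 142) (nat_lit 3) (.p (nat_lit 143) (nat_lit 1) (.p (nat_lit 144) (nat_lit 2) (.p (nat_lit 149) (nat_lit 3) (.n (nat_lit 150) (nat_lit 2) (.n (nat_lit 151) (nat_lit 1) (.n (nat_lit 152) (nat_lit 1) .z)))))))))))))))) (.ct dC1a_c531 (nat_lit 1) (nat_lit 4) (.s false (nat_lit 1) (nat_lit 15) (nat_lit 2) (nat_lit 0) (nat_lit 1) true (nat_lit 4) true (nat_lit 8) false (nat_lit 0) true (nat_lit 7) true (nat_lit 9) (.e false (nat_lit 1) (nat_lit 81) (nat_lit 1) (nat_lit 8) (.e true (nat_lit 1) (nat_lit 15) (nat_lit 11) (nat_lit 0) (.e false (nat_lit 2) (nat_lit 55) (nat_lit 2) (nat_lit 7) (.e true (nat_lit 2) (nat_lit 56) (nat_lit 2) (nat_lit 7) (.e true (nat_lit 3) (nat_lit 57) (nat_lit 2) (nat_lit 7) (.e false (nat_lit 2) (nat_lit 58) (nat_lit 2) (nat_lit 7) (.e true (nat_lit 1) (nat_lit 61) (nat_lit 2) (nat_lit 7) (.e false (nat_lit 1) (nat_lit 64) (nat_lit 2) (nat_lit 7) (.e true (nat_lit 2) (nat_lit 65) (nat_lit 2) (nat_lit 7) (.e true (nat_lit 1) (nat_lit 86) (nat_lit 0) (nat_lit 9) (.u (nat_lit 2) (.p (nat_lit 5) (nat_lit 1) (.p (nat_lit 6) (nat_lit 1) (.n (nat_lit 17) (nat_lit 1) .z))) .nil))))))))))))) (.nd (.nd .leaf (nat_lit 30726) (nat_lit 335) (.p (nat_lit 174) (nat_lit 3) (.n (nat_lit 175) (nat_lit 3) (.p (nat_lit 176) (nat_lit 1) (.p (nat_lit 177) (nat_lit 1) (.n (nat_lit 179) (nat_lit 3) .z))))) (.ct dC1a_c516 (nat_lit 1) (nat_lit 2) (.s true (nat_lit 1) (nat_lit 6) (nat_lit 0) (nat_lit 0) (nat_lit 6) true (nat_lit 0) true (nat_lit 2) true (nat_lit 2) true (nat_lit 5) true (nat_lit 5) (.a false (nat_lit 3) (nat_lit 15) (nat_lit 15) (nat_lit 0) (nat_lit 0) (.e false (nat_lit 2) (nat_lit 99) (nat_lit 0) (nat_lit 5) (.e false (nat_lit 2) (nat_lit 100) (nat_lit 0) (nat_lit 5) (.u (nat_lit 2) (.n (nat_lit 0) (nat_lit 1) (.p (nat_lit 1) (nat_lit 1) (.n (nat_lit 2) (nat_lit 1) (.n (nat_lit 3) (nat_lit 1) (.n (nat_lit 5) (nat_lit 1) (.n (nat_lit 9) (nat_lit 1) .z)))))) .nil)))))) .leaf) (nat_lit 30733) (nat_lit 470) (.n (nat_lit 238) (nat_lit 1) (.p (nat_lit 245) (nat_lit 1) (.n (nat_lit 259) (nat_lit 1) .z))) (.ct dC1a_c547 (nat_lit 1) (nat_lit 3) (.s false (nat_lit 1) (nat_lit 30) (nat_lit 2) (nat_lit 1) (nat_lit 1) true (nat_lit 9) true (nat_lit 13) false (nat_lit 3) true (nat_lit 12) true (nat_lit 13) (.e true (nat_lit 1) (nat_lit 61) (nat_lit 5) (nat_lit 9) (.e false (nat_lit 1) (nat_lit 145) (nat_lit 1) (nat_lit 13) (.e true (nat_lit 1) (nat_lit 138) (nat_lit 1) (nat_lit 13) .nil))))) .leaf)))) (nat_lit 30736) (nat_lit 669) (.n (nat_lit 262) (nat_lit 3) (.n (nat_lit 263) (nat_lit 2) (.p (nat_lit 264) (nat_lit 3) (.n (nat_lit 265) (nat_lit 2) (.n (nat_lit 266) (nat_lit 2) (.n (nat_lit 267) (nat_lit 2) (.n (nat_lit 268) (nat_lit 2) (.n (nat_lit 269) (nat_lit 1) (.p (nat_lit 270) (nat_lit 3) (.n (nat_lit 271) (nat_lit 1) (.n (nat_lit 272) (nat_lit 2) (.p (nat_lit 273) (nat_lit 3) (.n (nat_lit 274) (nat_lit 1) (.p (nat_lit 277) (nat_lit 3) (.p (nat_lit 278) (nat_lit 2) (.n (nat_lit 279) (nat_lit 1) (.n (nat_lit 280) (nat_lit 3) (.p (nat_lit 281) (nat_lit 1) (.p (nat_lit 282) (nat_lit 2) (.n (nat_lit 286) (nat_lit 3) (.p (nat_lit 288) (nat_lit 3) (.n (nat_lit 289) (nat_lit 1) .z)))))))))))))))))))))) (.ct dC1a_c532 (nat_lit 1) (nat_lit 1) (.s true (nat_lit 1) (nat_lit 30) (nat_lit 1) (nat_lit 2) (nat_lit 2) true (nat_lit 7) true (nat_lit 10) false (nat_lit 1) true (nat_lit 11) true (nat_lit 10) (.e true (nat_lit 1) (nat_lit 79) (nat_lit 5) (nat_lit 7) (.e true (nat_lit 1) (nat_lit 138) (nat_lit 2) (nat_lit 10) (.e false (nat_lit 3) (nat_lit 174) (nat_lit 1) (nat_lit 11) (.e true (nat_lit 3) (nat_lit 175) (nat_lit 1) (nat_lit 11) (.e false (nat_lit 1) (nat_lit 176) (nat_lit 1) (nat_lit 11) (.e false (nat_lit 1) (nat_lit 177) (nat_lit 1) (nat_lit 11) (.e true (nat_lit 3) (nat_lit 179) (nat_lit 1) (nat_lit 11) (.e true (nat_lit 1) (nat_lit 145) (nat_lit 2) (nat_lit 10) (.u (nat_lit 2) (.n (nat_lit 0) (nat_lit 2) (.n (nat_lit 1) (nat_lit 1) (.n (nat_lit 3) (nat_lit 1) (.n (nat_lit 4) (nat_lit 1) (.p (nat_lit 6) (nat_lit 1) (.p (nat_lit 7) (nat_lit 2) (.n (nat_lit 8) (nat_lit 1) (.n (nat_lit 9) (nat_lit 1) (.p (nat_lit 11) (nat_lit 1) (.n (nat_lit 12) (nat_lit 1) (.n (nat_lit 13) (nat_lit 2) (.n (nat_lit 17) (nat_lit 2) (.n (nat_lit 18) (nat_lit 2) (.p (nat_lit 20) (nat_lit 1) (.n (nat_lit 22) (nat_lit 2) (.p (nat_lit 26) (nat_lit 2) (.p (nat_lit 27) (nat_lit 1) (.p (nat_lit 29) (nat_lit 1) .z)))))))))))))))))) .nil))))))))))) (.nd (.nd (.nd (.nd (.nd .leaf (nat_lit 30737) (nat_lit 670) (.n (nat_lit 260) (nat_lit 1) (.n (nat_lit 261) (nat_lit 2) (.n (nat_lit 262) (nat_lit 1) (.n (nat_lit 263) (nat_lit 3) (.n (nat_lit 264) (nat_lit 3) (.p (nat_lit 265) (nat_lit 3) (.n (nat_lit 266) (nat_lit 3) (.p (nat_lit 267) (nat_lit 3) (.n (nat_lit 268) (nat_lit 1) (.n (nat_lit 269) (nat_lit 2) (.p (nat_lit 270) (nat_lit 3) (.p (nat_lit 272) (nat_lit 3) (.p (nat_lit 274) (nat_lit 1) (.n (nat_lit 277) (nat_lit 3) (.p (nat_lit 278) (nat_lit 1) (.p (nat_lit 280) (nat_lit 1) (.p (nat_lit 281) (nat_lit 2) (.n (nat_lit 282) (nat_lit 3) (.p (nat_lit 286) (nat_lit 1) (.p (nat_lit 287) (nat_lit 2) (.n (nat_lit 288) (nat_lit 3) (.n (nat_lit 289) (nat_lit 2) .z)))))))))))))))))))))) (.ct dC1a_c532 (nat_lit 1) (nat_lit 1) (.s false (nat_lit 1) (nat_lit 30) (nat_lit 2) (nat_lit 2) (nat_lit 1) true (nat_lit 7) true (nat_lit 11) false (nat_lit 1) true (nat_lit 10) true (nat_lit 10) (.e false (nat_lit 1) (nat_lit 79) (nat_lit 5) (nat_lit 7) (.e false (nat_lit 1) (nat_lit 176) (nat_lit 1) (nat_lit 11) (.e false (nat_lit 2) (nat_lit 132) (nat_lit 2) (nat_lit 10) (.e true (nat_lit 3) (nat_lit 134) (nat_lit 2) (nat_lit 10) (.e true (nat_lit 2) (nat_lit 135) (nat_lit 2) (nat_lit 10) (.e false (nat_lit 2) (nat_lit 136) (nat_lit 2) (nat_lit 10) (.e true (nat_lit 2) (nat_lit 137) (nat_lit 2) (nat_lit 10) (.e false (nat_lit 3) (nat_lit 138) (nat_lit 2) (nat_lit 10) (.e false (nat_lit 3) (nat_lit 139) (nat_lit 2) (nat_lit 10) (.e true (nat_lit 1) (nat_lit 140) (nat_lit 2) (nat_lit 10) (.e true (nat_lit 2) (nat_lit 141) (nat_lit 2) (nat_lit 10) (.e false (nat_lit 3) (nat_lit 142) (nat_lit 2) (nat_lit 10) (.e false (nat_lit 1) (nat_lit 143) (nat_lit 2) (nat_lit 10) (.e false (nat_lit 2) (nat_lit 144) (nat_lit 2) (nat_lit 10) (.e false (nat_lit 3) (nat_lit 149) (nat_lit 2) (nat_lit 10) (.e true (nat_lit 2) (nat_lit 150) (nat_lit 2) (nat_lit 10) (.e true (nat_lit 1) (nat_lit 151) (nat_lit 2) (nat_lit 10) (.e true (nat_lit 1) (nat_lit 152) (nat_lit 2) (nat_lit 10) (.u (nat_lit 2) (.n (nat_lit 5) (nat_lit 1) (.n (nat_lit 12) (nat_lit 1) (.p (nat_lit 17) (nat_lit 1) (.n (nat_lit 20) (nat_lit 1) (.p (nat_lit 22) (nat_lit 1) (.n (nat_lit 102) (nat_lit 1) .z)))))) .nil))))))))))))))))))))) .leaf) (nat_lit 30738) (nat_lit 804) (.p (nat_lit 320) (nat_lit 1) (.n (nat_lit 321) (nat_lit 2) (.n (nat_lit 322) (nat_lit 1) (.n (nat_lit 323) (nat_lit 2) (.p (nat_lit 324) (nat_lit 1) (.p (nat_lit 325) (nat_lit 2) .z)))))) (.ct dC1a_c517 (nat_lit 1) (nat_lit 0) (.s false (nat_lit 1) (nat_lit 18) (nat_lit 0) (nat_lit 6) (nat_lit 0) false (nat_lit 7) true (nat_lit 6) true (nat_lit 0) true (nat_lit 6) true (nat_lit 3) (.e true (nat_lit 1) (nat_lit 77) (nat_lit 6) (nat_lit 3) (.e true (nat_lit 1) (nat_lit 78) (nat_lit 6) (nat_lit 3) (.e false (nat_lit 1) (nat_lit 81) (nat_lit 6) (nat_lit 3) (.u (nat_lit 2) (.n (nat_lit 5) (nat_lit 1) .z) .nil)))))) .leaf) (nat_lit 31744) (nat_lit 77) (.p (nat_lit 62) (nat_lit 1) .z) .df (.nd (.nd .leaf (nat_lit 31745) (nat_lit 94) (.p (nat_lit 70) (nat_lit 1) .z) .df .leaf) (nat_lit 31746) (nat_lit 119) (.p (nat_lit 82) (nat_lit 1) .z) .df .leaf)) (nat_lit 31747) (nat_lit 204) (.p (nat_lit 108) (nat_lit 1) (.n (nat_lit 110) (nat_lit 1) (.p (nat_lit 113) (nat_lit 1) (.p (nat_lit 115) (nat_lit 1) (.n (nat_lit 119) (nat_lit 3) (.p (nat_lit 120) (nat_lit 3) (.p (nat_lit 121) (nat_lit 3) (.p (nat_lit 122) (nat_lit 1) (.n (nat_lit 123) (nat_lit 3) (.p (nat_lit 124) (nat_lit 2) (.p (nat_lit 127) (nat_lit 1) (.p (nat_lit 128) (nat_lit 1) (.n (nat_lit 130) (nat_lit 1) (.p (nat_lit 131) (nat_lit 1) .z)))))))))))))) (.ct dC1a_c546 (nat_lit 1) (nat_lit 7) (.s true (nat_lit 1) (nat_lit 10) (nat_lit 0) (nat_lit 2) (nat_lit 1) true (nat_lit 7) true (nat_lit 9) true (nat_lit 0) true (nat_lit 10) true (nat_lit 8) (.e true (nat_lit 1) (nat_lit 57) (nat_lit 1) (nat_lit 9) (.e true (nat_lit 1) (nat_lit 11) (nat_lit 10) (nat_lit 0) (.e false (nat_lit 1) (nat_lit 75) (nat_lit 0) (nat_lit 10) (.e false (nat_lit 1) (nat_lit 53) (nat_lit 2) (nat_lit 8) .nil)))))) (.nd (.nd (.nd .leaf (nat_lit 31748) (nat_lit 252) (.n (nat_lit 132) (nat_lit 2) (.p (nat_lit 133) (nat_lit 1) (.p (nat_lit 134) (nat_lit 2) (.n (nat_lit 135) (nat_lit 3) (.p (nat_lit 136) (nat_lit 3) (.p (nat_lit 137) (nat_lit 2) (.n (nat_lit 138) (nat_lit 3) (.p (nat_lit 139) (nat_lit 3) (.p (nat_lit 141) (nat_lit 2) (.p (nat_lit 142) (nat_lit 3) (.p (nat_lit 143) (nat_lit 1) (.p (nat_lit 144) (nat_lit 2) (.p (nat_lit 145) (nat_lit 1) (.n (nat_lit 146) (nat_lit 1) (.p (nat_lit 147) (nat_lit 1) (.p (nat_lit 149) (nat_lit 1) (.p (nat_lit 150) (nat_lit 1) (.p (nat_lit 151) (nat_lit 3) (.p (nat_lit 152) (nat_lit 3) .z))))))))))))))))))) (.ct dC1a_c531 (nat_lit 1) (nat_lit 5) (.s false (nat_lit 1) (nat_lit 4) (nat_lit 2) (nat_lit 3) (nat_lit 2) true (nat_lit 3) true (nat_lit 7) true (nat_lit 5) true (nat_lit 7) true (nat_lit 6) (.s false (nat_lit 1) (nat_lit 6) (nat_lit 0) (nat_lit 1) (nat_lit 4) true (nat_lit 1) true (nat_lit 5) true (nat_lit 3) true (nat_lit 9) true (nat_lit 8) (.s true (nat_lit 3) (nat_lit 6) (nat_lit 4) (nat_lit 1) (nat_lit 0) true (nat_lit 1) true (nat_lit 9) true (nat_lit 3) true (nat_lit 5) true (nat_lit 8) (.s false (nat_lit 3) (nat_lit 11) (nat_lit 0) (nat_lit 2) (nat_lit 2) true (nat_lit 5) true (nat_lit 7) true (nat_lit 0) true (nat_lit 9) true (nat_lit 7) (.s true (nat_lit 3) (nat_lit 12) (nat_lit 0) (nat_lit 2) (nat_lit 2) true (nat_lit 5) true (nat_lit 7) true (nat_lit 0) true (nat_lit 9) true (nat_lit 7) (.s false (nat_lit 1) (nat_lit 14) (nat_lit 1) (nat_lit 2) (nat_lit 0) true (nat_lit 6) true (nat_lit 9) false (nat_lit 0) true (nat_lit 8) true (nat_lit 7) (.s true (nat_lit 3) (nat_lit 14) (nat_lit 2) (nat_lit 1) (nat_lit 0) true (nat_lit 5) true (nat_lit 9) false (nat_lit 0) true (nat_lit 7) true (nat_lit 8) dC1a_i4)))))))) .leaf) (nat_lit 31749) (nat_lit 294) (.n (nat_lit 154) (nat_lit 1) (.n (nat_lit 157) (nat_lit 2) (.p (nat_lit 162) (nat_lit 1) (.n (nat_lit 164) (nat_lit 1) (.p (nat_lit 167) (nat_lit 1) (.p (nat_lit 171) (nat_lit 1) .z)))))) (.ct dC1a_c291 (nat_lit 1) (nat_lit 4) (.s true (nat_lit 1) (nat_lit 10) (nat_lit 1) (nat_lit 2) (nat_lit 2) true (nat_lit 4) true (nat_lit 7) true (nat_lit 1) true (nat_lit 8) true (nat_lit 7) (.e true (nat_lit 1) (nat_lit 67) (nat_lit 2) (nat_lit 7) (.e false (nat_lit 1) (nat_lit 16) (nat_lit 10) (nat_lit 1) (.e false (nat_lit 1) (nat_lit 90) (nat_lit 1) (nat_lit 8) (.e true (nat_lit 1) (nat_lit 70) (nat_lit 2) (nat_lit 7) .nil)))))) .leaf) (nat_lit 31750) (nat_lit 352) (.p (nat_lit 192) (nat_lit 1) .z) .df (.nd (.nd .leaf (nat_lit 31754) (nat_lit 559) (.p (nat_lit 212) (nat_lit 1) (.n (nat_lit 213) (nat_lit 1) (.p (nat_lit 214) (nat_lit 2) (.n (nat_lit 215) (nat_lit 1) (.p (nat_lit 216) (nat_lit 1) (.n (nat_lit 217) (nat_lit 2) (.n (nat_lit 218) (nat_lit 1) (.p (nat_lit 219) (nat_lit 1) (.p (nat_lit 221) (nat_lit 3) (.n (nat_lit 222) (nat_lit 3) (.n (nat_lit 223) (nat_lit 1) (.p (nat_lit 224) (nat_lit 3) (.n (nat_lit 226) (nat_lit 1) (.p (nat_lit 227) (nat_lit 2) (.p (nat_lit 228) (nat_lit 3) (.p (nat_lit 229) (nat_lit 1) (.p (nat_lit 230) (nat_lit 1) (.p (nat_lit 231) (nat_lit 2) (.n (nat_lit 233) (nat_lit 3) (.p (nat_lit 234) (nat_lit 3) (.n (nat_lit 236) (nat_lit 2) (.p (nat_lit 237) (nat_lit 1) (.p (nat_lit 238) (nat_lit 1) (.p (nat_lit 239) (nat_lit 3) (.p (nat_lit 240) (nat_lit 3) (.n (nat_lit 241) (nat_lit 2) (.n (nat_lit 242) (nat_lit 3) (.p (nat_lit 244) (nat_lit 3) (.n (nat_lit 246) (nat_lit 1) (.n (nat_lit 249) (nat_lit 3) (.n (nat_lit 250) (nat_lit 1) (.p (nat_lit 251) (nat_lit 3) (.p (nat_lit 252) (nat_lit 2) (.n (nat_lit 253) (nat_lit 1) (.n (nat_lit 258) (nat_lit 3) .z))))))))))))))))))))))))))))))))))) (.ct dC1a_c547 (nat_lit 1) (nat_lit 4) (.s true (nat_lit 1) (nat_lit 10) (nat_lit 0) (nat_lit 2) (nat_lit 5) true (nat_lit 4) true (nat_lit 9) true (nat_lit 4) true (nat_lit 14) true (nat_lit 12) (.e true (nat_lit 1) (nat_lit 31) (nat_lit 12) (nat_lit 4) (.e true (nat_lit 1) (nat_lit 57) (nat_lit 5) (nat_lit 9) (.e true (nat_lit 1) (nat_lit 32) (nat_lit 10) (nat_lit 4) (.e false (nat_lit 1) (nat_lit 35) (nat_lit 10) (nat_lit 4) (.e true (nat_lit 1) (nat_lit 36) (nat_lit 10) (nat_lit 4) (.e false (nat_lit 1) (nat_lit 157) (nat_lit 0) (nat_lit 14) (.e true (nat_lit 1) (nat_lit 162) (nat_lit 0) (nat_lit 14) (.e false (nat_lit 1) (nat_lit 164) (nat_lit 0) (nat_lit 14) (.e true (nat_lit 1) (nat_lit 171) (nat_lit 0) (nat_lit 14) (.e true (nat_lit 1) (nat_lit 127) (nat_lit 2) (nat_lit 12) (.u (nat_lit 2) (.n (nat_lit 2) (nat_lit 1) (.p (nat_lit 4) (nat_lit 1) (.n (nat_lit 6) (nat_lit 1) (.p (nat_lit 7) (nat_lit 1) (.p (nat_lit 10) (nat_lit 1) (.p (nat_lit 11) (nat_lit 1) (.n (nat_lit 12) (nat_lit 2) (.p (nat_lit 14) (nat_lit 1) (.n (nat_lit 15) (nat_lit 1) (.p (nat_lit 20) (nat_lit 1) (.n (nat_lit 22) (nat_lit 1) (.n (nat_lit 26) (nat_lit 1) (.p (nat_lit 32) (nat_lit 1) (.p (nat_lit 33) (nat_lit 1) (.p (nat_lit 37) (nat_lit 1) .z))))))))))))))) .nil))))))))))))) .leaf) (nat_lit 31755) (nat_lit 546) (.p (nat_lit 212) (nat_lit 3) (.n (nat_lit 213) (nat_lit 1) (.n (nat_lit 214) (nat_lit 1) (.p (nat_lit 215) (nat_lit 3) (.n (nat_lit 216) (nat_lit 1) (.n (nat_lit 218) (nat_lit 2) (.p (nat_lit 219) (nat_lit 2) (.n (nat_lit 220) (nat_lit 2) (.n (nat_lit 222) (nat_lit 3) (.p (nat_lit 223) (nat_lit 1) (.p (nat_lit 224) (nat_lit 3) (.n (nat_lit 227) (nat_lit 1) (.n (nat_lit 230) (nat_lit 1) (.p (nat_lit 231) (nat_lit 3) (.n (nat_lit 232) (nat_lit 1) (.p (nat_lit 234) (nat_lit 3) (.p (nat_lit 235) (nat_lit 3) (.p (nat_lit 236) (nat_lit 1) (.n (nat_lit 237) (nat_lit 3) (.n (nat_lit 238) (nat_lit 3) (.n (nat_lit 240) (nat_lit 3) (.n (nat_lit 242) (nat_lit 3) (.p (nat_lit 243) (nat_lit 1) (.n (nat_lit 244) (nat_lit 3) (.n (nat_lit 245) (nat_lit 2) (.n (nat_lit 247) (nat_lit 1) (.n (nat_lit 248) (nat_lit 1) (.p (nat_lit 249) (nat_lit 1) (.n (nat_lit 250) (nat_lit 1) (.p (nat_lit 252) (nat_lit 1) (.n (nat_lit 253) (nat_lit 1) .z))))))))))))))))))))))))))))))) (.ct dC1a_c547 (nat_lit 1) (nat_lit 4) (.s false (nat_lit 1) (nat_lit 11) (nat_lit 2) (nat_lit 3) (nat_lit 2) true (nat_lit 8) true (nat_lit 12) true (nat_lit 4) true (nat_lit 12) true (nat_lit 11) (.e true (nat_lit 1) (nat_lit 48) (nat_lit 6) (nat_lit 8) (.e false (nat_lit 1) (nat_lit 50) (nat_lit 6) (nat_lit 8) (.e true (nat_lit 1) (nat_lit 54) (nat_lit 6) (nat_lit 8) (.e false (nat_lit 1) (nat_lit 111) (nat_lit 2) (nat_lit 12) (.e false (nat_lit 1) (nat_lit 114) (nat_lit 2) (nat_lit 12) (.e true (nat_lit 2) (nat_lit 116) (nat_lit 2) (nat_lit 12) (.e false (nat_lit 2) (nat_lit 117) (nat_lit 2) (nat_lit 12) (.e false (nat_lit 1) (nat_lit 118) (nat_lit 2) (nat_lit 12) (.e false (nat_lit 2) (nat_lit 120) (nat_lit 2) (nat_lit 12) (.e true (nat_lit 1) (nat_lit 121) (nat_lit 2) (nat_lit 12) (.e false (nat_lit 1) (nat_lit 110) (nat_lit 2) (nat_lit 12) (.e true (nat_lit 1) (nat_lit 115) (nat_lit 2) (nat_lit 12) (.e false (nat_lit 1) (nat_lit 130) (nat_lit 2) (nat_lit 12) (.e false (nat_lit 1) (nat_lit 83) (nat_lit 3) (nat_lit 11) (.u (nat_lit 2) (.n (nat_lit 1) (nat_lit 1) (.p (nat_lit 2) (nat_lit 1) (.n (nat_lit 3) (nat_lit 2) (.p (nat_lit 4) (nat_lit 2) (.n (nat_lit 5) (nat_lit 2) (.p (nat_lit 7) (nat_lit 1) (.p (nat_lit 8) (nat_lit 1) (.p (nat_lit 9) (nat_lit 1) (.n (nat_lit 12) (nat_lit 1) (.n (nat_lit 15) (nat_lit 3) (.n (nat_lit 17) (nat_lit 1) (.p (nat_lit 18) (nat_lit 1) (.p (nat_lit 20) (nat_lit 1) (.n (nat_lit 21) (nat_lit 2) (.n (nat_lit 22) (nat_lit 2) (.n (nat_lit 23) (nat_lit 1) (.n (nat_lit 25) (nat_lit 1) (.n (nat_lit 26) (nat_lit 1) (.n (nat_lit 28) (nat_lit 1) (.p (nat_lit 29) (nat_lit 1) (.n (nat_lit 31) (nat_lit 2) (.p (nat_lit 32) (nat_lit 1) (.p (nat_lit 36) (nat_lit 1) (.p (nat_lit 39) (nat_lit 1) (.n (nat_lit 149) (nat_lit 1) .z))))))))))))))))))))))))) .nil))))))))))))))))) .leaf))) (nat_lit 31756) (nat_lit 549) (.n (nat_lit 212) (nat_lit 2) (.p (nat_lit 213) (nat_lit 2) (.n (nat_lit 214) (nat_lit 2) (.n (nat_lit 215) (nat_lit 3) (.n (nat_lit 216) (nat_lit 3) (.p (nat_lit 217) (nat_lit 1) (.p (nat_lit 218) (nat_lit 2) (.n (nat_lit 219) (nat_lit 2) (.n (nat_lit 221) (nat_lit 2) (.p (nat_lit 222) (nat_lit 2) (.p (nat_lit 223) (nat_lit 1) (.p (nat_lit 224) (nat_lit 1) (.n (nat_lit 226) (nat_lit 2) (.n (nat_lit 228) (nat_lit 3) (.n (nat_lit 229) (nat_lit 3) (.n (nat_lit 230) (nat_lit 2) (.p (nat_lit 231) (nat_lit 1) (.n (nat_lit 232) (nat_lit 1) (.p (nat_lit 234) (nat_lit 2) (.p (nat_lit 235) (nat_lit 2) (.p (nat_lit 237) (nat_lit 2) (.n (nat_lit 238) (nat_lit 1) (.n (nat_lit 239) (nat_lit 3) (.n (nat_lit 240) (nat_lit 2) (.p (nat_lit 241) (nat_lit 2) (.p (nat_lit 242) (nat_lit 2) (.n (nat_lit 243) (nat_lit 1) (.n (nat_lit 244) (nat_lit 3) (.p (nat_lit 246) (nat_lit 1) (.n (nat_lit 247) (nat_lit 1) (.p (nat_lit 248) (nat_lit 1) (.n (nat_lit 249) (nat_lit 3) (.n (nat_lit 251) (nat_lit 3) (.n (nat_lit 252) (nat_lit 1) (.p (nat_lit 258) (nat_lit 3) .z))))))))))))))))))))))))))))))))))) (.ct dC1a_c547 (nat_lit 1) (nat_lit 4) (.s true (nat_lit 1) (nat_lit 31) (nat_lit 1) (nat_lit 2) (nat_lit 0) true (nat_lit 11) true (nat_lit 14) false (nat_lit 4) true (nat_lit 13) true (nat_lit 12) (.e false (nat_lit 1) (nat_lit 82) (nat_lit 3) (nat_lit 11) (.e true (nat_lit 1) (nat_lit 157) (nat_lit 0) (nat_lit 14) (.e true (nat_lit 2) (nat_lit 132) (nat_lit 1) (nat_lit 13) (.e false (nat_lit 1) (nat_lit 133) (nat_lit 1) (nat_lit 13) (.e false (nat_lit 2) (nat_lit 134) (nat_lit 1) (nat_lit 13) (.e true (nat_lit 3) (nat_lit 135) (nat_lit 1) (nat_lit 13) (.e false (nat_lit 3) (nat_lit 136) (nat_lit 1) (nat_lit 13) (.e false (nat_lit 2) (nat_lit 137) (nat_lit 1) (nat_lit 13) (.e true (nat_lit 3) (nat_lit 138) (nat_lit 1) (nat_lit 13) (.e false (nat_lit 3) (nat_lit 139) (nat_lit 1) (nat_lit 13) (.e false (nat_lit 2) (nat_lit 141) (nat_lit 1) (nat_lit 13) (.e false (nat_lit 3) (nat_lit 142) (nat_lit 1) (nat_lit 13) (.e false (nat_lit 1) (nat_lit 143) (nat_lit 1) (nat_lit 13) (.e false (nat_lit 2) (nat_lit 144) (nat_lit 1) (nat_lit 13) (.e false (nat_lit 1) (nat_lit 145) (nat_lit 1) (nat_lit 13) (.e true (nat_lit 1) (nat_lit 146) (nat_lit 1) (nat_lit 13) (.e false (nat_lit 1) (nat_lit 147) (nat_lit 1) (nat_lit 13) (.e false (nat_lit 1) (nat_lit 149) (nat_lit 1) (nat_lit 13) (.e false (nat_lit 1) (nat_lit 150) (nat_lit 1) (nat_lit 13) (.e false (nat_lit 3) (nat_lit 151) (nat_lit 1) (nat_lit 13) (.e false (nat_lit 3) (nat_lit 152) (nat_lit 1) (nat_lit 13) (.e false (nat_lit 1) (nat_lit 122) (nat_lit 2) (nat_lit 12) (.u (nat_lit 2) (.n (nat_lit 1) (nat_lit 3) (.p (nat_lit 3) (nat_lit 1) (.p (nat_lit 4) (nat_lit 1) (.n (nat_lit 8) (nat_lit 1) (.p (nat_lit 9) (nat_lit 1) (.p (nat_lit 10) (nat_lit 1) (.p (nat_lit 11) (nat_lit 2) (.p (nat_lit 14) (nat_lit 1) (.p (nat_lit 17) (nat_lit 1) (.p (nat_lit 19) (nat_lit 1) (.n (nat_lit 20) (nat_lit 1) (.p (nat_lit 22) (nat_lit 1) (.p (nat_lit 24) (nat_lit 1) (.n (nat_lit 25) (nat_lit 2) (.n (nat_lit 26) (nat_lit 1) (.n (nat_lit 28) (nat_lit 1) (.p (nat_lit 29) (nat_lit 1) (.n (nat_lit 32) (nat_lit 1) (.p (nat_lit 36) (nat_lit 1) .z))))))))))))))))))) .nil))))))))))))))))))))))))) (.nd (.nd (.nd (.nd .leaf (nat_lit 31758) (nat_lit 610) (.p (nat_lit 260) (nat_lit 1) (.n (nat_lit 261) (nat_lit 2) (.p (nat_lit 262) (nat_lit 2) (.p (nat_lit 264) (nat_lit 3) (.p (nat_lit 265) (nat_lit 2) (.p (nat_lit 266) (nat_lit 1) (.p (nat_lit 267) (nat_lit 2) (.n (nat_lit 269) (nat_lit 2) (.n (nat_lit 270) (nat_lit 2) (.p (nat_lit 271) (nat_lit 1) (.p (nat_lit 272) (nat_lit 2) (.p (nat_lit 273) (nat_lit 1) (.n (nat_lit 274) (nat_lit 1) (.p (nat_lit 278) (nat_lit 1) (.n (nat_lit 279) (nat_lit 2) (.p (nat_lit 280) (nat_lit 3) (.p (nat_lit 283) (nat_lit 1) (.p (nat_lit 288) (nat_lit 1) .z)))))))))))))))))) (.ct dC1a_c532 (nat_lit 1) (nat_lit 2) (.s false (nat_lit 1) (nat_lit 31) (nat_lit 2) (nat_lit 0) (nat_lit 2) true (nat_lit 6) true (nat_lit 10) false (nat_lit 2) true (nat_lit 10) true (nat_lit 12) (.e true (nat_lit 1) (nat_lit 62) (nat_lit 6) (nat_lit 6) (.e false (nat_lit 2) (nat_lit 132) (nat_lit 2) (nat_lit 10) (.e true (nat_lit 1) (nat_lit 133) (nat_lit 2) (nat_lit 10) (.e true (nat_lit 2) (nat_lit 134) (nat_lit 2) (nat_lit 10) (.e false (nat_lit 3) (nat_lit 135) (nat_lit 2) (nat_lit 10) (.e true (nat_lit 3) (nat_lit 136) (nat_lit 2) (nat_lit 10) (.e true (nat_lit 2) (nat_lit 137) (nat_lit 2) (nat_lit 10) (.e false (nat_lit 3) (nat_lit 138) (nat_lit 2) (nat_lit 10) (.e true (nat_lit 3) (nat_lit 139) (nat_lit 2) (nat_lit 10) (.e true (nat_lit 2) (nat_lit 141) (nat_lit 2) (nat_lit 10) (.e true (nat_lit 3) (nat_lit 142) (nat_lit 2) (nat_lit 10) (.e true (nat_lit 1) (nat_lit 143) (nat_lit 2) (nat_lit 10) (.e true (nat_lit 2) (nat_lit 144) (nat_lit 2) (nat_lit 10) (.e true (nat_lit 1) (nat_lit 145) (nat_lit 2) (nat_lit 10) (.e false (nat_lit 1) (nat_lit 146) (nat_lit 2) (nat_lit 10) (.e true (nat_lit 1) (nat_lit 149) (nat_lit 2) (nat_lit 10) (.e true (nat_lit 1) (nat_lit 150) (nat_lit 2) (nat_lit 10) (.e true (nat_lit 3) (nat_lit 151) (nat_lit 2) (nat_lit 10) (.e true (nat_lit 3) (nat_lit 152) (nat_lit 2) (nat_lit 10) (.e false (nat_lit 1) (nat_lit 180) (nat_lit 0) (nat_lit 12) (.u (nat_lit 2) (.n (nat_lit 2) (nat_lit 1) (.n (nat_lit 4) (nat_lit 1) (.n (nat_lit 5) (nat_lit 1) (.n (nat_lit 7) (nat_lit 1) (.n (nat_lit 12) (nat_lit 1) (.n (nat_lit 20) (nat_lit 1) .z)))))) .nil))))))))))))))))))))))) .leaf) (nat_lit 31759) (nat_lit 621) (.n (nat_lit 260) (nat_lit 1) (.p (nat_lit 261) (nat_lit 2) (.p (nat_lit 262) (nat_lit 2) (.p (nat_lit 265) (nat_lit 3) (.n (nat_lit 266) (nat_lit 1) (.n (nat_lit 267) (nat_lit 2) (.n (nat_lit 268) (nat_lit 2) (.p (nat_lit 270) (nat_lit 1) (.p (nat_lit 271) (nat_lit 3) (.n (nat_lit 272) (nat_lit 2) (.n (nat_lit 274) (nat_lit 3) (.n (nat_lit 277) (nat_lit 2) (.p (nat_lit 278) (nat_lit 1) (.n (nat_lit 279) (nat_lit 2) (.p (nat_lit 280) (nat_lit 1) (.p (nat_lit 281) (nat_lit 1) (.p (nat_lit 283) (nat_lit 2) (.n (nat_lit 286) (nat_lit 1) (.n (nat_lit 287) (nat_lit 1) (.n (nat_lit 289) (nat_lit 1) .z)))))))))))))))))))) (.ct dC1a_c532 (nat_lit 1) (nat_lit 2) (.s false (nat_lit 1) (nat_lit 31) (nat_lit 2) (nat_lit 2) (nat_lit 0) true (nat_lit 8) true (nat_lit 12) false (nat_lit 2) true (nat_lit 10) true (nat_lit 10) (.e false (nat_lit 1) (nat_lit 82) (nat_lit 4) (nat_lit 8) (.e false (nat_lit 1) (nat_lit 180) (nat_lit 0) (nat_lit 12) (.e true (nat_lit 2) (nat_lit 132) (nat_lit 2) (nat_lit 10) (.e false (nat_lit 1) (nat_lit 133) (nat_lit 2) (nat_lit 10) (.e false (nat_lit 2) (nat_lit 134) (nat_lit 2) (nat_lit 10) (.e true (nat_lit 3) (nat_lit 135) (nat_lit 2) (nat_lit 10) (.e false (nat_lit 3) (nat_lit 136) (nat_lit 2) (nat_lit 10) (.e false (nat_lit 2) (nat_lit 137) (nat_lit 2) (nat_lit 10) (.e true (nat_lit 3) (nat_lit 138) (nat_lit 2) (nat_lit 10) (.e false (nat_lit 2) (nat_lit 139) (nat_lit 2) (nat_lit 10) (.e false (nat_lit 2) (nat_lit 141) (nat_lit 2) (nat_lit 10) (.e false (nat_lit 3) (nat_lit 142) (nat_lit 2) (nat_lit 10) (.e false (nat_lit 1) (nat_lit 143) (nat_lit 2) (nat_lit 10) (.e false (nat_lit 2) (nat_lit 144) (nat_lit 2) (nat_lit 10) (.e false (nat_lit 1) (nat_lit 145) (nat_lit 2) (nat_lit 10) (.e true (nat_lit 1) (nat_lit 146) (nat_lit 2) (nat_lit 10) (.e false (nat_lit 1) (nat_lit 147) (nat_lit 2) (nat_lit 10) (.e false (nat_lit 1) (nat_lit 149) (nat_lit 2) (nat_lit 10) (.e false (nat_lit 1) (nat_lit 150) (nat_lit 2) (nat_lit 10) (.e false (nat_lit 3) (nat_lit 151) (nat_lit 2) (nat_lit 10) (.e false (nat_lit 3) (nat_lit 152) (nat_lit 2) (nat_lit 10) (.u (nat_lit 2) (.p (nat_lit 7) (nat_lit 1) (.p (nat_lit 12) (nat_lit 1) (.p (nat_lit 19) (nat_lit 1) .z))) .nil)))))))))))))))))))))))) .leaf) (nat_lit 31760) (nat_lit 721) (.n (nat_lit 291) (nat_lit 3) (.p (nat_lit 294) (nat_lit 1) (.p (nat_lit 298) (nat_lit 1) (.n (nat_lit 299) (nat_lit 2) (.n (nat_lit 301) (nat_lit 2) (.p (nat_lit 304) (nat_lit 1) (.n (nat_lit 307) (nat_lit 1) (.p (nat_lit 308) (nat_lit 3) (.p (nat_lit 311) (nat_lit 1) (.p (nat_lit 317) (nat_lit 1) .z)))))))))) (.ct dC1a_c292 (nat_lit 1) (nat_lit 1) (.s true (nat_lit 1) (nat_lit 31) (nat_lit 1) (nat_lit 2) (nat_lit 2) true (nat_lit 7) true (nat_lit 10) false (nat_lit 1) true (nat_lit 11) true (nat_lit 10) (.e true (nat_lit 1) (nat_lit 82) (nat_lit 5) (nat_lit 7) (.e true (nat_lit 1) (nat_lit 157) (nat_lit 2) (nat_lit 10) (.e false (nat_lit 1) (nat_lit 192) (nat_lit 1) (nat_lit 11) (.e true (nat_lit 1) (nat_lit 164) (nat_lit 2) (nat_lit 10) .nil)))))) (.nd (.nd .leaf (nat_lit 31761) (nat_lit 715) (.n (nat_lit 291) (nat_lit 1) (.n (nat_lit 294) (nat_lit 3) (.p (nat_lit 299) (nat_lit 1) (.n (nat_lit 301) (nat_lit 1) (.p (nat_lit 304) (nat_lit 1) (.p (nat_lit 308) (nat_lit 1) (.p (nat_lit 311) (nat_lit 1) (.p (nat_lit 319) (nat_lit 1) .z)))))))) (.ct dC1a_c292 (nat_lit 1) (nat_lit 1) (.s false (nat_lit 1) (nat_lit 31) (nat_lit 2) (nat_lit 2) (nat_lit 1) true (nat_lit 7) true (nat_lit 11) false (nat_lit 1) true (nat_lit 10) true (nat_lit 10) (.e false (nat_lit 1) (nat_lit 82) (nat_lit 5) (nat_lit 7) (.e false (nat_lit 1) (nat_lit 180) (nat_lit 1) (nat_lit 11) (.e true (nat_lit 1) (nat_lit 154) (nat_lit 2) (nat_lit 10) (.e true (nat_lit 3) (nat_lit 157) (nat_lit 2) (nat_lit 10) (.e false (nat_lit 1) (nat_lit 162) (nat_lit 2) (nat_lit 10) (.e true (nat_lit 1) (nat_lit 164) (nat_lit 2) (nat_lit 10) (.e false (nat_lit 1) (nat_lit 167) (nat_lit 2) (nat_lit 10) (.e false (nat_lit 1) (nat_lit 171) (nat_lit 2) (nat_lit 10) .nil)))))))))) .leaf) (nat_lit 31762) (nat_lit 852) (.n (nat_lit 328) (nat_lit 3) (.p (nat_lit 329) (nat_lit 2) (.n (nat_lit 330) (nat_lit 2) (.n (nat_lit 331) (nat_lit 1) (.p (nat_lit 332) (nat_lit 2) (.p (nat_lit 333) (nat_lit 3) (.p (nat_lit 334) (nat_lit 1) (.p (nat_lit 335) (nat_lit 1) (.n (nat_lit 336) (nat_lit 1) (.n (nat_lit 337) (nat_lit 2) (.n (nat_lit 340) (nat_lit 1) (.p (nat_lit 344) (nat_lit 1) (.n (nat_lit 345) (nat_lit 1) .z))))))))))))) (.ct dC1a_c277 (nat_lit 1) (nat_lit 0) (.s false (nat_lit 1) (nat_lit 10) (nat_lit 2) (nat_lit 2) (nat_lit 6) true (nat_lit 0) true (nat_lit 4) true (nat_lit 3) true (nat_lit 8) true (nat_lit 8) (.e false (nat_lit 1) (nat_lit 82) (nat_lit 6) (nat_lit 4) (.e true (nat_lit 1) (nat_lit 192) (nat_lit 2) (nat_lit 8) .nil)))) .leaf)) (nat_lit 32768) (nat_lit 78) (.p (nat_lit 63) (nat_lit 1) .z) .df (.nd (.nd (.nd .leaf (nat_lit 32769) (nat_lit 95) (.p (nat_lit 71) (nat_lit 1) .z) .df .leaf) (nat_lit 32770) (nat_lit 120) (.p (nat_lit 83) (nat_lit 1) .z) .df .leaf) (nat_lit 32771) (nat_lit 202) (.p (nat_lit 108) (nat_lit 1) (.p (nat_lit 111) (nat_lit 1) (.p (nat_lit 114) (nat_lit 1) (.n (nat_lit 116) (nat_lit 2) (.p (nat_lit 117) (nat_lit 3) (.p (nat_lit 118) (nat_lit 1) (.n (nat_lit 119) (nat_lit 3) (.n (nat_lit 120) (nat_lit 2) (.p (nat_lit 121) (nat_lit 2) (.p (nat_lit 122) (nat_lit 1) (.n (nat_lit 123) (nat_lit 3) (.p (nat_lit 124) (nat_lit 2) (.p (nat_lit 128) (nat_lit 1) (.p (nat_lit 131) (nat_lit 1) .z)))))))))))))) (.ct dC1a_c546 (nat_lit 1) (nat_lit 7) (.s true (nat_lit 1) (nat_lit 11) (nat_lit 0) (nat_lit 2) (nat_lit 1) true (nat_lit 7) true (nat_lit 9) true (nat_lit 0) true (nat_lit 10) true (nat_lit 8) (.e true (nat_lit 1) (nat_lit 55) (nat_lit 1) (nat_lit 9) (.e true (nat_lit 1) (nat_lit 56) (nat_lit 1) (nat_lit 9) (.e false (nat_lit 1) (nat_lit 57) (nat_lit 1) (nat_lit 9) (.e true (nat_lit 1) (nat_lit 11) (nat_lit 11) (nat_lit 0) (.e false (nat_lit 1) (nat_lit 76) (nat_lit 0) (nat_lit 10) (.e false (nat_lit 1) (nat_lit 48) (nat_lit 2) (nat_lit 8) (.e false (nat_lit 1) (nat_lit 51) (nat_lit 2) (nat_lit 8) (.e false (nat_lit 1) (nat_lit 54) (nat_lit 2) (nat_lit 8) .nil)))))))))) (.nd (.nd .leaf (nat_lit 32772) (nat_lit 257) (.n (nat_lit 132) (nat_lit 3) (.p (nat_lit 133) (nat_lit 3) (.n (nat_lit 134) (nat_lit 2) (.p (nat_lit 135) (nat_lit 3) (.n (nat_lit 137) (nat_lit 3) (.n (nat_lit 138) (nat_lit 1) (.p (nat_lit 139) (nat_lit 2) (.n (nat_lit 140) (nat_lit 2) (.p (nat_lit 141) (nat_lit 1) (.n (nat_lit 142) (nat_lit 1) (.p (nat_lit 144) (nat_lit 2) (.p (nat_lit 145) (nat_lit 1) (.n (nat_lit 146) (nat_lit 1) (.p (nat_lit 148) (nat_lit 1) (.n (nat_lit 149) (nat_lit 3) (.p (nat_lit 150) (nat_lit 1) (.n (nat_lit 152) (nat_lit 3) .z))))))))))))))))) (.ct dC1a_c531 (nat_lit 1) (nat_lit 5) (.s true (nat_lit 1) (nat_lit 11) (nat_lit 0) (nat_lit 2) (nat_lit 2) true (nat_lit 5) true (nat_lit 7) true (nat_lit 0) true (nat_lit 9) true (nat_lit 7) (.e true (nat_lit 1) (nat_lit 55) (nat_lit 2) (nat_lit 7) (.e true (nat_lit 1) (nat_lit 56) (nat_lit 2) (nat_lit 7) (.e false (nat_lit 1) (nat_lit 57) (nat_lit 2) (nat_lit 7) (.e false (nat_lit 1) (nat_lit 14) (nat_lit 11) (nat_lit 0) (.e false (nat_lit 1) (nat_lit 91) (nat_lit 0) (nat_lit 9) (.e true (nat_lit 1) (nat_lit 63) (nat_lit 2) (nat_lit 7) (.u (nat_lit 2) (.n (nat_lit 1) (nat_lit 1) (.p (nat_lit 2) (nat_lit 1) (.p (nat_lit 6) (nat_lit 1) (.n (nat_lit 9) (nat_lit 1) (.p (nat_lit 17) (nat_lit 1) .z))))) .nil))))))))) .leaf) (nat_lit 32773) (nat_lit 300) (.n (nat_lit 155) (nat_lit 1) (.n (nat_lit 158) (nat_lit 2) (.p (nat_lit 163) (nat_lit 1) (.n (nat_lit 165) (nat_lit 1) (.p (nat_lit 168) (nat_lit 1) (.p (nat_lit 172) (nat_lit 1) .z)))))) (.ct dC1a_c291 (nat_lit 1) (nat_lit 4) (.s true (nat_lit 1) (nat_lit 11) (nat_lit 1) (nat_lit 2) (nat_lit 2) true (nat_lit 4) true (nat_lit 7) true (nat_lit 1) true (nat_lit 8) true (nat_lit 7) (.e true (nat_lit 1) (nat_lit 68) (nat_lit 2) (nat_lit 7) (.e false (nat_lit 1) (nat_lit 16) (nat_lit 11) (nat_lit 1) (.e false (nat_lit 1) (nat_lit 91) (nat_lit 1) (nat_lit 8) (.e true (nat_lit 1) (nat_lit 71) (nat_lit 2) (nat_lit 7) .nil)))))) .leaf))))) (nat_lit 32774) (nat_lit 353) (.p (nat_lit 193) (nat_lit 1) .z) .df (.nd (.nd (.nd (.nd (.nd (.nd .leaf (nat_lit 32778) (nat_lit 558) (.p (nat_lit 212) (nat_lit 2) (.n (nat_lit 213) (nat_lit 3) (.n (nat_lit 214) (nat_lit 1) (.p (nat_lit 215) (nat_lit 1) (.p (nat_lit 217) (nat_lit 3) (.p (nat_lit 220) (nat_lit 2) (.n (nat_lit 222) (nat_lit 3) (.n (nat_lit 223) (nat_lit 1) (.p (nat_lit 224) (nat_lit 2) (.n (nat_lit 226) (nat_lit 2) (.p (nat_lit 227) (nat_lit 2) (.n (nat_lit 228) (nat_lit 1) (.n (nat_lit 229) (nat_lit 2) (.p (nat_lit 230) (nat_lit 3) (.n (nat_lit 232) (nat_lit 1) (.n (nat_lit 233) (nat_lit 2) (.p (nat_lit 234) (nat_lit 1) (.n (nat_lit 235) (nat_lit 1) (.p (nat_lit 236) (nat_lit 1) (.p (nat_lit 237) (nat_lit 1) (.p (nat_lit 238) (nat_lit 3) (.p (nat_lit 239) (nat_lit 3) (.p (nat_lit 240) (nat_lit 3) (.n (nat_lit 241) (nat_lit 2) (.n (nat_lit 242) (nat_lit 2) (.n (nat_lit 243) (nat_lit 3) (.n (nat_lit 244) (nat_lit 2) (.n (nat_lit 245) (nat_lit 3) (.n (nat_lit 246) (nat_lit 2) (.p (nat_lit 247) (nat_lit 1) (.p (nat_lit 248) (nat_lit 3) (.n (nat_lit 250) (nat_lit 1) (.n (nat_lit 251) (nat_lit 1) (.p (nat_lit 252) (nat_lit 2) (.n (nat_lit 253) (nat_lit 1) (.p (nat_lit 254) (nat_lit 1) (.n (nat_lit 255) (nat_lit 1) (.p (nat_lit 258) (nat_lit 1) .z)))))))))))))))))))))))))))))))))))))) (.ct dC1a_c547 (nat_lit 1) (nat_lit 4) (.s true (nat_lit 1) (nat_lit 10) (nat_lit 1) (nat_lit 0) (nat_lit 6) true (nat_lit 1) true (nat_lit 8) true (nat_lit 4) true (nat_lit 13) true (nat_lit 14) (.e true (nat_lit 1) (nat_lit 22) (nat_lit 17) (nat_lit 1) dC1a_i5))) .leaf) (nat_lit 32779) (nat_lit 571) (.n (nat_lit 213) (nat_lit 1) (.p (nat_lit 214) (nat_lit 2) (.n (nat_lit 215) (nat_lit 1) (.p (nat_lit 216) (nat_lit 2) (.n (nat_lit 217) (nat_lit 1) (.p (nat_lit 218) (nat_lit 2) (.p (nat_lit 219) (nat_lit 2) (.p (nat_lit 220) (nat_lit 3) (.p (nat_lit 221) (nat_lit 1) (.n (nat_lit 222) (nat_lit 2) (.n (nat_lit 224) (nat_lit 3) (.n (nat_lit 225) (nat_lit 1) (.n (nat_lit 226) (nat_lit 1) (.p (nat_lit 227) (nat_lit 2) (.n (nat_lit 228) (nat_lit 3) (.p (nat_lit 231) (nat_lit 1) (.p (nat_lit 233) (nat_lit 3) (.n (nat_lit 235) (nat_lit 3) (.n (nat_lit 236) (nat_lit 3) (.p (nat_lit 237) (nat_lit 2) (.p (nat_lit 238) (nat_lit 1) (.p (nat_lit 239) (nat_lit 3) (.n (nat_lit 241) (nat_lit 2) (.n (nat_lit 242) (nat_lit 3) (.n (nat_lit 247) (nat_lit 1) (.n (nat_lit 248) (nat_lit 3) (.p (nat_lit 249) (nat_lit 1) (.n (nat_lit 250) (nat_lit 2) (.p (nat_lit 251) (nat_lit 3) (.p (nat_lit 252) (nat_lit 2) (.n (nat_lit 253) (nat_lit 1) (.n (nat_lit 255) (nat_lit 1) (.p (nat_lit 256) (nat_lit 3) (.p (nat_lit 257) (nat_lit 3) (.n (nat_lit 258) (nat_lit 3) .z))))))))))))))))))))))))))))))))))) (.ct dC1a_c547 (nat_lit 1) (nat_lit 4) (.s true (nat_lit 1) (nat_lit 11) (nat_lit 4) (nat_lit 2) (nat_lit 1) true (nat_lit 4) true (nat_lit 13) true (nat_lit 4) true (nat_lit 10) true (nat_lit 12) (.e true (nat_lit 1) (nat_lit 132) (nat_lit 1) (nat_lit 13) (.e false (nat_lit 1) (nat_lit 133) (nat_lit 1) (nat_lit 13) (.e true (nat_lit 2) (nat_lit 134) (nat_lit 1) (nat_lit 13) (.e true (nat_lit 1) (nat_lit 135) (nat_lit 1) (nat_lit 13) (.e true (nat_lit 3) (nat_lit 136) (nat_lit 1) (nat_lit 13) (.e false (nat_lit 3) (nat_lit 137) (nat_lit 1) (nat_lit 13) (.e true (nat_lit 3) (nat_lit 138) (nat_lit 1) (nat_lit 13) (.e true (nat_lit 1) (nat_lit 139) (nat_lit 1) (nat_lit 13) (.e false (nat_lit 3) (nat_lit 141) (nat_lit 1) (nat_lit 13) (.e true (nat_lit 2) (nat_lit 142) (nat_lit 1) (nat_lit 13) (.e true (nat_lit 1) (nat_lit 34) (nat_lit 11) (nat_lit 4) (.e true (nat_lit 1) (nat_lit 76) (nat_lit 4) (nat_lit 10) (.e false (nat_lit 1) (nat_lit 131) (nat_lit 2) (nat_lit 12) (.u (nat_lit 2) (.n (nat_lit 6) (nat_lit 1) (.n (nat_lit 8) (nat_lit 1) (.p (nat_lit 10) (nat_lit 1) (.p (nat_lit 16) (nat_lit 1) (.n (nat_lit 18) (nat_lit 1) (.p (nat_lit 23) (nat_lit 1) (.n (nat_lit 24) (nat_lit 1) (.n (nat_lit 27) (nat_lit 1) (.n (nat_lit 28) (nat_lit 1) (.p (nat_lit 29) (nat_lit 1) (.p (nat_lit 38) (nat_lit 1) (.n (nat_lit 40) (nat_lit 1) (.n (nat_lit 44) (nat_lit 1) .z))))))))))))) .nil)))))))))))))))) (.nd .leaf (nat_lit 32780) (nat_lit 554) (.p (nat_lit 212) (nat_lit 3) (.n (nat_lit 213) (nat_lit 2) (.p (nat_lit 214) (nat_lit 2) (.p (nat_lit 215) (nat_lit 3) (.n (nat_lit 216) (nat_lit 3) (.p (nat_lit 217) (nat_lit 1) (.p (nat_lit 218) (nat_lit 3) (.p (nat_lit 219) (nat_lit 1) (.n (nat_lit 220) (nat_lit 1) (.p (nat_lit 222) (nat_lit 1) (.n (nat_lit 223) (nat_lit 2) (.n (nat_lit 225) (nat_lit 1) (.p (nat_lit 226) (nat_lit 2) (.p (nat_lit 227) (nat_lit 1) (.n (nat_lit 228) (nat_lit 2) (.n (nat_lit 229) (nat_lit 2) (.p (nat_lit 230) (nat_lit 3) (.n (nat_lit 231) (nat_lit 2) (.n (nat_lit 232) (nat_lit 1) (.p (nat_lit 233) (nat_lit 1) (.n (nat_lit 234) (nat_lit 3) (.n (nat_lit 235) (nat_lit 1) (.p (nat_lit 237) (nat_lit 2) (.p (nat_lit 238) (nat_lit 3) (.n (nat_lit 239) (nat_lit 2) (.n (nat_lit 241) (nat_lit 1) (.n (nat_lit 242) (nat_lit 1) (.n (nat_lit 243) (nat_lit 3) (.n (nat_lit 244) (nat_lit 1) (.p (nat_lit 245) (nat_lit 1) (.p (nat_lit 246) (nat_lit 2) (.n (nat_lit 247) (nat_lit 2) (.p (nat_lit 249) (nat_lit 1) (.n (nat_lit 250) (nat_lit 1) (.n (nat_lit 251) (nat_lit 3) (.n (nat_lit 254) (nat_lit 1) (.p (nat_lit 256) (nat_lit 3) (.p (nat_lit 257) (nat_lit 3) (.p (nat_lit 258) (nat_lit 3) .z))))))))))))))))))))))))))))))))))))))) (.ct dC1a_c547 (nat_lit 1) (nat_lit 4) (.s true (nat_lit 1) (nat_lit 17) (nat_lit 5) (nat_lit 0) (nat_lit 0) true (nat_lit 4) true (nat_lit 14) true (nat_lit 1) true (nat_lit 9) true (nat_lit 14) (.e true (nat_lit 2) (nat_lit 31) (nat_lit 12) (nat_lit 4) (.e false (nat_lit 1) (nat_lit 33) (nat_lit 12) (nat_lit 4) (.e false (nat_lit 1) (nat_lit 34) (nat_lit 12) (nat_lit 4) (.e false (nat_lit 1) (nat_lit 35) (nat_lit 12) (nat_lit 4) (.e true (nat_lit 1) (nat_lit 36) (nat_lit 12) (nat_lit 4) (.e false (nat_lit 1) (nat_lit 154) (nat_lit 0) (nat_lit 14) (.e false (nat_lit 3) (nat_lit 155) (nat_lit 0) (nat_lit 14) (.e true (nat_lit 3) (nat_lit 156) (nat_lit 0) (nat_lit 14) (.e true (nat_lit 3) (nat_lit 159) (nat_lit 0) (nat_lit 14) (.e false (nat_lit 3) (nat_lit 160) (nat_lit 0) (nat_lit 14) (.e false (nat_lit 1) (nat_lit 161) (nat_lit 0) (nat_lit 14) (.e true (nat_lit 1) (nat_lit 163) (nat_lit 0) (nat_lit 14) (.e false (nat_lit 1) (nat_lit 168) (nat_lit 0) (nat_lit 14) (.e false (nat_lit 1) (nat_lit 171) (nat_lit 0) (nat_lit 14) (.e true (nat_lit 1) (nat_lit 172) (nat_lit 0) (nat_lit 14) (.e false (nat_lit 2) (nat_lit 173) (nat_lit 0) (nat_lit 14) (.e false (nat_lit 1) (nat_lit 162) (nat_lit 0) (nat_lit 14) (.e true (nat_lit 3) (nat_lit 167) (nat_lit 0) (nat_lit 14) (.e true (nat_lit 2) (nat_lit 153) (nat_lit 0) (nat_lit 14) (.e true (nat_lit 1) (nat_lit 23) (nat_lit 17) (nat_lit 1) (.e false (nat_lit 3) (nat_lit 157) (nat_lit 0) (nat_lit 14) (.u (nat_lit 2) (.n (nat_lit 0) (nat_lit 1) (.p (nat_lit 2) (nat_lit 1) (.p (nat_lit 4) (nat_lit 2) (.n (nat_lit 5) (nat_lit 1) (.n (nat_lit 6) (nat_lit 3) (.p (nat_lit 7) (nat_lit 2) (.p (nat_lit 8) (nat_lit 1) (.n (nat_lit 10) (nat_lit 1) (.p (nat_lit 16) (nat_lit 1) (.p (nat_lit 17) (nat_lit 1) (.n (nat_lit 19) (nat_lit 1) (.p (nat_lit 20) (nat_lit 1) (.p (nat_lit 27) (nat_lit 1) (.p (nat_lit 28) (nat_lit 1) (.p (nat_lit 32) (nat_lit 1) (.p (nat_lit 39) (nat_lit 2) (.p (nat_lit 40) (nat_lit 1) (.n (nat_lit 46) (nat_lit 1) (.n (nat_lit 182) (nat_lit 1) (.n (nat_lit 183) (nat_lit 1) (.p (nat_lit 184) (nat_lit 1) (.p (nat_lit 185) (nat_lit 1) (.p (nat_lit 186) (nat_lit 1) (.n (nat_lit 187) (nat_lit 1) (.p (nat_lit 188) (nat_lit 1) (.p (nat_lit 189) (nat_lit 1) (.p (nat_lit 192) (nat_lit 2) (.p (nat_lit 195) (nat_lit 1) (.n (nat_lit 196) (nat_lit 1) (.n (nat_lit 197) (nat_lit 1) (.p (nat_lit 200) (nat_lit 1) (.p (nat_lit 201) (nat_lit 1) (.n (nat_lit 202) (nat_lit 2) .z))))))))))))))))))))))))))))))))) .nil)))))))))))))))))))))))) .leaf)) (nat_lit 32782) (nat_lit 615) (.n (nat_lit 260) (nat_lit 2) (.p (nat_lit 261) (nat_lit 2) (.n (nat_lit 262) (nat_lit 3) (.p (nat_lit 265) (nat_lit 1) (.p (nat_lit 266) (nat_lit 1) (.n (nat_lit 267) (nat_lit 2) (.n (nat_lit 268) (nat_lit 3) (.n (nat_lit 269) (nat_lit 1) (.p (nat_lit 270) (nat_lit 1) (.p (nat_lit 271) (nat_lit 3) (.n (nat_lit 272) (nat_lit 3) (.n (nat_lit 274) (nat_lit 1) (.n (nat_lit 277) (nat_lit 2) (.p (nat_lit 278) (nat_lit 2) (.n (nat_lit 279) (nat_lit 1) (.p (nat_lit 280) (nat_lit 1) (.p (nat_lit 284) (nat_lit 1) (.n (nat_lit 286) (nat_lit 3) (.n (nat_lit 287) (nat_lit 2) (.n (nat_lit 288) (nat_lit 2) .z)))))))))))))))))))) (.ct dC1a_c532 (nat_lit 1) (nat_lit 2) (.s true (nat_lit 1) (nat_lit 32) (nat_lit 0) (nat_lit 2) (nat_lit 2) true (nat_lit 8) true (nat_lit 10) false (nat_lit 2) true (nat_lit 12) true (nat_lit 10) (.e true (nat_lit 1) (nat_lit 83) (nat_lit 4) (nat_lit 8) (.e true (nat_lit 1) (nat_lit 140) (nat_lit 2) (nat_lit 10) (.e false (nat_lit 1) (nat_lit 193) (nat_lit 0) (nat_lit 12) (.e true (nat_lit 1) (nat_lit 148) (nat_lit 2) (nat_lit 10) (.u (nat_lit 2) (.n (nat_lit 1) (nat_lit 1) (.p (nat_lit 17) (nat_lit 1) (.p (nat_lit 19) (nat_lit 1) .z))) .nil))))))) (.nd (.nd .leaf (nat_lit 32783) (nat_lit 612) (.n (nat_lit 261) (nat_lit 1) (.n (nat_lit 263) (nat_lit 2) (.p (nat_lit 264) (nat_lit 2) (.p (nat_lit 265) (nat_lit 1) (.n (nat_lit 266) (nat_lit 2) (.n (nat_lit 267) (nat_lit 3) (.p (nat_lit 268) (nat_lit 3) (.p (nat_lit 269) (nat_lit 2) (.n (nat_lit 270) (nat_lit 2) (.n (nat_lit 271) (nat_lit 2) (.p (nat_lit 272) (nat_lit 2) (.p (nat_lit 273) (nat_lit 3) (.n (nat_lit 274) (nat_lit 2) (.p (nat_lit 277) (nat_lit 2) (.n (nat_lit 279) (nat_lit 3) (.p (nat_lit 280) (nat_lit 3) (.p (nat_lit 284) (nat_lit 2) (.n (nat_lit 287) (nat_lit 1) .z)))))))))))))))))) (.ct dC1a_c532 (nat_lit 1) (nat_lit 2) (.s false (nat_lit 1) (nat_lit 32) (nat_lit 2) (nat_lit 2) (nat_lit 0) true (nat_lit 8) true (nat_lit 12) false (nat_lit 2) true (nat_lit 10) true (nat_lit 10) (.e false (nat_lit 1) (nat_lit 83) (nat_lit 4) (nat_lit 8) (.e false (nat_lit 1) (nat_lit 181) (nat_lit 0) (nat_lit 12) (.e true (nat_lit 3) (nat_lit 132) (nat_lit 2) (nat_lit 10) (.e false (nat_lit 3) (nat_lit 133) (nat_lit 2) (nat_lit 10) (.e true (nat_lit 2) (nat_lit 134) (nat_lit 2) (nat_lit 10) (.e false (nat_lit 3) (nat_lit 135) (nat_lit 2) (nat_lit 10) (.e true (nat_lit 3) (nat_lit 137) (nat_lit 2) (nat_lit 10) (.e true (nat_lit 1) (nat_lit 138) (nat_lit 2) (nat_lit 10) (.e false (nat_lit 2) (nat_lit 139) (nat_lit 2) (nat_lit 10) (.e true (nat_lit 3) (nat_lit 140) (nat_lit 2) (nat_lit 10) (.e false (nat_lit 1) (nat_lit 141) (nat_lit 2) (nat_lit 10) (.e true (nat_lit 1) (nat_lit 142) (nat_lit 2) (nat_lit 10) (.e false (nat_lit 2) (nat_lit 144) (nat_lit 2) (nat_lit 10) (.e false (nat_lit 1) (nat_lit 145) (nat_lit 2) (nat_lit 10) (.e true (nat_lit 1) (nat_lit 146) (nat_lit 2) (nat_lit 10) (.e false (nat_lit 1) (nat_lit 148) (nat_lit 2) (nat_lit 10) (.e true (nat_lit 3) (nat_lit 149) (nat_lit 2) (nat_lit 10) (.e false (nat_lit 1) (nat_lit 150) (nat_lit 2) (nat_lit 10) (.e true (nat_lit 3) (nat_lit 152) (nat_lit 2) (nat_lit 10) (.u (nat_lit 2) (.p (nat_lit 1) (nat_lit 1) (.p (nat_lit 3) (nat_lit 1) (.n (nat_lit 5) (nat_lit 1) (.p (nat_lit 7) (nat_lit 1) (.n (nat_lit 8) (nat_lit 1) (.n (nat_lit 17) (nat_lit 1) (.n (nat_lit 20) (nat_lit 1) .z))))))) .nil)))))))))))))))))))))) .leaf) (nat_lit 32784) (nat_lit 765) (.n (nat_lit 291) (nat_lit 2) (.n (nat_lit 292) (nat_lit 2) (.n (nat_lit 293) (nat_lit 1) (.n (nat_lit 294) (nat_lit 1) (.n (nat_lit 295) (nat_lit 1) (.p (nat_lit 296) (nat_lit 1) (.n (nat_lit 297) (nat_lit 1) (.n (nat_lit 299) (nat_lit 1) (.n (nat_lit 300) (nat_lit 2) (.p (nat_lit 301) (nat_lit 3) (.p (nat_lit 302) (nat_lit 2) (.p (nat_lit 304) (nat_lit 3) (.n (nat_lit 305) (nat_lit 1) (.p (nat_lit 307) (nat_lit 3) (.p (nat_lit 308) (nat_lit 3) (.n (nat_lit 310) (nat_lit 1) (.p (nat_lit 312) (nat_lit 1) (.p (nat_lit 316) (nat_lit 2) (.p (nat_lit 317) (nat_lit 2) (.n (nat_lit 318) (nat_lit 2) .z)))))))))))))))))))) (.ct dC1a_c292 (nat_lit 1) (nat_lit 1) (.s true (nat_lit 1) (nat_lit 32) (nat_lit 1) (nat_lit 2) (nat_lit 2) true (nat_lit 7) true (nat_lit 10) false (nat_lit 1) true (nat_lit 11) true (nat_lit 10) (.e true (nat_lit 1) (nat_lit 83) (nat_lit 5) (nat_lit 7) (.e true (nat_lit 1) (nat_lit 158) (nat_lit 2) (nat_lit 10) (.e false (nat_lit 1) (nat_lit 193) (nat_lit 1) (nat_lit 11) (.e true (nat_lit 1) (nat_lit 165) (nat_lit 2) (nat_lit 10) (.u (nat_lit 2) (.p (nat_lit 1) (nat_lit 1) (.p (nat_lit 3) (nat_lit 1) (.n (nat_lit 12) (nat_lit 1) (.n (nat_lit 14) (nat_lit 1) .z)))) .nil))))))) .leaf)) (nat_lit 32785) (nat_lit 750) (.n (nat_lit 290) (nat_lit 1) (.n (nat_lit 291) (nat_lit 2) (.n (nat_lit 292) (nat_lit 1) (.n (nat_lit 293) (nat_lit 3) (.p (nat_lit 294) (nat_lit 2) (.p (nat_lit 295) (nat_lit 2) (.n (nat_lit 296) (nat_lit 3) (.p (nat_lit 297) (nat_lit 3) (.p (nat_lit 299) (nat_lit 3) (.p (nat_lit 300) (nat_lit 2) (.n (nat_lit 301) (nat_lit 3) (.p (nat_lit 302) (nat_lit 1) (.p (nat_lit 304) (nat_lit 2) (.p (nat_lit 305) (nat_lit 3) (.n (nat_lit 308) (nat_lit 3) (.p (nat_lit 309) (nat_lit 1) (.n (nat_lit 310) (nat_lit 1) (.p (nat_lit 311) (nat_lit 1) (.p (nat_lit 312) (nat_lit 2) (.n (nat_lit 317) (nat_lit 1) (.n (nat_lit 318) (nat_lit 1) (.n (nat_lit 319) (nat_lit 1) .z)))))))))))))))))))))) (.ct dC1a_c292 (nat_lit 1) (nat_lit 1) (.s false (nat_lit 1) (nat_lit 32) (nat_lit 2) (nat_lit 2) (nat_lit 1) true (nat_lit 7) true (nat_lit 11) false (nat_lit 1) true (nat_lit 10) true (nat_lit 10) (.e false (nat_lit 1) (nat_lit 83) (nat_lit 5) (nat_lit 7) (.e false (nat_lit 1) (nat_lit 181) (nat_lit 1) (nat_lit 11) (.e true (nat_lit 1) (nat_lit 155) (nat_lit 2) (nat_lit 10) (.e true (nat_lit 3) (nat_lit 158) (nat_lit 2) (nat_lit 10) (.e false (nat_lit 1) (nat_lit 163) (nat_lit 2) (nat_lit 10) (.e true (nat_lit 1) (nat_lit 165) (nat_lit 2) (nat_lit 10) (.e false (nat_lit 1) (nat_lit 168) (nat_lit 2) (nat_lit 10) (.e false (nat_lit 1) (nat_lit 172) (nat_lit 2) (nat_lit 10) (.u (nat_lit 2) (.n (nat_lit 5) (nat_lit 1) .z) .nil))))))))))) (.nd (.nd (.nd .leaf (nat_lit 32786) (nat_lit 841) (.n (nat_lit 340) (nat_lit 1) (.p (nat_lit 345) (nat_lit 1) .z)) (.ct dC1a_c277 (nat_lit 1) (nat_lit 0) (.s false (nat_lit 1) (nat_lit 11) (nat_lit 2) (nat_lit 2) (nat_lit 6) true (nat_lit 0) true (nat_lit 4) true (nat_lit 3) true (nat_lit 8) true (nat_lit 8) (.e false (nat_lit 1) (nat_lit 83) (nat_lit 6) (nat_lit 4) (.e true (nat_lit 1) (nat_lit 193) (nat_lit 2) (nat_lit 8) .nil)))) .leaf) (nat_lit 32799) (nat_lit 1209) (.p (nat_lit 355) (nat_lit 1) (.n (nat_lit 356) (nat_lit 1) (.p (nat_lit 357) (nat_lit 3) (.p (nat_lit 358) (nat_lit 3) (.n (nat_lit 359) (nat_lit 3) (.p (nat_lit 360) (nat_lit 3) (.p (nat_lit 361) (nat_lit 3) (.p (nat_lit 363) (nat_lit 1) (.p (nat_lit 364) (nat_lit 1) (.n (nat_lit 365) (nat_lit 3) (.n (nat_lit 366) (nat_lit 1) (.p (nat_lit 369) (nat_lit 2) (.p (nat_lit 372) (nat_lit 1) (.n (nat_lit 373) (nat_lit 2) (.n (nat_lit 374) (nat_lit 1) (.n (nat_lit 375) (nat_lit 1) (.n (nat_lit 379) (nat_lit 2) (.n (nat_lit 380) (nat_lit 2) (.p (nat_lit 381) (nat_lit 1) (.p (nat_lit 382) (nat_lit 3) (.p (nat_lit 383) (nat_lit 2) (.p (nat_lit 384) (nat_lit 3) (.n (nat_lit 385) (nat_lit 2) (.n (nat_lit 387) (nat_lit 1) (.p (nat_lit 388) (nat_lit 2) (.p (nat_lit 389) (nat_lit 3) (.p (nat_lit 392) (nat_lit 3) (.n (nat_lit 393) (nat_lit 2) (.p (nat_lit 394) (nat_lit 2) (.p (nat_lit 396) (nat_lit 3) (.p (nat_lit 397) (nat_lit 1) (.p (nat_lit 400) (nat_lit 2) (.p (nat_lit 401) (nat_lit 3) (.n (nat_lit 403) (nat_lit 3) (.p (nat_lit 404) (nat_lit 3) (.p (nat_lit 405) (nat_lit 2) (.n (nat_lit 406) (nat_lit 2) (.p (nat_lit 408) (nat_lit 3) (.p (nat_lit 409) (nat_lit 2) (.n (nat_lit 410) (nat_lit 2) (.n (nat_lit 411) (nat_lit 1) (.n (nat_lit 412) (nat_lit 1) (.p (nat_lit 413) (nat_lit 1) (.p (nat_lit 414) (nat_lit 3) (.p (nat_lit 416) (nat_lit 1) (.p (nat_lit 419) (nat_lit 1) (.n (nat_lit 420) (nat_lit 1) (.n (nat_lit 422) (nat_lit 2) (.p (nat_lit 423) (nat_lit 3) (.n (nat_lit 424) (nat_lit 3) .z)))))))))))))))))))))))))))))))))))))))))))))))))) (.ct dC1a_c548 (nat_lit 1) (nat_lit 0) (.s false (nat_lit 1) (nat_lit 32) (nat_lit 0) (nat_lit 2) (nat_lit 5) true (nat_lit 9) true (nat_lit 14) true (nat_lit 0) true (nat_lit 19) true (nat_lit 17) (.a false (nat_lit 1) (nat_lit 31) (nat_lit 32) (nat_lit 0) (nat_lit 0) (.a true (nat_lit 3) (nat_lit 32) (nat_lit 32) (nat_lit 0) (nat_lit 0) (.e false (nat_lit 1) (nat_lit 83) (nat_lit 12) (nat_lit 9) (.e false (nat_lit 1) (nat_lit 140) (nat_lit 5) (nat_lit 14) (.e true (nat_lit 1) (nat_lit 35) (nat_lit 32) (nat_lit 0) (.e false (nat_lit 1) (nat_lit 36) (nat_lit 32) (nat_lit 0) (.e false (nat_lit 2) (nat_lit 291) (nat_lit 0) (nat_lit 19) (.e false (nat_lit 2) (nat_lit 292) (nat_lit 0) (nat_lit 19) dC1a_i6)))))))))) .leaf) (nat_lit 33792) (nat_lit 86) (.p (nat_lit 55) (nat_lit 1) (.n (nat_lit 56) (nat_lit 1) (.p (nat_lit 57) (nat_lit 2) (.p (nat_lit 58) (nat_lit 1) (.n (nat_lit 61) (nat_lit 1) (.p (nat_lit 62) (nat_lit 1) (.p (nat_lit 63) (nat_lit 1) (.p (nat_lit 64) (nat_lit 1) (.n (nat_lit 65) (nat_lit 2) .z))))))))) (.ct dC1a_c530 (nat_lit 1) (nat_lit 6) (.s false (nat_lit 1) (nat_lit 5) (nat_lit 2) (nat_lit 0) (nat_lit 0) true (nat_lit 2) true (nat_lit 6) true (nat_lit 1) true (nat_lit 4) true (nat_lit 6) (.e true (nat_lit 1) (nat_lit 12) (nat_lit 4) (nat_lit 2) (.e false (nat_lit 1) (nat_lit 36) (nat_lit 0) (nat_lit 6) (.e true (nat_lit 1) (nat_lit 9) (nat_lit 5) (nat_lit 1) (.u (nat_lit 2) (.p (nat_lit 4) (nat_lit 1) (.p (nat_lit 5) (nat_lit 1) (.n (nat_lit 9) (nat_lit 1) .z))) .nil)))))) (.nd (.nd .leaf (nat_lit 33793) (nat_lit 107) (.n (nat_lit 67) (nat_lit 1) (.p (nat_lit 71) (nat_lit 1) (.n (nat_lit 75) (nat_lit 1) .z))) (.ct dC1a_c290 (nat_lit 1) (nat_lit 5) (.s false (nat_lit 1) (nat_lit 6) (nat_lit 0) (nat_lit 1) (nat_lit 1) true (nat_lit 3) true (nat_lit 5) true (nat_lit 0) true (nat_lit 6) true (nat_lit 5) (.e false (nat_lit 1) (nat_lit 17) (nat_lit 3) (nat_lit 3) (.e true (nat_lit 1) (nat_lit 8) (nat_lit 6) (nat_lit 0) (.e false (nat_lit 2) (nat_lit 31) (nat_lit 1) (nat_lit 5) (.e false (nat_lit 1) (nat_lit 32) (nat_lit 1) (nat_lit 5) (.e true (nat_lit 1) (nat_lit 34) (nat_lit 1) (nat_lit 5) (.e false (nat_lit 1) (nat_lit 36) (nat_lit 1) (nat_lit 5) .nil)))))))) .leaf) (nat_lit 33794) (nat_lit 121) (.p (nat_lit 84) (nat_lit 1) .z) .df .leaf))) (nat_lit 33795) (nat_lit 208) (.p (nat_lit 107) (nat_lit 1) (.p (nat_lit 108) (nat_lit 2) (.p (nat_lit 109) (nat_lit 2) (.n (nat_lit 110) (nat_lit 3) (.n (nat_lit 111) (nat_lit 1) (.n (nat_lit 112) (nat_lit 3) (.n (nat_lit 113) (nat_lit 1) (.n (nat_lit 114) (nat_lit 3) (.n (nat_lit 116) (nat_lit 1) (.p (nat_lit 117) (nat_lit 1) (.p (nat_lit 120) (nat_lit 2) (.n (nat_lit 121) (nat_lit 1) (.n (nat_lit 125) (nat_lit 2) (.p (nat_lit 126) (nat_lit 1) (.n (nat_lit 127) (nat_lit 1) (.p (nat_lit 129) (nat_lit 1) (.p (nat_lit 130) (nat_lit 1) .z))))))))))))))))) (.ct dC1a_c546 (nat_lit 1) (nat_lit 7) (.s true (nat_lit 1) (nat_lit 3) (nat_lit 2) (nat_lit 2) (nat_lit 3) true (nat_lit 0) true (nat_lit 7) true (nat_lit 7) true (nat_lit 8) true (nat_lit 8) (.e false (nat_lit 1) (nat_lit 10) (nat_lit 10) (nat_lit 0) (.e true (nat_lit 1) (nat_lit 31) (nat_lit 3) (nat_lit 7) (.e false (nat_lit 1) (nat_lit 32) (nat_lit 3) (nat_lit 7) (.e false (nat_lit 1) (nat_lit 34) (nat_lit 3) (nat_lit 7) (.e true (nat_lit 1) (nat_lit 36) (nat_lit 3) (nat_lit 7) (.e false (nat_lit 1) (nat_lit 47) (nat_lit 2) (nat_lit 8) (.e false (nat_lit 1) (nat_lit 48) (nat_lit 2) (nat_lit 8) (.e false (nat_lit 1) (nat_lit 49) (nat_lit 2) (nat_lit 8) (.e true (nat_lit 1) (nat_lit 50) (nat_lit 2) (nat_lit 8) (.e true (nat_lit 1) (nat_lit 51) (nat_lit 2) (nat_lit 8) (.e true (nat_lit 1) (nat_lit 52) (nat_lit 2) (nat_lit 8) (.e true (nat_lit 1) (nat_lit 53) (nat_lit 2) (nat_lit 8) (.e false (nat_lit 1) (nat_lit 54) (nat_lit 2) (nat_lit 8) (.u (nat_lit 2) (.p (nat_lit 7) (nat_lit 1) (.p (nat_lit 10) (nat_lit 1) (.n (nat_lit 13) (nat_lit 2) (.p (nat_lit 16) (nat_lit 1) .z)))) .nil)))))))))))))))) (.nd (.nd (.nd (.nd .leaf (nat_lit 33796) (nat_lit 265) (.p (nat_lit 132) (nat_lit 2) (.n (nat_lit 133) (nat_lit 2) (.n (nat_lit 134) (nat_lit 1) (.p (nat_lit 135) (nat_lit 1) (.n (nat_lit 136) (nat_lit 1) (.n (nat_lit 137) (nat_lit 3) (.p (nat_lit 138) (nat_lit 1) (.n (nat_lit 139) (nat_lit 1) (.n (nat_lit 140) (nat_lit 2) (.n (nat_lit 141) (nat_lit 1) (.p (nat_lit 142) (nat_lit 3) (.p (nat_lit 143) (nat_lit 1) (.n (nat_lit 144) (nat_lit 3) (.n (nat_lit 146) (nat_lit 1) (.n (nat_lit 147) (nat_lit 1) (.p (nat_lit 148) (nat_lit 1) (.n (nat_lit 149) (nat_lit 3) (.p (nat_lit 150) (nat_lit 1) (.p (nat_lit 151) (nat_lit 1) (.p (nat_lit 152) (nat_lit 3) .z)))))))))))))))))))) (.ct dC1a_c531 (nat_lit 1) (nat_lit 5) (.s true (nat_lit 1) (nat_lit 12) (nat_lit 0) (nat_lit 2) (nat_lit 2) true (nat_lit 5) true (nat_lit 7) true (nat_lit 0) true (nat_lit 9) true (nat_lit 7) (.e true (nat_lit 2) (nat_lit 58) (nat_lit 2) (nat_lit 7) (.e false (nat_lit 1) (nat_lit 14) (nat_lit 12) (nat_lit 0) (.e false (nat_lit 1) (nat_lit 92) (nat_lit 0) (nat_lit 9) (.e true (nat_lit 1) (nat_lit 55) (nat_lit 2) (nat_lit 7) (.e false (nat_lit 1) (nat_lit 56) (nat_lit 2) (nat_lit 7) (.e true (nat_lit 2) (nat_lit 57) (nat_lit 2) (nat_lit 7) (.e false (nat_lit 1) (nat_lit 61) (nat_lit 2) (nat_lit 7) (.e true (nat_lit 1) (nat_lit 62) (nat_lit 2) (nat_lit 7) (.e true (nat_lit 1) (nat_lit 63) (nat_lit 2) (nat_lit 7) (.e true (nat_lit 1) (nat_lit 64) (nat_lit 2) (nat_lit 7) (.e false (nat_lit 2) (nat_lit 65) (nat_lit 2) (nat_lit 7) (.u (nat_lit 2) (.p (nat_lit 1) (nat_lit 1) (.n (nat_lit 3) (nat_lit 1) (.p (nat_lit 12) (nat_lit 1) .z))) .nil)))))))))))))) .leaf) (nat_lit 33797) (nat_lit 309) (.n (nat_lit 153) (nat_lit 3) (.p (nat_lit 154) (nat_lit 1) (.p (nat_lit 155) (nat_lit 3) (.p (nat_lit 156) (nat_lit 3) (.p (nat_lit 157) (nat_lit 1) (.n (nat_lit 158) (nat_lit 2) (.n (nat_lit 159) (nat_lit 2) (.p (nat_lit 160) (nat_lit 2) (.p (nat_lit 161) (nat_lit 2) (.n (nat_lit 162) (nat_lit 1) (.n (nat_lit 163) (nat_lit 2) (.n (nat_lit 164) (nat_lit 1) (.n (nat_lit 165) (nat_lit 1) (.n (nat_lit 167) (nat_lit 3) (.p (nat_lit 168) (nat_lit 1) (.n (nat_lit 170) (nat_lit 1) (.p (nat_lit 171) (nat_lit 2) (.p (nat_lit 172) (nat_lit 1) (.p (nat_lit 173) (nat_lit 3) .z))))))))))))))))))) (.ct dC1a_c291 (nat_lit 1) (nat_lit 4) (.s true (nat_lit 1) (nat_lit 12) (nat_lit 1) (nat_lit 2) (nat_lit 2) true (nat_lit 4) true (nat_lit 7) true (nat_lit 1) true (nat_lit 8) true (nat_lit 7) (.e true (nat_lit 1) (nat_lit 69) (nat_lit 2) (nat_lit 7) (.e false (nat_lit 1) (nat_lit 16) (nat_lit 12) (nat_lit 1) (.e false (nat_lit 1) (nat_lit 92) (nat_lit 1) (nat_lit 8) (.e false (nat_lit 1) (nat_lit 67) (nat_lit 2) (nat_lit 7) (.e true (nat_lit 1) (nat_lit 71) (nat_lit 2) (nat_lit 7) (.e false (nat_lit 1) (nat_lit 75) (nat_lit 2) (nat_lit 7) (.u (nat_lit 2) (.n (nat_lit 3) (nat_lit 1) (.n (nat_lit 8) (nat_lit 1) (.p (nat_lit 14) (nat_lit 1) (.n (nat_lit 18) (nat_lit 1) .z)))) .nil))))))))) .leaf) (nat_lit 33798) (nat_lit 354) (.p (nat_lit 194) (nat_lit 1) .z) .df (.nd (.nd .leaf (nat_lit 33802) (nat_lit 557) (.p (nat_lit 212) (nat_lit 3) (.p (nat_lit 213) (nat_lit 3) (.p (nat_lit 214) (nat_lit 2) (.p (nat_lit 215) (nat_lit 3) (.n (nat_lit 217) (nat_lit 1) (.n (nat_lit 218) (nat_lit 2) (.p (nat_lit 219) (nat_lit 2) (.n (nat_lit 220) (nat_lit 1) (.n (nat_lit 221) (nat_lit 1) (.n (nat_lit 222) (nat_lit 2) (.p (nat_lit 223) (nat_lit 1) (.n (nat_lit 224) (nat_lit 2) (.n (nat_lit 226) (nat_lit 3) (.n (nat_lit 227) (nat_lit 3) (.p (nat_lit 228) (nat_lit 3) (.p (nat_lit 229) (nat_lit 3) (.p (nat_lit 230) (nat_lit 2) (.p (nat_lit 231) (nat_lit 3) (.n (nat_lit 232) (nat_lit 3) (.p (nat_lit 233) (nat_lit 2) (.n (nat_lit 234) (nat_lit 2) (.p (nat_lit 236) (nat_lit 1) (.n (nat_lit 237) (nat_lit 3) (.p (nat_lit 238) (nat_lit 3) (.p (nat_lit 239) (nat_lit 2) (.n (nat_lit 240) (nat_lit 2) (.p (nat_lit 241) (nat_lit 1) (.n (nat_lit 242) (nat_lit 2) (.n (nat_lit 243) (nat_lit 2) (.n (nat_lit 244) (nat_lit 3) (.p (nat_lit 245) (nat_lit 3) (.n (nat_lit 246) (nat_lit 1) (.p (nat_lit 247) (nat_lit 1) (.p (nat_lit 248) (nat_lit 2) (.p (nat_lit 249) (nat_lit 3) (.p (nat_lit 251) (nat_lit 3) (.p (nat_lit 254) (nat_lit 1) (.n (nat_lit 255) (nat_lit 1) (.n (nat_lit 258) (nat_lit 3) .z))))))))))))))))))))))))))))))))))))))) (.ct dC1a_c547 (nat_lit 1) (nat_lit 4) (.s true (nat_lit 1) (nat_lit 10) (nat_lit 5) (nat_lit 0) (nat_lit 2) true (nat_lit 1) true (nat_lit 12) true (nat_lit 4) true (nat_lit 9) true (nat_lit 14) (.e false (nat_lit 1) (nat_lit 22) (nat_lit 16) (nat_lit 1) (.e true (nat_lit 1) (nat_lit 127) (nat_lit 2) (nat_lit 12) (.e true (nat_lit 1) (nat_lit 55) (nat_lit 5) (nat_lit 9) (.e false (nat_lit 1) (nat_lit 56) (nat_lit 5) (nat_lit 9) (.e true (nat_lit 3) (nat_lit 57) (nat_lit 5) (nat_lit 9) (.e true (nat_lit 1) (nat_lit 58) (nat_lit 5) (nat_lit 9) (.e false (nat_lit 1) (nat_lit 61) (nat_lit 5) (nat_lit 9) (.e true (nat_lit 1) (nat_lit 62) (nat_lit 5) (nat_lit 9) (.e true (nat_lit 1) (nat_lit 64) (nat_lit 5) (nat_lit 9) (.e false (nat_lit 2) (nat_lit 65) (nat_lit 5) (nat_lit 9) (.e false (nat_lit 1) (nat_lit 154) (nat_lit 0) (nat_lit 14) (.e false (nat_lit 2) (nat_lit 157) (nat_lit 0) (nat_lit 14) (.e true (nat_lit 1) (nat_lit 162) (nat_lit 0) (nat_lit 14) (.e false (nat_lit 1) (nat_lit 164) (nat_lit 0) (nat_lit 14) (.e true (nat_lit 1) (nat_lit 167) (nat_lit 0) (nat_lit 14) (.e true (nat_lit 1) (nat_lit 171) (nat_lit 0) (nat_lit 14) (.u (nat_lit 2) (.n (nat_lit 2) (nat_lit 3) (.p (nat_lit 4) (nat_lit 1) (.p (nat_lit 5) (nat_lit 1) (.p (nat_lit 6) (nat_lit 1) (.p (nat_lit 10) (nat_lit 1) (.p (nat_lit 12) (nat_lit 1) (.n (nat_lit 15) (nat_lit 2) (.n (nat_lit 16) (nat_lit 1) (.p (nat_lit 17) (nat_lit 1) (.p (nat_lit 19) (nat_lit 1) (.p (nat_lit 20) (nat_lit 2) (.n (nat_lit 21) (nat_lit 1) (.n (nat_lit 22) (nat_lit 1) (.p (nat_lit 23) (nat_lit 1) (.p (nat_lit 25) (nat_lit 2) (.n (nat_lit 26) (nat_lit 1) (.n (nat_lit 27) (nat_lit 1) (.p (nat_lit 30) (nat_lit 1) (.p (nat_lit 32) (nat_lit 1) (.p (nat_lit 33) (nat_lit 1) (.p (nat_lit 34) (nat_lit 2) (.n (nat_lit 35) (nat_lit 2) (.n (nat_lit 37) (nat_lit 1) (.n (nat_lit 39) (nat_lit 1) (.p (nat_lit 46) (nat_lit 1) .z))))))))))))))))))))))))) .nil))))))))))))))))))) .leaf) (nat_lit 33803) (nat_lit 565) (.n (nat_lit 212) (nat_lit 2) (.p (nat_lit 213) (nat_lit 1) (.n (nat_lit 214) (nat_lit 2) (.p (nat_lit 215) (nat_lit 2) (.n (nat_lit 216) (nat_lit 2) (.n (nat_lit 217) (nat_lit 2) (.p (nat_lit 218) (nat_lit 2) (.p (nat_lit 219) (nat_lit 2) (.p (nat_lit 220) (nat_lit 2) (.n (nat_lit 221) (nat_lit 1) (.n (nat_lit 222) (nat_lit 1) (.n (nat_lit 223) (nat_lit 1) (.p (nat_lit 224) (nat_lit 1) (.n (nat_lit 225) (nat_lit 1) (.n (nat_lit 226) (nat_lit 1) (.p (nat_lit 227) (nat_lit 3) (.n (nat_lit 228) (nat_lit 3) (.n (nat_lit 229) (nat_lit 2) (.p (nat_lit 230) (nat_lit 1) (.n (nat_lit 231) (nat_lit 2) (.n (nat_lit 232) (nat_lit 1) (.p (nat_lit 233) (nat_lit 1) (.p (nat_lit 234) (nat_lit 2) (.n (nat_lit 235) (nat_lit 3) (.p (nat_lit 236) (nat_lit 1) (.n (nat_lit 237) (nat_lit 2) (.n (nat_lit 238) (nat_lit 3) (.p (nat_lit 240) (nat_lit 2) (.n (nat_lit 242) (nat_lit 2) (.n (nat_lit 243) (nat_lit 3) (.n (nat_lit 244) (nat_lit 1) (.n (nat_lit 245) (nat_lit 3) (.n (nat_lit 250) (nat_lit 1) (.p (nat_lit 251) (nat_lit 3) (.p (nat_lit 252) (nat_lit 1) (.n (nat_lit 255) (nat_lit 1) (.p (nat_lit 256) (nat_lit 3) (.p (nat_lit 257) (nat_lit 3) (.n (nat_lit 258) (nat_lit 3) .z))))))))))))))))))))))))))))))))))))))) (.ct dC1a_c547 (nat_lit 1) (nat_lit 4) (.s true (nat_lit 1) (nat_lit 33) (nat_lit 0) (nat_lit 2) (nat_lit 1) true (nat_lit 11) true (nat_lit 13) false (nat_lit 4) true (nat_lit 14) true (nat_lit 12) (.e true (nat_lit 1) (nat_lit 84) (nat_lit 3) (nat_lit 11) (.e true (nat_lit 1) (nat_lit 132) (nat_lit 1) (nat_lit 13) (.e false (nat_lit 1) (nat_lit 133) (nat_lit 1) (nat_lit 13) (.e true (nat_lit 2) (nat_lit 134) (nat_lit 1) (nat_lit 13) (.e true (nat_lit 1) (nat_lit 135) (nat_lit 1) (nat_lit 13) (.e false (nat_lit 1) (nat_lit 138) (nat_lit 1) (nat_lit 13) (.e true (nat_lit 1) (nat_lit 139) (nat_lit 1) (nat_lit 13) (.e true (nat_lit 1) (nat_lit 140) (nat_lit 1) (nat_lit 13) (.e true (nat_lit 1) (nat_lit 141) (nat_lit 1) (nat_lit 13) (.e false (nat_lit 2) (nat_lit 142) (nat_lit 1) (nat_lit 13) (.e true (nat_lit 3) (nat_lit 153) (nat_lit 0) (nat_lit 14) (.e false (nat_lit 1) (nat_lit 154) (nat_lit 0) (nat_lit 14) (.e false (nat_lit 3) (nat_lit 155) (nat_lit 0) (nat_lit 14) (.e false (nat_lit 3) (nat_lit 156) (nat_lit 0) (nat_lit 14) (.e false (nat_lit 1) (nat_lit 157) (nat_lit 0) (nat_lit 14) (.e true (nat_lit 2) (nat_lit 158) (nat_lit 0) (nat_lit 14) (.e true (nat_lit 2) (nat_lit 159) (nat_lit 0) (nat_lit 14) (.e false (nat_lit 2) (nat_lit 160) (nat_lit 0) (nat_lit 14) (.e false (nat_lit 2) (nat_lit 161) (nat_lit 0) (nat_lit 14) (.e true (nat_lit 1) (nat_lit 162) (nat_lit 0) (nat_lit 14) (.e true (nat_lit 2) (nat_lit 163) (nat_lit 0) (nat_lit 14) (.e true (nat_lit 1) (nat_lit 164) (nat_lit 0) (nat_lit 14) dC1a_i7)))))))))))))))))))))))) .leaf)) (nat_lit 33804) (nat_lit 547) (.n (nat_lit 212) (nat_lit 3) (.p (nat_lit 213) (nat_lit 2) (.p (nat_lit 214) (nat_lit 3) (.n (nat_lit 215) (nat_lit 1) (.p (nat_lit 216) (nat_lit 3) (.p (nat_lit 217) (nat_lit 1) (.n (nat_lit 218) (nat_lit 1) (.n (nat_lit 219) (nat_lit 2) (.p (nat_lit 220) (nat_lit 3) (.n (nat_lit 221) (nat_lit 2) (.p (nat_lit 222) (nat_lit 2) (.n (nat_lit 223) (nat_lit 1) (.n (nat_lit 224) (nat_lit 3) (.n (nat_lit 225) (nat_lit 1) (.p (nat_lit 227) (nat_lit 2) (.p (nat_lit 228) (nat_lit 1) (.n (nat_lit 229) (nat_lit 3) (.n (nat_lit 230) (nat_lit 2) (.p (nat_lit 233) (nat_lit 2) (.n (nat_lit 234) (nat_lit 1) (.p (nat_lit 235) (nat_lit 2) (.n (nat_lit 236) (nat_lit 3) (.p (nat_lit 237) (nat_lit 3) (.p (nat_lit 238) (nat_lit 3) (.p (nat_lit 239) (nat_lit 3) (.p (nat_lit 240) (nat_lit 3) (.n (nat_lit 241) (nat_lit 2) (.n (nat_lit 243) (nat_lit 2) (.p (nat_lit 244) (nat_lit 2) (.p (nat_lit 245) (nat_lit 1) (.p (nat_lit 246) (nat_lit 1) (.n (nat_lit 247) (nat_lit 1) (.n (nat_lit 248) (nat_lit 1) (.n (nat_lit 249) (nat_lit 3) (.n (nat_lit 250) (nat_lit 1) (.p (nat_lit 252) (nat_lit 1) (.n (nat_lit 254) (nat_lit 1) (.p (nat_lit 256) (nat_lit 3) (.p (nat_lit 257) (nat_lit 3) .z))))))))))))))))))))))))))))))))))))))) (.ct dC1a_c547 (nat_lit 1) (nat_lit 4) (.s true (nat_lit 1) (nat_lit 33) (nat_lit 1) (nat_lit 2) (nat_lit 0) true (nat_lit 11) true (nat_lit 14) false (nat_lit 4) true (nat_lit 13) true (nat_lit 12) (.e false (nat_lit 1) (nat_lit 84) (nat_lit 3) (nat_lit 11) (.e false (nat_lit 1) (nat_lit 154) (nat_lit 0) (nat_lit 14) (.e true (nat_lit 1) (nat_lit 158) (nat_lit 0) (nat_lit 14) (.e false (nat_lit 1) (nat_lit 162) (nat_lit 0) (nat_lit 14) (.e false (nat_lit 2) (nat_lit 132) (nat_lit 1) (nat_lit 13) (.e true (nat_lit 2) (nat_lit 133) (nat_lit 1) (nat_lit 13) (.e true (nat_lit 1) (nat_lit 134) (nat_lit 1) (nat_lit 13) (.e false (nat_lit 1) (nat_lit 135) (nat_lit 1) (nat_lit 13) (.e true (nat_lit 1) (nat_lit 136) (nat_lit 1) (nat_lit 13) (.e true (nat_lit 3) (nat_lit 137) (nat_lit 1) (nat_lit 13) dC1a_i8)))))))))))) (.nd (.nd (.nd .leaf (nat_lit 33806) (nat_lit 658) (.n (nat_lit 260) (nat_lit 3) (.p (nat_lit 261) (nat_lit 2) (.p (nat_lit 262) (nat_lit 2) (.p (nat_lit 263) (nat_lit 1) (.p (nat_lit 264) (nat_lit 3) (.n (nat_lit 265) (nat_lit 3) (.n (nat_lit 266) (nat_lit 1) (.n (nat_lit 267) (nat_lit 3) (.p (nat_lit 268) (nat_lit 3) (.n (nat_lit 269) (nat_lit 2) (.n (nat_lit 270) (nat_lit 1) (.n (nat_lit 271) (nat_lit 1) (.n (nat_lit 272) (nat_lit 3) (.p (nat_lit 273) (nat_lit 1) (.p (nat_lit 274) (nat_lit 2) (.n (nat_lit 277) (nat_lit 3) (.p (nat_lit 278) (nat_lit 1) (.n (nat_lit 279) (nat_lit 2) (.p (nat_lit 280) (nat_lit 1) (.n (nat_lit 281) (nat_lit 1) (.n (nat_lit 283) (nat_lit 1) (.p (nat_lit 284) (nat_lit 1) (.n (nat_lit 286) (nat_lit 2) (.n (nat_lit 287) (nat_lit 1) (.n (nat_lit 288) (nat_lit 3) (.p (nat_lit 289) (nat_lit 1) .z)))))))))))))))))))))))))) (.ct dC1a_c532 (nat_lit 1) (nat_lit 2) (.s true (nat_lit 1) (nat_lit 12) (nat_lit 4) (nat_lit 2) (nat_lit 2) true (nat_lit 2) true (nat_lit 10) true (nat_lit 3) true (nat_lit 8) true (nat_lit 10) (.e false (nat_lit 3) (nat_lit 133) (nat_lit 2) (nat_lit 10) (.e false (nat_lit 1) (nat_lit 134) (nat_lit 2) (nat_lit 10) (.e false (nat_lit 2) (nat_lit 135) (nat_lit 2) (nat_lit 10) (.e true (nat_lit 2) (nat_lit 137) (nat_lit 2) (nat_lit 10) (.e true (nat_lit 1) (nat_lit 140) (nat_lit 2) (nat_lit 10) (.e false (nat_lit 2) (nat_lit 142) (nat_lit 2) (nat_lit 10) (.e false (nat_lit 1) (nat_lit 40) (nat_lit 12) (nat_lit 3) (.e false (nat_lit 1) (nat_lit 92) (nat_lit 4) (nat_lit 8) (.e false (nat_lit 2) (nat_lit 132) (nat_lit 2) (nat_lit 10) (.e true (nat_lit 1) (nat_lit 141) (nat_lit 2) (nat_lit 10) (.e false (nat_lit 1) (nat_lit 143) (nat_lit 2) (nat_lit 10) (.e true (nat_lit 3) (nat_lit 144) (nat_lit 2) (nat_lit 10) (.e true (nat_lit 1) (nat_lit 146) (nat_lit 2) (nat_lit 10) (.e true (nat_lit 1) (nat_lit 147) (nat_lit 2) (nat_lit 10) (.e false (nat_lit 1) (nat_lit 148) (nat_lit 2) (nat_lit 10) (.e true (nat_lit 3) (nat_lit 149) (nat_lit 2) (nat_lit 10) (.e false (nat_lit 1) (nat_lit 150) (nat_lit 2) (nat_lit 10) (.e false (nat_lit 1) (nat_lit 151) (nat_lit 2) (nat_lit 10) (.e false (nat_lit 3) (nat_lit 152) (nat_lit 2) (nat_lit 10) (.u (nat_lit 2) (.p (nat_lit 0) (nat_lit 1) (.n (nat_lit 4) (nat_lit 1) (.p (nat_lit 7) (nat_lit 1) (.p (nat_lit 10) (nat_lit 1) (.p (nat_lit 11) (nat_lit 1) (.p (nat_lit 28) (nat_lit 1) (.n (nat_lit 97) (nat_lit 1) .z))))))) .nil)))))))))))))))))))))) .leaf) (nat_lit 33807) (nat_lit 660) (.n (nat_lit 260) (nat_lit 3) (.n (nat_lit 261) (nat_lit 3) (.p (nat_lit 262) (nat_lit 3) (.n (nat_lit 263) (nat_lit 2) (.p (nat_lit 264) (nat_lit 3) (.p (nat_lit 265) (nat_lit 2) (.p (nat_lit 266) (nat_lit 1) (.p (nat_lit 267) (nat_lit 1) (.n (nat_lit 268) (nat_lit 1) (.p (nat_lit 269) (nat_lit 3) (.p (nat_lit 270) (nat_lit 1) (.p (nat_lit 271) (nat_lit 3) (.n (nat_lit 272) (nat_lit 1) (.p (nat_lit 273) (nat_lit 1) (.n (nat_lit 274) (nat_lit 2) (.p (nat_lit 277) (nat_lit 1) (.p (nat_lit 278) (nat_lit 2) (.p (nat_lit 279) (nat_lit 3) (.n (nat_lit 280) (nat_lit 1) (.n (nat_lit 281) (nat_lit 1) (.n (nat_lit 283) (nat_lit 2) (.p (nat_lit 284) (nat_lit 2) (.n (nat_lit 286) (nat_lit 3) (.p (nat_lit 288) (nat_lit 1) (.p (nat_lit 289) (nat_lit 1) .z))))))))))))))))))))))))) (.ct dC1a_c532 (nat_lit 1) (nat_lit 2) (.s false (nat_lit 1) (nat_lit 33) (nat_lit 2) (nat_lit 2) (nat_lit 0) true (nat_lit 8) true (nat_lit 12) false (nat_lit 2) true (nat_lit 10) true (nat_lit 10) (.e false (nat_lit 1) (nat_lit 84) (nat_lit 4) (nat_lit 8) (.e false (nat_lit 1) (nat_lit 182) (nat_lit 0) (nat_lit 12) (.e false (nat_lit 1) (nat_lit 132) (nat_lit 2) (nat_lit 10) (.e true (nat_lit 1) (nat_lit 133) (nat_lit 2) (nat_lit 10) (.e true (nat_lit 3) (nat_lit 134) (nat_lit 2) (nat_lit 10) (.e true (nat_lit 1) (nat_lit 136) (nat_lit 2) (nat_lit 10) (.e true (nat_lit 3) (nat_lit 137) (nat_lit 2) (nat_lit 10) (.e false (nat_lit 2) (nat_lit 138) (nat_lit 2) (nat_lit 10) (.e true (nat_lit 2) (nat_lit 139) (nat_lit 2) (nat_lit 10) (.e true (nat_lit 3) (nat_lit 140) (nat_lit 2) (nat_lit 10) (.e true (nat_lit 2) (nat_lit 141) (nat_lit 2) (nat_lit 10) (.e true (nat_lit 2) (nat_lit 142) (nat_lit 2) (nat_lit 10) (.e false (nat_lit 1) (nat_lit 143) (nat_lit 2) (nat_lit 10) (.e true (nat_lit 3) (nat_lit 144) (nat_lit 2) (nat_lit 10) (.e true (nat_lit 1) (nat_lit 146) (nat_lit 2) (nat_lit 10) (.e true (nat_lit 1) (nat_lit 147) (nat_lit 2) (nat_lit 10) (.e false (nat_lit 1) (nat_lit 148) (nat_lit 2) (nat_lit 10) (.e true (nat_lit 3) (nat_lit 149) (nat_lit 2) (nat_lit 10) (.e false (nat_lit 1) (nat_lit 150) (nat_lit 2) (nat_lit 10) (.e false (nat_lit 1) (nat_lit 151) (nat_lit 2) (nat_lit 10) (.e false (nat_lit 3) (nat_lit 152) (nat_lit 2) (nat_lit 10) (.u (nat_lit 2) (.n (nat_lit 2) (nat_lit 1) (.n (nat_lit 5) (nat_lit 1) (.n (nat_lit 7) (nat_lit 1) (.n (nat_lit 19) (nat_lit 1) (.p (nat_lit 20) (nat_lit 1) (.p (nat_lit 26) (nat_lit 1) (.p (nat_lit 106) (nat_lit 1) .z))))))) .nil)))))))))))))))))))))))) .leaf) (nat_lit 33808) (nat_lit 770) (.n (nat_lit 291) (nat_lit 1) (.n (nat_lit 292) (nat_lit 2) (.n (nat_lit 293) (nat_lit 1) (.p (nat_lit 294) (nat_lit 3) (.n (nat_lit 295) (nat_lit 1) (.n (nat_lit 296) (nat_lit 1) (.p (nat_lit 297) (nat_lit 1) (.n (nat_lit 298) (nat_lit 3) (.n (nat_lit 299) (nat_lit 3) (.p (nat_lit 300) (nat_lit 2) (.n (nat_lit 301) (nat_lit 3) (.p (nat_lit 302) (nat_lit 2) (.n (nat_lit 304) (nat_lit 2) (.n (nat_lit 305) (nat_lit 1) (.p (nat_lit 307) (nat_lit 1) (.n (nat_lit 308) (nat_lit 2) (.p (nat_lit 310) (nat_lit 3) (.p (nat_lit 312) (nat_lit 1) (.p (nat_lit 316) (nat_lit 2) (.p (nat_lit 317) (nat_lit 1) (.n (nat_lit 318) (nat_lit 2) (.n (nat_lit 319) (nat_lit 1) .z)))))))))))))))))))))) (.ct dC1a_c292 (nat_lit 1) (nat_lit 1) (.s false (nat_lit 1) (nat_lit 33) (nat_lit 2) (nat_lit 1) (nat_lit 2) true (nat_lit 6) true (nat_lit 10) false (nat_lit 1) true (nat_lit 10) true (nat_lit 11) (.e false (nat_lit 1) (nat_lit 67) (nat_lit 6) (nat_lit 6) (.e true (nat_lit 1) (nat_lit 71) (nat_lit 6) (nat_lit 6) (.e false (nat_lit 1) (nat_lit 75) (nat_lit 6) (nat_lit 6) (.e true (nat_lit 3) (nat_lit 153) (nat_lit 2) (nat_lit 10) (.e false (nat_lit 2) (nat_lit 155) (nat_lit 2) (nat_lit 10) (.e true (nat_lit 1) (nat_lit 156) (nat_lit 2) (nat_lit 10) (.e true (nat_lit 3) (nat_lit 157) (nat_lit 2) (nat_lit 10) (.e true (nat_lit 1) (nat_lit 159) (nat_lit 2) (nat_lit 10) (.e false (nat_lit 1) (nat_lit 160) (nat_lit 2) (nat_lit 10) (.e false (nat_lit 1) (nat_lit 161) (nat_lit 2) (nat_lit 10) (.e true (nat_lit 2) (nat_lit 162) (nat_lit 2) (nat_lit 10) (.e false (nat_lit 1) (nat_lit 163) (nat_lit 2) (nat_lit 10) (.e false (nat_lit 2) (nat_lit 164) (nat_lit 2) (nat_lit 10) (.e false (nat_lit 2) (nat_lit 165) (nat_lit 2) (nat_lit 10) (.e false (nat_lit 1) (nat_lit 167) (nat_lit 2) (nat_lit 10) (.e false (nat_lit 2) (nat_lit 170) (nat_lit 2) (nat_lit 10) (.e false (nat_lit 1) (nat_lit 171) (nat_lit 2) (nat_lit 10) (.e true (nat_lit 2) (nat_lit 173) (nat_lit 2) (nat_lit 10) (.e false (nat_lit 2) (nat_lit 158) (nat_lit 2) (nat_lit 10) (.e true (nat_lit 1) (nat_lit 168) (nat_lit 2) (nat_lit 10) (.e true (nat_lit 1) (nat_lit 172) (nat_lit 2) (nat_lit 10) (.e false (nat_lit 1) (nat_lit 182) (nat_lit 1) (nat_lit 11) (.u (nat_lit 2) (.n (nat_lit 0) (nat_lit 1) (.n (nat_lit 4) (nat_lit 1) (.p (nat_lit 8) (nat_lit 1) (.p (nat_lit 11) (nat_lit 2) (.p (nat_lit 14) (nat_lit 1) (.p (nat_lit 17) (nat_lit 1) (.p (nat_lit 18) (nat_lit 1) (.n (nat_lit 20) (nat_lit 1) (.p (nat_lit 96) (nat_lit 1) (.n (nat_lit 98) (nat_lit 1) .z)))))))))) .nil))))))))))))))))))))))))) (.nd (.nd .leaf (nat_lit 33809) (nat_lit 743) (.n (nat_lit 290) (nat_lit 3) (.p (nat_lit 291) (nat_lit 1) (.p (nat_lit 292) (nat_lit 3) (.p (nat_lit 294) (nat_lit 3) (.p (nat_lit 295) (nat_lit 2) (.n (nat_lit 298) (nat_lit 1) (.n (nat_lit 299) (nat_lit 1) (.p (nat_lit 300) (nat_lit 3) (.n (nat_lit 301) (nat_lit 1) (.p (nat_lit 302) (nat_lit 1) (.p (nat_lit 304) (nat_lit 3) (.p (nat_lit 305) (nat_lit 3) (.p (nat_lit 307) (nat_lit 3) (.n (nat_lit 308) (nat_lit 1) (.p (nat_lit 309) (nat_lit 1) (.p (nat_lit 312) (nat_lit 2) (.p (nat_lit 316) (nat_lit 3) (.n (nat_lit 318) (nat_lit 1) (.n (nat_lit 319) (nat_lit 2) .z))))))))))))))))))) (.ct dC1a_c292 (nat_lit 1) (nat_lit 1) (.s false (nat_lit 1) (nat_lit 33) (nat_lit 2) (nat_lit 2) (nat_lit 1) true (nat_lit 7) true (nat_lit 11) false (nat_lit 1) true (nat_lit 10) true (nat_lit 10) (.e false (nat_lit 1) (nat_lit 84) (nat_lit 5) (nat_lit 7) (.e false (nat_lit 1) (nat_lit 182) (nat_lit 1) (nat_lit 11) (.e true (nat_lit 3) (nat_lit 153) (nat_lit 2) (nat_lit 10) (.e false (nat_lit 2) (nat_lit 154) (nat_lit 2) (nat_lit 10) (.e false (nat_lit 3) (nat_lit 155) (nat_lit 2) (nat_lit 10) (.e false (nat_lit 3) (nat_lit 156) (nat_lit 2) (nat_lit 10) (.e false (nat_lit 1) (nat_lit 157) (nat_lit 2) (nat_lit 10) (.e true (nat_lit 3) (nat_lit 158) (nat_lit 2) (nat_lit 10) (.e true (nat_lit 2) (nat_lit 159) (nat_lit 2) (nat_lit 10) (.e false (nat_lit 2) (nat_lit 160) (nat_lit 2) (nat_lit 10) (.e false (nat_lit 2) (nat_lit 161) (nat_lit 2) (nat_lit 10) (.e true (nat_lit 2) (nat_lit 163) (nat_lit 2) (nat_lit 10) (.e true (nat_lit 1) (nat_lit 164) (nat_lit 2) (nat_lit 10) (.e true (nat_lit 1) (nat_lit 165) (nat_lit 2) (nat_lit 10) (.e true (nat_lit 3) (nat_lit 167) (nat_lit 2) (nat_lit 10) (.e false (nat_lit 1) (nat_lit 168) (nat_lit 2) (nat_lit 10) (.e true (nat_lit 1) (nat_lit 170) (nat_lit 2) (nat_lit 10) (.e false (nat_lit 2) (nat_lit 171) (nat_lit 2) (nat_lit 10) (.e false (nat_lit 1) (nat_lit 172) (nat_lit 2) (nat_lit 10) (.e false (nat_lit 3) (nat_lit 173) (nat_lit 2) (nat_lit 10) (.u (nat_lit 2) (.p (nat_lit 3) (nat_lit 1) (.n (nat_lit 5) (nat_lit 1) (.p (nat_lit 8) (nat_lit 1) (.n (nat_lit 14) (nat_lit 1) (.p (nat_lit 18) (nat_lit 1) .z))))) .nil))))))))))))))))))))))) .leaf) (nat_lit 33810) (nat_lit 842) (.n (nat_lit 341) (nat_lit 1) (.p (nat_lit 346) (nat_lit 1) .z)) (.ct dC1a_c277 (nat_lit 1) (nat_lit 0) (.s false (nat_lit 1) (nat_lit 12) (nat_lit 2) (nat_lit 2) (nat_lit 6) true (nat_lit 0) true (nat_lit 4) true (nat_lit 3) true (nat_lit 8) true (nat_lit 8) (.e false (nat_lit 1) (nat_lit 84) (nat_lit 6) (nat_lit 4) (.e true (nat_lit 1) (nat_lit 194) (nat_lit 2) (nat_lit 8) .nil)))) .leaf)))) (nat_lit 34816) (nat_lit 87) (.p (nat_lit 55) (nat_lit 1) (.p (nat_lit 57) (nat_lit 1) (.p (nat_lit 58) (nat_lit 1) (.p (nat_lit 59) (nat_lit 3) (.p (nat_lit 60) (nat_lit 3) (.n (nat_lit 61) (nat_lit 3) (.n (nat_lit 63) (nat_lit 1) (.n (nat_lit 64) (nat_lit 3) (.p (nat_lit 65) (nat_lit 3) .z))))))))) (.ct dC1a_c530 (nat_lit 1) (nat_lit 6) (.s true (nat_lit 1) (nat_lit 6) (nat_lit 0) (nat_lit 1) (nat_lit 0) false (nat_lit 7) true (nat_lit 6) true (nat_lit 0) true (nat_lit 6) true (nat_lit 5) (.e true (nat_lit 1) (nat_lit 35) (nat_lit 0) (nat_lit 6) (.e false (nat_lit 1) (nat_lit 7) (nat_lit 6) (nat_lit 0) (.e true (nat_lit 1) (nat_lit 32) (nat_lit 0) (nat_lit 6) (.e false (nat_lit 1) (nat_lit 33) (nat_lit 0) (nat_lit 6) (.e false (nat_lit 1) (nat_lit 36) (nat_lit 0) (nat_lit 6) (.e false (nat_lit 1) (nat_lit 30) (nat_lit 1) (nat_lit 5) (.u (nat_lit 2) (.n (nat_lit 10) (nat_lit 1) .z) .nil))))))))) (.nd (.nd (.nd (.nd (.nd .leaf (nat_lit 34817) (nat_lit 96) (.p (nat_lit 72) (nat_lit 1) .z) .df .leaf) (nat_lit 34818) (nat_lit 122) (.p (nat_lit 85) (nat_lit 1) .z) .df .leaf) (nat_lit 34819) (nat_lit 198) (.n (nat_lit 109) (nat_lit 1) (.p (nat_lit 112) (nat_lit 1) (.n (nat_lit 114) (nat_lit 1) (.p (nat_lit 115) (nat_lit 2) (.p (nat_lit 117) (nat_lit 2) (.p (nat_lit 118) (nat_lit 1) (.n (nat_lit 120) (nat_lit 2) (.p (nat_lit 122) (nat_lit 1) (.p (nat_lit 123) (nat_lit 1) (.n (nat_lit 124) (nat_lit 2) (.p (nat_lit 125) (nat_lit 1) (.n (nat_lit 129) (nat_lit 1) (.n (nat_lit 130) (nat_lit 1) .z))))))))))))) (.ct dC1a_c546 (nat_lit 1) (nat_lit 7) (.s true (nat_lit 1) (nat_lit 14) (nat_lit 0) (nat_lit 1) (nat_lit 1) true (nat_lit 7) true (nat_lit 9) false (nat_lit 2) true (nat_lit 10) true (nat_lit 9) (.e false (nat_lit 2) (nat_lit 60) (nat_lit 1) (nat_lit 9) (.e true (nat_lit 1) (nat_lit 14) (nat_lit 8) (nat_lit 2) (.e false (nat_lit 1) (nat_lit 55) (nat_lit 1) (nat_lit 9) (.e false (nat_lit 1) (nat_lit 57) (nat_lit 1) (nat_lit 9) (.e false (nat_lit 1) (nat_lit 58) (nat_lit 1) (nat_lit 9) (.e false (nat_lit 3) (nat_lit 59) (nat_lit 1) (nat_lit 9) (.e true (nat_lit 3) (nat_lit 61) (nat_lit 1) (nat_lit 9) (.e true (nat_lit 1) (nat_lit 63) (nat_lit 1) (nat_lit 9) (.e true (nat_lit 3) (nat_lit 64) (nat_lit 1) (nat_lit 9) (.e false (nat_lit 3) (nat_lit 65) (nat_lit 1) (nat_lit 9) (.u (nat_lit 2) (.p (nat_lit 13) (nat_lit 1) (.n (nat_lit 16) (nat_lit 1) (.p (nat_lit 17) (nat_lit 1) .z))) .nil))))))))))))) (.nd (.nd .leaf (nat_lit 34820) (nat_lit 264) (.p (nat_lit 132) (nat_lit 1) (.n (nat_lit 133) (nat_lit 3) (.n (nat_lit 134) (nat_lit 1) (.p (nat_lit 135) (nat_lit 3) (.n (nat_lit 137) (nat_lit 3) (.p (nat_lit 138) (nat_lit 1) (.p (nat_lit 139) (nat_lit 3) (.p (nat_lit 140) (nat_lit 3) (.n (nat_lit 141) (nat_lit 2) (.n (nat_lit 142) (nat_lit 3) (.p (nat_lit 143) (nat_lit 1) (.p (nat_lit 144) (nat_lit 1) (.n (nat_lit 145) (nat_lit 3) (.p (nat_lit 146) (nat_lit 2) (.p (nat_lit 148) (nat_lit 1) (.p (nat_lit 149) (nat_lit 1) (.n (nat_lit 150) (nat_lit 2) (.p (nat_lit 151) (nat_lit 2) (.p (nat_lit 152) (nat_lit 2) .z))))))))))))))))))) (.ct dC1a_c531 (nat_lit 1) (nat_lit 5) (.s false (nat_lit 1) (nat_lit 14) (nat_lit 2) (nat_lit 1) (nat_lit 0) true (nat_lit 5) true (nat_lit 9) false (nat_lit 0) true (nat_lit 7) true (nat_lit 8) (.e false (nat_lit 1) (nat_lit 88) (nat_lit 0) (nat_lit 9) (.e true (nat_lit 1) (nat_lit 14) (nat_lit 12) (nat_lit 0) (.e true (nat_lit 1) (nat_lit 56) (nat_lit 2) (nat_lit 7) (.e false (nat_lit 2) (nat_lit 57) (nat_lit 2) (nat_lit 7) (.e false (nat_lit 1) (nat_lit 58) (nat_lit 2) (nat_lit 7) (.e false (nat_lit 1) (nat_lit 62) (nat_lit 2) (nat_lit 7) (.e true (nat_lit 1) (nat_lit 65) (nat_lit 2) (nat_lit 7) (.e true (nat_lit 1) (nat_lit 78) (nat_lit 1) (nat_lit 8) (.u (nat_lit 2) (.n (nat_lit 0) (nat_lit 1) (.n (nat_lit 6) (nat_lit 1) (.n (nat_lit 8) (nat_lit 1) (.n (nat_lit 12) (nat_lit 1) (.n (nat_lit 20) (nat_lit 1) .z))))) .nil))))))))))) .leaf) (nat_lit 34821) (nat_lit 311) (.n (nat_lit 153) (nat_lit 2) (.n (nat_lit 154) (nat_lit 3) (.p (nat_lit 155) (nat_lit 3) (.n (nat_lit 156) (nat_lit 3) (.p (nat_lit 157) (nat_lit 1) (.n (nat_lit 159) (nat_lit 2) (.p (nat_lit 160) (nat_lit 1) (.n (nat_lit 161) (nat_lit 3) (.p (nat_lit 162) (nat_lit 2) (.p (nat_lit 163) (nat_lit 2) (.n (nat_lit 164) (nat_lit 3) (.n (nat_lit 165) (nat_lit 1) (.p (nat_lit 166) (nat_lit 1) (.n (nat_lit 168) (nat_lit 3) (.p (nat_lit 170) (nat_lit 2) (.n (nat_lit 173) (nat_lit 2) .z)))))))))))))))) (.ct dC1a_c291 (nat_lit 1) (nat_lit 4) (.s false (nat_lit 1) (nat_lit 6) (nat_lit 1) (nat_lit 3) (nat_lit 2) true (nat_lit 4) true (nat_lit 7) true (nat_lit 3) true (nat_lit 8) true (nat_lit 6) (.e true (nat_lit 1) (nat_lit 32) (nat_lit 5) (nat_lit 4) (.e false (nat_lit 1) (nat_lit 33) (nat_lit 5) (nat_lit 4) (.e false (nat_lit 1) (nat_lit 36) (nat_lit 5) (nat_lit 4) (.e false (nat_lit 2) (nat_lit 66) (nat_lit 2) (nat_lit 7) (.e true (nat_lit 1) (nat_lit 68) (nat_lit 2) (nat_lit 7) (.e false (nat_lit 1) (nat_lit 69) (nat_lit 2) (nat_lit 7) (.e true (nat_lit 1) (nat_lit 70) (nat_lit 2) (nat_lit 7) (.e true (nat_lit 1) (nat_lit 75) (nat_lit 2) (nat_lit 7) (.e true (nat_lit 1) (nat_lit 24) (nat_lit 6) (nat_lit 3) (.e false (nat_lit 1) (nat_lit 90) (nat_lit 1) (nat_lit 8) (.e true (nat_lit 1) (nat_lit 45) (nat_lit 3) (nat_lit 6) (.u (nat_lit 2) (.p (nat_lit 1) (nat_lit 1) (.p (nat_lit 3) (nat_lit 1) (.p (nat_lit 8) (nat_lit 1) (.n (nat_lit 9) (nat_lit 1) (.n (nat_lit 10) (nat_lit 1) (.n (nat_lit 17) (nat_lit 1) (.p (nat_lit 20) (nat_lit 1) .z))))))) .nil)))))))))))))) .leaf)) (nat_lit 34822) (nat_lit 366) (.n (nat_lit 180) (nat_lit 1) (.p (nat_lit 182) (nat_lit 1) (.p (nat_lit 183) (nat_lit 3) (.p (nat_lit 184) (nat_lit 1) (.p (nat_lit 185) (nat_lit 2) (.p (nat_lit 186) (nat_lit 2) (.p (nat_lit 187) (nat_lit 2) (.p (nat_lit 188) (nat_lit 1) (.n (nat_lit 189) (nat_lit 2) (.n (nat_lit 190) (nat_lit 2) (.n (nat_lit 193) (nat_lit 1) .z))))))))))) (.ct dC1a_c276 (nat_lit 1) (nat_lit 2) (.s false (nat_lit 1) (nat_lit 14) (nat_lit 2) (nat_lit 1) (nat_lit 2) true (nat_lit 2) true (nat_lit 6) true (nat_lit 0) true (nat_lit 6) true (nat_lit 7) (.e false (nat_lit 1) (nat_lit 88) (nat_lit 2) (nat_lit 6) (.e false (nat_lit 1) (nat_lit 16) (nat_lit 14) (nat_lit 0) (.e false (nat_lit 1) (nat_lit 82) (nat_lit 2) (nat_lit 6) (.e false (nat_lit 1) (nat_lit 83) (nat_lit 2) (nat_lit 6) (.e true (nat_lit 1) (nat_lit 86) (nat_lit 2) (nat_lit 6) (.e false (nat_lit 2) (nat_lit 87) (nat_lit 2) (nat_lit 6) (.e false (nat_lit 1) (nat_lit 89) (nat_lit 2) (nat_lit 6) (.e true (nat_lit 1) (nat_lit 92) (nat_lit 2) (nat_lit 6) (.e false (nat_lit 1) (nat_lit 98) (nat_lit 1) (nat_lit 7) .nil))))))))))) (.nd (.nd (.nd .leaf (nat_lit 34826) (nat_lit 552) (.p (nat_lit 212) (nat_lit 2) (.p (nat_lit 213) (nat_lit 2) (.p (nat_lit 214) (nat_lit 3) (.n (nat_lit 215) (nat_lit 2) (.n (nat_lit 217) (nat_lit 2) (.n (nat_lit 218) (nat_lit 2) (.p (nat_lit 219) (nat_lit 2) (.n (nat_lit 220) (nat_lit 1) (.n (nat_lit 221) (nat_lit 3) (.n (nat_lit 222) (nat_lit 1) (.n (nat_lit 223) (nat_lit 2) (.p (nat_lit 224) (nat_lit 3) (.n (nat_lit 226) (nat_lit 1) (.p (nat_lit 227) (nat_lit 2) (.p (nat_lit 228) (nat_lit 3) (.p (nat_lit 229) (nat_lit 1) (.p (nat_lit 230) (nat_lit 1) (.p (nat_lit 231) (nat_lit 2) (.n (nat_lit 233) (nat_lit 3) (.n (nat_lit 234) (nat_lit 3) (.n (nat_lit 236) (nat_lit 2) (.p (nat_lit 237) (nat_lit 1) (.p (nat_lit 238) (nat_lit 1) (.p (nat_lit 239) (nat_lit 3) (.p (nat_lit 240) (nat_lit 3) (.n (nat_lit 241) (nat_lit 2) (.n (nat_lit 242) (nat_lit 3) (.p (nat_lit 244) (nat_lit 3) (.n (nat_lit 246) (nat_lit 1) (.n (nat_lit 249) (nat_lit 3) (.n (nat_lit 250) (nat_lit 1) (.p (nat_lit 251) (nat_lit 3) (.p (nat_lit 252) (nat_lit 1) (.n (nat_lit 253) (nat_lit 1) (.n (nat_lit 258) (nat_lit 3) .z))))))))))))))))))))))))))))))))))) (.ct dC1a_c547 (nat_lit 1) (nat_lit 4) (.s true (nat_lit 1) (nat_lit 14) (nat_lit 2) (nat_lit 1) (nat_lit 3) true (nat_lit 4) true (nat_lit 11) true (nat_lit 2) true (nat_lit 12) true (nat_lit 13) (.e true (nat_lit 1) (nat_lit 88) (nat_lit 3) (nat_lit 11) (.e true (nat_lit 1) (nat_lit 24) (nat_lit 14) (nat_lit 2) (.e false (nat_lit 1) (nat_lit 26) (nat_lit 14) (nat_lit 2) (.e true (nat_lit 1) (nat_lit 27) (nat_lit 14) (nat_lit 2) (.e false (nat_lit 1) (nat_lit 112) (nat_lit 2) (nat_lit 12) (.e true (nat_lit 1) (nat_lit 114) (nat_lit 2) (nat_lit 12) (.e false (nat_lit 1) (nat_lit 125) (nat_lit 2) (nat_lit 12) (.e true (nat_lit 1) (nat_lit 129) (nat_lit 2) (nat_lit 12) (.e false (nat_lit 1) (nat_lit 133) (nat_lit 1) (nat_lit 13) (.e true (nat_lit 2) (nat_lit 134) (nat_lit 1) (nat_lit 13) (.e true (nat_lit 1) (nat_lit 135) (nat_lit 1) (nat_lit 13) (.e true (nat_lit 1) (nat_lit 139) (nat_lit 1) (nat_lit 13) (.e false (nat_lit 1) (nat_lit 142) (nat_lit 1) (nat_lit 13) (.u (nat_lit 2) (.n (nat_lit 0) (nat_lit 1) (.n (nat_lit 1) (nat_lit 1) (.n (nat_lit 2) (nat_lit 1) (.p (nat_lit 3) (nat_lit 1) (.p (nat_lit 6) (nat_lit 2) (.n (nat_lit 7) (nat_lit 1) (.p (nat_lit 8) (nat_lit 1) (.n (nat_lit 11) (nat_lit 1) (.n (nat_lit 12) (nat_lit 1) (.p (nat_lit 14) (nat_lit 1) (.n (nat_lit 17) (nat_lit 1) (.n (nat_lit 20) (nat_lit 1) (.n (nat_lit 23) (nat_lit 1) (.p (nat_lit 24) (nat_lit 1) (.p (nat_lit 26) (nat_lit 2) (.n (nat_lit 28) (nat_lit 1) (.n (nat_lit 36) (nat_lit 1) (.p (nat_lit 37) (nat_lit 1) (.n (nat_lit 39) (nat_lit 1) .z))))))))))))))))))) .nil)))))))))))))))) .leaf) (nat_lit 34827) (nat_lit 525) (.p (nat_lit 212) (nat_lit 1) (.p (nat_lit 213) (nat_lit 2) (.p (nat_lit 214) (nat_lit 3) (.n (nat_lit 216) (nat_lit 1) (.p (nat_lit 217) (nat_lit 3) (.p (nat_lit 218) (nat_lit 3) (.n (nat_lit 219) (nat_lit 3) (.p (nat_lit 220) (nat_lit 2) (.p (nat_lit 221) (nat_lit 1) (.n (nat_lit 222) (nat_lit 2) (.n (nat_lit 223) (nat_lit 2) (.n (nat_lit 224) (nat_lit 2) (.p (nat_lit 226) (nat_lit 1) (.p (nat_lit 227) (nat_lit 1) (.n (nat_lit 229) (nat_lit 1) (.p (nat_lit 230) (nat_lit 1) (.p (nat_lit 233) (nat_lit 1) (.n (nat_lit 234) (nat_lit 3) (.n (nat_lit 235) (nat_lit 2) (.p (nat_lit 236) (nat_lit 2) (.p (nat_lit 237) (nat_lit 1) (.n (nat_lit 238) (nat_lit 2) (.p (nat_lit 239) (nat_lit 2) (.p (nat_lit 240) (nat_lit 2) (.p (nat_lit 241) (nat_lit 1) (.p (nat_lit 242) (nat_lit 3) (.n (nat_lit 243) (nat_lit 1) (.n (nat_lit 247) (nat_lit 1) (.p (nat_lit 248) (nat_lit 1) (.p (nat_lit 249) (nat_lit 1) (.n (nat_lit 250) (nat_lit 2) (.n (nat_lit 251) (nat_lit 1) (.p (nat_lit 252) (nat_lit 2) (.n (nat_lit 253) (nat_lit 1) .z)))))))))))))))))))))))))))))))))) (.ct dC1a_c547 (nat_lit 1) (nat_lit 4) (.s true (nat_lit 1) (nat_lit 34) (nat_lit 0) (nat_lit 2) (nat_lit 1) true (nat_lit 11) true (nat_lit 13) false (nat_lit 4) true (nat_lit 14) true (nat_lit 12) (.e true (nat_lit 1) (nat_lit 85) (nat_lit 3) (nat_lit 11) (.e true (nat_lit 1) (nat_lit 132) (nat_lit 1) (nat_lit 13) (.e true (nat_lit 1) (nat_lit 134) (nat_lit 1) (nat_lit 13) (.e true (nat_lit 1) (nat_lit 135) (nat_lit 1) (nat_lit 13) (.e true (nat_lit 3) (nat_lit 136) (nat_lit 1) (nat_lit 13) (.e true (nat_lit 3) (nat_lit 137) (nat_lit 1) (nat_lit 13) (.e false (nat_lit 3) (nat_lit 138) (nat_lit 1) (nat_lit 13) (.e false (nat_lit 1) (nat_lit 140) (nat_lit 1) (nat_lit 13) (.e false (nat_lit 3) (nat_lit 141) (nat_lit 1) (nat_lit 13) (.e true (nat_lit 3) (nat_lit 142) (nat_lit 1) (nat_lit 13) (.e true (nat_lit 2) (nat_lit 153) (nat_lit 0) (nat_lit 14) (.e true (nat_lit 3) (nat_lit 154) (nat_lit 0) (nat_lit 14) (.e false (nat_lit 3) (nat_lit 155) (nat_lit 0) (nat_lit 14) dC1a_i9))))))))))))))) .leaf) (nat_lit 34828) (nat_lit 553) (.n (nat_lit 212) (nat_lit 3) (.n (nat_lit 214) (nat_lit 3) (.n (nat_lit 215) (nat_lit 2) (.n (nat_lit 216) (nat_lit 2) (.n (nat_lit 217) (nat_lit 2) (.n (nat_lit 218) (nat_lit 2) (.p (nat_lit 219) (nat_lit 2) (.p (nat_lit 220) (nat_lit 1) (.p (nat_lit 221) (nat_lit 3) (.n (nat_lit 222) (nat_lit 1) (.p (nat_lit 223) (nat_lit 3) (.p (nat_lit 224) (nat_lit 3) (.n (nat_lit 226) (nat_lit 2) (.p (nat_lit 227) (nat_lit 2) (.n (nat_lit 228) (nat_lit 3) (.p (nat_lit 229) (nat_lit 2) (.n (nat_lit 231) (nat_lit 3) (.p (nat_lit 232) (nat_lit 3) (.p (nat_lit 234) (nat_lit 1) (.p (nat_lit 235) (nat_lit 2) (.p (nat_lit 236) (nat_lit 3) (.p (nat_lit 237) (nat_lit 2) (.n (nat_lit 239) (nat_lit 2) (.n (nat_lit 240) (nat_lit 1) (.n (nat_lit 241) (nat_lit 1) (.p (nat_lit 242) (nat_lit 3) (.n (nat_lit 244) (nat_lit 1) (.n (nat_lit 245) (nat_lit 1) (.p (nat_lit 246) (nat_lit 1) (.n (nat_lit 247) (nat_lit 1) (.n (nat_lit 249) (nat_lit 3) (.n (nat_lit 250) (nat_lit 1) (.p (nat_lit 251) (nat_lit 3) (.p (nat_lit 252) (nat_lit 1) (.p (nat_lit 258) (nat_lit 3) .z))))))))))))))))))))))))))))))))))) (.ct dC1a_c547 (nat_lit 1) (nat_lit 4) (.s true (nat_lit 1) (nat_lit 14) (nat_lit 0) (nat_lit 1) (nat_lit 5) true (nat_lit 4) true (nat_lit 9) true (nat_lit 2) true (nat_lit 14) true (nat_lit 13) (.e true (nat_lit 1) (nat_lit 60) (nat_lit 5) (nat_lit 9) (.e true (nat_lit 1) (nat_lit 24) (nat_lit 14) (nat_lit 2) (.e false (nat_lit 1) (nat_lit 26) (nat_lit 14) (nat_lit 2) (.e true (nat_lit 1) (nat_lit 27) (nat_lit 14) (nat_lit 2) (.e true (nat_lit 2) (nat_lit 153) (nat_lit 0) (nat_lit 14) (.e true (nat_lit 2) (nat_lit 154) (nat_lit 0) (nat_lit 14) (.e false (nat_lit 1) (nat_lit 155) (nat_lit 0) (nat_lit 14) (.e true (nat_lit 1) (nat_lit 156) (nat_lit 0) (nat_lit 14) (.e true (nat_lit 1) (nat_lit 157) (nat_lit 0) (nat_lit 14) (.e false (nat_lit 1) (nat_lit 158) (nat_lit 0) (nat_lit 14) (.e true (nat_lit 1) (nat_lit 159) (nat_lit 0) (nat_lit 14) (.e false (nat_lit 1) (nat_lit 160) (nat_lit 0) (nat_lit 14) (.e true (nat_lit 1) (nat_lit 162) (nat_lit 0) (nat_lit 14) (.e false (nat_lit 1) (nat_lit 163) (nat_lit 0) (nat_lit 14) (.e false (nat_lit 1) (nat_lit 167) (nat_lit 0) (nat_lit 14) dC1a_i10))))))))))))))))) (.nd (.nd .leaf (nat_lit 34830) (nat_lit 674) (.p (nat_lit 261) (nat_lit 3) (.p (nat_lit 262) (nat_lit 3) (.n (nat_lit 263) (nat_lit 3) (.n (nat_lit 264) (nat_lit 1) (.p (nat_lit 265) (nat_lit 2) (.n (nat_lit 266) (nat_lit 2) (.p (nat_lit 267) (nat_lit 1) (.p (nat_lit 268) (nat_lit 2) (.n (nat_lit 270) (nat_lit 2) (.n (nat_lit 272) (nat_lit 1) (.p (nat_lit 273) (nat_lit 3) (.n (nat_lit 274) (nat_lit 3) (.n (nat_lit 277) (nat_lit 3) (.n (nat_lit 280) (nat_lit 2) (.p (nat_lit 285) (nat_lit 1) (.n (nat_lit 286) (nat_lit 2) (.n (nat_lit 287) (nat_lit 1) .z))))))))))))))))) (.ct dC1a_c532 (nat_lit 1) (nat_lit 2) (.s false (nat_lit 1) (nat_lit 34) (nat_lit 2) (nat_lit 0) (nat_lit 2) true (nat_lit 6) true (nat_lit 10) false (nat_lit 2) true (nat_lit 10) true (nat_lit 12) (.e true (nat_lit 1) (nat_lit 55) (nat_lit 6) (nat_lit 6) (.e true (nat_lit 1) (nat_lit 57) (nat_lit 6) (nat_lit 6) dC1a_i11)))) .leaf) (nat_lit 34831) (nat_lit 677) (.p (nat_lit 260) (nat_lit 3) (.n (nat_lit 261) (nat_lit 2) (.p (nat_lit 262) (nat_lit 3) (.p (nat_lit 263) (nat_lit 3) (.n (nat_lit 264) (nat_lit 1) (.p (nat_lit 265) (nat_lit 3) (.p (nat_lit 266) (nat_lit 3) (.p (nat_lit 267) (nat_lit 1) (.p (nat_lit 268) (nat_lit 1) (.p (nat_lit 269) (nat_lit 3) (.n (nat_lit 270) (nat_lit 1) (.p (nat_lit 271) (nat_lit 1) (.p (nat_lit 272) (nat_lit 2) (.n (nat_lit 273) (nat_lit 3) (.p (nat_lit 274) (nat_lit 1) (.p (nat_lit 277) (nat_lit 2) (.n (nat_lit 278) (nat_lit 1) (.n (nat_lit 279) (nat_lit 1) (.p (nat_lit 280) (nat_lit 2) (.p (nat_lit 285) (nat_lit 2) (.p (nat_lit 286) (nat_lit 2) (.p (nat_lit 288) (nat_lit 3) .z)))))))))))))))))))))) (.ct dC1a_c532 (nat_lit 1) (nat_lit 2) (.s false (nat_lit 1) (nat_lit 34) (nat_lit 2) (nat_lit 2) (nat_lit 0) true (nat_lit 8) true (nat_lit 12) false (nat_lit 2) true (nat_lit 10) true (nat_lit 10) (.e false (nat_lit 1) (nat_lit 85) (nat_lit 4) (nat_lit 8) (.e false (nat_lit 1) (nat_lit 183) (nat_lit 0) (nat_lit 12) (.e true (nat_lit 3) (nat_lit 133) (nat_lit 2) (nat_lit 10) (.e true (nat_lit 2) (nat_lit 134) (nat_lit 2) (nat_lit 10) (.e false (nat_lit 2) (nat_lit 135) (nat_lit 2) (nat_lit 10) (.e false (nat_lit 1) (nat_lit 137) (nat_lit 2) (nat_lit 10) (.e true (nat_lit 3) (nat_lit 138) (nat_lit 2) (nat_lit 10) (.e false (nat_lit 3) (nat_lit 139) (nat_lit 2) (nat_lit 10) (.e true (nat_lit 3) (nat_lit 140) (nat_lit 2) (nat_lit 10) (.e false (nat_lit 1) (nat_lit 141) (nat_lit 2) (nat_lit 10) (.e false (nat_lit 1) (nat_lit 142) (nat_lit 2) (nat_lit 10) (.e false (nat_lit 1) (nat_lit 143) (nat_lit 2) (nat_lit 10) (.e false (nat_lit 1) (nat_lit 144) (nat_lit 2) (nat_lit 10) (.e true (nat_lit 3) (nat_lit 145) (nat_lit 2) (nat_lit 10) (.e false (nat_lit 2) (nat_lit 146) (nat_lit 2) (nat_lit 10) (.e false (nat_lit 1) (nat_lit 148) (nat_lit 2) (nat_lit 10) (.e false (nat_lit 1) (nat_lit 149) (nat_lit 2) (nat_lit 10) (.e true (nat_lit 2) (nat_lit 150) (nat_lit 2) (nat_lit 10) (.e false (nat_lit 2) (nat_lit 151) (nat_lit 2) (nat_lit 10) (.e false (nat_lit 2) (nat_lit 152) (nat_lit 2) (nat_lit 10) (.e true (nat_lit 3) (nat_lit 136) (nat_lit 2) (nat_lit 10) (.u (nat_lit 2) (.n (nat_lit 2) (nat_lit 1) (.n (nat_lit 6) (nat_lit 1) (.n (nat_lit 8) (nat_lit 1) (.n (nat_lit 101) (nat_lit 1) (.p (nat_lit 102) (nat_lit 1) (.p (nat_lit 104) (nat_lit 1) (.n (nat_lit 106) (nat_lit 1) .z))))))) .nil)))))))))))))))))))))))) .leaf))) (nat_lit 34832) (nat_lit 762) (.p (nat_lit 290) (nat_lit 1) (.p (nat_lit 291) (nat_lit 3) (.n (nat_lit 292) (nat_lit 1) (.p (nat_lit 293) (nat_lit 3) (.n (nat_lit 294) (nat_lit 1) (.n (nat_lit 296) (nat_lit 1) (.p (nat_lit 298) (nat_lit 3) (.p (nat_lit 299) (nat_lit 1) (.p (nat_lit 301) (nat_lit 1) (.p (nat_lit 302) (nat_lit 1) (.p (nat_lit 304) (nat_lit 3) (.p (nat_lit 305) (nat_lit 3) (.n (nat_lit 308) (nat_lit 3) (.p (nat_lit 313) (nat_lit 1) (.n (nat_lit 318) (nat_lit 1) .z))))))))))))))) (.ct dC1a_c292 (nat_lit 1) (nat_lit 1) dC1a_i12) (.nd (.nd (.nd (.nd .leaf (nat_lit 34833) (nat_lit 748) (.p (nat_lit 291) (nat_lit 2) (.n (nat_lit 292) (nat_lit 1) (.p (nat_lit 293) (nat_lit 2) (.n (nat_lit 294) (nat_lit 2) (.n (nat_lit 295) (nat_lit 1) (.p (nat_lit 296) (nat_lit 1) (.n (nat_lit 297) (nat_lit 3) (.p (nat_lit 298) (nat_lit 2) (.p (nat_lit 299) (nat_lit 1) (.p (nat_lit 300) (nat_lit 2) (.p (nat_lit 301) (nat_lit 3) (.p (nat_lit 304) (nat_lit 3) (.p (nat_lit 307) (nat_lit 3) (.n (nat_lit 308) (nat_lit 1) (.p (nat_lit 310) (nat_lit 3) (.n (nat_lit 311) (nat_lit 1) (.p (nat_lit 313) (nat_lit 2) (.n (nat_lit 316) (nat_lit 3) (.n (nat_lit 317) (nat_lit 2) (.p (nat_lit 319) (nat_lit 1) .z)))))))))))))))))))) (.ct dC1a_c292 (nat_lit 1) (nat_lit 1) (.s false (nat_lit 1) (nat_lit 34) (nat_lit 2) (nat_lit 2) (nat_lit 1) true (nat_lit 7) true (nat_lit 11) false (nat_lit 1) true (nat_lit 10) true (nat_lit 10) (.e false (nat_lit 1) (nat_lit 85) (nat_lit 5) (nat_lit 7) (.e false (nat_lit 1) (nat_lit 183) (nat_lit 1) (nat_lit 11) (.e true (nat_lit 2) (nat_lit 153) (nat_lit 2) (nat_lit 10) (.e true (nat_lit 3) (nat_lit 154) (nat_lit 2) (nat_lit 10) (.e false (nat_lit 3) (nat_lit 155) (nat_lit 2) (nat_lit 10) (.e true (nat_lit 3) (nat_lit 156) (nat_lit 2) (nat_lit 10) (.e false (nat_lit 1) (nat_lit 157) (nat_lit 2) (nat_lit 10) (.e true (nat_lit 3) (nat_lit 159) (nat_lit 2) (nat_lit 10) (.e false (nat_lit 1) (nat_lit 160) (nat_lit 2) (nat_lit 10) (.e true (nat_lit 3) (nat_lit 161) (nat_lit 2) (nat_lit 10) (.e false (nat_lit 2) (nat_lit 162) (nat_lit 2) (nat_lit 10) (.e false (nat_lit 2) (nat_lit 163) (nat_lit 2) (nat_lit 10) (.e true (nat_lit 3) (nat_lit 164) (nat_lit 2) (nat_lit 10) (.e true (nat_lit 1) (nat_lit 165) (nat_lit 2) (nat_lit 10) (.e false (nat_lit 1) (nat_lit 166) (nat_lit 2) (nat_lit 10) (.e true (nat_lit 3) (nat_lit 168) (nat_lit 2) (nat_lit 10) (.e false (nat_lit 2) (nat_lit 170) (nat_lit 2) (nat_lit 10) (.e true (nat_lit 2) (nat_lit 173) (nat_lit 2) (nat_lit 10) (.u (nat_lit 2) (.n (nat_lit 1) (nat_lit 1) (.p (nat_lit 2) (nat_lit 1) (.n (nat_lit 3) (nat_lit 1) (.n (nat_lit 6) (nat_lit 1) (.p (nat_lit 7) (nat_lit 1) (.n (nat_lit 8) (nat_lit 1) (.n (nat_lit 11) (nat_lit 1) (.n (nat_lit 20) (nat_lit 1) .z)))))))) .nil))))))))))))))))))))) .leaf) (nat_lit 34834) (nat_lit 858) (.n (nat_lit 328) (nat_lit 1) (.p (nat_lit 329) (nat_lit 1) (.p (nat_lit 330) (nat_lit 3) (.p (nat_lit 332) (nat_lit 1) (.n (nat_lit 334) (nat_lit 2) (.n (nat_lit 335) (nat_lit 2) (.n (nat_lit 336) (nat_lit 2) (.p (nat_lit 337) (nat_lit 1) (.n (nat_lit 338) (nat_lit 3) (.p (nat_lit 340) (nat_lit 2) (.n (nat_lit 345) (nat_lit 1) .z))))))))))) (.ct dC1a_c277 (nat_lit 1) (nat_lit 0) (.s false (nat_lit 1) (nat_lit 34) (nat_lit 2) (nat_lit 2) (nat_lit 2) true (nat_lit 4) true (nat_lit 8) false (nat_lit 0) true (nat_lit 8) true (nat_lit 8) (.e false (nat_lit 1) (nat_lit 85) (nat_lit 6) (nat_lit 4) (.e true (nat_lit 3) (nat_lit 183) (nat_lit 2) (nat_lit 8) (.e false (nat_lit 1) (nat_lit 180) (nat_lit 2) (nat_lit 8) (.e true (nat_lit 1) (nat_lit 182) (nat_lit 2) (nat_lit 8) (.e true (nat_lit 1) (nat_lit 184) (nat_lit 2) (nat_lit 8) (.e true (nat_lit 2) (nat_lit 185) (nat_lit 2) (nat_lit 8) (.e true (nat_lit 2) (nat_lit 186) (nat_lit 2) (nat_lit 8) (.e true (nat_lit 2) (nat_lit 187) (nat_lit 2) (nat_lit 8) (.e true (nat_lit 1) (nat_lit 188) (nat_lit 2) (nat_lit 8) (.e false (nat_lit 2) (nat_lit 189) (nat_lit 2) (nat_lit 8) (.e false (nat_lit 2) (nat_lit 190) (nat_lit 2) (nat_lit 8) (.e false (nat_lit 1) (nat_lit 193) (nat_lit 2) (nat_lit 8) (.u (nat_lit 2) (.n (nat_lit 2) (nat_lit 1) (.p (nat_lit 10) (nat_lit 1) .z)) .nil))))))))))))))) .leaf) (nat_lit 34847) (nat_lit 1185) (.p (nat_lit 356) (nat_lit 2) (.p (nat_lit 357) (nat_lit 1) (.n (nat_lit 358) (nat_lit 1) (.n (nat_lit 360) (nat_lit 2) (.p (nat_lit 361) (nat_lit 1) (.p (nat_lit 362) (nat_lit 2) (.p (nat_lit 363) (nat_lit 1) (.p (nat_lit 364) (nat_lit 2) (.n (nat_lit 365) (nat_lit 1) (.n (nat_lit 366) (nat_lit 2) (.p (nat_lit 367) (nat_lit 1) (.n (nat_lit 369) (nat_lit 3) (.p (nat_lit 370) (nat_lit 3) (.n (nat_lit 372) (nat_lit 2) (.p (nat_lit 373) (nat_lit 2) (.p (nat_lit 374) (nat_lit 1) (.n (nat_lit 375) (nat_lit 3) (.n (nat_lit 379) (nat_lit 2) (.n (nat_lit 380) (nat_lit 2) (.p (nat_lit 381) (nat_lit 2) (.n (nat_lit 383) (nat_lit 3) (.n (nat_lit 384) (nat_lit 1) (.p (nat_lit 385) (nat_lit 3) (.n (nat_lit 387) (nat_lit 2) (.p (nat_lit 388) (nat_lit 1) (.n (nat_lit 391) (nat_lit 2) (.n (nat_lit 392) (nat_lit 3) (.p (nat_lit 393) (nat_lit 3) (.p (nat_lit 394) (nat_lit 2) (.n (nat_lit 395) (nat_lit 1) (.p (nat_lit 400) (nat_lit 2) (.p (nat_lit 401) (nat_lit 3) (.n (nat_lit 403) (nat_lit 3) (.p (nat_lit 404) (nat_lit 3) (.p (nat_lit 405) (nat_lit 2) (.n (nat_lit 406) (nat_lit 2) (.n (nat_lit 407) (nat_lit 1) (.p (nat_lit 408) (nat_lit 3) (.p (nat_lit 409) (nat_lit 2) (.n (nat_lit 410) (nat_lit 2) (.n (nat_lit 412) (nat_lit 1) (.p (nat_lit 413) (nat_lit 1) (.p (nat_lit 414) (nat_lit 3) (.p (nat_lit 416) (nat_lit 1) (.n (nat_lit 422) (nat_lit 2) (.p (nat_lit 423) (nat_lit 3) (.n (nat_lit 424) (nat_lit 3) .z))))))))))))))))))))))))))))))))))))))))))))))) (.ct dC1a_c548 (nat_lit 1) (nat_lit 0) (.s false (nat_lit 1) (nat_lit 14) (nat_lit 2) (nat_lit 1) (nat_lit 10) true (nat_lit 0) true (nat_lit 9) true (nat_lit 7) true (nat_lit 17) true (nat_lit 18) (.e false (nat_lit 1) (nat_lit 88) (nat_lit 10) (nat_lit 9) (.e false (nat_lit 1) (nat_lit 75) (nat_lit 14) (nat_lit 7) (.e false (nat_lit 2) (nat_lit 212) (nat_lit 2) (nat_lit 17) (.e true (nat_lit 3) (nat_lit 213) (nat_lit 2) (nat_lit 17) (.e true (nat_lit 1) (nat_lit 215) (nat_lit 2) (nat_lit 17) (.e true (nat_lit 2) (nat_lit 216) (nat_lit 2) (nat_lit 17) (.e false (nat_lit 2) (nat_lit 218) (nat_lit 2) (nat_lit 17) (.e true (nat_lit 2) (nat_lit 219) (nat_lit 2) (nat_lit 17) (.e true (nat_lit 1) (nat_lit 221) (nat_lit 2) (nat_lit 17) (.e false (nat_lit 3) (nat_lit 222) (nat_lit 2) (nat_lit 17) (.e false (nat_lit 3) (nat_lit 223) (nat_lit 2) (nat_lit 17) (.e false (nat_lit 1) (nat_lit 224) (nat_lit 2) (nat_lit 17) (.e false (nat_lit 3) (nat_lit 227) (nat_lit 2) (nat_lit 17) (.e false (nat_lit 3) (nat_lit 228) (nat_lit 2) (nat_lit 17) (.e false (nat_lit 2) (nat_lit 229) (nat_lit 2) (nat_lit 17) (.e false (nat_lit 1) (nat_lit 230) (nat_lit 2) (nat_lit 17) (.e false (nat_lit 2) (nat_lit 231) (nat_lit 2) (nat_lit 17) (.e false (nat_lit 2) (nat_lit 232) (nat_lit 2) (nat_lit 17) (.e true (nat_lit 3) (nat_lit 233) (nat_lit 2) (nat_lit 17) (.e true (nat_lit 2) (nat_lit 234) (nat_lit 2) (nat_lit 17) (.e false (nat_lit 2) (nat_lit 235) (nat_lit 2) (nat_lit 17) dC1a_i13))))))))))))))))))))))) (.nd (.nd .leaf (nat_lit 34848) (nat_lit 1181) (.n (nat_lit 355) (nat_lit 3) (.n (nat_lit 356) (nat_lit 2) (.p (nat_lit 357) (nat_lit 2) (.p (nat_lit 358) (nat_lit 1) (.n (nat_lit 359) (nat_lit 2) (.p (nat_lit 360) (nat_lit 2) (.p (nat_lit 361) (nat_lit 3) (.n (nat_lit 362) (nat_lit 2) (.n (nat_lit 363) (nat_lit 3) (.p (nat_lit 364) (nat_lit 2) (.p (nat_lit 365) (nat_lit 1) (.p (nat_lit 366) (nat_lit 1) (.p (nat_lit 367) (nat_lit 3) (.n (nat_lit 368) (nat_lit 1) (.p (nat_lit 369) (nat_lit 3) (.p (nat_lit 370) (nat_lit 2) (.p (nat_lit 372) (nat_lit 3) (.n (nat_lit 373) (nat_lit 3) (.p (nat_lit 374) (nat_lit 1) (.n (nat_lit 381) (nat_lit 1) (.n (nat_lit 382) (nat_lit 1) (.p (nat_lit 384) (nat_lit 3) (.p (nat_lit 385) (nat_lit 3) (.n (nat_lit 386) (nat_lit 1) (.n (nat_lit 387) (nat_lit 2) (.n (nat_lit 388) (nat_lit 3) (.p (nat_lit 389) (nat_lit 2) (.n (nat_lit 390) (nat_lit 2) (.p (nat_lit 391) (nat_lit 1) (.p (nat_lit 392) (nat_lit 3) (.p (nat_lit 393) (nat_lit 1) (.p (nat_lit 394) (nat_lit 3) (.n (nat_lit 395) (nat_lit 1) (.n (nat_lit 396) (nat_lit 2) (.n (nat_lit 398) (nat_lit 1) (.n (nat_lit 404) (nat_lit 2) (.n (nat_lit 405) (nat_lit 3) (.p (nat_lit 406) (nat_lit 3) (.n (nat_lit 408) (nat_lit 3) (.n (nat_lit 409) (nat_lit 3) (.p (nat_lit 410) (nat_lit 2) (.p (nat_lit 413) (nat_lit 1) (.n (nat_lit 415) (nat_lit 1) (.n (nat_lit 416) (nat_lit 1) (.p (nat_lit 417) (nat_lit 1) (.p (nat_lit 421) (nat_lit 1) (.p (nat_lit 424) (nat_lit 3) (.n (nat_lit 425) (nat_lit 3) .z)))))))))))))))))))))))))))))))))))))))))))))))) (.ct dC1a_c548 (nat_lit 1) (nat_lit 0) (.s false (nat_lit 1) (nat_lit 14) (nat_lit 2) (nat_lit 1) (nat_lit 11) true (nat_lit 0) true (nat_lit 9) true (nat_lit 7) true (nat_lit 17) true (nat_lit 18) (.e false (nat_lit 1) (nat_lit 88) (nat_lit 11) (nat_lit 9) (.e false (nat_lit 1) (nat_lit 76) (nat_lit 14) (nat_lit 7) (.e true (nat_lit 2) (nat_lit 212) (nat_lit 2) (nat_lit 17) (.e true (nat_lit 2) (nat_lit 213) (nat_lit 2) (nat_lit 17) (.e true (nat_lit 2) (nat_lit 214) (nat_lit 2) (nat_lit 17) (.e true (nat_lit 3) (nat_lit 215) (nat_lit 2) (nat_lit 17) (.e true (nat_lit 3) (nat_lit 217) (nat_lit 2) (nat_lit 17) (.e false (nat_lit 3) (nat_lit 218) (nat_lit 2) (nat_lit 17) (.e true (nat_lit 3) (nat_lit 219) (nat_lit 2) (nat_lit 17) (.e true (nat_lit 1) (nat_lit 220) (nat_lit 2) (nat_lit 17) (.e true (nat_lit 3) (nat_lit 222) (nat_lit 2) (nat_lit 17) (.e true (nat_lit 2) (nat_lit 223) (nat_lit 2) (nat_lit 17) (.e true (nat_lit 3) (nat_lit 224) (nat_lit 2) (nat_lit 17) (.e false (nat_lit 1) (nat_lit 226) (nat_lit 2) (nat_lit 17) (.e true (nat_lit 2) (nat_lit 227) (nat_lit 2) (nat_lit 17) (.e false (nat_lit 1) (nat_lit 230) (nat_lit 2) (nat_lit 17) (.e true (nat_lit 3) (nat_lit 232) (nat_lit 2) (nat_lit 17) (.e true (nat_lit 2) (nat_lit 233) (nat_lit 2) (nat_lit 17) (.e true (nat_lit 1) (nat_lit 234) (nat_lit 2) (nat_lit 17) (.e true (nat_lit 3) (nat_lit 235) (nat_lit 2) (nat_lit 17) (.e true (nat_lit 1) (nat_lit 236) (nat_lit 2) (nat_lit 17) (.e false (nat_lit 1) (nat_lit 237) (nat_lit 2) (nat_lit 17) dC1a_i14)))))))))))))))))))))))) .leaf) (nat_lit 35840) (nat_lit 79) (.p (nat_lit 64) (nat_lit 1) .z) .df .leaf)) (nat_lit 35841) (nat_lit 105) (.n (nat_lit 66) (nat_lit 2) (.n (nat_lit 67) (nat_lit 1) (.n (nat_lit 69) (nat_lit 1) (.p (nat_lit 71) (nat_lit 1) (.p (nat_lit 72) (nat_lit 2) (.p (nat_lit 74) (nat_lit 1) (.n (nat_lit 76) (nat_lit 1) .z))))))) (.ct dC1a_c290 (nat_lit 1) (nat_lit 5) (.s true (nat_lit 1) (nat_lit 4) (nat_lit 1) (nat_lit 1) (nat_lit 2) true (nat_lit 1) true (nat_lit 4) true (nat_lit 2) true (nat_lit 5) true (nat_lit 5) (.e true (nat_lit 1) (nat_lit 11) (nat_lit 5) (nat_lit 1) (.e true (nat_lit 1) (nat_lit 26) (nat_lit 2) (nat_lit 4) (.e false (nat_lit 1) (nat_lit 31) (nat_lit 1) (nat_lit 5) (.e false (nat_lit 1) (nat_lit 32) (nat_lit 1) (nat_lit 5) (.e false (nat_lit 1) (nat_lit 36) (nat_lit 1) (nat_lit 5) (.e false (nat_lit 1) (nat_lit 34) (nat_lit 1) (nat_lit 5) .nil)))))))) (.nd (.nd (.nd .leaf (nat_lit 35842) (nat_lit 123) (.p (nat_lit 86) (nat_lit 1) .z) .df .leaf) (nat_lit 35843) (nat_lit 196) (.n (nat_lit 107) (nat_lit 2) (.n (nat_lit 112) (nat_lit 2) (.p (nat_lit 114) (nat_lit 2) (.n (nat_lit 121) (nat_lit 1) (.p (nat_lit 123) (nat_lit 1) (.p (nat_lit 126) (nat_lit 1) (.p (nat_lit 129) (nat_lit 1) .z))))))) (.ct dC1a_c546 (nat_lit 1) (nat_lit 7) (.s true (nat_lit 1) (nat_lit 15) (nat_lit 0) (nat_lit 1) (nat_lit 1) true (nat_lit 7) true (nat_lit 9) false (nat_lit 2) true (nat_lit 10) true (nat_lit 9) (.e true (nat_lit 1) (nat_lit 61) (nat_lit 1) (nat_lit 9) (.e true (nat_lit 1) (nat_lit 15) (nat_lit 8) (nat_lit 2) (.e false (nat_lit 1) (nat_lit 64) (nat_lit 1) (nat_lit 9) .nil))))) .leaf) (nat_lit 35844) (nat_lit 251) (.p (nat_lit 132) (nat_lit 2) (.n (nat_lit 134) (nat_lit 2) (.p (nat_lit 135) (nat_lit 3) (.n (nat_lit 136) (nat_lit 3) (.n (nat_lit 137) (nat_lit 2) (.n (nat_lit 138) (nat_lit 3) (.p (nat_lit 140) (nat_lit 2) (.p (nat_lit 143) (nat_lit 2) (.n (nat_lit 144) (nat_lit 2) (.n (nat_lit 145) (nat_lit 1) (.n (nat_lit 146) (nat_lit 1) (.p (nat_lit 148) (nat_lit 2) (.n (nat_lit 149) (nat_lit 1) (.n (nat_lit 151) (nat_lit 1) (.p (nat_lit 152) (nat_lit 3) .z))))))))))))))) (.ct dC1a_c531 (nat_lit 1) (nat_lit 5) (.s true (nat_lit 1) (nat_lit 4) (nat_lit 3) (nat_lit 2) (nat_lit 2) true (nat_lit 0) true (nat_lit 7) true (nat_lit 5) true (nat_lit 6) true (nat_lit 7) (.s false (nat_lit 1) (nat_lit 5) (nat_lit 0) (nat_lit 4) (nat_lit 2) true (nat_lit 5) true (nat_lit 7) true (nat_lit 4) true (nat_lit 9) true (nat_lit 5) (.s true (nat_lit 1) (nat_lit 6) (nat_lit 3) (nat_lit 2) (nat_lit 0) true (nat_lit 2) true (nat_lit 9) true (nat_lit 3) true (nat_lit 6) true (nat_lit 7) (.s false (nat_lit 1) (nat_lit 6) (nat_lit 4) (nat_lit 1) (nat_lit 0) true (nat_lit 1) true (nat_lit 9) true (nat_lit 3) true (nat_lit 5) true (nat_lit 8) (.s false (nat_lit 2) (nat_lit 10) (nat_lit 0) (nat_lit 2) (nat_lit 2) true (nat_lit 5) true (nat_lit 7) true (nat_lit 0) true (nat_lit 9) true (nat_lit 7) (.s true (nat_lit 1) (nat_lit 12) (nat_lit 0) (nat_lit 2) (nat_lit 2) true (nat_lit 5) true (nat_lit 7) true (nat_lit 0) true (nat_lit 9) true (nat_lit 7) (.s false (nat_lit 2) (nat_lit 12) (nat_lit 2) (nat_lit 2) (nat_lit 0) true (nat_lit 5) true (nat_lit 9) true (nat_lit 0) true (nat_lit 7) true (nat_lit 7) (.s false (nat_lit 1) (nat_lit 14) (nat_lit 2) (nat_lit 1) (nat_lit 0) true (nat_lit 5) true (nat_lit 9) false (nat_lit 0) true (nat_lit 7) true (nat_lit 8) (.s false (nat_lit 2) (nat_lit 15) (nat_lit 2) (nat_lit 1) (nat_lit 0) true (nat_lit 5) true (nat_lit 9) false (nat_lit 0) true (nat_lit 7) true (nat_lit 8) (.s false (nat_lit 1) (nat_lit 16) (nat_lit 0) (nat_lit 2) (nat_lit 0) false (nat_lit 10) true (nat_lit 9) false (nat_lit 1) true (nat_lit 9) true (nat_lit 7) (.s true (nat_lit 3) (nat_lit 17) (nat_lit 0) (nat_lit 2) (nat_lit 0) false (nat_lit 10) true (nat_lit 9) false (nat_lit 1) true (nat_lit 9) true (nat_lit 7) (.s true (nat_lit 1) (nat_lit 16) (nat_lit 2) (nat_lit 0) (nat_lit 0) true (nat_lit 5) true (nat_lit 9) false (nat_lit 1) true (nat_lit 7) true (nat_lit 9) (.e true (nat_lit 1) (nat_lit 14) (nat_lit 10) (nat_lit 0) (.e false (nat_lit 1) (nat_lit 56) (nat_lit 2) (nat_lit 7) dC1a_i15))))))))))))))) (.nd (.nd .leaf (nat_lit 35845) (nat_lit 317) (.n (nat_lit 153) (nat_lit 2) (.n (nat_lit 154) (nat_lit 1) (.n (nat_lit 155) (nat_lit 3) (.p (nat_lit 157) (nat_lit 3) (.p (nat_lit 158) (nat_lit 2) (.p (nat_lit 159) (nat_lit 3) (.p (nat_lit 160) (nat_lit 2) (.n (nat_lit 161) (nat_lit 1) (.n (nat_lit 162) (nat_lit 2) (.p (nat_lit 163) (nat_lit 2) (.p (nat_lit 165) (nat_lit 2) (.p (nat_lit 166) (nat_lit 2) (.p (nat_lit 167) (nat_lit 3) (.n (nat_lit 168) (nat_lit 1) (.n (nat_lit 170) (nat_lit 3) (.p (nat_lit 171) (nat_lit 2) (.n (nat_lit 172) (nat_lit 3) (.n (nat_lit 173) (nat_lit 3) .z)))))))))))))))))) (.ct dC1a_c291 (nat_lit 1) (nat_lit 4) (.s true (nat_lit 1) (nat_lit 15) (nat_lit 1) (nat_lit 1) (nat_lit 2) true (nat_lit 4) true (nat_lit 7) false (nat_lit 0) true (nat_lit 8) true (nat_lit 8) (.e false (nat_lit 2) (nat_lit 66) (nat_lit 2) (nat_lit 7) (.e false (nat_lit 1) (nat_lit 67) (nat_lit 2) (nat_lit 7) (.e false (nat_lit 1) (nat_lit 69) (nat_lit 2) (nat_lit 7) (.e true (nat_lit 1) (nat_lit 71) (nat_lit 2) (nat_lit 7) (.e true (nat_lit 2) (nat_lit 72) (nat_lit 2) (nat_lit 7) (.e true (nat_lit 1) (nat_lit 74) (nat_lit 2) (nat_lit 7) (.e false (nat_lit 1) (nat_lit 76) (nat_lit 2) (nat_lit 7) (.e false (nat_lit 3) (nat_lit 82) (nat_lit 1) (nat_lit 8) (.e false (nat_lit 3) (nat_lit 83) (nat_lit 1) (nat_lit 8) (.e false (nat_lit 3) (nat_lit 86) (nat_lit 1) (nat_lit 8) (.e false (nat_lit 3) (nat_lit 87) (nat_lit 1) (nat_lit 8) (.e false (nat_lit 1) (nat_lit 91) (nat_lit 1) (nat_lit 8) (.e false (nat_lit 1) (nat_lit 90) (nat_lit 1) (nat_lit 8) (.e false (nat_lit 1) (nat_lit 92) (nat_lit 1) (nat_lit 8) (.u (nat_lit 2) (.p (nat_lit 0) (nat_lit 1) (.p (nat_lit 1) (nat_lit 1) (.p (nat_lit 2) (nat_lit 2) (.n (nat_lit 3) (nat_lit 1) (.p (nat_lit 4) (nat_lit 2) (.p (nat_lit 6) (nat_lit 2) (.n (nat_lit 7) (nat_lit 3) (.n (nat_lit 8) (nat_lit 3) (.p (nat_lit 9) (nat_lit 2) (.p (nat_lit 12) (nat_lit 1) (.p (nat_lit 13) (nat_lit 1) (.p (nat_lit 14) (nat_lit 1) (.n (nat_lit 17) (nat_lit 1) (.p (nat_lit 18) (nat_lit 2) (.n (nat_lit 57) (nat_lit 1) (.n (nat_lit 58) (nat_lit 1) (.n (nat_lit 62) (nat_lit 1) .z))))))))))))))))) .nil))))))))))))))))) .leaf) (nat_lit 35846) (nat_lit 378) (.p (nat_lit 180) (nat_lit 3) (.p (nat_lit 181) (nat_lit 3) (.n (nat_lit 184) (nat_lit 3) (.p (nat_lit 185) (nat_lit 3) (.n (nat_lit 188) (nat_lit 1) (.p (nat_lit 189) (nat_lit 1) (.p (nat_lit 190) (nat_lit 1) (.p (nat_lit 192) (nat_lit 1) (.p (nat_lit 193) (nat_lit 1) (.n (nat_lit 194) (nat_lit 1) .z)))))))))) (.ct dC1a_c276 (nat_lit 1) (nat_lit 2) (.s false (nat_lit 1) (nat_lit 15) (nat_lit 2) (nat_lit 1) (nat_lit 2) true (nat_lit 2) true (nat_lit 6) true (nat_lit 0) true (nat_lit 6) true (nat_lit 7) (.e false (nat_lit 3) (nat_lit 82) (nat_lit 2) (nat_lit 6) (.e false (nat_lit 3) (nat_lit 83) (nat_lit 2) (nat_lit 6) (.e false (nat_lit 3) (nat_lit 86) (nat_lit 2) (nat_lit 6) (.e false (nat_lit 3) (nat_lit 87) (nat_lit 2) (nat_lit 6) (.e false (nat_lit 1) (nat_lit 90) (nat_lit 2) (nat_lit 6) (.e false (nat_lit 1) (nat_lit 92) (nat_lit 2) (nat_lit 6) (.e false (nat_lit 1) (nat_lit 16) (nat_lit 15) (nat_lit 0) (.e false (nat_lit 1) (nat_lit 91) (nat_lit 2) (nat_lit 6) (.e false (nat_lit 1) (nat_lit 99) (nat_lit 1) (nat_lit 7) (.u (nat_lit 2) (.p (nat_lit 4) (nat_lit 1) (.n (nat_lit 36) (nat_lit 1) (.n (nat_lit 37) (nat_lit 1) (.n (nat_lit 41) (nat_lit 1) .z)))) .nil)))))))))))) .leaf))))))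

noncomputable def dC1a_t4 : Tr := (.nd (.nd (.nd (.nd (.nd (.nd (.nd .leaf (nat_lit 35851) (nat_lit 533) (.n (nat_lit 212) (nat_lit 2) (.n (nat_lit 214) (nat_lit 1) (.p (nat_lit 215) (nat_lit 1) (.p (nat_lit 217) (nat_lit 2) (.n (nat_lit 218) (nat_lit 2) (.p (nat_lit 219) (nat_lit 2) (.p (nat_lit 220) (nat_lit 2) (.p (nat_lit 221) (nat_lit 1) (.p (nat_lit 222) (nat_lit 2) (.p (nat_lit 223) (nat_lit 2) (.p (nat_lit 224) (nat_lit 3) (.p (nat_lit 226) (nat_lit 2) (.p (nat_lit 227) (nat_lit 2) (.p (nat_lit 229) (nat_lit 1) (.n (nat_lit 231) (nat_lit 3) (.p (nat_lit 233) (nat_lit 1) (.p (nat_lit 234) (nat_lit 2) (.p (nat_lit 235) (nat_lit 3) (.p (nat_lit 237) (nat_lit 3) (.p (nat_lit 238) (nat_lit 3) (.n (nat_lit 239) (nat_lit 1) (.n (nat_lit 240) (nat_lit 2) (.p (nat_lit 241) (nat_lit 3) (.p (nat_lit 242) (nat_lit 1) (.n (nat_lit 243) (nat_lit 1) (.n (nat_lit 244) (nat_lit 3) (.n (nat_lit 245) (nat_lit 2) (.n (nat_lit 247) (nat_lit 2) (.p (nat_lit 248) (nat_lit 1) (.p (nat_lit 249) (nat_lit 2) (.p (nat_lit 250) (nat_lit 3) (.n (nat_lit 251) (nat_lit 2) (.n (nat_lit 252) (nat_lit 3) (.n (nat_lit 253) (nat_lit 2) (.p (nat_lit 258) (nat_lit 2) (.n (nat_lit 259) (nat_lit 1) .z)))))))))))))))))))))))))))))))))))) (.ct dC1a_c547 (nat_lit 1) (nat_lit 4) (.s false (nat_lit 1) (nat_lit 15) (nat_lit 4) (nat_lit 1) (nat_lit 1) true (nat_lit 4) true (nat_lit 13) true (nat_lit 2) true (nat_lit 10) true (nat_lit 13) (.e true (nat_lit 2) (nat_lit 144) (nat_lit 1) (nat_lit 13) (.e true (nat_lit 1) (nat_lit 145) (nat_lit 1) (nat_lit 13) (.e true (nat_lit 3) (nat_lit 132) (nat_lit 1) (nat_lit 13) (.e true (nat_lit 1) (nat_lit 133) (nat_lit 1) (nat_lit 13) (.e false (nat_lit 1) (nat_lit 134) (nat_lit 1) (nat_lit 13) (.e true (nat_lit 2) (nat_lit 136) (nat_lit 1) (nat_lit 13) (.e true (nat_lit 1) (nat_lit 137) (nat_lit 1) (nat_lit 13) (.e true (nat_lit 1) (nat_lit 139) (nat_lit 1) (nat_lit 13) (.e true (nat_lit 3) (nat_lit 140) (nat_lit 1) (nat_lit 13) (.e false (nat_lit 3) (nat_lit 141) (nat_lit 1) (nat_lit 13) (.e true (nat_lit 2) (nat_lit 142) (nat_lit 1) (nat_lit 13) (.e false (nat_lit 1) (nat_lit 150) (nat_lit 1) (nat_lit 13) (.e false (nat_lit 3) (nat_lit 152) (nat_lit 1) (nat_lit 13) (.e false (nat_lit 1) (nat_lit 26) (nat_lit 15) (nat_lit 2) (.e true (nat_lit 3) (nat_lit 135) (nat_lit 1) (nat_lit 13) (.e false (nat_lit 1) (nat_lit 146) (nat_lit 1) (nat_lit 13) (.e true (nat_lit 2) (nat_lit 148) (nat_lit 1) (nat_lit 13) (.e false (nat_lit 1) (nat_lit 149) (nat_lit 1) (nat_lit 13) (.e false (nat_lit 1) (nat_lit 151) (nat_lit 1) (nat_lit 13) (.u (nat_lit 2) (.n (nat_lit 1) (nat_lit 1) (.p (nat_lit 4) (nat_lit 1) (.n (nat_lit 8) (nat_lit 1) (.n (nat_lit 9) (nat_lit 1) (.p (nat_lit 10) (nat_lit 1) (.p (nat_lit 11) (nat_lit 1) (.p (nat_lit 17) (nat_lit 1) (.p (nat_lit 19) (nat_lit 1) (.n (nat_lit 20) (nat_lit 1) (.n (nat_lit 21) (nat_lit 1) (.n (nat_lit 23) (nat_lit 1) (.n (nat_lit 24) (nat_lit 1) (.n (nat_lit 25) (nat_lit 1) (.n (nat_lit 26) (nat_lit 1) (.p (nat_lit 27) (nat_lit 1) (.n (nat_lit 28) (nat_lit 1) (.n (nat_lit 29) (nat_lit 1) (.n (nat_lit 30) (nat_lit 1) (.p (nat_lit 33) (nat_lit 1) (.p (nat_lit 165) (nat_lit 1) (.p (nat_lit 173) (nat_lit 1) (.n (nat_lit 181) (nat_lit 1) .z)))))))))))))))))))))) .nil)))))))))))))))))))))) .leaf) (nat_lit 35852) (nat_lit 524) (.p (nat_lit 212) (nat_lit 1) (.n (nat_lit 213) (nat_lit 2) (.p (nat_lit 214) (nat_lit 2) (.p (nat_lit 215) (nat_lit 3) (.p (nat_lit 217) (nat_lit 2) (.n (nat_lit 218) (nat_lit 2) (.p (nat_lit 219) (nat_lit 2) (.n (nat_lit 220) (nat_lit 3) (.n (nat_lit 221) (nat_lit 2) (.p (nat_lit 222) (nat_lit 2) (.n (nat_lit 223) (nat_lit 2) (.p (nat_lit 226) (nat_lit 2) (.p (nat_lit 228) (nat_lit 1) (.n (nat_lit 229) (nat_lit 2) (.n (nat_lit 231) (nat_lit 1) (.n (nat_lit 232) (nat_lit 1) (.n (nat_lit 233) (nat_lit 1) (.p (nat_lit 234) (nat_lit 1) (.p (nat_lit 235) (nat_lit 2) (.n (nat_lit 238) (nat_lit 2) (.n (nat_lit 239) (nat_lit 1) (.p (nat_lit 240) (nat_lit 1) (.p (nat_lit 241) (nat_lit 3) (.n (nat_lit 242) (nat_lit 3) (.n (nat_lit 243) (nat_lit 3) (.n (nat_lit 244) (nat_lit 3) (.p (nat_lit 245) (nat_lit 2) (.p (nat_lit 246) (nat_lit 2) (.n (nat_lit 247) (nat_lit 2) (.p (nat_lit 248) (nat_lit 3) (.p (nat_lit 249) (nat_lit 1) (.n (nat_lit 250) (nat_lit 2) (.n (nat_lit 251) (nat_lit 1) (.p (nat_lit 252) (nat_lit 2) (.p (nat_lit 258) (nat_lit 1) (.n (nat_lit 259) (nat_lit 1) .z)))))))))))))))))))))))))))))))))))) (.ct dC1a_c547 (nat_lit 1) (nat_lit 4) (.s true (nat_lit 1) (nat_lit 35) (nat_lit 1) (nat_lit 2) (nat_lit 0) true (nat_lit 11) true (nat_lit 14) false (nat_lit 4) true (nat_lit 13) true (nat_lit 12) dC1a_i16)) (.nd .leaf (nat_lit 35854) (nat_lit 673) (.p (nat_lit 260) (nat_lit 3) (.p (nat_lit 261) (nat_lit 2) (.p (nat_lit 263) (nat_lit 2) (.n (nat_lit 264) (nat_lit 1) (.p (nat_lit 266) (nat_lit 1) (.n (nat_lit 267) (nat_lit 1) (.n (nat_lit 268) (nat_lit 2) (.p (nat_lit 269) (nat_lit 2) (.n (nat_lit 270) (nat_lit 1) (.p (nat_lit 271) (nat_lit 1) (.p (nat_lit 272) (nat_lit 3) (.n (nat_lit 273) (nat_lit 1) (.n (nat_lit 274) (nat_lit 2) (.n (nat_lit 277) (nat_lit 1) (.n (nat_lit 278) (nat_lit 2) (.n (nat_lit 279) (nat_lit 2) (.p (nat_lit 285) (nat_lit 2) (.p (nat_lit 286) (nat_lit 1) (.p (nat_lit 287) (nat_lit 1) (.p (nat_lit 288) (nat_lit 3) .z)))))))))))))))))))) (.ct dC1a_c532 (nat_lit 1) (nat_lit 2) (.s false (nat_lit 1) (nat_lit 35) (nat_lit 2) (nat_lit 0) (nat_lit 2) true (nat_lit 6) true (nat_lit 10) false (nat_lit 2) true (nat_lit 10) true (nat_lit 12) (.e true (nat_lit 1) (nat_lit 64) (nat_lit 6) (nat_lit 6) (.e false (nat_lit 3) (nat_lit 132) (nat_lit 2) (nat_lit 10) (.e true (nat_lit 3) (nat_lit 134) (nat_lit 2) (nat_lit 10) (.e true (nat_lit 2) (nat_lit 135) (nat_lit 2) (nat_lit 10) (.e false (nat_lit 2) (nat_lit 136) (nat_lit 2) (nat_lit 10) (.e false (nat_lit 1) (nat_lit 137) (nat_lit 2) (nat_lit 10) (.e false (nat_lit 1) (nat_lit 139) (nat_lit 2) (nat_lit 10) (.e true (nat_lit 2) (nat_lit 141) (nat_lit 2) (nat_lit 10) (.e true (nat_lit 2) (nat_lit 142) (nat_lit 2) (nat_lit 10) (.e true (nat_lit 3) (nat_lit 143) (nat_lit 2) (nat_lit 10) (.e false (nat_lit 1) (nat_lit 144) (nat_lit 2) (nat_lit 10) (.e false (nat_lit 3) (nat_lit 145) (nat_lit 2) (nat_lit 10) (.e false (nat_lit 2) (nat_lit 149) (nat_lit 2) (nat_lit 10) (.e false (nat_lit 2) (nat_lit 150) (nat_lit 2) (nat_lit 10) (.e false (nat_lit 2) (nat_lit 151) (nat_lit 2) (nat_lit 10) (.e false (nat_lit 3) (nat_lit 152) (nat_lit 2) (nat_lit 10) (.e false (nat_lit 3) (nat_lit 138) (nat_lit 2) (nat_lit 10) (.e true (nat_lit 2) (nat_lit 140) (nat_lit 2) (nat_lit 10) (.e false (nat_lit 1) (nat_lit 184) (nat_lit 0) (nat_lit 12) (.u (nat_lit 2) (.n (nat_lit 3) (nat_lit 1) (.p (nat_lit 4) (nat_lit 1) (.p (nat_lit 7) (nat_lit 1) (.n (nat_lit 11) (nat_lit 1) (.p (nat_lit 14) (nat_lit 1) (.p (nat_lit 17) (nat_lit 1) (.p (nat_lit 18) (nat_lit 1) (.p (nat_lit 20) (nat_lit 1) (.n (nat_lit 96) (nat_lit 1) (.p (nat_lit 98) (nat_lit 1) (.n (nat_lit 116) (nat_lit 1) .z))))))))))) .nil)))))))))))))))))))))) .leaf)) (nat_lit 35855) (nat_lit 681) (.p (nat_lit 260) (nat_lit 3) (.p (nat_lit 261) (nat_lit 2) (.p (nat_lit 263) (nat_lit 3) (.p (nat_lit 264) (nat_lit 1) (.n (nat_lit 265) (nat_lit 1) (.p (nat_lit 266) (nat_lit 1) (.n (nat_lit 267) (nat_lit 1) (.p (nat_lit 269) (nat_lit 1) (.n (nat_lit 270) (nat_lit 1) (.n (nat_lit 271) (nat_lit 2) (.p (nat_lit 272) (nat_lit 1) (.n (nat_lit 273) (nat_lit 1) (.p (nat_lit 274) (nat_lit 2) (.p (nat_lit 277) (nat_lit 1) (.n (nat_lit 278) (nat_lit 3) (.p (nat_lit 279) (nat_lit 2) (.p (nat_lit 280) (nat_lit 1) (.n (nat_lit 285) (nat_lit 3) (.p (nat_lit 286) (nat_lit 1) (.n (nat_lit 287) (nat_lit 3) (.p (nat_lit 288) (nat_lit 1) .z))))))))))))))))))))) (.ct dC1a_c532 (nat_lit 1) (nat_lit 2) (.s false (nat_lit 1) (nat_lit 35) (nat_lit 2) (nat_lit 2) (nat_lit 0) true (nat_lit 8) true (nat_lit 12) false (nat_lit 2) true (nat_lit 10) true (nat_lit 10) (.e false (nat_lit 1) (nat_lit 86) (nat_lit 4) (nat_lit 8) (.e false (nat_lit 1) (nat_lit 184) (nat_lit 0) (nat_lit 12) (.e false (nat_lit 2) (nat_lit 132) (nat_lit 2) (nat_lit 10) (.e true (nat_lit 2) (nat_lit 134) (nat_lit 2) (nat_lit 10) (.e false (nat_lit 3) (nat_lit 135) (nat_lit 2) (nat_lit 10) (.e true (nat_lit 3) (nat_lit 136) (nat_lit 2) (nat_lit 10) (.e true (nat_lit 2) (nat_lit 137) (nat_lit 2) (nat_lit 10) (.e true (nat_lit 3) (nat_lit 138) (nat_lit 2) (nat_lit 10) (.e false (nat_lit 2) (nat_lit 140) (nat_lit 2) (nat_lit 10) (.e false (nat_lit 2) (nat_lit 143) (nat_lit 2) (nat_lit 10) (.e true (nat_lit 2) (nat_lit 144) (nat_lit 2) (nat_lit 10) (.e true (nat_lit 1) (nat_lit 145) (nat_lit 2) (nat_lit 10) (.e true (nat_lit 1) (nat_lit 146) (nat_lit 2) (nat_lit 10) (.e false (nat_lit 2) (nat_lit 148) (nat_lit 2) (nat_lit 10) (.e true (nat_lit 1) (nat_lit 149) (nat_lit 2) (nat_lit 10) (.e true (nat_lit 1) (nat_lit 151) (nat_lit 2) (nat_lit 10) (.e false (nat_lit 3) (nat_lit 152) (nat_lit 2) (nat_lit 10) (.e true (nat_lit 1) (nat_lit 141) (nat_lit 2) (nat_lit 10) (.u (nat_lit 2) (.n (nat_lit 6) (nat_lit 1) (.p (nat_lit 11) (nat_lit 1) (.n (nat_lit 19) (nat_lit 1) (.p (nat_lit 20) (nat_lit 1) (.p (nat_lit 25) (nat_lit 1) (.p (nat_lit 27) (nat_lit 1) .z)))))) .nil))))))))))))))))))))) (.nd (.nd .leaf (nat_lit 35856) (nat_lit 778) (.p (nat_lit 290) (nat_lit 2) (.n (nat_lit 291) (nat_lit 1) (.n (nat_lit 293) (nat_lit 1) (.p (nat_lit 294) (nat_lit 1) (.n (nat_lit 295) (nat_lit 1) (.p (nat_lit 296) (nat_lit 1) (.n (nat_lit 297) (nat_lit 3) (.p (nat_lit 299) (nat_lit 1) (.p (nat_lit 300) (nat_lit 2) (.n (nat_lit 302) (nat_lit 1) (.p (nat_lit 304) (nat_lit 3) (.n (nat_lit 305) (nat_lit 3) (.n (nat_lit 307) (nat_lit 2) (.p (nat_lit 308) (nat_lit 2) (.p (nat_lit 310) (nat_lit 1) (.n (nat_lit 311) (nat_lit 1) (.p (nat_lit 313) (nat_lit 2) (.n (nat_lit 316) (nat_lit 2) (.p (nat_lit 318) (nat_lit 1) (.p (nat_lit 319) (nat_lit 1) .z)))))))))))))))))))) (.ct dC1a_c292 (nat_lit 1) (nat_lit 1) (.s false (nat_lit 1) (nat_lit 16) (nat_lit 0) (nat_lit 2) (nat_lit 5) true (nat_lit 4) true (nat_lit 7) true (nat_lit 1) true (nat_lit 12) true (nat_lit 10) (.e false (nat_lit 1) (nat_lit 43) (nat_lit 12) (nat_lit 4) (.e false (nat_lit 1) (nat_lit 87) (nat_lit 5) (nat_lit 7) (.e false (nat_lit 1) (nat_lit 31) (nat_lit 16) (nat_lit 1) (.e false (nat_lit 1) (nat_lit 32) (nat_lit 16) (nat_lit 1) (.e false (nat_lit 1) (nat_lit 36) (nat_lit 16) (nat_lit 1) (.e true (nat_lit 2) (nat_lit 154) (nat_lit 2) (nat_lit 10) (.e true (nat_lit 3) (nat_lit 157) (nat_lit 2) (nat_lit 10) (.e true (nat_lit 1) (nat_lit 158) (nat_lit 2) (nat_lit 10) (.e false (nat_lit 1) (nat_lit 159) (nat_lit 2) (nat_lit 10) (.e true (nat_lit 2) (nat_lit 160) (nat_lit 2) (nat_lit 10) (.e false (nat_lit 2) (nat_lit 161) (nat_lit 2) (nat_lit 10) (.e true (nat_lit 3) (nat_lit 163) (nat_lit 2) (nat_lit 10) (.e true (nat_lit 2) (nat_lit 164) (nat_lit 2) (nat_lit 10) (.e true (nat_lit 1) (nat_lit 165) (nat_lit 2) (nat_lit 10) (.e false (nat_lit 1) (nat_lit 166) (nat_lit 2) (nat_lit 10) (.e true (nat_lit 3) (nat_lit 170) (nat_lit 2) (nat_lit 10) (.e true (nat_lit 3) (nat_lit 171) (nat_lit 2) (nat_lit 10) (.e false (nat_lit 1) (nat_lit 172) (nat_lit 2) (nat_lit 10) (.e true (nat_lit 3) (nat_lit 162) (nat_lit 2) (nat_lit 10) (.e false (nat_lit 1) (nat_lit 167) (nat_lit 2) (nat_lit 10) (.e true (nat_lit 3) (nat_lit 153) (nat_lit 2) (nat_lit 10) (.u (nat_lit 2) (.n (nat_lit 0) (nat_lit 1) (.n (nat_lit 1) (nat_lit 1) (.n (nat_lit 4) (nat_lit 1) (.p (nat_lit 8) (nat_lit 1) (.n (nat_lit 10) (nat_lit 1) (.p (nat_lit 12) (nat_lit 1) (.p (nat_lit 15) (nat_lit 1) (.n (nat_lit 28) (nat_lit 1) (.p (nat_lit 98) (nat_lit 1) (.p (nat_lit 100) (nat_lit 1) (.n (nat_lit 101) (nat_lit 1) (.p (nat_lit 103) (nat_lit 1) (.p (nat_lit 105) (nat_lit 1) (.p (nat_lit 106) (nat_lit 1) (.p (nat_lit 114) (nat_lit 1) (.p (nat_lit 115) (nat_lit 1) (.n (nat_lit 116) (nat_lit 1) .z))))))))))))))))) .nil)))))))))))))))))))))))) .leaf) (nat_lit 35857) (nat_lit 755) (.p (nat_lit 290) (nat_lit 3) (.p (nat_lit 292) (nat_lit 2) (.p (nat_lit 294) (nat_lit 2) (.p (nat_lit 295) (nat_lit 1) (.p (nat_lit 297) (nat_lit 3) (.n (nat_lit 298) (nat_lit 2) (.n (nat_lit 299) (nat_lit 1) (.n (nat_lit 300) (nat_lit 2) (.p (nat_lit 302) (nat_lit 2) (.n (nat_lit 304) (nat_lit 3) (.n (nat_lit 305) (nat_lit 1) (.p (nat_lit 307) (nat_lit 2) (.p (nat_lit 308) (nat_lit 1) (.n (nat_lit 309) (nat_lit 2) (.n (nat_lit 310) (nat_lit 3) (.n (nat_lit 311) (nat_lit 2) (.n (nat_lit 313) (nat_lit 3) (.p (nat_lit 317) (nat_lit 2) (.n (nat_lit 318) (nat_lit 3) (.p (nat_lit 319) (nat_lit 2) .z)))))))))))))))))))) (.ct dC1a_c292 (nat_lit 1) (nat_lit 1) (.s false (nat_lit 1) (nat_lit 35) (nat_lit 2) (nat_lit 2) (nat_lit 1) true (nat_lit 7) true (nat_lit 11) false (nat_lit 1) true (nat_lit 10) true (nat_lit 10) (.e false (nat_lit 1) (nat_lit 86) (nat_lit 5) (nat_lit 7) (.e false (nat_lit 1) (nat_lit 184) (nat_lit 1) (nat_lit 11) (.e true (nat_lit 3) (nat_lit 155) (nat_lit 2) (nat_lit 10) (.e false (nat_lit 3) (nat_lit 157) (nat_lit 2) (nat_lit 10) (.e false (nat_lit 1) (nat_lit 158) (nat_lit 2) (nat_lit 10) (.e false (nat_lit 1) (nat_lit 159) (nat_lit 2) (nat_lit 10) (.e false (nat_lit 2) (nat_lit 160) (nat_lit 2) (nat_lit 10) (.e true (nat_lit 2) (nat_lit 161) (nat_lit 2) (nat_lit 10) (.e true (nat_lit 2) (nat_lit 162) (nat_lit 2) (nat_lit 10) (.e false (nat_lit 3) (nat_lit 163) (nat_lit 2) (nat_lit 10) (.e false (nat_lit 2) (nat_lit 165) (nat_lit 2) (nat_lit 10) (.e false (nat_lit 2) (nat_lit 166) (nat_lit 2) (nat_lit 10) (.e false (nat_lit 3) (nat_lit 167) (nat_lit 2) (nat_lit 10) (.e true (nat_lit 1) (nat_lit 168) (nat_lit 2) (nat_lit 10) (.e true (nat_lit 3) (nat_lit 170) (nat_lit 2) (nat_lit 10) (.e false (nat_lit 2) (nat_lit 171) (nat_lit 2) (nat_lit 10) (.e true (nat_lit 3) (nat_lit 172) (nat_lit 2) (nat_lit 10) (.e true (nat_lit 3) (nat_lit 173) (nat_lit 2) (nat_lit 10) (.e false (nat_lit 1) (nat_lit 156) (nat_lit 2) (nat_lit 10) (.u (nat_lit 2) (.n (nat_lit 0) (nat_lit 1) (.n (nat_lit 2) (nat_lit 1) (.n (nat_lit 9) (nat_lit 1) (.p (nat_lit 10) (nat_lit 1) (.p (nat_lit 14) (nat_lit 1) (.n (nat_lit 17) (nat_lit 1) (.p (nat_lit 23) (nat_lit 1) (.p (nat_lit 28) (nat_lit 1) .z)))))))) .nil)))))))))))))))))))))) .leaf)) (nat_lit 35858) (nat_lit 861) (.n (nat_lit 328) (nat_lit 2) (.p (nat_lit 330) (nat_lit 1) (.p (nat_lit 331) (nat_lit 1) (.p (nat_lit 332) (nat_lit 1) (.n (nat_lit 333) (nat_lit 2) (.n (nat_lit 334) (nat_lit 1) (.n (nat_lit 335) (nat_lit 1) (.p (nat_lit 336) (nat_lit 1) (.p (nat_lit 337) (nat_lit 2) (.p (nat_lit 338) (nat_lit 1) (.n (nat_lit 340) (nat_lit 3) (.p (nat_lit 341) (nat_lit 1) (.p (nat_lit 344) (nat_lit 1) (.n (nat_lit 346) (nat_lit 1) .z)))))))))))))) (.ct dC1a_c277 (nat_lit 1) (nat_lit 0) (.s true (nat_lit 1) (nat_lit 18) (nat_lit 6) (nat_lit 0) (nat_lit 1) true (nat_lit 1) true (nat_lit 9) true (nat_lit 0) true (nat_lit 4) true (nat_lit 10) (.e false (nat_lit 1) (nat_lit 42) (nat_lit 17) (nat_lit 1) (.e true (nat_lit 1) (nat_lit 83) (nat_lit 6) (nat_lit 4) (.e false (nat_lit 1) (nat_lit 84) (nat_lit 6) (nat_lit 4) (.e true (nat_lit 1) (nat_lit 85) (nat_lit 6) (nat_lit 4) (.e false (nat_lit 1) (nat_lit 87) (nat_lit 6) (nat_lit 4) (.e false (nat_lit 1) (nat_lit 90) (nat_lit 6) (nat_lit 4) (.e false (nat_lit 1) (nat_lit 211) (nat_lit 0) (nat_lit 10) (.u (nat_lit 2) (.p (nat_lit 0) (nat_lit 1) (.n (nat_lit 3) (nat_lit 1) (.n (nat_lit 4) (nat_lit 1) .z))) .nil)))))))))) (.nd (.nd (.nd .leaf (nat_lit 35871) (nat_lit 1156) (.n (nat_lit 355) (nat_lit 3) (.p (nat_lit 356) (nat_lit 3) (.p (nat_lit 357) (nat_lit 1) (.n (nat_lit 358) (nat_lit 2) (.n (nat_lit 359) (nat_lit 2) (.p (nat_lit 360) (nat_lit 2) (.p (nat_lit 361) (nat_lit 1) (.n (nat_lit 362) (nat_lit 2) (.n (nat_lit 363) (nat_lit 2) (.n (nat_lit 364) (nat_lit 1) (.p (nat_lit 365) (nat_lit 1) (.p (nat_lit 366) (nat_lit 1) (.n (nat_lit 367) (nat_lit 1) (.p (nat_lit 369) (nat_lit 2) (.n (nat_lit 370) (nat_lit 3) (.p (nat_lit 372) (nat_lit 1) (.p (nat_lit 373) (nat_lit 3) (.p (nat_lit 374) (nat_lit 3) (.p (nat_lit 375) (nat_lit 1) (.p (nat_lit 379) (nat_lit 3) (.p (nat_lit 380) (nat_lit 3) (.n (nat_lit 381) (nat_lit 3) (.p (nat_lit 382) (nat_lit 2) (.p (nat_lit 383) (nat_lit 3) (.p (nat_lit 384) (nat_lit 2) (.n (nat_lit 385) (nat_lit 2) (.p (nat_lit 386) (nat_lit 3) (.n (nat_lit 387) (nat_lit 2) (.p (nat_lit 388) (nat_lit 2) (.p (nat_lit 389) (nat_lit 2) (.n (nat_lit 390) (nat_lit 1) (.n (nat_lit 391) (nat_lit 3) (.n (nat_lit 393) (nat_lit 3) (.n (nat_lit 394) (nat_lit 3) (.n (nat_lit 395) (nat_lit 3) (.n (nat_lit 396) (nat_lit 3) (.n (nat_lit 400) (nat_lit 3) (.n (nat_lit 401) (nat_lit 1) (.p (nat_lit 403) (nat_lit 1) (.n (nat_lit 404) (nat_lit 1) (.n (nat_lit 405) (nat_lit 3) (.p (nat_lit 406) (nat_lit 3) (.n (nat_lit 407) (nat_lit 2) (.n (nat_lit 408) (nat_lit 1) (.n (nat_lit 409) (nat_lit 3) (.p (nat_lit 410) (nat_lit 3) (.n (nat_lit 412) (nat_lit 2) (.p (nat_lit 413) (nat_lit 2) (.n (nat_lit 414) (nat_lit 1) (.p (nat_lit 416) (nat_lit 2) (.p (nat_lit 422) (nat_lit 3) (.n (nat_lit 423) (nat_lit 1) (.p (nat_lit 424) (nat_lit 1) .z))))))))))))))))))))))))))))))))))))))))))))))))))))) (.ct dC1a_c548 (nat_lit 1) (nat_lit 0) dC1a_i18) .leaf) (nat_lit 35872) (nat_lit 1158) (.p (nat_lit 355) (nat_lit 2) (.n (nat_lit 356) (nat_lit 1) (.p (nat_lit 357) (nat_lit 3) (.p (nat_lit 358) (nat_lit 1) (.p (nat_lit 359) (nat_lit 1) (.p (nat_lit 360) (nat_lit 3) (.p (nat_lit 362) (nat_lit 2) (.n (nat_lit 363) (nat_lit 2) (.p (nat_lit 364) (nat_lit 1) (.p (nat_lit 365) (nat_lit 1) (.n (nat_lit 366) (nat_lit 3) (.p (nat_lit 367) (nat_lit 2) (.n (nat_lit 368) (nat_lit 2) (.n (nat_lit 369) (nat_lit 3) (.n (nat_lit 370) (nat_lit 1) (.p (nat_lit 372) (nat_lit 3) (.p (nat_lit 373) (nat_lit 1) (.p (nat_lit 375) (nat_lit 1) (.p (nat_lit 381) (nat_lit 3) (.n (nat_lit 382) (nat_lit 3) (.p (nat_lit 383) (nat_lit 2) (.p (nat_lit 385) (nat_lit 2) (.n (nat_lit 386) (nat_lit 1) (.p (nat_lit 387) (nat_lit 2) (.n (nat_lit 388) (nat_lit 1) (.p (nat_lit 389) (nat_lit 1) (.n (nat_lit 390) (nat_lit 2) (.n (nat_lit 391) (nat_lit 3) (.p (nat_lit 392) (nat_lit 2) (.n (nat_lit 393) (nat_lit 3) (.p (nat_lit 394) (nat_lit 1) (.n (nat_lit 395) (nat_lit 2) (.n (nat_lit 396) (nat_lit 1) (.n (nat_lit 398) (nat_lit 2) (.n (nat_lit 404) (nat_lit 1) (.p (nat_lit 405) (nat_lit 2) (.n (nat_lit 406) (nat_lit 2) (.p (nat_lit 408) (nat_lit 2) (.n (nat_lit 409) (nat_lit 3) (.p (nat_lit 410) (nat_lit 1) (.p (nat_lit 413) (nat_lit 2) (.n (nat_lit 415) (nat_lit 2) (.n (nat_lit 416) (nat_lit 2) (.p (nat_lit 417) (nat_lit 2) (.p (nat_lit 421) (nat_lit 2) (.n (nat_lit 424) (nat_lit 1) (.p (nat_lit 425) (nat_lit 1) .z))))))))))))))))))))))))))))))))))))))))))))))) (.ct dC1a_c548 (nat_lit 1) (nat_lit 0) (.s false (nat_lit 1) (nat_lit 35) (nat_lit 0) (nat_lit 2) (nat_lit 5) true (nat_lit 9) true (nat_lit 14) true (nat_lit 0) true (nat_lit 19) true (nat_lit 17) (.a false (nat_lit 1) (nat_lit 31) (nat_lit 35) (nat_lit 0) (nat_lit 0) (.a false (nat_lit 1) (nat_lit 32) (nat_lit 35) (nat_lit 0) (nat_lit 0) (.a false (nat_lit 3) (nat_lit 35) (nat_lit 35) (nat_lit 0) (nat_lit 0) (.e false (nat_lit 1) (nat_lit 86) (nat_lit 12) (nat_lit 9) (.e false (nat_lit 1) (nat_lit 141) (nat_lit 5) (nat_lit 14) (.e false (nat_lit 1) (nat_lit 36) (nat_lit 35) (nat_lit 0) (.e true (nat_lit 2) (nat_lit 290) (nat_lit 0) (nat_lit 19) (.e false (nat_lit 1) (nat_lit 291) (nat_lit 0) (nat_lit 19) (.e false (nat_lit 1) (nat_lit 293) (nat_lit 0) (nat_lit 19) (.e true (nat_lit 1) (nat_lit 294) (nat_lit 0) (nat_lit 19) (.e false (nat_lit 1) (nat_lit 295) (nat_lit 0) (nat_lit 19) (.e true (nat_lit 1) (nat_lit 296) (nat_lit 0) (nat_lit 19) (.e false (nat_lit 3) (nat_lit 297) (nat_lit 0) (nat_lit 19) (.e true (nat_lit 1) (nat_lit 299) (nat_lit 0) (nat_lit 19) (.e true (nat_lit 2) (nat_lit 300) (nat_lit 0) (nat_lit 19) (.e false (nat_lit 1) (nat_lit 302) (nat_lit 0) (nat_lit 19) (.e true (nat_lit 3) (nat_lit 304) (nat_lit 0) (nat_lit 19) (.e false (nat_lit 3) (nat_lit 305) (nat_lit 0) (nat_lit 19) (.e false (nat_lit 2) (nat_lit 307) (nat_lit 0) (nat_lit 19) (.e true (nat_lit 2) (nat_lit 308) (nat_lit 0) (nat_lit 19) (.e true (nat_lit 1) (nat_lit 310) (nat_lit 0) (nat_lit 19) dC1a_i19))))))))))))))))))))))) .leaf) (nat_lit 35874) (nat_lit 1150) (.n (nat_lit 355) (nat_lit 3) (.p (nat_lit 356) (nat_lit 1) (.n (nat_lit 357) (nat_lit 2) (.n (nat_lit 358) (nat_lit 3) (.n (nat_lit 360) (nat_lit 3) (.p (nat_lit 361) (nat_lit 3) (.n (nat_lit 362) (nat_lit 3) (.p (nat_lit 363) (nat_lit 3) (.n (nat_lit 365) (nat_lit 3) (.p (nat_lit 366) (nat_lit 3) (.p (nat_lit 369) (nat_lit 2) (.n (nat_lit 372) (nat_lit 2) (.p (nat_lit 373) (nat_lit 2) (.n (nat_lit 374) (nat_lit 3) (.p (nat_lit 381) (nat_lit 2) (.p (nat_lit 382) (nat_lit 3) (.n (nat_lit 384) (nat_lit 3) (.n (nat_lit 385) (nat_lit 3) (.n (nat_lit 386) (nat_lit 2) (.p (nat_lit 387) (nat_lit 2) (.p (nat_lit 388) (nat_lit 3) (.p (nat_lit 389) (nat_lit 1) (.p (nat_lit 390) (nat_lit 3) (.n (nat_lit 391) (nat_lit 3) (.n (nat_lit 392) (nat_lit 2) (.p (nat_lit 393) (nat_lit 2) (.n (nat_lit 394) (nat_lit 1) (.n (nat_lit 395) (nat_lit 2) (.p (nat_lit 396) (nat_lit 3) (.p (nat_lit 404) (nat_lit 3) (.p (nat_lit 405) (nat_lit 1) (.n (nat_lit 406) (nat_lit 1) (.p (nat_lit 408) (nat_lit 1) (.p (nat_lit 409) (nat_lit 3) (.n (nat_lit 410) (nat_lit 3) .z))))))))))))))))))))))))))))))))))) (.ct dC1a_c548 (nat_lit 1) (nat_lit 0) (.s false (nat_lit 1) (nat_lit 14) (nat_lit 1) (nat_lit 1) (nat_lit 15) true (nat_lit 0) true (nat_lit 7) true (nat_lit 7) true (nat_lit 18) true (nat_lit 18) (.a false (nat_lit 1) (nat_lit 34) (nat_lit 35) (nat_lit 0) (nat_lit 0) dC1a_i20))) (.nd (.nd .leaf (nat_lit 36864) (nat_lit 83) (.p (nat_lit 56) (nat_lit 1) (.n (nat_lit 57) (nat_lit 1) (.p (nat_lit 59) (nat_lit 3) (.p (nat_lit 60) (nat_lit 3) (.n (nat_lit 61) (nat_lit 3) (.n (nat_lit 62) (nat_lit 1) (.n (nat_lit 63) (nat_lit 1) (.n (nat_lit 64) (nat_lit 3) (.n (nat_lit 65) (nat_lit 3) .z))))))))) (.ct dC1a_c530 (nat_lit 1) (nat_lit 6) (.s true (nat_lit 3) (nat_lit 5) (nat_lit 0) (nat_lit 0) (nat_lit 2) true (nat_lit 2) true (nat_lit 4) true (nat_lit 1) true (nat_lit 6) true (nat_lit 6) (.e true (nat_lit 3) (nat_lit 12) (nat_lit 4) (nat_lit 2) (.e true (nat_lit 3) (nat_lit 23) (nat_lit 2) (nat_lit 4) (.e false (nat_lit 3) (nat_lit 31) (nat_lit 0) (nat_lit 6) (.e false (nat_lit 3) (nat_lit 32) (nat_lit 0) (nat_lit 6) (.e true (nat_lit 3) (nat_lit 35) (nat_lit 0) (nat_lit 6) (.u (nat_lit 2) (.n (nat_lit 1) (nat_lit 1) (.p (nat_lit 2) (nat_lit 1) (.p (nat_lit 7) (nat_lit 1) (.p (nat_lit 8) (nat_lit 1) (.p (nat_lit 30) (nat_lit 1) .z))))) .nil)))))))) .leaf) (nat_lit 36865) (nat_lit 104) (.n (nat_lit 66) (nat_lit 2) (.n (nat_lit 67) (nat_lit 1) (.p (nat_lit 68) (nat_lit 1) (.n (nat_lit 69) (nat_lit 1) (.n (nat_lit 70) (nat_lit 1) (.p (nat_lit 72) (nat_lit 1) (.p (nat_lit 74) (nat_lit 1) .z))))))) (.ct dC1a_c290 (nat_lit 1) (nat_lit 5) (.s false (nat_lit 3) (nat_lit 3) (nat_lit 1) (nat_lit 2) (nat_lit 2) true (nat_lit 1) true (nat_lit 4) true (nat_lit 3) true (nat_lit 5) true (nat_lit 4) (.s false (nat_lit 3) (nat_lit 6) (nat_lit 0) (nat_lit 1) (nat_lit 1) true (nat_lit 3) true (nat_lit 5) true (nat_lit 0) true (nat_lit 6) true (nat_lit 5) (.e false (nat_lit 3) (nat_lit 10) (nat_lit 5) (nat_lit 1) (.e false (nat_lit 3) (nat_lit 24) (nat_lit 2) (nat_lit 4) (.e true (nat_lit 3) (nat_lit 16) (nat_lit 3) (nat_lit 3) (.e false (nat_lit 1) (nat_lit 34) (nat_lit 1) (nat_lit 5) (.e false (nat_lit 3) (nat_lit 25) (nat_lit 2) (nat_lit 4) (.e false (nat_lit 3) (nat_lit 17) (nat_lit 3) (nat_lit 3) (.e true (nat_lit 3) (nat_lit 8) (nat_lit 6) (nat_lit 0) (.e true (nat_lit 1) (nat_lit 31) (nat_lit 1) (nat_lit 5) (.u (nat_lit 2) (.p (nat_lit 0) (nat_lit 2) (.p (nat_lit 1) (nat_lit 1) (.n (nat_lit 2) (nat_lit 1) (.p (nat_lit 3) (nat_lit 1) (.n (nat_lit 8) (nat_lit 1) (.p (nat_lit 22) (nat_lit 1) (.n (nat_lit 25) (nat_lit 1) (.p (nat_lit 27) (nat_lit 1) .z)))))))) .nil)))))))))))) .leaf))) (nat_lit 36866) (nat_lit 124) (.p (nat_lit 87) (nat_lit 1) .z) .df (.nd (.nd (.nd (.nd .leaf (nat_lit 36867) (nat_lit 205) (.n (nat_lit 107) (nat_lit 1) (.n (nat_lit 108) (nat_lit 1) (.n (nat_lit 109) (nat_lit 1) (.p (nat_lit 110) (nat_lit 1) (.n (nat_lit 113) (nat_lit 1) (.p (nat_lit 116) (nat_lit 1) (.p (nat_lit 119) (nat_lit 3) (.p (nat_lit 120) (nat_lit 2) (.n (nat_lit 121) (nat_lit 3) (.n (nat_lit 123) (nat_lit 3) (.n (nat_lit 124) (nat_lit 3) (.p (nat_lit 125) (nat_lit 1) (.n (nat_lit 127) (nat_lit 1) (.n (nat_lit 128) (nat_lit 1) (.n (nat_lit 131) (nat_lit 1) .z))))))))))))))) (.ct dC1a_c546 (nat_lit 1) (nat_lit 7) (.s false (nat_lit 1) (nat_lit 5) (nat_lit 0) (nat_lit 3) (nat_lit 2) true (nat_lit 6) true (nat_lit 8) true (nat_lit 5) true (nat_lit 10) true (nat_lit 7) (.e false (nat_lit 1) (nat_lit 24) (nat_lit 4) (nat_lit 6) (.e true (nat_lit 1) (nat_lit 26) (nat_lit 4) (nat_lit 6) (.e false (nat_lit 1) (nat_lit 27) (nat_lit 4) (nat_lit 6) (.e false (nat_lit 1) (nat_lit 48) (nat_lit 2) (nat_lit 8) (.e true (nat_lit 1) (nat_lit 53) (nat_lit 2) (nat_lit 8) (.e false (nat_lit 1) (nat_lit 54) (nat_lit 2) (nat_lit 8) (.e false (nat_lit 1) (nat_lit 20) (nat_lit 5) (nat_lit 5) (.e true (nat_lit 1) (nat_lit 75) (nat_lit 0) (nat_lit 10) (.u (nat_lit 2) (.p (nat_lit 17) (nat_lit 1) .z) .nil))))))))))) .leaf) (nat_lit 36868) (nat_lit 270) (.p (nat_lit 132) (nat_lit 1) (.n (nat_lit 134) (nat_lit 3) (.n (nat_lit 135) (nat_lit 1) (.p (nat_lit 136) (nat_lit 1) (.p (nat_lit 137) (nat_lit 3) (.p (nat_lit 138) (nat_lit 2) (.n (nat_lit 139) (nat_lit 2) (.n (nat_lit 140) (nat_lit 1) (.p (nat_lit 141) (nat_lit 2) (.p (nat_lit 142) (nat_lit 2) (.p (nat_lit 143) (nat_lit 1) (.p (nat_lit 144) (nat_lit 1) (.p (nat_lit 145) (nat_lit 2) (.p (nat_lit 146) (nat_lit 3) (.n (nat_lit 147) (nat_lit 1) (.p (nat_lit 148) (nat_lit 1) (.p (nat_lit 149) (nat_lit 3) (.n (nat_lit 150) (nat_lit 3) (.n (nat_lit 151) (nat_lit 3) (.n (nat_lit 152) (nat_lit 2) .z)))))))))))))))))))) (.ct dC1a_c531 (nat_lit 1) (nat_lit 5) (.s false (nat_lit 1) (nat_lit 16) (nat_lit 2) (nat_lit 0) (nat_lit 0) true (nat_lit 5) true (nat_lit 9) false (nat_lit 1) true (nat_lit 7) true (nat_lit 9) (.e false (nat_lit 1) (nat_lit 89) (nat_lit 0) (nat_lit 9) (.e true (nat_lit 1) (nat_lit 16) (nat_lit 9) (nat_lit 1) (.e true (nat_lit 1) (nat_lit 87) (nat_lit 0) (nat_lit 9) (.u (nat_lit 2) (.p (nat_lit 2) (nat_lit 1) (.p (nat_lit 7) (nat_lit 1) (.n (nat_lit 9) (nat_lit 1) (.p (nat_lit 18) (nat_lit 1) .z)))) .nil)))))) .leaf) (nat_lit 36869) (nat_lit 303) (.n (nat_lit 153) (nat_lit 1) (.p (nat_lit 154) (nat_lit 1) (.n (nat_lit 157) (nat_lit 1) (.n (nat_lit 160) (nat_lit 1) (.p (nat_lit 161) (nat_lit 3) (.n (nat_lit 162) (nat_lit 3) (.n (nat_lit 163) (nat_lit 2) (.n (nat_lit 164) (nat_lit 2) (.n (nat_lit 165) (nat_lit 1) (.p (nat_lit 166) (nat_lit 1) (.p (nat_lit 167) (nat_lit 3) (.n (nat_lit 168) (nat_lit 3) (.n (nat_lit 170) (nat_lit 3) (.n (nat_lit 171) (nat_lit 2) (.p (nat_lit 173) (nat_lit 1) .z))))))))))))))) (.ct dC1a_c291 (nat_lit 1) (nat_lit 4) (.s false (nat_lit 1) (nat_lit 5) (nat_lit 1) (nat_lit 4) (nat_lit 2) true (nat_lit 4) true (nat_lit 7) true (nat_lit 4) true (nat_lit 8) true (nat_lit 5) (.s true (nat_lit 1) (nat_lit 6) (nat_lit 2) (nat_lit 1) (nat_lit 3) true (nat_lit 1) true (nat_lit 6) true (nat_lit 3) true (nat_lit 7) true (nat_lit 8) (.s true (nat_lit 2) (nat_lit 6) (nat_lit 4) (nat_lit 1) (nat_lit 1) true (nat_lit 1) true (nat_lit 8) true (nat_lit 3) true (nat_lit 5) true (nat_lit 8) (.s true (nat_lit 1) (nat_lit 15) (nat_lit 1) (nat_lit 1) (nat_lit 2) true (nat_lit 4) true (nat_lit 7) false (nat_lit 0) true (nat_lit 8) true (nat_lit 8) (.s true (nat_lit 1) (nat_lit 16) (nat_lit 0) (nat_lit 1) (nat_lit 2) true (nat_lit 5) true (nat_lit 7) false (nat_lit 1) true (nat_lit 9) true (nat_lit 8) (.s true (nat_lit 1) (nat_lit 16) (nat_lit 0) (nat_lit 2) (nat_lit 1) true (nat_lit 6) true (nat_lit 8) false (nat_lit 1) true (nat_lit 9) true (nat_lit 7) (.s true (nat_lit 2) (nat_lit 18) (nat_lit 0) (nat_lit 1) (nat_lit 1) true (nat_lit 6) true (nat_lit 8) false (nat_lit 2) true (nat_lit 9) true (nat_lit 8) dC1a_i21)))))))) (.nd (.nd .leaf (nat_lit 36870) (nat_lit 375) (.n (nat_lit 180) (nat_lit 1) (.p (nat_lit 182) (nat_lit 1) (.p (nat_lit 183) (nat_lit 3) (.p (nat_lit 184) (nat_lit 1) (.p (nat_lit 185) (nat_lit 2) (.p (nat_lit 186) (nat_lit 2) (.p (nat_lit 187) (nat_lit 2) (.n (nat_lit 188) (nat_lit 1) (.n (nat_lit 189) (nat_lit 2) (.n (nat_lit 190) (nat_lit 2) (.n (nat_lit 194) (nat_lit 1) .z))))))))))) (.ct dC1a_c276 (nat_lit 1) (nat_lit 2) (.s false (nat_lit 1) (nat_lit 6) (nat_lit 2) (nat_lit 3) (nat_lit 2) true (nat_lit 2) true (nat_lit 6) true (nat_lit 2) true (nat_lit 6) true (nat_lit 5) (.e false (nat_lit 1) (nat_lit 32) (nat_lit 6) (nat_lit 2) (.e true (nat_lit 1) (nat_lit 33) (nat_lit 6) (nat_lit 2) (.e false (nat_lit 1) (nat_lit 34) (nat_lit 6) (nat_lit 2) (.e false (nat_lit 1) (nat_lit 83) (nat_lit 2) (nat_lit 6) (.e true (nat_lit 1) (nat_lit 84) (nat_lit 2) (nat_lit 6) (.e false (nat_lit 1) (nat_lit 85) (nat_lit 2) (nat_lit 6) (.e true (nat_lit 1) (nat_lit 87) (nat_lit 2) (nat_lit 6) (.e true (nat_lit 2) (nat_lit 90) (nat_lit 2) (nat_lit 6) (.e true (nat_lit 1) (nat_lit 31) (nat_lit 6) (nat_lit 2) (.e false (nat_lit 1) (nat_lit 46) (nat_lit 3) (nat_lit 5) .nil)))))))))))) .leaf) (nat_lit 36874) (nat_lit 540) (.n (nat_lit 212) (nat_lit 2) (.n (nat_lit 213) (nat_lit 3) (.n (nat_lit 214) (nat_lit 1) (.p (nat_lit 215) (nat_lit 3) (.n (nat_lit 216) (nat_lit 2) (.n (nat_lit 217) (nat_lit 2) (.p (nat_lit 218) (nat_lit 3) (.n (nat_lit 219) (nat_lit 3) (.n (nat_lit 220) (nat_lit 3) (.n (nat_lit 221) (nat_lit 3) (.p (nat_lit 222) (nat_lit 3) (.n (nat_lit 223) (nat_lit 3) (.p (nat_lit 224) (nat_lit 2) (.n (nat_lit 227) (nat_lit 1) (.p (nat_lit 229) (nat_lit 1) (.p (nat_lit 231) (nat_lit 1) (.n (nat_lit 232) (nat_lit 3) (.p (nat_lit 233) (nat_lit 3) (.n (nat_lit 234) (nat_lit 3) (.n (nat_lit 235) (nat_lit 1) (.n (nat_lit 236) (nat_lit 1) (.n (nat_lit 237) (nat_lit 3) (.p (nat_lit 238) (nat_lit 1) (.p (nat_lit 239) (nat_lit 2) (.n (nat_lit 240) (nat_lit 2) (.p (nat_lit 241) (nat_lit 1) (.p (nat_lit 242) (nat_lit 2) (.n (nat_lit 252) (nat_lit 1) .z)))))))))))))))))))))))))))) (.ct dC1a_c547 (nat_lit 1) (nat_lit 4) (.s true (nat_lit 1) (nat_lit 16) (nat_lit 2) (nat_lit 0) (nat_lit 3) true (nat_lit 4) true (nat_lit 11) true (nat_lit 1) true (nat_lit 12) true (nat_lit 14) (.e true (nat_lit 1) (nat_lit 89) (nat_lit 3) (nat_lit 11) (.e false (nat_lit 1) (nat_lit 21) (nat_lit 16) (nat_lit 1) (.e true (nat_lit 1) (nat_lit 22) (nat_lit 16) (nat_lit 1) (.e true (nat_lit 1) (nat_lit 23) (nat_lit 16) (nat_lit 1) (.e false (nat_lit 1) (nat_lit 112) (nat_lit 2) (nat_lit 12) (.e true (nat_lit 1) (nat_lit 114) (nat_lit 2) (nat_lit 12) (.e false (nat_lit 1) (nat_lit 115) (nat_lit 2) (nat_lit 12) (.e true (nat_lit 1) (nat_lit 129) (nat_lit 2) (nat_lit 12) (.e true (nat_lit 1) (nat_lit 153) (nat_lit 0) (nat_lit 14) (.e true (nat_lit 1) (nat_lit 154) (nat_lit 0) (nat_lit 14) (.e false (nat_lit 1) (nat_lit 155) (nat_lit 0) (nat_lit 14) (.e true (nat_lit 1) (nat_lit 156) (nat_lit 0) (nat_lit 14) (.e true (nat_lit 1) (nat_lit 157) (nat_lit 0) (nat_lit 14) (.e false (nat_lit 1) (nat_lit 161) (nat_lit 0) (nat_lit 14) (.u (nat_lit 2) (.n (nat_lit 2) (nat_lit 1) (.p (nat_lit 3) (nat_lit 1) (.p (nat_lit 5) (nat_lit 1) (.p (nat_lit 8) (nat_lit 1) (.n (nat_lit 9) (nat_lit 1) (.p (nat_lit 10) (nat_lit 1) (.p (nat_lit 11) (nat_lit 1) (.n (nat_lit 12) (nat_lit 1) (.p (nat_lit 14) (nat_lit 1) (.p (nat_lit 20) (nat_lit 1) (.p (nat_lit 21) (nat_lit 1) (.p (nat_lit 23) (nat_lit 1) (.p (nat_lit 24) (nat_lit 1) (.p (nat_lit 28) (nat_lit 1) (.n (nat_lit 30) (nat_lit 1) (.p (nat_lit 31) (nat_lit 1) (.p (nat_lit 32) (nat_lit 1) (.n (nat_lit 36) (nat_lit 1) .z)))))))))))))))))) .nil))))))))))))))))) .leaf)) (nat_lit 36875) (nat_lit 572) (.n (nat_lit 212) (nat_lit 3) (.p (nat_lit 214) (nat_lit 1) (.p (nat_lit 215) (nat_lit 3) (.p (nat_lit 216) (nat_lit 2) (.p (nat_lit 217) (nat_lit 2) (.p (nat_lit 220) (nat_lit 1) (.p (nat_lit 221) (nat_lit 1) (.n (nat_lit 222) (nat_lit 2) (.p (nat_lit 223) (nat_lit 3) (.n (nat_lit 224) (nat_lit 3) (.n (nat_lit 226) (nat_lit 3) (.p (nat_lit 227) (nat_lit 1) (.n (nat_lit 229) (nat_lit 1) (.p (nat_lit 230) (nat_lit 1) (.n (nat_lit 231) (nat_lit 2) (.n (nat_lit 232) (nat_lit 1) (.p (nat_lit 233) (nat_lit 1) (.n (nat_lit 234) (nat_lit 1) (.n (nat_lit 236) (nat_lit 3) (.p (nat_lit 237) (nat_lit 3) (.n (nat_lit 238) (nat_lit 2) (.p (nat_lit 239) (nat_lit 1) (.n (nat_lit 241) (nat_lit 3) (.n (nat_lit 242) (nat_lit 3) (.p (nat_lit 243) (nat_lit 3) (.p (nat_lit 244) (nat_lit 1) (.p (nat_lit 245) (nat_lit 3) (.n (nat_lit 248) (nat_lit 3) (.n (nat_lit 250) (nat_lit 1) (.n (nat_lit 251) (nat_lit 1) (.p (nat_lit 252) (nat_lit 1) .z))))))))))))))))))))))))))))))) (.ct dC1a_c547 (nat_lit 1) (nat_lit 4) (.s true (nat_lit 1) (nat_lit 11) (nat_lit 0) (nat_lit 2) (nat_lit 5) true (nat_lit 4) true (nat_lit 9) true (nat_lit 4) true (nat_lit 14) true (nat_lit 12) (.e true (nat_lit 1) (nat_lit 32) (nat_lit 12) (nat_lit 4) (.e true (nat_lit 1) (nat_lit 55) (nat_lit 5) (nat_lit 9) (.e true (nat_lit 1) (nat_lit 56) (nat_lit 5) (nat_lit 9) (.e false (nat_lit 1) (nat_lit 57) (nat_lit 5) (nat_lit 9) (.e true (nat_lit 1) (nat_lit 31) (nat_lit 11) (nat_lit 4) (.e true (nat_lit 1) (nat_lit 32) (nat_lit 11) (nat_lit 4) (.e false (nat_lit 1) (nat_lit 35) (nat_lit 11) (nat_lit 4) (.e false (nat_lit 1) (nat_lit 158) (nat_lit 0) (nat_lit 14) (.e true (nat_lit 1) (nat_lit 163) (nat_lit 0) (nat_lit 14) (.e false (nat_lit 1) (nat_lit 165) (nat_lit 0) (nat_lit 14) (.e true (nat_lit 1) (nat_lit 172) (nat_lit 0) (nat_lit 14) (.e true (nat_lit 1) (nat_lit 128) (nat_lit 2) (nat_lit 12) (.u (nat_lit 2) (.n (nat_lit 0) (nat_lit 1) (.p (nat_lit 1) (nat_lit 1) (.n (nat_lit 2) (nat_lit 1) (.n (nat_lit 3) (nat_lit 1) (.n (nat_lit 6) (nat_lit 1) (.n (nat_lit 7) (nat_lit 1) (.n (nat_lit 8) (nat_lit 1) (.p (nat_lit 12) (nat_lit 1) (.p (nat_lit 14) (nat_lit 1) (.p (nat_lit 15) (nat_lit 1) (.p (nat_lit 17) (nat_lit 1) (.n (nat_lit 18) (nat_lit 1) (.p (nat_lit 22) (nat_lit 1) (.n (nat_lit 23) (nat_lit 1) (.p (nat_lit 24) (nat_lit 1) (.n (nat_lit 25) (nat_lit 1) (.n (nat_lit 27) (nat_lit 1) (.p (nat_lit 29) (nat_lit 2) (.p (nat_lit 30) (nat_lit 2) (.p (nat_lit 31) (nat_lit 1) (.n (nat_lit 32) (nat_lit 1) (.n (nat_lit 33) (nat_lit 1) (.p (nat_lit 36) (nat_lit 1) (.p (nat_lit 38) (nat_lit 1) (.n (nat_lit 39) (nat_lit 1) (.n (nat_lit 40) (nat_lit 1) (.n (nat_lit 45) (nat_lit 1) .z))))))))))))))))))))))))))) .nil))))))))))))))) (.nd (.nd (.nd .leaf (nat_lit 36876) (nat_lit 528) (.p (nat_lit 212) (nat_lit 3) (.p (nat_lit 213) (nat_lit 1) (.n (nat_lit 215) (nat_lit 1) (.p (nat_lit 216) (nat_lit 3) (.p (nat_lit 218) (nat_lit 3) (.n (nat_lit 219) (nat_lit 3) (.n (nat_lit 220) (nat_lit 1) (.p (nat_lit 221) (nat_lit 3) (.p (nat_lit 222) (nat_lit 1) (.n (nat_lit 223) (nat_lit 3) (.n (nat_lit 226) (nat_lit 1) (.p (nat_lit 227) (nat_lit 3) (.n (nat_lit 229) (nat_lit 2) (.p (nat_lit 230) (nat_lit 1) (.p (nat_lit 231) (nat_lit 3) (.n (nat_lit 232) (nat_lit 3) (.n (nat_lit 233) (nat_lit 2) (.p (nat_lit 234) (nat_lit 2) (.p (nat_lit 235) (nat_lit 1) (.p (nat_lit 237) (nat_lit 1) (.p (nat_lit 238) (nat_lit 2) (.p (nat_lit 239) (nat_lit 1) (.p (nat_lit 240) (nat_lit 2) (.n (nat_lit 241) (nat_lit 3) (.p (nat_lit 243) (nat_lit 1) (.n (nat_lit 244) (nat_lit 3) (.n (nat_lit 245) (nat_lit 2) (.n (nat_lit 248) (nat_lit 1) (.n (nat_lit 250) (nat_lit 1) (.n (nat_lit 251) (nat_lit 1) (.p (nat_lit 252) (nat_lit 2) .z))))))))))))))))))))))))))))))) (.ct dC1a_c547 (nat_lit 1) (nat_lit 4) (.s true (nat_lit 1) (nat_lit 36) (nat_lit 1) (nat_lit 2) (nat_lit 0) true (nat_lit 11) true (nat_lit 14) false (nat_lit 4) true (nat_lit 13) true (nat_lit 12) (.e false (nat_lit 1) (nat_lit 87) (nat_lit 3) (nat_lit 11) (.e false (nat_lit 2) (nat_lit 153) (nat_lit 0) (nat_lit 14) (.e false (nat_lit 1) (nat_lit 154) (nat_lit 0) (nat_lit 14) (.e true (nat_lit 1) (nat_lit 155) (nat_lit 0) (nat_lit 14) (.e false (nat_lit 1) (nat_lit 156) (nat_lit 0) (nat_lit 14) (.e false (nat_lit 1) (nat_lit 157) (nat_lit 0) (nat_lit 14) (.e true (nat_lit 1) (nat_lit 159) (nat_lit 0) (nat_lit 14) (.e true (nat_lit 1) (nat_lit 161) (nat_lit 0) (nat_lit 14) (.e false (nat_lit 1) (nat_lit 132) (nat_lit 1) (nat_lit 13) (.e true (nat_lit 3) (nat_lit 134) (nat_lit 1) (nat_lit 13) (.e true (nat_lit 1) (nat_lit 135) (nat_lit 1) (nat_lit 13) dC1a_i22))))))))))))) .leaf) (nat_lit 36878) (nat_lit 675) (.p (nat_lit 260) (nat_lit 1) (.p (nat_lit 261) (nat_lit 1) (.p (nat_lit 262) (nat_lit 2) (.n (nat_lit 263) (nat_lit 2) (.p (nat_lit 265) (nat_lit 1) (.n (nat_lit 266) (nat_lit 3) (.n (nat_lit 268) (nat_lit 2) (.n (nat_lit 269) (nat_lit 1) (.p (nat_lit 270) (nat_lit 3) (.n (nat_lit 272) (nat_lit 1) (.p (nat_lit 273) (nat_lit 1) (.n (nat_lit 274) (nat_lit 2) (.n (nat_lit 277) (nat_lit 3) (.n (nat_lit 278) (nat_lit 1) (.n (nat_lit 279) (nat_lit 1) (.p (nat_lit 280) (nat_lit 1) (.n (nat_lit 283) (nat_lit 1) (.p (nat_lit 285) (nat_lit 1) (.p (nat_lit 286) (nat_lit 2) (.n (nat_lit 287) (nat_lit 1) (.n (nat_lit 288) (nat_lit 3) .z))))))))))))))))))))) (.ct dC1a_c532 (nat_lit 1) (nat_lit 2) (.s true (nat_lit 1) (nat_lit 14) (nat_lit 2) (nat_lit 2) (nat_lit 3) true (nat_lit 3) true (nat_lit 9) true (nat_lit 2) true (nat_lit 10) true (nat_lit 10) (.e false (nat_lit 1) (nat_lit 40) (nat_lit 10) (nat_lit 3) (.e true (nat_lit 1) (nat_lit 98) (nat_lit 3) (nat_lit 9) (.e false (nat_lit 1) (nat_lit 32) (nat_lit 14) (nat_lit 2) (.e true (nat_lit 1) (nat_lit 33) (nat_lit 14) (nat_lit 2) (.e false (nat_lit 1) (nat_lit 34) (nat_lit 14) (nat_lit 2) (.e true (nat_lit 1) (nat_lit 132) (nat_lit 2) (nat_lit 10) (.e false (nat_lit 2) (nat_lit 133) (nat_lit 2) (nat_lit 10) (.e false (nat_lit 2) (nat_lit 134) (nat_lit 2) (nat_lit 10) (.e true (nat_lit 2) (nat_lit 135) (nat_lit 2) (nat_lit 10) (.e false (nat_lit 1) (nat_lit 138) (nat_lit 2) (nat_lit 10) (.e true (nat_lit 3) (nat_lit 139) (nat_lit 2) (nat_lit 10) (.e true (nat_lit 1) (nat_lit 141) (nat_lit 2) (nat_lit 10) (.e false (nat_lit 3) (nat_lit 142) (nat_lit 2) (nat_lit 10) (.e true (nat_lit 1) (nat_lit 147) (nat_lit 2) (nat_lit 10) (.e false (nat_lit 1) (nat_lit 151) (nat_lit 2) (nat_lit 10) (.u (nat_lit 2) (.n (nat_lit 0) (nat_lit 1) (.p (nat_lit 1) (nat_lit 1) (.p (nat_lit 5) (nat_lit 1) (.p (nat_lit 6) (nat_lit 1) (.n (nat_lit 8) (nat_lit 1) (.p (nat_lit 11) (nat_lit 1) (.n (nat_lit 14) (nat_lit 1) (.p (nat_lit 18) (nat_lit 1) (.p (nat_lit 19) (nat_lit 1) (.n (nat_lit 26) (nat_lit 1) (.p (nat_lit 28) (nat_lit 1) (.n (nat_lit 98) (nat_lit 1) .z)))))))))))) .nil)))))))))))))))))) .leaf) (nat_lit 36879) (nat_lit 678) (.p (nat_lit 260) (nat_lit 3) (.p (nat_lit 262) (nat_lit 1) (.p (nat_lit 264) (nat_lit 2) (.p (nat_lit 266) (nat_lit 2) (.n (nat_lit 267) (nat_lit 1) (.n (nat_lit 268) (nat_lit 2) (.p (nat_lit 269) (nat_lit 1) (.n (nat_lit 271) (nat_lit 3) (.p (nat_lit 272) (nat_lit 2) (.p (nat_lit 273) (nat_lit 2) (.p (nat_lit 274) (nat_lit 2) (.n (nat_lit 277) (nat_lit 1) (.p (nat_lit 280) (nat_lit 3) (.n (nat_lit 281) (nat_lit 1) (.n (nat_lit 283) (nat_lit 2) (.p (nat_lit 285) (nat_lit 2) (.p (nat_lit 286) (nat_lit 2) (.p (nat_lit 287) (nat_lit 1) (.p (nat_lit 288) (nat_lit 2) (.p (nat_lit 289) (nat_lit 1) .z)))))))))))))))))))) (.ct dC1a_c532 (nat_lit 1) (nat_lit 2) (.s false (nat_lit 1) (nat_lit 6) (nat_lit 3) (nat_lit 0) (nat_lit 6) false (nat_lit 2) true (nat_lit 6) true (nat_lit 6) true (nat_lit 9) true (nat_lit 12) (.e false (nat_lit 1) (nat_lit 32) (nat_lit 15) (nat_lit 2) (.e true (nat_lit 1) (nat_lit 33) (nat_lit 15) (nat_lit 2) (.e false (nat_lit 1) (nat_lit 34) (nat_lit 15) (nat_lit 2) (.e true (nat_lit 1) (nat_lit 61) (nat_lit 6) (nat_lit 6) (.e false (nat_lit 1) (nat_lit 64) (nat_lit 6) (nat_lit 6) (.e true (nat_lit 2) (nat_lit 99) (nat_lit 3) (nat_lit 9) (.e true (nat_lit 2) (nat_lit 100) (nat_lit 3) (nat_lit 9) (.u (nat_lit 2) (.p (nat_lit 0) (nat_lit 1) (.n (nat_lit 1) (nat_lit 1) (.p (nat_lit 3) (nat_lit 1) (.n (nat_lit 4) (nat_lit 1) (.p (nat_lit 6) (nat_lit 1) (.p (nat_lit 8) (nat_lit 2) (.p (nat_lit 9) (nat_lit 1) (.n (nat_lit 10) (nat_lit 1) (.p (nat_lit 12) (nat_lit 1) (.p (nat_lit 13) (nat_lit 1) (.n (nat_lit 18) (nat_lit 1) (.n (nat_lit 19) (nat_lit 2) (.p (nat_lit 26) (nat_lit 1) (.n (nat_lit 75) (nat_lit 1) .z)))))))))))))) .nil)))))))))) (.nd (.nd .leaf (nat_lit 36880) (nat_lit 773) (.n (nat_lit 290) (nat_lit 3) (.n (nat_lit 291) (nat_lit 1) (.p (nat_lit 293) (nat_lit 2) (.n (nat_lit 294) (nat_lit 1) (.p (nat_lit 296) (nat_lit 1) (.n (nat_lit 297) (nat_lit 2) (.n (nat_lit 298) (nat_lit 1) (.p (nat_lit 299) (nat_lit 1) (.p (nat_lit 300) (nat_lit 3) (.p (nat_lit 301) (nat_lit 3) (.p (nat_lit 302) (nat_lit 1) (.n (nat_lit 304) (nat_lit 1) (.p (nat_lit 305) (nat_lit 3) (.n (nat_lit 308) (nat_lit 1) (.p (nat_lit 310) (nat_lit 3) (.n (nat_lit 311) (nat_lit 1) (.p (nat_lit 313) (nat_lit 1) (.n (nat_lit 316) (nat_lit 3) (.n (nat_lit 317) (nat_lit 3) (.n (nat_lit 318) (nat_lit 1) .z)))))))))))))))))))) (.ct dC1a_c292 (nat_lit 1) (nat_lit 1) (.s true (nat_lit 1) (nat_lit 16) (nat_lit 2) (nat_lit 2) (nat_lit 3) true (nat_lit 4) true (nat_lit 9) true (nat_lit 1) true (nat_lit 10) true (nat_lit 10) (.e false (nat_lit 1) (nat_lit 43) (nat_lit 10) (nat_lit 4) (.e true (nat_lit 1) (nat_lit 102) (nat_lit 3) (nat_lit 9) (.e false (nat_lit 1) (nat_lit 32) (nat_lit 16) (nat_lit 1) (.e true (nat_lit 1) (nat_lit 33) (nat_lit 16) (nat_lit 1) (.e false (nat_lit 1) (nat_lit 34) (nat_lit 16) (nat_lit 1) (.e true (nat_lit 2) (nat_lit 157) (nat_lit 2) (nat_lit 10) (.e false (nat_lit 1) (nat_lit 162) (nat_lit 2) (nat_lit 10) (.e true (nat_lit 1) (nat_lit 164) (nat_lit 2) (nat_lit 10) (.e false (nat_lit 1) (nat_lit 171) (nat_lit 2) (nat_lit 10) (.e true (nat_lit 1) (nat_lit 153) (nat_lit 2) (nat_lit 10) (.e true (nat_lit 1) (nat_lit 154) (nat_lit 2) (nat_lit 10) (.e false (nat_lit 1) (nat_lit 155) (nat_lit 2) (nat_lit 10) (.e true (nat_lit 1) (nat_lit 156) (nat_lit 2) (nat_lit 10) (.e false (nat_lit 1) (nat_lit 161) (nat_lit 2) (nat_lit 10) (.u (nat_lit 2) (.n (nat_lit 4) (nat_lit 1) (.p (nat_lit 8) (nat_lit 1) (.n (nat_lit 10) (nat_lit 1) (.p (nat_lit 11) (nat_lit 1) (.p (nat_lit 14) (nat_lit 1) (.p (nat_lit 18) (nat_lit 1) (.n (nat_lit 20) (nat_lit 1) (.p (nat_lit 27) (nat_lit 1) .z)))))))) .nil))))))))))))))))) .leaf) (nat_lit 36881) (nat_lit 751) (.n (nat_lit 290) (nat_lit 3) (.p (nat_lit 291) (nat_lit 3) (.p (nat_lit 292) (nat_lit 2) (.n (nat_lit 293) (nat_lit 1) (.n (nat_lit 295) (nat_lit 1) (.n (nat_lit 296) (nat_lit 2) (.p (nat_lit 298) (nat_lit 2) (.n (nat_lit 299) (nat_lit 3) (.p (nat_lit 300) (nat_lit 1) (.n (nat_lit 304) (nat_lit 1) (.n (nat_lit 307) (nat_lit 1) (.n (nat_lit 308) (nat_lit 3) (.p (nat_lit 310) (nat_lit 1) (.n (nat_lit 311) (nat_lit 2) (.p (nat_lit 313) (nat_lit 2) (.p (nat_lit 316) (nat_lit 3) (.n (nat_lit 317) (nat_lit 3) .z))))))))))))))))) (.ct dC1a_c292 (nat_lit 1) (nat_lit 1) (.s true (nat_lit 1) (nat_lit 6) (nat_lit 1) (nat_lit 3) (nat_lit 6) true (nat_lit 1) true (nat_lit 6) true (nat_lit 6) true (nat_lit 11) true (nat_lit 9) (.e false (nat_lit 1) (nat_lit 32) (nat_lit 17) (nat_lit 1) (.e true (nat_lit 1) (nat_lit 33) (nat_lit 17) (nat_lit 1) (.e false (nat_lit 1) (nat_lit 34) (nat_lit 17) (nat_lit 1) (.e true (nat_lit 2) (nat_lit 66) (nat_lit 6) (nat_lit 6) (.e false (nat_lit 1) (nat_lit 68) (nat_lit 6) (nat_lit 6) (.e true (nat_lit 1) (nat_lit 69) (nat_lit 6) (nat_lit 6) (.e false (nat_lit 1) (nat_lit 70) (nat_lit 6) (nat_lit 6) (.e false (nat_lit 1) (nat_lit 75) (nat_lit 6) (nat_lit 6) (.e false (nat_lit 1) (nat_lit 74) (nat_lit 6) (nat_lit 6) (.e true (nat_lit 2) (nat_lit 188) (nat_lit 1) (nat_lit 11) (.u (nat_lit 2) (.n (nat_lit 1) (nat_lit 1) (.n (nat_lit 2) (nat_lit 1) (.p (nat_lit 9) (nat_lit 1) (.p (nat_lit 14) (nat_lit 1) (.p (nat_lit 17) (nat_lit 1) (.n (nat_lit 26) (nat_lit 2) .z)))))) .nil))))))))))))) .leaf)))) (nat_lit 36882) (nat_lit 855) (.n (nat_lit 328) (nat_lit 1) (.p (nat_lit 329) (nat_lit 2) (.p (nat_lit 330) (nat_lit 2) (.p (nat_lit 331) (nat_lit 1) (.p (nat_lit 332) (nat_lit 1) (.n (nat_lit 333) (nat_lit 1) (.n (nat_lit 334) (nat_lit 2) (.n (nat_lit 335) (nat_lit 2) (.p (nat_lit 336) (nat_lit 2) (.n (nat_lit 337) (nat_lit 3) (.p (nat_lit 338) (nat_lit 1) (.p (nat_lit 341) (nat_lit 2) (.n (nat_lit 346) (nat_lit 1) .z))))))))))))) (.ct dC1a_c277 (nat_lit 1) (nat_lit 0) (.s false (nat_lit 1) (nat_lit 36) (nat_lit 2) (nat_lit 2) (nat_lit 2) true (nat_lit 4) true (nat_lit 8) false (nat_lit 0) true (nat_lit 8) true (nat_lit 8) (.e false (nat_lit 1) (nat_lit 87) (nat_lit 6) (nat_lit 4) (.e true (nat_lit 2) (nat_lit 185) (nat_lit 2) (nat_lit 8) (.e false (nat_lit 1) (nat_lit 180) (nat_lit 2) (nat_lit 8) (.e true (nat_lit 1) (nat_lit 182) (nat_lit 2) (nat_lit 8) (.e true (nat_lit 3) (nat_lit 183) (nat_lit 2) (nat_lit 8) (.e true (nat_lit 1) (nat_lit 184) (nat_lit 2) (nat_lit 8) (.e true (nat_lit 2) (nat_lit 186) (nat_lit 2) (nat_lit 8) (.e true (nat_lit 2) (nat_lit 187) (nat_lit 2) (nat_lit 8) (.e false (nat_lit 1) (nat_lit 188) (nat_lit 2) (nat_lit 8) (.e false (nat_lit 2) (nat_lit 189) (nat_lit 2) (nat_lit 8) (.e false (nat_lit 2) (nat_lit 190) (nat_lit 2) (nat_lit 8) (.e false (nat_lit 1) (nat_lit 194) (nat_lit 2) (nat_lit 8) (.u (nat_lit 2) (.n (nat_lit 3) (nat_lit 1) (.p (nat_lit 9) (nat_lit 1) .z)) .nil))))))))))))))) (.nd (.nd (.nd (.nd (.nd .leaf (nat_lit 36895) (nat_lit 1210) (.n (nat_lit 355) (nat_lit 1) (.p (nat_lit 356) (nat_lit 2) (.n (nat_lit 357) (nat_lit 3) (.n (nat_lit 358) (nat_lit 3) (.n (nat_lit 359) (nat_lit 2) (.n (nat_lit 360) (nat_lit 2) (.p (nat_lit 361) (nat_lit 1) (.p (nat_lit 362) (nat_lit 2) (.n (nat_lit 363) (nat_lit 3) (.p (nat_lit 364) (nat_lit 3) (.n (nat_lit 365) (nat_lit 1) (.n (nat_lit 366) (nat_lit 2) (.n (nat_lit 367) (nat_lit 1) (.p (nat_lit 369) (nat_lit 1) (.n (nat_lit 370) (nat_lit 3) (.p (nat_lit 373) (nat_lit 1) (.n (nat_lit 374) (nat_lit 3) (.n (nat_lit 379) (nat_lit 2) (.n (nat_lit 380) (nat_lit 2) (.n (nat_lit 381) (nat_lit 2) (.p (nat_lit 383) (nat_lit 2) (.p (nat_lit 385) (nat_lit 2) (.n (nat_lit 386) (nat_lit 2) (.n (nat_lit 387) (nat_lit 1) (.p (nat_lit 388) (nat_lit 2) (.n (nat_lit 389) (nat_lit 1) (.p (nat_lit 390) (nat_lit 3) (.p (nat_lit 391) (nat_lit 1) (.p (nat_lit 393) (nat_lit 3) (.p (nat_lit 394) (nat_lit 2) (.n (nat_lit 395) (nat_lit 1) (.p (nat_lit 400) (nat_lit 2) (.p (nat_lit 401) (nat_lit 3) (.n (nat_lit 403) (nat_lit 3) (.p (nat_lit 404) (nat_lit 3) (.p (nat_lit 405) (nat_lit 2) (.n (nat_lit 406) (nat_lit 2) (.n (nat_lit 407) (nat_lit 1) (.p (nat_lit 408) (nat_lit 3) (.p (nat_lit 409) (nat_lit 2) (.n (nat_lit 410) (nat_lit 2) (.n (nat_lit 412) (nat_lit 1) (.p (nat_lit 413) (nat_lit 1) (.p (nat_lit 414) (nat_lit 3) (.p (nat_lit 416) (nat_lit 1) (.n (nat_lit 422) (nat_lit 2) (.p (nat_lit 423) (nat_lit 3) (.n (nat_lit 424) (nat_lit 3) .z)))))))))))))))))))))))))))))))))))))))))))))))) (.ct dC1a_c548 (nat_lit 1) (nat_lit 0) (.s true (nat_lit 1) (nat_lit 31) (nat_lit 0) (nat_lit 2) (nat_lit 5) true (nat_lit 9) true (nat_lit 14) true (nat_lit 0) true (nat_lit 19) true (nat_lit 17) (.a false (nat_lit 3) (nat_lit 31) (nat_lit 31) (nat_lit 0) (nat_lit 0) (.e true (nat_lit 1) (nat_lit 82) (nat_lit 12) (nat_lit 9) (.e true (nat_lit 1) (nat_lit 139) (nat_lit 5) (nat_lit 14) (.e true (nat_lit 1) (nat_lit 32) (nat_lit 31) (nat_lit 0) (.e false (nat_lit 1) (nat_lit 35) (nat_lit 31) (nat_lit 0) dC1a_i23))))))) .leaf) (nat_lit 36896) (nat_lit 1208) (.p (nat_lit 355) (nat_lit 1) (.p (nat_lit 356) (nat_lit 1) (.n (nat_lit 357) (nat_lit 3) (.p (nat_lit 359) (nat_lit 1) (.n (nat_lit 362) (nat_lit 3) (.n (nat_lit 363) (nat_lit 2) (.p (nat_lit 365) (nat_lit 1) (.p (nat_lit 367) (nat_lit 2) (.n (nat_lit 368) (nat_lit 1) (.n (nat_lit 370) (nat_lit 1) (.n (nat_lit 372) (nat_lit 2) (.n (nat_lit 373) (nat_lit 3) (.n (nat_lit 374) (nat_lit 2) (.n (nat_lit 375) (nat_lit 3) (.n (nat_lit 379) (nat_lit 2) (.n (nat_lit 380) (nat_lit 2) (.p (nat_lit 382) (nat_lit 3) (.p (nat_lit 383) (nat_lit 1) (.n (nat_lit 384) (nat_lit 1) (.n (nat_lit 387) (nat_lit 3) (.n (nat_lit 388) (nat_lit 3) (.p (nat_lit 389) (nat_lit 1) (.n (nat_lit 391) (nat_lit 1) (.n (nat_lit 393) (nat_lit 1) (.n (nat_lit 394) (nat_lit 2) (.n (nat_lit 395) (nat_lit 1) (.p (nat_lit 396) (nat_lit 1) (.p (nat_lit 397) (nat_lit 1) (.n (nat_lit 398) (nat_lit 1) (.p (nat_lit 400) (nat_lit 2) (.p (nat_lit 401) (nat_lit 3) (.n (nat_lit 403) (nat_lit 3) (.p (nat_lit 404) (nat_lit 1) (.n (nat_lit 405) (nat_lit 1) (.p (nat_lit 406) (nat_lit 1) (.n (nat_lit 409) (nat_lit 1) (.n (nat_lit 411) (nat_lit 1) (.n (nat_lit 412) (nat_lit 1) (.p (nat_lit 413) (nat_lit 2) (.p (nat_lit 414) (nat_lit 3) (.n (nat_lit 415) (nat_lit 1) (.p (nat_lit 417) (nat_lit 1) (.p (nat_lit 419) (nat_lit 1) (.n (nat_lit 420) (nat_lit 1) (.p (nat_lit 421) (nat_lit 1) (.n (nat_lit 422) (nat_lit 2) (.p (nat_lit 423) (nat_lit 3) (.n (nat_lit 425) (nat_lit 3) .z)))))))))))))))))))))))))))))))))))))))))))))))) (.ct dC1a_c548 (nat_lit 1) (nat_lit 0) (.s false (nat_lit 1) (nat_lit 16) (nat_lit 11) (nat_lit 0) (nat_lit 2) true (nat_lit 0) true (nat_lit 17) true (nat_lit 6) true (nat_lit 9) true (nat_lit 19) (.e true (nat_lit 1) (nat_lit 217) (nat_lit 2) (nat_lit 17) (.e false (nat_lit 1) (nat_lit 222) (nat_lit 2) (nat_lit 17) (.e true (nat_lit 1) (nat_lit 224) (nat_lit 2) (nat_lit 17) (.e false (nat_lit 1) (nat_lit 230) (nat_lit 2) (nat_lit 17) (.e false (nat_lit 1) (nat_lit 55) (nat_lit 16) (nat_lit 6) (.e false (nat_lit 1) (nat_lit 56) (nat_lit 16) (nat_lit 6) (.e true (nat_lit 1) (nat_lit 57) (nat_lit 16) (nat_lit 6) (.e false (nat_lit 1) (nat_lit 82) (nat_lit 11) (nat_lit 9) (.e false (nat_lit 1) (nat_lit 83) (nat_lit 11) (nat_lit 9) (.e false (nat_lit 1) (nat_lit 85) (nat_lit 11) (nat_lit 9) (.e true (nat_lit 1) (nat_lit 86) (nat_lit 11) (nat_lit 9) (.e false (nat_lit 1) (nat_lit 87) (nat_lit 11) (nat_lit 9) (.e false (nat_lit 1) (nat_lit 88) (nat_lit 11) (nat_lit 9) dC1a_i24))))))))))))))) .leaf) (nat_lit 36897) (nat_lit 1213) (.n (nat_lit 355) (nat_lit 2) (.n (nat_lit 356) (nat_lit 1) (.n (nat_lit 357) (nat_lit 2) (.p (nat_lit 358) (nat_lit 3) (.n (nat_lit 359) (nat_lit 2) (.p (nat_lit 360) (nat_lit 2) (.n (nat_lit 361) (nat_lit 3) (.n (nat_lit 362) (nat_lit 3) (.n (nat_lit 363) (nat_lit 2) (.p (nat_lit 364) (nat_lit 3) (.n (nat_lit 365) (nat_lit 1) (.p (nat_lit 366) (nat_lit 2) (.p (nat_lit 367) (nat_lit 1) (.n (nat_lit 368) (nat_lit 1) (.p (nat_lit 369) (nat_lit 2) (.p (nat_lit 370) (nat_lit 3) (.p (nat_lit 372) (nat_lit 3) (.n (nat_lit 373) (nat_lit 2) (.p (nat_lit 374) (nat_lit 2) (.p (nat_lit 375) (nat_lit 1) (.n (nat_lit 381) (nat_lit 3) (.n (nat_lit 383) (nat_lit 1) (.n (nat_lit 385) (nat_lit 1) (.n (nat_lit 386) (nat_lit 2) (.p (nat_lit 387) (nat_lit 1) (.p (nat_lit 388) (nat_lit 3) (.p (nat_lit 389) (nat_lit 1) (.p (nat_lit 390) (nat_lit 3) (.p (nat_lit 391) (nat_lit 1) (.p (nat_lit 392) (nat_lit 2) (.n (nat_lit 393) (nat_lit 3) (.p (nat_lit 394) (nat_lit 1) (.n (nat_lit 395) (nat_lit 2) (.n (nat_lit 396) (nat_lit 1) (.p (nat_lit 397) (nat_lit 1) (.n (nat_lit 398) (nat_lit 1) (.n (nat_lit 404) (nat_lit 2) (.n (nat_lit 405) (nat_lit 3) (.p (nat_lit 406) (nat_lit 3) (.p (nat_lit 407) (nat_lit 1) (.n (nat_lit 408) (nat_lit 3) (.n (nat_lit 409) (nat_lit 3) (.p (nat_lit 410) (nat_lit 2) (.n (nat_lit 411) (nat_lit 1) (.p (nat_lit 413) (nat_lit 1) (.n (nat_lit 415) (nat_lit 1) (.n (nat_lit 416) (nat_lit 1) (.p (nat_lit 417) (nat_lit 1) (.p (nat_lit 419) (nat_lit 1) (.n (nat_lit 420) (nat_lit 1) (.p (nat_lit 421) (nat_lit 1) (.p (nat_lit 424) (nat_lit 3) (.n (nat_lit 425) (nat_lit 3) .z))))))))))))))))))))))))))))))))))))))))))))))))))))) (.ct dC1a_c548 (nat_lit 1) (nat_lit 0) (.s false (nat_lit 1) (nat_lit 17) (nat_lit 0) (nat_lit 0) (nat_lit 16) true (nat_lit 0) true (nat_lit 6) true (nat_lit 6) true (nat_lit 19) true (nat_lit 19) (.a true (nat_lit 2) (nat_lit 31) (nat_lit 36) (nat_lit 0) (nat_lit 0) (.a true (nat_lit 1) (nat_lit 32) (nat_lit 36) (nat_lit 0) (nat_lit 0) (.a false (nat_lit 1) (nat_lit 33) (nat_lit 36) (nat_lit 0) (nat_lit 0) (.a false (nat_lit 1) (nat_lit 34) (nat_lit 36) (nat_lit 0) (nat_lit 0) (.a false (nat_lit 1) (nat_lit 35) (nat_lit 36) (nat_lit 0) (nat_lit 0) (.a false (nat_lit 3) (nat_lit 36) (nat_lit 36) (nat_lit 0) (nat_lit 0) (.e false (nat_lit 2) (nat_lit 55) (nat_lit 16) (nat_lit 6) (.e true (nat_lit 2) (nat_lit 56) (nat_lit 16) (nat_lit 6) (.e true (nat_lit 3) (nat_lit 57) (nat_lit 16) (nat_lit 6) (.e false (nat_lit 2) (nat_lit 58) (nat_lit 16) (nat_lit 6) (.e true (nat_lit 1) (nat_lit 61) (nat_lit 16) (nat_lit 6) (.e false (nat_lit 2) (nat_lit 64) (nat_lit 16) (nat_lit 6) (.e true (nat_lit 3) (nat_lit 65) (nat_lit 16) (nat_lit 6) (.e false (nat_lit 3) (nat_lit 290) (nat_lit 0) (nat_lit 19) dC1a_i25)))))))))))))))) (.nd (.nd .leaf (nat_lit 36898) (nat_lit 1186) (.p (nat_lit 356) (nat_lit 1) (.n (nat_lit 357) (nat_lit 3) (.p (nat_lit 358) (nat_lit 3) (.p (nat_lit 359) (nat_lit 1) (.n (nat_lit 360) (nat_lit 1) (.p (nat_lit 361) (nat_lit 1) (.p (nat_lit 362) (nat_lit 2) (.p (nat_lit 363) (nat_lit 2) (.n (nat_lit 365) (nat_lit 2) (.n (nat_lit 366) (nat_lit 2) (.n (nat_lit 367) (nat_lit 1) (.p (nat_lit 369) (nat_lit 1) (.n (nat_lit 370) (nat_lit 3) (.p (nat_lit 372) (nat_lit 2) (.p (nat_lit 373) (nat_lit 3) (.n (nat_lit 374) (nat_lit 3) (.n (nat_lit 379) (nat_lit 2) (.n (nat_lit 380) (nat_lit 2) (.p (nat_lit 381) (nat_lit 1) (.n (nat_lit 382) (nat_lit 3) (.p (nat_lit 383) (nat_lit 1) (.n (nat_lit 384) (nat_lit 2) (.n (nat_lit 385) (nat_lit 1) (.n (nat_lit 387) (nat_lit 1) (.p (nat_lit 389) (nat_lit 1) (.p (nat_lit 391) (nat_lit 2) (.n (nat_lit 393) (nat_lit 3) (.p (nat_lit 394) (nat_lit 2) (.p (nat_lit 395) (nat_lit 3) (.n (nat_lit 396) (nat_lit 2) (.p (nat_lit 400) (nat_lit 2) (.p (nat_lit 401) (nat_lit 3) (.n (nat_lit 403) (nat_lit 3) (.p (nat_lit 404) (nat_lit 3) (.p (nat_lit 405) (nat_lit 2) (.n (nat_lit 406) (nat_lit 2) (.n (nat_lit 407) (nat_lit 1) (.p (nat_lit 408) (nat_lit 3) (.p (nat_lit 409) (nat_lit 2) (.n (nat_lit 410) (nat_lit 2) (.n (nat_lit 412) (nat_lit 1) (.p (nat_lit 413) (nat_lit 1) (.p (nat_lit 414) (nat_lit 3) (.p (nat_lit 416) (nat_lit 1) (.n (nat_lit 422) (nat_lit 2) (.p (nat_lit 423) (nat_lit 3) (.n (nat_lit 424) (nat_lit 3) .z))))))))))))))))))))))))))))))))))))))))))))))) (.ct dC1a_c548 (nat_lit 1) (nat_lit 0) (.s true (nat_lit 1) (nat_lit 34) (nat_lit 0) (nat_lit 2) (nat_lit 5) true (nat_lit 9) true (nat_lit 14) true (nat_lit 0) true (nat_lit 19) true (nat_lit 17) (.a true (nat_lit 1) (nat_lit 31) (nat_lit 34) (nat_lit 0) (nat_lit 0) (.a true (nat_lit 1) (nat_lit 32) (nat_lit 34) (nat_lit 0) (nat_lit 0) (.e true (nat_lit 1) (nat_lit 85) (nat_lit 12) (nat_lit 9) (.e true (nat_lit 1) (nat_lit 132) (nat_lit 5) (nat_lit 14) (.e true (nat_lit 1) (nat_lit 134) (nat_lit 5) (nat_lit 14) (.e true (nat_lit 1) (nat_lit 135) (nat_lit 5) (nat_lit 14) (.e true (nat_lit 3) (nat_lit 136) (nat_lit 5) (nat_lit 14) (.e true (nat_lit 3) (nat_lit 137) (nat_lit 5) (nat_lit 14) (.e false (nat_lit 3) (nat_lit 138) (nat_lit 5) (nat_lit 14) (.e false (nat_lit 1) (nat_lit 140) (nat_lit 5) (nat_lit 14) (.e false (nat_lit 3) (nat_lit 141) (nat_lit 5) (nat_lit 14) (.e true (nat_lit 3) (nat_lit 142) (nat_lit 5) (nat_lit 14) (.e false (nat_lit 1) (nat_lit 35) (nat_lit 34) (nat_lit 0) (.e false (nat_lit 1) (nat_lit 290) (nat_lit 0) (nat_lit 19) (.e false (nat_lit 3) (nat_lit 291) (nat_lit 0) (nat_lit 19) (.e true (nat_lit 1) (nat_lit 292) (nat_lit 0) (nat_lit 19) (.e false (nat_lit 3) (nat_lit 293) (nat_lit 0) (nat_lit 19) (.e true (nat_lit 1) (nat_lit 294) (nat_lit 0) (nat_lit 19) (.e true (nat_lit 1) (nat_lit 296) (nat_lit 0) (nat_lit 19) (.e false (nat_lit 3) (nat_lit 298) (nat_lit 0) (nat_lit 19) (.e false (nat_lit 1) (nat_lit 299) (nat_lit 0) (nat_lit 19) (.e false (nat_lit 1) (nat_lit 301) (nat_lit 0) (nat_lit 19) dC1a_i26)))))))))))))))))))))))) .leaf) (nat_lit 36899) (nat_lit 1157) (.p (nat_lit 355) (nat_lit 3) (.p (nat_lit 356) (nat_lit 3) (.p (nat_lit 357) (nat_lit 1) (.n (nat_lit 358) (nat_lit 3) (.n (nat_lit 359) (nat_lit 3) (.n (nat_lit 360) (nat_lit 2) (.n (nat_lit 361) (nat_lit 2) (.p (nat_lit 362) (nat_lit 1) (.n (nat_lit 363) (nat_lit 1) (.n (nat_lit 365) (nat_lit 3) (.p (nat_lit 366) (nat_lit 2) (.n (nat_lit 367) (nat_lit 3) (.n (nat_lit 369) (nat_lit 2) (.n (nat_lit 370) (nat_lit 2) (.n (nat_lit 373) (nat_lit 1) (.p (nat_lit 374) (nat_lit 2) (.p (nat_lit 375) (nat_lit 1) (.p (nat_lit 379) (nat_lit 3) (.p (nat_lit 380) (nat_lit 3) (.p (nat_lit 381) (nat_lit 3) (.p (nat_lit 382) (nat_lit 1) (.p (nat_lit 383) (nat_lit 3) (.n (nat_lit 384) (nat_lit 2) (.p (nat_lit 385) (nat_lit 1) (.n (nat_lit 386) (nat_lit 2) (.n (nat_lit 387) (nat_lit 3) (.n (nat_lit 388) (nat_lit 1) (.p (nat_lit 390) (nat_lit 3) (.p (nat_lit 391) (nat_lit 3) (.n (nat_lit 392) (nat_lit 2) (.p (nat_lit 393) (nat_lit 1) (.n (nat_lit 394) (nat_lit 2) (.p (nat_lit 395) (nat_lit 2) (.p (nat_lit 396) (nat_lit 3) (.n (nat_lit 400) (nat_lit 3) (.n (nat_lit 401) (nat_lit 1) (.p (nat_lit 403) (nat_lit 1) (.p (nat_lit 404) (nat_lit 3) (.p (nat_lit 405) (nat_lit 3) (.n (nat_lit 406) (nat_lit 3) (.n (nat_lit 407) (nat_lit 2) (.n (nat_lit 408) (nat_lit 2) (.p (nat_lit 409) (nat_lit 1) (.n (nat_lit 410) (nat_lit 1) (.n (nat_lit 412) (nat_lit 2) (.p (nat_lit 413) (nat_lit 2) (.n (nat_lit 414) (nat_lit 1) (.p (nat_lit 416) (nat_lit 2) (.p (nat_lit 422) (nat_lit 3) (.n (nat_lit 423) (nat_lit 1) (.p (nat_lit 424) (nat_lit 1) .z))))))))))))))))))))))))))))))))))))))))))))))))))) (.ct dC1a_c548 (nat_lit 1) (nat_lit 0) (.s false (nat_lit 1) (nat_lit 16) (nat_lit 15) (nat_lit 0) (nat_lit 1) true (nat_lit 0) true (nat_lit 18) true (nat_lit 6) true (nat_lit 7) true (nat_lit 19) dC1a_i28)) .leaf)) (nat_lit 37888) (nat_lit 97) (.p (nat_lit 73) (nat_lit 1) .z) .df (.nd (.nd (.nd .leaf (nat_lit 37890) (nat_lit 139) (.p (nat_lit 93) (nat_lit 1) .z) .df .leaf) (nat_lit 37892) (nat_lit 319) (.n (nat_lit 153) (nat_lit 3) (.n (nat_lit 154) (nat_lit 3) (.n (nat_lit 156) (nat_lit 1) (.n (nat_lit 157) (nat_lit 2) (.n (nat_lit 158) (nat_lit 1) (.p (nat_lit 159) (nat_lit 2) (.n (nat_lit 160) (nat_lit 3) (.p (nat_lit 161) (nat_lit 3) (.n (nat_lit 162) (nat_lit 1) (.n (nat_lit 163) (nat_lit 3) (.p (nat_lit 164) (nat_lit 3) (.n (nat_lit 165) (nat_lit 2) (.p (nat_lit 168) (nat_lit 1) (.p (nat_lit 169) (nat_lit 1) (.p (nat_lit 170) (nat_lit 1) (.n (nat_lit 171) (nat_lit 3) (.p (nat_lit 172) (nat_lit 1) (.p (nat_lit 173) (nat_lit 2) .z)))))))))))))))))) (.ct dC1a_c291 (nat_lit 1) (nat_lit 5) (.s true (nat_lit 1) (nat_lit 13) (nat_lit 0) (nat_lit 2) (nat_lit 2) true (nat_lit 5) true (nat_lit 7) true (nat_lit 0) true (nat_lit 9) true (nat_lit 7) (.e true (nat_lit 1) (nat_lit 66) (nat_lit 2) (nat_lit 7) (.e false (nat_lit 1) (nat_lit 67) (nat_lit 2) (nat_lit 7) (.e true (nat_lit 1) (nat_lit 69) (nat_lit 2) (nat_lit 7) (.e false (nat_lit 1) (nat_lit 14) (nat_lit 13) (nat_lit 0) (.e false (nat_lit 1) (nat_lit 93) (nat_lit 0) (nat_lit 9) (.e false (nat_lit 1) (nat_lit 94) (nat_lit 0) (nat_lit 9) (.e true (nat_lit 1) (nat_lit 95) (nat_lit 0) (nat_lit 9) (.e false (nat_lit 1) (nat_lit 97) (nat_lit 0) (nat_lit 9) (.e true (nat_lit 1) (nat_lit 73) (nat_lit 2) (nat_lit 7) (.u (nat_lit 2) (.p (nat_lit 1) (nat_lit 1) (.p (nat_lit 4) (nat_lit 1) (.n (nat_lit 8) (nat_lit 1) (.p (nat_lit 9) (nat_lit 1) (.p (nat_lit 12) (nat_lit 1) (.n (nat_lit 13) (nat_lit 1) (.p (nat_lit 15) (nat_lit 1) .z))))))) .nil)))))))))))) .leaf) (nat_lit 37894) (nat_lit 393) (.n (nat_lit 197) (nat_lit 2) (.p (nat_lit 198) (nat_lit 3) (.n (nat_lit 199) (nat_lit 3) (.n (nat_lit 200) (nat_lit 1) (.p (nat_lit 201) (nat_lit 1) .z))))) (.ct dC1a_c36 (nat_lit 1) (nat_lit 2) (.s false (nat_lit 1) (nat_lit 6) (nat_lit 1) (nat_lit 5) (nat_lit 2) true (nat_lit 3) true (nat_lit 4) true (nat_lit 2) true (nat_lit 5) true (nat_lit 3) (.e true (nat_lit 1) (nat_lit 44) (nat_lit 5) (nat_lit 3) (.e false (nat_lit 2) (nat_lit 93) (nat_lit 2) (nat_lit 4) (.e false (nat_lit 2) (nat_lit 94) (nat_lit 2) (nat_lit 4) (.e true (nat_lit 1) (nat_lit 95) (nat_lit 2) (nat_lit 4) (.e true (nat_lit 1) (nat_lit 97) (nat_lit 2) (nat_lit 4) (.e false (nat_lit 1) (nat_lit 105) (nat_lit 1) (nat_lit 5) (.u (nat_lit 2) (.n (nat_lit 2) (nat_lit 1) (.p (nat_lit 3) (nat_lit 1) .z)) .nil))))))))) (.nd (.nd .leaf (nat_lit 37897) (nat_lit 466) (.n (nat_lit 219) (nat_lit 1) (.p (nat_lit 228) (nat_lit 1) (.n (nat_lit 256) (nat_lit 1) .z))) (.ct dC1a_c547 (nat_lit 1) (nat_lit 5) (.s false (nat_lit 1) (nat_lit 37) (nat_lit 2) (nat_lit 0) (nat_lit 0) true (nat_lit 10) true (nat_lit 14) false (nat_lit 5) true (nat_lit 12) true (nat_lit 14) (.e true (nat_lit 1) (nat_lit 73) (nat_lit 4) (nat_lit 10) (.e false (nat_lit 1) (nat_lit 169) (nat_lit 0) (nat_lit 14) (.e true (nat_lit 1) (nat_lit 160) (nat_lit 0) (nat_lit 14) .nil))))) .leaf) (nat_lit 37902) (nat_lit 780) (.p (nat_lit 290) (nat_lit 3) (.n (nat_lit 291) (nat_lit 2) (.p (nat_lit 292) (nat_lit 1) (.p (nat_lit 293) (nat_lit 2) (.p (nat_lit 295) (nat_lit 2) (.p (nat_lit 296) (nat_lit 3) (.n (nat_lit 297) (nat_lit 2) (.p (nat_lit 298) (nat_lit 1) (.p (nat_lit 299) (nat_lit 2) (.p (nat_lit 300) (nat_lit 1) (.p (nat_lit 301) (nat_lit 1) (.n (nat_lit 302) (nat_lit 2) (.n (nat_lit 303) (nat_lit 2) (.n (nat_lit 304) (nat_lit 2) (.p (nat_lit 305) (nat_lit 1) (.p (nat_lit 306) (nat_lit 2) (.p (nat_lit 307) (nat_lit 3) (.p (nat_lit 308) (nat_lit 1) (.n (nat_lit 309) (nat_lit 2) (.p (nat_lit 310) (nat_lit 1) (.p (nat_lit 311) (nat_lit 1) (.p (nat_lit 314) (nat_lit 1) (.n (nat_lit 315) (nat_lit 1) (.n (nat_lit 316) (nat_lit 3) (.p (nat_lit 317) (nat_lit 3) (.p (nat_lit 318) (nat_lit 2) (.n (nat_lit 319) (nat_lit 1) .z))))))))))))))))))))))))))) (.ct dC1a_c292 (nat_lit 1) (nat_lit 2) (.s true (nat_lit 1) (nat_lit 13) (nat_lit 4) (nat_lit 2) (nat_lit 2) true (nat_lit 2) true (nat_lit 10) true (nat_lit 3) true (nat_lit 8) true (nat_lit 10) (.e false (nat_lit 1) (nat_lit 159) (nat_lit 2) (nat_lit 10) (.e true (nat_lit 2) (nat_lit 163) (nat_lit 2) (nat_lit 10) (.e false (nat_lit 1) (nat_lit 40) (nat_lit 13) (nat_lit 3) (.e false (nat_lit 1) (nat_lit 93) (nat_lit 4) (nat_lit 8) (.e false (nat_lit 1) (nat_lit 94) (nat_lit 4) (nat_lit 8) (.e true (nat_lit 1) (nat_lit 95) (nat_lit 4) (nat_lit 8) (.e false (nat_lit 1) (nat_lit 97) (nat_lit 4) (nat_lit 8) (.e true (nat_lit 3) (nat_lit 153) (nat_lit 2) (nat_lit 10) (.e true (nat_lit 3) (nat_lit 154) (nat_lit 2) (nat_lit 10) (.e true (nat_lit 1) (nat_lit 156) (nat_lit 2) (nat_lit 10) (.e true (nat_lit 2) (nat_lit 157) (nat_lit 2) (nat_lit 10) (.e true (nat_lit 3) (nat_lit 160) (nat_lit 2) (nat_lit 10) (.e false (nat_lit 3) (nat_lit 161) (nat_lit 2) (nat_lit 10) (.e true (nat_lit 1) (nat_lit 162) (nat_lit 2) (nat_lit 10) (.e false (nat_lit 3) (nat_lit 164) (nat_lit 2) (nat_lit 10) (.e true (nat_lit 2) (nat_lit 165) (nat_lit 2) (nat_lit 10) (.e false (nat_lit 1) (nat_lit 168) (nat_lit 2) (nat_lit 10) (.e false (nat_lit 1) (nat_lit 169) (nat_lit 2) (nat_lit 10) (.e false (nat_lit 1) (nat_lit 170) (nat_lit 2) (nat_lit 10) (.e true (nat_lit 3) (nat_lit 171) (nat_lit 2) (nat_lit 10) (.e false (nat_lit 1) (nat_lit 172) (nat_lit 2) (nat_lit 10) (.e false (nat_lit 2) (nat_lit 173) (nat_lit 2) (nat_lit 10) (.u (nat_lit 2) (.n (nat_lit 0) (nat_lit 1) (.p (nat_lit 1) (nat_lit 1) (.p (nat_lit 4) (nat_lit 1) (.p (nat_lit 7) (nat_lit 1) (.n (nat_lit 8) (nat_lit 1) (.n (nat_lit 10) (nat_lit 1) (.p (nat_lit 13) (nat_lit 1) (.p (nat_lit 14) (nat_lit 1) (.n (nat_lit 15) (nat_lit 1) (.p (nat_lit 19) (nat_lit 1) (.n (nat_lit 20) (nat_lit 1) (.p (nat_lit 23) (nat_lit 1) (.p (nat_lit 26) (nat_lit 1) (.n (nat_lit 27) (nat_lit 2) .z)))))))))))))) .nil))))))))))))))))))))))))) .leaf))) (nat_lit 37903) (nat_lit 782) (.p (nat_lit 291) (nat_lit 1) (.n (nat_lit 292) (nat_lit 2) (.p (nat_lit 293) (nat_lit 3) (.p (nat_lit 295) (nat_lit 1) (.n (nat_lit 296) (nat_lit 1) (.p (nat_lit 297) (nat_lit 3) (.n (nat_lit 298) (nat_lit 3) (.p (nat_lit 299) (nat_lit 3) (.n (nat_lit 300) (nat_lit 2) (.n (nat_lit 301) (nat_lit 2) (.p (nat_lit 303) (nat_lit 3) (.n (nat_lit 304) (nat_lit 1) (.n (nat_lit 306) (nat_lit 3) (.n (nat_lit 307) (nat_lit 1) (.n (nat_lit 308) (nat_lit 2) (.n (nat_lit 309) (nat_lit 3) (.n (nat_lit 310) (nat_lit 2) (.p (nat_lit 311) (nat_lit 1) (.p (nat_lit 314) (nat_lit 2) (.n (nat_lit 315) (nat_lit 2) (.n (nat_lit 316) (nat_lit 1) (.n (nat_lit 317) (nat_lit 1) (.n (nat_lit 319) (nat_lit 1) .z))))))))))))))))))))))) (.ct dC1a_c292 (nat_lit 1) (nat_lit 2) (.s false (nat_lit 1) (nat_lit 37) (nat_lit 2) (nat_lit 2) (nat_lit 0) true (nat_lit 8) true (nat_lit 12) false (nat_lit 2) true (nat_lit 10) true (nat_lit 10) (.e false (nat_lit 1) (nat_lit 93) (nat_lit 4) (nat_lit 8) (.e false (nat_lit 1) (nat_lit 196) (nat_lit 0) (nat_lit 12) (.e true (nat_lit 3) (nat_lit 153) (nat_lit 2) (nat_lit 10) (.e true (nat_lit 3) (nat_lit 154) (nat_lit 2) (nat_lit 10) (.e true (nat_lit 1) (nat_lit 156) (nat_lit 2) (nat_lit 10) (.e true (nat_lit 2) (nat_lit 157) (nat_lit 2) (nat_lit 10) (.e true (nat_lit 1) (nat_lit 158) (nat_lit 2) (nat_lit 10) (.e false (nat_lit 2) (nat_lit 159) (nat_lit 2) (nat_lit 10) (.e false (nat_lit 3) (nat_lit 160) (nat_lit 2) (nat_lit 10) (.e false (nat_lit 3) (nat_lit 161) (nat_lit 2) (nat_lit 10) (.e true (nat_lit 1) (nat_lit 162) (nat_lit 2) (nat_lit 10) (.e true (nat_lit 3) (nat_lit 163) (nat_lit 2) (nat_lit 10) (.e false (nat_lit 3) (nat_lit 164) (nat_lit 2) (nat_lit 10) (.e true (nat_lit 2) (nat_lit 165) (nat_lit 2) (nat_lit 10) (.e false (nat_lit 1) (nat_lit 168) (nat_lit 2) (nat_lit 10) (.e false (nat_lit 1) (nat_lit 169) (nat_lit 2) (nat_lit 10) (.e false (nat_lit 1) (nat_lit 170) (nat_lit 2) (nat_lit 10) (.e true (nat_lit 3) (nat_lit 171) (nat_lit 2) (nat_lit 10) (.e false (nat_lit 1) (nat_lit 172) (nat_lit 2) (nat_lit 10) (.e false (nat_lit 2) (nat_lit 173) (nat_lit 2) (nat_lit 10) (.u (nat_lit 2) (.n (nat_lit 0) (nat_lit 1) (.n (nat_lit 3) (nat_lit 1) (.p (nat_lit 8) (nat_lit 1) (.n (nat_lit 9) (nat_lit 1) (.n (nat_lit 10) (nat_lit 1) (.p (nat_lit 11) (nat_lit 1) (.n (nat_lit 13) (nat_lit 1) (.p (nat_lit 16) (nat_lit 1) (.n (nat_lit 103) (nat_lit 1) .z))))))))) .nil))))))))))))))))))))))) (.nd (.nd (.nd (.nd .leaf (nat_lit 37906) (nat_lit 895) (.p (nat_lit 348) (nat_lit 2) (.n (nat_lit 349) (nat_lit 3) (.p (nat_lit 350) (nat_lit 3) (.p (nat_lit 351) (nat_lit 1) (.n (nat_lit 352) (nat_lit 1) (.p (nat_lit 353) (nat_lit 1) .z)))))) (.ct dC1a_c37 (nat_lit 1) (nat_lit 0) (.s false (nat_lit 1) (nat_lit 13) (nat_lit 2) (nat_lit 2) (nat_lit 6) true (nat_lit 0) true (nat_lit 3) true (nat_lit 2) true (nat_lit 5) true (nat_lit 5) (.e false (nat_lit 1) (nat_lit 93) (nat_lit 6) (nat_lit 3) (.e false (nat_lit 2) (nat_lit 197) (nat_lit 2) (nat_lit 5) (.e true (nat_lit 3) (nat_lit 198) (nat_lit 2) (nat_lit 5) (.e false (nat_lit 1) (nat_lit 200) (nat_lit 2) (nat_lit 5) (.e true (nat_lit 1) (nat_lit 201) (nat_lit 2) (nat_lit 5) (.e false (nat_lit 3) (nat_lit 199) (nat_lit 2) (nat_lit 5) (.u (nat_lit 2) (.n (nat_lit 28) (nat_lit 1) .z) .nil))))))))) .leaf) (nat_lit 37916) (nat_lit 1094) (.n (nat_lit 355) (nat_lit 1) (.n (nat_lit 356) (nat_lit 2) (.n (nat_lit 357) (nat_lit 2) (.n (nat_lit 358) (nat_lit 2) (.p (nat_lit 360) (nat_lit 3) (.n (nat_lit 361) (nat_lit 2) (.n (nat_lit 362) (nat_lit 2) (.p (nat_lit 363) (nat_lit 1) (.n (nat_lit 364) (nat_lit 2) (.p (nat_lit 366) (nat_lit 1) (.p (nat_lit 367) (nat_lit 1) (.n (nat_lit 368) (nat_lit 3) (.n (nat_lit 369) (nat_lit 2) (.p (nat_lit 370) (nat_lit 1) (.n (nat_lit 371) (nat_lit 2) (.n (nat_lit 374) (nat_lit 1) (.n (nat_lit 375) (nat_lit 2) (.p (nat_lit 378) (nat_lit 2) (.n (nat_lit 379) (nat_lit 1) (.n (nat_lit 380) (nat_lit 1) (.p (nat_lit 381) (nat_lit 3) (.p (nat_lit 382) (nat_lit 3) (.p (nat_lit 383) (nat_lit 3) (.p (nat_lit 384) (nat_lit 1) (.n (nat_lit 385) (nat_lit 3) (.n (nat_lit 386) (nat_lit 2) (.n (nat_lit 387) (nat_lit 3) (.p (nat_lit 389) (nat_lit 3) (.n (nat_lit 391) (nat_lit 2) (.p (nat_lit 392) (nat_lit 2) (.p (nat_lit 393) (nat_lit 1) (.n (nat_lit 394) (nat_lit 3) (.n (nat_lit 395) (nat_lit 1) (.p (nat_lit 396) (nat_lit 3) (.n (nat_lit 404) (nat_lit 1) (.n (nat_lit 405) (nat_lit 3) (.p (nat_lit 406) (nat_lit 3) (.n (nat_lit 407) (nat_lit 2) (.p (nat_lit 408) (nat_lit 2) (.p (nat_lit 409) (nat_lit 1) (.p (nat_lit 410) (nat_lit 1) (.p (nat_lit 412) (nat_lit 2) (.n (nat_lit 413) (nat_lit 2) (.p (nat_lit 414) (nat_lit 1) (.p (nat_lit 416) (nat_lit 2) (.p (nat_lit 418) (nat_lit 2) (.n (nat_lit 423) (nat_lit 1) (.p (nat_lit 424) (nat_lit 3) .z)))))))))))))))))))))))))))))))))))))))))))))))) (.ct dC1a_c548 (nat_lit 1) (nat_lit 1) (.s true (nat_lit 1) (nat_lit 13) (nat_lit 2) (nat_lit 2) (nat_lit 9) true (nat_lit 1) true (nat_lit 10) true (nat_lit 8) true (nat_lit 17) true (nat_lit 17) (.e true (nat_lit 1) (nat_lit 93) (nat_lit 9) (nat_lit 10) (.e true (nat_lit 1) (nat_lit 77) (nat_lit 13) (nat_lit 8) (.e true (nat_lit 1) (nat_lit 78) (nat_lit 13) (nat_lit 8) (.e false (nat_lit 1) (nat_lit 79) (nat_lit 13) (nat_lit 8) (.e true (nat_lit 1) (nat_lit 81) (nat_lit 13) (nat_lit 8) (.e false (nat_lit 2) (nat_lit 243) (nat_lit 2) (nat_lit 17) (.e false (nat_lit 2) (nat_lit 257) (nat_lit 2) (nat_lit 17) (.e false (nat_lit 3) (nat_lit 212) (nat_lit 2) (nat_lit 17) (.e true (nat_lit 3) (nat_lit 213) (nat_lit 2) (nat_lit 17) (.e false (nat_lit 1) (nat_lit 214) (nat_lit 2) (nat_lit 17) (.e true (nat_lit 1) (nat_lit 216) (nat_lit 2) (nat_lit 17) (.e false (nat_lit 1) (nat_lit 219) (nat_lit 2) (nat_lit 17) (.e true (nat_lit 2) (nat_lit 220) (nat_lit 2) (nat_lit 17) (.e true (nat_lit 1) (nat_lit 221) (nat_lit 2) (nat_lit 17) dC1a_i29)))))))))))))))) .leaf) (nat_lit 37918) (nat_lit 1032) (.n (nat_lit 356) (nat_lit 2) (.p (nat_lit 357) (nat_lit 2) (.p (nat_lit 358) (nat_lit 2) (.p (nat_lit 359) (nat_lit 1) (.n (nat_lit 360) (nat_lit 3) (.n (nat_lit 361) (nat_lit 1) (.p (nat_lit 362) (nat_lit 3) (.p (nat_lit 365) (nat_lit 3) (.n (nat_lit 366) (nat_lit 2) (.n (nat_lit 367) (nat_lit 3) (.p (nat_lit 368) (nat_lit 1) (.n (nat_lit 369) (nat_lit 1) (.p (nat_lit 370) (nat_lit 1) (.p (nat_lit 372) (nat_lit 2) (.p (nat_lit 375) (nat_lit 2) (.n (nat_lit 378) (nat_lit 3) (.n (nat_lit 379) (nat_lit 2) (.n (nat_lit 380) (nat_lit 2) (.n (nat_lit 381) (nat_lit 3) (.p (nat_lit 383) (nat_lit 3) (.p (nat_lit 385) (nat_lit 3) (.n (nat_lit 387) (nat_lit 3) (.n (nat_lit 388) (nat_lit 3) (.n (nat_lit 389) (nat_lit 2) (.p (nat_lit 390) (nat_lit 1) (.n (nat_lit 391) (nat_lit 1) (.n (nat_lit 392) (nat_lit 1) (.p (nat_lit 393) (nat_lit 1) (.n (nat_lit 394) (nat_lit 1) (.p (nat_lit 395) (nat_lit 2) (.p (nat_lit 396) (nat_lit 1) (.n (nat_lit 405) (nat_lit 3) (.p (nat_lit 406) (nat_lit 3) (.p (nat_lit 407) (nat_lit 3) (.n (nat_lit 409) (nat_lit 3) (.n (nat_lit 410) (nat_lit 3) (.n (nat_lit 412) (nat_lit 3) (.p (nat_lit 413) (nat_lit 3) (.n (nat_lit 414) (nat_lit 2) (.n (nat_lit 416) (nat_lit 3) (.n (nat_lit 418) (nat_lit 3) (.n (nat_lit 423) (nat_lit 2) (.n (nat_lit 424) (nat_lit 1) .z))))))))))))))))))))))))))))))))))))))))))) (.ct dC1a_c548 (nat_lit 1) (nat_lit 1) (.s false (nat_lit 1) (nat_lit 37) (nat_lit 6) (nat_lit 0) (nat_lit 0) true (nat_lit 7) true (nat_lit 19) false (nat_lit 1) true (nat_lit 13) true (nat_lit 19) (.e true (nat_lit 1) (nat_lit 73) (nat_lit 15) (nat_lit 7) dC1a_i30))) (.nd (.nd .leaf (nat_lit 38912) (nat_lit 108) (.n (nat_lit 67) (nat_lit 2) (.n (nat_lit 68) (nat_lit 1) (.p (nat_lit 69) (nat_lit 1) (.n (nat_lit 70) (nat_lit 1) (.p (nat_lit 72) (nat_lit 2) (.n (nat_lit 73) (nat_lit 1) (.p (nat_lit 74) (nat_lit 1) (.n (nat_lit 75) (nat_lit 1) (.n (nat_lit 76) (nat_lit 2) .z))))))))) (.ct dC1a_c290 (nat_lit 1) (nat_lit 6) (.s true (nat_lit 1) (nat_lit 5) (nat_lit 2) (nat_lit 1) (nat_lit 0) true (nat_lit 2) true (nat_lit 6) true (nat_lit 1) true (nat_lit 4) true (nat_lit 5) (.e false (nat_lit 1) (nat_lit 13) (nat_lit 4) (nat_lit 2) (.e false (nat_lit 1) (nat_lit 12) (nat_lit 5) (nat_lit 1) (.e false (nat_lit 1) (nat_lit 24) (nat_lit 2) (nat_lit 4) (.e true (nat_lit 1) (nat_lit 26) (nat_lit 2) (nat_lit 4) (.e false (nat_lit 1) (nat_lit 27) (nat_lit 2) (nat_lit 4) (.e false (nat_lit 1) (nat_lit 33) (nat_lit 1) (nat_lit 5) .nil)))))))) .leaf) (nat_lit 38914) (nat_lit 140) (.p (nat_lit 94) (nat_lit 1) .z) .df .leaf)) (nat_lit 38916) (nat_lit 322) (.n (nat_lit 153) (nat_lit 1) (.n (nat_lit 154) (nat_lit 1) (.p (nat_lit 155) (nat_lit 2) (.n (nat_lit 156) (nat_lit 1) (.p (nat_lit 158) (nat_lit 3) (.p (nat_lit 159) (nat_lit 3) (.n (nat_lit 160) (nat_lit 2) (.n (nat_lit 161) (nat_lit 3) (.n (nat_lit 162) (nat_lit 1) (.n (nat_lit 164) (nat_lit 3) (.p (nat_lit 165) (nat_lit 2) (.n (nat_lit 166) (nat_lit 2) (.p (nat_lit 167) (nat_lit 2) (.p (nat_lit 169) (nat_lit 1) (.p (nat_lit 170) (nat_lit 1) (.n (nat_lit 171) (nat_lit 2) (.n (nat_lit 172) (nat_lit 3) (.p (nat_lit 173) (nat_lit 3) .z)))))))))))))))))) (.ct dC1a_c291 (nat_lit 1) (nat_lit 5) (.s false (nat_lit 1) (nat_lit 16) (nat_lit 2) (nat_lit 1) (nat_lit 0) true (nat_lit 5) true (nat_lit 9) false (nat_lit 1) true (nat_lit 7) true (nat_lit 8) (.e false (nat_lit 1) (nat_lit 96) (nat_lit 0) (nat_lit 9) (.e true (nat_lit 1) (nat_lit 16) (nat_lit 12) (nat_lit 1) (.e false (nat_lit 1) (nat_lit 66) (nat_lit 2) (nat_lit 7) (.e false (nat_lit 1) (nat_lit 67) (nat_lit 2) (nat_lit 7) (.e true (nat_lit 1) (nat_lit 68) (nat_lit 2) (nat_lit 7) (.e false (nat_lit 1) (nat_lit 69) (nat_lit 2) (nat_lit 7) (.e false (nat_lit 1) (nat_lit 70) (nat_lit 2) (nat_lit 7) (.e true (nat_lit 1) (nat_lit 74) (nat_lit 2) (nat_lit 7) (.e true (nat_lit 1) (nat_lit 87) (nat_lit 1) (nat_lit 8) (.u (nat_lit 2) (.n (nat_lit 2) (nat_lit 1) (.p (nat_lit 3) (nat_lit 1) (.n (nat_lit 4) (nat_lit 1) (.p (nat_lit 8) (nat_lit 1) (.p (nat_lit 11) (nat_lit 1) (.n (nat_lit 14) (nat_lit 1) (.p (nat_lit 17) (nat_lit 1) .z))))))) .nil)))))))))))) (.nd (.nd (.nd .leaf (nat_lit 38918) (nat_lit 388) (.p (nat_lit 196) (nat_lit 1) (.n (nat_lit 197) (nat_lit 2) (.n (nat_lit 198) (nat_lit 3) (.n (nat_lit 199) (nat_lit 2) (.p (nat_lit 200) (nat_lit 1) (.n (nat_lit 201) (nat_lit 2) .z)))))) (.ct dC1a_c36 (nat_lit 1) (nat_lit 2) (.s false (nat_lit 1) (nat_lit 16) (nat_lit 2) (nat_lit 1) (nat_lit 2) true (nat_lit 2) true (nat_lit 4) true (nat_lit 0) true (nat_lit 4) true (nat_lit 5) (.a true (nat_lit 3) (nat_lit 16) (nat_lit 16) (nat_lit 0) (nat_lit 0) (.e false (nat_lit 2) (nat_lit 96) (nat_lit 2) (nat_lit 4) (.e false (nat_lit 1) (nat_lit 94) (nat_lit 2) (nat_lit 4) (.e true (nat_lit 1) (nat_lit 97) (nat_lit 2) (nat_lit 4) (.e false (nat_lit 1) (nat_lit 102) (nat_lit 1) (nat_lit 5) (.u (nat_lit 2) (.p (nat_lit 3) (nat_lit 1) (.p (nat_lit 6) (nat_lit 1) .z)) .nil)))))))) .leaf) (nat_lit 38921) (nat_lit 486) (.n (nat_lit 213) (nat_lit 1) (.p (nat_lit 214) (nat_lit 1) (.n (nat_lit 215) (nat_lit 3) (.p (nat_lit 217) (nat_lit 2) (.p (nat_lit 218) (nat_lit 2) (.n (nat_lit 219) (nat_lit 2) (.p (nat_lit 220) (nat_lit 2) (.p (nat_lit 221) (nat_lit 3) (.p (nat_lit 222) (nat_lit 1) (.n (nat_lit 223) (nat_lit 1) (.n (nat_lit 224) (nat_lit 2) (.n (nat_lit 226) (nat_lit 1) (.p (nat_lit 227) (nat_lit 1) (.p (nat_lit 229) (nat_lit 1) (.n (nat_lit 231) (nat_lit 2) (.p (nat_lit 232) (nat_lit 3) (.p (nat_lit 233) (nat_lit 2) (.p (nat_lit 234) (nat_lit 1) (.p (nat_lit 235) (nat_lit 1) (.p (nat_lit 236) (nat_lit 2) (.n (nat_lit 237) (nat_lit 1) (.n (nat_lit 239) (nat_lit 2) (.n (nat_lit 240) (nat_lit 1) (.n (nat_lit 241) (nat_lit 1) (.p (nat_lit 242) (nat_lit 3) (.n (nat_lit 244) (nat_lit 1) (.n (nat_lit 245) (nat_lit 3) (.n (nat_lit 248) (nat_lit 1) (.n (nat_lit 251) (nat_lit 1) .z))))))))))))))))))))))))))))) (.ct dC1a_c547 (nat_lit 1) (nat_lit 5) (.s false (nat_lit 1) (nat_lit 9) (nat_lit 2) (nat_lit 1) (nat_lit 5) true (nat_lit 1) true (nat_lit 9) true (nat_lit 5) true (nat_lit 12) true (nat_lit 13) (.e true (nat_lit 1) (nat_lit 21) (nat_lit 16) (nat_lit 1) (.e false (nat_lit 1) (nat_lit 59) (nat_lit 5) (nat_lit 9) (.e true (nat_lit 1) (nat_lit 37) (nat_lit 9) (nat_lit 5) (.e false (nat_lit 1) (nat_lit 39) (nat_lit 9) (nat_lit 5) (.e false (nat_lit 1) (nat_lit 116) (nat_lit 2) (nat_lit 12) (.e true (nat_lit 1) (nat_lit 119) (nat_lit 2) (nat_lit 12) (.e false (nat_lit 1) (nat_lit 130) (nat_lit 2) (nat_lit 12) (.e true (nat_lit 1) (nat_lit 132) (nat_lit 1) (nat_lit 13) (.e true (nat_lit 1) (nat_lit 134) (nat_lit 1) (nat_lit 13) (.e true (nat_lit 3) (nat_lit 136) (nat_lit 1) (nat_lit 13) (.e true (nat_lit 3) (nat_lit 137) (nat_lit 1) (nat_lit 13) (.e true (nat_lit 3) (nat_lit 138) (nat_lit 1) (nat_lit 13) (.e true (nat_lit 1) (nat_lit 139) (nat_lit 1) (nat_lit 13) (.e true (nat_lit 1) (nat_lit 140) (nat_lit 1) (nat_lit 13) (.e false (nat_lit 3) (nat_lit 141) (nat_lit 1) (nat_lit 13) (.e true (nat_lit 2) (nat_lit 142) (nat_lit 1) (nat_lit 13) (.u (nat_lit 2) (.n (nat_lit 0) (nat_lit 1) (.p (nat_lit 1) (nat_lit 1) (.n (nat_lit 8) (nat_lit 1) (.n (nat_lit 10) (nat_lit 1) (.n (nat_lit 16) (nat_lit 1) (.n (nat_lit 20) (nat_lit 1) (.p (nat_lit 22) (nat_lit 1) (.n (nat_lit 23) (nat_lit 1) (.p (nat_lit 28) (nat_lit 1) (.n (nat_lit 30) (nat_lit 1) (.p (nat_lit 31) (nat_lit 1) (.p (nat_lit 44) (nat_lit 1) .z)))))))))))) .nil))))))))))))))))))) .leaf) (nat_lit 38926) (nat_lit 783) (.p (nat_lit 290) (nat_lit 3) (.n (nat_lit 291) (nat_lit 1) (.p (nat_lit 292) (nat_lit 3) (.n (nat_lit 293) (nat_lit 3) (.p (nat_lit 294) (nat_lit 1) (.n (nat_lit 295) (nat_lit 1) (.n (nat_lit 296) (nat_lit 1) (.p (nat_lit 299) (nat_lit 3) (.p (nat_lit 300) (nat_lit 1) (.n (nat_lit 301) (nat_lit 1) (.n (nat_lit 302) (nat_lit 3) (.p (nat_lit 304) (nat_lit 3) (.n (nat_lit 305) (nat_lit 2) (.n (nat_lit 308) (nat_lit 3) (.p (nat_lit 310) (nat_lit 2) (.n (nat_lit 311) (nat_lit 2) (.p (nat_lit 313) (nat_lit 2) (.n (nat_lit 314) (nat_lit 1) (.n (nat_lit 315) (nat_lit 1) (.p (nat_lit 317) (nat_lit 2) (.n (nat_lit 318) (nat_lit 3) (.p (nat_lit 319) (nat_lit 2) .z)))))))))))))))))))))) (.ct dC1a_c292 (nat_lit 1) (nat_lit 2) (.s false (nat_lit 1) (nat_lit 16) (nat_lit 2) (nat_lit 1) (nat_lit 4) true (nat_lit 2) true (nat_lit 8) true (nat_lit 1) true (nat_lit 10) true (nat_lit 11) (.e false (nat_lit 1) (nat_lit 96) (nat_lit 4) (nat_lit 8) (.e true (nat_lit 1) (nat_lit 31) (nat_lit 16) (nat_lit 1) (.e true (nat_lit 1) (nat_lit 32) (nat_lit 16) (nat_lit 1) (.e false (nat_lit 1) (nat_lit 35) (nat_lit 16) (nat_lit 1) (.e true (nat_lit 1) (nat_lit 36) (nat_lit 16) (nat_lit 1) (.e false (nat_lit 1) (nat_lit 158) (nat_lit 2) (nat_lit 10) (.e true (nat_lit 1) (nat_lit 163) (nat_lit 2) (nat_lit 10) (.e false (nat_lit 1) (nat_lit 165) (nat_lit 2) (nat_lit 10) (.e true (nat_lit 1) (nat_lit 172) (nat_lit 2) (nat_lit 10) (.e true (nat_lit 1) (nat_lit 180) (nat_lit 1) (nat_lit 11) (.e true (nat_lit 1) (nat_lit 181) (nat_lit 1) (nat_lit 11) (.e true (nat_lit 1) (nat_lit 183) (nat_lit 1) (nat_lit 11) (.e false (nat_lit 1) (nat_lit 184) (nat_lit 1) (nat_lit 11) (.e true (nat_lit 1) (nat_lit 185) (nat_lit 1) (nat_lit 11) (.e true (nat_lit 1) (nat_lit 186) (nat_lit 1) (nat_lit 11) (.e false (nat_lit 1) (nat_lit 189) (nat_lit 1) (nat_lit 11) (.u (nat_lit 2) (.p (nat_lit 1) (nat_lit 1) (.n (nat_lit 2) (nat_lit 1) (.n (nat_lit 6) (nat_lit 1) (.p (nat_lit 7) (nat_lit 1) (.p (nat_lit 8) (nat_lit 1) (.n (nat_lit 11) (nat_lit 1) (.n (nat_lit 15) (nat_lit 1) (.n (nat_lit 17) (nat_lit 1) (.n (nat_lit 20) (nat_lit 1) (.p (nat_lit 28) (nat_lit 1) .z)))))))))) .nil))))))))))))))))))) (.nd (.nd .leaf (nat_lit 38927) (nat_lit 787) (.n (nat_lit 290) (nat_lit 3) (.p (nat_lit 291) (nat_lit 3) (.n (nat_lit 292) (nat_lit 3) (.n (nat_lit 294) (nat_lit 2) (.n (nat_lit 295) (nat_lit 3) (.p (nat_lit 296) (nat_lit 2) (.p (nat_lit 297) (nat_lit 3) (.n (nat_lit 298) (nat_lit 1) (.n (nat_lit 299) (nat_lit 3) (.p (nat_lit 300) (nat_lit 2) (.n (nat_lit 302) (nat_lit 1) (.n (nat_lit 304) (nat_lit 3) (.n (nat_lit 305) (nat_lit 3) (.n (nat_lit 307) (nat_lit 1) (.n (nat_lit 308) (nat_lit 2) (.p (nat_lit 310) (nat_lit 1) (.n (nat_lit 311) (nat_lit 3) (.n (nat_lit 313) (nat_lit 3) (.n (nat_lit 314) (nat_lit 2) (.n (nat_lit 315) (nat_lit 2) (.p (nat_lit 316) (nat_lit 1) (.p (nat_lit 317) (nat_lit 3) (.p (nat_lit 318) (nat_lit 3) (.p (nat_lit 319) (nat_lit 3) .z)))))))))))))))))))))))) (.ct dC1a_c292 (nat_lit 1) (nat_lit 2) (.s false (nat_lit 1) (nat_lit 38) (nat_lit 2) (nat_lit 2) (nat_lit 0) true (nat_lit 8) true (nat_lit 12) false (nat_lit 2) true (nat_lit 10) true (nat_lit 10) (.e false (nat_lit 1) (nat_lit 94) (nat_lit 4) (nat_lit 8) (.e false (nat_lit 1) (nat_lit 197) (nat_lit 0) (nat_lit 12) (.e true (nat_lit 1) (nat_lit 153) (nat_lit 2) (nat_lit 10) (.e false (nat_lit 1) (nat_lit 154) (nat_lit 2) (nat_lit 10) (.e false (nat_lit 3) (nat_lit 155) (nat_lit 2) (nat_lit 10) (.e true (nat_lit 2) (nat_lit 156) (nat_lit 2) (nat_lit 10) (.e false (nat_lit 3) (nat_lit 158) (nat_lit 2) (nat_lit 10) (.e false (nat_lit 1) (nat_lit 159) (nat_lit 2) (nat_lit 10) (.e true (nat_lit 1) (nat_lit 160) (nat_lit 2) (nat_lit 10) (.e false (nat_lit 3) (nat_lit 161) (nat_lit 2) (nat_lit 10) (.e true (nat_lit 3) (nat_lit 164) (nat_lit 2) (nat_lit 10) (.e false (nat_lit 2) (nat_lit 165) (nat_lit 2) (nat_lit 10) (.e true (nat_lit 2) (nat_lit 166) (nat_lit 2) (nat_lit 10) (.e false (nat_lit 2) (nat_lit 167) (nat_lit 2) (nat_lit 10) (.e false (nat_lit 1) (nat_lit 169) (nat_lit 2) (nat_lit 10) (.e false (nat_lit 1) (nat_lit 170) (nat_lit 2) (nat_lit 10) (.e true (nat_lit 2) (nat_lit 171) (nat_lit 2) (nat_lit 10) (.e true (nat_lit 3) (nat_lit 172) (nat_lit 2) (nat_lit 10) (.e false (nat_lit 3) (nat_lit 173) (nat_lit 2) (nat_lit 10) (.e false (nat_lit 1) (nat_lit 157) (nat_lit 2) (nat_lit 10) (.e false (nat_lit 2) (nat_lit 163) (nat_lit 2) (nat_lit 10) (.u (nat_lit 2) (.p (nat_lit 0) (nat_lit 1) (.p (nat_lit 2) (nat_lit 1) (.p (nat_lit 5) (nat_lit 1) (.n (nat_lit 11) (nat_lit 1) (.p (nat_lit 12) (nat_lit 1) (.p (nat_lit 14) (nat_lit 1) (.p (nat_lit 15) (nat_lit 1) (.p (nat_lit 23) (nat_lit 1) (.n (nat_lit 27) (nat_lit 1) (.n (nat_lit 28) (nat_lit 1) (.n (nat_lit 104) (nat_lit 1) .z))))))))))) .nil)))))))))))))))))))))))) .leaf) (nat_lit 38930) (nat_lit 903) (.n (nat_lit 347) (nat_lit 3) (.p (nat_lit 348) (nat_lit 2) (.p (nat_lit 349) (nat_lit 3) (.p (nat_lit 350) (nat_lit 3) (.n (nat_lit 351) (nat_lit 2) (.n (nat_lit 352) (nat_lit 2) (.n (nat_lit 353) (nat_lit 1) .z))))))) (.ct dC1a_c37 (nat_lit 1) (nat_lit 0) (.s false (nat_lit 1) (nat_lit 38) (nat_lit 2) (nat_lit 2) (nat_lit 2) true (nat_lit 3) true (nat_lit 5) false (nat_lit 0) true (nat_lit 5) true (nat_lit 5) (.e false (nat_lit 1) (nat_lit 94) (nat_lit 6) (nat_lit 3) (.e false (nat_lit 2) (nat_lit 197) (nat_lit 2) (nat_lit 5) (.e true (nat_lit 1) (nat_lit 196) (nat_lit 2) (nat_lit 5) (.e false (nat_lit 3) (nat_lit 198) (nat_lit 2) (nat_lit 5) (.e false (nat_lit 2) (nat_lit 199) (nat_lit 2) (nat_lit 5) (.e true (nat_lit 1) (nat_lit 200) (nat_lit 2) (nat_lit 5) (.e false (nat_lit 2) (nat_lit 201) (nat_lit 2) (nat_lit 5) (.u (nat_lit 2) (.p (nat_lit 5) (nat_lit 1) .z) .nil)))))))))) .leaf))))) (nat_lit 38940) (nat_lit 1096) (.n (nat_lit 355) (nat_lit 2) (.n (nat_lit 356) (nat_lit 1) (.n (nat_lit 357) (nat_lit 2) (.n (nat_lit 358) (nat_lit 1) (.n (nat_lit 359) (nat_lit 1) (.p (nat_lit 360) (nat_lit 3) (.p (nat_lit 361) (nat_lit 3) (.n (nat_lit 363) (nat_lit 3) (.p (nat_lit 364) (nat_lit 1) (.n (nat_lit 365) (nat_lit 3) (.p (nat_lit 366) (nat_lit 2) (.n (nat_lit 368) (nat_lit 3) (.n (nat_lit 370) (nat_lit 2) (.n (nat_lit 371) (nat_lit 2) (.p (nat_lit 372) (nat_lit 2) (.p (nat_lit 373) (nat_lit 1) (.p (nat_lit 374) (nat_lit 2) (.n (nat_lit 375) (nat_lit 1) (.p (nat_lit 378) (nat_lit 2) (.n (nat_lit 379) (nat_lit 1) (.n (nat_lit 380) (nat_lit 1) (.p (nat_lit 382) (nat_lit 2) (.p (nat_lit 384) (nat_lit 1) (.p (nat_lit 385) (nat_lit 1) (.p (nat_lit 386) (nat_lit 3) (.p (nat_lit 387) (nat_lit 1) (.n (nat_lit 388) (nat_lit 3) (.p (nat_lit 389) (nat_lit 2) (.n (nat_lit 390) (nat_lit 1) (.p (nat_lit 391) (nat_lit 1) (.n (nat_lit 392) (nat_lit 2) (.n (nat_lit 393) (nat_lit 1) (.p (nat_lit 394) (nat_lit 3) (.p (nat_lit 395) (nat_lit 2) (.p (nat_lit 405) (nat_lit 2) (.n (nat_lit 406) (nat_lit 2) (.n (nat_lit 407) (nat_lit 2) (.p (nat_lit 409) (nat_lit 2) (.p (nat_lit 412) (nat_lit 2) (.n (nat_lit 413) (nat_lit 2) (.p (nat_lit 414) (nat_lit 1) (.p (nat_lit 416) (nat_lit 2) (.n (nat_lit 423) (nat_lit 1) (.p (nat_lit 424) (nat_lit 1) .z)))))))))))))))))))))))))))))))))))))))))))) (.ct dC1a_c548 (nat_lit 1) (nat_lit 1) (.s true (nat_lit 1) (nat_lit 28) (nat_lit 5) (nat_lit 2) (nat_lit 1) true (nat_lit 8) true (nat_lit 18) true (nat_lit 1) true (nat_lit 14) true (nat_lit 17) (.e true (nat_lit 1) (nat_lit 77) (nat_lit 13) (nat_lit 8) (.e true (nat_lit 1) (nat_lit 280) (nat_lit 1) (nat_lit 18) (.e true (nat_lit 1) (nat_lit 152) (nat_lit 5) (nat_lit 14) (.e false (nat_lit 1) (nat_lit 257) (nat_lit 2) (nat_lit 17) (.u (nat_lit 2) (.p (nat_lit 0) (nat_lit 1) (.p (nat_lit 2) (nat_lit 1) (.p (nat_lit 3) (nat_lit 1) (.n (nat_lit 9) (nat_lit 1) (.p (nat_lit 10) (nat_lit 1) (.p (nat_lit 14) (nat_lit 1) (.p (nat_lit 15) (nat_lit 1) (.n (nat_lit 31) (nat_lit 1) (.n (nat_lit 34) (nat_lit 1) (.p (nat_lit 35) (nat_lit 1) (.p (nat_lit 36) (nat_lit 1) (.p (nat_lit 38) (nat_lit 1) (.n (nat_lit 39) (nat_lit 1) (.n (nat_lit 54) (nat_lit 1) .z)))))))))))))) .nil))))))) (.nd (.nd (.nd (.nd (.nd (.nd .leaf (nat_lit 38942) (nat_lit 1113) (.n (nat_lit 355) (nat_lit 2) (.p (nat_lit 356) (nat_lit 1) (.n (nat_lit 357) (nat_lit 1) (.p (nat_lit 358) (nat_lit 3) (.n (nat_lit 359) (nat_lit 1) (.n (nat_lit 360) (nat_lit 2) (.p (nat_lit 362) (nat_lit 3) (.p (nat_lit 364) (nat_lit 3) (.p (nat_lit 365) (nat_lit 1) (.p (nat_lit 366) (nat_lit 1) (.n (nat_lit 367) (nat_lit 2) (.n (nat_lit 369) (nat_lit 3) (.p (nat_lit 370) (nat_lit 1) (.p (nat_lit 372) (nat_lit 1) (.p (nat_lit 373) (nat_lit 1) (.n (nat_lit 375) (nat_lit 1) (.n (nat_lit 378) (nat_lit 3) (.n (nat_lit 379) (nat_lit 2) (.n (nat_lit 380) (nat_lit 2) (.p (nat_lit 381) (nat_lit 2) (.n (nat_lit 382) (nat_lit 1) (.n (nat_lit 383) (nat_lit 3) (.n (nat_lit 385) (nat_lit 3) (.p (nat_lit 386) (nat_lit 3) (.n (nat_lit 387) (nat_lit 2) (.n (nat_lit 388) (nat_lit 3) (.n (nat_lit 389) (nat_lit 2) (.n (nat_lit 390) (nat_lit 1) (.n (nat_lit 391) (nat_lit 1) (.n (nat_lit 393) (nat_lit 3) (.p (nat_lit 394) (nat_lit 2) (.p (nat_lit 395) (nat_lit 2) (.p (nat_lit 396) (nat_lit 2) (.p (nat_lit 404) (nat_lit 2) (.p (nat_lit 407) (nat_lit 3) (.n (nat_lit 408) (nat_lit 3) (.n (nat_lit 409) (nat_lit 2) (.p (nat_lit 410) (nat_lit 2) (.p (nat_lit 412) (nat_lit 3) (.n (nat_lit 413) (nat_lit 3) (.n (nat_lit 414) (nat_lit 2) (.n (nat_lit 416) (nat_lit 3) (.n (nat_lit 423) (nat_lit 2) (.p (nat_lit 424) (nat_lit 2) .z)))))))))))))))))))))))))))))))))))))))))))) (.ct dC1a_c548 (nat_lit 1) (nat_lit 1) dC1a_i31) .leaf) (nat_lit 39936) (nat_lit 109) (.n (nat_lit 66) (nat_lit 2) (.n (nat_lit 67) (nat_lit 3) (.n (nat_lit 69) (nat_lit 1) (.n (nat_lit 70) (nat_lit 2) (.p (nat_lit 71) (nat_lit 1) (.p (nat_lit 72) (nat_lit 2) (.p (nat_lit 74) (nat_lit 2) (.n (nat_lit 75) (nat_lit 2) (.n (nat_lit 76) (nat_lit 1) .z))))))))) (.ct dC1a_c290 (nat_lit 1) (nat_lit 6) (.s false (nat_lit 1) (nat_lit 6) (nat_lit 1) (nat_lit 0) (nat_lit 1) false (nat_lit 7) true (nat_lit 5) true (nat_lit 0) true (nat_lit 5) true (nat_lit 6) (.e true (nat_lit 2) (nat_lit 31) (nat_lit 1) (nat_lit 5) (.e true (nat_lit 2) (nat_lit 32) (nat_lit 1) (nat_lit 5) (.e false (nat_lit 2) (nat_lit 33) (nat_lit 1) (nat_lit 5) (.e false (nat_lit 1) (nat_lit 35) (nat_lit 1) (nat_lit 5) (.e false (nat_lit 1) (nat_lit 8) (nat_lit 6) (nat_lit 0) .nil))))))) .leaf) (nat_lit 39938) (nat_lit 141) (.p (nat_lit 95) (nat_lit 1) .z) .df (.nd (.nd .leaf (nat_lit 39940) (nat_lit 316) (.n (nat_lit 153) (nat_lit 2) (.n (nat_lit 154) (nat_lit 1) (.n (nat_lit 155) (nat_lit 2) (.p (nat_lit 156) (nat_lit 1) (.n (nat_lit 157) (nat_lit 3) (.p (nat_lit 158) (nat_lit 1) (.p (nat_lit 159) (nat_lit 1) (.p (nat_lit 160) (nat_lit 1) (.p (nat_lit 161) (nat_lit 3) (.p (nat_lit 162) (nat_lit 3) (.p (nat_lit 163) (nat_lit 1) (.p (nat_lit 164) (nat_lit 3) (.p (nat_lit 165) (nat_lit 1) (.p (nat_lit 166) (nat_lit 3) (.p (nat_lit 167) (nat_lit 2) (.n (nat_lit 168) (nat_lit 2) (.p (nat_lit 169) (nat_lit 2) (.p (nat_lit 171) (nat_lit 2) (.n (nat_lit 172) (nat_lit 2) .z))))))))))))))))))) (.ct dC1a_c291 (nat_lit 1) (nat_lit 5) (.s true (nat_lit 1) (nat_lit 6) (nat_lit 1) (nat_lit 1) (nat_lit 4) true (nat_lit 1) true (nat_lit 5) true (nat_lit 3) true (nat_lit 8) true (nat_lit 8) (.e true (nat_lit 1) (nat_lit 17) (nat_lit 11) (nat_lit 1) (.e false (nat_lit 2) (nat_lit 91) (nat_lit 1) (nat_lit 8) (.e true (nat_lit 1) (nat_lit 83) (nat_lit 1) (nat_lit 8) (.e true (nat_lit 2) (nat_lit 85) (nat_lit 1) (nat_lit 8) (.e false (nat_lit 1) (nat_lit 87) (nat_lit 1) (nat_lit 8) (.e true (nat_lit 1) (nat_lit 88) (nat_lit 1) (nat_lit 8) (.e false (nat_lit 1) (nat_lit 89) (nat_lit 1) (nat_lit 8) (.e true (nat_lit 1) (nat_lit 92) (nat_lit 1) (nat_lit 8) (.u (nat_lit 2) (.p (nat_lit 0) (nat_lit 1) (.p (nat_lit 1) (nat_lit 1) (.p (nat_lit 4) (nat_lit 1) (.n (nat_lit 9) (nat_lit 1) (.n (nat_lit 13) (nat_lit 1) (.p (nat_lit 15) (nat_lit 1) (.n (nat_lit 17) (nat_lit 1) (.p (nat_lit 18) (nat_lit 1) .z)))))))) .nil))))))))))) .leaf) (nat_lit 39942) (nat_lit 391) (.p (nat_lit 196) (nat_lit 3) (.n (nat_lit 197) (nat_lit 3) (.p (nat_lit 198) (nat_lit 1) (.p (nat_lit 199) (nat_lit 1) (.n (nat_lit 201) (nat_lit 3) .z))))) (.ct dC1a_c36 (nat_lit 1) (nat_lit 2) (.s true (nat_lit 1) (nat_lit 6) (nat_lit 1) (nat_lit 1) (nat_lit 6) true (nat_lit 0) true (nat_lit 2) true (nat_lit 2) true (nat_lit 5) true (nat_lit 5) (.a false (nat_lit 3) (nat_lit 17) (nat_lit 17) (nat_lit 0) (nat_lit 0) (.e false (nat_lit 2) (nat_lit 103) (nat_lit 1) (nat_lit 5) (.e false (nat_lit 2) (nat_lit 104) (nat_lit 1) (nat_lit 5) (.u (nat_lit 2) (.n (nat_lit 0) (nat_lit 1) (.p (nat_lit 1) (nat_lit 1) (.n (nat_lit 2) (nat_lit 1) (.n (nat_lit 3) (nat_lit 1) (.n (nat_lit 5) (nat_lit 1) (.n (nat_lit 9) (nat_lit 1) .z)))))) .nil)))))) .leaf)) (nat_lit 39945) (nat_lit 485) (.n (nat_lit 212) (nat_lit 2) (.p (nat_lit 214) (nat_lit 3) (.p (nat_lit 217) (nat_lit 2) (.p (nat_lit 220) (nat_lit 1) (.n (nat_lit 222) (nat_lit 2) (.n (nat_lit 223) (nat_lit 1) (.n (nat_lit 224) (nat_lit 3) (.n (nat_lit 226) (nat_lit 3) (.n (nat_lit 227) (nat_lit 2) (.p (nat_lit 230) (nat_lit 1) (.n (nat_lit 232) (nat_lit 3) (.p (nat_lit 233) (nat_lit 1) (.p (nat_lit 234) (nat_lit 3) (.p (nat_lit 236) (nat_lit 2) (.p (nat_lit 237) (nat_lit 1) (.p (nat_lit 238) (nat_lit 2) (.n (nat_lit 239) (nat_lit 3) (.p (nat_lit 240) (nat_lit 3) (.p (nat_lit 241) (nat_lit 2) (.n (nat_lit 242) (nat_lit 2) (.p (nat_lit 243) (nat_lit 1) (.p (nat_lit 244) (nat_lit 3) (.p (nat_lit 245) (nat_lit 2) (.n (nat_lit 248) (nat_lit 3) (.n (nat_lit 251) (nat_lit 2) (.p (nat_lit 258) (nat_lit 2) (.n (nat_lit 259) (nat_lit 1) .z))))))))))))))))))))))))))) (.ct dC1a_c547 (nat_lit 1) (nat_lit 5) (.s false (nat_lit 1) (nat_lit 9) (nat_lit 1) (nat_lit 6) (nat_lit 1) false (nat_lit 16) true (nat_lit 13) true (nat_lit 5) true (nat_lit 13) true (nat_lit 8) (.e false (nat_lit 1) (nat_lit 150) (nat_lit 1) (nat_lit 13) (.e false (nat_lit 1) (nat_lit 132) (nat_lit 1) (nat_lit 13) (.e false (nat_lit 1) (nat_lit 133) (nat_lit 1) (nat_lit 13) (.e false (nat_lit 1) (nat_lit 134) (nat_lit 1) (nat_lit 13) (.e false (nat_lit 3) (nat_lit 136) (nat_lit 1) (nat_lit 13) (.e false (nat_lit 3) (nat_lit 137) (nat_lit 1) (nat_lit 13) (.e false (nat_lit 3) (nat_lit 138) (nat_lit 1) (nat_lit 13) (.e false (nat_lit 1) (nat_lit 139) (nat_lit 1) (nat_lit 13) (.e false (nat_lit 1) (nat_lit 140) (nat_lit 1) (nat_lit 13) (.e true (nat_lit 3) (nat_lit 141) (nat_lit 1) (nat_lit 13) (.e false (nat_lit 2) (nat_lit 142) (nat_lit 1) (nat_lit 13) (.e true (nat_lit 1) (nat_lit 143) (nat_lit 1) (nat_lit 13) (.e true (nat_lit 1) (nat_lit 152) (nat_lit 1) (nat_lit 13) (.e true (nat_lit 1) (nat_lit 49) (nat_lit 6) (nat_lit 8) (.u (nat_lit 2) (.p (nat_lit 0) (nat_lit 1) (.p (nat_lit 20) (nat_lit 1) (.p (nat_lit 27) (nat_lit 1) (.n (nat_lit 29) (nat_lit 1) (.p (nat_lit 30) (nat_lit 1) (.n (nat_lit 31) (nat_lit 1) (.n (nat_lit 32) (nat_lit 1) (.p (nat_lit 36) (nat_lit 1) .z)))))))) .nil))))))))))))))))) (.nd (.nd (.nd .leaf (nat_lit 39950) (nat_lit 779) (.p (nat_lit 290) (nat_lit 3) (.n (nat_lit 291) (nat_lit 1) (.n (nat_lit 292) (nat_lit 1) (.p (nat_lit 293) (nat_lit 3) (.p (nat_lit 294) (nat_lit 2) (.n (nat_lit 295) (nat_lit 3) (.n (nat_lit 297) (nat_lit 2) (.p (nat_lit 298) (nat_lit 3) (.n (nat_lit 299) (nat_lit 3) (.n (nat_lit 300) (nat_lit 1) (.p (nat_lit 301) (nat_lit 2) (.n (nat_lit 302) (nat_lit 2) (.p (nat_lit 304) (nat_lit 1) (.p (nat_lit 305) (nat_lit 1) (.p (nat_lit 307) (nat_lit 2) (.p (nat_lit 310) (nat_lit 3) (.n (nat_lit 311) (nat_lit 3) (.n (nat_lit 313) (nat_lit 3) (.n (nat_lit 314) (nat_lit 2) (.n (nat_lit 315) (nat_lit 2) (.p (nat_lit 316) (nat_lit 2) (.n (nat_lit 317) (nat_lit 2) (.n (nat_lit 318) (nat_lit 3) (.p (nat_lit 319) (nat_lit 3) .z)))))))))))))))))))))))) (.ct dC1a_c292 (nat_lit 1) (nat_lit 2) (.s false (nat_lit 1) (nat_lit 14) (nat_lit 1) (nat_lit 6) (nat_lit 1) false (nat_lit 13) true (nat_lit 11) true (nat_lit 2) true (nat_lit 11) true (nat_lit 6) (.e false (nat_lit 1) (nat_lit 182) (nat_lit 1) (nat_lit 11) (.e true (nat_lit 3) (nat_lit 183) (nat_lit 1) (nat_lit 11) (.e true (nat_lit 3) (nat_lit 185) (nat_lit 1) (nat_lit 11) (.e false (nat_lit 2) (nat_lit 186) (nat_lit 1) (nat_lit 11) (.e false (nat_lit 3) (nat_lit 187) (nat_lit 1) (nat_lit 11) (.e false (nat_lit 1) (nat_lit 188) (nat_lit 1) (nat_lit 11) (.e true (nat_lit 2) (nat_lit 189) (nat_lit 1) (nat_lit 11) (.e true (nat_lit 3) (nat_lit 190) (nat_lit 1) (nat_lit 11) (.e true (nat_lit 1) (nat_lit 193) (nat_lit 1) (nat_lit 11) (.e false (nat_lit 1) (nat_lit 181) (nat_lit 1) (nat_lit 11) (.e true (nat_lit 1) (nat_lit 191) (nat_lit 1) (nat_lit 11) (.e true (nat_lit 1) (nat_lit 195) (nat_lit 1) (nat_lit 11) (.e true (nat_lit 1) (nat_lit 72) (nat_lit 6) (nat_lit 6) (.u (nat_lit 2) (.n (nat_lit 0) (nat_lit 1) (.n (nat_lit 1) (nat_lit 2) (.p (nat_lit 2) (nat_lit 1) (.p (nat_lit 3) (nat_lit 2) (.n (nat_lit 4) (nat_lit 1) (.p (nat_lit 5) (nat_lit 4) (.n (nat_lit 8) (nat_lit 1) (.p (nat_lit 9) (nat_lit 2) (.n (nat_lit 10) (nat_lit 1) (.p (nat_lit 11) (nat_lit 1) (.n (nat_lit 14) (nat_lit 2) (.n (nat_lit 15) (nat_lit 1) (.n (nat_lit 17) (nat_lit 3) (.p (nat_lit 18) (nat_lit 1) (.p (nat_lit 20) (nat_lit 1) (.n (nat_lit 22) (nat_lit 1) (.p (nat_lit 27) (nat_lit 1) (.p (nat_lit 28) (nat_lit 1) (.p (nat_lit 29) (nat_lit 1) (.p (nat_lit 120) (nat_lit 1) (.p (nat_lit 122) (nat_lit 1) .z))))))))))))))))))))) .nil)))))))))))))))) .leaf) (nat_lit 39951) (nat_lit 785) (.p (nat_lit 290) (nat_lit 2) (.p (nat_lit 291) (nat_lit 2) (.p (nat_lit 292) (nat_lit 3) (.n (nat_lit 293) (nat_lit 2) (.p (nat_lit 294) (nat_lit 1) (.n (nat_lit 295) (nat_lit 3) (.p (nat_lit 296) (nat_lit 3) (.p (nat_lit 298) (nat_lit 1) (.n (nat_lit 299) (nat_lit 1) (.p (nat_lit 300) (nat_lit 3) (.n (nat_lit 301) (nat_lit 3) (.p (nat_lit 304) (nat_lit 1) (.n (nat_lit 308) (nat_lit 3) (.n (nat_lit 309) (nat_lit 2) (.p (nat_lit 311) (nat_lit 1) (.p (nat_lit 313) (nat_lit 1) (.p (nat_lit 314) (nat_lit 3) (.p (nat_lit 315) (nat_lit 3) (.n (nat_lit 316) (nat_lit 2) (.n (nat_lit 317) (nat_lit 3) (.p (nat_lit 318) (nat_lit 3) (.n (nat_lit 319) (nat_lit 1) .z)))))))))))))))))))))) (.ct dC1a_c292 (nat_lit 1) (nat_lit 2) (.s false (nat_lit 1) (nat_lit 39) (nat_lit 2) (nat_lit 2) (nat_lit 0) true (nat_lit 8) true (nat_lit 12) false (nat_lit 2) true (nat_lit 10) true (nat_lit 10) (.e false (nat_lit 1) (nat_lit 95) (nat_lit 4) (nat_lit 8) (.e false (nat_lit 1) (nat_lit 198) (nat_lit 0) (nat_lit 12) (.e false (nat_lit 2) (nat_lit 154) (nat_lit 2) (nat_lit 10) (.e true (nat_lit 2) (nat_lit 155) (nat_lit 2) (nat_lit 10) (.e false (nat_lit 2) (nat_lit 156) (nat_lit 2) (nat_lit 10) (.e true (nat_lit 1) (nat_lit 157) (nat_lit 2) (nat_lit 10) (.e true (nat_lit 1) (nat_lit 159) (nat_lit 2) (nat_lit 10) (.e false (nat_lit 1) (nat_lit 160) (nat_lit 2) (nat_lit 10) (.e false (nat_lit 1) (nat_lit 161) (nat_lit 2) (nat_lit 10) (.e true (nat_lit 2) (nat_lit 162) (nat_lit 2) (nat_lit 10) (.e false (nat_lit 2) (nat_lit 163) (nat_lit 2) (nat_lit 10) (.e false (nat_lit 3) (nat_lit 164) (nat_lit 2) (nat_lit 10) (.e false (nat_lit 1) (nat_lit 165) (nat_lit 2) (nat_lit 10) (.e false (nat_lit 3) (nat_lit 166) (nat_lit 2) (nat_lit 10) (.e false (nat_lit 2) (nat_lit 167) (nat_lit 2) (nat_lit 10) (.e true (nat_lit 2) (nat_lit 168) (nat_lit 2) (nat_lit 10) (.e false (nat_lit 2) (nat_lit 169) (nat_lit 2) (nat_lit 10) (.e false (nat_lit 2) (nat_lit 171) (nat_lit 2) (nat_lit 10) (.e true (nat_lit 2) (nat_lit 172) (nat_lit 2) (nat_lit 10) (.u (nat_lit 2) (.n (nat_lit 6) (nat_lit 1) (.p (nat_lit 11) (nat_lit 1) (.p (nat_lit 18) (nat_lit 1) (.n (nat_lit 21) (nat_lit 1) (.n (nat_lit 23) (nat_lit 1) (.n (nat_lit 24) (nat_lit 1) (.n (nat_lit 25) (nat_lit 1) (.p (nat_lit 27) (nat_lit 1) (.n (nat_lit 28) (nat_lit 1) (.p (nat_lit 29) (nat_lit 1) (.p (nat_lit 105) (nat_lit 1) .z))))))))))) .nil)))))))))))))))))))))) .leaf) (nat_lit 39954) (nat_lit 900) (.p (nat_lit 347) (nat_lit 1) (.n (nat_lit 348) (nat_lit 2) (.n (nat_lit 349) (nat_lit 1) (.n (nat_lit 350) (nat_lit 2) (.p (nat_lit 351) (nat_lit 1) (.p (nat_lit 352) (nat_lit 2) .z)))))) (.ct dC1a_c37 (nat_lit 1) (nat_lit 0) (.s false (nat_lit 1) (nat_lit 18) (nat_lit 1) (nat_lit 6) (nat_lit 1) false (nat_lit 7) true (nat_lit 6) true (nat_lit 0) true (nat_lit 6) true (nat_lit 3) (.e true (nat_lit 1) (nat_lit 93) (nat_lit 6) (nat_lit 3) (.e true (nat_lit 1) (nat_lit 94) (nat_lit 6) (nat_lit 3) (.e false (nat_lit 1) (nat_lit 97) (nat_lit 6) (nat_lit 3) (.u (nat_lit 2) (.n (nat_lit 5) (nat_lit 1) .z) .nil)))))) (.nd (.nd .leaf (nat_lit 39964) (nat_lit 1086) (.n (nat_lit 355) (nat_lit 3) (.p (nat_lit 356) (nat_lit 3) (.n (nat_lit 357) (nat_lit 2) (.n (nat_lit 360) (nat_lit 1) (.p (nat_lit 361) (nat_lit 2) (.n (nat_lit 362) (nat_lit 3) (.n (nat_lit 364) (nat_lit 2) (.p (nat_lit 365) (nat_lit 2) (.n (nat_lit 366) (nat_lit 1) (.p (nat_lit 367) (nat_lit 2) (.p (nat_lit 368) (nat_lit 1) (.p (nat_lit 370) (nat_lit 2) (.p (nat_lit 371) (nat_lit 3) (.p (nat_lit 372) (nat_lit 2) (.n (nat_lit 373) (nat_lit 2) (.p (nat_lit 374) (nat_lit 2) (.n (nat_lit 375) (nat_lit 3) (.n (nat_lit 378) (nat_lit 3) (.n (nat_lit 379) (nat_lit 2) (.n (nat_lit 380) (nat_lit 2) (.n (nat_lit 381) (nat_lit 2) (.p (nat_lit 382) (nat_lit 1) (.p (nat_lit 383) (nat_lit 2) (.p (nat_lit 384) (nat_lit 3) (.n (nat_lit 385) (nat_lit 2) (.n (nat_lit 392) (nat_lit 3) (.p (nat_lit 393) (nat_lit 1) (.p (nat_lit 394) (nat_lit 3) (.p (nat_lit 396) (nat_lit 1) (.p (nat_lit 404) (nat_lit 3) (.n (nat_lit 405) (nat_lit 2) (.p (nat_lit 406) (nat_lit 2) (.p (nat_lit 407) (nat_lit 3) (.p (nat_lit 408) (nat_lit 1) (.n (nat_lit 410) (nat_lit 3) (.n (nat_lit 412) (nat_lit 3) (.p (nat_lit 413) (nat_lit 3) (.p (nat_lit 414) (nat_lit 2) (.n (nat_lit 416) (nat_lit 3) (.n (nat_lit 423) (nat_lit 2) (.p (nat_lit 424) (nat_lit 2) .z))))))))))))))))))))))))))))))))))))))))) (.ct dC1a_c548 (nat_lit 1) (nat_lit 1) (.s false (nat_lit 1) (nat_lit 28) (nat_lit 1) (nat_lit 6) (nat_lit 1) false (nat_lit 21) true (nat_lit 18) true (nat_lit 1) true (nat_lit 18) true (nat_lit 13) (.e false (nat_lit 1) (nat_lit 261) (nat_lit 1) (nat_lit 18) (.e true (nat_lit 2) (nat_lit 262) (nat_lit 1) (nat_lit 18) (.e true (nat_lit 1) (nat_lit 264) (nat_lit 1) (nat_lit 18) (.e true (nat_lit 3) (nat_lit 265) (nat_lit 1) (nat_lit 18) (.e true (nat_lit 1) (nat_lit 266) (nat_lit 1) (nat_lit 18) (.e false (nat_lit 3) (nat_lit 267) (nat_lit 1) (nat_lit 18) (.e true (nat_lit 3) (nat_lit 268) (nat_lit 1) (nat_lit 18) (.e true (nat_lit 2) (nat_lit 269) (nat_lit 1) (nat_lit 18) (.e false (nat_lit 2) (nat_lit 270) (nat_lit 1) (nat_lit 18) (.e true (nat_lit 1) (nat_lit 271) (nat_lit 1) (nat_lit 18) (.e true (nat_lit 2) (nat_lit 272) (nat_lit 1) (nat_lit 18) (.e false (nat_lit 1) (nat_lit 273) (nat_lit 1) (nat_lit 18) (.e false (nat_lit 1) (nat_lit 277) (nat_lit 1) (nat_lit 18) (.e true (nat_lit 1) (nat_lit 278) (nat_lit 1) (nat_lit 18) (.e false (nat_lit 2) (nat_lit 279) (nat_lit 1) (nat_lit 18) (.e true (nat_lit 3) (nat_lit 286) (nat_lit 1) (nat_lit 18) (.e false (nat_lit 2) (nat_lit 287) (nat_lit 1) (nat_lit 18) (.e false (nat_lit 1) (nat_lit 288) (nat_lit 1) (nat_lit 18) (.e true (nat_lit 1) (nat_lit 281) (nat_lit 1) (nat_lit 18) (.e true (nat_lit 1) (nat_lit 289) (nat_lit 1) (nat_lit 18) (.e true (nat_lit 1) (nat_lit 119) (nat_lit 6) (nat_lit 13) (.u (nat_lit 2) (.n (nat_lit 0) (nat_lit 1) (.p (nat_lit 1) (nat_lit 1) (.p (nat_lit 2) (nat_lit 2) (.p (nat_lit 3) (nat_lit 1) (.p (nat_lit 8) (nat_lit 1) (.p (nat_lit 9) (nat_lit 1) (.n (nat_lit 11) (nat_lit 1) (.n (nat_lit 12) (nat_lit 1) (.p (nat_lit 15) (nat_lit 1) (.n (nat_lit 17) (nat_lit 1) (.p (nat_lit 18) (nat_lit 1) (.p (nat_lit 19) (nat_lit 2) (.p (nat_lit 20) (nat_lit 1) (.n (nat_lit 26) (nat_lit 1) (.p (nat_lit 27) (nat_lit 1) (.n (nat_lit 29) (nat_lit 1) (.n (nat_lit 31) (nat_lit 1) (.n (nat_lit 32) (nat_lit 1) (.p (nat_lit 35) (nat_lit 2) (.n (nat_lit 37) (nat_lit 1) (.n (nat_lit 38) (nat_lit 1) (.p (nat_lit 40) (nat_lit 1) (.n (nat_lit 41) (nat_lit 1) .z))))))))))))))))))))))) .nil)))))))))))))))))))))))) .leaf) (nat_lit 39966) (nat_lit 1112) (.p (nat_lit 355) (nat_lit 3) (.n (nat_lit 356) (nat_lit 3) (.n (nat_lit 357) (nat_lit 2) (.n (nat_lit 358) (nat_lit 3) (.p (nat_lit 359) (nat_lit 2) (.n (nat_lit 360) (nat_lit 1) (.p (nat_lit 361) (nat_lit 3) (.p (nat_lit 362) (nat_lit 3) (.n (nat_lit 363) (nat_lit 2) (.n (nat_lit 364) (nat_lit 2) (.n (nat_lit 366) (nat_lit 3) (.n (nat_lit 367) (nat_lit 2) (.p (nat_lit 369) (nat_lit 2) (.p (nat_lit 370) (nat_lit 1) (.n (nat_lit 372) (nat_lit 2) (.n (nat_lit 373) (nat_lit 2) (.p (nat_lit 374) (nat_lit 3) (.p (nat_lit 375) (nat_lit 3) (.p (nat_lit 378) (nat_lit 1) (.p (nat_lit 379) (nat_lit 3) (.p (nat_lit 380) (nat_lit 3) (.p (nat_lit 381) (nat_lit 3) (.n (nat_lit 382) (nat_lit 3) (.p (nat_lit 383) (nat_lit 1) (.p (nat_lit 385) (nat_lit 1) (.n (nat_lit 386) (nat_lit 1) (.p (nat_lit 388) (nat_lit 1) (.n (nat_lit 389) (nat_lit 1) (.n (nat_lit 390) (nat_lit 2) (.p (nat_lit 391) (nat_lit 3) (.n (nat_lit 392) (nat_lit 1) (.p (nat_lit 393) (nat_lit 2) (.p (nat_lit 395) (nat_lit 3) (.p (nat_lit 396) (nat_lit 2) (.p (nat_lit 404) (nat_lit 3) (.p (nat_lit 405) (nat_lit 2) (.n (nat_lit 406) (nat_lit 2) (.n (nat_lit 407) (nat_lit 1) (.p (nat_lit 408) (nat_lit 3) (.p (nat_lit 409) (nat_lit 2) (.n (nat_lit 410) (nat_lit 2) (.n (nat_lit 412) (nat_lit 1) (.p (nat_lit 413) (nat_lit 1) (.p (nat_lit 414) (nat_lit 3) (.p (nat_lit 416) (nat_lit 1) (.p (nat_lit 423) (nat_lit 3) (.n (nat_lit 424) (nat_lit 3) .z))))))))))))))))))))))))))))))))))))))))))))))) (.ct dC1a_c548 (nat_lit 1) (nat_lit 1) (.s false (nat_lit 1) (nat_lit 30) (nat_lit 1) (nat_lit 6) (nat_lit 1) false (nat_lit 21) true (nat_lit 18) true (nat_lit 1) true (nat_lit 18) true (nat_lit 13) (.e false (nat_lit 3) (nat_lit 260) (nat_lit 1) (nat_lit 18) (.e false (nat_lit 3) (nat_lit 262) (nat_lit 1) (nat_lit 18) (.e true (nat_lit 2) (nat_lit 263) (nat_lit 1) (nat_lit 18) (.e false (nat_lit 2) (nat_lit 264) (nat_lit 1) (nat_lit 18) (.e true (nat_lit 2) (nat_lit 266) (nat_lit 1) (nat_lit 18) (.e false (nat_lit 3) (nat_lit 267) (nat_lit 1) (nat_lit 18) (.e true (nat_lit 3) (nat_lit 268) (nat_lit 1) (nat_lit 18) (.e true (nat_lit 2) (nat_lit 269) (nat_lit 1) (nat_lit 18) (.e true (nat_lit 2) (nat_lit 270) (nat_lit 1) (nat_lit 18) (.e false (nat_lit 2) (nat_lit 271) (nat_lit 1) (nat_lit 18) (.e false (nat_lit 1) (nat_lit 272) (nat_lit 1) (nat_lit 18) (.e false (nat_lit 3) (nat_lit 273) (nat_lit 1) (nat_lit 18) (.e false (nat_lit 2) (nat_lit 277) (nat_lit 1) (nat_lit 18) (.e false (nat_lit 2) (nat_lit 279) (nat_lit 1) (nat_lit 18) (.e false (nat_lit 3) (nat_lit 286) (nat_lit 1) (nat_lit 18) (.e false (nat_lit 2) (nat_lit 261) (nat_lit 1) (nat_lit 18) (.e true (nat_lit 2) (nat_lit 281) (nat_lit 1) (nat_lit 18) (.e false (nat_lit 3) (nat_lit 282) (nat_lit 1) (nat_lit 18) (.e true (nat_lit 2) (nat_lit 287) (nat_lit 1) (nat_lit 18) (.e false (nat_lit 2) (nat_lit 289) (nat_lit 1) (nat_lit 18) (.e true (nat_lit 1) (nat_lit 121) (nat_lit 6) (nat_lit 13) (.u (nat_lit 2) (.n (nat_lit 0) (nat_lit 1) (.p (nat_lit 1) (nat_lit 1) (.p (nat_lit 2) (nat_lit 1) (.n (nat_lit 3) (nat_lit 2) (.n (nat_lit 7) (nat_lit 1) (.p (nat_lit 8) (nat_lit 2) (.n (nat_lit 10) (nat_lit 1) (.p (nat_lit 11) (nat_lit 2) (.n (nat_lit 12) (nat_lit 1) (.n (nat_lit 14) (nat_lit 1) (.n (nat_lit 15) (nat_lit 2) (.p (nat_lit 17) (nat_lit 2) (.p (nat_lit 18) (nat_lit 1) (.n (nat_lit 19) (nat_lit 1) (.p (nat_lit 20) (nat_lit 1) (.p (nat_lit 26) (nat_lit 3) (.p (nat_lit 27) (nat_lit 1) (.p (nat_lit 29) (nat_lit 2) (.n (nat_lit 30) (nat_lit 1) (.n (nat_lit 31) (nat_lit 1) (.p (nat_lit 32) (nat_lit 1) (.n (nat_lit 33) (nat_lit 2) (.p (nat_lit 34) (nat_lit 2) (.p (nat_lit 35) (nat_lit 1) (.n (nat_lit 36) (nat_lit 3) (.p (nat_lit 37) (nat_lit 2) (.p (nat_lit 38) (nat_lit 1) (.n (nat_lit 39) (nat_lit 1) (.p (nat_lit 40) (nat_lit 1) (.p (nat_lit 41) (nat_lit 2) (.p (nat_lit 378) (nat_lit 1) (.p (nat_lit 381) (nat_lit 1) (.n (nat_lit 382) (nat_lit 1) (.p (nat_lit 383) (nat_lit 1) (.p (nat_lit 384) (nat_lit 1) (.n (nat_lit 387) (nat_lit 1) (.n (nat_lit 401) (nat_lit 1) .z))))))))))))))))))))))))))))))))))))) .nil)))))))))))))))))))))))) .leaf))) (nat_lit 40960) (nat_lit 113) (.p (nat_lit 80) (nat_lit 1) .z) .df (.nd (.nd (.nd (.nd .leaf (nat_lit 40961) (nat_lit 125) (.p (nat_lit 88) (nat_lit 1) .z) .df .leaf) (nat_lit 40962) (nat_lit 148) (.p (nat_lit 98) (nat_lit 1) .z) .df .leaf) (nat_lit 40963) (nat_lit 262) (.p (nat_lit 133) (nat_lit 3) (.p (nat_lit 134) (nat_lit 3) (.n (nat_lit 135) (nat_lit 2) (.p (nat_lit 137) (nat_lit 1) (.n (nat_lit 138) (nat_lit 1) (.n (nat_lit 139) (nat_lit 2) (.n (nat_lit 140) (nat_lit 3) (.p (nat_lit 141) (nat_lit 3) (.p (nat_lit 142) (nat_lit 2) (.n (nat_lit 143) (nat_lit 1) (.n (nat_lit 144) (nat_lit 2) (.p (nat_lit 145) (nat_lit 3) (.n (nat_lit 146) (nat_lit 1) (.p (nat_lit 147) (nat_lit 1) (.n (nat_lit 149) (nat_lit 2) (.p (nat_lit 150) (nat_lit 1) (.n (nat_lit 151) (nat_lit 2) (.n (nat_lit 152) (nat_lit 2) .z)))))))))))))))))) (.ct dC1a_c531 (nat_lit 1) (nat_lit 6) (.s true (nat_lit 1) (nat_lit 4) (nat_lit 2) (nat_lit 3) (nat_lit 2) true (nat_lit 3) true (nat_lit 7) true (nat_lit 5) true (nat_lit 7) true (nat_lit 6) (.e true (nat_lit 1) (nat_lit 21) (nat_lit 6) (nat_lit 3) (.e false (nat_lit 1) (nat_lit 22) (nat_lit 6) (nat_lit 3) (.e false (nat_lit 1) (nat_lit 23) (nat_lit 6) (nat_lit 3) (.e true (nat_lit 2) (nat_lit 56) (nat_lit 2) (nat_lit 7) (.e true (nat_lit 2) (nat_lit 57) (nat_lit 2) (nat_lit 7) (.e false (nat_lit 2) (nat_lit 58) (nat_lit 2) (nat_lit 7) (.e false (nat_lit 2) (nat_lit 62) (nat_lit 2) (nat_lit 7) (.e true (nat_lit 3) (nat_lit 65) (nat_lit 2) (nat_lit 7) (.e false (nat_lit 1) (nat_lit 31) (nat_lit 4) (nat_lit 5) (.e false (nat_lit 1) (nat_lit 55) (nat_lit 2) (nat_lit 7) (.e true (nat_lit 1) (nat_lit 61) (nat_lit 2) (nat_lit 7) (.e false (nat_lit 1) (nat_lit 64) (nat_lit 2) (nat_lit 7) (.u (nat_lit 2) (.n (nat_lit 1) (nat_lit 1) (.p (nat_lit 7) (nat_lit 1) (.p (nat_lit 12) (nat_lit 1) (.p (nat_lit 19) (nat_lit 1) (.p (nat_lit 20) (nat_lit 1) (.p (nat_lit 48) (nat_lit 1) .z)))))) .nil))))))))))))))) (.nd (.nd .leaf (nat_lit 40964) (nat_lit 329) (.n (nat_lit 175) (nat_lit 1) (.n (nat_lit 177) (nat_lit 1) (.p (nat_lit 179) (nat_lit 1) .z))) (.ct dC1a_c516 (nat_lit 1) (nat_lit 3) (.s true (nat_lit 1) (nat_lit 14) (nat_lit 0) (nat_lit 2) (nat_lit 2) true (nat_lit 3) true (nat_lit 4) true (nat_lit 0) true (nat_lit 5) true (nat_lit 4) (.a true (nat_lit 3) (nat_lit 14) (nat_lit 14) (nat_lit 0) (nat_lit 0) (.e true (nat_lit 1) (nat_lit 78) (nat_lit 2) (nat_lit 4) (.e false (nat_lit 1) (nat_lit 101) (nat_lit 0) (nat_lit 5) (.e true (nat_lit 1) (nat_lit 80) (nat_lit 2) (nat_lit 4) (.u (nat_lit 2) (.p (nat_lit 6) (nat_lit 1) .z) .nil))))))) .leaf) (nat_lit 40965) (nat_lit 355) (.p (nat_lit 195) (nat_lit 1) .z) .df .leaf)) (nat_lit 40966) (nat_lit 406) (.p (nat_lit 203) (nat_lit 1) (.p (nat_lit 204) (nat_lit 2) (.n (nat_lit 205) (nat_lit 1) (.p (nat_lit 206) (nat_lit 1) .z)))) (.ct dC1a_c261 (nat_lit 1) (nat_lit 1) (.s true (nat_lit 1) (nat_lit 6) (nat_lit 4) (nat_lit 2) (nat_lit 2) true (nat_lit 0) true (nat_lit 3) true (nat_lit 1) true (nat_lit 2) true (nat_lit 3) (.e true (nat_lit 1) (nat_lit 18) (nat_lit 14) (nat_lit 0) (.e false (nat_lit 1) (nat_lit 101) (nat_lit 2) (nat_lit 3) .nil)))) (.nd (.nd (.nd .leaf (nat_lit 40968) (nat_lit 496) (.n (nat_lit 212) (nat_lit 1) (.n (nat_lit 213) (nat_lit 3) (.n (nat_lit 214) (nat_lit 3) (.p (nat_lit 215) (nat_lit 2) (.n (nat_lit 216) (nat_lit 3) (.p (nat_lit 217) (nat_lit 2) (.p (nat_lit 218) (nat_lit 3) (.n (nat_lit 219) (nat_lit 2) (.p (nat_lit 220) (nat_lit 1) (.p (nat_lit 222) (nat_lit 1) (.n (nat_lit 223) (nat_lit 2) (.n (nat_lit 225) (nat_lit 2) (.n (nat_lit 226) (nat_lit 1) (.p (nat_lit 228) (nat_lit 1) (.n (nat_lit 229) (nat_lit 2) (.n (nat_lit 230) (nat_lit 1) (.p (nat_lit 231) (nat_lit 2) (.p (nat_lit 232) (nat_lit 2) (.n (nat_lit 233) (nat_lit 2) (.n (nat_lit 234) (nat_lit 1) (.n (nat_lit 235) (nat_lit 1) (.p (nat_lit 236) (nat_lit 1) (.n (nat_lit 237) (nat_lit 3) (.p (nat_lit 239) (nat_lit 3) (.p (nat_lit 240) (nat_lit 3) (.n (nat_lit 241) (nat_lit 1) (.p (nat_lit 243) (nat_lit 1) (.n (nat_lit 244) (nat_lit 3) (.p (nat_lit 246) (nat_lit 2) (.p (nat_lit 248) (nat_lit 3) .z)))))))))))))))))))))))))))))) (.ct dC1a_c547 (nat_lit 1) (nat_lit 6) (.s true (nat_lit 1) (nat_lit 40) (nat_lit 0) (nat_lit 1) (nat_lit 1) true (nat_lit 11) true (nat_lit 13) false (nat_lit 6) true (nat_lit 14) true (nat_lit 13) (.e true (nat_lit 1) (nat_lit 88) (nat_lit 3) (nat_lit 11) (.e true (nat_lit 3) (nat_lit 132) (nat_lit 1) (nat_lit 13) (.e false (nat_lit 1) (nat_lit 133) (nat_lit 1) (nat_lit 13) (.e true (nat_lit 1) (nat_lit 134) (nat_lit 1) (nat_lit 13) (.e false (nat_lit 1) (nat_lit 135) (nat_lit 1) (nat_lit 13) (.e true (nat_lit 3) (nat_lit 136) (nat_lit 1) (nat_lit 13) (.e true (nat_lit 3) (nat_lit 137) (nat_lit 1) (nat_lit 13) (.e true (nat_lit 3) (nat_lit 138) (nat_lit 1) (nat_lit 13) (.e false (nat_lit 2) (nat_lit 139) (nat_lit 1) (nat_lit 13) (.e true (nat_lit 2) (nat_lit 140) (nat_lit 1) (nat_lit 13) (.e true (nat_lit 2) (nat_lit 141) (nat_lit 1) (nat_lit 13) (.e false (nat_lit 1) (nat_lit 142) (nat_lit 1) (nat_lit 13) (.e false (nat_lit 2) (nat_lit 143) (nat_lit 1) (nat_lit 13) (.e true (nat_lit 3) (nat_lit 144) (nat_lit 1) (nat_lit 13) (.e true (nat_lit 2) (nat_lit 145) (nat_lit 1) (nat_lit 13) (.e false (nat_lit 1) (nat_lit 147) (nat_lit 1) (nat_lit 13) (.e true (nat_lit 2) (nat_lit 152) (nat_lit 1) (nat_lit 13) (.u (nat_lit 2) (.n (nat_lit 20) (nat_lit 1) (.n (nat_lit 24) (nat_lit 1) (.n (nat_lit 28) (nat_lit 1) (.n (nat_lit 36) (nat_lit 1) .z)))) .nil)))))))))))))))))))) .leaf) (nat_lit 40970) (nat_lit 625) (.n (nat_lit 260) (nat_lit 3) (.p (nat_lit 262) (nat_lit 2) (.p (nat_lit 263) (nat_lit 1) (.p (nat_lit 264) (nat_lit 1) (.n (nat_lit 265) (nat_lit 1) (.p (nat_lit 266) (nat_lit 2) (.n (nat_lit 267) (nat_lit 1) (.n (nat_lit 268) (nat_lit 2) (.n (nat_lit 269) (nat_lit 1) (.p (nat_lit 271) (nat_lit 3) (.p (nat_lit 273) (nat_lit 2) (.n (nat_lit 274) (nat_lit 1) (.p (nat_lit 275) (nat_lit 1) (.p (nat_lit 277) (nat_lit 2) (.p (nat_lit 278) (nat_lit 3) (.p (nat_lit 279) (nat_lit 2) (.p (nat_lit 280) (nat_lit 2) (.n (nat_lit 281) (nat_lit 1) (.n (nat_lit 283) (nat_lit 1) (.p (nat_lit 286) (nat_lit 1) (.p (nat_lit 287) (nat_lit 1) (.p (nat_lit 289) (nat_lit 1) .z)))))))))))))))))))))) (.ct dC1a_c532 (nat_lit 1) (nat_lit 3) (.s false (nat_lit 1) (nat_lit 10) (nat_lit 4) (nat_lit 2) (nat_lit 2) true (nat_lit 2) true (nat_lit 10) true (nat_lit 3) true (nat_lit 8) true (nat_lit 10) (.e false (nat_lit 1) (nat_lit 31) (nat_lit 14) (nat_lit 2) (.e false (nat_lit 1) (nat_lit 132) (nat_lit 2) (nat_lit 10) (.e false (nat_lit 2) (nat_lit 134) (nat_lit 2) (nat_lit 10) (.e false (nat_lit 2) (nat_lit 135) (nat_lit 2) (nat_lit 10) (.e true (nat_lit 3) (nat_lit 138) (nat_lit 2) (nat_lit 10) (.e false (nat_lit 3) (nat_lit 139) (nat_lit 2) (nat_lit 10) (.e true (nat_lit 3) (nat_lit 141) (nat_lit 2) (nat_lit 10) (.e true (nat_lit 1) (nat_lit 142) (nat_lit 2) (nat_lit 10) (.e true (nat_lit 1) (nat_lit 90) (nat_lit 4) (nat_lit 8) (.e true (nat_lit 3) (nat_lit 136) (nat_lit 2) (nat_lit 10) (.e true (nat_lit 2) (nat_lit 137) (nat_lit 2) (nat_lit 10) (.e true (nat_lit 1) (nat_lit 143) (nat_lit 2) (nat_lit 10) (.e true (nat_lit 2) (nat_lit 144) (nat_lit 2) (nat_lit 10) (.e true (nat_lit 1) (nat_lit 145) (nat_lit 2) (nat_lit 10) (.e false (nat_lit 1) (nat_lit 146) (nat_lit 2) (nat_lit 10) (.e true (nat_lit 1) (nat_lit 147) (nat_lit 2) (nat_lit 10) (.e true (nat_lit 1) (nat_lit 149) (nat_lit 2) (nat_lit 10) (.e true (nat_lit 1) (nat_lit 150) (nat_lit 2) (nat_lit 10) (.e true (nat_lit 3) (nat_lit 151) (nat_lit 2) (nat_lit 10) (.e true (nat_lit 3) (nat_lit 152) (nat_lit 2) (nat_lit 10) (.u (nat_lit 2) (.p (nat_lit 0) (nat_lit 1) (.n (nat_lit 6) (nat_lit 1) (.p (nat_lit 7) (nat_lit 1) (.n (nat_lit 9) (nat_lit 1) (.n (nat_lit 19) (nat_lit 1) (.n (nat_lit 98) (nat_lit 1) (.p (nat_lit 102) (nat_lit 1) (.n (nat_lit 103) (nat_lit 1) .z)))))))) .nil))))))))))))))))))))))) .leaf) (nat_lit 40971) (nat_lit 646) (.n (nat_lit 260) (nat_lit 1) (.n (nat_lit 261) (nat_lit 1) (.p (nat_lit 263) (nat_lit 3) (.p (nat_lit 264) (nat_lit 3) (.n (nat_lit 265) (nat_lit 2) (.n (nat_lit 268) (nat_lit 2) (.n (nat_lit 270) (nat_lit 3) (.n (nat_lit 271) (nat_lit 3) (.n (nat_lit 272) (nat_lit 1) (.p (nat_lit 273) (nat_lit 3) (.n (nat_lit 274) (nat_lit 3) (.p (nat_lit 276) (nat_lit 1) (.p (nat_lit 277) (nat_lit 3) (.p (nat_lit 278) (nat_lit 3) (.n (nat_lit 279) (nat_lit 2) (.p (nat_lit 280) (nat_lit 1) (.n (nat_lit 284) (nat_lit 1) (.n (nat_lit 287) (nat_lit 3) (.n (nat_lit 288) (nat_lit 3) .z))))))))))))))))))) (.ct dC1a_c532 (nat_lit 1) (nat_lit 3) (.s true (nat_lit 1) (nat_lit 40) (nat_lit 0) (nat_lit 2) (nat_lit 1) true (nat_lit 9) true (nat_lit 11) false (nat_lit 3) true (nat_lit 12) true (nat_lit 10) (.e true (nat_lit 1) (nat_lit 98) (nat_lit 3) (nat_lit 9) (.e true (nat_lit 1) (nat_lit 177) (nat_lit 1) (nat_lit 11) (.e false (nat_lit 1) (nat_lit 195) (nat_lit 0) (nat_lit 12) (.e true (nat_lit 3) (nat_lit 132) (nat_lit 2) (nat_lit 10) (.e false (nat_lit 1) (nat_lit 133) (nat_lit 2) (nat_lit 10) (.e true (nat_lit 1) (nat_lit 134) (nat_lit 2) (nat_lit 10) (.e false (nat_lit 1) (nat_lit 135) (nat_lit 2) (nat_lit 10) (.e true (nat_lit 3) (nat_lit 136) (nat_lit 2) (nat_lit 10) (.e true (nat_lit 3) (nat_lit 137) (nat_lit 2) (nat_lit 10) (.e true (nat_lit 3) (nat_lit 138) (nat_lit 2) (nat_lit 10) (.e false (nat_lit 2) (nat_lit 139) (nat_lit 2) (nat_lit 10) (.e true (nat_lit 2) (nat_lit 140) (nat_lit 2) (nat_lit 10) (.e true (nat_lit 2) (nat_lit 141) (nat_lit 2) (nat_lit 10) (.e false (nat_lit 1) (nat_lit 142) (nat_lit 2) (nat_lit 10) (.e false (nat_lit 2) (nat_lit 143) (nat_lit 2) (nat_lit 10) (.e true (nat_lit 3) (nat_lit 144) (nat_lit 2) (nat_lit 10) (.e true (nat_lit 2) (nat_lit 145) (nat_lit 2) (nat_lit 10) (.e false (nat_lit 1) (nat_lit 146) (nat_lit 2) (nat_lit 10) (.e false (nat_lit 1) (nat_lit 147) (nat_lit 2) (nat_lit 10) (.e true (nat_lit 2) (nat_lit 152) (nat_lit 2) (nat_lit 10) (.u (nat_lit 2) (.p (nat_lit 1) (nat_lit 1) (.p (nat_lit 10) (nat_lit 1) (.p (nat_lit 11) (nat_lit 1) (.n (nat_lit 13) (nat_lit 1) (.n (nat_lit 17) (nat_lit 1) (.p (nat_lit 19) (nat_lit 1) (.n (nat_lit 20) (nat_lit 1) (.n (nat_lit 26) (nat_lit 1) (.p (nat_lit 28) (nat_lit 1) .z))))))))) .nil))))))))))))))))))))))) (.nd (.nd .leaf (nat_lit 40972) (nat_lit 644) (.p (nat_lit 260) (nat_lit 3) (.n (nat_lit 261) (nat_lit 1) (.p (nat_lit 262) (nat_lit 2) (.n (nat_lit 263) (nat_lit 3) (.n (nat_lit 264) (nat_lit 3) (.n (nat_lit 265) (nat_lit 1) (.p (nat_lit 266) (nat_lit 1) (.p (nat_lit 267) (nat_lit 1) (.p (nat_lit 268) (nat_lit 2) (.p (nat_lit 269) (nat_lit 1) (.p (nat_lit 270) (nat_lit 3) (.p (nat_lit 271) (nat_lit 2) (.p (nat_lit 272) (nat_lit 2) (.p (nat_lit 274) (nat_lit 3) (.n (nat_lit 275) (nat_lit 1) (.p (nat_lit 276) (nat_lit 1) (.n (nat_lit 277) (nat_lit 3) (.n (nat_lit 278) (nat_lit 3) (.n (nat_lit 279) (nat_lit 1) (.p (nat_lit 283) (nat_lit 1) (.n (nat_lit 284) (nat_lit 1) (.n (nat_lit 286) (nat_lit 2) (.n (nat_lit 287) (nat_lit 3) (.p (nat_lit 288) (nat_lit 2) .z)))))))))))))))))))))))) (.ct dC1a_c532 (nat_lit 1) (nat_lit 3) (.s false (nat_lit 1) (nat_lit 40) (nat_lit 2) (nat_lit 1) (nat_lit 0) true (nat_lit 8) true (nat_lit 12) false (nat_lit 3) true (nat_lit 10) true (nat_lit 11) (.e true (nat_lit 1) (nat_lit 88) (nat_lit 4) (nat_lit 8) (.e false (nat_lit 1) (nat_lit 191) (nat_lit 0) (nat_lit 12) (.e true (nat_lit 3) (nat_lit 133) (nat_lit 2) (nat_lit 10) (.e true (nat_lit 3) (nat_lit 134) (nat_lit 2) (nat_lit 10) (.e false (nat_lit 2) (nat_lit 135) (nat_lit 2) (nat_lit 10) (.e true (nat_lit 1) (nat_lit 137) (nat_lit 2) (nat_lit 10) (.e false (nat_lit 1) (nat_lit 138) (nat_lit 2) (nat_lit 10) (.e false (nat_lit 2) (nat_lit 139) (nat_lit 2) (nat_lit 10) (.e false (nat_lit 3) (nat_lit 140) (nat_lit 2) (nat_lit 10) (.e true (nat_lit 3) (nat_lit 141) (nat_lit 2) (nat_lit 10) (.e true (nat_lit 2) (nat_lit 142) (nat_lit 2) (nat_lit 10) (.e false (nat_lit 1) (nat_lit 143) (nat_lit 2) (nat_lit 10) (.e false (nat_lit 2) (nat_lit 144) (nat_lit 2) (nat_lit 10) (.e true (nat_lit 3) (nat_lit 145) (nat_lit 2) (nat_lit 10) (.e false (nat_lit 1) (nat_lit 146) (nat_lit 2) (nat_lit 10) (.e true (nat_lit 1) (nat_lit 147) (nat_lit 2) (nat_lit 10) (.e false (nat_lit 2) (nat_lit 149) (nat_lit 2) (nat_lit 10) (.e true (nat_lit 1) (nat_lit 150) (nat_lit 2) (nat_lit 10) (.e false (nat_lit 2) (nat_lit 151) (nat_lit 2) (nat_lit 10) (.e false (nat_lit 2) (nat_lit 152) (nat_lit 2) (nat_lit 10) (.e true (nat_lit 1) (nat_lit 177) (nat_lit 1) (nat_lit 11) (.u (nat_lit 2) (.n (nat_lit 1) (nat_lit 1) (.n (nat_lit 2) (nat_lit 1) (.n (nat_lit 13) (nat_lit 1) (.n (nat_lit 14) (nat_lit 1) (.p (nat_lit 19) (nat_lit 1) (.p (nat_lit 22) (nat_lit 1) (.p (nat_lit 28) (nat_lit 1) (.n (nat_lit 29) (nat_lit 1) .z)))))))) .nil)))))))))))))))))))))))) .leaf) (nat_lit 40973) (nat_lit 716) (.n (nat_lit 291) (nat_lit 1) (.p (nat_lit 292) (nat_lit 2) (.n (nat_lit 293) (nat_lit 2) (.p (nat_lit 294) (nat_lit 2) (.n (nat_lit 295) (nat_lit 1) (.n (nat_lit 296) (nat_lit 1) (.n (nat_lit 298) (nat_lit 3) (.p (nat_lit 299) (nat_lit 3) (.p (nat_lit 300) (nat_lit 1) (.n (nat_lit 301) (nat_lit 3) (.n (nat_lit 302) (nat_lit 1) (.p (nat_lit 303) (nat_lit 2) (.n (nat_lit 304) (nat_lit 1) (.n (nat_lit 305) (nat_lit 3) (.n (nat_lit 306) (nat_lit 1) (.p (nat_lit 307) (nat_lit 1) (.n (nat_lit 308) (nat_lit 1) (.p (nat_lit 309) (nat_lit 1) (.n (nat_lit 310) (nat_lit 1) (.n (nat_lit 314) (nat_lit 1) (.p (nat_lit 315) (nat_lit 1) .z))))))))))))))))))))) (.ct dC1a_c292 (nat_lit 1) (nat_lit 3) (.s true (nat_lit 1) (nat_lit 40) (nat_lit 1) (nat_lit 2) (nat_lit 1) false (nat_lit 13) true (nat_lit 11) false (nat_lit 3) true (nat_lit 11) true (nat_lit 10) (.e true (nat_lit 1) (nat_lit 186) (nat_lit 1) (nat_lit 11) (.e false (nat_lit 1) (nat_lit 195) (nat_lit 1) (nat_lit 11) (.e true (nat_lit 1) (nat_lit 154) (nat_lit 2) (nat_lit 10) (.e false (nat_lit 2) (nat_lit 155) (nat_lit 2) (nat_lit 10) (.e true (nat_lit 2) (nat_lit 156) (nat_lit 2) (nat_lit 10) (.e false (nat_lit 2) (nat_lit 157) (nat_lit 2) (nat_lit 10) (.e true (nat_lit 1) (nat_lit 158) (nat_lit 2) (nat_lit 10) (.e true (nat_lit 1) (nat_lit 159) (nat_lit 2) (nat_lit 10) (.e true (nat_lit 3) (nat_lit 161) (nat_lit 2) (nat_lit 10) (.e false (nat_lit 3) (nat_lit 162) (nat_lit 2) (nat_lit 10) (.e false (nat_lit 1) (nat_lit 163) (nat_lit 2) (nat_lit 10) (.e true (nat_lit 3) (nat_lit 164) (nat_lit 2) (nat_lit 10) (.e true (nat_lit 1) (nat_lit 165) (nat_lit 2) (nat_lit 10) (.e false (nat_lit 2) (nat_lit 166) (nat_lit 2) (nat_lit 10) (.e true (nat_lit 1) (nat_lit 167) (nat_lit 2) (nat_lit 10) (.e true (nat_lit 3) (nat_lit 168) (nat_lit 2) (nat_lit 10) (.e true (nat_lit 1) (nat_lit 169) (nat_lit 2) (nat_lit 10) (.e false (nat_lit 1) (nat_lit 170) (nat_lit 2) (nat_lit 10) (.e true (nat_lit 1) (nat_lit 171) (nat_lit 2) (nat_lit 10) (.e false (nat_lit 1) (nat_lit 172) (nat_lit 2) (nat_lit 10) (.e true (nat_lit 1) (nat_lit 173) (nat_lit 2) (nat_lit 10) .nil))))))))))))))))))))))) .leaf)))) (nat_lit 40974) (nat_lit 800) (.n (nat_lit 320) (nat_lit 3) (.p (nat_lit 321) (nat_lit 2) (.p (nat_lit 322) (nat_lit 2) (.n (nat_lit 323) (nat_lit 2) (.p (nat_lit 325) (nat_lit 3) (.n (nat_lit 327) (nat_lit 3) .z)))))) (.ct dC1a_c517 (nat_lit 1) (nat_lit 1) (.s false (nat_lit 3) (nat_lit 14) (nat_lit 4) (nat_lit 2) (nat_lit 2) true (nat_lit 1) true (nat_lit 5) true (nat_lit 1) true (nat_lit 4) true (nat_lit 5) (.e false (nat_lit 2) (nat_lit 175) (nat_lit 2) (nat_lit 5) (.e true (nat_lit 2) (nat_lit 177) (nat_lit 2) (nat_lit 5) (.e true (nat_lit 3) (nat_lit 174) (nat_lit 2) (nat_lit 5) (.e false (nat_lit 2) (nat_lit 176) (nat_lit 2) (nat_lit 5) (.e false (nat_lit 3) (nat_lit 179) (nat_lit 2) (nat_lit 5) (.e true (nat_lit 3) (nat_lit 101) (nat_lit 4) (nat_lit 4) (.u (nat_lit 2) (.p (nat_lit 11) (nat_lit 1) (.p (nat_lit 28) (nat_lit 1) (.p (nat_lit 29) (nat_lit 1) (.n (nat_lit 30) (nat_lit 1) .z)))) .nil))))))))) (.nd (.nd (.nd (.nd (.nd .leaf (nat_lit 40975) (nat_lit 809) (.p (nat_lit 320) (nat_lit 2) (.n (nat_lit 321) (nat_lit 1) (.p (nat_lit 322) (nat_lit 3) (.n (nat_lit 323) (nat_lit 3) (.n (nat_lit 325) (nat_lit 3) (.p (nat_lit 326) (nat_lit 1) (.p (nat_lit 327) (nat_lit 1) .z))))))) (.ct dC1a_c517 (nat_lit 1) (nat_lit 1) (.s false (nat_lit 1) (nat_lit 14) (nat_lit 2) (nat_lit 4) (nat_lit 2) true (nat_lit 3) true (nat_lit 5) true (nat_lit 1) true (nat_lit 5) true (nat_lit 4) (.s true (nat_lit 1) (nat_lit 40) (nat_lit 2) (nat_lit 0) (nat_lit 2) true (nat_lit 3) true (nat_lit 5) false (nat_lit 1) true (nat_lit 5) true (nat_lit 6) (.s false (nat_lit 1) (nat_lit 40) (nat_lit 2) (nat_lit 2) (nat_lit 0) true (nat_lit 4) true (nat_lit 6) false (nat_lit 1) true (nat_lit 5) true (nat_lit 5) (.e true (nat_lit 1) (nat_lit 78) (nat_lit 6) (nat_lit 3) (.e false (nat_lit 1) (nat_lit 81) (nat_lit 6) (nat_lit 3) (.e true (nat_lit 3) (nat_lit 175) (nat_lit 2) (nat_lit 5) (.e false (nat_lit 3) (nat_lit 177) (nat_lit 2) (nat_lit 5) (.e false (nat_lit 3) (nat_lit 179) (nat_lit 2) (nat_lit 5) (.e false (nat_lit 2) (nat_lit 40) (nat_lit 14) (nat_lit 1) (.e true (nat_lit 1) (nat_lit 178) (nat_lit 2) (nat_lit 5) (.u (nat_lit 2) (.n (nat_lit 0) (nat_lit 1) (.p (nat_lit 5) (nat_lit 1) (.n (nat_lit 7) (nat_lit 1) (.n (nat_lit 30) (nat_lit 1) .z)))) .nil)))))))))))) .leaf) (nat_lit 40976) (nat_lit 871) (.p (nat_lit 328) (nat_lit 2) (.p (nat_lit 329) (nat_lit 2) (.p (nat_lit 330) (nat_lit 1) (.n (nat_lit 331) (nat_lit 2) (.n (nat_lit 332) (nat_lit 2) (.p (nat_lit 333) (nat_lit 1) (.n (nat_lit 334) (nat_lit 3) (.n (nat_lit 335) (nat_lit 2) (.n (nat_lit 336) (nat_lit 2) (.n (nat_lit 337) (nat_lit 1) (.n (nat_lit 338) (nat_lit 1) (.n (nat_lit 340) (nat_lit 1) (.p (nat_lit 342) (nat_lit 1) (.n (nat_lit 345) (nat_lit 1) .z)))))))))))))) (.ct dC1a_c277 (nat_lit 1) (nat_lit 1) (.s false (nat_lit 1) (nat_lit 40) (nat_lit 2) (nat_lit 1) (nat_lit 2) true (nat_lit 4) true (nat_lit 8) false (nat_lit 1) true (nat_lit 8) true (nat_lit 9) (.e true (nat_lit 1) (nat_lit 88) (nat_lit 6) (nat_lit 4) (.e false (nat_lit 1) (nat_lit 191) (nat_lit 2) (nat_lit 8) (.e true (nat_lit 1) (nat_lit 195) (nat_lit 2) (nat_lit 8) (.e false (nat_lit 1) (nat_lit 202) (nat_lit 1) (nat_lit 9) (.u (nat_lit 2) (.n (nat_lit 0) (nat_lit 1) (.p (nat_lit 3) (nat_lit 1) (.p (nat_lit 4) (nat_lit 1) (.n (nat_lit 5) (nat_lit 1) (.p (nat_lit 6) (nat_lit 1) (.p (nat_lit 7) (nat_lit 1) (.p (nat_lit 8) (nat_lit 1) (.p (nat_lit 10) (nat_lit 1) .z)))))))) .nil))))))) .leaf) (nat_lit 40977) (nat_lit 878) (.n (nat_lit 328) (nat_lit 1) (.n (nat_lit 329) (nat_lit 2) (.n (nat_lit 330) (nat_lit 2) (.p (nat_lit 331) (nat_lit 3) (.p (nat_lit 332) (nat_lit 1) (.p (nat_lit 333) (nat_lit 3) (.n (nat_lit 334) (nat_lit 3) (.n (nat_lit 335) (nat_lit 1) (.n (nat_lit 336) (nat_lit 2) (.n (nat_lit 337) (nat_lit 3) (.p (nat_lit 338) (nat_lit 1) (.p (nat_lit 343) (nat_lit 1) (.p (nat_lit 344) (nat_lit 1) (.p (nat_lit 345) (nat_lit 1) .z)))))))))))))) (.ct dC1a_c277 (nat_lit 1) (nat_lit 1) (.s false (nat_lit 1) (nat_lit 40) (nat_lit 2) (nat_lit 2) (nat_lit 1) true (nat_lit 5) true (nat_lit 9) false (nat_lit 1) true (nat_lit 8) true (nat_lit 8) (.e false (nat_lit 1) (nat_lit 98) (nat_lit 5) (nat_lit 5) (.e false (nat_lit 1) (nat_lit 202) (nat_lit 1) (nat_lit 9) (.e false (nat_lit 1) (nat_lit 195) (nat_lit 2) (nat_lit 8) (.e true (nat_lit 1) (nat_lit 186) (nat_lit 2) (nat_lit 8) (.u (nat_lit 2) (.p (nat_lit 0) (nat_lit 1) (.p (nat_lit 2) (nat_lit 1) (.n (nat_lit 3) (nat_lit 1) (.n (nat_lit 4) (nat_lit 1) (.p (nat_lit 9) (nat_lit 1) (.n (nat_lit 10) (nat_lit 1) .z)))))) .nil))))))) (.nd (.nd .leaf (nat_lit 40984) (nat_lit 1104) (.p (nat_lit 355) (nat_lit 1) (.p (nat_lit 356) (nat_lit 2) (.n (nat_lit 357) (nat_lit 3) (.n (nat_lit 358) (nat_lit 3) (.p (nat_lit 359) (nat_lit 2) (.n (nat_lit 360) (nat_lit 2) (.p (nat_lit 361) (nat_lit 3) (.n (nat_lit 362) (nat_lit 3) (.p (nat_lit 363) (nat_lit 2) (.n (nat_lit 364) (nat_lit 3) (.p (nat_lit 365) (nat_lit 3) (.p (nat_lit 366) (nat_lit 1) (.n (nat_lit 367) (nat_lit 2) (.p (nat_lit 370) (nat_lit 1) (.n (nat_lit 372) (nat_lit 1) (.p (nat_lit 373) (nat_lit 3) (.n (nat_lit 374) (nat_lit 3) (.p (nat_lit 375) (nat_lit 3) (.p (nat_lit 379) (nat_lit 1) (.p (nat_lit 380) (nat_lit 1) (.n (nat_lit 381) (nat_lit 3) (.p (nat_lit 382) (nat_lit 3) (.p (nat_lit 383) (nat_lit 3) (.n (nat_lit 384) (nat_lit 3) (.p (nat_lit 386) (nat_lit 2) (.p (nat_lit 387) (nat_lit 1) (.n (nat_lit 388) (nat_lit 3) (.n (nat_lit 390) (nat_lit 3) (.n (nat_lit 391) (nat_lit 2) (.p (nat_lit 392) (nat_lit 1) (.n (nat_lit 393) (nat_lit 2) (.n (nat_lit 394) (nat_lit 1) (.p (nat_lit 395) (nat_lit 3) (.n (nat_lit 396) (nat_lit 2) (.n (nat_lit 400) (nat_lit 1) (.n (nat_lit 401) (nat_lit 2) (.p (nat_lit 404) (nat_lit 3) (.p (nat_lit 405) (nat_lit 1) (.n (nat_lit 408) (nat_lit 1) (.n (nat_lit 409) (nat_lit 2) (.p (nat_lit 410) (nat_lit 3) (.n (nat_lit 413) (nat_lit 2) (.p (nat_lit 414) (nat_lit 1) (.p (nat_lit 415) (nat_lit 2) (.n (nat_lit 417) (nat_lit 2) (.n (nat_lit 419) (nat_lit 2) (.p (nat_lit 420) (nat_lit 2) (.p (nat_lit 424) (nat_lit 3) (.p (nat_lit 425) (nat_lit 3) .z))))))))))))))))))))))))))))))))))))))))))))))))) (.ct dC1a_c548 (nat_lit 1) (nat_lit 2) (.s false (nat_lit 1) (nat_lit 40) (nat_lit 3) (nat_lit 1) (nat_lit 2) true (nat_lit 9) true (nat_lit 17) false (nat_lit 2) true (nat_lit 16) true (nat_lit 18) (.e true (nat_lit 1) (nat_lit 88) (nat_lit 10) (nat_lit 9) (.e true (nat_lit 3) (nat_lit 233) (nat_lit 2) (nat_lit 17) (.e true (nat_lit 2) (nat_lit 235) (nat_lit 2) (nat_lit 17) (.e true (nat_lit 3) (nat_lit 237) (nat_lit 2) (nat_lit 17) (.e true (nat_lit 2) (nat_lit 238) (nat_lit 2) (nat_lit 17) (.e true (nat_lit 2) (nat_lit 240) (nat_lit 2) (nat_lit 17) (.e true (nat_lit 3) (nat_lit 241) (nat_lit 2) (nat_lit 17) (.e false (nat_lit 2) (nat_lit 242) (nat_lit 2) (nat_lit 17) (.e true (nat_lit 1) (nat_lit 243) (nat_lit 2) (nat_lit 17) (.e true (nat_lit 2) (nat_lit 244) (nat_lit 2) (nat_lit 17) (.e false (nat_lit 1) (nat_lit 245) (nat_lit 2) (nat_lit 17) (.e true (nat_lit 3) (nat_lit 212) (nat_lit 2) (nat_lit 17) (.e true (nat_lit 1) (nat_lit 214) (nat_lit 2) (nat_lit 17) (.e false (nat_lit 2) (nat_lit 215) (nat_lit 2) (nat_lit 17) (.e false (nat_lit 2) (nat_lit 216) (nat_lit 2) (nat_lit 17) (.e true (nat_lit 1) (nat_lit 217) (nat_lit 2) (nat_lit 17) (.e true (nat_lit 1) (nat_lit 218) (nat_lit 2) (nat_lit 17) (.e false (nat_lit 1) (nat_lit 219) (nat_lit 2) (nat_lit 17) (.e true (nat_lit 2) (nat_lit 220) (nat_lit 2) (nat_lit 17) (.e false (nat_lit 3) (nat_lit 222) (nat_lit 2) (nat_lit 17) (.e false (nat_lit 1) (nat_lit 224) (nat_lit 2) (nat_lit 17) (.e false (nat_lit 3) (nat_lit 227) (nat_lit 2) (nat_lit 17) (.e false (nat_lit 2) (nat_lit 229) (nat_lit 2) (nat_lit 17) dC1a_i32))))))))))))))))))))))))) .leaf) (nat_lit 40985) (nat_lit 1098) (.n (nat_lit 355) (nat_lit 2) (.n (nat_lit 356) (nat_lit 3) (.n (nat_lit 357) (nat_lit 3) (.n (nat_lit 358) (nat_lit 3) (.p (nat_lit 360) (nat_lit 2) (.n (nat_lit 361) (nat_lit 1) (.p (nat_lit 362) (nat_lit 1) (.p (nat_lit 363) (nat_lit 1) (.n (nat_lit 364) (nat_lit 1) (.p (nat_lit 366) (nat_lit 2) (.p (nat_lit 369) (nat_lit 3) (.p (nat_lit 374) (nat_lit 2) (.p (nat_lit 375) (nat_lit 3) (.p (nat_lit 379) (nat_lit 1) (.p (nat_lit 382) (nat_lit 2) (.p (nat_lit 383) (nat_lit 2) (.n (nat_lit 384) (nat_lit 3) (.n (nat_lit 385) (nat_lit 1) (.n (nat_lit 386) (nat_lit 1) (.p (nat_lit 387) (nat_lit 2) (.n (nat_lit 388) (nat_lit 1) (.p (nat_lit 389) (nat_lit 3) (.n (nat_lit 390) (nat_lit 1) (.n (nat_lit 391) (nat_lit 3) (.n (nat_lit 392) (nat_lit 1) (.p (nat_lit 393) (nat_lit 3) (.p (nat_lit 394) (nat_lit 3) (.p (nat_lit 396) (nat_lit 1) (.p (nat_lit 398) (nat_lit 1) (.n (nat_lit 399) (nat_lit 3) (.p (nat_lit 400) (nat_lit 3) (.n (nat_lit 401) (nat_lit 1) (.n (nat_lit 402) (nat_lit 1) (.p (nat_lit 404) (nat_lit 3) (.p (nat_lit 405) (nat_lit 1) (.n (nat_lit 408) (nat_lit 1) (.n (nat_lit 409) (nat_lit 2) (.p (nat_lit 410) (nat_lit 3) (.n (nat_lit 413) (nat_lit 2) (.p (nat_lit 414) (nat_lit 1) (.p (nat_lit 415) (nat_lit 1) (.n (nat_lit 417) (nat_lit 1) (.n (nat_lit 419) (nat_lit 1) (.p (nat_lit 420) (nat_lit 1) (.p (nat_lit 424) (nat_lit 3) (.p (nat_lit 425) (nat_lit 3) .z)))))))))))))))))))))))))))))))))))))))))))))) (.ct dC1a_c548 (nat_lit 1) (nat_lit 2) (.s false (nat_lit 1) (nat_lit 40) (nat_lit 3) (nat_lit 2) (nat_lit 1) true (nat_lit 11) true (nat_lit 18) false (nat_lit 2) true (nat_lit 16) true (nat_lit 17) (.e true (nat_lit 1) (nat_lit 98) (nat_lit 8) (nat_lit 11) dC1a_i34))) .leaf)) (nat_lit 40986) (nat_lit 1101) (.p (nat_lit 355) (nat_lit 3) (.n (nat_lit 356) (nat_lit 2) (.n (nat_lit 357) (nat_lit 1) (.n (nat_lit 358) (nat_lit 1) (.p (nat_lit 359) (nat_lit 3) (.n (nat_lit 360) (nat_lit 2) (.n (nat_lit 361) (nat_lit 2) (.p (nat_lit 362) (nat_lit 1) (.n (nat_lit 363) (nat_lit 2) (.n (nat_lit 364) (nat_lit 3) (.n (nat_lit 365) (nat_lit 3) (.n (nat_lit 367) (nat_lit 2) (.p (nat_lit 368) (nat_lit 2) (.p (nat_lit 370) (nat_lit 1) (.n (nat_lit 371) (nat_lit 1) (.n (nat_lit 372) (nat_lit 1) (.n (nat_lit 373) (nat_lit 1) (.n (nat_lit 374) (nat_lit 1) (.n (nat_lit 381) (nat_lit 2) (.p (nat_lit 382) (nat_lit 1) (.p (nat_lit 383) (nat_lit 1) (.p (nat_lit 384) (nat_lit 3) (.n (nat_lit 385) (nat_lit 3) (.p (nat_lit 388) (nat_lit 1) (.n (nat_lit 389) (nat_lit 2) (.p (nat_lit 390) (nat_lit 2) (.n (nat_lit 391) (nat_lit 1) (.p (nat_lit 392) (nat_lit 1) (.p (nat_lit 393) (nat_lit 1) (.p (nat_lit 394) (nat_lit 1) (.n (nat_lit 396) (nat_lit 2) (.p (nat_lit 398) (nat_lit 2) (.n (nat_lit 399) (nat_lit 3) (.p (nat_lit 400) (nat_lit 3) (.n (nat_lit 402) (nat_lit 2) (.n (nat_lit 404) (nat_lit 1) (.p (nat_lit 405) (nat_lit 2) (.n (nat_lit 406) (nat_lit 1) (.p (nat_lit 409) (nat_lit 1) (.n (nat_lit 413) (nat_lit 2) (.p (nat_lit 414) (nat_lit 1) .z))))))))))))))))))))))))))))))))))))))))) (.ct dC1a_c548 (nat_lit 1) (nat_lit 2) dC1a_i35) (.nd (.nd (.nd .leaf (nat_lit 40987) (nat_lit 1105) (.p (nat_lit 355) (nat_lit 1) (.p (nat_lit 356) (nat_lit 1) (.p (nat_lit 357) (nat_lit 2) (.p (nat_lit 358) (nat_lit 1) (.p (nat_lit 359) (nat_lit 2) (.p (nat_lit 360) (nat_lit 3) (.n (nat_lit 362) (nat_lit 1) (.p (nat_lit 363) (nat_lit 1) (.n (nat_lit 364) (nat_lit 1) (.p (nat_lit 365) (nat_lit 2) (.n (nat_lit 366) (nat_lit 3) (.n (nat_lit 367) (nat_lit 1) (.p (nat_lit 368) (nat_lit 2) (.p (nat_lit 369) (nat_lit 1) (.n (nat_lit 370) (nat_lit 3) (.n (nat_lit 371) (nat_lit 1) (.p (nat_lit 372) (nat_lit 3) (.n (nat_lit 373) (nat_lit 2) (.p (nat_lit 374) (nat_lit 1) (.n (nat_lit 375) (nat_lit 3) (.n (nat_lit 379) (nat_lit 1) (.p (nat_lit 381) (nat_lit 3) (.n (nat_lit 382) (nat_lit 1) (.p (nat_lit 383) (nat_lit 1) (.p (nat_lit 385) (nat_lit 1) (.p (nat_lit 386) (nat_lit 2) (.n (nat_lit 387) (nat_lit 1) (.p (nat_lit 388) (nat_lit 3) (.n (nat_lit 389) (nat_lit 2) (.n (nat_lit 390) (nat_lit 2) (.n (nat_lit 392) (nat_lit 2) (.n (nat_lit 393) (nat_lit 2) (.n (nat_lit 395) (nat_lit 1) (.n (nat_lit 396) (nat_lit 3) (.p (nat_lit 398) (nat_lit 1) (.p (nat_lit 401) (nat_lit 1) (.n (nat_lit 402) (nat_lit 1) (.p (nat_lit 404) (nat_lit 3) (.p (nat_lit 405) (nat_lit 1) (.n (nat_lit 406) (nat_lit 1) (.p (nat_lit 408) (nat_lit 1) (.p (nat_lit 409) (nat_lit 3) (.n (nat_lit 410) (nat_lit 3) (.n (nat_lit 415) (nat_lit 1) (.p (nat_lit 417) (nat_lit 1) (.p (nat_lit 419) (nat_lit 1) (.n (nat_lit 420) (nat_lit 1) (.n (nat_lit 424) (nat_lit 3) (.n (nat_lit 425) (nat_lit 3) .z))))))))))))))))))))))))))))))))))))))))))))))))) (.ct dC1a_c548 (nat_lit 1) (nat_lit 2) (.s true (nat_lit 1) (nat_lit 14) (nat_lit 13) (nat_lit 2) (nat_lit 0) true (nat_lit 2) true (nat_lit 19) true (nat_lit 7) true (nat_lit 8) true (nat_lit 17) (.e true (nat_lit 1) (nat_lit 40) (nat_lit 24) (nat_lit 2) dC1a_i36))) .leaf) (nat_lit 40991) (nat_lit 1318) (.p (nat_lit 427) (nat_lit 3) (.p (nat_lit 428) (nat_lit 2) (.p (nat_lit 429) (nat_lit 2) (.n (nat_lit 431) (nat_lit 3) (.p (nat_lit 432) (nat_lit 1) (.p (nat_lit 433) (nat_lit 1) (.p (nat_lit 434) (nat_lit 1) (.p (nat_lit 435) (nat_lit 2) (.n (nat_lit 436) (nat_lit 3) (.p (nat_lit 438) (nat_lit 1) (.n (nat_lit 439) (nat_lit 3) (.n (nat_lit 440) (nat_lit 1) (.n (nat_lit 441) (nat_lit 2) (.p (nat_lit 443) (nat_lit 2) (.n (nat_lit 444) (nat_lit 3) (.p (nat_lit 445) (nat_lit 2) (.n (nat_lit 446) (nat_lit 3) (.n (nat_lit 448) (nat_lit 1) (.n (nat_lit 451) (nat_lit 1) (.p (nat_lit 454) (nat_lit 1) (.p (nat_lit 456) (nat_lit 1) (.n (nat_lit 459) (nat_lit 2) .z)))))))))))))))))))))) (.ct dC1a_c533 (nat_lit 1) (nat_lit 0) (.s true (nat_lit 1) (nat_lit 14) (nat_lit 10) (nat_lit 2) (nat_lit 2) true (nat_lit 0) true (nat_lit 13) true (nat_lit 5) true (nat_lit 6) true (nat_lit 13) (.s false (nat_lit 1) (nat_lit 18) (nat_lit 10) (nat_lit 0) (nat_lit 2) true (nat_lit 0) true (nat_lit 13) true (nat_lit 3) true (nat_lit 6) true (nat_lit 15) (.s false (nat_lit 1) (nat_lit 41) (nat_lit 3) (nat_lit 2) (nat_lit 2) true (nat_lit 6) true (nat_lit 13) false (nat_lit 0) true (nat_lit 12) true (nat_lit 13) (.e true (nat_lit 1) (nat_lit 260) (nat_lit 2) (nat_lit 13) (.e false (nat_lit 3) (nat_lit 261) (nat_lit 2) (nat_lit 13) (.e true (nat_lit 3) (nat_lit 262) (nat_lit 2) (nat_lit 13) (.e true (nat_lit 2) (nat_lit 263) (nat_lit 2) (nat_lit 13) (.e true (nat_lit 3) (nat_lit 266) (nat_lit 2) (nat_lit 13) (.e false (nat_lit 2) (nat_lit 267) (nat_lit 2) (nat_lit 13) (.e false (nat_lit 3) (nat_lit 270) (nat_lit 2) (nat_lit 13) (.e true (nat_lit 3) (nat_lit 275) (nat_lit 2) (nat_lit 13) (.e false (nat_lit 3) (nat_lit 279) (nat_lit 2) (nat_lit 13) (.e true (nat_lit 1) (nat_lit 82) (nat_lit 14) (nat_lit 5) (.e false (nat_lit 2) (nat_lit 264) (nat_lit 2) (nat_lit 13) (.e true (nat_lit 1) (nat_lit 265) (nat_lit 2) (nat_lit 13) (.e false (nat_lit 3) (nat_lit 271) (nat_lit 2) (nat_lit 13) (.e false (nat_lit 3) (nat_lit 273) (nat_lit 2) (nat_lit 13) (.e true (nat_lit 3) (nat_lit 274) (nat_lit 2) (nat_lit 13) (.e true (nat_lit 1) (nat_lit 277) (nat_lit 2) (nat_lit 13) (.e false (nat_lit 3) (nat_lit 278) (nat_lit 2) (nat_lit 13) (.e false (nat_lit 2) (nat_lit 280) (nat_lit 2) (nat_lit 13) dC1a_i37)))))))))))))))))))))) .leaf) (nat_lit 40992) (nat_lit 1291) (.n (nat_lit 427) (nat_lit 1) (.p (nat_lit 428) (nat_lit 2) (.n (nat_lit 429) (nat_lit 3) (.p (nat_lit 430) (nat_lit 1) (.n (nat_lit 431) (nat_lit 3) (.n (nat_lit 432) (nat_lit 3) (.n (nat_lit 433) (nat_lit 3) (.n (nat_lit 434) (nat_lit 3) (.n (nat_lit 436) (nat_lit 3) (.n (nat_lit 438) (nat_lit 1) (.p (nat_lit 439) (nat_lit 2) (.p (nat_lit 441) (nat_lit 3) (.p (nat_lit 442) (nat_lit 3) (.p (nat_lit 443) (nat_lit 2) (.p (nat_lit 444) (nat_lit 1) (.p (nat_lit 445) (nat_lit 3) (.p (nat_lit 447) (nat_lit 1) (.n (nat_lit 448) (nat_lit 1) (.p (nat_lit 449) (nat_lit 3) (.n (nat_lit 450) (nat_lit 3) (.n (nat_lit 455) (nat_lit 1) (.p (nat_lit 456) (nat_lit 3) (.n (nat_lit 458) (nat_lit 1) (.n (nat_lit 459) (nat_lit 3) .z)))))))))))))))))))))))) (.ct dC1a_c533 (nat_lit 1) (nat_lit 0) (.s true (nat_lit 1) (nat_lit 32) (nat_lit 4) (nat_lit 2) (nat_lit 2) true (nat_lit 5) true (nat_lit 13) true (nat_lit 0) true (nat_lit 11) true (nat_lit 13) (.e true (nat_lit 1) (nat_lit 83) (nat_lit 14) (nat_lit 5) (.e true (nat_lit 1) (nat_lit 260) (nat_lit 2) (nat_lit 13) (.e true (nat_lit 3) (nat_lit 262) (nat_lit 2) (nat_lit 13) (.e true (nat_lit 1) (nat_lit 263) (nat_lit 2) (nat_lit 13) (.e false (nat_lit 1) (nat_lit 268) (nat_lit 2) (nat_lit 13) (.e true (nat_lit 2) (nat_lit 272) (nat_lit 2) (nat_lit 13) (.e false (nat_lit 1) (nat_lit 273) (nat_lit 2) (nat_lit 13) (.e true (nat_lit 2) (nat_lit 276) (nat_lit 2) (nat_lit 13) (.e false (nat_lit 1) (nat_lit 277) (nat_lit 2) (nat_lit 13) (.e true (nat_lit 2) (nat_lit 278) (nat_lit 2) (nat_lit 13) (.e false (nat_lit 2) (nat_lit 280) (nat_lit 2) (nat_lit 13) (.e false (nat_lit 1) (nat_lit 193) (nat_lit 4) (nat_lit 11) (.e false (nat_lit 2) (nat_lit 264) (nat_lit 2) (nat_lit 13) (.e true (nat_lit 2) (nat_lit 271) (nat_lit 2) (nat_lit 13) (.e true (nat_lit 3) (nat_lit 279) (nat_lit 2) (nat_lit 13) (.e false (nat_lit 1) (nat_lit 284) (nat_lit 2) (nat_lit 13) (.e true (nat_lit 1) (nat_lit 287) (nat_lit 2) (nat_lit 13) (.u (nat_lit 2) (.n (nat_lit 0) (nat_lit 1) (.p (nat_lit 1) (nat_lit 3) (.n (nat_lit 2) (nat_lit 1) (.p (nat_lit 3) (nat_lit 1) (.n (nat_lit 4) (nat_lit 1) (.p (nat_lit 5) (nat_lit 1) (.p (nat_lit 6) (nat_lit 1) (.p (nat_lit 7) (nat_lit 1) (.n (nat_lit 10) (nat_lit 1) (.p (nat_lit 12) (nat_lit 1) (.n (nat_lit 17) (nat_lit 1) (.p (nat_lit 18) (nat_lit 1) (.p (nat_lit 19) (nat_lit 2) (.n (nat_lit 21) (nat_lit 1) (.n (nat_lit 22) (nat_lit 1) (.p (nat_lit 30) (nat_lit 1) (.n (nat_lit 33) (nat_lit 2) (.p (nat_lit 173) (nat_lit 1) (.p (nat_lit 175) (nat_lit 1) .z))))))))))))))))))) .nil)))))))))))))))))))) (.nd (.nd .leaf (nat_lit 40993) (nat_lit 1362) (.p (nat_lit 426) (nat_lit 3) (.p (nat_lit 427) (nat_lit 3) (.p (nat_lit 428) (nat_lit 2) (.p (nat_lit 429) (nat_lit 3) (.n (nat_lit 430) (nat_lit 3) (.p (nat_lit 431) (nat_lit 1) (.p (nat_lit 432) (nat_lit 2) (.p (nat_lit 433) (nat_lit 2) (.n (nat_lit 434) (nat_lit 1) (.n (nat_lit 435) (nat_lit 1) (.p (nat_lit 436) (nat_lit 2) (.p (nat_lit 439) (nat_lit 3) (.p (nat_lit 440) (nat_lit 1) (.p (nat_lit 441) (nat_lit 1) (.p (nat_lit 442) (nat_lit 3) (.n (nat_lit 443) (nat_lit 3) (.n (nat_lit 444) (nat_lit 2) (.p (nat_lit 445) (nat_lit 3) (.p (nat_lit 446) (nat_lit 3) (.p (nat_lit 447) (nat_lit 1) (.p (nat_lit 449) (nat_lit 3) (.n (nat_lit 450) (nat_lit 3) (.p (nat_lit 451) (nat_lit 1) (.n (nat_lit 454) (nat_lit 1) (.n (nat_lit 455) (nat_lit 1) (.n (nat_lit 456) (nat_lit 3) (.n (nat_lit 458) (nat_lit 1) (.n (nat_lit 459) (nat_lit 2) .z)))))))))))))))))))))))))))) (.ct dC1a_c533 (nat_lit 1) (nat_lit 0) (.s true (nat_lit 1) (nat_lit 14) (nat_lit 2) (nat_lit 2) (nat_lit 12) true (nat_lit 0) true (nat_lit 6) true (nat_lit 5) true (nat_lit 13) true (nat_lit 13) (.e true (nat_lit 1) (nat_lit 98) (nat_lit 12) (nat_lit 6) (.e false (nat_lit 1) (nat_lit 92) (nat_lit 14) (nat_lit 5) (.e true (nat_lit 1) (nat_lit 260) (nat_lit 2) (nat_lit 13) dC1a_i38))))) .leaf) (nat_lit 40997) (nat_lit 1549) (.p (nat_lit 460) (nat_lit 1) (.n (nat_lit 461) (nat_lit 3) (.n (nat_lit 463) (nat_lit 3) (.p (nat_lit 464) (nat_lit 2) (.p (nat_lit 465) (nat_lit 3) (.p (nat_lit 467) (nat_lit 2) (.p (nat_lit 468) (nat_lit 2) (.p (nat_lit 469) (nat_lit 3) (.n (nat_lit 471) (nat_lit 3) (.p (nat_lit 472) (nat_lit 2) (.n (nat_lit 473) (nat_lit 3) (.n (nat_lit 474) (nat_lit 3) (.n (nat_lit 475) (nat_lit 2) (.p (nat_lit 476) (nat_lit 1) (.n (nat_lit 477) (nat_lit 2) (.p (nat_lit 478) (nat_lit 3) (.n (nat_lit 480) (nat_lit 2) (.n (nat_lit 481) (nat_lit 1) (.n (nat_lit 482) (nat_lit 3) (.n (nat_lit 485) (nat_lit 1) (.p (nat_lit 488) (nat_lit 2) (.n (nat_lit 491) (nat_lit 2) (.p (nat_lit 492) (nat_lit 1) (.p (nat_lit 493) (nat_lit 1) .z)))))))))))))))))))))))) (.ct dC1a_c293 (nat_lit 1) (nat_lit 0) (.s false (nat_lit 1) (nat_lit 40) (nat_lit 5) (nat_lit 1) (nat_lit 2) true (nat_lit 4) true (nat_lit 13) false (nat_lit 0) true (nat_lit 10) true (nat_lit 14) (.e true (nat_lit 1) (nat_lit 88) (nat_lit 16) (nat_lit 4) (.e false (nat_lit 1) (nat_lit 315) (nat_lit 2) (nat_lit 13) (.e true (nat_lit 1) (nat_lit 195) (nat_lit 5) (nat_lit 10) (.e false (nat_lit 3) (nat_lit 328) (nat_lit 1) (nat_lit 14) (.e false (nat_lit 3) (nat_lit 330) (nat_lit 1) (nat_lit 14) (.e true (nat_lit 2) (nat_lit 331) (nat_lit 1) (nat_lit 14) (.e true (nat_lit 3) (nat_lit 332) (nat_lit 1) (nat_lit 14) (.e false (nat_lit 1) (nat_lit 334) (nat_lit 1) (nat_lit 14) (.e false (nat_lit 1) (nat_lit 335) (nat_lit 1) (nat_lit 14) (.e false (nat_lit 1) (nat_lit 336) (nat_lit 1) (nat_lit 14) (.e false (nat_lit 1) (nat_lit 337) (nat_lit 1) (nat_lit 14) (.e true (nat_lit 3) (nat_lit 338) (nat_lit 1) (nat_lit 14) (.e true (nat_lit 1) (nat_lit 339) (nat_lit 1) (nat_lit 14) (.e true (nat_lit 1) (nat_lit 340) (nat_lit 1) (nat_lit 14) (.e true (nat_lit 1) (nat_lit 342) (nat_lit 1) (nat_lit 14) (.e false (nat_lit 1) (nat_lit 343) (nat_lit 1) (nat_lit 14) (.e false (nat_lit 1) (nat_lit 344) (nat_lit 1) (nat_lit 14) (.e false (nat_lit 1) (nat_lit 345) (nat_lit 1) (nat_lit 14) (.u (nat_lit 2) (.n (nat_lit 0) (nat_lit 1) (.p (nat_lit 2) (nat_lit 1) (.p (nat_lit 7) (nat_lit 1) (.n (nat_lit 8) (nat_lit 2) (.p (nat_lit 13) (nat_lit 1) (.p (nat_lit 15) (nat_lit 1) (.n (nat_lit 17) (nat_lit 2) (.p (nat_lit 19) (nat_lit 1) .z)))))))) .nil))))))))))))))))))))) .leaf))) (nat_lit 40998) (nat_lit 1550) (.p (nat_lit 460) (nat_lit 3) (.n (nat_lit 461) (nat_lit 2) (.n (nat_lit 464) (nat_lit 1) (.n (nat_lit 465) (nat_lit 2) (.n (nat_lit 467) (nat_lit 1) (.p (nat_lit 468) (nat_lit 2) (.p (nat_lit 470) (nat_lit 3) (.n (nat_lit 472) (nat_lit 2) (.n (nat_lit 473) (nat_lit 3) (.n (nat_lit 474) (nat_lit 1) (.p (nat_lit 475) (nat_lit 3) (.n (nat_lit 476) (nat_lit 3) (.n (nat_lit 477) (nat_lit 3) (.p (nat_lit 478) (nat_lit 3) (.p (nat_lit 479) (nat_lit 2) (.n (nat_lit 480) (nat_lit 2) (.n (nat_lit 481) (nat_lit 1) (.n (nat_lit 482) (nat_lit 3) (.n (nat_lit 485) (nat_lit 1) (.p (nat_lit 488) (nat_lit 2) (.p (nat_lit 492) (nat_lit 3) (.p (nat_lit 493) (nat_lit 1) .z)))))))))))))))))))))) (.ct dC1a_c293 (nat_lit 1) (nat_lit 0) (.s false (nat_lit 1) (nat_lit 40) (nat_lit 1) (nat_lit 2) (nat_lit 5) true (nat_lit 6) true (nat_lit 10) false (nat_lit 0) true (nat_lit 14) true (nat_lit 13) (.e false (nat_lit 1) (nat_lit 98) (nat_lit 13) (nat_lit 6) (.e false (nat_lit 1) (nat_lit 186) (nat_lit 5) (nat_lit 10) (.e true (nat_lit 1) (nat_lit 40) (nat_lit 37) (nat_lit 0) (.e false (nat_lit 1) (nat_lit 40) (nat_lit 39) (nat_lit 0) (.e true (nat_lit 2) (nat_lit 328) (nat_lit 1) (nat_lit 14) (.e true (nat_lit 2) (nat_lit 329) (nat_lit 1) (nat_lit 14) (.e true (nat_lit 1) (nat_lit 330) (nat_lit 1) (nat_lit 14) (.e false (nat_lit 2) (nat_lit 331) (nat_lit 1) (nat_lit 14) (.e false (nat_lit 2) (nat_lit 332) (nat_lit 1) (nat_lit 14) (.e true (nat_lit 1) (nat_lit 333) (nat_lit 1) (nat_lit 14) (.e false (nat_lit 3) (nat_lit 334) (nat_lit 1) (nat_lit 14) (.e false (nat_lit 2) (nat_lit 335) (nat_lit 1) (nat_lit 14) (.e false (nat_lit 2) (nat_lit 336) (nat_lit 1) (nat_lit 14) (.e false (nat_lit 1) (nat_lit 337) (nat_lit 1) (nat_lit 14) (.e false (nat_lit 1) (nat_lit 338) (nat_lit 1) (nat_lit 14) (.e false (nat_lit 1) (nat_lit 340) (nat_lit 1) (nat_lit 14) (.e true (nat_lit 1) (nat_lit 342) (nat_lit 1) (nat_lit 14) (.e false (nat_lit 1) (nat_lit 345) (nat_lit 1) (nat_lit 14) (.e false (nat_lit 1) (nat_lit 315) (nat_lit 2) (nat_lit 13) (.u (nat_lit 2) (.n (nat_lit 8) (nat_lit 1) (.n (nat_lit 9) (nat_lit 1) (.n (nat_lit 12) (nat_lit 1) (.p (nat_lit 13) (nat_lit 1) (.p (nat_lit 14) (nat_lit 1) (.p (nat_lit 17) (nat_lit 1) (.n (nat_lit 18) (nat_lit 1) (.p (nat_lit 20) (nat_lit 1) (.p (nat_lit 22) (nat_lit 1) (.n (nat_lit 28) (nat_lit 1) (.n (nat_lit 32) (nat_lit 1) .z))))))))))) .nil)))))))))))))))))))))) (.nd (.nd (.nd (.nd .leaf (nat_lit 40999) (nat_lit 1546) (.p (nat_lit 460) (nat_lit 3) (.n (nat_lit 461) (nat_lit 2) (.n (nat_lit 463) (nat_lit 1) (.n (nat_lit 464) (nat_lit 1) (.p (nat_lit 467) (nat_lit 1) (.p (nat_lit 468) (nat_lit 2) (.p (nat_lit 469) (nat_lit 1) (.n (nat_lit 471) (nat_lit 3) (.n (nat_lit 472) (nat_lit 3) (.n (nat_lit 473) (nat_lit 2) (.p (nat_lit 474) (nat_lit 2) (.n (nat_lit 475) (nat_lit 1) (.n (nat_lit 476) (nat_lit 2) (.p (nat_lit 477) (nat_lit 3) (.n (nat_lit 478) (nat_lit 1) (.p (nat_lit 480) (nat_lit 3) (.n (nat_lit 481) (nat_lit 2) (.p (nat_lit 482) (nat_lit 1) (.n (nat_lit 485) (nat_lit 2) (.n (nat_lit 488) (nat_lit 3) (.p (nat_lit 489) (nat_lit 2) (.n (nat_lit 492) (nat_lit 1) (.p (nat_lit 493) (nat_lit 1) .z))))))))))))))))))))))) (.ct dC1a_c293 (nat_lit 1) (nat_lit 0) (.s false (nat_lit 1) (nat_lit 40) (nat_lit 6) (nat_lit 1) (nat_lit 1) true (nat_lit 4) true (nat_lit 14) false (nat_lit 0) true (nat_lit 9) true (nat_lit 14) (.e true (nat_lit 1) (nat_lit 88) (nat_lit 17) (nat_lit 4) (.e false (nat_lit 1) (nat_lit 343) (nat_lit 1) (nat_lit 14) (.e false (nat_lit 1) (nat_lit 344) (nat_lit 1) (nat_lit 14) (.e false (nat_lit 3) (nat_lit 328) (nat_lit 1) (nat_lit 14) (.e false (nat_lit 2) (nat_lit 329) (nat_lit 1) (nat_lit 14) (.e true (nat_lit 1) (nat_lit 331) (nat_lit 1) (nat_lit 14) (.e true (nat_lit 3) (nat_lit 332) (nat_lit 1) (nat_lit 14) (.e true (nat_lit 2) (nat_lit 333) (nat_lit 1) (nat_lit 14) (.e false (nat_lit 2) (nat_lit 335) (nat_lit 1) (nat_lit 14) (.e false (nat_lit 1) (nat_lit 336) (nat_lit 1) (nat_lit 14) (.e true (nat_lit 1) (nat_lit 338) (nat_lit 1) (nat_lit 14) (.e true (nat_lit 2) (nat_lit 340) (nat_lit 1) (nat_lit 14) (.e false (nat_lit 2) (nat_lit 337) (nat_lit 1) (nat_lit 14) (.e true (nat_lit 1) (nat_lit 345) (nat_lit 1) (nat_lit 14) (.u (nat_lit 2) (.n (nat_lit 0) (nat_lit 1) (.n (nat_lit 10) (nat_lit 1) (.p (nat_lit 11) (nat_lit 1) (.p (nat_lit 12) (nat_lit 1) (.p (nat_lit 13) (nat_lit 1) (.p (nat_lit 15) (nat_lit 1) (.p (nat_lit 16) (nat_lit 1) (.n (nat_lit 17) (nat_lit 1) (.p (nat_lit 205) (nat_lit 1) .z))))))))) .nil))))))))))))))))) .leaf) (nat_lit 41984) (nat_lit 114) (.p (nat_lit 81) (nat_lit 1) .z) .df .leaf) (nat_lit 41985) (nat_lit 138) (.n (nat_lit 82) (nat_lit 2) (.n (nat_lit 83) (nat_lit 2) (.p (nat_lit 84) (nat_lit 1) (.p (nat_lit 85) (nat_lit 1) (.p (nat_lit 86) (nat_lit 1) (.n (nat_lit 87) (nat_lit 2) (.p (nat_lit 88) (nat_lit 1) (.n (nat_lit 89) (nat_lit 1) (.p (nat_lit 90) (nat_lit 1) (.p (nat_lit 92) (nat_lit 1) .z)))))))))) (.ct dC1a_c275 (nat_lit 1) (nat_lit 5) (.s true (nat_lit 1) (nat_lit 6) (nat_lit 1) (nat_lit 2) (nat_lit 0) true (nat_lit 3) true (nat_lit 6) true (nat_lit 0) true (nat_lit 5) true (nat_lit 4) (.e false (nat_lit 1) (nat_lit 18) (nat_lit 3) (nat_lit 3) (.e true (nat_lit 1) (nat_lit 44) (nat_lit 0) (nat_lit 6) (.e false (nat_lit 1) (nat_lit 12) (nat_lit 6) (nat_lit 0) (.e true (nat_lit 1) (nat_lit 42) (nat_lit 1) (nat_lit 5) (.e false (nat_lit 1) (nat_lit 35) (nat_lit 2) (nat_lit 4) .nil))))))) (.nd (.nd .leaf (nat_lit 41986) (nat_lit 149) (.p (nat_lit 99) (nat_lit 1) .z) .df .leaf) (nat_lit 41987) (nat_lit 260) (.n (nat_lit 133) (nat_lit 3) (.p (nat_lit 134) (nat_lit 2) (.n (nat_lit 135) (nat_lit 3) (.p (nat_lit 137) (nat_lit 1) (.n (nat_lit 138) (nat_lit 2) (.n (nat_lit 139) (nat_lit 1) (.n (nat_lit 140) (nat_lit 3) (.n (nat_lit 141) (nat_lit 3) (.p (nat_lit 142) (nat_lit 1) (.n (nat_lit 143) (nat_lit 1) (.n (nat_lit 144) (nat_lit 2) (.p (nat_lit 145) (nat_lit 3) (.n (nat_lit 146) (nat_lit 1) (.p (nat_lit 147) (nat_lit 2) (.n (nat_lit 149) (nat_lit 1) (.p (nat_lit 150) (nat_lit 1) (.n (nat_lit 151) (nat_lit 3) (.n (nat_lit 152) (nat_lit 2) .z)))))))))))))))))) (.ct dC1a_c531 (nat_lit 1) (nat_lit 6) (.s true (nat_lit 1) (nat_lit 6) (nat_lit 0) (nat_lit 2) (nat_lit 3) true (nat_lit 2) true (nat_lit 6) true (nat_lit 3) true (nat_lit 9) true (nat_lit 7) (.e true (nat_lit 1) (nat_lit 18) (nat_lit 7) (nat_lit 2) (.e true (nat_lit 1) (nat_lit 21) (nat_lit 6) (nat_lit 3) (.e false (nat_lit 1) (nat_lit 22) (nat_lit 6) (nat_lit 3) (.e false (nat_lit 1) (nat_lit 23) (nat_lit 6) (nat_lit 3) (.e false (nat_lit 1) (nat_lit 90) (nat_lit 0) (nat_lit 9) (.e true (nat_lit 1) (nat_lit 61) (nat_lit 2) (nat_lit 7) (.e false (nat_lit 1) (nat_lit 64) (nat_lit 2) (nat_lit 7) (.e true (nat_lit 1) (nat_lit 65) (nat_lit 2) (nat_lit 7) (.u (nat_lit 2) (.p (nat_lit 6) (nat_lit 1) (.p (nat_lit 9) (nat_lit 1) (.p (nat_lit 12) (nat_lit 1) (.p (nat_lit 19) (nat_lit 1) (.p (nat_lit 20) (nat_lit 1) (.n (nat_lit 56) (nat_lit 1) .z)))))) .nil))))))))))) .leaf)) (nat_lit 41988) (nat_lit 336) (.p (nat_lit 174) (nat_lit 3) (.p (nat_lit 175) (nat_lit 1) (.n (nat_lit 177) (nat_lit 1) (.p (nat_lit 178) (nat_lit 1) (.n (nat_lit 179) (nat_lit 2) .z))))) (.ct dC1a_c516 (nat_lit 1) (nat_lit 3) (.s true (nat_lit 1) (nat_lit 15) (nat_lit 2) (nat_lit 2) (nat_lit 0) true (nat_lit 3) true (nat_lit 5) true (nat_lit 0) true (nat_lit 4) true (nat_lit 4) (.a false (nat_lit 3) (nat_lit 15) (nat_lit 15) (nat_lit 0) (nat_lit 0) (.e true (nat_lit 1) (nat_lit 99) (nat_lit 0) (nat_lit 5) (.e true (nat_lit 2) (nat_lit 77) (nat_lit 2) (nat_lit 4) (.e true (nat_lit 2) (nat_lit 78) (nat_lit 2) (nat_lit 4) (.e false (nat_lit 2) (nat_lit 79) (nat_lit 2) (nat_lit 4) (.e false (nat_lit 1) (nat_lit 81) (nat_lit 2) (nat_lit 4) (.u (nat_lit 2) (.n (nat_lit 0) (nat_lit 1) (.p (nat_lit 2) (nat_lit 1) (.p (nat_lit 5) (nat_lit 1) (.n (nat_lit 9) (nat_lit 1) .z)))) .nil))))))))) (.nd (.nd (.nd .leaf (nat_lit 41989) (nat_lit 369) (.n (nat_lit 180) (nat_lit 3) (.p (nat_lit 181) (nat_lit 3) (.n (nat_lit 183) (nat_lit 3) (.p (nat_lit 184) (nat_lit 3) (.n (nat_lit 185) (nat_lit 3) (.n (nat_lit 186) (nat_lit 1) (.n (nat_lit 188) (nat_lit 1) (.p (nat_lit 189) (nat_lit 2) (.p (nat_lit 191) (nat_lit 1) (.p (nat_lit 193) (nat_lit 1) (.n (nat_lit 194) (nat_lit 1) (.p (nat_lit 195) (nat_lit 1) .z)))))))))))) (.ct dC1a_c276 (nat_lit 1) (nat_lit 3) (.s false (nat_lit 1) (nat_lit 6) (nat_lit 1) (nat_lit 4) (nat_lit 2) true (nat_lit 3) true (nat_lit 6) true (nat_lit 2) true (nat_lit 7) true (nat_lit 4) (.e true (nat_lit 1) (nat_lit 42) (nat_lit 5) (nat_lit 3) (.e false (nat_lit 2) (nat_lit 82) (nat_lit 2) (nat_lit 6) (.e false (nat_lit 3) (nat_lit 83) (nat_lit 2) (nat_lit 6) (.e true (nat_lit 2) (nat_lit 86) (nat_lit 2) (nat_lit 6) (.e false (nat_lit 3) (nat_lit 87) (nat_lit 2) (nat_lit 6) (.e true (nat_lit 1) (nat_lit 88) (nat_lit 2) (nat_lit 6) (.e false (nat_lit 1) (nat_lit 89) (nat_lit 2) (nat_lit 6) (.e true (nat_lit 1) (nat_lit 92) (nat_lit 2) (nat_lit 6) (.e true (nat_lit 1) (nat_lit 32) (nat_lit 6) (nat_lit 2) (.e false (nat_lit 1) (nat_lit 101) (nat_lit 1) (nat_lit 7) (.e false (nat_lit 1) (nat_lit 45) (nat_lit 4) (nat_lit 4) (.u (nat_lit 2) (.p (nat_lit 0) (nat_lit 1) (.p (nat_lit 1) (nat_lit 1) (.p (nat_lit 3) (nat_lit 1) (.n (nat_lit 4) (nat_lit 1) (.p (nat_lit 5) (nat_lit 1) .z))))) .nil)))))))))))))) .leaf) (nat_lit 41990) (nat_lit 402) (.p (nat_lit 203) (nat_lit 2) (.p (nat_lit 204) (nat_lit 2) (.n (nat_lit 206) (nat_lit 1) .z))) (.ct dC1a_c261 (nat_lit 1) (nat_lit 1) (.s false (nat_lit 1) (nat_lit 6) (nat_lit 0) (nat_lit 6) (nat_lit 2) true (nat_lit 2) true (nat_lit 3) true (nat_lit 1) true (nat_lit 4) true (nat_lit 1) (.e false (nat_lit 2) (nat_lit 99) (nat_lit 2) (nat_lit 3) (.e false (nat_lit 2) (nat_lit 100) (nat_lit 2) (nat_lit 3) (.e true (nat_lit 1) (nat_lit 42) (nat_lit 6) (nat_lit 1) .nil))))) .leaf) (nat_lit 41992) (nat_lit 500) (.n (nat_lit 212) (nat_lit 3) (.p (nat_lit 213) (nat_lit 3) (.n (nat_lit 214) (nat_lit 1) (.p (nat_lit 216) (nat_lit 3) (.p (nat_lit 217) (nat_lit 3) (.p (nat_lit 218) (nat_lit 2) (.n (nat_lit 220) (nat_lit 3) (.n (nat_lit 221) (nat_lit 2) (.n (nat_lit 222) (nat_lit 3) (.p (nat_lit 223) (nat_lit 3) (.p (nat_lit 225) (nat_lit 3) (.n (nat_lit 226) (nat_lit 2) (.p (nat_lit 228) (nat_lit 2) (.p (nat_lit 229) (nat_lit 3) (.n (nat_lit 230) (nat_lit 2) (.n (nat_lit 231) (nat_lit 3) (.p (nat_lit 232) (nat_lit 1) (.n (nat_lit 233) (nat_lit 3) (.n (nat_lit 234) (nat_lit 3) (.n (nat_lit 235) (nat_lit 2) (.n (nat_lit 236) (nat_lit 2) (.p (nat_lit 237) (nat_lit 1) (.n (nat_lit 238) (nat_lit 3) (.p (nat_lit 239) (nat_lit 2) (.n (nat_lit 240) (nat_lit 2) (.p (nat_lit 241) (nat_lit 3) (.n (nat_lit 242) (nat_lit 3) (.p (nat_lit 243) (nat_lit 2) (.p (nat_lit 244) (nat_lit 1) (.n (nat_lit 246) (nat_lit 3) (.n (nat_lit 248) (nat_lit 1) .z))))))))))))))))))))))))))))))) (.ct dC1a_c547 (nat_lit 1) (nat_lit 6) (.s false (nat_lit 1) (nat_lit 8) (nat_lit 0) (nat_lit 6) (nat_lit 2) true (nat_lit 10) true (nat_lit 12) true (nat_lit 6) true (nat_lit 14) true (nat_lit 8) (.e false (nat_lit 1) (nat_lit 74) (nat_lit 4) (nat_lit 10) (.e false (nat_lit 1) (nat_lit 129) (nat_lit 2) (nat_lit 12) (.e false (nat_lit 1) (nat_lit 161) (nat_lit 0) (nat_lit 14) (.e true (nat_lit 1) (nat_lit 170) (nat_lit 0) (nat_lit 14) (.e true (nat_lit 1) (nat_lit 52) (nat_lit 6) (nat_lit 8) (.u (nat_lit 2) (.p (nat_lit 0) (nat_lit 1) (.n (nat_lit 4) (nat_lit 1) (.n (nat_lit 7) (nat_lit 1) (.p (nat_lit 15) (nat_lit 1) (.n (nat_lit 17) (nat_lit 1) (.p (nat_lit 18) (nat_lit 1) (.p (nat_lit 20) (nat_lit 1) (.p (nat_lit 24) (nat_lit 1) (.p (nat_lit 26) (nat_lit 1) (.p (nat_lit 28) (nat_lit 1) .z)))))))))) .nil)))))))) (.nd (.nd .leaf (nat_lit 41994) (nat_lit 623) (.n (nat_lit 260) (nat_lit 2) (.p (nat_lit 263) (nat_lit 3) (.n (nat_lit 264) (nat_lit 2) (.n (nat_lit 265) (nat_lit 3) (.n (nat_lit 266) (nat_lit 1) (.p (nat_lit 267) (nat_lit 1) (.n (nat_lit 268) (nat_lit 2) (.p (nat_lit 269) (nat_lit 3) (.n (nat_lit 270) (nat_lit 2) (.p (nat_lit 271) (nat_lit 2) (.n (nat_lit 272) (nat_lit 2) (.p (nat_lit 273) (nat_lit 1) (.p (nat_lit 275) (nat_lit 2) (.p (nat_lit 277) (nat_lit 2) (.p (nat_lit 278) (nat_lit 2) (.p (nat_lit 279) (nat_lit 3) (.n (nat_lit 280) (nat_lit 1) (.n (nat_lit 281) (nat_lit 1) (.n (nat_lit 283) (nat_lit 2) (.p (nat_lit 286) (nat_lit 1) (.p (nat_lit 287) (nat_lit 1) (.n (nat_lit 288) (nat_lit 2) (.p (nat_lit 289) (nat_lit 1) .z))))))))))))))))))))))) (.ct dC1a_c532 (nat_lit 1) (nat_lit 3) (.s true (nat_lit 1) (nat_lit 10) (nat_lit 0) (nat_lit 6) (nat_lit 2) true (nat_lit 8) true (nat_lit 10) true (nat_lit 3) true (nat_lit 12) true (nat_lit 6) (.e true (nat_lit 1) (nat_lit 90) (nat_lit 4) (nat_lit 8) (.e true (nat_lit 1) (nat_lit 151) (nat_lit 2) (nat_lit 10) (.e true (nat_lit 1) (nat_lit 188) (nat_lit 0) (nat_lit 12) (.e false (nat_lit 1) (nat_lit 192) (nat_lit 0) (nat_lit 12) (.e false (nat_lit 1) (nat_lit 62) (nat_lit 6) (nat_lit 6) (.u (nat_lit 2) (.p (nat_lit 0) (nat_lit 1) (.p (nat_lit 4) (nat_lit 1) (.p (nat_lit 5) (nat_lit 1) (.p (nat_lit 10) (nat_lit 1) (.n (nat_lit 19) (nat_lit 1) (.p (nat_lit 20) (nat_lit 1) .z)))))) .nil)))))))) .leaf) (nat_lit 41995) (nat_lit 648) (.n (nat_lit 262) (nat_lit 2) (.p (nat_lit 263) (nat_lit 1) (.n (nat_lit 264) (nat_lit 3) (.p (nat_lit 265) (nat_lit 3) (.p (nat_lit 268) (nat_lit 3) (.n (nat_lit 270) (nat_lit 1) (.p (nat_lit 271) (nat_lit 1) (.p (nat_lit 272) (nat_lit 2) (.p (nat_lit 273) (nat_lit 3) (.n (nat_lit 274) (nat_lit 2) (.p (nat_lit 276) (nat_lit 2) (.n (nat_lit 277) (nat_lit 3) (.n (nat_lit 284) (nat_lit 2) (.p (nat_lit 286) (nat_lit 2) (.n (nat_lit 287) (nat_lit 2) .z))))))))))))))) (.ct dC1a_c532 (nat_lit 1) (nat_lit 3) (.s true (nat_lit 1) (nat_lit 11) (nat_lit 0) (nat_lit 6) (nat_lit 2) true (nat_lit 8) true (nat_lit 10) true (nat_lit 3) true (nat_lit 12) true (nat_lit 6) (.e true (nat_lit 1) (nat_lit 91) (nat_lit 4) (nat_lit 8) (.e true (nat_lit 1) (nat_lit 149) (nat_lit 2) (nat_lit 10) (.e true (nat_lit 1) (nat_lit 150) (nat_lit 2) (nat_lit 10) (.e false (nat_lit 1) (nat_lit 151) (nat_lit 2) (nat_lit 10) (.e true (nat_lit 1) (nat_lit 189) (nat_lit 0) (nat_lit 12) (.e false (nat_lit 1) (nat_lit 193) (nat_lit 0) (nat_lit 12) (.e false (nat_lit 1) (nat_lit 63) (nat_lit 6) (nat_lit 6) (.u (nat_lit 2) (.n (nat_lit 0) (nat_lit 1) (.n (nat_lit 3) (nat_lit 1) (.p (nat_lit 4) (nat_lit 1) (.n (nat_lit 5) (nat_lit 1) (.n (nat_lit 8) (nat_lit 1) (.n (nat_lit 12) (nat_lit 1) (.n (nat_lit 13) (nat_lit 1) (.p (nat_lit 17) (nat_lit 1) (.p (nat_lit 19) (nat_lit 1) .z))))))))) .nil)))))))))) .leaf))))))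

noncomputable def dC1a_t5 : Tr := (.nd dC1a_t3 (nat_lit 35850) (nat_lit 543) (.p (nat_lit 212) (nat_lit 2) (.n (nat_lit 213) (nat_lit 3) (.n (nat_lit 214) (nat_lit 3) (.n (nat_lit 215) (nat_lit 3) (.p (nat_lit 216) (nat_lit 2) (.n (nat_lit 217) (nat_lit 3) (.n (nat_lit 218) (nat_lit 3) (.p (nat_lit 219) (nat_lit 3) (.p (nat_lit 220) (nat_lit 2) (.n (nat_lit 221) (nat_lit 3) (.p (nat_lit 222) (nat_lit 2) (.p (nat_lit 223) (nat_lit 2) (.n (nat_lit 224) (nat_lit 3) (.p (nat_lit 226) (nat_lit 3) (.n (nat_lit 227) (nat_lit 2) (.n (nat_lit 228) (nat_lit 1) (.n (nat_lit 229) (nat_lit 3) (.p (nat_lit 230) (nat_lit 2) (.p (nat_lit 231) (nat_lit 3) (.p (nat_lit 232) (nat_lit 2) (.n (nat_lit 234) (nat_lit 1) (.n (nat_lit 235) (nat_lit 3) (.n (nat_lit 237) (nat_lit 1) (.n (nat_lit 238) (nat_lit 3) (.p (nat_lit 239) (nat_lit 3) (.p (nat_lit 240) (nat_lit 3) (.n (nat_lit 241) (nat_lit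 2) (.p (nat_lit 242) (nat_lit 1) (.n (nat_lit 243) (nat_lit 2) (.p (nat_lit 244) (nat_lit 2) (.p (nat_lit 245) (nat_lit 2) (.n (nat_lit 246) (nat_lit 2) (.p (nat_lit 248) (nat_lit 2) (.p (nat_lit 249) (nat_lit 1) (.n (nat_lit 250) (nat_lit 2) (.n (nat_lit 251) (nat_lit 1) (.p (nat_lit 252) (nat_lit 2) (.n (nat_lit 253) (nat_lit 2) (.p (nat_lit 258) (nat_lit 1) .z))))))))))))))))))))))))))))))))))))))) (.ct dC1a_c547 (nat_lit 1) (nat_lit 4) (.s false (nat_lit 1) (nat_lit 10) (nat_lit 0) (nat_lit 6) (nat_lit 1) true (nat_lit 11) true (nat_lit 13) true (nat_lit 4) true (nat_lit 14) true (nat_lit 8) (.e false (nat_lit 1) (nat_lit 90) (nat_lit 3) (nat_lit 11) (.e false (nat_lit 1) (nat_lit 151) (nat_lit 1) (nat_lit 13) (.e false (nat_lit 2) (nat_lit 154) (nat_lit 0) (nat_lit 14) (.e false (nat_lit 2) (nat_lit 157) (nat_lit 0) (nat_lit 14) (.e true (nat_lit 2) (nat_lit 162)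 (nat_lit 0) (nat_lit 14) (.e true (nat_lit 1) (nat_lit 167) (nat_lit 0) (nat_lit 14) (.e true (nat_lit 1) (nat_lit 171) (nat_lit 0) (nat_lit 14) (.e true (nat_lit 1) (nat_lit 53) (nat_lit 6) (nat_lit 8) (.u (nat_lit 2) (.n (nat_lit 2) (nat_lit 1) (.p (nat_lit 3) (nat_lit 1) (.p (nat_lit 5) (nat_lit 1) (.p (nat_lit 6) (nat_lit 1) (.n (nat_lit 7) (nat_lit 1) (.n (nat_lit 8) (nat_lit 1) (.p (nat_lit 9) (nat_lit 1) (.p (nat_lit 10) (nat_lit 1) (.p (nat_lit 11) (nat_lit 1) (.p (nat_lit 15) (nat_lit 1) (.p (nat_lit 17) (nat_lit 1) (.p (nat_lit 23) (nat_lit 1) (.n (nat_lit 25) (nat_lit 1) (.n (nat_lit 27) (nat_lit 1) (.n (nat_lit 28) (nat_lit 1) (.p (nat_lit 29) (nat_lit 1) (.n (nat_lit 32) (nat_lit 1) .z))))))))))))))))) .nil))))))))))) dC1a_t4)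

noncomputable def dC1a_t6 : Tr := (.nd dC1a_t2 (nat_lit 27654) (nat_lit 297) (.p (nat_lit 153) (nat_lit 2) (.p (nat_lit 154) (nat_lit 2) (.n (nat_lit 155) (nat_lit 1) (.p (nat_lit 156) (nat_lit 1) (.p (nat_lit 157) (nat_lit 1) (.p (nat_lit 162) (nat_lit 1) (.n (nat_lit 167) (nat_lit 1) (.n (nat_lit 170) (nat_lit 2) (.p (nat_lit 172) (nat_lit 1) (.p (nat_lit 173) (nat_lit 1) .z)))))))))) (.ct dC1a_c291 (nat_lit 1) (nat_lit 3) (.s false (nat_lit 1) (nat_lit 6) (nat_lit 1) (nat_lit 2) (nat_lit 3) true (nat_lit 2) true (nat_lit 6) true (nat_lit 3) true (nat_lit 8) true (nat_lit 7) (.e false (nat_lit 1) (nat_lit 18) (nat_lit 8) (nat_lit 2) (.e false (nat_lit 1) (nat_lit 44) (nat_lit 3) (nat_lit 6) (.e true (nat_lit 1) (nat_lit 24) (nat_lit 6) (nat_lit 3) (.e false (nat_lit 1) (nat_lit 26) (nat_lit 6) (nat_lit 3) (.e true (nat_lit 1) (nat_lit 90) (nat_lit 1) (nat_lit 8)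 (.e false (nat_lit 2) (nat_lit 67) (nat_lit 2) (nat_lit 7) (.e false (nat_lit 1) (nat_lit 75) (nat_lit 2) (nat_lit 7) (.e false (nat_lit 2) (nat_lit 66) (nat_lit 2) (nat_lit 7) (.e true (nat_lit 1) (nat_lit 68) (nat_lit 2) (nat_lit 7) (.e false (nat_lit 1) (nat_lit 69) (nat_lit 2) (nat_lit 7) (.e false (nat_lit 1) (nat_lit 70) (nat_lit 2) (nat_lit 7) (.e true (nat_lit 1) (nat_lit 74) (nat_lit 2) (nat_lit 7) .nil)))))))))))))) dC1a_t5)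

end Pool.Agent.MalP.Chk7
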