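import Pool.Agent.MalP.P7.ChkDef

/-! # Data for the certificate of zC1Ex -/

set_option autoImplicit false
set_option maxRecDepth 100000

namespace Pool.Agent.MalP.Chk7

noncomputable def dC1b_c292 : Cm := .mk (nat_lit 682) (nat_lit 292) (nat_lit 290) (nat_lit 30) (.c (nat_lit 24) (nat_lit 4) (nat_lit 18) (nat_lit 1) (nat_lit 30) (.c (nat_lit 31) (nat_lit 6) (nat_lit 16) (nat_lit 2) (nat_lit 34) (.c (nat_lit 37) (nat_lit 3) (nat_lit 14) (nat_lit 2) (nat_lit 46) (.c (nat_lit 40) (nat_lit 3) (nat_lit 13) (nat_lit 1) (nat_lit 52) (.c (nat_lit 43) (nat_lit 3) (nat_lit 10) (nat_lit 3) (nat_lit 55) (.c (nat_lit 46) (nat_lit 1) (nat_lit 8) (nat_lit 1) (nat_lit 64) (.c (nat_lit 66) (nat_lit 11) (nat_lit 6) (nat_lit 1) (nat_lit 65) (.c (nat_lit 82) (nat_lit 11) (nat_lit 5) (nat_lit 1) (nat_lit 76) (.c (nat_lit 93) (nat_lit 5) (nat_lit 4) (nat_lit 1) (nat_lit 87) (.c (nat_lit 102)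 (nat_lit 4) (nat_lit 3) (nat_lit 1) (nat_lit 92) (.c (nat_lit 153) (nat_lit 21) (nat_lit 2) (nat_lit 1) (nat_lit 96) (.c (nat_lit 180) (nat_lit 16) (nat_lit 1) (nat_lit 1) (nat_lit 117) (.c (nat_lit 196) (nat_lit 6) (nat_lit 0) (nat_lit 1) (nat_lit 133) (.c (nat_lit 2032) (nat_lit 0) (nat_lit 98) (nat_lit 4) (nat_lit 139) .nil))))))))))))))

noncomputable def dC1b_c517 : Cm := .mk (nat_lit 791) (nat_lit 517) (nat_lit 320) (nat_lit 8) (.c (nat_lit 28) (nat_lit 3) (nat_lit 18) (nat_lit 1) (nat_lit 8) (.c (nat_lit 40) (nat_lit 3) (nat_lit 14) (nat_lit 2) (nat_lit 11) (.c (nat_lit 46) (nat_lit 1) (nat_lit 9) (nat_lit 1) (nat_lit 17) (.c (nat_lit 77) (nat_lit 5) (nat_lit 6) (nat_lit 1) (nat_lit 18) (.c (nat_lit 98) (nat_lit 4) (nat_lit 4) (nat_lit 1) (nat_lit 23) (.c (nat_lit 174) (nat_lit 6) (nat_lit 2) (nat_lit 1) (nat_lit 27) (.c (nat_lit 202) (nat_lit 5) (nat_lit 0) (nat_lit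 1) (nat_lit 33) (.c (nat_lit 2512) (nat_lit 0) (nat_lit 106) (nat_lit 1) (nat_lit 38) .nil))))))))

noncomputable def dC1b_c277 : Cm := .mk (nat_lit 821) (nat_lit 277) (nat_lit 328) (nat_lit 19) (.c (nat_lit 31) (nat_lit 6) (nat_lit 18) (nat_lit 1) (nat_lit 19) (.c (nat_lit 40) (nat_lit 3) (nat_lit 16) (nat_lit 2) (nat_lit 25) (.c (nat_lit 43) (nat_lit 3) (nat_lit 14) (nat_lit 2) (nat_lit 31) (.c (nat_lit 46) (nat_lit 1) (nat_lit 10) (nat_lit 3) (nat_lit 37) (.c (nat_lit 82) (nat_lit 11) (nat_lit 6) (nat_lit 1) (nat_lit 40) (.c (nat_lit 98) (nat_lit 4) (nat_lit 5) (nat_lit 1) (nat_lit 51) (.c (nat_lit 102) (nat_lit 4) (nat_lit 4) (nat_lit 1) (nat_lit 55) (.c (nat_lit 106) (nat_lit 1) (nat_lit 3) (nat_lit 1) (nat_lit 59) (.c (nat_lit 180) (nat_lit 16) (nat_lit 2) (nat_lit 1) (nat_lit 60) (.c (nat_lit 202) (nat_lit 5) (nat_lit 1) (nat_lit 1) (nat_lit 76) (.c (nat_lit 207)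 (nat_lit 5) (nat_lit 0) (nat_lit 1) (nat_lit 81) .nil)))))))))))

noncomputable def dC1b_i0 : IL := (.e false (nat_lit 1) (nat_lit 219) (nat_lit 2) (nat_lit 17) (.e true (nat_lit 2) (nat_lit 220) (nat_lit 2) (nat_lit 17) (.e false (nat_lit 1) (nat_lit 221) (nat_lit 2) (nat_lit 17) (.e true (nat_lit 1) (nat_lit 222) (nat_lit 2) (nat_lit 17) (.e false (nat_lit 1) (nat_lit 223) (nat_lit 2) (nat_lit 17) (.e true (nat_lit 3) (nat_lit 229) (nat_lit 2) (nat_lit 17) (.e true (nat_lit 1) (nat_lit 230) (nat_lit 2) (nat_lit 17) (.e false (nat_lit 3) (nat_lit 231) (nat_lit 2) (nat_lit 17) (.e false (nat_lit 2) (nat_lit 232) (nat_lit 2) (nat_lit 17) (.e true (nat_lit 2) (nat_lit 233) (nat_lit 2) (nat_lit 17) (.e false (nat_lit 1) (nat_lit 234) (nat_lit 2) (nat_lit 17) (.e false (nat_lit 2) (nat_lit 235) (nat_lit 2) (nat_lit 17) (.e true (nat_lit 1) (nat_lit 236) (nat_lit 2) (nat_lit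 17) (.e true (nat_lit 3) (nat_lit 237) (nat_lit 2) (nat_lit 17) (.e true (nat_lit 2) (nat_lit 241) (nat_lit 2) (nat_lit 17) (.e true (nat_lit 2) (nat_lit 242) (nat_lit 2) (nat_lit 17) (.e false (nat_lit 2) (nat_lit 244) (nat_lit 2) (nat_lit 17) (.e false (nat_lit 2) (nat_lit 245) (nat_lit 2) (nat_lit 17) (.e true (nat_lit 1) (nat_lit 248) (nat_lit 2) (nat_lit 17) (.e false (nat_lit 3) (nat_lit 253) (nat_lit 2) (nat_lit 17) (.e true (nat_lit 3) (nat_lit 225) (nat_lit 2) (nat_lit 17) (.e true (nat_lit 2) (nat_lit 228) (nat_lit 2) (nat_lit 17) (.e false (nat_lit 3) (nat_lit 246) (nat_lit 2) (nat_lit 17) (.u (nat_lit 2) (.p (nat_lit 0) (nat_lit 2) (.p (nat_lit 2) (nat_lit 3) (.p (nat_lit 3) (nat_lit 3) (.p (nat_lit 4) (nat_lit 1) (.p (nat_lit 5) (nat_lit 4) (.p (nat_lit 6) (nat_lit 1) (.p (nat_lit 7) (nat_lit 1) (.p (nat_lit 8) (nat_lit 3) (.n (nat_lit 9) (nat_lit 3) (.n (nat_lit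 10) (nat_lit 4) (.n (nat_lit 11) (nat_lit 1) (.p (nat_lit 12) (nat_lit 3) (.n (nat_lit 14) (nat_lit 5) (.p (nat_lit 15) (nat_lit 6) (.p (nat_lit 17) (nat_lit 5) (.p (nat_lit 18) (nat_lit 4) (.n (nat_lit 19) (nat_lit 2) (.p (nat_lit 24) (nat_lit 1) (.p (nat_lit 25) (nat_lit 1) (.n (nat_lit 26) (nat_lit 1) (.p (nat_lit 27) (nat_lit 1) (.n (nat_lit 28) (nat_lit 1) (.n (nat_lit 29) (nat_lit 1) (.p (nat_lit 30) (nat_lit 1) (.n (nat_lit 31) (nat_lit 2) (.n (nat_lit 32) (nat_lit 1) (.p (nat_lit 33) (nat_lit 1) (.p (nat_lit 34) (nat_lit 2) (.p (nat_lit 35) (nat_lit 5) (.p (nat_lit 36) (nat_lit 5) (.p (nat_lit 38) (nat_lit 1) (.n (nat_lit 39) (nat_lit 3) (.p (nat_lit 40) (nat_lit 1) (.p (nat_lit 41) (nat_lit 2) (.n (nat_lit 45) (nat_lit 1) (.n (nat_lit 50) (nat_lit 1) (.n (nat_lit 51) (nat_lit 1) (.n (nat_lit 52) (nat_lit 1) (.p (nat_lit 53) (nat_lit 3) (.p (nat_lit 54) (nat_lit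 1) (.n (nat_lit 55) (nat_lit 2) (.p (nat_lit 56) (nat_lit 1) (.n (nat_lit 59) (nat_lit 1) (.n (nat_lit 60) (nat_lit 1) (.n (nat_lit 63) (nat_lit 1) (.p (nat_lit 64) (nat_lit 1) (.n (nat_lit 67) (nat_lit 1) (.n (nat_lit 69) (nat_lit 2) (.n (nat_lit 70) (nat_lit 1) (.n (nat_lit 327) (nat_lit 1) (.n (nat_lit 328) (nat_lit 1) (.p (nat_lit 329) (nat_lit 1) (.n (nat_lit 330) (nat_lit 1) (.p (nat_lit 331) (nat_lit 1) (.p (nat_lit 333) (nat_lit 1) (.p (nat_lit 336) (nat_lit 1) (.n (nat_lit 341) (nat_lit 1) (.n (nat_lit 346) (nat_lit 1) (.n (nat_lit 347) (nat_lit 1) (.n (nat_lit 349) (nat_lit 1) .z)))))))))))))))))))))))))))))))))))))))))))))))))))))))))))) (.u (nat_lit 2) (.n (nat_lit 350) (nat_lit 1) (.n (nat_lit 351) (nat_lit 1) (.n (nat_lit 354) (nat_lit 1) (.p (nat_lit 356) (nat_lit 1) (.p (nat_lit 357) (nat_lit 1) (.n (nat_lit 359) (nat_lit 1) (.p (nat_lit 363) (nat_lit 1)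 (.n (nat_lit 368) (nat_lit 1) .z)))))))) .nil)))))))))))))))))))))))))

noncomputable def dC1b_c548 : Cm := .mk (nat_lit 917) (nat_lit 548) (nat_lit 355) (nat_lit 71) (.c (nat_lit 31) (nat_lit 6) (nat_lit 31) (nat_lit 6) (nat_lit 71) (.c (nat_lit 37) (nat_lit 3) (nat_lit 28) (nat_lit 3) (nat_lit 107) (.c (nat_lit 40) (nat_lit 3) (nat_lit 24) (nat_lit 4) (nat_lit 116) (.c (nat_lit 43) (nat_lit 3) (nat_lit 20) (nat_lit 4) (nat_lit 128) (.c (nat_lit 46) (nat_lit 1) (nat_lit 19) (nat_lit 1) (nat_lit 140) (.c (nat_lit 47) (nat_lit 8) (nat_lit 18) (nat_lit 1) (nat_lit 141) (.c (nat_lit 55) (nat_lit 11) (nat_lit 16) (nat_lit 2) (nat_lit 149) (.c (nat_lit 66) (nat_lit 11) (nat_lit 14) (nat_lit 2) (nat_lit 171) (.c (nat_lit 77) (nat_lit 5) (nat_lit 13) (nat_lit 1) (nat_lit 193) (.c (nat_lit 82) (nat_lit 11) (nat_lit 10) (nat_lit 3) (nat_lit 198) (.c (nat_lit 93) (nat_lit 5) (nat_lit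 9) (nat_lit 1) (nat_lit 231) (.c (nat_lit 98) (nat_lit 4) (nat_lit 8) (nat_lit 1) (nat_lit 236) (.c (nat_lit 102) (nat_lit 4) (nat_lit 7) (nat_lit 1) (nat_lit 240) (.c (nat_lit 107) (nat_lit 25) (nat_lit 6) (nat_lit 1) (nat_lit 244) (.c (nat_lit 132) (nat_lit 21) (nat_lit 5) (nat_lit 1) (nat_lit 269) (.c (nat_lit 153) (nat_lit 21) (nat_lit 4) (nat_lit 1) (nat_lit 290) (.c (nat_lit 180) (nat_lit 16) (nat_lit 3) (nat_lit 1) (nat_lit 311) (.c (nat_lit 212) (nat_lit 48) (nat_lit 2) (nat_lit 1) (nat_lit 327) (.c (nat_lit 260) (nat_lit 30) (nat_lit 1) (nat_lit 1) (nat_lit 375) (.c (nat_lit 290) (nat_lit 30) (nat_lit 0) (nat_lit 1) (nat_lit 405) (.c (nat_lit 2512) (nat_lit 0) (nat_lit 196) (nat_lit 6) (nat_lit 435) (.c (nat_lit 2032) (nat_lit 0) (nat_lit 174) (nat_lit 6) (nat_lit 435) .nil))))))))))))))))))))))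

noncomputable def dC1b_i1 : IL := (.s false (nat_lit 1) (nat_lit 31) (nat_lit 2) (nat_lit 2) (nat_lit 4) true (nat_lit 5) true (nat_lit 11) true (nat_lit 0) true (nat_lit 13) true (nat_lit 13) (.e false (nat_lit 1) (nat_lit 82) (nat_lit 14) (nat_lit 5) (.e false (nat_lit 1) (nat_lit 180) (nat_lit 4) (nat_lit 11) (.e true (nat_lit 1) (nat_lit 42) (nat_lit 31) (nat_lit 0) (.e false (nat_lit 1) (nat_lit 260) (nat_lit 2) (nat_lit 13) (.e false (nat_lit 1) (nat_lit 261) (nat_lit 2) (nat_lit 13) (.e false (nat_lit 3) (nat_lit 262) (nat_lit 2) (nat_lit 13) (.e false (nat_lit 1) (nat_lit 264) (nat_lit 2) (nat_lit 13) (.e false (nat_lit 3) (nat_lit 265) (nat_lit 2) (nat_lit 13) (.e false (nat_lit 2) (nat_lit 266) (nat_lit 2) (nat_lit 13) (.e false (nat_lit 2) (nat_lit 267) (nat_lit 2) (nat_lit 13) (.e true (nat_lit 1) (nat_lit 270) (nat_lit 2) (nat_lit 13) (.e true (nat_lit 2)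 (nat_lit 271) (nat_lit 2) (nat_lit 13) (.e false (nat_lit 3) (nat_lit 272) (nat_lit 2) (nat_lit 13) (.e true (nat_lit 2) (nat_lit 273) (nat_lit 2) (nat_lit 13) (.e false (nat_lit 2) (nat_lit 274) (nat_lit 2) (nat_lit 13) (.e true (nat_lit 2) (nat_lit 278) (nat_lit 2) (nat_lit 13) (.e true (nat_lit 1) (nat_lit 279) (nat_lit 2) (nat_lit 13) (.e false (nat_lit 1) (nat_lit 280) (nat_lit 2) (nat_lit 13) (.e true (nat_lit 1) (nat_lit 283) (nat_lit 2) (nat_lit 13) (.e true (nat_lit 1) (nat_lit 288) (nat_lit 2) (nat_lit 13) (.e false (nat_lit 3) (nat_lit 263) (nat_lit 2) (nat_lit 13) (.e true (nat_lit 1) (nat_lit 275) (nat_lit 2) (nat_lit 13) (.e true (nat_lit 1) (nat_lit 277) (nat_lit 2) (nat_lit 13) (.u (nat_lit 2) (.p (nat_lit 0) (nat_lit 3) (.n (nat_lit 1) (nat_lit 1) (.n (nat_lit 2) (nat_lit 2) (.p (nat_lit 3) (nat_lit 3) (.p (nat_lit 4) (nat_lit 3) (.n (nat_lit 5) (nat_lit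 1) (.n (nat_lit 6) (nat_lit 4) (.n (nat_lit 7) (nat_lit 4) (.n (nat_lit 8) (nat_lit 2) (.n (nat_lit 9) (nat_lit 2) (.n (nat_lit 10) (nat_lit 1) (.n (nat_lit 13) (nat_lit 1) (.n (nat_lit 15) (nat_lit 4) (.p (nat_lit 16) (nat_lit 1) (.n (nat_lit 18) (nat_lit 2) (.p (nat_lit 19) (nat_lit 2) (.n (nat_lit 20) (nat_lit 1) (.n (nat_lit 22) (nat_lit 1) (.p (nat_lit 24) (nat_lit 1) (.n (nat_lit 26) (nat_lit 1) (.n (nat_lit 27) (nat_lit 1) (.n (nat_lit 30) (nat_lit 1) (.n (nat_lit 175) (nat_lit 1) (.n (nat_lit 177) (nat_lit 1) (.n (nat_lit 178) (nat_lit 1) (.n (nat_lit 180) (nat_lit 1) (.n (nat_lit 185) (nat_lit 1) (.n (nat_lit 193) (nat_lit 1) .z)))))))))))))))))))))))))))) .nil)))))))))))))))))))))))))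

noncomputable def dC1b_c533 : Cm := .mk (nat_lit 1215) (nat_lit 533) (nat_lit 426) (nat_lit 34) (.c (nat_lit 40) (nat_lit 3) (nat_lit 31) (nat_lit 6) (nat_lit 34) (.c (nat_lit 43) (nat_lit 3) (nat_lit 28) (nat_lit 3) (nat_lit 52) (.c (nat_lit 46) (nat_lit 1) (nat_lit 20) (nat_lit 4) (nat_lit 61) (.c (nat_lit 55) (nat_lit 11) (nat_lit 18) (nat_lit 1) (nat_lit 65) (.c (nat_lit 77) (nat_lit 5) (nat_lit 16) (nat_lit 2) (nat_lit 76) (.c (nat_lit 82) (nat_lit 11) (nat_lit 14) (nat_lit 2) (nat_lit 86) (.c (nat_lit 98) (nat_lit 4) (nat_lit 10) (nat_lit 3) (nat_lit 108) (.c (nat_lit 102) (nat_lit 4) (nat_lit 9) (nat_lit 1) (nat_lit 120) (.c (nat_lit 106) (nat_lit 1) (nat_lit 7) (nat_lit 1) (nat_lit 124) (.c (nat_lit 132) (nat_lit 21) (nat_lit 6) (nat_lit 1) (nat_lit 125) (.c (nat_lit 174) (nat_lit 6) (nat_lit 5) (nat_lit 1) (nat_lit 146) (.c (nat_lit 180) (nat_lit 16) (nat_lit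 4) (nat_lit 1) (nat_lit 152) (.c (nat_lit 202) (nat_lit 5) (nat_lit 3) (nat_lit 1) (nat_lit 168) (.c (nat_lit 260) (nat_lit 30) (nat_lit 2) (nat_lit 1) (nat_lit 173) (.c (nat_lit 320) (nat_lit 8) (nat_lit 1) (nat_lit 1) (nat_lit 203) (.c (nat_lit 328) (nat_lit 19) (nat_lit 0) (nat_lit 1) (nat_lit 211) (.c (nat_lit 2512) (nat_lit 0) (nat_lit 207) (nat_lit 5) (nat_lit 230) .nil)))))))))))))))))

noncomputable def dC1b_i2 : IL := (.e true (nat_lit 1) (nat_lit 42) (nat_lit 35) (nat_lit 0) (.e false (nat_lit 2) (nat_lit 260) (nat_lit 2) (nat_lit 13) (.e true (nat_lit 2) (nat_lit 261) (nat_lit 2) (nat_lit 13) (.e false (nat_lit 2) (nat_lit 263) (nat_lit 2) (nat_lit 13) (.e true (nat_lit 3) (nat_lit 264) (nat_lit 2) (nat_lit 13) (.e false (nat_lit 2) (nat_lit 266) (nat_lit 2) (nat_lit 13) (.e false (nat_lit 1) (nat_lit 267) (nat_lit 2) (nat_lit 13) (.e true (nat_lit 2) (nat_lit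 269) (nat_lit 2) (nat_lit 13) (.e false (nat_lit 1) (nat_lit 270) (nat_lit 2) (nat_lit 13) (.e true (nat_lit 3) (nat_lit 271) (nat_lit 2) (nat_lit 13) (.e true (nat_lit 1) (nat_lit 272) (nat_lit 2) (nat_lit 13) (.e false (nat_lit 2) (nat_lit 273) (nat_lit 2) (nat_lit 13) (.e false (nat_lit 3) (nat_lit 274) (nat_lit 2) (nat_lit 13) (.e false (nat_lit 2) (nat_lit 277) (nat_lit 2) (nat_lit 13) (.e false (nat_lit 2) (nat_lit 278) (nat_lit 2) (nat_lit 13) (.e false (nat_lit 3) (nat_lit 279) (nat_lit 2) (nat_lit 13) (.e true (nat_lit 2) (nat_lit 285) (nat_lit 2) (nat_lit 13) (.e true (nat_lit 1) (nat_lit 286) (nat_lit 2) (nat_lit 13) (.e true (nat_lit 1) (nat_lit 287) (nat_lit 2) (nat_lit 13) (.e true (nat_lit 3) (nat_lit 288) (nat_lit 2) (nat_lit 13) (.e false (nat_lit 2) (nat_lit 262) (nat_lit 2) (nat_lit 13) (.e false (nat_lit 2) (nat_lit 265) (nat_lit 2) (nat_lit 13) (.e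 true (nat_lit 2) (nat_lit 276) (nat_lit 2) (nat_lit 13) (.e true (nat_lit 3) (nat_lit 280) (nat_lit 2) (nat_lit 13) (.u (nat_lit 2) (.p (nat_lit 0) (nat_lit 3) (.p (nat_lit 1) (nat_lit 3) (.p (nat_lit 3) (nat_lit 1) (.p (nat_lit 4) (nat_lit 3) (.n (nat_lit 5) (nat_lit 2) (.n (nat_lit 6) (nat_lit 1) (.n (nat_lit 8) (nat_lit 3) (.p (nat_lit 9) (nat_lit 1) (.n (nat_lit 12) (nat_lit 1) (.p (nat_lit 13) (nat_lit 1) (.n (nat_lit 15) (nat_lit 4) (.n (nat_lit 16) (nat_lit 1) (.p (nat_lit 17) (nat_lit 4) (.p (nat_lit 18) (nat_lit 2) (.p (nat_lit 19) (nat_lit 1) (.n (nat_lit 20) (nat_lit 1) (.n (nat_lit 22) (nat_lit 1) (.n (nat_lit 26) (nat_lit 2) (.n (nat_lit 27) (nat_lit 1) (.p (nat_lit 28) (nat_lit 1) (.n (nat_lit 30) (nat_lit 2) (.p (nat_lit 33) (nat_lit 3) (.n (nat_lit 173) (nat_lit 1) (.n (nat_lit 176) (nat_lit 1) (.p (nat_lit 177) (nat_lit 1) .z))))))))))))))))))))))))) .nil)))))))))))))))))))))))))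

noncomputable def dC1b_c515 : Cm := .mk (nat_lit 110) (nat_lit 515) (nat_lit 77) (nat_lit 5) (.c (nat_lit 9) (nat_lit 1) (nat_lit 6) (nat_lit 1) (nat_lit 5) (.c (nat_lit 14) (nat_lit 2) (nat_lit 4) (nat_lit 1) (nat_lit 6) (.c (nat_lit 28) (nat_lit 3) (nat_lit 2) (nat_lit 1) (nat_lit 8) (.c (nat_lit 40) (nat_lit 3) (nat_lit 0) (nat_lit 1) (nat_lit 11) (.c (nat_lit 2512) (nat_lit 0) (nat_lit 18) (nat_lit 1) (nat_lit 14) .nil)))))

noncomputable def dC1b_c275 : Cm := .mk (nat_lit 119) (nat_lit 275) (nat_lit 82) (nat_lit 11) (.c (nat_lit 10) (nat_lit 3) (nat_lit 6) (nat_lit 1) (nat_lit 11) (.c (nat_lit 14) (nat_lit 2) (nat_lit 5) (nat_lit 1) (nat_lit 14) (.c (nat_lit 16) (nat_lit 2) (nat_lit 4) (nat_lit 1) (nat_lit 16) (.c (nat_lit 18) (nat_lit 1) (nat_lit 3) (nat_lit 1) (nat_lit 18) (.c (nat_lit 31) (nat_lit 6) (nat_lit 2) (nat_lit 1) (nat_lit 19) (.c (nat_lit 40) (nat_lit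 3) (nat_lit 1) (nat_lit 1) (nat_lit 25) (.c (nat_lit 43) (nat_lit 3) (nat_lit 0) (nat_lit 1) (nat_lit 28) .nil)))))))

noncomputable def dC1b_c531 : Cm := .mk (nat_lit 219) (nat_lit 531) (nat_lit 132) (nat_lit 21) (.c (nat_lit 14) (nat_lit 2) (nat_lit 10) (nat_lit 3) (nat_lit 21) (.c (nat_lit 16) (nat_lit 2) (nat_lit 9) (nat_lit 1) (nat_lit 27) (.c (nat_lit 18) (nat_lit 1) (nat_lit 7) (nat_lit 1) (nat_lit 29) (.c (nat_lit 20) (nat_lit 4) (nat_lit 6) (nat_lit 1) (nat_lit 30) (.c (nat_lit 28) (nat_lit 3) (nat_lit 5) (nat_lit 1) (nat_lit 34) (.c (nat_lit 31) (nat_lit 6) (nat_lit 4) (nat_lit 1) (nat_lit 37) (.c (nat_lit 40) (nat_lit 3) (nat_lit 3) (nat_lit 1) (nat_lit 43) (.c (nat_lit 55) (nat_lit 11) (nat_lit 2) (nat_lit 1) (nat_lit 46) (.c (nat_lit 77) (nat_lit 5) (nat_lit 1) (nat_lit 1) (nat_lit 57) (.c (nat_lit 82) (nat_lit 11) (nat_lit 0) (nat_lit 1) (nat_lit 62) (.c (nat_lit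 2512) (nat_lit 0) (nat_lit 43) (nat_lit 3) (nat_lit 73) .nil)))))))))))

noncomputable def dC1b_c516 : Cm := .mk (nat_lit 323) (nat_lit 516) (nat_lit 174) (nat_lit 6) (.c (nat_lit 14) (nat_lit 2) (nat_lit 14) (nat_lit 2) (nat_lit 6) (.c (nat_lit 18) (nat_lit 1) (nat_lit 9) (nat_lit 1) (nat_lit 10) (.c (nat_lit 28) (nat_lit 3) (nat_lit 6) (nat_lit 1) (nat_lit 11) (.c (nat_lit 40) (nat_lit 3) (nat_lit 4) (nat_lit 1) (nat_lit 14) (.c (nat_lit 77) (nat_lit 5) (nat_lit 2) (nat_lit 1) (nat_lit 17) (.c (nat_lit 98) (nat_lit 4) (nat_lit 0) (nat_lit 1) (nat_lit 22) (.c (nat_lit 2512) (nat_lit 0) (nat_lit 46) (nat_lit 1) (nat_lit 26) .nil)))))))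

noncomputable def dC1b_c276 : Cm := .mk (nat_lit 340) (nat_lit 276) (nat_lit 180) (nat_lit 16) (.c (nat_lit 16) (nat_lit 2) (nat_lit 14) (nat_lit 2) (nat_lit 16) (.c (nat_lit 18) (nat_lit 1) (nat_lit 10) (nat_lit 3) (nat_lit 20) (.c (nat_lit 31) (nat_lit 6) (nat_lit 6) (nat_lit 1) (nat_lit 23) (.c (nat_lit 40) (nat_lit 3) (nat_lit 5) (nat_lit 1) (nat_lit 29) (.c (nat_lit 43) (nat_lit 3) (nat_lit 4) (nat_lit 1) (nat_lit 32) (.c (nat_lit 46) (nat_lit 1) (nat_lit 3) (nat_lit 1) (nat_lit 35) (.c (nat_lit 82) (nat_lit 11) (nat_lit 2) (nat_lit 1) (nat_lit 36) (.c (nat_lit 98) (nat_lit 4) (nat_lit 1) (nat_lit 1) (nat_lit 47) (.c (nat_lit 102) (nat_lit 4) (nat_lit 0) (nat_lit 1) (nat_lit 51) .nil)))))))))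

noncomputable def dC1b_c547 : Cm := .mk (nat_lit 418) (nat_lit 547) (nat_lit 212) (nat_lit 48) (.c (nat_lit 19) (nat_lit 1) (nat_lit 18) (nat_lit 1) (nat_lit 48) (.c (nat_lit 20) (nat_lit 4) (nat_lit 16) (nat_lit 2) (nat_lit 49) (.c (nat_lit 24) (nat_lit 4) (nat_lit 14) (nat_lit 2) (nat_lit 57) (.c (nat_lit 28) (nat_lit 3) (nat_lit 13) (nat_lit 1) (nat_lit 65) (.c (nat_lit 31) (nat_lit 6) (nat_lit 10) (nat_lit 3) (nat_lit 68) (.c (nat_lit 37) (nat_lit 3) (nat_lit 9) (nat_lit 1) (nat_lit 86) (.c (nat_lit 40) (nat_lit 3) (nat_lit 8) (nat_lit 1) (nat_lit 89) (.c (nat_lit 43) (nat_lit 3) (nat_lit 7) (nat_lit 1) (nat_lit 92) (.c (nat_lit 47) (nat_lit 8) (nat_lit 6) (nat_lit 1) (nat_lit 95) (.c (nat_lit 55) (nat_lit 11) (nat_lit 5) (nat_lit 1) (nat_lit 103) (.c (nat_lit 66) (nat_lit 11) (nat_lit 4) (nat_lit 1) (nat_lit 114) (.c (nat_lit 82) (nat_lit 11) (nat_lit 3) (nat_lit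 1) (nat_lit 125) (.c (nat_lit 107) (nat_lit 25) (nat_lit 2) (nat_lit 1) (nat_lit 136) (.c (nat_lit 132) (nat_lit 21) (nat_lit 1) (nat_lit 1) (nat_lit 161) (.c (nat_lit 153) (nat_lit 21) (nat_lit 0) (nat_lit 1) (nat_lit 182) (.c (nat_lit 2512) (nat_lit 0) (nat_lit 93) (nat_lit 5) (nat_lit 203) (.c (nat_lit 2032) (nat_lit 0) (nat_lit 77) (nat_lit 5) (nat_lit 203) .nil)))))))))))))))))

noncomputable def dC1b_c532 : Cm := .mk (nat_lit 573) (nat_lit 532) (nat_lit 260) (nat_lit 30) (.c (nat_lit 20) (nat_lit 4) (nat_lit 18) (nat_lit 1) (nat_lit 30) (.c (nat_lit 28) (nat_lit 3) (nat_lit 16) (nat_lit 2) (nat_lit 34) (.c (nat_lit 31) (nat_lit 6) (nat_lit 14) (nat_lit 2) (nat_lit 40) (.c (nat_lit 40) (nat_lit 3) (nat_lit 10) (nat_lit 3) (nat_lit 52) (.c (nat_lit 43) (nat_lit 3) (nat_lit 9) (nat_lit 1) (nat_lit 61) (.c (nat_lit 46) (nat_lit 1) (nat_lit 7) (nat_lit 1) (nat_lit 64)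 (.c (nat_lit 55) (nat_lit 11) (nat_lit 6) (nat_lit 1) (nat_lit 65) (.c (nat_lit 77) (nat_lit 5) (nat_lit 5) (nat_lit 1) (nat_lit 76) (.c (nat_lit 82) (nat_lit 11) (nat_lit 4) (nat_lit 1) (nat_lit 81) (.c (nat_lit 98) (nat_lit 4) (nat_lit 3) (nat_lit 1) (nat_lit 92) (.c (nat_lit 132) (nat_lit 21) (nat_lit 2) (nat_lit 1) (nat_lit 96) (.c (nat_lit 174) (nat_lit 6) (nat_lit 1) (nat_lit 1) (nat_lit 117) (.c (nat_lit 180) (nat_lit 16) (nat_lit 0) (nat_lit 1) (nat_lit 123) (.c (nat_lit 2512) (nat_lit 0) (nat_lit 102) (nat_lit 4) (nat_lit 139) .nil))))))))))))))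

noncomputable def dC1b_i3 : IL := (.e false (nat_lit 1) (nat_lit 50) (nat_lit 18) (nat_lit 5) (.e false (nat_lit 1) (nat_lit 83) (nat_lit 11) (nat_lit 9) (.e true (nat_lit 1) (nat_lit 84) (nat_lit 11) (nat_lit 9) (.e false (nat_lit 1) (nat_lit 85) (nat_lit 11) (nat_lit 9) (.e true (nat_lit 1) (nat_lit 87) (nat_lit 11) (nat_lit 9) (.e true (nat_lit 1) (nat_lit 90) (nat_lit 11) (nat_lit 9) (.e false (nat_lit 1) (nat_lit 290) (nat_lit 0) (nat_lit 19) (.e false (nat_lit 2) (nat_lit 291) (nat_lit 0) (nat_lit 19) (.e true (nat_lit 3) (nat_lit 293) (nat_lit 0) (nat_lit 19) (.e false (nat_lit 1) (nat_lit 295) (nat_lit 0) (nat_lit 19) (.e false (nat_lit 2) (nat_lit 296) (nat_lit 0) (nat_lit 19) (.e true (nat_lit 2) (nat_lit 297) (nat_lit 0) (nat_lit 19) (.e true (nat_lit 1) (nat_lit 298) (nat_lit 0) (nat_lit 19) (.e false (nat_lit 2) (nat_lit 300) (nat_lit 0) (nat_lit 19) (.e true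 (nat_lit 3) (nat_lit 301) (nat_lit 0) (nat_lit 19) (.e true (nat_lit 2) (nat_lit 302) (nat_lit 0) (nat_lit 19) (.e true (nat_lit 2) (nat_lit 304) (nat_lit 0) (nat_lit 19) (.e false (nat_lit 1) (nat_lit 305) (nat_lit 0) (nat_lit 19) (.e false (nat_lit 1) (nat_lit 307) (nat_lit 0) (nat_lit 19) (.e false (nat_lit 2) (nat_lit 308) (nat_lit 0) (nat_lit 19) (.e true (nat_lit 1) (nat_lit 309) (nat_lit 0) (nat_lit 19) (.e true (nat_lit 3) (nat_lit 316) (nat_lit 0) (nat_lit 19) (.e true (nat_lit 3) (nat_lit 317) (nat_lit 0) (nat_lit 19) (.e false (nat_lit 2) (nat_lit 318) (nat_lit 0) (nat_lit 19) (.u (nat_lit 2) (.p (nat_lit 0) (nat_lit 1) (.n (nat_lit 3) (nat_lit 2) (.n (nat_lit 6) (nat_lit 2) (.p (nat_lit 7) (nat_lit 2) (.n (nat_lit 8) (nat_lit 3) (.n (nat_lit 9) (nat_lit 1) (.n (nat_lit 10) (nat_lit 2) (.n (nat_lit 11) (nat_lit 1) (.n (nat_lit 14) (nat_lit 2) (.n (nat_lit 20)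 (nat_lit 1) (.p (nat_lit 26) (nat_lit 1) (.n (nat_lit 27) (nat_lit 2) (.n (nat_lit 28) (nat_lit 1) (.p (nat_lit 29) (nat_lit 2) (.n (nat_lit 30) (nat_lit 1) (.p (nat_lit 31) (nat_lit 2) (.p (nat_lit 32) (nat_lit 1) (.n (nat_lit 33) (nat_lit 2) (.n (nat_lit 34) (nat_lit 1) (.n (nat_lit 35) (nat_lit 2) (.n (nat_lit 36) (nat_lit 2) (.n (nat_lit 37) (nat_lit 1) (.p (nat_lit 38) (nat_lit 2) (.n (nat_lit 39) (nat_lit 2) (.n (nat_lit 40) (nat_lit 1) (.p (nat_lit 41) (nat_lit 1) (.p (nat_lit 379) (nat_lit 1) (.p (nat_lit 392) (nat_lit 1) (.p (nat_lit 394) (nat_lit 1) (.n (nat_lit 401) (nat_lit 1) .z)))))))))))))))))))))))))))))) .nil)))))))))))))))))))))))))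

noncomputable def dC1b_i4 : IL := (.e false (nat_lit 2) (nat_lit 149) (nat_lit 5) (nat_lit 14) (.e true (nat_lit 2) (nat_lit 151) (nat_lit 5) (nat_lit 14) (.e true (nat_lit 2) (nat_lit 152) (nat_lit 5) (nat_lit 14) (.e true (nat_lit 1) (nat_lit 290) (nat_lit 0) (nat_lit 19) (.e false (nat_lit 3) (nat_lit 291) (nat_lit 0) (nat_lit 19) (.e true (nat_lit 1) (nat_lit 293) (nat_lit 0) (nat_lit 19) (.e true (nat_lit 3) (nat_lit 294) (nat_lit 0) (nat_lit 19) (.e true (nat_lit 2) (nat_lit 295) (nat_lit 0) (nat_lit 19) (.e false (nat_lit 1) (nat_lit 296) (nat_lit 0) (nat_lit 19) (.e true (nat_lit 1) (nat_lit 297) (nat_lit 0) (nat_lit 19) (.e true (nat_lit 3) (nat_lit 299) (nat_lit 0) (nat_lit 19) (.e false (nat_lit 2) (nat_lit 301) (nat_lit 0) (nat_lit 19) (.e false (nat_lit 2) (nat_lit 302) (nat_lit 0) (nat_lit 19) (.e false (nat_lit 2) (nat_lit 304) (nat_lit 0) (nat_lit 19) (.e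 true (nat_lit 1) (nat_lit 305) (nat_lit 0) (nat_lit 19) (.e false (nat_lit 3) (nat_lit 308) (nat_lit 0) (nat_lit 19) (.e true (nat_lit 1) (nat_lit 318) (nat_lit 0) (nat_lit 19) (.e false (nat_lit 3) (nat_lit 292) (nat_lit 0) (nat_lit 19) (.e true (nat_lit 3) (nat_lit 307) (nat_lit 0) (nat_lit 19) (.e true (nat_lit 1) (nat_lit 316) (nat_lit 0) (nat_lit 19) (.e true (nat_lit 3) (nat_lit 310) (nat_lit 0) (nat_lit 19) (.e false (nat_lit 1) (nat_lit 309) (nat_lit 0) (nat_lit 19) (.e false (nat_lit 1) (nat_lit 298) (nat_lit 0) (nat_lit 19) (.u (nat_lit 2) (.p (nat_lit 0) (nat_lit 2) (.p (nat_lit 1) (nat_lit 1) (.n (nat_lit 2) (nat_lit 1) (.n (nat_lit 3) (nat_lit 1) (.p (nat_lit 4) (nat_lit 2) (.p (nat_lit 6) (nat_lit 2) (.n (nat_lit 8) (nat_lit 2) (.n (nat_lit 9) (nat_lit 3) (.n (nat_lit 10) (nat_lit 4) (.p (nat_lit 11) (nat_lit 2) (.p (nat_lit 12) (nat_lit 5) (.n (nat_lit 13)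 (nat_lit 2) (.p (nat_lit 14) (nat_lit 4) (.p (nat_lit 17) (nat_lit 3) (.n (nat_lit 20) (nat_lit 2) (.p (nat_lit 26) (nat_lit 6) (.p (nat_lit 27) (nat_lit 1) (.n (nat_lit 28) (nat_lit 1) (.p (nat_lit 29) (nat_lit 2) (.n (nat_lit 30) (nat_lit 2) (.p (nat_lit 31) (nat_lit 3) (.n (nat_lit 33) (nat_lit 3) (.p (nat_lit 34) (nat_lit 2) (.n (nat_lit 35) (nat_lit 2) (.n (nat_lit 36) (nat_lit 2) (.p (nat_lit 37) (nat_lit 1) (.p (nat_lit 38) (nat_lit 1) (.n (nat_lit 39) (nat_lit 6) (.n (nat_lit 40) (nat_lit 1) (.p (nat_lit 41) (nat_lit 3) (.n (nat_lit 53) (nat_lit 1) (.p (nat_lit 54) (nat_lit 1) (.n (nat_lit 57) (nat_lit 2) (.p (nat_lit 58) (nat_lit 2) (.n (nat_lit 60) (nat_lit 1) (.n (nat_lit 61) (nat_lit 1) (.p (nat_lit 62) (nat_lit 1) (.p (nat_lit 69) (nat_lit 2) (.n (nat_lit 70) (nat_lit 3) (.n (nat_lit 375) (nat_lit 2) (.p (nat_lit 376) (nat_lit 2) (.n (nat_lit 377) (nat_lit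 1) (.p (nat_lit 378) (nat_lit 4) (.n (nat_lit 379) (nat_lit 2) (.p (nat_lit 381) (nat_lit 2) (.n (nat_lit 382) (nat_lit 1) (.p (nat_lit 384) (nat_lit 1) (.p (nat_lit 385) (nat_lit 2) (.n (nat_lit 386) (nat_lit 2) (.n (nat_lit 387) (nat_lit 1) (.p (nat_lit 388) (nat_lit 1) (.n (nat_lit 389) (nat_lit 1) (.n (nat_lit 392) (nat_lit 2) (.n (nat_lit 393) (nat_lit 1) (.n (nat_lit 396) (nat_lit 1) (.n (nat_lit 398) (nat_lit 1) (.p (nat_lit 399) (nat_lit 2) (.n (nat_lit 400) (nat_lit 1) (.p (nat_lit 402) (nat_lit 1) (.n (nat_lit 403) (nat_lit 4) .z)))))))))))))))))))))))))))))))))))))))))))))))))))))))))))) (.u (nat_lit 2) (.p (nat_lit 404) (nat_lit 1) (.n (nat_lit 407) (nat_lit 1) (.p (nat_lit 408) (nat_lit 2) (.p (nat_lit 409) (nat_lit 1) (.p (nat_lit 410) (nat_lit 1) (.p (nat_lit 411) (nat_lit 3) (.n (nat_lit 412) (nat_lit 3) (.n (nat_lit 414) (nat_lit 1) (.p (nat_lit 415) (nat_lit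 1) (.p (nat_lit 416) (nat_lit 1) (.n (nat_lit 417) (nat_lit 1) (.n (nat_lit 419) (nat_lit 1) (.n (nat_lit 420) (nat_lit 1) (.p (nat_lit 423) (nat_lit 1) (.p (nat_lit 425) (nat_lit 1) (.p (nat_lit 431) (nat_lit 1) (.p (nat_lit 432) (nat_lit 1) (.p (nat_lit 433) (nat_lit 1) .z)))))))))))))))))) .nil)))))))))))))))))))))))))

noncomputable def dC1b_i5 : IL := (.e true (nat_lit 2) (nat_lit 288) (nat_lit 1) (nat_lit 18) (.e false (nat_lit 2) (nat_lit 265) (nat_lit 1) (nat_lit 18) (.e false (nat_lit 1) (nat_lit 268) (nat_lit 1) (nat_lit 18) (.e false (nat_lit 1) (nat_lit 271) (nat_lit 1) (nat_lit 18) (.e false (nat_lit 2) (nat_lit 286) (nat_lit 1) (nat_lit 18) (.e false (nat_lit 1) (nat_lit 261) (nat_lit 1) (nat_lit 18) (.e true (nat_lit 2) (nat_lit 266) (nat_lit 1) (nat_lit 18) (.e false (nat_lit 2) (nat_lit 273) (nat_lit 1) (nat_lit 18) (.e false (nat_lit 2) (nat_lit 277) (nat_lit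 1) (nat_lit 18) (.e true (nat_lit 2) (nat_lit 278) (nat_lit 1) (nat_lit 18) (.e true (nat_lit 3) (nat_lit 270) (nat_lit 1) (nat_lit 18) (.e true (nat_lit 1) (nat_lit 132) (nat_lit 5) (nat_lit 14) (.e false (nat_lit 3) (nat_lit 133) (nat_lit 5) (nat_lit 14) (.e false (nat_lit 2) (nat_lit 134) (nat_lit 5) (nat_lit 14) (.e false (nat_lit 1) (nat_lit 135) (nat_lit 5) (nat_lit 14) (.e false (nat_lit 3) (nat_lit 136) (nat_lit 5) (nat_lit 14) (.e false (nat_lit 1) (nat_lit 137) (nat_lit 5) (nat_lit 14) (.e true (nat_lit 2) (nat_lit 138) (nat_lit 5) (nat_lit 14) (.e true (nat_lit 2) (nat_lit 139) (nat_lit 5) (nat_lit 14) (.e false (nat_lit 3) (nat_lit 140) (nat_lit 5) (nat_lit 14) (.e true (nat_lit 1) (nat_lit 141) (nat_lit 5) (nat_lit 14) (.e false (nat_lit 1) (nat_lit 142) (nat_lit 5) (nat_lit 14) (.e false (nat_lit 2) (nat_lit 143) (nat_lit 5) (nat_lit 14) (.e true (nat_lit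 3) (nat_lit 144) (nat_lit 5) (nat_lit 14) (.e true (nat_lit 2) (nat_lit 145) (nat_lit 5) (nat_lit 14) dC1b_i4)))))))))))))))))))))))))

noncomputable def dC1b_i6 : IL := (.e true (nat_lit 1) (nat_lit 272) (nat_lit 2) (nat_lit 13) (.e false (nat_lit 1) (nat_lit 273) (nat_lit 2) (nat_lit 13) (.e true (nat_lit 2) (nat_lit 274) (nat_lit 2) (nat_lit 13) (.e false (nat_lit 2) (nat_lit 278) (nat_lit 2) (nat_lit 13) (.e false (nat_lit 1) (nat_lit 279) (nat_lit 2) (nat_lit 13) (.e true (nat_lit 1) (nat_lit 288) (nat_lit 2) (nat_lit 13) (.e false (nat_lit 1) (nat_lit 265) (nat_lit 2) (nat_lit 13) (.e true (nat_lit 2) (nat_lit 280) (nat_lit 2) (nat_lit 13) (.e true (nat_lit 1) (nat_lit 206) (nat_lit 3) (nat_lit 12) (.e false (nat_lit 3) (nat_lit 286) (nat_lit 2) (nat_lit 13) (.e true (nat_lit 1) (nat_lit 46) (nat_lit 20) (nat_lit 2) (.e false (nat_lit 3) (nat_lit 328) (nat_lit 0)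 (nat_lit 15) (.e true (nat_lit 3) (nat_lit 329) (nat_lit 0) (nat_lit 15) (.e false (nat_lit 3) (nat_lit 330) (nat_lit 0) (nat_lit 15) (.e true (nat_lit 2) (nat_lit 332) (nat_lit 0) (nat_lit 15) (.e true (nat_lit 2) (nat_lit 333) (nat_lit 0) (nat_lit 15) (.e true (nat_lit 1) (nat_lit 334) (nat_lit 0) (nat_lit 15) (.e true (nat_lit 1) (nat_lit 335) (nat_lit 0) (nat_lit 15) (.e true (nat_lit 2) (nat_lit 337) (nat_lit 0) (nat_lit 15) (.e true (nat_lit 3) (nat_lit 338) (nat_lit 0) (nat_lit 15) (.e false (nat_lit 1) (nat_lit 341) (nat_lit 0) (nat_lit 15) (.e true (nat_lit 1) (nat_lit 344) (nat_lit 0) (nat_lit 15) (.e false (nat_lit 1) (nat_lit 345) (nat_lit 0) (nat_lit 15) (.e true (nat_lit 1) (nat_lit 106) (nat_lit 7) (nat_lit 8) (.u (nat_lit 2) (.p (nat_lit 0) (nat_lit 1) (.n (nat_lit 1) (nat_lit 2) (.p (nat_lit 2) (nat_lit 1) (.p (nat_lit 4) (nat_lit 1) (.n (nat_lit 5) (nat_lit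 4) (.p (nat_lit 6) (nat_lit 3) (.p (nat_lit 7) (nat_lit 3) (.p (nat_lit 9) (nat_lit 1) (.n (nat_lit 10) (nat_lit 1) (.n (nat_lit 12) (nat_lit 2) (.p (nat_lit 13) (nat_lit 2) (.p (nat_lit 15) (nat_lit 2) (.p (nat_lit 16) (nat_lit 2) (.p (nat_lit 17) (nat_lit 1) (.n (nat_lit 19) (nat_lit 1) (.p (nat_lit 21) (nat_lit 1) (.n (nat_lit 23) (nat_lit 1) (.p (nat_lit 24) (nat_lit 1) (.p (nat_lit 26) (nat_lit 1) (.p (nat_lit 27) (nat_lit 1) (.n (nat_lit 30) (nat_lit 1) (.p (nat_lit 33) (nat_lit 4) (.p (nat_lit 176) (nat_lit 1) (.p (nat_lit 177) (nat_lit 2) (.p (nat_lit 178) (nat_lit 1) (.n (nat_lit 179) (nat_lit 1) (.p (nat_lit 182) (nat_lit 1) (.p (nat_lit 184) (nat_lit 1) (.n (nat_lit 185) (nat_lit 1) (.n (nat_lit 187) (nat_lit 1) (.p (nat_lit 190) (nat_lit 2) (.p (nat_lit 193) (nat_lit 1) (.p (nat_lit 201) (nat_lit 1) .z))))))))))))))))))))))))))))))))) .nil)))))))))))))))))))))))))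

noncomputable def dC1b_i7 : IL := (.e false (nat_lit 2) (nat_lit 274) (nat_lit 2) (nat_lit 13) (.e true (nat_lit 1) (nat_lit 277) (nat_lit 2) (nat_lit 13) (.e true (nat_lit 1) (nat_lit 278) (nat_lit 2) (nat_lit 13) (.e true (nat_lit 3) (nat_lit 287) (nat_lit 2) (nat_lit 13) (.e false (nat_lit 3) (nat_lit 288) (nat_lit 2) (nat_lit 13) (.e true (nat_lit 2) (nat_lit 264) (nat_lit 2) (nat_lit 13) (.e false (nat_lit 3) (nat_lit 268) (nat_lit 2) (nat_lit 13) (.e true (nat_lit 1) (nat_lit 279) (nat_lit 2) (nat_lit 13) (.e false (nat_lit 1) (nat_lit 58) (nat_lit 18) (nat_lit 3) (.e false (nat_lit 1) (nat_lit 100) (nat_lit 12) (nat_lit 6) (.e false (nat_lit 1) (nat_lit 338) (nat_lit 0) (nat_lit 15) (.e false (nat_lit 3) (nat_lit 328) (nat_lit 0) (nat_lit 15) (.e false (nat_lit 3) (nat_lit 329) (nat_lit 0) (nat_lit 15) (.e true (nat_lit 1) (nat_lit 331) (nat_lit 0) (nat_lit 15)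 (.e true (nat_lit 3) (nat_lit 332) (nat_lit 0) (nat_lit 15) (.e true (nat_lit 1) (nat_lit 334) (nat_lit 0) (nat_lit 15) (.e true (nat_lit 1) (nat_lit 335) (nat_lit 0) (nat_lit 15) (.e true (nat_lit 2) (nat_lit 337) (nat_lit 0) (nat_lit 15) (.e true (nat_lit 3) (nat_lit 336) (nat_lit 0) (nat_lit 15) (.e true (nat_lit 1) (nat_lit 330) (nat_lit 0) (nat_lit 15) (.e false (nat_lit 1) (nat_lit 333) (nat_lit 0) (nat_lit 15) (.e true (nat_lit 2) (nat_lit 341) (nat_lit 0) (nat_lit 15) (.e true (nat_lit 1) (nat_lit 46) (nat_lit 23) (nat_lit 2) (.e true (nat_lit 1) (nat_lit 340) (nat_lit 0) (nat_lit 15) (.u (nat_lit 2) (.n (nat_lit 0) (nat_lit 1) (.p (nat_lit 1) (nat_lit 3) (.n (nat_lit 2) (nat_lit 3) (.n (nat_lit 3) (nat_lit 1) (.p (nat_lit 4) (nat_lit 2) (.p (nat_lit 5) (nat_lit 1) (.n (nat_lit 6) (nat_lit 3) (.n (nat_lit 7) (nat_lit 3) (.p (nat_lit 8) (nat_lit 1) (.n (nat_lit 9)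 (nat_lit 4) (.p (nat_lit 10) (nat_lit 1) (.p (nat_lit 12) (nat_lit 2) (.n (nat_lit 15) (nat_lit 1) (.n (nat_lit 17) (nat_lit 1) (.p (nat_lit 23) (nat_lit 1) (.n (nat_lit 24) (nat_lit 2) (.n (nat_lit 25) (nat_lit 1) (.n (nat_lit 26) (nat_lit 1) (.n (nat_lit 27) (nat_lit 1) (.n (nat_lit 30) (nat_lit 2) (.n (nat_lit 33) (nat_lit 1) (.n (nat_lit 174) (nat_lit 1) (.n (nat_lit 176) (nat_lit 1) (.p (nat_lit 180) (nat_lit 1) (.n (nat_lit 187) (nat_lit 1) (.p (nat_lit 190) (nat_lit 1) (.p (nat_lit 191) (nat_lit 1) (.n (nat_lit 211) (nat_lit 1) (.p (nat_lit 215) (nat_lit 1) (.p (nat_lit 219) (nat_lit 1) (.p (nat_lit 220) (nat_lit 1) .z))))))))))))))))))))))))))))))) .nil)))))))))))))))))))))))))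

noncomputable def dC1b_i8 : IL := (.e false (nat_lit 2) (nat_lit 42) (nat_lit 31) (nat_lit 0) (.e false (nat_lit 1) (nat_lit 42) (nat_lit 32) (nat_lit 0) (.e true (nat_lit 1) (nat_lit 42) (nat_lit 33) (nat_lit 0) (.e true (nat_lit 1) (nat_lit 42) (nat_lit 34) (nat_lit 0) (.e false (nat_lit 1) (nat_lit 42) (nat_lit 36) (nat_lit 0) (.e false (nat_lit 1) (nat_lit 328) (nat_lit 0) (nat_lit 15) (.e true (nat_lit 1) (nat_lit 329) (nat_lit 0) (nat_lit 15) (.e true (nat_lit 1) (nat_lit 330) (nat_lit 0) (nat_lit 15) (.e false (nat_lit 1) (nat_lit 331) (nat_lit 0) (nat_lit 15) (.e false (nat_lit 3) (nat_lit 333) (nat_lit 0) (nat_lit 15) (.e false (nat_lit 3) (nat_lit 334) (nat_lit 0) (nat_lit 15) (.e false (nat_lit 3) (nat_lit 335) (nat_lit 0) (nat_lit 15) (.e true (nat_lit 1) (nat_lit 336) (nat_lit 0) (nat_lit 15) (.e true (nat_lit 1) (nat_lit 337) (nat_lit 0) (nat_lit 15) (.e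 false (nat_lit 3) (nat_lit 341) (nat_lit 0) (nat_lit 15) (.e false (nat_lit 2) (nat_lit 55) (nat_lit 18) (nat_lit 3) (.e true (nat_lit 2) (nat_lit 56) (nat_lit 18) (nat_lit 3) (.e true (nat_lit 3) (nat_lit 57) (nat_lit 18) (nat_lit 3) (.e false (nat_lit 2) (nat_lit 58) (nat_lit 18) (nat_lit 3) (.e true (nat_lit 1) (nat_lit 61) (nat_lit 18) (nat_lit 3) (.e false (nat_lit 2) (nat_lit 64) (nat_lit 18) (nat_lit 3) (.e true (nat_lit 3) (nat_lit 65) (nat_lit 18) (nat_lit 3) (.e true (nat_lit 1) (nat_lit 344) (nat_lit 0) (nat_lit 15) (.e false (nat_lit 1) (nat_lit 346) (nat_lit 0) (nat_lit 15) (.u (nat_lit 2) (.p (nat_lit 1) (nat_lit 3) (.p (nat_lit 3) (nat_lit 3) (.p (nat_lit 4) (nat_lit 2) (.p (nat_lit 5) (nat_lit 1) (.n (nat_lit 6) (nat_lit 1) (.n (nat_lit 7) (nat_lit 1) (.n (nat_lit 8) (nat_lit 1) (.p (nat_lit 10) (nat_lit 2) (.p (nat_lit 13) (nat_lit 1) (.n (nat_lit 15) (nat_lit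 1) (.n (nat_lit 16) (nat_lit 2) (.n (nat_lit 17) (nat_lit 1) (.n (nat_lit 18) (nat_lit 1) (.n (nat_lit 19) (nat_lit 2) (.p (nat_lit 30) (nat_lit 2) (.p (nat_lit 67) (nat_lit 1) (.p (nat_lit 75) (nat_lit 1) (.n (nat_lit 214) (nat_lit 1) (.n (nat_lit 224) (nat_lit 1) .z))))))))))))))))))) .nil)))))))))))))))))))))))))

noncomputable def dC1b_i9 : IL := (.e false (nat_lit 1) (nat_lit 335) (nat_lit 1) (nat_lit 14) (.e true (nat_lit 3) (nat_lit 337) (nat_lit 1) (nat_lit 14) (.e true (nat_lit 1) (nat_lit 336) (nat_lit 1) (nat_lit 14) (.e false (nat_lit 3) (nat_lit 330) (nat_lit 1) (nat_lit 14) (.e true (nat_lit 1) (nat_lit 333) (nat_lit 1) (nat_lit 14) (.e false (nat_lit 2) (nat_lit 341) (nat_lit 1) (nat_lit 14) (.e true (nat_lit 2) (nat_lit 66) (nat_lit 18) (nat_lit 3) (.e true (nat_lit 1) (nat_lit 67) (nat_lit 18) (nat_lit 3) (.e false (nat_lit 1) (nat_lit 68) (nat_lit 18)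 (nat_lit 3) (.e true (nat_lit 1) (nat_lit 69) (nat_lit 18) (nat_lit 3) (.e true (nat_lit 1) (nat_lit 70) (nat_lit 18) (nat_lit 3) (.e false (nat_lit 1) (nat_lit 72) (nat_lit 18) (nat_lit 3) (.e false (nat_lit 1) (nat_lit 74) (nat_lit 18) (nat_lit 3) (.e false (nat_lit 1) (nat_lit 83) (nat_lit 16) (nat_lit 4) (.e true (nat_lit 1) (nat_lit 84) (nat_lit 16) (nat_lit 4) (.e false (nat_lit 1) (nat_lit 85) (nat_lit 16) (nat_lit 4) (.e true (nat_lit 1) (nat_lit 87) (nat_lit 16) (nat_lit 4) (.e true (nat_lit 1) (nat_lit 90) (nat_lit 16) (nat_lit 4) (.e true (nat_lit 1) (nat_lit 347) (nat_lit 0) (nat_lit 15) (.e false (nat_lit 2) (nat_lit 349) (nat_lit 0) (nat_lit 15) (.e true (nat_lit 1) (nat_lit 350) (nat_lit 0) (nat_lit 15) (.e true (nat_lit 2) (nat_lit 351) (nat_lit 0) (nat_lit 15) (.e false (nat_lit 1) (nat_lit 352) (nat_lit 0) (nat_lit 15) (.e true (nat_lit 1) (nat_lit 353)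 (nat_lit 0) (nat_lit 15) (.u (nat_lit 2) (.n (nat_lit 0) (nat_lit 2) (.p (nat_lit 2) (nat_lit 2) (.n (nat_lit 3) (nat_lit 2) (.p (nat_lit 5) (nat_lit 2) (.p (nat_lit 7) (nat_lit 1) (.n (nat_lit 8) (nat_lit 1) (.p (nat_lit 9) (nat_lit 2) (.n (nat_lit 12) (nat_lit 1) (.p (nat_lit 17) (nat_lit 1) (.p (nat_lit 19) (nat_lit 1) (.n (nat_lit 33) (nat_lit 1) (.n (nat_lit 213) (nat_lit 1) .z)))))))))))) .nil)))))))))))))))))))))))))

noncomputable def dC1b_c293 : Cm := .mk (nat_lit 1393) (nat_lit 293) (nat_lit 460) (nat_lit 34) (.c (nat_lit 40) (nat_lit 3) (nat_lit 37) (nat_lit 3) (nat_lit 34) (.c (nat_lit 43) (nat_lit 3) (nat_lit 31) (nat_lit 6) (nat_lit 43) (.c (nat_lit 46) (nat_lit 1) (nat_lit 24) (nat_lit 4) (nat_lit 61) (.c (nat_lit 66) (nat_lit 11) (nat_lit 18) (nat_lit 1) (nat_lit 65) (.c (nat_lit 82) (nat_lit 11) (nat_lit 16) (nat_lit 2) (nat_lit 76) (.c (nat_lit 93) (nat_lit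 5) (nat_lit 14) (nat_lit 2) (nat_lit 98) (.c (nat_lit 98) (nat_lit 4) (nat_lit 13) (nat_lit 1) (nat_lit 108) (.c (nat_lit 102) (nat_lit 4) (nat_lit 10) (nat_lit 3) (nat_lit 112) (.c (nat_lit 106) (nat_lit 1) (nat_lit 8) (nat_lit 1) (nat_lit 124) (.c (nat_lit 153) (nat_lit 21) (nat_lit 6) (nat_lit 1) (nat_lit 125) (.c (nat_lit 180) (nat_lit 16) (nat_lit 5) (nat_lit 1) (nat_lit 146) (.c (nat_lit 196) (nat_lit 6) (nat_lit 4) (nat_lit 1) (nat_lit 162) (.c (nat_lit 207) (nat_lit 5) (nat_lit 3) (nat_lit 1) (nat_lit 168) (.c (nat_lit 290) (nat_lit 30) (nat_lit 2) (nat_lit 1) (nat_lit 173) (.c (nat_lit 328) (nat_lit 19) (nat_lit 1) (nat_lit 1) (nat_lit 203) (.c (nat_lit 347) (nat_lit 8) (nat_lit 0) (nat_lit 1) (nat_lit 222) (.c (nat_lit 2032) (nat_lit 0) (nat_lit 202) (nat_lit 5) (nat_lit 230) .nil)))))))))))))))))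

noncomputable def dC1b_c291 : Cm := .mk (nat_lit 271) (nat_lit 291) (nat_lit 153) (nat_lit 21) (.c (nat_lit 14) (nat_lit 2) (nat_lit 13) (nat_lit 1) (nat_lit 21) (.c (nat_lit 16) (nat_lit 2) (nat_lit 10) (nat_lit 3) (nat_lit 23) (.c (nat_lit 18) (nat_lit 1) (nat_lit 8) (nat_lit 1) (nat_lit 29) (.c (nat_lit 24) (nat_lit 4) (nat_lit 6) (nat_lit 1) (nat_lit 30) (.c (nat_lit 31) (nat_lit 6) (nat_lit 5) (nat_lit 1) (nat_lit 34) (.c (nat_lit 37) (nat_lit 3) (nat_lit 4) (nat_lit 1) (nat_lit 40) (.c (nat_lit 43) (nat_lit 3) (nat_lit 3) (nat_lit 1) (nat_lit 43) (.c (nat_lit 66) (nat_lit 11) (nat_lit 2) (nat_lit 1) (nat_lit 46) (.c (nat_lit 82) (nat_lit 11) (nat_lit 1) (nat_lit 1) (nat_lit 57) (.c (nat_lit 93) (nat_lit 5) (nat_lit 0) (nat_lit 1) (nat_lit 68) (.c (nat_lit 2032) (nat_lit 0) (nat_lit 40) (nat_lit 3) (nat_lit 73) .nil)))))))))))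

noncomputable def dC1b_c36 : Cm := .mk (nat_lit 379) (nat_lit 36) (nat_lit 196) (nat_lit 6) (.c (nat_lit 16) (nat_lit 2) (nat_lit 16) (nat_lit 2) (nat_lit 6) (.c (nat_lit 18) (nat_lit 1) (nat_lit 13) (nat_lit 1) (nat_lit 10) (.c (nat_lit 37) (nat_lit 3) (nat_lit 6) (nat_lit 1) (nat_lit 11) (.c (nat_lit 43) (nat_lit 3) (nat_lit 5) (nat_lit 1) (nat_lit 14) (.c (nat_lit 93) (nat_lit 5) (nat_lit 2) (nat_lit 1) (nat_lit 17) (.c (nat_lit 102) (nat_lit 4) (nat_lit 1) (nat_lit 1) (nat_lit 22) (.c (nat_lit 2032) (nat_lit 0) (nat_lit 46) (nat_lit 1) (nat_lit 26) .nil)))))))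

noncomputable def dC1b_c21 : Cm := .mk (nat_lit 407) (nat_lit 21) (nat_lit 207) (nat_lit 5) (.c (nat_lit 18) (nat_lit 1) (nat_lit 16) (nat_lit 2) (nat_lit 5) (.c (nat_lit 43) (nat_lit 3) (nat_lit 6) (nat_lit 1) (nat_lit 7) (.c (nat_lit 46) (nat_lit 1) (nat_lit 5) (nat_lit 1) (nat_lit 10) (.c (nat_lit 102) (nat_lit 4) (nat_lit 2) (nat_lit 1) (nat_lit 11) (.c (nat_lit 106) (nat_lit 1) (nat_lit 1) (nat_lit 1) (nat_lit 15) .nil)))))

noncomputable def dC1b_i10 : IL := (.e true (nat_lit 3) (nat_lit 186) (nat_lit 0) (nat_lit 12) (.e true (nat_lit 3) (nat_lit 189) (nat_lit 0) (nat_lit 12) (.e true (nat_lit 3) (nat_lit 190) (nat_lit 0) (nat_lit 12) (.e true (nat_lit 1) (nat_lit 195) (nat_lit 0) (nat_lit 12) (.e true (nat_lit 3) (nat_lit 132) (nat_lit 2) (nat_lit 10) (.e false (nat_lit 2) (nat_lit 133) (nat_lit 2) (nat_lit 10) (.e false (nat_lit 1) (nat_lit 134) (nat_lit 2) (nat_lit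 10) (.e true (nat_lit 3) (nat_lit 135) (nat_lit 2) (nat_lit 10) (.e false (nat_lit 3) (nat_lit 136) (nat_lit 2) (nat_lit 10) (.e true (nat_lit 2) (nat_lit 137) (nat_lit 2) (nat_lit 10) (.e true (nat_lit 1) (nat_lit 138) (nat_lit 2) (nat_lit 10) (.e false (nat_lit 1) (nat_lit 139) (nat_lit 2) (nat_lit 10) (.e false (nat_lit 1) (nat_lit 140) (nat_lit 2) (nat_lit 10) (.e true (nat_lit 3) (nat_lit 141) (nat_lit 2) (nat_lit 10) (.e false (nat_lit 3) (nat_lit 142) (nat_lit 2) (nat_lit 10) (.e true (nat_lit 1) (nat_lit 144) (nat_lit 2) (nat_lit 10) (.e false (nat_lit 3) (nat_lit 145) (nat_lit 2) (nat_lit 10) (.e false (nat_lit 2) (nat_lit 146) (nat_lit 2) (nat_lit 10) (.e true (nat_lit 2) (nat_lit 147) (nat_lit 2) (nat_lit 10) (.e false (nat_lit 2) (nat_lit 148) (nat_lit 2) (nat_lit 10) (.e false (nat_lit 2) (nat_lit 149) (nat_lit 2) (nat_lit 10) (.e false (nat_lit 3) (nat_lit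 150) (nat_lit 2) (nat_lit 10) (.e true (nat_lit 2) (nat_lit 151) (nat_lit 2) (nat_lit 10) (.e true (nat_lit 1) (nat_lit 152) (nat_lit 2) (nat_lit 10) (.u (nat_lit 2) (.n (nat_lit 0) (nat_lit 1) (.p (nat_lit 2) (nat_lit 3) (.n (nat_lit 3) (nat_lit 3) (.n (nat_lit 4) (nat_lit 1) (.n (nat_lit 5) (nat_lit 2) (.p (nat_lit 8) (nat_lit 2) (.n (nat_lit 10) (nat_lit 5) (.n (nat_lit 11) (nat_lit 2) (.p (nat_lit 12) (nat_lit 1) (.p (nat_lit 13) (nat_lit 2) (.n (nat_lit 15) (nat_lit 1) (.p (nat_lit 16) (nat_lit 1) (.p (nat_lit 17) (nat_lit 1) (.p (nat_lit 18) (nat_lit 3) (.p (nat_lit 19) (nat_lit 2) (.n (nat_lit 20) (nat_lit 2) (.p (nat_lit 22) (nat_lit 3) (.p (nat_lit 23) (nat_lit 1) (.n (nat_lit 24) (nat_lit 2) (.n (nat_lit 26) (nat_lit 2) (.p (nat_lit 28) (nat_lit 3) (.n (nat_lit 29) (nat_lit 3) (.n (nat_lit 130) (nat_lit 1) .z))))))))))))))))))))))) .nil)))))))))))))))))))))))))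

noncomputable def dC1b_i11 : IL := (.e true (nat_lit 3) (nat_lit 186) (nat_lit 1) (nat_lit 11) (.e true (nat_lit 3) (nat_lit 187) (nat_lit 1) (nat_lit 11) (.e true (nat_lit 3) (nat_lit 189) (nat_lit 1) (nat_lit 11) (.e true (nat_lit 3) (nat_lit 190) (nat_lit 1) (nat_lit 11) (.e true (nat_lit 1) (nat_lit 195) (nat_lit 1) (nat_lit 11) (.e false (nat_lit 1) (nat_lit 153) (nat_lit 2) (nat_lit 10) (.e false (nat_lit 3) (nat_lit 154) (nat_lit 2) (nat_lit 10) (.e false (nat_lit 3) (nat_lit 155) (nat_lit 2) (nat_lit 10) (.e true (nat_lit 2) (nat_lit 156) (nat_lit 2) (nat_lit 10) (.e false (nat_lit 2) (nat_lit 157) (nat_lit 2) (nat_lit 10) (.e false (nat_lit 2) (nat_lit 158) (nat_lit 2) (nat_lit 10) (.e true (nat_lit 2) (nat_lit 159) (nat_lit 2) (nat_lit 10) (.e false (nat_lit 3) (nat_lit 160) (nat_lit 2) (nat_lit 10) (.e true (nat_lit 3) (nat_lit 162) (nat_lit 2) (nat_lit 10)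 (.e true (nat_lit 3) (nat_lit 163) (nat_lit 2) (nat_lit 10) (.e false (nat_lit 1) (nat_lit 164) (nat_lit 2) (nat_lit 10) (.e false (nat_lit 1) (nat_lit 165) (nat_lit 2) (nat_lit 10) (.e true (nat_lit 1) (nat_lit 166) (nat_lit 2) (nat_lit 10) (.e false (nat_lit 3) (nat_lit 167) (nat_lit 2) (nat_lit 10) (.e false (nat_lit 1) (nat_lit 169) (nat_lit 2) (nat_lit 10) (.e true (nat_lit 2) (nat_lit 170) (nat_lit 2) (nat_lit 10) (.e false (nat_lit 3) (nat_lit 171) (nat_lit 2) (nat_lit 10) (.e true (nat_lit 2) (nat_lit 172) (nat_lit 2) (nat_lit 10) (.e false (nat_lit 3) (nat_lit 173) (nat_lit 2) (nat_lit 10) (.u (nat_lit 2) (.p (nat_lit 1) (nat_lit 2) (.n (nat_lit 2) (nat_lit 1) (.p (nat_lit 3) (nat_lit 4) (.p (nat_lit 4) (nat_lit 1) (.p (nat_lit 5) (nat_lit 1) (.p (nat_lit 6) (nat_lit 2) (.n (nat_lit 7) (nat_lit 2) (.n (nat_lit 8) (nat_lit 1) (.n (nat_lit 10) (nat_lit 1) (.n (nat_lit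 12) (nat_lit 4) (.n (nat_lit 14) (nat_lit 1) (.n (nat_lit 15) (nat_lit 2) (.p (nat_lit 20) (nat_lit 3) (.p (nat_lit 21) (nat_lit 1) (.n (nat_lit 22) (nat_lit 2) (.n (nat_lit 23) (nat_lit 1) (.p (nat_lit 26) (nat_lit 1) (.p (nat_lit 27) (nat_lit 1) (.p (nat_lit 29) (nat_lit 1) .z))))))))))))))))))) .nil)))))))))))))))))))))))))

noncomputable def dC1b_c37 : Cm := .mk (nat_lit 887) (nat_lit 37) (nat_lit 347) (nat_lit 8) (.c (nat_lit 37) (nat_lit 3) (nat_lit 18) (nat_lit 1) (nat_lit 8) (.c (nat_lit 43) (nat_lit 3) (nat_lit 16) (nat_lit 2) (nat_lit 11) (.c (nat_lit 46) (nat_lit 1) (nat_lit 13) (nat_lit 1) (nat_lit 17) (.c (nat_lit 93) (nat_lit 5) (nat_lit 6) (nat_lit 1) (nat_lit 18) (.c (nat_lit 102) (nat_lit 4) (nat_lit 5) (nat_lit 1) (nat_lit 23) (.c (nat_lit 196) (nat_lit 6) (nat_lit 2) (nat_lit 1) (nat_lit 27) (.c (nat_lit 207) (nat_lit 5) (nat_lit 1) (nat_lit 1) (nat_lit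 33) (.c (nat_lit 2032) (nat_lit 0) (nat_lit 106) (nat_lit 1) (nat_lit 38) .nil))))))))

noncomputable def dC1b_i12 : IL := (.e false (nat_lit 2) (nat_lit 235) (nat_lit 2) (nat_lit 17) (.e false (nat_lit 3) (nat_lit 236) (nat_lit 2) (nat_lit 17) (.e true (nat_lit 3) (nat_lit 240) (nat_lit 2) (nat_lit 17) (.e true (nat_lit 1) (nat_lit 243) (nat_lit 2) (nat_lit 17) (.e false (nat_lit 2) (nat_lit 244) (nat_lit 2) (nat_lit 17) (.e true (nat_lit 2) (nat_lit 245) (nat_lit 2) (nat_lit 17) (.e false (nat_lit 1) (nat_lit 248) (nat_lit 2) (nat_lit 17) (.e false (nat_lit 2) (nat_lit 216) (nat_lit 2) (nat_lit 17) (.e false (nat_lit 2) (nat_lit 225) (nat_lit 2) (nat_lit 17) (.e true (nat_lit 2) (nat_lit 228) (nat_lit 2) (nat_lit 17) (.e true (nat_lit 3) (nat_lit 230) (nat_lit 2) (nat_lit 17) (.e true (nat_lit 2) (nat_lit 234) (nat_lit 2) (nat_lit 17) (.e false (nat_lit 1) (nat_lit 237)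 (nat_lit 2) (nat_lit 17) (.e false (nat_lit 3) (nat_lit 246) (nat_lit 2) (nat_lit 17) (.e true (nat_lit 3) (nat_lit 247) (nat_lit 2) (nat_lit 17) (.e false (nat_lit 1) (nat_lit 250) (nat_lit 2) (nat_lit 17) (.e true (nat_lit 3) (nat_lit 222) (nat_lit 2) (nat_lit 17) (.e true (nat_lit 1) (nat_lit 239) (nat_lit 2) (nat_lit 17) (.e false (nat_lit 3) (nat_lit 241) (nat_lit 2) (nat_lit 17) (.e false (nat_lit 1) (nat_lit 55) (nat_lit 16) (nat_lit 6) (.e true (nat_lit 1) (nat_lit 105) (nat_lit 7) (nat_lit 12) (.e false (nat_lit 1) (nat_lit 213) (nat_lit 2) (nat_lit 17) (.e false (nat_lit 1) (nat_lit 220) (nat_lit 2) (nat_lit 17) (.u (nat_lit 2) (.n (nat_lit 0) (nat_lit 1) (.n (nat_lit 3) (nat_lit 2) (.n (nat_lit 4) (nat_lit 2) (.n (nat_lit 5) (nat_lit 2) (.n (nat_lit 6) (nat_lit 5) (.p (nat_lit 7) (nat_lit 4) (.n (nat_lit 8) (nat_lit 2) (.n (nat_lit 10) (nat_lit 2) (.p (nat_lit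 11) (nat_lit 4) (.p (nat_lit 12) (nat_lit 1) (.n (nat_lit 13) (nat_lit 2) (.p (nat_lit 14) (nat_lit 4) (.p (nat_lit 15) (nat_lit 4) (.n (nat_lit 17) (nat_lit 2) (.n (nat_lit 18) (nat_lit 3) (.p (nat_lit 19) (nat_lit 5) (.p (nat_lit 20) (nat_lit 4) (.p (nat_lit 21) (nat_lit 1) (.n (nat_lit 23) (nat_lit 1) (.n (nat_lit 24) (nat_lit 1) (.n (nat_lit 25) (nat_lit 1) (.p (nat_lit 26) (nat_lit 1) (.n (nat_lit 27) (nat_lit 2) (.n (nat_lit 28) (nat_lit 4) (.p (nat_lit 29) (nat_lit 2) (.n (nat_lit 30) (nat_lit 2) (.n (nat_lit 31) (nat_lit 2) (.p (nat_lit 32) (nat_lit 4) (.p (nat_lit 33) (nat_lit 1) (.n (nat_lit 34) (nat_lit 2) (.n (nat_lit 36) (nat_lit 4) (.n (nat_lit 38) (nat_lit 5) (.p (nat_lit 39) (nat_lit 2) (.p (nat_lit 40) (nat_lit 5) (.n (nat_lit 41) (nat_lit 2) (.p (nat_lit 45) (nat_lit 1) (.n (nat_lit 46) (nat_lit 1) (.p (nat_lit 48) (nat_lit 1) (.p (nat_lit 50) (nat_lit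 1) (.p (nat_lit 52) (nat_lit 1) (.n (nat_lit 53) (nat_lit 2) (.p (nat_lit 54) (nat_lit 2) (.n (nat_lit 56) (nat_lit 1) (.n (nat_lit 57) (nat_lit 2) (.p (nat_lit 58) (nat_lit 2) (.p (nat_lit 60) (nat_lit 1) (.n (nat_lit 62) (nat_lit 1) (.p (nat_lit 63) (nat_lit 1) (.n (nat_lit 64) (nat_lit 1) (.p (nat_lit 65) (nat_lit 1) (.n (nat_lit 66) (nat_lit 1) (.p (nat_lit 69) (nat_lit 2) (.n (nat_lit 70) (nat_lit 2) (.p (nat_lit 327) (nat_lit 1) (.p (nat_lit 329) (nat_lit 1) (.n (nat_lit 330) (nat_lit 1) (.n (nat_lit 333) (nat_lit 1) (.p (nat_lit 336) (nat_lit 1) (.n (nat_lit 341) (nat_lit 1) (.n (nat_lit 344) (nat_lit 1) .z)))))))))))))))))))))))))))))))))))))))))))))))))))))))))))) (.u (nat_lit 2) (.p (nat_lit 345) (nat_lit 1) (.p (nat_lit 346) (nat_lit 1) (.p (nat_lit 347) (nat_lit 1) (.n (nat_lit 348) (nat_lit 1) (.n (nat_lit 350) (nat_lit 1) (.n (nat_lit 351) (nat_lit 1) (.n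 (nat_lit 353) (nat_lit 1) (.p (nat_lit 354) (nat_lit 1) (.n (nat_lit 356) (nat_lit 1) (.n (nat_lit 359) (nat_lit 1) (.n (nat_lit 361) (nat_lit 1) (.p (nat_lit 362) (nat_lit 1) .z)))))))))))) .nil)))))))))))))))))))))))))

noncomputable def dC1b_i13 : IL := (.e true (nat_lit 2) (nat_lit 219) (nat_lit 2) (nat_lit 17) (.e false (nat_lit 2) (nat_lit 220) (nat_lit 2) (nat_lit 17) (.e false (nat_lit 3) (nat_lit 221) (nat_lit 2) (nat_lit 17) (.e false (nat_lit 1) (nat_lit 222) (nat_lit 2) (nat_lit 17) (.e true (nat_lit 1) (nat_lit 223) (nat_lit 2) (nat_lit 17) (.e true (nat_lit 2) (nat_lit 224) (nat_lit 2) (nat_lit 17) (.e true (nat_lit 1) (nat_lit 226) (nat_lit 2) (nat_lit 17) (.e false (nat_lit 1) (nat_lit 227) (nat_lit 2) (nat_lit 17) (.e false (nat_lit 1) (nat_lit 229) (nat_lit 2) (nat_lit 17) (.e true (nat_lit 2) (nat_lit 231) (nat_lit 2) (nat_lit 17) (.e false (nat_lit 3)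 (nat_lit 232) (nat_lit 2) (nat_lit 17) (.e false (nat_lit 2) (nat_lit 233) (nat_lit 2) (nat_lit 17) (.e false (nat_lit 1) (nat_lit 234) (nat_lit 2) (nat_lit 17) (.e false (nat_lit 1) (nat_lit 235) (nat_lit 2) (nat_lit 17) (.e false (nat_lit 2) (nat_lit 236) (nat_lit 2) (nat_lit 17) (.e true (nat_lit 1) (nat_lit 237) (nat_lit 2) (nat_lit 17) (.e true (nat_lit 2) (nat_lit 239) (nat_lit 2) (nat_lit 17) (.e true (nat_lit 1) (nat_lit 240) (nat_lit 2) (nat_lit 17) (.e true (nat_lit 1) (nat_lit 241) (nat_lit 2) (nat_lit 17) (.e false (nat_lit 3) (nat_lit 242) (nat_lit 2) (nat_lit 17) (.e true (nat_lit 1) (nat_lit 244) (nat_lit 2) (nat_lit 17) (.e true (nat_lit 3) (nat_lit 245) (nat_lit 2) (nat_lit 17) (.e true (nat_lit 1) (nat_lit 248) (nat_lit 2) (nat_lit 17) (.e true (nat_lit 1) (nat_lit 251) (nat_lit 2) (nat_lit 17) (.u (nat_lit 2) (.n (nat_lit 1) (nat_lit 1) (.p (nat_lit 2)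 (nat_lit 1) (.p (nat_lit 3) (nat_lit 2) (.p (nat_lit 4) (nat_lit 1) (.n (nat_lit 5) (nat_lit 1) (.n (nat_lit 6) (nat_lit 1) (.n (nat_lit 9) (nat_lit 3) (.n (nat_lit 11) (nat_lit 1) (.n (nat_lit 14) (nat_lit 5) (.p (nat_lit 15) (nat_lit 1) (.p (nat_lit 17) (nat_lit 1) (.p (nat_lit 18) (nat_lit 3) (.p (nat_lit 19) (nat_lit 1) (.n (nat_lit 20) (nat_lit 1) (.p (nat_lit 26) (nat_lit 6) (.n (nat_lit 27) (nat_lit 1) (.n (nat_lit 28) (nat_lit 2) (.n (nat_lit 29) (nat_lit 2) (.p (nat_lit 30) (nat_lit 1) (.p (nat_lit 32) (nat_lit 1) (.n (nat_lit 34) (nat_lit 3) (.p (nat_lit 35) (nat_lit 1) (.p (nat_lit 36) (nat_lit 1) (.p (nat_lit 37) (nat_lit 2) (.p (nat_lit 38) (nat_lit 1) (.p (nat_lit 39) (nat_lit 4) (.n (nat_lit 49) (nat_lit 1) (.n (nat_lit 50) (nat_lit 1) (.p (nat_lit 51) (nat_lit 1) (.p (nat_lit 52) (nat_lit 1) (.p (nat_lit 55) (nat_lit 1) (.n (nat_lit 56) (nat_lit 1) (.p (nat_lit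 60) (nat_lit 1) (.p (nat_lit 70) (nat_lit 1) .z)))))))))))))))))))))))))))))))))) .nil)))))))))))))))))))))))))

noncomputable def dC1b_i14 : IL := (.e true (nat_lit 1) (nat_lit 298) (nat_lit 0) (nat_lit 19) (.e false (nat_lit 3) (nat_lit 299) (nat_lit 0) (nat_lit 19) (.e true (nat_lit 1) (nat_lit 301) (nat_lit 0) (nat_lit 19) (.e false (nat_lit 3) (nat_lit 304) (nat_lit 0) (nat_lit 19) (.e true (nat_lit 1) (nat_lit 307) (nat_lit 0) (nat_lit 19) (.e false (nat_lit 1) (nat_lit 310) (nat_lit 0) (nat_lit 19) (.e false (nat_lit 1) (nat_lit 319) (nat_lit 0) (nat_lit 19) (.e true (nat_lit 1) (nat_lit 212) (nat_lit 2) (nat_lit 17) (.e false (nat_lit 3) (nat_lit 213) (nat_lit 2) (nat_lit 17) (.e false (nat_lit 1) (nat_lit 214) (nat_lit 2) (nat_lit 17) (.e false (nat_lit 1) (nat_lit 215) (nat_lit 2) (nat_lit 17) (.e false (nat_lit 2) (nat_lit 220) (nat_lit 2) (nat_lit 17) (.e true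 (nat_lit 1) (nat_lit 221) (nat_lit 2) (nat_lit 17) (.e false (nat_lit 3) (nat_lit 223) (nat_lit 2) (nat_lit 17) (.e false (nat_lit 1) (nat_lit 229) (nat_lit 2) (nat_lit 17) (.e false (nat_lit 2) (nat_lit 216) (nat_lit 2) (nat_lit 17) (.e true (nat_lit 2) (nat_lit 217) (nat_lit 2) (nat_lit 17) (.e true (nat_lit 1) (nat_lit 218) (nat_lit 2) (nat_lit 17) (.e false (nat_lit 1) (nat_lit 219) (nat_lit 2) (nat_lit 17) (.e true (nat_lit 3) (nat_lit 222) (nat_lit 2) (nat_lit 17) (.e false (nat_lit 2) (nat_lit 224) (nat_lit 2) (nat_lit 17) (.e true (nat_lit 2) (nat_lit 226) (nat_lit 2) (nat_lit 17) (.e true (nat_lit 1) (nat_lit 227) (nat_lit 2) (nat_lit 17) (.e false (nat_lit 1) (nat_lit 231) (nat_lit 2) (nat_lit 17) (.u (nat_lit 2) (.n (nat_lit 0) (nat_lit 1) (.p (nat_lit 1) (nat_lit 1) (.n (nat_lit 2) (nat_lit 3) (.n (nat_lit 3) (nat_lit 1) (.p (nat_lit 5) (nat_lit 1) (.p (nat_lit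 6) (nat_lit 1) (.n (nat_lit 7) (nat_lit 2) (.p (nat_lit 9) (nat_lit 2) (.p (nat_lit 10) (nat_lit 1) (.p (nat_lit 11) (nat_lit 2) (.p (nat_lit 14) (nat_lit 2) (.n (nat_lit 17) (nat_lit 2) (.n (nat_lit 19) (nat_lit 1) (.n (nat_lit 20) (nat_lit 1) (.n (nat_lit 27) (nat_lit 2) (.p (nat_lit 28) (nat_lit 3) (.p (nat_lit 29) (nat_lit 1) (.p (nat_lit 31) (nat_lit 1) (.p (nat_lit 32) (nat_lit 2) (.n (nat_lit 33) (nat_lit 1) (.p (nat_lit 34) (nat_lit 3) (.n (nat_lit 36) (nat_lit 3) (.n (nat_lit 38) (nat_lit 2) (.n (nat_lit 39) (nat_lit 1) (.n (nat_lit 40) (nat_lit 1) (.p (nat_lit 41) (nat_lit 1) (.n (nat_lit 44) (nat_lit 1) (.p (nat_lit 45) (nat_lit 1) (.p (nat_lit 49) (nat_lit 2) (.p (nat_lit 50) (nat_lit 1) (.p (nat_lit 53) (nat_lit 1) (.p (nat_lit 54) (nat_lit 1) (.n (nat_lit 55) (nat_lit 1) (.p (nat_lit 327) (nat_lit 1) (.n (nat_lit 338) (nat_lit 1) .z)))))))))))))))))))))))))))))))))))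 .nil)))))))))))))))))))))))))

noncomputable def dC1b_i15 : IL := (.e false (nat_lit 2) (nat_lit 317) (nat_lit 0) (nat_lit 19) (.e false (nat_lit 2) (nat_lit 318) (nat_lit 0) (nat_lit 19) (.e false (nat_lit 3) (nat_lit 302) (nat_lit 0) (nat_lit 19) (.e false (nat_lit 1) (nat_lit 319) (nat_lit 0) (nat_lit 19) (.e true (nat_lit 3) (nat_lit 132) (nat_lit 5) (nat_lit 14) (.e false (nat_lit 2) (nat_lit 133) (nat_lit 5) (nat_lit 14) (.e false (nat_lit 1) (nat_lit 134) (nat_lit 5) (nat_lit 14) (.e true (nat_lit 3) (nat_lit 135) (nat_lit 5) (nat_lit 14) (.e false (nat_lit 3) (nat_lit 136) (nat_lit 5) (nat_lit 14) (.e true (nat_lit 2) (nat_lit 137) (nat_lit 5) (nat_lit 14) (.e true (nat_lit 1) (nat_lit 138) (nat_lit 5) (nat_lit 14) (.e false (nat_lit 1) (nat_lit 139) (nat_lit 5) (nat_lit 14) (.e false (nat_lit 1) (nat_lit 140) (nat_lit 5) (nat_lit 14) (.e true (nat_lit 3) (nat_lit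 141) (nat_lit 5) (nat_lit 14) (.e false (nat_lit 3) (nat_lit 142) (nat_lit 5) (nat_lit 14) (.e true (nat_lit 1) (nat_lit 144) (nat_lit 5) (nat_lit 14) (.e false (nat_lit 3) (nat_lit 145) (nat_lit 5) (nat_lit 14) (.e false (nat_lit 2) (nat_lit 146) (nat_lit 5) (nat_lit 14) (.e true (nat_lit 2) (nat_lit 147) (nat_lit 5) (nat_lit 14) (.e false (nat_lit 2) (nat_lit 148) (nat_lit 5) (nat_lit 14) (.e false (nat_lit 2) (nat_lit 149) (nat_lit 5) (nat_lit 14) (.e false (nat_lit 3) (nat_lit 150) (nat_lit 5) (nat_lit 14) (.e true (nat_lit 2) (nat_lit 151) (nat_lit 5) (nat_lit 14) (.e true (nat_lit 1) (nat_lit 152) (nat_lit 5) (nat_lit 14) (.u (nat_lit 2) (.n (nat_lit 0) (nat_lit 5) (.p (nat_lit 1) (nat_lit 1) (.n (nat_lit 2) (nat_lit 2) (.p (nat_lit 3) (nat_lit 2) (.p (nat_lit 4) (nat_lit 1) (.p (nat_lit 6) (nat_lit 1) (.p (nat_lit 8) (nat_lit 1) (.n (nat_lit 9) (nat_lit 4) (.n (nat_lit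 10) (nat_lit 1) (.n (nat_lit 11) (nat_lit 4) (.p (nat_lit 12) (nat_lit 3) (.n (nat_lit 13) (nat_lit 1) (.p (nat_lit 14) (nat_lit 5) (.p (nat_lit 17) (nat_lit 7) (.p (nat_lit 18) (nat_lit 1) (.p (nat_lit 26) (nat_lit 5) (.p (nat_lit 29) (nat_lit 4) (.n (nat_lit 30) (nat_lit 2) (.p (nat_lit 32) (nat_lit 2) (.p (nat_lit 33) (nat_lit 5) (.p (nat_lit 35) (nat_lit 3) (.p (nat_lit 36) (nat_lit 3) (.n (nat_lit 37) (nat_lit 4) (.p (nat_lit 38) (nat_lit 3) (.n (nat_lit 39) (nat_lit 2) (.p (nat_lit 40) (nat_lit 2) (.p (nat_lit 41) (nat_lit 1) (.p (nat_lit 49) (nat_lit 1) (.n (nat_lit 50) (nat_lit 1) (.p (nat_lit 51) (nat_lit 1) (.n (nat_lit 53) (nat_lit 3) (.p (nat_lit 54) (nat_lit 1) (.n (nat_lit 55) (nat_lit 1) (.n (nat_lit 57) (nat_lit 1) (.p (nat_lit 58) (nat_lit 1) (.n (nat_lit 61) (nat_lit 1) (.p (nat_lit 63) (nat_lit 1) (.n (nat_lit 64) (nat_lit 1) (.p (nat_lit 69) (nat_lit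 1) (.n (nat_lit 70) (nat_lit 2) (.p (nat_lit 407) (nat_lit 1) (.n (nat_lit 408) (nat_lit 1) (.p (nat_lit 409) (nat_lit 1) (.n (nat_lit 415) (nat_lit 1) (.n (nat_lit 420) (nat_lit 1) (.n (nat_lit 425) (nat_lit 1) (.n (nat_lit 433) (nat_lit 1) .z))))))))))))))))))))))))))))))))))))))))))))))) .nil)))))))))))))))))))))))))

noncomputable def dC1b_i16 : IL := (.s true (nat_lit 1) (nat_lit 28) (nat_lit 2) (nat_lit 5) (nat_lit 2) true (nat_lit 9) true (nat_lit 13) true (nat_lit 1) true (nat_lit 13) true (nat_lit 10) (.e true (nat_lit 1) (nat_lit 152) (nat_lit 6) (nat_lit 9) (.e true (nat_lit 1) (nat_lit 289) (nat_lit 2) (nat_lit 13) (.e true (nat_lit 1) (nat_lit 261) (nat_lit 2) (nat_lit 13) (.e false (nat_lit 2) (nat_lit 262) (nat_lit 2) (nat_lit 13) (.e false (nat_lit 2) (nat_lit 264) (nat_lit 2) (nat_lit 13) (.e false (nat_lit 3) (nat_lit 265) (nat_lit 2) (nat_lit 13) (.e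 false (nat_lit 1) (nat_lit 266) (nat_lit 2) (nat_lit 13) (.e true (nat_lit 3) (nat_lit 267) (nat_lit 2) (nat_lit 13) (.e false (nat_lit 3) (nat_lit 268) (nat_lit 2) (nat_lit 13) (.e false (nat_lit 2) (nat_lit 269) (nat_lit 2) (nat_lit 13) (.e true (nat_lit 2) (nat_lit 270) (nat_lit 2) (nat_lit 13) (.e false (nat_lit 2) (nat_lit 271) (nat_lit 2) (nat_lit 13) (.e false (nat_lit 2) (nat_lit 272) (nat_lit 2) (nat_lit 13) (.e true (nat_lit 1) (nat_lit 273) (nat_lit 2) (nat_lit 13) (.e true (nat_lit 1) (nat_lit 277) (nat_lit 2) (nat_lit 13) (.e false (nat_lit 1) (nat_lit 278) (nat_lit 2) (nat_lit 13) (.e true (nat_lit 2) (nat_lit 279) (nat_lit 2) (nat_lit 13) (.e true (nat_lit 2) (nat_lit 280) (nat_lit 2) (nat_lit 13) (.e false (nat_lit 1) (nat_lit 281) (nat_lit 2) (nat_lit 13) (.e false (nat_lit 3) (nat_lit 286) (nat_lit 2) (nat_lit 13) (.e true (nat_lit 2) (nat_lit 287) (nat_lit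 2) (nat_lit 13) (.e true (nat_lit 1) (nat_lit 288) (nat_lit 2) (nat_lit 13) (.e false (nat_lit 1) (nat_lit 174) (nat_lit 5) (nat_lit 10) (.u (nat_lit 2) (.n (nat_lit 0) (nat_lit 2) (.p (nat_lit 1) (nat_lit 1) (.n (nat_lit 2) (nat_lit 1) (.n (nat_lit 3) (nat_lit 1) (.p (nat_lit 4) (nat_lit 3) (.p (nat_lit 6) (nat_lit 2) (.p (nat_lit 7) (nat_lit 2) (.n (nat_lit 9) (nat_lit 2) (.n (nat_lit 12) (nat_lit 2) (.n (nat_lit 13) (nat_lit 2) (.n (nat_lit 15) (nat_lit 2) (.p (nat_lit 17) (nat_lit 1) (.p (nat_lit 18) (nat_lit 2) (.n (nat_lit 22) (nat_lit 1) (.p (nat_lit 23) (nat_lit 2) (.n (nat_lit 25) (nat_lit 1) (.p (nat_lit 30) (nat_lit 1) (.n (nat_lit 33) (nat_lit 3) .z)))))))))))))))))) .nil)))))))))))))))))))))))))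

noncomputable def dC1b_i17 : IL := (.e true (nat_lit 1) (nat_lit 84) (nat_lit 16) (nat_lit 4) (.e true (nat_lit 2) (nat_lit 290) (nat_lit 2) (nat_lit 13) (.e true (nat_lit 2) (nat_lit 291) (nat_lit 2) (nat_lit 13) (.e true (nat_lit 1) (nat_lit 292) (nat_lit 2) (nat_lit 13) (.e true (nat_lit 1) (nat_lit 293) (nat_lit 2) (nat_lit 13) (.e true (nat_lit 1) (nat_lit 294) (nat_lit 2) (nat_lit 13) (.e true (nat_lit 2) (nat_lit 296) (nat_lit 2) (nat_lit 13) (.e false (nat_lit 2) (nat_lit 297) (nat_lit 2) (nat_lit 13) (.e false (nat_lit 2) (nat_lit 299) (nat_lit 2) (nat_lit 13) (.e true (nat_lit 2) (nat_lit 300) (nat_lit 2) (nat_lit 13) (.e true (nat_lit 2) (nat_lit 301) (nat_lit 2) (nat_lit 13) (.e false (nat_lit 3) (nat_lit 302) (nat_lit 2) (nat_lit 13) (.e true (nat_lit 3) (nat_lit 304) (nat_lit 2) (nat_lit 13) (.e false (nat_lit 1) (nat_lit 305) (nat_lit 2) (nat_lit 13) (.e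 false (nat_lit 3) (nat_lit 307) (nat_lit 2) (nat_lit 13) (.e true (nat_lit 1) (nat_lit 308) (nat_lit 2) (nat_lit 13) (.e true (nat_lit 1) (nat_lit 309) (nat_lit 2) (nat_lit 13) (.e false (nat_lit 1) (nat_lit 310) (nat_lit 2) (nat_lit 13) (.e false (nat_lit 1) (nat_lit 194) (nat_lit 5) (nat_lit 10) (.e false (nat_lit 1) (nat_lit 312) (nat_lit 2) (nat_lit 13) (.e false (nat_lit 3) (nat_lit 316) (nat_lit 2) (nat_lit 13) (.e false (nat_lit 2) (nat_lit 317) (nat_lit 2) (nat_lit 13) (.e true (nat_lit 1) (nat_lit 318) (nat_lit 2) (nat_lit 13) (.e true (nat_lit 1) (nat_lit 319) (nat_lit 2) (nat_lit 13) (.u (nat_lit 2) (.p (nat_lit 1) (nat_lit 4) (.p (nat_lit 2) (nat_lit 2) (.p (nat_lit 3) (nat_lit 2) (.p (nat_lit 4) (nat_lit 2) (.p (nat_lit 5) (nat_lit 2) (.p (nat_lit 6) (nat_lit 1) (.p (nat_lit 9) (nat_lit 3) (.p (nat_lit 10) (nat_lit 1) (.n (nat_lit 13) (nat_lit 1) (.n (nat_lit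 14) (nat_lit 2) (.p (nat_lit 15) (nat_lit 3) (.n (nat_lit 16) (nat_lit 1) (.p (nat_lit 17) (nat_lit 1) (.n (nat_lit 19) (nat_lit 1) (.n (nat_lit 21) (nat_lit 1) (.n (nat_lit 23) (nat_lit 1) (.n (nat_lit 24) (nat_lit 1) (.p (nat_lit 27) (nat_lit 1) (.p (nat_lit 29) (nat_lit 2) (.n (nat_lit 33) (nat_lit 1) (.p (nat_lit 173) (nat_lit 1) (.p (nat_lit 179) (nat_lit 1) (.n (nat_lit 180) (nat_lit 1) (.p (nat_lit 183) (nat_lit 1) (.p (nat_lit 187) (nat_lit 1) (.n (nat_lit 193) (nat_lit 1) .z)))))))))))))))))))))))))) .nil)))))))))))))))))))))))))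

noncomputable def dC1b_i18 : IL := (.e true (nat_lit 3) (nat_lit 168) (nat_lit 0) (nat_lit 14) (.e true (nat_lit 3) (nat_lit 172) (nat_lit 0) (nat_lit 14) (.e false (nat_lit 3) (nat_lit 154) (nat_lit 0) (nat_lit 14) (.e true (nat_lit 2) (nat_lit 169) (nat_lit 0) (nat_lit 14) (.e false (nat_lit 3) (nat_lit 171) (nat_lit 0) (nat_lit 14) (.e true (nat_lit 1) (nat_lit 153) (nat_lit 0) (nat_lit 14) (.e false (nat_lit 3) (nat_lit 163) (nat_lit 0) (nat_lit 14) (.e false (nat_lit 1) (nat_lit 132) (nat_lit 1) (nat_lit 13) (.e false (nat_lit 1) (nat_lit 133) (nat_lit 1) (nat_lit 13) (.e false (nat_lit 1) (nat_lit 134) (nat_lit 1) (nat_lit 13) (.e false (nat_lit 2) (nat_lit 137) (nat_lit 1) (nat_lit 13) (.e false (nat_lit 1) (nat_lit 138) (nat_lit 1) (nat_lit 13) (.e true (nat_lit 2) (nat_lit 139) (nat_lit 1) (nat_lit 13) (.e true (nat_lit 1) (nat_lit 141) (nat_lit 1) (nat_lit 13)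 (.e false (nat_lit 1) (nat_lit 143) (nat_lit 1) (nat_lit 13) (.e false (nat_lit 1) (nat_lit 149) (nat_lit 1) (nat_lit 13) (.e false (nat_lit 2) (nat_lit 151) (nat_lit 1) (nat_lit 13) (.e true (nat_lit 1) (nat_lit 152) (nat_lit 1) (nat_lit 13) (.e true (nat_lit 1) (nat_lit 136) (nat_lit 1) (nat_lit 13) (.e true (nat_lit 1) (nat_lit 144) (nat_lit 1) (nat_lit 13) (.e false (nat_lit 3) (nat_lit 145) (nat_lit 1) (nat_lit 13) (.e false (nat_lit 3) (nat_lit 147) (nat_lit 1) (nat_lit 13) (.e true (nat_lit 3) (nat_lit 148) (nat_lit 1) (nat_lit 13) (.e true (nat_lit 3) (nat_lit 135) (nat_lit 1) (nat_lit 13) (.u (nat_lit 2) (.p (nat_lit 2) (nat_lit 1) (.p (nat_lit 4) (nat_lit 2) (.n (nat_lit 5) (nat_lit 1) (.p (nat_lit 7) (nat_lit 1) (.p (nat_lit 8) (nat_lit 1) (.n (nat_lit 11) (nat_lit 1) (.p (nat_lit 12) (nat_lit 1) (.n (nat_lit 14) (nat_lit 1) (.p (nat_lit 17) (nat_lit 1) (.p (nat_lit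 22) (nat_lit 1) (.n (nat_lit 23) (nat_lit 1) (.n (nat_lit 25) (nat_lit 1) (.n (nat_lit 27) (nat_lit 1) (.n (nat_lit 28) (nat_lit 1) (.n (nat_lit 32) (nat_lit 1) (.p (nat_lit 33) (nat_lit 1) (.p (nat_lit 163) (nat_lit 1) (.p (nat_lit 164) (nat_lit 1) (.p (nat_lit 168) (nat_lit 1) (.n (nat_lit 170) (nat_lit 1) (.n (nat_lit 171) (nat_lit 1) (.n (nat_lit 176) (nat_lit 1) (.p (nat_lit 177) (nat_lit 1) (.p (nat_lit 178) (nat_lit 1) (.p (nat_lit 179) (nat_lit 1) (.n (nat_lit 180) (nat_lit 1) (.n (nat_lit 181) (nat_lit 1) (.n (nat_lit 183) (nat_lit 1) (.n (nat_lit 184) (nat_lit 1) (.n (nat_lit 186) (nat_lit 1) (.n (nat_lit 187) (nat_lit 1) (.n (nat_lit 188) (nat_lit 1) (.n (nat_lit 196) (nat_lit 1) (.p (nat_lit 199) (nat_lit 1) (.n (nat_lit 200) (nat_lit 1) (.p (nat_lit 201) (nat_lit 1) .z)))))))))))))))))))))))))))))))))))) .nil)))))))))))))))))))))))))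

noncomputable def dC1b_i19 : IL := (.e true (nat_lit 3) (nat_lit 226) (nat_lit 2) (nat_lit 17) (.e true (nat_lit 3) (nat_lit 227) (nat_lit 2) (nat_lit 17) (.e true (nat_lit 2) (nat_lit 229) (nat_lit 2) (nat_lit 17) (.e true (nat_lit 1) (nat_lit 232) (nat_lit 2) (nat_lit 17) (.e true (nat_lit 1) (nat_lit 233) (nat_lit 2) (nat_lit 17) (.e true (nat_lit 1) (nat_lit 234) (nat_lit 2) (nat_lit 17) (.e false (nat_lit 1) (nat_lit 239) (nat_lit 2) (nat_lit 17) (.e false (nat_lit 3) (nat_lit 240) (nat_lit 2) (nat_lit 17) (.e true (nat_lit 3) (nat_lit 241) (nat_lit 2) (nat_lit 17) (.e true (nat_lit 2) (nat_lit 242) (nat_lit 2) (nat_lit 17) (.e true (nat_lit 1) (nat_lit 243) (nat_lit 2) (nat_lit 17) (.e false (nat_lit 1) (nat_lit 245) (nat_lit 2) (nat_lit 17) (.e false (nat_lit 1) (nat_lit 248) (nat_lit 2) (nat_lit 17) (.e false (nat_lit 3) (nat_lit 250) (nat_lit 2) (nat_lit 17) (.e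 false (nat_lit 1) (nat_lit 215) (nat_lit 2) (nat_lit 17) (.e true (nat_lit 2) (nat_lit 221) (nat_lit 2) (nat_lit 17) (.e true (nat_lit 2) (nat_lit 231) (nat_lit 2) (nat_lit 17) (.e true (nat_lit 1) (nat_lit 236) (nat_lit 2) (nat_lit 17) (.e true (nat_lit 2) (nat_lit 225) (nat_lit 2) (nat_lit 17) (.e false (nat_lit 2) (nat_lit 228) (nat_lit 2) (nat_lit 17) (.e false (nat_lit 3) (nat_lit 238) (nat_lit 2) (nat_lit 17) (.e true (nat_lit 3) (nat_lit 246) (nat_lit 2) (nat_lit 17) (.e false (nat_lit 3) (nat_lit 247) (nat_lit 2) (nat_lit 17) (.u (nat_lit 2) (.n (nat_lit 0) (nat_lit 6) (.p (nat_lit 1) (nat_lit 1) (.n (nat_lit 2) (nat_lit 1) (.n (nat_lit 3) (nat_lit 3) (.p (nat_lit 4) (nat_lit 5) (.p (nat_lit 6) (nat_lit 3) (.n (nat_lit 7) (nat_lit 2) (.p (nat_lit 8) (nat_lit 5) (.p (nat_lit 10) (nat_lit 2) (.n (nat_lit 11) (nat_lit 3) (.p (nat_lit 14) (nat_lit 3) (.n (nat_lit 15)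 (nat_lit 4) (.n (nat_lit 17) (nat_lit 3) (.n (nat_lit 18) (nat_lit 1) (.n (nat_lit 19) (nat_lit 7) (.n (nat_lit 20) (nat_lit 1) (.n (nat_lit 24) (nat_lit 1) (.n (nat_lit 25) (nat_lit 1) (.p (nat_lit 28) (nat_lit 3) (.n (nat_lit 29) (nat_lit 2) (.n (nat_lit 30) (nat_lit 2) (.p (nat_lit 31) (nat_lit 3) (.n (nat_lit 32) (nat_lit 2) (.p (nat_lit 33) (nat_lit 1) (.p (nat_lit 34) (nat_lit 1) (.n (nat_lit 35) (nat_lit 1) (.p (nat_lit 36) (nat_lit 2) (.p (nat_lit 37) (nat_lit 2) (.p (nat_lit 38) (nat_lit 2) (.n (nat_lit 39) (nat_lit 3) (.n (nat_lit 40) (nat_lit 2) (.p (nat_lit 41) (nat_lit 2) (.p (nat_lit 45) (nat_lit 1) (.n (nat_lit 49) (nat_lit 1) (.p (nat_lit 50) (nat_lit 3) (.n (nat_lit 51) (nat_lit 2) (.p (nat_lit 52) (nat_lit 1) (.p (nat_lit 53) (nat_lit 1) (.n (nat_lit 54) (nat_lit 3) (.n (nat_lit 56) (nat_lit 2) (.n (nat_lit 57) (nat_lit 1) (.p (nat_lit 59) (nat_lit 1)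 (.p (nat_lit 61) (nat_lit 1) (.n (nat_lit 62) (nat_lit 1) (.n (nat_lit 63) (nat_lit 1) (.p (nat_lit 64) (nat_lit 1) (.n (nat_lit 67) (nat_lit 1) (.n (nat_lit 69) (nat_lit 2) (.p (nat_lit 70) (nat_lit 1) (.n (nat_lit 330) (nat_lit 1) (.n (nat_lit 334) (nat_lit 1) (.n (nat_lit 335) (nat_lit 1) (.p (nat_lit 336) (nat_lit 1) (.p (nat_lit 338) (nat_lit 1) (.n (nat_lit 344) (nat_lit 1) (.n (nat_lit 348) (nat_lit 1) (.n (nat_lit 349) (nat_lit 1) (.n (nat_lit 351) (nat_lit 1) (.n (nat_lit 353) (nat_lit 1) (.n (nat_lit 354) (nat_lit 1) .z)))))))))))))))))))))))))))))))))))))))))))))))))))))))))))) (.u (nat_lit 2) (.n (nat_lit 355) (nat_lit 1) (.p (nat_lit 356) (nat_lit 1) (.p (nat_lit 357) (nat_lit 1) (.n (nat_lit 358) (nat_lit 1) (.n (nat_lit 359) (nat_lit 1) (.p (nat_lit 363) (nat_lit 1) (.n (nat_lit 365) (nat_lit 1) .z))))))) .nil)))))))))))))))))))))))))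

noncomputable def dC1b_i20 : IL := (.e false (nat_lit 2) (nat_lit 219) (nat_lit 2) (nat_lit 17) (.e false (nat_lit 1) (nat_lit 220) (nat_lit 2) (nat_lit 17) (.e true (nat_lit 2) (nat_lit 221) (nat_lit 2) (nat_lit 17) (.e false (nat_lit 1) (nat_lit 222) (nat_lit 2) (nat_lit 17) (.e false (nat_lit 1) (nat_lit 223) (nat_lit 2) (nat_lit 17) (.e true (nat_lit 3) (nat_lit 224) (nat_lit 2) (nat_lit 17) (.e true (nat_lit 2) (nat_lit 227) (nat_lit 2) (nat_lit 17) (.e false (nat_lit 1) (nat_lit 229) (nat_lit 2) (nat_lit 17) (.e false (nat_lit 3) (nat_lit 231) (nat_lit 2) (nat_lit 17) (.e false (nat_lit 1) (nat_lit 232) (nat_lit 2) (nat_lit 17) (.e true (nat_lit 1) (nat_lit 233) (nat_lit 2) (nat_lit 17) (.e true (nat_lit 1) (nat_lit 234) (nat_lit 2) (nat_lit 17) (.e false (nat_lit 3) (nat_lit 235) (nat_lit 2) (nat_lit 17) (.e false (nat_lit 2) (nat_lit 236) (nat_lit 2) (nat_lit 17)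 (.e false (nat_lit 1) (nat_lit 237) (nat_lit 2) (nat_lit 17) (.e true (nat_lit 2) (nat_lit 238) (nat_lit 2) (nat_lit 17) (.e false (nat_lit 3) (nat_lit 239) (nat_lit 2) (nat_lit 17) (.e true (nat_lit 2) (nat_lit 241) (nat_lit 2) (nat_lit 17) (.e true (nat_lit 2) (nat_lit 243) (nat_lit 2) (nat_lit 17) (.e true (nat_lit 2) (nat_lit 244) (nat_lit 2) (nat_lit 17) (.e false (nat_lit 1) (nat_lit 245) (nat_lit 2) (nat_lit 17) (.e false (nat_lit 2) (nat_lit 248) (nat_lit 2) (nat_lit 17) (.e false (nat_lit 1) (nat_lit 130) (nat_lit 6) (nat_lit 13) (.e true (nat_lit 1) (nat_lit 287) (nat_lit 1) (nat_lit 18) (.u (nat_lit 2) (.n (nat_lit 0) (nat_lit 5) (.n (nat_lit 1) (nat_lit 2) (.p (nat_lit 2) (nat_lit 3) (.n (nat_lit 3) (nat_lit 2) (.n (nat_lit 4) (nat_lit 3) (.n (nat_lit 5) (nat_lit 1) (.p (nat_lit 6) (nat_lit 2) (.p (nat_lit 8) (nat_lit 1) (.n (nat_lit 9) (nat_lit 2) (.p (nat_lit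 10) (nat_lit 1) (.n (nat_lit 12) (nat_lit 1) (.p (nat_lit 13) (nat_lit 2) (.p (nat_lit 14) (nat_lit 2) (.n (nat_lit 15) (nat_lit 4) (.n (nat_lit 17) (nat_lit 2) (.n (nat_lit 18) (nat_lit 2) (.p (nat_lit 20) (nat_lit 2) (.n (nat_lit 26) (nat_lit 2) (.p (nat_lit 27) (nat_lit 4) (.p (nat_lit 28) (nat_lit 3) (.p (nat_lit 29) (nat_lit 1) (.n (nat_lit 30) (nat_lit 3) (.p (nat_lit 31) (nat_lit 1) (.n (nat_lit 33) (nat_lit 1) (.p (nat_lit 34) (nat_lit 2) (.p (nat_lit 35) (nat_lit 3) (.n (nat_lit 36) (nat_lit 1) (.p (nat_lit 37) (nat_lit 3) (.p (nat_lit 38) (nat_lit 2) (.n (nat_lit 39) (nat_lit 1) (.n (nat_lit 40) (nat_lit 5) (.p (nat_lit 41) (nat_lit 2) (.n (nat_lit 49) (nat_lit 2) (.n (nat_lit 50) (nat_lit 2) (.p (nat_lit 51) (nat_lit 1) (.n (nat_lit 52) (nat_lit 1) (.p (nat_lit 53) (nat_lit 2) (.n (nat_lit 54) (nat_lit 2) (.p (nat_lit 55) (nat_lit 4) (.p (nat_lit 56) (nat_lit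 1) (.p (nat_lit 57) (nat_lit 1) (.n (nat_lit 58) (nat_lit 2) (.n (nat_lit 62) (nat_lit 1) (.n (nat_lit 63) (nat_lit 1) (.p (nat_lit 64) (nat_lit 1) (.n (nat_lit 69) (nat_lit 1) (.p (nat_lit 70) (nat_lit 1) .z))))))))))))))))))))))))))))))))))))))))))))))) .nil)))))))))))))))))))))))))

noncomputable def dC1b_i21 : IL := (.e false (nat_lit 1) (nat_lit 182) (nat_lit 3) (nat_lit 16) (.e false (nat_lit 1) (nat_lit 183) (nat_lit 3) (nat_lit 16) (.e true (nat_lit 1) (nat_lit 184) (nat_lit 3) (nat_lit 16) (.e false (nat_lit 1) (nat_lit 186) (nat_lit 3) (nat_lit 16) (.e true (nat_lit 1) (nat_lit 187) (nat_lit 3) (nat_lit 16) (.e false (nat_lit 1) (nat_lit 188) (nat_lit 3) (nat_lit 16) (.e true (nat_lit 1) (nat_lit 189) (nat_lit 3) (nat_lit 16) (.e false (nat_lit 1) (nat_lit 44) (nat_lit 21) (nat_lit 3) (.e true (nat_lit 1) (nat_lit 44) (nat_lit 23) (nat_lit 3) (.e false (nat_lit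 2) (nat_lit 290) (nat_lit 0) (nat_lit 19) (.e false (nat_lit 3) (nat_lit 291) (nat_lit 0) (nat_lit 19) (.e true (nat_lit 1) (nat_lit 292) (nat_lit 0) (nat_lit 19) (.e false (nat_lit 1) (nat_lit 293) (nat_lit 0) (nat_lit 19) (.e true (nat_lit 3) (nat_lit 294) (nat_lit 0) (nat_lit 19) (.e false (nat_lit 3) (nat_lit 299) (nat_lit 0) (nat_lit 19) (.e false (nat_lit 3) (nat_lit 301) (nat_lit 0) (nat_lit 19) (.e true (nat_lit 3) (nat_lit 304) (nat_lit 0) (nat_lit 19) (.e true (nat_lit 2) (nat_lit 307) (nat_lit 0) (nat_lit 19) (.e true (nat_lit 3) (nat_lit 308) (nat_lit 0) (nat_lit 19) (.e false (nat_lit 1) (nat_lit 310) (nat_lit 0) (nat_lit 19) (.e false (nat_lit 1) (nat_lit 311) (nat_lit 0) (nat_lit 19) (.e false (nat_lit 2) (nat_lit 317) (nat_lit 0) (nat_lit 19) (.e false (nat_lit 1) (nat_lit 319) (nat_lit 0) (nat_lit 19) (.e false (nat_lit 1) (nat_lit 231) (nat_lit 2) (nat_lit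 17) (.u (nat_lit 2) (.p (nat_lit 0) (nat_lit 1) (.p (nat_lit 1) (nat_lit 1) (.n (nat_lit 2) (nat_lit 1) (.n (nat_lit 3) (nat_lit 2) (.n (nat_lit 4) (nat_lit 1) (.p (nat_lit 6) (nat_lit 2) (.n (nat_lit 7) (nat_lit 2) (.p (nat_lit 8) (nat_lit 2) (.p (nat_lit 9) (nat_lit 1) (.p (nat_lit 10) (nat_lit 1) (.n (nat_lit 12) (nat_lit 2) (.n (nat_lit 17) (nat_lit 1) (.p (nat_lit 19) (nat_lit 1) (.p (nat_lit 21) (nat_lit 1) (.n (nat_lit 22) (nat_lit 1) (.n (nat_lit 23) (nat_lit 1) (.n (nat_lit 27) (nat_lit 1) (.n (nat_lit 29) (nat_lit 1) (.p (nat_lit 30) (nat_lit 1) (.p (nat_lit 31) (nat_lit 2) (.p (nat_lit 32) (nat_lit 1) (.n (nat_lit 33) (nat_lit 1) (.p (nat_lit 36) (nat_lit 1) (.p (nat_lit 37) (nat_lit 1) (.p (nat_lit 39) (nat_lit 1) (.n (nat_lit 42) (nat_lit 1) (.p (nat_lit 43) (nat_lit 1) (.n (nat_lit 44) (nat_lit 1) (.p (nat_lit 45) (nat_lit 1) (.n (nat_lit 46) (nat_lit 1) (.p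 (nat_lit 48) (nat_lit 1) (.n (nat_lit 50) (nat_lit 1) (.n (nat_lit 57) (nat_lit 1) (.p (nat_lit 58) (nat_lit 1) .z)))))))))))))))))))))))))))))))))) .nil)))))))))))))))))))))))))

noncomputable def dC1b_i22 : IL := (.e false (nat_lit 2) (nat_lit 314) (nat_lit 0) (nat_lit 19) (.e true (nat_lit 2) (nat_lit 316) (nat_lit 0) (nat_lit 19) (.e true (nat_lit 1) (nat_lit 291) (nat_lit 0) (nat_lit 19) (.e false (nat_lit 2) (nat_lit 308) (nat_lit 0) (nat_lit 19) (.e false (nat_lit 3) (nat_lit 312) (nat_lit 0) (nat_lit 19) (.e false (nat_lit 2) (nat_lit 319) (nat_lit 0) (nat_lit 19) (.e false (nat_lit 1) (nat_lit 132) (nat_lit 5) (nat_lit 14) (.e false (nat_lit 1) (nat_lit 133) (nat_lit 5) (nat_lit 14) (.e false (nat_lit 1) (nat_lit 134) (nat_lit 5) (nat_lit 14) (.e false (nat_lit 2) (nat_lit 137) (nat_lit 5) (nat_lit 14) (.e false (nat_lit 1) (nat_lit 138) (nat_lit 5) (nat_lit 14)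 (.e true (nat_lit 2) (nat_lit 139) (nat_lit 5) (nat_lit 14) (.e true (nat_lit 1) (nat_lit 141) (nat_lit 5) (nat_lit 14) (.e false (nat_lit 1) (nat_lit 143) (nat_lit 5) (nat_lit 14) (.e false (nat_lit 1) (nat_lit 149) (nat_lit 5) (nat_lit 14) (.e false (nat_lit 2) (nat_lit 151) (nat_lit 5) (nat_lit 14) (.e true (nat_lit 1) (nat_lit 152) (nat_lit 5) (nat_lit 14) (.e true (nat_lit 1) (nat_lit 136) (nat_lit 5) (nat_lit 14) (.e true (nat_lit 1) (nat_lit 144) (nat_lit 5) (nat_lit 14) (.e false (nat_lit 3) (nat_lit 145) (nat_lit 5) (nat_lit 14) (.e false (nat_lit 3) (nat_lit 147) (nat_lit 5) (nat_lit 14) (.e true (nat_lit 3) (nat_lit 148) (nat_lit 5) (nat_lit 14) (.e true (nat_lit 3) (nat_lit 135) (nat_lit 5) (nat_lit 14) (.u (nat_lit 2) (.n (nat_lit 0) (nat_lit 1) (.p (nat_lit 1) (nat_lit 1) (.n (nat_lit 2) (nat_lit 1) (.p (nat_lit 3) (nat_lit 3) (.n (nat_lit 4) (nat_lit 2) (.p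 (nat_lit 5) (nat_lit 1) (.p (nat_lit 6) (nat_lit 2) (.n (nat_lit 7) (nat_lit 2) (.p (nat_lit 8) (nat_lit 3) (.p (nat_lit 9) (nat_lit 1) (.n (nat_lit 10) (nat_lit 2) (.p (nat_lit 11) (nat_lit 2) (.p (nat_lit 12) (nat_lit 1) (.n (nat_lit 13) (nat_lit 1) (.p (nat_lit 14) (nat_lit 2) (.p (nat_lit 15) (nat_lit 2) (.p (nat_lit 17) (nat_lit 1) (.p (nat_lit 18) (nat_lit 2) (.n (nat_lit 20) (nat_lit 2) (.p (nat_lit 21) (nat_lit 1) (.n (nat_lit 26) (nat_lit 3) (.p (nat_lit 27) (nat_lit 2) (.n (nat_lit 28) (nat_lit 1) (.p (nat_lit 31) (nat_lit 1) (.n (nat_lit 32) (nat_lit 1) (.n (nat_lit 33) (nat_lit 1) (.n (nat_lit 34) (nat_lit 3) (.n (nat_lit 37) (nat_lit 1) (.n (nat_lit 38) (nat_lit 1) (.p (nat_lit 39) (nat_lit 1) (.n (nat_lit 49) (nat_lit 2) (.n (nat_lit 50) (nat_lit 1) (.p (nat_lit 51) (nat_lit 1) (.n (nat_lit 54) (nat_lit 2) (.p (nat_lit 55) (nat_lit 2) (.n (nat_lit 57) (nat_lit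 1) (.p (nat_lit 58) (nat_lit 1) (.n (nat_lit 62) (nat_lit 2) (.p (nat_lit 70) (nat_lit 1) (.p (nat_lit 271) (nat_lit 1) (.p (nat_lit 272) (nat_lit 1) (.p (nat_lit 276) (nat_lit 1) (.n (nat_lit 278) (nat_lit 1) (.n (nat_lit 279) (nat_lit 1) (.n (nat_lit 284) (nat_lit 1) (.p (nat_lit 285) (nat_lit 1) (.p (nat_lit 286) (nat_lit 1) (.p (nat_lit 287) (nat_lit 1) (.n (nat_lit 288) (nat_lit 1) (.n (nat_lit 289) (nat_lit 1) (.p (nat_lit 405) (nat_lit 2) (.p (nat_lit 407) (nat_lit 1) (.n (nat_lit 410) (nat_lit 1) (.p (nat_lit 412) (nat_lit 1) (.n (nat_lit 413) (nat_lit 1) (.n (nat_lit 415) (nat_lit 1) (.n (nat_lit 416) (nat_lit 1) (.p (nat_lit 419) (nat_lit 1) (.p (nat_lit 422) (nat_lit 1) (.n (nat_lit 424) (nat_lit 1) .z)))))))))))))))))))))))))))))))))))))))))))))))))))))))))))) (.u (nat_lit 2) (.n (nat_lit 425) (nat_lit 1) (.n (nat_lit 427) (nat_lit 1) (.n (nat_lit 433) (nat_lit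 1) .z))) .nil)))))))))))))))))))))))))

noncomputable def dC1b_i23 : IL := (.s false (nat_lit 1) (nat_lit 28) (nat_lit 2) (nat_lit 2) (nat_lit 5) true (nat_lit 4) true (nat_lit 10) true (nat_lit 1) true (nat_lit 13) true (nat_lit 13) (.s true (nat_lit 1) (nat_lit 77) (nat_lit 1) (nat_lit 2) (nat_lit 2) true (nat_lit 10) true (nat_lit 13) false (nat_lit 4) true (nat_lit 14) true (nat_lit 13) (.e true (nat_lit 1) (nat_lit 45) (nat_lit 28) (nat_lit 1) (.e false (nat_lit 1) (nat_lit 261) (nat_lit 2) (nat_lit 13) (.e true (nat_lit 2) (nat_lit 262) (nat_lit 2) (nat_lit 13) (.e true (nat_lit 2) (nat_lit 264) (nat_lit 2) (nat_lit 13) (.e true (nat_lit 3) (nat_lit 265) (nat_lit 2) (nat_lit 13) (.e true (nat_lit 1) (nat_lit 266) (nat_lit 2) (nat_lit 13) (.e false (nat_lit 3) (nat_lit 267) (nat_lit 2) (nat_lit 13) (.e true (nat_lit 3) (nat_lit 268) (nat_lit 2) (nat_lit 13) (.e true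 (nat_lit 2) (nat_lit 269) (nat_lit 2) (nat_lit 13) (.e false (nat_lit 2) (nat_lit 270) (nat_lit 2) (nat_lit 13) (.e true (nat_lit 3) (nat_lit 271) (nat_lit 2) (nat_lit 13) (.e true (nat_lit 2) (nat_lit 272) (nat_lit 2) (nat_lit 13) (.e false (nat_lit 1) (nat_lit 273) (nat_lit 2) (nat_lit 13) (.e false (nat_lit 1) (nat_lit 277) (nat_lit 2) (nat_lit 13) (.e true (nat_lit 1) (nat_lit 278) (nat_lit 2) (nat_lit 13) (.e false (nat_lit 2) (nat_lit 279) (nat_lit 2) (nat_lit 13) (.e false (nat_lit 1) (nat_lit 280) (nat_lit 2) (nat_lit 13) (.e true (nat_lit 2) (nat_lit 281) (nat_lit 2) (nat_lit 13) (.e true (nat_lit 3) (nat_lit 286) (nat_lit 2) (nat_lit 13) (.e false (nat_lit 2) (nat_lit 287) (nat_lit 2) (nat_lit 13) (.e false (nat_lit 1) (nat_lit 288) (nat_lit 2) (nat_lit 13) (.e false (nat_lit 1) (nat_lit 326) (nat_lit 1) (nat_lit 14) (.u (nat_lit 2) (.p (nat_lit 0) (nat_lit 1)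 (.n (nat_lit 1) (nat_lit 1) (.p (nat_lit 2) (nat_lit 2) (.n (nat_lit 4) (nat_lit 2) (.n (nat_lit 5) (nat_lit 1) (.n (nat_lit 6) (nat_lit 2) (.n (nat_lit 7) (nat_lit 2) (.n (nat_lit 8) (nat_lit 1) (.p (nat_lit 9) (nat_lit 2) (.n (nat_lit 10) (nat_lit 1) (.p (nat_lit 12) (nat_lit 2) (.p (nat_lit 13) (nat_lit 1) (.n (nat_lit 16) (nat_lit 2) (.n (nat_lit 18) (nat_lit 2) (.p (nat_lit 19) (nat_lit 1) (.p (nat_lit 22) (nat_lit 1) (.n (nat_lit 23) (nat_lit 2) (.p (nat_lit 25) (nat_lit 1) (.n (nat_lit 30) (nat_lit 2) (.p (nat_lit 33) (nat_lit 3) .z)))))))))))))))))))) .nil)))))))))))))))))))))))))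

noncomputable def dC1b_i24 : IL := (.s false (nat_lit 1) (nat_lit 32) (nat_lit 2) (nat_lit 2) (nat_lit 5) true (nat_lit 4) true (nat_lit 10) true (nat_lit 1) true (nat_lit 13) true (nat_lit 13) (.e false (nat_lit 1) (nat_lit 83) (nat_lit 16) (nat_lit 4) (.e false (nat_lit 1) (nat_lit 181) (nat_lit 5) (nat_lit 10) (.e true (nat_lit 1) (nat_lit 45) (nat_lit 32) (nat_lit 1) (.e false (nat_lit 2) (nat_lit 291) (nat_lit 2) (nat_lit 13) (.e false (nat_lit 3) (nat_lit 292) (nat_lit 2) (nat_lit 13) (.e false (nat_lit 1) (nat_lit 293) (nat_lit 2) (nat_lit 13) (.e false (nat_lit 1) (nat_lit 294) (nat_lit 2) (nat_lit 13) (.e false (nat_lit 3) (nat_lit 295) (nat_lit 2) (nat_lit 13) (.e true (nat_lit 1) (nat_lit 296) (nat_lit 2) (nat_lit 13) (.e false (nat_lit 1) (nat_lit 297) (nat_lit 2) (nat_lit 13) (.e false (nat_lit 1) (nat_lit 299) (nat_lit 2) (nat_lit 13) (.e false (nat_lit 1)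 (nat_lit 300) (nat_lit 2) (nat_lit 13) (.e true (nat_lit 3) (nat_lit 301) (nat_lit 2) (nat_lit 13) (.e true (nat_lit 1) (nat_lit 302) (nat_lit 2) (nat_lit 13) (.e true (nat_lit 3) (nat_lit 304) (nat_lit 2) (nat_lit 13) (.e true (nat_lit 3) (nat_lit 307) (nat_lit 2) (nat_lit 13) (.e true (nat_lit 3) (nat_lit 308) (nat_lit 2) (nat_lit 13) (.e false (nat_lit 1) (nat_lit 310) (nat_lit 2) (nat_lit 13) (.e true (nat_lit 1) (nat_lit 312) (nat_lit 2) (nat_lit 13) (.e true (nat_lit 2) (nat_lit 316) (nat_lit 2) (nat_lit 13) (.e true (nat_lit 2) (nat_lit 317) (nat_lit 2) (nat_lit 13) (.e false (nat_lit 2) (nat_lit 318) (nat_lit 2) (nat_lit 13) (.e true (nat_lit 1) (nat_lit 309) (nat_lit 2) (nat_lit 13) (.u (nat_lit 2) (.p (nat_lit 0) (nat_lit 3) (.n (nat_lit 1) (nat_lit 2) (.p (nat_lit 2) (nat_lit 1) (.n (nat_lit 3) (nat_lit 1) (.p (nat_lit 4) (nat_lit 1) (.p (nat_lit 5) (nat_lit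 3) (.p (nat_lit 9) (nat_lit 4) (.n (nat_lit 10) (nat_lit 2) (.p (nat_lit 11) (nat_lit 1) (.p (nat_lit 12) (nat_lit 1) (.n (nat_lit 13) (nat_lit 1) (.n (nat_lit 14) (nat_lit 1) (.p (nat_lit 15) (nat_lit 2) (.n (nat_lit 19) (nat_lit 1) (.n (nat_lit 21) (nat_lit 2) (.p (nat_lit 22) (nat_lit 1) (.n (nat_lit 26) (nat_lit 1) (.p (nat_lit 29) (nat_lit 1) (.p (nat_lit 33) (nat_lit 1) .z))))))))))))))))))) .nil)))))))))))))))))))))))))

noncomputable def dC1b_c35 : Cm := .mk (nat_lit 139) (nat_lit 35) (nat_lit 93) (nat_lit 5) (.c (nat_lit 13) (nat_lit 1) (nat_lit 6) (nat_lit 1) (nat_lit 5) (.c (nat_lit 16) (nat_lit 2) (nat_lit 5) (nat_lit 1) (nat_lit 6) (.c (nat_lit 37) (nat_lit 3) (nat_lit 2) (nat_lit 1) (nat_lit 8) (.c (nat_lit 43) (nat_lit 3) (nat_lit 1) (nat_lit 1) (nat_lit 11) (.c (nat_lit 2032) (nat_lit 0) (nat_lit 18) (nat_lit 1) (nat_lit 14) .nil)))))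

noncomputable def dC1b_i25 : IL := (.e false (nat_lit 3) (nat_lit 181) (nat_lit 0) (nat_lit 12) (.e false (nat_lit 3) (nat_lit 183) (nat_lit 0) (nat_lit 12) (.e false (nat_lit 3) (nat_lit 186) (nat_lit 0) (nat_lit 12) (.e false (nat_lit 3) (nat_lit 187) (nat_lit 0) (nat_lit 12) (.e false (nat_lit 3) (nat_lit 189) (nat_lit 0) (nat_lit 12) (.e false (nat_lit 1) (nat_lit 193) (nat_lit 0) (nat_lit 12) (.e false (nat_lit 3) (nat_lit 132) (nat_lit 2) (nat_lit 10) (.e true (nat_lit 3) (nat_lit 133) (nat_lit 2) (nat_lit 10) (.e false (nat_lit 2) (nat_lit 134) (nat_lit 2) (nat_lit 10) (.e true (nat_lit 1) (nat_lit 135) (nat_lit 2) (nat_lit 10) (.e true (nat_lit 2) (nat_lit 137) (nat_lit 2) (nat_lit 10) (.e false (nat_lit 3) (nat_lit 138) (nat_lit 2) (nat_lit 10) (.e false (nat_lit 2) (nat_lit 139) (nat_lit 2) (nat_lit 10) (.e false (nat_lit 1) (nat_lit 142) (nat_lit 2) (nat_lit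 10) (.e false (nat_lit 3) (nat_lit 143) (nat_lit 2) (nat_lit 10) (.e true (nat_lit 1) (nat_lit 144) (nat_lit 2) (nat_lit 10) (.e false (nat_lit 3) (nat_lit 149) (nat_lit 2) (nat_lit 10) (.e false (nat_lit 1) (nat_lit 150) (nat_lit 2) (nat_lit 10) (.e true (nat_lit 1) (nat_lit 151) (nat_lit 2) (nat_lit 10) (.e true (nat_lit 3) (nat_lit 152) (nat_lit 2) (nat_lit 10) (.e false (nat_lit 2) (nat_lit 140) (nat_lit 2) (nat_lit 10) (.e false (nat_lit 1) (nat_lit 141) (nat_lit 2) (nat_lit 10) (.e true (nat_lit 3) (nat_lit 145) (nat_lit 2) (nat_lit 10) (.e true (nat_lit 2) (nat_lit 136) (nat_lit 2) (nat_lit 10) (.u (nat_lit 2) (.p (nat_lit 0) (nat_lit 1) (.p (nat_lit 2) (nat_lit 1) (.p (nat_lit 3) (nat_lit 2) (.n (nat_lit 4) (nat_lit 1) (.n (nat_lit 5) (nat_lit 3) (.p (nat_lit 7) (nat_lit 1) (.p (nat_lit 9) (nat_lit 2) (.n (nat_lit 10) (nat_lit 1) (.n (nat_lit 11) (nat_lit 5) (.p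 (nat_lit 12) (nat_lit 1) (.p (nat_lit 13) (nat_lit 2) (.n (nat_lit 14) (nat_lit 2) (.p (nat_lit 17) (nat_lit 1) (.p (nat_lit 18) (nat_lit 1) (.n (nat_lit 20) (nat_lit 1) (.p (nat_lit 23) (nat_lit 1) (.p (nat_lit 24) (nat_lit 1) (.n (nat_lit 26) (nat_lit 1) (.n (nat_lit 28) (nat_lit 2) (.n (nat_lit 96) (nat_lit 2) (.n (nat_lit 98) (nat_lit 2) (.n (nat_lit 99) (nat_lit 1) (.p (nat_lit 102) (nat_lit 1) (.n (nat_lit 103) (nat_lit 2) (.p (nat_lit 104) (nat_lit 1) (.p (nat_lit 106) (nat_lit 2) (.n (nat_lit 107) (nat_lit 1) (.p (nat_lit 109) (nat_lit 1) (.n (nat_lit 113) (nat_lit 1) (.n (nat_lit 114) (nat_lit 1) (.p (nat_lit 115) (nat_lit 1) (.p (nat_lit 116) (nat_lit 1) (.p (nat_lit 133) (nat_lit 1) .z))))))))))))))))))))))))))))))))) .nil)))))))))))))))))))))))))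

noncomputable def dC1b_i26 : IL := (.e false (nat_lit 1) (nat_lit 220) (nat_lit 2) (nat_lit 17) (.e false (nat_lit 3) (nat_lit 221) (nat_lit 2) (nat_lit 17) (.e true (nat_lit 2) (nat_lit 222) (nat_lit 2) (nat_lit 17) (.e true (nat_lit 2) (nat_lit 223) (nat_lit 2) (nat_lit 17) (.e false (nat_lit 1) (nat_lit 224) (nat_lit 2) (nat_lit 17) (.e false (nat_lit 3) (nat_lit 227) (nat_lit 2) (nat_lit 17) (.e true (nat_lit 1) (nat_lit 229) (nat_lit 2) (nat_lit 17) (.e false (nat_lit 1) (nat_lit 231) (nat_lit 2) (nat_lit 17) (.e false (nat_lit 1) (nat_lit 232) (nat_lit 2) (nat_lit 17) (.e false (nat_lit 2) (nat_lit 233) (nat_lit 2) (nat_lit 17) (.e false (nat_lit 1) (nat_lit 234) (nat_lit 2) (nat_lit 17) (.e false (nat_lit 3) (nat_lit 235) (nat_lit 2) (nat_lit 17) (.e false (nat_lit 1) (nat_lit 236) (nat_lit 2) (nat_lit 17) (.e false (nat_lit 3) (nat_lit 237) (nat_lit 2) (nat_lit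 17) (.e false (nat_lit 3) (nat_lit 238) (nat_lit 2) (nat_lit 17) (.e true (nat_lit 3) (nat_lit 239) (nat_lit 2) (nat_lit 17) (.e false (nat_lit 2) (nat_lit 240) (nat_lit 2) (nat_lit 17) (.e false (nat_lit 2) (nat_lit 241) (nat_lit 2) (nat_lit 17) (.e true (nat_lit 1) (nat_lit 47) (nat_lit 18) (nat_lit 5) (.e true (nat_lit 1) (nat_lit 103) (nat_lit 7) (nat_lit 12) (.e true (nat_lit 1) (nat_lit 104) (nat_lit 7) (nat_lit 12) (.e false (nat_lit 1) (nat_lit 105) (nat_lit 7) (nat_lit 12) (.e false (nat_lit 1) (nat_lit 270) (nat_lit 1) (nat_lit 18) (.e true (nat_lit 1) (nat_lit 286) (nat_lit 1) (nat_lit 18) (.u (nat_lit 2) (.p (nat_lit 0) (nat_lit 3) (.p (nat_lit 1) (nat_lit 2) (.n (nat_lit 3) (nat_lit 2) (.n (nat_lit 4) (nat_lit 2) (.p (nat_lit 5) (nat_lit 1) (.n (nat_lit 6) (nat_lit 2) (.n (nat_lit 7) (nat_lit 2) (.p (nat_lit 8) (nat_lit 1) (.p (nat_lit 9) (nat_lit 2) (.p (nat_lit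 10) (nat_lit 1) (.n (nat_lit 11) (nat_lit 1) (.p (nat_lit 12) (nat_lit 1) (.n (nat_lit 13) (nat_lit 1) (.n (nat_lit 14) (nat_lit 3) (.p (nat_lit 15) (nat_lit 3) (.n (nat_lit 17) (nat_lit 1) (.p (nat_lit 19) (nat_lit 3) (.n (nat_lit 20) (nat_lit 2) (.p (nat_lit 26) (nat_lit 2) (.n (nat_lit 27) (nat_lit 4) (.n (nat_lit 28) (nat_lit 2) (.p (nat_lit 29) (nat_lit 1) (.p (nat_lit 32) (nat_lit 1) (.n (nat_lit 33) (nat_lit 4) (.n (nat_lit 34) (nat_lit 2) (.n (nat_lit 35) (nat_lit 2) (.p (nat_lit 36) (nat_lit 2) (.p (nat_lit 37) (nat_lit 2) (.n (nat_lit 38) (nat_lit 2) (.p (nat_lit 39) (nat_lit 3) (.n (nat_lit 40) (nat_lit 1) (.p (nat_lit 49) (nat_lit 5) (.n (nat_lit 53) (nat_lit 4) (.p (nat_lit 54) (nat_lit 1) (.n (nat_lit 55) (nat_lit 4) (.p (nat_lit 58) (nat_lit 1) (.p (nat_lit 60) (nat_lit 2) (.p (nat_lit 61) (nat_lit 1) (.n (nat_lit 62) (nat_lit 1) (.p (nat_lit 63) (nat_lit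 2) (.n (nat_lit 64) (nat_lit 1) (.p (nat_lit 69) (nat_lit 1) (.n (nat_lit 70) (nat_lit 1) .z))))))))))))))))))))))))))))))))))))))))))) .nil)))))))))))))))))))))))))

noncomputable def dC1b_i27 : IL := (.e true (nat_lit 2) (nat_lit 182) (nat_lit 3) (nat_lit 16) (.e false (nat_lit 1) (nat_lit 184) (nat_lit 3) (nat_lit 16) (.e true (nat_lit 2) (nat_lit 185) (nat_lit 3) (nat_lit 16) (.e true (nat_lit 1) (nat_lit 188) (nat_lit 3) (nat_lit 16) (.e false (nat_lit 1) (nat_lit 190) (nat_lit 3) (nat_lit 16) (.e false (nat_lit 1) (nat_lit 45) (nat_lit 21) (nat_lit 3) (.e true (nat_lit 1) (nat_lit 45) (nat_lit 23) (nat_lit 3) (.e true (nat_lit 2) (nat_lit 290) (nat_lit 0) (nat_lit 19) (.e false (nat_lit 1) (nat_lit 291) (nat_lit 0) (nat_lit 19) (.e false (nat_lit 1) (nat_lit 292) (nat_lit 0) (nat_lit 19) (.e true (nat_lit 1) (nat_lit 293) (nat_lit 0) (nat_lit 19) (.e false (nat_lit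 3) (nat_lit 294) (nat_lit 0) (nat_lit 19) (.e false (nat_lit 1) (nat_lit 298) (nat_lit 0) (nat_lit 19) (.e false (nat_lit 2) (nat_lit 299) (nat_lit 0) (nat_lit 19) (.e false (nat_lit 1) (nat_lit 301) (nat_lit 0) (nat_lit 19) (.e true (nat_lit 3) (nat_lit 304) (nat_lit 0) (nat_lit 19) (.e false (nat_lit 1) (nat_lit 307) (nat_lit 0) (nat_lit 19) (.e true (nat_lit 1) (nat_lit 310) (nat_lit 0) (nat_lit 19) (.e true (nat_lit 1) (nat_lit 317) (nat_lit 0) (nat_lit 19) (.e true (nat_lit 2) (nat_lit 213) (nat_lit 2) (nat_lit 17) (.e true (nat_lit 2) (nat_lit 216) (nat_lit 2) (nat_lit 17) (.e false (nat_lit 1) (nat_lit 220) (nat_lit 2) (nat_lit 17) (.e false (nat_lit 1) (nat_lit 226) (nat_lit 2) (nat_lit 17) (.e true (nat_lit 1) (nat_lit 231) (nat_lit 2) (nat_lit 17) (.u (nat_lit 2) (.p (nat_lit 0) (nat_lit 1) (.p (nat_lit 1) (nat_lit 1) (.n (nat_lit 2) (nat_lit 1) (.p (nat_lit 3)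 (nat_lit 1) (.n (nat_lit 4) (nat_lit 1) (.n (nat_lit 6) (nat_lit 2) (.p (nat_lit 7) (nat_lit 2) (.p (nat_lit 8) (nat_lit 1) (.n (nat_lit 10) (nat_lit 1) (.p (nat_lit 11) (nat_lit 1) (.p (nat_lit 12) (nat_lit 2) (.n (nat_lit 14) (nat_lit 2) (.n (nat_lit 18) (nat_lit 1) (.n (nat_lit 20) (nat_lit 1) (.n (nat_lit 27) (nat_lit 2) (.p (nat_lit 28) (nat_lit 1) (.p (nat_lit 29) (nat_lit 1) (.n (nat_lit 30) (nat_lit 1) (.p (nat_lit 31) (nat_lit 1) (.n (nat_lit 32) (nat_lit 3) (.n (nat_lit 34) (nat_lit 1) (.p (nat_lit 35) (nat_lit 1) (.n (nat_lit 36) (nat_lit 1) (.p (nat_lit 37) (nat_lit 1) (.n (nat_lit 38) (nat_lit 1) (.p (nat_lit 39) (nat_lit 1) (.p (nat_lit 40) (nat_lit 1) (.n (nat_lit 41) (nat_lit 1) .z)))))))))))))))))))))))))))) .nil)))))))))))))))))))))))))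

noncomputable def dC1b_i28 : IL := (.e false (nat_lit 2) (nat_lit 294) (nat_lit 0) (nat_lit 19) (.e false (nat_lit 2) (nat_lit 309) (nat_lit 0) (nat_lit 19) (.e false (nat_lit 1) (nat_lit 296) (nat_lit 0) (nat_lit 19) (.e true (nat_lit 1) (nat_lit 297) (nat_lit 0) (nat_lit 19) (.e true (nat_lit 3) (nat_lit 317) (nat_lit 0) (nat_lit 19) (.e false (nat_lit 3) (nat_lit 132) (nat_lit 5) (nat_lit 14) (.e true (nat_lit 3) (nat_lit 133) (nat_lit 5) (nat_lit 14) (.e false (nat_lit 2) (nat_lit 134) (nat_lit 5) (nat_lit 14) (.e true (nat_lit 1) (nat_lit 135) (nat_lit 5) (nat_lit 14) (.e true (nat_lit 2) (nat_lit 137) (nat_lit 5) (nat_lit 14) (.e false (nat_lit 3) (nat_lit 138) (nat_lit 5) (nat_lit 14) (.e false (nat_lit 2) (nat_lit 139) (nat_lit 5) (nat_lit 14) (.e false (nat_lit 1) (nat_lit 142) (nat_lit 5) (nat_lit 14) (.e false (nat_lit 3) (nat_lit 143) (nat_lit 5) (nat_lit 14)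 (.e true (nat_lit 1) (nat_lit 144) (nat_lit 5) (nat_lit 14) (.e false (nat_lit 3) (nat_lit 149) (nat_lit 5) (nat_lit 14) (.e false (nat_lit 1) (nat_lit 150) (nat_lit 5) (nat_lit 14) (.e true (nat_lit 1) (nat_lit 151) (nat_lit 5) (nat_lit 14) (.e true (nat_lit 3) (nat_lit 152) (nat_lit 5) (nat_lit 14) (.e false (nat_lit 2) (nat_lit 140) (nat_lit 5) (nat_lit 14) (.e false (nat_lit 1) (nat_lit 141) (nat_lit 5) (nat_lit 14) (.e true (nat_lit 3) (nat_lit 145) (nat_lit 5) (nat_lit 14) (.e true (nat_lit 2) (nat_lit 136) (nat_lit 5) (nat_lit 14) (.u (nat_lit 2) (.n (nat_lit 0) (nat_lit 2) (.p (nat_lit 2) (nat_lit 2) (.p (nat_lit 3) (nat_lit 1) (.p (nat_lit 4) (nat_lit 3) (.p (nat_lit 6) (nat_lit 3) (.n (nat_lit 7) (nat_lit 5) (.p (nat_lit 10) (nat_lit 2) (.n (nat_lit 11) (nat_lit 4) (.n (nat_lit 12) (nat_lit 4) (.p (nat_lit 13) (nat_lit 2) (.n (nat_lit 14) (nat_lit 4) (.n (nat_lit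 15) (nat_lit 3) (.p (nat_lit 17) (nat_lit 2) (.n (nat_lit 18) (nat_lit 3) (.p (nat_lit 19) (nat_lit 5) (.p (nat_lit 20) (nat_lit 4) (.p (nat_lit 26) (nat_lit 4) (.n (nat_lit 27) (nat_lit 4) (.p (nat_lit 28) (nat_lit 2) (.p (nat_lit 29) (nat_lit 3) (.p (nat_lit 30) (nat_lit 4) (.p (nat_lit 31) (nat_lit 2) (.n (nat_lit 32) (nat_lit 4) (.p (nat_lit 33) (nat_lit 2) (.p (nat_lit 34) (nat_lit 1) (.n (nat_lit 35) (nat_lit 4) (.p (nat_lit 36) (nat_lit 2) (.p (nat_lit 37) (nat_lit 2) (.n (nat_lit 39) (nat_lit 2) (.n (nat_lit 41) (nat_lit 5) (.n (nat_lit 49) (nat_lit 2) (.n (nat_lit 50) (nat_lit 1) (.p (nat_lit 51) (nat_lit 1) (.p (nat_lit 53) (nat_lit 1) (.p (nat_lit 54) (nat_lit 2) (.p (nat_lit 55) (nat_lit 2) (.p (nat_lit 57) (nat_lit 2) (.n (nat_lit 58) (nat_lit 2) (.n (nat_lit 60) (nat_lit 2) (.n (nat_lit 63) (nat_lit 1) (.n (nat_lit 70) (nat_lit 1) (.n (nat_lit 269) (nat_lit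 2) (.n (nat_lit 271) (nat_lit 2) (.n (nat_lit 272) (nat_lit 1) (.p (nat_lit 275) (nat_lit 1) (.n (nat_lit 276) (nat_lit 2) (.p (nat_lit 277) (nat_lit 1) (.p (nat_lit 279) (nat_lit 2) (.n (nat_lit 280) (nat_lit 1) (.p (nat_lit 282) (nat_lit 1) (.n (nat_lit 286) (nat_lit 1) (.n (nat_lit 287) (nat_lit 1) (.p (nat_lit 288) (nat_lit 1) (.p (nat_lit 289) (nat_lit 1) (.n (nat_lit 405) (nat_lit 2) (.n (nat_lit 406) (nat_lit 1) (.n (nat_lit 407) (nat_lit 1) (.n (nat_lit 408) (nat_lit 1) (.p (nat_lit 409) (nat_lit 1) (.p (nat_lit 410) (nat_lit 1) .z)))))))))))))))))))))))))))))))))))))))))))))))))))))))))))) (.u (nat_lit 2) (.n (nat_lit 413) (nat_lit 2) (.n (nat_lit 414) (nat_lit 2) (.p (nat_lit 416) (nat_lit 1) (.n (nat_lit 419) (nat_lit 1) (.n (nat_lit 420) (nat_lit 1) (.n (nat_lit 422) (nat_lit 2) (.p (nat_lit 425) (nat_lit 1) (.p (nat_lit 433) (nat_lit 1) .z)))))))) .nil)))))))))))))))))))))))))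

noncomputable def dC1b_i29 : IL := (.e false (nat_lit 1) (nat_lit 278) (nat_lit 2) (nat_lit 13) (.e false (nat_lit 1) (nat_lit 287) (nat_lit 2) (nat_lit 13) (.e false (nat_lit 2) (nat_lit 321) (nat_lit 1) (nat_lit 14) (.e false (nat_lit 2) (nat_lit 322) (nat_lit 1) (nat_lit 14) (.e true (nat_lit 2) (nat_lit 324) (nat_lit 1) (nat_lit 14) (.e true (nat_lit 2) (nat_lit 325) (nat_lit 1) (nat_lit 14) (.e false (nat_lit 1) (nat_lit 46) (nat_lit 21) (nat_lit 2) (.e true (nat_lit 1) (nat_lit 104) (nat_lit 9) (nat_lit 7) (.e true (nat_lit 2) (nat_lit 261) (nat_lit 2) (nat_lit 13) (.e false (nat_lit 3) (nat_lit 262) (nat_lit 2) (nat_lit 13) (.e false (nat_lit 2) (nat_lit 263) (nat_lit 2) (nat_lit 13) (.e true (nat_lit 3) (nat_lit 264) (nat_lit 2) (nat_lit 13) (.e false (nat_lit 1) (nat_lit 265) (nat_lit 2) (nat_lit 13) (.e false (nat_lit 3) (nat_lit 266) (nat_lit 2) (nat_lit 13)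 (.e false (nat_lit 2) (nat_lit 267) (nat_lit 2) (nat_lit 13) (.e false (nat_lit 3) (nat_lit 268) (nat_lit 2) (nat_lit 13) (.e false (nat_lit 1) (nat_lit 269) (nat_lit 2) (nat_lit 13) (.e false (nat_lit 2) (nat_lit 271) (nat_lit 2) (nat_lit 13) (.e true (nat_lit 1) (nat_lit 272) (nat_lit 2) (nat_lit 13) (.e false (nat_lit 1) (nat_lit 273) (nat_lit 2) (nat_lit 13) (.e true (nat_lit 2) (nat_lit 274) (nat_lit 2) (nat_lit 13) (.e true (nat_lit 2) (nat_lit 279) (nat_lit 2) (nat_lit 13) (.e true (nat_lit 1) (nat_lit 280) (nat_lit 2) (nat_lit 13) (.e true (nat_lit 3) (nat_lit 288) (nat_lit 2) (nat_lit 13) (.u (nat_lit 2) (.p (nat_lit 0) (nat_lit 1) (.n (nat_lit 1) (nat_lit 2) (.n (nat_lit 2) (nat_lit 2) (.p (nat_lit 3) (nat_lit 1) (.p (nat_lit 4) (nat_lit 2) (.p (nat_lit 5) (nat_lit 2) (.p (nat_lit 6) (nat_lit 4) (.p (nat_lit 7) (nat_lit 4) (.n (nat_lit 8) (nat_lit 5) (.p (nat_lit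 9) (nat_lit 1) (.p (nat_lit 10) (nat_lit 1) (.n (nat_lit 12) (nat_lit 3) (.n (nat_lit 13) (nat_lit 2) (.n (nat_lit 15) (nat_lit 2) (.p (nat_lit 16) (nat_lit 3) (.p (nat_lit 17) (nat_lit 1) (.n (nat_lit 19) (nat_lit 1) (.p (nat_lit 21) (nat_lit 1) (.n (nat_lit 22) (nat_lit 2) (.p (nat_lit 23) (nat_lit 1) (.p (nat_lit 26) (nat_lit 1) (.p (nat_lit 27) (nat_lit 1) (.n (nat_lit 30) (nat_lit 2) .z))))))))))))))))))))))) .nil)))))))))))))))))))))))))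

noncomputable def dC1b_i30 : IL := (.s false (nat_lit 1) (nat_lit 18) (nat_lit 15) (nat_lit 1) (nat_lit 0) true (nat_lit 1) true (nat_lit 15) true (nat_lit 3) true (nat_lit 5) true (nat_lit 14) (.e false (nat_lit 3) (nat_lit 328) (nat_lit 0) (nat_lit 15) (.e false (nat_lit 3) (nat_lit 330) (nat_lit 0) (nat_lit 15) (.e true (nat_lit 2) (nat_lit 331) (nat_lit 0) (nat_lit 15) (.e true (nat_lit 3) (nat_lit 332) (nat_lit 0) (nat_lit 15) (.e false (nat_lit 1) (nat_lit 334) (nat_lit 0) (nat_lit 15) (.e false (nat_lit 1) (nat_lit 335) (nat_lit 0) (nat_lit 15) (.e false (nat_lit 2) (nat_lit 336) (nat_lit 0) (nat_lit 15) (.e false (nat_lit 2) (nat_lit 337) (nat_lit 0) (nat_lit 15) (.e true (nat_lit 1) (nat_lit 338) (nat_lit 0) (nat_lit 15) (.e true (nat_lit 2) (nat_lit 340) (nat_lit 0) (nat_lit 15) (.e true (nat_lit 1) (nat_lit 341) (nat_lit 0) (nat_lit 15) (.e false (nat_lit 1)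 (nat_lit 64) (nat_lit 18) (nat_lit 3) (.e true (nat_lit 1) (nat_lit 83) (nat_lit 15) (nat_lit 5) (.e false (nat_lit 1) (nat_lit 84) (nat_lit 15) (nat_lit 5) (.e true (nat_lit 1) (nat_lit 85) (nat_lit 15) (nat_lit 5) (.e false (nat_lit 1) (nat_lit 87) (nat_lit 15) (nat_lit 5) (.e false (nat_lit 1) (nat_lit 90) (nat_lit 15) (nat_lit 5) (.e false (nat_lit 2) (nat_lit 320) (nat_lit 1) (nat_lit 14) (.e false (nat_lit 3) (nat_lit 321) (nat_lit 1) (nat_lit 14) (.e true (nat_lit 2) (nat_lit 322) (nat_lit 1) (nat_lit 14) (.e false (nat_lit 3) (nat_lit 323) (nat_lit 1) (nat_lit 14) (.e false (nat_lit 2) (nat_lit 324) (nat_lit 1) (nat_lit 14) (.e true (nat_lit 3) (nat_lit 325) (nat_lit 1) (nat_lit 14) (.u (nat_lit 2) (.p (nat_lit 0) (nat_lit 1) (.n (nat_lit 1) (nat_lit 1) (.p (nat_lit 3) (nat_lit 1) (.n (nat_lit 4) (nat_lit 1) (.p (nat_lit 5) (nat_lit 1) (.n (nat_lit 6) (nat_lit 2)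 (.n (nat_lit 7) (nat_lit 2) (.p (nat_lit 9) (nat_lit 2) (.p (nat_lit 10) (nat_lit 1) (.p (nat_lit 12) (nat_lit 1) (.p (nat_lit 15) (nat_lit 2) (.p (nat_lit 16) (nat_lit 2) (.p (nat_lit 17) (nat_lit 1) (.p (nat_lit 18) (nat_lit 1) (.p (nat_lit 28) (nat_lit 1) (.n (nat_lit 33) (nat_lit 1) .z)))))))))))))))) .nil)))))))))))))))))))))))))

noncomputable def dC1b_i31 : IL := (.e false (nat_lit 1) (nat_lit 348) (nat_lit 0) (nat_lit 15) (.e true (nat_lit 1) (nat_lit 350) (nat_lit 0) (nat_lit 15) (.e false (nat_lit 2) (nat_lit 351) (nat_lit 0) (nat_lit 15) (.e true (nat_lit 2) (nat_lit 352) (nat_lit 0) (nat_lit 15) (.e true (nat_lit 3) (nat_lit 347) (nat_lit 0) (nat_lit 15) (.e true (nat_lit 1) (nat_lit 349) (nat_lit 0) (nat_lit 15) (.e false (nat_lit 1) (nat_lit 188) (nat_lit 5) (nat_lit 10) (.e true (nat_lit 1) (nat_lit 290) (nat_lit 2) (nat_lit 13) (.e true (nat_lit 1) (nat_lit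 291) (nat_lit 2) (nat_lit 13) (.e true (nat_lit 2) (nat_lit 292) (nat_lit 2) (nat_lit 13) (.e false (nat_lit 2) (nat_lit 293) (nat_lit 2) (nat_lit 13) (.e false (nat_lit 3) (nat_lit 294) (nat_lit 2) (nat_lit 13) (.e true (nat_lit 1) (nat_lit 298) (nat_lit 2) (nat_lit 13) (.e true (nat_lit 1) (nat_lit 299) (nat_lit 2) (nat_lit 13) (.e false (nat_lit 1) (nat_lit 301) (nat_lit 2) (nat_lit 13) (.e false (nat_lit 2) (nat_lit 304) (nat_lit 2) (nat_lit 13) (.e true (nat_lit 1) (nat_lit 308) (nat_lit 2) (nat_lit 13) (.e false (nat_lit 1) (nat_lit 309) (nat_lit 2) (nat_lit 13) (.e false (nat_lit 1) (nat_lit 310) (nat_lit 2) (nat_lit 13) (.e true (nat_lit 3) (nat_lit 316) (nat_lit 2) (nat_lit 13) (.e false (nat_lit 3) (nat_lit 317) (nat_lit 2) (nat_lit 13) (.e true (nat_lit 1) (nat_lit 318) (nat_lit 2) (nat_lit 13) (.e true (nat_lit 1) (nat_lit 338) (nat_lit 1) (nat_lit 14) (.e false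 (nat_lit 1) (nat_lit 341) (nat_lit 1) (nat_lit 14) (.u (nat_lit 2) (.p (nat_lit 1) (nat_lit 3) (.p (nat_lit 2) (nat_lit 2) (.p (nat_lit 3) (nat_lit 3) (.p (nat_lit 4) (nat_lit 1) (.n (nat_lit 5) (nat_lit 3) (.n (nat_lit 6) (nat_lit 2) (.n (nat_lit 8) (nat_lit 1) (.p (nat_lit 9) (nat_lit 1) (.p (nat_lit 10) (nat_lit 1) (.n (nat_lit 11) (nat_lit 1) (.n (nat_lit 12) (nat_lit 1) (.p (nat_lit 13) (nat_lit 3) (.p (nat_lit 14) (nat_lit 2) (.n (nat_lit 15) (nat_lit 2) (.n (nat_lit 16) (nat_lit 3) (.n (nat_lit 17) (nat_lit 1) (.n (nat_lit 18) (nat_lit 1) (.p (nat_lit 20) (nat_lit 1) (.p (nat_lit 22) (nat_lit 2) (.p (nat_lit 23) (nat_lit 1) (.n (nat_lit 26) (nat_lit 1) (.p (nat_lit 27) (nat_lit 1) (.n (nat_lit 29) (nat_lit 1) (.p (nat_lit 30) (nat_lit 1) (.n (nat_lit 32) (nat_lit 2) (.n (nat_lit 33) (nat_lit 2) (.p (nat_lit 146) (nat_lit 1) (.n (nat_lit 149) (nat_lit 1) (.n (nat_lit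 150) (nat_lit 1) (.n (nat_lit 151) (nat_lit 1) (.p (nat_lit 155) (nat_lit 1) (.p (nat_lit 156) (nat_lit 1) (.p (nat_lit 222) (nat_lit 1) (.n (nat_lit 223) (nat_lit 1) (.n (nat_lit 225) (nat_lit 1) (.p (nat_lit 227) (nat_lit 1) .z)))))))))))))))))))))))))))))))))))) .nil)))))))))))))))))))))))))

noncomputable def dC1b_i32 : IL := (.e false (nat_lit 1) (nat_lit 45) (nat_lit 34) (nat_lit 1) (.e true (nat_lit 1) (nat_lit 290) (nat_lit 2) (nat_lit 13) (.e true (nat_lit 2) (nat_lit 291) (nat_lit 2) (nat_lit 13) (.e true (nat_lit 3) (nat_lit 292) (nat_lit 2) (nat_lit 13) (.e false (nat_lit 3) (nat_lit 293) (nat_lit 2) (nat_lit 13) (.e true (nat_lit 1) (nat_lit 294) (nat_lit 2) (nat_lit 13) (.e false (nat_lit 1) (nat_lit 299) (nat_lit 2) (nat_lit 13) (.e true (nat_lit 3) (nat_lit 301) (nat_lit 2) (nat_lit 13) (.e true (nat_lit 2) (nat_lit 304) (nat_lit 2) (nat_lit 13) (.e true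 (nat_lit 3) (nat_lit 307) (nat_lit 2) (nat_lit 13) (.e false (nat_lit 3) (nat_lit 317) (nat_lit 2) (nat_lit 13) (.e false (nat_lit 2) (nat_lit 347) (nat_lit 0) (nat_lit 15) (.e false (nat_lit 3) (nat_lit 348) (nat_lit 0) (nat_lit 15) (.e true (nat_lit 2) (nat_lit 349) (nat_lit 0) (nat_lit 15) (.e false (nat_lit 3) (nat_lit 350) (nat_lit 0) (nat_lit 15) (.e false (nat_lit 2) (nat_lit 351) (nat_lit 0) (nat_lit 15) (.e true (nat_lit 3) (nat_lit 352) (nat_lit 0) (nat_lit 15) (.e true (nat_lit 1) (nat_lit 45) (nat_lit 31) (nat_lit 1) (.e true (nat_lit 1) (nat_lit 154) (nat_lit 6) (nat_lit 9) (.e true (nat_lit 1) (nat_lit 157) (nat_lit 6) (nat_lit 9) (.e true (nat_lit 3) (nat_lit 161) (nat_lit 6) (nat_lit 9) (.e true (nat_lit 3) (nat_lit 167) (nat_lit 6) (nat_lit 9) (.e false (nat_lit 3) (nat_lit 173) (nat_lit 6) (nat_lit 9) (.e true (nat_lit 3) (nat_lit 329) (nat_lit 1) (nat_lit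 14) (.u (nat_lit 2) (.p (nat_lit 0) (nat_lit 4) (.n (nat_lit 1) (nat_lit 1) (.n (nat_lit 2) (nat_lit 4) (.p (nat_lit 3) (nat_lit 3) (.n (nat_lit 4) (nat_lit 2) (.n (nat_lit 7) (nat_lit 5) (.n (nat_lit 8) (nat_lit 1) (.p (nat_lit 9) (nat_lit 7) (.n (nat_lit 13) (nat_lit 3) (.n (nat_lit 14) (nat_lit 3) (.p (nat_lit 15) (nat_lit 2) (.n (nat_lit 16) (nat_lit 1) (.p (nat_lit 17) (nat_lit 5) (.p (nat_lit 19) (nat_lit 3) (.p (nat_lit 21) (nat_lit 1) (.p (nat_lit 23) (nat_lit 1) (.n (nat_lit 26) (nat_lit 1) (.n (nat_lit 29) (nat_lit 1) (.p (nat_lit 33) (nat_lit 2) (.p (nat_lit 45) (nat_lit 1) (.n (nat_lit 54) (nat_lit 1) (.p (nat_lit 60) (nat_lit 1) (.p (nat_lit 126) (nat_lit 1) (.p (nat_lit 129) (nat_lit 1) (.p (nat_lit 173) (nat_lit 1) (.n (nat_lit 174) (nat_lit 1) (.n (nat_lit 177) (nat_lit 2) (.n (nat_lit 182) (nat_lit 1) (.p (nat_lit 187) (nat_lit 2) (.p (nat_lit 203) (nat_lit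 2) (.n (nat_lit 205) (nat_lit 4) (.p (nat_lit 206) (nat_lit 3) (.n (nat_lit 207) (nat_lit 2) (.n (nat_lit 211) (nat_lit 3) (.n (nat_lit 212) (nat_lit 2) (.p (nat_lit 213) (nat_lit 2) (.p (nat_lit 215) (nat_lit 1) (.p (nat_lit 222) (nat_lit 1) (.n (nat_lit 224) (nat_lit 1) (.p (nat_lit 226) (nat_lit 1) .z)))))))))))))))))))))))))))))))))))))))) .nil)))))))))))))))))))))))))

noncomputable def dC1b_c260 : Cm := .mk (nat_lit 148) (nat_lit 260) (nat_lit 98) (nat_lit 4) (.c (nat_lit 14) (nat_lit 2) (nat_lit 6) (nat_lit 1) (nat_lit 4) (.c (nat_lit 18) (nat_lit 1) (nat_lit 4) (nat_lit 1) (nat_lit 6) (.c (nat_lit 40) (nat_lit 3) (nat_lit 2) (nat_lit 1) (nat_lit 7) (.c (nat_lit 46) (nat_lit 1) (nat_lit 0) (nat_lit 1) (nat_lit 10) .nil))))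

noncomputable def dC1b_c20 : Cm := .mk (nat_lit 155) (nat_lit 20) (nat_lit 102) (nat_lit 4) (.c (nat_lit 16) (nat_lit 2) (nat_lit 6) (nat_lit 1) (nat_lit 4) (.c (nat_lit 18) (nat_lit 1) (nat_lit 5) (nat_lit 1) (nat_lit 6) (.c (nat_lit 43) (nat_lit 3) (nat_lit 2) (nat_lit 1) (nat_lit 7) (.c (nat_lit 46) (nat_lit 1) (nat_lit 1) (nat_lit 1) (nat_lit 10) .nil))))

noncomputable def dC1b_c261 : Cm := .mk (nat_lit 396) (nat_lit 261) (nat_lit 202) (nat_lit 5) (.c (nat_lit 18) (nat_lit 1) (nat_lit 14) (nat_lit 2) (nat_lit 5) (.c (nat_lit 40) (nat_lit 3) (nat_lit 6) (nat_lit 1) (nat_lit 7) (.c (nat_lit 46) (nat_lit 1) (nat_lit 4) (nat_lit 1) (nat_lit 10) (.c (nat_lit 98) (nat_lit 4) (nat_lit 2) (nat_lit 1) (nat_lit 11) (.c (nat_lit 106) (nat_lit 1) (nat_lit 0) (nat_lit 1) (nat_lit 15) .nil)))))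

noncomputable def dC1b_i33 : IL := (.e false (nat_lit 1) (nat_lit 337) (nat_lit 0) (nat_lit 15) (.e true (nat_lit 1) (nat_lit 340) (nat_lit 0) (nat_lit 15) (.e true (nat_lit 1) (nat_lit 63) (nat_lit 18) (nat_lit 3) (.e false (nat_lit 1) (nat_lit 99) (nat_lit 11) (nat_lit 6) (.e false (nat_lit 1) (nat_lit 100) (nat_lit 11) (nat_lit 6) (.e true (nat_lit 1) (nat_lit 101) (nat_lit 11) (nat_lit 6) (.e true (nat_lit 1) (nat_lit 260) (nat_lit 2) (nat_lit 13) (.e false (nat_lit 2) (nat_lit 261) (nat_lit 2) (nat_lit 13) (.e false (nat_lit 3) (nat_lit 262) (nat_lit 2) (nat_lit 13) (.e true (nat_lit 3) (nat_lit 263) (nat_lit 2) (nat_lit 13) (.e false (nat_lit 1) (nat_lit 264) (nat_lit 2) (nat_lit 13) (.e true (nat_lit 1) (nat_lit 265) (nat_lit 2) (nat_lit 13) (.e false (nat_lit 2) (nat_lit 268) (nat_lit 2) (nat_lit 13) (.e false (nat_lit 1) (nat_lit 270) (nat_lit 2) (nat_lit 13)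 (.e true (nat_lit 2) (nat_lit 271) (nat_lit 2) (nat_lit 13) (.e false (nat_lit 1) (nat_lit 272) (nat_lit 2) (nat_lit 13) (.e false (nat_lit 2) (nat_lit 273) (nat_lit 2) (nat_lit 13) (.e true (nat_lit 3) (nat_lit 274) (nat_lit 2) (nat_lit 13) (.e true (nat_lit 1) (nat_lit 277) (nat_lit 2) (nat_lit 13) (.e true (nat_lit 2) (nat_lit 278) (nat_lit 2) (nat_lit 13) (.e true (nat_lit 2) (nat_lit 279) (nat_lit 2) (nat_lit 13) (.e false (nat_lit 1) (nat_lit 286) (nat_lit 2) (nat_lit 13) (.e true (nat_lit 2) (nat_lit 287) (nat_lit 2) (nat_lit 13) (.e false (nat_lit 2) (nat_lit 288) (nat_lit 2) (nat_lit 13) (.u (nat_lit 2) (.n (nat_lit 0) (nat_lit 6) (.p (nat_lit 1) (nat_lit 2) (.n (nat_lit 3) (nat_lit 2) (.n (nat_lit 4) (nat_lit 5) (.p (nat_lit 5) (nat_lit 1) (.p (nat_lit 6) (nat_lit 4) (.p (nat_lit 7) (nat_lit 4) (.p (nat_lit 8) (nat_lit 3) (.p (nat_lit 9) (nat_lit 2) (.p (nat_lit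 10) (nat_lit 1) (.p (nat_lit 12) (nat_lit 2) (.p (nat_lit 13) (nat_lit 2) (.p (nat_lit 15) (nat_lit 2) (.n (nat_lit 16) (nat_lit 1) (.p (nat_lit 19) (nat_lit 1) (.n (nat_lit 21) (nat_lit 1) (.p (nat_lit 22) (nat_lit 1) (.p (nat_lit 23) (nat_lit 1) (.n (nat_lit 24) (nat_lit 1) (.p (nat_lit 26) (nat_lit 1) (.p (nat_lit 27) (nat_lit 2) (.p (nat_lit 30) (nat_lit 1) (.n (nat_lit 33) (nat_lit 3) .z))))))))))))))))))))))) .nil)))))))))))))))))))))))))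

noncomputable def dC1b_i34 : IL := (.e false (nat_lit 1) (nat_lit 336) (nat_lit 0) (nat_lit 15) (.e false (nat_lit 2) (nat_lit 337) (nat_lit 0) (nat_lit 15) (.e false (nat_lit 1) (nat_lit 340) (nat_lit 0) (nat_lit 15) (.e true (nat_lit 1) (nat_lit 344) (nat_lit 0) (nat_lit 15) (.e false (nat_lit 1) (nat_lit 345) (nat_lit 0) (nat_lit 15) (.e true (nat_lit 3) (nat_lit 260) (nat_lit 2) (nat_lit 13) (.e false (nat_lit 1) (nat_lit 261) (nat_lit 2) (nat_lit 13) (.e true (nat_lit 1) (nat_lit 264) (nat_lit 2) (nat_lit 13) (.e true (nat_lit 1) (nat_lit 266) (nat_lit 2) (nat_lit 13) (.e true (nat_lit 2) (nat_lit 267) (nat_lit 2) (nat_lit 13) (.e true (nat_lit 1) (nat_lit 269) (nat_lit 2) (nat_lit 13) (.e false (nat_lit 2) (nat_lit 271) (nat_lit 2) (nat_lit 13) (.e false (nat_lit 2) (nat_lit 273) (nat_lit 2) (nat_lit 13) (.e true (nat_lit 2) (nat_lit 274) (nat_lit 2) (nat_lit 13)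 (.e false (nat_lit 3) (nat_lit 277) (nat_lit 2) (nat_lit 13) (.e false (nat_lit 2) (nat_lit 278) (nat_lit 2) (nat_lit 13) (.e false (nat_lit 3) (nat_lit 279) (nat_lit 2) (nat_lit 13) (.e true (nat_lit 1) (nat_lit 280) (nat_lit 2) (nat_lit 13) (.e true (nat_lit 1) (nat_lit 288) (nat_lit 2) (nat_lit 13) (.e false (nat_lit 2) (nat_lit 263) (nat_lit 2) (nat_lit 13) (.e true (nat_lit 3) (nat_lit 265) (nat_lit 2) (nat_lit 13) (.e true (nat_lit 3) (nat_lit 272) (nat_lit 2) (nat_lit 13) (.e false (nat_lit 3) (nat_lit 270) (nat_lit 2) (nat_lit 13) (.e true (nat_lit 1) (nat_lit 286) (nat_lit 2) (nat_lit 13) (.u (nat_lit 2) (.p (nat_lit 0) (nat_lit 3) (.n (nat_lit 1) (nat_lit 2) (.p (nat_lit 2) (nat_lit 2) (.n (nat_lit 3) (nat_lit 2) (.n (nat_lit 4) (nat_lit 2) (.n (nat_lit 5) (nat_lit 4) (.p (nat_lit 6) (nat_lit 2) (.p (nat_lit 7) (nat_lit 2) (.p (nat_lit 8) (nat_lit 1) (.p (nat_lit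 9) (nat_lit 4) (.p (nat_lit 10) (nat_lit 1) (.n (nat_lit 12) (nat_lit 3) (.p (nat_lit 13) (nat_lit 4) (.p (nat_lit 15) (nat_lit 2) (.n (nat_lit 16) (nat_lit 1) (.n (nat_lit 19) (nat_lit 3) (.p (nat_lit 21) (nat_lit 1) (.n (nat_lit 24) (nat_lit 1) (.p (nat_lit 26) (nat_lit 1) (.p (nat_lit 27) (nat_lit 1) (.p (nat_lit 30) (nat_lit 2) (.p (nat_lit 33) (nat_lit 3) (.p (nat_lit 173) (nat_lit 1) (.p (nat_lit 178) (nat_lit 1) (.p (nat_lit 182) (nat_lit 1) (.p (nat_lit 184) (nat_lit 1) (.n (nat_lit 187) (nat_lit 1) (.n (nat_lit 192) (nat_lit 1) (.p (nat_lit 193) (nat_lit 1) .z))))))))))))))))))))))))))))) .nil)))))))))))))))))))))))))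

noncomputable def dC1b_i35 : IL := (.e false (nat_lit 3) (nat_lit 216) (nat_lit 2) (nat_lit 17) (.e false (nat_lit 1) (nat_lit 224) (nat_lit 2) (nat_lit 17) (.e true (nat_lit 1) (nat_lit 226) (nat_lit 2) (nat_lit 17) (.e false (nat_lit 3) (nat_lit 227) (nat_lit 2) (nat_lit 17) (.e false (nat_lit 1) (nat_lit 230) (nat_lit 2) (nat_lit 17) (.e true (nat_lit 3) (nat_lit 231) (nat_lit 2) (nat_lit 17) (.e false (nat_lit 3) (nat_lit 233) (nat_lit 2) (nat_lit 17) (.e true (nat_lit 3) (nat_lit 234) (nat_lit 2) (nat_lit 17) (.e false (nat_lit 3) (nat_lit 238) (nat_lit 2) (nat_lit 17) (.e true (nat_lit 1) (nat_lit 239) (nat_lit 2) (nat_lit 17) (.e false (nat_lit 3) (nat_lit 241) (nat_lit 2) (nat_lit 17) (.e true (nat_lit 3) (nat_lit 249) (nat_lit 2) (nat_lit 17) (.e false (nat_lit 1) (nat_lit 46) (nat_lit 19) (nat_lit 4) (.e true (nat_lit 1) (nat_lit 129) (nat_lit 6) (nat_lit 13)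 (.e false (nat_lit 1) (nat_lit 215) (nat_lit 2) (nat_lit 17) (.e false (nat_lit 1) (nat_lit 220) (nat_lit 2) (nat_lit 17) (.e true (nat_lit 2) (nat_lit 221) (nat_lit 2) (nat_lit 17) (.e false (nat_lit 1) (nat_lit 223) (nat_lit 2) (nat_lit 17) (.e true (nat_lit 2) (nat_lit 229) (nat_lit 2) (nat_lit 17) (.e false (nat_lit 1) (nat_lit 236) (nat_lit 2) (nat_lit 17) (.e true (nat_lit 3) (nat_lit 240) (nat_lit 2) (nat_lit 17) (.e false (nat_lit 2) (nat_lit 242) (nat_lit 2) (nat_lit 17) (.e false (nat_lit 1) (nat_lit 243) (nat_lit 2) (nat_lit 17) (.e true (nat_lit 1) (nat_lit 248) (nat_lit 2) (nat_lit 17) (.u (nat_lit 2) (.p (nat_lit 0) (nat_lit 4) (.p (nat_lit 1) (nat_lit 2) (.n (nat_lit 2) (nat_lit 4) (.p (nat_lit 3) (nat_lit 2) (.n (nat_lit 5) (nat_lit 1) (.n (nat_lit 6) (nat_lit 2) (.n (nat_lit 7) (nat_lit 1) (.n (nat_lit 8) (nat_lit 3) (.p (nat_lit 9) (nat_lit 1) (.p (nat_lit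 10) (nat_lit 1) (.n (nat_lit 11) (nat_lit 3) (.n (nat_lit 12) (nat_lit 3) (.n (nat_lit 13) (nat_lit 3) (.p (nat_lit 15) (nat_lit 1) (.n (nat_lit 17) (nat_lit 4) (.p (nat_lit 19) (nat_lit 3) (.n (nat_lit 20) (nat_lit 3) (.n (nat_lit 26) (nat_lit 1) (.n (nat_lit 27) (nat_lit 4) (.n (nat_lit 28) (nat_lit 3) (.n (nat_lit 30) (nat_lit 1) (.n (nat_lit 31) (nat_lit 1) (.p (nat_lit 32) (nat_lit 2) (.n (nat_lit 35) (nat_lit 2) (.n (nat_lit 36) (nat_lit 5) (.p (nat_lit 37) (nat_lit 2) (.p (nat_lit 39) (nat_lit 5) (.p (nat_lit 40) (nat_lit 3) (.p (nat_lit 41) (nat_lit 3) (.p (nat_lit 49) (nat_lit 1) (.p (nat_lit 50) (nat_lit 1) (.p (nat_lit 52) (nat_lit 1) (.n (nat_lit 53) (nat_lit 3) (.p (nat_lit 54) (nat_lit 2) (.n (nat_lit 55) (nat_lit 2) (.n (nat_lit 56) (nat_lit 1) (.n (nat_lit 57) (nat_lit 2) (.p (nat_lit 58) (nat_lit 3) (.p (nat_lit 60) (nat_lit 1) (.p (nat_lit 63) (nat_lit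 2) (.n (nat_lit 64) (nat_lit 1) (.p (nat_lit 69) (nat_lit 3) (.n (nat_lit 70) (nat_lit 3) (.n (nat_lit 331) (nat_lit 1) (.p (nat_lit 346) (nat_lit 1) (.n (nat_lit 348) (nat_lit 1) (.n (nat_lit 353) (nat_lit 1) (.p (nat_lit 354) (nat_lit 1) (.n (nat_lit 356) (nat_lit 1) (.p (nat_lit 364) (nat_lit 1) .z)))))))))))))))))))))))))))))))))))))))))))))))))) .nil)))))))))))))))))))))))))

noncomputable def dC1b_i36 : IL := (.e true (nat_lit 3) (nat_lit 213) (nat_lit 2) (nat_lit 17) (.e true (nat_lit 1) (nat_lit 215) (nat_lit 2) (nat_lit 17) (.e false (nat_lit 1) (nat_lit 216) (nat_lit 2) (nat_lit 17) (.e false (nat_lit 1) (nat_lit 217) (nat_lit 2) (nat_lit 17) (.e false (nat_lit 2) (nat_lit 218) (nat_lit 2) (nat_lit 17) (.e true (nat_lit 2) (nat_lit 219) (nat_lit 2) (nat_lit 17) (.e true (nat_lit 1) (nat_lit 220) (nat_lit 2) (nat_lit 17) (.e true (nat_lit 3) (nat_lit 221) (nat_lit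 2) (nat_lit 17) (.e false (nat_lit 2) (nat_lit 222) (nat_lit 2) (nat_lit 17) (.e false (nat_lit 2) (nat_lit 223) (nat_lit 2) (nat_lit 17) (.e true (nat_lit 1) (nat_lit 224) (nat_lit 2) (nat_lit 17) (.e true (nat_lit 3) (nat_lit 227) (nat_lit 2) (nat_lit 17) (.e false (nat_lit 1) (nat_lit 229) (nat_lit 2) (nat_lit 17) (.e true (nat_lit 1) (nat_lit 231) (nat_lit 2) (nat_lit 17) (.e true (nat_lit 1) (nat_lit 232) (nat_lit 2) (nat_lit 17) (.e true (nat_lit 2) (nat_lit 233) (nat_lit 2) (nat_lit 17) (.e true (nat_lit 1) (nat_lit 234) (nat_lit 2) (nat_lit 17) (.e true (nat_lit 3) (nat_lit 235) (nat_lit 2) (nat_lit 17) (.e true (nat_lit 1) (nat_lit 236) (nat_lit 2) (nat_lit 17) (.e true (nat_lit 3) (nat_lit 237) (nat_lit 2) (nat_lit 17) (.e true (nat_lit 3) (nat_lit 238) (nat_lit 2) (nat_lit 17) (.e false (nat_lit 3) (nat_lit 239) (nat_lit 2) (nat_lit 17) (.e true (nat_lit 2) (nat_lit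 240) (nat_lit 2) (nat_lit 17) (.e true (nat_lit 2) (nat_lit 241) (nat_lit 2) (nat_lit 17) (.u (nat_lit 2) (.n (nat_lit 0) (nat_lit 3) (.n (nat_lit 1) (nat_lit 2) (.n (nat_lit 2) (nat_lit 1) (.p (nat_lit 3) (nat_lit 2) (.p (nat_lit 4) (nat_lit 2) (.n (nat_lit 5) (nat_lit 1) (.p (nat_lit 6) (nat_lit 1) (.p (nat_lit 7) (nat_lit 3) (.n (nat_lit 8) (nat_lit 1) (.n (nat_lit 9) (nat_lit 1) (.p (nat_lit 10) (nat_lit 1) (.p (nat_lit 11) (nat_lit 1) (.p (nat_lit 13) (nat_lit 1) (.p (nat_lit 14) (nat_lit 3) (.n (nat_lit 15) (nat_lit 2) (.n (nat_lit 17) (nat_lit 1) (.p (nat_lit 18) (nat_lit 1) (.n (nat_lit 19) (nat_lit 1) (.p (nat_lit 20) (nat_lit 2) (.n (nat_lit 26) (nat_lit 2) (.p (nat_lit 27) (nat_lit 3) (.p (nat_lit 28) (nat_lit 2) (.n (nat_lit 29) (nat_lit 1) (.p (nat_lit 30) (nat_lit 1) (.p (nat_lit 31) (nat_lit 1) (.n (nat_lit 32) (nat_lit 1) (.p (nat_lit 33) (nat_lit 4) (.p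 (nat_lit 34) (nat_lit 2) (.p (nat_lit 35) (nat_lit 3) (.n (nat_lit 36) (nat_lit 2) (.n (nat_lit 37) (nat_lit 1) (.p (nat_lit 38) (nat_lit 2) (.n (nat_lit 39) (nat_lit 2) (.p (nat_lit 40) (nat_lit 1) (.n (nat_lit 49) (nat_lit 5) (.p (nat_lit 53) (nat_lit 4) (.n (nat_lit 54) (nat_lit 1) (.p (nat_lit 55) (nat_lit 4) (.n (nat_lit 58) (nat_lit 1) (.n (nat_lit 60) (nat_lit 2) (.n (nat_lit 61) (nat_lit 1) (.p (nat_lit 62) (nat_lit 1) (.n (nat_lit 63) (nat_lit 2) (.p (nat_lit 64) (nat_lit 1) (.n (nat_lit 69) (nat_lit 1) (.p (nat_lit 70) (nat_lit 1) .z)))))))))))))))))))))))))))))))))))))))))))))) .nil)))))))))))))))))))))))))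

noncomputable def dC1b_i37 : IL := (.e true (nat_lit 3) (nat_lit 153) (nat_lit 0) (nat_lit 14) (.e true (nat_lit 2) (nat_lit 154) (nat_lit 0) (nat_lit 14) (.e true (nat_lit 3) (nat_lit 155) (nat_lit 0) (nat_lit 14) (.e false (nat_lit 2) (nat_lit 156) (nat_lit 0) (nat_lit 14) (.e false (nat_lit 2) (nat_lit 157) (nat_lit 0) (nat_lit 14) (.e true (nat_lit 1) (nat_lit 162) (nat_lit 0) (nat_lit 14) (.e true (nat_lit 3) (nat_lit 167) (nat_lit 0) (nat_lit 14) (.e true (nat_lit 3) (nat_lit 173) (nat_lit 0) (nat_lit 14) (.e true (nat_lit 3) (nat_lit 30) (nat_lit 13) (nat_lit 3) (.e true (nat_lit 1) (nat_lit 158) (nat_lit 0) (nat_lit 14) (.e true (nat_lit 2) (nat_lit 159) (nat_lit 0) (nat_lit 14) (.e false (nat_lit 2) (nat_lit 160) (nat_lit 0) (nat_lit 14) (.e true (nat_lit 2) (nat_lit 161) (nat_lit 0) (nat_lit 14) (.e true (nat_lit 2) (nat_lit 163) (nat_lit 0) (nat_lit 14) (.e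 true (nat_lit 2) (nat_lit 164) (nat_lit 0) (nat_lit 14) (.e true (nat_lit 1) (nat_lit 165) (nat_lit 0) (nat_lit 14) (.e true (nat_lit 3) (nat_lit 168) (nat_lit 0) (nat_lit 14) (.e false (nat_lit 1) (nat_lit 169) (nat_lit 0) (nat_lit 14) (.e false (nat_lit 3) (nat_lit 52) (nat_lit 6) (nat_lit 8) (.e true (nat_lit 1) (nat_lit 53) (nat_lit 6) (nat_lit 8) (.e false (nat_lit 1) (nat_lit 47) (nat_lit 6) (nat_lit 8) (.e false (nat_lit 1) (nat_lit 48) (nat_lit 6) (nat_lit 8) (.e true (nat_lit 3) (nat_lit 49) (nat_lit 6) (nat_lit 8) (.e true (nat_lit 2) (nat_lit 54) (nat_lit 6) (nat_lit 8) (.u (nat_lit 2) (.p (nat_lit 0) (nat_lit 1) (.n (nat_lit 3) (nat_lit 1) (.p (nat_lit 4) (nat_lit 1) (.n (nat_lit 5) (nat_lit 1) (.p (nat_lit 6) (nat_lit 1) (.n (nat_lit 7) (nat_lit 1) (.p (nat_lit 8) (nat_lit 1) (.p (nat_lit 9) (nat_lit 2) (.n (nat_lit 10) (nat_lit 1) (.n (nat_lit 11) (nat_lit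 1) (.n (nat_lit 12) (nat_lit 1) (.n (nat_lit 15) (nat_lit 2) (.n (nat_lit 17) (nat_lit 1) (.p (nat_lit 18) (nat_lit 1) (.n (nat_lit 19) (nat_lit 1) (.n (nat_lit 20) (nat_lit 1) (.p (nat_lit 22) (nat_lit 3) (.n (nat_lit 23) (nat_lit 1) (.n (nat_lit 24) (nat_lit 1) (.n (nat_lit 25) (nat_lit 1) (.n (nat_lit 26) (nat_lit 1) (.p (nat_lit 27) (nat_lit 2) (.n (nat_lit 29) (nat_lit 2) (.p (nat_lit 30) (nat_lit 1) (.n (nat_lit 31) (nat_lit 2) (.n (nat_lit 32) (nat_lit 1) (.p (nat_lit 36) (nat_lit 2) (.p (nat_lit 37) (nat_lit 1) (.n (nat_lit 39) (nat_lit 1) (.p (nat_lit 46) (nat_lit 1) (.n (nat_lit 95) (nat_lit 1) (.n (nat_lit 96) (nat_lit 1) (.p (nat_lit 98) (nat_lit 1) (.p (nat_lit 101) (nat_lit 1) (.n (nat_lit 102) (nat_lit 1) (.p (nat_lit 183) (nat_lit 2) (.p (nat_lit 185) (nat_lit 1) (.p (nat_lit 186) (nat_lit 1) (.p (nat_lit 187) (nat_lit 1) (.n (nat_lit 188) (nat_lit 1) (.p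 (nat_lit 189) (nat_lit 1) (.n (nat_lit 190) (nat_lit 1) (.p (nat_lit 191) (nat_lit 1) (.n (nat_lit 192) (nat_lit 1) (.n (nat_lit 193) (nat_lit 1) (.p (nat_lit 194) (nat_lit 1) (.n (nat_lit 198) (nat_lit 1) (.n (nat_lit 199) (nat_lit 1) (.p (nat_lit 200) (nat_lit 1) .z))))))))))))))))))))))))))))))))))))))))))))))))) .nil)))))))))))))))))))))))))

noncomputable def dC1b_i38 : IL := (.e true (nat_lit 2) (nat_lit 298) (nat_lit 0) (nat_lit 19) (.e true (nat_lit 1) (nat_lit 299) (nat_lit 0) (nat_lit 19) (.e true (nat_lit 2) (nat_lit 301) (nat_lit 0) (nat_lit 19) (.e false (nat_lit 1) (nat_lit 302) (nat_lit 0) (nat_lit 19) (.e true (nat_lit 1) (nat_lit 304) (nat_lit 0) (nat_lit 19) (.e false (nat_lit 3) (nat_lit 305) (nat_lit 0) (nat_lit 19) (.e false (nat_lit 3) (nat_lit 307) (nat_lit 0) (nat_lit 19) (.e false (nat_lit 3) (nat_lit 308) (nat_lit 0) (nat_lit 19) (.e false (nat_lit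 1) (nat_lit 309) (nat_lit 0) (nat_lit 19) (.e false (nat_lit 2) (nat_lit 310) (nat_lit 0) (nat_lit 19) (.e false (nat_lit 1) (nat_lit 316) (nat_lit 0) (nat_lit 19) (.e false (nat_lit 1) (nat_lit 317) (nat_lit 0) (nat_lit 19) (.e false (nat_lit 2) (nat_lit 318) (nat_lit 0) (nat_lit 19) (.e false (nat_lit 3) (nat_lit 52) (nat_lit 18) (nat_lit 5) (.e true (nat_lit 1) (nat_lit 53) (nat_lit 18) (nat_lit 5) (.e false (nat_lit 1) (nat_lit 47) (nat_lit 18) (nat_lit 5) (.e false (nat_lit 1) (nat_lit 48) (nat_lit 18) (nat_lit 5) (.e true (nat_lit 3) (nat_lit 49) (nat_lit 18) (nat_lit 5) (.e true (nat_lit 2) (nat_lit 54) (nat_lit 18) (nat_lit 5) (.e true (nat_lit 1) (nat_lit 292) (nat_lit 0) (nat_lit 19) (.e true (nat_lit 2) (nat_lit 294) (nat_lit 0) (nat_lit 19) (.e false (nat_lit 3) (nat_lit 77) (nat_lit 13) (nat_lit 8) (.e false (nat_lit 3) (nat_lit 78) (nat_lit 13) (nat_lit 8)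 (.e true (nat_lit 3) (nat_lit 81) (nat_lit 13) (nat_lit 8) (.u (nat_lit 2) (.n (nat_lit 0) (nat_lit 1) (.n (nat_lit 1) (nat_lit 1) (.n (nat_lit 2) (nat_lit 1) (.n (nat_lit 3) (nat_lit 1) (.n (nat_lit 4) (nat_lit 2) (.p (nat_lit 5) (nat_lit 2) (.p (nat_lit 6) (nat_lit 2) (.n (nat_lit 7) (nat_lit 2) (.n (nat_lit 8) (nat_lit 1) (.p (nat_lit 10) (nat_lit 2) (.p (nat_lit 11) (nat_lit 1) (.p (nat_lit 12) (nat_lit 2) (.p (nat_lit 14) (nat_lit 1) (.p (nat_lit 15) (nat_lit 2) (.p (nat_lit 17) (nat_lit 2) (.p (nat_lit 18) (nat_lit 3) (.p (nat_lit 19) (nat_lit 1) (.n (nat_lit 26) (nat_lit 1) (.n (nat_lit 27) (nat_lit 1) (.p (nat_lit 28) (nat_lit 2) (.n (nat_lit 30) (nat_lit 1) (.n (nat_lit 32) (nat_lit 1) (.n (nat_lit 33) (nat_lit 3) (.p (nat_lit 35) (nat_lit 3) (.n (nat_lit 36) (nat_lit 3) (.p (nat_lit 37) (nat_lit 2) (.n (nat_lit 38) (nat_lit 1) (.p (nat_lit 39) (nat_lit 1) (.n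 (nat_lit 41) (nat_lit 2) (.n (nat_lit 141) (nat_lit 1) (.n (nat_lit 142) (nat_lit 1) (.p (nat_lit 144) (nat_lit 1) (.p (nat_lit 147) (nat_lit 1) (.n (nat_lit 148) (nat_lit 1) (.n (nat_lit 405) (nat_lit 1) (.p (nat_lit 407) (nat_lit 1) (.n (nat_lit 408) (nat_lit 2) (.n (nat_lit 409) (nat_lit 1) (.p (nat_lit 411) (nat_lit 1) (.n (nat_lit 412) (nat_lit 1) (.p (nat_lit 413) (nat_lit 2) (.p (nat_lit 414) (nat_lit 1) (.n (nat_lit 416) (nat_lit 1) (.n (nat_lit 417) (nat_lit 1) (.n (nat_lit 419) (nat_lit 2) (.n (nat_lit 424) (nat_lit 1) (.n (nat_lit 425) (nat_lit 2) (.p (nat_lit 431) (nat_lit 2) (.n (nat_lit 432) (nat_lit 1) (.p (nat_lit 433) (nat_lit 1) .z)))))))))))))))))))))))))))))))))))))))))))))))))) .nil)))))))))))))))))))))))))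

noncomputable def dC1b_i39 : IL := (.e true (nat_lit 3) (nat_lit 137) (nat_lit 1) (nat_lit 13) (.e true (nat_lit 3) (nat_lit 138) (nat_lit 1) (nat_lit 13) (.e true (nat_lit 3) (nat_lit 140) (nat_lit 1) (nat_lit 13) (.e true (nat_lit 2) (nat_lit 142) (nat_lit 1) (nat_lit 13) (.e false (nat_lit 2) (nat_lit 144) (nat_lit 1) (nat_lit 13) (.e true (nat_lit 1) (nat_lit 145) (nat_lit 1) (nat_lit 13) (.e true (nat_lit 2) (nat_lit 147) (nat_lit 1) (nat_lit 13) (.e false (nat_lit 2) (nat_lit 148) (nat_lit 1) (nat_lit 13) (.e true (nat_lit 2) (nat_lit 149) (nat_lit 1) (nat_lit 13) (.e true (nat_lit 1) (nat_lit 150) (nat_lit 1) (nat_lit 13) (.e false (nat_lit 3) (nat_lit 151) (nat_lit 1) (nat_lit 13) (.e false (nat_lit 1) (nat_lit 35) (nat_lit 12) (nat_lit 4) (.e false (nat_lit 1) (nat_lit 48) (nat_lit 6) (nat_lit 8) (.e false (nat_lit 1) (nat_lit 54) (nat_lit 6) (nat_lit 8) (.e true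 (nat_lit 2) (nat_lit 153) (nat_lit 0) (nat_lit 14) (.e true (nat_lit 2) (nat_lit 154) (nat_lit 0) (nat_lit 14) (.e false (nat_lit 1) (nat_lit 155) (nat_lit 0) (nat_lit 14) (.e true (nat_lit 1) (nat_lit 156) (nat_lit 0) (nat_lit 14) (.e true (nat_lit 1) (nat_lit 157) (nat_lit 0) (nat_lit 14) (.e true (nat_lit 1) (nat_lit 162) (nat_lit 0) (nat_lit 14) (.e false (nat_lit 1) (nat_lit 167) (nat_lit 0) (nat_lit 14) (.e false (nat_lit 2) (nat_lit 170) (nat_lit 0) (nat_lit 14) (.e true (nat_lit 1) (nat_lit 172) (nat_lit 0) (nat_lit 14) (.e true (nat_lit 1) (nat_lit 173) (nat_lit 0) (nat_lit 14) (.u (nat_lit 2) (.n (nat_lit 2) (nat_lit 1) (.n (nat_lit 6) (nat_lit 1) (.p (nat_lit 7) (nat_lit 1) (.n (nat_lit 8) (nat_lit 2) (.p (nat_lit 9) (nat_lit 2) (.p (nat_lit 10) (nat_lit 1) (.p (nat_lit 12) (nat_lit 1) (.p (nat_lit 15) (nat_lit 3) (.p (nat_lit 19) (nat_lit 1) (.p (nat_lit 21)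 (nat_lit 1) (.p (nat_lit 22) (nat_lit 2) (.n (nat_lit 25) (nat_lit 1) (.p (nat_lit 26) (nat_lit 1) (.n (nat_lit 27) (nat_lit 3) (.p (nat_lit 29) (nat_lit 3) (.n (nat_lit 32) (nat_lit 1) (.p (nat_lit 33) (nat_lit 1) (.p (nat_lit 40) (nat_lit 1) .z)))))))))))))))))) .nil)))))))))))))))))))))))))

noncomputable def dC1b_i40 : IL := (.e false (nat_lit 1) (nat_lit 279) (nat_lit 1) (nat_lit 18) (.e false (nat_lit 3) (nat_lit 280) (nat_lit 1) (nat_lit 18) (.e true (nat_lit 3) (nat_lit 286) (nat_lit 1) (nat_lit 18) (.e false (nat_lit 1) (nat_lit 287) (nat_lit 1) (nat_lit 18) (.e false (nat_lit 3) (nat_lit 288) (nat_lit 1) (nat_lit 18) (.e true (nat_lit 2) (nat_lit 291) (nat_lit 0) (nat_lit 19) (.e false (nat_lit 1) (nat_lit 292) (nat_lit 0) (nat_lit 19) (.e false (nat_lit 1) (nat_lit 293) (nat_lit 0) (nat_lit 19) (.e false (nat_lit 3) (nat_lit 294) (nat_lit 0) (nat_lit 19) (.e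 true (nat_lit 1) (nat_lit 295) (nat_lit 0) (nat_lit 19) (.e true (nat_lit 2) (nat_lit 299) (nat_lit 0) (nat_lit 19) (.e true (nat_lit 1) (nat_lit 300) (nat_lit 0) (nat_lit 19) (.e true (nat_lit 2) (nat_lit 302) (nat_lit 0) (nat_lit 19) (.e true (nat_lit 3) (nat_lit 304) (nat_lit 0) (nat_lit 19) (.e false (nat_lit 1) (nat_lit 305) (nat_lit 0) (nat_lit 19) (.e true (nat_lit 1) (nat_lit 307) (nat_lit 0) (nat_lit 19) (.e true (nat_lit 1) (nat_lit 308) (nat_lit 0) (nat_lit 19) (.e true (nat_lit 3) (nat_lit 310) (nat_lit 0) (nat_lit 19) (.e false (nat_lit 1) (nat_lit 316) (nat_lit 0) (nat_lit 19) (.e false (nat_lit 1) (nat_lit 317) (nat_lit 0) (nat_lit 19) (.e false (nat_lit 1) (nat_lit 296) (nat_lit 0) (nat_lit 19) (.e true (nat_lit 1) (nat_lit 297) (nat_lit 0) (nat_lit 19) (.e true (nat_lit 2) (nat_lit 301) (nat_lit 0) (nat_lit 19) (.e false (nat_lit 3) (nat_lit 318) (nat_lit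 0) (nat_lit 19) (.u (nat_lit 2) (.n (nat_lit 0) (nat_lit 1) (.n (nat_lit 3) (nat_lit 1) (.n (nat_lit 4) (nat_lit 2) (.p (nat_lit 6) (nat_lit 2) (.n (nat_lit 7) (nat_lit 3) (.n (nat_lit 8) (nat_lit 3) (.p (nat_lit 9) (nat_lit 1) (.p (nat_lit 10) (nat_lit 1) (.n (nat_lit 11) (nat_lit 2) (.n (nat_lit 12) (nat_lit 1) (.p (nat_lit 15) (nat_lit 3) (.p (nat_lit 17) (nat_lit 2) (.n (nat_lit 19) (nat_lit 1) (.n (nat_lit 26) (nat_lit 3) (.n (nat_lit 28) (nat_lit 2) (.p (nat_lit 29) (nat_lit 1) (.n (nat_lit 30) (nat_lit 2) (.n (nat_lit 31) (nat_lit 2) (.n (nat_lit 32) (nat_lit 3) (.n (nat_lit 34) (nat_lit 2) (.p (nat_lit 35) (nat_lit 5) (.p (nat_lit 36) (nat_lit 1) (.n (nat_lit 38) (nat_lit 1) (.n (nat_lit 41) (nat_lit 3) (.n (nat_lit 49) (nat_lit 1) (.n (nat_lit 53) (nat_lit 1) (.n (nat_lit 54) (nat_lit 1) (.p (nat_lit 55) (nat_lit 1) (.p (nat_lit 57) (nat_lit 1) (.n (nat_lit 58)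 (nat_lit 1) (.n (nat_lit 69) (nat_lit 1) (.p (nat_lit 70) (nat_lit 1) (.p (nat_lit 406) (nat_lit 1) (.n (nat_lit 408) (nat_lit 1) (.n (nat_lit 409) (nat_lit 1) (.p (nat_lit 415) (nat_lit 1) (.p (nat_lit 417) (nat_lit 1) (.p (nat_lit 419) (nat_lit 1) (.p (nat_lit 422) (nat_lit 1) (.n (nat_lit 432) (nat_lit 1) .z)))))))))))))))))))))))))))))))))))))))) .nil)))))))))))))))))))))))))

noncomputable def dC1b_i41 : IL := (.s false (nat_lit 1) (nat_lit 18) (nat_lit 1) (nat_lit 0) (nat_lit 12) true (nat_lit 2) true (nat_lit 9) true (nat_lit 5) true (nat_lit 18) true (nat_lit 19) (.e false (nat_lit 1) (nat_lit 42) (nat_lit 27) (nat_lit 2) (.e false (nat_lit 2) (nat_lit 84) (nat_lit 12) (nat_lit 9) (.e true (nat_lit 1) (nat_lit 86) (nat_lit 12) (nat_lit 9) (.e false (nat_lit 2) (nat_lit 87) (nat_lit 12) (nat_lit 9) (.e false (nat_lit 1) (nat_lit 90) (nat_lit 12) (nat_lit 9) (.e true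 (nat_lit 1) (nat_lit 92) (nat_lit 12) (nat_lit 9) (.e false (nat_lit 1) (nat_lit 48) (nat_lit 18) (nat_lit 5) (.e false (nat_lit 1) (nat_lit 54) (nat_lit 18) (nat_lit 5) (.e true (nat_lit 3) (nat_lit 260) (nat_lit 1) (nat_lit 18) (.e true (nat_lit 1) (nat_lit 261) (nat_lit 1) (nat_lit 18) (.e false (nat_lit 3) (nat_lit 262) (nat_lit 1) (nat_lit 18) (.e true (nat_lit 3) (nat_lit 263) (nat_lit 1) (nat_lit 18) (.e false (nat_lit 1) (nat_lit 264) (nat_lit 1) (nat_lit 18) (.e false (nat_lit 2) (nat_lit 265) (nat_lit 1) (nat_lit 18) (.e true (nat_lit 3) (nat_lit 266) (nat_lit 1) (nat_lit 18) (.e true (nat_lit 1) (nat_lit 267) (nat_lit 1) (nat_lit 18) (.e false (nat_lit 3) (nat_lit 268) (nat_lit 1) (nat_lit 18) (.e false (nat_lit 3) (nat_lit 269) (nat_lit 1) (nat_lit 18) (.e true (nat_lit 1) (nat_lit 271) (nat_lit 1) (nat_lit 18) (.e true (nat_lit 2) (nat_lit 272) (nat_lit 1)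 (nat_lit 18) (.e false (nat_lit 2) (nat_lit 273) (nat_lit 1) (nat_lit 18) (.e false (nat_lit 3) (nat_lit 274) (nat_lit 1) (nat_lit 18) (.e true (nat_lit 2) (nat_lit 277) (nat_lit 1) (nat_lit 18) (.e false (nat_lit 3) (nat_lit 278) (nat_lit 1) (nat_lit 18) dC1b_i40)))))))))))))))))))))))))

noncomputable def dC1b_i42 : IL := (.e false (nat_lit 3) (nat_lit 220) (nat_lit 2) (nat_lit 17) (.e true (nat_lit 1) (nat_lit 222) (nat_lit 2) (nat_lit 17) (.e false (nat_lit 2) (nat_lit 223) (nat_lit 2) (nat_lit 17) (.e true (nat_lit 1) (nat_lit 224) (nat_lit 2) (nat_lit 17) (.e false (nat_lit 2) (nat_lit 226) (nat_lit 2) (nat_lit 17) (.e true (nat_lit 3) (nat_lit 227) (nat_lit 2) (nat_lit 17) (.e true (nat_lit 2) (nat_lit 229) (nat_lit 2) (nat_lit 17) (.e true (nat_lit 3) (nat_lit 231) (nat_lit 2) (nat_lit 17) (.e true (nat_lit 2) (nat_lit 232) (nat_lit 2) (nat_lit 17) (.e false (nat_lit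 3) (nat_lit 236) (nat_lit 2) (nat_lit 17) (.e false (nat_lit 1) (nat_lit 239) (nat_lit 2) (nat_lit 17) (.e true (nat_lit 3) (nat_lit 241) (nat_lit 2) (nat_lit 17) (.e true (nat_lit 3) (nat_lit 242) (nat_lit 2) (nat_lit 17) (.e true (nat_lit 3) (nat_lit 243) (nat_lit 2) (nat_lit 17) (.e false (nat_lit 2) (nat_lit 244) (nat_lit 2) (nat_lit 17) (.e true (nat_lit 1) (nat_lit 245) (nat_lit 2) (nat_lit 17) (.e false (nat_lit 3) (nat_lit 248) (nat_lit 2) (nat_lit 17) (.e false (nat_lit 2) (nat_lit 249) (nat_lit 2) (nat_lit 17) (.e true (nat_lit 2) (nat_lit 253) (nat_lit 2) (nat_lit 17) (.e false (nat_lit 1) (nat_lit 216) (nat_lit 2) (nat_lit 17) (.e true (nat_lit 3) (nat_lit 217) (nat_lit 2) (nat_lit 17) (.e false (nat_lit 3) (nat_lit 230) (nat_lit 2) (nat_lit 17) (.e false (nat_lit 3) (nat_lit 237) (nat_lit 2) (nat_lit 17) (.e true (nat_lit 2) (nat_lit 238) (nat_lit 2) (nat_lit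 17) (.u (nat_lit 2) (.n (nat_lit 0) (nat_lit 1) (.n (nat_lit 2) (nat_lit 3) (.n (nat_lit 3) (nat_lit 4) (.n (nat_lit 4) (nat_lit 3) (.n (nat_lit 5) (nat_lit 1) (.p (nat_lit 6) (nat_lit 1) (.p (nat_lit 7) (nat_lit 1) (.p (nat_lit 8) (nat_lit 2) (.p (nat_lit 9) (nat_lit 2) (.p (nat_lit 12) (nat_lit 2) (.p (nat_lit 13) (nat_lit 3) (.p (nat_lit 14) (nat_lit 4) (.n (nat_lit 15) (nat_lit 4) (.n (nat_lit 17) (nat_lit 3) (.n (nat_lit 18) (nat_lit 1) (.n (nat_lit 19) (nat_lit 4) (.p (nat_lit 20) (nat_lit 5) (.n (nat_lit 24) (nat_lit 1) (.n (nat_lit 25) (nat_lit 1) (.p (nat_lit 26) (nat_lit 1) (.p (nat_lit 27) (nat_lit 1) (.p (nat_lit 28) (nat_lit 1) (.p (nat_lit 29) (nat_lit 2) (.n (nat_lit 30) (nat_lit 5) (.n (nat_lit 31) (nat_lit 3) (.n (nat_lit 32) (nat_lit 2) (.p (nat_lit 33) (nat_lit 1) (.n (nat_lit 34) (nat_lit 1) (.p (nat_lit 35) (nat_lit 3) (.n (nat_lit 36) (nat_lit 3) (.p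 (nat_lit 37) (nat_lit 6) (.n (nat_lit 39) (nat_lit 3) (.n (nat_lit 41) (nat_lit 4) (.p (nat_lit 45) (nat_lit 1) (.n (nat_lit 49) (nat_lit 4) (.p (nat_lit 50) (nat_lit 1) (.p (nat_lit 51) (nat_lit 1) (.p (nat_lit 52) (nat_lit 1) (.p (nat_lit 53) (nat_lit 2) (.n (nat_lit 54) (nat_lit 2) (.p (nat_lit 55) (nat_lit 5) (.p (nat_lit 57) (nat_lit 2) (.n (nat_lit 58) (nat_lit 4) (.n (nat_lit 60) (nat_lit 1) (.n (nat_lit 62) (nat_lit 1) (.n (nat_lit 63) (nat_lit 1) (.p (nat_lit 65) (nat_lit 1) (.p (nat_lit 67) (nat_lit 1) (.p (nat_lit 70) (nat_lit 2) .z))))))))))))))))))))))))))))))))))))))))))))))))) .nil)))))))))))))))))))))))))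

noncomputable def dC1b_i43 : IL := (.e true (nat_lit 2) (nat_lit 221) (nat_lit 2) (nat_lit 17) (.e true (nat_lit 3) (nat_lit 223) (nat_lit 2) (nat_lit 17) (.e false (nat_lit 1) (nat_lit 224) (nat_lit 2) (nat_lit 17) (.e true (nat_lit 1) (nat_lit 225) (nat_lit 2) (nat_lit 17) (.e false (nat_lit 1) (nat_lit 226) (nat_lit 2) (nat_lit 17) (.e false (nat_lit 1) (nat_lit 228) (nat_lit 2) (nat_lit 17) (.e true (nat_lit 1) (nat_lit 230) (nat_lit 2) (nat_lit 17) (.e false (nat_lit 3) (nat_lit 231) (nat_lit 2) (nat_lit 17) (.e true (nat_lit 2) (nat_lit 233) (nat_lit 2) (nat_lit 17) (.e true (nat_lit 2) (nat_lit 234) (nat_lit 2) (nat_lit 17) (.e true (nat_lit 3) (nat_lit 235) (nat_lit 2) (nat_lit 17) (.e true (nat_lit 1) (nat_lit 237) (nat_lit 2) (nat_lit 17) (.e true (nat_lit 3) (nat_lit 239) (nat_lit 2) (nat_lit 17) (.e true (nat_lit 1) (nat_lit 240) (nat_lit 2) (nat_lit 17) (.e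 false (nat_lit 2) (nat_lit 241) (nat_lit 2) (nat_lit 17) (.e false (nat_lit 3) (nat_lit 243) (nat_lit 2) (nat_lit 17) (.e false (nat_lit 2) (nat_lit 244) (nat_lit 2) (nat_lit 17) (.e false (nat_lit 3) (nat_lit 245) (nat_lit 2) (nat_lit 17) (.e false (nat_lit 2) (nat_lit 246) (nat_lit 2) (nat_lit 17) (.e true (nat_lit 2) (nat_lit 247) (nat_lit 2) (nat_lit 17) (.e true (nat_lit 3) (nat_lit 248) (nat_lit 2) (nat_lit 17) (.e false (nat_lit 1) (nat_lit 249) (nat_lit 2) (nat_lit 17) (.e true (nat_lit 1) (nat_lit 250) (nat_lit 2) (nat_lit 17) (.e false (nat_lit 1) (nat_lit 260) (nat_lit 1) (nat_lit 18) (.u (nat_lit 2) (.p (nat_lit 0) (nat_lit 2) (.p (nat_lit 3) (nat_lit 3) (.n (nat_lit 4) (nat_lit 2) (.p (nat_lit 5) (nat_lit 1) (.n (nat_lit 6) (nat_lit 1) (.n (nat_lit 8) (nat_lit 2) (.n (nat_lit 10) (nat_lit 1) (.n (nat_lit 11) (nat_lit 1) (.n (nat_lit 12) (nat_lit 1) (.n (nat_lit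 13) (nat_lit 1) (.p (nat_lit 14) (nat_lit 1) (.p (nat_lit 15) (nat_lit 1) (.p (nat_lit 17) (nat_lit 2) (.p (nat_lit 19) (nat_lit 1) (.n (nat_lit 20) (nat_lit 2) (.p (nat_lit 24) (nat_lit 1) (.p (nat_lit 25) (nat_lit 1) (.n (nat_lit 26) (nat_lit 5) (.p (nat_lit 28) (nat_lit 1) (.n (nat_lit 29) (nat_lit 1) (.p (nat_lit 30) (nat_lit 3) (.p (nat_lit 32) (nat_lit 2) (.n (nat_lit 33) (nat_lit 2) (.p (nat_lit 34) (nat_lit 2) (.n (nat_lit 35) (nat_lit 1) (.n (nat_lit 36) (nat_lit 1) (.n (nat_lit 37) (nat_lit 3) (.n (nat_lit 38) (nat_lit 3) (.p (nat_lit 40) (nat_lit 2) (.p (nat_lit 41) (nat_lit 2) (.n (nat_lit 45) (nat_lit 1) (.p (nat_lit 49) (nat_lit 3) (.n (nat_lit 51) (nat_lit 1) (.n (nat_lit 52) (nat_lit 1) (.p (nat_lit 54) (nat_lit 3) (.n (nat_lit 55) (nat_lit 3) (.p (nat_lit 56) (nat_lit 1) (.n (nat_lit 57) (nat_lit 1) (.p (nat_lit 58) (nat_lit 1) (.n (nat_lit 61) (nat_lit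 1) (.p (nat_lit 62) (nat_lit 1) (.p (nat_lit 63) (nat_lit 1) (.n (nat_lit 64) (nat_lit 1) (.p (nat_lit 69) (nat_lit 1) (.n (nat_lit 70) (nat_lit 2) .z))))))))))))))))))))))))))))))))))))))))))))) .nil)))))))))))))))))))))))))

noncomputable def dC1b_i44 : IL := (.e true (nat_lit 1) (nat_lit 215) (nat_lit 2) (nat_lit 17) (.e false (nat_lit 1) (nat_lit 216) (nat_lit 2) (nat_lit 17) (.e false (nat_lit 1) (nat_lit 217) (nat_lit 2) (nat_lit 17) (.e false (nat_lit 2) (nat_lit 218) (nat_lit 2) (nat_lit 17) (.e true (nat_lit 2) (nat_lit 219) (nat_lit 2) (nat_lit 17) (.e true (nat_lit 1) (nat_lit 220) (nat_lit 2) (nat_lit 17) (.e true (nat_lit 3) (nat_lit 221) (nat_lit 2) (nat_lit 17) (.e false (nat_lit 2) (nat_lit 222) (nat_lit 2) (nat_lit 17) (.e false (nat_lit 2) (nat_lit 223) (nat_lit 2) (nat_lit 17) (.e true (nat_lit 1) (nat_lit 224) (nat_lit 2) (nat_lit 17) (.e true (nat_lit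 3) (nat_lit 227) (nat_lit 2) (nat_lit 17) (.e false (nat_lit 1) (nat_lit 229) (nat_lit 2) (nat_lit 17) (.e true (nat_lit 1) (nat_lit 231) (nat_lit 2) (nat_lit 17) (.e true (nat_lit 1) (nat_lit 232) (nat_lit 2) (nat_lit 17) (.e true (nat_lit 2) (nat_lit 233) (nat_lit 2) (nat_lit 17) (.e true (nat_lit 1) (nat_lit 234) (nat_lit 2) (nat_lit 17) (.e true (nat_lit 3) (nat_lit 235) (nat_lit 2) (nat_lit 17) (.e true (nat_lit 1) (nat_lit 236) (nat_lit 2) (nat_lit 17) (.e true (nat_lit 3) (nat_lit 237) (nat_lit 2) (nat_lit 17) (.e true (nat_lit 3) (nat_lit 238) (nat_lit 2) (nat_lit 17) (.e false (nat_lit 3) (nat_lit 239) (nat_lit 2) (nat_lit 17) (.e true (nat_lit 2) (nat_lit 240) (nat_lit 2) (nat_lit 17) (.e true (nat_lit 2) (nat_lit 241) (nat_lit 2) (nat_lit 17) (.e true (nat_lit 1) (nat_lit 242) (nat_lit 2) (nat_lit 17) (.u (nat_lit 2) (.n (nat_lit 0) (nat_lit 3) (.n (nat_lit 1)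 (nat_lit 1) (.n (nat_lit 2) (nat_lit 1) (.p (nat_lit 3) (nat_lit 1) (.p (nat_lit 4) (nat_lit 2) (.n (nat_lit 5) (nat_lit 1) (.p (nat_lit 6) (nat_lit 3) (.p (nat_lit 7) (nat_lit 2) (.n (nat_lit 8) (nat_lit 1) (.n (nat_lit 9) (nat_lit 3) (.n (nat_lit 10) (nat_lit 1) (.n (nat_lit 11) (nat_lit 1) (.p (nat_lit 13) (nat_lit 1) (.p (nat_lit 14) (nat_lit 3) (.n (nat_lit 15) (nat_lit 2) (.n (nat_lit 17) (nat_lit 1) (.p (nat_lit 18) (nat_lit 2) (.n (nat_lit 19) (nat_lit 1) (.p (nat_lit 20) (nat_lit 2) (.n (nat_lit 21) (nat_lit 1) (.p (nat_lit 23) (nat_lit 1) (.n (nat_lit 26) (nat_lit 1) (.p (nat_lit 27) (nat_lit 5) (.p (nat_lit 28) (nat_lit 2) (.n (nat_lit 29) (nat_lit 3) (.p (nat_lit 30) (nat_lit 1) (.n (nat_lit 32) (nat_lit 1) (.p (nat_lit 33) (nat_lit 3) (.p (nat_lit 34) (nat_lit 2) (.p (nat_lit 35) (nat_lit 4) (.n (nat_lit 36) (nat_lit 1) (.n (nat_lit 37) (nat_lit 1) (.p (nat_lit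 38) (nat_lit 1) (.n (nat_lit 39) (nat_lit 2) (.p (nat_lit 40) (nat_lit 1) (.p (nat_lit 46) (nat_lit 1) (.n (nat_lit 48) (nat_lit 1) (.n (nat_lit 49) (nat_lit 5) (.p (nat_lit 53) (nat_lit 4) (.n (nat_lit 54) (nat_lit 1) (.p (nat_lit 55) (nat_lit 4) (.n (nat_lit 58) (nat_lit 1) (.n (nat_lit 60) (nat_lit 1) (.n (nat_lit 61) (nat_lit 1) (.p (nat_lit 62) (nat_lit 1) (.n (nat_lit 63) (nat_lit 2) (.p (nat_lit 64) (nat_lit 1) (.n (nat_lit 69) (nat_lit 1) (.p (nat_lit 70) (nat_lit 1) .z))))))))))))))))))))))))))))))))))))))))))))))))) .nil)))))))))))))))))))))))))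

noncomputable def dC1b_i45 : IL := (.e false (nat_lit 3) (nat_lit 227) (nat_lit 2) (nat_lit 17) (.e true (nat_lit 3) (nat_lit 228) (nat_lit 2) (nat_lit 17) (.e false (nat_lit 2) (nat_lit 229) (nat_lit 2) (nat_lit 17) (.e true (nat_lit 1) (nat_lit 230) (nat_lit 2) (nat_lit 17) (.e true (nat_lit 2) (nat_lit 232) (nat_lit 2) (nat_lit 17) (.e false (nat_lit 2) (nat_lit 234) (nat_lit 2) (nat_lit 17) (.e true (nat_lit 2) (nat_lit 235) (nat_lit 2) (nat_lit 17) (.e true (nat_lit 3) (nat_lit 236) (nat_lit 2) (nat_lit 17) (.e true (nat_lit 3) (nat_lit 237) (nat_lit 2) (nat_lit 17) (.e true (nat_lit 1) (nat_lit 238) (nat_lit 2) (nat_lit 17) (.e false (nat_lit 2) (nat_lit 239) (nat_lit 2) (nat_lit 17) (.e true (nat_lit 1) (nat_lit 240) (nat_lit 2) (nat_lit 17) (.e false (nat_lit 1) (nat_lit 241) (nat_lit 2) (nat_lit 17) (.e true (nat_lit 2) (nat_lit 242) (nat_lit 2) (nat_lit 17) (.e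 false (nat_lit 3) (nat_lit 243) (nat_lit 2) (nat_lit 17) (.e true (nat_lit 3) (nat_lit 244) (nat_lit 2) (nat_lit 17) (.e true (nat_lit 2) (nat_lit 245) (nat_lit 2) (nat_lit 17) (.e false (nat_lit 1) (nat_lit 248) (nat_lit 2) (nat_lit 17) (.e true (nat_lit 3) (nat_lit 251) (nat_lit 2) (nat_lit 17) (.e false (nat_lit 3) (nat_lit 256) (nat_lit 2) (nat_lit 17) (.e true (nat_lit 1) (nat_lit 257) (nat_lit 2) (nat_lit 17) (.e true (nat_lit 2) (nat_lit 258) (nat_lit 2) (nat_lit 17) (.e false (nat_lit 1) (nat_lit 259) (nat_lit 2) (nat_lit 17) (.e false (nat_lit 1) (nat_lit 261) (nat_lit 1) (nat_lit 18) (.u (nat_lit 2) (.p (nat_lit 0) (nat_lit 1) (.n (nat_lit 1) (nat_lit 1) (.n (nat_lit 3) (nat_lit 1) (.p (nat_lit 4) (nat_lit 1) (.p (nat_lit 5) (nat_lit 1) (.n (nat_lit 6) (nat_lit 1) (.n (nat_lit 8) (nat_lit 5) (.p (nat_lit 9) (nat_lit 3) (.n (nat_lit 10) (nat_lit 1) (.p (nat_lit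 11) (nat_lit 3) (.n (nat_lit 12) (nat_lit 5) (.n (nat_lit 13) (nat_lit 1) (.p (nat_lit 14) (nat_lit 4) (.p (nat_lit 15) (nat_lit 2) (.p (nat_lit 16) (nat_lit 1) (.p (nat_lit 17) (nat_lit 2) (.n (nat_lit 19) (nat_lit 2) (.n (nat_lit 20) (nat_lit 3) (.n (nat_lit 23) (nat_lit 2) (.p (nat_lit 24) (nat_lit 1) (.n (nat_lit 26) (nat_lit 6) (.p (nat_lit 29) (nat_lit 6) (.p (nat_lit 30) (nat_lit 1) (.p (nat_lit 32) (nat_lit 4) (.n (nat_lit 33) (nat_lit 2) (.p (nat_lit 34) (nat_lit 2) (.n (nat_lit 35) (nat_lit 5) (.n (nat_lit 36) (nat_lit 4) (.n (nat_lit 37) (nat_lit 3) (.p (nat_lit 39) (nat_lit 1) (.n (nat_lit 40) (nat_lit 2) (.p (nat_lit 41) (nat_lit 3) (.n (nat_lit 49) (nat_lit 2) (.p (nat_lit 52) (nat_lit 2) (.n (nat_lit 53) (nat_lit 1) (.n (nat_lit 57) (nat_lit 1) (.p (nat_lit 58) (nat_lit 2) (.n (nat_lit 60) (nat_lit 1) (.n (nat_lit 61) (nat_lit 2) (.p (nat_lit 62) (nat_lit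 1) (.n (nat_lit 63) (nat_lit 2) (.n (nat_lit 69) (nat_lit 3) (.p (nat_lit 70) (nat_lit 1) .z))))))))))))))))))))))))))))))))))))))))))) .nil)))))))))))))))))))))))))

noncomputable def dC1b_i46 : IL := (.e false (nat_lit 2) (nat_lit 94) (nat_lit 9) (nat_lit 10) (.e true (nat_lit 1) (nat_lit 95) (nat_lit 9) (nat_lit 10) (.e true (nat_lit 1) (nat_lit 97) (nat_lit 9) (nat_lit 10) (.e false (nat_lit 1) (nat_lit 261) (nat_lit 1) (nat_lit 18) (.e true (nat_lit 1) (nat_lit 262) (nat_lit 1) (nat_lit 18) (.e true (nat_lit 2) (nat_lit 263) (nat_lit 1) (nat_lit 18) (.e true (nat_lit 3) (nat_lit 264) (nat_lit 1) (nat_lit 18) (.e false (nat_lit 2) (nat_lit 265) (nat_lit 1) (nat_lit 18) (.e true (nat_lit 2) (nat_lit 266) (nat_lit 1) (nat_lit 18) (.e false (nat_lit 2) (nat_lit 267) (nat_lit 1) (nat_lit 18) (.e false (nat_lit 1) (nat_lit 269) (nat_lit 1) (nat_lit 18) (.e true (nat_lit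 2) (nat_lit 270) (nat_lit 1) (nat_lit 18) (.e true (nat_lit 1) (nat_lit 271) (nat_lit 1) (nat_lit 18) (.e false (nat_lit 3) (nat_lit 272) (nat_lit 1) (nat_lit 18) (.e true (nat_lit 2) (nat_lit 273) (nat_lit 1) (nat_lit 18) (.e false (nat_lit 2) (nat_lit 274) (nat_lit 1) (nat_lit 18) (.e true (nat_lit 1) (nat_lit 277) (nat_lit 1) (nat_lit 18) (.e false (nat_lit 2) (nat_lit 278) (nat_lit 1) (nat_lit 18) (.e true (nat_lit 1) (nat_lit 280) (nat_lit 1) (nat_lit 18) (.e false (nat_lit 1) (nat_lit 281) (nat_lit 1) (nat_lit 18) (.e false (nat_lit 3) (nat_lit 286) (nat_lit 1) (nat_lit 18) (.e false (nat_lit 3) (nat_lit 287) (nat_lit 1) (nat_lit 18) (.e false (nat_lit 2) (nat_lit 288) (nat_lit 1) (nat_lit 18) (.e false (nat_lit 1) (nat_lit 289) (nat_lit 1) (nat_lit 18) (.u (nat_lit 2) (.n (nat_lit 0) (nat_lit 1) (.n (nat_lit 1) (nat_lit 2) (.p (nat_lit 3) (nat_lit 4) (.n (nat_lit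 4) (nat_lit 1) (.n (nat_lit 6) (nat_lit 1) (.n (nat_lit 7) (nat_lit 1) (.n (nat_lit 8) (nat_lit 1) (.n (nat_lit 9) (nat_lit 3) (.p (nat_lit 10) (nat_lit 1) (.p (nat_lit 11) (nat_lit 5) (.p (nat_lit 12) (nat_lit 1) (.n (nat_lit 13) (nat_lit 3) (.n (nat_lit 14) (nat_lit 1) (.n (nat_lit 15) (nat_lit 1) (.n (nat_lit 18) (nat_lit 4) (.n (nat_lit 19) (nat_lit 2) (.p (nat_lit 20) (nat_lit 4) (.n (nat_lit 26) (nat_lit 2) (.p (nat_lit 28) (nat_lit 1) (.p (nat_lit 30) (nat_lit 2) (.n (nat_lit 31) (nat_lit 5) (.p (nat_lit 32) (nat_lit 1) (.p (nat_lit 33) (nat_lit 1) (.p (nat_lit 34) (nat_lit 2) (.p (nat_lit 35) (nat_lit 2) (.n (nat_lit 36) (nat_lit 4) (.n (nat_lit 37) (nat_lit 2) (.p (nat_lit 38) (nat_lit 3) (.p (nat_lit 39) (nat_lit 3) (.n (nat_lit 40) (nat_lit 1) (.n (nat_lit 41) (nat_lit 1) (.n (nat_lit 50) (nat_lit 1) (.p (nat_lit 51) (nat_lit 1) (.p (nat_lit 53) (nat_lit 1) (.n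 (nat_lit 57) (nat_lit 1) (.p (nat_lit 58) (nat_lit 1) (.n (nat_lit 61) (nat_lit 1) (.n (nat_lit 63) (nat_lit 1) (.n (nat_lit 64) (nat_lit 1) .z))))))))))))))))))))))))))))))))))))))) .nil)))))))))))))))))))))))))

noncomputable def dC1b_i47 : IL := (.e true (nat_lit 3) (nat_lit 56) (nat_lit 5) (nat_lit 9) (.e false (nat_lit 3) (nat_lit 58) (nat_lit 5) (nat_lit 9) (.e false (nat_lit 2) (nat_lit 61) (nat_lit 5) (nat_lit 9) (.e true (nat_lit 2) (nat_lit 64) (nat_lit 5) (nat_lit 9) (.e true (nat_lit 3) (nat_lit 65) (nat_lit 5) (nat_lit 9) (.e false (nat_lit 3) (nat_lit 153) (nat_lit 0) (nat_lit 14) (.e true (nat_lit 2) (nat_lit 154) (nat_lit 0) (nat_lit 14) (.e false (nat_lit 1) (nat_lit 155) (nat_lit 0) (nat_lit 14) (.e true (nat_lit 1) (nat_lit 157) (nat_lit 0) (nat_lit 14) (.e true (nat_lit 3) (nat_lit 158) (nat_lit 0) (nat_lit 14) (.e true (nat_lit 1) (nat_lit 159) (nat_lit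 0) (nat_lit 14) (.e true (nat_lit 3) (nat_lit 160) (nat_lit 0) (nat_lit 14) (.e true (nat_lit 2) (nat_lit 161) (nat_lit 0) (nat_lit 14) (.e false (nat_lit 3) (nat_lit 162) (nat_lit 0) (nat_lit 14) (.e true (nat_lit 3) (nat_lit 163) (nat_lit 0) (nat_lit 14) (.e true (nat_lit 3) (nat_lit 165) (nat_lit 0) (nat_lit 14) (.e true (nat_lit 3) (nat_lit 166) (nat_lit 0) (nat_lit 14) (.e true (nat_lit 1) (nat_lit 167) (nat_lit 0) (nat_lit 14) (.e true (nat_lit 2) (nat_lit 168) (nat_lit 0) (nat_lit 14) (.e false (nat_lit 1) (nat_lit 170) (nat_lit 0) (nat_lit 14) (.e true (nat_lit 3) (nat_lit 171) (nat_lit 0) (nat_lit 14) (.e false (nat_lit 1) (nat_lit 172) (nat_lit 0) (nat_lit 14) (.e false (nat_lit 1) (nat_lit 173) (nat_lit 0) (nat_lit 14) (.u (nat_lit 2) (.n (nat_lit 0) (nat_lit 3) (.n (nat_lit 1) (nat_lit 2) (.n (nat_lit 3) (nat_lit 1) (.n (nat_lit 5) (nat_lit 1) (.n (nat_lit 6)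 (nat_lit 2) (.n (nat_lit 7) (nat_lit 1) (.n (nat_lit 8) (nat_lit 4) (.n (nat_lit 9) (nat_lit 1) (.n (nat_lit 10) (nat_lit 2) (.p (nat_lit 11) (nat_lit 2) (.n (nat_lit 12) (nat_lit 3) (.n (nat_lit 13) (nat_lit 1) (.n (nat_lit 14) (nat_lit 3) (.n (nat_lit 15) (nat_lit 1) (.p (nat_lit 17) (nat_lit 2) (.n (nat_lit 19) (nat_lit 2) (.n (nat_lit 20) (nat_lit 3) (.n (nat_lit 24) (nat_lit 3) (.n (nat_lit 25) (nat_lit 3) (.p (nat_lit 27) (nat_lit 5) (.n (nat_lit 28) (nat_lit 2) (.n (nat_lit 29) (nat_lit 1) (.n (nat_lit 30) (nat_lit 1) (.n (nat_lit 31) (nat_lit 2) (.n (nat_lit 32) (nat_lit 1) (.n (nat_lit 33) (nat_lit 1) (.n (nat_lit 34) (nat_lit 2) (.p (nat_lit 35) (nat_lit 2) (.p (nat_lit 36) (nat_lit 2) (.p (nat_lit 42) (nat_lit 1) (.n (nat_lit 103) (nat_lit 1) (.p (nat_lit 104) (nat_lit 1) (.p (nat_lit 105) (nat_lit 1) (.n (nat_lit 106) (nat_lit 1) (.p (nat_lit 113) (nat_lit 1)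 (.p (nat_lit 161) (nat_lit 1) (.n (nat_lit 162) (nat_lit 1) (.p (nat_lit 163) (nat_lit 4) (.p (nat_lit 164) (nat_lit 2) (.p (nat_lit 165) (nat_lit 1) (.p (nat_lit 166) (nat_lit 2) (.p (nat_lit 167) (nat_lit 1) (.p (nat_lit 168) (nat_lit 3) (.n (nat_lit 169) (nat_lit 2) (.n (nat_lit 170) (nat_lit 1) (.n (nat_lit 171) (nat_lit 4) (.p (nat_lit 173) (nat_lit 1) (.p (nat_lit 174) (nat_lit 1) (.n (nat_lit 176) (nat_lit 1) (.p (nat_lit 177) (nat_lit 1) (.p (nat_lit 178) (nat_lit 3) (.p (nat_lit 179) (nat_lit 4) (.n (nat_lit 180) (nat_lit 1) (.n (nat_lit 181) (nat_lit 2) (.n (nat_lit 182) (nat_lit 1) (.n (nat_lit 184) (nat_lit 1) (.p (nat_lit 186) (nat_lit 1) (.p (nat_lit 187) (nat_lit 1) (.p (nat_lit 188) (nat_lit 1) (.p (nat_lit 189) (nat_lit 1) .z)))))))))))))))))))))))))))))))))))))))))))))))))))))))))))) (.u (nat_lit 2) (.n (nat_lit 191) (nat_lit 1) (.p (nat_lit 192) (nat_lit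 1) (.p (nat_lit 194) (nat_lit 1) (.p (nat_lit 195) (nat_lit 1) (.p (nat_lit 196) (nat_lit 1) (.n (nat_lit 199) (nat_lit 1) (.p (nat_lit 200) (nat_lit 1) (.n (nat_lit 201) (nat_lit 1) (.n (nat_lit 202) (nat_lit 1) .z))))))))) .nil)))))))))))))))))))))))))

noncomputable def dC1b_i48 : IL := (.e true (nat_lit 1) (nat_lit 217) (nat_lit 2) (nat_lit 17) (.e true (nat_lit 1) (nat_lit 218) (nat_lit 2) (nat_lit 17) (.e false (nat_lit 1) (nat_lit 219) (nat_lit 2) (nat_lit 17) (.e true (nat_lit 3) (nat_lit 220) (nat_lit 2) (nat_lit 17) (.e false (nat_lit 3) (nat_lit 221) (nat_lit 2) (nat_lit 17) (.e false (nat_lit 3) (nat_lit 222) (nat_lit 2) (nat_lit 17) (.e false (nat_lit 3) (nat_lit 223) (nat_lit 2) (nat_lit 17) (.e false (nat_lit 1) (nat_lit 224) (nat_lit 2) (nat_lit 17) (.e false (nat_lit 3) (nat_lit 227) (nat_lit 2) (nat_lit 17) (.e false (nat_lit 1) (nat_lit 229) (nat_lit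 2) (nat_lit 17) (.e false (nat_lit 2) (nat_lit 231) (nat_lit 2) (nat_lit 17) (.e true (nat_lit 1) (nat_lit 232) (nat_lit 2) (nat_lit 17) (.e false (nat_lit 1) (nat_lit 233) (nat_lit 2) (nat_lit 17) (.e false (nat_lit 2) (nat_lit 234) (nat_lit 2) (nat_lit 17) (.e false (nat_lit 1) (nat_lit 235) (nat_lit 2) (nat_lit 17) (.e true (nat_lit 3) (nat_lit 237) (nat_lit 2) (nat_lit 17) (.e true (nat_lit 3) (nat_lit 239) (nat_lit 2) (nat_lit 17) (.e true (nat_lit 2) (nat_lit 240) (nat_lit 2) (nat_lit 17) (.e false (nat_lit 2) (nat_lit 241) (nat_lit 2) (nat_lit 17) (.e true (nat_lit 1) (nat_lit 242) (nat_lit 2) (nat_lit 17) (.e true (nat_lit 1) (nat_lit 243) (nat_lit 2) (nat_lit 17) (.e true (nat_lit 2) (nat_lit 244) (nat_lit 2) (nat_lit 17) (.e false (nat_lit 1) (nat_lit 245) (nat_lit 2) (nat_lit 17) (.e false (nat_lit 1) (nat_lit 248) (nat_lit 2) (nat_lit 17) (.u (nat_lit 2) (.p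 (nat_lit 0) (nat_lit 1) (.p (nat_lit 1) (nat_lit 1) (.p (nat_lit 2) (nat_lit 2) (.n (nat_lit 5) (nat_lit 2) (.n (nat_lit 8) (nat_lit 1) (.n (nat_lit 9) (nat_lit 1) (.p (nat_lit 11) (nat_lit 1) (.n (nat_lit 12) (nat_lit 5) (.n (nat_lit 13) (nat_lit 2) (.n (nat_lit 14) (nat_lit 4) (.p (nat_lit 15) (nat_lit 2) (.p (nat_lit 18) (nat_lit 1) (.p (nat_lit 20) (nat_lit 1) (.n (nat_lit 21) (nat_lit 1) (.p (nat_lit 24) (nat_lit 1) (.n (nat_lit 26) (nat_lit 4) (.p (nat_lit 27) (nat_lit 2) (.p (nat_lit 28) (nat_lit 1) (.p (nat_lit 29) (nat_lit 3) (.p (nat_lit 30) (nat_lit 1) (.p (nat_lit 31) (nat_lit 1) (.n (nat_lit 32) (nat_lit 1) (.p (nat_lit 36) (nat_lit 2) (.n (nat_lit 37) (nat_lit 2) (.p (nat_lit 38) (nat_lit 5) (.p (nat_lit 39) (nat_lit 3) (.n (nat_lit 40) (nat_lit 4) (.p (nat_lit 41) (nat_lit 3) (.n (nat_lit 45) (nat_lit 1) (.n (nat_lit 49) (nat_lit 1) (.n (nat_lit 50) (nat_lit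 3) (.n (nat_lit 53) (nat_lit 1) (.n (nat_lit 54) (nat_lit 1) (.p (nat_lit 55) (nat_lit 1) (.n (nat_lit 57) (nat_lit 1) (.p (nat_lit 58) (nat_lit 3) (.p (nat_lit 62) (nat_lit 1) (.n (nat_lit 64) (nat_lit 1) (.n (nat_lit 65) (nat_lit 1) (.p (nat_lit 66) (nat_lit 1) (.p (nat_lit 69) (nat_lit 1) (.n (nat_lit 70) (nat_lit 1) .z)))))))))))))))))))))))))))))))))))))))))) .nil)))))))))))))))))))))))))

noncomputable def dC1b_i49 : IL := (.e true (nat_lit 1) (nat_lit 298) (nat_lit 0) (nat_lit 19) (.e false (nat_lit 2) (nat_lit 299) (nat_lit 0) (nat_lit 19) (.e false (nat_lit 2) (nat_lit 301) (nat_lit 0) (nat_lit 19) (.e true (nat_lit 1) (nat_lit 304) (nat_lit 0) (nat_lit 19) (.e false (nat_lit 1) (nat_lit 307) (nat_lit 0) (nat_lit 19) (.e true (nat_lit 3) (nat_lit 308) (nat_lit 0) (nat_lit 19) (.e true (nat_lit 1) (nat_lit 311) (nat_lit 0) (nat_lit 19) (.e true (nat_lit 1) (nat_lit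 317) (nat_lit 0) (nat_lit 19) (.e true (nat_lit 1) (nat_lit 216) (nat_lit 2) (nat_lit 17) (.e false (nat_lit 1) (nat_lit 221) (nat_lit 2) (nat_lit 17) (.e true (nat_lit 3) (nat_lit 223) (nat_lit 2) (nat_lit 17) (.e true (nat_lit 3) (nat_lit 212) (nat_lit 2) (nat_lit 17) (.e true (nat_lit 1) (nat_lit 213) (nat_lit 2) (nat_lit 17) (.e true (nat_lit 3) (nat_lit 214) (nat_lit 2) (nat_lit 17) (.e false (nat_lit 1) (nat_lit 215) (nat_lit 2) (nat_lit 17) (.e false (nat_lit 2) (nat_lit 217) (nat_lit 2) (nat_lit 17) (.e false (nat_lit 1) (nat_lit 218) (nat_lit 2) (nat_lit 17) (.e true (nat_lit 1) (nat_lit 219) (nat_lit 2) (nat_lit 17) (.e true (nat_lit 3) (nat_lit 220) (nat_lit 2) (nat_lit 17) (.e false (nat_lit 3) (nat_lit 222) (nat_lit 2) (nat_lit 17) (.e true (nat_lit 2) (nat_lit 224) (nat_lit 2) (nat_lit 17) (.e false (nat_lit 2) (nat_lit 226) (nat_lit 2) (nat_lit 17) (.e false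 (nat_lit 1) (nat_lit 227) (nat_lit 2) (nat_lit 17) (.e true (nat_lit 2) (nat_lit 229) (nat_lit 2) (nat_lit 17) (.u (nat_lit 2) (.n (nat_lit 0) (nat_lit 2) (.p (nat_lit 1) (nat_lit 1) (.p (nat_lit 2) (nat_lit 3) (.p (nat_lit 3) (nat_lit 3) (.p (nat_lit 4) (nat_lit 1) (.n (nat_lit 5) (nat_lit 1) (.n (nat_lit 6) (nat_lit 2) (.n (nat_lit 8) (nat_lit 3) (.p (nat_lit 9) (nat_lit 1) (.p (nat_lit 10) (nat_lit 2) (.n (nat_lit 14) (nat_lit 1) (.p (nat_lit 15) (nat_lit 2) (.n (nat_lit 17) (nat_lit 1) (.p (nat_lit 19) (nat_lit 1) (.p (nat_lit 20) (nat_lit 3) (.n (nat_lit 23) (nat_lit 1) (.p (nat_lit 24) (nat_lit 1) (.p (nat_lit 25) (nat_lit 1) (.n (nat_lit 26) (nat_lit 1) (.p (nat_lit 27) (nat_lit 1) (.n (nat_lit 28) (nat_lit 2) (.p (nat_lit 30) (nat_lit 1) (.p (nat_lit 31) (nat_lit 3) (.n (nat_lit 32) (nat_lit 2) (.n (nat_lit 34) (nat_lit 3) (.n (nat_lit 35) (nat_lit 2) (.n (nat_lit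 37) (nat_lit 1) (.p (nat_lit 38) (nat_lit 6) (.p (nat_lit 40) (nat_lit 3) (.p (nat_lit 41) (nat_lit 2) (.p (nat_lit 44) (nat_lit 1) (.p (nat_lit 45) (nat_lit 1) (.n (nat_lit 46) (nat_lit 2) (.p (nat_lit 48) (nat_lit 2) (.n (nat_lit 49) (nat_lit 4) (.n (nat_lit 50) (nat_lit 2) (.p (nat_lit 51) (nat_lit 1) (.p (nat_lit 52) (nat_lit 1) (.n (nat_lit 53) (nat_lit 2) (.n (nat_lit 54) (nat_lit 2) (.p (nat_lit 55) (nat_lit 2) (.p (nat_lit 57) (nat_lit 1) (.n (nat_lit 58) (nat_lit 1) (.p (nat_lit 59) (nat_lit 1) (.n (nat_lit 61) (nat_lit 1) (.n (nat_lit 68) (nat_lit 2) (.n (nat_lit 70) (nat_lit 1) (.p (nat_lit 338) (nat_lit 1) .z)))))))))))))))))))))))))))))))))))))))))))))))) .nil)))))))))))))))))))))))))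

noncomputable def dC1b_i50 : IL := (.e true (nat_lit 1) (nat_lit 100) (nat_lit 10) (nat_lit 6) (.e true (nat_lit 1) (nat_lit 46) (nat_lit 21) (nat_lit 2) (.e false (nat_lit 1) (nat_lit 46) (nat_lit 22) (nat_lit 2) (.e false (nat_lit 1) (nat_lit 46) (nat_lit 23) (nat_lit 2) (.e false (nat_lit 1) (nat_lit 56) (nat_lit 18) (nat_lit 3) (.e true (nat_lit 2) (nat_lit 57) (nat_lit 18) (nat_lit 3) (.e false (nat_lit 1) (nat_lit 65) (nat_lit 18) (nat_lit 3) (.e false (nat_lit 2) (nat_lit 260) (nat_lit 2) (nat_lit 13) (.e true (nat_lit 2) (nat_lit 261) (nat_lit 2) (nat_lit 13) (.e true (nat_lit 2) (nat_lit 263) (nat_lit 2) (nat_lit 13) (.e true (nat_lit 3) (nat_lit 264) (nat_lit 2) (nat_lit 13) (.e true (nat_lit 1) (nat_lit 265) (nat_lit 2) (nat_lit 13) (.e true (nat_lit 2) (nat_lit 266) (nat_lit 2) (nat_lit 13) (.e false (nat_lit 3) (nat_lit 267) (nat_lit 2) (nat_lit 13) (.e true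 (nat_lit 2) (nat_lit 270) (nat_lit 2) (nat_lit 13) (.e true (nat_lit 2) (nat_lit 271) (nat_lit 2) (nat_lit 13) (.e true (nat_lit 1) (nat_lit 277) (nat_lit 2) (nat_lit 13) (.e false (nat_lit 2) (nat_lit 280) (nat_lit 2) (nat_lit 13) (.e false (nat_lit 3) (nat_lit 272) (nat_lit 2) (nat_lit 13) (.e false (nat_lit 3) (nat_lit 286) (nat_lit 2) (nat_lit 13) (.e true (nat_lit 3) (nat_lit 268) (nat_lit 2) (nat_lit 13) (.e true (nat_lit 1) (nat_lit 262) (nat_lit 2) (nat_lit 13) (.e true (nat_lit 2) (nat_lit 269) (nat_lit 2) (nat_lit 13) (.e false (nat_lit 2) (nat_lit 273) (nat_lit 2) (nat_lit 13) (.u (nat_lit 2) (.n (nat_lit 0) (nat_lit 4) (.p (nat_lit 1) (nat_lit 1) (.p (nat_lit 4) (nat_lit 2) (.p (nat_lit 5) (nat_lit 2) (.n (nat_lit 6) (nat_lit 3) (.n (nat_lit 7) (nat_lit 3) (.n (nat_lit 10) (nat_lit 2) (.p (nat_lit 16) (nat_lit 4) (.n (nat_lit 17) (nat_lit 1) (.p (nat_lit 18)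 (nat_lit 2) (.p (nat_lit 19) (nat_lit 2) (.n (nat_lit 21) (nat_lit 1) (.n (nat_lit 23) (nat_lit 2) (.p (nat_lit 25) (nat_lit 1) (.p (nat_lit 27) (nat_lit 1) (.n (nat_lit 30) (nat_lit 1) (.n (nat_lit 33) (nat_lit 1) (.n (nat_lit 173) (nat_lit 2) (.n (nat_lit 174) (nat_lit 1) (.p (nat_lit 179) (nat_lit 1) (.n (nat_lit 180) (nat_lit 1) (.p (nat_lit 181) (nat_lit 1) (.p (nat_lit 182) (nat_lit 1) (.p (nat_lit 183) (nat_lit 1) (.n (nat_lit 186) (nat_lit 1) (.p (nat_lit 187) (nat_lit 1) (.p (nat_lit 201) (nat_lit 1) .z))))))))))))))))))))))))))) .nil)))))))))))))))))))))))))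

noncomputable def dC1b_i51 : IL := (.e false (nat_lit 2) (nat_lit 219) (nat_lit 2) (nat_lit 17) (.e true (nat_lit 1) (nat_lit 220) (nat_lit 2) (nat_lit 17) (.e true (nat_lit 3) (nat_lit 221) (nat_lit 2) (nat_lit 17) (.e false (nat_lit 1) (nat_lit 222) (nat_lit 2) (nat_lit 17) (.e true (nat_lit 3) (nat_lit 223) (nat_lit 2) (nat_lit 17) (.e true (nat_lit 3) (nat_lit 224) (nat_lit 2) (nat_lit 17) (.e true (nat_lit 2) (nat_lit 227) (nat_lit 2) (nat_lit 17) (.e true (nat_lit 1) (nat_lit 229) (nat_lit 2) (nat_lit 17) (.e true (nat_lit 2) (nat_lit 231) (nat_lit 2) (nat_lit 17) (.e true (nat_lit 3) (nat_lit 232) (nat_lit 2) (nat_lit 17) (.e false (nat_lit 1) (nat_lit 233) (nat_lit 2) (nat_lit 17) (.e false (nat_lit 2) (nat_lit 234) (nat_lit 2) (nat_lit 17) (.e false (nat_lit 3) (nat_lit 235) (nat_lit 2) (nat_lit 17) (.e true (nat_lit 1) (nat_lit 236) (nat_lit 2) (nat_lit 17) (.e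 false (nat_lit 2) (nat_lit 237) (nat_lit 2) (nat_lit 17) (.e true (nat_lit 1) (nat_lit 238) (nat_lit 2) (nat_lit 17) (.e false (nat_lit 1) (nat_lit 239) (nat_lit 2) (nat_lit 17) (.e false (nat_lit 3) (nat_lit 240) (nat_lit 2) (nat_lit 17) (.e true (nat_lit 3) (nat_lit 241) (nat_lit 2) (nat_lit 17) (.e true (nat_lit 2) (nat_lit 242) (nat_lit 2) (nat_lit 17) (.e true (nat_lit 1) (nat_lit 243) (nat_lit 2) (nat_lit 17) (.e true (nat_lit 2) (nat_lit 244) (nat_lit 2) (nat_lit 17) (.e false (nat_lit 1) (nat_lit 245) (nat_lit 2) (nat_lit 17) (.e false (nat_lit 1) (nat_lit 248) (nat_lit 2) (nat_lit 17) (.u (nat_lit 2) (.n (nat_lit 0) (nat_lit 5) (.p (nat_lit 2) (nat_lit 3) (.n (nat_lit 3) (nat_lit 2) (.p (nat_lit 4) (nat_lit 1) (.n (nat_lit 5) (nat_lit 2) (.p (nat_lit 6) (nat_lit 1) (.p (nat_lit 7) (nat_lit 2) (.p (nat_lit 8) (nat_lit 1) (.p (nat_lit 9) (nat_lit 1) (.p (nat_lit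 10) (nat_lit 3) (.n (nat_lit 11) (nat_lit 2) (.n (nat_lit 12) (nat_lit 1) (.p (nat_lit 13) (nat_lit 3) (.p (nat_lit 14) (nat_lit 5) (.n (nat_lit 15) (nat_lit 7) (.n (nat_lit 17) (nat_lit 1) (.n (nat_lit 18) (nat_lit 5) (.n (nat_lit 20) (nat_lit 1) (.p (nat_lit 23) (nat_lit 1) (.n (nat_lit 26) (nat_lit 1) (.p (nat_lit 27) (nat_lit 4) (.p (nat_lit 28) (nat_lit 2) (.n (nat_lit 29) (nat_lit 1) (.n (nat_lit 30) (nat_lit 7) (.n (nat_lit 32) (nat_lit 3) (.p (nat_lit 33) (nat_lit 1) (.p (nat_lit 35) (nat_lit 3) (.p (nat_lit 36) (nat_lit 1) (.p (nat_lit 37) (nat_lit 2) (.p (nat_lit 38) (nat_lit 3) (.n (nat_lit 39) (nat_lit 3) (.n (nat_lit 40) (nat_lit 2) (.p (nat_lit 41) (nat_lit 1) (.n (nat_lit 49) (nat_lit 2) (.p (nat_lit 51) (nat_lit 1) (.n (nat_lit 52) (nat_lit 1) (.p (nat_lit 53) (nat_lit 2) (.n (nat_lit 54) (nat_lit 1) (.p (nat_lit 55) (nat_lit 1) (.n (nat_lit 56) (nat_lit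 1) (.p (nat_lit 57) (nat_lit 1) (.n (nat_lit 58) (nat_lit 2) (.n (nat_lit 60) (nat_lit 1) (.p (nat_lit 61) (nat_lit 2) (.n (nat_lit 62) (nat_lit 1) (.n (nat_lit 63) (nat_lit 1) (.p (nat_lit 64) (nat_lit 1) (.n (nat_lit 69) (nat_lit 2) (.p (nat_lit 70) (nat_lit 2) .z))))))))))))))))))))))))))))))))))))))))))))))))) .nil)))))))))))))))))))))))))

noncomputable def dC1b_i52 : IL := (.e true (nat_lit 3) (nat_lit 218) (nat_lit 2) (nat_lit 17) (.e false (nat_lit 3) (nat_lit 219) (nat_lit 2) (nat_lit 17) (.e true (nat_lit 2) (nat_lit 220) (nat_lit 2) (nat_lit 17) (.e true (nat_lit 1) (nat_lit 221) (nat_lit 2) (nat_lit 17) (.e false (nat_lit 1) (nat_lit 222) (nat_lit 2) (nat_lit 17) (.e false (nat_lit 1) (nat_lit 223) (nat_lit 2) (nat_lit 17) (.e false (nat_lit 2) (nat_lit 224) (nat_lit 2) (nat_lit 17) (.e true (nat_lit 1) (nat_lit 227) (nat_lit 2) (nat_lit 17) (.e false (nat_lit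 3) (nat_lit 231) (nat_lit 2) (nat_lit 17) (.e true (nat_lit 2) (nat_lit 232) (nat_lit 2) (nat_lit 17) (.e false (nat_lit 2) (nat_lit 233) (nat_lit 2) (nat_lit 17) (.e false (nat_lit 1) (nat_lit 234) (nat_lit 2) (nat_lit 17) (.e false (nat_lit 3) (nat_lit 235) (nat_lit 2) (nat_lit 17) (.e false (nat_lit 2) (nat_lit 236) (nat_lit 2) (nat_lit 17) (.e true (nat_lit 3) (nat_lit 237) (nat_lit 2) (nat_lit 17) (.e true (nat_lit 1) (nat_lit 238) (nat_lit 2) (nat_lit 17) (.e false (nat_lit 2) (nat_lit 239) (nat_lit 2) (nat_lit 17) (.e false (nat_lit 2) (nat_lit 240) (nat_lit 2) (nat_lit 17) (.e false (nat_lit 1) (nat_lit 241) (nat_lit 2) (nat_lit 17) (.e false (nat_lit 1) (nat_lit 242) (nat_lit 2) (nat_lit 17) (.e true (nat_lit 1) (nat_lit 243) (nat_lit 2) (nat_lit 17) (.e false (nat_lit 1) (nat_lit 244) (nat_lit 2) (nat_lit 17) (.e false (nat_lit 3) (nat_lit 245) (nat_lit 2) (nat_lit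 17) (.e false (nat_lit 1) (nat_lit 248) (nat_lit 2) (nat_lit 17) (.u (nat_lit 2) (.n (nat_lit 0) (nat_lit 3) (.n (nat_lit 1) (nat_lit 1) (.p (nat_lit 2) (nat_lit 2) (.p (nat_lit 3) (nat_lit 1) (.n (nat_lit 4) (nat_lit 1) (.p (nat_lit 5) (nat_lit 2) (.n (nat_lit 6) (nat_lit 2) (.p (nat_lit 7) (nat_lit 2) (.n (nat_lit 8) (nat_lit 1) (.n (nat_lit 9) (nat_lit 2) (.p (nat_lit 11) (nat_lit 2) (.n (nat_lit 12) (nat_lit 2) (.n (nat_lit 13) (nat_lit 1) (.n (nat_lit 15) (nat_lit 2) (.n (nat_lit 19) (nat_lit 1) (.p (nat_lit 20) (nat_lit 1) (.n (nat_lit 23) (nat_lit 1) (.n (nat_lit 24) (nat_lit 1) (.n (nat_lit 25) (nat_lit 1) (.n (nat_lit 26) (nat_lit 3) (.p (nat_lit 27) (nat_lit 2) (.p (nat_lit 28) (nat_lit 2) (.n (nat_lit 29) (nat_lit 1) (.p (nat_lit 30) (nat_lit 3) (.p (nat_lit 32) (nat_lit 2) (.n (nat_lit 33) (nat_lit 1) (.p (nat_lit 34) (nat_lit 1) (.p (nat_lit 35) (nat_lit 1)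 (.p (nat_lit 36) (nat_lit 3) (.n (nat_lit 37) (nat_lit 1) (.p (nat_lit 38) (nat_lit 2) (.p (nat_lit 39) (nat_lit 2) (.n (nat_lit 40) (nat_lit 1) (.p (nat_lit 45) (nat_lit 1) (.n (nat_lit 51) (nat_lit 1) (.p (nat_lit 53) (nat_lit 2) (.n (nat_lit 54) (nat_lit 3) (.p (nat_lit 56) (nat_lit 1) (.n (nat_lit 59) (nat_lit 1) (.p (nat_lit 60) (nat_lit 1) (.n (nat_lit 62) (nat_lit 1) (.n (nat_lit 68) (nat_lit 1) (.n (nat_lit 69) (nat_lit 2) .z))))))))))))))))))))))))))))))))))))))))))) .nil)))))))))))))))))))))))))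

noncomputable def dC1b_i53 : IL := (.e false (nat_lit 3) (nat_lit 333) (nat_lit 0) (nat_lit 15) (.e false (nat_lit 1) (nat_lit 334) (nat_lit 0) (nat_lit 15) (.e false (nat_lit 1) (nat_lit 335) (nat_lit 0) (nat_lit 15) (.e true (nat_lit 1) (nat_lit 336) (nat_lit 0) (nat_lit 15) (.e true (nat_lit 2) (nat_lit 337) (nat_lit 0) (nat_lit 15) (.e true (nat_lit 1) (nat_lit 340) (nat_lit 0) (nat_lit 15) (.e false (nat_lit 1) (nat_lit 344) (nat_lit 0) (nat_lit 15) (.e true (nat_lit 1) (nat_lit 345) (nat_lit 0) (nat_lit 15) (.e true (nat_lit 3) (nat_lit 261) (nat_lit 2) (nat_lit 13) (.e true (nat_lit 1) (nat_lit 262) (nat_lit 2) (nat_lit 13) (.e false (nat_lit 1) (nat_lit 263) (nat_lit 2) (nat_lit 13) (.e false (nat_lit 3) (nat_lit 264) (nat_lit 2) (nat_lit 13) (.e false (nat_lit 2) (nat_lit 265) (nat_lit 2) (nat_lit 13) (.e true (nat_lit 2) (nat_lit 267) (nat_lit 2) (nat_lit 13)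 (.e true (nat_lit 1) (nat_lit 269) (nat_lit 2) (nat_lit 13) (.e false (nat_lit 1) (nat_lit 271) (nat_lit 2) (nat_lit 13) (.e false (nat_lit 2) (nat_lit 272) (nat_lit 2) (nat_lit 13) (.e false (nat_lit 1) (nat_lit 273) (nat_lit 2) (nat_lit 13) (.e true (nat_lit 1) (nat_lit 274) (nat_lit 2) (nat_lit 13) (.e true (nat_lit 2) (nat_lit 279) (nat_lit 2) (nat_lit 13) (.e false (nat_lit 3) (nat_lit 280) (nat_lit 2) (nat_lit 13) (.e false (nat_lit 2) (nat_lit 260) (nat_lit 2) (nat_lit 13) (.e false (nat_lit 3) (nat_lit 270) (nat_lit 2) (nat_lit 13) (.e false (nat_lit 1) (nat_lit 278) (nat_lit 2) (nat_lit 13) (.u (nat_lit 2) (.p (nat_lit 1) (nat_lit 2) (.p (nat_lit 2) (nat_lit 1) (.p (nat_lit 3) (nat_lit 2) (.p (nat_lit 5) (nat_lit 2) (.p (nat_lit 6) (nat_lit 2) (.p (nat_lit 7) (nat_lit 2) (.n (nat_lit 8) (nat_lit 1) (.n (nat_lit 9) (nat_lit 1) (.p (nat_lit 12) (nat_lit 1) (.n (nat_lit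 13) (nat_lit 2) (.p (nat_lit 15) (nat_lit 1) (.p (nat_lit 16) (nat_lit 3) (.p (nat_lit 17) (nat_lit 2) (.p (nat_lit 19) (nat_lit 3) (.n (nat_lit 22) (nat_lit 1) (.p (nat_lit 26) (nat_lit 1) (.p (nat_lit 27) (nat_lit 1) (.p (nat_lit 30) (nat_lit 1) (.p (nat_lit 33) (nat_lit 4) (.p (nat_lit 182) (nat_lit 1) (.n (nat_lit 185) (nat_lit 1) .z))))))))))))))))))))) .nil)))))))))))))))))))))))))

noncomputable def dC1b_i54 : IL := (.e true (nat_lit 2) (nat_lit 138) (nat_lit 1) (nat_lit 13) (.e false (nat_lit 3) (nat_lit 141) (nat_lit 1) (nat_lit 13) (.e false (nat_lit 3) (nat_lit 145) (nat_lit 1) (nat_lit 13) (.e false (nat_lit 1) (nat_lit 27) (nat_lit 14) (nat_lit 2) (.e false (nat_lit 1) (nat_lit 56) (nat_lit 5) (nat_lit 9) (.e true (nat_lit 2) (nat_lit 57) (nat_lit 5) (nat_lit 9) (.e true (nat_lit 1) (nat_lit 58) (nat_lit 5) (nat_lit 9) (.e false (nat_lit 1) (nat_lit 65) (nat_lit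 5) (nat_lit 9) (.e false (nat_lit 2) (nat_lit 153) (nat_lit 0) (nat_lit 14) (.e false (nat_lit 3) (nat_lit 154) (nat_lit 0) (nat_lit 14) (.e true (nat_lit 3) (nat_lit 155) (nat_lit 0) (nat_lit 14) (.e false (nat_lit 3) (nat_lit 156) (nat_lit 0) (nat_lit 14) (.e true (nat_lit 1) (nat_lit 157) (nat_lit 0) (nat_lit 14) (.e false (nat_lit 2) (nat_lit 159) (nat_lit 0) (nat_lit 14) (.e true (nat_lit 1) (nat_lit 160) (nat_lit 0) (nat_lit 14) (.e false (nat_lit 3) (nat_lit 161) (nat_lit 0) (nat_lit 14) (.e true (nat_lit 2) (nat_lit 162) (nat_lit 0) (nat_lit 14) (.e true (nat_lit 2) (nat_lit 163) (nat_lit 0) (nat_lit 14) (.e false (nat_lit 3) (nat_lit 164) (nat_lit 0) (nat_lit 14) (.e false (nat_lit 1) (nat_lit 165) (nat_lit 0) (nat_lit 14) (.e true (nat_lit 1) (nat_lit 166) (nat_lit 0) (nat_lit 14) (.e false (nat_lit 3) (nat_lit 168) (nat_lit 0) (nat_lit 14) (.e true (nat_lit 2)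 (nat_lit 170) (nat_lit 0) (nat_lit 14) (.e false (nat_lit 2) (nat_lit 173) (nat_lit 0) (nat_lit 14) (.u (nat_lit 2) (.p (nat_lit 0) (nat_lit 3) (.n (nat_lit 2) (nat_lit 1) (.p (nat_lit 3) (nat_lit 1) (.p (nat_lit 5) (nat_lit 2) (.p (nat_lit 6) (nat_lit 1) (.p (nat_lit 8) (nat_lit 3) (.n (nat_lit 9) (nat_lit 2) (.n (nat_lit 10) (nat_lit 1) (.n (nat_lit 11) (nat_lit 1) (.n (nat_lit 12) (nat_lit 1) (.n (nat_lit 15) (nat_lit 3) (.n (nat_lit 16) (nat_lit 1) (.p (nat_lit 20) (nat_lit 2) (.n (nat_lit 22) (nat_lit 2) (.p (nat_lit 23) (nat_lit 1) (.p (nat_lit 24) (nat_lit 1) (.p (nat_lit 25) (nat_lit 3) (.n (nat_lit 26) (nat_lit 1) (.p (nat_lit 27) (nat_lit 1) (.p (nat_lit 28) (nat_lit 1) (.p (nat_lit 30) (nat_lit 2) (.n (nat_lit 31) (nat_lit 1) (.p (nat_lit 33) (nat_lit 1) (.p (nat_lit 34) (nat_lit 1) (.n (nat_lit 35) (nat_lit 1) (.p (nat_lit 36) (nat_lit 1) (.n (nat_lit 37) (nat_lit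 1) (.p (nat_lit 46) (nat_lit 1) (.p (nat_lit 161) (nat_lit 1) (.n (nat_lit 162) (nat_lit 1) (.p (nat_lit 163) (nat_lit 1) (.p (nat_lit 164) (nat_lit 1) (.p (nat_lit 168) (nat_lit 1) (.n (nat_lit 169) (nat_lit 1) (.n (nat_lit 171) (nat_lit 2) (.p (nat_lit 173) (nat_lit 1) (.n (nat_lit 174) (nat_lit 1) (.p (nat_lit 180) (nat_lit 1) .z)))))))))))))))))))))))))))))))))))))) .nil)))))))))))))))))))))))))

noncomputable def dC1b_i55 : IL := (.s false (nat_lit 1) (nat_lit 31) (nat_lit 2) (nat_lit 0) (nat_lit 2) true (nat_lit 6) true (nat_lit 10) false (nat_lit 2) true (nat_lit 10) true (nat_lit 12) (.s true (nat_lit 1) (nat_lit 31) (nat_lit 2) (nat_lit 2) (nat_lit 0) true (nat_lit 8) true (nat_lit 12) false (nat_lit 2) true (nat_lit 10) true (nat_lit 10) (.e true (nat_lit 1) (nat_lit 55) (nat_lit 6) (nat_lit 6) (.e false (nat_lit 1) (nat_lit 56) (nat_lit 6) (nat_lit 6) (.e true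 (nat_lit 2) (nat_lit 57) (nat_lit 6) (nat_lit 6) (.e true (nat_lit 3) (nat_lit 65) (nat_lit 6) (nat_lit 6) (.e false (nat_lit 1) (nat_lit 133) (nat_lit 2) (nat_lit 10) (.e false (nat_lit 3) (nat_lit 134) (nat_lit 2) (nat_lit 10) (.e false (nat_lit 3) (nat_lit 135) (nat_lit 2) (nat_lit 10) (.e false (nat_lit 3) (nat_lit 137) (nat_lit 2) (nat_lit 10) (.e false (nat_lit 2) (nat_lit 138) (nat_lit 2) (nat_lit 10) (.e false (nat_lit 2) (nat_lit 139) (nat_lit 2) (nat_lit 10) (.e true (nat_lit 2) (nat_lit 143) (nat_lit 2) (nat_lit 10) (.e false (nat_lit 3) (nat_lit 144) (nat_lit 2) (nat_lit 10) (.e true (nat_lit 2) (nat_lit 145) (nat_lit 2) (nat_lit 10) (.e false (nat_lit 2) (nat_lit 146) (nat_lit 2) (nat_lit 10) (.e true (nat_lit 2) (nat_lit 149) (nat_lit 2) (nat_lit 10) (.e true (nat_lit 3) (nat_lit 150) (nat_lit 2) (nat_lit 10) (.e false (nat_lit 1) (nat_lit 152) (nat_lit 2)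 (nat_lit 10) (.e false (nat_lit 1) (nat_lit 132) (nat_lit 2) (nat_lit 10) (.e false (nat_lit 1) (nat_lit 136) (nat_lit 2) (nat_lit 10) (.e false (nat_lit 1) (nat_lit 46) (nat_lit 7) (nat_lit 5) (.e true (nat_lit 1) (nat_lit 21) (nat_lit 18) (nat_lit 0) (.e false (nat_lit 1) (nat_lit 22) (nat_lit 18) (nat_lit 0) (.u (nat_lit 2) (.n (nat_lit 17) (nat_lit 1) (.n (nat_lit 65) (nat_lit 1) (.p (nat_lit 66) (nat_lit 1) (.p (nat_lit 67) (nat_lit 2) (.n (nat_lit 68) (nat_lit 1) (.p (nat_lit 71) (nat_lit 1) (.n (nat_lit 74) (nat_lit 1) (.p (nat_lit 75) (nat_lit 5) (.p (nat_lit 93) (nat_lit 1) (.p (nat_lit 94) (nat_lit 1) (.n (nat_lit 97) (nat_lit 1) (.n (nat_lit 98) (nat_lit 2) (.n (nat_lit 99) (nat_lit 1) (.n (nat_lit 100) (nat_lit 1) (.n (nat_lit 101) (nat_lit 1) (.p (nat_lit 102) (nat_lit 1) (.n (nat_lit 103) (nat_lit 2) (.n (nat_lit 105) (nat_lit 1) (.n (nat_lit 108) (nat_lit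 2) (.n (nat_lit 115) (nat_lit 1) (.n (nat_lit 116) (nat_lit 2) (.n (nat_lit 131) (nat_lit 1) .z)))))))))))))))))))))) .nil)))))))))))))))))))))))))

noncomputable def dC1b_i56 : IL := (.e true (nat_lit 2) (nat_lit 226) (nat_lit 2) (nat_lit 17) (.e true (nat_lit 1) (nat_lit 227) (nat_lit 2) (nat_lit 17) (.e true (nat_lit 3) (nat_lit 228) (nat_lit 2) (nat_lit 17) (.e false (nat_lit 2) (nat_lit 229) (nat_lit 2) (nat_lit 17) (.e true (nat_lit 2) (nat_lit 230) (nat_lit 2) (nat_lit 17) (.e true (nat_lit 2) (nat_lit 231) (nat_lit 2) (nat_lit 17) (.e false (nat_lit 3) (nat_lit 233) (nat_lit 2) (nat_lit 17) (.e false (nat_lit 2) (nat_lit 234) (nat_lit 2) (nat_lit 17) (.e true (nat_lit 2) (nat_lit 235) (nat_lit 2) (nat_lit 17) (.e true (nat_lit 3) (nat_lit 236) (nat_lit 2) (nat_lit 17) (.e true (nat_lit 2) (nat_lit 238) (nat_lit 2) (nat_lit 17) (.e true (nat_lit 1) (nat_lit 240)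 (nat_lit 2) (nat_lit 17) (.e false (nat_lit 2) (nat_lit 241) (nat_lit 2) (nat_lit 17) (.e false (nat_lit 3) (nat_lit 242) (nat_lit 2) (nat_lit 17) (.e true (nat_lit 1) (nat_lit 243) (nat_lit 2) (nat_lit 17) (.e true (nat_lit 3) (nat_lit 244) (nat_lit 2) (nat_lit 17) (.e false (nat_lit 1) (nat_lit 246) (nat_lit 2) (nat_lit 17) (.e true (nat_lit 1) (nat_lit 247) (nat_lit 2) (nat_lit 17) (.e false (nat_lit 1) (nat_lit 248) (nat_lit 2) (nat_lit 17) (.e true (nat_lit 3) (nat_lit 249) (nat_lit 2) (nat_lit 17) (.e true (nat_lit 3) (nat_lit 251) (nat_lit 2) (nat_lit 17) (.e true (nat_lit 1) (nat_lit 252) (nat_lit 2) (nat_lit 17) (.e false (nat_lit 3) (nat_lit 258) (nat_lit 2) (nat_lit 17) (.e false (nat_lit 1) (nat_lit 267) (nat_lit 1) (nat_lit 18) (.u (nat_lit 2) (.p (nat_lit 0) (nat_lit 1) (.n (nat_lit 1) (nat_lit 1) (.n (nat_lit 2) (nat_lit 2) (.p (nat_lit 3) (nat_lit 1) (.p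 (nat_lit 4) (nat_lit 1) (.p (nat_lit 6) (nat_lit 1) (.p (nat_lit 7) (nat_lit 1) (.n (nat_lit 8) (nat_lit 2) (.n (nat_lit 9) (nat_lit 1) (.p (nat_lit 10) (nat_lit 2) (.p (nat_lit 11) (nat_lit 5) (.n (nat_lit 12) (nat_lit 1) (.p (nat_lit 13) (nat_lit 1) (.p (nat_lit 14) (nat_lit 3) (.n (nat_lit 15) (nat_lit 3) (.n (nat_lit 17) (nat_lit 1) (.n (nat_lit 18) (nat_lit 1) (.p (nat_lit 19) (nat_lit 6) (.n (nat_lit 20) (nat_lit 4) (.p (nat_lit 23) (nat_lit 1) (.p (nat_lit 26) (nat_lit 1) (.n (nat_lit 27) (nat_lit 2) (.n (nat_lit 28) (nat_lit 1) (.n (nat_lit 30) (nat_lit 1) (.p (nat_lit 31) (nat_lit 2) (.n (nat_lit 32) (nat_lit 1) (.p (nat_lit 33) (nat_lit 4) (.p (nat_lit 34) (nat_lit 1) (.n (nat_lit 35) (nat_lit 2) (.n (nat_lit 36) (nat_lit 3) (.n (nat_lit 37) (nat_lit 6) (.n (nat_lit 38) (nat_lit 3) (.n (nat_lit 39) (nat_lit 2) (.p (nat_lit 40) (nat_lit 3) (.n (nat_lit 41) (nat_lit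 5) (.n (nat_lit 46) (nat_lit 1) (.p (nat_lit 48) (nat_lit 1) (.p (nat_lit 49) (nat_lit 1) (.p (nat_lit 51) (nat_lit 1) (.n (nat_lit 52) (nat_lit 1) (.n (nat_lit 53) (nat_lit 2) (.p (nat_lit 54) (nat_lit 2) (.n (nat_lit 56) (nat_lit 1) (.n (nat_lit 59) (nat_lit 1) (.p (nat_lit 60) (nat_lit 1) (.p (nat_lit 61) (nat_lit 1) (.p (nat_lit 62) (nat_lit 1) (.n (nat_lit 64) (nat_lit 1) (.n (nat_lit 68) (nat_lit 1) (.p (nat_lit 69) (nat_lit 2) .z)))))))))))))))))))))))))))))))))))))))))))))))))) .nil)))))))))))))))))))))))))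

noncomputable def dC1b_i57 : IL := (.e true (nat_lit 3) (nat_lit 230) (nat_lit 2) (nat_lit 17) (.e true (nat_lit 2) (nat_lit 231) (nat_lit 2) (nat_lit 17) (.e true (nat_lit 3) (nat_lit 233) (nat_lit 2) (nat_lit 17) (.e true (nat_lit 2) (nat_lit 234) (nat_lit 2) (nat_lit 17) (.e false (nat_lit 2) (nat_lit 235) (nat_lit 2) (nat_lit 17) (.e true (nat_lit 3) (nat_lit 236) (nat_lit 2) (nat_lit 17) (.e true (nat_lit 2) (nat_lit 238) (nat_lit 2) (nat_lit 17) (.e true (nat_lit 2) (nat_lit 239) (nat_lit 2) (nat_lit 17) (.e false (nat_lit 1) (nat_lit 240) (nat_lit 2) (nat_lit 17) (.e false (nat_lit 3) (nat_lit 241) (nat_lit 2) (nat_lit 17) (.e true (nat_lit 2) (nat_lit 242) (nat_lit 2) (nat_lit 17) (.e false (nat_lit 2) (nat_lit 244) (nat_lit 2) (nat_lit 17) (.e true (nat_lit 2) (nat_lit 246) (nat_lit 2) (nat_lit 17) (.e false (nat_lit 2) (nat_lit 247) (nat_lit 2) (nat_lit 17) (.e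 true (nat_lit 1) (nat_lit 249) (nat_lit 2) (nat_lit 17) (.e true (nat_lit 1) (nat_lit 251) (nat_lit 2) (nat_lit 17) (.e false (nat_lit 2) (nat_lit 252) (nat_lit 2) (nat_lit 17) (.e false (nat_lit 1) (nat_lit 258) (nat_lit 2) (nat_lit 17) (.e false (nat_lit 1) (nat_lit 214) (nat_lit 2) (nat_lit 17) (.e true (nat_lit 3) (nat_lit 216) (nat_lit 2) (nat_lit 17) (.e true (nat_lit 2) (nat_lit 220) (nat_lit 2) (nat_lit 17) (.e false (nat_lit 2) (nat_lit 232) (nat_lit 2) (nat_lit 17) (.e false (nat_lit 2) (nat_lit 237) (nat_lit 2) (nat_lit 17) (.e false (nat_lit 2) (nat_lit 245) (nat_lit 2) (nat_lit 17) (.u (nat_lit 2) (.n (nat_lit 0) (nat_lit 1) (.p (nat_lit 2) (nat_lit 2) (.p (nat_lit 3) (nat_lit 1) (.p (nat_lit 4) (nat_lit 2) (.n (nat_lit 5) (nat_lit 2) (.n (nat_lit 6) (nat_lit 4) (.p (nat_lit 7) (nat_lit 2) (.n (nat_lit 9) (nat_lit 2) (.p (nat_lit 10) (nat_lit 2) (.n (nat_lit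 11) (nat_lit 2) (.p (nat_lit 12) (nat_lit 2) (.p (nat_lit 14) (nat_lit 2) (.n (nat_lit 15) (nat_lit 3) (.p (nat_lit 17) (nat_lit 1) (.n (nat_lit 18) (nat_lit 4) (.p (nat_lit 19) (nat_lit 6) (.p (nat_lit 20) (nat_lit 2) (.n (nat_lit 26) (nat_lit 1) (.n (nat_lit 27) (nat_lit 1) (.n (nat_lit 28) (nat_lit 3) (.n (nat_lit 29) (nat_lit 3) (.n (nat_lit 30) (nat_lit 2) (.n (nat_lit 32) (nat_lit 3) (.p (nat_lit 33) (nat_lit 3) (.n (nat_lit 34) (nat_lit 3) (.n (nat_lit 35) (nat_lit 1) (.n (nat_lit 37) (nat_lit 3) (.p (nat_lit 38) (nat_lit 2) (.n (nat_lit 39) (nat_lit 3) (.p (nat_lit 40) (nat_lit 2) (.n (nat_lit 41) (nat_lit 1) (.p (nat_lit 46) (nat_lit 1) (.n (nat_lit 48) (nat_lit 1) (.p (nat_lit 49) (nat_lit 1) (.n (nat_lit 53) (nat_lit 2) (.p (nat_lit 54) (nat_lit 1) (.n (nat_lit 55) (nat_lit 2) (.n (nat_lit 56) (nat_lit 1) (.p (nat_lit 57) (nat_lit 1) (.n (nat_lit 59) (nat_lit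 1) (.p (nat_lit 60) (nat_lit 1) (.n (nat_lit 62) (nat_lit 1) (.n (nat_lit 64) (nat_lit 1) (.n (nat_lit 68) (nat_lit 1) (.n (nat_lit 70) (nat_lit 2) (.n (nat_lit 327) (nat_lit 1) (.p (nat_lit 330) (nat_lit 1) (.p (nat_lit 336) (nat_lit 1) (.n (nat_lit 339) (nat_lit 1) (.p (nat_lit 343) (nat_lit 1) (.p (nat_lit 345) (nat_lit 1) (.p (nat_lit 346) (nat_lit 1) (.p (nat_lit 351) (nat_lit 1) (.p (nat_lit 353) (nat_lit 1) (.p (nat_lit 354) (nat_lit 1) (.n (nat_lit 356) (nat_lit 1) (.p (nat_lit 364) (nat_lit 1) (.p (nat_lit 366) (nat_lit 1) (.n (nat_lit 373) (nat_lit 1) .z))))))))))))))))))))))))))))))))))))))))))))))))))))))))))) .nil)))))))))))))))))))))))))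

noncomputable def dC1b_c546 : Cm := .mk (nat_lit 164) (nat_lit 546) (nat_lit 107) (nat_lit 25) (.c (nat_lit 10) (nat_lit 3) (nat_lit 10) (nat_lit 3) (nat_lit 25) (.c (nat_lit 13) (nat_lit 1) (nat_lit 9) (nat_lit 1) (nat_lit 34) (.c (nat_lit 14) (nat_lit 2) (nat_lit 8) (nat_lit 1) (nat_lit 35) (.c (nat_lit 16) (nat_lit 2) (nat_lit 7) (nat_lit 1) (nat_lit 37) (.c (nat_lit 19) (nat_lit 1) (nat_lit 6) (nat_lit 1) (nat_lit 39) (.c (nat_lit 20) (nat_lit 4) (nat_lit 5) (nat_lit 1) (nat_lit 40) (.c (nat_lit 24) (nat_lit 4) (nat_lit 4) (nat_lit 1) (nat_lit 44) (.c (nat_lit 31) (nat_lit 6) (nat_lit 3) (nat_lit 1) (nat_lit 48) (.c (nat_lit 47) (nat_lit 8) (nat_lit 2) (nat_lit 1) (nat_lit 54) (.c (nat_lit 55) (nat_lit 11) (nat_lit 1) (nat_lit 1) (nat_lit 62) (.c (nat_lit 66) (nat_lit 11) (nat_lit 0) (nat_lit 1) (nat_lit 73) (.c (nat_lit 2512) (nat_lit 0) (nat_lit 37) (nat_lit 3) (nat_lit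 84) (.c (nat_lit 2032) (nat_lit 0) (nat_lit 28) (nat_lit 3) (nat_lit 84) .nil)))))))))))))

noncomputable def dC1b_i58 : IL := (.e true (nat_lit 3) (nat_lit 61) (nat_lit 16) (nat_lit 6) (.e true (nat_lit 1) (nat_lit 62) (nat_lit 16) (nat_lit 6) (.e true (nat_lit 3) (nat_lit 64) (nat_lit 16) (nat_lit 6) (.e true (nat_lit 3) (nat_lit 65) (nat_lit 16) (nat_lit 6) (.e false (nat_lit 3) (nat_lit 290) (nat_lit 0) (nat_lit 19) (.e false (nat_lit 1) (nat_lit 291) (nat_lit 0) (nat_lit 19) (.e true (nat_lit 2) (nat_lit 293) (nat_lit 0) (nat_lit 19) (.e false (nat_lit 1) (nat_lit 294) (nat_lit 0) (nat_lit 19) (.e true (nat_lit 1) (nat_lit 296) (nat_lit 0) (nat_lit 19) (.e false (nat_lit 2) (nat_lit 297) (nat_lit 0) (nat_lit 19) (.e false (nat_lit 1) (nat_lit 298) (nat_lit 0) (nat_lit 19) (.e true (nat_lit 1) (nat_lit 299) (nat_lit 0) (nat_lit 19) (.e true (nat_lit 3) (nat_lit 300)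 (nat_lit 0) (nat_lit 19) (.e true (nat_lit 3) (nat_lit 301) (nat_lit 0) (nat_lit 19) (.e true (nat_lit 1) (nat_lit 302) (nat_lit 0) (nat_lit 19) (.e false (nat_lit 1) (nat_lit 304) (nat_lit 0) (nat_lit 19) (.e true (nat_lit 3) (nat_lit 305) (nat_lit 0) (nat_lit 19) (.e false (nat_lit 1) (nat_lit 308) (nat_lit 0) (nat_lit 19) (.e true (nat_lit 3) (nat_lit 310) (nat_lit 0) (nat_lit 19) (.e false (nat_lit 1) (nat_lit 311) (nat_lit 0) (nat_lit 19) (.e true (nat_lit 1) (nat_lit 313) (nat_lit 0) (nat_lit 19) (.e false (nat_lit 3) (nat_lit 316) (nat_lit 0) (nat_lit 19) (.e false (nat_lit 3) (nat_lit 317) (nat_lit 0) (nat_lit 19) (.e false (nat_lit 1) (nat_lit 318) (nat_lit 0) (nat_lit 19) (.u (nat_lit 2) (.p (nat_lit 0) (nat_lit 2) (.p (nat_lit 1) (nat_lit 2) (.n (nat_lit 2) (nat_lit 2) (.n (nat_lit 3) (nat_lit 4) (.p (nat_lit 4) (nat_lit 3) (.p (nat_lit 5) (nat_lit 1) (.p (nat_lit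 9) (nat_lit 1) (.p (nat_lit 11) (nat_lit 5) (.n (nat_lit 12) (nat_lit 2) (.n (nat_lit 13) (nat_lit 1) (.p (nat_lit 14) (nat_lit 3) (.n (nat_lit 15) (nat_lit 1) (.n (nat_lit 16) (nat_lit 1) (.p (nat_lit 17) (nat_lit 1) (.p (nat_lit 18) (nat_lit 3) (.p (nat_lit 19) (nat_lit 1) (.p (nat_lit 20) (nat_lit 1) (.n (nat_lit 21) (nat_lit 1) (.p (nat_lit 23) (nat_lit 3) (.n (nat_lit 24) (nat_lit 1) (.n (nat_lit 25) (nat_lit 1) (.p (nat_lit 26) (nat_lit 1) (.n (nat_lit 27) (nat_lit 3) (.n (nat_lit 28) (nat_lit 3) (.p (nat_lit 29) (nat_lit 1) (.n (nat_lit 30) (nat_lit 1) (.n (nat_lit 31) (nat_lit 4) (.p (nat_lit 32) (nat_lit 1) (.n (nat_lit 33) (nat_lit 2) (.p (nat_lit 35) (nat_lit 1) (.n (nat_lit 36) (nat_lit 2) (.n (nat_lit 37) (nat_lit 1) (.p (nat_lit 38) (nat_lit 1) (.n (nat_lit 39) (nat_lit 1) (.p (nat_lit 40) (nat_lit 4) (.n (nat_lit 41) (nat_lit 1) (.p (nat_lit 44) (nat_lit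 1) (.p (nat_lit 45) (nat_lit 1) (.n (nat_lit 49) (nat_lit 3) (.n (nat_lit 50) (nat_lit 2) (.p (nat_lit 51) (nat_lit 2) (.n (nat_lit 52) (nat_lit 2) (.p (nat_lit 53) (nat_lit 1) (.p (nat_lit 55) (nat_lit 1) (.p (nat_lit 59) (nat_lit 1) (.p (nat_lit 61) (nat_lit 2) (.n (nat_lit 68) (nat_lit 1) (.p (nat_lit 106) (nat_lit 1) .z)))))))))))))))))))))))))))))))))))))))))))))))) .nil)))))))))))))))))))))))))

noncomputable def dC1b_i59 : IL := (.e true (nat_lit 3) (nat_lit 64) (nat_lit 17) (nat_lit 6) (.e true (nat_lit 3) (nat_lit 65) (nat_lit 17) (nat_lit 6) (.e true (nat_lit 1) (nat_lit 291) (nat_lit 0) (nat_lit 19) (.e false (nat_lit 1) (nat_lit 298) (nat_lit 0) (nat_lit 19) (.e false (nat_lit 1) (nat_lit 299) (nat_lit 0) (nat_lit 19) (.e false (nat_lit 2) (nat_lit 301) (nat_lit 0) (nat_lit 19) (.e false (nat_lit 1) (nat_lit 308) (nat_lit 0) (nat_lit 19) (.e false (nat_lit 2)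 (nat_lit 311) (nat_lit 0) (nat_lit 19) (.e false (nat_lit 3) (nat_lit 296) (nat_lit 0) (nat_lit 19) (.e true (nat_lit 1) (nat_lit 297) (nat_lit 0) (nat_lit 19) (.e true (nat_lit 3) (nat_lit 300) (nat_lit 0) (nat_lit 19) (.e true (nat_lit 2) (nat_lit 310) (nat_lit 0) (nat_lit 19) (.e false (nat_lit 1) (nat_lit 290) (nat_lit 0) (nat_lit 19) (.e true (nat_lit 1) (nat_lit 292) (nat_lit 0) (nat_lit 19) (.e true (nat_lit 2) (nat_lit 313) (nat_lit 0) (nat_lit 19) (.e false (nat_lit 1) (nat_lit 295) (nat_lit 0) (nat_lit 19) (.e false (nat_lit 1) (nat_lit 316) (nat_lit 0) (nat_lit 19) (.e true (nat_lit 2) (nat_lit 302) (nat_lit 0) (nat_lit 19) (.e false (nat_lit 1) (nat_lit 305) (nat_lit 0) (nat_lit 19) (.e false (nat_lit 2) (nat_lit 318) (nat_lit 0) (nat_lit 19) (.e false (nat_lit 2) (nat_lit 317) (nat_lit 0) (nat_lit 19) (.e false (nat_lit 3) (nat_lit 293) (nat_lit 0) (nat_lit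 19) (.e false (nat_lit 1) (nat_lit 304) (nat_lit 0) (nat_lit 19) (.u (nat_lit 2) (.n (nat_lit 0) (nat_lit 3) (.n (nat_lit 1) (nat_lit 3) (.p (nat_lit 3) (nat_lit 1) (.p (nat_lit 4) (nat_lit 1) (.n (nat_lit 5) (nat_lit 3) (.n (nat_lit 6) (nat_lit 1) (.n (nat_lit 7) (nat_lit 3) (.n (nat_lit 9) (nat_lit 2) (.n (nat_lit 10) (nat_lit 1) (.p (nat_lit 11) (nat_lit 2) (.n (nat_lit 12) (nat_lit 3) (.p (nat_lit 13) (nat_lit 1) (.p (nat_lit 14) (nat_lit 2) (.n (nat_lit 15) (nat_lit 3) (.p (nat_lit 16) (nat_lit 1) (.p (nat_lit 17) (nat_lit 1) (.p (nat_lit 18) (nat_lit 4) (.n (nat_lit 19) (nat_lit 2) (.n (nat_lit 20) (nat_lit 2) (.p (nat_lit 21) (nat_lit 1) (.n (nat_lit 23) (nat_lit 3) (.n (nat_lit 24) (nat_lit 3) (.n (nat_lit 25) (nat_lit 4) (.n (nat_lit 26) (nat_lit 2) (.n (nat_lit 28) (nat_lit 1) (.n (nat_lit 29) (nat_lit 3) (.n (nat_lit 30) (nat_lit 1) (.p (nat_lit 32) (nat_lit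 1) (.p (nat_lit 33) (nat_lit 4) (.n (nat_lit 34) (nat_lit 1) (.p (nat_lit 35) (nat_lit 1) (.p (nat_lit 36) (nat_lit 3) (.p (nat_lit 39) (nat_lit 3) (.n (nat_lit 40) (nat_lit 1) (.p (nat_lit 41) (nat_lit 1) (.p (nat_lit 44) (nat_lit 1) (.p (nat_lit 45) (nat_lit 2) (.n (nat_lit 46) (nat_lit 1) (.p (nat_lit 48) (nat_lit 1) (.p (nat_lit 49) (nat_lit 2) (.p (nat_lit 52) (nat_lit 2) (.n (nat_lit 53) (nat_lit 1) (.n (nat_lit 54) (nat_lit 3) (.p (nat_lit 55) (nat_lit 1) (.p (nat_lit 58) (nat_lit 1) (.n (nat_lit 59) (nat_lit 1) (.n (nat_lit 61) (nat_lit 2) (.p (nat_lit 67) (nat_lit 1) (.n (nat_lit 68) (nat_lit 3) (.p (nat_lit 69) (nat_lit 3) (.n (nat_lit 106) (nat_lit 1) (.n (nat_lit 405) (nat_lit 2) (.n (nat_lit 406) (nat_lit 1) (.n (nat_lit 407) (nat_lit 1) (.n (nat_lit 408) (nat_lit 1) (.n (nat_lit 409) (nat_lit 3) (.p (nat_lit 410) (nat_lit 2) (.n (nat_lit 412) (nat_lit 1) (.p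 (nat_lit 413) (nat_lit 2) (.n (nat_lit 414) (nat_lit 1) .z)))))))))))))))))))))))))))))))))))))))))))))))))))))))))))) (.u (nat_lit 2) (.p (nat_lit 416) (nat_lit 1) (.p (nat_lit 417) (nat_lit 1) (.n (nat_lit 419) (nat_lit 1) (.p (nat_lit 423) (nat_lit 3) (.p (nat_lit 425) (nat_lit 1) (.p (nat_lit 426) (nat_lit 3) (.p (nat_lit 428) (nat_lit 2) (.p (nat_lit 429) (nat_lit 2) (.p (nat_lit 430) (nat_lit 2) (.p (nat_lit 431) (nat_lit 2) (.n (nat_lit 432) (nat_lit 1) (.p (nat_lit 433) (nat_lit 1) (.n (nat_lit 434) (nat_lit 3) .z))))))))))))) .nil)))))))))))))))))))))))))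

noncomputable def dC1b_i60 : IL := (.e false (nat_lit 1) (nat_lit 230) (nat_lit 2) (nat_lit 17) (.e false (nat_lit 2) (nat_lit 231) (nat_lit 2) (nat_lit 17) (.e false (nat_lit 2) (nat_lit 232) (nat_lit 2) (nat_lit 17) (.e true (nat_lit 1) (nat_lit 233) (nat_lit 2) (nat_lit 17) (.e false (nat_lit 1) (nat_lit 234) (nat_lit 2) (nat_lit 17) (.e false (nat_lit 2) (nat_lit 235) (nat_lit 2) (nat_lit 17) (.e false (nat_lit 3) (nat_lit 236) (nat_lit 2) (nat_lit 17) (.e false (nat_lit 2) (nat_lit 238) (nat_lit 2) (nat_lit 17) (.e true (nat_lit 2) (nat_lit 239) (nat_lit 2) (nat_lit 17) (.e false (nat_lit 1) (nat_lit 240) (nat_lit 2) (nat_lit 17) (.e false (nat_lit 3) (nat_lit 242) (nat_lit 2) (nat_lit 17) (.e false (nat_lit 1) (nat_lit 243) (nat_lit 2) (nat_lit 17) (.e true (nat_lit 2) (nat_lit 244) (nat_lit 2) (nat_lit 17) (.e true (nat_lit 2) (nat_lit 245) (nat_lit 2) (nat_lit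 17) (.e false (nat_lit 2) (nat_lit 246) (nat_lit 2) (nat_lit 17) (.e true (nat_lit 2) (nat_lit 247) (nat_lit 2) (nat_lit 17) (.e true (nat_lit 1) (nat_lit 248) (nat_lit 2) (nat_lit 17) (.e false (nat_lit 1) (nat_lit 249) (nat_lit 2) (nat_lit 17) (.e true (nat_lit 2) (nat_lit 250) (nat_lit 2) (nat_lit 17) (.e true (nat_lit 1) (nat_lit 251) (nat_lit 2) (nat_lit 17) (.e false (nat_lit 2) (nat_lit 252) (nat_lit 2) (nat_lit 17) (.e false (nat_lit 1) (nat_lit 258) (nat_lit 2) (nat_lit 17) (.e true (nat_lit 1) (nat_lit 259) (nat_lit 2) (nat_lit 17) (.e false (nat_lit 1) (nat_lit 269) (nat_lit 1) (nat_lit 18) (.u (nat_lit 2) (.n (nat_lit 0) (nat_lit 2) (.p (nat_lit 2) (nat_lit 2) (.p (nat_lit 4) (nat_lit 3) (.p (nat_lit 5) (nat_lit 1) (.n (nat_lit 6) (nat_lit 2) (.p (nat_lit 7) (nat_lit 1) (.n (nat_lit 8) (nat_lit 4) (.p (nat_lit 9) (nat_lit 1) (.p (nat_lit 11) (nat_lit 1) (.n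 (nat_lit 12) (nat_lit 4) (.p (nat_lit 14) (nat_lit 1) (.n (nat_lit 15) (nat_lit 1) (.p (nat_lit 17) (nat_lit 1) (.n (nat_lit 18) (nat_lit 2) (.p (nat_lit 19) (nat_lit 5) (.n (nat_lit 20) (nat_lit 3) (.p (nat_lit 24) (nat_lit 1) (.p (nat_lit 25) (nat_lit 1) (.p (nat_lit 26) (nat_lit 3) (.p (nat_lit 27) (nat_lit 1) (.p (nat_lit 29) (nat_lit 1) (.p (nat_lit 30) (nat_lit 1) (.p (nat_lit 32) (nat_lit 3) (.n (nat_lit 33) (nat_lit 3) (.p (nat_lit 35) (nat_lit 3) (.p (nat_lit 36) (nat_lit 1) (.p (nat_lit 37) (nat_lit 2) (.p (nat_lit 38) (nat_lit 2) (.p (nat_lit 39) (nat_lit 3) (.p (nat_lit 40) (nat_lit 1) (.p (nat_lit 41) (nat_lit 2) (.n (nat_lit 45) (nat_lit 1) (.p (nat_lit 46) (nat_lit 1) (.n (nat_lit 48) (nat_lit 1) (.p (nat_lit 49) (nat_lit 3) (.n (nat_lit 50) (nat_lit 1) (.p (nat_lit 51) (nat_lit 1) (.n (nat_lit 52) (nat_lit 1) (.n (nat_lit 53) (nat_lit 2) (.n (nat_lit 55)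 (nat_lit 1) (.p (nat_lit 56) (nat_lit 1) (.n (nat_lit 59) (nat_lit 1) (.p (nat_lit 60) (nat_lit 1) (.p (nat_lit 63) (nat_lit 1) (.p (nat_lit 67) (nat_lit 1) (.n (nat_lit 68) (nat_lit 1) (.p (nat_lit 69) (nat_lit 1) .z))))))))))))))))))))))))))))))))))))))))))))))) .nil)))))))))))))))))))))))))

noncomputable def dC1b_i61 : IL := (.e false (nat_lit 3) (nat_lit 231) (nat_lit 2) (nat_lit 17) (.e false (nat_lit 3) (nat_lit 232) (nat_lit 2) (nat_lit 17) (.e false (nat_lit 3) (nat_lit 234) (nat_lit 2) (nat_lit 17) (.e true (nat_lit 1) (nat_lit 235) (nat_lit 2) (nat_lit 17) (.e false (nat_lit 3) (nat_lit 238) (nat_lit 2) (nat_lit 17) (.e true (nat_lit 2) (nat_lit 239) (nat_lit 2) (nat_lit 17) (.e true (nat_lit 3) (nat_lit 240) (nat_lit 2) (nat_lit 17) (.e true (nat_lit 2) (nat_lit 241) (nat_lit 2) (nat_lit 17) (.e false (nat_lit 3) (nat_lit 242) (nat_lit 2) (nat_lit 17) (.e false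 (nat_lit 2) (nat_lit 243) (nat_lit 2) (nat_lit 17) (.e false (nat_lit 1) (nat_lit 244) (nat_lit 2) (nat_lit 17) (.e false (nat_lit 2) (nat_lit 245) (nat_lit 2) (nat_lit 17) (.e false (nat_lit 3) (nat_lit 246) (nat_lit 2) (nat_lit 17) (.e true (nat_lit 3) (nat_lit 247) (nat_lit 2) (nat_lit 17) (.e true (nat_lit 2) (nat_lit 248) (nat_lit 2) (nat_lit 17) (.e true (nat_lit 2) (nat_lit 249) (nat_lit 2) (nat_lit 17) (.e true (nat_lit 3) (nat_lit 250) (nat_lit 2) (nat_lit 17) (.e false (nat_lit 2) (nat_lit 251) (nat_lit 2) (nat_lit 17) (.e false (nat_lit 3) (nat_lit 252) (nat_lit 2) (nat_lit 17) (.e true (nat_lit 2) (nat_lit 258) (nat_lit 2) (nat_lit 17) (.e false (nat_lit 2) (nat_lit 259) (nat_lit 2) (nat_lit 17) (.e true (nat_lit 3) (nat_lit 216) (nat_lit 2) (nat_lit 17) (.e false (nat_lit 3) (nat_lit 237) (nat_lit 2) (nat_lit 17) (.u (nat_lit 2) (.p (nat_lit 0) (nat_lit 1)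 (.p (nat_lit 1) (nat_lit 3) (.n (nat_lit 2) (nat_lit 1) (.p (nat_lit 3) (nat_lit 1) (.n (nat_lit 4) (nat_lit 7) (.n (nat_lit 5) (nat_lit 2) (.n (nat_lit 6) (nat_lit 6) (.p (nat_lit 7) (nat_lit 2) (.n (nat_lit 9) (nat_lit 2) (.p (nat_lit 10) (nat_lit 2) (.n (nat_lit 11) (nat_lit 3) (.n (nat_lit 12) (nat_lit 4) (.n (nat_lit 13) (nat_lit 1) (.n (nat_lit 14) (nat_lit 1) (.p (nat_lit 15) (nat_lit 3) (.p (nat_lit 17) (nat_lit 4) (.p (nat_lit 18) (nat_lit 1) (.p (nat_lit 19) (nat_lit 4) (.n (nat_lit 20) (nat_lit 1) (.n (nat_lit 23) (nat_lit 1) (.p (nat_lit 24) (nat_lit 2) (.p (nat_lit 25) (nat_lit 2) (.n (nat_lit 27) (nat_lit 6) (.n (nat_lit 28) (nat_lit 3) (.p (nat_lit 29) (nat_lit 3) (.p (nat_lit 30) (nat_lit 5) (.p (nat_lit 31) (nat_lit 4) (.p (nat_lit 32) (nat_lit 5) (.n (nat_lit 33) (nat_lit 2) (.n (nat_lit 34) (nat_lit 3) (.n (nat_lit 35) (nat_lit 4) (.p (nat_lit 36) (nat_lit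 1) (.p (nat_lit 37) (nat_lit 4) (.n (nat_lit 38) (nat_lit 3) (.p (nat_lit 39) (nat_lit 3) (.p (nat_lit 40) (nat_lit 1) (.p (nat_lit 41) (nat_lit 4) (.n (nat_lit 45) (nat_lit 2) (.p (nat_lit 46) (nat_lit 2) (.n (nat_lit 48) (nat_lit 2) (.p (nat_lit 49) (nat_lit 2) (.n (nat_lit 50) (nat_lit 3) (.p (nat_lit 51) (nat_lit 1) (.n (nat_lit 53) (nat_lit 1) (.p (nat_lit 54) (nat_lit 3) (.n (nat_lit 55) (nat_lit 1) (.p (nat_lit 56) (nat_lit 1) (.p (nat_lit 57) (nat_lit 1) (.n (nat_lit 59) (nat_lit 2) (.n (nat_lit 60) (nat_lit 1) (.n (nat_lit 61) (nat_lit 2) (.p (nat_lit 62) (nat_lit 2) (.p (nat_lit 63) (nat_lit 1) (.p (nat_lit 64) (nat_lit 1) (.p (nat_lit 67) (nat_lit 2) (.n (nat_lit 68) (nat_lit 1) (.n (nat_lit 70) (nat_lit 4) (.n (nat_lit 334) (nat_lit 1) (.n (nat_lit 338) (nat_lit 1) (.p (nat_lit 340) (nat_lit 1) .z)))))))))))))))))))))))))))))))))))))))))))))))))))))))))))) (.u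 (nat_lit 2) (.n (nat_lit 344) (nat_lit 1) (.n (nat_lit 346) (nat_lit 1) (.n (nat_lit 347) (nat_lit 1) (.n (nat_lit 349) (nat_lit 1) (.n (nat_lit 353) (nat_lit 1) (.p (nat_lit 354) (nat_lit 1) (.n (nat_lit 357) (nat_lit 1) (.n (nat_lit 361) (nat_lit 1) (.p (nat_lit 362) (nat_lit 1) (.p (nat_lit 365) (nat_lit 1) (.n (nat_lit 367) (nat_lit 1) .z))))))))))) .nil)))))))))))))))))))))))))

noncomputable def dC1b_i62 : IL := (.e true (nat_lit 3) (nat_lit 269) (nat_lit 2) (nat_lit 13) (.e true (nat_lit 3) (nat_lit 271) (nat_lit 2) (nat_lit 13) (.e true (nat_lit 1) (nat_lit 272) (nat_lit 2) (nat_lit 13) (.e false (nat_lit 3) (nat_lit 273) (nat_lit 2) (nat_lit 13) (.e true (nat_lit 3) (nat_lit 274) (nat_lit 2) (nat_lit 13) (.e false (nat_lit 1) (nat_lit 279) (nat_lit 2) (nat_lit 13) (.e false (nat_lit 1) (nat_lit 280) (nat_lit 2) (nat_lit 13) (.e true (nat_lit 2) (nat_lit 260) (nat_lit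 2) (nat_lit 13) (.e true (nat_lit 1) (nat_lit 278) (nat_lit 2) (nat_lit 13) (.e false (nat_lit 1) (nat_lit 46) (nat_lit 23) (nat_lit 2) (.e false (nat_lit 1) (nat_lit 100) (nat_lit 12) (nat_lit 6) (.e false (nat_lit 2) (nat_lit 60) (nat_lit 18) (nat_lit 3) (.e false (nat_lit 1) (nat_lit 63) (nat_lit 18) (nat_lit 3) (.e true (nat_lit 1) (nat_lit 341) (nat_lit 0) (nat_lit 15) (.e false (nat_lit 1) (nat_lit 346) (nat_lit 0) (nat_lit 15) (.e true (nat_lit 3) (nat_lit 266) (nat_lit 2) (nat_lit 13) (.e false (nat_lit 1) (nat_lit 277) (nat_lit 2) (nat_lit 13) (.e false (nat_lit 2) (nat_lit 287) (nat_lit 2) (nat_lit 13) (.e true (nat_lit 2) (nat_lit 288) (nat_lit 2) (nat_lit 13) (.e false (nat_lit 3) (nat_lit 268) (nat_lit 2) (nat_lit 13) (.e true (nat_lit 2) (nat_lit 42) (nat_lit 32) (nat_lit 0) (.e false (nat_lit 2) (nat_lit 99) (nat_lit 11) (nat_lit 6) (.e true (nat_lit 2) (nat_lit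 101) (nat_lit 11) (nat_lit 6) (.e true (nat_lit 2) (nat_lit 286) (nat_lit 2) (nat_lit 13) (.u (nat_lit 2) (.p (nat_lit 1) (nat_lit 2) (.n (nat_lit 2) (nat_lit 1) (.n (nat_lit 4) (nat_lit 7) (.n (nat_lit 5) (nat_lit 5) (.p (nat_lit 6) (nat_lit 3) (.p (nat_lit 7) (nat_lit 3) (.p (nat_lit 8) (nat_lit 4) (.p (nat_lit 9) (nat_lit 5) (.n (nat_lit 10) (nat_lit 2) (.n (nat_lit 12) (nat_lit 1) (.p (nat_lit 13) (nat_lit 1) (.n (nat_lit 15) (nat_lit 4) (.n (nat_lit 16) (nat_lit 4) (.n (nat_lit 17) (nat_lit 6) (.n (nat_lit 18) (nat_lit 3) (.n (nat_lit 19) (nat_lit 2) (.p (nat_lit 21) (nat_lit 1) (.n (nat_lit 22) (nat_lit 1) (.p (nat_lit 23) (nat_lit 1) (.n (nat_lit 24) (nat_lit 3) (.p (nat_lit 25) (nat_lit 1) (.p (nat_lit 26) (nat_lit 1) (.p (nat_lit 27) (nat_lit 2) (.p (nat_lit 30) (nat_lit 2) (.n (nat_lit 33) (nat_lit 1) (.p (nat_lit 69) (nat_lit 1) (.n (nat_lit 70) (nat_lit 1) (.p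 (nat_lit 71) (nat_lit 1) (.n (nat_lit 74) (nat_lit 1) (.p (nat_lit 75) (nat_lit 1) (.p (nat_lit 175) (nat_lit 1) (.n (nat_lit 176) (nat_lit 1) (.n (nat_lit 177) (nat_lit 1) (.n (nat_lit 178) (nat_lit 1) (.p (nat_lit 180) (nat_lit 1) (.n (nat_lit 182) (nat_lit 1) (.n (nat_lit 183) (nat_lit 1) (.p (nat_lit 185) (nat_lit 2) (.n (nat_lit 186) (nat_lit 1) (.p (nat_lit 190) (nat_lit 1) (.p (nat_lit 191) (nat_lit 1) (.n (nat_lit 193) (nat_lit 1) (.n (nat_lit 200) (nat_lit 1) (.p (nat_lit 201) (nat_lit 1) (.p (nat_lit 211) (nat_lit 1) (.n (nat_lit 212) (nat_lit 1) (.p (nat_lit 213) (nat_lit 1) (.n (nat_lit 215) (nat_lit 1) (.n (nat_lit 216) (nat_lit 1) (.p (nat_lit 223) (nat_lit 1) .z)))))))))))))))))))))))))))))))))))))))))))))))))) .nil)))))))))))))))))))))))))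

noncomputable def dC1b_i63 : IL := (.s true (nat_lit 2) (nat_lit 18) (nat_lit 0) (nat_lit 2) (nat_lit 10) true (nat_lit 2) true (nat_lit 6) true (nat_lit 3) true (nat_lit 15) true (nat_lit 13) (.s false (nat_lit 1) (nat_lit 18) (nat_lit 0) (nat_lit 2) (nat_lit 12) true (nat_lit 2) true (nat_lit 6) true (nat_lit 3) true (nat_lit 15) true (nat_lit 13) (.s false (nat_lit 2) (nat_lit 18) (nat_lit 2) (nat_lit 0) (nat_lit 11) true (nat_lit 0) true (nat_lit 6) true (nat_lit 3) true (nat_lit 13) true (nat_lit 15) (.e true (nat_lit 2) (nat_lit 46) (nat_lit 22) (nat_lit 2) (.e true (nat_lit 2) (nat_lit 100) (nat_lit 10) (nat_lit 6) (.e true (nat_lit 2) (nat_lit 56) (nat_lit 18) (nat_lit 3) (.e false (nat_lit 1) (nat_lit 58) (nat_lit 18) (nat_lit 3) (.e false (nat_lit 1) (nat_lit 62) (nat_lit 18) (nat_lit 3) (.e true (nat_lit 1) (nat_lit 328) (nat_lit 0) (nat_lit 15) (.e false (nat_lit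 3) (nat_lit 329) (nat_lit 0) (nat_lit 15) (.e true (nat_lit 3) (nat_lit 330) (nat_lit 0) (nat_lit 15) (.e false (nat_lit 2) (nat_lit 331) (nat_lit 0) (nat_lit 15) (.e false (nat_lit 3) (nat_lit 332) (nat_lit 0) (nat_lit 15) (.e false (nat_lit 1) (nat_lit 333) (nat_lit 0) (nat_lit 15) (.e true (nat_lit 2) (nat_lit 334) (nat_lit 0) (nat_lit 15) (.e true (nat_lit 2) (nat_lit 335) (nat_lit 0) (nat_lit 15) (.e false (nat_lit 2) (nat_lit 336) (nat_lit 0) (nat_lit 15) (.e false (nat_lit 2) (nat_lit 337) (nat_lit 0) (nat_lit 15) (.e true (nat_lit 3) (nat_lit 340) (nat_lit 0) (nat_lit 15) (.e true (nat_lit 2) (nat_lit 344) (nat_lit 0) (nat_lit 15) (.e false (nat_lit 2) (nat_lit 345) (nat_lit 0) (nat_lit 15) (.e false (nat_lit 2) (nat_lit 261) (nat_lit 2) (nat_lit 13) (.e true (nat_lit 2) (nat_lit 262) (nat_lit 2) (nat_lit 13) (.e true (nat_lit 1) (nat_lit 264) (nat_lit 2) (nat_lit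 13) (.e false (nat_lit 1) (nat_lit 267) (nat_lit 2) (nat_lit 13) dC1b_i62)))))))))))))))))))))))))

noncomputable def dC1b_i64 : IL := (.e false (nat_lit 2) (nat_lit 147) (nat_lit 1) (nat_lit 13) (.e false (nat_lit 2) (nat_lit 141) (nat_lit 1) (nat_lit 13) (.e true (nat_lit 2) (nat_lit 137) (nat_lit 1) (nat_lit 13) (.e true (nat_lit 1) (nat_lit 145) (nat_lit 1) (nat_lit 13) (.e false (nat_lit 3) (nat_lit 164) (nat_lit 0) (nat_lit 14) (.e false (nat_lit 2) (nat_lit 156) (nat_lit 0) (nat_lit 14) (.e false (nat_lit 2) (nat_lit 157) (nat_lit 0) (nat_lit 14) (.e false (nat_lit 2) (nat_lit 162) (nat_lit 0) (nat_lit 14) (.e true (nat_lit 2) (nat_lit 166) (nat_lit 0) (nat_lit 14) (.e true (nat_lit 3) (nat_lit 168) (nat_lit 0) (nat_lit 14) (.e true (nat_lit 2) (nat_lit 159) (nat_lit 0) (nat_lit 14) (.e false (nat_lit 3) (nat_lit 160) (nat_lit 0) (nat_lit 14) (.e false (nat_lit 2)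 (nat_lit 173) (nat_lit 0) (nat_lit 14) (.e false (nat_lit 1) (nat_lit 154) (nat_lit 0) (nat_lit 14) (.e false (nat_lit 1) (nat_lit 169) (nat_lit 0) (nat_lit 14) (.e true (nat_lit 3) (nat_lit 171) (nat_lit 0) (nat_lit 14) (.e false (nat_lit 3) (nat_lit 153) (nat_lit 0) (nat_lit 14) (.e false (nat_lit 3) (nat_lit 155) (nat_lit 0) (nat_lit 14) (.e true (nat_lit 1) (nat_lit 158) (nat_lit 0) (nat_lit 14) (.e true (nat_lit 1) (nat_lit 165) (nat_lit 0) (nat_lit 14) (.e false (nat_lit 1) (nat_lit 172) (nat_lit 0) (nat_lit 14) (.e true (nat_lit 3) (nat_lit 136) (nat_lit 1) (nat_lit 13) (.e true (nat_lit 3) (nat_lit 161) (nat_lit 0) (nat_lit 14) (.u (nat_lit 2) (.n (nat_lit 0) (nat_lit 2) (.n (nat_lit 1) (nat_lit 1) (.p (nat_lit 2) (nat_lit 2) (.p (nat_lit 5) (nat_lit 1) (.n (nat_lit 6) (nat_lit 1) (.p (nat_lit 7) (nat_lit 3) (.n (nat_lit 8) (nat_lit 3) (.p (nat_lit 9) (nat_lit 3)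 (.p (nat_lit 10) (nat_lit 3) (.p (nat_lit 11) (nat_lit 1) (.n (nat_lit 12) (nat_lit 2) (.p (nat_lit 14) (nat_lit 1) (.n (nat_lit 15) (nat_lit 1) (.n (nat_lit 17) (nat_lit 3) (.n (nat_lit 19) (nat_lit 2) (.n (nat_lit 20) (nat_lit 2) (.n (nat_lit 21) (nat_lit 1) (.p (nat_lit 22) (nat_lit 2) (.n (nat_lit 23) (nat_lit 2) (.n (nat_lit 24) (nat_lit 1) (.p (nat_lit 26) (nat_lit 2) (.n (nat_lit 27) (nat_lit 3) (.p (nat_lit 28) (nat_lit 1) (.p (nat_lit 29) (nat_lit 3) (.p (nat_lit 30) (nat_lit 1) (.n (nat_lit 31) (nat_lit 1) (.n (nat_lit 37) (nat_lit 1) (.p (nat_lit 113) (nat_lit 1) (.n (nat_lit 136) (nat_lit 1) (.n (nat_lit 137) (nat_lit 1) (.n (nat_lit 141) (nat_lit 1) (.n (nat_lit 144) (nat_lit 1) (.p (nat_lit 153) (nat_lit 1) (.n (nat_lit 154) (nat_lit 1) (.p (nat_lit 158) (nat_lit 2) (.n (nat_lit 161) (nat_lit 1) (.n (nat_lit 162) (nat_lit 2) (.n (nat_lit 163) (nat_lit 7) (.n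 (nat_lit 165) (nat_lit 3) (.p (nat_lit 166) (nat_lit 2) (.p (nat_lit 167) (nat_lit 8) (.n (nat_lit 168) (nat_lit 3) (.p (nat_lit 169) (nat_lit 2) (.p (nat_lit 170) (nat_lit 3) (.p (nat_lit 171) (nat_lit 3) (.p (nat_lit 173) (nat_lit 2) (.n (nat_lit 174) (nat_lit 1) (.n (nat_lit 177) (nat_lit 2) (.n (nat_lit 178) (nat_lit 1) (.n (nat_lit 179) (nat_lit 2) (.p (nat_lit 180) (nat_lit 4) (.p (nat_lit 181) (nat_lit 2) (.n (nat_lit 182) (nat_lit 4) (.n (nat_lit 183) (nat_lit 2) (.p (nat_lit 184) (nat_lit 4) (.n (nat_lit 185) (nat_lit 4) (.p (nat_lit 187) (nat_lit 1) (.p (nat_lit 188) (nat_lit 1) (.n (nat_lit 189) (nat_lit 1) (.n (nat_lit 190) (nat_lit 2) .z)))))))))))))))))))))))))))))))))))))))))))))))))))))))))))) (.u (nat_lit 2) (.n (nat_lit 192) (nat_lit 2) (.p (nat_lit 194) (nat_lit 1) (.p (nat_lit 195) (nat_lit 1) (.p (nat_lit 196) (nat_lit 3) (.p (nat_lit 199) (nat_lit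 2) (.n (nat_lit 200) (nat_lit 3) (.n (nat_lit 201) (nat_lit 1) (.p (nat_lit 202) (nat_lit 1) .z)))))))) .nil)))))))))))))))))))))))))

noncomputable def dC1b_i65 : IL := (.s true (nat_lit 3) (nat_lit 24) (nat_lit 0) (nat_lit 2) (nat_lit 2) true (nat_lit 10) true (nat_lit 12) false (nat_lit 2) true (nat_lit 14) true (nat_lit 12) (.s true (nat_lit 3) (nat_lit 41) (nat_lit 1) (nat_lit 0) (nat_lit 1) false (nat_lit 16) true (nat_lit 13) false (nat_lit 6) true (nat_lit 13) true (nat_lit 14) (.s true (nat_lit 3) (nat_lit 42) (nat_lit 1) (nat_lit 0) (nat_lit 1) false (nat_lit 16) true (nat_lit 13) false (nat_lit 6) true (nat_lit 13) true (nat_lit 14) (.s true (nat_lit 3) (nat_lit 43) (nat_lit 0) (nat_lit 0) (nat_lit 1) true (nat_lit 11) true (nat_lit 13) false (nat_lit 7) true (nat_lit 14) true (nat_lit 14) (.s false (nat_lit 2) (nat_lit 44) (nat_lit 0) (nat_lit 1) (nat_lit 0)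 false (nat_lit 15) true (nat_lit 14) false (nat_lit 7) true (nat_lit 14) true (nat_lit 13) (.s true (nat_lit 1) (nat_lit 45) (nat_lit 0) (nat_lit 1) (nat_lit 0) false (nat_lit 15) true (nat_lit 14) false (nat_lit 7) true (nat_lit 14) true (nat_lit 13) (.s true (nat_lit 3) (nat_lit 43) (nat_lit 1) (nat_lit 0) (nat_lit 0) true (nat_lit 11) true (nat_lit 14) false (nat_lit 7) true (nat_lit 13) true (nat_lit 14) (.e true (nat_lit 3) (nat_lit 129) (nat_lit 2) (nat_lit 12) (.e false (nat_lit 2) (nat_lit 142) (nat_lit 1) (nat_lit 13) (.e true (nat_lit 2) (nat_lit 149) (nat_lit 1) (nat_lit 13) (.e true (nat_lit 2) (nat_lit 112) (nat_lit 2) (nat_lit 12) (.e false (nat_lit 3) (nat_lit 114) (nat_lit 2) (nat_lit 12) (.e false (nat_lit 1) (nat_lit 107) (nat_lit 2) (nat_lit 12) (.e true (nat_lit 1) (nat_lit 124) (nat_lit 2) (nat_lit 12) (.e false (nat_lit 1) (nat_lit 125) (nat_lit 2)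 (nat_lit 12) (.e true (nat_lit 3) (nat_lit 132) (nat_lit 1) (nat_lit 13) (.e true (nat_lit 3) (nat_lit 170) (nat_lit 0) (nat_lit 14) (.e true (nat_lit 3) (nat_lit 133) (nat_lit 1) (nat_lit 13) (.e false (nat_lit 3) (nat_lit 134) (nat_lit 1) (nat_lit 13) (.e false (nat_lit 2) (nat_lit 135) (nat_lit 1) (nat_lit 13) (.e true (nat_lit 3) (nat_lit 138) (nat_lit 1) (nat_lit 13) (.e false (nat_lit 2) (nat_lit 139) (nat_lit 1) (nat_lit 13) (.e true (nat_lit 3) (nat_lit 143) (nat_lit 1) (nat_lit 13) (.e true (nat_lit 1) (nat_lit 144) (nat_lit 1) (nat_lit 13) (.e false (nat_lit 1) (nat_lit 140) (nat_lit 1) (nat_lit 13) dC1b_i64)))))))))))))))))))))))))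

noncomputable def dC1b_i66 : IL := (.e true (nat_lit 3) (nat_lit 226) (nat_lit 2) (nat_lit 17) (.e false (nat_lit 2) (nat_lit 227) (nat_lit 2) (nat_lit 17) (.e false (nat_lit 2) (nat_lit 228) (nat_lit 2) (nat_lit 17) (.e false (nat_lit 1) (nat_lit 229) (nat_lit 2) (nat_lit 17) (.e true (nat_lit 2) (nat_lit 230) (nat_lit 2) (nat_lit 17) (.e true (nat_lit 1) (nat_lit 231) (nat_lit 2) (nat_lit 17) (.e true (nat_lit 2) (nat_lit 232) (nat_lit 2) (nat_lit 17) (.e true (nat_lit 2) (nat_lit 233) (nat_lit 2) (nat_lit 17) (.e true (nat_lit 2) (nat_lit 234) (nat_lit 2) (nat_lit 17) (.e true (nat_lit 2) (nat_lit 235) (nat_lit 2) (nat_lit 17) (.e true (nat_lit 2) (nat_lit 236) (nat_lit 2) (nat_lit 17) (.e true (nat_lit 1) (nat_lit 237) (nat_lit 2) (nat_lit 17) (.e false (nat_lit 2) (nat_lit 238) (nat_lit 2) (nat_lit 17) (.e true (nat_lit 1) (nat_lit 239) (nat_lit 2) (nat_lit 17) (.e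 true (nat_lit 1) (nat_lit 240) (nat_lit 2) (nat_lit 17) (.e false (nat_lit 3) (nat_lit 241) (nat_lit 2) (nat_lit 17) (.e true (nat_lit 2) (nat_lit 243) (nat_lit 2) (nat_lit 17) (.e false (nat_lit 2) (nat_lit 244) (nat_lit 2) (nat_lit 17) (.e true (nat_lit 3) (nat_lit 246) (nat_lit 2) (nat_lit 17) (.e false (nat_lit 3) (nat_lit 247) (nat_lit 2) (nat_lit 17) (.e false (nat_lit 2) (nat_lit 248) (nat_lit 2) (nat_lit 17) (.e false (nat_lit 2) (nat_lit 249) (nat_lit 2) (nat_lit 17) (.e true (nat_lit 2) (nat_lit 250) (nat_lit 2) (nat_lit 17) (.e false (nat_lit 1) (nat_lit 270) (nat_lit 1) (nat_lit 18) (.u (nat_lit 2) (.p (nat_lit 0) (nat_lit 1) (.n (nat_lit 1) (nat_lit 1) (.n (nat_lit 2) (nat_lit 2) (.p (nat_lit 3) (nat_lit 2) (.p (nat_lit 4) (nat_lit 4) (.n (nat_lit 5) (nat_lit 1) (.n (nat_lit 6) (nat_lit 3) (.n (nat_lit 8) (nat_lit 2) (.p (nat_lit 9) (nat_lit 1) (.n (nat_lit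 12) (nat_lit 2) (.n (nat_lit 13) (nat_lit 2) (.p (nat_lit 14) (nat_lit 6) (.n (nat_lit 17) (nat_lit 1) (.p (nat_lit 19) (nat_lit 1) (.n (nat_lit 20) (nat_lit 1) (.n (nat_lit 21) (nat_lit 1) (.p (nat_lit 23) (nat_lit 1) (.p (nat_lit 24) (nat_lit 1) (.p (nat_lit 25) (nat_lit 1) (.n (nat_lit 26) (nat_lit 2) (.n (nat_lit 27) (nat_lit 2) (.n (nat_lit 28) (nat_lit 3) (.p (nat_lit 29) (nat_lit 1) (.p (nat_lit 30) (nat_lit 1) (.p (nat_lit 32) (nat_lit 3) (.p (nat_lit 33) (nat_lit 2) (.n (nat_lit 34) (nat_lit 1) (.n (nat_lit 35) (nat_lit 1) (.n (nat_lit 37) (nat_lit 3) (.n (nat_lit 39) (nat_lit 3) (.p (nat_lit 40) (nat_lit 3) (.n (nat_lit 45) (nat_lit 1) (.p (nat_lit 46) (nat_lit 1) (.n (nat_lit 48) (nat_lit 1) (.p (nat_lit 49) (nat_lit 1) (.n (nat_lit 50) (nat_lit 1) (.p (nat_lit 51) (nat_lit 1) (.n (nat_lit 53) (nat_lit 4) (.n (nat_lit 55) (nat_lit 1) (.n (nat_lit 56) (nat_lit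 1) (.n (nat_lit 57) (nat_lit 2) (.p (nat_lit 58) (nat_lit 2) (.n (nat_lit 60) (nat_lit 1) (.n (nat_lit 61) (nat_lit 1) (.p (nat_lit 62) (nat_lit 1) (.p (nat_lit 63) (nat_lit 1) (.n (nat_lit 64) (nat_lit 1) (.n (nat_lit 65) (nat_lit 1) (.p (nat_lit 66) (nat_lit 1) (.p (nat_lit 67) (nat_lit 1) (.p (nat_lit 69) (nat_lit 2) (.n (nat_lit 70) (nat_lit 2) .z)))))))))))))))))))))))))))))))))))))))))))))))))))) .nil)))))))))))))))))))))))))

noncomputable def dC1b_i67 : IL := (.e false (nat_lit 3) (nat_lit 226) (nat_lit 2) (nat_lit 17) (.e true (nat_lit 2) (nat_lit 227) (nat_lit 2) (nat_lit 17) (.e true (nat_lit 1) (nat_lit 228) (nat_lit 2) (nat_lit 17) (.e true (nat_lit 1) (nat_lit 229) (nat_lit 2) (nat_lit 17) (.e false (nat_lit 2) (nat_lit 230) (nat_lit 2) (nat_lit 17) (.e false (nat_lit 3) (nat_lit 231) (nat_lit 2) (nat_lit 17) (.e false (nat_lit 3) (nat_lit 232) (nat_lit 2)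 (nat_lit 17) (.e false (nat_lit 2) (nat_lit 233) (nat_lit 2) (nat_lit 17) (.e true (nat_lit 1) (nat_lit 234) (nat_lit 2) (nat_lit 17) (.e true (nat_lit 1) (nat_lit 235) (nat_lit 2) (nat_lit 17) (.e false (nat_lit 1) (nat_lit 236) (nat_lit 2) (nat_lit 17) (.e true (nat_lit 2) (nat_lit 237) (nat_lit 2) (nat_lit 17) (.e false (nat_lit 1) (nat_lit 239) (nat_lit 2) (nat_lit 17) (.e true (nat_lit 1) (nat_lit 240) (nat_lit 2) (nat_lit 17) (.e false (nat_lit 3) (nat_lit 241) (nat_lit 2) (nat_lit 17) (.e true (nat_lit 1) (nat_lit 242) (nat_lit 2) (nat_lit 17) (.e true (nat_lit 2) (nat_lit 243) (nat_lit 2) (nat_lit 17) (.e true (nat_lit 1) (nat_lit 244) (nat_lit 2) (nat_lit 17) (.e false (nat_lit 2) (nat_lit 245) (nat_lit 2) (nat_lit 17) (.e true (nat_lit 2) (nat_lit 246) (nat_lit 2) (nat_lit 17) (.e true (nat_lit 2) (nat_lit 248) (nat_lit 2) (nat_lit 17) (.e false (nat_lit 1) (nat_lit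 249) (nat_lit 2) (nat_lit 17) (.e true (nat_lit 1) (nat_lit 253) (nat_lit 2) (nat_lit 17) (.e false (nat_lit 1) (nat_lit 290) (nat_lit 0) (nat_lit 19) (.u (nat_lit 2) (.p (nat_lit 0) (nat_lit 5) (.p (nat_lit 1) (nat_lit 2) (.n (nat_lit 3) (nat_lit 2) (.p (nat_lit 5) (nat_lit 4) (.n (nat_lit 6) (nat_lit 1) (.n (nat_lit 8) (nat_lit 3) (.p (nat_lit 9) (nat_lit 2) (.n (nat_lit 10) (nat_lit 4) (.p (nat_lit 11) (nat_lit 2) (.n (nat_lit 13) (nat_lit 2) (.n (nat_lit 14) (nat_lit 2) (.p (nat_lit 15) (nat_lit 3) (.p (nat_lit 17) (nat_lit 3) (.n (nat_lit 18) (nat_lit 1) (.n (nat_lit 19) (nat_lit 2) (.n (nat_lit 20) (nat_lit 1) (.n (nat_lit 24) (nat_lit 1) (.n (nat_lit 25) (nat_lit 1) (.n (nat_lit 26) (nat_lit 3) (.p (nat_lit 27) (nat_lit 2) (.p (nat_lit 28) (nat_lit 3) (.p (nat_lit 30) (nat_lit 3) (.n (nat_lit 31) (nat_lit 6) (.n (nat_lit 32) (nat_lit 2) (.n (nat_lit 33) (nat_lit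 3) (.p (nat_lit 34) (nat_lit 5) (.p (nat_lit 35) (nat_lit 4) (.n (nat_lit 37) (nat_lit 2) (.n (nat_lit 39) (nat_lit 1) (.p (nat_lit 40) (nat_lit 3) (.n (nat_lit 41) (nat_lit 1) (.p (nat_lit 45) (nat_lit 1) (.p (nat_lit 49) (nat_lit 3) (.p (nat_lit 50) (nat_lit 2) (.n (nat_lit 51) (nat_lit 1) (.n (nat_lit 52) (nat_lit 1) (.p (nat_lit 53) (nat_lit 1) (.p (nat_lit 54) (nat_lit 2) (.n (nat_lit 55) (nat_lit 3) (.p (nat_lit 56) (nat_lit 2) (.n (nat_lit 57) (nat_lit 3) (.p (nat_lit 58) (nat_lit 2) (.p (nat_lit 60) (nat_lit 1) (.p (nat_lit 63) (nat_lit 1) (.n (nat_lit 64) (nat_lit 1) (.p (nat_lit 69) (nat_lit 2) (.n (nat_lit 70) (nat_lit 1) .z))))))))))))))))))))))))))))))))))))))))))))))) .nil)))))))))))))))))))))))))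

noncomputable def dC1b_i68 : IL := (.e true (nat_lit 3) (nat_lit 224) (nat_lit 2) (nat_lit 17) (.e true (nat_lit 3) (nat_lit 226) (nat_lit 2) (nat_lit 17) (.e true (nat_lit 2) (nat_lit 227) (nat_lit 2) (nat_lit 17) (.e true (nat_lit 1) (nat_lit 229) (nat_lit 2) (nat_lit 17) (.e true (nat_lit 3) (nat_lit 232) (nat_lit 2) (nat_lit 17) (.e true (nat_lit 2) (nat_lit 233) (nat_lit 2) (nat_lit 17) (.e false (nat_lit 3) (nat_lit 235) (nat_lit 2) (nat_lit 17) (.e false (nat_lit 2) (nat_lit 236) (nat_lit 2) (nat_lit 17) (.e false (nat_lit 1) (nat_lit 239) (nat_lit 2) (nat_lit 17) (.e true (nat_lit 1) (nat_lit 240) (nat_lit 2) (nat_lit 17) (.e true (nat_lit 1) (nat_lit 243) (nat_lit 2) (nat_lit 17) (.e true (nat_lit 2) (nat_lit 244) (nat_lit 2) (nat_lit 17) (.e true (nat_lit 1) (nat_lit 248) (nat_lit 2) (nat_lit 17) (.e true (nat_lit 1) (nat_lit 216) (nat_lit 2) (nat_lit 17) (.e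 true (nat_lit 1) (nat_lit 217) (nat_lit 2) (nat_lit 17) (.e false (nat_lit 1) (nat_lit 225) (nat_lit 2) (nat_lit 17) (.e false (nat_lit 3) (nat_lit 228) (nat_lit 2) (nat_lit 17) (.e true (nat_lit 1) (nat_lit 234) (nat_lit 2) (nat_lit 17) (.e false (nat_lit 2) (nat_lit 237) (nat_lit 2) (nat_lit 17) (.e false (nat_lit 1) (nat_lit 238) (nat_lit 2) (nat_lit 17) (.e true (nat_lit 1) (nat_lit 246) (nat_lit 2) (nat_lit 17) (.e true (nat_lit 2) (nat_lit 253) (nat_lit 2) (nat_lit 17) (.e false (nat_lit 2) (nat_lit 99) (nat_lit 8) (nat_lit 11) (.e false (nat_lit 2) (nat_lit 100) (nat_lit 8) (nat_lit 11) (.u (nat_lit 2) (.p (nat_lit 0) (nat_lit 1) (.n (nat_lit 2) (nat_lit 2) (.n (nat_lit 3) (nat_lit 2) (.p (nat_lit 4) (nat_lit 2) (.n (nat_lit 5) (nat_lit 1) (.n (nat_lit 6) (nat_lit 1) (.p (nat_lit 8) (nat_lit 2) (.n (nat_lit 9) (nat_lit 2) (.p (nat_lit 10) (nat_lit 1) (.n (nat_lit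 11) (nat_lit 3) (.p (nat_lit 14) (nat_lit 3) (.n (nat_lit 15) (nat_lit 1) (.p (nat_lit 17) (nat_lit 1) (.p (nat_lit 18) (nat_lit 2) (.n (nat_lit 20) (nat_lit 2) (.n (nat_lit 24) (nat_lit 1) (.n (nat_lit 25) (nat_lit 1) (.p (nat_lit 26) (nat_lit 1) (.p (nat_lit 27) (nat_lit 1) (.p (nat_lit 29) (nat_lit 1) (.n (nat_lit 31) (nat_lit 2) (.n (nat_lit 32) (nat_lit 4) (.n (nat_lit 33) (nat_lit 5) (.p (nat_lit 34) (nat_lit 1) (.n (nat_lit 35) (nat_lit 1) (.p (nat_lit 36) (nat_lit 4) (.p (nat_lit 37) (nat_lit 2) (.n (nat_lit 39) (nat_lit 1) (.p (nat_lit 40) (nat_lit 1) (.n (nat_lit 41) (nat_lit 2) (.p (nat_lit 45) (nat_lit 1) (.n (nat_lit 46) (nat_lit 1) (.p (nat_lit 49) (nat_lit 1) (.p (nat_lit 50) (nat_lit 2) (.n (nat_lit 51) (nat_lit 1) (.n (nat_lit 53) (nat_lit 1) (.p (nat_lit 54) (nat_lit 2) (.n (nat_lit 56) (nat_lit 1) (.n (nat_lit 57) (nat_lit 1) (.p (nat_lit 59) (nat_lit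 1) (.n (nat_lit 62) (nat_lit 1) (.p (nat_lit 63) (nat_lit 1) (.p (nat_lit 67) (nat_lit 1) (.p (nat_lit 69) (nat_lit 2) (.n (nat_lit 328) (nat_lit 1) (.p (nat_lit 329) (nat_lit 1) (.n (nat_lit 330) (nat_lit 1) (.p (nat_lit 336) (nat_lit 1) (.p (nat_lit 337) (nat_lit 1) (.n (nat_lit 340) (nat_lit 1) (.n (nat_lit 343) (nat_lit 1) (.n (nat_lit 344) (nat_lit 1) (.n (nat_lit 350) (nat_lit 1) (.n (nat_lit 351) (nat_lit 1) (.n (nat_lit 352) (nat_lit 1) (.n (nat_lit 354) (nat_lit 1) (.p (nat_lit 357) (nat_lit 1) (.n (nat_lit 359) (nat_lit 1) (.p (nat_lit 361) (nat_lit 1) (.p (nat_lit 363) (nat_lit 1) .z)))))))))))))))))))))))))))))))))))))))))))))))))))))))))))) .nil)))))))))))))))))))))))))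

noncomputable def dC1b_i69 : IL := (.e true (nat_lit 1) (nat_lit 56) (nat_lit 1) (nat_lit 9) (.e true (nat_lit 2) (nat_lit 57) (nat_lit 1) (nat_lit 9) (.e true (nat_lit 3) (nat_lit 58) (nat_lit 1) (nat_lit 9) (.e false (nat_lit 1) (nat_lit 61) (nat_lit 1) (nat_lit 9) (.e false (nat_lit 1) (nat_lit 62) (nat_lit 1) (nat_lit 9) (.e false (nat_lit 2) (nat_lit 64) (nat_lit 1) (nat_lit 9) (.e true (nat_lit 3) (nat_lit 65) (nat_lit 1) (nat_lit 9) (.e false (nat_lit 3) (nat_lit 34) (nat_lit 3) (nat_lit 7) (.e false (nat_lit 1) (nat_lit 31) (nat_lit 3) (nat_lit 7) (.e true (nat_lit 3) (nat_lit 32) (nat_lit 3) (nat_lit 7) (.e false (nat_lit 3) (nat_lit 35) (nat_lit 3) (nat_lit 7) (.e true (nat_lit 3) (nat_lit 36) (nat_lit 3) (nat_lit 7) (.e true (nat_lit 3) (nat_lit 72) (nat_lit 0) (nat_lit 10) (.e false (nat_lit 3) (nat_lit 76) (nat_lit 0) (nat_lit 10) (.e true (nat_lit 3) (nat_lit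 20) (nat_lit 5) (nat_lit 5) (.e false (nat_lit 2) (nat_lit 59) (nat_lit 1) (nat_lit 9) (.e false (nat_lit 2) (nat_lit 60) (nat_lit 1) (nat_lit 9) (.e false (nat_lit 1) (nat_lit 63) (nat_lit 1) (nat_lit 9) (.e false (nat_lit 3) (nat_lit 27) (nat_lit 4) (nat_lit 6) (.e true (nat_lit 1) (nat_lit 47) (nat_lit 2) (nat_lit 8) (.e false (nat_lit 3) (nat_lit 49) (nat_lit 2) (nat_lit 8) (.e false (nat_lit 1) (nat_lit 52) (nat_lit 2) (nat_lit 8) (.e true (nat_lit 3) (nat_lit 53) (nat_lit 2) (nat_lit 8) (.e false (nat_lit 3) (nat_lit 75) (nat_lit 0) (nat_lit 10) (.u (nat_lit 2) (.p (nat_lit 0) (nat_lit 1) (.p (nat_lit 1) (nat_lit 1) (.p (nat_lit 2) (nat_lit 1) (.p (nat_lit 5) (nat_lit 2) (.n (nat_lit 7) (nat_lit 2) (.n (nat_lit 10) (nat_lit 1) (.p (nat_lit 12) (nat_lit 2) (.p (nat_lit 13) (nat_lit 1) (.n (nat_lit 14) (nat_lit 1) (.p (nat_lit 16) (nat_lit 2) (.p (nat_lit 18) (nat_lit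 1) (.p (nat_lit 20) (nat_lit 1) (.n (nat_lit 22) (nat_lit 1) (.n (nat_lit 48) (nat_lit 1) (.p (nat_lit 54) (nat_lit 1) (.n (nat_lit 57) (nat_lit 1) (.n (nat_lit 59) (nat_lit 1) (.p (nat_lit 61) (nat_lit 1) (.p (nat_lit 63) (nat_lit 1) (.n (nat_lit 64) (nat_lit 1) (.n (nat_lit 66) (nat_lit 2) (.n (nat_lit 67) (nat_lit 2) (.n (nat_lit 68) (nat_lit 1) (.n (nat_lit 69) (nat_lit 1) (.n (nat_lit 70) (nat_lit 1) (.p (nat_lit 71) (nat_lit 1) (.p (nat_lit 74) (nat_lit 1) .z))))))))))))))))))))))))))) .nil)))))))))))))))))))))))))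

noncomputable def dC1b_i70 : IL := (.s true (nat_lit 1) (nat_lit 10) (nat_lit 1) (nat_lit 2) (nat_lit 4) true (nat_lit 4) true (nat_lit 10) true (nat_lit 4) true (nat_lit 13) true (nat_lit 12) (.e true (nat_lit 1) (nat_lit 31) (nat_lit 11) (nat_lit 4) (.e true (nat_lit 1) (nat_lit 31) (nat_lit 10) (nat_lit 4) (.e true (nat_lit 1) (nat_lit 32) (nat_lit 10) (nat_lit 4) (.e false (nat_lit 1) (nat_lit 35) (nat_lit 10) (nat_lit 4) (.e true (nat_lit 1) (nat_lit 36) (nat_lit 10) (nat_lit 4) (.e false (nat_lit 1) (nat_lit 132) (nat_lit 1) (nat_lit 13) (.e true (nat_lit 1) (nat_lit 133) (nat_lit 1) (nat_lit 13) (.e false (nat_lit 3) (nat_lit 134) (nat_lit 1) (nat_lit 13) (.e false (nat_lit 1) (nat_lit 135) (nat_lit 1) (nat_lit 13) (.e true (nat_lit 1) (nat_lit 138) (nat_lit 1) (nat_lit 13) (.e false (nat_lit 2) (nat_lit 139) (nat_lit 1) (nat_lit 13) (.e false (nat_lit 1) (nat_lit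 141) (nat_lit 1) (nat_lit 13) (.e true (nat_lit 2) (nat_lit 142) (nat_lit 1) (nat_lit 13) (.e false (nat_lit 1) (nat_lit 147) (nat_lit 1) (nat_lit 13) (.e true (nat_lit 1) (nat_lit 151) (nat_lit 1) (nat_lit 13) (.e false (nat_lit 1) (nat_lit 115) (nat_lit 2) (nat_lit 12) (.e true (nat_lit 1) (nat_lit 116) (nat_lit 2) (nat_lit 12) (.e false (nat_lit 3) (nat_lit 117) (nat_lit 2) (nat_lit 12) (.e false (nat_lit 1) (nat_lit 118) (nat_lit 2) (nat_lit 12) (.e true (nat_lit 1) (nat_lit 121) (nat_lit 2) (nat_lit 12) (.e false (nat_lit 1) (nat_lit 122) (nat_lit 2) (nat_lit 12) (.e false (nat_lit 1) (nat_lit 123) (nat_lit 2) (nat_lit 12) (.e true (nat_lit 2) (nat_lit 124) (nat_lit 2) (nat_lit 12) (.u (nat_lit 2) (.p (nat_lit 0) (nat_lit 1) (.p (nat_lit 1) (nat_lit 1) (.n (nat_lit 3) (nat_lit 1) (.p (nat_lit 4) (nat_lit 1) (.p (nat_lit 6) (nat_lit 1) (.p (nat_lit 7) (nat_lit 1) (.p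 (nat_lit 8) (nat_lit 1) (.n (nat_lit 9) (nat_lit 2) (.p (nat_lit 10) (nat_lit 2) (.n (nat_lit 12) (nat_lit 1) (.p (nat_lit 14) (nat_lit 1) (.n (nat_lit 15) (nat_lit 1) (.n (nat_lit 16) (nat_lit 1) (.n (nat_lit 17) (nat_lit 1) (.n (nat_lit 19) (nat_lit 1) (.p (nat_lit 20) (nat_lit 1) (.n (nat_lit 21) (nat_lit 1) (.p (nat_lit 24) (nat_lit 1) (.n (nat_lit 25) (nat_lit 1) (.n (nat_lit 27) (nat_lit 1) (.p (nat_lit 28) (nat_lit 3) (.p (nat_lit 32) (nat_lit 2) (.p (nat_lit 33) (nat_lit 2) (.p (nat_lit 34) (nat_lit 2) (.n (nat_lit 35) (nat_lit 2) (.n (nat_lit 36) (nat_lit 1) (.n (nat_lit 39) (nat_lit 1) (.p (nat_lit 46) (nat_lit 1) .z)))))))))))))))))))))))))))) .nil)))))))))))))))))))))))))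

noncomputable def dC1b_i71 : IL := (.e false (nat_lit 2) (nat_lit 155) (nat_lit 2) (nat_lit 10) (.e true (nat_lit 3) (nat_lit 157) (nat_lit 2) (nat_lit 10) (.e true (nat_lit 3) (nat_lit 162) (nat_lit 2) (nat_lit 10) (.e false (nat_lit 2) (nat_lit 167) (nat_lit 2) (nat_lit 10) (.e true (nat_lit 2) (nat_lit 170) (nat_lit 2) (nat_lit 10) (.e true (nat_lit 1) (nat_lit 172) (nat_lit 2) (nat_lit 10) (.e true (nat_lit 2) (nat_lit 173) (nat_lit 2) (nat_lit 10) (.e false (nat_lit 3) (nat_lit 158) (nat_lit 2) (nat_lit 10) (.e false (nat_lit 1) (nat_lit 159) (nat_lit 2) (nat_lit 10) (.e true (nat_lit 1) (nat_lit 160) (nat_lit 2) (nat_lit 10) (.e true (nat_lit 1) (nat_lit 161) (nat_lit 2) (nat_lit 10) (.e false (nat_lit 3) (nat_lit 164) (nat_lit 2) (nat_lit 10) (.e false (nat_lit 3) (nat_lit 165) (nat_lit 2) (nat_lit 10) (.e true (nat_lit 3) (nat_lit 171) (nat_lit 2) (nat_lit 10)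 (.e false (nat_lit 2) (nat_lit 163) (nat_lit 2) (nat_lit 10) (.e false (nat_lit 2) (nat_lit 168) (nat_lit 2) (nat_lit 10) (.e true (nat_lit 1) (nat_lit 26) (nat_lit 18) (nat_lit 0) (.e false (nat_lit 3) (nat_lit 192) (nat_lit 1) (nat_lit 11) (.e false (nat_lit 3) (nat_lit 82) (nat_lit 5) (nat_lit 7) (.e true (nat_lit 2) (nat_lit 31) (nat_lit 17) (nat_lit 1) (.e true (nat_lit 3) (nat_lit 45) (nat_lit 10) (nat_lit 4) (.e true (nat_lit 3) (nat_lit 24) (nat_lit 18) (nat_lit 0) (.e true (nat_lit 2) (nat_lit 105) (nat_lit 3) (nat_lit 9) (.e true (nat_lit 2) (nat_lit 46) (nat_lit 8) (nat_lit 5) (.u (nat_lit 2) (.n (nat_lit 0) (nat_lit 1) (.p (nat_lit 4) (nat_lit 4) (.p (nat_lit 8) (nat_lit 1) (.n (nat_lit 9) (nat_lit 3) (.n (nat_lit 11) (nat_lit 1) (.n (nat_lit 12) (nat_lit 1) (.n (nat_lit 15) (nat_lit 1) (.p (nat_lit 17) (nat_lit 1) (.p (nat_lit 18) (nat_lit 1) (.n (nat_lit 20)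 (nat_lit 1) (.n (nat_lit 22) (nat_lit 1) (.n (nat_lit 26) (nat_lit 1) (.p (nat_lit 27) (nat_lit 2) (.p (nat_lit 29) (nat_lit 1) (.n (nat_lit 44) (nat_lit 1) (.n (nat_lit 65) (nat_lit 1) (.n (nat_lit 66) (nat_lit 1) (.n (nat_lit 68) (nat_lit 1) (.n (nat_lit 69) (nat_lit 1) (.p (nat_lit 73) (nat_lit 1) (.n (nat_lit 76) (nat_lit 1) (.n (nat_lit 77) (nat_lit 1) (.n (nat_lit 79) (nat_lit 1) (.p (nat_lit 80) (nat_lit 1) (.n (nat_lit 81) (nat_lit 1) (.p (nat_lit 87) (nat_lit 1) (.p (nat_lit 88) (nat_lit 1) (.n (nat_lit 91) (nat_lit 1) (.n (nat_lit 93) (nat_lit 1) (.n (nat_lit 94) (nat_lit 1) (.p (nat_lit 95) (nat_lit 1) (.n (nat_lit 98) (nat_lit 4) (.p (nat_lit 99) (nat_lit 5) (.n (nat_lit 100) (nat_lit 2) (.p (nat_lit 101) (nat_lit 1) (.n (nat_lit 102) (nat_lit 4) (.p (nat_lit 103) (nat_lit 5) (.p (nat_lit 104) (nat_lit 5) (.n (nat_lit 105) (nat_lit 3) (.n (nat_lit 106) (nat_lit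 3) (.n (nat_lit 111) (nat_lit 3) (.p (nat_lit 113) (nat_lit 1) (.n (nat_lit 114) (nat_lit 1) (.n (nat_lit 115) (nat_lit 2) (.p (nat_lit 116) (nat_lit 3) (.p (nat_lit 117) (nat_lit 5) (.p (nat_lit 118) (nat_lit 6) (.p (nat_lit 120) (nat_lit 1) (.p (nat_lit 121) (nat_lit 3) (.p (nat_lit 122) (nat_lit 8) (.p (nat_lit 123) (nat_lit 1) (.p (nat_lit 124) (nat_lit 1) (.p (nat_lit 125) (nat_lit 2) (.n (nat_lit 126) (nat_lit 2) (.n (nat_lit 127) (nat_lit 3) (.n (nat_lit 129) (nat_lit 2) .z)))))))))))))))))))))))))))))))))))))))))))))))))))))))) .nil)))))))))))))))))))))))))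

noncomputable def dC1b_i72 : IL := (.s false (nat_lit 3) (nat_lit 33) (nat_lit 1) (nat_lit 2) (nat_lit 2) true (nat_lit 7) true (nat_lit 10) false (nat_lit 1) true (nat_lit 11) true (nat_lit 10) (.s true (nat_lit 2) (nat_lit 34) (nat_lit 1) (nat_lit 2) (nat_lit 2) true (nat_lit 7) true (nat_lit 10) false (nat_lit 1) true (nat_lit 11) true (nat_lit 10) (.s true (nat_lit 3) (nat_lit 36) (nat_lit 1) (nat_lit 2) (nat_lit 2) true (nat_lit 7) true (nat_lit 10) false (nat_lit 1) true (nat_lit 11) true (nat_lit 10) (.s true (nat_lit 1) (nat_lit 32) (nat_lit 2) (nat_lit 1) (nat_lit 2) true (nat_lit 6) true (nat_lit 10) false (nat_lit 1) true (nat_lit 10) true (nat_lit 11) (.s true (nat_lit 2) (nat_lit 34) (nat_lit 2) (nat_lit 1) (nat_lit 2) true (nat_lit 6) true (nat_lit 10) false (nat_lit 1) true (nat_lit 10) true (nat_lit 11) (.s true (nat_lit 3) (nat_lit 36) (nat_lit 2) (nat_lit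 1) (nat_lit 2) true (nat_lit 6) true (nat_lit 10) false (nat_lit 1) true (nat_lit 10) true (nat_lit 11) (.s false (nat_lit 2) (nat_lit 32) (nat_lit 2) (nat_lit 2) (nat_lit 1) true (nat_lit 7) true (nat_lit 11) false (nat_lit 1) true (nat_lit 10) true (nat_lit 10) (.s true (nat_lit 1) (nat_lit 34) (nat_lit 2) (nat_lit 2) (nat_lit 1) true (nat_lit 7) true (nat_lit 11) false (nat_lit 1) true (nat_lit 10) true (nat_lit 10) (.s false (nat_lit 3) (nat_lit 35) (nat_lit 2) (nat_lit 2) (nat_lit 1) true (nat_lit 7) true (nat_lit 11) false (nat_lit 1) true (nat_lit 10) true (nat_lit 10) (.s true (nat_lit 2) (nat_lit 39) (nat_lit 2) (nat_lit 0) (nat_lit 2) true (nat_lit 6) true (nat_lit 10) false (nat_lit 2) true (nat_lit 10) true (nat_lit 12) (.s false (nat_lit 2) (nat_lit 39) (nat_lit 2) (nat_lit 2) (nat_lit 0) true (nat_lit 8) true (nat_lit 12) false (nat_lit 2) true (nat_lit 10)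 true (nat_lit 10) (.s true (nat_lit 2) (nat_lit 46) (nat_lit 0) (nat_lit 1) (nat_lit 1) true (nat_lit 9) true (nat_lit 11) false (nat_lit 5) true (nat_lit 12) true (nat_lit 11) (.e true (nat_lit 2) (nat_lit 180) (nat_lit 1) (nat_lit 11) (.e true (nat_lit 3) (nat_lit 181) (nat_lit 1) (nat_lit 11) (.e false (nat_lit 1) (nat_lit 184) (nat_lit 1) (nat_lit 11) (.e true (nat_lit 1) (nat_lit 190) (nat_lit 1) (nat_lit 11) (.e true (nat_lit 2) (nat_lit 186) (nat_lit 1) (nat_lit 11) (.e true (nat_lit 2) (nat_lit 187) (nat_lit 1) (nat_lit 11) (.e true (nat_lit 3) (nat_lit 66) (nat_lit 6) (nat_lit 6) (.e false (nat_lit 3) (nat_lit 68) (nat_lit 6) (nat_lit 6) (.e true (nat_lit 2) (nat_lit 70) (nat_lit 6) (nat_lit 6) (.e true (nat_lit 3) (nat_lit 75) (nat_lit 6) (nat_lit 6) (.e false (nat_lit 2) (nat_lit 188) (nat_lit 1) (nat_lit 11) (.e true (nat_lit 1) (nat_lit 67) (nat_lit 6) (nat_lit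 6) (.e true (nat_lit 2) (nat_lit 154) (nat_lit 2) (nat_lit 10) dC1b_i71)))))))))))))))))))))))))

noncomputable def dC1b_i73 : IL := (.e true (nat_lit 1) (nat_lit 232) (nat_lit 2) (nat_lit 17) (.e true (nat_lit 3) (nat_lit 233) (nat_lit 2) (nat_lit 17) (.e true (nat_lit 2) (nat_lit 234) (nat_lit 2) (nat_lit 17) (.e false (nat_lit 1) (nat_lit 236) (nat_lit 2) (nat_lit 17) (.e false (nat_lit 2) (nat_lit 237) (nat_lit 2) (nat_lit 17) (.e true (nat_lit 3) (nat_lit 238) (nat_lit 2) (nat_lit 17) (.e true (nat_lit 2) (nat_lit 239) (nat_lit 2) (nat_lit 17) (.e false (nat_lit 1) (nat_lit 240) (nat_lit 2) (nat_lit 17) (.e true (nat_lit 1) (nat_lit 242) (nat_lit 2) (nat_lit 17) (.e false (nat_lit 3) (nat_lit 243) (nat_lit 2) (nat_lit 17) (.e false (nat_lit 2) (nat_lit 244) (nat_lit 2) (nat_lit 17) (.e true (nat_lit 1) (nat_lit 245) (nat_lit 2) (nat_lit 17) (.e false (nat_lit 2) (nat_lit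 246) (nat_lit 2) (nat_lit 17) (.e false (nat_lit 2) (nat_lit 247) (nat_lit 2) (nat_lit 17) (.e true (nat_lit 3) (nat_lit 248) (nat_lit 2) (nat_lit 17) (.e true (nat_lit 2) (nat_lit 249) (nat_lit 2) (nat_lit 17) (.e false (nat_lit 2) (nat_lit 250) (nat_lit 2) (nat_lit 17) (.e true (nat_lit 2) (nat_lit 252) (nat_lit 2) (nat_lit 17) (.e false (nat_lit 2) (nat_lit 253) (nat_lit 2) (nat_lit 17) (.e false (nat_lit 3) (nat_lit 226) (nat_lit 2) (nat_lit 17) (.e false (nat_lit 1) (nat_lit 227) (nat_lit 2) (nat_lit 17) (.e false (nat_lit 2) (nat_lit 235) (nat_lit 2) (nat_lit 17) (.e false (nat_lit 2) (nat_lit 212) (nat_lit 2) (nat_lit 17) (.u (nat_lit 2) (.n (nat_lit 0) (nat_lit 2) (.p (nat_lit 2) (nat_lit 4) (.p (nat_lit 3) (nat_lit 4) (.n (nat_lit 4) (nat_lit 4) (.p (nat_lit 6) (nat_lit 2) (.n (nat_lit 8) (nat_lit 2) (.p (nat_lit 9) (nat_lit 2) (.n (nat_lit 10) (nat_lit 2) (.n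 (nat_lit 11) (nat_lit 1) (.p (nat_lit 12) (nat_lit 3) (.p (nat_lit 13) (nat_lit 2) (.n (nat_lit 14) (nat_lit 3) (.n (nat_lit 17) (nat_lit 3) (.p (nat_lit 19) (nat_lit 1) (.n (nat_lit 20) (nat_lit 1) (.n (nat_lit 24) (nat_lit 1) (.n (nat_lit 25) (nat_lit 1) (.n (nat_lit 26) (nat_lit 2) (.p (nat_lit 27) (nat_lit 3) (.p (nat_lit 28) (nat_lit 2) (.n (nat_lit 29) (nat_lit 2) (.n (nat_lit 30) (nat_lit 5) (.n (nat_lit 31) (nat_lit 2) (.p (nat_lit 32) (nat_lit 1) (.n (nat_lit 33) (nat_lit 2) (.p (nat_lit 34) (nat_lit 3) (.p (nat_lit 35) (nat_lit 2) (.n (nat_lit 36) (nat_lit 3) (.p (nat_lit 37) (nat_lit 1) (.n (nat_lit 38) (nat_lit 3) (.p (nat_lit 39) (nat_lit 2) (.n (nat_lit 40) (nat_lit 3) (.p (nat_lit 41) (nat_lit 4) (.p (nat_lit 45) (nat_lit 1) (.n (nat_lit 46) (nat_lit 1) (.p (nat_lit 48) (nat_lit 1) (.p (nat_lit 50) (nat_lit 1) (.n (nat_lit 52) (nat_lit 1) (.p (nat_lit 53)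 (nat_lit 2) (.p (nat_lit 54) (nat_lit 2) (.n (nat_lit 55) (nat_lit 1) (.p (nat_lit 56) (nat_lit 1) (.p (nat_lit 57) (nat_lit 3) (.n (nat_lit 58) (nat_lit 2) (.p (nat_lit 59) (nat_lit 1) (.n (nat_lit 62) (nat_lit 1) (.n (nat_lit 67) (nat_lit 3) (.p (nat_lit 68) (nat_lit 1) (.n (nat_lit 69) (nat_lit 2) (.p (nat_lit 70) (nat_lit 1) (.n (nat_lit 327) (nat_lit 1) (.n (nat_lit 329) (nat_lit 2) (.p (nat_lit 330) (nat_lit 5) (.n (nat_lit 331) (nat_lit 2) (.p (nat_lit 332) (nat_lit 1) (.n (nat_lit 333) (nat_lit 1) (.n (nat_lit 334) (nat_lit 4) (.n (nat_lit 335) (nat_lit 3) (.n (nat_lit 336) (nat_lit 1) (.n (nat_lit 337) (nat_lit 3) .z)))))))))))))))))))))))))))))))))))))))))))))))))))))))))))) (.u (nat_lit 2) (.p (nat_lit 339) (nat_lit 1) (.n (nat_lit 341) (nat_lit 3) (.p (nat_lit 342) (nat_lit 1) (.n (nat_lit 343) (nat_lit 2) (.p (nat_lit 344) (nat_lit 3) (.p (nat_lit 346) (nat_lit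 2) (.p (nat_lit 347) (nat_lit 1) (.p (nat_lit 348) (nat_lit 1) (.p (nat_lit 349) (nat_lit 4) (.p (nat_lit 350) (nat_lit 2) (.p (nat_lit 351) (nat_lit 2) (.p (nat_lit 353) (nat_lit 2) (.p (nat_lit 354) (nat_lit 3) (.p (nat_lit 355) (nat_lit 3) (.n (nat_lit 356) (nat_lit 4) (.n (nat_lit 357) (nat_lit 4) (.p (nat_lit 358) (nat_lit 2) (.p (nat_lit 360) (nat_lit 1) (.p (nat_lit 361) (nat_lit 2) (.n (nat_lit 362) (nat_lit 2) (.n (nat_lit 364) (nat_lit 1) (.n (nat_lit 365) (nat_lit 1) (.n (nat_lit 366) (nat_lit 1) (.p (nat_lit 368) (nat_lit 1) (.n (nat_lit 369) (nat_lit 1) (.p (nat_lit 371) (nat_lit 4) (.n (nat_lit 372) (nat_lit 2) (.n (nat_lit 373) (nat_lit 2) (.p (nat_lit 374) (nat_lit 1) .z))))))))))))))))))))))))))))) .nil)))))))))))))))))))))))))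

noncomputable def dC1b_i74 : IL := (.e true (nat_lit 2) (nat_lit 230) (nat_lit 2) (nat_lit 17) (.e true (nat_lit 1) (nat_lit 233) (nat_lit 2) (nat_lit 17) (.e true (nat_lit 2) (nat_lit 235) (nat_lit 2) (nat_lit 17) (.e false (nat_lit 3) (nat_lit 238) (nat_lit 2) (nat_lit 17) (.e false (nat_lit 3) (nat_lit 239) (nat_lit 2) (nat_lit 17) (.e true (nat_lit 2) (nat_lit 241) (nat_lit 2) (nat_lit 17) (.e true (nat_lit 1) (nat_lit 243) (nat_lit 2) (nat_lit 17) (.e true (nat_lit 1) (nat_lit 244) (nat_lit 2) (nat_lit 17) (.e true (nat_lit 3) (nat_lit 247) (nat_lit 2) (nat_lit 17) (.e true (nat_lit 2) (nat_lit 249) (nat_lit 2) (nat_lit 17) (.e true (nat_lit 3) (nat_lit 250) (nat_lit 2) (nat_lit 17) (.e false (nat_lit 2) (nat_lit 251) (nat_lit 2) (nat_lit 17) (.e false (nat_lit 3) (nat_lit 252) (nat_lit 2) (nat_lit 17) (.e false (nat_lit 2) (nat_lit 253) (nat_lit 2) (nat_lit 17) (.e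 true (nat_lit 3) (nat_lit 227) (nat_lit 2) (nat_lit 17) (.e false (nat_lit 1) (nat_lit 232) (nat_lit 2) (nat_lit 17) (.e true (nat_lit 2) (nat_lit 236) (nat_lit 2) (nat_lit 17) (.e true (nat_lit 1) (nat_lit 240) (nat_lit 2) (nat_lit 17) (.e false (nat_lit 1) (nat_lit 242) (nat_lit 2) (nat_lit 17) (.e false (nat_lit 2) (nat_lit 248) (nat_lit 2) (nat_lit 17) (.e true (nat_lit 1) (nat_lit 234) (nat_lit 2) (nat_lit 17) (.e false (nat_lit 2) (nat_lit 237) (nat_lit 2) (nat_lit 17) (.e true (nat_lit 1) (nat_lit 224) (nat_lit 2) (nat_lit 17) (.u (nat_lit 2) (.n (nat_lit 0) (nat_lit 2) (.n (nat_lit 1) (nat_lit 2) (.n (nat_lit 2) (nat_lit 2) (.n (nat_lit 3) (nat_lit 1) (.n (nat_lit 4) (nat_lit 2) (.p (nat_lit 5) (nat_lit 2) (.n (nat_lit 6) (nat_lit 1) (.n (nat_lit 7) (nat_lit 1) (.p (nat_lit 8) (nat_lit 3) (.p (nat_lit 9) (nat_lit 2) (.n (nat_lit 10) (nat_lit 2) (.n (nat_lit 11)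 (nat_lit 1) (.n (nat_lit 12) (nat_lit 1) (.p (nat_lit 14) (nat_lit 2) (.n (nat_lit 18) (nat_lit 3) (.p (nat_lit 19) (nat_lit 3) (.p (nat_lit 20) (nat_lit 2) (.p (nat_lit 24) (nat_lit 3) (.p (nat_lit 25) (nat_lit 3) (.p (nat_lit 26) (nat_lit 3) (.n (nat_lit 28) (nat_lit 2) (.p (nat_lit 29) (nat_lit 1) (.n (nat_lit 30) (nat_lit 2) (.p (nat_lit 31) (nat_lit 1) (.p (nat_lit 32) (nat_lit 2) (.p (nat_lit 33) (nat_lit 1) (.n (nat_lit 34) (nat_lit 1) (.p (nat_lit 35) (nat_lit 5) (.n (nat_lit 36) (nat_lit 4) (.p (nat_lit 37) (nat_lit 6) (.p (nat_lit 38) (nat_lit 1) (.n (nat_lit 39) (nat_lit 1) (.p (nat_lit 40) (nat_lit 5) (.p (nat_lit 41) (nat_lit 2) (.n (nat_lit 45) (nat_lit 3) (.p (nat_lit 46) (nat_lit 2) (.n (nat_lit 48) (nat_lit 2) (.n (nat_lit 49) (nat_lit 2) (.n (nat_lit 50) (nat_lit 2) (.p (nat_lit 51) (nat_lit 1) (.n (nat_lit 53) (nat_lit 2) (.p (nat_lit 55) (nat_lit 1)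 (.p (nat_lit 56) (nat_lit 1) (.n (nat_lit 57) (nat_lit 1) (.p (nat_lit 58) (nat_lit 1) (.n (nat_lit 59) (nat_lit 2) (.n (nat_lit 60) (nat_lit 2) (.n (nat_lit 61) (nat_lit 1) (.p (nat_lit 62) (nat_lit 2) (.p (nat_lit 64) (nat_lit 2) (.n (nat_lit 65) (nat_lit 1) (.p (nat_lit 67) (nat_lit 1) (.n (nat_lit 68) (nat_lit 1) (.n (nat_lit 70) (nat_lit 3) (.n (nat_lit 330) (nat_lit 3) (.n (nat_lit 332) (nat_lit 1) (.n (nat_lit 333) (nat_lit 1) (.n (nat_lit 334) (nat_lit 1) (.p (nat_lit 336) (nat_lit 1) (.n (nat_lit 337) (nat_lit 1) .z)))))))))))))))))))))))))))))))))))))))))))))))))))))))))))) (.u (nat_lit 2) (.n (nat_lit 338) (nat_lit 1) (.n (nat_lit 341) (nat_lit 1) (.n (nat_lit 342) (nat_lit 1) (.p (nat_lit 346) (nat_lit 1) (.p (nat_lit 347) (nat_lit 1) (.n (nat_lit 348) (nat_lit 2) (.n (nat_lit 349) (nat_lit 1) (.n (nat_lit 351) (nat_lit 1) (.p (nat_lit 352) (nat_lit 1) (.n (nat_lit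 353) (nat_lit 3) (.n (nat_lit 355) (nat_lit 2) (.n (nat_lit 358) (nat_lit 1) (.n (nat_lit 359) (nat_lit 1) (.n (nat_lit 360) (nat_lit 1) (.n (nat_lit 361) (nat_lit 1) (.p (nat_lit 362) (nat_lit 2) (.p (nat_lit 363) (nat_lit 1) (.p (nat_lit 365) (nat_lit 1) (.p (nat_lit 366) (nat_lit 1) (.n (nat_lit 367) (nat_lit 1) .z)))))))))))))))))))) .nil)))))))))))))))))))))))))

noncomputable def dC1b_i75 : IL := (.e true (nat_lit 1) (nat_lit 352) (nat_lit 0) (nat_lit 15) (.e true (nat_lit 1) (nat_lit 181) (nat_lit 5) (nat_lit 10) (.e true (nat_lit 1) (nat_lit 210) (nat_lit 3) (nat_lit 12) (.e false (nat_lit 1) (nat_lit 211) (nat_lit 3) (nat_lit 12) (.e false (nat_lit 1) (nat_lit 347) (nat_lit 0) (nat_lit 15) (.e true (nat_lit 3) (nat_lit 350) (nat_lit 0) (nat_lit 15) (.e false (nat_lit 2) (nat_lit 353) (nat_lit 0) (nat_lit 15) (.e false (nat_lit 1) (nat_lit 180) (nat_lit 5) (nat_lit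 10) (.e true (nat_lit 3) (nat_lit 185) (nat_lit 5) (nat_lit 10) (.e false (nat_lit 2) (nat_lit 186) (nat_lit 5) (nat_lit 10) (.e false (nat_lit 2) (nat_lit 187) (nat_lit 5) (nat_lit 10) (.e false (nat_lit 2) (nat_lit 192) (nat_lit 5) (nat_lit 10) (.e false (nat_lit 1) (nat_lit 183) (nat_lit 5) (nat_lit 10) (.e false (nat_lit 2) (nat_lit 328) (nat_lit 1) (nat_lit 14) (.e true (nat_lit 3) (nat_lit 329) (nat_lit 1) (nat_lit 14) (.e false (nat_lit 3) (nat_lit 332) (nat_lit 1) (nat_lit 14) (.e true (nat_lit 2) (nat_lit 334) (nat_lit 1) (nat_lit 14) (.e true (nat_lit 2) (nat_lit 335) (nat_lit 1) (nat_lit 14) (.e false (nat_lit 1) (nat_lit 336) (nat_lit 1) (nat_lit 14) (.e false (nat_lit 3) (nat_lit 330) (nat_lit 1) (nat_lit 14) (.e false (nat_lit 3) (nat_lit 333) (nat_lit 1) (nat_lit 14) (.e false (nat_lit 1) (nat_lit 182) (nat_lit 5) (nat_lit 10) (.e false (nat_lit 3) (nat_lit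 340) (nat_lit 1) (nat_lit 14) (.u (nat_lit 2) (.n (nat_lit 1) (nat_lit 7) (.p (nat_lit 2) (nat_lit 5) (.n (nat_lit 3) (nat_lit 1) (.p (nat_lit 5) (nat_lit 2) (.n (nat_lit 6) (nat_lit 1) (.n (nat_lit 7) (nat_lit 5) (.p (nat_lit 8) (nat_lit 9) (.n (nat_lit 9) (nat_lit 1) (.n (nat_lit 10) (nat_lit 2) (.p (nat_lit 11) (nat_lit 9) (.n (nat_lit 13) (nat_lit 10) (.n (nat_lit 14) (nat_lit 7) (.p (nat_lit 15) (nat_lit 4) (.n (nat_lit 16) (nat_lit 2) (.p (nat_lit 17) (nat_lit 5) (.p (nat_lit 18) (nat_lit 1) (.p (nat_lit 19) (nat_lit 1) (.n (nat_lit 20) (nat_lit 1) (.n (nat_lit 22) (nat_lit 1) (.p (nat_lit 23) (nat_lit 1) (.p (nat_lit 24) (nat_lit 1) (.n (nat_lit 26) (nat_lit 4) (.p (nat_lit 29) (nat_lit 1) (.n (nat_lit 33) (nat_lit 1) (.p (nat_lit 126) (nat_lit 5) (.p (nat_lit 128) (nat_lit 2) (.p (nat_lit 129) (nat_lit 1) (.n (nat_lit 130) (nat_lit 1) (.p (nat_lit 131) (nat_lit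 1) (.n (nat_lit 132) (nat_lit 1) (.p (nat_lit 133) (nat_lit 3) (.n (nat_lit 134) (nat_lit 1) (.n (nat_lit 135) (nat_lit 2) (.n (nat_lit 139) (nat_lit 1) (.n (nat_lit 142) (nat_lit 4) (.n (nat_lit 143) (nat_lit 1) (.p (nat_lit 144) (nat_lit 1) (.p (nat_lit 145) (nat_lit 2) (.p (nat_lit 151) (nat_lit 1) (.p (nat_lit 154) (nat_lit 1) (.p (nat_lit 169) (nat_lit 1) (.p (nat_lit 170) (nat_lit 1) (.n (nat_lit 174) (nat_lit 6) (.n (nat_lit 175) (nat_lit 1) (.n (nat_lit 176) (nat_lit 6) (.p (nat_lit 177) (nat_lit 1) (.n (nat_lit 178) (nat_lit 4) (.n (nat_lit 179) (nat_lit 5) (.p (nat_lit 180) (nat_lit 11) (.n (nat_lit 181) (nat_lit 3) (.p (nat_lit 182) (nat_lit 6) (.p (nat_lit 183) (nat_lit 9) (.n (nat_lit 184) (nat_lit 8) (.n (nat_lit 185) (nat_lit 1) (.p (nat_lit 186) (nat_lit 3) (.p (nat_lit 187) (nat_lit 9) (.n (nat_lit 188) (nat_lit 2) (.n (nat_lit 189) (nat_lit 3) (.n (nat_lit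 190) (nat_lit 3) (.n (nat_lit 191) (nat_lit 3) .z)))))))))))))))))))))))))))))))))))))))))))))))))))))))))))) (.u (nat_lit 2) (.p (nat_lit 192) (nat_lit 4) (.p (nat_lit 193) (nat_lit 2) (.p (nat_lit 195) (nat_lit 2) (.p (nat_lit 196) (nat_lit 7) (.p (nat_lit 198) (nat_lit 3) (.n (nat_lit 199) (nat_lit 2) (.p (nat_lit 201) (nat_lit 2) (.n (nat_lit 202) (nat_lit 1) (.p (nat_lit 204) (nat_lit 1) (.n (nat_lit 205) (nat_lit 1) (.p (nat_lit 206) (nat_lit 1) (.n (nat_lit 207) (nat_lit 2) (.n (nat_lit 208) (nat_lit 2) (.p (nat_lit 209) (nat_lit 1) (.p (nat_lit 210) (nat_lit 1) (.p (nat_lit 212) (nat_lit 1) (.n (nat_lit 215) (nat_lit 1) (.p (nat_lit 222) (nat_lit 2) (.p (nat_lit 224) (nat_lit 1) (.n (nat_lit 225) (nat_lit 1) (.n (nat_lit 227) (nat_lit 1) (.n (nat_lit 228) (nat_lit 1) .z)))))))))))))))))))))) .nil)))))))))))))))))))))))))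

noncomputable def dC1b_i76 : IL := (.e false (nat_lit 3) (nat_lit 296) (nat_lit 2) (nat_lit 13) (.e true (nat_lit 3) (nat_lit 297) (nat_lit 2) (nat_lit 13) (.e true (nat_lit 1) (nat_lit 298) (nat_lit 2) (nat_lit 13) (.e true (nat_lit 3) (nat_lit 299) (nat_lit 2) (nat_lit 13) (.e true (nat_lit 1) (nat_lit 307) (nat_lit 2) (nat_lit 13) (.e true (nat_lit 2) (nat_lit 308) (nat_lit 2) (nat_lit 13) (.e false (nat_lit 3) (nat_lit 311) (nat_lit 2) (nat_lit 13) (.e false (nat_lit 2) (nat_lit 312) (nat_lit 2) (nat_lit 13) (.e true (nat_lit 2) (nat_lit 316) (nat_lit 2) (nat_lit 13) (.e true (nat_lit 2) (nat_lit 317) (nat_lit 2) (nat_lit 13) (.e false (nat_lit 1) (nat_lit 318) (nat_lit 2) (nat_lit 13) (.e true (nat_lit 2) (nat_lit 341) (nat_lit 1) (nat_lit 14) (.e false (nat_lit 3) (nat_lit 171) (nat_lit 6) (nat_lit 9) (.e true (nat_lit 1) (nat_lit 302) (nat_lit 2) (nat_lit 13) (.e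 true (nat_lit 2) (nat_lit 309) (nat_lit 2) (nat_lit 13) (.e true (nat_lit 1) (nat_lit 83) (nat_lit 16) (nat_lit 4) (.e false (nat_lit 1) (nat_lit 292) (nat_lit 2) (nat_lit 13) (.e true (nat_lit 3) (nat_lit 304) (nat_lit 2) (nat_lit 13) (.e true (nat_lit 1) (nat_lit 337) (nat_lit 1) (nat_lit 14) (.e true (nat_lit 3) (nat_lit 345) (nat_lit 1) (nat_lit 14) (.e true (nat_lit 2) (nat_lit 46) (nat_lit 24) (nat_lit 2) (.e false (nat_lit 2) (nat_lit 46) (nat_lit 25) (nat_lit 2) (.e false (nat_lit 2) (nat_lit 348) (nat_lit 0) (nat_lit 15) (.e false (nat_lit 1) (nat_lit 349) (nat_lit 0) (nat_lit 15) (.e false (nat_lit 3) (nat_lit 351) (nat_lit 0) (nat_lit 15) dC1b_i75)))))))))))))))))))))))))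

noncomputable def dC1b_i77 : IL := (.s true (nat_lit 1) (nat_lit 46) (nat_lit 1) (nat_lit 5) (nat_lit 0) true (nat_lit 12) true (nat_lit 15) false (nat_lit 2) true (nat_lit 14) true (nat_lit 10) (.s false (nat_lit 1) (nat_lit 46) (nat_lit 5) (nat_lit 0) (nat_lit 1) true (nat_lit 6) true (nat_lit 14) false (nat_lit 2) true (nat_lit 10) true (nat_lit 15) (.s true (nat_lit 3) (nat_lit 71) (nat_lit 2) (nat_lit 2) (nat_lit 2) true (nat_lit 9) true (nat_lit 13) false (nat_lit 3) true (nat_lit 13) true (nat_lit 13) (.s false (nat_lit 1) (nat_lit 72) (nat_lit 2) (nat_lit 2) (nat_lit 2) true (nat_lit 9) true (nat_lit 13) false (nat_lit 3) true (nat_lit 13) true (nat_lit 13) (.s true (nat_lit 1) (nat_lit 73) (nat_lit 2) (nat_lit 2) (nat_lit 2) true (nat_lit 9) true (nat_lit 13) false (nat_lit 3) true (nat_lit 13) true (nat_lit 13) (.s false (nat_lit 2) (nat_lit 91) (nat_lit 1) (nat_lit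 2) (nat_lit 2) true (nat_lit 10) true (nat_lit 13) false (nat_lit 4) true (nat_lit 14) true (nat_lit 13) (.s false (nat_lit 2) (nat_lit 91) (nat_lit 2) (nat_lit 1) (nat_lit 2) true (nat_lit 9) true (nat_lit 13) false (nat_lit 4) true (nat_lit 13) true (nat_lit 14) (.s false (nat_lit 2) (nat_lit 92) (nat_lit 2) (nat_lit 2) (nat_lit 1) true (nat_lit 10) true (nat_lit 14) false (nat_lit 4) true (nat_lit 13) true (nat_lit 13) (.s true (nat_lit 1) (nat_lit 100) (nat_lit 1) (nat_lit 2) (nat_lit 1) false (nat_lit 16) true (nat_lit 14) false (nat_lit 6) true (nat_lit 14) true (nat_lit 13) (.s true (nat_lit 3) (nat_lit 104) (nat_lit 0) (nat_lit 2) (nat_lit 1) true (nat_lit 12) true (nat_lit 14) false (nat_lit 7) true (nat_lit 15) true (nat_lit 13) (.e true (nat_lit 2) (nat_lit 188) (nat_lit 5) (nat_lit 10) (.e true (nat_lit 2) (nat_lit 153) (nat_lit 6) (nat_lit 9) (.e true (nat_lit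 2) (nat_lit 154) (nat_lit 6) (nat_lit 9) (.e true (nat_lit 2) (nat_lit 161) (nat_lit 6) (nat_lit 9) (.e false (nat_lit 3) (nat_lit 173) (nat_lit 6) (nat_lit 9) (.e true (nat_lit 3) (nat_lit 157) (nat_lit 6) (nat_lit 9) (.e true (nat_lit 1) (nat_lit 208) (nat_lit 3) (nat_lit 12) (.e true (nat_lit 3) (nat_lit 209) (nat_lit 3) (nat_lit 12) (.e false (nat_lit 3) (nat_lit 167) (nat_lit 6) (nat_lit 9) (.e false (nat_lit 2) (nat_lit 189) (nat_lit 5) (nat_lit 10) (.e true (nat_lit 2) (nat_lit 193) (nat_lit 5) (nat_lit 10) (.e true (nat_lit 1) (nat_lit 290) (nat_lit 2) (nat_lit 13) (.e false (nat_lit 1) (nat_lit 291) (nat_lit 2) (nat_lit 13) (.e false (nat_lit 3) (nat_lit 294) (nat_lit 2) (nat_lit 13) (.e false (nat_lit 1) (nat_lit 295) (nat_lit 2) (nat_lit 13) dC1b_i76)))))))))))))))))))))))))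

noncomputable def dC1b_i78 : IL := (.e true (nat_lit 2) (nat_lit 214) (nat_lit 2) (nat_lit 17) (.e true (nat_lit 2) (nat_lit 217) (nat_lit 2) (nat_lit 17) (.e false (nat_lit 1) (nat_lit 230) (nat_lit 2) (nat_lit 17) (.e false (nat_lit 1) (nat_lit 256) (nat_lit 2) (nat_lit 17) (.e true (nat_lit 3) (nat_lit 290) (nat_lit 0) (nat_lit 19) (.e true (nat_lit 1) (nat_lit 291) (nat_lit 0) (nat_lit 19) (.e true (nat_lit 2) (nat_lit 292) (nat_lit 0) (nat_lit 19) (.e true (nat_lit 1) (nat_lit 293) (nat_lit 0) (nat_lit 19) (.e false (nat_lit 1) (nat_lit 294) (nat_lit 0) (nat_lit 19) (.e false (nat_lit 1) (nat_lit 295) (nat_lit 0) (nat_lit 19) (.e false (nat_lit 2) (nat_lit 297) (nat_lit 0) (nat_lit 19) (.e true (nat_lit 3) (nat_lit 298) (nat_lit 0) (nat_lit 19) (.e false (nat_lit 3) (nat_lit 299) (nat_lit 0) (nat_lit 19) (.e true (nat_lit 1) (nat_lit 300) (nat_lit 0) (nat_lit 19)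 (.e true (nat_lit 2) (nat_lit 301) (nat_lit 0) (nat_lit 19) (.e true (nat_lit 1) (nat_lit 304) (nat_lit 0) (nat_lit 19) (.e false (nat_lit 2) (nat_lit 307) (nat_lit 0) (nat_lit 19) (.e false (nat_lit 2) (nat_lit 308) (nat_lit 0) (nat_lit 19) (.e true (nat_lit 1) (nat_lit 309) (nat_lit 0) (nat_lit 19) (.e false (nat_lit 2) (nat_lit 310) (nat_lit 0) (nat_lit 19) (.e true (nat_lit 3) (nat_lit 316) (nat_lit 0) (nat_lit 19) (.e true (nat_lit 2) (nat_lit 317) (nat_lit 0) (nat_lit 19) (.e false (nat_lit 2) (nat_lit 318) (nat_lit 0) (nat_lit 19) (.u (nat_lit 2) (.n (nat_lit 0) (nat_lit 4) (.n (nat_lit 2) (nat_lit 1) (.n (nat_lit 3) (nat_lit 1) (.p (nat_lit 4) (nat_lit 1) (.p (nat_lit 5) (nat_lit 1) (.n (nat_lit 8) (nat_lit 2) (.n (nat_lit 10) (nat_lit 2) (.p (nat_lit 11) (nat_lit 2) (.n (nat_lit 12) (nat_lit 1) (.p (nat_lit 14) (nat_lit 3) (.n (nat_lit 18) (nat_lit 1) (.n (nat_lit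 26) (nat_lit 2) (.p (nat_lit 27) (nat_lit 1) (.p (nat_lit 28) (nat_lit 3) (.p (nat_lit 29) (nat_lit 1) (.p (nat_lit 30) (nat_lit 1) (.p (nat_lit 32) (nat_lit 2) (.n (nat_lit 33) (nat_lit 2) (.p (nat_lit 34) (nat_lit 3) (.p (nat_lit 35) (nat_lit 1) (.n (nat_lit 36) (nat_lit 1) (.p (nat_lit 37) (nat_lit 1) (.n (nat_lit 38) (nat_lit 2) (.n (nat_lit 40) (nat_lit 1) (.p (nat_lit 41) (nat_lit 1) (.p (nat_lit 49) (nat_lit 1) (.p (nat_lit 50) (nat_lit 1) (.n (nat_lit 51) (nat_lit 1) (.n (nat_lit 52) (nat_lit 1) (.n (nat_lit 57) (nat_lit 1) (.p (nat_lit 327) (nat_lit 2) (.n (nat_lit 328) (nat_lit 2) (.n (nat_lit 330) (nat_lit 8) (.p (nat_lit 331) (nat_lit 6) (.p (nat_lit 332) (nat_lit 3) (.p (nat_lit 333) (nat_lit 2) (.p (nat_lit 334) (nat_lit 3) (.p (nat_lit 335) (nat_lit 1) (.n (nat_lit 336) (nat_lit 2) (.p (nat_lit 337) (nat_lit 4) (.n (nat_lit 338) (nat_lit 3) (.n (nat_lit 339)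 (nat_lit 3) (.n (nat_lit 340) (nat_lit 3) (.p (nat_lit 341) (nat_lit 2) (.n (nat_lit 342) (nat_lit 1) (.n (nat_lit 343) (nat_lit 3) (.n (nat_lit 344) (nat_lit 1) (.n (nat_lit 345) (nat_lit 3) (.n (nat_lit 346) (nat_lit 3) (.n (nat_lit 347) (nat_lit 4) (.p (nat_lit 348) (nat_lit 1) (.p (nat_lit 349) (nat_lit 2) (.n (nat_lit 350) (nat_lit 1) (.n (nat_lit 351) (nat_lit 2) (.n (nat_lit 352) (nat_lit 2) (.n (nat_lit 353) (nat_lit 1) (.n (nat_lit 354) (nat_lit 4) (.p (nat_lit 355) (nat_lit 2) (.p (nat_lit 356) (nat_lit 1) (.p (nat_lit 358) (nat_lit 2) .z)))))))))))))))))))))))))))))))))))))))))))))))))))))))))))) (.u (nat_lit 2) (.n (nat_lit 359) (nat_lit 1) (.n (nat_lit 360) (nat_lit 2) (.p (nat_lit 361) (nat_lit 4) (.n (nat_lit 362) (nat_lit 3) (.p (nat_lit 363) (nat_lit 2) (.n (nat_lit 366) (nat_lit 3) (.n (nat_lit 368) (nat_lit 1) (.n (nat_lit 370) (nat_lit 1) (.p (nat_lit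 372) (nat_lit 1) (.p (nat_lit 373) (nat_lit 3) (.n (nat_lit 374) (nat_lit 1) .z))))))))))) .nil)))))))))))))))))))))))))

noncomputable def dC1b_i79 : IL := (.e true (nat_lit 2) (nat_lit 180) (nat_lit 5) (nat_lit 10) (.e true (nat_lit 3) (nat_lit 181) (nat_lit 5) (nat_lit 10) (.e false (nat_lit 1) (nat_lit 183) (nat_lit 5) (nat_lit 10) (.e false (nat_lit 2) (nat_lit 184) (nat_lit 5) (nat_lit 10) (.e false (nat_lit 2) (nat_lit 186) (nat_lit 5) (nat_lit 10) (.e false (nat_lit 2) (nat_lit 187) (nat_lit 5) (nat_lit 10) (.e true (nat_lit 2) (nat_lit 190) (nat_lit 5) (nat_lit 10) (.e true (nat_lit 1) (nat_lit 194) (nat_lit 5) (nat_lit 10) (.e true (nat_lit 3) (nat_lit 66) (nat_lit 18) (nat_lit 3) (.e true (nat_lit 2) (nat_lit 67) (nat_lit 18) (nat_lit 3) (.e true (nat_lit 2) (nat_lit 70) (nat_lit 18) (nat_lit 3) (.e false (nat_lit 1) (nat_lit 72) (nat_lit 18) (nat_lit 3) (.e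 false (nat_lit 2) (nat_lit 74) (nat_lit 18) (nat_lit 3) (.e true (nat_lit 2) (nat_lit 348) (nat_lit 0) (nat_lit 15) (.e false (nat_lit 1) (nat_lit 350) (nat_lit 0) (nat_lit 15) (.e true (nat_lit 1) (nat_lit 351) (nat_lit 0) (nat_lit 15) (.e true (nat_lit 2) (nat_lit 352) (nat_lit 0) (nat_lit 15) (.e false (nat_lit 3) (nat_lit 347) (nat_lit 0) (nat_lit 15) (.e true (nat_lit 2) (nat_lit 349) (nat_lit 0) (nat_lit 15) (.e true (nat_lit 1) (nat_lit 188) (nat_lit 5) (nat_lit 10) (.e false (nat_lit 1) (nat_lit 68) (nat_lit 18) (nat_lit 3) (.e true (nat_lit 2) (nat_lit 69) (nat_lit 18) (nat_lit 3) (.e true (nat_lit 1) (nat_lit 75) (nat_lit 18) (nat_lit 3) (.e false (nat_lit 1) (nat_lit 71) (nat_lit 18) (nat_lit 3) (.u (nat_lit 2) (.n (nat_lit 0) (nat_lit 4) (.n (nat_lit 1) (nat_lit 1) (.p (nat_lit 2) (nat_lit 2) (.n (nat_lit 3) (nat_lit 7) (.n (nat_lit 4) (nat_lit 1) (.n (nat_lit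 5) (nat_lit 1) (.n (nat_lit 6) (nat_lit 2) (.p (nat_lit 7) (nat_lit 2) (.p (nat_lit 8) (nat_lit 1) (.p (nat_lit 10) (nat_lit 4) (.p (nat_lit 11) (nat_lit 3) (.n (nat_lit 12) (nat_lit 5) (.p (nat_lit 13) (nat_lit 1) (.p (nat_lit 15) (nat_lit 1) (.p (nat_lit 16) (nat_lit 1) (.p (nat_lit 17) (nat_lit 3) (.n (nat_lit 18) (nat_lit 1) (.p (nat_lit 19) (nat_lit 3) (.p (nat_lit 20) (nat_lit 1) (.p (nat_lit 22) (nat_lit 1) (.p (nat_lit 23) (nat_lit 1) (.n (nat_lit 26) (nat_lit 2) (.p (nat_lit 27) (nat_lit 1) (.p (nat_lit 29) (nat_lit 2) (.p (nat_lit 30) (nat_lit 1) (.n (nat_lit 32) (nat_lit 1) (.n (nat_lit 33) (nat_lit 1) (.n (nat_lit 146) (nat_lit 1) (.p (nat_lit 147) (nat_lit 1) (.p (nat_lit 149) (nat_lit 1) (.p (nat_lit 150) (nat_lit 1) (.p (nat_lit 151) (nat_lit 1) (.n (nat_lit 152) (nat_lit 1) (.n (nat_lit 153) (nat_lit 1) (.n (nat_lit 155) (nat_lit 1) (.n (nat_lit 156) (nat_lit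 1) (.n (nat_lit 222) (nat_lit 1) (.p (nat_lit 223) (nat_lit 1) (.p (nat_lit 225) (nat_lit 1) .z))))))))))))))))))))))))))))))))))))))) .nil)))))))))))))))))))))))))

noncomputable def dC1b_i80 : IL := (.e true (nat_lit 3) (nat_lit 226) (nat_lit 2) (nat_lit 17) (.e true (nat_lit 1) (nat_lit 227) (nat_lit 2) (nat_lit 17) (.e true (nat_lit 2) (nat_lit 228) (nat_lit 2) (nat_lit 17) (.e false (nat_lit 3) (nat_lit 229) (nat_lit 2) (nat_lit 17) (.e true (nat_lit 3) (nat_lit 230) (nat_lit 2) (nat_lit 17) (.e false (nat_lit 3) (nat_lit 231) (nat_lit 2) (nat_lit 17) (.e true (nat_lit 3) (nat_lit 232) (nat_lit 2) (nat_lit 17) (.e false (nat_lit 1) (nat_lit 233) (nat_lit 2) (nat_lit 17) (.e true (nat_lit 2) (nat_lit 234) (nat_lit 2) (nat_lit 17) (.e false (nat_lit 2) (nat_lit 235) (nat_lit 2) (nat_lit 17) (.e true (nat_lit 3) (nat_lit 236) (nat_lit 2) (nat_lit 17) (.e false (nat_lit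 1) (nat_lit 237) (nat_lit 2) (nat_lit 17) (.e true (nat_lit 2) (nat_lit 238) (nat_lit 2) (nat_lit 17) (.e true (nat_lit 2) (nat_lit 239) (nat_lit 2) (nat_lit 17) (.e true (nat_lit 3) (nat_lit 240) (nat_lit 2) (nat_lit 17) (.e true (nat_lit 3) (nat_lit 241) (nat_lit 2) (nat_lit 17) (.e false (nat_lit 3) (nat_lit 242) (nat_lit 2) (nat_lit 17) (.e true (nat_lit 3) (nat_lit 243) (nat_lit 2) (nat_lit 17) (.e false (nat_lit 3) (nat_lit 245) (nat_lit 2) (nat_lit 17) (.e false (nat_lit 3) (nat_lit 246) (nat_lit 2) (nat_lit 17) (.e false (nat_lit 2) (nat_lit 248) (nat_lit 2) (nat_lit 17) (.e false (nat_lit 2) (nat_lit 249) (nat_lit 2) (nat_lit 17) (.e true (nat_lit 2) (nat_lit 253) (nat_lit 2) (nat_lit 17) (.e false (nat_lit 1) (nat_lit 298) (nat_lit 0) (nat_lit 19) (.u (nat_lit 2) (.n (nat_lit 0) (nat_lit 4) (.p (nat_lit 1) (nat_lit 1) (.n (nat_lit 3) (nat_lit 1) (.n (nat_lit 4)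 (nat_lit 6) (.n (nat_lit 5) (nat_lit 4) (.p (nat_lit 6) (nat_lit 1) (.p (nat_lit 7) (nat_lit 2) (.p (nat_lit 8) (nat_lit 4) (.n (nat_lit 9) (nat_lit 6) (.p (nat_lit 10) (nat_lit 5) (.p (nat_lit 11) (nat_lit 1) (.n (nat_lit 12) (nat_lit 1) (.p (nat_lit 13) (nat_lit 2) (.p (nat_lit 14) (nat_lit 1) (.n (nat_lit 15) (nat_lit 5) (.n (nat_lit 17) (nat_lit 2) (.p (nat_lit 19) (nat_lit 2) (.p (nat_lit 20) (nat_lit 1) (.n (nat_lit 24) (nat_lit 1) (.n (nat_lit 25) (nat_lit 1) (.n (nat_lit 26) (nat_lit 2) (.n (nat_lit 27) (nat_lit 1) (.p (nat_lit 29) (nat_lit 1) (.p (nat_lit 30) (nat_lit 1) (.p (nat_lit 31) (nat_lit 6) (.p (nat_lit 32) (nat_lit 3) (.p (nat_lit 33) (nat_lit 2) (.n (nat_lit 35) (nat_lit 1) (.n (nat_lit 36) (nat_lit 1) (.p (nat_lit 37) (nat_lit 3) (.n (nat_lit 38) (nat_lit 2) (.n (nat_lit 39) (nat_lit 1) (.n (nat_lit 40) (nat_lit 3) (.p (nat_lit 45) (nat_lit 1) (.n (nat_lit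 46) (nat_lit 1) (.n (nat_lit 50) (nat_lit 2) (.p (nat_lit 51) (nat_lit 1) (.n (nat_lit 52) (nat_lit 1) (.p (nat_lit 53) (nat_lit 1) (.p (nat_lit 54) (nat_lit 2) (.p (nat_lit 55) (nat_lit 4) (.p (nat_lit 57) (nat_lit 2) (.n (nat_lit 58) (nat_lit 3) (.n (nat_lit 62) (nat_lit 1) (.n (nat_lit 63) (nat_lit 2) (.p (nat_lit 65) (nat_lit 1) (.p (nat_lit 67) (nat_lit 1) (.p (nat_lit 69) (nat_lit 1) .z)))))))))))))))))))))))))))))))))))))))))))))))) .nil)))))))))))))))))))))))))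

noncomputable def dC1b_i81 : IL := (.e false (nat_lit 1) (nat_lit 121) (nat_lit 2) (nat_lit 12) (.e true (nat_lit 1) (nat_lit 122) (nat_lit 2) (nat_lit 12) (.e true (nat_lit 1) (nat_lit 123) (nat_lit 2) (nat_lit 12) (.e false (nat_lit 2) (nat_lit 124) (nat_lit 2) (nat_lit 12) (.e false (nat_lit 1) (nat_lit 32) (nat_lit 10) (nat_lit 4) (.e true (nat_lit 2) (nat_lit 132) (nat_lit 1) (nat_lit 13) (.e false (nat_lit 1) (nat_lit 133) (nat_lit 1) (nat_lit 13) (.e false (nat_lit 2) (nat_lit 134) (nat_lit 1) (nat_lit 13) (.e true (nat_lit 3) (nat_lit 135) (nat_lit 1) (nat_lit 13) (.e false (nat_lit 3) (nat_lit 136) (nat_lit 1) (nat_lit 13) (.e false (nat_lit 2) (nat_lit 137) (nat_lit 1) (nat_lit 13) (.e true (nat_lit 3) (nat_lit 138) (nat_lit 1) (nat_lit 13) (.e false (nat_lit 3) (nat_lit 139) (nat_lit 1) (nat_lit 13) (.e false (nat_lit 2) (nat_lit 141) (nat_lit 1) (nat_lit 13)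 (.e false (nat_lit 3) (nat_lit 142) (nat_lit 1) (nat_lit 13) (.e false (nat_lit 1) (nat_lit 143) (nat_lit 1) (nat_lit 13) (.e false (nat_lit 2) (nat_lit 144) (nat_lit 1) (nat_lit 13) (.e false (nat_lit 1) (nat_lit 145) (nat_lit 1) (nat_lit 13) (.e true (nat_lit 1) (nat_lit 146) (nat_lit 1) (nat_lit 13) (.e false (nat_lit 1) (nat_lit 147) (nat_lit 1) (nat_lit 13) (.e false (nat_lit 1) (nat_lit 149) (nat_lit 1) (nat_lit 13) (.e false (nat_lit 1) (nat_lit 150) (nat_lit 1) (nat_lit 13) (.e false (nat_lit 3) (nat_lit 151) (nat_lit 1) (nat_lit 13) (.e false (nat_lit 3) (nat_lit 152) (nat_lit 1) (nat_lit 13) (.u (nat_lit 2) (.n (nat_lit 0) (nat_lit 1) (.n (nat_lit 1) (nat_lit 2) (.p (nat_lit 3) (nat_lit 1) (.p (nat_lit 5) (nat_lit 1) (.n (nat_lit 6) (nat_lit 1) (.n (nat_lit 7) (nat_lit 1) (.n (nat_lit 8) (nat_lit 1) (.p (nat_lit 9) (nat_lit 2) (.n (nat_lit 10) (nat_lit 1) (.p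 (nat_lit 11) (nat_lit 1) (.n (nat_lit 12) (nat_lit 2) (.p (nat_lit 19) (nat_lit 1) (.n (nat_lit 20) (nat_lit 1) (.p (nat_lit 21) (nat_lit 1) (.n (nat_lit 23) (nat_lit 1) (.p (nat_lit 25) (nat_lit 1) (.n (nat_lit 26) (nat_lit 1) (.p (nat_lit 27) (nat_lit 1) (.n (nat_lit 28) (nat_lit 3) (.n (nat_lit 31) (nat_lit 1) (.n (nat_lit 32) (nat_lit 3) (.n (nat_lit 33) (nat_lit 1) (.n (nat_lit 34) (nat_lit 2) (.p (nat_lit 35) (nat_lit 2) (.p (nat_lit 36) (nat_lit 3) (.p (nat_lit 37) (nat_lit 1) .z)))))))))))))))))))))))))) .nil)))))))))))))))))))))))))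

noncomputable def dC1b_i82 : IL := (.s true (nat_lit 2) (nat_lit 27) (nat_lit 2) (nat_lit 2) (nat_lit 2) true (nat_lit 6) true (nat_lit 10) false (nat_lit 0) true (nat_lit 10) true (nat_lit 10) (.e true (nat_lit 2) (nat_lit 67) (nat_lit 6) (nat_lit 6) (.e false (nat_lit 3) (nat_lit 188) (nat_lit 1) (nat_lit 11) (.e true (nat_lit 2) (nat_lit 192) (nat_lit 1) (nat_lit 11) (.e false (nat_lit 2) (nat_lit 167) (nat_lit 2) (nat_lit 10) (.e false (nat_lit 3) (nat_lit 154) (nat_lit 2) (nat_lit 10) (.e false (nat_lit 1) (nat_lit 157) (nat_lit 2) (nat_lit 10) (.e false (nat_lit 2) (nat_lit 162) (nat_lit 2) (nat_lit 10) (.e true (nat_lit 3) (nat_lit 164) (nat_lit 2) (nat_lit 10) (.e true (nat_lit 1) (nat_lit 171) (nat_lit 2) (nat_lit 10) (.e true (nat_lit 1) (nat_lit 82) (nat_lit 5) (nat_lit 7) (.e true (nat_lit 1) (nat_lit 31) (nat_lit 16) (nat_lit 1) (.e true (nat_lit 3) (nat_lit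 66) (nat_lit 6) (nat_lit 6) (.e true (nat_lit 2) (nat_lit 68) (nat_lit 6) (nat_lit 6) (.e true (nat_lit 2) (nat_lit 70) (nat_lit 6) (nat_lit 6) (.e true (nat_lit 1) (nat_lit 173) (nat_lit 2) (nat_lit 10) (.e true (nat_lit 2) (nat_lit 153) (nat_lit 2) (nat_lit 10) (.e false (nat_lit 1) (nat_lit 155) (nat_lit 2) (nat_lit 10) (.e true (nat_lit 1) (nat_lit 156) (nat_lit 2) (nat_lit 10) (.e true (nat_lit 2) (nat_lit 46) (nat_lit 8) (nat_lit 5) (.e true (nat_lit 2) (nat_lit 24) (nat_lit 18) (nat_lit 0) (.e false (nat_lit 2) (nat_lit 26) (nat_lit 18) (nat_lit 0) (.e true (nat_lit 2) (nat_lit 170) (nat_lit 2) (nat_lit 10) (.e false (nat_lit 2) (nat_lit 172) (nat_lit 2) (nat_lit 10) (.u (nat_lit 2) (.p (nat_lit 1) (nat_lit 2) (.n (nat_lit 4) (nat_lit 1) (.p (nat_lit 9) (nat_lit 1) (.p (nat_lit 11) (nat_lit 1) (.n (nat_lit 18) (nat_lit 2) (.n (nat_lit 26) (nat_lit 1) (.p (nat_lit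 65) (nat_lit 1) (.n (nat_lit 97) (nat_lit 1) (.n (nat_lit 100) (nat_lit 1) (.p (nat_lit 105) (nat_lit 1) (.n (nat_lit 114) (nat_lit 1) .z))))))))))) .nil)))))))))))))))))))))))))

noncomputable def dC1b_i83 : IL := (.e false (nat_lit 1) (nat_lit 242) (nat_lit 2) (nat_lit 17) (.e true (nat_lit 1) (nat_lit 246) (nat_lit 2) (nat_lit 17) (.e true (nat_lit 1) (nat_lit 212) (nat_lit 2) (nat_lit 17) (.e true (nat_lit 3) (nat_lit 213) (nat_lit 2) (nat_lit 17) (.e true (nat_lit 1) (nat_lit 214) (nat_lit 2) (nat_lit 17) (.e false (nat_lit 2) (nat_lit 215) (nat_lit 2) (nat_lit 17) (.e false (nat_lit 1) (nat_lit 216) (nat_lit 2) (nat_lit 17) (.e true (nat_lit 1) (nat_lit 217) (nat_lit 2) (nat_lit 17) (.e true (nat_lit 1) (nat_lit 218) (nat_lit 2) (nat_lit 17) (.e false (nat_lit 1) (nat_lit 219) (nat_lit 2) (nat_lit 17) (.e true (nat_lit 3) (nat_lit 220) (nat_lit 2) (nat_lit 17) (.e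 false (nat_lit 3) (nat_lit 221) (nat_lit 2) (nat_lit 17) (.e false (nat_lit 3) (nat_lit 222) (nat_lit 2) (nat_lit 17) (.e false (nat_lit 3) (nat_lit 223) (nat_lit 2) (nat_lit 17) (.e false (nat_lit 1) (nat_lit 224) (nat_lit 2) (nat_lit 17) (.e false (nat_lit 3) (nat_lit 227) (nat_lit 2) (nat_lit 17) (.e false (nat_lit 1) (nat_lit 229) (nat_lit 2) (nat_lit 17) (.e false (nat_lit 2) (nat_lit 231) (nat_lit 2) (nat_lit 17) (.e true (nat_lit 3) (nat_lit 237) (nat_lit 2) (nat_lit 17) (.e true (nat_lit 2) (nat_lit 240) (nat_lit 2) (nat_lit 17) (.e true (nat_lit 1) (nat_lit 243) (nat_lit 2) (nat_lit 17) (.e true (nat_lit 2) (nat_lit 244) (nat_lit 2) (nat_lit 17) (.e false (nat_lit 1) (nat_lit 245) (nat_lit 2) (nat_lit 17) (.e false (nat_lit 1) (nat_lit 248) (nat_lit 2) (nat_lit 17) (.u (nat_lit 2) (.n (nat_lit 1) (nat_lit 3) (.p (nat_lit 2) (nat_lit 1) (.p (nat_lit 3) (nat_lit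 1) (.n (nat_lit 5) (nat_lit 2) (.n (nat_lit 8) (nat_lit 3) (.n (nat_lit 9) (nat_lit 3) (.p (nat_lit 10) (nat_lit 1) (.n (nat_lit 11) (nat_lit 1) (.n (nat_lit 12) (nat_lit 6) (.n (nat_lit 13) (nat_lit 2) (.n (nat_lit 14) (nat_lit 2) (.p (nat_lit 15) (nat_lit 1) (.p (nat_lit 17) (nat_lit 2) (.p (nat_lit 18) (nat_lit 1) (.n (nat_lit 19) (nat_lit 1) (.p (nat_lit 20) (nat_lit 1) (.n (nat_lit 26) (nat_lit 5) (.p (nat_lit 27) (nat_lit 2) (.p (nat_lit 28) (nat_lit 2) (.p (nat_lit 29) (nat_lit 1) (.p (nat_lit 30) (nat_lit 2) (.p (nat_lit 31) (nat_lit 4) (.n (nat_lit 33) (nat_lit 1) (.n (nat_lit 35) (nat_lit 3) (.p (nat_lit 36) (nat_lit 1) (.n (nat_lit 37) (nat_lit 2) (.p (nat_lit 38) (nat_lit 2) (.p (nat_lit 39) (nat_lit 5) (.n (nat_lit 40) (nat_lit 3) (.p (nat_lit 41) (nat_lit 1) (.n (nat_lit 50) (nat_lit 3) (.p (nat_lit 51) (nat_lit 1) (.n (nat_lit 53) (nat_lit 1) (.n (nat_lit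 54) (nat_lit 1) (.p (nat_lit 55) (nat_lit 1) (.p (nat_lit 56) (nat_lit 1) (.n (nat_lit 57) (nat_lit 1) (.p (nat_lit 58) (nat_lit 2) (.p (nat_lit 69) (nat_lit 2) (.n (nat_lit 70) (nat_lit 1) (.n (nat_lit 354) (nat_lit 1) .z))))))))))))))))))))))))))))))))))))))))) .nil)))))))))))))))))))))))))

noncomputable def dC1b_i84 : IL := (.e false (nat_lit 1) (nat_lit 85) (nat_lit 10) (nat_lit 9) (.e false (nat_lit 1) (nat_lit 260) (nat_lit 1) (nat_lit 18) (.e true (nat_lit 2) (nat_lit 261) (nat_lit 1) (nat_lit 18) (.e false (nat_lit 2) (nat_lit 262) (nat_lit 1) (nat_lit 18) (.e false (nat_lit 3) (nat_lit 264) (nat_lit 1) (nat_lit 18) (.e false (nat_lit 2) (nat_lit 265) (nat_lit 1) (nat_lit 18) (.e false (nat_lit 1) (nat_lit 266) (nat_lit 1) (nat_lit 18) (.e false (nat_lit 2) (nat_lit 267) (nat_lit 1) (nat_lit 18) (.e true (nat_lit 2) (nat_lit 269) (nat_lit 1) (nat_lit 18) (.e true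 (nat_lit 2) (nat_lit 270) (nat_lit 1) (nat_lit 18) (.e false (nat_lit 1) (nat_lit 271) (nat_lit 1) (nat_lit 18) (.e false (nat_lit 2) (nat_lit 272) (nat_lit 1) (nat_lit 18) (.e false (nat_lit 1) (nat_lit 273) (nat_lit 1) (nat_lit 18) (.e true (nat_lit 1) (nat_lit 274) (nat_lit 1) (nat_lit 18) (.e false (nat_lit 1) (nat_lit 278) (nat_lit 1) (nat_lit 18) (.e true (nat_lit 2) (nat_lit 279) (nat_lit 1) (nat_lit 18) (.e false (nat_lit 3) (nat_lit 280) (nat_lit 1) (nat_lit 18) (.e false (nat_lit 1) (nat_lit 283) (nat_lit 1) (nat_lit 18) (.e false (nat_lit 1) (nat_lit 288) (nat_lit 1) (nat_lit 18) (.e true (nat_lit 2) (nat_lit 232) (nat_lit 2) (nat_lit 17) (.e false (nat_lit 2) (nat_lit 233) (nat_lit 2) (nat_lit 17) (.e true (nat_lit 1) (nat_lit 234) (nat_lit 2) (nat_lit 17) (.e false (nat_lit 1) (nat_lit 238) (nat_lit 2) (nat_lit 17) (.e false (nat_lit 2) (nat_lit 239) (nat_lit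 2) (nat_lit 17) (.e false (nat_lit 1) (nat_lit 241) (nat_lit 2) (nat_lit 17) dC1b_i83)))))))))))))))))))))))))

noncomputable def dC1b_i85 : IL := (.s false (nat_lit 1) (nat_lit 18) (nat_lit 1) (nat_lit 2) (nat_lit 10) true (nat_lit 2) true (nat_lit 7) true (nat_lit 3) true (nat_lit 14) true (nat_lit 13) (.e false (nat_lit 1) (nat_lit 46) (nat_lit 25) (nat_lit 2) (.e false (nat_lit 1) (nat_lit 104) (nat_lit 10) (nat_lit 7) (.e true (nat_lit 3) (nat_lit 328) (nat_lit 1) (nat_lit 14) (.e false (nat_lit 2) (nat_lit 329) (nat_lit 1) (nat_lit 14) (.e true (nat_lit 2) (nat_lit 330) (nat_lit 1) (nat_lit 14) (.e true (nat_lit 1) (nat_lit 331) (nat_lit 1) (nat_lit 14) (.e false (nat_lit 2) (nat_lit 332) (nat_lit 1) (nat_lit 14) (.e false (nat_lit 3) (nat_lit 333) (nat_lit 1) (nat_lit 14) (.e false (nat_lit 1) (nat_lit 334) (nat_lit 1) (nat_lit 14) (.e false (nat_lit 1) (nat_lit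 335) (nat_lit 1) (nat_lit 14) (.e true (nat_lit 1) (nat_lit 336) (nat_lit 1) (nat_lit 14) (.e true (nat_lit 2) (nat_lit 337) (nat_lit 1) (nat_lit 14) (.e true (nat_lit 1) (nat_lit 340) (nat_lit 1) (nat_lit 14) (.e false (nat_lit 1) (nat_lit 344) (nat_lit 1) (nat_lit 14) (.e true (nat_lit 1) (nat_lit 345) (nat_lit 1) (nat_lit 14) (.e true (nat_lit 2) (nat_lit 291) (nat_lit 2) (nat_lit 13) (.e false (nat_lit 3) (nat_lit 294) (nat_lit 2) (nat_lit 13) (.e true (nat_lit 3) (nat_lit 299) (nat_lit 2) (nat_lit 13) (.e true (nat_lit 2) (nat_lit 301) (nat_lit 2) (nat_lit 13) (.e false (nat_lit 1) (nat_lit 298) (nat_lit 2) (nat_lit 13) (.e false (nat_lit 1) (nat_lit 304) (nat_lit 2) (nat_lit 13) (.e true (nat_lit 1) (nat_lit 307) (nat_lit 2) (nat_lit 13) (.e false (nat_lit 3) (nat_lit 308) (nat_lit 2) (nat_lit 13) (.u (nat_lit 2) (.n (nat_lit 0) (nat_lit 1) (.n (nat_lit 2) (nat_lit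 1) (.n (nat_lit 4) (nat_lit 3) (.n (nat_lit 5) (nat_lit 1) (.n (nat_lit 7) (nat_lit 2) (.n (nat_lit 9) (nat_lit 3) (.p (nat_lit 10) (nat_lit 1) (.p (nat_lit 11) (nat_lit 1) (.n (nat_lit 12) (nat_lit 1) (.n (nat_lit 13) (nat_lit 1) (.n (nat_lit 14) (nat_lit 1) (.n (nat_lit 15) (nat_lit 2) (.n (nat_lit 16) (nat_lit 1) (.p (nat_lit 21) (nat_lit 1) (.n (nat_lit 29) (nat_lit 1) .z))))))))))))))) .nil)))))))))))))))))))))))))

noncomputable def dC1b_i86 : IL := (.e true (nat_lit 3) (nat_lit 154) (nat_lit 0) (nat_lit 14) (.e true (nat_lit 1) (nat_lit 156) (nat_lit 0) (nat_lit 14) (.e true (nat_lit 2) (nat_lit 157) (nat_lit 0) (nat_lit 14) (.e true (nat_lit 1) (nat_lit 158) (nat_lit 0) (nat_lit 14) (.e false (nat_lit 2) (nat_lit 159) (nat_lit 0) (nat_lit 14) (.e true (nat_lit 3) (nat_lit 160) (nat_lit 0) (nat_lit 14) (.e false (nat_lit 3) (nat_lit 161) (nat_lit 0) (nat_lit 14)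 (.e true (nat_lit 1) (nat_lit 162) (nat_lit 0) (nat_lit 14) (.e true (nat_lit 3) (nat_lit 163) (nat_lit 0) (nat_lit 14) (.e false (nat_lit 3) (nat_lit 164) (nat_lit 0) (nat_lit 14) (.e true (nat_lit 2) (nat_lit 165) (nat_lit 0) (nat_lit 14) (.e false (nat_lit 1) (nat_lit 168) (nat_lit 0) (nat_lit 14) (.e false (nat_lit 1) (nat_lit 169) (nat_lit 0) (nat_lit 14) (.e false (nat_lit 1) (nat_lit 170) (nat_lit 0) (nat_lit 14) (.e true (nat_lit 3) (nat_lit 171) (nat_lit 0) (nat_lit 14) (.e false (nat_lit 1) (nat_lit 172) (nat_lit 0) (nat_lit 14) (.e false (nat_lit 2) (nat_lit 173) (nat_lit 0) (nat_lit 14) (.e false (nat_lit 1) (nat_lit 29) (nat_lit 13) (nat_lit 3) (.e true (nat_lit 1) (nat_lit 116) (nat_lit 2) (nat_lit 12) (.e false (nat_lit 1) (nat_lit 119) (nat_lit 2) (nat_lit 12) (.e true (nat_lit 1) (nat_lit 130) (nat_lit 2) (nat_lit 12) (.e true (nat_lit 1) (nat_lit 66) (nat_lit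 4) (nat_lit 10) (.e false (nat_lit 1) (nat_lit 67) (nat_lit 4) (nat_lit 10) (.e true (nat_lit 1) (nat_lit 69) (nat_lit 4) (nat_lit 10) (.u (nat_lit 2) (.n (nat_lit 0) (nat_lit 2) (.n (nat_lit 1) (nat_lit 1) (.n (nat_lit 2) (nat_lit 1) (.n (nat_lit 4) (nat_lit 2) (.p (nat_lit 5) (nat_lit 1) (.n (nat_lit 7) (nat_lit 1) (.p (nat_lit 9) (nat_lit 1) (.p (nat_lit 10) (nat_lit 1) (.p (nat_lit 11) (nat_lit 1) (.n (nat_lit 12) (nat_lit 2) (.p (nat_lit 14) (nat_lit 1) (.p (nat_lit 16) (nat_lit 1) (.n (nat_lit 17) (nat_lit 2) (.p (nat_lit 21) (nat_lit 1) (.n (nat_lit 24) (nat_lit 1) (.n (nat_lit 25) (nat_lit 1) (.n (nat_lit 27) (nat_lit 1) (.n (nat_lit 28) (nat_lit 1) (.p (nat_lit 29) (nat_lit 2) (.p (nat_lit 30) (nat_lit 1) (.n (nat_lit 31) (nat_lit 1) (.p (nat_lit 32) (nat_lit 1) (.n (nat_lit 36) (nat_lit 1) (.p (nat_lit 39) (nat_lit 1) (.n (nat_lit 44) (nat_lit 1) (.p (nat_lit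 45) (nat_lit 1) .z)))))))))))))))))))))))))) .nil)))))))))))))))))))))))))

noncomputable def dC1b_i87 : IL := (.e false (nat_lit 2) (nat_lit 233) (nat_lit 2) (nat_lit 17) (.e true (nat_lit 3) (nat_lit 236) (nat_lit 2) (nat_lit 17) (.e true (nat_lit 2) (nat_lit 237) (nat_lit 2) (nat_lit 17) (.e false (nat_lit 3) (nat_lit 239) (nat_lit 2) (nat_lit 17) (.e true (nat_lit 1) (nat_lit 240) (nat_lit 2) (nat_lit 17) (.e true (nat_lit 2) (nat_lit 241) (nat_lit 2) (nat_lit 17) (.e false (nat_lit 2) (nat_lit 242) (nat_lit 2) (nat_lit 17) (.e true (nat_lit 1) (nat_lit 247) (nat_lit 2) (nat_lit 17) (.e true (nat_lit 3) (nat_lit 213) (nat_lit 2) (nat_lit 17) (.e false (nat_lit 1) (nat_lit 216) (nat_lit 2) (nat_lit 17) (.e true (nat_lit 2) (nat_lit 217) (nat_lit 2) (nat_lit 17) (.e true (nat_lit 1) (nat_lit 221) (nat_lit 2) (nat_lit 17) (.e false (nat_lit 2) (nat_lit 224) (nat_lit 2)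 (nat_lit 17) (.e true (nat_lit 1) (nat_lit 227) (nat_lit 2) (nat_lit 17) (.e false (nat_lit 1) (nat_lit 229) (nat_lit 2) (nat_lit 17) (.e false (nat_lit 2) (nat_lit 214) (nat_lit 2) (nat_lit 17) (.e false (nat_lit 2) (nat_lit 232) (nat_lit 2) (nat_lit 17) (.e true (nat_lit 2) (nat_lit 238) (nat_lit 2) (nat_lit 17) (.e true (nat_lit 1) (nat_lit 243) (nat_lit 2) (nat_lit 17) (.e false (nat_lit 1) (nat_lit 248) (nat_lit 2) (nat_lit 17) (.e false (nat_lit 1) (nat_lit 218) (nat_lit 2) (nat_lit 17) (.e true (nat_lit 1) (nat_lit 219) (nat_lit 2) (nat_lit 17) (.e false (nat_lit 3) (nat_lit 220) (nat_lit 2) (nat_lit 17) (.e true (nat_lit 2) (nat_lit 234) (nat_lit 2) (nat_lit 17) (.u (nat_lit 2) (.n (nat_lit 0) (nat_lit 1) (.p (nat_lit 1) (nat_lit 1) (.n (nat_lit 2) (nat_lit 1) (.n (nat_lit 3) (nat_lit 1) (.n (nat_lit 4) (nat_lit 2) (.p (nat_lit 6) (nat_lit 1) (.p (nat_lit 7) (nat_lit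 2) (.n (nat_lit 8) (nat_lit 2) (.n (nat_lit 10) (nat_lit 1) (.p (nat_lit 11) (nat_lit 1) (.p (nat_lit 12) (nat_lit 1) (.p (nat_lit 13) (nat_lit 1) (.n (nat_lit 17) (nat_lit 2) (.p (nat_lit 18) (nat_lit 3) (.n (nat_lit 20) (nat_lit 1) (.p (nat_lit 26) (nat_lit 1) (.p (nat_lit 27) (nat_lit 1) (.p (nat_lit 28) (nat_lit 1) (.n (nat_lit 29) (nat_lit 1) (.n (nat_lit 30) (nat_lit 3) (.p (nat_lit 31) (nat_lit 4) (.p (nat_lit 33) (nat_lit 5) (.n (nat_lit 34) (nat_lit 1) (.p (nat_lit 37) (nat_lit 1) (.p (nat_lit 38) (nat_lit 1) (.n (nat_lit 40) (nat_lit 2) (.n (nat_lit 41) (nat_lit 2) (.n (nat_lit 49) (nat_lit 2) (.n (nat_lit 50) (nat_lit 1) (.p (nat_lit 51) (nat_lit 1) (.p (nat_lit 53) (nat_lit 2) (.p (nat_lit 55) (nat_lit 3) (.p (nat_lit 57) (nat_lit 1) (.n (nat_lit 58) (nat_lit 1) (.n (nat_lit 63) (nat_lit 2) (.p (nat_lit 64) (nat_lit 1) (.n (nat_lit 69) (nat_lit 1) (.p (nat_lit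 70) (nat_lit 1) (.p (nat_lit 332) (nat_lit 1) (.n (nat_lit 336) (nat_lit 1) (.n (nat_lit 339) (nat_lit 1) (.n (nat_lit 342) (nat_lit 1) (.n (nat_lit 348) (nat_lit 1) (.p (nat_lit 351) (nat_lit 1) (.p (nat_lit 354) (nat_lit 1) (.n (nat_lit 356) (nat_lit 1) .z)))))))))))))))))))))))))))))))))))))))))))))) .nil)))))))))))))))))))))))))

noncomputable def dC1b_i88 : IL := (.e false (nat_lit 2) (nat_lit 183) (nat_lit 5) (nat_lit 10) (.e true (nat_lit 3) (nat_lit 184) (nat_lit 5) (nat_lit 10) (.e false (nat_lit 3) (nat_lit 185) (nat_lit 5) (nat_lit 10) (.e false (nat_lit 1) (nat_lit 186) (nat_lit 5) (nat_lit 10) (.e false (nat_lit 1) (nat_lit 187) (nat_lit 5) (nat_lit 10) (.e false (nat_lit 1) (nat_lit 188) (nat_lit 5) (nat_lit 10) (.e true (nat_lit 1) (nat_lit 192) (nat_lit 5) (nat_lit 10) (.e true (nat_lit 1) (nat_lit 193) (nat_lit 5) (nat_lit 10) (.e false (nat_lit 1) (nat_lit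 46) (nat_lit 24) (nat_lit 2) (.e true (nat_lit 1) (nat_lit 46) (nat_lit 26) (nat_lit 2) (.e false (nat_lit 1) (nat_lit 46) (nat_lit 27) (nat_lit 2) (.e true (nat_lit 3) (nat_lit 350) (nat_lit 0) (nat_lit 15) (.e true (nat_lit 1) (nat_lit 353) (nat_lit 0) (nat_lit 15) (.e true (nat_lit 2) (nat_lit 328) (nat_lit 1) (nat_lit 14) (.e false (nat_lit 2) (nat_lit 329) (nat_lit 1) (nat_lit 14) (.e false (nat_lit 3) (nat_lit 331) (nat_lit 1) (nat_lit 14) (.e false (nat_lit 2) (nat_lit 332) (nat_lit 1) (nat_lit 14) (.e true (nat_lit 1) (nat_lit 334) (nat_lit 1) (nat_lit 14) (.e true (nat_lit 1) (nat_lit 335) (nat_lit 1) (nat_lit 14) (.e false (nat_lit 3) (nat_lit 337) (nat_lit 1) (nat_lit 14) (.e false (nat_lit 1) (nat_lit 336) (nat_lit 1) (nat_lit 14) (.e true (nat_lit 3) (nat_lit 330) (nat_lit 1) (nat_lit 14) (.e false (nat_lit 1) (nat_lit 333) (nat_lit 1) (nat_lit 14) (.e true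 (nat_lit 2) (nat_lit 341) (nat_lit 1) (nat_lit 14) (.u (nat_lit 2) (.p (nat_lit 0) (nat_lit 4) (.p (nat_lit 1) (nat_lit 1) (.p (nat_lit 2) (nat_lit 1) (.p (nat_lit 3) (nat_lit 4) (.n (nat_lit 4) (nat_lit 1) (.n (nat_lit 6) (nat_lit 1) (.n (nat_lit 7) (nat_lit 3) (.p (nat_lit 8) (nat_lit 2) (.n (nat_lit 9) (nat_lit 3) (.p (nat_lit 10) (nat_lit 1) (.n (nat_lit 11) (nat_lit 1) (.p (nat_lit 12) (nat_lit 4) (.p (nat_lit 13) (nat_lit 2) (.p (nat_lit 14) (nat_lit 1) (.p (nat_lit 15) (nat_lit 1) (.n (nat_lit 16) (nat_lit 5) (.n (nat_lit 17) (nat_lit 1) (.n (nat_lit 18) (nat_lit 1) (.p (nat_lit 20) (nat_lit 1) (.p (nat_lit 22) (nat_lit 3) (.p (nat_lit 23) (nat_lit 1) (.n (nat_lit 26) (nat_lit 1) (.n (nat_lit 32) (nat_lit 3) (.p (nat_lit 33) (nat_lit 3) (.n (nat_lit 147) (nat_lit 1) (.n (nat_lit 149) (nat_lit 1) (.n (nat_lit 151) (nat_lit 1) (.p (nat_lit 155) (nat_lit 1) (.p (nat_lit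 156) (nat_lit 1) (.p (nat_lit 213) (nat_lit 1) (.p (nat_lit 224) (nat_lit 1) .z))))))))))))))))))))))))))))))) .nil)))))))))))))))))))))))))

noncomputable def dC1b_i89 : IL := (.s false (nat_lit 1) (nat_lit 14) (nat_lit 1) (nat_lit 4) (nat_lit 2) true (nat_lit 7) true (nat_lit 10) true (nat_lit 2) true (nat_lit 11) true (nat_lit 8) (.e true (nat_lit 1) (nat_lit 80) (nat_lit 5) (nat_lit 7) (.e false (nat_lit 1) (nat_lit 81) (nat_lit 5) (nat_lit 7) (.e false (nat_lit 1) (nat_lit 132) (nat_lit 2) (nat_lit 10) (.e true (nat_lit 3) (nat_lit 133) (nat_lit 2) (nat_lit 10) (.e true (nat_lit 1) (nat_lit 134) (nat_lit 2) (nat_lit 10) (.e false (nat_lit 3) (nat_lit 135) (nat_lit 2) (nat_lit 10) (.e true (nat_lit 3) (nat_lit 137) (nat_lit 2) (nat_lit 10) (.e false (nat_lit 1) (nat_lit 138) (nat_lit 2) (nat_lit 10) (.e false (nat_lit 3) (nat_lit 139) (nat_lit 2) (nat_lit 10) (.e false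 (nat_lit 3) (nat_lit 140) (nat_lit 2) (nat_lit 10) (.e true (nat_lit 2) (nat_lit 141) (nat_lit 2) (nat_lit 10) (.e true (nat_lit 3) (nat_lit 142) (nat_lit 2) (nat_lit 10) (.e false (nat_lit 1) (nat_lit 143) (nat_lit 2) (nat_lit 10) (.e false (nat_lit 1) (nat_lit 144) (nat_lit 2) (nat_lit 10) (.e true (nat_lit 3) (nat_lit 145) (nat_lit 2) (nat_lit 10) (.e false (nat_lit 2) (nat_lit 146) (nat_lit 2) (nat_lit 10) (.e false (nat_lit 1) (nat_lit 148) (nat_lit 2) (nat_lit 10) (.e false (nat_lit 1) (nat_lit 149) (nat_lit 2) (nat_lit 10) (.e true (nat_lit 2) (nat_lit 150) (nat_lit 2) (nat_lit 10) (.e false (nat_lit 2) (nat_lit 151) (nat_lit 2) (nat_lit 10) (.e false (nat_lit 2) (nat_lit 152) (nat_lit 2) (nat_lit 10) (.e true (nat_lit 1) (nat_lit 32) (nat_lit 14) (nat_lit 2) (.e false (nat_lit 1) (nat_lit 88) (nat_lit 4) (nat_lit 8) (.u (nat_lit 2) (.n (nat_lit 1) (nat_lit 1) (.p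 (nat_lit 4) (nat_lit 1) (.p (nat_lit 6) (nat_lit 1) (.p (nat_lit 7) (nat_lit 1) (.p (nat_lit 8) (nat_lit 1) (.n (nat_lit 10) (nat_lit 1) (.n (nat_lit 13) (nat_lit 1) (.p (nat_lit 17) (nat_lit 1) (.n (nat_lit 18) (nat_lit 1) (.p (nat_lit 19) (nat_lit 1) (.p (nat_lit 26) (nat_lit 1) (.n (nat_lit 28) (nat_lit 1) (.p (nat_lit 29) (nat_lit 1) .z))))))))))))) .nil)))))))))))))))))))))))))

noncomputable def dC1b_i90 : IL := (.e false (nat_lit 2) (nat_lit 323) (nat_lit 1) (nat_lit 14) (.e true (nat_lit 1) (nat_lit 324) (nat_lit 1) (nat_lit 14) (.e true (nat_lit 2) (nat_lit 325) (nat_lit 1) (nat_lit 14) (.e false (nat_lit 2) (nat_lit 281) (nat_lit 2) (nat_lit 13) (.e true (nat_lit 3) (nat_lit 282) (nat_lit 2) (nat_lit 13) (.e false (nat_lit 3) (nat_lit 262) (nat_lit 2) (nat_lit 13) (.e true (nat_lit 1) (nat_lit 263) (nat_lit 2) (nat_lit 13) (.e false (nat_lit 1) (nat_lit 264) (nat_lit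 2) (nat_lit 13) (.e false (nat_lit 3) (nat_lit 266) (nat_lit 2) (nat_lit 13) (.e false (nat_lit 3) (nat_lit 271) (nat_lit 2) (nat_lit 13) (.e false (nat_lit 2) (nat_lit 272) (nat_lit 2) (nat_lit 13) (.e true (nat_lit 1) (nat_lit 273) (nat_lit 2) (nat_lit 13) (.e true (nat_lit 1) (nat_lit 277) (nat_lit 2) (nat_lit 13) (.e true (nat_lit 3) (nat_lit 278) (nat_lit 2) (nat_lit 13) (.e false (nat_lit 2) (nat_lit 280) (nat_lit 2) (nat_lit 13) (.e true (nat_lit 3) (nat_lit 286) (nat_lit 2) (nat_lit 13) (.e true (nat_lit 2) (nat_lit 289) (nat_lit 2) (nat_lit 13) (.e true (nat_lit 2) (nat_lit 267) (nat_lit 2) (nat_lit 13) (.e true (nat_lit 2) (nat_lit 268) (nat_lit 2) (nat_lit 13) (.e true (nat_lit 1) (nat_lit 269) (nat_lit 2) (nat_lit 13) (.e true (nat_lit 2) (nat_lit 261) (nat_lit 2) (nat_lit 13) (.e true (nat_lit 3) (nat_lit 265) (nat_lit 2) (nat_lit 13) (.e false (nat_lit 3)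 (nat_lit 270) (nat_lit 2) (nat_lit 13) (.e false (nat_lit 2) (nat_lit 287) (nat_lit 2) (nat_lit 13) (.u (nat_lit 2) (.p (nat_lit 0) (nat_lit 2) (.n (nat_lit 2) (nat_lit 1) (.p (nat_lit 3) (nat_lit 4) (.n (nat_lit 4) (nat_lit 4) (.n (nat_lit 6) (nat_lit 1) (.n (nat_lit 7) (nat_lit 1) (.n (nat_lit 8) (nat_lit 2) (.p (nat_lit 9) (nat_lit 4) (.p (nat_lit 10) (nat_lit 1) (.p (nat_lit 12) (nat_lit 1) (.n (nat_lit 15) (nat_lit 2) (.n (nat_lit 16) (nat_lit 1) (.n (nat_lit 18) (nat_lit 4) (.n (nat_lit 21) (nat_lit 1) (.p (nat_lit 22) (nat_lit 2) (.n (nat_lit 23) (nat_lit 1) (.p (nat_lit 24) (nat_lit 1) (.p (nat_lit 26) (nat_lit 1) (.n (nat_lit 28) (nat_lit 1) (.p (nat_lit 29) (nat_lit 1) (.p (nat_lit 33) (nat_lit 3) (.n (nat_lit 173) (nat_lit 2) (.n (nat_lit 174) (nat_lit 1) (.n (nat_lit 175) (nat_lit 1) (.n (nat_lit 176) (nat_lit 1) (.n (nat_lit 177) (nat_lit 1) (.p (nat_lit 180)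 (nat_lit 2) (.n (nat_lit 181) (nat_lit 1) (.n (nat_lit 182) (nat_lit 1) (.n (nat_lit 185) (nat_lit 2) (.n (nat_lit 186) (nat_lit 1) (.n (nat_lit 190) (nat_lit 1) (.n (nat_lit 191) (nat_lit 1) (.n (nat_lit 195) (nat_lit 1) (.p (nat_lit 199) (nat_lit 2) (.p (nat_lit 200) (nat_lit 1) (.p (nat_lit 202) (nat_lit 1) .z))))))))))))))))))))))))))))))))))))) .nil)))))))))))))))))))))))))

noncomputable def dC1b_i91 : IL := (.e true (nat_lit 1) (nat_lit 212) (nat_lit 2) (nat_lit 17) (.e false (nat_lit 3) (nat_lit 213) (nat_lit 2) (nat_lit 17) (.e true (nat_lit 3) (nat_lit 214) (nat_lit 2) (nat_lit 17) (.e true (nat_lit 1) (nat_lit 215) (nat_lit 2) (nat_lit 17) (.e false (nat_lit 2) (nat_lit 216) (nat_lit 2) (nat_lit 17) (.e true (nat_lit 3) (nat_lit 217) (nat_lit 2) (nat_lit 17) (.e true (nat_lit 3) (nat_lit 218) (nat_lit 2) (nat_lit 17) (.e false (nat_lit 3) (nat_lit 219) (nat_lit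 2) (nat_lit 17) (.e true (nat_lit 3) (nat_lit 220) (nat_lit 2) (nat_lit 17) (.e true (nat_lit 2) (nat_lit 221) (nat_lit 2) (nat_lit 17) (.e false (nat_lit 2) (nat_lit 222) (nat_lit 2) (nat_lit 17) (.e false (nat_lit 3) (nat_lit 224) (nat_lit 2) (nat_lit 17) (.e false (nat_lit 2) (nat_lit 227) (nat_lit 2) (nat_lit 17) (.e false (nat_lit 2) (nat_lit 229) (nat_lit 2) (nat_lit 17) (.e true (nat_lit 2) (nat_lit 232) (nat_lit 2) (nat_lit 17) (.e true (nat_lit 3) (nat_lit 236) (nat_lit 2) (nat_lit 17) (.e false (nat_lit 3) (nat_lit 237) (nat_lit 2) (nat_lit 17) (.e true (nat_lit 2) (nat_lit 238) (nat_lit 2) (nat_lit 17) (.e false (nat_lit 1) (nat_lit 239) (nat_lit 2) (nat_lit 17) (.e true (nat_lit 3) (nat_lit 241) (nat_lit 2) (nat_lit 17) (.e true (nat_lit 3) (nat_lit 242) (nat_lit 2) (nat_lit 17) (.e false (nat_lit 2) (nat_lit 244) (nat_lit 2) (nat_lit 17) (.e false (nat_lit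 1) (nat_lit 245) (nat_lit 2) (nat_lit 17) (.e true (nat_lit 3) (nat_lit 248) (nat_lit 2) (nat_lit 17) (.u (nat_lit 2) (.n (nat_lit 0) (nat_lit 5) (.p (nat_lit 1) (nat_lit 2) (.p (nat_lit 2) (nat_lit 5) (.p (nat_lit 3) (nat_lit 3) (.p (nat_lit 4) (nat_lit 1) (.n (nat_lit 5) (nat_lit 5) (.n (nat_lit 6) (nat_lit 2) (.p (nat_lit 7) (nat_lit 4) (.n (nat_lit 8) (nat_lit 1) (.n (nat_lit 9) (nat_lit 1) (.p (nat_lit 10) (nat_lit 4) (.n (nat_lit 11) (nat_lit 4) (.p (nat_lit 13) (nat_lit 3) (.n (nat_lit 14) (nat_lit 1) (.n (nat_lit 15) (nat_lit 2) (.p (nat_lit 17) (nat_lit 3) (.n (nat_lit 18) (nat_lit 2) (.p (nat_lit 19) (nat_lit 2) (.p (nat_lit 20) (nat_lit 1) (.n (nat_lit 26) (nat_lit 4) (.n (nat_lit 27) (nat_lit 1) (.n (nat_lit 28) (nat_lit 2) (.n (nat_lit 29) (nat_lit 1) (.n (nat_lit 30) (nat_lit 1) (.p (nat_lit 31) (nat_lit 1) (.n (nat_lit 32) (nat_lit 5) (.p (nat_lit 33) (nat_lit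 3) (.n (nat_lit 34) (nat_lit 3) (.n (nat_lit 35) (nat_lit 2) (.p (nat_lit 36) (nat_lit 3) (.n (nat_lit 37) (nat_lit 1) (.p (nat_lit 38) (nat_lit 1) (.n (nat_lit 39) (nat_lit 4) (.n (nat_lit 40) (nat_lit 1) (.p (nat_lit 41) (nat_lit 2) (.n (nat_lit 49) (nat_lit 1) (.p (nat_lit 53) (nat_lit 1) (.p (nat_lit 54) (nat_lit 2) (.p (nat_lit 55) (nat_lit 1) (.p (nat_lit 57) (nat_lit 4) (.n (nat_lit 58) (nat_lit 3) (.n (nat_lit 60) (nat_lit 2) (.n (nat_lit 63) (nat_lit 1) (.p (nat_lit 64) (nat_lit 1) (.n (nat_lit 69) (nat_lit 1) .z))))))))))))))))))))))))))))))))))))))))))))) .nil)))))))))))))))))))))))))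

noncomputable def dC1b_i92 : IL := (.e true (nat_lit 2) (nat_lit 138) (nat_lit 2) (nat_lit 10) (.e true (nat_lit 1) (nat_lit 139) (nat_lit 2) (nat_lit 10) (.e true (nat_lit 3) (nat_lit 140) (nat_lit 2) (nat_lit 10) (.e true (nat_lit 3) (nat_lit 141) (nat_lit 2) (nat_lit 10) (.e false (nat_lit 1) (nat_lit 142) (nat_lit 2) (nat_lit 10) (.e true (nat_lit 1) (nat_lit 143) (nat_lit 2) (nat_lit 10) (.e true (nat_lit 2) (nat_lit 144) (nat_lit 2) (nat_lit 10) (.e false (nat_lit 3) (nat_lit 145) (nat_lit 2) (nat_lit 10) (.e true (nat_lit 1) (nat_lit 146) (nat_lit 2) (nat_lit 10) (.e false (nat_lit 2) (nat_lit 147) (nat_lit 2) (nat_lit 10) (.e true (nat_lit 1) (nat_lit 149) (nat_lit 2) (nat_lit 10) (.e false (nat_lit 1) (nat_lit 150) (nat_lit 2) (nat_lit 10) (.e true (nat_lit 3) (nat_lit 151) (nat_lit 2) (nat_lit 10) (.e true (nat_lit 2) (nat_lit 152) (nat_lit 2) (nat_lit 10) (.e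 false (nat_lit 2) (nat_lit 180) (nat_lit 0) (nat_lit 12) (.e false (nat_lit 2) (nat_lit 181) (nat_lit 0) (nat_lit 12) (.e true (nat_lit 1) (nat_lit 182) (nat_lit 0) (nat_lit 12) (.e true (nat_lit 1) (nat_lit 183) (nat_lit 0) (nat_lit 12) (.e true (nat_lit 1) (nat_lit 184) (nat_lit 0) (nat_lit 12) (.e false (nat_lit 2) (nat_lit 185) (nat_lit 0) (nat_lit 12) (.e true (nat_lit 1) (nat_lit 186) (nat_lit 0) (nat_lit 12) (.e false (nat_lit 1) (nat_lit 187) (nat_lit 0) (nat_lit 12) (.e true (nat_lit 1) (nat_lit 188) (nat_lit 0) (nat_lit 12) (.e true (nat_lit 1) (nat_lit 190) (nat_lit 0) (nat_lit 12) (.u (nat_lit 2) (.p (nat_lit 0) (nat_lit 2) (.n (nat_lit 2) (nat_lit 2) (.n (nat_lit 3) (nat_lit 2) (.p (nat_lit 4) (nat_lit 1) (.n (nat_lit 5) (nat_lit 1) (.p (nat_lit 6) (nat_lit 1) (.p (nat_lit 7) (nat_lit 2) (.n (nat_lit 8) (nat_lit 1) (.n (nat_lit 10) (nat_lit 1) (.n (nat_lit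 11) (nat_lit 1) (.n (nat_lit 12) (nat_lit 1) (.p (nat_lit 13) (nat_lit 3) (.n (nat_lit 14) (nat_lit 1) (.p (nat_lit 17) (nat_lit 2) (.p (nat_lit 18) (nat_lit 2) (.n (nat_lit 21) (nat_lit 1) (.n (nat_lit 26) (nat_lit 1) (.p (nat_lit 27) (nat_lit 2) (.p (nat_lit 28) (nat_lit 2) (.n (nat_lit 29) (nat_lit 1) .z)))))))))))))))))))) .nil)))))))))))))))))))))))))

noncomputable def dC1b_i93 : IL := (.e true (nat_lit 2) (nat_lit 239) (nat_lit 2) (nat_lit 17) (.e false (nat_lit 1) (nat_lit 240) (nat_lit 2) (nat_lit 17) (.e true (nat_lit 1) (nat_lit 241) (nat_lit 2) (nat_lit 17) (.e false (nat_lit 2) (nat_lit 242) (nat_lit 2) (nat_lit 17) (.e false (nat_lit 1) (nat_lit 244) (nat_lit 2) (nat_lit 17) (.e true (nat_lit 2) (nat_lit 212) (nat_lit 2) (nat_lit 17) (.e false (nat_lit 3) (nat_lit 213) (nat_lit 2) (nat_lit 17) (.e true (nat_lit 1) (nat_lit 214) (nat_lit 2) (nat_lit 17) (.e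 true (nat_lit 3) (nat_lit 215) (nat_lit 2) (nat_lit 17) (.e true (nat_lit 1) (nat_lit 216) (nat_lit 2) (nat_lit 17) (.e true (nat_lit 3) (nat_lit 217) (nat_lit 2) (nat_lit 17) (.e false (nat_lit 2) (nat_lit 218) (nat_lit 2) (nat_lit 17) (.e true (nat_lit 2) (nat_lit 219) (nat_lit 2) (nat_lit 17) (.e true (nat_lit 1) (nat_lit 220) (nat_lit 2) (nat_lit 17) (.e false (nat_lit 2) (nat_lit 221) (nat_lit 2) (nat_lit 17) (.e true (nat_lit 1) (nat_lit 222) (nat_lit 2) (nat_lit 17) (.e true (nat_lit 1) (nat_lit 223) (nat_lit 2) (nat_lit 17) (.e false (nat_lit 3) (nat_lit 224) (nat_lit 2) (nat_lit 17) (.e false (nat_lit 2) (nat_lit 227) (nat_lit 2) (nat_lit 17) (.e true (nat_lit 1) (nat_lit 229) (nat_lit 2) (nat_lit 17) (.e true (nat_lit 3) (nat_lit 231) (nat_lit 2) (nat_lit 17) (.e true (nat_lit 3) (nat_lit 235) (nat_lit 2) (nat_lit 17) (.e false (nat_lit 2) (nat_lit 243) (nat_lit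 2) (nat_lit 17) (.e true (nat_lit 1) (nat_lit 248) (nat_lit 2) (nat_lit 17) (.u (nat_lit 2) (.p (nat_lit 0) (nat_lit 5) (.p (nat_lit 1) (nat_lit 1) (.n (nat_lit 2) (nat_lit 3) (.n (nat_lit 3) (nat_lit 1) (.n (nat_lit 6) (nat_lit 1) (.p (nat_lit 7) (nat_lit 2) (.p (nat_lit 8) (nat_lit 2) (.p (nat_lit 9) (nat_lit 4) (.p (nat_lit 11) (nat_lit 1) (.p (nat_lit 12) (nat_lit 1) (.p (nat_lit 13) (nat_lit 2) (.n (nat_lit 14) (nat_lit 4) (.n (nat_lit 15) (nat_lit 1) (.p (nat_lit 17) (nat_lit 1) (.p (nat_lit 18) (nat_lit 5) (.p (nat_lit 19) (nat_lit 2) (.n (nat_lit 20) (nat_lit 4) (.p (nat_lit 26) (nat_lit 6) (.n (nat_lit 27) (nat_lit 5) (.n (nat_lit 28) (nat_lit 6) (.p (nat_lit 29) (nat_lit 1) (.p (nat_lit 30) (nat_lit 1) (.p (nat_lit 31) (nat_lit 4) (.n (nat_lit 32) (nat_lit 2) (.p (nat_lit 33) (nat_lit 2) (.n (nat_lit 34) (nat_lit 3) (.n (nat_lit 35) (nat_lit 5) (.n (nat_lit 36)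 (nat_lit 1) (.n (nat_lit 37) (nat_lit 5) (.p (nat_lit 38) (nat_lit 1) (.n (nat_lit 39) (nat_lit 3) (.p (nat_lit 40) (nat_lit 1) (.p (nat_lit 41) (nat_lit 2) (.n (nat_lit 49) (nat_lit 1) (.p (nat_lit 50) (nat_lit 1) (.p (nat_lit 52) (nat_lit 1) (.p (nat_lit 54) (nat_lit 2) (.n (nat_lit 55) (nat_lit 1) (.n (nat_lit 56) (nat_lit 1) (.p (nat_lit 57) (nat_lit 3) (.n (nat_lit 58) (nat_lit 2) (.p (nat_lit 62) (nat_lit 1) (.n (nat_lit 69) (nat_lit 1) (.p (nat_lit 70) (nat_lit 1) (.n (nat_lit 351) (nat_lit 1) (.p (nat_lit 353) (nat_lit 1) (.n (nat_lit 375) (nat_lit 1) (.n (nat_lit 388) (nat_lit 1) .z)))))))))))))))))))))))))))))))))))))))))))))))) .nil)))))))))))))))))))))))))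

noncomputable def dC1b_i94 : IL := (.e false (nat_lit 2) (nat_lit 262) (nat_lit 1) (nat_lit 18) (.e false (nat_lit 3) (nat_lit 264) (nat_lit 1) (nat_lit 18) (.e true (nat_lit 1) (nat_lit 265) (nat_lit 1) (nat_lit 18) (.e true (nat_lit 3) (nat_lit 266) (nat_lit 1) (nat_lit 18) (.e true (nat_lit 3) (nat_lit 267) (nat_lit 1) (nat_lit 18) (.e true (nat_lit 1) (nat_lit 268) (nat_lit 1) (nat_lit 18) (.e false (nat_lit 2) (nat_lit 269) (nat_lit 1) (nat_lit 18) (.e true (nat_lit 1) (nat_lit 270) (nat_lit 1) (nat_lit 18) (.e true (nat_lit 1) (nat_lit 272) (nat_lit 1) (nat_lit 18) (.e false (nat_lit 3) (nat_lit 273) (nat_lit 1) (nat_lit 18) (.e true (nat_lit 2) (nat_lit 278) (nat_lit 1) (nat_lit 18) (.e true (nat_lit 2) (nat_lit 263) (nat_lit 1) (nat_lit 18) (.e true (nat_lit 2) (nat_lit 271) (nat_lit 1) (nat_lit 18) (.e true (nat_lit 3) (nat_lit 277) (nat_lit 1) (nat_lit 18) (.e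 false (nat_lit 3) (nat_lit 279) (nat_lit 1) (nat_lit 18) (.e false (nat_lit 1) (nat_lit 281) (nat_lit 1) (nat_lit 18) (.e false (nat_lit 1) (nat_lit 282) (nat_lit 1) (nat_lit 18) (.e false (nat_lit 2) (nat_lit 286) (nat_lit 1) (nat_lit 18) (.e true (nat_lit 2) (nat_lit 287) (nat_lit 1) (nat_lit 18) (.e true (nat_lit 3) (nat_lit 288) (nat_lit 1) (nat_lit 18) (.e false (nat_lit 2) (nat_lit 233) (nat_lit 2) (nat_lit 17) (.e false (nat_lit 2) (nat_lit 234) (nat_lit 2) (nat_lit 17) (.e false (nat_lit 3) (nat_lit 236) (nat_lit 2) (nat_lit 17) (.e false (nat_lit 2) (nat_lit 237) (nat_lit 2) (nat_lit 17) (.e true (nat_lit 2) (nat_lit 238) (nat_lit 2) (nat_lit 17) dC1b_i93)))))))))))))))))))))))))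

noncomputable def dC1b_i95 : IL := (.e false (nat_lit 1) (nat_lit 142) (nat_lit 1) (nat_lit 13) (.e true (nat_lit 2) (nat_lit 143) (nat_lit 1) (nat_lit 13) (.e false (nat_lit 2) (nat_lit 144) (nat_lit 1) (nat_lit 13) (.e true (nat_lit 3) (nat_lit 145) (nat_lit 1) (nat_lit 13) (.e false (nat_lit 1) (nat_lit 146) (nat_lit 1) (nat_lit 13) (.e true (nat_lit 1) (nat_lit 147) (nat_lit 1) (nat_lit 13) (.e true (nat_lit 2) (nat_lit 152) (nat_lit 1) (nat_lit 13) (.e true (nat_lit 3) (nat_lit 47) (nat_lit 6) (nat_lit 8) (.e true (nat_lit 3) (nat_lit 49) (nat_lit 6) (nat_lit 8) (.e false (nat_lit 3) (nat_lit 52) (nat_lit 6) (nat_lit 8) (.e true (nat_lit 1) (nat_lit 171) (nat_lit 0) (nat_lit 14) (.e true (nat_lit 3) (nat_lit 20) (nat_lit 17) (nat_lit 1) (.e true (nat_lit 3) (nat_lit 21) (nat_lit 17) (nat_lit 1) (.e true (nat_lit 2) (nat_lit 133) (nat_lit 1) (nat_lit 13) (.e true (nat_lit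 1) (nat_lit 148) (nat_lit 1) (nat_lit 13) (.e false (nat_lit 1) (nat_lit 107) (nat_lit 2) (nat_lit 12) (.e false (nat_lit 1) (nat_lit 112) (nat_lit 2) (nat_lit 12) (.e true (nat_lit 1) (nat_lit 114) (nat_lit 2) (nat_lit 12) (.e false (nat_lit 3) (nat_lit 126) (nat_lit 2) (nat_lit 12) (.e false (nat_lit 3) (nat_lit 129) (nat_lit 2) (nat_lit 12) (.e false (nat_lit 3) (nat_lit 140) (nat_lit 1) (nat_lit 13) (.e true (nat_lit 1) (nat_lit 19) (nat_lit 18) (nat_lit 0) (.e true (nat_lit 2) (nat_lit 42) (nat_lit 8) (nat_lit 6) (.u (nat_lit 2) (.p (nat_lit 0) (nat_lit 5) (.p (nat_lit 1) (nat_lit 4) (.p (nat_lit 2) (nat_lit 2) (.n (nat_lit 3) (nat_lit 6) (.p (nat_lit 4) (nat_lit 4) (.n (nat_lit 5) (nat_lit 4) (.p (nat_lit 6) (nat_lit 2) (.p (nat_lit 7) (nat_lit 1) (.p (nat_lit 8) (nat_lit 4) (.p (nat_lit 9) (nat_lit 2) (.n (nat_lit 10) (nat_lit 8) (.n (nat_lit 11) (nat_lit 7) (.n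 (nat_lit 12) (nat_lit 4) (.n (nat_lit 13) (nat_lit 2) (.n (nat_lit 14) (nat_lit 1) (.p (nat_lit 17) (nat_lit 4) (.n (nat_lit 18) (nat_lit 2) (.n (nat_lit 19) (nat_lit 1) (.p (nat_lit 21) (nat_lit 5) (.n (nat_lit 22) (nat_lit 1) (.n (nat_lit 23) (nat_lit 2) (.n (nat_lit 24) (nat_lit 8) (.n (nat_lit 25) (nat_lit 3) (.p (nat_lit 27) (nat_lit 2) (.p (nat_lit 28) (nat_lit 4) (.n (nat_lit 29) (nat_lit 2) (.n (nat_lit 31) (nat_lit 1) (.p (nat_lit 33) (nat_lit 2) (.p (nat_lit 34) (nat_lit 1) (.p (nat_lit 36) (nat_lit 2) (.p (nat_lit 37) (nat_lit 2) (.p (nat_lit 125) (nat_lit 1) (.p (nat_lit 126) (nat_lit 1) (.n (nat_lit 127) (nat_lit 2) (.n (nat_lit 130) (nat_lit 1) (.n (nat_lit 133) (nat_lit 1) (.n (nat_lit 136) (nat_lit 1) (.n (nat_lit 141) (nat_lit 1) (.p (nat_lit 143) (nat_lit 1) (.n (nat_lit 161) (nat_lit 1) (.n (nat_lit 162) (nat_lit 1) (.n (nat_lit 163) (nat_lit 1) (.p (nat_lit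 164) (nat_lit 1) (.p (nat_lit 166) (nat_lit 1) (.p (nat_lit 167) (nat_lit 2) (.n (nat_lit 171) (nat_lit 2) (.p (nat_lit 172) (nat_lit 1) (.p (nat_lit 173) (nat_lit 1) (.p (nat_lit 174) (nat_lit 1) (.n (nat_lit 175) (nat_lit 1) (.p (nat_lit 176) (nat_lit 1) (.p (nat_lit 177) (nat_lit 1) (.p (nat_lit 178) (nat_lit 3) (.p (nat_lit 179) (nat_lit 1) (.p (nat_lit 180) (nat_lit 1) (.n (nat_lit 183) (nat_lit 3) (.p (nat_lit 184) (nat_lit 1) (.n (nat_lit 185) (nat_lit 3) (.p (nat_lit 187) (nat_lit 1) (.n (nat_lit 190) (nat_lit 4) .z)))))))))))))))))))))))))))))))))))))))))))))))))))))))))))) (.u (nat_lit 2) (.p (nat_lit 191) (nat_lit 3) (.p (nat_lit 192) (nat_lit 2) (.p (nat_lit 199) (nat_lit 3) (.n (nat_lit 200) (nat_lit 2) (.n (nat_lit 201) (nat_lit 1) (.n (nat_lit 202) (nat_lit 3) .z)))))) .nil)))))))))))))))))))))))))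

noncomputable def dC1b_i96 : IL := (.s true (nat_lit 2) (nat_lit 18) (nat_lit 1) (nat_lit 0) (nat_lit 3) true (nat_lit 6) true (nat_lit 11) true (nat_lit 0) true (nat_lit 13) true (nat_lit 14) (.e false (nat_lit 1) (nat_lit 84) (nat_lit 3) (nat_lit 11) (.e false (nat_lit 1) (nat_lit 85) (nat_lit 3) (nat_lit 11) (.e false (nat_lit 3) (nat_lit 92) (nat_lit 3) (nat_lit 11) (.e true (nat_lit 3) (nat_lit 65) (nat_lit 5) (nat_lit 9) (.e true (nat_lit 2) (nat_lit 155) (nat_lit 0) (nat_lit 14) (.e false (nat_lit 1) (nat_lit 163) (nat_lit 0) (nat_lit 14) (.e false (nat_lit 2) (nat_lit 153) (nat_lit 0) (nat_lit 14) (.e false (nat_lit 2) (nat_lit 154) (nat_lit 0) (nat_lit 14) (.e false (nat_lit 1) (nat_lit 156) (nat_lit 0) (nat_lit 14) (.e false (nat_lit 3) (nat_lit 161) (nat_lit 0) (nat_lit 14) (.e true (nat_lit 1) (nat_lit 162) (nat_lit 0) (nat_lit 14) (.e false (nat_lit 3) (nat_lit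 173) (nat_lit 0) (nat_lit 14) (.e false (nat_lit 1) (nat_lit 157) (nat_lit 0) (nat_lit 14) (.e true (nat_lit 2) (nat_lit 149) (nat_lit 1) (nat_lit 13) (.e true (nat_lit 1) (nat_lit 150) (nat_lit 1) (nat_lit 13) (.e true (nat_lit 3) (nat_lit 151) (nat_lit 1) (nat_lit 13) (.e true (nat_lit 1) (nat_lit 158) (nat_lit 0) (nat_lit 14) (.e true (nat_lit 3) (nat_lit 168) (nat_lit 0) (nat_lit 14) (.e false (nat_lit 1) (nat_lit 172) (nat_lit 0) (nat_lit 14) (.e false (nat_lit 3) (nat_lit 134) (nat_lit 1) (nat_lit 13) (.e false (nat_lit 3) (nat_lit 136) (nat_lit 1) (nat_lit 13) (.e true (nat_lit 1) (nat_lit 138) (nat_lit 1) (nat_lit 13) (.e true (nat_lit 2) (nat_lit 139) (nat_lit 1) (nat_lit 13) (.e false (nat_lit 2) (nat_lit 141) (nat_lit 1) (nat_lit 13) dC1b_i95)))))))))))))))))))))))))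

noncomputable def dC1b_i97 : IL := (.s true (nat_lit 1) (nat_lit 10) (nat_lit 2) (nat_lit 2) (nat_lit 4) true (nat_lit 2) true (nat_lit 8) true (nat_lit 3) true (nat_lit 10) true (nat_lit 10) (.e true (nat_lit 1) (nat_lit 22) (nat_lit 18) (nat_lit 0) (.e true (nat_lit 1) (nat_lit 62) (nat_lit 6) (nat_lit 6) (.e false (nat_lit 3) (nat_lit 132) (nat_lit 2) (nat_lit 10) (.e true (nat_lit 2) (nat_lit 133) (nat_lit 2) (nat_lit 10) (.e false (nat_lit 2) (nat_lit 134) (nat_lit 2) (nat_lit 10) (.e true (nat_lit 3) (nat_lit 135) (nat_lit 2) (nat_lit 10) (.e true (nat_lit 3) (nat_lit 136) (nat_lit 2) (nat_lit 10) (.e true (nat_lit 2) (nat_lit 137) (nat_lit 2) (nat_lit 10) (.e false (nat_lit 2) (nat_lit 138) (nat_lit 2) (nat_lit 10) (.e true (nat_lit 1) (nat_lit 139) (nat_lit 2) (nat_lit 10) (.e true (nat_lit 1) (nat_lit 141) (nat_lit 2) (nat_lit 10) (.e false (nat_lit 2) (nat_lit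 142) (nat_lit 2) (nat_lit 10) (.e true (nat_lit 1) (nat_lit 143) (nat_lit 2) (nat_lit 10) (.e true (nat_lit 2) (nat_lit 144) (nat_lit 2) (nat_lit 10) (.e true (nat_lit 1) (nat_lit 145) (nat_lit 2) (nat_lit 10) (.e false (nat_lit 1) (nat_lit 146) (nat_lit 2) (nat_lit 10) (.e true (nat_lit 1) (nat_lit 147) (nat_lit 2) (nat_lit 10) (.e true (nat_lit 1) (nat_lit 149) (nat_lit 2) (nat_lit 10) (.e true (nat_lit 1) (nat_lit 150) (nat_lit 2) (nat_lit 10) (.e false (nat_lit 3) (nat_lit 151) (nat_lit 2) (nat_lit 10) (.e true (nat_lit 3) (nat_lit 152) (nat_lit 2) (nat_lit 10) (.e false (nat_lit 1) (nat_lit 188) (nat_lit 0) (nat_lit 12) (.e true (nat_lit 1) (nat_lit 31) (nat_lit 14) (nat_lit 2) (.u (nat_lit 2) (.n (nat_lit 3) (nat_lit 1) (.n (nat_lit 4) (nat_lit 1) (.n (nat_lit 5) (nat_lit 1) (.n (nat_lit 7) (nat_lit 1) (.p (nat_lit 10) (nat_lit 1) (.n (nat_lit 12) (nat_lit 1) (.p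 (nat_lit 19) (nat_lit 1) (.n (nat_lit 20) (nat_lit 1) (.n (nat_lit 115) (nat_lit 1) .z))))))))) .nil)))))))))))))))))))))))))

noncomputable def dC1b_i98 : IL := (.s true (nat_lit 3) (nat_lit 42) (nat_lit 2) (nat_lit 1) (nat_lit 2) true (nat_lit 4) true (nat_lit 8) false (nat_lit 1) true (nat_lit 8) true (nat_lit 9) (.e true (nat_lit 3) (nat_lit 42) (nat_lit 17) (nat_lit 1) (.e true (nat_lit 2) (nat_lit 84) (nat_lit 6) (nat_lit 4) (.e false (nat_lit 1) (nat_lit 90) (nat_lit 6) (nat_lit 4) (.e false (nat_lit 3) (nat_lit 92) (nat_lit 6) (nat_lit 4) (.e true (nat_lit 3) (nat_lit 32) (nat_lit 18) (nat_lit 0) (.e false (nat_lit 3) (nat_lit 33) (nat_lit 18) (nat_lit 0) (.e false (nat_lit 1) (nat_lit 183) (nat_lit 2) (nat_lit 8) (.e true (nat_lit 1) (nat_lit 180) (nat_lit 2) (nat_lit 8) (.e true (nat_lit 3) (nat_lit 182) (nat_lit 2) (nat_lit 8) (.e true (nat_lit 3) (nat_lit 184)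 (nat_lit 2) (nat_lit 8) (.e true (nat_lit 3) (nat_lit 185) (nat_lit 2) (nat_lit 8) (.e false (nat_lit 1) (nat_lit 186) (nat_lit 2) (nat_lit 8) (.e false (nat_lit 1) (nat_lit 187) (nat_lit 2) (nat_lit 8) (.e true (nat_lit 3) (nat_lit 188) (nat_lit 2) (nat_lit 8) (.e false (nat_lit 3) (nat_lit 190) (nat_lit 2) (nat_lit 8) (.e false (nat_lit 3) (nat_lit 193) (nat_lit 2) (nat_lit 8) (.e true (nat_lit 1) (nat_lit 194) (nat_lit 2) (nat_lit 8) (.e true (nat_lit 3) (nat_lit 100) (nat_lit 5) (nat_lit 5) (.e true (nat_lit 1) (nat_lit 181) (nat_lit 2) (nat_lit 8) (.e true (nat_lit 1) (nat_lit 192) (nat_lit 2) (nat_lit 8) (.e false (nat_lit 2) (nat_lit 83) (nat_lit 6) (nat_lit 4) (.e true (nat_lit 3) (nat_lit 91) (nat_lit 6) (nat_lit 4) (.e true (nat_lit 3) (nat_lit 204) (nat_lit 1) (nat_lit 9) (.u (nat_lit 2) (.n (nat_lit 0) (nat_lit 1) (.p (nat_lit 2) (nat_lit 2) (.n (nat_lit 3)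 (nat_lit 1) (.p (nat_lit 4) (nat_lit 1) (.p (nat_lit 8) (nat_lit 1) (.n (nat_lit 9) (nat_lit 1) (.p (nat_lit 12) (nat_lit 1) (.n (nat_lit 13) (nat_lit 1) (.n (nat_lit 16) (nat_lit 1) (.p (nat_lit 18) (nat_lit 1) (.p (nat_lit 40) (nat_lit 1) (.p (nat_lit 41) (nat_lit 1) (.n (nat_lit 42) (nat_lit 1) (.n (nat_lit 48) (nat_lit 1) (.n (nat_lit 60) (nat_lit 2) (.n (nat_lit 61) (nat_lit 5) (.n (nat_lit 63) (nat_lit 1) (.n (nat_lit 64) (nat_lit 3) (.n (nat_lit 65) (nat_lit 3) (.p (nat_lit 66) (nat_lit 2) (.p (nat_lit 67) (nat_lit 2) (.p (nat_lit 72) (nat_lit 1) (.p (nat_lit 74) (nat_lit 1) .z))))))))))))))))))))))) .nil)))))))))))))))))))))))))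

noncomputable def dC1b_i99 : IL := (.e true (nat_lit 2) (nat_lit 219) (nat_lit 2) (nat_lit 17) (.e true (nat_lit 3) (nat_lit 220) (nat_lit 2) (nat_lit 17) (.e true (nat_lit 2) (nat_lit 222) (nat_lit 2) (nat_lit 17) (.e false (nat_lit 3) (nat_lit 223) (nat_lit 2) (nat_lit 17) (.e false (nat_lit 2) (nat_lit 224) (nat_lit 2) (nat_lit 17) (.e false (nat_lit 3) (nat_lit 226) (nat_lit 2) (nat_lit 17) (.e true (nat_lit 1) (nat_lit 227) (nat_lit 2) (nat_lit 17) (.e false (nat_lit 2) (nat_lit 229) (nat_lit 2) (nat_lit 17) (.e false (nat_lit 3) (nat_lit 231) (nat_lit 2) (nat_lit 17) (.e true (nat_lit 3) (nat_lit 232) (nat_lit 2) (nat_lit 17) (.e true (nat_lit 1) (nat_lit 233) (nat_lit 2) (nat_lit 17) (.e false (nat_lit 3) (nat_lit 234) (nat_lit 2) (nat_lit 17) (.e false (nat_lit 2) (nat_lit 235) (nat_lit 2) (nat_lit 17) (.e false (nat_lit 1) (nat_lit 236) (nat_lit 2) (nat_lit 17)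 (.e false (nat_lit 2) (nat_lit 237) (nat_lit 2) (nat_lit 17) (.e false (nat_lit 1) (nat_lit 238) (nat_lit 2) (nat_lit 17) (.e true (nat_lit 1) (nat_lit 240) (nat_lit 2) (nat_lit 17) (.e false (nat_lit 1) (nat_lit 242) (nat_lit 2) (nat_lit 17) (.e false (nat_lit 2) (nat_lit 243) (nat_lit 2) (nat_lit 17) (.e true (nat_lit 3) (nat_lit 244) (nat_lit 2) (nat_lit 17) (.e true (nat_lit 2) (nat_lit 245) (nat_lit 2) (nat_lit 17) (.e true (nat_lit 1) (nat_lit 246) (nat_lit 2) (nat_lit 17) (.e true (nat_lit 2) (nat_lit 248) (nat_lit 2) (nat_lit 17) (.e true (nat_lit 1) (nat_lit 301) (nat_lit 0) (nat_lit 19) (.u (nat_lit 2) (.p (nat_lit 1) (nat_lit 1) (.p (nat_lit 2) (nat_lit 4) (.n (nat_lit 3) (nat_lit 2) (.n (nat_lit 4) (nat_lit 1) (.n (nat_lit 6) (nat_lit 3) (.p (nat_lit 7) (nat_lit 2) (.n (nat_lit 8) (nat_lit 3) (.p (nat_lit 9) (nat_lit 1) (.n (nat_lit 10) (nat_lit 2) (.n (nat_lit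 11) (nat_lit 2) (.n (nat_lit 12) (nat_lit 1) (.n (nat_lit 14) (nat_lit 2) (.p (nat_lit 15) (nat_lit 4) (.p (nat_lit 17) (nat_lit 4) (.p (nat_lit 19) (nat_lit 6) (.n (nat_lit 20) (nat_lit 2) (.p (nat_lit 26) (nat_lit 1) (.p (nat_lit 27) (nat_lit 1) (.n (nat_lit 28) (nat_lit 2) (.n (nat_lit 29) (nat_lit 1) (.p (nat_lit 30) (nat_lit 1) (.n (nat_lit 31) (nat_lit 2) (.n (nat_lit 33) (nat_lit 4) (.p (nat_lit 35) (nat_lit 2) (.p (nat_lit 36) (nat_lit 3) (.n (nat_lit 37) (nat_lit 1) (.p (nat_lit 40) (nat_lit 3) (.p (nat_lit 41) (nat_lit 2) (.p (nat_lit 49) (nat_lit 1) (.n (nat_lit 51) (nat_lit 1) (.n (nat_lit 52) (nat_lit 1) (.n (nat_lit 53) (nat_lit 1) (.p (nat_lit 54) (nat_lit 2) (.n (nat_lit 55) (nat_lit 1) (.p (nat_lit 56) (nat_lit 2) (.p (nat_lit 63) (nat_lit 1) (.p (nat_lit 69) (nat_lit 1) .z))))))))))))))))))))))))))))))))))))) .nil)))))))))))))))))))))))))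

noncomputable def dC1b_i100 : IL := (.e false (nat_lit 1) (nat_lit 260) (nat_lit 1) (nat_lit 18) (.e false (nat_lit 1) (nat_lit 261) (nat_lit 1) (nat_lit 18) (.e false (nat_lit 3) (nat_lit 263) (nat_lit 1) (nat_lit 18) (.e true (nat_lit 3) (nat_lit 264) (nat_lit 1) (nat_lit 18) (.e false (nat_lit 1) (nat_lit 265) (nat_lit 1) (nat_lit 18) (.e false (nat_lit 2) (nat_lit 266) (nat_lit 1) (nat_lit 18) (.e false (nat_lit 3) (nat_lit 267) (nat_lit 1) (nat_lit 18) (.e true (nat_lit 2) (nat_lit 268) (nat_lit 1) (nat_lit 18) (.e true (nat_lit 2) (nat_lit 269) (nat_lit 1) (nat_lit 18) (.e true (nat_lit 2) (nat_lit 270) (nat_lit 1) (nat_lit 18) (.e false (nat_lit 2) (nat_lit 271) (nat_lit 1) (nat_lit 18) (.e false (nat_lit 3) (nat_lit 272) (nat_lit 1) (nat_lit 18) (.e true (nat_lit 1) (nat_lit 273) (nat_lit 1) (nat_lit 18) (.e true (nat_lit 2) (nat_lit 274) (nat_lit 1) (nat_lit 18)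 (.e true (nat_lit 1) (nat_lit 275) (nat_lit 1) (nat_lit 18) (.e true (nat_lit 3) (nat_lit 277) (nat_lit 1) (nat_lit 18) (.e false (nat_lit 2) (nat_lit 279) (nat_lit 1) (nat_lit 18) (.e true (nat_lit 2) (nat_lit 280) (nat_lit 1) (nat_lit 18) (.e false (nat_lit 1) (nat_lit 281) (nat_lit 1) (nat_lit 18) (.e false (nat_lit 1) (nat_lit 283) (nat_lit 1) (nat_lit 18) (.e true (nat_lit 1) (nat_lit 286) (nat_lit 1) (nat_lit 18) (.e true (nat_lit 1) (nat_lit 287) (nat_lit 1) (nat_lit 18) (.e true (nat_lit 1) (nat_lit 289) (nat_lit 1) (nat_lit 18) (.e false (nat_lit 1) (nat_lit 246) (nat_lit 2) (nat_lit 17) (.u (nat_lit 2) (.p (nat_lit 0) (nat_lit 1) (.p (nat_lit 1) (nat_lit 1) (.p (nat_lit 2) (nat_lit 1) (.p (nat_lit 4) (nat_lit 1) (.n (nat_lit 6) (nat_lit 1) (.p (nat_lit 7) (nat_lit 1) (.n (nat_lit 8) (nat_lit 2) (.p (nat_lit 9) (nat_lit 3) (.p (nat_lit 11) (nat_lit 1) (.n (nat_lit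 12) (nat_lit 1) (.n (nat_lit 14) (nat_lit 1) (.p (nat_lit 15) (nat_lit 1) (.n (nat_lit 17) (nat_lit 2) (.p (nat_lit 19) (nat_lit 2) (.p (nat_lit 26) (nat_lit 1) (.p (nat_lit 29) (nat_lit 2) (.p (nat_lit 31) (nat_lit 1) (.p (nat_lit 32) (nat_lit 1) (.p (nat_lit 33) (nat_lit 2) (.n (nat_lit 34) (nat_lit 1) (.p (nat_lit 36) (nat_lit 1) (.n (nat_lit 37) (nat_lit 1) (.p (nat_lit 38) (nat_lit 1) (.n (nat_lit 40) (nat_lit 2) .z)))))))))))))))))))))))) .nil)))))))))))))))))))))))))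

noncomputable def dC1b_i101 : IL := (.e false (nat_lit 1) (nat_lit 328) (nat_lit 0) (nat_lit 15) (.e false (nat_lit 1) (nat_lit 260) (nat_lit 2) (nat_lit 13) (.e false (nat_lit 1) (nat_lit 261) (nat_lit 2) (nat_lit 13) (.e false (nat_lit 3) (nat_lit 263) (nat_lit 2) (nat_lit 13) (.e true (nat_lit 3) (nat_lit 264) (nat_lit 2) (nat_lit 13) (.e false (nat_lit 1) (nat_lit 265) (nat_lit 2) (nat_lit 13) (.e false (nat_lit 2) (nat_lit 266) (nat_lit 2) (nat_lit 13) (.e false (nat_lit 3) (nat_lit 267) (nat_lit 2) (nat_lit 13) (.e true (nat_lit 2) (nat_lit 268) (nat_lit 2) (nat_lit 13) (.e true (nat_lit 2) (nat_lit 269) (nat_lit 2) (nat_lit 13) (.e true (nat_lit 2) (nat_lit 270) (nat_lit 2) (nat_lit 13) (.e false (nat_lit 2) (nat_lit 271) (nat_lit 2) (nat_lit 13) (.e false (nat_lit 3) (nat_lit 272) (nat_lit 2) (nat_lit 13) (.e true (nat_lit 1) (nat_lit 273) (nat_lit 2) (nat_lit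 13) (.e true (nat_lit 2) (nat_lit 274) (nat_lit 2) (nat_lit 13) (.e true (nat_lit 2) (nat_lit 275) (nat_lit 2) (nat_lit 13) (.e true (nat_lit 3) (nat_lit 277) (nat_lit 2) (nat_lit 13) (.e false (nat_lit 2) (nat_lit 279) (nat_lit 2) (nat_lit 13) (.e true (nat_lit 2) (nat_lit 280) (nat_lit 2) (nat_lit 13) (.e false (nat_lit 1) (nat_lit 281) (nat_lit 2) (nat_lit 13) (.e false (nat_lit 1) (nat_lit 283) (nat_lit 2) (nat_lit 13) (.e true (nat_lit 1) (nat_lit 286) (nat_lit 2) (nat_lit 13) (.e true (nat_lit 1) (nat_lit 287) (nat_lit 2) (nat_lit 13) (.e true (nat_lit 1) (nat_lit 289) (nat_lit 2) (nat_lit 13) (.u (nat_lit 2) (.p (nat_lit 0) (nat_lit 1) (.n (nat_lit 1) (nat_lit 3) (.p (nat_lit 2) (nat_lit 1) (.n (nat_lit 5) (nat_lit 2) (.n (nat_lit 6) (nat_lit 3) (.n (nat_lit 7) (nat_lit 3) (.p (nat_lit 8) (nat_lit 2) (.n (nat_lit 12) (nat_lit 2) (.n (nat_lit 15) (nat_lit 3) (.p (nat_lit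 16) (nat_lit 3) (.p (nat_lit 17) (nat_lit 1) (.n (nat_lit 18) (nat_lit 2) (.n (nat_lit 19) (nat_lit 3) (.n (nat_lit 23) (nat_lit 1) (.p (nat_lit 24) (nat_lit 1) (.p (nat_lit 25) (nat_lit 1) (.p (nat_lit 26) (nat_lit 1) (.p (nat_lit 27) (nat_lit 1) (.n (nat_lit 30) (nat_lit 1) (.p (nat_lit 33) (nat_lit 2) .z)))))))))))))))))))) .nil)))))))))))))))))))))))))

noncomputable def dC1b_i102 : IL := (.e false (nat_lit 3) (nat_lit 155) (nat_lit 0) (nat_lit 14) (.e false (nat_lit 1) (nat_lit 153) (nat_lit 0) (nat_lit 14) (.e true (nat_lit 1) (nat_lit 154) (nat_lit 0) (nat_lit 14) (.e true (nat_lit 3) (nat_lit 156) (nat_lit 0) (nat_lit 14) (.e true (nat_lit 3) (nat_lit 162) (nat_lit 0) (nat_lit 14) (.e false (nat_lit 3) (nat_lit 170) (nat_lit 0) (nat_lit 14) (.e false (nat_lit 2) (nat_lit 157) (nat_lit 0) (nat_lit 14) (.e false (nat_lit 3) (nat_lit 151) (nat_lit 1) (nat_lit 13) (.e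 false (nat_lit 1) (nat_lit 167) (nat_lit 0) (nat_lit 14) (.e true (nat_lit 3) (nat_lit 171) (nat_lit 0) (nat_lit 14) (.e true (nat_lit 1) (nat_lit 107) (nat_lit 2) (nat_lit 12) (.e true (nat_lit 1) (nat_lit 112) (nat_lit 2) (nat_lit 12) (.e false (nat_lit 1) (nat_lit 114) (nat_lit 2) (nat_lit 12) (.e true (nat_lit 3) (nat_lit 126) (nat_lit 2) (nat_lit 12) (.e true (nat_lit 3) (nat_lit 129) (nat_lit 2) (nat_lit 12) (.e false (nat_lit 1) (nat_lit 132) (nat_lit 1) (nat_lit 13) (.e true (nat_lit 1) (nat_lit 133) (nat_lit 1) (nat_lit 13) (.e false (nat_lit 2) (nat_lit 134) (nat_lit 1) (nat_lit 13) (.e false (nat_lit 1) (nat_lit 135) (nat_lit 1) (nat_lit 13) (.e false (nat_lit 3) (nat_lit 138) (nat_lit 1) (nat_lit 13) (.e true (nat_lit 3) (nat_lit 141) (nat_lit 1) (nat_lit 13) (.e false (nat_lit 2) (nat_lit 142) (nat_lit 1) (nat_lit 13) (.e false (nat_lit 3) (nat_lit 19) (nat_lit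 18) (nat_lit 0) (.e true (nat_lit 3) (nat_lit 149) (nat_lit 1) (nat_lit 13) (.u (nat_lit 2) (.p (nat_lit 0) (nat_lit 2) (.n (nat_lit 1) (nat_lit 1) (.n (nat_lit 2) (nat_lit 3) (.p (nat_lit 3) (nat_lit 5) (.n (nat_lit 4) (nat_lit 3) (.n (nat_lit 5) (nat_lit 2) (.n (nat_lit 6) (nat_lit 1) (.n (nat_lit 7) (nat_lit 2) (.p (nat_lit 8) (nat_lit 1) (.p (nat_lit 9) (nat_lit 3) (.p (nat_lit 10) (nat_lit 2) (.p (nat_lit 11) (nat_lit 6) (.p (nat_lit 13) (nat_lit 2) (.p (nat_lit 14) (nat_lit 3) (.n (nat_lit 15) (nat_lit 2) (.n (nat_lit 17) (nat_lit 2) (.p (nat_lit 18) (nat_lit 3) (.n (nat_lit 19) (nat_lit 3) (.p (nat_lit 20) (nat_lit 1) (.p (nat_lit 21) (nat_lit 1) (.p (nat_lit 22) (nat_lit 4) (.p (nat_lit 23) (nat_lit 5) (.p (nat_lit 24) (nat_lit 4) (.p (nat_lit 25) (nat_lit 3) (.n (nat_lit 26) (nat_lit 1) (.n (nat_lit 27) (nat_lit 3) (.n (nat_lit 28) (nat_lit 1) (.n (nat_lit 29)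 (nat_lit 2) (.n (nat_lit 31) (nat_lit 3) (.n (nat_lit 32) (nat_lit 1) (.n (nat_lit 33) (nat_lit 1) (.n (nat_lit 35) (nat_lit 1) (.p (nat_lit 36) (nat_lit 1) (.n (nat_lit 37) (nat_lit 2) (.p (nat_lit 126) (nat_lit 1) (.p (nat_lit 128) (nat_lit 1) (.p (nat_lit 136) (nat_lit 1) (.p (nat_lit 141) (nat_lit 1) (.n (nat_lit 143) (nat_lit 1) (.n (nat_lit 161) (nat_lit 1) (.p (nat_lit 162) (nat_lit 1) (.p (nat_lit 163) (nat_lit 1) (.n (nat_lit 164) (nat_lit 1) (.p (nat_lit 171) (nat_lit 1) (.n (nat_lit 182) (nat_lit 1) (.p (nat_lit 183) (nat_lit 4) (.p (nat_lit 185) (nat_lit 3) (.p (nat_lit 186) (nat_lit 1) (.p (nat_lit 190) (nat_lit 3) (.n (nat_lit 191) (nat_lit 3) (.n (nat_lit 192) (nat_lit 3) (.n (nat_lit 196) (nat_lit 1) (.n (nat_lit 199) (nat_lit 3) (.p (nat_lit 202) (nat_lit 3) .z)))))))))))))))))))))))))))))))))))))))))))))))))))))) .nil)))))))))))))))))))))))))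

noncomputable def dC1b_i103 : IL := (.e true (nat_lit 1) (nat_lit 141) (nat_lit 2) (nat_lit 10) (.e true (nat_lit 1) (nat_lit 142) (nat_lit 2) (nat_lit 10) (.e false (nat_lit 1) (nat_lit 143) (nat_lit 2) (nat_lit 10) (.e true (nat_lit 1) (nat_lit 144) (nat_lit 2) (nat_lit 10) (.e true (nat_lit 2) (nat_lit 145) (nat_lit 2) (nat_lit 10) (.e false (nat_lit 3) (nat_lit 146) (nat_lit 2) (nat_lit 10) (.e false (nat_lit 3) (nat_lit 150) (nat_lit 2) (nat_lit 10) (.e true (nat_lit 3) (nat_lit 151) (nat_lit 2) (nat_lit 10) (.e true (nat_lit 3) (nat_lit 149) (nat_lit 2) (nat_lit 10) (.e true (nat_lit 2) (nat_lit 56) (nat_lit 6) (nat_lit 6) (.e false (nat_lit 1) (nat_lit 57) (nat_lit 6) (nat_lit 6) (.e false (nat_lit 1) (nat_lit 62) (nat_lit 6) (nat_lit 6) (.e false (nat_lit 1) (nat_lit 65) (nat_lit 6) (nat_lit 6) (.e false (nat_lit 3) (nat_lit 137) (nat_lit 2) (nat_lit 10) (.e false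 (nat_lit 1) (nat_lit 21) (nat_lit 18) (nat_lit 0) (.e false (nat_lit 1) (nat_lit 22) (nat_lit 18) (nat_lit 0) (.e false (nat_lit 3) (nat_lit 28) (nat_lit 17) (nat_lit 1) (.e true (nat_lit 3) (nat_lit 77) (nat_lit 5) (nat_lit 7) (.e true (nat_lit 1) (nat_lit 55) (nat_lit 6) (nat_lit 6) (.e true (nat_lit 1) (nat_lit 148) (nat_lit 2) (nat_lit 10) (.e true (nat_lit 3) (nat_lit 174) (nat_lit 1) (nat_lit 11) (.e false (nat_lit 1) (nat_lit 180) (nat_lit 0) (nat_lit 12) (.e false (nat_lit 1) (nat_lit 181) (nat_lit 0) (nat_lit 12) (.e false (nat_lit 1) (nat_lit 46) (nat_lit 7) (nat_lit 5) (.u (nat_lit 2) (.n (nat_lit 4) (nat_lit 1) (.p (nat_lit 5) (nat_lit 1) (.n (nat_lit 13) (nat_lit 1) (.p (nat_lit 14) (nat_lit 1) (.n (nat_lit 32) (nat_lit 1) (.p (nat_lit 35) (nat_lit 1) (.n (nat_lit 42) (nat_lit 1) (.p (nat_lit 62) (nat_lit 1) (.p (nat_lit 63) (nat_lit 1) (.p (nat_lit 65) (nat_lit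 1) (.p (nat_lit 66) (nat_lit 1) (.p (nat_lit 67) (nat_lit 1) (.p (nat_lit 68) (nat_lit 1) (.p (nat_lit 69) (nat_lit 1) (.p (nat_lit 70) (nat_lit 2) (.n (nat_lit 71) (nat_lit 2) (.n (nat_lit 74) (nat_lit 1) (.p (nat_lit 75) (nat_lit 1) (.p (nat_lit 76) (nat_lit 1) (.n (nat_lit 79) (nat_lit 1) (.p (nat_lit 80) (nat_lit 1) (.n (nat_lit 94) (nat_lit 1) (.n (nat_lit 96) (nat_lit 1) (.n (nat_lit 97) (nat_lit 4) (.n (nat_lit 98) (nat_lit 3) (.p (nat_lit 100) (nat_lit 2) (.n (nat_lit 101) (nat_lit 4) (.n (nat_lit 103) (nat_lit 3) (.n (nat_lit 104) (nat_lit 3) (.p (nat_lit 105) (nat_lit 5) (.n (nat_lit 106) (nat_lit 3) (.p (nat_lit 107) (nat_lit 1) (.n (nat_lit 108) (nat_lit 7) (.n (nat_lit 109) (nat_lit 3) (.p (nat_lit 110) (nat_lit 4) (.n (nat_lit 111) (nat_lit 1) (.p (nat_lit 112) (nat_lit 1) (.n (nat_lit 113) (nat_lit 4) (.p (nat_lit 114) (nat_lit 1) (.n (nat_lit 115) (nat_lit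 3) (.n (nat_lit 116) (nat_lit 6) (.n (nat_lit 117) (nat_lit 1) (.p (nat_lit 118) (nat_lit 4) (.p (nat_lit 119) (nat_lit 2) (.n (nat_lit 120) (nat_lit 1) (.p (nat_lit 122) (nat_lit 2) (.p (nat_lit 123) (nat_lit 2) (.p (nat_lit 124) (nat_lit 1) (.p (nat_lit 126) (nat_lit 2) (.n (nat_lit 127) (nat_lit 1) (.p (nat_lit 128) (nat_lit 2) (.p (nat_lit 129) (nat_lit 3) (.p (nat_lit 130) (nat_lit 3) (.n (nat_lit 132) (nat_lit 3) (.n (nat_lit 138) (nat_lit 1) .z))))))))))))))))))))))))))))))))))))))))))))))))))))))) .nil)))))))))))))))))))))))))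

noncomputable def dC1b_i104 : IL := (.s true (nat_lit 3) (nat_lit 32) (nat_lit 0) (nat_lit 2) (nat_lit 2) true (nat_lit 8) true (nat_lit 10) false (nat_lit 2) true (nat_lit 12) true (nat_lit 10) (.s false (nat_lit 1) (nat_lit 33) (nat_lit 0) (nat_lit 2) (nat_lit 2) true (nat_lit 8) true (nat_lit 10) false (nat_lit 2) true (nat_lit 12) true (nat_lit 10) (.s true (nat_lit 3) (nat_lit 34) (nat_lit 0) (nat_lit 2) (nat_lit 2) true (nat_lit 8) true (nat_lit 10) false (nat_lit 2) true (nat_lit 12) true (nat_lit 10) (.s true (nat_lit 1) (nat_lit 32) (nat_lit 2) (nat_lit 0) (nat_lit 2) true (nat_lit 6) true (nat_lit 10) false (nat_lit 2) true (nat_lit 10) true (nat_lit 12) (.s true (nat_lit 3) (nat_lit 35) (nat_lit 2) (nat_lit 0) (nat_lit 2) true (nat_lit 6) true (nat_lit 10) false (nat_lit 2) true (nat_lit 10) true (nat_lit 12) (.s false (nat_lit 1) (nat_lit 31) (nat_lit 2) (nat_lit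 2) (nat_lit 0) true (nat_lit 8) true (nat_lit 12) false (nat_lit 2) true (nat_lit 10) true (nat_lit 10) (.s false (nat_lit 3) (nat_lit 32) (nat_lit 2) (nat_lit 2) (nat_lit 0) true (nat_lit 8) true (nat_lit 12) false (nat_lit 2) true (nat_lit 10) true (nat_lit 10) (.s false (nat_lit 1) (nat_lit 33) (nat_lit 2) (nat_lit 2) (nat_lit 0) true (nat_lit 8) true (nat_lit 12) false (nat_lit 2) true (nat_lit 10) true (nat_lit 10) (.s true (nat_lit 1) (nat_lit 34) (nat_lit 2) (nat_lit 2) (nat_lit 0) true (nat_lit 8) true (nat_lit 12) false (nat_lit 2) true (nat_lit 10) true (nat_lit 10) (.s false (nat_lit 1) (nat_lit 35) (nat_lit 2) (nat_lit 2) (nat_lit 0) true (nat_lit 8) true (nat_lit 12) false (nat_lit 2) true (nat_lit 10) true (nat_lit 10) (.s false (nat_lit 1) (nat_lit 36) (nat_lit 2) (nat_lit 2) (nat_lit 0) true (nat_lit 8) true (nat_lit 12) false (nat_lit 2) true (nat_lit 10)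 true (nat_lit 10) (.s true (nat_lit 2) (nat_lit 40) (nat_lit 0) (nat_lit 1) (nat_lit 2) true (nat_lit 8) true (nat_lit 10) false (nat_lit 3) true (nat_lit 12) true (nat_lit 11) (.s false (nat_lit 1) (nat_lit 40) (nat_lit 1) (nat_lit 2) (nat_lit 0) true (nat_lit 9) true (nat_lit 12) false (nat_lit 3) true (nat_lit 11) true (nat_lit 10) (.s true (nat_lit 3) (nat_lit 42) (nat_lit 2) (nat_lit 0) (nat_lit 1) true (nat_lit 7) true (nat_lit 11) false (nat_lit 3) true (nat_lit 10) true (nat_lit 12) (.s false (nat_lit 3) (nat_lit 40) (nat_lit 2) (nat_lit 1) (nat_lit 0) true (nat_lit 8) true (nat_lit 12) false (nat_lit 3) true (nat_lit 10) true (nat_lit 11) (.s false (nat_lit 2) (nat_lit 46) (nat_lit 0) (nat_lit 1) (nat_lit 0) false (nat_lit 13) true (nat_lit 12) false (nat_lit 5) true (nat_lit 12) true (nat_lit 11) (.s true (nat_lit 2) (nat_lit 46) (nat_lit 1) (nat_lit 0) (nat_lit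 0) true (nat_lit 9) true (nat_lit 12) false (nat_lit 5) true (nat_lit 11) true (nat_lit 12) (.e true (nat_lit 1) (nat_lit 31) (nat_lit 14) (nat_lit 2) (.e true (nat_lit 2) (nat_lit 152) (nat_lit 2) (nat_lit 10) (.e false (nat_lit 3) (nat_lit 132) (nat_lit 2) (nat_lit 10) (.e false (nat_lit 1) (nat_lit 134) (nat_lit 2) (nat_lit 10) (.e true (nat_lit 1) (nat_lit 135) (nat_lit 2) (nat_lit 10) (.e true (nat_lit 2) (nat_lit 138) (nat_lit 2) (nat_lit 10) (.e false (nat_lit 2) (nat_lit 139) (nat_lit 2) (nat_lit 10) (.e true (nat_lit 1) (nat_lit 140) (nat_lit 2) (nat_lit 10) dC1b_i103)))))))))))))))))))))))))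

noncomputable def dC1b_i105 : IL := (.s true (nat_lit 2) (nat_lit 12) (nat_lit 2) (nat_lit 4) (nat_lit 2) true (nat_lit 6) true (nat_lit 10) true (nat_lit 3) true (nat_lit 10) true (nat_lit 8) (.s true (nat_lit 1) (nat_lit 10) (nat_lit 2) (nat_lit 6) (nat_lit 0) true (nat_lit 8) true (nat_lit 12) true (nat_lit 3) true (nat_lit 10) true (nat_lit 6) (.s true (nat_lit 3) (nat_lit 11) (nat_lit 2) (nat_lit 6) (nat_lit 0) true (nat_lit 8) true (nat_lit 12) true (nat_lit 3) true (nat_lit 10) true (nat_lit 6) (.s false (nat_lit 3) (nat_lit 14) (nat_lit 1) (nat_lit 0) (nat_lit 6) true (nat_lit 1) true (nat_lit 6) true (nat_lit 2) true (nat_lit 11) true (nat_lit 12) (.s false (nat_lit 2) (nat_lit 14) (nat_lit 1) (nat_lit 4) (nat_lit 2) true (nat_lit 7) true (nat_lit 10) true (nat_lit 2) true (nat_lit 11) true (nat_lit 8) (.s false (nat_lit 2) (nat_lit 15) (nat_lit 1) (nat_lit 6)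 (nat_lit 0) true (nat_lit 9) true (nat_lit 12) true (nat_lit 2) true (nat_lit 11) true (nat_lit 6) (.s false (nat_lit 1) (nat_lit 15) (nat_lit 2) (nat_lit 0) (nat_lit 5) true (nat_lit 1) true (nat_lit 7) true (nat_lit 2) true (nat_lit 10) true (nat_lit 12) (.s false (nat_lit 1) (nat_lit 14) (nat_lit 2) (nat_lit 3) (nat_lit 2) true (nat_lit 6) true (nat_lit 10) true (nat_lit 2) true (nat_lit 10) true (nat_lit 9) (.s false (nat_lit 3) (nat_lit 15) (nat_lit 2) (nat_lit 3) (nat_lit 2) true (nat_lit 6) true (nat_lit 10) true (nat_lit 2) true (nat_lit 10) true (nat_lit 9) (.s false (nat_lit 1) (nat_lit 15) (nat_lit 2) (nat_lit 4) (nat_lit 1) true (nat_lit 7) true (nat_lit 11) true (nat_lit 2) true (nat_lit 10) true (nat_lit 8) (.s true (nat_lit 2) (nat_lit 14) (nat_lit 3) (nat_lit 2) (nat_lit 2) true (nat_lit 3) true (nat_lit 10) true (nat_lit 2) true (nat_lit 9) true (nat_lit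 10) (.s false (nat_lit 1) (nat_lit 15) (nat_lit 3) (nat_lit 2) (nat_lit 2) true (nat_lit 3) true (nat_lit 10) true (nat_lit 2) true (nat_lit 9) true (nat_lit 10) (.s true (nat_lit 2) (nat_lit 14) (nat_lit 5) (nat_lit 0) (nat_lit 2) true (nat_lit 1) true (nat_lit 10) true (nat_lit 2) true (nat_lit 7) true (nat_lit 12) (.s false (nat_lit 2) (nat_lit 15) (nat_lit 6) (nat_lit 0) (nat_lit 1) true (nat_lit 1) true (nat_lit 11) true (nat_lit 2) true (nat_lit 6) true (nat_lit 12) (.s true (nat_lit 2) (nat_lit 18) (nat_lit 0) (nat_lit 2) (nat_lit 3) true (nat_lit 5) true (nat_lit 9) true (nat_lit 0) true (nat_lit 12) true (nat_lit 10) (.s false (nat_lit 3) (nat_lit 18) (nat_lit 0) (nat_lit 5) (nat_lit 0) false (nat_lit 13) true (nat_lit 12) true (nat_lit 0) true (nat_lit 12) true (nat_lit 7) (.s false (nat_lit 1) (nat_lit 18) (nat_lit 3) (nat_lit 2) (nat_lit 0) true (nat_lit 5)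 true (nat_lit 12) true (nat_lit 0) true (nat_lit 9) true (nat_lit 10) (.s false (nat_lit 2) (nat_lit 29) (nat_lit 1) (nat_lit 2) (nat_lit 2) true (nat_lit 7) true (nat_lit 10) false (nat_lit 1) true (nat_lit 11) true (nat_lit 10) (.s false (nat_lit 3) (nat_lit 30) (nat_lit 1) (nat_lit 2) (nat_lit 2) true (nat_lit 7) true (nat_lit 10) false (nat_lit 1) true (nat_lit 11) true (nat_lit 10) (.s false (nat_lit 2) (nat_lit 28) (nat_lit 2) (nat_lit 1) (nat_lit 2) true (nat_lit 6) true (nat_lit 10) false (nat_lit 1) true (nat_lit 10) true (nat_lit 11) (.s true (nat_lit 3) (nat_lit 29) (nat_lit 2) (nat_lit 1) (nat_lit 2) true (nat_lit 6) true (nat_lit 10) false (nat_lit 1) true (nat_lit 10) true (nat_lit 11) (.s false (nat_lit 2) (nat_lit 30) (nat_lit 2) (nat_lit 1) (nat_lit 2) true (nat_lit 6) true (nat_lit 10) false (nat_lit 1) true (nat_lit 10) true (nat_lit 11) (.s false (nat_lit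 3) (nat_lit 29) (nat_lit 2) (nat_lit 2) (nat_lit 1) true (nat_lit 7) true (nat_lit 11) false (nat_lit 1) true (nat_lit 10) true (nat_lit 10) (.s true (nat_lit 2) (nat_lit 30) (nat_lit 2) (nat_lit 2) (nat_lit 1) true (nat_lit 7) true (nat_lit 11) false (nat_lit 1) true (nat_lit 10) true (nat_lit 10) (.s false (nat_lit 1) (nat_lit 31) (nat_lit 0) (nat_lit 2) (nat_lit 2) true (nat_lit 8) true (nat_lit 10) false (nat_lit 2) true (nat_lit 12) true (nat_lit 10) dC1b_i104)))))))))))))))))))))))))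

noncomputable def dC1b_i106 : IL := (.e false (nat_lit 2) (nat_lit 160) (nat_lit 2) (nat_lit 10) (.e true (nat_lit 2) (nat_lit 161) (nat_lit 2) (nat_lit 10) (.e false (nat_lit 3) (nat_lit 163) (nat_lit 2) (nat_lit 10) (.e false (nat_lit 1) (nat_lit 167) (nat_lit 2) (nat_lit 10) (.e false (nat_lit 1) (nat_lit 168) (nat_lit 2) (nat_lit 10) (.e false (nat_lit 2) (nat_lit 170) (nat_lit 2) (nat_lit 10) (.e true (nat_lit 1) (nat_lit 173) (nat_lit 2) (nat_lit 10) (.e true (nat_lit 1) (nat_lit 27) (nat_lit 18) (nat_lit 0) (.e false (nat_lit 1) (nat_lit 67) (nat_lit 6) (nat_lit 6) (.e false (nat_lit 1) (nat_lit 75) (nat_lit 6) (nat_lit 6) (.e true (nat_lit 1) (nat_lit 158) (nat_lit 2) (nat_lit 10) (.e true (nat_lit 3) (nat_lit 162) (nat_lit 2) (nat_lit 10) (.e true (nat_lit 3) (nat_lit 165) (nat_lit 2) (nat_lit 10) (.e true (nat_lit 2) (nat_lit 181) (nat_lit 1) (nat_lit 11) (.e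 true (nat_lit 1) (nat_lit 103) (nat_lit 3) (nat_lit 9) (.e false (nat_lit 1) (nat_lit 105) (nat_lit 3) (nat_lit 9) (.e true (nat_lit 2) (nat_lit 180) (nat_lit 1) (nat_lit 11) (.e true (nat_lit 1) (nat_lit 185) (nat_lit 1) (nat_lit 11) (.e false (nat_lit 2) (nat_lit 188) (nat_lit 1) (nat_lit 11) (.e false (nat_lit 2) (nat_lit 189) (nat_lit 1) (nat_lit 11) (.e true (nat_lit 2) (nat_lit 192) (nat_lit 1) (nat_lit 11) (.e false (nat_lit 1) (nat_lit 183) (nat_lit 1) (nat_lit 11) (.e true (nat_lit 1) (nat_lit 46) (nat_lit 8) (nat_lit 5) (.e false (nat_lit 1) (nat_lit 182) (nat_lit 1) (nat_lit 11) (.u (nat_lit 2) (.n (nat_lit 0) (nat_lit 1) (.n (nat_lit 1) (nat_lit 1) (.n (nat_lit 2) (nat_lit 2) (.p (nat_lit 3) (nat_lit 1) (.n (nat_lit 4) (nat_lit 1) (.n (nat_lit 5) (nat_lit 1) (.n (nat_lit 6) (nat_lit 1) (.p (nat_lit 7) (nat_lit 1) (.p (nat_lit 9) (nat_lit 1) (.p (nat_lit 10)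 (nat_lit 1) (.p (nat_lit 11) (nat_lit 2) (.n (nat_lit 18) (nat_lit 2) (.n (nat_lit 26) (nat_lit 1) (.p (nat_lit 27) (nat_lit 1) (.n (nat_lit 106) (nat_lit 1) (.p (nat_lit 116) (nat_lit 1) .z)))))))))))))))) .nil)))))))))))))))))))))))))

noncomputable def dC1b_i107 : IL := (.e false (nat_lit 1) (nat_lit 148) (nat_lit 5) (nat_lit 14) (.e false (nat_lit 1) (nat_lit 224) (nat_lit 2) (nat_lit 17) (.e false (nat_lit 3) (nat_lit 260) (nat_lit 1) (nat_lit 18) (.e false (nat_lit 3) (nat_lit 261) (nat_lit 1) (nat_lit 18) (.e false (nat_lit 2) (nat_lit 262) (nat_lit 1) (nat_lit 18) (.e false (nat_lit 2) (nat_lit 263) (nat_lit 1) (nat_lit 18) (.e false (nat_lit 2) (nat_lit 264) (nat_lit 1) (nat_lit 18) (.e true (nat_lit 3) (nat_lit 265) (nat_lit 1) (nat_lit 18) (.e true (nat_lit 1) (nat_lit 266) (nat_lit 1) (nat_lit 18) (.e false (nat_lit 2) (nat_lit 267) (nat_lit 1) (nat_lit 18)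 (.e true (nat_lit 1) (nat_lit 268) (nat_lit 1) (nat_lit 18) (.e false (nat_lit 1) (nat_lit 269) (nat_lit 1) (nat_lit 18) (.e true (nat_lit 1) (nat_lit 270) (nat_lit 1) (nat_lit 18) (.e true (nat_lit 2) (nat_lit 271) (nat_lit 1) (nat_lit 18) (.e false (nat_lit 2) (nat_lit 273) (nat_lit 1) (nat_lit 18) (.e true (nat_lit 1) (nat_lit 274) (nat_lit 1) (nat_lit 18) (.e true (nat_lit 1) (nat_lit 276) (nat_lit 1) (nat_lit 18) (.e true (nat_lit 2) (nat_lit 277) (nat_lit 1) (nat_lit 18) (.e true (nat_lit 1) (nat_lit 278) (nat_lit 1) (nat_lit 18) (.e true (nat_lit 3) (nat_lit 279) (nat_lit 1) (nat_lit 18) (.e true (nat_lit 1) (nat_lit 280) (nat_lit 1) (nat_lit 18) (.e false (nat_lit 1) (nat_lit 284) (nat_lit 1) (nat_lit 18) (.e true (nat_lit 1) (nat_lit 287) (nat_lit 1) (nat_lit 18) (.e true (nat_lit 1) (nat_lit 312) (nat_lit 0) (nat_lit 19) (.u (nat_lit 2) (.p (nat_lit 0) (nat_lit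 3) (.n (nat_lit 1) (nat_lit 1) (.n (nat_lit 2) (nat_lit 1) (.p (nat_lit 3) (nat_lit 1) (.p (nat_lit 4) (nat_lit 1) (.n (nat_lit 8) (nat_lit 2) (.n (nat_lit 11) (nat_lit 1) (.p (nat_lit 12) (nat_lit 1) (.p (nat_lit 14) (nat_lit 2) (.n (nat_lit 15) (nat_lit 1) (.n (nat_lit 17) (nat_lit 1) (.n (nat_lit 19) (nat_lit 2) (.n (nat_lit 20) (nat_lit 2) (.n (nat_lit 26) (nat_lit 1) (.p (nat_lit 27) (nat_lit 1) (.p (nat_lit 28) (nat_lit 1) (.p (nat_lit 30) (nat_lit 1) (.p (nat_lit 31) (nat_lit 2) (.p (nat_lit 32) (nat_lit 2) (.n (nat_lit 34) (nat_lit 1) (.n (nat_lit 35) (nat_lit 1) (.p (nat_lit 36) (nat_lit 2) (.n (nat_lit 37) (nat_lit 1) (.n (nat_lit 38) (nat_lit 1) (.n (nat_lit 40) (nat_lit 2) (.n (nat_lit 41) (nat_lit 2) .z)))))))))))))))))))))))))) .nil)))))))))))))))))))))))))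

noncomputable def dC1b_i108 : IL := (.e true (nat_lit 2) (nat_lit 215) (nat_lit 2) (nat_lit 17) (.e false (nat_lit 2) (nat_lit 216) (nat_lit 2) (nat_lit 17) (.e false (nat_lit 1) (nat_lit 217) (nat_lit 2) (nat_lit 17) (.e true (nat_lit 3) (nat_lit 218) (nat_lit 2) (nat_lit 17) (.e false (nat_lit 3) (nat_lit 219) (nat_lit 2) (nat_lit 17) (.e false (nat_lit 2) (nat_lit 221) (nat_lit 2) (nat_lit 17) (.e true (nat_lit 2) (nat_lit 222) (nat_lit 2) (nat_lit 17) (.e true (nat_lit 2) (nat_lit 223) (nat_lit 2) (nat_lit 17) (.e true (nat_lit 1) (nat_lit 226) (nat_lit 2) (nat_lit 17) (.e true (nat_lit 3) (nat_lit 227) (nat_lit 2) (nat_lit 17) (.e true (nat_lit 3) (nat_lit 229) (nat_lit 2) (nat_lit 17) (.e false (nat_lit 2) (nat_lit 231) (nat_lit 2) (nat_lit 17) (.e true (nat_lit 3) (nat_lit 232) (nat_lit 2) (nat_lit 17) (.e true (nat_lit 1) (nat_lit 233) (nat_lit 2) (nat_lit 17)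 (.e true (nat_lit 2) (nat_lit 234) (nat_lit 2) (nat_lit 17) (.e true (nat_lit 3) (nat_lit 235) (nat_lit 2) (nat_lit 17) (.e false (nat_lit 2) (nat_lit 236) (nat_lit 2) (nat_lit 17) (.e true (nat_lit 1) (nat_lit 237) (nat_lit 2) (nat_lit 17) (.e false (nat_lit 2) (nat_lit 238) (nat_lit 2) (nat_lit 17) (.e false (nat_lit 2) (nat_lit 239) (nat_lit 2) (nat_lit 17) (.e true (nat_lit 3) (nat_lit 240) (nat_lit 2) (nat_lit 17) (.e false (nat_lit 1) (nat_lit 241) (nat_lit 2) (nat_lit 17) (.e true (nat_lit 1) (nat_lit 247) (nat_lit 2) (nat_lit 17) (.e true (nat_lit 1) (nat_lit 302) (nat_lit 0) (nat_lit 19) (.u (nat_lit 2) (.p (nat_lit 0) (nat_lit 4) (.n (nat_lit 1) (nat_lit 1) (.n (nat_lit 2) (nat_lit 5) (.n (nat_lit 3) (nat_lit 1) (.n (nat_lit 4) (nat_lit 2) (.p (nat_lit 5) (nat_lit 4) (.p (nat_lit 6) (nat_lit 3) (.n (nat_lit 7) (nat_lit 4) (.p (nat_lit 8) (nat_lit 2) (.p (nat_lit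 9) (nat_lit 1) (.n (nat_lit 10) (nat_lit 3) (.p (nat_lit 11) (nat_lit 2) (.p (nat_lit 12) (nat_lit 1) (.n (nat_lit 13) (nat_lit 2) (.n (nat_lit 14) (nat_lit 2) (.p (nat_lit 15) (nat_lit 5) (.p (nat_lit 17) (nat_lit 2) (.p (nat_lit 18) (nat_lit 3) (.n (nat_lit 19) (nat_lit 2) (.n (nat_lit 27) (nat_lit 1) (.p (nat_lit 28) (nat_lit 1) (.p (nat_lit 29) (nat_lit 1) (.p (nat_lit 30) (nat_lit 4) (.n (nat_lit 31) (nat_lit 2) (.n (nat_lit 33) (nat_lit 3) (.p (nat_lit 34) (nat_lit 3) (.p (nat_lit 35) (nat_lit 1) (.n (nat_lit 36) (nat_lit 1) (.p (nat_lit 37) (nat_lit 1) (.n (nat_lit 38) (nat_lit 3) (.n (nat_lit 39) (nat_lit 1) (.p (nat_lit 40) (nat_lit 3) (.n (nat_lit 41) (nat_lit 1) (.p (nat_lit 50) (nat_lit 1) (.n (nat_lit 51) (nat_lit 1) (.p (nat_lit 54) (nat_lit 1) (.n (nat_lit 57) (nat_lit 3) (.p (nat_lit 58) (nat_lit 2) (.n (nat_lit 60) (nat_lit 1) (.n (nat_lit 61) (nat_lit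 1) (.p (nat_lit 62) (nat_lit 1) (.p (nat_lit 63) (nat_lit 1) (.p (nat_lit 69) (nat_lit 2) (.n (nat_lit 70) (nat_lit 2) .z)))))))))))))))))))))))))))))))))))))))))))) .nil)))))))))))))))))))))))))

noncomputable def dC1b_i109 : IL := (.e false (nat_lit 1) (nat_lit 181) (nat_lit 3) (nat_lit 16) (.e true (nat_lit 1) (nat_lit 302) (nat_lit 0) (nat_lit 19) (.e false (nat_lit 3) (nat_lit 260) (nat_lit 1) (nat_lit 18) (.e false (nat_lit 3) (nat_lit 261) (nat_lit 1) (nat_lit 18) (.e false (nat_lit 2) (nat_lit 262) (nat_lit 1) (nat_lit 18) (.e false (nat_lit 2) (nat_lit 263) (nat_lit 1) (nat_lit 18) (.e false (nat_lit 2) (nat_lit 264) (nat_lit 1) (nat_lit 18) (.e true (nat_lit 3) (nat_lit 265) (nat_lit 1) (nat_lit 18) (.e true (nat_lit 1) (nat_lit 266) (nat_lit 1) (nat_lit 18) (.e false (nat_lit 2) (nat_lit 267) (nat_lit 1) (nat_lit 18) (.e true (nat_lit 1) (nat_lit 268) (nat_lit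 1) (nat_lit 18) (.e false (nat_lit 1) (nat_lit 269) (nat_lit 1) (nat_lit 18) (.e true (nat_lit 1) (nat_lit 270) (nat_lit 1) (nat_lit 18) (.e true (nat_lit 2) (nat_lit 271) (nat_lit 1) (nat_lit 18) (.e false (nat_lit 2) (nat_lit 273) (nat_lit 1) (nat_lit 18) (.e true (nat_lit 1) (nat_lit 274) (nat_lit 1) (nat_lit 18) (.e true (nat_lit 1) (nat_lit 276) (nat_lit 1) (nat_lit 18) (.e true (nat_lit 2) (nat_lit 277) (nat_lit 1) (nat_lit 18) (.e true (nat_lit 1) (nat_lit 278) (nat_lit 1) (nat_lit 18) (.e true (nat_lit 3) (nat_lit 279) (nat_lit 1) (nat_lit 18) (.e true (nat_lit 1) (nat_lit 280) (nat_lit 1) (nat_lit 18) (.e false (nat_lit 1) (nat_lit 284) (nat_lit 1) (nat_lit 18) (.e true (nat_lit 1) (nat_lit 287) (nat_lit 1) (nat_lit 18) (.e false (nat_lit 1) (nat_lit 247) (nat_lit 2) (nat_lit 17) (.u (nat_lit 2) (.p (nat_lit 0) (nat_lit 2) (.n (nat_lit 1) (nat_lit 1) (.n (nat_lit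 2) (nat_lit 1) (.p (nat_lit 4) (nat_lit 1) (.n (nat_lit 6) (nat_lit 1) (.p (nat_lit 7) (nat_lit 1) (.n (nat_lit 8) (nat_lit 3) (.n (nat_lit 9) (nat_lit 1) (.n (nat_lit 11) (nat_lit 1) (.p (nat_lit 12) (nat_lit 1) (.p (nat_lit 14) (nat_lit 1) (.n (nat_lit 15) (nat_lit 1) (.n (nat_lit 17) (nat_lit 1) (.n (nat_lit 19) (nat_lit 2) (.n (nat_lit 20) (nat_lit 2) (.p (nat_lit 27) (nat_lit 2) (.p (nat_lit 28) (nat_lit 2) (.p (nat_lit 30) (nat_lit 1) (.p (nat_lit 31) (nat_lit 3) (.p (nat_lit 32) (nat_lit 1) (.n (nat_lit 34) (nat_lit 1) (.n (nat_lit 35) (nat_lit 2) (.p (nat_lit 36) (nat_lit 2) (.n (nat_lit 38) (nat_lit 1) (.n (nat_lit 40) (nat_lit 2) (.n (nat_lit 41) (nat_lit 1) .z)))))))))))))))))))))))))) .nil)))))))))))))))))))))))))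

noncomputable def dC1b_i110 : IL := (.s false (nat_lit 1) (nat_lit 83) (nat_lit 2) (nat_lit 2) (nat_lit 0) true (nat_lit 11) true (nat_lit 15) false (nat_lit 5) true (nat_lit 13) true (nat_lit 13) (.e false (nat_lit 1) (nat_lit 181) (nat_lit 4) (nat_lit 11) (.e false (nat_lit 1) (nat_lit 329) (nat_lit 0) (nat_lit 15) (.e false (nat_lit 3) (nat_lit 260) (nat_lit 2) (nat_lit 13) (.e false (nat_lit 3) (nat_lit 261) (nat_lit 2) (nat_lit 13) (.e false (nat_lit 2) (nat_lit 262) (nat_lit 2) (nat_lit 13) (.e false (nat_lit 2) (nat_lit 263) (nat_lit 2) (nat_lit 13) (.e false (nat_lit 2) (nat_lit 264) (nat_lit 2) (nat_lit 13) (.e true (nat_lit 3) (nat_lit 265) (nat_lit 2) (nat_lit 13) (.e true (nat_lit 1) (nat_lit 266) (nat_lit 2) (nat_lit 13) (.e false (nat_lit 2) (nat_lit 267) (nat_lit 2) (nat_lit 13) (.e true (nat_lit 1) (nat_lit 268) (nat_lit 2) (nat_lit 13) (.e false (nat_lit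 1) (nat_lit 269) (nat_lit 2) (nat_lit 13) (.e true (nat_lit 1) (nat_lit 270) (nat_lit 2) (nat_lit 13) (.e true (nat_lit 2) (nat_lit 271) (nat_lit 2) (nat_lit 13) (.e false (nat_lit 2) (nat_lit 273) (nat_lit 2) (nat_lit 13) (.e true (nat_lit 1) (nat_lit 274) (nat_lit 2) (nat_lit 13) (.e true (nat_lit 2) (nat_lit 276) (nat_lit 2) (nat_lit 13) (.e true (nat_lit 2) (nat_lit 277) (nat_lit 2) (nat_lit 13) (.e true (nat_lit 1) (nat_lit 278) (nat_lit 2) (nat_lit 13) (.e true (nat_lit 3) (nat_lit 279) (nat_lit 2) (nat_lit 13) (.e true (nat_lit 1) (nat_lit 280) (nat_lit 2) (nat_lit 13) (.e false (nat_lit 1) (nat_lit 284) (nat_lit 2) (nat_lit 13) (.e true (nat_lit 1) (nat_lit 287) (nat_lit 2) (nat_lit 13) (.u (nat_lit 2) (.n (nat_lit 0) (nat_lit 3) (.p (nat_lit 1) (nat_lit 2) (.n (nat_lit 2) (nat_lit 3) (.p (nat_lit 4) (nat_lit 2) (.p (nat_lit 5) (nat_lit 1) (.n (nat_lit 9) (nat_lit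 4) (.p (nat_lit 13) (nat_lit 1) (.n (nat_lit 15) (nat_lit 1) (.p (nat_lit 16) (nat_lit 4) (.p (nat_lit 17) (nat_lit 1) (.p (nat_lit 18) (nat_lit 1) (.p (nat_lit 19) (nat_lit 3) (.n (nat_lit 22) (nat_lit 1) (.p (nat_lit 27) (nat_lit 1) (.n (nat_lit 30) (nat_lit 3) .z))))))))))))))) .nil)))))))))))))))))))))))))

noncomputable def dC1b_i111 : IL := (.e false (nat_lit 2) (nat_lit 73) (nat_lit 4) (nat_lit 10) (.e true (nat_lit 2) (nat_lit 28) (nat_lit 13) (nat_lit 3) (.e true (nat_lit 2) (nat_lit 29) (nat_lit 13) (nat_lit 3) (.e false (nat_lit 3) (nat_lit 30) (nat_lit 13) (nat_lit 3) (.e false (nat_lit 2) (nat_lit 116) (nat_lit 2) (nat_lit 12) (.e true (nat_lit 2) (nat_lit 119) (nat_lit 2) (nat_lit 12) (.e false (nat_lit 2) (nat_lit 130) (nat_lit 2) (nat_lit 12) (.e true (nat_lit 1) (nat_lit 165) (nat_lit 0) (nat_lit 14) (.e true (nat_lit 2) (nat_lit 164) (nat_lit 0) (nat_lit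 14) (.e false (nat_lit 3) (nat_lit 169) (nat_lit 0) (nat_lit 14) (.e false (nat_lit 2) (nat_lit 60) (nat_lit 5) (nat_lit 9) (.e true (nat_lit 1) (nat_lit 89) (nat_lit 3) (nat_lit 11) (.e false (nat_lit 1) (nat_lit 85) (nat_lit 3) (nat_lit 11) (.e false (nat_lit 3) (nat_lit 112) (nat_lit 2) (nat_lit 12) (.e true (nat_lit 3) (nat_lit 114) (nat_lit 2) (nat_lit 12) (.e true (nat_lit 2) (nat_lit 115) (nat_lit 2) (nat_lit 12) (.e true (nat_lit 2) (nat_lit 125) (nat_lit 2) (nat_lit 12) (.e false (nat_lit 3) (nat_lit 129) (nat_lit 2) (nat_lit 12) (.e true (nat_lit 2) (nat_lit 107) (nat_lit 2) (nat_lit 12) (.e true (nat_lit 1) (nat_lit 121) (nat_lit 2) (nat_lit 12) (.e false (nat_lit 1) (nat_lit 126) (nat_lit 2) (nat_lit 12) (.e true (nat_lit 1) (nat_lit 88) (nat_lit 3) (nat_lit 11) (.e true (nat_lit 1) (nat_lit 41) (nat_lit 8) (nat_lit 6) (.u (nat_lit 2) (.n (nat_lit 0) (nat_lit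 1) (.p (nat_lit 1) (nat_lit 3) (.n (nat_lit 2) (nat_lit 2) (.n (nat_lit 3) (nat_lit 1) (.p (nat_lit 4) (nat_lit 1) (.n (nat_lit 5) (nat_lit 1) (.p (nat_lit 6) (nat_lit 1) (.n (nat_lit 7) (nat_lit 2) (.n (nat_lit 8) (nat_lit 1) (.p (nat_lit 9) (nat_lit 3) (.n (nat_lit 10) (nat_lit 3) (.n (nat_lit 11) (nat_lit 2) (.n (nat_lit 12) (nat_lit 1) (.n (nat_lit 13) (nat_lit 2) (.n (nat_lit 14) (nat_lit 1) (.p (nat_lit 15) (nat_lit 1) (.n (nat_lit 16) (nat_lit 1) (.p (nat_lit 17) (nat_lit 5) (.p (nat_lit 19) (nat_lit 5) (.p (nat_lit 20) (nat_lit 2) (.p (nat_lit 21) (nat_lit 1) (.p (nat_lit 22) (nat_lit 3) (.n (nat_lit 24) (nat_lit 1) (.n (nat_lit 25) (nat_lit 3) (.n (nat_lit 26) (nat_lit 2) (.p (nat_lit 27) (nat_lit 2) (.n (nat_lit 29) (nat_lit 3) (.p (nat_lit 31) (nat_lit 2) (.n (nat_lit 32) (nat_lit 3) (.p (nat_lit 35) (nat_lit 1) (.p (nat_lit 36) (nat_lit 2) (.p (nat_lit 37) (nat_lit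 1) (.p (nat_lit 44) (nat_lit 2) (.n (nat_lit 113) (nat_lit 3) (.n (nat_lit 141) (nat_lit 1) (.p (nat_lit 143) (nat_lit 1) (.p (nat_lit 149) (nat_lit 2) (.n (nat_lit 152) (nat_lit 2) (.n (nat_lit 161) (nat_lit 3) (.p (nat_lit 163) (nat_lit 2) (.n (nat_lit 164) (nat_lit 1) (.p (nat_lit 165) (nat_lit 1) (.p (nat_lit 166) (nat_lit 4) (.p (nat_lit 167) (nat_lit 3) (.n (nat_lit 168) (nat_lit 1) (.n (nat_lit 169) (nat_lit 1) (.n (nat_lit 170) (nat_lit 1) (.p (nat_lit 171) (nat_lit 2) (.n (nat_lit 172) (nat_lit 1) (.p (nat_lit 174) (nat_lit 4) (.p (nat_lit 177) (nat_lit 1) (.p (nat_lit 178) (nat_lit 2) (.p (nat_lit 179) (nat_lit 2) (.n (nat_lit 180) (nat_lit 1) (.n (nat_lit 181) (nat_lit 2) (.n (nat_lit 183) (nat_lit 1) (.n (nat_lit 184) (nat_lit 4) (.p (nat_lit 185) (nat_lit 1) (.n (nat_lit 186) (nat_lit 1) (.p (nat_lit 187) (nat_lit 1) .z))))))))))))))))))))))))))))))))))))))))))))))))))))))))))))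 (.u (nat_lit 2) (.n (nat_lit 188) (nat_lit 2) (.n (nat_lit 190) (nat_lit 2) (.n (nat_lit 191) (nat_lit 1) (.n (nat_lit 192) (nat_lit 2) (.p (nat_lit 193) (nat_lit 1) (.p (nat_lit 194) (nat_lit 1) (.n (nat_lit 195) (nat_lit 1) (.n (nat_lit 196) (nat_lit 1) (.p (nat_lit 197) (nat_lit 1) (.n (nat_lit 198) (nat_lit 1) (.p (nat_lit 199) (nat_lit 3) (.n (nat_lit 200) (nat_lit 4) (.n (nat_lit 201) (nat_lit 2) (.p (nat_lit 202) (nat_lit 2) .z)))))))))))))) .nil)))))))))))))))))))))))))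

noncomputable def dC1b_i112 : IL := (.e false (nat_lit 2) (nat_lit 134) (nat_lit 1) (nat_lit 13) (.e true (nat_lit 2) (nat_lit 135) (nat_lit 1) (nat_lit 13) (.e true (nat_lit 1) (nat_lit 136) (nat_lit 1) (nat_lit 13) (.e true (nat_lit 3) (nat_lit 137) (nat_lit 1) (nat_lit 13) (.e true (nat_lit 1) (nat_lit 140) (nat_lit 1) (nat_lit 13) (.e false (nat_lit 3) (nat_lit 142) (nat_lit 1) (nat_lit 13) (.e false (nat_lit 2) (nat_lit 143) (nat_lit 1) (nat_lit 13) (.e false (nat_lit 2) (nat_lit 144) (nat_lit 1) (nat_lit 13) (.e false (nat_lit 1) (nat_lit 145) (nat_lit 1) (nat_lit 13) (.e false (nat_lit 1) (nat_lit 149) (nat_lit 1) (nat_lit 13) (.e true (nat_lit 1) (nat_lit 150) (nat_lit 1) (nat_lit 13) (.e false (nat_lit 3) (nat_lit 152) (nat_lit 1) (nat_lit 13) (.e false (nat_lit 2) (nat_lit 158) (nat_lit 0) (nat_lit 14) (.e false (nat_lit 3) (nat_lit 159) (nat_lit 0) (nat_lit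 14) (.e true (nat_lit 3) (nat_lit 160) (nat_lit 0) (nat_lit 14) (.e false (nat_lit 3) (nat_lit 168) (nat_lit 0) (nat_lit 14) (.e false (nat_lit 3) (nat_lit 172) (nat_lit 0) (nat_lit 14) (.e true (nat_lit 1) (nat_lit 139) (nat_lit 1) (nat_lit 13) (.e true (nat_lit 2) (nat_lit 141) (nat_lit 1) (nat_lit 13) (.e true (nat_lit 1) (nat_lit 146) (nat_lit 1) (nat_lit 13) (.e true (nat_lit 2) (nat_lit 147) (nat_lit 1) (nat_lit 13) (.e true (nat_lit 1) (nat_lit 20) (nat_lit 17) (nat_lit 1) (.e true (nat_lit 1) (nat_lit 21) (nat_lit 17) (nat_lit 1) (.e true (nat_lit 1) (nat_lit 148) (nat_lit 1) (nat_lit 13) (.e false (nat_lit 2) (nat_lit 24) (nat_lit 14) (nat_lit 2) dC1b_i111)))))))))))))))))))))))))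

noncomputable def dC1b_i113 : IL := (.s false (nat_lit 2) (nat_lit 34) (nat_lit 0) (nat_lit 2) (nat_lit 1) true (nat_lit 11) true (nat_lit 13) false (nat_lit 4) true (nat_lit 14) true (nat_lit 12) (.s false (nat_lit 1) (nat_lit 35) (nat_lit 1) (nat_lit 2) (nat_lit 0) true (nat_lit 11) true (nat_lit 14) false (nat_lit 4) true (nat_lit 13) true (nat_lit 12) (.s true (nat_lit 2) (nat_lit 36) (nat_lit 1) (nat_lit 2) (nat_lit 0) true (nat_lit 11) true (nat_lit 14) false (nat_lit 4) true (nat_lit 13) true (nat_lit 12) (.s false (nat_lit 1) (nat_lit 35) (nat_lit 2) (nat_lit 0) (nat_lit 1) true (nat_lit 9) true (nat_lit 13) false (nat_lit 4) true (nat_lit 12) true (nat_lit 14) (.s true (nat_lit 1) (nat_lit 41) (nat_lit 0) (nat_lit 1) (nat_lit 1) true (nat_lit 11) true (nat_lit 13) false (nat_lit 6) true (nat_lit 14) true (nat_lit 13) (.e true (nat_lit 1) (nat_lit 65) (nat_lit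 5) (nat_lit 9) (.e false (nat_lit 1) (nat_lit 52) (nat_lit 6) (nat_lit 8) (.e false (nat_lit 3) (nat_lit 154) (nat_lit 0) (nat_lit 14) (.e true (nat_lit 3) (nat_lit 157) (nat_lit 0) (nat_lit 14) (.e true (nat_lit 3) (nat_lit 161) (nat_lit 0) (nat_lit 14) (.e true (nat_lit 1) (nat_lit 167) (nat_lit 0) (nat_lit 14) (.e true (nat_lit 1) (nat_lit 44) (nat_lit 7) (nat_lit 7) (.e true (nat_lit 1) (nat_lit 45) (nat_lit 7) (nat_lit 7) (.e false (nat_lit 1) (nat_lit 155) (nat_lit 0) (nat_lit 14) (.e false (nat_lit 2) (nat_lit 163) (nat_lit 0) (nat_lit 14) (.e false (nat_lit 2) (nat_lit 162) (nat_lit 0) (nat_lit 14) (.e true (nat_lit 1) (nat_lit 170) (nat_lit 0) (nat_lit 14) (.e true (nat_lit 2) (nat_lit 173) (nat_lit 0) (nat_lit 14) (.e true (nat_lit 1) (nat_lit 47) (nat_lit 6) (nat_lit 8) (.e true (nat_lit 1) (nat_lit 49) (nat_lit 6) (nat_lit 8) (.e true (nat_lit 2) (nat_lit 55)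 (nat_lit 5) (nat_lit 9) (.e false (nat_lit 2) (nat_lit 151) (nat_lit 1) (nat_lit 13) (.e true (nat_lit 1) (nat_lit 171) (nat_lit 0) (nat_lit 14) (.e false (nat_lit 3) (nat_lit 132) (nat_lit 1) (nat_lit 13) (.e false (nat_lit 3) (nat_lit 133) (nat_lit 1) (nat_lit 13) dC1b_i112)))))))))))))))))))))))))

noncomputable def dC1b_i114 : IL := (.s true (nat_lit 1) (nat_lit 12) (nat_lit 2) (nat_lit 1) (nat_lit 6) true (nat_lit 0) true (nat_lit 6) true (nat_lit 4) true (nat_lit 10) true (nat_lit 11) (.s true (nat_lit 1) (nat_lit 12) (nat_lit 2) (nat_lit 2) (nat_lit 5) true (nat_lit 1) true (nat_lit 7) true (nat_lit 4) true (nat_lit 10) true (nat_lit 10) (.s true (nat_lit 1) (nat_lit 33) (nat_lit 2) (nat_lit 1) (nat_lit 2) true (nat_lit 6) true (nat_lit 10) false (nat_lit 1) true (nat_lit 10) true (nat_lit 11) (.e true (nat_lit 1) (nat_lit 27) (nat_lit 18) (nat_lit 0) (.e true (nat_lit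 2) (nat_lit 153) (nat_lit 2) (nat_lit 10) (.e true (nat_lit 3) (nat_lit 154) (nat_lit 2) (nat_lit 10) (.e false (nat_lit 3) (nat_lit 155) (nat_lit 2) (nat_lit 10) (.e true (nat_lit 2) (nat_lit 156) (nat_lit 2) (nat_lit 10) (.e false (nat_lit 2) (nat_lit 157) (nat_lit 2) (nat_lit 10) (.e false (nat_lit 1) (nat_lit 158) (nat_lit 2) (nat_lit 10) (.e false (nat_lit 2) (nat_lit 159) (nat_lit 2) (nat_lit 10) (.e true (nat_lit 2) (nat_lit 160) (nat_lit 2) (nat_lit 10) (.e false (nat_lit 3) (nat_lit 161) (nat_lit 2) (nat_lit 10) (.e false (nat_lit 1) (nat_lit 162) (nat_lit 2) (nat_lit 10) (.e false (nat_lit 2) (nat_lit 163) (nat_lit 2) (nat_lit 10) (.e false (nat_lit 3) (nat_lit 167) (nat_lit 2) (nat_lit 10) (.e true (nat_lit 3) (nat_lit 171) (nat_lit 2) (nat_lit 10) (.e true (nat_lit 1) (nat_lit 172) (nat_lit 2) (nat_lit 10) (.e true (nat_lit 2) (nat_lit 173) (nat_lit 2) (nat_lit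 10) (.e false (nat_lit 1) (nat_lit 190) (nat_lit 1) (nat_lit 11) (.e true (nat_lit 1) (nat_lit 164) (nat_lit 2) (nat_lit 10) (.e true (nat_lit 1) (nat_lit 165) (nat_lit 2) (nat_lit 10) (.e false (nat_lit 1) (nat_lit 170) (nat_lit 2) (nat_lit 10) (.e true (nat_lit 1) (nat_lit 182) (nat_lit 1) (nat_lit 11) (.u (nat_lit 2) (.n (nat_lit 3) (nat_lit 1) (.p (nat_lit 14) (nat_lit 1) (.n (nat_lit 18) (nat_lit 1) (.n (nat_lit 26) (nat_lit 1) (.p (nat_lit 99) (nat_lit 1) (.n (nat_lit 106) (nat_lit 1) (.n (nat_lit 110) (nat_lit 1) (.p (nat_lit 114) (nat_lit 1) (.p (nat_lit 116) (nat_lit 1) .z))))))))) .nil)))))))))))))))))))))))))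

noncomputable def dC1b_i115 : IL := (.e false (nat_lit 1) (nat_lit 304) (nat_lit 0) (nat_lit 19) (.e false (nat_lit 2) (nat_lit 305) (nat_lit 0) (nat_lit 19) (.e false (nat_lit 2) (nat_lit 307) (nat_lit 0) (nat_lit 19) (.e false (nat_lit 1) (nat_lit 308) (nat_lit 0) (nat_lit 19) (.e true (nat_lit 3) (nat_lit 310) (nat_lit 0) (nat_lit 19) (.e false (nat_lit 1) (nat_lit 312) (nat_lit 0) (nat_lit 19) (.e false (nat_lit 3) (nat_lit 316) (nat_lit 0) (nat_lit 19) (.e false (nat_lit 2) (nat_lit 317) (nat_lit 0) (nat_lit 19) (.e true (nat_lit 1) (nat_lit 318) (nat_lit 0) (nat_lit 19) (.e true (nat_lit 1) (nat_lit 319) (nat_lit 0) (nat_lit 19) (.e false (nat_lit 3) (nat_lit 212) (nat_lit 2) (nat_lit 17) (.e true (nat_lit 3) (nat_lit 213) (nat_lit 2) (nat_lit 17) (.e true (nat_lit 1) (nat_lit 215) (nat_lit 2) (nat_lit 17) (.e true (nat_lit 3) (nat_lit 216) (nat_lit 2) (nat_lit 17)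 (.e false (nat_lit 1) (nat_lit 218) (nat_lit 2) (nat_lit 17) (.e true (nat_lit 1) (nat_lit 219) (nat_lit 2) (nat_lit 17) (.e true (nat_lit 2) (nat_lit 220) (nat_lit 2) (nat_lit 17) (.e true (nat_lit 2) (nat_lit 221) (nat_lit 2) (nat_lit 17) (.e true (nat_lit 3) (nat_lit 222) (nat_lit 2) (nat_lit 17) (.e true (nat_lit 1) (nat_lit 223) (nat_lit 2) (nat_lit 17) (.e true (nat_lit 1) (nat_lit 226) (nat_lit 2) (nat_lit 17) (.e false (nat_lit 1) (nat_lit 217) (nat_lit 2) (nat_lit 17) (.e true (nat_lit 3) (nat_lit 227) (nat_lit 2) (nat_lit 17) (.e false (nat_lit 1) (nat_lit 231) (nat_lit 2) (nat_lit 17) (.u (nat_lit 2) (.p (nat_lit 0) (nat_lit 1) (.n (nat_lit 1) (nat_lit 2) (.n (nat_lit 2) (nat_lit 1) (.n (nat_lit 3) (nat_lit 1) (.n (nat_lit 4) (nat_lit 1) (.p (nat_lit 5) (nat_lit 2) (.p (nat_lit 8) (nat_lit 1) (.n (nat_lit 9) (nat_lit 1) (.p (nat_lit 12) (nat_lit 2) (.p (nat_lit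 14) (nat_lit 5) (.n (nat_lit 15) (nat_lit 1) (.p (nat_lit 17) (nat_lit 1) (.p (nat_lit 18) (nat_lit 2) (.n (nat_lit 19) (nat_lit 2) (.n (nat_lit 20) (nat_lit 2) (.p (nat_lit 27) (nat_lit 1) (.p (nat_lit 28) (nat_lit 1) (.n (nat_lit 29) (nat_lit 2) (.p (nat_lit 30) (nat_lit 3) (.n (nat_lit 31) (nat_lit 1) (.n (nat_lit 33) (nat_lit 4) (.p (nat_lit 34) (nat_lit 4) (.p (nat_lit 35) (nat_lit 1) (.n (nat_lit 38) (nat_lit 2) (.n (nat_lit 39) (nat_lit 3) (.p (nat_lit 40) (nat_lit 3) (.n (nat_lit 41) (nat_lit 2) (.p (nat_lit 49) (nat_lit 1) (.p (nat_lit 50) (nat_lit 1) (.n (nat_lit 51) (nat_lit 1) (.n (nat_lit 52) (nat_lit 1) (.p (nat_lit 53) (nat_lit 1) (.p (nat_lit 54) (nat_lit 1) (.n (nat_lit 55) (nat_lit 1) (.n (nat_lit 57) (nat_lit 1) (.p (nat_lit 327) (nat_lit 1) (.p (nat_lit 328) (nat_lit 1) (.p (nat_lit 329) (nat_lit 1) (.p (nat_lit 331) (nat_lit 1) (.n (nat_lit 332) (nat_lit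 1) (.n (nat_lit 333) (nat_lit 1) (.p (nat_lit 334) (nat_lit 1) (.p (nat_lit 335) (nat_lit 2) (.n (nat_lit 336) (nat_lit 1) (.n (nat_lit 337) (nat_lit 1) (.n (nat_lit 338) (nat_lit 1) (.p (nat_lit 339) (nat_lit 1) (.n (nat_lit 341) (nat_lit 1) (.p (nat_lit 344) (nat_lit 1) .z))))))))))))))))))))))))))))))))))))))))))))))))) .nil)))))))))))))))))))))))))

noncomputable def dC1b_i116 : IL := (.e false (nat_lit 2) (nat_lit 267) (nat_lit 1) (nat_lit 18) (.e false (nat_lit 1) (nat_lit 269) (nat_lit 1) (nat_lit 18) (.e true (nat_lit 2) (nat_lit 270) (nat_lit 1) (nat_lit 18) (.e false (nat_lit 3) (nat_lit 271) (nat_lit 1) (nat_lit 18) (.e true (nat_lit 1) (nat_lit 272) (nat_lit 1) (nat_lit 18) (.e true (nat_lit 1) (nat_lit 273) (nat_lit 1) (nat_lit 18) (.e true (nat_lit 1) (nat_lit 274) (nat_lit 1) (nat_lit 18) (.e false (nat_lit 1) (nat_lit 275) (nat_lit 1) (nat_lit 18) (.e true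 (nat_lit 1) (nat_lit 276) (nat_lit 1) (nat_lit 18) (.e false (nat_lit 2) (nat_lit 277) (nat_lit 1) (nat_lit 18) (.e false (nat_lit 1) (nat_lit 278) (nat_lit 1) (nat_lit 18) (.e true (nat_lit 3) (nat_lit 279) (nat_lit 1) (nat_lit 18) (.e false (nat_lit 1) (nat_lit 280) (nat_lit 1) (nat_lit 18) (.e false (nat_lit 2) (nat_lit 290) (nat_lit 0) (nat_lit 19) (.e true (nat_lit 1) (nat_lit 291) (nat_lit 0) (nat_lit 19) (.e false (nat_lit 2) (nat_lit 292) (nat_lit 0) (nat_lit 19) (.e false (nat_lit 2) (nat_lit 293) (nat_lit 0) (nat_lit 19) (.e true (nat_lit 2) (nat_lit 295) (nat_lit 0) (nat_lit 19) (.e false (nat_lit 3) (nat_lit 296) (nat_lit 0) (nat_lit 19) (.e true (nat_lit 3) (nat_lit 297) (nat_lit 0) (nat_lit 19) (.e false (nat_lit 2) (nat_lit 298) (nat_lit 0) (nat_lit 19) (.e false (nat_lit 1) (nat_lit 299) (nat_lit 0) (nat_lit 19) (.e false (nat_lit 3) (nat_lit 300) (nat_lit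 0) (nat_lit 19) (.e true (nat_lit 3) (nat_lit 301) (nat_lit 0) (nat_lit 19) (.e false (nat_lit 2) (nat_lit 302) (nat_lit 0) (nat_lit 19) dC1b_i115)))))))))))))))))))))))))

noncomputable def dC1b_i117 : IL := (.e false (nat_lit 2) (nat_lit 290) (nat_lit 0) (nat_lit 19) (.e true (nat_lit 3) (nat_lit 291) (nat_lit 0) (nat_lit 19) (.e false (nat_lit 2) (nat_lit 292) (nat_lit 0) (nat_lit 19) (.e true (nat_lit 2) (nat_lit 294) (nat_lit 0) (nat_lit 19) (.e false (nat_lit 1) (nat_lit 295) (nat_lit 0) (nat_lit 19) (.e false (nat_lit 3) (nat_lit 296) (nat_lit 0) (nat_lit 19) (.e true (nat_lit 3) (nat_lit 297) (nat_lit 0) (nat_lit 19) (.e true (nat_lit 1) (nat_lit 299) (nat_lit 0) (nat_lit 19) (.e false (nat_lit 2) (nat_lit 302) (nat_lit 0) (nat_lit 19) (.e true (nat_lit 3) (nat_lit 304) (nat_lit 0) (nat_lit 19) (.e true (nat_lit 2) (nat_lit 305) (nat_lit 0) (nat_lit 19) (.e false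 (nat_lit 2) (nat_lit 309) (nat_lit 0) (nat_lit 19) (.e false (nat_lit 1) (nat_lit 310) (nat_lit 0) (nat_lit 19) (.e true (nat_lit 1) (nat_lit 316) (nat_lit 0) (nat_lit 19) (.e false (nat_lit 3) (nat_lit 317) (nat_lit 0) (nat_lit 19) (.e true (nat_lit 1) (nat_lit 318) (nat_lit 0) (nat_lit 19) (.e true (nat_lit 2) (nat_lit 319) (nat_lit 0) (nat_lit 19) (.e false (nat_lit 2) (nat_lit 293) (nat_lit 0) (nat_lit 19) (.e true (nat_lit 3) (nat_lit 298) (nat_lit 0) (nat_lit 19) (.e true (nat_lit 2) (nat_lit 300) (nat_lit 0) (nat_lit 19) (.e true (nat_lit 3) (nat_lit 301) (nat_lit 0) (nat_lit 19) (.e false (nat_lit 1) (nat_lit 44) (nat_lit 23) (nat_lit 3) (.e false (nat_lit 3) (nat_lit 308) (nat_lit 0) (nat_lit 19) (.e false (nat_lit 2) (nat_lit 312) (nat_lit 0) (nat_lit 19) (.u (nat_lit 2) (.p (nat_lit 0) (nat_lit 1) (.p (nat_lit 2) (nat_lit 1) (.n (nat_lit 3) (nat_lit 1) (.p (nat_lit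 4) (nat_lit 1) (.p (nat_lit 5) (nat_lit 1) (.p (nat_lit 6) (nat_lit 1) (.n (nat_lit 7) (nat_lit 1) (.p (nat_lit 10) (nat_lit 2) (.n (nat_lit 12) (nat_lit 1) (.p (nat_lit 13) (nat_lit 1) (.p (nat_lit 14) (nat_lit 1) (.n (nat_lit 15) (nat_lit 3) (.n (nat_lit 17) (nat_lit 1) (.p (nat_lit 18) (nat_lit 2) (.n (nat_lit 21) (nat_lit 1) (.p (nat_lit 22) (nat_lit 1) (.p (nat_lit 26) (nat_lit 2) (.n (nat_lit 27) (nat_lit 1) (.p (nat_lit 28) (nat_lit 1) (.p (nat_lit 31) (nat_lit 1) (.p (nat_lit 32) (nat_lit 1) (.n (nat_lit 34) (nat_lit 1) (.n (nat_lit 35) (nat_lit 2) (.n (nat_lit 36) (nat_lit 1) (.p (nat_lit 38) (nat_lit 1) (.p (nat_lit 40) (nat_lit 1) (.p (nat_lit 41) (nat_lit 1) (.p (nat_lit 42) (nat_lit 1) (.n (nat_lit 43) (nat_lit 1) (.p (nat_lit 49) (nat_lit 1) (.p (nat_lit 53) (nat_lit 1) (.p (nat_lit 54) (nat_lit 1) (.n (nat_lit 55) (nat_lit 1) (.p (nat_lit 62) (nat_lit 1)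 (.n (nat_lit 65) (nat_lit 1) (.p (nat_lit 66) (nat_lit 1) (.n (nat_lit 70) (nat_lit 1) (.p (nat_lit 406) (nat_lit 1) (.n (nat_lit 407) (nat_lit 1) (.p (nat_lit 408) (nat_lit 1) (.p (nat_lit 409) (nat_lit 1) (.n (nat_lit 410) (nat_lit 1) (.p (nat_lit 411) (nat_lit 2) (.p (nat_lit 413) (nat_lit 1) (.p (nat_lit 415) (nat_lit 1) (.p (nat_lit 416) (nat_lit 1) (.n (nat_lit 417) (nat_lit 1) (.p (nat_lit 418) (nat_lit 1) (.p (nat_lit 419) (nat_lit 1) (.n (nat_lit 421) (nat_lit 1) (.n (nat_lit 423) (nat_lit 1) (.p (nat_lit 424) (nat_lit 1) (.p (nat_lit 425) (nat_lit 2) (.n (nat_lit 426) (nat_lit 1) (.n (nat_lit 428) (nat_lit 1) (.n (nat_lit 429) (nat_lit 1) (.n (nat_lit 431) (nat_lit 1) (.n (nat_lit 432) (nat_lit 1) (.p (nat_lit 433) (nat_lit 3) (.p (nat_lit 434) (nat_lit 1) .z)))))))))))))))))))))))))))))))))))))))))))))))))))))))))))) .nil)))))))))))))))))))))))))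

noncomputable def dC1b_i118 : IL := (.e false (nat_lit 1) (nat_lit 330) (nat_lit 0) (nat_lit 15) (.e false (nat_lit 2) (nat_lit 261) (nat_lit 2) (nat_lit 13) (.e true (nat_lit 3) (nat_lit 264) (nat_lit 2) (nat_lit 13) (.e false (nat_lit 1) (nat_lit 267) (nat_lit 2) (nat_lit 13) (.e true (nat_lit 1) (nat_lit 268) (nat_lit 2) (nat_lit 13) (.e true (nat_lit 3) (nat_lit 269) (nat_lit 2) (nat_lit 13) (.e false (nat_lit 1) (nat_lit 270) (nat_lit 2) (nat_lit 13) (.e false (nat_lit 2) (nat_lit 271) (nat_lit 2) (nat_lit 13) (.e false (nat_lit 1) (nat_lit 272) (nat_lit 2) (nat_lit 13) (.e false (nat_lit 1) (nat_lit 273) (nat_lit 2) (nat_lit 13) (.e false (nat_lit 1) (nat_lit 274) (nat_lit 2) (nat_lit 13) (.e false (nat_lit 2) (nat_lit 275) (nat_lit 2) (nat_lit 13) (.e true (nat_lit 2) (nat_lit 276) (nat_lit 2) (nat_lit 13) (.e false (nat_lit 3) (nat_lit 277) (nat_lit 2) (nat_lit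 13) (.e true (nat_lit 3) (nat_lit 278) (nat_lit 2) (nat_lit 13) (.e false (nat_lit 2) (nat_lit 279) (nat_lit 2) (nat_lit 13) (.e true (nat_lit 1) (nat_lit 283) (nat_lit 2) (nat_lit 13) (.e false (nat_lit 1) (nat_lit 284) (nat_lit 2) (nat_lit 13) (.e false (nat_lit 3) (nat_lit 286) (nat_lit 2) (nat_lit 13) (.e true (nat_lit 1) (nat_lit 287) (nat_lit 2) (nat_lit 13) (.e false (nat_lit 3) (nat_lit 288) (nat_lit 2) (nat_lit 13) (.e false (nat_lit 3) (nat_lit 262) (nat_lit 2) (nat_lit 13) (.e true (nat_lit 2) (nat_lit 266) (nat_lit 2) (nat_lit 13) (.e false (nat_lit 1) (nat_lit 280) (nat_lit 2) (nat_lit 13) (.u (nat_lit 2) (.n (nat_lit 0) (nat_lit 1) (.p (nat_lit 1) (nat_lit 2) (.p (nat_lit 2) (nat_lit 2) (.p (nat_lit 3) (nat_lit 1) (.n (nat_lit 4) (nat_lit 3) (.n (nat_lit 6) (nat_lit 3) (.n (nat_lit 7) (nat_lit 3) (.p (nat_lit 9) (nat_lit 3) (.n (nat_lit 10) (nat_lit 1) (.p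 (nat_lit 12) (nat_lit 4) (.p (nat_lit 13) (nat_lit 3) (.p (nat_lit 15) (nat_lit 1) (.n (nat_lit 16) (nat_lit 3) (.n (nat_lit 17) (nat_lit 1) (.n (nat_lit 18) (nat_lit 2) (.n (nat_lit 21) (nat_lit 1) (.p (nat_lit 22) (nat_lit 2) (.n (nat_lit 23) (nat_lit 1) (.n (nat_lit 24) (nat_lit 1) (.p (nat_lit 25) (nat_lit 1) (.n (nat_lit 30) (nat_lit 2) (.p (nat_lit 177) (nat_lit 1) (.p (nat_lit 182) (nat_lit 1) (.p (nat_lit 191) (nat_lit 1) (.n (nat_lit 192) (nat_lit 1) .z))))))))))))))))))))))))) .nil)))))))))))))))))))))))))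

noncomputable def dC1b_i119 : IL := (.s false (nat_lit 1) (nat_lit 14) (nat_lit 0) (nat_lit 1) (nat_lit 2) true (nat_lit 5) true (nat_lit 7) false (nat_lit 0) true (nat_lit 9) true (nat_lit 8) (.s false (nat_lit 1) (nat_lit 15) (nat_lit 2) (nat_lit 0) (nat_lit 1) true (nat_lit 4) true (nat_lit 8) false (nat_lit 0) true (nat_lit 7) true (nat_lit 9) (.s false (nat_lit 1) (nat_lit 16) (nat_lit 2) (nat_lit 0) (nat_lit 0) true (nat_lit 5) true (nat_lit 9) false (nat_lit 1) true (nat_lit 7) true (nat_lit 9) (.s false (nat_lit 2) (nat_lit 18) (nat_lit 0) (nat_lit 1) (nat_lit 0) false (nat_lit 10) true (nat_lit 9) false (nat_lit 2) true (nat_lit 9) true (nat_lit 8) (.e true (nat_lit 3) (nat_lit 77) (nat_lit 1) (nat_lit 8) (.e true (nat_lit 3) (nat_lit 78) (nat_lit 1) (nat_lit 8) (.e false (nat_lit 1) (nat_lit 21) (nat_lit 6) (nat_lit 3) (.e false (nat_lit 1) (nat_lit 82) (nat_lit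 0) (nat_lit 9) (.e false (nat_lit 2) (nat_lit 83) (nat_lit 0) (nat_lit 9) (.e false (nat_lit 1) (nat_lit 55) (nat_lit 2) (nat_lit 7) (.e true (nat_lit 2) (nat_lit 56) (nat_lit 2) (nat_lit 7) (.e true (nat_lit 1) (nat_lit 57) (nat_lit 2) (nat_lit 7) (.e false (nat_lit 1) (nat_lit 14) (nat_lit 11) (nat_lit 0) (.e true (nat_lit 1) (nat_lit 58) (nat_lit 2) (nat_lit 7) (.e false (nat_lit 3) (nat_lit 60) (nat_lit 2) (nat_lit 7) (.e true (nat_lit 3) (nat_lit 61) (nat_lit 2) (nat_lit 7) (.e false (nat_lit 3) (nat_lit 62) (nat_lit 2) (nat_lit 7) (.e false (nat_lit 2) (nat_lit 64) (nat_lit 2) (nat_lit 7) (.e false (nat_lit 1) (nat_lit 65) (nat_lit 2) (nat_lit 7) (.e false (nat_lit 1) (nat_lit 14) (nat_lit 10) (nat_lit 0) (.e true (nat_lit 1) (nat_lit 80) (nat_lit 1) (nat_lit 8) (.e false (nat_lit 3) (nat_lit 81) (nat_lit 1) (nat_lit 8) (.e true (nat_lit 1) (nat_lit 16) (nat_lit 9)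 (nat_lit 1) (.e false (nat_lit 2) (nat_lit 18) (nat_lit 7) (nat_lit 2) (.u (nat_lit 2) (.p (nat_lit 0) (nat_lit 1) (.n (nat_lit 4) (nat_lit 1) (.p (nat_lit 5) (nat_lit 2) (.p (nat_lit 6) (nat_lit 2) (.p (nat_lit 7) (nat_lit 1) (.n (nat_lit 9) (nat_lit 2) (.p (nat_lit 10) (nat_lit 2) (.n (nat_lit 12) (nat_lit 1) (.n (nat_lit 47) (nat_lit 1) (.p (nat_lit 48) (nat_lit 1) (.p (nat_lit 49) (nat_lit 1) (.p (nat_lit 50) (nat_lit 1) (.n (nat_lit 51) (nat_lit 1) (.p (nat_lit 52) (nat_lit 1) (.n (nat_lit 55) (nat_lit 1) .z))))))))))))))) .nil)))))))))))))))))))))))))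

noncomputable def dC1b_i120 : IL := (.e false (nat_lit 2) (nat_lit 147) (nat_lit 1) (nat_lit 13) (.e true (nat_lit 3) (nat_lit 149) (nat_lit 1) (nat_lit 13) (.e false (nat_lit 3) (nat_lit 150) (nat_lit 1) (nat_lit 13) (.e false (nat_lit 2) (nat_lit 151) (nat_lit 1) (nat_lit 13) (.e false (nat_lit 3) (nat_lit 152) (nat_lit 1) (nat_lit 13) (.e false (nat_lit 1) (nat_lit 112) (nat_lit 2) (nat_lit 12) (.e true (nat_lit 1) (nat_lit 114) (nat_lit 2) (nat_lit 12) (.e false (nat_lit 1) (nat_lit 125) (nat_lit 2) (nat_lit 12) (.e true (nat_lit 1) (nat_lit 129) (nat_lit 2) (nat_lit 12) (.e true (nat_lit 1) (nat_lit 148) (nat_lit 1) (nat_lit 13) (.e false (nat_lit 2) (nat_lit 153) (nat_lit 0) (nat_lit 14) (.e false (nat_lit 3) (nat_lit 154) (nat_lit 0) (nat_lit 14) (.e true (nat_lit 3) (nat_lit 155) (nat_lit 0) (nat_lit 14) (.e false (nat_lit 3) (nat_lit 156) (nat_lit 0) (nat_lit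 14) (.e true (nat_lit 1) (nat_lit 157) (nat_lit 0) (nat_lit 14) (.e true (nat_lit 1) (nat_lit 160) (nat_lit 0) (nat_lit 14) (.e false (nat_lit 3) (nat_lit 161) (nat_lit 0) (nat_lit 14) (.e true (nat_lit 2) (nat_lit 162) (nat_lit 0) (nat_lit 14) (.e false (nat_lit 3) (nat_lit 164) (nat_lit 0) (nat_lit 14) (.e false (nat_lit 1) (nat_lit 165) (nat_lit 0) (nat_lit 14) (.e true (nat_lit 1) (nat_lit 166) (nat_lit 0) (nat_lit 14) (.e false (nat_lit 3) (nat_lit 168) (nat_lit 0) (nat_lit 14) (.e true (nat_lit 2) (nat_lit 170) (nat_lit 0) (nat_lit 14) (.e false (nat_lit 2) (nat_lit 173) (nat_lit 0) (nat_lit 14) (.u (nat_lit 2) (.p (nat_lit 0) (nat_lit 2) (.n (nat_lit 1) (nat_lit 1) (.p (nat_lit 3) (nat_lit 4) (.p (nat_lit 5) (nat_lit 2) (.p (nat_lit 7) (nat_lit 1) (.p (nat_lit 8) (nat_lit 1) (.p (nat_lit 9) (nat_lit 1) (.n (nat_lit 10) (nat_lit 1) (.p (nat_lit 11) (nat_lit 1) (.n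 (nat_lit 12) (nat_lit 2) (.p (nat_lit 14) (nat_lit 1) (.p (nat_lit 15) (nat_lit 2) (.n (nat_lit 16) (nat_lit 1) (.n (nat_lit 17) (nat_lit 1) (.p (nat_lit 19) (nat_lit 2) (.p (nat_lit 20) (nat_lit 1) (.p (nat_lit 21) (nat_lit 1) (.p (nat_lit 22) (nat_lit 1) (.p (nat_lit 23) (nat_lit 2) (.p (nat_lit 24) (nat_lit 4) (.p (nat_lit 26) (nat_lit 2) (.n (nat_lit 27) (nat_lit 1) (.p (nat_lit 28) (nat_lit 1) (.p (nat_lit 29) (nat_lit 1) (.p (nat_lit 30) (nat_lit 1) (.n (nat_lit 31) (nat_lit 1) (.n (nat_lit 32) (nat_lit 3) (.p (nat_lit 36) (nat_lit 3) (.p (nat_lit 44) (nat_lit 1) (.p (nat_lit 161) (nat_lit 1) (.p (nat_lit 163) (nat_lit 1) (.p (nat_lit 168) (nat_lit 1) (.n (nat_lit 169) (nat_lit 2) (.p (nat_lit 170) (nat_lit 1) (.n (nat_lit 171) (nat_lit 2) (.p (nat_lit 173) (nat_lit 1) (.n (nat_lit 181) (nat_lit 1) .z))))))))))))))))))))))))))))))))))))) .nil)))))))))))))))))))))))))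

noncomputable def dC1b_i121 : IL := (.s false (nat_lit 1) (nat_lit 14) (nat_lit 2) (nat_lit 3) (nat_lit 1) true (nat_lit 9) true (nat_lit 13) true (nat_lit 2) true (nat_lit 12) true (nat_lit 11) (.s false (nat_lit 1) (nat_lit 14) (nat_lit 5) (nat_lit 0) (nat_lit 1) true (nat_lit 3) true (nat_lit 13) true (nat_lit 2) true (nat_lit 9) true (nat_lit 14) (.e true (nat_lit 1) (nat_lit 24) (nat_lit 14) (nat_lit 2) (.e false (nat_lit 1) (nat_lit 73) (nat_lit 4) (nat_lit 10) (.e true (nat_lit 1) (nat_lit 28) (nat_lit 13) (nat_lit 3) (.e true (nat_lit 2) (nat_lit 29) (nat_lit 13) (nat_lit 3) (.e false (nat_lit 1) (nat_lit 30) (nat_lit 13) (nat_lit 3) (.e false (nat_lit 1) (nat_lit 116) (nat_lit 2) (nat_lit 12) (.e true (nat_lit 1) (nat_lit 119) (nat_lit 2) (nat_lit 12) (.e false (nat_lit 1) (nat_lit 130) (nat_lit 2) (nat_lit 12) (.e true (nat_lit 1) (nat_lit 158) (nat_lit 0) (nat_lit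 14) (.e false (nat_lit 3) (nat_lit 159) (nat_lit 0) (nat_lit 14) (.e true (nat_lit 3) (nat_lit 163) (nat_lit 0) (nat_lit 14) (.e true (nat_lit 2) (nat_lit 133) (nat_lit 1) (nat_lit 13) (.e false (nat_lit 3) (nat_lit 135) (nat_lit 1) (nat_lit 13) (.e false (nat_lit 3) (nat_lit 137) (nat_lit 1) (nat_lit 13) (.e true (nat_lit 3) (nat_lit 138) (nat_lit 1) (nat_lit 13) (.e true (nat_lit 3) (nat_lit 139) (nat_lit 1) (nat_lit 13) (.e false (nat_lit 1) (nat_lit 140) (nat_lit 1) (nat_lit 13) (.e true (nat_lit 1) (nat_lit 141) (nat_lit 1) (nat_lit 13) (.e false (nat_lit 3) (nat_lit 142) (nat_lit 1) (nat_lit 13) (.e true (nat_lit 2) (nat_lit 143) (nat_lit 1) (nat_lit 13) (.e true (nat_lit 3) (nat_lit 144) (nat_lit 1) (nat_lit 13) (.e true (nat_lit 1) (nat_lit 145) (nat_lit 1) (nat_lit 13) (.e true (nat_lit 2) (nat_lit 146) (nat_lit 1) (nat_lit 13) dC1b_i120)))))))))))))))))))))))))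

noncomputable def dC1b_i122 : IL := (.e true (nat_lit 2) (nat_lit 156) (nat_lit 2) (nat_lit 10) (.e false (nat_lit 2) (nat_lit 157) (nat_lit 2) (nat_lit 10) (.e true (nat_lit 1) (nat_lit 158) (nat_lit 2) (nat_lit 10) (.e true (nat_lit 1) (nat_lit 159) (nat_lit 2) (nat_lit 10) (.e false (nat_lit 3) (nat_lit 162) (nat_lit 2) (nat_lit 10) (.e false (nat_lit 1) (nat_lit 163) (nat_lit 2) (nat_lit 10) (.e true (nat_lit 1) (nat_lit 167) (nat_lit 2) (nat_lit 10) (.e true (nat_lit 1) (nat_lit 169) (nat_lit 2) (nat_lit 10) (.e false (nat_lit 1) (nat_lit 170) (nat_lit 2) (nat_lit 10) (.e true (nat_lit 1) (nat_lit 171) (nat_lit 2) (nat_lit 10) (.e false (nat_lit 1) (nat_lit 172) (nat_lit 2) (nat_lit 10) (.e true (nat_lit 1) (nat_lit 173) (nat_lit 2) (nat_lit 10) (.e true (nat_lit 1) (nat_lit 40) (nat_lit 13) (nat_lit 3) (.e false (nat_lit 1) (nat_lit 180) (nat_lit 1) (nat_lit 11)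 (.e false (nat_lit 1) (nat_lit 181) (nat_lit 1) (nat_lit 11) (.e true (nat_lit 1) (nat_lit 184) (nat_lit 1) (nat_lit 11) (.e false (nat_lit 2) (nat_lit 185) (nat_lit 1) (nat_lit 11) (.e false (nat_lit 1) (nat_lit 187) (nat_lit 1) (nat_lit 11) (.e true (nat_lit 1) (nat_lit 190) (nat_lit 1) (nat_lit 11) (.e true (nat_lit 3) (nat_lit 161) (nat_lit 2) (nat_lit 10) (.e true (nat_lit 3) (nat_lit 164) (nat_lit 2) (nat_lit 10) (.e true (nat_lit 1) (nat_lit 165) (nat_lit 2) (nat_lit 10) (.e false (nat_lit 1) (nat_lit 166) (nat_lit 2) (nat_lit 10) (.e true (nat_lit 3) (nat_lit 168) (nat_lit 2) (nat_lit 10) (.u (nat_lit 2) (.n (nat_lit 1) (nat_lit 1) (.p (nat_lit 2) (nat_lit 1) (.p (nat_lit 4) (nat_lit 2) (.p (nat_lit 5) (nat_lit 1) (.p (nat_lit 6) (nat_lit 1) (.n (nat_lit 7) (nat_lit 1) (.n (nat_lit 8) (nat_lit 1) (.n (nat_lit 10) (nat_lit 1) (.p (nat_lit 11) (nat_lit 1) (.n (nat_lit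 17) (nat_lit 1) (.p (nat_lit 20) (nat_lit 1) .z))))))))))) .nil)))))))))))))))))))))))))

noncomputable def dC1b_i123 : IL := (.e true (nat_lit 2) (nat_lit 150) (nat_lit 5) (nat_lit 14) (.e false (nat_lit 3) (nat_lit 152) (nat_lit 5) (nat_lit 14) (.e false (nat_lit 1) (nat_lit 225) (nat_lit 2) (nat_lit 17) (.e false (nat_lit 3) (nat_lit 260) (nat_lit 1) (nat_lit 18) (.e false (nat_lit 1) (nat_lit 261) (nat_lit 1) (nat_lit 18) (.e true (nat_lit 2) (nat_lit 262) (nat_lit 1) (nat_lit 18) (.e false (nat_lit 1) (nat_lit 263) (nat_lit 1) (nat_lit 18) (.e false (nat_lit 2) (nat_lit 264) (nat_lit 1) (nat_lit 18) (.e false (nat_lit 2) (nat_lit 265) (nat_lit 1) (nat_lit 18) (.e true (nat_lit 1) (nat_lit 266) (nat_lit 1) (nat_lit 18) (.e true (nat_lit 2) (nat_lit 267) (nat_lit 1) (nat_lit 18) (.e true (nat_lit 3) (nat_lit 268) (nat_lit 1) (nat_lit 18) (.e false (nat_lit 2) (nat_lit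 269) (nat_lit 1) (nat_lit 18) (.e true (nat_lit 2) (nat_lit 270) (nat_lit 1) (nat_lit 18) (.e false (nat_lit 1) (nat_lit 272) (nat_lit 1) (nat_lit 18) (.e true (nat_lit 1) (nat_lit 274) (nat_lit 1) (nat_lit 18) (.e true (nat_lit 1) (nat_lit 276) (nat_lit 1) (nat_lit 18) (.e false (nat_lit 1) (nat_lit 277) (nat_lit 1) (nat_lit 18) (.e false (nat_lit 1) (nat_lit 278) (nat_lit 1) (nat_lit 18) (.e true (nat_lit 3) (nat_lit 279) (nat_lit 1) (nat_lit 18) (.e false (nat_lit 1) (nat_lit 285) (nat_lit 1) (nat_lit 18) (.e false (nat_lit 2) (nat_lit 286) (nat_lit 1) (nat_lit 18) (.e false (nat_lit 3) (nat_lit 288) (nat_lit 1) (nat_lit 18) (.e true (nat_lit 1) (nat_lit 313) (nat_lit 0) (nat_lit 19) (.u (nat_lit 2) (.n (nat_lit 0) (nat_lit 2) (.n (nat_lit 1) (nat_lit 4) (.p (nat_lit 3) (nat_lit 3) (.p (nat_lit 4) (nat_lit 2) (.n (nat_lit 5) (nat_lit 3) (.n (nat_lit 6) (nat_lit 2) (.p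 (nat_lit 7) (nat_lit 3) (.p (nat_lit 8) (nat_lit 2) (.n (nat_lit 9) (nat_lit 5) (.n (nat_lit 10) (nat_lit 2) (.p (nat_lit 11) (nat_lit 4) (.p (nat_lit 12) (nat_lit 3) (.p (nat_lit 14) (nat_lit 4) (.n (nat_lit 15) (nat_lit 1) (.p (nat_lit 17) (nat_lit 1) (.n (nat_lit 18) (nat_lit 2) (.n (nat_lit 19) (nat_lit 3) (.n (nat_lit 20) (nat_lit 1) (.p (nat_lit 27) (nat_lit 3) (.n (nat_lit 28) (nat_lit 3) (.n (nat_lit 30) (nat_lit 2) (.p (nat_lit 32) (nat_lit 1) (.n (nat_lit 34) (nat_lit 1) (.n (nat_lit 36) (nat_lit 2) (.p (nat_lit 37) (nat_lit 1) (.n (nat_lit 38) (nat_lit 1) (.p (nat_lit 39) (nat_lit 3) (.n (nat_lit 40) (nat_lit 3) (.n (nat_lit 41) (nat_lit 3) (.n (nat_lit 49) (nat_lit 2) (.n (nat_lit 53) (nat_lit 1) (.p (nat_lit 54) (nat_lit 1) (.p (nat_lit 55) (nat_lit 2) (.p (nat_lit 63) (nat_lit 1) (.p (nat_lit 69) (nat_lit 2) .z))))))))))))))))))))))))))))))))))) .nil)))))))))))))))))))))))))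

noncomputable def dC1b_i124 : IL := (.e false (nat_lit 2) (nat_lit 290) (nat_lit 0) (nat_lit 19) (.e true (nat_lit 2) (nat_lit 291) (nat_lit 0) (nat_lit 19) (.e false (nat_lit 3) (nat_lit 292) (nat_lit 0) (nat_lit 19) (.e true (nat_lit 2) (nat_lit 293) (nat_lit 0) (nat_lit 19) (.e true (nat_lit 3) (nat_lit 294) (nat_lit 0) (nat_lit 19) (.e true (nat_lit 1) (nat_lit 295) (nat_lit 0) (nat_lit 19) (.e true (nat_lit 3) (nat_lit 296) (nat_lit 0) (nat_lit 19) (.e false (nat_lit 3) (nat_lit 297) (nat_lit 0) (nat_lit 19) (.e true (nat_lit 2) (nat_lit 298) (nat_lit 0) (nat_lit 19) (.e true (nat_lit 1) (nat_lit 299) (nat_lit 0) (nat_lit 19) (.e true (nat_lit 1) (nat_lit 301) (nat_lit 0) (nat_lit 19) (.e false (nat_lit 1) (nat_lit 302) (nat_lit 0) (nat_lit 19) (.e true (nat_lit 1) (nat_lit 303) (nat_lit 0) (nat_lit 19) (.e false (nat_lit 3) (nat_lit 304) (nat_lit 0) (nat_lit 19)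 (.e false (nat_lit 3) (nat_lit 305) (nat_lit 0) (nat_lit 19) (.e false (nat_lit 1) (nat_lit 307) (nat_lit 0) (nat_lit 19) (.e true (nat_lit 1) (nat_lit 308) (nat_lit 0) (nat_lit 19) (.e true (nat_lit 2) (nat_lit 310) (nat_lit 0) (nat_lit 19) (.e true (nat_lit 1) (nat_lit 311) (nat_lit 0) (nat_lit 19) (.e false (nat_lit 1) (nat_lit 313) (nat_lit 0) (nat_lit 19) (.e true (nat_lit 3) (nat_lit 316) (nat_lit 0) (nat_lit 19) (.e true (nat_lit 2) (nat_lit 317) (nat_lit 0) (nat_lit 19) (.e false (nat_lit 1) (nat_lit 319) (nat_lit 0) (nat_lit 19) (.e false (nat_lit 1) (nat_lit 225) (nat_lit 2) (nat_lit 17) (.u (nat_lit 2) (.n (nat_lit 0) (nat_lit 1) (.p (nat_lit 1) (nat_lit 1) (.p (nat_lit 2) (nat_lit 2) (.p (nat_lit 3) (nat_lit 1) (.n (nat_lit 4) (nat_lit 1) (.n (nat_lit 8) (nat_lit 2) (.n (nat_lit 10) (nat_lit 1) (.p (nat_lit 11) (nat_lit 2) (.p (nat_lit 12) (nat_lit 2) (.p (nat_lit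 14) (nat_lit 1) (.p (nat_lit 15) (nat_lit 3) (.p (nat_lit 17) (nat_lit 1) (.n (nat_lit 18) (nat_lit 2) (.n (nat_lit 26) (nat_lit 2) (.p (nat_lit 27) (nat_lit 1) (.n (nat_lit 31) (nat_lit 2) (.p (nat_lit 33) (nat_lit 1) (.p (nat_lit 34) (nat_lit 1) (.p (nat_lit 36) (nat_lit 1) (.p (nat_lit 37) (nat_lit 2) (.p (nat_lit 38) (nat_lit 1) (.n (nat_lit 39) (nat_lit 1) (.n (nat_lit 40) (nat_lit 1) .z))))))))))))))))))))))) .nil)))))))))))))))))))))))))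

noncomputable def dC1b_i125 : IL := (.e true (nat_lit 1) (nat_lit 239) (nat_lit 2) (nat_lit 17) (.e false (nat_lit 1) (nat_lit 243) (nat_lit 2) (nat_lit 17) (.e false (nat_lit 1) (nat_lit 244) (nat_lit 2) (nat_lit 17) (.e false (nat_lit 1) (nat_lit 245) (nat_lit 2) (nat_lit 17) (.e false (nat_lit 1) (nat_lit 247) (nat_lit 2) (nat_lit 17) (.e false (nat_lit 3) (nat_lit 248) (nat_lit 2) (nat_lit 17) (.e false (nat_lit 2) (nat_lit 260) (nat_lit 1) (nat_lit 18) (.e true (nat_lit 1) (nat_lit 261) (nat_lit 1) (nat_lit 18) (.e true (nat_lit 2) (nat_lit 262) (nat_lit 1) (nat_lit 18) (.e false (nat_lit 1) (nat_lit 263) (nat_lit 1) (nat_lit 18) (.e true (nat_lit 1) (nat_lit 264) (nat_lit 1) (nat_lit 18) (.e false (nat_lit 2) (nat_lit 265) (nat_lit 1) (nat_lit 18) (.e false (nat_lit 1) (nat_lit 266) (nat_lit 1) (nat_lit 18) (.e false (nat_lit 1) (nat_lit 267) (nat_lit 1) (nat_lit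 18) (.e true (nat_lit 3) (nat_lit 268) (nat_lit 1) (nat_lit 18) (.e true (nat_lit 1) (nat_lit 270) (nat_lit 1) (nat_lit 18) (.e false (nat_lit 2) (nat_lit 271) (nat_lit 1) (nat_lit 18) (.e true (nat_lit 1) (nat_lit 272) (nat_lit 1) (nat_lit 18) (.e true (nat_lit 3) (nat_lit 273) (nat_lit 1) (nat_lit 18) (.e false (nat_lit 1) (nat_lit 274) (nat_lit 1) (nat_lit 18) (.e true (nat_lit 1) (nat_lit 276) (nat_lit 1) (nat_lit 18) (.e false (nat_lit 1) (nat_lit 277) (nat_lit 1) (nat_lit 18) (.e false (nat_lit 2) (nat_lit 278) (nat_lit 1) (nat_lit 18) (.e true (nat_lit 3) (nat_lit 280) (nat_lit 1) (nat_lit 18) (.u (nat_lit 2) (.p (nat_lit 0) (nat_lit 2) (.p (nat_lit 1) (nat_lit 2) (.n (nat_lit 2) (nat_lit 3) (.p (nat_lit 3) (nat_lit 1) (.n (nat_lit 4) (nat_lit 1) (.p (nat_lit 5) (nat_lit 1) (.p (nat_lit 6) (nat_lit 1) (.n (nat_lit 7) (nat_lit 1) (.n (nat_lit 8) (nat_lit 1) (.p (nat_lit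 9) (nat_lit 1) (.p (nat_lit 10) (nat_lit 1) (.p (nat_lit 11) (nat_lit 2) (.n (nat_lit 13) (nat_lit 1) (.p (nat_lit 14) (nat_lit 5) (.p (nat_lit 15) (nat_lit 1) (.p (nat_lit 18) (nat_lit 1) (.n (nat_lit 19) (nat_lit 1) (.n (nat_lit 20) (nat_lit 1) (.n (nat_lit 26) (nat_lit 2) (.n (nat_lit 27) (nat_lit 3) (.n (nat_lit 28) (nat_lit 2) (.p (nat_lit 29) (nat_lit 3) (.p (nat_lit 30) (nat_lit 2) (.p (nat_lit 32) (nat_lit 2) (.p (nat_lit 33) (nat_lit 2) (.n (nat_lit 35) (nat_lit 3) (.n (nat_lit 36) (nat_lit 1) (.p (nat_lit 38) (nat_lit 2) (.n (nat_lit 39) (nat_lit 3) (.p (nat_lit 40) (nat_lit 1) (.p (nat_lit 50) (nat_lit 1) (.n (nat_lit 55) (nat_lit 1) (.n (nat_lit 56) (nat_lit 1) (.n (nat_lit 57) (nat_lit 1) (.p (nat_lit 58) (nat_lit 1) (.n (nat_lit 70) (nat_lit 1) .z)))))))))))))))))))))))))))))))))))) .nil)))))))))))))))))))))))))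

noncomputable def dC1b_i126 : IL := (.e false (nat_lit 3) (nat_lit 261) (nat_lit 2) (nat_lit 13) (.e false (nat_lit 3) (nat_lit 262) (nat_lit 2) (nat_lit 13) (.e true (nat_lit 3) (nat_lit 263) (nat_lit 2) (nat_lit 13) (.e true (nat_lit 1) (nat_lit 264) (nat_lit 2) (nat_lit 13) (.e false (nat_lit 2) (nat_lit 265) (nat_lit 2) (nat_lit 13) (.e true (nat_lit 2) (nat_lit 266) (nat_lit 2) (nat_lit 13) (.e false (nat_lit 1) (nat_lit 267) (nat_lit 2) (nat_lit 13) (.e false (nat_lit 2) (nat_lit 268) (nat_lit 2) (nat_lit 13) (.e true (nat_lit 2) (nat_lit 270) (nat_lit 2) (nat_lit 13) (.e true (nat_lit 1) (nat_lit 272) (nat_lit 2) (nat_lit 13) (.e false (nat_lit 3) (nat_lit 273) (nat_lit 2) (nat_lit 13) (.e true (nat_lit 3) (nat_lit 274) (nat_lit 2) (nat_lit 13) (.e true (nat_lit 3) (nat_lit 277) (nat_lit 2) (nat_lit 13) (.e true (nat_lit 2) (nat_lit 280) (nat_lit 2) (nat_lit 13)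 (.e false (nat_lit 1) (nat_lit 285) (nat_lit 2) (nat_lit 13) (.e true (nat_lit 2) (nat_lit 286) (nat_lit 2) (nat_lit 13) (.e true (nat_lit 1) (nat_lit 287) (nat_lit 2) (nat_lit 13) (.e true (nat_lit 3) (nat_lit 320) (nat_lit 1) (nat_lit 14) (.e false (nat_lit 2) (nat_lit 321) (nat_lit 1) (nat_lit 14) (.e false (nat_lit 2) (nat_lit 322) (nat_lit 1) (nat_lit 14) (.e true (nat_lit 2) (nat_lit 323) (nat_lit 1) (nat_lit 14) (.e false (nat_lit 3) (nat_lit 325) (nat_lit 1) (nat_lit 14) (.e true (nat_lit 3) (nat_lit 327) (nat_lit 1) (nat_lit 14) (.e true (nat_lit 1) (nat_lit 88) (nat_lit 14) (nat_lit 5) (.u (nat_lit 2) (.n (nat_lit 0) (nat_lit 5) (.p (nat_lit 1) (nat_lit 3) (.p (nat_lit 2) (nat_lit 2) (.n (nat_lit 3) (nat_lit 4) (.n (nat_lit 4) (nat_lit 2) (.p (nat_lit 6) (nat_lit 5) (.p (nat_lit 7) (nat_lit 5) (.p (nat_lit 8) (nat_lit 2) (.n (nat_lit 10) (nat_lit 1) (.n (nat_lit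 12) (nat_lit 2) (.p (nat_lit 13) (nat_lit 1) (.p (nat_lit 15) (nat_lit 2) (.n (nat_lit 17) (nat_lit 1) (.p (nat_lit 18) (nat_lit 1) (.p (nat_lit 22) (nat_lit 1) (.p (nat_lit 23) (nat_lit 1) (.n (nat_lit 24) (nat_lit 1) (.p (nat_lit 27) (nat_lit 2) (.n (nat_lit 30) (nat_lit 1) (.n (nat_lit 33) (nat_lit 3) .z)))))))))))))))))))) .nil)))))))))))))))))))))))))

noncomputable def dC1b_i127 : IL := (.e true (nat_lit 1) (nat_lit 166) (nat_lit 6) (nat_lit 9) (.e true (nat_lit 2) (nat_lit 290) (nat_lit 2) (nat_lit 13) (.e false (nat_lit 2) (nat_lit 291) (nat_lit 2) (nat_lit 13) (.e true (nat_lit 3) (nat_lit 292) (nat_lit 2) (nat_lit 13) (.e false (nat_lit 2) (nat_lit 293) (nat_lit 2) (nat_lit 13) (.e false (nat_lit 3) (nat_lit 294) (nat_lit 2) (nat_lit 13) (.e false (nat_lit 1) (nat_lit 295) (nat_lit 2) (nat_lit 13) (.e false (nat_lit 3) (nat_lit 296) (nat_lit 2) (nat_lit 13) (.e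 true (nat_lit 3) (nat_lit 297) (nat_lit 2) (nat_lit 13) (.e false (nat_lit 2) (nat_lit 298) (nat_lit 2) (nat_lit 13) (.e false (nat_lit 1) (nat_lit 299) (nat_lit 2) (nat_lit 13) (.e false (nat_lit 1) (nat_lit 301) (nat_lit 2) (nat_lit 13) (.e true (nat_lit 1) (nat_lit 302) (nat_lit 2) (nat_lit 13) (.e false (nat_lit 1) (nat_lit 303) (nat_lit 2) (nat_lit 13) (.e true (nat_lit 3) (nat_lit 304) (nat_lit 2) (nat_lit 13) (.e true (nat_lit 3) (nat_lit 305) (nat_lit 2) (nat_lit 13) (.e true (nat_lit 1) (nat_lit 307) (nat_lit 2) (nat_lit 13) (.e false (nat_lit 1) (nat_lit 308) (nat_lit 2) (nat_lit 13) (.e false (nat_lit 2) (nat_lit 310) (nat_lit 2) (nat_lit 13) (.e false (nat_lit 1) (nat_lit 311) (nat_lit 2) (nat_lit 13) (.e false (nat_lit 3) (nat_lit 316) (nat_lit 2) (nat_lit 13) (.e false (nat_lit 2) (nat_lit 317) (nat_lit 2) (nat_lit 13) (.e true (nat_lit 1) (nat_lit 319) (nat_lit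 2) (nat_lit 13) (.e false (nat_lit 1) (nat_lit 331) (nat_lit 1) (nat_lit 14) (.u (nat_lit 2) (.p (nat_lit 0) (nat_lit 5) (.p (nat_lit 1) (nat_lit 1) (.p (nat_lit 2) (nat_lit 2) (.p (nat_lit 3) (nat_lit 2) (.n (nat_lit 4) (nat_lit 1) (.n (nat_lit 7) (nat_lit 5) (.n (nat_lit 8) (nat_lit 1) (.p (nat_lit 9) (nat_lit 1) (.n (nat_lit 10) (nat_lit 1) (.p (nat_lit 11) (nat_lit 1) (.n (nat_lit 12) (nat_lit 1) (.n (nat_lit 13) (nat_lit 3) (.n (nat_lit 14) (nat_lit 2) (.p (nat_lit 16) (nat_lit 3) (.p (nat_lit 17) (nat_lit 2) (.n (nat_lit 19) (nat_lit 1) (.p (nat_lit 21) (nat_lit 1) (.n (nat_lit 22) (nat_lit 1) (.p (nat_lit 24) (nat_lit 1) (.n (nat_lit 27) (nat_lit 1) (.p (nat_lit 33) (nat_lit 2) .z))))))))))))))))))))) .nil)))))))))))))))))))))))))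

noncomputable def dC1b_i128 : IL := (.s false (nat_lit 3) (nat_lit 44) (nat_lit 1) (nat_lit 0) (nat_lit 0) true (nat_lit 11) true (nat_lit 14) false (nat_lit 7) true (nat_lit 13) true (nat_lit 14) (.e true (nat_lit 1) (nat_lit 83) (nat_lit 3) (nat_lit 11) (.e true (nat_lit 1) (nat_lit 85) (nat_lit 3) (nat_lit 11) (.e false (nat_lit 2) (nat_lit 154) (nat_lit 0) (nat_lit 14) (.e true (nat_lit 3) (nat_lit 157) (nat_lit 0) (nat_lit 14) (.e true (nat_lit 3) (nat_lit 161) (nat_lit 0) (nat_lit 14) (.e true (nat_lit 1) (nat_lit 167) (nat_lit 0) (nat_lit 14) (.e true (nat_lit 3) (nat_lit 173) (nat_lit 0) (nat_lit 14) (.e true (nat_lit 2) (nat_lit 19) (nat_lit 18) (nat_lit 0) (.e true (nat_lit 2) (nat_lit 142) (nat_lit 1) (nat_lit 13) (.e false (nat_lit 2) (nat_lit 149) (nat_lit 1) (nat_lit 13) (.e false (nat_lit 3) (nat_lit 82) (nat_lit 3) (nat_lit 11) (.e true (nat_lit 1) (nat_lit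 91) (nat_lit 3) (nat_lit 11) (.e false (nat_lit 3) (nat_lit 88) (nat_lit 3) (nat_lit 11) (.e true (nat_lit 3) (nat_lit 89) (nat_lit 3) (nat_lit 11) (.e false (nat_lit 2) (nat_lit 153) (nat_lit 0) (nat_lit 14) (.e true (nat_lit 2) (nat_lit 155) (nat_lit 0) (nat_lit 14) (.e true (nat_lit 2) (nat_lit 159) (nat_lit 0) (nat_lit 14) (.e true (nat_lit 2) (nat_lit 162) (nat_lit 0) (nat_lit 14) (.e true (nat_lit 3) (nat_lit 163) (nat_lit 0) (nat_lit 14) (.e true (nat_lit 3) (nat_lit 44) (nat_lit 7) (nat_lit 7) (.e false (nat_lit 2) (nat_lit 156) (nat_lit 0) (nat_lit 14) (.e false (nat_lit 2) (nat_lit 160) (nat_lit 0) (nat_lit 14) (.e false (nat_lit 2) (nat_lit 171) (nat_lit 0) (nat_lit 14) (.u (nat_lit 2) (.n (nat_lit 0) (nat_lit 2) (.p (nat_lit 1) (nat_lit 2) (.n (nat_lit 3) (nat_lit 5) (.p (nat_lit 4) (nat_lit 3) (.n (nat_lit 5) (nat_lit 4) (.p (nat_lit 6) (nat_lit 1) (.n (nat_lit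 7) (nat_lit 1) (.n (nat_lit 8) (nat_lit 1) (.n (nat_lit 10) (nat_lit 2) (.p (nat_lit 11) (nat_lit 2) (.p (nat_lit 12) (nat_lit 2) (.n (nat_lit 14) (nat_lit 1) (.p (nat_lit 17) (nat_lit 4) (.p (nat_lit 18) (nat_lit 3) (.p (nat_lit 20) (nat_lit 2) (.p (nat_lit 21) (nat_lit 1) (.p (nat_lit 22) (nat_lit 1) (.n (nat_lit 23) (nat_lit 2) (.p (nat_lit 24) (nat_lit 2) (.n (nat_lit 25) (nat_lit 1) (.n (nat_lit 26) (nat_lit 2) (.p (nat_lit 28) (nat_lit 1) (.n (nat_lit 29) (nat_lit 2) (.p (nat_lit 31) (nat_lit 3) (.n (nat_lit 34) (nat_lit 3) (.p (nat_lit 35) (nat_lit 3) (.n (nat_lit 36) (nat_lit 1) (.n (nat_lit 125) (nat_lit 1) (.n (nat_lit 126) (nat_lit 1) (.p (nat_lit 127) (nat_lit 1) (.p (nat_lit 133) (nat_lit 1) (.n (nat_lit 182) (nat_lit 2) (.n (nat_lit 183) (nat_lit 3) (.n (nat_lit 184) (nat_lit 1) (.p (nat_lit 185) (nat_lit 1) (.n (nat_lit 186) (nat_lit 1) (.n (nat_lit 187)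 (nat_lit 3) (.n (nat_lit 188) (nat_lit 1) (.p (nat_lit 189) (nat_lit 1) (.p (nat_lit 190) (nat_lit 2) (.p (nat_lit 191) (nat_lit 2) (.p (nat_lit 192) (nat_lit 3) (.n (nat_lit 196) (nat_lit 3) (.p (nat_lit 199) (nat_lit 3) (.n (nat_lit 200) (nat_lit 2) (.p (nat_lit 201) (nat_lit 3) (.n (nat_lit 202) (nat_lit 2) .z))))))))))))))))))))))))))))))))))))))))))))))) .nil)))))))))))))))))))))))))

noncomputable def dC1b_i129 : IL := (.e false (nat_lit 3) (nat_lit 174) (nat_lit 1) (nat_lit 11) (.e false (nat_lit 1) (nat_lit 175) (nat_lit 1) (nat_lit 11) (.e true (nat_lit 1) (nat_lit 177) (nat_lit 1) (nat_lit 11) (.e false (nat_lit 1) (nat_lit 178) (nat_lit 1) (nat_lit 11) (.e true (nat_lit 2) (nat_lit 179) (nat_lit 1) (nat_lit 11) (.e false (nat_lit 1) (nat_lit 34) (nat_lit 15) (nat_lit 2) (.e false (nat_lit 3) (nat_lit 132) (nat_lit 2) (nat_lit 10) (.e true (nat_lit 1) (nat_lit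 133) (nat_lit 2) (nat_lit 10) (.e true (nat_lit 1) (nat_lit 134) (nat_lit 2) (nat_lit 10) (.e false (nat_lit 3) (nat_lit 135) (nat_lit 2) (nat_lit 10) (.e true (nat_lit 3) (nat_lit 136) (nat_lit 2) (nat_lit 10) (.e true (nat_lit 1) (nat_lit 137) (nat_lit 2) (nat_lit 10) (.e true (nat_lit 2) (nat_lit 138) (nat_lit 2) (nat_lit 10) (.e true (nat_lit 3) (nat_lit 139) (nat_lit 2) (nat_lit 10) (.e false (nat_lit 2) (nat_lit 140) (nat_lit 2) (nat_lit 10) (.e false (nat_lit 2) (nat_lit 141) (nat_lit 2) (nat_lit 10) (.e true (nat_lit 1) (nat_lit 142) (nat_lit 2) (nat_lit 10) (.e true (nat_lit 2) (nat_lit 144) (nat_lit 2) (nat_lit 10) (.e true (nat_lit 1) (nat_lit 145) (nat_lit 2) (nat_lit 10) (.e false (nat_lit 1) (nat_lit 146) (nat_lit 2) (nat_lit 10) (.e true (nat_lit 2) (nat_lit 148) (nat_lit 2) (nat_lit 10) (.e false (nat_lit 3) (nat_lit 149) (nat_lit 2) (nat_lit 10) (.e true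 (nat_lit 1) (nat_lit 150) (nat_lit 2) (nat_lit 10) (.e false (nat_lit 3) (nat_lit 152) (nat_lit 2) (nat_lit 10) (.u (nat_lit 2) (.n (nat_lit 1) (nat_lit 1) (.n (nat_lit 2) (nat_lit 1) (.p (nat_lit 3) (nat_lit 1) (.n (nat_lit 4) (nat_lit 1) (.p (nat_lit 6) (nat_lit 2) (.p (nat_lit 8) (nat_lit 1) (.n (nat_lit 13) (nat_lit 1) (.p (nat_lit 14) (nat_lit 1) (.n (nat_lit 17) (nat_lit 1) (.n (nat_lit 18) (nat_lit 1) (.p (nat_lit 20) (nat_lit 1) (.p (nat_lit 26) (nat_lit 1) (.p (nat_lit 28) (nat_lit 3) .z))))))))))))) .nil)))))))))))))))))))))))))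

noncomputable def dC1b_i130 : IL := (.e false (nat_lit 3) (nat_lit 181) (nat_lit 1) (nat_lit 11) (.e false (nat_lit 3) (nat_lit 184) (nat_lit 1) (nat_lit 11) (.e false (nat_lit 3) (nat_lit 185) (nat_lit 1) (nat_lit 11) (.e false (nat_lit 1) (nat_lit 188) (nat_lit 1) (nat_lit 11) (.e false (nat_lit 1) (nat_lit 189) (nat_lit 1) (nat_lit 11) (.e true (nat_lit 1) (nat_lit 153) (nat_lit 2) (nat_lit 10) (.e true (nat_lit 1) (nat_lit 154) (nat_lit 2) (nat_lit 10) (.e false (nat_lit 1) (nat_lit 156) (nat_lit 2) (nat_lit 10) (.e true (nat_lit 3) (nat_lit 157) (nat_lit 2) (nat_lit 10) (.e true (nat_lit 1) (nat_lit 158) (nat_lit 2) (nat_lit 10) (.e true (nat_lit 3) (nat_lit 159) (nat_lit 2) (nat_lit 10) (.e false (nat_lit 3) (nat_lit 160) (nat_lit 2) (nat_lit 10) (.e false (nat_lit 3) (nat_lit 161) (nat_lit 2) (nat_lit 10) (.e true (nat_lit 2) (nat_lit 162) (nat_lit 2) (nat_lit 10)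 (.e true (nat_lit 2) (nat_lit 165) (nat_lit 2) (nat_lit 10) (.e false (nat_lit 1) (nat_lit 168) (nat_lit 2) (nat_lit 10) (.e false (nat_lit 2) (nat_lit 170) (nat_lit 2) (nat_lit 10) (.e true (nat_lit 3) (nat_lit 171) (nat_lit 2) (nat_lit 10) (.e false (nat_lit 1) (nat_lit 172) (nat_lit 2) (nat_lit 10) (.e false (nat_lit 1) (nat_lit 173) (nat_lit 2) (nat_lit 10) (.e true (nat_lit 2) (nat_lit 155) (nat_lit 2) (nat_lit 10) (.e true (nat_lit 2) (nat_lit 166) (nat_lit 2) (nat_lit 10) (.e true (nat_lit 1) (nat_lit 167) (nat_lit 2) (nat_lit 10) (.e false (nat_lit 1) (nat_lit 190) (nat_lit 1) (nat_lit 11) (.u (nat_lit 2) (.n (nat_lit 0) (nat_lit 1) (.p (nat_lit 2) (nat_lit 1) (.n (nat_lit 3) (nat_lit 3) (.n (nat_lit 4) (nat_lit 1) (.n (nat_lit 5) (nat_lit 1) (.n (nat_lit 6) (nat_lit 2) (.p (nat_lit 7) (nat_lit 2) (.p (nat_lit 8) (nat_lit 1) (.n (nat_lit 9) (nat_lit 2) (.n (nat_lit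 10) (nat_lit 1) (.n (nat_lit 11) (nat_lit 1) (.p (nat_lit 14) (nat_lit 2) (.n (nat_lit 15) (nat_lit 1) (.p (nat_lit 17) (nat_lit 1) (.n (nat_lit 20) (nat_lit 2) (.p (nat_lit 22) (nat_lit 1) (.p (nat_lit 23) (nat_lit 1) (.p (nat_lit 27) (nat_lit 1) (.p (nat_lit 97) (nat_lit 1) (.p (nat_lit 100) (nat_lit 2) (.p (nat_lit 101) (nat_lit 1) (.p (nat_lit 102) (nat_lit 1) (.n (nat_lit 104) (nat_lit 1) (.p (nat_lit 108) (nat_lit 1) (.p (nat_lit 110) (nat_lit 1) (.n (nat_lit 113) (nat_lit 2) (.p (nat_lit 114) (nat_lit 2) (.n (nat_lit 115) (nat_lit 1) (.n (nat_lit 116) (nat_lit 1) (.n (nat_lit 117) (nat_lit 1) (.n (nat_lit 118) (nat_lit 1) (.n (nat_lit 122) (nat_lit 1) .z)))))))))))))))))))))))))))))))) .nil)))))))))))))))))))))))))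

noncomputable def dC1b_i131 : IL := (.e false (nat_lit 1) (nat_lit 234) (nat_lit 2) (nat_lit 17) (.e true (nat_lit 3) (nat_lit 237) (nat_lit 2) (nat_lit 17) (.e true (nat_lit 3) (nat_lit 238) (nat_lit 2) (nat_lit 17) (.e false (nat_lit 2) (nat_lit 239) (nat_lit 2) (nat_lit 17) (.e false (nat_lit 3) (nat_lit 240) (nat_lit 2) (nat_lit 17) (.e false (nat_lit 2) (nat_lit 241) (nat_lit 2) (nat_lit 17) (.e true (nat_lit 2) (nat_lit 243) (nat_lit 2) (nat_lit 17) (.e true (nat_lit 3) (nat_lit 244) (nat_lit 2) (nat_lit 17) (.e false (nat_lit 2) (nat_lit 245) (nat_lit 2) (nat_lit 17) (.e true (nat_lit 3) (nat_lit 246) (nat_lit 2) (nat_lit 17) (.e false (nat_lit 3) (nat_lit 248) (nat_lit 2) (nat_lit 17) (.e true (nat_lit 2) (nat_lit 249) (nat_lit 2) (nat_lit 17) (.e true (nat_lit 3) (nat_lit 250) (nat_lit 2) (nat_lit 17) (.e false (nat_lit 2) (nat_lit 251) (nat_lit 2) (nat_lit 17)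 (.e false (nat_lit 3) (nat_lit 252) (nat_lit 2) (nat_lit 17) (.e true (nat_lit 3) (nat_lit 253) (nat_lit 2) (nat_lit 17) (.e true (nat_lit 2) (nat_lit 258) (nat_lit 2) (nat_lit 17) (.e false (nat_lit 1) (nat_lit 236) (nat_lit 2) (nat_lit 17) (.e true (nat_lit 2) (nat_lit 225) (nat_lit 2) (nat_lit 17) (.e false (nat_lit 2) (nat_lit 247) (nat_lit 2) (nat_lit 17) (.e false (nat_lit 2) (nat_lit 233) (nat_lit 2) (nat_lit 17) (.e true (nat_lit 2) (nat_lit 35) (nat_lit 31) (nat_lit 0) (.e false (nat_lit 2) (nat_lit 35) (nat_lit 34) (nat_lit 0) (.u (nat_lit 2) (.n (nat_lit 3) (nat_lit 3) (.p (nat_lit 5) (nat_lit 2) (.p (nat_lit 6) (nat_lit 1) (.n (nat_lit 7) (nat_lit 3) (.n (nat_lit 8) (nat_lit 3) (.n (nat_lit 9) (nat_lit 2) (.n (nat_lit 10) (nat_lit 4) (.p (nat_lit 11) (nat_lit 1) (.p (nat_lit 12) (nat_lit 2) (.n (nat_lit 13) (nat_lit 1) (.n (nat_lit 14) (nat_lit 1) (.n (nat_lit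 17) (nat_lit 1) (.n (nat_lit 18) (nat_lit 4) (.p (nat_lit 19) (nat_lit 3) (.p (nat_lit 20) (nat_lit 3) (.p (nat_lit 24) (nat_lit 1) (.p (nat_lit 25) (nat_lit 1) (.p (nat_lit 26) (nat_lit 1) (.p (nat_lit 27) (nat_lit 3) (.p (nat_lit 28) (nat_lit 5) (.n (nat_lit 29) (nat_lit 3) (.p (nat_lit 31) (nat_lit 1) (.p (nat_lit 33) (nat_lit 4) (.n (nat_lit 34) (nat_lit 2) (.p (nat_lit 35) (nat_lit 6) (.n (nat_lit 36) (nat_lit 4) (.n (nat_lit 37) (nat_lit 3) (.p (nat_lit 38) (nat_lit 6) (.n (nat_lit 39) (nat_lit 3) (.n (nat_lit 40) (nat_lit 2) (.n (nat_lit 41) (nat_lit 5) (.n (nat_lit 45) (nat_lit 1) (.p (nat_lit 46) (nat_lit 1) (.n (nat_lit 48) (nat_lit 2) (.p (nat_lit 49) (nat_lit 4) (.p (nat_lit 50) (nat_lit 1) (.n (nat_lit 51) (nat_lit 2) (.n (nat_lit 54) (nat_lit 2) (.n (nat_lit 55) (nat_lit 2) (.p (nat_lit 56) (nat_lit 1) (.n (nat_lit 58) (nat_lit 1) (.n (nat_lit 59) (nat_lit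 1) (.p (nat_lit 60) (nat_lit 1) (.n (nat_lit 61) (nat_lit 1) (.n (nat_lit 63) (nat_lit 1) (.n (nat_lit 64) (nat_lit 1) (.p (nat_lit 66) (nat_lit 1) (.p (nat_lit 67) (nat_lit 3) (.n (nat_lit 68) (nat_lit 1) (.n (nat_lit 69) (nat_lit 1) (.p (nat_lit 70) (nat_lit 2) (.n (nat_lit 99) (nat_lit 1) (.p (nat_lit 328) (nat_lit 1) (.p (nat_lit 330) (nat_lit 2) (.n (nat_lit 331) (nat_lit 1) (.n (nat_lit 334) (nat_lit 1) (.n (nat_lit 337) (nat_lit 1) (.n (nat_lit 338) (nat_lit 1) (.p (nat_lit 339) (nat_lit 1) (.p (nat_lit 340) (nat_lit 1) .z)))))))))))))))))))))))))))))))))))))))))))))))))))))))))))) (.u (nat_lit 2) (.p (nat_lit 342) (nat_lit 1) (.p (nat_lit 344) (nat_lit 1) (.n (nat_lit 346) (nat_lit 1) (.p (nat_lit 350) (nat_lit 1) (.p (nat_lit 351) (nat_lit 1) (.p (nat_lit 352) (nat_lit 2) (.p (nat_lit 353) (nat_lit 1) (.n (nat_lit 355) (nat_lit 1) (.n (nat_lit 356) (nat_lit 1)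 (.n (nat_lit 357) (nat_lit 1) (.p (nat_lit 358) (nat_lit 1) (.p (nat_lit 359) (nat_lit 1) (.n (nat_lit 360) (nat_lit 1) (.n (nat_lit 363) (nat_lit 2) (.p (nat_lit 365) (nat_lit 1) (.n (nat_lit 367) (nat_lit 1) (.p (nat_lit 368) (nat_lit 1) (.n (nat_lit 375) (nat_lit 2) (.p (nat_lit 376) (nat_lit 1) (.p (nat_lit 377) (nat_lit 1) (.n (nat_lit 379) (nat_lit 1) (.p (nat_lit 380) (nat_lit 2) (.p (nat_lit 381) (nat_lit 2) (.p (nat_lit 383) (nat_lit 1) (.n (nat_lit 384) (nat_lit 4) (.n (nat_lit 385) (nat_lit 2) (.n (nat_lit 386) (nat_lit 1) (.p (nat_lit 387) (nat_lit 3) (.n (nat_lit 388) (nat_lit 1) (.p (nat_lit 389) (nat_lit 3) (.n (nat_lit 392) (nat_lit 3) (.n (nat_lit 394) (nat_lit 4) (.n (nat_lit 395) (nat_lit 1) (.p (nat_lit 397) (nat_lit 1) (.p (nat_lit 400) (nat_lit 1) (.p (nat_lit 401) (nat_lit 2) (.p (nat_lit 402) (nat_lit 3) (.p (nat_lit 403) (nat_lit 1) (.n (nat_lit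 404) (nat_lit 2) (.n (nat_lit 406) (nat_lit 1) (.n (nat_lit 407) (nat_lit 1) (.n (nat_lit 408) (nat_lit 2) (.n (nat_lit 409) (nat_lit 2) (.n (nat_lit 411) (nat_lit 1) (.p (nat_lit 413) (nat_lit 1) (.p (nat_lit 414) (nat_lit 1) (.n (nat_lit 416) (nat_lit 1) (.p (nat_lit 417) (nat_lit 2) (.p (nat_lit 419) (nat_lit 1) (.n (nat_lit 420) (nat_lit 1) (.n (nat_lit 422) (nat_lit 2) (.p (nat_lit 423) (nat_lit 1) (.n (nat_lit 426) (nat_lit 1) (.n (nat_lit 429) (nat_lit 1) (.n (nat_lit 430) (nat_lit 1) (.p (nat_lit 432) (nat_lit 2) (.p (nat_lit 434) (nat_lit 1) .z))))))))))))))))))))))))))))))))))))))))))))))))))))))))) .nil)))))))))))))))))))))))))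

noncomputable def dC1b_i132 : IL := (.e true (nat_lit 1) (nat_lit 316) (nat_lit 0) (nat_lit 19) (.e true (nat_lit 3) (nat_lit 317) (nat_lit 0) (nat_lit 19) (.e false (nat_lit 3) (nat_lit 318) (nat_lit 0) (nat_lit 19) (.e true (nat_lit 2) (nat_lit 319) (nat_lit 0) (nat_lit 19) (.e true (nat_lit 1) (nat_lit 39) (nat_lit 30) (nat_lit 1) (.e false (nat_lit 2) (nat_lit 297) (nat_lit 0) (nat_lit 19) (.e true (nat_lit 2) (nat_lit 302) (nat_lit 0) (nat_lit 19) (.e false (nat_lit 1) (nat_lit 305) (nat_lit 0) (nat_lit 19) (.e false (nat_lit 2) (nat_lit 310) (nat_lit 0) (nat_lit 19) (.e false (nat_lit 2) (nat_lit 307) (nat_lit 0) (nat_lit 19) (.e false (nat_lit 1) (nat_lit 64) (nat_lit 17) (nat_lit 6) (.e false (nat_lit 1) (nat_lit 184) (nat_lit 3) (nat_lit 16) (.e true (nat_lit 2) (nat_lit 212) (nat_lit 2) (nat_lit 17) (.e true (nat_lit 3) (nat_lit 213) (nat_lit 2) (nat_lit 17)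 (.e true (nat_lit 2) (nat_lit 215) (nat_lit 2) (nat_lit 17) (.e false (nat_lit 3) (nat_lit 218) (nat_lit 2) (nat_lit 17) (.e true (nat_lit 3) (nat_lit 219) (nat_lit 2) (nat_lit 17) (.e false (nat_lit 2) (nat_lit 220) (nat_lit 2) (nat_lit 17) (.e true (nat_lit 3) (nat_lit 221) (nat_lit 2) (nat_lit 17) (.e false (nat_lit 1) (nat_lit 222) (nat_lit 2) (nat_lit 17) (.e true (nat_lit 1) (nat_lit 223) (nat_lit 2) (nat_lit 17) (.e false (nat_lit 2) (nat_lit 226) (nat_lit 2) (nat_lit 17) (.e false (nat_lit 2) (nat_lit 228) (nat_lit 2) (nat_lit 17) (.e true (nat_lit 1) (nat_lit 230) (nat_lit 2) (nat_lit 17) (.e false (nat_lit 2) (nat_lit 231) (nat_lit 2) (nat_lit 17) dC1b_i131)))))))))))))))))))))))))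

noncomputable def dC1b_i133 : IL := (.e true (nat_lit 3) (nat_lit 263) (nat_lit 1) (nat_lit 18) (.e false (nat_lit 3) (nat_lit 280) (nat_lit 1) (nat_lit 18) (.e false (nat_lit 3) (nat_lit 282) (nat_lit 1) (nat_lit 18) (.e false (nat_lit 2) (nat_lit 289) (nat_lit 1) (nat_lit 18) (.e true (nat_lit 3) (nat_lit 271) (nat_lit 1) (nat_lit 18) (.e true (nat_lit 2) (nat_lit 286) (nat_lit 1) (nat_lit 18) (.e false (nat_lit 2) (nat_lit 270) (nat_lit 1) (nat_lit 18) (.e true (nat_lit 2) (nat_lit 287) (nat_lit 1) (nat_lit 18) (.e true (nat_lit 2) (nat_lit 281) (nat_lit 1) (nat_lit 18) (.e false (nat_lit 2) (nat_lit 268) (nat_lit 1) (nat_lit 18) (.e false (nat_lit 1) (nat_lit 61) (nat_lit 17) (nat_lit 6) (.e true (nat_lit 2) (nat_lit 290) (nat_lit 0) (nat_lit 19) (.e true (nat_lit 1) (nat_lit 291) (nat_lit 0) (nat_lit 19) (.e true (nat_lit 2) (nat_lit 292) (nat_lit 0) (nat_lit 19)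 (.e true (nat_lit 3) (nat_lit 294) (nat_lit 0) (nat_lit 19) (.e true (nat_lit 1) (nat_lit 295) (nat_lit 0) (nat_lit 19) (.e false (nat_lit 2) (nat_lit 296) (nat_lit 0) (nat_lit 19) (.e true (nat_lit 3) (nat_lit 298) (nat_lit 0) (nat_lit 19) (.e true (nat_lit 2) (nat_lit 300) (nat_lit 0) (nat_lit 19) (.e false (nat_lit 3) (nat_lit 301) (nat_lit 0) (nat_lit 19) (.e true (nat_lit 1) (nat_lit 304) (nat_lit 0) (nat_lit 19) (.e true (nat_lit 3) (nat_lit 308) (nat_lit 0) (nat_lit 19) (.e false (nat_lit 2) (nat_lit 309) (nat_lit 0) (nat_lit 19) (.e false (nat_lit 2) (nat_lit 311) (nat_lit 0) (nat_lit 19) (.e false (nat_lit 3) (nat_lit 313) (nat_lit 0) (nat_lit 19) dC1b_i132)))))))))))))))))))))))))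

noncomputable def dC1b_t0 : Tr := (.nd (.nd (.nd (.nd (.nd (.nd (.nd .leaf (nat_lit 41997) (nat_lit 790) (.p (nat_lit 291) (nat_lit 2) (.p (nat_lit 292) (nat_lit 1) (.n (nat_lit 293) (nat_lit 3) (.p (nat_lit 294) (nat_lit 3) (.n (nat_lit 295) (nat_lit 1) (.p (nat_lit 296) (nat_lit 1) (.n (nat_lit 297) (nat_lit 3) (.p (nat_lit 298) (nat_lit 2) (.n (nat_lit 299) (nat_lit 2) (.p (nat_lit 300) (nat_lit 2) (.n (nat_lit 301) (nat_lit 3) (.p (nat_lit 302) (nat_lit 1) (.n (nat_lit 303) (nat_lit 3) (.n (nat_lit 304) (nat_lit 2) (.p (nat_lit 305) (nat_lit 3) (.n (nat_lit 306) (nat_lit 2) (.p (nat_lit 307) (nat_lit 1) (.n (nat_lit 308) (nat_lit 2) (.p (nat_lit 309) (nat_lit 2) (.n (nat_lit 310) (nat_lit 3) (.n (nat_lit 311) (nat_lit 1) (.n (nat_lit 314) (nat_lit 2) (.p (nat_lit 315) (nat_lit 2) (.n (nat_lit 316) (nat_lit 1) (.p (nat_lit 317) (nat_lit 1) (.n (nat_lit 318) (nat_lit 3) (.p (nat_lit 319) (nat_lit 1) .z))))))))))))))))))))))))))) (.ct dC1b_c292 (nat_lit 1) (nat_lit 3) (.s true (nat_lit 1) (nat_lit 13) (nat_lit 2) (nat_lit 2) (nat_lit 4) true (nat_lit 2) true (nat_lit 8) true (nat_lit 3) true (nat_lit 10) true (nat_lit 10) (.e true (nat_lit 1) (nat_lit 37) (nat_lit 14) (nat_lit 2) (.e true (nat_lit 1) (nat_lit 93) (nat_lit 4) (nat_lit 8) (.e true (nat_lit 1) (nat_lit 42) (nat_lit 13) (nat_lit 3) (.e true (nat_lit 2) (nat_lit 153) (nat_lit 2) (nat_lit 10) (.e true (nat_lit 2) (nat_lit 154) (nat_lit 2) (nat_lit 10) (.e false (nat_lit 1) (nat_lit 155) (nat_lit 2) (nat_lit 10) (.e true (nat_lit 1) (nat_lit 156) (nat_lit 2) (nat_lit 10) (.e true (nat_lit 1) (nat_lit 157) (nat_lit 2) (nat_lit 10) (.e false (nat_lit 1) (nat_lit 160) (nat_lit 2) (nat_lit 10) (.e true (nat_lit 1) (nat_lit 162) (nat_lit 2) (nat_lit 10) (.e false (nat_lit 1) (nat_lit 167) (nat_lit 2) (nat_lit 10) (.e false (nat_lit 1) (nat_lit 169) (nat_lit 2) (nat_lit 10) (.e false (nat_lit 1) (nat_lit 170) (nat_lit 2) (nat_lit 10) (.e false (nat_lit 1) (nat_lit 171) (nat_lit 2) (nat_lit 10) (.e true (nat_lit 1) (nat_lit 172) (nat_lit 2) (nat_lit 10) (.e true (nat_lit 1) (nat_lit 173) (nat_lit 2) (nat_lit 10) (.u (nat_lit 2) (.n (nat_lit 0) (nat_lit 1) (.n (nat_lit 1) (nat_lit 1) (.n (nat_lit 4) (nat_lit 1) (.p (nat_lit 13) (nat_lit 1) (.p (nat_lit 26) (nat_lit 1) .z))))) .nil))))))))))))))))))) .leaf) (nat_lit 41998) (nat_lit 817) (.n (nat_lit 320) (nat_lit 2) (.n (nat_lit 321) (nat_lit 2) (.n (nat_lit 323) (nat_lit 1) (.n (nat_lit 324) (nat_lit 1) (.n (nat_lit 325) (nat_lit 3) (.n (nat_lit 326) (nat_lit 1) (.p (nat_lit 327) (nat_lit 1) .z))))))) (.ct dC1b_c517 (nat_lit 1) (nat_lit 1) (.s false (nat_lit 1) (nat_lit 41) (nat_lit 2) (nat_lit 0) (nat_lit 2) true (nat_lit 3) true (nat_lit 5) false (nat_lit 1) true (nat_lit 5) true (nat_lit 6) (.e true (nat_lit 1) (nat_lit 81) (nat_lit 6) (nat_lit 3) (.e true (nat_lit 2) (nat_lit 174) (nat_lit 2) (nat_lit 5) (.e true (nat_lit 2) (nat_lit 176) (nat_lit 2) (nat_lit 5) (.e true (nat_lit 1) (nat_lit 177) (nat_lit 2) (nat_lit 5) (.e true (nat_lit 2) (nat_lit 178) (nat_lit 2) (nat_lit 5) (.e true (nat_lit 1) (nat_lit 179) (nat_lit 2) (nat_lit 5) (.e true (nat_lit 1) (nat_lit 175) (nat_lit 2) (nat_lit 5) (.e false (nat_lit 1) (nat_lit 203) (nat_lit 0) (nat_lit 6) (.u (nat_lit 2) (.p (nat_lit 5) (nat_lit 1) .z) .nil))))))))))) (.nd .leaf (nat_lit 41999) (nat_lit 812) (.p (nat_lit 321) (nat_lit 2) (.n (nat_lit 322) (nat_lit 2) (.p (nat_lit 323) (nat_lit 3) (.p (nat_lit 324) (nat_lit 1) (.n (nat_lit 325) (nat_lit 1) (.p (nat_lit 327) (nat_lit 2) .z)))))) (.ct dC1b_c517 (nat_lit 1) (nat_lit 1) (.s true (nat_lit 1) (nat_lit 6) (nat_lit 4) (nat_lit 0) (nat_lit 6) false (nat_lit 1) true (nat_lit 3) true (nat_lit 3) true (nat_lit 4) true (nat_lit 6) (.e true (nat_lit 1) (nat_lit 42) (nat_lit 15) (nat_lit 1) (.e false (nat_lit 1) (nat_lit 79) (nat_lit 6) (nat_lit 3) (.e true (nat_lit 1) (nat_lit 81) (nat_lit 6) (nat_lit 3) (.e false (nat_lit 2) (nat_lit 99) (nat_lit 4) (nat_lit 4) (.e false (nat_lit 2) (nat_lit 100) (nat_lit 4) (nat_lit 4) (.u (nat_lit 2) (.p (nat_lit 1) (nat_lit 1) (.p (nat_lit 2) (nat_lit 1) (.n (nat_lit 5) (nat_lit 1) .z))) .nil)))))))) .leaf)) (nat_lit 42000) (nat_lit 875) (.n (nat_lit 328) (nat_lit 3) (.p (nat_lit 329) (nat_lit 2) (.n (nat_lit 330) (nat_lit 3) (.p (nat_lit 331) (nat_lit 2) (.p (nat_lit 332) (nat_lit 3) (.n (nat_lit 334) (nat_lit 3) (.n (nat_lit 335) (nat_lit 1) (.n (nat_lit 336) (nat_lit 3) (.p (nat_lit 338) (nat_lit 1) (.p (nat_lit 341) (nat_lit 1) (.p (nat_lit 343) (nat_lit 1) (.p (nat_lit 344) (nat_lit 1) (.n (nat_lit 346) (nat_lit 1) .z))))))))))))) (.ct dC1b_c277 (nat_lit 1) (nat_lit 1) (.s true (nat_lit 1) (nat_lit 41) (nat_lit 1) (nat_lit 2) (nat_lit 2) true (nat_lit 5) true (nat_lit 8) false (nat_lit 1) true (nat_lit 9) true (nat_lit 8) (.e true (nat_lit 1) (nat_lit 99) (nat_lit 5) (nat_lit 5) (.e true (nat_lit 1) (nat_lit 180) (nat_lit 2) (nat_lit 8) (.e true (nat_lit 1) (nat_lit 183) (nat_lit 2) (nat_lit 8) (.e false (nat_lit 1) (nat_lit 184) (nat_lit 2) (nat_lit 8) (.e true (nat_lit 1) (nat_lit 185) (nat_lit 2) (nat_lit 8) (.e true (nat_lit 3) (nat_lit 186) (nat_lit 2) (nat_lit 8) (.e false (nat_lit 1) (nat_lit 188) (nat_lit 2) (nat_lit 8) (.e false (nat_lit 2) (nat_lit 203) (nat_lit 1) (nat_lit 9) (.e false (nat_lit 2) (nat_lit 204) (nat_lit 1) (nat_lit 9) (.e true (nat_lit 1) (nat_lit 206) (nat_lit 1) (nat_lit 9) (.e false (nat_lit 2) (nat_lit 189) (nat_lit 2) (nat_lit 8) (.e true (nat_lit 1) (nat_lit 191) (nat_lit 2) (nat_lit 8) (.e true (nat_lit 1) (nat_lit 192) (nat_lit 2) (nat_lit 8) (.e true (nat_lit 2) (nat_lit 193) (nat_lit 2) (nat_lit 8) (.e true (nat_lit 1) (nat_lit 195) (nat_lit 2) (nat_lit 8) (.u (nat_lit 2) (.n (nat_lit 0) (nat_lit 1) (.p (nat_lit 4) (nat_lit 1) (.n (nat_lit 5) (nat_lit 1) (.p (nat_lit 8) (nat_lit 1) .z)))) .nil)))))))))))))))))) (.nd (.nd .leaf (nat_lit 42001) (nat_lit 868) (.n (nat_lit 328) (nat_lit 2) (.p (nat_lit 329) (nat_lit 3) (.n (nat_lit 330) (nat_lit 1) (.p (nat_lit 331) (nat_lit 2) (.p (nat_lit 332) (nat_lit 3) (.n (nat_lit 333) (nat_lit 2) (.n (nat_lit 334) (nat_lit 3) (.p (nat_lit 335) (nat_lit 1) (.n (nat_lit 336) (nat_lit 1) (.p (nat_lit 337) (nat_lit 2) (.n (nat_lit 338) (nat_lit 1) (.p (nat_lit 340) (nat_lit 1) (.n (nat_lit 341) (nat_lit 1) (.p (nat_lit 343) (nat_lit 2) (.p (nat_lit 344) (nat_lit 1) (.p (nat_lit 346) (nat_lit 1) .z)))))))))))))))) (.ct dC1b_c277 (nat_lit 1) (nat_lit 1) (.s false (nat_lit 1) (nat_lit 41) (nat_lit 2) (nat_lit 2) (nat_lit 1) true (nat_lit 5) true (nat_lit 9) false (nat_lit 1) true (nat_lit 8) true (nat_lit 8) (.e false (nat_lit 1) (nat_lit 99) (nat_lit 5) (nat_lit 5) (.e false (nat_lit 1) (nat_lit 203) (nat_lit 1) (nat_lit 9) (.e true (nat_lit 1) (nat_lit 180) (nat_lit 2) (nat_lit 8) (.e true (nat_lit 2) (nat_lit 181) (nat_lit 2) (nat_lit 8) (.e false (nat_lit 3) (nat_lit 183) (nat_lit 2) (nat_lit 8) (.e false (nat_lit 2) (nat_lit 184) (nat_lit 2) (nat_lit 8) (.e true (nat_lit 1) (nat_lit 185) (nat_lit 2) (nat_lit 8) (.e true (nat_lit 2) (nat_lit 186) (nat_lit 2) (nat_lit 8) (.e true (nat_lit 2) (nat_lit 188) (nat_lit 2) (nat_lit 8) (.e false (nat_lit 2) (nat_lit 189) (nat_lit 2) (nat_lit 8) (.e false (nat_lit 1) (nat_lit 191) (nat_lit 2) (nat_lit 8) (.e false (nat_lit 1) (nat_lit 193) (nat_lit 2) (nat_lit 8) (.e true (nat_lit 1) (nat_lit 194) (nat_lit 2) (nat_lit 8) (.e false (nat_lit 1) (nat_lit 195) (nat_lit 2) (nat_lit 8) (.e true (nat_lit 1) (nat_lit 182) (nat_lit 2) (nat_lit 8) (.e false (nat_lit 1) (nat_lit 187) (nat_lit 2) (nat_lit 8) (.e true (nat_lit 1) (nat_lit 190) (nat_lit 2) (nat_lit 8) (.u (nat_lit 2) (.p (nat_lit 0) (nat_lit 1) (.n (nat_lit 1) (nat_lit 1) (.n (nat_lit 4) (nat_lit 1) (.p (nat_lit 5) (nat_lit 1) (.n (nat_lit 8) (nat_lit 1) (.p (nat_lit 61) (nat_lit 1) (.n (nat_lit 63) (nat_lit 1) .z))))))) .nil)))))))))))))))))))) .leaf) (nat_lit 42008) (nat_lit 1117) (.n (nat_lit 355) (nat_lit 1) (.p (nat_lit 356) (nat_lit 3) (.n (nat_lit 357) (nat_lit 3) (.n (nat_lit 358) (nat_lit 3) (.n (nat_lit 359) (nat_lit 3) (.n (nat_lit 360) (nat_lit 3) (.n (nat_lit 363) (nat_lit 2) (.p (nat_lit 364) (nat_lit 2) (.p (nat_lit 365) (nat_lit 3) (.n (nat_lit 366) (nat_lit 1) (.p (nat_lit 367) (nat_lit 2) (.p (nat_lit 369) (nat_lit 1) (.n (nat_lit 370) (nat_lit 1) (.p (nat_lit 372) (nat_lit 3) (.p (nat_lit 373) (nat_lit 1) (.p (nat_lit 374) (nat_lit 1) (.p (nat_lit 375) (nat_lit 3) (.p (nat_lit 379) (nat_lit 2) (.p (nat_lit 380) (nat_lit 2) (.p (nat_lit 382) (nat_lit 2) (.n (nat_lit 383) (nat_lit 1) (.n (nat_lit 384) (nat_lit 1) (.n (nat_lit 385) (nat_lit 2) (.n (nat_lit 386) (nat_lit 2) (.n (nat_lit 387) (nat_lit 2) (.p (nat_lit 388) (nat_lit 1) (.p (nat_lit 389) (nat_lit 3) (.p (nat_lit 390) (nat_lit 3) (.p (nat_lit 391) (nat_lit 1) (.n (nat_lit 392) (nat_lit 1) (.p (nat_lit 393) (nat_lit 3) (.n (nat_lit 395) (nat_lit 2) (.p (nat_lit 396) (nat_lit 3) (.n (nat_lit 400) (nat_lit 2) (.p (nat_lit 401) (nat_lit 3) (.n (nat_lit 404) (nat_lit 1) (.p (nat_lit 405) (nat_lit 2) (.n (nat_lit 408) (nat_lit 2) (.p (nat_lit 409) (nat_lit 3) (.n (nat_lit 410) (nat_lit 1) (.p (nat_lit 413) (nat_lit 3) (.p (nat_lit 414) (nat_lit 2) (.n (nat_lit 415) (nat_lit 3) (.p (nat_lit 417) (nat_lit 3) (.p (nat_lit 419) (nat_lit 3) (.n (nat_lit 420) (nat_lit 3) (.n (nat_lit 424) (nat_lit 1) (.n (nat_lit 425) (nat_lit 1) .z)))))))))))))))))))))))))))))))))))))))))))))))) (.ct dC1b_c548 (nat_lit 1) (nat_lit 2) (.s false (nat_lit 1) (nat_lit 15) (nat_lit 2) (nat_lit 2) (nat_lit 8) true (nat_lit 2) true (nat_lit 11) true (nat_lit 7) true (nat_lit 17) true (nat_lit 17) (.e false (nat_lit 1) (nat_lit 99) (nat_lit 8) (nat_lit 11) (.e true (nat_lit 1) (nat_lit 74) (nat_lit 15) (nat_lit 7) (.e false (nat_lit 2) (nat_lit 212) (nat_lit 2) (nat_lit 17) (.e false (nat_lit 2) (nat_lit 213) (nat_lit 2) (nat_lit 17) (.e true (nat_lit 3) (nat_lit 214) (nat_lit 2) (nat_lit 17) (.e true (nat_lit 3) (nat_lit 215) (nat_lit 2) (nat_lit 17) (.e true (nat_lit 2) (nat_lit 216) (nat_lit 2) (nat_lit 17) (.e false (nat_lit 3) (nat_lit 217) (nat_lit 2) (nat_lit 17) (.e true (nat_lit 3) (nat_lit 218) (nat_lit 2) (nat_lit 17) dC1b_i0))))))))))) .leaf)) (nat_lit 42015) (nat_lit 1310) (.p (nat_lit 426) (nat_lit 1) (.p (nat_lit 427) (nat_lit 3) (.n (nat_lit 429) (nat_lit 2) (.n (nat_lit 431) (nat_lit 3) (.n (nat_lit 432) (nat_lit 2) (.n (nat_lit 433) (nat_lit 2) (.p (nat_lit 435) (nat_lit 1) (.n (nat_lit 436) (nat_lit 2) (.n (nat_lit 438) (nat_lit 1) (.n (nat_lit 439) (nat_lit 2) (.n (nat_lit 440) (nat_lit 2) (.p (nat_lit 441) (nat_lit 2) (.p (nat_lit 442) (nat_lit 1) (.p (nat_lit 443) (nat_lit 2) (.p (nat_lit 444) (nat_lit 3) (.n (nat_lit 445) (nat_lit 1) (.p (nat_lit 446) (nat_lit 1) (.n (nat_lit 448) (nat_lit 2) (.n (nat_lit 451) (nat_lit 2) (.p (nat_lit 454) (nat_lit 2) (.n (nat_lit 456) (nat_lit 2) (.n (nat_lit 459) (nat_lit 2) .z)))))))))))))))))))))) (.ct dC1b_c533 (nat_lit 1) (nat_lit 0) dC1b_i1) (.nd (.nd (.nd .leaf (nat_lit 42016) (nat_lit 1293) (.p (nat_lit 426) (nat_lit 3) (.p (nat_lit 427) (nat_lit 1) (.n (nat_lit 428) (nat_lit 2) (.n (nat_lit 429) (nat_lit 1) (.p (nat_lit 432) (nat_lit 1) (.p (nat_lit 433) (nat_lit 1) (.p (nat_lit 435) (nat_lit 3) (.p (nat_lit 438) (nat_lit 3) (.p (nat_lit 439) (nat_lit 2) (.p (nat_lit 441) (nat_lit 1) (.p (nat_lit 442) (nat_lit 3) (.n (nat_lit 444) (nat_lit 2) (.n (nat_lit 445) (nat_lit 2) (.p (nat_lit 447) (nat_lit 2) (.n (nat_lit 448) (nat_lit 2) (.n (nat_lit 449) (nat_lit 1) (.p (nat_lit 450) (nat_lit 1) (.n (nat_lit 455) (nat_lit 2) (.p (nat_lit 456) (nat_lit 2) (.n (nat_lit 458) (nat_lit 2) (.p (nat_lit 459) (nat_lit 3) .z))))))))))))))))))))) (.ct dC1b_c533 (nat_lit 1) (nat_lit 0) (.s false (nat_lit 1) (nat_lit 32) (nat_lit 0) (nat_lit 6) (nat_lit 2) true (nat_lit 11) true (nat_lit 13) true (nat_lit 0) true (nat_lit 15) true (nat_lit 9) (.e false (nat_lit 1) (nat_lit 193) (nat_lit 4) (nat_lit 11) (.e true (nat_lit 2) (nat_lit 260) (nat_lit 2) (nat_lit 13) (.e false (nat_lit 2) (nat_lit 261) (nat_lit 2) (nat_lit 13) (.e true (nat_lit 2) (nat_lit 262) (nat_lit 2) (nat_lit 13) (.e true (nat_lit 3) (nat_lit 263) (nat_lit 2) (nat_lit 13) (.e false (nat_lit 2) (nat_lit 265) (nat_lit 2) (nat_lit 13) (.e true (nat_lit 2) (nat_lit 268) (nat_lit 2) (nat_lit 13) (.e true (nat_lit 3) (nat_lit 271) (nat_lit 2) (nat_lit 13) (.e false (nat_lit 1) (nat_lit 272) (nat_lit 2) (nat_lit 13) (.e true (nat_lit 1) (nat_lit 273) (nat_lit 2) (nat_lit 13) (.e false (nat_lit 2) (nat_lit 274) (nat_lit 2) (nat_lit 13) (.e true (nat_lit 2) (nat_lit 277) (nat_lit 2) (nat_lit 13) (.e true (nat_lit 3) (nat_lit 278) (nat_lit 2) (nat_lit 13) (.e false (nat_lit 1) (nat_lit 279) (nat_lit 2) (nat_lit 13) (.e false (nat_lit 2) (nat_lit 280) (nat_lit 2) (nat_lit 13) (.e false (nat_lit 3) (nat_lit 286) (nat_lit 2) (nat_lit 13) (.e false (nat_lit 2) (nat_lit 287) (nat_lit 2) (nat_lit 13) (.e false (nat_lit 2) (nat_lit 288) (nat_lit 2) (nat_lit 13) (.e false (nat_lit 1) (nat_lit 340) (nat_lit 0) (nat_lit 15) (.e true (nat_lit 1) (nat_lit 345) (nat_lit 0) (nat_lit 15) (.e true (nat_lit 1) (nat_lit 148) (nat_lit 6) (nat_lit 9) (.u (nat_lit 2) (.p (nat_lit 2) (nat_lit 2) (.p (nat_lit 3) (nat_lit 1) (.n (nat_lit 4) (nat_lit 3) (.p (nat_lit 5) (nat_lit 2) (.n (nat_lit 6) (nat_lit 3) (.n (nat_lit 7) (nat_lit 3) (.n (nat_lit 8) (nat_lit 2) (.p (nat_lit 9) (nat_lit 1) (.n (nat_lit 10) (nat_lit 1) (.p (nat_lit 12) (nat_lit 3) (.n (nat_lit 13) (nat_lit 1) (.p (nat_lit 15) (nat_lit 2) (.n (nat_lit 16) (nat_lit 5) (.n (nat_lit 17) (nat_lit 1) (.n (nat_lit 18) (nat_lit 1) (.p (nat_lit 19) (nat_lit 1) (.n (nat_lit 21) (nat_lit 1) (.p (nat_lit 22) (nat_lit 2) (.n (nat_lit 23) (nat_lit 1) (.p (nat_lit 24) (nat_lit 1) (.n (nat_lit 26) (nat_lit 1) (.n (nat_lit 27) (nat_lit 1) (.n (nat_lit 33) (nat_lit 2) .z))))))))))))))))))))))) .nil)))))))))))))))))))))))) .leaf) (nat_lit 42019) (nat_lit 1378) (.n (nat_lit 426) (nat_lit 1) (.n (nat_lit 427) (nat_lit 1) (.p (nat_lit 428) (nat_lit 2) (.p (nat_lit 429) (nat_lit 2) (.n (nat_lit 430) (nat_lit 2) (.p (nat_lit 431) (nat_lit 3) (.p (nat_lit 432) (nat_lit 2) (.n (nat_lit 433) (nat_lit 1) (.n (nat_lit 434) (nat_lit 1) (.n (nat_lit 435) (nat_lit 2) (.n (nat_lit 436) (nat_lit 3) (.p (nat_lit 438) (nat_lit 2) (.p (nat_lit 439) (nat_lit 3) (.p (nat_lit 441) (nat_lit 2) (.n (nat_lit 442) (nat_lit 2) (.n (nat_lit 443) (nat_lit 3) (.n (nat_lit 444) (nat_lit 1) (.p (nat_lit 446) (nat_lit 2) (.p (nat_lit 448) (nat_lit 3) (.p (nat_lit 451) (nat_lit 3) (.p (nat_lit 452) (nat_lit 2) (.p (nat_lit 453) (nat_lit 2) (.n (nat_lit 454) (nat_lit 3) (.p (nat_lit 456) (nat_lit 1) (.n (nat_lit 459) (nat_lit 3) .z))))))))))))))))))))))))) (.ct dC1b_c533 (nat_lit 1) (nat_lit 0) (.s false (nat_lit 1) (nat_lit 35) (nat_lit 2) (nat_lit 2) (nat_lit 4) true (nat_lit 5) true (nat_lit 11) true (nat_lit 0) true (nat_lit 13) true (nat_lit 13) (.e false (nat_lit 1) (nat_lit 86) (nat_lit 14) (nat_lit 5) (.e false (nat_lit 1) (nat_lit 184) (nat_lit 4) (nat_lit 11) dC1b_i2)))) .leaf) (nat_lit 43008) (nat_lit 115) (.p (nat_lit 77) (nat_lit 1) (.p (nat_lit 78) (nat_lit 1) (.n (nat_lit 81) (nat_lit 1) .z))) (.ct dC1b_c515 (nat_lit 1) (nat_lit 3) (.s false (nat_lit 1) (nat_lit 4) (nat_lit 0) (nat_lit 2) (nat_lit 2) true (nat_lit 1) true (nat_lit 2) true (nat_lit 1) true (nat_lit 3) true (nat_lit 2) (.e false (nat_lit 1) (nat_lit 28) (nat_lit 2) (nat_lit 2) (.e true (nat_lit 1) (nat_lit 41) (nat_lit 0) (nat_lit 3) (.e false (nat_lit 1) (nat_lit 29) (nat_lit 2) (nat_lit 2) .nil))))) (.nd (.nd .leaf (nat_lit 43009) (nat_lit 137) (.p (nat_lit 82) (nat_lit 2) (.p (nat_lit 83) (nat_lit 3) (.n (nat_lit 84) (nat_lit 1) (.p (nat_lit 85) (nat_lit 1) (.n (nat_lit 86) (nat_lit 1) (.p (nat_lit 87) (nat_lit 1) (.n (nat_lit 90) (nat_lit 1) (.n (nat_lit 91) (nat_lit 1) .z)))))))) (.ct dC1b_c275 (nat_lit 1) (nat_lit 5) (.s false (nat_lit 1) (nat_lit 6) (nat_lit 0) (nat_lit 1) (nat_lit 2) true (nat_lit 2) true (nat_lit 4) true (nat_lit 0) true (nat_lit 6) true (nat_lit 5) (.e false (nat_lit 1) (nat_lit 17) (nat_lit 4) (nat_lit 2) (.e false (nat_lit 1) (nat_lit 35) (nat_lit 2) (nat_lit 4) (.e true (nat_lit 1) (nat_lit 10) (nat_lit 6) (nat_lit 0) (.e true (nat_lit 1) (nat_lit 44) (nat_lit 0) (nat_lit 6) (.e true (nat_lit 1) (nat_lit 45) (nat_lit 0) (nat_lit 6) .nil))))))) .leaf) (nat_lit 43010) (nat_lit 150) (.p (nat_lit 100) (nat_lit 1) .z) .df .leaf))) (nat_lit 43011) (nat_lit 261) (.n (nat_lit 132) (nat_lit 1) (.p (nat_lit 133) (nat_lit 3) (.p (nat_lit 134) (nat_lit 2) (.p (nat_lit 135) (nat_lit 1) (.p (nat_lit 136) (nat_lit 3) (.p (nat_lit 137) (nat_lit 1) (.n (nat_lit 138) (nat_lit 2) (.n (nat_lit 139) (nat_lit 2) (.p (nat_lit 140) (nat_lit 3) (.n (nat_lit 141) (nat_lit 1) (.p (nat_lit 142) (nat_lit 1) (.p (nat_lit 143) (nat_lit 2) (.n (nat_lit 144) (nat_lit 3) (.n (nat_lit 145) (nat_lit 2) (.p (nat_lit 149) (nat_lit 2) (.n (nat_lit 151) (nat_lit 2) (.n (nat_lit 152) (nat_lit 2) .z))))))))))))))))) (.ct dC1b_c531 (nat_lit 1) (nat_lit 6) (.s false (nat_lit 1) (nat_lit 4) (nat_lit 3) (nat_lit 2) (nat_lit 2) true (nat_lit 0) true (nat_lit 7) true (nat_lit 5) true (nat_lit 6) true (nat_lit 7) (.e true (nat_lit 1) (nat_lit 14) (nat_lit 10) (nat_lit 0) (.e true (nat_lit 1) (nat_lit 57) (nat_lit 2) (nat_lit 7) (.e false (nat_lit 1) (nat_lit 31) (nat_lit 4) (nat_lit 5) (.e true (nat_lit 1) (nat_lit 41) (nat_lit 3) (nat_lit 6) (.e true (nat_lit 1) (nat_lit 62) (nat_lit 2) (nat_lit 7) (.e false (nat_lit 1) (nat_lit 65) (nat_lit 2) (nat_lit 7) (.u (nat_lit 2) (.p (nat_lit 7) (nat_lit 1) (.p (nat_lit 9) (nat_lit 1) (.p (nat_lit 12) (nat_lit 1) (.p (nat_lit 19) (nat_lit 1) (.p (nat_lit 20) (nat_lit 1) .z))))) .nil))))))))) (.nd (.nd (.nd (.nd .leaf (nat_lit 43012) (nat_lit 339) (.n (nat_lit 174) (nat_lit 3) (.n (nat_lit 175) (nat_lit 3) (.n (nat_lit 176) (nat_lit 2) (.n (nat_lit 177) (nat_lit 1) (.n (nat_lit 178) (nat_lit 1) (.n (nat_lit 179) (nat_lit 1) .z)))))) (.ct dC1b_c516 (nat_lit 1) (nat_lit 3) (.s false (nat_lit 1) (nat_lit 18) (nat_lit 2) (nat_lit 0) (nat_lit 0) true (nat_lit 3) true (nat_lit 5) false (nat_lit 1) true (nat_lit 4) true (nat_lit 5) (.e false (nat_lit 1) (nat_lit 99) (nat_lit 0) (nat_lit 5) (.e true (nat_lit 1) (nat_lit 101) (nat_lit 0) (nat_lit 5) (.e true (nat_lit 1) (nat_lit 18) (nat_lit 9) (nat_lit 1) (.e true (nat_lit 1) (nat_lit 100) (nat_lit 0) (nat_lit 5) (.u (nat_lit 2) (.p (nat_lit 0) (nat_lit 1) .z) .nil))))))) .leaf) (nat_lit 43013) (nat_lit 368) (.p (nat_lit 180) (nat_lit 3) (.n (nat_lit 181) (nat_lit 3) (.n (nat_lit 183) (nat_lit 3) (.n (nat_lit 184) (nat_lit 3) (.n (nat_lit 185) (nat_lit 1) (.p (nat_lit 186) (nat_lit 3) (.p (nat_lit 187) (nat_lit 3) (.p (nat_lit 189) (nat_lit 3) (.p (nat_lit 190) (nat_lit 3) (.p (nat_lit 194) (nat_lit 1) .z)))))))))) (.ct dC1b_c276 (nat_lit 1) (nat_lit 3) (.s false (nat_lit 1) (nat_lit 18) (nat_lit 2) (nat_lit 0) (nat_lit 1) true (nat_lit 3) true (nat_lit 7) false (nat_lit 1) true (nat_lit 6) true (nat_lit 8) (.e false (nat_lit 1) (nat_lit 99) (nat_lit 1) (nat_lit 7) (.e true (nat_lit 1) (nat_lit 101) (nat_lit 1) (nat_lit 7) (.e true (nat_lit 1) (nat_lit 18) (nat_lit 11) (nat_lit 1) (.e false (nat_lit 1) (nat_lit 83) (nat_lit 2) (nat_lit 6) (.e true (nat_lit 1) (nat_lit 84) (nat_lit 2) (nat_lit 6) (.e false (nat_lit 1) (nat_lit 85) (nat_lit 2) (nat_lit 6) (.e true (nat_lit 1) (nat_lit 87) (nat_lit 2) (nat_lit 6) (.e true (nat_lit 1) (nat_lit 90) (nat_lit 2) (nat_lit 6) (.e true (nat_lit 1) (nat_lit 104) (nat_lit 0) (nat_lit 8) (.u (nat_lit 2) (.p (nat_lit 1) (nat_lit 1) (.p (nat_lit 3) (nat_lit 1) (.n (nat_lit 9) (nat_lit 1) (.n (nat_lit 10) (nat_lit 1) .z)))) .nil)))))))))))) .leaf) (nat_lit 43014) (nat_lit 400) (.p (nat_lit 206) (nat_lit 1) .z) .df (.nd (.nd .leaf (nat_lit 43016) (nat_lit 503) (.p (nat_lit 212) (nat_lit 1) (.n (nat_lit 213) (nat_lit 1) (.p (nat_lit 214) (nat_lit 3) (.p (nat_lit 215) (nat_lit 3) (.p (nat_lit 216) (nat_lit 1) (.p (nat_lit 217) (nat_lit 3) (.p (nat_lit 218) (nat_lit 1) (.n (nat_lit 219) (nat_lit 1) (.n (nat_lit 220) (nat_lit 2) (.p (nat_lit 221) (nat_lit 2) (.p (nat_lit 222) (nat_lit 2) (.n (nat_lit 223) (nat_lit 3) (.n (nat_lit 224) (nat_lit 2) (.p (nat_lit 227) (nat_lit 1) (.n (nat_lit 229) (nat_lit 3) (.n (nat_lit 230) (nat_lit 1) (.n (nat_lit 231) (nat_lit 2) (.p (nat_lit 232) (nat_lit 1) (.p (nat_lit 233) (nat_lit 1) (.p (nat_lit 234) (nat_lit 2) (.p (nat_lit 235) (nat_lit 3) (.p (nat_lit 236) (nat_lit 3) (.n (nat_lit 237) (nat_lit 3) (.p (nat_lit 238) (nat_lit 3) (.n (nat_lit 239) (nat_lit 1) (.p (nat_lit 240) (nat_lit 3) (.p (nat_lit 241) (nat_lit 3) (.n (nat_lit 242) (nat_lit 3) (.p (nat_lit 243) (nat_lit 2) (.n (nat_lit 244) (nat_lit 1) (.n (nat_lit 245) (nat_lit 3) (.n (nat_lit 248) (nat_lit 2) .z)))))))))))))))))))))))))))))))) (.ct dC1b_c547 (nat_lit 1) (nat_lit 6) (.s false (nat_lit 1) (nat_lit 8) (nat_lit 2) (nat_lit 2) (nat_lit 4) true (nat_lit 2) true (nat_lit 10) true (nat_lit 6) true (nat_lit 12) true (nat_lit 12) (.e false (nat_lit 1) (nat_lit 24) (nat_lit 14) (nat_lit 2) (.e false (nat_lit 1) (nat_lit 66) (nat_lit 4) (nat_lit 10) (.e true (nat_lit 1) (nat_lit 41) (nat_lit 8) (nat_lit 6) (.e true (nat_lit 1) (nat_lit 112) (nat_lit 2) (nat_lit 12) (.e true (nat_lit 1) (nat_lit 125) (nat_lit 2) (nat_lit 12) (.e false (nat_lit 1) (nat_lit 129) (nat_lit 2) (nat_lit 12) (.u (nat_lit 2) (.p (nat_lit 0) (nat_lit 1) (.n (nat_lit 2) (nat_lit 1) (.n (nat_lit 3) (nat_lit 1) (.n (nat_lit 4) (nat_lit 1) (.n (nat_lit 5) (nat_lit 1) (.n (nat_lit 6) (nat_lit 1) (.p (nat_lit 8) (nat_lit 1) (.p (nat_lit 12) (nat_lit 1) (.n (nat_lit 13) (nat_lit 1) (.n (nat_lit 14) (nat_lit 1) (.p (nat_lit 17) (nat_lit 1) (.p (nat_lit 19) (nat_lit 1) (.p (nat_lit 23) (nat_lit 1) (.n (nat_lit 24) (nat_lit 1) (.p (nat_lit 25) (nat_lit 1) (.n (nat_lit 26) (nat_lit 1) (.n (nat_lit 29) (nat_lit 2) (.p (nat_lit 30) (nat_lit 1) (.p (nat_lit 34) (nat_lit 1) (.p (nat_lit 36) (nat_lit 1) .z)))))))))))))))))))) .nil))))))))) .leaf) (nat_lit 43018) (nat_lit 624) (.p (nat_lit 261) (nat_lit 1) (.n (nat_lit 262) (nat_lit 2) (.p (nat_lit 263) (nat_lit 1) (.p (nat_lit 264) (nat_lit 2) (.n (nat_lit 266) (nat_lit 2) (.p (nat_lit 267) (nat_lit 2) (.n (nat_lit 268) (nat_lit 3) (.p (nat_lit 269) (nat_lit 1) (.n (nat_lit 270) (nat_lit 1) (.p (nat_lit 271) (nat_lit 2) (.n (nat_lit 272) (nat_lit 3) (.n (nat_lit 273) (nat_lit 1) (.p (nat_lit 274) (nat_lit 3) (.p (nat_lit 277) (nat_lit 1) (.n (nat_lit 278) (nat_lit 3) (.p (nat_lit 279) (nat_lit 3) (.p (nat_lit 288) (nat_lit 1) .z))))))))))))))))) (.ct dC1b_c532 (nat_lit 1) (nat_lit 3) (.s true (nat_lit 1) (nat_lit 10) (nat_lit 2) (nat_lit 2) (nat_lit 4) true (nat_lit 2) true (nat_lit 8) true (nat_lit 3) true (nat_lit 10) true (nat_lit 10) (.e true (nat_lit 1) (nat_lit 31) (nat_lit 14) (nat_lit 2) (.e true (nat_lit 1) (nat_lit 82) (nat_lit 4) (nat_lit 8) (.e true (nat_lit 1) (nat_lit 41) (nat_lit 10) (nat_lit 3) (.e false (nat_lit 1) (nat_lit 139) (nat_lit 2) (nat_lit 10) (.e false (nat_lit 1) (nat_lit 147) (nat_lit 2) (nat_lit 10) (.e true (nat_lit 1) (nat_lit 151) (nat_lit 2) (nat_lit 10) (.u (nat_lit 2) (.n (nat_lit 3) (nat_lit 1) (.n (nat_lit 7) (nat_lit 1) (.p (nat_lit 8) (nat_lit 1) (.p (nat_lit 10) (nat_lit 1) (.n (nat_lit 11) (nat_lit 1) (.n (nat_lit 19) (nat_lit 1) .z)))))) .nil))))))))) .leaf)) (nat_lit 43019) (nat_lit 649) (.n (nat_lit 260) (nat_lit 1) (.p (nat_lit 261) (nat_lit 2) (.p (nat_lit 262) (nat_lit 3) (.n (nat_lit 263) (nat_lit 3) (.p (nat_lit 264) (nat_lit 1) (.n (nat_lit 265) (nat_lit 1) (.p (nat_lit 268) (nat_lit 2) (.p (nat_lit 270) (nat_lit 1) (.n (nat_lit 271) (nat_lit 2) (.p (nat_lit 272) (nat_lit 1) (.p (nat_lit 273) (nat_lit 2) (.n (nat_lit 274) (nat_lit 3) (.n (nat_lit 277) (nat_lit 1) (.n (nat_lit 278) (nat_lit 2) (.n (nat_lit 279) (nat_lit 2) (.p (nat_lit 286) (nat_lit 1) (.n (nat_lit 287) (nat_lit 2) (.p (nat_lit 288) (nat_lit 2) .z)))))))))))))))))) (.ct dC1b_c532 (nat_lit 1) (nat_lit 3) (.s true (nat_lit 1) (nat_lit 11) (nat_lit 2) (nat_lit 2) (nat_lit 4) true (nat_lit 2) true (nat_lit 8) true (nat_lit 3) true (nat_lit 10) true (nat_lit 10) (.e true (nat_lit 1) (nat_lit 32) (nat_lit 14) (nat_lit 2) (.e true (nat_lit 1) (nat_lit 83) (nat_lit 4) (nat_lit 8) (.e true (nat_lit 1) (nat_lit 41) (nat_lit 11) (nat_lit 3) (.e false (nat_lit 1) (nat_lit 140) (nat_lit 2) (nat_lit 10) (.e false (nat_lit 1) (nat_lit 148) (nat_lit 2) (nat_lit 10) (.e true (nat_lit 1) (nat_lit 149) (nat_lit 2) (nat_lit 10) (.e true (nat_lit 1) (nat_lit 150) (nat_lit 2) (nat_lit 10) (.e false (nat_lit 1) (nat_lit 151) (nat_lit 2) (nat_lit 10) (.u (nat_lit 2) (.n (nat_lit 1) (nat_lit 1) (.n (nat_lit 13) (nat_lit 1) (.p (nat_lit 14) (nat_lit 1) (.p (nat_lit 17) (nat_lit 1) (.p (nat_lit 19) (nat_lit 1) (.p (nat_lit 27) (nat_lit 1) .z)))))) .nil))))))))))) (.nd (.nd (.nd .leaf (nat_lit 43020) (nat_lit 656) (.n (nat_lit 260) (nat_lit 3) (.p (nat_lit 261) (nat_lit 3) (.n (nat_lit 262) (nat_lit 2) (.n (nat_lit 263) (nat_lit 3) (.p (nat_lit 264) (nat_lit 3) (.p (nat_lit 265) (nat_lit 2) (.p (nat_lit 266) (nat_lit 2) (.p (nat_lit 267) (nat_lit 3) (.p (nat_lit 268) (nat_lit 3) (.n (nat_lit 269) (nat_lit 2) (.p (nat_lit 271) (nat_lit 3) (.n (nat_lit 272) (nat_lit 3) (.p (nat_lit 273) (nat_lit 2) (.n (nat_lit 274) (nat_lit 2) (.n (nat_lit 277) (nat_lit 3) (.n (nat_lit 278) (nat_lit 3) (.n (nat_lit 279) (nat_lit 2) (.n (nat_lit 280) (nat_lit 2) (.p (nat_lit 286) (nat_lit 3) (.n (nat_lit 287) (nat_lit 2) (.n (nat_lit 288) (nat_lit 2) .z))))))))))))))))))))) (.ct dC1b_c532 (nat_lit 1) (nat_lit 3) (.s false (nat_lit 1) (nat_lit 18) (nat_lit 5) (nat_lit 0) (nat_lit 0) true (nat_lit 3) true (nat_lit 12) true (nat_lit 0) true (nat_lit 7) true (nat_lit 12) (.e false (nat_lit 1) (nat_lit 183) (nat_lit 0) (nat_lit 12) (.e false (nat_lit 3) (nat_lit 185) (nat_lit 0) (nat_lit 12) (.e true (nat_lit 1) (nat_lit 190) (nat_lit 0) (nat_lit 12) (.e true (nat_lit 2) (nat_lit 181) (nat_lit 0) (nat_lit 12) (.e false (nat_lit 3) (nat_lit 186) (nat_lit 0) (nat_lit 12) (.e true (nat_lit 2) (nat_lit 189) (nat_lit 0) (nat_lit 12) (.e false (nat_lit 3) (nat_lit 187) (nat_lit 0) (nat_lit 12) (.e false (nat_lit 1) (nat_lit 188) (nat_lit 0) (nat_lit 12) (.e true (nat_lit 1) (nat_lit 23) (nat_lit 18) (nat_lit 0) (.e true (nat_lit 1) (nat_lit 194) (nat_lit 0) (nat_lit 12) (.u (nat_lit 2) (.p (nat_lit 0) (nat_lit 1) (.p (nat_lit 1) (nat_lit 3) (.p (nat_lit 2) (nat_lit 1) (.p (nat_lit 3) (nat_lit 1) (.n (nat_lit 4) (nat_lit 1) (.n (nat_lit 5) (nat_lit 2) (.n (nat_lit 6) (nat_lit 3) (.n (nat_lit 7) (nat_lit 1) (.n (nat_lit 8) (nat_lit 1) (.p (nat_lit 9) (nat_lit 3) (.n (nat_lit 10) (nat_lit 1) (.n (nat_lit 11) (nat_lit 1) (.p (nat_lit 12) (nat_lit 2) (.p (nat_lit 13) (nat_lit 1) (.n (nat_lit 14) (nat_lit 2) (.p (nat_lit 17) (nat_lit 3) (.p (nat_lit 18) (nat_lit 2) (.p (nat_lit 19) (nat_lit 1) (.p (nat_lit 20) (nat_lit 2) (.n (nat_lit 24) (nat_lit 1) (.p (nat_lit 25) (nat_lit 1) (.n (nat_lit 26) (nat_lit 2) (.p (nat_lit 27) (nat_lit 1) (.n (nat_lit 28) (nat_lit 1) (.p (nat_lit 124) (nat_lit 1) (.n (nat_lit 128) (nat_lit 1) (.n (nat_lit 129) (nat_lit 1) (.n (nat_lit 130) (nat_lit 1) .z)))))))))))))))))))))))))))) .nil))))))))))))) .leaf) (nat_lit 43021) (nat_lit 789) (.p (nat_lit 290) (nat_lit 3) (.p (nat_lit 291) (nat_lit 2) (.p (nat_lit 293) (nat_lit 3) (.n (nat_lit 295) (nat_lit 1) (.n (nat_lit 296) (nat_lit 3) (.p (nat_lit 297) (nat_lit 3) (.n (nat_lit 298) (nat_lit 3) (.n (nat_lit 299) (nat_lit 1) (.p (nat_lit 301) (nat_lit 2) (.p (nat_lit 302) (nat_lit 2) (.p (nat_lit 304) (nat_lit 3) (.n (nat_lit 305) (nat_lit 1) (.n (nat_lit 307) (nat_lit 2) (.p (nat_lit 308) (nat_lit 1) (.p (nat_lit 309) (nat_lit 1) (.p (nat_lit 310) (nat_lit 3) (.n (nat_lit 316) (nat_lit 1) (.n (nat_lit 317) (nat_lit 2) (.n (nat_lit 318) (nat_lit 2) .z))))))))))))))))))) (.ct dC1b_c292 (nat_lit 1) (nat_lit 3) (.s false (nat_lit 1) (nat_lit 13) (nat_lit 6) (nat_lit 2) (nat_lit 0) true (nat_lit 2) true (nat_lit 12) true (nat_lit 3) true (nat_lit 6) true (nat_lit 10) (.e true (nat_lit 1) (nat_lit 37) (nat_lit 15) (nat_lit 2) (.e true (nat_lit 3) (nat_lit 197) (nat_lit 0) (nat_lit 12) (.e false (nat_lit 2) (nat_lit 198) (nat_lit 0) (nat_lit 12) (.e true (nat_lit 3) (nat_lit 199) (nat_lit 0) (nat_lit 12) (.e false (nat_lit 2) (nat_lit 201) (nat_lit 0) (nat_lit 12) (.e false (nat_lit 1) (nat_lit 71) (nat_lit 6) (nat_lit 6) (.e true (nat_lit 1) (nat_lit 72) (nat_lit 6) (nat_lit 6) (.e false (nat_lit 1) (nat_lit 76) (nat_lit 6) (nat_lit 6) (.e false (nat_lit 1) (nat_lit 170) (nat_lit 2) (nat_lit 10) (.e false (nat_lit 1) (nat_lit 171) (nat_lit 2) (nat_lit 10) (.e true (nat_lit 2) (nat_lit 153) (nat_lit 2) (nat_lit 10) (.e true (nat_lit 2) (nat_lit 154) (nat_lit 2) (nat_lit 10) (.e false (nat_lit 1) (nat_lit 155) (nat_lit 2) (nat_lit 10) (.e true (nat_lit 1) (nat_lit 156) (nat_lit 2) (nat_lit 10) (.e true (nat_lit 1) (nat_lit 157) (nat_lit 2) (nat_lit 10) (.e true (nat_lit 1) (nat_lit 162) (nat_lit 2) (nat_lit 10) (.e false (nat_lit 1) (nat_lit 167) (nat_lit 2) (nat_lit 10) (.e true (nat_lit 1) (nat_lit 172) (nat_lit 2) (nat_lit 10) (.e true (nat_lit 1) (nat_lit 173) (nat_lit 2) (nat_lit 10) (.u (nat_lit 2) (.n (nat_lit 0) (nat_lit 1) (.p (nat_lit 1) (nat_lit 1) (.p (nat_lit 2) (nat_lit 1) (.n (nat_lit 3) (nat_lit 1) (.p (nat_lit 4) (nat_lit 2) (.n (nat_lit 5) (nat_lit 1) (.n (nat_lit 7) (nat_lit 1) (.p (nat_lit 9) (nat_lit 1) (.p (nat_lit 10) (nat_lit 1) (.n (nat_lit 11) (nat_lit 2) (.n (nat_lit 12) (nat_lit 2) (.p (nat_lit 14) (nat_lit 1) (.n (nat_lit 15) (nat_lit 2) (.p (nat_lit 17) (nat_lit 1) (.p (nat_lit 18) (nat_lit 2) (.p (nat_lit 20) (nat_lit 1) (.n (nat_lit 21) (nat_lit 1) (.n (nat_lit 23) (nat_lit 3) (.n (nat_lit 24) (nat_lit 1) (.n (nat_lit 26) (nat_lit 1) (.p (nat_lit 28) (nat_lit 2) (.p (nat_lit 29) (nat_lit 1) (.p (nat_lit 134) (nat_lit 1) .z))))))))))))))))))))))) .nil)))))))))))))))))))))) .leaf) (nat_lit 43022) (nat_lit 814) (.p (nat_lit 320) (nat_lit 1) (.n (nat_lit 322) (nat_lit 2) (.p (nat_lit 323) (nat_lit 1) (.p (nat_lit 324) (nat_lit 2) (.n (nat_lit 325) (nat_lit 1) (.p (nat_lit 326) (nat_lit 1) .z)))))) (.ct dC1b_c517 (nat_lit 1) (nat_lit 1) (.s true (nat_lit 1) (nat_lit 42) (nat_lit 0) (nat_lit 2) (nat_lit 2) true (nat_lit 4) true (nat_lit 5) false (nat_lit 1) true (nat_lit 6) true (nat_lit 5) (.e true (nat_lit 1) (nat_lit 100) (nat_lit 4) (nat_lit 4) (.e false (nat_lit 1) (nat_lit 174) (nat_lit 2) (nat_lit 5) (.e true (nat_lit 3) (nat_lit 176) (nat_lit 2) (nat_lit 5) (.e true (nat_lit 2) (nat_lit 177) (nat_lit 2) (nat_lit 5) (.e true (nat_lit 3) (nat_lit 179) (nat_lit 2) (nat_lit 5) (.e false (nat_lit 1) (nat_lit 206) (nat_lit 0) (nat_lit 6) (.e true (nat_lit 1) (nat_lit 178) (nat_lit 2) (nat_lit 5) (.u (nat_lit 2) (.n (nat_lit 2) (nat_lit 1) (.p (nat_lit 29) (nat_lit 1) (.p (nat_lit 32) (nat_lit 1) .z))) .nil)))))))))) (.nd (.nd .leaf (nat_lit 43023) (nat_lit 805) (.n (nat_lit 320) (nat_lit 2) (.n (nat_lit 321) (nat_lit 3) (.p (nat_lit 322) (nat_lit 2) (.n (nat_lit 323) (nat_lit 3) (.n (nat_lit 324) (nat_lit 2) (.p (nat_lit 325) (nat_lit 3) .z)))))) (.ct dC1b_c517 (nat_lit 1) (nat_lit 1) (.s false (nat_lit 1) (nat_lit 18) (nat_lit 6) (nat_lit 0) (nat_lit 0) true (nat_lit 1) true (nat_lit 6) true (nat_lit 0) true (nat_lit 3) true (nat_lit 6) (.e false (nat_lit 1) (nat_lit 30) (nat_lit 18) (nat_lit 0) (.e true (nat_lit 1) (nat_lit 206) (nat_lit 0) (nat_lit 6) .nil)))) .leaf) (nat_lit 43024) (nat_lit 864) (.n (nat_lit 328) (nat_lit 3) (.p (nat_lit 329) (nat_lit 2) (.n (nat_lit 330) (nat_lit 1) (.n (nat_lit 331) (nat_lit 2) (.p (nat_lit 332) (nat_lit 3) (.p (nat_lit 333) (nat_lit 3) (.n (nat_lit 336) (nat_lit 3) (.n (nat_lit 337) (nat_lit 2) (.n (nat_lit 338) (nat_lit 1) (.n (nat_lit 341) (nat_lit 2) (.p (nat_lit 346) (nat_lit 1) .z))))))))))) (.ct dC1b_c277 (nat_lit 1) (nat_lit 1) (.s true (nat_lit 1) (nat_lit 42) (nat_lit 1) (nat_lit 2) (nat_lit 2) true (nat_lit 5) true (nat_lit 8) false (nat_lit 1) true (nat_lit 9) true (nat_lit 8) (.e true (nat_lit 1) (nat_lit 100) (nat_lit 5) (nat_lit 5) (.e false (nat_lit 2) (nat_lit 180) (nat_lit 2) (nat_lit 8) (.e false (nat_lit 1) (nat_lit 181) (nat_lit 2) (nat_lit 8) (.e true (nat_lit 2) (nat_lit 184) (nat_lit 2) (nat_lit 8) (.e false (nat_lit 3) (nat_lit 185) (nat_lit 2) (nat_lit 8) (.e true (nat_lit 1) (nat_lit 188) (nat_lit 2) (nat_lit 8) (.e true (nat_lit 1) (nat_lit 189) (nat_lit 2) (nat_lit 8) (.e false (nat_lit 1) (nat_lit 206) (nat_lit 1) (nat_lit 9) (.e false (nat_lit 1) (nat_lit 186) (nat_lit 2) (nat_lit 8) (.e false (nat_lit 1) (nat_lit 187) (nat_lit 2) (nat_lit 8) (.e true (nat_lit 1) (nat_lit 190) (nat_lit 2) (nat_lit 8) (.e false (nat_lit 1) (nat_lit 192) (nat_lit 2) (nat_lit 8) (.e false (nat_lit 1) (nat_lit 193) (nat_lit 2) (nat_lit 8) (.u (nat_lit 2) (.p (nat_lit 0) (nat_lit 1) (.p (nat_lit 2) (nat_lit 1) (.n (nat_lit 4) (nat_lit 1) (.p (nat_lit 8) (nat_lit 1) (.n (nat_lit 60) (nat_lit 1) (.n (nat_lit 61) (nat_lit 1) (.n (nat_lit 65) (nat_lit 1) .z))))))) .nil)))))))))))))))) .leaf)))) (nat_lit 43025) (nat_lit 850) (.p (nat_lit 328) (nat_lit 2) (.n (nat_lit 330) (nat_lit 2) (.p (nat_lit 331) (nat_lit 3) (.n (nat_lit 332) (nat_lit 3) (.n (nat_lit 333) (nat_lit 2) (.n (nat_lit 334) (nat_lit 2) (.n (nat_lit 335) (nat_lit 2) (.n (nat_lit 336) (nat_lit 1) (.p (nat_lit 338) (nat_lit 2) (.n (nat_lit 340) (nat_lit 1) (.p (nat_lit 341) (nat_lit 2) (.p (nat_lit 344) (nat_lit 1) (.n (nat_lit 346) (nat_lit 1) .z))))))))))))) (.ct dC1b_c277 (nat_lit 1) (nat_lit 1) (.s false (nat_lit 1) (nat_lit 42) (nat_lit 2) (nat_lit 2) (nat_lit 1) true (nat_lit 5) true (nat_lit 9) false (nat_lit 1) true (nat_lit 8) true (nat_lit 8) (.e false (nat_lit 1) (nat_lit 100) (nat_lit 5) (nat_lit 5) (.e false (nat_lit 1) (nat_lit 204) (nat_lit 1) (nat_lit 9) (.e false (nat_lit 1) (nat_lit 180) (nat_lit 2) (nat_lit 8) (.e false (nat_lit 1) (nat_lit 181) (nat_lit 2) (nat_lit 8) (.e false (nat_lit 3) (nat_lit 183) (nat_lit 2) (nat_lit 8) (.e true (nat_lit 2) (nat_lit 184) (nat_lit 2) (nat_lit 8) (.e true (nat_lit 2) (nat_lit 185) (nat_lit 2) (nat_lit 8) (.e false (nat_lit 3) (nat_lit 186) (nat_lit 2) (nat_lit 8) (.e false (nat_lit 3) (nat_lit 187) (nat_lit 2) (nat_lit 8) (.e true (nat_lit 3) (nat_lit 189) (nat_lit 2) (nat_lit 8) (.e false (nat_lit 3) (nat_lit 190) (nat_lit 2) (nat_lit 8) (.e false (nat_lit 1) (nat_lit 194) (nat_lit 2) (nat_lit 8) (.e false (nat_lit 1) (nat_lit 182) (nat_lit 2) (nat_lit 8) (.e false (nat_lit 1) (nat_lit 188) (nat_lit 2) (nat_lit 8) (.u (nat_lit 2) (.p (nat_lit 6) (nat_lit 1) (.p (nat_lit 7) (nat_lit 1) (.n (nat_lit 61) (nat_lit 1) (.n (nat_lit 63) (nat_lit 1) (.p (nat_lit 69) (nat_lit 1) .z))))) .nil))))))))))))))))) (.nd (.nd (.nd (.nd (.nd .leaf (nat_lit 43032) (nat_lit 1128) (.n (nat_lit 355) (nat_lit 2) (.p (nat_lit 356) (nat_lit 2) (.p (nat_lit 357) (nat_lit 1) (.p (nat_lit 358) (nat_lit 3) (.n (nat_lit 359) (nat_lit 3) (.n (nat_lit 360) (nat_lit 3) (.n (nat_lit 361) (nat_lit 3) (.p (nat_lit 362) (nat_lit 3) (.p (nat_lit 365) (nat_lit 2) (.n (nat_lit 366) (nat_lit 1) (.p (nat_lit 367) (nat_lit 2) (.p (nat_lit 369) (nat_lit 2) (.n (nat_lit 370) (nat_lit 1) (.p (nat_lit 373) (nat_lit 2) (.p (nat_lit 374) (nat_lit 3) (.p (nat_lit 375) (nat_lit 2) (.p (nat_lit 381) (nat_lit 1) (.n (nat_lit 382) (nat_lit 2) (.n (nat_lit 383) (nat_lit 1) (.n (nat_lit 384) (nat_lit 1) (.n (nat_lit 385) (nat_lit 2) (.n (nat_lit 386) (nat_lit 2) (.p (nat_lit 387) (nat_lit 2) (.p (nat_lit 388) (nat_lit 1) (.n (nat_lit 389) (nat_lit 2) (.p (nat_lit 390) (nat_lit 3) (.n (nat_lit 391) (nat_lit 1) (.n (nat_lit 392) (nat_lit 2) (.p (nat_lit 393) (nat_lit 1) (.n (nat_lit 394) (nat_lit 1) (.p (nat_lit 395) (nat_lit 1) (.n (nat_lit 396) (nat_lit 2) .z)))))))))))))))))))))))))))))))) (.ct dC1b_c548 (nat_lit 1) (nat_lit 2) (.s false (nat_lit 1) (nat_lit 18) (nat_lit 8) (nat_lit 0) (nat_lit 2) true (nat_lit 2) true (nat_lit 17) true (nat_lit 5) true (nat_lit 11) true (nat_lit 19) (.e false (nat_lit 1) (nat_lit 220) (nat_lit 2) (nat_lit 17) (.e true (nat_lit 1) (nat_lit 229) (nat_lit 2) (nat_lit 17) (.e true (nat_lit 1) (nat_lit 47) (nat_lit 18) (nat_lit 5) (.e true (nat_lit 1) (nat_lit 99) (nat_lit 8) (nat_lit 11) (.e true (nat_lit 1) (nat_lit 100) (nat_lit 8) (nat_lit 11) (.e false (nat_lit 1) (nat_lit 101) (nat_lit 8) (nat_lit 11) (.e false (nat_lit 1) (nat_lit 298) (nat_lit 0) (nat_lit 19) (.e true (nat_lit 1) (nat_lit 316) (nat_lit 0) (nat_lit 19) (.u (nat_lit 2) (.p (nat_lit 0) (nat_lit 1) (.n (nat_lit 2) (nat_lit 1) (.n (nat_lit 3) (nat_lit 1) (.n (nat_lit 4) (nat_lit 1) (.p (nat_lit 5) (nat_lit 1) (.p (nat_lit 6) (nat_lit 2) (.n (nat_lit 7) (nat_lit 2) (.p (nat_lit 8) (nat_lit 1) (.p (nat_lit 12) (nat_lit 1) (.n (nat_lit 14) (nat_lit 1) (.n (nat_lit 17) (nat_lit 1) (.n (nat_lit 18) (nat_lit 1) (.n (nat_lit 27) (nat_lit 1) (.n (nat_lit 28) (nat_lit 1) (.n (nat_lit 29) (nat_lit 1) (.n (nat_lit 31) (nat_lit 1) (.p (nat_lit 34) (nat_lit 1) (.p (nat_lit 35) (nat_lit 1) (.n (nat_lit 36) (nat_lit 2) (.p (nat_lit 37) (nat_lit 1) (.p (nat_lit 39) (nat_lit 1) (.p (nat_lit 41) (nat_lit 1) .z)))))))))))))))))))))) .nil))))))))))) .leaf) (nat_lit 43034) (nat_lit 1193) (.p (nat_lit 355) (nat_lit 3) (.p (nat_lit 356) (nat_lit 2) (.n (nat_lit 357) (nat_lit 2) (.n (nat_lit 358) (nat_lit 2) (.n (nat_lit 359) (nat_lit 1) (.n (nat_lit 360) (nat_lit 2) (.p (nat_lit 361) (nat_lit 1) (.n (nat_lit 362) (nat_lit 1) (.n (nat_lit 363) (nat_lit 3) (.n (nat_lit 364) (nat_lit 3) (.n (nat_lit 367) (nat_lit 3) (.p (nat_lit 369) (nat_lit 2) (.n (nat_lit 370) (nat_lit 2) (.p (nat_lit 372) (nat_lit 3) (.n (nat_lit 373) (nat_lit 3) (.p (nat_lit 374) (nat_lit 3) (.n (nat_lit 375) (nat_lit 2) (.p (nat_lit 381) (nat_lit 1) (.p (nat_lit 382) (nat_lit 1) (.n (nat_lit 383) (nat_lit 3) (.n (nat_lit 384) (nat_lit 1) (.p (nat_lit 385) (nat_lit 3) (.n (nat_lit 387) (nat_lit 2) (.n (nat_lit 388) (nat_lit 2) (.n (nat_lit 389) (nat_lit 1) (.p (nat_lit 391) (nat_lit 3) (.p (nat_lit 392) (nat_lit 2) (.n (nat_lit 393) (nat_lit 3) (.p (nat_lit 394) (nat_lit 1) (.n (nat_lit 395) (nat_lit 2) (.n (nat_lit 396) (nat_lit 1) (.n (nat_lit 404) (nat_lit 3) (.n (nat_lit 405) (nat_lit 1) (.p (nat_lit 406) (nat_lit 1) (.n (nat_lit 408) (nat_lit 1) (.n (nat_lit 409) (nat_lit 3) (.p (nat_lit 410) (nat_lit 3) .z))))))))))))))))))))))))))))))))))))) (.ct dC1b_c548 (nat_lit 1) (nat_lit 2) (.s false (nat_lit 1) (nat_lit 18) (nat_lit 11) (nat_lit 0) (nat_lit 1) true (nat_lit 2) true (nat_lit 18) true (nat_lit 5) true (nat_lit 9) true (nat_lit 19) (.e true (nat_lit 2) (nat_lit 260) (nat_lit 1) (nat_lit 18) (.e true (nat_lit 3) (nat_lit 261) (nat_lit 1) (nat_lit 18) (.e false (nat_lit 1) (nat_lit 262) (nat_lit 1) (nat_lit 18) (.e true (nat_lit 1) (nat_lit 263) (nat_lit 1) (nat_lit 18) (.e true (nat_lit 3) (nat_lit 264) (nat_lit 1) (nat_lit 18) (.e true (nat_lit 3) (nat_lit 265) (nat_lit 1) (nat_lit 18) (.e true (nat_lit 2) (nat_lit 266) (nat_lit 1) (nat_lit 18) (.e true (nat_lit 3) (nat_lit 267) (nat_lit 1) (nat_lit 18) (.e true (nat_lit 1) (nat_lit 268) (nat_lit 1) (nat_lit 18) (.e false (nat_lit 2) (nat_lit 269) (nat_lit 1) (nat_lit 18) (.e true (nat_lit 1) (nat_lit 270) (nat_lit 1) (nat_lit 18) (.e false (nat_lit 3) (nat_lit 271) (nat_lit 1) (nat_lit 18) (.e true (nat_lit 1) (nat_lit 274) (nat_lit 1) (nat_lit 18) (.e true (nat_lit 2) (nat_lit 277) (nat_lit 1) (nat_lit 18) (.e false (nat_lit 2) (nat_lit 278) (nat_lit 1) (nat_lit 18) (.e true (nat_lit 1) (nat_lit 279) (nat_lit 1) (nat_lit 18) (.e false (nat_lit 1) (nat_lit 280) (nat_lit 1) (nat_lit 18) (.e false (nat_lit 3) (nat_lit 286) (nat_lit 1) (nat_lit 18) (.e true (nat_lit 1) (nat_lit 288) (nat_lit 1) (nat_lit 18) (.e true (nat_lit 3) (nat_lit 272) (nat_lit 1) (nat_lit 18) (.e true (nat_lit 3) (nat_lit 287) (nat_lit 1) (nat_lit 18) (.e true (nat_lit 1) (nat_lit 48) (nat_lit 18) (nat_lit 5) (.e true (nat_lit 1) (nat_lit 49) (nat_lit 18) (nat_lit 5) dC1b_i3))))))))))))))))))))))))) .leaf) (nat_lit 43035) (nat_lit 1183) (.n (nat_lit 355) (nat_lit 3) (.n (nat_lit 356) (nat_lit 1) (.n (nat_lit 357) (nat_lit 1) (.n (nat_lit 358) (nat_lit 1) (.n (nat_lit 359) (nat_lit 2) (.p (nat_lit 360) (nat_lit 2) (.p (nat_lit 361) (nat_lit 1) (.n (nat_lit 362) (nat_lit 1) (.p (nat_lit 363) (nat_lit 1) (.p (nat_lit 364) (nat_lit 3) (.p (nat_lit 365) (nat_lit 3) (.n (nat_lit 366) (nat_lit 1) (.n (nat_lit 367) (nat_lit 2) (.p (nat_lit 370) (nat_lit 1) (.p (nat_lit 372) (nat_lit 1) (.p (nat_lit 373) (nat_lit 1) (.n (nat_lit 375) (nat_lit 3) (.p (nat_lit 381) (nat_lit 3) (.n (nat_lit 383) (nat_lit 3) (.p (nat_lit 384) (nat_lit 3) (.n (nat_lit 386) (nat_lit 2) (.n (nat_lit 387) (nat_lit 1) (.p (nat_lit 388) (nat_lit 2) (.n (nat_lit 389) (nat_lit 1) (.p (nat_lit 390) (nat_lit 3) (.p (nat_lit 391) (nat_lit 3) (.n (nat_lit 392) (nat_lit 1) (.p (nat_lit 393) (nat_lit 3) (.p (nat_lit 394) (nat_lit 3) (.p (nat_lit 396) (nat_lit 1) (.n (nat_lit 404) (nat_lit 3) (.n (nat_lit 405) (nat_lit 1) (.p (nat_lit 406) (nat_lit 1) (.n (nat_lit 408) (nat_lit 1) (.n (nat_lit 409) (nat_lit 3) (.p (nat_lit 410) (nat_lit 3) .z)))))))))))))))))))))))))))))))))))) (.ct dC1b_c548 (nat_lit 1) (nat_lit 2) (.s false (nat_lit 1) (nat_lit 42) (nat_lit 5) (nat_lit 0) (nat_lit 1) true (nat_lit 8) true (nat_lit 18) false (nat_lit 2) true (nat_lit 14) true (nat_lit 19) (.e true (nat_lit 1) (nat_lit 77) (nat_lit 13) (nat_lit 8) (.e true (nat_lit 1) (nat_lit 78) (nat_lit 13) (nat_lit 8) (.e false (nat_lit 1) (nat_lit 81) (nat_lit 13) (nat_lit 8) (.e true (nat_lit 2) (nat_lit 260) (nat_lit 1) (nat_lit 18) (.e false (nat_lit 1) (nat_lit 263) (nat_lit 1) (nat_lit 18) (.e false (nat_lit 2) (nat_lit 264) (nat_lit 1) (nat_lit 18) (.e true (nat_lit 2) (nat_lit 267) (nat_lit 1) (nat_lit 18) (.e true (nat_lit 1) (nat_lit 269) (nat_lit 1) (nat_lit 18) (.e false (nat_lit 2) (nat_lit 272) (nat_lit 1) (nat_lit 18) (.e false (nat_lit 2) (nat_lit 274) (nat_lit 1) (nat_lit 18) (.e true (nat_lit 2) (nat_lit 280) (nat_lit 1) (nat_lit 18) (.e true (nat_lit 3) (nat_lit 287) (nat_lit 1) (nat_lit 18) dC1b_i5)))))))))))))) (.nd (.nd .leaf (nat_lit 43039) (nat_lit 1308) (.p (nat_lit 426) (nat_lit 3) (.p (nat_lit 427) (nat_lit 1) (.n (nat_lit 428) (nat_lit 3) (.n (nat_lit 430) (nat_lit 2) (.p (nat_lit 431) (nat_lit 2) (.p (nat_lit 432) (nat_lit 2) (.p (nat_lit 433) (nat_lit 2) (.n (nat_lit 434) (nat_lit 3) (.n (nat_lit 435) (nat_lit 2) (.p (nat_lit 436) (nat_lit 3) (.n (nat_lit 438) (nat_lit 3) (.p (nat_lit 439) (nat_lit 2) (.n (nat_lit 441) (nat_lit 3) (.n (nat_lit 442) (nat_lit 1) (.n (nat_lit 443) (nat_lit 3) (.n (nat_lit 444) (nat_lit 1) (.n (nat_lit 445) (nat_lit 3) (.p (nat_lit 456) (nat_lit 2) (.n (nat_lit 459) (nat_lit 1) .z))))))))))))))))))) (.ct dC1b_c533 (nat_lit 1) (nat_lit 0) (.s true (nat_lit 1) (nat_lit 18) (nat_lit 10) (nat_lit 2) (nat_lit 0) true (nat_lit 2) true (nat_lit 15) true (nat_lit 3) true (nat_lit 6) true (nat_lit 13) (.s false (nat_lit 1) (nat_lit 42) (nat_lit 3) (nat_lit 2) (nat_lit 2) true (nat_lit 6) true (nat_lit 13) false (nat_lit 0) true (nat_lit 12) true (nat_lit 13) (.s false (nat_lit 1) (nat_lit 46) (nat_lit 3) (nat_lit 0) (nat_lit 2) true (nat_lit 6) true (nat_lit 13) false (nat_lit 2) true (nat_lit 12) true (nat_lit 15) (.s false (nat_lit 1) (nat_lit 46) (nat_lit 3) (nat_lit 2) (nat_lit 0) true (nat_lit 8) true (nat_lit 15) false (nat_lit 2) true (nat_lit 12) true (nat_lit 13) (.e true (nat_lit 2) (nat_lit 46) (nat_lit 22) (nat_lit 2) (.e true (nat_lit 1) (nat_lit 62) (nat_lit 18) (nat_lit 3) (.e false (nat_lit 3) (nat_lit 261) (nat_lit 2) (nat_lit 13) (.e false (nat_lit 2) (nat_lit 262) (nat_lit 2) (nat_lit 13) (.e false (nat_lit 2) (nat_lit 263) (nat_lit 2) (nat_lit 13) (.e true (nat_lit 3) (nat_lit 264) (nat_lit 2) (nat_lit 13) (.e true (nat_lit 1) (nat_lit 266) (nat_lit 2) (nat_lit 13) (.e false (nat_lit 2) (nat_lit 267) (nat_lit 2) (nat_lit 13) (.e true (nat_lit 2) (nat_lit 268) (nat_lit 2) (nat_lit 13) (.e false (nat_lit 1) (nat_lit 269) (nat_lit 2) (nat_lit 13) (.e false (nat_lit 3) (nat_lit 270) (nat_lit 2) (nat_lit 13) (.e false (nat_lit 3) (nat_lit 271) (nat_lit 2) (nat_lit 13) dC1b_i6))))))))))))))))) .leaf) (nat_lit 43040) (nat_lit 1292) (.p (nat_lit 426) (nat_lit 3) (.p (nat_lit 427) (nat_lit 3) (.n (nat_lit 428) (nat_lit 3) (.n (nat_lit 429) (nat_lit 2) (.p (nat_lit 430) (nat_lit 3) (.n (nat_lit 431) (nat_lit 2) (.n (nat_lit 432) (nat_lit 2) (.n (nat_lit 433) (nat_lit 2) (.n (nat_lit 434) (nat_lit 3) (.n (nat_lit 435) (nat_lit 2) (.p (nat_lit 436) (nat_lit 3) (.p (nat_lit 438) (nat_lit 1) (.n (nat_lit 439) (nat_lit 1) (.p (nat_lit 441) (nat_lit 2) (.n (nat_lit 442) (nat_lit 1) (.p (nat_lit 443) (nat_lit 2) (.p (nat_lit 444) (nat_lit 3) (.n (nat_lit 445) (nat_lit 1) (.n (nat_lit 456) (nat_lit 1) (.n (nat_lit 459) (nat_lit 3) .z)))))))))))))))))))) (.ct dC1b_c533 (nat_lit 1) (nat_lit 0) (.s false (nat_lit 1) (nat_lit 32) (nat_lit 2) (nat_lit 6) (nat_lit 0) true (nat_lit 11) true (nat_lit 15) true (nat_lit 0) true (nat_lit 13) true (nat_lit 9) (.e true (nat_lit 1) (nat_lit 193) (nat_lit 4) (nat_lit 11) (.e false (nat_lit 1) (nat_lit 345) (nat_lit 0) (nat_lit 15) (.e false (nat_lit 1) (nat_lit 261) (nat_lit 2) (nat_lit 13) (.e false (nat_lit 2) (nat_lit 263) (nat_lit 2) (nat_lit 13) (.e true (nat_lit 2) (nat_lit 264) (nat_lit 2) (nat_lit 13) (.e true (nat_lit 1) (nat_lit 265) (nat_lit 2) (nat_lit 13) (.e false (nat_lit 2) (nat_lit 266) (nat_lit 2) (nat_lit 13) (.e false (nat_lit 3) (nat_lit 267) (nat_lit 2) (nat_lit 13) (.e true (nat_lit 3) (nat_lit 268) (nat_lit 2) (nat_lit 13) (.e true (nat_lit 2) (nat_lit 269) (nat_lit 2) (nat_lit 13) (.e false (nat_lit 2) (nat_lit 270) (nat_lit 2) (nat_lit 13) (.e false (nat_lit 2) (nat_lit 271) (nat_lit 2) (nat_lit 13) (.e true (nat_lit 2) (nat_lit 272) (nat_lit 2) (nat_lit 13) (.e true (nat_lit 3) (nat_lit 273) (nat_lit 2) (nat_lit 13) (.e false (nat_lit 2) (nat_lit 274) (nat_lit 2) (nat_lit 13) (.e true (nat_lit 2) (nat_lit 277) (nat_lit 2) (nat_lit 13) (.e false (nat_lit 3) (nat_lit 279) (nat_lit 2) (nat_lit 13) (.e true (nat_lit 3) (nat_lit 280) (nat_lit 2) (nat_lit 13) (.e true (nat_lit 2) (nat_lit 284) (nat_lit 2) (nat_lit 13) (.e false (nat_lit 1) (nat_lit 287) (nat_lit 2) (nat_lit 13) (.e true (nat_lit 1) (nat_lit 140) (nat_lit 6) (nat_lit 9) (.u (nat_lit 2) (.p (nat_lit 0) (nat_lit 4) (.n (nat_lit 1) (nat_lit 3) (.p (nat_lit 2) (nat_lit 3) (.p (nat_lit 3) (nat_lit 4) (.n (nat_lit 4) (nat_lit 1) (.n (nat_lit 5) (nat_lit 4) (.n (nat_lit 6) (nat_lit 2) (.n (nat_lit 7) (nat_lit 2) (.p (nat_lit 9) (nat_lit 2) (.n (nat_lit 10) (nat_lit 1) (.p (nat_lit 12) (nat_lit 1) (.p (nat_lit 13) (nat_lit 1) (.n (nat_lit 15) (nat_lit 3) (.n (nat_lit 16) (nat_lit 2) (.p (nat_lit 17) (nat_lit 2) (.n (nat_lit 18) (nat_lit 4) (.n (nat_lit 19) (nat_lit 2) (.p (nat_lit 22) (nat_lit 1) (.n (nat_lit 23) (nat_lit 1) (.p (nat_lit 24) (nat_lit 1) (.p (nat_lit 25) (nat_lit 1) (.n (nat_lit 26) (nat_lit 1) (.n (nat_lit 27) (nat_lit 2) (.n (nat_lit 30) (nat_lit 2) (.p (nat_lit 33) (nat_lit 3) .z))))))))))))))))))))))))) .nil)))))))))))))))))))))))) .leaf)) (nat_lit 43041) (nat_lit 1322) (.n (nat_lit 427) (nat_lit 1) (.p (nat_lit 428) (nat_lit 2) (.p (nat_lit 429) (nat_lit 1) (.n (nat_lit 431) (nat_lit 3) (.p (nat_lit 432) (nat_lit 2) (.p (nat_lit 433) (nat_lit 2) (.p (nat_lit 434) (nat_lit 1) (.p (nat_lit 436) (nat_lit 3) (.n (nat_lit 438) (nat_lit 2) (.p (nat_lit 439) (nat_lit 1) (.p (nat_lit 442) (nat_lit 1) (.n (nat_lit 445) (nat_lit 1) (.n (nat_lit 456) (nat_lit 1) (.n (nat_lit 459) (nat_lit 3) .z)))))))))))))) (.ct dC1b_c533 (nat_lit 1) (nat_lit 0) (.s false (nat_lit 1) (nat_lit 18) (nat_lit 12) (nat_lit 0) (nat_lit 2) true (nat_lit 0) true (nat_lit 13) true (nat_lit 3) true (nat_lit 6) true (nat_lit 15) (.s false (nat_lit 1) (nat_lit 46) (nat_lit 5) (nat_lit 0) (nat_lit 0) true (nat_lit 6) true (nat_lit 15) false (nat_lit 2) true (nat_lit 10) true (nat_lit 15) (.e false (nat_lit 2) (nat_lit 260) (nat_lit 2) (nat_lit 13) (.e false (nat_lit 3) (nat_lit 261) (nat_lit 2) (nat_lit 13) (.e false (nat_lit 3) (nat_lit 262) (nat_lit 2) (nat_lit 13) (.e false (nat_lit 2) (nat_lit 263) (nat_lit 2) (nat_lit 13) (.e true (nat_lit 3) (nat_lit 265) (nat_lit 2) (nat_lit 13) (.e true (nat_lit 3) (nat_lit 266) (nat_lit 2) (nat_lit 13) (.e true (nat_lit 3) (nat_lit 267) (nat_lit 2) (nat_lit 13) (.e false (nat_lit 2) (nat_lit 269) (nat_lit 2) (nat_lit 13) (.e true (nat_lit 1) (nat_lit 270) (nat_lit 2) (nat_lit 13) (.e true (nat_lit 1) (nat_lit 271) (nat_lit 2) (nat_lit 13) (.e false (nat_lit 3) (nat_lit 272) (nat_lit 2) (nat_lit 13) (.e true (nat_lit 2) (nat_lit 273) (nat_lit 2) (nat_lit 13) dC1b_i7))))))))))))))) (.nd (.nd (.nd .leaf (nat_lit 43042) (nat_lit 1329) (.p (nat_lit 426) (nat_lit 2) (.p (nat_lit 427) (nat_lit 2) (.p (nat_lit 428) (nat_lit 2) (.n (nat_lit 429) (nat_lit 3) (.n (nat_lit 430) (nat_lit 1) (.p (nat_lit 431) (nat_lit 1) (.n (nat_lit 432) (nat_lit 3) (.n (nat_lit 433) (nat_lit 3) (.n (nat_lit 435) (nat_lit 2) (.p (nat_lit 436) (nat_lit 1) (.n (nat_lit 438) (nat_lit 3) (.n (nat_lit 441) (nat_lit 1) (.p (nat_lit 442) (nat_lit 3) (.n (nat_lit 443) (nat_lit 1) (.p (nat_lit 444) (nat_lit 2) (.n (nat_lit 445) (nat_lit 2) .z)))))))))))))))) (.ct dC1b_c533 (nat_lit 1) (nat_lit 0) (.s true (nat_lit 1) (nat_lit 18) (nat_lit 6) (nat_lit 0) (nat_lit 3) true (nat_lit 0) true (nat_lit 12) true (nat_lit 3) true (nat_lit 9) true (nat_lit 15) (.e true (nat_lit 1) (nat_lit 42) (nat_lit 32) (nat_lit 0) (.e false (nat_lit 1) (nat_lit 42) (nat_lit 33) (nat_lit 0) (.e false (nat_lit 1) (nat_lit 42) (nat_lit 36) (nat_lit 0) (.e true (nat_lit 2) (nat_lit 55) (nat_lit 18) (nat_lit 3) (.e false (nat_lit 2) (nat_lit 56) (nat_lit 18) (nat_lit 3) (.e false (nat_lit 3) (nat_lit 57) (nat_lit 18) (nat_lit 3) (.e true (nat_lit 2) (nat_lit 58) (nat_lit 18) (nat_lit 3) (.e false (nat_lit 1) (nat_lit 61) (nat_lit 18) (nat_lit 3) (.e true (nat_lit 1) (nat_lit 64) (nat_lit 18) (nat_lit 3) (.e false (nat_lit 2) (nat_lit 65) (nat_lit 18) (nat_lit 3) (.e true (nat_lit 1) (nat_lit 142) (nat_lit 6) (nat_lit 9) (.e false (nat_lit 1) (nat_lit 149) (nat_lit 6) (nat_lit 9) (.e true (nat_lit 1) (nat_lit 329) (nat_lit 0) (nat_lit 15) (.e false (nat_lit 1) (nat_lit 330) (nat_lit 0) (nat_lit 15) (.e true (nat_lit 1) (nat_lit 331) (nat_lit 0) (nat_lit 15) (.e false (nat_lit 1) (nat_lit 333) (nat_lit 0) (nat_lit 15) (.e false (nat_lit 3) (nat_lit 336) (nat_lit 0) (nat_lit 15) (.e true (nat_lit 3) (nat_lit 337) (nat_lit 0) (nat_lit 15) (.e false (nat_lit 3) (nat_lit 338) (nat_lit 0) (nat_lit 15) (.e false (nat_lit 1) (nat_lit 340) (nat_lit 0) (nat_lit 15) (.e true (nat_lit 1) (nat_lit 341) (nat_lit 0) (nat_lit 15) (.u (nat_lit 2) (.n (nat_lit 0) (nat_lit 1) (.n (nat_lit 1) (nat_lit 3) (.n (nat_lit 2) (nat_lit 1) (.n (nat_lit 3) (nat_lit 2) (.n (nat_lit 4) (nat_lit 1) (.n (nat_lit 5) (nat_lit 1) (.p (nat_lit 6) (nat_lit 2) (.p (nat_lit 7) (nat_lit 2) (.n (nat_lit 10) (nat_lit 1) (.p (nat_lit 12) (nat_lit 1) (.p (nat_lit 15) (nat_lit 1) (.p (nat_lit 16) (nat_lit 1) (.p (nat_lit 17) (nat_lit 1) (.p (nat_lit 19) (nat_lit 1) (.n (nat_lit 30) (nat_lit 2) (.n (nat_lit 33) (nat_lit 1) (.n (nat_lit 213) (nat_lit 1) (.p (nat_lit 214) (nat_lit 1) (.n (nat_lit 219) (nat_lit 1) .z))))))))))))))))))) .nil)))))))))))))))))))))))) .leaf) (nat_lit 43043) (nat_lit 1331) (.p (nat_lit 426) (nat_lit 1) (.n (nat_lit 427) (nat_lit 3) (.n (nat_lit 430) (nat_lit 1) (.n (nat_lit 431) (nat_lit 2) (.n (nat_lit 432) (nat_lit 3) (.n (nat_lit 433) (nat_lit 3) (.p (nat_lit 434) (nat_lit 1) (.p (nat_lit 435) (nat_lit 2) (.n (nat_lit 436) (nat_lit 3) (.n (nat_lit 438) (nat_lit 3) (.p (nat_lit 441) (nat_lit 1) (.p (nat_lit 442) (nat_lit 3) (.p (nat_lit 443) (nat_lit 1) (.n (nat_lit 444) (nat_lit 2) (.p (nat_lit 445) (nat_lit 3) .z))))))))))))))) (.ct dC1b_c533 (nat_lit 1) (nat_lit 0) (.s false (nat_lit 1) (nat_lit 18) (nat_lit 17) (nat_lit 0) (nat_lit 0) true (nat_lit 0) true (nat_lit 15) true (nat_lit 3) true (nat_lit 4) true (nat_lit 15) dC1b_i8)) .leaf) (nat_lit 43044) (nat_lit 1328) (.n (nat_lit 426) (nat_lit 1) (.n (nat_lit 427) (nat_lit 1) (.p (nat_lit 428) (nat_lit 1) (.n (nat_lit 429) (nat_lit 3) (.p (nat_lit 430) (nat_lit 1) (.n (nat_lit 431) (nat_lit 3) (.n (nat_lit 432) (nat_lit 3) (.n (nat_lit 433) (nat_lit 3) (.n (nat_lit 434) (nat_lit 1) (.p (nat_lit 435) (nat_lit 3) (.p (nat_lit 438) (nat_lit 1) (.p (nat_lit 439) (nat_lit 1) (.p (nat_lit 441) (nat_lit 1) (.p (nat_lit 442) (nat_lit 1) (.p (nat_lit 443) (nat_lit 1) (.n (nat_lit 444) (nat_lit 2) (.n (nat_lit 445) (nat_lit 2) (.n (nat_lit 456) (nat_lit 3) (.n (nat_lit 459) (nat_lit 2) .z))))))))))))))))))) (.ct dC1b_c533 (nat_lit 1) (nat_lit 0) (.s false (nat_lit 1) (nat_lit 18) (nat_lit 16) (nat_lit 0) (nat_lit 0) true (nat_lit 0) true (nat_lit 15) true (nat_lit 3) true (nat_lit 4) true (nat_lit 15) (.e true (nat_lit 2) (nat_lit 328) (nat_lit 0) (nat_lit 15) (.e false (nat_lit 3) (nat_lit 329) (nat_lit 0) (nat_lit 15) (.e true (nat_lit 1) (nat_lit 331) (nat_lit 0) (nat_lit 15) (.e false (nat_lit 2) (nat_lit 332) (nat_lit 0) (nat_lit 15) (.e false (nat_lit 1) (nat_lit 334) (nat_lit 0) (nat_lit 15) (.e false (nat_lit 1) (nat_lit 335) (nat_lit 0) (nat_lit 15) (.e true (nat_lit 1) (nat_lit 337) (nat_lit 0) (nat_lit 15) (.e false (nat_lit 1) (nat_lit 338) (nat_lit 0) (nat_lit 15) (.e false (nat_lit 2) (nat_lit 336) (nat_lit 0) (nat_lit 15) (.e true (nat_lit 3) (nat_lit 330) (nat_lit 0) (nat_lit 15) (.e false (nat_lit 3) (nat_lit 333) (nat_lit 0) (nat_lit 15) (.e true (nat_lit 3) (nat_lit 341) (nat_lit 0) (nat_lit 15) (.e false (nat_lit 1) (nat_lit 56) (nat_lit 18) (nat_lit 3) (.e true (nat_lit 1) (nat_lit 57) (nat_lit 18) (nat_lit 3) (.e false (nat_lit 3) (nat_lit 59) (nat_lit 18) (nat_lit 3) (.e false (nat_lit 3) (nat_lit 60) (nat_lit 18) (nat_lit 3) (.e true (nat_lit 3) (nat_lit 61) (nat_lit 18) (nat_lit 3) (.e true (nat_lit 1) (nat_lit 62) (nat_lit 18) (nat_lit 3) (.e true (nat_lit 1) (nat_lit 63) (nat_lit 18) (nat_lit 3) (.e true (nat_lit 3) (nat_lit 64) (nat_lit 18) (nat_lit 3) (.e true (nat_lit 3) (nat_lit 65) (nat_lit 18) (nat_lit 3) (.e true (nat_lit 1) (nat_lit 346) (nat_lit 0) (nat_lit 15) (.u (nat_lit 2) (.p (nat_lit 0) (nat_lit 2) (.p (nat_lit 1) (nat_lit 1) (.n (nat_lit 2) (nat_lit 2) (.n (nat_lit 3) (nat_lit 2) (.n (nat_lit 4) (nat_lit 1) (.p (nat_lit 5) (nat_lit 1) (.p (nat_lit 6) (nat_lit 3) (.p (nat_lit 7) (nat_lit 3) (.p (nat_lit 8) (nat_lit 2) (.n (nat_lit 9) (nat_lit 1) (.p (nat_lit 10) (nat_lit 5) (.n (nat_lit 15) (nat_lit 3) (.n (nat_lit 16) (nat_lit 1) (.n (nat_lit 17) (nat_lit 3) (.n (nat_lit 19) (nat_lit 1) (.p (nat_lit 30) (nat_lit 2) (.n (nat_lit 33) (nat_lit 2) (.p (nat_lit 211) (nat_lit 1) (.n (nat_lit 212) (nat_lit 1) (.p (nat_lit 213) (nat_lit 1) (.n (nat_lit 215) (nat_lit 1) (.n (nat_lit 216) (nat_lit 1) (.n (nat_lit 221) (nat_lit 1) (.p (nat_lit 224) (nat_lit 1) .z)))))))))))))))))))))))) .nil))))))))))))))))))))))))) (.nd (.nd .leaf (nat_lit 43046) (nat_lit 1534) (.p (nat_lit 460) (nat_lit 2) (.n (nat_lit 461) (nat_lit 1) (.n (nat_lit 462) (nat_lit 3) (.p (nat_lit 463) (nat_lit 3) (.n (nat_lit 464) (nat_lit 1) (.n (nat_lit 465) (nat_lit 2) (.p (nat_lit 467) (nat_lit 2) (.p (nat_lit 468) (nat_lit 3) (.n (nat_lit 469) (nat_lit 3) (.n (nat_lit 470) (nat_lit 3) (.n (nat_lit 471) (nat_lit 1) (.p (nat_lit 472) (nat_lit 2) (.p (nat_lit 473) (nat_lit 3) (.p (nat_lit 474) (nat_lit 3) (.n (nat_lit 475) (nat_lit 1) (.n (nat_lit 476) (nat_lit 1) (.n (nat_lit 477) (nat_lit 1) (.n (nat_lit 479) (nat_lit 3) (.n (nat_lit 489) (nat_lit 3) (.n (nat_lit 493) (nat_lit 2) .z)))))))))))))))))))) (.ct dC1b_c293 (nat_lit 1) (nat_lit 0) (.s false (nat_lit 1) (nat_lit 18) (nat_lit 16) (nat_lit 0) (nat_lit 1) true (nat_lit 0) true (nat_lit 14) true (nat_lit 3) true (nat_lit 4) true (nat_lit 15) (.e false (nat_lit 2) (nat_lit 328) (nat_lit 1) (nat_lit 14) (.e true (nat_lit 2) (nat_lit 329) (nat_lit 1) (nat_lit 14) (.e true (nat_lit 3) (nat_lit 331) (nat_lit 1) (nat_lit 14) (.e true (nat_lit 2) (nat_lit 332) (nat_lit 1) (nat_lit 14) (.e false (nat_lit 1) (nat_lit 334) (nat_lit 1) (nat_lit 14) dC1b_i9))))))) .leaf) (nat_lit 44032) (nat_lit 126) (.p (nat_lit 89) (nat_lit 1) .z) .df .leaf))) (nat_lit 44033) (nat_lit 142) (.p (nat_lit 96) (nat_lit 1) .z) .df (.nd (.nd (.nd (.nd .leaf (nat_lit 44034) (nat_lit 155) (.p (nat_lit 102) (nat_lit 1) .z) .df .leaf) (nat_lit 44035) (nat_lit 298) (.p (nat_lit 153) (nat_lit 3) (.p (nat_lit 154) (nat_lit 2) (.n (nat_lit 155) (nat_lit 2) (.p (nat_lit 156) (nat_lit 2) (.n (nat_lit 161) (nat_lit 1) (.p (nat_lit 162) (nat_lit 1) (.n (nat_lit 164) (nat_lit 1) (.n (nat_lit 170) (nat_lit 1) (.p (nat_lit 171) (nat_lit 1) (.p (nat_lit 173) (nat_lit 1) .z)))))))))) (.ct dC1b_c291 (nat_lit 1) (nat_lit 6) (.s true (nat_lit 1) (nat_lit 5) (nat_lit 2) (nat_lit 3) (nat_lit 2) true (nat_lit 3) true (nat_lit 7) true (nat_lit 4) true (nat_lit 7) true (nat_lit 6) (.e false (nat_lit 1) (nat_lit 24) (nat_lit 6) (nat_lit 3) (.e true (nat_lit 1) (nat_lit 26) (nat_lit 6) (nat_lit 3) (.e false (nat_lit 1) (nat_lit 27) (nat_lit 6) (nat_lit 3) (.e false (nat_lit 1) (nat_lit 66) (nat_lit 2) (nat_lit 7) (.e false (nat_lit 1) (nat_lit 67) (nat_lit 2) (nat_lit 7) (.e true (nat_lit 1) (nat_lit 68) (nat_lit 2) (nat_lit 7) (.e false (nat_lit 1) (nat_lit 69) (nat_lit 2) (nat_lit 7) (.e false (nat_lit 1) (nat_lit 70) (nat_lit 2) (nat_lit 7) (.e true (nat_lit 1) (nat_lit 74) (nat_lit 2) (nat_lit 7) (.e false (nat_lit 1) (nat_lit 31) (nat_lit 5) (nat_lit 4) (.e true (nat_lit 1) (nat_lit 75) (nat_lit 2) (nat_lit 7) .nil))))))))))))) .leaf) (nat_lit 44036) (nat_lit 370) (.p (nat_lit 180) (nat_lit 2) (.p (nat_lit 181) (nat_lit 1) (.n (nat_lit 182) (nat_lit 1) (.p (nat_lit 183) (nat_lit 3) (.n (nat_lit 184) (nat_lit 2) (.n (nat_lit 185) (nat_lit 2) (.n (nat_lit 186) (nat_lit 3) (.n (nat_lit 187) (nat_lit 3) (.n (nat_lit 189) (nat_lit 3) (.n (nat_lit 190) (nat_lit 3) (.n (nat_lit 195) (nat_lit 1) .z))))))))))) (.ct dC1b_c276 (nat_lit 1) (nat_lit 4) (.s true (nat_lit 1) (nat_lit 5) (nat_lit 2) (nat_lit 2) (nat_lit 4) true (nat_lit 0) true (nat_lit 4) true (nat_lit 3) true (nat_lit 6) true (nat_lit 6) (.e true (nat_lit 1) (nat_lit 16) (nat_lit 14) (nat_lit 0) (.e true (nat_lit 1) (nat_lit 41) (nat_lit 5) (nat_lit 3) (.e true (nat_lit 1) (nat_lit 42) (nat_lit 5) (nat_lit 3) (.e false (nat_lit 1) (nat_lit 87) (nat_lit 2) (nat_lit 6) (.e false (nat_lit 1) (nat_lit 89) (nat_lit 2) (nat_lit 6) (.e true (nat_lit 1) (nat_lit 92) (nat_lit 2) (nat_lit 6) (.u (nat_lit 2) (.p (nat_lit 5) (nat_lit 1) .z) .nil))))))))) (.nd (.nd .leaf (nat_lit 44037) (nat_lit 385) (.n (nat_lit 197) (nat_lit 1) (.n (nat_lit 199) (nat_lit 1) (.p (nat_lit 201) (nat_lit 1) .z))) (.ct dC1b_c36 (nat_lit 1) (nat_lit 3) (.s true (nat_lit 1) (nat_lit 16) (nat_lit 1) (nat_lit 2) (nat_lit 2) true (nat_lit 3) true (nat_lit 4) true (nat_lit 0) true (nat_lit 5) true (nat_lit 4) (.a true (nat_lit 3) (nat_lit 16) (nat_lit 16) (nat_lit 0) (nat_lit 0) (.e true (nat_lit 1) (nat_lit 94) (nat_lit 2) (nat_lit 4) (.e false (nat_lit 1) (nat_lit 105) (nat_lit 1) (nat_lit 5) (.e true (nat_lit 1) (nat_lit 96) (nat_lit 2) (nat_lit 4) (.u (nat_lit 2) (.p (nat_lit 6) (nat_lit 1) .z) .nil))))))) .leaf) (nat_lit 44038) (nat_lit 417) (.p (nat_lit 208) (nat_lit 1) (.p (nat_lit 209) (nat_lit 2) (.n (nat_lit 210) (nat_lit 1) (.p (nat_lit 211) (nat_lit 1) .z)))) (.ct dC1b_c21 (nat_lit 1) (nat_lit 1) (.s true (nat_lit 1) (nat_lit 6) (nat_lit 5) (nat_lit 2) (nat_lit 2) true (nat_lit 0) true (nat_lit 3) true (nat_lit 1) true (nat_lit 2) true (nat_lit 3) (.e true (nat_lit 1) (nat_lit 18) (nat_lit 16) (nat_lit 0) (.e false (nat_lit 1) (nat_lit 105) (nat_lit 2) (nat_lit 3) .nil)))) .leaf)) (nat_lit 44039) (nat_lit 510) (.p (nat_lit 212) (nat_lit 3) (.p (nat_lit 213) (nat_lit 1) (.p (nat_lit 214) (nat_lit 2) (.p (nat_lit 216) (nat_lit 1) (.p (nat_lit 217) (nat_lit 2) (.n (nat_lit 218) (nat_lit 2) (.p (nat_lit 219) (nat_lit 1) (.p (nat_lit 220) (nat_lit 1) (.n (nat_lit 223) (nat_lit 2) (.p (nat_lit 224) (nat_lit 2) (.p (nat_lit 225) (nat_lit 1) (.p (nat_lit 226) (nat_lit 1) (.p (nat_lit 227) (nat_lit 2) (.n (nat_lit 228) (nat_lit 1) (.n (nat_lit 229) (nat_lit 3) (.p (nat_lit 230) (nat_lit 2) (.p (nat_lit 231) (nat_lit 1) (.p (nat_lit 232) (nat_lit 3) (.n (nat_lit 234) (nat_lit 1) (.n (nat_lit 235) (nat_lit 2) (.p (nat_lit 236) (nat_lit 1) (.n (nat_lit 238) (nat_lit 3) (.p (nat_lit 239) (nat_lit 3) (.p (nat_lit 240) (nat_lit 1) (.n (nat_lit 241) (nat_lit 2) (.n (nat_lit 242) (nat_lit 3) (.p (nat_lit 243) (nat_lit 3) (.p (nat_lit 244) (nat_lit 1) (.n (nat_lit 245) (nat_lit 1) (.n (nat_lit 246) (nat_lit 2) (.p (nat_lit 247) (nat_lit 2) (.n (nat_lit 248) (nat_lit 3) .z)))))))))))))))))))))))))))))))) (.ct dC1b_c547 (nat_lit 1) (nat_lit 7) (.s false (nat_lit 1) (nat_lit 43) (nat_lit 1) (nat_lit 0) (nat_lit 0) true (nat_lit 11) true (nat_lit 14) false (nat_lit 7) true (nat_lit 13) true (nat_lit 14) (.e true (nat_lit 1) (nat_lit 89) (nat_lit 3) (nat_lit 11) (.e true (nat_lit 2) (nat_lit 153) (nat_lit 0) (nat_lit 14) (.e false (nat_lit 2) (nat_lit 155) (nat_lit 0) (nat_lit 14) (.e true (nat_lit 2) (nat_lit 156) (nat_lit 0) (nat_lit 14) (.e false (nat_lit 2) (nat_lit 157) (nat_lit 0) (nat_lit 14) (.e true (nat_lit 2) (nat_lit 159) (nat_lit 0) (nat_lit 14) (.e false (nat_lit 2) (nat_lit 160) (nat_lit 0) (nat_lit 14) (.e false (nat_lit 2) (nat_lit 162) (nat_lit 0) (nat_lit 14) (.e true (nat_lit 3) (nat_lit 163) (nat_lit 0) (nat_lit 14) (.e false (nat_lit 1) (nat_lit 164) (nat_lit 0) (nat_lit 14) (.e false (nat_lit 1) (nat_lit 167) (nat_lit 0) (nat_lit 14) (.e true (nat_lit 2) (nat_lit 170) (nat_lit 0) (nat_lit 14) (.e false (nat_lit 2) (nat_lit 171) (nat_lit 0) (nat_lit 14) (.e true (nat_lit 1) (nat_lit 173) (nat_lit 0) (nat_lit 14) (.e true (nat_lit 3) (nat_lit 154) (nat_lit 0) (nat_lit 14) (.u (nat_lit 2) (.p (nat_lit 2) (nat_lit 1) (.n (nat_lit 3) (nat_lit 1) (.p (nat_lit 4) (nat_lit 1) (.n (nat_lit 5) (nat_lit 1) (.p (nat_lit 8) (nat_lit 1) (.n (nat_lit 10) (nat_lit 1) (.n (nat_lit 14) (nat_lit 1) (.n (nat_lit 15) (nat_lit 1) (.p (nat_lit 17) (nat_lit 1) (.n (nat_lit 184) (nat_lit 1) (.p (nat_lit 185) (nat_lit 1) (.n (nat_lit 186) (nat_lit 1) (.p (nat_lit 188) (nat_lit 1) (.n (nat_lit 189) (nat_lit 1) (.p (nat_lit 192) (nat_lit 1) (.n (nat_lit 196) (nat_lit 1) (.p (nat_lit 199) (nat_lit 1) (.n (nat_lit 200) (nat_lit 1) .z)))))))))))))))))) .nil)))))))))))))))))) (.nd (.nd (.nd .leaf (nat_lit 44041) (nat_lit 634) (.n (nat_lit 260) (nat_lit 2) (.n (nat_lit 261) (nat_lit 3) (.p (nat_lit 262) (nat_lit 1) (.p (nat_lit 263) (nat_lit 2) (.n (nat_lit 264) (nat_lit 3) (.p (nat_lit 265) (nat_lit 2) (.n (nat_lit 266) (nat_lit 3) (.p (nat_lit 268) (nat_lit 1) (.p (nat_lit 270) (nat_lit 3) (.p (nat_lit 271) (nat_lit 2) (.n (nat_lit 272) (nat_lit 1) (.p (nat_lit 273) (nat_lit 1) (.n (nat_lit 274) (nat_lit 2) (.n (nat_lit 279) (nat_lit 2) (.n (nat_lit 280) (nat_lit 1) (.p (nat_lit 287) (nat_lit 3) (.n (nat_lit 288) (nat_lit 3) (.n (nat_lit 289) (nat_lit 1) .z)))))))))))))))))) (.ct dC1b_c532 (nat_lit 1) (nat_lit 4) (.s true (nat_lit 1) (nat_lit 43) (nat_lit 0) (nat_lit 2) (nat_lit 0) false (nat_lit 13) true (nat_lit 12) false (nat_lit 4) true (nat_lit 12) true (nat_lit 10) (.e false (nat_lit 3) (nat_lit 187) (nat_lit 0) (nat_lit 12) (.e false (nat_lit 2) (nat_lit 180) (nat_lit 0) (nat_lit 12) (.e false (nat_lit 1) (nat_lit 181) (nat_lit 0) (nat_lit 12) (.e true (nat_lit 1) (nat_lit 182) (nat_lit 0) (nat_lit 12) (.e false (nat_lit 3) (nat_lit 183) (nat_lit 0) (nat_lit 12) (.e true (nat_lit 2) (nat_lit 184) (nat_lit 0) (nat_lit 12) (.e true (nat_lit 2) (nat_lit 185) (nat_lit 0) (nat_lit 12) dC1b_i10))))))))) .leaf) (nat_lit 44042) (nat_lit 726) (.n (nat_lit 290) (nat_lit 2) (.p (nat_lit 292) (nat_lit 1) (.n (nat_lit 293) (nat_lit 1) (.p (nat_lit 294) (nat_lit 2) (.p (nat_lit 298) (nat_lit 1) (.n (nat_lit 299) (nat_lit 3) (.p (nat_lit 301) (nat_lit 1) (.n (nat_lit 304) (nat_lit 3) (.p (nat_lit 307) (nat_lit 1) (.n (nat_lit 310) (nat_lit 1) (.n (nat_lit 319) (nat_lit 1) .z))))))))))) (.ct dC1b_c292 (nat_lit 1) (nat_lit 4) (.s false (nat_lit 1) (nat_lit 10) (nat_lit 2) (nat_lit 5) (nat_lit 2) true (nat_lit 6) true (nat_lit 10) true (nat_lit 4) true (nat_lit 10) true (nat_lit 7) (.e false (nat_lit 1) (nat_lit 75) (nat_lit 6) (nat_lit 6) (.e true (nat_lit 1) (nat_lit 154) (nat_lit 2) (nat_lit 10) (.e true (nat_lit 3) (nat_lit 157) (nat_lit 2) (nat_lit 10) (.e false (nat_lit 2) (nat_lit 162) (nat_lit 2) (nat_lit 10) (.e true (nat_lit 2) (nat_lit 164) (nat_lit 2) (nat_lit 10) (.e false (nat_lit 1) (nat_lit 167) (nat_lit 2) (nat_lit 10) (.e false (nat_lit 2) (nat_lit 171) (nat_lit 2) (nat_lit 10) (.e true (nat_lit 1) (nat_lit 82) (nat_lit 5) (nat_lit 7) (.u (nat_lit 2) (.n (nat_lit 4) (nat_lit 1) (.p (nat_lit 9) (nat_lit 1) (.p (nat_lit 14) (nat_lit 1) .z))) .nil))))))))))) .leaf) (nat_lit 44043) (nat_lit 768) (.p (nat_lit 290) (nat_lit 2) (.n (nat_lit 291) (nat_lit 3) (.n (nat_lit 292) (nat_lit 1) (.n (nat_lit 294) (nat_lit 2) (.p (nat_lit 295) (nat_lit 2) (.n (nat_lit 296) (nat_lit 2) (.p (nat_lit 297) (nat_lit 2) (.n (nat_lit 298) (nat_lit 1) (.n (nat_lit 299) (nat_lit 3) (.p (nat_lit 300) (nat_lit 3) (.p (nat_lit 302) (nat_lit 3) (.p (nat_lit 304) (nat_lit 3) (.n (nat_lit 305) (nat_lit 1) (.p (nat_lit 307) (nat_lit 1) (.n (nat_lit 308) (nat_lit 2) (.n (nat_lit 309) (nat_lit 1) (.p (nat_lit 310) (nat_lit 1) (.n (nat_lit 311) (nat_lit 1) (.n (nat_lit 312) (nat_lit 1) (.n (nat_lit 316) (nat_lit 3) (.n (nat_lit 317) (nat_lit 2) (.n (nat_lit 318) (nat_lit 3) (.p (nat_lit 319) (nat_lit 1) .z))))))))))))))))))))))) (.ct dC1b_c292 (nat_lit 1) (nat_lit 4) (.s false (nat_lit 1) (nat_lit 11) (nat_lit 5) (nat_lit 2) (nat_lit 2) true (nat_lit 1) true (nat_lit 10) true (nat_lit 4) true (nat_lit 7) true (nat_lit 10) (.e false (nat_lit 1) (nat_lit 32) (nat_lit 16) (nat_lit 1) (.e true (nat_lit 1) (nat_lit 91) (nat_lit 5) (nat_lit 7) (.e false (nat_lit 1) (nat_lit 155) (nat_lit 2) (nat_lit 10) (.e false (nat_lit 2) (nat_lit 158) (nat_lit 2) (nat_lit 10) (.e false (nat_lit 1) (nat_lit 165) (nat_lit 2) (nat_lit 10) (.e true (nat_lit 1) (nat_lit 168) (nat_lit 2) (nat_lit 10) (.e true (nat_lit 1) (nat_lit 172) (nat_lit 2) (nat_lit 10) (.u (nat_lit 2) (.n (nat_lit 10) (nat_lit 1) (.p (nat_lit 18) (nat_lit 1) (.p (nat_lit 26) (nat_lit 1) (.p (nat_lit 27) (nat_lit 1) .z)))) .nil)))))))))) (.nd (.nd .leaf (nat_lit 44044) (nat_lit 758) (.n (nat_lit 290) (nat_lit 2) (.n (nat_lit 291) (nat_lit 2) (.p (nat_lit 292) (nat_lit 2) (.n (nat_lit 293) (nat_lit 3) (.p (nat_lit 294) (nat_lit 1) (.p (nat_lit 295) (nat_lit 2) (.p (nat_lit 298) (nat_lit 3) (.p (nat_lit 299) (nat_lit 3) (.n (nat_lit 300) (nat_lit 1) (.n (nat_lit 301) (nat_lit 3) (.p (nat_lit 302) (nat_lit 3) (.n (nat_lit 304) (nat_lit 1) (.n (nat_lit 305) (nat_lit 1) (.n (nat_lit 307) (nat_lit 3) (.p (nat_lit 308) (nat_lit 1) (.n (nat_lit 309) (nat_lit 1) (.n (nat_lit 310) (nat_lit 1) (.n (nat_lit 312) (nat_lit 1) (.p (nat_lit 316) (nat_lit 2) (.p (nat_lit 317) (nat_lit 3) (.n (nat_lit 318) (nat_lit 3) (.p (nat_lit 319) (nat_lit 1) .z)))))))))))))))))))))) (.ct dC1b_c292 (nat_lit 1) (nat_lit 4) (.s true (nat_lit 1) (nat_lit 43) (nat_lit 1) (nat_lit 2) (nat_lit 0) true (nat_lit 9) true (nat_lit 12) false (nat_lit 4) true (nat_lit 11) true (nat_lit 10) (.e false (nat_lit 1) (nat_lit 102) (nat_lit 3) (nat_lit 9) (.e true (nat_lit 1) (nat_lit 199) (nat_lit 0) (nat_lit 12) (.e false (nat_lit 2) (nat_lit 180) (nat_lit 1) (nat_lit 11) (.e false (nat_lit 1) (nat_lit 181) (nat_lit 1) (nat_lit 11) (.e true (nat_lit 1) (nat_lit 182) (nat_lit 1) (nat_lit 11) (.e false (nat_lit 3) (nat_lit 183) (nat_lit 1) (nat_lit 11) (.e true (nat_lit 2) (nat_lit 184) (nat_lit 1) (nat_lit 11) (.e true (nat_lit 2) (nat_lit 185) (nat_lit 1) (nat_lit 11) dC1b_i11)))))))))) .leaf) (nat_lit 44046) (nat_lit 872) (.p (nat_lit 328) (nat_lit 3) (.n (nat_lit 329) (nat_lit 2) (.p (nat_lit 330) (nat_lit 1) (.n (nat_lit 331) (nat_lit 3) (.n (nat_lit 332) (nat_lit 3) (.p (nat_lit 334) (nat_lit 2) (.p (nat_lit 335) (nat_lit 3) (.n (nat_lit 336) (nat_lit 1) (.p (nat_lit 337) (nat_lit 3) (.p (nat_lit 338) (nat_lit 2) (.n (nat_lit 339) (nat_lit 1) (.n (nat_lit 342) (nat_lit 1) (.p (nat_lit 343) (nat_lit 1) (.p (nat_lit 344) (nat_lit 1) (.p (nat_lit 345) (nat_lit 1) .z))))))))))))))) (.ct dC1b_c277 (nat_lit 1) (nat_lit 2) (.s true (nat_lit 1) (nat_lit 14) (nat_lit 5) (nat_lit 2) (nat_lit 2) true (nat_lit 1) true (nat_lit 8) true (nat_lit 2) true (nat_lit 5) true (nat_lit 8) (.e true (nat_lit 1) (nat_lit 40) (nat_lit 16) (nat_lit 1) (.e false (nat_lit 1) (nat_lit 180) (nat_lit 2) (nat_lit 8) (.e false (nat_lit 1) (nat_lit 181) (nat_lit 2) (nat_lit 8) (.e true (nat_lit 1) (nat_lit 184) (nat_lit 2) (nat_lit 8) (.e false (nat_lit 2) (nat_lit 185) (nat_lit 2) (nat_lit 8) (.e false (nat_lit 1) (nat_lit 187) (nat_lit 2) (nat_lit 8) (.e true (nat_lit 1) (nat_lit 190) (nat_lit 2) (nat_lit 8) (.e false (nat_lit 1) (nat_lit 101) (nat_lit 5) (nat_lit 5) (.e false (nat_lit 1) (nat_lit 195) (nat_lit 2) (nat_lit 8) (.u (nat_lit 2) (.p (nat_lit 5) (nat_lit 1) (.n (nat_lit 10) (nat_lit 1) .z)) .nil)))))))))))) .leaf))))) (nat_lit 44048) (nat_lit 896) (.n (nat_lit 347) (nat_lit 3) (.p (nat_lit 348) (nat_lit 2) (.p (nat_lit 349) (nat_lit 2) (.n (nat_lit 350) (nat_lit 2) (.p (nat_lit 352) (nat_lit 3) (.n (nat_lit 354) (nat_lit 3) .z)))))) (.ct dC1b_c37 (nat_lit 1) (nat_lit 1) (.s false (nat_lit 3) (nat_lit 16) (nat_lit 5) (nat_lit 2) (nat_lit 2) true (nat_lit 1) true (nat_lit 5) true (nat_lit 1) true (nat_lit 4) true (nat_lit 5) (.e false (nat_lit 2) (nat_lit 197) (nat_lit 2) (nat_lit 5) (.e true (nat_lit 2) (nat_lit 199) (nat_lit 2) (nat_lit 5) (.e true (nat_lit 3) (nat_lit 196) (nat_lit 2) (nat_lit 5) (.e false (nat_lit 2) (nat_lit 198) (nat_lit 2) (nat_lit 5) (.e false (nat_lit 3) (nat_lit 201) (nat_lit 2) (nat_lit 5) (.e true (nat_lit 3) (nat_lit 105) (nat_lit 5) (nat_lit 4) (.u (nat_lit 2) (.p (nat_lit 11) (nat_lit 1) (.p (nat_lit 28) (nat_lit 1) (.p (nat_lit 29) (nat_lit 1) (.n (nat_lit 30) (nat_lit 1) .z)))) .nil))))))))) (.nd (.nd (.nd (.nd (.nd (.nd .leaf (nat_lit 44049) (nat_lit 905) (.p (nat_lit 347) (nat_lit 2) (.n (nat_lit 348) (nat_lit 1) (.p (nat_lit 349) (nat_lit 3) (.n (nat_lit 350) (nat_lit 3) (.n (nat_lit 352) (nat_lit 3) (.p (nat_lit 353) (nat_lit 1) (.p (nat_lit 354) (nat_lit 1) .z))))))) (.ct dC1b_c37 (nat_lit 1) (nat_lit 1) (.s false (nat_lit 1) (nat_lit 16) (nat_lit 2) (nat_lit 5) (nat_lit 2) true (nat_lit 3) true (nat_lit 5) true (nat_lit 1) true (nat_lit 5) true (nat_lit 4) (.s true (nat_lit 1) (nat_lit 43) (nat_lit 2) (nat_lit 1) (nat_lit 2) true (nat_lit 3) true (nat_lit 5) false (nat_lit 1) true (nat_lit 5) true (nat_lit 6) (.s false (nat_lit 1) (nat_lit 43) (nat_lit 2) (nat_lit 2) (nat_lit 1) true (nat_lit 4) true (nat_lit 6) false (nat_lit 1) true (nat_lit 5) true (nat_lit 5) (.e true (nat_lit 1) (nat_lit 94) (nat_lit 6) (nat_lit 3) (.e false (nat_lit 1) (nat_lit 97) (nat_lit 6) (nat_lit 3) (.e true (nat_lit 3) (nat_lit 197) (nat_lit 2) (nat_lit 5) (.e false (nat_lit 3) (nat_lit 199) (nat_lit 2) (nat_lit 5) (.e false (nat_lit 3) (nat_lit 201) (nat_lit 2) (nat_lit 5) (.e false (nat_lit 2) (nat_lit 43) (nat_lit 16) (nat_lit 1) (.e true (nat_lit 1) (nat_lit 200) (nat_lit 2) (nat_lit 5) (.u (nat_lit 2) (.n (nat_lit 0) (nat_lit 1) (.p (nat_lit 5) (nat_lit 1) (.n (nat_lit 7) (nat_lit 1) (.n (nat_lit 30) (nat_lit 1) .z)))) .nil)))))))))))) .leaf) (nat_lit 44052) (nat_lit 1145) (.p (nat_lit 355) (nat_lit 2) (.p (nat_lit 356) (nat_lit 2) (.p (nat_lit 357) (nat_lit 2) (.p (nat_lit 358) (nat_lit 1) (.n (nat_lit 359) (nat_lit 2) (.p (nat_lit 360) (nat_lit 3) (.p (nat_lit 361) (nat_lit 1) (.n (nat_lit 362) (nat_lit 3) (.n (nat_lit 363) (nat_lit 1) (.p (nat_lit 364) (nat_lit 2) (.n (nat_lit 366) (nat_lit 3) (.p (nat_lit 367) (nat_lit 2) (.p (nat_lit 368) (nat_lit 2) (.n (nat_lit 369) (nat_lit 1) (.n (nat_lit 370) (nat_lit 2) (.n (nat_lit 374) (nat_lit 2) (.n (nat_lit 375) (nat_lit 1) (.n (nat_lit 376) (nat_lit 2) (.p (nat_lit 378) (nat_lit 2) (.n (nat_lit 379) (nat_lit 1) (.n (nat_lit 380) (nat_lit 1) (.p (nat_lit 381) (nat_lit 2) (.p (nat_lit 382) (nat_lit 2) (.p (nat_lit 383) (nat_lit 2) (.p (nat_lit 385) (nat_lit 2) (.n (nat_lit 386) (nat_lit 3) (.p (nat_lit 387) (nat_lit 3) (.n (nat_lit 388) (nat_lit 2) (.p (nat_lit 389) (nat_lit 2) (.p (nat_lit 390) (nat_lit 3) (.p (nat_lit 391) (nat_lit 2) (.p (nat_lit 392) (nat_lit 2) (.n (nat_lit 393) (nat_lit 2) (.p (nat_lit 394) (nat_lit 2) (.p (nat_lit 395) (nat_lit 1) (.n (nat_lit 396) (nat_lit 3) (.p (nat_lit 400) (nat_lit 1) (.p (nat_lit 401) (nat_lit 2) (.n (nat_lit 403) (nat_lit 2) (.p (nat_lit 404) (nat_lit 2) (.n (nat_lit 405) (nat_lit 3) (.p (nat_lit 406) (nat_lit 1) (.n (nat_lit 407) (nat_lit 1) (.n (nat_lit 408) (nat_lit 2) (.p (nat_lit 409) (nat_lit 1) (.p (nat_lit 411) (nat_lit 2) (.p (nat_lit 412) (nat_lit 1) (.n (nat_lit 413) (nat_lit 1) (.n (nat_lit 414) (nat_lit 1) (.n (nat_lit 415) (nat_lit 1) (.n (nat_lit 416) (nat_lit 1) (.p (nat_lit 417) (nat_lit 2) (.p (nat_lit 418) (nat_lit 1) (.n (nat_lit 420) (nat_lit 2) (.p (nat_lit 421) (nat_lit 2) (.p (nat_lit 424) (nat_lit 1) .z)))))))))))))))))))))))))))))))))))))))))))))))))))))))) (.ct dC1b_c548 (nat_lit 1) (nat_lit 3) (.s false (nat_lit 1) (nat_lit 16) (nat_lit 7) (nat_lit 2) (nat_lit 2) true (nat_lit 3) true (nat_lit 17) true (nat_lit 6) true (nat_lit 12) true (nat_lit 17) (.e true (nat_lit 2) (nat_lit 212) (nat_lit 2) (nat_lit 17) (.e false (nat_lit 1) (nat_lit 215) (nat_lit 2) (nat_lit 17) (.e false (nat_lit 3) (nat_lit 218) (nat_lit 2) (nat_lit 17) (.e false (nat_lit 2) (nat_lit 219) (nat_lit 2) (nat_lit 17) (.e true (nat_lit 1) (nat_lit 221) (nat_lit 2) (nat_lit 17) (.e true (nat_lit 3) (nat_lit 223) (nat_lit 2) (nat_lit 17) (.e false (nat_lit 2) (nat_lit 226) (nat_lit 2) (nat_lit 17) (.e true (nat_lit 1) (nat_lit 227) (nat_lit 2) (nat_lit 17) (.e false (nat_lit 3) (nat_lit 229) (nat_lit 2) (nat_lit 17) (.e true (nat_lit 2) (nat_lit 231) (nat_lit 2) (nat_lit 17) (.e true (nat_lit 1) (nat_lit 232) (nat_lit 2) (nat_lit 17) (.e true (nat_lit 1) (nat_lit 233) (nat_lit 2) (nat_lit 17) dC1b_i12)))))))))))))) (.nd .leaf (nat_lit 44053) (nat_lit 1091) (.n (nat_lit 355) (nat_lit 1) (.p (nat_lit 356) (nat_lit 2) (.n (nat_lit 357) (nat_lit 2) (.p (nat_lit 359) (nat_lit 2) (.p (nat_lit 361) (nat_lit 2) (.n (nat_lit 362) (nat_lit 1) (.p (nat_lit 364) (nat_lit 1) (.n (nat_lit 365) (nat_lit 1) (.p (nat_lit 366) (nat_lit 3) (.p (nat_lit 367) (nat_lit 2) (.n (nat_lit 368) (nat_lit 1) (.p (nat_lit 371) (nat_lit 1) (.n (nat_lit 372) (nat_lit 1) (.p (nat_lit 373) (nat_lit 1) (.n (nat_lit 374) (nat_lit 3) (.p (nat_lit 375) (nat_lit 2) (.n (nat_lit 378) (nat_lit 1) (.p (nat_lit 380) (nat_lit 1) (.n (nat_lit 382) (nat_lit 3) (.p (nat_lit 383) (nat_lit 2) (.n (nat_lit 384) (nat_lit 1) (.p (nat_lit 385) (nat_lit 2) (.p (nat_lit 386) (nat_lit 2) (.n (nat_lit 388) (nat_lit 2) (.p (nat_lit 389) (nat_lit 3) (.p (nat_lit 390) (nat_lit 2) (.n (nat_lit 391) (nat_lit 2) (.n (nat_lit 392) (nat_lit 2) (.p (nat_lit 393) (nat_lit 1) (.n (nat_lit 394) (nat_lit 3) (.n (nat_lit 395) (nat_lit 2) (.n (nat_lit 399) (nat_lit 1) (.n (nat_lit 404) (nat_lit 1) (.p (nat_lit 405) (nat_lit 1) (.n (nat_lit 406) (nat_lit 1) (.p (nat_lit 407) (nat_lit 1) (.p (nat_lit 408) (nat_lit 2) (.n (nat_lit 409) (nat_lit 2) (.p (nat_lit 410) (nat_lit 1) (.n (nat_lit 412) (nat_lit 1) (.p (nat_lit 413) (nat_lit 1) (.n (nat_lit 414) (nat_lit 1) .z)))))))))))))))))))))))))))))))))))))))))) (.ct dC1b_c548 (nat_lit 1) (nat_lit 3) (.s true (nat_lit 1) (nat_lit 16) (nat_lit 9) (nat_lit 2) (nat_lit 1) true (nat_lit 3) true (nat_lit 18) true (nat_lit 6) true (nat_lit 10) true (nat_lit 17) (.e false (nat_lit 1) (nat_lit 260) (nat_lit 1) (nat_lit 18) (.e false (nat_lit 1) (nat_lit 262) (nat_lit 1) (nat_lit 18) (.e true (nat_lit 3) (nat_lit 264) (nat_lit 1) (nat_lit 18) (.e false (nat_lit 3) (nat_lit 265) (nat_lit 1) (nat_lit 18) (.e false (nat_lit 3) (nat_lit 266) (nat_lit 1) (nat_lit 18) (.e false (nat_lit 1) (nat_lit 267) (nat_lit 1) (nat_lit 18) (.e false (nat_lit 1) (nat_lit 268) (nat_lit 1) (nat_lit 18) (.e true (nat_lit 3) (nat_lit 269) (nat_lit 1) (nat_lit 18) (.e false (nat_lit 2) (nat_lit 270) (nat_lit 1) (nat_lit 18) (.e false (nat_lit 1) (nat_lit 271) (nat_lit 1) (nat_lit 18) (.e true (nat_lit 1) (nat_lit 278) (nat_lit 1) (nat_lit 18) (.e true (nat_lit 1) (nat_lit 59) (nat_lit 16) (nat_lit 6) (.e false (nat_lit 1) (nat_lit 94) (nat_lit 9) (nat_lit 10) (.e false (nat_lit 1) (nat_lit 96) (nat_lit 9) (nat_lit 10) (.e true (nat_lit 1) (nat_lit 97) (nat_lit 9) (nat_lit 10) (.e true (nat_lit 1) (nat_lit 213) (nat_lit 2) (nat_lit 17) (.e false (nat_lit 1) (nat_lit 214) (nat_lit 2) (nat_lit 17) (.e true (nat_lit 3) (nat_lit 215) (nat_lit 2) (nat_lit 17) (.e false (nat_lit 2) (nat_lit 217) (nat_lit 2) (nat_lit 17) (.e false (nat_lit 2) (nat_lit 218) (nat_lit 2) (nat_lit 17) dC1b_i13)))))))))))))))))))))) .leaf)) (nat_lit 44054) (nat_lit 1202) (.n (nat_lit 355) (nat_lit 2) (.n (nat_lit 356) (nat_lit 3) (.p (nat_lit 357) (nat_lit 3) (.p (nat_lit 358) (nat_lit 1) (.n (nat_lit 359) (nat_lit 3) (.p (nat_lit 361) (nat_lit 2) (.p (nat_lit 362) (nat_lit 3) (.p (nat_lit 363) (nat_lit 3) (.n (nat_lit 364) (nat_lit 1) (.p (nat_lit 365) (nat_lit 1) (.n (nat_lit 367) (nat_lit 3) (.p (nat_lit 368) (nat_lit 2) (.p (nat_lit 369) (nat_lit 3) (.n (nat_lit 370) (nat_lit 3) (.p (nat_lit 372) (nat_lit 2) (.n (nat_lit 373) (nat_lit 2) (.n (nat_lit 374) (nat_lit 1) (.p (nat_lit 375) (nat_lit 1) (.n (nat_lit 376) (nat_lit 2) (.p (nat_lit 377) (nat_lit 1) (.p (nat_lit 378) (nat_lit 1) (.n (nat_lit 379) (nat_lit 1) (.n (nat_lit 381) (nat_lit 3) (.n (nat_lit 382) (nat_lit 1) (.n (nat_lit 383) (nat_lit 3) (.p (nat_lit 384) (nat_lit 3) (.p (nat_lit 385) (nat_lit 1) (.n (nat_lit 386) (nat_lit 3) (.p (nat_lit 387) (nat_lit 3) (.n (nat_lit 388) (nat_lit 1) (.p (nat_lit 389) (nat_lit 1) (.p (nat_lit 390) (nat_lit 2) (.p (nat_lit 391) (nat_lit 1) (.p (nat_lit 392) (nat_lit 2) (.p (nat_lit 393) (nat_lit 1) (.p (nat_lit 394) (nat_lit 3) (.p (nat_lit 395) (nat_lit 2) (.n (nat_lit 396) (nat_lit 1) (.p (nat_lit 397) (nat_lit 1) (.n (nat_lit 398) (nat_lit 1) (.p (nat_lit 399) (nat_lit 3) (.n (nat_lit 400) (nat_lit 3) (.p (nat_lit 401) (nat_lit 1) (.n (nat_lit 403) (nat_lit 1) (.p (nat_lit 404) (nat_lit 1) (.n (nat_lit 405) (nat_lit 2) (.p (nat_lit 406) (nat_lit 1) (.n (nat_lit 408) (nat_lit 2) (.p (nat_lit 409) (nat_lit 1) (.p (nat_lit 411) (nat_lit 1) (.p (nat_lit 412) (nat_lit 1) (.n (nat_lit 413) (nat_lit 1) (.n (nat_lit 414) (nat_lit 1) (.n (nat_lit 415) (nat_lit 1) (.n (nat_lit 416) (nat_lit 1) (.p (nat_lit 417) (nat_lit 2) (.p (nat_lit 418) (nat_lit 1) (.n (nat_lit 420) (nat_lit 2) (.p (nat_lit 421) (nat_lit 2) (.p (nat_lit 424) (nat_lit 1) .z)))))))))))))))))))))))))))))))))))))))))))))))))))))))))))) (.ct dC1b_c548 (nat_lit 1) (nat_lit 3) (.s true (nat_lit 1) (nat_lit 43) (nat_lit 0) (nat_lit 2) (nat_lit 3) true (nat_lit 12) true (nat_lit 16) false (nat_lit 3) true (nat_lit 19) true (nat_lit 17) (.e true (nat_lit 1) (nat_lit 102) (nat_lit 7) (nat_lit 12) (.e true (nat_lit 1) (nat_lit 187) (nat_lit 3) (nat_lit 16) (.e false (nat_lit 1) (nat_lit 43) (nat_lit 21) (nat_lit 3) (.e true (nat_lit 1) (nat_lit 43) (nat_lit 23) (nat_lit 3) (.e false (nat_lit 2) (nat_lit 290) (nat_lit 0) (nat_lit 19) (.e true (nat_lit 1) (nat_lit 292) (nat_lit 0) (nat_lit 19) (.e false (nat_lit 1) (nat_lit 293) (nat_lit 0) (nat_lit 19) (.e true (nat_lit 2) (nat_lit 294) (nat_lit 0) (nat_lit 19) dC1b_i14)))))))))) (.nd (.nd .leaf (nat_lit 44055) (nat_lit 1174) (.p (nat_lit 355) (nat_lit 1) (.n (nat_lit 356) (nat_lit 3) (.p (nat_lit 357) (nat_lit 2) (.p (nat_lit 358) (nat_lit 2) (.p (nat_lit 360) (nat_lit 3) (.p (nat_lit 361) (nat_lit 2) (.p (nat_lit 362) (nat_lit 1) (.p (nat_lit 363) (nat_lit 1) (.n (nat_lit 364) (nat_lit 1) (.n (nat_lit 365) (nat_lit 2) (.p (nat_lit 367) (nat_lit 1) (.n (nat_lit 368) (nat_lit 3) (.n (nat_lit 369) (nat_lit 1) (.n (nat_lit 370) (nat_lit 2) (.p (nat_lit 371) (nat_lit 1) (.p (nat_lit 372) (nat_lit 2) (.p (nat_lit 373) (nat_lit 1) (.p (nat_lit 374) (nat_lit 2) (.p (nat_lit 376) (nat_lit 2) (.n (nat_lit 377) (nat_lit 2) (.n (nat_lit 378) (nat_lit 1) (.p (nat_lit 379) (nat_lit 1) (.n (nat_lit 381) (nat_lit 1) (.n (nat_lit 382) (nat_lit 2) (.n (nat_lit 383) (nat_lit 3) (.p (nat_lit 385) (nat_lit 3) (.n (nat_lit 386) (nat_lit 3) (.n (nat_lit 387) (nat_lit 2) (.n (nat_lit 389) (nat_lit 1) (.n (nat_lit 390) (nat_lit 1) (.p (nat_lit 391) (nat_lit 3) (.n (nat_lit 393) (nat_lit 2) (.p (nat_lit 394) (nat_lit 2) (.n (nat_lit 395) (nat_lit 2) (.n (nat_lit 396) (nat_lit 3) (.n (nat_lit 397) (nat_lit 2) (.p (nat_lit 398) (nat_lit 2) (.n (nat_lit 404) (nat_lit 1) (.p (nat_lit 405) (nat_lit 2) (.n (nat_lit 406) (nat_lit 2) (.n (nat_lit 408) (nat_lit 3) (.n (nat_lit 409) (nat_lit 3) (.p (nat_lit 410) (nat_lit 1) (.n (nat_lit 412) (nat_lit 2) (.p (nat_lit 413) (nat_lit 2) (.p (nat_lit 415) (nat_lit 1) (.p (nat_lit 416) (nat_lit 1) (.n (nat_lit 417) (nat_lit 2) (.n (nat_lit 418) (nat_lit 1) (.p (nat_lit 420) (nat_lit 2) (.n (nat_lit 421) (nat_lit 2) (.n (nat_lit 424) (nat_lit 1) .z)))))))))))))))))))))))))))))))))))))))))))))))))))) (.ct dC1b_c548 (nat_lit 1) (nat_lit 3) (.s true (nat_lit 1) (nat_lit 43) (nat_lit 0) (nat_lit 5) (nat_lit 0) false (nat_lit 20) true (nat_lit 19) false (nat_lit 3) true (nat_lit 19) true (nat_lit 14) (.e true (nat_lit 3) (nat_lit 290) (nat_lit 0) (nat_lit 19) (.e true (nat_lit 1) (nat_lit 291) (nat_lit 0) (nat_lit 19) (.e true (nat_lit 2) (nat_lit 292) (nat_lit 0) (nat_lit 19) (.e false (nat_lit 3) (nat_lit 293) (nat_lit 0) (nat_lit 19) (.e true (nat_lit 3) (nat_lit 294) (nat_lit 0) (nat_lit 19) (.e false (nat_lit 1) (nat_lit 297) (nat_lit 0) (nat_lit 19) (.e false (nat_lit 1) (nat_lit 299) (nat_lit 0) (nat_lit 19) (.e false (nat_lit 3) (nat_lit 300) (nat_lit 0) (nat_lit 19) (.e true (nat_lit 1) (nat_lit 303) (nat_lit 0) (nat_lit 19) (.e false (nat_lit 3) (nat_lit 305) (nat_lit 0) (nat_lit 19) (.e false (nat_lit 1) (nat_lit 306) (nat_lit 0) (nat_lit 19) (.e true (nat_lit 1) (nat_lit 308) (nat_lit 0) (nat_lit 19) (.e true (nat_lit 3) (nat_lit 309) (nat_lit 0) (nat_lit 19) (.e false (nat_lit 3) (nat_lit 310) (nat_lit 0) (nat_lit 19) (.e false (nat_lit 1) (nat_lit 311) (nat_lit 0) (nat_lit 19) (.e true (nat_lit 2) (nat_lit 312) (nat_lit 0) (nat_lit 19) (.e true (nat_lit 1) (nat_lit 313) (nat_lit 0) (nat_lit 19) (.e false (nat_lit 1) (nat_lit 314) (nat_lit 0) (nat_lit 19) (.e false (nat_lit 1) (nat_lit 316) (nat_lit 0) (nat_lit 19) dC1b_i15))))))))))))))))))))) .leaf) (nat_lit 44060) (nat_lit 1343) (.p (nat_lit 426) (nat_lit 1) (.n (nat_lit 428) (nat_lit 1) (.n (nat_lit 430) (nat_lit 2) (.p (nat_lit 431) (nat_lit 3) (.p (nat_lit 432) (nat_lit 1) (.p (nat_lit 433) (nat_lit 1) (.p (nat_lit 434) (nat_lit 3) (.n (nat_lit 435) (nat_lit 3) (.p (nat_lit 438) (nat_lit 1) (.p (nat_lit 439) (nat_lit 2) (.p (nat_lit 441) (nat_lit 1) (.p (nat_lit 442) (nat_lit 2) (.n (nat_lit 445) (nat_lit 2) (.p (nat_lit 449) (nat_lit 1) (.n (nat_lit 452) (nat_lit 1) (.n (nat_lit 456) (nat_lit 2) (.n (nat_lit 457) (nat_lit 1) (.p (nat_lit 459) (nat_lit 1) .z)))))))))))))))))) (.ct dC1b_c533 (nat_lit 1) (nat_lit 1) dC1b_i16) .leaf)) (nat_lit 44062) (nat_lit 1383) (.p (nat_lit 426) (nat_lit 1) (.p (nat_lit 427) (nat_lit 3) (.p (nat_lit 428) (nat_lit 3) (.n (nat_lit 429) (nat_lit 3) (.n (nat_lit 430) (nat_lit 3) (.n (nat_lit 431) (nat_lit 3) (.n (nat_lit 432) (nat_lit 2) (.n (nat_lit 433) (nat_lit 2) (.n (nat_lit 434) (nat_lit 1) (.p (nat_lit 435) (nat_lit 1) (.n (nat_lit 436) (nat_lit 3) (.n (nat_lit 437) (nat_lit 2) (.n (nat_lit 439) (nat_lit 1) (.p (nat_lit 440) (nat_lit 2) (.n (nat_lit 441) (nat_lit 3) (.n (nat_lit 443) (nat_lit 2) (.n (nat_lit 444) (nat_lit 1) (.p (nat_lit 445) (nat_lit 1) (.n (nat_lit 447) (nat_lit 2) (.n (nat_lit 448) (nat_lit 3) (.p (nat_lit 450) (nat_lit 2) (.n (nat_lit 453) (nat_lit 2) (.p (nat_lit 454) (nat_lit 3) (.n (nat_lit 455) (nat_lit 3) (.n (nat_lit 456) (nat_lit 3) (.p (nat_lit 459) (nat_lit 1) .z)))))))))))))))))))))))))) (.ct dC1b_c533 (nat_lit 1) (nat_lit 1) (.s false (nat_lit 1) (nat_lit 43) (nat_lit 6) (nat_lit 0) (nat_lit 0) true (nat_lit 5) true (nat_lit 15) false (nat_lit 1) true (nat_lit 9) true (nat_lit 15) (.e true (nat_lit 1) (nat_lit 89) (nat_lit 15) (nat_lit 5) (.e true (nat_lit 1) (nat_lit 328) (nat_lit 0) (nat_lit 15) (.e false (nat_lit 1) (nat_lit 329) (nat_lit 0) (nat_lit 15) (.e false (nat_lit 1) (nat_lit 330) (nat_lit 0) (nat_lit 15) (.e true (nat_lit 1) (nat_lit 331) (nat_lit 0) (nat_lit 15) (.e false (nat_lit 1) (nat_lit 332) (nat_lit 0) (nat_lit 15) (.e true (nat_lit 3) (nat_lit 333) (nat_lit 0) (nat_lit 15) (.e false (nat_lit 2) (nat_lit 334) (nat_lit 0) (nat_lit 15) (.e true (nat_lit 3) (nat_lit 335) (nat_lit 0) (nat_lit 15) (.e true (nat_lit 3) (nat_lit 337) (nat_lit 0) (nat_lit 15) (.e true (nat_lit 2) (nat_lit 338) (nat_lit 0) (nat_lit 15) (.e true (nat_lit 2) (nat_lit 339) (nat_lit 0) (nat_lit 15) (.e true (nat_lit 2) (nat_lit 340) (nat_lit 0) (nat_lit 15) (.e false (nat_lit 1) (nat_lit 343) (nat_lit 0) (nat_lit 15) (.e false (nat_lit 1) (nat_lit 344) (nat_lit 0) (nat_lit 15) (.e true (nat_lit 2) (nat_lit 341) (nat_lit 0) (nat_lit 15) (.e true (nat_lit 1) (nat_lit 346) (nat_lit 0) (nat_lit 15) (.u (nat_lit 2) (.n (nat_lit 1) (nat_lit 1) (.p (nat_lit 6) (nat_lit 1) (.p (nat_lit 7) (nat_lit 1) (.n (nat_lit 12) (nat_lit 1) (.n (nat_lit 211) (nat_lit 1) (.p (nat_lit 212) (nat_lit 1) (.n (nat_lit 213) (nat_lit 1) (.p (nat_lit 214) (nat_lit 1) (.p (nat_lit 215) (nat_lit 1) (.p (nat_lit 216) (nat_lit 1) (.p (nat_lit 220) (nat_lit 2) (.p (nat_lit 221) (nat_lit 2) .z)))))))))))) .nil)))))))))))))))))))) (.nd (.nd (.nd .leaf (nat_lit 44063) (nat_lit 1468) (.n (nat_lit 460) (nat_lit 2) (.p (nat_lit 462) (nat_lit 3) (.n (nat_lit 463) (nat_lit 3) (.p (nat_lit 464) (nat_lit 2) (.n (nat_lit 465) (nat_lit 2) (.p (nat_lit 466) (nat_lit 3) (.p (nat_lit 467) (nat_lit 2) (.p (nat_lit 468) (nat_lit 3) (.p (nat_lit 469) (nat_lit 1) (.p (nat_lit 470) (nat_lit 3) (.n (nat_lit 471) (nat_lit 2) (.p (nat_lit 473) (nat_lit 1) (.p (nat_lit 474) (nat_lit 3) (.n (nat_lit 475) (nat_lit 1) (.n (nat_lit 476) (nat_lit 1) (.p (nat_lit 477) (nat_lit 2) (.n (nat_lit 478) (nat_lit 1) (.p (nat_lit 479) (nat_lit 3) (.p (nat_lit 480) (nat_lit 1) (.n (nat_lit 481) (nat_lit 1) (.n (nat_lit 483) (nat_lit 1) (.p (nat_lit 486) (nat_lit 1) (.p (nat_lit 489) (nat_lit 1) (.n (nat_lit 493) (nat_lit 2) .z)))))))))))))))))))))))) (.ct dC1b_c293 (nat_lit 1) (nat_lit 1) (.s true (nat_lit 1) (nat_lit 31) (nat_lit 5) (nat_lit 2) (nat_lit 2) true (nat_lit 4) true (nat_lit 13) true (nat_lit 1) true (nat_lit 10) true (nat_lit 13) (.e true (nat_lit 1) (nat_lit 82) (nat_lit 16) (nat_lit 4) (.e false (nat_lit 1) (nat_lit 291) (nat_lit 2) (nat_lit 13) (.e false (nat_lit 2) (nat_lit 294) (nat_lit 2) (nat_lit 13) (.e true (nat_lit 1) (nat_lit 299) (nat_lit 2) (nat_lit 13) (.e false (nat_lit 1) (nat_lit 301) (nat_lit 2) (nat_lit 13) (.e true (nat_lit 1) (nat_lit 304) (nat_lit 2) (nat_lit 13) (.e true (nat_lit 1) (nat_lit 308) (nat_lit 2) (nat_lit 13) (.e false (nat_lit 1) (nat_lit 192) (nat_lit 5) (nat_lit 10) (.e false (nat_lit 1) (nat_lit 319) (nat_lit 2) (nat_lit 13) (.u (nat_lit 2) (.p (nat_lit 0) (nat_lit 2) (.p (nat_lit 3) (nat_lit 1) (.n (nat_lit 6) (nat_lit 1) (.n (nat_lit 7) (nat_lit 1) (.n (nat_lit 10) (nat_lit 1) (.n (nat_lit 13) (nat_lit 1) (.n (nat_lit 14) (nat_lit 1) (.n (nat_lit 19) (nat_lit 1) (.p (nat_lit 23) (nat_lit 1) (.n (nat_lit 26) (nat_lit 1) (.n (nat_lit 29) (nat_lit 1) .z))))))))))) .nil)))))))))))) .leaf) (nat_lit 44065) (nat_lit 1537) (.p (nat_lit 460) (nat_lit 3) (.n (nat_lit 462) (nat_lit 2) (.p (nat_lit 463) (nat_lit 1) (.n (nat_lit 464) (nat_lit 1) (.p (nat_lit 465) (nat_lit 1) (.n (nat_lit 466) (nat_lit 3) (.n (nat_lit 468) (nat_lit 2) (.n (nat_lit 469) (nat_lit 3) (.n (nat_lit 470) (nat_lit 2) (.n (nat_lit 471) (nat_lit 1) (.n (nat_lit 473) (nat_lit 3) (.p (nat_lit 474) (nat_lit 2) (.p (nat_lit 475) (nat_lit 3) (.n (nat_lit 476) (nat_lit 1) (.p (nat_lit 477) (nat_lit 3) (.p (nat_lit 478) (nat_lit 1) (.p (nat_lit 479) (nat_lit 3) (.n (nat_lit 480) (nat_lit 1) (.p (nat_lit 481) (nat_lit 1) (.p (nat_lit 483) (nat_lit 1) (.p (nat_lit 484) (nat_lit 1) (.n (nat_lit 486) (nat_lit 1) (.n (nat_lit 487) (nat_lit 1) (.p (nat_lit 489) (nat_lit 1) (.n (nat_lit 490) (nat_lit 1) (.p (nat_lit 493) (nat_lit 1) .z)))))))))))))))))))))))))) (.ct dC1b_c293 (nat_lit 1) (nat_lit 1) (.s true (nat_lit 1) (nat_lit 33) (nat_lit 5) (nat_lit 2) (nat_lit 2) true (nat_lit 4) true (nat_lit 13) true (nat_lit 1) true (nat_lit 10) true (nat_lit 13) dC1b_i17)) .leaf) (nat_lit 45056) (nat_lit 135) (.n (nat_lit 84) (nat_lit 1) (.n (nat_lit 85) (nat_lit 1) (.p (nat_lit 86) (nat_lit 1) (.n (nat_lit 88) (nat_lit 1) (.p (nat_lit 89) (nat_lit 1) (.n (nat_lit 90) (nat_lit 1) (.p (nat_lit 91) (nat_lit 1) .z))))))) (.ct dC1b_c275 (nat_lit 1) (nat_lit 6) (.s true (nat_lit 1) (nat_lit 4) (nat_lit 1) (nat_lit 2) (nat_lit 2) true (nat_lit 1) true (nat_lit 4) true (nat_lit 2) true (nat_lit 5) true (nat_lit 4) (.s true (nat_lit 1) (nat_lit 6) (nat_lit 1) (nat_lit 2) (nat_lit 0) true (nat_lit 3) true (nat_lit 6) true (nat_lit 0) true (nat_lit 5) true (nat_lit 4) (.e true (nat_lit 1) (nat_lit 14) (nat_lit 5) (nat_lit 1) (.e true (nat_lit 1) (nat_lit 32) (nat_lit 2) (nat_lit 4) (.e false (nat_lit 1) (nat_lit 16) (nat_lit 4) (nat_lit 2) (.e true (nat_lit 1) (nat_lit 34) (nat_lit 2) (nat_lit 4) (.e false (nat_lit 1) (nat_lit 18) (nat_lit 3) (nat_lit 3) (.e false (nat_lit 1) (nat_lit 12) (nat_lit 6) (nat_lit 0) (.e false (nat_lit 1) (nat_lit 35) (nat_lit 2) (nat_lit 4) .nil)))))))))) (.nd (.nd .leaf (nat_lit 45057) (nat_lit 143) (.p (nat_lit 97) (nat_lit 1) .z) .df .leaf) (nat_lit 45058) (nat_lit 156) (.p (nat_lit 103) (nat_lit 1) .z) .df .leaf))) (nat_lit 45059) (nat_lit 291) (.p (nat_lit 173) (nat_lit 1) .z) .df (.nd (.nd (.nd (.nd .leaf (nat_lit 45060) (nat_lit 367) (.p (nat_lit 180) (nat_lit 2) (.p (nat_lit 181) (nat_lit 3) (.p (nat_lit 183) (nat_lit 1) (.n (nat_lit 184) (nat_lit 2) (.n (nat_lit 186) (nat_lit 1) (.n (nat_lit 187) (nat_lit 2) (.p (nat_lit 188) (nat_lit 1) (.p (nat_lit 189) (nat_lit 1) (.p (nat_lit 190) (nat_lit 3) (.n (nat_lit 191) (nat_lit 1) (.n (nat_lit 193) (nat_lit 2) (.n (nat_lit 195) (nat_lit 1) .z)))))))))))) (.ct dC1b_c276 (nat_lit 1) (nat_lit 4) (.s false (nat_lit 1) (nat_lit 5) (nat_lit 4) (nat_lit 2) (nat_lit 2) true (nat_lit 0) true (nat_lit 6) true (nat_lit 3) true (nat_lit 4) true (nat_lit 6) (.e false (nat_lit 1) (nat_lit 16) (nat_lit 14) (nat_lit 0) (.e true (nat_lit 1) (nat_lit 40) (nat_lit 5) (nat_lit 3) (.e true (nat_lit 1) (nat_lit 45) (nat_lit 4) (nat_lit 4) (.e false (nat_lit 1) (nat_lit 85) (nat_lit 2) (nat_lit 6) (.e false (nat_lit 1) (nat_lit 88) (nat_lit 2) (nat_lit 6) (.e true (nat_lit 1) (nat_lit 91) (nat_lit 2) (nat_lit 6) (.u (nat_lit 2) (.n (nat_lit 0) (nat_lit 1) (.n (nat_lit 1) (nat_lit 1) (.p (nat_lit 4) (nat_lit 1) (.n (nat_lit 9) (nat_lit 1) (.n (nat_lit 10) (nat_lit 1) .z))))) .nil))))))))) .leaf) (nat_lit 45061) (nat_lit 392) (.p (nat_lit 196) (nat_lit 3) (.p (nat_lit 197) (nat_lit 1) (.n (nat_lit 199) (nat_lit 1) (.p (nat_lit 200) (nat_lit 1) (.n (nat_lit 201) (nat_lit 2) .z))))) (.ct dC1b_c36 (nat_lit 1) (nat_lit 3) (.s true (nat_lit 1) (nat_lit 17) (nat_lit 2) (nat_lit 2) (nat_lit 1) true (nat_lit 3) true (nat_lit 5) true (nat_lit 0) true (nat_lit 4) true (nat_lit 4) (.a false (nat_lit 3) (nat_lit 17) (nat_lit 17) (nat_lit 0) (nat_lit 0) (.e true (nat_lit 1) (nat_lit 103) (nat_lit 1) (nat_lit 5) (.e true (nat_lit 2) (nat_lit 93) (nat_lit 2) (nat_lit 4) (.e true (nat_lit 2) (nat_lit 94) (nat_lit 2) (nat_lit 4) (.e false (nat_lit 2) (nat_lit 95) (nat_lit 2) (nat_lit 4) (.e false (nat_lit 1) (nat_lit 97) (nat_lit 2) (nat_lit 4) (.u (nat_lit 2) (.n (nat_lit 0) (nat_lit 1) (.p (nat_lit 2) (nat_lit 1) (.p (nat_lit 5) (nat_lit 1) (.n (nat_lit 9) (nat_lit 1) .z)))) .nil))))))))) .leaf) (nat_lit 45062) (nat_lit 413) (.p (nat_lit 208) (nat_lit 2) (.p (nat_lit 209) (nat_lit 2) (.n (nat_lit 211) (nat_lit 1) .z))) (.ct dC1b_c21 (nat_lit 1) (nat_lit 1) (.s false (nat_lit 1) (nat_lit 6) (nat_lit 1) (nat_lit 6) (nat_lit 2) true (nat_lit 2) true (nat_lit 3) true (nat_lit 1) true (nat_lit 4) true (nat_lit 1) (.e false (nat_lit 2) (nat_lit 103) (nat_lit 2) (nat_lit 3) (.e false (nat_lit 2) (nat_lit 104) (nat_lit 2) (nat_lit 3) (.e true (nat_lit 1) (nat_lit 45) (nat_lit 6) (nat_lit 1) .nil))))) (.nd (.nd .leaf (nat_lit 45063) (nat_lit 493) (.p (nat_lit 212) (nat_lit 3) (.n (nat_lit 213) (nat_lit 3) (.p (nat_lit 214) (nat_lit 2) (.p (nat_lit 215) (nat_lit 3) (.n (nat_lit 216) (nat_lit 3) (.p (nat_lit 217) (nat_lit 3) (.n (nat_lit 218) (nat_lit 1) (.n (nat_lit 219) (nat_lit 1) (.n (nat_lit 220) (nat_lit 2) (.n (nat_lit 221) (nat_lit 2) (.p (nat_lit 222) (nat_lit 2) (.p (nat_lit 223) (nat_lit 3) (.n (nat_lit 224) (nat_lit 3) (.p (nat_lit 225) (nat_lit 2) (.p (nat_lit 226) (nat_lit 2) (.n (nat_lit 227) (nat_lit 3) (.n (nat_lit 228) (nat_lit 2) (.p (nat_lit 229) (nat_lit 1) (.n (nat_lit 230) (nat_lit 3) (.p (nat_lit 231) (nat_lit 2) (.n (nat_lit 232) (nat_lit 2) (.p (nat_lit 233) (nat_lit 1) (.n (nat_lit 234) (nat_lit 3) (.p (nat_lit 235) (nat_lit 3) (.n (nat_lit 236) (nat_lit 2) (.n (nat_lit 238) (nat_lit 2) (.p (nat_lit 239) (nat_lit 2) (.p (nat_lit 240) (nat_lit 1) (.p (nat_lit 241) (nat_lit 1) (.n (nat_lit 242) (nat_lit 3) (.n (nat_lit 243) (nat_lit 1) (.p (nat_lit 244) (nat_lit 2) (.n (nat_lit 245) (nat_lit 2) (.p (nat_lit 246) (nat_lit 3) (.n (nat_lit 247) (nat_lit 3) (.p (nat_lit 248) (nat_lit 1) .z)))))))))))))))))))))))))))))))))))) (.ct dC1b_c547 (nat_lit 1) (nat_lit 7) (.s true (nat_lit 1) (nat_lit 44) (nat_lit 0) (nat_lit 1) (nat_lit 0) false (nat_lit 15) true (nat_lit 14) false (nat_lit 7) true (nat_lit 14) true (nat_lit 13) (.e false (nat_lit 2) (nat_lit 155) (nat_lit 0) (nat_lit 14) (.e false (nat_lit 3) (nat_lit 156) (nat_lit 0) (nat_lit 14) (.e false (nat_lit 2) (nat_lit 157) (nat_lit 0) (nat_lit 14) (.e false (nat_lit 2) (nat_lit 159) (nat_lit 0) (nat_lit 14) (.e false (nat_lit 3) (nat_lit 160) (nat_lit 0) (nat_lit 14) (.e false (nat_lit 3) (nat_lit 161) (nat_lit 0) (nat_lit 14) (.e false (nat_lit 1) (nat_lit 162) (nat_lit 0) (nat_lit 14) (.e true (nat_lit 3) (nat_lit 164) (nat_lit 0) (nat_lit 14) (.e true (nat_lit 3) (nat_lit 165) (nat_lit 0) (nat_lit 14) (.e false (nat_lit 1) (nat_lit 167) (nat_lit 0) (nat_lit 14) (.e true (nat_lit 1) (nat_lit 170) (nat_lit 0) (nat_lit 14) (.e true (nat_lit 1) (nat_lit 173) (nat_lit 0) (nat_lit 14) (.e false (nat_lit 2) (nat_lit 166) (nat_lit 0) (nat_lit 14) (.e false (nat_lit 3) (nat_lit 158) (nat_lit 0) (nat_lit 14) dC1b_i18)))))))))))))))) .leaf) (nat_lit 45065) (nat_lit 642) (.n (nat_lit 261) (nat_lit 1) (.p (nat_lit 262) (nat_lit 1) (.p (nat_lit 263) (nat_lit 2) (.p (nat_lit 264) (nat_lit 3) (.n (nat_lit 265) (nat_lit 2) (.p (nat_lit 266) (nat_lit 2) (.n (nat_lit 267) (nat_lit 2) (.n (nat_lit 269) (nat_lit 1) (.p (nat_lit 270) (nat_lit 2) (.p (nat_lit 271) (nat_lit 1) (.n (nat_lit 272) (nat_lit 3) (.p (nat_lit 273) (nat_lit 2) (.n (nat_lit 274) (nat_lit 2) (.p (nat_lit 277) (nat_lit 1) (.n (nat_lit 278) (nat_lit 2) (.p (nat_lit 280) (nat_lit 1) (.n (nat_lit 281) (nat_lit 1) (.n (nat_lit 286) (nat_lit 3) (.n (nat_lit 287) (nat_lit 3) (.n (nat_lit 288) (nat_lit 2) (.n (nat_lit 289) (nat_lit 1) .z))))))))))))))))))))) (.ct dC1b_c532 (nat_lit 1) (nat_lit 4) (.s true (nat_lit 1) (nat_lit 9) (nat_lit 2) (nat_lit 2) (nat_lit 5) true (nat_lit 1) true (nat_lit 7) true (nat_lit 4) true (nat_lit 10) true (nat_lit 10) (.e true (nat_lit 1) (nat_lit 28) (nat_lit 16) (nat_lit 1) (.e true (nat_lit 1) (nat_lit 77) (nat_lit 5) (nat_lit 7) (.e true (nat_lit 1) (nat_lit 45) (nat_lit 9) (nat_lit 4) (.e false (nat_lit 1) (nat_lit 136) (nat_lit 2) (nat_lit 10) (.e false (nat_lit 1) (nat_lit 143) (nat_lit 2) (nat_lit 10) (.e true (nat_lit 1) (nat_lit 150) (nat_lit 2) (nat_lit 10) (.u (nat_lit 2) (.n (nat_lit 4) (nat_lit 1) (.p (nat_lit 7) (nat_lit 1) (.p (nat_lit 27) (nat_lit 1) (.n (nat_lit 100) (nat_lit 1) .z)))) .nil))))))))) .leaf)) (nat_lit 45066) (nat_lit 724) (.n (nat_lit 290) (nat_lit 2) (.n (nat_lit 291) (nat_lit 3) (.p (nat_lit 292) (nat_lit 1) (.n (nat_lit 293) (nat_lit 1) (.p (nat_lit 294) (nat_lit 3) (.n (nat_lit 299) (nat_lit 3) (.n (nat_lit 301) (nat_lit 3) (.p (nat_lit 304) (nat_lit 3) (.p (nat_lit 307) (nat_lit 2) (.p (nat_lit 308) (nat_lit 3) (.n (nat_lit 310) (nat_lit 1) (.n (nat_lit 311) (nat_lit 1) (.n (nat_lit 317) (nat_lit 2) (.n (nat_lit 319) (nat_lit 1) .z)))))))))))))) (.ct dC1b_c292 (nat_lit 1) (nat_lit 4) (.s false (nat_lit 1) (nat_lit 10) (nat_lit 6) (nat_lit 1) (nat_lit 2) true (nat_lit 0) true (nat_lit 10) true (nat_lit 4) true (nat_lit 6) true (nat_lit 11) (.e true (nat_lit 1) (nat_lit 25) (nat_lit 18) (nat_lit 0) (.e false (nat_lit 1) (nat_lit 167) (nat_lit 2) (nat_lit 10) (.e false (nat_lit 1) (nat_lit 75) (nat_lit 6) (nat_lit 6) (.e true (nat_lit 1) (nat_lit 192) (nat_lit 1) (nat_lit 11) (.u (nat_lit 2) (.p (nat_lit 1) (nat_lit 1) (.n (nat_lit 4) (nat_lit 1) (.p (nat_lit 9) (nat_lit 1) (.p (nat_lit 11) (nat_lit 1) (.n (nat_lit 18) (nat_lit 1) .z))))) .nil))))))) (.nd (.nd (.nd .leaf (nat_lit 45067) (nat_lit 753) (.p (nat_lit 290) (nat_lit 2) (.n (nat_lit 291) (nat_lit 1) (.p (nat_lit 292) (nat_lit 2) (.p (nat_lit 293) (nat_lit 1) (.n (nat_lit 294) (nat_lit 1) (.n (nat_lit 295) (nat_lit 2) (.n (nat_lit 296) (nat_lit 3) (.p (nat_lit 297) (nat_lit 3) (.n (nat_lit 298) (nat_lit 1) (.n (nat_lit 299) (nat_lit 2) (.p (nat_lit 300) (nat_lit 3) (.n (nat_lit 301) (nat_lit 3) (.p (nat_lit 302) (nat_lit 2) (.n (nat_lit 307) (nat_lit 2) (.p (nat_lit 308) (nat_lit 2) (.n (nat_lit 309) (nat_lit 2) (.p (nat_lit 310) (nat_lit 2) (.n (nat_lit 311) (nat_lit 1) (.n (nat_lit 312) (nat_lit 2) (.p (nat_lit 316) (nat_lit 2) (.p (nat_lit 317) (nat_lit 3) (.n (nat_lit 318) (nat_lit 2) (.p (nat_lit 319) (nat_lit 1) .z))))))))))))))))))))))) (.ct dC1b_c292 (nat_lit 1) (nat_lit 4) (.s true (nat_lit 1) (nat_lit 11) (nat_lit 1) (nat_lit 2) (nat_lit 6) true (nat_lit 1) true (nat_lit 6) true (nat_lit 4) true (nat_lit 11) true (nat_lit 10) (.s false (nat_lit 1) (nat_lit 11) (nat_lit 2) (nat_lit 6) (nat_lit 1) true (nat_lit 7) true (nat_lit 11) true (nat_lit 4) true (nat_lit 10) true (nat_lit 6) (.e true (nat_lit 1) (nat_lit 32) (nat_lit 17) (nat_lit 1) (.e true (nat_lit 2) (nat_lit 68) (nat_lit 6) (nat_lit 6) (.e false (nat_lit 1) (nat_lit 189) (nat_lit 1) (nat_lit 11) (.e true (nat_lit 1) (nat_lit 91) (nat_lit 5) (nat_lit 7) (.e false (nat_lit 2) (nat_lit 155) (nat_lit 2) (nat_lit 10) (.e false (nat_lit 2) (nat_lit 158) (nat_lit 2) (nat_lit 10) (.e true (nat_lit 2) (nat_lit 163) (nat_lit 2) (nat_lit 10) (.e true (nat_lit 1) (nat_lit 172) (nat_lit 2) (nat_lit 10) (.u (nat_lit 2) (.n (nat_lit 10) (nat_lit 1) .z) .nil)))))))))))) .leaf) (nat_lit 45068) (nat_lit 774) (.p (nat_lit 290) (nat_lit 3) (.p (nat_lit 291) (nat_lit 2) (.p (nat_lit 292) (nat_lit 2) (.p (nat_lit 293) (nat_lit 1) (.n (nat_lit 294) (nat_lit 1) (.n (nat_lit 295) (nat_lit 2) (.p (nat_lit 296) (nat_lit 3) (.n (nat_lit 297) (nat_lit 3) (.n (nat_lit 298) (nat_lit 1) (.n (nat_lit 299) (nat_lit 2) (.n (nat_lit 300) (nat_lit 2) (.p (nat_lit 301) (nat_lit 2) (.p (nat_lit 302) (nat_lit 2) (.p (nat_lit 304) (nat_lit 3) (.p (nat_lit 307) (nat_lit 1) (.n (nat_lit 308) (nat_lit 2) (.n (nat_lit 309) (nat_lit 2) (.p (nat_lit 310) (nat_lit 3) (.n (nat_lit 312) (nat_lit 2) (.n (nat_lit 316) (nat_lit 3) (.n (nat_lit 317) (nat_lit 2) (.n (nat_lit 318) (nat_lit 2) (.p (nat_lit 319) (nat_lit 2) .z))))))))))))))))))))))) (.ct dC1b_c292 (nat_lit 1) (nat_lit 4) (.s true (nat_lit 1) (nat_lit 12) (nat_lit 1) (nat_lit 6) (nat_lit 2) true (nat_lit 7) true (nat_lit 10) true (nat_lit 4) true (nat_lit 11) true (nat_lit 6) (.e true (nat_lit 1) (nat_lit 92) (nat_lit 5) (nat_lit 7) (.e true (nat_lit 2) (nat_lit 153) (nat_lit 2) (nat_lit 10) (.e true (nat_lit 2) (nat_lit 154) (nat_lit 2) (nat_lit 10) (.e false (nat_lit 1) (nat_lit 155) (nat_lit 2) (nat_lit 10) (.e true (nat_lit 1) (nat_lit 156) (nat_lit 2) (nat_lit 10) (.e true (nat_lit 1) (nat_lit 157) (nat_lit 2) (nat_lit 10) (.e true (nat_lit 1) (nat_lit 162) (nat_lit 2) (nat_lit 10) (.e false (nat_lit 1) (nat_lit 167) (nat_lit 2) (nat_lit 10) (.e false (nat_lit 2) (nat_lit 170) (nat_lit 2) (nat_lit 10) (.e true (nat_lit 1) (nat_lit 172) (nat_lit 2) (nat_lit 10) (.e true (nat_lit 1) (nat_lit 173) (nat_lit 2) (nat_lit 10) (.e true (nat_lit 1) (nat_lit 190) (nat_lit 1) (nat_lit 11) (.e false (nat_lit 1) (nat_lit 194) (nat_lit 1) (nat_lit 11) (.e true (nat_lit 1) (nat_lit 67) (nat_lit 6) (nat_lit 6) (.e false (nat_lit 1) (nat_lit 71) (nat_lit 6) (nat_lit 6) (.e true (nat_lit 1) (nat_lit 75) (nat_lit 6) (nat_lit 6) (.u (nat_lit 2) (.n (nat_lit 1) (nat_lit 1) (.p (nat_lit 3) (nat_lit 1) (.p (nat_lit 4) (nat_lit 1) (.p (nat_lit 5) (nat_lit 1) (.n (nat_lit 6) (nat_lit 1) (.p (nat_lit 7) (nat_lit 1) (.n (nat_lit 11) (nat_lit 1) (.n (nat_lit 12) (nat_lit 1) (.n (nat_lit 14) (nat_lit 2) (.n (nat_lit 17) (nat_lit 1) (.p (nat_lit 27) (nat_lit 1) .z))))))))))) .nil))))))))))))))))))) .leaf) (nat_lit 45070) (nat_lit 885) (.n (nat_lit 329) (nat_lit 1) (.p (nat_lit 333) (nat_lit 1) (.n (nat_lit 334) (nat_lit 1) (.p (nat_lit 335) (nat_lit 1) (.n (nat_lit 336) (nat_lit 3) (.n (nat_lit 337) (nat_lit 1) (.p (nat_lit 338) (nat_lit 3) (.n (nat_lit 339) (nat_lit 2) (.n (nat_lit 340) (nat_lit 1) (.p (nat_lit 343) (nat_lit 1) (.p (nat_lit 344) (nat_lit 1) (.n (nat_lit 345) (nat_lit 1) .z)))))))))))) (.ct dC1b_c277 (nat_lit 1) (nat_lit 2) (.s true (nat_lit 1) (nat_lit 14) (nat_lit 2) (nat_lit 1) (nat_lit 6) true (nat_lit 0) true (nat_lit 4) true (nat_lit 2) true (nat_lit 8) true (nat_lit 9) (.e true (nat_lit 1) (nat_lit 34) (nat_lit 18) (nat_lit 0) (.e true (nat_lit 1) (nat_lit 88) (nat_lit 6) (nat_lit 4) (.e true (nat_lit 1) (nat_lit 45) (nat_lit 14) (nat_lit 2) (.e false (nat_lit 1) (nat_lit 180) (nat_lit 2) (nat_lit 8) (.e false (nat_lit 1) (nat_lit 181) (nat_lit 2) (nat_lit 8) (.e false (nat_lit 1) (nat_lit 183) (nat_lit 2) (nat_lit 8) (.e true (nat_lit 1) (nat_lit 184) (nat_lit 2) (nat_lit 8) (.e false (nat_lit 2) (nat_lit 185) (nat_lit 2) (nat_lit 8) (.e false (nat_lit 1) (nat_lit 187) (nat_lit 2) (nat_lit 8) (.e true (nat_lit 1) (nat_lit 190) (nat_lit 2) (nat_lit 8) (.e true (nat_lit 1) (nat_lit 191) (nat_lit 2) (nat_lit 8) (.e true (nat_lit 1) (nat_lit 195) (nat_lit 2) (nat_lit 8) (.e false (nat_lit 1) (nat_lit 203) (nat_lit 1) (nat_lit 9) (.e false (nat_lit 1) (nat_lit 204) (nat_lit 1) (nat_lit 9) (.u (nat_lit 2) (.p (nat_lit 3) (nat_lit 1) (.n (nat_lit 5) (nat_lit 1) (.p (nat_lit 6) (nat_lit 1) (.p (nat_lit 7) (nat_lit 1) (.p (nat_lit 8) (nat_lit 1) (.p (nat_lit 10) (nat_lit 1) .z)))))) .nil))))))))))))))))) (.nd (.nd .leaf (nat_lit 45071) (nat_lit 869) (.n (nat_lit 328) (nat_lit 2) (.n (nat_lit 329) (nat_lit 3) (.n (nat_lit 330) (nat_lit 2) (.n (nat_lit 331) (nat_lit 1) (.p (nat_lit 332) (nat_lit 1) (.p (nat_lit 333) (nat_lit 3) (.p (nat_lit 334) (nat_lit 3) (.p (nat_lit 336) (nat_lit 3) (.n (nat_lit 338) (nat_lit 1) (.p (nat_lit 339) (nat_lit 3) (.p (nat_lit 340) (nat_lit 1) (.p (nat_lit 343) (nat_lit 2) (.p (nat_lit 344) (nat_lit 3) (.n (nat_lit 346) (nat_lit 1) .z)))))))))))))) (.ct dC1b_c277 (nat_lit 1) (nat_lit 2) (.s false (nat_lit 1) (nat_lit 15) (nat_lit 1) (nat_lit 2) (nat_lit 6) true (nat_lit 1) true (nat_lit 4) true (nat_lit 2) true (nat_lit 9) true (nat_lit 8) (.e false (nat_lit 1) (nat_lit 41) (nat_lit 17) (nat_lit 1) (.e false (nat_lit 1) (nat_lit 86) (nat_lit 6) (nat_lit 4) (.e true (nat_lit 1) (nat_lit 45) (nat_lit 15) (nat_lit 2) (.e true (nat_lit 1) (nat_lit 206) (nat_lit 1) (nat_lit 9) (.e false (nat_lit 2) (nat_lit 180) (nat_lit 2) (nat_lit 8) (.e true (nat_lit 3) (nat_lit 181) (nat_lit 2) (nat_lit 8) (.e true (nat_lit 2) (nat_lit 184) (nat_lit 2) (nat_lit 8) (.e false (nat_lit 2) (nat_lit 185) (nat_lit 2) (nat_lit 8) (.e true (nat_lit 2) (nat_lit 186) (nat_lit 2) (nat_lit 8) (.e true (nat_lit 2) (nat_lit 191) (nat_lit 2) (nat_lit 8) (.e true (nat_lit 2) (nat_lit 193) (nat_lit 2) (nat_lit 8) (.e true (nat_lit 2) (nat_lit 195) (nat_lit 2) (nat_lit 8) (.e false (nat_lit 2) (nat_lit 183) (nat_lit 2) (nat_lit 8) (.u (nat_lit 2) (.n (nat_lit 0) (nat_lit 1) (.p (nat_lit 1) (nat_lit 1) (.n (nat_lit 2) (nat_lit 1) (.p (nat_lit 3) (nat_lit 2) (.p (nat_lit 4) (nat_lit 1) (.n (nat_lit 5) (nat_lit 1) (.n (nat_lit 6) (nat_lit 1) (.p (nat_lit 10) (nat_lit 1) (.n (nat_lit 11) (nat_lit 1) (.n (nat_lit 12) (nat_lit 1) (.n (nat_lit 60) (nat_lit 2) (.n (nat_lit 61) (nat_lit 1) (.n (nat_lit 65) (nat_lit 2) .z))))))))))))) .nil)))))))))))))))) .leaf) (nat_lit 45072) (nat_lit 913) (.n (nat_lit 347) (nat_lit 2) (.n (nat_lit 348) (nat_lit 2) (.n (nat_lit 350) (nat_lit 1) (.n (nat_lit 351) (nat_lit 1) (.n (nat_lit 352) (nat_lit 3) (.n (nat_lit 353) (nat_lit 1) (.p (nat_lit 354) (nat_lit 1) .z))))))) (.ct dC1b_c37 (nat_lit 1) (nat_lit 1) (.s false (nat_lit 1) (nat_lit 44) (nat_lit 2) (nat_lit 1) (nat_lit 2) true (nat_lit 3) true (nat_lit 5) false (nat_lit 1) true (nat_lit 5) true (nat_lit 6) (.e true (nat_lit 1) (nat_lit 97) (nat_lit 6) (nat_lit 3) (.e true (nat_lit 2) (nat_lit 196) (nat_lit 2) (nat_lit 5) (.e true (nat_lit 2) (nat_lit 198) (nat_lit 2) (nat_lit 5) (.e true (nat_lit 1) (nat_lit 199) (nat_lit 2) (nat_lit 5) (.e true (nat_lit 2) (nat_lit 200) (nat_lit 2) (nat_lit 5) (.e true (nat_lit 1) (nat_lit 201) (nat_lit 2) (nat_lit 5) (.e true (nat_lit 1) (nat_lit 197) (nat_lit 2) (nat_lit 5) (.e false (nat_lit 1) (nat_lit 208) (nat_lit 1) (nat_lit 6) (.u (nat_lit 2) (.p (nat_lit 5) (nat_lit 1) .z) .nil))))))))))) .leaf)))) (nat_lit 45073) (nat_lit 908) (.p (nat_lit 348) (nat_lit 2) (.n (nat_lit 349) (nat_lit 2) (.p (nat_lit 350) (nat_lit 3) (.p (nat_lit 351) (nat_lit 1) (.n (nat_lit 352) (nat_lit 1) (.p (nat_lit 354) (nat_lit 2) .z)))))) (.ct dC1b_c37 (nat_lit 1) (nat_lit 1) (.s true (nat_lit 1) (nat_lit 6) (nat_lit 5) (nat_lit 1) (nat_lit 6) false (nat_lit 1) true (nat_lit 3) true (nat_lit 3) true (nat_lit 4) true (nat_lit 6) (.e true (nat_lit 1) (nat_lit 45) (nat_lit 17) (nat_lit 1) (.e false (nat_lit 1) (nat_lit 95) (nat_lit 6) (nat_lit 3) (.e true (nat_lit 1) (nat_lit 97) (nat_lit 6) (nat_lit 3) (.e false (nat_lit 2) (nat_lit 103) (nat_lit 5) (nat_lit 4) (.e false (nat_lit 2) (nat_lit 104) (nat_lit 5) (nat_lit 4) (.u (nat_lit 2) (.p (nat_lit 1) (nat_lit 1) (.p (nat_lit 2) (nat_lit 1) (.n (nat_lit 5) (nat_lit 1) .z))) .nil)))))))) (.nd (.nd (.nd (.nd (.nd .leaf (nat_lit 45076) (nat_lit 1140) (.n (nat_lit 356) (nat_lit 2) (.n (nat_lit 357) (nat_lit 1) (.p (nat_lit 358) (nat_lit 1) (.p (nat_lit 359) (nat_lit 3) (.n (nat_lit 361) (nat_lit 3) (.n (nat_lit 362) (nat_lit 1) (.p (nat_lit 363) (nat_lit 3) (.p (nat_lit 364) (nat_lit 3) (.p (nat_lit 365) (nat_lit 2) (.p (nat_lit 366) (nat_lit 3) (.n (nat_lit 367) (nat_lit 1) (.n (nat_lit 368) (nat_lit 3) (.p (nat_lit 369) (nat_lit 1) (.p (nat_lit 370) (nat_lit 2) (.p (nat_lit 372) (nat_lit 2) (.p (nat_lit 373) (nat_lit 3) (.p (nat_lit 374) (nat_lit 2) (.p (nat_lit 375) (nat_lit 1) (.p (nat_lit 376) (nat_lit 3) (.n (nat_lit 378) (nat_lit 3) (.n (nat_lit 379) (nat_lit 2) (.n (nat_lit 380) (nat_lit 2) (.n (nat_lit 381) (nat_lit 3) (.p (nat_lit 382) (nat_lit 2) (.p (nat_lit 383) (nat_lit 2) (.p (nat_lit 384) (nat_lit 2) (.n (nat_lit 385) (nat_lit 3) (.p (nat_lit 386) (nat_lit 2) (.n (nat_lit 387) (nat_lit 3) (.p (nat_lit 388) (nat_lit 2) (.p (nat_lit 390) (nat_lit 1) (.p (nat_lit 391) (nat_lit 2) (.n (nat_lit 392) (nat_lit 1) (.p (nat_lit 393) (nat_lit 1) (.n (nat_lit 394) (nat_lit 1) (.n (nat_lit 396) (nat_lit 2) (.p (nat_lit 400) (nat_lit 2) (.n (nat_lit 401) (nat_lit 3) (.p (nat_lit 403) (nat_lit 3) (.n (nat_lit 404) (nat_lit 3) (.p (nat_lit 405) (nat_lit 1) (.p (nat_lit 406) (nat_lit 2) (.n (nat_lit 407) (nat_lit 2) (.p (nat_lit 408) (nat_lit 3) (.p (nat_lit 409) (nat_lit 2) (.n (nat_lit 411) (nat_lit 3) (.p (nat_lit 412) (nat_lit 2) (.n (nat_lit 413) (nat_lit 2) (.n (nat_lit 414) (nat_lit 2) (.n (nat_lit 415) (nat_lit 2) (.n (nat_lit 416) (nat_lit 2) (.n (nat_lit 417) (nat_lit 3) (.p (nat_lit 418) (nat_lit 2) (.p (nat_lit 420) (nat_lit 3) (.n (nat_lit 421) (nat_lit 3) (.p (nat_lit 424) (nat_lit 2) .z)))))))))))))))))))))))))))))))))))))))))))))))))))))))) (.ct dC1b_c548 (nat_lit 1) (nat_lit 3) (.s false (nat_lit 1) (nat_lit 17) (nat_lit 2) (nat_lit 2) (nat_lit 7) true (nat_lit 3) true (nat_lit 12) true (nat_lit 6) true (nat_lit 17) true (nat_lit 17) (.e false (nat_lit 1) (nat_lit 103) (nat_lit 7) (nat_lit 12) (.e true (nat_lit 1) (nat_lit 65) (nat_lit 17) (nat_lit 6) (.e true (nat_lit 1) (nat_lit 212) (nat_lit 2) (nat_lit 17) (.e true (nat_lit 1) (nat_lit 214) (nat_lit 2) (nat_lit 17) (.e true (nat_lit 2) (nat_lit 217) (nat_lit 2) (nat_lit 17) (.e true (nat_lit 1) (nat_lit 218) (nat_lit 2) (nat_lit 17) (.e false (nat_lit 3) (nat_lit 219) (nat_lit 2) (nat_lit 17) (.e false (nat_lit 1) (nat_lit 220) (nat_lit 2) (nat_lit 17) (.e false (nat_lit 1) (nat_lit 222) (nat_lit 2) (nat_lit 17) (.e true (nat_lit 1) (nat_lit 223) (nat_lit 2) (nat_lit 17) (.e false (nat_lit 1) (nat_lit 224) (nat_lit 2) (nat_lit 17) dC1b_i19))))))))))))) .leaf) (nat_lit 45077) (nat_lit 1089) (.p (nat_lit 355) (nat_lit 2) (.p (nat_lit 356) (nat_lit 2) (.p (nat_lit 359) (nat_lit 2) (.p (nat_lit 360) (nat_lit 1) (.p (nat_lit 361) (nat_lit 2) (.p (nat_lit 363) (nat_lit 1) (.n (nat_lit 364) (nat_lit 1) (.p (nat_lit 365) (nat_lit 1) (.n (nat_lit 367) (nat_lit 3) (.n (nat_lit 368) (nat_lit 2) (.p (nat_lit 369) (nat_lit 2) (.p (nat_lit 371) (nat_lit 2) (.n (nat_lit 372) (nat_lit 3) (.p (nat_lit 373) (nat_lit 1) (.p (nat_lit 374) (nat_lit 2) (.n (nat_lit 375) (nat_lit 2) (.n (nat_lit 378) (nat_lit 2) (.p (nat_lit 380) (nat_lit 2) (.p (nat_lit 381) (nat_lit 3) (.p (nat_lit 382) (nat_lit 2) (.p (nat_lit 383) (nat_lit 1) (.n (nat_lit 384) (nat_lit 1) (.p (nat_lit 385) (nat_lit 2) (.p (nat_lit 386) (nat_lit 3) (.p (nat_lit 387) (nat_lit 1) (.n (nat_lit 388) (nat_lit 3) (.n (nat_lit 389) (nat_lit 3) (.p (nat_lit 390) (nat_lit 2) (.p (nat_lit 391) (nat_lit 2) (.p (nat_lit 392) (nat_lit 2) (.p (nat_lit 394) (nat_lit 3) (.p (nat_lit 395) (nat_lit 1) (.n (nat_lit 396) (nat_lit 3) (.n (nat_lit 399) (nat_lit 2) (.p (nat_lit 404) (nat_lit 2) (.p (nat_lit 405) (nat_lit 1) (.n (nat_lit 406) (nat_lit 1) (.p (nat_lit 407) (nat_lit 2) (.p (nat_lit 408) (nat_lit 3) (.n (nat_lit 410) (nat_lit 2) (.n (nat_lit 412) (nat_lit 2) (.p (nat_lit 413) (nat_lit 2) (.n (nat_lit 414) (nat_lit 2) .z))))))))))))))))))))))))))))))))))))))))))) (.ct dC1b_c548 (nat_lit 1) (nat_lit 3) (.s false (nat_lit 1) (nat_lit 21) (nat_lit 6) (nat_lit 1) (nat_lit 2) true (nat_lit 5) true (nat_lit 17) true (nat_lit 3) true (nat_lit 13) true (nat_lit 18) (.e true (nat_lit 1) (nat_lit 49) (nat_lit 18) (nat_lit 5) (.e false (nat_lit 2) (nat_lit 212) (nat_lit 2) (nat_lit 17) (.e true (nat_lit 3) (nat_lit 213) (nat_lit 2) (nat_lit 17) (.e false (nat_lit 1) (nat_lit 214) (nat_lit 2) (nat_lit 17) (.e false (nat_lit 3) (nat_lit 215) (nat_lit 2) (nat_lit 17) (.e false (nat_lit 1) (nat_lit 216) (nat_lit 2) (nat_lit 17) (.e false (nat_lit 3) (nat_lit 217) (nat_lit 2) (nat_lit 17) (.e true (nat_lit 2) (nat_lit 218) (nat_lit 2) (nat_lit 17) dC1b_i20)))))))))) .leaf) (nat_lit 45078) (nat_lit 1201) (.p (nat_lit 355) (nat_lit 1) (.n (nat_lit 356) (nat_lit 2) (.n (nat_lit 357) (nat_lit 1) (.p (nat_lit 358) (nat_lit 3) (.p (nat_lit 359) (nat_lit 1) (.p (nat_lit 361) (nat_lit 2) (.p (nat_lit 362) (nat_lit 1) (.n (nat_lit 363) (nat_lit 2) (.p (nat_lit 364) (nat_lit 3) (.n (nat_lit 365) (nat_lit 1) (.n (nat_lit 366) (nat_lit 2) (.n (nat_lit 368) (nat_lit 3) (.p (nat_lit 369) (nat_lit 1) (.n (nat_lit 370) (nat_lit 2) (.p (nat_lit 372) (nat_lit 3) (.n (nat_lit 373) (nat_lit 2) (.p (nat_lit 374) (nat_lit 1) (.p (nat_lit 375) (nat_lit 1) (.p (nat_lit 376) (nat_lit 3) (.p (nat_lit 377) (nat_lit 2) (.p (nat_lit 378) (nat_lit 2) (.n (nat_lit 379) (nat_lit 2) (.n (nat_lit 381) (nat_lit 3) (.p (nat_lit 382) (nat_lit 1) (.n (nat_lit 383) (nat_lit 3) (.n (nat_lit 384) (nat_lit 1) (.n (nat_lit 385) (nat_lit 2) (.n (nat_lit 386) (nat_lit 2) (.p (nat_lit 388) (nat_lit 1) (.n (nat_lit 389) (nat_lit 2) (.n (nat_lit 390) (nat_lit 2) (.n (nat_lit 392) (nat_lit 1) (.p (nat_lit 393) (nat_lit 1) (.n (nat_lit 394) (nat_lit 3) (.p (nat_lit 395) (nat_lit 1) (.p (nat_lit 397) (nat_lit 2) (.n (nat_lit 398) (nat_lit 2) (.n (nat_lit 399) (nat_lit 1) (.p (nat_lit 400) (nat_lit 1) (.p (nat_lit 401) (nat_lit 2) (.n (nat_lit 403) (nat_lit 2) (.p (nat_lit 404) (nat_lit 2) (.p (nat_lit 405) (nat_lit 3) (.p (nat_lit 406) (nat_lit 2) (.p (nat_lit 408) (nat_lit 3) (.p (nat_lit 409) (nat_lit 2) (.p (nat_lit 411) (nat_lit 2) (.p (nat_lit 412) (nat_lit 2) (.n (nat_lit 413) (nat_lit 2) (.n (nat_lit 414) (nat_lit 2) (.n (nat_lit 415) (nat_lit 2) (.n (nat_lit 416) (nat_lit 2) (.n (nat_lit 417) (nat_lit 3) (.p (nat_lit 418) (nat_lit 2) (.p (nat_lit 420) (nat_lit 3) (.n (nat_lit 421) (nat_lit 3) (.p (nat_lit 424) (nat_lit 2) .z))))))))))))))))))))))))))))))))))))))))))))))))))))))))) (.ct dC1b_c548 (nat_lit 1) (nat_lit 3) (.s true (nat_lit 1) (nat_lit 44) (nat_lit 0) (nat_lit 2) (nat_lit 3) true (nat_lit 12) true (nat_lit 16) false (nat_lit 3) true (nat_lit 19) true (nat_lit 17) (.e true (nat_lit 1) (nat_lit 103) (nat_lit 7) (nat_lit 12) dC1b_i21))) (.nd (.nd .leaf (nat_lit 45079) (nat_lit 1169) (.n (nat_lit 355) (nat_lit 3) (.p (nat_lit 356) (nat_lit 1) (.p (nat_lit 357) (nat_lit 1) (.n (nat_lit 358) (nat_lit 3) (.n (nat_lit 359) (nat_lit 2) (.p (nat_lit 360) (nat_lit 3) (.n (nat_lit 361) (nat_lit 1) (.n (nat_lit 363) (nat_lit 1) (.n (nat_lit 364) (nat_lit 3) (.p (nat_lit 365) (nat_lit 2) (.p (nat_lit 366) (nat_lit 1) (.p (nat_lit 367) (nat_lit 3) (.p (nat_lit 368) (nat_lit 1) (.n (nat_lit 369) (nat_lit 1) (.n (nat_lit 370) (nat_lit 1) (.p (nat_lit 371) (nat_lit 2) (.n (nat_lit 373) (nat_lit 2) (.p (nat_lit 375) (nat_lit 2) (.n (nat_lit 376) (nat_lit 3) (.p (nat_lit 377) (nat_lit 3) (.n (nat_lit 378) (nat_lit 2) (.p (nat_lit 379) (nat_lit 2) (.p (nat_lit 381) (nat_lit 3) (.p (nat_lit 383) (nat_lit 1) (.n (nat_lit 385) (nat_lit 1) (.p (nat_lit 386) (nat_lit 1) (.p (nat_lit 387) (nat_lit 1) (.n (nat_lit 390) (nat_lit 2) (.n (nat_lit 392) (nat_lit 3) (.n (nat_lit 393) (nat_lit 1) (.n (nat_lit 394) (nat_lit 1) (.p (nat_lit 396) (nat_lit 2) (.p (nat_lit 397) (nat_lit 3) (.n (nat_lit 398) (nat_lit 3) (.p (nat_lit 404) (nat_lit 2) (.p (nat_lit 405) (nat_lit 3) (.n (nat_lit 406) (nat_lit 3) (.n (nat_lit 409) (nat_lit 2) (.n (nat_lit 410) (nat_lit 2) (.p (nat_lit 412) (nat_lit 3) (.n (nat_lit 413) (nat_lit 3) (.p (nat_lit 415) (nat_lit 2) (.p (nat_lit 416) (nat_lit 2) (.p (nat_lit 417) (nat_lit 3) (.n (nat_lit 418) (nat_lit 2) (.n (nat_lit 420) (nat_lit 3) (.p (nat_lit 421) (nat_lit 3) (.n (nat_lit 424) (nat_lit 2) .z)))))))))))))))))))))))))))))))))))))))))))))))) (.ct dC1b_c548 (nat_lit 1) (nat_lit 3) (.s true (nat_lit 1) (nat_lit 44) (nat_lit 0) (nat_lit 5) (nat_lit 0) false (nat_lit 20) true (nat_lit 19) false (nat_lit 3) true (nat_lit 19) true (nat_lit 14) (.e true (nat_lit 2) (nat_lit 290) (nat_lit 0) (nat_lit 19) (.e false (nat_lit 3) (nat_lit 292) (nat_lit 0) (nat_lit 19) (.e false (nat_lit 3) (nat_lit 295) (nat_lit 0) (nat_lit 19) (.e true (nat_lit 1) (nat_lit 301) (nat_lit 0) (nat_lit 19) (.e false (nat_lit 3) (nat_lit 302) (nat_lit 0) (nat_lit 19) (.e false (nat_lit 2) (nat_lit 304) (nat_lit 0) (nat_lit 19) (.e true (nat_lit 3) (nat_lit 305) (nat_lit 0) (nat_lit 19) (.e true (nat_lit 1) (nat_lit 307) (nat_lit 0) (nat_lit 19) (.e false (nat_lit 1) (nat_lit 310) (nat_lit 0) (nat_lit 19) (.e true (nat_lit 1) (nat_lit 318) (nat_lit 0) (nat_lit 19) (.e true (nat_lit 2) (nat_lit 303) (nat_lit 0) (nat_lit 19) (.e true (nat_lit 2) (nat_lit 313) (nat_lit 0) (nat_lit 19) (.e true (nat_lit 1) (nat_lit 293) (nat_lit 0) (nat_lit 19) (.e true (nat_lit 3) (nat_lit 296) (nat_lit 0) (nat_lit 19) (.e true (nat_lit 2) (nat_lit 297) (nat_lit 0) (nat_lit 19) (.e false (nat_lit 3) (nat_lit 298) (nat_lit 0) (nat_lit 19) (.e false (nat_lit 1) (nat_lit 309) (nat_lit 0) (nat_lit 19) (.e false (nat_lit 2) (nat_lit 300) (nat_lit 0) (nat_lit 19) (.e false (nat_lit 2) (nat_lit 306) (nat_lit 0) (nat_lit 19) (.e false (nat_lit 2) (nat_lit 311) (nat_lit 0) (nat_lit 19) dC1b_i22)))))))))))))))))))))) .leaf) (nat_lit 45084) (nat_lit 1333) (.p (nat_lit 427) (nat_lit 2) (.n (nat_lit 428) (nat_lit 1) (.p (nat_lit 429) (nat_lit 3) (.n (nat_lit 430) (nat_lit 3) (.p (nat_lit 431) (nat_lit 2) (.p (nat_lit 432) (nat_lit 1) (.p (nat_lit 433) (nat_lit 1) (.n (nat_lit 434) (nat_lit 1) (.p (nat_lit 435) (nat_lit 1) (.p (nat_lit 436) (nat_lit 3) (.p (nat_lit 439) (nat_lit 2) (.p (nat_lit 441) (nat_lit 2) (.p (nat_lit 442) (nat_lit 2) (.n (nat_lit 445) (nat_lit 2) (.p (nat_lit 449) (nat_lit 2) (.n (nat_lit 452) (nat_lit 2) (.p (nat_lit 456) (nat_lit 2) (.n (nat_lit 457) (nat_lit 2) (.n (nat_lit 459) (nat_lit 1) .z))))))))))))))))))) (.ct dC1b_c533 (nat_lit 1) (nat_lit 1) dC1b_i23) .leaf)) (nat_lit 45086) (nat_lit 1384) (.n (nat_lit 426) (nat_lit 2) (.p (nat_lit 427) (nat_lit 2) (.n (nat_lit 428) (nat_lit 1) (.p (nat_lit 429) (nat_lit 2) (.n (nat_lit 430) (nat_lit 2) (.n (nat_lit 431) (nat_lit 2) (.n (nat_lit 432) (nat_lit 3) (.n (nat_lit 433) (nat_lit 3) (.p (nat_lit 434) (nat_lit 1) (.p (nat_lit 435) (nat_lit 1) (.n (nat_lit 436) (nat_lit 1) (.p (nat_lit 437) (nat_lit 3) (.n (nat_lit 438) (nat_lit 3) (.p (nat_lit 439) (nat_lit 2) (.n (nat_lit 440) (nat_lit 3) (.p (nat_lit 441) (nat_lit 2) (.n (nat_lit 443) (nat_lit 3) (.p (nat_lit 444) (nat_lit 3) (.p (nat_lit 445) (nat_lit 1) (.p (nat_lit 447) (nat_lit 3) (.p (nat_lit 448) (nat_lit 1) (.n (nat_lit 450) (nat_lit 3) (.p (nat_lit 453) (nat_lit 3) (.n (nat_lit 454) (nat_lit 1) (.p (nat_lit 455) (nat_lit 1) (.n (nat_lit 456) (nat_lit 1) (.p (nat_lit 459) (nat_lit 3) .z))))))))))))))))))))))))))) (.ct dC1b_c533 (nat_lit 1) (nat_lit 1) (.s false (nat_lit 1) (nat_lit 44) (nat_lit 6) (nat_lit 0) (nat_lit 0) true (nat_lit 5) true (nat_lit 15) false (nat_lit 1) true (nat_lit 9) true (nat_lit 15) (.e false (nat_lit 1) (nat_lit 84) (nat_lit 15) (nat_lit 5) (.e false (nat_lit 1) (nat_lit 85) (nat_lit 15) (nat_lit 5) (.e true (nat_lit 1) (nat_lit 86) (nat_lit 15) (nat_lit 5) (.e false (nat_lit 1) (nat_lit 88) (nat_lit 15) (nat_lit 5) (.e true (nat_lit 1) (nat_lit 89) (nat_lit 15) (nat_lit 5) (.e false (nat_lit 1) (nat_lit 90) (nat_lit 15) (nat_lit 5) (.e true (nat_lit 1) (nat_lit 91) (nat_lit 15) (nat_lit 5) (.e false (nat_lit 3) (nat_lit 329) (nat_lit 0) (nat_lit 15) (.e false (nat_lit 2) (nat_lit 330) (nat_lit 0) (nat_lit 15) (.e false (nat_lit 2) (nat_lit 331) (nat_lit 0) (nat_lit 15) (.e false (nat_lit 1) (nat_lit 332) (nat_lit 0) (nat_lit 15) (.e false (nat_lit 1) (nat_lit 333) (nat_lit 0) (nat_lit 15) (.e true (nat_lit 1) (nat_lit 335) (nat_lit 0) (nat_lit 15) (.e false (nat_lit 1) (nat_lit 337) (nat_lit 0) (nat_lit 15) (.e false (nat_lit 3) (nat_lit 338) (nat_lit 0) (nat_lit 15) (.e false (nat_lit 3) (nat_lit 339) (nat_lit 0) (nat_lit 15) (.e true (nat_lit 2) (nat_lit 340) (nat_lit 0) (nat_lit 15) (.e false (nat_lit 2) (nat_lit 343) (nat_lit 0) (nat_lit 15) (.e false (nat_lit 1) (nat_lit 344) (nat_lit 0) (nat_lit 15) (.e false (nat_lit 2) (nat_lit 334) (nat_lit 0) (nat_lit 15) (.e false (nat_lit 2) (nat_lit 341) (nat_lit 0) (nat_lit 15) (.e false (nat_lit 1) (nat_lit 346) (nat_lit 0) (nat_lit 15) (.u (nat_lit 2) (.n (nat_lit 1) (nat_lit 1) (.p (nat_lit 2) (nat_lit 1) (.p (nat_lit 3) (nat_lit 1) (.p (nat_lit 5) (nat_lit 1) (.p (nat_lit 7) (nat_lit 1) (.p (nat_lit 8) (nat_lit 1) (.p (nat_lit 9) (nat_lit 1) (.n (nat_lit 12) (nat_lit 1) (.p (nat_lit 14) (nat_lit 1) (.n (nat_lit 15) (nat_lit 1) (.n (nat_lit 18) (nat_lit 1) (.n (nat_lit 22) (nat_lit 1) (.p (nat_lit 25) (nat_lit 1) (.n (nat_lit 27) (nat_lit 1) (.p (nat_lit 28) (nat_lit 1) (.n (nat_lit 29) (nat_lit 2) (.n (nat_lit 30) (nat_lit 1) (.n (nat_lit 33) (nat_lit 1) (.n (nat_lit 211) (nat_lit 2) (.p (nat_lit 212) (nat_lit 1) (.n (nat_lit 213) (nat_lit 2) (.p (nat_lit 214) (nat_lit 1) (.p (nat_lit 215) (nat_lit 2) (.p (nat_lit 216) (nat_lit 1) (.n (nat_lit 218) (nat_lit 1) (.p (nat_lit 220) (nat_lit 1) (.n (nat_lit 222) (nat_lit 1) .z))))))))))))))))))))))))))) .nil))))))))))))))))))))))))) (.nd (.nd (.nd .leaf (nat_lit 45087) (nat_lit 1459) (.p (nat_lit 460) (nat_lit 1) (.n (nat_lit 461) (nat_lit 1) (.p (nat_lit 462) (nat_lit 3) (.n (nat_lit 463) (nat_lit 2) (.n (nat_lit 464) (nat_lit 2) (.n (nat_lit 465) (nat_lit 2) (.n (nat_lit 466) (nat_lit 1) (.p (nat_lit 468) (nat_lit 1) (.p (nat_lit 469) (nat_lit 1) (.p (nat_lit 471) (nat_lit 1) (.n (nat_lit 472) (nat_lit 2) (.n (nat_lit 474) (nat_lit 3) (.p (nat_lit 475) (nat_lit 3) (.n (nat_lit 477) (nat_lit 1) (.n (nat_lit 478) (nat_lit 2) (.n (nat_lit 479) (nat_lit 1) (.p (nat_lit 480) (nat_lit 2) (.n (nat_lit 481) (nat_lit 2) (.n (nat_lit 483) (nat_lit 2) (.p (nat_lit 486) (nat_lit 2) (.n (nat_lit 489) (nat_lit 2) (.n (nat_lit 493) (nat_lit 2) .z)))))))))))))))))))))) (.ct dC1b_c293 (nat_lit 1) (nat_lit 1) (.s false (nat_lit 1) (nat_lit 10) (nat_lit 1) (nat_lit 6) (nat_lit 6) true (nat_lit 4) true (nat_lit 9) true (nat_lit 7) true (nat_lit 14) true (nat_lit 9) (.s true (nat_lit 1) (nat_lit 17) (nat_lit 10) (nat_lit 2) (nat_lit 2) true (nat_lit 1) true (nat_lit 13) true (nat_lit 4) true (nat_lit 7) true (nat_lit 13) (.s true (nat_lit 1) (nat_lit 90) (nat_lit 1) (nat_lit 2) (nat_lit 2) true (nat_lit 10) true (nat_lit 13) false (nat_lit 4) true (nat_lit 14) true (nat_lit 13) (.s true (nat_lit 1) (nat_lit 90) (nat_lit 2) (nat_lit 1) (nat_lit 2) true (nat_lit 9) true (nat_lit 13) false (nat_lit 4) true (nat_lit 13) true (nat_lit 14) (.s false (nat_lit 1) (nat_lit 90) (nat_lit 2) (nat_lit 2) (nat_lit 1) true (nat_lit 10) true (nat_lit 14) false (nat_lit 4) true (nat_lit 13) true (nat_lit 13) (.e false (nat_lit 1) (nat_lit 171) (nat_lit 6) (nat_lit 9) (.e true (nat_lit 2) (nat_lit 294) (nat_lit 2) (nat_lit 13) (.e true (nat_lit 1) (nat_lit 299) (nat_lit 2) (nat_lit 13) (.e false (nat_lit 1) (nat_lit 304) (nat_lit 2) (nat_lit 13) (.e false (nat_lit 1) (nat_lit 308) (nat_lit 2) (nat_lit 13) (.e true (nat_lit 1) (nat_lit 82) (nat_lit 17) (nat_lit 4) (.e false (nat_lit 2) (nat_lit 290) (nat_lit 2) (nat_lit 13) (.e true (nat_lit 1) (nat_lit 292) (nat_lit 2) (nat_lit 13) (.e false (nat_lit 1) (nat_lit 293) (nat_lit 2) (nat_lit 13) (.e true (nat_lit 2) (nat_lit 301) (nat_lit 2) (nat_lit 13) (.e true (nat_lit 2) (nat_lit 307) (nat_lit 2) (nat_lit 13) (.e false (nat_lit 1) (nat_lit 310) (nat_lit 2) (nat_lit 13) (.e true (nat_lit 1) (nat_lit 311) (nat_lit 2) (nat_lit 13) (.e true (nat_lit 2) (nat_lit 317) (nat_lit 2) (nat_lit 13) (.e true (nat_lit 1) (nat_lit 319) (nat_lit 2) (nat_lit 13) (.e false (nat_lit 2) (nat_lit 336) (nat_lit 1) (nat_lit 14) (.u (nat_lit 2) (.n (nat_lit 0) (nat_lit 2) (.n (nat_lit 1) (nat_lit 2) (.n (nat_lit 2) (nat_lit 2) (.n (nat_lit 3) (nat_lit 1) (.n (nat_lit 4) (nat_lit 2) (.p (nat_lit 6) (nat_lit 1) (.p (nat_lit 7) (nat_lit 1) (.p (nat_lit 8) (nat_lit 2) (.n (nat_lit 9) (nat_lit 2) (.n (nat_lit 10) (nat_lit 1) (.p (nat_lit 11) (nat_lit 1) (.n (nat_lit 12) (nat_lit 1) (.p (nat_lit 13) (nat_lit 1) (.p (nat_lit 14) (nat_lit 1) (.n (nat_lit 15) (nat_lit 3) (.n (nat_lit 16) (nat_lit 1) (.n (nat_lit 17) (nat_lit 1) (.p (nat_lit 19) (nat_lit 1) (.n (nat_lit 21) (nat_lit 1) (.n (nat_lit 23) (nat_lit 1) (.p (nat_lit 26) (nat_lit 1) (.n (nat_lit 174) (nat_lit 1) (.p (nat_lit 177) (nat_lit 1) (.n (nat_lit 184) (nat_lit 1) (.p (nat_lit 187) (nat_lit 1) (.p (nat_lit 191) (nat_lit 1) .z)))))))))))))))))))))))))) .nil))))))))))))))))))))))) .leaf) (nat_lit 45088) (nat_lit 1526) (.p (nat_lit 461) (nat_lit 1) (.p (nat_lit 462) (nat_lit 1) (.n (nat_lit 464) (nat_lit 1) (.n (nat_lit 465) (nat_lit 1) (.p (nat_lit 467) (nat_lit 2) (.p (nat_lit 468) (nat_lit 3) (.p (nat_lit 469) (nat_lit 1) (.p (nat_lit 470) (nat_lit 1) (.n (nat_lit 471) (nat_lit 2) (.p (nat_lit 472) (nat_lit 3) (.n (nat_lit 475) (nat_lit 3) (.n (nat_lit 476) (nat_lit 1) (.p (nat_lit 477) (nat_lit 3) (.n (nat_lit 479) (nat_lit 3) (.p (nat_lit 484) (nat_lit 2) (.n (nat_lit 487) (nat_lit 2) (.p (nat_lit 489) (nat_lit 2) (.n (nat_lit 490) (nat_lit 2) (.n (nat_lit 493) (nat_lit 1) .z))))))))))))))))))) (.ct dC1b_c293 (nat_lit 1) (nat_lit 1) dC1b_i24) .leaf) (nat_lit 46080) (nat_lit 136) (.p (nat_lit 84) (nat_lit 2) (.n (nat_lit 86) (nat_lit 1) (.p (nat_lit 87) (nat_lit 2) (.p (nat_lit 90) (nat_lit 1) (.n (nat_lit 92) (nat_lit 1) .z))))) (.ct dC1b_c275 (nat_lit 1) (nat_lit 6) (.s false (nat_lit 1) (nat_lit 5) (nat_lit 0) (nat_lit 2) (nat_lit 2) true (nat_lit 2) true (nat_lit 4) true (nat_lit 1) true (nat_lit 6) true (nat_lit 4) (.e false (nat_lit 1) (nat_lit 16) (nat_lit 4) (nat_lit 2) (.e false (nat_lit 1) (nat_lit 33) (nat_lit 2) (nat_lit 4) (.e true (nat_lit 1) (nat_lit 14) (nat_lit 5) (nat_lit 1) (.e true (nat_lit 1) (nat_lit 44) (nat_lit 0) (nat_lit 6) (.e false (nat_lit 1) (nat_lit 36) (nat_lit 2) (nat_lit 4) .nil))))))) (.nd (.nd .leaf (nat_lit 46081) (nat_lit 144) (.p (nat_lit 93) (nat_lit 1) (.p (nat_lit 94) (nat_lit 1) (.n (nat_lit 97) (nat_lit 1) .z))) (.ct dC1b_c35 (nat_lit 1) (nat_lit 3) (.s false (nat_lit 1) (nat_lit 5) (nat_lit 1) (nat_lit 2) (nat_lit 2) true (nat_lit 1) true (nat_lit 2) true (nat_lit 1) true (nat_lit 3) true (nat_lit 2) (.e false (nat_lit 1) (nat_lit 37) (nat_lit 2) (nat_lit 2) (.e true (nat_lit 1) (nat_lit 44) (nat_lit 1) (nat_lit 3) (.e false (nat_lit 1) (nat_lit 38) (nat_lit 2) (nat_lit 2) .nil))))) .leaf) (nat_lit 46082) (nat_lit 157) (.p (nat_lit 104) (nat_lit 1) .z) .df .leaf))) (nat_lit 46083) (nat_lit 296) (.n (nat_lit 154) (nat_lit 2) (.n (nat_lit 157) (nat_lit 2) (.p (nat_lit 161) (nat_lit 1) (.p (nat_lit 167) (nat_lit 1) (.n (nat_lit 173) (nat_lit 1) .z))))) (.ct dC1b_c291 (nat_lit 1) (nat_lit 6) (.s false (nat_lit 1) (nat_lit 5) (nat_lit 3) (nat_lit 2) (nat_lit 2) true (nat_lit 1) true (nat_lit 7) true (nat_lit 4) true (nat_lit 6) true (nat_lit 7) (.e true (nat_lit 1) (nat_lit 16) (nat_lit 10) (nat_lit 1) (.e false (nat_lit 1) (nat_lit 31) (nat_lit 5) (nat_lit 4) (.e true (nat_lit 1) (nat_lit 44) (nat_lit 3) (nat_lit 6) (.e true (nat_lit 1) (nat_lit 67) (nat_lit 2) (nat_lit 7) (.e true (nat_lit 1) (nat_lit 70) (nat_lit 2) (nat_lit 7) (.e false (nat_lit 1) (nat_lit 74) (nat_lit 2) (nat_lit 7) .nil)))))))) (.nd (.nd (.nd (.nd .leaf (nat_lit 46084) (nat_lit 361) (.p (nat_lit 180) (nat_lit 3) (.p (nat_lit 181) (nat_lit 3) (.p (nat_lit 182) (nat_lit 1) (.p (nat_lit 183) (nat_lit 3) (.n (nat_lit 184) (nat_lit 3) (.p (nat_lit 186) (nat_lit 3) (.p (nat_lit 187) (nat_lit 3) (.p (nat_lit 189) (nat_lit 3) (.p (nat_lit 190) (nat_lit 3) (.p (nat_lit 193) (nat_lit 1) .z)))))))))) (.ct dC1b_c276 (nat_lit 1) (nat_lit 4) (.s true (nat_lit 1) (nat_lit 5) (nat_lit 2) (nat_lit 4) (nat_lit 2) true (nat_lit 2) true (nat_lit 6) true (nat_lit 3) true (nat_lit 6) true (nat_lit 4) (.s false (nat_lit 1) (nat_lit 14) (nat_lit 2) (nat_lit 1) (nat_lit 2) true (nat_lit 2) true (nat_lit 6) true (nat_lit 0) true (nat_lit 6) true (nat_lit 7) (.s true (nat_lit 1) (nat_lit 16) (nat_lit 0) (nat_lit 2) (nat_lit 2) true (nat_lit 4) true (nat_lit 6) false (nat_lit 0) true (nat_lit 8) true (nat_lit 6) (.s true (nat_lit 1) (nat_lit 17) (nat_lit 2) (nat_lit 0) (nat_lit 2) true (nat_lit 2) true (nat_lit 6) false (nat_lit 0) true (nat_lit 6) true (nat_lit 8) (.s false (nat_lit 1) (nat_lit 18) (nat_lit 2) (nat_lit 1) (nat_lit 0) true (nat_lit 4) true (nat_lit 8) false (nat_lit 1) true (nat_lit 6) true (nat_lit 7) (.e true (nat_lit 1) (nat_lit 31) (nat_lit 6) (nat_lit 2) (.e true (nat_lit 2) (nat_lit 82) (nat_lit 2) (nat_lit 6) (.e true (nat_lit 2) (nat_lit 83) (nat_lit 2) (nat_lit 6) (.e false (nat_lit 1) (nat_lit 85) (nat_lit 2) (nat_lit 6) (.e false (nat_lit 1) (nat_lit 86) (nat_lit 2) (nat_lit 6) (.e false (nat_lit 1) (nat_lit 87) (nat_lit 2) (nat_lit 6) (.e false (nat_lit 2) (nat_lit 88) (nat_lit 2) (nat_lit 6) (.e true (nat_lit 2) (nat_lit 91) (nat_lit 2) (nat_lit 6) (.e false (nat_lit 1) (nat_lit 40) (nat_lit 5) (nat_lit 3) (.e false (nat_lit 1) (nat_lit 89) (nat_lit 2) (nat_lit 6) (.e true (nat_lit 3) (nat_lit 92) (nat_lit 2) (nat_lit 6) (.e false (nat_lit 1) (nat_lit 98) (nat_lit 1) (nat_lit 7) (.e false (nat_lit 1) (nat_lit 33) (nat_lit 6) (nat_lit 2) (.e false (nat_lit 2) (nat_lit 84) (nat_lit 2) (nat_lit 6) (.e false (nat_lit 2) (nat_lit 90) (nat_lit 2) (nat_lit 6) (.e false (nat_lit 1) (nat_lit 17) (nat_lit 14) (nat_lit 0) (.e true (nat_lit 1) (nat_lit 18) (nat_lit 12) (nat_lit 1) (.e true (nat_lit 1) (nat_lit 100) (nat_lit 1) (nat_lit 7) (.u (nat_lit 2) (.n (nat_lit 0) (nat_lit 1) (.n (nat_lit 1) (nat_lit 1) (.n (nat_lit 9) (nat_lit 1) (.n (nat_lit 10) (nat_lit 1) (.p (nat_lit 36) (nat_lit 1) (.p (nat_lit 37) (nat_lit 1) (.n (nat_lit 40) (nat_lit 1) (.p (nat_lit 41) (nat_lit 1) .z)))))))) .nil))))))))))))))))))))))))) .leaf) (nat_lit 46085) (nat_lit 395) (.n (nat_lit 196) (nat_lit 3) (.n (nat_lit 197) (nat_lit 3) (.n (nat_lit 198) (nat_lit 2) (.n (nat_lit 199) (nat_lit 1) (.n (nat_lit 200) (nat_lit 1) (.n (nat_lit 201) (nat_lit 1) .z)))))) (.ct dC1b_c36 (nat_lit 1) (nat_lit 3) (.s false (nat_lit 1) (nat_lit 18) (nat_lit 2) (nat_lit 1) (nat_lit 1) true (nat_lit 3) true (nat_lit 5) false (nat_lit 1) true (nat_lit 4) true (nat_lit 5) (.e false (nat_lit 1) (nat_lit 103) (nat_lit 1) (nat_lit 5) (.e true (nat_lit 1) (nat_lit 105) (nat_lit 1) (nat_lit 5) (.e true (nat_lit 1) (nat_lit 18) (nat_lit 13) (nat_lit 1) (.e true (nat_lit 1) (nat_lit 104) (nat_lit 1) (nat_lit 5) (.u (nat_lit 2) (.p (nat_lit 0) (nat_lit 1) .z) .nil))))))) .leaf) (nat_lit 46086) (nat_lit 411) (.p (nat_lit 211) (nat_lit 1) .z) .df (.nd (.nd .leaf (nat_lit 46087) (nat_lit 505) (.n (nat_lit 212) (nat_lit 3) (.p (nat_lit 213) (nat_lit 2) (.p (nat_lit 214) (nat_lit 3) (.n (nat_lit 215) (nat_lit 3) (.p (nat_lit 217) (nat_lit 2) (.n (nat_lit 218) (nat_lit 1) (.p (nat_lit 219) (nat_lit 1) (.n (nat_lit 220) (nat_lit 2) (.n (nat_lit 221) (nat_lit 2) (.p (nat_lit 223) (nat_lit 2) (.n (nat_lit 224) (nat_lit 1) (.n (nat_lit 227) (nat_lit 3) (.n (nat_lit 229) (nat_lit 3) (.n (nat_lit 230) (nat_lit 1) (.n (nat_lit 231) (nat_lit 1) (.p (nat_lit 232) (nat_lit 2) (.p (nat_lit 233) (nat_lit 3) (.p (nat_lit 234) (nat_lit 3) (.n (nat_lit 235) (nat_lit 1) (.n (nat_lit 236) (nat_lit 3) (.n (nat_lit 238) (nat_lit 1) (.p (nat_lit 239) (nat_lit 3) (.n (nat_lit 240) (nat_lit 2) (.n (nat_lit 241) (nat_lit 2) (.n (nat_lit 242) (nat_lit 1) (.p (nat_lit 243) (nat_lit 2) (.n (nat_lit 244) (nat_lit 1) (.n (nat_lit 245) (nat_lit 3) (.n (nat_lit 248) (nat_lit 2) .z))))))))))))))))))))))))))))) (.ct dC1b_c547 (nat_lit 1) (nat_lit 7) (.s false (nat_lit 1) (nat_lit 7) (nat_lit 2) (nat_lit 6) (nat_lit 1) true (nat_lit 9) true (nat_lit 13) true (nat_lit 7) true (nat_lit 12) true (nat_lit 8) (.e true (nat_lit 1) (nat_lit 65) (nat_lit 5) (nat_lit 9) (.e false (nat_lit 1) (nat_lit 149) (nat_lit 1) (nat_lit 13) (.e false (nat_lit 2) (nat_lit 107) (nat_lit 2) (nat_lit 12) (.e false (nat_lit 2) (nat_lit 112) (nat_lit 2) (nat_lit 12) (.e true (nat_lit 2) (nat_lit 114) (nat_lit 2) (nat_lit 12) (.e true (nat_lit 1) (nat_lit 124) (nat_lit 2) (nat_lit 12) (.e true (nat_lit 1) (nat_lit 129) (nat_lit 2) (nat_lit 12) (.e true (nat_lit 1) (nat_lit 47) (nat_lit 6) (nat_lit 8) (.u (nat_lit 2) (.p (nat_lit 3) (nat_lit 1) (.p (nat_lit 4) (nat_lit 1) (.p (nat_lit 6) (nat_lit 1) (.n (nat_lit 9) (nat_lit 1) (.n (nat_lit 11) (nat_lit 1) (.p (nat_lit 15) (nat_lit 1) (.p (nat_lit 17) (nat_lit 2) (.p (nat_lit 24) (nat_lit 1) (.n (nat_lit 25) (nat_lit 1) (.p (nat_lit 26) (nat_lit 1) (.p (nat_lit 28) (nat_lit 1) (.n (nat_lit 30) (nat_lit 1) (.p (nat_lit 32) (nat_lit 1) .z))))))))))))) .nil))))))))))) .leaf) (nat_lit 46089) (nat_lit 635) (.p (nat_lit 261) (nat_lit 2) (.n (nat_lit 262) (nat_lit 3) (.n (nat_lit 263) (nat_lit 2) (.p (nat_lit 264) (nat_lit 3) (.n (nat_lit 265) (nat_lit 1) (.n (nat_lit 266) (nat_lit 3) (.n (nat_lit 267) (nat_lit 2) (.n (nat_lit 268) (nat_lit 3) (.n (nat_lit 269) (nat_lit 1) (.n (nat_lit 271) (nat_lit 2) (.p (nat_lit 272) (nat_lit 1) (.n (nat_lit 273) (nat_lit 1) (.p (nat_lit 274) (nat_lit 2) (.p (nat_lit 279) (nat_lit 2) (.p (nat_lit 280) (nat_lit 1) (.n (nat_lit 287) (nat_lit 2) (.p (nat_lit 288) (nat_lit 3) .z))))))))))))))))) (.ct dC1b_c532 (nat_lit 1) (nat_lit 4) (.s true (nat_lit 1) (nat_lit 45) (nat_lit 0) (nat_lit 2) (nat_lit 0) false (nat_lit 13) true (nat_lit 12) false (nat_lit 4) true (nat_lit 12) true (nat_lit 10) (.e true (nat_lit 1) (nat_lit 182) (nat_lit 0) (nat_lit 12) (.e true (nat_lit 2) (nat_lit 184) (nat_lit 0) (nat_lit 12) (.e true (nat_lit 2) (nat_lit 185) (nat_lit 0) (nat_lit 12) (.e true (nat_lit 1) (nat_lit 188) (nat_lit 0) (nat_lit 12) (.e true (nat_lit 3) (nat_lit 190) (nat_lit 0) (nat_lit 12) (.e false (nat_lit 3) (nat_lit 180) (nat_lit 0) (nat_lit 12) dC1b_i25)))))))) .leaf)) (nat_lit 46090) (nat_lit 725) (.p (nat_lit 290) (nat_lit 2) (.n (nat_lit 291) (nat_lit 1) (.n (nat_lit 292) (nat_lit 1) (.p (nat_lit 293) (nat_lit 1) (.n (nat_lit 294) (nat_lit 3) (.n (nat_lit 298) (nat_lit 1) (.n (nat_lit 299) (nat_lit 2) (.n (nat_lit 301) (nat_lit 1) (.p (nat_lit 304) (nat_lit 3) (.n (nat_lit 307) (nat_lit 1) (.p (nat_lit 310) (nat_lit 1) (.p (nat_lit 317) (nat_lit 1) .z)))))))))))) (.ct dC1b_c292 (nat_lit 1) (nat_lit 4) (.s false (nat_lit 1) (nat_lit 10) (nat_lit 6) (nat_lit 2) (nat_lit 1) true (nat_lit 1) true (nat_lit 11) true (nat_lit 4) true (nat_lit 6) true (nat_lit 10) (.e true (nat_lit 1) (nat_lit 31) (nat_lit 17) (nat_lit 1) (.e false (nat_lit 1) (nat_lit 188) (nat_lit 1) (nat_lit 11) (.e true (nat_lit 1) (nat_lit 75) (nat_lit 6) (nat_lit 6) (.e true (nat_lit 1) (nat_lit 171) (nat_lit 2) (nat_lit 10) (.u (nat_lit 2) (.p (nat_lit 4) (nat_lit 1) (.n (nat_lit 14) (nat_lit 1) .z)) .nil))))))) (.nd (.nd (.nd .leaf (nat_lit 46091) (nat_lit 769) (.n (nat_lit 290) (nat_lit 1) (.n (nat_lit 291) (nat_lit 2) (.p (nat_lit 293) (nat_lit 3) (.n (nat_lit 295) (nat_lit 1) (.n (nat_lit 296) (nat_lit 2) (.p (nat_lit 297) (nat_lit 2) (.p (nat_lit 298) (nat_lit 1) (.n (nat_lit 300) (nat_lit 2) (.p (nat_lit 301) (nat_lit 3) (.p (nat_lit 302) (nat_lit 2) (.p (nat_lit 304) (nat_lit 2) (.n (nat_lit 305) (nat_lit 1) (.n (nat_lit 307) (nat_lit 1) (.n (nat_lit 308) (nat_lit 2) (.p (nat_lit 309) (nat_lit 1) (.p (nat_lit 316) (nat_lit 3) (.p (nat_lit 317) (nat_lit 3) (.n (nat_lit 318) (nat_lit 2) .z)))))))))))))))))) (.ct dC1b_c292 (nat_lit 1) (nat_lit 4) (.s false (nat_lit 1) (nat_lit 11) (nat_lit 6) (nat_lit 2) (nat_lit 1) true (nat_lit 1) true (nat_lit 11) true (nat_lit 4) true (nat_lit 6) true (nat_lit 10) (.e true (nat_lit 1) (nat_lit 32) (nat_lit 17) (nat_lit 1) (.e false (nat_lit 1) (nat_lit 189) (nat_lit 1) (nat_lit 11) (.e true (nat_lit 1) (nat_lit 76) (nat_lit 6) (nat_lit 6) (.e true (nat_lit 1) (nat_lit 172) (nat_lit 2) (nat_lit 10) (.u (nat_lit 2) (.n (nat_lit 5) (nat_lit 1) .z) .nil))))))) .leaf) (nat_lit 46092) (nat_lit 760) (.p (nat_lit 290) (nat_lit 1) (.n (nat_lit 291) (nat_lit 2) (.n (nat_lit 292) (nat_lit 3) (.n (nat_lit 293) (nat_lit 1) (.p (nat_lit 294) (nat_lit 2) (.n (nat_lit 295) (nat_lit 1) (.n (nat_lit 296) (nat_lit 1) (.p (nat_lit 297) (nat_lit 1) (.n (nat_lit 298) (nat_lit 2) (.n (nat_lit 299) (nat_lit 1) (.p (nat_lit 300) (nat_lit 3) (.n (nat_lit 301) (nat_lit 2) (.p (nat_lit 302) (nat_lit 2) (.n (nat_lit 304) (nat_lit 3) (.n (nat_lit 305) (nat_lit 1) (.n (nat_lit 307) (nat_lit 1) (.n (nat_lit 308) (nat_lit 1) (.p (nat_lit 309) (nat_lit 1) (.n (nat_lit 310) (nat_lit 3) (.n (nat_lit 316) (nat_lit 2) (.n (nat_lit 317) (nat_lit 1) (.n (nat_lit 318) (nat_lit 2) .z)))))))))))))))))))))) (.ct dC1b_c292 (nat_lit 1) (nat_lit 4) (.s false (nat_lit 1) (nat_lit 12) (nat_lit 2) (nat_lit 5) (nat_lit 2) true (nat_lit 6) true (nat_lit 10) true (nat_lit 4) true (nat_lit 10) true (nat_lit 7) (.s false (nat_lit 1) (nat_lit 12) (nat_lit 6) (nat_lit 2) (nat_lit 1) true (nat_lit 1) true (nat_lit 11) true (nat_lit 4) true (nat_lit 6) true (nat_lit 10) (.e false (nat_lit 2) (nat_lit 153) (nat_lit 2) (nat_lit 10) (.e true (nat_lit 2) (nat_lit 155) (nat_lit 2) (nat_lit 10) (.e false (nat_lit 1) (nat_lit 156) (nat_lit 2) (nat_lit 10) (.e false (nat_lit 2) (nat_lit 157) (nat_lit 2) (nat_lit 10) (.e true (nat_lit 3) (nat_lit 158) (nat_lit 2) (nat_lit 10) (.e false (nat_lit 2) (nat_lit 159) (nat_lit 2) (nat_lit 10) (.e true (nat_lit 2) (nat_lit 160) (nat_lit 2) (nat_lit 10) (.e false (nat_lit 3) (nat_lit 162) (nat_lit 2) (nat_lit 10) (.e true (nat_lit 2) (nat_lit 163) (nat_lit 2) (nat_lit 10) (.e true (nat_lit 2) (nat_lit 164) (nat_lit 2) (nat_lit 10) (.e true (nat_lit 2) (nat_lit 165) (nat_lit 2) (nat_lit 10) (.e true (nat_lit 1) (nat_lit 167) (nat_lit 2) (nat_lit 10) (.e false (nat_lit 1) (nat_lit 168) (nat_lit 2) (nat_lit 10) (.e true (nat_lit 2) (nat_lit 170) (nat_lit 2) (nat_lit 10) (.e true (nat_lit 1) (nat_lit 171) (nat_lit 2) (nat_lit 10) (.e false (nat_lit 1) (nat_lit 172) (nat_lit 2) (nat_lit 10) (.e false (nat_lit 2) (nat_lit 173) (nat_lit 2) (nat_lit 10) (.e true (nat_lit 1) (nat_lit 43) (nat_lit 12) (nat_lit 4) (.e true (nat_lit 1) (nat_lit 84) (nat_lit 5) (nat_lit 7) (.e true (nat_lit 1) (nat_lit 33) (nat_lit 17) (nat_lit 1) (.e false (nat_lit 1) (nat_lit 190) (nat_lit 1) (nat_lit 11) (.u (nat_lit 2) (.p (nat_lit 0) (nat_lit 1) (.p (nat_lit 1) (nat_lit 1) (.n (nat_lit 2) (nat_lit 1) (.n (nat_lit 4) (nat_lit 1) (.n (nat_lit 5) (nat_lit 1) (.n (nat_lit 10) (nat_lit 1) (.p (nat_lit 11) (nat_lit 1) (.n (nat_lit 12) (nat_lit 1) (.p (nat_lit 20) (nat_lit 1) (.n (nat_lit 26) (nat_lit 1) (.n (nat_lit 27) (nat_lit 1) (.p (nat_lit 28) (nat_lit 1) (.n (nat_lit 96) (nat_lit 1) (.p (nat_lit 98) (nat_lit 1) (.n (nat_lit 102) (nat_lit 1) (.p (nat_lit 103) (nat_lit 1) (.n (nat_lit 105) (nat_lit 1) .z))))))))))))))))) .nil))))))))))))))))))))))))) .leaf) (nat_lit 46094) (nat_lit 884) (.n (nat_lit 328) (nat_lit 3) (.p (nat_lit 329) (nat_lit 3) (.n (nat_lit 330) (nat_lit 2) (.n (nat_lit 331) (nat_lit 1) (.p (nat_lit 332) (nat_lit 3) (.p (nat_lit 333) (nat_lit 2) (.p (nat_lit 336) (nat_lit 3) (.n (nat_lit 337) (nat_lit 1) (.n (nat_lit 338) (nat_lit 2) (.n (nat_lit 340) (nat_lit 2) (.p (nat_lit 345) (nat_lit 1) .z))))))))))) (.ct dC1b_c277 (nat_lit 1) (nat_lit 2) (.s true (nat_lit 1) (nat_lit 45) (nat_lit 0) (nat_lit 2) (nat_lit 2) true (nat_lit 6) true (nat_lit 8) false (nat_lit 2) true (nat_lit 10) true (nat_lit 8) (.e true (nat_lit 1) (nat_lit 104) (nat_lit 4) (nat_lit 6) (.e true (nat_lit 1) (nat_lit 182) (nat_lit 2) (nat_lit 8) (.e true (nat_lit 2) (nat_lit 184) (nat_lit 2) (nat_lit 8) (.e false (nat_lit 2) (nat_lit 185) (nat_lit 2) (nat_lit 8) (.e false (nat_lit 1) (nat_lit 188) (nat_lit 2) (nat_lit 8) (.e true (nat_lit 1) (nat_lit 190) (nat_lit 2) (nat_lit 8) (.e false (nat_lit 1) (nat_lit 211) (nat_lit 0) (nat_lit 10) (.e false (nat_lit 2) (nat_lit 180) (nat_lit 2) (nat_lit 8) (.e false (nat_lit 2) (nat_lit 181) (nat_lit 2) (nat_lit 8) (.e false (nat_lit 1) (nat_lit 183) (nat_lit 2) (nat_lit 8) (.e false (nat_lit 1) (nat_lit 186) (nat_lit 2) (nat_lit 8) (.e false (nat_lit 1) (nat_lit 187) (nat_lit 2) (nat_lit 8) (.e true (nat_lit 1) (nat_lit 189) (nat_lit 2) (nat_lit 8) (.e true (nat_lit 1) (nat_lit 192) (nat_lit 2) (nat_lit 8) (.e false (nat_lit 1) (nat_lit 194) (nat_lit 2) (nat_lit 8) (.u (nat_lit 2) (.p (nat_lit 0) (nat_lit 1) (.n (nat_lit 4) (nat_lit 1) (.n (nat_lit 8) (nat_lit 1) (.n (nat_lit 65) (nat_lit 1) .z)))) .nil)))))))))))))))))) (.nd (.nd .leaf (nat_lit 46095) (nat_lit 865) (.p (nat_lit 328) (nat_lit 1) (.p (nat_lit 329) (nat_lit 3) (.p (nat_lit 330) (nat_lit 2) (.n (nat_lit 331) (nat_lit 2) (.n (nat_lit 333) (nat_lit 1) (.p (nat_lit 334) (nat_lit 3) (.p (nat_lit 335) (nat_lit 3) (.p (nat_lit 336) (nat_lit 1) (.n (nat_lit 337) (nat_lit 3) (.p (nat_lit 338) (nat_lit 2) (.p (nat_lit 340) (nat_lit 3) (.n (nat_lit 344) (nat_lit 1) (.p (nat_lit 346) (nat_lit 1) .z))))))))))))) (.ct dC1b_c277 (nat_lit 1) (nat_lit 2) (.s false (nat_lit 1) (nat_lit 18) (nat_lit 6) (nat_lit 1) (nat_lit 0) true (nat_lit 2) true (nat_lit 10) true (nat_lit 0) true (nat_lit 4) true (nat_lit 9) (.e true (nat_lit 2) (nat_lit 31) (nat_lit 18) (nat_lit 0) (.e true (nat_lit 1) (nat_lit 32) (nat_lit 18) (nat_lit 0) (.e false (nat_lit 1) (nat_lit 33) (nat_lit 18) (nat_lit 0) (.e false (nat_lit 1) (nat_lit 34) (nat_lit 18) (nat_lit 0) (.e false (nat_lit 1) (nat_lit 35) (nat_lit 18) (nat_lit 0) (.e true (nat_lit 1) (nat_lit 36) (nat_lit 18) (nat_lit 0) (.e true (nat_lit 1) (nat_lit 83) (nat_lit 6) (nat_lit 4) (.e false (nat_lit 1) (nat_lit 84) (nat_lit 6) (nat_lit 4) (.e true (nat_lit 1) (nat_lit 85) (nat_lit 6) (nat_lit 4) (.e false (nat_lit 1) (nat_lit 87) (nat_lit 6) (nat_lit 4) (.e false (nat_lit 1) (nat_lit 90) (nat_lit 6) (nat_lit 4) (.e true (nat_lit 1) (nat_lit 206) (nat_lit 1) (nat_lit 9) (.u (nat_lit 2) (.n (nat_lit 1) (nat_lit 1) (.p (nat_lit 2) (nat_lit 1) (.n (nat_lit 5) (nat_lit 1) (.n (nat_lit 6) (nat_lit 1) (.n (nat_lit 7) (nat_lit 1) (.p (nat_lit 9) (nat_lit 2) (.n (nat_lit 10) (nat_lit 1) .z))))))) .nil))))))))))))))) .leaf) (nat_lit 46096) (nat_lit 910) (.p (nat_lit 347) (nat_lit 1) (.n (nat_lit 349) (nat_lit 2) (.p (nat_lit 350) (nat_lit 1) (.p (nat_lit 351) (nat_lit 2) (.n (nat_lit 352) (nat_lit 1) (.p (nat_lit 353) (nat_lit 1) .z)))))) (.ct dC1b_c37 (nat_lit 1) (nat_lit 1) (.s true (nat_lit 1) (nat_lit 45) (nat_lit 1) (nat_lit 2) (nat_lit 2) true (nat_lit 4) true (nat_lit 5) false (nat_lit 1) true (nat_lit 6) true (nat_lit 5) (.e true (nat_lit 1) (nat_lit 104) (nat_lit 5) (nat_lit 4) (.e false (nat_lit 1) (nat_lit 196) (nat_lit 2) (nat_lit 5) (.e true (nat_lit 3) (nat_lit 198) (nat_lit 2) (nat_lit 5) (.e true (nat_lit 2) (nat_lit 199) (nat_lit 2) (nat_lit 5) (.e true (nat_lit 3) (nat_lit 201) (nat_lit 2) (nat_lit 5) (.e false (nat_lit 1) (nat_lit 211) (nat_lit 1) (nat_lit 6) (.e true (nat_lit 1) (nat_lit 200) (nat_lit 2) (nat_lit 5) (.u (nat_lit 2) (.n (nat_lit 2) (nat_lit 1) (.p (nat_lit 29) (nat_lit 1) (.p (nat_lit 32) (nat_lit 1) .z))) .nil)))))))))) .leaf))))))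

noncomputable def dC1b_t1 : Tr := (.nd (.nd (.nd (.nd (.nd (.nd (.nd .leaf (nat_lit 46100) (nat_lit 1134) (.p (nat_lit 355) (nat_lit 1) (.p (nat_lit 357) (nat_lit 2) (.n (nat_lit 359) (nat_lit 3) (.n (nat_lit 360) (nat_lit 3) (.n (nat_lit 361) (nat_lit 2) (.p (nat_lit 362) (nat_lit 2) (.p (nat_lit 363) (nat_lit 1) (.p (nat_lit 364) (nat_lit 1) (.p (nat_lit 366) (nat_lit 2) (.n (nat_lit 367) (nat_lit 1) (.n (nat_lit 370) (nat_lit 3) (.p (nat_lit 372) (nat_lit 2) (.n (nat_lit 373) (nat_lit 2) (.n (nat_lit 374) (nat_lit 3) (.n (nat_lit 375) (nat_lit 1) (.n (nat_lit 382) (nat_lit 2) (.n (nat_lit 383) (nat_lit 3) (.p (nat_lit 384) (nat_lit 1) (.n (nat_lit 385) (nat_lit 2) (.n (nat_lit 386) (nat_lit 1) (.p (nat_lit 387) (nat_lit 2) (.p (nat_lit 388) (nat_lit 1) (.n (nat_lit 389) (nat_lit 3) (.n (nat_lit 390) (nat_lit 2) (.p (nat_lit 391) (nat_lit 2) (.p (nat_lit 392) (nat_lit 1) (.n (nat_lit 393) (nat_lit 3) (.n (nat_lit 394) (nat_lit 1) (.n (nat_lit 395) (nat_lit 1) (.n (nat_lit 396) (nat_lit 1) .z)))))))))))))))))))))))))))))) (.ct dC1b_c548 (nat_lit 1) (nat_lit 3) (.s false (nat_lit 1) (nat_lit 18) (nat_lit 7) (nat_lit 1) (nat_lit 2) true (nat_lit 3) true (nat_lit 17) true (nat_lit 5) true (nat_lit 12) true (nat_lit 18) (.e false (nat_lit 2) (nat_lit 242) (nat_lit 2) (nat_lit 17) (.e false (nat_lit 3) (nat_lit 212) (nat_lit 2) (nat_lit 17) (.e false (nat_lit 3) (nat_lit 213) (nat_lit 2) (nat_lit 17) (.e false (nat_lit 1) (nat_lit 215) (nat_lit 2) (nat_lit 17) (.e true (nat_lit 1) (nat_lit 216) (nat_lit 2) (nat_lit 17) (.e true (nat_lit 1) (nat_lit 217) (nat_lit 2) (nat_lit 17) (.e true (nat_lit 2) (nat_lit 218) (nat_lit 2) (nat_lit 17) (.e false (nat_lit 2) (nat_lit 219) (nat_lit 2) (nat_lit 17) dC1b_i26)))))))))) .leaf) (nat_lit 46101) (nat_lit 1056) (.n (nat_lit 355) (nat_lit 1) (.p (nat_lit 356) (nat_lit 3) (.n (nat_lit 357) (nat_lit 1) (.n (nat_lit 358) (nat_lit 3) (.p (nat_lit 360) (nat_lit 2) (.p (nat_lit 361) (nat_lit 1) (.n (nat_lit 362) (nat_lit 1) (.p (nat_lit 363) (nat_lit 1) (.p (nat_lit 364) (nat_lit 1) (.p (nat_lit 365) (nat_lit 3) (.n (nat_lit 366) (nat_lit 2) (.n (nat_lit 369) (nat_lit 3) (.n (nat_lit 372) (nat_lit 1) (.n (nat_lit 373) (nat_lit 3) (.p (nat_lit 374) (nat_lit 1) (.n (nat_lit 375) (nat_lit 3) (.n (nat_lit 381) (nat_lit 3) (.n (nat_lit 382) (nat_lit 2) (.p (nat_lit 384) (nat_lit 1) (.p (nat_lit 385) (nat_lit 1) (.p (nat_lit 386) (nat_lit 3) (.p (nat_lit 387) (nat_lit 2) (.p (nat_lit 389) (nat_lit 2) (.n (nat_lit 390) (nat_lit 1) (.p (nat_lit 391) (nat_lit 1) (.n (nat_lit 393) (nat_lit 3) (.p (nat_lit 395) (nat_lit 2) (.n (nat_lit 396) (nat_lit 1) (.n (nat_lit 404) (nat_lit 3) (.n (nat_lit 405) (nat_lit 1) (.p (nat_lit 406) (nat_lit 1) (.n (nat_lit 408) (nat_lit 1) (.n (nat_lit 409) (nat_lit 3) (.p (nat_lit 410) (nat_lit 3) .z)))))))))))))))))))))))))))))))))) (.ct dC1b_c548 (nat_lit 1) (nat_lit 3) (.s false (nat_lit 1) (nat_lit 18) (nat_lit 9) (nat_lit 1) (nat_lit 1) true (nat_lit 3) true (nat_lit 18) true (nat_lit 5) true (nat_lit 10) true (nat_lit 18) (.e false (nat_lit 1) (nat_lit 260) (nat_lit 1) (nat_lit 18) (.e true (nat_lit 1) (nat_lit 262) (nat_lit 1) (nat_lit 18) (.e false (nat_lit 2) (nat_lit 263) (nat_lit 1) (nat_lit 18) (.e true (nat_lit 3) (nat_lit 271) (nat_lit 1) (nat_lit 18) (.e false (nat_lit 1) (nat_lit 272) (nat_lit 1) (nat_lit 18) (.e true (nat_lit 1) (nat_lit 277) (nat_lit 1) (nat_lit 18) (.e false (nat_lit 1) (nat_lit 278) (nat_lit 1) (nat_lit 18) (.e true (nat_lit 3) (nat_lit 280) (nat_lit 1) (nat_lit 18) (.e false (nat_lit 3) (nat_lit 279) (nat_lit 1) (nat_lit 18) (.e true (nat_lit 1) (nat_lit 287) (nat_lit 1) (nat_lit 18) (.e false (nat_lit 3) (nat_lit 288) (nat_lit 1) (nat_lit 18) (.e false (nat_lit 3) (nat_lit 286) (nat_lit 1) (nat_lit 18) (.e true (nat_lit 1) (nat_lit 49) (nat_lit 18) (nat_lit 5) (.e true (nat_lit 2) (nat_lit 261) (nat_lit 1) (nat_lit 18) (.e true (nat_lit 3) (nat_lit 264) (nat_lit 1) (nat_lit 18) (.e true (nat_lit 2) (nat_lit 274) (nat_lit 1) (nat_lit 18) (.u (nat_lit 2) (.p (nat_lit 0) (nat_lit 1) (.p (nat_lit 2) (nat_lit 3) (.p (nat_lit 4) (nat_lit 1) (.p (nat_lit 6) (nat_lit 1) (.n (nat_lit 7) (nat_lit 1) (.n (nat_lit 8) (nat_lit 1) (.n (nat_lit 9) (nat_lit 1) (.p (nat_lit 10) (nat_lit 1) (.p (nat_lit 11) (nat_lit 3) (.n (nat_lit 12) (nat_lit 1) (.n (nat_lit 14) (nat_lit 1) (.n (nat_lit 15) (nat_lit 1) (.p (nat_lit 17) (nat_lit 1) (.n (nat_lit 18) (nat_lit 1) (.p (nat_lit 20) (nat_lit 3) (.p (nat_lit 26) (nat_lit 3) (.p (nat_lit 27) (nat_lit 1) (.p (nat_lit 29) (nat_lit 3) (.p (nat_lit 30) (nat_lit 1) (.n (nat_lit 31) (nat_lit 3) (.p (nat_lit 32) (nat_lit 2) (.n (nat_lit 33) (nat_lit 1) (.n (nat_lit 34) (nat_lit 1) (.p (nat_lit 35) (nat_lit 2) (.n (nat_lit 36) (nat_lit 2) (.p (nat_lit 37) (nat_lit 2) (.p (nat_lit 38) (nat_lit 2) (.n (nat_lit 39) (nat_lit 1) (.n (nat_lit 40) (nat_lit 1) (.p (nat_lit 41) (nat_lit 1) (.n (nat_lit 375) (nat_lit 1) (.p (nat_lit 377) (nat_lit 1) (.n (nat_lit 378) (nat_lit 1) (.p (nat_lit 382) (nat_lit 1) (.p (nat_lit 386) (nat_lit 1) (.n (nat_lit 387) (nat_lit 1) (.n (nat_lit 394) (nat_lit 1) (.p (nat_lit 402) (nat_lit 1) (.n (nat_lit 403) (nat_lit 1) .z))))))))))))))))))))))))))))))))))))))) .nil))))))))))))))))))) (.nd .leaf (nat_lit 46102) (nat_lit 1198) (.n (nat_lit 355) (nat_lit 2) (.n (nat_lit 356) (nat_lit 3) (.p (nat_lit 357) (nat_lit 3) (.n (nat_lit 358) (nat_lit 3) (.p (nat_lit 359) (nat_lit 3) (.n (nat_lit 360) (nat_lit 1) (.n (nat_lit 361) (nat_lit 3) (.p (nat_lit 362) (nat_lit 3) (.n (nat_lit 363) (nat_lit 3) (.p (nat_lit 364) (nat_lit 3) (.p (nat_lit 366) (nat_lit 2) (.n (nat_lit 367) (nat_lit 2) (.p (nat_lit 369) (nat_lit 3) (.p (nat_lit 370) (nat_lit 1) (.p (nat_lit 372) (nat_lit 1) (.n (nat_lit 373) (nat_lit 3) (.n (nat_lit 374) (nat_lit 3) (.p (nat_lit 375) (nat_lit 3) (.p (nat_lit 381) (nat_lit 2) (.p (nat_lit 382) (nat_lit 3) (.n (nat_lit 384) (nat_lit 1) (.n (nat_lit 385) (nat_lit 1) (.n (nat_lit 386) (nat_lit 3) (.p (nat_lit 387) (nat_lit 3) (.p (nat_lit 388) (nat_lit 3) (.p (nat_lit 389) (nat_lit 1) (.p (nat_lit 390) (nat_lit 1) (.n (nat_lit 391) (nat_lit 3) (.n (nat_lit 392) (nat_lit 2) (.n (nat_lit 393) (nat_lit 1) (.p (nat_lit 394) (nat_lit 1) (.n (nat_lit 395) (nat_lit 1) (.p (nat_lit 396) (nat_lit 2) .z))))))))))))))))))))))))))))))))) (.ct dC1b_c548 (nat_lit 1) (nat_lit 3) (.s true (nat_lit 1) (nat_lit 45) (nat_lit 0) (nat_lit 2) (nat_lit 3) true (nat_lit 12) true (nat_lit 16) false (nat_lit 3) true (nat_lit 19) true (nat_lit 17) (.e true (nat_lit 1) (nat_lit 104) (nat_lit 7) (nat_lit 12) dC1b_i27))) .leaf)) (nat_lit 46103) (nat_lit 1170) (.p (nat_lit 355) (nat_lit 2) (.p (nat_lit 356) (nat_lit 1) (.p (nat_lit 357) (nat_lit 2) (.n (nat_lit 358) (nat_lit 3) (.n (nat_lit 360) (nat_lit 3) (.p (nat_lit 361) (nat_lit 2) (.n (nat_lit 362) (nat_lit 2) (.p (nat_lit 363) (nat_lit 2) (.n (nat_lit 364) (nat_lit 2) (.n (nat_lit 365) (nat_lit 1) (.p (nat_lit 366) (nat_lit 2) (.n (nat_lit 367) (nat_lit 3) (.n (nat_lit 370) (nat_lit 2) (.p (nat_lit 372) (nat_lit 2) (.p (nat_lit 373) (nat_lit 1) (.p (nat_lit 374) (nat_lit 2) (.n (nat_lit 375) (nat_lit 1) (.n (nat_lit 381) (nat_lit 3) (.p (nat_lit 382) (nat_lit 1) (.n (nat_lit 383) (nat_lit 2) (.p (nat_lit 384) (nat_lit 1) (.n (nat_lit 385) (nat_lit 1) (.n (nat_lit 386) (nat_lit 2) (.p (nat_lit 387) (nat_lit 3) (.n (nat_lit 388) (nat_lit 2) (.p (nat_lit 389) (nat_lit 3) (.p (nat_lit 390) (nat_lit 3) (.n (nat_lit 391) (nat_lit 2) (.n (nat_lit 392) (nat_lit 3) (.n (nat_lit 393) (nat_lit 1) (.p (nat_lit 395) (nat_lit 3) (.p (nat_lit 396) (nat_lit 2) (.n (nat_lit 404) (nat_lit 3) (.n (nat_lit 405) (nat_lit 1) (.p (nat_lit 406) (nat_lit 1) (.n (nat_lit 408) (nat_lit 1) (.n (nat_lit 409) (nat_lit 3) (.p (nat_lit 410) (nat_lit 3) .z)))))))))))))))))))))))))))))))))))))) (.ct dC1b_c548 (nat_lit 1) (nat_lit 3) (.s true (nat_lit 1) (nat_lit 45) (nat_lit 0) (nat_lit 5) (nat_lit 0) false (nat_lit 20) true (nat_lit 19) false (nat_lit 3) true (nat_lit 19) true (nat_lit 14) (.e true (nat_lit 1) (nat_lit 290) (nat_lit 0) (nat_lit 19) (.e false (nat_lit 3) (nat_lit 291) (nat_lit 0) (nat_lit 19) (.e true (nat_lit 1) (nat_lit 292) (nat_lit 0) (nat_lit 19) (.e true (nat_lit 1) (nat_lit 293) (nat_lit 0) (nat_lit 19) (.e true (nat_lit 3) (nat_lit 295) (nat_lit 0) (nat_lit 19) (.e false (nat_lit 2) (nat_lit 298) (nat_lit 0) (nat_lit 19) (.e false (nat_lit 3) (nat_lit 299) (nat_lit 0) (nat_lit 19) (.e false (nat_lit 1) (nat_lit 300) (nat_lit 0) (nat_lit 19) (.e true (nat_lit 3) (nat_lit 302) (nat_lit 0) (nat_lit 19) (.e false (nat_lit 1) (nat_lit 304) (nat_lit 0) (nat_lit 19) (.e true (nat_lit 2) (nat_lit 305) (nat_lit 0) (nat_lit 19) (.e false (nat_lit 3) (nat_lit 307) (nat_lit 0) (nat_lit 19) (.e true (nat_lit 3) (nat_lit 308) (nat_lit 0) (nat_lit 19) (.e true (nat_lit 1) (nat_lit 310) (nat_lit 0) (nat_lit 19) (.e true (nat_lit 3) (nat_lit 316) (nat_lit 0) (nat_lit 19) (.e true (nat_lit 3) (nat_lit 318) (nat_lit 0) (nat_lit 19) dC1b_i28)))))))))))))))))) (.nd (.nd .leaf (nat_lit 46108) (nat_lit 1332) (.p (nat_lit 426) (nat_lit 3) (.n (nat_lit 427) (nat_lit 1) (.p (nat_lit 428) (nat_lit 3) (.n (nat_lit 429) (nat_lit 1) (.n (nat_lit 430) (nat_lit 2) (.p (nat_lit 431) (nat_lit 2) (.p (nat_lit 432) (nat_lit 3) (.p (nat_lit 433) (nat_lit 3) (.p (nat_lit 434) (nat_lit 2) (.n (nat_lit 436) (nat_lit 1) (.n (nat_lit 438) (nat_lit 2) (.n (nat_lit 439) (nat_lit 3) (.p (nat_lit 441) (nat_lit 3) (.n (nat_lit 442) (nat_lit 1) (.p (nat_lit 443) (nat_lit 3) (.p (nat_lit 444) (nat_lit 1) (.n (nat_lit 445) (nat_lit 2) (.p (nat_lit 456) (nat_lit 2) (.n (nat_lit 459) (nat_lit 1) .z))))))))))))))))))) (.ct dC1b_c533 (nat_lit 1) (nat_lit 1) (.s false (nat_lit 1) (nat_lit 18) (nat_lit 2) (nat_lit 1) (nat_lit 9) true (nat_lit 1) true (nat_lit 7) true (nat_lit 3) true (nat_lit 13) true (nat_lit 14) (.s false (nat_lit 1) (nat_lit 18) (nat_lit 9) (nat_lit 2) (nat_lit 1) true (nat_lit 2) true (nat_lit 14) true (nat_lit 3) true (nat_lit 7) true (nat_lit 13) (.e true (nat_lit 1) (nat_lit 55) (nat_lit 18) (nat_lit 3) (.e true (nat_lit 1) (nat_lit 57) (nat_lit 18) (nat_lit 3) (.e true (nat_lit 2) (nat_lit 59) (nat_lit 18) (nat_lit 3) (.e true (nat_lit 3) (nat_lit 60) (nat_lit 18) (nat_lit 3) (.e true (nat_lit 3) (nat_lit 61) (nat_lit 18) (nat_lit 3) (.e true (nat_lit 1) (nat_lit 62) (nat_lit 18) (nat_lit 3) (.e true (nat_lit 1) (nat_lit 63) (nat_lit 18) (nat_lit 3) (.e false (nat_lit 3) (nat_lit 64) (nat_lit 18) (nat_lit 3) (.e true (nat_lit 2) (nat_lit 65) (nat_lit 18) (nat_lit 3) dC1b_i29)))))))))))) .leaf) (nat_lit 46110) (nat_lit 1375) (.n (nat_lit 426) (nat_lit 3) (.p (nat_lit 427) (nat_lit 3) (.p (nat_lit 428) (nat_lit 3) (.p (nat_lit 429) (nat_lit 2) (.p (nat_lit 430) (nat_lit 3) (.p (nat_lit 431) (nat_lit 3) (.p (nat_lit 432) (nat_lit 3) (.p (nat_lit 433) (nat_lit 3) (.p (nat_lit 434) (nat_lit 1) (.p (nat_lit 436) (nat_lit 2) (.n (nat_lit 438) (nat_lit 3) (.n (nat_lit 441) (nat_lit 3) (.n (nat_lit 442) (nat_lit 2) (.n (nat_lit 443) (nat_lit 3) (.n (nat_lit 444) (nat_lit 1) (.n (nat_lit 445) (nat_lit 2) (.p (nat_lit 456) (nat_lit 1) (.p (nat_lit 459) (nat_lit 3) .z)))))))))))))))))) (.ct dC1b_c533 (nat_lit 1) (nat_lit 1) dC1b_i30) .leaf)) (nat_lit 46111) (nat_lit 1469) (.p (nat_lit 461) (nat_lit 1) (.n (nat_lit 462) (nat_lit 2) (.n (nat_lit 464) (nat_lit 1) (.p (nat_lit 465) (nat_lit 2) (.p (nat_lit 467) (nat_lit 1) (.n (nat_lit 468) (nat_lit 1) (.n (nat_lit 469) (nat_lit 3) (.n (nat_lit 470) (nat_lit 3) (.n (nat_lit 472) (nat_lit 3) (.n (nat_lit 473) (nat_lit 1) (.n (nat_lit 474) (nat_lit 1) (.n (nat_lit 475) (nat_lit 3) (.p (nat_lit 476) (nat_lit 3) (.p (nat_lit 477) (nat_lit 1) (.p (nat_lit 479) (nat_lit 2) (.p (nat_lit 489) (nat_lit 2) (.n (nat_lit 493) (nat_lit 1) .z))))))))))))))))) (.ct dC1b_c293 (nat_lit 1) (nat_lit 1) (.s true (nat_lit 1) (nat_lit 31) (nat_lit 2) (nat_lit 1) (nat_lit 6) true (nat_lit 3) true (nat_lit 9) true (nat_lit 1) true (nat_lit 13) true (nat_lit 14) (.e true (nat_lit 1) (nat_lit 70) (nat_lit 18) (nat_lit 3) (.e true (nat_lit 1) (nat_lit 164) (nat_lit 6) (nat_lit 9) (.e true (nat_lit 1) (nat_lit 44) (nat_lit 31) (nat_lit 1) (.e false (nat_lit 1) (nat_lit 291) (nat_lit 2) (nat_lit 13) (.e false (nat_lit 3) (nat_lit 294) (nat_lit 2) (nat_lit 13) (.e true (nat_lit 1) (nat_lit 299) (nat_lit 2) (nat_lit 13) (.e false (nat_lit 1) (nat_lit 301) (nat_lit 2) (nat_lit 13) (.e true (nat_lit 1) (nat_lit 304) (nat_lit 2) (nat_lit 13) (.e true (nat_lit 1) (nat_lit 308) (nat_lit 2) (nat_lit 13) (.e true (nat_lit 1) (nat_lit 311) (nat_lit 2) (nat_lit 13) (.e true (nat_lit 1) (nat_lit 319) (nat_lit 2) (nat_lit 13) (.e false (nat_lit 1) (nat_lit 336) (nat_lit 1) (nat_lit 14) (.u (nat_lit 2) (.p (nat_lit 0) (nat_lit 1) (.n (nat_lit 1) (nat_lit 1) (.n (nat_lit 2) (nat_lit 1) (.p (nat_lit 3) (nat_lit 1) (.n (nat_lit 4) (nat_lit 1) (.p (nat_lit 6) (nat_lit 1) (.p (nat_lit 8) (nat_lit 1) (.p (nat_lit 9) (nat_lit 1) (.n (nat_lit 11) (nat_lit 1) (.p (nat_lit 12) (nat_lit 1) (.n (nat_lit 13) (nat_lit 1) (.n (nat_lit 14) (nat_lit 1) (.p (nat_lit 15) (nat_lit 1) (.n (nat_lit 16) (nat_lit 1) (.p (nat_lit 19) (nat_lit 1) (.n (nat_lit 29) (nat_lit 1) .z)))))))))))))))) .nil))))))))))))))) (.nd (.nd (.nd .leaf (nat_lit 46112) (nat_lit 1515) (.p (nat_lit 460) (nat_lit 2) (.p (nat_lit 461) (nat_lit 1) (.p (nat_lit 462) (nat_lit 1) (.p (nat_lit 463) (nat_lit 3) (.n (nat_lit 464) (nat_lit 3) (.p (nat_lit 465) (nat_lit 1) (.p (nat_lit 467) (nat_lit 1) (.p (nat_lit 468) (nat_lit 1) (.n (nat_lit 469) (nat_lit 3) (.n (nat_lit 470) (nat_lit 1) (.n (nat_lit 471) (nat_lit 1) (.n (nat_lit 472) (nat_lit 3) (.n (nat_lit 473) (nat_lit 1) (.n (nat_lit 474) (nat_lit 1) (.n (nat_lit 475) (nat_lit 1) (.n (nat_lit 476) (nat_lit 1) (.p (nat_lit 477) (nat_lit 3) (.p (nat_lit 479) (nat_lit 3) (.p (nat_lit 489) (nat_lit 1) (.p (nat_lit 493) (nat_lit 3) .z)))))))))))))))))))) (.ct dC1b_c293 (nat_lit 1) (nat_lit 1) (.s true (nat_lit 1) (nat_lit 18) (nat_lit 6) (nat_lit 1) (nat_lit 3) true (nat_lit 1) true (nat_lit 12) true (nat_lit 3) true (nat_lit 9) true (nat_lit 14) (.e false (nat_lit 1) (nat_lit 45) (nat_lit 33) (nat_lit 1) (.e true (nat_lit 1) (nat_lit 45) (nat_lit 34) (nat_lit 1) (.e false (nat_lit 1) (nat_lit 45) (nat_lit 36) (nat_lit 1) (.e true (nat_lit 2) (nat_lit 66) (nat_lit 18) (nat_lit 3) (.e false (nat_lit 1) (nat_lit 68) (nat_lit 18) (nat_lit 3) (.e true (nat_lit 1) (nat_lit 69) (nat_lit 18) (nat_lit 3) (.e false (nat_lit 1) (nat_lit 70) (nat_lit 18) (nat_lit 3) (.e false (nat_lit 1) (nat_lit 75) (nat_lit 18) (nat_lit 3) (.e true (nat_lit 1) (nat_lit 161) (nat_lit 6) (nat_lit 9) (.e false (nat_lit 1) (nat_lit 170) (nat_lit 6) (nat_lit 9) (.e true (nat_lit 1) (nat_lit 329) (nat_lit 1) (nat_lit 14) (.e false (nat_lit 1) (nat_lit 330) (nat_lit 1) (nat_lit 14) (.e true (nat_lit 1) (nat_lit 331) (nat_lit 1) (nat_lit 14) (.e false (nat_lit 1) (nat_lit 333) (nat_lit 1) (nat_lit 14) (.e false (nat_lit 3) (nat_lit 336) (nat_lit 1) (nat_lit 14) (.e true (nat_lit 3) (nat_lit 337) (nat_lit 1) (nat_lit 14) (.e false (nat_lit 3) (nat_lit 338) (nat_lit 1) (nat_lit 14) (.e false (nat_lit 1) (nat_lit 340) (nat_lit 1) (nat_lit 14) (.e true (nat_lit 1) (nat_lit 341) (nat_lit 1) (nat_lit 14) (.u (nat_lit 2) (.n (nat_lit 3) (nat_lit 2) (.p (nat_lit 4) (nat_lit 1) (.n (nat_lit 5) (nat_lit 1) (.n (nat_lit 7) (nat_lit 1) (.p (nat_lit 10) (nat_lit 2) (.p (nat_lit 11) (nat_lit 2) (.p (nat_lit 13) (nat_lit 1) (.p (nat_lit 14) (nat_lit 1) (.p (nat_lit 15) (nat_lit 1) (.n (nat_lit 16) (nat_lit 1) (.n (nat_lit 33) (nat_lit 1) (.n (nat_lit 205) (nat_lit 1) (.p (nat_lit 206) (nat_lit 1) (.n (nat_lit 211) (nat_lit 1) .z)))))))))))))) .nil)))))))))))))))))))))) .leaf) (nat_lit 46113) (nat_lit 1514) (.p (nat_lit 460) (nat_lit 1) (.n (nat_lit 461) (nat_lit 1) (.n (nat_lit 462) (nat_lit 2) (.n (nat_lit 463) (nat_lit 2) (.p (nat_lit 465) (nat_lit 3) (.p (nat_lit 467) (nat_lit 1) (.n (nat_lit 468) (nat_lit 2) (.n (nat_lit 472) (nat_lit 3) (.p (nat_lit 473) (nat_lit 3) (.p (nat_lit 474) (nat_lit 3) (.p (nat_lit 475) (nat_lit 3) (.n (nat_lit 476) (nat_lit 2) (.n (nat_lit 479) (nat_lit 2) (.p (nat_lit 489) (nat_lit 1) (.p (nat_lit 493) (nat_lit 3) .z))))))))))))))) (.ct dC1b_c293 (nat_lit 1) (nat_lit 1) (.s false (nat_lit 1) (nat_lit 18) (nat_lit 0) (nat_lit 5) (nat_lit 5) true (nat_lit 7) true (nat_lit 10) true (nat_lit 3) true (nat_lit 15) true (nat_lit 10) (.s false (nat_lit 1) (nat_lit 18) (nat_lit 2) (nat_lit 1) (nat_lit 12) true (nat_lit 1) true (nat_lit 7) true (nat_lit 3) true (nat_lit 13) true (nat_lit 14) (.e true (nat_lit 1) (nat_lit 104) (nat_lit 12) (nat_lit 7) (.e true (nat_lit 1) (nat_lit 180) (nat_lit 5) (nat_lit 10) (.e true (nat_lit 1) (nat_lit 181) (nat_lit 5) (nat_lit 10) (.e false (nat_lit 2) (nat_lit 183) (nat_lit 5) (nat_lit 10) (.e false (nat_lit 1) (nat_lit 184) (nat_lit 5) (nat_lit 10) (.e false (nat_lit 1) (nat_lit 185) (nat_lit 5) (nat_lit 10) (.e false (nat_lit 2) (nat_lit 186) (nat_lit 5) (nat_lit 10) (.e false (nat_lit 2) (nat_lit 187) (nat_lit 5) (nat_lit 10) (.e true (nat_lit 3) (nat_lit 189) (nat_lit 5) (nat_lit 10) (.e true (nat_lit 2) (nat_lit 190) (nat_lit 5) (nat_lit 10) (.e false (nat_lit 1) (nat_lit 194) (nat_lit 5) (nat_lit 10) dC1b_i31)))))))))))))) .leaf) (nat_lit 46114) (nat_lit 1494) (.p (nat_lit 461) (nat_lit 1) (.n (nat_lit 462) (nat_lit 3) (.n (nat_lit 464) (nat_lit 1) (.p (nat_lit 465) (nat_lit 3) (.p (nat_lit 467) (nat_lit 2) (.n (nat_lit 468) (nat_lit 3) (.p (nat_lit 469) (nat_lit 1) (.n (nat_lit 470) (nat_lit 3) (.n (nat_lit 471) (nat_lit 2) (.n (nat_lit 472) (nat_lit 2) (.p (nat_lit 473) (nat_lit 2) (.p (nat_lit 474) (nat_lit 2) (.p (nat_lit 475) (nat_lit 1) (.p (nat_lit 476) (nat_lit 2) (.n (nat_lit 477) (nat_lit 2) (.p (nat_lit 489) (nat_lit 3) (.p (nat_lit 493) (nat_lit 2) .z))))))))))))))))) (.ct dC1b_c293 (nat_lit 1) (nat_lit 1) (.s false (nat_lit 1) (nat_lit 18) (nat_lit 14) (nat_lit 1) (nat_lit 1) true (nat_lit 1) true (nat_lit 14) true (nat_lit 3) true (nat_lit 5) true (nat_lit 14) (.e true (nat_lit 2) (nat_lit 328) (nat_lit 1) (nat_lit 14) (.e false (nat_lit 2) (nat_lit 329) (nat_lit 1) (nat_lit 14) (.e true (nat_lit 2) (nat_lit 330) (nat_lit 1) (nat_lit 14) (.e true (nat_lit 2) (nat_lit 331) (nat_lit 1) (nat_lit 14) (.e false (nat_lit 2) (nat_lit 332) (nat_lit 1) (nat_lit 14) (.e true (nat_lit 3) (nat_lit 333) (nat_lit 1) (nat_lit 14) (.e false (nat_lit 1) (nat_lit 334) (nat_lit 1) (nat_lit 14) (.e false (nat_lit 1) (nat_lit 335) (nat_lit 1) (nat_lit 14) (.e true (nat_lit 2) (nat_lit 336) (nat_lit 1) (nat_lit 14) (.e true (nat_lit 1) (nat_lit 338) (nat_lit 1) (nat_lit 14) (.e true (nat_lit 3) (nat_lit 340) (nat_lit 1) (nat_lit 14) (.e false (nat_lit 1) (nat_lit 72) (nat_lit 18) (nat_lit 3) (.e false (nat_lit 1) (nat_lit 337) (nat_lit 1) (nat_lit 14) (.e true (nat_lit 1) (nat_lit 345) (nat_lit 1) (nat_lit 14) (.u (nat_lit 2) (.p (nat_lit 2) (nat_lit 1) (.n (nat_lit 7) (nat_lit 1) (.p (nat_lit 8) (nat_lit 1) (.n (nat_lit 9) (nat_lit 1) (.p (nat_lit 11) (nat_lit 1) (.p (nat_lit 17) (nat_lit 1) (.n (nat_lit 204) (nat_lit 1) (.p (nat_lit 206) (nat_lit 1) (.p (nat_lit 213) (nat_lit 1) (.p (nat_lit 215) (nat_lit 1) .z)))))))))) .nil))))))))))))))))) (.nd (.nd .leaf (nat_lit 46115) (nat_lit 1512) (.p (nat_lit 461) (nat_lit 2) (.n (nat_lit 462) (nat_lit 2) (.n (nat_lit 464) (nat_lit 2) (.p (nat_lit 465) (nat_lit 2) (.n (nat_lit 467) (nat_lit 3) (.n (nat_lit 468) (nat_lit 2) (.p (nat_lit 469) (nat_lit 2) (.n (nat_lit 470) (nat_lit 1) (.p (nat_lit 471) (nat_lit 3) (.n (nat_lit 472) (nat_lit 3) (.n (nat_lit 473) (nat_lit 2) (.n (nat_lit 474) (nat_lit 2) (.p (nat_lit 475) (nat_lit 2) (.n (nat_lit 476) (nat_lit 2) (.p (nat_lit 477) (nat_lit 2) (.p (nat_lit 479) (nat_lit 1) (.p (nat_lit 489) (nat_lit 1) (.p (nat_lit 493) (nat_lit 3) .z)))))))))))))))))) (.ct dC1b_c293 (nat_lit 1) (nat_lit 1) (.s false (nat_lit 1) (nat_lit 18) (nat_lit 15) (nat_lit 1) (nat_lit 1) true (nat_lit 1) true (nat_lit 14) true (nat_lit 3) true (nat_lit 5) true (nat_lit 14) (.e false (nat_lit 2) (nat_lit 328) (nat_lit 1) (nat_lit 14) (.e false (nat_lit 1) (nat_lit 330) (nat_lit 1) (nat_lit 14) (.e true (nat_lit 3) (nat_lit 332) (nat_lit 1) (nat_lit 14) (.e true (nat_lit 2) (nat_lit 334) (nat_lit 1) (nat_lit 14) (.e true (nat_lit 2) (nat_lit 335) (nat_lit 1) (nat_lit 14) (.e false (nat_lit 1) (nat_lit 336) (nat_lit 1) (nat_lit 14) (.e true (nat_lit 2) (nat_lit 337) (nat_lit 1) (nat_lit 14) (.e true (nat_lit 3) (nat_lit 338) (nat_lit 1) (nat_lit 14) (.e false (nat_lit 2) (nat_lit 340) (nat_lit 1) (nat_lit 14) (.e true (nat_lit 1) (nat_lit 341) (nat_lit 1) (nat_lit 14) (.e true (nat_lit 2) (nat_lit 66) (nat_lit 18) (nat_lit 3) (.e true (nat_lit 1) (nat_lit 67) (nat_lit 18) (nat_lit 3) (.e true (nat_lit 1) (nat_lit 69) (nat_lit 18) (nat_lit 3) (.e false (nat_lit 1) (nat_lit 71) (nat_lit 18) (nat_lit 3) (.e false (nat_lit 2) (nat_lit 72) (nat_lit 18) (nat_lit 3) (.e false (nat_lit 1) (nat_lit 74) (nat_lit 18) (nat_lit 3) (.e true (nat_lit 1) (nat_lit 76) (nat_lit 18) (nat_lit 3) (.e true (nat_lit 3) (nat_lit 329) (nat_lit 1) (nat_lit 14) (.e false (nat_lit 1) (nat_lit 333) (nat_lit 1) (nat_lit 14) (.e false (nat_lit 1) (nat_lit 344) (nat_lit 1) (nat_lit 14) (.e true (nat_lit 1) (nat_lit 346) (nat_lit 1) (nat_lit 14) (.u (nat_lit 2) (.n (nat_lit 0) (nat_lit 1) (.p (nat_lit 2) (nat_lit 3) (.n (nat_lit 3) (nat_lit 2) (.p (nat_lit 5) (nat_lit 1) (.p (nat_lit 7) (nat_lit 1) (.p (nat_lit 8) (nat_lit 1) (.n (nat_lit 9) (nat_lit 1) (.p (nat_lit 10) (nat_lit 1) (.n (nat_lit 12) (nat_lit 1) (.n (nat_lit 13) (nat_lit 1) (.n (nat_lit 14) (nat_lit 1) (.p (nat_lit 17) (nat_lit 1) (.p (nat_lit 19) (nat_lit 1) (.n (nat_lit 33) (nat_lit 1) (.p (nat_lit 212) (nat_lit 1) (.n (nat_lit 215) (nat_lit 1) .z)))))))))))))))) .nil)))))))))))))))))))))))) .leaf) (nat_lit 46116) (nat_lit 1496) (.p (nat_lit 460) (nat_lit 2) (.p (nat_lit 461) (nat_lit 3) (.n (nat_lit 462) (nat_lit 3) (.p (nat_lit 463) (nat_lit 3) (.p (nat_lit 464) (nat_lit 2) (.n (nat_lit 465) (nat_lit 2) (.n (nat_lit 467) (nat_lit 2) (.n (nat_lit 468) (nat_lit 2) (.n (nat_lit 469) (nat_lit 2) (.p (nat_lit 470) (nat_lit 3) (.p (nat_lit 471) (nat_lit 1) (.n (nat_lit 472) (nat_lit 1) (.p (nat_lit 473) (nat_lit 3) (.p (nat_lit 474) (nat_lit 3) (.p (nat_lit 476) (nat_lit 2) (.n (nat_lit 477) (nat_lit 1) (.p (nat_lit 479) (nat_lit 3) .z))))))))))))))))) (.ct dC1b_c293 (nat_lit 1) (nat_lit 1) (.s false (nat_lit 3) (nat_lit 18) (nat_lit 1) (nat_lit 1) (nat_lit 15) true (nat_lit 1) true (nat_lit 5) true (nat_lit 3) true (nat_lit 14) true (nat_lit 14) (.s true (nat_lit 3) (nat_lit 45) (nat_lit 2) (nat_lit 2) (nat_lit 3) true (nat_lit 7) true (nat_lit 12) false (nat_lit 1) true (nat_lit 13) true (nat_lit 13) (.s false (nat_lit 3) (nat_lit 45) (nat_lit 6) (nat_lit 1) (nat_lit 0) true (nat_lit 5) true (nat_lit 15) false (nat_lit 1) true (nat_lit 9) true (nat_lit 14) (.e true (nat_lit 2) (nat_lit 328) (nat_lit 1) (nat_lit 14) (.e false (nat_lit 1) (nat_lit 330) (nat_lit 1) (nat_lit 14) (.e false (nat_lit 3) (nat_lit 331) (nat_lit 1) (nat_lit 14) (.e false (nat_lit 2) (nat_lit 332) (nat_lit 1) (nat_lit 14) (.e false (nat_lit 3) (nat_lit 333) (nat_lit 1) (nat_lit 14) (.e true (nat_lit 3) (nat_lit 334) (nat_lit 1) (nat_lit 14) (.e true (nat_lit 3) (nat_lit 335) (nat_lit 1) (nat_lit 14) (.e false (nat_lit 3) (nat_lit 336) (nat_lit 1) (nat_lit 14) (.e true (nat_lit 1) (nat_lit 337) (nat_lit 1) (nat_lit 14) (.e true (nat_lit 2) (nat_lit 338) (nat_lit 1) (nat_lit 14) (.e false (nat_lit 2) (nat_lit 340) (nat_lit 1) (nat_lit 14) (.e false (nat_lit 3) (nat_lit 104) (nat_lit 10) (nat_lit 7) (.e true (nat_lit 3) (nat_lit 209) (nat_lit 3) (nat_lit 12) dC1b_i32))))))))))))))))) .leaf))) (nat_lit 47104) (nat_lit 154) (.p (nat_lit 99) (nat_lit 1) (.n (nat_lit 101) (nat_lit 1) .z)) (.ct dC1b_c260 (nat_lit 1) (nat_lit 3) (.s true (nat_lit 1) (nat_lit 6) (nat_lit 2) (nat_lit 0) (nat_lit 2) true (nat_lit 0) true (nat_lit 2) true (nat_lit 0) true (nat_lit 2) true (nat_lit 3) (.e false (nat_lit 1) (nat_lit 15) (nat_lit 6) (nat_lit 0) (.e true (nat_lit 2) (nat_lit 42) (nat_lit 2) (nat_lit 2) (.e true (nat_lit 1) (nat_lit 14) (nat_lit 6) (nat_lit 0) (.e true (nat_lit 1) (nat_lit 41) (nat_lit 2) (nat_lit 2) .nil)))))) (.nd (.nd (.nd (.nd .leaf (nat_lit 47105) (nat_lit 161) (.p (nat_lit 103) (nat_lit 1) (.n (nat_lit 105) (nat_lit 1) .z)) (.ct dC1b_c20 (nat_lit 1) (nat_lit 3) (.s true (nat_lit 1) (nat_lit 6) (nat_lit 2) (nat_lit 1) (nat_lit 2) true (nat_lit 0) true (nat_lit 2) true (nat_lit 0) true (nat_lit 2) true (nat_lit 3) (.e false (nat_lit 1) (nat_lit 17) (nat_lit 6) (nat_lit 0) (.e true (nat_lit 2) (nat_lit 45) (nat_lit 2) (nat_lit 2) (.e true (nat_lit 1) (nat_lit 16) (nat_lit 6) (nat_lit 0) (.e true (nat_lit 1) (nat_lit 44) (nat_lit 2) (nat_lit 2) .nil)))))) .leaf) (nat_lit 47106) (nat_lit 162) (.p (nat_lit 106) (nat_lit 1) .z) .df .leaf) (nat_lit 47107) (nat_lit 374) (.n (nat_lit 181) (nat_lit 1) (.p (nat_lit 182) (nat_lit 1) (.n (nat_lit 183) (nat_lit 1) (.p (nat_lit 185) (nat_lit 1) (.p (nat_lit 192) (nat_lit 1) .z))))) (.ct dC1b_c276 (nat_lit 1) (nat_lit 5) (.s true (nat_lit 1) (nat_lit 18) (nat_lit 0) (nat_lit 2) (nat_lit 1) true (nat_lit 5) true (nat_lit 7) false (nat_lit 1) true (nat_lit 8) true (nat_lit 6) (.e true (nat_lit 1) (nat_lit 100) (nat_lit 1) (nat_lit 7) (.e true (nat_lit 1) (nat_lit 18) (nat_lit 11) (nat_lit 1) (.e true (nat_lit 1) (nat_lit 103) (nat_lit 0) (nat_lit 8) (.e true (nat_lit 1) (nat_lit 104) (nat_lit 0) (nat_lit 8) (.e false (nat_lit 1) (nat_lit 105) (nat_lit 0) (nat_lit 8) (.e false (nat_lit 2) (nat_lit 84) (nat_lit 2) (nat_lit 6) (.e true (nat_lit 1) (nat_lit 86) (nat_lit 2) (nat_lit 6) (.e false (nat_lit 2) (nat_lit 87) (nat_lit 2) (nat_lit 6) (.e false (nat_lit 1) (nat_lit 90) (nat_lit 2) (nat_lit 6) (.e true (nat_lit 1) (nat_lit 92) (nat_lit 2) (nat_lit 6) (.u (nat_lit 2) (.n (nat_lit 4) (nat_lit 1) (.n (nat_lit 5) (nat_lit 1) .z)) .nil))))))))))))) (.nd (.nd .leaf (nat_lit 47108) (nat_lit 403) (.p (nat_lit 204) (nat_lit 1) (.n (nat_lit 205) (nat_lit 1) (.p (nat_lit 206) (nat_lit 1) .z))) (.ct dC1b_c261 (nat_lit 1) (nat_lit 2) (.s true (nat_lit 2) (nat_lit 18) (nat_lit 0) (nat_lit 2) (nat_lit 2) true (nat_lit 2) true (nat_lit 3) false (nat_lit 0) true (nat_lit 4) true (nat_lit 3) (.s true (nat_lit 2) (nat_lit 18) (nat_lit 2) (nat_lit 0) (nat_lit 2) true (nat_lit 1) true (nat_lit 3) false (nat_lit 0) true (nat_lit 3) true (nat_lit 4) (.s false (nat_lit 1) (nat_lit 18) (nat_lit 2) (nat_lit 2) (nat_lit 0) true (nat_lit 2) true (nat_lit 4) false (nat_lit 0) true (nat_lit 3) true (nat_lit 3) (.e false (nat_lit 1) (nat_lit 100) (nat_lit 2) (nat_lit 3) (.e false (nat_lit 2) (nat_lit 42) (nat_lit 6) (nat_lit 1) (.e true (nat_lit 1) (nat_lit 106) (nat_lit 0) (nat_lit 4) (.e true (nat_lit 1) (nat_lit 18) (nat_lit 15) (nat_lit 0) (.u (nat_lit 2) (.n (nat_lit 12) (nat_lit 1) (.n (nat_lit 13) (nat_lit 1) (.p (nat_lit 14) (nat_lit 1) .z))) .nil))))))))) .leaf) (nat_lit 47109) (nat_lit 414) (.p (nat_lit 209) (nat_lit 1) (.n (nat_lit 210) (nat_lit 1) (.p (nat_lit 211) (nat_lit 1) .z))) (.ct dC1b_c21 (nat_lit 1) (nat_lit 2) (.s true (nat_lit 2) (nat_lit 18) (nat_lit 1) (nat_lit 2) (nat_lit 2) true (nat_lit 2) true (nat_lit 3) false (nat_lit 0) true (nat_lit 4) true (nat_lit 3) (.s true (nat_lit 2) (nat_lit 18) (nat_lit 2) (nat_lit 1) (nat_lit 2) true (nat_lit 1) true (nat_lit 3) false (nat_lit 0) true (nat_lit 3) true (nat_lit 4) (.s false (nat_lit 1) (nat_lit 18) (nat_lit 2) (nat_lit 2) (nat_lit 1) true (nat_lit 2) true (nat_lit 4) false (nat_lit 0) true (nat_lit 3) true (nat_lit 3) (.e false (nat_lit 1) (nat_lit 104) (nat_lit 2) (nat_lit 3) (.e false (nat_lit 2) (nat_lit 45) (nat_lit 6) (nat_lit 1) (.e true (nat_lit 1) (nat_lit 106) (nat_lit 1) (nat_lit 4) (.e true (nat_lit 1) (nat_lit 18) (nat_lit 17) (nat_lit 0) (.u (nat_lit 2) (.n (nat_lit 12) (nat_lit 1) (.n (nat_lit 13) (nat_lit 1) (.p (nat_lit 14) (nat_lit 1) .z))) .nil))))))))) .leaf)) (nat_lit 47111) (nat_lit 608) (.n (nat_lit 270) (nat_lit 1) (.p (nat_lit 286) (nat_lit 1) .z)) (.ct dC1b_c532 (nat_lit 1) (nat_lit 5) (.s false (nat_lit 1) (nat_lit 7) (nat_lit 2) (nat_lit 6) (nat_lit 2) true (nat_lit 6) true (nat_lit 10) true (nat_lit 5) true (nat_lit 10) true (nat_lit 6) (.e true (nat_lit 1) (nat_lit 65) (nat_lit 6) (nat_lit 6) (.e false (nat_lit 2) (nat_lit 149) (nat_lit 2) (nat_lit 10) (.e true (nat_lit 1) (nat_lit 142) (nat_lit 2) (nat_lit 10) (.e false (nat_lit 1) (nat_lit 55) (nat_lit 6) (nat_lit 6) .nil)))))) (.nd (.nd (.nd .leaf (nat_lit 47112) (nat_lit 718) (.n (nat_lit 298) (nat_lit 1) (.p (nat_lit 316) (nat_lit 1) .z)) (.ct dC1b_c292 (nat_lit 1) (nat_lit 5) (.s false (nat_lit 1) (nat_lit 8) (nat_lit 2) (nat_lit 6) (nat_lit 2) true (nat_lit 6) true (nat_lit 10) true (nat_lit 5) true (nat_lit 10) true (nat_lit 6) (.e true (nat_lit 1) (nat_lit 74) (nat_lit 6) (nat_lit 6) (.e false (nat_lit 2) (nat_lit 170) (nat_lit 2) (nat_lit 10) (.e true (nat_lit 1) (nat_lit 161) (nat_lit 2) (nat_lit 10) (.e false (nat_lit 1) (nat_lit 66) (nat_lit 6) (nat_lit 6) .nil)))))) .leaf) (nat_lit 47113) (nat_lit 808) (.p (nat_lit 321) (nat_lit 3) (.n (nat_lit 322) (nat_lit 2) (.p (nat_lit 323) (nat_lit 3) (.n (nat_lit 325) (nat_lit 2) (.p (nat_lit 326) (nat_lit 1) .z))))) (.ct dC1b_c517 (nat_lit 1) (nat_lit 2) (.s false (nat_lit 1) (nat_lit 9) (nat_lit 2) (nat_lit 6) (nat_lit 2) true (nat_lit 3) true (nat_lit 5) true (nat_lit 2) true (nat_lit 5) true (nat_lit 3) (.e true (nat_lit 1) (nat_lit 78) (nat_lit 6) (nat_lit 3) (.e false (nat_lit 1) (nat_lit 79) (nat_lit 6) (nat_lit 3) (.e true (nat_lit 1) (nat_lit 81) (nat_lit 6) (nat_lit 3) (.e true (nat_lit 1) (nat_lit 175) (nat_lit 2) (nat_lit 5) (.e true (nat_lit 3) (nat_lit 176) (nat_lit 2) (nat_lit 5) (.e true (nat_lit 3) (nat_lit 177) (nat_lit 2) (nat_lit 5) (.e true (nat_lit 2) (nat_lit 178) (nat_lit 2) (nat_lit 5) (.u (nat_lit 2) (.n (nat_lit 3) (nat_lit 1) (.p (nat_lit 29) (nat_lit 1) .z)) .nil)))))))))) .leaf) (nat_lit 47114) (nat_lit 853) (.n (nat_lit 328) (nat_lit 3) (.p (nat_lit 329) (nat_lit 2) (.n (nat_lit 330) (nat_lit 2) (.n (nat_lit 331) (nat_lit 1) (.p (nat_lit 332) (nat_lit 2) (.p (nat_lit 333) (nat_lit 3) (.p (nat_lit 334) (nat_lit 1) (.p (nat_lit 335) (nat_lit 1) (.n (nat_lit 336) (nat_lit 1) (.n (nat_lit 337) (nat_lit 2) (.n (nat_lit 340) (nat_lit 1) (.p (nat_lit 344) (nat_lit 1) (.n (nat_lit 345) (nat_lit 1) .z))))))))))))) (.ct dC1b_c277 (nat_lit 1) (nat_lit 3) (.s false (nat_lit 1) (nat_lit 10) (nat_lit 2) (nat_lit 6) (nat_lit 2) true (nat_lit 4) true (nat_lit 8) true (nat_lit 3) true (nat_lit 8) true (nat_lit 4) (.e true (nat_lit 1) (nat_lit 90) (nat_lit 6) (nat_lit 4) (.e false (nat_lit 2) (nat_lit 192) (nat_lit 2) (nat_lit 8) (.e true (nat_lit 1) (nat_lit 188) (nat_lit 2) (nat_lit 8) (.e false (nat_lit 1) (nat_lit 82) (nat_lit 6) (nat_lit 4) .nil)))))) (.nd (.nd .leaf (nat_lit 47115) (nat_lit 844) (.n (nat_lit 337) (nat_lit 1) (.p (nat_lit 345) (nat_lit 1) .z)) (.ct dC1b_c277 (nat_lit 1) (nat_lit 3) (.s false (nat_lit 1) (nat_lit 11) (nat_lit 2) (nat_lit 6) (nat_lit 2) true (nat_lit 4) true (nat_lit 8) true (nat_lit 3) true (nat_lit 8) true (nat_lit 4) (.e true (nat_lit 1) (nat_lit 91) (nat_lit 6) (nat_lit 4) (.e false (nat_lit 2) (nat_lit 193) (nat_lit 2) (nat_lit 8) (.e true (nat_lit 1) (nat_lit 189) (nat_lit 2) (nat_lit 8) (.e false (nat_lit 1) (nat_lit 83) (nat_lit 6) (nat_lit 4) .nil)))))) .leaf) (nat_lit 47116) (nat_lit 846) (.n (nat_lit 338) (nat_lit 1) (.p (nat_lit 346) (nat_lit 1) .z)) (.ct dC1b_c277 (nat_lit 1) (nat_lit 3) (.s false (nat_lit 1) (nat_lit 12) (nat_lit 2) (nat_lit 6) (nat_lit 2) true (nat_lit 4) true (nat_lit 8) true (nat_lit 3) true (nat_lit 8) true (nat_lit 4) (.e true (nat_lit 1) (nat_lit 92) (nat_lit 6) (nat_lit 4) (.e false (nat_lit 2) (nat_lit 194) (nat_lit 2) (nat_lit 8) (.e true (nat_lit 1) (nat_lit 190) (nat_lit 2) (nat_lit 8) (.e false (nat_lit 1) (nat_lit 84) (nat_lit 6) (nat_lit 4) .nil)))))) .leaf)))) (nat_lit 47117) (nat_lit 904) (.p (nat_lit 348) (nat_lit 3) (.n (nat_lit 349) (nat_lit 2) (.p (nat_lit 350) (nat_lit 3) (.n (nat_lit 352) (nat_lit 2) (.p (nat_lit 353) (nat_lit 1) .z))))) (.ct dC1b_c37 (nat_lit 1) (nat_lit 2) (.s false (nat_lit 1) (nat_lit 13) (nat_lit 2) (nat_lit 6) (nat_lit 2) true (nat_lit 3) true (nat_lit 5) true (nat_lit 2) true (nat_lit 5) true (nat_lit 3) (.e true (nat_lit 1) (nat_lit 94) (nat_lit 6) (nat_lit 3) (.e false (nat_lit 1) (nat_lit 95) (nat_lit 6) (nat_lit 3) (.e true (nat_lit 1) (nat_lit 97) (nat_lit 6) (nat_lit 3) (.e true (nat_lit 1) (nat_lit 197) (nat_lit 2) (nat_lit 5) (.e true (nat_lit 3) (nat_lit 198) (nat_lit 2) (nat_lit 5) (.e true (nat_lit 3) (nat_lit 199) (nat_lit 2) (nat_lit 5) (.e true (nat_lit 2) (nat_lit 200) (nat_lit 2) (nat_lit 5) (.u (nat_lit 2) (.n (nat_lit 3) (nat_lit 1) (.p (nat_lit 29) (nat_lit 1) .z)) .nil)))))))))) (.nd (.nd (.nd (.nd (.nd .leaf (nat_lit 47123) (nat_lit 1126) (.p (nat_lit 355) (nat_lit 2) (.n (nat_lit 356) (nat_lit 2) (.p (nat_lit 357) (nat_lit 1) (.p (nat_lit 358) (nat_lit 2) (.p (nat_lit 360) (nat_lit 2) (.n (nat_lit 361) (nat_lit 2) (.p (nat_lit 362) (nat_lit 2) (.n (nat_lit 363) (nat_lit 2) (.p (nat_lit 364) (nat_lit 1) (.p (nat_lit 365) (nat_lit 2) (.n (nat_lit 366) (nat_lit 3) (.p (nat_lit 367) (nat_lit 3) (.p (nat_lit 369) (nat_lit 1) (.p (nat_lit 370) (nat_lit 2) (.n (nat_lit 372) (nat_lit 2) (.n (nat_lit 373) (nat_lit 2) (.p (nat_lit 374) (nat_lit 1) (.n (nat_lit 375) (nat_lit 3) (.n (nat_lit 381) (nat_lit 2) (.n (nat_lit 382) (nat_lit 1) (.n (nat_lit 383) (nat_lit 2) (.n (nat_lit 384) (nat_lit 3) (.p (nat_lit 385) (nat_lit 2) (.p (nat_lit 387) (nat_lit 3) (.p (nat_lit 388) (nat_lit 1) (.p (nat_lit 389) (nat_lit 2) (.p (nat_lit 391) (nat_lit 1) (.p (nat_lit 392) (nat_lit 2) (.n (nat_lit 393) (nat_lit 1) (.p (nat_lit 394) (nat_lit 2) (.p (nat_lit 395) (nat_lit 2) (.p (nat_lit 396) (nat_lit 2) .z)))))))))))))))))))))))))))))))) (.ct dC1b_c548 (nat_lit 1) (nat_lit 4) (.s true (nat_lit 1) (nat_lit 18) (nat_lit 0) (nat_lit 2) (nat_lit 8) true (nat_lit 4) true (nat_lit 11) true (nat_lit 5) true (nat_lit 19) true (nat_lit 17) (.e true (nat_lit 1) (nat_lit 100) (nat_lit 8) (nat_lit 11) (.e false (nat_lit 1) (nat_lit 54) (nat_lit 18) (nat_lit 5) (.e false (nat_lit 1) (nat_lit 307) (nat_lit 0) (nat_lit 19) (.e true (nat_lit 1) (nat_lit 316) (nat_lit 0) (nat_lit 19) (.e false (nat_lit 1) (nat_lit 220) (nat_lit 2) (nat_lit 17) (.e true (nat_lit 1) (nat_lit 229) (nat_lit 2) (nat_lit 17) (.u (nat_lit 2) (.p (nat_lit 1) (nat_lit 1) (.n (nat_lit 2) (nat_lit 1) (.n (nat_lit 4) (nat_lit 1) (.p (nat_lit 6) (nat_lit 1) (.n (nat_lit 7) (nat_lit 1) (.p (nat_lit 8) (nat_lit 1) (.n (nat_lit 10) (nat_lit 1) (.n (nat_lit 14) (nat_lit 1) (.n (nat_lit 15) (nat_lit 1) (.n (nat_lit 19) (nat_lit 1) (.p (nat_lit 26) (nat_lit 1) (.n (nat_lit 30) (nat_lit 1) (.n (nat_lit 31) (nat_lit 1) (.p (nat_lit 35) (nat_lit 1) (.n (nat_lit 36) (nat_lit 1) (.p (nat_lit 38) (nat_lit 1) .z)))))))))))))))) .nil))))))))) .leaf) (nat_lit 47124) (nat_lit 1268) (.p (nat_lit 426) (nat_lit 3) (.p (nat_lit 427) (nat_lit 2) (.p (nat_lit 428) (nat_lit 1) (.p (nat_lit 429) (nat_lit 3) (.p (nat_lit 430) (nat_lit 3) (.p (nat_lit 431) (nat_lit 1) (.n (nat_lit 432) (nat_lit 3) (.n (nat_lit 433) (nat_lit 3) (.p (nat_lit 435) (nat_lit 2) (.p (nat_lit 438) (nat_lit 3) (.p (nat_lit 439) (nat_lit 2) (.p (nat_lit 441) (nat_lit 1) (.n (nat_lit 442) (nat_lit 2) (.p (nat_lit 443) (nat_lit 1) (.n (nat_lit 444) (nat_lit 2) (.p (nat_lit 445) (nat_lit 1) (.p (nat_lit 456) (nat_lit 1) (.p (nat_lit 459) (nat_lit 3) .z)))))))))))))))))) (.ct dC1b_c533 (nat_lit 1) (nat_lit 2) (.s false (nat_lit 1) (nat_lit 18) (nat_lit 7) (nat_lit 2) (nat_lit 2) true (nat_lit 2) true (nat_lit 13) true (nat_lit 3) true (nat_lit 8) true (nat_lit 13) (.e true (nat_lit 1) (nat_lit 277) (nat_lit 2) (nat_lit 13) (.e false (nat_lit 1) (nat_lit 55) (nat_lit 18) (nat_lit 3) (.e false (nat_lit 1) (nat_lit 286) (nat_lit 2) (nat_lit 13) .nil))))) .leaf) (nat_lit 47125) (nat_lit 1302) (.p (nat_lit 426) (nat_lit 3) (.p (nat_lit 429) (nat_lit 3) (.n (nat_lit 430) (nat_lit 2) (.p (nat_lit 431) (nat_lit 2) (.n (nat_lit 432) (nat_lit 1) (.n (nat_lit 433) (nat_lit 1) (.n (nat_lit 434) (nat_lit 3) (.n (nat_lit 435) (nat_lit 1) (.p (nat_lit 436) (nat_lit 3) (.p (nat_lit 439) (nat_lit 2) (.p (nat_lit 441) (nat_lit 3) (.n (nat_lit 442) (nat_lit 3) (.p (nat_lit 443) (nat_lit 3) (.p (nat_lit 444) (nat_lit 1) (.p (nat_lit 456) (nat_lit 2) (.n (nat_lit 459) (nat_lit 1) .z)))))))))))))))) (.ct dC1b_c533 (nat_lit 1) (nat_lit 2) (.s true (nat_lit 1) (nat_lit 18) (nat_lit 11) (nat_lit 2) (nat_lit 0) true (nat_lit 2) true (nat_lit 15) true (nat_lit 3) true (nat_lit 6) true (nat_lit 13) (.e true (nat_lit 1) (nat_lit 46) (nat_lit 20) (nat_lit 2) (.e false (nat_lit 1) (nat_lit 46) (nat_lit 22) (nat_lit 2) dC1b_i33)))) (.nd (.nd .leaf (nat_lit 47126) (nat_lit 1301) (.n (nat_lit 426) (nat_lit 3) (.n (nat_lit 427) (nat_lit 1) (.p (nat_lit 428) (nat_lit 2) (.n (nat_lit 429) (nat_lit 1) (.n (nat_lit 430) (nat_lit 3) (.p (nat_lit 431) (nat_lit 3) (.n (nat_lit 432) (nat_lit 3) (.n (nat_lit 433) (nat_lit 3) (.p (nat_lit 434) (nat_lit 2) (.n (nat_lit 435) (nat_lit 2) (.p (nat_lit 436) (nat_lit 3) (.p (nat_lit 441) (nat_lit 3) (.p (nat_lit 442) (nat_lit 1) (.p (nat_lit 443) (nat_lit 3) (.p (nat_lit 444) (nat_lit 1) (.p (nat_lit 445) (nat_lit 3) (.p (nat_lit 456) (nat_lit 2) (.n (nat_lit 459) (nat_lit 1) .z)))))))))))))))))) (.ct dC1b_c533 (nat_lit 1) (nat_lit 2) (.s false (nat_lit 1) (nat_lit 22) (nat_lit 2) (nat_lit 6) (nat_lit 2) true (nat_lit 9) true (nat_lit 13) true (nat_lit 2) true (nat_lit 13) true (nat_lit 9) (.e true (nat_lit 1) (nat_lit 151) (nat_lit 6) (nat_lit 9) (.e false (nat_lit 2) (nat_lit 288) (nat_lit 2) (nat_lit 13) (.e true (nat_lit 1) (nat_lit 279) (nat_lit 2) (nat_lit 13) (.e false (nat_lit 1) (nat_lit 134) (nat_lit 6) (nat_lit 9) (.u (nat_lit 2) (.n (nat_lit 0) (nat_lit 1) (.n (nat_lit 1) (nat_lit 1) (.p (nat_lit 2) (nat_lit 1) (.n (nat_lit 3) (nat_lit 1) (.p (nat_lit 5) (nat_lit 1) (.p (nat_lit 8) (nat_lit 1) (.p (nat_lit 9) (nat_lit 1) (.n (nat_lit 10) (nat_lit 1) (.p (nat_lit 12) (nat_lit 1) (.p (nat_lit 13) (nat_lit 1) (.n (nat_lit 15) (nat_lit 1) (.n (nat_lit 16) (nat_lit 1) (.n (nat_lit 18) (nat_lit 1) (.n (nat_lit 19) (nat_lit 1) (.p (nat_lit 22) (nat_lit 1) (.n (nat_lit 30) (nat_lit 1) .z)))))))))))))))) .nil))))))) .leaf) (nat_lit 47127) (nat_lit 1315) (.p (nat_lit 426) (nat_lit 1) (.n (nat_lit 427) (nat_lit 2) (.p (nat_lit 428) (nat_lit 3) (.p (nat_lit 429) (nat_lit 2) (.n (nat_lit 430) (nat_lit 1) (.p (nat_lit 431) (nat_lit 2) (.n (nat_lit 432) (nat_lit 2) (.n (nat_lit 433) (nat_lit 2) (.p (nat_lit 434) (nat_lit 1) (.p (nat_lit 435) (nat_lit 3) (.p (nat_lit 436) (nat_lit 2) (.p (nat_lit 438) (nat_lit 1) (.n (nat_lit 439) (nat_lit 2) (.p (nat_lit 441) (nat_lit 1) (.p (nat_lit 442) (nat_lit 1) (.p (nat_lit 443) (nat_lit 1) (.n (nat_lit 444) (nat_lit 2) (.n (nat_lit 445) (nat_lit 2) (.n (nat_lit 456) (nat_lit 3) (.n (nat_lit 459) (nat_lit 2) .z)))))))))))))))))))) (.ct dC1b_c533 (nat_lit 1) (nat_lit 2) (.s true (nat_lit 1) (nat_lit 46) (nat_lit 0) (nat_lit 2) (nat_lit 3) true (nat_lit 8) true (nat_lit 12) false (nat_lit 2) true (nat_lit 15) true (nat_lit 13) (.e true (nat_lit 1) (nat_lit 106) (nat_lit 7) (nat_lit 8) (.e false (nat_lit 1) (nat_lit 204) (nat_lit 3) (nat_lit 12) (.e false (nat_lit 1) (nat_lit 46) (nat_lit 21) (nat_lit 2) (.e true (nat_lit 1) (nat_lit 46) (nat_lit 22) (nat_lit 2) (.e false (nat_lit 3) (nat_lit 328) (nat_lit 0) (nat_lit 15) (.e true (nat_lit 2) (nat_lit 329) (nat_lit 0) (nat_lit 15) (.e false (nat_lit 2) (nat_lit 330) (nat_lit 0) (nat_lit 15) (.e false (nat_lit 1) (nat_lit 331) (nat_lit 0) (nat_lit 15) (.e true (nat_lit 2) (nat_lit 332) (nat_lit 0) (nat_lit 15) (.e true (nat_lit 3) (nat_lit 333) (nat_lit 0) (nat_lit 15) (.e true (nat_lit 1) (nat_lit 334) (nat_lit 0) (nat_lit 15) (.e true (nat_lit 1) (nat_lit 335) (nat_lit 0) (nat_lit 15) dC1b_i34)))))))))))))) .leaf)) (nat_lit 47128) (nat_lit 1487) (.p (nat_lit 460) (nat_lit 2) (.p (nat_lit 461) (nat_lit 2) (.n (nat_lit 462) (nat_lit 3) (.p (nat_lit 463) (nat_lit 3) (.p (nat_lit 464) (nat_lit 3) (.n (nat_lit 465) (nat_lit 2) (.n (nat_lit 468) (nat_lit 3) (.n (nat_lit 469) (nat_lit 1) (.n (nat_lit 470) (nat_lit 1) (.n (nat_lit 471) (nat_lit 1) (.p (nat_lit 472) (nat_lit 1) (.p (nat_lit 473) (nat_lit 2) (.p (nat_lit 474) (nat_lit 2) (.p (nat_lit 476) (nat_lit 1) (.n (nat_lit 477) (nat_lit 1) (.p (nat_lit 479) (nat_lit 1) (.p (nat_lit 489) (nat_lit 1) (.p (nat_lit 493) (nat_lit 3) .z)))))))))))))))))) (.ct dC1b_c293 (nat_lit 1) (nat_lit 2) (.s false (nat_lit 1) (nat_lit 18) (nat_lit 2) (nat_lit 2) (nat_lit 8) true (nat_lit 2) true (nat_lit 8) true (nat_lit 3) true (nat_lit 13) true (nat_lit 13) (.e false (nat_lit 1) (nat_lit 106) (nat_lit 8) (nat_lit 8) (.e true (nat_lit 1) (nat_lit 74) (nat_lit 18) (nat_lit 3) (.e false (nat_lit 2) (nat_lit 307) (nat_lit 2) (nat_lit 13) (.e true (nat_lit 1) (nat_lit 316) (nat_lit 2) (nat_lit 13) (.e true (nat_lit 1) (nat_lit 298) (nat_lit 2) (nat_lit 13) (.u (nat_lit 2) (.n (nat_lit 1) (nat_lit 1) (.p (nat_lit 8) (nat_lit 1) (.n (nat_lit 33) (nat_lit 1) .z))) .nil)))))))) (.nd (.nd (.nd .leaf (nat_lit 47129) (nat_lit 1464) (.n (nat_lit 460) (nat_lit 3) (.n (nat_lit 461) (nat_lit 1) (.n (nat_lit 462) (nat_lit 3) (.n (nat_lit 463) (nat_lit 1) (.n (nat_lit 464) (nat_lit 3) (.n (nat_lit 467) (nat_lit 2) (.p (nat_lit 468) (nat_lit 2) (.n (nat_lit 469) (nat_lit 3) (.p (nat_lit 471) (nat_lit 3) (.n (nat_lit 472) (nat_lit 2) (.p (nat_lit 473) (nat_lit 3) (.p (nat_lit 474) (nat_lit 3) (.p (nat_lit 475) (nat_lit 2) (.n (nat_lit 476) (nat_lit 3) (.p (nat_lit 477) (nat_lit 2) (.p (nat_lit 489) (nat_lit 2) (.n (nat_lit 493) (nat_lit 1) .z))))))))))))))))) (.ct dC1b_c293 (nat_lit 1) (nat_lit 2) (.s true (nat_lit 1) (nat_lit 25) (nat_lit 6) (nat_lit 2) (nat_lit 2) true (nat_lit 3) true (nat_lit 13) true (nat_lit 2) true (nat_lit 9) true (nat_lit 13) (.e false (nat_lit 1) (nat_lit 67) (nat_lit 18) (nat_lit 3) (.e true (nat_lit 1) (nat_lit 308) (nat_lit 2) (nat_lit 13) (.e false (nat_lit 1) (nat_lit 171) (nat_lit 6) (nat_lit 9) (.e true (nat_lit 1) (nat_lit 317) (nat_lit 2) (nat_lit 13) (.u (nat_lit 2) (.n (nat_lit 1) (nat_lit 1) (.p (nat_lit 2) (nat_lit 1) (.p (nat_lit 4) (nat_lit 1) (.p (nat_lit 5) (nat_lit 1) (.p (nat_lit 7) (nat_lit 1) (.n (nat_lit 10) (nat_lit 1) (.p (nat_lit 12) (nat_lit 1) (.n (nat_lit 15) (nat_lit 1) (.n (nat_lit 17) (nat_lit 1) (.n (nat_lit 21) (nat_lit 1) .z)))))))))) .nil))))))) .leaf) (nat_lit 47130) (nat_lit 1499) (.p (nat_lit 461) (nat_lit 1) (.n (nat_lit 462) (nat_lit 3) (.n (nat_lit 464) (nat_lit 1) (.p (nat_lit 465) (nat_lit 3) (.n (nat_lit 467) (nat_lit 3) (.p (nat_lit 468) (nat_lit 1) (.n (nat_lit 469) (nat_lit 2) (.p (nat_lit 471) (nat_lit 3) (.n (nat_lit 472) (nat_lit 2) (.p (nat_lit 473) (nat_lit 3) (.p (nat_lit 474) (nat_lit 3) (.n (nat_lit 475) (nat_lit 1) (.n (nat_lit 476) (nat_lit 3) (.n (nat_lit 477) (nat_lit 2) (.n (nat_lit 479) (nat_lit 3) (.p (nat_lit 489) (nat_lit 3) (.p (nat_lit 493) (nat_lit 2) .z))))))))))))))))) (.ct dC1b_c293 (nat_lit 1) (nat_lit 2) (.s true (nat_lit 1) (nat_lit 46) (nat_lit 2) (nat_lit 1) (nat_lit 3) true (nat_lit 7) true (nat_lit 12) false (nat_lit 2) true (nat_lit 13) true (nat_lit 14) (.e true (nat_lit 1) (nat_lit 103) (nat_lit 10) (nat_lit 7) (.e false (nat_lit 1) (nat_lit 105) (nat_lit 10) (nat_lit 7) (.e true (nat_lit 1) (nat_lit 210) (nat_lit 3) (nat_lit 12) (.e false (nat_lit 1) (nat_lit 46) (nat_lit 24) (nat_lit 2) (.e false (nat_lit 1) (nat_lit 46) (nat_lit 27) (nat_lit 2) (.e false (nat_lit 1) (nat_lit 298) (nat_lit 2) (nat_lit 13) (.e true (nat_lit 1) (nat_lit 316) (nat_lit 2) (nat_lit 13) (.e true (nat_lit 1) (nat_lit 329) (nat_lit 1) (nat_lit 14) (.e false (nat_lit 1) (nat_lit 330) (nat_lit 1) (nat_lit 14) (.e true (nat_lit 1) (nat_lit 331) (nat_lit 1) (nat_lit 14) (.e false (nat_lit 1) (nat_lit 333) (nat_lit 1) (nat_lit 14) (.e false (nat_lit 1) (nat_lit 336) (nat_lit 1) (nat_lit 14) (.u (nat_lit 2) (.p (nat_lit 5) (nat_lit 1) (.n (nat_lit 8) (nat_lit 2) (.p (nat_lit 12) (nat_lit 1) (.p (nat_lit 17) (nat_lit 1) (.p (nat_lit 33) (nat_lit 1) .z))))) .nil))))))))))))))) .leaf) (nat_lit 47131) (nat_lit 1498) (.n (nat_lit 460) (nat_lit 2) (.p (nat_lit 461) (nat_lit 1) (.p (nat_lit 462) (nat_lit 3) (.n (nat_lit 463) (nat_lit 3) (.p (nat_lit 464) (nat_lit 1) (.p (nat_lit 465) (nat_lit 2) (.n (nat_lit 467) (nat_lit 1) (.p (nat_lit 469) (nat_lit 3) (.p (nat_lit 470) (nat_lit 1) (.p (nat_lit 471) (nat_lit 2) (.p (nat_lit 472) (nat_lit 2) (.n (nat_lit 475) (nat_lit 2) (.n (nat_lit 476) (nat_lit 1) (.p (nat_lit 477) (nat_lit 2) (.p (nat_lit 479) (nat_lit 1) (.n (nat_lit 489) (nat_lit 1) (.n (nat_lit 493) (nat_lit 3) .z))))))))))))))))) (.ct dC1b_c293 (nat_lit 1) (nat_lit 2) (.s true (nat_lit 1) (nat_lit 46) (nat_lit 1) (nat_lit 5) (nat_lit 0) true (nat_lit 12) true (nat_lit 15) false (nat_lit 2) true (nat_lit 14) true (nat_lit 10) (.e false (nat_lit 1) (nat_lit 209) (nat_lit 3) (nat_lit 12) (.e true (nat_lit 1) (nat_lit 210) (nat_lit 3) (nat_lit 12) (.e false (nat_lit 1) (nat_lit 211) (nat_lit 3) (nat_lit 12) (.e false (nat_lit 3) (nat_lit 347) (nat_lit 0) (nat_lit 15) (.e true (nat_lit 2) (nat_lit 350) (nat_lit 0) (nat_lit 15) (.e false (nat_lit 1) (nat_lit 351) (nat_lit 0) (nat_lit 15) (.e true (nat_lit 1) (nat_lit 353) (nat_lit 0) (nat_lit 15) (.e true (nat_lit 1) (nat_lit 46) (nat_lit 24) (nat_lit 2) (.e false (nat_lit 1) (nat_lit 46) (nat_lit 25) (nat_lit 2) (.e true (nat_lit 1) (nat_lit 338) (nat_lit 1) (nat_lit 14) (.e false (nat_lit 1) (nat_lit 346) (nat_lit 1) (nat_lit 14) (.e false (nat_lit 1) (nat_lit 180) (nat_lit 5) (nat_lit 10) (.e false (nat_lit 1) (nat_lit 181) (nat_lit 5) (nat_lit 10) (.e false (nat_lit 3) (nat_lit 185) (nat_lit 5) (nat_lit 10) (.e false (nat_lit 2) (nat_lit 186) (nat_lit 5) (nat_lit 10) (.e false (nat_lit 2) (nat_lit 187) (nat_lit 5) (nat_lit 10) (.e true (nat_lit 1) (nat_lit 188) (nat_lit 5) (nat_lit 10) (.e false (nat_lit 3) (nat_lit 189) (nat_lit 5) (nat_lit 10) (.e true (nat_lit 2) (nat_lit 190) (nat_lit 5) (nat_lit 10) (.e false (nat_lit 1) (nat_lit 192) (nat_lit 5) (nat_lit 10) (.e false (nat_lit 1) (nat_lit 193) (nat_lit 5) (nat_lit 10) (.e false (nat_lit 2) (nat_lit 183) (nat_lit 5) (nat_lit 10) (.u (nat_lit 2) (.p (nat_lit 0) (nat_lit 1) (.n (nat_lit 3) (nat_lit 1) (.n (nat_lit 6) (nat_lit 2) (.n (nat_lit 7) (nat_lit 4) (.p (nat_lit 8) (nat_lit 1) (.n (nat_lit 9) (nat_lit 3) (.p (nat_lit 10) (nat_lit 3) (.p (nat_lit 11) (nat_lit 4) (.p (nat_lit 13) (nat_lit 1) (.p (nat_lit 15) (nat_lit 2) (.n (nat_lit 16) (nat_lit 2) (.p (nat_lit 17) (nat_lit 1) (.n (nat_lit 18) (nat_lit 2) (.p (nat_lit 20) (nat_lit 2) (.p (nat_lit 22) (nat_lit 3) (.p (nat_lit 23) (nat_lit 1) (.n (nat_lit 26) (nat_lit 2) (.p (nat_lit 27) (nat_lit 1) (.p (nat_lit 29) (nat_lit 1) (.n (nat_lit 30) (nat_lit 1) (.n (nat_lit 32) (nat_lit 3) (.n (nat_lit 33) (nat_lit 1) (.n (nat_lit 155) (nat_lit 1) .z))))))))))))))))))))))) .nil))))))))))))))))))))))))) (.nd (.nd .leaf (nat_lit 48130) (nat_lit 164) (.p (nat_lit 107) (nat_lit 1) .z) .df .leaf) (nat_lit 48134) (nat_lit 502) (.n (nat_lit 212) (nat_lit 2) (.n (nat_lit 213) (nat_lit 2) (.n (nat_lit 214) (nat_lit 2) (.p (nat_lit 215) (nat_lit 1) (.n (nat_lit 216) (nat_lit 3) (.p (nat_lit 217) (nat_lit 1) (.n (nat_lit 218) (nat_lit 2) (.p (nat_lit 219) (nat_lit 2) (.p (nat_lit 220) (nat_lit 1) (.n (nat_lit 221) (nat_lit 2) (.p (nat_lit 222) (nat_lit 3) (.p (nat_lit 223) (nat_lit 1) (.p (nat_lit 226) (nat_lit 2) (.n (nat_lit 229) (nat_lit 2) (.p (nat_lit 231) (nat_lit 1) (.n (nat_lit 232) (nat_lit 2) (.n (nat_lit 233) (nat_lit 2) (.n (nat_lit 235) (nat_lit 2) (.p (nat_lit 236) (nat_lit 1) (.p (nat_lit 237) (nat_lit 1) (.n (nat_lit 238) (nat_lit 3) (.p (nat_lit 239) (nat_lit 3) (.n (nat_lit 240) (nat_lit 3) (.n (nat_lit 241) (nat_lit 2) (.p (nat_lit 242) (nat_lit 2) (.p (nat_lit 243) (nat_lit 1) (.p (nat_lit 244) (nat_lit 2) (.n (nat_lit 245) (nat_lit 1) (.n (nat_lit 248) (nat_lit 1) (.p (nat_lit 249) (nat_lit 2) .z)))))))))))))))))))))))))))))) (.ct dC1b_c547 (nat_lit 1) (nat_lit 8) (.s true (nat_lit 1) (nat_lit 19) (nat_lit 2) (nat_lit 2) (nat_lit 2) true (nat_lit 8) true (nat_lit 12) false (nat_lit 0) true (nat_lit 12) true (nat_lit 12) (.e false (nat_lit 1) (nat_lit 19) (nat_lit 18) (nat_lit 0) (.e false (nat_lit 1) (nat_lit 129) (nat_lit 2) (nat_lit 12) (.u (nat_lit 2) (.p (nat_lit 0) (nat_lit 1) (.p (nat_lit 1) (nat_lit 1) (.p (nat_lit 6) (nat_lit 1) (.n (nat_lit 7) (nat_lit 1) (.n (nat_lit 10) (nat_lit 1) (.n (nat_lit 14) (nat_lit 1) (.p (nat_lit 20) (nat_lit 1) (.p (nat_lit 23) (nat_lit 1) (.n (nat_lit 32) (nat_lit 1) .z))))))))) .nil))))) .leaf))) (nat_lit 48146) (nat_lit 1127) (.n (nat_lit 355) (nat_lit 3) (.p (nat_lit 357) (nat_lit 2) (.n (nat_lit 358) (nat_lit 1) (.p (nat_lit 360) (nat_lit 1) (.n (nat_lit 363) (nat_lit 1) (.p (nat_lit 364) (nat_lit 2) (.n (nat_lit 365) (nat_lit 1) (.p (nat_lit 366) (nat_lit 2) (.n (nat_lit 369) (nat_lit 2) (.p (nat_lit 372) (nat_lit 2) (.n (nat_lit 373) (nat_lit 2) (.n (nat_lit 374) (nat_lit 1) (.p (nat_lit 375) (nat_lit 1) (.p (nat_lit 381) (nat_lit 3) (.p (nat_lit 383) (nat_lit 3) (.p (nat_lit 384) (nat_lit 2) (.n (nat_lit 385) (nat_lit 2) (.p (nat_lit 386) (nat_lit 3) (.n (nat_lit 387) (nat_lit 3) (.n (nat_lit 388) (nat_lit 1) (.p (nat_lit 389) (nat_lit 2) (.n (nat_lit 390) (nat_lit 1) (.p (nat_lit 391) (nat_lit 1) (.n (nat_lit 392) (nat_lit 3) (.p (nat_lit 393) (nat_lit 1) (.n (nat_lit 394) (nat_lit 1) (.p (nat_lit 395) (nat_lit 1) (.n (nat_lit 396) (nat_lit 2) .z)))))))))))))))))))))))))))) (.ct dC1b_c548 (nat_lit 1) (nat_lit 5) (.s false (nat_lit 1) (nat_lit 19) (nat_lit 6) (nat_lit 2) (nat_lit 2) true (nat_lit 5) true (nat_lit 17) true (nat_lit 4) true (nat_lit 13) true (nat_lit 17) (.e false (nat_lit 1) (nat_lit 212) (nat_lit 2) (nat_lit 17) (.e true (nat_lit 3) (nat_lit 214) (nat_lit 2) (nat_lit 17) dC1b_i35)))) (.nd (.nd (.nd (.nd .leaf (nat_lit 49154) (nat_lit 165) (.p (nat_lit 108) (nat_lit 1) .z) .df .leaf) (nat_lit 49158) (nat_lit 494) (.n (nat_lit 212) (nat_lit 3) (.p (nat_lit 213) (nat_lit 1) (.p (nat_lit 214) (nat_lit 1) (.n (nat_lit 215) (nat_lit 2) (.n (nat_lit 216) (nat_lit 2) (.p (nat_lit 217) (nat_lit 3) (.p (nat_lit 218) (nat_lit 2) (.n (nat_lit 219) (nat_lit 2) (.n (nat_lit 220) (nat_lit 1) (.p (nat_lit 221) (nat_lit 1) (.n (nat_lit 223) (nat_lit 2) (.n (nat_lit 226) (nat_lit 2) (.n (nat_lit 229) (nat_lit 3) (.n (nat_lit 230) (nat_lit 1) (.p (nat_lit 231) (nat_lit 3) (.p (nat_lit 233) (nat_lit 1) (.p (nat_lit 234) (nat_lit 3) (.n (nat_lit 235) (nat_lit 3) (.n (nat_lit 236) (nat_lit 2) (.p (nat_lit 237) (nat_lit 3) (.p (nat_lit 238) (nat_lit 2) (.n (nat_lit 239) (nat_lit 1) (.p (nat_lit 240) (nat_lit 2) (.p (nat_lit 241) (nat_lit 3) (.p (nat_lit 242) (nat_lit 1) (.p (nat_lit 243) (nat_lit 3) (.p (nat_lit 244) (nat_lit 1) (.p (nat_lit 245) (nat_lit 3) (.n (nat_lit 248) (nat_lit 3) (.p (nat_lit 250) (nat_lit 2) .z)))))))))))))))))))))))))))))) (.ct dC1b_c547 (nat_lit 1) (nat_lit 8) (.s false (nat_lit 1) (nat_lit 7) (nat_lit 1) (nat_lit 6) (nat_lit 2) true (nat_lit 9) true (nat_lit 12) true (nat_lit 7) true (nat_lit 13) true (nat_lit 8) (.e false (nat_lit 1) (nat_lit 65) (nat_lit 5) (nat_lit 9) (.e false (nat_lit 1) (nat_lit 129) (nat_lit 2) (nat_lit 12) (.e true (nat_lit 1) (nat_lit 44) (nat_lit 7) (nat_lit 7) (.e false (nat_lit 1) (nat_lit 142) (nat_lit 1) (nat_lit 13) (.e true (nat_lit 1) (nat_lit 149) (nat_lit 1) (nat_lit 13) (.u (nat_lit 2) (.p (nat_lit 0) (nat_lit 1) (.p (nat_lit 1) (nat_lit 1) (.n (nat_lit 2) (nat_lit 1) (.n (nat_lit 5) (nat_lit 1) (.p (nat_lit 8) (nat_lit 1) (.p (nat_lit 9) (nat_lit 1) (.n (nat_lit 10) (nat_lit 1) (.p (nat_lit 12) (nat_lit 1) (.p (nat_lit 15) (nat_lit 1) (.p (nat_lit 18) (nat_lit 1) (.p (nat_lit 20) (nat_lit 1) (.p (nat_lit 23) (nat_lit 1) (.p (nat_lit 24) (nat_lit 1) (.n (nat_lit 29) (nat_lit 1) (.p (nat_lit 30) (nat_lit 1) (.n (nat_lit 32) (nat_lit 1) .z)))))))))))))))) .nil)))))))) .leaf) (nat_lit 49170) (nat_lit 1135) (.p (nat_lit 355) (nat_lit 3) (.n (nat_lit 356) (nat_lit 2) (.n (nat_lit 357) (nat_lit 3) (.n (nat_lit 358) (nat_lit 1) (.n (nat_lit 359) (nat_lit 1) (.p (nat_lit 360) (nat_lit 3) (.p (nat_lit 361) (nat_lit 2) (.n (nat_lit 362) (nat_lit 2) (.p (nat_lit 363) (nat_lit 1) (.p (nat_lit 364) (nat_lit 1) (.n (nat_lit 366) (nat_lit 1) (.n (nat_lit 367) (nat_lit 2) (.n (nat_lit 369) (nat_lit 3) (.p (nat_lit 370) (nat_lit 1) (.p (nat_lit 372) (nat_lit 3) (.n (nat_lit 373) (nat_lit 1) (.n (nat_lit 374) (nat_lit 3) (.n (nat_lit 381) (nat_lit 1) (.p (nat_lit 383) (nat_lit 1) (.n (nat_lit 384) (nat_lit 3) (.n (nat_lit 385) (nat_lit 2) (.n (nat_lit 386) (nat_lit 3) (.n (nat_lit 387) (nat_lit 1) (.p (nat_lit 388) (nat_lit 1) (.p (nat_lit 389) (nat_lit 2) (.p (nat_lit 390) (nat_lit 1) (.p (nat_lit 391) (nat_lit 1) (.p (nat_lit 392) (nat_lit 3) (.n (nat_lit 393) (nat_lit 3) (.p (nat_lit 394) (nat_lit 1) (.n (nat_lit 395) (nat_lit 2) (.n (nat_lit 396) (nat_lit 1) .z)))))))))))))))))))))))))))))))) (.ct dC1b_c548 (nat_lit 1) (nat_lit 5) (.s false (nat_lit 1) (nat_lit 18) (nat_lit 1) (nat_lit 2) (nat_lit 7) true (nat_lit 4) true (nat_lit 12) true (nat_lit 5) true (nat_lit 18) true (nat_lit 17) (.e false (nat_lit 1) (nat_lit 46) (nat_lit 19) (nat_lit 4) (.e false (nat_lit 1) (nat_lit 104) (nat_lit 7) (nat_lit 12) (.e false (nat_lit 1) (nat_lit 52) (nat_lit 18) (nat_lit 5) (.e true (nat_lit 1) (nat_lit 54) (nat_lit 18) (nat_lit 5) (.e true (nat_lit 1) (nat_lit 277) (nat_lit 1) (nat_lit 18) (.e false (nat_lit 1) (nat_lit 286) (nat_lit 1) (nat_lit 18) (.e true (nat_lit 2) (nat_lit 242) (nat_lit 2) (nat_lit 17) (.e true (nat_lit 3) (nat_lit 212) (nat_lit 2) (nat_lit 17) dC1b_i36)))))))))) (.nd (.nd .leaf (nat_lit 50178) (nat_lit 166) (.p (nat_lit 109) (nat_lit 1) .z) .df .leaf) (nat_lit 50182) (nat_lit 484) (.n (nat_lit 212) (nat_lit 3) (.n (nat_lit 213) (nat_lit 3) (.n (nat_lit 214) (nat_lit 2) (.p (nat_lit 215) (nat_lit 3) (.p (nat_lit 216) (nat_lit 1) (.p (nat_lit 217) (nat_lit 1) (.n (nat_lit 218) (nat_lit 2) (.p (nat_lit 219) (nat_lit 2) (.n (nat_lit 221) (nat_lit 2) (.p (nat_lit 222) (nat_lit 3) (.p (nat_lit 223) (nat_lit 2) (.p (nat_lit 226) (nat_lit 3) (.p (nat_lit 229) (nat_lit 1) (.n (nat_lit 230) (nat_lit 1) (.p (nat_lit 231) (nat_lit 3) (.n (nat_lit 232) (nat_lit 2) (.n (nat_lit 233) (nat_lit 1) (.n (nat_lit 234) (nat_lit 3) (.p (nat_lit 235) (nat_lit 3) (.p (nat_lit 236) (nat_lit 3) (.p (nat_lit 237) (nat_lit 3) (.n (nat_lit 238) (nat_lit 1) (.n (nat_lit 240) (nat_lit 2) (.n (nat_lit 242) (nat_lit 3) (.p (nat_lit 243) (nat_lit 3) (.p (nat_lit 244) (nat_lit 2) (.n (nat_lit 245) (nat_lit 1) (.n (nat_lit 248) (nat_lit 3) (.p (nat_lit 251) (nat_lit 2) (.n (nat_lit 258) (nat_lit 2) (.p (nat_lit 259) (nat_lit 1) .z))))))))))))))))))))))))))))))) (.ct dC1b_c547 (nat_lit 1) (nat_lit 8) (.s false (nat_lit 1) (nat_lit 21) (nat_lit 2) (nat_lit 1) (nat_lit 2) true (nat_lit 8) true (nat_lit 12) false (nat_lit 1) true (nat_lit 12) true (nat_lit 13) (.e false (nat_lit 1) (nat_lit 116) (nat_lit 2) (nat_lit 12) (.e true (nat_lit 1) (nat_lit 21) (nat_lit 16) (nat_lit 1) (.e true (nat_lit 1) (nat_lit 130) (nat_lit 2) (nat_lit 12) (.e false (nat_lit 1) (nat_lit 133) (nat_lit 1) (nat_lit 13) (.u (nat_lit 2) (.p (nat_lit 1) (nat_lit 1) (.n (nat_lit 4) (nat_lit 1) (.n (nat_lit 5) (nat_lit 1) (.n (nat_lit 7) (nat_lit 1) (.p (nat_lit 9) (nat_lit 1) (.n (nat_lit 10) (nat_lit 1) (.p (nat_lit 12) (nat_lit 1) (.n (nat_lit 14) (nat_lit 1) (.p (nat_lit 15) (nat_lit 1) (.n (nat_lit 19) (nat_lit 1) (.p (nat_lit 21) (nat_lit 1) (.p (nat_lit 22) (nat_lit 1) (.n (nat_lit 23) (nat_lit 1) (.p (nat_lit 30) (nat_lit 1) (.n (nat_lit 39) (nat_lit 1) .z))))))))))))))) .nil))))))) .leaf)) (nat_lit 50194) (nat_lit 1055) (.n (nat_lit 355) (nat_lit 3) (.p (nat_lit 356) (nat_lit 1) (.n (nat_lit 357) (nat_lit 3) (.p (nat_lit 358) (nat_lit 1) (.p (nat_lit 359) (nat_lit 2) (.n (nat_lit 360) (nat_lit 2) (.n (nat_lit 361) (nat_lit 2) (.p (nat_lit 362) (nat_lit 2) (.p (nat_lit 363) (nat_lit 2) (.p (nat_lit 364) (nat_lit 2) (.n (nat_lit 365) (nat_lit 1) (.p (nat_lit 366) (nat_lit 1) (.n (nat_lit 367) (nat_lit 2) (.p (nat_lit 369) (nat_lit 1) (.p (nat_lit 370) (nat_lit 1) (.n (nat_lit 373) (nat_lit 2) (.p (nat_lit 374) (nat_lit 2) (.p (nat_lit 375) (nat_lit 2) (.p (nat_lit 382) (nat_lit 1) (.n (nat_lit 383) (nat_lit 2) (.n (nat_lit 384) (nat_lit 1) (.n (nat_lit 385) (nat_lit 3) (.n (nat_lit 386) (nat_lit 1) (.p (nat_lit 387) (nat_lit 3) (.p (nat_lit 388) (nat_lit 3) (.n (nat_lit 389) (nat_lit 1) (.n (nat_lit 390) (nat_lit 2) (.p (nat_lit 391) (nat_lit 3) (.n (nat_lit 392) (nat_lit 1) (.n (nat_lit 393) (nat_lit 1) (.n (nat_lit 394) (nat_lit 1) (.p (nat_lit 396) (nat_lit 2) (.p (nat_lit 404) (nat_lit 3) (.p (nat_lit 405) (nat_lit 1) (.n (nat_lit 406) (nat_lit 1) (.p (nat_lit 408) (nat_lit 1) (.p (nat_lit 409) (nat_lit 3) (.n (nat_lit 410) (nat_lit 3) .z)))))))))))))))))))))))))))))))))))))) (.ct dC1b_c548 (nat_lit 1) (nat_lit 5) (.s true (nat_lit 1) (nat_lit 18) (nat_lit 1) (nat_lit 9) (nat_lit 1) false (nat_lit 21) true (nat_lit 18) true (nat_lit 5) true (nat_lit 18) true (nat_lit 10) (.e true (nat_lit 2) (nat_lit 261) (nat_lit 1) (nat_lit 18) (.e false (nat_lit 3) (nat_lit 262) (nat_lit 1) (nat_lit 18) (.e false (nat_lit 2) (nat_lit 263) (nat_lit 1) (nat_lit 18) (.e true (nat_lit 3) (nat_lit 264) (nat_lit 1) (nat_lit 18) (.e false (nat_lit 1) (nat_lit 265) (nat_lit 1) (nat_lit 18) (.e false (nat_lit 3) (nat_lit 266) (nat_lit 1) (nat_lit 18) (.e false (nat_lit 2) (nat_lit 267) (nat_lit 1) (nat_lit 18) (.e false (nat_lit 3) (nat_lit 268) (nat_lit 1) (nat_lit 18) (.e false (nat_lit 1) (nat_lit 269) (nat_lit 1) (nat_lit 18) (.e false (nat_lit 2) (nat_lit 271) (nat_lit 1) (nat_lit 18) (.e true (nat_lit 1) (nat_lit 272) (nat_lit 1) (nat_lit 18) (.e false (nat_lit 1) (nat_lit 273) (nat_lit 1) (nat_lit 18) (.e true (nat_lit 2) (nat_lit 274) (nat_lit 1) (nat_lit 18) (.e true (nat_lit 2) (nat_lit 279) (nat_lit 1) (nat_lit 18) (.e true (nat_lit 1) (nat_lit 280) (nat_lit 1) (nat_lit 18) (.e false (nat_lit 3) (nat_lit 287) (nat_lit 1) (nat_lit 18) (.e true (nat_lit 3) (nat_lit 288) (nat_lit 1) (nat_lit 18) (.e true (nat_lit 1) (nat_lit 278) (nat_lit 1) (nat_lit 18) (.e false (nat_lit 1) (nat_lit 93) (nat_lit 9) (nat_lit 10) (.e false (nat_lit 1) (nat_lit 94) (nat_lit 9) (nat_lit 10) (.e true (nat_lit 1) (nat_lit 97) (nat_lit 9) (nat_lit 10) (.u (nat_lit 2) (.n (nat_lit 0) (nat_lit 1) (.n (nat_lit 2) (nat_lit 2) (.p (nat_lit 3) (nat_lit 2) (.n (nat_lit 4) (nat_lit 2) (.n (nat_lit 6) (nat_lit 2) (.p (nat_lit 8) (nat_lit 1) (.n (nat_lit 9) (nat_lit 1) (.p (nat_lit 12) (nat_lit 3) (.n (nat_lit 13) (nat_lit 1) (.n (nat_lit 14) (nat_lit 1) (.p (nat_lit 15) (nat_lit 1) (.n (nat_lit 17) (nat_lit 1) (.n (nat_lit 19) (nat_lit 2) (.n (nat_lit 20) (nat_lit 2) (.n (nat_lit 26) (nat_lit 1) (.n (nat_lit 27) (nat_lit 2) (.n (nat_lit 28) (nat_lit 2) (.n (nat_lit 29) (nat_lit 2) (.p (nat_lit 30) (nat_lit 2) (.n (nat_lit 32) (nat_lit 2) (.p (nat_lit 33) (nat_lit 2) (.p (nat_lit 34) (nat_lit 1) (.p (nat_lit 36) (nat_lit 1) (.p (nat_lit 38) (nat_lit 2) (.p (nat_lit 39) (nat_lit 1) (.p (nat_lit 40) (nat_lit 1) .z)))))))))))))))))))))))))) .nil)))))))))))))))))))))))) (.nd (.nd (.nd .leaf (nat_lit 51202) (nat_lit 167) (.p (nat_lit 110) (nat_lit 1) .z) .df .leaf) (nat_lit 51206) (nat_lit 544) (.n (nat_lit 212) (nat_lit 2) (.n (nat_lit 213) (nat_lit 2) (.n (nat_lit 214) (nat_lit 2) (.n (nat_lit 215) (nat_lit 2) (.n (nat_lit 216) (nat_lit 2) (.n (nat_lit 217) (nat_lit 3) (.n (nat_lit 218) (nat_lit 2) (.p (nat_lit 219) (nat_lit 2) (.p (nat_lit 220) (nat_lit 1) (.n (nat_lit 221) (nat_lit 1) (.n (nat_lit 223) (nat_lit 2) (.n (nat_lit 224) (nat_lit 3) (.n (nat_lit 226) (nat_lit 1) (.n (nat_lit 227) (nat_lit 2) (.n (nat_lit 229) (nat_lit 3) (.p (nat_lit 231) (nat_lit 2) (.p (nat_lit 233) (nat_lit 2) (.n (nat_lit 234) (nat_lit 3) (.n (nat_lit 235) (nat_lit 1) (.n (nat_lit 237) (nat_lit 3) (.n (nat_lit 238) (nat_lit 3) (.n (nat_lit 239) (nat_lit 1) (.n (nat_lit 240) (nat_lit 1) (.p (nat_lit 241) (nat_lit 3) (.n (nat_lit 242) (nat_lit 2) (.p (nat_lit 243) (nat_lit 3) (.n (nat_lit 244) (nat_lit 1) (.n (nat_lit 245) (nat_lit 3) (.n (nat_lit 248) (nat_lit 3) (.p (nat_lit 252) (nat_lit 2) .z)))))))))))))))))))))))))))))) (.ct dC1b_c547 (nat_lit 1) (nat_lit 8) (.s false (nat_lit 3) (nat_lit 13) (nat_lit 0) (nat_lit 6) (nat_lit 0) false (nat_lit 15) true (nat_lit 14) true (nat_lit 3) true (nat_lit 14) true (nat_lit 8) (.e false (nat_lit 1) (nat_lit 170) (nat_lit 0) (nat_lit 14) (.e true (nat_lit 1) (nat_lit 171) (nat_lit 0) (nat_lit 14) dC1b_i37)))) .leaf) (nat_lit 51218) (nat_lit 1192) (.p (nat_lit 355) (nat_lit 1) (.n (nat_lit 357) (nat_lit 1) (.n (nat_lit 359) (nat_lit 2) (.p (nat_lit 360) (nat_lit 1) (.n (nat_lit 361) (nat_lit 1) (.p (nat_lit 362) (nat_lit 1) (.p (nat_lit 363) (nat_lit 1) (.n (nat_lit 364) (nat_lit 3) (.p (nat_lit 365) (nat_lit 1) (.n (nat_lit 366) (nat_lit 3) (.n (nat_lit 367) (nat_lit 3) (.n (nat_lit 369) (nat_lit 3) (.n (nat_lit 370) (nat_lit 2) (.n (nat_lit 372) (nat_lit 2) (.n (nat_lit 373) (nat_lit 3) (.p (nat_lit 375) (nat_lit 1) (.n (nat_lit 381) (nat_lit 1) (.p (nat_lit 382) (nat_lit 3) (.n (nat_lit 383) (nat_lit 3) (.n (nat_lit 385) (nat_lit 3) (.p (nat_lit 386) (nat_lit 3) (.p (nat_lit 387) (nat_lit 3) (.n (nat_lit 388) (nat_lit 2) (.n (nat_lit 389) (nat_lit 2) (.n (nat_lit 390) (nat_lit 1) (.n (nat_lit 391) (nat_lit 1) (.n (nat_lit 392) (nat_lit 2) (.p (nat_lit 393) (nat_lit 2) (.n (nat_lit 394) (nat_lit 1) (.n (nat_lit 395) (nat_lit 2) (.p (nat_lit 396) (nat_lit 3) .z))))))))))))))))))))))))))))))) (.ct dC1b_c548 (nat_lit 1) (nat_lit 5) (.s true (nat_lit 3) (nat_lit 18) (nat_lit 0) (nat_lit 13) (nat_lit 0) false (nat_lit 20) true (nat_lit 19) true (nat_lit 5) true (nat_lit 19) true (nat_lit 8) (.e false (nat_lit 1) (nat_lit 290) (nat_lit 0) (nat_lit 19) (.e true (nat_lit 3) (nat_lit 291) (nat_lit 0) (nat_lit 19) (.e true (nat_lit 1) (nat_lit 293) (nat_lit 0) (nat_lit 19) (.e false (nat_lit 3) (nat_lit 295) (nat_lit 0) (nat_lit 19) (.e false (nat_lit 2) (nat_lit 296) (nat_lit 0) (nat_lit 19) (.e true (nat_lit 2) (nat_lit 297) (nat_lit 0) (nat_lit 19) dC1b_i38)))))))) (.nd (.nd .leaf (nat_lit 52226) (nat_lit 168) (.p (nat_lit 111) (nat_lit 1) .z) .df .leaf) (nat_lit 52230) (nat_lit 534) (.p (nat_lit 212) (nat_lit 2) (.p (nat_lit 213) (nat_lit 1) (.p (nat_lit 214) (nat_lit 1) (.n (nat_lit 215) (nat_lit 1) (.n (nat_lit 216) (nat_lit 2) (.p (nat_lit 217) (nat_lit 1) (.p (nat_lit 218) (nat_lit 1) (.n (nat_lit 219) (nat_lit 1) (.p (nat_lit 220) (nat_lit 1) (.p (nat_lit 221) (nat_lit 3) (.n (nat_lit 222) (nat_lit 3) (.n (nat_lit 223) (nat_lit 3) (.p (nat_lit 224) (nat_lit 3) (.p (nat_lit 226) (nat_lit 1) (.p (nat_lit 227) (nat_lit 2) (.n (nat_lit 229) (nat_lit 2) (.p (nat_lit 230) (nat_lit 3) (.n (nat_lit 231) (nat_lit 3) (.p (nat_lit 232) (nat_lit 3) (.n (nat_lit 233) (nat_lit 2) (.p (nat_lit 234) (nat_lit 3) (.p (nat_lit 235) (nat_lit 1) (.p (nat_lit 236) (nat_lit 1) (.n (nat_lit 237) (nat_lit 1) (.p (nat_lit 238) (nat_lit 3) (.n (nat_lit 239) (nat_lit 2) (.p (nat_lit 240) (nat_lit 1) (.n (nat_lit 241) (nat_lit 1) (.p (nat_lit 242) (nat_lit 2) (.p (nat_lit 243) (nat_lit 3) (.p (nat_lit 244) (nat_lit 1) (.p (nat_lit 245) (nat_lit 3) (.n (nat_lit 248) (nat_lit 3) (.p (nat_lit 250) (nat_lit 2) (.p (nat_lit 251) (nat_lit 2) (.p (nat_lit 252) (nat_lit 3) (.n (nat_lit 258) (nat_lit 2) (.p (nat_lit 259) (nat_lit 1) .z)))))))))))))))))))))))))))))))))))))) (.ct dC1b_c547 (nat_lit 1) (nat_lit 8) (.s false (nat_lit 1) (nat_lit 11) (nat_lit 0) (nat_lit 6) (nat_lit 1) true (nat_lit 11) true (nat_lit 13) true (nat_lit 4) true (nat_lit 14) true (nat_lit 8) (.e false (nat_lit 1) (nat_lit 91) (nat_lit 3) (nat_lit 11) (.e false (nat_lit 1) (nat_lit 149) (nat_lit 1) (nat_lit 13) (.e false (nat_lit 1) (nat_lit 150) (nat_lit 1) (nat_lit 13) (.e true (nat_lit 1) (nat_lit 151) (nat_lit 1) (nat_lit 13) (.e true (nat_lit 1) (nat_lit 35) (nat_lit 11) (nat_lit 4) (.e false (nat_lit 2) (nat_lit 155) (nat_lit 0) (nat_lit 14) (.e false (nat_lit 2) (nat_lit 158) (nat_lit 0) (nat_lit 14) (.e true (nat_lit 2) (nat_lit 163) (nat_lit 0) (nat_lit 14) (.e true (nat_lit 1) (nat_lit 168) (nat_lit 0) (nat_lit 14) (.e true (nat_lit 1) (nat_lit 172) (nat_lit 0) (nat_lit 14) (.e true (nat_lit 1) (nat_lit 48) (nat_lit 6) (nat_lit 8) (.e true (nat_lit 1) (nat_lit 54) (nat_lit 6) (nat_lit 8) (.u (nat_lit 2) (.n (nat_lit 1) (nat_lit 1) (.p (nat_lit 2) (nat_lit 1) (.p (nat_lit 3) (nat_lit 1) (.p (nat_lit 4) (nat_lit 1) (.p (nat_lit 8) (nat_lit 1) (.n (nat_lit 9) (nat_lit 2) (.p (nat_lit 11) (nat_lit 1) (.n (nat_lit 12) (nat_lit 2) (.n (nat_lit 15) (nat_lit 2) (.n (nat_lit 20) (nat_lit 1) (.n (nat_lit 21) (nat_lit 1) (.n (nat_lit 22) (nat_lit 2) (.p (nat_lit 24) (nat_lit 1) (.n (nat_lit 26) (nat_lit 2) (.p (nat_lit 27) (nat_lit 2) (.n (nat_lit 29) (nat_lit 2) (.n (nat_lit 30) (nat_lit 1) (.n (nat_lit 31) (nat_lit 1) (.n (nat_lit 33) (nat_lit 1) (.p (nat_lit 36) (nat_lit 1) (.n (nat_lit 38) (nat_lit 1) .z))))))))))))))))))))) .nil))))))))))))))) .leaf))))) (nat_lit 53250) (nat_lit 169) (.p (nat_lit 112) (nat_lit 1) .z) .df (.nd (.nd (.nd (.nd (.nd (.nd .leaf (nat_lit 53254) (nat_lit 499) (.p (nat_lit 212) (nat_lit 2) (.n (nat_lit 213) (nat_lit 3) (.n (nat_lit 215) (nat_lit 2) (.p (nat_lit 216) (nat_lit 3) (.n (nat_lit 217) (nat_lit 3) (.n (nat_lit 218) (nat_lit 2) (.p (nat_lit 219) (nat_lit 2) (.p (nat_lit 220) (nat_lit 2) (.p (nat_lit 221) (nat_lit 3) (.n (nat_lit 223) (nat_lit 3) (.n (nat_lit 224) (nat_lit 1) (.p (nat_lit 226) (nat_lit 2) (.n (nat_lit 227) (nat_lit 3) (.n (nat_lit 230) (nat_lit 1) (.p (nat_lit 231) (nat_lit 3) (.n (nat_lit 232) (nat_lit 3) (.p (nat_lit 234) (nat_lit 2) (.p (nat_lit 235) (nat_lit 2) (.n (nat_lit 236) (nat_lit 2) (.n (nat_lit 237) (nat_lit 3) (.n (nat_lit 238) (nat_lit 3) (.p (nat_lit 239) (nat_lit 3) (.n (nat_lit 240) (nat_lit 2) (.n (nat_lit 241) (nat_lit 2) (.p (nat_lit 243) (nat_lit 1) (.n (nat_lit 244) (nat_lit 3) (.n (nat_lit 245) (nat_lit 2) (.n (nat_lit 248) (nat_lit 1) (.p (nat_lit 253) (nat_lit 2) .z))))))))))))))))))))))))))))) (.ct dC1b_c547 (nat_lit 1) (nat_lit 8) (.s false (nat_lit 1) (nat_lit 24) (nat_lit 2) (nat_lit 0) (nat_lit 2) true (nat_lit 8) true (nat_lit 12) false (nat_lit 2) true (nat_lit 12) true (nat_lit 14) (.e false (nat_lit 2) (nat_lit 125) (nat_lit 2) (nat_lit 12) (.e true (nat_lit 1) (nat_lit 24) (nat_lit 14) (nat_lit 2) (.e false (nat_lit 1) (nat_lit 107) (nat_lit 2) (nat_lit 12) (.e false (nat_lit 2) (nat_lit 112) (nat_lit 2) (nat_lit 12) (.e true (nat_lit 1) (nat_lit 114) (nat_lit 2) (nat_lit 12) (.e true (nat_lit 1) (nat_lit 126) (nat_lit 2) (nat_lit 12) (.e true (nat_lit 1) (nat_lit 129) (nat_lit 2) (nat_lit 12) (.e false (nat_lit 1) (nat_lit 153) (nat_lit 0) (nat_lit 14) (.u (nat_lit 2) (.p (nat_lit 3) (nat_lit 2) (.p (nat_lit 6) (nat_lit 1) (.n (nat_lit 9) (nat_lit 1) (.p (nat_lit 13) (nat_lit 1) (.p (nat_lit 14) (nat_lit 1) (.p (nat_lit 15) (nat_lit 1) (.n (nat_lit 17) (nat_lit 1) (.p (nat_lit 18) (nat_lit 1) (.n (nat_lit 19) (nat_lit 1) (.n (nat_lit 23) (nat_lit 1) (.p (nat_lit 24) (nat_lit 2) (.p (nat_lit 26) (nat_lit 2) (.p (nat_lit 28) (nat_lit 1) (.p (nat_lit 29) (nat_lit 1) (.n (nat_lit 31) (nat_lit 1) (.p (nat_lit 32) (nat_lit 1) (.p (nat_lit 33) (nat_lit 1) (.n (nat_lit 34) (nat_lit 1) (.n (nat_lit 36) (nat_lit 1) .z))))))))))))))))))) .nil))))))))))) .leaf) (nat_lit 53266) (nat_lit 1133) (.n (nat_lit 355) (nat_lit 2) (.p (nat_lit 356) (nat_lit 1) (.n (nat_lit 357) (nat_lit 3) (.p (nat_lit 358) (nat_lit 1) (.n (nat_lit 359) (nat_lit 3) (.p (nat_lit 360) (nat_lit 3) (.n (nat_lit 361) (nat_lit 3) (.p (nat_lit 362) (nat_lit 3) (.p (nat_lit 363) (nat_lit 2) (.p (nat_lit 364) (nat_lit 3) (.p (nat_lit 365) (nat_lit 3) (.p (nat_lit 366) (nat_lit 3) (.p (nat_lit 367) (nat_lit 1) (.p (nat_lit 369) (nat_lit 2) (.p (nat_lit 370) (nat_lit 3) (.p (nat_lit 372) (nat_lit 2) (.p (nat_lit 373) (nat_lit 1) (.p (nat_lit 374) (nat_lit 3) (.n (nat_lit 381) (nat_lit 1) (.n (nat_lit 382) (nat_lit 1) (.n (nat_lit 383) (nat_lit 1) (.n (nat_lit 385) (nat_lit 1) (.p (nat_lit 386) (nat_lit 1) (.n (nat_lit 388) (nat_lit 3) (.n (nat_lit 389) (nat_lit 2) (.p (nat_lit 390) (nat_lit 2) (.n (nat_lit 391) (nat_lit 1) (.p (nat_lit 392) (nat_lit 1) (.p (nat_lit 393) (nat_lit 1) (.p (nat_lit 394) (nat_lit 1) (.n (nat_lit 396) (nat_lit 2) .z))))))))))))))))))))))))))))))) (.ct dC1b_c548 (nat_lit 1) (nat_lit 5) (.s false (nat_lit 1) (nat_lit 24) (nat_lit 6) (nat_lit 0) (nat_lit 2) true (nat_lit 5) true (nat_lit 17) true (nat_lit 2) true (nat_lit 13) true (nat_lit 19) (.e false (nat_lit 1) (nat_lit 229) (nat_lit 2) (nat_lit 17) (.e true (nat_lit 1) (nat_lit 41) (nat_lit 24) (nat_lit 2) (.e true (nat_lit 1) (nat_lit 107) (nat_lit 6) (nat_lit 13) (.e true (nat_lit 2) (nat_lit 112) (nat_lit 6) (nat_lit 13) (.e false (nat_lit 1) (nat_lit 114) (nat_lit 6) (nat_lit 13) (.e true (nat_lit 1) (nat_lit 125) (nat_lit 6) (nat_lit 13) (.e false (nat_lit 1) (nat_lit 126) (nat_lit 6) (nat_lit 13) (.e false (nat_lit 1) (nat_lit 129) (nat_lit 6) (nat_lit 13) (.e true (nat_lit 1) (nat_lit 316) (nat_lit 0) (nat_lit 19) (.u (nat_lit 2) (.n (nat_lit 1) (nat_lit 1) (.p (nat_lit 3) (nat_lit 1) (.p (nat_lit 4) (nat_lit 3) (.n (nat_lit 6) (nat_lit 2) (.p (nat_lit 7) (nat_lit 2) (.n (nat_lit 9) (nat_lit 2) (.n (nat_lit 10) (nat_lit 1) (.n (nat_lit 12) (nat_lit 1) (.n (nat_lit 15) (nat_lit 1) (.n (nat_lit 17) (nat_lit 1) (.n (nat_lit 18) (nat_lit 1) (.n (nat_lit 26) (nat_lit 1) (.p (nat_lit 27) (nat_lit 1) (.p (nat_lit 28) (nat_lit 1) (.p (nat_lit 29) (nat_lit 1) (.p (nat_lit 30) (nat_lit 1) (.p (nat_lit 31) (nat_lit 1) (.p (nat_lit 33) (nat_lit 1) (.n (nat_lit 35) (nat_lit 2) (.p (nat_lit 36) (nat_lit 1) (.p (nat_lit 37) (nat_lit 1) (.n (nat_lit 38) (nat_lit 1) (.n (nat_lit 40) (nat_lit 1) (.n (nat_lit 41) (nat_lit 1) (.n (nat_lit 67) (nat_lit 1) .z))))))))))))))))))))))))) .nil)))))))))))) .leaf) (nat_lit 54274) (nat_lit 170) (.p (nat_lit 113) (nat_lit 1) .z) .df (.nd (.nd .leaf (nat_lit 54278) (nat_lit 542) (.n (nat_lit 212) (nat_lit 3) (.n (nat_lit 213) (nat_lit 2) (.p (nat_lit 214) (nat_lit 3) (.p (nat_lit 215) (nat_lit 2) (.n (nat_lit 216) (nat_lit 2) (.n (nat_lit 217) (nat_lit 3) (.n (nat_lit 218) (nat_lit 2) (.p (nat_lit 219) (nat_lit 2) (.n (nat_lit 220) (nat_lit 1) (.p (nat_lit 221) (nat_lit 2) (.n (nat_lit 223) (nat_lit 2) (.p (nat_lit 224) (nat_lit 2) (.p (nat_lit 226) (nat_lit 1) (.n (nat_lit 227) (nat_lit 1) (.p (nat_lit 228) (nat_lit 1) (.n (nat_lit 229) (nat_lit 3) (.n (nat_lit 230) (nat_lit 2) (.n (nat_lit 232) (nat_lit 2) (.n (nat_lit 236) (nat_lit 3) (.p (nat_lit 237) (nat_lit 2) (.p (nat_lit 238) (nat_lit 2) (.p (nat_lit 242) (nat_lit 1) (.p (nat_lit 243) (nat_lit 3) (.n (nat_lit 245) (nat_lit 3) (.n (nat_lit 248) (nat_lit 3) (.n (nat_lit 249) (nat_lit 1) (.p (nat_lit 250) (nat_lit 2) (.p (nat_lit 251) (nat_lit 1) (.n (nat_lit 252) (nat_lit 2) (.p (nat_lit 253) (nat_lit 2) (.n (nat_lit 258) (nat_lit 1) .z))))))))))))))))))))))))))))))) (.ct dC1b_c547 (nat_lit 1) (nat_lit 8) (.s false (nat_lit 1) (nat_lit 12) (nat_lit 6) (nat_lit 0) (nat_lit 1) true (nat_lit 1) true (nat_lit 13) true (nat_lit 4) true (nat_lit 8) true (nat_lit 14) (.e true (nat_lit 1) (nat_lit 23) (nat_lit 17) (nat_lit 1) (.e false (nat_lit 1) (nat_lit 133) (nat_lit 1) (nat_lit 13) (.e true (nat_lit 1) (nat_lit 134) (nat_lit 1) (nat_lit 13) (.e true (nat_lit 3) (nat_lit 135) (nat_lit 1) (nat_lit 13) (.e false (nat_lit 2) (nat_lit 136) (nat_lit 1) (nat_lit 13) dC1b_i39))))))) .leaf) (nat_lit 54290) (nat_lit 1191) (.n (nat_lit 356) (nat_lit 3) (.n (nat_lit 357) (nat_lit 1) (.p (nat_lit 359) (nat_lit 2) (.p (nat_lit 360) (nat_lit 1) (.n (nat_lit 361) (nat_lit 1) (.p (nat_lit 362) (nat_lit 1) (.p (nat_lit 363) (nat_lit 3) (.p (nat_lit 365) (nat_lit 1) (.p (nat_lit 366) (nat_lit 2) (.n (nat_lit 367) (nat_lit 3) (.n (nat_lit 369) (nat_lit 2) (.n (nat_lit 370) (nat_lit 2) (.n (nat_lit 372) (nat_lit 2) (.p (nat_lit 375) (nat_lit 1) (.p (nat_lit 381) (nat_lit 1) (.p (nat_lit 383) (nat_lit 2) (.n (nat_lit 384) (nat_lit 3) (.n (nat_lit 385) (nat_lit 1) (.p (nat_lit 386) (nat_lit 3) (.n (nat_lit 387) (nat_lit 2) (.n (nat_lit 389) (nat_lit 1) (.n (nat_lit 390) (nat_lit 1) (.p (nat_lit 391) (nat_lit 3) (.n (nat_lit 392) (nat_lit 2) (.n (nat_lit 394) (nat_lit 1) (.n (nat_lit 395) (nat_lit 3) .z)))))))))))))))))))))))))) (.ct dC1b_c548 (nat_lit 1) (nat_lit 5) dC1b_i41) .leaf)) (nat_lit 55298) (nat_lit 171) (.p (nat_lit 114) (nat_lit 1) .z) .df (.nd (.nd (.nd .leaf (nat_lit 55302) (nat_lit 490) (.p (nat_lit 212) (nat_lit 1) (.n (nat_lit 214) (nat_lit 1) (.n (nat_lit 215) (nat_lit 3) (.n (nat_lit 216) (nat_lit 1) (.p (nat_lit 217) (nat_lit 3) (.n (nat_lit 218) (nat_lit 2) (.p (nat_lit 219) (nat_lit 2) (.n (nat_lit 220) (nat_lit 3) (.p (nat_lit 222) (nat_lit 1) (.n (nat_lit 223) (nat_lit 2) (.p (nat_lit 224) (nat_lit 1) (.n (nat_lit 226) (nat_lit 2) (.p (nat_lit 227) (nat_lit 3) (.p (nat_lit 229) (nat_lit 2) (.n (nat_lit 230) (nat_lit 3) (.p (nat_lit 231) (nat_lit 3) (.p (nat_lit 232) (nat_lit 2) (.n (nat_lit 236) (nat_lit 3) (.n (nat_lit 237) (nat_lit 3) (.p (nat_lit 238) (nat_lit 2) (.n (nat_lit 239) (nat_lit 1) (.p (nat_lit 241) (nat_lit 3) (.p (nat_lit 242) (nat_lit 3) (.p (nat_lit 243) (nat_lit 3) (.n (nat_lit 244) (nat_lit 2) (.p (nat_lit 245) (nat_lit 1) (.n (nat_lit 248) (nat_lit 3) (.n (nat_lit 249) (nat_lit 2) (.p (nat_lit 253) (nat_lit 2) .z))))))))))))))))))))))))))))) (.ct dC1b_c547 (nat_lit 1) (nat_lit 8) (.s true (nat_lit 1) (nat_lit 8) (nat_lit 2) (nat_lit 4) (nat_lit 2) true (nat_lit 8) true (nat_lit 12) true (nat_lit 6) true (nat_lit 12) true (nat_lit 10) (.s false (nat_lit 1) (nat_lit 8) (nat_lit 4) (nat_lit 2) (nat_lit 2) true (nat_lit 2) true (nat_lit 12) true (nat_lit 6) true (nat_lit 10) true (nat_lit 12) (.s true (nat_lit 1) (nat_lit 24) (nat_lit 0) (nat_lit 2) (nat_lit 2) true (nat_lit 10) true (nat_lit 12) false (nat_lit 2) true (nat_lit 14) true (nat_lit 12) (.e false (nat_lit 2) (nat_lit 107) (nat_lit 2) (nat_lit 12) (.e true (nat_lit 3) (nat_lit 112) (nat_lit 2) (nat_lit 12) (.e true (nat_lit 2) (nat_lit 114) (nat_lit 2) (nat_lit 12) (.e false (nat_lit 2) (nat_lit 125) (nat_lit 2) (nat_lit 12) (.e true (nat_lit 2) (nat_lit 126) (nat_lit 2) (nat_lit 12) (.e true (nat_lit 3) (nat_lit 129) (nat_lit 2) (nat_lit 12) (.e true (nat_lit 1) (nat_lit 74) (nat_lit 4) (nat_lit 10) (.e false (nat_lit 1) (nat_lit 170) (nat_lit 0) (nat_lit 14) (.u (nat_lit 2) (.n (nat_lit 0) (nat_lit 1) (.p (nat_lit 3) (nat_lit 3) (.n (nat_lit 5) (nat_lit 1) (.p (nat_lit 7) (nat_lit 1) (.p (nat_lit 8) (nat_lit 1) (.n (nat_lit 9) (nat_lit 1) (.p (nat_lit 13) (nat_lit 1) (.p (nat_lit 14) (nat_lit 2) (.n (nat_lit 15) (nat_lit 1) (.p (nat_lit 18) (nat_lit 1) (.n (nat_lit 19) (nat_lit 1) (.n (nat_lit 20) (nat_lit 1) (.p (nat_lit 21) (nat_lit 1) (.p (nat_lit 22) (nat_lit 1) (.p (nat_lit 24) (nat_lit 2) (.p (nat_lit 25) (nat_lit 1) (.p (nat_lit 26) (nat_lit 1) (.p (nat_lit 28) (nat_lit 1) (.n (nat_lit 31) (nat_lit 2) (.p (nat_lit 32) (nat_lit 2) (.p (nat_lit 33) (nat_lit 1) (.n (nat_lit 34) (nat_lit 1) (.n (nat_lit 36) (nat_lit 1) (.n (nat_lit 41) (nat_lit 1) (.p (nat_lit 141) (nat_lit 1) .z))))))))))))))))))))))))) .nil))))))))))))) .leaf) (nat_lit 55314) (nat_lit 1125) (.p (nat_lit 355) (nat_lit 1) (.p (nat_lit 356) (nat_lit 3) (.n (nat_lit 357) (nat_lit 2) (.p (nat_lit 358) (nat_lit 2) (.n (nat_lit 360) (nat_lit 1) (.n (nat_lit 361) (nat_lit 2) (.p (nat_lit 362) (nat_lit 2) (.p (nat_lit 363) (nat_lit 2) (.p (nat_lit 364) (nat_lit 1) (.n (nat_lit 365) (nat_lit 2) (.n (nat_lit 366) (nat_lit 3) (.n (nat_lit 367) (nat_lit 1) (.p (nat_lit 369) (nat_lit 1) (.n (nat_lit 370) (nat_lit 3) (.p (nat_lit 372) (nat_lit 2) (.n (nat_lit 373) (nat_lit 1) (.n (nat_lit 374) (nat_lit 3) (.n (nat_lit 375) (nat_lit 3) (.p (nat_lit 381) (nat_lit 1) (.p (nat_lit 382) (nat_lit 2) (.n (nat_lit 383) (nat_lit 3) (.n (nat_lit 384) (nat_lit 2) (.p (nat_lit 385) (nat_lit 2) (.n (nat_lit 386) (nat_lit 3) (.p (nat_lit 387) (nat_lit 1) (.n (nat_lit 388) (nat_lit 2) (.n (nat_lit 389) (nat_lit 1) (.p (nat_lit 390) (nat_lit 1) (.p (nat_lit 391) (nat_lit 3) (.n (nat_lit 392) (nat_lit 2) (.p (nat_lit 393) (nat_lit 3) (.n (nat_lit 394) (nat_lit 1) (.p (nat_lit 395) (nat_lit 2) (.p (nat_lit 396) (nat_lit 1) .z)))))))))))))))))))))))))))))))))) (.ct dC1b_c548 (nat_lit 1) (nat_lit 5) (.s false (nat_lit 1) (nat_lit 54) (nat_lit 2) (nat_lit 2) (nat_lit 2) true (nat_lit 13) true (nat_lit 17) false (nat_lit 5) true (nat_lit 17) true (nat_lit 17) (.e false (nat_lit 1) (nat_lit 114) (nat_lit 6) (nat_lit 13) (.e true (nat_lit 1) (nat_lit 212) (nat_lit 2) (nat_lit 17) (.e false (nat_lit 1) (nat_lit 214) (nat_lit 2) (nat_lit 17) (.e false (nat_lit 3) (nat_lit 215) (nat_lit 2) (nat_lit 17) (.e false (nat_lit 2) (nat_lit 218) (nat_lit 2) (nat_lit 17) (.e true (nat_lit 2) (nat_lit 219) (nat_lit 2) (nat_lit 17) dC1b_i42)))))))) .leaf) (nat_lit 56321) (nat_lit 172) (.p (nat_lit 115) (nat_lit 1) .z) .df (.nd (.nd .leaf (nat_lit 56322) (nat_lit 219) (.p (nat_lit 132) (nat_lit 1) .z) .df .leaf) (nat_lit 56325) (nat_lit 511) (.p (nat_lit 212) (nat_lit 3) (.n (nat_lit 213) (nat_lit 3) (.p (nat_lit 214) (nat_lit 2) (.n (nat_lit 215) (nat_lit 1) (.n (nat_lit 216) (nat_lit 2) (.n (nat_lit 217) (nat_lit 2) (.n (nat_lit 219) (nat_lit 1) (.p (nat_lit 220) (nat_lit 3) (.p (nat_lit 221) (nat_lit 2) (.p (nat_lit 223) (nat_lit 3) (.n (nat_lit 224) (nat_lit 1) (.p (nat_lit 225) (nat_lit 1) (.n (nat_lit 226) (nat_lit 1) (.n (nat_lit 228) (nat_lit 1) (.p (nat_lit 230) (nat_lit 1) (.n (nat_lit 231) (nat_lit 3) (.n (nat_lit 232) (nat_lit 1) (.p (nat_lit 233) (nat_lit 2) (.p (nat_lit 234) (nat_lit 2) (.p (nat_lit 235) (nat_lit 3) (.p (nat_lit 237) (nat_lit 1) (.p (nat_lit 239) (nat_lit 3) (.p (nat_lit 240) (nat_lit 1) (.n (nat_lit 241) (nat_lit 2) (.n (nat_lit 243) (nat_lit 3) (.n (nat_lit 244) (nat_lit 2) (.n (nat_lit 245) (nat_lit 3) (.n (nat_lit 246) (nat_lit 2) (.p (nat_lit 247) (nat_lit 2) (.p (nat_lit 248) (nat_lit 3) (.n (nat_lit 249) (nat_lit 1) (.p (nat_lit 250) (nat_lit 1) .z)))))))))))))))))))))))))))))))) (.ct dC1b_c547 (nat_lit 1) (nat_lit 9) (.s false (nat_lit 1) (nat_lit 7) (nat_lit 5) (nat_lit 2) (nat_lit 2) true (nat_lit 1) true (nat_lit 12) true (nat_lit 7) true (nat_lit 9) true (nat_lit 12) (.s true (nat_lit 1) (nat_lit 20) (nat_lit 1) (nat_lit 2) (nat_lit 2) true (nat_lit 9) true (nat_lit 12) false (nat_lit 1) true (nat_lit 13) true (nat_lit 12) (.e false (nat_lit 1) (nat_lit 108) (nat_lit 2) (nat_lit 12) (.e false (nat_lit 1) (nat_lit 43) (nat_lit 7) (nat_lit 7) (.e true (nat_lit 1) (nat_lit 65) (nat_lit 5) (nat_lit 9) (.e false (nat_lit 1) (nat_lit 107) (nat_lit 2) (nat_lit 12) (.e true (nat_lit 1) (nat_lit 124) (nat_lit 2) (nat_lit 12) (.e true (nat_lit 1) (nat_lit 129) (nat_lit 2) (nat_lit 12) (.e false (nat_lit 1) (nat_lit 149) (nat_lit 1) (nat_lit 13) (.u (nat_lit 2) (.n (nat_lit 0) (nat_lit 1) (.p (nat_lit 2) (nat_lit 1) (.p (nat_lit 4) (nat_lit 1) (.p (nat_lit 5) (nat_lit 1) (.p (nat_lit 7) (nat_lit 1) (.n (nat_lit 8) (nat_lit 1) (.n (nat_lit 9) (nat_lit 1) (.p (nat_lit 10) (nat_lit 1) (.n (nat_lit 11) (nat_lit 1) (.n (nat_lit 21) (nat_lit 1) (.n (nat_lit 23) (nat_lit 2) (.n (nat_lit 25) (nat_lit 1) (.n (nat_lit 30) (nat_lit 1) (.p (nat_lit 31) (nat_lit 1) (.p (nat_lit 32) (nat_lit 1) (.n (nat_lit 36) (nat_lit 1) .z)))))))))))))))) .nil))))))))))) .leaf))) (nat_lit 56326) (nat_lit 599) (.p (nat_lit 286) (nat_lit 1) .z) .df (.nd (.nd (.nd (.nd .leaf (nat_lit 56336) (nat_lit 1143) (.p (nat_lit 355) (nat_lit 3) (.n (nat_lit 356) (nat_lit 2) (.p (nat_lit 357) (nat_lit 1) (.n (nat_lit 359) (nat_lit 1) (.p (nat_lit 361) (nat_lit 1) (.n (nat_lit 362) (nat_lit 1) (.n (nat_lit 363) (nat_lit 2) (.n (nat_lit 364) (nat_lit 1) (.n (nat_lit 365) (nat_lit 2) (.p (nat_lit 366) (nat_lit 3) (.p (nat_lit 367) (nat_lit 1) (.n (nat_lit 369) (nat_lit 1) (.p (nat_lit 370) (nat_lit 3) (.p (nat_lit 372) (nat_lit 2) (.n (nat_lit 373) (nat_lit 1) (.p (nat_lit 374) (nat_lit 3) (.p (nat_lit 375) (nat_lit 3) (.p (nat_lit 376) (nat_lit 1) (.n (nat_lit 378) (nat_lit 1) (.n (nat_lit 379) (nat_lit 3) (.n (nat_lit 380) (nat_lit 3) (.n (nat_lit 381) (nat_lit 2) (.p (nat_lit 382) (nat_lit 3) (.n (nat_lit 383) (nat_lit 1) (.p (nat_lit 384) (nat_lit 2) (.p (nat_lit 385) (nat_lit 1) (.n (nat_lit 387) (nat_lit 2) (.p (nat_lit 388) (nat_lit 1) (.p (nat_lit 389) (nat_lit 1) (.n (nat_lit 392) (nat_lit 2) (.p (nat_lit 393) (nat_lit 3) (.n (nat_lit 395) (nat_lit 2) (.p (nat_lit 396) (nat_lit 1) (.p (nat_lit 400) (nat_lit 3) (.n (nat_lit 401) (nat_lit 1) (.p (nat_lit 403) (nat_lit 1) (.p (nat_lit 422) (nat_lit 3) .z))))))))))))))))))))))))))))))))))))) (.ct dC1b_c548 (nat_lit 1) (nat_lit 6) (.s false (nat_lit 1) (nat_lit 55) (nat_lit 2) (nat_lit 1) (nat_lit 2) true (nat_lit 13) true (nat_lit 17) false (nat_lit 6) true (nat_lit 17) true (nat_lit 18) (.e true (nat_lit 1) (nat_lit 115) (nat_lit 6) (nat_lit 13) (.e false (nat_lit 2) (nat_lit 232) (nat_lit 2) (nat_lit 17) (.e true (nat_lit 3) (nat_lit 212) (nat_lit 2) (nat_lit 17) (.e false (nat_lit 3) (nat_lit 213) (nat_lit 2) (nat_lit 17) (.e true (nat_lit 2) (nat_lit 214) (nat_lit 2) (nat_lit 17) (.e false (nat_lit 1) (nat_lit 215) (nat_lit 2) (nat_lit 17) (.e false (nat_lit 2) (nat_lit 216) (nat_lit 2) (nat_lit 17) (.e false (nat_lit 2) (nat_lit 217) (nat_lit 2) (nat_lit 17) (.e false (nat_lit 1) (nat_lit 219) (nat_lit 2) (nat_lit 17) (.e true (nat_lit 3) (nat_lit 220) (nat_lit 2) (nat_lit 17) dC1b_i43)))))))))))) .leaf) (nat_lit 56337) (nat_lit 1141) (.p (nat_lit 355) (nat_lit 2) (.n (nat_lit 357) (nat_lit 2) (.p (nat_lit 358) (nat_lit 1) (.p (nat_lit 360) (nat_lit 1) (.n (nat_lit 361) (nat_lit 1) (.p (nat_lit 362) (nat_lit 1) (.p (nat_lit 364) (nat_lit 3) (.p (nat_lit 365) (nat_lit 1) (.n (nat_lit 367) (nat_lit 1) (.p (nat_lit 369) (nat_lit 1) (.n (nat_lit 370) (nat_lit 3) (.p (nat_lit 372) (nat_lit 3) (.p (nat_lit 373) (nat_lit 2) (.n (nat_lit 375) (nat_lit 1) (.p (nat_lit 376) (nat_lit 2) (.n (nat_lit 378) (nat_lit 2) (.p (nat_lit 379) (nat_lit 1) (.p (nat_lit 380) (nat_lit 1) (.n (nat_lit 381) (nat_lit 3) (.n (nat_lit 382) (nat_lit 2) (.p (nat_lit 383) (nat_lit 2) (.n (nat_lit 384) (nat_lit 3) (.n (nat_lit 385) (nat_lit 1) (.p (nat_lit 386) (nat_lit 3) (.n (nat_lit 387) (nat_lit 3) (.p (nat_lit 388) (nat_lit 3) (.p (nat_lit 389) (nat_lit 3) (.n (nat_lit 390) (nat_lit 1) (.n (nat_lit 391) (nat_lit 3) (.n (nat_lit 392) (nat_lit 2) (.p (nat_lit 393) (nat_lit 2) (.p (nat_lit 395) (nat_lit 1) (.p (nat_lit 396) (nat_lit 3) (.n (nat_lit 400) (nat_lit 1) (.n (nat_lit 401) (nat_lit 2) (.p (nat_lit 403) (nat_lit 2) (.n (nat_lit 422) (nat_lit 1) .z))))))))))))))))))))))))))))))))))))) (.ct dC1b_c548 (nat_lit 1) (nat_lit 6) (.s true (nat_lit 1) (nat_lit 20) (nat_lit 1) (nat_lit 2) (nat_lit 6) true (nat_lit 6) true (nat_lit 13) true (nat_lit 3) true (nat_lit 18) true (nat_lit 17) (.e true (nat_lit 1) (nat_lit 108) (nat_lit 6) (nat_lit 13) (.e true (nat_lit 1) (nat_lit 44) (nat_lit 20) (nat_lit 3) (.e true (nat_lit 1) (nat_lit 45) (nat_lit 20) (nat_lit 3) (.e false (nat_lit 1) (nat_lit 277) (nat_lit 1) (nat_lit 18) (.e true (nat_lit 1) (nat_lit 286) (nat_lit 1) (nat_lit 18) (.e true (nat_lit 3) (nat_lit 212) (nat_lit 2) (nat_lit 17) (.e true (nat_lit 3) (nat_lit 213) (nat_lit 2) (nat_lit 17) dC1b_i44))))))))) .leaf) (nat_lit 56338) (nat_lit 1267) (.p (nat_lit 426) (nat_lit 3) (.p (nat_lit 427) (nat_lit 2) (.p (nat_lit 428) (nat_lit 1) (.p (nat_lit 429) (nat_lit 3) (.p (nat_lit 430) (nat_lit 3) (.p (nat_lit 431) (nat_lit 1) (.n (nat_lit 432) (nat_lit 3) (.n (nat_lit 433) (nat_lit 3) (.p (nat_lit 435) (nat_lit 2) (.p (nat_lit 438) (nat_lit 3) (.p (nat_lit 439) (nat_lit 2) (.p (nat_lit 441) (nat_lit 1) (.n (nat_lit 442) (nat_lit 2) (.p (nat_lit 443) (nat_lit 1) (.n (nat_lit 444) (nat_lit 2) (.p (nat_lit 445) (nat_lit 1) (.p (nat_lit 456) (nat_lit 1) (.p (nat_lit 459) (nat_lit 3) .z)))))))))))))))))) (.ct dC1b_c533 (nat_lit 1) (nat_lit 3) (.s false (nat_lit 1) (nat_lit 20) (nat_lit 2) (nat_lit 2) (nat_lit 6) true (nat_lit 3) true (nat_lit 9) true (nat_lit 2) true (nat_lit 13) true (nat_lit 13) (.e false (nat_lit 1) (nat_lit 132) (nat_lit 6) (nat_lit 9) (.e true (nat_lit 1) (nat_lit 286) (nat_lit 2) (nat_lit 13) .nil)))) (.nd (.nd .leaf (nat_lit 57345) (nat_lit 173) (.p (nat_lit 116) (nat_lit 1) .z) .df .leaf) (nat_lit 57346) (nat_lit 220) (.p (nat_lit 133) (nat_lit 1) .z) .df .leaf)) (nat_lit 57349) (nat_lit 473) (.p (nat_lit 212) (nat_lit 2) (.n (nat_lit 213) (nat_lit 2) (.p (nat_lit 214) (nat_lit 1) (.n (nat_lit 215) (nat_lit 3) (.p (nat_lit 216) (nat_lit 2) (.p (nat_lit 218) (nat_lit 2) (.p (nat_lit 219) (nat_lit 2) (.p (nat_lit 220) (nat_lit 2) (.n (nat_lit 221) (nat_lit 2) (.p (nat_lit 222) (nat_lit 3) (.n (nat_lit 223) (nat_lit 2) (.n (nat_lit 224) (nat_lit 1) (.p (nat_lit 226) (nat_lit 1) (.n (nat_lit 227) (nat_lit 3) (.p (nat_lit 228) (nat_lit 3) (.n (nat_lit 229) (nat_lit 2) (.p (nat_lit 230) (nat_lit 1) (.p (nat_lit 232) (nat_lit 2) (.n (nat_lit 233) (nat_lit 2) (.n (nat_lit 234) (nat_lit 2) (.p (nat_lit 235) (nat_lit 2) (.p (nat_lit 236) (nat_lit 3) (.p (nat_lit 237) (nat_lit 3) (.p (nat_lit 238) (nat_lit 1) (.n (nat_lit 239) (nat_lit 2) (.p (nat_lit 240) (nat_lit 1) (.n (nat_lit 241) (nat_lit 1) (.p (nat_lit 242) (nat_lit 2) (.n (nat_lit 243) (nat_lit 3) (.p (nat_lit 244) (nat_lit 3) (.p (nat_lit 245) (nat_lit 2) (.n (nat_lit 248) (nat_lit 1) (.p (nat_lit 251) (nat_lit 3) (.n (nat_lit 256) (nat_lit 3) (.p (nat_lit 257) (nat_lit 1) (.p (nat_lit 258) (nat_lit 2) (.n (nat_lit 259) (nat_lit 1) .z))))))))))))))))))))))))))))))))))))) (.ct dC1b_c547 (nat_lit 1) (nat_lit 9) (.s false (nat_lit 3) (nat_lit 9) (nat_lit 1) (nat_lit 2) (nat_lit 5) true (nat_lit 3) true (nat_lit 9) true (nat_lit 5) true (nat_lit 13) true (nat_lit 12) (.s false (nat_lit 3) (nat_lit 9) (nat_lit 2) (nat_lit 1) (nat_lit 5) true (nat_lit 1) true (nat_lit 9) true (nat_lit 5) true (nat_lit 12) true (nat_lit 13) (.s false (nat_lit 3) (nat_lit 21) (nat_lit 1) (nat_lit 2) (nat_lit 2) true (nat_lit 9) true (nat_lit 12) false (nat_lit 1) true (nat_lit 13) true (nat_lit 12) (.e false (nat_lit 3) (nat_lit 28) (nat_lit 13) (nat_lit 3) (.e false (nat_lit 1) (nat_lit 132) (nat_lit 1) (nat_lit 13) (.e false (nat_lit 1) (nat_lit 134) (nat_lit 1) (nat_lit 13) (.e false (nat_lit 3) (nat_lit 137) (nat_lit 1) (nat_lit 13) (.e false (nat_lit 3) (nat_lit 138) (nat_lit 1) (nat_lit 13) (.e false (nat_lit 1) (nat_lit 139) (nat_lit 1) (nat_lit 13) (.e false (nat_lit 1) (nat_lit 140) (nat_lit 1) (nat_lit 13) (.e true (nat_lit 3) (nat_lit 141) (nat_lit 1) (nat_lit 13) (.e false (nat_lit 2) (nat_lit 142) (nat_lit 1) (nat_lit 13) (.e true (nat_lit 3) (nat_lit 143) (nat_lit 1) (nat_lit 13) (.e false (nat_lit 3) (nat_lit 59) (nat_lit 5) (nat_lit 9) (.e true (nat_lit 1) (nat_lit 116) (nat_lit 2) (nat_lit 12) (.u (nat_lit 2) (.n (nat_lit 24) (nat_lit 1) (.p (nat_lit 104) (nat_lit 1) (.p (nat_lit 145) (nat_lit 1) (.n (nat_lit 148) (nat_lit 3) (.n (nat_lit 161) (nat_lit 1) (.n (nat_lit 163) (nat_lit 1) (.n (nat_lit 166) (nat_lit 3) (.n (nat_lit 167) (nat_lit 3) (.n (nat_lit 168) (nat_lit 1) (.n (nat_lit 169) (nat_lit 1) (.p (nat_lit 170) (nat_lit 3) (.n (nat_lit 171) (nat_lit 2) .z)))))))))))) .nil))))))))))))))))) (.nd (.nd (.nd .leaf (nat_lit 57350) (nat_lit 600) (.p (nat_lit 287) (nat_lit 1) .z) .df .leaf) (nat_lit 57360) (nat_lit 1092) (.n (nat_lit 355) (nat_lit 1) (.n (nat_lit 356) (nat_lit 1) (.n (nat_lit 357) (nat_lit 1) (.n (nat_lit 358) (nat_lit 1) (.n (nat_lit 359) (nat_lit 1) (.n (nat_lit 360) (nat_lit 3) (.p (nat_lit 361) (nat_lit 1) (.n (nat_lit 362) (nat_lit 2) (.p (nat_lit 364) (nat_lit 2) (.n (nat_lit 365) (nat_lit 2) (.p (nat_lit 366) (nat_lit 1) (.n (nat_lit 367) (nat_lit 1) (.p (nat_lit 368) (nat_lit 1) (.p (nat_lit 369) (nat_lit 3) (.p (nat_lit 370) (nat_lit 3) (.n (nat_lit 371) (nat_lit 1) (.n (nat_lit 372) (nat_lit 3) (.p (nat_lit 373) (nat_lit 2) (.p (nat_lit 374) (nat_lit 3) (.p (nat_lit 378) (nat_lit 1) (.n (nat_lit 380) (nat_lit 1) (.p (nat_lit 381) (nat_lit 1) (.n (nat_lit 382) (nat_lit 2) (.n (nat_lit 383) (nat_lit 3) (.n (nat_lit 384) (nat_lit 1) (.p (nat_lit 385) (nat_lit 2) (.n (nat_lit 387) (nat_lit 1) (.p (nat_lit 390) (nat_lit 2) (.n (nat_lit 392) (nat_lit 1) (.p (nat_lit 393) (nat_lit 3) (.n (nat_lit 394) (nat_lit 1) (.n (nat_lit 395) (nat_lit 1) (.n (nat_lit 396) (nat_lit 1) (.p (nat_lit 399) (nat_lit 1) (.p (nat_lit 405) (nat_lit 1) (.n (nat_lit 406) (nat_lit 1) (.n (nat_lit 407) (nat_lit 1) (.p (nat_lit 409) (nat_lit 1) (.p (nat_lit 412) (nat_lit 1) (.n (nat_lit 413) (nat_lit 1) (.p (nat_lit 414) (nat_lit 1) (.p (nat_lit 416) (nat_lit 1) (.n (nat_lit 423) (nat_lit 1) .z))))))))))))))))))))))))))))))))))))))))))) (.ct dC1b_c548 (nat_lit 1) (nat_lit 6) (.s false (nat_lit 1) (nat_lit 56) (nat_lit 2) (nat_lit 1) (nat_lit 2) true (nat_lit 13) true (nat_lit 17) false (nat_lit 6) true (nat_lit 17) true (nat_lit 18) (.e true (nat_lit 1) (nat_lit 116) (nat_lit 6) (nat_lit 13) (.e false (nat_lit 3) (nat_lit 233) (nat_lit 2) (nat_lit 17) (.e true (nat_lit 2) (nat_lit 212) (nat_lit 2) (nat_lit 17) (.e false (nat_lit 2) (nat_lit 213) (nat_lit 2) (nat_lit 17) (.e true (nat_lit 1) (nat_lit 214) (nat_lit 2) (nat_lit 17) (.e false (nat_lit 3) (nat_lit 215) (nat_lit 2) (nat_lit 17) (.e true (nat_lit 2) (nat_lit 216) (nat_lit 2) (nat_lit 17) (.e true (nat_lit 2) (nat_lit 218) (nat_lit 2) (nat_lit 17) (.e true (nat_lit 2) (nat_lit 219) (nat_lit 2) (nat_lit 17) (.e true (nat_lit 2) (nat_lit 220) (nat_lit 2) (nat_lit 17) (.e false (nat_lit 2) (nat_lit 221) (nat_lit 2) (nat_lit 17) (.e true (nat_lit 3) (nat_lit 222) (nat_lit 2) (nat_lit 17) (.e false (nat_lit 2) (nat_lit 223) (nat_lit 2) (nat_lit 17) (.e false (nat_lit 1) (nat_lit 224) (nat_lit 2) (nat_lit 17) (.e true (nat_lit 1) (nat_lit 226) (nat_lit 2) (nat_lit 17) dC1b_i45))))))))))))))))) .leaf) (nat_lit 57361) (nat_lit 1090) (.n (nat_lit 355) (nat_lit 3) (.n (nat_lit 356) (nat_lit 2) (.n (nat_lit 357) (nat_lit 1) (.p (nat_lit 358) (nat_lit 2) (.n (nat_lit 359) (nat_lit 2) (.p (nat_lit 360) (nat_lit 1) (.p (nat_lit 361) (nat_lit 1) (.n (nat_lit 362) (nat_lit 3) (.n (nat_lit 363) (nat_lit 3) (.n (nat_lit 364) (nat_lit 3) (.n (nat_lit 365) (nat_lit 2) (.n (nat_lit 366) (nat_lit 3) (.n (nat_lit 367) (nat_lit 1) (.p (nat_lit 368) (nat_lit 2) (.n (nat_lit 369) (nat_lit 2) (.p (nat_lit 370) (nat_lit 2) (.n (nat_lit 371) (nat_lit 2) (.p (nat_lit 372) (nat_lit 2) (.p (nat_lit 378) (nat_lit 2) (.n (nat_lit 380) (nat_lit 2) (.n (nat_lit 381) (nat_lit 3) (.n (nat_lit 382) (nat_lit 3) (.n (nat_lit 383) (nat_lit 2) (.p (nat_lit 384) (nat_lit 2) (.n (nat_lit 385) (nat_lit 2) (.p (nat_lit 386) (nat_lit 1) (.n (nat_lit 387) (nat_lit 1) (.n (nat_lit 388) (nat_lit 1) (.n (nat_lit 390) (nat_lit 1) (.p (nat_lit 392) (nat_lit 3) (.p (nat_lit 393) (nat_lit 3) (.n (nat_lit 394) (nat_lit 1) (.p (nat_lit 395) (nat_lit 3) (.n (nat_lit 396) (nat_lit 3) (.p (nat_lit 399) (nat_lit 2) (.p (nat_lit 404) (nat_lit 3) (.p (nat_lit 405) (nat_lit 3) (.n (nat_lit 406) (nat_lit 3) (.n (nat_lit 407) (nat_lit 2) (.p (nat_lit 408) (nat_lit 1) (.n (nat_lit 409) (nat_lit 2) (.n (nat_lit 410) (nat_lit 3) (.p (nat_lit 412) (nat_lit 2) (.n (nat_lit 413) (nat_lit 2) (.p (nat_lit 414) (nat_lit 2) (.p (nat_lit 416) (nat_lit 2) (.n (nat_lit 423) (nat_lit 2) .z))))))))))))))))))))))))))))))))))))))))))))))) (.ct dC1b_c548 (nat_lit 1) (nat_lit 6) (.s true (nat_lit 1) (nat_lit 17) (nat_lit 9) (nat_lit 1) (nat_lit 2) true (nat_lit 1) true (nat_lit 17) true (nat_lit 6) true (nat_lit 10) true (nat_lit 18) (.e false (nat_lit 1) (nat_lit 39) (nat_lit 28) (nat_lit 1) (.e true (nat_lit 1) (nat_lit 232) (nat_lit 2) (nat_lit 17) (.e true (nat_lit 1) (nat_lit 233) (nat_lit 2) (nat_lit 17) (.e true (nat_lit 1) (nat_lit 234) (nat_lit 2) (nat_lit 17) (.e true (nat_lit 3) (nat_lit 236) (nat_lit 2) (nat_lit 17) (.e true (nat_lit 3) (nat_lit 237) (nat_lit 2) (nat_lit 17) (.e true (nat_lit 3) (nat_lit 238) (nat_lit 2) (nat_lit 17) (.e true (nat_lit 1) (nat_lit 239) (nat_lit 2) (nat_lit 17) (.e true (nat_lit 1) (nat_lit 240) (nat_lit 2) (nat_lit 17) (.e false (nat_lit 3) (nat_lit 241) (nat_lit 2) (nat_lit 17) (.e true (nat_lit 2) (nat_lit 242) (nat_lit 2) (nat_lit 17) (.e false (nat_lit 1) (nat_lit 243) (nat_lit 2) (nat_lit 17) (.e false (nat_lit 1) (nat_lit 248) (nat_lit 2) (nat_lit 17) (.e false (nat_lit 2) (nat_lit 93) (nat_lit 9) (nat_lit 10) dC1b_i46)))))))))))))))) (.nd (.nd .leaf (nat_lit 57362) (nat_lit 1303) (.n (nat_lit 426) (nat_lit 1) (.n (nat_lit 427) (nat_lit 2) (.n (nat_lit 428) (nat_lit 3) (.n (nat_lit 429) (nat_lit 3) (.p (nat_lit 430) (nat_lit 2) (.p (nat_lit 431) (nat_lit 1) (.n (nat_lit 432) (nat_lit 2) (.n (nat_lit 433) (nat_lit 2) (.p (nat_lit 434) (nat_lit 1) (.n (nat_lit 435) (nat_lit 1) (.p (nat_lit 436) (nat_lit 3) (.p (nat_lit 438) (nat_lit 2) (.p (nat_lit 439) (nat_lit 3) (.p (nat_lit 442) (nat_lit 3) (.n (nat_lit 445) (nat_lit 3) (.n (nat_lit 456) (nat_lit 2) (.p (nat_lit 459) (nat_lit 1) .z))))))))))))))))) (.ct dC1b_c533 (nat_lit 1) (nat_lit 3) (.s false (nat_lit 1) (nat_lit 21) (nat_lit 6) (nat_lit 2) (nat_lit 2) true (nat_lit 3) true (nat_lit 13) true (nat_lit 2) true (nat_lit 9) true (nat_lit 13) (.e false (nat_lit 1) (nat_lit 278) (nat_lit 2) (nat_lit 13) (.e false (nat_lit 1) (nat_lit 46) (nat_lit 21) (nat_lit 2) (.e true (nat_lit 1) (nat_lit 150) (nat_lit 6) (nat_lit 9) (.e false (nat_lit 1) (nat_lit 287) (nat_lit 2) (nat_lit 13) (.u (nat_lit 2) (.p (nat_lit 0) (nat_lit 1) (.p (nat_lit 2) (nat_lit 1) (.p (nat_lit 5) (nat_lit 1) (.p (nat_lit 6) (nat_lit 1) (.p (nat_lit 7) (nat_lit 1) (.n (nat_lit 8) (nat_lit 1) (.n (nat_lit 13) (nat_lit 1) (.n (nat_lit 16) (nat_lit 1) (.p (nat_lit 21) (nat_lit 1) .z))))))))) .nil))))))) .leaf) (nat_lit 58369) (nat_lit 174) (.p (nat_lit 117) (nat_lit 1) .z) .df .leaf)))) (nat_lit 58370) (nat_lit 221) (.p (nat_lit 134) (nat_lit 1) .z) .df (.nd (.nd (.nd (.nd (.nd .leaf (nat_lit 58373) (nat_lit 538) (.p (nat_lit 213) (nat_lit 1) (.p (nat_lit 214) (nat_lit 3) (.n (nat_lit 215) (nat_lit 2) (.n (nat_lit 216) (nat_lit 2) (.n (nat_lit 217) (nat_lit 1) (.p (nat_lit 218) (nat_lit 1) (.n (nat_lit 219) (nat_lit 1) (.n (nat_lit 222) (nat_lit 1) (.p (nat_lit 223) (nat_lit 3) (.p (nat_lit 224) (nat_lit 1) (.p (nat_lit 226) (nat_lit 3) (.p (nat_lit 227) (nat_lit 3) (.n (nat_lit 229) (nat_lit 2) (.n (nat_lit 231) (nat_lit 1) (.p (nat_lit 233) (nat_lit 2) (.p (nat_lit 234) (nat_lit 3) (.n (nat_lit 235) (nat_lit 3) (.p (nat_lit 236) (nat_lit 2) (.n (nat_lit 237) (nat_lit 2) (.n (nat_lit 239) (nat_lit 2) (.p (nat_lit 240) (nat_lit 1) (.n (nat_lit 241) (nat_lit 1) (.p (nat_lit 242) (nat_lit 2) (.p (nat_lit 243) (nat_lit 2) (.n (nat_lit 244) (nat_lit 3) (.n (nat_lit 245) (nat_lit 2) (.n (nat_lit 248) (nat_lit 2) (.n (nat_lit 254) (nat_lit 1) .z)))))))))))))))))))))))))))) (.ct dC1b_c547 (nat_lit 1) (nat_lit 9) (.s true (nat_lit 2) (nat_lit 15) (nat_lit 5) (nat_lit 0) (nat_lit 1) true (nat_lit 3) true (nat_lit 13) true (nat_lit 2) true (nat_lit 9) true (nat_lit 14) (.e false (nat_lit 2) (nat_lit 30) (nat_lit 13) (nat_lit 3) (.e false (nat_lit 1) (nat_lit 132) (nat_lit 1) (nat_lit 13) (.e false (nat_lit 1) (nat_lit 133) (nat_lit 1) (nat_lit 13) (.e true (nat_lit 2) (nat_lit 134) (nat_lit 1) (nat_lit 13) (.e false (nat_lit 1) (nat_lit 138) (nat_lit 1) (nat_lit 13) (.e false (nat_lit 1) (nat_lit 139) (nat_lit 1) (nat_lit 13) (.e true (nat_lit 3) (nat_lit 141) (nat_lit 1) (nat_lit 13) (.e false (nat_lit 2) (nat_lit 143) (nat_lit 1) (nat_lit 13) (.e false (nat_lit 3) (nat_lit 149) (nat_lit 1) (nat_lit 13) (.e true (nat_lit 1) (nat_lit 151) (nat_lit 1) (nat_lit 13) (.e true (nat_lit 2) (nat_lit 152) (nat_lit 1) (nat_lit 13) (.e false (nat_lit 2) (nat_lit 140) (nat_lit 1) (nat_lit 13) (.e true (nat_lit 1) (nat_lit 136) (nat_lit 1) (nat_lit 13) (.e false (nat_lit 1) (nat_lit 144) (nat_lit 1) (nat_lit 13) (.e false (nat_lit 1) (nat_lit 145) (nat_lit 1) (nat_lit 13) (.e false (nat_lit 3) (nat_lit 147) (nat_lit 1) (nat_lit 13) (.e true (nat_lit 3) (nat_lit 148) (nat_lit 1) (nat_lit 13) (.e true (nat_lit 2) (nat_lit 27) (nat_lit 15) (nat_lit 2) (.e false (nat_lit 3) (nat_lit 55) (nat_lit 5) (nat_lit 9) dC1b_i47))))))))))))))))))))) .leaf) (nat_lit 58374) (nat_lit 601) (.p (nat_lit 288) (nat_lit 1) .z) .df .leaf) (nat_lit 58384) (nat_lit 1206) (.p (nat_lit 355) (nat_lit 2) (.n (nat_lit 356) (nat_lit 1) (.n (nat_lit 357) (nat_lit 2) (.n (nat_lit 358) (nat_lit 1) (.n (nat_lit 359) (nat_lit 3) (.n (nat_lit 360) (nat_lit 2) (.p (nat_lit 361) (nat_lit 2) (.p (nat_lit 362) (nat_lit 1) (.p (nat_lit 363) (nat_lit 3) (.n (nat_lit 364) (nat_lit 3) (.n (nat_lit 365) (nat_lit 3) (.n (nat_lit 366) (nat_lit 3) (.n (nat_lit 367) (nat_lit 2) (.n (nat_lit 369) (nat_lit 3) (.p (nat_lit 370) (nat_lit 1) (.n (nat_lit 373) (nat_lit 3) (.n (nat_lit 374) (nat_lit 1) (.n (nat_lit 375) (nat_lit 3) (.p (nat_lit 376) (nat_lit 1) (.n (nat_lit 377) (nat_lit 1) (.n (nat_lit 379) (nat_lit 1) (.n (nat_lit 380) (nat_lit 2) (.p (nat_lit 381) (nat_lit 1) (.p (nat_lit 382) (nat_lit 3) (.p (nat_lit 383) (nat_lit 1) (.n (nat_lit 384) (nat_lit 3) (.n (nat_lit 385) (nat_lit 3) (.n (nat_lit 386) (nat_lit 3) (.n (nat_lit 387) (nat_lit 3) (.p (nat_lit 388) (nat_lit 2) (.p (nat_lit 389) (nat_lit 3) (.p (nat_lit 390) (nat_lit 2) (.n (nat_lit 391) (nat_lit 1) (.p (nat_lit 392) (nat_lit 3) (.n (nat_lit 393) (nat_lit 3) (.n (nat_lit 395) (nat_lit 3) (.n (nat_lit 396) (nat_lit 2) (.n (nat_lit 397) (nat_lit 1) (.p (nat_lit 398) (nat_lit 1) (.n (nat_lit 399) (nat_lit 3) (.n (nat_lit 400) (nat_lit 2) (.p (nat_lit 401) (nat_lit 3) (.n (nat_lit 403) (nat_lit 3) (.n (nat_lit 404) (nat_lit 1) (.p (nat_lit 405) (nat_lit 2) (.n (nat_lit 406) (nat_lit 2) (.n (nat_lit 407) (nat_lit 1) (.p (nat_lit 408) (nat_lit 2) (.p (nat_lit 410) (nat_lit 1) (.p (nat_lit 411) (nat_lit 1) (.n (nat_lit 413) (nat_lit 1) (.n (nat_lit 414) (nat_lit 3) (.p (nat_lit 415) (nat_lit 1) (.p (nat_lit 416) (nat_lit 1) (.n (nat_lit 417) (nat_lit 1) (.n (nat_lit 419) (nat_lit 1) (.p (nat_lit 420) (nat_lit 1) (.n (nat_lit 421) (nat_lit 1) (.n (nat_lit 422) (nat_lit 2) (.p (nat_lit 423) (nat_lit 3) (.p (nat_lit 425) (nat_lit 3) .z))))))))))))))))))))))))))))))))))))))))))))))))))))))))))))) (.ct dC1b_c548 (nat_lit 1) (nat_lit 6) (.s true (nat_lit 1) (nat_lit 57) (nat_lit 1) (nat_lit 2) (nat_lit 2) true (nat_lit 14) true (nat_lit 17) false (nat_lit 6) true (nat_lit 18) true (nat_lit 17) (.e true (nat_lit 1) (nat_lit 134) (nat_lit 5) (nat_lit 14) (.e true (nat_lit 1) (nat_lit 254) (nat_lit 2) (nat_lit 17) (.e false (nat_lit 1) (nat_lit 288) (nat_lit 1) (nat_lit 18) (.e true (nat_lit 1) (nat_lit 234) (nat_lit 2) (nat_lit 17) (.u (nat_lit 2) (.p (nat_lit 3) (nat_lit 1) (.p (nat_lit 4) (nat_lit 1) (.n (nat_lit 8) (nat_lit 1) (.p (nat_lit 10) (nat_lit 1) (.p (nat_lit 18) (nat_lit 1) (.p (nat_lit 20) (nat_lit 1) (.n (nat_lit 26) (nat_lit 1) (.p (nat_lit 28) (nat_lit 1) (.p (nat_lit 30) (nat_lit 1) (.p (nat_lit 32) (nat_lit 1) (.n (nat_lit 33) (nat_lit 1) (.p (nat_lit 35) (nat_lit 1) (.p (nat_lit 40) (nat_lit 1) .z))))))))))))) .nil))))))) (.nd (.nd .leaf (nat_lit 58385) (nat_lit 1204) (.p (nat_lit 355) (nat_lit 3) (.n (nat_lit 357) (nat_lit 2) (.n (nat_lit 358) (nat_lit 2) (.p (nat_lit 359) (nat_lit 2) (.p (nat_lit 360) (nat_lit 2) (.n (nat_lit 361) (nat_lit 2) (.p (nat_lit 362) (nat_lit 1) (.n (nat_lit 363) (nat_lit 2) (.n (nat_lit 364) (nat_lit 2) (.n (nat_lit 366) (nat_lit 2) (.p (nat_lit 367) (nat_lit 2) (.n (nat_lit 370) (nat_lit 1) (.p (nat_lit 374) (nat_lit 1) (.p (nat_lit 376) (nat_lit 2) (.n (nat_lit 377) (nat_lit 2) (.n (nat_lit 379) (nat_lit 2) (.p (nat_lit 380) (nat_lit 3) (.n (nat_lit 381) (nat_lit 2) (.p (nat_lit 382) (nat_lit 2) (.n (nat_lit 383) (nat_lit 1) (.n (nat_lit 384) (nat_lit 1) (.p (nat_lit 385) (nat_lit 3) (.n (nat_lit 386) (nat_lit 2) (.p (nat_lit 387) (nat_lit 3) (.n (nat_lit 388) (nat_lit 1) (.p (nat_lit 389) (nat_lit 3) (.n (nat_lit 390) (nat_lit 2) (.p (nat_lit 392) (nat_lit 1) (.n (nat_lit 393) (nat_lit 3) (.n (nat_lit 394) (nat_lit 2) (.n (nat_lit 396) (nat_lit 3) (.n (nat_lit 397) (nat_lit 2) (.p (nat_lit 398) (nat_lit 2) (.p (nat_lit 399) (nat_lit 1) (.p (nat_lit 400) (nat_lit 3) (.n (nat_lit 401) (nat_lit 1) (.p (nat_lit 403) (nat_lit 1) (.n (nat_lit 404) (nat_lit 2) (.n (nat_lit 405) (nat_lit 3) (.p (nat_lit 406) (nat_lit 3) (.n (nat_lit 407) (nat_lit 2) (.n (nat_lit 408) (nat_lit 3) (.p (nat_lit 410) (nat_lit 2) (.p (nat_lit 411) (nat_lit 2) (.n (nat_lit 413) (nat_lit 2) (.p (nat_lit 414) (nat_lit 1) (.p (nat_lit 415) (nat_lit 2) (.p (nat_lit 416) (nat_lit 2) (.n (nat_lit 417) (nat_lit 2) (.n (nat_lit 419) (nat_lit 2) (.p (nat_lit 420) (nat_lit 2) (.n (nat_lit 421) (nat_lit 2) (.p (nat_lit 422) (nat_lit 3) (.n (nat_lit 423) (nat_lit 1) (.n (nat_lit 425) (nat_lit 1) .z))))))))))))))))))))))))))))))))))))))))))))))))))))))) (.ct dC1b_c548 (nat_lit 1) (nat_lit 6) (.s true (nat_lit 1) (nat_lit 22) (nat_lit 1) (nat_lit 2) (nat_lit 6) true (nat_lit 6) true (nat_lit 13) true (nat_lit 3) true (nat_lit 18) true (nat_lit 17) (.e true (nat_lit 1) (nat_lit 110) (nat_lit 6) (nat_lit 13) (.e true (nat_lit 1) (nat_lit 44) (nat_lit 22) (nat_lit 3) (.e true (nat_lit 1) (nat_lit 45) (nat_lit 22) (nat_lit 3) (.e false (nat_lit 1) (nat_lit 279) (nat_lit 1) (nat_lit 18) (.e true (nat_lit 1) (nat_lit 288) (nat_lit 1) (nat_lit 18) (.e true (nat_lit 1) (nat_lit 212) (nat_lit 2) (nat_lit 17) (.e true (nat_lit 3) (nat_lit 213) (nat_lit 2) (nat_lit 17) (.e true (nat_lit 1) (nat_lit 214) (nat_lit 2) (nat_lit 17) (.e false (nat_lit 2) (nat_lit 215) (nat_lit 2) (nat_lit 17) (.e false (nat_lit 1) (nat_lit 216) (nat_lit 2) (nat_lit 17) dC1b_i48)))))))))))) .leaf) (nat_lit 58386) (nat_lit 1300) (.p (nat_lit 426) (nat_lit 2) (.n (nat_lit 427) (nat_lit 1) (.p (nat_lit 428) (nat_lit 1) (.n (nat_lit 430) (nat_lit 1) (.n (nat_lit 431) (nat_lit 1) (.p (nat_lit 432) (nat_lit 3) (.p (nat_lit 433) (nat_lit 3) (.n (nat_lit 434) (nat_lit 2) (.n (nat_lit 435) (nat_lit 1) (.n (nat_lit 436) (nat_lit 3) (.p (nat_lit 438) (nat_lit 2) (.n (nat_lit 439) (nat_lit 3) (.p (nat_lit 441) (nat_lit 3) (.p (nat_lit 442) (nat_lit 1) (.p (nat_lit 443) (nat_lit 3) (.p (nat_lit 444) (nat_lit 1) (.p (nat_lit 445) (nat_lit 3) (.n (nat_lit 456) (nat_lit 2) (.p (nat_lit 459) (nat_lit 1) .z))))))))))))))))))) (.ct dC1b_c533 (nat_lit 1) (nat_lit 3) (.s false (nat_lit 1) (nat_lit 22) (nat_lit 2) (nat_lit 2) (nat_lit 6) true (nat_lit 3) true (nat_lit 9) true (nat_lit 2) true (nat_lit 13) true (nat_lit 13) (.e false (nat_lit 1) (nat_lit 134) (nat_lit 6) (nat_lit 9) (.e true (nat_lit 1) (nat_lit 288) (nat_lit 2) (nat_lit 13) (.u (nat_lit 2) (.p (nat_lit 4) (nat_lit 1) (.n (nat_lit 12) (nat_lit 1) (.n (nat_lit 15) (nat_lit 1) (.p (nat_lit 30) (nat_lit 1) .z)))) .nil))))) .leaf)) (nat_lit 59393) (nat_lit 175) (.p (nat_lit 118) (nat_lit 1) .z) .df (.nd (.nd (.nd .leaf (nat_lit 59394) (nat_lit 222) (.p (nat_lit 135) (nat_lit 1) .z) .df .leaf) (nat_lit 59397) (nat_lit 537) (.n (nat_lit 212) (nat_lit 3) (.p (nat_lit 213) (nat_lit 1) (.p (nat_lit 214) (nat_lit 2) (.n (nat_lit 215) (nat_lit 3) (.n (nat_lit 218) (nat_lit 3) (.n (nat_lit 219) (nat_lit 1) (.n (nat_lit 220) (nat_lit 1) (.p (nat_lit 221) (nat_lit 1) (.n (nat_lit 222) (nat_lit 3) (.n (nat_lit 223) (nat_lit 3) (.n (nat_lit 224) (nat_lit 1) (.p (nat_lit 225) (nat_lit 1) (.n (nat_lit 226) (nat_lit 2) (.p (nat_lit 228) (nat_lit 2) (.n (nat_lit 229) (nat_lit 2) (.p (nat_lit 230) (nat_lit 1) (.p (nat_lit 231) (nat_lit 1) (.n (nat_lit 232) (nat_lit 3) (.p (nat_lit 234) (nat_lit 2) (.p (nat_lit 235) (nat_lit 2) (.n (nat_lit 236) (nat_lit 2) (.n (nat_lit 237) (nat_lit 2) (.p (nat_lit 238) (nat_lit 1) (.p (nat_lit 239) (nat_lit 2) (.n (nat_lit 240) (nat_lit 2) (.p (nat_lit 241) (nat_lit 1) (.n (nat_lit 243) (nat_lit 3) (.p (nat_lit 244) (nat_lit 2) (.p (nat_lit 245) (nat_lit 2) (.n (nat_lit 246) (nat_lit 2) (.p (nat_lit 247) (nat_lit 2) (.n (nat_lit 248) (nat_lit 1) (.n (nat_lit 249) (nat_lit 1) (.p (nat_lit 250) (nat_lit 1) (.p (nat_lit 251) (nat_lit 3) (.p (nat_lit 254) (nat_lit 2) (.n (nat_lit 256) (nat_lit 3) (.p (nat_lit 257) (nat_lit 1) (.p (nat_lit 258) (nat_lit 2) (.n (nat_lit 259) (nat_lit 1) .z)))))))))))))))))))))))))))))))))))))))) (.ct dC1b_c547 (nat_lit 1) (nat_lit 9) (.s true (nat_lit 1) (nat_lit 23) (nat_lit 1) (nat_lit 2) (nat_lit 2) true (nat_lit 9) true (nat_lit 12) false (nat_lit 1) true (nat_lit 13) true (nat_lit 12) (.e true (nat_lit 1) (nat_lit 111) (nat_lit 2) (nat_lit 12) (.e true (nat_lit 1) (nat_lit 23) (nat_lit 16) (nat_lit 1) (.e false (nat_lit 1) (nat_lit 132) (nat_lit 1) (nat_lit 13) (.e true (nat_lit 3) (nat_lit 133) (nat_lit 1) (nat_lit 13) (.e false (nat_lit 3) (nat_lit 134) (nat_lit 1) (nat_lit 13) (.e true (nat_lit 1) (nat_lit 135) (nat_lit 1) (nat_lit 13) (.e true (nat_lit 3) (nat_lit 136) (nat_lit 1) (nat_lit 13) (.e true (nat_lit 1) (nat_lit 137) (nat_lit 1) (nat_lit 13) (.e false (nat_lit 3) (nat_lit 138) (nat_lit 1) (nat_lit 13) (.e true (nat_lit 3) (nat_lit 140) (nat_lit 1) (nat_lit 13) (.e false (nat_lit 2) (nat_lit 142) (nat_lit 1) (nat_lit 13) (.e true (nat_lit 2) (nat_lit 143) (nat_lit 1) (nat_lit 13) (.e false (nat_lit 3) (nat_lit 144) (nat_lit 1) (nat_lit 13) (.e false (nat_lit 2) (nat_lit 145) (nat_lit 1) (nat_lit 13) (.e true (nat_lit 3) (nat_lit 149) (nat_lit 1) (nat_lit 13) (.e false (nat_lit 1) (nat_lit 150) (nat_lit 1) (nat_lit 13) (.e false (nat_lit 1) (nat_lit 151) (nat_lit 1) (nat_lit 13) (.e false (nat_lit 2) (nat_lit 152) (nat_lit 1) (nat_lit 13) (.e true (nat_lit 1) (nat_lit 118) (nat_lit 2) (nat_lit 12) (.u (nat_lit 2) (.p (nat_lit 0) (nat_lit 2) (.p (nat_lit 1) (nat_lit 1) (.n (nat_lit 2) (nat_lit 1) (.p (nat_lit 3) (nat_lit 1) (.n (nat_lit 6) (nat_lit 1) (.p (nat_lit 7) (nat_lit 2) (.p (nat_lit 9) (nat_lit 1) (.p (nat_lit 10) (nat_lit 1) (.p (nat_lit 14) (nat_lit 1) (.p (nat_lit 15) (nat_lit 2) (.p (nat_lit 19) (nat_lit 2) (.p (nat_lit 20) (nat_lit 1) (.p (nat_lit 21) (nat_lit 1) (.p (nat_lit 23) (nat_lit 1) (.p (nat_lit 24) (nat_lit 1) (.p (nat_lit 25) (nat_lit 1) (.p (nat_lit 26) (nat_lit 1) (.n (nat_lit 27) (nat_lit 2) (.p (nat_lit 29) (nat_lit 1) (.p (nat_lit 30) (nat_lit 1) (.p (nat_lit 36) (nat_lit 1) .z))))))))))))))))))))) .nil)))))))))))))))))))))) .leaf) (nat_lit 59398) (nat_lit 651) (.n (nat_lit 260) (nat_lit 2) (.p (nat_lit 261) (nat_lit 3) (.n (nat_lit 262) (nat_lit 1) (.p (nat_lit 263) (nat_lit 3) (.n (nat_lit 264) (nat_lit 2) (.p (nat_lit 265) (nat_lit 1) (.n (nat_lit 267) (nat_lit 1) (.p (nat_lit 269) (nat_lit 3) (.p (nat_lit 270) (nat_lit 2) (.n (nat_lit 271) (nat_lit 3) (.p (nat_lit 272) (nat_lit 1) (.n (nat_lit 273) (nat_lit 3) (.p (nat_lit 274) (nat_lit 3) (.p (nat_lit 277) (nat_lit 2) (.n (nat_lit 278) (nat_lit 3) (.p (nat_lit 279) (nat_lit 2) (.n (nat_lit 280) (nat_lit 2) (.n (nat_lit 286) (nat_lit 3) (.p (nat_lit 287) (nat_lit 1) (.p (nat_lit 288) (nat_lit 3) .z)))))))))))))))))))) (.ct dC1b_c532 (nat_lit 1) (nat_lit 6) (.s true (nat_lit 1) (nat_lit 14) (nat_lit 2) (nat_lit 3) (nat_lit 2) true (nat_lit 6) true (nat_lit 10) true (nat_lit 2) true (nat_lit 10) true (nat_lit 9) (.e false (nat_lit 1) (nat_lit 56) (nat_lit 6) (nat_lit 6) (.e true (nat_lit 2) (nat_lit 57) (nat_lit 6) (nat_lit 6) (.e true (nat_lit 1) (nat_lit 62) (nat_lit 6) (nat_lit 6) (.e false (nat_lit 1) (nat_lit 65) (nat_lit 6) (nat_lit 6) (.e false (nat_lit 3) (nat_lit 133) (nat_lit 2) (nat_lit 10) (.e false (nat_lit 3) (nat_lit 135) (nat_lit 2) (nat_lit 10) (.e true (nat_lit 1) (nat_lit 137) (nat_lit 2) (nat_lit 10) (.e true (nat_lit 3) (nat_lit 139) (nat_lit 2) (nat_lit 10) (.e false (nat_lit 3) (nat_lit 140) (nat_lit 2) (nat_lit 10) (.e true (nat_lit 2) (nat_lit 141) (nat_lit 2) (nat_lit 10) (.e false (nat_lit 3) (nat_lit 142) (nat_lit 2) (nat_lit 10) (.e false (nat_lit 1) (nat_lit 143) (nat_lit 2) (nat_lit 10) (.e false (nat_lit 2) (nat_lit 144) (nat_lit 2) (nat_lit 10) (.e true (nat_lit 3) (nat_lit 145) (nat_lit 2) (nat_lit 10) (.e false (nat_lit 1) (nat_lit 146) (nat_lit 2) (nat_lit 10) (.e false (nat_lit 2) (nat_lit 149) (nat_lit 2) (nat_lit 10) (.e true (nat_lit 1) (nat_lit 150) (nat_lit 2) (nat_lit 10) (.e false (nat_lit 1) (nat_lit 151) (nat_lit 2) (nat_lit 10) (.e false (nat_lit 2) (nat_lit 152) (nat_lit 2) (nat_lit 10) (.e false (nat_lit 1) (nat_lit 31) (nat_lit 14) (nat_lit 2) (.e false (nat_lit 1) (nat_lit 132) (nat_lit 2) (nat_lit 10) (.e true (nat_lit 1) (nat_lit 98) (nat_lit 3) (nat_lit 9) (.u (nat_lit 2) (.p (nat_lit 4) (nat_lit 1) (.n (nat_lit 9) (nat_lit 1) (.p (nat_lit 11) (nat_lit 1) (.n (nat_lit 14) (nat_lit 1) (.p (nat_lit 18) (nat_lit 1) (.p (nat_lit 20) (nat_lit 1) (.n (nat_lit 97) (nat_lit 1) (.p (nat_lit 103) (nat_lit 1) (.n (nat_lit 106) (nat_lit 1) .z))))))))) .nil))))))))))))))))))))))))) (.nd (.nd .leaf (nat_lit 59408) (nat_lit 1212) (.p (nat_lit 355) (nat_lit 2) (.n (nat_lit 356) (nat_lit 1) (.n (nat_lit 357) (nat_lit 1) (.p (nat_lit 358) (nat_lit 3) (.n (nat_lit 359) (nat_lit 2) (.p (nat_lit 360) (nat_lit 2) (.n (nat_lit 361) (nat_lit 1) (.p (nat_lit 362) (nat_lit 1) (.p (nat_lit 363) (nat_lit 1) (.p (nat_lit 364) (nat_lit 3) (.n (nat_lit 365) (nat_lit 1) (.n (nat_lit 366) (nat_lit 3) (.p (nat_lit 368) (nat_lit 1) (.p (nat_lit 369) (nat_lit 2) (.n (nat_lit 370) (nat_lit 1) (.n (nat_lit 371) (nat_lit 1) (.p (nat_lit 372) (nat_lit 2) (.p (nat_lit 374) (nat_lit 2) (.n (nat_lit 375) (nat_lit 3) (.n (nat_lit 376) (nat_lit 1) (.p (nat_lit 377) (nat_lit 2) (.n (nat_lit 379) (nat_lit 1) (.n (nat_lit 381) (nat_lit 1) (.p (nat_lit 382) (nat_lit 1) (.n (nat_lit 383) (nat_lit 1) (.n (nat_lit 384) (nat_lit 2) (.n (nat_lit 385) (nat_lit 2) (.p (nat_lit 386) (nat_lit 2) (.n (nat_lit 387) (nat_lit 2) (.n (nat_lit 388) (nat_lit 3) (.n (nat_lit 389) (nat_lit 3) (.n (nat_lit 390) (nat_lit 3) (.p (nat_lit 391) (nat_lit 3) (.n (nat_lit 393) (nat_lit 2) (.p (nat_lit 394) (nat_lit 1) (.p (nat_lit 395) (nat_lit 2) (.n (nat_lit 396) (nat_lit 3) (.p (nat_lit 397) (nat_lit 2) (.n (nat_lit 398) (nat_lit 2) (.p (nat_lit 404) (nat_lit 2) (.n (nat_lit 405) (nat_lit 3) (.p (nat_lit 406) (nat_lit 3) (.p (nat_lit 407) (nat_lit 1) (.p (nat_lit 408) (nat_lit 3) (.p (nat_lit 409) (nat_lit 1) (.n (nat_lit 410) (nat_lit 2) (.n (nat_lit 411) (nat_lit 2) (.p (nat_lit 412) (nat_lit 1) (.p (nat_lit 413) (nat_lit 1) (.n (nat_lit 415) (nat_lit 2) (.n (nat_lit 416) (nat_lit 1) (.p (nat_lit 417) (nat_lit 2) (.p (nat_lit 419) (nat_lit 2) (.n (nat_lit 420) (nat_lit 2) (.p (nat_lit 421) (nat_lit 2) (.p (nat_lit 425) (nat_lit 1) .z)))))))))))))))))))))))))))))))))))))))))))))))))))))))) (.ct dC1b_c548 (nat_lit 1) (nat_lit 6) (.s true (nat_lit 1) (nat_lit 16) (nat_lit 0) (nat_lit 2) (nat_lit 10) true (nat_lit 3) true (nat_lit 9) true (nat_lit 6) true (nat_lit 19) true (nat_lit 17) (.e true (nat_lit 1) (nat_lit 43) (nat_lit 22) (nat_lit 3) (.e true (nat_lit 1) (nat_lit 87) (nat_lit 10) (nat_lit 9) (.e true (nat_lit 1) (nat_lit 55) (nat_lit 16) (nat_lit 6) (.e false (nat_lit 1) (nat_lit 56) (nat_lit 16) (nat_lit 6) (.e true (nat_lit 3) (nat_lit 57) (nat_lit 16) (nat_lit 6) (.e false (nat_lit 1) (nat_lit 61) (nat_lit 16) (nat_lit 6) (.e true (nat_lit 1) (nat_lit 62) (nat_lit 16) (nat_lit 6) (.e true (nat_lit 1) (nat_lit 64) (nat_lit 16) (nat_lit 6) (.e false (nat_lit 2) (nat_lit 65) (nat_lit 16) (nat_lit 6) (.e false (nat_lit 3) (nat_lit 291) (nat_lit 0) (nat_lit 19) (.e true (nat_lit 1) (nat_lit 294) (nat_lit 0) (nat_lit 19) dC1b_i49))))))))))))) .leaf) (nat_lit 59410) (nat_lit 1320) (.p (nat_lit 427) (nat_lit 2) (.p (nat_lit 428) (nat_lit 1) (.p (nat_lit 429) (nat_lit 1) (.n (nat_lit 432) (nat_lit 1) (.n (nat_lit 433) (nat_lit 1) (.p (nat_lit 434) (nat_lit 3) (.n (nat_lit 435) (nat_lit 3) (.p (nat_lit 436) (nat_lit 3) (.n (nat_lit 438) (nat_lit 1) (.p (nat_lit 442) (nat_lit 3) (.n (nat_lit 445) (nat_lit 3) (.p (nat_lit 456) (nat_lit 1) (.p (nat_lit 459) (nat_lit 3) .z))))))))))))) (.ct dC1b_c533 (nat_lit 1) (nat_lit 3) (.s false (nat_lit 1) (nat_lit 18) (nat_lit 2) (nat_lit 10) (nat_lit 0) true (nat_lit 11) true (nat_lit 15) true (nat_lit 3) true (nat_lit 13) true (nat_lit 6) (.s false (nat_lit 1) (nat_lit 18) (nat_lit 4) (nat_lit 2) (nat_lit 3) true (nat_lit 2) true (nat_lit 12) true (nat_lit 3) true (nat_lit 11) true (nat_lit 13) (.e true (nat_lit 3) (nat_lit 328) (nat_lit 0) (nat_lit 15) (.e false (nat_lit 2) (nat_lit 329) (nat_lit 0) (nat_lit 15) (.e true (nat_lit 2) (nat_lit 330) (nat_lit 0) (nat_lit 15) (.e true (nat_lit 1) (nat_lit 331) (nat_lit 0) (nat_lit 15) (.e false (nat_lit 2) (nat_lit 332) (nat_lit 0) (nat_lit 15) (.e false (nat_lit 3) (nat_lit 333) (nat_lit 0) (nat_lit 15) (.e false (nat_lit 1) (nat_lit 334) (nat_lit 0) (nat_lit 15) (.e false (nat_lit 1) (nat_lit 335) (nat_lit 0) (nat_lit 15) (.e true (nat_lit 1) (nat_lit 336) (nat_lit 0) (nat_lit 15) (.e true (nat_lit 2) (nat_lit 337) (nat_lit 0) (nat_lit 15) (.e true (nat_lit 1) (nat_lit 340) (nat_lit 0) (nat_lit 15) (.e false (nat_lit 1) (nat_lit 344) (nat_lit 0) (nat_lit 15) (.e true (nat_lit 1) (nat_lit 345) (nat_lit 0) (nat_lit 15) (.e true (nat_lit 3) (nat_lit 288) (nat_lit 2) (nat_lit 13) dC1b_i50))))))))))))))))) .leaf))) (nat_lit 60417) (nat_lit 176) (.p (nat_lit 119) (nat_lit 1) .z) .df (.nd (.nd (.nd (.nd .leaf (nat_lit 60418) (nat_lit 223) (.p (nat_lit 136) (nat_lit 1) .z) .df .leaf) (nat_lit 60421) (nat_lit 463) (.p (nat_lit 257) (nat_lit 1) .z) .df .leaf) (nat_lit 60422) (nat_lit 641) (.p (nat_lit 261) (nat_lit 1) (.n (nat_lit 262) (nat_lit 2) (.n (nat_lit 264) (nat_lit 2) (.n (nat_lit 265) (nat_lit 3) (.n (nat_lit 266) (nat_lit 1) (.p (nat_lit 267) (nat_lit 3) (.n (nat_lit 268) (nat_lit 3) (.n (nat_lit 269) (nat_lit 2) (.p (nat_lit 270) (nat_lit 2) (.n (nat_lit 271) (nat_lit 1) (.n (nat_lit 272) (nat_lit 2) (.p (nat_lit 273) (nat_lit 1) (.p (nat_lit 277) (nat_lit 1) (.n (nat_lit 278) (nat_lit 1) (.p (nat_lit 279) (nat_lit 2) (.p (nat_lit 280) (nat_lit 1) (.n (nat_lit 286) (nat_lit 3) (.p (nat_lit 287) (nat_lit 2) (.p (nat_lit 288) (nat_lit 1) .z))))))))))))))))))) (.ct dC1b_c532 (nat_lit 1) (nat_lit 6) (.s false (nat_lit 1) (nat_lit 28) (nat_lit 2) (nat_lit 1) (nat_lit 2) true (nat_lit 6) true (nat_lit 10) false (nat_lit 1) true (nat_lit 10) true (nat_lit 11) (.e false (nat_lit 1) (nat_lit 143) (nat_lit 2) (nat_lit 10) (.e true (nat_lit 1) (nat_lit 28) (nat_lit 16) (nat_lit 1) (.e true (nat_lit 1) (nat_lit 152) (nat_lit 2) (nat_lit 10) (.e false (nat_lit 1) (nat_lit 174) (nat_lit 1) (nat_lit 11) .nil)))))) (.nd (.nd .leaf (nat_lit 60432) (nat_lit 1085) (.p (nat_lit 356) (nat_lit 2) (.n (nat_lit 357) (nat_lit 3) (.n (nat_lit 358) (nat_lit 3) (.p (nat_lit 359) (nat_lit 1) (.p (nat_lit 360) (nat_lit 3) (.p (nat_lit 361) (nat_lit 1) (.p (nat_lit 362) (nat_lit 2) (.p (nat_lit 363) (nat_lit 1) (.p (nat_lit 364) (nat_lit 3) (.p (nat_lit 365) (nat_lit 1) (.p (nat_lit 366) (nat_lit 3) (.n (nat_lit 367) (nat_lit 1) (.n (nat_lit 368) (nat_lit 3) (.p (nat_lit 369) (nat_lit 1) (.p (nat_lit 370) (nat_lit 2) (.n (nat_lit 371) (nat_lit 2) (.p (nat_lit 372) (nat_lit 1) (.p (nat_lit 375) (nat_lit 1) (.p (nat_lit 378) (nat_lit 2) (.n (nat_lit 379) (nat_lit 1) (.n (nat_lit 380) (nat_lit 1) (.p (nat_lit 382) (nat_lit 2) (.n (nat_lit 383) (nat_lit 3) (.p (nat_lit 384) (nat_lit 1) (.n (nat_lit 385) (nat_lit 2) (.n (nat_lit 386) (nat_lit 2) (.n (nat_lit 387) (nat_lit 3) (.p (nat_lit 388) (nat_lit 2) (.n (nat_lit 390) (nat_lit 2) (.p (nat_lit 392) (nat_lit 1) (.n (nat_lit 393) (nat_lit 1) (.p (nat_lit 394) (nat_lit 3) (.p (nat_lit 395) (nat_lit 2) (.p (nat_lit 399) (nat_lit 1) (.p (nat_lit 405) (nat_lit 2) (.n (nat_lit 406) (nat_lit 2) (.n (nat_lit 407) (nat_lit 2) (.p (nat_lit 409) (nat_lit 2) (.p (nat_lit 412) (nat_lit 2) (.n (nat_lit 413) (nat_lit 2) (.p (nat_lit 414) (nat_lit 1) (.p (nat_lit 416) (nat_lit 2) (.n (nat_lit 423) (nat_lit 1) (.p (nat_lit 424) (nat_lit 1) .z)))))))))))))))))))))))))))))))))))))))))))) (.ct dC1b_c548 (nat_lit 1) (nat_lit 6) (.s false (nat_lit 1) (nat_lit 59) (nat_lit 2) (nat_lit 1) (nat_lit 2) true (nat_lit 13) true (nat_lit 17) false (nat_lit 6) true (nat_lit 17) true (nat_lit 18) (.e true (nat_lit 1) (nat_lit 119) (nat_lit 6) (nat_lit 13) (.e false (nat_lit 1) (nat_lit 236) (nat_lit 2) (nat_lit 17) (.e true (nat_lit 1) (nat_lit 257) (nat_lit 2) (nat_lit 17) (.e false (nat_lit 1) (nat_lit 264) (nat_lit 1) (nat_lit 18) (.u (nat_lit 2) (.n (nat_lit 5) (nat_lit 1) (.n (nat_lit 7) (nat_lit 1) (.n (nat_lit 10) (nat_lit 1) (.n (nat_lit 11) (nat_lit 1) (.p (nat_lit 13) (nat_lit 1) (.n (nat_lit 14) (nat_lit 1) (.n (nat_lit 15) (nat_lit 1) (.p (nat_lit 16) (nat_lit 1) (.n (nat_lit 23) (nat_lit 1) (.p (nat_lit 28) (nat_lit 1) (.p (nat_lit 31) (nat_lit 1) (.p (nat_lit 32) (nat_lit 1) (.n (nat_lit 39) (nat_lit 1) (.n (nat_lit 50) (nat_lit 1) (.p (nat_lit 51) (nat_lit 1) (.p (nat_lit 52) (nat_lit 1) (.n (nat_lit 57) (nat_lit 1) (.p (nat_lit 58) (nat_lit 1) (.n (nat_lit 61) (nat_lit 1) .z))))))))))))))))))) .nil))))))) .leaf) (nat_lit 60433) (nat_lit 1083) (.n (nat_lit 355) (nat_lit 3) (.n (nat_lit 356) (nat_lit 2) (.n (nat_lit 357) (nat_lit 2) (.n (nat_lit 358) (nat_lit 3) (.p (nat_lit 359) (nat_lit 3) (.n (nat_lit 360) (nat_lit 1) (.n (nat_lit 362) (nat_lit 1) (.p (nat_lit 363) (nat_lit 3) (.p (nat_lit 364) (nat_lit 2) (.n (nat_lit 365) (nat_lit 1) (.p (nat_lit 366) (nat_lit 2) (.p (nat_lit 367) (nat_lit 1) (.p (nat_lit 368) (nat_lit 1) (.p (nat_lit 369) (nat_lit 2) (.n (nat_lit 370) (nat_lit 1) (.p (nat_lit 371) (nat_lit 3) (.n (nat_lit 372) (nat_lit 3) (.p (nat_lit 373) (nat_lit 3) (.n (nat_lit 375) (nat_lit 3) (.n (nat_lit 378) (nat_lit 3) (.n (nat_lit 379) (nat_lit 2) (.n (nat_lit 380) (nat_lit 2) (.n (nat_lit 381) (nat_lit 1) (.p (nat_lit 382) (nat_lit 3) (.n (nat_lit 386) (nat_lit 2) (.p (nat_lit 388) (nat_lit 1) (.n (nat_lit 389) (nat_lit 2) (.n (nat_lit 391) (nat_lit 1) (.p (nat_lit 392) (nat_lit 3) (.n (nat_lit 393) (nat_lit 2) (.p (nat_lit 394) (nat_lit 2) (.n (nat_lit 395) (nat_lit 1) (.p (nat_lit 399) (nat_lit 2) (.p (nat_lit 404) (nat_lit 3) (.n (nat_lit 405) (nat_lit 2) (.p (nat_lit 406) (nat_lit 2) (.p (nat_lit 407) (nat_lit 3) (.p (nat_lit 408) (nat_lit 1) (.n (nat_lit 410) (nat_lit 3) (.n (nat_lit 412) (nat_lit 3) (.p (nat_lit 413) (nat_lit 3) (.p (nat_lit 414) (nat_lit 2) (.n (nat_lit 416) (nat_lit 3) (.n (nat_lit 423) (nat_lit 2) (.p (nat_lit 424) (nat_lit 2) .z))))))))))))))))))))))))))))))))))))))))))))) (.ct dC1b_c548 (nat_lit 1) (nat_lit 6) (.s false (nat_lit 1) (nat_lit 59) (nat_lit 2) (nat_lit 2) (nat_lit 1) true (nat_lit 14) true (nat_lit 18) false (nat_lit 6) true (nat_lit 17) true (nat_lit 17) (.e false (nat_lit 1) (nat_lit 136) (nat_lit 5) (nat_lit 14) (.e false (nat_lit 1) (nat_lit 264) (nat_lit 1) (nat_lit 18) (.e false (nat_lit 2) (nat_lit 257) (nat_lit 2) (nat_lit 17) (.e true (nat_lit 1) (nat_lit 243) (nat_lit 2) (nat_lit 17) (.e false (nat_lit 1) (nat_lit 248) (nat_lit 2) (nat_lit 17) (.u (nat_lit 2) (.p (nat_lit 0) (nat_lit 1) (.p (nat_lit 2) (nat_lit 1) (.p (nat_lit 3) (nat_lit 1) (.n (nat_lit 4) (nat_lit 1) (.p (nat_lit 5) (nat_lit 1) (.p (nat_lit 7) (nat_lit 1) (.n (nat_lit 9) (nat_lit 1) (.p (nat_lit 10) (nat_lit 1) (.p (nat_lit 11) (nat_lit 1) (.n (nat_lit 13) (nat_lit 1) (.p (nat_lit 14) (nat_lit 1) (.p (nat_lit 15) (nat_lit 1) (.n (nat_lit 16) (nat_lit 1) (.p (nat_lit 20) (nat_lit 1) (.p (nat_lit 23) (nat_lit 1) (.p (nat_lit 26) (nat_lit 1) (.n (nat_lit 28) (nat_lit 1) (.p (nat_lit 29) (nat_lit 1) (.n (nat_lit 34) (nat_lit 1) (.p (nat_lit 35) (nat_lit 1) (.p (nat_lit 36) (nat_lit 1) (.n (nat_lit 37) (nat_lit 1) (.p (nat_lit 38) (nat_lit 1) (.n (nat_lit 39) (nat_lit 1) (.n (nat_lit 41) (nat_lit 1) (.p (nat_lit 50) (nat_lit 1) (.n (nat_lit 51) (nat_lit 1) (.n (nat_lit 52) (nat_lit 1) (.n (nat_lit 54) (nat_lit 1) (.p (nat_lit 57) (nat_lit 1) (.n (nat_lit 58) (nat_lit 1) (.p (nat_lit 61) (nat_lit 1) .z)))))))))))))))))))))))))))))))) .nil)))))))) .leaf)) (nat_lit 60434) (nat_lit 1327) (.n (nat_lit 426) (nat_lit 3) (.p (nat_lit 427) (nat_lit 3) (.n (nat_lit 428) (nat_lit 3) (.p (nat_lit 430) (nat_lit 2) (.p (nat_lit 431) (nat_lit 2) (.p (nat_lit 432) (nat_lit 1) (.p (nat_lit 433) (nat_lit 1) (.p (nat_lit 434) (nat_lit 3) (.p (nat_lit 436) (nat_lit 3) (.n (nat_lit 438) (nat_lit 2) (.p (nat_lit 439) (nat_lit 2) (.p (nat_lit 442) (nat_lit 2) (.n (nat_lit 445) (nat_lit 2) (.p (nat_lit 456) (nat_lit 2) (.n (nat_lit 459) (nat_lit 1) .z))))))))))))))) (.ct dC1b_c533 (nat_lit 1) (nat_lit 3) (.s false (nat_lit 2) (nat_lit 18) (nat_lit 2) (nat_lit 0) (nat_lit 11) true (nat_lit 0) true (nat_lit 6) true (nat_lit 3) true (nat_lit 13) true (nat_lit 15) (.e true (nat_lit 2) (nat_lit 42) (nat_lit 32) (nat_lit 0) (.e false (nat_lit 2) (nat_lit 99) (nat_lit 11) (nat_lit 6) (.e true (nat_lit 2) (nat_lit 101) (nat_lit 11) (nat_lit 6) (.e false (nat_lit 2) (nat_lit 55) (nat_lit 18) (nat_lit 3) (.e true (nat_lit 2) (nat_lit 56) (nat_lit 18) (nat_lit 3) (.e true (nat_lit 3) (nat_lit 57) (nat_lit 18) (nat_lit 3) (.e false (nat_lit 2) (nat_lit 58) (nat_lit 18) (nat_lit 3) (.e false (nat_lit 1) (nat_lit 60) (nat_lit 18) (nat_lit 3) (.e true (nat_lit 1) (nat_lit 61) (nat_lit 18) (nat_lit 3) (.e false (nat_lit 2) (nat_lit 62) (nat_lit 18) (nat_lit 3) (.e false (nat_lit 1) (nat_lit 64) (nat_lit 18) (nat_lit 3) (.e true (nat_lit 3) (nat_lit 65) (nat_lit 18) (nat_lit 3) (.e false (nat_lit 2) (nat_lit 277) (nat_lit 2) (nat_lit 13) (.e true (nat_lit 2) (nat_lit 286) (nat_lit 2) (nat_lit 13) (.e false (nat_lit 2) (nat_lit 278) (nat_lit 2) (nat_lit 13) (.e true (nat_lit 2) (nat_lit 287) (nat_lit 2) (nat_lit 13) (.e true (nat_lit 2) (nat_lit 279) (nat_lit 2) (nat_lit 13) (.e false (nat_lit 2) (nat_lit 288) (nat_lit 2) (nat_lit 13) (.e true (nat_lit 2) (nat_lit 337) (nat_lit 0) (nat_lit 15) (.e false (nat_lit 2) (nat_lit 340) (nat_lit 0) (nat_lit 15) (.u (nat_lit 2) (.n (nat_lit 0) (nat_lit 4) (.p (nat_lit 2) (nat_lit 4) (.p (nat_lit 3) (nat_lit 3) (.n (nat_lit 4) (nat_lit 1) (.n (nat_lit 6) (nat_lit 2) (.n (nat_lit 7) (nat_lit 2) (.p (nat_lit 8) (nat_lit 4) (.p (nat_lit 13) (nat_lit 1) (.n (nat_lit 15) (nat_lit 2) (.n (nat_lit 16) (nat_lit 1) (.n (nat_lit 18) (nat_lit 1) (.n (nat_lit 19) (nat_lit 2) (.p (nat_lit 30) (nat_lit 3) (.p (nat_lit 33) (nat_lit 1) (.p (nat_lit 67) (nat_lit 1) (.p (nat_lit 69) (nat_lit 1) (.n (nat_lit 70) (nat_lit 1) (.p (nat_lit 71) (nat_lit 1) (.n (nat_lit 74) (nat_lit 1) (.p (nat_lit 75) (nat_lit 1) .z)))))))))))))))))))) .nil))))))))))))))))))))))) (.nd (.nd (.nd .leaf (nat_lit 61441) (nat_lit 177) (.p (nat_lit 120) (nat_lit 1) .z) .df .leaf) (nat_lit 61442) (nat_lit 224) (.p (nat_lit 137) (nat_lit 1) .z) .df .leaf) (nat_lit 61445) (nat_lit 464) (.p (nat_lit 258) (nat_lit 1) .z) .df (.nd (.nd .leaf (nat_lit 61446) (nat_lit 667) (.p (nat_lit 260) (nat_lit 3) (.p (nat_lit 261) (nat_lit 3) (.p (nat_lit 262) (nat_lit 3) (.n (nat_lit 263) (nat_lit 3) (.n (nat_lit 264) (nat_lit 2) (.n (nat_lit 266) (nat_lit 3) (.p (nat_lit 267) (nat_lit 1) (.n (nat_lit 269) (nat_lit 3) (.n (nat_lit 270) (nat_lit 2) (.n (nat_lit 271) (nat_lit 2) (.p (nat_lit 272) (nat_lit 3) (.p (nat_lit 274) (nat_lit 1) (.n (nat_lit 277) (nat_lit 1) (.n (nat_lit 278) (nat_lit 1) (.n (nat_lit 280) (nat_lit 2) (.n (nat_lit 286) (nat_lit 1) (.p (nat_lit 287) (nat_lit 1) (.n (nat_lit 288) (nat_lit 1) .z)))))))))))))))))) (.ct dC1b_c532 (nat_lit 1) (nat_lit 6) (.s false (nat_lit 1) (nat_lit 29) (nat_lit 2) (nat_lit 1) (nat_lit 2) true (nat_lit 6) true (nat_lit 10) false (nat_lit 1) true (nat_lit 10) true (nat_lit 11) (.e false (nat_lit 2) (nat_lit 144) (nat_lit 2) (nat_lit 10) (.e true (nat_lit 1) (nat_lit 29) (nat_lit 16) (nat_lit 1) (.e true (nat_lit 1) (nat_lit 132) (nat_lit 2) (nat_lit 10) (.e true (nat_lit 1) (nat_lit 133) (nat_lit 2) (nat_lit 10) (.e true (nat_lit 1) (nat_lit 134) (nat_lit 2) (nat_lit 10) (.e false (nat_lit 1) (nat_lit 135) (nat_lit 2) (nat_lit 10) (.e true (nat_lit 3) (nat_lit 136) (nat_lit 2) (nat_lit 10) (.e false (nat_lit 2) (nat_lit 137) (nat_lit 2) (nat_lit 10) (.e false (nat_lit 2) (nat_lit 138) (nat_lit 2) (nat_lit 10) (.e false (nat_lit 1) (nat_lit 139) (nat_lit 2) (nat_lit 10) (.e false (nat_lit 2) (nat_lit 140) (nat_lit 2) (nat_lit 10) (.e true (nat_lit 3) (nat_lit 141) (nat_lit 2) (nat_lit 10) (.e false (nat_lit 2) (nat_lit 142) (nat_lit 2) (nat_lit 10) (.e true (nat_lit 2) (nat_lit 143) (nat_lit 2) (nat_lit 10) (.e false (nat_lit 3) (nat_lit 145) (nat_lit 2) (nat_lit 10) (.e true (nat_lit 2) (nat_lit 146) (nat_lit 2) (nat_lit 10) (.e true (nat_lit 1) (nat_lit 150) (nat_lit 2) (nat_lit 10) (.e true (nat_lit 1) (nat_lit 151) (nat_lit 2) (nat_lit 10) (.e false (nat_lit 3) (nat_lit 152) (nat_lit 2) (nat_lit 10) (.e false (nat_lit 1) (nat_lit 175) (nat_lit 1) (nat_lit 11) (.u (nat_lit 2) (.n (nat_lit 0) (nat_lit 1) (.n (nat_lit 1) (nat_lit 1) (.n (nat_lit 2) (nat_lit 1) (.p (nat_lit 3) (nat_lit 1) (.p (nat_lit 6) (nat_lit 1) (.p (nat_lit 10) (nat_lit 1) (.p (nat_lit 20) (nat_lit 1) .z))))))) .nil))))))))))))))))))))))) .leaf) (nat_lit 61456) (nat_lit 1072) (.p (nat_lit 355) (nat_lit 1) (.p (nat_lit 356) (nat_lit 3) (.n (nat_lit 357) (nat_lit 1) (.n (nat_lit 358) (nat_lit 2) (.p (nat_lit 359) (nat_lit 3) (.n (nat_lit 360) (nat_lit 1) (.n (nat_lit 361) (nat_lit 1) (.n (nat_lit 362) (nat_lit 1) (.p (nat_lit 363) (nat_lit 1) (.n (nat_lit 364) (nat_lit 3) (.n (nat_lit 365) (nat_lit 1) (.p (nat_lit 366) (nat_lit 2) (.n (nat_lit 367) (nat_lit 1) (.n (nat_lit 370) (nat_lit 3) (.p (nat_lit 372) (nat_lit 2) (.p (nat_lit 373) (nat_lit 1) (.p (nat_lit 374) (nat_lit 2) (.n (nat_lit 375) (nat_lit 1) (.p (nat_lit 378) (nat_lit 2) (.n (nat_lit 379) (nat_lit 1) (.n (nat_lit 380) (nat_lit 1) (.p (nat_lit 381) (nat_lit 1) (.n (nat_lit 382) (nat_lit 3) (.n (nat_lit 383) (nat_lit 1) (.p (nat_lit 384) (nat_lit 1) (.n (nat_lit 386) (nat_lit 3) (.p (nat_lit 387) (nat_lit 3) (.n (nat_lit 388) (nat_lit 1) (.p (nat_lit 389) (nat_lit 1) (.p (nat_lit 390) (nat_lit 1) (.n (nat_lit 391) (nat_lit 3) (.n (nat_lit 392) (nat_lit 3) (.n (nat_lit 394) (nat_lit 3) (.p (nat_lit 395) (nat_lit 2) (.n (nat_lit 396) (nat_lit 2) (.p (nat_lit 400) (nat_lit 1) (.n (nat_lit 404) (nat_lit 1) (.n (nat_lit 405) (nat_lit 3) (.p (nat_lit 406) (nat_lit 3) (.n (nat_lit 407) (nat_lit 2) (.n (nat_lit 408) (nat_lit 1) (.n (nat_lit 409) (nat_lit 3) (.p (nat_lit 410) (nat_lit 3) (.n (nat_lit 412) (nat_lit 2) (.p (nat_lit 413) (nat_lit 2) (.n (nat_lit 414) (nat_lit 1) (.p (nat_lit 416) (nat_lit 2) (.n (nat_lit 423) (nat_lit 1) (.p (nat_lit 424) (nat_lit 1) .z))))))))))))))))))))))))))))))))))))))))))))))))) (.ct dC1b_c548 (nat_lit 1) (nat_lit 6) (.s false (nat_lit 1) (nat_lit 60) (nat_lit 2) (nat_lit 1) (nat_lit 2) true (nat_lit 13) true (nat_lit 17) false (nat_lit 6) true (nat_lit 17) true (nat_lit 18) (.e true (nat_lit 1) (nat_lit 120) (nat_lit 6) (nat_lit 13) (.e false (nat_lit 1) (nat_lit 237) (nat_lit 2) (nat_lit 17) (.e true (nat_lit 1) (nat_lit 258) (nat_lit 2) (nat_lit 17) (.e false (nat_lit 1) (nat_lit 265) (nat_lit 1) (nat_lit 18) (.u (nat_lit 2) (.n (nat_lit 0) (nat_lit 1) (.n (nat_lit 4) (nat_lit 1) (.p (nat_lit 8) (nat_lit 1) (.n (nat_lit 11) (nat_lit 1) (.p (nat_lit 12) (nat_lit 1) (.p (nat_lit 14) (nat_lit 1) (.p (nat_lit 15) (nat_lit 1) (.n (nat_lit 17) (nat_lit 1) (.n (nat_lit 23) (nat_lit 1) (.n (nat_lit 29) (nat_lit 1) (.p (nat_lit 31) (nat_lit 1) (.n (nat_lit 32) (nat_lit 1) (.n (nat_lit 33) (nat_lit 1) (.n (nat_lit 35) (nat_lit 1) (.p (nat_lit 37) (nat_lit 1) (.p (nat_lit 41) (nat_lit 1) (.p (nat_lit 50) (nat_lit 1) (.n (nat_lit 51) (nat_lit 1) (.p (nat_lit 52) (nat_lit 1) (.p (nat_lit 57) (nat_lit 1) (.n (nat_lit 58) (nat_lit 1) (.n (nat_lit 61) (nat_lit 1) .z)))))))))))))))))))))) .nil))))))) .leaf))))))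

noncomputable def dC1b_t2 : Tr := (.nd dC1b_t0 (nat_lit 46097) (nat_lit 901) (.n (nat_lit 347) (nat_lit 2) (.n (nat_lit 348) (nat_lit 3) (.p (nat_lit 349) (nat_lit 2) (.n (nat_lit 350) (nat_lit 3) (.n (nat_lit 351) (nat_lit 2) (.p (nat_lit 352) (nat_lit 3) .z)))))) (.ct dC1b_c37 (nat_lit 1) (nat_lit 1) (.s false (nat_lit 1) (nat_lit 18) (nat_lit 6) (nat_lit 1) (nat_lit 1) true (nat_lit 1) true (nat_lit 6) true (nat_lit 0) true (nat_lit 3) true (nat_lit 6) (.e false (nat_lit 1) (nat_lit 39) (nat_lit 18) (nat_lit 0) (.e true (nat_lit 1) (nat_lit 211) (nat_lit 1) (nat_lit 6) .nil)))) dC1b_t1)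

noncomputable def dC1b_t3 : Tr := (.nd (.nd (.nd (.nd (.nd (.nd (.nd .leaf (nat_lit 61458) (nat_lit 1279) (.p (nat_lit 426) (nat_lit 2) (.n (nat_lit 427) (nat_lit 2) (.p (nat_lit 428) (nat_lit 1) (.n (nat_lit 429) (nat_lit 3) (.n (nat_lit 430) (nat_lit 1) (.n (nat_lit 431) (nat_lit 3) (.p (nat_lit 432) (nat_lit 1) (.p (nat_lit 433) (nat_lit 1) (.p (nat_lit 434) (nat_lit 3) (.n (nat_lit 435) (nat_lit 2) (.p (nat_lit 436) (nat_lit 2) (.p (nat_lit 438) (nat_lit 1) (.n (nat_lit 439) (nat_lit 1) (.n (nat_lit 441) (nat_lit 1) (.n (nat_lit 442) (nat_lit 2) (.n (nat_lit 443) (nat_lit 1) (.p (nat_lit 444) (nat_lit 2) (.p (nat_lit 445) (nat_lit 3) (.p (nat_lit 456) (nat_lit 2) (.n (nat_lit 459) (nat_lit 1) .z)))))))))))))))))))) (.ct dC1b_c533 (nat_lit 1) (nat_lit 3) (.s false (nat_lit 1) (nat_lit 60) (nat_lit 2) (nat_lit 2) (nat_lit 2) true (nat_lit 9) true (nat_lit 13) false (nat_lit 3) true (nat_lit 13) true (nat_lit 13) (.e false (nat_lit 1) (nat_lit 137) (nat_lit 6) (nat_lit 9) (.e true (nat_lit 3) (nat_lit 260) (nat_lit 2) (nat_lit 13) (.e true (nat_lit 3) (nat_lit 261) (nat_lit 2) (nat_lit 13) (.e true (nat_lit 3) (nat_lit 262) (nat_lit 2) (nat_lit 13) (.e false (nat_lit 3) (nat_lit 263) (nat_lit 2) (nat_lit 13) (.e false (nat_lit 2) (nat_lit 264) (nat_lit 2) (nat_lit 13) (.e false (nat_lit 3) (nat_lit 266) (nat_lit 2) (nat_lit 13) (.e true (nat_lit 1) (nat_lit 267) (nat_lit 2) (nat_lit 13) (.e false (nat_lit 3) (nat_lit 269) (nat_lit 2) (nat_lit 13) (.e false (nat_lit 2) (nat_lit 270) (nat_lit 2) (nat_lit 13) (.e false (nat_lit 2) (nat_lit 271) (nat_lit 2) (nat_lit 13) (.e true (nat_lit 3) (nat_lit 272) (nat_lit 2) (nat_lit 13) (.e true (nat_lit 1) (nat_lit 274) (nat_lit 2) (nat_lit 13) (.e false (nat_lit 1) (nat_lit 277) (nat_lit 2) (nat_lit 13) (.e false (nat_lit 1) (nat_lit 278) (nat_lit 2) (nat_lit 13) (.e false (nat_lit 2) (nat_lit 280) (nat_lit 2) (nat_lit 13) (.e false (nat_lit 1) (nat_lit 286) (nat_lit 2) (nat_lit 13) (.e true (nat_lit 1) (nat_lit 287) (nat_lit 2) (nat_lit 13) (.e false (nat_lit 1) (nat_lit 288) (nat_lit 2) (nat_lit 13) (.u (nat_lit 2) (.p (nat_lit 0) (nat_lit 3) (.n (nat_lit 1) (nat_lit 5) (.n (nat_lit 2) (nat_lit 1) (.n (nat_lit 3) (nat_lit 1) (.p (nat_lit 4) (nat_lit 1) (.p (nat_lit 5) (nat_lit 1) (.n (nat_lit 6) (nat_lit 1) (.n (nat_lit 7) (nat_lit 1) (.n (nat_lit 8) (nat_lit 1) (.p (nat_lit 9) (nat_lit 1) (.p (nat_lit 10) (nat_lit 3) (.n (nat_lit 12) (nat_lit 5) (.p (nat_lit 15) (nat_lit 1) (.p (nat_lit 16) (nat_lit 1) (.p (nat_lit 17) (nat_lit 2) (.n (nat_lit 18) (nat_lit 1) (.n (nat_lit 19) (nat_lit 3) (.n (nat_lit 22) (nat_lit 1) (.p (nat_lit 24) (nat_lit 2) (.n (nat_lit 25) (nat_lit 1) (.p (nat_lit 26) (nat_lit 1) (.p (nat_lit 30) (nat_lit 4) (.p (nat_lit 33) (nat_lit 3) .z))))))))))))))))))))))) .nil)))))))))))))))))))))) .leaf) (nat_lit 62465) (nat_lit 178) (.p (nat_lit 121) (nat_lit 1) .z) .df (.nd .leaf (nat_lit 62466) (nat_lit 225) (.p (nat_lit 138) (nat_lit 1) .z) .df .leaf)) (nat_lit 62469) (nat_lit 465) (.p (nat_lit 259) (nat_lit 1) .z) .df (.nd (.nd .leaf (nat_lit 62470) (nat_lit 671) (.p (nat_lit 260) (nat_lit 2) (.p (nat_lit 262) (nat_lit 2) (.p (nat_lit 263) (nat_lit 2) (.n (nat_lit 264) (nat_lit 1) (.p (nat_lit 265) (nat_lit 3) (.p (nat_lit 266) (nat_lit 2) (.n (nat_lit 267) (nat_lit 1) (.p (nat_lit 268) (nat_lit 3) (.p (nat_lit 269) (nat_lit 3) (.p (nat_lit 270) (nat_lit 1) (.p (nat_lit 271) (nat_lit 2) (.n (nat_lit 272) (nat_lit 3) (.p (nat_lit 273) (nat_lit 3) (.p (nat_lit 274) (nat_lit 1) (.n (nat_lit 277) (nat_lit 1) (.p (nat_lit 278) (nat_lit 1) (.p (nat_lit 279) (nat_lit 2) (.p (nat_lit 280) (nat_lit 1) (.n (nat_lit 286) (nat_lit 3) (.n (nat_lit 288) (nat_lit 3) .z)))))))))))))))))))) (.ct dC1b_c532 (nat_lit 1) (nat_lit 6) (.s false (nat_lit 1) (nat_lit 30) (nat_lit 2) (nat_lit 1) (nat_lit 2) true (nat_lit 6) true (nat_lit 10) false (nat_lit 1) true (nat_lit 10) true (nat_lit 11) (.e false (nat_lit 1) (nat_lit 145) (nat_lit 2) (nat_lit 10) (.e true (nat_lit 1) (nat_lit 30) (nat_lit 16) (nat_lit 1) (.e true (nat_lit 2) (nat_lit 132) (nat_lit 2) (nat_lit 10) (.e false (nat_lit 3) (nat_lit 134) (nat_lit 2) (nat_lit 10) (.e false (nat_lit 2) (nat_lit 135) (nat_lit 2) (nat_lit 10) (.e true (nat_lit 2) (nat_lit 136) (nat_lit 2) (nat_lit 10) (.e false (nat_lit 2) (nat_lit 137) (nat_lit 2) (nat_lit 10) (.e false (nat_lit 3) (nat_lit 138) (nat_lit 2) (nat_lit 10) (.e true (nat_lit 3) (nat_lit 139) (nat_lit 2) (nat_lit 10) (.e false (nat_lit 1) (nat_lit 140) (nat_lit 2) (nat_lit 10) (.e false (nat_lit 2) (nat_lit 141) (nat_lit 2) (nat_lit 10) (.e true (nat_lit 3) (nat_lit 142) (nat_lit 2) (nat_lit 10) (.e true (nat_lit 1) (nat_lit 143) (nat_lit 2) (nat_lit 10) (.e true (nat_lit 2) (nat_lit 144) (nat_lit 2) (nat_lit 10) (.e true (nat_lit 3) (nat_lit 149) (nat_lit 2) (nat_lit 10) (.e false (nat_lit 2) (nat_lit 150) (nat_lit 2) (nat_lit 10) (.e false (nat_lit 1) (nat_lit 151) (nat_lit 2) (nat_lit 10) (.e false (nat_lit 1) (nat_lit 152) (nat_lit 2) (nat_lit 10) (.e false (nat_lit 1) (nat_lit 176) (nat_lit 1) (nat_lit 11) (.u (nat_lit 2) (.n (nat_lit 0) (nat_lit 1) (.p (nat_lit 2) (nat_lit 1) (.n (nat_lit 4) (nat_lit 1) (.n (nat_lit 10) (nat_lit 1) (.n (nat_lit 13) (nat_lit 1) (.n (nat_lit 17) (nat_lit 1) (.p (nat_lit 26) (nat_lit 1) .z))))))) .nil)))))))))))))))))))))) .leaf) (nat_lit 62480) (nat_lit 1111) (.n (nat_lit 356) (nat_lit 3) (.p (nat_lit 357) (nat_lit 2) (.p (nat_lit 358) (nat_lit 3) (.n (nat_lit 359) (nat_lit 3) (.n (nat_lit 360) (nat_lit 2) (.p (nat_lit 362) (nat_lit 3) (.p (nat_lit 365) (nat_lit 1) (.n (nat_lit 366) (nat_lit 2) (.n (nat_lit 367) (nat_lit 1) (.p (nat_lit 369) (nat_lit 1) (.n (nat_lit 370) (nat_lit 3) (.n (nat_lit 372) (nat_lit 1) (.n (nat_lit 373) (nat_lit 1) (.p (nat_lit 374) (nat_lit 2) (.n (nat_lit 378) (nat_lit 3) (.n (nat_lit 379) (nat_lit 2) (.n (nat_lit 380) (nat_lit 2) (.p (nat_lit 381) (nat_lit 2) (.n (nat_lit 382) (nat_lit 2) (.p (nat_lit 383) (nat_lit 2) (.n (nat_lit 384) (nat_lit 1) (.p (nat_lit 385) (nat_lit 1) (.p (nat_lit 386) (nat_lit 2) (.n (nat_lit 387) (nat_lit 3) (.n (nat_lit 389) (nat_lit 1) (.n (nat_lit 390) (nat_lit 3) (.p (nat_lit 391) (nat_lit 3) (.n (nat_lit 392) (nat_lit 1) (.p (nat_lit 393) (nat_lit 1) (.p (nat_lit 394) (nat_lit 2) (.n (nat_lit 395) (nat_lit 3) (.p (nat_lit 396) (nat_lit 1) (.p (nat_lit 400) (nat_lit 2) (.p (nat_lit 404) (nat_lit 2) (.p (nat_lit 407) (nat_lit 3) (.n (nat_lit 408) (nat_lit 3) (.n (nat_lit 409) (nat_lit 2) (.p (nat_lit 410) (nat_lit 2) (.p (nat_lit 412) (nat_lit 3) (.n (nat_lit 413) (nat_lit 3) (.n (nat_lit 414) (nat_lit 2) (.n (nat_lit 416) (nat_lit 3) (.n (nat_lit 423) (nat_lit 2) (.p (nat_lit 424) (nat_lit 2) .z)))))))))))))))))))))))))))))))))))))))))))) (.ct dC1b_c548 (nat_lit 1) (nat_lit 6) (.s false (nat_lit 1) (nat_lit 61) (nat_lit 2) (nat_lit 1) (nat_lit 2) true (nat_lit 13) true (nat_lit 17) false (nat_lit 6) true (nat_lit 17) true (nat_lit 18) (.e true (nat_lit 1) (nat_lit 121) (nat_lit 6) (nat_lit 13) (.e false (nat_lit 1) (nat_lit 238) (nat_lit 2) (nat_lit 17) (.e true (nat_lit 1) (nat_lit 259) (nat_lit 2) (nat_lit 17) (.e false (nat_lit 1) (nat_lit 266) (nat_lit 1) (nat_lit 18) (.u (nat_lit 2) (.p (nat_lit 1) (nat_lit 1) (.n (nat_lit 3) (nat_lit 1) (.p (nat_lit 4) (nat_lit 1) (.n (nat_lit 7) (nat_lit 1) (.p (nat_lit 9) (nat_lit 1) (.p (nat_lit 15) (nat_lit 1) (.p (nat_lit 23) (nat_lit 1) (.p (nat_lit 24) (nat_lit 1) (.p (nat_lit 25) (nat_lit 1) (.p (nat_lit 32) (nat_lit 1) (.p (nat_lit 35) (nat_lit 1) (.p (nat_lit 37) (nat_lit 1) (.n (nat_lit 45) (nat_lit 1) (.p (nat_lit 49) (nat_lit 1) (.n (nat_lit 52) (nat_lit 1) (.p (nat_lit 54) (nat_lit 1) (.n (nat_lit 55) (nat_lit 1) (.n (nat_lit 57) (nat_lit 1) (.p (nat_lit 58) (nat_lit 1) (.p (nat_lit 59) (nat_lit 1) (.p (nat_lit 61) (nat_lit 1) (.p (nat_lit 68) (nat_lit 1) .z)))))))))))))))))))))) .nil))))))) .leaf)) (nat_lit 62481) (nat_lit 1109) (.p (nat_lit 355) (nat_lit 3) (.p (nat_lit 356) (nat_lit 2) (.n (nat_lit 357) (nat_lit 3) (.n (nat_lit 359) (nat_lit 2) (.n (nat_lit 360) (nat_lit 1) (.n (nat_lit 362) (nat_lit 1) (.p (nat_lit 363) (nat_lit 1) (.n (nat_lit 365) (nat_lit 1) (.p (nat_lit 366) (nat_lit 3) (.p (nat_lit 367) (nat_lit 1) (.p (nat_lit 370) (nat_lit 3) (.n (nat_lit 372) (nat_lit 1) (.p (nat_lit 374) (nat_lit 2) (.p (nat_lit 375) (nat_lit 2) (.p (nat_lit 378) (nat_lit 1) (.p (nat_lit 379) (nat_lit 3) (.p (nat_lit 380) (nat_lit 3) (.p (nat_lit 381) (nat_lit 2) (.p (nat_lit 382) (nat_lit 1) (.p (nat_lit 383) (nat_lit 3) (.p (nat_lit 384) (nat_lit 2) (.n (nat_lit 385) (nat_lit 2) (.p (nat_lit 386) (nat_lit 3) (.n (nat_lit 387) (nat_lit 1) (.n (nat_lit 388) (nat_lit 2) (.n (nat_lit 389) (nat_lit 2) (.n (nat_lit 390) (nat_lit 1) (.n (nat_lit 391) (nat_lit 1) (.p (nat_lit 392) (nat_lit 2) (.p (nat_lit 393) (nat_lit 3) (.n (nat_lit 400) (nat_lit 3) (.p (nat_lit 404) (nat_lit 3) (.p (nat_lit 405) (nat_lit 2) (.n (nat_lit 406) (nat_lit 2) (.n (nat_lit 407) (nat_lit 1) (.p (nat_lit 408) (nat_lit 3) (.p (nat_lit 409) (nat_lit 2) (.n (nat_lit 410) (nat_lit 2) (.n (nat_lit 412) (nat_lit 1) (.p (nat_lit 413) (nat_lit 1) (.p (nat_lit 414) (nat_lit 3) (.p (nat_lit 416) (nat_lit 1) (.p (nat_lit 423) (nat_lit 3) (.n (nat_lit 424) (nat_lit 3) .z)))))))))))))))))))))))))))))))))))))))))))) (.ct dC1b_c548 (nat_lit 1) (nat_lit 6) (.s false (nat_lit 1) (nat_lit 61) (nat_lit 2) (nat_lit 2) (nat_lit 1) true (nat_lit 14) true (nat_lit 18) false (nat_lit 6) true (nat_lit 17) true (nat_lit 17) (.e false (nat_lit 1) (nat_lit 138) (nat_lit 5) (nat_lit 14) (.e false (nat_lit 1) (nat_lit 266) (nat_lit 1) (nat_lit 18) (.e false (nat_lit 2) (nat_lit 259) (nat_lit 2) (nat_lit 17) (.e false (nat_lit 2) (nat_lit 212) (nat_lit 2) (nat_lit 17) (.e true (nat_lit 1) (nat_lit 214) (nat_lit 2) (nat_lit 17) (.e false (nat_lit 3) (nat_lit 215) (nat_lit 2) (nat_lit 17) (.e true (nat_lit 2) (nat_lit 217) (nat_lit 2) (nat_lit 17) dC1b_i52))))))))) (.nd (.nd (.nd .leaf (nat_lit 62482) (nat_lit 1325) (.n (nat_lit 426) (nat_lit 2) (.n (nat_lit 428) (nat_lit 2) (.n (nat_lit 429) (nat_lit 1) (.p (nat_lit 430) (nat_lit 2) (.n (nat_lit 432) (nat_lit 3) (.n (nat_lit 433) (nat_lit 3) (.p (nat_lit 434) (nat_lit 3) (.n (nat_lit 435) (nat_lit 1) (.n (nat_lit 436) (nat_lit 2) (.n (nat_lit 438) (nat_lit 1) (.p (nat_lit 439) (nat_lit 3) (.p (nat_lit 441) (nat_lit 3) (.p (nat_lit 442) (nat_lit 2) (.p (nat_lit 443) (nat_lit 3) (.p (nat_lit 444) (nat_lit 1) (.p (nat_lit 445) (nat_lit 2) (.p (nat_lit 456) (nat_lit 3) (.p (nat_lit 459) (nat_lit 2) .z)))))))))))))))))) (.ct dC1b_c533 (nat_lit 1) (nat_lit 3) (.s false (nat_lit 1) (nat_lit 18) (nat_lit 0) (nat_lit 2) (nat_lit 10) true (nat_lit 2) true (nat_lit 6) true (nat_lit 3) true (nat_lit 15) true (nat_lit 13) (.e false (nat_lit 1) (nat_lit 46) (nat_lit 22) (nat_lit 2) (.e false (nat_lit 1) (nat_lit 100) (nat_lit 10) (nat_lit 6) (.e false (nat_lit 1) (nat_lit 55) (nat_lit 18) (nat_lit 3) (.e true (nat_lit 1) (nat_lit 56) (nat_lit 18) (nat_lit 3) (.e false (nat_lit 3) (nat_lit 57) (nat_lit 18) (nat_lit 3) (.e false (nat_lit 1) (nat_lit 58) (nat_lit 18) (nat_lit 3) (.e false (nat_lit 1) (nat_lit 62) (nat_lit 18) (nat_lit 3) (.e false (nat_lit 1) (nat_lit 64) (nat_lit 18) (nat_lit 3) (.e true (nat_lit 2) (nat_lit 65) (nat_lit 18) (nat_lit 3) (.e true (nat_lit 3) (nat_lit 328) (nat_lit 0) (nat_lit 15) (.e false (nat_lit 2) (nat_lit 329) (nat_lit 0) (nat_lit 15) (.e true (nat_lit 2) (nat_lit 330) (nat_lit 0) (nat_lit 15) (.e true (nat_lit 1) (nat_lit 331) (nat_lit 0) (nat_lit 15) (.e false (nat_lit 2) (nat_lit 332) (nat_lit 0) (nat_lit 15) dC1b_i53)))))))))))))))) .leaf) (nat_lit 63489) (nat_lit 179) (.p (nat_lit 122) (nat_lit 1) .z) .df .leaf) (nat_lit 63490) (nat_lit 226) (.p (nat_lit 139) (nat_lit 1) .z) .df (.nd (.nd .leaf (nat_lit 63493) (nat_lit 555) (.n (nat_lit 212) (nat_lit 1) (.n (nat_lit 213) (nat_lit 2) (.p (nat_lit 215) (nat_lit 3) (.p (nat_lit 217) (nat_lit 1) (.n (nat_lit 218) (nat_lit 2) (.p (nat_lit 219) (nat_lit 2) (.p (nat_lit 221) (nat_lit 3) (.p (nat_lit 222) (nat_lit 3) (.p (nat_lit 223) (nat_lit 1) (.n (nat_lit 224) (nat_lit 3) (.p (nat_lit 226) (nat_lit 2) (.p (nat_lit 227) (nat_lit 1) (.p (nat_lit 228) (nat_lit 3) (.n (nat_lit 229) (nat_lit 2) (.p (nat_lit 230) (nat_lit 2) (.p (nat_lit 231) (nat_lit 2) (.n (nat_lit 233) (nat_lit 3) (.n (nat_lit 234) (nat_lit 2) (.p (nat_lit 235) (nat_lit 2) (.p (nat_lit 236) (nat_lit 3) (.p (nat_lit 238) (nat_lit 2) (.p (nat_lit 239) (nat_lit 3) (.p (nat_lit 240) (nat_lit 1) (.n (nat_lit 241) (nat_lit 2) (.n (nat_lit 242) (nat_lit 3) (.p (nat_lit 243) (nat_lit 1) (.p (nat_lit 244) (nat_lit 3) (.n (nat_lit 246) (nat_lit 1) (.p (nat_lit 247) (nat_lit 1) (.n (nat_lit 248) (nat_lit 1) (.p (nat_lit 249) (nat_lit 3) (.p (nat_lit 251) (nat_lit 3) (.p (nat_lit 252) (nat_lit 1) (.n (nat_lit 258) (nat_lit 3) .z)))))))))))))))))))))))))))))))))) (.ct dC1b_c547 (nat_lit 1) (nat_lit 9) (.s false (nat_lit 1) (nat_lit 14) (nat_lit 5) (nat_lit 0) (nat_lit 1) true (nat_lit 3) true (nat_lit 13) true (nat_lit 2) true (nat_lit 9) true (nat_lit 14) (.e true (nat_lit 1) (nat_lit 29) (nat_lit 13) (nat_lit 3) (.e false (nat_lit 1) (nat_lit 147) (nat_lit 1) (nat_lit 13) (.e true (nat_lit 1) (nat_lit 148) (nat_lit 1) (nat_lit 13) (.e true (nat_lit 3) (nat_lit 134) (nat_lit 1) (nat_lit 13) (.e true (nat_lit 2) (nat_lit 135) (nat_lit 1) (nat_lit 13) (.e false (nat_lit 2) (nat_lit 137) (nat_lit 1) (nat_lit 13) (.e true (nat_lit 1) (nat_lit 139) (nat_lit 1) (nat_lit 13) (.e false (nat_lit 1) (nat_lit 142) (nat_lit 1) (nat_lit 13) (.e true (nat_lit 1) (nat_lit 143) (nat_lit 1) (nat_lit 13) (.e true (nat_lit 1) (nat_lit 144) (nat_lit 1) (nat_lit 13) (.e true (nat_lit 1) (nat_lit 146) (nat_lit 1) (nat_lit 13) (.e true (nat_lit 1) (nat_lit 149) (nat_lit 1) (nat_lit 13) (.e false (nat_lit 2) (nat_lit 150) (nat_lit 1) (nat_lit 13) (.e true (nat_lit 3) (nat_lit 151) (nat_lit 1) (nat_lit 13) (.e true (nat_lit 2) (nat_lit 152) (nat_lit 1) (nat_lit 13) (.e false (nat_lit 2) (nat_lit 133) (nat_lit 1) (nat_lit 13) (.e true (nat_lit 3) (nat_lit 140) (nat_lit 1) (nat_lit 13) dC1b_i54))))))))))))))))))) .leaf) (nat_lit 63494) (nat_lit 609) (.p (nat_lit 260) (nat_lit 1) (.p (nat_lit 261) (nat_lit 1) (.p (nat_lit 262) (nat_lit 3) (.p (nat_lit 263) (nat_lit 3) (.p (nat_lit 264) (nat_lit 1) (.p (nat_lit 265) (nat_lit 3) (.p (nat_lit 266) (nat_lit 2) (.p (nat_lit 267) (nat_lit 2) (.n (nat_lit 270) (nat_lit 1) (.n (nat_lit 271) (nat_lit 2) (.p (nat_lit 272) (nat_lit 3) (.n (nat_lit 273) (nat_lit 2) (.p (nat_lit 274) (nat_lit 2) (.n (nat_lit 277) (nat_lit 1) (.n (nat_lit 278) (nat_lit 2) (.n (nat_lit 279) (nat_lit 1) (.p (nat_lit 280) (nat_lit 1) (.n (nat_lit 288) (nat_lit 1) .z)))))))))))))))))) (.ct dC1b_c532 (nat_lit 1) (nat_lit 6) (.s false (nat_lit 3) (nat_lit 6) (nat_lit 0) (nat_lit 6) (nat_lit 3) true (nat_lit 5) true (nat_lit 9) true (nat_lit 6) true (nat_lit 12) true (nat_lit 6) (.s false (nat_lit 1) (nat_lit 15) (nat_lit 2) (nat_lit 3) (nat_lit 2) true (nat_lit 6) true (nat_lit 10) true (nat_lit 2) true (nat_lit 10) true (nat_lit 9) (.s false (nat_lit 1) (nat_lit 18) (nat_lit 0) (nat_lit 2) (nat_lit 3) true (nat_lit 5) true (nat_lit 9) true (nat_lit 0) true (nat_lit 12) true (nat_lit 10) (.s false (nat_lit 1) (nat_lit 23) (nat_lit 2) (nat_lit 2) (nat_lit 2) true (nat_lit 6) true (nat_lit 10) false (nat_lit 0) true (nat_lit 10) true (nat_lit 10) (.s false (nat_lit 1) (nat_lit 31) (nat_lit 0) (nat_lit 2) (nat_lit 2) true (nat_lit 8) true (nat_lit 10) false (nat_lit 2) true (nat_lit 12) true (nat_lit 10) dC1b_i55)))))) .leaf))) (nat_lit 63504) (nat_lit 1075) (.p (nat_lit 355) (nat_lit 1) (.n (nat_lit 356) (nat_lit 3) (.n (nat_lit 357) (nat_lit 3) (.n (nat_lit 358) (nat_lit 3) (.n (nat_lit 359) (nat_lit 2) (.n (nat_lit 360) (nat_lit 2) (.p (nat_lit 361) (nat_lit 2) (.p (nat_lit 362) (nat_lit 1) (.n (nat_lit 363) (nat_lit 1) (.p (nat_lit 364) (nat_lit 3) (.n (nat_lit 365) (nat_lit 3) (.p (nat_lit 366) (nat_lit 2) (.n (nat_lit 367) (nat_lit 1) (.p (nat_lit 369) (nat_lit 2) (.n (nat_lit 370) (nat_lit 3) (.p (nat_lit 372) (nat_lit 1) (.p (nat_lit 373) (nat_lit 3) (.n (nat_lit 374) (nat_lit 3) (.n (nat_lit 375) (nat_lit 3) (.p (nat_lit 376) (nat_lit 1) (.n (nat_lit 379) (nat_lit 2) (.n (nat_lit 380) (nat_lit 2) (.p (nat_lit 381) (nat_lit 1) (.n (nat_lit 382) (nat_lit 1) (.n (nat_lit 383) (nat_lit 3) (.p (nat_lit 384) (nat_lit 3) (.n (nat_lit 386) (nat_lit 2) (.p (nat_lit 387) (nat_lit 3) (.n (nat_lit 388) (nat_lit 2) (.p (nat_lit 389) (nat_lit 3) (.p (nat_lit 390) (nat_lit 3) (.p (nat_lit 391) (nat_lit 3) (.p (nat_lit 392) (nat_lit 3) (.n (nat_lit 393) (nat_lit 1) (.p (nat_lit 394) (nat_lit 2) (.n (nat_lit 395) (nat_lit 3) (.p (nat_lit 396) (nat_lit 1) (.p (nat_lit 400) (nat_lit 2) (.p (nat_lit 401) (nat_lit 3) (.n (nat_lit 403) (nat_lit 3) (.p (nat_lit 404) (nat_lit 3) (.p (nat_lit 405) (nat_lit 2) (.n (nat_lit 406) (nat_lit 2) (.n (nat_lit 407) (nat_lit 1) (.p (nat_lit 408) (nat_lit 3) (.p (nat_lit 409) (nat_lit 2) (.n (nat_lit 410) (nat_lit 2) (.n (nat_lit 412) (nat_lit 1) (.p (nat_lit 413) (nat_lit 1) (.p (nat_lit 414) (nat_lit 3) (.p (nat_lit 416) (nat_lit 1) (.n (nat_lit 422) (nat_lit 2) (.p (nat_lit 423) (nat_lit 3) (.n (nat_lit 424) (nat_lit 3) .z)))))))))))))))))))))))))))))))))))))))))))))))))))))) (.ct dC1b_c548 (nat_lit 1) (nat_lit 6) (.s false (nat_lit 1) (nat_lit 62) (nat_lit 2) (nat_lit 1) (nat_lit 2) true (nat_lit 13) true (nat_lit 17) false (nat_lit 6) true (nat_lit 17) true (nat_lit 18) (.e true (nat_lit 1) (nat_lit 122) (nat_lit 6) (nat_lit 13) (.e true (nat_lit 2) (nat_lit 239) (nat_lit 2) (nat_lit 17) (.e false (nat_lit 1) (nat_lit 212) (nat_lit 2) (nat_lit 17) (.e false (nat_lit 2) (nat_lit 213) (nat_lit 2) (nat_lit 17) (.e true (nat_lit 3) (nat_lit 215) (nat_lit 2) (nat_lit 17) (.e true (nat_lit 1) (nat_lit 217) (nat_lit 2) (nat_lit 17) (.e false (nat_lit 2) (nat_lit 218) (nat_lit 2) (nat_lit 17) (.e true (nat_lit 2) (nat_lit 219) (nat_lit 2) (nat_lit 17) (.e true (nat_lit 3) (nat_lit 221) (nat_lit 2) (nat_lit 17) (.e true (nat_lit 3) (nat_lit 222) (nat_lit 2) (nat_lit 17) (.e true (nat_lit 1) (nat_lit 223) (nat_lit 2) (nat_lit 17) (.e false (nat_lit 3) (nat_lit 224) (nat_lit 2) (nat_lit 17) dC1b_i56)))))))))))))) (.nd (.nd (.nd (.nd .leaf (nat_lit 63505) (nat_lit 1041) (.p (nat_lit 355) (nat_lit 2) (.n (nat_lit 356) (nat_lit 2) (.n (nat_lit 357) (nat_lit 3) (.n (nat_lit 359) (nat_lit 1) (.p (nat_lit 360) (nat_lit 2) (.p (nat_lit 361) (nat_lit 3) (.p (nat_lit 362) (nat_lit 3) (.p (nat_lit 363) (nat_lit 2) (.p (nat_lit 364) (nat_lit 1) (.n (nat_lit 365) (nat_lit 3) (.n (nat_lit 366) (nat_lit 1) (.p (nat_lit 367) (nat_lit 3) (.n (nat_lit 369) (nat_lit 3) (.p (nat_lit 370) (nat_lit 2) (.p (nat_lit 373) (nat_lit 1) (.n (nat_lit 374) (nat_lit 3) (.p (nat_lit 376) (nat_lit 2) (.p (nat_lit 379) (nat_lit 3) (.p (nat_lit 380) (nat_lit 3) (.n (nat_lit 381) (nat_lit 3) (.n (nat_lit 382) (nat_lit 1) (.p (nat_lit 383) (nat_lit 1) (.p (nat_lit 384) (nat_lit 3) (.n (nat_lit 385) (nat_lit 3) (.p (nat_lit 386) (nat_lit 1) (.p (nat_lit 387) (nat_lit 1) (.p (nat_lit 388) (nat_lit 3) (.n (nat_lit 389) (nat_lit 1) (.p (nat_lit 390) (nat_lit 2) (.n (nat_lit 391) (nat_lit 1) (.p (nat_lit 392) (nat_lit 2) (.p (nat_lit 393) (nat_lit 2) (.n (nat_lit 394) (nat_lit 3) (.p (nat_lit 395) (nat_lit 3) (.p (nat_lit 396) (nat_lit 1) (.n (nat_lit 400) (nat_lit 3) (.n (nat_lit 401) (nat_lit 1) (.p (nat_lit 403) (nat_lit 1) (.n (nat_lit 404) (nat_lit 1) (.n (nat_lit 405) (nat_lit 3) (.p (nat_lit 406) (nat_lit 3) (.n (nat_lit 407) (nat_lit 2) (.n (nat_lit 408) (nat_lit 1) (.n (nat_lit 409) (nat_lit 3) (.p (nat_lit 410) (nat_lit 3) (.n (nat_lit 412) (nat_lit 2) (.p (nat_lit 413) (nat_lit 2) (.n (nat_lit 414) (nat_lit 1) (.p (nat_lit 416) (nat_lit 2) (.p (nat_lit 422) (nat_lit 3) (.n (nat_lit 423) (nat_lit 1) (.p (nat_lit 424) (nat_lit 1) .z)))))))))))))))))))))))))))))))))))))))))))))))))))) (.ct dC1b_c548 (nat_lit 1) (nat_lit 6) (.s false (nat_lit 1) (nat_lit 62) (nat_lit 2) (nat_lit 2) (nat_lit 1) true (nat_lit 14) true (nat_lit 18) false (nat_lit 6) true (nat_lit 17) true (nat_lit 17) (.e false (nat_lit 1) (nat_lit 139) (nat_lit 5) (nat_lit 14) (.e false (nat_lit 1) (nat_lit 267) (nat_lit 1) (nat_lit 18) (.e false (nat_lit 3) (nat_lit 212) (nat_lit 2) (nat_lit 17) (.e true (nat_lit 2) (nat_lit 213) (nat_lit 2) (nat_lit 17) (.e true (nat_lit 2) (nat_lit 215) (nat_lit 2) (nat_lit 17) (.e false (nat_lit 2) (nat_lit 217) (nat_lit 2) (nat_lit 17) (.e true (nat_lit 2) (nat_lit 218) (nat_lit 2) (nat_lit 17) (.e false (nat_lit 2) (nat_lit 219) (nat_lit 2) (nat_lit 17) (.e true (nat_lit 3) (nat_lit 221) (nat_lit 2) (nat_lit 17) (.e false (nat_lit 2) (nat_lit 222) (nat_lit 2) (nat_lit 17) (.e false (nat_lit 1) (nat_lit 223) (nat_lit 2) (nat_lit 17) (.e false (nat_lit 1) (nat_lit 224) (nat_lit 2) (nat_lit 17) (.e false (nat_lit 2) (nat_lit 227) (nat_lit 2) (nat_lit 17) (.e true (nat_lit 1) (nat_lit 228) (nat_lit 2) (nat_lit 17) (.e true (nat_lit 1) (nat_lit 229) (nat_lit 2) (nat_lit 17) dC1b_i57))))))))))))))))) .leaf) (nat_lit 63506) (nat_lit 1280) (.p (nat_lit 427) (nat_lit 1) (.n (nat_lit 429) (nat_lit 1) (.n (nat_lit 430) (nat_lit 1) (.n (nat_lit 431) (nat_lit 2) (.n (nat_lit 432) (nat_lit 2) (.n (nat_lit 433) (nat_lit 2) (.p (nat_lit 434) (nat_lit 1) (.p (nat_lit 435) (nat_lit 1) (.p (nat_lit 436) (nat_lit 1) (.p (nat_lit 439) (nat_lit 2) (.n (nat_lit 441) (nat_lit 3) (.n (nat_lit 442) (nat_lit 1) (.n (nat_lit 443) (nat_lit 3) (.n (nat_lit 444) (nat_lit 1) (.n (nat_lit 445) (nat_lit 3) (.p (nat_lit 456) (nat_lit 2) (.n (nat_lit 459) (nat_lit 1) .z))))))))))))))))) (.ct dC1b_c533 (nat_lit 1) (nat_lit 3) (.s false (nat_lit 1) (nat_lit 62) (nat_lit 2) (nat_lit 2) (nat_lit 2) true (nat_lit 9) true (nat_lit 13) false (nat_lit 3) true (nat_lit 13) true (nat_lit 13) (.e false (nat_lit 1) (nat_lit 139) (nat_lit 6) (nat_lit 9) (.e true (nat_lit 2) (nat_lit 267) (nat_lit 2) (nat_lit 13) (.e true (nat_lit 1) (nat_lit 260) (nat_lit 2) (nat_lit 13) (.e true (nat_lit 1) (nat_lit 261) (nat_lit 2) (nat_lit 13) (.e true (nat_lit 3) (nat_lit 262) (nat_lit 2) (nat_lit 13) (.e true (nat_lit 3) (nat_lit 263) (nat_lit 2) (nat_lit 13) (.e true (nat_lit 1) (nat_lit 264) (nat_lit 2) (nat_lit 13) (.e true (nat_lit 3) (nat_lit 265) (nat_lit 2) (nat_lit 13) (.e true (nat_lit 2) (nat_lit 266) (nat_lit 2) (nat_lit 13) (.e false (nat_lit 1) (nat_lit 270) (nat_lit 2) (nat_lit 13) (.e false (nat_lit 2) (nat_lit 271) (nat_lit 2) (nat_lit 13) (.e true (nat_lit 3) (nat_lit 272) (nat_lit 2) (nat_lit 13) (.e false (nat_lit 2) (nat_lit 273) (nat_lit 2) (nat_lit 13) (.e true (nat_lit 2) (nat_lit 274) (nat_lit 2) (nat_lit 13) (.e false (nat_lit 1) (nat_lit 277) (nat_lit 2) (nat_lit 13) (.e false (nat_lit 2) (nat_lit 278) (nat_lit 2) (nat_lit 13) (.e false (nat_lit 1) (nat_lit 279) (nat_lit 2) (nat_lit 13) (.e true (nat_lit 1) (nat_lit 280) (nat_lit 2) (nat_lit 13) (.e false (nat_lit 1) (nat_lit 288) (nat_lit 2) (nat_lit 13) (.u (nat_lit 2) (.n (nat_lit 0) (nat_lit 3) (.p (nat_lit 2) (nat_lit 3) (.n (nat_lit 3) (nat_lit 2) (.n (nat_lit 4) (nat_lit 2) (.p (nat_lit 5) (nat_lit 1) (.p (nat_lit 6) (nat_lit 4) (.p (nat_lit 7) (nat_lit 4) (.p (nat_lit 8) (nat_lit 2) (.p (nat_lit 9) (nat_lit 2) (.p (nat_lit 10) (nat_lit 1) (.p (nat_lit 12) (nat_lit 1) (.p (nat_lit 13) (nat_lit 2) (.p (nat_lit 15) (nat_lit 5) (.n (nat_lit 16) (nat_lit 1) (.p (nat_lit 18) (nat_lit 1) (.n (nat_lit 19) (nat_lit 1) (.p (nat_lit 22) (nat_lit 1) (.n (nat_lit 24) (nat_lit 1) (.p (nat_lit 26) (nat_lit 1) (.p (nat_lit 27) (nat_lit 1) .z)))))))))))))))))))) .nil)))))))))))))))))))))) .leaf) (nat_lit 64513) (nat_lit 197) (.p (nat_lit 109) (nat_lit 1) (.n (nat_lit 115) (nat_lit 1) (.n (nat_lit 117) (nat_lit 1) (.p (nat_lit 119) (nat_lit 3) (.n (nat_lit 120) (nat_lit 3) (.n (nat_lit 121) (nat_lit 3) (.n (nat_lit 122) (nat_lit 1) (.p (nat_lit 123) (nat_lit 3) (.n (nat_lit 124) (nat_lit 2) (.p (nat_lit 130) (nat_lit 1) .z)))))))))) (.ct dC1b_c546 (nat_lit 1) (nat_lit 9) (.s false (nat_lit 1) (nat_lit 9) (nat_lit 1) (nat_lit 1) (nat_lit 2) true (nat_lit 5) true (nat_lit 8) true (nat_lit 1) true (nat_lit 9) true (nat_lit 9) (.e false (nat_lit 1) (nat_lit 21) (nat_lit 5) (nat_lit 5) (.e false (nat_lit 1) (nat_lit 49) (nat_lit 2) (nat_lit 8) (.e true (nat_lit 1) (nat_lit 55) (nat_lit 1) (nat_lit 9) (.e true (nat_lit 1) (nat_lit 57) (nat_lit 1) (nat_lit 9) (.e false (nat_lit 3) (nat_lit 59) (nat_lit 1) (nat_lit 9) (.e true (nat_lit 3) (nat_lit 60) (nat_lit 1) (nat_lit 9) (.e true (nat_lit 3) (nat_lit 61) (nat_lit 1) (nat_lit 9) (.e true (nat_lit 1) (nat_lit 62) (nat_lit 1) (nat_lit 9) (.e false (nat_lit 3) (nat_lit 64) (nat_lit 1) (nat_lit 9) (.e true (nat_lit 2) (nat_lit 65) (nat_lit 1) (nat_lit 9) (.u (nat_lit 2) (.n (nat_lit 66) (nat_lit 1) .z) .nil))))))))))))) (.nd (.nd .leaf (nat_lit 64514) (nat_lit 227) (.p (nat_lit 140) (nat_lit 1) .z) .df .leaf) (nat_lit 64517) (nat_lit 556) (.n (nat_lit 212) (nat_lit 2) (.n (nat_lit 213) (nat_lit 1) (.n (nat_lit 214) (nat_lit 2) (.n (nat_lit 215) (nat_lit 3) (.n (nat_lit 217) (nat_lit 2) (.n (nat_lit 218) (nat_lit 1) (.n (nat_lit 219) (nat_lit 3) (.n (nat_lit 220) (nat_lit 1) (.p (nat_lit 221) (nat_lit 2) (.p (nat_lit 222) (nat_lit 2) (.n (nat_lit 223) (nat_lit 1) (.p (nat_lit 224) (nat_lit 1) (.p (nat_lit 225) (nat_lit 1) (.n (nat_lit 227) (nat_lit 1) (.p (nat_lit 228) (nat_lit 2) (.n (nat_lit 229) (nat_lit 2) (.n (nat_lit 230) (nat_lit 3) (.n (nat_lit 231) (nat_lit 2) (.n (nat_lit 232) (nat_lit 1) (.p (nat_lit 233) (nat_lit 2) (.p (nat_lit 234) (nat_lit 3) (.n (nat_lit 235) (nat_lit 3) (.p (nat_lit 236) (nat_lit 1) (.p (nat_lit 237) (nat_lit 3) (.n (nat_lit 238) (nat_lit 1) (.p (nat_lit 239) (nat_lit 3) (.p (nat_lit 240) (nat_lit 1) (.n (nat_lit 241) (nat_lit 2) (.p (nat_lit 242) (nat_lit 3) (.n (nat_lit 243) (nat_lit 1) (.p (nat_lit 245) (nat_lit 3) (.n (nat_lit 246) (nat_lit 2) (.p (nat_lit 247) (nat_lit 2) (.n (nat_lit 248) (nat_lit 3) (.n (nat_lit 249) (nat_lit 1) (.p (nat_lit 250) (nat_lit 1) (.p (nat_lit 251) (nat_lit 3) (.p (nat_lit 254) (nat_lit 1) (.n (nat_lit 256) (nat_lit 3) (.n (nat_lit 257) (nat_lit 3) (.n (nat_lit 258) (nat_lit 3) .z))))))))))))))))))))))))))))))))))))))))) (.ct dC1b_c547 (nat_lit 1) (nat_lit 9) (.s true (nat_lit 1) (nat_lit 9) (nat_lit 5) (nat_lit 1) (nat_lit 2) true (nat_lit 1) true (nat_lit 12) true (nat_lit 5) true (nat_lit 9) true (nat_lit 13) (.e false (nat_lit 1) (nat_lit 21) (nat_lit 16) (nat_lit 1) (.e true (nat_lit 1) (nat_lit 119) (nat_lit 2) (nat_lit 12) (.e false (nat_lit 1) (nat_lit 109) (nat_lit 2) (nat_lit 12) (.e false (nat_lit 1) (nat_lit 130) (nat_lit 2) (nat_lit 12) (.e true (nat_lit 1) (nat_lit 37) (nat_lit 9) (nat_lit 5) (.e true (nat_lit 1) (nat_lit 55) (nat_lit 5) (nat_lit 9) (.e true (nat_lit 1) (nat_lit 57) (nat_lit 5) (nat_lit 9) (.e true (nat_lit 3) (nat_lit 59) (nat_lit 5) (nat_lit 9) (.e true (nat_lit 3) (nat_lit 60) (nat_lit 5) (nat_lit 9) (.e true (nat_lit 3) (nat_lit 61) (nat_lit 5) (nat_lit 9) (.e true (nat_lit 1) (nat_lit 62) (nat_lit 5) (nat_lit 9) (.e false (nat_lit 3) (nat_lit 64) (nat_lit 5) (nat_lit 9) (.e true (nat_lit 2) (nat_lit 65) (nat_lit 5) (nat_lit 9) (.e true (nat_lit 1) (nat_lit 152) (nat_lit 1) (nat_lit 13) (.u (nat_lit 2) (.n (nat_lit 0) (nat_lit 1) (.p (nat_lit 2) (nat_lit 1) (.p (nat_lit 4) (nat_lit 2) (.p (nat_lit 5) (nat_lit 2) (.p (nat_lit 7) (nat_lit 1) (.n (nat_lit 8) (nat_lit 1) (.n (nat_lit 9) (nat_lit 1) (.n (nat_lit 11) (nat_lit 3) (.n (nat_lit 12) (nat_lit 2) (.n (nat_lit 14) (nat_lit 1) (.n (nat_lit 16) (nat_lit 1) (.n (nat_lit 18) (nat_lit 1) (.n (nat_lit 20) (nat_lit 1) (.n (nat_lit 21) (nat_lit 1) (.n (nat_lit 22) (nat_lit 2) (.n (nat_lit 23) (nat_lit 1) (.n (nat_lit 24) (nat_lit 3) (.n (nat_lit 25) (nat_lit 1) (.n (nat_lit 28) (nat_lit 1) (.p (nat_lit 29) (nat_lit 2) (.n (nat_lit 30) (nat_lit 3) (.n (nat_lit 31) (nat_lit 1) (.p (nat_lit 32) (nat_lit 1) (.p (nat_lit 33) (nat_lit 1) (.n (nat_lit 34) (nat_lit 1) (.p (nat_lit 35) (nat_lit 1) (.p (nat_lit 36) (nat_lit 2) (.n (nat_lit 40) (nat_lit 1) (.p (nat_lit 44) (nat_lit 1) (.p (nat_lit 148) (nat_lit 1) .z)))))))))))))))))))))))))))))) .nil))))))))))))))))) .leaf)) (nat_lit 64518) (nat_lit 616) (.n (nat_lit 260) (nat_lit 2) (.p (nat_lit 261) (nat_lit 2) (.n (nat_lit 262) (nat_lit 2) (.n (nat_lit 263) (nat_lit 3) (.p (nat_lit 265) (nat_lit 2) (.n (nat_lit 268) (nat_lit 2) (.n (nat_lit 271) (nat_lit 3) (.p (nat_lit 272) (nat_lit 1) (.n (nat_lit 273) (nat_lit 1) (.p (nat_lit 274) (nat_lit 2) (.n (nat_lit 277) (nat_lit 2) (.n (nat_lit 278) (nat_lit 3) (.p (nat_lit 279) (nat_lit 1) (.p (nat_lit 280) (nat_lit 2) (.p (nat_lit 286) (nat_lit 3) (.p (nat_lit 287) (nat_lit 2) (.p (nat_lit 288) (nat_lit 2) .z))))))))))))))))) (.ct dC1b_c532 (nat_lit 1) (nat_lit 6) (.s false (nat_lit 1) (nat_lit 32) (nat_lit 2) (nat_lit 0) (nat_lit 2) true (nat_lit 6) true (nat_lit 10) false (nat_lit 2) true (nat_lit 10) true (nat_lit 12) (.e true (nat_lit 1) (nat_lit 32) (nat_lit 14) (nat_lit 2) (.e false (nat_lit 3) (nat_lit 132) (nat_lit 2) (nat_lit 10) (.e true (nat_lit 3) (nat_lit 133) (nat_lit 2) (nat_lit 10) (.e false (nat_lit 2) (nat_lit 134) (nat_lit 2) (nat_lit 10) (.e true (nat_lit 3) (nat_lit 135) (nat_lit 2) (nat_lit 10) (.e false (nat_lit 3) (nat_lit 137) (nat_lit 2) (nat_lit 10) (.e false (nat_lit 1) (nat_lit 138) (nat_lit 2) (nat_lit 10) (.e true (nat_lit 2) (nat_lit 139) (nat_lit 2) (nat_lit 10) (.e false (nat_lit 2) (nat_lit 140) (nat_lit 2) (nat_lit 10) (.e true (nat_lit 1) (nat_lit 141) (nat_lit 2) (nat_lit 10) (.e false (nat_lit 1) (nat_lit 142) (nat_lit 2) (nat_lit 10) (.e true (nat_lit 2) (nat_lit 144) (nat_lit 2) (nat_lit 10) (.e true (nat_lit 1) (nat_lit 145) (nat_lit 2) (nat_lit 10) (.e false (nat_lit 1) (nat_lit 146) (nat_lit 2) (nat_lit 10) (.e false (nat_lit 3) (nat_lit 149) (nat_lit 2) (nat_lit 10) (.e true (nat_lit 1) (nat_lit 150) (nat_lit 2) (nat_lit 10) (.e false (nat_lit 3) (nat_lit 152) (nat_lit 2) (nat_lit 10) (.e false (nat_lit 1) (nat_lit 181) (nat_lit 0) (nat_lit 12) (.u (nat_lit 2) (.p (nat_lit 0) (nat_lit 1) (.n (nat_lit 1) (nat_lit 1) (.p (nat_lit 2) (nat_lit 1) (.p (nat_lit 8) (nat_lit 1) (.p (nat_lit 17) (nat_lit 1) .z))))) .nil))))))))))))))))))))) (.nd (.nd (.nd .leaf (nat_lit 64528) (nat_lit 1207) (.n (nat_lit 355) (nat_lit 1) (.n (nat_lit 356) (nat_lit 1) (.p (nat_lit 357) (nat_lit 1) (.n (nat_lit 358) (nat_lit 3) (.p (nat_lit 359) (nat_lit 3) (.p (nat_lit 360) (nat_lit 2) (.n (nat_lit 361) (nat_lit 3) (.p (nat_lit 363) (nat_lit 2) (.n (nat_lit 364) (nat_lit 2) (.n (nat_lit 365) (nat_lit 3) (.n (nat_lit 366) (nat_lit 3) (.p (nat_lit 367) (nat_lit 1) (.n (nat_lit 368) (nat_lit 1) (.n (nat_lit 369) (nat_lit 2) (.p (nat_lit 370) (nat_lit 3) (.p (nat_lit 372) (nat_lit 3) (.p (nat_lit 373) (nat_lit 2) (.p (nat_lit 374) (nat_lit 3) (.n (nat_lit 375) (nat_lit 3) (.p (nat_lit 377) (nat_lit 1) (.n (nat_lit 379) (nat_lit 2) (.n (nat_lit 380) (nat_lit 2) (.p (nat_lit 381) (nat_lit 1) (.p (nat_lit 382) (nat_lit 2) (.p (nat_lit 383) (nat_lit 2) (.n (nat_lit 384) (nat_lit 2) (.p (nat_lit 386) (nat_lit 3) (.p (nat_lit 387) (nat_lit 1) (.n (nat_lit 388) (nat_lit 1) (.n (nat_lit 389) (nat_lit 3) (.n (nat_lit 390) (nat_lit 1) (.n (nat_lit 391) (nat_lit 3) (.p (nat_lit 392) (nat_lit 3) (.n (nat_lit 393) (nat_lit 3) (.n (nat_lit 394) (nat_lit 2) (.n (nat_lit 395) (nat_lit 2) (.n (nat_lit 396) (nat_lit 2) (.p (nat_lit 397) (nat_lit 1) (.n (nat_lit 398) (nat_lit 1) (.p (nat_lit 400) (nat_lit 2) (.p (nat_lit 401) (nat_lit 3) (.n (nat_lit 403) (nat_lit 3) (.p (nat_lit 404) (nat_lit 1) (.n (nat_lit 405) (nat_lit 1) (.p (nat_lit 406) (nat_lit 1) (.n (nat_lit 409) (nat_lit 1) (.n (nat_lit 411) (nat_lit 1) (.n (nat_lit 412) (nat_lit 1) (.p (nat_lit 413) (nat_lit 2) (.p (nat_lit 414) (nat_lit 3) (.n (nat_lit 415) (nat_lit 1) (.p (nat_lit 417) (nat_lit 1) (.p (nat_lit 419) (nat_lit 1) (.n (nat_lit 420) (nat_lit 1) (.p (nat_lit 421) (nat_lit 1) (.n (nat_lit 422) (nat_lit 2) (.p (nat_lit 423) (nat_lit 3) (.n (nat_lit 425) (nat_lit 3) .z)))))))))))))))))))))))))))))))))))))))))))))))))))))))))) (.ct dC1b_c548 (nat_lit 1) (nat_lit 6) (.s false (nat_lit 1) (nat_lit 16) (nat_lit 0) (nat_lit 0) (nat_lit 16) true (nat_lit 0) true (nat_lit 6) true (nat_lit 6) true (nat_lit 19) true (nat_lit 19) (.a true (nat_lit 3) (nat_lit 36) (nat_lit 36) (nat_lit 0) (nat_lit 0) (.e false (nat_lit 1) (nat_lit 56) (nat_lit 16) (nat_lit 6) (.e true (nat_lit 1) (nat_lit 57) (nat_lit 16) (nat_lit 6) (.e false (nat_lit 3) (nat_lit 59) (nat_lit 16) (nat_lit 6) (.e false (nat_lit 3) (nat_lit 60) (nat_lit 16) (nat_lit 6) dC1b_i58))))))) .leaf) (nat_lit 64529) (nat_lit 1214) (.n (nat_lit 355) (nat_lit 1) (.p (nat_lit 356) (nat_lit 2) (.n (nat_lit 357) (nat_lit 1) (.p (nat_lit 358) (nat_lit 1) (.p (nat_lit 359) (nat_lit 1) (.n (nat_lit 360) (nat_lit 1) (.n (nat_lit 361) (nat_lit 2) (.p (nat_lit 362) (nat_lit 3) (.p (nat_lit 363) (nat_lit 2) (.p (nat_lit 364) (nat_lit 2) (.n (nat_lit 365) (nat_lit 2) (.n (nat_lit 366) (nat_lit 1) (.n (nat_lit 367) (nat_lit 2) (.n (nat_lit 368) (nat_lit 2) (.p (nat_lit 370) (nat_lit 1) (.p (nat_lit 372) (nat_lit 1) (.n (nat_lit 373) (nat_lit 2) (.p (nat_lit 374) (nat_lit 3) (.n (nat_lit 375) (nat_lit 2) (.p (nat_lit 377) (nat_lit 2) (.p (nat_lit 379) (nat_lit 3) (.p (nat_lit 380) (nat_lit 3) (.p (nat_lit 381) (nat_lit 3) (.n (nat_lit 382) (nat_lit 3) (.n (nat_lit 383) (nat_lit 3) (.p (nat_lit 384) (nat_lit 3) (.n (nat_lit 386) (nat_lit 1) (.n (nat_lit 387) (nat_lit 1) (.n (nat_lit 388) (nat_lit 3) (.n (nat_lit 389) (nat_lit 1) (.n (nat_lit 390) (nat_lit 2) (.n (nat_lit 393) (nat_lit 3) (.p (nat_lit 394) (nat_lit 3) (.p (nat_lit 395) (nat_lit 1) (.n (nat_lit 396) (nat_lit 3) (.p (nat_lit 397) (nat_lit 2) (.n (nat_lit 398) (nat_lit 2) (.n (nat_lit 400) (nat_lit 3) (.n (nat_lit 401) (nat_lit 1) (.p (nat_lit 403) (nat_lit 1) (.n (nat_lit 404) (nat_lit 2) (.n (nat_lit 405) (nat_lit 1) (.p (nat_lit 406) (nat_lit 1) (.p (nat_lit 408) (nat_lit 1) (.p (nat_lit 409) (nat_lit 1) (.n (nat_lit 410) (nat_lit 3) (.n (nat_lit 411) (nat_lit 2) (.n (nat_lit 412) (nat_lit 2) (.n (nat_lit 413) (nat_lit 3) (.n (nat_lit 414) (nat_lit 1) (.n (nat_lit 415) (nat_lit 2) (.p (nat_lit 417) (nat_lit 2) (.p (nat_lit 419) (nat_lit 2) (.n (nat_lit 420) (nat_lit 2) (.p (nat_lit 421) (nat_lit 2) (.p (nat_lit 422) (nat_lit 3) (.n (nat_lit 423) (nat_lit 1) (.p (nat_lit 425) (nat_lit 1) .z)))))))))))))))))))))))))))))))))))))))))))))))))))))))))) (.ct dC1b_c548 (nat_lit 1) (nat_lit 6) (.s false (nat_lit 1) (nat_lit 16) (nat_lit 0) (nat_lit 0) (nat_lit 17) true (nat_lit 0) true (nat_lit 6) true (nat_lit 6) true (nat_lit 19) true (nat_lit 19) (.a false (nat_lit 3) (nat_lit 36) (nat_lit 36) (nat_lit 0) (nat_lit 0) (.e true (nat_lit 2) (nat_lit 36) (nat_lit 31) (nat_lit 0) (.e true (nat_lit 1) (nat_lit 36) (nat_lit 32) (nat_lit 0) (.e false (nat_lit 1) (nat_lit 36) (nat_lit 33) (nat_lit 0) (.e false (nat_lit 1) (nat_lit 36) (nat_lit 34) (nat_lit 0) (.e false (nat_lit 1) (nat_lit 36) (nat_lit 35) (nat_lit 0) (.e false (nat_lit 1) (nat_lit 56) (nat_lit 17) (nat_lit 6) (.e true (nat_lit 1) (nat_lit 57) (nat_lit 17) (nat_lit 6) (.e false (nat_lit 3) (nat_lit 59) (nat_lit 17) (nat_lit 6) (.e false (nat_lit 3) (nat_lit 60) (nat_lit 17) (nat_lit 6) (.e true (nat_lit 3) (nat_lit 61) (nat_lit 17) (nat_lit 6) (.e true (nat_lit 1) (nat_lit 62) (nat_lit 17) (nat_lit 6) dC1b_i59)))))))))))))) .leaf) (nat_lit 64530) (nat_lit 1281) (.n (nat_lit 426) (nat_lit 3) (.p (nat_lit 427) (nat_lit 1) (.n (nat_lit 428) (nat_lit 3) (.p (nat_lit 429) (nat_lit 2) (.n (nat_lit 430) (nat_lit 3) (.n (nat_lit 431) (nat_lit 1) (.n (nat_lit 432) (nat_lit 2) (.n (nat_lit 433) (nat_lit 2) (.p (nat_lit 434) (nat_lit 1) (.n (nat_lit 435) (nat_lit 1) (.n (nat_lit 438) (nat_lit 3) (.n (nat_lit 439) (nat_lit 1) (.n (nat_lit 441) (nat_lit 1) (.n (nat_lit 442) (nat_lit 3) (.n (nat_lit 443) (nat_lit 1) (.p (nat_lit 444) (nat_lit 2) (.n (nat_lit 445) (nat_lit 3) (.p (nat_lit 456) (nat_lit 2) (.n (nat_lit 459) (nat_lit 1) .z))))))))))))))))))) (.ct dC1b_c533 (nat_lit 1) (nat_lit 3) (.s false (nat_lit 1) (nat_lit 63) (nat_lit 2) (nat_lit 2) (nat_lit 2) true (nat_lit 9) true (nat_lit 13) false (nat_lit 3) true (nat_lit 13) true (nat_lit 13) (.e false (nat_lit 1) (nat_lit 140) (nat_lit 6) (nat_lit 9) (.e false (nat_lit 2) (nat_lit 268) (nat_lit 2) (nat_lit 13) (.e false (nat_lit 2) (nat_lit 260) (nat_lit 2) (nat_lit 13) (.e true (nat_lit 2) (nat_lit 261) (nat_lit 2) (nat_lit 13) (.e false (nat_lit 2) (nat_lit 262) (nat_lit 2) (nat_lit 13) (.e false (nat_lit 3) (nat_lit 263) (nat_lit 2) (nat_lit 13) (.e true (nat_lit 2) (nat_lit 265) (nat_lit 2) (nat_lit 13) (.e false (nat_lit 3) (nat_lit 271) (nat_lit 2) (nat_lit 13) (.e true (nat_lit 1) (nat_lit 272) (nat_lit 2) (nat_lit 13) (.e false (nat_lit 1) (nat_lit 273) (nat_lit 2) (nat_lit 13) (.e true (nat_lit 2) (nat_lit 274) (nat_lit 2) (nat_lit 13) (.e false (nat_lit 2) (nat_lit 277) (nat_lit 2) (nat_lit 13) (.e false (nat_lit 3) (nat_lit 278) (nat_lit 2) (nat_lit 13) (.e true (nat_lit 1) (nat_lit 279) (nat_lit 2) (nat_lit 13) (.e true (nat_lit 2) (nat_lit 280) (nat_lit 2) (nat_lit 13) (.e true (nat_lit 3) (nat_lit 286) (nat_lit 2) (nat_lit 13) (.e true (nat_lit 2) (nat_lit 287) (nat_lit 2) (nat_lit 13) (.e true (nat_lit 2) (nat_lit 288) (nat_lit 2) (nat_lit 13) (.u (nat_lit 2) (.n (nat_lit 0) (nat_lit 1) (.n (nat_lit 2) (nat_lit 1) (.n (nat_lit 3) (nat_lit 2) (.p (nat_lit 4) (nat_lit 4) (.n (nat_lit 5) (nat_lit 1) (.p (nat_lit 6) (nat_lit 2) (.p (nat_lit 7) (nat_lit 2) (.p (nat_lit 8) (nat_lit 2) (.n (nat_lit 9) (nat_lit 2) (.p (nat_lit 10) (nat_lit 1) (.n (nat_lit 12) (nat_lit 3) (.p (nat_lit 13) (nat_lit 1) (.n (nat_lit 15) (nat_lit 1) (.p (nat_lit 16) (nat_lit 5) (.p (nat_lit 17) (nat_lit 1) (.p (nat_lit 18) (nat_lit 2) (.p (nat_lit 21) (nat_lit 1) (.n (nat_lit 22) (nat_lit 2) (.p (nat_lit 23) (nat_lit 1) (.n (nat_lit 24) (nat_lit 1) (.p (nat_lit 26) (nat_lit 1) (.p (nat_lit 27) (nat_lit 1) (.p (nat_lit 33) (nat_lit 2) .z))))))))))))))))))))))) .nil))))))))))))))))))))) (.nd (.nd .leaf (nat_lit 65537) (nat_lit 180) (.p (nat_lit 123) (nat_lit 1) .z) .df .leaf) (nat_lit 65538) (nat_lit 228) (.p (nat_lit 141) (nat_lit 1) .z) .df .leaf)))) (nat_lit 65541) (nat_lit 535) (.n (nat_lit 212) (nat_lit 2) (.n (nat_lit 213) (nat_lit 1) (.p (nat_lit 214) (nat_lit 1) (.n (nat_lit 215) (nat_lit 1) (.p (nat_lit 217) (nat_lit 2) (.n (nat_lit 219) (nat_lit 2) (.p (nat_lit 220) (nat_lit 1) (.p (nat_lit 221) (nat_lit 3) (.p (nat_lit 222) (nat_lit 1) (.n (nat_lit 223) (nat_lit 3) (.n (nat_lit 224) (nat_lit 2) (.p (nat_lit 225) (nat_lit 2) (.p (nat_lit 227) (nat_lit 1) (.n (nat_lit 228) (nat_lit 1) (.n (nat_lit 229) (nat_lit 3) (.n (nat_lit 230) (nat_lit 1) (.n (nat_lit 231) (nat_lit 2) (.n (nat_lit 232) (nat_lit 2) (.p (nat_lit 233) (nat_lit 1) (.n (nat_lit 234) (nat_lit 1) (.n (nat_lit 235) (nat_lit 2) (.n (nat_lit 236) (nat_lit 3) (.n (nat_lit 238) (nat_lit 2) (.p (nat_lit 239) (nat_lit 2) (.n (nat_lit 240) (nat_lit 1) (.p (nat_lit 241) (nat_lit 1) (.n (nat_lit 242) (nat_lit 3) (.n (nat_lit 243) (nat_lit 1) (.p (nat_lit 244) (nat_lit 2) (.p (nat_lit 245) (nat_lit 2) (.n (nat_lit 246) (nat_lit 2) (.p (nat_lit 247) (nat_lit 2) (.p (nat_lit 248) (nat_lit 1) (.n (nat_lit 249) (nat_lit 1) (.p (nat_lit 250) (nat_lit 2) (.p (nat_lit 251) (nat_lit 1) (.n (nat_lit 252) (nat_lit 2) (.n (nat_lit 258) (nat_lit 1) (.p (nat_lit 259) (nat_lit 1) .z))))))))))))))))))))))))))))))))))))))) (.ct dC1b_c547 (nat_lit 1) (nat_lit 9) (.s true (nat_lit 1) (nat_lit 6) (nat_lit 3) (nat_lit 0) (nat_lit 5) false (nat_lit 2) true (nat_lit 9) true (nat_lit 8) true (nat_lit 11) true (nat_lit 14) (.e false (nat_lit 1) (nat_lit 24) (nat_lit 15) (nat_lit 2) (.e true (nat_lit 1) (nat_lit 26) (nat_lit 15) (nat_lit 2) (.e false (nat_lit 1) (nat_lit 27) (nat_lit 15) (nat_lit 2) (.e false (nat_lit 1) (nat_lit 61) (nat_lit 5) (nat_lit 9) (.e false (nat_lit 1) (nat_lit 65) (nat_lit 5) (nat_lit 9) (.e true (nat_lit 1) (nat_lit 48) (nat_lit 6) (nat_lit 8) (.e false (nat_lit 1) (nat_lit 52) (nat_lit 6) (nat_lit 8) (.e true (nat_lit 1) (nat_lit 54) (nat_lit 6) (nat_lit 8) (.e false (nat_lit 1) (nat_lit 92) (nat_lit 3) (nat_lit 11) (.e false (nat_lit 2) (nat_lit 154) (nat_lit 0) (nat_lit 14) (.e false (nat_lit 2) (nat_lit 157) (nat_lit 0) (nat_lit 14) (.e true (nat_lit 1) (nat_lit 161) (nat_lit 0) (nat_lit 14) (.e true (nat_lit 1) (nat_lit 167) (nat_lit 0) (nat_lit 14) (.u (nat_lit 2) (.p (nat_lit 0) (nat_lit 1) (.n (nat_lit 2) (nat_lit 1) (.p (nat_lit 3) (nat_lit 1) (.n (nat_lit 5) (nat_lit 1) (.p (nat_lit 8) (nat_lit 2) (.p (nat_lit 9) (nat_lit 1) (.n (nat_lit 10) (nat_lit 1) (.p (nat_lit 14) (nat_lit 1) (.n (nat_lit 15) (nat_lit 1) (.p (nat_lit 18) (nat_lit 1) (.p (nat_lit 21) (nat_lit 1) (.p (nat_lit 23) (nat_lit 2) (.p (nat_lit 24) (nat_lit 1) (.n (nat_lit 26) (nat_lit 1) (.n (nat_lit 27) (nat_lit 1) (.p (nat_lit 28) (nat_lit 1) (.n (nat_lit 29) (nat_lit 1) (.n (nat_lit 31) (nat_lit 1) (.n (nat_lit 33) (nat_lit 1) (.p (nat_lit 34) (nat_lit 1) (.n (nat_lit 35) (nat_lit 1) (.p (nat_lit 36) (nat_lit 1) (.n (nat_lit 38) (nat_lit 1) (.p (nat_lit 40) (nat_lit 1) (.p (nat_lit 113) (nat_lit 1) .z))))))))))))))))))))))))) .nil)))))))))))))))) (.nd (.nd (.nd (.nd (.nd .leaf (nat_lit 65542) (nat_lit 672) (.p (nat_lit 260) (nat_lit 2) (.n (nat_lit 261) (nat_lit 3) (.n (nat_lit 262) (nat_lit 3) (.p (nat_lit 263) (nat_lit 2) (.n (nat_lit 264) (nat_lit 2) (.p (nat_lit 265) (nat_lit 1) (.p (nat_lit 266) (nat_lit 1) (.n (nat_lit 267) (nat_lit 3) (.n (nat_lit 269) (nat_lit 3) (.p (nat_lit 271) (nat_lit 3) (.n (nat_lit 272) (nat_lit 1) (.p (nat_lit 273) (nat_lit 1) (.n (nat_lit 274) (nat_lit 2) (.n (nat_lit 277) (nat_lit 3) (.n (nat_lit 278) (nat_lit 3) (.p (nat_lit 279) (nat_lit 1) (.n (nat_lit 280) (nat_lit 2) (.n (nat_lit 286) (nat_lit 1) (.n (nat_lit 288) (nat_lit 1) .z))))))))))))))))))) (.ct dC1b_c532 (nat_lit 1) (nat_lit 6) (.s true (nat_lit 3) (nat_lit 6) (nat_lit 0) (nat_lit 6) (nat_lit 3) true (nat_lit 5) true (nat_lit 9) true (nat_lit 6) true (nat_lit 12) true (nat_lit 6) (.e false (nat_lit 1) (nat_lit 99) (nat_lit 3) (nat_lit 9) (.e false (nat_lit 1) (nat_lit 100) (nat_lit 3) (nat_lit 9) (.e true (nat_lit 1) (nat_lit 55) (nat_lit 6) (nat_lit 6) (.e false (nat_lit 1) (nat_lit 56) (nat_lit 6) (nat_lit 6) (.e true (nat_lit 2) (nat_lit 57) (nat_lit 6) (nat_lit 6) (.e true (nat_lit 1) (nat_lit 58) (nat_lit 6) (nat_lit 6) (.e false (nat_lit 1) (nat_lit 61) (nat_lit 6) (nat_lit 6) (.e true (nat_lit 2) (nat_lit 65) (nat_lit 6) (nat_lit 6) (.e true (nat_lit 1) (nat_lit 188) (nat_lit 0) (nat_lit 12) (.u (nat_lit 2) (.n (nat_lit 3) (nat_lit 1) (.p (nat_lit 4) (nat_lit 1) (.n (nat_lit 6) (nat_lit 1) (.n (nat_lit 12) (nat_lit 1) (.p (nat_lit 18) (nat_lit 1) (.p (nat_lit 20) (nat_lit 1) (.n (nat_lit 28) (nat_lit 1) (.p (nat_lit 65) (nat_lit 1) (.n (nat_lit 66) (nat_lit 1) (.n (nat_lit 67) (nat_lit 1) (.p (nat_lit 68) (nat_lit 1) (.n (nat_lit 71) (nat_lit 1) (.p (nat_lit 74) (nat_lit 1) (.n (nat_lit 75) (nat_lit 4) (.n (nat_lit 93) (nat_lit 1) (.n (nat_lit 94) (nat_lit 1) (.p (nat_lit 131) (nat_lit 1) .z))))))))))))))))) .nil)))))))))))) .leaf) (nat_lit 65552) (nat_lit 1077) (.p (nat_lit 355) (nat_lit 1) (.p (nat_lit 356) (nat_lit 1) (.n (nat_lit 357) (nat_lit 1) (.n (nat_lit 358) (nat_lit 3) (.p (nat_lit 360) (nat_lit 1) (.n (nat_lit 362) (nat_lit 3) (.p (nat_lit 363) (nat_lit 2) (.n (nat_lit 366) (nat_lit 3) (.p (nat_lit 367) (nat_lit 2) (.n (nat_lit 369) (nat_lit 1) (.n (nat_lit 370) (nat_lit 1) (.p (nat_lit 373) (nat_lit 1) (.n (nat_lit 374) (nat_lit 2) (.n (nat_lit 375) (nat_lit 1) (.p (nat_lit 378) (nat_lit 2) (.p (nat_lit 379) (nat_lit 3) (.p (nat_lit 380) (nat_lit 3) (.n (nat_lit 381) (nat_lit 2) (.p (nat_lit 382) (nat_lit 3) (.p (nat_lit 383) (nat_lit 3) (.n (nat_lit 384) (nat_lit 1) (.p (nat_lit 385) (nat_lit 2) (.p (nat_lit 386) (nat_lit 1) (.p (nat_lit 387) (nat_lit 2) (.p (nat_lit 388) (nat_lit 3) (.n (nat_lit 389) (nat_lit 2) (.p (nat_lit 390) (nat_lit 2) (.p (nat_lit 391) (nat_lit 2) (.n (nat_lit 392) (nat_lit 2) (.n (nat_lit 393) (nat_lit 2) (.n (nat_lit 394) (nat_lit 2) (.n (nat_lit 395) (nat_lit 3) (.p (nat_lit 396) (nat_lit 2) (.n (nat_lit 400) (nat_lit 3) (.n (nat_lit 401) (nat_lit 1) (.p (nat_lit 403) (nat_lit 1) (.p (nat_lit 404) (nat_lit 3) (.p (nat_lit 405) (nat_lit 3) (.n (nat_lit 406) (nat_lit 3) (.n (nat_lit 407) (nat_lit 2) (.n (nat_lit 408) (nat_lit 2) (.p (nat_lit 409) (nat_lit 1) (.n (nat_lit 410) (nat_lit 1) (.n (nat_lit 412) (nat_lit 2) (.p (nat_lit 413) (nat_lit 2) (.n (nat_lit 414) (nat_lit 1) (.p (nat_lit 416) (nat_lit 2) (.p (nat_lit 422) (nat_lit 3) (.n (nat_lit 423) (nat_lit 1) (.p (nat_lit 424) (nat_lit 1) .z)))))))))))))))))))))))))))))))))))))))))))))))))) (.ct dC1b_c548 (nat_lit 1) (nat_lit 6) (.s false (nat_lit 1) (nat_lit 64) (nat_lit 2) (nat_lit 1) (nat_lit 2) true (nat_lit 13) true (nat_lit 17) false (nat_lit 6) true (nat_lit 17) true (nat_lit 18) (.e true (nat_lit 1) (nat_lit 123) (nat_lit 6) (nat_lit 13) (.e false (nat_lit 2) (nat_lit 212) (nat_lit 2) (nat_lit 17) (.e false (nat_lit 1) (nat_lit 213) (nat_lit 2) (nat_lit 17) (.e true (nat_lit 1) (nat_lit 214) (nat_lit 2) (nat_lit 17) (.e false (nat_lit 1) (nat_lit 215) (nat_lit 2) (nat_lit 17) (.e true (nat_lit 2) (nat_lit 217) (nat_lit 2) (nat_lit 17) (.e false (nat_lit 2) (nat_lit 219) (nat_lit 2) (nat_lit 17) (.e true (nat_lit 1) (nat_lit 220) (nat_lit 2) (nat_lit 17) (.e true (nat_lit 3) (nat_lit 221) (nat_lit 2) (nat_lit 17) (.e true (nat_lit 1) (nat_lit 222) (nat_lit 2) (nat_lit 17) (.e false (nat_lit 3) (nat_lit 223) (nat_lit 2) (nat_lit 17) (.e false (nat_lit 2) (nat_lit 224) (nat_lit 2) (nat_lit 17) (.e true (nat_lit 2) (nat_lit 225) (nat_lit 2) (nat_lit 17) (.e true (nat_lit 1) (nat_lit 227) (nat_lit 2) (nat_lit 17) (.e false (nat_lit 1) (nat_lit 228) (nat_lit 2) (nat_lit 17) (.e false (nat_lit 3) (nat_lit 229) (nat_lit 2) (nat_lit 17) dC1b_i60)))))))))))))))))) .leaf) (nat_lit 65553) (nat_lit 1081) (.n (nat_lit 355) (nat_lit 2) (.n (nat_lit 356) (nat_lit 2) (.n (nat_lit 357) (nat_lit 2) (.n (nat_lit 358) (nat_lit 1) (.p (nat_lit 359) (nat_lit 3) (.p (nat_lit 360) (nat_lit 3) (.p (nat_lit 361) (nat_lit 3) (.n (nat_lit 362) (nat_lit 2) (.p (nat_lit 363) (nat_lit 2) (.n (nat_lit 364) (nat_lit 1) (.p (nat_lit 367) (nat_lit 3) (.p (nat_lit 369) (nat_lit 1) (.p (nat_lit 370) (nat_lit 2) (.n (nat_lit 372) (nat_lit 3) (.n (nat_lit 373) (nat_lit 3) (.n (nat_lit 375) (nat_lit 1) (.n (nat_lit 378) (nat_lit 3) (.n (nat_lit 379) (nat_lit 1) (.n (nat_lit 380) (nat_lit 1) (.n (nat_lit 382) (nat_lit 1) (.n (nat_lit 383) (nat_lit 1) (.p (nat_lit 384) (nat_lit 2) (.p (nat_lit 385) (nat_lit 1) (.n (nat_lit 391) (nat_lit 1) (.p (nat_lit 392) (nat_lit 1) (.n (nat_lit 393) (nat_lit 1) (.n (nat_lit 394) (nat_lit 1) (.p (nat_lit 395) (nat_lit 1) (.n (nat_lit 396) (nat_lit 2) (.p (nat_lit 400) (nat_lit 1) (.n (nat_lit 401) (nat_lit 2) (.p (nat_lit 403) (nat_lit 2) (.n (nat_lit 404) (nat_lit 2) (.p (nat_lit 405) (nat_lit 1) (.n (nat_lit 406) (nat_lit 1) (.p (nat_lit 407) (nat_lit 3) (.n (nat_lit 408) (nat_lit 2) (.p (nat_lit 409) (nat_lit 1) (.n (nat_lit 410) (nat_lit 1) (.p (nat_lit 412) (nat_lit 3) (.n (nat_lit 413) (nat_lit 3) (.n (nat_lit 414) (nat_lit 2) (.n (nat_lit 416) (nat_lit 3) (.n (nat_lit 422) (nat_lit 1) (.n (nat_lit 423) (nat_lit 2) (.p (nat_lit 424) (nat_lit 2) .z)))))))))))))))))))))))))))))))))))))))))))))) (.ct dC1b_c548 (nat_lit 1) (nat_lit 6) (.s false (nat_lit 1) (nat_lit 64) (nat_lit 2) (nat_lit 2) (nat_lit 1) true (nat_lit 14) true (nat_lit 18) false (nat_lit 6) true (nat_lit 17) true (nat_lit 17) (.e false (nat_lit 1) (nat_lit 141) (nat_lit 5) (nat_lit 14) (.e false (nat_lit 1) (nat_lit 269) (nat_lit 1) (nat_lit 18) (.e true (nat_lit 2) (nat_lit 212) (nat_lit 2) (nat_lit 17) (.e true (nat_lit 2) (nat_lit 213) (nat_lit 2) (nat_lit 17) (.e false (nat_lit 3) (nat_lit 214) (nat_lit 2) (nat_lit 17) (.e false (nat_lit 2) (nat_lit 215) (nat_lit 2) (nat_lit 17) (.e true (nat_lit 1) (nat_lit 217) (nat_lit 2) (nat_lit 17) (.e false (nat_lit 3) (nat_lit 219) (nat_lit 2) (nat_lit 17) (.e true (nat_lit 1) (nat_lit 220) (nat_lit 2) (nat_lit 17) (.e false (nat_lit 2) (nat_lit 221) (nat_lit 2) (nat_lit 17) (.e false (nat_lit 1) (nat_lit 223) (nat_lit 2) (nat_lit 17) (.e false (nat_lit 1) (nat_lit 224) (nat_lit 2) (nat_lit 17) (.e true (nat_lit 3) (nat_lit 225) (nat_lit 2) (nat_lit 17) (.e false (nat_lit 3) (nat_lit 227) (nat_lit 2) (nat_lit 17) (.e true (nat_lit 2) (nat_lit 228) (nat_lit 2) (nat_lit 17) (.e false (nat_lit 3) (nat_lit 229) (nat_lit 2) (nat_lit 17) (.e true (nat_lit 2) (nat_lit 230) (nat_lit 2) (nat_lit 17) dC1b_i61))))))))))))))))))) (.nd (.nd .leaf (nat_lit 65554) (nat_lit 1323) (.n (nat_lit 426) (nat_lit 3) (.n (nat_lit 427) (nat_lit 2) (.p (nat_lit 428) (nat_lit 3) (.p (nat_lit 429) (nat_lit 1) (.p (nat_lit 430) (nat_lit 3) (.n (nat_lit 434) (nat_lit 1) (.n (nat_lit 436) (nat_lit 2) (.n (nat_lit 439) (nat_lit 2) (.p (nat_lit 441) (nat_lit 3) (.p (nat_lit 442) (nat_lit 2) (.p (nat_lit 443) (nat_lit 3) (.p (nat_lit 444) (nat_lit 1) (.p (nat_lit 445) (nat_lit 2) (.n (nat_lit 456) (nat_lit 2) (.p (nat_lit 459) (nat_lit 1) .z))))))))))))))) (.ct dC1b_c533 (nat_lit 1) (nat_lit 3) dC1b_i63) .leaf) (nat_lit 66561) (nat_lit 181) (.p (nat_lit 124) (nat_lit 1) .z) .df .leaf)) (nat_lit 66562) (nat_lit 229) (.p (nat_lit 142) (nat_lit 1) .z) .df (.nd (.nd (.nd .leaf (nat_lit 66565) (nat_lit 488) (.p (nat_lit 212) (nat_lit 1) (.n (nat_lit 214) (nat_lit 3) (.n (nat_lit 216) (nat_lit 3) (.p (nat_lit 217) (nat_lit 1) (.p (nat_lit 218) (nat_lit 1) (.n (nat_lit 219) (nat_lit 3) (.p (nat_lit 220) (nat_lit 3) (.p (nat_lit 221) (nat_lit 3) (.p (nat_lit 223) (nat_lit 3) (.p (nat_lit 224) (nat_lit 2) (.p (nat_lit 225) (nat_lit 2) (.p (nat_lit 226) (nat_lit 3) (.n (nat_lit 227) (nat_lit 2) (.n (nat_lit 228) (nat_lit 2) (.n (nat_lit 229) (nat_lit 1) (.p (nat_lit 230) (nat_lit 2) (.p (nat_lit 231) (nat_lit 1) (.p (nat_lit 232) (nat_lit 2) (.p (nat_lit 233) (nat_lit 2) (.p (nat_lit 234) (nat_lit 2) (.p (nat_lit 235) (nat_lit 2) (.p (nat_lit 236) (nat_lit 2) (.p (nat_lit 237) (nat_lit 1) (.n (nat_lit 238) (nat_lit 2) (.p (nat_lit 239) (nat_lit 1) (.p (nat_lit 240) (nat_lit 1) (.n (nat_lit 241) (nat_lit 3) (.p (nat_lit 242) (nat_lit 3) (.p (nat_lit 243) (nat_lit 2) (.n (nat_lit 244) (nat_lit 2) (.p (nat_lit 246) (nat_lit 3) (.n (nat_lit 247) (nat_lit 3) (.n (nat_lit 248) (nat_lit 2) (.n (nat_lit 249) (nat_lit 2) (.p (nat_lit 250) (nat_lit 2) .z))))))))))))))))))))))))))))))))))) (.ct dC1b_c547 (nat_lit 1) (nat_lit 9) (.s false (nat_lit 3) (nat_lit 7) (nat_lit 1) (nat_lit 6) (nat_lit 2) true (nat_lit 9) true (nat_lit 12) true (nat_lit 7) true (nat_lit 13) true (nat_lit 8) (.s true (nat_lit 1) (nat_lit 7) (nat_lit 2) (nat_lit 2) (nat_lit 5) true (nat_lit 1) true (nat_lit 9) true (nat_lit 7) true (nat_lit 12) true (nat_lit 12) (.s true (nat_lit 3) (nat_lit 7) (nat_lit 5) (nat_lit 2) (nat_lit 2) true (nat_lit 1) true (nat_lit 12) true (nat_lit 7) true (nat_lit 9) true (nat_lit 12) (.s false (nat_lit 3) (nat_lit 8) (nat_lit 2) (nat_lit 2) (nat_lit 4) true (nat_lit 2) true (nat_lit 10) true (nat_lit 6) true (nat_lit 12) true (nat_lit 12) (.s false (nat_lit 1) (nat_lit 20) (nat_lit 1) (nat_lit 2) (nat_lit 2) true (nat_lit 9) true (nat_lit 12) false (nat_lit 1) true (nat_lit 13) true (nat_lit 12) (.s true (nat_lit 3) (nat_lit 20) (nat_lit 2) (nat_lit 1) (nat_lit 2) true (nat_lit 8) true (nat_lit 12) false (nat_lit 1) true (nat_lit 12) true (nat_lit 13) dC1b_i65))))))) .leaf) (nat_lit 66566) (nat_lit 607) (.p (nat_lit 277) (nat_lit 2) .z) (.ct dC1b_c532 (nat_lit 1) (nat_lit 6) (.s true (nat_lit 3) (nat_lit 7) (nat_lit 2) (nat_lit 6) (nat_lit 2) true (nat_lit 6) true (nat_lit 10) true (nat_lit 5) true (nat_lit 10) true (nat_lit 6) (.s true (nat_lit 3) (nat_lit 7) (nat_lit 6) (nat_lit 2) (nat_lit 2) true (nat_lit 0) true (nat_lit 10) true (nat_lit 5) true (nat_lit 6) true (nat_lit 10) (.e true (nat_lit 2) (nat_lit 149) (nat_lit 2) (nat_lit 10) (.e true (nat_lit 3) (nat_lit 55) (nat_lit 6) (nat_lit 6) (.e false (nat_lit 3) (nat_lit 20) (nat_lit 18) (nat_lit 0) (.u (nat_lit 2) (.n (nat_lit 17) (nat_lit 1) (.p (nat_lit 75) (nat_lit 1) (.n (nat_lit 113) (nat_lit 1) .z))) .nil))))))) .leaf) (nat_lit 66576) (nat_lit 1137) (.n (nat_lit 355) (nat_lit 2) (.p (nat_lit 356) (nat_lit 2) (.n (nat_lit 357) (nat_lit 1) (.p (nat_lit 358) (nat_lit 3) (.n (nat_lit 359) (nat_lit 1) (.p (nat_lit 361) (nat_lit 2) (.n (nat_lit 362) (nat_lit 2) (.p (nat_lit 363) (nat_lit 1) (.n (nat_lit 364) (nat_lit 1) (.p (nat_lit 365) (nat_lit 3) (.p (nat_lit 367) (nat_lit 1) (.p (nat_lit 370) (nat_lit 3) (.n (nat_lit 372) (nat_lit 1) (.n (nat_lit 373) (nat_lit 2) (.n (nat_lit 374) (nat_lit 1) (.p (nat_lit 376) (nat_lit 2) (.n (nat_lit 378) (nat_lit 2) (.p (nat_lit 379) (nat_lit 1) (.p (nat_lit 380) (nat_lit 1) (.n (nat_lit 381) (nat_lit 1) (.p (nat_lit 382) (nat_lit 3) (.n (nat_lit 383) (nat_lit 3) (.p (nat_lit 384) (nat_lit 2) (.n (nat_lit 385) (nat_lit 1) (.p (nat_lit 386) (nat_lit 2) (.n (nat_lit 387) (nat_lit 2) (.p (nat_lit 388) (nat_lit 3) (.p (nat_lit 389) (nat_lit 3) (.n (nat_lit 390) (nat_lit 3) (.n (nat_lit 391) (nat_lit 3) (.p (nat_lit 393) (nat_lit 1) (.p (nat_lit 394) (nat_lit 2) (.p (nat_lit 395) (nat_lit 3) (.n (nat_lit 396) (nat_lit 2) (.n (nat_lit 400) (nat_lit 1) (.n (nat_lit 401) (nat_lit 2) (.p (nat_lit 403) (nat_lit 2) (.n (nat_lit 422) (nat_lit 1) .z)))))))))))))))))))))))))))))))))))))) (.ct dC1b_c548 (nat_lit 1) (nat_lit 6) (.s false (nat_lit 1) (nat_lit 65) (nat_lit 2) (nat_lit 1) (nat_lit 2) true (nat_lit 13) true (nat_lit 17) false (nat_lit 6) true (nat_lit 17) true (nat_lit 18) (.e true (nat_lit 1) (nat_lit 124) (nat_lit 6) (nat_lit 13) (.e true (nat_lit 2) (nat_lit 242) (nat_lit 2) (nat_lit 17) (.e true (nat_lit 1) (nat_lit 212) (nat_lit 2) (nat_lit 17) (.e false (nat_lit 3) (nat_lit 214) (nat_lit 2) (nat_lit 17) (.e false (nat_lit 3) (nat_lit 216) (nat_lit 2) (nat_lit 17) (.e true (nat_lit 1) (nat_lit 217) (nat_lit 2) (nat_lit 17) (.e true (nat_lit 1) (nat_lit 218) (nat_lit 2) (nat_lit 17) (.e false (nat_lit 3) (nat_lit 219) (nat_lit 2) (nat_lit 17) (.e true (nat_lit 3) (nat_lit 220) (nat_lit 2) (nat_lit 17) (.e true (nat_lit 3) (nat_lit 221) (nat_lit 2) (nat_lit 17) (.e true (nat_lit 3) (nat_lit 223) (nat_lit 2) (nat_lit 17) (.e true (nat_lit 2) (nat_lit 224) (nat_lit 2) (nat_lit 17) (.e true (nat_lit 2) (nat_lit 225) (nat_lit 2) (nat_lit 17) dC1b_i66))))))))))))))) (.nd (.nd .leaf (nat_lit 66577) (nat_lit 1132) (.p (nat_lit 355) (nat_lit 1) (.n (nat_lit 356) (nat_lit 1) (.p (nat_lit 357) (nat_lit 1) (.n (nat_lit 358) (nat_lit 1) (.n (nat_lit 359) (nat_lit 1) (.p (nat_lit 360) (nat_lit 3) (.n (nat_lit 361) (nat_lit 1) (.p (nat_lit 362) (nat_lit 1) (.p (nat_lit 363) (nat_lit 3) (.p (nat_lit 364) (nat_lit 3) (.n (nat_lit 365) (nat_lit 1) (.n (nat_lit 369) (nat_lit 3) (.p (nat_lit 373) (nat_lit 2) (.p (nat_lit 374) (nat_lit 2) (.p (nat_lit 375) (nat_lit 3) (.n (nat_lit 376) (nat_lit 3) (.p (nat_lit 378) (nat_lit 3) (.p (nat_lit 379) (nat_lit 2) (.p (nat_lit 380) (nat_lit 2) (.p (nat_lit 381) (nat_lit 1) (.p (nat_lit 382) (nat_lit 2) (.p (nat_lit 384) (nat_lit 2) (.p (nat_lit 385) (nat_lit 2) (.n (nat_lit 386) (nat_lit 1) (.n (nat_lit 387) (nat_lit 3) (.n (nat_lit 388) (nat_lit 3) (.n (nat_lit 390) (nat_lit 2) (.n (nat_lit 391) (nat_lit 2) (.p (nat_lit 392) (nat_lit 1) (.n (nat_lit 393) (nat_lit 2) (.n (nat_lit 394) (nat_lit 2) (.n (nat_lit 396) (nat_lit 3) (.n (nat_lit 400) (nat_lit 2) (.p (nat_lit 401) (nat_lit 3) (.n (nat_lit 403) (nat_lit 3) (.n (nat_lit 422) (nat_lit 2) .z)))))))))))))))))))))))))))))))))))) (.ct dC1b_c548 (nat_lit 1) (nat_lit 6) (.s true (nat_lit 1) (nat_lit 7) (nat_lit 1) (nat_lit 6) (nat_lit 6) true (nat_lit 6) true (nat_lit 13) true (nat_lit 12) true (nat_lit 18) true (nat_lit 13) (.e true (nat_lit 1) (nat_lit 129) (nat_lit 6) (nat_lit 13) (.e false (nat_lit 2) (nat_lit 103) (nat_lit 7) (nat_lit 12) (.e false (nat_lit 2) (nat_lit 104) (nat_lit 7) (nat_lit 12) (.e false (nat_lit 1) (nat_lit 124) (nat_lit 6) (nat_lit 13) (.u (nat_lit 2) (.n (nat_lit 0) (nat_lit 2) (.p (nat_lit 1) (nat_lit 1) (.p (nat_lit 2) (nat_lit 1) (.p (nat_lit 3) (nat_lit 1) (.n (nat_lit 8) (nat_lit 2) (.p (nat_lit 10) (nat_lit 1) (.p (nat_lit 14) (nat_lit 1) (.p (nat_lit 15) (nat_lit 1) (.p (nat_lit 17) (nat_lit 1) (.n (nat_lit 18) (nat_lit 1) (.n (nat_lit 19) (nat_lit 1) (.n (nat_lit 26) (nat_lit 2) (.n (nat_lit 28) (nat_lit 1) (.p (nat_lit 29) (nat_lit 1) (.p (nat_lit 32) (nat_lit 1) (.n (nat_lit 36) (nat_lit 2) (.n (nat_lit 41) (nat_lit 1) (.p (nat_lit 67) (nat_lit 1) .z)))))))))))))))))) .nil))))))) .leaf) (nat_lit 66578) (nat_lit 1250) (.n (nat_lit 456) (nat_lit 2) (.p (nat_lit 459) (nat_lit 1) .z)) (.ct dC1b_c533 (nat_lit 1) (nat_lit 3) (.s true (nat_lit 1) (nat_lit 7) (nat_lit 2) (nat_lit 6) (nat_lit 6) true (nat_lit 3) true (nat_lit 9) true (nat_lit 8) true (nat_lit 13) true (nat_lit 9) (.e true (nat_lit 1) (nat_lit 149) (nat_lit 6) (nat_lit 9) (.e false (nat_lit 1) (nat_lit 142) (nat_lit 6) (nat_lit 9) .nil)))) .leaf))) (nat_lit 67584) (nat_lit 182) (.p (nat_lit 125) (nat_lit 1) .z) .df (.nd (.nd (.nd (.nd .leaf (nat_lit 67586) (nat_lit 271) (.p (nat_lit 153) (nat_lit 1) .z) .df .leaf) (nat_lit 67588) (nat_lit 498) (.p (nat_lit 212) (nat_lit 3) (.n (nat_lit 213) (nat_lit 3) (.n (nat_lit 214) (nat_lit 3) (.p (nat_lit 216) (nat_lit 2) (.n (nat_lit 217) (nat_lit 1) (.p (nat_lit 219) (nat_lit 1) (.p (nat_lit 220) (nat_lit 3) (.n (nat_lit 221) (nat_lit 1) (.p (nat_lit 222) (nat_lit 3) (.n (nat_lit 223) (nat_lit 2) (.p (nat_lit 224) (nat_lit 3) (.n (nat_lit 225) (nat_lit 2) (.n (nat_lit 226) (nat_lit 3) (.p (nat_lit 227) (nat_lit 2) (.p (nat_lit 228) (nat_lit 1) (.p (nat_lit 229) (nat_lit 1) (.n (nat_lit 230) (nat_lit 2) (.n (nat_lit 231) (nat_lit 3) (.n (nat_lit 232) (nat_lit 3) (.n (nat_lit 233) (nat_lit 2) (.p (nat_lit 234) (nat_lit 1) (.p (nat_lit 235) (nat_lit 1) (.n (nat_lit 236) (nat_lit 1) (.p (nat_lit 237) (nat_lit 2) (.n (nat_lit 239) (nat_lit 1) (.p (nat_lit 240) (nat_lit 1) (.n (nat_lit 241) (nat_lit 3) (.p (nat_lit 242) (nat_lit 1) (.p (nat_lit 243) (nat_lit 2) (.p (nat_lit 244) (nat_lit 1) (.n (nat_lit 245) (nat_lit 2) (.p (nat_lit 246) (nat_lit 2) (.p (nat_lit 248) (nat_lit 2) (.n (nat_lit 249) (nat_lit 1) (.p (nat_lit 253) (nat_lit 1) .z))))))))))))))))))))))))))))))))))) (.ct dC1b_c547 (nat_lit 1) (nat_lit 10) (.s true (nat_lit 1) (nat_lit 24) (nat_lit 0) (nat_lit 2) (nat_lit 2) true (nat_lit 10) true (nat_lit 12) false (nat_lit 2) true (nat_lit 14) true (nat_lit 12) (.e true (nat_lit 1) (nat_lit 112) (nat_lit 2) (nat_lit 12) (.e true (nat_lit 1) (nat_lit 24) (nat_lit 14) (nat_lit 2) (.e false (nat_lit 1) (nat_lit 170) (nat_lit 0) (nat_lit 14) (.e true (nat_lit 1) (nat_lit 125) (nat_lit 2) (nat_lit 12) (.u (nat_lit 2) (.n (nat_lit 7) (nat_lit 1) (.p (nat_lit 19) (nat_lit 1) (.n (nat_lit 28) (nat_lit 1) (.n (nat_lit 30) (nat_lit 1) .z)))) .nil))))))) .leaf) (nat_lit 67590) (nat_lit 708) (.p (nat_lit 316) (nat_lit 1) .z) .df (.nd (.nd .leaf (nat_lit 67598) (nat_lit 1122) (.n (nat_lit 356) (nat_lit 3) (.n (nat_lit 357) (nat_lit 2) (.n (nat_lit 358) (nat_lit 1) (.p (nat_lit 359) (nat_lit 2) (.p (nat_lit 360) (nat_lit 1) (.n (nat_lit 361) (nat_lit 1) (.p (nat_lit 362) (nat_lit 1) (.p (nat_lit 363) (nat_lit 3) (.n (nat_lit 364) (nat_lit 3) (.p (nat_lit 365) (nat_lit 1) (.p (nat_lit 366) (nat_lit 1) (.p (nat_lit 367) (nat_lit 1) (.p (nat_lit 370) (nat_lit 3) (.p (nat_lit 374) (nat_lit 1) (.p (nat_lit 375) (nat_lit 3) (.p (nat_lit 379) (nat_lit 3) (.p (nat_lit 380) (nat_lit 3) (.n (nat_lit 381) (nat_lit 1) (.p (nat_lit 382) (nat_lit 3) (.n (nat_lit 383) (nat_lit 3) (.n (nat_lit 384) (nat_lit 1) (.p (nat_lit 385) (nat_lit 3) (.p (nat_lit 387) (nat_lit 1) (.n (nat_lit 388) (nat_lit 2) (.p (nat_lit 389) (nat_lit 1) (.n (nat_lit 391) (nat_lit 2) (.p (nat_lit 392) (nat_lit 3) (.n (nat_lit 400) (nat_lit 3) (.p (nat_lit 401) (nat_lit 1) (.p (nat_lit 422) (nat_lit 3) .z)))))))))))))))))))))))))))))) (.ct dC1b_c548 (nat_lit 1) (nat_lit 7) (.s false (nat_lit 1) (nat_lit 66) (nat_lit 2) (nat_lit 0) (nat_lit 2) true (nat_lit 13) true (nat_lit 17) false (nat_lit 7) true (nat_lit 17) true (nat_lit 19) (.e true (nat_lit 1) (nat_lit 125) (nat_lit 6) (nat_lit 13) (.e true (nat_lit 2) (nat_lit 212) (nat_lit 2) (nat_lit 17) (.e false (nat_lit 3) (nat_lit 213) (nat_lit 2) (nat_lit 17) (.e false (nat_lit 3) (nat_lit 214) (nat_lit 2) (nat_lit 17) (.e true (nat_lit 2) (nat_lit 216) (nat_lit 2) (nat_lit 17) (.e false (nat_lit 1) (nat_lit 217) (nat_lit 2) (nat_lit 17) (.e true (nat_lit 1) (nat_lit 219) (nat_lit 2) (nat_lit 17) (.e true (nat_lit 3) (nat_lit 220) (nat_lit 2) (nat_lit 17) (.e false (nat_lit 1) (nat_lit 221) (nat_lit 2) (nat_lit 17) (.e true (nat_lit 3) (nat_lit 222) (nat_lit 2) (nat_lit 17) (.e false (nat_lit 2) (nat_lit 223) (nat_lit 2) (nat_lit 17) (.e true (nat_lit 3) (nat_lit 224) (nat_lit 2) (nat_lit 17) (.e false (nat_lit 2) (nat_lit 225) (nat_lit 2) (nat_lit 17) dC1b_i67))))))))))))))) .leaf) (nat_lit 67599) (nat_lit 1120) (.p (nat_lit 355) (nat_lit 2) (.n (nat_lit 356) (nat_lit 3) (.p (nat_lit 357) (nat_lit 1) (.p (nat_lit 358) (nat_lit 2) (.n (nat_lit 359) (nat_lit 3) (.p (nat_lit 360) (nat_lit 3) (.n (nat_lit 361) (nat_lit 3) (.p (nat_lit 362) (nat_lit 3) (.p (nat_lit 363) (nat_lit 1) (.n (nat_lit 364) (nat_lit 3) (.p (nat_lit 365) (nat_lit 3) (.n (nat_lit 366) (nat_lit 2) (.p (nat_lit 367) (nat_lit 3) (.n (nat_lit 369) (nat_lit 3) (.p (nat_lit 370) (nat_lit 2) (.p (nat_lit 372) (nat_lit 3) (.p (nat_lit 373) (nat_lit 1) (.n (nat_lit 374) (nat_lit 3) (.n (nat_lit 375) (nat_lit 3) (.n (nat_lit 379) (nat_lit 1) (.n (nat_lit 380) (nat_lit 1) (.n (nat_lit 381) (nat_lit 3) (.p (nat_lit 382) (nat_lit 2) (.p (nat_lit 383) (nat_lit 3) (.n (nat_lit 384) (nat_lit 1) (.p (nat_lit 385) (nat_lit 2) (.p (nat_lit 386) (nat_lit 1) (.p (nat_lit 387) (nat_lit 2) (.p (nat_lit 388) (nat_lit 1) (.n (nat_lit 389) (nat_lit 2) (.p (nat_lit 390) (nat_lit 2) (.p (nat_lit 391) (nat_lit 1) (.n (nat_lit 392) (nat_lit 3) (.n (nat_lit 393) (nat_lit 2) (.n (nat_lit 395) (nat_lit 1) (.n (nat_lit 396) (nat_lit 3) (.p (nat_lit 400) (nat_lit 1) (.p (nat_lit 401) (nat_lit 2) (.n (nat_lit 422) (nat_lit 1) .z))))))))))))))))))))))))))))))))))))))) (.ct dC1b_c548 (nat_lit 1) (nat_lit 7) (.s true (nat_lit 1) (nat_lit 15) (nat_lit 8) (nat_lit 2) (nat_lit 2) true (nat_lit 2) true (nat_lit 17) true (nat_lit 7) true (nat_lit 11) true (nat_lit 17) (.e false (nat_lit 1) (nat_lit 41) (nat_lit 24) (nat_lit 2) (.e false (nat_lit 1) (nat_lit 212) (nat_lit 2) (nat_lit 17) (.e false (nat_lit 2) (nat_lit 213) (nat_lit 2) (nat_lit 17) (.e true (nat_lit 2) (nat_lit 215) (nat_lit 2) (nat_lit 17) (.e false (nat_lit 1) (nat_lit 218) (nat_lit 2) (nat_lit 17) (.e false (nat_lit 2) (nat_lit 219) (nat_lit 2) (nat_lit 17) (.e true (nat_lit 1) (nat_lit 220) (nat_lit 2) (nat_lit 17) (.e false (nat_lit 1) (nat_lit 221) (nat_lit 2) (nat_lit 17) (.e true (nat_lit 2) (nat_lit 222) (nat_lit 2) (nat_lit 17) (.e true (nat_lit 1) (nat_lit 223) (nat_lit 2) (nat_lit 17) dC1b_i68)))))))))))) .leaf)) (nat_lit 67602) (nat_lit 1488) (.p (nat_lit 460) (nat_lit 2) (.p (nat_lit 461) (nat_lit 2) (.n (nat_lit 462) (nat_lit 3) (.p (nat_lit 463) (nat_lit 3) (.p (nat_lit 464) (nat_lit 3) (.n (nat_lit 465) (nat_lit 2) (.n (nat_lit 468) (nat_lit 3) (.n (nat_lit 469) (nat_lit 1) (.n (nat_lit 470) (nat_lit 1) (.n (nat_lit 471) (nat_lit 1) (.p (nat_lit 472) (nat_lit 1) (.p (nat_lit 473) (nat_lit 2) (.p (nat_lit 474) (nat_lit 2) (.p (nat_lit 476) (nat_lit 1) (.n (nat_lit 477) (nat_lit 1) (.p (nat_lit 479) (nat_lit 1) (.p (nat_lit 489) (nat_lit 1) (.p (nat_lit 493) (nat_lit 3) .z)))))))))))))))))) (.ct dC1b_c293 (nat_lit 1) (nat_lit 3) (.s true (nat_lit 1) (nat_lit 18) (nat_lit 8) (nat_lit 2) (nat_lit 2) true (nat_lit 2) true (nat_lit 13) true (nat_lit 3) true (nat_lit 8) true (nat_lit 13) (.e false (nat_lit 1) (nat_lit 46) (nat_lit 24) (nat_lit 2) (.e false (nat_lit 1) (nat_lit 307) (nat_lit 2) (nat_lit 13) (.e true (nat_lit 1) (nat_lit 316) (nat_lit 2) (nat_lit 13) .nil))))) (.nd (.nd (.nd .leaf (nat_lit 68608) (nat_lit 209) (.n (nat_lit 107) (nat_lit 2) (.n (nat_lit 108) (nat_lit 3) (.n (nat_lit 109) (nat_lit 3) (.n (nat_lit 111) (nat_lit 3) (.n (nat_lit 112) (nat_lit 1) (.p (nat_lit 113) (nat_lit 1) (.p (nat_lit 114) (nat_lit 1) (.p (nat_lit 115) (nat_lit 3) (.p (nat_lit 116) (nat_lit 2) (.p (nat_lit 117) (nat_lit 1) (.n (nat_lit 118) (nat_lit 3) (.n (nat_lit 119) (nat_lit 3) (.n (nat_lit 120) (nat_lit 2) (.n (nat_lit 121) (nat_lit 1) (.p (nat_lit 122) (nat_lit 1) (.p (nat_lit 124) (nat_lit 3) (.n (nat_lit 125) (nat_lit 1) (.n (nat_lit 126) (nat_lit 3) (.p (nat_lit 128) (nat_lit 1) (.n (nat_lit 129) (nat_lit 2) (.p (nat_lit 131) (nat_lit 1) .z))))))))))))))))))))) (.ct dC1b_c546 (nat_lit 1) (nat_lit 10) (.s true (nat_lit 3) (nat_lit 4) (nat_lit 1) (nat_lit 3) (nat_lit 2) true (nat_lit 5) true (nat_lit 8) true (nat_lit 6) true (nat_lit 9) true (nat_lit 7) (.s true (nat_lit 3) (nat_lit 5) (nat_lit 1) (nat_lit 4) (nat_lit 0) true (nat_lit 7) true (nat_lit 10) true (nat_lit 5) true (nat_lit 9) true (nat_lit 6) (.s false (nat_lit 3) (nat_lit 12) (nat_lit 1) (nat_lit 0) (nat_lit 2) true (nat_lit 5) true (nat_lit 8) true (nat_lit 0) true (nat_lit 9) true (nat_lit 10) (.s false (nat_lit 3) (nat_lit 10) (nat_lit 1) (nat_lit 2) (nat_lit 0) true (nat_lit 7) true (nat_lit 10) true (nat_lit 0) true (nat_lit 9) true (nat_lit 8) (.a true (nat_lit 3) (nat_lit 10) (nat_lit 12) (nat_lit 0) (nat_lit 0) (.e false (nat_lit 3) (nat_lit 48) (nat_lit 2) (nat_lit 8) (.e false (nat_lit 1) (nat_lit 50) (nat_lit 2) (nat_lit 8) (.e true (nat_lit 1) (nat_lit 54) (nat_lit 2) (nat_lit 8) (.e true (nat_lit 3) (nat_lit 24) (nat_lit 4) (nat_lit 6) (.e true (nat_lit 3) (nat_lit 55) (nat_lit 1) (nat_lit 9) dC1b_i69))))))))))) .leaf) (nat_lit 68610) (nat_lit 272) (.p (nat_lit 154) (nat_lit 1) .z) .df .leaf) (nat_lit 68612) (nat_lit 563) (.n (nat_lit 212) (nat_lit 2) (.n (nat_lit 213) (nat_lit 1) (.n (nat_lit 214) (nat_lit 1) (.n (nat_lit 215) (nat_lit 3) (.p (nat_lit 216) (nat_lit 1) (.p (nat_lit 217) (nat_lit 2) (.n (nat_lit 218) (nat_lit 1) (.p (nat_lit 219) (nat_lit 1) (.p (nat_lit 220) (nat_lit 3) (.p (nat_lit 221) (nat_lit 2) (.p (nat_lit 223) (nat_lit 2) (.p (nat_lit 224) (nat_lit 1) (.n (nat_lit 226) (nat_lit 3) (.n (nat_lit 227) (nat_lit 1) (.n (nat_lit 229) (nat_lit 1) (.p (nat_lit 230) (nat_lit 1) (.p (nat_lit 231) (nat_lit 2) (.p (nat_lit 233) (nat_lit 3) (.p (nat_lit 234) (nat_lit 3) (.n (nat_lit 235) (nat_lit 1) (.n (nat_lit 236) (nat_lit 3) (.n (nat_lit 237) (nat_lit 3) (.p (nat_lit 239) (nat_lit 3) (.n (nat_lit 240) (nat_lit 2) (.p (nat_lit 241) (nat_lit 2) (.p (nat_lit 242) (nat_lit 3) (.p (nat_lit 243) (nat_lit 2) (.p (nat_lit 244) (nat_lit 2) (.n (nat_lit 245) (nat_lit 1) (.p (nat_lit 246) (nat_lit 1) (.p (nat_lit 247) (nat_lit 1) (.n (nat_lit 248) (nat_lit 2) (.n (nat_lit 249) (nat_lit 1) (.p (nat_lit 250) (nat_lit 1) (.n (nat_lit 252) (nat_lit 1) (.p (nat_lit 253) (nat_lit 1) (.p (nat_lit 255) (nat_lit 1) .z))))))))))))))))))))))))))))))))))))) (.ct dC1b_c547 (nat_lit 1) (nat_lit 10) dC1b_i70) (.nd (.nd .leaf (nat_lit 68614) (nat_lit 709) (.p (nat_lit 317) (nat_lit 1) .z) .df .leaf) (nat_lit 68626) (nat_lit 1463) (.n (nat_lit 460) (nat_lit 1) (.n (nat_lit 461) (nat_lit 1) (.n (nat_lit 462) (nat_lit 2) (.p (nat_lit 463) (nat_lit 2) (.p (nat_lit 464) (nat_lit 2) (.p (nat_lit 465) (nat_lit 1) (.p (nat_lit 467) (nat_lit 1) (.n (nat_lit 468) (nat_lit 3) (.n (nat_lit 470) (nat_lit 3) (.p (nat_lit 472) (nat_lit 2) (.p (nat_lit 473) (nat_lit 1) (.p (nat_lit 474) (nat_lit 1) (.n (nat_lit 475) (nat_lit 2) (.n (nat_lit 476) (nat_lit 1) (.n (nat_lit 477) (nat_lit 3) (.n (nat_lit 479) (nat_lit 2) (.n (nat_lit 489) (nat_lit 2) (.p (nat_lit 493) (nat_lit 1) .z)))))))))))))))))) (.ct dC1b_c293 (nat_lit 1) (nat_lit 3) (.s false (nat_lit 1) (nat_lit 25) (nat_lit 2) (nat_lit 2) (nat_lit 6) true (nat_lit 3) true (nat_lit 9) true (nat_lit 2) true (nat_lit 13) true (nat_lit 13) (.e false (nat_lit 1) (nat_lit 154) (nat_lit 6) (nat_lit 9) (.e true (nat_lit 1) (nat_lit 317) (nat_lit 2) (nat_lit 13) (.u (nat_lit 2) (.p (nat_lit 2) (nat_lit 1) (.n (nat_lit 3) (nat_lit 1) (.p (nat_lit 8) (nat_lit 1) (.p (nat_lit 17) (nat_lit 1) (.p (nat_lit 29) (nat_lit 1) .z))))) .nil))))) .leaf))))) (nat_lit 69632) (nat_lit 211) (.p (nat_lit 107) (nat_lit 2) (.n (nat_lit 108) (nat_lit 2) (.p (nat_lit 109) (nat_lit 3) (.n (nat_lit 110) (nat_lit 1) (.n (nat_lit 111) (nat_lit 3) (.p (nat_lit 112) (nat_lit 3) (.n (nat_lit 114) (nat_lit 2) (.n (nat_lit 115) (nat_lit 1) (.n (nat_lit 116) (nat_lit 3) (.p (nat_lit 117) (nat_lit 1) (.n (nat_lit 118) (nat_lit 3) (.p (nat_lit 121) (nat_lit 3) (.p (nat_lit 122) (nat_lit 1) (.n (nat_lit 123) (nat_lit 3) (.n (nat_lit 124) (nat_lit 2) (.p (nat_lit 125) (nat_lit 1) (.p (nat_lit 126) (nat_lit 3) (.p (nat_lit 129) (nat_lit 1) (.n (nat_lit 130) (nat_lit 1) (.p (nat_lit 131) (nat_lit 1) .z)))))))))))))))))))) (.ct dC1b_c546 (nat_lit 1) (nat_lit 10) (.s false (nat_lit 1) (nat_lit 11) (nat_lit 2) (nat_lit 0) (nat_lit 1) true (nat_lit 5) true (nat_lit 9) true (nat_lit 0) true (nat_lit 8) true (nat_lit 10) (.e true (nat_lit 1) (nat_lit 20) (nat_lit 5) (nat_lit 5) (.e true (nat_lit 1) (nat_lit 21) (nat_lit 5) (nat_lit 5) (.e false (nat_lit 1) (nat_lit 22) (nat_lit 5) (nat_lit 5) (.e false (nat_lit 1) (nat_lit 63) (nat_lit 1) (nat_lit 9) (.e true (nat_lit 1) (nat_lit 11) (nat_lit 11) (nat_lit 0) (.e false (nat_lit 1) (nat_lit 48) (nat_lit 2) (nat_lit 8) (.e true (nat_lit 1) (nat_lit 50) (nat_lit 2) (nat_lit 8) (.e false (nat_lit 1) (nat_lit 54) (nat_lit 2) (nat_lit 8) (.u (nat_lit 2) (.p (nat_lit 1) (nat_lit 1) (.p (nat_lit 11) (nat_lit 1) (.n (nat_lit 13) (nat_lit 1) (.n (nat_lit 14) (nat_lit 1) .z)))) .nil))))))))))) (.nd (.nd (.nd (.nd (.nd (.nd .leaf (nat_lit 69634) (nat_lit 273) (.p (nat_lit 155) (nat_lit 1) .z) .df .leaf) (nat_lit 69636) (nat_lit 568) (.p (nat_lit 212) (nat_lit 3) (.p (nat_lit 213) (nat_lit 2) (.n (nat_lit 214) (nat_lit 3) (.p (nat_lit 215) (nat_lit 1) (.n (nat_lit 217) (nat_lit 3) (.n (nat_lit 219) (nat_lit 1) (.n (nat_lit 220) (nat_lit 2) (.n (nat_lit 221) (nat_lit 3) (.p (nat_lit 222) (nat_lit 1) (.n (nat_lit 223) (nat_lit 1) (.p (nat_lit 224) (nat_lit 1) (.p (nat_lit 225) (nat_lit 2) (.p (nat_lit 226) (nat_lit 1) (.p (nat_lit 227) (nat_lit 2) (.n (nat_lit 228) (nat_lit 1) (.p (nat_lit 229) (nat_lit 2) (.p (nat_lit 230) (nat_lit 3) (.p (nat_lit 231) (nat_lit 3) (.p (nat_lit 232) (nat_lit 1) (.p (nat_lit 234) (nat_lit 3) (.p (nat_lit 235) (nat_lit 1) (.p (nat_lit 236) (nat_lit 1) (.p (nat_lit 237) (nat_lit 3) (.n (nat_lit 239) (nat_lit 3) (.n (nat_lit 240) (nat_lit 1) (.p (nat_lit 241) (nat_lit 2) (.n (nat_lit 243) (nat_lit 2) (.p (nat_lit 244) (nat_lit 3) (.p (nat_lit 245) (nat_lit 2) (.p (nat_lit 247) (nat_lit 2) (.p (nat_lit 248) (nat_lit 1) (.n (nat_lit 249) (nat_lit 1) (.p (nat_lit 250) (nat_lit 2) (.n (nat_lit 252) (nat_lit 2) (.p (nat_lit 253) (nat_lit 1) (.p (nat_lit 255) (nat_lit 2) (.p (nat_lit 256) (nat_lit 1) (.n (nat_lit 257) (nat_lit 3) (.n (nat_lit 258) (nat_lit 2) (.n (nat_lit 259) (nat_lit 1) .z)))))))))))))))))))))))))))))))))))))))) (.ct dC1b_c547 (nat_lit 1) (nat_lit 10) (.s true (nat_lit 1) (nat_lit 26) (nat_lit 2) (nat_lit 2) (nat_lit 0) true (nat_lit 10) true (nat_lit 14) false (nat_lit 2) true (nat_lit 12) true (nat_lit 12) (.e true (nat_lit 1) (nat_lit 155) (nat_lit 0) (nat_lit 14) (.e false (nat_lit 1) (nat_lit 26) (nat_lit 15) (nat_lit 2) (.e true (nat_lit 1) (nat_lit 131) (nat_lit 2) (nat_lit 12) (.e false (nat_lit 1) (nat_lit 108) (nat_lit 2) (nat_lit 12) (.e false (nat_lit 1) (nat_lit 111) (nat_lit 2) (nat_lit 12) (.e false (nat_lit 1) (nat_lit 114) (nat_lit 2) (nat_lit 12) (.u (nat_lit 2) (.n (nat_lit 0) (nat_lit 1) (.n (nat_lit 1) (nat_lit 1) (.p (nat_lit 2) (nat_lit 1) (.p (nat_lit 5) (nat_lit 1) (.p (nat_lit 9) (nat_lit 1) (.p (nat_lit 11) (nat_lit 1) (.n (nat_lit 15) (nat_lit 1) (.n (nat_lit 19) (nat_lit 1) (.n (nat_lit 21) (nat_lit 1) (.n (nat_lit 23) (nat_lit 1) (.n (nat_lit 24) (nat_lit 1) (.n (nat_lit 25) (nat_lit 1) (.n (nat_lit 32) (nat_lit 1) (.p (nat_lit 46) (nat_lit 1) .z)))))))))))))) .nil))))))))) .leaf) (nat_lit 69638) (nat_lit 710) (.p (nat_lit 318) (nat_lit 1) .z) .df (.nd (.nd .leaf (nat_lit 69650) (nat_lit 1500) (.p (nat_lit 460) (nat_lit 1) (.p (nat_lit 461) (nat_lit 3) (.n (nat_lit 462) (nat_lit 3) (.n (nat_lit 463) (nat_lit 2) (.p (nat_lit 464) (nat_lit 3) (.n (nat_lit 465) (nat_lit 3) (.n (nat_lit 467) (nat_lit 3) (.n (nat_lit 468) (nat_lit 3) (.p (nat_lit 469) (nat_lit 1) (.p (nat_lit 470) (nat_lit 1) (.p (nat_lit 471) (nat_lit 3) (.n (nat_lit 472) (nat_lit 1) (.p (nat_lit 473) (nat_lit 1) (.p (nat_lit 474) (nat_lit 1) (.n (nat_lit 475) (nat_lit 3) (.p (nat_lit 476) (nat_lit 1) (.p (nat_lit 477) (nat_lit 2) (.p (nat_lit 479) (nat_lit 1) (.n (nat_lit 489) (nat_lit 1) (.n (nat_lit 493) (nat_lit 3) .z)))))))))))))))))))) (.ct dC1b_c293 (nat_lit 1) (nat_lit 3) (.s false (nat_lit 1) (nat_lit 26) (nat_lit 6) (nat_lit 2) (nat_lit 2) true (nat_lit 3) true (nat_lit 13) true (nat_lit 2) true (nat_lit 9) true (nat_lit 13) (.e false (nat_lit 1) (nat_lit 309) (nat_lit 2) (nat_lit 13) (.e false (nat_lit 1) (nat_lit 46) (nat_lit 26) (nat_lit 2) (.e true (nat_lit 1) (nat_lit 172) (nat_lit 6) (nat_lit 9) (.e false (nat_lit 1) (nat_lit 318) (nat_lit 2) (nat_lit 13) (.u (nat_lit 2) (.n (nat_lit 1) (nat_lit 1) (.n (nat_lit 2) (nat_lit 1) (.p (nat_lit 5) (nat_lit 1) (.p (nat_lit 8) (nat_lit 1) (.n (nat_lit 17) (nat_lit 1) (.n (nat_lit 19) (nat_lit 1) (.p (nat_lit 22) (nat_lit 1) (.p (nat_lit 29) (nat_lit 1) (.p (nat_lit 33) (nat_lit 1) .z))))))))) .nil))))))) .leaf) (nat_lit 70656) (nat_lit 217) (.p (nat_lit 107) (nat_lit 2) (.p (nat_lit 108) (nat_lit 1) (.n (nat_lit 109) (nat_lit 1) (.n (nat_lit 110) (nat_lit 1) (.p (nat_lit 112) (nat_lit 2) (.n (nat_lit 113) (nat_lit 1) (.n (nat_lit 114) (nat_lit 1) (.p (nat_lit 115) (nat_lit 2) (.p (nat_lit 116) (nat_lit 3) (.n (nat_lit 117) (nat_lit 2) (.n (nat_lit 118) (nat_lit 1) (.p (nat_lit 119) (nat_lit 3) (.p (nat_lit 120) (nat_lit 2) (.n (nat_lit 121) (nat_lit 3) (.n (nat_lit 123) (nat_lit 3) (.p (nat_lit 124) (nat_lit 3) (.n (nat_lit 128) (nat_lit 1) (.n (nat_lit 129) (nat_lit 2) (.n (nat_lit 130) (nat_lit 1) .z))))))))))))))))))) (.ct dC1b_c546 (nat_lit 1) (nat_lit 10) (.s true (nat_lit 1) (nat_lit 12) (nat_lit 1) (nat_lit 2) (nat_lit 0) true (nat_lit 7) true (nat_lit 10) true (nat_lit 0) true (nat_lit 9) true (nat_lit 8) (.e false (nat_lit 1) (nat_lit 33) (nat_lit 3) (nat_lit 7) (.e true (nat_lit 1) (nat_lit 12) (nat_lit 12) (nat_lit 0) (.e false (nat_lit 2) (nat_lit 56) (nat_lit 1) (nat_lit 9) (.e true (nat_lit 2) (nat_lit 57) (nat_lit 1) (nat_lit 9) (.e true (nat_lit 1) (nat_lit 58) (nat_lit 1) (nat_lit 9) (.e true (nat_lit 1) (nat_lit 59) (nat_lit 1) (nat_lit 9) (.e true (nat_lit 1) (nat_lit 60) (nat_lit 1) (nat_lit 9) (.e false (nat_lit 1) (nat_lit 61) (nat_lit 1) (nat_lit 9) (.e true (nat_lit 1) (nat_lit 62) (nat_lit 1) (nat_lit 9) (.e true (nat_lit 1) (nat_lit 63) (nat_lit 1) (nat_lit 9) (.e false (nat_lit 1) (nat_lit 65) (nat_lit 1) (nat_lit 9) (.e false (nat_lit 1) (nat_lit 51) (nat_lit 2) (nat_lit 8) (.u (nat_lit 2) (.n (nat_lit 5) (nat_lit 1) (.n (nat_lit 12) (nat_lit 1) (.p (nat_lit 14) (nat_lit 1) .z))) .nil))))))))))))))) .leaf)) (nat_lit 70658) (nat_lit 274) (.p (nat_lit 156) (nat_lit 1) .z) .df (.nd (.nd (.nd .leaf (nat_lit 70660) (nat_lit 569) (.n (nat_lit 212) (nat_lit 3) (.p (nat_lit 213) (nat_lit 3) (.p (nat_lit 214) (nat_lit 3) (.n (nat_lit 215) (nat_lit 2) (.p (nat_lit 216) (nat_lit 1) (.n (nat_lit 217) (nat_lit 2) (.n (nat_lit 218) (nat_lit 1) (.n (nat_lit 220) (nat_lit 3) (.p (nat_lit 221) (nat_lit 2) (.p (nat_lit 222) (nat_lit 2) (.p (nat_lit 223) (nat_lit 3) (.p (nat_lit 225) (nat_lit 2) (.p (nat_lit 227) (nat_lit 3) (.n (nat_lit 228) (nat_lit 1) (.p (nat_lit 229) (nat_lit 3) (.p (nat_lit 230) (nat_lit 1) (.p (nat_lit 231) (nat_lit 2) (.p (nat_lit 232) (nat_lit 3) (.n (nat_lit 233) (nat_lit 2) (.n (nat_lit 234) (nat_lit 2) (.p (nat_lit 235) (nat_lit 1) (.n (nat_lit 237) (nat_lit 1) (.n (nat_lit 238) (nat_lit 3) (.p (nat_lit 240) (nat_lit 1) (.p (nat_lit 241) (nat_lit 3) (.n (nat_lit 242) (nat_lit 3) (.n (nat_lit 244) (nat_lit 3) (.n (nat_lit 245) (nat_lit 2) (.n (nat_lit 246) (nat_lit 1) (.p (nat_lit 247) (nat_lit 1) (.n (nat_lit 248) (nat_lit 1) (.p (nat_lit 250) (nat_lit 1) (.n (nat_lit 252) (nat_lit 1) (.p (nat_lit 255) (nat_lit 1) (.p (nat_lit 256) (nat_lit 1) (.n (nat_lit 257) (nat_lit 3) (.n (nat_lit 258) (nat_lit 2) (.n (nat_lit 259) (nat_lit 1) .z)))))))))))))))))))))))))))))))))))))) (.ct dC1b_c547 (nat_lit 1) (nat_lit 10) (.s true (nat_lit 1) (nat_lit 16) (nat_lit 2) (nat_lit 3) (nat_lit 0) true (nat_lit 10) true (nat_lit 14) true (nat_lit 1) true (nat_lit 12) true (nat_lit 11) (.e true (nat_lit 1) (nat_lit 66) (nat_lit 4) (nat_lit 10) (.e true (nat_lit 1) (nat_lit 67) (nat_lit 4) (nat_lit 10) (.e false (nat_lit 1) (nat_lit 68) (nat_lit 4) (nat_lit 10) (.e true (nat_lit 1) (nat_lit 70) (nat_lit 4) (nat_lit 10) (.e false (nat_lit 1) (nat_lit 74) (nat_lit 4) (nat_lit 10) (.e true (nat_lit 3) (nat_lit 153) (nat_lit 0) (nat_lit 14) (.e true (nat_lit 2) (nat_lit 154) (nat_lit 0) (nat_lit 14) (.e false (nat_lit 2) (nat_lit 155) (nat_lit 0) (nat_lit 14) (.e true (nat_lit 2) (nat_lit 156) (nat_lit 0) (nat_lit 14) (.e false (nat_lit 1) (nat_lit 161) (nat_lit 0) (nat_lit 14) (.e true (nat_lit 1) (nat_lit 162) (nat_lit 0) (nat_lit 14) (.e false (nat_lit 1) (nat_lit 164) (nat_lit 0) (nat_lit 14) (.e false (nat_lit 1) (nat_lit 170) (nat_lit 0) (nat_lit 14) (.e true (nat_lit 1) (nat_lit 171) (nat_lit 0) (nat_lit 14) (.e true (nat_lit 1) (nat_lit 173) (nat_lit 0) (nat_lit 14) (.e false (nat_lit 1) (nat_lit 22) (nat_lit 16) (nat_lit 1) (.e true (nat_lit 1) (nat_lit 112) (nat_lit 2) (nat_lit 12) (.e false (nat_lit 1) (nat_lit 114) (nat_lit 2) (nat_lit 12) (.e true (nat_lit 1) (nat_lit 115) (nat_lit 2) (nat_lit 12) (.e false (nat_lit 1) (nat_lit 129) (nat_lit 2) (nat_lit 12) (.e false (nat_lit 1) (nat_lit 87) (nat_lit 3) (nat_lit 11) (.u (nat_lit 2) (.n (nat_lit 4) (nat_lit 1) (.n (nat_lit 6) (nat_lit 1) (.n (nat_lit 8) (nat_lit 2) (.p (nat_lit 9) (nat_lit 1) (.n (nat_lit 10) (nat_lit 1) (.n (nat_lit 12) (nat_lit 1) (.p (nat_lit 13) (nat_lit 1) (.p (nat_lit 18) (nat_lit 1) (.p (nat_lit 19) (nat_lit 1) (.p (nat_lit 20) (nat_lit 1) (.n (nat_lit 21) (nat_lit 2) (.p (nat_lit 22) (nat_lit 1) (.n (nat_lit 23) (nat_lit 1) (.p (nat_lit 29) (nat_lit 1) (.n (nat_lit 31) (nat_lit 1) (.n (nat_lit 32) (nat_lit 1) (.p (nat_lit 33) (nat_lit 1) (.n (nat_lit 34) (nat_lit 1) (.p (nat_lit 36) (nat_lit 1) .z))))))))))))))))))) .nil)))))))))))))))))))))))) .leaf) (nat_lit 70662) (nat_lit 733) (.p (nat_lit 290) (nat_lit 3) (.p (nat_lit 291) (nat_lit 3) (.p (nat_lit 292) (nat_lit 1) (.n (nat_lit 293) (nat_lit 1) (.n (nat_lit 294) (nat_lit 2) (.p (nat_lit 298) (nat_lit 1) (.p (nat_lit 299) (nat_lit 2) (.n (nat_lit 301) (nat_lit 1) (.n (nat_lit 304) (nat_lit 3) (.n (nat_lit 307) (nat_lit 2) (.p (nat_lit 308) (nat_lit 1) (.p (nat_lit 316) (nat_lit 3) (.n (nat_lit 317) (nat_lit 3) (.p (nat_lit 318) (nat_lit 1) .z)))))))))))))) (.ct dC1b_c292 (nat_lit 1) (nat_lit 6) (.s false (nat_lit 2) (nat_lit 6) (nat_lit 1) (nat_lit 5) (nat_lit 4) true (nat_lit 4) true (nat_lit 8) true (nat_lit 6) true (nat_lit 11) true (nat_lit 7) (.s true (nat_lit 2) (nat_lit 6) (nat_lit 1) (nat_lit 6) (nat_lit 3) true (nat_lit 5) true (nat_lit 9) true (nat_lit 6) true (nat_lit 11) true (nat_lit 6) (.s false (nat_lit 3) (nat_lit 12) (nat_lit 1) (nat_lit 6) (nat_lit 2) true (nat_lit 7) true (nat_lit 10) true (nat_lit 4) true (nat_lit 11) true (nat_lit 6) (.s true (nat_lit 3) (nat_lit 12) (nat_lit 2) (nat_lit 2) (nat_lit 5) true (nat_lit 1) true (nat_lit 7) true (nat_lit 4) true (nat_lit 10) true (nat_lit 10) (.s false (nat_lit 2) (nat_lit 11) (nat_lit 2) (nat_lit 6) (nat_lit 1) true (nat_lit 7) true (nat_lit 11) true (nat_lit 4) true (nat_lit 10) true (nat_lit 6) (.s false (nat_lit 3) (nat_lit 12) (nat_lit 2) (nat_lit 6) (nat_lit 1) true (nat_lit 7) true (nat_lit 11) true (nat_lit 4) true (nat_lit 10) true (nat_lit 6) (.s true (nat_lit 2) (nat_lit 11) (nat_lit 6) (nat_lit 1) (nat_lit 2) true (nat_lit 0) true (nat_lit 10) true (nat_lit 4) true (nat_lit 6) true (nat_lit 11) (.s true (nat_lit 1) (nat_lit 14) (nat_lit 1) (nat_lit 1) (nat_lit 6) true (nat_lit 1) true (nat_lit 6) true (nat_lit 2) true (nat_lit 11) true (nat_lit 11) (.s true (nat_lit 2) (nat_lit 15) (nat_lit 1) (nat_lit 1) (nat_lit 6) true (nat_lit 1) true (nat_lit 6) true (nat_lit 2) true (nat_lit 11) true (nat_lit 11) (.s false (nat_lit 2) (nat_lit 14) (nat_lit 1) (nat_lit 6) (nat_lit 1) false (nat_lit 13) true (nat_lit 11) true (nat_lit 2) true (nat_lit 11) true (nat_lit 6) (.s false (nat_lit 2) (nat_lit 15) (nat_lit 6) (nat_lit 1) (nat_lit 1) true (nat_lit 1) true (nat_lit 11) true (nat_lit 2) true (nat_lit 6) true (nat_lit 11) (.s true (nat_lit 2) (nat_lit 17) (nat_lit 1) (nat_lit 4) (nat_lit 2) true (nat_lit 7) true (nat_lit 10) true (nat_lit 1) true (nat_lit 11) true (nat_lit 8) (.s false (nat_lit 2) (nat_lit 17) (nat_lit 2) (nat_lit 3) (nat_lit 2) true (nat_lit 6) true (nat_lit 10) true (nat_lit 1) true (nat_lit 10) true (nat_lit 9) (.s true (nat_lit 3) (nat_lit 18) (nat_lit 1) (nat_lit 4) (nat_lit 1) false (nat_lit 13) true (nat_lit 11) true (nat_lit 0) true (nat_lit 11) true (nat_lit 8) (.s false (nat_lit 3) (nat_lit 18) (nat_lit 3) (nat_lit 1) (nat_lit 2) true (nat_lit 4) true (nat_lit 10) true (nat_lit 0) true (nat_lit 9) true (nat_lit 11) (.s true (nat_lit 1) (nat_lit 32) (nat_lit 1) (nat_lit 2) (nat_lit 2) true (nat_lit 7) true (nat_lit 10) false (nat_lit 1) true (nat_lit 11) true (nat_lit 10) dC1b_i72))))))))))))))))) .leaf) (nat_lit 70674) (nat_lit 1503) (.p (nat_lit 460) (nat_lit 2) (.p (nat_lit 463) (nat_lit 3) (.n (nat_lit 464) (nat_lit 2) (.p (nat_lit 465) (nat_lit 2) (.n (nat_lit 467) (nat_lit 3) (.p (nat_lit 468) (nat_lit 3) (.p (nat_lit 469) (nat_lit 3) (.n (nat_lit 470) (nat_lit 1) (.n (nat_lit 471) (nat_lit 3) (.n (nat_lit 475) (nat_lit 3) (.n (nat_lit 476) (nat_lit 2) (.p (nat_lit 477) (nat_lit 1) (.n (nat_lit 479) (nat_lit 2) (.n (nat_lit 489) (nat_lit 1) (.n (nat_lit 493) (nat_lit 3) .z))))))))))))))) (.ct dC1b_c293 (nat_lit 1) (nat_lit 3) (.s false (nat_lit 1) (nat_lit 27) (nat_lit 2) (nat_lit 2) (nat_lit 6) true (nat_lit 3) true (nat_lit 9) true (nat_lit 2) true (nat_lit 13) true (nat_lit 13) (.e false (nat_lit 1) (nat_lit 156) (nat_lit 6) (nat_lit 9) (.e true (nat_lit 3) (nat_lit 290) (nat_lit 2) (nat_lit 13) (.e true (nat_lit 3) (nat_lit 291) (nat_lit 2) (nat_lit 13) (.e true (nat_lit 1) (nat_lit 292) (nat_lit 2) (nat_lit 13) (.e false (nat_lit 1) (nat_lit 293) (nat_lit 2) (nat_lit 13) (.e false (nat_lit 2) (nat_lit 294) (nat_lit 2) (nat_lit 13) (.e true (nat_lit 1) (nat_lit 298) (nat_lit 2) (nat_lit 13) (.e true (nat_lit 2) (nat_lit 299) (nat_lit 2) (nat_lit 13) (.e false (nat_lit 1) (nat_lit 301) (nat_lit 2) (nat_lit 13) (.e false (nat_lit 3) (nat_lit 304) (nat_lit 2) (nat_lit 13) (.e true (nat_lit 1) (nat_lit 308) (nat_lit 2) (nat_lit 13) (.e true (nat_lit 3) (nat_lit 316) (nat_lit 2) (nat_lit 13) (.e false (nat_lit 3) (nat_lit 317) (nat_lit 2) (nat_lit 13) (.e true (nat_lit 1) (nat_lit 318) (nat_lit 2) (nat_lit 13) (.e false (nat_lit 2) (nat_lit 307) (nat_lit 2) (nat_lit 13) (.u (nat_lit 2) (.p (nat_lit 0) (nat_lit 2) (.p (nat_lit 1) (nat_lit 1) (.p (nat_lit 3) (nat_lit 2) (.p (nat_lit 4) (nat_lit 2) (.n (nat_lit 5) (nat_lit 1) (.n (nat_lit 7) (nat_lit 1) (.n (nat_lit 8) (nat_lit 1) (.n (nat_lit 9) (nat_lit 2) (.p (nat_lit 10) (nat_lit 3) (.n (nat_lit 11) (nat_lit 2) (.p (nat_lit 12) (nat_lit 2) (.p (nat_lit 15) (nat_lit 1) (.n (nat_lit 16) (nat_lit 1) (.n (nat_lit 17) (nat_lit 3) (.p (nat_lit 26) (nat_lit 1) (.n (nat_lit 29) (nat_lit 2) (.n (nat_lit 33) (nat_lit 3) .z))))))))))))))))) .nil)))))))))))))))))) (.nd (.nd .leaf (nat_lit 71680) (nat_lit 212) (.p (nat_lit 107) (nat_lit 2) (.p (nat_lit 108) (nat_lit 3) (.p (nat_lit 109) (nat_lit 1) (.p (nat_lit 110) (nat_lit 2) (.n (nat_lit 111) (nat_lit 2) (.n (nat_lit 112) (nat_lit 2) (.p (nat_lit 113) (nat_lit 1) (.p (nat_lit 114) (nat_lit 2) (.n (nat_lit 115) (nat_lit 2) (.n (nat_lit 116) (nat_lit 3) (.p (nat_lit 117) (nat_lit 1) (.n (nat_lit 118) (nat_lit 3) (.n (nat_lit 119) (nat_lit 3) (.p (nat_lit 120) (nat_lit 1) (.p (nat_lit 121) (nat_lit 1) (.p (nat_lit 122) (nat_lit 1) (.p (nat_lit 124) (nat_lit 2) (.p (nat_lit 125) (nat_lit 3) (.p (nat_lit 126) (nat_lit 2) (.p (nat_lit 127) (nat_lit 1) (.p (nat_lit 128) (nat_lit 1) (.n (nat_lit 130) (nat_lit 2) (.p (nat_lit 131) (nat_lit 1) .z))))))))))))))))))))))) (.ct dC1b_c546 (nat_lit 1) (nat_lit 10) (.s false (nat_lit 1) (nat_lit 10) (nat_lit 1) (nat_lit 0) (nat_lit 2) true (nat_lit 5) true (nat_lit 8) true (nat_lit 0) true (nat_lit 9) true (nat_lit 10) (.e false (nat_lit 1) (nat_lit 22) (nat_lit 5) (nat_lit 5) (.e false (nat_lit 1) (nat_lit 53) (nat_lit 2) (nat_lit 8) (.e true (nat_lit 1) (nat_lit 10) (nat_lit 10) (nat_lit 0) (.e true (nat_lit 1) (nat_lit 55) (nat_lit 1) (nat_lit 9) (.e false (nat_lit 1) (nat_lit 56) (nat_lit 1) (nat_lit 9) (.e true (nat_lit 3) (nat_lit 57) (nat_lit 1) (nat_lit 9) (.e true (nat_lit 1) (nat_lit 58) (nat_lit 1) (nat_lit 9) (.e false (nat_lit 1) (nat_lit 61) (nat_lit 1) (nat_lit 9) (.e true (nat_lit 1) (nat_lit 62) (nat_lit 1) (nat_lit 9) (.e true (nat_lit 1) (nat_lit 64) (nat_lit 1) (nat_lit 9) (.e false (nat_lit 2) (nat_lit 65) (nat_lit 1) (nat_lit 9) (.u (nat_lit 2) (.p (nat_lit 5) (nat_lit 1) (.n (nat_lit 7) (nat_lit 1) (.n (nat_lit 10) (nat_lit 1) (.p (nat_lit 11) (nat_lit 1) (.n (nat_lit 16) (nat_lit 1) .z))))) .nil)))))))))))))) .leaf) (nat_lit 71682) (nat_lit 275) (.p (nat_lit 157) (nat_lit 1) .z) .df .leaf))) (nat_lit 71684) (nat_lit 560) (.p (nat_lit 213) (nat_lit 1) (.p (nat_lit 214) (nat_lit 3) (.n (nat_lit 215) (nat_lit 3) (.p (nat_lit 216) (nat_lit 3) (.n (nat_lit 217) (nat_lit 2) (.p (nat_lit 218) (nat_lit 2) (.n (nat_lit 219) (nat_lit 2) (.p (nat_lit 220) (nat_lit 2) (.n (nat_lit 221) (nat_lit 1) (.n (nat_lit 222) (nat_lit 2) (.n (nat_lit 223) (nat_lit 2) (.n (nat_lit 224) (nat_lit 1) (.n (nat_lit 229) (nat_lit 2) (.p (nat_lit 230) (nat_lit 1) (.p (nat_lit 231) (nat_lit 1) (.p (nat_lit 232) (nat_lit 2) (.p (nat_lit 233) (nat_lit 3) (.n (nat_lit 234) (nat_lit 3) (.p (nat_lit 236) (nat_lit 3) (.p (nat_lit 237) (nat_lit 1) (.p (nat_lit 238) (nat_lit 2) (.n (nat_lit 239) (nat_lit 1) (.n (nat_lit 240) (nat_lit 3) (.n (nat_lit 242) (nat_lit 3) (.n (nat_lit 243) (nat_lit 1) (.p (nat_lit 244) (nat_lit 3) (.p (nat_lit 245) (nat_lit 2) (.p (nat_lit 246) (nat_lit 1) (.p (nat_lit 247) (nat_lit 1) (.p (nat_lit 248) (nat_lit 1) (.n (nat_lit 249) (nat_lit 1) (.p (nat_lit 250) (nat_lit 1) (.n (nat_lit 252) (nat_lit 1) (.p (nat_lit 253) (nat_lit 1) .z)))))))))))))))))))))))))))))))))) (.ct dC1b_c547 (nat_lit 1) (nat_lit 10) (.s true (nat_lit 1) (nat_lit 31) (nat_lit 0) (nat_lit 1) (nat_lit 2) true (nat_lit 10) true (nat_lit 12) false (nat_lit 4) true (nat_lit 14) true (nat_lit 13) (.e true (nat_lit 1) (nat_lit 122) (nat_lit 2) (nat_lit 12) (.e true (nat_lit 1) (nat_lit 31) (nat_lit 10) (nat_lit 4) (.e false (nat_lit 1) (nat_lit 154) (nat_lit 0) (nat_lit 14) (.e false (nat_lit 2) (nat_lit 157) (nat_lit 0) (nat_lit 14) (.e true (nat_lit 1) (nat_lit 162) (nat_lit 0) (nat_lit 14) (.e false (nat_lit 1) (nat_lit 164) (nat_lit 0) (nat_lit 14) (.e true (nat_lit 1) (nat_lit 167) (nat_lit 0) (nat_lit 14) (.e true (nat_lit 1) (nat_lit 171) (nat_lit 0) (nat_lit 14) (.e false (nat_lit 1) (nat_lit 147) (nat_lit 1) (nat_lit 13) (.u (nat_lit 2) (.n (nat_lit 0) (nat_lit 1) (.n (nat_lit 2) (nat_lit 1) (.p (nat_lit 3) (nat_lit 1) (.n (nat_lit 4) (nat_lit 1) (.p (nat_lit 5) (nat_lit 1) (.n (nat_lit 8) (nat_lit 1) (.p (nat_lit 10) (nat_lit 1) (.p (nat_lit 11) (nat_lit 1) (.n (nat_lit 12) (nat_lit 1) (.p (nat_lit 30) (nat_lit 1) (.n (nat_lit 32) (nat_lit 1) (.p (nat_lit 37) (nat_lit 1) .z)))))))))))) .nil)))))))))))) (.nd (.nd (.nd (.nd .leaf (nat_lit 71686) (nat_lit 722) (.n (nat_lit 291) (nat_lit 3) (.p (nat_lit 294) (nat_lit 1) (.n (nat_lit 298) (nat_lit 1) (.p (nat_lit 299) (nat_lit 1) (.n (nat_lit 301) (nat_lit 3) (.n (nat_lit 304) (nat_lit 2) (.p (nat_lit 307) (nat_lit 1) (.p (nat_lit 308) (nat_lit 3) (.n (nat_lit 317) (nat_lit 1) .z))))))))) (.ct dC1b_c292 (nat_lit 1) (nat_lit 6) (.s false (nat_lit 1) (nat_lit 31) (nat_lit 2) (nat_lit 1) (nat_lit 2) true (nat_lit 6) true (nat_lit 10) false (nat_lit 1) true (nat_lit 10) true (nat_lit 11) (.e false (nat_lit 2) (nat_lit 164) (nat_lit 2) (nat_lit 10) (.e true (nat_lit 1) (nat_lit 31) (nat_lit 16) (nat_lit 1) (.e false (nat_lit 1) (nat_lit 154) (nat_lit 2) (nat_lit 10) (.e false (nat_lit 2) (nat_lit 157) (nat_lit 2) (nat_lit 10) (.e true (nat_lit 1) (nat_lit 162) (nat_lit 2) (nat_lit 10) (.e true (nat_lit 1) (nat_lit 167) (nat_lit 2) (nat_lit 10) (.e true (nat_lit 1) (nat_lit 171) (nat_lit 2) (nat_lit 10) (.e false (nat_lit 1) (nat_lit 180) (nat_lit 1) (nat_lit 11) (.u (nat_lit 2) (.p (nat_lit 1) (nat_lit 1) (.p (nat_lit 11) (nat_lit 1) (.n (nat_lit 18) (nat_lit 1) .z))) .nil))))))))))) .leaf) (nat_lit 71695) (nat_lit 1146) (.p (nat_lit 355) (nat_lit 2) (.p (nat_lit 356) (nat_lit 3) (.n (nat_lit 358) (nat_lit 3) (.p (nat_lit 359) (nat_lit 2) (.p (nat_lit 360) (nat_lit 2) (.p (nat_lit 361) (nat_lit 1) (.n (nat_lit 362) (nat_lit 2) (.p (nat_lit 364) (nat_lit 2) (.p (nat_lit 365) (nat_lit 1) (.n (nat_lit 366) (nat_lit 1) (.p (nat_lit 367) (nat_lit 3) (.p (nat_lit 369) (nat_lit 3) (.p (nat_lit 370) (nat_lit 2) (.p (nat_lit 372) (nat_lit 2) (.n (nat_lit 373) (nat_lit 3) (.n (nat_lit 374) (nat_lit 3) (.p (nat_lit 375) (nat_lit 1) (.p (nat_lit 379) (nat_lit 3) (.p (nat_lit 380) (nat_lit 3) (.p (nat_lit 381) (nat_lit 2) (.p (nat_lit 382) (nat_lit 1) (.n (nat_lit 387) (nat_lit 2) (.n (nat_lit 388) (nat_lit 2) (.n (nat_lit 389) (nat_lit 3) (.n (nat_lit 391) (nat_lit 1) (.n (nat_lit 392) (nat_lit 3) (.p (nat_lit 393) (nat_lit 2) (.n (nat_lit 394) (nat_lit 3) (.p (nat_lit 395) (nat_lit 3) (.p (nat_lit 396) (nat_lit 1) (.n (nat_lit 400) (nat_lit 3) (.p (nat_lit 401) (nat_lit 1) (.p (nat_lit 403) (nat_lit 1) (.n (nat_lit 404) (nat_lit 1) (.n (nat_lit 405) (nat_lit 3) (.p (nat_lit 406) (nat_lit 3) (.n (nat_lit 407) (nat_lit 2) (.n (nat_lit 408) (nat_lit 1) (.n (nat_lit 409) (nat_lit 3) (.p (nat_lit 410) (nat_lit 3) (.n (nat_lit 412) (nat_lit 2) (.p (nat_lit 413) (nat_lit 2) (.n (nat_lit 414) (nat_lit 1) (.p (nat_lit 416) (nat_lit 2) (.p (nat_lit 422) (nat_lit 3) (.n (nat_lit 423) (nat_lit 1) (.p (nat_lit 424) (nat_lit 1) .z))))))))))))))))))))))))))))))))))))))))))))))) (.ct dC1b_c548 (nat_lit 1) (nat_lit 7) (.s false (nat_lit 1) (nat_lit 70) (nat_lit 2) (nat_lit 2) (nat_lit 0) true (nat_lit 15) true (nat_lit 19) false (nat_lit 7) true (nat_lit 17) true (nat_lit 17) (.e false (nat_lit 1) (nat_lit 157) (nat_lit 4) (nat_lit 15) (.e false (nat_lit 1) (nat_lit 294) (nat_lit 0) (nat_lit 19) (.e false (nat_lit 3) (nat_lit 213) (nat_lit 2) (nat_lit 17) (.e false (nat_lit 2) (nat_lit 214) (nat_lit 2) (nat_lit 17) (.e false (nat_lit 3) (nat_lit 215) (nat_lit 2) (nat_lit 17) (.e true (nat_lit 2) (nat_lit 216) (nat_lit 2) (nat_lit 17) (.e true (nat_lit 2) (nat_lit 217) (nat_lit 2) (nat_lit 17) (.e false (nat_lit 1) (nat_lit 218) (nat_lit 2) (nat_lit 17) (.e true (nat_lit 1) (nat_lit 219) (nat_lit 2) (nat_lit 17) (.e false (nat_lit 3) (nat_lit 220) (nat_lit 2) (nat_lit 17) (.e true (nat_lit 2) (nat_lit 221) (nat_lit 2) (nat_lit 17) (.e true (nat_lit 3) (nat_lit 223) (nat_lit 2) (nat_lit 17) (.e false (nat_lit 3) (nat_lit 224) (nat_lit 2) (nat_lit 17) (.e true (nat_lit 2) (nat_lit 229) (nat_lit 2) (nat_lit 17) (.e false (nat_lit 2) (nat_lit 230) (nat_lit 2) (nat_lit 17) (.e false (nat_lit 2) (nat_lit 231) (nat_lit 2) (nat_lit 17) dC1b_i73)))))))))))))))))) .leaf) (nat_lit 71698) (nat_lit 1458) (.p (nat_lit 460) (nat_lit 3) (.p (nat_lit 461) (nat_lit 1) (.p (nat_lit 462) (nat_lit 3) (.p (nat_lit 463) (nat_lit 1) (.p (nat_lit 464) (nat_lit 3) (.n (nat_lit 467) (nat_lit 2) (.n (nat_lit 468) (nat_lit 1) (.p (nat_lit 470) (nat_lit 3) (.p (nat_lit 471) (nat_lit 1) (.p (nat_lit 473) (nat_lit 2) (.p (nat_lit 474) (nat_lit 2) (.p (nat_lit 475) (nat_lit 1) (.n (nat_lit 476) (nat_lit 1) (.n (nat_lit 477) (nat_lit 1) (.n (nat_lit 479) (nat_lit 2) (.p (nat_lit 489) (nat_lit 2) (.n (nat_lit 493) (nat_lit 1) .z))))))))))))))))) (.ct dC1b_c293 (nat_lit 1) (nat_lit 3) (.s false (nat_lit 1) (nat_lit 70) (nat_lit 2) (nat_lit 2) (nat_lit 2) true (nat_lit 9) true (nat_lit 13) false (nat_lit 3) true (nat_lit 13) true (nat_lit 13) (.e false (nat_lit 1) (nat_lit 157) (nat_lit 6) (nat_lit 9) (.e true (nat_lit 1) (nat_lit 294) (nat_lit 2) (nat_lit 13) (.e false (nat_lit 3) (nat_lit 291) (nat_lit 2) (nat_lit 13) (.e false (nat_lit 1) (nat_lit 298) (nat_lit 2) (nat_lit 13) (.e true (nat_lit 1) (nat_lit 299) (nat_lit 2) (nat_lit 13) (.e false (nat_lit 3) (nat_lit 301) (nat_lit 2) (nat_lit 13) (.e false (nat_lit 2) (nat_lit 304) (nat_lit 2) (nat_lit 13) (.e true (nat_lit 1) (nat_lit 307) (nat_lit 2) (nat_lit 13) (.e true (nat_lit 3) (nat_lit 308) (nat_lit 2) (nat_lit 13) (.e false (nat_lit 1) (nat_lit 317) (nat_lit 2) (nat_lit 13) (.u (nat_lit 2) (.p (nat_lit 0) (nat_lit 1) (.n (nat_lit 1) (nat_lit 1) (.n (nat_lit 2) (nat_lit 1) (.p (nat_lit 10) (nat_lit 1) (.n (nat_lit 11) (nat_lit 2) (.p (nat_lit 12) (nat_lit 1) (.p (nat_lit 13) (nat_lit 1) (.p (nat_lit 14) (nat_lit 1) (.n (nat_lit 16) (nat_lit 1) (.n (nat_lit 17) (nat_lit 2) (.p (nat_lit 19) (nat_lit 1) (.p (nat_lit 26) (nat_lit 1) (.n (nat_lit 29) (nat_lit 2) (.n (nat_lit 33) (nat_lit 2) .z)))))))))))))) .nil))))))))))))) (.nd (.nd .leaf (nat_lit 72704) (nat_lit 215) (.n (nat_lit 107) (nat_lit 2) (.n (nat_lit 108) (nat_lit 2) (.n (nat_lit 109) (nat_lit 2) (.n (nat_lit 110) (nat_lit 1) (.n (nat_lit 111) (nat_lit 3) (.n (nat_lit 112) (nat_lit 3) (.n (nat_lit 114) (nat_lit 3) (.p (nat_lit 115) (nat_lit 3) (.p (nat_lit 116) (nat_lit 1) (.p (nat_lit 117) (nat_lit 3) (.n (nat_lit 118) (nat_lit 2) (.p (nat_lit 120) (nat_lit 2) (.p (nat_lit 121) (nat_lit 2) (.p (nat_lit 122) (nat_lit 1) (.n (nat_lit 123) (nat_lit 3) (.n (nat_lit 124) (nat_lit 1) (.n (nat_lit 125) (nat_lit 1) (.n (nat_lit 126) (nat_lit 3) (.p (nat_lit 128) (nat_lit 1) (.n (nat_lit 129) (nat_lit 1) (.p (nat_lit 130) (nat_lit 1) (.p (nat_lit 131) (nat_lit 1) .z)))))))))))))))))))))) (.ct dC1b_c546 (nat_lit 1) (nat_lit 10) (.s true (nat_lit 1) (nat_lit 11) (nat_lit 2) (nat_lit 1) (nat_lit 0) true (nat_lit 6) true (nat_lit 10) true (nat_lit 0) true (nat_lit 8) true (nat_lit 9) (.e false (nat_lit 1) (nat_lit 26) (nat_lit 4) (nat_lit 6) (.e false (nat_lit 1) (nat_lit 12) (nat_lit 11) (nat_lit 0) (.e false (nat_lit 1) (nat_lit 48) (nat_lit 2) (nat_lit 8) (.e true (nat_lit 1) (nat_lit 50) (nat_lit 2) (nat_lit 8) (.e false (nat_lit 1) (nat_lit 54) (nat_lit 2) (nat_lit 8) (.e false (nat_lit 1) (nat_lit 55) (nat_lit 1) (nat_lit 9) (.e false (nat_lit 1) (nat_lit 56) (nat_lit 1) (nat_lit 9) (.e true (nat_lit 1) (nat_lit 57) (nat_lit 1) (nat_lit 9) (.u (nat_lit 2) (.p (nat_lit 7) (nat_lit 1) (.n (nat_lit 10) (nat_lit 1) .z)) .nil))))))))))) .leaf) (nat_lit 72706) (nat_lit 276) (.p (nat_lit 158) (nat_lit 1) .z) .df .leaf)) (nat_lit 72708) (nat_lit 561) (.n (nat_lit 212) (nat_lit 1) (.n (nat_lit 213) (nat_lit 3) (.n (nat_lit 214) (nat_lit 2) (.p (nat_lit 215) (nat_lit 1) (.p (nat_lit 216) (nat_lit 1) (.p (nat_lit 217) (nat_lit 1) (.p (nat_lit 218) (nat_lit 3) (.n (nat_lit 220) (nat_lit 1) (.n (nat_lit 221) (nat_lit 3) (.n (nat_lit 222) (nat_lit 1) (.p (nat_lit 223) (nat_lit 3) (.p (nat_lit 224) (nat_lit 3) (.p (nat_lit 225) (nat_lit 1) (.n (nat_lit 226) (nat_lit 1) (.n (nat_lit 227) (nat_lit 2) (.p (nat_lit 228) (nat_lit 3) (.n (nat_lit 229) (nat_lit 3) (.p (nat_lit 231) (nat_lit 3) (.p (nat_lit 232) (nat_lit 2) (.p (nat_lit 233) (nat_lit 1) (.p (nat_lit 236) (nat_lit 2) (.n (nat_lit 238) (nat_lit 3) (.p (nat_lit 239) (nat_lit 3) (.n (nat_lit 240) (nat_lit 2) (.n (nat_lit 241) (nat_lit 2) (.p (nat_lit 242) (nat_lit 1) (.n (nat_lit 243) (nat_lit 3) (.p (nat_lit 244) (nat_lit 1) (.p (nat_lit 245) (nat_lit 3) (.p (nat_lit 247) (nat_lit 2) (.n (nat_lit 248) (nat_lit 1) (.n (nat_lit 249) (nat_lit 1) (.p (nat_lit 250) (nat_lit 2) (.n (nat_lit 251) (nat_lit 3) (.n (nat_lit 252) (nat_lit 2) (.p (nat_lit 253) (nat_lit 1) (.p (nat_lit 255) (nat_lit 1) (.n (nat_lit 256) (nat_lit 3) (.n (nat_lit 257) (nat_lit 3) (.p (nat_lit 258) (nat_lit 3) .z)))))))))))))))))))))))))))))))))))))))) (.ct dC1b_c547 (nat_lit 1) (nat_lit 10) (.s true (nat_lit 1) (nat_lit 32) (nat_lit 0) (nat_lit 1) (nat_lit 2) true (nat_lit 10) true (nat_lit 12) false (nat_lit 4) true (nat_lit 14) true (nat_lit 13) (.e true (nat_lit 1) (nat_lit 109) (nat_lit 2) (nat_lit 12) (.e false (nat_lit 1) (nat_lit 115) (nat_lit 2) (nat_lit 12) (.e false (nat_lit 1) (nat_lit 117) (nat_lit 2) (nat_lit 12) (.e true (nat_lit 3) (nat_lit 119) (nat_lit 2) (nat_lit 12) (.e false (nat_lit 3) (nat_lit 120) (nat_lit 2) (nat_lit 12) (.e false (nat_lit 3) (nat_lit 121) (nat_lit 2) (nat_lit 12) (.e false (nat_lit 1) (nat_lit 122) (nat_lit 2) (nat_lit 12) (.e true (nat_lit 3) (nat_lit 123) (nat_lit 2) (nat_lit 12) (.e false (nat_lit 2) (nat_lit 124) (nat_lit 2) (nat_lit 12) (.e true (nat_lit 1) (nat_lit 130) (nat_lit 2) (nat_lit 12) (.e true (nat_lit 1) (nat_lit 32) (nat_lit 10) (nat_lit 4) (.e false (nat_lit 1) (nat_lit 155) (nat_lit 0) (nat_lit 14) (.e false (nat_lit 2) (nat_lit 158) (nat_lit 0) (nat_lit 14) (.e true (nat_lit 1) (nat_lit 163) (nat_lit 0) (nat_lit 14) (.e false (nat_lit 1) (nat_lit 165) (nat_lit 0) (nat_lit 14) (.e true (nat_lit 1) (nat_lit 168) (nat_lit 0) (nat_lit 14) (.e true (nat_lit 1) (nat_lit 172) (nat_lit 0) (nat_lit 14) (.e false (nat_lit 1) (nat_lit 148) (nat_lit 1) (nat_lit 13) (.u (nat_lit 2) (.n (nat_lit 3) (nat_lit 1) (.n (nat_lit 4) (nat_lit 1) (.n (nat_lit 5) (nat_lit 3) (.p (nat_lit 6) (nat_lit 1) (.n (nat_lit 7) (nat_lit 4) (.p (nat_lit 8) (nat_lit 1) (.p (nat_lit 9) (nat_lit 1) (.n (nat_lit 10) (nat_lit 1) (.p (nat_lit 12) (nat_lit 2) (.p (nat_lit 14) (nat_lit 1) (.p (nat_lit 15) (nat_lit 2) (.n (nat_lit 18) (nat_lit 2) (.n (nat_lit 19) (nat_lit 3) (.n (nat_lit 22) (nat_lit 4) (.n (nat_lit 23) (nat_lit 1) (.p (nat_lit 25) (nat_lit 2) (.n (nat_lit 26) (nat_lit 1) (.n (nat_lit 27) (nat_lit 2) (.n (nat_lit 28) (nat_lit 4) (.p (nat_lit 29) (nat_lit 2) (.p (nat_lit 31) (nat_lit 2) (.p (nat_lit 32) (nat_lit 1) (.n (nat_lit 33) (nat_lit 1) (.n (nat_lit 34) (nat_lit 1) (.p (nat_lit 35) (nat_lit 1) (.n (nat_lit 36) (nat_lit 2) (.n (nat_lit 40) (nat_lit 1) (.p (nat_lit 45) (nat_lit 1) (.n (nat_lit 46) (nat_lit 1) .z))))))))))))))))))))))))))))) .nil))))))))))))))))))))) (.nd (.nd (.nd .leaf (nat_lit 72710) (nat_lit 766) (.p (nat_lit 291) (nat_lit 2) (.p (nat_lit 292) (nat_lit 3) (.p (nat_lit 293) (nat_lit 1) (.p (nat_lit 294) (nat_lit 1) (.p (nat_lit 295) (nat_lit 3) (.n (nat_lit 296) (nat_lit 1) (.p (nat_lit 297) (nat_lit 1) (.p (nat_lit 299) (nat_lit 1) (.p (nat_lit 300) (nat_lit 1) (.n (nat_lit 301) (nat_lit 3) (.n (nat_lit 304) (nat_lit 3) (.n (nat_lit 307) (nat_lit 3) (.n (nat_lit 308) (nat_lit 3) (.n (nat_lit 309) (nat_lit 1) (.p (nat_lit 310) (nat_lit 1) (.n (nat_lit 316) (nat_lit 2) (.n (nat_lit 317) (nat_lit 2) (.p (nat_lit 318) (nat_lit 2) .z)))))))))))))))))) (.ct dC1b_c292 (nat_lit 1) (nat_lit 6) (.s false (nat_lit 1) (nat_lit 32) (nat_lit 2) (nat_lit 1) (nat_lit 2) true (nat_lit 6) true (nat_lit 10) false (nat_lit 1) true (nat_lit 10) true (nat_lit 11) (.e false (nat_lit 2) (nat_lit 165) (nat_lit 2) (nat_lit 10) (.e true (nat_lit 1) (nat_lit 32) (nat_lit 16) (nat_lit 1) (.e false (nat_lit 1) (nat_lit 155) (nat_lit 2) (nat_lit 10) (.e false (nat_lit 2) (nat_lit 158) (nat_lit 2) (nat_lit 10) (.e true (nat_lit 1) (nat_lit 163) (nat_lit 2) (nat_lit 10) (.e true (nat_lit 1) (nat_lit 168) (nat_lit 2) (nat_lit 10) (.e true (nat_lit 1) (nat_lit 172) (nat_lit 2) (nat_lit 10) (.e false (nat_lit 1) (nat_lit 181) (nat_lit 1) (nat_lit 11) .nil)))))))))) .leaf) (nat_lit 72722) (nat_lit 1509) (.p (nat_lit 460) (nat_lit 1) (.p (nat_lit 461) (nat_lit 3) (.p (nat_lit 462) (nat_lit 2) (.n (nat_lit 463) (nat_lit 2) (.p (nat_lit 464) (nat_lit 3) (.n (nat_lit 465) (nat_lit 1) (.p (nat_lit 467) (nat_lit 3) (.p (nat_lit 469) (nat_lit 2) (.p (nat_lit 470) (nat_lit 3) (.n (nat_lit 471) (nat_lit 3) (.n (nat_lit 472) (nat_lit 3) (.n (nat_lit 473) (nat_lit 1) (.n (nat_lit 474) (nat_lit 1) (.n (nat_lit 475) (nat_lit 3) (.n (nat_lit 476) (nat_lit 1) (.p (nat_lit 477) (nat_lit 3) (.p (nat_lit 479) (nat_lit 1) (.n (nat_lit 489) (nat_lit 3) (.n (nat_lit 493) (nat_lit 2) .z))))))))))))))))))) (.ct dC1b_c293 (nat_lit 1) (nat_lit 3) (.s true (nat_lit 1) (nat_lit 18) (nat_lit 2) (nat_lit 11) (nat_lit 1) true (nat_lit 10) true (nat_lit 14) true (nat_lit 3) true (nat_lit 13) true (nat_lit 7) (.e false (nat_lit 1) (nat_lit 189) (nat_lit 5) (nat_lit 10) (.e true (nat_lit 1) (nat_lit 193) (nat_lit 5) (nat_lit 10) (.e false (nat_lit 1) (nat_lit 337) (nat_lit 1) (nat_lit 14) (.e true (nat_lit 1) (nat_lit 345) (nat_lit 1) (nat_lit 14) (.e false (nat_lit 1) (nat_lit 309) (nat_lit 2) (nat_lit 13) (.e true (nat_lit 1) (nat_lit 318) (nat_lit 2) (nat_lit 13) (.e false (nat_lit 1) (nat_lit 104) (nat_lit 11) (nat_lit 7) (.u (nat_lit 2) (.n (nat_lit 1) (nat_lit 1) (.p (nat_lit 3) (nat_lit 1) (.n (nat_lit 4) (nat_lit 1) (.n (nat_lit 7) (nat_lit 1) (.p (nat_lit 8) (nat_lit 1) (.n (nat_lit 9) (nat_lit 1) (.n (nat_lit 10) (nat_lit 1) (.p (nat_lit 11) (nat_lit 1) (.p (nat_lit 12) (nat_lit 1) (.p (nat_lit 15) (nat_lit 1) (.n (nat_lit 17) (nat_lit 1) (.n (nat_lit 33) (nat_lit 1) .z)))))))))))) .nil)))))))))) .leaf) (nat_lit 73728) (nat_lit 199) (.n (nat_lit 109) (nat_lit 1) (.p (nat_lit 112) (nat_lit 1) (.n (nat_lit 114) (nat_lit 1) (.p (nat_lit 115) (nat_lit 2) (.p (nat_lit 116) (nat_lit 1) (.n (nat_lit 120) (nat_lit 1) (.p (nat_lit 123) (nat_lit 1) (.n (nat_lit 124) (nat_lit 1) (.p (nat_lit 125) (nat_lit 1) (.n (nat_lit 129) (nat_lit 1) (.n (nat_lit 130) (nat_lit 1) .z))))))))))) (.ct dC1b_c546 (nat_lit 1) (nat_lit 10) (.s true (nat_lit 1) (nat_lit 14) (nat_lit 1) (nat_lit 1) (nat_lit 0) true (nat_lit 7) true (nat_lit 10) false (nat_lit 2) true (nat_lit 9) true (nat_lit 9) (.e false (nat_lit 1) (nat_lit 34) (nat_lit 3) (nat_lit 7) (.e false (nat_lit 1) (nat_lit 56) (nat_lit 1) (nat_lit 9) (.e true (nat_lit 2) (nat_lit 57) (nat_lit 1) (nat_lit 9) (.e true (nat_lit 1) (nat_lit 58) (nat_lit 1) (nat_lit 9) (.e true (nat_lit 1) (nat_lit 62) (nat_lit 1) (nat_lit 9) (.e false (nat_lit 1) (nat_lit 65) (nat_lit 1) (nat_lit 9) (.e false (nat_lit 1) (nat_lit 60) (nat_lit 1) (nat_lit 9) .nil))))))))) (.nd (.nd .leaf (nat_lit 73730) (nat_lit 277) (.p (nat_lit 159) (nat_lit 1) .z) .df .leaf) (nat_lit 73732) (nat_lit 526) (.n (nat_lit 212) (nat_lit 2) (.p (nat_lit 213) (nat_lit 1) (.n (nat_lit 214) (nat_lit 3) (.n (nat_lit 215) (nat_lit 2) (.n (nat_lit 216) (nat_lit 3) (.n (nat_lit 217) (nat_lit 1) (.p (nat_lit 218) (nat_lit 1) (.n (nat_lit 219) (nat_lit 1) (.n (nat_lit 220) (nat_lit 3) (.n (nat_lit 221) (nat_lit 3) (.n (nat_lit 222) (nat_lit 1) (.p (nat_lit 223) (nat_lit 1) (.n (nat_lit 226) (nat_lit 1) (.n (nat_lit 229) (nat_lit 3) (.n (nat_lit 230) (nat_lit 1) (.n (nat_lit 231) (nat_lit 3) (.n (nat_lit 233) (nat_lit 1) (.n (nat_lit 235) (nat_lit 1) (.n (nat_lit 238) (nat_lit 3) (.n (nat_lit 239) (nat_lit 1) (.p (nat_lit 241) (nat_lit 3) (.n (nat_lit 243) (nat_lit 3) (.n (nat_lit 244) (nat_lit 2) (.n (nat_lit 245) (nat_lit 1) (.p (nat_lit 247) (nat_lit 2) (.n (nat_lit 249) (nat_lit 1) (.p (nat_lit 250) (nat_lit 2) (.p (nat_lit 251) (nat_lit 1) (.n (nat_lit 252) (nat_lit 2) (.p (nat_lit 253) (nat_lit 1) .z)))))))))))))))))))))))))))))) (.ct dC1b_c547 (nat_lit 1) (nat_lit 10) (.s true (nat_lit 1) (nat_lit 14) (nat_lit 1) (nat_lit 1) (nat_lit 4) true (nat_lit 4) true (nat_lit 10) true (nat_lit 2) true (nat_lit 13) true (nat_lit 13) (.e true (nat_lit 1) (nat_lit 34) (nat_lit 11) (nat_lit 4) (.e false (nat_lit 2) (nat_lit 133) (nat_lit 1) (nat_lit 13) (.e true (nat_lit 1) (nat_lit 134) (nat_lit 1) (nat_lit 13) (.e true (nat_lit 1) (nat_lit 135) (nat_lit 1) (nat_lit 13) (.e false (nat_lit 2) (nat_lit 136) (nat_lit 1) (nat_lit 13) (.e true (nat_lit 1) (nat_lit 137) (nat_lit 1) (nat_lit 13) (.e false (nat_lit 2) (nat_lit 140) (nat_lit 1) (nat_lit 13) (.e false (nat_lit 1) (nat_lit 148) (nat_lit 1) (nat_lit 13) (.e true (nat_lit 1) (nat_lit 149) (nat_lit 1) (nat_lit 13) (.e true (nat_lit 2) (nat_lit 150) (nat_lit 1) (nat_lit 13) (.e false (nat_lit 1) (nat_lit 151) (nat_lit 1) (nat_lit 13) (.e true (nat_lit 2) (nat_lit 144) (nat_lit 1) (nat_lit 13) (.e true (nat_lit 1) (nat_lit 146) (nat_lit 1) (nat_lit 13) (.e false (nat_lit 1) (nat_lit 145) (nat_lit 1) (nat_lit 13) (.e false (nat_lit 1) (nat_lit 152) (nat_lit 1) (nat_lit 13) (.u (nat_lit 2) (.n (nat_lit 5) (nat_lit 1) (.p (nat_lit 9) (nat_lit 2) (.p (nat_lit 12) (nat_lit 1) (.p (nat_lit 15) (nat_lit 1) (.p (nat_lit 21) (nat_lit 1) (.p (nat_lit 22) (nat_lit 1) (.n (nat_lit 25) (nat_lit 1) (.p (nat_lit 26) (nat_lit 2) (.n (nat_lit 27) (nat_lit 2) (.p (nat_lit 29) (nat_lit 1) (.p (nat_lit 31) (nat_lit 1) (.n (nat_lit 165) (nat_lit 1) (.p (nat_lit 166) (nat_lit 1) .z))))))))))))) .nil)))))))))))))))))) .leaf)))) (nat_lit 73734) (nat_lit 763) (.p (nat_lit 290) (nat_lit 1) (.n (nat_lit 292) (nat_lit 2) (.p (nat_lit 296) (nat_lit 3) (.n (nat_lit 297) (nat_lit 1) (.n (nat_lit 299) (nat_lit 3) (.n (nat_lit 300) (nat_lit 2) (.p (nat_lit 301) (nat_lit 2) (.n (nat_lit 304) (nat_lit 3) (.n (nat_lit 307) (nat_lit 2) (.p (nat_lit 308) (nat_lit 3) (.p (nat_lit 310) (nat_lit 2) (.p (nat_lit 318) (nat_lit 1) .z)))))))))))) (.ct dC1b_c292 (nat_lit 1) (nat_lit 6) (.s false (nat_lit 1) (nat_lit 34) (nat_lit 2) (nat_lit 1) (nat_lit 2) true (nat_lit 6) true (nat_lit 10) false (nat_lit 1) true (nat_lit 10) true (nat_lit 11) (.e true (nat_lit 1) (nat_lit 34) (nat_lit 16) (nat_lit 1) (.e false (nat_lit 2) (nat_lit 153) (nat_lit 2) (nat_lit 10) (.e false (nat_lit 3) (nat_lit 154) (nat_lit 2) (nat_lit 10) (.e true (nat_lit 3) (nat_lit 155) (nat_lit 2) (nat_lit 10) (.e false (nat_lit 3) (nat_lit 156) (nat_lit 2) (nat_lit 10) (.e true (nat_lit 1) (nat_lit 157) (nat_lit 2) (nat_lit 10) (.e false (nat_lit 2) (nat_lit 159) (nat_lit 2) (nat_lit 10) (.e true (nat_lit 1) (nat_lit 160) (nat_lit 2) (nat_lit 10) (.e false (nat_lit 3) (nat_lit 161) (nat_lit 2) (nat_lit 10) (.e true (nat_lit 2) (nat_lit 162) (nat_lit 2) (nat_lit 10) (.e true (nat_lit 2) (nat_lit 163) (nat_lit 2) (nat_lit 10) (.e false (nat_lit 3) (nat_lit 164) (nat_lit 2) (nat_lit 10) (.e false (nat_lit 1) (nat_lit 165) (nat_lit 2) (nat_lit 10) (.e false (nat_lit 3) (nat_lit 168) (nat_lit 2) (nat_lit 10) (.e true (nat_lit 2) (nat_lit 170) (nat_lit 2) (nat_lit 10) (.e false (nat_lit 2) (nat_lit 173) (nat_lit 2) (nat_lit 10) (.e false (nat_lit 1) (nat_lit 183) (nat_lit 1) (nat_lit 11) .nil))))))))))))))))))) (.nd (.nd (.nd (.nd (.nd .leaf (nat_lit 73742) (nat_lit 1048) (.p (nat_lit 355) (nat_lit 2) (.p (nat_lit 356) (nat_lit 3) (.n (nat_lit 357) (nat_lit 3) (.n (nat_lit 358) (nat_lit 3) (.n (nat_lit 361) (nat_lit 2) (.p (nat_lit 362) (nat_lit 2) (.p (nat_lit 364) (nat_lit 3) (.n (nat_lit 365) (nat_lit 3) (.p (nat_lit 366) (nat_lit 3) (.n (nat_lit 367) (nat_lit 2) (.n (nat_lit 369) (nat_lit 3) (.p (nat_lit 370) (nat_lit 1) (.p (nat_lit 373) (nat_lit 2) (.p (nat_lit 374) (nat_lit 3) (.n (nat_lit 375) (nat_lit 2) (.p (nat_lit 382) (nat_lit 2) (.p (nat_lit 383) (nat_lit 2) (.n (nat_lit 384) (nat_lit 1) (.p (nat_lit 385) (nat_lit 1) (.p (nat_lit 386) (nat_lit 2) (.p (nat_lit 387) (nat_lit 1) (.p (nat_lit 388) (nat_lit 1) (.p (nat_lit 389) (nat_lit 2) (.n (nat_lit 390) (nat_lit 3) (.n (nat_lit 391) (nat_lit 3) (.n (nat_lit 392) (nat_lit 1) (.p (nat_lit 393) (nat_lit 2) (.p (nat_lit 395) (nat_lit 1) (.p (nat_lit 396) (nat_lit 3) (.p (nat_lit 403) (nat_lit 1) .z)))))))))))))))))))))))))))))) (.ct dC1b_c548 (nat_lit 1) (nat_lit 7) (.s true (nat_lit 1) (nat_lit 14) (nat_lit 1) (nat_lit 1) (nat_lit 14) true (nat_lit 0) true (nat_lit 7) true (nat_lit 7) true (nat_lit 18) true (nat_lit 18) (.a false (nat_lit 3) (nat_lit 34) (nat_lit 34) (nat_lit 0) (nat_lit 0) (.e false (nat_lit 3) (nat_lit 261) (nat_lit 1) (nat_lit 18) (.e false (nat_lit 3) (nat_lit 262) (nat_lit 1) (nat_lit 18) (.e true (nat_lit 3) (nat_lit 263) (nat_lit 1) (nat_lit 18) (.e true (nat_lit 1) (nat_lit 264) (nat_lit 1) (nat_lit 18) (.e false (nat_lit 2) (nat_lit 265) (nat_lit 1) (nat_lit 18) (.e true (nat_lit 2) (nat_lit 266) (nat_lit 1) (nat_lit 18) (.e false (nat_lit 1) (nat_lit 267) (nat_lit 1) (nat_lit 18) (.e false (nat_lit 2) (nat_lit 268) (nat_lit 1) (nat_lit 18) (.e true (nat_lit 2) (nat_lit 270) (nat_lit 1) (nat_lit 18) (.e true (nat_lit 1) (nat_lit 272) (nat_lit 1) (nat_lit 18) (.e false (nat_lit 3) (nat_lit 273) (nat_lit 1) (nat_lit 18) (.e true (nat_lit 3) (nat_lit 274) (nat_lit 1) (nat_lit 18) (.e true (nat_lit 3) (nat_lit 277) (nat_lit 1) (nat_lit 18) (.e true (nat_lit 2) (nat_lit 280) (nat_lit 1) (nat_lit 18) (.e false (nat_lit 1) (nat_lit 285) (nat_lit 1) (nat_lit 18) (.e true (nat_lit 2) (nat_lit 286) (nat_lit 1) (nat_lit 18) (.e true (nat_lit 1) (nat_lit 287) (nat_lit 1) (nat_lit 18) (.u (nat_lit 2) (.p (nat_lit 0) (nat_lit 1) (.p (nat_lit 1) (nat_lit 1) (.p (nat_lit 2) (nat_lit 1) (.p (nat_lit 3) (nat_lit 1) (.p (nat_lit 4) (nat_lit 1) (.n (nat_lit 8) (nat_lit 3) (.p (nat_lit 9) (nat_lit 2) (.p (nat_lit 10) (nat_lit 1) (.p (nat_lit 12) (nat_lit 1) (.p (nat_lit 14) (nat_lit 1) (.p (nat_lit 15) (nat_lit 1) (.n (nat_lit 17) (nat_lit 2) (.n (nat_lit 20) (nat_lit 1) (.p (nat_lit 27) (nat_lit 1) (.p (nat_lit 29) (nat_lit 1) (.n (nat_lit 30) (nat_lit 1) (.p (nat_lit 31) (nat_lit 1) (.p (nat_lit 32) (nat_lit 1) (.p (nat_lit 33) (nat_lit 1) (.n (nat_lit 34) (nat_lit 2) (.p (nat_lit 35) (nat_lit 1) (.p (nat_lit 36) (nat_lit 3) (.n (nat_lit 37) (nat_lit 1) (.n (nat_lit 39) (nat_lit 1) (.n (nat_lit 40) (nat_lit 2) (.n (nat_lit 41) (nat_lit 2) (.n (nat_lit 92) (nat_lit 1) .z))))))))))))))))))))))))))) .nil))))))))))))))))))))) .leaf) (nat_lit 73743) (nat_lit 1149) (.n (nat_lit 355) (nat_lit 1) (.p (nat_lit 356) (nat_lit 2) (.n (nat_lit 357) (nat_lit 1) (.n (nat_lit 358) (nat_lit 1) (.n (nat_lit 359) (nat_lit 1) (.n (nat_lit 360) (nat_lit 3) (.p (nat_lit 364) (nat_lit 3) (.p (nat_lit 365) (nat_lit 3) (.n (nat_lit 366) (nat_lit 1) (.p (nat_lit 367) (nat_lit 1) (.p (nat_lit 369) (nat_lit 3) (.p (nat_lit 370) (nat_lit 3) (.n (nat_lit 372) (nat_lit 1) (.p (nat_lit 373) (nat_lit 1) (.n (nat_lit 374) (nat_lit 1) (.p (nat_lit 375) (nat_lit 1) (.n (nat_lit 381) (nat_lit 3) (.n (nat_lit 382) (nat_lit 1) (.p (nat_lit 383) (nat_lit 3) (.p (nat_lit 385) (nat_lit 3) (.n (nat_lit 386) (nat_lit 3) (.n (nat_lit 387) (nat_lit 2) (.p (nat_lit 388) (nat_lit 2) (.p (nat_lit 389) (nat_lit 1) (.p (nat_lit 390) (nat_lit 1) (.p (nat_lit 391) (nat_lit 3) (.n (nat_lit 392) (nat_lit 2) (.n (nat_lit 393) (nat_lit 1) (.n (nat_lit 394) (nat_lit 1) (.p (nat_lit 396) (nat_lit 2) (.p (nat_lit 403) (nat_lit 2) (.p (nat_lit 404) (nat_lit 3) (.p (nat_lit 405) (nat_lit 1) (.n (nat_lit 406) (nat_lit 1) (.p (nat_lit 408) (nat_lit 1) (.p (nat_lit 409) (nat_lit 3) (.n (nat_lit 410) (nat_lit 3) .z))))))))))))))))))))))))))))))))))))) (.ct dC1b_c548 (nat_lit 1) (nat_lit 7) (.s false (nat_lit 1) (nat_lit 72) (nat_lit 2) (nat_lit 2) (nat_lit 0) true (nat_lit 15) true (nat_lit 19) false (nat_lit 7) true (nat_lit 17) true (nat_lit 17) (.e false (nat_lit 1) (nat_lit 159) (nat_lit 4) (nat_lit 15) (.e false (nat_lit 1) (nat_lit 296) (nat_lit 0) (nat_lit 19) (.e false (nat_lit 3) (nat_lit 212) (nat_lit 2) (nat_lit 17) (.e true (nat_lit 2) (nat_lit 213) (nat_lit 2) (nat_lit 17) (.e false (nat_lit 2) (nat_lit 214) (nat_lit 2) (nat_lit 17) (.e false (nat_lit 2) (nat_lit 215) (nat_lit 2) (nat_lit 17) (.e false (nat_lit 3) (nat_lit 216) (nat_lit 2) (nat_lit 17) (.e true (nat_lit 2) (nat_lit 217) (nat_lit 2) (nat_lit 17) (.e false (nat_lit 3) (nat_lit 218) (nat_lit 2) (nat_lit 17) (.e false (nat_lit 3) (nat_lit 219) (nat_lit 2) (nat_lit 17) (.e true (nat_lit 1) (nat_lit 220) (nat_lit 2) (nat_lit 17) (.e true (nat_lit 3) (nat_lit 221) (nat_lit 2) (nat_lit 17) (.e false (nat_lit 1) (nat_lit 222) (nat_lit 2) (nat_lit 17) (.e false (nat_lit 3) (nat_lit 223) (nat_lit 2) (nat_lit 17) (.e false (nat_lit 2) (nat_lit 226) (nat_lit 2) (nat_lit 17) (.e true (nat_lit 2) (nat_lit 229) (nat_lit 2) (nat_lit 17) dC1b_i74)))))))))))))))))) .leaf) (nat_lit 73746) (nat_lit 1493) (.n (nat_lit 460) (nat_lit 2) (.p (nat_lit 461) (nat_lit 1) (.p (nat_lit 462) (nat_lit 3) (.n (nat_lit 463) (nat_lit 3) (.p (nat_lit 464) (nat_lit 1) (.p (nat_lit 465) (nat_lit 2) (.n (nat_lit 469) (nat_lit 3) (.p (nat_lit 470) (nat_lit 1) (.n (nat_lit 472) (nat_lit 2) (.p (nat_lit 473) (nat_lit 1) (.p (nat_lit 474) (nat_lit 1) (.p (nat_lit 475) (nat_lit 1) (.p (nat_lit 476) (nat_lit 3) (.p (nat_lit 477) (nat_lit 3) (.p (nat_lit 479) (nat_lit 2) (.p (nat_lit 489) (nat_lit 3) (.p (nat_lit 493) (nat_lit 2) .z))))))))))))))))) (.ct dC1b_c293 (nat_lit 1) (nat_lit 3) (.s true (nat_lit 3) (nat_lit 6) (nat_lit 3) (nat_lit 6) (nat_lit 5) true (nat_lit 2) true (nat_lit 10) true (nat_lit 9) true (nat_lit 12) true (nat_lit 9) (.s false (nat_lit 1) (nat_lit 11) (nat_lit 5) (nat_lit 2) (nat_lit 6) false (nat_lit 1) true (nat_lit 9) true (nat_lit 7) true (nat_lit 10) true (nat_lit 13) (.s true (nat_lit 2) (nat_lit 12) (nat_lit 6) (nat_lit 6) (nat_lit 1) true (nat_lit 4) true (nat_lit 14) true (nat_lit 7) true (nat_lit 9) true (nat_lit 9) (.s false (nat_lit 1) (nat_lit 16) (nat_lit 11) (nat_lit 2) (nat_lit 2) true (nat_lit 1) true (nat_lit 13) true (nat_lit 4) true (nat_lit 7) true (nat_lit 13) (.s true (nat_lit 3) (nat_lit 18) (nat_lit 2) (nat_lit 11) (nat_lit 1) true (nat_lit 10) true (nat_lit 14) true (nat_lit 3) true (nat_lit 13) true (nat_lit 7) (.s true (nat_lit 1) (nat_lit 18) (nat_lit 13) (nat_lit 2) (nat_lit 0) true (nat_lit 2) true (nat_lit 15) true (nat_lit 3) true (nat_lit 6) true (nat_lit 13) (.s true (nat_lit 3) (nat_lit 27) (nat_lit 2) (nat_lit 6) (nat_lit 2) true (nat_lit 9) true (nat_lit 13) true (nat_lit 2) true (nat_lit 13) true (nat_lit 9) (.s true (nat_lit 1) (nat_lit 32) (nat_lit 2) (nat_lit 2) (nat_lit 5) true (nat_lit 4) true (nat_lit 10) true (nat_lit 1) true (nat_lit 13) true (nat_lit 13) (.s true (nat_lit 1) (nat_lit 32) (nat_lit 5) (nat_lit 2) (nat_lit 2) true (nat_lit 4) true (nat_lit 13) true (nat_lit 1) true (nat_lit 10) true (nat_lit 13) dC1b_i77)))))))))) (.nd (.nd .leaf (nat_lit 74752) (nat_lit 218) (.p (nat_lit 107) (nat_lit 3) (.p (nat_lit 108) (nat_lit 3) (.p (nat_lit 109) (nat_lit 2) (.n (nat_lit 110) (nat_lit 1) (.p (nat_lit 111) (nat_lit 2) (.p (nat_lit 112) (nat_lit 1) (.n (nat_lit 113) (nat_lit 2) (.n (nat_lit 114) (nat_lit 1) (.n (nat_lit 115) (nat_lit 1) (.p (nat_lit 116) (nat_lit 3) (.n (nat_lit 119) (nat_lit 1) (.p (nat_lit 120) (nat_lit 3) (.n (nat_lit 121) (nat_lit 1) (.n (nat_lit 122) (nat_lit 3) (.n (nat_lit 123) (nat_lit 3) (.p (nat_lit 124) (nat_lit 2) (.p (nat_lit 125) (nat_lit 1) (.n (nat_lit 126) (nat_lit 3) (.p (nat_lit 128) (nat_lit 3) (.p (nat_lit 129) (nat_lit 1) (.n (nat_lit 130) (nat_lit 1) (.n (nat_lit 131) (nat_lit 2) .z)))))))))))))))))))))) (.ct dC1b_c546 (nat_lit 1) (nat_lit 10) (.s true (nat_lit 1) (nat_lit 13) (nat_lit 2) (nat_lit 0) (nat_lit 0) true (nat_lit 6) true (nat_lit 10) false (nat_lit 1) true (nat_lit 8) true (nat_lit 10) (.e false (nat_lit 1) (nat_lit 24) (nat_lit 4) (nat_lit 6) (.e true (nat_lit 1) (nat_lit 25) (nat_lit 4) (nat_lit 6) (.e false (nat_lit 1) (nat_lit 27) (nat_lit 4) (nat_lit 6) (.e false (nat_lit 1) (nat_lit 13) (nat_lit 9) (nat_lit 1) (.e false (nat_lit 1) (nat_lit 66) (nat_lit 0) (nat_lit 10) (.e true (nat_lit 1) (nat_lit 67) (nat_lit 0) (nat_lit 10) (.e false (nat_lit 1) (nat_lit 69) (nat_lit 0) (nat_lit 10) (.u (nat_lit 2) (.p (nat_lit 12) (nat_lit 2) (.n (nat_lit 14) (nat_lit 1) (.p (nat_lit 19) (nat_lit 1) (.n (nat_lit 21) (nat_lit 1) .z)))) .nil)))))))))) .leaf) (nat_lit 74754) (nat_lit 278) (.p (nat_lit 160) (nat_lit 1) .z) .df .leaf)) (nat_lit 74756) (nat_lit 462) (.p (nat_lit 256) (nat_lit 1) .z) .df (.nd (.nd (.nd .leaf (nat_lit 74758) (nat_lit 776) (.n (nat_lit 290) (nat_lit 3) (.n (nat_lit 291) (nat_lit 1) (.n (nat_lit 292) (nat_lit 2) (.n (nat_lit 293) (nat_lit 1) (.p (nat_lit 294) (nat_lit 1) (.p (nat_lit 295) (nat_lit 1) (.p (nat_lit 297) (nat_lit 2) (.n (nat_lit 298) (nat_lit 3) (.p (nat_lit 299) (nat_lit 3) (.n (nat_lit 300) (nat_lit 1) (.n (nat_lit 301) (nat_lit 2) (.n (nat_lit 304) (nat_lit 1) (.p (nat_lit 307) (nat_lit 2) (.p (nat_lit 308) (nat_lit 2) (.n (nat_lit 309) (nat_lit 1) (.p (nat_lit 310) (nat_lit 2) (.n (nat_lit 316) (nat_lit 3) (.n (nat_lit 317) (nat_lit 2) (.p (nat_lit 318) (nat_lit 2) .z))))))))))))))))))) (.ct dC1b_c292 (nat_lit 1) (nat_lit 6) (.s true (nat_lit 1) (nat_lit 12) (nat_lit 6) (nat_lit 2) (nat_lit 1) true (nat_lit 1) true (nat_lit 11) true (nat_lit 4) true (nat_lit 6) true (nat_lit 10) (.e false (nat_lit 1) (nat_lit 33) (nat_lit 17) (nat_lit 1) (.e true (nat_lit 1) (nat_lit 190) (nat_lit 1) (nat_lit 11) (.e false (nat_lit 1) (nat_lit 45) (nat_lit 12) (nat_lit 4) (.e true (nat_lit 1) (nat_lit 66) (nat_lit 6) (nat_lit 6) (.e true (nat_lit 1) (nat_lit 67) (nat_lit 6) (nat_lit 6) (.e true (nat_lit 1) (nat_lit 70) (nat_lit 6) (nat_lit 6) (.e false (nat_lit 1) (nat_lit 72) (nat_lit 6) (nat_lit 6) (.e false (nat_lit 1) (nat_lit 74) (nat_lit 6) (nat_lit 6) (.e true (nat_lit 1) (nat_lit 76) (nat_lit 6) (nat_lit 6) (.e false (nat_lit 2) (nat_lit 153) (nat_lit 2) (nat_lit 10) (.e false (nat_lit 2) (nat_lit 154) (nat_lit 2) (nat_lit 10) (.e true (nat_lit 1) (nat_lit 155) (nat_lit 2) (nat_lit 10) (.e false (nat_lit 1) (nat_lit 156) (nat_lit 2) (nat_lit 10) (.e false (nat_lit 1) (nat_lit 157) (nat_lit 2) (nat_lit 10) (.e false (nat_lit 1) (nat_lit 162) (nat_lit 2) (nat_lit 10) (.e true (nat_lit 1) (nat_lit 167) (nat_lit 2) (nat_lit 10) (.e true (nat_lit 2) (nat_lit 170) (nat_lit 2) (nat_lit 10) (.e false (nat_lit 1) (nat_lit 172) (nat_lit 2) (nat_lit 10) (.e false (nat_lit 1) (nat_lit 173) (nat_lit 2) (nat_lit 10) (.u (nat_lit 2) (.p (nat_lit 3) (nat_lit 1) (.p (nat_lit 4) (nat_lit 1) (.n (nat_lit 9) (nat_lit 1) (.p (nat_lit 11) (nat_lit 1) (.n (nat_lit 17) (nat_lit 1) (.n (nat_lit 18) (nat_lit 1) (.p (nat_lit 19) (nat_lit 1) (.p (nat_lit 26) (nat_lit 1) (.p (nat_lit 27) (nat_lit 1) (.n (nat_lit 28) (nat_lit 1) .z)))))))))) .nil)))))))))))))))))))))) .leaf) (nat_lit 74766) (nat_lit 1035) (.n (nat_lit 355) (nat_lit 1) (.n (nat_lit 356) (nat_lit 3) (.n (nat_lit 358) (nat_lit 3) (.n (nat_lit 359) (nat_lit 3) (.n (nat_lit 360) (nat_lit 3) (.p (nat_lit 361) (nat_lit 2) (.n (nat_lit 362) (nat_lit 2) (.p (nat_lit 363) (nat_lit 1) (.p (nat_lit 364) (nat_lit 1) (.p (nat_lit 365) (nat_lit 2) (.n (nat_lit 366) (nat_lit 3) (.p (nat_lit 367) (nat_lit 1) (.p (nat_lit 368) (nat_lit 1) (.n (nat_lit 369) (nat_lit 2) (.n (nat_lit 370) (nat_lit 2) (.p (nat_lit 371) (nat_lit 2) (.n (nat_lit 372) (nat_lit 2) (.n (nat_lit 373) (nat_lit 3) (.n (nat_lit 378) (nat_lit 2) (.p (nat_lit 379) (nat_lit 2) (.p (nat_lit 381) (nat_lit 2) (.p (nat_lit 382) (nat_lit 1) (.n (nat_lit 384) (nat_lit 1) (.n (nat_lit 385) (nat_lit 1) (.n (nat_lit 386) (nat_lit 1) (.p (nat_lit 387) (nat_lit 3) (.n (nat_lit 388) (nat_lit 2) (.n (nat_lit 389) (nat_lit 3) (.p (nat_lit 390) (nat_lit 1) (.p (nat_lit 391) (nat_lit 2) (.p (nat_lit 392) (nat_lit 1) (.n (nat_lit 393) (nat_lit 1) (.p (nat_lit 394) (nat_lit 2) (.n (nat_lit 395) (nat_lit 2) (.n (nat_lit 396) (nat_lit 3) (.p (nat_lit 404) (nat_lit 2) (.p (nat_lit 405) (nat_lit 1) (.n (nat_lit 406) (nat_lit 1) (.p (nat_lit 407) (nat_lit 2) (.p (nat_lit 408) (nat_lit 3) (.p (nat_lit 410) (nat_lit 3) (.n (nat_lit 412) (nat_lit 2) (.p (nat_lit 413) (nat_lit 2) (.p (nat_lit 414) (nat_lit 1) (.n (nat_lit 416) (nat_lit 2) (.n (nat_lit 418) (nat_lit 2) (.p (nat_lit 423) (nat_lit 1) (.n (nat_lit 424) (nat_lit 3) .z)))))))))))))))))))))))))))))))))))))))))))))))) (.ct dC1b_c548 (nat_lit 1) (nat_lit 7) (.s true (nat_lit 1) (nat_lit 73) (nat_lit 0) (nat_lit 2) (nat_lit 2) true (nat_lit 15) true (nat_lit 17) false (nat_lit 7) true (nat_lit 19) true (nat_lit 17) (.e true (nat_lit 1) (nat_lit 160) (nat_lit 4) (nat_lit 15) (.e false (nat_lit 2) (nat_lit 212) (nat_lit 2) (nat_lit 17) (.e false (nat_lit 2) (nat_lit 215) (nat_lit 2) (nat_lit 17) (.e true (nat_lit 1) (nat_lit 216) (nat_lit 2) (nat_lit 17) (.e false (nat_lit 1) (nat_lit 220) (nat_lit 2) (nat_lit 17) (.e true (nat_lit 2) (nat_lit 221) (nat_lit 2) (nat_lit 17) (.e true (nat_lit 1) (nat_lit 222) (nat_lit 2) (nat_lit 17) (.e true (nat_lit 2) (nat_lit 223) (nat_lit 2) (nat_lit 17) (.e true (nat_lit 1) (nat_lit 224) (nat_lit 2) (nat_lit 17) (.e true (nat_lit 1) (nat_lit 226) (nat_lit 2) (nat_lit 17) (.e true (nat_lit 3) (nat_lit 227) (nat_lit 2) (nat_lit 17) (.e false (nat_lit 2) (nat_lit 229) (nat_lit 2) (nat_lit 17) (.e false (nat_lit 1) (nat_lit 213) (nat_lit 2) (nat_lit 17) (.e true (nat_lit 2) (nat_lit 218) (nat_lit 2) (nat_lit 17) (.e false (nat_lit 2) (nat_lit 231) (nat_lit 2) (nat_lit 17) dC1b_i78))))))))))))))))) .leaf) (nat_lit 74767) (nat_lit 1031) (.n (nat_lit 355) (nat_lit 3) (.p (nat_lit 356) (nat_lit 1) (.n (nat_lit 358) (nat_lit 2) (.n (nat_lit 359) (nat_lit 2) (.p (nat_lit 360) (nat_lit 1) (.n (nat_lit 361) (nat_lit 2) (.p (nat_lit 362) (nat_lit 2) (.p (nat_lit 363) (nat_lit 2) (.p (nat_lit 364) (nat_lit 1) (.p (nat_lit 365) (nat_lit 2) (.n (nat_lit 366) (nat_lit 2) (.p (nat_lit 368) (nat_lit 2) (.p (nat_lit 369) (nat_lit 3) (.n (nat_lit 370) (nat_lit 3) (.n (nat_lit 371) (nat_lit 3) (.n (nat_lit 372) (nat_lit 2) (.p (nat_lit 373) (nat_lit 3) (.n (nat_lit 374) (nat_lit 2) (.n (nat_lit 375) (nat_lit 2) (.p (nat_lit 378) (nat_lit 3) (.n (nat_lit 379) (nat_lit 3) (.n (nat_lit 381) (nat_lit 2) (.n (nat_lit 383) (nat_lit 3) (.n (nat_lit 385) (nat_lit 3) (.p (nat_lit 387) (nat_lit 3) (.p (nat_lit 388) (nat_lit 3) (.p (nat_lit 389) (nat_lit 2) (.n (nat_lit 390) (nat_lit 1) (.p (nat_lit 391) (nat_lit 1) (.p (nat_lit 392) (nat_lit 1) (.n (nat_lit 393) (nat_lit 1) (.p (nat_lit 394) (nat_lit 1) (.n (nat_lit 395) (nat_lit 2) (.n (nat_lit 396) (nat_lit 1) (.p (nat_lit 405) (nat_lit 3) (.n (nat_lit 406) (nat_lit 3) (.n (nat_lit 407) (nat_lit 3) (.p (nat_lit 409) (nat_lit 3) (.p (nat_lit 410) (nat_lit 3) (.p (nat_lit 412) (nat_lit 3) (.n (nat_lit 413) (nat_lit 3) (.p (nat_lit 414) (nat_lit 2) (.p (nat_lit 416) (nat_lit 3) (.p (nat_lit 418) (nat_lit 3) (.p (nat_lit 423) (nat_lit 2) (.p (nat_lit 424) (nat_lit 1) .z)))))))))))))))))))))))))))))))))))))))))))))) (.ct dC1b_c548 (nat_lit 1) (nat_lit 7) (.s false (nat_lit 1) (nat_lit 73) (nat_lit 2) (nat_lit 2) (nat_lit 0) true (nat_lit 15) true (nat_lit 19) false (nat_lit 7) true (nat_lit 17) true (nat_lit 17) (.e false (nat_lit 1) (nat_lit 160) (nat_lit 4) (nat_lit 15) (.e false (nat_lit 1) (nat_lit 297) (nat_lit 0) (nat_lit 19) (.e false (nat_lit 2) (nat_lit 256) (nat_lit 2) (nat_lit 17) (.e false (nat_lit 2) (nat_lit 212) (nat_lit 2) (nat_lit 17) (.e false (nat_lit 2) (nat_lit 215) (nat_lit 2) (nat_lit 17) (.e true (nat_lit 1) (nat_lit 216) (nat_lit 2) (nat_lit 17) (.e false (nat_lit 1) (nat_lit 220) (nat_lit 2) (nat_lit 17) (.e true (nat_lit 2) (nat_lit 221) (nat_lit 2) (nat_lit 17) (.e true (nat_lit 1) (nat_lit 222) (nat_lit 2) (nat_lit 17) (.e true (nat_lit 2) (nat_lit 223) (nat_lit 2) (nat_lit 17) (.e true (nat_lit 1) (nat_lit 224) (nat_lit 2) (nat_lit 17) (.e true (nat_lit 1) (nat_lit 226) (nat_lit 2) (nat_lit 17) (.e true (nat_lit 3) (nat_lit 227) (nat_lit 2) (nat_lit 17) (.e false (nat_lit 2) (nat_lit 229) (nat_lit 2) (nat_lit 17) (.e false (nat_lit 1) (nat_lit 213) (nat_lit 2) (nat_lit 17) (.e true (nat_lit 2) (nat_lit 218) (nat_lit 2) (nat_lit 17) (.e false (nat_lit 1) (nat_lit 219) (nat_lit 2) (nat_lit 17) (.e false (nat_lit 2) (nat_lit 231) (nat_lit 2) (nat_lit 17) (.e true (nat_lit 2) (nat_lit 214) (nat_lit 2) (nat_lit 17) (.e true (nat_lit 2) (nat_lit 217) (nat_lit 2) (nat_lit 17) (.e false (nat_lit 1) (nat_lit 230) (nat_lit 2) (nat_lit 17) (.u (nat_lit 2) (.n (nat_lit 0) (nat_lit 1) (.n (nat_lit 3) (nat_lit 1) (.p (nat_lit 4) (nat_lit 2) (.p (nat_lit 5) (nat_lit 1) (.n (nat_lit 8) (nat_lit 1) (.p (nat_lit 9) (nat_lit 1) (.p (nat_lit 11) (nat_lit 2) (.n (nat_lit 12) (nat_lit 1) (.p (nat_lit 14) (nat_lit 3) (.n (nat_lit 15) (nat_lit 2) (.p (nat_lit 16) (nat_lit 1) (.n (nat_lit 17) (nat_lit 1) (.n (nat_lit 18) (nat_lit 1) (.n (nat_lit 23) (nat_lit 1) (.p (nat_lit 24) (nat_lit 1) (.p (nat_lit 27) (nat_lit 1) (.p (nat_lit 28) (nat_lit 3) (.p (nat_lit 29) (nat_lit 1) (.p (nat_lit 30) (nat_lit 1) (.p (nat_lit 32) (nat_lit 2) (.n (nat_lit 33) (nat_lit 3) (.p (nat_lit 34) (nat_lit 2) (.p (nat_lit 35) (nat_lit 1) (.n (nat_lit 36) (nat_lit 1) (.p (nat_lit 37) (nat_lit 1) (.n (nat_lit 38) (nat_lit 2) (.n (nat_lit 40) (nat_lit 1) (.p (nat_lit 41) (nat_lit 1) (.p (nat_lit 49) (nat_lit 1) (.p (nat_lit 50) (nat_lit 1) (.n (nat_lit 51) (nat_lit 1) (.n (nat_lit 57) (nat_lit 2) (.p (nat_lit 58) (nat_lit 1) (.n (nat_lit 61) (nat_lit 1) (.n (nat_lit 63) (nat_lit 1) (.n (nat_lit 69) (nat_lit 1) (.p (nat_lit 327) (nat_lit 2) (.n (nat_lit 328) (nat_lit 2) (.n (nat_lit 330) (nat_lit 8) (.p (nat_lit 331) (nat_lit 6) (.p (nat_lit 332) (nat_lit 3) (.p (nat_lit 333) (nat_lit 2) (.p (nat_lit 334) (nat_lit 3) (.p (nat_lit 335) (nat_lit 1) (.n (nat_lit 336) (nat_lit 2) (.p (nat_lit 337) (nat_lit 4) (.n (nat_lit 338) (nat_lit 3) (.n (nat_lit 339) (nat_lit 3) (.n (nat_lit 340) (nat_lit 3) (.p (nat_lit 341) (nat_lit 2) (.n (nat_lit 342) (nat_lit 1) (.n (nat_lit 343) (nat_lit 3) (.n (nat_lit 344) (nat_lit 1) (.n (nat_lit 345) (nat_lit 3) (.n (nat_lit 346) (nat_lit 3) (.n (nat_lit 347) (nat_lit 4) (.p (nat_lit 348) (nat_lit 1) (.p (nat_lit 349) (nat_lit 2) (.n (nat_lit 350) (nat_lit 1) (.n (nat_lit 351) (nat_lit 2) .z)))))))))))))))))))))))))))))))))))))))))))))))))))))))))))) (.u (nat_lit 2) (.n (nat_lit 352) (nat_lit 2) (.n (nat_lit 353) (nat_lit 1) (.n (nat_lit 354) (nat_lit 4) (.p (nat_lit 355) (nat_lit 2) (.p (nat_lit 356) (nat_lit 1) (.p (nat_lit 358) (nat_lit 2) (.n (nat_lit 359) (nat_lit 1) (.n (nat_lit 360) (nat_lit 2) (.p (nat_lit 361) (nat_lit 4) (.n (nat_lit 362) (nat_lit 3) (.p (nat_lit 363) (nat_lit 2) (.n (nat_lit 366) (nat_lit 3) (.n (nat_lit 368) (nat_lit 1) (.n (nat_lit 370) (nat_lit 1) (.p (nat_lit 372) (nat_lit 1) (.p (nat_lit 373) (nat_lit 3) (.n (nat_lit 374) (nat_lit 1) .z))))))))))))))))) .nil))))))))))))))))))))))))) (.nd (.nd .leaf (nat_lit 74770) (nat_lit 1513) (.p (nat_lit 460) (nat_lit 2) (.p (nat_lit 461) (nat_lit 2) (.p (nat_lit 462) (nat_lit 1) (.p (nat_lit 463) (nat_lit 3) (.p (nat_lit 464) (nat_lit 3) (.p (nat_lit 465) (nat_lit 1) (.p (nat_lit 468) (nat_lit 1) (.p (nat_lit 469) (nat_lit 3) (.n (nat_lit 470) (nat_lit 1) (.p (nat_lit 471) (nat_lit 1) (.p (nat_lit 472) (nat_lit 1) (.n (nat_lit 473) (nat_lit 2) (.n (nat_lit 474) (nat_lit 2) (.n (nat_lit 475) (nat_lit 3) (.n (nat_lit 476) (nat_lit 1) (.p (nat_lit 477) (nat_lit 3) (.n (nat_lit 479) (nat_lit 3) (.n (nat_lit 489) (nat_lit 2) (.p (nat_lit 493) (nat_lit 1) .z))))))))))))))))))) (.ct dC1b_c293 (nat_lit 1) (nat_lit 3) (.s true (nat_lit 1) (nat_lit 18) (nat_lit 0) (nat_lit 5) (nat_lit 5) true (nat_lit 7) true (nat_lit 10) true (nat_lit 3) true (nat_lit 15) true (nat_lit 10) (.s false (nat_lit 1) (nat_lit 18) (nat_lit 5) (nat_lit 5) (nat_lit 0) true (nat_lit 7) true (nat_lit 15) true (nat_lit 3) true (nat_lit 10) true (nat_lit 10) dC1b_i79))) .leaf) (nat_lit 75776) (nat_lit 183) (.p (nat_lit 126) (nat_lit 1) .z) .df .leaf))) (nat_lit 75778) (nat_lit 279) (.p (nat_lit 161) (nat_lit 1) .z) .df (.nd (.nd (.nd (.nd .leaf (nat_lit 75780) (nat_lit 489) (.p (nat_lit 212) (nat_lit 3) (.n (nat_lit 213) (nat_lit 2) (.n (nat_lit 215) (nat_lit 2) (.p (nat_lit 217) (nat_lit 1) (.n (nat_lit 218) (nat_lit 2) (.n (nat_lit 219) (nat_lit 3) (.n (nat_lit 220) (nat_lit 2) (.p (nat_lit 221) (nat_lit 1) (.n (nat_lit 224) (nat_lit 2) (.p (nat_lit 225) (nat_lit 3) (.p (nat_lit 226) (nat_lit 3) (.p (nat_lit 227) (nat_lit 1) (.p (nat_lit 228) (nat_lit 2) (.n (nat_lit 229) (nat_lit 3) (.p (nat_lit 230) (nat_lit 3) (.n (nat_lit 231) (nat_lit 3) (.p (nat_lit 232) (nat_lit 3) (.n (nat_lit 233) (nat_lit 1) (.p (nat_lit 234) (nat_lit 2) (.n (nat_lit 235) (nat_lit 2) (.p (nat_lit 236) (nat_lit 3) (.n (nat_lit 237) (nat_lit 1) (.p (nat_lit 238) (nat_lit 2) (.p (nat_lit 239) (nat_lit 2) (.p (nat_lit 240) (nat_lit 3) (.p (nat_lit 241) (nat_lit 3) (.n (nat_lit 242) (nat_lit 3) (.p (nat_lit 243) (nat_lit 3) (.n (nat_lit 245) (nat_lit 3) (.n (nat_lit 246) (nat_lit 3) (.n (nat_lit 248) (nat_lit 2) (.n (nat_lit 249) (nat_lit 2) (.p (nat_lit 253) (nat_lit 2) .z))))))))))))))))))))))))))))))))) (.ct dC1b_c547 (nat_lit 1) (nat_lit 10) (.s true (nat_lit 1) (nat_lit 7) (nat_lit 2) (nat_lit 6) (nat_lit 1) true (nat_lit 9) true (nat_lit 13) true (nat_lit 7) true (nat_lit 12) true (nat_lit 8) (.s false (nat_lit 1) (nat_lit 8) (nat_lit 2) (nat_lit 6) (nat_lit 0) true (nat_lit 10) true (nat_lit 14) true (nat_lit 6) true (nat_lit 12) true (nat_lit 8) (.s true (nat_lit 1) (nat_lit 42) (nat_lit 1) (nat_lit 0) (nat_lit 1) false (nat_lit 16) true (nat_lit 13) false (nat_lit 6) true (nat_lit 13) true (nat_lit 14) (.s true (nat_lit 1) (nat_lit 45) (nat_lit 0) (nat_lit 1) (nat_lit 0) false (nat_lit 15) true (nat_lit 14) false (nat_lit 7) true (nat_lit 14) true (nat_lit 13) (.e false (nat_lit 1) (nat_lit 65) (nat_lit 5) (nat_lit 9) (.e true (nat_lit 2) (nat_lit 149) (nat_lit 1) (nat_lit 13) (.e false (nat_lit 1) (nat_lit 124) (nat_lit 2) (nat_lit 12) (.e false (nat_lit 2) (nat_lit 170) (nat_lit 0) (nat_lit 14) (.e true (nat_lit 1) (nat_lit 126) (nat_lit 2) (nat_lit 12) (.e false (nat_lit 1) (nat_lit 142) (nat_lit 1) (nat_lit 13) (.e true (nat_lit 1) (nat_lit 161) (nat_lit 0) (nat_lit 14) (.u (nat_lit 2) (.p (nat_lit 0) (nat_lit 1) (.p (nat_lit 1) (nat_lit 1) (.n (nat_lit 2) (nat_lit 1) (.p (nat_lit 3) (nat_lit 1) (.n (nat_lit 4) (nat_lit 1) (.n (nat_lit 5) (nat_lit 1) (.n (nat_lit 6) (nat_lit 1) (.p (nat_lit 8) (nat_lit 1) (.p (nat_lit 9) (nat_lit 1) (.n (nat_lit 10) (nat_lit 1) (.p (nat_lit 12) (nat_lit 1) (.p (nat_lit 19) (nat_lit 1) (.p (nat_lit 21) (nat_lit 1) (.p (nat_lit 23) (nat_lit 2) (.p (nat_lit 25) (nat_lit 2) (.n (nat_lit 27) (nat_lit 1) (.p (nat_lit 30) (nat_lit 1) (.n (nat_lit 31) (nat_lit 1) (.p (nat_lit 33) (nat_lit 1) (.n (nat_lit 161) (nat_lit 2) (.n (nat_lit 162) (nat_lit 2) (.n (nat_lit 163) (nat_lit 2) (.n (nat_lit 164) (nat_lit 1) (.n (nat_lit 165) (nat_lit 1) (.p (nat_lit 167) (nat_lit 3) (.n (nat_lit 168) (nat_lit 1) (.p (nat_lit 171) (nat_lit 1) (.n (nat_lit 172) (nat_lit 1) (.p (nat_lit 173) (nat_lit 1) (.p (nat_lit 174) (nat_lit 1) (.p (nat_lit 180) (nat_lit 2) (.n (nat_lit 182) (nat_lit 1) (.n (nat_lit 183) (nat_lit 1) (.p (nat_lit 184) (nat_lit 1) (.n (nat_lit 185) (nat_lit 1) (.p (nat_lit 188) (nat_lit 1) (.n (nat_lit 189) (nat_lit 1) (.n (nat_lit 190) (nat_lit 1) (.p (nat_lit 191) (nat_lit 1) (.p (nat_lit 196) (nat_lit 1) (.n (nat_lit 200) (nat_lit 2) .z))))))))))))))))))))))))))))))))))))))))) .nil))))))))))))) .leaf) (nat_lit 75782) (nat_lit 717) (.p (nat_lit 307) (nat_lit 2) .z) (.ct dC1b_c292 (nat_lit 1) (nat_lit 6) (.s true (nat_lit 3) (nat_lit 8) (nat_lit 2) (nat_lit 6) (nat_lit 2) true (nat_lit 6) true (nat_lit 10) true (nat_lit 5) true (nat_lit 10) true (nat_lit 6) (.s true (nat_lit 3) (nat_lit 8) (nat_lit 6) (nat_lit 2) (nat_lit 2) true (nat_lit 0) true (nat_lit 10) true (nat_lit 5) true (nat_lit 6) true (nat_lit 10) (.e true (nat_lit 2) (nat_lit 170) (nat_lit 2) (nat_lit 10) (.e true (nat_lit 3) (nat_lit 66) (nat_lit 6) (nat_lit 6) (.e false (nat_lit 3) (nat_lit 24) (nat_lit 18) (nat_lit 0) (.u (nat_lit 2) (.n (nat_lit 17) (nat_lit 1) (.p (nat_lit 73) (nat_lit 1) (.n (nat_lit 113) (nat_lit 1) .z))) .nil))))))) .leaf) (nat_lit 75790) (nat_lit 1119) (.p (nat_lit 355) (nat_lit 1) (.n (nat_lit 356) (nat_lit 2) (.n (nat_lit 357) (nat_lit 2) (.p (nat_lit 358) (nat_lit 3) (.p (nat_lit 359) (nat_lit 2) (.p (nat_lit 360) (nat_lit 2) (.p (nat_lit 361) (nat_lit 2) (.n (nat_lit 362) (nat_lit 2) (.p (nat_lit 363) (nat_lit 3) (.n (nat_lit 364) (nat_lit 2) (.p (nat_lit 365) (nat_lit 1) (.p (nat_lit 366) (nat_lit 1) (.p (nat_lit 367) (nat_lit 1) (.p (nat_lit 369) (nat_lit 3) (.p (nat_lit 370) (nat_lit 3) (.p (nat_lit 372) (nat_lit 2) (.p (nat_lit 373) (nat_lit 3) (.p (nat_lit 374) (nat_lit 2) (.n (nat_lit 379) (nat_lit 1) (.n (nat_lit 380) (nat_lit 1) (.p (nat_lit 381) (nat_lit 3) (.n (nat_lit 382) (nat_lit 1) (.p (nat_lit 383) (nat_lit 2) (.p (nat_lit 384) (nat_lit 2) (.n (nat_lit 385) (nat_lit 3) (.n (nat_lit 386) (nat_lit 3) (.n (nat_lit 387) (nat_lit 2) (.p (nat_lit 389) (nat_lit 1) (.p (nat_lit 390) (nat_lit 1) (.n (nat_lit 391) (nat_lit 1) (.p (nat_lit 394) (nat_lit 2) (.n (nat_lit 395) (nat_lit 1) (.p (nat_lit 400) (nat_lit 1) (.p (nat_lit 401) (nat_lit 2) (.n (nat_lit 422) (nat_lit 1) .z))))))))))))))))))))))))))))))))))) (.ct dC1b_c548 (nat_lit 1) (nat_lit 7) (.s false (nat_lit 1) (nat_lit 74) (nat_lit 2) (nat_lit 0) (nat_lit 2) true (nat_lit 13) true (nat_lit 17) false (nat_lit 7) true (nat_lit 17) true (nat_lit 19) (.e true (nat_lit 1) (nat_lit 126) (nat_lit 6) (nat_lit 13) (.e false (nat_lit 3) (nat_lit 220) (nat_lit 2) (nat_lit 17) (.e true (nat_lit 3) (nat_lit 212) (nat_lit 2) (nat_lit 17) (.e false (nat_lit 2) (nat_lit 213) (nat_lit 2) (nat_lit 17) (.e false (nat_lit 2) (nat_lit 215) (nat_lit 2) (nat_lit 17) (.e true (nat_lit 1) (nat_lit 217) (nat_lit 2) (nat_lit 17) (.e false (nat_lit 2) (nat_lit 218) (nat_lit 2) (nat_lit 17) (.e false (nat_lit 3) (nat_lit 219) (nat_lit 2) (nat_lit 17) (.e true (nat_lit 1) (nat_lit 221) (nat_lit 2) (nat_lit 17) (.e false (nat_lit 2) (nat_lit 224) (nat_lit 2) (nat_lit 17) (.e true (nat_lit 3) (nat_lit 225) (nat_lit 2) (nat_lit 17) dC1b_i80))))))))))))) (.nd (.nd .leaf (nat_lit 75791) (nat_lit 1115) (.n (nat_lit 355) (nat_lit 3) (.n (nat_lit 356) (nat_lit 1) (.p (nat_lit 357) (nat_lit 3) (.n (nat_lit 359) (nat_lit 1) (.n (nat_lit 361) (nat_lit 3) (.p (nat_lit 362) (nat_lit 3) (.n (nat_lit 363) (nat_lit 1) (.p (nat_lit 364) (nat_lit 3) (.n (nat_lit 365) (nat_lit 1) (.n (nat_lit 366) (nat_lit 1) (.n (nat_lit 367) (nat_lit 3) (.p (nat_lit 369) (nat_lit 3) (.n (nat_lit 370) (nat_lit 2) (.p (nat_lit 372) (nat_lit 3) (.n (nat_lit 373) (nat_lit 1) (.p (nat_lit 374) (nat_lit 2) (.p (nat_lit 375) (nat_lit 1) (.n (nat_lit 379) (nat_lit 2) (.n (nat_lit 380) (nat_lit 2) (.n (nat_lit 381) (nat_lit 2) (.p (nat_lit 382) (nat_lit 2) (.n (nat_lit 383) (nat_lit 1) (.n (nat_lit 384) (nat_lit 3) (.p (nat_lit 385) (nat_lit 3) (.n (nat_lit 386) (nat_lit 1) (.p (nat_lit 387) (nat_lit 2) (.n (nat_lit 388) (nat_lit 1) (.n (nat_lit 390) (nat_lit 2) (.n (nat_lit 391) (nat_lit 3) (.n (nat_lit 394) (nat_lit 2) (.p (nat_lit 395) (nat_lit 1) (.p (nat_lit 400) (nat_lit 2) (.n (nat_lit 401) (nat_lit 3) (.n (nat_lit 422) (nat_lit 2) .z)))))))))))))))))))))))))))))))))) (.ct dC1b_c548 (nat_lit 1) (nat_lit 7) (.s true (nat_lit 1) (nat_lit 8) (nat_lit 0) (nat_lit 6) (nat_lit 6) true (nat_lit 7) true (nat_lit 13) true (nat_lit 11) true (nat_lit 19) true (nat_lit 13) (.e true (nat_lit 1) (nat_lit 129) (nat_lit 6) (nat_lit 13) (.e false (nat_lit 2) (nat_lit 99) (nat_lit 8) (nat_lit 11) (.e false (nat_lit 2) (nat_lit 100) (nat_lit 8) (nat_lit 11) (.e false (nat_lit 1) (nat_lit 126) (nat_lit 6) (nat_lit 13) (.u (nat_lit 2) (.p (nat_lit 0) (nat_lit 1) (.n (nat_lit 1) (nat_lit 1) (.p (nat_lit 3) (nat_lit 1) (.p (nat_lit 4) (nat_lit 1) (.n (nat_lit 9) (nat_lit 1) (.n (nat_lit 11) (nat_lit 1) (.p (nat_lit 14) (nat_lit 1) (.p (nat_lit 15) (nat_lit 1) (.p (nat_lit 18) (nat_lit 1) (.n (nat_lit 19) (nat_lit 1) (.p (nat_lit 27) (nat_lit 1) (.p (nat_lit 28) (nat_lit 1) (.p (nat_lit 29) (nat_lit 2) (.n (nat_lit 30) (nat_lit 1) (.p (nat_lit 31) (nat_lit 1) (.n (nat_lit 32) (nat_lit 1) (.n (nat_lit 34) (nat_lit 1) (.n (nat_lit 35) (nat_lit 1) (.p (nat_lit 36) (nat_lit 2) (.n (nat_lit 38) (nat_lit 2) (.n (nat_lit 40) (nat_lit 1) (.n (nat_lit 41) (nat_lit 2) (.p (nat_lit 67) (nat_lit 1) .z))))))))))))))))))))))) .nil))))))) .leaf) (nat_lit 75794) (nat_lit 1428) (.n (nat_lit 489) (nat_lit 2) (.p (nat_lit 493) (nat_lit 1) .z)) (.ct dC1b_c293 (nat_lit 1) (nat_lit 3) (.s true (nat_lit 1) (nat_lit 8) (nat_lit 2) (nat_lit 6) (nat_lit 6) true (nat_lit 3) true (nat_lit 9) true (nat_lit 8) true (nat_lit 13) true (nat_lit 9) (.e true (nat_lit 1) (nat_lit 170) (nat_lit 6) (nat_lit 9) (.e false (nat_lit 1) (nat_lit 161) (nat_lit 6) (nat_lit 9) .nil)))) .leaf)) (nat_lit 76800) (nat_lit 184) (.p (nat_lit 127) (nat_lit 1) .z) .df (.nd (.nd (.nd .leaf (nat_lit 76802) (nat_lit 280) (.p (nat_lit 162) (nat_lit 1) .z) .df .leaf) (nat_lit 76804) (nat_lit 564) (.n (nat_lit 212) (nat_lit 2) (.n (nat_lit 213) (nat_lit 2) (.p (nat_lit 215) (nat_lit 3) (.n (nat_lit 217) (nat_lit 3) (.n (nat_lit 218) (nat_lit 3) (.p (nat_lit 219) (nat_lit 3) (.p (nat_lit 220) (nat_lit 1) (.n (nat_lit 221) (nat_lit 1) (.p (nat_lit 222) (nat_lit 2) (.p (nat_lit 223) (nat_lit 2) (.p (nat_lit 224) (nat_lit 3) (.p (nat_lit 227) (nat_lit 2) (.p (nat_lit 229) (nat_lit 3) (.n (nat_lit 231) (nat_lit 1) (.p (nat_lit 232) (nat_lit 3) (.n (nat_lit 233) (nat_lit 1) (.p (nat_lit 234) (nat_lit 2) (.p (nat_lit 235) (nat_lit 1) (.p (nat_lit 236) (nat_lit 3) (.n (nat_lit 238) (nat_lit 2) (.n (nat_lit 239) (nat_lit 3) (.p (nat_lit 241) (nat_lit 2) (.p (nat_lit 242) (nat_lit 3) (.n (nat_lit 243) (nat_lit 3) (.p (nat_lit 244) (nat_lit 1) (.p (nat_lit 245) (nat_lit 3) (.p (nat_lit 248) (nat_lit 3) (.n (nat_lit 255) (nat_lit 1) .z)))))))))))))))))))))))))))) (.ct dC1b_c547 (nat_lit 1) (nat_lit 10) (.s false (nat_lit 1) (nat_lit 10) (nat_lit 4) (nat_lit 1) (nat_lit 2) true (nat_lit 2) true (nat_lit 12) true (nat_lit 4) true (nat_lit 10) true (nat_lit 13) (.e true (nat_lit 1) (nat_lit 25) (nat_lit 14) (nat_lit 2) (.e true (nat_lit 1) (nat_lit 115) (nat_lit 2) (nat_lit 12) (.e false (nat_lit 1) (nat_lit 116) (nat_lit 2) (nat_lit 12) (.e true (nat_lit 3) (nat_lit 117) (nat_lit 2) (nat_lit 12) (.e true (nat_lit 1) (nat_lit 118) (nat_lit 2) (nat_lit 12) dC1b_i81))))))) .leaf) (nat_lit 76806) (nat_lit 723) (.n (nat_lit 290) (nat_lit 2) (.p (nat_lit 291) (nat_lit 1) (.p (nat_lit 292) (nat_lit 1) (.n (nat_lit 293) (nat_lit 1) (.n (nat_lit 294) (nat_lit 2) (.p (nat_lit 298) (nat_lit 1) (.p (nat_lit 299) (nat_lit 2) (.p (nat_lit 301) (nat_lit 3) (.p (nat_lit 304) (nat_lit 3) (.p (nat_lit 307) (nat_lit 1) (.n (nat_lit 308) (nat_lit 2) (.n (nat_lit 310) (nat_lit 1) .z)))))))))))) (.ct dC1b_c292 (nat_lit 1) (nat_lit 6) (.s true (nat_lit 1) (nat_lit 10) (nat_lit 1) (nat_lit 2) (nat_lit 6) true (nat_lit 1) true (nat_lit 6) true (nat_lit 4) true (nat_lit 11) true (nat_lit 10) (.s false (nat_lit 1) (nat_lit 10) (nat_lit 2) (nat_lit 5) (nat_lit 2) true (nat_lit 6) true (nat_lit 10) true (nat_lit 4) true (nat_lit 10) true (nat_lit 7) (.s false (nat_lit 1) (nat_lit 10) (nat_lit 2) (nat_lit 6) (nat_lit 1) true (nat_lit 7) true (nat_lit 11) true (nat_lit 4) true (nat_lit 10) true (nat_lit 6) (.s true (nat_lit 1) (nat_lit 10) (nat_lit 5) (nat_lit 2) (nat_lit 2) true (nat_lit 1) true (nat_lit 10) true (nat_lit 4) true (nat_lit 7) true (nat_lit 10) (.s true (nat_lit 2) (nat_lit 17) (nat_lit 2) (nat_lit 3) (nat_lit 2) true (nat_lit 6) true (nat_lit 10) true (nat_lit 1) true (nat_lit 10) true (nat_lit 9) (.s true (nat_lit 1) (nat_lit 17) (nat_lit 3) (nat_lit 2) (nat_lit 2) true (nat_lit 4) true (nat_lit 10) true (nat_lit 1) true (nat_lit 9) true (nat_lit 10) (.s true (nat_lit 2) (nat_lit 18) (nat_lit 1) (nat_lit 2) (nat_lit 3) true (nat_lit 5) true (nat_lit 9) true (nat_lit 0) true (nat_lit 11) true (nat_lit 10) dC1b_i82)))))))) (.nd (.nd .leaf (nat_lit 76814) (nat_lit 1182) (.p (nat_lit 355) (nat_lit 3) (.p (nat_lit 356) (nat_lit 1) (.n (nat_lit 357) (nat_lit 3) (.n (nat_lit 359) (nat_lit 1) (.p (nat_lit 360) (nat_lit 2) (.n (nat_lit 361) (nat_lit 3) (.n (nat_lit 362) (nat_lit 2) (.p (nat_lit 363) (nat_lit 2) (.p (nat_lit 364) (nat_lit 1) (.n (nat_lit 365) (nat_lit 1) (.n (nat_lit 366) (nat_lit 1) (.n (nat_lit 367) (nat_lit 3) (.n (nat_lit 368) (nat_lit 2) (.n (nat_lit 369) (nat_lit 3) (.n (nat_lit 370) (nat_lit 1) (.n (nat_lit 373) (nat_lit 2) (.p (nat_lit 374) (nat_lit 3) (.n (nat_lit 378) (nat_lit 1) (.p (nat_lit 379) (nat_lit 1) (.p (nat_lit 381) (nat_lit 1) (.n (nat_lit 382) (nat_lit 3) (.n (nat_lit 383) (nat_lit 2) (.n (nat_lit 384) (nat_lit 3) (.p (nat_lit 385) (nat_lit 2) (.n (nat_lit 386) (nat_lit 3) (.p (nat_lit 387) (nat_lit 3) (.p (nat_lit 388) (nat_lit 1) (.n (nat_lit 389) (nat_lit 1) (.n (nat_lit 391) (nat_lit 1) (.p (nat_lit 392) (nat_lit 1) (.n (nat_lit 394) (nat_lit 3) (.p (nat_lit 395) (nat_lit 2) (.n (nat_lit 396) (nat_lit 1) (.p (nat_lit 398) (nat_lit 1) (.n (nat_lit 399) (nat_lit 3) (.p (nat_lit 400) (nat_lit 3) (.n (nat_lit 402) (nat_lit 1) (.p (nat_lit 403) (nat_lit 1) (.n (nat_lit 404) (nat_lit 1) (.p (nat_lit 405) (nat_lit 2) (.n (nat_lit 406) (nat_lit 1) (.p (nat_lit 408) (nat_lit 2) (.n (nat_lit 409) (nat_lit 1) (.n (nat_lit 412) (nat_lit 2) (.p (nat_lit 413) (nat_lit 1) (.p (nat_lit 414) (nat_lit 1) (.p (nat_lit 415) (nat_lit 1) (.p (nat_lit 416) (nat_lit 1) (.n (nat_lit 417) (nat_lit 1) (.n (nat_lit 418) (nat_lit 1) (.n (nat_lit 421) (nat_lit 1) (.n (nat_lit 424) (nat_lit 1) .z)))))))))))))))))))))))))))))))))))))))))))))))))))) (.ct dC1b_c548 (nat_lit 1) (nat_lit 7) (.s false (nat_lit 1) (nat_lit 14) (nat_lit 1) (nat_lit 2) (nat_lit 10) true (nat_lit 2) true (nat_lit 9) true (nat_lit 7) true (nat_lit 18) true (nat_lit 17) (.e false (nat_lit 1) (nat_lit 40) (nat_lit 25) (nat_lit 2) dC1b_i84))) .leaf) (nat_lit 76818) (nat_lit 1476) (.p (nat_lit 467) (nat_lit 2) (.p (nat_lit 468) (nat_lit 1) (.n (nat_lit 471) (nat_lit 2) (.p (nat_lit 472) (nat_lit 3) (.p (nat_lit 473) (nat_lit 1) (.p (nat_lit 474) (nat_lit 1) (.n (nat_lit 476) (nat_lit 1) (.n (nat_lit 477) (nat_lit 1) (.p (nat_lit 479) (nat_lit 1) (.p (nat_lit 489) (nat_lit 1) (.p (nat_lit 493) (nat_lit 3) .z))))))))))) (.ct dC1b_c293 (nat_lit 1) (nat_lit 3) dC1b_i85) .leaf))))))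

noncomputable def dC1b_t4 : Tr := (.nd (.nd (.nd (.nd (.nd (.nd (.nd .leaf (nat_lit 77826) (nat_lit 281) (.p (nat_lit 163) (nat_lit 1) .z) .df .leaf) (nat_lit 77828) (nat_lit 570) (.p (nat_lit 212) (nat_lit 2) (.p (nat_lit 213) (nat_lit 1) (.n (nat_lit 214) (nat_lit 3) (.n (nat_lit 215) (nat_lit 2) (.n (nat_lit 216) (nat_lit 1) (.n (nat_lit 217) (nat_lit 2) (.p (nat_lit 218) (nat_lit 3) (.p (nat_lit 219) (nat_lit 1) (.n (nat_lit 221) (nat_lit 2) (.n (nat_lit 222) (nat_lit 3) (.p (nat_lit 223) (nat_lit 3) (.p (nat_lit 224) (nat_lit 3) (.n (nat_lit 225) (nat_lit 1) (.n (nat_lit 226) (nat_lit 3) (.n (nat_lit 227) (nat_lit 1) (.n (nat_lit 228) (nat_lit 3) (.p (nat_lit 229) (nat_lit 2) (.p (nat_lit 230) (nat_lit 3) (.n (nat_lit 231) (nat_lit 2) (.n (nat_lit 232) (nat_lit 2) (.n (nat_lit 233) (nat_lit 2) (.n (nat_lit 235) (nat_lit 1) (.p (nat_lit 236) (nat_lit 2) (.p (nat_lit 237) (nat_lit 3) (.p (nat_lit 239) (nat_lit 3) (.p (nat_lit 240) (nat_lit 2) (.n (nat_lit 241) (nat_lit 2) (.n (nat_lit 242) (nat_lit 1) (.p (nat_lit 243) (nat_lit 3) (.p (nat_lit 244) (nat_lit 1) (.p (nat_lit 245) (nat_lit 3) (.p (nat_lit 248) (nat_lit 1) (.n (nat_lit 251) (nat_lit 3) (.n (nat_lit 255) (nat_lit 1) (.p (nat_lit 256) (nat_lit 3) .z))))))))))))))))))))))))))))))))))) (.ct dC1b_c547 (nat_lit 1) (nat_lit 10) (.s false (nat_lit 1) (nat_lit 13) (nat_lit 2) (nat_lit 4) (nat_lit 0) true (nat_lit 10) true (nat_lit 14) true (nat_lit 3) true (nat_lit 12) true (nat_lit 10) (.e true (nat_lit 1) (nat_lit 71) (nat_lit 4) (nat_lit 10) (.e false (nat_lit 1) (nat_lit 72) (nat_lit 4) (nat_lit 10) (.e true (nat_lit 3) (nat_lit 153) (nat_lit 0) (nat_lit 14) dC1b_i86))))) (.nd .leaf (nat_lit 77830) (nat_lit 767) (.p (nat_lit 290) (nat_lit 1) (.p (nat_lit 291) (nat_lit 2) (.n (nat_lit 293) (nat_lit 3) (.p (nat_lit 295) (nat_lit 3) (.p (nat_lit 296) (nat_lit 2) (.n (nat_lit 297) (nat_lit 2) (.n (nat_lit 298) (nat_lit 1) (.p (nat_lit 300) (nat_lit 2) (.n (nat_lit 301) (nat_lit 3) (.n (nat_lit 304) (nat_lit 2) (.p (nat_lit 307) (nat_lit 1) (.p (nat_lit 308) (nat_lit 2) (.n (nat_lit 309) (nat_lit 3) (.n (nat_lit 316) (nat_lit 3) (.n (nat_lit 317) (nat_lit 3) (.p (nat_lit 318) (nat_lit 3) .z)))))))))))))))) (.ct dC1b_c292 (nat_lit 1) (nat_lit 6) (.s true (nat_lit 1) (nat_lit 11) (nat_lit 6) (nat_lit 1) (nat_lit 2) true (nat_lit 0) true (nat_lit 10) true (nat_lit 4) true (nat_lit 6) true (nat_lit 11) (.e false (nat_lit 1) (nat_lit 26) (nat_lit 18) (nat_lit 0) (.e true (nat_lit 1) (nat_lit 168) (nat_lit 2) (nat_lit 10) (.e false (nat_lit 1) (nat_lit 44) (nat_lit 11) (nat_lit 4) (.e false (nat_lit 1) (nat_lit 193) (nat_lit 1) (nat_lit 11) (.u (nat_lit 2) (.p (nat_lit 3) (nat_lit 1) (.n (nat_lit 5) (nat_lit 1) (.n (nat_lit 6) (nat_lit 1) (.p (nat_lit 7) (nat_lit 1) (.p (nat_lit 26) (nat_lit 1) (.p (nat_lit 27) (nat_lit 1) (.n (nat_lit 28) (nat_lit 1) .z))))))) .nil))))))) .leaf)) (nat_lit 77838) (nat_lit 1180) (.p (nat_lit 355) (nat_lit 2) (.p (nat_lit 356) (nat_lit 1) (.p (nat_lit 357) (nat_lit 2) (.p (nat_lit 358) (nat_lit 3) (.p (nat_lit 359) (nat_lit 1) (.n (nat_lit 360) (nat_lit 3) (.n (nat_lit 361) (nat_lit 3) (.p (nat_lit 362) (nat_lit 2) (.n (nat_lit 363) (nat_lit 3) (.p (nat_lit 364) (nat_lit 1) (.n (nat_lit 366) (nat_lit 1) (.p (nat_lit 367) (nat_lit 2) (.p (nat_lit 368) (nat_lit 1) (.p (nat_lit 369) (nat_lit 3) (.n (nat_lit 370) (nat_lit 1) (.n (nat_lit 371) (nat_lit 1) (.n (nat_lit 372) (nat_lit 3) (.p (nat_lit 374) (nat_lit 3) (.p (nat_lit 375) (nat_lit 1) (.n (nat_lit 382) (nat_lit 3) (.n (nat_lit 383) (nat_lit 3) (.p (nat_lit 384) (nat_lit 3) (.p (nat_lit 386) (nat_lit 1) (.n (nat_lit 389) (nat_lit 1) (.p (nat_lit 390) (nat_lit 3) (.n (nat_lit 391) (nat_lit 1) (.n (nat_lit 392) (nat_lit 3) (.n (nat_lit 393) (nat_lit 3) (.n (nat_lit 395) (nat_lit 1) (.n (nat_lit 396) (nat_lit 2) (.p (nat_lit 398) (nat_lit 1) (.n (nat_lit 399) (nat_lit 3) (.p (nat_lit 400) (nat_lit 3) (.n (nat_lit 402) (nat_lit 1) (.p (nat_lit 403) (nat_lit 1) (.p (nat_lit 404) (nat_lit 2) (.p (nat_lit 405) (nat_lit 3) (.n (nat_lit 406) (nat_lit 2) (.p (nat_lit 408) (nat_lit 1) (.n (nat_lit 409) (nat_lit 3) (.n (nat_lit 410) (nat_lit 3) (.n (nat_lit 413) (nat_lit 1) (.p (nat_lit 414) (nat_lit 1) (.p (nat_lit 415) (nat_lit 1) (.p (nat_lit 416) (nat_lit 1) (.n (nat_lit 417) (nat_lit 1) (.n (nat_lit 421) (nat_lit 1) .z))))))))))))))))))))))))))))))))))))))))))))))) (.ct dC1b_c548 (nat_lit 1) (nat_lit 7) (.s false (nat_lit 1) (nat_lit 14) (nat_lit 1) (nat_lit 2) (nat_lit 11) true (nat_lit 2) true (nat_lit 9) true (nat_lit 7) true (nat_lit 18) true (nat_lit 17) (.e false (nat_lit 1) (nat_lit 40) (nat_lit 26) (nat_lit 2) (.e false (nat_lit 1) (nat_lit 85) (nat_lit 11) (nat_lit 9) (.e true (nat_lit 2) (nat_lit 260) (nat_lit 1) (nat_lit 18) (.e false (nat_lit 2) (nat_lit 261) (nat_lit 1) (nat_lit 18) (.e true (nat_lit 3) (nat_lit 262) (nat_lit 1) (nat_lit 18) (.e false (nat_lit 1) (nat_lit 265) (nat_lit 1) (nat_lit 18) (.e false (nat_lit 1) (nat_lit 266) (nat_lit 1) (nat_lit 18) (.e true (nat_lit 2) (nat_lit 267) (nat_lit 1) (nat_lit 18) (.e true (nat_lit 3) (nat_lit 268) (nat_lit 1) (nat_lit 18) (.e true (nat_lit 1) (nat_lit 269) (nat_lit 1) (nat_lit 18) (.e false (nat_lit 1) (nat_lit 270) (nat_lit 1) (nat_lit 18) (.e false (nat_lit 3) (nat_lit 271) (nat_lit 1) (nat_lit 18) (.e true (nat_lit 3) (nat_lit 272) (nat_lit 1) (nat_lit 18) (.e true (nat_lit 1) (nat_lit 274) (nat_lit 1) (nat_lit 18) (.e true (nat_lit 2) (nat_lit 277) (nat_lit 1) (nat_lit 18) (.e false (nat_lit 2) (nat_lit 278) (nat_lit 1) (nat_lit 18) (.e true (nat_lit 1) (nat_lit 279) (nat_lit 1) (nat_lit 18) (.e false (nat_lit 1) (nat_lit 280) (nat_lit 1) (nat_lit 18) (.e false (nat_lit 1) (nat_lit 284) (nat_lit 1) (nat_lit 18) (.e true (nat_lit 3) (nat_lit 286) (nat_lit 1) (nat_lit 18) (.e true (nat_lit 2) (nat_lit 287) (nat_lit 1) (nat_lit 18) (.e true (nat_lit 2) (nat_lit 288) (nat_lit 1) (nat_lit 18) dC1b_i87)))))))))))))))))))))))) (.nd (.nd .leaf (nat_lit 77842) (nat_lit 1511) (.n (nat_lit 460) (nat_lit 2) (.n (nat_lit 463) (nat_lit 3) (.p (nat_lit 464) (nat_lit 2) (.n (nat_lit 465) (nat_lit 2) (.p (nat_lit 467) (nat_lit 1) (.n (nat_lit 468) (nat_lit 1) (.p (nat_lit 469) (nat_lit 1) (.p (nat_lit 470) (nat_lit 1) (.n (nat_lit 471) (nat_lit 1) (.n (nat_lit 472) (nat_lit 2) (.p (nat_lit 473) (nat_lit 3) (.p (nat_lit 474) (nat_lit 3) (.p (nat_lit 475) (nat_lit 2) (.p (nat_lit 476) (nat_lit 2) (.n (nat_lit 477) (nat_lit 2) (.p (nat_lit 479) (nat_lit 2) (.p (nat_lit 489) (nat_lit 1) (.p (nat_lit 493) (nat_lit 3) .z)))))))))))))))))) (.ct dC1b_c293 (nat_lit 1) (nat_lit 3) (.s true (nat_lit 1) (nat_lit 18) (nat_lit 5) (nat_lit 5) (nat_lit 0) true (nat_lit 7) true (nat_lit 15) true (nat_lit 3) true (nat_lit 10) true (nat_lit 10) (.s true (nat_lit 1) (nat_lit 46) (nat_lit 0) (nat_lit 1) (nat_lit 5) true (nat_lit 7) true (nat_lit 10) false (nat_lit 2) true (nat_lit 15) true (nat_lit 14) (.e false (nat_lit 1) (nat_lit 104) (nat_lit 12) (nat_lit 7) (.e true (nat_lit 1) (nat_lit 351) (nat_lit 0) (nat_lit 15) (.e true (nat_lit 2) (nat_lit 348) (nat_lit 0) (nat_lit 15) (.e true (nat_lit 2) (nat_lit 349) (nat_lit 0) (nat_lit 15) (.e true (nat_lit 1) (nat_lit 352) (nat_lit 0) (nat_lit 15) (.e false (nat_lit 1) (nat_lit 67) (nat_lit 18) (nat_lit 3) (.e true (nat_lit 1) (nat_lit 68) (nat_lit 18) (nat_lit 3) (.e false (nat_lit 2) (nat_lit 69) (nat_lit 18) (nat_lit 3) (.e false (nat_lit 1) (nat_lit 70) (nat_lit 18) (nat_lit 3) (.e true (nat_lit 1) (nat_lit 74) (nat_lit 18) (nat_lit 3) (.e false (nat_lit 1) (nat_lit 75) (nat_lit 18) (nat_lit 3) (.e false (nat_lit 2) (nat_lit 66) (nat_lit 18) (nat_lit 3) (.e true (nat_lit 1) (nat_lit 71) (nat_lit 18) (nat_lit 3) (.e true (nat_lit 1) (nat_lit 190) (nat_lit 5) (nat_lit 10) (.e false (nat_lit 2) (nat_lit 180) (nat_lit 5) (nat_lit 10) (.e false (nat_lit 3) (nat_lit 181) (nat_lit 5) (nat_lit 10) dC1b_i88))))))))))))))))))) .leaf) (nat_lit 78849) (nat_lit 230) (.p (nat_lit 143) (nat_lit 1) .z) .df .leaf)) (nat_lit 78850) (nat_lit 323) (.p (nat_lit 174) (nat_lit 1) .z) .df (.nd (.nd (.nd .leaf (nat_lit 78853) (nat_lit 602) (.p (nat_lit 289) (nat_lit 1) .z) .df .leaf) (nat_lit 78854) (nat_lit 797) (.p (nat_lit 326) (nat_lit 1) .z) .df .leaf) (nat_lit 78861) (nat_lit 988) (.n (nat_lit 393) (nat_lit 1) (.p (nat_lit 399) (nat_lit 1) (.n (nat_lit 424) (nat_lit 1) .z))) (.ct dC1b_c548 (nat_lit 1) (nat_lit 8) (.s false (nat_lit 1) (nat_lit 77) (nat_lit 2) (nat_lit 1) (nat_lit 1) true (nat_lit 14) true (nat_lit 18) false (nat_lit 8) true (nat_lit 17) true (nat_lit 18) (.e true (nat_lit 1) (nat_lit 143) (nat_lit 5) (nat_lit 14) (.e false (nat_lit 1) (nat_lit 281) (nat_lit 1) (nat_lit 18) (.e true (nat_lit 1) (nat_lit 271) (nat_lit 1) (nat_lit 18) .nil))))) (.nd (.nd .leaf (nat_lit 78864) (nat_lit 1335) (.p (nat_lit 426) (nat_lit 3) (.p (nat_lit 427) (nat_lit 2) (.p (nat_lit 428) (nat_lit 2) (.n (nat_lit 429) (nat_lit 2) (.p (nat_lit 430) (nat_lit 3) (.n (nat_lit 431) (nat_lit 3) (.n (nat_lit 432) (nat_lit 1) (.n (nat_lit 433) (nat_lit 1) (.p (nat_lit 434) (nat_lit 2) (.n (nat_lit 435) (nat_lit 2) (.p (nat_lit 436) (nat_lit 1) (.p (nat_lit 438) (nat_lit 3) (.p (nat_lit 441) (nat_lit 1) (.n (nat_lit 452) (nat_lit 1) (.p (nat_lit 456) (nat_lit 2) (.n (nat_lit 459) (nat_lit 1) .z)))))))))))))))) (.ct dC1b_c533 (nat_lit 1) (nat_lit 4) (.s true (nat_lit 1) (nat_lit 77) (nat_lit 1) (nat_lit 2) (nat_lit 2) true (nat_lit 10) true (nat_lit 13) false (nat_lit 4) true (nat_lit 14) true (nat_lit 13) (.e true (nat_lit 1) (nat_lit 174) (nat_lit 5) (nat_lit 10) (.e true (nat_lit 1) (nat_lit 271) (nat_lit 2) (nat_lit 13) (.e false (nat_lit 1) (nat_lit 326) (nat_lit 1) (nat_lit 14) (.e true (nat_lit 1) (nat_lit 281) (nat_lit 2) (nat_lit 13) (.u (nat_lit 2) (.n (nat_lit 1) (nat_lit 1) (.n (nat_lit 4) (nat_lit 1) (.n (nat_lit 12) (nat_lit 1) .z))) .nil))))))) .leaf) (nat_lit 78865) (nat_lit 1338) (.n (nat_lit 426) (nat_lit 2) (.n (nat_lit 427) (nat_lit 1) (.n (nat_lit 428) (nat_lit 1) (.n (nat_lit 429) (nat_lit 2) (.p (nat_lit 430) (nat_lit 1) (.p (nat_lit 431) (nat_lit 3) (.n (nat_lit 432) (nat_lit 3) (.n (nat_lit 433) (nat_lit 3) (.n (nat_lit 434) (nat_lit 2) (.p (nat_lit 435) (nat_lit 3) (.p (nat_lit 436) (nat_lit 1) (.p (nat_lit 438) (nat_lit 2) (.p (nat_lit 441) (nat_lit 1) (.n (nat_lit 442) (nat_lit 3) (.n (nat_lit 443) (nat_lit 1) (.p (nat_lit 444) (nat_lit 2) (.n (nat_lit 445) (nat_lit 3) (.n (nat_lit 452) (nat_lit 2) (.n (nat_lit 456) (nat_lit 1) (.n (nat_lit 459) (nat_lit 3) .z)))))))))))))))))))) (.ct dC1b_c533 (nat_lit 1) (nat_lit 4) (.s false (nat_lit 1) (nat_lit 77) (nat_lit 2) (nat_lit 2) (nat_lit 1) true (nat_lit 10) true (nat_lit 14) false (nat_lit 4) true (nat_lit 13) true (nat_lit 13) (.e false (nat_lit 1) (nat_lit 174) (nat_lit 5) (nat_lit 10) (.e false (nat_lit 1) (nat_lit 320) (nat_lit 1) (nat_lit 14) (.e false (nat_lit 1) (nat_lit 289) (nat_lit 2) (nat_lit 13) (.e true (nat_lit 1) (nat_lit 271) (nat_lit 2) (nat_lit 13) (.u (nat_lit 2) (.p (nat_lit 1) (nat_lit 1) (.p (nat_lit 6) (nat_lit 1) (.p (nat_lit 7) (nat_lit 1) (.p (nat_lit 19) (nat_lit 1) (.p (nat_lit 33) (nat_lit 1) .z))))) .nil))))))) .leaf))) (nat_lit 79873) (nat_lit 231) (.p (nat_lit 144) (nat_lit 1) .z) .df (.nd (.nd (.nd (.nd .leaf (nat_lit 79874) (nat_lit 324) (.p (nat_lit 175) (nat_lit 1) .z) .df .leaf) (nat_lit 79877) (nat_lit 664) (.n (nat_lit 260) (nat_lit 3) (.p (nat_lit 261) (nat_lit 2) (.p (nat_lit 262) (nat_lit 3) (.p (nat_lit 263) (nat_lit 1) (.n (nat_lit 264) (nat_lit 1) (.p (nat_lit 265) (nat_lit 2) (.n (nat_lit 266) (nat_lit 2) (.n (nat_lit 267) (nat_lit 2) (.p (nat_lit 268) (nat_lit 1) (.n (nat_lit 269) (nat_lit 1) (.n (nat_lit 270) (nat_lit 1) (.n (nat_lit 271) (nat_lit 1) (.p (nat_lit 272) (nat_lit 2) (.p (nat_lit 273) (nat_lit 3) (.p (nat_lit 274) (nat_lit 3) (.n (nat_lit 277) (nat_lit 2) (.n (nat_lit 278) (nat_lit 1) (.n (nat_lit 279) (nat_lit 2) (.p (nat_lit 280) (nat_lit 2) (.p (nat_lit 281) (nat_lit 1) (.p (nat_lit 282) (nat_lit 1) (.p (nat_lit 286) (nat_lit 1) (.n (nat_lit 287) (nat_lit 1) (.p (nat_lit 288) (nat_lit 2) (.n (nat_lit 289) (nat_lit 1) .z))))))))))))))))))))))))) (.ct dC1b_c532 (nat_lit 1) (nat_lit 7) dC1b_i89) .leaf) (nat_lit 79878) (nat_lit 803) (.n (nat_lit 320) (nat_lit 2) (.p (nat_lit 323) (nat_lit 1) (.n (nat_lit 324) (nat_lit 1) (.p (nat_lit 325) (nat_lit 3) (.n (nat_lit 326) (nat_lit 1) .z))))) (.ct dC1b_c517 (nat_lit 1) (nat_lit 3) (.s false (nat_lit 2) (nat_lit 9) (nat_lit 2) (nat_lit 6) (nat_lit 2) true (nat_lit 3) true (nat_lit 5) true (nat_lit 2) true (nat_lit 5) true (nat_lit 3) (.s false (nat_lit 2) (nat_lit 9) (nat_lit 6) (nat_lit 2) (nat_lit 2) true (nat_lit 0) true (nat_lit 5) true (nat_lit 2) true (nat_lit 3) true (nat_lit 5) (.s true (nat_lit 3) (nat_lit 18) (nat_lit 0) (nat_lit 6) (nat_lit 0) false (nat_lit 7) true (nat_lit 6) true (nat_lit 0) true (nat_lit 6) true (nat_lit 3) (.s false (nat_lit 3) (nat_lit 30) (nat_lit 2) (nat_lit 2) (nat_lit 2) true (nat_lit 3) true (nat_lit 5) false (nat_lit 0) true (nat_lit 5) true (nat_lit 5) (.e false (nat_lit 1) (nat_lit 77) (nat_lit 6) (nat_lit 3) (.e true (nat_lit 3) (nat_lit 175) (nat_lit 2) (nat_lit 5) (.e false (nat_lit 1) (nat_lit 176) (nat_lit 2) (nat_lit 5) (.e false (nat_lit 1) (nat_lit 178) (nat_lit 2) (nat_lit 5) (.e false (nat_lit 1) (nat_lit 179) (nat_lit 2) (nat_lit 5) (.e true (nat_lit 2) (nat_lit 28) (nat_lit 18) (nat_lit 0) (.e true (nat_lit 2) (nat_lit 174) (nat_lit 2) (nat_lit 5) (.u (nat_lit 2) (.n (nat_lit 1) (nat_lit 1) (.p (nat_lit 2) (nat_lit 1) (.n (nat_lit 3) (nat_lit 1) (.p (nat_lit 20) (nat_lit 1) (.n (nat_lit 22) (nat_lit 1) (.n (nat_lit 27) (nat_lit 1) (.p (nat_lit 28) (nat_lit 2) (.p (nat_lit 29) (nat_lit 2) (.n (nat_lit 30) (nat_lit 3) (.n (nat_lit 31) (nat_lit 1) (.p (nat_lit 32) (nat_lit 2) .z))))))))))) .nil))))))))))))) (.nd (.nd .leaf (nat_lit 79885) (nat_lit 989) (.n (nat_lit 394) (nat_lit 1) (.p (nat_lit 400) (nat_lit 1) (.n (nat_lit 425) (nat_lit 1) .z))) (.ct dC1b_c548 (nat_lit 1) (nat_lit 8) (.s false (nat_lit 1) (nat_lit 78) (nat_lit 2) (nat_lit 1) (nat_lit 1) true (nat_lit 14) true (nat_lit 18) false (nat_lit 8) true (nat_lit 17) true (nat_lit 18) (.e true (nat_lit 1) (nat_lit 144) (nat_lit 5) (nat_lit 14) (.e false (nat_lit 1) (nat_lit 282) (nat_lit 1) (nat_lit 18) (.e true (nat_lit 1) (nat_lit 272) (nat_lit 1) (nat_lit 18) .nil))))) .leaf) (nat_lit 79888) (nat_lit 1389) (.n (nat_lit 426) (nat_lit 1) (.n (nat_lit 427) (nat_lit 3) (.p (nat_lit 428) (nat_lit 2) (.n (nat_lit 429) (nat_lit 3) (.p (nat_lit 430) (nat_lit 2) (.n (nat_lit 432) (nat_lit 1) (.n (nat_lit 433) (nat_lit 1) (.p (nat_lit 434) (nat_lit 1) (.p (nat_lit 436) (nat_lit 2) (.p (nat_lit 438) (nat_lit 1) (.n (nat_lit 439) (nat_lit 2) (.p (nat_lit 441) (nat_lit 1) (.n (nat_lit 442) (nat_lit 3) (.p (nat_lit 443) (nat_lit 1) (.n (nat_lit 444) (nat_lit 2) (.p (nat_lit 445) (nat_lit 3) (.n (nat_lit 453) (nat_lit 1) .z))))))))))))))))) (.ct dC1b_c533 (nat_lit 1) (nat_lit 4) (.s true (nat_lit 1) (nat_lit 78) (nat_lit 1) (nat_lit 2) (nat_lit 2) true (nat_lit 10) true (nat_lit 13) false (nat_lit 4) true (nat_lit 14) true (nat_lit 13) (.e true (nat_lit 1) (nat_lit 175) (nat_lit 5) (nat_lit 10) (.e true (nat_lit 1) (nat_lit 272) (nat_lit 2) (nat_lit 13) (.e true (nat_lit 2) (nat_lit 320) (nat_lit 1) (nat_lit 14) (.e false (nat_lit 1) (nat_lit 323) (nat_lit 1) (nat_lit 14) (.e true (nat_lit 1) (nat_lit 324) (nat_lit 1) (nat_lit 14) (.e false (nat_lit 3) (nat_lit 325) (nat_lit 1) (nat_lit 14) (.e true (nat_lit 1) (nat_lit 326) (nat_lit 1) (nat_lit 14) (.e true (nat_lit 1) (nat_lit 282) (nat_lit 2) (nat_lit 13) (.u (nat_lit 2) (.n (nat_lit 0) (nat_lit 1) (.p (nat_lit 1) (nat_lit 1) (.n (nat_lit 5) (nat_lit 1) (.p (nat_lit 6) (nat_lit 1) (.p (nat_lit 7) (nat_lit 1) (.n (nat_lit 9) (nat_lit 1) (.n (nat_lit 10) (nat_lit 1) (.n (nat_lit 12) (nat_lit 1) (.n (nat_lit 15) (nat_lit 1) (.p (nat_lit 16) (nat_lit 1) (.n (nat_lit 17) (nat_lit 1) (.n (nat_lit 18) (nat_lit 1) .z)))))))))))) .nil))))))))))) .leaf)) (nat_lit 80897) (nat_lit 232) (.p (nat_lit 145) (nat_lit 1) .z) .df (.nd (.nd (.nd .leaf (nat_lit 80898) (nat_lit 325) (.p (nat_lit 176) (nat_lit 1) .z) .df .leaf) (nat_lit 80901) (nat_lit 668) (.n (nat_lit 261) (nat_lit 2) (.n (nat_lit 262) (nat_lit 1) (.p (nat_lit 263) (nat_lit 1) (.n (nat_lit 264) (nat_lit 2) (.n (nat_lit 265) (nat_lit 1) (.n (nat_lit 266) (nat_lit 3) (.n (nat_lit 271) (nat_lit 3) (.n (nat_lit 272) (nat_lit 3) (.p (nat_lit 273) (nat_lit 2) (.p (nat_lit 274) (nat_lit 1) (.p (nat_lit 277) (nat_lit 3) (.p (nat_lit 278) (nat_lit 2) (.p (nat_lit 279) (nat_lit 1) (.n (nat_lit 280) (nat_lit 2) (.p (nat_lit 281) (nat_lit 1) (.p (nat_lit 282) (nat_lit 2) (.p (nat_lit 287) (nat_lit 2) (.n (nat_lit 288) (nat_lit 3) (.n (nat_lit 289) (nat_lit 1) .z))))))))))))))))))) (.ct dC1b_c532 (nat_lit 1) (nat_lit 7) (.s true (nat_lit 1) (nat_lit 9) (nat_lit 5) (nat_lit 2) (nat_lit 2) true (nat_lit 1) true (nat_lit 10) true (nat_lit 4) true (nat_lit 7) true (nat_lit 10) (.e true (nat_lit 1) (nat_lit 28) (nat_lit 16) (nat_lit 1) (.e false (nat_lit 1) (nat_lit 132) (nat_lit 2) (nat_lit 10) (.e false (nat_lit 1) (nat_lit 134) (nat_lit 2) (nat_lit 10) (.e false (nat_lit 3) (nat_lit 136) (nat_lit 2) (nat_lit 10) (.e false (nat_lit 3) (nat_lit 137) (nat_lit 2) (nat_lit 10) (.e false (nat_lit 3) (nat_lit 138) (nat_lit 2) (nat_lit 10) (.e false (nat_lit 1) (nat_lit 139) (nat_lit 2) (nat_lit 10) (.e false (nat_lit 1) (nat_lit 140) (nat_lit 2) (nat_lit 10) (.e true (nat_lit 3) (nat_lit 141) (nat_lit 2) (nat_lit 10) (.e false (nat_lit 2) (nat_lit 142) (nat_lit 2) (nat_lit 10) (.e false (nat_lit 1) (nat_lit 43) (nat_lit 9) (nat_lit 4) (.e false (nat_lit 1) (nat_lit 77) (nat_lit 5) (nat_lit 7) (.e false (nat_lit 1) (nat_lit 78) (nat_lit 5) (nat_lit 7) (.e false (nat_lit 1) (nat_lit 81) (nat_lit 5) (nat_lit 7) (.e false (nat_lit 1) (nat_lit 152) (nat_lit 2) (nat_lit 10) (.u (nat_lit 2) (.n (nat_lit 0) (nat_lit 1) (.p (nat_lit 2) (nat_lit 1) (.p (nat_lit 5) (nat_lit 1) (.n (nat_lit 9) (nat_lit 1) (.p (nat_lit 10) (nat_lit 1) (.n (nat_lit 17) (nat_lit 1) (.n (nat_lit 18) (nat_lit 1) (.p (nat_lit 20) (nat_lit 1) .z)))))))) .nil)))))))))))))))))) .leaf) (nat_lit 80902) (nat_lit 806) (.n (nat_lit 320) (nat_lit 3) (.p (nat_lit 321) (nat_lit 2) (.n (nat_lit 323) (nat_lit 1) (.p (nat_lit 324) (nat_lit 1) (.n (nat_lit 325) (nat_lit 1) .z))))) (.ct dC1b_c517 (nat_lit 1) (nat_lit 3) (.s true (nat_lit 1) (nat_lit 30) (nat_lit 2) (nat_lit 2) (nat_lit 2) true (nat_lit 3) true (nat_lit 5) false (nat_lit 0) true (nat_lit 5) true (nat_lit 5) (.e false (nat_lit 1) (nat_lit 176) (nat_lit 2) (nat_lit 5) (.e false (nat_lit 1) (nat_lit 30) (nat_lit 18) (nat_lit 0) (.e false (nat_lit 3) (nat_lit 174) (nat_lit 2) (nat_lit 5) (.e true (nat_lit 3) (nat_lit 175) (nat_lit 2) (nat_lit 5) (.e false (nat_lit 1) (nat_lit 177) (nat_lit 2) (nat_lit 5) (.e true (nat_lit 3) (nat_lit 179) (nat_lit 2) (nat_lit 5) (.u (nat_lit 2) (.p (nat_lit 0) (nat_lit 1) (.n (nat_lit 1) (nat_lit 1) .z)) .nil))))))))) (.nd (.nd .leaf (nat_lit 80909) (nat_lit 1053) (.p (nat_lit 355) (nat_lit 1) (.n (nat_lit 356) (nat_lit 1) (.n (nat_lit 357) (nat_lit 1) (.p (nat_lit 358) (nat_lit 3) (.n (nat_lit 359) (nat_lit 2) (.p (nat_lit 361) (nat_lit 1) (.n (nat_lit 362) (nat_lit 1) (.n (nat_lit 363) (nat_lit 1) (.p (nat_lit 364) (nat_lit 3) (.n (nat_lit 365) (nat_lit 2) (.p (nat_lit 367) (nat_lit 1) (.p (nat_lit 369) (nat_lit 3) (.p (nat_lit 370) (nat_lit 3) (.p (nat_lit 373) (nat_lit 3) (.n (nat_lit 374) (nat_lit 1) (.n (nat_lit 375) (nat_lit 3) (.n (nat_lit 381) (nat_lit 3) (.p (nat_lit 382) (nat_lit 1) (.n (nat_lit 383) (nat_lit 2) (.n (nat_lit 384) (nat_lit 1) (.n (nat_lit 385) (nat_lit 3) (.n (nat_lit 386) (nat_lit 1) (.n (nat_lit 387) (nat_lit 2) (.n (nat_lit 388) (nat_lit 3) (.p (nat_lit 389) (nat_lit 2) (.n (nat_lit 390) (nat_lit 2) (.p (nat_lit 391) (nat_lit 1) (.p (nat_lit 392) (nat_lit 1) (.p (nat_lit 393) (nat_lit 3) (.n (nat_lit 394) (nat_lit 3) (.p (nat_lit 395) (nat_lit 2) (.p (nat_lit 396) (nat_lit 1) (.p (nat_lit 400) (nat_lit 2) (.p (nat_lit 404) (nat_lit 3) (.p (nat_lit 405) (nat_lit 1) (.n (nat_lit 406) (nat_lit 1) (.p (nat_lit 408) (nat_lit 1) (.p (nat_lit 409) (nat_lit 3) (.n (nat_lit 410) (nat_lit 3) (.n (nat_lit 425) (nat_lit 2) .z)))))))))))))))))))))))))))))))))))))))) (.ct dC1b_c548 (nat_lit 1) (nat_lit 8) (.s true (nat_lit 1) (nat_lit 79) (nat_lit 1) (nat_lit 2) (nat_lit 1) false (nat_lit 21) true (nat_lit 18) false (nat_lit 8) true (nat_lit 18) true (nat_lit 17) (.e false (nat_lit 1) (nat_lit 273) (nat_lit 1) (nat_lit 18) (.e true (nat_lit 2) (nat_lit 261) (nat_lit 1) (nat_lit 18) (.e true (nat_lit 1) (nat_lit 262) (nat_lit 1) (nat_lit 18) (.e false (nat_lit 1) (nat_lit 263) (nat_lit 1) (nat_lit 18) (.e true (nat_lit 2) (nat_lit 264) (nat_lit 1) (nat_lit 18) (.e true (nat_lit 1) (nat_lit 265) (nat_lit 1) (nat_lit 18) (.e true (nat_lit 3) (nat_lit 266) (nat_lit 1) (nat_lit 18) (.e true (nat_lit 3) (nat_lit 271) (nat_lit 1) (nat_lit 18) (.e true (nat_lit 3) (nat_lit 272) (nat_lit 1) (nat_lit 18) (.e false (nat_lit 1) (nat_lit 274) (nat_lit 1) (nat_lit 18) (.e false (nat_lit 3) (nat_lit 277) (nat_lit 1) (nat_lit 18) (.e false (nat_lit 2) (nat_lit 278) (nat_lit 1) (nat_lit 18) (.e false (nat_lit 1) (nat_lit 279) (nat_lit 1) (nat_lit 18) (.e true (nat_lit 2) (nat_lit 280) (nat_lit 1) (nat_lit 18) (.e false (nat_lit 1) (nat_lit 281) (nat_lit 1) (nat_lit 18) (.e false (nat_lit 2) (nat_lit 282) (nat_lit 1) (nat_lit 18) (.e false (nat_lit 2) (nat_lit 287) (nat_lit 1) (nat_lit 18) (.e true (nat_lit 3) (nat_lit 288) (nat_lit 1) (nat_lit 18) (.e true (nat_lit 1) (nat_lit 289) (nat_lit 1) (nat_lit 18) (.e false (nat_lit 1) (nat_lit 245) (nat_lit 2) (nat_lit 17) (.u (nat_lit 2) (.n (nat_lit 0) (nat_lit 2) (.p (nat_lit 1) (nat_lit 3) (.n (nat_lit 3) (nat_lit 1) (.n (nat_lit 4) (nat_lit 3) (.n (nat_lit 6) (nat_lit 1) (.p (nat_lit 7) (nat_lit 1) (.p (nat_lit 8) (nat_lit 2) (.n (nat_lit 9) (nat_lit 1) (.n (nat_lit 10) (nat_lit 1) (.p (nat_lit 11) (nat_lit 2) (.p (nat_lit 12) (nat_lit 3) (.p (nat_lit 15) (nat_lit 2) (.p (nat_lit 17) (nat_lit 1) (.n (nat_lit 18) (nat_lit 1) (.p (nat_lit 20) (nat_lit 1) (.n (nat_lit 26) (nat_lit 1) (.n (nat_lit 27) (nat_lit 2) (.n (nat_lit 28) (nat_lit 2) (.n (nat_lit 31) (nat_lit 2) (.n (nat_lit 32) (nat_lit 3) (.p (nat_lit 33) (nat_lit 2) (.p (nat_lit 34) (nat_lit 2) (.n (nat_lit 35) (nat_lit 1) (.p (nat_lit 37) (nat_lit 1) (.p (nat_lit 38) (nat_lit 1) (.p (nat_lit 40) (nat_lit 2) (.p (nat_lit 41) (nat_lit 2) .z))))))))))))))))))))))))))) .nil))))))))))))))))))))))) .leaf) (nat_lit 80912) (nat_lit 1391) (.p (nat_lit 426) (nat_lit 2) (.n (nat_lit 427) (nat_lit 2) (.p (nat_lit 428) (nat_lit 3) (.p (nat_lit 429) (nat_lit 1) (.p (nat_lit 431) (nat_lit 1) (.n (nat_lit 432) (nat_lit 2) (.n (nat_lit 433) (nat_lit 2) (.p (nat_lit 434) (nat_lit 2) (.p (nat_lit 436) (nat_lit 2) (.p (nat_lit 438) (nat_lit 2) (.n (nat_lit 441) (nat_lit 1) (.p (nat_lit 442) (nat_lit 3) (.n (nat_lit 443) (nat_lit 1) (.p (nat_lit 444) (nat_lit 2) (.n (nat_lit 453) (nat_lit 2) .z))))))))))))))) (.ct dC1b_c533 (nat_lit 1) (nat_lit 4) (.s true (nat_lit 1) (nat_lit 79) (nat_lit 1) (nat_lit 2) (nat_lit 2) true (nat_lit 10) true (nat_lit 13) false (nat_lit 4) true (nat_lit 14) true (nat_lit 13) (.e true (nat_lit 1) (nat_lit 176) (nat_lit 5) (nat_lit 10) (.e false (nat_lit 1) (nat_lit 273) (nat_lit 2) (nat_lit 13) (.e true (nat_lit 3) (nat_lit 320) (nat_lit 1) (nat_lit 14) (.e false (nat_lit 2) (nat_lit 321) (nat_lit 1) (nat_lit 14) (.e true (nat_lit 1) (nat_lit 323) (nat_lit 1) (nat_lit 14) (.e false (nat_lit 1) (nat_lit 324) (nat_lit 1) (nat_lit 14) (.e true (nat_lit 1) (nat_lit 325) (nat_lit 1) (nat_lit 14) (.e false (nat_lit 3) (nat_lit 260) (nat_lit 2) (nat_lit 13) (.e true (nat_lit 3) (nat_lit 262) (nat_lit 2) (nat_lit 13) (.e false (nat_lit 2) (nat_lit 263) (nat_lit 2) (nat_lit 13) (.e false (nat_lit 3) (nat_lit 264) (nat_lit 2) (nat_lit 13) (.e false (nat_lit 1) (nat_lit 265) (nat_lit 2) (nat_lit 13) (.e false (nat_lit 3) (nat_lit 266) (nat_lit 2) (nat_lit 13) (.e true (nat_lit 2) (nat_lit 271) (nat_lit 2) (nat_lit 13) (.e false (nat_lit 3) (nat_lit 272) (nat_lit 2) (nat_lit 13) (.e false (nat_lit 2) (nat_lit 277) (nat_lit 2) (nat_lit 13) (.e true (nat_lit 1) (nat_lit 278) (nat_lit 2) (nat_lit 13) (.e false (nat_lit 3) (nat_lit 280) (nat_lit 2) (nat_lit 13) (.e true (nat_lit 1) (nat_lit 281) (nat_lit 2) (nat_lit 13) (.e true (nat_lit 2) (nat_lit 282) (nat_lit 2) (nat_lit 13) (.e true (nat_lit 1) (nat_lit 286) (nat_lit 2) (nat_lit 13) (.e false (nat_lit 1) (nat_lit 289) (nat_lit 2) (nat_lit 13) (.u (nat_lit 2) (.p (nat_lit 0) (nat_lit 2) (.n (nat_lit 2) (nat_lit 5) (.p (nat_lit 3) (nat_lit 1) (.p (nat_lit 5) (nat_lit 2) (.n (nat_lit 6) (nat_lit 2) (.n (nat_lit 7) (nat_lit 2) (.n (nat_lit 8) (nat_lit 3) (.p (nat_lit 9) (nat_lit 1) (.p (nat_lit 10) (nat_lit 1) (.n (nat_lit 12) (nat_lit 2) (.n (nat_lit 15) (nat_lit 3) (.p (nat_lit 16) (nat_lit 2) (.p (nat_lit 17) (nat_lit 1) (.n (nat_lit 18) (nat_lit 2) (.p (nat_lit 19) (nat_lit 1) (.p (nat_lit 24) (nat_lit 1) (.p (nat_lit 27) (nat_lit 1) (.n (nat_lit 28) (nat_lit 1) (.p (nat_lit 29) (nat_lit 1) (.p (nat_lit 33) (nat_lit 5) .z)))))))))))))))))))) .nil))))))))))))))))))))))))) .leaf)))) (nat_lit 80913) (nat_lit 1385) (.p (nat_lit 426) (nat_lit 1) (.p (nat_lit 427) (nat_lit 3) (.p (nat_lit 428) (nat_lit 2) (.p (nat_lit 429) (nat_lit 2) (.p (nat_lit 430) (nat_lit 3) (.n (nat_lit 431) (nat_lit 1) (.p (nat_lit 434) (nat_lit 1) (.n (nat_lit 435) (nat_lit 1) (.n (nat_lit 436) (nat_lit 2) (.p (nat_lit 438) (nat_lit 1) (.p (nat_lit 439) (nat_lit 3) (.p (nat_lit 441) (nat_lit 2) (.p (nat_lit 442) (nat_lit 2) (.p (nat_lit 443) (nat_lit 2) (.p (nat_lit 444) (nat_lit 3) (.p (nat_lit 453) (nat_lit 3) (.n (nat_lit 456) (nat_lit 1) (.n (nat_lit 459) (nat_lit 3) .z)))))))))))))))))) (.ct dC1b_c533 (nat_lit 1) (nat_lit 4) (.s true (nat_lit 1) (nat_lit 30) (nat_lit 1) (nat_lit 2) (nat_lit 6) true (nat_lit 4) true (nat_lit 9) true (nat_lit 1) true (nat_lit 14) true (nat_lit 13) (.e true (nat_lit 1) (nat_lit 138) (nat_lit 6) (nat_lit 9) (.e false (nat_lit 1) (nat_lit 44) (nat_lit 30) (nat_lit 1) (.e false (nat_lit 1) (nat_lit 45) (nat_lit 30) (nat_lit 1) (.e true (nat_lit 1) (nat_lit 320) (nat_lit 1) (nat_lit 14) (.e false (nat_lit 2) (nat_lit 321) (nat_lit 1) (nat_lit 14) (.e false (nat_lit 1) (nat_lit 322) (nat_lit 1) (nat_lit 14) dC1b_i90)))))))) (.nd (.nd (.nd (.nd (.nd .leaf (nat_lit 81921) (nat_lit 233) (.p (nat_lit 146) (nat_lit 1) .z) .df .leaf) (nat_lit 81922) (nat_lit 326) (.p (nat_lit 177) (nat_lit 1) .z) .df .leaf) (nat_lit 81925) (nat_lit 650) (.p (nat_lit 260) (nat_lit 3) (.p (nat_lit 262) (nat_lit 1) (.p (nat_lit 263) (nat_lit 3) (.n (nat_lit 264) (nat_lit 2) (.n (nat_lit 265) (nat_lit 3) (.n (nat_lit 266) (nat_lit 3) (.n (nat_lit 267) (nat_lit 2) (.p (nat_lit 268) (nat_lit 1) (.n (nat_lit 269) (nat_lit 1) (.p (nat_lit 270) (nat_lit 3) (.n (nat_lit 271) (nat_lit 2) (.n (nat_lit 272) (nat_lit 3) (.n (nat_lit 273) (nat_lit 1) (.p (nat_lit 274) (nat_lit 2) (.n (nat_lit 277) (nat_lit 2) (.p (nat_lit 278) (nat_lit 3) (.p (nat_lit 279) (nat_lit 2) (.p (nat_lit 280) (nat_lit 1) (.n (nat_lit 282) (nat_lit 3) (.p (nat_lit 287) (nat_lit 2) (.p (nat_lit 288) (nat_lit 1) (.n (nat_lit 289) (nat_lit 3) .z)))))))))))))))))))))) (.ct dC1b_c532 (nat_lit 1) (nat_lit 7) (.s false (nat_lit 1) (nat_lit 40) (nat_lit 2) (nat_lit 0) (nat_lit 1) true (nat_lit 7) true (nat_lit 11) false (nat_lit 3) true (nat_lit 10) true (nat_lit 12) (.e false (nat_lit 1) (nat_lit 178) (nat_lit 1) (nat_lit 11) (.e true (nat_lit 1) (nat_lit 40) (nat_lit 11) (nat_lit 3) (.e false (nat_lit 3) (nat_lit 133) (nat_lit 2) (nat_lit 10) (.e false (nat_lit 3) (nat_lit 134) (nat_lit 2) (nat_lit 10) (.e true (nat_lit 2) (nat_lit 135) (nat_lit 2) (nat_lit 10) (.e false (nat_lit 1) (nat_lit 137) (nat_lit 2) (nat_lit 10) (.e true (nat_lit 1) (nat_lit 138) (nat_lit 2) (nat_lit 10) (.e true (nat_lit 2) (nat_lit 139) (nat_lit 2) (nat_lit 10) (.e true (nat_lit 3) (nat_lit 140) (nat_lit 2) (nat_lit 10) (.e false (nat_lit 3) (nat_lit 141) (nat_lit 2) (nat_lit 10) (.e false (nat_lit 2) (nat_lit 142) (nat_lit 2) (nat_lit 10) (.e true (nat_lit 1) (nat_lit 143) (nat_lit 2) (nat_lit 10) (.e true (nat_lit 2) (nat_lit 144) (nat_lit 2) (nat_lit 10) (.e false (nat_lit 3) (nat_lit 145) (nat_lit 2) (nat_lit 10) (.e true (nat_lit 1) (nat_lit 146) (nat_lit 2) (nat_lit 10) (.e false (nat_lit 1) (nat_lit 147) (nat_lit 2) (nat_lit 10) (.e true (nat_lit 2) (nat_lit 149) (nat_lit 2) (nat_lit 10) (.e false (nat_lit 1) (nat_lit 150) (nat_lit 2) (nat_lit 10) (.e true (nat_lit 2) (nat_lit 151) (nat_lit 2) (nat_lit 10) (.e true (nat_lit 2) (nat_lit 152) (nat_lit 2) (nat_lit 10) (.e true (nat_lit 1) (nat_lit 186) (nat_lit 0) (nat_lit 12) (.u (nat_lit 2) (.n (nat_lit 3) (nat_lit 1) (.n (nat_lit 4) (nat_lit 1) (.p (nat_lit 5) (nat_lit 1) (.p (nat_lit 6) (nat_lit 1) (.p (nat_lit 11) (nat_lit 1) (.n (nat_lit 17) (nat_lit 1) (.n (nat_lit 18) (nat_lit 1) (.n (nat_lit 20) (nat_lit 1) (.p (nat_lit 22) (nat_lit 1) (.p (nat_lit 28) (nat_lit 1) .z)))))))))) .nil)))))))))))))))))))))))) (.nd (.nd .leaf (nat_lit 81926) (nat_lit 820) (.n (nat_lit 320) (nat_lit 3) (.p (nat_lit 321) (nat_lit 1) (.p (nat_lit 322) (nat_lit 2) (.n (nat_lit 323) (nat_lit 3) (.n (nat_lit 325) (nat_lit 3) (.p (nat_lit 326) (nat_lit 1) .z)))))) (.ct dC1b_c517 (nat_lit 1) (nat_lit 3) (.s false (nat_lit 1) (nat_lit 40) (nat_lit 2) (nat_lit 0) (nat_lit 2) true (nat_lit 3) true (nat_lit 5) false (nat_lit 1) true (nat_lit 5) true (nat_lit 6) (.e false (nat_lit 1) (nat_lit 178) (nat_lit 2) (nat_lit 5) (.e true (nat_lit 1) (nat_lit 40) (nat_lit 14) (nat_lit 1) (.e false (nat_lit 1) (nat_lit 175) (nat_lit 2) (nat_lit 5) (.e false (nat_lit 1) (nat_lit 177) (nat_lit 2) (nat_lit 5) (.e true (nat_lit 1) (nat_lit 179) (nat_lit 2) (nat_lit 5) (.e false (nat_lit 1) (nat_lit 202) (nat_lit 0) (nat_lit 6) (.u (nat_lit 2) (.p (nat_lit 0) (nat_lit 1) (.n (nat_lit 2) (nat_lit 1) (.p (nat_lit 3) (nat_lit 1) .z))) .nil))))))))) .leaf) (nat_lit 81933) (nat_lit 1073) (.p (nat_lit 355) (nat_lit 2) (.p (nat_lit 356) (nat_lit 3) (.n (nat_lit 357) (nat_lit 2) (.p (nat_lit 358) (nat_lit 3) (.n (nat_lit 359) (nat_lit 1) (.p (nat_lit 361) (nat_lit 2) (.n (nat_lit 362) (nat_lit 2) (.p (nat_lit 364) (nat_lit 2) (.p (nat_lit 365) (nat_lit 3) (.p (nat_lit 366) (nat_lit 2) (.p (nat_lit 367) (nat_lit 2) (.p (nat_lit 369) (nat_lit 2) (.n (nat_lit 370) (nat_lit 1) (.p (nat_lit 372) (nat_lit 1) (.p (nat_lit 373) (nat_lit 3) (.p (nat_lit 374) (nat_lit 3) (.n (nat_lit 375) (nat_lit 3) (.p (nat_lit 381) (nat_lit 2) (.n (nat_lit 383) (nat_lit 3) (.n (nat_lit 384) (nat_lit 1) (.p (nat_lit 385) (nat_lit 3) (.p (nat_lit 388) (nat_lit 3) (.p (nat_lit 389) (nat_lit 1) (.n (nat_lit 391) (nat_lit 3) (.n (nat_lit 392) (nat_lit 2) (.p (nat_lit 393) (nat_lit 3) (.n (nat_lit 394) (nat_lit 3) (.p (nat_lit 395) (nat_lit 3) (.n (nat_lit 399) (nat_lit 3) (.n (nat_lit 400) (nat_lit 3) (.n (nat_lit 404) (nat_lit 3) (.n (nat_lit 405) (nat_lit 1) (.p (nat_lit 406) (nat_lit 1) (.n (nat_lit 408) (nat_lit 1) (.n (nat_lit 409) (nat_lit 3) (.p (nat_lit 410) (nat_lit 3) (.p (nat_lit 424) (nat_lit 3) (.p (nat_lit 425) (nat_lit 3) .z)))))))))))))))))))))))))))))))))))))) (.ct dC1b_c548 (nat_lit 1) (nat_lit 8) (.s true (nat_lit 1) (nat_lit 80) (nat_lit 1) (nat_lit 2) (nat_lit 1) false (nat_lit 21) true (nat_lit 18) false (nat_lit 8) true (nat_lit 18) true (nat_lit 17) (.e false (nat_lit 1) (nat_lit 274) (nat_lit 1) (nat_lit 18) (.e false (nat_lit 3) (nat_lit 260) (nat_lit 1) (nat_lit 18) (.e false (nat_lit 1) (nat_lit 262) (nat_lit 1) (nat_lit 18) (.e false (nat_lit 3) (nat_lit 263) (nat_lit 1) (nat_lit 18) (.e true (nat_lit 2) (nat_lit 264) (nat_lit 1) (nat_lit 18) (.e true (nat_lit 3) (nat_lit 265) (nat_lit 1) (nat_lit 18) (.e true (nat_lit 3) (nat_lit 266) (nat_lit 1) (nat_lit 18) (.e true (nat_lit 2) (nat_lit 267) (nat_lit 1) (nat_lit 18) (.e false (nat_lit 1) (nat_lit 268) (nat_lit 1) (nat_lit 18) (.e true (nat_lit 1) (nat_lit 269) (nat_lit 1) (nat_lit 18) (.e false (nat_lit 3) (nat_lit 270) (nat_lit 1) (nat_lit 18) (.e true (nat_lit 2) (nat_lit 271) (nat_lit 1) (nat_lit 18) (.e true (nat_lit 3) (nat_lit 272) (nat_lit 1) (nat_lit 18) (.e true (nat_lit 1) (nat_lit 273) (nat_lit 1) (nat_lit 18) (.e true (nat_lit 2) (nat_lit 277) (nat_lit 1) (nat_lit 18) (.e false (nat_lit 3) (nat_lit 278) (nat_lit 1) (nat_lit 18) (.e false (nat_lit 2) (nat_lit 279) (nat_lit 1) (nat_lit 18) (.e false (nat_lit 1) (nat_lit 280) (nat_lit 1) (nat_lit 18) (.e true (nat_lit 3) (nat_lit 282) (nat_lit 1) (nat_lit 18) (.e false (nat_lit 2) (nat_lit 287) (nat_lit 1) (nat_lit 18) (.e false (nat_lit 1) (nat_lit 288) (nat_lit 1) (nat_lit 18) (.e true (nat_lit 3) (nat_lit 289) (nat_lit 1) (nat_lit 18) dC1b_i91)))))))))))))))))))))))) .leaf)) (nat_lit 82945) (nat_lit 243) (.p (nat_lit 132) (nat_lit 1) (.p (nat_lit 133) (nat_lit 1) (.p (nat_lit 134) (nat_lit 1) (.n (nat_lit 136) (nat_lit 2) (.p (nat_lit 137) (nat_lit 3) (.p (nat_lit 138) (nat_lit 3) (.p (nat_lit 139) (nat_lit 1) (.p (nat_lit 140) (nat_lit 1) (.n (nat_lit 141) (nat_lit 3) (.p (nat_lit 142) (nat_lit 2) (.n (nat_lit 144) (nat_lit 1) (.p (nat_lit 145) (nat_lit 1) (.n (nat_lit 150) (nat_lit 1) (.p (nat_lit 152) (nat_lit 1) .z)))))))))))))) (.ct dC1b_c531 (nat_lit 1) (nat_lit 8) (.s false (nat_lit 1) (nat_lit 9) (nat_lit 1) (nat_lit 2) (nat_lit 2) true (nat_lit 4) true (nat_lit 7) true (nat_lit 1) true (nat_lit 8) true (nat_lit 7) (.e false (nat_lit 1) (nat_lit 28) (nat_lit 5) (nat_lit 4) (.e false (nat_lit 1) (nat_lit 56) (nat_lit 2) (nat_lit 7) (.e true (nat_lit 1) (nat_lit 16) (nat_lit 9) (nat_lit 1) (.e true (nat_lit 1) (nat_lit 77) (nat_lit 1) (nat_lit 8) (.e true (nat_lit 1) (nat_lit 78) (nat_lit 1) (nat_lit 8) (.e false (nat_lit 1) (nat_lit 79) (nat_lit 1) (nat_lit 8) (.e false (nat_lit 1) (nat_lit 59) (nat_lit 2) (nat_lit 7) .nil))))))))) (.nd (.nd (.nd .leaf (nat_lit 82946) (nat_lit 331) (.n (nat_lit 174) (nat_lit 1) (.p (nat_lit 175) (nat_lit 3) (.p (nat_lit 176) (nat_lit 3) (.n (nat_lit 177) (nat_lit 3) (.p (nat_lit 179) (nat_lit 2) .z))))) (.ct dC1b_c516 (nat_lit 1) (nat_lit 4) (.s true (nat_lit 2) (nat_lit 6) (nat_lit 2) (nat_lit 4) (nat_lit 0) true (nat_lit 3) true (nat_lit 5) true (nat_lit 2) true (nat_lit 4) true (nat_lit 3) (.s false (nat_lit 3) (nat_lit 15) (nat_lit 0) (nat_lit 2) (nat_lit 2) true (nat_lit 3) true (nat_lit 4) true (nat_lit 0) true (nat_lit 5) true (nat_lit 4) (.s true (nat_lit 2) (nat_lit 14) (nat_lit 2) (nat_lit 0) (nat_lit 2) true (nat_lit 2) true (nat_lit 4) true (nat_lit 0) true (nat_lit 4) true (nat_lit 5) (.s true (nat_lit 3) (nat_lit 14) (nat_lit 2) (nat_lit 2) (nat_lit 0) true (nat_lit 3) true (nat_lit 5) true (nat_lit 0) true (nat_lit 4) true (nat_lit 4) (.s true (nat_lit 2) (nat_lit 18) (nat_lit 0) (nat_lit 0) (nat_lit 2) true (nat_lit 3) true (nat_lit 4) false (nat_lit 1) true (nat_lit 5) true (nat_lit 5) (.a true (nat_lit 3) (nat_lit 14) (nat_lit 15) (nat_lit 0) (nat_lit 0) (.a true (nat_lit 1) (nat_lit 14) (nat_lit 14) (nat_lit 0) (nat_lit 0) (.e true (nat_lit 2) (nat_lit 100) (nat_lit 0) (nat_lit 5) (.e false (nat_lit 1) (nat_lit 101) (nat_lit 0) (nat_lit 5) (.e true (nat_lit 3) (nat_lit 78) (nat_lit 2) (nat_lit 4) (.e false (nat_lit 1) (nat_lit 79) (nat_lit 2) (nat_lit 4) (.e true (nat_lit 1) (nat_lit 80) (nat_lit 2) (nat_lit 4) (.e false (nat_lit 2) (nat_lit 98) (nat_lit 0) (nat_lit 5) (.e true (nat_lit 3) (nat_lit 40) (nat_lit 4) (nat_lit 3) (.u (nat_lit 2) (.p (nat_lit 0) (nat_lit 1) (.n (nat_lit 1) (nat_lit 1) (.p (nat_lit 3) (nat_lit 1) (.p (nat_lit 15) (nat_lit 1) (.p (nat_lit 18) (nat_lit 1) (.p (nat_lit 21) (nat_lit 1) (.n (nat_lit 22) (nat_lit 1) (.n (nat_lit 25) (nat_lit 1) .z)))))))) .nil)))))))))))))))) .leaf) (nat_lit 82949) (nat_lit 663) (.n (nat_lit 260) (nat_lit 3) (.n (nat_lit 261) (nat_lit 2) (.p (nat_lit 262) (nat_lit 3) (.n (nat_lit 263) (nat_lit 2) (.p (nat_lit 264) (nat_lit 1) (.p (nat_lit 265) (nat_lit 2) (.n (nat_lit 267) (nat_lit 2) (.n (nat_lit 269) (nat_lit 1) (.p (nat_lit 270) (nat_lit 1) (.n (nat_lit 271) (nat_lit 2) (.n (nat_lit 272) (nat_lit 2) (.n (nat_lit 273) (nat_lit 3) (.n (nat_lit 277) (nat_lit 3) (.n (nat_lit 278) (nat_lit 3) (.p (nat_lit 279) (nat_lit 3) (.p (nat_lit 280) (nat_lit 1) (.p (nat_lit 281) (nat_lit 1) (.p (nat_lit 282) (nat_lit 1) (.p (nat_lit 286) (nat_lit 2) (.n (nat_lit 287) (nat_lit 2) (.n (nat_lit 288) (nat_lit 3) .z))))))))))))))))))))) (.ct dC1b_c532 (nat_lit 1) (nat_lit 7) (.s false (nat_lit 1) (nat_lit 41) (nat_lit 2) (nat_lit 0) (nat_lit 1) true (nat_lit 7) true (nat_lit 11) false (nat_lit 3) true (nat_lit 10) true (nat_lit 12) (.e false (nat_lit 1) (nat_lit 174) (nat_lit 1) (nat_lit 11) (.e true (nat_lit 2) (nat_lit 176) (nat_lit 1) (nat_lit 11) (.e true (nat_lit 2) (nat_lit 177) (nat_lit 1) (nat_lit 11) (.e true (nat_lit 1) (nat_lit 178) (nat_lit 1) (nat_lit 11) (.e true (nat_lit 3) (nat_lit 179) (nat_lit 1) (nat_lit 11) (.e true (nat_lit 1) (nat_lit 41) (nat_lit 11) (nat_lit 3) (.e true (nat_lit 3) (nat_lit 133) (nat_lit 2) (nat_lit 10) (.e false (nat_lit 2) (nat_lit 134) (nat_lit 2) (nat_lit 10) (.e true (nat_lit 3) (nat_lit 135) (nat_lit 2) (nat_lit 10) (.e false (nat_lit 1) (nat_lit 137) (nat_lit 2) (nat_lit 10) dC1b_i92)))))))))))) .leaf) (nat_lit 82950) (nat_lit 802) (.n (nat_lit 320) (nat_lit 1) (.n (nat_lit 321) (nat_lit 2) (.n (nat_lit 322) (nat_lit 1) (.n (nat_lit 323) (nat_lit 1) (.n (nat_lit 325) (nat_lit 2) .z))))) (.ct dC1b_c517 (nat_lit 1) (nat_lit 3) (.s false (nat_lit 1) (nat_lit 15) (nat_lit 2) (nat_lit 2) (nat_lit 4) true (nat_lit 1) true (nat_lit 4) true (nat_lit 1) true (nat_lit 5) true (nat_lit 5) (.s false (nat_lit 1) (nat_lit 18) (nat_lit 0) (nat_lit 4) (nat_lit 2) true (nat_lit 4) true (nat_lit 5) true (nat_lit 0) true (nat_lit 6) true (nat_lit 4) (.s false (nat_lit 1) (nat_lit 18) (nat_lit 4) (nat_lit 0) (nat_lit 2) true (nat_lit 1) true (nat_lit 5) true (nat_lit 0) true (nat_lit 4) true (nat_lit 6) (.s false (nat_lit 1) (nat_lit 42) (nat_lit 0) (nat_lit 2) (nat_lit 2) true (nat_lit 4) true (nat_lit 5) false (nat_lit 1) true (nat_lit 6) true (nat_lit 5) (.s false (nat_lit 1) (nat_lit 41) (nat_lit 2) (nat_lit 0) (nat_lit 2) true (nat_lit 3) true (nat_lit 5) false (nat_lit 1) true (nat_lit 5) true (nat_lit 6) (.s true (nat_lit 1) (nat_lit 41) (nat_lit 2) (nat_lit 2) (nat_lit 0) true (nat_lit 4) true (nat_lit 6) false (nat_lit 1) true (nat_lit 5) true (nat_lit 5) (.s true (nat_lit 1) (nat_lit 42) (nat_lit 2) (nat_lit 2) (nat_lit 0) true (nat_lit 4) true (nat_lit 6) false (nat_lit 1) true (nat_lit 5) true (nat_lit 5) (.s true (nat_lit 1) (nat_lit 46) (nat_lit 0) (nat_lit 0) (nat_lit 2) true (nat_lit 4) true (nat_lit 5) false (nat_lit 2) true (nat_lit 6) true (nat_lit 6) (.e true (nat_lit 1) (nat_lit 174) (nat_lit 2) (nat_lit 5) (.e true (nat_lit 1) (nat_lit 176) (nat_lit 2) (nat_lit 5) (.e true (nat_lit 1) (nat_lit 177) (nat_lit 2) (nat_lit 5) (.e true (nat_lit 2) (nat_lit 179) (nat_lit 2) (nat_lit 5) (.e true (nat_lit 2) (nat_lit 175) (nat_lit 2) (nat_lit 5) (.u (nat_lit 2) (.n (nat_lit 27) (nat_lit 1) (.p (nat_lit 29) (nat_lit 1) (.p (nat_lit 30) (nat_lit 1) (.p (nat_lit 32) (nat_lit 2) .z)))) .nil))))))))))))))) (.nd (.nd .leaf (nat_lit 82957) (nat_lit 1078) (.p (nat_lit 355) (nat_lit 3) (.n (nat_lit 356) (nat_lit 1) (.p (nat_lit 357) (nat_lit 2) (.n (nat_lit 358) (nat_lit 2) (.n (nat_lit 359) (nat_lit 3) (.p (nat_lit 360) (nat_lit 2) (.n (nat_lit 361) (nat_lit 1) (.p (nat_lit 362) (nat_lit 1) (.n (nat_lit 363) (nat_lit 2) (.p (nat_lit 364) (nat_lit 1) (.p (nat_lit 366) (nat_lit 2) (.p (nat_lit 367) (nat_lit 1) (.p (nat_lit 370) (nat_lit 3) (.p (nat_lit 372) (nat_lit 1) (.n (nat_lit 374) (nat_lit 1) (.n (nat_lit 375) (nat_lit 1) (.n (nat_lit 382) (nat_lit 2) (.p (nat_lit 384) (nat_lit 3) (.p (nat_lit 385) (nat_lit 3) (.p (nat_lit 386) (nat_lit 2) (.n (nat_lit 387) (nat_lit 3) (.p (nat_lit 388) (nat_lit 3) (.p (nat_lit 389) (nat_lit 2) (.n (nat_lit 390) (nat_lit 3) (.p (nat_lit 391) (nat_lit 1) (.n (nat_lit 396) (nat_lit 2) (.p (nat_lit 399) (nat_lit 1) (.p (nat_lit 400) (nat_lit 1) (.n (nat_lit 404) (nat_lit 3) (.n (nat_lit 405) (nat_lit 1) (.p (nat_lit 406) (nat_lit 1) (.n (nat_lit 408) (nat_lit 1) (.n (nat_lit 409) (nat_lit 3) (.p (nat_lit 410) (nat_lit 3) (.n (nat_lit 424) (nat_lit 1) (.n (nat_lit 425) (nat_lit 1) .z)))))))))))))))))))))))))))))))))))) (.ct dC1b_c548 (nat_lit 1) (nat_lit 8) (.s true (nat_lit 1) (nat_lit 81) (nat_lit 1) (nat_lit 2) (nat_lit 1) false (nat_lit 21) true (nat_lit 18) false (nat_lit 8) true (nat_lit 18) true (nat_lit 17) (.e false (nat_lit 3) (nat_lit 260) (nat_lit 1) (nat_lit 18) (.e true (nat_lit 3) (nat_lit 261) (nat_lit 1) (nat_lit 18) dC1b_i94)))) .leaf) (nat_lit 82960) (nat_lit 1390) (.n (nat_lit 426) (nat_lit 3) (.p (nat_lit 427) (nat_lit 1) (.n (nat_lit 429) (nat_lit 3) (.p (nat_lit 430) (nat_lit 3) (.n (nat_lit 431) (nat_lit 3) (.p (nat_lit 434) (nat_lit 3) (.p (nat_lit 439) (nat_lit 3) (.p (nat_lit 441) (nat_lit 3) (.n (nat_lit 442) (nat_lit 2) (.p (nat_lit 443) (nat_lit 2) (.p (nat_lit 444) (nat_lit 3) (.p (nat_lit 445) (nat_lit 1) (.n (nat_lit 452) (nat_lit 1) (.n (nat_lit 453) (nat_lit 1) (.n (nat_lit 456) (nat_lit 1) (.n (nat_lit 459) (nat_lit 3) .z)))))))))))))))) (.ct dC1b_c533 (nat_lit 1) (nat_lit 4) (.s false (nat_lit 1) (nat_lit 18) (nat_lit 0) (nat_lit 0) (nat_lit 16) true (nat_lit 0) true (nat_lit 4) true (nat_lit 3) true (nat_lit 15) true (nat_lit 15) (.e false (nat_lit 1) (nat_lit 42) (nat_lit 36) (nat_lit 0) (.e false (nat_lit 1) (nat_lit 77) (nat_lit 16) (nat_lit 4) (.e false (nat_lit 1) (nat_lit 78) (nat_lit 16) (nat_lit 4) (.e true (nat_lit 1) (nat_lit 328) (nat_lit 0) (nat_lit 15) (.e false (nat_lit 2) (nat_lit 330) (nat_lit 0) (nat_lit 15) (.e false (nat_lit 2) (nat_lit 331) (nat_lit 0) (nat_lit 15) (.e false (nat_lit 1) (nat_lit 332) (nat_lit 0) (nat_lit 15) (.e false (nat_lit 2) (nat_lit 333) (nat_lit 0) (nat_lit 15) (.e false (nat_lit 1) (nat_lit 334) (nat_lit 0) (nat_lit 15) (.e false (nat_lit 1) (nat_lit 335) (nat_lit 0) (nat_lit 15) (.e true (nat_lit 1) (nat_lit 336) (nat_lit 0) (nat_lit 15) (.e true (nat_lit 1) (nat_lit 337) (nat_lit 0) (nat_lit 15) (.e true (nat_lit 1) (nat_lit 338) (nat_lit 0) (nat_lit 15) (.e false (nat_lit 3) (nat_lit 341) (nat_lit 0) (nat_lit 15) (.e false (nat_lit 1) (nat_lit 346) (nat_lit 0) (nat_lit 15) (.u (nat_lit 2) (.p (nat_lit 2) (nat_lit 1) (.p (nat_lit 4) (nat_lit 1) (.n (nat_lit 6) (nat_lit 1) (.n (nat_lit 7) (nat_lit 1) (.p (nat_lit 12) (nat_lit 1) (.n (nat_lit 18) (nat_lit 1) (.n (nat_lit 213) (nat_lit 1) (.p (nat_lit 220) (nat_lit 1) (.p (nat_lit 221) (nat_lit 1) (.n (nat_lit 224) (nat_lit 1) .z)))))))))) .nil)))))))))))))))))) .leaf))) (nat_lit 83968) (nat_lit 234) (.p (nat_lit 147) (nat_lit 1) .z) .df (.nd (.nd (.nd (.nd .leaf (nat_lit 83969) (nat_lit 282) (.p (nat_lit 164) (nat_lit 1) .z) .df .leaf) (nat_lit 83970) (nat_lit 340) (.p (nat_lit 180) (nat_lit 1) .z) .df .leaf) (nat_lit 83971) (nat_lit 517) (.n (nat_lit 212) (nat_lit 2) (.n (nat_lit 213) (nat_lit 1) (.n (nat_lit 214) (nat_lit 2) (.n (nat_lit 215) (nat_lit 3) (.n (nat_lit 216) (nat_lit 1) (.n (nat_lit 217) (nat_lit 2) (.p (nat_lit 218) (nat_lit 2) (.n (nat_lit 219) (nat_lit 2) (.n (nat_lit 220) (nat_lit 3) (.n (nat_lit 222) (nat_lit 2) (.p (nat_lit 223) (nat_lit 3) (.p (nat_lit 224) (nat_lit 2) (.p (nat_lit 226) (nat_lit 3) (.n (nat_lit 227) (nat_lit 1) (.p (nat_lit 229) (nat_lit 2) (.p (nat_lit 231) (nat_lit 3) (.n (nat_lit 232) (nat_lit 3) (.n (nat_lit 233) (nat_lit 1) (.p (nat_lit 234) (nat_lit 3) (.p (nat_lit 235) (nat_lit 2) (.p (nat_lit 236) (nat_lit 1) (.p (nat_lit 237) (nat_lit 2) (.p (nat_lit 238) (nat_lit 1) (.n (nat_lit 240) (nat_lit 1) (.p (nat_lit 242) (nat_lit 1) (.p (nat_lit 243) (nat_lit 2) (.n (nat_lit 244) (nat_lit 3) (.n (nat_lit 245) (nat_lit 2) (.n (nat_lit 246) (nat_lit 1) (.n (nat_lit 248) (nat_lit 2) .z)))))))))))))))))))))))))))))) (.ct dC1b_c547 (nat_lit 1) (nat_lit 11) (.s false (nat_lit 3) (nat_lit 6) (nat_lit 5) (nat_lit 0) (nat_lit 3) false (nat_lit 2) true (nat_lit 11) true (nat_lit 8) true (nat_lit 9) true (nat_lit 14) (.s false (nat_lit 3) (nat_lit 11) (nat_lit 0) (nat_lit 6) (nat_lit 1) true (nat_lit 11) true (nat_lit 13) true (nat_lit 4) true (nat_lit 14) true (nat_lit 8) (.s false (nat_lit 3) (nat_lit 10) (nat_lit 6) (nat_lit 0) (nat_lit 1) true (nat_lit 1) true (nat_lit 13) true (nat_lit 4) true (nat_lit 8) true (nat_lit 14) (.s false (nat_lit 3) (nat_lit 11) (nat_lit 6) (nat_lit 0) (nat_lit 1) true (nat_lit 1) true (nat_lit 13) true (nat_lit 4) true (nat_lit 8) true (nat_lit 14) (.s true (nat_lit 3) (nat_lit 15) (nat_lit 2) (nat_lit 1) (nat_lit 3) true (nat_lit 4) true (nat_lit 11) true (nat_lit 2) true (nat_lit 12) true (nat_lit 13) (.s false (nat_lit 1) (nat_lit 18) (nat_lit 0) (nat_lit 3) (nat_lit 1) true (nat_lit 11) true (nat_lit 13) true (nat_lit 0) true (nat_lit 14) true (nat_lit 11) dC1b_i96))))))) (.nd (.nd .leaf (nat_lit 83972) (nat_lit 619) (.p (nat_lit 260) (nat_lit 1) (.p (nat_lit 261) (nat_lit 1) (.p (nat_lit 263) (nat_lit 3) (.n (nat_lit 264) (nat_lit 3) (.p (nat_lit 265) (nat_lit 1) (.p (nat_lit 266) (nat_lit 2) (.p (nat_lit 267) (nat_lit 3) (.n (nat_lit 268) (nat_lit 2) (.n (nat_lit 269) (nat_lit 2) (.n (nat_lit 270) (nat_lit 2) (.p (nat_lit 271) (nat_lit 2) (.p (nat_lit 272) (nat_lit 3) (.n (nat_lit 273) (nat_lit 1) (.n (nat_lit 274) (nat_lit 2) (.n (nat_lit 275) (nat_lit 1) (.n (nat_lit 277) (nat_lit 3) (.p (nat_lit 279) (nat_lit 2) (.n (nat_lit 280) (nat_lit 2) (.p (nat_lit 281) (nat_lit 1) (.p (nat_lit 283) (nat_lit 1) (.n (nat_lit 286) (nat_lit 1) (.n (nat_lit 287) (nat_lit 1) (.n (nat_lit 289) (nat_lit 1) .z))))))))))))))))))))))) (.ct dC1b_c532 (nat_lit 1) (nat_lit 8) (.s true (nat_lit 1) (nat_lit 10) (nat_lit 2) (nat_lit 0) (nat_lit 6) true (nat_lit 0) true (nat_lit 6) true (nat_lit 3) true (nat_lit 10) true (nat_lit 12) dC1b_i97)) .leaf) (nat_lit 83973) (nat_lit 711) (.p (nat_lit 319) (nat_lit 1) .z) .df .leaf)) (nat_lit 83974) (nat_lit 851) (.n (nat_lit 328) (nat_lit 3) (.p (nat_lit 329) (nat_lit 2) (.n (nat_lit 330) (nat_lit 2) (.n (nat_lit 331) (nat_lit 1) (.p (nat_lit 332) (nat_lit 2) (.p (nat_lit 333) (nat_lit 3) (.p (nat_lit 334) (nat_lit 1) (.p (nat_lit 335) (nat_lit 1) (.n (nat_lit 337) (nat_lit 2) (.n (nat_lit 340) (nat_lit 1) (.p (nat_lit 344) (nat_lit 1) (.n (nat_lit 345) (nat_lit 1) .z)))))))))))) (.ct dC1b_c277 (nat_lit 1) (nat_lit 4) (.s true (nat_lit 3) (nat_lit 18) (nat_lit 1) (nat_lit 0) (nat_lit 6) true (nat_lit 1) true (nat_lit 4) true (nat_lit 0) true (nat_lit 9) true (nat_lit 10) (.s true (nat_lit 3) (nat_lit 34) (nat_lit 2) (nat_lit 2) (nat_lit 2) true (nat_lit 4) true (nat_lit 8) false (nat_lit 0) true (nat_lit 8) true (nat_lit 8) (.s false (nat_lit 3) (nat_lit 36) (nat_lit 2) (nat_lit 2) (nat_lit 2) true (nat_lit 4) true (nat_lit 8) false (nat_lit 0) true (nat_lit 8) true (nat_lit 8) (.s true (nat_lit 3) (nat_lit 42) (nat_lit 1) (nat_lit 2) (nat_lit 2) true (nat_lit 5) true (nat_lit 8) false (nat_lit 1) true (nat_lit 9) true (nat_lit 8) dC1b_i98))))) (.nd (.nd (.nd .leaf (nat_lit 83978) (nat_lit 1045) (.p (nat_lit 355) (nat_lit 2) (.n (nat_lit 356) (nat_lit 2) (.p (nat_lit 357) (nat_lit 1) (.p (nat_lit 358) (nat_lit 2) (.p (nat_lit 359) (nat_lit 2) (.p (nat_lit 361) (nat_lit 1) (.n (nat_lit 362) (nat_lit 1) (.p (nat_lit 363) (nat_lit 3) (.n (nat_lit 364) (nat_lit 2) (.n (nat_lit 365) (nat_lit 2) (.p (nat_lit 366) (nat_lit 1) (.p (nat_lit 367) (nat_lit 1) (.p (nat_lit 369) (nat_lit 3) (.p (nat_lit 370) (nat_lit 3) (.p (nat_lit 372) (nat_lit 2) (.p (nat_lit 374) (nat_lit 2) (.n (nat_lit 376) (nat_lit 1) (.n (nat_lit 381) (nat_lit 2) (.n (nat_lit 382) (nat_lit 3) (.n (nat_lit 383) (nat_lit 1) (.n (nat_lit 384) (nat_lit 1) (.n (nat_lit 385) (nat_lit 2) (.n (nat_lit 386) (nat_lit 2) (.n (nat_lit 388) (nat_lit 3) (.p (nat_lit 389) (nat_lit 1) (.p (nat_lit 390) (nat_lit 3) (.n (nat_lit 391) (nat_lit 3) (.n (nat_lit 392) (nat_lit 3) (.p (nat_lit 393) (nat_lit 1) (.n (nat_lit 395) (nat_lit 3) (.n (nat_lit 396) (nat_lit 2) (.p (nat_lit 401) (nat_lit 1) (.p (nat_lit 411) (nat_lit 1) (.n (nat_lit 420) (nat_lit 1) .z)))))))))))))))))))))))))))))))))) (.ct dC1b_c548 (nat_lit 1) (nat_lit 9) (.s true (nat_lit 1) (nat_lit 82) (nat_lit 0) (nat_lit 1) (nat_lit 2) true (nat_lit 15) true (nat_lit 17) false (nat_lit 9) true (nat_lit 19) true (nat_lit 18) (.e true (nat_lit 1) (nat_lit 164) (nat_lit 4) (nat_lit 15) (.e true (nat_lit 1) (nat_lit 246) (nat_lit 2) (nat_lit 17) (.e true (nat_lit 1) (nat_lit 319) (nat_lit 0) (nat_lit 19) (.e false (nat_lit 1) (nat_lit 283) (nat_lit 1) (nat_lit 18) (.u (nat_lit 2) (.p (nat_lit 1) (nat_lit 1) (.n (nat_lit 3) (nat_lit 1) (.n (nat_lit 8) (nat_lit 1) (.n (nat_lit 11) (nat_lit 1) (.n (nat_lit 17) (nat_lit 1) (.p (nat_lit 26) (nat_lit 1) .z)))))) .nil))))))) .leaf) (nat_lit 83979) (nat_lit 1066) (.n (nat_lit 355) (nat_lit 3) (.n (nat_lit 356) (nat_lit 1) (.n (nat_lit 357) (nat_lit 2) (.p (nat_lit 358) (nat_lit 1) (.p (nat_lit 359) (nat_lit 2) (.p (nat_lit 361) (nat_lit 3) (.n (nat_lit 362) (nat_lit 3) (.n (nat_lit 363) (nat_lit 3) (.n (nat_lit 364) (nat_lit 1) (.p (nat_lit 365) (nat_lit 1) (.p (nat_lit 366) (nat_lit 3) (.p (nat_lit 367) (nat_lit 2) (.p (nat_lit 369) (nat_lit 1) (.n (nat_lit 370) (nat_lit 1) (.n (nat_lit 372) (nat_lit 2) (.n (nat_lit 373) (nat_lit 2) (.n (nat_lit 374) (nat_lit 3) (.n (nat_lit 375) (nat_lit 3) (.n (nat_lit 381) (nat_lit 3) (.n (nat_lit 397) (nat_lit 1) (.p (nat_lit 401) (nat_lit 1) (.p (nat_lit 411) (nat_lit 1) .z)))))))))))))))))))))) (.ct dC1b_c548 (nat_lit 1) (nat_lit 9) (.s false (nat_lit 1) (nat_lit 82) (nat_lit 2) (nat_lit 0) (nat_lit 1) true (nat_lit 14) true (nat_lit 18) false (nat_lit 9) true (nat_lit 17) true (nat_lit 19) (.e true (nat_lit 1) (nat_lit 147) (nat_lit 5) (nat_lit 14) (.e false (nat_lit 1) (nat_lit 283) (nat_lit 1) (nat_lit 18) (.e true (nat_lit 2) (nat_lit 212) (nat_lit 2) (nat_lit 17) (.e true (nat_lit 1) (nat_lit 213) (nat_lit 2) (nat_lit 17) (.e true (nat_lit 2) (nat_lit 214) (nat_lit 2) (nat_lit 17) (.e true (nat_lit 3) (nat_lit 215) (nat_lit 2) (nat_lit 17) (.e true (nat_lit 1) (nat_lit 216) (nat_lit 2) (nat_lit 17) (.e true (nat_lit 2) (nat_lit 217) (nat_lit 2) (nat_lit 17) (.e false (nat_lit 2) (nat_lit 218) (nat_lit 2) (nat_lit 17) dC1b_i99))))))))))) .leaf) (nat_lit 83980) (nat_lit 1068) (.p (nat_lit 355) (nat_lit 3) (.p (nat_lit 356) (nat_lit 3) (.p (nat_lit 357) (nat_lit 1) (.p (nat_lit 358) (nat_lit 1) (.n (nat_lit 359) (nat_lit 1) (.p (nat_lit 361) (nat_lit 2) (.n (nat_lit 362) (nat_lit 2) (.n (nat_lit 363) (nat_lit 1) (.p (nat_lit 364) (nat_lit 2) (.p (nat_lit 365) (nat_lit 3) (.n (nat_lit 366) (nat_lit 1) (.p (nat_lit 367) (nat_lit 3) (.p (nat_lit 369) (nat_lit 3) (.p (nat_lit 370) (nat_lit 2) (.p (nat_lit 373) (nat_lit 2) (.n (nat_lit 374) (nat_lit 1) (.n (nat_lit 375) (nat_lit 3) (.p (nat_lit 376) (nat_lit 1) (.p (nat_lit 382) (nat_lit 3) (.n (nat_lit 383) (nat_lit 3) (.n (nat_lit 384) (nat_lit 2) (.p (nat_lit 385) (nat_lit 2) (.n (nat_lit 386) (nat_lit 3) (.p (nat_lit 387) (nat_lit 2) (.n (nat_lit 388) (nat_lit 3) (.p (nat_lit 390) (nat_lit 1) (.n (nat_lit 392) (nat_lit 3) (.p (nat_lit 393) (nat_lit 3) (.n (nat_lit 395) (nat_lit 2) (.p (nat_lit 396) (nat_lit 1) (.n (nat_lit 397) (nat_lit 1) (.p (nat_lit 420) (nat_lit 1) .z)))))))))))))))))))))))))))))))) (.ct dC1b_c548 (nat_lit 1) (nat_lit 9) (.s true (nat_lit 1) (nat_lit 82) (nat_lit 1) (nat_lit 2) (nat_lit 0) true (nat_lit 16) true (nat_lit 19) false (nat_lit 9) true (nat_lit 18) true (nat_lit 17) (.e false (nat_lit 1) (nat_lit 180) (nat_lit 3) (nat_lit 16) (.e true (nat_lit 1) (nat_lit 301) (nat_lit 0) (nat_lit 19) dC1b_i100)))) (.nd (.nd .leaf (nat_lit 83982) (nat_lit 1307) (.p (nat_lit 429) (nat_lit 1) (.n (nat_lit 431) (nat_lit 1) (.n (nat_lit 454) (nat_lit 1) .z))) (.ct dC1b_c533 (nat_lit 1) (nat_lit 5) (.s true (nat_lit 1) (nat_lit 82) (nat_lit 0) (nat_lit 2) (nat_lit 2) true (nat_lit 11) true (nat_lit 13) false (nat_lit 5) true (nat_lit 15) true (nat_lit 13) (.e true (nat_lit 1) (nat_lit 180) (nat_lit 4) (nat_lit 11) (.e true (nat_lit 1) (nat_lit 275) (nat_lit 2) (nat_lit 13) (.e true (nat_lit 3) (nat_lit 328) (nat_lit 0) (nat_lit 15) (.e false (nat_lit 2) (nat_lit 329) (nat_lit 0) (nat_lit 15) (.e true (nat_lit 2) (nat_lit 330) (nat_lit 0) (nat_lit 15) (.e true (nat_lit 1) (nat_lit 331) (nat_lit 0) (nat_lit 15) (.e false (nat_lit 2) (nat_lit 332) (nat_lit 0) (nat_lit 15) (.e false (nat_lit 3) (nat_lit 333) (nat_lit 0) (nat_lit 15) (.e false (nat_lit 1) (nat_lit 334) (nat_lit 0) (nat_lit 15) (.e false (nat_lit 1) (nat_lit 335) (nat_lit 0) (nat_lit 15) (.e true (nat_lit 2) (nat_lit 337) (nat_lit 0) (nat_lit 15) (.e true (nat_lit 1) (nat_lit 340) (nat_lit 0) (nat_lit 15) (.e false (nat_lit 1) (nat_lit 344) (nat_lit 0) (nat_lit 15) (.e true (nat_lit 1) (nat_lit 345) (nat_lit 0) (nat_lit 15) (.e true (nat_lit 1) (nat_lit 283) (nat_lit 2) (nat_lit 13) (.u (nat_lit 2) (.n (nat_lit 0) (nat_lit 1) (.n (nat_lit 3) (nat_lit 1) (.p (nat_lit 4) (nat_lit 1) (.p (nat_lit 5) (nat_lit 1) (.n (nat_lit 9) (nat_lit 1) .z))))) .nil)))))))))))))))))) .leaf) (nat_lit 83983) (nat_lit 1346) (.n (nat_lit 426) (nat_lit 3) (.n (nat_lit 427) (nat_lit 2) (.p (nat_lit 428) (nat_lit 2) (.n (nat_lit 429) (nat_lit 1) (.p (nat_lit 430) (nat_lit 2) (.n (nat_lit 431) (nat_lit 1) (.n (nat_lit 432) (nat_lit 2) (.n (nat_lit 433) (nat_lit 2) (.n (nat_lit 434) (nat_lit 3) (.p (nat_lit 435) (nat_lit 1) (.n (nat_lit 436) (nat_lit 1) (.n (nat_lit 438) (nat_lit 2) (.p (nat_lit 439) (nat_lit 3) (.p (nat_lit 441) (nat_lit 2) (.n (nat_lit 442) (nat_lit 3) (.p (nat_lit 443) (nat_lit 3) (.p (nat_lit 444) (nat_lit 3) (.n (nat_lit 445) (nat_lit 1) (.n (nat_lit 454) (nat_lit 2) (.n (nat_lit 456) (nat_lit 2) (.p (nat_lit 459) (nat_lit 1) .z))))))))))))))))))))) (.ct dC1b_c533 (nat_lit 1) (nat_lit 5) (.s false (nat_lit 1) (nat_lit 82) (nat_lit 2) (nat_lit 2) (nat_lit 0) true (nat_lit 11) true (nat_lit 15) false (nat_lit 5) true (nat_lit 13) true (nat_lit 13) (.e false (nat_lit 1) (nat_lit 180) (nat_lit 4) (nat_lit 11) dC1b_i101))) .leaf))))) (nat_lit 83984) (nat_lit 1466) (.p (nat_lit 470) (nat_lit 1) (.n (nat_lit 472) (nat_lit 1) (.n (nat_lit 486) (nat_lit 1) .z))) (.ct dC1b_c293 (nat_lit 1) (nat_lit 4) (.s false (nat_lit 1) (nat_lit 82) (nat_lit 2) (nat_lit 1) (nat_lit 2) true (nat_lit 9) true (nat_lit 13) false (nat_lit 4) true (nat_lit 13) true (nat_lit 14) (.e true (nat_lit 1) (nat_lit 164) (nat_lit 6) (nat_lit 9) (.e false (nat_lit 1) (nat_lit 311) (nat_lit 2) (nat_lit 13) (.e true (nat_lit 1) (nat_lit 319) (nat_lit 2) (nat_lit 13) (.e false (nat_lit 1) (nat_lit 328) (nat_lit 1) (nat_lit 14) (.u (nat_lit 2) (.p (nat_lit 3) (nat_lit 1) (.p (nat_lit 9) (nat_lit 1) (.p (nat_lit 12) (nat_lit 1) (.n (nat_lit 13) (nat_lit 1) .z)))) .nil))))))) (.nd (.nd (.nd (.nd (.nd (.nd .leaf (nat_lit 83985) (nat_lit 1450) (.p (nat_lit 460) (nat_lit 3) (.p (nat_lit 461) (nat_lit 3) (.p (nat_lit 462) (nat_lit 3) (.p (nat_lit 463) (nat_lit 1) (.p (nat_lit 464) (nat_lit 3) (.n (nat_lit 465) (nat_lit 1) (.p (nat_lit 468) (nat_lit 1) (.p (nat_lit 469) (nat_lit 2) (.n (nat_lit 470) (nat_lit 3) (.n (nat_lit 471) (nat_lit 1) (.n (nat_lit 473) (nat_lit 2) (.n (nat_lit 474) (nat_lit 2) (.n (nat_lit 475) (nat_lit 3) (.n (nat_lit 476) (nat_lit 2) (.p (nat_lit 477) (nat_lit 3) (.p (nat_lit 479) (nat_lit 2) (.n (nat_lit 486) (nat_lit 2) (.n (nat_lit 489) (nat_lit 2) (.p (nat_lit 493) (nat_lit 1) .z))))))))))))))))))) (.ct dC1b_c293 (nat_lit 1) (nat_lit 4) (.s false (nat_lit 1) (nat_lit 82) (nat_lit 2) (nat_lit 2) (nat_lit 1) true (nat_lit 10) true (nat_lit 14) false (nat_lit 4) true (nat_lit 13) true (nat_lit 13) (.e false (nat_lit 1) (nat_lit 180) (nat_lit 5) (nat_lit 10) (.e false (nat_lit 1) (nat_lit 328) (nat_lit 1) (nat_lit 14) (.e false (nat_lit 1) (nat_lit 319) (nat_lit 2) (nat_lit 13) (.e true (nat_lit 1) (nat_lit 301) (nat_lit 2) (nat_lit 13) (.u (nat_lit 2) (.n (nat_lit 9) (nat_lit 1) (.p (nat_lit 16) (nat_lit 1) (.n (nat_lit 19) (nat_lit 1) .z))) .nil))))))) .leaf) (nat_lit 84992) (nat_lit 235) (.p (nat_lit 148) (nat_lit 1) .z) .df .leaf) (nat_lit 84993) (nat_lit 283) (.p (nat_lit 165) (nat_lit 1) .z) .df (.nd (.nd .leaf (nat_lit 84994) (nat_lit 341) (.p (nat_lit 181) (nat_lit 1) .z) .df .leaf) (nat_lit 84995) (nat_lit 518) (.n (nat_lit 212) (nat_lit 1) (.p (nat_lit 213) (nat_lit 3) (.p (nat_lit 214) (nat_lit 1) (.n (nat_lit 215) (nat_lit 2) (.p (nat_lit 216) (nat_lit 2) (.p (nat_lit 217) (nat_lit 1) (.n (nat_lit 218) (nat_lit 3) (.p (nat_lit 219) (nat_lit 3) (.p (nat_lit 221) (nat_lit 2) (.n (nat_lit 222) (nat_lit 2) (.n (nat_lit 223) (nat_lit 2) (.n (nat_lit 226) (nat_lit 1) (.n (nat_lit 227) (nat_lit 3) (.n (nat_lit 229) (nat_lit 3) (.p (nat_lit 231) (nat_lit 2) (.n (nat_lit 232) (nat_lit 3) (.n (nat_lit 233) (nat_lit 1) (.n (nat_lit 234) (nat_lit 2) (.n (nat_lit 235) (nat_lit 3) (.p (nat_lit 236) (nat_lit 2) (.n (nat_lit 237) (nat_lit 1) (.p (nat_lit 238) (nat_lit 2) (.p (nat_lit 239) (nat_lit 2) (.n (nat_lit 240) (nat_lit 3) (.p (nat_lit 241) (nat_lit 1) (.n (nat_lit 247) (nat_lit 1) .z)))))))))))))))))))))))))) (.ct dC1b_c547 (nat_lit 1) (nat_lit 11) (.s true (nat_lit 3) (nat_lit 6) (nat_lit 5) (nat_lit 0) (nat_lit 3) false (nat_lit 2) true (nat_lit 11) true (nat_lit 8) true (nat_lit 9) true (nat_lit 14) (.s false (nat_lit 3) (nat_lit 10) (nat_lit 0) (nat_lit 6) (nat_lit 1) true (nat_lit 11) true (nat_lit 13) true (nat_lit 4) true (nat_lit 14) true (nat_lit 8) (.s false (nat_lit 3) (nat_lit 15) (nat_lit 2) (nat_lit 1) (nat_lit 3) true (nat_lit 4) true (nat_lit 11) true (nat_lit 2) true (nat_lit 12) true (nat_lit 13) (.s true (nat_lit 3) (nat_lit 18) (nat_lit 1) (nat_lit 3) (nat_lit 0) true (nat_lit 11) true (nat_lit 14) true (nat_lit 0) true (nat_lit 13) true (nat_lit 11) (.e true (nat_lit 1) (nat_lit 85) (nat_lit 3) (nat_lit 11) (.e true (nat_lit 3) (nat_lit 48) (nat_lit 6) (nat_lit 8) (.e true (nat_lit 3) (nat_lit 54) (nat_lit 6) (nat_lit 8) (.e false (nat_lit 3) (nat_lit 65) (nat_lit 5) (nat_lit 9) dC1b_i102))))))))) .leaf)) (nat_lit 84996) (nat_lit 611) (.p (nat_lit 260) (nat_lit 3) (.p (nat_lit 261) (nat_lit 3) (.p (nat_lit 262) (nat_lit 2) (.p (nat_lit 263) (nat_lit 2) (.p (nat_lit 264) (nat_lit 2) (.n (nat_lit 265) (nat_lit 3) (.n (nat_lit 266) (nat_lit 1) (.p (nat_lit 267) (nat_lit 2) (.n (nat_lit 268) (nat_lit 1) (.p (nat_lit 269) (nat_lit 1) (.n (nat_lit 270) (nat_lit 1) (.n (nat_lit 271) (nat_lit 2) (.p (nat_lit 273) (nat_lit 2) (.n (nat_lit 274) (nat_lit 1) (.n (nat_lit 276) (nat_lit 1) (.n (nat_lit 277) (nat_lit 2) (.n (nat_lit 278) (nat_lit 1) (.n (nat_lit 279) (nat_lit 3) (.n (nat_lit 280) (nat_lit 1) (.p (nat_lit 284) (nat_lit 1) (.n (nat_lit 287) (nat_lit 1) .z))))))))))))))))))))) (.ct dC1b_c532 (nat_lit 1) (nat_lit 8) (.s true (nat_lit 3) (nat_lit 5) (nat_lit 2) (nat_lit 4) (nat_lit 4) true (nat_lit 2) true (nat_lit 8) true (nat_lit 7) true (nat_lit 10) true (nat_lit 8) (.s false (nat_lit 1) (nat_lit 6) (nat_lit 2) (nat_lit 4) (nat_lit 3) true (nat_lit 3) true (nat_lit 9) true (nat_lit 6) true (nat_lit 10) true (nat_lit 8) (.s true (nat_lit 1) (nat_lit 6) (nat_lit 4) (nat_lit 2) (nat_lit 3) false (nat_lit 0) true (nat_lit 9) true (nat_lit 6) true (nat_lit 8) true (nat_lit 10) (.s false (nat_lit 3) (nat_lit 9) (nat_lit 1) (nat_lit 2) (nat_lit 6) true (nat_lit 1) true (nat_lit 6) true (nat_lit 4) true (nat_lit 11) true (nat_lit 10) (.s true (nat_lit 2) (nat_lit 9) (nat_lit 2) (nat_lit 1) (nat_lit 6) true (nat_lit 0) true (nat_lit 6) true (nat_lit 4) true (nat_lit 10) true (nat_lit 11) (.s false (nat_lit 2) (nat_lit 9) (nat_lit 2) (nat_lit 2) (nat_lit 5) true (nat_lit 1) true (nat_lit 7) true (nat_lit 4) true (nat_lit 10) true (nat_lit 10) (.s false (nat_lit 2) (nat_lit 11) (nat_lit 0) (nat_lit 2) (nat_lit 6) true (nat_lit 2) true (nat_lit 6) true (nat_lit 3) true (nat_lit 12) true (nat_lit 10) (.s false (nat_lit 3) (nat_lit 12) (nat_lit 0) (nat_lit 2) (nat_lit 6) true (nat_lit 2) true (nat_lit 6) true (nat_lit 3) true (nat_lit 12) true (nat_lit 10) (.s true (nat_lit 2) (nat_lit 10) (nat_lit 2) (nat_lit 0) (nat_lit 6) true (nat_lit 0) true (nat_lit 6) true (nat_lit 3) true (nat_lit 10) true (nat_lit 12) (.s true (nat_lit 2) (nat_lit 10) (nat_lit 2) (nat_lit 2) (nat_lit 4) true (nat_lit 2) true (nat_lit 8) true (nat_lit 3) true (nat_lit 10) true (nat_lit 10) (.s true (nat_lit 2) (nat_lit 11) (nat_lit 2) (nat_lit 2) (nat_lit 4) true (nat_lit 2) true (nat_lit 8) true (nat_lit 3) true (nat_lit 10) true (nat_lit 10) (.s true (nat_lit 3) (nat_lit 12) (nat_lit 2) (nat_lit 2) (nat_lit 4) true (nat_lit 2) true (nat_lit 8) true (nat_lit 3) true (nat_lit 10) true (nat_lit 10) dC1b_i105))))))))))))) (.nd (.nd (.nd .leaf (nat_lit 84997) (nat_lit 749) (.n (nat_lit 290) (nat_lit 1) (.n (nat_lit 291) (nat_lit 2) (.n (nat_lit 293) (nat_lit 3) (.p (nat_lit 294) (nat_lit 2) (.n (nat_lit 295) (nat_lit 2) (.n (nat_lit 296) (nat_lit 3) (.p (nat_lit 297) (nat_lit 3) (.p (nat_lit 299) (nat_lit 3) (.p (nat_lit 300) (nat_lit 1) (.n (nat_lit 301) (nat_lit 3) (.p (nat_lit 302) (nat_lit 2) (.p (nat_lit 304) (nat_lit 2) (.p (nat_lit 305) (nat_lit 2) (.n (nat_lit 308) (nat_lit 3) (.n (nat_lit 310) (nat_lit 1) (.p (nat_lit 311) (nat_lit 1) (.p (nat_lit 312) (nat_lit 1) (.n (nat_lit 317) (nat_lit 1) (.n (nat_lit 318) (nat_lit 1) (.n (nat_lit 319) (nat_lit 1) .z)))))))))))))))))))) (.ct dC1b_c292 (nat_lit 1) (nat_lit 7) (.s true (nat_lit 1) (nat_lit 12) (nat_lit 1) (nat_lit 2) (nat_lit 6) true (nat_lit 1) true (nat_lit 6) true (nat_lit 4) true (nat_lit 11) true (nat_lit 10) (.s true (nat_lit 1) (nat_lit 12) (nat_lit 2) (nat_lit 1) (nat_lit 6) true (nat_lit 0) true (nat_lit 6) true (nat_lit 4) true (nat_lit 10) true (nat_lit 11) (.s true (nat_lit 1) (nat_lit 32) (nat_lit 1) (nat_lit 2) (nat_lit 2) true (nat_lit 7) true (nat_lit 10) false (nat_lit 1) true (nat_lit 11) true (nat_lit 10) (.s true (nat_lit 1) (nat_lit 32) (nat_lit 2) (nat_lit 1) (nat_lit 2) true (nat_lit 6) true (nat_lit 10) false (nat_lit 1) true (nat_lit 10) true (nat_lit 11) (.s true (nat_lit 1) (nat_lit 46) (nat_lit 0) (nat_lit 1) (nat_lit 1) true (nat_lit 9) true (nat_lit 11) false (nat_lit 5) true (nat_lit 12) true (nat_lit 11) (.e true (nat_lit 1) (nat_lit 33) (nat_lit 17) (nat_lit 1) (.e true (nat_lit 1) (nat_lit 69) (nat_lit 6) (nat_lit 6) (.e true (nat_lit 2) (nat_lit 154) (nat_lit 2) (nat_lit 10) (.e false (nat_lit 1) (nat_lit 156) (nat_lit 2) (nat_lit 10) (.e false (nat_lit 1) (nat_lit 157) (nat_lit 2) (nat_lit 10) (.e true (nat_lit 2) (nat_lit 159) (nat_lit 2) (nat_lit 10) dC1b_i106)))))))))))) .leaf) (nat_lit 84998) (nat_lit 838) (.p (nat_lit 345) (nat_lit 1) .z) .df .leaf) (nat_lit 85002) (nat_lit 1050) (.n (nat_lit 355) (nat_lit 2) (.n (nat_lit 356) (nat_lit 3) (.n (nat_lit 357) (nat_lit 1) (.p (nat_lit 358) (nat_lit 2) (.p (nat_lit 359) (nat_lit 1) (.n (nat_lit 361) (nat_lit 3) (.p (nat_lit 362) (nat_lit 3) (.n (nat_lit 364) (nat_lit 1) (.n (nat_lit 365) (nat_lit 1) (.n (nat_lit 366) (nat_lit 1) (.n (nat_lit 367) (nat_lit 2) (.n (nat_lit 369) (nat_lit 3) (.p (nat_lit 370) (nat_lit 1) (.p (nat_lit 372) (nat_lit 1) (.n (nat_lit 373) (nat_lit 2) (.p (nat_lit 374) (nat_lit 3) (.n (nat_lit 377) (nat_lit 1) (.p (nat_lit 381) (nat_lit 2) (.p (nat_lit 382) (nat_lit 3) (.n (nat_lit 387) (nat_lit 2) (.p (nat_lit 389) (nat_lit 2) (.p (nat_lit 391) (nat_lit 1) (.p (nat_lit 392) (nat_lit 1) (.p (nat_lit 393) (nat_lit 2) (.p (nat_lit 395) (nat_lit 1) (.p (nat_lit 396) (nat_lit 3) (.p (nat_lit 402) (nat_lit 1) (.p (nat_lit 412) (nat_lit 1) (.n (nat_lit 421) (nat_lit 1) .z))))))))))))))))))))))))))))) (.ct dC1b_c548 (nat_lit 1) (nat_lit 9) (.s false (nat_lit 1) (nat_lit 83) (nat_lit 1) (nat_lit 0) (nat_lit 2) true (nat_lit 14) true (nat_lit 17) false (nat_lit 9) true (nat_lit 18) true (nat_lit 19) dC1b_i107)) (.nd (.nd .leaf (nat_lit 85003) (nat_lit 1039) (.p (nat_lit 355) (nat_lit 3) (.n (nat_lit 356) (nat_lit 2) (.p (nat_lit 357) (nat_lit 3) (.p (nat_lit 358) (nat_lit 2) (.n (nat_lit 359) (nat_lit 2) (.n (nat_lit 360) (nat_lit 1) (.n (nat_lit 361) (nat_lit 3) (.p (nat_lit 362) (nat_lit 3) (.n (nat_lit 363) (nat_lit 1) (.n (nat_lit 364) (nat_lit 2) (.n (nat_lit 366) (nat_lit 2) (.p (nat_lit 369) (nat_lit 3) (.p (nat_lit 370) (nat_lit 3) (.n (nat_lit 372) (nat_lit 2) (.p (nat_lit 373) (nat_lit 2) (.n (nat_lit 374) (nat_lit 2) (.n (nat_lit 375) (nat_lit 2) (.p (nat_lit 381) (nat_lit 2) (.n (nat_lit 382) (nat_lit 1) (.n (nat_lit 383) (nat_lit 1) (.n (nat_lit 384) (nat_lit 1) (.n (nat_lit 385) (nat_lit 2) (.n (nat_lit 386) (nat_lit 2) (.p (nat_lit 387) (nat_lit 1) (.n (nat_lit 388) (nat_lit 3) (.p (nat_lit 390) (nat_lit 3) (.n (nat_lit 398) (nat_lit 1) (.p (nat_lit 402) (nat_lit 1) (.p (nat_lit 412) (nat_lit 1) .z))))))))))))))))))))))))))))) (.ct dC1b_c548 (nat_lit 1) (nat_lit 9) (.s false (nat_lit 1) (nat_lit 83) (nat_lit 2) (nat_lit 0) (nat_lit 1) true (nat_lit 14) true (nat_lit 18) false (nat_lit 9) true (nat_lit 17) true (nat_lit 19) (.e true (nat_lit 1) (nat_lit 148) (nat_lit 5) (nat_lit 14) (.e false (nat_lit 1) (nat_lit 284) (nat_lit 1) (nat_lit 18) (.e true (nat_lit 1) (nat_lit 212) (nat_lit 2) (nat_lit 17) (.e false (nat_lit 3) (nat_lit 213) (nat_lit 2) (nat_lit 17) (.e false (nat_lit 1) (nat_lit 214) (nat_lit 2) (nat_lit 17) dC1b_i108))))))) .leaf) (nat_lit 85004) (nat_lit 1049) (.p (nat_lit 355) (nat_lit 3) (.n (nat_lit 356) (nat_lit 3) (.n (nat_lit 357) (nat_lit 2) (.p (nat_lit 358) (nat_lit 3) (.n (nat_lit 359) (nat_lit 3) (.p (nat_lit 361) (nat_lit 3) (.n (nat_lit 362) (nat_lit 3) (.p (nat_lit 363) (nat_lit 3) (.p (nat_lit 364) (nat_lit 3) (.p (nat_lit 365) (nat_lit 1) (.p (nat_lit 366) (nat_lit 3) (.n (nat_lit 367) (nat_lit 3) (.p (nat_lit 369) (nat_lit 2) (.p (nat_lit 370) (nat_lit 1) (.n (nat_lit 372) (nat_lit 3) (.n (nat_lit 373) (nat_lit 2) (.p (nat_lit 374) (nat_lit 3) (.p (nat_lit 377) (nat_lit 1) (.n (nat_lit 382) (nat_lit 3) (.n (nat_lit 383) (nat_lit 3) (.n (nat_lit 384) (nat_lit 2) (.p (nat_lit 385) (nat_lit 2) (.n (nat_lit 386) (nat_lit 3) (.p (nat_lit 387) (nat_lit 2) (.p (nat_lit 388) (nat_lit 1) (.n (nat_lit 389) (nat_lit 1) (.p (nat_lit 390) (nat_lit 1) (.p (nat_lit 391) (nat_lit 3) (.n (nat_lit 392) (nat_lit 3) (.p (nat_lit 393) (nat_lit 1) (.n (nat_lit 394) (nat_lit 3) (.p (nat_lit 395) (nat_lit 2) (.n (nat_lit 396) (nat_lit 2) (.n (nat_lit 398) (nat_lit 1) (.p (nat_lit 421) (nat_lit 1) .z))))))))))))))))))))))))))))))))))) (.ct dC1b_c548 (nat_lit 1) (nat_lit 9) (.s true (nat_lit 1) (nat_lit 83) (nat_lit 1) (nat_lit 2) (nat_lit 0) true (nat_lit 16) true (nat_lit 19) false (nat_lit 9) true (nat_lit 18) true (nat_lit 17) dC1b_i109)) .leaf))) (nat_lit 85006) (nat_lit 1286) (.n (nat_lit 426) (nat_lit 3) (.n (nat_lit 427) (nat_lit 3) (.n (nat_lit 428) (nat_lit 3) (.p (nat_lit 429) (nat_lit 1) (.n (nat_lit 430) (nat_lit 3) (.p (nat_lit 431) (nat_lit 3) (.p (nat_lit 432) (nat_lit 2) (.p (nat_lit 433) (nat_lit 2) (.p (nat_lit 434) (nat_lit 2) (.n (nat_lit 435) (nat_lit 3) (.p (nat_lit 436) (nat_lit 3) (.n (nat_lit 438) (nat_lit 1) (.n (nat_lit 455) (nat_lit 1) .z))))))))))))) (.ct dC1b_c533 (nat_lit 1) (nat_lit 5) (.s false (nat_lit 1) (nat_lit 83) (nat_lit 2) (nat_lit 0) (nat_lit 2) true (nat_lit 9) true (nat_lit 13) false (nat_lit 5) true (nat_lit 13) true (nat_lit 15) (.e true (nat_lit 1) (nat_lit 148) (nat_lit 6) (nat_lit 9) (.e true (nat_lit 3) (nat_lit 260) (nat_lit 2) (nat_lit 13) (.e true (nat_lit 3) (nat_lit 261) (nat_lit 2) (nat_lit 13) (.e true (nat_lit 2) (nat_lit 262) (nat_lit 2) (nat_lit 13) (.e true (nat_lit 2) (nat_lit 263) (nat_lit 2) (nat_lit 13) (.e true (nat_lit 2) (nat_lit 264) (nat_lit 2) (nat_lit 13) (.e false (nat_lit 3) (nat_lit 265) (nat_lit 2) (nat_lit 13) (.e false (nat_lit 1) (nat_lit 266) (nat_lit 2) (nat_lit 13) (.e true (nat_lit 2) (nat_lit 267) (nat_lit 2) (nat_lit 13) (.e false (nat_lit 1) (nat_lit 268) (nat_lit 2) (nat_lit 13) (.e true (nat_lit 1) (nat_lit 269) (nat_lit 2) (nat_lit 13) (.e false (nat_lit 1) (nat_lit 270) (nat_lit 2) (nat_lit 13) (.e false (nat_lit 2) (nat_lit 271) (nat_lit 2) (nat_lit 13) (.e true (nat_lit 2) (nat_lit 273) (nat_lit 2) (nat_lit 13) (.e false (nat_lit 1) (nat_lit 274) (nat_lit 2) (nat_lit 13) (.e false (nat_lit 1) (nat_lit 276) (nat_lit 2) (nat_lit 13) (.e false (nat_lit 2) (nat_lit 277) (nat_lit 2) (nat_lit 13) (.e false (nat_lit 1) (nat_lit 278) (nat_lit 2) (nat_lit 13) (.e false (nat_lit 3) (nat_lit 279) (nat_lit 2) (nat_lit 13) (.e false (nat_lit 1) (nat_lit 280) (nat_lit 2) (nat_lit 13) (.e false (nat_lit 1) (nat_lit 287) (nat_lit 2) (nat_lit 13) (.e false (nat_lit 1) (nat_lit 329) (nat_lit 0) (nat_lit 15) (.u (nat_lit 2) (.p (nat_lit 0) (nat_lit 3) (.n (nat_lit 1) (nat_lit 1) (.p (nat_lit 2) (nat_lit 3) (.n (nat_lit 4) (nat_lit 2) (.n (nat_lit 5) (nat_lit 1) (.n (nat_lit 6) (nat_lit 1) (.n (nat_lit 7) (nat_lit 1) (.p (nat_lit 9) (nat_lit 4) (.n (nat_lit 13) (nat_lit 1) (.p (nat_lit 15) (nat_lit 1) (.n (nat_lit 16) (nat_lit 4) (.n (nat_lit 17) (nat_lit 1) (.n (nat_lit 18) (nat_lit 1) (.n (nat_lit 19) (nat_lit 3) (.p (nat_lit 22) (nat_lit 1) (.n (nat_lit 27) (nat_lit 1) (.p (nat_lit 30) (nat_lit 3) .z))))))))))))))))) .nil))))))))))))))))))))))))) (.nd (.nd (.nd (.nd .leaf (nat_lit 85007) (nat_lit 1288) (.n (nat_lit 427) (nat_lit 3) (.p (nat_lit 428) (nat_lit 3) (.n (nat_lit 429) (nat_lit 3) (.p (nat_lit 430) (nat_lit 1) (.p (nat_lit 431) (nat_lit 1) (.p (nat_lit 434) (nat_lit 2) (.p (nat_lit 435) (nat_lit 3) (.n (nat_lit 436) (nat_lit 3) (.n (nat_lit 438) (nat_lit 2) (.p (nat_lit 439) (nat_lit 3) (.p (nat_lit 441) (nat_lit 2) (.p (nat_lit 443) (nat_lit 1) (.p (nat_lit 444) (nat_lit 3) (.n (nat_lit 455) (nat_lit 2) (.n (nat_lit 456) (nat_lit 2) (.p (nat_lit 459) (nat_lit 1) .z)))))))))))))))) (.ct dC1b_c533 (nat_lit 1) (nat_lit 5) dC1b_i110) .leaf) (nat_lit 85008) (nat_lit 1441) (.p (nat_lit 460) (nat_lit 3) (.n (nat_lit 461) (nat_lit 1) (.n (nat_lit 462) (nat_lit 1) (.p (nat_lit 463) (nat_lit 1) (.n (nat_lit 464) (nat_lit 2) (.n (nat_lit 465) (nat_lit 3) (.n (nat_lit 467) (nat_lit 3) (.p (nat_lit 469) (nat_lit 3) (.n (nat_lit 470) (nat_lit 3) (.p (nat_lit 471) (nat_lit 3) (.p (nat_lit 472) (nat_lit 2) (.p (nat_lit 473) (nat_lit 2) (.p (nat_lit 474) (nat_lit 2) (.n (nat_lit 475) (nat_lit 3) (.n (nat_lit 476) (nat_lit 3) (.n (nat_lit 477) (nat_lit 1) (.p (nat_lit 479) (nat_lit 2) (.n (nat_lit 487) (nat_lit 1) (.p (nat_lit 489) (nat_lit 2) (.n (nat_lit 493) (nat_lit 1) .z)))))))))))))))))))) (.ct dC1b_c293 (nat_lit 1) (nat_lit 4) (.s true (nat_lit 1) (nat_lit 83) (nat_lit 1) (nat_lit 2) (nat_lit 2) true (nat_lit 10) true (nat_lit 13) false (nat_lit 4) true (nat_lit 14) true (nat_lit 13) (.e true (nat_lit 1) (nat_lit 181) (nat_lit 5) (nat_lit 10) (.e true (nat_lit 1) (nat_lit 302) (nat_lit 2) (nat_lit 13) (.e false (nat_lit 1) (nat_lit 345) (nat_lit 1) (nat_lit 14) (.e true (nat_lit 1) (nat_lit 312) (nat_lit 2) (nat_lit 13) (.u (nat_lit 2) (.n (nat_lit 0) (nat_lit 1) (.n (nat_lit 3) (nat_lit 1) (.p (nat_lit 4) (nat_lit 1) (.p (nat_lit 7) (nat_lit 1) (.p (nat_lit 10) (nat_lit 1) (.n (nat_lit 11) (nat_lit 1) (.n (nat_lit 12) (nat_lit 1) (.p (nat_lit 16) (nat_lit 1) .z)))))))) .nil))))))) .leaf) (nat_lit 86016) (nat_lit 255) (.n (nat_lit 132) (nat_lit 3) (.n (nat_lit 133) (nat_lit 3) (.n (nat_lit 134) (nat_lit 3) (.n (nat_lit 135) (nat_lit 2) (.n (nat_lit 136) (nat_lit 1) (.n (nat_lit 137) (nat_lit 2) (.p (nat_lit 138) (nat_lit 2) (.n (nat_lit 139) (nat_lit 2) (.n (nat_lit 141) (nat_lit 1) (.p (nat_lit 142) (nat_lit 2) (.n (nat_lit 143) (nat_lit 3) (.p (nat_lit 144) (nat_lit 1) (.p (nat_lit 145) (nat_lit 1) (.p (nat_lit 146) (nat_lit 1) (.n (nat_lit 147) (nat_lit 1) (.p (nat_lit 148) (nat_lit 1) (.n (nat_lit 149) (nat_lit 2) (.n (nat_lit 150) (nat_lit 1) (.p (nat_lit 151) (nat_lit 3) (.n (nat_lit 152) (nat_lit 1) .z)))))))))))))))))))) (.ct dC1b_c531 (nat_lit 1) (nat_lit 9) (.s false (nat_lit 1) (nat_lit 4) (nat_lit 3) (nat_lit 2) (nat_lit 2) true (nat_lit 0) true (nat_lit 7) true (nat_lit 5) true (nat_lit 6) true (nat_lit 7) (.s true (nat_lit 1) (nat_lit 6) (nat_lit 3) (nat_lit 0) (nat_lit 2) true (nat_lit 0) true (nat_lit 7) true (nat_lit 3) true (nat_lit 6) true (nat_lit 9) (.e true (nat_lit 1) (nat_lit 14) (nat_lit 10) (nat_lit 0) (.e true (nat_lit 1) (nat_lit 57) (nat_lit 2) (nat_lit 7) (.e false (nat_lit 1) (nat_lit 31) (nat_lit 4) (nat_lit 5) (.e true (nat_lit 1) (nat_lit 62) (nat_lit 2) (nat_lit 7) (.e false (nat_lit 2) (nat_lit 65) (nat_lit 2) (nat_lit 7) (.e false (nat_lit 1) (nat_lit 15) (nat_lit 10) (nat_lit 0) (.e false (nat_lit 1) (nat_lit 61) (nat_lit 2) (nat_lit 7) (.e true (nat_lit 1) (nat_lit 64) (nat_lit 2) (nat_lit 7) (.e true (nat_lit 1) (nat_lit 20) (nat_lit 6) (nat_lit 3) (.e false (nat_lit 1) (nat_lit 83) (nat_lit 0) (nat_lit 9) (.e false (nat_lit 1) (nat_lit 85) (nat_lit 0) (nat_lit 9) (.e true (nat_lit 1) (nat_lit 87) (nat_lit 0) (nat_lit 9) (.e true (nat_lit 1) (nat_lit 90) (nat_lit 0) (nat_lit 9) (.u (nat_lit 2) (.p (nat_lit 0) (nat_lit 1) (.p (nat_lit 2) (nat_lit 2) (.n (nat_lit 6) (nat_lit 1) (.p (nat_lit 7) (nat_lit 1) (.n (nat_lit 19) (nat_lit 1) (.p (nat_lit 56) (nat_lit 1) .z)))))) .nil))))))))))))))))) (.nd (.nd .leaf (nat_lit 86017) (nat_lit 306) (.p (nat_lit 153) (nat_lit 1) (.p (nat_lit 154) (nat_lit 1) (.n (nat_lit 155) (nat_lit 2) (.p (nat_lit 156) (nat_lit 2) (.n (nat_lit 157) (nat_lit 2) (.n (nat_lit 159) (nat_lit 3) (.p (nat_lit 160) (nat_lit 3) (.p (nat_lit 161) (nat_lit 3) (.n (nat_lit 162) (nat_lit 3) (.n (nat_lit 163) (nat_lit 1) (.p (nat_lit 164) (nat_lit 1) (.p (nat_lit 165) (nat_lit 1) (.n (nat_lit 167) (nat_lit 2) (.p (nat_lit 170) (nat_lit 1) (.p (nat_lit 171) (nat_lit 3) (.p (nat_lit 173) (nat_lit 1) .z)))))))))))))))) (.ct dC1b_c291 (nat_lit 1) (nat_lit 8) (.s false (nat_lit 1) (nat_lit 6) (nat_lit 2) (nat_lit 1) (nat_lit 3) true (nat_lit 1) true (nat_lit 6) true (nat_lit 3) true (nat_lit 7) true (nat_lit 8) (.e false (nat_lit 1) (nat_lit 17) (nat_lit 10) (nat_lit 1) (.e false (nat_lit 1) (nat_lit 45) (nat_lit 3) (nat_lit 6) (.e false (nat_lit 1) (nat_lit 24) (nat_lit 6) (nat_lit 3) (.e true (nat_lit 1) (nat_lit 26) (nat_lit 6) (nat_lit 3) (.e false (nat_lit 1) (nat_lit 27) (nat_lit 6) (nat_lit 3) (.e true (nat_lit 1) (nat_lit 74) (nat_lit 2) (nat_lit 7) (.e false (nat_lit 1) (nat_lit 83) (nat_lit 1) (nat_lit 8) (.e false (nat_lit 1) (nat_lit 85) (nat_lit 1) (nat_lit 8) (.e true (nat_lit 1) (nat_lit 87) (nat_lit 1) (nat_lit 8) (.u (nat_lit 2) (.n (nat_lit 18) (nat_lit 1) .z) .nil)))))))))))) .leaf) (nat_lit 86018) (nat_lit 342) (.p (nat_lit 182) (nat_lit 1) .z) .df .leaf)) (nat_lit 86019) (nat_lit 516) (.p (nat_lit 212) (nat_lit 2) (.n (nat_lit 213) (nat_lit 3) (.p (nat_lit 214) (nat_lit 3) (.n (nat_lit 215) (nat_lit 2) (.p (nat_lit 216) (nat_lit 2) (.n (nat_lit 217) (nat_lit 1) (.n (nat_lit 220) (nat_lit 2) (.p (nat_lit 221) (nat_lit 2) (.p (nat_lit 222) (nat_lit 1) (.n (nat_lit 223) (nat_lit 3) (.p (nat_lit 224) (nat_lit 2) (.n (nat_lit 226) (nat_lit 1) (.p (nat_lit 227) (nat_lit 3) (.n (nat_lit 229) (nat_lit 1) (.p (nat_lit 231) (nat_lit 2) (.p (nat_lit 232) (nat_lit 3) (.p (nat_lit 233) (nat_lit 1) (.n (nat_lit 234) (nat_lit 3) (.n (nat_lit 235) (nat_lit 2) (.n (nat_lit 236) (nat_lit 3) (.n (nat_lit 237) (nat_lit 2) (.p (nat_lit 238) (nat_lit 1) (.p (nat_lit 239) (nat_lit 3) (.p (nat_lit 240) (nat_lit 1) (.n (nat_lit 241) (nat_lit 2) (.p (nat_lit 242) (nat_lit 1) (.p (nat_lit 246) (nat_lit 1) (.n (nat_lit 247) (nat_lit 1) .z)))))))))))))))))))))))))))) (.ct dC1b_c547 (nat_lit 1) (nat_lit 11) (.s false (nat_lit 1) (nat_lit 6) (nat_lit 3) (nat_lit 0) (nat_lit 5) false (nat_lit 2) true (nat_lit 9) true (nat_lit 8) true (nat_lit 11) true (nat_lit 14) (.s true (nat_lit 1) (nat_lit 6) (nat_lit 3) (nat_lit 5) (nat_lit 0) true (nat_lit 7) true (nat_lit 14) true (nat_lit 8) true (nat_lit 11) true (nat_lit 9) (.s false (nat_lit 1) (nat_lit 10) (nat_lit 0) (nat_lit 6) (nat_lit 1) true (nat_lit 11) true (nat_lit 13) true (nat_lit 4) true (nat_lit 14) true (nat_lit 8) (.s false (nat_lit 1) (nat_lit 12) (nat_lit 0) (nat_lit 6) (nat_lit 1) true (nat_lit 11) true (nat_lit 13) true (nat_lit 4) true (nat_lit 14) true (nat_lit 8) (.s false (nat_lit 1) (nat_lit 10) (nat_lit 6) (nat_lit 0) (nat_lit 1) true (nat_lit 1) true (nat_lit 13) true (nat_lit 4) true (nat_lit 8) true (nat_lit 14) (.s false (nat_lit 1) (nat_lit 11) (nat_lit 6) (nat_lit 0) (nat_lit 1) true (nat_lit 1) true (nat_lit 13) true (nat_lit 4) true (nat_lit 8) true (nat_lit 14) (.s false (nat_lit 2) (nat_lit 13) (nat_lit 2) (nat_lit 0) (nat_lit 4) true (nat_lit 2) true (nat_lit 10) true (nat_lit 3) true (nat_lit 12) true (nat_lit 14) (.s false (nat_lit 1) (nat_lit 13) (nat_lit 6) (nat_lit 0) (nat_lit 0) true (nat_lit 2) true (nat_lit 14) true (nat_lit 3) true (nat_lit 8) true (nat_lit 14) (.s false (nat_lit 2) (nat_lit 14) (nat_lit 0) (nat_lit 1) (nat_lit 5) true (nat_lit 4) true (nat_lit 9) true (nat_lit 2) true (nat_lit 14) true (nat_lit 13) (.s false (nat_lit 1) (nat_lit 15) (nat_lit 0) (nat_lit 1) (nat_lit 5) true (nat_lit 4) true (nat_lit 9) true (nat_lit 2) true (nat_lit 14) true (nat_lit 13) (.s false (nat_lit 2) (nat_lit 14) (nat_lit 0) (nat_lit 5) (nat_lit 1) true (nat_lit 11) true (nat_lit 13) true (nat_lit 2) true (nat_lit 14) true (nat_lit 9) (.s true (nat_lit 2) (nat_lit 14) (nat_lit 1) (nat_lit 1) (nat_lit 4) true (nat_lit 4) true (nat_lit 10) true (nat_lit 2) true (nat_lit 13) true (nat_lit 13) (.s true (nat_lit 2) (nat_lit 14) (nat_lit 1) (nat_lit 4) (nat_lit 1) false (nat_lit 16) true (nat_lit 13) true (nat_lit 2) true (nat_lit 13) true (nat_lit 10) (.s false (nat_lit 2) (nat_lit 14) (nat_lit 5) (nat_lit 1) (nat_lit 0) true (nat_lit 4) true (nat_lit 14) true (nat_lit 2) true (nat_lit 9) true (nat_lit 13) (.s false (nat_lit 1) (nat_lit 15) (nat_lit 5) (nat_lit 1) (nat_lit 0) true (nat_lit 4) true (nat_lit 14) true (nat_lit 2) true (nat_lit 9) true (nat_lit 13) (.s false (nat_lit 2) (nat_lit 16) (nat_lit 0) (nat_lit 0) (nat_lit 5) true (nat_lit 4) true (nat_lit 9) true (nat_lit 1) true (nat_lit 14) true (nat_lit 14) dC1b_i113))))))))))))))))) (.nd (.nd (.nd .leaf (nat_lit 86020) (nat_lit 659) (.n (nat_lit 260) (nat_lit 3) (.n (nat_lit 261) (nat_lit 1) (.n (nat_lit 263) (nat_lit 2) (.p (nat_lit 264) (nat_lit 3) (.n (nat_lit 265) (nat_lit 2) (.n (nat_lit 267) (nat_lit 1) (.n (nat_lit 268) (nat_lit 1) (.p (nat_lit 269) (nat_lit 3) (.p (nat_lit 270) (nat_lit 3) (.n (nat_lit 271) (nat_lit 1) (.p (nat_lit 272) (nat_lit 2) (.p (nat_lit 273) (nat_lit 2) (.p (nat_lit 274) (nat_lit 2) (.p (nat_lit 275) (nat_lit 1) (.n (nat_lit 276) (nat_lit 1) (.p (nat_lit 277) (nat_lit 1) (.p (nat_lit 278) (nat_lit 3) (.n (nat_lit 279) (nat_lit 2) (.n (nat_lit 283) (nat_lit 1) (.p (nat_lit 284) (nat_lit 1) (.p (nat_lit 286) (nat_lit 3) (.n (nat_lit 287) (nat_lit 1) (.p (nat_lit 288) (nat_lit 3) .z))))))))))))))))))))))) (.ct dC1b_c532 (nat_lit 1) (nat_lit 8) (.s true (nat_lit 1) (nat_lit 33) (nat_lit 0) (nat_lit 2) (nat_lit 2) true (nat_lit 8) true (nat_lit 10) false (nat_lit 2) true (nat_lit 12) true (nat_lit 10) (.e false (nat_lit 2) (nat_lit 132) (nat_lit 2) (nat_lit 10) (.e true (nat_lit 3) (nat_lit 133) (nat_lit 2) (nat_lit 10) (.e false (nat_lit 1) (nat_lit 134) (nat_lit 2) (nat_lit 10) (.e false (nat_lit 1) (nat_lit 135) (nat_lit 2) (nat_lit 10) (.e true (nat_lit 1) (nat_lit 138) (nat_lit 2) (nat_lit 10) (.e false (nat_lit 1) (nat_lit 139) (nat_lit 2) (nat_lit 10) (.e true (nat_lit 1) (nat_lit 140) (nat_lit 2) (nat_lit 10) (.e true (nat_lit 1) (nat_lit 33) (nat_lit 14) (nat_lit 2) (.e false (nat_lit 1) (nat_lit 194) (nat_lit 0) (nat_lit 12) (.e false (nat_lit 1) (nat_lit 136) (nat_lit 2) (nat_lit 10) (.e false (nat_lit 2) (nat_lit 137) (nat_lit 2) (nat_lit 10) (.e false (nat_lit 3) (nat_lit 143) (nat_lit 2) (nat_lit 10) (.e true (nat_lit 1) (nat_lit 144) (nat_lit 2) (nat_lit 10) (.e true (nat_lit 1) (nat_lit 145) (nat_lit 2) (nat_lit 10) (.e true (nat_lit 1) (nat_lit 146) (nat_lit 2) (nat_lit 10) (.e false (nat_lit 1) (nat_lit 147) (nat_lit 2) (nat_lit 10) (.e true (nat_lit 1) (nat_lit 148) (nat_lit 2) (nat_lit 10) (.e false (nat_lit 2) (nat_lit 149) (nat_lit 2) (nat_lit 10) (.e false (nat_lit 1) (nat_lit 150) (nat_lit 2) (nat_lit 10) (.e true (nat_lit 3) (nat_lit 151) (nat_lit 2) (nat_lit 10) (.e false (nat_lit 1) (nat_lit 152) (nat_lit 2) (nat_lit 10) (.u (nat_lit 2) (.p (nat_lit 0) (nat_lit 1) (.n (nat_lit 1) (nat_lit 1) (.n (nat_lit 4) (nat_lit 1) (.p (nat_lit 5) (nat_lit 1) (.p (nat_lit 7) (nat_lit 1) (.p (nat_lit 11) (nat_lit 1) (.n (nat_lit 13) (nat_lit 1) (.n (nat_lit 14) (nat_lit 1) (.p (nat_lit 17) (nat_lit 1) (.p (nat_lit 97) (nat_lit 1) .z)))))))))) .nil)))))))))))))))))))))))) .leaf) (nat_lit 86021) (nat_lit 742) (.p (nat_lit 290) (nat_lit 2) (.n (nat_lit 291) (nat_lit 1) (.p (nat_lit 292) (nat_lit 2) (.p (nat_lit 293) (nat_lit 2) (.n (nat_lit 295) (nat_lit 2) (.p (nat_lit 296) (nat_lit 3) (.n (nat_lit 297) (nat_lit 3) (.p (nat_lit 298) (nat_lit 2) (.p (nat_lit 299) (nat_lit 1) (.p (nat_lit 300) (nat_lit 3) (.n (nat_lit 301) (nat_lit 3) (.p (nat_lit 302) (nat_lit 2) (.p (nat_lit 304) (nat_lit 1) (.p (nat_lit 305) (nat_lit 2) (.p (nat_lit 307) (nat_lit 2) (.p (nat_lit 308) (nat_lit 1) (.n (nat_lit 310) (nat_lit 3) (.p (nat_lit 312) (nat_lit 1) (.p (nat_lit 316) (nat_lit 3) (.p (nat_lit 317) (nat_lit 2) (.n (nat_lit 318) (nat_lit 1) (.n (nat_lit 319) (nat_lit 1) .z)))))))))))))))))))))) (.ct dC1b_c292 (nat_lit 1) (nat_lit 7) dC1b_i114) .leaf) (nat_lit 86022) (nat_lit 839) (.p (nat_lit 346) (nat_lit 1) .z) .df (.nd (.nd .leaf (nat_lit 86027) (nat_lit 1179) (.n (nat_lit 355) (nat_lit 2) (.n (nat_lit 356) (nat_lit 2) (.n (nat_lit 357) (nat_lit 2) (.p (nat_lit 358) (nat_lit 3) (.n (nat_lit 359) (nat_lit 2) (.n (nat_lit 360) (nat_lit 1) (.p (nat_lit 361) (nat_lit 3) (.n (nat_lit 362) (nat_lit 3) (.p (nat_lit 365) (nat_lit 2) (.n (nat_lit 366) (nat_lit 1) (.p (nat_lit 369) (nat_lit 2) (.p (nat_lit 370) (nat_lit 3) (.p (nat_lit 372) (nat_lit 1) (.p (nat_lit 373) (nat_lit 2) (.n (nat_lit 375) (nat_lit 1) (.n (nat_lit 381) (nat_lit 1) (.p (nat_lit 382) (nat_lit 1) (.p (nat_lit 383) (nat_lit 2) (.p (nat_lit 384) (nat_lit 3) (.n (nat_lit 385) (nat_lit 2) (.n (nat_lit 387) (nat_lit 3) (.p (nat_lit 388) (nat_lit 3) (.n (nat_lit 389) (nat_lit 3) (.p (nat_lit 391) (nat_lit 2) (.p (nat_lit 392) (nat_lit 2) (.p (nat_lit 393) (nat_lit 1) (.p (nat_lit 394) (nat_lit 2) (.p (nat_lit 395) (nat_lit 3) (.n (nat_lit 396) (nat_lit 2) (.p (nat_lit 397) (nat_lit 1) (.n (nat_lit 398) (nat_lit 1) (.n (nat_lit 401) (nat_lit 1) (.p (nat_lit 402) (nat_lit 1) (.n (nat_lit 411) (nat_lit 1) (.p (nat_lit 412) (nat_lit 1) .z))))))))))))))))))))))))))))))))))) (.ct dC1b_c548 (nat_lit 1) (nat_lit 9) (.s true (nat_lit 1) (nat_lit 84) (nat_lit 0) (nat_lit 2) (nat_lit 1) true (nat_lit 16) true (nat_lit 18) false (nat_lit 9) true (nat_lit 19) true (nat_lit 17) (.e true (nat_lit 1) (nat_lit 182) (nat_lit 3) (nat_lit 16) (.e false (nat_lit 3) (nat_lit 260) (nat_lit 1) (nat_lit 18) (.e false (nat_lit 3) (nat_lit 261) (nat_lit 1) (nat_lit 18) (.e false (nat_lit 3) (nat_lit 262) (nat_lit 1) (nat_lit 18) (.e false (nat_lit 2) (nat_lit 263) (nat_lit 1) (nat_lit 18) (.e false (nat_lit 1) (nat_lit 264) (nat_lit 1) (nat_lit 18) (.e false (nat_lit 2) (nat_lit 265) (nat_lit 1) (nat_lit 18) (.e true (nat_lit 2) (nat_lit 266) (nat_lit 1) (nat_lit 18) dC1b_i116)))))))))) .leaf) (nat_lit 86028) (nat_lit 1189) (.n (nat_lit 356) (nat_lit 1) (.p (nat_lit 357) (nat_lit 1) (.n (nat_lit 358) (nat_lit 2) (.n (nat_lit 359) (nat_lit 3) (.p (nat_lit 361) (nat_lit 1) (.n (nat_lit 362) (nat_lit 1) (.n (nat_lit 363) (nat_lit 2) (.p (nat_lit 364) (nat_lit 2) (.n (nat_lit 365) (nat_lit 2) (.p (nat_lit 366) (nat_lit 1) (.n (nat_lit 369) (nat_lit 3) (.p (nat_lit 370) (nat_lit 3) (.p (nat_lit 372) (nat_lit 3) (.n (nat_lit 373) (nat_lit 1) (.n (nat_lit 374) (nat_lit 3) (.p (nat_lit 375) (nat_lit 3) (.n (nat_lit 376) (nat_lit 1) (.p (nat_lit 377) (nat_lit 1) (.n (nat_lit 383) (nat_lit 2) (.p (nat_lit 384) (nat_lit 1) (.n (nat_lit 385) (nat_lit 1) (.n (nat_lit 386) (nat_lit 2) (.n (nat_lit 387) (nat_lit 2) (.p (nat_lit 388) (nat_lit 2) (.p (nat_lit 390) (nat_lit 3) (.n (nat_lit 392) (nat_lit 1) (.n (nat_lit 393) (nat_lit 1) (.n (nat_lit 394) (nat_lit 1) (.p (nat_lit 396) (nat_lit 2) (.p (nat_lit 397) (nat_lit 1) (.n (nat_lit 398) (nat_lit 1) (.n (nat_lit 420) (nat_lit 1) (.p (nat_lit 421) (nat_lit 1) .z))))))))))))))))))))))))))))))))) (.ct dC1b_c548 (nat_lit 1) (nat_lit 9) (.s true (nat_lit 1) (nat_lit 44) (nat_lit 5) (nat_lit 0) (nat_lit 0) true (nat_lit 9) true (nat_lit 19) false (nat_lit 3) true (nat_lit 14) true (nat_lit 19) (.e true (nat_lit 1) (nat_lit 85) (nat_lit 12) (nat_lit 9) (.e false (nat_lit 1) (nat_lit 86) (nat_lit 12) (nat_lit 9) (.e true (nat_lit 1) (nat_lit 88) (nat_lit 12) (nat_lit 9) (.e false (nat_lit 1) (nat_lit 89) (nat_lit 12) (nat_lit 9) (.e true (nat_lit 1) (nat_lit 90) (nat_lit 12) (nat_lit 9) (.e false (nat_lit 1) (nat_lit 91) (nat_lit 12) (nat_lit 9) dC1b_i117)))))))) .leaf)))) (nat_lit 86030) (nat_lit 1363) (.n (nat_lit 426) (nat_lit 2) (.n (nat_lit 427) (nat_lit 3) (.p (nat_lit 428) (nat_lit 2) (.n (nat_lit 430) (nat_lit 3) (.n (nat_lit 431) (nat_lit 2) (.p (nat_lit 432) (nat_lit 1) (.p (nat_lit 433) (nat_lit 1) (.p (nat_lit 434) (nat_lit 3) (.n (nat_lit 435) (nat_lit 1) (.n (nat_lit 436) (nat_lit 2) (.p (nat_lit 438) (nat_lit 3) (.n (nat_lit 439) (nat_lit 3) (.n (nat_lit 441) (nat_lit 1) (.n (nat_lit 442) (nat_lit 1) (.n (nat_lit 443) (nat_lit 2) (.p (nat_lit 444) (nat_lit 2) (.n (nat_lit 445) (nat_lit 3) (.p (nat_lit 454) (nat_lit 1) (.n (nat_lit 455) (nat_lit 1) (.p (nat_lit 456) (nat_lit 1) (.p (nat_lit 459) (nat_lit 3) .z))))))))))))))))))))) (.ct dC1b_c533 (nat_lit 1) (nat_lit 5) (.s true (nat_lit 1) (nat_lit 14) (nat_lit 12) (nat_lit 2) (nat_lit 2) true (nat_lit 0) true (nat_lit 13) true (nat_lit 5) true (nat_lit 6) true (nat_lit 13) (.e true (nat_lit 1) (nat_lit 40) (nat_lit 33) (nat_lit 0) (.e false (nat_lit 3) (nat_lit 261) (nat_lit 2) (nat_lit 13) (.e true (nat_lit 2) (nat_lit 263) (nat_lit 2) (nat_lit 13) (.e true (nat_lit 2) (nat_lit 266) (nat_lit 2) (nat_lit 13) (.e false (nat_lit 1) (nat_lit 271) (nat_lit 2) (nat_lit 13) (.e true (nat_lit 1) (nat_lit 273) (nat_lit 2) (nat_lit 13) (.e true (nat_lit 3) (nat_lit 274) (nat_lit 2) (nat_lit 13) (.e true (nat_lit 2) (nat_lit 275) (nat_lit 2) (nat_lit 13) (.e false (nat_lit 2) (nat_lit 276) (nat_lit 2) (nat_lit 13) (.e true (nat_lit 2) (nat_lit 277) (nat_lit 2) (nat_lit 13) (.e false (nat_lit 2) (nat_lit 278) (nat_lit 2) (nat_lit 13) (.e false (nat_lit 1) (nat_lit 279) (nat_lit 2) (nat_lit 13) (.e true (nat_lit 3) (nat_lit 280) (nat_lit 2) (nat_lit 13) (.e false (nat_lit 1) (nat_lit 101) (nat_lit 12) (nat_lit 6) (.e true (nat_lit 1) (nat_lit 265) (nat_lit 2) (nat_lit 13) (.e false (nat_lit 1) (nat_lit 267) (nat_lit 2) (nat_lit 13) (.e false (nat_lit 1) (nat_lit 269) (nat_lit 2) (nat_lit 13) (.e false (nat_lit 1) (nat_lit 283) (nat_lit 2) (nat_lit 13) (.e true (nat_lit 1) (nat_lit 284) (nat_lit 2) (nat_lit 13) (.e true (nat_lit 2) (nat_lit 286) (nat_lit 2) (nat_lit 13) (.e true (nat_lit 3) (nat_lit 287) (nat_lit 2) (nat_lit 13) (.e false (nat_lit 2) (nat_lit 288) (nat_lit 2) (nat_lit 13) (.u (nat_lit 2) (.n (nat_lit 0) (nat_lit 5) (.p (nat_lit 2) (nat_lit 2) (.n (nat_lit 3) (nat_lit 2) (.n (nat_lit 5) (nat_lit 1) (.p (nat_lit 6) (nat_lit 2) (.p (nat_lit 7) (nat_lit 2) (.p (nat_lit 8) (nat_lit 4) (.p (nat_lit 9) (nat_lit 1) (.p (nat_lit 10) (nat_lit 2) (.p (nat_lit 13) (nat_lit 2) (.p (nat_lit 15) (nat_lit 4) (.p (nat_lit 18) (nat_lit 1) (.n (nat_lit 19) (nat_lit 3) (.p (nat_lit 22) (nat_lit 2) (.p (nat_lit 26) (nat_lit 1) (.p (nat_lit 27) (nat_lit 1) (.n (nat_lit 28) (nat_lit 1) (.p (nat_lit 29) (nat_lit 1) (.p (nat_lit 30) (nat_lit 1) (.n (nat_lit 174) (nat_lit 1) (.p (nat_lit 187) (nat_lit 1) (.n (nat_lit 191) (nat_lit 1) .z)))))))))))))))))))))) .nil))))))))))))))))))))))))) (.nd (.nd (.nd (.nd (.nd .leaf (nat_lit 86031) (nat_lit 1365) (.n (nat_lit 427) (nat_lit 2) (.p (nat_lit 429) (nat_lit 2) (.n (nat_lit 430) (nat_lit 3) (.n (nat_lit 432) (nat_lit 3) (.n (nat_lit 433) (nat_lit 3) (.p (nat_lit 435) (nat_lit 1) (.n (nat_lit 436) (nat_lit 3) (.p (nat_lit 439) (nat_lit 2) (.n (nat_lit 441) (nat_lit 2) (.n (nat_lit 442) (nat_lit 1) (.p (nat_lit 443) (nat_lit 3) (.n (nat_lit 444) (nat_lit 3) (.p (nat_lit 454) (nat_lit 2) (.n (nat_lit 455) (nat_lit 2) (.p (nat_lit 456) (nat_lit 2) (.n (nat_lit 459) (nat_lit 1) .z)))))))))))))))) (.ct dC1b_c533 (nat_lit 1) (nat_lit 5) (.s false (nat_lit 1) (nat_lit 84) (nat_lit 2) (nat_lit 2) (nat_lit 0) true (nat_lit 11) true (nat_lit 15) false (nat_lit 5) true (nat_lit 13) true (nat_lit 13) (.e false (nat_lit 1) (nat_lit 182) (nat_lit 4) (nat_lit 11) dC1b_i118))) .leaf) (nat_lit 86032) (nat_lit 1528) (.p (nat_lit 460) (nat_lit 1) (.p (nat_lit 462) (nat_lit 3) (.n (nat_lit 463) (nat_lit 2) (.n (nat_lit 464) (nat_lit 3) (.n (nat_lit 465) (nat_lit 1) (.n (nat_lit 469) (nat_lit 1) (.n (nat_lit 470) (nat_lit 1) (.p (nat_lit 471) (nat_lit 1) (.p (nat_lit 472) (nat_lit 2) (.n (nat_lit 473) (nat_lit 3) (.n (nat_lit 474) (nat_lit 3) (.n (nat_lit 475) (nat_lit 2) (.p (nat_lit 476) (nat_lit 1) (.p (nat_lit 477) (nat_lit 3) (.p (nat_lit 479) (nat_lit 2) (.p (nat_lit 486) (nat_lit 1) (.n (nat_lit 487) (nat_lit 1) (.p (nat_lit 489) (nat_lit 3) (.p (nat_lit 493) (nat_lit 2) .z))))))))))))))))))) (.ct dC1b_c293 (nat_lit 1) (nat_lit 4) (.s true (nat_lit 1) (nat_lit 84) (nat_lit 1) (nat_lit 2) (nat_lit 2) true (nat_lit 10) true (nat_lit 13) false (nat_lit 4) true (nat_lit 14) true (nat_lit 13) (.e true (nat_lit 1) (nat_lit 182) (nat_lit 5) (nat_lit 10) (.e false (nat_lit 1) (nat_lit 290) (nat_lit 2) (nat_lit 13) (.e true (nat_lit 1) (nat_lit 291) (nat_lit 2) (nat_lit 13) (.e true (nat_lit 3) (nat_lit 292) (nat_lit 2) (nat_lit 13) (.e false (nat_lit 3) (nat_lit 293) (nat_lit 2) (nat_lit 13) (.e true (nat_lit 3) (nat_lit 296) (nat_lit 2) (nat_lit 13) (.e false (nat_lit 3) (nat_lit 297) (nat_lit 2) (nat_lit 13) (.e false (nat_lit 2) (nat_lit 298) (nat_lit 2) (nat_lit 13) (.e true (nat_lit 2) (nat_lit 299) (nat_lit 2) (nat_lit 13) (.e true (nat_lit 1) (nat_lit 300) (nat_lit 2) (nat_lit 13) (.e false (nat_lit 3) (nat_lit 301) (nat_lit 2) (nat_lit 13) (.e true (nat_lit 1) (nat_lit 302) (nat_lit 2) (nat_lit 13) (.e true (nat_lit 3) (nat_lit 304) (nat_lit 2) (nat_lit 13) (.e true (nat_lit 3) (nat_lit 307) (nat_lit 2) (nat_lit 13) (.e false (nat_lit 1) (nat_lit 308) (nat_lit 2) (nat_lit 13) (.e true (nat_lit 1) (nat_lit 310) (nat_lit 2) (nat_lit 13) (.e false (nat_lit 1) (nat_lit 346) (nat_lit 1) (nat_lit 14) (.e true (nat_lit 1) (nat_lit 312) (nat_lit 2) (nat_lit 13) (.e false (nat_lit 2) (nat_lit 317) (nat_lit 2) (nat_lit 13) (.e false (nat_lit 1) (nat_lit 319) (nat_lit 2) (nat_lit 13) (.u (nat_lit 2) (.p (nat_lit 0) (nat_lit 3) (.p (nat_lit 1) (nat_lit 2) (.n (nat_lit 2) (nat_lit 2) (.p (nat_lit 3) (nat_lit 1) (.n (nat_lit 4) (nat_lit 2) (.n (nat_lit 5) (nat_lit 2) (.n (nat_lit 7) (nat_lit 3) (.p (nat_lit 9) (nat_lit 1) (.p (nat_lit 10) (nat_lit 1) (.n (nat_lit 12) (nat_lit 3) (.p (nat_lit 13) (nat_lit 1) (.p (nat_lit 14) (nat_lit 1) (.n (nat_lit 16) (nat_lit 1) (.p (nat_lit 22) (nat_lit 1) (.n (nat_lit 24) (nat_lit 1) (.n (nat_lit 26) (nat_lit 1) (.n (nat_lit 29) (nat_lit 1) (.p (nat_lit 33) (nat_lit 3) (.p (nat_lit 175) (nat_lit 1) (.n (nat_lit 176) (nat_lit 1) (.p (nat_lit 179) (nat_lit 1) (.n (nat_lit 180) (nat_lit 1) (.n (nat_lit 181) (nat_lit 1) (.p (nat_lit 182) (nat_lit 1) (.n (nat_lit 184) (nat_lit 1) (.p (nat_lit 187) (nat_lit 1) (.n (nat_lit 191) (nat_lit 1) .z))))))))))))))))))))))))))) .nil))))))))))))))))))))))) .leaf) (nat_lit 87040) (nat_lit 246) (.n (nat_lit 132) (nat_lit 2) (.p (nat_lit 133) (nat_lit 1) (.p (nat_lit 134) (nat_lit 2) (.n (nat_lit 135) (nat_lit 1) (.p (nat_lit 136) (nat_lit 1) (.n (nat_lit 137) (nat_lit 2) (.n (nat_lit 138) (nat_lit 1) (.n (nat_lit 139) (nat_lit 1) (.p (nat_lit 140) (nat_lit 3) (.p (nat_lit 142) (nat_lit 1) (.n (nat_lit 143) (nat_lit 2) (.p (nat_lit 144) (nat_lit 1) (.p (nat_lit 145) (nat_lit 3) (.n (nat_lit 146) (nat_lit 1) (.p (nat_lit 148) (nat_lit 1) (.n (nat_lit 149) (nat_lit 1) (.n (nat_lit 150) (nat_lit 2) (.p (nat_lit 152) (nat_lit 3) .z)))))))))))))))))) (.ct dC1b_c531 (nat_lit 1) (nat_lit 9) (.s false (nat_lit 1) (nat_lit 6) (nat_lit 0) (nat_lit 0) (nat_lit 5) true (nat_lit 0) true (nat_lit 4) true (nat_lit 3) true (nat_lit 9) true (nat_lit 9) (.s false (nat_lit 1) (nat_lit 6) (nat_lit 4) (nat_lit 0) (nat_lit 1) true (nat_lit 0) true (nat_lit 8) true (nat_lit 3) true (nat_lit 5) true (nat_lit 9) (.s true (nat_lit 1) (nat_lit 11) (nat_lit 0) (nat_lit 2) (nat_lit 2) true (nat_lit 5) true (nat_lit 7) true (nat_lit 0) true (nat_lit 9) true (nat_lit 7) (.s false (nat_lit 2) (nat_lit 11) (nat_lit 2) (nat_lit 2) (nat_lit 0) true (nat_lit 5) true (nat_lit 9) true (nat_lit 0) true (nat_lit 7) true (nat_lit 7) (.s true (nat_lit 1) (nat_lit 12) (nat_lit 2) (nat_lit 2) (nat_lit 0) true (nat_lit 5) true (nat_lit 9) true (nat_lit 0) true (nat_lit 7) true (nat_lit 7) dC1b_i119)))))) (.nd (.nd .leaf (nat_lit 87041) (nat_lit 284) (.p (nat_lit 166) (nat_lit 1) .z) .df .leaf) (nat_lit 87042) (nat_lit 343) (.p (nat_lit 183) (nat_lit 1) .z) .df .leaf)) (nat_lit 87043) (nat_lit 515) (.n (nat_lit 212) (nat_lit 1) (.n (nat_lit 213) (nat_lit 2) (.p (nat_lit 214) (nat_lit 2) (.p (nat_lit 216) (nat_lit 3) (.n (nat_lit 217) (nat_lit 2) (.p (nat_lit 221) (nat_lit 1) (.p (nat_lit 222) (nat_lit 2) (.n (nat_lit 223) (nat_lit 3) (.p (nat_lit 224) (nat_lit 2) (.p (nat_lit 225) (nat_lit 1) (.p (nat_lit 226) (nat_lit 3) (.n (nat_lit 227) (nat_lit 1) (.p (nat_lit 229) (nat_lit 2) (.p (nat_lit 231) (nat_lit 2) (.n (nat_lit 232) (nat_lit 2) (.n (nat_lit 233) (nat_lit 1) (.p (nat_lit 234) (nat_lit 3) (.p (nat_lit 235) (nat_lit 2) (.n (nat_lit 236) (nat_lit 3) (.p (nat_lit 237) (nat_lit 1) (.n (nat_lit 238) (nat_lit 1) (.p (nat_lit 239) (nat_lit 1) (.n (nat_lit 243) (nat_lit 1) (.n (nat_lit 244) (nat_lit 1) (.n (nat_lit 245) (nat_lit 1) (.n (nat_lit 247) (nat_lit 1) (.n (nat_lit 248) (nat_lit 3) .z))))))))))))))))))))))))))) (.ct dC1b_c547 (nat_lit 1) (nat_lit 11) (.s false (nat_lit 1) (nat_lit 13) (nat_lit 2) (nat_lit 0) (nat_lit 4) true (nat_lit 2) true (nat_lit 10) true (nat_lit 3) true (nat_lit 12) true (nat_lit 14) dC1b_i121)) (.nd (.nd (.nd .leaf (nat_lit 87044) (nat_lit 676) (.p (nat_lit 260) (nat_lit 3) (.p (nat_lit 261) (nat_lit 1) (.n (nat_lit 262) (nat_lit 2) (.p (nat_lit 263) (nat_lit 1) (.p (nat_lit 264) (nat_lit 2) (.p (nat_lit 265) (nat_lit 2) (.n (nat_lit 266) (nat_lit 1) (.n (nat_lit 267) (nat_lit 2) (.n (nat_lit 268) (nat_lit 3) (.p (nat_lit 269) (nat_lit 2) (.n (nat_lit 270) (nat_lit 2) (.p (nat_lit 272) (nat_lit 1) (.n (nat_lit 274) (nat_lit 1) (.n (nat_lit 276) (nat_lit 1) (.p (nat_lit 277) (nat_lit 1) (.p (nat_lit 278) (nat_lit 1) (.n (nat_lit 279) (nat_lit 3) (.p (nat_lit 285) (nat_lit 1) (.p (nat_lit 286) (nat_lit 2) (.p (nat_lit 288) (nat_lit 3) .z)))))))))))))))))))) (.ct dC1b_c532 (nat_lit 1) (nat_lit 8) (.s true (nat_lit 1) (nat_lit 14) (nat_lit 1) (nat_lit 2) (nat_lit 4) true (nat_lit 3) true (nat_lit 8) true (nat_lit 2) true (nat_lit 11) true (nat_lit 10) (.e true (nat_lit 1) (nat_lit 40) (nat_lit 11) (nat_lit 3) (.e true (nat_lit 1) (nat_lit 31) (nat_lit 14) (nat_lit 2) (.e true (nat_lit 1) (nat_lit 32) (nat_lit 14) (nat_lit 2) (.e false (nat_lit 1) (nat_lit 35) (nat_lit 14) (nat_lit 2) (.e true (nat_lit 1) (nat_lit 36) (nat_lit 14) (nat_lit 2) (.e false (nat_lit 2) (nat_lit 144) (nat_lit 2) (nat_lit 10) (.e false (nat_lit 1) (nat_lit 146) (nat_lit 2) (nat_lit 10) (.e true (nat_lit 1) (nat_lit 132) (nat_lit 2) (nat_lit 10) (.e true (nat_lit 1) (nat_lit 133) (nat_lit 2) (nat_lit 10) (.e true (nat_lit 1) (nat_lit 134) (nat_lit 2) (nat_lit 10) (.e false (nat_lit 2) (nat_lit 136) (nat_lit 2) (nat_lit 10) (.e true (nat_lit 3) (nat_lit 137) (nat_lit 2) (nat_lit 10) (.e true (nat_lit 3) (nat_lit 138) (nat_lit 2) (nat_lit 10) (.e true (nat_lit 1) (nat_lit 139) (nat_lit 2) (nat_lit 10) (.e true (nat_lit 1) (nat_lit 140) (nat_lit 2) (nat_lit 10) (.e false (nat_lit 3) (nat_lit 141) (nat_lit 2) (nat_lit 10) (.e true (nat_lit 2) (nat_lit 142) (nat_lit 2) (nat_lit 10) (.e true (nat_lit 1) (nat_lit 145) (nat_lit 2) (nat_lit 10) (.e false (nat_lit 1) (nat_lit 150) (nat_lit 2) (nat_lit 10) (.e true (nat_lit 1) (nat_lit 152) (nat_lit 2) (nat_lit 10) (.u (nat_lit 2) (.n (nat_lit 4) (nat_lit 1) (.n (nat_lit 5) (nat_lit 1) (.p (nat_lit 8) (nat_lit 1) (.p (nat_lit 9) (nat_lit 1) (.p (nat_lit 12) (nat_lit 1) (.n (nat_lit 13) (nat_lit 1) (.p (nat_lit 14) (nat_lit 1) (.n (nat_lit 18) (nat_lit 1) (.p (nat_lit 19) (nat_lit 1) (.n (nat_lit 20) (nat_lit 1) (.p (nat_lit 27) (nat_lit 1) (.p (nat_lit 28) (nat_lit 1) .z)))))))))))) .nil))))))))))))))))))))))) .leaf) (nat_lit 87045) (nat_lit 747) (.p (nat_lit 290) (nat_lit 2) (.n (nat_lit 291) (nat_lit 2) (.p (nat_lit 292) (nat_lit 3) (.n (nat_lit 293) (nat_lit 2) (.n (nat_lit 294) (nat_lit 3) (.n (nat_lit 295) (nat_lit 1) (.n (nat_lit 296) (nat_lit 3) (.p (nat_lit 297) (nat_lit 3) (.n (nat_lit 298) (nat_lit 2) (.n (nat_lit 299) (nat_lit 1) (.n (nat_lit 301) (nat_lit 1) (.p (nat_lit 302) (nat_lit 1) (.n (nat_lit 303) (nat_lit 1) (.p (nat_lit 304) (nat_lit 3) (.p (nat_lit 305) (nat_lit 3) (.p (nat_lit 307) (nat_lit 1) (.n (nat_lit 308) (nat_lit 1) (.n (nat_lit 310) (nat_lit 2) (.n (nat_lit 311) (nat_lit 1) (.p (nat_lit 313) (nat_lit 1) (.n (nat_lit 316) (nat_lit 3) (.n (nat_lit 317) (nat_lit 2) (.p (nat_lit 319) (nat_lit 1) .z))))))))))))))))))))))) (.ct dC1b_c292 (nat_lit 1) (nat_lit 7) (.s false (nat_lit 1) (nat_lit 14) (nat_lit 2) (nat_lit 5) (nat_lit 1) true (nat_lit 7) true (nat_lit 11) true (nat_lit 2) true (nat_lit 10) true (nat_lit 7) (.s true (nat_lit 1) (nat_lit 14) (nat_lit 5) (nat_lit 2) (nat_lit 1) true (nat_lit 3) true (nat_lit 11) true (nat_lit 2) true (nat_lit 7) true (nat_lit 10) (.e false (nat_lit 1) (nat_lit 195) (nat_lit 1) (nat_lit 11) (.e true (nat_lit 1) (nat_lit 154) (nat_lit 2) (nat_lit 10) (.e false (nat_lit 2) (nat_lit 155) (nat_lit 2) (nat_lit 10) dC1b_i122)))))) .leaf) (nat_lit 87046) (nat_lit 857) (.n (nat_lit 328) (nat_lit 2) (.p (nat_lit 329) (nat_lit 1) (.n (nat_lit 330) (nat_lit 3) (.p (nat_lit 331) (nat_lit 3) (.p (nat_lit 332) (nat_lit 2) (.p (nat_lit 333) (nat_lit 2) (.n (nat_lit 336) (nat_lit 1) (.n (nat_lit 337) (nat_lit 1) (.p (nat_lit 338) (nat_lit 2) (.p (nat_lit 340) (nat_lit 1) (.n (nat_lit 345) (nat_lit 1) .z))))))))))) (.ct dC1b_c277 (nat_lit 1) (nat_lit 4) (.s false (nat_lit 3) (nat_lit 6) (nat_lit 2) (nat_lit 3) (nat_lit 6) true (nat_lit 0) true (nat_lit 4) true (nat_lit 4) true (nat_lit 8) true (nat_lit 7) (.s true (nat_lit 3) (nat_lit 18) (nat_lit 0) (nat_lit 6) (nat_lit 1) true (nat_lit 7) true (nat_lit 9) true (nat_lit 0) true (nat_lit 10) true (nat_lit 4) (.s true (nat_lit 3) (nat_lit 18) (nat_lit 1) (nat_lit 6) (nat_lit 0) true (nat_lit 7) true (nat_lit 10) true (nat_lit 0) true (nat_lit 9) true (nat_lit 4) (.s true (nat_lit 1) (nat_lit 35) (nat_lit 2) (nat_lit 2) (nat_lit 2) true (nat_lit 4) true (nat_lit 8) false (nat_lit 0) true (nat_lit 8) true (nat_lit 8) (.e false (nat_lit 1) (nat_lit 32) (nat_lit 18) (nat_lit 0) (.e true (nat_lit 1) (nat_lit 33) (nat_lit 18) (nat_lit 0) (.e true (nat_lit 2) (nat_lit 83) (nat_lit 6) (nat_lit 4) (.e true (nat_lit 1) (nat_lit 87) (nat_lit 6) (nat_lit 4) (.e false (nat_lit 1) (nat_lit 90) (nat_lit 6) (nat_lit 4) (.e true (nat_lit 2) (nat_lit 188) (nat_lit 2) (nat_lit 8) (.e true (nat_lit 3) (nat_lit 92) (nat_lit 6) (nat_lit 4) (.e false (nat_lit 1) (nat_lit 31) (nat_lit 18) (nat_lit 0) (.e true (nat_lit 1) (nat_lit 82) (nat_lit 6) (nat_lit 4) (.e true (nat_lit 3) (nat_lit 91) (nat_lit 6) (nat_lit 4) (.e true (nat_lit 3) (nat_lit 184) (nat_lit 2) (nat_lit 8) (.e false (nat_lit 3) (nat_lit 180) (nat_lit 2) (nat_lit 8) (.e false (nat_lit 3) (nat_lit 181) (nat_lit 2) (nat_lit 8) (.e false (nat_lit 3) (nat_lit 185) (nat_lit 2) (nat_lit 8) (.e false (nat_lit 1) (nat_lit 189) (nat_lit 2) (nat_lit 8) (.e false (nat_lit 1) (nat_lit 190) (nat_lit 2) (nat_lit 8) (.e false (nat_lit 1) (nat_lit 192) (nat_lit 2) (nat_lit 8) (.e false (nat_lit 1) (nat_lit 193) (nat_lit 2) (nat_lit 8) (.e true (nat_lit 1) (nat_lit 194) (nat_lit 2) (nat_lit 8) (.u (nat_lit 2) (.p (nat_lit 0) (nat_lit 1) (.n (nat_lit 4) (nat_lit 1) (.n (nat_lit 12) (nat_lit 1) (.n (nat_lit 13) (nat_lit 1) (.n (nat_lit 19) (nat_lit 1) (.n (nat_lit 20) (nat_lit 1) (.p (nat_lit 21) (nat_lit 1) (.p (nat_lit 23) (nat_lit 1) (.p (nat_lit 40) (nat_lit 1) (.p (nat_lit 41) (nat_lit 2) (.p (nat_lit 43) (nat_lit 1) (.n (nat_lit 44) (nat_lit 1) (.p (nat_lit 45) (nat_lit 1) (.n (nat_lit 48) (nat_lit 1) (.p (nat_lit 68) (nat_lit 1) .z))))))))))))))) .nil))))))))))))))))))))))))) (.nd (.nd .leaf (nat_lit 87050) (nat_lit 1171) (.n (nat_lit 355) (nat_lit 3) (.p (nat_lit 356) (nat_lit 2) (.p (nat_lit 357) (nat_lit 3) (.p (nat_lit 358) (nat_lit 1) (.n (nat_lit 359) (nat_lit 3) (.n (nat_lit 360) (nat_lit 1) (.n (nat_lit 361) (nat_lit 2) (.n (nat_lit 362) (nat_lit 3) (.n (nat_lit 363) (nat_lit 1) (.n (nat_lit 366) (nat_lit 3) (.n (nat_lit 368) (nat_lit 2) (.p (nat_lit 369) (nat_lit 3) (.p (nat_lit 370) (nat_lit 1) (.n (nat_lit 372) (nat_lit 1) (.p (nat_lit 373) (nat_lit 2) (.p (nat_lit 374) (nat_lit 1) (.p (nat_lit 375) (nat_lit 2) (.n (nat_lit 378) (nat_lit 1) (.p (nat_lit 381) (nat_lit 3) (.n (nat_lit 383) (nat_lit 1) (.n (nat_lit 384) (nat_lit 2) (.n (nat_lit 385) (nat_lit 3) (.p (nat_lit 386) (nat_lit 3) (.n (nat_lit 387) (nat_lit 2) (.n (nat_lit 389) (nat_lit 1) (.n (nat_lit 390) (nat_lit 3) (.p (nat_lit 391) (nat_lit 3) (.n (nat_lit 393) (nat_lit 2) (.p (nat_lit 394) (nat_lit 2) (.p (nat_lit 395) (nat_lit 2) (.p (nat_lit 396) (nat_lit 3) (.p (nat_lit 403) (nat_lit 1) (.p (nat_lit 404) (nat_lit 3) (.p (nat_lit 405) (nat_lit 1) (.n (nat_lit 406) (nat_lit 1) (.p (nat_lit 408) (nat_lit 3) (.p (nat_lit 409) (nat_lit 1) (.n (nat_lit 410) (nat_lit 3) (.n (nat_lit 412) (nat_lit 2) (.p (nat_lit 413) (nat_lit 3) (.p (nat_lit 416) (nat_lit 1) (.n (nat_lit 417) (nat_lit 1) (.n (nat_lit 418) (nat_lit 1) (.p (nat_lit 419) (nat_lit 1) (.n (nat_lit 421) (nat_lit 1) (.p (nat_lit 424) (nat_lit 3) (.n (nat_lit 425) (nat_lit 3) .z))))))))))))))))))))))))))))))))))))))))))))))) (.ct dC1b_c548 (nat_lit 1) (nat_lit 9) (.s false (nat_lit 1) (nat_lit 85) (nat_lit 1) (nat_lit 0) (nat_lit 2) true (nat_lit 14) true (nat_lit 17) false (nat_lit 9) true (nat_lit 18) true (nat_lit 19) (.e true (nat_lit 2) (nat_lit 132) (nat_lit 5) (nat_lit 14) (.e false (nat_lit 1) (nat_lit 133) (nat_lit 5) (nat_lit 14) (.e false (nat_lit 2) (nat_lit 134) (nat_lit 5) (nat_lit 14) (.e true (nat_lit 1) (nat_lit 135) (nat_lit 5) (nat_lit 14) (.e false (nat_lit 1) (nat_lit 136) (nat_lit 5) (nat_lit 14) (.e true (nat_lit 2) (nat_lit 137) (nat_lit 5) (nat_lit 14) (.e true (nat_lit 1) (nat_lit 138) (nat_lit 5) (nat_lit 14) (.e true (nat_lit 1) (nat_lit 139) (nat_lit 5) (nat_lit 14) (.e false (nat_lit 3) (nat_lit 140) (nat_lit 5) (nat_lit 14) (.e false (nat_lit 1) (nat_lit 142) (nat_lit 5) (nat_lit 14) (.e true (nat_lit 2) (nat_lit 143) (nat_lit 5) (nat_lit 14) (.e false (nat_lit 1) (nat_lit 144) (nat_lit 5) (nat_lit 14) (.e false (nat_lit 3) (nat_lit 145) (nat_lit 5) (nat_lit 14) (.e true (nat_lit 1) (nat_lit 146) (nat_lit 5) (nat_lit 14) (.e false (nat_lit 1) (nat_lit 148) (nat_lit 5) (nat_lit 14) (.e true (nat_lit 1) (nat_lit 149) (nat_lit 5) (nat_lit 14) dC1b_i123)))))))))))))))))) .leaf) (nat_lit 87051) (nat_lit 1177) (.n (nat_lit 355) (nat_lit 3) (.p (nat_lit 356) (nat_lit 2) (.n (nat_lit 357) (nat_lit 1) (.n (nat_lit 358) (nat_lit 2) (.p (nat_lit 359) (nat_lit 1) (.n (nat_lit 360) (nat_lit 1) (.n (nat_lit 361) (nat_lit 3) (.p (nat_lit 362) (nat_lit 3) (.n (nat_lit 363) (nat_lit 1) (.n (nat_lit 364) (nat_lit 3) (.n (nat_lit 366) (nat_lit 2) (.p (nat_lit 367) (nat_lit 2) (.n (nat_lit 368) (nat_lit 1) (.p (nat_lit 369) (nat_lit 2) (.n (nat_lit 370) (nat_lit 1) (.p (nat_lit 373) (nat_lit 2) (.p (nat_lit 374) (nat_lit 2) (.n (nat_lit 375) (nat_lit 1) (.p (nat_lit 381) (nat_lit 2) (.p (nat_lit 382) (nat_lit 2) (.n (nat_lit 383) (nat_lit 3) (.n (nat_lit 385) (nat_lit 3) (.p (nat_lit 387) (nat_lit 1) (.p (nat_lit 388) (nat_lit 1) (.n (nat_lit 389) (nat_lit 3) (.n (nat_lit 391) (nat_lit 2) (.n (nat_lit 392) (nat_lit 1) (.p (nat_lit 393) (nat_lit 3) (.n (nat_lit 394) (nat_lit 2) (.p (nat_lit 395) (nat_lit 3) (.n (nat_lit 398) (nat_lit 1) (.p (nat_lit 403) (nat_lit 1) (.p (nat_lit 413) (nat_lit 1) .z))))))))))))))))))))))))))))))))) (.ct dC1b_c548 (nat_lit 1) (nat_lit 9) (.s true (nat_lit 1) (nat_lit 85) (nat_lit 0) (nat_lit 2) (nat_lit 1) true (nat_lit 16) true (nat_lit 18) false (nat_lit 9) true (nat_lit 19) true (nat_lit 17) (.e true (nat_lit 1) (nat_lit 183) (nat_lit 3) (nat_lit 16) (.e false (nat_lit 2) (nat_lit 260) (nat_lit 1) (nat_lit 18) (.e true (nat_lit 1) (nat_lit 261) (nat_lit 1) (nat_lit 18) (.e true (nat_lit 2) (nat_lit 262) (nat_lit 1) (nat_lit 18) (.e false (nat_lit 1) (nat_lit 263) (nat_lit 1) (nat_lit 18) (.e true (nat_lit 1) (nat_lit 264) (nat_lit 1) (nat_lit 18) (.e false (nat_lit 2) (nat_lit 265) (nat_lit 1) (nat_lit 18) (.e false (nat_lit 1) (nat_lit 266) (nat_lit 1) (nat_lit 18) (.e false (nat_lit 1) (nat_lit 267) (nat_lit 1) (nat_lit 18) (.e true (nat_lit 3) (nat_lit 268) (nat_lit 1) (nat_lit 18) (.e true (nat_lit 1) (nat_lit 270) (nat_lit 1) (nat_lit 18) (.e false (nat_lit 2) (nat_lit 271) (nat_lit 1) (nat_lit 18) (.e true (nat_lit 1) (nat_lit 272) (nat_lit 1) (nat_lit 18) (.e true (nat_lit 3) (nat_lit 273) (nat_lit 1) (nat_lit 18) (.e false (nat_lit 1) (nat_lit 274) (nat_lit 1) (nat_lit 18) (.e true (nat_lit 1) (nat_lit 276) (nat_lit 1) (nat_lit 18) (.e false (nat_lit 1) (nat_lit 277) (nat_lit 1) (nat_lit 18) (.e false (nat_lit 2) (nat_lit 278) (nat_lit 1) (nat_lit 18) (.e true (nat_lit 3) (nat_lit 280) (nat_lit 1) (nat_lit 18) dC1b_i124))))))))))))))))))))) .leaf))) (nat_lit 87052) (nat_lit 1173) (.n (nat_lit 355) (nat_lit 2) (.n (nat_lit 356) (nat_lit 2) (.n (nat_lit 358) (nat_lit 2) (.n (nat_lit 359) (nat_lit 1) (.p (nat_lit 360) (nat_lit 1) (.n (nat_lit 361) (nat_lit 2) (.p (nat_lit 363) (nat_lit 2) (.p (nat_lit 365) (nat_lit 1) (.p (nat_lit 366) (nat_lit 3) (.p (nat_lit 367) (nat_lit 3) (.p (nat_lit 368) (nat_lit 1) (.n (nat_lit 369) (nat_lit 1) (.p (nat_lit 370) (nat_lit 1) (.n (nat_lit 372) (nat_lit 2) (.p (nat_lit 373) (nat_lit 3) (.n (nat_lit 374) (nat_lit 2) (.p (nat_lit 375) (nat_lit 3) (.p (nat_lit 378) (nat_lit 1) (.n (nat_lit 381) (nat_lit 2) (.p (nat_lit 383) (nat_lit 1) (.n (nat_lit 384) (nat_lit 3) (.n (nat_lit 385) (nat_lit 2) (.n (nat_lit 387) (nat_lit 3) (.p (nat_lit 389) (nat_lit 3) (.p (nat_lit 390) (nat_lit 2) (.p (nat_lit 391) (nat_lit 1) (.n (nat_lit 392) (nat_lit 1) (.n (nat_lit 393) (nat_lit 1) (.n (nat_lit 394) (nat_lit 2) (.n (nat_lit 395) (nat_lit 3) (.p (nat_lit 396) (nat_lit 2) (.n (nat_lit 398) (nat_lit 1) (.n (nat_lit 404) (nat_lit 3) (.n (nat_lit 405) (nat_lit 1) (.p (nat_lit 406) (nat_lit 1) (.n (nat_lit 408) (nat_lit 3) (.n (nat_lit 409) (nat_lit 1) (.p (nat_lit 410) (nat_lit 3) (.p (nat_lit 412) (nat_lit 2) (.n (nat_lit 413) (nat_lit 2) (.n (nat_lit 416) (nat_lit 1) (.p (nat_lit 417) (nat_lit 1) (.p (nat_lit 418) (nat_lit 1) (.n (nat_lit 419) (nat_lit 1) (.p (nat_lit 421) (nat_lit 1) (.n (nat_lit 424) (nat_lit 3) (.p (nat_lit 425) (nat_lit 3) .z))))))))))))))))))))))))))))))))))))))))))))))) (.ct dC1b_c548 (nat_lit 1) (nat_lit 9) (.s false (nat_lit 1) (nat_lit 85) (nat_lit 2) (nat_lit 1) (nat_lit 0) true (nat_lit 15) true (nat_lit 19) false (nat_lit 9) true (nat_lit 17) true (nat_lit 18) (.e true (nat_lit 1) (nat_lit 166) (nat_lit 4) (nat_lit 15) (.e false (nat_lit 1) (nat_lit 313) (nat_lit 0) (nat_lit 19) (.e false (nat_lit 1) (nat_lit 212) (nat_lit 2) (nat_lit 17) (.e false (nat_lit 2) (nat_lit 213) (nat_lit 2) (nat_lit 17) (.e true (nat_lit 2) (nat_lit 214) (nat_lit 2) (nat_lit 17) (.e true (nat_lit 3) (nat_lit 216) (nat_lit 2) (nat_lit 17) (.e false (nat_lit 2) (nat_lit 217) (nat_lit 2) (nat_lit 17) (.e true (nat_lit 1) (nat_lit 221) (nat_lit 2) (nat_lit 17) (.e true (nat_lit 2) (nat_lit 222) (nat_lit 2) (nat_lit 17) (.e false (nat_lit 3) (nat_lit 223) (nat_lit 2) (nat_lit 17) (.e true (nat_lit 2) (nat_lit 224) (nat_lit 2) (nat_lit 17) (.e true (nat_lit 1) (nat_lit 225) (nat_lit 2) (nat_lit 17) (.e true (nat_lit 3) (nat_lit 226) (nat_lit 2) (nat_lit 17) (.e false (nat_lit 1) (nat_lit 227) (nat_lit 2) (nat_lit 17) (.e true (nat_lit 2) (nat_lit 229) (nat_lit 2) (nat_lit 17) (.e true (nat_lit 2) (nat_lit 231) (nat_lit 2) (nat_lit 17) (.e false (nat_lit 2) (nat_lit 232) (nat_lit 2) (nat_lit 17) (.e false (nat_lit 1) (nat_lit 233) (nat_lit 2) (nat_lit 17) (.e true (nat_lit 3) (nat_lit 234) (nat_lit 2) (nat_lit 17) (.e true (nat_lit 2) (nat_lit 235) (nat_lit 2) (nat_lit 17) (.e false (nat_lit 3) (nat_lit 236) (nat_lit 2) (nat_lit 17) (.e true (nat_lit 1) (nat_lit 237) (nat_lit 2) (nat_lit 17) (.e false (nat_lit 1) (nat_lit 238) (nat_lit 2) (nat_lit 17) dC1b_i125))))))))))))))))))))))))) (.nd (.nd (.nd (.nd .leaf (nat_lit 87054) (nat_lit 1368) (.n (nat_lit 426) (nat_lit 2) (.n (nat_lit 427) (nat_lit 2) (.p (nat_lit 428) (nat_lit 1) (.p (nat_lit 429) (nat_lit 1) (.n (nat_lit 434) (nat_lit 1) (.p (nat_lit 438) (nat_lit 3) (.p (nat_lit 439) (nat_lit 1) (.p (nat_lit 441) (nat_lit 1) (.p (nat_lit 442) (nat_lit 3) (.n (nat_lit 443) (nat_lit 2) (.n (nat_lit 444) (nat_lit 2) (.p (nat_lit 445) (nat_lit 2) (.p (nat_lit 447) (nat_lit 1) (.n (nat_lit 448) (nat_lit 1) (.n (nat_lit 450) (nat_lit 1) (.p (nat_lit 451) (nat_lit 1) (.p (nat_lit 452) (nat_lit 3) (.n (nat_lit 453) (nat_lit 3) (.n (nat_lit 455) (nat_lit 1) (.p (nat_lit 456) (nat_lit 2) (.n (nat_lit 459) (nat_lit 1) .z))))))))))))))))))))) (.ct dC1b_c533 (nat_lit 1) (nat_lit 5) (.s false (nat_lit 1) (nat_lit 14) (nat_lit 1) (nat_lit 14) (nat_lit 2) true (nat_lit 10) true (nat_lit 13) true (nat_lit 5) true (nat_lit 14) true (nat_lit 5) dC1b_i126)) .leaf) (nat_lit 87055) (nat_lit 1373) (.n (nat_lit 426) (nat_lit 1) (.n (nat_lit 427) (nat_lit 2) (.n (nat_lit 428) (nat_lit 3) (.n (nat_lit 429) (nat_lit 1) (.n (nat_lit 430) (nat_lit 2) (.p (nat_lit 434) (nat_lit 2) (.n (nat_lit 435) (nat_lit 3) (.p (nat_lit 436) (nat_lit 2) (.n (nat_lit 438) (nat_lit 1) (.p (nat_lit 439) (nat_lit 1) (.n (nat_lit 441) (nat_lit 1) (.n (nat_lit 442) (nat_lit 2) (.p (nat_lit 443) (nat_lit 1) (.p (nat_lit 444) (nat_lit 2) (.n (nat_lit 445) (nat_lit 1) (.p (nat_lit 447) (nat_lit 2) (.n (nat_lit 448) (nat_lit 2) (.n (nat_lit 450) (nat_lit 2) (.p (nat_lit 451) (nat_lit 2) (.n (nat_lit 452) (nat_lit 1) (.p (nat_lit 453) (nat_lit 1) (.n (nat_lit 455) (nat_lit 2) .z)))))))))))))))))))))) (.ct dC1b_c533 (nat_lit 1) (nat_lit 5) (.s false (nat_lit 1) (nat_lit 85) (nat_lit 2) (nat_lit 2) (nat_lit 0) true (nat_lit 11) true (nat_lit 15) false (nat_lit 5) true (nat_lit 13) true (nat_lit 13) (.e false (nat_lit 1) (nat_lit 183) (nat_lit 4) (nat_lit 11) (.e false (nat_lit 1) (nat_lit 331) (nat_lit 0) (nat_lit 15) (.e true (nat_lit 2) (nat_lit 260) (nat_lit 2) (nat_lit 13) (.e false (nat_lit 3) (nat_lit 262) (nat_lit 2) (nat_lit 13) (.e false (nat_lit 2) (nat_lit 263) (nat_lit 2) (nat_lit 13) (.e false (nat_lit 1) (nat_lit 264) (nat_lit 2) (nat_lit 13) (.e true (nat_lit 3) (nat_lit 265) (nat_lit 2) (nat_lit 13) (.e true (nat_lit 1) (nat_lit 267) (nat_lit 2) (nat_lit 13) (.e false (nat_lit 1) (nat_lit 268) (nat_lit 2) (nat_lit 13) (.e false (nat_lit 2) (nat_lit 269) (nat_lit 2) (nat_lit 13) (.e true (nat_lit 3) (nat_lit 270) (nat_lit 2) (nat_lit 13) (.e true (nat_lit 2) (nat_lit 276) (nat_lit 2) (nat_lit 13) (.e false (nat_lit 2) (nat_lit 277) (nat_lit 2) (nat_lit 13) (.e false (nat_lit 3) (nat_lit 278) (nat_lit 2) (nat_lit 13) (.e true (nat_lit 3) (nat_lit 279) (nat_lit 2) (nat_lit 13) (.e false (nat_lit 1) (nat_lit 285) (nat_lit 2) (nat_lit 13) (.e false (nat_lit 2) (nat_lit 286) (nat_lit 2) (nat_lit 13) (.e false (nat_lit 3) (nat_lit 288) (nat_lit 2) (nat_lit 13) (.e false (nat_lit 2) (nat_lit 271) (nat_lit 2) (nat_lit 13) (.e true (nat_lit 3) (nat_lit 273) (nat_lit 2) (nat_lit 13) (.e true (nat_lit 3) (nat_lit 280) (nat_lit 2) (nat_lit 13) (.u (nat_lit 2) (.n (nat_lit 0) (nat_lit 2) (.n (nat_lit 1) (nat_lit 4) (.p (nat_lit 2) (nat_lit 2) (.n (nat_lit 3) (nat_lit 3) (.p (nat_lit 4) (nat_lit 3) (.p (nat_lit 5) (nat_lit 1) (.p (nat_lit 8) (nat_lit 5) (.n (nat_lit 9) (nat_lit 3) (.n (nat_lit 12) (nat_lit 1) (.p (nat_lit 15) (nat_lit 1) (.p (nat_lit 16) (nat_lit 2) (.n (nat_lit 17) (nat_lit 1) (.p (nat_lit 18) (nat_lit 1) (.n (nat_lit 19) (nat_lit 4) (.p (nat_lit 21) (nat_lit 1) (.p (nat_lit 23) (nat_lit 1) (.n (nat_lit 25) (nat_lit 1) (.n (nat_lit 27) (nat_lit 1) (.n (nat_lit 30) (nat_lit 1) (.n (nat_lit 33) (nat_lit 2) (.p (nat_lit 173) (nat_lit 1) (.n (nat_lit 175) (nat_lit 1) (.p (nat_lit 178) (nat_lit 1) (.n (nat_lit 181) (nat_lit 1) .z)))))))))))))))))))))))) .nil)))))))))))))))))))))))) .leaf) (nat_lit 87056) (nat_lit 1524) (.n (nat_lit 460) (nat_lit 3) (.n (nat_lit 461) (nat_lit 3) (.n (nat_lit 462) (nat_lit 2) (.n (nat_lit 463) (nat_lit 1) (.n (nat_lit 464) (nat_lit 1) (.n (nat_lit 465) (nat_lit 1) (.n (nat_lit 467) (nat_lit 1) (.n (nat_lit 468) (nat_lit 3) (.p (nat_lit 469) (nat_lit 1) (.n (nat_lit 470) (nat_lit 1) (.p (nat_lit 471) (nat_lit 1) (.n (nat_lit 475) (nat_lit 2) (.n (nat_lit 477) (nat_lit 3) (.n (nat_lit 479) (nat_lit 3) (.n (nat_lit 488) (nat_lit 1) (.n (nat_lit 489) (nat_lit 1) (.n (nat_lit 493) (nat_lit 3) .z))))))))))))))))) (.ct dC1b_c293 (nat_lit 1) (nat_lit 4) (.s false (nat_lit 1) (nat_lit 85) (nat_lit 2) (nat_lit 1) (nat_lit 2) true (nat_lit 9) true (nat_lit 13) false (nat_lit 4) true (nat_lit 13) true (nat_lit 14) dC1b_i127)) (.nd (.nd .leaf (nat_lit 88064) (nat_lit 267) (.n (nat_lit 132) (nat_lit 2) (.p (nat_lit 134) (nat_lit 2) (.p (nat_lit 135) (nat_lit 1) (.n (nat_lit 136) (nat_lit 1) (.n (nat_lit 137) (nat_lit 1) (.p (nat_lit 139) (nat_lit 1) (.n (nat_lit 141) (nat_lit 2) (.n (nat_lit 142) (nat_lit 2) (.n (nat_lit 143) (nat_lit 1) (.n (nat_lit 144) (nat_lit 1) (.p (nat_lit 145) (nat_lit 2) (.n (nat_lit 146) (nat_lit 1) (.p (nat_lit 148) (nat_lit 2) (.p (nat_lit 149) (nat_lit 1) (.p (nat_lit 150) (nat_lit 2) (.p (nat_lit 151) (nat_lit 1) (.n (nat_lit 152) (nat_lit 1) .z))))))))))))))))) (.ct dC1b_c531 (nat_lit 1) (nat_lit 9) (.s true (nat_lit 1) (nat_lit 15) (nat_lit 1) (nat_lit 2) (nat_lit 0) true (nat_lit 6) true (nat_lit 9) false (nat_lit 0) true (nat_lit 8) true (nat_lit 7) (.e false (nat_lit 1) (nat_lit 41) (nat_lit 3) (nat_lit 6) (.e true (nat_lit 1) (nat_lit 15) (nat_lit 12) (nat_lit 0) (.e false (nat_lit 2) (nat_lit 77) (nat_lit 1) (nat_lit 8) (.e false (nat_lit 2) (nat_lit 78) (nat_lit 1) (nat_lit 8) (.e true (nat_lit 1) (nat_lit 79) (nat_lit 1) (nat_lit 8) (.e true (nat_lit 1) (nat_lit 81) (nat_lit 1) (nat_lit 8) (.e false (nat_lit 1) (nat_lit 61) (nat_lit 2) (nat_lit 7) (.u (nat_lit 2) (.n (nat_lit 1) (nat_lit 1) (.n (nat_lit 3) (nat_lit 1) (.n (nat_lit 6) (nat_lit 1) (.n (nat_lit 8) (nat_lit 1) (.n (nat_lit 19) (nat_lit 1) .z))))) .nil)))))))))) .leaf) (nat_lit 88065) (nat_lit 305) (.p (nat_lit 153) (nat_lit 1) (.p (nat_lit 154) (nat_lit 1) (.p (nat_lit 155) (nat_lit 2) (.n (nat_lit 156) (nat_lit 1) (.p (nat_lit 157) (nat_lit 3) (.p (nat_lit 158) (nat_lit 1) (.p (nat_lit 159) (nat_lit 3) (.n (nat_lit 160) (nat_lit 3) (.n (nat_lit 161) (nat_lit 3) (.p (nat_lit 162) (nat_lit 2) (.p (nat_lit 165) (nat_lit 2) (.p (nat_lit 166) (nat_lit 2) (.p (nat_lit 167) (nat_lit 1) (.n (nat_lit 168) (nat_lit 1) (.n (nat_lit 170) (nat_lit 2) (.p (nat_lit 171) (nat_lit 3) (.n (nat_lit 172) (nat_lit 1) (.n (nat_lit 173) (nat_lit 1) .z)))))))))))))))))) (.ct dC1b_c291 (nat_lit 1) (nat_lit 8) (.s false (nat_lit 3) (nat_lit 6) (nat_lit 4) (nat_lit 1) (nat_lit 1) true (nat_lit 1) true (nat_lit 8) true (nat_lit 3) true (nat_lit 5) true (nat_lit 8) (.e true (nat_lit 3) (nat_lit 17) (nat_lit 11) (nat_lit 1) (.e false (nat_lit 2) (nat_lit 83) (nat_lit 1) (nat_lit 8) (.e false (nat_lit 1) (nat_lit 85) (nat_lit 1) (nat_lit 8) (.e false (nat_lit 1) (nat_lit 87) (nat_lit 1) (nat_lit 8) (.e false (nat_lit 3) (nat_lit 91) (nat_lit 1) (nat_lit 8) (.e false (nat_lit 3) (nat_lit 26) (nat_lit 6) (nat_lit 3) (.e false (nat_lit 1) (nat_lit 82) (nat_lit 1) (nat_lit 8) (.u (nat_lit 2) (.n (nat_lit 2) (nat_lit 1) (.n (nat_lit 5) (nat_lit 1) (.p (nat_lit 10) (nat_lit 1) (.p (nat_lit 15) (nat_lit 1) (.p (nat_lit 19) (nat_lit 1) (.n (nat_lit 57) (nat_lit 1) (.n (nat_lit 58) (nat_lit 2) (.n (nat_lit 60) (nat_lit 1) (.p (nat_lit 61) (nat_lit 1) (.n (nat_lit 62) (nat_lit 1) .z)))))))))) .nil)))))))))) .leaf)) (nat_lit 88066) (nat_lit 344) (.p (nat_lit 184) (nat_lit 1) .z) .df (.nd (.nd (.nd .leaf (nat_lit 88067) (nat_lit 520) (.p (nat_lit 212) (nat_lit 1) (.n (nat_lit 215) (nat_lit 2) (.p (nat_lit 216) (nat_lit 1) (.n (nat_lit 217) (nat_lit 3) (.n (nat_lit 218) (nat_lit 2) (.p (nat_lit 219) (nat_lit 2) (.p (nat_lit 220) (nat_lit 3) (.p (nat_lit 221) (nat_lit 2) (.n (nat_lit 224) (nat_lit 1) (.p (nat_lit 225) (nat_lit 2) (.p (nat_lit 226) (nat_lit 2) (.n (nat_lit 227) (nat_lit 3) (.p (nat_lit 229) (nat_lit 1) (.n (nat_lit 230) (nat_lit 1) (.n (nat_lit 231) (nat_lit 2) (.n (nat_lit 232) (nat_lit 2) (.n (nat_lit 233) (nat_lit 3) (.p (nat_lit 234) (nat_lit 1) (.n (nat_lit 235) (nat_lit 2) (.p (nat_lit 236) (nat_lit 2) (.p (nat_lit 237) (nat_lit 2) (.p (nat_lit 238) (nat_lit 1) (.p (nat_lit 239) (nat_lit 3) (.n (nat_lit 241) (nat_lit 3) (.n (nat_lit 242) (nat_lit 2) (.n (nat_lit 243) (nat_lit 3) (.n (nat_lit 244) (nat_lit 2) (.n (nat_lit 245) (nat_lit 2) (.n (nat_lit 247) (nat_lit 2) (.p (nat_lit 248) (nat_lit 2) .z)))))))))))))))))))))))))))))) (.ct dC1b_c547 (nat_lit 1) (nat_lit 11) (.s false (nat_lit 2) (nat_lit 18) (nat_lit 1) (nat_lit 3) (nat_lit 0) true (nat_lit 11) true (nat_lit 14) true (nat_lit 0) true (nat_lit 13) true (nat_lit 11) dC1b_i128)) .leaf) (nat_lit 88068) (nat_lit 680) (.n (nat_lit 260) (nat_lit 1) (.p (nat_lit 261) (nat_lit 3) (.p (nat_lit 262) (nat_lit 2) (.p (nat_lit 263) (nat_lit 1) (.p (nat_lit 264) (nat_lit 2) (.p (nat_lit 265) (nat_lit 1) (.n (nat_lit 266) (nat_lit 2) (.n (nat_lit 267) (nat_lit 3) (.n (nat_lit 268) (nat_lit 2) (.p (nat_lit 269) (nat_lit 1) (.n (nat_lit 270) (nat_lit 2) (.p (nat_lit 271) (nat_lit 3) (.p (nat_lit 272) (nat_lit 2) (.p (nat_lit 273) (nat_lit 3) (.n (nat_lit 276) (nat_lit 2) (.p (nat_lit 277) (nat_lit 1) (.n (nat_lit 278) (nat_lit 3) (.n (nat_lit 279) (nat_lit 1) (.p (nat_lit 280) (nat_lit 3) (.p (nat_lit 285) (nat_lit 2) (.p (nat_lit 286) (nat_lit 1) (.p (nat_lit 287) (nat_lit 3) (.n (nat_lit 288) (nat_lit 1) .z))))))))))))))))))))))) (.ct dC1b_c532 (nat_lit 1) (nat_lit 8) (.s false (nat_lit 1) (nat_lit 15) (nat_lit 2) (nat_lit 4) (nat_lit 1) true (nat_lit 7) true (nat_lit 11) true (nat_lit 2) true (nat_lit 10) true (nat_lit 8) (.e false (nat_lit 2) (nat_lit 77) (nat_lit 5) (nat_lit 7) (.e false (nat_lit 2) (nat_lit 78) (nat_lit 5) (nat_lit 7) (.e true (nat_lit 1) (nat_lit 79) (nat_lit 5) (nat_lit 7) (.e true (nat_lit 1) (nat_lit 81) (nat_lit 5) (nat_lit 7) dC1b_i129)))))) .leaf) (nat_lit 88069) (nat_lit 754) (.n (nat_lit 290) (nat_lit 1) (.n (nat_lit 291) (nat_lit 1) (.n (nat_lit 292) (nat_lit 2) (.p (nat_lit 293) (nat_lit 1) (.p (nat_lit 294) (nat_lit 2) (.p (nat_lit 296) (nat_lit 2) (.n (nat_lit 297) (nat_lit 2) (.n (nat_lit 298) (nat_lit 2) (.n (nat_lit 299) (nat_lit 3) (.p (nat_lit 300) (nat_lit 3) (.p (nat_lit 301) (nat_lit 2) (.p (nat_lit 302) (nat_lit 1) (.n (nat_lit 303) (nat_lit 2) (.p (nat_lit 305) (nat_lit 3) (.n (nat_lit 307) (nat_lit 2) (.n (nat_lit 308) (nat_lit 2) (.p (nat_lit 309) (nat_lit 1) (.p (nat_lit 310) (nat_lit 3) (.n (nat_lit 311) (nat_lit 1) (.p (nat_lit 313) (nat_lit 2) (.n (nat_lit 316) (nat_lit 1) (.n (nat_lit 317) (nat_lit 1) (.p (nat_lit 318) (nat_lit 3) (.p (nat_lit 319) (nat_lit 1) .z)))))))))))))))))))))))) (.ct dC1b_c292 (nat_lit 1) (nat_lit 7) (.s false (nat_lit 1) (nat_lit 15) (nat_lit 2) (nat_lit 5) (nat_lit 1) true (nat_lit 7) true (nat_lit 11) true (nat_lit 2) true (nat_lit 10) true (nat_lit 7) (.s true (nat_lit 1) (nat_lit 15) (nat_lit 5) (nat_lit 2) (nat_lit 1) true (nat_lit 3) true (nat_lit 11) true (nat_lit 2) true (nat_lit 7) true (nat_lit 10) (.s false (nat_lit 1) (nat_lit 41) (nat_lit 1) (nat_lit 2) (nat_lit 1) false (nat_lit 13) true (nat_lit 11) false (nat_lit 3) true (nat_lit 11) true (nat_lit 10) (.e false (nat_lit 3) (nat_lit 180) (nat_lit 1) (nat_lit 11) dC1b_i130))))) (.nd (.nd .leaf (nat_lit 88070) (nat_lit 862) (.p (nat_lit 328) (nat_lit 1) (.p (nat_lit 329) (nat_lit 3) (.p (nat_lit 330) (nat_lit 1) (.p (nat_lit 331) (nat_lit 1) (.n (nat_lit 332) (nat_lit 2) (.p (nat_lit 333) (nat_lit 1) (.n (nat_lit 334) (nat_lit 1) (.n (nat_lit 335) (nat_lit 1) (.p (nat_lit 336) (nat_lit 1) (.p (nat_lit 337) (nat_lit 3) (.p (nat_lit 338) (nat_lit 2) (.n (nat_lit 340) (nat_lit 2) (.p (nat_lit 344) (nat_lit 1) (.n (nat_lit 346) (nat_lit 1) .z)))))))))))))) (.ct dC1b_c277 (nat_lit 1) (nat_lit 4) (.s true (nat_lit 1) (nat_lit 35) (nat_lit 2) (nat_lit 2) (nat_lit 2) true (nat_lit 4) true (nat_lit 8) false (nat_lit 0) true (nat_lit 8) true (nat_lit 8) (.e true (nat_lit 3) (nat_lit 184) (nat_lit 2) (nat_lit 8) (.e false (nat_lit 1) (nat_lit 35) (nat_lit 18) (nat_lit 0) (.e false (nat_lit 3) (nat_lit 180) (nat_lit 2) (nat_lit 8) (.e false (nat_lit 3) (nat_lit 181) (nat_lit 2) (nat_lit 8) (.e false (nat_lit 3) (nat_lit 185) (nat_lit 2) (nat_lit 8) (.e true (nat_lit 1) (nat_lit 188) (nat_lit 2) (nat_lit 8) (.e false (nat_lit 1) (nat_lit 189) (nat_lit 2) (nat_lit 8) (.e false (nat_lit 1) (nat_lit 190) (nat_lit 2) (nat_lit 8) (.e false (nat_lit 1) (nat_lit 192) (nat_lit 2) (nat_lit 8) (.e false (nat_lit 1) (nat_lit 193) (nat_lit 2) (nat_lit 8) (.e true (nat_lit 1) (nat_lit 194) (nat_lit 2) (nat_lit 8) .nil))))))))))))) .leaf) (nat_lit 88074) (nat_lit 1159) (.p (nat_lit 355) (nat_lit 1) (.n (nat_lit 357) (nat_lit 2) (.n (nat_lit 358) (nat_lit 1) (.n (nat_lit 359) (nat_lit 2) (.n (nat_lit 360) (nat_lit 3) (.p (nat_lit 361) (nat_lit 2) (.p (nat_lit 362) (nat_lit 2) (.n (nat_lit 363) (nat_lit 3) (.p (nat_lit 364) (nat_lit 1) (.p (nat_lit 365) (nat_lit 3) (.p (nat_lit 366) (nat_lit 3) (.n (nat_lit 367) (nat_lit 3) (.p (nat_lit 368) (nat_lit 3) (.n (nat_lit 369) (nat_lit 1) (.n (nat_lit 372) (nat_lit 3) (.n (nat_lit 373) (nat_lit 2) (.p (nat_lit 374) (nat_lit 1) (.p (nat_lit 375) (nat_lit 3) (.n (nat_lit 378) (nat_lit 2) (.n (nat_lit 381) (nat_lit 2) (.n (nat_lit 382) (nat_lit 2) (.p (nat_lit 383) (nat_lit 2) (.p (nat_lit 384) (nat_lit 2) (.n (nat_lit 385) (nat_lit 3) (.n (nat_lit 386) (nat_lit 1) (.n (nat_lit 387) (nat_lit 3) (.n (nat_lit 389) (nat_lit 3) (.p (nat_lit 390) (nat_lit 1) (.p (nat_lit 391) (nat_lit 2) (.p (nat_lit 393) (nat_lit 2) (.p (nat_lit 394) (nat_lit 2) (.p (nat_lit 395) (nat_lit 1) (.p (nat_lit 396) (nat_lit 1) (.p (nat_lit 403) (nat_lit 2) (.n (nat_lit 404) (nat_lit 1) (.p (nat_lit 405) (nat_lit 2) (.n (nat_lit 406) (nat_lit 2) (.n (nat_lit 408) (nat_lit 1) (.p (nat_lit 409) (nat_lit 2) (.p (nat_lit 410) (nat_lit 1) (.p (nat_lit 412) (nat_lit 3) (.n (nat_lit 413) (nat_lit 1) (.p (nat_lit 416) (nat_lit 2) (.n (nat_lit 417) (nat_lit 2) (.n (nat_lit 418) (nat_lit 2) (.p (nat_lit 419) (nat_lit 2) (.n (nat_lit 421) (nat_lit 2) (.n (nat_lit 424) (nat_lit 1) (.p (nat_lit 425) (nat_lit 1) .z))))))))))))))))))))))))))))))))))))))))))))))))) (.ct dC1b_c548 (nat_lit 1) (nat_lit 9) (.s false (nat_lit 1) (nat_lit 17) (nat_lit 15) (nat_lit 0) (nat_lit 1) true (nat_lit 0) true (nat_lit 18) true (nat_lit 6) true (nat_lit 7) true (nat_lit 19) (.s false (nat_lit 1) (nat_lit 17) (nat_lit 15) (nat_lit 1) (nat_lit 0) true (nat_lit 1) true (nat_lit 19) true (nat_lit 6) true (nat_lit 7) true (nat_lit 18) (.s false (nat_lit 1) (nat_lit 35) (nat_lit 2) (nat_lit 2) (nat_lit 3) true (nat_lit 9) true (nat_lit 16) true (nat_lit 0) true (nat_lit 17) true (nat_lit 17) (.a false (nat_lit 2) (nat_lit 31) (nat_lit 35) (nat_lit 0) (nat_lit 0) (.a true (nat_lit 2) (nat_lit 34) (nat_lit 35) (nat_lit 0) (nat_lit 0) (.a false (nat_lit 3) (nat_lit 35) (nat_lit 35) (nat_lit 0) (nat_lit 0) (.e false (nat_lit 2) (nat_lit 36) (nat_lit 35) (nat_lit 0) (.e false (nat_lit 3) (nat_lit 261) (nat_lit 1) (nat_lit 18) (.e true (nat_lit 3) (nat_lit 264) (nat_lit 1) (nat_lit 18) (.e false (nat_lit 2) (nat_lit 266) (nat_lit 1) (nat_lit 18) (.e true (nat_lit 2) (nat_lit 272) (nat_lit 1) (nat_lit 18) (.e true (nat_lit 3) (nat_lit 274) (nat_lit 1) (nat_lit 18) (.e true (nat_lit 3) (nat_lit 277) (nat_lit 1) (nat_lit 18) (.e false (nat_lit 2) (nat_lit 288) (nat_lit 1) (nat_lit 18) (.e true (nat_lit 1) (nat_lit 262) (nat_lit 1) (nat_lit 18) (.e true (nat_lit 1) (nat_lit 265) (nat_lit 1) (nat_lit 18) (.e false (nat_lit 1) (nat_lit 278) (nat_lit 1) (nat_lit 18) dC1b_i133)))))))))))))))))) .leaf))))))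

noncomputable def dC1b_t5 : Tr := (.nd dC1b_t3 (nat_lit 77824) (nat_lit 185) (.p (nat_lit 128) (nat_lit 1) .z) .df dC1b_t4)

noncomputable def dC1b_t6 : Tr := (.nd dC1b_t2 (nat_lit 61457) (nat_lit 1070) (.n (nat_lit 355) (nat_lit 2) (.n (nat_lit 356) (nat_lit 3) (.n (nat_lit 357) (nat_lit 3) (.p (nat_lit 358) (nat_lit 1) (.p (nat_lit 359) (nat_lit 3) (.n (nat_lit 360) (nat_lit 1) (.n (nat_lit 361) (nat_lit 2) (.n (nat_lit 362) (nat_lit 2) (.p (nat_lit 363) (nat_lit 2) (.n (nat_lit 364) (nat_lit 2) (.n (nat_lit 365) (nat_lit 3) (.p (nat_lit 366) (nat_lit 2) (.n (nat_lit 367) (nat_lit 1) (.n (nat_lit 369) (nat_lit 3) (.n (nat_lit 370) (nat_lit 3) (.n (nat_lit 372) (nat_lit 2) (.p (nat_lit 373) (nat_lit 1) (.n (nat_lit 374) (nat_lit 2) (.p (nat_lit 375) (nat_lit 2) (.n (nat_lit 378) (nat_lit 3) (.n (nat_lit 379) (nat_lit 2) (.n (nat_lit 380) (nat_lit 2) (.n (nat_lit 381)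 (nat_lit 1) (.p (nat_lit 382) (nat_lit 1) (.p (nat_lit 384) (nat_lit 1) (.p (nat_lit 385) (nat_lit 1) (.p (nat_lit 386) (nat_lit 3) (.n (nat_lit 387) (nat_lit 1) (.p (nat_lit 388) (nat_lit 3) (.n (nat_lit 389) (nat_lit 3) (.n (nat_lit 390) (nat_lit 1) (.p (nat_lit 391) (nat_lit 2) (.p (nat_lit 392) (nat_lit 1) (.p (nat_lit 393) (nat_lit 3) (.p (nat_lit 394) (nat_lit 2) (.n (nat_lit 395) (nat_lit 2) (.n (nat_lit 396) (nat_lit 3) (.p (nat_lit 400) (nat_lit 2) (.p (nat_lit 404) (nat_lit 1) (.p (nat_lit 405) (nat_lit 2) (.n (nat_lit 406) (nat_lit 2) (.p (nat_lit 407) (nat_lit 3) (.n (nat_lit 408) (nat_lit 1) (.n (nat_lit 409) (nat_lit 3) (.p (nat_lit 410) (nat_lit 3) (.p (nat_lit 412) (nat_lit 3) (.n (nat_lit 413) (nat_lit 3) (.n (nat_lit 414) (nat_lit 2) (.n (nat_lit 416) (nat_lit 3) (.n (nat_lit 423) (nat_lit 2) (.p (nat_lit 424) (nat_lit 2) .z)))))))))))))))))))))))))))))))))))))))))))))))))))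 (.ct dC1b_c548 (nat_lit 1) (nat_lit 6) (.s false (nat_lit 1) (nat_lit 60) (nat_lit 2) (nat_lit 2) (nat_lit 1) true (nat_lit 14) true (nat_lit 18) false (nat_lit 6) true (nat_lit 17) true (nat_lit 17) (.e false (nat_lit 1) (nat_lit 137) (nat_lit 5) (nat_lit 14) (.e false (nat_lit 1) (nat_lit 265) (nat_lit 1) (nat_lit 18) (.e false (nat_lit 2) (nat_lit 258) (nat_lit 2) (nat_lit 17) (.e true (nat_lit 1) (nat_lit 212) (nat_lit 2) (nat_lit 17) (.e false (nat_lit 1) (nat_lit 214) (nat_lit 2) (nat_lit 17) (.e false (nat_lit 3) (nat_lit 215) (nat_lit 2) (nat_lit 17) (.e true (nat_lit 1) (nat_lit 216) (nat_lit 2) (nat_lit 17) (.e false (nat_lit 3) (nat_lit 217) (nat_lit 2) (nat_lit 17) (.e true (nat_lit 2) (nat_lit 218) (nat_lit 2) (nat_lit 17) dC1b_i51))))))))))) dC1b_t5)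

end Pool.Agent.MalP.Chk7
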