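import Pool.Agent.MalP.P7.ChkDef

/-! # Data for the certificate of zC1Ex -/

set_option autoImplicit false
set_option maxRecDepth 100000

namespace Pool.Agent.MalP.Chk7

noncomputable def dC1c_i0 : IL := (.e true (nat_lit 2) (nat_lit 236) (nat_lit 2) (nat_lit 17) (.e true (nat_lit 1) (nat_lit 237) (nat_lit 2) (nat_lit 17) (.e true (nat_lit 3) (nat_lit 241) (nat_lit 2) (nat_lit 17) (.e false (nat_lit 1) (nat_lit 243) (nat_lit 2) (nat_lit 17) (.e true (nat_lit 2) (nat_lit 244) (nat_lit 2) (nat_lit 17) (.e true (nat_lit 3) (nat_lit 245) (nat_lit 2) (nat_lit 17) (.e false (nat_lit 1) (nat_lit 212) (nat_lit 2) (nat_lit 17) (.e true (nat_lit 1) (nat_lit 213) (nat_lit 2) (nat_lit 17) (.e true (nat_lit 3) (nat_lit 214) (nat_lit 2) (nat_lit 17) (.e false (nat_lit 2) (nat_lit 216) (nat_lit 2) (nat_lit 17) (.e false (nat_lit 2) (nat_lit 217) (nat_lit 2) (nat_lit 17) (.e false (nat_lit 1) (nat_lit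 220) (nat_lit 2) (nat_lit 17) (.e true (nat_lit 2) (nat_lit 221) (nat_lit 2) (nat_lit 17) (.e true (nat_lit 2) (nat_lit 224) (nat_lit 2) (nat_lit 17) (.e false (nat_lit 1) (nat_lit 227) (nat_lit 2) (nat_lit 17) (.e false (nat_lit 2) (nat_lit 229) (nat_lit 2) (nat_lit 17) (.e false (nat_lit 2) (nat_lit 238) (nat_lit 2) (nat_lit 17) (.e false (nat_lit 2) (nat_lit 247) (nat_lit 2) (nat_lit 17) (.e true (nat_lit 3) (nat_lit 233) (nat_lit 2) (nat_lit 17) (.e true (nat_lit 1) (nat_lit 239) (nat_lit 2) (nat_lit 17) (.e false (nat_lit 3) (nat_lit 240) (nat_lit 2) (nat_lit 17) (.e false (nat_lit 1) (nat_lit 215) (nat_lit 2) (nat_lit 17) (.e true (nat_lit 2) (nat_lit 222) (nat_lit 2) (nat_lit 17) (.e true (nat_lit 1) (nat_lit 242) (nat_lit 2) (nat_lit 17) (.u (nat_lit 2) (.n (nat_lit 0) (nat_lit 4) (.n (nat_lit 1) (nat_lit 2) (.n (nat_lit 2) (nat_lit 1) (.p (nat_lit 3) (nat_lit 1) (.p (nat_lit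 4) (nat_lit 3) (.p (nat_lit 6) (nat_lit 1) (.n (nat_lit 7) (nat_lit 1) (.p (nat_lit 8) (nat_lit 3) (.p (nat_lit 9) (nat_lit 2) (.p (nat_lit 10) (nat_lit 1) (.n (nat_lit 11) (nat_lit 2) (.n (nat_lit 12) (nat_lit 3) (.n (nat_lit 15) (nat_lit 1) (.n (nat_lit 18) (nat_lit 1) (.n (nat_lit 19) (nat_lit 3) (.n (nat_lit 20) (nat_lit 4) (.n (nat_lit 26) (nat_lit 1) (.n (nat_lit 27) (nat_lit 2) (.p (nat_lit 28) (nat_lit 2) (.p (nat_lit 29) (nat_lit 1) (.p (nat_lit 30) (nat_lit 1) (.p (nat_lit 31) (nat_lit 3) (.p (nat_lit 32) (nat_lit 2) (.p (nat_lit 33) (nat_lit 1) (.p (nat_lit 34) (nat_lit 1) (.n (nat_lit 36) (nat_lit 1) (.n (nat_lit 37) (nat_lit 2) (.n (nat_lit 38) (nat_lit 1) (.p (nat_lit 39) (nat_lit 1) (.p (nat_lit 40) (nat_lit 1) (.p (nat_lit 41) (nat_lit 2) (.p (nat_lit 49) (nat_lit 2) (.n (nat_lit 54) (nat_lit 2) (.n (nat_lit 55) (nat_lit 1) (.p (nat_lit 57) (nat_lit 1) (.n (nat_lit 58)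 (nat_lit 1) (.n (nat_lit 60) (nat_lit 1) (.n (nat_lit 63) (nat_lit 1) (.p (nat_lit 64) (nat_lit 1) (.n (nat_lit 69) (nat_lit 2) (.p (nat_lit 70) (nat_lit 3) (.n (nat_lit 328) (nat_lit 2) (.p (nat_lit 329) (nat_lit 1) (.p (nat_lit 330) (nat_lit 1) (.p (nat_lit 332) (nat_lit 1) (.p (nat_lit 337) (nat_lit 1) (.p (nat_lit 338) (nat_lit 1) (.n (nat_lit 339) (nat_lit 1) (.n (nat_lit 342) (nat_lit 1) (.p (nat_lit 346) (nat_lit 1) (.p (nat_lit 350) (nat_lit 1) (.p (nat_lit 351) (nat_lit 1) (.n (nat_lit 352) (nat_lit 1) (.n (nat_lit 353) (nat_lit 1) (.p (nat_lit 354) (nat_lit 1) (.n (nat_lit 355) (nat_lit 1) (.n (nat_lit 358) (nat_lit 1) (.n (nat_lit 359) (nat_lit 1) (.p (nat_lit 360) (nat_lit 1) (.p (nat_lit 363) (nat_lit 1) .z)))))))))))))))))))))))))))))))))))))))))))))))))))))))))))) .nil)))))))))))))))))))))))))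

noncomputable def dC1c_i1 : IL := (.e true (nat_lit 1) (nat_lit 260) (nat_lit 1) (nat_lit 18) (.e false (nat_lit 3) (nat_lit 261) (nat_lit 1) (nat_lit 18) (.e false (nat_lit 2) (nat_lit 262) (nat_lit 1) (nat_lit 18) (.e false (nat_lit 1) (nat_lit 263) (nat_lit 1) (nat_lit 18) (.e false (nat_lit 2) (nat_lit 264) (nat_lit 1) (nat_lit 18) (.e false (nat_lit 1) (nat_lit 265) (nat_lit 1) (nat_lit 18) (.e true (nat_lit 2) (nat_lit 266) (nat_lit 1) (nat_lit 18) (.e true (nat_lit 3) (nat_lit 267) (nat_lit 1) (nat_lit 18) (.e true (nat_lit 2) (nat_lit 268) (nat_lit 1) (nat_lit 18) (.e false (nat_lit 1) (nat_lit 269) (nat_lit 1) (nat_lit 18) (.e true (nat_lit 2) (nat_lit 270) (nat_lit 1) (nat_lit 18) (.e false (nat_lit 3) (nat_lit 271) (nat_lit 1) (nat_lit 18) (.e false (nat_lit 2) (nat_lit 272) (nat_lit 1) (nat_lit 18) (.e false (nat_lit 3) (nat_lit 273) (nat_lit 1) (nat_lit 18) (.e true (nat_lit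 2) (nat_lit 276) (nat_lit 1) (nat_lit 18) (.e false (nat_lit 1) (nat_lit 277) (nat_lit 1) (nat_lit 18) (.e true (nat_lit 3) (nat_lit 278) (nat_lit 1) (nat_lit 18) (.e true (nat_lit 1) (nat_lit 279) (nat_lit 1) (nat_lit 18) (.e false (nat_lit 3) (nat_lit 280) (nat_lit 1) (nat_lit 18) (.e false (nat_lit 2) (nat_lit 285) (nat_lit 1) (nat_lit 18) (.e false (nat_lit 1) (nat_lit 286) (nat_lit 1) (nat_lit 18) (.e false (nat_lit 3) (nat_lit 287) (nat_lit 1) (nat_lit 18) (.e true (nat_lit 1) (nat_lit 288) (nat_lit 1) (nat_lit 18) (.e false (nat_lit 1) (nat_lit 234) (nat_lit 2) (nat_lit 17) (.e true (nat_lit 2) (nat_lit 235) (nat_lit 2) (nat_lit 17) dC1c_i0)))))))))))))))))))))))))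

noncomputable def dC1c_c548 : Cm := .mk (nat_lit 917) (nat_lit 548) (nat_lit 355) (nat_lit 71) (.c (nat_lit 31) (nat_lit 6) (nat_lit 31) (nat_lit 6) (nat_lit 71) (.c (nat_lit 37) (nat_lit 3) (nat_lit 28) (nat_lit 3) (nat_lit 107) (.c (nat_lit 40) (nat_lit 3) (nat_lit 24) (nat_lit 4) (nat_lit 116) (.c (nat_lit 43) (nat_lit 3) (nat_lit 20) (nat_lit 4) (nat_lit 128) (.c (nat_lit 46) (nat_lit 1) (nat_lit 19) (nat_lit 1) (nat_lit 140) (.c (nat_lit 47) (nat_lit 8) (nat_lit 18) (nat_lit 1) (nat_lit 141) (.c (nat_lit 55) (nat_lit 11) (nat_lit 16) (nat_lit 2) (nat_lit 149) (.c (nat_lit 66) (nat_lit 11) (nat_lit 14) (nat_lit 2) (nat_lit 171) (.c (nat_lit 77) (nat_lit 5) (nat_lit 13) (nat_lit 1) (nat_lit 193) (.c (nat_lit 82) (nat_lit 11) (nat_lit 10) (nat_lit 3) (nat_lit 198) (.c (nat_lit 93) (nat_lit 5) (nat_lit 9) (nat_lit 1) (nat_lit 231) (.c (nat_lit 98) (nat_lit 4) (nat_lit 8) (nat_lit 1)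 (nat_lit 236) (.c (nat_lit 102) (nat_lit 4) (nat_lit 7) (nat_lit 1) (nat_lit 240) (.c (nat_lit 107) (nat_lit 25) (nat_lit 6) (nat_lit 1) (nat_lit 244) (.c (nat_lit 132) (nat_lit 21) (nat_lit 5) (nat_lit 1) (nat_lit 269) (.c (nat_lit 153) (nat_lit 21) (nat_lit 4) (nat_lit 1) (nat_lit 290) (.c (nat_lit 180) (nat_lit 16) (nat_lit 3) (nat_lit 1) (nat_lit 311) (.c (nat_lit 212) (nat_lit 48) (nat_lit 2) (nat_lit 1) (nat_lit 327) (.c (nat_lit 260) (nat_lit 30) (nat_lit 1) (nat_lit 1) (nat_lit 375) (.c (nat_lit 290) (nat_lit 30) (nat_lit 0) (nat_lit 1) (nat_lit 405) (.c (nat_lit 2512) (nat_lit 0) (nat_lit 196) (nat_lit 6) (nat_lit 435) (.c (nat_lit 2032) (nat_lit 0) (nat_lit 174) (nat_lit 6) (nat_lit 435) .nil))))))))))))))))))))))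

noncomputable def dC1c_i2 : IL := (.e true (nat_lit 1) (nat_lit 205) (nat_lit 3) (nat_lit 12) (.e false (nat_lit 1) (nat_lit 206) (nat_lit 3) (nat_lit 12) (.e true (nat_lit 1) (nat_lit 320) (nat_lit 1) (nat_lit 14) (.e false (nat_lit 2) (nat_lit 322) (nat_lit 1) (nat_lit 14) (.e true (nat_lit 1) (nat_lit 323) (nat_lit 1) (nat_lit 14) (.e true (nat_lit 2) (nat_lit 324) (nat_lit 1) (nat_lit 14) (.e false (nat_lit 1) (nat_lit 325) (nat_lit 1) (nat_lit 14) (.e true (nat_lit 1) (nat_lit 326) (nat_lit 1) (nat_lit 14) (.e false (nat_lit 1) (nat_lit 60) (nat_lit 18) (nat_lit 3) (.e false (nat_lit 1) (nat_lit 328) (nat_lit 0) (nat_lit 15) (.e true (nat_lit 1) (nat_lit 329) (nat_lit 0) (nat_lit 15) (.e true (nat_lit 3) (nat_lit 330) (nat_lit 0) (nat_lit 15) (.e true (nat_lit 1) (nat_lit 332) (nat_lit 0) (nat_lit 15) (.e false (nat_lit 2) (nat_lit 334) (nat_lit 0) (nat_lit 15) (.e false (nat_lit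 2) (nat_lit 335) (nat_lit 0) (nat_lit 15) (.e false (nat_lit 2) (nat_lit 336) (nat_lit 0) (nat_lit 15) (.e true (nat_lit 1) (nat_lit 337) (nat_lit 0) (nat_lit 15) (.e false (nat_lit 3) (nat_lit 338) (nat_lit 0) (nat_lit 15) (.e true (nat_lit 2) (nat_lit 340) (nat_lit 0) (nat_lit 15) (.e false (nat_lit 1) (nat_lit 345) (nat_lit 0) (nat_lit 15) (.e false (nat_lit 2) (nat_lit 84) (nat_lit 14) (nat_lit 5) (.e false (nat_lit 2) (nat_lit 87) (nat_lit 14) (nat_lit 5) (.e false (nat_lit 1) (nat_lit 90) (nat_lit 14) (nat_lit 5) (.e true (nat_lit 1) (nat_lit 92) (nat_lit 14) (nat_lit 5) (.u (nat_lit 2) (.n (nat_lit 1) (nat_lit 3) (.p (nat_lit 2) (nat_lit 1) (.n (nat_lit 4) (nat_lit 1) (.n (nat_lit 5) (nat_lit 2) (.p (nat_lit 6) (nat_lit 1) (.p (nat_lit 7) (nat_lit 1) (.p (nat_lit 8) (nat_lit 2) (.n (nat_lit 9) (nat_lit 1) (.n (nat_lit 10) (nat_lit 1) (.n (nat_lit 15) (nat_lit 1) (.p (nat_lit 16)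 (nat_lit 1) (.n (nat_lit 17) (nat_lit 2) (.n (nat_lit 19) (nat_lit 1) (.p (nat_lit 26) (nat_lit 1) (.n (nat_lit 27) (nat_lit 1) (.p (nat_lit 30) (nat_lit 1) .z)))))))))))))))) .nil)))))))))))))))))))))))))

noncomputable def dC1c_c533 : Cm := .mk (nat_lit 1215) (nat_lit 533) (nat_lit 426) (nat_lit 34) (.c (nat_lit 40) (nat_lit 3) (nat_lit 31) (nat_lit 6) (nat_lit 34) (.c (nat_lit 43) (nat_lit 3) (nat_lit 28) (nat_lit 3) (nat_lit 52) (.c (nat_lit 46) (nat_lit 1) (nat_lit 20) (nat_lit 4) (nat_lit 61) (.c (nat_lit 55) (nat_lit 11) (nat_lit 18) (nat_lit 1) (nat_lit 65) (.c (nat_lit 77) (nat_lit 5) (nat_lit 16) (nat_lit 2) (nat_lit 76) (.c (nat_lit 82) (nat_lit 11) (nat_lit 14) (nat_lit 2) (nat_lit 86) (.c (nat_lit 98) (nat_lit 4) (nat_lit 10) (nat_lit 3) (nat_lit 108) (.c (nat_lit 102) (nat_lit 4) (nat_lit 9) (nat_lit 1) (nat_lit 120) (.c (nat_lit 106) (nat_lit 1) (nat_lit 7) (nat_lit 1)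 (nat_lit 124) (.c (nat_lit 132) (nat_lit 21) (nat_lit 6) (nat_lit 1) (nat_lit 125) (.c (nat_lit 174) (nat_lit 6) (nat_lit 5) (nat_lit 1) (nat_lit 146) (.c (nat_lit 180) (nat_lit 16) (nat_lit 4) (nat_lit 1) (nat_lit 152) (.c (nat_lit 202) (nat_lit 5) (nat_lit 3) (nat_lit 1) (nat_lit 168) (.c (nat_lit 260) (nat_lit 30) (nat_lit 2) (nat_lit 1) (nat_lit 173) (.c (nat_lit 320) (nat_lit 8) (nat_lit 1) (nat_lit 1) (nat_lit 203) (.c (nat_lit 328) (nat_lit 19) (nat_lit 0) (nat_lit 1) (nat_lit 211) (.c (nat_lit 2512) (nat_lit 0) (nat_lit 207) (nat_lit 5) (nat_lit 230) .nil)))))))))))))))))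

noncomputable def dC1c_i3 : IL := (.e false (nat_lit 1) (nat_lit 67) (nat_lit 18) (nat_lit 3) (.e true (nat_lit 1) (nat_lit 68) (nat_lit 18) (nat_lit 3) (.e false (nat_lit 1) (nat_lit 69) (nat_lit 18) (nat_lit 3) (.e false (nat_lit 1) (nat_lit 70) (nat_lit 18) (nat_lit 3) (.e true (nat_lit 1) (nat_lit 74) (nat_lit 18) (nat_lit 3) (.e false (nat_lit 1) (nat_lit 328) (nat_lit 1) (nat_lit 14) (.e true (nat_lit 2) (nat_lit 329) (nat_lit 1) (nat_lit 14) (.e true (nat_lit 2) (nat_lit 330) (nat_lit 1) (nat_lit 14) (.e true (nat_lit 1) (nat_lit 331) (nat_lit 1) (nat_lit 14) (.e true (nat_lit 1) (nat_lit 332) (nat_lit 1) (nat_lit 14) (.e false (nat_lit 1) (nat_lit 333) (nat_lit 1) (nat_lit 14) (.e false (nat_lit 2) (nat_lit 334) (nat_lit 1) (nat_lit 14) (.e false (nat_lit 2) (nat_lit 335) (nat_lit 1) (nat_lit 14) (.e true (nat_lit 2) (nat_lit 336) (nat_lit 1) (nat_lit 14) (.e false (nat_lit 3)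 (nat_lit 337) (nat_lit 1) (nat_lit 14) (.e true (nat_lit 1) (nat_lit 338) (nat_lit 1) (nat_lit 14) (.e true (nat_lit 2) (nat_lit 341) (nat_lit 1) (nat_lit 14) (.e false (nat_lit 1) (nat_lit 346) (nat_lit 1) (nat_lit 14) (.e true (nat_lit 1) (nat_lit 348) (nat_lit 0) (nat_lit 15) (.e false (nat_lit 2) (nat_lit 349) (nat_lit 0) (nat_lit 15) (.e false (nat_lit 2) (nat_lit 350) (nat_lit 0) (nat_lit 15) (.e false (nat_lit 2) (nat_lit 351) (nat_lit 0) (nat_lit 15) (.e true (nat_lit 3) (nat_lit 352) (nat_lit 0) (nat_lit 15) (.e true (nat_lit 1) (nat_lit 347) (nat_lit 0) (nat_lit 15) (.u (nat_lit 2) (.p (nat_lit 0) (nat_lit 1) (.n (nat_lit 1) (nat_lit 1) (.n (nat_lit 2) (nat_lit 1) (.n (nat_lit 4) (nat_lit 1) (.n (nat_lit 5) (nat_lit 3) (.n (nat_lit 7) (nat_lit 1) (.n (nat_lit 9) (nat_lit 2) (.p (nat_lit 11) (nat_lit 1) (.p (nat_lit 12) (nat_lit 2) (.p (nat_lit 16) (nat_lit 1) (.n (nat_lit 17)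 (nat_lit 1) (.n (nat_lit 19) (nat_lit 1) (.p (nat_lit 29) (nat_lit 1) (.p (nat_lit 222) (nat_lit 1) (.n (nat_lit 224) (nat_lit 1) .z))))))))))))))) .nil)))))))))))))))))))))))))

noncomputable def dC1c_c293 : Cm := .mk (nat_lit 1393) (nat_lit 293) (nat_lit 460) (nat_lit 34) (.c (nat_lit 40) (nat_lit 3) (nat_lit 37) (nat_lit 3) (nat_lit 34) (.c (nat_lit 43) (nat_lit 3) (nat_lit 31) (nat_lit 6) (nat_lit 43) (.c (nat_lit 46) (nat_lit 1) (nat_lit 24) (nat_lit 4) (nat_lit 61) (.c (nat_lit 66) (nat_lit 11) (nat_lit 18) (nat_lit 1) (nat_lit 65) (.c (nat_lit 82) (nat_lit 11) (nat_lit 16) (nat_lit 2) (nat_lit 76) (.c (nat_lit 93) (nat_lit 5) (nat_lit 14) (nat_lit 2) (nat_lit 98) (.c (nat_lit 98) (nat_lit 4) (nat_lit 13) (nat_lit 1) (nat_lit 108) (.c (nat_lit 102) (nat_lit 4) (nat_lit 10) (nat_lit 3) (nat_lit 112) (.c (nat_lit 106) (nat_lit 1) (nat_lit 8) (nat_lit 1) (nat_lit 124) (.c (nat_lit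 153) (nat_lit 21) (nat_lit 6) (nat_lit 1) (nat_lit 125) (.c (nat_lit 180) (nat_lit 16) (nat_lit 5) (nat_lit 1) (nat_lit 146) (.c (nat_lit 196) (nat_lit 6) (nat_lit 4) (nat_lit 1) (nat_lit 162) (.c (nat_lit 207) (nat_lit 5) (nat_lit 3) (nat_lit 1) (nat_lit 168) (.c (nat_lit 290) (nat_lit 30) (nat_lit 2) (nat_lit 1) (nat_lit 173) (.c (nat_lit 328) (nat_lit 19) (nat_lit 1) (nat_lit 1) (nat_lit 203) (.c (nat_lit 347) (nat_lit 8) (nat_lit 0) (nat_lit 1) (nat_lit 222) (.c (nat_lit 2032) (nat_lit 0) (nat_lit 202) (nat_lit 5) (nat_lit 230) .nil)))))))))))))))))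

noncomputable def dC1c_i4 : IL := (.s true (nat_lit 1) (nat_lit 16) (nat_lit 0) (nat_lit 2) (nat_lit 0) false (nat_lit 10) true (nat_lit 9) false (nat_lit 1) true (nat_lit 9) true (nat_lit 7) (.e true (nat_lit 2) (nat_lit 77) (nat_lit 1) (nat_lit 8) (.e true (nat_lit 2) (nat_lit 78) (nat_lit 1) (nat_lit 8) (.e true (nat_lit 1) (nat_lit 21) (nat_lit 6) (nat_lit 3) (.e true (nat_lit 3) (nat_lit 83) (nat_lit 0) (nat_lit 9) (.e true (nat_lit 1) (nat_lit 88) (nat_lit 0) (nat_lit 9) (.e true (nat_lit 3) (nat_lit 17) (nat_lit 9) (nat_lit 1) (.e false (nat_lit 3) (nat_lit 20) (nat_lit 6) (nat_lit 3) (.e true (nat_lit 3) (nat_lit 22) (nat_lit 6) (nat_lit 3) (.e false (nat_lit 3) (nat_lit 79) (nat_lit 1) (nat_lit 8) (.e false (nat_lit 3) (nat_lit 81) (nat_lit 1) (nat_lit 8) (.e true (nat_lit 3) (nat_lit 55) (nat_lit 2) (nat_lit 7) (.e true (nat_lit 1) (nat_lit 56) (nat_lit 2) (nat_lit 7) (.e true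 (nat_lit 3) (nat_lit 57) (nat_lit 2) (nat_lit 7) (.e false (nat_lit 3) (nat_lit 14) (nat_lit 11) (nat_lit 0) (.e false (nat_lit 3) (nat_lit 63) (nat_lit 2) (nat_lit 7) (.e false (nat_lit 3) (nat_lit 58) (nat_lit 2) (nat_lit 7) (.e true (nat_lit 2) (nat_lit 59) (nat_lit 2) (nat_lit 7) (.e false (nat_lit 1) (nat_lit 60) (nat_lit 2) (nat_lit 7) (.e true (nat_lit 1) (nat_lit 61) (nat_lit 2) (nat_lit 7) (.e false (nat_lit 2) (nat_lit 62) (nat_lit 2) (nat_lit 7) (.e false (nat_lit 2) (nat_lit 64) (nat_lit 2) (nat_lit 7) (.e false (nat_lit 3) (nat_lit 65) (nat_lit 2) (nat_lit 7) (.e true (nat_lit 1) (nat_lit 16) (nat_lit 9) (nat_lit 1) (.u (nat_lit 2) (.p (nat_lit 0) (nat_lit 1) (.n (nat_lit 1) (nat_lit 1) (.p (nat_lit 2) (nat_lit 1) (.p (nat_lit 3) (nat_lit 1) (.n (nat_lit 4) (nat_lit 1) (.p (nat_lit 6) (nat_lit 2) (.p (nat_lit 7) (nat_lit 1) (.n (nat_lit 9) (nat_lit 1) (.p (nat_lit 10) (nat_lit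 1) (.p (nat_lit 13) (nat_lit 1) (.n (nat_lit 16) (nat_lit 1) (.p (nat_lit 17) (nat_lit 1) (.n (nat_lit 19) (nat_lit 1) (.p (nat_lit 20) (nat_lit 1) (.p (nat_lit 31) (nat_lit 1) (.n (nat_lit 47) (nat_lit 1) (.p (nat_lit 48) (nat_lit 2) (.p (nat_lit 50) (nat_lit 2) (.n (nat_lit 51) (nat_lit 1) (.p (nat_lit 52) (nat_lit 1) (.n (nat_lit 54) (nat_lit 1) (.n (nat_lit 55) (nat_lit 2) (.n (nat_lit 57) (nat_lit 1) (.n (nat_lit 58) (nat_lit 1) (.n (nat_lit 62) (nat_lit 1) (.n (nat_lit 63) (nat_lit 1) (.n (nat_lit 65) (nat_lit 1) (.p (nat_lit 66) (nat_lit 1) (.n (nat_lit 67) (nat_lit 1) (.p (nat_lit 71) (nat_lit 1) .z)))))))))))))))))))))))))))))) .nil)))))))))))))))))))))))))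

noncomputable def dC1c_c531 : Cm := .mk (nat_lit 219) (nat_lit 531) (nat_lit 132) (nat_lit 21) (.c (nat_lit 14) (nat_lit 2) (nat_lit 10) (nat_lit 3) (nat_lit 21) (.c (nat_lit 16) (nat_lit 2) (nat_lit 9) (nat_lit 1) (nat_lit 27) (.c (nat_lit 18) (nat_lit 1) (nat_lit 7) (nat_lit 1) (nat_lit 29) (.c (nat_lit 20) (nat_lit 4) (nat_lit 6) (nat_lit 1) (nat_lit 30) (.c (nat_lit 28) (nat_lit 3) (nat_lit 5) (nat_lit 1) (nat_lit 34) (.c (nat_lit 31) (nat_lit 6) (nat_lit 4) (nat_lit 1) (nat_lit 37) (.c (nat_lit 40) (nat_lit 3) (nat_lit 3) (nat_lit 1) (nat_lit 43) (.c (nat_lit 55) (nat_lit 11) (nat_lit 2) (nat_lit 1) (nat_lit 46) (.c (nat_lit 77) (nat_lit 5) (nat_lit 1) (nat_lit 1) (nat_lit 57) (.c (nat_lit 82) (nat_lit 11) (nat_lit 0) (nat_lit 1) (nat_lit 62) (.c (nat_lit 2512) (nat_lit 0) (nat_lit 43) (nat_lit 3) (nat_lit 73) .nil)))))))))))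

noncomputable def dC1c_i5 : IL := (.e true (nat_lit 2) (nat_lit 31) (nat_lit 5) (nat_lit 4) (.e true (nat_lit 2) (nat_lit 32) (nat_lit 5) (nat_lit 4) (.e true (nat_lit 2) (nat_lit 36) (nat_lit 5) (nat_lit 4) (.e true (nat_lit 2) (nat_lit 67) (nat_lit 2) (nat_lit 7) (.e false (nat_lit 3) (nat_lit 68) (nat_lit 2) (nat_lit 7) (.e false (nat_lit 3) (nat_lit 69) (nat_lit 2) (nat_lit 7) (.e true (nat_lit 3) (nat_lit 70) (nat_lit 2) (nat_lit 7) (.e true (nat_lit 3) (nat_lit 74) (nat_lit 2) (nat_lit 7) (.e false (nat_lit 1) (nat_lit 75) (nat_lit 2) (nat_lit 7) (.e true (nat_lit 2) (nat_lit 66) (nat_lit 2) (nat_lit 7) (.e false (nat_lit 2) (nat_lit 71) (nat_lit 2) (nat_lit 7) (.e true (nat_lit 3) (nat_lit 17) (nat_lit 10) (nat_lit 1) (.e true (nat_lit 3) (nat_lit 45) (nat_lit 3) (nat_lit 6) (.e true (nat_lit 3) (nat_lit 24) (nat_lit 6) (nat_lit 3) (.e false (nat_lit 1) (nat_lit 83) (nat_lit 1)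 (nat_lit 8) (.e false (nat_lit 3) (nat_lit 85) (nat_lit 1) (nat_lit 8) (.e false (nat_lit 3) (nat_lit 17) (nat_lit 11) (nat_lit 1) (.e true (nat_lit 1) (nat_lit 91) (nat_lit 1) (nat_lit 8) (.e true (nat_lit 2) (nat_lit 82) (nat_lit 1) (nat_lit 8) (.e false (nat_lit 3) (nat_lit 72) (nat_lit 2) (nat_lit 7) (.e false (nat_lit 2) (nat_lit 73) (nat_lit 2) (nat_lit 7) (.e false (nat_lit 2) (nat_lit 90) (nat_lit 1) (nat_lit 8) (.e true (nat_lit 2) (nat_lit 43) (nat_lit 3) (nat_lit 6) (.e true (nat_lit 2) (nat_lit 16) (nat_lit 11) (nat_lit 1) (.u (nat_lit 2) (.n (nat_lit 0) (nat_lit 1) (.n (nat_lit 1) (nat_lit 1) (.p (nat_lit 2) (nat_lit 2) (.p (nat_lit 5) (nat_lit 2) (.p (nat_lit 7) (nat_lit 1) (.n (nat_lit 8) (nat_lit 1) (.p (nat_lit 9) (nat_lit 1) (.n (nat_lit 10) (nat_lit 1) (.p (nat_lit 11) (nat_lit 1) (.p (nat_lit 12) (nat_lit 1) (.n (nat_lit 14) (nat_lit 1) (.p (nat_lit 17) (nat_lit 1)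 (.n (nat_lit 19) (nat_lit 1) (.n (nat_lit 27) (nat_lit 1) (.p (nat_lit 46) (nat_lit 1) (.n (nat_lit 48) (nat_lit 1) (.p (nat_lit 49) (nat_lit 1) (.n (nat_lit 51) (nat_lit 1) (.n (nat_lit 53) (nat_lit 1) (.p (nat_lit 54) (nat_lit 1) (.n (nat_lit 56) (nat_lit 1) .z))))))))))))))))))))) .nil)))))))))))))))))))))))))

noncomputable def dC1c_c291 : Cm := .mk (nat_lit 271) (nat_lit 291) (nat_lit 153) (nat_lit 21) (.c (nat_lit 14) (nat_lit 2) (nat_lit 13) (nat_lit 1) (nat_lit 21) (.c (nat_lit 16) (nat_lit 2) (nat_lit 10) (nat_lit 3) (nat_lit 23) (.c (nat_lit 18) (nat_lit 1) (nat_lit 8) (nat_lit 1) (nat_lit 29) (.c (nat_lit 24) (nat_lit 4) (nat_lit 6) (nat_lit 1) (nat_lit 30) (.c (nat_lit 31) (nat_lit 6) (nat_lit 5) (nat_lit 1) (nat_lit 34) (.c (nat_lit 37) (nat_lit 3) (nat_lit 4) (nat_lit 1) (nat_lit 40) (.c (nat_lit 43) (nat_lit 3) (nat_lit 3) (nat_lit 1) (nat_lit 43) (.c (nat_lit 66) (nat_lit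 11) (nat_lit 2) (nat_lit 1) (nat_lit 46) (.c (nat_lit 82) (nat_lit 11) (nat_lit 1) (nat_lit 1) (nat_lit 57) (.c (nat_lit 93) (nat_lit 5) (nat_lit 0) (nat_lit 1) (nat_lit 68) (.c (nat_lit 2032) (nat_lit 0) (nat_lit 40) (nat_lit 3) (nat_lit 73) .nil)))))))))))

noncomputable def dC1c_c547 : Cm := .mk (nat_lit 418) (nat_lit 547) (nat_lit 212) (nat_lit 48) (.c (nat_lit 19) (nat_lit 1) (nat_lit 18) (nat_lit 1) (nat_lit 48) (.c (nat_lit 20) (nat_lit 4) (nat_lit 16) (nat_lit 2) (nat_lit 49) (.c (nat_lit 24) (nat_lit 4) (nat_lit 14) (nat_lit 2) (nat_lit 57) (.c (nat_lit 28) (nat_lit 3) (nat_lit 13) (nat_lit 1) (nat_lit 65) (.c (nat_lit 31) (nat_lit 6) (nat_lit 10) (nat_lit 3) (nat_lit 68) (.c (nat_lit 37) (nat_lit 3) (nat_lit 9) (nat_lit 1) (nat_lit 86) (.c (nat_lit 40) (nat_lit 3) (nat_lit 8) (nat_lit 1) (nat_lit 89) (.c (nat_lit 43) (nat_lit 3) (nat_lit 7) (nat_lit 1) (nat_lit 92) (.c (nat_lit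 47) (nat_lit 8) (nat_lit 6) (nat_lit 1) (nat_lit 95) (.c (nat_lit 55) (nat_lit 11) (nat_lit 5) (nat_lit 1) (nat_lit 103) (.c (nat_lit 66) (nat_lit 11) (nat_lit 4) (nat_lit 1) (nat_lit 114) (.c (nat_lit 82) (nat_lit 11) (nat_lit 3) (nat_lit 1) (nat_lit 125) (.c (nat_lit 107) (nat_lit 25) (nat_lit 2) (nat_lit 1) (nat_lit 136) (.c (nat_lit 132) (nat_lit 21) (nat_lit 1) (nat_lit 1) (nat_lit 161) (.c (nat_lit 153) (nat_lit 21) (nat_lit 0) (nat_lit 1) (nat_lit 182) (.c (nat_lit 2512) (nat_lit 0) (nat_lit 93) (nat_lit 5) (nat_lit 203) (.c (nat_lit 2032) (nat_lit 0) (nat_lit 77) (nat_lit 5) (nat_lit 203) .nil)))))))))))))))))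

noncomputable def dC1c_c532 : Cm := .mk (nat_lit 573) (nat_lit 532) (nat_lit 260) (nat_lit 30) (.c (nat_lit 20) (nat_lit 4) (nat_lit 18) (nat_lit 1) (nat_lit 30) (.c (nat_lit 28) (nat_lit 3) (nat_lit 16) (nat_lit 2) (nat_lit 34) (.c (nat_lit 31) (nat_lit 6) (nat_lit 14) (nat_lit 2) (nat_lit 40) (.c (nat_lit 40) (nat_lit 3) (nat_lit 10) (nat_lit 3) (nat_lit 52) (.c (nat_lit 43) (nat_lit 3) (nat_lit 9) (nat_lit 1) (nat_lit 61) (.c (nat_lit 46) (nat_lit 1) (nat_lit 7) (nat_lit 1) (nat_lit 64) (.c (nat_lit 55) (nat_lit 11) (nat_lit 6) (nat_lit 1) (nat_lit 65) (.c (nat_lit 77) (nat_lit 5) (nat_lit 5) (nat_lit 1) (nat_lit 76) (.c (nat_lit 82) (nat_lit 11) (nat_lit 4) (nat_lit 1) (nat_lit 81) (.c (nat_lit 98) (nat_lit 4) (nat_lit 3) (nat_lit 1) (nat_lit 92) (.c (nat_lit 132) (nat_lit 21) (nat_lit 2) (nat_lit 1) (nat_lit 96) (.c (nat_lit 174) (nat_lit 6) (nat_lit 1) (nat_lit 1) (nat_lit 117)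 (.c (nat_lit 180) (nat_lit 16) (nat_lit 0) (nat_lit 1) (nat_lit 123) (.c (nat_lit 2512) (nat_lit 0) (nat_lit 102) (nat_lit 4) (nat_lit 139) .nil))))))))))))))

noncomputable def dC1c_c292 : Cm := .mk (nat_lit 682) (nat_lit 292) (nat_lit 290) (nat_lit 30) (.c (nat_lit 24) (nat_lit 4) (nat_lit 18) (nat_lit 1) (nat_lit 30) (.c (nat_lit 31) (nat_lit 6) (nat_lit 16) (nat_lit 2) (nat_lit 34) (.c (nat_lit 37) (nat_lit 3) (nat_lit 14) (nat_lit 2) (nat_lit 46) (.c (nat_lit 40) (nat_lit 3) (nat_lit 13) (nat_lit 1) (nat_lit 52) (.c (nat_lit 43) (nat_lit 3) (nat_lit 10) (nat_lit 3) (nat_lit 55) (.c (nat_lit 46) (nat_lit 1) (nat_lit 8) (nat_lit 1) (nat_lit 64) (.c (nat_lit 66) (nat_lit 11) (nat_lit 6) (nat_lit 1) (nat_lit 65) (.c (nat_lit 82) (nat_lit 11) (nat_lit 5) (nat_lit 1) (nat_lit 76) (.c (nat_lit 93) (nat_lit 5) (nat_lit 4) (nat_lit 1) (nat_lit 87) (.c (nat_lit 102) (nat_lit 4) (nat_lit 3)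 (nat_lit 1) (nat_lit 92) (.c (nat_lit 153) (nat_lit 21) (nat_lit 2) (nat_lit 1) (nat_lit 96) (.c (nat_lit 180) (nat_lit 16) (nat_lit 1) (nat_lit 1) (nat_lit 117) (.c (nat_lit 196) (nat_lit 6) (nat_lit 0) (nat_lit 1) (nat_lit 133) (.c (nat_lit 2032) (nat_lit 0) (nat_lit 98) (nat_lit 4) (nat_lit 139) .nil))))))))))))))

noncomputable def dC1c_i6 : IL := (.s false (nat_lit 3) (nat_lit 34) (nat_lit 2) (nat_lit 2) (nat_lit 2) true (nat_lit 4) true (nat_lit 8) false (nat_lit 0) true (nat_lit 8) true (nat_lit 8) (.s false (nat_lit 3) (nat_lit 35) (nat_lit 2) (nat_lit 2) (nat_lit 2) true (nat_lit 4) true (nat_lit 8) false (nat_lit 0) true (nat_lit 8) true (nat_lit 8) (.s true (nat_lit 3) (nat_lit 36) (nat_lit 2) (nat_lit 2) (nat_lit 2) true (nat_lit 4) true (nat_lit 8) false (nat_lit 0) true (nat_lit 8) true (nat_lit 8) (.e true (nat_lit 1) (nat_lit 82) (nat_lit 6) (nat_lit 4) (.e false (nat_lit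 3) (nat_lit 83) (nat_lit 6) (nat_lit 4) (.e true (nat_lit 3) (nat_lit 91) (nat_lit 6) (nat_lit 4) (.e false (nat_lit 1) (nat_lit 31) (nat_lit 18) (nat_lit 0) (.e true (nat_lit 3) (nat_lit 32) (nat_lit 18) (nat_lit 0) (.e false (nat_lit 1) (nat_lit 180) (nat_lit 2) (nat_lit 8) (.e false (nat_lit 2) (nat_lit 183) (nat_lit 2) (nat_lit 8) (.e true (nat_lit 1) (nat_lit 184) (nat_lit 2) (nat_lit 8) (.e true (nat_lit 3) (nat_lit 186) (nat_lit 2) (nat_lit 8) (.e true (nat_lit 2) (nat_lit 187) (nat_lit 2) (nat_lit 8) (.e true (nat_lit 2) (nat_lit 189) (nat_lit 2) (nat_lit 8) (.e false (nat_lit 3) (nat_lit 190) (nat_lit 2) (nat_lit 8) (.e false (nat_lit 1) (nat_lit 191) (nat_lit 2) (nat_lit 8) (.e true (nat_lit 3) (nat_lit 193) (nat_lit 2) (nat_lit 8) (.e true (nat_lit 1) (nat_lit 195) (nat_lit 2) (nat_lit 8) (.e true (nat_lit 2) (nat_lit 182) (nat_lit 2) (nat_lit 8) (.e true (nat_lit 3) (nat_lit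 185) (nat_lit 2) (nat_lit 8) (.e true (nat_lit 3) (nat_lit 194) (nat_lit 2) (nat_lit 8) (.e false (nat_lit 3) (nat_lit 33) (nat_lit 18) (nat_lit 0) (.e false (nat_lit 3) (nat_lit 84) (nat_lit 6) (nat_lit 4) (.e false (nat_lit 3) (nat_lit 90) (nat_lit 6) (nat_lit 4) (.u (nat_lit 2) (.n (nat_lit 2) (nat_lit 1) (.p (nat_lit 3) (nat_lit 1) (.n (nat_lit 5) (nat_lit 1) (.p (nat_lit 8) (nat_lit 1) (.n (nat_lit 9) (nat_lit 1) (.p (nat_lit 10) (nat_lit 1) (.n (nat_lit 12) (nat_lit 1) (.n (nat_lit 13) (nat_lit 1) (.p (nat_lit 18) (nat_lit 1) (.n (nat_lit 19) (nat_lit 1) (.p (nat_lit 40) (nat_lit 1) (.n (nat_lit 43) (nat_lit 1) (.p (nat_lit 45) (nat_lit 2) (.n (nat_lit 46) (nat_lit 1) (.p (nat_lit 47) (nat_lit 1) (.p (nat_lit 49) (nat_lit 1) (.n (nat_lit 50) (nat_lit 1) (.p (nat_lit 52) (nat_lit 1) (.p (nat_lit 53) (nat_lit 1) (.n (nat_lit 56) (nat_lit 1) (.n (nat_lit 57) (nat_lit 1) (.n (nat_lit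 60) (nat_lit 1) (.n (nat_lit 61) (nat_lit 2) (.n (nat_lit 63) (nat_lit 2) (.p (nat_lit 64) (nat_lit 1) (.n (nat_lit 65) (nat_lit 1) (.p (nat_lit 66) (nat_lit 1) (.n (nat_lit 68) (nat_lit 2) (.n (nat_lit 69) (nat_lit 1) (.n (nat_lit 70) (nat_lit 2) (.p (nat_lit 71) (nat_lit 1) (.p (nat_lit 73) (nat_lit 2) (.p (nat_lit 75) (nat_lit 1) .z))))))))))))))))))))))))))))))))) .nil)))))))))))))))))))))))))

noncomputable def dC1c_c277 : Cm := .mk (nat_lit 821) (nat_lit 277) (nat_lit 328) (nat_lit 19) (.c (nat_lit 31) (nat_lit 6) (nat_lit 18) (nat_lit 1) (nat_lit 19) (.c (nat_lit 40) (nat_lit 3) (nat_lit 16) (nat_lit 2) (nat_lit 25) (.c (nat_lit 43) (nat_lit 3) (nat_lit 14) (nat_lit 2) (nat_lit 31) (.c (nat_lit 46) (nat_lit 1) (nat_lit 10) (nat_lit 3) (nat_lit 37) (.c (nat_lit 82) (nat_lit 11) (nat_lit 6) (nat_lit 1) (nat_lit 40) (.c (nat_lit 98) (nat_lit 4) (nat_lit 5) (nat_lit 1) (nat_lit 51)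 (.c (nat_lit 102) (nat_lit 4) (nat_lit 4) (nat_lit 1) (nat_lit 55) (.c (nat_lit 106) (nat_lit 1) (nat_lit 3) (nat_lit 1) (nat_lit 59) (.c (nat_lit 180) (nat_lit 16) (nat_lit 2) (nat_lit 1) (nat_lit 60) (.c (nat_lit 202) (nat_lit 5) (nat_lit 1) (nat_lit 1) (nat_lit 76) (.c (nat_lit 207) (nat_lit 5) (nat_lit 0) (nat_lit 1) (nat_lit 81) .nil)))))))))))

noncomputable def dC1c_i7 : IL := (.e true (nat_lit 3) (nat_lit 220) (nat_lit 2) (nat_lit 17) (.e false (nat_lit 3) (nat_lit 222) (nat_lit 2) (nat_lit 17) (.e true (nat_lit 2) (nat_lit 224) (nat_lit 2) (nat_lit 17) (.e false (nat_lit 2) (nat_lit 226) (nat_lit 2) (nat_lit 17) (.e false (nat_lit 1) (nat_lit 227) (nat_lit 2) (nat_lit 17) (.e true (nat_lit 2) (nat_lit 229) (nat_lit 2) (nat_lit 17) (.e true (nat_lit 1) (nat_lit 57) (nat_lit 16) (nat_lit 6) (.e true (nat_lit 1) (nat_lit 82) (nat_lit 10) (nat_lit 9) (.e true (nat_lit 1) (nat_lit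 83) (nat_lit 10) (nat_lit 9) (.e true (nat_lit 1) (nat_lit 85) (nat_lit 10) (nat_lit 9) (.e false (nat_lit 1) (nat_lit 86) (nat_lit 10) (nat_lit 9) (.e true (nat_lit 1) (nat_lit 88) (nat_lit 10) (nat_lit 9) (.e false (nat_lit 1) (nat_lit 91) (nat_lit 10) (nat_lit 9) (.e false (nat_lit 2) (nat_lit 290) (nat_lit 0) (nat_lit 19) (.e true (nat_lit 1) (nat_lit 292) (nat_lit 0) (nat_lit 19) (.e false (nat_lit 1) (nat_lit 293) (nat_lit 0) (nat_lit 19) (.e true (nat_lit 2) (nat_lit 294) (nat_lit 0) (nat_lit 19) (.e true (nat_lit 1) (nat_lit 298) (nat_lit 0) (nat_lit 19) (.e false (nat_lit 3) (nat_lit 299) (nat_lit 0) (nat_lit 19) (.e true (nat_lit 1) (nat_lit 301) (nat_lit 0) (nat_lit 19) (.e false (nat_lit 3) (nat_lit 304) (nat_lit 0) (nat_lit 19) (.e true (nat_lit 1) (nat_lit 307) (nat_lit 0) (nat_lit 19) (.e false (nat_lit 1) (nat_lit 310) (nat_lit 0) (nat_lit 19) (.e false (nat_lit 1) (nat_lit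 319) (nat_lit 0) (nat_lit 19) (.u (nat_lit 2) (.p (nat_lit 0) (nat_lit 1) (.n (nat_lit 1) (nat_lit 1) (.n (nat_lit 4) (nat_lit 1) (.n (nat_lit 5) (nat_lit 1) (.p (nat_lit 7) (nat_lit 1) (.n (nat_lit 8) (nat_lit 2) (.p (nat_lit 9) (nat_lit 3) (.p (nat_lit 10) (nat_lit 1) (.n (nat_lit 12) (nat_lit 2) (.p (nat_lit 13) (nat_lit 1) (.n (nat_lit 14) (nat_lit 1) (.n (nat_lit 15) (nat_lit 1) (.n (nat_lit 19) (nat_lit 1) (.p (nat_lit 20) (nat_lit 2) (.n (nat_lit 26) (nat_lit 3) (.p (nat_lit 27) (nat_lit 2) (.n (nat_lit 28) (nat_lit 1) (.p (nat_lit 30) (nat_lit 1) (.n (nat_lit 32) (nat_lit 1) (.n (nat_lit 34) (nat_lit 4) (.p (nat_lit 35) (nat_lit 1) (.p (nat_lit 36) (nat_lit 2) (.p (nat_lit 38) (nat_lit 5) (.p (nat_lit 39) (nat_lit 1) (.p (nat_lit 40) (nat_lit 1) (.p (nat_lit 41) (nat_lit 2) (.p (nat_lit 45) (nat_lit 1) (.n (nat_lit 49) (nat_lit 3) (.n (nat_lit 50) (nat_lit 1) (.n (nat_lit 53)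 (nat_lit 1) (.n (nat_lit 54) (nat_lit 1) (.p (nat_lit 55) (nat_lit 2) (.p (nat_lit 57) (nat_lit 1) (.n (nat_lit 58) (nat_lit 1) (.p (nat_lit 59) (nat_lit 1) (.n (nat_lit 69) (nat_lit 1) (.p (nat_lit 70) (nat_lit 1) (.p (nat_lit 338) (nat_lit 1) .z)))))))))))))))))))))))))))))))))))))) .nil)))))))))))))))))))))))))

noncomputable def dC1c_i8 : IL := (.e false (nat_lit 1) (nat_lit 270) (nat_lit 1) (nat_lit 18) (.e true (nat_lit 3) (nat_lit 271) (nat_lit 1) (nat_lit 18) (.e false (nat_lit 1) (nat_lit 275) (nat_lit 1) (nat_lit 18) (.e true (nat_lit 1) (nat_lit 276) (nat_lit 1) (nat_lit 18) (.e false (nat_lit 3) (nat_lit 279) (nat_lit 1) (nat_lit 18) (.e false (nat_lit 3) (nat_lit 282) (nat_lit 1) (nat_lit 18) (.e true (nat_lit 1) (nat_lit 283) (nat_lit 1) (nat_lit 18) (.e false (nat_lit 1) (nat_lit 285) (nat_lit 1) (nat_lit 18) (.e false (nat_lit 3) (nat_lit 232) (nat_lit 2) (nat_lit 17)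 (.e true (nat_lit 1) (nat_lit 234) (nat_lit 2) (nat_lit 17) (.e false (nat_lit 1) (nat_lit 236) (nat_lit 2) (nat_lit 17) (.e true (nat_lit 3) (nat_lit 238) (nat_lit 2) (nat_lit 17) (.e false (nat_lit 3) (nat_lit 239) (nat_lit 2) (nat_lit 17) (.e false (nat_lit 1) (nat_lit 240) (nat_lit 2) (nat_lit 17) (.e true (nat_lit 2) (nat_lit 241) (nat_lit 2) (nat_lit 17) (.e true (nat_lit 3) (nat_lit 242) (nat_lit 2) (nat_lit 17) (.e false (nat_lit 1) (nat_lit 244) (nat_lit 2) (nat_lit 17) (.e true (nat_lit 1) (nat_lit 245) (nat_lit 2) (nat_lit 17) (.e true (nat_lit 2) (nat_lit 246) (nat_lit 2) (nat_lit 17) (.e false (nat_lit 2) (nat_lit 247) (nat_lit 2) (nat_lit 17) (.e false (nat_lit 3) (nat_lit 243) (nat_lit 2) (nat_lit 17) (.e true (nat_lit 2) (nat_lit 235) (nat_lit 2) (nat_lit 17) (.e true (nat_lit 3) (nat_lit 248) (nat_lit 2) (nat_lit 17) (.u (nat_lit 2) (.n (nat_lit 0) (nat_lit 7) (.n (nat_lit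 1) (nat_lit 2) (.p (nat_lit 2) (nat_lit 2) (.p (nat_lit 3) (nat_lit 2) (.n (nat_lit 4) (nat_lit 3) (.n (nat_lit 5) (nat_lit 2) (.p (nat_lit 6) (nat_lit 7) (.n (nat_lit 7) (nat_lit 3) (.p (nat_lit 8) (nat_lit 2) (.n (nat_lit 9) (nat_lit 1) (.p (nat_lit 10) (nat_lit 3) (.n (nat_lit 11) (nat_lit 4) (.n (nat_lit 12) (nat_lit 2) (.n (nat_lit 13) (nat_lit 2) (.p (nat_lit 14) (nat_lit 8) (.n (nat_lit 15) (nat_lit 3) (.n (nat_lit 16) (nat_lit 1) (.n (nat_lit 19) (nat_lit 7) (.p (nat_lit 20) (nat_lit 1) (.p (nat_lit 21) (nat_lit 2) (.n (nat_lit 23) (nat_lit 1) (.p (nat_lit 24) (nat_lit 1) (.p (nat_lit 25) (nat_lit 1) (.n (nat_lit 26) (nat_lit 2) (.p (nat_lit 27) (nat_lit 1) (.n (nat_lit 30) (nat_lit 8) (.p (nat_lit 31) (nat_lit 1) (.n (nat_lit 33) (nat_lit 2) (.p (nat_lit 34) (nat_lit 4) (.p (nat_lit 35) (nat_lit 2) (.n (nat_lit 36) (nat_lit 4) (.p (nat_lit 37) (nat_lit 3) (.p (nat_lit 39) (nat_lit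 4) (.p (nat_lit 41) (nat_lit 10) (.n (nat_lit 45) (nat_lit 1) (.n (nat_lit 46) (nat_lit 3) (.p (nat_lit 48) (nat_lit 3) (.n (nat_lit 49) (nat_lit 1) (.p (nat_lit 50) (nat_lit 5) (.n (nat_lit 51) (nat_lit 4) (.p (nat_lit 53) (nat_lit 3) (.p (nat_lit 54) (nat_lit 4) (.n (nat_lit 55) (nat_lit 2) (.n (nat_lit 56) (nat_lit 2) (.p (nat_lit 57) (nat_lit 3) (.n (nat_lit 58) (nat_lit 3) (.p (nat_lit 59) (nat_lit 1) (.n (nat_lit 60) (nat_lit 1) (.p (nat_lit 61) (nat_lit 1) (.n (nat_lit 63) (nat_lit 1) (.p (nat_lit 64) (nat_lit 1) (.p (nat_lit 67) (nat_lit 1) (.n (nat_lit 69) (nat_lit 2) (.p (nat_lit 70) (nat_lit 2) (.p (nat_lit 149) (nat_lit 1) (.n (nat_lit 150) (nat_lit 1) (.p (nat_lit 151) (nat_lit 2) (.p (nat_lit 152) (nat_lit 1) (.p (nat_lit 159) (nat_lit 2) (.p (nat_lit 164) (nat_lit 3) .z)))))))))))))))))))))))))))))))))))))))))))))))))))))))))))) (.u (nat_lit 2) (.p (nat_lit 165) (nat_lit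 3) (.n (nat_lit 169) (nat_lit 3) (.p (nat_lit 327) (nat_lit 1) (.p (nat_lit 331) (nat_lit 1) (.p (nat_lit 332) (nat_lit 1) (.n (nat_lit 333) (nat_lit 1) (.p (nat_lit 334) (nat_lit 1) (.n (nat_lit 336) (nat_lit 3) (.n (nat_lit 339) (nat_lit 1) (.n (nat_lit 342) (nat_lit 2) (.p (nat_lit 344) (nat_lit 1) (.p (nat_lit 346) (nat_lit 1) (.n (nat_lit 347) (nat_lit 1) (.n (nat_lit 348) (nat_lit 1) (.n (nat_lit 349) (nat_lit 1) (.p (nat_lit 352) (nat_lit 1) (.n (nat_lit 353) (nat_lit 2) (.p (nat_lit 354) (nat_lit 3) (.n (nat_lit 356) (nat_lit 3) (.n (nat_lit 358) (nat_lit 1) (.p (nat_lit 360) (nat_lit 1) (.n (nat_lit 375) (nat_lit 3) (.p (nat_lit 376) (nat_lit 1) (.p (nat_lit 377) (nat_lit 3) (.p (nat_lit 379) (nat_lit 1) (.p (nat_lit 380) (nat_lit 3) (.p (nat_lit 381) (nat_lit 1) (.n (nat_lit 382) (nat_lit 2) (.p (nat_lit 387) (nat_lit 1) (.n (nat_lit 388) (nat_lit 1) (.p (nat_lit 389) (nat_lit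 1) (.n (nat_lit 392) (nat_lit 4) (.n (nat_lit 393) (nat_lit 2) (.p (nat_lit 395) (nat_lit 2) (.p (nat_lit 401) (nat_lit 1) (.n (nat_lit 402) (nat_lit 2) (.n (nat_lit 405) (nat_lit 1) (.n (nat_lit 406) (nat_lit 6) (.n (nat_lit 407) (nat_lit 1) (.p (nat_lit 408) (nat_lit 1) (.n (nat_lit 409) (nat_lit 3) (.p (nat_lit 410) (nat_lit 2) (.p (nat_lit 411) (nat_lit 2) (.n (nat_lit 412) (nat_lit 1) (.p (nat_lit 414) (nat_lit 1) (.n (nat_lit 415) (nat_lit 1) (.p (nat_lit 416) (nat_lit 1) (.n (nat_lit 419) (nat_lit 1) (.p (nat_lit 420) (nat_lit 3) (.p (nat_lit 422) (nat_lit 1) (.p (nat_lit 423) (nat_lit 5) (.n (nat_lit 425) (nat_lit 2) (.p (nat_lit 426) (nat_lit 2) (.n (nat_lit 428) (nat_lit 1) (.n (nat_lit 431) (nat_lit 2) (.p (nat_lit 432) (nat_lit 1) (.n (nat_lit 433) (nat_lit 1) .z))))))))))))))))))))))))))))))))))))))))))))))))))))))))) .nil)))))))))))))))))))))))))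

noncomputable def dC1c_i9 : IL := (.e false (nat_lit 1) (nat_lit 317) (nat_lit 0) (nat_lit 19) (.e false (nat_lit 3) (nat_lit 318) (nat_lit 0) (nat_lit 19) (.e true (nat_lit 1) (nat_lit 217) (nat_lit 2) (nat_lit 17) (.e false (nat_lit 1) (nat_lit 222) (nat_lit 2) (nat_lit 17) (.e false (nat_lit 3) (nat_lit 224) (nat_lit 2) (nat_lit 17) (.e true (nat_lit 1) (nat_lit 230) (nat_lit 2) (nat_lit 17) (.e false (nat_lit 1) (nat_lit 290) (nat_lit 0) (nat_lit 19) (.e true (nat_lit 1) (nat_lit 298) (nat_lit 0) (nat_lit 19) (.e true (nat_lit 2) (nat_lit 311) (nat_lit 0) (nat_lit 19) (.e false (nat_lit 2) (nat_lit 313) (nat_lit 0) (nat_lit 19) (.e false (nat_lit 3) (nat_lit 56) (nat_lit 17) (nat_lit 6) (.e true (nat_lit 1) (nat_lit 102) (nat_lit 7) (nat_lit 12) (.e true (nat_lit 1) (nat_lit 212) (nat_lit 2) (nat_lit 17) (.e false (nat_lit 2) (nat_lit 215) (nat_lit 2) (nat_lit 17) (.e false (nat_lit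 3) (nat_lit 220) (nat_lit 2) (nat_lit 17) (.e true (nat_lit 2) (nat_lit 221) (nat_lit 2) (nat_lit 17) (.e true (nat_lit 3) (nat_lit 223) (nat_lit 2) (nat_lit 17) (.e false (nat_lit 1) (nat_lit 229) (nat_lit 2) (nat_lit 17) (.e false (nat_lit 2) (nat_lit 216) (nat_lit 2) (nat_lit 17) (.e true (nat_lit 2) (nat_lit 226) (nat_lit 2) (nat_lit 17) (.e true (nat_lit 1) (nat_lit 227) (nat_lit 2) (nat_lit 17) (.e true (nat_lit 3) (nat_lit 231) (nat_lit 2) (nat_lit 17) (.e false (nat_lit 1) (nat_lit 303) (nat_lit 0) (nat_lit 19) (.e true (nat_lit 1) (nat_lit 306) (nat_lit 0) (nat_lit 19) (.e false (nat_lit 3) (nat_lit 309) (nat_lit 0) (nat_lit 19) dC1c_i8)))))))))))))))))))))))))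

noncomputable def dC1c_i10 : IL := (.e false (nat_lit 3) (nat_lit 116) (nat_lit 6) (nat_lit 13) (.e true (nat_lit 3) (nat_lit 119) (nat_lit 6) (nat_lit 13) (.e false (nat_lit 3) (nat_lit 130) (nat_lit 6) (nat_lit 13) (.e true (nat_lit 3) (nat_lit 150) (nat_lit 5) (nat_lit 14) (.e true (nat_lit 1) (nat_lit 43) (nat_lit 20) (nat_lit 3) (.e false (nat_lit 3) (nat_lit 59) (nat_lit 16) (nat_lit 6) (.e true (nat_lit 3) (nat_lit 60) (nat_lit 16) (nat_lit 6) (.e false (nat_lit 1) (nat_lit 62) (nat_lit 16) (nat_lit 6) (.e false (nat_lit 3) (nat_lit 64) (nat_lit 16) (nat_lit 6) (.e true (nat_lit 2) (nat_lit 291) (nat_lit 0) (nat_lit 19) (.e false (nat_lit 1) (nat_lit 292) (nat_lit 0) (nat_lit 19) (.e true (nat_lit 1) (nat_lit 293) (nat_lit 0) (nat_lit 19) (.e false (nat_lit 3) (nat_lit 294) (nat_lit 0) (nat_lit 19) (.e true (nat_lit 3) (nat_lit 295) (nat_lit 0) (nat_lit 19) (.e false (nat_lit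 1) (nat_lit 296) (nat_lit 0) (nat_lit 19) (.e false (nat_lit 3) (nat_lit 297) (nat_lit 0) (nat_lit 19) (.e false (nat_lit 3) (nat_lit 299) (nat_lit 0) (nat_lit 19) (.e false (nat_lit 2) (nat_lit 300) (nat_lit 0) (nat_lit 19) (.e false (nat_lit 2) (nat_lit 302) (nat_lit 0) (nat_lit 19) (.e false (nat_lit 2) (nat_lit 304) (nat_lit 0) (nat_lit 19) (.e true (nat_lit 2) (nat_lit 305) (nat_lit 0) (nat_lit 19) (.e true (nat_lit 1) (nat_lit 307) (nat_lit 0) (nat_lit 19) (.e true (nat_lit 2) (nat_lit 308) (nat_lit 0) (nat_lit 19) (.e false (nat_lit 2) (nat_lit 310) (nat_lit 0) (nat_lit 19) (.e false (nat_lit 2) (nat_lit 316) (nat_lit 0) (nat_lit 19) dC1c_i9)))))))))))))))))))))))))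

noncomputable def dC1c_i11 : IL := (.e true (nat_lit 3) (nat_lit 59) (nat_lit 17) (nat_lit 6) (.e true (nat_lit 3) (nat_lit 60) (nat_lit 17) (nat_lit 6) (.e false (nat_lit 3) (nat_lit 64) (nat_lit 17) (nat_lit 6) (.e true (nat_lit 3) (nat_lit 65) (nat_lit 17) (nat_lit 6) (.e false (nat_lit 2) (nat_lit 260) (nat_lit 1) (nat_lit 18) (.e true (nat_lit 1) (nat_lit 261) (nat_lit 1) (nat_lit 18) (.e false (nat_lit 2) (nat_lit 262) (nat_lit 1) (nat_lit 18) (.e false (nat_lit 1) (nat_lit 264) (nat_lit 1) (nat_lit 18) (.e true (nat_lit 3) (nat_lit 265) (nat_lit 1) (nat_lit 18) (.e true (nat_lit 1) (nat_lit 266) (nat_lit 1) (nat_lit 18) (.e false (nat_lit 2) (nat_lit 267) (nat_lit 1) (nat_lit 18) (.e true (nat_lit 3) (nat_lit 269) (nat_lit 1) (nat_lit 18) (.e false (nat_lit 3) (nat_lit 272) (nat_lit 1) (nat_lit 18) (.e false (nat_lit 3) (nat_lit 273) (nat_lit 1) (nat_lit 18) (.e true (nat_lit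 3) (nat_lit 274) (nat_lit 1) (nat_lit 18) (.e false (nat_lit 3) (nat_lit 277) (nat_lit 1) (nat_lit 18) (.e true (nat_lit 2) (nat_lit 278) (nat_lit 1) (nat_lit 18) (.e true (nat_lit 2) (nat_lit 280) (nat_lit 1) (nat_lit 18) (.e false (nat_lit 3) (nat_lit 286) (nat_lit 1) (nat_lit 18) (.e false (nat_lit 1) (nat_lit 287) (nat_lit 1) (nat_lit 18) (.e false (nat_lit 3) (nat_lit 288) (nat_lit 1) (nat_lit 18) (.e true (nat_lit 3) (nat_lit 263) (nat_lit 1) (nat_lit 18) (.e false (nat_lit 3) (nat_lit 281) (nat_lit 1) (nat_lit 18) (.e false (nat_lit 3) (nat_lit 93) (nat_lit 9) (nat_lit 10) (.e false (nat_lit 3) (nat_lit 94) (nat_lit 9) (nat_lit 10) dC1c_i10)))))))))))))))))))))))))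

noncomputable def dC1c_i12 : IL := (.e true (nat_lit 2) (nat_lit 215) (nat_lit 2) (nat_lit 17) (.e false (nat_lit 3) (nat_lit 216) (nat_lit 2) (nat_lit 17) (.e false (nat_lit 2) (nat_lit 217) (nat_lit 2) (nat_lit 17) (.e true (nat_lit 3) (nat_lit 218) (nat_lit 2) (nat_lit 17) (.e false (nat_lit 3) (nat_lit 219) (nat_lit 2) (nat_lit 17) (.e true (nat_lit 1) (nat_lit 220) (nat_lit 2) (nat_lit 17) (.e true (nat_lit 2) (nat_lit 221) (nat_lit 2) (nat_lit 17) (.e true (nat_lit 3) (nat_lit 222) (nat_lit 2) (nat_lit 17) (.e true (nat_lit 2) (nat_lit 224) (nat_lit 2) (nat_lit 17) (.e false (nat_lit 1) (nat_lit 227) (nat_lit 2) (nat_lit 17) (.e false (nat_lit 3) (nat_lit 229) (nat_lit 2) (nat_lit 17) (.e false (nat_lit 2) (nat_lit 238) (nat_lit 2) (nat_lit 17) (.e true (nat_lit 1) (nat_lit 246) (nat_lit 2) (nat_lit 17) (.e false (nat_lit 1) (nat_lit 247) (nat_lit 2) (nat_lit 17) (.e true (nat_lit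 1) (nat_lit 223) (nat_lit 2) (nat_lit 17) (.e true (nat_lit 3) (nat_lit 231) (nat_lit 2) (nat_lit 17) (.e false (nat_lit 3) (nat_lit 213) (nat_lit 2) (nat_lit 17) (.e true (nat_lit 3) (nat_lit 232) (nat_lit 2) (nat_lit 17) (.e false (nat_lit 3) (nat_lit 243) (nat_lit 2) (nat_lit 17) (.e true (nat_lit 1) (nat_lit 245) (nat_lit 2) (nat_lit 17) (.e true (nat_lit 1) (nat_lit 212) (nat_lit 2) (nat_lit 17) (.e true (nat_lit 2) (nat_lit 244) (nat_lit 2) (nat_lit 17) (.e false (nat_lit 1) (nat_lit 248) (nat_lit 2) (nat_lit 17) (.u (nat_lit 2) (.n (nat_lit 0) (nat_lit 1) (.n (nat_lit 1) (nat_lit 3) (.n (nat_lit 2) (nat_lit 1) (.n (nat_lit 3) (nat_lit 2) (.p (nat_lit 4) (nat_lit 5) (.n (nat_lit 6) (nat_lit 4) (.p (nat_lit 7) (nat_lit 1) (.n (nat_lit 8) (nat_lit 1) (.n (nat_lit 9) (nat_lit 2) (.p (nat_lit 10) (nat_lit 2) (.n (nat_lit 11) (nat_lit 2) (.n (nat_lit 12) (nat_lit 3) (.n (nat_lit 13)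 (nat_lit 2) (.p (nat_lit 14) (nat_lit 2) (.n (nat_lit 15) (nat_lit 3) (.n (nat_lit 18) (nat_lit 6) (.p (nat_lit 19) (nat_lit 3) (.p (nat_lit 26) (nat_lit 1) (.n (nat_lit 27) (nat_lit 5) (.p (nat_lit 28) (nat_lit 1) (.n (nat_lit 29) (nat_lit 2) (.p (nat_lit 30) (nat_lit 2) (.n (nat_lit 31) (nat_lit 1) (.p (nat_lit 32) (nat_lit 2) (.n (nat_lit 33) (nat_lit 1) (.n (nat_lit 34) (nat_lit 1) (.n (nat_lit 35) (nat_lit 5) (.p (nat_lit 36) (nat_lit 1) (.n (nat_lit 37) (nat_lit 3) (.p (nat_lit 39) (nat_lit 3) (.p (nat_lit 40) (nat_lit 1) (.n (nat_lit 41) (nat_lit 3) (.p (nat_lit 49) (nat_lit 4) (.p (nat_lit 50) (nat_lit 3) (.n (nat_lit 51) (nat_lit 1) (.p (nat_lit 52) (nat_lit 1) (.n (nat_lit 53) (nat_lit 2) (.n (nat_lit 54) (nat_lit 1) (.n (nat_lit 55) (nat_lit 4) (.n (nat_lit 56) (nat_lit 1) (.n (nat_lit 57) (nat_lit 2) (.p (nat_lit 58) (nat_lit 2) (.p (nat_lit 60) (nat_lit 1) (.p (nat_lit 61)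 (nat_lit 1) (.n (nat_lit 62) (nat_lit 1) (.p (nat_lit 63) (nat_lit 1) (.n (nat_lit 64) (nat_lit 1) (.n (nat_lit 331) (nat_lit 1) (.n (nat_lit 332) (nat_lit 1) (.p (nat_lit 333) (nat_lit 1) (.n (nat_lit 334) (nat_lit 1) (.p (nat_lit 336) (nat_lit 2) (.p (nat_lit 339) (nat_lit 1) (.p (nat_lit 342) (nat_lit 1) (.n (nat_lit 344) (nat_lit 1) (.p (nat_lit 348) (nat_lit 1) (.n (nat_lit 350) (nat_lit 1) (.n (nat_lit 352) (nat_lit 1) (.p (nat_lit 353) (nat_lit 1) (.n (nat_lit 354) (nat_lit 2) .z)))))))))))))))))))))))))))))))))))))))))))))))))))))))))))) (.u (nat_lit 2) (.p (nat_lit 356) (nat_lit 1) (.p (nat_lit 357) (nat_lit 1) .z)) .nil)))))))))))))))))))))))))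

noncomputable def dC1c_i13 : IL := (.e true (nat_lit 2) (nat_lit 267) (nat_lit 1) (nat_lit 18) (.e true (nat_lit 1) (nat_lit 268) (nat_lit 1) (nat_lit 18) (.e false (nat_lit 2) (nat_lit 269) (nat_lit 1) (nat_lit 18) (.e false (nat_lit 2) (nat_lit 270) (nat_lit 1) (nat_lit 18) (.e false (nat_lit 2) (nat_lit 272) (nat_lit 1) (nat_lit 18) (.e true (nat_lit 3) (nat_lit 273) (nat_lit 1) (nat_lit 18) (.e false (nat_lit 2) (nat_lit 274) (nat_lit 1) (nat_lit 18) (.e false (nat_lit 1) (nat_lit 275) (nat_lit 1) (nat_lit 18) (.e true (nat_lit 1) (nat_lit 276) (nat_lit 1) (nat_lit 18) (.e true (nat_lit 3) (nat_lit 279) (nat_lit 1) (nat_lit 18) (.e false (nat_lit 3) (nat_lit 280) (nat_lit 1) (nat_lit 18) (.e true (nat_lit 1) (nat_lit 281) (nat_lit 1) (nat_lit 18) (.e true (nat_lit 1) (nat_lit 283) (nat_lit 1) (nat_lit 18) (.e false (nat_lit 1) (nat_lit 285) (nat_lit 1) (nat_lit 18) (.e false (nat_lit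 3) (nat_lit 286) (nat_lit 1) (nat_lit 18) (.e false (nat_lit 1) (nat_lit 287) (nat_lit 1) (nat_lit 18) (.e false (nat_lit 2) (nat_lit 288) (nat_lit 1) (nat_lit 18) (.e false (nat_lit 1) (nat_lit 289) (nat_lit 1) (nat_lit 18) (.e false (nat_lit 3) (nat_lit 234) (nat_lit 2) (nat_lit 17) (.e false (nat_lit 3) (nat_lit 235) (nat_lit 2) (nat_lit 17) (.e true (nat_lit 1) (nat_lit 236) (nat_lit 2) (nat_lit 17) (.e true (nat_lit 2) (nat_lit 239) (nat_lit 2) (nat_lit 17) (.e false (nat_lit 3) (nat_lit 240) (nat_lit 2) (nat_lit 17) (.e false (nat_lit 3) (nat_lit 241) (nat_lit 2) (nat_lit 17) (.e true (nat_lit 1) (nat_lit 242) (nat_lit 2) (nat_lit 17) dC1c_i12)))))))))))))))))))))))))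

noncomputable def dC1c_i14 : IL := (.s false (nat_lit 1) (nat_lit 18) (nat_lit 14) (nat_lit 0) (nat_lit 1) true (nat_lit 0) true (nat_lit 14) true (nat_lit 3) true (nat_lit 5) true (nat_lit 15) (.e true (nat_lit 1) (nat_lit 42) (nat_lit 34) (nat_lit 0) (.e false (nat_lit 1) (nat_lit 321) (nat_lit 1) (nat_lit 14) (.e true (nat_lit 2) (nat_lit 322) (nat_lit 1) (nat_lit 14) (.e true (nat_lit 2) (nat_lit 323) (nat_lit 1) (nat_lit 14) (.e true (nat_lit 2) (nat_lit 324) (nat_lit 1) (nat_lit 14) (.e false (nat_lit 3) (nat_lit 325) (nat_lit 1) (nat_lit 14) (.e false (nat_lit 1) (nat_lit 320) (nat_lit 1) (nat_lit 14) (.e false (nat_lit 1) (nat_lit 60) (nat_lit 18) (nat_lit 3) (.e false (nat_lit 1) (nat_lit 83) (nat_lit 14) (nat_lit 5) (.e true (nat_lit 1) (nat_lit 84) (nat_lit 14) (nat_lit 5) (.e false (nat_lit 1) (nat_lit 85) (nat_lit 14) (nat_lit 5) (.e true (nat_lit 1) (nat_lit 90) (nat_lit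 14) (nat_lit 5) (.e false (nat_lit 3) (nat_lit 328) (nat_lit 0) (nat_lit 15) (.e true (nat_lit 3) (nat_lit 329) (nat_lit 0) (nat_lit 15) (.e false (nat_lit 2) (nat_lit 330) (nat_lit 0) (nat_lit 15) (.e false (nat_lit 1) (nat_lit 331) (nat_lit 0) (nat_lit 15) (.e true (nat_lit 3) (nat_lit 332) (nat_lit 0) (nat_lit 15) (.e true (nat_lit 2) (nat_lit 333) (nat_lit 0) (nat_lit 15) (.e true (nat_lit 3) (nat_lit 336) (nat_lit 0) (nat_lit 15) (.e false (nat_lit 1) (nat_lit 337) (nat_lit 0) (nat_lit 15) (.e false (nat_lit 2) (nat_lit 338) (nat_lit 0) (nat_lit 15) (.e false (nat_lit 2) (nat_lit 340) (nat_lit 0) (nat_lit 15) (.e true (nat_lit 1) (nat_lit 345) (nat_lit 0) (nat_lit 15) (.u (nat_lit 2) (.n (nat_lit 0) (nat_lit 1) (.n (nat_lit 3) (nat_lit 1) (.n (nat_lit 5) (nat_lit 1) (.p (nat_lit 6) (nat_lit 2) (.p (nat_lit 7) (nat_lit 2) (.n (nat_lit 9) (nat_lit 2) (.n (nat_lit 13) (nat_lit 1) (.n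 (nat_lit 18) (nat_lit 2) (.p (nat_lit 19) (nat_lit 2) (.n (nat_lit 33) (nat_lit 1) (.n (nat_lit 203) (nat_lit 1) (.p (nat_lit 205) (nat_lit 1) .z)))))))))))) .nil)))))))))))))))))))))))))

noncomputable def dC1c_i15 : IL := (.e false (nat_lit 2) (nat_lit 67) (nat_lit 18) (nat_lit 3) (.e false (nat_lit 1) (nat_lit 68) (nat_lit 18) (nat_lit 3) (.e true (nat_lit 1) (nat_lit 69) (nat_lit 18) (nat_lit 3) (.e false (nat_lit 1) (nat_lit 70) (nat_lit 18) (nat_lit 3) (.e true (nat_lit 2) (nat_lit 72) (nat_lit 18) (nat_lit 3) (.e false (nat_lit 1) (nat_lit 73) (nat_lit 18) (nat_lit 3) (.e true (nat_lit 1) (nat_lit 74) (nat_lit 18) (nat_lit 3) (.e false (nat_lit 1) (nat_lit 75) (nat_lit 18) (nat_lit 3) (.e false (nat_lit 2) (nat_lit 76) (nat_lit 18) (nat_lit 3) (.e false (nat_lit 1) (nat_lit 83) (nat_lit 16) (nat_lit 4) (.e true (nat_lit 1) (nat_lit 84) (nat_lit 16) (nat_lit 4) (.e false (nat_lit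 1) (nat_lit 85) (nat_lit 16) (nat_lit 4) (.e true (nat_lit 1) (nat_lit 90) (nat_lit 16) (nat_lit 4) (.e true (nat_lit 3) (nat_lit 328) (nat_lit 1) (nat_lit 14) (.e false (nat_lit 2) (nat_lit 329) (nat_lit 1) (nat_lit 14) (.e true (nat_lit 1) (nat_lit 330) (nat_lit 1) (nat_lit 14) (.e true (nat_lit 2) (nat_lit 331) (nat_lit 1) (nat_lit 14) (.e false (nat_lit 3) (nat_lit 332) (nat_lit 1) (nat_lit 14) (.e false (nat_lit 3) (nat_lit 333) (nat_lit 1) (nat_lit 14) (.e true (nat_lit 3) (nat_lit 336) (nat_lit 1) (nat_lit 14) (.e true (nat_lit 2) (nat_lit 337) (nat_lit 1) (nat_lit 14) (.e true (nat_lit 1) (nat_lit 338) (nat_lit 1) (nat_lit 14) (.e true (nat_lit 2) (nat_lit 341) (nat_lit 1) (nat_lit 14) (.e false (nat_lit 1) (nat_lit 346) (nat_lit 1) (nat_lit 14) (.u (nat_lit 2) (.p (nat_lit 0) (nat_lit 1) (.n (nat_lit 2) (nat_lit 3) (.p (nat_lit 3) (nat_lit 1) (.p (nat_lit 4) (nat_lit 3) (.n (nat_lit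 5) (nat_lit 3) (.n (nat_lit 7) (nat_lit 1) (.n (nat_lit 8) (nat_lit 1) (.p (nat_lit 9) (nat_lit 2) (.p (nat_lit 11) (nat_lit 2) (.p (nat_lit 12) (nat_lit 1) (.p (nat_lit 13) (nat_lit 4) (.p (nat_lit 14) (nat_lit 4) (.n (nat_lit 15) (nat_lit 1) (.n (nat_lit 16) (nat_lit 2) (.n (nat_lit 17) (nat_lit 4) (.n (nat_lit 29) (nat_lit 1) (.p (nat_lit 222) (nat_lit 1) (.n (nat_lit 224) (nat_lit 1) .z)))))))))))))))))) .nil)))))))))))))))))))))))))

noncomputable def dC1c_i16 : IL := (.e true (nat_lit 1) (nat_lit 167) (nat_lit 0) (nat_lit 14) (.e true (nat_lit 3) (nat_lit 168) (nat_lit 0) (nat_lit 14) (.e true (nat_lit 1) (nat_lit 169) (nat_lit 0) (nat_lit 14) (.e false (nat_lit 1) (nat_lit 170) (nat_lit 0) (nat_lit 14) (.e true (nat_lit 1) (nat_lit 171) (nat_lit 0) (nat_lit 14) (.e false (nat_lit 1) (nat_lit 172) (nat_lit 0) (nat_lit 14) (.e true (nat_lit 1) (nat_lit 173) (nat_lit 0) (nat_lit 14)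 (.e true (nat_lit 3) (nat_lit 133) (nat_lit 1) (nat_lit 13) (.e true (nat_lit 3) (nat_lit 134) (nat_lit 1) (nat_lit 13) (.e false (nat_lit 2) (nat_lit 135) (nat_lit 1) (nat_lit 13) (.e true (nat_lit 1) (nat_lit 137) (nat_lit 1) (nat_lit 13) (.e false (nat_lit 1) (nat_lit 138) (nat_lit 1) (nat_lit 13) (.e false (nat_lit 2) (nat_lit 139) (nat_lit 1) (nat_lit 13) (.e false (nat_lit 3) (nat_lit 140) (nat_lit 1) (nat_lit 13) (.e true (nat_lit 3) (nat_lit 141) (nat_lit 1) (nat_lit 13) (.e true (nat_lit 2) (nat_lit 142) (nat_lit 1) (nat_lit 13) (.e false (nat_lit 1) (nat_lit 143) (nat_lit 1) (nat_lit 13) (.e false (nat_lit 2) (nat_lit 144) (nat_lit 1) (nat_lit 13) (.e true (nat_lit 3) (nat_lit 145) (nat_lit 1) (nat_lit 13) (.e true (nat_lit 1) (nat_lit 147) (nat_lit 1) (nat_lit 13) (.e false (nat_lit 2) (nat_lit 149) (nat_lit 1) (nat_lit 13) (.e true (nat_lit 1) (nat_lit 150) (nat_lit 1) (nat_lit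 13) (.e false (nat_lit 2) (nat_lit 151) (nat_lit 1) (nat_lit 13) (.e false (nat_lit 2) (nat_lit 152) (nat_lit 1) (nat_lit 13) (.u (nat_lit 2) (.n (nat_lit 0) (nat_lit 2) (.n (nat_lit 1) (nat_lit 2) (.n (nat_lit 2) (nat_lit 1) (.p (nat_lit 6) (nat_lit 1) (.n (nat_lit 7) (nat_lit 1) (.n (nat_lit 8) (nat_lit 2) (.p (nat_lit 9) (nat_lit 1) (.p (nat_lit 10) (nat_lit 2) (.p (nat_lit 11) (nat_lit 1) (.n (nat_lit 20) (nat_lit 1) (.n (nat_lit 21) (nat_lit 1) (.n (nat_lit 23) (nat_lit 1) (.n (nat_lit 24) (nat_lit 1) (.n (nat_lit 25) (nat_lit 2) (.n (nat_lit 28) (nat_lit 1) (.n (nat_lit 30) (nat_lit 1) .z)))))))))))))))) .nil)))))))))))))))))))))))))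

noncomputable def dC1c_i17 : IL := (.e true (nat_lit 1) (nat_lit 145) (nat_lit 2) (nat_lit 10) (.e true (nat_lit 1) (nat_lit 146) (nat_lit 2) (nat_lit 10) (.e false (nat_lit 1) (nat_lit 148) (nat_lit 2) (nat_lit 10) (.e false (nat_lit 3) (nat_lit 149) (nat_lit 2) (nat_lit 10) (.e false (nat_lit 1) (nat_lit 55) (nat_lit 6) (nat_lit 6) (.e false (nat_lit 2) (nat_lit 56) (nat_lit 6) (nat_lit 6) (.e true (nat_lit 3) (nat_lit 57) (nat_lit 6) (nat_lit 6) (.e false (nat_lit 1) (nat_lit 32) (nat_lit 14) (nat_lit 2) (.e true (nat_lit 1) (nat_lit 62) (nat_lit 6) (nat_lit 6) (.e false (nat_lit 1) (nat_lit 65) (nat_lit 6) (nat_lit 6) (.e true (nat_lit 1) (nat_lit 147) (nat_lit 2) (nat_lit 10) (.e false (nat_lit 2) (nat_lit 151) (nat_lit 2) (nat_lit 10) (.e false (nat_lit 1) (nat_lit 31) (nat_lit 14) (nat_lit 2) (.e true (nat_lit 2) (nat_lit 180) (nat_lit 0) (nat_lit 12) (.e true (nat_lit 2) (nat_lit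 183) (nat_lit 0) (nat_lit 12) (.e false (nat_lit 3) (nat_lit 184) (nat_lit 0) (nat_lit 12) (.e false (nat_lit 3) (nat_lit 186) (nat_lit 0) (nat_lit 12) (.e false (nat_lit 3) (nat_lit 187) (nat_lit 0) (nat_lit 12) (.e false (nat_lit 2) (nat_lit 189) (nat_lit 0) (nat_lit 12) (.e true (nat_lit 3) (nat_lit 190) (nat_lit 0) (nat_lit 12) (.e true (nat_lit 1) (nat_lit 40) (nat_lit 10) (nat_lit 3) (.e true (nat_lit 2) (nat_lit 195) (nat_lit 0) (nat_lit 12) (.e true (nat_lit 1) (nat_lit 182) (nat_lit 0) (nat_lit 12) (.e true (nat_lit 1) (nat_lit 188) (nat_lit 0) (nat_lit 12) (.u (nat_lit 2) (.p (nat_lit 0) (nat_lit 2) (.p (nat_lit 1) (nat_lit 1) (.n (nat_lit 2) (nat_lit 1) (.n (nat_lit 3) (nat_lit 1) (.n (nat_lit 5) (nat_lit 2) (.n (nat_lit 6) (nat_lit 3) (.p (nat_lit 7) (nat_lit 2) (.p (nat_lit 9) (nat_lit 3) (.n (nat_lit 10) (nat_lit 1) (.n (nat_lit 11) (nat_lit 5) (.p (nat_lit 12) (nat_lit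 2) (.p (nat_lit 17) (nat_lit 2) (.p (nat_lit 18) (nat_lit 3) (.n (nat_lit 19) (nat_lit 3) (.p (nat_lit 20) (nat_lit 2) (.p (nat_lit 22) (nat_lit 2) (.p (nat_lit 25) (nat_lit 1) (.n (nat_lit 26) (nat_lit 1) (.p (nat_lit 27) (nat_lit 1) (.p (nat_lit 28) (nat_lit 1) (.n (nat_lit 29) (nat_lit 2) (.p (nat_lit 96) (nat_lit 1) (.n (nat_lit 97) (nat_lit 1) (.p (nat_lit 98) (nat_lit 1) (.p (nat_lit 101) (nat_lit 2) (.p (nat_lit 102) (nat_lit 2) (.p (nat_lit 103) (nat_lit 1) (.p (nat_lit 104) (nat_lit 1) (.n (nat_lit 105) (nat_lit 2) (.n (nat_lit 107) (nat_lit 1) (.p (nat_lit 108) (nat_lit 1) (.n (nat_lit 114) (nat_lit 1) (.p (nat_lit 116) (nat_lit 1) (.p (nat_lit 118) (nat_lit 1) (.p (nat_lit 119) (nat_lit 1) (.n (nat_lit 120) (nat_lit 1) (.p (nat_lit 122) (nat_lit 1) (.p (nat_lit 123) (nat_lit 1) (.n (nat_lit 127) (nat_lit 1) (.p (nat_lit 133) (nat_lit 1) .z))))))))))))))))))))))))))))))))))))))))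 .nil)))))))))))))))))))))))))

noncomputable def dC1c_i18 : IL := (.s true (nat_lit 1) (nat_lit 14) (nat_lit 2) (nat_lit 3) (nat_lit 2) true (nat_lit 6) true (nat_lit 10) true (nat_lit 2) true (nat_lit 10) true (nat_lit 9) (.s false (nat_lit 1) (nat_lit 18) (nat_lit 0) (nat_lit 5) (nat_lit 0) false (nat_lit 13) true (nat_lit 12) true (nat_lit 0) true (nat_lit 12) true (nat_lit 7) (.s false (nat_lit 1) (nat_lit 23) (nat_lit 2) (nat_lit 2) (nat_lit 2) true (nat_lit 6) true (nat_lit 10) false (nat_lit 0) true (nat_lit 10) true (nat_lit 10) (.s true (nat_lit 3) (nat_lit 28) (nat_lit 2) (nat_lit 1) (nat_lit 2) true (nat_lit 6) true (nat_lit 10) false (nat_lit 1) true (nat_lit 10) true (nat_lit 11) (.s true (nat_lit 1) (nat_lit 40) (nat_lit 0) (nat_lit 1) (nat_lit 2) true (nat_lit 8) true (nat_lit 10) false (nat_lit 3) true (nat_lit 12) true (nat_lit 11) (.s false (nat_lit 1) (nat_lit 40) (nat_lit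 0) (nat_lit 2) (nat_lit 1) true (nat_lit 9) true (nat_lit 11) false (nat_lit 3) true (nat_lit 12) true (nat_lit 10) (.s true (nat_lit 1) (nat_lit 42) (nat_lit 2) (nat_lit 0) (nat_lit 1) true (nat_lit 7) true (nat_lit 11) false (nat_lit 3) true (nat_lit 10) true (nat_lit 12) (.e true (nat_lit 3) (nat_lit 21) (nat_lit 18) (nat_lit 0) (.e false (nat_lit 1) (nat_lit 132) (nat_lit 2) (nat_lit 10) (.e false (nat_lit 2) (nat_lit 133) (nat_lit 2) (nat_lit 10) (.e true (nat_lit 3) (nat_lit 134) (nat_lit 2) (nat_lit 10) (.e true (nat_lit 2) (nat_lit 137) (nat_lit 2) (nat_lit 10) (.e false (nat_lit 3) (nat_lit 138) (nat_lit 2) (nat_lit 10) (.e false (nat_lit 2) (nat_lit 139) (nat_lit 2) (nat_lit 10) (.e false (nat_lit 1) (nat_lit 140) (nat_lit 2) (nat_lit 10) (.e false (nat_lit 2) (nat_lit 142) (nat_lit 2) (nat_lit 10) (.e false (nat_lit 3) (nat_lit 143) (nat_lit 2) (nat_lit 10) (.e true (nat_lit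 3) (nat_lit 152) (nat_lit 2) (nat_lit 10) (.e false (nat_lit 3) (nat_lit 175) (nat_lit 1) (nat_lit 11) (.e false (nat_lit 1) (nat_lit 179) (nat_lit 1) (nat_lit 11) (.e true (nat_lit 3) (nat_lit 77) (nat_lit 5) (nat_lit 7) (.e false (nat_lit 2) (nat_lit 150) (nat_lit 2) (nat_lit 10) (.e true (nat_lit 1) (nat_lit 193) (nat_lit 0) (nat_lit 12) (.e true (nat_lit 3) (nat_lit 135) (nat_lit 2) (nat_lit 10) (.e true (nat_lit 2) (nat_lit 144) (nat_lit 2) (nat_lit 10) dC1c_i17)))))))))))))))))))))))))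

noncomputable def dC1c_i19 : IL := (.e true (nat_lit 3) (nat_lit 239) (nat_lit 2) (nat_lit 17) (.e true (nat_lit 3) (nat_lit 240) (nat_lit 2) (nat_lit 17) (.e false (nat_lit 1) (nat_lit 241) (nat_lit 2) (nat_lit 17) (.e true (nat_lit 1) (nat_lit 243) (nat_lit 2) (nat_lit 17) (.e true (nat_lit 2) (nat_lit 246) (nat_lit 2) (nat_lit 17) (.e true (nat_lit 3) (nat_lit 248) (nat_lit 2) (nat_lit 17) (.e false (nat_lit 3) (nat_lit 261) (nat_lit 1) (nat_lit 18) (.e false (nat_lit 3) (nat_lit 262) (nat_lit 1) (nat_lit 18) (.e true (nat_lit 2) (nat_lit 263) (nat_lit 1) (nat_lit 18) (.e false (nat_lit 1) (nat_lit 265) (nat_lit 1) (nat_lit 18) (.e true (nat_lit 1) (nat_lit 266) (nat_lit 1) (nat_lit 18) (.e true (nat_lit 2) (nat_lit 267) (nat_lit 1) (nat_lit 18) (.e true (nat_lit 3) (nat_lit 268) (nat_lit 1) (nat_lit 18) (.e false (nat_lit 3) (nat_lit 269) (nat_lit 1) (nat_lit 18) (.e false (nat_lit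 2) (nat_lit 270) (nat_lit 1) (nat_lit 18) (.e true (nat_lit 1) (nat_lit 271) (nat_lit 1) (nat_lit 18) (.e true (nat_lit 2) (nat_lit 272) (nat_lit 1) (nat_lit 18) (.e false (nat_lit 3) (nat_lit 273) (nat_lit 1) (nat_lit 18) (.e true (nat_lit 1) (nat_lit 274) (nat_lit 1) (nat_lit 18) (.e false (nat_lit 1) (nat_lit 275) (nat_lit 1) (nat_lit 18) (.e true (nat_lit 2) (nat_lit 277) (nat_lit 1) (nat_lit 18) (.e false (nat_lit 1) (nat_lit 278) (nat_lit 1) (nat_lit 18) (.e true (nat_lit 2) (nat_lit 279) (nat_lit 1) (nat_lit 18) (.e true (nat_lit 2) (nat_lit 280) (nat_lit 1) (nat_lit 18) (.u (nat_lit 2) (.p (nat_lit 0) (nat_lit 1) (.p (nat_lit 1) (nat_lit 3) (.n (nat_lit 2) (nat_lit 3) (.p (nat_lit 4) (nat_lit 1) (.n (nat_lit 5) (nat_lit 1) (.n (nat_lit 6) (nat_lit 3) (.p (nat_lit 7) (nat_lit 2) (.n (nat_lit 8) (nat_lit 3) (.n (nat_lit 9) (nat_lit 1) (.p (nat_lit 10) (nat_lit 1) (.n (nat_lit 11)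 (nat_lit 1) (.p (nat_lit 12) (nat_lit 1) (.n (nat_lit 13) (nat_lit 1) (.p (nat_lit 14) (nat_lit 2) (.n (nat_lit 15) (nat_lit 1) (.n (nat_lit 18) (nat_lit 1) (.p (nat_lit 19) (nat_lit 3) (.n (nat_lit 20) (nat_lit 2) (.p (nat_lit 26) (nat_lit 1) (.p (nat_lit 27) (nat_lit 1) (.n (nat_lit 28) (nat_lit 1) (.n (nat_lit 29) (nat_lit 3) (.n (nat_lit 30) (nat_lit 1) (.n (nat_lit 31) (nat_lit 3) (.n (nat_lit 32) (nat_lit 3) (.p (nat_lit 34) (nat_lit 1) (.n (nat_lit 35) (nat_lit 2) (.p (nat_lit 36) (nat_lit 1) (.p (nat_lit 37) (nat_lit 1) (.p (nat_lit 38) (nat_lit 1) (.p (nat_lit 40) (nat_lit 2) (.n (nat_lit 44) (nat_lit 1) (.p (nat_lit 49) (nat_lit 1) (.p (nat_lit 50) (nat_lit 2) (.p (nat_lit 52) (nat_lit 1) (.n (nat_lit 53) (nat_lit 1) (.p (nat_lit 54) (nat_lit 2) (.p (nat_lit 63) (nat_lit 1) (.n (nat_lit 64) (nat_lit 1) (.p (nat_lit 69) (nat_lit 4) (.p (nat_lit 359) (nat_lit 1) .z)))))))))))))))))))))))))))))))))))))))))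 .nil)))))))))))))))))))))))))

noncomputable def dC1c_i20 : IL := (.e true (nat_lit 1) (nat_lit 258) (nat_lit 2) (nat_lit 17) (.e true (nat_lit 1) (nat_lit 191) (nat_lit 3) (nat_lit 16) (.e true (nat_lit 1) (nat_lit 40) (nat_lit 26) (nat_lit 2) (.e false (nat_lit 1) (nat_lit 212) (nat_lit 2) (nat_lit 17) (.e false (nat_lit 3) (nat_lit 213) (nat_lit 2) (nat_lit 17) (.e false (nat_lit 3) (nat_lit 214) (nat_lit 2) (nat_lit 17) (.e true (nat_lit 2) (nat_lit 215) (nat_lit 2) (nat_lit 17) (.e false (nat_lit 3) (nat_lit 216) (nat_lit 2) (nat_lit 17) (.e true (nat_lit 2) (nat_lit 217) (nat_lit 2) (nat_lit 17) (.e true (nat_lit 3) (nat_lit 218) (nat_lit 2) (nat_lit 17) (.e false (nat_lit 2) (nat_lit 219) (nat_lit 2) (nat_lit 17) (.e true (nat_lit 1) (nat_lit 220) (nat_lit 2) (nat_lit 17) (.e true (nat_lit 1) (nat_lit 222) (nat_lit 2) (nat_lit 17) (.e false (nat_lit 2) (nat_lit 223) (nat_lit 2)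 (nat_lit 17) (.e false (nat_lit 2) (nat_lit 225) (nat_lit 2) (nat_lit 17) (.e false (nat_lit 1) (nat_lit 226) (nat_lit 2) (nat_lit 17) (.e true (nat_lit 1) (nat_lit 228) (nat_lit 2) (nat_lit 17) (.e false (nat_lit 2) (nat_lit 229) (nat_lit 2) (nat_lit 17) (.e false (nat_lit 1) (nat_lit 230) (nat_lit 2) (nat_lit 17) (.e true (nat_lit 2) (nat_lit 231) (nat_lit 2) (nat_lit 17) (.e true (nat_lit 2) (nat_lit 232) (nat_lit 2) (nat_lit 17) (.e false (nat_lit 2) (nat_lit 233) (nat_lit 2) (nat_lit 17) (.e false (nat_lit 1) (nat_lit 234) (nat_lit 2) (nat_lit 17) (.e false (nat_lit 1) (nat_lit 235) (nat_lit 2) (nat_lit 17) (.e true (nat_lit 1) (nat_lit 236) (nat_lit 2) (nat_lit 17) dC1c_i19)))))))))))))))))))))))))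

noncomputable def dC1c_i21 : IL := (.s true (nat_lit 1) (nat_lit 14) (nat_lit 13) (nat_lit 2) (nat_lit 0) true (nat_lit 2) true (nat_lit 19) true (nat_lit 7) true (nat_lit 8) true (nat_lit 17) (.s true (nat_lit 1) (nat_lit 40) (nat_lit 2) (nat_lit 1) (nat_lit 3) true (nat_lit 9) true (nat_lit 16) false (nat_lit 2) true (nat_lit 17) true (nat_lit 18) (.e false (nat_lit 1) (nat_lit 40) (nat_lit 25) (nat_lit 2) (.e true (nat_lit 2) (nat_lit 290) (nat_lit 0) (nat_lit 19) (.e true (nat_lit 2) (nat_lit 291) (nat_lit 0) (nat_lit 19) (.e false (nat_lit 1) (nat_lit 292) (nat_lit 0) (nat_lit 19) (.e true (nat_lit 1) (nat_lit 293) (nat_lit 0) (nat_lit 19) (.e true (nat_lit 1) (nat_lit 294) (nat_lit 0) (nat_lit 19) (.e false (nat_lit 1) (nat_lit 295) (nat_lit 0) (nat_lit 19) (.e true (nat_lit 1) (nat_lit 296) (nat_lit 0) (nat_lit 19) (.e false (nat_lit 1) (nat_lit 297) (nat_lit 0) (nat_lit 19) (.e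 true (nat_lit 1) (nat_lit 299) (nat_lit 0) (nat_lit 19) (.e false (nat_lit 1) (nat_lit 300) (nat_lit 0) (nat_lit 19) (.e false (nat_lit 1) (nat_lit 304) (nat_lit 0) (nat_lit 19) (.e false (nat_lit 1) (nat_lit 306) (nat_lit 0) (nat_lit 19) (.e false (nat_lit 1) (nat_lit 307) (nat_lit 0) (nat_lit 19) (.e false (nat_lit 1) (nat_lit 308) (nat_lit 0) (nat_lit 19) (.e true (nat_lit 1) (nat_lit 309) (nat_lit 0) (nat_lit 19) (.e true (nat_lit 1) (nat_lit 310) (nat_lit 0) (nat_lit 19) (.e true (nat_lit 1) (nat_lit 73) (nat_lit 14) (nat_lit 7) (.e false (nat_lit 1) (nat_lit 78) (nat_lit 13) (nat_lit 8) (.e false (nat_lit 1) (nat_lit 80) (nat_lit 13) (nat_lit 8) (.e true (nat_lit 1) (nat_lit 81) (nat_lit 13) (nat_lit 8) (.e false (nat_lit 2) (nat_lit 237) (nat_lit 2) (nat_lit 17) (.e true (nat_lit 3) (nat_lit 244) (nat_lit 2) (nat_lit 17) dC1c_i20)))))))))))))))))))))))))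

noncomputable def dC1c_i22 : IL := (.e true (nat_lit 1) (nat_lit 310) (nat_lit 0) (nat_lit 19) (.e false (nat_lit 1) (nat_lit 311) (nat_lit 0) (nat_lit 19) (.e false (nat_lit 1) (nat_lit 314) (nat_lit 0) (nat_lit 19) (.e true (nat_lit 1) (nat_lit 316) (nat_lit 0) (nat_lit 19) (.e true (nat_lit 2) (nat_lit 317) (nat_lit 0) (nat_lit 19) (.e false (nat_lit 1) (nat_lit 318) (nat_lit 0) (nat_lit 19) (.e true (nat_lit 1) (nat_lit 319) (nat_lit 0) (nat_lit 19) (.e true (nat_lit 2) (nat_lit 213) (nat_lit 2) (nat_lit 17) (.e true (nat_lit 1) (nat_lit 214) (nat_lit 2) (nat_lit 17) (.e true (nat_lit 1) (nat_lit 215) (nat_lit 2) (nat_lit 17) (.e false (nat_lit 1) (nat_lit 217) (nat_lit 2) (nat_lit 17) (.e false (nat_lit 1) (nat_lit 220) (nat_lit 2) (nat_lit 17) (.e true (nat_lit 2) (nat_lit 221) (nat_lit 2) (nat_lit 17) (.e true (nat_lit 3) (nat_lit 222) (nat_lit 2) (nat_lit 17) (.e true (nat_lit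 3) (nat_lit 224) (nat_lit 2) (nat_lit 17) (.e false (nat_lit 2) (nat_lit 225) (nat_lit 2) (nat_lit 17) (.e false (nat_lit 1) (nat_lit 226) (nat_lit 2) (nat_lit 17) (.e true (nat_lit 2) (nat_lit 227) (nat_lit 2) (nat_lit 17) (.e true (nat_lit 1) (nat_lit 228) (nat_lit 2) (nat_lit 17) (.e true (nat_lit 1) (nat_lit 229) (nat_lit 2) (nat_lit 17) (.e true (nat_lit 3) (nat_lit 212) (nat_lit 2) (nat_lit 17) (.e true (nat_lit 1) (nat_lit 219) (nat_lit 2) (nat_lit 17) (.e false (nat_lit 1) (nat_lit 230) (nat_lit 2) (nat_lit 17) (.e true (nat_lit 1) (nat_lit 231) (nat_lit 2) (nat_lit 17) (.u (nat_lit 2) (.p (nat_lit 1) (nat_lit 1) (.n (nat_lit 2) (nat_lit 1) (.n (nat_lit 3) (nat_lit 2) (.p (nat_lit 5) (nat_lit 2) (.n (nat_lit 6) (nat_lit 1) (.p (nat_lit 7) (nat_lit 1) (.n (nat_lit 8) (nat_lit 1) (.p (nat_lit 9) (nat_lit 1) (.n (nat_lit 10) (nat_lit 2) (.n (nat_lit 11) (nat_lit 1) (.p (nat_lit 12)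 (nat_lit 1) (.p (nat_lit 19) (nat_lit 1) (.n (nat_lit 20) (nat_lit 1) (.n (nat_lit 27) (nat_lit 1) (.n (nat_lit 30) (nat_lit 1) (.n (nat_lit 31) (nat_lit 2) (.p (nat_lit 34) (nat_lit 2) (.p (nat_lit 35) (nat_lit 3) (.n (nat_lit 36) (nat_lit 2) (.n (nat_lit 38) (nat_lit 1) (.p (nat_lit 40) (nat_lit 3) (.n (nat_lit 41) (nat_lit 1) (.p (nat_lit 50) (nat_lit 2) (.n (nat_lit 51) (nat_lit 1) (.p (nat_lit 53) (nat_lit 1) (.p (nat_lit 54) (nat_lit 1) (.n (nat_lit 55) (nat_lit 1) (.n (nat_lit 57) (nat_lit 1) (.n (nat_lit 335) (nat_lit 1) (.p (nat_lit 336) (nat_lit 1) (.p (nat_lit 337) (nat_lit 1) .z))))))))))))))))))))))))))))))) .nil)))))))))))))))))))))))))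

noncomputable def dC1c_i23 : IL := (.e true (nat_lit 2) (nat_lit 271) (nat_lit 1) (nat_lit 18) (.e false (nat_lit 3) (nat_lit 272) (nat_lit 1) (nat_lit 18) (.e false (nat_lit 2) (nat_lit 273) (nat_lit 1) (nat_lit 18) (.e true (nat_lit 1) (nat_lit 274) (nat_lit 1) (nat_lit 18) (.e true (nat_lit 1) (nat_lit 275) (nat_lit 1) (nat_lit 18) (.e false (nat_lit 2) (nat_lit 280) (nat_lit 1) (nat_lit 18) (.e false (nat_lit 1) (nat_lit 290) (nat_lit 0) (nat_lit 19) (.e false (nat_lit 1) (nat_lit 291) (nat_lit 0) (nat_lit 19) (.e true (nat_lit 1) (nat_lit 292) (nat_lit 0) (nat_lit 19) (.e true (nat_lit 2) (nat_lit 293) (nat_lit 0) (nat_lit 19) (.e false (nat_lit 3) (nat_lit 294) (nat_lit 0) (nat_lit 19) (.e false (nat_lit 2) (nat_lit 295) (nat_lit 0) (nat_lit 19) (.e true (nat_lit 1) (nat_lit 296) (nat_lit 0) (nat_lit 19) (.e false (nat_lit 2) (nat_lit 297) (nat_lit 0) (nat_lit 19) (.e true (nat_lit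 1) (nat_lit 298) (nat_lit 0) (nat_lit 19) (.e false (nat_lit 2) (nat_lit 299) (nat_lit 0) (nat_lit 19) (.e false (nat_lit 2) (nat_lit 300) (nat_lit 0) (nat_lit 19) (.e true (nat_lit 2) (nat_lit 301) (nat_lit 0) (nat_lit 19) (.e true (nat_lit 1) (nat_lit 302) (nat_lit 0) (nat_lit 19) (.e true (nat_lit 2) (nat_lit 303) (nat_lit 0) (nat_lit 19) (.e true (nat_lit 2) (nat_lit 304) (nat_lit 0) (nat_lit 19) (.e true (nat_lit 3) (nat_lit 305) (nat_lit 0) (nat_lit 19) (.e false (nat_lit 1) (nat_lit 306) (nat_lit 0) (nat_lit 19) (.e false (nat_lit 1) (nat_lit 307) (nat_lit 0) (nat_lit 19) (.e true (nat_lit 1) (nat_lit 309) (nat_lit 0) (nat_lit 19) dC1c_i22)))))))))))))))))))))))))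

noncomputable def dC1c_i24 : IL := (.e false (nat_lit 2) (nat_lit 238) (nat_lit 2) (nat_lit 17) (.e false (nat_lit 3) (nat_lit 239) (nat_lit 2) (nat_lit 17) (.e true (nat_lit 2) (nat_lit 240) (nat_lit 2) (nat_lit 17) (.e false (nat_lit 2) (nat_lit 241) (nat_lit 2) (nat_lit 17) (.e true (nat_lit 2) (nat_lit 242) (nat_lit 2) (nat_lit 17) (.e false (nat_lit 2) (nat_lit 243) (nat_lit 2) (nat_lit 17) (.e true (nat_lit 1) (nat_lit 244) (nat_lit 2) (nat_lit 17) (.e true (nat_lit 1) (nat_lit 245) (nat_lit 2) (nat_lit 17) (.e true (nat_lit 1) (nat_lit 212) (nat_lit 2) (nat_lit 17) (.e false (nat_lit 3) (nat_lit 213) (nat_lit 2) (nat_lit 17) (.e true (nat_lit 3) (nat_lit 214) (nat_lit 2) (nat_lit 17) (.e true (nat_lit 1) (nat_lit 215) (nat_lit 2) (nat_lit 17) (.e false (nat_lit 2) (nat_lit 216) (nat_lit 2) (nat_lit 17) (.e true (nat_lit 3) (nat_lit 217) (nat_lit 2) (nat_lit 17) (.e true (nat_lit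 3) (nat_lit 218) (nat_lit 2) (nat_lit 17) (.e false (nat_lit 3) (nat_lit 219) (nat_lit 2) (nat_lit 17) (.e true (nat_lit 3) (nat_lit 220) (nat_lit 2) (nat_lit 17) (.e true (nat_lit 2) (nat_lit 221) (nat_lit 2) (nat_lit 17) (.e false (nat_lit 2) (nat_lit 222) (nat_lit 2) (nat_lit 17) (.e false (nat_lit 3) (nat_lit 224) (nat_lit 2) (nat_lit 17) (.e false (nat_lit 2) (nat_lit 227) (nat_lit 2) (nat_lit 17) (.e false (nat_lit 2) (nat_lit 229) (nat_lit 2) (nat_lit 17) (.e false (nat_lit 2) (nat_lit 248) (nat_lit 2) (nat_lit 17) (.e false (nat_lit 1) (nat_lit 246) (nat_lit 2) (nat_lit 17) (.u (nat_lit 2) (.n (nat_lit 0) (nat_lit 3) (.p (nat_lit 1) (nat_lit 2) (.n (nat_lit 2) (nat_lit 1) (.n (nat_lit 3) (nat_lit 2) (.p (nat_lit 4) (nat_lit 2) (.n (nat_lit 5) (nat_lit 3) (.n (nat_lit 6) (nat_lit 3) (.p (nat_lit 7) (nat_lit 1) (.p (nat_lit 8) (nat_lit 1) (.n (nat_lit 9) (nat_lit 1) (.n (nat_lit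 10) (nat_lit 2) (.n (nat_lit 12) (nat_lit 3) (.n (nat_lit 13) (nat_lit 2) (.p (nat_lit 15) (nat_lit 2) (.p (nat_lit 17) (nat_lit 1) (.n (nat_lit 18) (nat_lit 2) (.p (nat_lit 19) (nat_lit 2) (.p (nat_lit 20) (nat_lit 2) (.n (nat_lit 26) (nat_lit 2) (.n (nat_lit 27) (nat_lit 3) (.n (nat_lit 28) (nat_lit 4) (.p (nat_lit 29) (nat_lit 1) (.n (nat_lit 32) (nat_lit 2) (.p (nat_lit 33) (nat_lit 2) (.p (nat_lit 34) (nat_lit 1) (.n (nat_lit 35) (nat_lit 2) (.n (nat_lit 36) (nat_lit 2) (.n (nat_lit 37) (nat_lit 1) (.p (nat_lit 38) (nat_lit 5) (.n (nat_lit 39) (nat_lit 1) (.p (nat_lit 40) (nat_lit 4) (.p (nat_lit 41) (nat_lit 5) (.n (nat_lit 49) (nat_lit 1) (.n (nat_lit 53) (nat_lit 3) (.n (nat_lit 54) (nat_lit 1) (.p (nat_lit 55) (nat_lit 1) (.n (nat_lit 57) (nat_lit 1) (.p (nat_lit 58) (nat_lit 2) (.p (nat_lit 63) (nat_lit 1) (.p (nat_lit 69) (nat_lit 1) (.n (nat_lit 70) (nat_lit 2) (.n (nat_lit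 347) (nat_lit 1) (.n (nat_lit 351) (nat_lit 1) (.n (nat_lit 353) (nat_lit 1) (.n (nat_lit 356) (nat_lit 1) (.n (nat_lit 363) (nat_lit 1) .z)))))))))))))))))))))))))))))))))))))))))))))) .nil)))))))))))))))))))))))))

noncomputable def dC1c_i25 : IL := (.e false (nat_lit 3) (nat_lit 264) (nat_lit 1) (nat_lit 18) (.e false (nat_lit 1) (nat_lit 265) (nat_lit 1) (nat_lit 18) (.e false (nat_lit 2) (nat_lit 266) (nat_lit 1) (nat_lit 18) (.e false (nat_lit 3) (nat_lit 268) (nat_lit 1) (nat_lit 18) (.e true (nat_lit 2) (nat_lit 270) (nat_lit 1) (nat_lit 18) (.e false (nat_lit 1) (nat_lit 271) (nat_lit 1) (nat_lit 18) (.e true (nat_lit 3) (nat_lit 272) (nat_lit 1) (nat_lit 18) (.e false (nat_lit 1) (nat_lit 273) (nat_lit 1) (nat_lit 18) (.e false (nat_lit 2) (nat_lit 274) (nat_lit 1) (nat_lit 18) (.e true (nat_lit 1) (nat_lit 276) (nat_lit 1) (nat_lit 18) (.e false (nat_lit 3) (nat_lit 277) (nat_lit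 1) (nat_lit 18) (.e false (nat_lit 2) (nat_lit 278) (nat_lit 1) (nat_lit 18) (.e false (nat_lit 1) (nat_lit 279) (nat_lit 1) (nat_lit 18) (.e false (nat_lit 1) (nat_lit 280) (nat_lit 1) (nat_lit 18) (.e true (nat_lit 3) (nat_lit 282) (nat_lit 1) (nat_lit 18) (.e false (nat_lit 1) (nat_lit 284) (nat_lit 1) (nat_lit 18) (.e false (nat_lit 3) (nat_lit 286) (nat_lit 1) (nat_lit 18) (.e false (nat_lit 1) (nat_lit 287) (nat_lit 1) (nat_lit 18) (.e true (nat_lit 3) (nat_lit 288) (nat_lit 1) (nat_lit 18) (.e false (nat_lit 3) (nat_lit 289) (nat_lit 1) (nat_lit 18) (.e false (nat_lit 2) (nat_lit 232) (nat_lit 2) (nat_lit 17) (.e false (nat_lit 1) (nat_lit 233) (nat_lit 2) (nat_lit 17) (.e true (nat_lit 1) (nat_lit 234) (nat_lit 2) (nat_lit 17) (.e false (nat_lit 1) (nat_lit 235) (nat_lit 2) (nat_lit 17) (.e false (nat_lit 1) (nat_lit 236) (nat_lit 2) (nat_lit 17) dC1c_i24)))))))))))))))))))))))))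

noncomputable def dC1c_i26 : IL := (.e true (nat_lit 3) (nat_lit 269) (nat_lit 2) (nat_lit 13) (.e true (nat_lit 1) (nat_lit 271) (nat_lit 2) (nat_lit 13) (.e true (nat_lit 2) (nat_lit 278) (nat_lit 2) (nat_lit 13) (.e false (nat_lit 2) (nat_lit 279) (nat_lit 2) (nat_lit 13) (.e true (nat_lit 3) (nat_lit 280) (nat_lit 2) (nat_lit 13) (.e false (nat_lit 3) (nat_lit 286) (nat_lit 2) (nat_lit 13) (.e false (nat_lit 2) (nat_lit 288) (nat_lit 2) (nat_lit 13) (.e false (nat_lit 3) (nat_lit 289) (nat_lit 2) (nat_lit 13) (.e false (nat_lit 3) (nat_lit 261) (nat_lit 2) (nat_lit 13) (.e false (nat_lit 2) (nat_lit 263) (nat_lit 2) (nat_lit 13) (.e true (nat_lit 1) (nat_lit 270) (nat_lit 2) (nat_lit 13) (.e false (nat_lit 3) (nat_lit 272) (nat_lit 2) (nat_lit 13) (.e false (nat_lit 2) (nat_lit 273) (nat_lit 2) (nat_lit 13) (.e false (nat_lit 2) (nat_lit 277) (nat_lit 2) (nat_lit 13) (.e true (nat_lit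 3) (nat_lit 287) (nat_lit 2) (nat_lit 13) (.e true (nat_lit 1) (nat_lit 40) (nat_lit 32) (nat_lit 0) (.e true (nat_lit 1) (nat_lit 195) (nat_lit 4) (nat_lit 11) (.e false (nat_lit 1) (nat_lit 320) (nat_lit 1) (nat_lit 14) (.e true (nat_lit 2) (nat_lit 321) (nat_lit 1) (nat_lit 14) (.e true (nat_lit 1) (nat_lit 322) (nat_lit 1) (nat_lit 14) (.e true (nat_lit 2) (nat_lit 323) (nat_lit 1) (nat_lit 14) (.e false (nat_lit 1) (nat_lit 324) (nat_lit 1) (nat_lit 14) (.e false (nat_lit 2) (nat_lit 325) (nat_lit 1) (nat_lit 14) (.e true (nat_lit 3) (nat_lit 327) (nat_lit 1) (nat_lit 14) (.u (nat_lit 2) (.n (nat_lit 0) (nat_lit 3) (.p (nat_lit 1) (nat_lit 1) (.p (nat_lit 2) (nat_lit 4) (.n (nat_lit 3) (nat_lit 2) (.n (nat_lit 4) (nat_lit 3) (.n (nat_lit 5) (nat_lit 1) (.p (nat_lit 8) (nat_lit 4) (.p (nat_lit 9) (nat_lit 3) (.p (nat_lit 13) (nat_lit 7) (.p (nat_lit 15) (nat_lit 2) (.n (nat_lit 18)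 (nat_lit 1) (.n (nat_lit 21) (nat_lit 2) (.p (nat_lit 22) (nat_lit 2) (.p (nat_lit 25) (nat_lit 1) (.n (nat_lit 26) (nat_lit 1) (.p (nat_lit 27) (nat_lit 1) (.n (nat_lit 28) (nat_lit 1) (.p (nat_lit 29) (nat_lit 1) (.n (nat_lit 30) (nat_lit 3) (.p (nat_lit 33) (nat_lit 2) (.p (nat_lit 173) (nat_lit 1) (.n (nat_lit 180) (nat_lit 1) (.p (nat_lit 181) (nat_lit 1) (.p (nat_lit 182) (nat_lit 1) (.p (nat_lit 191) (nat_lit 1) (.p (nat_lit 195) (nat_lit 1) (.n (nat_lit 199) (nat_lit 1) (.n (nat_lit 202) (nat_lit 1) .z)))))))))))))))))))))))))))) .nil)))))))))))))))))))))))))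

noncomputable def dC1c_i27 : IL := (.e false (nat_lit 2) (nat_lit 263) (nat_lit 2) (nat_lit 13) (.e true (nat_lit 1) (nat_lit 264) (nat_lit 2) (nat_lit 13) (.e true (nat_lit 3) (nat_lit 265) (nat_lit 2) (nat_lit 13) (.e true (nat_lit 2) (nat_lit 266) (nat_lit 2) (nat_lit 13) (.e true (nat_lit 2) (nat_lit 268) (nat_lit 2) (nat_lit 13) (.e true (nat_lit 3) (nat_lit 270) (nat_lit 2) (nat_lit 13) (.e true (nat_lit 1) (nat_lit 271) (nat_lit 2) (nat_lit 13) (.e false (nat_lit 3) (nat_lit 273) (nat_lit 2) (nat_lit 13) (.e false (nat_lit 1) (nat_lit 274) (nat_lit 2) (nat_lit 13) (.e true (nat_lit 1) (nat_lit 276) (nat_lit 2) (nat_lit 13) (.e false (nat_lit 3) (nat_lit 277) (nat_lit 2) (nat_lit 13) (.e false (nat_lit 2) (nat_lit 278) (nat_lit 2) (nat_lit 13) (.e false (nat_lit 1) (nat_lit 279) (nat_lit 2) (nat_lit 13) (.e false (nat_lit 3) (nat_lit 280) (nat_lit 2) (nat_lit 13) (.e true (nat_lit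 3) (nat_lit 282) (nat_lit 2) (nat_lit 13) (.e false (nat_lit 1) (nat_lit 284) (nat_lit 2) (nat_lit 13) (.e false (nat_lit 3) (nat_lit 286) (nat_lit 2) (nat_lit 13) (.e false (nat_lit 1) (nat_lit 287) (nat_lit 2) (nat_lit 13) (.e true (nat_lit 3) (nat_lit 288) (nat_lit 2) (nat_lit 13) (.e false (nat_lit 3) (nat_lit 289) (nat_lit 2) (nat_lit 13) (.e false (nat_lit 3) (nat_lit 260) (nat_lit 2) (nat_lit 13) (.e true (nat_lit 2) (nat_lit 267) (nat_lit 2) (nat_lit 13) (.e false (nat_lit 2) (nat_lit 269) (nat_lit 2) (nat_lit 13) (.e true (nat_lit 1) (nat_lit 275) (nat_lit 2) (nat_lit 13) (.u (nat_lit 2) (.n (nat_lit 0) (nat_lit 1) (.n (nat_lit 2) (nat_lit 4) (.n (nat_lit 3) (nat_lit 3) (.p (nat_lit 4) (nat_lit 5) (.p (nat_lit 5) (nat_lit 3) (.n (nat_lit 6) (nat_lit 1) (.n (nat_lit 7) (nat_lit 2) (.n (nat_lit 8) (nat_lit 3) (.n (nat_lit 9) (nat_lit 2) (.n (nat_lit 12) (nat_lit 4) (.p (nat_lit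 15) (nat_lit 3) (.p (nat_lit 16) (nat_lit 7) (.n (nat_lit 17) (nat_lit 1) (.p (nat_lit 18) (nat_lit 4) (.p (nat_lit 19) (nat_lit 4) (.p (nat_lit 21) (nat_lit 1) (.n (nat_lit 23) (nat_lit 1) (.n (nat_lit 25) (nat_lit 1) (.p (nat_lit 27) (nat_lit 1) (.n (nat_lit 28) (nat_lit 1) (.p (nat_lit 29) (nat_lit 1) (.n (nat_lit 30) (nat_lit 2) (.p (nat_lit 33) (nat_lit 5) (.p (nat_lit 177) (nat_lit 1) (.p (nat_lit 178) (nat_lit 1) (.p (nat_lit 179) (nat_lit 1) (.p (nat_lit 181) (nat_lit 1) .z))))))))))))))))))))))))))) .nil)))))))))))))))))))))))))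

noncomputable def dC1c_i28 : IL := (.e true (nat_lit 3) (nat_lit 299) (nat_lit 2) (nat_lit 13) (.e true (nat_lit 1) (nat_lit 300) (nat_lit 2) (nat_lit 13) (.e false (nat_lit 3) (nat_lit 301) (nat_lit 2) (nat_lit 13) (.e false (nat_lit 1) (nat_lit 302) (nat_lit 2) (nat_lit 13) (.e true (nat_lit 2) (nat_lit 303) (nat_lit 2) (nat_lit 13) (.e false (nat_lit 1) (nat_lit 304) (nat_lit 2) (nat_lit 13) (.e false (nat_lit 3) (nat_lit 305) (nat_lit 2) (nat_lit 13) (.e false (nat_lit 1) (nat_lit 306) (nat_lit 2) (nat_lit 13) (.e true (nat_lit 1) (nat_lit 307) (nat_lit 2) (nat_lit 13) (.e false (nat_lit 1) (nat_lit 308) (nat_lit 2) (nat_lit 13) (.e true (nat_lit 1) (nat_lit 309) (nat_lit 2) (nat_lit 13) (.e false (nat_lit 1) (nat_lit 310) (nat_lit 2) (nat_lit 13) (.e false (nat_lit 2) (nat_lit 328) (nat_lit 1) (nat_lit 14) (.e true (nat_lit 3) (nat_lit 330) (nat_lit 1) (nat_lit 14) (.e true (nat_lit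 3) (nat_lit 331) (nat_lit 1) (nat_lit 14) (.e true (nat_lit 2) (nat_lit 332) (nat_lit 1) (nat_lit 14) (.e false (nat_lit 3) (nat_lit 333) (nat_lit 1) (nat_lit 14) (.e true (nat_lit 1) (nat_lit 334) (nat_lit 1) (nat_lit 14) (.e true (nat_lit 3) (nat_lit 335) (nat_lit 1) (nat_lit 14) (.e true (nat_lit 2) (nat_lit 336) (nat_lit 1) (nat_lit 14) (.e true (nat_lit 2) (nat_lit 337) (nat_lit 1) (nat_lit 14) (.e true (nat_lit 3) (nat_lit 338) (nat_lit 1) (nat_lit 14) (.e false (nat_lit 1) (nat_lit 345) (nat_lit 1) (nat_lit 14) (.e true (nat_lit 1) (nat_lit 314) (nat_lit 2) (nat_lit 13) (.u (nat_lit 2) (.p (nat_lit 1) (nat_lit 1) (.n (nat_lit 2) (nat_lit 2) (.n (nat_lit 3) (nat_lit 1) (.n (nat_lit 4) (nat_lit 2) (.n (nat_lit 5) (nat_lit 1) (.p (nat_lit 7) (nat_lit 1) (.p (nat_lit 8) (nat_lit 1) (.n (nat_lit 9) (nat_lit 1) (.n (nat_lit 11) (nat_lit 2) (.n (nat_lit 13) (nat_lit 3) (.n (nat_lit 14)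 (nat_lit 4) (.n (nat_lit 15) (nat_lit 2) (.n (nat_lit 16) (nat_lit 1) (.p (nat_lit 19) (nat_lit 1) (.n (nat_lit 22) (nat_lit 1) (.n (nat_lit 23) (nat_lit 1) (.p (nat_lit 26) (nat_lit 1) (.p (nat_lit 27) (nat_lit 1) .z)))))))))))))))))) .nil)))))))))))))))))))))))))

noncomputable def dC1c_i29 : IL := (.e false (nat_lit 3) (nat_lit 161) (nat_lit 6) (nat_lit 9) (.e true (nat_lit 3) (nat_lit 162) (nat_lit 6) (nat_lit 9) (.e true (nat_lit 1) (nat_lit 163) (nat_lit 6) (nat_lit 9) (.e false (nat_lit 3) (nat_lit 164) (nat_lit 6) (nat_lit 9) (.e false (nat_lit 1) (nat_lit 165) (nat_lit 6) (nat_lit 9) (.e true (nat_lit 2) (nat_lit 166) (nat_lit 6) (nat_lit 9) (.e false (nat_lit 1) (nat_lit 167) (nat_lit 6) (nat_lit 9) (.e false (nat_lit 3) (nat_lit 168) (nat_lit 6) (nat_lit 9) (.e false (nat_lit 1) (nat_lit 169) (nat_lit 6) (nat_lit 9) (.e true (nat_lit 1) (nat_lit 170) (nat_lit 6) (nat_lit 9)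 (.e false (nat_lit 1) (nat_lit 171) (nat_lit 6) (nat_lit 9) (.e true (nat_lit 1) (nat_lit 172) (nat_lit 6) (nat_lit 9) (.e false (nat_lit 1) (nat_lit 173) (nat_lit 6) (nat_lit 9) (.e true (nat_lit 1) (nat_lit 328) (nat_lit 1) (nat_lit 14) (.e true (nat_lit 3) (nat_lit 329) (nat_lit 1) (nat_lit 14) (.e true (nat_lit 1) (nat_lit 330) (nat_lit 1) (nat_lit 14) (.e false (nat_lit 1) (nat_lit 332) (nat_lit 1) (nat_lit 14) (.e true (nat_lit 2) (nat_lit 333) (nat_lit 1) (nat_lit 14) (.e false (nat_lit 2) (nat_lit 334) (nat_lit 1) (nat_lit 14) (.e false (nat_lit 1) (nat_lit 336) (nat_lit 1) (nat_lit 14) (.e false (nat_lit 3) (nat_lit 337) (nat_lit 1) (nat_lit 14) (.e false (nat_lit 2) (nat_lit 338) (nat_lit 1) (nat_lit 14) (.e true (nat_lit 1) (nat_lit 345) (nat_lit 1) (nat_lit 14) (.e true (nat_lit 2) (nat_lit 340) (nat_lit 1) (nat_lit 14) (.u (nat_lit 2) (.n (nat_lit 0) (nat_lit 3) (.n (nat_lit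 1) (nat_lit 1) (.n (nat_lit 2) (nat_lit 1) (.n (nat_lit 3) (nat_lit 6) (.p (nat_lit 4) (nat_lit 1) (.n (nat_lit 5) (nat_lit 1) (.n (nat_lit 7) (nat_lit 1) (.n (nat_lit 8) (nat_lit 2) (.n (nat_lit 9) (nat_lit 4) (.p (nat_lit 10) (nat_lit 2) (.p (nat_lit 11) (nat_lit 2) (.p (nat_lit 12) (nat_lit 1) (.n (nat_lit 14) (nat_lit 1) (.p (nat_lit 15) (nat_lit 1) (.n (nat_lit 16) (nat_lit 3) (.n (nat_lit 17) (nat_lit 2) (.n (nat_lit 19) (nat_lit 1) (.p (nat_lit 22) (nat_lit 1) (.n (nat_lit 23) (nat_lit 1) (.n (nat_lit 27) (nat_lit 1) (.n (nat_lit 28) (nat_lit 1) (.p (nat_lit 29) (nat_lit 4) (.p (nat_lit 33) (nat_lit 3) (.p (nat_lit 203) (nat_lit 1) (.p (nat_lit 204) (nat_lit 1) (.p (nat_lit 205) (nat_lit 1) (.n (nat_lit 206) (nat_lit 1) (.n (nat_lit 207) (nat_lit 1) (.n (nat_lit 213) (nat_lit 1) .z))))))))))))))))))))))))))))) .nil)))))))))))))))))))))))))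

noncomputable def dC1c_i30 : IL := (.e true (nat_lit 2) (nat_lit 148) (nat_lit 1) (nat_lit 13) (.e true (nat_lit 2) (nat_lit 149) (nat_lit 1) (nat_lit 13) (.e true (nat_lit 3) (nat_lit 150) (nat_lit 1) (nat_lit 13) (.e false (nat_lit 2) (nat_lit 151) (nat_lit 1) (nat_lit 13) (.e false (nat_lit 1) (nat_lit 152) (nat_lit 1) (nat_lit 13) (.e false (nat_lit 3) (nat_lit 153) (nat_lit 0) (nat_lit 14) (.e true (nat_lit 2) (nat_lit 154) (nat_lit 0) (nat_lit 14) (.e false (nat_lit 1) (nat_lit 156) (nat_lit 0) (nat_lit 14) (.e false (nat_lit 1) (nat_lit 161) (nat_lit 0) (nat_lit 14) (.e true (nat_lit 2) (nat_lit 162) (nat_lit 0) (nat_lit 14) (.e false (nat_lit 3) (nat_lit 164) (nat_lit 0) (nat_lit 14) (.e true (nat_lit 3) (nat_lit 170) (nat_lit 0) (nat_lit 14) (.e true (nat_lit 3) (nat_lit 171) (nat_lit 0) (nat_lit 14) (.e false (nat_lit 1) (nat_lit 173) (nat_lit 0) (nat_lit 14) (.e true (nat_lit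 3) (nat_lit 157) (nat_lit 0) (nat_lit 14) (.e false (nat_lit 2) (nat_lit 158) (nat_lit 0) (nat_lit 14) (.e false (nat_lit 3) (nat_lit 159) (nat_lit 0) (nat_lit 14) (.e true (nat_lit 2) (nat_lit 160) (nat_lit 0) (nat_lit 14) (.e false (nat_lit 1) (nat_lit 163) (nat_lit 0) (nat_lit 14) (.e false (nat_lit 1) (nat_lit 165) (nat_lit 0) (nat_lit 14) (.e true (nat_lit 1) (nat_lit 166) (nat_lit 0) (nat_lit 14) (.e true (nat_lit 3) (nat_lit 167) (nat_lit 0) (nat_lit 14) (.e false (nat_lit 1) (nat_lit 169) (nat_lit 0) (nat_lit 14) (.e true (nat_lit 2) (nat_lit 172) (nat_lit 0) (nat_lit 14) (.u (nat_lit 2) (.n (nat_lit 0) (nat_lit 1) (.n (nat_lit 2) (nat_lit 1) (.n (nat_lit 4) (nat_lit 2) (.p (nat_lit 6) (nat_lit 2) (.n (nat_lit 7) (nat_lit 2) (.n (nat_lit 8) (nat_lit 1) (.p (nat_lit 9) (nat_lit 4) (.p (nat_lit 10) (nat_lit 1) (.p (nat_lit 11) (nat_lit 2) (.p (nat_lit 15) (nat_lit 2) (.n (nat_lit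 17) (nat_lit 2) (.p (nat_lit 20) (nat_lit 1) (.p (nat_lit 21) (nat_lit 1) (.p (nat_lit 22) (nat_lit 1) (.n (nat_lit 25) (nat_lit 1) (.p (nat_lit 26) (nat_lit 2) (.n (nat_lit 27) (nat_lit 3) (.p (nat_lit 29) (nat_lit 3) (.p (nat_lit 31) (nat_lit 1) (.n (nat_lit 33) (nat_lit 1) (.n (nat_lit 182) (nat_lit 1) (.p (nat_lit 199) (nat_lit 1) .z)))))))))))))))))))))) .nil)))))))))))))))))))))))))

noncomputable def dC1c_i31 : IL := (.e false (nat_lit 1) (nat_lit 162) (nat_lit 2) (nat_lit 10) (.e true (nat_lit 1) (nat_lit 163) (nat_lit 2) (nat_lit 10) (.e true (nat_lit 2) (nat_lit 164) (nat_lit 2) (nat_lit 10) (.e true (nat_lit 1) (nat_lit 165) (nat_lit 2) (nat_lit 10) (.e false (nat_lit 1) (nat_lit 166) (nat_lit 2) (nat_lit 10) (.e false (nat_lit 3) (nat_lit 167) (nat_lit 2) (nat_lit 10) (.e true (nat_lit 1) (nat_lit 169) (nat_lit 2) (nat_lit 10) (.e true (nat_lit 3) (nat_lit 170) (nat_lit 2)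 (nat_lit 10) (.e false (nat_lit 2) (nat_lit 171) (nat_lit 2) (nat_lit 10) (.e false (nat_lit 2) (nat_lit 172) (nat_lit 2) (nat_lit 10) (.e true (nat_lit 2) (nat_lit 173) (nat_lit 2) (nat_lit 10) (.e false (nat_lit 1) (nat_lit 43) (nat_lit 10) (nat_lit 4) (.e true (nat_lit 2) (nat_lit 180) (nat_lit 1) (nat_lit 11) (.e true (nat_lit 1) (nat_lit 181) (nat_lit 1) (nat_lit 11) (.e false (nat_lit 1) (nat_lit 182) (nat_lit 1) (nat_lit 11) (.e true (nat_lit 3) (nat_lit 183) (nat_lit 1) (nat_lit 11) (.e false (nat_lit 2) (nat_lit 184) (nat_lit 1) (nat_lit 11) (.e false (nat_lit 2) (nat_lit 185) (nat_lit 1) (nat_lit 11) (.e false (nat_lit 3) (nat_lit 186) (nat_lit 1) (nat_lit 11) (.e false (nat_lit 3) (nat_lit 187) (nat_lit 1) (nat_lit 11) (.e false (nat_lit 3) (nat_lit 189) (nat_lit 1) (nat_lit 11) (.e false (nat_lit 3) (nat_lit 190) (nat_lit 1) (nat_lit 11) (.e false (nat_lit 1) (nat_lit 195)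 (nat_lit 1) (nat_lit 11) (.e false (nat_lit 1) (nat_lit 200) (nat_lit 0) (nat_lit 12) (.u (nat_lit 2) (.n (nat_lit 1) (nat_lit 1) (.p (nat_lit 2) (nat_lit 2) (.n (nat_lit 3) (nat_lit 5) (.p (nat_lit 4) (nat_lit 1) (.n (nat_lit 5) (nat_lit 2) (.n (nat_lit 6) (nat_lit 3) (.p (nat_lit 7) (nat_lit 3) (.n (nat_lit 9) (nat_lit 1) (.p (nat_lit 10) (nat_lit 1) (.p (nat_lit 12) (nat_lit 3) (.p (nat_lit 14) (nat_lit 2) (.p (nat_lit 15) (nat_lit 1) (.n (nat_lit 20) (nat_lit 3) (.n (nat_lit 21) (nat_lit 1) (.p (nat_lit 22) (nat_lit 2) (.p (nat_lit 23) (nat_lit 1) (.n (nat_lit 26) (nat_lit 1) (.n (nat_lit 27) (nat_lit 2) (.n (nat_lit 29) (nat_lit 1) .z))))))))))))))))))) .nil)))))))))))))))))))))))))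

noncomputable def dC1c_i32 : IL := (.s false (nat_lit 1) (nat_lit 6) (nat_lit 4) (nat_lit 2) (nat_lit 5) false (nat_lit 0) true (nat_lit 5) true (nat_lit 4) true (nat_lit 6) true (nat_lit 8) (.s true (nat_lit 1) (nat_lit 14) (nat_lit 5) (nat_lit 2) (nat_lit 2) true (nat_lit 1) true (nat_lit 8) true (nat_lit 2) true (nat_lit 5) true (nat_lit 8) (.s false (nat_lit 1) (nat_lit 16) (nat_lit 4) (nat_lit 2) (nat_lit 2) true (nat_lit 2) true (nat_lit 8) true (nat_lit 1) true (nat_lit 6) true (nat_lit 8) (.s true (nat_lit 1) (nat_lit 18) (nat_lit 5) (nat_lit 2) (nat_lit 0) true (nat_lit 3) true (nat_lit 10) true (nat_lit 0) true (nat_lit 5) true (nat_lit 8) (.s true (nat_lit 1) (nat_lit 35) (nat_lit 2) (nat_lit 2) (nat_lit 2) true (nat_lit 4) true (nat_lit 8) false (nat_lit 0) true (nat_lit 8) true (nat_lit 8) (.e false (nat_lit 1) (nat_lit 31) (nat_lit 18) (nat_lit 0) (.e false (nat_lit 1)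 (nat_lit 32) (nat_lit 18) (nat_lit 0) (.e true (nat_lit 1) (nat_lit 82) (nat_lit 6) (nat_lit 4) (.e true (nat_lit 1) (nat_lit 83) (nat_lit 6) (nat_lit 4) (.e true (nat_lit 2) (nat_lit 87) (nat_lit 6) (nat_lit 4) (.e false (nat_lit 1) (nat_lit 92) (nat_lit 6) (nat_lit 4) (.e false (nat_lit 2) (nat_lit 180) (nat_lit 2) (nat_lit 8) (.e true (nat_lit 2) (nat_lit 181) (nat_lit 2) (nat_lit 8) (.e true (nat_lit 3) (nat_lit 183) (nat_lit 2) (nat_lit 8) (.e true (nat_lit 2) (nat_lit 184) (nat_lit 2) (nat_lit 8) (.e false (nat_lit 1) (nat_lit 187) (nat_lit 2) (nat_lit 8) (.e true (nat_lit 2) (nat_lit 189) (nat_lit 2) (nat_lit 8) (.e true (nat_lit 2) (nat_lit 190) (nat_lit 2) (nat_lit 8) (.e true (nat_lit 1) (nat_lit 191) (nat_lit 2) (nat_lit 8) (.e false (nat_lit 1) (nat_lit 195) (nat_lit 2) (nat_lit 8) (.e false (nat_lit 2) (nat_lit 182) (nat_lit 2) (nat_lit 8) (.e true (nat_lit 2) (nat_lit 185)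 (nat_lit 2) (nat_lit 8) (.e true (nat_lit 1) (nat_lit 46) (nat_lit 12) (nat_lit 3) (.e false (nat_lit 1) (nat_lit 192) (nat_lit 2) (nat_lit 8) (.u (nat_lit 2) (.p (nat_lit 0) (nat_lit 1) (.n (nat_lit 1) (nat_lit 1) (.n (nat_lit 4) (nat_lit 1) (.n (nat_lit 8) (nat_lit 1) (.p (nat_lit 60) (nat_lit 1) (.p (nat_lit 61) (nat_lit 1) (.n (nat_lit 64) (nat_lit 1) (.p (nat_lit 65) (nat_lit 1) (.p (nat_lit 66) (nat_lit 1) (.p (nat_lit 67) (nat_lit 1) (.p (nat_lit 69) (nat_lit 2) (.p (nat_lit 70) (nat_lit 2) .z)))))))))))) .nil)))))))))))))))))))))))))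

noncomputable def dC1c_i33 : IL := (.e true (nat_lit 2) (nat_lit 290) (nat_lit 0) (nat_lit 19) (.e true (nat_lit 3) (nat_lit 291) (nat_lit 0) (nat_lit 19) (.e false (nat_lit 1) (nat_lit 292) (nat_lit 0) (nat_lit 19) (.e true (nat_lit 1) (nat_lit 294) (nat_lit 0) (nat_lit 19) (.e false (nat_lit 1) (nat_lit 295) (nat_lit 0) (nat_lit 19) (.e true (nat_lit 1) (nat_lit 297) (nat_lit 0) (nat_lit 19) (.e true (nat_lit 3) (nat_lit 299) (nat_lit 0) (nat_lit 19) (.e true (nat_lit 2) (nat_lit 302) (nat_lit 0) (nat_lit 19) (.e true (nat_lit 2) (nat_lit 305) (nat_lit 0) (nat_lit 19) (.e false (nat_lit 1) (nat_lit 307) (nat_lit 0) (nat_lit 19) (.e false (nat_lit 3) (nat_lit 308) (nat_lit 0) (nat_lit 19) (.e false (nat_lit 2) (nat_lit 310) (nat_lit 0) (nat_lit 19) (.e true (nat_lit 2) (nat_lit 316) (nat_lit 0) (nat_lit 19) (.e false (nat_lit 3) (nat_lit 318) (nat_lit 0) (nat_lit 19) (.e false (nat_lit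 1) (nat_lit 319) (nat_lit 0) (nat_lit 19) (.e true (nat_lit 2) (nat_lit 304) (nat_lit 0) (nat_lit 19) (.e true (nat_lit 1) (nat_lit 309) (nat_lit 0) (nat_lit 19) (.e false (nat_lit 1) (nat_lit 293) (nat_lit 0) (nat_lit 19) (.e false (nat_lit 1) (nat_lit 296) (nat_lit 0) (nat_lit 19) (.e true (nat_lit 2) (nat_lit 300) (nat_lit 0) (nat_lit 19) (.e true (nat_lit 1) (nat_lit 43) (nat_lit 23) (nat_lit 3) (.e true (nat_lit 3) (nat_lit 298) (nat_lit 0) (nat_lit 19) (.e true (nat_lit 1) (nat_lit 312) (nat_lit 0) (nat_lit 19) (.e true (nat_lit 1) (nat_lit 317) (nat_lit 0) (nat_lit 19) (.u (nat_lit 2) (.n (nat_lit 0) (nat_lit 1) (.n (nat_lit 2) (nat_lit 1) (.n (nat_lit 4) (nat_lit 1) (.n (nat_lit 5) (nat_lit 1) (.n (nat_lit 8) (nat_lit 2) (.n (nat_lit 9) (nat_lit 1) (.n (nat_lit 10) (nat_lit 1) (.p (nat_lit 15) (nat_lit 2) (.p (nat_lit 17) (nat_lit 1) (.n (nat_lit 20) (nat_lit 1) (.n (nat_lit 26)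 (nat_lit 2) (.p (nat_lit 406) (nat_lit 1) (.p (nat_lit 409) (nat_lit 1) (.n (nat_lit 410) (nat_lit 1) (.p (nat_lit 419) (nat_lit 1) (.n (nat_lit 420) (nat_lit 1) (.n (nat_lit 428) (nat_lit 1) .z))))))))))))))))) .nil)))))))))))))))))))))))))

noncomputable def dC1c_i34 : IL := (.e true (nat_lit 1) (nat_lit 294) (nat_lit 2) (nat_lit 13) (.e false (nat_lit 1) (nat_lit 296) (nat_lit 2) (nat_lit 13) (.e true (nat_lit 2) (nat_lit 297) (nat_lit 2) (nat_lit 13) (.e true (nat_lit 1) (nat_lit 298) (nat_lit 2) (nat_lit 13) (.e false (nat_lit 1) (nat_lit 299) (nat_lit 2) (nat_lit 13) (.e false (nat_lit 3) (nat_lit 300) (nat_lit 2) (nat_lit 13) (.e false (nat_lit 3) (nat_lit 301) (nat_lit 2) (nat_lit 13) (.e false (nat_lit 1) (nat_lit 302) (nat_lit 2) (nat_lit 13) (.e true (nat_lit 1) (nat_lit 304) (nat_lit 2) (nat_lit 13) (.e false (nat_lit 3) (nat_lit 305) (nat_lit 2) (nat_lit 13) (.e true (nat_lit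 1) (nat_lit 308) (nat_lit 2) (nat_lit 13) (.e false (nat_lit 3) (nat_lit 310) (nat_lit 2) (nat_lit 13) (.e true (nat_lit 1) (nat_lit 311) (nat_lit 2) (nat_lit 13) (.e false (nat_lit 1) (nat_lit 313) (nat_lit 2) (nat_lit 13) (.e true (nat_lit 3) (nat_lit 316) (nat_lit 2) (nat_lit 13) (.e true (nat_lit 3) (nat_lit 317) (nat_lit 2) (nat_lit 13) (.e true (nat_lit 1) (nat_lit 318) (nat_lit 2) (nat_lit 13) (.e true (nat_lit 1) (nat_lit 87) (nat_lit 16) (nat_lit 4) (.e true (nat_lit 3) (nat_lit 347) (nat_lit 0) (nat_lit 15) (.e false (nat_lit 2) (nat_lit 348) (nat_lit 0) (nat_lit 15) (.e false (nat_lit 2) (nat_lit 349) (nat_lit 0) (nat_lit 15) (.e true (nat_lit 2) (nat_lit 350) (nat_lit 0) (nat_lit 15) (.e false (nat_lit 3) (nat_lit 352) (nat_lit 0) (nat_lit 15) (.e true (nat_lit 3) (nat_lit 354) (nat_lit 0) (nat_lit 15) (.u (nat_lit 2) (.p (nat_lit 0) (nat_lit 2) (.p (nat_lit 1) (nat_lit 1)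 (.p (nat_lit 2) (nat_lit 2) (.n (nat_lit 3) (nat_lit 1) (.p (nat_lit 4) (nat_lit 2) (.p (nat_lit 5) (nat_lit 3) (.p (nat_lit 7) (nat_lit 3) (.p (nat_lit 8) (nat_lit 4) (.p (nat_lit 9) (nat_lit 3) (.n (nat_lit 10) (nat_lit 6) (.n (nat_lit 11) (nat_lit 2) (.p (nat_lit 12) (nat_lit 2) (.n (nat_lit 13) (nat_lit 2) (.n (nat_lit 14) (nat_lit 3) (.p (nat_lit 15) (nat_lit 2) (.p (nat_lit 16) (nat_lit 1) (.p (nat_lit 17) (nat_lit 2) (.n (nat_lit 18) (nat_lit 1) (.n (nat_lit 19) (nat_lit 3) (.p (nat_lit 20) (nat_lit 1) (.n (nat_lit 21) (nat_lit 2) (.n (nat_lit 22) (nat_lit 1) (.n (nat_lit 23) (nat_lit 1) (.p (nat_lit 24) (nat_lit 1) (.p (nat_lit 26) (nat_lit 1) (.p (nat_lit 27) (nat_lit 1) (.n (nat_lit 33) (nat_lit 3) .z))))))))))))))))))))))))))) .nil)))))))))))))))))))))))))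

noncomputable def dC1c_i35 : IL := (.e true (nat_lit 2) (nat_lit 56) (nat_lit 6) (nat_lit 6) (.e true (nat_lit 1) (nat_lit 57) (nat_lit 6) (nat_lit 6) (.e false (nat_lit 2) (nat_lit 62) (nat_lit 6) (nat_lit 6) (.e true (nat_lit 2) (nat_lit 65) (nat_lit 6) (nat_lit 6) (.e true (nat_lit 2) (nat_lit 132) (nat_lit 2) (nat_lit 10) (.e false (nat_lit 1) (nat_lit 133) (nat_lit 2) (nat_lit 10) (.e false (nat_lit 2) (nat_lit 134) (nat_lit 2) (nat_lit 10) (.e true (nat_lit 3) (nat_lit 135) (nat_lit 2) (nat_lit 10) (.e true (nat_lit 3) (nat_lit 138) (nat_lit 2) (nat_lit 10) (.e true (nat_lit 3) (nat_lit 142) (nat_lit 2) (nat_lit 10) (.e false (nat_lit 1) (nat_lit 144) (nat_lit 2) (nat_lit 10) (.e false (nat_lit 1) (nat_lit 145) (nat_lit 2) (nat_lit 10) (.e true (nat_lit 1) (nat_lit 152) (nat_lit 2) (nat_lit 10) (.e true (nat_lit 2) (nat_lit 147) (nat_lit 2) (nat_lit 10) (.e true (nat_lit 1) (nat_lit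 151) (nat_lit 2) (nat_lit 10) (.e true (nat_lit 3) (nat_lit 137) (nat_lit 2) (nat_lit 10) (.e true (nat_lit 3) (nat_lit 140) (nat_lit 2) (nat_lit 10) (.e false (nat_lit 1) (nat_lit 146) (nat_lit 2) (nat_lit 10) (.e true (nat_lit 3) (nat_lit 149) (nat_lit 2) (nat_lit 10) (.e false (nat_lit 1) (nat_lit 150) (nat_lit 2) (nat_lit 10) (.e true (nat_lit 3) (nat_lit 143) (nat_lit 2) (nat_lit 10) (.e false (nat_lit 2) (nat_lit 31) (nat_lit 15) (nat_lit 2) (.e true (nat_lit 1) (nat_lit 188) (nat_lit 0) (nat_lit 12) (.e false (nat_lit 1) (nat_lit 136) (nat_lit 2) (nat_lit 10) (.u (nat_lit 2) (.p (nat_lit 1) (nat_lit 1) (.p (nat_lit 2) (nat_lit 1) (.p (nat_lit 4) (nat_lit 1) (.p (nat_lit 5) (nat_lit 1) (.n (nat_lit 6) (nat_lit 1) (.n (nat_lit 8) (nat_lit 1) (.n (nat_lit 17) (nat_lit 1) (.n (nat_lit 19) (nat_lit 1) (.p (nat_lit 20) (nat_lit 1) (.n (nat_lit 28) (nat_lit 1) (.p (nat_lit 67) (nat_lit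 1) (.p (nat_lit 96) (nat_lit 2) (.n (nat_lit 97) (nat_lit 2) (.n (nat_lit 99) (nat_lit 1) (.n (nat_lit 100) (nat_lit 1) (.p (nat_lit 101) (nat_lit 2) (.p (nat_lit 102) (nat_lit 1) (.n (nat_lit 103) (nat_lit 2) (.n (nat_lit 104) (nat_lit 2) (.p (nat_lit 106) (nat_lit 3) (.n (nat_lit 108) (nat_lit 1) (.p (nat_lit 109) (nat_lit 2) (.n (nat_lit 115) (nat_lit 1) (.p (nat_lit 116) (nat_lit 1) .z)))))))))))))))))))))))) .nil)))))))))))))))))))))))))

noncomputable def dC1c_i36 : IL := (.e true (nat_lit 1) (nat_lit 233) (nat_lit 2) (nat_lit 17) (.e true (nat_lit 2) (nat_lit 234) (nat_lit 2) (nat_lit 17) (.e true (nat_lit 1) (nat_lit 236) (nat_lit 2) (nat_lit 17) (.e true (nat_lit 1) (nat_lit 237) (nat_lit 2) (nat_lit 17) (.e true (nat_lit 1) (nat_lit 238) (nat_lit 2) (nat_lit 17) (.e false (nat_lit 3) (nat_lit 239) (nat_lit 2) (nat_lit 17) (.e true (nat_lit 3) (nat_lit 240) (nat_lit 2) (nat_lit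 17) (.e true (nat_lit 2) (nat_lit 241) (nat_lit 2) (nat_lit 17) (.e false (nat_lit 3) (nat_lit 242) (nat_lit 2) (nat_lit 17) (.e true (nat_lit 3) (nat_lit 244) (nat_lit 2) (nat_lit 17) (.e false (nat_lit 3) (nat_lit 246) (nat_lit 2) (nat_lit 17) (.e false (nat_lit 2) (nat_lit 249) (nat_lit 2) (nat_lit 17) (.e false (nat_lit 3) (nat_lit 250) (nat_lit 2) (nat_lit 17) (.e true (nat_lit 2) (nat_lit 251) (nat_lit 2) (nat_lit 17) (.e false (nat_lit 1) (nat_lit 252) (nat_lit 2) (nat_lit 17) (.e false (nat_lit 3) (nat_lit 253) (nat_lit 2) (nat_lit 17) (.e false (nat_lit 2) (nat_lit 258) (nat_lit 2) (nat_lit 17) (.e true (nat_lit 3) (nat_lit 220) (nat_lit 2) (nat_lit 17) (.e true (nat_lit 3) (nat_lit 232) (nat_lit 2) (nat_lit 17) (.e false (nat_lit 3) (nat_lit 243) (nat_lit 2) (nat_lit 17) (.e true (nat_lit 3) (nat_lit 245) (nat_lit 2) (nat_lit 17) (.e true (nat_lit 3) (nat_lit 248) (nat_lit 2)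 (nat_lit 17) (.e true (nat_lit 3) (nat_lit 235) (nat_lit 2) (nat_lit 17) (.u (nat_lit 2) (.n (nat_lit 0) (nat_lit 3) (.n (nat_lit 1) (nat_lit 2) (.p (nat_lit 3) (nat_lit 3) (.p (nat_lit 4) (nat_lit 1) (.n (nat_lit 5) (nat_lit 2) (.p (nat_lit 6) (nat_lit 1) (.p (nat_lit 7) (nat_lit 3) (.n (nat_lit 8) (nat_lit 2) (.p (nat_lit 9) (nat_lit 2) (.p (nat_lit 10) (nat_lit 2) (.p (nat_lit 11) (nat_lit 2) (.n (nat_lit 12) (nat_lit 5) (.p (nat_lit 17) (nat_lit 1) (.p (nat_lit 18) (nat_lit 4) (.n (nat_lit 19) (nat_lit 1) (.n (nat_lit 20) (nat_lit 7) (.p (nat_lit 21) (nat_lit 1) (.p (nat_lit 27) (nat_lit 2) (.n (nat_lit 28) (nat_lit 2) (.p (nat_lit 29) (nat_lit 2) (.n (nat_lit 30) (nat_lit 1) (.p (nat_lit 31) (nat_lit 3) (.p (nat_lit 33) (nat_lit 1) (.p (nat_lit 34) (nat_lit 2) (.n (nat_lit 35) (nat_lit 2) (.n (nat_lit 36) (nat_lit 3) (.n (nat_lit 37) (nat_lit 1) (.n (nat_lit 38) (nat_lit 3) (.p (nat_lit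 39) (nat_lit 1) (.p (nat_lit 40) (nat_lit 1) (.p (nat_lit 41) (nat_lit 5) (.n (nat_lit 49) (nat_lit 4) (.n (nat_lit 50) (nat_lit 1) (.p (nat_lit 51) (nat_lit 2) (.p (nat_lit 52) (nat_lit 1) (.p (nat_lit 53) (nat_lit 1) (.p (nat_lit 54) (nat_lit 3) (.n (nat_lit 56) (nat_lit 3) (.p (nat_lit 58) (nat_lit 1) (.n (nat_lit 59) (nat_lit 1) (.n (nat_lit 60) (nat_lit 1) (.p (nat_lit 62) (nat_lit 1) (.n (nat_lit 63) (nat_lit 1) (.p (nat_lit 64) (nat_lit 2) (.p (nat_lit 65) (nat_lit 1) (.n (nat_lit 66) (nat_lit 1) (.n (nat_lit 67) (nat_lit 2) (.n (nat_lit 68) (nat_lit 1) (.n (nat_lit 69) (nat_lit 1) (.n (nat_lit 70) (nat_lit 1) (.n (nat_lit 71) (nat_lit 1) (.p (nat_lit 328) (nat_lit 1) (.n (nat_lit 329) (nat_lit 1) (.n (nat_lit 330) (nat_lit 2) (.p (nat_lit 332) (nat_lit 3) (.n (nat_lit 333) (nat_lit 3) (.p (nat_lit 334) (nat_lit 3) (.n (nat_lit 335) (nat_lit 2) (.p (nat_lit 336) (nat_lit 1) (.p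 (nat_lit 337) (nat_lit 2) .z)))))))))))))))))))))))))))))))))))))))))))))))))))))))))))) (.u (nat_lit 2) (.p (nat_lit 338) (nat_lit 1) (.n (nat_lit 339) (nat_lit 3) (.n (nat_lit 340) (nat_lit 1) (.n (nat_lit 341) (nat_lit 1) (.n (nat_lit 342) (nat_lit 2) (.n (nat_lit 343) (nat_lit 1) (.p (nat_lit 344) (nat_lit 1) (.p (nat_lit 345) (nat_lit 1) (.p (nat_lit 346) (nat_lit 4) (.n (nat_lit 347) (nat_lit 1) (.p (nat_lit 348) (nat_lit 1) (.p (nat_lit 349) (nat_lit 3) (.n (nat_lit 351) (nat_lit 1) (.n (nat_lit 352) (nat_lit 2) (.n (nat_lit 353) (nat_lit 1) (.n (nat_lit 354) (nat_lit 1) (.p (nat_lit 355) (nat_lit 2) (.n (nat_lit 356) (nat_lit 1) (.p (nat_lit 357) (nat_lit 1) (.n (nat_lit 359) (nat_lit 4) (.n (nat_lit 360) (nat_lit 1) (.p (nat_lit 361) (nat_lit 1) (.p (nat_lit 363) (nat_lit 5) (.n (nat_lit 365) (nat_lit 1) (.p (nat_lit 367) (nat_lit 1) (.p (nat_lit 369) (nat_lit 1) (.p (nat_lit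 371) (nat_lit 1) (.n (nat_lit 372) (nat_lit 1) (.p (nat_lit 373) (nat_lit 1) .z))))))))))))))))))))))))))))) .nil)))))))))))))))))))))))))

noncomputable def dC1c_i37 : IL := (.e true (nat_lit 1) (nat_lit 271) (nat_lit 1) (nat_lit 18) (.e true (nat_lit 2) (nat_lit 272) (nat_lit 1) (nat_lit 18) (.e true (nat_lit 1) (nat_lit 273) (nat_lit 1) (nat_lit 18) (.e false (nat_lit 1) (nat_lit 274) (nat_lit 1) (nat_lit 18) (.e true (nat_lit 2) (nat_lit 275) (nat_lit 1) (nat_lit 18) (.e true (nat_lit 1) (nat_lit 277) (nat_lit 1) (nat_lit 18) (.e true (nat_lit 1) (nat_lit 278) (nat_lit 1) (nat_lit 18) (.e true (nat_lit 2) (nat_lit 279) (nat_lit 1) (nat_lit 18) (.e true (nat_lit 3) (nat_lit 280) (nat_lit 1) (nat_lit 18) (.e false (nat_lit 2) (nat_lit 290) (nat_lit 0) (nat_lit 19) (.e true (nat_lit 2) (nat_lit 291) (nat_lit 0) (nat_lit 19) (.e true (nat_lit 1) (nat_lit 292) (nat_lit 0) (nat_lit 19)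 (.e false (nat_lit 1) (nat_lit 293) (nat_lit 0) (nat_lit 19) (.e false (nat_lit 1) (nat_lit 294) (nat_lit 0) (nat_lit 19) (.e false (nat_lit 1) (nat_lit 299) (nat_lit 0) (nat_lit 19) (.e true (nat_lit 2) (nat_lit 301) (nat_lit 0) (nat_lit 19) (.e false (nat_lit 3) (nat_lit 304) (nat_lit 0) (nat_lit 19) (.e true (nat_lit 2) (nat_lit 307) (nat_lit 0) (nat_lit 19) (.e false (nat_lit 2) (nat_lit 308) (nat_lit 0) (nat_lit 19) (.e false (nat_lit 1) (nat_lit 310) (nat_lit 0) (nat_lit 19) (.e false (nat_lit 1) (nat_lit 311) (nat_lit 0) (nat_lit 19) (.e false (nat_lit 1) (nat_lit 317) (nat_lit 0) (nat_lit 19) (.e false (nat_lit 1) (nat_lit 319) (nat_lit 0) (nat_lit 19) (.e false (nat_lit 1) (nat_lit 226) (nat_lit 2) (nat_lit 17) (.u (nat_lit 2) (.p (nat_lit 0) (nat_lit 3) (.n (nat_lit 2) (nat_lit 1) (.p (nat_lit 3) (nat_lit 1) (.p (nat_lit 4) (nat_lit 1) (.n (nat_lit 8) (nat_lit 1) (.p (nat_lit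 9) (nat_lit 1) (.p (nat_lit 11) (nat_lit 1) (.p (nat_lit 12) (nat_lit 1) (.p (nat_lit 14) (nat_lit 1) (.n (nat_lit 17) (nat_lit 1) (.n (nat_lit 18) (nat_lit 1) (.n (nat_lit 19) (nat_lit 1) (.n (nat_lit 26) (nat_lit 1) (.p (nat_lit 27) (nat_lit 2) (.p (nat_lit 30) (nat_lit 1) (.n (nat_lit 31) (nat_lit 1) (.p (nat_lit 32) (nat_lit 1) (.n (nat_lit 34) (nat_lit 1) (.p (nat_lit 35) (nat_lit 1) (.p (nat_lit 36) (nat_lit 2) (.n (nat_lit 39) (nat_lit 1) (.n (nat_lit 40) (nat_lit 1) .z)))))))))))))))))))))) .nil)))))))))))))))))))))))))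

noncomputable def dC1c_i38 : IL := (.e true (nat_lit 3) (nat_lit 242) (nat_lit 2) (nat_lit 17) (.e true (nat_lit 2) (nat_lit 243) (nat_lit 2) (nat_lit 17) (.e false (nat_lit 3) (nat_lit 244) (nat_lit 2) (nat_lit 17) (.e false (nat_lit 2) (nat_lit 245) (nat_lit 2) (nat_lit 17) (.e false (nat_lit 2) (nat_lit 246) (nat_lit 2) (nat_lit 17) (.e false (nat_lit 2) (nat_lit 248) (nat_lit 2) (nat_lit 17) (.e false (nat_lit 1) (nat_lit 260) (nat_lit 1) (nat_lit 18) (.e false (nat_lit 1) (nat_lit 262) (nat_lit 1) (nat_lit 18) (.e false (nat_lit 2) (nat_lit 263) (nat_lit 1) (nat_lit 18) (.e true (nat_lit 3) (nat_lit 264) (nat_lit 1) (nat_lit 18) (.e true (nat_lit 2) (nat_lit 265) (nat_lit 1) (nat_lit 18) (.e true (nat_lit 3) (nat_lit 266) (nat_lit 1) (nat_lit 18) (.e false (nat_lit 1) (nat_lit 267) (nat_lit 1) (nat_lit 18) (.e true (nat_lit 3) (nat_lit 269) (nat_lit 1) (nat_lit 18) (.e true (nat_lit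 1) (nat_lit 270) (nat_lit 1) (nat_lit 18) (.e true (nat_lit 1) (nat_lit 271) (nat_lit 1) (nat_lit 18) (.e true (nat_lit 2) (nat_lit 272) (nat_lit 1) (nat_lit 18) (.e true (nat_lit 1) (nat_lit 273) (nat_lit 1) (nat_lit 18) (.e false (nat_lit 1) (nat_lit 274) (nat_lit 1) (nat_lit 18) (.e true (nat_lit 2) (nat_lit 275) (nat_lit 1) (nat_lit 18) (.e true (nat_lit 1) (nat_lit 277) (nat_lit 1) (nat_lit 18) (.e true (nat_lit 1) (nat_lit 278) (nat_lit 1) (nat_lit 18) (.e true (nat_lit 2) (nat_lit 279) (nat_lit 1) (nat_lit 18) (.e true (nat_lit 3) (nat_lit 280) (nat_lit 1) (nat_lit 18) (.u (nat_lit 2) (.p (nat_lit 0) (nat_lit 2) (.p (nat_lit 1) (nat_lit 1) (.n (nat_lit 2) (nat_lit 4) (.p (nat_lit 3) (nat_lit 1) (.p (nat_lit 4) (nat_lit 2) (.p (nat_lit 5) (nat_lit 1) (.p (nat_lit 6) (nat_lit 1) (.n (nat_lit 7) (nat_lit 1) (.p (nat_lit 8) (nat_lit 3) (.p (nat_lit 9) (nat_lit 3) (.p (nat_lit 10) (nat_lit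 3) (.n (nat_lit 11) (nat_lit 1) (.p (nat_lit 12) (nat_lit 4) (.p (nat_lit 13) (nat_lit 2) (.p (nat_lit 14) (nat_lit 6) (.n (nat_lit 15) (nat_lit 2) (.p (nat_lit 17) (nat_lit 1) (.p (nat_lit 18) (nat_lit 2) (.n (nat_lit 19) (nat_lit 3) (.n (nat_lit 20) (nat_lit 4) (.n (nat_lit 26) (nat_lit 2) (.n (nat_lit 27) (nat_lit 3) (.n (nat_lit 28) (nat_lit 2) (.p (nat_lit 30) (nat_lit 2) (.p (nat_lit 31) (nat_lit 2) (.n (nat_lit 32) (nat_lit 1) (.p (nat_lit 33) (nat_lit 4) (.n (nat_lit 34) (nat_lit 1) (.n (nat_lit 35) (nat_lit 2) (.p (nat_lit 36) (nat_lit 3) (.n (nat_lit 37) (nat_lit 1) (.n (nat_lit 38) (nat_lit 1) (.n (nat_lit 39) (nat_lit 12) (.p (nat_lit 40) (nat_lit 1) (.n (nat_lit 41) (nat_lit 2) (.p (nat_lit 50) (nat_lit 2) (.p (nat_lit 54) (nat_lit 1) (.n (nat_lit 55) (nat_lit 1) (.n (nat_lit 56) (nat_lit 1) (.p (nat_lit 57) (nat_lit 2) (.n (nat_lit 58) (nat_lit 2) (.n (nat_lit 60) (nat_lit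 2) (.p (nat_lit 62) (nat_lit 1) (.p (nat_lit 64) (nat_lit 1) (.n (nat_lit 69) (nat_lit 1) .z))))))))))))))))))))))))))))))))))))))))))))) .nil)))))))))))))))))))))))))

noncomputable def dC1c_i39 : IL := (.e false (nat_lit 1) (nat_lit 317) (nat_lit 0) (nat_lit 19) (.e false (nat_lit 1) (nat_lit 319) (nat_lit 0) (nat_lit 19) (.e true (nat_lit 3) (nat_lit 212) (nat_lit 2) (nat_lit 17) (.e false (nat_lit 3) (nat_lit 213) (nat_lit 2) (nat_lit 17) (.e false (nat_lit 3) (nat_lit 214) (nat_lit 2) (nat_lit 17) (.e true (nat_lit 3) (nat_lit 215) (nat_lit 2) (nat_lit 17) (.e false (nat_lit 1) (nat_lit 216) (nat_lit 2) (nat_lit 17) (.e true (nat_lit 2) (nat_lit 218) (nat_lit 2) (nat_lit 17) (.e false (nat_lit 2) (nat_lit 219) (nat_lit 2) (nat_lit 17) (.e true (nat_lit 3) (nat_lit 221) (nat_lit 2) (nat_lit 17) (.e true (nat_lit 3) (nat_lit 222) (nat_lit 2) (nat_lit 17) (.e true (nat_lit 1) (nat_lit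 223) (nat_lit 2) (nat_lit 17) (.e true (nat_lit 3) (nat_lit 226) (nat_lit 2) (nat_lit 17) (.e true (nat_lit 2) (nat_lit 229) (nat_lit 2) (nat_lit 17) (.e true (nat_lit 1) (nat_lit 231) (nat_lit 2) (nat_lit 17) (.e true (nat_lit 1) (nat_lit 232) (nat_lit 2) (nat_lit 17) (.e false (nat_lit 1) (nat_lit 233) (nat_lit 2) (nat_lit 17) (.e false (nat_lit 3) (nat_lit 234) (nat_lit 2) (nat_lit 17) (.e true (nat_lit 3) (nat_lit 235) (nat_lit 2) (nat_lit 17) (.e false (nat_lit 3) (nat_lit 236) (nat_lit 2) (nat_lit 17) (.e false (nat_lit 3) (nat_lit 237) (nat_lit 2) (nat_lit 17) (.e false (nat_lit 1) (nat_lit 238) (nat_lit 2) (nat_lit 17) (.e false (nat_lit 1) (nat_lit 239) (nat_lit 2) (nat_lit 17) (.e false (nat_lit 2) (nat_lit 240) (nat_lit 2) (nat_lit 17) (.e true (nat_lit 3) (nat_lit 241) (nat_lit 2) (nat_lit 17) dC1c_i38)))))))))))))))))))))))))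

noncomputable def dC1c_i40 : IL := (.e false (nat_lit 3) (nat_lit 263) (nat_lit 2) (nat_lit 13) (.e false (nat_lit 1) (nat_lit 41) (nat_lit 31) (nat_lit 0) (.e false (nat_lit 1) (nat_lit 277) (nat_lit 2) (nat_lit 13) (.e false (nat_lit 3) (nat_lit 100) (nat_lit 10) (nat_lit 6) (.e true (nat_lit 1) (nat_lit 268) (nat_lit 2) (nat_lit 13) (.e true (nat_lit 3) (nat_lit 286) (nat_lit 2) (nat_lit 13) (.e true (nat_lit 2) (nat_lit 139) (nat_lit 6) (nat_lit 9) (.e false (nat_lit 2) (nat_lit 42) (nat_lit 31) (nat_lit 0) (.e true (nat_lit 1) (nat_lit 328) (nat_lit 0) (nat_lit 15) (.e false (nat_lit 3) (nat_lit 329) (nat_lit 0) (nat_lit 15) (.e true (nat_lit 3) (nat_lit 330) (nat_lit 0) (nat_lit 15) (.e false (nat_lit 2) (nat_lit 331) (nat_lit 0) (nat_lit 15) (.e false (nat_lit 3) (nat_lit 332) (nat_lit 0) (nat_lit 15) (.e false (nat_lit 1) (nat_lit 333) (nat_lit 0) (nat_lit 15) (.e true (nat_lit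 2) (nat_lit 334) (nat_lit 0) (nat_lit 15) (.e true (nat_lit 2) (nat_lit 335) (nat_lit 0) (nat_lit 15) (.e false (nat_lit 2) (nat_lit 336) (nat_lit 0) (nat_lit 15) (.e true (nat_lit 3) (nat_lit 337) (nat_lit 0) (nat_lit 15) (.e false (nat_lit 2) (nat_lit 340) (nat_lit 0) (nat_lit 15) (.e true (nat_lit 2) (nat_lit 344) (nat_lit 0) (nat_lit 15) (.e false (nat_lit 2) (nat_lit 345) (nat_lit 0) (nat_lit 15) (.e true (nat_lit 1) (nat_lit 204) (nat_lit 3) (nat_lit 12) (.e false (nat_lit 1) (nat_lit 205) (nat_lit 3) (nat_lit 12) (.e false (nat_lit 2) (nat_lit 206) (nat_lit 3) (nat_lit 12) (.u (nat_lit 2) (.p (nat_lit 1) (nat_lit 2) (.n (nat_lit 2) (nat_lit 4) (.n (nat_lit 3) (nat_lit 2) (.p (nat_lit 4) (nat_lit 3) (.p (nat_lit 5) (nat_lit 4) (.n (nat_lit 6) (nat_lit 1) (.n (nat_lit 7) (nat_lit 1) (.n (nat_lit 8) (nat_lit 4) (.n (nat_lit 9) (nat_lit 6) (.p (nat_lit 10) (nat_lit 1) (.n (nat_lit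 12) (nat_lit 6) (.n (nat_lit 13) (nat_lit 5) (.p (nat_lit 15) (nat_lit 1) (.p (nat_lit 16) (nat_lit 5) (.p (nat_lit 17) (nat_lit 2) (.p (nat_lit 18) (nat_lit 4) (.p (nat_lit 19) (nat_lit 3) (.p (nat_lit 20) (nat_lit 1) (.n (nat_lit 22) (nat_lit 1) (.n (nat_lit 23) (nat_lit 1) (.p (nat_lit 24) (nat_lit 1) (.n (nat_lit 25) (nat_lit 1) (.p (nat_lit 27) (nat_lit 1) (.n (nat_lit 30) (nat_lit 1) (.p (nat_lit 33) (nat_lit 2) (.n (nat_lit 109) (nat_lit 1) (.n (nat_lit 110) (nat_lit 1) (.n (nat_lit 169) (nat_lit 1) (.n (nat_lit 170) (nat_lit 1) (.p (nat_lit 173) (nat_lit 2) (.n (nat_lit 174) (nat_lit 1) (.p (nat_lit 175) (nat_lit 2) (.n (nat_lit 176) (nat_lit 4) (.n (nat_lit 177) (nat_lit 1) (.n (nat_lit 180) (nat_lit 3) (.n (nat_lit 181) (nat_lit 2) (.n (nat_lit 182) (nat_lit 3) (.p (nat_lit 183) (nat_lit 3) (.n (nat_lit 185) (nat_lit 2) (.n (nat_lit 187) (nat_lit 1) (.n (nat_lit 190) (nat_lit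 3) (.n (nat_lit 191) (nat_lit 1) (.n (nat_lit 192) (nat_lit 4) (.n (nat_lit 193) (nat_lit 2) (.p (nat_lit 194) (nat_lit 1) (.p (nat_lit 196) (nat_lit 2) (.n (nat_lit 199) (nat_lit 1) (.n (nat_lit 200) (nat_lit 1) (.n (nat_lit 202) (nat_lit 1) (.p (nat_lit 211) (nat_lit 1) (.n (nat_lit 212) (nat_lit 1) (.p (nat_lit 213) (nat_lit 1) (.n (nat_lit 215) (nat_lit 1) (.n (nat_lit 216) (nat_lit 1) (.p (nat_lit 220) (nat_lit 1) .z))))))))))))))))))))))))))))))))))))))))))))))))))))))) .nil)))))))))))))))))))))))))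

noncomputable def dC1c_i41 : IL := (.e false (nat_lit 1) (nat_lit 336) (nat_lit 0) (nat_lit 15) (.e true (nat_lit 1) (nat_lit 260) (nat_lit 2) (nat_lit 13) (.e true (nat_lit 2) (nat_lit 261) (nat_lit 2) (nat_lit 13) (.e false (nat_lit 3) (nat_lit 262) (nat_lit 2) (nat_lit 13) (.e false (nat_lit 3) (nat_lit 263) (nat_lit 2) (nat_lit 13) (.e false (nat_lit 3) (nat_lit 264) (nat_lit 2) (nat_lit 13) (.e true (nat_lit 1) (nat_lit 265) (nat_lit 2) (nat_lit 13) (.e false (nat_lit 2) (nat_lit 268) (nat_lit 2) (nat_lit 13) (.e false (nat_lit 3) (nat_lit 270) (nat_lit 2) (nat_lit 13) (.e false (nat_lit 3) (nat_lit 271) (nat_lit 2) (nat_lit 13) (.e true (nat_lit 3) (nat_lit 273) (nat_lit 2) (nat_lit 13) (.e false (nat_lit 2) (nat_lit 274) (nat_lit 2) (nat_lit 13) (.e false (nat_lit 3) (nat_lit 275) (nat_lit 2) (nat_lit 13) (.e false (nat_lit 3) (nat_lit 277) (nat_lit 2) (nat_lit 13) (.e false (nat_lit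 3) (nat_lit 278) (nat_lit 2) (nat_lit 13) (.e false (nat_lit 2) (nat_lit 280) (nat_lit 2) (nat_lit 13) (.e false (nat_lit 1) (nat_lit 281) (nat_lit 2) (nat_lit 13) (.e false (nat_lit 2) (nat_lit 283) (nat_lit 2) (nat_lit 13) (.e true (nat_lit 1) (nat_lit 286) (nat_lit 2) (nat_lit 13) (.e true (nat_lit 1) (nat_lit 287) (nat_lit 2) (nat_lit 13) (.e false (nat_lit 1) (nat_lit 288) (nat_lit 2) (nat_lit 13) (.e true (nat_lit 1) (nat_lit 289) (nat_lit 2) (nat_lit 13) (.e true (nat_lit 2) (nat_lit 272) (nat_lit 2) (nat_lit 13) (.e true (nat_lit 2) (nat_lit 279) (nat_lit 2) (nat_lit 13) (.u (nat_lit 2) (.p (nat_lit 0) (nat_lit 3) (.n (nat_lit 2) (nat_lit 1) (.p (nat_lit 3) (nat_lit 2) (.p (nat_lit 4) (nat_lit 2) (.n (nat_lit 5) (nat_lit 1) (.p (nat_lit 8) (nat_lit 3) (.n (nat_lit 9) (nat_lit 1) (.p (nat_lit 10) (nat_lit 1) (.n (nat_lit 13) (nat_lit 2) (.n (nat_lit 15) (nat_lit 3) (.p (nat_lit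 16) (nat_lit 1) (.p (nat_lit 17) (nat_lit 2) (.n (nat_lit 19) (nat_lit 2) (.p (nat_lit 20) (nat_lit 1) (.p (nat_lit 21) (nat_lit 1) (.n (nat_lit 22) (nat_lit 1) (.p (nat_lit 23) (nat_lit 1) (.n (nat_lit 24) (nat_lit 1) (.p (nat_lit 25) (nat_lit 1) (.n (nat_lit 27) (nat_lit 2) (.n (nat_lit 28) (nat_lit 1) (.p (nat_lit 30) (nat_lit 2) (.p (nat_lit 33) (nat_lit 2) (.n (nat_lit 177) (nat_lit 1) (.n (nat_lit 183) (nat_lit 1) (.n (nat_lit 184) (nat_lit 1) (.n (nat_lit 188) (nat_lit 1) (.n (nat_lit 190) (nat_lit 1) (.n (nat_lit 191) (nat_lit 1) (.n (nat_lit 193) (nat_lit 1) .z)))))))))))))))))))))))))))))) .nil)))))))))))))))))))))))))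

noncomputable def dC1c_i42 : IL := (.e false (nat_lit 3) (nat_lit 168) (nat_lit 0) (nat_lit 14) (.e true (nat_lit 2) (nat_lit 170) (nat_lit 0) (nat_lit 14) (.e false (nat_lit 1) (nat_lit 173) (nat_lit 0) (nat_lit 14) (.e true (nat_lit 1) (nat_lit 133) (nat_lit 1) (nat_lit 13) (.e false (nat_lit 3) (nat_lit 135) (nat_lit 1) (nat_lit 13) (.e true (nat_lit 3) (nat_lit 136) (nat_lit 1) (nat_lit 13) (.e false (nat_lit 1) (nat_lit 138) (nat_lit 1) (nat_lit 13) (.e false (nat_lit 2) (nat_lit 140) (nat_lit 1) (nat_lit 13) (.e false (nat_lit 1) (nat_lit 143) (nat_lit 1) (nat_lit 13) (.e false (nat_lit 2) (nat_lit 144) (nat_lit 1) (nat_lit 13) (.e false (nat_lit 1) (nat_lit 145) (nat_lit 1) (nat_lit 13) (.e true (nat_lit 1) (nat_lit 146) (nat_lit 1) (nat_lit 13) (.e false (nat_lit 1) (nat_lit 147) (nat_lit 1) (nat_lit 13) (.e true (nat_lit 1) (nat_lit 148) (nat_lit 1) (nat_lit 13) (.e false (nat_lit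 3) (nat_lit 149) (nat_lit 1) (nat_lit 13) (.e false (nat_lit 2) (nat_lit 150) (nat_lit 1) (nat_lit 13) (.e false (nat_lit 3) (nat_lit 151) (nat_lit 1) (nat_lit 13) (.e false (nat_lit 3) (nat_lit 152) (nat_lit 1) (nat_lit 13) (.e false (nat_lit 1) (nat_lit 60) (nat_lit 5) (nat_lit 9) (.e false (nat_lit 1) (nat_lit 167) (nat_lit 0) (nat_lit 14) (.e true (nat_lit 1) (nat_lit 19) (nat_lit 18) (nat_lit 0) (.e false (nat_lit 2) (nat_lit 42) (nat_lit 8) (nat_lit 6) (.e true (nat_lit 3) (nat_lit 139) (nat_lit 1) (nat_lit 13) (.e false (nat_lit 2) (nat_lit 141) (nat_lit 1) (nat_lit 13) (.u (nat_lit 2) (.n (nat_lit 0) (nat_lit 1) (.n (nat_lit 1) (nat_lit 3) (.p (nat_lit 3) (nat_lit 1) (.p (nat_lit 4) (nat_lit 1) (.p (nat_lit 5) (nat_lit 2) (.p (nat_lit 6) (nat_lit 1) (.n (nat_lit 7) (nat_lit 1) (.n (nat_lit 8) (nat_lit 3) (.p (nat_lit 9) (nat_lit 1) (.p (nat_lit 10) (nat_lit 1) (.p (nat_lit 11)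 (nat_lit 2) (.n (nat_lit 12) (nat_lit 2) (.p (nat_lit 14) (nat_lit 1) (.n (nat_lit 15) (nat_lit 1) (.n (nat_lit 16) (nat_lit 1) (.p (nat_lit 17) (nat_lit 1) (.p (nat_lit 19) (nat_lit 2) (.p (nat_lit 22) (nat_lit 1) (.p (nat_lit 24) (nat_lit 1) (.n (nat_lit 25) (nat_lit 4) (.p (nat_lit 27) (nat_lit 1) (.n (nat_lit 30) (nat_lit 2) (.n (nat_lit 32) (nat_lit 2) (.p (nat_lit 36) (nat_lit 2) (.p (nat_lit 44) (nat_lit 1) (.n (nat_lit 161) (nat_lit 1) (.n (nat_lit 163) (nat_lit 2) (.n (nat_lit 164) (nat_lit 2) (.p (nat_lit 167) (nat_lit 2) (.n (nat_lit 168) (nat_lit 1) (.p (nat_lit 171) (nat_lit 2) (.n (nat_lit 178) (nat_lit 1) (.p (nat_lit 180) (nat_lit 1) (.p (nat_lit 190) (nat_lit 1) .z)))))))))))))))))))))))))))))))))) .nil)))))))))))))))))))))))))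

noncomputable def dC1c_i43 : IL := (.e false (nat_lit 1) (nat_lit 73) (nat_lit 4) (nat_lit 10) (.e true (nat_lit 1) (nat_lit 28) (nat_lit 13) (nat_lit 3) (.e true (nat_lit 1) (nat_lit 29) (nat_lit 13) (nat_lit 3) (.e false (nat_lit 1) (nat_lit 30) (nat_lit 13) (nat_lit 3) (.e false (nat_lit 1) (nat_lit 116) (nat_lit 2) (nat_lit 12) (.e true (nat_lit 1) (nat_lit 119) (nat_lit 2) (nat_lit 12) (.e false (nat_lit 1) (nat_lit 130) (nat_lit 2) (nat_lit 12) (.e true (nat_lit 1) (nat_lit 158) (nat_lit 0) (nat_lit 14) (.e false (nat_lit 3) (nat_lit 159) (nat_lit 0) (nat_lit 14) (.e true (nat_lit 3) (nat_lit 163) (nat_lit 0) (nat_lit 14) (.e false (nat_lit 1) (nat_lit 82) (nat_lit 3) (nat_lit 11) (.e false (nat_lit 1) (nat_lit 83) (nat_lit 3) (nat_lit 11) (.e true (nat_lit 1) (nat_lit 89) (nat_lit 3) (nat_lit 11) (.e false (nat_lit 1) (nat_lit 92) (nat_lit 3) (nat_lit 11) (.e false (nat_lit 2)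 (nat_lit 153) (nat_lit 0) (nat_lit 14) (.e false (nat_lit 1) (nat_lit 154) (nat_lit 0) (nat_lit 14) (.e true (nat_lit 3) (nat_lit 155) (nat_lit 0) (nat_lit 14) (.e false (nat_lit 3) (nat_lit 156) (nat_lit 0) (nat_lit 14) (.e true (nat_lit 3) (nat_lit 157) (nat_lit 0) (nat_lit 14) (.e true (nat_lit 1) (nat_lit 160) (nat_lit 0) (nat_lit 14) (.e true (nat_lit 3) (nat_lit 161) (nat_lit 0) (nat_lit 14) (.e true (nat_lit 2) (nat_lit 162) (nat_lit 0) (nat_lit 14) (.e false (nat_lit 3) (nat_lit 164) (nat_lit 0) (nat_lit 14) (.e false (nat_lit 1) (nat_lit 165) (nat_lit 0) (nat_lit 14) (.e true (nat_lit 1) (nat_lit 166) (nat_lit 0) (nat_lit 14) dC1c_i42)))))))))))))))))))))))))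

noncomputable def dC1c_i44 : IL := (.e false (nat_lit 2) (nat_lit 284) (nat_lit 1) (nat_lit 18) (.e true (nat_lit 3) (nat_lit 286) (nat_lit 1) (nat_lit 18) (.e false (nat_lit 1) (nat_lit 287) (nat_lit 1) (nat_lit 18) (.e false (nat_lit 1) (nat_lit 288) (nat_lit 1) (nat_lit 18) (.e false (nat_lit 1) (nat_lit 290) (nat_lit 0) (nat_lit 19) (.e false (nat_lit 2) (nat_lit 291) (nat_lit 0) (nat_lit 19) (.e false (nat_lit 1) (nat_lit 292) (nat_lit 0) (nat_lit 19) (.e false (nat_lit 3) (nat_lit 293) (nat_lit 0) (nat_lit 19) (.e true (nat_lit 2) (nat_lit 294) (nat_lit 0) (nat_lit 19) (.e false (nat_lit 3) (nat_lit 295) (nat_lit 0) (nat_lit 19) (.e false (nat_lit 3) (nat_lit 296) (nat_lit 0) (nat_lit 19) (.e true (nat_lit 3) (nat_lit 297) (nat_lit 0) (nat_lit 19) (.e true (nat_lit 3) (nat_lit 299) (nat_lit 0) (nat_lit 19) (.e true (nat_lit 2) (nat_lit 300) (nat_lit 0) (nat_lit 19) (.e false (nat_lit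 3) (nat_lit 301) (nat_lit 0) (nat_lit 19) (.e true (nat_lit 3) (nat_lit 302) (nat_lit 0) (nat_lit 19) (.e true (nat_lit 2) (nat_lit 304) (nat_lit 0) (nat_lit 19) (.e true (nat_lit 2) (nat_lit 305) (nat_lit 0) (nat_lit 19) (.e false (nat_lit 3) (nat_lit 308) (nat_lit 0) (nat_lit 19) (.e false (nat_lit 1) (nat_lit 310) (nat_lit 0) (nat_lit 19) (.e true (nat_lit 1) (nat_lit 311) (nat_lit 0) (nat_lit 19) (.e true (nat_lit 2) (nat_lit 312) (nat_lit 0) (nat_lit 19) (.e false (nat_lit 1) (nat_lit 317) (nat_lit 0) (nat_lit 19) (.e false (nat_lit 1) (nat_lit 319) (nat_lit 0) (nat_lit 19) (.u (nat_lit 2) (.p (nat_lit 0) (nat_lit 3) (.n (nat_lit 1) (nat_lit 4) (.p (nat_lit 2) (nat_lit 1) (.p (nat_lit 3) (nat_lit 6) (.p (nat_lit 4) (nat_lit 8) (.p (nat_lit 5) (nat_lit 3) (.p (nat_lit 6) (nat_lit 5) (.n (nat_lit 7) (nat_lit 5) (.p (nat_lit 9) (nat_lit 1) (.p (nat_lit 10) (nat_lit 2) (.n (nat_lit 11)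 (nat_lit 8) (.n (nat_lit 12) (nat_lit 5) (.n (nat_lit 14) (nat_lit 3) (.n (nat_lit 15) (nat_lit 2) (.p (nat_lit 17) (nat_lit 4) (.p (nat_lit 18) (nat_lit 5) (.n (nat_lit 19) (nat_lit 1) (.n (nat_lit 20) (nat_lit 4) (.p (nat_lit 27) (nat_lit 1) (.n (nat_lit 28) (nat_lit 1) (.n (nat_lit 29) (nat_lit 2) (.p (nat_lit 31) (nat_lit 1) (.n (nat_lit 32) (nat_lit 1) (.p (nat_lit 33) (nat_lit 2) (.n (nat_lit 34) (nat_lit 5) (.p (nat_lit 35) (nat_lit 1) (.p (nat_lit 36) (nat_lit 1) (.n (nat_lit 37) (nat_lit 4) (.n (nat_lit 38) (nat_lit 1) (.p (nat_lit 39) (nat_lit 3) (.p (nat_lit 40) (nat_lit 4) (.n (nat_lit 41) (nat_lit 4) (.n (nat_lit 49) (nat_lit 2) (.n (nat_lit 50) (nat_lit 1) (.p (nat_lit 51) (nat_lit 1) (.n (nat_lit 53) (nat_lit 1) (.n (nat_lit 54) (nat_lit 2) (.p (nat_lit 55) (nat_lit 2) (.p (nat_lit 60) (nat_lit 1) (.n (nat_lit 64) (nat_lit 1) (.p (nat_lit 70) (nat_lit 1) .z)))))))))))))))))))))))))))))))))))))))))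 .nil)))))))))))))))))))))))))

noncomputable def dC1c_i45 : IL := (.e false (nat_lit 1) (nat_lit 145) (nat_lit 5) (nat_lit 14) (.e true (nat_lit 1) (nat_lit 146) (nat_lit 5) (nat_lit 14) (.e false (nat_lit 2) (nat_lit 148) (nat_lit 5) (nat_lit 14) (.e false (nat_lit 3) (nat_lit 149) (nat_lit 5) (nat_lit 14) (.e false (nat_lit 1) (nat_lit 151) (nat_lit 5) (nat_lit 14) (.e true (nat_lit 3) (nat_lit 152) (nat_lit 5) (nat_lit 14) (.e false (nat_lit 1) (nat_lit 227) (nat_lit 2) (nat_lit 17) (.e false (nat_lit 3) (nat_lit 260) (nat_lit 1) (nat_lit 18) (.e true (nat_lit 1) (nat_lit 261) (nat_lit 1) (nat_lit 18) (.e false (nat_lit 1) (nat_lit 262) (nat_lit 1) (nat_lit 18) (.e false (nat_lit 2) (nat_lit 263) (nat_lit 1) (nat_lit 18) (.e false (nat_lit 3) (nat_lit 265) (nat_lit 1) (nat_lit 18) (.e true (nat_lit 2) (nat_lit 266) (nat_lit 1) (nat_lit 18) (.e true (nat_lit 3) (nat_lit 267) (nat_lit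 1) (nat_lit 18) (.e false (nat_lit 1) (nat_lit 268) (nat_lit 1) (nat_lit 18) (.e false (nat_lit 2) (nat_lit 269) (nat_lit 1) (nat_lit 18) (.e true (nat_lit 1) (nat_lit 271) (nat_lit 1) (nat_lit 18) (.e false (nat_lit 3) (nat_lit 272) (nat_lit 1) (nat_lit 18) (.e false (nat_lit 3) (nat_lit 273) (nat_lit 1) (nat_lit 18) (.e false (nat_lit 3) (nat_lit 274) (nat_lit 1) (nat_lit 18) (.e true (nat_lit 2) (nat_lit 276) (nat_lit 1) (nat_lit 18) (.e true (nat_lit 2) (nat_lit 277) (nat_lit 1) (nat_lit 18) (.e true (nat_lit 2) (nat_lit 278) (nat_lit 1) (nat_lit 18) (.e false (nat_lit 1) (nat_lit 279) (nat_lit 1) (nat_lit 18) (.e false (nat_lit 3) (nat_lit 280) (nat_lit 1) (nat_lit 18) dC1c_i44)))))))))))))))))))))))))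

noncomputable def dC1c_i46 : IL := (.e false (nat_lit 1) (nat_lit 85) (nat_lit 11) (nat_lit 9) (.e true (nat_lit 1) (nat_lit 86) (nat_lit 11) (nat_lit 9) (.e false (nat_lit 1) (nat_lit 87) (nat_lit 11) (nat_lit 9) (.e true (nat_lit 1) (nat_lit 90) (nat_lit 11) (nat_lit 9) (.e true (nat_lit 3) (nat_lit 260) (nat_lit 1) (nat_lit 18) (.e true (nat_lit 3) (nat_lit 262) (nat_lit 1) (nat_lit 18) (.e true (nat_lit 1) (nat_lit 264) (nat_lit 1) (nat_lit 18) (.e true (nat_lit 3) (nat_lit 265) (nat_lit 1) (nat_lit 18) (.e true (nat_lit 1) (nat_lit 266) (nat_lit 1) (nat_lit 18) (.e true (nat_lit 2) (nat_lit 271) (nat_lit 1) (nat_lit 18) (.e true (nat_lit 2) (nat_lit 272) (nat_lit 1) (nat_lit 18) (.e true (nat_lit 3) (nat_lit 273) (nat_lit 1) (nat_lit 18) (.e false (nat_lit 1) (nat_lit 277) (nat_lit 1) (nat_lit 18) (.e false (nat_lit 1) (nat_lit 280) (nat_lit 1) (nat_lit 18) (.e true (nat_lit 3)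 (nat_lit 286) (nat_lit 1) (nat_lit 18) (.e true (nat_lit 1) (nat_lit 288) (nat_lit 1) (nat_lit 18) (.e true (nat_lit 3) (nat_lit 287) (nat_lit 1) (nat_lit 18) (.e true (nat_lit 3) (nat_lit 279) (nat_lit 1) (nat_lit 18) (.e false (nat_lit 1) (nat_lit 42) (nat_lit 26) (nat_lit 2) (.e true (nat_lit 3) (nat_lit 261) (nat_lit 1) (nat_lit 18) (.e false (nat_lit 3) (nat_lit 268) (nat_lit 1) (nat_lit 18) (.e false (nat_lit 2) (nat_lit 270) (nat_lit 1) (nat_lit 18) (.e false (nat_lit 2) (nat_lit 274) (nat_lit 1) (nat_lit 18) (.e false (nat_lit 3) (nat_lit 278) (nat_lit 1) (nat_lit 18) (.u (nat_lit 2) (.p (nat_lit 0) (nat_lit 1) (.p (nat_lit 1) (nat_lit 1) (.p (nat_lit 2) (nat_lit 1) (.n (nat_lit 3) (nat_lit 1) (.n (nat_lit 4) (nat_lit 2) (.n (nat_lit 5) (nat_lit 1) (.n (nat_lit 8) (nat_lit 5) (.n (nat_lit 9) (nat_lit 1) (.n (nat_lit 10) (nat_lit 1) (.n (nat_lit 11) (nat_lit 2) (.p (nat_lit 12)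 (nat_lit 2) (.p (nat_lit 14) (nat_lit 5) (.p (nat_lit 15) (nat_lit 2) (.p (nat_lit 18) (nat_lit 1) (.n (nat_lit 19) (nat_lit 2) (.n (nat_lit 20) (nat_lit 4) (.n (nat_lit 26) (nat_lit 2) (.p (nat_lit 27) (nat_lit 1) (.n (nat_lit 28) (nat_lit 1) (.n (nat_lit 29) (nat_lit 2) (.n (nat_lit 30) (nat_lit 2) (.p (nat_lit 31) (nat_lit 2) (.n (nat_lit 32) (nat_lit 1) (.n (nat_lit 33) (nat_lit 2) (.p (nat_lit 34) (nat_lit 1) (.n (nat_lit 35) (nat_lit 1) (.p (nat_lit 36) (nat_lit 2) (.p (nat_lit 37) (nat_lit 1) (.n (nat_lit 38) (nat_lit 2) (.n (nat_lit 39) (nat_lit 2) (.n (nat_lit 40) (nat_lit 2) (.n (nat_lit 41) (nat_lit 1) (.n (nat_lit 49) (nat_lit 1) (.n (nat_lit 54) (nat_lit 1) (.p (nat_lit 55) (nat_lit 1) (.p (nat_lit 375) (nat_lit 2) (.p (nat_lit 376) (nat_lit 2) (.p (nat_lit 377) (nat_lit 1) (.p (nat_lit 378) (nat_lit 2) (.n (nat_lit 379) (nat_lit 2) (.n (nat_lit 380) (nat_lit 1) (.n (nat_lit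 381) (nat_lit 1) (.p (nat_lit 382) (nat_lit 2) (.n (nat_lit 383) (nat_lit 2) (.n (nat_lit 384) (nat_lit 1) (.n (nat_lit 385) (nat_lit 1) (.p (nat_lit 386) (nat_lit 1) (.n (nat_lit 388) (nat_lit 1) (.n (nat_lit 389) (nat_lit 2) (.n (nat_lit 392) (nat_lit 2) (.n (nat_lit 394) (nat_lit 1) (.n (nat_lit 395) (nat_lit 2) (.p (nat_lit 396) (nat_lit 1) (.p (nat_lit 397) (nat_lit 1) (.p (nat_lit 401) (nat_lit 1) (.n (nat_lit 402) (nat_lit 1) .z)))))))))))))))))))))))))))))))))))))))))))))))))))))))) .nil)))))))))))))))))))))))))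

noncomputable def dC1c_i47 : IL := (.e true (nat_lit 1) (nat_lit 237) (nat_lit 2) (nat_lit 17) (.e true (nat_lit 1) (nat_lit 238) (nat_lit 2) (nat_lit 17) (.e true (nat_lit 1) (nat_lit 240) (nat_lit 2) (nat_lit 17) (.e true (nat_lit 2) (nat_lit 243) (nat_lit 2) (nat_lit 17) (.e false (nat_lit 3) (nat_lit 244) (nat_lit 2) (nat_lit 17) (.e false (nat_lit 2) (nat_lit 245) (nat_lit 2) (nat_lit 17) (.e false (nat_lit 2) (nat_lit 247) (nat_lit 2) (nat_lit 17) (.e false (nat_lit 2) (nat_lit 248) (nat_lit 2) (nat_lit 17) (.e false (nat_lit 3) (nat_lit 260) (nat_lit 1) (nat_lit 18) (.e false (nat_lit 2) (nat_lit 261) (nat_lit 1) (nat_lit 18) (.e true (nat_lit 2) (nat_lit 262) (nat_lit 1) (nat_lit 18) (.e true (nat_lit 2) (nat_lit 263) (nat_lit 1) (nat_lit 18) (.e false (nat_lit 3) (nat_lit 264) (nat_lit 1) (nat_lit 18) (.e true (nat_lit 3) (nat_lit 266) (nat_lit 1) (nat_lit 18) (.e true (nat_lit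 1) (nat_lit 267) (nat_lit 1) (nat_lit 18) (.e false (nat_lit 3) (nat_lit 269) (nat_lit 1) (nat_lit 18) (.e false (nat_lit 3) (nat_lit 270) (nat_lit 1) (nat_lit 18) (.e true (nat_lit 2) (nat_lit 272) (nat_lit 1) (nat_lit 18) (.e true (nat_lit 1) (nat_lit 273) (nat_lit 1) (nat_lit 18) (.e false (nat_lit 1) (nat_lit 274) (nat_lit 1) (nat_lit 18) (.e true (nat_lit 2) (nat_lit 276) (nat_lit 1) (nat_lit 18) (.e true (nat_lit 3) (nat_lit 277) (nat_lit 1) (nat_lit 18) (.e true (nat_lit 1) (nat_lit 279) (nat_lit 1) (nat_lit 18) (.e false (nat_lit 3) (nat_lit 280) (nat_lit 1) (nat_lit 18) (.u (nat_lit 2) (.p (nat_lit 0) (nat_lit 2) (.n (nat_lit 2) (nat_lit 2) (.n (nat_lit 3) (nat_lit 3) (.p (nat_lit 4) (nat_lit 1) (.n (nat_lit 6) (nat_lit 5) (.p (nat_lit 7) (nat_lit 6) (.n (nat_lit 8) (nat_lit 1) (.p (nat_lit 9) (nat_lit 1) (.n (nat_lit 10) (nat_lit 1) (.p (nat_lit 11) (nat_lit 1) (.p (nat_lit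 12) (nat_lit 1) (.p (nat_lit 15) (nat_lit 2) (.p (nat_lit 17) (nat_lit 2) (.p (nat_lit 18) (nat_lit 1) (.p (nat_lit 19) (nat_lit 1) (.p (nat_lit 20) (nat_lit 2) (.n (nat_lit 27) (nat_lit 3) (.n (nat_lit 28) (nat_lit 2) (.n (nat_lit 29) (nat_lit 1) (.p (nat_lit 30) (nat_lit 6) (.p (nat_lit 31) (nat_lit 3) (.p (nat_lit 33) (nat_lit 2) (.n (nat_lit 34) (nat_lit 1) (.n (nat_lit 35) (nat_lit 1) (.p (nat_lit 36) (nat_lit 3) (.n (nat_lit 37) (nat_lit 4) (.n (nat_lit 38) (nat_lit 4) (.n (nat_lit 39) (nat_lit 4) (.p (nat_lit 40) (nat_lit 2) (.n (nat_lit 41) (nat_lit 6) (.p (nat_lit 50) (nat_lit 1) (.n (nat_lit 51) (nat_lit 1) (.p (nat_lit 53) (nat_lit 1) (.p (nat_lit 54) (nat_lit 1) (.p (nat_lit 62) (nat_lit 1) (.n (nat_lit 63) (nat_lit 1) (.n (nat_lit 70) (nat_lit 1) .z))))))))))))))))))))))))))))))))))))) .nil)))))))))))))))))))))))))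

noncomputable def dC1c_i48 : IL := (.e false (nat_lit 1) (nat_lit 311) (nat_lit 0) (nat_lit 19) (.e false (nat_lit 2) (nat_lit 312) (nat_lit 0) (nat_lit 19) (.e true (nat_lit 1) (nat_lit 317) (nat_lit 0) (nat_lit 19) (.e true (nat_lit 1) (nat_lit 319) (nat_lit 0) (nat_lit 19) (.e false (nat_lit 2) (nat_lit 212) (nat_lit 2) (nat_lit 17) (.e false (nat_lit 2) (nat_lit 213) (nat_lit 2) (nat_lit 17) (.e true (nat_lit 3) (nat_lit 214) (nat_lit 2) (nat_lit 17) (.e true (nat_lit 2) (nat_lit 215) (nat_lit 2) (nat_lit 17) (.e true (nat_lit 1) (nat_lit 216) (nat_lit 2) (nat_lit 17) (.e true (nat_lit 2) (nat_lit 217) (nat_lit 2) (nat_lit 17) (.e false (nat_lit 2) (nat_lit 218) (nat_lit 2) (nat_lit 17) (.e true (nat_lit 2) (nat_lit 219) (nat_lit 2) (nat_lit 17) (.e true (nat_lit 3) (nat_lit 220) (nat_lit 2) (nat_lit 17) (.e false (nat_lit 1) (nat_lit 221) (nat_lit 2) (nat_lit 17) (.e true (nat_lit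 2) (nat_lit 222) (nat_lit 2) (nat_lit 17) (.e true (nat_lit 2) (nat_lit 223) (nat_lit 2) (nat_lit 17) (.e false (nat_lit 2) (nat_lit 224) (nat_lit 2) (nat_lit 17) (.e false (nat_lit 1) (nat_lit 226) (nat_lit 2) (nat_lit 17) (.e true (nat_lit 2) (nat_lit 227) (nat_lit 2) (nat_lit 17) (.e false (nat_lit 3) (nat_lit 229) (nat_lit 2) (nat_lit 17) (.e false (nat_lit 3) (nat_lit 232) (nat_lit 2) (nat_lit 17) (.e false (nat_lit 3) (nat_lit 233) (nat_lit 2) (nat_lit 17) (.e false (nat_lit 2) (nat_lit 234) (nat_lit 2) (nat_lit 17) (.e true (nat_lit 2) (nat_lit 235) (nat_lit 2) (nat_lit 17) (.e true (nat_lit 2) (nat_lit 236) (nat_lit 2) (nat_lit 17) dC1c_i47)))))))))))))))))))))))))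

noncomputable def dC1c_i49 : IL := (.s true (nat_lit 1) (nat_lit 91) (nat_lit 0) (nat_lit 2) (nat_lit 2) true (nat_lit 11) true (nat_lit 13) false (nat_lit 5) true (nat_lit 15) true (nat_lit 13) (.e true (nat_lit 1) (nat_lit 189) (nat_lit 4) (nat_lit 11) (.e false (nat_lit 1) (nat_lit 261) (nat_lit 2) (nat_lit 13) (.e false (nat_lit 2) (nat_lit 263) (nat_lit 2) (nat_lit 13) (.e true (nat_lit 2) (nat_lit 264) (nat_lit 2) (nat_lit 13) (.e false (nat_lit 2) (nat_lit 266) (nat_lit 2) (nat_lit 13) (.e false (nat_lit 3) (nat_lit 267) (nat_lit 2) (nat_lit 13) (.e true (nat_lit 2) (nat_lit 269) (nat_lit 2) (nat_lit 13) (.e false (nat_lit 2) (nat_lit 270) (nat_lit 2) (nat_lit 13) (.e true (nat_lit 2) (nat_lit 272) (nat_lit 2) (nat_lit 13) (.e true (nat_lit 3) (nat_lit 273) (nat_lit 2) (nat_lit 13) (.e false (nat_lit 2) (nat_lit 274) (nat_lit 2) (nat_lit 13) (.e true (nat_lit 2) (nat_lit 276)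 (nat_lit 2) (nat_lit 13) (.e true (nat_lit 1) (nat_lit 277) (nat_lit 2) (nat_lit 13) (.e false (nat_lit 2) (nat_lit 279) (nat_lit 2) (nat_lit 13) (.e true (nat_lit 3) (nat_lit 280) (nat_lit 2) (nat_lit 13) (.e false (nat_lit 2) (nat_lit 340) (nat_lit 0) (nat_lit 15) (.e true (nat_lit 1) (nat_lit 265) (nat_lit 2) (nat_lit 13) (.e false (nat_lit 2) (nat_lit 268) (nat_lit 2) (nat_lit 13) (.e false (nat_lit 2) (nat_lit 271) (nat_lit 2) (nat_lit 13) (.e false (nat_lit 1) (nat_lit 278) (nat_lit 2) (nat_lit 13) (.e true (nat_lit 2) (nat_lit 284) (nat_lit 2) (nat_lit 13) (.e true (nat_lit 1) (nat_lit 286) (nat_lit 2) (nat_lit 13) (.e false (nat_lit 1) (nat_lit 288) (nat_lit 2) (nat_lit 13) (.u (nat_lit 2) (.p (nat_lit 0) (nat_lit 3) (.n (nat_lit 1) (nat_lit 1) (.p (nat_lit 2) (nat_lit 1) (.p (nat_lit 3) (nat_lit 2) (.n (nat_lit 4) (nat_lit 1) (.n (nat_lit 5) (nat_lit 3) (.p (nat_lit 8) (nat_lit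 1) (.p (nat_lit 9) (nat_lit 2) (.p (nat_lit 10) (nat_lit 1) (.p (nat_lit 12) (nat_lit 2) (.n (nat_lit 15) (nat_lit 4) (.n (nat_lit 16) (nat_lit 4) (.p (nat_lit 17) (nat_lit 1) (.n (nat_lit 18) (nat_lit 3) (.n (nat_lit 19) (nat_lit 3) (.p (nat_lit 21) (nat_lit 1) (.p (nat_lit 23) (nat_lit 1) (.n (nat_lit 24) (nat_lit 1) (.p (nat_lit 25) (nat_lit 1) (.n (nat_lit 26) (nat_lit 1) (.n (nat_lit 27) (nat_lit 2) (.n (nat_lit 30) (nat_lit 1) (.p (nat_lit 33) (nat_lit 1) (.n (nat_lit 176) (nat_lit 1) (.p (nat_lit 177) (nat_lit 1) (.n (nat_lit 179) (nat_lit 1) (.n (nat_lit 180) (nat_lit 1) (.p (nat_lit 182) (nat_lit 1) (.p (nat_lit 193) (nat_lit 1) .z))))))))))))))))))))))))))))) .nil)))))))))))))))))))))))))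

noncomputable def dC1c_i50 : IL := (.e false (nat_lit 1) (nat_lit 189) (nat_lit 4) (nat_lit 11) (.e false (nat_lit 1) (nat_lit 337) (nat_lit 0) (nat_lit 15) (.e true (nat_lit 1) (nat_lit 260) (nat_lit 2) (nat_lit 13) (.e false (nat_lit 1) (nat_lit 261) (nat_lit 2) (nat_lit 13) (.e true (nat_lit 1) (nat_lit 262) (nat_lit 2) (nat_lit 13) (.e false (nat_lit 3) (nat_lit 265) (nat_lit 2) (nat_lit 13) (.e false (nat_lit 2) (nat_lit 266) (nat_lit 2) (nat_lit 13) (.e false (nat_lit 3) (nat_lit 267) (nat_lit 2) (nat_lit 13) (.e false (nat_lit 1) (nat_lit 268) (nat_lit 2) (nat_lit 13) (.e true (nat_lit 2) (nat_lit 269) (nat_lit 2) (nat_lit 13) (.e true (nat_lit 1) (nat_lit 271) (nat_lit 2) (nat_lit 13) (.e false (nat_lit 1) (nat_lit 272) (nat_lit 2) (nat_lit 13) (.e false (nat_lit 2) (nat_lit 273) (nat_lit 2) (nat_lit 13) (.e true (nat_lit 3) (nat_lit 274) (nat_lit 2) (nat_lit 13) (.e false (nat_lit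 3) (nat_lit 276) (nat_lit 2) (nat_lit 13) (.e false (nat_lit 2) (nat_lit 277) (nat_lit 2) (nat_lit 13) (.e true (nat_lit 2) (nat_lit 278) (nat_lit 2) (nat_lit 13) (.e true (nat_lit 1) (nat_lit 280) (nat_lit 2) (nat_lit 13) (.e false (nat_lit 2) (nat_lit 284) (nat_lit 2) (nat_lit 13) (.e true (nat_lit 3) (nat_lit 286) (nat_lit 2) (nat_lit 13) (.e false (nat_lit 1) (nat_lit 287) (nat_lit 2) (nat_lit 13) (.e false (nat_lit 1) (nat_lit 288) (nat_lit 2) (nat_lit 13) (.e false (nat_lit 3) (nat_lit 264) (nat_lit 2) (nat_lit 13) (.e false (nat_lit 3) (nat_lit 270) (nat_lit 2) (nat_lit 13) (.u (nat_lit 2) (.p (nat_lit 0) (nat_lit 1) (.p (nat_lit 1) (nat_lit 1) (.n (nat_lit 3) (nat_lit 1) (.n (nat_lit 4) (nat_lit 5) (.n (nat_lit 5) (nat_lit 1) (.p (nat_lit 6) (nat_lit 3) (.p (nat_lit 7) (nat_lit 3) (.p (nat_lit 8) (nat_lit 1) (.p (nat_lit 9) (nat_lit 4) (.p (nat_lit 10) (nat_lit 1) (.p (nat_lit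 12) (nat_lit 1) (.p (nat_lit 13) (nat_lit 3) (.n (nat_lit 15) (nat_lit 1) (.n (nat_lit 16) (nat_lit 2) (.n (nat_lit 17) (nat_lit 1) (.n (nat_lit 18) (nat_lit 3) (.p (nat_lit 23) (nat_lit 1) (.p (nat_lit 25) (nat_lit 1) (.p (nat_lit 26) (nat_lit 1) (.p (nat_lit 27) (nat_lit 2) (.p (nat_lit 30) (nat_lit 1) (.p (nat_lit 33) (nat_lit 2) (.p (nat_lit 173) (nat_lit 1) (.n (nat_lit 179) (nat_lit 1) (.n (nat_lit 180) (nat_lit 1) (.p (nat_lit 182) (nat_lit 1) (.p (nat_lit 187) (nat_lit 1) (.n (nat_lit 189) (nat_lit 1) (.n (nat_lit 190) (nat_lit 1) (.p (nat_lit 193) (nat_lit 1) .z)))))))))))))))))))))))))))))) .nil)))))))))))))))))))))))))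

noncomputable def dC1c_i51 : IL := (.s false (nat_lit 3) (nat_lit 6) (nat_lit 4) (nat_lit 0) (nat_lit 1) true (nat_lit 0) true (nat_lit 8) true (nat_lit 3) true (nat_lit 5) true (nat_lit 9) (.s true (nat_lit 3) (nat_lit 12) (nat_lit 0) (nat_lit 2) (nat_lit 2) true (nat_lit 5) true (nat_lit 7) true (nat_lit 0) true (nat_lit 9) true (nat_lit 7) (.s false (nat_lit 2) (nat_lit 11) (nat_lit 2) (nat_lit 2) (nat_lit 0) true (nat_lit 5) true (nat_lit 9) true (nat_lit 0) true (nat_lit 7) true (nat_lit 7) (.s true (nat_lit 1) (nat_lit 15) (nat_lit 2) (nat_lit 0) (nat_lit 1) true (nat_lit 4) true (nat_lit 8) false (nat_lit 0) true (nat_lit 7) true (nat_lit 9) (.s false (nat_lit 3) (nat_lit 14) (nat_lit 2) (nat_lit 1) (nat_lit 0) true (nat_lit 5) true (nat_lit 9) false (nat_lit 0) true (nat_lit 7) true (nat_lit 8) (.s false (nat_lit 3) (nat_lit 16) (nat_lit 2) (nat_lit 0) (nat_lit 0) true (nat_lit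 5) true (nat_lit 9) false (nat_lit 1) true (nat_lit 7) true (nat_lit 9) (.e false (nat_lit 1) (nat_lit 28) (nat_lit 5) (nat_lit 4) (.e false (nat_lit 1) (nat_lit 29) (nat_lit 5) (nat_lit 4) (.e false (nat_lit 1) (nat_lit 55) (nat_lit 2) (nat_lit 7) (.e true (nat_lit 1) (nat_lit 56) (nat_lit 2) (nat_lit 7) (.e false (nat_lit 3) (nat_lit 58) (nat_lit 2) (nat_lit 7) (.e false (nat_lit 3) (nat_lit 59) (nat_lit 2) (nat_lit 7) (.e true (nat_lit 3) (nat_lit 60) (nat_lit 2) (nat_lit 7) (.e false (nat_lit 1) (nat_lit 62) (nat_lit 2) (nat_lit 7) (.e false (nat_lit 2) (nat_lit 78) (nat_lit 1) (nat_lit 8) (.e false (nat_lit 1) (nat_lit 80) (nat_lit 1) (nat_lit 8) (.e true (nat_lit 2) (nat_lit 81) (nat_lit 1) (nat_lit 8) (.e true (nat_lit 3) (nat_lit 77) (nat_lit 1) (nat_lit 8) (.e false (nat_lit 3) (nat_lit 21) (nat_lit 6) (nat_lit 3) (.e false (nat_lit 1) (nat_lit 82) (nat_lit 0) (nat_lit 9) (.e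 false (nat_lit 2) (nat_lit 87) (nat_lit 0) (nat_lit 9) (.e true (nat_lit 1) (nat_lit 88) (nat_lit 0) (nat_lit 9) (.e true (nat_lit 3) (nat_lit 63) (nat_lit 2) (nat_lit 7) (.e true (nat_lit 3) (nat_lit 16) (nat_lit 9) (nat_lit 1) (.u (nat_lit 2) (.p (nat_lit 6) (nat_lit 1) (.n (nat_lit 7) (nat_lit 1) (.p (nat_lit 8) (nat_lit 1) (.p (nat_lit 10) (nat_lit 1) (.n (nat_lit 40) (nat_lit 1) (.n (nat_lit 46) (nat_lit 1) (.p (nat_lit 48) (nat_lit 1) (.n (nat_lit 49) (nat_lit 1) (.p (nat_lit 52) (nat_lit 1) (.n (nat_lit 55) (nat_lit 1) (.p (nat_lit 56) (nat_lit 1) (.n (nat_lit 58) (nat_lit 1) (.n (nat_lit 62) (nat_lit 1) (.n (nat_lit 63) (nat_lit 1) (.p (nat_lit 66) (nat_lit 1) (.n (nat_lit 67) (nat_lit 2) (.p (nat_lit 68) (nat_lit 1) (.p (nat_lit 72) (nat_lit 1) .z)))))))))))))))))) .nil)))))))))))))))))))))))))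

noncomputable def dC1c_i52 : IL := (.e true (nat_lit 1) (nat_lit 142) (nat_lit 1) (nat_lit 13) (.e true (nat_lit 2) (nat_lit 143) (nat_lit 1) (nat_lit 13) (.e true (nat_lit 2) (nat_lit 144) (nat_lit 1) (nat_lit 13) (.e false (nat_lit 1) (nat_lit 145) (nat_lit 1) (nat_lit 13) (.e true (nat_lit 2) (nat_lit 147) (nat_lit 1) (nat_lit 13) (.e false (nat_lit 2) (nat_lit 148) (nat_lit 1) (nat_lit 13) (.e false (nat_lit 2) (nat_lit 149) (nat_lit 1) (nat_lit 13) (.e true (nat_lit 3) (nat_lit 151) (nat_lit 1) (nat_lit 13) (.e false (nat_lit 2) (nat_lit 152) (nat_lit 1) (nat_lit 13) (.e true (nat_lit 3) (nat_lit 164) (nat_lit 0) (nat_lit 14) (.e true (nat_lit 3) (nat_lit 165) (nat_lit 0) (nat_lit 14) (.e false (nat_lit 2) (nat_lit 155) (nat_lit 0) (nat_lit 14) (.e true (nat_lit 2) (nat_lit 159) (nat_lit 0) (nat_lit 14) (.e true (nat_lit 2) (nat_lit 163) (nat_lit 0) (nat_lit 14) (.e true (nat_lit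 3) (nat_lit 170) (nat_lit 0) (nat_lit 14) (.e true (nat_lit 1) (nat_lit 171) (nat_lit 0) (nat_lit 14) (.e false (nat_lit 2) (nat_lit 166) (nat_lit 0) (nat_lit 14) (.e false (nat_lit 2) (nat_lit 158) (nat_lit 0) (nat_lit 14) (.e true (nat_lit 2) (nat_lit 168) (nat_lit 0) (nat_lit 14) (.e true (nat_lit 2) (nat_lit 172) (nat_lit 0) (nat_lit 14) (.e true (nat_lit 2) (nat_lit 169) (nat_lit 0) (nat_lit 14) (.e false (nat_lit 2) (nat_lit 156) (nat_lit 0) (nat_lit 14) (.e false (nat_lit 3) (nat_lit 162) (nat_lit 0) (nat_lit 14) (.e true (nat_lit 3) (nat_lit 173) (nat_lit 0) (nat_lit 14) (.u (nat_lit 2) (.n (nat_lit 0) (nat_lit 2) (.p (nat_lit 1) (nat_lit 1) (.p (nat_lit 2) (nat_lit 1) (.n (nat_lit 3) (nat_lit 1) (.p (nat_lit 5) (nat_lit 2) (.p (nat_lit 6) (nat_lit 1) (.n (nat_lit 7) (nat_lit 1) (.n (nat_lit 8) (nat_lit 1) (.n (nat_lit 9) (nat_lit 2) (.n (nat_lit 11) (nat_lit 1) (.n (nat_lit 12)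 (nat_lit 1) (.n (nat_lit 14) (nat_lit 1) (.n (nat_lit 15) (nat_lit 1) (.n (nat_lit 17) (nat_lit 1) (.n (nat_lit 18) (nat_lit 1) (.n (nat_lit 19) (nat_lit 1) (.n (nat_lit 21) (nat_lit 2) (.n (nat_lit 22) (nat_lit 1) (.n (nat_lit 23) (nat_lit 3) (.n (nat_lit 24) (nat_lit 1) (.p (nat_lit 25) (nat_lit 1) (.p (nat_lit 27) (nat_lit 2) (.p (nat_lit 31) (nat_lit 1) (.p (nat_lit 32) (nat_lit 1) (.n (nat_lit 34) (nat_lit 1) (.p (nat_lit 35) (nat_lit 1) (.n (nat_lit 36) (nat_lit 1) (.n (nat_lit 113) (nat_lit 1) (.n (nat_lit 183) (nat_lit 1) (.n (nat_lit 184) (nat_lit 1) (.n (nat_lit 186) (nat_lit 1) (.n (nat_lit 187) (nat_lit 1) (.p (nat_lit 192) (nat_lit 1) (.n (nat_lit 196) (nat_lit 1) (.p (nat_lit 199) (nat_lit 1) (.p (nat_lit 201) (nat_lit 1) .z)))))))))))))))))))))))))))))))))))) .nil)))))))))))))))))))))))))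

noncomputable def dC1c_i53 : IL := (.e false (nat_lit 1) (nat_lit 286) (nat_lit 1) (nat_lit 18) (.e true (nat_lit 1) (nat_lit 278) (nat_lit 1) (nat_lit 18) (.e false (nat_lit 1) (nat_lit 287) (nat_lit 1) (nat_lit 18) (.e false (nat_lit 1) (nat_lit 279) (nat_lit 1) (nat_lit 18) (.e true (nat_lit 1) (nat_lit 288) (nat_lit 1) (nat_lit 18) (.e false (nat_lit 2) (nat_lit 291) (nat_lit 0) (nat_lit 19) (.e false (nat_lit 1) (nat_lit 292) (nat_lit 0) (nat_lit 19) (.e false (nat_lit 1) (nat_lit 293) (nat_lit 0) (nat_lit 19) (.e false (nat_lit 1) (nat_lit 294) (nat_lit 0) (nat_lit 19) (.e true (nat_lit 1) (nat_lit 295) (nat_lit 0) (nat_lit 19) (.e true (nat_lit 1) (nat_lit 296) (nat_lit 0) (nat_lit 19) (.e false (nat_lit 1) (nat_lit 297) (nat_lit 0) (nat_lit 19) (.e false (nat_lit 1) (nat_lit 299) (nat_lit 0) (nat_lit 19) (.e false (nat_lit 3) (nat_lit 300) (nat_lit 0) (nat_lit 19) (.e true (nat_lit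 3) (nat_lit 301) (nat_lit 0) (nat_lit 19) (.e true (nat_lit 2) (nat_lit 302) (nat_lit 0) (nat_lit 19) (.e true (nat_lit 3) (nat_lit 304) (nat_lit 0) (nat_lit 19) (.e false (nat_lit 1) (nat_lit 305) (nat_lit 0) (nat_lit 19) (.e true (nat_lit 3) (nat_lit 308) (nat_lit 0) (nat_lit 19) (.e false (nat_lit 1) (nat_lit 310) (nat_lit 0) (nat_lit 19) (.e true (nat_lit 2) (nat_lit 317) (nat_lit 0) (nat_lit 19) (.e true (nat_lit 3) (nat_lit 307) (nat_lit 0) (nat_lit 19) (.e true (nat_lit 2) (nat_lit 316) (nat_lit 0) (nat_lit 19) (.e false (nat_lit 3) (nat_lit 318) (nat_lit 0) (nat_lit 19) (.u (nat_lit 2) (.n (nat_lit 0) (nat_lit 2) (.p (nat_lit 1) (nat_lit 1) (.n (nat_lit 2) (nat_lit 2) (.p (nat_lit 3) (nat_lit 1) (.n (nat_lit 4) (nat_lit 2) (.n (nat_lit 5) (nat_lit 1) (.n (nat_lit 8) (nat_lit 1) (.n (nat_lit 9) (nat_lit 2) (.n (nat_lit 11) (nat_lit 1) (.p (nat_lit 12) (nat_lit 1) (.n (nat_lit 14)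 (nat_lit 2) (.p (nat_lit 15) (nat_lit 4) (.p (nat_lit 17) (nat_lit 3) (.n (nat_lit 19) (nat_lit 1) (.n (nat_lit 20) (nat_lit 2) (.n (nat_lit 26) (nat_lit 1) (.n (nat_lit 27) (nat_lit 1) (.p (nat_lit 29) (nat_lit 1) (.p (nat_lit 30) (nat_lit 1) (.n (nat_lit 32) (nat_lit 1) (.p (nat_lit 33) (nat_lit 3) (.n (nat_lit 35) (nat_lit 1) (.p (nat_lit 36) (nat_lit 1) (.p (nat_lit 37) (nat_lit 1) (.p (nat_lit 38) (nat_lit 2) (.p (nat_lit 39) (nat_lit 1) (.p (nat_lit 40) (nat_lit 1) (.p (nat_lit 41) (nat_lit 1) (.n (nat_lit 49) (nat_lit 1) (.n (nat_lit 54) (nat_lit 1) (.p (nat_lit 55) (nat_lit 1) (.n (nat_lit 406) (nat_lit 1) (.n (nat_lit 408) (nat_lit 1) (.p (nat_lit 417) (nat_lit 1) (.p (nat_lit 419) (nat_lit 1) .z))))))))))))))))))))))))))))))))))) .nil)))))))))))))))))))))))))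

noncomputable def dC1c_i54 : IL := (.e false (nat_lit 3) (nat_lit 262) (nat_lit 2) (nat_lit 13) (.e true (nat_lit 2) (nat_lit 264) (nat_lit 2) (nat_lit 13) (.e false (nat_lit 3) (nat_lit 268) (nat_lit 2) (nat_lit 13) (.e true (nat_lit 1) (nat_lit 270) (nat_lit 2) (nat_lit 13) (.e false (nat_lit 1) (nat_lit 272) (nat_lit 2) (nat_lit 13) (.e false (nat_lit 2) (nat_lit 273) (nat_lit 2) (nat_lit 13) (.e false (nat_lit 2) (nat_lit 275) (nat_lit 2) (nat_lit 13) (.e true (nat_lit 2) (nat_lit 276) (nat_lit 2) (nat_lit 13) (.e true (nat_lit 2) (nat_lit 277) (nat_lit 2) (nat_lit 13) (.e true (nat_lit 3) (nat_lit 278) (nat_lit 2) (nat_lit 13) (.e true (nat_lit 3) (nat_lit 279) (nat_lit 2) (nat_lit 13) (.e false (nat_lit 2) (nat_lit 341) (nat_lit 0) (nat_lit 15) (.e false (nat_lit 3) (nat_lit 260) (nat_lit 2) (nat_lit 13) (.e false (nat_lit 2) (nat_lit 267) (nat_lit 2) (nat_lit 13) (.e false (nat_lit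 1) (nat_lit 269) (nat_lit 2) (nat_lit 13) (.e true (nat_lit 3) (nat_lit 271) (nat_lit 2) (nat_lit 13) (.e true (nat_lit 3) (nat_lit 274) (nat_lit 2) (nat_lit 13) (.e false (nat_lit 1) (nat_lit 281) (nat_lit 2) (nat_lit 13) (.e false (nat_lit 2) (nat_lit 283) (nat_lit 2) (nat_lit 13) (.e true (nat_lit 2) (nat_lit 284) (nat_lit 2) (nat_lit 13) (.e true (nat_lit 1) (nat_lit 286) (nat_lit 2) (nat_lit 13) (.e true (nat_lit 1) (nat_lit 287) (nat_lit 2) (nat_lit 13) (.e false (nat_lit 3) (nat_lit 288) (nat_lit 2) (nat_lit 13) (.e true (nat_lit 1) (nat_lit 289) (nat_lit 2) (nat_lit 13) (.u (nat_lit 2) (.n (nat_lit 0) (nat_lit 4) (.p (nat_lit 1) (nat_lit 3) (.n (nat_lit 2) (nat_lit 5) (.n (nat_lit 3) (nat_lit 2) (.n (nat_lit 4) (nat_lit 3) (.p (nat_lit 5) (nat_lit 3) (.p (nat_lit 6) (nat_lit 3) (.p (nat_lit 7) (nat_lit 3) (.p (nat_lit 8) (nat_lit 1) (.p (nat_lit 10) (nat_lit 1) (.p (nat_lit 12)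 (nat_lit 2) (.p (nat_lit 13) (nat_lit 1) (.n (nat_lit 15) (nat_lit 3) (.n (nat_lit 18) (nat_lit 1) (.p (nat_lit 20) (nat_lit 1) (.n (nat_lit 21) (nat_lit 1) (.p (nat_lit 23) (nat_lit 1) (.n (nat_lit 24) (nat_lit 1) (.p (nat_lit 25) (nat_lit 1) (.p (nat_lit 26) (nat_lit 1) (.p (nat_lit 27) (nat_lit 2) (.n (nat_lit 28) (nat_lit 1) (.n (nat_lit 30) (nat_lit 2) (.n (nat_lit 33) (nat_lit 2) (.p (nat_lit 190) (nat_lit 1) (.p (nat_lit 191) (nat_lit 1) .z)))))))))))))))))))))))))) .nil)))))))))))))))))))))))))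

noncomputable def dC1c_i55 : IL := (.e true (nat_lit 2) (nat_lit 263) (nat_lit 2) (nat_lit 13) (.e true (nat_lit 3) (nat_lit 264) (nat_lit 2) (nat_lit 13) (.e false (nat_lit 1) (nat_lit 266) (nat_lit 2) (nat_lit 13) (.e false (nat_lit 3) (nat_lit 267) (nat_lit 2) (nat_lit 13) (.e true (nat_lit 2) (nat_lit 268) (nat_lit 2) (nat_lit 13) (.e true (nat_lit 2) (nat_lit 269) (nat_lit 2) (nat_lit 13) (.e false (nat_lit 3) (nat_lit 270) (nat_lit 2) (nat_lit 13) (.e false (nat_lit 3) (nat_lit 271) (nat_lit 2) (nat_lit 13) (.e false (nat_lit 3) (nat_lit 272) (nat_lit 2) (nat_lit 13) (.e false (nat_lit 2) (nat_lit 273) (nat_lit 2) (nat_lit 13) (.e true (nat_lit 3) (nat_lit 275) (nat_lit 2) (nat_lit 13) (.e false (nat_lit 3) (nat_lit 276) (nat_lit 2) (nat_lit 13) (.e true (nat_lit 2) (nat_lit 277) (nat_lit 2) (nat_lit 13) (.e true (nat_lit 3) (nat_lit 278) (nat_lit 2) (nat_lit 13) (.e false (nat_lit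 2) (nat_lit 279) (nat_lit 2) (nat_lit 13) (.e true (nat_lit 2) (nat_lit 280) (nat_lit 2) (nat_lit 13) (.e true (nat_lit 1) (nat_lit 281) (nat_lit 2) (nat_lit 13) (.e true (nat_lit 2) (nat_lit 283) (nat_lit 2) (nat_lit 13) (.e false (nat_lit 2) (nat_lit 284) (nat_lit 2) (nat_lit 13) (.e false (nat_lit 2) (nat_lit 287) (nat_lit 2) (nat_lit 13) (.e false (nat_lit 2) (nat_lit 288) (nat_lit 2) (nat_lit 13) (.e false (nat_lit 1) (nat_lit 289) (nat_lit 2) (nat_lit 13) (.e true (nat_lit 1) (nat_lit 261) (nat_lit 2) (nat_lit 13) (.e false (nat_lit 3) (nat_lit 265) (nat_lit 2) (nat_lit 13) (.u (nat_lit 2) (.p (nat_lit 0) (nat_lit 1) (.p (nat_lit 1) (nat_lit 1) (.p (nat_lit 2) (nat_lit 3) (.p (nat_lit 3) (nat_lit 1) (.n (nat_lit 4) (nat_lit 6) (.n (nat_lit 5) (nat_lit 1) (.n (nat_lit 8) (nat_lit 2) (.p (nat_lit 9) (nat_lit 4) (.p (nat_lit 12) (nat_lit 4) (.p (nat_lit 13) (nat_lit 4) (.p (nat_lit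 15) (nat_lit 2) (.n (nat_lit 16) (nat_lit 5) (.n (nat_lit 17) (nat_lit 1) (.n (nat_lit 18) (nat_lit 4) (.p (nat_lit 19) (nat_lit 2) (.n (nat_lit 20) (nat_lit 1) (.n (nat_lit 21) (nat_lit 1) (.p (nat_lit 22) (nat_lit 2) (.n (nat_lit 23) (nat_lit 1) (.p (nat_lit 24) (nat_lit 1) (.p (nat_lit 27) (nat_lit 1) (.p (nat_lit 28) (nat_lit 1) (.n (nat_lit 30) (nat_lit 2) (.p (nat_lit 33) (nat_lit 1) (.p (nat_lit 176) (nat_lit 1) (.p (nat_lit 181) (nat_lit 1) (.n (nat_lit 185) (nat_lit 1) (.p (nat_lit 188) (nat_lit 1) (.n (nat_lit 189) (nat_lit 1) (.p (nat_lit 190) (nat_lit 1) (.p (nat_lit 191) (nat_lit 1) (.n (nat_lit 192) (nat_lit 1) .z)))))))))))))))))))))))))))))))) .nil)))))))))))))))))))))))))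

noncomputable def dC1c_i56 : IL := (.e true (nat_lit 3) (nat_lit 167) (nat_lit 2) (nat_lit 10) (.e true (nat_lit 2) (nat_lit 168) (nat_lit 2) (nat_lit 10) (.e true (nat_lit 2) (nat_lit 170) (nat_lit 2) (nat_lit 10) (.e false (nat_lit 1) (nat_lit 171) (nat_lit 2) (nat_lit 10) (.e false (nat_lit 1) (nat_lit 172) (nat_lit 2) (nat_lit 10) (.e true (nat_lit 2) (nat_lit 173) (nat_lit 2) (nat_lit 10) (.e true (nat_lit 1) (nat_lit 96) (nat_lit 4) (nat_lit 8) (.e true (nat_lit 2) (nat_lit 166) (nat_lit 2) (nat_lit 10) (.e true (nat_lit 2) (nat_lit 82) (nat_lit 5) (nat_lit 7) (.e true (nat_lit 3) (nat_lit 83) (nat_lit 5) (nat_lit 7) (.e false (nat_lit 2) (nat_lit 86) (nat_lit 5) (nat_lit 7) (.e true (nat_lit 3) (nat_lit 87) (nat_lit 5) (nat_lit 7) (.e false (nat_lit 1) (nat_lit 88) (nat_lit 5) (nat_lit 7) (.e true (nat_lit 2) (nat_lit 169) (nat_lit 2) (nat_lit 10) (.e false (nat_lit 1) (nat_lit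 32) (nat_lit 17) (nat_lit 1) (.e false (nat_lit 1) (nat_lit 180) (nat_lit 1) (nat_lit 11) (.e false (nat_lit 1) (nat_lit 181) (nat_lit 1) (nat_lit 11) (.e false (nat_lit 1) (nat_lit 183) (nat_lit 1) (nat_lit 11) (.e true (nat_lit 1) (nat_lit 184) (nat_lit 1) (nat_lit 11) (.e false (nat_lit 2) (nat_lit 185) (nat_lit 1) (nat_lit 11) (.e false (nat_lit 1) (nat_lit 187) (nat_lit 1) (nat_lit 11) (.e true (nat_lit 1) (nat_lit 190) (nat_lit 1) (nat_lit 11) (.e true (nat_lit 1) (nat_lit 191) (nat_lit 1) (nat_lit 11) (.e true (nat_lit 1) (nat_lit 195) (nat_lit 1) (nat_lit 11) (.u (nat_lit 2) (.n (nat_lit 0) (nat_lit 1) (.n (nat_lit 1) (nat_lit 2) (.p (nat_lit 4) (nat_lit 3) (.p (nat_lit 5) (nat_lit 2) (.p (nat_lit 6) (nat_lit 3) (.n (nat_lit 7) (nat_lit 3) (.n (nat_lit 8) (nat_lit 4) (.n (nat_lit 9) (nat_lit 2) (.p (nat_lit 10) (nat_lit 1) (.p (nat_lit 11) (nat_lit 2) (.n (nat_lit 12) (nat_lit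 1) (.n (nat_lit 13) (nat_lit 1) (.n (nat_lit 14) (nat_lit 1) (.n (nat_lit 15) (nat_lit 1) (.n (nat_lit 17) (nat_lit 2) (.p (nat_lit 20) (nat_lit 2) (.p (nat_lit 27) (nat_lit 1) (.p (nat_lit 28) (nat_lit 2) (.n (nat_lit 99) (nat_lit 1) (.n (nat_lit 103) (nat_lit 1) (.n (nat_lit 105) (nat_lit 1) (.n (nat_lit 107) (nat_lit 1) (.p (nat_lit 110) (nat_lit 1) (.n (nat_lit 114) (nat_lit 1) .z)))))))))))))))))))))))) .nil)))))))))))))))))))))))))

noncomputable def dC1c_c37 : Cm := .mk (nat_lit 887) (nat_lit 37) (nat_lit 347) (nat_lit 8) (.c (nat_lit 37) (nat_lit 3) (nat_lit 18) (nat_lit 1) (nat_lit 8) (.c (nat_lit 43) (nat_lit 3) (nat_lit 16) (nat_lit 2) (nat_lit 11) (.c (nat_lit 46) (nat_lit 1) (nat_lit 13) (nat_lit 1) (nat_lit 17) (.c (nat_lit 93) (nat_lit 5) (nat_lit 6) (nat_lit 1) (nat_lit 18) (.c (nat_lit 102) (nat_lit 4) (nat_lit 5) (nat_lit 1) (nat_lit 23) (.c (nat_lit 196) (nat_lit 6)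 (nat_lit 2) (nat_lit 1) (nat_lit 27) (.c (nat_lit 207) (nat_lit 5) (nat_lit 1) (nat_lit 1) (nat_lit 33) (.c (nat_lit 2032) (nat_lit 0) (nat_lit 106) (nat_lit 1) (nat_lit 38) .nil))))))))

noncomputable def dC1c_i57 : IL := (.e true (nat_lit 1) (nat_lit 314) (nat_lit 0) (nat_lit 19) (.e true (nat_lit 1) (nat_lit 315) (nat_lit 0) (nat_lit 19) (.e false (nat_lit 3) (nat_lit 316) (nat_lit 0) (nat_lit 19) (.e true (nat_lit 3) (nat_lit 317) (nat_lit 0) (nat_lit 19) (.e true (nat_lit 2) (nat_lit 318) (nat_lit 0) (nat_lit 19) (.e false (nat_lit 1) (nat_lit 319) (nat_lit 0) (nat_lit 19) (.e false (nat_lit 2) (nat_lit 212) (nat_lit 2) (nat_lit 17) (.e true (nat_lit 1) (nat_lit 213) (nat_lit 2) (nat_lit 17) (.e true (nat_lit 2) (nat_lit 214) (nat_lit 2) (nat_lit 17) (.e true (nat_lit 1) (nat_lit 215) (nat_lit 2) (nat_lit 17) (.e true (nat_lit 2) (nat_lit 216) (nat_lit 2) (nat_lit 17) (.e false (nat_lit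 2) (nat_lit 219) (nat_lit 2) (nat_lit 17) (.e true (nat_lit 1) (nat_lit 220) (nat_lit 2) (nat_lit 17) (.e true (nat_lit 3) (nat_lit 222) (nat_lit 2) (nat_lit 17) (.e false (nat_lit 2) (nat_lit 223) (nat_lit 2) (nat_lit 17) (.e true (nat_lit 1) (nat_lit 224) (nat_lit 2) (nat_lit 17) (.e true (nat_lit 2) (nat_lit 225) (nat_lit 2) (nat_lit 17) (.e true (nat_lit 2) (nat_lit 227) (nat_lit 2) (nat_lit 17) (.e false (nat_lit 1) (nat_lit 228) (nat_lit 2) (nat_lit 17) (.e true (nat_lit 3) (nat_lit 229) (nat_lit 2) (nat_lit 17) (.e true (nat_lit 3) (nat_lit 221) (nat_lit 2) (nat_lit 17) (.e true (nat_lit 3) (nat_lit 226) (nat_lit 2) (nat_lit 17) (.e true (nat_lit 3) (nat_lit 230) (nat_lit 2) (nat_lit 17) (.e false (nat_lit 2) (nat_lit 231) (nat_lit 2) (nat_lit 17) (.u (nat_lit 2) (.n (nat_lit 0) (nat_lit 1) (.n (nat_lit 1) (nat_lit 2) (.p (nat_lit 3) (nat_lit 3) (.p (nat_lit 5) (nat_lit 3) (.p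 (nat_lit 6) (nat_lit 1) (.n (nat_lit 7) (nat_lit 1) (.p (nat_lit 8) (nat_lit 2) (.n (nat_lit 10) (nat_lit 1) (.p (nat_lit 11) (nat_lit 1) (.p (nat_lit 12) (nat_lit 3) (.p (nat_lit 14) (nat_lit 2) (.p (nat_lit 15) (nat_lit 2) (.p (nat_lit 17) (nat_lit 1) (.n (nat_lit 18) (nat_lit 1) (.p (nat_lit 19) (nat_lit 1) (.n (nat_lit 20) (nat_lit 3) (.n (nat_lit 26) (nat_lit 1) (.n (nat_lit 28) (nat_lit 1) (.p (nat_lit 32) (nat_lit 1) (.n (nat_lit 33) (nat_lit 2) (.p (nat_lit 34) (nat_lit 3) (.p (nat_lit 35) (nat_lit 2) (.n (nat_lit 36) (nat_lit 2) (.n (nat_lit 38) (nat_lit 1) (.n (nat_lit 39) (nat_lit 4) (.p (nat_lit 40) (nat_lit 3) (.p (nat_lit 49) (nat_lit 1) (.n (nat_lit 51) (nat_lit 1) (.n (nat_lit 52) (nat_lit 1) (.p (nat_lit 54) (nat_lit 1) (.n (nat_lit 55) (nat_lit 1) (.n (nat_lit 57) (nat_lit 1) (.n (nat_lit 327) (nat_lit 1) (.n (nat_lit 329) (nat_lit 1) (.p (nat_lit 332) (nat_lit 1) (.n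 (nat_lit 334) (nat_lit 1) (.n (nat_lit 335) (nat_lit 1) (.p (nat_lit 336) (nat_lit 1) (.p (nat_lit 337) (nat_lit 1) (.p (nat_lit 338) (nat_lit 1) (.p (nat_lit 341) (nat_lit 1) (.p (nat_lit 342) (nat_lit 1) (.p (nat_lit 407) (nat_lit 1) (.p (nat_lit 408) (nat_lit 1) (.p (nat_lit 411) (nat_lit 1) (.p (nat_lit 412) (nat_lit 1) (.n (nat_lit 416) (nat_lit 1) (.p (nat_lit 418) (nat_lit 1) (.p (nat_lit 423) (nat_lit 1) (.p (nat_lit 424) (nat_lit 1) .z)))))))))))))))))))))))))))))))))))))))))))))))))) .nil)))))))))))))))))))))))))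

noncomputable def dC1c_i58 : IL := (.e false (nat_lit 2) (nat_lit 185) (nat_lit 1) (nat_lit 11) (.e false (nat_lit 1) (nat_lit 187) (nat_lit 1) (nat_lit 11) (.e true (nat_lit 1) (nat_lit 190) (nat_lit 1) (nat_lit 11) (.e true (nat_lit 1) (nat_lit 191) (nat_lit 1) (nat_lit 11) (.e true (nat_lit 1) (nat_lit 195) (nat_lit 1) (nat_lit 11) (.e true (nat_lit 3) (nat_lit 164) (nat_lit 2) (nat_lit 10) (.e false (nat_lit 2) (nat_lit 153) (nat_lit 2) (nat_lit 10) (.e false (nat_lit 1) (nat_lit 154) (nat_lit 2) (nat_lit 10) (.e true (nat_lit 1) (nat_lit 156) (nat_lit 2) (nat_lit 10) (.e false (nat_lit 3) (nat_lit 157) (nat_lit 2) (nat_lit 10) (.e true (nat_lit 1) (nat_lit 158) (nat_lit 2) (nat_lit 10) (.e true (nat_lit 1) (nat_lit 159) (nat_lit 2) (nat_lit 10) (.e true (nat_lit 3) (nat_lit 162) (nat_lit 2) (nat_lit 10) (.e true (nat_lit 3) (nat_lit 166) (nat_lit 2) (nat_lit 10) (.e true (nat_lit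 2) (nat_lit 167) (nat_lit 2) (nat_lit 10) (.e false (nat_lit 3) (nat_lit 168) (nat_lit 2) (nat_lit 10) (.e true (nat_lit 2) (nat_lit 171) (nat_lit 2) (nat_lit 10) (.e false (nat_lit 1) (nat_lit 172) (nat_lit 2) (nat_lit 10) (.e true (nat_lit 1) (nat_lit 163) (nat_lit 2) (nat_lit 10) (.e true (nat_lit 2) (nat_lit 169) (nat_lit 2) (nat_lit 10) (.e true (nat_lit 1) (nat_lit 165) (nat_lit 2) (nat_lit 10) (.e false (nat_lit 2) (nat_lit 155) (nat_lit 2) (nat_lit 10) (.e true (nat_lit 1) (nat_lit 160) (nat_lit 2) (nat_lit 10) (.e true (nat_lit 3) (nat_lit 161) (nat_lit 2) (nat_lit 10) (.u (nat_lit 2) (.p (nat_lit 0) (nat_lit 1) (.n (nat_lit 1) (nat_lit 1) (.p (nat_lit 2) (nat_lit 1) (.p (nat_lit 4) (nat_lit 3) (.p (nat_lit 5) (nat_lit 1) (.p (nat_lit 6) (nat_lit 2) (.n (nat_lit 7) (nat_lit 1) (.n (nat_lit 8) (nat_lit 3) (.n (nat_lit 10) (nat_lit 3) (.p (nat_lit 11) (nat_lit 1) (.n (nat_lit 26)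 (nat_lit 1) (.n (nat_lit 96) (nat_lit 1) (.n (nat_lit 97) (nat_lit 1) (.n (nat_lit 100) (nat_lit 1) (.p (nat_lit 105) (nat_lit 1) (.p (nat_lit 109) (nat_lit 1) (.n (nat_lit 111) (nat_lit 1) (.p (nat_lit 113) (nat_lit 1) (.n (nat_lit 114) (nat_lit 1) .z))))))))))))))))))) .nil)))))))))))))))))))))))))

noncomputable def dC1c_i59 : IL := (.e true (nat_lit 3) (nat_lit 311) (nat_lit 0) (nat_lit 19) (.e true (nat_lit 3) (nat_lit 313) (nat_lit 0) (nat_lit 19) (.e true (nat_lit 2) (nat_lit 314) (nat_lit 0) (nat_lit 19) (.e true (nat_lit 2) (nat_lit 315) (nat_lit 0) (nat_lit 19) (.e false (nat_lit 3) (nat_lit 317) (nat_lit 0) (nat_lit 19) (.e true (nat_lit 1) (nat_lit 318) (nat_lit 0) (nat_lit 19) (.e false (nat_lit 3) (nat_lit 319) (nat_lit 0) (nat_lit 19) (.e false (nat_lit 2) (nat_lit 212) (nat_lit 2) (nat_lit 17) (.e true (nat_lit 1) (nat_lit 213) (nat_lit 2) (nat_lit 17) (.e true (nat_lit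 2) (nat_lit 214) (nat_lit 2) (nat_lit 17) (.e true (nat_lit 2) (nat_lit 215) (nat_lit 2) (nat_lit 17) (.e false (nat_lit 1) (nat_lit 216) (nat_lit 2) (nat_lit 17) (.e true (nat_lit 1) (nat_lit 218) (nat_lit 2) (nat_lit 17) (.e true (nat_lit 2) (nat_lit 219) (nat_lit 2) (nat_lit 17) (.e false (nat_lit 2) (nat_lit 220) (nat_lit 2) (nat_lit 17) (.e true (nat_lit 2) (nat_lit 221) (nat_lit 2) (nat_lit 17) (.e false (nat_lit 3) (nat_lit 222) (nat_lit 2) (nat_lit 17) (.e false (nat_lit 3) (nat_lit 223) (nat_lit 2) (nat_lit 17) (.e false (nat_lit 1) (nat_lit 224) (nat_lit 2) (nat_lit 17) (.e false (nat_lit 3) (nat_lit 225) (nat_lit 2) (nat_lit 17) (.e true (nat_lit 3) (nat_lit 226) (nat_lit 2) (nat_lit 17) (.e true (nat_lit 2) (nat_lit 227) (nat_lit 2) (nat_lit 17) (.e false (nat_lit 2) (nat_lit 228) (nat_lit 2) (nat_lit 17) (.e true (nat_lit 2) (nat_lit 231) (nat_lit 2) (nat_lit 17) (.u (nat_lit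 2) (.n (nat_lit 0) (nat_lit 1) (.n (nat_lit 1) (nat_lit 3) (.n (nat_lit 2) (nat_lit 4) (.p (nat_lit 3) (nat_lit 1) (.p (nat_lit 4) (nat_lit 3) (.n (nat_lit 5) (nat_lit 1) (.p (nat_lit 6) (nat_lit 2) (.n (nat_lit 7) (nat_lit 2) (.p (nat_lit 8) (nat_lit 5) (.n (nat_lit 9) (nat_lit 1) (.p (nat_lit 10) (nat_lit 3) (.p (nat_lit 14) (nat_lit 3) (.n (nat_lit 15) (nat_lit 6) (.n (nat_lit 17) (nat_lit 3) (.n (nat_lit 19) (nat_lit 1) (.p (nat_lit 26) (nat_lit 2) (.p (nat_lit 28) (nat_lit 2) (.n (nat_lit 29) (nat_lit 3) (.n (nat_lit 30) (nat_lit 1) (.p (nat_lit 31) (nat_lit 2) (.n (nat_lit 32) (nat_lit 2) (.p (nat_lit 33) (nat_lit 1) (.n (nat_lit 35) (nat_lit 1) (.p (nat_lit 37) (nat_lit 1) (.p (nat_lit 38) (nat_lit 1) (.p (nat_lit 39) (nat_lit 1) (.n (nat_lit 40) (nat_lit 1) (.n (nat_lit 41) (nat_lit 1) (.n (nat_lit 49) (nat_lit 1) (.p (nat_lit 50) (nat_lit 1) (.n (nat_lit 51) (nat_lit 1) (.p (nat_lit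 53) (nat_lit 1) (.n (nat_lit 54) (nat_lit 2) (.p (nat_lit 55) (nat_lit 1) (.n (nat_lit 56) (nat_lit 1) (.p (nat_lit 407) (nat_lit 1) (.n (nat_lit 418) (nat_lit 1) (.n (nat_lit 421) (nat_lit 1) (.p (nat_lit 425) (nat_lit 1) .z))))))))))))))))))))))))))))))))))))))) .nil)))))))))))))))))))))))))

noncomputable def dC1c_i60 : IL := (.e true (nat_lit 3) (nat_lit 305) (nat_lit 0) (nat_lit 19) (.e true (nat_lit 1) (nat_lit 311) (nat_lit 0) (nat_lit 19) (.e false (nat_lit 1) (nat_lit 313) (nat_lit 0) (nat_lit 19) (.e true (nat_lit 1) (nat_lit 315) (nat_lit 0) (nat_lit 19) (.e true (nat_lit 1) (nat_lit 316) (nat_lit 0) (nat_lit 19) (.e true (nat_lit 1) (nat_lit 318) (nat_lit 0) (nat_lit 19) (.e false (nat_lit 1) (nat_lit 319) (nat_lit 0) (nat_lit 19) (.e true (nat_lit 1) (nat_lit 214) (nat_lit 2) (nat_lit 17) (.e true (nat_lit 2) (nat_lit 215) (nat_lit 2) (nat_lit 17) (.e true (nat_lit 1) (nat_lit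 217) (nat_lit 2) (nat_lit 17) (.e true (nat_lit 2) (nat_lit 218) (nat_lit 2) (nat_lit 17) (.e false (nat_lit 3) (nat_lit 219) (nat_lit 2) (nat_lit 17) (.e false (nat_lit 3) (nat_lit 221) (nat_lit 2) (nat_lit 17) (.e false (nat_lit 1) (nat_lit 223) (nat_lit 2) (nat_lit 17) (.e true (nat_lit 3) (nat_lit 224) (nat_lit 2) (nat_lit 17) (.e true (nat_lit 1) (nat_lit 225) (nat_lit 2) (nat_lit 17) (.e false (nat_lit 1) (nat_lit 226) (nat_lit 2) (nat_lit 17) (.e false (nat_lit 1) (nat_lit 228) (nat_lit 2) (nat_lit 17) (.e true (nat_lit 1) (nat_lit 229) (nat_lit 2) (nat_lit 17) (.e true (nat_lit 2) (nat_lit 213) (nat_lit 2) (nat_lit 17) (.e false (nat_lit 1) (nat_lit 220) (nat_lit 2) (nat_lit 17) (.e false (nat_lit 2) (nat_lit 227) (nat_lit 2) (nat_lit 17) (.e true (nat_lit 2) (nat_lit 230) (nat_lit 2) (nat_lit 17) (.e false (nat_lit 2) (nat_lit 231) (nat_lit 2) (nat_lit 17) (.u (nat_lit 2) (.p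 (nat_lit 0) (nat_lit 3) (.p (nat_lit 2) (nat_lit 2) (.p (nat_lit 3) (nat_lit 1) (.n (nat_lit 4) (nat_lit 3) (.p (nat_lit 5) (nat_lit 1) (.p (nat_lit 6) (nat_lit 1) (.n (nat_lit 7) (nat_lit 1) (.p (nat_lit 8) (nat_lit 3) (.n (nat_lit 9) (nat_lit 1) (.n (nat_lit 10) (nat_lit 1) (.p (nat_lit 11) (nat_lit 1) (.p (nat_lit 12) (nat_lit 2) (.n (nat_lit 14) (nat_lit 5) (.p (nat_lit 15) (nat_lit 3) (.p (nat_lit 17) (nat_lit 3) (.p (nat_lit 19) (nat_lit 1) (.n (nat_lit 27) (nat_lit 1) (.n (nat_lit 28) (nat_lit 2) (.p (nat_lit 29) (nat_lit 1) (.p (nat_lit 31) (nat_lit 1) (.p (nat_lit 33) (nat_lit 1) (.n (nat_lit 34) (nat_lit 1) (.n (nat_lit 35) (nat_lit 1) (.p (nat_lit 36) (nat_lit 1) (.n (nat_lit 37) (nat_lit 1) (.n (nat_lit 38) (nat_lit 1) (.n (nat_lit 40) (nat_lit 1) (.n (nat_lit 41) (nat_lit 1) (.p (nat_lit 49) (nat_lit 1) (.n (nat_lit 50) (nat_lit 2) (.n (nat_lit 53) (nat_lit 1) (.p (nat_lit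 56) (nat_lit 1) (.n (nat_lit 327) (nat_lit 1) (.n (nat_lit 329) (nat_lit 1) (.p (nat_lit 330) (nat_lit 1) (.n (nat_lit 331) (nat_lit 1) (.p (nat_lit 332) (nat_lit 1) (.p (nat_lit 333) (nat_lit 1) (.n (nat_lit 334) (nat_lit 1) (.n (nat_lit 335) (nat_lit 1) (.p (nat_lit 337) (nat_lit 1) (.p (nat_lit 338) (nat_lit 1) (.p (nat_lit 409) (nat_lit 1) (.p (nat_lit 419) (nat_lit 1) (.n (nat_lit 422) (nat_lit 1) (.p (nat_lit 423) (nat_lit 1) .z)))))))))))))))))))))))))))))))))))))))))))))) .nil)))))))))))))))))))))))))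

noncomputable def dC1c_i61 : IL := (.e false (nat_lit 3) (nat_lit 293) (nat_lit 2) (nat_lit 13) (.e true (nat_lit 1) (nat_lit 294) (nat_lit 2) (nat_lit 13) (.e true (nat_lit 1) (nat_lit 296) (nat_lit 2) (nat_lit 13) (.e false (nat_lit 3) (nat_lit 298) (nat_lit 2) (nat_lit 13) (.e false (nat_lit 1) (nat_lit 299) (nat_lit 2) (nat_lit 13) (.e false (nat_lit 1) (nat_lit 301) (nat_lit 2) (nat_lit 13) (.e false (nat_lit 1) (nat_lit 302) (nat_lit 2) (nat_lit 13) (.e false (nat_lit 3) (nat_lit 304) (nat_lit 2) (nat_lit 13) (.e false (nat_lit 3) (nat_lit 305) (nat_lit 2) (nat_lit 13) (.e true (nat_lit 3) (nat_lit 308) (nat_lit 2) (nat_lit 13) (.e false (nat_lit 1) (nat_lit 313) (nat_lit 2) (nat_lit 13) (.e true (nat_lit 1) (nat_lit 318) (nat_lit 2) (nat_lit 13) (.e true (nat_lit 2) (nat_lit 328) (nat_lit 1) (nat_lit 14) (.e true (nat_lit 1) (nat_lit 329) (nat_lit 1) (nat_lit 14) (.e false (nat_lit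 1) (nat_lit 330) (nat_lit 1) (nat_lit 14) (.e false (nat_lit 3) (nat_lit 331) (nat_lit 1) (nat_lit 14) (.e false (nat_lit 2) (nat_lit 332) (nat_lit 1) (nat_lit 14) (.e false (nat_lit 1) (nat_lit 334) (nat_lit 1) (nat_lit 14) (.e false (nat_lit 1) (nat_lit 335) (nat_lit 1) (nat_lit 14) (.e false (nat_lit 1) (nat_lit 336) (nat_lit 1) (nat_lit 14) (.e true (nat_lit 2) (nat_lit 337) (nat_lit 1) (nat_lit 14) (.e true (nat_lit 1) (nat_lit 338) (nat_lit 1) (nat_lit 14) (.e true (nat_lit 1) (nat_lit 339) (nat_lit 1) (nat_lit 14) (.e true (nat_lit 1) (nat_lit 340) (nat_lit 1) (nat_lit 14) (.u (nat_lit 2) (.p (nat_lit 1) (nat_lit 1) (.n (nat_lit 2) (nat_lit 2) (.p (nat_lit 4) (nat_lit 1) (.p (nat_lit 7) (nat_lit 1) (.p (nat_lit 8) (nat_lit 2) (.p (nat_lit 9) (nat_lit 2) (.n (nat_lit 10) (nat_lit 3) (.n (nat_lit 11) (nat_lit 2) (.p (nat_lit 13) (nat_lit 3) (.p (nat_lit 14) (nat_lit 3) (.n (nat_lit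 15) (nat_lit 1) (.n (nat_lit 16) (nat_lit 3) (.p (nat_lit 17) (nat_lit 1) (.n (nat_lit 18) (nat_lit 1) (.p (nat_lit 19) (nat_lit 2) (.p (nat_lit 20) (nat_lit 1) (.n (nat_lit 21) (nat_lit 1) (.p (nat_lit 26) (nat_lit 1) (.p (nat_lit 27) (nat_lit 1) (.n (nat_lit 29) (nat_lit 1) (.n (nat_lit 33) (nat_lit 1) .z))))))))))))))))))))) .nil)))))))))))))))))))))))))

noncomputable def dC1c_c36 : Cm := .mk (nat_lit 379) (nat_lit 36) (nat_lit 196) (nat_lit 6) (.c (nat_lit 16) (nat_lit 2) (nat_lit 16) (nat_lit 2) (nat_lit 6) (.c (nat_lit 18) (nat_lit 1) (nat_lit 13) (nat_lit 1) (nat_lit 10) (.c (nat_lit 37) (nat_lit 3) (nat_lit 6) (nat_lit 1) (nat_lit 11) (.c (nat_lit 43) (nat_lit 3) (nat_lit 5) (nat_lit 1) (nat_lit 14) (.c (nat_lit 93) (nat_lit 5) (nat_lit 2) (nat_lit 1) (nat_lit 17) (.c (nat_lit 102) (nat_lit 4) (nat_lit 1) (nat_lit 1) (nat_lit 22) (.c (nat_lit 2032) (nat_lit 0) (nat_lit 46) (nat_lit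 1) (nat_lit 26) .nil)))))))

noncomputable def dC1c_i62 : IL := (.e false (nat_lit 3) (nat_lit 308) (nat_lit 0) (nat_lit 19) (.e true (nat_lit 1) (nat_lit 311) (nat_lit 0) (nat_lit 19) (.e false (nat_lit 2) (nat_lit 313) (nat_lit 0) (nat_lit 19) (.e true (nat_lit 2) (nat_lit 315) (nat_lit 0) (nat_lit 19) (.e false (nat_lit 3) (nat_lit 316) (nat_lit 0) (nat_lit 19) (.e true (nat_lit 3) (nat_lit 317) (nat_lit 0) (nat_lit 19) (.e false (nat_lit 1) (nat_lit 319) (nat_lit 0) (nat_lit 19) (.e true (nat_lit 3) (nat_lit 212) (nat_lit 2) (nat_lit 17) (.e true (nat_lit 1) (nat_lit 213) (nat_lit 2) (nat_lit 17) (.e false (nat_lit 2) (nat_lit 214) (nat_lit 2) (nat_lit 17) (.e false (nat_lit 3) (nat_lit 216) (nat_lit 2) (nat_lit 17) (.e true (nat_lit 3) (nat_lit 217) (nat_lit 2) (nat_lit 17) (.e false (nat_lit 2) (nat_lit 218) (nat_lit 2) (nat_lit 17) (.e false (nat_lit 3) (nat_lit 221) (nat_lit 2)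 (nat_lit 17) (.e false (nat_lit 3) (nat_lit 222) (nat_lit 2) (nat_lit 17) (.e false (nat_lit 3) (nat_lit 223) (nat_lit 2) (nat_lit 17) (.e false (nat_lit 3) (nat_lit 224) (nat_lit 2) (nat_lit 17) (.e true (nat_lit 2) (nat_lit 225) (nat_lit 2) (nat_lit 17) (.e true (nat_lit 2) (nat_lit 226) (nat_lit 2) (nat_lit 17) (.e false (nat_lit 3) (nat_lit 227) (nat_lit 2) (nat_lit 17) (.e false (nat_lit 2) (nat_lit 228) (nat_lit 2) (nat_lit 17) (.e false (nat_lit 1) (nat_lit 229) (nat_lit 2) (nat_lit 17) (.e false (nat_lit 3) (nat_lit 230) (nat_lit 2) (nat_lit 17) (.e true (nat_lit 3) (nat_lit 231) (nat_lit 2) (nat_lit 17) (.u (nat_lit 2) (.p (nat_lit 1) (nat_lit 1) (.n (nat_lit 2) (nat_lit 2) (.p (nat_lit 3) (nat_lit 2) (.p (nat_lit 4) (nat_lit 4) (.n (nat_lit 5) (nat_lit 2) (.n (nat_lit 6) (nat_lit 2) (.p (nat_lit 7) (nat_lit 1) (.n (nat_lit 8) (nat_lit 2) (.n (nat_lit 9) (nat_lit 2) (.p (nat_lit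 10) (nat_lit 1) (.n (nat_lit 11) (nat_lit 2) (.n (nat_lit 12) (nat_lit 3) (.n (nat_lit 14) (nat_lit 3) (.n (nat_lit 15) (nat_lit 1) (.n (nat_lit 19) (nat_lit 1) (.p (nat_lit 26) (nat_lit 1) (.n (nat_lit 27) (nat_lit 1) (.p (nat_lit 30) (nat_lit 1) (.p (nat_lit 31) (nat_lit 1) (.n (nat_lit 32) (nat_lit 3) (.p (nat_lit 33) (nat_lit 1) (.n (nat_lit 34) (nat_lit 2) (.n (nat_lit 35) (nat_lit 4) (.p (nat_lit 36) (nat_lit 2) (.p (nat_lit 38) (nat_lit 3) (.p (nat_lit 39) (nat_lit 2) (.n (nat_lit 40) (nat_lit 4) (.n (nat_lit 49) (nat_lit 2) (.p (nat_lit 51) (nat_lit 1) (.p (nat_lit 52) (nat_lit 2) (.n (nat_lit 54) (nat_lit 1) (.p (nat_lit 55) (nat_lit 1) (.n (nat_lit 56) (nat_lit 1) (.p (nat_lit 57) (nat_lit 1) (.p (nat_lit 406) (nat_lit 1) (.n (nat_lit 420) (nat_lit 1) .z)))))))))))))))))))))))))))))))))))) .nil)))))))))))))))))))))))))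

noncomputable def dC1c_c517 : Cm := .mk (nat_lit 791) (nat_lit 517) (nat_lit 320) (nat_lit 8) (.c (nat_lit 28) (nat_lit 3) (nat_lit 18) (nat_lit 1) (nat_lit 8) (.c (nat_lit 40) (nat_lit 3) (nat_lit 14) (nat_lit 2) (nat_lit 11) (.c (nat_lit 46) (nat_lit 1) (nat_lit 9) (nat_lit 1) (nat_lit 17) (.c (nat_lit 77) (nat_lit 5) (nat_lit 6) (nat_lit 1) (nat_lit 18) (.c (nat_lit 98) (nat_lit 4) (nat_lit 4) (nat_lit 1) (nat_lit 23) (.c (nat_lit 174) (nat_lit 6) (nat_lit 2) (nat_lit 1) (nat_lit 27) (.c (nat_lit 202) (nat_lit 5) (nat_lit 0) (nat_lit 1) (nat_lit 33) (.c (nat_lit 2512) (nat_lit 0) (nat_lit 106) (nat_lit 1) (nat_lit 38) .nil))))))))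

noncomputable def dC1c_i63 : IL := (.e true (nat_lit 1) (nat_lit 290) (nat_lit 0) (nat_lit 19) (.e true (nat_lit 1) (nat_lit 292) (nat_lit 0) (nat_lit 19) (.e true (nat_lit 3) (nat_lit 293) (nat_lit 0) (nat_lit 19) (.e false (nat_lit 2) (nat_lit 294) (nat_lit 0) (nat_lit 19) (.e true (nat_lit 1) (nat_lit 295) (nat_lit 0) (nat_lit 19) (.e false (nat_lit 2) (nat_lit 296) (nat_lit 0) (nat_lit 19) (.e true (nat_lit 2) (nat_lit 297) (nat_lit 0) (nat_lit 19) (.e true (nat_lit 3) (nat_lit 298) (nat_lit 0) (nat_lit 19) (.e false (nat_lit 2) (nat_lit 299) (nat_lit 0) (nat_lit 19) (.e true (nat_lit 3) (nat_lit 300) (nat_lit 0) (nat_lit 19) (.e true (nat_lit 2) (nat_lit 301) (nat_lit 0) (nat_lit 19) (.e false (nat_lit 2) (nat_lit 302) (nat_lit 0) (nat_lit 19) (.e false (nat_lit 3) (nat_lit 304) (nat_lit 0) (nat_lit 19) (.e true (nat_lit 1) (nat_lit 305) (nat_lit 0) (nat_lit 19) (.e true (nat_lit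 2) (nat_lit 307) (nat_lit 0) (nat_lit 19) (.e false (nat_lit 1) (nat_lit 308) (nat_lit 0) (nat_lit 19) (.e false (nat_lit 2) (nat_lit 310) (nat_lit 0) (nat_lit 19) (.e true (nat_lit 1) (nat_lit 311) (nat_lit 0) (nat_lit 19) (.e true (nat_lit 1) (nat_lit 314) (nat_lit 0) (nat_lit 19) (.e true (nat_lit 1) (nat_lit 315) (nat_lit 0) (nat_lit 19) (.e false (nat_lit 1) (nat_lit 316) (nat_lit 0) (nat_lit 19) (.e false (nat_lit 2) (nat_lit 317) (nat_lit 0) (nat_lit 19) (.e true (nat_lit 1) (nat_lit 318) (nat_lit 0) (nat_lit 19) (.e false (nat_lit 1) (nat_lit 319) (nat_lit 0) (nat_lit 19) (.u (nat_lit 2) (.p (nat_lit 1) (nat_lit 1) (.p (nat_lit 2) (nat_lit 1) (.n (nat_lit 3) (nat_lit 1) (.n (nat_lit 4) (nat_lit 1) (.p (nat_lit 6) (nat_lit 1) (.n (nat_lit 7) (nat_lit 1) (.n (nat_lit 8) (nat_lit 1) (.p (nat_lit 9) (nat_lit 2) (.p (nat_lit 14) (nat_lit 3) (.p (nat_lit 17) (nat_lit 1) (.p (nat_lit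 18) (nat_lit 1) (.n (nat_lit 30) (nat_lit 2) (.p (nat_lit 31) (nat_lit 1) (.n (nat_lit 32) (nat_lit 1) (.n (nat_lit 33) (nat_lit 1) (.n (nat_lit 35) (nat_lit 1) (.p (nat_lit 36) (nat_lit 1) (.p (nat_lit 37) (nat_lit 1) (.n (nat_lit 39) (nat_lit 1) (.n (nat_lit 40) (nat_lit 1) (.n (nat_lit 41) (nat_lit 1) (.p (nat_lit 375) (nat_lit 1) (.n (nat_lit 376) (nat_lit 1) (.n (nat_lit 378) (nat_lit 1) (.n (nat_lit 379) (nat_lit 1) (.n (nat_lit 393) (nat_lit 1) (.p (nat_lit 401) (nat_lit 1) .z))))))))))))))))))))))))))) .nil)))))))))))))))))))))))))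

noncomputable def dC1c_i64 : IL := (.e true (nat_lit 1) (nat_lit 40) (nat_lit 32) (nat_lit 0) (.e false (nat_lit 1) (nat_lit 91) (nat_lit 14) (nat_lit 5) (.e false (nat_lit 3) (nat_lit 260) (nat_lit 2) (nat_lit 13) (.e true (nat_lit 3) (nat_lit 261) (nat_lit 2) (nat_lit 13) (.e true (nat_lit 2) (nat_lit 262) (nat_lit 2) (nat_lit 13) (.e false (nat_lit 3) (nat_lit 265) (nat_lit 2) (nat_lit 13) (.e false (nat_lit 2) (nat_lit 266) (nat_lit 2) (nat_lit 13) (.e false (nat_lit 3) (nat_lit 267) (nat_lit 2) (nat_lit 13) (.e false (nat_lit 2) (nat_lit 268) (nat_lit 2) (nat_lit 13) (.e true (nat_lit 2) (nat_lit 269) (nat_lit 2) (nat_lit 13) (.e false (nat_lit 1) (nat_lit 270) (nat_lit 2) (nat_lit 13) (.e true (nat_lit 3) (nat_lit 271) (nat_lit 2) (nat_lit 13) (.e false (nat_lit 3) (nat_lit 272) (nat_lit 2) (nat_lit 13) (.e false (nat_lit 1) (nat_lit 274) (nat_lit 2) (nat_lit 13) (.e false (nat_lit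 3) (nat_lit 277) (nat_lit 2) (nat_lit 13) (.e true (nat_lit 1) (nat_lit 278) (nat_lit 2) (nat_lit 13) (.e true (nat_lit 1) (nat_lit 280) (nat_lit 2) (nat_lit 13) (.e true (nat_lit 1) (nat_lit 284) (nat_lit 2) (nat_lit 13) (.e false (nat_lit 3) (nat_lit 286) (nat_lit 2) (nat_lit 13) (.e false (nat_lit 2) (nat_lit 287) (nat_lit 2) (nat_lit 13) (.e false (nat_lit 2) (nat_lit 288) (nat_lit 2) (nat_lit 13) (.e false (nat_lit 1) (nat_lit 263) (nat_lit 2) (nat_lit 13) (.e false (nat_lit 3) (nat_lit 264) (nat_lit 2) (nat_lit 13) (.e true (nat_lit 1) (nat_lit 276) (nat_lit 2) (nat_lit 13) (.u (nat_lit 2) (.p (nat_lit 0) (nat_lit 2) (.p (nat_lit 1) (nat_lit 3) (.n (nat_lit 2) (nat_lit 2) (.p (nat_lit 3) (nat_lit 2) (.n (nat_lit 4) (nat_lit 1) (.p (nat_lit 5) (nat_lit 2) (.p (nat_lit 9) (nat_lit 1) (.p (nat_lit 10) (nat_lit 1) (.p (nat_lit 12) (nat_lit 3) (.n (nat_lit 15) (nat_lit 5) (.n (nat_lit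 16) (nat_lit 3) (.n (nat_lit 17) (nat_lit 1) (.n (nat_lit 18) (nat_lit 3) (.n (nat_lit 19) (nat_lit 1) (.p (nat_lit 23) (nat_lit 1) (.p (nat_lit 25) (nat_lit 1) (.n (nat_lit 26) (nat_lit 1) (.n (nat_lit 30) (nat_lit 1) (.p (nat_lit 33) (nat_lit 2) (.p (nat_lit 175) (nat_lit 1) (.n (nat_lit 178) (nat_lit 1) .z))))))))))))))))))))) .nil)))))))))))))))))))))))))

noncomputable def dC1c_c516 : Cm := .mk (nat_lit 323) (nat_lit 516) (nat_lit 174) (nat_lit 6) (.c (nat_lit 14) (nat_lit 2) (nat_lit 14) (nat_lit 2) (nat_lit 6) (.c (nat_lit 18) (nat_lit 1) (nat_lit 9) (nat_lit 1) (nat_lit 10) (.c (nat_lit 28) (nat_lit 3) (nat_lit 6) (nat_lit 1) (nat_lit 11) (.c (nat_lit 40) (nat_lit 3) (nat_lit 4) (nat_lit 1) (nat_lit 14) (.c (nat_lit 77) (nat_lit 5) (nat_lit 2) (nat_lit 1) (nat_lit 17) (.c (nat_lit 98) (nat_lit 4) (nat_lit 0) (nat_lit 1) (nat_lit 22) (.c (nat_lit 2512) (nat_lit 0) (nat_lit 46)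 (nat_lit 1) (nat_lit 26) .nil)))))))

noncomputable def dC1c_c276 : Cm := .mk (nat_lit 340) (nat_lit 276) (nat_lit 180) (nat_lit 16) (.c (nat_lit 16) (nat_lit 2) (nat_lit 14) (nat_lit 2) (nat_lit 16) (.c (nat_lit 18) (nat_lit 1) (nat_lit 10) (nat_lit 3) (nat_lit 20) (.c (nat_lit 31) (nat_lit 6) (nat_lit 6) (nat_lit 1) (nat_lit 23) (.c (nat_lit 40) (nat_lit 3) (nat_lit 5) (nat_lit 1) (nat_lit 29) (.c (nat_lit 43) (nat_lit 3) (nat_lit 4) (nat_lit 1) (nat_lit 32) (.c (nat_lit 46) (nat_lit 1) (nat_lit 3) (nat_lit 1) (nat_lit 35) (.c (nat_lit 82) (nat_lit 11) (nat_lit 2) (nat_lit 1) (nat_lit 36) (.c (nat_lit 98) (nat_lit 4) (nat_lit 1) (nat_lit 1) (nat_lit 47) (.c (nat_lit 102) (nat_lit 4) (nat_lit 0) (nat_lit 1) (nat_lit 51) .nil)))))))))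

noncomputable def dC1c_i65 : IL := (.e true (nat_lit 1) (nat_lit 311) (nat_lit 0) (nat_lit 19) (.e true (nat_lit 1) (nat_lit 290) (nat_lit 0) (nat_lit 19) (.e true (nat_lit 3) (nat_lit 293) (nat_lit 0) (nat_lit 19) (.e true (nat_lit 1) (nat_lit 294) (nat_lit 0) (nat_lit 19) (.e true (nat_lit 2) (nat_lit 296) (nat_lit 0) (nat_lit 19) (.e false (nat_lit 2) (nat_lit 297) (nat_lit 0) (nat_lit 19) (.e true (nat_lit 3) (nat_lit 298) (nat_lit 0) (nat_lit 19) (.e false (nat_lit 3) (nat_lit 301) (nat_lit 0) (nat_lit 19) (.e false (nat_lit 1) (nat_lit 307) (nat_lit 0) (nat_lit 19) (.e false (nat_lit 2) (nat_lit 317) (nat_lit 0) (nat_lit 19) (.e false (nat_lit 2) (nat_lit 291) (nat_lit 0) (nat_lit 19) (.e false (nat_lit 3) (nat_lit 302) (nat_lit 0) (nat_lit 19) (.e false (nat_lit 2) (nat_lit 305) (nat_lit 0) (nat_lit 19) (.e false (nat_lit 3) (nat_lit 310) (nat_lit 0) (nat_lit 19) (.e false (nat_lit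 2) (nat_lit 316) (nat_lit 0) (nat_lit 19) (.e true (nat_lit 1) (nat_lit 300) (nat_lit 0) (nat_lit 19) (.e true (nat_lit 2) (nat_lit 314) (nat_lit 0) (nat_lit 19) (.e true (nat_lit 2) (nat_lit 295) (nat_lit 0) (nat_lit 19) (.e true (nat_lit 2) (nat_lit 315) (nat_lit 0) (nat_lit 19) (.e false (nat_lit 3) (nat_lit 304) (nat_lit 0) (nat_lit 19) (.e true (nat_lit 3) (nat_lit 308) (nat_lit 0) (nat_lit 19) (.e false (nat_lit 1) (nat_lit 319) (nat_lit 0) (nat_lit 19) (.e true (nat_lit 1) (nat_lit 318) (nat_lit 0) (nat_lit 19) (.u (nat_lit 2) (.p (nat_lit 1) (nat_lit 1) (.n (nat_lit 3) (nat_lit 1) (.n (nat_lit 4) (nat_lit 1) (.n (nat_lit 6) (nat_lit 1) (.p (nat_lit 7) (nat_lit 1) (.p (nat_lit 8) (nat_lit 2) (.p (nat_lit 9) (nat_lit 6) (.p (nat_lit 10) (nat_lit 1) (.p (nat_lit 11) (nat_lit 1) (.n (nat_lit 14) (nat_lit 1) (.p (nat_lit 15) (nat_lit 2) (.n (nat_lit 17) (nat_lit 2) (.p (nat_lit 18)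 (nat_lit 1) (.p (nat_lit 19) (nat_lit 3) (.n (nat_lit 20) (nat_lit 1) (.n (nat_lit 27) (nat_lit 4) (.n (nat_lit 28) (nat_lit 2) (.p (nat_lit 31) (nat_lit 3) (.n (nat_lit 32) (nat_lit 2) (.p (nat_lit 33) (nat_lit 3) (.n (nat_lit 35) (nat_lit 1) (.n (nat_lit 37) (nat_lit 4) (.p (nat_lit 38) (nat_lit 1) (.p (nat_lit 39) (nat_lit 2) (.n (nat_lit 40) (nat_lit 1) (.p (nat_lit 41) (nat_lit 1) (.p (nat_lit 375) (nat_lit 1) (.p (nat_lit 376) (nat_lit 1) (.n (nat_lit 378) (nat_lit 1) (.n (nat_lit 380) (nat_lit 2) (.n (nat_lit 381) (nat_lit 4) (.n (nat_lit 382) (nat_lit 1) (.n (nat_lit 383) (nat_lit 1) (.p (nat_lit 384) (nat_lit 3) (.p (nat_lit 385) (nat_lit 1) (.p (nat_lit 386) (nat_lit 1) (.n (nat_lit 387) (nat_lit 2) (.p (nat_lit 388) (nat_lit 2) (.n (nat_lit 389) (nat_lit 3) (.p (nat_lit 392) (nat_lit 3) (.p (nat_lit 393) (nat_lit 2) (.p (nat_lit 394) (nat_lit 2) (.p (nat_lit 395) (nat_lit 1)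 (.n (nat_lit 397) (nat_lit 1) (.p (nat_lit 398) (nat_lit 1) (.n (nat_lit 401) (nat_lit 2) (.n (nat_lit 402) (nat_lit 2) (.n (nat_lit 403) (nat_lit 1) (.p (nat_lit 404) (nat_lit 1) (.n (nat_lit 405) (nat_lit 1) (.n (nat_lit 407) (nat_lit 2) (.n (nat_lit 408) (nat_lit 1) (.n (nat_lit 409) (nat_lit 2) (.n (nat_lit 410) (nat_lit 1) (.n (nat_lit 411) (nat_lit 1) (.p (nat_lit 412) (nat_lit 1) (.p (nat_lit 413) (nat_lit 2) (.p (nat_lit 414) (nat_lit 1) (.p (nat_lit 415) (nat_lit 2) (.n (nat_lit 416) (nat_lit 2) .z)))))))))))))))))))))))))))))))))))))))))))))))))))))))))))) (.u (nat_lit 2) (.p (nat_lit 417) (nat_lit 1) (.n (nat_lit 420) (nat_lit 1) (.n (nat_lit 425) (nat_lit 1) (.p (nat_lit 433) (nat_lit 1) .z)))) .nil)))))))))))))))))))))))))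

noncomputable def dC1c_i66 : IL := (.s false (nat_lit 1) (nat_lit 5) (nat_lit 2) (nat_lit 4) (nat_lit 2) true (nat_lit 2) true (nat_lit 6) true (nat_lit 3) true (nat_lit 6) true (nat_lit 4) (.s true (nat_lit 3) (nat_lit 6) (nat_lit 0) (nat_lit 2) (nat_lit 5) true (nat_lit 1) true (nat_lit 3) true (nat_lit 2) true (nat_lit 8) true (nat_lit 6) (.s true (nat_lit 3) (nat_lit 6) (nat_lit 1) (nat_lit 4) (nat_lit 2) true (nat_lit 3) true (nat_lit 6) true (nat_lit 2) true (nat_lit 7) true (nat_lit 4) (.s false (nat_lit 1) (nat_lit 14) (nat_lit 1) (nat_lit 2) (nat_lit 2) true (nat_lit 3) true (nat_lit 6) true (nat_lit 0) true (nat_lit 7) true (nat_lit 6) (.s true (nat_lit 3) (nat_lit 15) (nat_lit 2) (nat_lit 1) (nat_lit 2) true (nat_lit 2) true (nat_lit 6) true (nat_lit 0) true (nat_lit 6) true (nat_lit 7) (.s true (nat_lit 3) (nat_lit 16) (nat_lit 0) (nat_lit 2) (nat_lit 2) true (nat_lit 4)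 true (nat_lit 6) false (nat_lit 0) true (nat_lit 8) true (nat_lit 6) (.s false (nat_lit 3) (nat_lit 16) (nat_lit 2) (nat_lit 0) (nat_lit 2) true (nat_lit 2) true (nat_lit 6) false (nat_lit 0) true (nat_lit 6) true (nat_lit 8) (.s true (nat_lit 3) (nat_lit 16) (nat_lit 2) (nat_lit 2) (nat_lit 0) true (nat_lit 4) true (nat_lit 8) false (nat_lit 0) true (nat_lit 6) true (nat_lit 6) (.s true (nat_lit 3) (nat_lit 18) (nat_lit 1) (nat_lit 0) (nat_lit 2) true (nat_lit 3) true (nat_lit 6) false (nat_lit 1) true (nat_lit 7) true (nat_lit 8) (.s true (nat_lit 3) (nat_lit 18) (nat_lit 2) (nat_lit 1) (nat_lit 0) true (nat_lit 4) true (nat_lit 8) false (nat_lit 1) true (nat_lit 6) true (nat_lit 7) (.e false (nat_lit 3) (nat_lit 31) (nat_lit 6) (nat_lit 2) (.e true (nat_lit 1) (nat_lit 32) (nat_lit 6) (nat_lit 2) (.e false (nat_lit 3) (nat_lit 82) (nat_lit 2) (nat_lit 6) (.e false (nat_lit 3) (nat_lit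 83) (nat_lit 2) (nat_lit 6) (.e true (nat_lit 1) (nat_lit 85) (nat_lit 2) (nat_lit 6) (.e false (nat_lit 3) (nat_lit 86) (nat_lit 2) (nat_lit 6) (.e false (nat_lit 3) (nat_lit 87) (nat_lit 2) (nat_lit 6) (.e true (nat_lit 1) (nat_lit 88) (nat_lit 2) (nat_lit 6) (.e false (nat_lit 2) (nat_lit 91) (nat_lit 2) (nat_lit 6) (.e true (nat_lit 1) (nat_lit 89) (nat_lit 2) (nat_lit 6) (.e false (nat_lit 1) (nat_lit 92) (nat_lit 2) (nat_lit 6) (.e false (nat_lit 1) (nat_lit 84) (nat_lit 2) (nat_lit 6) (.e true (nat_lit 2) (nat_lit 90) (nat_lit 2) (nat_lit 6) (.e false (nat_lit 3) (nat_lit 18) (nat_lit 10) (nat_lit 1) (.u (nat_lit 2) (.n (nat_lit 8) (nat_lit 1) (.p (nat_lit 12) (nat_lit 1) (.n (nat_lit 16) (nat_lit 1) (.n (nat_lit 23) (nat_lit 1) (.p (nat_lit 27) (nat_lit 1) (.n (nat_lit 28) (nat_lit 1) (.n (nat_lit 32) (nat_lit 1) (.p (nat_lit 36) (nat_lit 1) (.p (nat_lit 37) (nat_lit 1) (.n (nat_lit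 38) (nat_lit 1) (.p (nat_lit 39) (nat_lit 1) (.n (nat_lit 40) (nat_lit 1) (.p (nat_lit 42) (nat_lit 1) (.n (nat_lit 44) (nat_lit 1) (.n (nat_lit 45) (nat_lit 1) (.p (nat_lit 49) (nat_lit 1) (.n (nat_lit 50) (nat_lit 1) .z))))))))))))))))) .nil)))))))))))))))))))))))))

noncomputable def dC1c_i67 : IL := (.s false (nat_lit 3) (nat_lit 41) (nat_lit 2) (nat_lit 2) (nat_lit 1) true (nat_lit 5) true (nat_lit 9) false (nat_lit 1) true (nat_lit 8) true (nat_lit 8) (.s false (nat_lit 3) (nat_lit 42) (nat_lit 2) (nat_lit 2) (nat_lit 1) true (nat_lit 5) true (nat_lit 9) false (nat_lit 1) true (nat_lit 8) true (nat_lit 8) (.s true (nat_lit 3) (nat_lit 45) (nat_lit 0) (nat_lit 2) (nat_lit 2) true (nat_lit 6) true (nat_lit 8) false (nat_lit 2) true (nat_lit 10) true (nat_lit 8) (.s false (nat_lit 3) (nat_lit 46) (nat_lit 2) (nat_lit 0) (nat_lit 1) true (nat_lit 5) true (nat_lit 9) false (nat_lit 3)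 true (nat_lit 8) true (nat_lit 10) (.s true (nat_lit 3) (nat_lit 46) (nat_lit 2) (nat_lit 1) (nat_lit 0) true (nat_lit 6) true (nat_lit 10) false (nat_lit 3) true (nat_lit 8) true (nat_lit 9) (.e false (nat_lit 3) (nat_lit 32) (nat_lit 18) (nat_lit 0) (.e true (nat_lit 3) (nat_lit 83) (nat_lit 6) (nat_lit 4) (.e false (nat_lit 3) (nat_lit 91) (nat_lit 6) (nat_lit 4) (.e false (nat_lit 2) (nat_lit 183) (nat_lit 2) (nat_lit 8) (.e true (nat_lit 3) (nat_lit 185) (nat_lit 2) (nat_lit 8) (.e true (nat_lit 2) (nat_lit 186) (nat_lit 2) (nat_lit 8) (.e false (nat_lit 1) (nat_lit 188) (nat_lit 2) (nat_lit 8) (.e true (nat_lit 1) (nat_lit 191) (nat_lit 2) (nat_lit 8) (.e false (nat_lit 2) (nat_lit 193) (nat_lit 2) (nat_lit 8) (.e false (nat_lit 1) (nat_lit 195) (nat_lit 2) (nat_lit 8) (.e true (nat_lit 3) (nat_lit 187) (nat_lit 2) (nat_lit 8) (.e true (nat_lit 2) (nat_lit 190) (nat_lit 2) (nat_lit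 8) (.e true (nat_lit 2) (nat_lit 180) (nat_lit 2) (nat_lit 8) (.e false (nat_lit 1) (nat_lit 181) (nat_lit 2) (nat_lit 8) (.e false (nat_lit 2) (nat_lit 184) (nat_lit 2) (nat_lit 8) (.e false (nat_lit 2) (nat_lit 182) (nat_lit 2) (nat_lit 8) (.e true (nat_lit 3) (nat_lit 194) (nat_lit 2) (nat_lit 8) (.e false (nat_lit 3) (nat_lit 33) (nat_lit 18) (nat_lit 0) (.e false (nat_lit 3) (nat_lit 46) (nat_lit 12) (nat_lit 3) (.u (nat_lit 2) (.p (nat_lit 2) (nat_lit 1) (.n (nat_lit 6) (nat_lit 1) (.n (nat_lit 7) (nat_lit 1) (.n (nat_lit 10) (nat_lit 1) (.p (nat_lit 12) (nat_lit 1) (.n (nat_lit 13) (nat_lit 1) (.p (nat_lit 18) (nat_lit 1) (.p (nat_lit 53) (nat_lit 1) (.p (nat_lit 54) (nat_lit 1) (.n (nat_lit 58) (nat_lit 1) (.p (nat_lit 60) (nat_lit 3) (.p (nat_lit 61) (nat_lit 4) (.n (nat_lit 62) (nat_lit 1) (.n (nat_lit 63) (nat_lit 9) (.n (nat_lit 64) (nat_lit 3) (.n (nat_lit 65) (nat_lit 3)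 (.n (nat_lit 66) (nat_lit 2) (.p (nat_lit 67) (nat_lit 1) (.n (nat_lit 68) (nat_lit 1) (.p (nat_lit 69) (nat_lit 7) (.p (nat_lit 70) (nat_lit 4) (.p (nat_lit 71) (nat_lit 1) (.p (nat_lit 73) (nat_lit 1) (.p (nat_lit 75) (nat_lit 1) .z)))))))))))))))))))))))) .nil)))))))))))))))))))))))))

noncomputable def dC1c_i68 : IL := (.e false (nat_lit 1) (nat_lit 278) (nat_lit 1) (nat_lit 18) (.e true (nat_lit 3) (nat_lit 266) (nat_lit 1) (nat_lit 18) (.e true (nat_lit 2) (nat_lit 274) (nat_lit 1) (nat_lit 18) (.e false (nat_lit 3) (nat_lit 277) (nat_lit 1) (nat_lit 18) (.e true (nat_lit 3) (nat_lit 290) (nat_lit 0) (nat_lit 19) (.e true (nat_lit 3) (nat_lit 292) (nat_lit 0) (nat_lit 19) (.e false (nat_lit 3) (nat_lit 293) (nat_lit 0) (nat_lit 19) (.e false (nat_lit 3) (nat_lit 296) (nat_lit 0) (nat_lit 19) (.e true (nat_lit 3) (nat_lit 297) (nat_lit 0) (nat_lit 19) (.e false (nat_lit 3) (nat_lit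 298) (nat_lit 0) (nat_lit 19) (.e true (nat_lit 2) (nat_lit 300) (nat_lit 0) (nat_lit 19) (.e true (nat_lit 3) (nat_lit 304) (nat_lit 0) (nat_lit 19) (.e false (nat_lit 1) (nat_lit 307) (nat_lit 0) (nat_lit 19) (.e false (nat_lit 3) (nat_lit 317) (nat_lit 0) (nat_lit 19) (.e true (nat_lit 1) (nat_lit 305) (nat_lit 0) (nat_lit 19) (.e true (nat_lit 3) (nat_lit 310) (nat_lit 0) (nat_lit 19) (.e false (nat_lit 2) (nat_lit 318) (nat_lit 0) (nat_lit 19) (.e false (nat_lit 3) (nat_lit 295) (nat_lit 0) (nat_lit 19) (.e true (nat_lit 2) (nat_lit 301) (nat_lit 0) (nat_lit 19) (.e false (nat_lit 2) (nat_lit 302) (nat_lit 0) (nat_lit 19) (.e false (nat_lit 3) (nat_lit 308) (nat_lit 0) (nat_lit 19) (.e false (nat_lit 1) (nat_lit 294) (nat_lit 0) (nat_lit 19) (.e false (nat_lit 2) (nat_lit 316) (nat_lit 0) (nat_lit 19) (.u (nat_lit 2) (.p (nat_lit 0) (nat_lit 1) (.n (nat_lit 1) (nat_lit 1) (.n (nat_lit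 2) (nat_lit 1) (.n (nat_lit 3) (nat_lit 1) (.n (nat_lit 4) (nat_lit 2) (.p (nat_lit 6) (nat_lit 3) (.n (nat_lit 7) (nat_lit 3) (.n (nat_lit 8) (nat_lit 2) (.n (nat_lit 9) (nat_lit 3) (.n (nat_lit 11) (nat_lit 1) (.p (nat_lit 14) (nat_lit 5) (.n (nat_lit 15) (nat_lit 2) (.p (nat_lit 17) (nat_lit 2) (.p (nat_lit 18) (nat_lit 2) (.n (nat_lit 19) (nat_lit 2) (.n (nat_lit 20) (nat_lit 1) (.n (nat_lit 26) (nat_lit 1) (.p (nat_lit 27) (nat_lit 3) (.p (nat_lit 28) (nat_lit 2) (.n (nat_lit 29) (nat_lit 1) (.n (nat_lit 30) (nat_lit 1) (.n (nat_lit 31) (nat_lit 1) (.p (nat_lit 32) (nat_lit 2) (.n (nat_lit 33) (nat_lit 3) (.p (nat_lit 37) (nat_lit 2) (.n (nat_lit 38) (nat_lit 1) (.n (nat_lit 39) (nat_lit 1) (.n (nat_lit 41) (nat_lit 1) (.p (nat_lit 375) (nat_lit 2) (.p (nat_lit 376) (nat_lit 1) (.n (nat_lit 377) (nat_lit 1) (.n (nat_lit 379) (nat_lit 1) (.p (nat_lit 380) (nat_lit 2) (.p (nat_lit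 382) (nat_lit 3) (.n (nat_lit 383) (nat_lit 1) (.n (nat_lit 384) (nat_lit 2) (.p (nat_lit 385) (nat_lit 1) (.p (nat_lit 386) (nat_lit 2) (.p (nat_lit 387) (nat_lit 1) (.n (nat_lit 388) (nat_lit 1) (.n (nat_lit 394) (nat_lit 2) (.p (nat_lit 395) (nat_lit 1) (.p (nat_lit 399) (nat_lit 1) (.p (nat_lit 400) (nat_lit 1) (.p (nat_lit 401) (nat_lit 1) (.p (nat_lit 402) (nat_lit 1) (.p (nat_lit 403) (nat_lit 1) (.p (nat_lit 405) (nat_lit 2) (.p (nat_lit 408) (nat_lit 3) (.p (nat_lit 410) (nat_lit 1) (.p (nat_lit 411) (nat_lit 1) (.n (nat_lit 412) (nat_lit 1) (.n (nat_lit 413) (nat_lit 1) (.p (nat_lit 414) (nat_lit 2) (.p (nat_lit 416) (nat_lit 1) (.n (nat_lit 417) (nat_lit 1) (.n (nat_lit 419) (nat_lit 2) (.p (nat_lit 420) (nat_lit 1) (.n (nat_lit 422) (nat_lit 1) (.p (nat_lit 425) (nat_lit 2) .z)))))))))))))))))))))))))))))))))))))))))))))))))))))))))))) (.u (nat_lit 2) (.n (nat_lit 427) (nat_lit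 1) (.n (nat_lit 428) (nat_lit 1) (.n (nat_lit 432) (nat_lit 1) (.n (nat_lit 433) (nat_lit 1) .z)))) .nil)))))))))))))))))))))))))

noncomputable def dC1c_i69 : IL := (.e false (nat_lit 3) (nat_lit 320) (nat_lit 1) (nat_lit 14) (.e false (nat_lit 1) (nat_lit 321) (nat_lit 1) (nat_lit 14) (.e false (nat_lit 3) (nat_lit 322) (nat_lit 1) (nat_lit 14) (.e true (nat_lit 2) (nat_lit 323) (nat_lit 1) (nat_lit 14) (.e true (nat_lit 3) (nat_lit 325) (nat_lit 1) (nat_lit 14) (.e true (nat_lit 1) (nat_lit 326) (nat_lit 1) (nat_lit 14) (.e true (nat_lit 1) (nat_lit 260) (nat_lit 2) (nat_lit 13) (.e false (nat_lit 1) (nat_lit 263) (nat_lit 2) (nat_lit 13) (.e false (nat_lit 3) (nat_lit 264) (nat_lit 2) (nat_lit 13) (.e false (nat_lit 1) (nat_lit 266) (nat_lit 2) (nat_lit 13) (.e true (nat_lit 3) (nat_lit 271) (nat_lit 2) (nat_lit 13) (.e false (nat_lit 3) (nat_lit 272) (nat_lit 2) (nat_lit 13) (.e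 false (nat_lit 2) (nat_lit 273) (nat_lit 2) (nat_lit 13) (.e false (nat_lit 2) (nat_lit 277) (nat_lit 2) (nat_lit 13) (.e true (nat_lit 1) (nat_lit 278) (nat_lit 2) (nat_lit 13) (.e false (nat_lit 3) (nat_lit 280) (nat_lit 2) (nat_lit 13) (.e true (nat_lit 2) (nat_lit 286) (nat_lit 2) (nat_lit 13) (.e false (nat_lit 1) (nat_lit 267) (nat_lit 2) (nat_lit 13) (.e true (nat_lit 3) (nat_lit 269) (nat_lit 2) (nat_lit 13) (.e false (nat_lit 1) (nat_lit 279) (nat_lit 2) (nat_lit 13) (.e true (nat_lit 2) (nat_lit 261) (nat_lit 2) (nat_lit 13) (.e true (nat_lit 3) (nat_lit 265) (nat_lit 2) (nat_lit 13) (.e false (nat_lit 3) (nat_lit 270) (nat_lit 2) (nat_lit 13) (.e true (nat_lit 2) (nat_lit 287) (nat_lit 2) (nat_lit 13) (.u (nat_lit 2) (.p (nat_lit 0) (nat_lit 1) (.n (nat_lit 2) (nat_lit 1) (.p (nat_lit 3) (nat_lit 3) (.n (nat_lit 4) (nat_lit 3) (.n (nat_lit 6) (nat_lit 3) (.n (nat_lit 7) (nat_lit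 3) (.p (nat_lit 9) (nat_lit 5) (.p (nat_lit 10) (nat_lit 1) (.p (nat_lit 13) (nat_lit 3) (.p (nat_lit 15) (nat_lit 1) (.p (nat_lit 16) (nat_lit 1) (.p (nat_lit 17) (nat_lit 2) (.p (nat_lit 18) (nat_lit 1) (.n (nat_lit 19) (nat_lit 1) (.n (nat_lit 21) (nat_lit 1) (.n (nat_lit 24) (nat_lit 1) (.p (nat_lit 25) (nat_lit 1) (.p (nat_lit 27) (nat_lit 1) (.p (nat_lit 30) (nat_lit 2) (.p (nat_lit 33) (nat_lit 2) (.n (nat_lit 174) (nat_lit 1) (.n (nat_lit 175) (nat_lit 2) (.p (nat_lit 179) (nat_lit 2) (.n (nat_lit 185) (nat_lit 1) (.n (nat_lit 186) (nat_lit 1) (.n (nat_lit 190) (nat_lit 1) (.n (nat_lit 191) (nat_lit 1) (.p (nat_lit 192) (nat_lit 1) (.n (nat_lit 194) (nat_lit 1) (.p (nat_lit 199) (nat_lit 1) (.p (nat_lit 200) (nat_lit 1) (.p (nat_lit 201) (nat_lit 1) .z)))))))))))))))))))))))))))))))) .nil)))))))))))))))))))))))))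

noncomputable def dC1c_i70 : IL := (.e true (nat_lit 1) (nat_lit 182) (nat_lit 5) (nat_lit 10) (.e false (nat_lit 1) (nat_lit 183) (nat_lit 5) (nat_lit 10) (.e true (nat_lit 3) (nat_lit 184) (nat_lit 5) (nat_lit 10) (.e true (nat_lit 3) (nat_lit 185) (nat_lit 5) (nat_lit 10) (.e false (nat_lit 1) (nat_lit 186) (nat_lit 5) (nat_lit 10) (.e false (nat_lit 1) (nat_lit 187) (nat_lit 5) (nat_lit 10) (.e true (nat_lit 2) (nat_lit 188) (nat_lit 5) (nat_lit 10) (.e true (nat_lit 2) (nat_lit 189) (nat_lit 5) (nat_lit 10) (.e true (nat_lit 1) (nat_lit 190) (nat_lit 5) (nat_lit 10) (.e false (nat_lit 1) (nat_lit 192) (nat_lit 5) (nat_lit 10) (.e false (nat_lit 1) (nat_lit 193) (nat_lit 5) (nat_lit 10) (.e false (nat_lit 1) (nat_lit 344) (nat_lit 1) (nat_lit 14) (.e true (nat_lit 3) (nat_lit 328) (nat_lit 1) (nat_lit 14) (.e true (nat_lit 3) (nat_lit 329) (nat_lit 1) (nat_lit 14) (.e true (nat_lit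 1) (nat_lit 330) (nat_lit 1) (nat_lit 14) (.e false (nat_lit 1) (nat_lit 331) (nat_lit 1) (nat_lit 14) (.e true (nat_lit 3) (nat_lit 332) (nat_lit 1) (nat_lit 14) (.e true (nat_lit 3) (nat_lit 333) (nat_lit 1) (nat_lit 14) (.e false (nat_lit 1) (nat_lit 334) (nat_lit 1) (nat_lit 14) (.e false (nat_lit 1) (nat_lit 335) (nat_lit 1) (nat_lit 14) (.e true (nat_lit 1) (nat_lit 336) (nat_lit 1) (nat_lit 14) (.e true (nat_lit 2) (nat_lit 337) (nat_lit 1) (nat_lit 14) (.e true (nat_lit 1) (nat_lit 338) (nat_lit 1) (nat_lit 14) (.e false (nat_lit 1) (nat_lit 340) (nat_lit 1) (nat_lit 14) (.u (nat_lit 2) (.p (nat_lit 1) (nat_lit 3) (.n (nat_lit 4) (nat_lit 2) (.p (nat_lit 7) (nat_lit 3) (.p (nat_lit 9) (nat_lit 3) (.n (nat_lit 10) (nat_lit 2) (.n (nat_lit 11) (nat_lit 1) (.n (nat_lit 12) (nat_lit 1) (.p (nat_lit 13) (nat_lit 5) (.p (nat_lit 14) (nat_lit 3) (.p (nat_lit 15) (nat_lit 2) (.n (nat_lit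 16) (nat_lit 2) (.p (nat_lit 17) (nat_lit 2) (.p (nat_lit 18) (nat_lit 2) (.p (nat_lit 19) (nat_lit 3) (.n (nat_lit 20) (nat_lit 2) (.p (nat_lit 23) (nat_lit 1) (.n (nat_lit 27) (nat_lit 1) (.n (nat_lit 29) (nat_lit 1) (.p (nat_lit 30) (nat_lit 1) (.p (nat_lit 33) (nat_lit 2) .z)))))))))))))))))))) .nil)))))))))))))))))))))))))

noncomputable def dC1c_c261 : Cm := .mk (nat_lit 396) (nat_lit 261) (nat_lit 202) (nat_lit 5) (.c (nat_lit 18) (nat_lit 1) (nat_lit 14) (nat_lit 2) (nat_lit 5) (.c (nat_lit 40) (nat_lit 3) (nat_lit 6) (nat_lit 1) (nat_lit 7) (.c (nat_lit 46) (nat_lit 1) (nat_lit 4) (nat_lit 1) (nat_lit 10) (.c (nat_lit 98) (nat_lit 4) (nat_lit 2) (nat_lit 1) (nat_lit 11) (.c (nat_lit 106) (nat_lit 1) (nat_lit 0) (nat_lit 1) (nat_lit 15) .nil)))))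

noncomputable def dC1c_i71 : IL := (.e false (nat_lit 3) (nat_lit 281) (nat_lit 1) (nat_lit 18) (.e true (nat_lit 3) (nat_lit 283) (nat_lit 1) (nat_lit 18) (.e true (nat_lit 1) (nat_lit 311) (nat_lit 0) (nat_lit 19) (.e true (nat_lit 2) (nat_lit 292) (nat_lit 0) (nat_lit 19) (.e false (nat_lit 1) (nat_lit 294) (nat_lit 0) (nat_lit 19) (.e false (nat_lit 3) (nat_lit 299) (nat_lit 0) (nat_lit 19) (.e true (nat_lit 1) (nat_lit 301) (nat_lit 0) (nat_lit 19) (.e true (nat_lit 2) (nat_lit 307) (nat_lit 0) (nat_lit 19) (.e true (nat_lit 2) (nat_lit 308) (nat_lit 0) (nat_lit 19) (.e false (nat_lit 2) (nat_lit 317) (nat_lit 0) (nat_lit 19) (.e false (nat_lit 1) (nat_lit 319) (nat_lit 0) (nat_lit 19) (.e false (nat_lit 3) (nat_lit 291) (nat_lit 0) (nat_lit 19) (.e false (nat_lit 3) (nat_lit 302) (nat_lit 0) (nat_lit 19) (.e false (nat_lit 2) (nat_lit 305) (nat_lit 0) (nat_lit 19) (.e false (nat_lit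 1) (nat_lit 316) (nat_lit 0) (nat_lit 19) (.e true (nat_lit 2) (nat_lit 318) (nat_lit 0) (nat_lit 19) (.e true (nat_lit 1) (nat_lit 295) (nat_lit 0) (nat_lit 19) (.e true (nat_lit 3) (nat_lit 300) (nat_lit 0) (nat_lit 19) (.e true (nat_lit 1) (nat_lit 304) (nat_lit 0) (nat_lit 19) (.e true (nat_lit 2) (nat_lit 314) (nat_lit 0) (nat_lit 19) (.e true (nat_lit 2) (nat_lit 315) (nat_lit 0) (nat_lit 19) (.e false (nat_lit 2) (nat_lit 296) (nat_lit 0) (nat_lit 19) (.e true (nat_lit 2) (nat_lit 297) (nat_lit 0) (nat_lit 19) (.e false (nat_lit 2) (nat_lit 310) (nat_lit 0) (nat_lit 19) (.u (nat_lit 2) (.p (nat_lit 0) (nat_lit 1) (.p (nat_lit 3) (nat_lit 2) (.p (nat_lit 8) (nat_lit 2) (.p (nat_lit 9) (nat_lit 1) (.p (nat_lit 10) (nat_lit 1) (.p (nat_lit 11) (nat_lit 2) (.n (nat_lit 17) (nat_lit 1) (.n (nat_lit 18) (nat_lit 1) (.p (nat_lit 20) (nat_lit 1) (.p (nat_lit 29) (nat_lit 1) (.p (nat_lit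 30) (nat_lit 2) (.n (nat_lit 31) (nat_lit 1) (.p (nat_lit 32) (nat_lit 2) (.p (nat_lit 36) (nat_lit 1) (.p (nat_lit 38) (nat_lit 2) (.p (nat_lit 39) (nat_lit 1) (.p (nat_lit 41) (nat_lit 2) (.n (nat_lit 377) (nat_lit 1) (.p (nat_lit 378) (nat_lit 1) (.p (nat_lit 381) (nat_lit 1) (.n (nat_lit 383) (nat_lit 2) (.n (nat_lit 384) (nat_lit 1) (.p (nat_lit 385) (nat_lit 2) (.n (nat_lit 387) (nat_lit 2) (.p (nat_lit 388) (nat_lit 1) (.n (nat_lit 389) (nat_lit 1) (.n (nat_lit 392) (nat_lit 1) (.n (nat_lit 393) (nat_lit 1) (.p (nat_lit 394) (nat_lit 1) (.n (nat_lit 395) (nat_lit 1) (.n (nat_lit 397) (nat_lit 1) (.p (nat_lit 398) (nat_lit 1) (.p (nat_lit 399) (nat_lit 1) (.n (nat_lit 400) (nat_lit 1) (.n (nat_lit 402) (nat_lit 2) (.n (nat_lit 403) (nat_lit 1) (.p (nat_lit 404) (nat_lit 1) (.n (nat_lit 405) (nat_lit 1) (.n (nat_lit 406) (nat_lit 1) (.p (nat_lit 407) (nat_lit 1) (.n (nat_lit 409)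 (nat_lit 1) (.p (nat_lit 410) (nat_lit 2) (.n (nat_lit 414) (nat_lit 2) (.n (nat_lit 415) (nat_lit 1) (.p (nat_lit 416) (nat_lit 1) (.n (nat_lit 417) (nat_lit 1) (.n (nat_lit 420) (nat_lit 2) (.n (nat_lit 422) (nat_lit 1) (.p (nat_lit 423) (nat_lit 2) (.n (nat_lit 426) (nat_lit 1) (.n (nat_lit 427) (nat_lit 1) (.p (nat_lit 428) (nat_lit 1) (.p (nat_lit 432) (nat_lit 1) (.p (nat_lit 433) (nat_lit 1) (.p (nat_lit 434) (nat_lit 1) .z))))))))))))))))))))))))))))))))))))))))))))))))))))))) .nil)))))))))))))))))))))))))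

noncomputable def dC1c_i72 : IL := (.e false (nat_lit 2) (nat_lit 260) (nat_lit 2) (nat_lit 13) (.e false (nat_lit 1) (nat_lit 261) (nat_lit 2) (nat_lit 13) (.e false (nat_lit 2) (nat_lit 262) (nat_lit 2) (nat_lit 13) (.e true (nat_lit 2) (nat_lit 263) (nat_lit 2) (nat_lit 13) (.e true (nat_lit 1) (nat_lit 266) (nat_lit 2) (nat_lit 13) (.e true (nat_lit 1) (nat_lit 267) (nat_lit 2) (nat_lit 13) (.e false (nat_lit 2) (nat_lit 270) (nat_lit 2) (nat_lit 13) (.e true (nat_lit 2) (nat_lit 275) (nat_lit 2) (nat_lit 13) (.e true (nat_lit 1) (nat_lit 279) (nat_lit 2) (nat_lit 13) (.e false (nat_lit 1) (nat_lit 82) (nat_lit 14) (nat_lit 5) (.e true (nat_lit 1) (nat_lit 264) (nat_lit 2) (nat_lit 13) (.e false (nat_lit 1) (nat_lit 265) (nat_lit 2) (nat_lit 13) (.e false (nat_lit 2) (nat_lit 268) (nat_lit 2) (nat_lit 13) (.e true (nat_lit 3) (nat_lit 271) (nat_lit 2) (nat_lit 13) (.e true (nat_lit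 2) (nat_lit 273) (nat_lit 2) (nat_lit 13) (.e false (nat_lit 1) (nat_lit 274) (nat_lit 2) (nat_lit 13) (.e true (nat_lit 2) (nat_lit 277) (nat_lit 2) (nat_lit 13) (.e true (nat_lit 3) (nat_lit 278) (nat_lit 2) (nat_lit 13) (.e true (nat_lit 2) (nat_lit 280) (nat_lit 2) (nat_lit 13) (.e false (nat_lit 1) (nat_lit 281) (nat_lit 2) (nat_lit 13) (.e false (nat_lit 1) (nat_lit 283) (nat_lit 2) (nat_lit 13) (.e true (nat_lit 1) (nat_lit 286) (nat_lit 2) (nat_lit 13) (.e true (nat_lit 1) (nat_lit 287) (nat_lit 2) (nat_lit 13) (.e true (nat_lit 1) (nat_lit 289) (nat_lit 2) (nat_lit 13) (.u (nat_lit 2) (.n (nat_lit 0) (nat_lit 1) (.p (nat_lit 1) (nat_lit 6) (.n (nat_lit 2) (nat_lit 2) (.p (nat_lit 3) (nat_lit 4) (.n (nat_lit 4) (nat_lit 1) (.n (nat_lit 5) (nat_lit 2) (.p (nat_lit 6) (nat_lit 2) (.p (nat_lit 7) (nat_lit 2) (.p (nat_lit 8) (nat_lit 1) (.n (nat_lit 9) (nat_lit 1) (.p (nat_lit 12)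 (nat_lit 5) (.n (nat_lit 13) (nat_lit 1) (.n (nat_lit 15) (nat_lit 2) (.n (nat_lit 16) (nat_lit 3) (.n (nat_lit 18) (nat_lit 2) (.p (nat_lit 19) (nat_lit 2) (.n (nat_lit 21) (nat_lit 1) (.p (nat_lit 23) (nat_lit 1) (.n (nat_lit 24) (nat_lit 1) (.n (nat_lit 26) (nat_lit 1) (.n (nat_lit 27) (nat_lit 1) (.n (nat_lit 28) (nat_lit 1) (.n (nat_lit 30) (nat_lit 1) (.n (nat_lit 33) (nat_lit 4) (.n (nat_lit 175) (nat_lit 1) .z))))))))))))))))))))))))) .nil)))))))))))))))))))))))))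

noncomputable def dC1c_i73 : IL := (.s false (nat_lit 1) (nat_lit 14) (nat_lit 11) (nat_lit 2) (nat_lit 2) true (nat_lit 0) true (nat_lit 13) true (nat_lit 5) true (nat_lit 6) true (nat_lit 13) (.e false (nat_lit 1) (nat_lit 40) (nat_lit 32) (nat_lit 0) (.e false (nat_lit 2) (nat_lit 260) (nat_lit 2) (nat_lit 13) (.e false (nat_lit 2) (nat_lit 262) (nat_lit 2) (nat_lit 13) (.e true (nat_lit 2) (nat_lit 263) (nat_lit 2) (nat_lit 13) (.e true (nat_lit 1) (nat_lit 265) (nat_lit 2) (nat_lit 13) (.e false (nat_lit 3) (nat_lit 266) (nat_lit 2) (nat_lit 13) (.e false (nat_lit 1) (nat_lit 267) (nat_lit 2) (nat_lit 13) (.e false (nat_lit 1) (nat_lit 268) (nat_lit 2) (nat_lit 13) (.e true (nat_lit 3) (nat_lit 269) (nat_lit 2) (nat_lit 13) (.e true (nat_lit 2) (nat_lit 270) (nat_lit 2) (nat_lit 13) (.e true (nat_lit 2) (nat_lit 276) (nat_lit 2) (nat_lit 13) (.e true (nat_lit 2) (nat_lit 277) (nat_lit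 2) (nat_lit 13) (.e true (nat_lit 2) (nat_lit 278) (nat_lit 2) (nat_lit 13) (.e false (nat_lit 1) (nat_lit 279) (nat_lit 2) (nat_lit 13) (.e false (nat_lit 1) (nat_lit 83) (nat_lit 14) (nat_lit 5) (.e false (nat_lit 3) (nat_lit 271) (nat_lit 2) (nat_lit 13) (.e false (nat_lit 1) (nat_lit 272) (nat_lit 2) (nat_lit 13) (.e true (nat_lit 3) (nat_lit 273) (nat_lit 2) (nat_lit 13) (.e false (nat_lit 3) (nat_lit 274) (nat_lit 2) (nat_lit 13) (.e true (nat_lit 1) (nat_lit 280) (nat_lit 2) (nat_lit 13) (.e false (nat_lit 1) (nat_lit 284) (nat_lit 2) (nat_lit 13) (.e false (nat_lit 3) (nat_lit 287) (nat_lit 2) (nat_lit 13) (.e false (nat_lit 3) (nat_lit 288) (nat_lit 2) (nat_lit 13) (.u (nat_lit 2) (.p (nat_lit 0) (nat_lit 1) (.p (nat_lit 1) (nat_lit 1) (.p (nat_lit 3) (nat_lit 3) (.n (nat_lit 4) (nat_lit 3) (.p (nat_lit 5) (nat_lit 1) (.n (nat_lit 6) (nat_lit 3) (.n (nat_lit 7) (nat_lit 3) (.n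 (nat_lit 8) (nat_lit 2) (.p (nat_lit 9) (nat_lit 1) (.n (nat_lit 10) (nat_lit 2) (.p (nat_lit 12) (nat_lit 5) (.n (nat_lit 13) (nat_lit 2) (.n (nat_lit 15) (nat_lit 5) (.n (nat_lit 16) (nat_lit 6) (.n (nat_lit 17) (nat_lit 1) (.n (nat_lit 18) (nat_lit 4) (.n (nat_lit 19) (nat_lit 1) (.p (nat_lit 22) (nat_lit 2) (.p (nat_lit 23) (nat_lit 1) (.n (nat_lit 24) (nat_lit 1) (.p (nat_lit 25) (nat_lit 1) (.n (nat_lit 26) (nat_lit 1) (.n (nat_lit 27) (nat_lit 2) (.n (nat_lit 29) (nat_lit 1) (.n (nat_lit 30) (nat_lit 2) (.n (nat_lit 33) (nat_lit 2) (.p (nat_lit 183) (nat_lit 1) .z))))))))))))))))))))))))))) .nil)))))))))))))))))))))))))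

noncomputable def dC1c_i74 : IL := (.e false (nat_lit 1) (nat_lit 343) (nat_lit 1) (nat_lit 14) (.e false (nat_lit 1) (nat_lit 344) (nat_lit 1) (nat_lit 14) (.e false (nat_lit 1) (nat_lit 311) (nat_lit 2) (nat_lit 13) (.e false (nat_lit 2) (nat_lit 292) (nat_lit 2) (nat_lit 13) (.e true (nat_lit 1) (nat_lit 294) (nat_lit 2) (nat_lit 13) (.e true (nat_lit 3) (nat_lit 299) (nat_lit 2) (nat_lit 13) (.e false (nat_lit 1) (nat_lit 301) (nat_lit 2) (nat_lit 13) (.e false (nat_lit 2) (nat_lit 307) (nat_lit 2) (nat_lit 13) (.e false (nat_lit 2) (nat_lit 308) (nat_lit 2) (nat_lit 13) (.e true (nat_lit 2) (nat_lit 317) (nat_lit 2) (nat_lit 13) (.e true (nat_lit 1) (nat_lit 319) (nat_lit 2) (nat_lit 13) (.e true (nat_lit 3) (nat_lit 291) (nat_lit 2) (nat_lit 13) (.e true (nat_lit 3) (nat_lit 302) (nat_lit 2) (nat_lit 13) (.e true (nat_lit 2) (nat_lit 305) (nat_lit 2) (nat_lit 13) (.e true (nat_lit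 1) (nat_lit 316) (nat_lit 2) (nat_lit 13) (.e false (nat_lit 2) (nat_lit 318) (nat_lit 2) (nat_lit 13) (.e false (nat_lit 1) (nat_lit 295) (nat_lit 2) (nat_lit 13) (.e false (nat_lit 3) (nat_lit 300) (nat_lit 2) (nat_lit 13) (.e false (nat_lit 1) (nat_lit 304) (nat_lit 2) (nat_lit 13) (.e false (nat_lit 2) (nat_lit 314) (nat_lit 2) (nat_lit 13) (.e false (nat_lit 2) (nat_lit 315) (nat_lit 2) (nat_lit 13) (.e true (nat_lit 2) (nat_lit 296) (nat_lit 2) (nat_lit 13) (.e false (nat_lit 2) (nat_lit 297) (nat_lit 2) (nat_lit 13) (.e true (nat_lit 2) (nat_lit 310) (nat_lit 2) (nat_lit 13) (.u (nat_lit 2) (.n (nat_lit 1) (nat_lit 4) (.n (nat_lit 3) (nat_lit 2) (.p (nat_lit 5) (nat_lit 1) (.n (nat_lit 8) (nat_lit 3) (.n (nat_lit 9) (nat_lit 2) (.p (nat_lit 10) (nat_lit 3) (.p (nat_lit 14) (nat_lit 1) (.n (nat_lit 15) (nat_lit 2) (.n (nat_lit 17) (nat_lit 5) (.p (nat_lit 18) (nat_lit 1) (.p (nat_lit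 22) (nat_lit 1) (.n (nat_lit 27) (nat_lit 1) (.p (nat_lit 29) (nat_lit 1) (.p (nat_lit 33) (nat_lit 2) (.p (nat_lit 173) (nat_lit 1) (.p (nat_lit 174) (nat_lit 1) (.n (nat_lit 175) (nat_lit 1) (.p (nat_lit 177) (nat_lit 1) (.n (nat_lit 178) (nat_lit 2) (.p (nat_lit 182) (nat_lit 2) (.p (nat_lit 183) (nat_lit 1) (.n (nat_lit 184) (nat_lit 1) (.p (nat_lit 185) (nat_lit 1) (.p (nat_lit 188) (nat_lit 2) (.p (nat_lit 190) (nat_lit 1) (.n (nat_lit 191) (nat_lit 2) (.p (nat_lit 194) (nat_lit 1) (.p (nat_lit 195) (nat_lit 1) (.n (nat_lit 196) (nat_lit 1) (.n (nat_lit 200) (nat_lit 1) (.n (nat_lit 201) (nat_lit 1) (.n (nat_lit 202) (nat_lit 1) (.n (nat_lit 203) (nat_lit 1) (.p (nat_lit 207) (nat_lit 1) (.p (nat_lit 209) (nat_lit 1) (.p (nat_lit 210) (nat_lit 1) (.p (nat_lit 211) (nat_lit 1) (.n (nat_lit 212) (nat_lit 1) (.n (nat_lit 214) (nat_lit 1) (.n (nat_lit 215) (nat_lit 1) .z))))))))))))))))))))))))))))))))))))))))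 .nil)))))))))))))))))))))))))

noncomputable def dC1c_i75 : IL := (.e false (nat_lit 3) (nat_lit 299) (nat_lit 0) (nat_lit 19) (.e false (nat_lit 2) (nat_lit 305) (nat_lit 0) (nat_lit 19) (.e false (nat_lit 1) (nat_lit 290) (nat_lit 0) (nat_lit 19) (.e true (nat_lit 3) (nat_lit 260) (nat_lit 1) (nat_lit 18) (.e true (nat_lit 2) (nat_lit 262) (nat_lit 1) (nat_lit 18) (.e true (nat_lit 1) (nat_lit 266) (nat_lit 1) (nat_lit 18) (.e true (nat_lit 1) (nat_lit 269) (nat_lit 1) (nat_lit 18) (.e true (nat_lit 3) (nat_lit 271) (nat_lit 1) (nat_lit 18) (.e true (nat_lit 1) (nat_lit 273) (nat_lit 1) (nat_lit 18) (.e false (nat_lit 2) (nat_lit 274) (nat_lit 1) (nat_lit 18) (.e true (nat_lit 3) (nat_lit 278) (nat_lit 1) (nat_lit 18) (.e true (nat_lit 1) (nat_lit 281) (nat_lit 1) (nat_lit 18) (.e true (nat_lit 2) (nat_lit 286) (nat_lit 1) (nat_lit 18) (.e false (nat_lit 1) (nat_lit 289) (nat_lit 1)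 (nat_lit 18) (.e false (nat_lit 2) (nat_lit 285) (nat_lit 1) (nat_lit 18) (.e true (nat_lit 1) (nat_lit 263) (nat_lit 1) (nat_lit 18) (.e false (nat_lit 1) (nat_lit 270) (nat_lit 1) (nat_lit 18) (.e true (nat_lit 3) (nat_lit 265) (nat_lit 1) (nat_lit 18) (.e false (nat_lit 3) (nat_lit 280) (nat_lit 1) (nat_lit 18) (.e true (nat_lit 2) (nat_lit 283) (nat_lit 1) (nat_lit 18) (.e false (nat_lit 1) (nat_lit 272) (nat_lit 1) (nat_lit 18) (.e false (nat_lit 3) (nat_lit 264) (nat_lit 1) (nat_lit 18) (.e true (nat_lit 1) (nat_lit 282) (nat_lit 1) (nat_lit 18) (.u (nat_lit 2) (.n (nat_lit 0) (nat_lit 2) (.p (nat_lit 1) (nat_lit 1) (.n (nat_lit 2) (nat_lit 1) (.n (nat_lit 3) (nat_lit 1) (.p (nat_lit 4) (nat_lit 1) (.n (nat_lit 8) (nat_lit 2) (.n (nat_lit 10) (nat_lit 2) (.n (nat_lit 11) (nat_lit 3) (.n (nat_lit 12) (nat_lit 1) (.n (nat_lit 14) (nat_lit 1) (.p (nat_lit 15) (nat_lit 2) (.p (nat_lit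 18) (nat_lit 2) (.p (nat_lit 19) (nat_lit 2) (.n (nat_lit 20) (nat_lit 2) (.n (nat_lit 26) (nat_lit 2) (.p (nat_lit 28) (nat_lit 1) (.n (nat_lit 29) (nat_lit 2) (.p (nat_lit 31) (nat_lit 2) (.n (nat_lit 32) (nat_lit 1) (.n (nat_lit 33) (nat_lit 1) (.p (nat_lit 35) (nat_lit 1) (.n (nat_lit 36) (nat_lit 1) (.n (nat_lit 37) (nat_lit 2) (.n (nat_lit 38) (nat_lit 2) (.p (nat_lit 39) (nat_lit 1) (.n (nat_lit 375) (nat_lit 1) (.p (nat_lit 376) (nat_lit 2) (.p (nat_lit 377) (nat_lit 2) (.n (nat_lit 378) (nat_lit 1) (.n (nat_lit 380) (nat_lit 2) (.n (nat_lit 381) (nat_lit 3) (.n (nat_lit 382) (nat_lit 3) (.p (nat_lit 383) (nat_lit 2) (.p (nat_lit 384) (nat_lit 3) (.n (nat_lit 385) (nat_lit 3) (.n (nat_lit 386) (nat_lit 1) (.p (nat_lit 387) (nat_lit 2) (.p (nat_lit 388) (nat_lit 2) (.n (nat_lit 389) (nat_lit 3) (.p (nat_lit 392) (nat_lit 3) (.p (nat_lit 393) (nat_lit 2) (.p (nat_lit 394) (nat_lit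 1) (.p (nat_lit 395) (nat_lit 1) (.p (nat_lit 398) (nat_lit 1) (.n (nat_lit 399) (nat_lit 2) (.n (nat_lit 400) (nat_lit 1) (.n (nat_lit 401) (nat_lit 1) (.p (nat_lit 402) (nat_lit 1) (.n (nat_lit 403) (nat_lit 1) (.p (nat_lit 406) (nat_lit 2) (.n (nat_lit 407) (nat_lit 2) (.n (nat_lit 408) (nat_lit 2) (.n (nat_lit 409) (nat_lit 2) (.n (nat_lit 410) (nat_lit 4) (.n (nat_lit 411) (nat_lit 3) (.p (nat_lit 412) (nat_lit 3) (.p (nat_lit 413) (nat_lit 3) (.p (nat_lit 415) (nat_lit 2) (.n (nat_lit 416) (nat_lit 4) (.p (nat_lit 419) (nat_lit 1) .z)))))))))))))))))))))))))))))))))))))))))))))))))))))))))))) (.u (nat_lit 2) (.p (nat_lit 422) (nat_lit 2) (.n (nat_lit 423) (nat_lit 2) (.n (nat_lit 425) (nat_lit 3) (.p (nat_lit 427) (nat_lit 2) (.p (nat_lit 428) (nat_lit 1) (.p (nat_lit 431) (nat_lit 1) (.p (nat_lit 432) (nat_lit 1) (.n (nat_lit 433) (nat_lit 1) (.n (nat_lit 434) (nat_lit 1) .z)))))))))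 .nil)))))))))))))))))))))))))

noncomputable def dC1c_i76 : IL := (.e false (nat_lit 1) (nat_lit 339) (nat_lit 0) (nat_lit 15) (.e false (nat_lit 3) (nat_lit 336) (nat_lit 0) (nat_lit 15) (.e false (nat_lit 1) (nat_lit 342) (nat_lit 0) (nat_lit 15) (.e true (nat_lit 1) (nat_lit 345) (nat_lit 0) (nat_lit 15) (.e true (nat_lit 3) (nat_lit 260) (nat_lit 2) (nat_lit 13) (.e true (nat_lit 2) (nat_lit 262) (nat_lit 2) (nat_lit 13) (.e true (nat_lit 1) (nat_lit 266) (nat_lit 2) (nat_lit 13) (.e true (nat_lit 1) (nat_lit 269) (nat_lit 2) (nat_lit 13) (.e true (nat_lit 3) (nat_lit 271) (nat_lit 2) (nat_lit 13) (.e true (nat_lit 1) (nat_lit 273) (nat_lit 2) (nat_lit 13) (.e false (nat_lit 2) (nat_lit 274) (nat_lit 2) (nat_lit 13) (.e true (nat_lit 3) (nat_lit 278) (nat_lit 2) (nat_lit 13) (.e true (nat_lit 1) (nat_lit 281) (nat_lit 2) (nat_lit 13) (.e true (nat_lit 2) (nat_lit 286) (nat_lit 2)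 (nat_lit 13) (.e false (nat_lit 1) (nat_lit 289) (nat_lit 2) (nat_lit 13) (.e false (nat_lit 2) (nat_lit 285) (nat_lit 2) (nat_lit 13) (.e true (nat_lit 1) (nat_lit 263) (nat_lit 2) (nat_lit 13) (.e false (nat_lit 1) (nat_lit 270) (nat_lit 2) (nat_lit 13) (.e true (nat_lit 3) (nat_lit 265) (nat_lit 2) (nat_lit 13) (.e false (nat_lit 3) (nat_lit 280) (nat_lit 2) (nat_lit 13) (.e true (nat_lit 2) (nat_lit 283) (nat_lit 2) (nat_lit 13) (.e false (nat_lit 1) (nat_lit 272) (nat_lit 2) (nat_lit 13) (.e false (nat_lit 3) (nat_lit 264) (nat_lit 2) (nat_lit 13) (.e true (nat_lit 1) (nat_lit 282) (nat_lit 2) (nat_lit 13) (.u (nat_lit 2) (.p (nat_lit 0) (nat_lit 1) (.p (nat_lit 1) (nat_lit 1) (.p (nat_lit 3) (nat_lit 2) (.n (nat_lit 4) (nat_lit 1) (.n (nat_lit 5) (nat_lit 1) (.n (nat_lit 6) (nat_lit 3) (.n (nat_lit 7) (nat_lit 3) (.p (nat_lit 8) (nat_lit 1) (.p (nat_lit 9) (nat_lit 1) (.p (nat_lit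 12) (nat_lit 2) (.p (nat_lit 13) (nat_lit 1) (.p (nat_lit 15) (nat_lit 2) (.n (nat_lit 16) (nat_lit 2) (.n (nat_lit 17) (nat_lit 2) (.n (nat_lit 18) (nat_lit 1) (.p (nat_lit 19) (nat_lit 1) (.n (nat_lit 21) (nat_lit 1) (.n (nat_lit 24) (nat_lit 1) (.n (nat_lit 26) (nat_lit 1) (.n (nat_lit 27) (nat_lit 1) (.n (nat_lit 33) (nat_lit 2) (.n (nat_lit 173) (nat_lit 1) (.p (nat_lit 174) (nat_lit 2) (.p (nat_lit 175) (nat_lit 2) (.n (nat_lit 176) (nat_lit 1) (.n (nat_lit 178) (nat_lit 2) (.n (nat_lit 179) (nat_lit 3) (.n (nat_lit 180) (nat_lit 3) (.p (nat_lit 181) (nat_lit 2) (.p (nat_lit 182) (nat_lit 3) (.n (nat_lit 183) (nat_lit 3) (.n (nat_lit 184) (nat_lit 1) (.p (nat_lit 185) (nat_lit 2) (.p (nat_lit 186) (nat_lit 2) (.n (nat_lit 187) (nat_lit 3) (.p (nat_lit 190) (nat_lit 3) (.p (nat_lit 191) (nat_lit 2) (.p (nat_lit 192) (nat_lit 1) (.p (nat_lit 193) (nat_lit 1) (.p (nat_lit 196) (nat_lit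 1) (.n (nat_lit 197) (nat_lit 2) (.n (nat_lit 198) (nat_lit 1) (.n (nat_lit 199) (nat_lit 1) (.p (nat_lit 200) (nat_lit 1) (.n (nat_lit 201) (nat_lit 1) (.n (nat_lit 218) (nat_lit 1) (.p (nat_lit 220) (nat_lit 1) .z))))))))))))))))))))))))))))))))))))))))))))))) .nil)))))))))))))))))))))))))

noncomputable def dC1c_i77 : IL := (.s true (nat_lit 1) (nat_lit 16) (nat_lit 2) (nat_lit 2) (nat_lit 12) true (nat_lit 1) true (nat_lit 7) true (nat_lit 4) true (nat_lit 13) true (nat_lit 13) (.e true (nat_lit 1) (nat_lit 43) (nat_lit 33) (nat_lit 1) (.e false (nat_lit 1) (nat_lit 92) (nat_lit 16) (nat_lit 4) (.e false (nat_lit 2) (nat_lit 291) (nat_lit 2) (nat_lit 13) (.e false (nat_lit 3) (nat_lit 292) (nat_lit 2) (nat_lit 13) (.e true (nat_lit 1) (nat_lit 294) (nat_lit 2) (nat_lit 13) (.e true (nat_lit 2) (nat_lit 296) (nat_lit 2) (nat_lit 13) (.e false (nat_lit 2) (nat_lit 297) (nat_lit 2) (nat_lit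 13) (.e false (nat_lit 1) (nat_lit 298) (nat_lit 2) (nat_lit 13) (.e false (nat_lit 1) (nat_lit 299) (nat_lit 2) (nat_lit 13) (.e true (nat_lit 2) (nat_lit 300) (nat_lit 2) (nat_lit 13) (.e false (nat_lit 2) (nat_lit 301) (nat_lit 2) (nat_lit 13) (.e true (nat_lit 3) (nat_lit 302) (nat_lit 2) (nat_lit 13) (.e false (nat_lit 3) (nat_lit 304) (nat_lit 2) (nat_lit 13) (.e false (nat_lit 1) (nat_lit 305) (nat_lit 2) (nat_lit 13) (.e false (nat_lit 3) (nat_lit 307) (nat_lit 2) (nat_lit 13) (.e true (nat_lit 1) (nat_lit 308) (nat_lit 2) (nat_lit 13) (.e true (nat_lit 3) (nat_lit 310) (nat_lit 2) (nat_lit 13) (.e true (nat_lit 1) (nat_lit 312) (nat_lit 2) (nat_lit 13) (.e true (nat_lit 2) (nat_lit 316) (nat_lit 2) (nat_lit 13) (.e true (nat_lit 1) (nat_lit 317) (nat_lit 2) (nat_lit 13) (.e false (nat_lit 2) (nat_lit 318) (nat_lit 2) (nat_lit 13) (.e false (nat_lit 1) (nat_lit 319) (nat_lit 2)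 (nat_lit 13) (.e false (nat_lit 1) (nat_lit 309) (nat_lit 2) (nat_lit 13) (.u (nat_lit 2) (.n (nat_lit 0) (nat_lit 3) (.n (nat_lit 2) (nat_lit 2) (.n (nat_lit 3) (nat_lit 1) (.p (nat_lit 4) (nat_lit 2) (.p (nat_lit 5) (nat_lit 1) (.p (nat_lit 7) (nat_lit 2) (.n (nat_lit 8) (nat_lit 1) (.n (nat_lit 9) (nat_lit 1) (.p (nat_lit 10) (nat_lit 2) (.p (nat_lit 11) (nat_lit 1) (.p (nat_lit 12) (nat_lit 2) (.p (nat_lit 13) (nat_lit 3) (.p (nat_lit 14) (nat_lit 2) (.n (nat_lit 15) (nat_lit 1) (.n (nat_lit 17) (nat_lit 1) (.p (nat_lit 19) (nat_lit 1) (.p (nat_lit 22) (nat_lit 2) (.p (nat_lit 23) (nat_lit 1) (.n (nat_lit 24) (nat_lit 1) (.p (nat_lit 29) (nat_lit 2) (.n (nat_lit 33) (nat_lit 1) (.n (nat_lit 190) (nat_lit 1) .z)))))))))))))))))))))) .nil)))))))))))))))))))))))))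

noncomputable def dC1c_i78 : IL := (.e false (nat_lit 2) (nat_lit 261) (nat_lit 1) (nat_lit 18) (.e false (nat_lit 3) (nat_lit 264) (nat_lit 1) (nat_lit 18) (.e true (nat_lit 3) (nat_lit 266) (nat_lit 1) (nat_lit 18) (.e true (nat_lit 2) (nat_lit 267) (nat_lit 1) (nat_lit 18) (.e false (nat_lit 1) (nat_lit 273) (nat_lit 1) (nat_lit 18) (.e false (nat_lit 1) (nat_lit 274) (nat_lit 1) (nat_lit 18) (.e false (nat_lit 3) (nat_lit 277) (nat_lit 1) (nat_lit 18) (.e false (nat_lit 3) (nat_lit 278) (nat_lit 1) (nat_lit 18) (.e false (nat_lit 3) (nat_lit 289) (nat_lit 1) (nat_lit 18) (.e true (nat_lit 3) (nat_lit 285) (nat_lit 1) (nat_lit 18) (.e false (nat_lit 1) (nat_lit 270) (nat_lit 1) (nat_lit 18) (.e true (nat_lit 2) (nat_lit 282) (nat_lit 1) (nat_lit 18) (.e true (nat_lit 1) (nat_lit 262) (nat_lit 1) (nat_lit 18) (.e true (nat_lit 3) (nat_lit 265) (nat_lit 1) (nat_lit 18) (.e false (nat_lit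 1) (nat_lit 272) (nat_lit 1) (nat_lit 18) (.e true (nat_lit 3) (nat_lit 269) (nat_lit 1) (nat_lit 18) (.e false (nat_lit 3) (nat_lit 283) (nat_lit 1) (nat_lit 18) (.e false (nat_lit 2) (nat_lit 268) (nat_lit 1) (nat_lit 18) (.e false (nat_lit 2) (nat_lit 280) (nat_lit 1) (nat_lit 18) (.e true (nat_lit 3) (nat_lit 281) (nat_lit 1) (nat_lit 18) (.e true (nat_lit 3) (nat_lit 263) (nat_lit 1) (nat_lit 18) (.e true (nat_lit 3) (nat_lit 260) (nat_lit 1) (nat_lit 18) (.e true (nat_lit 3) (nat_lit 271) (nat_lit 1) (nat_lit 18) (.e false (nat_lit 2) (nat_lit 288) (nat_lit 1) (nat_lit 18) (.u (nat_lit 2) (.n (nat_lit 0) (nat_lit 2) (.p (nat_lit 2) (nat_lit 2) (.n (nat_lit 3) (nat_lit 1) (.n (nat_lit 4) (nat_lit 1) (.p (nat_lit 6) (nat_lit 1) (.n (nat_lit 7) (nat_lit 1) (.p (nat_lit 8) (nat_lit 1) (.n (nat_lit 9) (nat_lit 2) (.p (nat_lit 10) (nat_lit 1) (.p (nat_lit 11) (nat_lit 1) (.n (nat_lit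 15) (nat_lit 1) (.p (nat_lit 17) (nat_lit 2) (.n (nat_lit 19) (nat_lit 1) (.p (nat_lit 20) (nat_lit 3) (.p (nat_lit 26) (nat_lit 1) (.p (nat_lit 28) (nat_lit 1) (.n (nat_lit 29) (nat_lit 1) (.n (nat_lit 30) (nat_lit 2) (.n (nat_lit 31) (nat_lit 2) (.n (nat_lit 32) (nat_lit 3) (.n (nat_lit 33) (nat_lit 1) (.p (nat_lit 34) (nat_lit 1) (.p (nat_lit 35) (nat_lit 2) (.n (nat_lit 36) (nat_lit 2) (.p (nat_lit 37) (nat_lit 3) (.n (nat_lit 38) (nat_lit 2) (.n (nat_lit 39) (nat_lit 1) (.p (nat_lit 40) (nat_lit 3) (.n (nat_lit 41) (nat_lit 2) (.p (nat_lit 376) (nat_lit 1) (.p (nat_lit 377) (nat_lit 1) (.n (nat_lit 379) (nat_lit 2) (.p (nat_lit 382) (nat_lit 1) (.p (nat_lit 383) (nat_lit 1) (.n (nat_lit 385) (nat_lit 2) (.p (nat_lit 387) (nat_lit 2) (.n (nat_lit 389) (nat_lit 1) (.p (nat_lit 392) (nat_lit 1) (.p (nat_lit 393) (nat_lit 1) (.n (nat_lit 394) (nat_lit 1) (.p (nat_lit 397) (nat_lit 1)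 (.n (nat_lit 398) (nat_lit 1) (.p (nat_lit 400) (nat_lit 1) (.p (nat_lit 402) (nat_lit 1) (.n (nat_lit 404) (nat_lit 1) (.p (nat_lit 406) (nat_lit 2) (.n (nat_lit 407) (nat_lit 1) (.n (nat_lit 409) (nat_lit 1) (.n (nat_lit 410) (nat_lit 1) (.p (nat_lit 413) (nat_lit 1) (.p (nat_lit 415) (nat_lit 1) (.n (nat_lit 416) (nat_lit 2) (.p (nat_lit 422) (nat_lit 2) (.n (nat_lit 425) (nat_lit 1) (.p (nat_lit 426) (nat_lit 1) (.n (nat_lit 428) (nat_lit 1) (.n (nat_lit 432) (nat_lit 1) .z))))))))))))))))))))))))))))))))))))))))))))))))))))))))) .nil)))))))))))))))))))))))))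

noncomputable def dC1c_i79 : IL := (.e true (nat_lit 2) (nat_lit 291) (nat_lit 0) (nat_lit 19) (.e false (nat_lit 3) (nat_lit 295) (nat_lit 0) (nat_lit 19) (.e true (nat_lit 2) (nat_lit 308) (nat_lit 0) (nat_lit 19) (.e false (nat_lit 1) (nat_lit 316) (nat_lit 0) (nat_lit 19) (.e true (nat_lit 3) (nat_lit 260) (nat_lit 1) (nat_lit 18) (.e true (nat_lit 2) (nat_lit 264) (nat_lit 1) (nat_lit 18) (.e true (nat_lit 3) (nat_lit 266) (nat_lit 1) (nat_lit 18) (.e true (nat_lit 3) (nat_lit 267) (nat_lit 1) (nat_lit 18) (.e true (nat_lit 3) (nat_lit 268) (nat_lit 1) (nat_lit 18) (.e true (nat_lit 2) (nat_lit 271) (nat_lit 1) (nat_lit 18) (.e true (nat_lit 2) (nat_lit 274) (nat_lit 1) (nat_lit 18) (.e false (nat_lit 1) (nat_lit 278) (nat_lit 1) (nat_lit 18) (.e true (nat_lit 1) (nat_lit 279) (nat_lit 1) (nat_lit 18) (.e false (nat_lit 3) (nat_lit 280) (nat_lit 1) (nat_lit 18) (.e true (nat_lit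 3) (nat_lit 288) (nat_lit 1) (nat_lit 18) (.e false (nat_lit 1) (nat_lit 263) (nat_lit 1) (nat_lit 18) (.e true (nat_lit 1) (nat_lit 277) (nat_lit 1) (nat_lit 18) (.e true (nat_lit 2) (nat_lit 272) (nat_lit 1) (nat_lit 18) (.e true (nat_lit 3) (nat_lit 270) (nat_lit 1) (nat_lit 18) (.e true (nat_lit 2) (nat_lit 273) (nat_lit 1) (nat_lit 18) (.e true (nat_lit 2) (nat_lit 287) (nat_lit 1) (nat_lit 18) (.e false (nat_lit 1) (nat_lit 286) (nat_lit 1) (nat_lit 18) (.e true (nat_lit 3) (nat_lit 261) (nat_lit 1) (nat_lit 18) (.e false (nat_lit 2) (nat_lit 269) (nat_lit 1) (nat_lit 18) (.u (nat_lit 2) (.p (nat_lit 0) (nat_lit 1) (.n (nat_lit 1) (nat_lit 2) (.n (nat_lit 2) (nat_lit 3) (.n (nat_lit 3) (nat_lit 3) (.n (nat_lit 4) (nat_lit 1) (.p (nat_lit 9) (nat_lit 1) (.n (nat_lit 10) (nat_lit 2) (.n (nat_lit 11) (nat_lit 1) (.n (nat_lit 15) (nat_lit 1) (.p (nat_lit 17) (nat_lit 1) (.p (nat_lit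 18) (nat_lit 2) (.n (nat_lit 19) (nat_lit 1) (.n (nat_lit 20) (nat_lit 2) (.p (nat_lit 26) (nat_lit 1) (.n (nat_lit 27) (nat_lit 3) (.n (nat_lit 28) (nat_lit 1) (.n (nat_lit 30) (nat_lit 1) (.p (nat_lit 31) (nat_lit 3) (.n (nat_lit 32) (nat_lit 1) (.n (nat_lit 35) (nat_lit 4) (.n (nat_lit 37) (nat_lit 1) (.n (nat_lit 40) (nat_lit 1) (.p (nat_lit 41) (nat_lit 1) (.p (nat_lit 375) (nat_lit 3) (.p (nat_lit 376) (nat_lit 1) (.n (nat_lit 377) (nat_lit 2) (.p (nat_lit 379) (nat_lit 1) (.p (nat_lit 380) (nat_lit 2) (.p (nat_lit 382) (nat_lit 2) (.n (nat_lit 383) (nat_lit 1) (.p (nat_lit 385) (nat_lit 2) (.p (nat_lit 386) (nat_lit 2) (.n (nat_lit 387) (nat_lit 2) (.p (nat_lit 388) (nat_lit 1) (.p (nat_lit 389) (nat_lit 2) (.n (nat_lit 394) (nat_lit 2) (.p (nat_lit 395) (nat_lit 1) (.n (nat_lit 398) (nat_lit 1) (.p (nat_lit 400) (nat_lit 1) (.p (nat_lit 402) (nat_lit 1) (.p (nat_lit 403) (nat_lit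 1) (.p (nat_lit 405) (nat_lit 1) (.n (nat_lit 406) (nat_lit 1) (.n (nat_lit 407) (nat_lit 1) (.p (nat_lit 408) (nat_lit 4) (.p (nat_lit 410) (nat_lit 1) (.p (nat_lit 411) (nat_lit 1) (.n (nat_lit 412) (nat_lit 1) (.p (nat_lit 414) (nat_lit 3) (.p (nat_lit 416) (nat_lit 3) (.n (nat_lit 417) (nat_lit 1) (.n (nat_lit 419) (nat_lit 3) (.p (nat_lit 420) (nat_lit 1) (.n (nat_lit 422) (nat_lit 1) (.p (nat_lit 425) (nat_lit 2) (.p (nat_lit 426) (nat_lit 1) (.n (nat_lit 428) (nat_lit 1) (.n (nat_lit 433) (nat_lit 1) .z)))))))))))))))))))))))))))))))))))))))))))))))))))))))))) .nil)))))))))))))))))))))))))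

noncomputable def dC1c_i80 : IL := (.e true (nat_lit 2) (nat_lit 337) (nat_lit 0) (nat_lit 15) (.e false (nat_lit 1) (nat_lit 338) (nat_lit 0) (nat_lit 15) (.e false (nat_lit 1) (nat_lit 340) (nat_lit 0) (nat_lit 15) (.e true (nat_lit 1) (nat_lit 345) (nat_lit 0) (nat_lit 15) (.e true (nat_lit 3) (nat_lit 260) (nat_lit 2) (nat_lit 13) (.e true (nat_lit 2) (nat_lit 264) (nat_lit 2) (nat_lit 13) (.e true (nat_lit 3) (nat_lit 266) (nat_lit 2) (nat_lit 13) (.e true (nat_lit 3) (nat_lit 267) (nat_lit 2) (nat_lit 13) (.e true (nat_lit 3) (nat_lit 268) (nat_lit 2) (nat_lit 13) (.e true (nat_lit 2) (nat_lit 271) (nat_lit 2) (nat_lit 13) (.e true (nat_lit 2) (nat_lit 274) (nat_lit 2) (nat_lit 13) (.e false (nat_lit 1) (nat_lit 278) (nat_lit 2) (nat_lit 13) (.e true (nat_lit 1) (nat_lit 279) (nat_lit 2) (nat_lit 13) (.e false (nat_lit 3) (nat_lit 280) (nat_lit 2) (nat_lit 13) (.e true (nat_lit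 3) (nat_lit 288) (nat_lit 2) (nat_lit 13) (.e false (nat_lit 1) (nat_lit 263) (nat_lit 2) (nat_lit 13) (.e true (nat_lit 1) (nat_lit 277) (nat_lit 2) (nat_lit 13) (.e true (nat_lit 2) (nat_lit 272) (nat_lit 2) (nat_lit 13) (.e true (nat_lit 3) (nat_lit 270) (nat_lit 2) (nat_lit 13) (.e true (nat_lit 2) (nat_lit 273) (nat_lit 2) (nat_lit 13) (.e true (nat_lit 2) (nat_lit 287) (nat_lit 2) (nat_lit 13) (.e false (nat_lit 1) (nat_lit 286) (nat_lit 2) (nat_lit 13) (.e true (nat_lit 3) (nat_lit 261) (nat_lit 2) (nat_lit 13) (.e false (nat_lit 2) (nat_lit 269) (nat_lit 2) (nat_lit 13) (.u (nat_lit 2) (.n (nat_lit 0) (nat_lit 2) (.n (nat_lit 1) (nat_lit 4) (.n (nat_lit 3) (nat_lit 2) (.p (nat_lit 4) (nat_lit 5) (.n (nat_lit 5) (nat_lit 1) (.n (nat_lit 6) (nat_lit 2) (.n (nat_lit 7) (nat_lit 2) (.p (nat_lit 8) (nat_lit 3) (.n (nat_lit 9) (nat_lit 4) (.n (nat_lit 12) (nat_lit 4) (.n (nat_lit 13)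 (nat_lit 2) (.p (nat_lit 15) (nat_lit 4) (.p (nat_lit 16) (nat_lit 7) (.n (nat_lit 17) (nat_lit 1) (.p (nat_lit 18) (nat_lit 3) (.n (nat_lit 19) (nat_lit 1) (.n (nat_lit 21) (nat_lit 1) (.n (nat_lit 22) (nat_lit 1) (.n (nat_lit 23) (nat_lit 2) (.p (nat_lit 24) (nat_lit 1) (.n (nat_lit 25) (nat_lit 1) (.p (nat_lit 26) (nat_lit 1) (.p (nat_lit 30) (nat_lit 2) (.n (nat_lit 33) (nat_lit 2) (.p (nat_lit 173) (nat_lit 3) (.p (nat_lit 174) (nat_lit 1) (.n (nat_lit 175) (nat_lit 2) (.p (nat_lit 177) (nat_lit 1) (.p (nat_lit 178) (nat_lit 2) (.p (nat_lit 180) (nat_lit 2) (.n (nat_lit 181) (nat_lit 1) (.p (nat_lit 183) (nat_lit 2) (.p (nat_lit 184) (nat_lit 2) (.n (nat_lit 185) (nat_lit 2) (.p (nat_lit 186) (nat_lit 1) (.p (nat_lit 187) (nat_lit 2) (.n (nat_lit 192) (nat_lit 2) (.p (nat_lit 193) (nat_lit 1) (.n (nat_lit 196) (nat_lit 1) (.p (nat_lit 198) (nat_lit 1) (.p (nat_lit 200) (nat_lit 1)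 (.p (nat_lit 201) (nat_lit 1) (.n (nat_lit 215) (nat_lit 1) .z))))))))))))))))))))))))))))))))))))))))))) .nil)))))))))))))))))))))))))

noncomputable def dC1c_i81 : IL := (.e false (nat_lit 1) (nat_lit 341) (nat_lit 1) (nat_lit 14) (.e true (nat_lit 1) (nat_lit 344) (nat_lit 1) (nat_lit 14) (.e false (nat_lit 1) (nat_lit 345) (nat_lit 1) (nat_lit 14) (.e false (nat_lit 1) (nat_lit 346) (nat_lit 1) (nat_lit 14) (.e true (nat_lit 3) (nat_lit 290) (nat_lit 2) (nat_lit 13) (.e true (nat_lit 1) (nat_lit 291) (nat_lit 2) (nat_lit 13) (.e true (nat_lit 1) (nat_lit 292) (nat_lit 2) (nat_lit 13) (.e false (nat_lit 1) (nat_lit 293) (nat_lit 2) (nat_lit 13) (.e true (nat_lit 1) (nat_lit 294) (nat_lit 2) (nat_lit 13) (.e true (nat_lit 1) (nat_lit 298) (nat_lit 2) (nat_lit 13) (.e false (nat_lit 3) (nat_lit 299) (nat_lit 2) (nat_lit 13) (.e false (nat_lit 3) (nat_lit 301) (nat_lit 2) (nat_lit 13)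 (.e false (nat_lit 1) (nat_lit 304) (nat_lit 2) (nat_lit 13) (.e false (nat_lit 3) (nat_lit 307) (nat_lit 2) (nat_lit 13) (.e true (nat_lit 3) (nat_lit 308) (nat_lit 2) (nat_lit 13) (.e false (nat_lit 1) (nat_lit 310) (nat_lit 2) (nat_lit 13) (.e false (nat_lit 2) (nat_lit 316) (nat_lit 2) (nat_lit 13) (.e false (nat_lit 3) (nat_lit 317) (nat_lit 2) (nat_lit 13) (.e false (nat_lit 3) (nat_lit 347) (nat_lit 0) (nat_lit 15) (.e true (nat_lit 2) (nat_lit 348) (nat_lit 0) (nat_lit 15) (.e false (nat_lit 1) (nat_lit 349) (nat_lit 0) (nat_lit 15) (.e false (nat_lit 1) (nat_lit 350) (nat_lit 0) (nat_lit 15) (.e true (nat_lit 1) (nat_lit 351) (nat_lit 0) (nat_lit 15) (.e false (nat_lit 2) (nat_lit 352) (nat_lit 0) (nat_lit 15) (.u (nat_lit 2) (.p (nat_lit 0) (nat_lit 4) (.p (nat_lit 1) (nat_lit 2) (.p (nat_lit 2) (nat_lit 1) (.p (nat_lit 3) (nat_lit 3) (.p (nat_lit 4) (nat_lit 2) (.p (nat_lit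 5) (nat_lit 3) (.p (nat_lit 6) (nat_lit 1) (.p (nat_lit 7) (nat_lit 2) (.p (nat_lit 8) (nat_lit 1) (.p (nat_lit 9) (nat_lit 2) (.n (nat_lit 11) (nat_lit 3) (.p (nat_lit 12) (nat_lit 3) (.p (nat_lit 13) (nat_lit 2) (.p (nat_lit 14) (nat_lit 1) (.p (nat_lit 15) (nat_lit 3) (.p (nat_lit 18) (nat_lit 1) (.n (nat_lit 19) (nat_lit 4) (.n (nat_lit 20) (nat_lit 1) (.n (nat_lit 21) (nat_lit 2) (.p (nat_lit 23) (nat_lit 1) (.p (nat_lit 26) (nat_lit 1) (.n (nat_lit 27) (nat_lit 1) (.n (nat_lit 29) (nat_lit 1) .z))))))))))))))))))))))) .nil)))))))))))))))))))))))))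

noncomputable def dC1c_c21 : Cm := .mk (nat_lit 407) (nat_lit 21) (nat_lit 207) (nat_lit 5) (.c (nat_lit 18) (nat_lit 1) (nat_lit 16) (nat_lit 2) (nat_lit 5) (.c (nat_lit 43) (nat_lit 3) (nat_lit 6) (nat_lit 1) (nat_lit 7) (.c (nat_lit 46) (nat_lit 1) (nat_lit 5) (nat_lit 1) (nat_lit 10) (.c (nat_lit 102) (nat_lit 4) (nat_lit 2) (nat_lit 1) (nat_lit 11) (.c (nat_lit 106) (nat_lit 1) (nat_lit 1) (nat_lit 1) (nat_lit 15) .nil)))))

noncomputable def dC1c_i82 : IL := (.e true (nat_lit 3) (nat_lit 285) (nat_lit 1) (nat_lit 18) (.e false (nat_lit 2) (nat_lit 261) (nat_lit 1) (nat_lit 18) (.e false (nat_lit 3) (nat_lit 265) (nat_lit 1) (nat_lit 18) (.e true (nat_lit 2) (nat_lit 266) (nat_lit 1) (nat_lit 18) (.e false (nat_lit 2) (nat_lit 267) (nat_lit 1) (nat_lit 18) (.e true (nat_lit 1) (nat_lit 268) (nat_lit 1) (nat_lit 18) (.e true (nat_lit 1) (nat_lit 269) (nat_lit 1) (nat_lit 18) (.e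 true (nat_lit 2) (nat_lit 271) (nat_lit 1) (nat_lit 18) (.e false (nat_lit 3) (nat_lit 272) (nat_lit 1) (nat_lit 18) (.e true (nat_lit 2) (nat_lit 273) (nat_lit 1) (nat_lit 18) (.e true (nat_lit 1) (nat_lit 277) (nat_lit 1) (nat_lit 18) (.e false (nat_lit 2) (nat_lit 278) (nat_lit 1) (nat_lit 18) (.e true (nat_lit 3) (nat_lit 280) (nat_lit 1) (nat_lit 18) (.e false (nat_lit 3) (nat_lit 283) (nat_lit 1) (nat_lit 18) (.e false (nat_lit 3) (nat_lit 286) (nat_lit 1) (nat_lit 18) (.e false (nat_lit 2) (nat_lit 270) (nat_lit 1) (nat_lit 18) (.e true (nat_lit 2) (nat_lit 282) (nat_lit 1) (nat_lit 18) (.e true (nat_lit 2) (nat_lit 288) (nat_lit 1) (nat_lit 18) (.e false (nat_lit 3) (nat_lit 289) (nat_lit 1) (nat_lit 18) (.e true (nat_lit 3) (nat_lit 281) (nat_lit 1) (nat_lit 18) (.e true (nat_lit 2) (nat_lit 279) (nat_lit 1) (nat_lit 18) (.e false (nat_lit 2) (nat_lit 274) (nat_lit 1) (nat_lit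 18) (.e false (nat_lit 1) (nat_lit 287) (nat_lit 1) (nat_lit 18) (.u (nat_lit 2) (.p (nat_lit 0) (nat_lit 1) (.n (nat_lit 2) (nat_lit 1) (.n (nat_lit 4) (nat_lit 1) (.p (nat_lit 5) (nat_lit 1) (.n (nat_lit 9) (nat_lit 1) (.p (nat_lit 11) (nat_lit 4) (.p (nat_lit 12) (nat_lit 4) (.n (nat_lit 14) (nat_lit 1) (.n (nat_lit 17) (nat_lit 1) (.n (nat_lit 18) (nat_lit 2) (.n (nat_lit 19) (nat_lit 4) (.p (nat_lit 20) (nat_lit 1) (.p (nat_lit 26) (nat_lit 2) (.n (nat_lit 27) (nat_lit 1) (.n (nat_lit 28) (nat_lit 1) (.n (nat_lit 31) (nat_lit 1) (.p (nat_lit 33) (nat_lit 3) (.n (nat_lit 35) (nat_lit 2) (.p (nat_lit 36) (nat_lit 1) (.p (nat_lit 37) (nat_lit 3) (.p (nat_lit 38) (nat_lit 2) (.n (nat_lit 39) (nat_lit 2) (.p (nat_lit 40) (nat_lit 1) (.n (nat_lit 375) (nat_lit 1) (.n (nat_lit 377) (nat_lit 1) (.p (nat_lit 378) (nat_lit 2) (.n (nat_lit 379) (nat_lit 1) (.p (nat_lit 380) (nat_lit 2) (.p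 (nat_lit 381) (nat_lit 4) (.n (nat_lit 384) (nat_lit 3) (.p (nat_lit 386) (nat_lit 1) (.n (nat_lit 387) (nat_lit 1) (.p (nat_lit 389) (nat_lit 2) (.n (nat_lit 392) (nat_lit 3) (.n (nat_lit 393) (nat_lit 2) (.n (nat_lit 394) (nat_lit 1) (.n (nat_lit 395) (nat_lit 1) (.p (nat_lit 397) (nat_lit 1) (.n (nat_lit 398) (nat_lit 1) (.p (nat_lit 399) (nat_lit 1) (.p (nat_lit 401) (nat_lit 1) (.p (nat_lit 402) (nat_lit 1) (.n (nat_lit 404) (nat_lit 1) (.n (nat_lit 405) (nat_lit 1) (.n (nat_lit 406) (nat_lit 1) (.p (nat_lit 407) (nat_lit 1) (.p (nat_lit 408) (nat_lit 3) (.p (nat_lit 409) (nat_lit 1) (.p (nat_lit 410) (nat_lit 2) (.n (nat_lit 413) (nat_lit 1) (.n (nat_lit 414) (nat_lit 1) (.n (nat_lit 415) (nat_lit 2) (.p (nat_lit 416) (nat_lit 2) (.n (nat_lit 417) (nat_lit 2) (.n (nat_lit 419) (nat_lit 2) (.n (nat_lit 420) (nat_lit 1) (.n (nat_lit 422) (nat_lit 1) (.p (nat_lit 425) (nat_lit 1) (.n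 (nat_lit 427) (nat_lit 1) (.p (nat_lit 432) (nat_lit 1) .z)))))))))))))))))))))))))))))))))))))))))))))))))))))))))))) (.u (nat_lit 2) (.p (nat_lit 434) (nat_lit 1) .z) .nil)))))))))))))))))))))))))

noncomputable def dC1c_i83 : IL := (.e false (nat_lit 1) (nat_lit 348) (nat_lit 0) (nat_lit 15) (.e true (nat_lit 2) (nat_lit 349) (nat_lit 0) (nat_lit 15) (.e true (nat_lit 2) (nat_lit 350) (nat_lit 0) (nat_lit 15) (.e true (nat_lit 2) (nat_lit 351) (nat_lit 0) (nat_lit 15) (.e false (nat_lit 3) (nat_lit 352) (nat_lit 0) (nat_lit 15) (.e false (nat_lit 1) (nat_lit 347) (nat_lit 0) (nat_lit 15) (.e false (nat_lit 1) (nat_lit 46) (nat_lit 24) (nat_lit 2) (.e true (nat_lit 1) (nat_lit 46) (nat_lit 25) (nat_lit 2) (.e false (nat_lit 1) (nat_lit 46) (nat_lit 27) (nat_lit 2) (.e true (nat_lit 1) (nat_lit 181) (nat_lit 5) (nat_lit 10) (.e false (nat_lit 1) (nat_lit 182) (nat_lit 5) (nat_lit 10)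 (.e true (nat_lit 1) (nat_lit 183) (nat_lit 5) (nat_lit 10) (.e false (nat_lit 1) (nat_lit 185) (nat_lit 5) (nat_lit 10) (.e false (nat_lit 1) (nat_lit 192) (nat_lit 5) (nat_lit 10) (.e false (nat_lit 2) (nat_lit 328) (nat_lit 1) (nat_lit 14) (.e true (nat_lit 2) (nat_lit 330) (nat_lit 1) (nat_lit 14) (.e true (nat_lit 3) (nat_lit 331) (nat_lit 1) (nat_lit 14) (.e true (nat_lit 2) (nat_lit 332) (nat_lit 1) (nat_lit 14) (.e true (nat_lit 3) (nat_lit 336) (nat_lit 1) (nat_lit 14) (.e true (nat_lit 2) (nat_lit 337) (nat_lit 1) (nat_lit 14) (.e true (nat_lit 2) (nat_lit 338) (nat_lit 1) (nat_lit 14) (.e false (nat_lit 1) (nat_lit 340) (nat_lit 1) (nat_lit 14) (.e false (nat_lit 1) (nat_lit 346) (nat_lit 1) (nat_lit 14) (.e true (nat_lit 1) (nat_lit 329) (nat_lit 1) (nat_lit 14) (.u (nat_lit 2) (.p (nat_lit 1) (nat_lit 1) (.n (nat_lit 2) (nat_lit 2) (.n (nat_lit 3) (nat_lit 1) (.p (nat_lit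 4) (nat_lit 1) (.n (nat_lit 5) (nat_lit 1) (.n (nat_lit 6) (nat_lit 1) (.n (nat_lit 8) (nat_lit 2) (.p (nat_lit 12) (nat_lit 1) (.n (nat_lit 15) (nat_lit 3) (.n (nat_lit 18) (nat_lit 1) (.p (nat_lit 20) (nat_lit 1) (.p (nat_lit 23) (nat_lit 1) (.n (nat_lit 26) (nat_lit 1) (.p (nat_lit 29) (nat_lit 1) (.p (nat_lit 206) (nat_lit 1) (.p (nat_lit 213) (nat_lit 1) (.n (nat_lit 222) (nat_lit 1) (.p (nat_lit 224) (nat_lit 1) .z)))))))))))))))))) .nil)))))))))))))))))))))))))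

noncomputable def dC1c_i84 : IL := (.e false (nat_lit 3) (nat_lit 217) (nat_lit 2) (nat_lit 17) (.e false (nat_lit 2) (nat_lit 218) (nat_lit 2) (nat_lit 17) (.e true (nat_lit 2) (nat_lit 219) (nat_lit 2) (nat_lit 17) (.e true (nat_lit 1) (nat_lit 220) (nat_lit 2) (nat_lit 17) (.e false (nat_lit 1) (nat_lit 221) (nat_lit 2) (nat_lit 17) (.e true (nat_lit 2) (nat_lit 223) (nat_lit 2) (nat_lit 17) (.e true (nat_lit 2) (nat_lit 226) (nat_lit 2) (nat_lit 17) (.e true (nat_lit 3) (nat_lit 229) (nat_lit 2) (nat_lit 17) (.e true (nat_lit 1) (nat_lit 230) (nat_lit 2) (nat_lit 17) (.e false (nat_lit 3) (nat_lit 231) (nat_lit 2) (nat_lit 17) (.e false (nat_lit 1) (nat_lit 233) (nat_lit 2) (nat_lit 17) (.e false (nat_lit 3) (nat_lit 234) (nat_lit 2) (nat_lit 17) (.e true (nat_lit 3) (nat_lit 235) (nat_lit 2) (nat_lit 17) (.e true (nat_lit 2) (nat_lit 236) (nat_lit 2) (nat_lit 17) (.e false (nat_lit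 3) (nat_lit 237) (nat_lit 2) (nat_lit 17) (.e false (nat_lit 2) (nat_lit 238) (nat_lit 2) (nat_lit 17) (.e true (nat_lit 1) (nat_lit 239) (nat_lit 2) (nat_lit 17) (.e false (nat_lit 2) (nat_lit 240) (nat_lit 2) (nat_lit 17) (.e false (nat_lit 3) (nat_lit 241) (nat_lit 2) (nat_lit 17) (.e false (nat_lit 1) (nat_lit 242) (nat_lit 2) (nat_lit 17) (.e false (nat_lit 3) (nat_lit 243) (nat_lit 2) (nat_lit 17) (.e false (nat_lit 1) (nat_lit 244) (nat_lit 2) (nat_lit 17) (.e false (nat_lit 3) (nat_lit 245) (nat_lit 2) (nat_lit 17) (.e true (nat_lit 3) (nat_lit 248) (nat_lit 2) (nat_lit 17) (.u (nat_lit 2) (.p (nat_lit 0) (nat_lit 4) (.n (nat_lit 1) (nat_lit 1) (.n (nat_lit 2) (nat_lit 2) (.p (nat_lit 3) (nat_lit 1) (.n (nat_lit 4) (nat_lit 1) (.p (nat_lit 5) (nat_lit 4) (.p (nat_lit 6) (nat_lit 2) (.n (nat_lit 7) (nat_lit 5) (.p (nat_lit 8) (nat_lit 4) (.p (nat_lit 9) (nat_lit 1) (.p (nat_lit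 10) (nat_lit 1) (.n (nat_lit 11) (nat_lit 1) (.p (nat_lit 12) (nat_lit 4) (.n (nat_lit 13) (nat_lit 2) (.n (nat_lit 14) (nat_lit 3) (.p (nat_lit 15) (nat_lit 2) (.p (nat_lit 17) (nat_lit 2) (.p (nat_lit 18) (nat_lit 1) (.n (nat_lit 20) (nat_lit 4) (.n (nat_lit 24) (nat_lit 1) (.n (nat_lit 25) (nat_lit 1) (.n (nat_lit 26) (nat_lit 2) (.n (nat_lit 27) (nat_lit 4) (.p (nat_lit 28) (nat_lit 2) (.n (nat_lit 29) (nat_lit 3) (.p (nat_lit 30) (nat_lit 4) (.p (nat_lit 31) (nat_lit 3) (.n (nat_lit 32) (nat_lit 2) (.n (nat_lit 33) (nat_lit 4) (.p (nat_lit 34) (nat_lit 2) (.n (nat_lit 35) (nat_lit 6) (.p (nat_lit 36) (nat_lit 1) (.n (nat_lit 37) (nat_lit 4) (.n (nat_lit 38) (nat_lit 5) (.n (nat_lit 39) (nat_lit 3) (.n (nat_lit 40) (nat_lit 1) (.p (nat_lit 45) (nat_lit 1) (.p (nat_lit 49) (nat_lit 4) (.p (nat_lit 50) (nat_lit 2) (.n (nat_lit 51) (nat_lit 2) (.n (nat_lit 52) (nat_lit 1) (.n (nat_lit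 53) (nat_lit 1) (.p (nat_lit 54) (nat_lit 3) (.n (nat_lit 55) (nat_lit 6) (.n (nat_lit 56) (nat_lit 1) (.n (nat_lit 57) (nat_lit 1) (.p (nat_lit 58) (nat_lit 1) (.p (nat_lit 60) (nat_lit 2) (.p (nat_lit 63) (nat_lit 2) (.n (nat_lit 64) (nat_lit 1) (.p (nat_lit 65) (nat_lit 1) (.n (nat_lit 66) (nat_lit 1) (.n (nat_lit 67) (nat_lit 1) (.p (nat_lit 69) (nat_lit 1) (.n (nat_lit 70) (nat_lit 2) .z))))))))))))))))))))))))))))))))))))))))))))))))))))))) .nil)))))))))))))))))))))))))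

noncomputable def dC1c_i85 : IL := (.e true (nat_lit 2) (nat_lit 218) (nat_lit 2) (nat_lit 17) (.e false (nat_lit 2) (nat_lit 219) (nat_lit 2) (nat_lit 17) (.e true (nat_lit 2) (nat_lit 221) (nat_lit 2) (nat_lit 17) (.e false (nat_lit 3) (nat_lit 222) (nat_lit 2) (nat_lit 17) (.e false (nat_lit 2) (nat_lit 223) (nat_lit 2) (nat_lit 17) (.e false (nat_lit 3) (nat_lit 226) (nat_lit 2) (nat_lit 17) (.e false (nat_lit 1) (nat_lit 229) (nat_lit 2) (nat_lit 17) (.e true (nat_lit 1) (nat_lit 230) (nat_lit 2) (nat_lit 17) (.e false (nat_lit 3) (nat_lit 231) (nat_lit 2) (nat_lit 17) (.e true (nat_lit 2) (nat_lit 232) (nat_lit 2) (nat_lit 17) (.e true (nat_lit 1) (nat_lit 233) (nat_lit 2) (nat_lit 17) (.e true (nat_lit 3) (nat_lit 234) (nat_lit 2) (nat_lit 17) (.e false (nat_lit 3) (nat_lit 235) (nat_lit 2) (nat_lit 17) (.e false (nat_lit 3) (nat_lit 236) (nat_lit 2) (nat_lit 17) (.e false (nat_lit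 3) (nat_lit 237) (nat_lit 2) (nat_lit 17) (.e true (nat_lit 1) (nat_lit 238) (nat_lit 2) (nat_lit 17) (.e true (nat_lit 2) (nat_lit 240) (nat_lit 2) (nat_lit 17) (.e true (nat_lit 3) (nat_lit 242) (nat_lit 2) (nat_lit 17) (.e false (nat_lit 3) (nat_lit 243) (nat_lit 2) (nat_lit 17) (.e false (nat_lit 2) (nat_lit 244) (nat_lit 2) (nat_lit 17) (.e true (nat_lit 1) (nat_lit 245) (nat_lit 2) (nat_lit 17) (.e true (nat_lit 3) (nat_lit 248) (nat_lit 2) (nat_lit 17) (.e true (nat_lit 2) (nat_lit 258) (nat_lit 2) (nat_lit 17) (.e false (nat_lit 1) (nat_lit 259) (nat_lit 2) (nat_lit 17) (.u (nat_lit 2) (.n (nat_lit 0) (nat_lit 6) (.p (nat_lit 1) (nat_lit 1) (.p (nat_lit 2) (nat_lit 4) (.p (nat_lit 3) (nat_lit 3) (.n (nat_lit 4) (nat_lit 4) (.n (nat_lit 5) (nat_lit 4) (.n (nat_lit 6) (nat_lit 3) (.p (nat_lit 7) (nat_lit 2) (.n (nat_lit 8) (nat_lit 1) (.n (nat_lit 9) (nat_lit 1) (.n (nat_lit 10)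 (nat_lit 1) (.n (nat_lit 11) (nat_lit 5) (.p (nat_lit 12) (nat_lit 1) (.p (nat_lit 14) (nat_lit 1) (.p (nat_lit 15) (nat_lit 1) (.n (nat_lit 17) (nat_lit 2) (.n (nat_lit 18) (nat_lit 3) (.p (nat_lit 19) (nat_lit 2) (.p (nat_lit 20) (nat_lit 4) (.n (nat_lit 23) (nat_lit 1) (.n (nat_lit 26) (nat_lit 3) (.p (nat_lit 27) (nat_lit 4) (.n (nat_lit 29) (nat_lit 1) (.n (nat_lit 30) (nat_lit 3) (.n (nat_lit 31) (nat_lit 1) (.p (nat_lit 32) (nat_lit 3) (.n (nat_lit 33) (nat_lit 4) (.n (nat_lit 34) (nat_lit 1) (.p (nat_lit 35) (nat_lit 1) (.p (nat_lit 37) (nat_lit 3) (.n (nat_lit 38) (nat_lit 1) (.p (nat_lit 39) (nat_lit 2) (.p (nat_lit 41) (nat_lit 5) (.n (nat_lit 49) (nat_lit 1) (.n (nat_lit 50) (nat_lit 1) (.n (nat_lit 51) (nat_lit 1) (.p (nat_lit 53) (nat_lit 1) (.p (nat_lit 54) (nat_lit 1) (.p (nat_lit 55) (nat_lit 1) (.p (nat_lit 56) (nat_lit 2) (.p (nat_lit 57) (nat_lit 1) (.n (nat_lit 58)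 (nat_lit 1) (.n (nat_lit 60) (nat_lit 1) (.n (nat_lit 61) (nat_lit 1) (.n (nat_lit 62) (nat_lit 1) (.p (nat_lit 63) (nat_lit 1) (.n (nat_lit 70) (nat_lit 1) .z))))))))))))))))))))))))))))))))))))))))))))))) .nil)))))))))))))))))))))))))

noncomputable def dC1c_i86 : IL := (.e true (nat_lit 2) (nat_lit 217) (nat_lit 2) (nat_lit 17) (.e false (nat_lit 2) (nat_lit 218) (nat_lit 2) (nat_lit 17) (.e true (nat_lit 2) (nat_lit 219) (nat_lit 2) (nat_lit 17) (.e true (nat_lit 2) (nat_lit 220) (nat_lit 2) (nat_lit 17) (.e false (nat_lit 2) (nat_lit 221) (nat_lit 2) (nat_lit 17) (.e true (nat_lit 2) (nat_lit 222) (nat_lit 2) (nat_lit 17) (.e false (nat_lit 2) (nat_lit 223) (nat_lit 2) (nat_lit 17) (.e false (nat_lit 3) (nat_lit 224) (nat_lit 2) (nat_lit 17) (.e false (nat_lit 2) (nat_lit 227) (nat_lit 2) (nat_lit 17) (.e false (nat_lit 2) (nat_lit 229) (nat_lit 2) (nat_lit 17) (.e true (nat_lit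 1) (nat_lit 231) (nat_lit 2) (nat_lit 17) (.e true (nat_lit 1) (nat_lit 232) (nat_lit 2) (nat_lit 17) (.e true (nat_lit 1) (nat_lit 233) (nat_lit 2) (nat_lit 17) (.e true (nat_lit 2) (nat_lit 234) (nat_lit 2) (nat_lit 17) (.e true (nat_lit 1) (nat_lit 235) (nat_lit 2) (nat_lit 17) (.e false (nat_lit 3) (nat_lit 236) (nat_lit 2) (nat_lit 17) (.e true (nat_lit 2) (nat_lit 237) (nat_lit 2) (nat_lit 17) (.e true (nat_lit 3) (nat_lit 238) (nat_lit 2) (nat_lit 17) (.e false (nat_lit 2) (nat_lit 240) (nat_lit 2) (nat_lit 17) (.e true (nat_lit 2) (nat_lit 243) (nat_lit 2) (nat_lit 17) (.e false (nat_lit 3) (nat_lit 244) (nat_lit 2) (nat_lit 17) (.e false (nat_lit 2) (nat_lit 245) (nat_lit 2) (nat_lit 17) (.e false (nat_lit 2) (nat_lit 248) (nat_lit 2) (nat_lit 17) (.e false (nat_lit 2) (nat_lit 252) (nat_lit 2) (nat_lit 17) (.u (nat_lit 2) (.p (nat_lit 0) (nat_lit 3) (.p (nat_lit 1) (nat_lit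 1) (.p (nat_lit 2) (nat_lit 1) (.n (nat_lit 3) (nat_lit 2) (.p (nat_lit 4) (nat_lit 2) (.p (nat_lit 5) (nat_lit 2) (.n (nat_lit 6) (nat_lit 3) (.p (nat_lit 7) (nat_lit 5) (.n (nat_lit 8) (nat_lit 1) (.p (nat_lit 10) (nat_lit 1) (.p (nat_lit 11) (nat_lit 4) (.p (nat_lit 12) (nat_lit 2) (.n (nat_lit 14) (nat_lit 1) (.p (nat_lit 15) (nat_lit 1) (.p (nat_lit 17) (nat_lit 5) (.p (nat_lit 18) (nat_lit 2) (.p (nat_lit 20) (nat_lit 3) (.p (nat_lit 24) (nat_lit 1) (.p (nat_lit 25) (nat_lit 1) (.p (nat_lit 26) (nat_lit 1) (.n (nat_lit 27) (nat_lit 2) (.n (nat_lit 28) (nat_lit 2) (.p (nat_lit 30) (nat_lit 5) (.p (nat_lit 33) (nat_lit 5) (.n (nat_lit 34) (nat_lit 2) (.n (nat_lit 35) (nat_lit 1) (.p (nat_lit 36) (nat_lit 2) (.n (nat_lit 37) (nat_lit 5) (.p (nat_lit 38) (nat_lit 1) (.n (nat_lit 39) (nat_lit 6) (.n (nat_lit 41) (nat_lit 4) (.n (nat_lit 45) (nat_lit 1) (.p (nat_lit 46) (nat_lit 1) (.n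 (nat_lit 48) (nat_lit 1) (.p (nat_lit 52) (nat_lit 1) (.p (nat_lit 53) (nat_lit 1) (.n (nat_lit 55) (nat_lit 1) (.n (nat_lit 56) (nat_lit 1) (.p (nat_lit 57) (nat_lit 2) (.n (nat_lit 59) (nat_lit 1) (.n (nat_lit 63) (nat_lit 1) (.p (nat_lit 67) (nat_lit 1) (.n (nat_lit 68) (nat_lit 1) (.n (nat_lit 69) (nat_lit 2) .z)))))))))))))))))))))))))))))))))))))))))))) .nil)))))))))))))))))))))))))

noncomputable def dC1c_i87 : IL := (.e false (nat_lit 2) (nat_lit 137) (nat_lit 1) (nat_lit 13) (.e false (nat_lit 1) (nat_lit 28) (nat_lit 13) (nat_lit 3) (.e true (nat_lit 3) (nat_lit 37) (nat_lit 9) (nat_lit 5) (.e true (nat_lit 3) (nat_lit 157) (nat_lit 0) (nat_lit 14) (.e true (nat_lit 1) (nat_lit 162) (nat_lit 0) (nat_lit 14) (.e false (nat_lit 3) (nat_lit 167) (nat_lit 0) (nat_lit 14) (.e false (nat_lit 2) (nat_lit 153) (nat_lit 0) (nat_lit 14) (.e false (nat_lit 3) (nat_lit 155) (nat_lit 0)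 (nat_lit 14) (.e false (nat_lit 3) (nat_lit 156) (nat_lit 0) (nat_lit 14) (.e true (nat_lit 3) (nat_lit 158) (nat_lit 0) (nat_lit 14) (.e true (nat_lit 1) (nat_lit 159) (nat_lit 0) (nat_lit 14) (.e true (nat_lit 1) (nat_lit 160) (nat_lit 0) (nat_lit 14) (.e true (nat_lit 2) (nat_lit 163) (nat_lit 0) (nat_lit 14) (.e false (nat_lit 1) (nat_lit 168) (nat_lit 0) (nat_lit 14) (.e false (nat_lit 2) (nat_lit 172) (nat_lit 0) (nat_lit 14) (.e true (nat_lit 2) (nat_lit 173) (nat_lit 0) (nat_lit 14) (.e true (nat_lit 2) (nat_lit 110) (nat_lit 2) (nat_lit 12) (.e true (nat_lit 2) (nat_lit 164) (nat_lit 0) (nat_lit 14) (.e true (nat_lit 2) (nat_lit 165) (nat_lit 0) (nat_lit 14) (.e false (nat_lit 2) (nat_lit 169) (nat_lit 0) (nat_lit 14) (.e false (nat_lit 1) (nat_lit 29) (nat_lit 13) (nat_lit 3) (.e false (nat_lit 1) (nat_lit 30) (nat_lit 13) (nat_lit 3) (.e true (nat_lit 2) (nat_lit 73) (nat_lit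 4) (nat_lit 10) (.u (nat_lit 2) (.p (nat_lit 0) (nat_lit 1) (.p (nat_lit 1) (nat_lit 2) (.n (nat_lit 2) (nat_lit 1) (.p (nat_lit 3) (nat_lit 2) (.n (nat_lit 4) (nat_lit 1) (.n (nat_lit 5) (nat_lit 1) (.n (nat_lit 6) (nat_lit 1) (.p (nat_lit 8) (nat_lit 1) (.n (nat_lit 10) (nat_lit 2) (.n (nat_lit 11) (nat_lit 1) (.p (nat_lit 12) (nat_lit 1) (.p (nat_lit 14) (nat_lit 1) (.p (nat_lit 15) (nat_lit 3) (.n (nat_lit 16) (nat_lit 1) (.p (nat_lit 17) (nat_lit 1) (.p (nat_lit 19) (nat_lit 1) (.p (nat_lit 21) (nat_lit 2) (.p (nat_lit 22) (nat_lit 1) (.p (nat_lit 23) (nat_lit 1) (.p (nat_lit 24) (nat_lit 2) (.p (nat_lit 25) (nat_lit 1) (.p (nat_lit 26) (nat_lit 1) (.p (nat_lit 27) (nat_lit 1) (.p (nat_lit 28) (nat_lit 1) (.n (nat_lit 29) (nat_lit 1) (.p (nat_lit 31) (nat_lit 2) (.n (nat_lit 33) (nat_lit 1) (.n (nat_lit 36) (nat_lit 1) (.n (nat_lit 39) (nat_lit 1) (.p (nat_lit 44) (nat_lit 1) (.n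 (nat_lit 45) (nat_lit 1) (.n (nat_lit 46) (nat_lit 1) (.p (nat_lit 54) (nat_lit 1) (.n (nat_lit 63) (nat_lit 1) (.n (nat_lit 74) (nat_lit 1) (.p (nat_lit 77) (nat_lit 1) (.p (nat_lit 78) (nat_lit 1) (.n (nat_lit 79) (nat_lit 1) (.n (nat_lit 85) (nat_lit 1) (.p (nat_lit 86) (nat_lit 1) (.n (nat_lit 88) (nat_lit 1) (.n (nat_lit 104) (nat_lit 1) (.p (nat_lit 105) (nat_lit 1) (.n (nat_lit 107) (nat_lit 2) (.p (nat_lit 108) (nat_lit 1) (.p (nat_lit 109) (nat_lit 2) (.p (nat_lit 110) (nat_lit 1) (.p (nat_lit 111) (nat_lit 1) (.p (nat_lit 112) (nat_lit 2) (.p (nat_lit 114) (nat_lit 1) (.n (nat_lit 119) (nat_lit 1) (.p (nat_lit 120) (nat_lit 1) (.n (nat_lit 124) (nat_lit 1) (.n (nat_lit 126) (nat_lit 1) (.p (nat_lit 130) (nat_lit 1) (.n (nat_lit 138) (nat_lit 1) (.p (nat_lit 144) (nat_lit 1) (.n (nat_lit 145) (nat_lit 1) (.p (nat_lit 146) (nat_lit 1) (.p (nat_lit 147) (nat_lit 1) .z))))))))))))))))))))))))))))))))))))))))))))))))))))))))))))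 (.u (nat_lit 2) (.n (nat_lit 148) (nat_lit 2) (.p (nat_lit 149) (nat_lit 3) (.p (nat_lit 150) (nat_lit 1) (.p (nat_lit 151) (nat_lit 1) (.n (nat_lit 152) (nat_lit 5) (.n (nat_lit 153) (nat_lit 1) (.p (nat_lit 154) (nat_lit 1) (.n (nat_lit 159) (nat_lit 2) (.n (nat_lit 161) (nat_lit 2) (.n (nat_lit 162) (nat_lit 3) (.n (nat_lit 163) (nat_lit 1) (.p (nat_lit 165) (nat_lit 2) (.p (nat_lit 166) (nat_lit 10) (.p (nat_lit 167) (nat_lit 5) (.p (nat_lit 168) (nat_lit 4) (.n (nat_lit 169) (nat_lit 2) (.n (nat_lit 170) (nat_lit 8) (.p (nat_lit 171) (nat_lit 5) (.n (nat_lit 172) (nat_lit 1) (.p (nat_lit 173) (nat_lit 2) (.p (nat_lit 174) (nat_lit 8) (.n (nat_lit 175) (nat_lit 2) (.n (nat_lit 176) (nat_lit 1) (.p (nat_lit 177) (nat_lit 2) (.p (nat_lit 178) (nat_lit 10) (.n (nat_lit 179) (nat_lit 1) (.n (nat_lit 180) (nat_lit 3) (.n (nat_lit 181) (nat_lit 9) (.n (nat_lit 182) (nat_lit 6) (.n (nat_lit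 183) (nat_lit 7) (.p (nat_lit 184) (nat_lit 8) (.n (nat_lit 185) (nat_lit 6) (.n (nat_lit 187) (nat_lit 3) (.n (nat_lit 188) (nat_lit 1) (.n (nat_lit 189) (nat_lit 3) (.n (nat_lit 190) (nat_lit 4) (.p (nat_lit 191) (nat_lit 8) (.n (nat_lit 196) (nat_lit 1) (.n (nat_lit 197) (nat_lit 1) (.p (nat_lit 199) (nat_lit 7) (.n (nat_lit 200) (nat_lit 7) (.p (nat_lit 201) (nat_lit 3) (.n (nat_lit 202) (nat_lit 2) .z))))))))))))))))))))))))))))))))))))))))))) .nil)))))))))))))))))))))))))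

noncomputable def dC1c_i88 : IL := (.s false (nat_lit 1) (nat_lit 44) (nat_lit 0) (nat_lit 0) (nat_lit 1) true (nat_lit 11) true (nat_lit 13) false (nat_lit 7) true (nat_lit 14) true (nat_lit 14) (.s true (nat_lit 3) (nat_lit 45) (nat_lit 0) (nat_lit 0) (nat_lit 1) true (nat_lit 11) true (nat_lit 13) false (nat_lit 7) true (nat_lit 14) true (nat_lit 14) (.s true (nat_lit 2) (nat_lit 44) (nat_lit 0) (nat_lit 1) (nat_lit 0) false (nat_lit 15) true (nat_lit 14) false (nat_lit 7) true (nat_lit 14) true (nat_lit 13) (.s true (nat_lit 2) (nat_lit 45) (nat_lit 0) (nat_lit 1) (nat_lit 0) false (nat_lit 15) true (nat_lit 14) false (nat_lit 7) true (nat_lit 14) true (nat_lit 13) (.s true (nat_lit 2) (nat_lit 43) (nat_lit 1) (nat_lit 0) (nat_lit 0) true (nat_lit 11) true (nat_lit 14) false (nat_lit 7) true (nat_lit 13) true (nat_lit 14) (.e true (nat_lit 1) (nat_lit 59) (nat_lit 5) (nat_lit 9)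 (.e true (nat_lit 2) (nat_lit 60) (nat_lit 5) (nat_lit 9) (.e true (nat_lit 1) (nat_lit 61) (nat_lit 5) (nat_lit 9) (.e true (nat_lit 3) (nat_lit 152) (nat_lit 1) (nat_lit 13) (.e true (nat_lit 1) (nat_lit 132) (nat_lit 1) (nat_lit 13) (.e false (nat_lit 2) (nat_lit 136) (nat_lit 1) (nat_lit 13) (.e true (nat_lit 3) (nat_lit 138) (nat_lit 1) (nat_lit 13) (.e true (nat_lit 1) (nat_lit 142) (nat_lit 1) (nat_lit 13) (.e false (nat_lit 1) (nat_lit 143) (nat_lit 1) (nat_lit 13) (.e true (nat_lit 1) (nat_lit 144) (nat_lit 1) (nat_lit 13) (.e true (nat_lit 1) (nat_lit 145) (nat_lit 1) (nat_lit 13) (.e true (nat_lit 2) (nat_lit 149) (nat_lit 1) (nat_lit 13) (.e false (nat_lit 1) (nat_lit 108) (nat_lit 2) (nat_lit 12) (.e false (nat_lit 3) (nat_lit 119) (nat_lit 2) (nat_lit 12) (.e true (nat_lit 2) (nat_lit 114) (nat_lit 2) (nat_lit 12) (.e false (nat_lit 2) (nat_lit 116) (nat_lit 2) (nat_lit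 12) (.e true (nat_lit 2) (nat_lit 107) (nat_lit 2) (nat_lit 12) (.e false (nat_lit 2) (nat_lit 112) (nat_lit 2) (nat_lit 12) (.e false (nat_lit 2) (nat_lit 161) (nat_lit 0) (nat_lit 14) (.e false (nat_lit 2) (nat_lit 170) (nat_lit 0) (nat_lit 14) dC1c_i87)))))))))))))))))))))))))

noncomputable def dC1c_i89 : IL := (.s false (nat_lit 2) (nat_lit 18) (nat_lit 1) (nat_lit 3) (nat_lit 0) true (nat_lit 11) true (nat_lit 14) true (nat_lit 0) true (nat_lit 13) true (nat_lit 11) (.s true (nat_lit 3) (nat_lit 20) (nat_lit 1) (nat_lit 2) (nat_lit 2) true (nat_lit 9) true (nat_lit 12) false (nat_lit 1) true (nat_lit 13) true (nat_lit 12) (.s true (nat_lit 1) (nat_lit 21) (nat_lit 1) (nat_lit 2) (nat_lit 2) true (nat_lit 9) true (nat_lit 12) false (nat_lit 1) true (nat_lit 13) true (nat_lit 12) (.s true (nat_lit 2) (nat_lit 22) (nat_lit 1) (nat_lit 2) (nat_lit 2) true (nat_lit 9) true (nat_lit 12)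 false (nat_lit 1) true (nat_lit 13) true (nat_lit 12) (.s true (nat_lit 3) (nat_lit 20) (nat_lit 2) (nat_lit 2) (nat_lit 1) true (nat_lit 9) true (nat_lit 13) false (nat_lit 1) true (nat_lit 12) true (nat_lit 12) (.s true (nat_lit 3) (nat_lit 21) (nat_lit 2) (nat_lit 2) (nat_lit 1) true (nat_lit 9) true (nat_lit 13) false (nat_lit 1) true (nat_lit 12) true (nat_lit 12) (.s false (nat_lit 3) (nat_lit 24) (nat_lit 0) (nat_lit 2) (nat_lit 2) true (nat_lit 10) true (nat_lit 12) false (nat_lit 2) true (nat_lit 14) true (nat_lit 12) (.s false (nat_lit 1) (nat_lit 24) (nat_lit 2) (nat_lit 0) (nat_lit 2) true (nat_lit 8) true (nat_lit 12) false (nat_lit 2) true (nat_lit 12) true (nat_lit 14) (.s false (nat_lit 1) (nat_lit 24) (nat_lit 2) (nat_lit 2) (nat_lit 0) true (nat_lit 10) true (nat_lit 14) false (nat_lit 2) true (nat_lit 12) true (nat_lit 12) (.s false (nat_lit 3) (nat_lit 26) (nat_lit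 2) (nat_lit 2) (nat_lit 0) true (nat_lit 10) true (nat_lit 14) false (nat_lit 2) true (nat_lit 12) true (nat_lit 12) (.s false (nat_lit 1) (nat_lit 29) (nat_lit 1) (nat_lit 1) (nat_lit 2) true (nat_lit 9) true (nat_lit 12) false (nat_lit 3) true (nat_lit 13) true (nat_lit 13) (.s false (nat_lit 2) (nat_lit 30) (nat_lit 1) (nat_lit 1) (nat_lit 2) true (nat_lit 9) true (nat_lit 12) false (nat_lit 3) true (nat_lit 13) true (nat_lit 13) (.s true (nat_lit 2) (nat_lit 32) (nat_lit 0) (nat_lit 1) (nat_lit 2) true (nat_lit 10) true (nat_lit 12) false (nat_lit 4) true (nat_lit 14) true (nat_lit 13) (.s false (nat_lit 2) (nat_lit 34) (nat_lit 0) (nat_lit 2) (nat_lit 1) true (nat_lit 11) true (nat_lit 13) false (nat_lit 4) true (nat_lit 14) true (nat_lit 12) (.s true (nat_lit 1) (nat_lit 35) (nat_lit 1) (nat_lit 2) (nat_lit 0) true (nat_lit 11) true (nat_lit 14) false (nat_lit 4) true (nat_lit 13)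 true (nat_lit 12) (.s true (nat_lit 3) (nat_lit 36) (nat_lit 1) (nat_lit 2) (nat_lit 0) true (nat_lit 11) true (nat_lit 14) false (nat_lit 4) true (nat_lit 13) true (nat_lit 12) (.s true (nat_lit 2) (nat_lit 38) (nat_lit 2) (nat_lit 0) (nat_lit 0) true (nat_lit 10) true (nat_lit 14) false (nat_lit 5) true (nat_lit 12) true (nat_lit 14) (.s false (nat_lit 3) (nat_lit 39) (nat_lit 2) (nat_lit 0) (nat_lit 0) true (nat_lit 10) true (nat_lit 14) false (nat_lit 5) true (nat_lit 12) true (nat_lit 14) (.s false (nat_lit 1) (nat_lit 40) (nat_lit 0) (nat_lit 1) (nat_lit 1) true (nat_lit 11) true (nat_lit 13) false (nat_lit 6) true (nat_lit 14) true (nat_lit 13) (.s true (nat_lit 1) (nat_lit 41) (nat_lit 1) (nat_lit 0) (nat_lit 1) false (nat_lit 16) true (nat_lit 13) false (nat_lit 6) true (nat_lit 13) true (nat_lit 14) (.s true (nat_lit 3) (nat_lit 42) (nat_lit 1) (nat_lit 0) (nat_lit 1) false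 (nat_lit 16) true (nat_lit 13) false (nat_lit 6) true (nat_lit 13) true (nat_lit 14) (.s false (nat_lit 3) (nat_lit 40) (nat_lit 1) (nat_lit 1) (nat_lit 0) true (nat_lit 11) true (nat_lit 14) false (nat_lit 6) true (nat_lit 13) true (nat_lit 13) (.s true (nat_lit 2) (nat_lit 41) (nat_lit 1) (nat_lit 1) (nat_lit 0) true (nat_lit 11) true (nat_lit 14) false (nat_lit 6) true (nat_lit 13) true (nat_lit 13) (.s true (nat_lit 1) (nat_lit 42) (nat_lit 1) (nat_lit 1) (nat_lit 0) true (nat_lit 11) true (nat_lit 14) false (nat_lit 6) true (nat_lit 13) true (nat_lit 13) (.s true (nat_lit 3) (nat_lit 43) (nat_lit 0) (nat_lit 0) (nat_lit 1) true (nat_lit 11) true (nat_lit 13) false (nat_lit 7) true (nat_lit 14) true (nat_lit 14) dC1c_i88)))))))))))))))))))))))))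

noncomputable def dC1c_i90 : IL := (.s true (nat_lit 1) (nat_lit 10) (nat_lit 0) (nat_lit 6) (nat_lit 1) true (nat_lit 11) true (nat_lit 13) true (nat_lit 4) true (nat_lit 14) true (nat_lit 8) (.s true (nat_lit 1) (nat_lit 12) (nat_lit 0) (nat_lit 6) (nat_lit 1) true (nat_lit 11) true (nat_lit 13) true (nat_lit 4) true (nat_lit 14) true (nat_lit 8) (.s true (nat_lit 2) (nat_lit 11) (nat_lit 2) (nat_lit 2) (nat_lit 3) true (nat_lit 4) true (nat_lit 11) true (nat_lit 4) true (nat_lit 12) true (nat_lit 12) (.s false (nat_lit 3) (nat_lit 11) (nat_lit 4) (nat_lit 2) (nat_lit 1) true (nat_lit 4) true (nat_lit 13) true (nat_lit 4) true (nat_lit 10) true (nat_lit 12) (.s false (nat_lit 2) (nat_lit 11) (nat_lit 6) (nat_lit 1) (nat_lit 0) true (nat_lit 2) true (nat_lit 14) true (nat_lit 4) true (nat_lit 8) true (nat_lit 13) (.s false (nat_lit 1) (nat_lit 13) (nat_lit 2) (nat_lit 4) (nat_lit 0)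 true (nat_lit 10) true (nat_lit 14) true (nat_lit 3) true (nat_lit 12) true (nat_lit 10) (.s false (nat_lit 3) (nat_lit 13) (nat_lit 6) (nat_lit 0) (nat_lit 0) true (nat_lit 2) true (nat_lit 14) true (nat_lit 3) true (nat_lit 8) true (nat_lit 14) (.s true (nat_lit 2) (nat_lit 14) (nat_lit 0) (nat_lit 5) (nat_lit 1) true (nat_lit 11) true (nat_lit 13) true (nat_lit 2) true (nat_lit 14) true (nat_lit 9) (.s true (nat_lit 3) (nat_lit 14) (nat_lit 1) (nat_lit 0) (nat_lit 5) true (nat_lit 3) true (nat_lit 9) true (nat_lit 2) true (nat_lit 13) true (nat_lit 14) (.s true (nat_lit 2) (nat_lit 14) (nat_lit 1) (nat_lit 1) (nat_lit 4) true (nat_lit 4) true (nat_lit 10) true (nat_lit 2) true (nat_lit 13) true (nat_lit 13) (.s false (nat_lit 3) (nat_lit 14) (nat_lit 1) (nat_lit 3) (nat_lit 2) true (nat_lit 9) true (nat_lit 12) true (nat_lit 2) true (nat_lit 13) true (nat_lit 11) (.s true (nat_lit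 3) (nat_lit 14) (nat_lit 1) (nat_lit 4) (nat_lit 1) false (nat_lit 16) true (nat_lit 13) true (nat_lit 2) true (nat_lit 13) true (nat_lit 10) (.s false (nat_lit 2) (nat_lit 14) (nat_lit 1) (nat_lit 5) (nat_lit 0) true (nat_lit 11) true (nat_lit 14) true (nat_lit 2) true (nat_lit 13) true (nat_lit 9) (.s true (nat_lit 1) (nat_lit 15) (nat_lit 1) (nat_lit 5) (nat_lit 0) true (nat_lit 11) true (nat_lit 14) true (nat_lit 2) true (nat_lit 13) true (nat_lit 9) (.s false (nat_lit 2) (nat_lit 14) (nat_lit 2) (nat_lit 3) (nat_lit 1) true (nat_lit 9) true (nat_lit 13) true (nat_lit 2) true (nat_lit 12) true (nat_lit 11) (.s false (nat_lit 2) (nat_lit 15) (nat_lit 2) (nat_lit 3) (nat_lit 1) true (nat_lit 9) true (nat_lit 13) true (nat_lit 2) true (nat_lit 12) true (nat_lit 11) (.s false (nat_lit 1) (nat_lit 15) (nat_lit 3) (nat_lit 1) (nat_lit 2) true (nat_lit 4) true (nat_lit 12) true (nat_lit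 2) true (nat_lit 11) true (nat_lit 13) (.s true (nat_lit 2) (nat_lit 15) (nat_lit 4) (nat_lit 1) (nat_lit 1) true (nat_lit 4) true (nat_lit 13) true (nat_lit 2) true (nat_lit 10) true (nat_lit 13) (.s true (nat_lit 3) (nat_lit 14) (nat_lit 5) (nat_lit 0) (nat_lit 1) true (nat_lit 3) true (nat_lit 13) true (nat_lit 2) true (nat_lit 9) true (nat_lit 14) (.s false (nat_lit 2) (nat_lit 15) (nat_lit 5) (nat_lit 0) (nat_lit 1) true (nat_lit 3) true (nat_lit 13) true (nat_lit 2) true (nat_lit 9) true (nat_lit 14) (.s true (nat_lit 3) (nat_lit 16) (nat_lit 0) (nat_lit 0) (nat_lit 5) true (nat_lit 4) true (nat_lit 9) true (nat_lit 1) true (nat_lit 14) true (nat_lit 14) (.s true (nat_lit 3) (nat_lit 16) (nat_lit 0) (nat_lit 1) (nat_lit 4) true (nat_lit 5) true (nat_lit 10) true (nat_lit 1) true (nat_lit 14) true (nat_lit 13) (.s true (nat_lit 2) (nat_lit 17) (nat_lit 0) (nat_lit 4) (nat_lit 1)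 true (nat_lit 11) true (nat_lit 13) true (nat_lit 1) true (nat_lit 14) true (nat_lit 10) (.s true (nat_lit 3) (nat_lit 16) (nat_lit 2) (nat_lit 3) (nat_lit 0) true (nat_lit 10) true (nat_lit 14) true (nat_lit 1) true (nat_lit 12) true (nat_lit 11) (.s false (nat_lit 1) (nat_lit 16) (nat_lit 5) (nat_lit 0) (nat_lit 0) true (nat_lit 4) true (nat_lit 14) true (nat_lit 1) true (nat_lit 9) true (nat_lit 14) dC1c_i89)))))))))))))))))))))))))

noncomputable def dC1c_i91 : IL := (.e false (nat_lit 1) (nat_lit 109) (nat_lit 2) (nat_lit 12) (.e false (nat_lit 1) (nat_lit 59) (nat_lit 5) (nat_lit 9) (.e true (nat_lit 1) (nat_lit 60) (nat_lit 5) (nat_lit 9) (.e true (nat_lit 3) (nat_lit 61) (nat_lit 5) (nat_lit 9) (.e false (nat_lit 3) (nat_lit 116) (nat_lit 2) (nat_lit 12) (.e false (nat_lit 3) (nat_lit 144) (nat_lit 1) (nat_lit 13) (.e false (nat_lit 2) (nat_lit 145) (nat_lit 1) (nat_lit 13) (.e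 false (nat_lit 3) (nat_lit 29) (nat_lit 13) (nat_lit 3) (.e false (nat_lit 2) (nat_lit 30) (nat_lit 13) (nat_lit 3) (.e false (nat_lit 2) (nat_lit 159) (nat_lit 0) (nat_lit 14) (.e false (nat_lit 3) (nat_lit 163) (nat_lit 0) (nat_lit 14) (.e false (nat_lit 2) (nat_lit 153) (nat_lit 0) (nat_lit 14) (.e false (nat_lit 2) (nat_lit 154) (nat_lit 0) (nat_lit 14) (.e false (nat_lit 3) (nat_lit 156) (nat_lit 0) (nat_lit 14) (.e false (nat_lit 3) (nat_lit 157) (nat_lit 0) (nat_lit 14) (.e true (nat_lit 2) (nat_lit 160) (nat_lit 0) (nat_lit 14) (.e true (nat_lit 2) (nat_lit 164) (nat_lit 0) (nat_lit 14) (.e false (nat_lit 1) (nat_lit 165) (nat_lit 0) (nat_lit 14) (.e false (nat_lit 3) (nat_lit 168) (nat_lit 0) (nat_lit 14) (.e true (nat_lit 2) (nat_lit 172) (nat_lit 0) (nat_lit 14) (.e true (nat_lit 2) (nat_lit 173) (nat_lit 0) (nat_lit 14) (.e false (nat_lit 1) (nat_lit 155) (nat_lit 0) (nat_lit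 14) (.e false (nat_lit 3) (nat_lit 167) (nat_lit 0) (nat_lit 14) (.u (nat_lit 2) (.n (nat_lit 0) (nat_lit 1) (.p (nat_lit 1) (nat_lit 2) (.n (nat_lit 2) (nat_lit 1) (.p (nat_lit 3) (nat_lit 3) (.n (nat_lit 4) (nat_lit 1) (.n (nat_lit 6) (nat_lit 1) (.n (nat_lit 7) (nat_lit 2) (.n (nat_lit 8) (nat_lit 1) (.p (nat_lit 9) (nat_lit 1) (.n (nat_lit 10) (nat_lit 2) (.p (nat_lit 11) (nat_lit 1) (.p (nat_lit 12) (nat_lit 1) (.p (nat_lit 15) (nat_lit 3) (.n (nat_lit 16) (nat_lit 2) (.p (nat_lit 17) (nat_lit 2) (.n (nat_lit 18) (nat_lit 1) (.n (nat_lit 20) (nat_lit 1) (.p (nat_lit 21) (nat_lit 2) (.p (nat_lit 22) (nat_lit 2) (.n (nat_lit 23) (nat_lit 1) (.n (nat_lit 25) (nat_lit 1) (.p (nat_lit 27) (nat_lit 2) (.n (nat_lit 29) (nat_lit 1) (.n (nat_lit 30) (nat_lit 1) (.p (nat_lit 31) (nat_lit 3) (.n (nat_lit 32) (nat_lit 1) (.n (nat_lit 33) (nat_lit 1) (.n (nat_lit 39) (nat_lit 2) (.p (nat_lit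 44) (nat_lit 2) (.n (nat_lit 45) (nat_lit 1) (.n (nat_lit 46) (nat_lit 2) (.p (nat_lit 48) (nat_lit 1) (.p (nat_lit 49) (nat_lit 1) (.n (nat_lit 51) (nat_lit 1) (.p (nat_lit 57) (nat_lit 1) (.p (nat_lit 62) (nat_lit 1) (.n (nat_lit 64) (nat_lit 1) (.n (nat_lit 91) (nat_lit 1) (.n (nat_lit 93) (nat_lit 1) (.n (nat_lit 96) (nat_lit 1) (.p (nat_lit 100) (nat_lit 1) (.p (nat_lit 104) (nat_lit 1) (.n (nat_lit 105) (nat_lit 2) (.n (nat_lit 106) (nat_lit 1) (.n (nat_lit 107) (nat_lit 1) (.p (nat_lit 108) (nat_lit 1) (.n (nat_lit 109) (nat_lit 1) (.n (nat_lit 110) (nat_lit 1) (.p (nat_lit 112) (nat_lit 1) (.n (nat_lit 113) (nat_lit 3) (.n (nat_lit 114) (nat_lit 1) (.n (nat_lit 117) (nat_lit 1) (.p (nat_lit 120) (nat_lit 2) (.n (nat_lit 124) (nat_lit 1) (.n (nat_lit 125) (nat_lit 1) (.n (nat_lit 127) (nat_lit 1) (.p (nat_lit 128) (nat_lit 1) (.p (nat_lit 129) (nat_lit 2) (.n (nat_lit 130) (nat_lit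 3) (.n (nat_lit 132) (nat_lit 1) .z)))))))))))))))))))))))))))))))))))))))))))))))))))))))))))) (.u (nat_lit 2) (.n (nat_lit 133) (nat_lit 1) (.p (nat_lit 135) (nat_lit 1) (.p (nat_lit 136) (nat_lit 1) (.p (nat_lit 137) (nat_lit 1) (.n (nat_lit 138) (nat_lit 1) (.n (nat_lit 143) (nat_lit 4) (.p (nat_lit 144) (nat_lit 3) (.n (nat_lit 145) (nat_lit 2) (.p (nat_lit 146) (nat_lit 2) (.p (nat_lit 147) (nat_lit 1) (.p (nat_lit 149) (nat_lit 2) (.p (nat_lit 150) (nat_lit 2) (.n (nat_lit 152) (nat_lit 1) (.n (nat_lit 153) (nat_lit 6) (.n (nat_lit 154) (nat_lit 1) (.n (nat_lit 159) (nat_lit 1) (.p (nat_lit 161) (nat_lit 5) (.p (nat_lit 162) (nat_lit 6) (.p (nat_lit 163) (nat_lit 9) (.p (nat_lit 164) (nat_lit 4) (.p (nat_lit 165) (nat_lit 5) (.p (nat_lit 166) (nat_lit 8) (.n (nat_lit 167) (nat_lit 4) (.p (nat_lit 168) (nat_lit 9) (.n (nat_lit 169) (nat_lit 2) (.n (nat_lit 171) (nat_lit 7) (.p (nat_lit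 172) (nat_lit 5) (.p (nat_lit 173) (nat_lit 2) (.p (nat_lit 174) (nat_lit 1) (.p (nat_lit 175) (nat_lit 3) (.n (nat_lit 176) (nat_lit 4) (.p (nat_lit 177) (nat_lit 2) (.p (nat_lit 178) (nat_lit 12) (.p (nat_lit 179) (nat_lit 11) (.n (nat_lit 180) (nat_lit 10) (.n (nat_lit 181) (nat_lit 8) (.p (nat_lit 182) (nat_lit 2) (.p (nat_lit 183) (nat_lit 1) (.n (nat_lit 184) (nat_lit 9) (.p (nat_lit 185) (nat_lit 5) (.n (nat_lit 186) (nat_lit 1) (.p (nat_lit 187) (nat_lit 1) (.p (nat_lit 188) (nat_lit 1) (.p (nat_lit 189) (nat_lit 5) (.p (nat_lit 190) (nat_lit 5) (.n (nat_lit 191) (nat_lit 8) (.p (nat_lit 192) (nat_lit 2) (.p (nat_lit 193) (nat_lit 2) (.n (nat_lit 194) (nat_lit 1) (.p (nat_lit 195) (nat_lit 2) (.p (nat_lit 198) (nat_lit 1) (.n (nat_lit 199) (nat_lit 5) (.p (nat_lit 200) (nat_lit 5) (.n (nat_lit 201) (nat_lit 2) (.n (nat_lit 202) (nat_lit 1) .z)))))))))))))))))))))))))))))))))))))))))))))))))))))))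 .nil)))))))))))))))))))))))))

noncomputable def dC1c_i92 : IL := (.s false (nat_lit 3) (nat_lit 44) (nat_lit 0) (nat_lit 0) (nat_lit 1) true (nat_lit 11) true (nat_lit 13) false (nat_lit 7) true (nat_lit 14) true (nat_lit 14) (.s false (nat_lit 2) (nat_lit 45) (nat_lit 0) (nat_lit 0) (nat_lit 1) true (nat_lit 11) true (nat_lit 13) false (nat_lit 7) true (nat_lit 14) true (nat_lit 14) (.s false (nat_lit 1) (nat_lit 44) (nat_lit 0) (nat_lit 1) (nat_lit 0) false (nat_lit 15) true (nat_lit 14) false (nat_lit 7) true (nat_lit 14) true (nat_lit 13) (.s false (nat_lit 3) (nat_lit 45) (nat_lit 0) (nat_lit 1) (nat_lit 0) false (nat_lit 15) true (nat_lit 14) false (nat_lit 7) true (nat_lit 14) true (nat_lit 13) (.s false (nat_lit 3) (nat_lit 43) (nat_lit 1) (nat_lit 0) (nat_lit 0) true (nat_lit 11) true (nat_lit 14) false (nat_lit 7) true (nat_lit 13) true (nat_lit 14) (.e true (nat_lit 2) (nat_lit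 142) (nat_lit 1) (nat_lit 13) (.e false (nat_lit 1) (nat_lit 112) (nat_lit 2) (nat_lit 12) (.e true (nat_lit 1) (nat_lit 107) (nat_lit 2) (nat_lit 12) (.e false (nat_lit 1) (nat_lit 161) (nat_lit 0) (nat_lit 14) (.e false (nat_lit 1) (nat_lit 170) (nat_lit 0) (nat_lit 14) (.e true (nat_lit 2) (nat_lit 132) (nat_lit 1) (nat_lit 13) (.e false (nat_lit 1) (nat_lit 133) (nat_lit 1) (nat_lit 13) (.e false (nat_lit 1) (nat_lit 134) (nat_lit 1) (nat_lit 13) (.e false (nat_lit 2) (nat_lit 136) (nat_lit 1) (nat_lit 13) (.e false (nat_lit 2) (nat_lit 137) (nat_lit 1) (nat_lit 13) (.e true (nat_lit 2) (nat_lit 138) (nat_lit 1) (nat_lit 13) (.e true (nat_lit 2) (nat_lit 139) (nat_lit 1) (nat_lit 13) (.e false (nat_lit 1) (nat_lit 140) (nat_lit 1) (nat_lit 13) (.e true (nat_lit 1) (nat_lit 141) (nat_lit 1) (nat_lit 13) (.e false (nat_lit 2) (nat_lit 143) (nat_lit 1) (nat_lit 13) (.e true (nat_lit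 3) (nat_lit 152) (nat_lit 1) (nat_lit 13) (.e false (nat_lit 2) (nat_lit 28) (nat_lit 13) (nat_lit 3) (.e true (nat_lit 2) (nat_lit 56) (nat_lit 5) (nat_lit 9) (.e false (nat_lit 1) (nat_lit 37) (nat_lit 9) (nat_lit 5) (.e false (nat_lit 1) (nat_lit 119) (nat_lit 2) (nat_lit 12) dC1c_i91)))))))))))))))))))))))))

noncomputable def dC1c_i93 : IL := (.s true (nat_lit 3) (nat_lit 16) (nat_lit 2) (nat_lit 0) (nat_lit 3) true (nat_lit 4) true (nat_lit 11) true (nat_lit 1) true (nat_lit 12) true (nat_lit 14) (.s false (nat_lit 3) (nat_lit 16) (nat_lit 2) (nat_lit 3) (nat_lit 0) true (nat_lit 10) true (nat_lit 14) true (nat_lit 1) true (nat_lit 12) true (nat_lit 11) (.s false (nat_lit 1) (nat_lit 16) (nat_lit 4) (nat_lit 1) (nat_lit 0) true (nat_lit 5) true (nat_lit 14) true (nat_lit 1) true (nat_lit 10) true (nat_lit 13) (.s false (nat_lit 3) (nat_lit 16) (nat_lit 5) (nat_lit 0) (nat_lit 0)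 true (nat_lit 4) true (nat_lit 14) true (nat_lit 1) true (nat_lit 9) true (nat_lit 14) (.s true (nat_lit 3) (nat_lit 18) (nat_lit 1) (nat_lit 3) (nat_lit 0) true (nat_lit 11) true (nat_lit 14) true (nat_lit 0) true (nat_lit 13) true (nat_lit 11) (.s true (nat_lit 1) (nat_lit 19) (nat_lit 2) (nat_lit 2) (nat_lit 2) true (nat_lit 8) true (nat_lit 12) false (nat_lit 0) true (nat_lit 12) true (nat_lit 12) (.s false (nat_lit 2) (nat_lit 20) (nat_lit 1) (nat_lit 2) (nat_lit 2) true (nat_lit 9) true (nat_lit 12) false (nat_lit 1) true (nat_lit 13) true (nat_lit 12) (.s true (nat_lit 3) (nat_lit 21) (nat_lit 1) (nat_lit 2) (nat_lit 2) true (nat_lit 9) true (nat_lit 12) false (nat_lit 1) true (nat_lit 13) true (nat_lit 12) (.s false (nat_lit 2) (nat_lit 20) (nat_lit 2) (nat_lit 1) (nat_lit 2) true (nat_lit 8) true (nat_lit 12) false (nat_lit 1) true (nat_lit 12) true (nat_lit 13) (.s false (nat_lit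 1) (nat_lit 24) (nat_lit 0) (nat_lit 2) (nat_lit 2) true (nat_lit 10) true (nat_lit 12) false (nat_lit 2) true (nat_lit 14) true (nat_lit 12) (.s true (nat_lit 1) (nat_lit 24) (nat_lit 2) (nat_lit 0) (nat_lit 2) true (nat_lit 8) true (nat_lit 12) false (nat_lit 2) true (nat_lit 12) true (nat_lit 14) (.s false (nat_lit 2) (nat_lit 24) (nat_lit 2) (nat_lit 2) (nat_lit 0) true (nat_lit 10) true (nat_lit 14) false (nat_lit 2) true (nat_lit 12) true (nat_lit 12) (.s true (nat_lit 1) (nat_lit 29) (nat_lit 1) (nat_lit 1) (nat_lit 2) true (nat_lit 9) true (nat_lit 12) false (nat_lit 3) true (nat_lit 13) true (nat_lit 13) (.s true (nat_lit 2) (nat_lit 30) (nat_lit 1) (nat_lit 1) (nat_lit 2) true (nat_lit 9) true (nat_lit 12) false (nat_lit 3) true (nat_lit 13) true (nat_lit 13) (.s false (nat_lit 1) (nat_lit 32) (nat_lit 0) (nat_lit 1) (nat_lit 2) true (nat_lit 10) true (nat_lit 12) false (nat_lit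 4) true (nat_lit 14) true (nat_lit 13) (.s false (nat_lit 3) (nat_lit 36) (nat_lit 0) (nat_lit 1) (nat_lit 2) true (nat_lit 10) true (nat_lit 12) false (nat_lit 4) true (nat_lit 14) true (nat_lit 13) (.s true (nat_lit 3) (nat_lit 35) (nat_lit 0) (nat_lit 2) (nat_lit 1) true (nat_lit 11) true (nat_lit 13) false (nat_lit 4) true (nat_lit 14) true (nat_lit 12) (.s true (nat_lit 3) (nat_lit 35) (nat_lit 1) (nat_lit 2) (nat_lit 0) true (nat_lit 11) true (nat_lit 14) false (nat_lit 4) true (nat_lit 13) true (nat_lit 12) (.s true (nat_lit 3) (nat_lit 35) (nat_lit 2) (nat_lit 0) (nat_lit 1) true (nat_lit 9) true (nat_lit 13) false (nat_lit 4) true (nat_lit 12) true (nat_lit 14) (.s true (nat_lit 3) (nat_lit 35) (nat_lit 2) (nat_lit 1) (nat_lit 0) true (nat_lit 10) true (nat_lit 14) false (nat_lit 4) true (nat_lit 12) true (nat_lit 13) (.s false (nat_lit 1) (nat_lit 39) (nat_lit 2) (nat_lit 0)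 (nat_lit 0) true (nat_lit 10) true (nat_lit 14) false (nat_lit 5) true (nat_lit 12) true (nat_lit 14) (.s false (nat_lit 3) (nat_lit 41) (nat_lit 0) (nat_lit 1) (nat_lit 1) true (nat_lit 11) true (nat_lit 13) false (nat_lit 6) true (nat_lit 14) true (nat_lit 13) (.s true (nat_lit 1) (nat_lit 40) (nat_lit 1) (nat_lit 1) (nat_lit 0) true (nat_lit 11) true (nat_lit 14) false (nat_lit 6) true (nat_lit 13) true (nat_lit 13) (.s true (nat_lit 3) (nat_lit 42) (nat_lit 1) (nat_lit 1) (nat_lit 0) true (nat_lit 11) true (nat_lit 14) false (nat_lit 6) true (nat_lit 13) true (nat_lit 13) (.s false (nat_lit 3) (nat_lit 43) (nat_lit 0) (nat_lit 0) (nat_lit 1) true (nat_lit 11) true (nat_lit 13) false (nat_lit 7) true (nat_lit 14) true (nat_lit 14) dC1c_i92)))))))))))))))))))))))))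

noncomputable def dC1c_i94 : IL := (.s false (nat_lit 1) (nat_lit 8) (nat_lit 0) (nat_lit 2) (nat_lit 6) true (nat_lit 2) true (nat_lit 8) true (nat_lit 6) true (nat_lit 14) true (nat_lit 12) (.s true (nat_lit 3) (nat_lit 8) (nat_lit 0) (nat_lit 6) (nat_lit 2) true (nat_lit 10) true (nat_lit 12) true (nat_lit 6) true (nat_lit 14) true (nat_lit 8) (.s false (nat_lit 3) (nat_lit 8) (nat_lit 2) (nat_lit 2) (nat_lit 4) true (nat_lit 2) true (nat_lit 10) true (nat_lit 6) true (nat_lit 12) true (nat_lit 12) (.s true (nat_lit 3) (nat_lit 8) (nat_lit 6) (nat_lit 2) (nat_lit 0) true (nat_lit 2) true (nat_lit 14) true (nat_lit 6) true (nat_lit 8) true (nat_lit 12) (.s true (nat_lit 2) (nat_lit 9) (nat_lit 1) (nat_lit 1) (nat_lit 6) true (nat_lit 1) true (nat_lit 8) true (nat_lit 5) true (nat_lit 13) true (nat_lit 13) (.s false (nat_lit 1) (nat_lit 9) (nat_lit 1) (nat_lit 2) (nat_lit 5) true (nat_lit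 3) true (nat_lit 9) true (nat_lit 5) true (nat_lit 13) true (nat_lit 12) (.s true (nat_lit 2) (nat_lit 9) (nat_lit 1) (nat_lit 6) (nat_lit 1) false (nat_lit 16) true (nat_lit 13) true (nat_lit 5) true (nat_lit 13) true (nat_lit 8) (.s true (nat_lit 2) (nat_lit 11) (nat_lit 1) (nat_lit 4) (nat_lit 2) true (nat_lit 9) true (nat_lit 12) true (nat_lit 4) true (nat_lit 13) true (nat_lit 10) (.s true (nat_lit 1) (nat_lit 10) (nat_lit 4) (nat_lit 1) (nat_lit 2) true (nat_lit 2) true (nat_lit 12) true (nat_lit 4) true (nat_lit 10) true (nat_lit 13) (.s true (nat_lit 2) (nat_lit 11) (nat_lit 4) (nat_lit 2) (nat_lit 1) true (nat_lit 4) true (nat_lit 13) true (nat_lit 4) true (nat_lit 10) true (nat_lit 12) (.s true (nat_lit 1) (nat_lit 13) (nat_lit 2) (nat_lit 0) (nat_lit 4) true (nat_lit 2) true (nat_lit 10) true (nat_lit 3) true (nat_lit 12) true (nat_lit 14) (.s false (nat_lit 3) (nat_lit 13)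 (nat_lit 2) (nat_lit 4) (nat_lit 0) true (nat_lit 10) true (nat_lit 14) true (nat_lit 3) true (nat_lit 12) true (nat_lit 10) (.s false (nat_lit 3) (nat_lit 14) (nat_lit 0) (nat_lit 5) (nat_lit 1) true (nat_lit 11) true (nat_lit 13) true (nat_lit 2) true (nat_lit 14) true (nat_lit 9) (.s false (nat_lit 2) (nat_lit 15) (nat_lit 0) (nat_lit 5) (nat_lit 1) true (nat_lit 11) true (nat_lit 13) true (nat_lit 2) true (nat_lit 14) true (nat_lit 9) (.s false (nat_lit 2) (nat_lit 14) (nat_lit 1) (nat_lit 1) (nat_lit 4) true (nat_lit 4) true (nat_lit 10) true (nat_lit 2) true (nat_lit 13) true (nat_lit 13) (.s true (nat_lit 1) (nat_lit 14) (nat_lit 1) (nat_lit 5) (nat_lit 0) true (nat_lit 11) true (nat_lit 14) true (nat_lit 2) true (nat_lit 13) true (nat_lit 9) (.s false (nat_lit 2) (nat_lit 15) (nat_lit 1) (nat_lit 5) (nat_lit 0) true (nat_lit 11) true (nat_lit 14) true (nat_lit 2) true (nat_lit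 13) true (nat_lit 9) (.s true (nat_lit 1) (nat_lit 14) (nat_lit 2) (nat_lit 3) (nat_lit 1) true (nat_lit 9) true (nat_lit 13) true (nat_lit 2) true (nat_lit 12) true (nat_lit 11) (.s true (nat_lit 3) (nat_lit 15) (nat_lit 2) (nat_lit 3) (nat_lit 1) true (nat_lit 9) true (nat_lit 13) true (nat_lit 2) true (nat_lit 12) true (nat_lit 11) (.s false (nat_lit 2) (nat_lit 15) (nat_lit 3) (nat_lit 2) (nat_lit 1) true (nat_lit 6) true (nat_lit 13) true (nat_lit 2) true (nat_lit 11) true (nat_lit 12) (.s false (nat_lit 1) (nat_lit 14) (nat_lit 5) (nat_lit 0) (nat_lit 1) true (nat_lit 3) true (nat_lit 13) true (nat_lit 2) true (nat_lit 9) true (nat_lit 14) (.s true (nat_lit 3) (nat_lit 15) (nat_lit 5) (nat_lit 0) (nat_lit 1) true (nat_lit 3) true (nat_lit 13) true (nat_lit 2) true (nat_lit 9) true (nat_lit 14) (.s false (nat_lit 3) (nat_lit 16) (nat_lit 0) (nat_lit 0) (nat_lit 5) true (nat_lit 4)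 true (nat_lit 9) true (nat_lit 1) true (nat_lit 14) true (nat_lit 14) (.s false (nat_lit 1) (nat_lit 16) (nat_lit 0) (nat_lit 4) (nat_lit 1) true (nat_lit 11) true (nat_lit 13) true (nat_lit 1) true (nat_lit 14) true (nat_lit 10) (.s true (nat_lit 2) (nat_lit 17) (nat_lit 0) (nat_lit 4) (nat_lit 1) true (nat_lit 11) true (nat_lit 13) true (nat_lit 1) true (nat_lit 14) true (nat_lit 10) dC1c_i93)))))))))))))))))))))))))

noncomputable def dC1c_i95 : IL := (.e false (nat_lit 1) (nat_lit 222) (nat_lit 2) (nat_lit 17) (.e true (nat_lit 3) (nat_lit 225) (nat_lit 2) (nat_lit 17) (.e false (nat_lit 2) (nat_lit 226) (nat_lit 2) (nat_lit 17) (.e true (nat_lit 2) (nat_lit 228) (nat_lit 2) (nat_lit 17) (.e false (nat_lit 3) (nat_lit 230) (nat_lit 2) (nat_lit 17) (.e true (nat_lit 2) (nat_lit 231) (nat_lit 2) (nat_lit 17) (.e true (nat_lit 2) (nat_lit 232) (nat_lit 2) (nat_lit 17) (.e false (nat_lit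 2) (nat_lit 233) (nat_lit 2) (nat_lit 17) (.e false (nat_lit 1) (nat_lit 234) (nat_lit 2) (nat_lit 17) (.e true (nat_lit 1) (nat_lit 235) (nat_lit 2) (nat_lit 17) (.e true (nat_lit 1) (nat_lit 236) (nat_lit 2) (nat_lit 17) (.e false (nat_lit 2) (nat_lit 237) (nat_lit 2) (nat_lit 17) (.e true (nat_lit 1) (nat_lit 239) (nat_lit 2) (nat_lit 17) (.e true (nat_lit 1) (nat_lit 240) (nat_lit 2) (nat_lit 17) (.e false (nat_lit 1) (nat_lit 241) (nat_lit 2) (nat_lit 17) (.e true (nat_lit 1) (nat_lit 242) (nat_lit 2) (nat_lit 17) (.e false (nat_lit 3) (nat_lit 243) (nat_lit 2) (nat_lit 17) (.e false (nat_lit 3) (nat_lit 246) (nat_lit 2) (nat_lit 17) (.e false (nat_lit 3) (nat_lit 248) (nat_lit 2) (nat_lit 17) (.e true (nat_lit 3) (nat_lit 215) (nat_lit 2) (nat_lit 17) (.e false (nat_lit 1) (nat_lit 219) (nat_lit 2) (nat_lit 17) (.e false (nat_lit 2) (nat_lit 224) (nat_lit 2) (nat_lit 17) (.e true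 (nat_lit 1) (nat_lit 227) (nat_lit 2) (nat_lit 17) (.e false (nat_lit 3) (nat_lit 245) (nat_lit 2) (nat_lit 17) (.u (nat_lit 2) (.p (nat_lit 0) (nat_lit 4) (.p (nat_lit 1) (nat_lit 1) (.n (nat_lit 2) (nat_lit 4) (.n (nat_lit 3) (nat_lit 4) (.n (nat_lit 4) (nat_lit 1) (.n (nat_lit 5) (nat_lit 1) (.n (nat_lit 6) (nat_lit 2) (.p (nat_lit 7) (nat_lit 1) (.p (nat_lit 9) (nat_lit 1) (.n (nat_lit 11) (nat_lit 2) (.n (nat_lit 12) (nat_lit 1) (.p (nat_lit 14) (nat_lit 2) (.n (nat_lit 18) (nat_lit 2) (.p (nat_lit 19) (nat_lit 5) (.p (nat_lit 20) (nat_lit 3) (.n (nat_lit 26) (nat_lit 1) (.n (nat_lit 27) (nat_lit 4) (.n (nat_lit 29) (nat_lit 1) (.p (nat_lit 30) (nat_lit 3) (.n (nat_lit 32) (nat_lit 4) (.p (nat_lit 33) (nat_lit 1) (.n (nat_lit 35) (nat_lit 2) (.n (nat_lit 36) (nat_lit 1) (.n (nat_lit 37) (nat_lit 5) (.p (nat_lit 38) (nat_lit 2) (.n (nat_lit 39) (nat_lit 1) (.p (nat_lit 40) (nat_lit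 1) (.n (nat_lit 41) (nat_lit 1) (.n (nat_lit 49) (nat_lit 2) (.p (nat_lit 50) (nat_lit 2) (.n (nat_lit 51) (nat_lit 1) (.p (nat_lit 52) (nat_lit 1) (.p (nat_lit 55) (nat_lit 1) (.n (nat_lit 60) (nat_lit 1) (.p (nat_lit 62) (nat_lit 1) (.n (nat_lit 70) (nat_lit 2) (.n (nat_lit 331) (nat_lit 1) (.n (nat_lit 332) (nat_lit 1) (.p (nat_lit 335) (nat_lit 1) (.p (nat_lit 346) (nat_lit 1) (.n (nat_lit 356) (nat_lit 1) (.p (nat_lit 357) (nat_lit 1) (.n (nat_lit 358) (nat_lit 1) .z))))))))))))))))))))))))))))))))))))))))))) .nil)))))))))))))))))))))))))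

noncomputable def dC1c_i96 : IL := (.e false (nat_lit 2) (nat_lit 219) (nat_lit 2) (nat_lit 17) (.e false (nat_lit 3) (nat_lit 220) (nat_lit 2) (nat_lit 17) (.e true (nat_lit 2) (nat_lit 222) (nat_lit 2) (nat_lit 17) (.e true (nat_lit 3) (nat_lit 223) (nat_lit 2) (nat_lit 17) (.e true (nat_lit 3) (nat_lit 224) (nat_lit 2) (nat_lit 17) (.e true (nat_lit 2) (nat_lit 226) (nat_lit 2) (nat_lit 17) (.e true (nat_lit 2) (nat_lit 227) (nat_lit 2) (nat_lit 17) (.e false (nat_lit 2) (nat_lit 229) (nat_lit 2) (nat_lit 17) (.e true (nat_lit 1) (nat_lit 230) (nat_lit 2) (nat_lit 17) (.e true (nat_lit 2) (nat_lit 232) (nat_lit 2) (nat_lit 17) (.e false (nat_lit 3) (nat_lit 233) (nat_lit 2) (nat_lit 17) (.e false (nat_lit 2) (nat_lit 234) (nat_lit 2) (nat_lit 17) (.e true (nat_lit 2) (nat_lit 235) (nat_lit 2) (nat_lit 17) (.e false (nat_lit 2) (nat_lit 237) (nat_lit 2) (nat_lit 17) (.e false (nat_lit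 2) (nat_lit 239) (nat_lit 2) (nat_lit 17) (.e true (nat_lit 1) (nat_lit 240) (nat_lit 2) (nat_lit 17) (.e false (nat_lit 1) (nat_lit 241) (nat_lit 2) (nat_lit 17) (.e true (nat_lit 3) (nat_lit 242) (nat_lit 2) (nat_lit 17) (.e false (nat_lit 3) (nat_lit 243) (nat_lit 2) (nat_lit 17) (.e false (nat_lit 1) (nat_lit 244) (nat_lit 2) (nat_lit 17) (.e false (nat_lit 3) (nat_lit 245) (nat_lit 2) (nat_lit 17) (.e true (nat_lit 3) (nat_lit 248) (nat_lit 2) (nat_lit 17) (.e false (nat_lit 2) (nat_lit 250) (nat_lit 2) (nat_lit 17) (.e false (nat_lit 1) (nat_lit 277) (nat_lit 1) (nat_lit 18) (.u (nat_lit 2) (.n (nat_lit 0) (nat_lit 1) (.p (nat_lit 1) (nat_lit 2) (.n (nat_lit 2) (nat_lit 2) (.n (nat_lit 3) (nat_lit 2) (.n (nat_lit 4) (nat_lit 1) (.n (nat_lit 5) (nat_lit 1) (.n (nat_lit 7) (nat_lit 1) (.p (nat_lit 8) (nat_lit 5) (.n (nat_lit 9) (nat_lit 1) (.p (nat_lit 10) (nat_lit 1) (.n (nat_lit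 11) (nat_lit 1) (.p (nat_lit 12) (nat_lit 1) (.n (nat_lit 13) (nat_lit 1) (.p (nat_lit 14) (nat_lit 4) (.n (nat_lit 15) (nat_lit 2) (.n (nat_lit 18) (nat_lit 2) (.n (nat_lit 19) (nat_lit 1) (.p (nat_lit 21) (nat_lit 1) (.n (nat_lit 23) (nat_lit 1) (.n (nat_lit 24) (nat_lit 1) (.n (nat_lit 25) (nat_lit 1) (.n (nat_lit 26) (nat_lit 2) (.n (nat_lit 27) (nat_lit 3) (.p (nat_lit 28) (nat_lit 4) (.p (nat_lit 29) (nat_lit 2) (.n (nat_lit 30) (nat_lit 1) (.n (nat_lit 32) (nat_lit 1) (.n (nat_lit 33) (nat_lit 1) (.p (nat_lit 34) (nat_lit 4) (.n (nat_lit 35) (nat_lit 5) (.n (nat_lit 36) (nat_lit 1) (.n (nat_lit 37) (nat_lit 2) (.n (nat_lit 38) (nat_lit 8) (.n (nat_lit 39) (nat_lit 1) (.n (nat_lit 40) (nat_lit 2) (.n (nat_lit 41) (nat_lit 1) (.p (nat_lit 45) (nat_lit 1) (.n (nat_lit 46) (nat_lit 1) (.p (nat_lit 48) (nat_lit 1) (.p (nat_lit 49) (nat_lit 4) (.p (nat_lit 50) (nat_lit 2) (.n (nat_lit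 51) (nat_lit 1) (.p (nat_lit 53) (nat_lit 1) (.p (nat_lit 54) (nat_lit 4) (.n (nat_lit 55) (nat_lit 3) (.n (nat_lit 56) (nat_lit 2) (.n (nat_lit 57) (nat_lit 1) (.n (nat_lit 60) (nat_lit 1) (.p (nat_lit 63) (nat_lit 1) (.p (nat_lit 65) (nat_lit 1) (.n (nat_lit 66) (nat_lit 1) (.n (nat_lit 67) (nat_lit 1) (.p (nat_lit 69) (nat_lit 1) (.n (nat_lit 70) (nat_lit 2) .z)))))))))))))))))))))))))))))))))))))))))))))))))))))) .nil)))))))))))))))))))))))))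

noncomputable def dC1c_i97 : IL := (.e true (nat_lit 1) (nat_lit 161) (nat_lit 0) (nat_lit 14) (.e false (nat_lit 1) (nat_lit 173) (nat_lit 0) (nat_lit 14) (.e true (nat_lit 2) (nat_lit 154) (nat_lit 0) (nat_lit 14) (.e true (nat_lit 3) (nat_lit 133) (nat_lit 1) (nat_lit 13) (.e false (nat_lit 2) (nat_lit 137) (nat_lit 1) (nat_lit 13) (.e false (nat_lit 1) (nat_lit 138) (nat_lit 1) (nat_lit 13) (.e false (nat_lit 1) (nat_lit 142) (nat_lit 1) (nat_lit 13) (.e true (nat_lit 2) (nat_lit 144) (nat_lit 1) (nat_lit 13) (.e false (nat_lit 2) (nat_lit 145) (nat_lit 1) (nat_lit 13) (.e false (nat_lit 1) (nat_lit 149) (nat_lit 1) (nat_lit 13) (.e false (nat_lit 2) (nat_lit 140) (nat_lit 1) (nat_lit 13) (.e true (nat_lit 3) (nat_lit 134) (nat_lit 1) (nat_lit 13) (.e false (nat_lit 1) (nat_lit 135) (nat_lit 1) (nat_lit 13) (.e false (nat_lit 1) (nat_lit 170) (nat_lit 0) (nat_lit 14) (.e true (nat_lit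 1) (nat_lit 143) (nat_lit 1) (nat_lit 13) (.e true (nat_lit 2) (nat_lit 28) (nat_lit 13) (nat_lit 3) (.e true (nat_lit 1) (nat_lit 119) (nat_lit 2) (nat_lit 12) (.e true (nat_lit 3) (nat_lit 109) (nat_lit 2) (nat_lit 12) (.e true (nat_lit 2) (nat_lit 162) (nat_lit 0) (nat_lit 14) (.e true (nat_lit 3) (nat_lit 156) (nat_lit 0) (nat_lit 14) (.e true (nat_lit 1) (nat_lit 29) (nat_lit 13) (nat_lit 3) (.e false (nat_lit 3) (nat_lit 30) (nat_lit 13) (nat_lit 3) (.e true (nat_lit 3) (nat_lit 169) (nat_lit 0) (nat_lit 14) (.u (nat_lit 2) (.n (nat_lit 1) (nat_lit 1) (.n (nat_lit 3) (nat_lit 1) (.p (nat_lit 6) (nat_lit 1) (.n (nat_lit 9) (nat_lit 1) (.p (nat_lit 10) (nat_lit 1) (.n (nat_lit 15) (nat_lit 1) (.n (nat_lit 21) (nat_lit 1) (.n (nat_lit 22) (nat_lit 1) (.n (nat_lit 26) (nat_lit 1) (.n (nat_lit 31) (nat_lit 1) (.p (nat_lit 33) (nat_lit 1) (.p (nat_lit 45) (nat_lit 1) (.n (nat_lit 47)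 (nat_lit 1) (.p (nat_lit 50) (nat_lit 1) (.n (nat_lit 57) (nat_lit 1) (.p (nat_lit 59) (nat_lit 1) (.p (nat_lit 66) (nat_lit 1) (.n (nat_lit 67) (nat_lit 1) (.p (nat_lit 74) (nat_lit 1) (.p (nat_lit 75) (nat_lit 1) (.n (nat_lit 78) (nat_lit 2) (.p (nat_lit 79) (nat_lit 1) (.p (nat_lit 84) (nat_lit 1) (.p (nat_lit 90) (nat_lit 1) (.p (nat_lit 91) (nat_lit 1) (.p (nat_lit 93) (nat_lit 1) (.p (nat_lit 105) (nat_lit 1) (.p (nat_lit 108) (nat_lit 1) (.n (nat_lit 112) (nat_lit 1) (.n (nat_lit 114) (nat_lit 1) (.n (nat_lit 115) (nat_lit 1) (.n (nat_lit 118) (nat_lit 1) (.n (nat_lit 119) (nat_lit 1) (.p (nat_lit 120) (nat_lit 3) (.n (nat_lit 121) (nat_lit 1) (.p (nat_lit 122) (nat_lit 1) (.n (nat_lit 124) (nat_lit 3) (.n (nat_lit 125) (nat_lit 2) (.n (nat_lit 126) (nat_lit 3) (.p (nat_lit 127) (nat_lit 1) (.p (nat_lit 129) (nat_lit 1) (.n (nat_lit 130) (nat_lit 2) (.p (nat_lit 131) (nat_lit 1)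 (.n (nat_lit 132) (nat_lit 1) (.p (nat_lit 133) (nat_lit 1) (.p (nat_lit 135) (nat_lit 1) (.n (nat_lit 136) (nat_lit 1) (.p (nat_lit 137) (nat_lit 1) (.p (nat_lit 138) (nat_lit 1) (.n (nat_lit 141) (nat_lit 1) (.p (nat_lit 144) (nat_lit 1) (.p (nat_lit 146) (nat_lit 2) (.p (nat_lit 148) (nat_lit 5) (.n (nat_lit 149) (nat_lit 2) (.n (nat_lit 150) (nat_lit 2) (.p (nat_lit 152) (nat_lit 2) (.n (nat_lit 153) (nat_lit 2) (.p (nat_lit 155) (nat_lit 1) (.n (nat_lit 158) (nat_lit 1) (.n (nat_lit 161) (nat_lit 5) .z)))))))))))))))))))))))))))))))))))))))))))))))))))))))))))) (.u (nat_lit 2) (.n (nat_lit 162) (nat_lit 4) (.p (nat_lit 163) (nat_lit 3) (.n (nat_lit 164) (nat_lit 8) (.p (nat_lit 166) (nat_lit 9) (.p (nat_lit 167) (nat_lit 14) (.p (nat_lit 168) (nat_lit 4) (.n (nat_lit 169) (nat_lit 8) (.n (nat_lit 170) (nat_lit 3) (.p (nat_lit 171) (nat_lit 2) (.n (nat_lit 172) (nat_lit 7) (.p (nat_lit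 173) (nat_lit 10) (.p (nat_lit 174) (nat_lit 10) (.n (nat_lit 177) (nat_lit 4) (.p (nat_lit 178) (nat_lit 5) (.p (nat_lit 179) (nat_lit 5) (.n (nat_lit 180) (nat_lit 2) (.n (nat_lit 181) (nat_lit 7) (.p (nat_lit 182) (nat_lit 1) (.p (nat_lit 184) (nat_lit 3) (.n (nat_lit 185) (nat_lit 7) (.p (nat_lit 186) (nat_lit 6) (.p (nat_lit 187) (nat_lit 2) (.p (nat_lit 188) (nat_lit 5) (.n (nat_lit 189) (nat_lit 5) (.n (nat_lit 190) (nat_lit 5) (.p (nat_lit 191) (nat_lit 1) (.p (nat_lit 193) (nat_lit 2) (.n (nat_lit 194) (nat_lit 2) (.p (nat_lit 195) (nat_lit 3) (.p (nat_lit 196) (nat_lit 7) (.n (nat_lit 197) (nat_lit 2) (.p (nat_lit 198) (nat_lit 1) (.n (nat_lit 199) (nat_lit 7) (.n (nat_lit 200) (nat_lit 3) (.n (nat_lit 201) (nat_lit 2) (.n (nat_lit 202) (nat_lit 1) .z)))))))))))))))))))))))))))))))))))) .nil)))))))))))))))))))))))))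

noncomputable def dC1c_i98 : IL := (.s true (nat_lit 1) (nat_lit 41) (nat_lit 1) (nat_lit 0) (nat_lit 1) false (nat_lit 16) true (nat_lit 13) false (nat_lit 6) true (nat_lit 13) true (nat_lit 14) (.s true (nat_lit 3) (nat_lit 42) (nat_lit 1) (nat_lit 0) (nat_lit 1) false (nat_lit 16) true (nat_lit 13) false (nat_lit 6) true (nat_lit 13) true (nat_lit 14) (.s false (nat_lit 1) (nat_lit 40) (nat_lit 1) (nat_lit 1) (nat_lit 0) true (nat_lit 11) true (nat_lit 14) false (nat_lit 6) true (nat_lit 13) true (nat_lit 13) (.s true (nat_lit 3) (nat_lit 41) (nat_lit 1) (nat_lit 1) (nat_lit 0) true (nat_lit 11) true (nat_lit 14) false (nat_lit 6) true (nat_lit 13) true (nat_lit 13) (.s false (nat_lit 3) (nat_lit 42) (nat_lit 1) (nat_lit 1) (nat_lit 0) true (nat_lit 11) true (nat_lit 14) false (nat_lit 6) true (nat_lit 13) true (nat_lit 13) (.s true (nat_lit 1) (nat_lit 43) (nat_lit 0) (nat_lit 0)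 (nat_lit 1) true (nat_lit 11) true (nat_lit 13) false (nat_lit 7) true (nat_lit 14) true (nat_lit 14) (.s true (nat_lit 1) (nat_lit 44) (nat_lit 0) (nat_lit 0) (nat_lit 1) true (nat_lit 11) true (nat_lit 13) false (nat_lit 7) true (nat_lit 14) true (nat_lit 14) (.s true (nat_lit 2) (nat_lit 45) (nat_lit 0) (nat_lit 0) (nat_lit 1) true (nat_lit 11) true (nat_lit 13) false (nat_lit 7) true (nat_lit 14) true (nat_lit 14) (.s false (nat_lit 3) (nat_lit 44) (nat_lit 0) (nat_lit 1) (nat_lit 0) false (nat_lit 15) true (nat_lit 14) false (nat_lit 7) true (nat_lit 14) true (nat_lit 13) (.s true (nat_lit 3) (nat_lit 45) (nat_lit 0) (nat_lit 1) (nat_lit 0) false (nat_lit 15) true (nat_lit 14) false (nat_lit 7) true (nat_lit 14) true (nat_lit 13) (.s true (nat_lit 3) (nat_lit 43) (nat_lit 1) (nat_lit 0) (nat_lit 0) true (nat_lit 11) true (nat_lit 14) false (nat_lit 7) true (nat_lit 13) true (nat_lit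 14) (.e false (nat_lit 3) (nat_lit 73) (nat_lit 4) (nat_lit 10) (.e false (nat_lit 3) (nat_lit 59) (nat_lit 5) (nat_lit 9) (.e true (nat_lit 3) (nat_lit 60) (nat_lit 5) (nat_lit 9) (.e true (nat_lit 3) (nat_lit 61) (nat_lit 5) (nat_lit 9) (.e true (nat_lit 3) (nat_lit 157) (nat_lit 0) (nat_lit 14) (.e true (nat_lit 1) (nat_lit 167) (nat_lit 0) (nat_lit 14) (.e true (nat_lit 1) (nat_lit 155) (nat_lit 0) (nat_lit 14) (.e true (nat_lit 1) (nat_lit 158) (nat_lit 0) (nat_lit 14) (.e false (nat_lit 2) (nat_lit 163) (nat_lit 0) (nat_lit 14) (.e false (nat_lit 2) (nat_lit 165) (nat_lit 0) (nat_lit 14) (.e true (nat_lit 1) (nat_lit 168) (nat_lit 0) (nat_lit 14) (.e true (nat_lit 1) (nat_lit 172) (nat_lit 0) (nat_lit 14) (.e false (nat_lit 1) (nat_lit 153) (nat_lit 0) (nat_lit 14) (.e false (nat_lit 3) (nat_lit 159) (nat_lit 0) (nat_lit 14) dC1c_i97)))))))))))))))))))))))))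

noncomputable def dC1c_i99 : IL := (.s false (nat_lit 1) (nat_lit 15) (nat_lit 5) (nat_lit 1) (nat_lit 0) true (nat_lit 4) true (nat_lit 14) true (nat_lit 2) true (nat_lit 9) true (nat_lit 13) (.s false (nat_lit 1) (nat_lit 16) (nat_lit 0) (nat_lit 0) (nat_lit 5) true (nat_lit 4) true (nat_lit 9) true (nat_lit 1) true (nat_lit 14) true (nat_lit 14) (.s true (nat_lit 2) (nat_lit 16) (nat_lit 0) (nat_lit 4) (nat_lit 1) true (nat_lit 11) true (nat_lit 13) true (nat_lit 1) true (nat_lit 14) true (nat_lit 10) (.s true (nat_lit 1) (nat_lit 17) (nat_lit 0) (nat_lit 4) (nat_lit 1) true (nat_lit 11) true (nat_lit 13) true (nat_lit 1) true (nat_lit 14) true (nat_lit 10) (.s false (nat_lit 1) (nat_lit 16) (nat_lit 4) (nat_lit 0) (nat_lit 1) true (nat_lit 4) true (nat_lit 13) true (nat_lit 1) true (nat_lit 10) true (nat_lit 14) (.s true (nat_lit 1) (nat_lit 19) (nat_lit 2) (nat_lit 2) (nat_lit 2)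 true (nat_lit 8) true (nat_lit 12) false (nat_lit 0) true (nat_lit 12) true (nat_lit 12) (.s false (nat_lit 2) (nat_lit 20) (nat_lit 1) (nat_lit 2) (nat_lit 2) true (nat_lit 9) true (nat_lit 12) false (nat_lit 1) true (nat_lit 13) true (nat_lit 12) (.s false (nat_lit 2) (nat_lit 21) (nat_lit 1) (nat_lit 2) (nat_lit 2) true (nat_lit 9) true (nat_lit 12) false (nat_lit 1) true (nat_lit 13) true (nat_lit 12) (.s true (nat_lit 1) (nat_lit 20) (nat_lit 2) (nat_lit 1) (nat_lit 2) true (nat_lit 8) true (nat_lit 12) false (nat_lit 1) true (nat_lit 12) true (nat_lit 13) (.s true (nat_lit 1) (nat_lit 21) (nat_lit 2) (nat_lit 1) (nat_lit 2) true (nat_lit 8) true (nat_lit 12) false (nat_lit 1) true (nat_lit 12) true (nat_lit 13) (.s true (nat_lit 2) (nat_lit 24) (nat_lit 0) (nat_lit 2) (nat_lit 2) true (nat_lit 10) true (nat_lit 12) false (nat_lit 2) true (nat_lit 14) true (nat_lit 12) (.s false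 (nat_lit 1) (nat_lit 24) (nat_lit 2) (nat_lit 0) (nat_lit 2) true (nat_lit 8) true (nat_lit 12) false (nat_lit 2) true (nat_lit 12) true (nat_lit 14) (.s false (nat_lit 2) (nat_lit 24) (nat_lit 2) (nat_lit 2) (nat_lit 0) true (nat_lit 10) true (nat_lit 14) false (nat_lit 2) true (nat_lit 12) true (nat_lit 12) (.s true (nat_lit 2) (nat_lit 29) (nat_lit 1) (nat_lit 1) (nat_lit 2) true (nat_lit 9) true (nat_lit 12) false (nat_lit 3) true (nat_lit 13) true (nat_lit 13) (.s true (nat_lit 1) (nat_lit 30) (nat_lit 1) (nat_lit 1) (nat_lit 2) true (nat_lit 9) true (nat_lit 12) false (nat_lit 3) true (nat_lit 13) true (nat_lit 13) (.s false (nat_lit 3) (nat_lit 32) (nat_lit 0) (nat_lit 1) (nat_lit 2) true (nat_lit 10) true (nat_lit 12) false (nat_lit 4) true (nat_lit 14) true (nat_lit 13) (.s false (nat_lit 1) (nat_lit 31) (nat_lit 1) (nat_lit 2) (nat_lit 0) true (nat_lit 11) true (nat_lit 14)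 false (nat_lit 4) true (nat_lit 13) true (nat_lit 12) (.s false (nat_lit 1) (nat_lit 33) (nat_lit 1) (nat_lit 2) (nat_lit 0) true (nat_lit 11) true (nat_lit 14) false (nat_lit 4) true (nat_lit 13) true (nat_lit 12) (.s false (nat_lit 3) (nat_lit 35) (nat_lit 1) (nat_lit 2) (nat_lit 0) true (nat_lit 11) true (nat_lit 14) false (nat_lit 4) true (nat_lit 13) true (nat_lit 12) (.s false (nat_lit 1) (nat_lit 31) (nat_lit 2) (nat_lit 0) (nat_lit 1) true (nat_lit 9) true (nat_lit 13) false (nat_lit 4) true (nat_lit 12) true (nat_lit 14) (.s false (nat_lit 3) (nat_lit 35) (nat_lit 2) (nat_lit 0) (nat_lit 1) true (nat_lit 9) true (nat_lit 13) false (nat_lit 4) true (nat_lit 12) true (nat_lit 14) (.s false (nat_lit 1) (nat_lit 31) (nat_lit 2) (nat_lit 1) (nat_lit 0) true (nat_lit 10) true (nat_lit 14) false (nat_lit 4) true (nat_lit 12) true (nat_lit 13) (.s true (nat_lit 1) (nat_lit 38) (nat_lit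 2) (nat_lit 0) (nat_lit 0) true (nat_lit 10) true (nat_lit 14) false (nat_lit 5) true (nat_lit 12) true (nat_lit 14) (.s false (nat_lit 1) (nat_lit 39) (nat_lit 2) (nat_lit 0) (nat_lit 0) true (nat_lit 10) true (nat_lit 14) false (nat_lit 5) true (nat_lit 12) true (nat_lit 14) (.s false (nat_lit 2) (nat_lit 40) (nat_lit 0) (nat_lit 1) (nat_lit 1) true (nat_lit 11) true (nat_lit 13) false (nat_lit 6) true (nat_lit 14) true (nat_lit 13) dC1c_i98)))))))))))))))))))))))))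

noncomputable def dC1c_i100 : IL := (.s true (nat_lit 1) (nat_lit 12) (nat_lit 0) (nat_lit 1) (nat_lit 6) true (nat_lit 2) true (nat_lit 8) true (nat_lit 4) true (nat_lit 14) true (nat_lit 13) (.s false (nat_lit 1) (nat_lit 11) (nat_lit 0) (nat_lit 6) (nat_lit 1) true (nat_lit 11) true (nat_lit 13) true (nat_lit 4) true (nat_lit 14) true (nat_lit 8) (.s true (nat_lit 2) (nat_lit 12) (nat_lit 0) (nat_lit 6) (nat_lit 1) true (nat_lit 11) true (nat_lit 13) true (nat_lit 4) true (nat_lit 14) true (nat_lit 8) (.s false (nat_lit 2) (nat_lit 11) (nat_lit 1) (nat_lit 2) (nat_lit 4) true (nat_lit 4) true (nat_lit 10) true (nat_lit 4) true (nat_lit 13) true (nat_lit 12) (.s true (nat_lit 3) (nat_lit 11) (nat_lit 2) (nat_lit 1) (nat_lit 4) true (nat_lit 2) true (nat_lit 10) true (nat_lit 4) true (nat_lit 12) true (nat_lit 13) (.s true (nat_lit 3) (nat_lit 10) (nat_lit 4) (nat_lit 1) (nat_lit 2)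 true (nat_lit 2) true (nat_lit 12) true (nat_lit 4) true (nat_lit 10) true (nat_lit 13) (.s true (nat_lit 1) (nat_lit 12) (nat_lit 4) (nat_lit 1) (nat_lit 2) true (nat_lit 2) true (nat_lit 12) true (nat_lit 4) true (nat_lit 10) true (nat_lit 13) (.s true (nat_lit 3) (nat_lit 11) (nat_lit 4) (nat_lit 2) (nat_lit 1) true (nat_lit 4) true (nat_lit 13) true (nat_lit 4) true (nat_lit 10) true (nat_lit 12) (.s false (nat_lit 1) (nat_lit 13) (nat_lit 0) (nat_lit 2) (nat_lit 4) true (nat_lit 5) true (nat_lit 10) true (nat_lit 3) true (nat_lit 14) true (nat_lit 12) (.s false (nat_lit 1) (nat_lit 13) (nat_lit 2) (nat_lit 0) (nat_lit 4) true (nat_lit 2) true (nat_lit 10) true (nat_lit 3) true (nat_lit 12) true (nat_lit 14) (.s false (nat_lit 3) (nat_lit 13) (nat_lit 2) (nat_lit 4) (nat_lit 0) true (nat_lit 10) true (nat_lit 14) true (nat_lit 3) true (nat_lit 12) true (nat_lit 10) (.s true (nat_lit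 1) (nat_lit 13) (nat_lit 4) (nat_lit 0) (nat_lit 2) true (nat_lit 2) true (nat_lit 12) true (nat_lit 3) true (nat_lit 10) true (nat_lit 14) (.s true (nat_lit 3) (nat_lit 13) (nat_lit 6) (nat_lit 0) (nat_lit 0) true (nat_lit 2) true (nat_lit 14) true (nat_lit 3) true (nat_lit 8) true (nat_lit 14) (.s true (nat_lit 1) (nat_lit 14) (nat_lit 0) (nat_lit 1) (nat_lit 5) true (nat_lit 4) true (nat_lit 9) true (nat_lit 2) true (nat_lit 14) true (nat_lit 13) (.s false (nat_lit 3) (nat_lit 15) (nat_lit 0) (nat_lit 1) (nat_lit 5) true (nat_lit 4) true (nat_lit 9) true (nat_lit 2) true (nat_lit 14) true (nat_lit 13) (.s false (nat_lit 3) (nat_lit 15) (nat_lit 0) (nat_lit 5) (nat_lit 1) true (nat_lit 11) true (nat_lit 13) true (nat_lit 2) true (nat_lit 14) true (nat_lit 9) (.s true (nat_lit 1) (nat_lit 15) (nat_lit 1) (nat_lit 0) (nat_lit 5) true (nat_lit 3) true (nat_lit 9) true (nat_lit 2) true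 (nat_lit 13) true (nat_lit 14) (.s false (nat_lit 3) (nat_lit 14) (nat_lit 1) (nat_lit 1) (nat_lit 4) true (nat_lit 4) true (nat_lit 10) true (nat_lit 2) true (nat_lit 13) true (nat_lit 13) (.s false (nat_lit 2) (nat_lit 15) (nat_lit 1) (nat_lit 2) (nat_lit 3) true (nat_lit 6) true (nat_lit 11) true (nat_lit 2) true (nat_lit 13) true (nat_lit 12) (.s false (nat_lit 2) (nat_lit 14) (nat_lit 1) (nat_lit 3) (nat_lit 2) true (nat_lit 9) true (nat_lit 12) true (nat_lit 2) true (nat_lit 13) true (nat_lit 11) (.s true (nat_lit 3) (nat_lit 14) (nat_lit 1) (nat_lit 4) (nat_lit 1) false (nat_lit 16) true (nat_lit 13) true (nat_lit 2) true (nat_lit 13) true (nat_lit 10) (.s true (nat_lit 3) (nat_lit 14) (nat_lit 1) (nat_lit 5) (nat_lit 0) true (nat_lit 11) true (nat_lit 14) true (nat_lit 2) true (nat_lit 13) true (nat_lit 9) (.s false (nat_lit 2) (nat_lit 15) (nat_lit 1) (nat_lit 5) (nat_lit 0)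 true (nat_lit 11) true (nat_lit 14) true (nat_lit 2) true (nat_lit 13) true (nat_lit 9) (.s false (nat_lit 2) (nat_lit 15) (nat_lit 4) (nat_lit 1) (nat_lit 1) true (nat_lit 4) true (nat_lit 13) true (nat_lit 2) true (nat_lit 10) true (nat_lit 13) (.s true (nat_lit 3) (nat_lit 14) (nat_lit 5) (nat_lit 0) (nat_lit 1) true (nat_lit 3) true (nat_lit 13) true (nat_lit 2) true (nat_lit 9) true (nat_lit 14) dC1c_i99)))))))))))))))))))))))))

noncomputable def dC1c_i101 : IL := (.e false (nat_lit 2) (nat_lit 159) (nat_lit 0) (nat_lit 14) (.e true (nat_lit 1) (nat_lit 160) (nat_lit 0) (nat_lit 14) (.e true (nat_lit 3) (nat_lit 161) (nat_lit 0) (nat_lit 14) (.e false (nat_lit 1) (nat_lit 162) (nat_lit 0) (nat_lit 14) (.e true (nat_lit 1) (nat_lit 163) (nat_lit 0) (nat_lit 14) (.e true (nat_lit 1) (nat_lit 165) (nat_lit 0) (nat_lit 14) (.e true (nat_lit 1) (nat_lit 166) (nat_lit 0) (nat_lit 14)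 (.e false (nat_lit 2) (nat_lit 167) (nat_lit 0) (nat_lit 14) (.e true (nat_lit 3) (nat_lit 168) (nat_lit 0) (nat_lit 14) (.e true (nat_lit 2) (nat_lit 170) (nat_lit 0) (nat_lit 14) (.e true (nat_lit 1) (nat_lit 171) (nat_lit 0) (nat_lit 14) (.e true (nat_lit 2) (nat_lit 172) (nat_lit 0) (nat_lit 14) (.e true (nat_lit 2) (nat_lit 173) (nat_lit 0) (nat_lit 14) (.e false (nat_lit 1) (nat_lit 112) (nat_lit 2) (nat_lit 12) (.e true (nat_lit 1) (nat_lit 115) (nat_lit 2) (nat_lit 12) (.e false (nat_lit 1) (nat_lit 116) (nat_lit 2) (nat_lit 12) (.e true (nat_lit 2) (nat_lit 117) (nat_lit 2) (nat_lit 12) (.e true (nat_lit 3) (nat_lit 121) (nat_lit 2) (nat_lit 12) (.e false (nat_lit 1) (nat_lit 124) (nat_lit 2) (nat_lit 12) (.e false (nat_lit 3) (nat_lit 129) (nat_lit 2) (nat_lit 12) (.e false (nat_lit 1) (nat_lit 107) (nat_lit 2) (nat_lit 12) (.e true (nat_lit 1) (nat_lit 114) (nat_lit 2) (nat_lit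 12) (.e true (nat_lit 1) (nat_lit 123) (nat_lit 2) (nat_lit 12) (.e false (nat_lit 3) (nat_lit 126) (nat_lit 2) (nat_lit 12) (.u (nat_lit 2) (.p (nat_lit 0) (nat_lit 1) (.p (nat_lit 1) (nat_lit 1) (.n (nat_lit 2) (nat_lit 1) (.p (nat_lit 3) (nat_lit 1) (.p (nat_lit 6) (nat_lit 2) (.n (nat_lit 7) (nat_lit 1) (.n (nat_lit 8) (nat_lit 4) (.n (nat_lit 9) (nat_lit 1) (.n (nat_lit 10) (nat_lit 2) (.n (nat_lit 12) (nat_lit 1) (.n (nat_lit 13) (nat_lit 2) (.n (nat_lit 14) (nat_lit 1) (.p (nat_lit 15) (nat_lit 2) (.n (nat_lit 16) (nat_lit 1) (.n (nat_lit 18) (nat_lit 1) (.p (nat_lit 19) (nat_lit 4) (.p (nat_lit 20) (nat_lit 1) (.p (nat_lit 21) (nat_lit 3) (.n (nat_lit 22) (nat_lit 3) (.p (nat_lit 23) (nat_lit 1) (.n (nat_lit 25) (nat_lit 4) (.n (nat_lit 26) (nat_lit 4) (.p (nat_lit 27) (nat_lit 2) (.n (nat_lit 29) (nat_lit 1) (.p (nat_lit 30) (nat_lit 2) (.p (nat_lit 31) (nat_lit 3) (.p (nat_lit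 33) (nat_lit 1) (.p (nat_lit 35) (nat_lit 3) (.p (nat_lit 36) (nat_lit 1) (.p (nat_lit 37) (nat_lit 1) (.n (nat_lit 38) (nat_lit 1) (.p (nat_lit 39) (nat_lit 1) (.p (nat_lit 40) (nat_lit 1) (.n (nat_lit 46) (nat_lit 1) (.p (nat_lit 47) (nat_lit 1) (.n (nat_lit 136) (nat_lit 1) (.n (nat_lit 141) (nat_lit 1) (.n (nat_lit 143) (nat_lit 2) (.p (nat_lit 144) (nat_lit 1) (.n (nat_lit 145) (nat_lit 1) (.p (nat_lit 146) (nat_lit 2) (.p (nat_lit 147) (nat_lit 1) (.p (nat_lit 150) (nat_lit 3) (.p (nat_lit 152) (nat_lit 1) (.n (nat_lit 153) (nat_lit 4) (.n (nat_lit 182) (nat_lit 1) (.n (nat_lit 184) (nat_lit 1) (.p (nat_lit 186) (nat_lit 1) (.p (nat_lit 187) (nat_lit 1) (.p (nat_lit 188) (nat_lit 1) (.p (nat_lit 189) (nat_lit 1) (.n (nat_lit 191) (nat_lit 1) (.p (nat_lit 192) (nat_lit 1) (.p (nat_lit 194) (nat_lit 1) (.p (nat_lit 195) (nat_lit 1) (.p (nat_lit 196) (nat_lit 1) (.n (nat_lit 199) (nat_lit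 1) (.p (nat_lit 200) (nat_lit 1) (.n (nat_lit 201) (nat_lit 1) (.n (nat_lit 202) (nat_lit 1) .z)))))))))))))))))))))))))))))))))))))))))))))))))))))))))))) .nil)))))))))))))))))))))))))

noncomputable def dC1c_i102 : IL := (.e true (nat_lit 3) (nat_lit 262) (nat_lit 1) (nat_lit 18) (.e true (nat_lit 3) (nat_lit 263) (nat_lit 1) (nat_lit 18) (.e true (nat_lit 1) (nat_lit 264) (nat_lit 1) (nat_lit 18) (.e true (nat_lit 3) (nat_lit 265) (nat_lit 1) (nat_lit 18) (.e true (nat_lit 2) (nat_lit 266) (nat_lit 1) (nat_lit 18) (.e true (nat_lit 1) (nat_lit 267) (nat_lit 1) (nat_lit 18) (.e false (nat_lit 1) (nat_lit 270) (nat_lit 1) (nat_lit 18) (.e false (nat_lit 2) (nat_lit 271) (nat_lit 1) (nat_lit 18) (.e true (nat_lit 3) (nat_lit 272) (nat_lit 1) (nat_lit 18) (.e false (nat_lit 2) (nat_lit 273) (nat_lit 1) (nat_lit 18) (.e true (nat_lit 2) (nat_lit 274) (nat_lit 1) (nat_lit 18) (.e false (nat_lit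 1) (nat_lit 277) (nat_lit 1) (nat_lit 18) (.e false (nat_lit 2) (nat_lit 278) (nat_lit 1) (nat_lit 18) (.e false (nat_lit 1) (nat_lit 279) (nat_lit 1) (nat_lit 18) (.e true (nat_lit 1) (nat_lit 280) (nat_lit 1) (nat_lit 18) (.e false (nat_lit 1) (nat_lit 288) (nat_lit 1) (nat_lit 18) (.e false (nat_lit 2) (nat_lit 213) (nat_lit 2) (nat_lit 17) (.e false (nat_lit 2) (nat_lit 218) (nat_lit 2) (nat_lit 17) (.e true (nat_lit 2) (nat_lit 219) (nat_lit 2) (nat_lit 17) (.e true (nat_lit 1) (nat_lit 223) (nat_lit 2) (nat_lit 17) (.e false (nat_lit 3) (nat_lit 233) (nat_lit 2) (nat_lit 17) (.e false (nat_lit 2) (nat_lit 234) (nat_lit 2) (nat_lit 17) (.e true (nat_lit 2) (nat_lit 235) (nat_lit 2) (nat_lit 17) (.e true (nat_lit 1) (nat_lit 240) (nat_lit 2) (nat_lit 17) (.u (nat_lit 2) (.n (nat_lit 0) (nat_lit 1) (.p (nat_lit 1) (nat_lit 1) (.n (nat_lit 3) (nat_lit 2) (.n (nat_lit 4) (nat_lit 2)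 (.p (nat_lit 5) (nat_lit 2) (.p (nat_lit 6) (nat_lit 5) (.n (nat_lit 7) (nat_lit 3) (.n (nat_lit 8) (nat_lit 1) (.p (nat_lit 9) (nat_lit 1) (.n (nat_lit 10) (nat_lit 1) (.p (nat_lit 11) (nat_lit 3) (.n (nat_lit 12) (nat_lit 3) (.n (nat_lit 14) (nat_lit 2) (.p (nat_lit 15) (nat_lit 3) (.p (nat_lit 17) (nat_lit 1) (.p (nat_lit 18) (nat_lit 3) (.n (nat_lit 19) (nat_lit 5) (.p (nat_lit 26) (nat_lit 1) (.p (nat_lit 27) (nat_lit 1) (.p (nat_lit 28) (nat_lit 3) (.p (nat_lit 29) (nat_lit 3) (.p (nat_lit 30) (nat_lit 2) (.n (nat_lit 31) (nat_lit 2) (.p (nat_lit 32) (nat_lit 2) (.n (nat_lit 33) (nat_lit 3) (.p (nat_lit 34) (nat_lit 3) (.p (nat_lit 35) (nat_lit 2) (.p (nat_lit 36) (nat_lit 1) (.p (nat_lit 37) (nat_lit 5) (.n (nat_lit 38) (nat_lit 1) (.p (nat_lit 39) (nat_lit 2) (.n (nat_lit 40) (nat_lit 1) (.p (nat_lit 41) (nat_lit 1) (.n (nat_lit 46) (nat_lit 1) (.p (nat_lit 48) (nat_lit 1) (.n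 (nat_lit 49) (nat_lit 1) (.p (nat_lit 53) (nat_lit 2) (.n (nat_lit 54) (nat_lit 1) (.p (nat_lit 55) (nat_lit 2) (.p (nat_lit 56) (nat_lit 1) (.n (nat_lit 57) (nat_lit 1) (.p (nat_lit 59) (nat_lit 1) (.n (nat_lit 60) (nat_lit 1) (.p (nat_lit 62) (nat_lit 1) (.p (nat_lit 68) (nat_lit 1) (.p (nat_lit 70) (nat_lit 2) (.p (nat_lit 327) (nat_lit 1) (.n (nat_lit 330) (nat_lit 1) (.n (nat_lit 336) (nat_lit 1) (.p (nat_lit 339) (nat_lit 1) (.n (nat_lit 343) (nat_lit 1) (.n (nat_lit 345) (nat_lit 1) (.n (nat_lit 346) (nat_lit 1) (.n (nat_lit 351) (nat_lit 1) (.n (nat_lit 353) (nat_lit 1) (.p (nat_lit 356) (nat_lit 1) (.n (nat_lit 364) (nat_lit 1) (.n (nat_lit 366) (nat_lit 1) (.p (nat_lit 373) (nat_lit 1) .z))))))))))))))))))))))))))))))))))))))))))))))))))))))))))) .nil)))))))))))))))))))))))))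

noncomputable def dC1c_i103 : IL := (.e false (nat_lit 3) (nat_lit 221) (nat_lit 2) (nat_lit 17) (.e true (nat_lit 2) (nat_lit 222) (nat_lit 2) (nat_lit 17) (.e true (nat_lit 1) (nat_lit 224) (nat_lit 2) (nat_lit 17) (.e true (nat_lit 2) (nat_lit 227) (nat_lit 2) (nat_lit 17) (.e false (nat_lit 1) (nat_lit 228) (nat_lit 2) (nat_lit 17) (.e false (nat_lit 1) (nat_lit 229) (nat_lit 2) (nat_lit 17) (.e false (nat_lit 3) (nat_lit 230) (nat_lit 2) (nat_lit 17) (.e false (nat_lit 2) (nat_lit 231) (nat_lit 2) (nat_lit 17) (.e true (nat_lit 2) (nat_lit 232) (nat_lit 2) (nat_lit 17) (.e false (nat_lit 3) (nat_lit 236) (nat_lit 2) (nat_lit 17) (.e true (nat_lit 2) (nat_lit 237) (nat_lit 2) (nat_lit 17) (.e false (nat_lit 2) (nat_lit 238) (nat_lit 2) (nat_lit 17) (.e true (nat_lit 3) (nat_lit 239) (nat_lit 2) (nat_lit 17) (.e true (nat_lit 3) (nat_lit 241) (nat_lit 2) (nat_lit 17) (.e false (nat_lit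 2) (nat_lit 242) (nat_lit 2) (nat_lit 17) (.e true (nat_lit 2) (nat_lit 244) (nat_lit 2) (nat_lit 17) (.e true (nat_lit 2) (nat_lit 245) (nat_lit 2) (nat_lit 17) (.e false (nat_lit 2) (nat_lit 246) (nat_lit 2) (nat_lit 17) (.e true (nat_lit 2) (nat_lit 247) (nat_lit 2) (nat_lit 17) (.e false (nat_lit 1) (nat_lit 249) (nat_lit 2) (nat_lit 17) (.e false (nat_lit 1) (nat_lit 251) (nat_lit 2) (nat_lit 17) (.e true (nat_lit 2) (nat_lit 252) (nat_lit 2) (nat_lit 17) (.e true (nat_lit 1) (nat_lit 258) (nat_lit 2) (nat_lit 17) (.e true (nat_lit 1) (nat_lit 260) (nat_lit 1) (nat_lit 18) (.e true (nat_lit 1) (nat_lit 261) (nat_lit 1) (nat_lit 18) dC1c_i102)))))))))))))))))))))))))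

noncomputable def dC1c_i104 : IL := (.e true (nat_lit 1) (nat_lit 164) (nat_lit 0) (nat_lit 14) (.e true (nat_lit 1) (nat_lit 165) (nat_lit 0) (nat_lit 14) (.e false (nat_lit 1) (nat_lit 168) (nat_lit 0) (nat_lit 14) (.e false (nat_lit 1) (nat_lit 29) (nat_lit 13) (nat_lit 3) (.e true (nat_lit 1) (nat_lit 147) (nat_lit 1) (nat_lit 13) (.e true (nat_lit 1) (nat_lit 148) (nat_lit 1) (nat_lit 13) (.e false (nat_lit 2) (nat_lit 166) (nat_lit 0) (nat_lit 14) (.e true (nat_lit 3) (nat_lit 30) (nat_lit 13) (nat_lit 3) (.e true (nat_lit 2) (nat_lit 111) (nat_lit 2) (nat_lit 12) (.e true (nat_lit 3) (nat_lit 109) (nat_lit 2) (nat_lit 12) (.e true (nat_lit 2) (nat_lit 115) (nat_lit 2) (nat_lit 12) (.e true (nat_lit 1) (nat_lit 119) (nat_lit 2) (nat_lit 12) (.e false (nat_lit 2) (nat_lit 120) (nat_lit 2) (nat_lit 12) (.e false (nat_lit 2) (nat_lit 124) (nat_lit 2) (nat_lit 12) (.e false (nat_lit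 3) (nat_lit 107) (nat_lit 2) (nat_lit 12) (.e false (nat_lit 1) (nat_lit 108) (nat_lit 2) (nat_lit 12) (.e true (nat_lit 2) (nat_lit 110) (nat_lit 2) (nat_lit 12) (.e false (nat_lit 1) (nat_lit 112) (nat_lit 2) (nat_lit 12) (.e true (nat_lit 1) (nat_lit 114) (nat_lit 2) (nat_lit 12) (.e true (nat_lit 2) (nat_lit 116) (nat_lit 2) (nat_lit 12) (.e true (nat_lit 2) (nat_lit 125) (nat_lit 2) (nat_lit 12) (.e false (nat_lit 1) (nat_lit 126) (nat_lit 2) (nat_lit 12) (.e true (nat_lit 2) (nat_lit 129) (nat_lit 2) (nat_lit 12) (.u (nat_lit 2) (.n (nat_lit 0) (nat_lit 1) (.n (nat_lit 1) (nat_lit 4) (.n (nat_lit 2) (nat_lit 1) (.n (nat_lit 3) (nat_lit 4) (.p (nat_lit 4) (nat_lit 5) (.n (nat_lit 5) (nat_lit 6) (.n (nat_lit 6) (nat_lit 2) (.n (nat_lit 7) (nat_lit 2) (.n (nat_lit 8) (nat_lit 1) (.p (nat_lit 10) (nat_lit 6) (.p (nat_lit 11) (nat_lit 1) (.p (nat_lit 12) (nat_lit 4) (.p (nat_lit 13)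 (nat_lit 1) (.p (nat_lit 14) (nat_lit 3) (.n (nat_lit 15) (nat_lit 1) (.p (nat_lit 16) (nat_lit 1) (.p (nat_lit 17) (nat_lit 5) (.p (nat_lit 19) (nat_lit 4) (.p (nat_lit 20) (nat_lit 3) (.p (nat_lit 21) (nat_lit 3) (.n (nat_lit 22) (nat_lit 1) (.n (nat_lit 24) (nat_lit 3) (.p (nat_lit 25) (nat_lit 2) (.n (nat_lit 26) (nat_lit 9) (.p (nat_lit 27) (nat_lit 3) (.n (nat_lit 28) (nat_lit 4) (.n (nat_lit 29) (nat_lit 4) (.n (nat_lit 31) (nat_lit 1) (.p (nat_lit 32) (nat_lit 4) (.n (nat_lit 33) (nat_lit 1) (.n (nat_lit 34) (nat_lit 1) (.p (nat_lit 35) (nat_lit 2) (.n (nat_lit 36) (nat_lit 1) (.n (nat_lit 39) (nat_lit 1) (.n (nat_lit 44) (nat_lit 2) (.p (nat_lit 45) (nat_lit 1) (.p (nat_lit 103) (nat_lit 1) (.n (nat_lit 104) (nat_lit 1) (.n (nat_lit 105) (nat_lit 1) (.p (nat_lit 106) (nat_lit 1) (.n (nat_lit 109) (nat_lit 1) (.n (nat_lit 113) (nat_lit 1) (.p (nat_lit 125) (nat_lit 1) (.p (nat_lit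 126) (nat_lit 1) (.n (nat_lit 129) (nat_lit 1) (.p (nat_lit 130) (nat_lit 1) (.n (nat_lit 136) (nat_lit 1) (.n (nat_lit 137) (nat_lit 1) (.n (nat_lit 140) (nat_lit 1) (.n (nat_lit 141) (nat_lit 1) (.n (nat_lit 143) (nat_lit 1) (.p (nat_lit 144) (nat_lit 1) (.p (nat_lit 145) (nat_lit 1) (.n (nat_lit 147) (nat_lit 1) (.p (nat_lit 148) (nat_lit 1) (.p (nat_lit 152) (nat_lit 1) (.n (nat_lit 153) (nat_lit 1) (.n (nat_lit 155) (nat_lit 1) (.p (nat_lit 159) (nat_lit 1) (.n (nat_lit 161) (nat_lit 2) .z)))))))))))))))))))))))))))))))))))))))))))))))))))))))))))) (.u (nat_lit 2) (.p (nat_lit 162) (nat_lit 1) (.n (nat_lit 163) (nat_lit 7) (.n (nat_lit 164) (nat_lit 4) (.n (nat_lit 165) (nat_lit 1) (.n (nat_lit 166) (nat_lit 5) (.n (nat_lit 167) (nat_lit 3) (.n (nat_lit 168) (nat_lit 4) (.p (nat_lit 169) (nat_lit 3) (.p (nat_lit 170) (nat_lit 1) (.p (nat_lit 171) (nat_lit 9) (.n (nat_lit 172) (nat_lit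 1) (.n (nat_lit 173) (nat_lit 1) (.n (nat_lit 174) (nat_lit 1) (.n (nat_lit 175) (nat_lit 1) (.p (nat_lit 176) (nat_lit 1) (.n (nat_lit 177) (nat_lit 1) (.n (nat_lit 178) (nat_lit 5) (.n (nat_lit 179) (nat_lit 7) (.p (nat_lit 180) (nat_lit 1) (.p (nat_lit 181) (nat_lit 4) (.p (nat_lit 182) (nat_lit 2) (.n (nat_lit 183) (nat_lit 1) (.p (nat_lit 184) (nat_lit 2) (.n (nat_lit 185) (nat_lit 1) (.n (nat_lit 186) (nat_lit 1) (.n (nat_lit 187) (nat_lit 3) (.n (nat_lit 189) (nat_lit 1) (.p (nat_lit 190) (nat_lit 1) (.p (nat_lit 191) (nat_lit 2) (.p (nat_lit 192) (nat_lit 2) (.p (nat_lit 193) (nat_lit 1) (.n (nat_lit 194) (nat_lit 2) (.n (nat_lit 195) (nat_lit 1) (.n (nat_lit 196) (nat_lit 2) (.p (nat_lit 197) (nat_lit 1) (.p (nat_lit 198) (nat_lit 1) (.p (nat_lit 199) (nat_lit 2) (.n (nat_lit 200) (nat_lit 1) (.p (nat_lit 201) (nat_lit 3) (.p (nat_lit 202) (nat_lit 1) .z))))))))))))))))))))))))))))))))))))))))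 .nil)))))))))))))))))))))))))

noncomputable def dC1c_i105 : IL := (.e false (nat_lit 3) (nat_lit 146) (nat_lit 1) (nat_lit 13) (.e false (nat_lit 1) (nat_lit 151) (nat_lit 1) (nat_lit 13) (.e false (nat_lit 2) (nat_lit 152) (nat_lit 1) (nat_lit 13) (.e true (nat_lit 3) (nat_lit 153) (nat_lit 0) (nat_lit 14) (.e true (nat_lit 1) (nat_lit 154) (nat_lit 0) (nat_lit 14) (.e false (nat_lit 3) (nat_lit 155) (nat_lit 0) (nat_lit 14) (.e true (nat_lit 2) (nat_lit 156) (nat_lit 0) (nat_lit 14) (.e true (nat_lit 2) (nat_lit 157) (nat_lit 0) (nat_lit 14) (.e true (nat_lit 2) (nat_lit 158) (nat_lit 0) (nat_lit 14) (.e false (nat_lit 1) (nat_lit 159) (nat_lit 0) (nat_lit 14) (.e true (nat_lit 2) (nat_lit 160) (nat_lit 0) (nat_lit 14) (.e true (nat_lit 1) (nat_lit 162) (nat_lit 0) (nat_lit 14) (.e true (nat_lit 2) (nat_lit 163) (nat_lit 0) (nat_lit 14) (.e false (nat_lit 2) (nat_lit 167) (nat_lit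 0) (nat_lit 14) (.e true (nat_lit 2) (nat_lit 169) (nat_lit 0) (nat_lit 14) (.e true (nat_lit 1) (nat_lit 170) (nat_lit 0) (nat_lit 14) (.e true (nat_lit 3) (nat_lit 171) (nat_lit 0) (nat_lit 14) (.e false (nat_lit 2) (nat_lit 172) (nat_lit 0) (nat_lit 14) (.e true (nat_lit 1) (nat_lit 173) (nat_lit 0) (nat_lit 14) (.e false (nat_lit 3) (nat_lit 84) (nat_lit 3) (nat_lit 11) (.e false (nat_lit 3) (nat_lit 85) (nat_lit 3) (nat_lit 11) (.e false (nat_lit 3) (nat_lit 88) (nat_lit 3) (nat_lit 11) (.e true (nat_lit 3) (nat_lit 91) (nat_lit 3) (nat_lit 11) (.e false (nat_lit 3) (nat_lit 149) (nat_lit 1) (nat_lit 13) (.e false (nat_lit 2) (nat_lit 161) (nat_lit 0) (nat_lit 14) dC1c_i104)))))))))))))))))))))))))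

noncomputable def dC1c_i106 : IL := (.s false (nat_lit 2) (nat_lit 32) (nat_lit 1) (nat_lit 2) (nat_lit 0) true (nat_lit 11) true (nat_lit 14) false (nat_lit 4) true (nat_lit 13) true (nat_lit 12) (.s false (nat_lit 1) (nat_lit 36) (nat_lit 1) (nat_lit 2) (nat_lit 0) true (nat_lit 11) true (nat_lit 14) false (nat_lit 4) true (nat_lit 13) true (nat_lit 12) (.s false (nat_lit 2) (nat_lit 32) (nat_lit 2) (nat_lit 1) (nat_lit 0) true (nat_lit 10) true (nat_lit 14) false (nat_lit 4) true (nat_lit 12) true (nat_lit 13) (.e true (nat_lit 1) (nat_lit 55) (nat_lit 5) (nat_lit 9) (.e false (nat_lit 1) (nat_lit 59) (nat_lit 5) (nat_lit 9) (.e true (nat_lit 2) (nat_lit 61) (nat_lit 5) (nat_lit 9) (.e false (nat_lit 1) (nat_lit 65) (nat_lit 5) (nat_lit 9) (.e true (nat_lit 3) (nat_lit 130) (nat_lit 2) (nat_lit 12) (.e true (nat_lit 1) (nat_lit 37) (nat_lit 9) (nat_lit 5) (.e true (nat_lit 1) (nat_lit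 132) (nat_lit 1) (nat_lit 13) (.e false (nat_lit 1) (nat_lit 134) (nat_lit 1) (nat_lit 13) (.e false (nat_lit 1) (nat_lit 137) (nat_lit 1) (nat_lit 13) (.e false (nat_lit 2) (nat_lit 138) (nat_lit 1) (nat_lit 13) (.e false (nat_lit 1) (nat_lit 140) (nat_lit 1) (nat_lit 13) (.e true (nat_lit 3) (nat_lit 141) (nat_lit 1) (nat_lit 13) (.e false (nat_lit 1) (nat_lit 142) (nat_lit 1) (nat_lit 13) (.e false (nat_lit 2) (nat_lit 143) (nat_lit 1) (nat_lit 13) (.e false (nat_lit 3) (nat_lit 150) (nat_lit 1) (nat_lit 13) (.e true (nat_lit 2) (nat_lit 83) (nat_lit 3) (nat_lit 11) (.e true (nat_lit 2) (nat_lit 89) (nat_lit 3) (nat_lit 11) (.e true (nat_lit 1) (nat_lit 92) (nat_lit 3) (nat_lit 11) (.e false (nat_lit 3) (nat_lit 133) (nat_lit 1) (nat_lit 13) (.e true (nat_lit 3) (nat_lit 135) (nat_lit 1) (nat_lit 13) (.e true (nat_lit 2) (nat_lit 144) (nat_lit 1) (nat_lit 13) (.e false (nat_lit 2)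 (nat_lit 145) (nat_lit 1) (nat_lit 13) dC1c_i105)))))))))))))))))))))))))

noncomputable def dC1c_i107 : IL := (.e false (nat_lit 3) (nat_lit 300) (nat_lit 0) (nat_lit 19) (.e true (nat_lit 3) (nat_lit 302) (nat_lit 0) (nat_lit 19) (.e true (nat_lit 2) (nat_lit 304) (nat_lit 0) (nat_lit 19) (.e true (nat_lit 2) (nat_lit 305) (nat_lit 0) (nat_lit 19) (.e true (nat_lit 1) (nat_lit 308) (nat_lit 0) (nat_lit 19) (.e false (nat_lit 2) (nat_lit 310) (nat_lit 0) (nat_lit 19) (.e true (nat_lit 2) (nat_lit 313) (nat_lit 0) (nat_lit 19) (.e false (nat_lit 2) (nat_lit 319) (nat_lit 0) (nat_lit 19) (.e true (nat_lit 3) (nat_lit 282) (nat_lit 1) (nat_lit 18) (.e false (nat_lit 1) (nat_lit 283) (nat_lit 1) (nat_lit 18) (.e true (nat_lit 2) (nat_lit 292) (nat_lit 0) (nat_lit 19) (.e true (nat_lit 3) (nat_lit 298) (nat_lit 0) (nat_lit 19) (.e false (nat_lit 2) (nat_lit 301) (nat_lit 0) (nat_lit 19) (.e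 false (nat_lit 1) (nat_lit 317) (nat_lit 0) (nat_lit 19) (.e false (nat_lit 3) (nat_lit 314) (nat_lit 0) (nat_lit 19) (.e false (nat_lit 3) (nat_lit 315) (nat_lit 0) (nat_lit 19) (.e false (nat_lit 1) (nat_lit 309) (nat_lit 0) (nat_lit 19) (.e false (nat_lit 1) (nat_lit 251) (nat_lit 2) (nat_lit 17) (.e true (nat_lit 2) (nat_lit 252) (nat_lit 2) (nat_lit 17) (.e false (nat_lit 1) (nat_lit 258) (nat_lit 2) (nat_lit 17) (.e false (nat_lit 2) (nat_lit 259) (nat_lit 2) (nat_lit 17) (.e false (nat_lit 1) (nat_lit 144) (nat_lit 5) (nat_lit 14) (.u (nat_lit 2) (.n (nat_lit 1) (nat_lit 5) (.p (nat_lit 2) (nat_lit 1) (.p (nat_lit 3) (nat_lit 5) (.n (nat_lit 4) (nat_lit 2) (.n (nat_lit 5) (nat_lit 2) (.n (nat_lit 8) (nat_lit 4) (.n (nat_lit 9) (nat_lit 1) (.p (nat_lit 10) (nat_lit 3) (.n (nat_lit 12) (nat_lit 2) (.n (nat_lit 14) (nat_lit 2) (.n (nat_lit 15) (nat_lit 1) (.n (nat_lit 17) (nat_lit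 1) (.p (nat_lit 19) (nat_lit 1) (.n (nat_lit 20) (nat_lit 2) (.n (nat_lit 23) (nat_lit 1) (.n (nat_lit 24) (nat_lit 1) (.n (nat_lit 25) (nat_lit 1) (.n (nat_lit 26) (nat_lit 2) (.n (nat_lit 28) (nat_lit 2) (.n (nat_lit 29) (nat_lit 2) (.n (nat_lit 30) (nat_lit 4) (.p (nat_lit 31) (nat_lit 5) (.n (nat_lit 32) (nat_lit 2) (.p (nat_lit 33) (nat_lit 1) (.n (nat_lit 34) (nat_lit 8) (.n (nat_lit 35) (nat_lit 4) (.p (nat_lit 36) (nat_lit 4) (.n (nat_lit 37) (nat_lit 2) (.n (nat_lit 38) (nat_lit 1) (.p (nat_lit 39) (nat_lit 6) (.n (nat_lit 40) (nat_lit 1) (.n (nat_lit 41) (nat_lit 7) (.p (nat_lit 45) (nat_lit 1) (.n (nat_lit 46) (nat_lit 1) (.p (nat_lit 48) (nat_lit 1) (.n (nat_lit 49) (nat_lit 4) (.n (nat_lit 50) (nat_lit 1) (.p (nat_lit 52) (nat_lit 2) (.n (nat_lit 53) (nat_lit 1) (.n (nat_lit 54) (nat_lit 2) (.p (nat_lit 55) (nat_lit 2) (.p (nat_lit 57) (nat_lit 2) (.n (nat_lit 58) (nat_lit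 1) (.p (nat_lit 60) (nat_lit 1) (.n (nat_lit 61) (nat_lit 1) (.p (nat_lit 63) (nat_lit 1) (.n (nat_lit 67) (nat_lit 1) (.p (nat_lit 70) (nat_lit 1) (.p (nat_lit 92) (nat_lit 1) (.n (nat_lit 99) (nat_lit 1) (.p (nat_lit 117) (nat_lit 1) (.p (nat_lit 118) (nat_lit 1) (.p (nat_lit 146) (nat_lit 1) (.n (nat_lit 150) (nat_lit 1) (.n (nat_lit 151) (nat_lit 1) (.p (nat_lit 152) (nat_lit 1) (.n (nat_lit 159) (nat_lit 1) (.n (nat_lit 238) (nat_lit 1) (.n (nat_lit 241) (nat_lit 1) (.n (nat_lit 242) (nat_lit 1) .z)))))))))))))))))))))))))))))))))))))))))))))))))))))))))))) (.u (nat_lit 2) (.p (nat_lit 243) (nat_lit 1) (.n (nat_lit 244) (nat_lit 1) (.n (nat_lit 245) (nat_lit 1) (.n (nat_lit 249) (nat_lit 1) (.n (nat_lit 251) (nat_lit 2) (.n (nat_lit 253) (nat_lit 1) (.p (nat_lit 254) (nat_lit 2) (.p (nat_lit 255) (nat_lit 1) (.p (nat_lit 258) (nat_lit 3) (.p (nat_lit 260) (nat_lit 1) (.n (nat_lit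 261) (nat_lit 4) (.p (nat_lit 263) (nat_lit 1) (.p (nat_lit 266) (nat_lit 1) (.p (nat_lit 327) (nat_lit 6) (.n (nat_lit 328) (nat_lit 4) (.p (nat_lit 329) (nat_lit 9) (.n (nat_lit 330) (nat_lit 9) (.n (nat_lit 331) (nat_lit 3) (.n (nat_lit 332) (nat_lit 12) (.n (nat_lit 333) (nat_lit 5) (.n (nat_lit 334) (nat_lit 6) (.n (nat_lit 335) (nat_lit 1) (.p (nat_lit 336) (nat_lit 6) (.n (nat_lit 337) (nat_lit 6) (.n (nat_lit 338) (nat_lit 11) (.n (nat_lit 339) (nat_lit 2) (.p (nat_lit 340) (nat_lit 9) (.p (nat_lit 341) (nat_lit 5) (.n (nat_lit 342) (nat_lit 7) (.n (nat_lit 344) (nat_lit 11) (.p (nat_lit 345) (nat_lit 6) (.p (nat_lit 346) (nat_lit 2) (.p (nat_lit 347) (nat_lit 7) (.n (nat_lit 348) (nat_lit 10) (.p (nat_lit 349) (nat_lit 4) (.n (nat_lit 350) (nat_lit 4) (.p (nat_lit 351) (nat_lit 5) (.p (nat_lit 352) (nat_lit 9) (.n (nat_lit 353) (nat_lit 7) (.p (nat_lit 354) (nat_lit 10) (.n (nat_lit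 355) (nat_lit 5) (.n (nat_lit 356) (nat_lit 3) (.n (nat_lit 358) (nat_lit 2) (.n (nat_lit 359) (nat_lit 6) (.n (nat_lit 360) (nat_lit 6) (.n (nat_lit 361) (nat_lit 15) (.p (nat_lit 362) (nat_lit 11) (.n (nat_lit 363) (nat_lit 6) (.n (nat_lit 364) (nat_lit 6) (.p (nat_lit 365) (nat_lit 7) (.p (nat_lit 366) (nat_lit 8) (.n (nat_lit 367) (nat_lit 4) (.p (nat_lit 368) (nat_lit 5) (.n (nat_lit 373) (nat_lit 1) (.p (nat_lit 374) (nat_lit 1) (.p (nat_lit 375) (nat_lit 7) (.p (nat_lit 376) (nat_lit 1) (.n (nat_lit 378) (nat_lit 5) (.n (nat_lit 379) (nat_lit 1) (.n (nat_lit 380) (nat_lit 7) .z)))))))))))))))))))))))))))))))))))))))))))))))))))))))))))) (.u (nat_lit 2) (.n (nat_lit 381) (nat_lit 17) (.n (nat_lit 382) (nat_lit 1) (.n (nat_lit 383) (nat_lit 2) (.p (nat_lit 384) (nat_lit 8) (.p (nat_lit 385) (nat_lit 7) (.p (nat_lit 386) (nat_lit 5) (.p (nat_lit 387) (nat_lit 2) (.n (nat_lit 388)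 (nat_lit 4) (.n (nat_lit 389) (nat_lit 10) (.p (nat_lit 392) (nat_lit 13) (.n (nat_lit 393) (nat_lit 1) (.p (nat_lit 394) (nat_lit 10) (.p (nat_lit 395) (nat_lit 3) (.p (nat_lit 396) (nat_lit 4) (.n (nat_lit 397) (nat_lit 6) (.p (nat_lit 398) (nat_lit 7) (.n (nat_lit 399) (nat_lit 3) (.n (nat_lit 400) (nat_lit 5) (.n (nat_lit 401) (nat_lit 1) (.n (nat_lit 402) (nat_lit 11) (.p (nat_lit 403) (nat_lit 1) (.p (nat_lit 404) (nat_lit 5) (.n (nat_lit 405) (nat_lit 4) (.p (nat_lit 406) (nat_lit 3) (.n (nat_lit 407) (nat_lit 12) (.p (nat_lit 408) (nat_lit 1) (.n (nat_lit 409) (nat_lit 18) (.n (nat_lit 410) (nat_lit 1) (.n (nat_lit 411) (nat_lit 7) (.p (nat_lit 412) (nat_lit 11) (.p (nat_lit 413) (nat_lit 10) (.p (nat_lit 414) (nat_lit 3) (.n (nat_lit 415) (nat_lit 2) (.n (nat_lit 416) (nat_lit 9) (.p (nat_lit 417) (nat_lit 3) (.n (nat_lit 419) (nat_lit 8) (.n (nat_lit 420) (nat_lit 8) (.n (nat_lit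 422) (nat_lit 5) (.p (nat_lit 423) (nat_lit 4) (.n (nat_lit 424) (nat_lit 1) (.n (nat_lit 425) (nat_lit 5) (.n (nat_lit 426) (nat_lit 7) (.n (nat_lit 427) (nat_lit 3) (.p (nat_lit 428) (nat_lit 2) (.n (nat_lit 429) (nat_lit 3) (.n (nat_lit 430) (nat_lit 3) (.p (nat_lit 431) (nat_lit 7) (.p (nat_lit 432) (nat_lit 12) (.p (nat_lit 433) (nat_lit 1) (.p (nat_lit 434) (nat_lit 3) .z)))))))))))))))))))))))))))))))))))))))))))))))))) .nil)))))))))))))))))))))))))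

noncomputable def dC1c_i108 : IL := (.e false (nat_lit 3) (nat_lit 264) (nat_lit 1) (nat_lit 18) (.e false (nat_lit 3) (nat_lit 266) (nat_lit 1) (nat_lit 18) (.e true (nat_lit 3) (nat_lit 267) (nat_lit 1) (nat_lit 18) (.e true (nat_lit 2) (nat_lit 270) (nat_lit 1) (nat_lit 18) (.e false (nat_lit 2) (nat_lit 272) (nat_lit 1) (nat_lit 18) (.e false (nat_lit 1) (nat_lit 273) (nat_lit 1) (nat_lit 18) (.e true (nat_lit 3) (nat_lit 274) (nat_lit 1) (nat_lit 18) (.e false (nat_lit 3) (nat_lit 280) (nat_lit 1) (nat_lit 18) (.e true (nat_lit 1) (nat_lit 285) (nat_lit 1) (nat_lit 18) (.e true (nat_lit 3) (nat_lit 286) (nat_lit 1) (nat_lit 18) (.e false (nat_lit 2) (nat_lit 260) (nat_lit 1) (nat_lit 18) (.e false (nat_lit 2) (nat_lit 269) (nat_lit 1) (nat_lit 18) (.e false (nat_lit 2) (nat_lit 271) (nat_lit 1) (nat_lit 18) (.e false (nat_lit 1) (nat_lit 278) (nat_lit 1) (nat_lit 18) (.e true (nat_lit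 3) (nat_lit 279) (nat_lit 1) (nat_lit 18) (.e false (nat_lit 2) (nat_lit 288) (nat_lit 1) (nat_lit 18) (.e false (nat_lit 2) (nat_lit 234) (nat_lit 2) (nat_lit 17) (.e true (nat_lit 1) (nat_lit 290) (nat_lit 0) (nat_lit 19) (.e false (nat_lit 1) (nat_lit 291) (nat_lit 0) (nat_lit 19) (.e true (nat_lit 2) (nat_lit 293) (nat_lit 0) (nat_lit 19) (.e false (nat_lit 1) (nat_lit 294) (nat_lit 0) (nat_lit 19) (.e false (nat_lit 2) (nat_lit 295) (nat_lit 0) (nat_lit 19) (.e true (nat_lit 3) (nat_lit 296) (nat_lit 0) (nat_lit 19) (.e true (nat_lit 1) (nat_lit 297) (nat_lit 0) (nat_lit 19) (.e false (nat_lit 1) (nat_lit 299) (nat_lit 0) (nat_lit 19) dC1c_i107)))))))))))))))))))))))))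

noncomputable def dC1c_i109 : IL := (.e true (nat_lit 3) (nat_lit 218) (nat_lit 2) (nat_lit 17) (.e false (nat_lit 3) (nat_lit 221) (nat_lit 2) (nat_lit 17) (.e false (nat_lit 3) (nat_lit 222) (nat_lit 2) (nat_lit 17) (.e false (nat_lit 3) (nat_lit 224) (nat_lit 2) (nat_lit 17) (.e false (nat_lit 1) (nat_lit 226) (nat_lit 2) (nat_lit 17) (.e false (nat_lit 3) (nat_lit 227) (nat_lit 2) (nat_lit 17) (.e false (nat_lit 1) (nat_lit 228) (nat_lit 2) (nat_lit 17) (.e true (nat_lit 2) (nat_lit 229) (nat_lit 2) (nat_lit 17) (.e true (nat_lit 2) (nat_lit 230) (nat_lit 2) (nat_lit 17) (.e true (nat_lit 3) (nat_lit 231) (nat_lit 2) (nat_lit 17) (.e true (nat_lit 1) (nat_lit 233) (nat_lit 2) (nat_lit 17) (.e false (nat_lit 1) (nat_lit 235) (nat_lit 2) (nat_lit 17) (.e false (nat_lit 2) (nat_lit 239) (nat_lit 2) (nat_lit 17) (.e false (nat_lit 2) (nat_lit 242) (nat_lit 2) (nat_lit 17) (.e true (nat_lit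 1) (nat_lit 244) (nat_lit 2) (nat_lit 17) (.e true (nat_lit 2) (nat_lit 245) (nat_lit 2) (nat_lit 17) (.e false (nat_lit 2) (nat_lit 246) (nat_lit 2) (nat_lit 17) (.e true (nat_lit 2) (nat_lit 247) (nat_lit 2) (nat_lit 17) (.e true (nat_lit 3) (nat_lit 277) (nat_lit 1) (nat_lit 18) (.e true (nat_lit 2) (nat_lit 212) (nat_lit 2) (nat_lit 17) (.e false (nat_lit 3) (nat_lit 219) (nat_lit 2) (nat_lit 17) (.e false (nat_lit 2) (nat_lit 232) (nat_lit 2) (nat_lit 17) (.e true (nat_lit 2) (nat_lit 249) (nat_lit 2) (nat_lit 17) (.e true (nat_lit 2) (nat_lit 261) (nat_lit 1) (nat_lit 18) (.e false (nat_lit 2) (nat_lit 262) (nat_lit 1) (nat_lit 18) dC1c_i108)))))))))))))))))))))))))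

noncomputable def dC1c_i110 : IL := (.s true (nat_lit 2) (nat_lit 57) (nat_lit 2) (nat_lit 1) (nat_lit 2) true (nat_lit 13) true (nat_lit 17) false (nat_lit 6) true (nat_lit 17) true (nat_lit 18) (.s true (nat_lit 1) (nat_lit 58) (nat_lit 2) (nat_lit 1) (nat_lit 2) true (nat_lit 13) true (nat_lit 17) false (nat_lit 6) true (nat_lit 17) true (nat_lit 18) (.s true (nat_lit 3) (nat_lit 61) (nat_lit 2) (nat_lit 1) (nat_lit 2) true (nat_lit 13) true (nat_lit 17) false (nat_lit 6) true (nat_lit 17) true (nat_lit 18) (.s false (nat_lit 3) (nat_lit 64) (nat_lit 2) (nat_lit 1) (nat_lit 2) true (nat_lit 13) true (nat_lit 17) false (nat_lit 6) true (nat_lit 17) true (nat_lit 18) (.s true (nat_lit 1) (nat_lit 65) (nat_lit 2) (nat_lit 1) (nat_lit 2) true (nat_lit 13) true (nat_lit 17) false (nat_lit 6) true (nat_lit 17) true (nat_lit 18) (.s false (nat_lit 2) (nat_lit 55) (nat_lit 2) (nat_lit 2)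 (nat_lit 1) true (nat_lit 14) true (nat_lit 18) false (nat_lit 6) true (nat_lit 17) true (nat_lit 17) (.s false (nat_lit 3) (nat_lit 64) (nat_lit 2) (nat_lit 2) (nat_lit 1) true (nat_lit 14) true (nat_lit 18) false (nat_lit 6) true (nat_lit 17) true (nat_lit 17) (.s true (nat_lit 3) (nat_lit 72) (nat_lit 0) (nat_lit 2) (nat_lit 2) true (nat_lit 15) true (nat_lit 17) false (nat_lit 7) true (nat_lit 19) true (nat_lit 17) (.s true (nat_lit 3) (nat_lit 74) (nat_lit 0) (nat_lit 2) (nat_lit 2) true (nat_lit 15) true (nat_lit 17) false (nat_lit 7) true (nat_lit 19) true (nat_lit 17) (.s true (nat_lit 3) (nat_lit 74) (nat_lit 2) (nat_lit 0) (nat_lit 2) true (nat_lit 13) true (nat_lit 17) false (nat_lit 7) true (nat_lit 17) true (nat_lit 19) (.s true (nat_lit 2) (nat_lit 66) (nat_lit 2) (nat_lit 2) (nat_lit 0) true (nat_lit 15) true (nat_lit 19) false (nat_lit 7) true (nat_lit 17) true (nat_lit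 17) (.s false (nat_lit 3) (nat_lit 72) (nat_lit 2) (nat_lit 2) (nat_lit 0) true (nat_lit 15) true (nat_lit 19) false (nat_lit 7) true (nat_lit 17) true (nat_lit 17) (.s false (nat_lit 2) (nat_lit 74) (nat_lit 2) (nat_lit 2) (nat_lit 0) true (nat_lit 15) true (nat_lit 19) false (nat_lit 7) true (nat_lit 17) true (nat_lit 17) (.s false (nat_lit 1) (nat_lit 78) (nat_lit 1) (nat_lit 1) (nat_lit 2) true (nat_lit 14) true (nat_lit 17) false (nat_lit 8) true (nat_lit 18) true (nat_lit 18) (.s true (nat_lit 2) (nat_lit 98) (nat_lit 0) (nat_lit 1) (nat_lit 1) true (nat_lit 16) true (nat_lit 18) false (nat_lit 11) true (nat_lit 19) true (nat_lit 18) (.s false (nat_lit 3) (nat_lit 100) (nat_lit 1) (nat_lit 0) (nat_lit 1) false (nat_lit 21) true (nat_lit 18) false (nat_lit 11) true (nat_lit 18) true (nat_lit 19) (.s false (nat_lit 2) (nat_lit 101) (nat_lit 1) (nat_lit 0) (nat_lit 1) false (nat_lit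 21) true (nat_lit 18) false (nat_lit 11) true (nat_lit 18) true (nat_lit 19) (.s true (nat_lit 2) (nat_lit 98) (nat_lit 1) (nat_lit 1) (nat_lit 0) true (nat_lit 16) true (nat_lit 19) false (nat_lit 11) true (nat_lit 18) true (nat_lit 18) (.s true (nat_lit 2) (nat_lit 102) (nat_lit 0) (nat_lit 1) (nat_lit 0) false (nat_lit 20) true (nat_lit 19) false (nat_lit 12) true (nat_lit 19) true (nat_lit 18) (.s false (nat_lit 3) (nat_lit 103) (nat_lit 0) (nat_lit 1) (nat_lit 0) false (nat_lit 20) true (nat_lit 19) false (nat_lit 12) true (nat_lit 19) true (nat_lit 18) (.s false (nat_lit 1) (nat_lit 105) (nat_lit 0) (nat_lit 1) (nat_lit 0) false (nat_lit 20) true (nat_lit 19) false (nat_lit 12) true (nat_lit 19) true (nat_lit 18) (.a true (nat_lit 2) (nat_lit 34) (nat_lit 34) (nat_lit 0) (nat_lit 0) (.a false (nat_lit 2) (nat_lit 35) (nat_lit 35) (nat_lit 0) (nat_lit 0) (.e true (nat_lit 1) (nat_lit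 214) (nat_lit 2) (nat_lit 17) (.e false (nat_lit 3) (nat_lit 217) (nat_lit 2) (nat_lit 17) dC1c_i109)))))))))))))))))))))))))

noncomputable def dC1c_i111 : IL := (.s false (nat_lit 3) (nat_lit 16) (nat_lit 0) (nat_lit 1) (nat_lit 15) true (nat_lit 1) true (nat_lit 7) true (nat_lit 6) true (nat_lit 19) true (nat_lit 18) (.s false (nat_lit 2) (nat_lit 16) (nat_lit 2) (nat_lit 2) (nat_lit 7) true (nat_lit 3) true (nat_lit 12) true (nat_lit 6) true (nat_lit 17) true (nat_lit 17) (.s false (nat_lit 3) (nat_lit 16) (nat_lit 15) (nat_lit 1) (nat_lit 0) true (nat_lit 1) true (nat_lit 19) true (nat_lit 6) true (nat_lit 7) true (nat_lit 18) (.s true (nat_lit 3) (nat_lit 18) (nat_lit 0) (nat_lit 2) (nat_lit 8) true (nat_lit 4) true (nat_lit 11) true (nat_lit 5) true (nat_lit 19) true (nat_lit 17) (.s false (nat_lit 1) (nat_lit 18) (nat_lit 1) (nat_lit 2) (nat_lit 7) true (nat_lit 4) true (nat_lit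 12) true (nat_lit 5) true (nat_lit 18) true (nat_lit 17) (.s false (nat_lit 2) (nat_lit 18) (nat_lit 1) (nat_lit 7) (nat_lit 2) true (nat_lit 14) true (nat_lit 17) true (nat_lit 5) true (nat_lit 18) true (nat_lit 12) (.s false (nat_lit 1) (nat_lit 18) (nat_lit 2) (nat_lit 8) (nat_lit 0) true (nat_lit 15) true (nat_lit 19) true (nat_lit 5) true (nat_lit 17) true (nat_lit 11) (.s false (nat_lit 2) (nat_lit 18) (nat_lit 7) (nat_lit 1) (nat_lit 2) true (nat_lit 3) true (nat_lit 17) true (nat_lit 5) true (nat_lit 12) true (nat_lit 18) (.s true (nat_lit 2) (nat_lit 18) (nat_lit 8) (nat_lit 2) (nat_lit 0) true (nat_lit 4) true (nat_lit 19) true (nat_lit 5) true (nat_lit 11) true (nat_lit 17) (.s true (nat_lit 2) (nat_lit 20) (nat_lit 5) (nat_lit 2) (nat_lit 2) true (nat_lit 6) true (nat_lit 17) true (nat_lit 3) true (nat_lit 14) true (nat_lit 17) (.s true (nat_lit 2) (nat_lit 20) (nat_lit 6)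 (nat_lit 2) (nat_lit 1) true (nat_lit 6) true (nat_lit 18) true (nat_lit 3) true (nat_lit 13) true (nat_lit 17) (.s false (nat_lit 2) (nat_lit 24) (nat_lit 0) (nat_lit 2) (nat_lit 6) true (nat_lit 7) true (nat_lit 13) true (nat_lit 2) true (nat_lit 19) true (nat_lit 17) (.s false (nat_lit 1) (nat_lit 24) (nat_lit 0) (nat_lit 6) (nat_lit 2) true (nat_lit 15) true (nat_lit 17) true (nat_lit 2) true (nat_lit 19) true (nat_lit 13) (.s false (nat_lit 2) (nat_lit 24) (nat_lit 2) (nat_lit 2) (nat_lit 4) true (nat_lit 7) true (nat_lit 15) true (nat_lit 2) true (nat_lit 17) true (nat_lit 17) (.s false (nat_lit 2) (nat_lit 24) (nat_lit 2) (nat_lit 6) (nat_lit 0) true (nat_lit 15) true (nat_lit 19) true (nat_lit 2) true (nat_lit 17) true (nat_lit 13) (.s true (nat_lit 2) (nat_lit 24) (nat_lit 4) (nat_lit 2) (nat_lit 2) true (nat_lit 7) true (nat_lit 17) true (nat_lit 2) true (nat_lit 15) true (nat_lit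 17) (.s true (nat_lit 1) (nat_lit 24) (nat_lit 6) (nat_lit 2) (nat_lit 0) true (nat_lit 7) true (nat_lit 19) true (nat_lit 2) true (nat_lit 13) true (nat_lit 17) (.s false (nat_lit 3) (nat_lit 35) (nat_lit 0) (nat_lit 1) (nat_lit 6) true (nat_lit 7) true (nat_lit 13) true (nat_lit 0) true (nat_lit 19) true (nat_lit 18) (.s false (nat_lit 3) (nat_lit 35) (nat_lit 1) (nat_lit 0) (nat_lit 6) true (nat_lit 6) true (nat_lit 13) true (nat_lit 0) true (nat_lit 18) true (nat_lit 19) (.s true (nat_lit 3) (nat_lit 48) (nat_lit 2) (nat_lit 2) (nat_lit 2) true (nat_lit 13) true (nat_lit 17) false (nat_lit 5) true (nat_lit 17) true (nat_lit 17) (.s true (nat_lit 1) (nat_lit 52) (nat_lit 2) (nat_lit 2) (nat_lit 2) true (nat_lit 13) true (nat_lit 17) false (nat_lit 5) true (nat_lit 17) true (nat_lit 17) (.s true (nat_lit 2) (nat_lit 55) (nat_lit 1) (nat_lit 2) (nat_lit 2) true (nat_lit 14) true (nat_lit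 17) false (nat_lit 6) true (nat_lit 18) true (nat_lit 17) (.s true (nat_lit 3) (nat_lit 64) (nat_lit 1) (nat_lit 2) (nat_lit 2) true (nat_lit 14) true (nat_lit 17) false (nat_lit 6) true (nat_lit 18) true (nat_lit 17) (.s false (nat_lit 2) (nat_lit 55) (nat_lit 2) (nat_lit 1) (nat_lit 2) true (nat_lit 13) true (nat_lit 17) false (nat_lit 6) true (nat_lit 17) true (nat_lit 18) (.s false (nat_lit 1) (nat_lit 56) (nat_lit 2) (nat_lit 1) (nat_lit 2) true (nat_lit 13) true (nat_lit 17) false (nat_lit 6) true (nat_lit 17) true (nat_lit 18) dC1c_i110)))))))))))))))))))))))))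

noncomputable def dC1c_i112 : IL := (.e false (nat_lit 1) (nat_lit 111) (nat_lit 2) (nat_lit 12) (.e true (nat_lit 2) (nat_lit 116) (nat_lit 2) (nat_lit 12) (.e true (nat_lit 1) (nat_lit 119) (nat_lit 2) (nat_lit 12) (.e false (nat_lit 1) (nat_lit 73) (nat_lit 4) (nat_lit 10) (.e false (nat_lit 1) (nat_lit 28) (nat_lit 13) (nat_lit 3) (.e false (nat_lit 1) (nat_lit 29) (nat_lit 13) (nat_lit 3) (.e true (nat_lit 3) (nat_lit 30) (nat_lit 13) (nat_lit 3) (.e true (nat_lit 3) (nat_lit 159) (nat_lit 0) (nat_lit 14) (.e false (nat_lit 3) (nat_lit 153) (nat_lit 0) (nat_lit 14) (.e false (nat_lit 2) (nat_lit 154) (nat_lit 0) (nat_lit 14) (.e true (nat_lit 2) (nat_lit 156) (nat_lit 0) (nat_lit 14) (.e false (nat_lit 3) (nat_lit 157) (nat_lit 0) (nat_lit 14) (.e true (nat_lit 1) (nat_lit 160) (nat_lit 0) (nat_lit 14) (.e true (nat_lit 3) (nat_lit 162) (nat_lit 0) (nat_lit 14) (.e false (nat_lit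 2) (nat_lit 164) (nat_lit 0) (nat_lit 14) (.e false (nat_lit 1) (nat_lit 169) (nat_lit 0) (nat_lit 14) (.e false (nat_lit 2) (nat_lit 170) (nat_lit 0) (nat_lit 14) (.e true (nat_lit 1) (nat_lit 173) (nat_lit 0) (nat_lit 14) (.e false (nat_lit 3) (nat_lit 37) (nat_lit 9) (nat_lit 5) (.e true (nat_lit 2) (nat_lit 167) (nat_lit 0) (nat_lit 14) (.e true (nat_lit 3) (nat_lit 147) (nat_lit 1) (nat_lit 13) (.e true (nat_lit 2) (nat_lit 166) (nat_lit 0) (nat_lit 14) (.e false (nat_lit 2) (nat_lit 110) (nat_lit 2) (nat_lit 12) (.u (nat_lit 2) (.p (nat_lit 0) (nat_lit 2) (.p (nat_lit 2) (nat_lit 1) (.n (nat_lit 3) (nat_lit 1) (.p (nat_lit 4) (nat_lit 1) (.p (nat_lit 6) (nat_lit 1) (.p (nat_lit 7) (nat_lit 1) (.p (nat_lit 8) (nat_lit 1) (.n (nat_lit 9) (nat_lit 1) (.p (nat_lit 10) (nat_lit 1) (.n (nat_lit 11) (nat_lit 1) (.n (nat_lit 12) (nat_lit 1) (.n (nat_lit 15) (nat_lit 1) (.p (nat_lit 16)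 (nat_lit 2) (.p (nat_lit 18) (nat_lit 1) (.p (nat_lit 20) (nat_lit 2) (.n (nat_lit 21) (nat_lit 1) (.n (nat_lit 22) (nat_lit 1) (.p (nat_lit 23) (nat_lit 2) (.p (nat_lit 24) (nat_lit 1) (.p (nat_lit 25) (nat_lit 1) (.p (nat_lit 26) (nat_lit 1) (.n (nat_lit 27) (nat_lit 1) (.p (nat_lit 28) (nat_lit 1) (.n (nat_lit 31) (nat_lit 1) (.p (nat_lit 32) (nat_lit 2) (.p (nat_lit 33) (nat_lit 1) (.n (nat_lit 36) (nat_lit 1) (.p (nat_lit 39) (nat_lit 2) (.n (nat_lit 44) (nat_lit 2) (.p (nat_lit 45) (nat_lit 1) (.p (nat_lit 46) (nat_lit 1) (.p (nat_lit 59) (nat_lit 1) (.p (nat_lit 61) (nat_lit 1) (.p (nat_lit 66) (nat_lit 1) (.n (nat_lit 91) (nat_lit 1) (.n (nat_lit 107) (nat_lit 1) (.p (nat_lit 113) (nat_lit 1) (.n (nat_lit 119) (nat_lit 1) (.p (nat_lit 120) (nat_lit 1) (.p (nat_lit 125) (nat_lit 1) (.p (nat_lit 127) (nat_lit 2) (.n (nat_lit 128) (nat_lit 1) (.n (nat_lit 129) (nat_lit 1) (.p (nat_lit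 130) (nat_lit 3) (.p (nat_lit 131) (nat_lit 1) (.p (nat_lit 133) (nat_lit 1) (.n (nat_lit 135) (nat_lit 1) (.p (nat_lit 136) (nat_lit 2) (.p (nat_lit 137) (nat_lit 2) (.n (nat_lit 138) (nat_lit 1) (.n (nat_lit 139) (nat_lit 1) (.n (nat_lit 140) (nat_lit 3) (.n (nat_lit 141) (nat_lit 1) (.p (nat_lit 143) (nat_lit 8) (.n (nat_lit 144) (nat_lit 1) (.p (nat_lit 145) (nat_lit 3) (.n (nat_lit 146) (nat_lit 4) (.n (nat_lit 147) (nat_lit 6) (.n (nat_lit 148) (nat_lit 3) (.p (nat_lit 149) (nat_lit 2) .z)))))))))))))))))))))))))))))))))))))))))))))))))))))))))))) (.u (nat_lit 2) (.n (nat_lit 150) (nat_lit 6) (.n (nat_lit 152) (nat_lit 1) (.p (nat_lit 153) (nat_lit 9) (.p (nat_lit 154) (nat_lit 2) (.n (nat_lit 155) (nat_lit 3) (.p (nat_lit 156) (nat_lit 1) (.p (nat_lit 157) (nat_lit 2) (.n (nat_lit 158) (nat_lit 1) (.n (nat_lit 159) (nat_lit 2) (.n (nat_lit 161) (nat_lit 4) (.p (nat_lit 162) (nat_lit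 5) (.n (nat_lit 163) (nat_lit 14) (.n (nat_lit 164) (nat_lit 11) (.p (nat_lit 165) (nat_lit 3) (.n (nat_lit 166) (nat_lit 6) (.p (nat_lit 167) (nat_lit 2) (.n (nat_lit 168) (nat_lit 16) (.p (nat_lit 169) (nat_lit 11) (.p (nat_lit 170) (nat_lit 8) (.p (nat_lit 171) (nat_lit 21) (.n (nat_lit 172) (nat_lit 1) (.n (nat_lit 173) (nat_lit 3) (.n (nat_lit 175) (nat_lit 1) (.n (nat_lit 177) (nat_lit 1) (.n (nat_lit 178) (nat_lit 7) (.n (nat_lit 179) (nat_lit 9) (.p (nat_lit 180) (nat_lit 1) (.p (nat_lit 181) (nat_lit 6) (.n (nat_lit 182) (nat_lit 6) (.n (nat_lit 183) (nat_lit 11) (.p (nat_lit 184) (nat_lit 6) (.n (nat_lit 185) (nat_lit 1) (.n (nat_lit 186) (nat_lit 12) (.n (nat_lit 187) (nat_lit 7) (.n (nat_lit 188) (nat_lit 1) (.n (nat_lit 189) (nat_lit 2) (.p (nat_lit 190) (nat_lit 5) (.n (nat_lit 192) (nat_lit 2) (.p (nat_lit 193) (nat_lit 1) (.n (nat_lit 194) (nat_lit 5) (.n (nat_lit 195)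 (nat_lit 1) (.n (nat_lit 196) (nat_lit 2) (.p (nat_lit 197) (nat_lit 2) (.p (nat_lit 199) (nat_lit 10) (.n (nat_lit 200) (nat_lit 11) (.p (nat_lit 201) (nat_lit 7) (.p (nat_lit 202) (nat_lit 3) .z))))))))))))))))))))))))))))))))))))))))))))))) .nil)))))))))))))))))))))))))

noncomputable def dC1c_i113 : IL := (.e false (nat_lit 3) (nat_lit 139) (nat_lit 1) (nat_lit 13) (.e true (nat_lit 2) (nat_lit 141) (nat_lit 1) (nat_lit 13) (.e true (nat_lit 3) (nat_lit 142) (nat_lit 1) (nat_lit 13) (.e false (nat_lit 1) (nat_lit 144) (nat_lit 1) (nat_lit 13) (.e false (nat_lit 3) (nat_lit 145) (nat_lit 1) (nat_lit 13) (.e true (nat_lit 1) (nat_lit 149) (nat_lit 1) (nat_lit 13) (.e true (nat_lit 2) (nat_lit 134) (nat_lit 1) (nat_lit 13) (.e false (nat_lit 1) (nat_lit 135) (nat_lit 1) (nat_lit 13) (.e true (nat_lit 1) (nat_lit 152) (nat_lit 1) (nat_lit 13) (.e false (nat_lit 3) (nat_lit 59) (nat_lit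 5) (nat_lit 9) (.e false (nat_lit 1) (nat_lit 61) (nat_lit 5) (nat_lit 9) (.e false (nat_lit 1) (nat_lit 112) (nat_lit 2) (nat_lit 12) (.e true (nat_lit 1) (nat_lit 114) (nat_lit 2) (nat_lit 12) (.e true (nat_lit 3) (nat_lit 108) (nat_lit 2) (nat_lit 12) (.e false (nat_lit 1) (nat_lit 107) (nat_lit 2) (nat_lit 12) (.e false (nat_lit 2) (nat_lit 143) (nat_lit 1) (nat_lit 13) (.e false (nat_lit 2) (nat_lit 56) (nat_lit 5) (nat_lit 9) (.e true (nat_lit 3) (nat_lit 158) (nat_lit 0) (nat_lit 14) (.e true (nat_lit 1) (nat_lit 163) (nat_lit 0) (nat_lit 14) (.e true (nat_lit 3) (nat_lit 165) (nat_lit 0) (nat_lit 14) (.e false (nat_lit 1) (nat_lit 172) (nat_lit 0) (nat_lit 14) (.e false (nat_lit 3) (nat_lit 148) (nat_lit 1) (nat_lit 13) (.e false (nat_lit 1) (nat_lit 155) (nat_lit 0) (nat_lit 14) (.e true (nat_lit 1) (nat_lit 168) (nat_lit 0) (nat_lit 14) (.e false (nat_lit 1) (nat_lit 109) (nat_lit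 2) (nat_lit 12) dC1c_i112)))))))))))))))))))))))))

noncomputable def dC1c_i114 : IL := (.s false (nat_lit 3) (nat_lit 27) (nat_lit 0) (nat_lit 2) (nat_lit 2) true (nat_lit 10) true (nat_lit 12) false (nat_lit 2) true (nat_lit 14) true (nat_lit 12) (.s true (nat_lit 3) (nat_lit 24) (nat_lit 2) (nat_lit 2) (nat_lit 0) true (nat_lit 10) true (nat_lit 14) false (nat_lit 2) true (nat_lit 12) true (nat_lit 12) (.s true (nat_lit 3) (nat_lit 25) (nat_lit 2) (nat_lit 2) (nat_lit 0) true (nat_lit 10) true (nat_lit 14) false (nat_lit 2) true (nat_lit 12) true (nat_lit 12) (.s false (nat_lit 2) (nat_lit 30) (nat_lit 1) (nat_lit 1) (nat_lit 2) true (nat_lit 9) true (nat_lit 12) false (nat_lit 3) true (nat_lit 13) true (nat_lit 13) (.s false (nat_lit 3) (nat_lit 35) (nat_lit 0) (nat_lit 2) (nat_lit 1) true (nat_lit 11) true (nat_lit 13) false (nat_lit 4) true (nat_lit 14) true (nat_lit 12) (.s true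 (nat_lit 3) (nat_lit 35) (nat_lit 1) (nat_lit 2) (nat_lit 0) true (nat_lit 11) true (nat_lit 14) false (nat_lit 4) true (nat_lit 13) true (nat_lit 12) (.s false (nat_lit 1) (nat_lit 36) (nat_lit 2) (nat_lit 0) (nat_lit 1) true (nat_lit 9) true (nat_lit 13) false (nat_lit 4) true (nat_lit 12) true (nat_lit 14) (.s false (nat_lit 1) (nat_lit 32) (nat_lit 2) (nat_lit 1) (nat_lit 0) true (nat_lit 10) true (nat_lit 14) false (nat_lit 4) true (nat_lit 12) true (nat_lit 13) (.s true (nat_lit 3) (nat_lit 35) (nat_lit 2) (nat_lit 1) (nat_lit 0) true (nat_lit 10) true (nat_lit 14) false (nat_lit 4) true (nat_lit 12) true (nat_lit 13) (.s false (nat_lit 2) (nat_lit 37) (nat_lit 0) (nat_lit 0) (nat_lit 2) true (nat_lit 10) true (nat_lit 12) false (nat_lit 5) true (nat_lit 14) true (nat_lit 14) (.s false (nat_lit 2) (nat_lit 39) (nat_lit 0) (nat_lit 2) (nat_lit 0) false (nat_lit 15) true (nat_lit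 14) false (nat_lit 5) true (nat_lit 14) true (nat_lit 12) (.s false (nat_lit 3) (nat_lit 40) (nat_lit 0) (nat_lit 1) (nat_lit 1) true (nat_lit 11) true (nat_lit 13) false (nat_lit 6) true (nat_lit 14) true (nat_lit 13) (.s true (nat_lit 3) (nat_lit 41) (nat_lit 1) (nat_lit 0) (nat_lit 1) false (nat_lit 16) true (nat_lit 13) false (nat_lit 6) true (nat_lit 13) true (nat_lit 14) (.s false (nat_lit 1) (nat_lit 42) (nat_lit 1) (nat_lit 0) (nat_lit 1) false (nat_lit 16) true (nat_lit 13) false (nat_lit 6) true (nat_lit 13) true (nat_lit 14) (.s true (nat_lit 3) (nat_lit 40) (nat_lit 1) (nat_lit 1) (nat_lit 0) true (nat_lit 11) true (nat_lit 14) false (nat_lit 6) true (nat_lit 13) true (nat_lit 13) (.s false (nat_lit 3) (nat_lit 41) (nat_lit 1) (nat_lit 1) (nat_lit 0) true (nat_lit 11) true (nat_lit 14) false (nat_lit 6) true (nat_lit 13) true (nat_lit 13) (.s false (nat_lit 1) (nat_lit 42)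 (nat_lit 1) (nat_lit 1) (nat_lit 0) true (nat_lit 11) true (nat_lit 14) false (nat_lit 6) true (nat_lit 13) true (nat_lit 13) (.s false (nat_lit 3) (nat_lit 45) (nat_lit 0) (nat_lit 0) (nat_lit 1) true (nat_lit 11) true (nat_lit 13) false (nat_lit 7) true (nat_lit 14) true (nat_lit 14) (.s false (nat_lit 1) (nat_lit 44) (nat_lit 0) (nat_lit 1) (nat_lit 0) false (nat_lit 15) true (nat_lit 14) false (nat_lit 7) true (nat_lit 14) true (nat_lit 13) (.s true (nat_lit 2) (nat_lit 45) (nat_lit 0) (nat_lit 1) (nat_lit 0) false (nat_lit 15) true (nat_lit 14) false (nat_lit 7) true (nat_lit 14) true (nat_lit 13) (.e false (nat_lit 1) (nat_lit 132) (nat_lit 1) (nat_lit 13) (.e true (nat_lit 1) (nat_lit 133) (nat_lit 1) (nat_lit 13) (.e false (nat_lit 1) (nat_lit 136) (nat_lit 1) (nat_lit 13) (.e false (nat_lit 2) (nat_lit 137) (nat_lit 1) (nat_lit 13) (.e false (nat_lit 1) (nat_lit 138) (nat_lit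 1) (nat_lit 13) dC1c_i113)))))))))))))))))))))))))

noncomputable def dC1c_i115 : IL := (.s false (nat_lit 1) (nat_lit 11) (nat_lit 0) (nat_lit 2) (nat_lit 5) true (nat_lit 4) true (nat_lit 9) true (nat_lit 4) true (nat_lit 14) true (nat_lit 12) (.s true (nat_lit 1) (nat_lit 11) (nat_lit 1) (nat_lit 4) (nat_lit 2) true (nat_lit 9) true (nat_lit 12) true (nat_lit 4) true (nat_lit 13) true (nat_lit 10) (.s false (nat_lit 1) (nat_lit 11) (nat_lit 2) (nat_lit 5) (nat_lit 0) true (nat_lit 10) true (nat_lit 14) true (nat_lit 4) true (nat_lit 12) true (nat_lit 9) (.s true (nat_lit 2) (nat_lit 11) (nat_lit 4) (nat_lit 1) (nat_lit 2) true (nat_lit 2) true (nat_lit 12) true (nat_lit 4) true (nat_lit 10) true (nat_lit 13) (.s false (nat_lit 1) (nat_lit 11) (nat_lit 4) (nat_lit 2) (nat_lit 1) true (nat_lit 4) true (nat_lit 13) true (nat_lit 4) true (nat_lit 10) true (nat_lit 12) (.s true (nat_lit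 1) (nat_lit 13) (nat_lit 2) (nat_lit 0) (nat_lit 4) true (nat_lit 2) true (nat_lit 10) true (nat_lit 3) true (nat_lit 12) true (nat_lit 14) (.s false (nat_lit 3) (nat_lit 13) (nat_lit 2) (nat_lit 4) (nat_lit 0) true (nat_lit 10) true (nat_lit 14) true (nat_lit 3) true (nat_lit 12) true (nat_lit 10) (.s false (nat_lit 3) (nat_lit 13) (nat_lit 4) (nat_lit 2) (nat_lit 0) true (nat_lit 5) true (nat_lit 14) true (nat_lit 3) true (nat_lit 10) true (nat_lit 12) (.s true (nat_lit 1) (nat_lit 14) (nat_lit 0) (nat_lit 1) (nat_lit 5) true (nat_lit 4) true (nat_lit 9) true (nat_lit 2) true (nat_lit 14) true (nat_lit 13) (.s false (nat_lit 3) (nat_lit 15) (nat_lit 0) (nat_lit 5) (nat_lit 1) true (nat_lit 11) true (nat_lit 13) true (nat_lit 2) true (nat_lit 14) true (nat_lit 9) (.s false (nat_lit 1) (nat_lit 14) (nat_lit 1) (nat_lit 0) (nat_lit 5) true (nat_lit 3) true (nat_lit 9) true (nat_lit 2)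 true (nat_lit 13) true (nat_lit 14) (.s true (nat_lit 1) (nat_lit 14) (nat_lit 1) (nat_lit 1) (nat_lit 4) true (nat_lit 4) true (nat_lit 10) true (nat_lit 2) true (nat_lit 13) true (nat_lit 13) (.s true (nat_lit 3) (nat_lit 14) (nat_lit 1) (nat_lit 4) (nat_lit 1) false (nat_lit 16) true (nat_lit 13) true (nat_lit 2) true (nat_lit 13) true (nat_lit 10) (.s false (nat_lit 3) (nat_lit 15) (nat_lit 1) (nat_lit 4) (nat_lit 1) false (nat_lit 16) true (nat_lit 13) true (nat_lit 2) true (nat_lit 13) true (nat_lit 10) (.s false (nat_lit 1) (nat_lit 14) (nat_lit 1) (nat_lit 5) (nat_lit 0) true (nat_lit 11) true (nat_lit 14) true (nat_lit 2) true (nat_lit 13) true (nat_lit 9) (.s true (nat_lit 1) (nat_lit 15) (nat_lit 1) (nat_lit 5) (nat_lit 0) true (nat_lit 11) true (nat_lit 14) true (nat_lit 2) true (nat_lit 13) true (nat_lit 9) (.s false (nat_lit 1) (nat_lit 14) (nat_lit 2) (nat_lit 3) (nat_lit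 1) true (nat_lit 9) true (nat_lit 13) true (nat_lit 2) true (nat_lit 12) true (nat_lit 11) (.s false (nat_lit 2) (nat_lit 15) (nat_lit 2) (nat_lit 3) (nat_lit 1) true (nat_lit 9) true (nat_lit 13) true (nat_lit 2) true (nat_lit 12) true (nat_lit 11) (.s false (nat_lit 3) (nat_lit 15) (nat_lit 4) (nat_lit 1) (nat_lit 1) true (nat_lit 4) true (nat_lit 13) true (nat_lit 2) true (nat_lit 10) true (nat_lit 13) (.s false (nat_lit 2) (nat_lit 15) (nat_lit 5) (nat_lit 0) (nat_lit 1) true (nat_lit 3) true (nat_lit 13) true (nat_lit 2) true (nat_lit 9) true (nat_lit 14) (.s true (nat_lit 1) (nat_lit 14) (nat_lit 5) (nat_lit 1) (nat_lit 0) true (nat_lit 4) true (nat_lit 14) true (nat_lit 2) true (nat_lit 9) true (nat_lit 13) (.s false (nat_lit 3) (nat_lit 18) (nat_lit 1) (nat_lit 3) (nat_lit 0) true (nat_lit 11) true (nat_lit 14) true (nat_lit 0) true (nat_lit 13) true (nat_lit 11) (.s true (nat_lit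 3) (nat_lit 19) (nat_lit 2) (nat_lit 2) (nat_lit 2) true (nat_lit 8) true (nat_lit 12) false (nat_lit 0) true (nat_lit 12) true (nat_lit 12) (.s true (nat_lit 1) (nat_lit 20) (nat_lit 1) (nat_lit 2) (nat_lit 2) true (nat_lit 9) true (nat_lit 12) false (nat_lit 1) true (nat_lit 13) true (nat_lit 12) (.s false (nat_lit 2) (nat_lit 21) (nat_lit 2) (nat_lit 2) (nat_lit 1) true (nat_lit 9) true (nat_lit 13) false (nat_lit 1) true (nat_lit 12) true (nat_lit 12) dC1c_i114)))))))))))))))))))))))))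

noncomputable def dC1c_i116 : IL := (.e true (nat_lit 3) (nat_lit 119) (nat_lit 2) (nat_lit 12) (.e true (nat_lit 1) (nat_lit 109) (nat_lit 2) (nat_lit 12) (.e true (nat_lit 1) (nat_lit 130) (nat_lit 2) (nat_lit 12) (.e true (nat_lit 2) (nat_lit 21) (nat_lit 17) (nat_lit 1) (.e true (nat_lit 3) (nat_lit 116) (nat_lit 2) (nat_lit 12) (.e true (nat_lit 2) (nat_lit 148) (nat_lit 1) (nat_lit 13) (.e true (nat_lit 3) (nat_lit 29) (nat_lit 13) (nat_lit 3) (.e false (nat_lit 3) (nat_lit 30) (nat_lit 13) (nat_lit 3) (.e false (nat_lit 2) (nat_lit 158) (nat_lit 0) (nat_lit 14) (.e true (nat_lit 3) (nat_lit 159) (nat_lit 0) (nat_lit 14) (.e true (nat_lit 3) (nat_lit 163) (nat_lit 0) (nat_lit 14) (.e false (nat_lit 2) (nat_lit 154) (nat_lit 0) (nat_lit 14) (.e true (nat_lit 1) (nat_lit 156) (nat_lit 0) (nat_lit 14) (.e true (nat_lit 2) (nat_lit 157) (nat_lit 0) (nat_lit 14) (.e false (nat_lit 3)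 (nat_lit 160) (nat_lit 0) (nat_lit 14) (.e false (nat_lit 3) (nat_lit 162) (nat_lit 0) (nat_lit 14) (.e false (nat_lit 2) (nat_lit 164) (nat_lit 0) (nat_lit 14) (.e true (nat_lit 1) (nat_lit 165) (nat_lit 0) (nat_lit 14) (.e false (nat_lit 1) (nat_lit 168) (nat_lit 0) (nat_lit 14) (.e true (nat_lit 1) (nat_lit 172) (nat_lit 0) (nat_lit 14) (.e false (nat_lit 1) (nat_lit 155) (nat_lit 0) (nat_lit 14) (.e false (nat_lit 1) (nat_lit 166) (nat_lit 0) (nat_lit 14) (.e true (nat_lit 2) (nat_lit 167) (nat_lit 0) (nat_lit 14) (.u (nat_lit 2) (.n (nat_lit 0) (nat_lit 3) (.n (nat_lit 1) (nat_lit 3) (.n (nat_lit 3) (nat_lit 2) (.p (nat_lit 4) (nat_lit 1) (.n (nat_lit 5) (nat_lit 1) (.n (nat_lit 6) (nat_lit 2) (.n (nat_lit 7) (nat_lit 1) (.p (nat_lit 9) (nat_lit 1) (.p (nat_lit 10) (nat_lit 1) (.p (nat_lit 11) (nat_lit 3) (.n (nat_lit 12) (nat_lit 2) (.n (nat_lit 13) (nat_lit 1) (.p (nat_lit 14)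 (nat_lit 1) (.n (nat_lit 15) (nat_lit 5) (.p (nat_lit 16) (nat_lit 1) (.n (nat_lit 18) (nat_lit 2) (.n (nat_lit 19) (nat_lit 3) (.n (nat_lit 20) (nat_lit 4) (.p (nat_lit 21) (nat_lit 1) (.n (nat_lit 22) (nat_lit 1) (.n (nat_lit 23) (nat_lit 2) (.n (nat_lit 24) (nat_lit 6) (.n (nat_lit 26) (nat_lit 5) (.n (nat_lit 27) (nat_lit 2) (.n (nat_lit 28) (nat_lit 3) (.p (nat_lit 29) (nat_lit 3) (.n (nat_lit 30) (nat_lit 1) (.n (nat_lit 31) (nat_lit 2) (.p (nat_lit 33) (nat_lit 1) (.n (nat_lit 34) (nat_lit 1) (.p (nat_lit 35) (nat_lit 1) (.p (nat_lit 36) (nat_lit 2) (.n (nat_lit 37) (nat_lit 1) (.n (nat_lit 38) (nat_lit 1) (.p (nat_lit 41) (nat_lit 1) (.n (nat_lit 65) (nat_lit 1) (.n (nat_lit 74) (nat_lit 1) (.n (nat_lit 75) (nat_lit 1) (.p (nat_lit 77) (nat_lit 1) (.p (nat_lit 78) (nat_lit 1) (.n (nat_lit 79) (nat_lit 1) (.p (nat_lit 88) (nat_lit 1) (.n (nat_lit 108) (nat_lit 1) (.n (nat_lit 115)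 (nat_lit 1) (.n (nat_lit 116) (nat_lit 1) (.n (nat_lit 118) (nat_lit 1) (.p (nat_lit 120) (nat_lit 2) (.p (nat_lit 122) (nat_lit 1) (.n (nat_lit 123) (nat_lit 1) (.n (nat_lit 124) (nat_lit 1) (.p (nat_lit 136) (nat_lit 1) (.p (nat_lit 138) (nat_lit 1) (.n (nat_lit 141) (nat_lit 1) (.n (nat_lit 143) (nat_lit 1) (.n (nat_lit 144) (nat_lit 1) (.p (nat_lit 148) (nat_lit 3) (.n (nat_lit 152) (nat_lit 1) (.n (nat_lit 154) (nat_lit 1) (.p (nat_lit 158) (nat_lit 1) (.p (nat_lit 159) (nat_lit 1) .z)))))))))))))))))))))))))))))))))))))))))))))))))))))))))))) (.u (nat_lit 2) (.p (nat_lit 161) (nat_lit 6) (.n (nat_lit 162) (nat_lit 2) (.p (nat_lit 163) (nat_lit 6) (.p (nat_lit 164) (nat_lit 7) (.n (nat_lit 165) (nat_lit 1) (.p (nat_lit 166) (nat_lit 4) (.p (nat_lit 167) (nat_lit 9) (.p (nat_lit 168) (nat_lit 5) (.n (nat_lit 169) (nat_lit 2) (.n (nat_lit 170) (nat_lit 7) (.n (nat_lit 171) (nat_lit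 3) (.n (nat_lit 172) (nat_lit 1) (.p (nat_lit 173) (nat_lit 4) (.p (nat_lit 174) (nat_lit 1) (.n (nat_lit 175) (nat_lit 2) (.n (nat_lit 176) (nat_lit 2) (.n (nat_lit 177) (nat_lit 1) (.p (nat_lit 178) (nat_lit 3) (.p (nat_lit 179) (nat_lit 6) (.n (nat_lit 180) (nat_lit 1) (.n (nat_lit 181) (nat_lit 1) (.n (nat_lit 182) (nat_lit 2) (.n (nat_lit 183) (nat_lit 3) (.n (nat_lit 184) (nat_lit 2) (.p (nat_lit 185) (nat_lit 4) (.n (nat_lit 186) (nat_lit 4) (.n (nat_lit 187) (nat_lit 2) (.p (nat_lit 188) (nat_lit 8) (.n (nat_lit 189) (nat_lit 2) (.p (nat_lit 190) (nat_lit 4) (.n (nat_lit 191) (nat_lit 2) (.n (nat_lit 192) (nat_lit 3) (.n (nat_lit 193) (nat_lit 1) (.n (nat_lit 194) (nat_lit 2) (.p (nat_lit 195) (nat_lit 4) (.p (nat_lit 196) (nat_lit 1) (.n (nat_lit 197) (nat_lit 2) (.n (nat_lit 198) (nat_lit 2) (.n (nat_lit 199) (nat_lit 2) (.n (nat_lit 200) (nat_lit 2) (.p (nat_lit 201) (nat_lit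 2) (.p (nat_lit 202) (nat_lit 1) .z)))))))))))))))))))))))))))))))))))))))))) .nil)))))))))))))))))))))))))

noncomputable def dC1c_i117 : IL := (.e true (nat_lit 3) (nat_lit 56) (nat_lit 5) (nat_lit 9) (.e true (nat_lit 3) (nat_lit 59) (nat_lit 5) (nat_lit 9) (.e false (nat_lit 1) (nat_lit 60) (nat_lit 5) (nat_lit 9) (.e false (nat_lit 1) (nat_lit 61) (nat_lit 5) (nat_lit 9) (.e false (nat_lit 1) (nat_lit 152) (nat_lit 1) (nat_lit 13) (.e true (nat_lit 1) (nat_lit 133) (nat_lit 1) (nat_lit 13) (.e true (nat_lit 3) (nat_lit 134) (nat_lit 1) (nat_lit 13) (.e false (nat_lit 2) (nat_lit 135) (nat_lit 1) (nat_lit 13) (.e true (nat_lit 2) (nat_lit 136) (nat_lit 1) (nat_lit 13) (.e false (nat_lit 1) (nat_lit 139) (nat_lit 1) (nat_lit 13) (.e false (nat_lit 3) (nat_lit 141) (nat_lit 1) (nat_lit 13) (.e true (nat_lit 2) (nat_lit 143) (nat_lit 1) (nat_lit 13) (.e true (nat_lit 1) (nat_lit 144)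 (nat_lit 1) (nat_lit 13) (.e false (nat_lit 1) (nat_lit 145) (nat_lit 1) (nat_lit 13) (.e false (nat_lit 3) (nat_lit 149) (nat_lit 1) (nat_lit 13) (.e false (nat_lit 3) (nat_lit 137) (nat_lit 1) (nat_lit 13) (.e true (nat_lit 3) (nat_lit 129) (nat_lit 2) (nat_lit 12) (.e false (nat_lit 3) (nat_lit 112) (nat_lit 2) (nat_lit 12) (.e false (nat_lit 3) (nat_lit 114) (nat_lit 2) (nat_lit 12) (.e true (nat_lit 1) (nat_lit 108) (nat_lit 2) (nat_lit 12) (.e true (nat_lit 3) (nat_lit 107) (nat_lit 2) (nat_lit 12) (.e false (nat_lit 3) (nat_lit 124) (nat_lit 2) (nat_lit 12) (.e false (nat_lit 2) (nat_lit 170) (nat_lit 0) (nat_lit 14) (.e false (nat_lit 1) (nat_lit 28) (nat_lit 13) (nat_lit 3) (.e true (nat_lit 3) (nat_lit 37) (nat_lit 9) (nat_lit 5) dC1c_i116)))))))))))))))))))))))))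

noncomputable def dC1c_i118 : IL := (.s true (nat_lit 2) (nat_lit 13) (nat_lit 6) (nat_lit 0) (nat_lit 0) true (nat_lit 2) true (nat_lit 14) true (nat_lit 3) true (nat_lit 8) true (nat_lit 14) (.s false (nat_lit 2) (nat_lit 14) (nat_lit 1) (nat_lit 1) (nat_lit 4) true (nat_lit 4) true (nat_lit 10) true (nat_lit 2) true (nat_lit 13) true (nat_lit 13) (.s true (nat_lit 2) (nat_lit 14) (nat_lit 1) (nat_lit 4) (nat_lit 1) false (nat_lit 16) true (nat_lit 13) true (nat_lit 2) true (nat_lit 13) true (nat_lit 10) (.s false (nat_lit 3) (nat_lit 14) (nat_lit 2) (nat_lit 3) (nat_lit 1) true (nat_lit 9) true (nat_lit 13) true (nat_lit 2) true (nat_lit 12) true (nat_lit 11) (.s true (nat_lit 2) (nat_lit 15) (nat_lit 2) (nat_lit 3) (nat_lit 1) true (nat_lit 9) true (nat_lit 13) true (nat_lit 2) true (nat_lit 12) true (nat_lit 11) (.s false (nat_lit 3) (nat_lit 14) (nat_lit 5) (nat_lit 0) (nat_lit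 1) true (nat_lit 3) true (nat_lit 13) true (nat_lit 2) true (nat_lit 9) true (nat_lit 14) (.s true (nat_lit 2) (nat_lit 15) (nat_lit 5) (nat_lit 0) (nat_lit 1) true (nat_lit 3) true (nat_lit 13) true (nat_lit 2) true (nat_lit 9) true (nat_lit 14) (.s true (nat_lit 2) (nat_lit 20) (nat_lit 1) (nat_lit 2) (nat_lit 2) true (nat_lit 9) true (nat_lit 12) false (nat_lit 1) true (nat_lit 13) true (nat_lit 12) (.s false (nat_lit 1) (nat_lit 20) (nat_lit 2) (nat_lit 1) (nat_lit 2) true (nat_lit 8) true (nat_lit 12) false (nat_lit 1) true (nat_lit 12) true (nat_lit 13) (.s true (nat_lit 2) (nat_lit 24) (nat_lit 0) (nat_lit 2) (nat_lit 2) true (nat_lit 10) true (nat_lit 12) false (nat_lit 2) true (nat_lit 14) true (nat_lit 12) (.s true (nat_lit 2) (nat_lit 24) (nat_lit 2) (nat_lit 0) (nat_lit 2) true (nat_lit 8) true (nat_lit 12) false (nat_lit 2) true (nat_lit 12) true (nat_lit 14) (.s false (nat_lit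 1) (nat_lit 24) (nat_lit 2) (nat_lit 2) (nat_lit 0) true (nat_lit 10) true (nat_lit 14) false (nat_lit 2) true (nat_lit 12) true (nat_lit 12) (.s true (nat_lit 3) (nat_lit 29) (nat_lit 1) (nat_lit 1) (nat_lit 2) true (nat_lit 9) true (nat_lit 12) false (nat_lit 3) true (nat_lit 13) true (nat_lit 13) (.s true (nat_lit 2) (nat_lit 30) (nat_lit 1) (nat_lit 1) (nat_lit 2) true (nat_lit 9) true (nat_lit 12) false (nat_lit 3) true (nat_lit 13) true (nat_lit 13) (.s false (nat_lit 3) (nat_lit 34) (nat_lit 0) (nat_lit 2) (nat_lit 1) true (nat_lit 11) true (nat_lit 13) false (nat_lit 4) true (nat_lit 14) true (nat_lit 12) (.s false (nat_lit 2) (nat_lit 35) (nat_lit 1) (nat_lit 2) (nat_lit 0) true (nat_lit 11) true (nat_lit 14) false (nat_lit 4) true (nat_lit 13) true (nat_lit 12) (.s false (nat_lit 2) (nat_lit 35) (nat_lit 2) (nat_lit 1) (nat_lit 0) true (nat_lit 10) true (nat_lit 14) false (nat_lit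 4) true (nat_lit 12) true (nat_lit 13) (.s true (nat_lit 3) (nat_lit 38) (nat_lit 2) (nat_lit 0) (nat_lit 0) true (nat_lit 10) true (nat_lit 14) false (nat_lit 5) true (nat_lit 12) true (nat_lit 14) (.s true (nat_lit 2) (nat_lit 39) (nat_lit 2) (nat_lit 0) (nat_lit 0) true (nat_lit 10) true (nat_lit 14) false (nat_lit 5) true (nat_lit 12) true (nat_lit 14) (.s false (nat_lit 1) (nat_lit 40) (nat_lit 0) (nat_lit 1) (nat_lit 1) true (nat_lit 11) true (nat_lit 13) false (nat_lit 6) true (nat_lit 14) true (nat_lit 13) (.s true (nat_lit 3) (nat_lit 41) (nat_lit 1) (nat_lit 0) (nat_lit 1) false (nat_lit 16) true (nat_lit 13) false (nat_lit 6) true (nat_lit 13) true (nat_lit 14) (.s true (nat_lit 2) (nat_lit 42) (nat_lit 1) (nat_lit 0) (nat_lit 1) false (nat_lit 16) true (nat_lit 13) false (nat_lit 6) true (nat_lit 13) true (nat_lit 14) (.s false (nat_lit 1) (nat_lit 40) (nat_lit 1) (nat_lit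 1) (nat_lit 0) true (nat_lit 11) true (nat_lit 14) false (nat_lit 6) true (nat_lit 13) true (nat_lit 13) (.s true (nat_lit 1) (nat_lit 43) (nat_lit 0) (nat_lit 1) (nat_lit 0) false (nat_lit 15) true (nat_lit 14) false (nat_lit 7) true (nat_lit 14) true (nat_lit 13) (.s false (nat_lit 1) (nat_lit 44) (nat_lit 0) (nat_lit 1) (nat_lit 0) false (nat_lit 15) true (nat_lit 14) false (nat_lit 7) true (nat_lit 14) true (nat_lit 13) dC1c_i117)))))))))))))))))))))))))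

noncomputable def dC1c_i119 : IL := (.e true (nat_lit 3) (nat_lit 227) (nat_lit 2) (nat_lit 17) (.e false (nat_lit 2) (nat_lit 231) (nat_lit 2) (nat_lit 17) (.e false (nat_lit 2) (nat_lit 233) (nat_lit 2) (nat_lit 17) (.e false (nat_lit 3) (nat_lit 236) (nat_lit 2) (nat_lit 17) (.e false (nat_lit 3) (nat_lit 239) (nat_lit 2) (nat_lit 17) (.e true (nat_lit 2) (nat_lit 240) (nat_lit 2) (nat_lit 17) (.e true (nat_lit 1) (nat_lit 241) (nat_lit 2) (nat_lit 17) (.e true (nat_lit 3) (nat_lit 242) (nat_lit 2) (nat_lit 17) (.e true (nat_lit 3) (nat_lit 248) (nat_lit 2) (nat_lit 17) (.e true (nat_lit 2) (nat_lit 225) (nat_lit 2) (nat_lit 17) (.e false (nat_lit 1) (nat_lit 228) (nat_lit 2) (nat_lit 17) (.e false (nat_lit 3) (nat_lit 234) (nat_lit 2) (nat_lit 17) (.e true (nat_lit 3) (nat_lit 237) (nat_lit 2) (nat_lit 17) (.e false (nat_lit 3) (nat_lit 238) (nat_lit 2) (nat_lit 17) (.e false (nat_lit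 2) (nat_lit 246) (nat_lit 2) (nat_lit 17) (.e false (nat_lit 2) (nat_lit 217) (nat_lit 2) (nat_lit 17) (.e true (nat_lit 1) (nat_lit 101) (nat_lit 8) (nat_lit 11) (.e true (nat_lit 2) (nat_lit 222) (nat_lit 2) (nat_lit 17) (.e true (nat_lit 3) (nat_lit 229) (nat_lit 2) (nat_lit 17) (.e true (nat_lit 2) (nat_lit 232) (nat_lit 2) (nat_lit 17) (.e false (nat_lit 2) (nat_lit 245) (nat_lit 2) (nat_lit 17) (.e false (nat_lit 1) (nat_lit 249) (nat_lit 2) (nat_lit 17) (.e false (nat_lit 1) (nat_lit 290) (nat_lit 0) (nat_lit 19) (.u (nat_lit 2) (.p (nat_lit 0) (nat_lit 1) (.p (nat_lit 1) (nat_lit 3) (.p (nat_lit 2) (nat_lit 1) (.p (nat_lit 3) (nat_lit 1) (.p (nat_lit 4) (nat_lit 3) (.p (nat_lit 5) (nat_lit 3) (.n (nat_lit 6) (nat_lit 1) (.p (nat_lit 7) (nat_lit 1) (.n (nat_lit 10) (nat_lit 4) (.n (nat_lit 11) (nat_lit 4) (.n (nat_lit 13) (nat_lit 2) (.n (nat_lit 14) (nat_lit 1) (.p (nat_lit 15)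 (nat_lit 4) (.p (nat_lit 17) (nat_lit 5) (.p (nat_lit 18) (nat_lit 1) (.n (nat_lit 19) (nat_lit 1) (.n (nat_lit 20) (nat_lit 2) (.n (nat_lit 26) (nat_lit 3) (.p (nat_lit 27) (nat_lit 2) (.p (nat_lit 28) (nat_lit 1) (.n (nat_lit 29) (nat_lit 2) (.p (nat_lit 30) (nat_lit 1) (.n (nat_lit 31) (nat_lit 4) (.n (nat_lit 32) (nat_lit 2) (.p (nat_lit 34) (nat_lit 5) (.p (nat_lit 35) (nat_lit 7) (.p (nat_lit 36) (nat_lit 3) (.p (nat_lit 37) (nat_lit 1) (.p (nat_lit 38) (nat_lit 3) (.n (nat_lit 39) (nat_lit 3) (.p (nat_lit 40) (nat_lit 5) (.p (nat_lit 41) (nat_lit 4) (.p (nat_lit 46) (nat_lit 1) (.p (nat_lit 49) (nat_lit 1) (.p (nat_lit 50) (nat_lit 2) (.n (nat_lit 51) (nat_lit 2) (.n (nat_lit 52) (nat_lit 1) (.p (nat_lit 53) (nat_lit 2) (.p (nat_lit 54) (nat_lit 3) (.n (nat_lit 55) (nat_lit 3) (.p (nat_lit 56) (nat_lit 1) (.n (nat_lit 57) (nat_lit 3) (.p (nat_lit 58) (nat_lit 2) (.n (nat_lit 60)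 (nat_lit 2) (.p (nat_lit 62) (nat_lit 1) (.p (nat_lit 63) (nat_lit 1) (.p (nat_lit 64) (nat_lit 1) (.p (nat_lit 69) (nat_lit 1) (.n (nat_lit 70) (nat_lit 2) (.n (nat_lit 331) (nat_lit 1) (.n (nat_lit 334) (nat_lit 1) (.p (nat_lit 336) (nat_lit 1) (.n (nat_lit 341) (nat_lit 1) (.p (nat_lit 346) (nat_lit 1) (.p (nat_lit 347) (nat_lit 1) (.n (nat_lit 348) (nat_lit 1) (.n (nat_lit 349) (nat_lit 1) (.n (nat_lit 351) (nat_lit 1) (.n (nat_lit 353) (nat_lit 1) (.n (nat_lit 359) (nat_lit 1) .z)))))))))))))))))))))))))))))))))))))))))))))))))))))))))))) (.u (nat_lit 2) (.p (nat_lit 363) (nat_lit 1) .z) .nil)))))))))))))))))))))))))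

noncomputable def dC1c_i120 : IL := (.e false (nat_lit 3) (nat_lit 163) (nat_lit 0) (nat_lit 14) (.e true (nat_lit 3) (nat_lit 165) (nat_lit 0) (nat_lit 14) (.e false (nat_lit 3) (nat_lit 172) (nat_lit 0) (nat_lit 14) (.e true (nat_lit 2) (nat_lit 116) (nat_lit 2) (nat_lit 12) (.e true (nat_lit 1) (nat_lit 153) (nat_lit 0) (nat_lit 14) (.e true (nat_lit 1) (nat_lit 154) (nat_lit 0) (nat_lit 14) (.e true (nat_lit 1) (nat_lit 157) (nat_lit 0) (nat_lit 14) (.e true (nat_lit 2) (nat_lit 159) (nat_lit 0) (nat_lit 14) (.e false (nat_lit 2) (nat_lit 160) (nat_lit 0) (nat_lit 14) (.e false (nat_lit 3) (nat_lit 29) (nat_lit 13) (nat_lit 3) (.e false (nat_lit 2) (nat_lit 30) (nat_lit 13) (nat_lit 3) (.e true (nat_lit 3) (nat_lit 155) (nat_lit 0) (nat_lit 14) (.e true (nat_lit 3) (nat_lit 156) (nat_lit 0) (nat_lit 14) (.e true (nat_lit 1) (nat_lit 162) (nat_lit 0) (nat_lit 14) (.e true (nat_lit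 2) (nat_lit 167) (nat_lit 0) (nat_lit 14) (.e true (nat_lit 3) (nat_lit 169) (nat_lit 0) (nat_lit 14) (.e false (nat_lit 1) (nat_lit 173) (nat_lit 0) (nat_lit 14) (.e true (nat_lit 2) (nat_lit 73) (nat_lit 4) (nat_lit 10) (.e false (nat_lit 3) (nat_lit 164) (nat_lit 0) (nat_lit 14) (.e false (nat_lit 3) (nat_lit 168) (nat_lit 0) (nat_lit 14) (.e true (nat_lit 1) (nat_lit 166) (nat_lit 0) (nat_lit 14) (.e true (nat_lit 3) (nat_lit 147) (nat_lit 1) (nat_lit 13) (.e false (nat_lit 1) (nat_lit 148) (nat_lit 1) (nat_lit 13) (.u (nat_lit 2) (.p (nat_lit 0) (nat_lit 1) (.n (nat_lit 2) (nat_lit 2) (.p (nat_lit 3) (nat_lit 1) (.n (nat_lit 6) (nat_lit 1) (.p (nat_lit 7) (nat_lit 1) (.p (nat_lit 8) (nat_lit 1) (.n (nat_lit 9) (nat_lit 3) (.n (nat_lit 11) (nat_lit 1) (.p (nat_lit 14) (nat_lit 1) (.p (nat_lit 15) (nat_lit 1) (.p (nat_lit 18) (nat_lit 1) (.p (nat_lit 19) (nat_lit 1) (.p (nat_lit 20)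 (nat_lit 2) (.n (nat_lit 22) (nat_lit 2) (.p (nat_lit 23) (nat_lit 2) (.p (nat_lit 24) (nat_lit 1) (.n (nat_lit 26) (nat_lit 1) (.p (nat_lit 27) (nat_lit 1) (.p (nat_lit 29) (nat_lit 1) (.n (nat_lit 30) (nat_lit 1) (.n (nat_lit 31) (nat_lit 1) (.p (nat_lit 32) (nat_lit 1) (.p (nat_lit 33) (nat_lit 1) (.n (nat_lit 34) (nat_lit 2) (.p (nat_lit 35) (nat_lit 1) (.p (nat_lit 37) (nat_lit 1) (.n (nat_lit 38) (nat_lit 1) (.n (nat_lit 47) (nat_lit 1) (.n (nat_lit 66) (nat_lit 1) (.n (nat_lit 85) (nat_lit 1) (.p (nat_lit 86) (nat_lit 1) (.n (nat_lit 88) (nat_lit 1) (.p (nat_lit 94) (nat_lit 1) (.p (nat_lit 95) (nat_lit 1) (.p (nat_lit 100) (nat_lit 1) (.n (nat_lit 102) (nat_lit 1) (.n (nat_lit 104) (nat_lit 1) (.p (nat_lit 105) (nat_lit 2) (.n (nat_lit 107) (nat_lit 2) (.n (nat_lit 108) (nat_lit 1) (.p (nat_lit 109) (nat_lit 3) (.p (nat_lit 110) (nat_lit 1) (.p (nat_lit 111) (nat_lit 1) (.p (nat_lit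 112) (nat_lit 2) (.p (nat_lit 113) (nat_lit 3) (.p (nat_lit 115) (nat_lit 1) (.p (nat_lit 118) (nat_lit 1) (.n (nat_lit 120) (nat_lit 1) (.p (nat_lit 121) (nat_lit 1) (.n (nat_lit 122) (nat_lit 1) (.p (nat_lit 123) (nat_lit 1) (.n (nat_lit 136) (nat_lit 2) (.p (nat_lit 137) (nat_lit 2) (.p (nat_lit 140) (nat_lit 1) (.n (nat_lit 141) (nat_lit 1) (.p (nat_lit 143) (nat_lit 3) (.n (nat_lit 144) (nat_lit 1) (.p (nat_lit 145) (nat_lit 1) (.n (nat_lit 146) (nat_lit 2) (.n (nat_lit 147) (nat_lit 1) .z)))))))))))))))))))))))))))))))))))))))))))))))))))))))))))) (.u (nat_lit 2) (.n (nat_lit 148) (nat_lit 5) (.p (nat_lit 149) (nat_lit 3) (.n (nat_lit 152) (nat_lit 2) (.p (nat_lit 153) (nat_lit 2) (.p (nat_lit 155) (nat_lit 1) (.n (nat_lit 161) (nat_lit 3) (.p (nat_lit 162) (nat_lit 5) (.n (nat_lit 163) (nat_lit 2) (.n (nat_lit 164) (nat_lit 4) (.n (nat_lit 165) (nat_lit 2) (.p (nat_lit 166) (nat_lit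 1) (.n (nat_lit 167) (nat_lit 4) (.n (nat_lit 168) (nat_lit 4) (.p (nat_lit 169) (nat_lit 1) (.p (nat_lit 170) (nat_lit 3) (.p (nat_lit 171) (nat_lit 8) (.n (nat_lit 172) (nat_lit 2) (.n (nat_lit 173) (nat_lit 1) (.p (nat_lit 174) (nat_lit 6) (.n (nat_lit 175) (nat_lit 2) (.p (nat_lit 176) (nat_lit 1) (.p (nat_lit 177) (nat_lit 1) (.n (nat_lit 178) (nat_lit 3) (.n (nat_lit 179) (nat_lit 3) (.n (nat_lit 180) (nat_lit 4) (.p (nat_lit 181) (nat_lit 2) (.p (nat_lit 182) (nat_lit 3) (.p (nat_lit 183) (nat_lit 4) (.p (nat_lit 184) (nat_lit 2) (.p (nat_lit 185) (nat_lit 1) (.p (nat_lit 186) (nat_lit 6) (.n (nat_lit 187) (nat_lit 7) (.n (nat_lit 188) (nat_lit 4) (.p (nat_lit 189) (nat_lit 4) (.p (nat_lit 191) (nat_lit 6) (.p (nat_lit 192) (nat_lit 4) (.p (nat_lit 193) (nat_lit 2) (.p (nat_lit 194) (nat_lit 3) (.n (nat_lit 195) (nat_lit 2) (.n (nat_lit 196) (nat_lit 4) (.p (nat_lit 197) (nat_lit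 4) (.p (nat_lit 198) (nat_lit 1) (.p (nat_lit 199) (nat_lit 2) (.p (nat_lit 200) (nat_lit 6) (.p (nat_lit 201) (nat_lit 6) (.n (nat_lit 202) (nat_lit 5) .z)))))))))))))))))))))))))))))))))))))))))))))) .nil)))))))))))))))))))))))))

noncomputable def dC1c_i121 : IL := (.e true (nat_lit 3) (nat_lit 144) (nat_lit 1) (nat_lit 13) (.e false (nat_lit 1) (nat_lit 145) (nat_lit 1) (nat_lit 13) (.e false (nat_lit 3) (nat_lit 140) (nat_lit 1) (nat_lit 13) (.e true (nat_lit 3) (nat_lit 134) (nat_lit 1) (nat_lit 13) (.e true (nat_lit 1) (nat_lit 135) (nat_lit 1) (nat_lit 13) (.e true (nat_lit 1) (nat_lit 152) (nat_lit 1) (nat_lit 13) (.e false (nat_lit 2) (nat_lit 59) (nat_lit 5) (nat_lit 9) (.e true (nat_lit 3) (nat_lit 60) (nat_lit 5) (nat_lit 9) (.e true (nat_lit 2) (nat_lit 61) (nat_lit 5) (nat_lit 9) (.e false (nat_lit 2) (nat_lit 112) (nat_lit 2) (nat_lit 12) (.e true (nat_lit 3) (nat_lit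 114) (nat_lit 2) (nat_lit 12) (.e true (nat_lit 3) (nat_lit 108) (nat_lit 2) (nat_lit 12) (.e false (nat_lit 1) (nat_lit 107) (nat_lit 2) (nat_lit 12) (.e false (nat_lit 2) (nat_lit 124) (nat_lit 2) (nat_lit 12) (.e false (nat_lit 3) (nat_lit 161) (nat_lit 0) (nat_lit 14) (.e false (nat_lit 3) (nat_lit 170) (nat_lit 0) (nat_lit 14) (.e false (nat_lit 1) (nat_lit 125) (nat_lit 2) (nat_lit 12) (.e false (nat_lit 2) (nat_lit 28) (nat_lit 13) (nat_lit 3) (.e true (nat_lit 1) (nat_lit 56) (nat_lit 5) (nat_lit 9) (.e true (nat_lit 2) (nat_lit 37) (nat_lit 9) (nat_lit 5) (.e false (nat_lit 2) (nat_lit 143) (nat_lit 1) (nat_lit 13) (.e true (nat_lit 2) (nat_lit 109) (nat_lit 2) (nat_lit 12) (.e false (nat_lit 1) (nat_lit 130) (nat_lit 2) (nat_lit 12) (.e false (nat_lit 2) (nat_lit 21) (nat_lit 17) (nat_lit 1) (.e true (nat_lit 2) (nat_lit 158) (nat_lit 0) (nat_lit 14) dC1c_i120)))))))))))))))))))))))))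

noncomputable def dC1c_i122 : IL := (.s false (nat_lit 1) (nat_lit 33) (nat_lit 0) (nat_lit 2) (nat_lit 1) true (nat_lit 11) true (nat_lit 13) false (nat_lit 4) true (nat_lit 14) true (nat_lit 12) (.s false (nat_lit 3) (nat_lit 34) (nat_lit 0) (nat_lit 2) (nat_lit 1) true (nat_lit 11) true (nat_lit 13) false (nat_lit 4) true (nat_lit 14) true (nat_lit 12) (.s false (nat_lit 1) (nat_lit 33) (nat_lit 1) (nat_lit 2) (nat_lit 0) true (nat_lit 11) true (nat_lit 14) false (nat_lit 4) true (nat_lit 13) true (nat_lit 12) (.s true (nat_lit 2) (nat_lit 35) (nat_lit 1) (nat_lit 2) (nat_lit 0) true (nat_lit 11) true (nat_lit 14) false (nat_lit 4) true (nat_lit 13) true (nat_lit 12) (.s false (nat_lit 3) (nat_lit 31) (nat_lit 2) (nat_lit 0) (nat_lit 1) true (nat_lit 9) true (nat_lit 13) false (nat_lit 4) true (nat_lit 12) true (nat_lit 14) (.s false (nat_lit 1) (nat_lit 33) (nat_lit 2) (nat_lit 0)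 (nat_lit 1) true (nat_lit 9) true (nat_lit 13) false (nat_lit 4) true (nat_lit 12) true (nat_lit 14) (.s false (nat_lit 3) (nat_lit 36) (nat_lit 2) (nat_lit 0) (nat_lit 1) true (nat_lit 9) true (nat_lit 13) false (nat_lit 4) true (nat_lit 12) true (nat_lit 14) (.s true (nat_lit 1) (nat_lit 32) (nat_lit 2) (nat_lit 1) (nat_lit 0) true (nat_lit 10) true (nat_lit 14) false (nat_lit 4) true (nat_lit 12) true (nat_lit 13) (.s false (nat_lit 3) (nat_lit 34) (nat_lit 2) (nat_lit 1) (nat_lit 0) true (nat_lit 10) true (nat_lit 14) false (nat_lit 4) true (nat_lit 12) true (nat_lit 13) (.s true (nat_lit 2) (nat_lit 35) (nat_lit 2) (nat_lit 1) (nat_lit 0) true (nat_lit 10) true (nat_lit 14) false (nat_lit 4) true (nat_lit 12) true (nat_lit 13) (.s false (nat_lit 3) (nat_lit 38) (nat_lit 2) (nat_lit 0) (nat_lit 0) true (nat_lit 10) true (nat_lit 14) false (nat_lit 5) true (nat_lit 12) true (nat_lit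 14) (.s false (nat_lit 2) (nat_lit 39) (nat_lit 2) (nat_lit 0) (nat_lit 0) true (nat_lit 10) true (nat_lit 14) false (nat_lit 5) true (nat_lit 12) true (nat_lit 14) (.s false (nat_lit 2) (nat_lit 40) (nat_lit 0) (nat_lit 1) (nat_lit 1) true (nat_lit 11) true (nat_lit 13) false (nat_lit 6) true (nat_lit 14) true (nat_lit 13) (.s false (nat_lit 2) (nat_lit 40) (nat_lit 1) (nat_lit 1) (nat_lit 0) true (nat_lit 11) true (nat_lit 14) false (nat_lit 6) true (nat_lit 13) true (nat_lit 13) (.s false (nat_lit 2) (nat_lit 43) (nat_lit 0) (nat_lit 1) (nat_lit 0) false (nat_lit 15) true (nat_lit 14) false (nat_lit 7) true (nat_lit 14) true (nat_lit 13) (.s true (nat_lit 1) (nat_lit 44) (nat_lit 0) (nat_lit 1) (nat_lit 0) false (nat_lit 15) true (nat_lit 14) false (nat_lit 7) true (nat_lit 14) true (nat_lit 13) (.s false (nat_lit 2) (nat_lit 45) (nat_lit 0) (nat_lit 1) (nat_lit 0) false (nat_lit 15)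 true (nat_lit 14) false (nat_lit 7) true (nat_lit 14) true (nat_lit 13) (.e false (nat_lit 3) (nat_lit 132) (nat_lit 1) (nat_lit 13) (.e true (nat_lit 2) (nat_lit 133) (nat_lit 1) (nat_lit 13) (.e true (nat_lit 1) (nat_lit 136) (nat_lit 1) (nat_lit 13) (.e true (nat_lit 3) (nat_lit 137) (nat_lit 1) (nat_lit 13) (.e true (nat_lit 3) (nat_lit 138) (nat_lit 1) (nat_lit 13) (.e false (nat_lit 3) (nat_lit 139) (nat_lit 1) (nat_lit 13) (.e true (nat_lit 3) (nat_lit 141) (nat_lit 1) (nat_lit 13) (.e true (nat_lit 1) (nat_lit 142) (nat_lit 1) (nat_lit 13) dC1c_i121)))))))))))))))))))))))))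

noncomputable def dC1c_i123 : IL := (.s true (nat_lit 3) (nat_lit 11) (nat_lit 4) (nat_lit 2) (nat_lit 1) true (nat_lit 4) true (nat_lit 13) true (nat_lit 4) true (nat_lit 10) true (nat_lit 12) (.s true (nat_lit 1) (nat_lit 12) (nat_lit 5) (nat_lit 2) (nat_lit 0) true (nat_lit 4) true (nat_lit 14) true (nat_lit 4) true (nat_lit 9) true (nat_lit 12) (.s false (nat_lit 1) (nat_lit 13) (nat_lit 0) (nat_lit 2) (nat_lit 4) true (nat_lit 5) true (nat_lit 10) true (nat_lit 3) true (nat_lit 14) true (nat_lit 12) (.s true (nat_lit 1) (nat_lit 13) (nat_lit 0) (nat_lit 4) (nat_lit 2) true (nat_lit 10) true (nat_lit 12) true (nat_lit 3) true (nat_lit 14) true (nat_lit 10) (.s false (nat_lit 3) (nat_lit 13) (nat_lit 2) (nat_lit 0) (nat_lit 4) true (nat_lit 2) true (nat_lit 10) true (nat_lit 3) true (nat_lit 12) true (nat_lit 14) (.s true (nat_lit 2) (nat_lit 13) (nat_lit 2) (nat_lit 4) (nat_lit 0)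 true (nat_lit 10) true (nat_lit 14) true (nat_lit 3) true (nat_lit 12) true (nat_lit 10) (.s false (nat_lit 2) (nat_lit 13) (nat_lit 6) (nat_lit 0) (nat_lit 0) true (nat_lit 2) true (nat_lit 14) true (nat_lit 3) true (nat_lit 8) true (nat_lit 14) (.s false (nat_lit 3) (nat_lit 14) (nat_lit 0) (nat_lit 1) (nat_lit 5) true (nat_lit 4) true (nat_lit 9) true (nat_lit 2) true (nat_lit 14) true (nat_lit 13) (.s true (nat_lit 2) (nat_lit 14) (nat_lit 1) (nat_lit 4) (nat_lit 1) false (nat_lit 16) true (nat_lit 13) true (nat_lit 2) true (nat_lit 13) true (nat_lit 10) (.s false (nat_lit 3) (nat_lit 14) (nat_lit 2) (nat_lit 3) (nat_lit 1) true (nat_lit 9) true (nat_lit 13) true (nat_lit 2) true (nat_lit 12) true (nat_lit 11) (.s false (nat_lit 2) (nat_lit 15) (nat_lit 2) (nat_lit 3) (nat_lit 1) true (nat_lit 9) true (nat_lit 13) true (nat_lit 2) true (nat_lit 12) true (nat_lit 11) (.s true (nat_lit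 3) (nat_lit 15) (nat_lit 4) (nat_lit 1) (nat_lit 1) true (nat_lit 4) true (nat_lit 13) true (nat_lit 2) true (nat_lit 10) true (nat_lit 13) (.s false (nat_lit 2) (nat_lit 15) (nat_lit 5) (nat_lit 0) (nat_lit 1) true (nat_lit 3) true (nat_lit 13) true (nat_lit 2) true (nat_lit 9) true (nat_lit 14) (.s true (nat_lit 3) (nat_lit 16) (nat_lit 0) (nat_lit 0) (nat_lit 5) true (nat_lit 4) true (nat_lit 9) true (nat_lit 1) true (nat_lit 14) true (nat_lit 14) (.s false (nat_lit 3) (nat_lit 16) (nat_lit 5) (nat_lit 0) (nat_lit 0) true (nat_lit 4) true (nat_lit 14) true (nat_lit 1) true (nat_lit 9) true (nat_lit 14) (.s false (nat_lit 3) (nat_lit 19) (nat_lit 2) (nat_lit 2) (nat_lit 2) true (nat_lit 8) true (nat_lit 12) false (nat_lit 0) true (nat_lit 12) true (nat_lit 12) (.s false (nat_lit 3) (nat_lit 20) (nat_lit 1) (nat_lit 2) (nat_lit 2) true (nat_lit 9) true (nat_lit 12) false (nat_lit 1)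 true (nat_lit 13) true (nat_lit 12) (.s true (nat_lit 3) (nat_lit 23) (nat_lit 1) (nat_lit 2) (nat_lit 2) true (nat_lit 9) true (nat_lit 12) false (nat_lit 1) true (nat_lit 13) true (nat_lit 12) (.s true (nat_lit 1) (nat_lit 20) (nat_lit 2) (nat_lit 1) (nat_lit 2) true (nat_lit 8) true (nat_lit 12) false (nat_lit 1) true (nat_lit 12) true (nat_lit 13) (.s true (nat_lit 3) (nat_lit 24) (nat_lit 0) (nat_lit 2) (nat_lit 2) true (nat_lit 10) true (nat_lit 12) false (nat_lit 2) true (nat_lit 14) true (nat_lit 12) (.s true (nat_lit 2) (nat_lit 24) (nat_lit 2) (nat_lit 0) (nat_lit 2) true (nat_lit 8) true (nat_lit 12) false (nat_lit 2) true (nat_lit 12) true (nat_lit 14) (.s true (nat_lit 3) (nat_lit 24) (nat_lit 2) (nat_lit 2) (nat_lit 0) true (nat_lit 10) true (nat_lit 14) false (nat_lit 2) true (nat_lit 12) true (nat_lit 12) (.s true (nat_lit 3) (nat_lit 26) (nat_lit 2) (nat_lit 2) (nat_lit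 0) true (nat_lit 10) true (nat_lit 14) false (nat_lit 2) true (nat_lit 12) true (nat_lit 12) (.s true (nat_lit 2) (nat_lit 29) (nat_lit 1) (nat_lit 1) (nat_lit 2) true (nat_lit 9) true (nat_lit 12) false (nat_lit 3) true (nat_lit 13) true (nat_lit 13) (.s false (nat_lit 1) (nat_lit 30) (nat_lit 1) (nat_lit 1) (nat_lit 2) true (nat_lit 9) true (nat_lit 12) false (nat_lit 3) true (nat_lit 13) true (nat_lit 13) dC1c_i122)))))))))))))))))))))))))

noncomputable def dC1c_i124 : IL := (.e true (nat_lit 2) (nat_lit 224) (nat_lit 2) (nat_lit 17) (.e false (nat_lit 1) (nat_lit 227) (nat_lit 2) (nat_lit 17) (.e false (nat_lit 1) (nat_lit 231) (nat_lit 2) (nat_lit 17) (.e false (nat_lit 1) (nat_lit 232) (nat_lit 2) (nat_lit 17) (.e false (nat_lit 1) (nat_lit 233) (nat_lit 2) (nat_lit 17) (.e false (nat_lit 2) (nat_lit 235) (nat_lit 2) (nat_lit 17) (.e false (nat_lit 2) (nat_lit 237) (nat_lit 2)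 (nat_lit 17) (.e true (nat_lit 3) (nat_lit 238) (nat_lit 2) (nat_lit 17) (.e true (nat_lit 3) (nat_lit 240) (nat_lit 2) (nat_lit 17) (.e true (nat_lit 2) (nat_lit 242) (nat_lit 2) (nat_lit 17) (.e false (nat_lit 3) (nat_lit 226) (nat_lit 2) (nat_lit 17) (.e true (nat_lit 3) (nat_lit 239) (nat_lit 2) (nat_lit 17) (.e false (nat_lit 1) (nat_lit 241) (nat_lit 2) (nat_lit 17) (.e true (nat_lit 2) (nat_lit 243) (nat_lit 2) (nat_lit 17) (.e true (nat_lit 3) (nat_lit 244) (nat_lit 2) (nat_lit 17) (.e true (nat_lit 2) (nat_lit 248) (nat_lit 2) (nat_lit 17) (.e false (nat_lit 2) (nat_lit 225) (nat_lit 2) (nat_lit 17) (.e true (nat_lit 1) (nat_lit 228) (nat_lit 2) (nat_lit 17) (.e false (nat_lit 3) (nat_lit 230) (nat_lit 2) (nat_lit 17) (.e false (nat_lit 3) (nat_lit 234) (nat_lit 2) (nat_lit 17) (.e true (nat_lit 2) (nat_lit 246) (nat_lit 2) (nat_lit 17) (.e false (nat_lit 3) (nat_lit 245) (nat_lit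 2) (nat_lit 17) (.e false (nat_lit 2) (nat_lit 249) (nat_lit 2) (nat_lit 17) (.e false (nat_lit 1) (nat_lit 298) (nat_lit 0) (nat_lit 19) (.u (nat_lit 2) (.p (nat_lit 0) (nat_lit 2) (.p (nat_lit 1) (nat_lit 3) (.n (nat_lit 3) (nat_lit 2) (.n (nat_lit 5) (nat_lit 3) (.n (nat_lit 6) (nat_lit 1) (.p (nat_lit 7) (nat_lit 2) (.n (nat_lit 8) (nat_lit 1) (.n (nat_lit 9) (nat_lit 3) (.n (nat_lit 11) (nat_lit 3) (.n (nat_lit 12) (nat_lit 2) (.p (nat_lit 13) (nat_lit 1) (.n (nat_lit 14) (nat_lit 4) (.n (nat_lit 15) (nat_lit 2) (.p (nat_lit 17) (nat_lit 2) (.n (nat_lit 18) (nat_lit 2) (.p (nat_lit 19) (nat_lit 2) (.p (nat_lit 20) (nat_lit 1) (.n (nat_lit 26) (nat_lit 4) (.p (nat_lit 27) (nat_lit 4) (.p (nat_lit 28) (nat_lit 1) (.n (nat_lit 29) (nat_lit 3) (.n (nat_lit 30) (nat_lit 2) (.n (nat_lit 31) (nat_lit 4) (.n (nat_lit 32) (nat_lit 7) (.n (nat_lit 33) (nat_lit 1) (.p (nat_lit 34) (nat_lit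 2) (.p (nat_lit 35) (nat_lit 1) (.n (nat_lit 37) (nat_lit 1) (.p (nat_lit 38) (nat_lit 4) (.n (nat_lit 39) (nat_lit 2) (.n (nat_lit 40) (nat_lit 1) (.p (nat_lit 41) (nat_lit 1) (.n (nat_lit 46) (nat_lit 1) (.n (nat_lit 49) (nat_lit 1) (.p (nat_lit 53) (nat_lit 1) (.p (nat_lit 54) (nat_lit 3) (.p (nat_lit 55) (nat_lit 2) (.p (nat_lit 56) (nat_lit 1) (.p (nat_lit 57) (nat_lit 1) (.n (nat_lit 58) (nat_lit 1) (.n (nat_lit 64) (nat_lit 1) (.p (nat_lit 69) (nat_lit 2) (.n (nat_lit 70) (nat_lit 1) (.n (nat_lit 334) (nat_lit 1) (.p (nat_lit 335) (nat_lit 1) (.p (nat_lit 339) (nat_lit 1) (.n (nat_lit 340) (nat_lit 1) (.n (nat_lit 341) (nat_lit 2) (.n (nat_lit 345) (nat_lit 1) (.p (nat_lit 346) (nat_lit 1) (.n (nat_lit 347) (nat_lit 1) (.n (nat_lit 348) (nat_lit 1) (.n (nat_lit 349) (nat_lit 1) (.n (nat_lit 351) (nat_lit 1) (.n (nat_lit 355) (nat_lit 1) (.n (nat_lit 356) (nat_lit 1) (.p (nat_lit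 361) (nat_lit 1) (.p (nat_lit 363) (nat_lit 1) .z)))))))))))))))))))))))))))))))))))))))))))))))))))))))))) .nil)))))))))))))))))))))))))

noncomputable def dC1c_i125 : IL := (.e false (nat_lit 3) (nat_lit 137) (nat_lit 1) (nat_lit 13) (.e false (nat_lit 2) (nat_lit 138) (nat_lit 1) (nat_lit 13) (.e true (nat_lit 3) (nat_lit 139) (nat_lit 1) (nat_lit 13) (.e false (nat_lit 2) (nat_lit 141) (nat_lit 1) (nat_lit 13) (.e false (nat_lit 2) (nat_lit 142) (nat_lit 1) (nat_lit 13) (.e true (nat_lit 3) (nat_lit 144) (nat_lit 1) (nat_lit 13) (.e false (nat_lit 1) (nat_lit 149) (nat_lit 1) (nat_lit 13) (.e true (nat_lit 2) (nat_lit 140) (nat_lit 1) (nat_lit 13) (.e false (nat_lit 2) (nat_lit 134) (nat_lit 1) (nat_lit 13) (.e false (nat_lit 2) (nat_lit 135) (nat_lit 1) (nat_lit 13) (.e true (nat_lit 2) (nat_lit 152) (nat_lit 1) (nat_lit 13) (.e true (nat_lit 2) (nat_lit 108) (nat_lit 2) (nat_lit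 12) (.e true (nat_lit 1) (nat_lit 119) (nat_lit 2) (nat_lit 12) (.e false (nat_lit 2) (nat_lit 111) (nat_lit 2) (nat_lit 12) (.e false (nat_lit 1) (nat_lit 114) (nat_lit 2) (nat_lit 12) (.e true (nat_lit 2) (nat_lit 116) (nat_lit 2) (nat_lit 12) (.e false (nat_lit 3) (nat_lit 107) (nat_lit 2) (nat_lit 12) (.e true (nat_lit 1) (nat_lit 112) (nat_lit 2) (nat_lit 12) (.e true (nat_lit 1) (nat_lit 109) (nat_lit 2) (nat_lit 12) (.e true (nat_lit 3) (nat_lit 156) (nat_lit 0) (nat_lit 14) (.e true (nat_lit 2) (nat_lit 162) (nat_lit 0) (nat_lit 14) (.e false (nat_lit 1) (nat_lit 169) (nat_lit 0) (nat_lit 14) (.e true (nat_lit 3) (nat_lit 110) (nat_lit 2) (nat_lit 12) (.u (nat_lit 2) (.n (nat_lit 0) (nat_lit 1) (.n (nat_lit 1) (nat_lit 2) (.p (nat_lit 2) (nat_lit 1) (.n (nat_lit 3) (nat_lit 1) (.p (nat_lit 5) (nat_lit 1) (.p (nat_lit 7) (nat_lit 1) (.n (nat_lit 8) (nat_lit 1) (.p (nat_lit 10)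 (nat_lit 1) (.p (nat_lit 11) (nat_lit 1) (.n (nat_lit 12) (nat_lit 2) (.n (nat_lit 15) (nat_lit 3) (.p (nat_lit 16) (nat_lit 1) (.n (nat_lit 19) (nat_lit 2) (.n (nat_lit 21) (nat_lit 1) (.n (nat_lit 24) (nat_lit 2) (.n (nat_lit 26) (nat_lit 1) (.n (nat_lit 27) (nat_lit 2) (.n (nat_lit 28) (nat_lit 1) (.p (nat_lit 29) (nat_lit 2) (.n (nat_lit 31) (nat_lit 1) (.p (nat_lit 33) (nat_lit 1) (.p (nat_lit 39) (nat_lit 1) (.n (nat_lit 40) (nat_lit 1) (.n (nat_lit 44) (nat_lit 1) (.p (nat_lit 57) (nat_lit 1) (.p (nat_lit 59) (nat_lit 1) (.n (nat_lit 65) (nat_lit 1) (.p (nat_lit 74) (nat_lit 1) (.n (nat_lit 77) (nat_lit 1) (.p (nat_lit 79) (nat_lit 1) (.p (nat_lit 89) (nat_lit 1) (.n (nat_lit 90) (nat_lit 1) (.n (nat_lit 91) (nat_lit 1) (.p (nat_lit 93) (nat_lit 1) (.p (nat_lit 103) (nat_lit 1) (.n (nat_lit 104) (nat_lit 1) (.p (nat_lit 105) (nat_lit 2) (.p (nat_lit 106) (nat_lit 1) (.p (nat_lit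 107) (nat_lit 3) (.p (nat_lit 109) (nat_lit 1) (.p (nat_lit 110) (nat_lit 1) (.n (nat_lit 112) (nat_lit 3) (.p (nat_lit 113) (nat_lit 4) (.p (nat_lit 120) (nat_lit 1) (.n (nat_lit 124) (nat_lit 2) (.n (nat_lit 125) (nat_lit 2) (.n (nat_lit 126) (nat_lit 3) (.n (nat_lit 128) (nat_lit 1) (.p (nat_lit 129) (nat_lit 2) (.n (nat_lit 130) (nat_lit 2) (.p (nat_lit 134) (nat_lit 1) (.p (nat_lit 136) (nat_lit 1) (.p (nat_lit 137) (nat_lit 1) (.p (nat_lit 138) (nat_lit 2) (.n (nat_lit 140) (nat_lit 1) (.p (nat_lit 141) (nat_lit 1) (.p (nat_lit 143) (nat_lit 1) (.n (nat_lit 145) (nat_lit 2) (.n (nat_lit 147) (nat_lit 1) (.p (nat_lit 148) (nat_lit 2) .z)))))))))))))))))))))))))))))))))))))))))))))))))))))))))))) (.u (nat_lit 2) (.n (nat_lit 149) (nat_lit 3) (.p (nat_lit 150) (nat_lit 2) (.p (nat_lit 151) (nat_lit 1) (.p (nat_lit 152) (nat_lit 1) (.p (nat_lit 153) (nat_lit 1) (.n (nat_lit 154) (nat_lit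 1) (.p (nat_lit 155) (nat_lit 1) (.p (nat_lit 158) (nat_lit 1) (.p (nat_lit 160) (nat_lit 1) (.n (nat_lit 161) (nat_lit 5) (.p (nat_lit 162) (nat_lit 8) (.n (nat_lit 163) (nat_lit 8) (.n (nat_lit 164) (nat_lit 13) (.n (nat_lit 165) (nat_lit 3) (.p (nat_lit 166) (nat_lit 3) (.p (nat_lit 167) (nat_lit 4) (.n (nat_lit 168) (nat_lit 13) (.p (nat_lit 169) (nat_lit 15) (.p (nat_lit 170) (nat_lit 4) (.p (nat_lit 171) (nat_lit 25) (.n (nat_lit 172) (nat_lit 4) (.n (nat_lit 173) (nat_lit 4) (.p (nat_lit 174) (nat_lit 5) (.n (nat_lit 175) (nat_lit 2) (.p (nat_lit 176) (nat_lit 2) (.n (nat_lit 177) (nat_lit 4) (.n (nat_lit 178) (nat_lit 9) (.n (nat_lit 179) (nat_lit 10) (.p (nat_lit 180) (nat_lit 1) (.p (nat_lit 181) (nat_lit 16) (.n (nat_lit 182) (nat_lit 3) (.n (nat_lit 183) (nat_lit 2) (.p (nat_lit 184) (nat_lit 7) (.n (nat_lit 186) (nat_lit 2) (.n (nat_lit 187) (nat_lit 1) (.p (nat_lit 188)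 (nat_lit 8) (.n (nat_lit 189) (nat_lit 4) (.p (nat_lit 190) (nat_lit 4) (.p (nat_lit 191) (nat_lit 1) (.p (nat_lit 193) (nat_lit 2) (.p (nat_lit 195) (nat_lit 2) (.p (nat_lit 196) (nat_lit 3) (.n (nat_lit 197) (nat_lit 1) (.p (nat_lit 198) (nat_lit 1) (.n (nat_lit 199) (nat_lit 2) (.p (nat_lit 201) (nat_lit 1) (.n (nat_lit 202) (nat_lit 1) .z))))))))))))))))))))))))))))))))))))))))))))))) .nil)))))))))))))))))))))))))

noncomputable def dC1c_i126 : IL := (.s false (nat_lit 1) (nat_lit 43) (nat_lit 1) (nat_lit 0) (nat_lit 0) true (nat_lit 11) true (nat_lit 14) false (nat_lit 7) true (nat_lit 13) true (nat_lit 14) (.s true (nat_lit 3) (nat_lit 44) (nat_lit 1) (nat_lit 0) (nat_lit 0) true (nat_lit 11) true (nat_lit 14) false (nat_lit 7) true (nat_lit 13) true (nat_lit 14) (.e true (nat_lit 1) (nat_lit 73) (nat_lit 4) (nat_lit 10) (.e true (nat_lit 3) (nat_lit 60) (nat_lit 5) (nat_lit 9)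 (.e false (nat_lit 3) (nat_lit 61) (nat_lit 5) (nat_lit 9) (.e true (nat_lit 2) (nat_lit 157) (nat_lit 0) (nat_lit 14) (.e false (nat_lit 2) (nat_lit 164) (nat_lit 0) (nat_lit 14) (.e false (nat_lit 1) (nat_lit 167) (nat_lit 0) (nat_lit 14) (.e true (nat_lit 3) (nat_lit 155) (nat_lit 0) (nat_lit 14) (.e false (nat_lit 1) (nat_lit 158) (nat_lit 0) (nat_lit 14) (.e true (nat_lit 2) (nat_lit 163) (nat_lit 0) (nat_lit 14) (.e true (nat_lit 3) (nat_lit 165) (nat_lit 0) (nat_lit 14) (.e true (nat_lit 2) (nat_lit 168) (nat_lit 0) (nat_lit 14) (.e true (nat_lit 1) (nat_lit 172) (nat_lit 0) (nat_lit 14) (.e true (nat_lit 2) (nat_lit 153) (nat_lit 0) (nat_lit 14) (.e true (nat_lit 3) (nat_lit 159) (nat_lit 0) (nat_lit 14) (.e false (nat_lit 2) (nat_lit 160) (nat_lit 0) (nat_lit 14) (.e true (nat_lit 2) (nat_lit 161) (nat_lit 0) (nat_lit 14) (.e true (nat_lit 2) (nat_lit 173) (nat_lit 0) (nat_lit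 14) (.e true (nat_lit 3) (nat_lit 154) (nat_lit 0) (nat_lit 14) (.e false (nat_lit 3) (nat_lit 28) (nat_lit 13) (nat_lit 3) (.e false (nat_lit 1) (nat_lit 29) (nat_lit 13) (nat_lit 3) (.e false (nat_lit 1) (nat_lit 30) (nat_lit 13) (nat_lit 3) (.e true (nat_lit 3) (nat_lit 132) (nat_lit 1) (nat_lit 13) (.e false (nat_lit 1) (nat_lit 136) (nat_lit 1) (nat_lit 13) dC1c_i125)))))))))))))))))))))))))

noncomputable def dC1c_i127 : IL := (.s false (nat_lit 2) (nat_lit 20) (nat_lit 1) (nat_lit 2) (nat_lit 2) true (nat_lit 9) true (nat_lit 12) false (nat_lit 1) true (nat_lit 13) true (nat_lit 12) (.s false (nat_lit 1) (nat_lit 21) (nat_lit 2) (nat_lit 2) (nat_lit 1) true (nat_lit 9) true (nat_lit 13) false (nat_lit 1) true (nat_lit 12) true (nat_lit 12) (.s true (nat_lit 2) (nat_lit 24) (nat_lit 0) (nat_lit 2) (nat_lit 2) true (nat_lit 10) true (nat_lit 12) false (nat_lit 2) true (nat_lit 14)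 true (nat_lit 12) (.s false (nat_lit 3) (nat_lit 26) (nat_lit 0) (nat_lit 2) (nat_lit 2) true (nat_lit 10) true (nat_lit 12) false (nat_lit 2) true (nat_lit 14) true (nat_lit 12) (.s true (nat_lit 3) (nat_lit 24) (nat_lit 2) (nat_lit 0) (nat_lit 2) true (nat_lit 8) true (nat_lit 12) false (nat_lit 2) true (nat_lit 12) true (nat_lit 14) (.s true (nat_lit 1) (nat_lit 24) (nat_lit 2) (nat_lit 2) (nat_lit 0) true (nat_lit 10) true (nat_lit 14) false (nat_lit 2) true (nat_lit 12) true (nat_lit 12) (.s true (nat_lit 1) (nat_lit 26) (nat_lit 2) (nat_lit 2) (nat_lit 0) true (nat_lit 10) true (nat_lit 14) false (nat_lit 2) true (nat_lit 12) true (nat_lit 12) (.s false (nat_lit 2) (nat_lit 29) (nat_lit 1) (nat_lit 1) (nat_lit 2) true (nat_lit 9) true (nat_lit 12) false (nat_lit 3) true (nat_lit 13) true (nat_lit 13) (.s true (nat_lit 2) (nat_lit 30) (nat_lit 1) (nat_lit 1) (nat_lit 2) true (nat_lit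 9) true (nat_lit 12) false (nat_lit 3) true (nat_lit 13) true (nat_lit 13) (.s false (nat_lit 1) (nat_lit 35) (nat_lit 0) (nat_lit 2) (nat_lit 1) true (nat_lit 11) true (nat_lit 13) false (nat_lit 4) true (nat_lit 14) true (nat_lit 12) (.s false (nat_lit 1) (nat_lit 32) (nat_lit 1) (nat_lit 2) (nat_lit 0) true (nat_lit 11) true (nat_lit 14) false (nat_lit 4) true (nat_lit 13) true (nat_lit 12) (.s false (nat_lit 3) (nat_lit 36) (nat_lit 1) (nat_lit 2) (nat_lit 0) true (nat_lit 11) true (nat_lit 14) false (nat_lit 4) true (nat_lit 13) true (nat_lit 12) (.s true (nat_lit 1) (nat_lit 35) (nat_lit 2) (nat_lit 0) (nat_lit 1) true (nat_lit 9) true (nat_lit 13) false (nat_lit 4) true (nat_lit 12) true (nat_lit 14) (.s true (nat_lit 1) (nat_lit 38) (nat_lit 2) (nat_lit 0) (nat_lit 0) true (nat_lit 10) true (nat_lit 14) false (nat_lit 5) true (nat_lit 12) true (nat_lit 14) (.s false (nat_lit 3)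 (nat_lit 39) (nat_lit 2) (nat_lit 0) (nat_lit 0) true (nat_lit 10) true (nat_lit 14) false (nat_lit 5) true (nat_lit 12) true (nat_lit 14) (.s false (nat_lit 3) (nat_lit 40) (nat_lit 0) (nat_lit 1) (nat_lit 1) true (nat_lit 11) true (nat_lit 13) false (nat_lit 6) true (nat_lit 14) true (nat_lit 13) (.s true (nat_lit 3) (nat_lit 42) (nat_lit 0) (nat_lit 1) (nat_lit 1) true (nat_lit 11) true (nat_lit 13) false (nat_lit 6) true (nat_lit 14) true (nat_lit 13) (.s false (nat_lit 1) (nat_lit 41) (nat_lit 1) (nat_lit 0) (nat_lit 1) false (nat_lit 16) true (nat_lit 13) false (nat_lit 6) true (nat_lit 13) true (nat_lit 14) (.s false (nat_lit 1) (nat_lit 42) (nat_lit 1) (nat_lit 0) (nat_lit 1) false (nat_lit 16) true (nat_lit 13) false (nat_lit 6) true (nat_lit 13) true (nat_lit 14) (.s true (nat_lit 2) (nat_lit 40) (nat_lit 1) (nat_lit 1) (nat_lit 0) true (nat_lit 11) true (nat_lit 14) false (nat_lit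 6) true (nat_lit 13) true (nat_lit 13) (.s false (nat_lit 2) (nat_lit 41) (nat_lit 1) (nat_lit 1) (nat_lit 0) true (nat_lit 11) true (nat_lit 14) false (nat_lit 6) true (nat_lit 13) true (nat_lit 13) (.s true (nat_lit 2) (nat_lit 43) (nat_lit 0) (nat_lit 0) (nat_lit 1) true (nat_lit 11) true (nat_lit 13) false (nat_lit 7) true (nat_lit 14) true (nat_lit 14) (.s false (nat_lit 2) (nat_lit 45) (nat_lit 0) (nat_lit 0) (nat_lit 1) true (nat_lit 11) true (nat_lit 13) false (nat_lit 7) true (nat_lit 14) true (nat_lit 14) (.s false (nat_lit 1) (nat_lit 44) (nat_lit 0) (nat_lit 1) (nat_lit 0) false (nat_lit 15) true (nat_lit 14) false (nat_lit 7) true (nat_lit 14) true (nat_lit 13) (.s true (nat_lit 3) (nat_lit 45) (nat_lit 0) (nat_lit 1) (nat_lit 0) false (nat_lit 15) true (nat_lit 14) false (nat_lit 7) true (nat_lit 14) true (nat_lit 13) dC1c_i126)))))))))))))))))))))))))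

noncomputable def dC1c_i128 : IL := (.s true (nat_lit 2) (nat_lit 9) (nat_lit 1) (nat_lit 2) (nat_lit 5) true (nat_lit 3) true (nat_lit 9) true (nat_lit 5) true (nat_lit 13) true (nat_lit 12) (.s true (nat_lit 1) (nat_lit 9) (nat_lit 1) (nat_lit 5) (nat_lit 2) true (nat_lit 9) true (nat_lit 12) true (nat_lit 5) true (nat_lit 13) true (nat_lit 9) (.s true (nat_lit 2) (nat_lit 9) (nat_lit 1) (nat_lit 6) (nat_lit 1) false (nat_lit 16) true (nat_lit 13) true (nat_lit 5) true (nat_lit 13) true (nat_lit 8) (.s false (nat_lit 2) (nat_lit 11) (nat_lit 0) (nat_lit 1) (nat_lit 6) true (nat_lit 2) true (nat_lit 8) true (nat_lit 4) true (nat_lit 14) true (nat_lit 13) (.s true (nat_lit 1) (nat_lit 11) (nat_lit 0) (nat_lit 2) (nat_lit 5) true (nat_lit 4) true (nat_lit 9) true (nat_lit 4) true (nat_lit 14) true (nat_lit 12) (.s false (nat_lit 2) (nat_lit 11) (nat_lit 1) (nat_lit 2) (nat_lit 4) true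 (nat_lit 4) true (nat_lit 10) true (nat_lit 4) true (nat_lit 13) true (nat_lit 12) (.s false (nat_lit 2) (nat_lit 11) (nat_lit 1) (nat_lit 4) (nat_lit 2) true (nat_lit 9) true (nat_lit 12) true (nat_lit 4) true (nat_lit 13) true (nat_lit 10) (.s false (nat_lit 2) (nat_lit 11) (nat_lit 1) (nat_lit 6) (nat_lit 0) true (nat_lit 11) true (nat_lit 14) true (nat_lit 4) true (nat_lit 13) true (nat_lit 8) (.s true (nat_lit 3) (nat_lit 11) (nat_lit 4) (nat_lit 2) (nat_lit 1) true (nat_lit 4) true (nat_lit 13) true (nat_lit 4) true (nat_lit 10) true (nat_lit 12) (.s true (nat_lit 1) (nat_lit 13) (nat_lit 0) (nat_lit 4) (nat_lit 2) true (nat_lit 10) true (nat_lit 12) true (nat_lit 3) true (nat_lit 14) true (nat_lit 10) (.s false (nat_lit 1) (nat_lit 13) (nat_lit 2) (nat_lit 4) (nat_lit 0) true (nat_lit 10) true (nat_lit 14) true (nat_lit 3) true (nat_lit 12) true (nat_lit 10) (.s true (nat_lit 1)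 (nat_lit 13) (nat_lit 6) (nat_lit 0) (nat_lit 0) true (nat_lit 2) true (nat_lit 14) true (nat_lit 3) true (nat_lit 8) true (nat_lit 14) (.s false (nat_lit 2) (nat_lit 14) (nat_lit 0) (nat_lit 1) (nat_lit 5) true (nat_lit 4) true (nat_lit 9) true (nat_lit 2) true (nat_lit 14) true (nat_lit 13) (.s false (nat_lit 3) (nat_lit 14) (nat_lit 1) (nat_lit 0) (nat_lit 5) true (nat_lit 3) true (nat_lit 9) true (nat_lit 2) true (nat_lit 13) true (nat_lit 14) (.s false (nat_lit 1) (nat_lit 14) (nat_lit 1) (nat_lit 2) (nat_lit 3) true (nat_lit 6) true (nat_lit 11) true (nat_lit 2) true (nat_lit 13) true (nat_lit 12) (.s true (nat_lit 1) (nat_lit 14) (nat_lit 1) (nat_lit 4) (nat_lit 1) false (nat_lit 16) true (nat_lit 13) true (nat_lit 2) true (nat_lit 13) true (nat_lit 10) (.s true (nat_lit 1) (nat_lit 14) (nat_lit 1) (nat_lit 5) (nat_lit 0) true (nat_lit 11) true (nat_lit 14) true (nat_lit 2) true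 (nat_lit 13) true (nat_lit 9) (.s false (nat_lit 2) (nat_lit 15) (nat_lit 1) (nat_lit 5) (nat_lit 0) true (nat_lit 11) true (nat_lit 14) true (nat_lit 2) true (nat_lit 13) true (nat_lit 9) (.s true (nat_lit 3) (nat_lit 14) (nat_lit 2) (nat_lit 3) (nat_lit 1) true (nat_lit 9) true (nat_lit 13) true (nat_lit 2) true (nat_lit 12) true (nat_lit 11) (.s false (nat_lit 1) (nat_lit 15) (nat_lit 2) (nat_lit 3) (nat_lit 1) true (nat_lit 9) true (nat_lit 13) true (nat_lit 2) true (nat_lit 12) true (nat_lit 11) (.s true (nat_lit 3) (nat_lit 15) (nat_lit 4) (nat_lit 1) (nat_lit 1) true (nat_lit 4) true (nat_lit 13) true (nat_lit 2) true (nat_lit 10) true (nat_lit 13) (.s false (nat_lit 1) (nat_lit 15) (nat_lit 5) (nat_lit 0) (nat_lit 1) true (nat_lit 3) true (nat_lit 13) true (nat_lit 2) true (nat_lit 9) true (nat_lit 14) (.s false (nat_lit 2) (nat_lit 14) (nat_lit 5) (nat_lit 1) (nat_lit 0) true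 (nat_lit 4) true (nat_lit 14) true (nat_lit 2) true (nat_lit 9) true (nat_lit 13) (.s true (nat_lit 3) (nat_lit 16) (nat_lit 0) (nat_lit 0) (nat_lit 5) true (nat_lit 4) true (nat_lit 9) true (nat_lit 1) true (nat_lit 14) true (nat_lit 14) (.s true (nat_lit 3) (nat_lit 17) (nat_lit 0) (nat_lit 4) (nat_lit 1) true (nat_lit 11) true (nat_lit 13) true (nat_lit 1) true (nat_lit 14) true (nat_lit 10) dC1c_i127)))))))))))))))))))))))))

noncomputable def dC1c_i129 : IL := (.e false (nat_lit 1) (nat_lit 228) (nat_lit 2) (nat_lit 17) (.e true (nat_lit 1) (nat_lit 230) (nat_lit 2) (nat_lit 17) (.e false (nat_lit 3) (nat_lit 231) (nat_lit 2) (nat_lit 17) (.e false (nat_lit 1) (nat_lit 232) (nat_lit 2) (nat_lit 17) (.e false (nat_lit 2) (nat_lit 233) (nat_lit 2) (nat_lit 17) (.e true (nat_lit 3) (nat_lit 234) (nat_lit 2) (nat_lit 17) (.e true (nat_lit 1) (nat_lit 236) (nat_lit 2) (nat_lit 17) (.e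 true (nat_lit 3) (nat_lit 237) (nat_lit 2) (nat_lit 17) (.e true (nat_lit 2) (nat_lit 238) (nat_lit 2) (nat_lit 17) (.e false (nat_lit 3) (nat_lit 239) (nat_lit 2) (nat_lit 17) (.e true (nat_lit 1) (nat_lit 240) (nat_lit 2) (nat_lit 17) (.e true (nat_lit 2) (nat_lit 241) (nat_lit 2) (nat_lit 17) (.e true (nat_lit 3) (nat_lit 243) (nat_lit 2) (nat_lit 17) (.e false (nat_lit 2) (nat_lit 245) (nat_lit 2) (nat_lit 17) (.e false (nat_lit 2) (nat_lit 246) (nat_lit 2) (nat_lit 17) (.e true (nat_lit 2) (nat_lit 247) (nat_lit 2) (nat_lit 17) (.e false (nat_lit 3) (nat_lit 248) (nat_lit 2) (nat_lit 17) (.e false (nat_lit 1) (nat_lit 249) (nat_lit 2) (nat_lit 17) (.e true (nat_lit 1) (nat_lit 250) (nat_lit 2) (nat_lit 17) (.e true (nat_lit 2) (nat_lit 277) (nat_lit 1) (nat_lit 18) (.e false (nat_lit 3) (nat_lit 242) (nat_lit 2) (nat_lit 17) (.e true (nat_lit 2) (nat_lit 212) (nat_lit 2) (nat_lit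 17) (.e true (nat_lit 3) (nat_lit 244) (nat_lit 2) (nat_lit 17) (.u (nat_lit 2) (.n (nat_lit 0) (nat_lit 3) (.n (nat_lit 1) (nat_lit 2) (.p (nat_lit 2) (nat_lit 1) (.p (nat_lit 3) (nat_lit 3) (.n (nat_lit 4) (nat_lit 2) (.p (nat_lit 5) (nat_lit 1) (.p (nat_lit 6) (nat_lit 5) (.n (nat_lit 7) (nat_lit 2) (.p (nat_lit 8) (nat_lit 1) (.n (nat_lit 9) (nat_lit 4) (.p (nat_lit 10) (nat_lit 3) (.p (nat_lit 11) (nat_lit 2) (.n (nat_lit 12) (nat_lit 1) (.p (nat_lit 13) (nat_lit 1) (.n (nat_lit 14) (nat_lit 3) (.n (nat_lit 15) (nat_lit 2) (.n (nat_lit 17) (nat_lit 2) (.p (nat_lit 20) (nat_lit 1) (.n (nat_lit 21) (nat_lit 1) (.p (nat_lit 23) (nat_lit 1) (.p (nat_lit 24) (nat_lit 1) (.p (nat_lit 25) (nat_lit 1) (.n (nat_lit 26) (nat_lit 2) (.p (nat_lit 27) (nat_lit 2) (.p (nat_lit 28) (nat_lit 2) (.p (nat_lit 29) (nat_lit 1) (.p (nat_lit 31) (nat_lit 5) (.p (nat_lit 32) (nat_lit 1) (.p (nat_lit 33)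 (nat_lit 5) (.p (nat_lit 34) (nat_lit 1) (.p (nat_lit 35) (nat_lit 2) (.n (nat_lit 36) (nat_lit 3) (.p (nat_lit 38) (nat_lit 4) (.n (nat_lit 40) (nat_lit 6) (.n (nat_lit 41) (nat_lit 1) (.n (nat_lit 45) (nat_lit 1) (.p (nat_lit 46) (nat_lit 1) (.n (nat_lit 48) (nat_lit 1) (.n (nat_lit 49) (nat_lit 2) (.n (nat_lit 50) (nat_lit 3) (.p (nat_lit 51) (nat_lit 1) (.n (nat_lit 52) (nat_lit 1) (.p (nat_lit 53) (nat_lit 2) (.n (nat_lit 54) (nat_lit 2) (.p (nat_lit 55) (nat_lit 4) (.p (nat_lit 56) (nat_lit 1) (.p (nat_lit 57) (nat_lit 1) (.n (nat_lit 58) (nat_lit 1) (.n (nat_lit 63) (nat_lit 2) (.p (nat_lit 64) (nat_lit 1) (.p (nat_lit 67) (nat_lit 1) (.n (nat_lit 69) (nat_lit 1) (.p (nat_lit 70) (nat_lit 1) (.p (nat_lit 331) (nat_lit 1) (.n (nat_lit 332) (nat_lit 1) (.n (nat_lit 333) (nat_lit 1) (.n (nat_lit 335) (nat_lit 1) (.n (nat_lit 336) (nat_lit 1) (.n (nat_lit 337) (nat_lit 1) (.n (nat_lit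 338) (nat_lit 1) .z)))))))))))))))))))))))))))))))))))))))))))))))))))))))))))) (.u (nat_lit 2) (.n (nat_lit 339) (nat_lit 1) (.n (nat_lit 340) (nat_lit 1) (.p (nat_lit 343) (nat_lit 1) (.n (nat_lit 345) (nat_lit 1) (.n (nat_lit 346) (nat_lit 1) (.n (nat_lit 347) (nat_lit 1) (.n (nat_lit 349) (nat_lit 1) (.n (nat_lit 351) (nat_lit 1) (.p (nat_lit 352) (nat_lit 1) (.n (nat_lit 354) (nat_lit 1) (.n (nat_lit 355) (nat_lit 1) (.p (nat_lit 356) (nat_lit 2) (.n (nat_lit 357) (nat_lit 1) (.n (nat_lit 358) (nat_lit 1) (.p (nat_lit 359) (nat_lit 1) (.n (nat_lit 361) (nat_lit 2) (.p (nat_lit 362) (nat_lit 2) (.p (nat_lit 363) (nat_lit 1) (.p (nat_lit 364) (nat_lit 1) (.n (nat_lit 365) (nat_lit 1) .z)))))))))))))))))))) .nil)))))))))))))))))))))))))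

noncomputable def dC1c_i130 : IL := (.e false (nat_lit 1) (nat_lit 124) (nat_lit 2) (nat_lit 12) (.e false (nat_lit 1) (nat_lit 135) (nat_lit 1) (nat_lit 13) (.e false (nat_lit 2) (nat_lit 154) (nat_lit 0) (nat_lit 14) (.e false (nat_lit 3) (nat_lit 157) (nat_lit 0) (nat_lit 14) (.e false (nat_lit 1) (nat_lit 159) (nat_lit 0) (nat_lit 14) (.e true (nat_lit 2) (nat_lit 160) (nat_lit 0) (nat_lit 14) (.e false (nat_lit 3) (nat_lit 109) (nat_lit 2) (nat_lit 12) (.e false (nat_lit 1) (nat_lit 110) (nat_lit 2) (nat_lit 12) (.e true (nat_lit 3) (nat_lit 111) (nat_lit 2) (nat_lit 12) (.e false (nat_lit 2) (nat_lit 144) (nat_lit 1) (nat_lit 13) (.e false (nat_lit 3) (nat_lit 147) (nat_lit 1) (nat_lit 13) (.e true (nat_lit 3) (nat_lit 148) (nat_lit 1) (nat_lit 13) (.e false (nat_lit 1) (nat_lit 155) (nat_lit 0) (nat_lit 14) (.e false (nat_lit 2) (nat_lit 156) (nat_lit 0) (nat_lit 14) (.e true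 (nat_lit 1) (nat_lit 173) (nat_lit 0) (nat_lit 14) (.e true (nat_lit 1) (nat_lit 30) (nat_lit 13) (nat_lit 3) (.e true (nat_lit 1) (nat_lit 164) (nat_lit 0) (nat_lit 14) (.e true (nat_lit 1) (nat_lit 168) (nat_lit 0) (nat_lit 14) (.e true (nat_lit 3) (nat_lit 169) (nat_lit 0) (nat_lit 14) (.e false (nat_lit 1) (nat_lit 73) (nat_lit 4) (nat_lit 10) (.e true (nat_lit 1) (nat_lit 28) (nat_lit 13) (nat_lit 3) (.e true (nat_lit 2) (nat_lit 29) (nat_lit 13) (nat_lit 3) (.e false (nat_lit 2) (nat_lit 166) (nat_lit 0) (nat_lit 14) (.u (nat_lit 2) (.p (nat_lit 0) (nat_lit 2) (.p (nat_lit 1) (nat_lit 1) (.n (nat_lit 2) (nat_lit 2) (.p (nat_lit 4) (nat_lit 1) (.n (nat_lit 5) (nat_lit 2) (.n (nat_lit 7) (nat_lit 1) (.p (nat_lit 8) (nat_lit 3) (.n (nat_lit 9) (nat_lit 2) (.n (nat_lit 11) (nat_lit 2) (.p (nat_lit 12) (nat_lit 2) (.p (nat_lit 14) (nat_lit 1) (.p (nat_lit 15) (nat_lit 2) (.p (nat_lit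 16) (nat_lit 1) (.n (nat_lit 17) (nat_lit 1) (.p (nat_lit 19) (nat_lit 2) (.n (nat_lit 20) (nat_lit 1) (.p (nat_lit 21) (nat_lit 1) (.n (nat_lit 22) (nat_lit 2) (.p (nat_lit 23) (nat_lit 2) (.p (nat_lit 24) (nat_lit 1) (.p (nat_lit 25) (nat_lit 1) (.p (nat_lit 32) (nat_lit 2) (.n (nat_lit 36) (nat_lit 1) (.p (nat_lit 37) (nat_lit 1) (.n (nat_lit 38) (nat_lit 1) (.p (nat_lit 40) (nat_lit 1) (.n (nat_lit 44) (nat_lit 1) (.p (nat_lit 46) (nat_lit 1) (.n (nat_lit 85) (nat_lit 1) (.p (nat_lit 90) (nat_lit 1) (.p (nat_lit 91) (nat_lit 1) (.n (nat_lit 95) (nat_lit 1) (.n (nat_lit 96) (nat_lit 1) (.p (nat_lit 98) (nat_lit 1) (.p (nat_lit 101) (nat_lit 1) (.n (nat_lit 102) (nat_lit 2) (.n (nat_lit 103) (nat_lit 1) (.n (nat_lit 105) (nat_lit 1) (.n (nat_lit 106) (nat_lit 1) (.n (nat_lit 107) (nat_lit 1) (.n (nat_lit 108) (nat_lit 1) (.p (nat_lit 109) (nat_lit 3) (.p (nat_lit 110) (nat_lit 1) (.p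 (nat_lit 111) (nat_lit 1) (.n (nat_lit 113) (nat_lit 1) (.p (nat_lit 136) (nat_lit 3) (.p (nat_lit 137) (nat_lit 4) (.n (nat_lit 138) (nat_lit 1) (.n (nat_lit 139) (nat_lit 1) (.p (nat_lit 141) (nat_lit 5) (.n (nat_lit 143) (nat_lit 3) (.p (nat_lit 144) (nat_lit 1) (.p (nat_lit 145) (nat_lit 1) (.n (nat_lit 146) (nat_lit 2) (.n (nat_lit 147) (nat_lit 1) (.n (nat_lit 148) (nat_lit 3) (.n (nat_lit 150) (nat_lit 3) (.n (nat_lit 152) (nat_lit 1) (.p (nat_lit 153) (nat_lit 3) (.p (nat_lit 154) (nat_lit 2) .z)))))))))))))))))))))))))))))))))))))))))))))))))))))))))))) (.u (nat_lit 2) (.p (nat_lit 155) (nat_lit 2) (.n (nat_lit 158) (nat_lit 1) (.p (nat_lit 161) (nat_lit 1) (.p (nat_lit 162) (nat_lit 3) (.p (nat_lit 163) (nat_lit 9) (.p (nat_lit 164) (nat_lit 6) (.p (nat_lit 165) (nat_lit 2) (.p (nat_lit 166) (nat_lit 8) (.p (nat_lit 167) (nat_lit 5) (.p (nat_lit 168) (nat_lit 4) (.p (nat_lit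 169) (nat_lit 5) (.n (nat_lit 170) (nat_lit 1) (.n (nat_lit 171) (nat_lit 9) (.p (nat_lit 174) (nat_lit 2) (.p (nat_lit 175) (nat_lit 3) (.n (nat_lit 176) (nat_lit 5) (.p (nat_lit 177) (nat_lit 1) (.p (nat_lit 178) (nat_lit 11) (.p (nat_lit 179) (nat_lit 8) (.n (nat_lit 180) (nat_lit 4) (.n (nat_lit 181) (nat_lit 8) (.n (nat_lit 182) (nat_lit 5) (.n (nat_lit 183) (nat_lit 5) (.n (nat_lit 184) (nat_lit 1) (.p (nat_lit 185) (nat_lit 1) (.p (nat_lit 186) (nat_lit 1) (.n (nat_lit 187) (nat_lit 4) (.p (nat_lit 189) (nat_lit 7) (.p (nat_lit 191) (nat_lit 5) (.p (nat_lit 192) (nat_lit 7) (.n (nat_lit 193) (nat_lit 5) (.n (nat_lit 194) (nat_lit 1) (.p (nat_lit 195) (nat_lit 8) (.n (nat_lit 196) (nat_lit 5) (.n (nat_lit 197) (nat_lit 7) (.n (nat_lit 198) (nat_lit 3) (.p (nat_lit 199) (nat_lit 3) (.p (nat_lit 200) (nat_lit 1) (.p (nat_lit 201) (nat_lit 5) (.n (nat_lit 202) (nat_lit 9) .z))))))))))))))))))))))))))))))))))))))))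 .nil)))))))))))))))))))))))))

noncomputable def dC1c_i131 : IL := (.e false (nat_lit 1) (nat_lit 129) (nat_lit 2) (nat_lit 12) (.e true (nat_lit 2) (nat_lit 142) (nat_lit 1) (nat_lit 13) (.e true (nat_lit 1) (nat_lit 149) (nat_lit 1) (nat_lit 13) (.e false (nat_lit 2) (nat_lit 112) (nat_lit 2) (nat_lit 12) (.e true (nat_lit 2) (nat_lit 114) (nat_lit 2) (nat_lit 12) (.e true (nat_lit 2) (nat_lit 108) (nat_lit 2) (nat_lit 12) (.e false (nat_lit 1) (nat_lit 161) (nat_lit 0) (nat_lit 14) (.e false (nat_lit 1) (nat_lit 107) (nat_lit 2) (nat_lit 12) (.e true (nat_lit 3) (nat_lit 132) (nat_lit 1) (nat_lit 13) (.e true (nat_lit 2) (nat_lit 133) (nat_lit 1) (nat_lit 13) (.e true (nat_lit 1) (nat_lit 134) (nat_lit 1) (nat_lit 13) (.e true (nat_lit 3) (nat_lit 136) (nat_lit 1) (nat_lit 13) (.e false (nat_lit 2) (nat_lit 137) (nat_lit 1) (nat_lit 13) (.e false (nat_lit 3) (nat_lit 138) (nat_lit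 1) (nat_lit 13) (.e true (nat_lit 3) (nat_lit 139) (nat_lit 1) (nat_lit 13) (.e false (nat_lit 2) (nat_lit 141) (nat_lit 1) (nat_lit 13) (.e false (nat_lit 2) (nat_lit 143) (nat_lit 1) (nat_lit 13) (.e true (nat_lit 1) (nat_lit 59) (nat_lit 5) (nat_lit 9) (.e false (nat_lit 3) (nat_lit 60) (nat_lit 5) (nat_lit 9) (.e false (nat_lit 2) (nat_lit 37) (nat_lit 9) (nat_lit 5) (.e true (nat_lit 1) (nat_lit 56) (nat_lit 5) (nat_lit 9) (.e true (nat_lit 1) (nat_lit 158) (nat_lit 0) (nat_lit 14) (.e false (nat_lit 2) (nat_lit 163) (nat_lit 0) (nat_lit 14) (.e true (nat_lit 2) (nat_lit 116) (nat_lit 2) (nat_lit 12) (.e false (nat_lit 2) (nat_lit 119) (nat_lit 2) (nat_lit 12) dC1c_i130)))))))))))))))))))))))))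

noncomputable def dC1c_i132 : IL := (.s true (nat_lit 3) (nat_lit 16) (nat_lit 0) (nat_lit 0) (nat_lit 5) true (nat_lit 4) true (nat_lit 9) true (nat_lit 1) true (nat_lit 14) true (nat_lit 14) (.s false (nat_lit 3) (nat_lit 17) (nat_lit 0) (nat_lit 5) (nat_lit 0) false (nat_lit 15) true (nat_lit 14) true (nat_lit 1) true (nat_lit 14) true (nat_lit 9) (.s false (nat_lit 1) (nat_lit 16) (nat_lit 5) (nat_lit 0) (nat_lit 0) true (nat_lit 4) true (nat_lit 14) true (nat_lit 1) true (nat_lit 9) true (nat_lit 14) (.s false (nat_lit 2) (nat_lit 20) (nat_lit 1) (nat_lit 2) (nat_lit 2) true (nat_lit 9) true (nat_lit 12) false (nat_lit 1) true (nat_lit 13) true (nat_lit 12) (.s true (nat_lit 3) (nat_lit 22) (nat_lit 1) (nat_lit 2) (nat_lit 2) true (nat_lit 9) true (nat_lit 12) false (nat_lit 1) true (nat_lit 13) true (nat_lit 12) (.s true (nat_lit 1) (nat_lit 23) (nat_lit 1) (nat_lit 2) (nat_lit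 2) true (nat_lit 9) true (nat_lit 12) false (nat_lit 1) true (nat_lit 13) true (nat_lit 12) (.s false (nat_lit 3) (nat_lit 20) (nat_lit 2) (nat_lit 1) (nat_lit 2) true (nat_lit 8) true (nat_lit 12) false (nat_lit 1) true (nat_lit 12) true (nat_lit 13) (.s true (nat_lit 3) (nat_lit 22) (nat_lit 2) (nat_lit 1) (nat_lit 2) true (nat_lit 8) true (nat_lit 12) false (nat_lit 1) true (nat_lit 12) true (nat_lit 13) (.s false (nat_lit 2) (nat_lit 21) (nat_lit 2) (nat_lit 2) (nat_lit 1) true (nat_lit 9) true (nat_lit 13) false (nat_lit 1) true (nat_lit 12) true (nat_lit 12) (.s false (nat_lit 2) (nat_lit 24) (nat_lit 0) (nat_lit 2) (nat_lit 2) true (nat_lit 10) true (nat_lit 12) false (nat_lit 2) true (nat_lit 14) true (nat_lit 12) (.s false (nat_lit 2) (nat_lit 24) (nat_lit 2) (nat_lit 0) (nat_lit 2) true (nat_lit 8) true (nat_lit 12) false (nat_lit 2) true (nat_lit 12) true (nat_lit 14) (.s true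 (nat_lit 3) (nat_lit 24) (nat_lit 2) (nat_lit 2) (nat_lit 0) true (nat_lit 10) true (nat_lit 14) false (nat_lit 2) true (nat_lit 12) true (nat_lit 12) (.s false (nat_lit 2) (nat_lit 29) (nat_lit 1) (nat_lit 1) (nat_lit 2) true (nat_lit 9) true (nat_lit 12) false (nat_lit 3) true (nat_lit 13) true (nat_lit 13) (.s true (nat_lit 3) (nat_lit 30) (nat_lit 1) (nat_lit 1) (nat_lit 2) true (nat_lit 9) true (nat_lit 12) false (nat_lit 3) true (nat_lit 13) true (nat_lit 13) (.s false (nat_lit 3) (nat_lit 33) (nat_lit 0) (nat_lit 2) (nat_lit 1) true (nat_lit 11) true (nat_lit 13) false (nat_lit 4) true (nat_lit 14) true (nat_lit 12) (.s false (nat_lit 1) (nat_lit 34) (nat_lit 0) (nat_lit 2) (nat_lit 1) true (nat_lit 11) true (nat_lit 13) false (nat_lit 4) true (nat_lit 14) true (nat_lit 12) (.s false (nat_lit 3) (nat_lit 33) (nat_lit 1) (nat_lit 2) (nat_lit 0) true (nat_lit 11) true (nat_lit 14)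 false (nat_lit 4) true (nat_lit 13) true (nat_lit 12) (.s false (nat_lit 3) (nat_lit 35) (nat_lit 1) (nat_lit 2) (nat_lit 0) true (nat_lit 11) true (nat_lit 14) false (nat_lit 4) true (nat_lit 13) true (nat_lit 12) (.s false (nat_lit 3) (nat_lit 33) (nat_lit 2) (nat_lit 0) (nat_lit 1) true (nat_lit 9) true (nat_lit 13) false (nat_lit 4) true (nat_lit 12) true (nat_lit 14) (.s true (nat_lit 1) (nat_lit 32) (nat_lit 2) (nat_lit 1) (nat_lit 0) true (nat_lit 10) true (nat_lit 14) false (nat_lit 4) true (nat_lit 12) true (nat_lit 13) (.s false (nat_lit 2) (nat_lit 40) (nat_lit 0) (nat_lit 1) (nat_lit 1) true (nat_lit 11) true (nat_lit 13) false (nat_lit 6) true (nat_lit 14) true (nat_lit 13) (.s true (nat_lit 3) (nat_lit 41) (nat_lit 1) (nat_lit 0) (nat_lit 1) false (nat_lit 16) true (nat_lit 13) false (nat_lit 6) true (nat_lit 13) true (nat_lit 14) (.s false (nat_lit 2) (nat_lit 40) (nat_lit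 1) (nat_lit 1) (nat_lit 0) true (nat_lit 11) true (nat_lit 14) false (nat_lit 6) true (nat_lit 13) true (nat_lit 13) (.s true (nat_lit 2) (nat_lit 44) (nat_lit 0) (nat_lit 1) (nat_lit 0) false (nat_lit 15) true (nat_lit 14) false (nat_lit 7) true (nat_lit 14) true (nat_lit 13) (.s false (nat_lit 1) (nat_lit 45) (nat_lit 0) (nat_lit 1) (nat_lit 0) false (nat_lit 15) true (nat_lit 14) false (nat_lit 7) true (nat_lit 14) true (nat_lit 13) dC1c_i131)))))))))))))))))))))))))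

noncomputable def dC1c_i133 : IL := (.e false (nat_lit 1) (nat_lit 97) (nat_lit 9) (nat_lit 10) (.e true (nat_lit 1) (nat_lit 261) (nat_lit 1) (nat_lit 18) (.e false (nat_lit 2) (nat_lit 262) (nat_lit 1) (nat_lit 18) (.e false (nat_lit 1) (nat_lit 264) (nat_lit 1) (nat_lit 18) (.e false (nat_lit 3) (nat_lit 265) (nat_lit 1) (nat_lit 18) (.e false (nat_lit 1) (nat_lit 266) (nat_lit 1) (nat_lit 18) (.e true (nat_lit 3) (nat_lit 267) (nat_lit 1) (nat_lit 18) (.e false (nat_lit 2) (nat_lit 269) (nat_lit 1) (nat_lit 18) (.e true (nat_lit 2) (nat_lit 270) (nat_lit 1) (nat_lit 18) (.e false (nat_lit 1) (nat_lit 271) (nat_lit 1) (nat_lit 18) (.e false (nat_lit 2) (nat_lit 272) (nat_lit 1) (nat_lit 18) (.e true (nat_lit 1) (nat_lit 273) (nat_lit 1) (nat_lit 18) (.e true (nat_lit 1) (nat_lit 277) (nat_lit 1) (nat_lit 18) (.e false (nat_lit 2) (nat_lit 278) (nat_lit 1) (nat_lit 18) (.e true (nat_lit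 2) (nat_lit 280) (nat_lit 1) (nat_lit 18) (.e false (nat_lit 1) (nat_lit 281) (nat_lit 1) (nat_lit 18) (.e false (nat_lit 3) (nat_lit 286) (nat_lit 1) (nat_lit 18) (.e true (nat_lit 2) (nat_lit 287) (nat_lit 1) (nat_lit 18) (.e true (nat_lit 1) (nat_lit 288) (nat_lit 1) (nat_lit 18) (.e false (nat_lit 1) (nat_lit 289) (nat_lit 1) (nat_lit 18) (.e false (nat_lit 3) (nat_lit 268) (nat_lit 1) (nat_lit 18) (.e true (nat_lit 2) (nat_lit 279) (nat_lit 1) (nat_lit 18) (.e false (nat_lit 1) (nat_lit 119) (nat_lit 6) (nat_lit 13) (.e true (nat_lit 1) (nat_lit 109) (nat_lit 6) (nat_lit 13) (.u (nat_lit 2) (.p (nat_lit 0) (nat_lit 3) (.n (nat_lit 1) (nat_lit 1) (.n (nat_lit 2) (nat_lit 2) (.n (nat_lit 3) (nat_lit 1) (.p (nat_lit 4) (nat_lit 1) (.p (nat_lit 6) (nat_lit 1) (.p (nat_lit 7) (nat_lit 2) (.n (nat_lit 8) (nat_lit 2) (.n (nat_lit 10) (nat_lit 1) (.p (nat_lit 11) (nat_lit 3) (.p (nat_lit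 12) (nat_lit 4) (.p (nat_lit 13) (nat_lit 2) (.p (nat_lit 15) (nat_lit 1) (.n (nat_lit 18) (nat_lit 1) (.n (nat_lit 19) (nat_lit 3) (.p (nat_lit 27) (nat_lit 1) (.p (nat_lit 29) (nat_lit 2) (.n (nat_lit 30) (nat_lit 1) (.p (nat_lit 32) (nat_lit 1) (.n (nat_lit 35) (nat_lit 2) (.p (nat_lit 36) (nat_lit 1) (.p (nat_lit 37) (nat_lit 2) (.p (nat_lit 38) (nat_lit 1) (.n (nat_lit 39) (nat_lit 3) (.p (nat_lit 50) (nat_lit 1) (.n (nat_lit 51) (nat_lit 1) (.p (nat_lit 54) (nat_lit 1) (.p (nat_lit 61) (nat_lit 1) (.n (nat_lit 256) (nat_lit 1) (.n (nat_lit 379) (nat_lit 1) (.p (nat_lit 382) (nat_lit 1) (.p (nat_lit 402) (nat_lit 1) .z)))))))))))))))))))))))))))))))) .nil)))))))))))))))))))))))))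

noncomputable def dC1c_i134 : IL := (.e false (nat_lit 1) (nat_lit 229) (nat_lit 2) (nat_lit 17) (.e false (nat_lit 1) (nat_lit 231) (nat_lit 2) (nat_lit 17) (.e true (nat_lit 2) (nat_lit 232) (nat_lit 2) (nat_lit 17) (.e false (nat_lit 2) (nat_lit 234) (nat_lit 2) (nat_lit 17) (.e true (nat_lit 2) (nat_lit 235) (nat_lit 2) (nat_lit 17) (.e true (nat_lit 3) (nat_lit 236) (nat_lit 2) (nat_lit 17) (.e false (nat_lit 2) (nat_lit 237) (nat_lit 2) (nat_lit 17) (.e false (nat_lit 1) (nat_lit 238) (nat_lit 2) (nat_lit 17) (.e true (nat_lit 2) (nat_lit 239) (nat_lit 2) (nat_lit 17) (.e false (nat_lit 1) (nat_lit 240) (nat_lit 2) (nat_lit 17) (.e true (nat_lit 1) (nat_lit 241) (nat_lit 2) (nat_lit 17) (.e true (nat_lit 3) (nat_lit 242) (nat_lit 2) (nat_lit 17) (.e true (nat_lit 3) (nat_lit 250) (nat_lit 2) (nat_lit 17) (.e false (nat_lit 1) (nat_lit 249) (nat_lit 2) (nat_lit 17) (.e true (nat_lit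 1) (nat_lit 213) (nat_lit 2) (nat_lit 17) (.e false (nat_lit 3) (nat_lit 226) (nat_lit 2) (nat_lit 17) (.e false (nat_lit 2) (nat_lit 233) (nat_lit 2) (nat_lit 17) (.e false (nat_lit 1) (nat_lit 244) (nat_lit 2) (nat_lit 17) (.e true (nat_lit 1) (nat_lit 225) (nat_lit 2) (nat_lit 17) (.e false (nat_lit 1) (nat_lit 228) (nat_lit 2) (nat_lit 17) (.e false (nat_lit 2) (nat_lit 246) (nat_lit 2) (nat_lit 17) (.e true (nat_lit 2) (nat_lit 247) (nat_lit 2) (nat_lit 17) (.e false (nat_lit 2) (nat_lit 222) (nat_lit 2) (nat_lit 17) (.u (nat_lit 2) (.p (nat_lit 0) (nat_lit 2) (.p (nat_lit 1) (nat_lit 2) (.p (nat_lit 2) (nat_lit 2) (.p (nat_lit 3) (nat_lit 1) (.n (nat_lit 5) (nat_lit 1) (.n (nat_lit 7) (nat_lit 1) (.n (nat_lit 8) (nat_lit 1) (.n (nat_lit 10) (nat_lit 1) (.n (nat_lit 11) (nat_lit 4) (.p (nat_lit 12) (nat_lit 1) (.p (nat_lit 13) (nat_lit 2) (.n (nat_lit 14) (nat_lit 2) (.p (nat_lit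 15) (nat_lit 2) (.p (nat_lit 17) (nat_lit 4) (.n (nat_lit 18) (nat_lit 2) (.p (nat_lit 19) (nat_lit 1) (.p (nat_lit 20) (nat_lit 1) (.n (nat_lit 21) (nat_lit 1) (.p (nat_lit 23) (nat_lit 1) (.p (nat_lit 24) (nat_lit 2) (.p (nat_lit 25) (nat_lit 2) (.p (nat_lit 26) (nat_lit 1) (.n (nat_lit 27) (nat_lit 1) (.n (nat_lit 28) (nat_lit 2) (.p (nat_lit 33) (nat_lit 2) (.n (nat_lit 34) (nat_lit 4) (.n (nat_lit 35) (nat_lit 1) (.p (nat_lit 36) (nat_lit 3) (.n (nat_lit 37) (nat_lit 1) (.n (nat_lit 38) (nat_lit 1) (.n (nat_lit 39) (nat_lit 2) (.n (nat_lit 41) (nat_lit 1) (.n (nat_lit 45) (nat_lit 2) (.p (nat_lit 46) (nat_lit 1) (.n (nat_lit 48) (nat_lit 1) (.p (nat_lit 49) (nat_lit 2) (.n (nat_lit 50) (nat_lit 3) (.p (nat_lit 51) (nat_lit 1) (.n (nat_lit 53) (nat_lit 3) (.p (nat_lit 56) (nat_lit 2) (.p (nat_lit 57) (nat_lit 2) (.n (nat_lit 58) (nat_lit 1) (.n (nat_lit 60) (nat_lit 2) (.p (nat_lit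 62) (nat_lit 2) (.n (nat_lit 65) (nat_lit 1) (.p (nat_lit 66) (nat_lit 1) (.p (nat_lit 67) (nat_lit 1) (.n (nat_lit 330) (nat_lit 1) (.n (nat_lit 333) (nat_lit 1) (.n (nat_lit 337) (nat_lit 1) (.n (nat_lit 339) (nat_lit 1) (.n (nat_lit 341) (nat_lit 1) (.n (nat_lit 342) (nat_lit 1) (.p (nat_lit 347) (nat_lit 1) (.n (nat_lit 348) (nat_lit 1) (.n (nat_lit 349) (nat_lit 1) (.n (nat_lit 351) (nat_lit 1) (.n (nat_lit 353) (nat_lit 1) (.p (nat_lit 354) (nat_lit 1) (.n (nat_lit 355) (nat_lit 1) .z)))))))))))))))))))))))))))))))))))))))))))))))))))))))))))) (.u (nat_lit 2) (.p (nat_lit 357) (nat_lit 1) (.n (nat_lit 358) (nat_lit 1) (.n (nat_lit 359) (nat_lit 1) (.n (nat_lit 361) (nat_lit 1) (.p (nat_lit 362) (nat_lit 1) (.p (nat_lit 363) (nat_lit 1) .z)))))) .nil)))))))))))))))))))))))))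

noncomputable def dC1c_i135 : IL := (.e true (nat_lit 1) (nat_lit 278) (nat_lit 2) (nat_lit 13) (.e false (nat_lit 3) (nat_lit 283) (nat_lit 2) (nat_lit 13) (.e true (nat_lit 1) (nat_lit 286) (nat_lit 2) (nat_lit 13) (.e false (nat_lit 3) (nat_lit 287) (nat_lit 2) (nat_lit 13) (.e false (nat_lit 2) (nat_lit 264) (nat_lit 2) (nat_lit 13) (.e false (nat_lit 1) (nat_lit 267) (nat_lit 2) (nat_lit 13) (.e false (nat_lit 3) (nat_lit 341) (nat_lit 0) (nat_lit 15) (.e false (nat_lit 3) (nat_lit 65) (nat_lit 18) (nat_lit 3) (.e false (nat_lit 2) (nat_lit 328) (nat_lit 0) (nat_lit 15) (.e true (nat_lit 1) (nat_lit 329) (nat_lit 0) (nat_lit 15) (.e false (nat_lit 2) (nat_lit 330) (nat_lit 0) (nat_lit 15) (.e true (nat_lit 2) (nat_lit 331) (nat_lit 0) (nat_lit 15) (.e true (nat_lit 2) (nat_lit 332) (nat_lit 0) (nat_lit 15) (.e false (nat_lit 2) (nat_lit 333) (nat_lit 0) (nat_lit 15) (.e true (nat_lit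 3) (nat_lit 334) (nat_lit 0) (nat_lit 15) (.e true (nat_lit 3) (nat_lit 335) (nat_lit 0) (nat_lit 15) (.e false (nat_lit 1) (nat_lit 336) (nat_lit 0) (nat_lit 15) (.e false (nat_lit 1) (nat_lit 337) (nat_lit 0) (nat_lit 15) (.e false (nat_lit 2) (nat_lit 340) (nat_lit 0) (nat_lit 15) (.e false (nat_lit 2) (nat_lit 345) (nat_lit 0) (nat_lit 15) (.e false (nat_lit 1) (nat_lit 320) (nat_lit 1) (nat_lit 14) (.e true (nat_lit 2) (nat_lit 327) (nat_lit 1) (nat_lit 14) (.e true (nat_lit 3) (nat_lit 342) (nat_lit 0) (nat_lit 15) (.u (nat_lit 2) (.p (nat_lit 0) (nat_lit 1) (.p (nat_lit 1) (nat_lit 1) (.n (nat_lit 2) (nat_lit 1) (.p (nat_lit 3) (nat_lit 4) (.n (nat_lit 4) (nat_lit 6) (.n (nat_lit 5) (nat_lit 2) (.p (nat_lit 6) (nat_lit 1) (.p (nat_lit 7) (nat_lit 1) (.p (nat_lit 8) (nat_lit 2) (.p (nat_lit 9) (nat_lit 2) (.n (nat_lit 10) (nat_lit 1) (.p (nat_lit 12) (nat_lit 4) (.p (nat_lit 13)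 (nat_lit 1) (.p (nat_lit 15) (nat_lit 4) (.n (nat_lit 16) (nat_lit 2) (.p (nat_lit 17) (nat_lit 1) (.p (nat_lit 18) (nat_lit 1) (.p (nat_lit 19) (nat_lit 1) (.p (nat_lit 20) (nat_lit 1) (.n (nat_lit 21) (nat_lit 2) (.p (nat_lit 22) (nat_lit 2) (.n (nat_lit 23) (nat_lit 1) (.p (nat_lit 25) (nat_lit 1) (.n (nat_lit 27) (nat_lit 1) (.n (nat_lit 28) (nat_lit 1) (.n (nat_lit 30) (nat_lit 1) (.p (nat_lit 33) (nat_lit 1) (.n (nat_lit 35) (nat_lit 1) (.n (nat_lit 36) (nat_lit 1) (.p (nat_lit 40) (nat_lit 1) (.n (nat_lit 66) (nat_lit 1) (.p (nat_lit 67) (nat_lit 1) (.p (nat_lit 69) (nat_lit 1) (.n (nat_lit 75) (nat_lit 1) (.n (nat_lit 113) (nat_lit 1) (.p (nat_lit 115) (nat_lit 1) (.p (nat_lit 117) (nat_lit 1) (.n (nat_lit 119) (nat_lit 1) (.p (nat_lit 121) (nat_lit 1) (.p (nat_lit 122) (nat_lit 1) (.p (nat_lit 126) (nat_lit 1) (.n (nat_lit 127) (nat_lit 1) (.n (nat_lit 129) (nat_lit 2) (.n (nat_lit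 133) (nat_lit 1) (.p (nat_lit 135) (nat_lit 1) (.p (nat_lit 136) (nat_lit 1) (.n (nat_lit 143) (nat_lit 1) (.p (nat_lit 145) (nat_lit 1) (.n (nat_lit 154) (nat_lit 1) (.p (nat_lit 161) (nat_lit 1) (.n (nat_lit 165) (nat_lit 1) (.p (nat_lit 170) (nat_lit 1) (.n (nat_lit 173) (nat_lit 2) (.n (nat_lit 174) (nat_lit 9) (.n (nat_lit 175) (nat_lit 16) (.p (nat_lit 176) (nat_lit 18) (.n (nat_lit 177) (nat_lit 13) (.n (nat_lit 178) (nat_lit 14) (.p (nat_lit 179) (nat_lit 22) (.n (nat_lit 180) (nat_lit 9) .z)))))))))))))))))))))))))))))))))))))))))))))))))))))))))))) (.u (nat_lit 2) (.p (nat_lit 181) (nat_lit 11) (.n (nat_lit 182) (nat_lit 13) (.p (nat_lit 183) (nat_lit 5) (.n (nat_lit 184) (nat_lit 7) (.n (nat_lit 185) (nat_lit 15) (.n (nat_lit 186) (nat_lit 14) (.p (nat_lit 187) (nat_lit 12) (.n (nat_lit 188) (nat_lit 2) (.n (nat_lit 189) (nat_lit 3) (.n (nat_lit 190) (nat_lit 14) (.n (nat_lit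 191) (nat_lit 11) (.p (nat_lit 192) (nat_lit 12) (.n (nat_lit 193) (nat_lit 1) (.n (nat_lit 194) (nat_lit 7) (.n (nat_lit 196) (nat_lit 1) (.n (nat_lit 197) (nat_lit 2) (.n (nat_lit 198) (nat_lit 3) (.n (nat_lit 199) (nat_lit 2) (.p (nat_lit 200) (nat_lit 13) (.n (nat_lit 202) (nat_lit 2) (.p (nat_lit 203) (nat_lit 3) (.p (nat_lit 204) (nat_lit 5) (.n (nat_lit 206) (nat_lit 3) (.p (nat_lit 207) (nat_lit 2) (.n (nat_lit 209) (nat_lit 1) (.n (nat_lit 210) (nat_lit 2) (.n (nat_lit 211) (nat_lit 2) (.n (nat_lit 212) (nat_lit 2) (.n (nat_lit 213) (nat_lit 1) (.p (nat_lit 214) (nat_lit 2) (.n (nat_lit 215) (nat_lit 1) (.p (nat_lit 216) (nat_lit 2) (.n (nat_lit 219) (nat_lit 2) (.p (nat_lit 220) (nat_lit 1) (.n (nat_lit 221) (nat_lit 3) (.p (nat_lit 222) (nat_lit 2) (.p (nat_lit 223) (nat_lit 1) (.n (nat_lit 224) (nat_lit 1) (.p (nat_lit 227) (nat_lit 1) (.n (nat_lit 228) (nat_lit 1) (.p (nat_lit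 229) (nat_lit 2) .z))))))))))))))))))))))))))))))))))))))))) .nil)))))))))))))))))))))))))

noncomputable def dC1c_i136 : IL := (.s true (nat_lit 3) (nat_lit 101) (nat_lit 2) (nat_lit 0) (nat_lit 1) true (nat_lit 10) true (nat_lit 14) false (nat_lit 6) true (nat_lit 13) true (nat_lit 15) (.s true (nat_lit 1) (nat_lit 98) (nat_lit 2) (nat_lit 1) (nat_lit 0) true (nat_lit 11) true (nat_lit 15) false (nat_lit 6) true (nat_lit 13) true (nat_lit 14) (.s false (nat_lit 3) (nat_lit 103) (nat_lit 0) (nat_lit 2) (nat_lit 0) false (nat_lit 16) true (nat_lit 15) false (nat_lit 7) true (nat_lit 15) true (nat_lit 13) (.s false (nat_lit 3) (nat_lit 104) (nat_lit 0) (nat_lit 2) (nat_lit 0) false (nat_lit 16) true (nat_lit 15) false (nat_lit 7) true (nat_lit 15) true (nat_lit 13) (.s true (nat_lit 3) (nat_lit 105) (nat_lit 0) (nat_lit 2) (nat_lit 0) false (nat_lit 16) true (nat_lit 15) false (nat_lit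 7) true (nat_lit 15) true (nat_lit 13) (.s false (nat_lit 3) (nat_lit 106) (nat_lit 0) (nat_lit 1) (nat_lit 0) false (nat_lit 16) true (nat_lit 15) false (nat_lit 8) true (nat_lit 15) true (nat_lit 14) (.e true (nat_lit 2) (nat_lit 137) (nat_lit 6) (nat_lit 9) (.e true (nat_lit 2) (nat_lit 142) (nat_lit 6) (nat_lit 9) (.e false (nat_lit 3) (nat_lit 150) (nat_lit 6) (nat_lit 9) (.e true (nat_lit 2) (nat_lit 323) (nat_lit 1) (nat_lit 14) (.e true (nat_lit 2) (nat_lit 325) (nat_lit 1) (nat_lit 14) (.e true (nat_lit 2) (nat_lit 321) (nat_lit 1) (nat_lit 14) (.e true (nat_lit 2) (nat_lit 322) (nat_lit 1) (nat_lit 14) (.e true (nat_lit 3) (nat_lit 261) (nat_lit 2) (nat_lit 13) (.e false (nat_lit 2) (nat_lit 262) (nat_lit 2) (nat_lit 13) (.e true (nat_lit 3) (nat_lit 263) (nat_lit 2) (nat_lit 13) (.e true (nat_lit 1) (nat_lit 265) (nat_lit 2) (nat_lit 13) (.e true (nat_lit 2) (nat_lit 266) (nat_lit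 2) (nat_lit 13) (.e true (nat_lit 3) (nat_lit 268) (nat_lit 2) (nat_lit 13) (.e false (nat_lit 3) (nat_lit 270) (nat_lit 2) (nat_lit 13) (.e false (nat_lit 3) (nat_lit 271) (nat_lit 2) (nat_lit 13) (.e true (nat_lit 2) (nat_lit 273) (nat_lit 2) (nat_lit 13) (.e false (nat_lit 1) (nat_lit 274) (nat_lit 2) (nat_lit 13) (.e true (nat_lit 1) (nat_lit 275) (nat_lit 2) (nat_lit 13) (.e true (nat_lit 3) (nat_lit 277) (nat_lit 2) (nat_lit 13) dC1c_i135)))))))))))))))))))))))))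

noncomputable def dC1c_i137 : IL := (.s true (nat_lit 2) (nat_lit 46) (nat_lit 0) (nat_lit 2) (nat_lit 3) true (nat_lit 8) true (nat_lit 12) false (nat_lit 2) true (nat_lit 15) true (nat_lit 13) (.s true (nat_lit 2) (nat_lit 46) (nat_lit 5) (nat_lit 0) (nat_lit 0) true (nat_lit 6) true (nat_lit 15) false (nat_lit 2) true (nat_lit 10) true (nat_lit 15) (.s true (nat_lit 3) (nat_lit 59) (nat_lit 2) (nat_lit 2) (nat_lit 2) true (nat_lit 9) true (nat_lit 13) false (nat_lit 3) true (nat_lit 13) true (nat_lit 13) (.s false (nat_lit 1) (nat_lit 60) (nat_lit 2) (nat_lit 2) (nat_lit 2) true (nat_lit 9) true (nat_lit 13) false (nat_lit 3) true (nat_lit 13) true (nat_lit 13) (.s true (nat_lit 3) (nat_lit 61) (nat_lit 2) (nat_lit 2) (nat_lit 2) true (nat_lit 9) true (nat_lit 13) false (nat_lit 3) true (nat_lit 13) true (nat_lit 13) (.s false (nat_lit 2) (nat_lit 62) (nat_lit 2) (nat_lit 2) (nat_lit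 2) true (nat_lit 9) true (nat_lit 13) false (nat_lit 3) true (nat_lit 13) true (nat_lit 13) (.s false (nat_lit 2) (nat_lit 64) (nat_lit 2) (nat_lit 2) (nat_lit 2) true (nat_lit 9) true (nat_lit 13) false (nat_lit 3) true (nat_lit 13) true (nat_lit 13) (.s true (nat_lit 2) (nat_lit 78) (nat_lit 1) (nat_lit 2) (nat_lit 2) true (nat_lit 10) true (nat_lit 13) false (nat_lit 4) true (nat_lit 14) true (nat_lit 13) (.s true (nat_lit 2) (nat_lit 78) (nat_lit 2) (nat_lit 2) (nat_lit 1) true (nat_lit 10) true (nat_lit 14) false (nat_lit 4) true (nat_lit 13) true (nat_lit 13) (.s true (nat_lit 3) (nat_lit 82) (nat_lit 0) (nat_lit 2) (nat_lit 2) true (nat_lit 11) true (nat_lit 13) false (nat_lit 5) true (nat_lit 15) true (nat_lit 13) (.s true (nat_lit 3) (nat_lit 84) (nat_lit 0) (nat_lit 2) (nat_lit 2) true (nat_lit 11) true (nat_lit 13) false (nat_lit 5) true (nat_lit 15) true (nat_lit 13) (.s false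 (nat_lit 1) (nat_lit 88) (nat_lit 0) (nat_lit 2) (nat_lit 2) true (nat_lit 11) true (nat_lit 13) false (nat_lit 5) true (nat_lit 15) true (nat_lit 13) (.s false (nat_lit 1) (nat_lit 91) (nat_lit 0) (nat_lit 2) (nat_lit 2) true (nat_lit 11) true (nat_lit 13) false (nat_lit 5) true (nat_lit 15) true (nat_lit 13) (.s false (nat_lit 2) (nat_lit 92) (nat_lit 0) (nat_lit 2) (nat_lit 2) true (nat_lit 11) true (nat_lit 13) false (nat_lit 5) true (nat_lit 15) true (nat_lit 13) (.s false (nat_lit 1) (nat_lit 83) (nat_lit 2) (nat_lit 0) (nat_lit 2) true (nat_lit 9) true (nat_lit 13) false (nat_lit 5) true (nat_lit 13) true (nat_lit 15) (.s true (nat_lit 1) (nat_lit 84) (nat_lit 2) (nat_lit 2) (nat_lit 0) true (nat_lit 11) true (nat_lit 15) false (nat_lit 5) true (nat_lit 13) true (nat_lit 13) (.s false (nat_lit 2) (nat_lit 90) (nat_lit 2) (nat_lit 2) (nat_lit 0) true (nat_lit 11) true (nat_lit 15)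 false (nat_lit 5) true (nat_lit 13) true (nat_lit 13) (.s false (nat_lit 3) (nat_lit 91) (nat_lit 2) (nat_lit 2) (nat_lit 0) true (nat_lit 11) true (nat_lit 15) false (nat_lit 5) true (nat_lit 13) true (nat_lit 13) (.s false (nat_lit 2) (nat_lit 92) (nat_lit 2) (nat_lit 2) (nat_lit 0) true (nat_lit 11) true (nat_lit 15) false (nat_lit 5) true (nat_lit 13) true (nat_lit 13) (.s false (nat_lit 1) (nat_lit 100) (nat_lit 0) (nat_lit 2) (nat_lit 1) true (nat_lit 12) true (nat_lit 14) false (nat_lit 6) true (nat_lit 15) true (nat_lit 13) (.s false (nat_lit 3) (nat_lit 101) (nat_lit 0) (nat_lit 2) (nat_lit 1) true (nat_lit 12) true (nat_lit 14) false (nat_lit 6) true (nat_lit 15) true (nat_lit 13) (.s true (nat_lit 1) (nat_lit 101) (nat_lit 1) (nat_lit 0) (nat_lit 2) true (nat_lit 10) true (nat_lit 13) false (nat_lit 6) true (nat_lit 14) true (nat_lit 15) (.s false (nat_lit 1) (nat_lit 99) (nat_lit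 1) (nat_lit 2) (nat_lit 0) true (nat_lit 12) true (nat_lit 15) false (nat_lit 6) true (nat_lit 14) true (nat_lit 13) (.s true (nat_lit 3) (nat_lit 100) (nat_lit 1) (nat_lit 2) (nat_lit 0) true (nat_lit 12) true (nat_lit 15) false (nat_lit 6) true (nat_lit 14) true (nat_lit 13) (.s false (nat_lit 2) (nat_lit 101) (nat_lit 1) (nat_lit 2) (nat_lit 0) true (nat_lit 12) true (nat_lit 15) false (nat_lit 6) true (nat_lit 14) true (nat_lit 13) dC1c_i136)))))))))))))))))))))))))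

noncomputable def dC1c_i138 : IL := (.s false (nat_lit 2) (nat_lit 21) (nat_lit 2) (nat_lit 6) (nat_lit 2) true (nat_lit 9) true (nat_lit 13) true (nat_lit 2) true (nat_lit 13) true (nat_lit 9) (.s true (nat_lit 1) (nat_lit 22) (nat_lit 2) (nat_lit 6) (nat_lit 2) true (nat_lit 9) true (nat_lit 13) true (nat_lit 2) true (nat_lit 13) true (nat_lit 9) (.s false (nat_lit 1) (nat_lit 22) (nat_lit 6) (nat_lit 2) (nat_lit 2) true (nat_lit 3) true (nat_lit 13) true (nat_lit 2) true (nat_lit 9) true (nat_lit 13) (.s true (nat_lit 2) (nat_lit 29) (nat_lit 1) (nat_lit 2) (nat_lit 6) true (nat_lit 4) true (nat_lit 9) true (nat_lit 1) true (nat_lit 14) true (nat_lit 13) (.s false (nat_lit 3) (nat_lit 28) (nat_lit 2) (nat_lit 1) (nat_lit 6) true (nat_lit 3) true (nat_lit 9) true (nat_lit 1) true (nat_lit 13) true (nat_lit 14) (.s false (nat_lit 3) (nat_lit 28) (nat_lit 2) (nat_lit 2) (nat_lit 5) true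 (nat_lit 4) true (nat_lit 10) true (nat_lit 1) true (nat_lit 13) true (nat_lit 13) (.s false (nat_lit 2) (nat_lit 29) (nat_lit 2) (nat_lit 2) (nat_lit 5) true (nat_lit 4) true (nat_lit 10) true (nat_lit 1) true (nat_lit 13) true (nat_lit 13) (.s false (nat_lit 3) (nat_lit 28) (nat_lit 2) (nat_lit 5) (nat_lit 2) true (nat_lit 9) true (nat_lit 13) true (nat_lit 1) true (nat_lit 13) true (nat_lit 10) (.s false (nat_lit 1) (nat_lit 31) (nat_lit 0) (nat_lit 2) (nat_lit 6) true (nat_lit 5) true (nat_lit 9) true (nat_lit 0) true (nat_lit 15) true (nat_lit 13) (.s true (nat_lit 1) (nat_lit 32) (nat_lit 0) (nat_lit 2) (nat_lit 6) true (nat_lit 5) true (nat_lit 9) true (nat_lit 0) true (nat_lit 15) true (nat_lit 13) (.s true (nat_lit 3) (nat_lit 31) (nat_lit 0) (nat_lit 6) (nat_lit 2) true (nat_lit 11) true (nat_lit 13) true (nat_lit 0) true (nat_lit 15) true (nat_lit 9) (.s true (nat_lit 1) (nat_lit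 32) (nat_lit 0) (nat_lit 6) (nat_lit 2) true (nat_lit 11) true (nat_lit 13) true (nat_lit 0) true (nat_lit 15) true (nat_lit 9) (.s true (nat_lit 3) (nat_lit 31) (nat_lit 2) (nat_lit 0) (nat_lit 6) true (nat_lit 3) true (nat_lit 9) true (nat_lit 0) true (nat_lit 13) true (nat_lit 15) (.s false (nat_lit 3) (nat_lit 31) (nat_lit 2) (nat_lit 2) (nat_lit 4) true (nat_lit 5) true (nat_lit 11) true (nat_lit 0) true (nat_lit 13) true (nat_lit 13) (.s true (nat_lit 3) (nat_lit 33) (nat_lit 2) (nat_lit 2) (nat_lit 4) true (nat_lit 5) true (nat_lit 11) true (nat_lit 0) true (nat_lit 13) true (nat_lit 13) (.s false (nat_lit 3) (nat_lit 32) (nat_lit 2) (nat_lit 6) (nat_lit 0) true (nat_lit 11) true (nat_lit 15) true (nat_lit 0) true (nat_lit 13) true (nat_lit 9) (.s false (nat_lit 2) (nat_lit 33) (nat_lit 2) (nat_lit 6) (nat_lit 0) true (nat_lit 11) true (nat_lit 15) true (nat_lit 0) true (nat_lit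 13) true (nat_lit 9) (.s true (nat_lit 1) (nat_lit 31) (nat_lit 4) (nat_lit 2) (nat_lit 2) true (nat_lit 5) true (nat_lit 13) true (nat_lit 0) true (nat_lit 11) true (nat_lit 13) (.s false (nat_lit 3) (nat_lit 33) (nat_lit 4) (nat_lit 2) (nat_lit 2) true (nat_lit 5) true (nat_lit 13) true (nat_lit 0) true (nat_lit 11) true (nat_lit 13) (.s true (nat_lit 1) (nat_lit 40) (nat_lit 1) (nat_lit 4) (nat_lit 2) true (nat_lit 10) true (nat_lit 13) false (nat_lit 0) true (nat_lit 14) true (nat_lit 11) (.s false (nat_lit 1) (nat_lit 40) (nat_lit 2) (nat_lit 4) (nat_lit 1) true (nat_lit 10) true (nat_lit 14) false (nat_lit 0) true (nat_lit 13) true (nat_lit 11) (.s false (nat_lit 2) (nat_lit 40) (nat_lit 2) (nat_lit 5) (nat_lit 0) true (nat_lit 11) true (nat_lit 15) false (nat_lit 0) true (nat_lit 13) true (nat_lit 10) (.s false (nat_lit 1) (nat_lit 40) (nat_lit 4) (nat_lit 1) (nat_lit 2) true (nat_lit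 5) true (nat_lit 13) false (nat_lit 0) true (nat_lit 11) true (nat_lit 14) (.s true (nat_lit 1) (nat_lit 40) (nat_lit 4) (nat_lit 2) (nat_lit 1) true (nat_lit 6) true (nat_lit 14) false (nat_lit 0) true (nat_lit 11) true (nat_lit 13) (.s true (nat_lit 2) (nat_lit 40) (nat_lit 5) (nat_lit 2) (nat_lit 0) true (nat_lit 6) true (nat_lit 15) false (nat_lit 0) true (nat_lit 10) true (nat_lit 13) dC1c_i137)))))))))))))))))))))))))

noncomputable def dC1c_i139 : IL := (.s false (nat_lit 1) (nat_lit 12) (nat_lit 2) (nat_lit 6) (nat_lit 4) true (nat_lit 5) true (nat_lit 11) true (nat_lit 6) true (nat_lit 13) true (nat_lit 9) (.s false (nat_lit 1) (nat_lit 14) (nat_lit 2) (nat_lit 2) (nat_lit 11) true (nat_lit 0) true (nat_lit 6) true (nat_lit 5) true (nat_lit 13) true (nat_lit 13) (.s false (nat_lit 1) (nat_lit 14) (nat_lit 2) (nat_lit 2) (nat_lit 12) true (nat_lit 0) true (nat_lit 6) true (nat_lit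 5) true (nat_lit 13) true (nat_lit 13) (.s true (nat_lit 2) (nat_lit 15) (nat_lit 2) (nat_lit 2) (nat_lit 10) true (nat_lit 0) true (nat_lit 6) true (nat_lit 5) true (nat_lit 13) true (nat_lit 13) (.s true (nat_lit 3) (nat_lit 15) (nat_lit 2) (nat_lit 2) (nat_lit 11) true (nat_lit 0) true (nat_lit 6) true (nat_lit 5) true (nat_lit 13) true (nat_lit 13) (.s true (nat_lit 2) (nat_lit 15) (nat_lit 2) (nat_lit 2) (nat_lit 12) true (nat_lit 0) true (nat_lit 6) true (nat_lit 5) true (nat_lit 13) true (nat_lit 13) (.s false (nat_lit 1) (nat_lit 14) (nat_lit 10) (nat_lit 2) (nat_lit 2) true (nat_lit 0) true (nat_lit 13) true (nat_lit 5) true (nat_lit 6) true (nat_lit 13) (.s false (nat_lit 1) (nat_lit 14) (nat_lit 11) (nat_lit 2) (nat_lit 2) true (nat_lit 0) true (nat_lit 13) true (nat_lit 5) true (nat_lit 6) true (nat_lit 13) (.s false (nat_lit 3) (nat_lit 14) (nat_lit 12) (nat_lit 2) (nat_lit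 2) true (nat_lit 0) true (nat_lit 13) true (nat_lit 5) true (nat_lit 6) true (nat_lit 13) (.s true (nat_lit 1) (nat_lit 15) (nat_lit 10) (nat_lit 2) (nat_lit 2) true (nat_lit 0) true (nat_lit 13) true (nat_lit 5) true (nat_lit 6) true (nat_lit 13) (.s false (nat_lit 1) (nat_lit 15) (nat_lit 11) (nat_lit 2) (nat_lit 2) true (nat_lit 0) true (nat_lit 13) true (nat_lit 5) true (nat_lit 6) true (nat_lit 13) (.s true (nat_lit 1) (nat_lit 15) (nat_lit 12) (nat_lit 2) (nat_lit 2) true (nat_lit 0) true (nat_lit 13) true (nat_lit 5) true (nat_lit 6) true (nat_lit 13) (.s true (nat_lit 3) (nat_lit 16) (nat_lit 9) (nat_lit 2) (nat_lit 2) true (nat_lit 1) true (nat_lit 13) true (nat_lit 4) true (nat_lit 7) true (nat_lit 13) (.s false (nat_lit 2) (nat_lit 18) (nat_lit 0) (nat_lit 12) (nat_lit 2) true (nat_lit 11) true (nat_lit 13) true (nat_lit 3) true (nat_lit 15) true (nat_lit 6) (.s true (nat_lit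 1) (nat_lit 18) (nat_lit 2) (nat_lit 0) (nat_lit 12) true (nat_lit 0) true (nat_lit 6) true (nat_lit 3) true (nat_lit 13) true (nat_lit 15) (.s true (nat_lit 1) (nat_lit 18) (nat_lit 2) (nat_lit 2) (nat_lit 7) true (nat_lit 2) true (nat_lit 8) true (nat_lit 3) true (nat_lit 13) true (nat_lit 13) (.s false (nat_lit 2) (nat_lit 18) (nat_lit 2) (nat_lit 10) (nat_lit 0) true (nat_lit 11) true (nat_lit 15) true (nat_lit 3) true (nat_lit 13) true (nat_lit 6) (.s true (nat_lit 3) (nat_lit 18) (nat_lit 2) (nat_lit 11) (nat_lit 0) true (nat_lit 11) true (nat_lit 15) true (nat_lit 3) true (nat_lit 13) true (nat_lit 6) (.s false (nat_lit 2) (nat_lit 18) (nat_lit 2) (nat_lit 12) (nat_lit 0) true (nat_lit 11) true (nat_lit 15) true (nat_lit 3) true (nat_lit 13) true (nat_lit 6) (.s false (nat_lit 1) (nat_lit 18) (nat_lit 7) (nat_lit 2) (nat_lit 2) true (nat_lit 2) true (nat_lit 13) true (nat_lit 3)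 true (nat_lit 8) true (nat_lit 13) (.s true (nat_lit 2) (nat_lit 18) (nat_lit 11) (nat_lit 0) (nat_lit 2) true (nat_lit 0) true (nat_lit 13) true (nat_lit 3) true (nat_lit 6) true (nat_lit 15) (.s false (nat_lit 2) (nat_lit 18) (nat_lit 12) (nat_lit 0) (nat_lit 2) true (nat_lit 0) true (nat_lit 13) true (nat_lit 3) true (nat_lit 6) true (nat_lit 15) (.s false (nat_lit 1) (nat_lit 20) (nat_lit 2) (nat_lit 2) (nat_lit 6) true (nat_lit 3) true (nat_lit 9) true (nat_lit 2) true (nat_lit 13) true (nat_lit 13) (.s false (nat_lit 1) (nat_lit 21) (nat_lit 2) (nat_lit 2) (nat_lit 6) true (nat_lit 3) true (nat_lit 9) true (nat_lit 2) true (nat_lit 13) true (nat_lit 13) (.s false (nat_lit 3) (nat_lit 23) (nat_lit 2) (nat_lit 2) (nat_lit 6) true (nat_lit 3) true (nat_lit 9) true (nat_lit 2) true (nat_lit 13) true (nat_lit 13) dC1c_i138)))))))))))))))))))))))))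

noncomputable def dC1c_i140 : IL := (.e false (nat_lit 1) (nat_lit 226) (nat_lit 2) (nat_lit 17) (.e true (nat_lit 3) (nat_lit 227) (nat_lit 2) (nat_lit 17) (.e false (nat_lit 3) (nat_lit 228) (nat_lit 2) (nat_lit 17) (.e true (nat_lit 2) (nat_lit 229) (nat_lit 2) (nat_lit 17) (.e false (nat_lit 1) (nat_lit 230) (nat_lit 2) (nat_lit 17) (.e false (nat_lit 1) (nat_lit 232) (nat_lit 2) (nat_lit 17) (.e true (nat_lit 3) (nat_lit 233) (nat_lit 2) (nat_lit 17) (.e true (nat_lit 3) (nat_lit 234) (nat_lit 2) (nat_lit 17) (.e false (nat_lit 2) (nat_lit 235) (nat_lit 2) (nat_lit 17) (.e true (nat_lit 1) (nat_lit 236) (nat_lit 2) (nat_lit 17) (.e true (nat_lit 2) (nat_lit 238) (nat_lit 2) (nat_lit 17) (.e true (nat_lit 3) (nat_lit 239) (nat_lit 2) (nat_lit 17) (.e false (nat_lit 2) (nat_lit 241) (nat_lit 2) (nat_lit 17) (.e true (nat_lit 3) (nat_lit 243) (nat_lit 2) (nat_lit 17) (.e false (nat_lit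 3) (nat_lit 244) (nat_lit 2) (nat_lit 17) (.e false (nat_lit 2) (nat_lit 245) (nat_lit 2) (nat_lit 17) (.e true (nat_lit 1) (nat_lit 248) (nat_lit 2) (nat_lit 17) (.e false (nat_lit 3) (nat_lit 251) (nat_lit 2) (nat_lit 17) (.e true (nat_lit 3) (nat_lit 256) (nat_lit 2) (nat_lit 17) (.e false (nat_lit 1) (nat_lit 257) (nat_lit 2) (nat_lit 17) (.e false (nat_lit 2) (nat_lit 258) (nat_lit 2) (nat_lit 17) (.e true (nat_lit 1) (nat_lit 259) (nat_lit 2) (nat_lit 17) (.e true (nat_lit 1) (nat_lit 56) (nat_lit 16) (nat_lit 6) (.e false (nat_lit 1) (nat_lit 287) (nat_lit 1) (nat_lit 18) (.u (nat_lit 2) (.p (nat_lit 0) (nat_lit 1) (.n (nat_lit 1) (nat_lit 1) (.p (nat_lit 3) (nat_lit 3) (.p (nat_lit 5) (nat_lit 1) (.p (nat_lit 6) (nat_lit 1) (.p (nat_lit 7) (nat_lit 1) (.p (nat_lit 8) (nat_lit 3) (.n (nat_lit 9) (nat_lit 5) (.p (nat_lit 12) (nat_lit 6) (.n (nat_lit 14) (nat_lit 5) (.n (nat_lit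 15) (nat_lit 3) (.n (nat_lit 16) (nat_lit 1) (.n (nat_lit 17) (nat_lit 2) (.n (nat_lit 18) (nat_lit 2) (.p (nat_lit 20) (nat_lit 5) (.p (nat_lit 23) (nat_lit 2) (.n (nat_lit 24) (nat_lit 1) (.p (nat_lit 26) (nat_lit 3) (.p (nat_lit 27) (nat_lit 3) (.p (nat_lit 28) (nat_lit 3) (.n (nat_lit 29) (nat_lit 6) (.n (nat_lit 30) (nat_lit 1) (.n (nat_lit 31) (nat_lit 4) (.n (nat_lit 32) (nat_lit 4) (.p (nat_lit 33) (nat_lit 3) (.p (nat_lit 35) (nat_lit 6) (.p (nat_lit 36) (nat_lit 2) (.p (nat_lit 37) (nat_lit 1) (.p (nat_lit 40) (nat_lit 2) (.n (nat_lit 41) (nat_lit 5) (.p (nat_lit 49) (nat_lit 2) (.n (nat_lit 52) (nat_lit 2) (.p (nat_lit 53) (nat_lit 2) (.n (nat_lit 54) (nat_lit 1) (.n (nat_lit 58) (nat_lit 1) (.p (nat_lit 60) (nat_lit 1) (.p (nat_lit 61) (nat_lit 2) (.n (nat_lit 62) (nat_lit 1) (.p (nat_lit 63) (nat_lit 1) (.n (nat_lit 64) (nat_lit 1) (.p (nat_lit 69) (nat_lit 3) (.n (nat_lit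 70) (nat_lit 1) .z)))))))))))))))))))))))))))))))))))))))))) .nil)))))))))))))))))))))))))

noncomputable def dC1c_i141 : IL := (.e true (nat_lit 1) (nat_lit 145) (nat_lit 5) (nat_lit 14) (.e false (nat_lit 1) (nat_lit 150) (nat_lit 5) (nat_lit 14) (.e true (nat_lit 1) (nat_lit 152) (nat_lit 5) (nat_lit 14) (.e false (nat_lit 1) (nat_lit 281) (nat_lit 1) (nat_lit 18) (.e false (nat_lit 1) (nat_lit 282) (nat_lit 1) (nat_lit 18) (.e false (nat_lit 2) (nat_lit 260) (nat_lit 1) (nat_lit 18) (.e false (nat_lit 1) (nat_lit 262) (nat_lit 1) (nat_lit 18) (.e true (nat_lit 2) (nat_lit 263) (nat_lit 1) (nat_lit 18) (.e false (nat_lit 3) (nat_lit 271) (nat_lit 1) (nat_lit 18) (.e true (nat_lit 2) (nat_lit 272) (nat_lit 1) (nat_lit 18) (.e true (nat_lit 3) (nat_lit 273) (nat_lit 1) (nat_lit 18) (.e true (nat_lit 2) (nat_lit 277) (nat_lit 1) (nat_lit 18) (.e false (nat_lit 2) (nat_lit 278) (nat_lit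 1) (nat_lit 18) (.e false (nat_lit 3) (nat_lit 280) (nat_lit 1) (nat_lit 18) (.e true (nat_lit 2) (nat_lit 267) (nat_lit 1) (nat_lit 18) (.e true (nat_lit 2) (nat_lit 268) (nat_lit 1) (nat_lit 18) (.e true (nat_lit 1) (nat_lit 269) (nat_lit 1) (nat_lit 18) (.e true (nat_lit 2) (nat_lit 261) (nat_lit 1) (nat_lit 18) (.e true (nat_lit 2) (nat_lit 266) (nat_lit 1) (nat_lit 18) (.e false (nat_lit 3) (nat_lit 270) (nat_lit 1) (nat_lit 18) (.e false (nat_lit 1) (nat_lit 286) (nat_lit 1) (nat_lit 18) (.e false (nat_lit 1) (nat_lit 287) (nat_lit 1) (nat_lit 18) (.e true (nat_lit 1) (nat_lit 81) (nat_lit 13) (nat_lit 8) (.e false (nat_lit 2) (nat_lit 264) (nat_lit 1) (nat_lit 18) (.u (nat_lit 2) (.p (nat_lit 0) (nat_lit 2) (.n (nat_lit 1) (nat_lit 3) (.p (nat_lit 2) (nat_lit 1) (.p (nat_lit 4) (nat_lit 1) (.n (nat_lit 5) (nat_lit 1) (.n (nat_lit 7) (nat_lit 1) (.n (nat_lit 8) (nat_lit 1) (.n (nat_lit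 9) (nat_lit 2) (.p (nat_lit 10) (nat_lit 2) (.p (nat_lit 11) (nat_lit 2) (.n (nat_lit 12) (nat_lit 1) (.p (nat_lit 13) (nat_lit 1) (.n (nat_lit 14) (nat_lit 3) (.p (nat_lit 15) (nat_lit 1) (.n (nat_lit 17) (nat_lit 5) (.n (nat_lit 18) (nat_lit 3) (.p (nat_lit 19) (nat_lit 1) (.p (nat_lit 20) (nat_lit 4) (.n (nat_lit 26) (nat_lit 2) (.n (nat_lit 27) (nat_lit 5) (.p (nat_lit 28) (nat_lit 2) (.n (nat_lit 29) (nat_lit 1) (.p (nat_lit 30) (nat_lit 1) (.p (nat_lit 31) (nat_lit 4) (.n (nat_lit 32) (nat_lit 1) (.n (nat_lit 33) (nat_lit 1) (.p (nat_lit 34) (nat_lit 1) (.n (nat_lit 35) (nat_lit 1) (.p (nat_lit 37) (nat_lit 2) (.p (nat_lit 38) (nat_lit 2) (.p (nat_lit 40) (nat_lit 1) (.n (nat_lit 41) (nat_lit 2) (.p (nat_lit 49) (nat_lit 1) (.n (nat_lit 53) (nat_lit 1) (.p (nat_lit 54) (nat_lit 1) (.n (nat_lit 55) (nat_lit 1) (.p (nat_lit 57) (nat_lit 1) (.n (nat_lit 58) (nat_lit 1) (.p (nat_lit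 64) (nat_lit 1) (.p (nat_lit 376) (nat_lit 1) (.p (nat_lit 377) (nat_lit 1) (.n (nat_lit 380) (nat_lit 1) (.n (nat_lit 381) (nat_lit 1) (.n (nat_lit 382) (nat_lit 2) (.p (nat_lit 383) (nat_lit 2) (.p (nat_lit 384) (nat_lit 2) (.n (nat_lit 385) (nat_lit 1) (.p (nat_lit 393) (nat_lit 2) (.p (nat_lit 394) (nat_lit 1) (.n (nat_lit 395) (nat_lit 3) (.p (nat_lit 397) (nat_lit 3) (.n (nat_lit 401) (nat_lit 1) (.n (nat_lit 402) (nat_lit 1) (.p (nat_lit 403) (nat_lit 1) (.n (nat_lit 404) (nat_lit 2) .z))))))))))))))))))))))))))))))))))))))))))))))))))))))) .nil)))))))))))))))))))))))))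

noncomputable def dC1c_i142 : IL := (.e false (nat_lit 1) (nat_lit 272) (nat_lit 2) (nat_lit 13) (.e true (nat_lit 1) (nat_lit 273) (nat_lit 2) (nat_lit 13) (.e false (nat_lit 2) (nat_lit 274) (nat_lit 2) (nat_lit 13) (.e false (nat_lit 2) (nat_lit 277) (nat_lit 2) (nat_lit 13) (.e false (nat_lit 1) (nat_lit 278) (nat_lit 2) (nat_lit 13) (.e true (nat_lit 2) (nat_lit 279) (nat_lit 2) (nat_lit 13) (.e true (nat_lit 1) (nat_lit 287) (nat_lit 2) (nat_lit 13) (.e true (nat_lit 3) (nat_lit 288) (nat_lit 2) (nat_lit 13) (.e true (nat_lit 1) (nat_lit 266) (nat_lit 2) (nat_lit 13) (.e false (nat_lit 3) (nat_lit 267) (nat_lit 2) (nat_lit 13) (.e false (nat_lit 3) (nat_lit 269) (nat_lit 2) (nat_lit 13) (.e false (nat_lit 1) (nat_lit 280) (nat_lit 2) (nat_lit 13) (.e true (nat_lit 1) (nat_lit 106) (nat_lit 7) (nat_lit 8) (.e false (nat_lit 1) (nat_lit 328) (nat_lit 0) (nat_lit 15) (.e true (nat_lit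 2) (nat_lit 332) (nat_lit 0) (nat_lit 15) (.e true (nat_lit 1) (nat_lit 334) (nat_lit 0) (nat_lit 15) (.e true (nat_lit 1) (nat_lit 335) (nat_lit 0) (nat_lit 15) (.e false (nat_lit 1) (nat_lit 320) (nat_lit 1) (nat_lit 14) (.e true (nat_lit 3) (nat_lit 321) (nat_lit 1) (nat_lit 14) (.e false (nat_lit 1) (nat_lit 322) (nat_lit 1) (nat_lit 14) (.e true (nat_lit 3) (nat_lit 324) (nat_lit 1) (nat_lit 14) (.e false (nat_lit 2) (nat_lit 325) (nat_lit 1) (nat_lit 14) (.e false (nat_lit 3) (nat_lit 326) (nat_lit 1) (nat_lit 14) (.u (nat_lit 2) (.p (nat_lit 1) (nat_lit 3) (.n (nat_lit 2) (nat_lit 3) (.p (nat_lit 3) (nat_lit 1) (.p (nat_lit 4) (nat_lit 2) (.n (nat_lit 5) (nat_lit 1) (.p (nat_lit 6) (nat_lit 3) (.p (nat_lit 7) (nat_lit 3) (.n (nat_lit 8) (nat_lit 3) (.n (nat_lit 9) (nat_lit 5) (.n (nat_lit 10) (nat_lit 1) (.n (nat_lit 12) (nat_lit 2) (.n (nat_lit 13) (nat_lit 6) (.n (nat_lit 15)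 (nat_lit 3) (.p (nat_lit 17) (nat_lit 1) (.p (nat_lit 18) (nat_lit 1) (.p (nat_lit 19) (nat_lit 5) (.n (nat_lit 22) (nat_lit 2) (.p (nat_lit 23) (nat_lit 1) (.n (nat_lit 24) (nat_lit 1) (.n (nat_lit 25) (nat_lit 1) (.n (nat_lit 26) (nat_lit 1) (.n (nat_lit 27) (nat_lit 1) (.p (nat_lit 30) (nat_lit 1) (.n (nat_lit 33) (nat_lit 1) (.p (nat_lit 125) (nat_lit 1) (.p (nat_lit 127) (nat_lit 1) (.p (nat_lit 128) (nat_lit 1) (.n (nat_lit 131) (nat_lit 1) (.p (nat_lit 132) (nat_lit 1) (.n (nat_lit 135) (nat_lit 1) (.n (nat_lit 144) (nat_lit 1) (.p (nat_lit 173) (nat_lit 3) (.p (nat_lit 174) (nat_lit 2) (.n (nat_lit 175) (nat_lit 7) (.n (nat_lit 176) (nat_lit 2) (.p (nat_lit 177) (nat_lit 3) (.p (nat_lit 178) (nat_lit 2) (.p (nat_lit 179) (nat_lit 6) (.p (nat_lit 180) (nat_lit 4) (.n (nat_lit 181) (nat_lit 1) (.n (nat_lit 182) (nat_lit 2) (.p (nat_lit 183) (nat_lit 2) (.p (nat_lit 184) (nat_lit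 4) (.n (nat_lit 185) (nat_lit 2) (.n (nat_lit 186) (nat_lit 1) (.n (nat_lit 187) (nat_lit 4) (.p (nat_lit 190) (nat_lit 1) (.n (nat_lit 191) (nat_lit 3) (.n (nat_lit 192) (nat_lit 3) (.p (nat_lit 193) (nat_lit 3) (.n (nat_lit 194) (nat_lit 2) (.n (nat_lit 195) (nat_lit 2) (.p (nat_lit 197) (nat_lit 1) (.p (nat_lit 198) (nat_lit 1) (.p (nat_lit 199) (nat_lit 3) (.p (nat_lit 200) (nat_lit 4) (.p (nat_lit 201) (nat_lit 3) (.n (nat_lit 203) (nat_lit 1) (.p (nat_lit 206) (nat_lit 1) (.p (nat_lit 211) (nat_lit 1) .z)))))))))))))))))))))))))))))))))))))))))))))))))))))))))))) (.u (nat_lit 2) (.n (nat_lit 212) (nat_lit 1) (.n (nat_lit 215) (nat_lit 1) (.n (nat_lit 216) (nat_lit 2) (.n (nat_lit 219) (nat_lit 1) (.p (nat_lit 220) (nat_lit 2) .z))))) .nil)))))))))))))))))))))))))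

noncomputable def dC1c_i143 : IL := (.e false (nat_lit 2) (nat_lit 341) (nat_lit 0) (nat_lit 15) (.e true (nat_lit 3) (nat_lit 329) (nat_lit 0) (nat_lit 15) (.e false (nat_lit 3) (nat_lit 330) (nat_lit 0) (nat_lit 15) (.e true (nat_lit 2) (nat_lit 336) (nat_lit 0) (nat_lit 15) (.e false (nat_lit 1) (nat_lit 337) (nat_lit 0) (nat_lit 15) (.e false (nat_lit 1) (nat_lit 338) (nat_lit 0) (nat_lit 15) (.e false (nat_lit 2) (nat_lit 331) (nat_lit 0) (nat_lit 15) (.e false (nat_lit 3) (nat_lit 333) (nat_lit 0) (nat_lit 15) (.e true (nat_lit 2) (nat_lit 132) (nat_lit 6) (nat_lit 9) (.e true (nat_lit 2) (nat_lit 139) (nat_lit 6) (nat_lit 9) (.e false (nat_lit 2) (nat_lit 142) (nat_lit 6) (nat_lit 9) (.e false (nat_lit 1) (nat_lit 149) (nat_lit 6) (nat_lit 9) (.e true (nat_lit 2) (nat_lit 46) (nat_lit 20) (nat_lit 2) (.e true (nat_lit 2) (nat_lit 63) (nat_lit 18) (nat_lit 3) (.e false (nat_lit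 2) (nat_lit 99) (nat_lit 11) (nat_lit 6) (.e false (nat_lit 1) (nat_lit 100) (nat_lit 11) (nat_lit 6) (.e true (nat_lit 2) (nat_lit 101) (nat_lit 11) (nat_lit 6) (.e false (nat_lit 3) (nat_lit 260) (nat_lit 2) (nat_lit 13) (.e true (nat_lit 3) (nat_lit 261) (nat_lit 2) (nat_lit 13) (.e false (nat_lit 1) (nat_lit 262) (nat_lit 2) (nat_lit 13) (.e true (nat_lit 1) (nat_lit 264) (nat_lit 2) (nat_lit 13) (.e true (nat_lit 2) (nat_lit 265) (nat_lit 2) (nat_lit 13) (.e false (nat_lit 3) (nat_lit 268) (nat_lit 2) (nat_lit 13) (.e false (nat_lit 2) (nat_lit 270) (nat_lit 2) (nat_lit 13) (.e true (nat_lit 2) (nat_lit 271) (nat_lit 2) (nat_lit 13) dC1c_i142)))))))))))))))))))))))))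

noncomputable def dC1c_i144 : IL := (.e false (nat_lit 3) (nat_lit 305) (nat_lit 0) (nat_lit 19) (.e false (nat_lit 1) (nat_lit 306) (nat_lit 0) (nat_lit 19) (.e true (nat_lit 1) (nat_lit 307) (nat_lit 0) (nat_lit 19) (.e false (nat_lit 1) (nat_lit 308) (nat_lit 0) (nat_lit 19) (.e true (nat_lit 1) (nat_lit 309) (nat_lit 0) (nat_lit 19) (.e false (nat_lit 1) (nat_lit 310) (nat_lit 0) (nat_lit 19) (.e false (nat_lit 1) (nat_lit 314) (nat_lit 0) (nat_lit 19) (.e true (nat_lit 1) (nat_lit 315) (nat_lit 0) (nat_lit 19) (.e false (nat_lit 3) (nat_lit 132) (nat_lit 5) (nat_lit 14) (.e true (nat_lit 1) (nat_lit 133) (nat_lit 5) (nat_lit 14) (.e false (nat_lit 1) (nat_lit 134) (nat_lit 5) (nat_lit 14) (.e false (nat_lit 3) (nat_lit 136) (nat_lit 5) (nat_lit 14) (.e false (nat_lit 3) (nat_lit 137) (nat_lit 5) (nat_lit 14) (.e false (nat_lit 3) (nat_lit 138) (nat_lit 5) (nat_lit 14) (.e true (nat_lit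 2) (nat_lit 139) (nat_lit 5) (nat_lit 14) (.e false (nat_lit 2) (nat_lit 140) (nat_lit 5) (nat_lit 14) (.e false (nat_lit 2) (nat_lit 141) (nat_lit 5) (nat_lit 14) (.e true (nat_lit 1) (nat_lit 142) (nat_lit 5) (nat_lit 14) (.e true (nat_lit 2) (nat_lit 143) (nat_lit 5) (nat_lit 14) (.e false (nat_lit 3) (nat_lit 144) (nat_lit 5) (nat_lit 14) (.e false (nat_lit 2) (nat_lit 145) (nat_lit 5) (nat_lit 14) (.e true (nat_lit 1) (nat_lit 146) (nat_lit 5) (nat_lit 14) (.e true (nat_lit 1) (nat_lit 147) (nat_lit 5) (nat_lit 14) (.e false (nat_lit 2) (nat_lit 152) (nat_lit 5) (nat_lit 14) (.u (nat_lit 2) (.n (nat_lit 0) (nat_lit 1) (.p (nat_lit 1) (nat_lit 2) (.p (nat_lit 2) (nat_lit 2) (.p (nat_lit 3) (nat_lit 3) (.n (nat_lit 4) (nat_lit 4) (.n (nat_lit 6) (nat_lit 3) (.p (nat_lit 7) (nat_lit 2) (.p (nat_lit 8) (nat_lit 1) (.p (nat_lit 9) (nat_lit 4) (.n (nat_lit 10) (nat_lit 1) (.p (nat_lit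 11) (nat_lit 6) (.p (nat_lit 12) (nat_lit 1) (.p (nat_lit 13) (nat_lit 1) (.p (nat_lit 14) (nat_lit 3) (.p (nat_lit 15) (nat_lit 3) (.n (nat_lit 17) (nat_lit 1) (.n (nat_lit 18) (nat_lit 1) (.p (nat_lit 19) (nat_lit 1) (.n (nat_lit 26) (nat_lit 2) (.n (nat_lit 27) (nat_lit 1) (.n (nat_lit 28) (nat_lit 5) (.p (nat_lit 29) (nat_lit 4) (.n (nat_lit 30) (nat_lit 1) (.n (nat_lit 31) (nat_lit 2) (.p (nat_lit 32) (nat_lit 2) (.p (nat_lit 33) (nat_lit 2) (.n (nat_lit 34) (nat_lit 3) (.n (nat_lit 35) (nat_lit 5) (.n (nat_lit 36) (nat_lit 1) (.p (nat_lit 38) (nat_lit 2) (.p (nat_lit 39) (nat_lit 3) (.n (nat_lit 40) (nat_lit 5) (.n (nat_lit 41) (nat_lit 2) (.n (nat_lit 49) (nat_lit 3) (.n (nat_lit 50) (nat_lit 1) (.p (nat_lit 51) (nat_lit 1) (.p (nat_lit 53) (nat_lit 3) (.p (nat_lit 55) (nat_lit 3) (.p (nat_lit 57) (nat_lit 1) (.n (nat_lit 58) (nat_lit 1) (.n (nat_lit 60) (nat_lit 1) (.n (nat_lit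 63) (nat_lit 2) (.p (nat_lit 64) (nat_lit 1) (.n (nat_lit 69) (nat_lit 1) (.p (nat_lit 70) (nat_lit 2) .z))))))))))))))))))))))))))))))))))))))))))))) .nil)))))))))))))))))))))))))

noncomputable def dC1c_i145 : IL := (.e true (nat_lit 3) (nat_lit 272) (nat_lit 1) (nat_lit 18) (.e true (nat_lit 1) (nat_lit 273) (nat_lit 1) (nat_lit 18) (.e false (nat_lit 2) (nat_lit 274) (nat_lit 1) (nat_lit 18) (.e true (nat_lit 2) (nat_lit 277) (nat_lit 1) (nat_lit 18) (.e false (nat_lit 3) (nat_lit 278) (nat_lit 1) (nat_lit 18) (.e false (nat_lit 2) (nat_lit 279) (nat_lit 1) (nat_lit 18) (.e false (nat_lit 1) (nat_lit 280) (nat_lit 1) (nat_lit 18) (.e true (nat_lit 3) (nat_lit 282) (nat_lit 1) (nat_lit 18) (.e false (nat_lit 2) (nat_lit 287) (nat_lit 1) (nat_lit 18) (.e false (nat_lit 1) (nat_lit 288) (nat_lit 1) (nat_lit 18) (.e true (nat_lit 3) (nat_lit 289) (nat_lit 1) (nat_lit 18) (.e false (nat_lit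 1) (nat_lit 40) (nat_lit 27) (nat_lit 2) (.e false (nat_lit 1) (nat_lit 291) (nat_lit 0) (nat_lit 19) (.e true (nat_lit 2) (nat_lit 292) (nat_lit 0) (nat_lit 19) (.e false (nat_lit 2) (nat_lit 293) (nat_lit 0) (nat_lit 19) (.e true (nat_lit 2) (nat_lit 294) (nat_lit 0) (nat_lit 19) (.e false (nat_lit 1) (nat_lit 295) (nat_lit 0) (nat_lit 19) (.e false (nat_lit 1) (nat_lit 296) (nat_lit 0) (nat_lit 19) (.e false (nat_lit 3) (nat_lit 298) (nat_lit 0) (nat_lit 19) (.e true (nat_lit 3) (nat_lit 299) (nat_lit 0) (nat_lit 19) (.e true (nat_lit 1) (nat_lit 300) (nat_lit 0) (nat_lit 19) (.e false (nat_lit 3) (nat_lit 301) (nat_lit 0) (nat_lit 19) (.e false (nat_lit 1) (nat_lit 302) (nat_lit 0) (nat_lit 19) (.e true (nat_lit 2) (nat_lit 303) (nat_lit 0) (nat_lit 19) (.e false (nat_lit 1) (nat_lit 304) (nat_lit 0) (nat_lit 19) dC1c_i144)))))))))))))))))))))))))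

noncomputable def dC1c_i146 : IL := (.e false (nat_lit 1) (nat_lit 270) (nat_lit 2) (nat_lit 13) (.e true (nat_lit 1) (nat_lit 275) (nat_lit 2) (nat_lit 13) (.e false (nat_lit 3) (nat_lit 277) (nat_lit 2) (nat_lit 13) (.e false (nat_lit 3) (nat_lit 283) (nat_lit 2) (nat_lit 13) (.e false (nat_lit 2) (nat_lit 286) (nat_lit 2) (nat_lit 13) (.e false (nat_lit 1) (nat_lit 65) (nat_lit 18) (nat_lit 3) (.e false (nat_lit 2) (nat_lit 149) (nat_lit 6) (nat_lit 9) (.e true (nat_lit 2) (nat_lit 327) (nat_lit 1) (nat_lit 14) (.e true (nat_lit 3) (nat_lit 320) (nat_lit 1) (nat_lit 14) (.e true (nat_lit 1) (nat_lit 328) (nat_lit 0) (nat_lit 15) (.e true (nat_lit 1) (nat_lit 330) (nat_lit 0) (nat_lit 15) (.e true (nat_lit 3) (nat_lit 331) (nat_lit 0) (nat_lit 15) (.e true (nat_lit 2) (nat_lit 332) (nat_lit 0) (nat_lit 15) (.e false (nat_lit 1) (nat_lit 333) (nat_lit 0) (nat_lit 15) (.e true (nat_lit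 1) (nat_lit 334) (nat_lit 0) (nat_lit 15) (.e true (nat_lit 1) (nat_lit 335) (nat_lit 0) (nat_lit 15) (.e true (nat_lit 2) (nat_lit 336) (nat_lit 0) (nat_lit 15) (.e true (nat_lit 3) (nat_lit 337) (nat_lit 0) (nat_lit 15) (.e true (nat_lit 2) (nat_lit 340) (nat_lit 0) (nat_lit 15) (.e true (nat_lit 3) (nat_lit 342) (nat_lit 0) (nat_lit 15) (.e false (nat_lit 3) (nat_lit 345) (nat_lit 0) (nat_lit 15) (.e false (nat_lit 3) (nat_lit 341) (nat_lit 0) (nat_lit 15) (.u (nat_lit 2) (.p (nat_lit 0) (nat_lit 1) (.p (nat_lit 1) (nat_lit 1) (.n (nat_lit 2) (nat_lit 1) (.n (nat_lit 4) (nat_lit 3) (.n (nat_lit 5) (nat_lit 1) (.p (nat_lit 6) (nat_lit 2) (.p (nat_lit 7) (nat_lit 2) (.p (nat_lit 8) (nat_lit 1) (.p (nat_lit 9) (nat_lit 1) (.n (nat_lit 10) (nat_lit 1) (.p (nat_lit 17) (nat_lit 1) (.p (nat_lit 18) (nat_lit 1) (.p (nat_lit 20) (nat_lit 1) (.n (nat_lit 24) (nat_lit 1) (.p (nat_lit 25) (nat_lit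 1) (.n (nat_lit 28) (nat_lit 1) (.p (nat_lit 30) (nat_lit 1) (.p (nat_lit 33) (nat_lit 1) (.n (nat_lit 36) (nat_lit 1) (.p (nat_lit 37) (nat_lit 1) (.p (nat_lit 38) (nat_lit 1) (.p (nat_lit 39) (nat_lit 1) (.n (nat_lit 53) (nat_lit 1) (.n (nat_lit 54) (nat_lit 1) (.n (nat_lit 66) (nat_lit 1) (.n (nat_lit 67) (nat_lit 6) (.p (nat_lit 68) (nat_lit 1) (.n (nat_lit 69) (nat_lit 3) (.n (nat_lit 70) (nat_lit 1) (.n (nat_lit 71) (nat_lit 2) (.n (nat_lit 72) (nat_lit 1) (.p (nat_lit 74) (nat_lit 3) (.p (nat_lit 76) (nat_lit 1) (.p (nat_lit 77) (nat_lit 1) (.n (nat_lit 80) (nat_lit 1) (.n (nat_lit 81) (nat_lit 1) (.n (nat_lit 87) (nat_lit 1) (.n (nat_lit 88) (nat_lit 1) (.n (nat_lit 91) (nat_lit 1) (.p (nat_lit 92) (nat_lit 1) (.p (nat_lit 97) (nat_lit 1) (.p (nat_lit 98) (nat_lit 2) (.n (nat_lit 99) (nat_lit 3) (.p (nat_lit 100) (nat_lit 1) (.p (nat_lit 101) (nat_lit 1) (.n (nat_lit 102) (nat_lit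 2) (.n (nat_lit 105) (nat_lit 2) (.p (nat_lit 107) (nat_lit 1) (.n (nat_lit 113) (nat_lit 2) (.n (nat_lit 114) (nat_lit 1) (.p (nat_lit 121) (nat_lit 1) (.p (nat_lit 122) (nat_lit 1) (.p (nat_lit 125) (nat_lit 3) (.p (nat_lit 126) (nat_lit 1) (.p (nat_lit 127) (nat_lit 4) (.p (nat_lit 128) (nat_lit 2) (.p (nat_lit 129) (nat_lit 1) (.n (nat_lit 131) (nat_lit 1) (.p (nat_lit 132) (nat_lit 3) (.n (nat_lit 134) (nat_lit 2) .z)))))))))))))))))))))))))))))))))))))))))))))))))))))))))))) (.u (nat_lit 2) (.n (nat_lit 135) (nat_lit 1) (.p (nat_lit 140) (nat_lit 1) (.n (nat_lit 144) (nat_lit 3) (.n (nat_lit 147) (nat_lit 2) (.p (nat_lit 148) (nat_lit 1) (.p (nat_lit 149) (nat_lit 4) (.p (nat_lit 151) (nat_lit 3) (.n (nat_lit 153) (nat_lit 2) (.n (nat_lit 155) (nat_lit 2) (.n (nat_lit 156) (nat_lit 1) (.p (nat_lit 161) (nat_lit 1) (.p (nat_lit 163) (nat_lit 1) (.p (nat_lit 165) (nat_lit 1) (.n (nat_lit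 166) (nat_lit 1) (.p (nat_lit 167) (nat_lit 1) (.n (nat_lit 173) (nat_lit 17) (.n (nat_lit 174) (nat_lit 5) (.n (nat_lit 175) (nat_lit 5) (.p (nat_lit 176) (nat_lit 5) (.n (nat_lit 177) (nat_lit 5) (.n (nat_lit 178) (nat_lit 15) (.n (nat_lit 179) (nat_lit 7) (.n (nat_lit 180) (nat_lit 13) (.n (nat_lit 181) (nat_lit 14) (.n (nat_lit 182) (nat_lit 1) (.p (nat_lit 183) (nat_lit 6) (.n (nat_lit 184) (nat_lit 6) (.n (nat_lit 185) (nat_lit 12) (.n (nat_lit 186) (nat_lit 9) (.n (nat_lit 187) (nat_lit 4) (.n (nat_lit 189) (nat_lit 2) (.n (nat_lit 190) (nat_lit 16) (.n (nat_lit 191) (nat_lit 15) (.p (nat_lit 192) (nat_lit 13) (.p (nat_lit 193) (nat_lit 4) (.n (nat_lit 194) (nat_lit 1) (.n (nat_lit 195) (nat_lit 11) (.p (nat_lit 196) (nat_lit 6) (.p (nat_lit 197) (nat_lit 3) (.n (nat_lit 198) (nat_lit 7) (.n (nat_lit 199) (nat_lit 8) (.n (nat_lit 200) (nat_lit 3) (.n (nat_lit 201) (nat_lit 15)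 (.p (nat_lit 202) (nat_lit 9) (.n (nat_lit 204) (nat_lit 1) (.p (nat_lit 205) (nat_lit 4) (.n (nat_lit 206) (nat_lit 1) (.n (nat_lit 208) (nat_lit 4) (.n (nat_lit 209) (nat_lit 1) (.p (nat_lit 210) (nat_lit 2) (.n (nat_lit 211) (nat_lit 9) (.n (nat_lit 213) (nat_lit 11) (.p (nat_lit 214) (nat_lit 7) (.p (nat_lit 215) (nat_lit 5) (.p (nat_lit 216) (nat_lit 2) (.p (nat_lit 217) (nat_lit 2) (.n (nat_lit 219) (nat_lit 1) (.p (nat_lit 220) (nat_lit 6) (.p (nat_lit 221) (nat_lit 5) (.n (nat_lit 222) (nat_lit 3) .z)))))))))))))))))))))))))))))))))))))))))))))))))))))))))))) (.u (nat_lit 2) (.n (nat_lit 223) (nat_lit 9) (.n (nat_lit 224) (nat_lit 3) (.p (nat_lit 227) (nat_lit 2) (.n (nat_lit 228) (nat_lit 1) (.n (nat_lit 229) (nat_lit 1) .z))))) .nil)))))))))))))))))))))))))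

noncomputable def dC1c_i147 : IL := (.s true (nat_lit 3) (nat_lit 86) (nat_lit 2) (nat_lit 2) (nat_lit 0) true (nat_lit 11) true (nat_lit 15) false (nat_lit 5) true (nat_lit 13) true (nat_lit 13) (.s true (nat_lit 2) (nat_lit 87) (nat_lit 2) (nat_lit 2) (nat_lit 0) true (nat_lit 11) true (nat_lit 15) false (nat_lit 5) true (nat_lit 13) true (nat_lit 13) (.s true (nat_lit 2) (nat_lit 88) (nat_lit 2) (nat_lit 2) (nat_lit 0) true (nat_lit 11) true (nat_lit 15) false (nat_lit 5) true (nat_lit 13) true (nat_lit 13) (.s false (nat_lit 1) (nat_lit 89) (nat_lit 2) (nat_lit 2) (nat_lit 0) true (nat_lit 11) true (nat_lit 15) false (nat_lit 5) true (nat_lit 13) true (nat_lit 13) (.s false (nat_lit 3) (nat_lit 91) (nat_lit 2) (nat_lit 2) (nat_lit 0) true (nat_lit 11) true (nat_lit 15) false (nat_lit 5) true (nat_lit 13) true (nat_lit 13) (.s true (nat_lit 1) (nat_lit 92) (nat_lit 2) (nat_lit 2)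 (nat_lit 0) true (nat_lit 11) true (nat_lit 15) false (nat_lit 5) true (nat_lit 13) true (nat_lit 13) (.s true (nat_lit 3) (nat_lit 98) (nat_lit 0) (nat_lit 2) (nat_lit 1) true (nat_lit 12) true (nat_lit 14) false (nat_lit 6) true (nat_lit 15) true (nat_lit 13) (.s true (nat_lit 3) (nat_lit 98) (nat_lit 1) (nat_lit 2) (nat_lit 0) true (nat_lit 12) true (nat_lit 15) false (nat_lit 6) true (nat_lit 14) true (nat_lit 13) (.s true (nat_lit 2) (nat_lit 100) (nat_lit 1) (nat_lit 2) (nat_lit 0) true (nat_lit 12) true (nat_lit 15) false (nat_lit 6) true (nat_lit 14) true (nat_lit 13) (.s true (nat_lit 2) (nat_lit 98) (nat_lit 2) (nat_lit 0) (nat_lit 1) true (nat_lit 10) true (nat_lit 14) false (nat_lit 6) true (nat_lit 13) true (nat_lit 15) (.s false (nat_lit 3) (nat_lit 99) (nat_lit 2) (nat_lit 0) (nat_lit 1) true (nat_lit 10) true (nat_lit 14) false (nat_lit 6) true (nat_lit 13) true (nat_lit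 15) (.s true (nat_lit 3) (nat_lit 98) (nat_lit 2) (nat_lit 1) (nat_lit 0) true (nat_lit 11) true (nat_lit 15) false (nat_lit 6) true (nat_lit 13) true (nat_lit 14) (.s true (nat_lit 1) (nat_lit 103) (nat_lit 0) (nat_lit 0) (nat_lit 2) true (nat_lit 11) true (nat_lit 13) false (nat_lit 7) true (nat_lit 15) true (nat_lit 15) (.s false (nat_lit 3) (nat_lit 103) (nat_lit 0) (nat_lit 2) (nat_lit 0) false (nat_lit 16) true (nat_lit 15) false (nat_lit 7) true (nat_lit 15) true (nat_lit 13) (.s false (nat_lit 3) (nat_lit 104) (nat_lit 0) (nat_lit 2) (nat_lit 0) false (nat_lit 16) true (nat_lit 15) false (nat_lit 7) true (nat_lit 15) true (nat_lit 13) (.s false (nat_lit 1) (nat_lit 106) (nat_lit 0) (nat_lit 0) (nat_lit 1) true (nat_lit 12) true (nat_lit 14) false (nat_lit 8) true (nat_lit 15) true (nat_lit 15) (.s false (nat_lit 1) (nat_lit 106) (nat_lit 0) (nat_lit 1) (nat_lit 0) false (nat_lit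 16) true (nat_lit 15) false (nat_lit 8) true (nat_lit 15) true (nat_lit 14) (.e false (nat_lit 1) (nat_lit 142) (nat_lit 6) (nat_lit 9) (.e true (nat_lit 1) (nat_lit 323) (nat_lit 1) (nat_lit 14) (.e true (nat_lit 1) (nat_lit 324) (nat_lit 1) (nat_lit 14) (.e true (nat_lit 3) (nat_lit 322) (nat_lit 1) (nat_lit 14) (.e true (nat_lit 3) (nat_lit 262) (nat_lit 2) (nat_lit 13) (.e true (nat_lit 3) (nat_lit 265) (nat_lit 2) (nat_lit 13) (.e true (nat_lit 1) (nat_lit 266) (nat_lit 2) (nat_lit 13) (.e false (nat_lit 1) (nat_lit 267) (nat_lit 2) (nat_lit 13) dC1c_i146)))))))))))))))))))))))))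

noncomputable def dC1c_i148 : IL := (.s false (nat_lit 3) (nat_lit 45) (nat_lit 6) (nat_lit 0) (nat_lit 0) true (nat_lit 5) true (nat_lit 15) false (nat_lit 1) true (nat_lit 9) true (nat_lit 15) (.s true (nat_lit 3) (nat_lit 46) (nat_lit 2) (nat_lit 3) (nat_lit 0) true (nat_lit 11) true (nat_lit 15) false (nat_lit 2) true (nat_lit 13) true (nat_lit 12) (.s false (nat_lit 1) (nat_lit 59) (nat_lit 2) (nat_lit 2) (nat_lit 2) true (nat_lit 9) true (nat_lit 13) false (nat_lit 3) true (nat_lit 13) true (nat_lit 13) (.s false (nat_lit 1) (nat_lit 61) (nat_lit 2) (nat_lit 2) (nat_lit 2) true (nat_lit 9) true (nat_lit 13) false (nat_lit 3) true (nat_lit 13) true (nat_lit 13) (.s true (nat_lit 2) (nat_lit 64) (nat_lit 2) (nat_lit 2) (nat_lit 2) true (nat_lit 9) true (nat_lit 13) false (nat_lit 3) true (nat_lit 13) true (nat_lit 13) (.s false (nat_lit 1) (nat_lit 78) (nat_lit 1) (nat_lit 2) (nat_lit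 2) true (nat_lit 10) true (nat_lit 13) false (nat_lit 4) true (nat_lit 14) true (nat_lit 13) (.s true (nat_lit 3) (nat_lit 80) (nat_lit 1) (nat_lit 2) (nat_lit 2) true (nat_lit 10) true (nat_lit 13) false (nat_lit 4) true (nat_lit 14) true (nat_lit 13) (.s true (nat_lit 3) (nat_lit 81) (nat_lit 1) (nat_lit 2) (nat_lit 2) true (nat_lit 10) true (nat_lit 13) false (nat_lit 4) true (nat_lit 14) true (nat_lit 13) (.s true (nat_lit 3) (nat_lit 77) (nat_lit 2) (nat_lit 1) (nat_lit 2) true (nat_lit 9) true (nat_lit 13) false (nat_lit 4) true (nat_lit 13) true (nat_lit 14) (.s true (nat_lit 1) (nat_lit 79) (nat_lit 2) (nat_lit 1) (nat_lit 2) true (nat_lit 9) true (nat_lit 13) false (nat_lit 4) true (nat_lit 13) true (nat_lit 14) (.s false (nat_lit 3) (nat_lit 77) (nat_lit 2) (nat_lit 2) (nat_lit 1) true (nat_lit 10) true (nat_lit 14) false (nat_lit 4) true (nat_lit 13) true (nat_lit 13) (.s false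 (nat_lit 1) (nat_lit 78) (nat_lit 2) (nat_lit 2) (nat_lit 1) true (nat_lit 10) true (nat_lit 14) false (nat_lit 4) true (nat_lit 13) true (nat_lit 13) (.s false (nat_lit 1) (nat_lit 81) (nat_lit 2) (nat_lit 2) (nat_lit 1) true (nat_lit 10) true (nat_lit 14) false (nat_lit 4) true (nat_lit 13) true (nat_lit 13) (.s false (nat_lit 1) (nat_lit 82) (nat_lit 0) (nat_lit 2) (nat_lit 2) true (nat_lit 11) true (nat_lit 13) false (nat_lit 5) true (nat_lit 15) true (nat_lit 13) (.s true (nat_lit 1) (nat_lit 83) (nat_lit 0) (nat_lit 2) (nat_lit 2) true (nat_lit 11) true (nat_lit 13) false (nat_lit 5) true (nat_lit 15) true (nat_lit 13) (.s true (nat_lit 2) (nat_lit 84) (nat_lit 0) (nat_lit 2) (nat_lit 2) true (nat_lit 11) true (nat_lit 13) false (nat_lit 5) true (nat_lit 15) true (nat_lit 13) (.s true (nat_lit 3) (nat_lit 85) (nat_lit 0) (nat_lit 2) (nat_lit 2) true (nat_lit 11) true (nat_lit 13)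 false (nat_lit 5) true (nat_lit 15) true (nat_lit 13) (.s true (nat_lit 3) (nat_lit 86) (nat_lit 0) (nat_lit 2) (nat_lit 2) true (nat_lit 11) true (nat_lit 13) false (nat_lit 5) true (nat_lit 15) true (nat_lit 13) (.s false (nat_lit 1) (nat_lit 90) (nat_lit 0) (nat_lit 2) (nat_lit 2) true (nat_lit 11) true (nat_lit 13) false (nat_lit 5) true (nat_lit 15) true (nat_lit 13) (.s false (nat_lit 2) (nat_lit 91) (nat_lit 0) (nat_lit 2) (nat_lit 2) true (nat_lit 11) true (nat_lit 13) false (nat_lit 5) true (nat_lit 15) true (nat_lit 13) (.s true (nat_lit 1) (nat_lit 92) (nat_lit 0) (nat_lit 2) (nat_lit 2) true (nat_lit 11) true (nat_lit 13) false (nat_lit 5) true (nat_lit 15) true (nat_lit 13) (.s true (nat_lit 2) (nat_lit 82) (nat_lit 2) (nat_lit 0) (nat_lit 2) true (nat_lit 9) true (nat_lit 13) false (nat_lit 5) true (nat_lit 13) true (nat_lit 15) (.s false (nat_lit 1) (nat_lit 83) (nat_lit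 2) (nat_lit 0) (nat_lit 2) true (nat_lit 9) true (nat_lit 13) false (nat_lit 5) true (nat_lit 13) true (nat_lit 15) (.s false (nat_lit 2) (nat_lit 84) (nat_lit 2) (nat_lit 2) (nat_lit 0) true (nat_lit 11) true (nat_lit 15) false (nat_lit 5) true (nat_lit 13) true (nat_lit 13) (.s true (nat_lit 1) (nat_lit 85) (nat_lit 2) (nat_lit 2) (nat_lit 0) true (nat_lit 11) true (nat_lit 15) false (nat_lit 5) true (nat_lit 13) true (nat_lit 13) dC1c_i147)))))))))))))))))))))))))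

noncomputable def dC1c_i149 : IL := (.s false (nat_lit 3) (nat_lit 28) (nat_lit 2) (nat_lit 6) (nat_lit 1) true (nat_lit 10) true (nat_lit 14) true (nat_lit 1) true (nat_lit 13) true (nat_lit 9) (.s true (nat_lit 1) (nat_lit 30) (nat_lit 2) (nat_lit 6) (nat_lit 1) true (nat_lit 10) true (nat_lit 14) true (nat_lit 1) true (nat_lit 13) true (nat_lit 9) (.s true (nat_lit 1) (nat_lit 28) (nat_lit 5) (nat_lit 2) (nat_lit 2) true (nat_lit 4) true (nat_lit 13) true (nat_lit 1) true (nat_lit 10) true (nat_lit 13) (.s false (nat_lit 3) (nat_lit 29) (nat_lit 5) (nat_lit 2) (nat_lit 2) true (nat_lit 4) true (nat_lit 13) true (nat_lit 1) true (nat_lit 10) true (nat_lit 13) (.s false (nat_lit 3) (nat_lit 31) (nat_lit 0) (nat_lit 2) (nat_lit 6) true (nat_lit 5) true (nat_lit 9) true (nat_lit 0) true (nat_lit 15) true (nat_lit 13) (.s true (nat_lit 1) (nat_lit 32) (nat_lit 0) (nat_lit 2) (nat_lit 6)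 true (nat_lit 5) true (nat_lit 9) true (nat_lit 0) true (nat_lit 15) true (nat_lit 13) (.s false (nat_lit 3) (nat_lit 33) (nat_lit 0) (nat_lit 2) (nat_lit 6) true (nat_lit 5) true (nat_lit 9) true (nat_lit 0) true (nat_lit 15) true (nat_lit 13) (.s true (nat_lit 2) (nat_lit 31) (nat_lit 0) (nat_lit 6) (nat_lit 2) true (nat_lit 11) true (nat_lit 13) true (nat_lit 0) true (nat_lit 15) true (nat_lit 9) (.s false (nat_lit 3) (nat_lit 31) (nat_lit 2) (nat_lit 0) (nat_lit 6) true (nat_lit 3) true (nat_lit 9) true (nat_lit 0) true (nat_lit 13) true (nat_lit 15) (.s false (nat_lit 3) (nat_lit 32) (nat_lit 2) (nat_lit 0) (nat_lit 6) true (nat_lit 3) true (nat_lit 9) true (nat_lit 0) true (nat_lit 13) true (nat_lit 15) (.s true (nat_lit 3) (nat_lit 32) (nat_lit 2) (nat_lit 2) (nat_lit 4) true (nat_lit 5) true (nat_lit 11) true (nat_lit 0) true (nat_lit 13) true (nat_lit 13) (.s true (nat_lit 3)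 (nat_lit 33) (nat_lit 2) (nat_lit 2) (nat_lit 4) true (nat_lit 5) true (nat_lit 11) true (nat_lit 0) true (nat_lit 13) true (nat_lit 13) (.s false (nat_lit 1) (nat_lit 36) (nat_lit 2) (nat_lit 2) (nat_lit 4) true (nat_lit 5) true (nat_lit 11) true (nat_lit 0) true (nat_lit 13) true (nat_lit 13) (.s false (nat_lit 1) (nat_lit 33) (nat_lit 2) (nat_lit 6) (nat_lit 0) true (nat_lit 11) true (nat_lit 15) true (nat_lit 0) true (nat_lit 13) true (nat_lit 9) (.s true (nat_lit 2) (nat_lit 31) (nat_lit 4) (nat_lit 2) (nat_lit 2) true (nat_lit 5) true (nat_lit 13) true (nat_lit 0) true (nat_lit 11) true (nat_lit 13) (.s false (nat_lit 1) (nat_lit 32) (nat_lit 4) (nat_lit 2) (nat_lit 2) true (nat_lit 5) true (nat_lit 13) true (nat_lit 0) true (nat_lit 11) true (nat_lit 13) (.s true (nat_lit 2) (nat_lit 40) (nat_lit 1) (nat_lit 2) (nat_lit 4) true (nat_lit 6) true (nat_lit 11) false (nat_lit 0) true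 (nat_lit 14) true (nat_lit 13) (.s false (nat_lit 3) (nat_lit 42) (nat_lit 1) (nat_lit 6) (nat_lit 0) true (nat_lit 12) true (nat_lit 15) false (nat_lit 0) true (nat_lit 14) true (nat_lit 9) (.s true (nat_lit 1) (nat_lit 40) (nat_lit 2) (nat_lit 0) (nat_lit 5) true (nat_lit 4) true (nat_lit 10) false (nat_lit 0) true (nat_lit 13) true (nat_lit 15) (.s true (nat_lit 1) (nat_lit 40) (nat_lit 2) (nat_lit 1) (nat_lit 4) true (nat_lit 5) true (nat_lit 11) false (nat_lit 0) true (nat_lit 13) true (nat_lit 14) (.s false (nat_lit 3) (nat_lit 42) (nat_lit 2) (nat_lit 4) (nat_lit 1) true (nat_lit 10) true (nat_lit 14) false (nat_lit 0) true (nat_lit 13) true (nat_lit 11) (.s false (nat_lit 2) (nat_lit 42) (nat_lit 3) (nat_lit 2) (nat_lit 2) true (nat_lit 6) true (nat_lit 13) false (nat_lit 0) true (nat_lit 12) true (nat_lit 13) (.s true (nat_lit 3) (nat_lit 40) (nat_lit 4) (nat_lit 1) (nat_lit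 2) true (nat_lit 5) true (nat_lit 13) false (nat_lit 0) true (nat_lit 11) true (nat_lit 14) (.s false (nat_lit 2) (nat_lit 42) (nat_lit 5) (nat_lit 0) (nat_lit 2) true (nat_lit 4) true (nat_lit 13) false (nat_lit 0) true (nat_lit 10) true (nat_lit 15) (.s false (nat_lit 2) (nat_lit 42) (nat_lit 5) (nat_lit 2) (nat_lit 0) true (nat_lit 6) true (nat_lit 15) false (nat_lit 0) true (nat_lit 10) true (nat_lit 13) dC1c_i148)))))))))))))))))))))))))

noncomputable def dC1c_i150 : IL := (.s false (nat_lit 1) (nat_lit 18) (nat_lit 1) (nat_lit 14) (nat_lit 0) true (nat_lit 12) true (nat_lit 15) true (nat_lit 3) true (nat_lit 14) true (nat_lit 5) (.s true (nat_lit 1) (nat_lit 18) (nat_lit 1) (nat_lit 15) (nat_lit 0) true (nat_lit 12) true (nat_lit 15) true (nat_lit 3) true (nat_lit 14) true (nat_lit 5) (.s true (nat_lit 1) (nat_lit 18) (nat_lit 2) (nat_lit 2) (nat_lit 7) true (nat_lit 2) true (nat_lit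 8) true (nat_lit 3) true (nat_lit 13) true (nat_lit 13) (.s true (nat_lit 2) (nat_lit 18) (nat_lit 2) (nat_lit 3) (nat_lit 4) true (nat_lit 5) true (nat_lit 11) true (nat_lit 3) true (nat_lit 13) true (nat_lit 12) (.s true (nat_lit 2) (nat_lit 18) (nat_lit 2) (nat_lit 10) (nat_lit 0) true (nat_lit 11) true (nat_lit 15) true (nat_lit 3) true (nat_lit 13) true (nat_lit 6) (.s true (nat_lit 1) (nat_lit 18) (nat_lit 2) (nat_lit 11) (nat_lit 0) true (nat_lit 11) true (nat_lit 15) true (nat_lit 3) true (nat_lit 13) true (nat_lit 6) (.s false (nat_lit 3) (nat_lit 18) (nat_lit 4) (nat_lit 0) (nat_lit 5) true (nat_lit 0) true (nat_lit 10) true (nat_lit 3) true (nat_lit 11) true (nat_lit 15) (.s true (nat_lit 3) (nat_lit 18) (nat_lit 6) (nat_lit 3) (nat_lit 0) true (nat_lit 5) true (nat_lit 15) true (nat_lit 3) true (nat_lit 9) true (nat_lit 12) (.s false (nat_lit 1) (nat_lit 18) (nat_lit 7) (nat_lit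 2) (nat_lit 2) true (nat_lit 2) true (nat_lit 13) true (nat_lit 3) true (nat_lit 8) true (nat_lit 13) (.s true (nat_lit 1) (nat_lit 18) (nat_lit 14) (nat_lit 0) (nat_lit 1) true (nat_lit 0) true (nat_lit 14) true (nat_lit 3) true (nat_lit 5) true (nat_lit 15) (.s false (nat_lit 2) (nat_lit 18) (nat_lit 15) (nat_lit 0) (nat_lit 1) true (nat_lit 0) true (nat_lit 14) true (nat_lit 3) true (nat_lit 5) true (nat_lit 15) (.s false (nat_lit 1) (nat_lit 18) (nat_lit 15) (nat_lit 1) (nat_lit 0) true (nat_lit 1) true (nat_lit 15) true (nat_lit 3) true (nat_lit 5) true (nat_lit 14) (.s false (nat_lit 3) (nat_lit 20) (nat_lit 2) (nat_lit 2) (nat_lit 6) true (nat_lit 3) true (nat_lit 9) true (nat_lit 2) true (nat_lit 13) true (nat_lit 13) (.s false (nat_lit 1) (nat_lit 21) (nat_lit 2) (nat_lit 2) (nat_lit 6) true (nat_lit 3) true (nat_lit 9) true (nat_lit 2) true (nat_lit 13) true (nat_lit 13) (.s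 false (nat_lit 2) (nat_lit 22) (nat_lit 2) (nat_lit 2) (nat_lit 6) true (nat_lit 3) true (nat_lit 9) true (nat_lit 2) true (nat_lit 13) true (nat_lit 13) (.s true (nat_lit 3) (nat_lit 23) (nat_lit 2) (nat_lit 2) (nat_lit 6) true (nat_lit 3) true (nat_lit 9) true (nat_lit 2) true (nat_lit 13) true (nat_lit 13) (.s false (nat_lit 1) (nat_lit 21) (nat_lit 2) (nat_lit 6) (nat_lit 2) true (nat_lit 9) true (nat_lit 13) true (nat_lit 2) true (nat_lit 13) true (nat_lit 9) (.s true (nat_lit 1) (nat_lit 22) (nat_lit 2) (nat_lit 6) (nat_lit 2) true (nat_lit 9) true (nat_lit 13) true (nat_lit 2) true (nat_lit 13) true (nat_lit 9) (.s false (nat_lit 1) (nat_lit 21) (nat_lit 6) (nat_lit 2) (nat_lit 2) true (nat_lit 3) true (nat_lit 13) true (nat_lit 2) true (nat_lit 9) true (nat_lit 13) (.s false (nat_lit 2) (nat_lit 22) (nat_lit 6) (nat_lit 2) (nat_lit 2) true (nat_lit 3) true (nat_lit 13) true (nat_lit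 2) true (nat_lit 9) true (nat_lit 13) (.s false (nat_lit 2) (nat_lit 29) (nat_lit 1) (nat_lit 2) (nat_lit 6) true (nat_lit 4) true (nat_lit 9) true (nat_lit 1) true (nat_lit 14) true (nat_lit 13) (.s true (nat_lit 2) (nat_lit 28) (nat_lit 2) (nat_lit 1) (nat_lit 6) true (nat_lit 3) true (nat_lit 9) true (nat_lit 1) true (nat_lit 13) true (nat_lit 14) (.s false (nat_lit 2) (nat_lit 28) (nat_lit 2) (nat_lit 2) (nat_lit 5) true (nat_lit 4) true (nat_lit 10) true (nat_lit 1) true (nat_lit 13) true (nat_lit 13) (.s true (nat_lit 2) (nat_lit 29) (nat_lit 2) (nat_lit 2) (nat_lit 5) true (nat_lit 4) true (nat_lit 10) true (nat_lit 1) true (nat_lit 13) true (nat_lit 13) (.s false (nat_lit 1) (nat_lit 28) (nat_lit 2) (nat_lit 5) (nat_lit 2) true (nat_lit 9) true (nat_lit 13) true (nat_lit 1) true (nat_lit 13) true (nat_lit 10) dC1c_i149)))))))))))))))))))))))))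

noncomputable def dC1c_i151 : IL := (.s false (nat_lit 3) (nat_lit 30) (nat_lit 1) (nat_lit 2) (nat_lit 5) true (nat_lit 8) true (nat_lit 14) true (nat_lit 1) true (nat_lit 18) true (nat_lit 17) (.s false (nat_lit 3) (nat_lit 30) (nat_lit 2) (nat_lit 1) (nat_lit 5) true (nat_lit 6) true (nat_lit 14) true (nat_lit 1) true (nat_lit 17) true (nat_lit 18) (.s false (nat_lit 3) (nat_lit 61) (nat_lit 1) (nat_lit 2) (nat_lit 2) true (nat_lit 14) true (nat_lit 17) false (nat_lit 6) true (nat_lit 18) true (nat_lit 17) (.e false (nat_lit 3) (nat_lit 79) (nat_lit 13) (nat_lit 8) (.e false (nat_lit 1) (nat_lit 262) (nat_lit 1) (nat_lit 18) (.e false (nat_lit 1) (nat_lit 263) (nat_lit 1) (nat_lit 18) (.e true (nat_lit 2) (nat_lit 265) (nat_lit 1) (nat_lit 18) (.e true (nat_lit 2) (nat_lit 266) (nat_lit 1) (nat_lit 18) (.e true (nat_lit 3) (nat_lit 267) (nat_lit 1) (nat_lit 18) (.e false (nat_lit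 1) (nat_lit 268) (nat_lit 1) (nat_lit 18) (.e false (nat_lit 2) (nat_lit 269) (nat_lit 1) (nat_lit 18) (.e true (nat_lit 3) (nat_lit 270) (nat_lit 1) (nat_lit 18) (.e false (nat_lit 3) (nat_lit 273) (nat_lit 1) (nat_lit 18) (.e false (nat_lit 3) (nat_lit 277) (nat_lit 1) (nat_lit 18) (.e true (nat_lit 1) (nat_lit 278) (nat_lit 1) (nat_lit 18) (.e false (nat_lit 1) (nat_lit 279) (nat_lit 1) (nat_lit 18) (.e false (nat_lit 3) (nat_lit 280) (nat_lit 1) (nat_lit 18) (.e true (nat_lit 3) (nat_lit 281) (nat_lit 1) (nat_lit 18) (.e false (nat_lit 1) (nat_lit 282) (nat_lit 1) (nat_lit 18) (.e true (nat_lit 3) (nat_lit 286) (nat_lit 1) (nat_lit 18) (.e false (nat_lit 3) (nat_lit 289) (nat_lit 1) (nat_lit 18) (.e true (nat_lit 1) (nat_lit 238) (nat_lit 2) (nat_lit 17) (.e false (nat_lit 3) (nat_lit 145) (nat_lit 5) (nat_lit 14) (.u (nat_lit 2) (.n (nat_lit 0) (nat_lit 2) (.n (nat_lit 1) (nat_lit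 1) (.p (nat_lit 2) (nat_lit 2) (.p (nat_lit 3) (nat_lit 1) (.p (nat_lit 7) (nat_lit 1) (.p (nat_lit 8) (nat_lit 2) (.p (nat_lit 9) (nat_lit 1) (.n (nat_lit 10) (nat_lit 2) (.n (nat_lit 11) (nat_lit 1) (.p (nat_lit 12) (nat_lit 1) (.p (nat_lit 14) (nat_lit 3) (.p (nat_lit 15) (nat_lit 2) (.p (nat_lit 17) (nat_lit 1) (.p (nat_lit 18) (nat_lit 4) (.n (nat_lit 19) (nat_lit 1) (.n (nat_lit 20) (nat_lit 2) (.n (nat_lit 26) (nat_lit 3) (.p (nat_lit 27) (nat_lit 3) (.n (nat_lit 28) (nat_lit 1) (.n (nat_lit 29) (nat_lit 3) (.n (nat_lit 30) (nat_lit 4) (.n (nat_lit 31) (nat_lit 2) (.n (nat_lit 32) (nat_lit 3) (.n (nat_lit 33) (nat_lit 2) (.p (nat_lit 34) (nat_lit 1) (.p (nat_lit 35) (nat_lit 4) (.n (nat_lit 37) (nat_lit 2) (.p (nat_lit 38) (nat_lit 1) (.n (nat_lit 39) (nat_lit 1) (.p (nat_lit 40) (nat_lit 3) (.p (nat_lit 45) (nat_lit 1) (.p (nat_lit 275) (nat_lit 1) (.n (nat_lit 327) (nat_lit 6)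 (.n (nat_lit 330) (nat_lit 6) (.p (nat_lit 333) (nat_lit 6) (.n (nat_lit 334) (nat_lit 6) (.n (nat_lit 336) (nat_lit 3) (.n (nat_lit 342) (nat_lit 3) (.n (nat_lit 346) (nat_lit 6) (.n (nat_lit 348) (nat_lit 3) (.n (nat_lit 349) (nat_lit 3) (.n (nat_lit 350) (nat_lit 9) (.n (nat_lit 351) (nat_lit 3) (.n (nat_lit 352) (nat_lit 3) (.n (nat_lit 353) (nat_lit 2) (.p (nat_lit 354) (nat_lit 3) (.n (nat_lit 355) (nat_lit 3) (.n (nat_lit 356) (nat_lit 3) (.p (nat_lit 358) (nat_lit 3) (.p (nat_lit 359) (nat_lit 3) (.n (nat_lit 360) (nat_lit 3) (.n (nat_lit 363) (nat_lit 3) (.n (nat_lit 377) (nat_lit 1) (.n (nat_lit 378) (nat_lit 1) (.n (nat_lit 380) (nat_lit 1) (.n (nat_lit 381) (nat_lit 1) (.p (nat_lit 382) (nat_lit 3) (.n (nat_lit 383) (nat_lit 1) (.n (nat_lit 384) (nat_lit 2) (.p (nat_lit 387) (nat_lit 3) .z)))))))))))))))))))))))))))))))))))))))))))))))))))))))))))) (.u (nat_lit 2) (.n (nat_lit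 388) (nat_lit 3) (.n (nat_lit 393) (nat_lit 2) (.n (nat_lit 394) (nat_lit 1) (.n (nat_lit 397) (nat_lit 1) (.p (nat_lit 401) (nat_lit 3) .z))))) .nil)))))))))))))))))))))))))

noncomputable def dC1c_i152 : IL := (.e false (nat_lit 3) (nat_lit 279) (nat_lit 1) (nat_lit 18) (.e false (nat_lit 3) (nat_lit 281) (nat_lit 1) (nat_lit 18) (.e true (nat_lit 2) (nat_lit 282) (nat_lit 1) (nat_lit 18) (.e false (nat_lit 1) (nat_lit 290) (nat_lit 0) (nat_lit 19) (.e false (nat_lit 3) (nat_lit 291) (nat_lit 0) (nat_lit 19) (.e true (nat_lit 3) (nat_lit 295) (nat_lit 0) (nat_lit 19) (.e true (nat_lit 2) (nat_lit 296) (nat_lit 0) (nat_lit 19) (.e false (nat_lit 2) (nat_lit 297) (nat_lit 0) (nat_lit 19) (.e true (nat_lit 3) (nat_lit 298) (nat_lit 0) (nat_lit 19) (.e true (nat_lit 3) (nat_lit 299) (nat_lit 0) (nat_lit 19) (.e true (nat_lit 1) (nat_lit 301) (nat_lit 0) (nat_lit 19) (.e false (nat_lit 1)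 (nat_lit 302) (nat_lit 0) (nat_lit 19) (.e false (nat_lit 3) (nat_lit 305) (nat_lit 0) (nat_lit 19) (.e false (nat_lit 1) (nat_lit 308) (nat_lit 0) (nat_lit 19) (.e true (nat_lit 1) (nat_lit 309) (nat_lit 0) (nat_lit 19) (.e false (nat_lit 2) (nat_lit 310) (nat_lit 0) (nat_lit 19) (.e true (nat_lit 2) (nat_lit 292) (nat_lit 0) (nat_lit 19) (.e false (nat_lit 2) (nat_lit 304) (nat_lit 0) (nat_lit 19) (.e true (nat_lit 2) (nat_lit 316) (nat_lit 0) (nat_lit 19) (.e true (nat_lit 3) (nat_lit 143) (nat_lit 5) (nat_lit 14) (.e false (nat_lit 3) (nat_lit 144) (nat_lit 5) (nat_lit 14) (.u (nat_lit 2) (.p (nat_lit 0) (nat_lit 1) (.p (nat_lit 1) (nat_lit 2) (.p (nat_lit 2) (nat_lit 1) (.p (nat_lit 3) (nat_lit 1) (.n (nat_lit 4) (nat_lit 2) (.n (nat_lit 6) (nat_lit 1) (.p (nat_lit 7) (nat_lit 1) (.p (nat_lit 9) (nat_lit 2) (.n (nat_lit 10) (nat_lit 1) (.p (nat_lit 11) (nat_lit 4) (.p (nat_lit 12)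 (nat_lit 2) (.n (nat_lit 14) (nat_lit 2) (.p (nat_lit 15) (nat_lit 4) (.p (nat_lit 17) (nat_lit 1) (.p (nat_lit 18) (nat_lit 3) (.n (nat_lit 19) (nat_lit 1) (.p (nat_lit 20) (nat_lit 2) (.p (nat_lit 26) (nat_lit 2) (.n (nat_lit 27) (nat_lit 2) (.n (nat_lit 28) (nat_lit 3) (.p (nat_lit 29) (nat_lit 2) (.p (nat_lit 30) (nat_lit 1) (.p (nat_lit 32) (nat_lit 1) (.p (nat_lit 33) (nat_lit 1) (.n (nat_lit 34) (nat_lit 2) (.n (nat_lit 35) (nat_lit 1) (.n (nat_lit 36) (nat_lit 1) (.n (nat_lit 38) (nat_lit 1) (.n (nat_lit 39) (nat_lit 1) (.p (nat_lit 40) (nat_lit 2) (.n (nat_lit 41) (nat_lit 1) (.n (nat_lit 50) (nat_lit 1) (.p (nat_lit 62) (nat_lit 1) (.p (nat_lit 71) (nat_lit 1) (.p (nat_lit 72) (nat_lit 1) (.n (nat_lit 73) (nat_lit 1) (.n (nat_lit 74) (nat_lit 1) (.n (nat_lit 75) (nat_lit 1) (.p (nat_lit 76) (nat_lit 1) (.p (nat_lit 77) (nat_lit 1) (.n (nat_lit 83) (nat_lit 1) (.p (nat_lit 92)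 (nat_lit 1) (.p (nat_lit 94) (nat_lit 1) (.n (nat_lit 95) (nat_lit 1) (.p (nat_lit 101) (nat_lit 1) (.p (nat_lit 106) (nat_lit 1) (.p (nat_lit 107) (nat_lit 1) (.p (nat_lit 108) (nat_lit 1) (.p (nat_lit 114) (nat_lit 1) (.n (nat_lit 115) (nat_lit 1) (.p (nat_lit 126) (nat_lit 1) (.p (nat_lit 127) (nat_lit 1) (.n (nat_lit 133) (nat_lit 1) (.p (nat_lit 136) (nat_lit 1) (.p (nat_lit 141) (nat_lit 1) (.n (nat_lit 143) (nat_lit 1) (.n (nat_lit 149) (nat_lit 1) (.n (nat_lit 150) (nat_lit 1) (.n (nat_lit 151) (nat_lit 1) (.n (nat_lit 154) (nat_lit 1) .z)))))))))))))))))))))))))))))))))))))))))))))))))))))))))))) (.u (nat_lit 2) (.p (nat_lit 158) (nat_lit 1) (.n (nat_lit 166) (nat_lit 1) (.p (nat_lit 169) (nat_lit 1) (.p (nat_lit 170) (nat_lit 1) (.n (nat_lit 171) (nat_lit 1) (.p (nat_lit 175) (nat_lit 1) (.n (nat_lit 182) (nat_lit 1) (.n (nat_lit 183) (nat_lit 1) (.p (nat_lit 185) (nat_lit 1)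 (.p (nat_lit 187) (nat_lit 1) (.p (nat_lit 188) (nat_lit 1) (.p (nat_lit 190) (nat_lit 1) (.n (nat_lit 192) (nat_lit 1) (.p (nat_lit 193) (nat_lit 1) (.n (nat_lit 198) (nat_lit 1) (.n (nat_lit 220) (nat_lit 1) (.n (nat_lit 222) (nat_lit 1) (.n (nat_lit 225) (nat_lit 1) (.n (nat_lit 232) (nat_lit 1) (.p (nat_lit 235) (nat_lit 1) (.p (nat_lit 241) (nat_lit 1) (.p (nat_lit 242) (nat_lit 1) (.p (nat_lit 244) (nat_lit 1) (.p (nat_lit 245) (nat_lit 1) (.n (nat_lit 246) (nat_lit 1) (.n (nat_lit 247) (nat_lit 1) (.p (nat_lit 249) (nat_lit 2) (.n (nat_lit 251) (nat_lit 1) (.p (nat_lit 252) (nat_lit 2) (.p (nat_lit 254) (nat_lit 2) (.p (nat_lit 255) (nat_lit 1) (.p (nat_lit 259) (nat_lit 1) (.n (nat_lit 260) (nat_lit 1) (.p (nat_lit 262) (nat_lit 2) (.n (nat_lit 266) (nat_lit 2) (.p (nat_lit 269) (nat_lit 1) (.n (nat_lit 270) (nat_lit 1) (.n (nat_lit 274) (nat_lit 1) (.p (nat_lit 279) (nat_lit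 1) (.p (nat_lit 286) (nat_lit 1) (.p (nat_lit 290) (nat_lit 1) (.p (nat_lit 291) (nat_lit 2) (.p (nat_lit 294) (nat_lit 1) (.n (nat_lit 295) (nat_lit 1) (.n (nat_lit 296) (nat_lit 1) (.n (nat_lit 298) (nat_lit 1) (.p (nat_lit 299) (nat_lit 1) (.p (nat_lit 300) (nat_lit 1) (.n (nat_lit 301) (nat_lit 1) (.n (nat_lit 311) (nat_lit 1) (.p (nat_lit 313) (nat_lit 2) (.p (nat_lit 314) (nat_lit 3) (.p (nat_lit 315) (nat_lit 1) (.n (nat_lit 317) (nat_lit 1) (.p (nat_lit 319) (nat_lit 2) (.n (nat_lit 320) (nat_lit 2) (.n (nat_lit 321) (nat_lit 2) (.n (nat_lit 322) (nat_lit 1) (.n (nat_lit 323) (nat_lit 1) (.n (nat_lit 324) (nat_lit 1) .z)))))))))))))))))))))))))))))))))))))))))))))))))))))))))))) (.u (nat_lit 2) (.p (nat_lit 325) (nat_lit 1) (.n (nat_lit 326) (nat_lit 1) (.p (nat_lit 327) (nat_lit 15) (.p (nat_lit 328) (nat_lit 17) (.n (nat_lit 329) (nat_lit 7) (.n (nat_lit 330) (nat_lit 51) (.n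 (nat_lit 331) (nat_lit 3) (.p (nat_lit 332) (nat_lit 3) (.p (nat_lit 333) (nat_lit 1) (.n (nat_lit 334) (nat_lit 8) (.n (nat_lit 335) (nat_lit 9) (.p (nat_lit 336) (nat_lit 23) (.p (nat_lit 337) (nat_lit 21) (.p (nat_lit 338) (nat_lit 34) (.p (nat_lit 339) (nat_lit 1) (.p (nat_lit 340) (nat_lit 2) (.p (nat_lit 341) (nat_lit 2) (.p (nat_lit 342) (nat_lit 3) (.p (nat_lit 343) (nat_lit 8) (.n (nat_lit 344) (nat_lit 1) (.p (nat_lit 345) (nat_lit 2) (.n (nat_lit 346) (nat_lit 7) (.p (nat_lit 347) (nat_lit 1) (.p (nat_lit 348) (nat_lit 1) (.n (nat_lit 349) (nat_lit 10) (.n (nat_lit 350) (nat_lit 23) (.n (nat_lit 351) (nat_lit 27) (.p (nat_lit 352) (nat_lit 7) (.n (nat_lit 353) (nat_lit 1) (.n (nat_lit 354) (nat_lit 36) (.n (nat_lit 355) (nat_lit 30) (.p (nat_lit 356) (nat_lit 7) (.p (nat_lit 357) (nat_lit 10) (.p (nat_lit 358) (nat_lit 22) (.n (nat_lit 359) (nat_lit 14) (.n (nat_lit 360) (nat_lit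 23) (.n (nat_lit 361) (nat_lit 13) (.p (nat_lit 362) (nat_lit 9) (.n (nat_lit 363) (nat_lit 3) (.n (nat_lit 364) (nat_lit 13) (.p (nat_lit 365) (nat_lit 4) (.p (nat_lit 366) (nat_lit 6) (.n (nat_lit 367) (nat_lit 2) (.p (nat_lit 368) (nat_lit 2) (.p (nat_lit 369) (nat_lit 12) (.n (nat_lit 370) (nat_lit 2) (.n (nat_lit 371) (nat_lit 14) (.p (nat_lit 372) (nat_lit 12) (.p (nat_lit 373) (nat_lit 10) (.n (nat_lit 374) (nat_lit 7) (.p (nat_lit 375) (nat_lit 7) (.p (nat_lit 376) (nat_lit 1) (.p (nat_lit 377) (nat_lit 12) (.n (nat_lit 378) (nat_lit 2) (.n (nat_lit 379) (nat_lit 17) (.p (nat_lit 380) (nat_lit 4) (.n (nat_lit 381) (nat_lit 11) (.p (nat_lit 382) (nat_lit 20) (.n (nat_lit 383) (nat_lit 19) (.n (nat_lit 384) (nat_lit 15) .z)))))))))))))))))))))))))))))))))))))))))))))))))))))))))))) (.u (nat_lit 2) (.p (nat_lit 385) (nat_lit 9) (.p (nat_lit 386) (nat_lit 6) (.n (nat_lit 388) (nat_lit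 8) (.p (nat_lit 389) (nat_lit 6) (.p (nat_lit 390) (nat_lit 2) (.n (nat_lit 391) (nat_lit 3) (.n (nat_lit 392) (nat_lit 4) (.n (nat_lit 393) (nat_lit 2) (.n (nat_lit 394) (nat_lit 8) (.n (nat_lit 395) (nat_lit 11) (.p (nat_lit 396) (nat_lit 3) (.p (nat_lit 397) (nat_lit 3) (.n (nat_lit 398) (nat_lit 1) (.p (nat_lit 399) (nat_lit 6) (.p (nat_lit 400) (nat_lit 2) (.p (nat_lit 401) (nat_lit 1) (.n (nat_lit 402) (nat_lit 4) (.p (nat_lit 403) (nat_lit 9) (.p (nat_lit 404) (nat_lit 1) (.p (nat_lit 405) (nat_lit 14) (.n (nat_lit 406) (nat_lit 23) (.p (nat_lit 407) (nat_lit 12) (.p (nat_lit 408) (nat_lit 21) (.p (nat_lit 409) (nat_lit 9) (.p (nat_lit 410) (nat_lit 8) (.p (nat_lit 411) (nat_lit 12) (.n (nat_lit 412) (nat_lit 5) (.n (nat_lit 413) (nat_lit 8) (.p (nat_lit 414) (nat_lit 5) (.n (nat_lit 415) (nat_lit 18) (.p (nat_lit 416) (nat_lit 23) (.n (nat_lit 417) (nat_lit 18) (.n (nat_lit 418)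 (nat_lit 1) (.n (nat_lit 419) (nat_lit 15) (.p (nat_lit 420) (nat_lit 12) (.n (nat_lit 422) (nat_lit 15) (.n (nat_lit 423) (nat_lit 7) (.p (nat_lit 424) (nat_lit 6) (.p (nat_lit 425) (nat_lit 11) (.n (nat_lit 426) (nat_lit 7) (.n (nat_lit 427) (nat_lit 3) (.n (nat_lit 429) (nat_lit 5) (.n (nat_lit 430) (nat_lit 2) (.p (nat_lit 431) (nat_lit 2) (.p (nat_lit 432) (nat_lit 3) (.n (nat_lit 433) (nat_lit 11) (.p (nat_lit 434) (nat_lit 6) .z))))))))))))))))))))))))))))))))))))))))))))))) .nil)))))))))))))))))))))))))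

noncomputable def dC1c_i153 : IL := (.e true (nat_lit 1) (nat_lit 239) (nat_lit 2) (nat_lit 17) (.e false (nat_lit 1) (nat_lit 242) (nat_lit 2) (nat_lit 17) (.e false (nat_lit 3) (nat_lit 244) (nat_lit 2) (nat_lit 17) (.e true (nat_lit 1) (nat_lit 245) (nat_lit 2) (nat_lit 17) (.e true (nat_lit 2) (nat_lit 224) (nat_lit 2) (nat_lit 17) (.e false (nat_lit 1) (nat_lit 227) (nat_lit 2) (nat_lit 17) (.e true (nat_lit 3) (nat_lit 214) (nat_lit 2) (nat_lit 17) (.e true (nat_lit 2) (nat_lit 307) (nat_lit 0) (nat_lit 19) (.e true (nat_lit 3) (nat_lit 77) (nat_lit 13) (nat_lit 8) (.e false (nat_lit 2) (nat_lit 78) (nat_lit 13) (nat_lit 8) (.e false (nat_lit 3) (nat_lit 261) (nat_lit 1) (nat_lit 18) (.e true (nat_lit 1) (nat_lit 262) (nat_lit 1) (nat_lit 18) (.e true (nat_lit 2) (nat_lit 263) (nat_lit 1) (nat_lit 18) (.e false (nat_lit 1) (nat_lit 264) (nat_lit 1) (nat_lit 18) (.e false (nat_lit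 3) (nat_lit 265) (nat_lit 1) (nat_lit 18) (.e false (nat_lit 3) (nat_lit 266) (nat_lit 1) (nat_lit 18) (.e true (nat_lit 2) (nat_lit 267) (nat_lit 1) (nat_lit 18) (.e false (nat_lit 2) (nat_lit 268) (nat_lit 1) (nat_lit 18) (.e true (nat_lit 1) (nat_lit 272) (nat_lit 1) (nat_lit 18) (.e false (nat_lit 3) (nat_lit 273) (nat_lit 1) (nat_lit 18) (.e true (nat_lit 1) (nat_lit 274) (nat_lit 1) (nat_lit 18) (.e false (nat_lit 3) (nat_lit 260) (nat_lit 1) (nat_lit 18) (.e false (nat_lit 2) (nat_lit 269) (nat_lit 1) (nat_lit 18) (.e false (nat_lit 1) (nat_lit 271) (nat_lit 1) (nat_lit 18) (.e false (nat_lit 2) (nat_lit 278) (nat_lit 1) (nat_lit 18) dC1c_i152)))))))))))))))))))))))))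

noncomputable def dC1c_i154 : IL := (.a true (nat_lit 3) (nat_lit 31) (nat_lit 32) (nat_lit 0) (nat_lit 0) (.a false (nat_lit 3) (nat_lit 31) (nat_lit 33) (nat_lit 0) (nat_lit 0) (.a false (nat_lit 3) (nat_lit 31) (nat_lit 35) (nat_lit 0) (nat_lit 0) (.a true (nat_lit 3) (nat_lit 31) (nat_lit 36) (nat_lit 0) (nat_lit 0) (.a false (nat_lit 1) (nat_lit 32) (nat_lit 32) (nat_lit 0) (nat_lit 0) (.a true (nat_lit 2) (nat_lit 32) (nat_lit 33) (nat_lit 0) (nat_lit 0) (.a true (nat_lit 2) (nat_lit 32) (nat_lit 34) (nat_lit 0) (nat_lit 0) (.a true (nat_lit 2) (nat_lit 32) (nat_lit 35) (nat_lit 0) (nat_lit 0) (.a false (nat_lit 2) (nat_lit 32) (nat_lit 36) (nat_lit 0) (nat_lit 0) (.a false (nat_lit 1) (nat_lit 33) (nat_lit 33) (nat_lit 0) (nat_lit 0) (.a false (nat_lit 2) (nat_lit 33) (nat_lit 34) (nat_lit 0) (nat_lit 0) (.a false (nat_lit 2) (nat_lit 33) (nat_lit 35) (nat_lit 0) (nat_lit 0) (.a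 true (nat_lit 2) (nat_lit 33) (nat_lit 36) (nat_lit 0) (nat_lit 0) (.a true (nat_lit 2) (nat_lit 34) (nat_lit 36) (nat_lit 0) (nat_lit 0) (.a true (nat_lit 2) (nat_lit 35) (nat_lit 36) (nat_lit 0) (nat_lit 0) (.e false (nat_lit 2) (nat_lit 212) (nat_lit 2) (nat_lit 17) (.e true (nat_lit 2) (nat_lit 213) (nat_lit 2) (nat_lit 17) (.e true (nat_lit 2) (nat_lit 216) (nat_lit 2) (nat_lit 17) (.e false (nat_lit 3) (nat_lit 217) (nat_lit 2) (nat_lit 17) (.e false (nat_lit 2) (nat_lit 218) (nat_lit 2) (nat_lit 17) (.e true (nat_lit 2) (nat_lit 219) (nat_lit 2) (nat_lit 17) (.e false (nat_lit 2) (nat_lit 221) (nat_lit 2) (nat_lit 17) (.e false (nat_lit 2) (nat_lit 233) (nat_lit 2) (nat_lit 17) (.e false (nat_lit 3) (nat_lit 234) (nat_lit 2) (nat_lit 17) (.e true (nat_lit 2) (nat_lit 235) (nat_lit 2) (nat_lit 17) dC1c_i153)))))))))))))))))))))))))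

noncomputable def dC1c_i155 : IL := (.s false (nat_lit 1) (nat_lit 88) (nat_lit 1) (nat_lit 2) (nat_lit 0) true (nat_lit 16) true (nat_lit 19) false (nat_lit 9) true (nat_lit 18) true (nat_lit 17) (.s true (nat_lit 3) (nat_lit 89) (nat_lit 1) (nat_lit 2) (nat_lit 0) true (nat_lit 16) true (nat_lit 19) false (nat_lit 9) true (nat_lit 18) true (nat_lit 17) (.s false (nat_lit 3) (nat_lit 90) (nat_lit 1) (nat_lit 2) (nat_lit 0) true (nat_lit 16) true (nat_lit 19) false (nat_lit 9) true (nat_lit 18) true (nat_lit 17) (.s true (nat_lit 2) (nat_lit 92) (nat_lit 1) (nat_lit 2) (nat_lit 0) true (nat_lit 16) true (nat_lit 19) false (nat_lit 9) true (nat_lit 18) true (nat_lit 17) (.s false (nat_lit 2) (nat_lit 82) (nat_lit 2) (nat_lit 1) (nat_lit 0) true (nat_lit 15) true (nat_lit 19) false (nat_lit 9) true (nat_lit 17) true (nat_lit 18) (.s false (nat_lit 1) (nat_lit 85) (nat_lit 2) (nat_lit 1)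 (nat_lit 0) true (nat_lit 15) true (nat_lit 19) false (nat_lit 9) true (nat_lit 17) true (nat_lit 18) (.s false (nat_lit 1) (nat_lit 90) (nat_lit 2) (nat_lit 1) (nat_lit 0) true (nat_lit 15) true (nat_lit 19) false (nat_lit 9) true (nat_lit 17) true (nat_lit 18) (.s true (nat_lit 1) (nat_lit 93) (nat_lit 0) (nat_lit 2) (nat_lit 0) false (nat_lit 20) true (nat_lit 19) false (nat_lit 10) true (nat_lit 19) true (nat_lit 17) (.s false (nat_lit 1) (nat_lit 95) (nat_lit 0) (nat_lit 2) (nat_lit 0) false (nat_lit 20) true (nat_lit 19) false (nat_lit 10) true (nat_lit 19) true (nat_lit 17) (.s false (nat_lit 2) (nat_lit 96) (nat_lit 0) (nat_lit 2) (nat_lit 0) false (nat_lit 20) true (nat_lit 19) false (nat_lit 10) true (nat_lit 19) true (nat_lit 17) (.s false (nat_lit 2) (nat_lit 97) (nat_lit 0) (nat_lit 2) (nat_lit 0) false (nat_lit 20) true (nat_lit 19) false (nat_lit 10) true (nat_lit 19) true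 (nat_lit 17) (.s true (nat_lit 1) (nat_lit 98) (nat_lit 0) (nat_lit 1) (nat_lit 1) true (nat_lit 16) true (nat_lit 18) false (nat_lit 11) true (nat_lit 19) true (nat_lit 18) (.s false (nat_lit 1) (nat_lit 99) (nat_lit 1) (nat_lit 0) (nat_lit 1) false (nat_lit 21) true (nat_lit 18) false (nat_lit 11) true (nat_lit 18) true (nat_lit 19) (.s false (nat_lit 3) (nat_lit 100) (nat_lit 1) (nat_lit 0) (nat_lit 1) false (nat_lit 21) true (nat_lit 18) false (nat_lit 11) true (nat_lit 18) true (nat_lit 19) (.s false (nat_lit 1) (nat_lit 98) (nat_lit 1) (nat_lit 1) (nat_lit 0) true (nat_lit 16) true (nat_lit 19) false (nat_lit 11) true (nat_lit 18) true (nat_lit 18) (.s false (nat_lit 2) (nat_lit 99) (nat_lit 1) (nat_lit 1) (nat_lit 0) true (nat_lit 16) true (nat_lit 19) false (nat_lit 11) true (nat_lit 18) true (nat_lit 18) (.s true (nat_lit 1) (nat_lit 102) (nat_lit 0) (nat_lit 0) (nat_lit 1) true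 (nat_lit 16) true (nat_lit 18) false (nat_lit 12) true (nat_lit 19) true (nat_lit 19) (.s false (nat_lit 2) (nat_lit 103) (nat_lit 0) (nat_lit 0) (nat_lit 1) true (nat_lit 16) true (nat_lit 18) false (nat_lit 12) true (nat_lit 19) true (nat_lit 19) (.s true (nat_lit 1) (nat_lit 104) (nat_lit 0) (nat_lit 0) (nat_lit 1) true (nat_lit 16) true (nat_lit 18) false (nat_lit 12) true (nat_lit 19) true (nat_lit 19) (.s true (nat_lit 1) (nat_lit 105) (nat_lit 0) (nat_lit 0) (nat_lit 1) true (nat_lit 16) true (nat_lit 18) false (nat_lit 12) true (nat_lit 19) true (nat_lit 19) (.s false (nat_lit 3) (nat_lit 103) (nat_lit 0) (nat_lit 1) (nat_lit 0) false (nat_lit 20) true (nat_lit 19) false (nat_lit 12) true (nat_lit 19) true (nat_lit 18) (.s false (nat_lit 1) (nat_lit 105) (nat_lit 0) (nat_lit 1) (nat_lit 0) false (nat_lit 20) true (nat_lit 19) false (nat_lit 12) true (nat_lit 19) true (nat_lit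 18) (.a true (nat_lit 3) (nat_lit 34) (nat_lit 34) (nat_lit 0) (nat_lit 0) (.a false (nat_lit 1) (nat_lit 35) (nat_lit 35) (nat_lit 0) (nat_lit 0) (.a true (nat_lit 3) (nat_lit 36) (nat_lit 36) (nat_lit 0) (nat_lit 0) dC1c_i154)))))))))))))))))))))))))

noncomputable def dC1c_i156 : IL := (.s true (nat_lit 1) (nat_lit 66) (nat_lit 2) (nat_lit 0) (nat_lit 2) true (nat_lit 13) true (nat_lit 17) false (nat_lit 7) true (nat_lit 17) true (nat_lit 19) (.s true (nat_lit 3) (nat_lit 74) (nat_lit 2) (nat_lit 0) (nat_lit 2) true (nat_lit 13) true (nat_lit 17) false (nat_lit 7) true (nat_lit 17) true (nat_lit 19) (.s false (nat_lit 3) (nat_lit 66) (nat_lit 2) (nat_lit 2) (nat_lit 0) true (nat_lit 15) true (nat_lit 19) false (nat_lit 7) true (nat_lit 17) true (nat_lit 17) (.s false (nat_lit 2) (nat_lit 67) (nat_lit 2) (nat_lit 2) (nat_lit 0) true (nat_lit 15) true (nat_lit 19) false (nat_lit 7) true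 (nat_lit 17) true (nat_lit 17) (.s true (nat_lit 3) (nat_lit 69) (nat_lit 2) (nat_lit 2) (nat_lit 0) true (nat_lit 15) true (nat_lit 19) false (nat_lit 7) true (nat_lit 17) true (nat_lit 17) (.s true (nat_lit 2) (nat_lit 70) (nat_lit 2) (nat_lit 2) (nat_lit 0) true (nat_lit 15) true (nat_lit 19) false (nat_lit 7) true (nat_lit 17) true (nat_lit 17) (.s true (nat_lit 3) (nat_lit 71) (nat_lit 2) (nat_lit 2) (nat_lit 0) true (nat_lit 15) true (nat_lit 19) false (nat_lit 7) true (nat_lit 17) true (nat_lit 17) (.s false (nat_lit 1) (nat_lit 75) (nat_lit 2) (nat_lit 2) (nat_lit 0) true (nat_lit 15) true (nat_lit 19) false (nat_lit 7) true (nat_lit 17) true (nat_lit 17) (.s false (nat_lit 3) (nat_lit 76) (nat_lit 2) (nat_lit 2) (nat_lit 0) true (nat_lit 15) true (nat_lit 19) false (nat_lit 7) true (nat_lit 17) true (nat_lit 17) (.s false (nat_lit 3) (nat_lit 78) (nat_lit 1) (nat_lit 1) (nat_lit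 2) true (nat_lit 14) true (nat_lit 17) false (nat_lit 8) true (nat_lit 18) true (nat_lit 18) (.s false (nat_lit 1) (nat_lit 80) (nat_lit 1) (nat_lit 1) (nat_lit 2) true (nat_lit 14) true (nat_lit 17) false (nat_lit 8) true (nat_lit 18) true (nat_lit 18) (.s false (nat_lit 1) (nat_lit 79) (nat_lit 1) (nat_lit 2) (nat_lit 1) false (nat_lit 21) true (nat_lit 18) false (nat_lit 8) true (nat_lit 18) true (nat_lit 17) (.s false (nat_lit 3) (nat_lit 81) (nat_lit 1) (nat_lit 2) (nat_lit 1) false (nat_lit 21) true (nat_lit 18) false (nat_lit 8) true (nat_lit 18) true (nat_lit 17) (.s true (nat_lit 2) (nat_lit 82) (nat_lit 0) (nat_lit 1) (nat_lit 2) true (nat_lit 15) true (nat_lit 17) false (nat_lit 9) true (nat_lit 19) true (nat_lit 18) (.s false (nat_lit 3) (nat_lit 90) (nat_lit 0) (nat_lit 1) (nat_lit 2) true (nat_lit 15) true (nat_lit 17) false (nat_lit 9) true (nat_lit 19) true (nat_lit 18)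 (.s false (nat_lit 3) (nat_lit 82) (nat_lit 0) (nat_lit 2) (nat_lit 1) true (nat_lit 16) true (nat_lit 18) false (nat_lit 9) true (nat_lit 19) true (nat_lit 17) (.s false (nat_lit 1) (nat_lit 83) (nat_lit 0) (nat_lit 2) (nat_lit 1) true (nat_lit 16) true (nat_lit 18) false (nat_lit 9) true (nat_lit 19) true (nat_lit 17) (.s true (nat_lit 2) (nat_lit 85) (nat_lit 0) (nat_lit 2) (nat_lit 1) true (nat_lit 16) true (nat_lit 18) false (nat_lit 9) true (nat_lit 19) true (nat_lit 17) (.s false (nat_lit 1) (nat_lit 88) (nat_lit 0) (nat_lit 2) (nat_lit 1) true (nat_lit 16) true (nat_lit 18) false (nat_lit 9) true (nat_lit 19) true (nat_lit 17) (.s true (nat_lit 3) (nat_lit 82) (nat_lit 1) (nat_lit 2) (nat_lit 0) true (nat_lit 16) true (nat_lit 19) false (nat_lit 9) true (nat_lit 18) true (nat_lit 17) (.s true (nat_lit 1) (nat_lit 83) (nat_lit 1) (nat_lit 2) (nat_lit 0) true (nat_lit 16) true (nat_lit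 19) false (nat_lit 9) true (nat_lit 18) true (nat_lit 17) (.s true (nat_lit 3) (nat_lit 84) (nat_lit 1) (nat_lit 2) (nat_lit 0) true (nat_lit 16) true (nat_lit 19) false (nat_lit 9) true (nat_lit 18) true (nat_lit 17) (.s false (nat_lit 1) (nat_lit 85) (nat_lit 1) (nat_lit 2) (nat_lit 0) true (nat_lit 16) true (nat_lit 19) false (nat_lit 9) true (nat_lit 18) true (nat_lit 17) (.s true (nat_lit 2) (nat_lit 86) (nat_lit 1) (nat_lit 2) (nat_lit 0) true (nat_lit 16) true (nat_lit 19) false (nat_lit 9) true (nat_lit 18) true (nat_lit 17) (.s true (nat_lit 3) (nat_lit 87) (nat_lit 1) (nat_lit 2) (nat_lit 0) true (nat_lit 16) true (nat_lit 19) false (nat_lit 9) true (nat_lit 18) true (nat_lit 17) dC1c_i155)))))))))))))))))))))))))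

noncomputable def dC1c_i157 : IL := (.s true (nat_lit 1) (nat_lit 61) (nat_lit 1) (nat_lit 2) (nat_lit 2) true (nat_lit 14) true (nat_lit 17) false (nat_lit 6) true (nat_lit 18) true (nat_lit 17) (.s false (nat_lit 1) (nat_lit 62) (nat_lit 1) (nat_lit 2) (nat_lit 2) true (nat_lit 14) true (nat_lit 17) false (nat_lit 6) true (nat_lit 18) true (nat_lit 17) (.s false (nat_lit 2) (nat_lit 64) (nat_lit 1) (nat_lit 2) (nat_lit 2) true (nat_lit 14) true (nat_lit 17) false (nat_lit 6) true (nat_lit 18) true (nat_lit 17) (.s false (nat_lit 3) (nat_lit 55) (nat_lit 2) (nat_lit 1) (nat_lit 2) true (nat_lit 13) true (nat_lit 17) false (nat_lit 6) true (nat_lit 17) true (nat_lit 18) (.s false (nat_lit 2) (nat_lit 57) (nat_lit 2) (nat_lit 1) (nat_lit 2) true (nat_lit 13) true (nat_lit 17) false (nat_lit 6) true (nat_lit 17) true (nat_lit 18) (.s false (nat_lit 1) (nat_lit 58) (nat_lit 2) (nat_lit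 1) (nat_lit 2) true (nat_lit 13) true (nat_lit 17) false (nat_lit 6) true (nat_lit 17) true (nat_lit 18) (.s true (nat_lit 3) (nat_lit 59) (nat_lit 2) (nat_lit 1) (nat_lit 2) true (nat_lit 13) true (nat_lit 17) false (nat_lit 6) true (nat_lit 17) true (nat_lit 18) (.s true (nat_lit 3) (nat_lit 60) (nat_lit 2) (nat_lit 1) (nat_lit 2) true (nat_lit 13) true (nat_lit 17) false (nat_lit 6) true (nat_lit 17) true (nat_lit 18) (.s false (nat_lit 1) (nat_lit 62) (nat_lit 2) (nat_lit 1) (nat_lit 2) true (nat_lit 13) true (nat_lit 17) false (nat_lit 6) true (nat_lit 17) true (nat_lit 18) (.s true (nat_lit 2) (nat_lit 64) (nat_lit 2) (nat_lit 1) (nat_lit 2) true (nat_lit 13) true (nat_lit 17) false (nat_lit 6) true (nat_lit 17) true (nat_lit 18) (.s true (nat_lit 1) (nat_lit 65) (nat_lit 2) (nat_lit 1) (nat_lit 2) true (nat_lit 13) true (nat_lit 17) false (nat_lit 6) true (nat_lit 17) true (nat_lit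 18) (.s false (nat_lit 3) (nat_lit 55) (nat_lit 2) (nat_lit 2) (nat_lit 1) true (nat_lit 14) true (nat_lit 18) false (nat_lit 6) true (nat_lit 17) true (nat_lit 17) (.s true (nat_lit 3) (nat_lit 56) (nat_lit 2) (nat_lit 2) (nat_lit 1) true (nat_lit 14) true (nat_lit 18) false (nat_lit 6) true (nat_lit 17) true (nat_lit 17) (.s false (nat_lit 3) (nat_lit 57) (nat_lit 2) (nat_lit 2) (nat_lit 1) true (nat_lit 14) true (nat_lit 18) false (nat_lit 6) true (nat_lit 17) true (nat_lit 17) (.s false (nat_lit 1) (nat_lit 58) (nat_lit 2) (nat_lit 2) (nat_lit 1) true (nat_lit 14) true (nat_lit 18) false (nat_lit 6) true (nat_lit 17) true (nat_lit 17) (.s false (nat_lit 3) (nat_lit 61) (nat_lit 2) (nat_lit 2) (nat_lit 1) true (nat_lit 14) true (nat_lit 18) false (nat_lit 6) true (nat_lit 17) true (nat_lit 17) (.s true (nat_lit 3) (nat_lit 62) (nat_lit 2) (nat_lit 2) (nat_lit 1) true (nat_lit 14) true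 (nat_lit 18) false (nat_lit 6) true (nat_lit 17) true (nat_lit 17) (.s false (nat_lit 3) (nat_lit 65) (nat_lit 2) (nat_lit 2) (nat_lit 1) true (nat_lit 14) true (nat_lit 18) false (nat_lit 6) true (nat_lit 17) true (nat_lit 17) (.s false (nat_lit 1) (nat_lit 66) (nat_lit 0) (nat_lit 2) (nat_lit 2) true (nat_lit 15) true (nat_lit 17) false (nat_lit 7) true (nat_lit 19) true (nat_lit 17) (.s false (nat_lit 2) (nat_lit 67) (nat_lit 0) (nat_lit 2) (nat_lit 2) true (nat_lit 15) true (nat_lit 17) false (nat_lit 7) true (nat_lit 19) true (nat_lit 17) (.s true (nat_lit 2) (nat_lit 69) (nat_lit 0) (nat_lit 2) (nat_lit 2) true (nat_lit 15) true (nat_lit 17) false (nat_lit 7) true (nat_lit 19) true (nat_lit 17) (.s false (nat_lit 2) (nat_lit 70) (nat_lit 0) (nat_lit 2) (nat_lit 2) true (nat_lit 15) true (nat_lit 17) false (nat_lit 7) true (nat_lit 19) true (nat_lit 17) (.s true (nat_lit 2) (nat_lit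 72) (nat_lit 0) (nat_lit 2) (nat_lit 2) true (nat_lit 15) true (nat_lit 17) false (nat_lit 7) true (nat_lit 19) true (nat_lit 17) (.s true (nat_lit 3) (nat_lit 74) (nat_lit 0) (nat_lit 2) (nat_lit 2) true (nat_lit 15) true (nat_lit 17) false (nat_lit 7) true (nat_lit 19) true (nat_lit 17) (.s false (nat_lit 1) (nat_lit 76) (nat_lit 0) (nat_lit 2) (nat_lit 2) true (nat_lit 15) true (nat_lit 17) false (nat_lit 7) true (nat_lit 19) true (nat_lit 17) dC1c_i156)))))))))))))))))))))))))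

noncomputable def dC1c_i158 : IL := (.s true (nat_lit 1) (nat_lit 34) (nat_lit 6) (nat_lit 1) (nat_lit 0) true (nat_lit 7) true (nat_lit 19) true (nat_lit 0) true (nat_lit 13) true (nat_lit 18) (.s true (nat_lit 3) (nat_lit 39) (nat_lit 0) (nat_lit 2) (nat_lit 4) true (nat_lit 10) true (nat_lit 15) false (nat_lit 1) true (nat_lit 19) true (nat_lit 17) (.s true (nat_lit 1) (nat_lit 37) (nat_lit 6) (nat_lit 0) (nat_lit 0) true (nat_lit 7) true (nat_lit 19) false (nat_lit 1) true (nat_lit 13) true (nat_lit 19) (.s true (nat_lit 3) (nat_lit 38) (nat_lit 6) (nat_lit 0) (nat_lit 0) true (nat_lit 7) true (nat_lit 19) false (nat_lit 1) true (nat_lit 13) true (nat_lit 19) (.s false (nat_lit 2) (nat_lit 39) (nat_lit 6) (nat_lit 0) (nat_lit 0) true (nat_lit 7) true (nat_lit 19) false (nat_lit 1) true (nat_lit 13) true (nat_lit 19) (.s true (nat_lit 1) (nat_lit 40) (nat_lit 0) (nat_lit 1) (nat_lit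 5) true (nat_lit 9) true (nat_lit 14) false (nat_lit 2) true (nat_lit 19) true (nat_lit 18) (.s true (nat_lit 2) (nat_lit 40) (nat_lit 1) (nat_lit 2) (nat_lit 3) true (nat_lit 11) true (nat_lit 16) false (nat_lit 2) true (nat_lit 18) true (nat_lit 17) (.s true (nat_lit 1) (nat_lit 40) (nat_lit 2) (nat_lit 1) (nat_lit 3) true (nat_lit 9) true (nat_lit 16) false (nat_lit 2) true (nat_lit 17) true (nat_lit 18) (.s false (nat_lit 1) (nat_lit 40) (nat_lit 4) (nat_lit 1) (nat_lit 1) true (nat_lit 9) true (nat_lit 18) false (nat_lit 2) true (nat_lit 15) true (nat_lit 18) (.s true (nat_lit 3) (nat_lit 43) (nat_lit 0) (nat_lit 2) (nat_lit 3) true (nat_lit 12) true (nat_lit 16) false (nat_lit 3) true (nat_lit 19) true (nat_lit 17) (.s false (nat_lit 2) (nat_lit 45) (nat_lit 0) (nat_lit 2) (nat_lit 3) true (nat_lit 12) true (nat_lit 16) false (nat_lit 3) true (nat_lit 19) true (nat_lit 17) (.s true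 (nat_lit 3) (nat_lit 44) (nat_lit 0) (nat_lit 3) (nat_lit 2) true (nat_lit 15) true (nat_lit 17) false (nat_lit 3) true (nat_lit 19) true (nat_lit 16) (.s false (nat_lit 2) (nat_lit 43) (nat_lit 3) (nat_lit 0) (nat_lit 2) true (nat_lit 9) true (nat_lit 17) false (nat_lit 3) true (nat_lit 16) true (nat_lit 19) (.s true (nat_lit 3) (nat_lit 44) (nat_lit 4) (nat_lit 1) (nat_lit 0) true (nat_lit 10) true (nat_lit 19) false (nat_lit 3) true (nat_lit 15) true (nat_lit 18) (.s true (nat_lit 3) (nat_lit 43) (nat_lit 5) (nat_lit 0) (nat_lit 0) true (nat_lit 9) true (nat_lit 19) false (nat_lit 3) true (nat_lit 14) true (nat_lit 19) (.s false (nat_lit 2) (nat_lit 45) (nat_lit 5) (nat_lit 0) (nat_lit 0) true (nat_lit 9) true (nat_lit 19) false (nat_lit 3) true (nat_lit 14) true (nat_lit 19) (.s false (nat_lit 2) (nat_lit 46) (nat_lit 0) (nat_lit 1) (nat_lit 3) true (nat_lit 12) true (nat_lit 16)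 false (nat_lit 4) true (nat_lit 19) true (nat_lit 18) (.s false (nat_lit 2) (nat_lit 46) (nat_lit 3) (nat_lit 0) (nat_lit 1) true (nat_lit 11) true (nat_lit 18) false (nat_lit 4) true (nat_lit 16) true (nat_lit 19) (.s false (nat_lit 1) (nat_lit 46) (nat_lit 3) (nat_lit 1) (nat_lit 0) true (nat_lit 12) true (nat_lit 19) false (nat_lit 4) true (nat_lit 16) true (nat_lit 18) (.s true (nat_lit 2) (nat_lit 54) (nat_lit 2) (nat_lit 2) (nat_lit 2) true (nat_lit 13) true (nat_lit 17) false (nat_lit 5) true (nat_lit 17) true (nat_lit 17) (.s false (nat_lit 2) (nat_lit 55) (nat_lit 1) (nat_lit 2) (nat_lit 2) true (nat_lit 14) true (nat_lit 17) false (nat_lit 6) true (nat_lit 18) true (nat_lit 17) (.s false (nat_lit 1) (nat_lit 56) (nat_lit 1) (nat_lit 2) (nat_lit 2) true (nat_lit 14) true (nat_lit 17) false (nat_lit 6) true (nat_lit 18) true (nat_lit 17) (.s true (nat_lit 2) (nat_lit 57) (nat_lit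 1) (nat_lit 2) (nat_lit 2) true (nat_lit 14) true (nat_lit 17) false (nat_lit 6) true (nat_lit 18) true (nat_lit 17) (.s false (nat_lit 1) (nat_lit 58) (nat_lit 1) (nat_lit 2) (nat_lit 2) true (nat_lit 14) true (nat_lit 17) false (nat_lit 6) true (nat_lit 18) true (nat_lit 17) (.s true (nat_lit 3) (nat_lit 60) (nat_lit 1) (nat_lit 2) (nat_lit 2) true (nat_lit 14) true (nat_lit 17) false (nat_lit 6) true (nat_lit 18) true (nat_lit 17) dC1c_i157)))))))))))))))))))))))))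

noncomputable def dC1c_i159 : IL := (.s true (nat_lit 1) (nat_lit 24) (nat_lit 6) (nat_lit 0) (nat_lit 2) true (nat_lit 5) true (nat_lit 17) true (nat_lit 2) true (nat_lit 13) true (nat_lit 19) (.s true (nat_lit 3) (nat_lit 29) (nat_lit 1) (nat_lit 1) (nat_lit 6) true (nat_lit 6) true (nat_lit 13) true (nat_lit 1) true (nat_lit 18) true (nat_lit 18) (.s true (nat_lit 2) (nat_lit 30) (nat_lit 1) (nat_lit 1) (nat_lit 6) true (nat_lit 6) true (nat_lit 13) true (nat_lit 1) true (nat_lit 18) true (nat_lit 18) (.s true (nat_lit 2) (nat_lit 29) (nat_lit 1) (nat_lit 2) (nat_lit 5) true (nat_lit 8) true (nat_lit 14) true (nat_lit 1) true (nat_lit 18) true (nat_lit 17) (.s false (nat_lit 1) (nat_lit 30) (nat_lit 1) (nat_lit 2) (nat_lit 5) true (nat_lit 8) true (nat_lit 14) true (nat_lit 1) true (nat_lit 18) true (nat_lit 17) (.s true (nat_lit 1) (nat_lit 28) (nat_lit 1) (nat_lit 5) (nat_lit 2)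 true (nat_lit 14) true (nat_lit 17) true (nat_lit 1) true (nat_lit 18) true (nat_lit 14) (.s false (nat_lit 1) (nat_lit 30) (nat_lit 1) (nat_lit 6) (nat_lit 1) false (nat_lit 21) true (nat_lit 18) true (nat_lit 1) true (nat_lit 18) true (nat_lit 13) (.s true (nat_lit 3) (nat_lit 28) (nat_lit 2) (nat_lit 1) (nat_lit 5) true (nat_lit 6) true (nat_lit 14) true (nat_lit 1) true (nat_lit 17) true (nat_lit 18) (.s true (nat_lit 2) (nat_lit 29) (nat_lit 2) (nat_lit 1) (nat_lit 5) true (nat_lit 6) true (nat_lit 14) true (nat_lit 1) true (nat_lit 17) true (nat_lit 18) (.s false (nat_lit 2) (nat_lit 28) (nat_lit 2) (nat_lit 5) (nat_lit 1) true (nat_lit 14) true (nat_lit 18) true (nat_lit 1) true (nat_lit 17) true (nat_lit 14) (.s true (nat_lit 1) (nat_lit 28) (nat_lit 5) (nat_lit 1) (nat_lit 2) true (nat_lit 6) true (nat_lit 17) true (nat_lit 1) true (nat_lit 14) true (nat_lit 18) (.s true (nat_lit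 1) (nat_lit 30) (nat_lit 5) (nat_lit 1) (nat_lit 2) true (nat_lit 6) true (nat_lit 17) true (nat_lit 1) true (nat_lit 14) true (nat_lit 18) (.s true (nat_lit 1) (nat_lit 28) (nat_lit 5) (nat_lit 2) (nat_lit 1) true (nat_lit 8) true (nat_lit 18) true (nat_lit 1) true (nat_lit 14) true (nat_lit 17) (.s true (nat_lit 3) (nat_lit 29) (nat_lit 6) (nat_lit 1) (nat_lit 1) true (nat_lit 6) true (nat_lit 18) true (nat_lit 1) true (nat_lit 13) true (nat_lit 18) (.s false (nat_lit 2) (nat_lit 34) (nat_lit 0) (nat_lit 1) (nat_lit 6) true (nat_lit 7) true (nat_lit 13) true (nat_lit 0) true (nat_lit 19) true (nat_lit 18) (.s true (nat_lit 2) (nat_lit 31) (nat_lit 0) (nat_lit 2) (nat_lit 5) true (nat_lit 9) true (nat_lit 14) true (nat_lit 0) true (nat_lit 19) true (nat_lit 17) (.s false (nat_lit 1) (nat_lit 32) (nat_lit 0) (nat_lit 2) (nat_lit 5) true (nat_lit 9) true (nat_lit 14) true (nat_lit 0) true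 (nat_lit 19) true (nat_lit 17) (.s true (nat_lit 1) (nat_lit 31) (nat_lit 1) (nat_lit 2) (nat_lit 4) true (nat_lit 9) true (nat_lit 15) true (nat_lit 0) true (nat_lit 18) true (nat_lit 17) (.s true (nat_lit 1) (nat_lit 32) (nat_lit 1) (nat_lit 2) (nat_lit 4) true (nat_lit 9) true (nat_lit 15) true (nat_lit 0) true (nat_lit 18) true (nat_lit 17) (.s false (nat_lit 1) (nat_lit 34) (nat_lit 1) (nat_lit 2) (nat_lit 4) true (nat_lit 9) true (nat_lit 15) true (nat_lit 0) true (nat_lit 18) true (nat_lit 17) (.s true (nat_lit 3) (nat_lit 31) (nat_lit 2) (nat_lit 1) (nat_lit 4) true (nat_lit 7) true (nat_lit 15) true (nat_lit 0) true (nat_lit 17) true (nat_lit 18) (.s false (nat_lit 1) (nat_lit 34) (nat_lit 2) (nat_lit 1) (nat_lit 4) true (nat_lit 7) true (nat_lit 15) true (nat_lit 0) true (nat_lit 17) true (nat_lit 18) (.s false (nat_lit 2) (nat_lit 31) (nat_lit 3) (nat_lit 2) (nat_lit 2) true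 (nat_lit 9) true (nat_lit 17) true (nat_lit 0) true (nat_lit 16) true (nat_lit 17) (.s true (nat_lit 2) (nat_lit 31) (nat_lit 4) (nat_lit 2) (nat_lit 1) true (nat_lit 9) true (nat_lit 18) true (nat_lit 0) true (nat_lit 15) true (nat_lit 17) (.s true (nat_lit 3) (nat_lit 35) (nat_lit 6) (nat_lit 0) (nat_lit 1) true (nat_lit 6) true (nat_lit 18) true (nat_lit 0) true (nat_lit 13) true (nat_lit 19) dC1c_i158)))))))))))))))))))))))))

noncomputable def dC1c_i160 : IL := (.s true (nat_lit 3) (nat_lit 18) (nat_lit 8) (nat_lit 0) (nat_lit 2) true (nat_lit 2) true (nat_lit 17) true (nat_lit 5) true (nat_lit 11) true (nat_lit 19) (.s false (nat_lit 1) (nat_lit 18) (nat_lit 8) (nat_lit 2) (nat_lit 0) true (nat_lit 4) true (nat_lit 19) true (nat_lit 5) true (nat_lit 11) true (nat_lit 17) (.s false (nat_lit 2) (nat_lit 18) (nat_lit 9) (nat_lit 1) (nat_lit 1) true (nat_lit 3) true (nat_lit 18) true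 (nat_lit 5) true (nat_lit 10) true (nat_lit 18) (.s false (nat_lit 2) (nat_lit 19) (nat_lit 6) (nat_lit 2) (nat_lit 2) true (nat_lit 5) true (nat_lit 17) true (nat_lit 4) true (nat_lit 13) true (nat_lit 17) (.s true (nat_lit 2) (nat_lit 21) (nat_lit 1) (nat_lit 2) (nat_lit 6) true (nat_lit 6) true (nat_lit 13) true (nat_lit 3) true (nat_lit 18) true (nat_lit 17) (.s false (nat_lit 1) (nat_lit 22) (nat_lit 1) (nat_lit 2) (nat_lit 6) true (nat_lit 6) true (nat_lit 13) true (nat_lit 3) true (nat_lit 18) true (nat_lit 17) (.s false (nat_lit 1) (nat_lit 20) (nat_lit 1) (nat_lit 6) (nat_lit 2) true (nat_lit 14) true (nat_lit 17) true (nat_lit 3) true (nat_lit 18) true (nat_lit 13) (.s true (nat_lit 3) (nat_lit 21) (nat_lit 2) (nat_lit 1) (nat_lit 6) true (nat_lit 5) true (nat_lit 13) true (nat_lit 3) true (nat_lit 17) true (nat_lit 18) (.s true (nat_lit 2) (nat_lit 21) (nat_lit 2) (nat_lit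 2) (nat_lit 5) true (nat_lit 6) true (nat_lit 14) true (nat_lit 3) true (nat_lit 17) true (nat_lit 17) (.s false (nat_lit 2) (nat_lit 22) (nat_lit 2) (nat_lit 2) (nat_lit 5) true (nat_lit 6) true (nat_lit 14) true (nat_lit 3) true (nat_lit 17) true (nat_lit 17) (.s false (nat_lit 3) (nat_lit 21) (nat_lit 2) (nat_lit 5) (nat_lit 2) true (nat_lit 13) true (nat_lit 17) true (nat_lit 3) true (nat_lit 17) true (nat_lit 14) (.s true (nat_lit 2) (nat_lit 20) (nat_lit 2) (nat_lit 6) (nat_lit 1) true (nat_lit 14) true (nat_lit 18) true (nat_lit 3) true (nat_lit 17) true (nat_lit 13) (.s false (nat_lit 2) (nat_lit 22) (nat_lit 2) (nat_lit 6) (nat_lit 1) true (nat_lit 14) true (nat_lit 18) true (nat_lit 3) true (nat_lit 17) true (nat_lit 13) (.s true (nat_lit 2) (nat_lit 20) (nat_lit 5) (nat_lit 2) (nat_lit 2) true (nat_lit 6) true (nat_lit 17) true (nat_lit 3) true (nat_lit 14) true (nat_lit 17)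 (.s true (nat_lit 2) (nat_lit 21) (nat_lit 5) (nat_lit 2) (nat_lit 2) true (nat_lit 6) true (nat_lit 17) true (nat_lit 3) true (nat_lit 14) true (nat_lit 17) (.s true (nat_lit 3) (nat_lit 22) (nat_lit 5) (nat_lit 2) (nat_lit 2) true (nat_lit 6) true (nat_lit 17) true (nat_lit 3) true (nat_lit 14) true (nat_lit 17) (.s false (nat_lit 2) (nat_lit 21) (nat_lit 6) (nat_lit 1) (nat_lit 2) true (nat_lit 5) true (nat_lit 17) true (nat_lit 3) true (nat_lit 13) true (nat_lit 18) (.s false (nat_lit 1) (nat_lit 20) (nat_lit 6) (nat_lit 2) (nat_lit 1) true (nat_lit 6) true (nat_lit 18) true (nat_lit 3) true (nat_lit 13) true (nat_lit 17) (.s false (nat_lit 1) (nat_lit 24) (nat_lit 0) (nat_lit 2) (nat_lit 6) true (nat_lit 7) true (nat_lit 13) true (nat_lit 2) true (nat_lit 19) true (nat_lit 17) (.s false (nat_lit 3) (nat_lit 25) (nat_lit 0) (nat_lit 2) (nat_lit 6) true (nat_lit 7) true (nat_lit 13)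 true (nat_lit 2) true (nat_lit 19) true (nat_lit 17) (.s false (nat_lit 3) (nat_lit 27) (nat_lit 0) (nat_lit 2) (nat_lit 6) true (nat_lit 7) true (nat_lit 13) true (nat_lit 2) true (nat_lit 19) true (nat_lit 17) (.s true (nat_lit 3) (nat_lit 24) (nat_lit 2) (nat_lit 2) (nat_lit 4) true (nat_lit 7) true (nat_lit 15) true (nat_lit 2) true (nat_lit 17) true (nat_lit 17) (.s true (nat_lit 1) (nat_lit 25) (nat_lit 2) (nat_lit 2) (nat_lit 4) true (nat_lit 7) true (nat_lit 15) true (nat_lit 2) true (nat_lit 17) true (nat_lit 17) (.s false (nat_lit 2) (nat_lit 27) (nat_lit 2) (nat_lit 2) (nat_lit 4) true (nat_lit 7) true (nat_lit 15) true (nat_lit 2) true (nat_lit 17) true (nat_lit 17) (.s true (nat_lit 2) (nat_lit 24) (nat_lit 2) (nat_lit 6) (nat_lit 0) true (nat_lit 15) true (nat_lit 19) true (nat_lit 2) true (nat_lit 17) true (nat_lit 13) dC1c_i159)))))))))))))))))))))))))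

noncomputable def dC1c_i161 : IL := (.s false (nat_lit 2) (nat_lit 14) (nat_lit 1) (nat_lit 3) (nat_lit 6) true (nat_lit 6) true (nat_lit 13) true (nat_lit 7) true (nat_lit 18) true (nat_lit 16) (.s true (nat_lit 1) (nat_lit 14) (nat_lit 1) (nat_lit 15) (nat_lit 1) false (nat_lit 21) true (nat_lit 18) true (nat_lit 7) true (nat_lit 18) true (nat_lit 7) (.s true (nat_lit 3) (nat_lit 15) (nat_lit 2) (nat_lit 0) (nat_lit 13) false (nat_lit 1) true (nat_lit 8) true (nat_lit 7) true (nat_lit 17) true (nat_lit 19) (.s false (nat_lit 1) (nat_lit 14) (nat_lit 2) (nat_lit 1) (nat_lit 10) true (nat_lit 0) true (nat_lit 9) true (nat_lit 7) true (nat_lit 17) true (nat_lit 18) (.s false (nat_lit 3) (nat_lit 14) (nat_lit 2) (nat_lit 8) (nat_lit 2) true (nat_lit 13) true (nat_lit 17) true (nat_lit 7) true (nat_lit 17) true (nat_lit 11) (.s false (nat_lit 2) (nat_lit 15) (nat_lit 2) (nat_lit 8) (nat_lit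 2) true (nat_lit 13) true (nat_lit 17) true (nat_lit 7) true (nat_lit 17) true (nat_lit 11) (.s true (nat_lit 3) (nat_lit 14) (nat_lit 3) (nat_lit 6) (nat_lit 1) true (nat_lit 11) true (nat_lit 18) true (nat_lit 7) true (nat_lit 16) true (nat_lit 13) (.s false (nat_lit 2) (nat_lit 15) (nat_lit 13) (nat_lit 0) (nat_lit 2) false (nat_lit 1) true (nat_lit 17) true (nat_lit 7) true (nat_lit 8) true (nat_lit 19) (.s false (nat_lit 2) (nat_lit 15) (nat_lit 13) (nat_lit 2) (nat_lit 0) true (nat_lit 2) true (nat_lit 19) true (nat_lit 7) true (nat_lit 8) true (nat_lit 17) (.s true (nat_lit 1) (nat_lit 16) (nat_lit 0) (nat_lit 0) (nat_lit 16) true (nat_lit 0) true (nat_lit 6) true (nat_lit 6) true (nat_lit 19) true (nat_lit 19) (.s false (nat_lit 2) (nat_lit 17) (nat_lit 0) (nat_lit 0) (nat_lit 17) true (nat_lit 0) true (nat_lit 6) true (nat_lit 6) true (nat_lit 19) true (nat_lit 19) (.s false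 (nat_lit 2) (nat_lit 16) (nat_lit 0) (nat_lit 10) (nat_lit 2) true (nat_lit 15) true (nat_lit 17) true (nat_lit 6) true (nat_lit 19) true (nat_lit 9) (.s true (nat_lit 1) (nat_lit 17) (nat_lit 1) (nat_lit 0) (nat_lit 14) true (nat_lit 0) true (nat_lit 7) true (nat_lit 6) true (nat_lit 18) true (nat_lit 19) (.s true (nat_lit 1) (nat_lit 16) (nat_lit 1) (nat_lit 2) (nat_lit 9) true (nat_lit 3) true (nat_lit 10) true (nat_lit 6) true (nat_lit 18) true (nat_lit 17) (.s false (nat_lit 1) (nat_lit 17) (nat_lit 2) (nat_lit 2) (nat_lit 7) true (nat_lit 3) true (nat_lit 12) true (nat_lit 6) true (nat_lit 17) true (nat_lit 17) (.s false (nat_lit 3) (nat_lit 16) (nat_lit 2) (nat_lit 7) (nat_lit 2) true (nat_lit 13) true (nat_lit 17) true (nat_lit 6) true (nat_lit 17) true (nat_lit 12) (.s true (nat_lit 3) (nat_lit 16) (nat_lit 9) (nat_lit 1) (nat_lit 2) true (nat_lit 1) true (nat_lit 17) true (nat_lit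 6) true (nat_lit 10) true (nat_lit 18) (.s true (nat_lit 1) (nat_lit 16) (nat_lit 9) (nat_lit 2) (nat_lit 1) true (nat_lit 3) true (nat_lit 18) true (nat_lit 6) true (nat_lit 10) true (nat_lit 17) (.s true (nat_lit 3) (nat_lit 16) (nat_lit 14) (nat_lit 0) (nat_lit 1) true (nat_lit 0) true (nat_lit 18) true (nat_lit 6) true (nat_lit 7) true (nat_lit 19) (.s true (nat_lit 3) (nat_lit 16) (nat_lit 15) (nat_lit 1) (nat_lit 0) true (nat_lit 1) true (nat_lit 19) true (nat_lit 6) true (nat_lit 7) true (nat_lit 18) (.s false (nat_lit 2) (nat_lit 18) (nat_lit 0) (nat_lit 0) (nat_lit 13) true (nat_lit 2) true (nat_lit 8) true (nat_lit 5) true (nat_lit 19) true (nat_lit 19) (.s false (nat_lit 2) (nat_lit 18) (nat_lit 0) (nat_lit 2) (nat_lit 8) true (nat_lit 4) true (nat_lit 11) true (nat_lit 5) true (nat_lit 19) true (nat_lit 17) (.s true (nat_lit 2) (nat_lit 18) (nat_lit 1) (nat_lit 1) (nat_lit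 9) true (nat_lit 3) true (nat_lit 10) true (nat_lit 5) true (nat_lit 18) true (nat_lit 18) (.s false (nat_lit 3) (nat_lit 18) (nat_lit 1) (nat_lit 7) (nat_lit 2) true (nat_lit 14) true (nat_lit 17) true (nat_lit 5) true (nat_lit 18) true (nat_lit 12) (.s true (nat_lit 3) (nat_lit 18) (nat_lit 7) (nat_lit 1) (nat_lit 2) true (nat_lit 3) true (nat_lit 17) true (nat_lit 5) true (nat_lit 12) true (nat_lit 18) dC1c_i160)))))))))))))))))))))))))

noncomputable def dC1c_i162 : IL := (.e true (nat_lit 2) (nat_lit 284) (nat_lit 2) (nat_lit 13) (.e false (nat_lit 1) (nat_lit 140) (nat_lit 6) (nat_lit 9) (.e true (nat_lit 2) (nat_lit 149) (nat_lit 6) (nat_lit 9) (.e true (nat_lit 2) (nat_lit 150) (nat_lit 6) (nat_lit 9) (.e false (nat_lit 2) (nat_lit 341) (nat_lit 0) (nat_lit 15) (.e true (nat_lit 1) (nat_lit 328) (nat_lit 0) (nat_lit 15) (.e false (nat_lit 3) (nat_lit 329) (nat_lit 0) (nat_lit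 15) (.e false (nat_lit 1) (nat_lit 330) (nat_lit 0) (nat_lit 15) (.e true (nat_lit 2) (nat_lit 331) (nat_lit 0) (nat_lit 15) (.e false (nat_lit 1) (nat_lit 333) (nat_lit 0) (nat_lit 15) (.e false (nat_lit 1) (nat_lit 334) (nat_lit 0) (nat_lit 15) (.e false (nat_lit 1) (nat_lit 335) (nat_lit 0) (nat_lit 15) (.e false (nat_lit 2) (nat_lit 337) (nat_lit 0) (nat_lit 15) (.e false (nat_lit 3) (nat_lit 340) (nat_lit 0) (nat_lit 15) (.e true (nat_lit 1) (nat_lit 345) (nat_lit 0) (nat_lit 15) (.e true (nat_lit 1) (nat_lit 189) (nat_lit 4) (nat_lit 11) (.e false (nat_lit 3) (nat_lit 338) (nat_lit 0) (nat_lit 15) (.e false (nat_lit 1) (nat_lit 46) (nat_lit 20) (nat_lit 2) (.e false (nat_lit 1) (nat_lit 321) (nat_lit 1) (nat_lit 14) (.e true (nat_lit 3) (nat_lit 323) (nat_lit 1) (nat_lit 14) (.e false (nat_lit 3) (nat_lit 324) (nat_lit 1) (nat_lit 14) (.e true (nat_lit 3) (nat_lit 325) (nat_lit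 1) (nat_lit 14) (.e true (nat_lit 1) (nat_lit 326) (nat_lit 1) (nat_lit 14) (.u (nat_lit 2) (.p (nat_lit 4) (nat_lit 5) (.p (nat_lit 5) (nat_lit 4) (.n (nat_lit 6) (nat_lit 1) (.n (nat_lit 7) (nat_lit 1) (.n (nat_lit 8) (nat_lit 2) (.n (nat_lit 9) (nat_lit 1) (.p (nat_lit 12) (nat_lit 2) (.n (nat_lit 13) (nat_lit 2) (.p (nat_lit 16) (nat_lit 3) (.p (nat_lit 18) (nat_lit 3) (.p (nat_lit 19) (nat_lit 1) (.p (nat_lit 21) (nat_lit 3) (.n (nat_lit 22) (nat_lit 1) (.n (nat_lit 23) (nat_lit 1) (.p (nat_lit 24) (nat_lit 1) (.n (nat_lit 30) (nat_lit 3) (.n (nat_lit 35) (nat_lit 1) (.p (nat_lit 69) (nat_lit 1) (.n (nat_lit 70) (nat_lit 1) (.p (nat_lit 71) (nat_lit 1) (.n (nat_lit 74) (nat_lit 1) (.p (nat_lit 75) (nat_lit 1) (.p (nat_lit 109) (nat_lit 1) (.p (nat_lit 110) (nat_lit 1) (.n (nat_lit 129) (nat_lit 1) (.p (nat_lit 130) (nat_lit 1) (.n (nat_lit 131) (nat_lit 1) (.p (nat_lit 132) (nat_lit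 1) (.p (nat_lit 134) (nat_lit 1) (.n (nat_lit 135) (nat_lit 1) (.n (nat_lit 173) (nat_lit 6) (.p (nat_lit 174) (nat_lit 3) (.p (nat_lit 175) (nat_lit 11) (.n (nat_lit 177) (nat_lit 1) (.n (nat_lit 178) (nat_lit 3) (.n (nat_lit 179) (nat_lit 13) (.p (nat_lit 180) (nat_lit 1) (.n (nat_lit 181) (nat_lit 5) (.p (nat_lit 182) (nat_lit 4) (.n (nat_lit 183) (nat_lit 6) (.n (nat_lit 184) (nat_lit 4) (.p (nat_lit 185) (nat_lit 5) (.p (nat_lit 186) (nat_lit 3) (.p (nat_lit 187) (nat_lit 4) (.p (nat_lit 188) (nat_lit 2) (.p (nat_lit 190) (nat_lit 8) (.p (nat_lit 191) (nat_lit 5) (.p (nat_lit 192) (nat_lit 4) (.n (nat_lit 193) (nat_lit 3) (.p (nat_lit 194) (nat_lit 3) (.p (nat_lit 195) (nat_lit 2) (.n (nat_lit 196) (nat_lit 2) (.n (nat_lit 197) (nat_lit 1) (.n (nat_lit 198) (nat_lit 1) (.n (nat_lit 199) (nat_lit 2) (.n (nat_lit 200) (nat_lit 3) (.n (nat_lit 201) (nat_lit 4) (.p (nat_lit 202) (nat_lit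 1) (.n (nat_lit 205) (nat_lit 1) (.p (nat_lit 208) (nat_lit 1) .z)))))))))))))))))))))))))))))))))))))))))))))))))))))))))))) (.u (nat_lit 2) (.p (nat_lit 211) (nat_lit 1) (.p (nat_lit 212) (nat_lit 1) (.p (nat_lit 215) (nat_lit 1) (.p (nat_lit 216) (nat_lit 2) (.n (nat_lit 220) (nat_lit 2) (.n (nat_lit 221) (nat_lit 1) .z)))))) .nil)))))))))))))))))))))))))

noncomputable def dC1c_i163 : IL := (.s false (nat_lit 2) (nat_lit 90) (nat_lit 2) (nat_lit 2) (nat_lit 0) true (nat_lit 11) true (nat_lit 15) false (nat_lit 5) true (nat_lit 13) true (nat_lit 13) (.s true (nat_lit 2) (nat_lit 92) (nat_lit 2) (nat_lit 2) (nat_lit 0) true (nat_lit 11) true (nat_lit 15) false (nat_lit 5) true (nat_lit 13) true (nat_lit 13) (.s false (nat_lit 1) (nat_lit 100) (nat_lit 0) (nat_lit 2) (nat_lit 1) true (nat_lit 12) true (nat_lit 14) false (nat_lit 6) true (nat_lit 15) true (nat_lit 13) (.s false (nat_lit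 2) (nat_lit 99) (nat_lit 1) (nat_lit 2) (nat_lit 0) true (nat_lit 12) true (nat_lit 15) false (nat_lit 6) true (nat_lit 14) true (nat_lit 13) (.s false (nat_lit 2) (nat_lit 100) (nat_lit 1) (nat_lit 2) (nat_lit 0) true (nat_lit 12) true (nat_lit 15) false (nat_lit 6) true (nat_lit 14) true (nat_lit 13) (.s true (nat_lit 2) (nat_lit 101) (nat_lit 1) (nat_lit 2) (nat_lit 0) true (nat_lit 12) true (nat_lit 15) false (nat_lit 6) true (nat_lit 14) true (nat_lit 13) (.s true (nat_lit 1) (nat_lit 106) (nat_lit 0) (nat_lit 0) (nat_lit 1) true (nat_lit 12) true (nat_lit 14) false (nat_lit 8) true (nat_lit 15) true (nat_lit 15) (.e false (nat_lit 1) (nat_lit 65) (nat_lit 18) (nat_lit 3) (.e false (nat_lit 1) (nat_lit 260) (nat_lit 2) (nat_lit 13) (.e false (nat_lit 3) (nat_lit 261) (nat_lit 2) (nat_lit 13) (.e false (nat_lit 1) (nat_lit 262) (nat_lit 2) (nat_lit 13) (.e false (nat_lit 2) (nat_lit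 265) (nat_lit 2) (nat_lit 13) (.e true (nat_lit 1) (nat_lit 266) (nat_lit 2) (nat_lit 13) (.e false (nat_lit 2) (nat_lit 267) (nat_lit 2) (nat_lit 13) (.e true (nat_lit 2) (nat_lit 268) (nat_lit 2) (nat_lit 13) (.e true (nat_lit 2) (nat_lit 270) (nat_lit 2) (nat_lit 13) (.e false (nat_lit 3) (nat_lit 271) (nat_lit 2) (nat_lit 13) (.e false (nat_lit 1) (nat_lit 274) (nat_lit 2) (nat_lit 13) (.e true (nat_lit 3) (nat_lit 277) (nat_lit 2) (nat_lit 13) (.e false (nat_lit 3) (nat_lit 278) (nat_lit 2) (nat_lit 13) (.e false (nat_lit 3) (nat_lit 287) (nat_lit 2) (nat_lit 13) (.e true (nat_lit 3) (nat_lit 288) (nat_lit 2) (nat_lit 13) (.e true (nat_lit 1) (nat_lit 142) (nat_lit 6) (nat_lit 9) (.e false (nat_lit 3) (nat_lit 272) (nat_lit 2) (nat_lit 13) (.e true (nat_lit 1) (nat_lit 279) (nat_lit 2) (nat_lit 13) dC1c_i162)))))))))))))))))))))))))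

noncomputable def dC1c_i164 : IL := (.s false (nat_lit 1) (nat_lit 15) (nat_lit 11) (nat_lit 2) (nat_lit 2) true (nat_lit 0) true (nat_lit 13) true (nat_lit 5) true (nat_lit 6) true (nat_lit 13) (.s true (nat_lit 2) (nat_lit 18) (nat_lit 0) (nat_lit 12) (nat_lit 2) true (nat_lit 11) true (nat_lit 13) true (nat_lit 3) true (nat_lit 15) true (nat_lit 6) (.s false (nat_lit 2) (nat_lit 18) (nat_lit 2) (nat_lit 10) (nat_lit 0) true (nat_lit 11) true (nat_lit 15) true (nat_lit 3) true (nat_lit 13) true (nat_lit 6) (.s false (nat_lit 1) (nat_lit 18) (nat_lit 2) (nat_lit 11) (nat_lit 0) true (nat_lit 11) true (nat_lit 15) true (nat_lit 3) true (nat_lit 13) true (nat_lit 6) (.s true (nat_lit 2) (nat_lit 18) (nat_lit 12) (nat_lit 0) (nat_lit 2) true (nat_lit 0) true (nat_lit 13) true (nat_lit 3) true (nat_lit 6) true (nat_lit 15) (.s true (nat_lit 2) (nat_lit 22) (nat_lit 2) (nat_lit 2) (nat_lit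 6) true (nat_lit 3) true (nat_lit 9) true (nat_lit 2) true (nat_lit 13) true (nat_lit 13) (.s false (nat_lit 3) (nat_lit 31) (nat_lit 0) (nat_lit 2) (nat_lit 6) true (nat_lit 5) true (nat_lit 9) true (nat_lit 0) true (nat_lit 15) true (nat_lit 13) (.s true (nat_lit 1) (nat_lit 32) (nat_lit 0) (nat_lit 2) (nat_lit 6) true (nat_lit 5) true (nat_lit 9) true (nat_lit 0) true (nat_lit 15) true (nat_lit 13) (.s false (nat_lit 1) (nat_lit 31) (nat_lit 0) (nat_lit 6) (nat_lit 2) true (nat_lit 11) true (nat_lit 13) true (nat_lit 0) true (nat_lit 15) true (nat_lit 9) (.s false (nat_lit 1) (nat_lit 32) (nat_lit 0) (nat_lit 6) (nat_lit 2) true (nat_lit 11) true (nat_lit 13) true (nat_lit 0) true (nat_lit 15) true (nat_lit 9) (.s true (nat_lit 1) (nat_lit 31) (nat_lit 2) (nat_lit 0) (nat_lit 6) true (nat_lit 3) true (nat_lit 9) true (nat_lit 0) true (nat_lit 13) true (nat_lit 15) (.s true (nat_lit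 1) (nat_lit 32) (nat_lit 2) (nat_lit 0) (nat_lit 6) true (nat_lit 3) true (nat_lit 9) true (nat_lit 0) true (nat_lit 13) true (nat_lit 15) (.s true (nat_lit 3) (nat_lit 31) (nat_lit 2) (nat_lit 2) (nat_lit 4) true (nat_lit 5) true (nat_lit 11) true (nat_lit 0) true (nat_lit 13) true (nat_lit 13) (.s false (nat_lit 2) (nat_lit 33) (nat_lit 2) (nat_lit 2) (nat_lit 4) true (nat_lit 5) true (nat_lit 11) true (nat_lit 0) true (nat_lit 13) true (nat_lit 13) (.s false (nat_lit 1) (nat_lit 31) (nat_lit 4) (nat_lit 2) (nat_lit 2) true (nat_lit 5) true (nat_lit 13) true (nat_lit 0) true (nat_lit 11) true (nat_lit 13) (.s true (nat_lit 2) (nat_lit 33) (nat_lit 4) (nat_lit 2) (nat_lit 2) true (nat_lit 5) true (nat_lit 13) true (nat_lit 0) true (nat_lit 11) true (nat_lit 13) (.s true (nat_lit 1) (nat_lit 42) (nat_lit 3) (nat_lit 2) (nat_lit 2) true (nat_lit 6) true (nat_lit 13) false (nat_lit 0) true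 (nat_lit 12) true (nat_lit 13) (.s true (nat_lit 1) (nat_lit 46) (nat_lit 3) (nat_lit 0) (nat_lit 2) true (nat_lit 6) true (nat_lit 13) false (nat_lit 2) true (nat_lit 12) true (nat_lit 15) (.s true (nat_lit 1) (nat_lit 59) (nat_lit 2) (nat_lit 2) (nat_lit 2) true (nat_lit 9) true (nat_lit 13) false (nat_lit 3) true (nat_lit 13) true (nat_lit 13) (.s false (nat_lit 1) (nat_lit 60) (nat_lit 2) (nat_lit 2) (nat_lit 2) true (nat_lit 9) true (nat_lit 13) false (nat_lit 3) true (nat_lit 13) true (nat_lit 13) (.s false (nat_lit 1) (nat_lit 61) (nat_lit 2) (nat_lit 2) (nat_lit 2) true (nat_lit 9) true (nat_lit 13) false (nat_lit 3) true (nat_lit 13) true (nat_lit 13) (.s false (nat_lit 1) (nat_lit 62) (nat_lit 2) (nat_lit 2) (nat_lit 2) true (nat_lit 9) true (nat_lit 13) false (nat_lit 3) true (nat_lit 13) true (nat_lit 13) (.s true (nat_lit 1) (nat_lit 64) (nat_lit 2) (nat_lit 2) (nat_lit 2)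 true (nat_lit 9) true (nat_lit 13) false (nat_lit 3) true (nat_lit 13) true (nat_lit 13) (.s false (nat_lit 3) (nat_lit 82) (nat_lit 0) (nat_lit 2) (nat_lit 2) true (nat_lit 11) true (nat_lit 13) false (nat_lit 5) true (nat_lit 15) true (nat_lit 13) (.s true (nat_lit 2) (nat_lit 84) (nat_lit 0) (nat_lit 2) (nat_lit 2) true (nat_lit 11) true (nat_lit 13) false (nat_lit 5) true (nat_lit 15) true (nat_lit 13) dC1c_i163)))))))))))))))))))))))))

noncomputable def dC1c_i165 : IL := (.e false (nat_lit 1) (nat_lit 285) (nat_lit 1) (nat_lit 18) (.e false (nat_lit 2) (nat_lit 286) (nat_lit 1) (nat_lit 18) (.e true (nat_lit 1) (nat_lit 287) (nat_lit 1) (nat_lit 18) (.e true (nat_lit 3) (nat_lit 288) (nat_lit 1) (nat_lit 18) (.e false (nat_lit 1) (nat_lit 232) (nat_lit 2) (nat_lit 17) (.e false (nat_lit 2) (nat_lit 234) (nat_lit 2) (nat_lit 17) (.e false (nat_lit 1) (nat_lit 235) (nat_lit 2) (nat_lit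 17) (.e false (nat_lit 3) (nat_lit 236) (nat_lit 2) (nat_lit 17) (.e true (nat_lit 3) (nat_lit 239) (nat_lit 2) (nat_lit 17) (.e false (nat_lit 1) (nat_lit 240) (nat_lit 2) (nat_lit 17) (.e true (nat_lit 1) (nat_lit 241) (nat_lit 2) (nat_lit 17) (.e true (nat_lit 3) (nat_lit 243) (nat_lit 2) (nat_lit 17) (.e false (nat_lit 2) (nat_lit 244) (nat_lit 2) (nat_lit 17) (.e false (nat_lit 1) (nat_lit 245) (nat_lit 2) (nat_lit 17) (.e true (nat_lit 3) (nat_lit 216) (nat_lit 2) (nat_lit 17) (.e true (nat_lit 1) (nat_lit 248) (nat_lit 2) (nat_lit 17) (.e false (nat_lit 1) (nat_lit 246) (nat_lit 2) (nat_lit 17) (.e true (nat_lit 1) (nat_lit 247) (nat_lit 2) (nat_lit 17) (.e true (nat_lit 3) (nat_lit 231) (nat_lit 2) (nat_lit 17) (.e true (nat_lit 1) (nat_lit 233) (nat_lit 2) (nat_lit 17) (.e false (nat_lit 3) (nat_lit 213) (nat_lit 2) (nat_lit 17) (.e true (nat_lit 2) (nat_lit 237) (nat_lit 2)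 (nat_lit 17) (.e true (nat_lit 1) (nat_lit 36) (nat_lit 35) (nat_lit 0) (.u (nat_lit 2) (.n (nat_lit 0) (nat_lit 1) (.p (nat_lit 1) (nat_lit 1) (.n (nat_lit 2) (nat_lit 4) (.n (nat_lit 3) (nat_lit 3) (.p (nat_lit 4) (nat_lit 2) (.n (nat_lit 6) (nat_lit 3) (.p (nat_lit 7) (nat_lit 4) (.p (nat_lit 8) (nat_lit 3) (.n (nat_lit 11) (nat_lit 1) (.n (nat_lit 14) (nat_lit 1) (.n (nat_lit 15) (nat_lit 8) (.n (nat_lit 17) (nat_lit 3) (.n (nat_lit 19) (nat_lit 3) (.p (nat_lit 20) (nat_lit 3) (.p (nat_lit 26) (nat_lit 8) (.p (nat_lit 28) (nat_lit 2) (.n (nat_lit 29) (nat_lit 2) (.n (nat_lit 30) (nat_lit 6) (.p (nat_lit 31) (nat_lit 5) (.n (nat_lit 32) (nat_lit 1) (.p (nat_lit 33) (nat_lit 6) (.n (nat_lit 34) (nat_lit 1) (.n (nat_lit 35) (nat_lit 2) (.n (nat_lit 36) (nat_lit 2) (.p (nat_lit 37) (nat_lit 1) (.n (nat_lit 38) (nat_lit 2) (.p (nat_lit 39) (nat_lit 3) (.n (nat_lit 40) (nat_lit 1) (.n (nat_lit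 41) (nat_lit 2) (.p (nat_lit 50) (nat_lit 1) (.p (nat_lit 53) (nat_lit 2) (.n (nat_lit 54) (nat_lit 2) (.n (nat_lit 69) (nat_lit 1) (.p (nat_lit 70) (nat_lit 1) (.n (nat_lit 71) (nat_lit 1) (.n (nat_lit 78) (nat_lit 1) (.n (nat_lit 106) (nat_lit 1) (.p (nat_lit 327) (nat_lit 2) (.n (nat_lit 328) (nat_lit 3) (.p (nat_lit 329) (nat_lit 1) (.p (nat_lit 330) (nat_lit 3) (.p (nat_lit 332) (nat_lit 2) (.n (nat_lit 333) (nat_lit 1) (.p (nat_lit 334) (nat_lit 1) (.p (nat_lit 336) (nat_lit 3) (.p (nat_lit 338) (nat_lit 1) (.n (nat_lit 339) (nat_lit 2) (.p (nat_lit 342) (nat_lit 1) (.n (nat_lit 344) (nat_lit 1) (.p (nat_lit 346) (nat_lit 3) (.p (nat_lit 347) (nat_lit 1) (.p (nat_lit 348) (nat_lit 1) (.p (nat_lit 349) (nat_lit 1) (.p (nat_lit 350) (nat_lit 3) (.p (nat_lit 351) (nat_lit 2) (.n (nat_lit 352) (nat_lit 1) (.p (nat_lit 353) (nat_lit 1) (.n (nat_lit 354) (nat_lit 1) (.p (nat_lit 356)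 (nat_lit 2) (.p (nat_lit 357) (nat_lit 1) .z)))))))))))))))))))))))))))))))))))))))))))))))))))))))))))) (.u (nat_lit 2) (.n (nat_lit 358) (nat_lit 1) (.n (nat_lit 359) (nat_lit 3) (.p (nat_lit 363) (nat_lit 3) (.n (nat_lit 406) (nat_lit 1) (.p (nat_lit 419) (nat_lit 1) (.p (nat_lit 423) (nat_lit 1) .z)))))) .nil)))))))))))))))))))))))))

noncomputable def dC1c_i166 : IL := (.e true (nat_lit 1) (nat_lit 87) (nat_lit 11) (nat_lit 9) (.e false (nat_lit 2) (nat_lit 153) (nat_lit 4) (nat_lit 15) (.e false (nat_lit 1) (nat_lit 154) (nat_lit 4) (nat_lit 15) (.e true (nat_lit 1) (nat_lit 155) (nat_lit 4) (nat_lit 15) (.e false (nat_lit 1) (nat_lit 156) (nat_lit 4) (nat_lit 15) (.e false (nat_lit 1) (nat_lit 157) (nat_lit 4) (nat_lit 15) (.e true (nat_lit 1) (nat_lit 159) (nat_lit 4) (nat_lit 15) (.e true (nat_lit 1) (nat_lit 161) (nat_lit 4) (nat_lit 15) (.e false (nat_lit 1) (nat_lit 260) (nat_lit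 1) (nat_lit 18) (.e false (nat_lit 1) (nat_lit 261) (nat_lit 1) (nat_lit 18) (.e false (nat_lit 2) (nat_lit 262) (nat_lit 1) (nat_lit 18) (.e true (nat_lit 2) (nat_lit 263) (nat_lit 1) (nat_lit 18) (.e false (nat_lit 1) (nat_lit 265) (nat_lit 1) (nat_lit 18) (.e true (nat_lit 3) (nat_lit 266) (nat_lit 1) (nat_lit 18) (.e true (nat_lit 2) (nat_lit 268) (nat_lit 1) (nat_lit 18) (.e true (nat_lit 1) (nat_lit 269) (nat_lit 1) (nat_lit 18) (.e false (nat_lit 3) (nat_lit 270) (nat_lit 1) (nat_lit 18) (.e true (nat_lit 1) (nat_lit 272) (nat_lit 1) (nat_lit 18) (.e false (nat_lit 1) (nat_lit 273) (nat_lit 1) (nat_lit 18) (.e true (nat_lit 2) (nat_lit 274) (nat_lit 1) (nat_lit 18) (.e true (nat_lit 3) (nat_lit 277) (nat_lit 1) (nat_lit 18) (.e true (nat_lit 1) (nat_lit 278) (nat_lit 1) (nat_lit 18) (.e true (nat_lit 1) (nat_lit 279) (nat_lit 1) (nat_lit 18) (.e false (nat_lit 1) (nat_lit 280)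 (nat_lit 1) (nat_lit 18) (.e true (nat_lit 1) (nat_lit 283) (nat_lit 1) (nat_lit 18) dC1c_i165)))))))))))))))))))))))))

noncomputable def dC1c_i167 : IL := (.e true (nat_lit 2) (nat_lit 212) (nat_lit 2) (nat_lit 17) (.e false (nat_lit 1) (nat_lit 215) (nat_lit 2) (nat_lit 17) (.e false (nat_lit 2) (nat_lit 217) (nat_lit 2) (nat_lit 17) (.e false (nat_lit 2) (nat_lit 218) (nat_lit 2) (nat_lit 17) (.e true (nat_lit 2) (nat_lit 219) (nat_lit 2) (nat_lit 17) (.e false (nat_lit 3) (nat_lit 220) (nat_lit 2) (nat_lit 17) (.e false (nat_lit 2) (nat_lit 222) (nat_lit 2) (nat_lit 17) (.e false (nat_lit 1) (nat_lit 224) (nat_lit 2) (nat_lit 17) (.e true (nat_lit 1) (nat_lit 227) (nat_lit 2) (nat_lit 17) (.e false (nat_lit 2) (nat_lit 229) (nat_lit 2) (nat_lit 17) (.e true (nat_lit 1) (nat_lit 83) (nat_lit 12) (nat_lit 9) (.e false (nat_lit 1) (nat_lit 35) (nat_lit 32) (nat_lit 0) (.e true (nat_lit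 2) (nat_lit 292) (nat_lit 0) (nat_lit 19) (.e true (nat_lit 1) (nat_lit 293) (nat_lit 0) (nat_lit 19) (.e true (nat_lit 1) (nat_lit 295) (nat_lit 0) (nat_lit 19) (.e false (nat_lit 1) (nat_lit 296) (nat_lit 0) (nat_lit 19) (.e true (nat_lit 1) (nat_lit 297) (nat_lit 0) (nat_lit 19) (.e true (nat_lit 2) (nat_lit 300) (nat_lit 0) (nat_lit 19) (.e false (nat_lit 2) (nat_lit 302) (nat_lit 0) (nat_lit 19) (.e true (nat_lit 1) (nat_lit 305) (nat_lit 0) (nat_lit 19) (.e true (nat_lit 1) (nat_lit 310) (nat_lit 0) (nat_lit 19) (.e false (nat_lit 1) (nat_lit 312) (nat_lit 0) (nat_lit 19) (.e false (nat_lit 2) (nat_lit 316) (nat_lit 0) (nat_lit 19) (.e true (nat_lit 2) (nat_lit 318) (nat_lit 0) (nat_lit 19) (.e true (nat_lit 1) (nat_lit 230) (nat_lit 2) (nat_lit 17) dC1c_i166)))))))))))))))))))))))))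

noncomputable def dC1c_i168 : IL := (.s true (nat_lit 1) (nat_lit 31) (nat_lit 0) (nat_lit 2) (nat_lit 5) true (nat_lit 9) true (nat_lit 14) true (nat_lit 0) true (nat_lit 19) true (nat_lit 17) (.s true (nat_lit 1) (nat_lit 32) (nat_lit 0) (nat_lit 2) (nat_lit 5) true (nat_lit 9) true (nat_lit 14) true (nat_lit 0) true (nat_lit 19) true (nat_lit 17) (.s true (nat_lit 1) (nat_lit 36) (nat_lit 1) (nat_lit 2) (nat_lit 4) true (nat_lit 9) true (nat_lit 15) true (nat_lit 0) true (nat_lit 18) true (nat_lit 17) (.a false (nat_lit 3) (nat_lit 31) (nat_lit 31) (nat_lit 0) (nat_lit 0) (.a true (nat_lit 1) (nat_lit 31) (nat_lit 32) (nat_lit 0) (nat_lit 0) (.a false (nat_lit 3) (nat_lit 32) (nat_lit 32) (nat_lit 0) (nat_lit 0) (.a true (nat_lit 1) (nat_lit 31) (nat_lit 36) (nat_lit 0) (nat_lit 0) (.a true (nat_lit 1) (nat_lit 32) (nat_lit 36) (nat_lit 0) (nat_lit 0) (.a false (nat_lit 1) (nat_lit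 35) (nat_lit 36) (nat_lit 0) (nat_lit 0) (.a false (nat_lit 3) (nat_lit 36) (nat_lit 36) (nat_lit 0) (nat_lit 0) (.e true (nat_lit 1) (nat_lit 82) (nat_lit 12) (nat_lit 9) (.e true (nat_lit 1) (nat_lit 139) (nat_lit 5) (nat_lit 14) (.e false (nat_lit 1) (nat_lit 35) (nat_lit 31) (nat_lit 0) (.e false (nat_lit 2) (nat_lit 291) (nat_lit 0) (nat_lit 19) (.e false (nat_lit 1) (nat_lit 298) (nat_lit 0) (nat_lit 19) (.e true (nat_lit 3) (nat_lit 299) (nat_lit 0) (nat_lit 19) (.e false (nat_lit 1) (nat_lit 301) (nat_lit 0) (nat_lit 19) (.e true (nat_lit 3) (nat_lit 304) (nat_lit 0) (nat_lit 19) (.e false (nat_lit 2) (nat_lit 307) (nat_lit 0) (nat_lit 19) (.e true (nat_lit 1) (nat_lit 308) (nat_lit 0) (nat_lit 19) (.e false (nat_lit 1) (nat_lit 311) (nat_lit 0) (nat_lit 19) (.e false (nat_lit 3) (nat_lit 317) (nat_lit 0) (nat_lit 19) (.e true (nat_lit 2) (nat_lit 221) (nat_lit 2) (nat_lit 17)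 (.e false (nat_lit 3) (nat_lit 223) (nat_lit 2) (nat_lit 17) (.e false (nat_lit 1) (nat_lit 226) (nat_lit 2) (nat_lit 17) dC1c_i167)))))))))))))))))))))))))

noncomputable def dC1c_i169 : IL := (.e true (nat_lit 3) (nat_lit 271) (nat_lit 2) (nat_lit 13) (.e false (nat_lit 2) (nat_lit 275) (nat_lit 2) (nat_lit 13) (.e false (nat_lit 1) (nat_lit 283) (nat_lit 2) (nat_lit 13) (.e true (nat_lit 1) (nat_lit 284) (nat_lit 2) (nat_lit 13) (.e false (nat_lit 2) (nat_lit 149) (nat_lit 6) (nat_lit 9) (.e false (nat_lit 3) (nat_lit 189) (nat_lit 4) (nat_lit 11) (.e false (nat_lit 1) (nat_lit 340) (nat_lit 0) (nat_lit 15) (.e true (nat_lit 3) (nat_lit 345) (nat_lit 0) (nat_lit 15) (.e true (nat_lit 2) (nat_lit 341) (nat_lit 0) (nat_lit 15) (.e false (nat_lit 1) (nat_lit 337) (nat_lit 0) (nat_lit 15) (.e false (nat_lit 3) (nat_lit 328) (nat_lit 0) (nat_lit 15) (.e true (nat_lit 2) (nat_lit 329) (nat_lit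 0) (nat_lit 15) (.e true (nat_lit 2) (nat_lit 331) (nat_lit 0) (nat_lit 15) (.e true (nat_lit 1) (nat_lit 332) (nat_lit 0) (nat_lit 15) (.e true (nat_lit 3) (nat_lit 334) (nat_lit 0) (nat_lit 15) (.e true (nat_lit 3) (nat_lit 335) (nat_lit 0) (nat_lit 15) (.e true (nat_lit 3) (nat_lit 336) (nat_lit 0) (nat_lit 15) (.e false (nat_lit 3) (nat_lit 326) (nat_lit 1) (nat_lit 14) (.e false (nat_lit 2) (nat_lit 320) (nat_lit 1) (nat_lit 14) (.e true (nat_lit 1) (nat_lit 338) (nat_lit 0) (nat_lit 15) (.e true (nat_lit 1) (nat_lit 342) (nat_lit 0) (nat_lit 15) (.e true (nat_lit 3) (nat_lit 327) (nat_lit 1) (nat_lit 14) (.e true (nat_lit 2) (nat_lit 106) (nat_lit 7) (nat_lit 8) (.u (nat_lit 2) (.p (nat_lit 0) (nat_lit 1) (.n (nat_lit 2) (nat_lit 3) (.n (nat_lit 3) (nat_lit 7) (.n (nat_lit 4) (nat_lit 3) (.n (nat_lit 5) (nat_lit 3) (.p (nat_lit 6) (nat_lit 5) (.p (nat_lit 7) (nat_lit 5) (.p (nat_lit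 8) (nat_lit 3) (.n (nat_lit 9) (nat_lit 3) (.n (nat_lit 10) (nat_lit 1) (.n (nat_lit 12) (nat_lit 6) (.n (nat_lit 13) (nat_lit 2) (.n (nat_lit 15) (nat_lit 3) (.n (nat_lit 17) (nat_lit 2) (.n (nat_lit 18) (nat_lit 1) (.n (nat_lit 22) (nat_lit 1) (.p (nat_lit 23) (nat_lit 1) (.n (nat_lit 24) (nat_lit 1) (.n (nat_lit 32) (nat_lit 1) (.p (nat_lit 33) (nat_lit 3) (.p (nat_lit 35) (nat_lit 1) (.n (nat_lit 38) (nat_lit 1) (.p (nat_lit 66) (nat_lit 1) (.n (nat_lit 67) (nat_lit 1) (.n (nat_lit 69) (nat_lit 2) (.n (nat_lit 70) (nat_lit 1) (.n (nat_lit 71) (nat_lit 2) (.n (nat_lit 72) (nat_lit 1) (.n (nat_lit 73) (nat_lit 1) (.p (nat_lit 74) (nat_lit 2) (.n (nat_lit 75) (nat_lit 1) (.n (nat_lit 111) (nat_lit 1) (.p (nat_lit 114) (nat_lit 1) (.p (nat_lit 121) (nat_lit 1) (.p (nat_lit 122) (nat_lit 1) (.p (nat_lit 125) (nat_lit 3) (.p (nat_lit 126) (nat_lit 2) (.p (nat_lit 127) (nat_lit 2) (.n (nat_lit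 129) (nat_lit 3) (.p (nat_lit 130) (nat_lit 2) (.p (nat_lit 131) (nat_lit 3) (.p (nat_lit 132) (nat_lit 1) (.p (nat_lit 133) (nat_lit 2) (.n (nat_lit 134) (nat_lit 2) (.p (nat_lit 135) (nat_lit 2) (.p (nat_lit 136) (nat_lit 2) (.p (nat_lit 137) (nat_lit 1) (.n (nat_lit 139) (nat_lit 1) (.p (nat_lit 140) (nat_lit 1) (.n (nat_lit 141) (nat_lit 1) (.n (nat_lit 144) (nat_lit 2) (.p (nat_lit 145) (nat_lit 2) (.n (nat_lit 148) (nat_lit 1) (.p (nat_lit 149) (nat_lit 2) (.p (nat_lit 150) (nat_lit 1) (.p (nat_lit 151) (nat_lit 1) (.n (nat_lit 173) (nat_lit 2) (.n (nat_lit 174) (nat_lit 5) (.n (nat_lit 175) (nat_lit 15) (.p (nat_lit 176) (nat_lit 2) .z)))))))))))))))))))))))))))))))))))))))))))))))))))))))))))) (.u (nat_lit 2) (.p (nat_lit 177) (nat_lit 5) (.p (nat_lit 179) (nat_lit 5) (.n (nat_lit 180) (nat_lit 1) (.n (nat_lit 181) (nat_lit 6) (.n (nat_lit 182) (nat_lit 3) (.p (nat_lit 183) (nat_lit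 5) (.n (nat_lit 185) (nat_lit 6) (.p (nat_lit 186) (nat_lit 11) (.n (nat_lit 187) (nat_lit 5) (.n (nat_lit 188) (nat_lit 2) (.p (nat_lit 189) (nat_lit 2) (.n (nat_lit 190) (nat_lit 8) (.n (nat_lit 191) (nat_lit 5) (.n (nat_lit 192) (nat_lit 7) (.p (nat_lit 194) (nat_lit 1) (.n (nat_lit 195) (nat_lit 8) (.p (nat_lit 196) (nat_lit 4) (.p (nat_lit 197) (nat_lit 3) (.n (nat_lit 198) (nat_lit 4) (.p (nat_lit 199) (nat_lit 4) (.n (nat_lit 200) (nat_lit 3) (.n (nat_lit 201) (nat_lit 6) (.p (nat_lit 202) (nat_lit 5) (.n (nat_lit 203) (nat_lit 1) (.n (nat_lit 204) (nat_lit 1) (.p (nat_lit 206) (nat_lit 4) (.n (nat_lit 207) (nat_lit 1) (.p (nat_lit 208) (nat_lit 1) (.n (nat_lit 209) (nat_lit 1) (.p (nat_lit 210) (nat_lit 3) (.n (nat_lit 211) (nat_lit 7) (.n (nat_lit 212) (nat_lit 2) (.n (nat_lit 213) (nat_lit 2) (.p (nat_lit 214) (nat_lit 3) (.p (nat_lit 215) (nat_lit 6) (.n (nat_lit 216) (nat_lit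 4) (.p (nat_lit 217) (nat_lit 2) (.p (nat_lit 218) (nat_lit 2) (.p (nat_lit 219) (nat_lit 2) (.n (nat_lit 220) (nat_lit 3) (.p (nat_lit 221) (nat_lit 3) (.n (nat_lit 222) (nat_lit 1) (.n (nat_lit 223) (nat_lit 1) (.p (nat_lit 224) (nat_lit 2) (.p (nat_lit 225) (nat_lit 1) (.n (nat_lit 226) (nat_lit 1) (.n (nat_lit 227) (nat_lit 1) (.n (nat_lit 228) (nat_lit 1) .z)))))))))))))))))))))))))))))))))))))))))))))))) .nil)))))))))))))))))))))))))

noncomputable def dC1c_i170 : IL := (.s false (nat_lit 2) (nat_lit 98) (nat_lit 2) (nat_lit 1) (nat_lit 0) true (nat_lit 11) true (nat_lit 15) false (nat_lit 6) true (nat_lit 13) true (nat_lit 14) (.e true (nat_lit 3) (nat_lit 132) (nat_lit 6) (nat_lit 9) (.e true (nat_lit 2) (nat_lit 137) (nat_lit 6) (nat_lit 9) (.e false (nat_lit 1) (nat_lit 142) (nat_lit 6) (nat_lit 9) (.e false (nat_lit 2) (nat_lit 150) (nat_lit 6) (nat_lit 9) (.e true (nat_lit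 2) (nat_lit 323) (nat_lit 1) (nat_lit 14) (.e false (nat_lit 3) (nat_lit 324) (nat_lit 1) (nat_lit 14) (.e false (nat_lit 3) (nat_lit 325) (nat_lit 1) (nat_lit 14) (.e true (nat_lit 3) (nat_lit 321) (nat_lit 1) (nat_lit 14) (.e true (nat_lit 2) (nat_lit 322) (nat_lit 1) (nat_lit 14) (.e true (nat_lit 3) (nat_lit 55) (nat_lit 18) (nat_lit 3) (.e false (nat_lit 1) (nat_lit 65) (nat_lit 18) (nat_lit 3) (.e true (nat_lit 3) (nat_lit 261) (nat_lit 2) (nat_lit 13) (.e true (nat_lit 2) (nat_lit 262) (nat_lit 2) (nat_lit 13) (.e false (nat_lit 2) (nat_lit 265) (nat_lit 2) (nat_lit 13) (.e false (nat_lit 1) (nat_lit 266) (nat_lit 2) (nat_lit 13) (.e true (nat_lit 2) (nat_lit 267) (nat_lit 2) (nat_lit 13) (.e false (nat_lit 2) (nat_lit 268) (nat_lit 2) (nat_lit 13) (.e true (nat_lit 3) (nat_lit 272) (nat_lit 2) (nat_lit 13) (.e true (nat_lit 1) (nat_lit 274) (nat_lit 2) (nat_lit 13) (.e false (nat_lit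 1) (nat_lit 278) (nat_lit 2) (nat_lit 13) (.e false (nat_lit 1) (nat_lit 286) (nat_lit 2) (nat_lit 13) (.e false (nat_lit 2) (nat_lit 287) (nat_lit 2) (nat_lit 13) (.e false (nat_lit 3) (nat_lit 263) (nat_lit 2) (nat_lit 13) (.e false (nat_lit 2) (nat_lit 270) (nat_lit 2) (nat_lit 13) dC1c_i169)))))))))))))))))))))))))

noncomputable def dC1c_i171 : IL := (.s true (nat_lit 3) (nat_lit 78) (nat_lit 1) (nat_lit 2) (nat_lit 2) true (nat_lit 10) true (nat_lit 13) false (nat_lit 4) true (nat_lit 14) true (nat_lit 13) (.s false (nat_lit 1) (nat_lit 79) (nat_lit 1) (nat_lit 2) (nat_lit 2) true (nat_lit 10) true (nat_lit 13) false (nat_lit 4) true (nat_lit 14) true (nat_lit 13) (.s false (nat_lit 1) (nat_lit 80) (nat_lit 1) (nat_lit 2) (nat_lit 2) true (nat_lit 10) true (nat_lit 13) false (nat_lit 4) true (nat_lit 14) true (nat_lit 13) (.s false (nat_lit 2) (nat_lit 77) (nat_lit 2) (nat_lit 1)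 (nat_lit 2) true (nat_lit 9) true (nat_lit 13) false (nat_lit 4) true (nat_lit 13) true (nat_lit 14) (.s true (nat_lit 2) (nat_lit 78) (nat_lit 2) (nat_lit 1) (nat_lit 2) true (nat_lit 9) true (nat_lit 13) false (nat_lit 4) true (nat_lit 13) true (nat_lit 14) (.s false (nat_lit 1) (nat_lit 79) (nat_lit 2) (nat_lit 1) (nat_lit 2) true (nat_lit 9) true (nat_lit 13) false (nat_lit 4) true (nat_lit 13) true (nat_lit 14) (.s false (nat_lit 2) (nat_lit 80) (nat_lit 2) (nat_lit 1) (nat_lit 2) true (nat_lit 9) true (nat_lit 13) false (nat_lit 4) true (nat_lit 13) true (nat_lit 14) (.s false (nat_lit 3) (nat_lit 82) (nat_lit 0) (nat_lit 2) (nat_lit 2) true (nat_lit 11) true (nat_lit 13) false (nat_lit 5) true (nat_lit 15) true (nat_lit 13) (.s false (nat_lit 2) (nat_lit 83) (nat_lit 0) (nat_lit 2) (nat_lit 2) true (nat_lit 11) true (nat_lit 13) false (nat_lit 5) true (nat_lit 15) true (nat_lit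 13) (.s false (nat_lit 1) (nat_lit 84) (nat_lit 0) (nat_lit 2) (nat_lit 2) true (nat_lit 11) true (nat_lit 13) false (nat_lit 5) true (nat_lit 15) true (nat_lit 13) (.s false (nat_lit 1) (nat_lit 85) (nat_lit 0) (nat_lit 2) (nat_lit 2) true (nat_lit 11) true (nat_lit 13) false (nat_lit 5) true (nat_lit 15) true (nat_lit 13) (.s true (nat_lit 1) (nat_lit 87) (nat_lit 0) (nat_lit 2) (nat_lit 2) true (nat_lit 11) true (nat_lit 13) false (nat_lit 5) true (nat_lit 15) true (nat_lit 13) (.s true (nat_lit 1) (nat_lit 90) (nat_lit 0) (nat_lit 2) (nat_lit 2) true (nat_lit 11) true (nat_lit 13) false (nat_lit 5) true (nat_lit 15) true (nat_lit 13) (.s true (nat_lit 1) (nat_lit 91) (nat_lit 0) (nat_lit 2) (nat_lit 2) true (nat_lit 11) true (nat_lit 13) false (nat_lit 5) true (nat_lit 15) true (nat_lit 13) (.s true (nat_lit 1) (nat_lit 92) (nat_lit 0) (nat_lit 2) (nat_lit 2) true (nat_lit 11) true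 (nat_lit 13) false (nat_lit 5) true (nat_lit 15) true (nat_lit 13) (.s true (nat_lit 1) (nat_lit 83) (nat_lit 2) (nat_lit 0) (nat_lit 2) true (nat_lit 9) true (nat_lit 13) false (nat_lit 5) true (nat_lit 13) true (nat_lit 15) (.s false (nat_lit 1) (nat_lit 90) (nat_lit 2) (nat_lit 2) (nat_lit 0) true (nat_lit 11) true (nat_lit 15) false (nat_lit 5) true (nat_lit 13) true (nat_lit 13) (.s false (nat_lit 3) (nat_lit 98) (nat_lit 0) (nat_lit 2) (nat_lit 1) true (nat_lit 12) true (nat_lit 14) false (nat_lit 6) true (nat_lit 15) true (nat_lit 13) (.s true (nat_lit 2) (nat_lit 101) (nat_lit 0) (nat_lit 2) (nat_lit 1) true (nat_lit 12) true (nat_lit 14) false (nat_lit 6) true (nat_lit 15) true (nat_lit 13) (.s false (nat_lit 2) (nat_lit 101) (nat_lit 1) (nat_lit 0) (nat_lit 2) true (nat_lit 10) true (nat_lit 13) false (nat_lit 6) true (nat_lit 14) true (nat_lit 15) (.s false (nat_lit 3) (nat_lit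 98) (nat_lit 1) (nat_lit 2) (nat_lit 0) true (nat_lit 12) true (nat_lit 15) false (nat_lit 6) true (nat_lit 14) true (nat_lit 13) (.s true (nat_lit 2) (nat_lit 99) (nat_lit 1) (nat_lit 2) (nat_lit 0) true (nat_lit 12) true (nat_lit 15) false (nat_lit 6) true (nat_lit 14) true (nat_lit 13) (.s false (nat_lit 2) (nat_lit 98) (nat_lit 2) (nat_lit 0) (nat_lit 1) true (nat_lit 10) true (nat_lit 14) false (nat_lit 6) true (nat_lit 13) true (nat_lit 15) (.s false (nat_lit 3) (nat_lit 99) (nat_lit 2) (nat_lit 0) (nat_lit 1) true (nat_lit 10) true (nat_lit 14) false (nat_lit 6) true (nat_lit 13) true (nat_lit 15) (.s false (nat_lit 2) (nat_lit 101) (nat_lit 2) (nat_lit 0) (nat_lit 1) true (nat_lit 10) true (nat_lit 14) false (nat_lit 6) true (nat_lit 13) true (nat_lit 15) dC1c_i170)))))))))))))))))))))))))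

noncomputable def dC1c_i172 : IL := (.s false (nat_lit 3) (nat_lit 32) (nat_lit 0) (nat_lit 2) (nat_lit 6) true (nat_lit 5) true (nat_lit 9) true (nat_lit 0) true (nat_lit 15) true (nat_lit 13) (.s true (nat_lit 3) (nat_lit 31) (nat_lit 0) (nat_lit 6) (nat_lit 2) true (nat_lit 11) true (nat_lit 13) true (nat_lit 0) true (nat_lit 15) true (nat_lit 9) (.s false (nat_lit 2) (nat_lit 32) (nat_lit 0) (nat_lit 6) (nat_lit 2) true (nat_lit 11) true (nat_lit 13) true (nat_lit 0) true (nat_lit 15) true (nat_lit 9) (.s true (nat_lit 2) (nat_lit 33) (nat_lit 2) (nat_lit 0) (nat_lit 6) true (nat_lit 3) true (nat_lit 9) true (nat_lit 0) true (nat_lit 13) true (nat_lit 15) (.s true (nat_lit 3) (nat_lit 31) (nat_lit 2) (nat_lit 2) (nat_lit 4) true (nat_lit 5) true (nat_lit 11) true (nat_lit 0) true (nat_lit 13) true (nat_lit 13) (.s true (nat_lit 1) (nat_lit 32) (nat_lit 2) (nat_lit 2) (nat_lit 4)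 true (nat_lit 5) true (nat_lit 11) true (nat_lit 0) true (nat_lit 13) true (nat_lit 13) (.s true (nat_lit 2) (nat_lit 33) (nat_lit 2) (nat_lit 2) (nat_lit 4) true (nat_lit 5) true (nat_lit 11) true (nat_lit 0) true (nat_lit 13) true (nat_lit 13) (.s true (nat_lit 2) (nat_lit 32) (nat_lit 2) (nat_lit 6) (nat_lit 0) true (nat_lit 11) true (nat_lit 15) true (nat_lit 0) true (nat_lit 13) true (nat_lit 9) (.s true (nat_lit 1) (nat_lit 31) (nat_lit 4) (nat_lit 2) (nat_lit 2) true (nat_lit 5) true (nat_lit 13) true (nat_lit 0) true (nat_lit 11) true (nat_lit 13) (.s false (nat_lit 1) (nat_lit 32) (nat_lit 4) (nat_lit 2) (nat_lit 2) true (nat_lit 5) true (nat_lit 13) true (nat_lit 0) true (nat_lit 11) true (nat_lit 13) (.s true (nat_lit 1) (nat_lit 33) (nat_lit 4) (nat_lit 2) (nat_lit 2) true (nat_lit 5) true (nat_lit 13) true (nat_lit 0) true (nat_lit 11) true (nat_lit 13) (.s false (nat_lit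 3) (nat_lit 40) (nat_lit 0) (nat_lit 5) (nat_lit 2) true (nat_lit 11) true (nat_lit 13) false (nat_lit 0) true (nat_lit 15) true (nat_lit 10) (.s false (nat_lit 2) (nat_lit 40) (nat_lit 1) (nat_lit 4) (nat_lit 2) true (nat_lit 10) true (nat_lit 13) false (nat_lit 0) true (nat_lit 14) true (nat_lit 11) (.s true (nat_lit 3) (nat_lit 40) (nat_lit 2) (nat_lit 5) (nat_lit 0) true (nat_lit 11) true (nat_lit 15) false (nat_lit 0) true (nat_lit 13) true (nat_lit 10) (.s true (nat_lit 1) (nat_lit 40) (nat_lit 5) (nat_lit 0) (nat_lit 2) true (nat_lit 4) true (nat_lit 13) false (nat_lit 0) true (nat_lit 10) true (nat_lit 15) (.s false (nat_lit 3) (nat_lit 40) (nat_lit 5) (nat_lit 2) (nat_lit 0) true (nat_lit 6) true (nat_lit 15) false (nat_lit 0) true (nat_lit 10) true (nat_lit 13) (.s false (nat_lit 1) (nat_lit 46) (nat_lit 0) (nat_lit 0) (nat_lit 5) true (nat_lit 6) true (nat_lit 10) false (nat_lit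 2) true (nat_lit 15) true (nat_lit 15) (.s true (nat_lit 2) (nat_lit 46) (nat_lit 0) (nat_lit 2) (nat_lit 3) true (nat_lit 8) true (nat_lit 12) false (nat_lit 2) true (nat_lit 15) true (nat_lit 13) (.s true (nat_lit 2) (nat_lit 46) (nat_lit 5) (nat_lit 0) (nat_lit 0) true (nat_lit 6) true (nat_lit 15) false (nat_lit 2) true (nat_lit 10) true (nat_lit 15) (.s false (nat_lit 2) (nat_lit 59) (nat_lit 2) (nat_lit 2) (nat_lit 2) true (nat_lit 9) true (nat_lit 13) false (nat_lit 3) true (nat_lit 13) true (nat_lit 13) (.s false (nat_lit 2) (nat_lit 60) (nat_lit 2) (nat_lit 2) (nat_lit 2) true (nat_lit 9) true (nat_lit 13) false (nat_lit 3) true (nat_lit 13) true (nat_lit 13) (.s false (nat_lit 3) (nat_lit 61) (nat_lit 2) (nat_lit 2) (nat_lit 2) true (nat_lit 9) true (nat_lit 13) false (nat_lit 3) true (nat_lit 13) true (nat_lit 13) (.s false (nat_lit 2) (nat_lit 62) (nat_lit 2) (nat_lit 2) (nat_lit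 2) true (nat_lit 9) true (nat_lit 13) false (nat_lit 3) true (nat_lit 13) true (nat_lit 13) (.s true (nat_lit 3) (nat_lit 64) (nat_lit 2) (nat_lit 2) (nat_lit 2) true (nat_lit 9) true (nat_lit 13) false (nat_lit 3) true (nat_lit 13) true (nat_lit 13) (.s false (nat_lit 3) (nat_lit 77) (nat_lit 1) (nat_lit 2) (nat_lit 2) true (nat_lit 10) true (nat_lit 13) false (nat_lit 4) true (nat_lit 14) true (nat_lit 13) dC1c_i171)))))))))))))))))))))))))

noncomputable def dC1c_i173 : IL := (.s true (nat_lit 1) (nat_lit 14) (nat_lit 2) (nat_lit 2) (nat_lit 12) true (nat_lit 0) true (nat_lit 6) true (nat_lit 5) true (nat_lit 13) true (nat_lit 13) (.s true (nat_lit 1) (nat_lit 15) (nat_lit 2) (nat_lit 2) (nat_lit 10) true (nat_lit 0) true (nat_lit 6) true (nat_lit 5) true (nat_lit 13) true (nat_lit 13) (.s false (nat_lit 3) (nat_lit 14) (nat_lit 2) (nat_lit 12) (nat_lit 2) true (nat_lit 9) true (nat_lit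 13) true (nat_lit 5) true (nat_lit 13) true (nat_lit 6) (.s false (nat_lit 1) (nat_lit 14) (nat_lit 10) (nat_lit 2) (nat_lit 2) true (nat_lit 0) true (nat_lit 13) true (nat_lit 5) true (nat_lit 6) true (nat_lit 13) (.s true (nat_lit 2) (nat_lit 14) (nat_lit 11) (nat_lit 2) (nat_lit 2) true (nat_lit 0) true (nat_lit 13) true (nat_lit 5) true (nat_lit 6) true (nat_lit 13) (.s true (nat_lit 2) (nat_lit 14) (nat_lit 12) (nat_lit 2) (nat_lit 2) true (nat_lit 0) true (nat_lit 13) true (nat_lit 5) true (nat_lit 6) true (nat_lit 13) (.s false (nat_lit 1) (nat_lit 15) (nat_lit 10) (nat_lit 2) (nat_lit 2) true (nat_lit 0) true (nat_lit 13) true (nat_lit 5) true (nat_lit 6) true (nat_lit 13) (.s true (nat_lit 3) (nat_lit 15) (nat_lit 11) (nat_lit 2) (nat_lit 2) true (nat_lit 0) true (nat_lit 13) true (nat_lit 5) true (nat_lit 6) true (nat_lit 13) (.s true (nat_lit 2) (nat_lit 18) (nat_lit 0) (nat_lit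 11) (nat_lit 2) true (nat_lit 11) true (nat_lit 13) true (nat_lit 3) true (nat_lit 15) true (nat_lit 6) (.s true (nat_lit 1) (nat_lit 18) (nat_lit 0) (nat_lit 12) (nat_lit 2) true (nat_lit 11) true (nat_lit 13) true (nat_lit 3) true (nat_lit 15) true (nat_lit 6) (.s false (nat_lit 1) (nat_lit 18) (nat_lit 2) (nat_lit 0) (nat_lit 10) true (nat_lit 0) true (nat_lit 6) true (nat_lit 3) true (nat_lit 13) true (nat_lit 15) (.s false (nat_lit 1) (nat_lit 18) (nat_lit 2) (nat_lit 3) (nat_lit 4) true (nat_lit 5) true (nat_lit 11) true (nat_lit 3) true (nat_lit 13) true (nat_lit 12) (.s true (nat_lit 2) (nat_lit 18) (nat_lit 2) (nat_lit 11) (nat_lit 0) true (nat_lit 11) true (nat_lit 15) true (nat_lit 3) true (nat_lit 13) true (nat_lit 6) (.s false (nat_lit 3) (nat_lit 18) (nat_lit 10) (nat_lit 0) (nat_lit 2) true (nat_lit 0) true (nat_lit 13) true (nat_lit 3) true (nat_lit 6) true (nat_lit 15)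 (.s true (nat_lit 3) (nat_lit 21) (nat_lit 2) (nat_lit 2) (nat_lit 6) true (nat_lit 3) true (nat_lit 9) true (nat_lit 2) true (nat_lit 13) true (nat_lit 13) (.s true (nat_lit 1) (nat_lit 23) (nat_lit 2) (nat_lit 2) (nat_lit 6) true (nat_lit 3) true (nat_lit 9) true (nat_lit 2) true (nat_lit 13) true (nat_lit 13) (.s false (nat_lit 2) (nat_lit 21) (nat_lit 2) (nat_lit 6) (nat_lit 2) true (nat_lit 9) true (nat_lit 13) true (nat_lit 2) true (nat_lit 13) true (nat_lit 9) (.s false (nat_lit 2) (nat_lit 22) (nat_lit 6) (nat_lit 2) (nat_lit 2) true (nat_lit 3) true (nat_lit 13) true (nat_lit 2) true (nat_lit 9) true (nat_lit 13) (.s true (nat_lit 1) (nat_lit 28) (nat_lit 1) (nat_lit 6) (nat_lit 2) true (nat_lit 10) true (nat_lit 13) true (nat_lit 1) true (nat_lit 14) true (nat_lit 9) (.s true (nat_lit 1) (nat_lit 28) (nat_lit 2) (nat_lit 1) (nat_lit 6) true (nat_lit 3) true (nat_lit 9) true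 (nat_lit 1) true (nat_lit 13) true (nat_lit 14) (.s false (nat_lit 1) (nat_lit 29) (nat_lit 2) (nat_lit 1) (nat_lit 6) true (nat_lit 3) true (nat_lit 9) true (nat_lit 1) true (nat_lit 13) true (nat_lit 14) (.s true (nat_lit 1) (nat_lit 28) (nat_lit 2) (nat_lit 2) (nat_lit 5) true (nat_lit 4) true (nat_lit 10) true (nat_lit 1) true (nat_lit 13) true (nat_lit 13) (.s false (nat_lit 1) (nat_lit 29) (nat_lit 2) (nat_lit 2) (nat_lit 5) true (nat_lit 4) true (nat_lit 10) true (nat_lit 1) true (nat_lit 13) true (nat_lit 13) (.s true (nat_lit 1) (nat_lit 28) (nat_lit 6) (nat_lit 1) (nat_lit 2) true (nat_lit 3) true (nat_lit 13) true (nat_lit 1) true (nat_lit 9) true (nat_lit 14) (.s true (nat_lit 1) (nat_lit 31) (nat_lit 0) (nat_lit 2) (nat_lit 6) true (nat_lit 5) true (nat_lit 9) true (nat_lit 0) true (nat_lit 15) true (nat_lit 13) dC1c_i172)))))))))))))))))))))))))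

noncomputable def dC1c_i174 : IL := (.e false (nat_lit 1) (nat_lit 251) (nat_lit 2) (nat_lit 17) (.e true (nat_lit 2) (nat_lit 252) (nat_lit 2) (nat_lit 17) (.e true (nat_lit 1) (nat_lit 258) (nat_lit 2) (nat_lit 17) (.e false (nat_lit 1) (nat_lit 259) (nat_lit 2) (nat_lit 17) (.e true (nat_lit 1) (nat_lit 64) (nat_lit 16) (nat_lit 6) (.e false (nat_lit 2) (nat_lit 260) (nat_lit 1) (nat_lit 18) (.e true (nat_lit 3) (nat_lit 261) (nat_lit 1) (nat_lit 18) (.e true (nat_lit 3) (nat_lit 262) (nat_lit 1) (nat_lit 18) (.e false (nat_lit 2) (nat_lit 263) (nat_lit 1) (nat_lit 18) (.e true (nat_lit 2) (nat_lit 264) (nat_lit 1) (nat_lit 18) (.e false (nat_lit 1) (nat_lit 265) (nat_lit 1) (nat_lit 18) (.e false (nat_lit 1) (nat_lit 266) (nat_lit 1) (nat_lit 18) (.e true (nat_lit 3) (nat_lit 267) (nat_lit 1) (nat_lit 18) (.e true (nat_lit 3) (nat_lit 269) (nat_lit 1) (nat_lit 18) (.e false (nat_lit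 3) (nat_lit 271) (nat_lit 1) (nat_lit 18) (.e true (nat_lit 1) (nat_lit 272) (nat_lit 1) (nat_lit 18) (.e false (nat_lit 1) (nat_lit 273) (nat_lit 1) (nat_lit 18) (.e true (nat_lit 2) (nat_lit 274) (nat_lit 1) (nat_lit 18) (.e true (nat_lit 3) (nat_lit 277) (nat_lit 1) (nat_lit 18) (.e true (nat_lit 3) (nat_lit 278) (nat_lit 1) (nat_lit 18) (.e false (nat_lit 1) (nat_lit 279) (nat_lit 1) (nat_lit 18) (.e true (nat_lit 2) (nat_lit 280) (nat_lit 1) (nat_lit 18) (.e true (nat_lit 1) (nat_lit 286) (nat_lit 1) (nat_lit 18) (.e true (nat_lit 1) (nat_lit 288) (nat_lit 1) (nat_lit 18) (.u (nat_lit 2) (.p (nat_lit 1) (nat_lit 1) (.n (nat_lit 2) (nat_lit 1) (.p (nat_lit 3) (nat_lit 3) (.n (nat_lit 4) (nat_lit 1) (.n (nat_lit 5) (nat_lit 3) (.n (nat_lit 6) (nat_lit 2) (.p (nat_lit 7) (nat_lit 2) (.n (nat_lit 8) (nat_lit 4) (.p (nat_lit 9) (nat_lit 3) (.p (nat_lit 10) (nat_lit 2) (.n (nat_lit 11)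 (nat_lit 2) (.n (nat_lit 12) (nat_lit 1) (.n (nat_lit 13) (nat_lit 1) (.p (nat_lit 14) (nat_lit 3) (.n (nat_lit 15) (nat_lit 1) (.n (nat_lit 17) (nat_lit 6) (.p (nat_lit 19) (nat_lit 2) (.n (nat_lit 20) (nat_lit 5) (.n (nat_lit 23) (nat_lit 1) (.n (nat_lit 24) (nat_lit 2) (.n (nat_lit 25) (nat_lit 2) (.n (nat_lit 26) (nat_lit 3) (.p (nat_lit 27) (nat_lit 1) (.n (nat_lit 28) (nat_lit 3) (.n (nat_lit 30) (nat_lit 3) (.n (nat_lit 31) (nat_lit 1) (.n (nat_lit 33) (nat_lit 3) (.n (nat_lit 35) (nat_lit 4) (.n (nat_lit 36) (nat_lit 3) (.n (nat_lit 37) (nat_lit 4) (.p (nat_lit 39) (nat_lit 2) (.p (nat_lit 41) (nat_lit 3) (.p (nat_lit 45) (nat_lit 2) (.n (nat_lit 46) (nat_lit 1) (.p (nat_lit 48) (nat_lit 1) (.n (nat_lit 49) (nat_lit 1) (.p (nat_lit 50) (nat_lit 1) (.p (nat_lit 52) (nat_lit 1) (.n (nat_lit 53) (nat_lit 1) (.p (nat_lit 54) (nat_lit 3) (.n (nat_lit 55) (nat_lit 2) (.n (nat_lit 56)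 (nat_lit 1) (.p (nat_lit 57) (nat_lit 1) (.p (nat_lit 59) (nat_lit 1) (.p (nat_lit 60) (nat_lit 1) (.n (nat_lit 61) (nat_lit 1) (.n (nat_lit 62) (nat_lit 1) (.p (nat_lit 63) (nat_lit 2) (.n (nat_lit 64) (nat_lit 1) (.n (nat_lit 67) (nat_lit 2) (.p (nat_lit 68) (nat_lit 1) (.p (nat_lit 69) (nat_lit 1) (.n (nat_lit 70) (nat_lit 1) (.n (nat_lit 356) (nat_lit 1) .z)))))))))))))))))))))))))))))))))))))))))))))))))))))) .nil)))))))))))))))))))))))))

noncomputable def dC1c_i175 : IL := (.e false (nat_lit 3) (nat_lit 224) (nat_lit 2) (nat_lit 17) (.e false (nat_lit 2) (nat_lit 225) (nat_lit 2) (nat_lit 17) (.e false (nat_lit 2) (nat_lit 227) (nat_lit 2) (nat_lit 17) (.e true (nat_lit 1) (nat_lit 228) (nat_lit 2) (nat_lit 17) (.e true (nat_lit 1) (nat_lit 229) (nat_lit 2) (nat_lit 17) (.e true (nat_lit 1) (nat_lit 230) (nat_lit 2) (nat_lit 17) (.e true (nat_lit 2) (nat_lit 231) (nat_lit 2) (nat_lit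 17) (.e true (nat_lit 2) (nat_lit 232) (nat_lit 2) (nat_lit 17) (.e true (nat_lit 1) (nat_lit 233) (nat_lit 2) (nat_lit 17) (.e true (nat_lit 3) (nat_lit 234) (nat_lit 2) (nat_lit 17) (.e false (nat_lit 1) (nat_lit 235) (nat_lit 2) (nat_lit 17) (.e false (nat_lit 3) (nat_lit 236) (nat_lit 2) (nat_lit 17) (.e false (nat_lit 3) (nat_lit 237) (nat_lit 2) (nat_lit 17) (.e true (nat_lit 2) (nat_lit 238) (nat_lit 2) (nat_lit 17) (.e false (nat_lit 3) (nat_lit 239) (nat_lit 2) (nat_lit 17) (.e true (nat_lit 2) (nat_lit 240) (nat_lit 2) (nat_lit 17) (.e false (nat_lit 3) (nat_lit 241) (nat_lit 2) (nat_lit 17) (.e true (nat_lit 1) (nat_lit 242) (nat_lit 2) (nat_lit 17) (.e false (nat_lit 3) (nat_lit 243) (nat_lit 2) (nat_lit 17) (.e true (nat_lit 1) (nat_lit 244) (nat_lit 2) (nat_lit 17) (.e true (nat_lit 2) (nat_lit 246) (nat_lit 2) (nat_lit 17) (.e false (nat_lit 2) (nat_lit 247) (nat_lit 2)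 (nat_lit 17) (.e true (nat_lit 3) (nat_lit 248) (nat_lit 2) (nat_lit 17) (.e true (nat_lit 1) (nat_lit 249) (nat_lit 2) (nat_lit 17) (.e false (nat_lit 2) (nat_lit 250) (nat_lit 2) (nat_lit 17) dC1c_i174)))))))))))))))))))))))))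

noncomputable def dC1c_i176 : IL := (.e true (nat_lit 3) (nat_lit 228) (nat_lit 2) (nat_lit 17) (.e false (nat_lit 3) (nat_lit 230) (nat_lit 2) (nat_lit 17) (.e true (nat_lit 2) (nat_lit 231) (nat_lit 2) (nat_lit 17) (.e true (nat_lit 3) (nat_lit 232) (nat_lit 2) (nat_lit 17) (.e false (nat_lit 1) (nat_lit 233) (nat_lit 2) (nat_lit 17) (.e false (nat_lit 2) (nat_lit 234) (nat_lit 2) (nat_lit 17) (.e false (nat_lit 3) (nat_lit 236) (nat_lit 2) (nat_lit 17) (.e false (nat_lit 2) (nat_lit 237) (nat_lit 2) (nat_lit 17) (.e true (nat_lit 1) (nat_lit 238) (nat_lit 2) (nat_lit 17) (.e true (nat_lit 2) (nat_lit 239) (nat_lit 2) (nat_lit 17) (.e false (nat_lit 3) (nat_lit 240) (nat_lit 2) (nat_lit 17) (.e true (nat_lit 1) (nat_lit 241) (nat_lit 2) (nat_lit 17) (.e true (nat_lit 3) (nat_lit 242) (nat_lit 2) (nat_lit 17) (.e false (nat_lit 2) (nat_lit 243) (nat_lit 2) (nat_lit 17) (.e false (nat_lit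 2) (nat_lit 244) (nat_lit 2) (nat_lit 17) (.e false (nat_lit 1) (nat_lit 246) (nat_lit 2) (nat_lit 17) (.e true (nat_lit 1) (nat_lit 247) (nat_lit 2) (nat_lit 17) (.e true (nat_lit 2) (nat_lit 248) (nat_lit 2) (nat_lit 17) (.e true (nat_lit 3) (nat_lit 249) (nat_lit 2) (nat_lit 17) (.e false (nat_lit 3) (nat_lit 250) (nat_lit 2) (nat_lit 17) (.e true (nat_lit 1) (nat_lit 213) (nat_lit 2) (nat_lit 17) (.e true (nat_lit 2) (nat_lit 222) (nat_lit 2) (nat_lit 17) (.e false (nat_lit 1) (nat_lit 245) (nat_lit 2) (nat_lit 17) (.u (nat_lit 2) (.p (nat_lit 0) (nat_lit 1) (.p (nat_lit 1) (nat_lit 2) (.n (nat_lit 3) (nat_lit 3) (.p (nat_lit 4) (nat_lit 3) (.p (nat_lit 5) (nat_lit 1) (.n (nat_lit 6) (nat_lit 1) (.p (nat_lit 7) (nat_lit 2) (.p (nat_lit 8) (nat_lit 1) (.p (nat_lit 9) (nat_lit 3) (.p (nat_lit 10) (nat_lit 1) (.n (nat_lit 11) (nat_lit 1) (.p (nat_lit 12) (nat_lit 1) (.p (nat_lit 13)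 (nat_lit 1) (.n (nat_lit 15) (nat_lit 1) (.p (nat_lit 17) (nat_lit 2) (.p (nat_lit 18) (nat_lit 2) (.n (nat_lit 19) (nat_lit 5) (.n (nat_lit 20) (nat_lit 1) (.n (nat_lit 24) (nat_lit 1) (.n (nat_lit 25) (nat_lit 1) (.n (nat_lit 26) (nat_lit 1) (.n (nat_lit 27) (nat_lit 1) (.p (nat_lit 28) (nat_lit 1) (.p (nat_lit 30) (nat_lit 2) (.n (nat_lit 31) (nat_lit 1) (.n (nat_lit 32) (nat_lit 5) (.n (nat_lit 33) (nat_lit 3) (.p (nat_lit 34) (nat_lit 1) (.n (nat_lit 35) (nat_lit 5) (.p (nat_lit 36) (nat_lit 4) (.n (nat_lit 37) (nat_lit 2) (.n (nat_lit 38) (nat_lit 1) (.n (nat_lit 39) (nat_lit 4) (.n (nat_lit 40) (nat_lit 2) (.n (nat_lit 41) (nat_lit 1) (.p (nat_lit 45) (nat_lit 1) (.p (nat_lit 50) (nat_lit 3) (.n (nat_lit 51) (nat_lit 1) (.p (nat_lit 52) (nat_lit 1) (.p (nat_lit 53) (nat_lit 2) (.p (nat_lit 54) (nat_lit 1) (.n (nat_lit 55) (nat_lit 2) (.n (nat_lit 56) (nat_lit 2) (.p (nat_lit 57)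 (nat_lit 1) (.n (nat_lit 58) (nat_lit 1) (.p (nat_lit 61) (nat_lit 1) (.n (nat_lit 62) (nat_lit 1) (.p (nat_lit 65) (nat_lit 1) (.n (nat_lit 66) (nat_lit 1) (.n (nat_lit 67) (nat_lit 2) (.n (nat_lit 69) (nat_lit 2) (.p (nat_lit 70) (nat_lit 1) (.p (nat_lit 331) (nat_lit 1) (.n (nat_lit 333) (nat_lit 1) (.n (nat_lit 336) (nat_lit 1) (.n (nat_lit 340) (nat_lit 1) (.p (nat_lit 343) (nat_lit 1) (.n (nat_lit 345) (nat_lit 1) (.n (nat_lit 349) (nat_lit 1) (.n (nat_lit 351) (nat_lit 1) .z)))))))))))))))))))))))))))))))))))))))))))))))))))))))))))) (.u (nat_lit 2) (.n (nat_lit 355) (nat_lit 1) (.p (nat_lit 356) (nat_lit 1) (.n (nat_lit 358) (nat_lit 1) (.n (nat_lit 361) (nat_lit 1) (.p (nat_lit 362) (nat_lit 1) (.p (nat_lit 363) (nat_lit 1) (.p (nat_lit 364) (nat_lit 1) (.n (nat_lit 365) (nat_lit 1) .z)))))))) .nil)))))))))))))))))))))))))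

noncomputable def dC1c_i177 : IL := (.e true (nat_lit 1) (nat_lit 278) (nat_lit 2) (nat_lit 13) (.e true (nat_lit 1) (nat_lit 77) (nat_lit 16) (nat_lit 4) (.e true (nat_lit 2) (nat_lit 261) (nat_lit 2) (nat_lit 13) (.e false (nat_lit 2) (nat_lit 263) (nat_lit 2) (nat_lit 13) (.e true (nat_lit 3) (nat_lit 272) (nat_lit 2) (nat_lit 13) (.e false (nat_lit 2) (nat_lit 273) (nat_lit 2) (nat_lit 13) (.e true (nat_lit 2) (nat_lit 274) (nat_lit 2) (nat_lit 13) (.e false (nat_lit 1) (nat_lit 280) (nat_lit 2) (nat_lit 13) (.e true (nat_lit 3) (nat_lit 287) (nat_lit 2) (nat_lit 13) (.e true (nat_lit 2) (nat_lit 288) (nat_lit 2) (nat_lit 13) (.e true (nat_lit 1) (nat_lit 45) (nat_lit 28) (nat_lit 1) (.e true (nat_lit 1) (nat_lit 55) (nat_lit 18) (nat_lit 3) (.e true (nat_lit 1) (nat_lit 57) (nat_lit 18) (nat_lit 3) (.e true (nat_lit 3) (nat_lit 59) (nat_lit 18) (nat_lit 3) (.e true (nat_lit 3) (nat_lit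 60) (nat_lit 18) (nat_lit 3) (.e true (nat_lit 3) (nat_lit 61) (nat_lit 18) (nat_lit 3) (.e true (nat_lit 1) (nat_lit 62) (nat_lit 18) (nat_lit 3) (.e true (nat_lit 1) (nat_lit 63) (nat_lit 18) (nat_lit 3) (.e false (nat_lit 3) (nat_lit 64) (nat_lit 18) (nat_lit 3) (.e true (nat_lit 2) (nat_lit 65) (nat_lit 18) (nat_lit 3) (.e false (nat_lit 1) (nat_lit 277) (nat_lit 2) (nat_lit 13) (.e true (nat_lit 1) (nat_lit 281) (nat_lit 2) (nat_lit 13) (.e true (nat_lit 3) (nat_lit 286) (nat_lit 2) (nat_lit 13) (.e true (nat_lit 1) (nat_lit 174) (nat_lit 5) (nat_lit 10) (.u (nat_lit 2) (.n (nat_lit 0) (nat_lit 1) (.n (nat_lit 1) (nat_lit 3) (.p (nat_lit 2) (nat_lit 1) (.n (nat_lit 3) (nat_lit 1) (.p (nat_lit 4) (nat_lit 3) (.p (nat_lit 5) (nat_lit 1) (.p (nat_lit 6) (nat_lit 2) (.p (nat_lit 7) (nat_lit 2) (.n (nat_lit 8) (nat_lit 5) (.n (nat_lit 10) (nat_lit 1) (.n (nat_lit 12) (nat_lit 3) (.n (nat_lit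 13) (nat_lit 1) (.p (nat_lit 15) (nat_lit 2) (.p (nat_lit 16) (nat_lit 5) (.p (nat_lit 19) (nat_lit 1) (.n (nat_lit 22) (nat_lit 1) (.n (nat_lit 23) (nat_lit 1) (.p (nat_lit 24) (nat_lit 1) (.n (nat_lit 25) (nat_lit 1) (.p (nat_lit 26) (nat_lit 1) (.p (nat_lit 27) (nat_lit 1) (.n (nat_lit 30) (nat_lit 4) (.p (nat_lit 121) (nat_lit 1) (.p (nat_lit 122) (nat_lit 1) (.n (nat_lit 129) (nat_lit 2) (.p (nat_lit 136) (nat_lit 1) (.p (nat_lit 145) (nat_lit 1) (.n (nat_lit 177) (nat_lit 1) (.p (nat_lit 180) (nat_lit 1) (.n (nat_lit 182) (nat_lit 1) (.p (nat_lit 183) (nat_lit 1) (.p (nat_lit 200) (nat_lit 1) (.p (nat_lit 204) (nat_lit 2) (.p (nat_lit 205) (nat_lit 1) (.p (nat_lit 207) (nat_lit 1) (.n (nat_lit 208) (nat_lit 1) .z)))))))))))))))))))))))))))))))))))) .nil)))))))))))))))))))))))))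

noncomputable def dC1c_i178 : IL := (.e true (nat_lit 1) (nat_lit 137) (nat_lit 1) (nat_lit 13) (.e false (nat_lit 1) (nat_lit 145) (nat_lit 1) (nat_lit 13) (.e false (nat_lit 3) (nat_lit 41) (nat_lit 8) (nat_lit 6) (.e true (nat_lit 3) (nat_lit 150) (nat_lit 1) (nat_lit 13) (.e true (nat_lit 2) (nat_lit 164) (nat_lit 0) (nat_lit 14) (.e false (nat_lit 3) (nat_lit 156) (nat_lit 0) (nat_lit 14) (.e false (nat_lit 3) (nat_lit 157) (nat_lit 0) (nat_lit 14) (.e false (nat_lit 3) (nat_lit 162) (nat_lit 0) (nat_lit 14) (.e true (nat_lit 3) (nat_lit 163) (nat_lit 0) (nat_lit 14) (.e true (nat_lit 2) (nat_lit 167) (nat_lit 0) (nat_lit 14) (.e false (nat_lit 3) (nat_lit 170) (nat_lit 0) (nat_lit 14) (.e true (nat_lit 2) (nat_lit 166) (nat_lit 0) (nat_lit 14) (.e true (nat_lit 2) (nat_lit 168) (nat_lit 0) (nat_lit 14) (.e false (nat_lit 2) (nat_lit 159) (nat_lit 0) (nat_lit 14) (.e true (nat_lit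 1) (nat_lit 160) (nat_lit 0) (nat_lit 14) (.e false (nat_lit 3) (nat_lit 173) (nat_lit 0) (nat_lit 14) (.e true (nat_lit 1) (nat_lit 154) (nat_lit 0) (nat_lit 14) (.e false (nat_lit 1) (nat_lit 169) (nat_lit 0) (nat_lit 14) (.e false (nat_lit 3) (nat_lit 171) (nat_lit 0) (nat_lit 14) (.e false (nat_lit 2) (nat_lit 153) (nat_lit 0) (nat_lit 14) (.e true (nat_lit 3) (nat_lit 155) (nat_lit 0) (nat_lit 14) (.e false (nat_lit 1) (nat_lit 158) (nat_lit 0) (nat_lit 14) (.e true (nat_lit 3) (nat_lit 165) (nat_lit 0) (nat_lit 14) (.e true (nat_lit 1) (nat_lit 172) (nat_lit 0) (nat_lit 14) (.u (nat_lit 2) (.p (nat_lit 1) (nat_lit 2) (.p (nat_lit 4) (nat_lit 2) (.n (nat_lit 5) (nat_lit 1) (.p (nat_lit 6) (nat_lit 1) (.n (nat_lit 8) (nat_lit 1) (.p (nat_lit 9) (nat_lit 2) (.n (nat_lit 10) (nat_lit 3) (.p (nat_lit 12) (nat_lit 2) (.p (nat_lit 13) (nat_lit 1) (.n (nat_lit 14) (nat_lit 2) (.p (nat_lit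 15) (nat_lit 2) (.p (nat_lit 16) (nat_lit 1) (.p (nat_lit 17) (nat_lit 2) (.n (nat_lit 18) (nat_lit 1) (.n (nat_lit 19) (nat_lit 1) (.n (nat_lit 23) (nat_lit 1) (.n (nat_lit 24) (nat_lit 1) (.n (nat_lit 25) (nat_lit 1) (.p (nat_lit 26) (nat_lit 1) (.n (nat_lit 27) (nat_lit 3) (.n (nat_lit 28) (nat_lit 1) (.p (nat_lit 29) (nat_lit 4) (.n (nat_lit 30) (nat_lit 1) (.p (nat_lit 31) (nat_lit 1) (.n (nat_lit 34) (nat_lit 1) (.p (nat_lit 161) (nat_lit 1) (.p (nat_lit 162) (nat_lit 4) (.n (nat_lit 163) (nat_lit 1) (.p (nat_lit 164) (nat_lit 1) (.p (nat_lit 166) (nat_lit 1) (.p (nat_lit 167) (nat_lit 1) (.n (nat_lit 168) (nat_lit 1) (.p (nat_lit 169) (nat_lit 5) (.p (nat_lit 171) (nat_lit 3) (.p (nat_lit 172) (nat_lit 2) (.n (nat_lit 173) (nat_lit 2) (.n (nat_lit 174) (nat_lit 1) (.p (nat_lit 175) (nat_lit 1) (.n (nat_lit 176) (nat_lit 2) (.p (nat_lit 178) (nat_lit 2) (.n (nat_lit 180) (nat_lit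 3) (.n (nat_lit 182) (nat_lit 2) (.n (nat_lit 183) (nat_lit 2) (.n (nat_lit 186) (nat_lit 3) (.n (nat_lit 187) (nat_lit 1) (.n (nat_lit 188) (nat_lit 2) (.p (nat_lit 189) (nat_lit 1) (.n (nat_lit 193) (nat_lit 1) (.p (nat_lit 195) (nat_lit 2) (.n (nat_lit 196) (nat_lit 1) (.n (nat_lit 197) (nat_lit 1) (.n (nat_lit 198) (nat_lit 1) (.p (nat_lit 199) (nat_lit 3) (.n (nat_lit 200) (nat_lit 3) (.p (nat_lit 201) (nat_lit 1) .z))))))))))))))))))))))))))))))))))))))))))))))))))))))) .nil)))))))))))))))))))))))))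

noncomputable def dC1c_i179 : IL := (.e true (nat_lit 3) (nat_lit 242) (nat_lit 2) (nat_lit 17) (.e true (nat_lit 1) (nat_lit 246) (nat_lit 2) (nat_lit 17) (.e false (nat_lit 2) (nat_lit 236) (nat_lit 2) (nat_lit 17) (.e false (nat_lit 1) (nat_lit 260) (nat_lit 1) (nat_lit 18) (.e false (nat_lit 1) (nat_lit 261) (nat_lit 1) (nat_lit 18) (.e false (nat_lit 3) (nat_lit 262) (nat_lit 1) (nat_lit 18) (.e false (nat_lit 3) (nat_lit 263) (nat_lit 1) (nat_lit 18) (.e false (nat_lit 1) (nat_lit 264) (nat_lit 1) (nat_lit 18) (.e false (nat_lit 3) (nat_lit 265) (nat_lit 1) (nat_lit 18) (.e false (nat_lit 2) (nat_lit 266) (nat_lit 1) (nat_lit 18) (.e false (nat_lit 2) (nat_lit 267) (nat_lit 1) (nat_lit 18) (.e true (nat_lit 1) (nat_lit 270) (nat_lit 1) (nat_lit 18) (.e true (nat_lit 2) (nat_lit 271) (nat_lit 1) (nat_lit 18) (.e false (nat_lit 3) (nat_lit 272) (nat_lit 1) (nat_lit 18) (.e true (nat_lit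 2) (nat_lit 273) (nat_lit 1) (nat_lit 18) (.e false (nat_lit 2) (nat_lit 274) (nat_lit 1) (nat_lit 18) (.e true (nat_lit 1) (nat_lit 277) (nat_lit 1) (nat_lit 18) (.e true (nat_lit 2) (nat_lit 278) (nat_lit 1) (nat_lit 18) (.e true (nat_lit 1) (nat_lit 279) (nat_lit 1) (nat_lit 18) (.e false (nat_lit 1) (nat_lit 280) (nat_lit 1) (nat_lit 18) (.e true (nat_lit 1) (nat_lit 288) (nat_lit 1) (nat_lit 18) (.e false (nat_lit 1) (nat_lit 164) (nat_lit 4) (nat_lit 15) (.e true (nat_lit 1) (nat_lit 233) (nat_lit 2) (nat_lit 17) (.e false (nat_lit 1) (nat_lit 275) (nat_lit 1) (nat_lit 18) (.u (nat_lit 2) (.p (nat_lit 0) (nat_lit 4) (.n (nat_lit 2) (nat_lit 4) (.p (nat_lit 3) (nat_lit 2) (.p (nat_lit 4) (nat_lit 2) (.n (nat_lit 5) (nat_lit 1) (.n (nat_lit 7) (nat_lit 1) (.p (nat_lit 8) (nat_lit 2) (.p (nat_lit 9) (nat_lit 1) (.n (nat_lit 10) (nat_lit 2) (.n (nat_lit 11) (nat_lit 4) (.n (nat_lit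 12) (nat_lit 2) (.n (nat_lit 13) (nat_lit 2) (.n (nat_lit 14) (nat_lit 1) (.p (nat_lit 15) (nat_lit 2) (.p (nat_lit 18) (nat_lit 4) (.n (nat_lit 19) (nat_lit 2) (.n (nat_lit 20) (nat_lit 1) (.n (nat_lit 26) (nat_lit 2) (.n (nat_lit 28) (nat_lit 1) (.p (nat_lit 30) (nat_lit 1) (.p (nat_lit 31) (nat_lit 2) (.p (nat_lit 33) (nat_lit 2) (.n (nat_lit 35) (nat_lit 2) (.p (nat_lit 36) (nat_lit 1) (.n (nat_lit 37) (nat_lit 3) (.n (nat_lit 39) (nat_lit 1) (.p (nat_lit 40) (nat_lit 1) (.p (nat_lit 41) (nat_lit 2) (.n (nat_lit 49) (nat_lit 2) (.n (nat_lit 53) (nat_lit 1) (.p (nat_lit 55) (nat_lit 1) (.n (nat_lit 57) (nat_lit 2) (.p (nat_lit 58) (nat_lit 2) (.n (nat_lit 60) (nat_lit 2) (.n (nat_lit 61) (nat_lit 1) (.p (nat_lit 62) (nat_lit 1) (.p (nat_lit 63) (nat_lit 1) (.p (nat_lit 69) (nat_lit 2) (.n (nat_lit 70) (nat_lit 2) (.n (nat_lit 327) (nat_lit 1) (.n (nat_lit 329) (nat_lit 1) (.n (nat_lit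 331) (nat_lit 1) (.p (nat_lit 333) (nat_lit 1) (.n (nat_lit 334) (nat_lit 1) (.n (nat_lit 335) (nat_lit 1) (.p (nat_lit 338) (nat_lit 1) (.p (nat_lit 346) (nat_lit 1) (.p (nat_lit 349) (nat_lit 1) (.p (nat_lit 350) (nat_lit 1) (.p (nat_lit 352) (nat_lit 1) (.p (nat_lit 357) (nat_lit 1) (.n (nat_lit 359) (nat_lit 1) .z)))))))))))))))))))))))))))))))))))))))))))))))))))) .nil)))))))))))))))))))))))))

noncomputable def dC1c_i180 : IL := (.e true (nat_lit 3) (nat_lit 299) (nat_lit 0) (nat_lit 19) (.e true (nat_lit 1) (nat_lit 301) (nat_lit 0) (nat_lit 19) (.e true (nat_lit 1) (nat_lit 307) (nat_lit 0) (nat_lit 19) (.e false (nat_lit 2) (nat_lit 308) (nat_lit 0) (nat_lit 19) (.e false (nat_lit 1) (nat_lit 317) (nat_lit 0) (nat_lit 19) (.e false (nat_lit 1) (nat_lit 223) (nat_lit 2) (nat_lit 17) (.e true (nat_lit 3) (nat_lit 212) (nat_lit 2) (nat_lit 17) (.e false (nat_lit 1) (nat_lit 214)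 (nat_lit 2) (nat_lit 17) (.e true (nat_lit 3) (nat_lit 215) (nat_lit 2) (nat_lit 17) (.e false (nat_lit 2) (nat_lit 217) (nat_lit 2) (nat_lit 17) (.e true (nat_lit 2) (nat_lit 218) (nat_lit 2) (nat_lit 17) (.e false (nat_lit 2) (nat_lit 219) (nat_lit 2) (nat_lit 17) (.e true (nat_lit 1) (nat_lit 220) (nat_lit 2) (nat_lit 17) (.e false (nat_lit 2) (nat_lit 222) (nat_lit 2) (nat_lit 17) (.e true (nat_lit 2) (nat_lit 224) (nat_lit 2) (nat_lit 17) (.e false (nat_lit 1) (nat_lit 227) (nat_lit 2) (nat_lit 17) (.e true (nat_lit 2) (nat_lit 229) (nat_lit 2) (nat_lit 17) (.e false (nat_lit 1) (nat_lit 213) (nat_lit 2) (nat_lit 17) (.e true (nat_lit 2) (nat_lit 232) (nat_lit 2) (nat_lit 17) (.e true (nat_lit 2) (nat_lit 234) (nat_lit 2) (nat_lit 17) (.e true (nat_lit 3) (nat_lit 235) (nat_lit 2) (nat_lit 17) (.e true (nat_lit 1) (nat_lit 237) (nat_lit 2) (nat_lit 17) (.e false (nat_lit 3) (nat_lit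 238) (nat_lit 2) (nat_lit 17) (.e true (nat_lit 2) (nat_lit 239) (nat_lit 2) (nat_lit 17) (.e true (nat_lit 3) (nat_lit 240) (nat_lit 2) (nat_lit 17) dC1c_i179)))))))))))))))))))))))))

noncomputable def dC1c_i181 : IL := (.e true (nat_lit 1) (nat_lit 82) (nat_lit 14) (nat_lit 5) (.e true (nat_lit 1) (nat_lit 260) (nat_lit 2) (nat_lit 13) (.e true (nat_lit 1) (nat_lit 261) (nat_lit 2) (nat_lit 13) (.e true (nat_lit 3) (nat_lit 263) (nat_lit 2) (nat_lit 13) (.e false (nat_lit 3) (nat_lit 264) (nat_lit 2) (nat_lit 13) (.e true (nat_lit 1) (nat_lit 265) (nat_lit 2) (nat_lit 13) (.e true (nat_lit 2) (nat_lit 266) (nat_lit 2) (nat_lit 13) (.e true (nat_lit 3) (nat_lit 267) (nat_lit 2) (nat_lit 13) (.e false (nat_lit 2) (nat_lit 268) (nat_lit 2) (nat_lit 13) (.e false (nat_lit 2) (nat_lit 269) (nat_lit 2) (nat_lit 13) (.e false (nat_lit 2) (nat_lit 270) (nat_lit 2) (nat_lit 13) (.e true (nat_lit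 2) (nat_lit 271) (nat_lit 2) (nat_lit 13) (.e true (nat_lit 3) (nat_lit 272) (nat_lit 2) (nat_lit 13) (.e false (nat_lit 1) (nat_lit 273) (nat_lit 2) (nat_lit 13) (.e false (nat_lit 2) (nat_lit 274) (nat_lit 2) (nat_lit 13) (.e false (nat_lit 1) (nat_lit 275) (nat_lit 2) (nat_lit 13) (.e false (nat_lit 3) (nat_lit 277) (nat_lit 2) (nat_lit 13) (.e true (nat_lit 2) (nat_lit 279) (nat_lit 2) (nat_lit 13) (.e false (nat_lit 2) (nat_lit 280) (nat_lit 2) (nat_lit 13) (.e true (nat_lit 1) (nat_lit 281) (nat_lit 2) (nat_lit 13) (.e false (nat_lit 1) (nat_lit 286) (nat_lit 2) (nat_lit 13) (.e false (nat_lit 1) (nat_lit 287) (nat_lit 2) (nat_lit 13) (.e false (nat_lit 1) (nat_lit 289) (nat_lit 2) (nat_lit 13) (.e false (nat_lit 1) (nat_lit 328) (nat_lit 0) (nat_lit 15) (.u (nat_lit 2) (.p (nat_lit 1) (nat_lit 4) (.n (nat_lit 2) (nat_lit 1) (.n (nat_lit 4) (nat_lit 1) (.p (nat_lit 5) (nat_lit 3)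 (.p (nat_lit 6) (nat_lit 3) (.p (nat_lit 7) (nat_lit 3) (.n (nat_lit 8) (nat_lit 1) (.p (nat_lit 12) (nat_lit 2) (.p (nat_lit 15) (nat_lit 3) (.n (nat_lit 16) (nat_lit 3) (.n (nat_lit 17) (nat_lit 1) (.p (nat_lit 18) (nat_lit 2) (.p (nat_lit 19) (nat_lit 3) (.p (nat_lit 23) (nat_lit 1) (.n (nat_lit 24) (nat_lit 1) (.n (nat_lit 25) (nat_lit 1) (.n (nat_lit 26) (nat_lit 1) (.n (nat_lit 27) (nat_lit 1) (.p (nat_lit 30) (nat_lit 1) (.n (nat_lit 33) (nat_lit 2) .z)))))))))))))))))))) .nil)))))))))))))))))))))))))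

noncomputable def dC1c_i182 : IL := (.e true (nat_lit 2) (nat_lit 299) (nat_lit 0) (nat_lit 19) (.e false (nat_lit 1) (nat_lit 301) (nat_lit 0) (nat_lit 19) (.e false (nat_lit 2) (nat_lit 304) (nat_lit 0) (nat_lit 19) (.e true (nat_lit 1) (nat_lit 311) (nat_lit 0) (nat_lit 19) (.e true (nat_lit 3) (nat_lit 317) (nat_lit 0) (nat_lit 19) (.e true (nat_lit 2) (nat_lit 259) (nat_lit 2) (nat_lit 17) (.e true (nat_lit 1) (nat_lit 282) (nat_lit 1) (nat_lit 18) (.e false (nat_lit 3) (nat_lit 293) (nat_lit 0) (nat_lit 19) (.e true (nat_lit 3) (nat_lit 295) (nat_lit 0) (nat_lit 19) (.e false (nat_lit 2) (nat_lit 296) (nat_lit 0) (nat_lit 19) (.e false (nat_lit 3) (nat_lit 300) (nat_lit 0) (nat_lit 19) (.e false (nat_lit 1) (nat_lit 302) (nat_lit 0) (nat_lit 19) (.e false (nat_lit 3) (nat_lit 305) (nat_lit 0) (nat_lit 19) (.e false (nat_lit 1) (nat_lit 310) (nat_lit 0) (nat_lit 19) (.e false (nat_lit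 2) (nat_lit 313) (nat_lit 0) (nat_lit 19) (.e false (nat_lit 1) (nat_lit 314) (nat_lit 0) (nat_lit 19) (.e false (nat_lit 1) (nat_lit 315) (nat_lit 0) (nat_lit 19) (.e false (nat_lit 1) (nat_lit 316) (nat_lit 0) (nat_lit 19) (.e false (nat_lit 3) (nat_lit 144) (nat_lit 5) (nat_lit 14) (.e false (nat_lit 1) (nat_lit 276) (nat_lit 1) (nat_lit 18) (.e true (nat_lit 3) (nat_lit 154) (nat_lit 4) (nat_lit 15) (.u (nat_lit 2) (.n (nat_lit 0) (nat_lit 1) (.n (nat_lit 3) (nat_lit 1) (.n (nat_lit 4) (nat_lit 1) (.n (nat_lit 5) (nat_lit 1) (.p (nat_lit 6) (nat_lit 2) (.n (nat_lit 7) (nat_lit 1) (.p (nat_lit 8) (nat_lit 1) (.n (nat_lit 14) (nat_lit 2) (.p (nat_lit 15) (nat_lit 3) (.p (nat_lit 17) (nat_lit 3) (.n (nat_lit 18) (nat_lit 1) (.n (nat_lit 19) (nat_lit 1) (.p (nat_lit 20) (nat_lit 3) (.p (nat_lit 23) (nat_lit 1) (.p (nat_lit 24) (nat_lit 1) (.p (nat_lit 25) (nat_lit 1) (.n (nat_lit 26)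 (nat_lit 3) (.p (nat_lit 28) (nat_lit 2) (.p (nat_lit 29) (nat_lit 2) (.p (nat_lit 30) (nat_lit 2) (.p (nat_lit 31) (nat_lit 1) (.p (nat_lit 32) (nat_lit 1) (.p (nat_lit 33) (nat_lit 4) (.p (nat_lit 34) (nat_lit 2) (.n (nat_lit 35) (nat_lit 1) (.n (nat_lit 36) (nat_lit 1) (.p (nat_lit 37) (nat_lit 1) (.p (nat_lit 38) (nat_lit 2) (.n (nat_lit 39) (nat_lit 1) (.n (nat_lit 40) (nat_lit 3) (.p (nat_lit 41) (nat_lit 2) (.n (nat_lit 45) (nat_lit 1) (.n (nat_lit 50) (nat_lit 2) (.p (nat_lit 51) (nat_lit 2) (.n (nat_lit 52) (nat_lit 1) (.n (nat_lit 53) (nat_lit 1) (.n (nat_lit 54) (nat_lit 1) (.p (nat_lit 55) (nat_lit 1) (.p (nat_lit 58) (nat_lit 1) (.n (nat_lit 60) (nat_lit 1) (.p (nat_lit 61) (nat_lit 1) (.p (nat_lit 62) (nat_lit 1) (.n (nat_lit 63) (nat_lit 1) (.n (nat_lit 71) (nat_lit 1) (.p (nat_lit 92) (nat_lit 1) (.n (nat_lit 117) (nat_lit 1) (.n (nat_lit 118) (nat_lit 1) (.p (nat_lit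 132) (nat_lit 1) (.p (nat_lit 133) (nat_lit 2) (.p (nat_lit 143) (nat_lit 1) (.n (nat_lit 149) (nat_lit 1) (.n (nat_lit 151) (nat_lit 1) (.n (nat_lit 153) (nat_lit 1) (.n (nat_lit 158) (nat_lit 1) (.n (nat_lit 172) (nat_lit 1) (.n (nat_lit 182) (nat_lit 1) (.p (nat_lit 211) (nat_lit 1) (.p (nat_lit 214) (nat_lit 1) (.p (nat_lit 232) (nat_lit 1) (.p (nat_lit 234) (nat_lit 1) .z)))))))))))))))))))))))))))))))))))))))))))))))))))))))))))) (.u (nat_lit 2) (.p (nat_lit 237) (nat_lit 1) (.p (nat_lit 238) (nat_lit 1) (.p (nat_lit 241) (nat_lit 1) (.p (nat_lit 242) (nat_lit 1) (.n (nat_lit 244) (nat_lit 3) (.n (nat_lit 249) (nat_lit 3) (.p (nat_lit 251) (nat_lit 3) (.n (nat_lit 253) (nat_lit 1) (.p (nat_lit 256) (nat_lit 1) (.p (nat_lit 261) (nat_lit 1) (.p (nat_lit 263) (nat_lit 1) (.p (nat_lit 266) (nat_lit 1) (.n (nat_lit 267) (nat_lit 1) (.p (nat_lit 270) (nat_lit 1) (.p (nat_lit 273) (nat_lit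 1) (.p (nat_lit 274) (nat_lit 2) (.p (nat_lit 275) (nat_lit 3) (.p (nat_lit 277) (nat_lit 1) (.n (nat_lit 278) (nat_lit 4) (.p (nat_lit 279) (nat_lit 2) (.n (nat_lit 281) (nat_lit 1) (.p (nat_lit 313) (nat_lit 1) (.p (nat_lit 316) (nat_lit 1) (.n (nat_lit 327) (nat_lit 5) (.p (nat_lit 328) (nat_lit 1) (.p (nat_lit 329) (nat_lit 9) (.n (nat_lit 330) (nat_lit 3) (.p (nat_lit 331) (nat_lit 14) (.p (nat_lit 332) (nat_lit 5) (.p (nat_lit 333) (nat_lit 1) (.p (nat_lit 334) (nat_lit 6) (.n (nat_lit 335) (nat_lit 7) (.n (nat_lit 336) (nat_lit 7) (.n (nat_lit 337) (nat_lit 13) (.n (nat_lit 338) (nat_lit 6) (.n (nat_lit 339) (nat_lit 3) (.n (nat_lit 340) (nat_lit 7) (.n (nat_lit 341) (nat_lit 4) (.n (nat_lit 342) (nat_lit 4) (.n (nat_lit 343) (nat_lit 17) (.n (nat_lit 344) (nat_lit 3) (.n (nat_lit 345) (nat_lit 9) (.p (nat_lit 346) (nat_lit 14) (.p (nat_lit 347) (nat_lit 2) (.n (nat_lit 348) (nat_lit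 3) (.n (nat_lit 349) (nat_lit 4) (.n (nat_lit 350) (nat_lit 2) (.p (nat_lit 351) (nat_lit 5) (.n (nat_lit 352) (nat_lit 16) (.n (nat_lit 353) (nat_lit 20) (.p (nat_lit 354) (nat_lit 19) (.p (nat_lit 355) (nat_lit 2) (.n (nat_lit 356) (nat_lit 4) (.n (nat_lit 357) (nat_lit 3) (.p (nat_lit 358) (nat_lit 8) (.n (nat_lit 360) (nat_lit 1) (.p (nat_lit 361) (nat_lit 15) (.n (nat_lit 362) (nat_lit 3) (.p (nat_lit 363) (nat_lit 1) (.p (nat_lit 364) (nat_lit 8) .z)))))))))))))))))))))))))))))))))))))))))))))))))))))))))))) (.u (nat_lit 2) (.p (nat_lit 365) (nat_lit 5) (.n (nat_lit 366) (nat_lit 5) (.n (nat_lit 368) (nat_lit 7) (.n (nat_lit 369) (nat_lit 6) (.p (nat_lit 370) (nat_lit 1) (.p (nat_lit 371) (nat_lit 7) (.n (nat_lit 372) (nat_lit 6) (.n (nat_lit 373) (nat_lit 3) (.p (nat_lit 374) (nat_lit 6) (.p (nat_lit 375) (nat_lit 22) (.p (nat_lit 376) (nat_lit 9) (.p (nat_lit 377) (nat_lit 5)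 (.n (nat_lit 378) (nat_lit 16) (.p (nat_lit 379) (nat_lit 6) (.n (nat_lit 380) (nat_lit 16) (.n (nat_lit 381) (nat_lit 33) (.n (nat_lit 382) (nat_lit 19) (.p (nat_lit 383) (nat_lit 15) (.p (nat_lit 384) (nat_lit 17) (.n (nat_lit 385) (nat_lit 19) (.n (nat_lit 386) (nat_lit 7) (.p (nat_lit 387) (nat_lit 18) (.p (nat_lit 388) (nat_lit 12) (.n (nat_lit 389) (nat_lit 15) (.n (nat_lit 390) (nat_lit 2) (.p (nat_lit 391) (nat_lit 2) (.p (nat_lit 392) (nat_lit 31) (.p (nat_lit 393) (nat_lit 27) (.p (nat_lit 394) (nat_lit 7) (.p (nat_lit 395) (nat_lit 17) (.p (nat_lit 396) (nat_lit 1) (.p (nat_lit 397) (nat_lit 1) (.p (nat_lit 398) (nat_lit 3) (.n (nat_lit 399) (nat_lit 18) (.p (nat_lit 400) (nat_lit 3) (.n (nat_lit 401) (nat_lit 21) (.n (nat_lit 402) (nat_lit 1) (.p (nat_lit 403) (nat_lit 9) (.n (nat_lit 404) (nat_lit 5) (.p (nat_lit 405) (nat_lit 7) (.p (nat_lit 406) (nat_lit 16) (.n (nat_lit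 407) (nat_lit 14) (.n (nat_lit 408) (nat_lit 9) (.n (nat_lit 409) (nat_lit 15) (.n (nat_lit 410) (nat_lit 22) (.n (nat_lit 411) (nat_lit 12) (.p (nat_lit 412) (nat_lit 20) (.p (nat_lit 413) (nat_lit 15) (.p (nat_lit 414) (nat_lit 11) (.p (nat_lit 415) (nat_lit 17) (.n (nat_lit 416) (nat_lit 28) (.p (nat_lit 417) (nat_lit 7) (.p (nat_lit 418) (nat_lit 2) (.p (nat_lit 419) (nat_lit 2) (.p (nat_lit 420) (nat_lit 7) (.p (nat_lit 421) (nat_lit 1) (.p (nat_lit 422) (nat_lit 23) (.n (nat_lit 423) (nat_lit 8) (.n (nat_lit 425) (nat_lit 19) (.p (nat_lit 426) (nat_lit 10) .z)))))))))))))))))))))))))))))))))))))))))))))))))))))))))))) (.u (nat_lit 2) (.p (nat_lit 427) (nat_lit 9) (.n (nat_lit 428) (nat_lit 5) (.p (nat_lit 429) (nat_lit 1) (.p (nat_lit 430) (nat_lit 2) (.p (nat_lit 431) (nat_lit 1) (.n (nat_lit 432) (nat_lit 6) (.n (nat_lit 433) (nat_lit 2) (.n (nat_lit 434) (nat_lit 8) .z))))))))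 .nil)))))))))))))))))))))))))

noncomputable def dC1c_i183 : IL := (.e false (nat_lit 2) (nat_lit 139) (nat_lit 5) (nat_lit 14) (.e true (nat_lit 2) (nat_lit 143) (nat_lit 5) (nat_lit 14) (.e false (nat_lit 2) (nat_lit 260) (nat_lit 1) (nat_lit 18) (.e true (nat_lit 3) (nat_lit 265) (nat_lit 1) (nat_lit 18) (.e false (nat_lit 2) (nat_lit 266) (nat_lit 1) (nat_lit 18) (.e false (nat_lit 2) (nat_lit 267) (nat_lit 1) (nat_lit 18) (.e false (nat_lit 2) (nat_lit 268) (nat_lit 1) (nat_lit 18) (.e false (nat_lit 1) (nat_lit 272) (nat_lit 1) (nat_lit 18) (.e false (nat_lit 2) (nat_lit 273) (nat_lit 1) (nat_lit 18) (.e true (nat_lit 2) (nat_lit 274) (nat_lit 1) (nat_lit 18) (.e true (nat_lit 2) (nat_lit 280) (nat_lit 1) (nat_lit 18) (.e true (nat_lit 1) (nat_lit 288) (nat_lit 1) (nat_lit 18) (.e true (nat_lit 2) (nat_lit 263) (nat_lit 1) (nat_lit 18) (.e false (nat_lit 1) (nat_lit 281) (nat_lit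 1) (nat_lit 18) (.e true (nat_lit 1) (nat_lit 251) (nat_lit 2) (nat_lit 17) (.e false (nat_lit 1) (nat_lit 252) (nat_lit 2) (nat_lit 17) (.e false (nat_lit 1) (nat_lit 157) (nat_lit 4) (nat_lit 15) (.e true (nat_lit 1) (nat_lit 77) (nat_lit 13) (nat_lit 8) (.e true (nat_lit 3) (nat_lit 270) (nat_lit 1) (nat_lit 18) (.e false (nat_lit 3) (nat_lit 285) (nat_lit 1) (nat_lit 18) (.e false (nat_lit 3) (nat_lit 271) (nat_lit 1) (nat_lit 18) (.e true (nat_lit 3) (nat_lit 283) (nat_lit 1) (nat_lit 18) (.e true (nat_lit 2) (nat_lit 291) (nat_lit 0) (nat_lit 19) (.e true (nat_lit 2) (nat_lit 294) (nat_lit 0) (nat_lit 19) (.e false (nat_lit 3) (nat_lit 298) (nat_lit 0) (nat_lit 19) dC1c_i182)))))))))))))))))))))))))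

noncomputable def dC1c_i184 : IL := (.e false (nat_lit 2) (nat_lit 222) (nat_lit 2) (nat_lit 17) (.e false (nat_lit 2) (nat_lit 223) (nat_lit 2) (nat_lit 17) (.e false (nat_lit 3) (nat_lit 224) (nat_lit 2) (nat_lit 17) (.e false (nat_lit 1) (nat_lit 225) (nat_lit 2) (nat_lit 17) (.e false (nat_lit 1) (nat_lit 227) (nat_lit 2) (nat_lit 17) (.e true (nat_lit 1) (nat_lit 228) (nat_lit 2) (nat_lit 17) (.e false (nat_lit 3) (nat_lit 233) (nat_lit 2) (nat_lit 17) (.e true (nat_lit 2) (nat_lit 235) (nat_lit 2) (nat_lit 17) (.e false (nat_lit 1) (nat_lit 236) (nat_lit 2) (nat_lit 17) (.e false (nat_lit 1) (nat_lit 239) (nat_lit 2) (nat_lit 17) (.e true (nat_lit 1) (nat_lit 242) (nat_lit 2) (nat_lit 17) (.e false (nat_lit 2) (nat_lit 244) (nat_lit 2) (nat_lit 17) (.e false (nat_lit 2) (nat_lit 245) (nat_lit 2) (nat_lit 17) (.e true (nat_lit 1) (nat_lit 246) (nat_lit 2) (nat_lit 17) (.e false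 (nat_lit 2) (nat_lit 248) (nat_lit 2) (nat_lit 17) (.e true (nat_lit 1) (nat_lit 212) (nat_lit 2) (nat_lit 17) (.e false (nat_lit 3) (nat_lit 219) (nat_lit 2) (nat_lit 17) (.e false (nat_lit 3) (nat_lit 234) (nat_lit 2) (nat_lit 17) (.e true (nat_lit 2) (nat_lit 237) (nat_lit 2) (nat_lit 17) (.e true (nat_lit 3) (nat_lit 232) (nat_lit 2) (nat_lit 17) (.e false (nat_lit 3) (nat_lit 215) (nat_lit 2) (nat_lit 17) (.e true (nat_lit 2) (nat_lit 249) (nat_lit 2) (nat_lit 17) (.e false (nat_lit 2) (nat_lit 277) (nat_lit 1) (nat_lit 18) (.e true (nat_lit 1) (nat_lit 307) (nat_lit 0) (nat_lit 19) (.e true (nat_lit 1) (nat_lit 136) (nat_lit 5) (nat_lit 14) dC1c_i183)))))))))))))))))))))))))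

noncomputable def dC1c_i185 : IL := (.s true (nat_lit 1) (nat_lit 93) (nat_lit 0) (nat_lit 2) (nat_lit 0) false (nat_lit 20) true (nat_lit 19) false (nat_lit 10) true (nat_lit 19) true (nat_lit 17) (.s true (nat_lit 3) (nat_lit 94) (nat_lit 0) (nat_lit 2) (nat_lit 0) false (nat_lit 20) true (nat_lit 19) false (nat_lit 10) true (nat_lit 19) true (nat_lit 17) (.s false (nat_lit 1) (nat_lit 95) (nat_lit 0) (nat_lit 2) (nat_lit 0) false (nat_lit 20) true (nat_lit 19) false (nat_lit 10) true (nat_lit 19) true (nat_lit 17) (.s false (nat_lit 3) (nat_lit 96) (nat_lit 0) (nat_lit 2) (nat_lit 0) false (nat_lit 20) true (nat_lit 19) false (nat_lit 10) true (nat_lit 19) true (nat_lit 17) (.s false (nat_lit 3) (nat_lit 97) (nat_lit 0) (nat_lit 2) (nat_lit 0) false (nat_lit 20) true (nat_lit 19) false (nat_lit 10) true (nat_lit 19) true (nat_lit 17) (.s false (nat_lit 2) (nat_lit 98) (nat_lit 0)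 (nat_lit 1) (nat_lit 1) true (nat_lit 16) true (nat_lit 18) false (nat_lit 11) true (nat_lit 19) true (nat_lit 18) (.s false (nat_lit 2) (nat_lit 99) (nat_lit 1) (nat_lit 0) (nat_lit 1) false (nat_lit 21) true (nat_lit 18) false (nat_lit 11) true (nat_lit 18) true (nat_lit 19) (.s true (nat_lit 2) (nat_lit 101) (nat_lit 1) (nat_lit 0) (nat_lit 1) false (nat_lit 21) true (nat_lit 18) false (nat_lit 11) true (nat_lit 18) true (nat_lit 19) (.s false (nat_lit 2) (nat_lit 98) (nat_lit 1) (nat_lit 1) (nat_lit 0) true (nat_lit 16) true (nat_lit 19) false (nat_lit 11) true (nat_lit 18) true (nat_lit 18) (.s true (nat_lit 3) (nat_lit 102) (nat_lit 0) (nat_lit 1) (nat_lit 0) false (nat_lit 20) true (nat_lit 19) false (nat_lit 12) true (nat_lit 19) true (nat_lit 18) (.s true (nat_lit 3) (nat_lit 103) (nat_lit 0) (nat_lit 1) (nat_lit 0) false (nat_lit 20) true (nat_lit 19) false (nat_lit 12) true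 (nat_lit 19) true (nat_lit 18) (.s true (nat_lit 1) (nat_lit 104) (nat_lit 0) (nat_lit 1) (nat_lit 0) false (nat_lit 20) true (nat_lit 19) false (nat_lit 12) true (nat_lit 19) true (nat_lit 18) (.s false (nat_lit 2) (nat_lit 105) (nat_lit 0) (nat_lit 1) (nat_lit 0) false (nat_lit 20) true (nat_lit 19) false (nat_lit 12) true (nat_lit 19) true (nat_lit 18) (.a true (nat_lit 3) (nat_lit 31) (nat_lit 32) (nat_lit 0) (nat_lit 0) (.a false (nat_lit 3) (nat_lit 31) (nat_lit 35) (nat_lit 0) (nat_lit 0) (.a true (nat_lit 3) (nat_lit 31) (nat_lit 36) (nat_lit 0) (nat_lit 0) (.a true (nat_lit 3) (nat_lit 34) (nat_lit 34) (nat_lit 0) (nat_lit 0) (.a true (nat_lit 1) (nat_lit 34) (nat_lit 36) (nat_lit 0) (nat_lit 0) (.a false (nat_lit 1) (nat_lit 35) (nat_lit 35) (nat_lit 0) (nat_lit 0) (.e true (nat_lit 3) (nat_lit 213) (nat_lit 2) (nat_lit 17) (.e false (nat_lit 2) (nat_lit 214) (nat_lit 2) (nat_lit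 17) (.e true (nat_lit 2) (nat_lit 216) (nat_lit 2) (nat_lit 17) (.e true (nat_lit 3) (nat_lit 217) (nat_lit 2) (nat_lit 17) (.e true (nat_lit 3) (nat_lit 218) (nat_lit 2) (nat_lit 17) (.e false (nat_lit 1) (nat_lit 221) (nat_lit 2) (nat_lit 17) dC1c_i184)))))))))))))))))))))))))

noncomputable def dC1c_i186 : IL := (.s false (nat_lit 3) (nat_lit 57) (nat_lit 2) (nat_lit 2) (nat_lit 1) true (nat_lit 14) true (nat_lit 18) false (nat_lit 6) true (nat_lit 17) true (nat_lit 17) (.s false (nat_lit 1) (nat_lit 59) (nat_lit 2) (nat_lit 2) (nat_lit 1) true (nat_lit 14) true (nat_lit 18) false (nat_lit 6) true (nat_lit 17) true (nat_lit 17) (.s false (nat_lit 3) (nat_lit 61) (nat_lit 2) (nat_lit 2) (nat_lit 1) true (nat_lit 14) true (nat_lit 18) false (nat_lit 6) true (nat_lit 17) true (nat_lit 17) (.s true (nat_lit 2) (nat_lit 64) (nat_lit 2) (nat_lit 2) (nat_lit 1) true (nat_lit 14) true (nat_lit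 18) false (nat_lit 6) true (nat_lit 17) true (nat_lit 17) (.s false (nat_lit 1) (nat_lit 66) (nat_lit 0) (nat_lit 2) (nat_lit 2) true (nat_lit 15) true (nat_lit 17) false (nat_lit 7) true (nat_lit 19) true (nat_lit 17) (.s true (nat_lit 3) (nat_lit 67) (nat_lit 0) (nat_lit 2) (nat_lit 2) true (nat_lit 15) true (nat_lit 17) false (nat_lit 7) true (nat_lit 19) true (nat_lit 17) (.s true (nat_lit 1) (nat_lit 68) (nat_lit 0) (nat_lit 2) (nat_lit 2) true (nat_lit 15) true (nat_lit 17) false (nat_lit 7) true (nat_lit 19) true (nat_lit 17) (.s false (nat_lit 1) (nat_lit 69) (nat_lit 0) (nat_lit 2) (nat_lit 2) true (nat_lit 15) true (nat_lit 17) false (nat_lit 7) true (nat_lit 19) true (nat_lit 17) (.s false (nat_lit 1) (nat_lit 70) (nat_lit 0) (nat_lit 2) (nat_lit 2) true (nat_lit 15) true (nat_lit 17) false (nat_lit 7) true (nat_lit 19) true (nat_lit 17) (.s true (nat_lit 1) (nat_lit 72) (nat_lit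 0) (nat_lit 2) (nat_lit 2) true (nat_lit 15) true (nat_lit 17) false (nat_lit 7) true (nat_lit 19) true (nat_lit 17) (.s false (nat_lit 1) (nat_lit 74) (nat_lit 0) (nat_lit 2) (nat_lit 2) true (nat_lit 15) true (nat_lit 17) false (nat_lit 7) true (nat_lit 19) true (nat_lit 17) (.s false (nat_lit 3) (nat_lit 66) (nat_lit 2) (nat_lit 2) (nat_lit 0) true (nat_lit 15) true (nat_lit 19) false (nat_lit 7) true (nat_lit 17) true (nat_lit 17) (.s false (nat_lit 1) (nat_lit 77) (nat_lit 1) (nat_lit 1) (nat_lit 2) true (nat_lit 14) true (nat_lit 17) false (nat_lit 8) true (nat_lit 18) true (nat_lit 18) (.s true (nat_lit 3) (nat_lit 78) (nat_lit 1) (nat_lit 1) (nat_lit 2) true (nat_lit 14) true (nat_lit 17) false (nat_lit 8) true (nat_lit 18) true (nat_lit 18) (.s false (nat_lit 2) (nat_lit 79) (nat_lit 1) (nat_lit 1) (nat_lit 2) true (nat_lit 14) true (nat_lit 17) false (nat_lit 8) true (nat_lit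 18) true (nat_lit 18) (.s false (nat_lit 3) (nat_lit 80) (nat_lit 1) (nat_lit 1) (nat_lit 2) true (nat_lit 14) true (nat_lit 17) false (nat_lit 8) true (nat_lit 18) true (nat_lit 18) (.s false (nat_lit 1) (nat_lit 90) (nat_lit 0) (nat_lit 1) (nat_lit 2) true (nat_lit 15) true (nat_lit 17) false (nat_lit 9) true (nat_lit 19) true (nat_lit 18) (.s false (nat_lit 3) (nat_lit 82) (nat_lit 0) (nat_lit 2) (nat_lit 1) true (nat_lit 16) true (nat_lit 18) false (nat_lit 9) true (nat_lit 19) true (nat_lit 17) (.s false (nat_lit 1) (nat_lit 84) (nat_lit 0) (nat_lit 2) (nat_lit 1) true (nat_lit 16) true (nat_lit 18) false (nat_lit 9) true (nat_lit 19) true (nat_lit 17) (.s false (nat_lit 3) (nat_lit 86) (nat_lit 0) (nat_lit 2) (nat_lit 1) true (nat_lit 16) true (nat_lit 18) false (nat_lit 9) true (nat_lit 19) true (nat_lit 17) (.s false (nat_lit 1) (nat_lit 87) (nat_lit 0) (nat_lit 2) (nat_lit 1)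 true (nat_lit 16) true (nat_lit 18) false (nat_lit 9) true (nat_lit 19) true (nat_lit 17) (.s true (nat_lit 3) (nat_lit 90) (nat_lit 0) (nat_lit 2) (nat_lit 1) true (nat_lit 16) true (nat_lit 18) false (nat_lit 9) true (nat_lit 19) true (nat_lit 17) (.s false (nat_lit 3) (nat_lit 92) (nat_lit 0) (nat_lit 2) (nat_lit 1) true (nat_lit 16) true (nat_lit 18) false (nat_lit 9) true (nat_lit 19) true (nat_lit 17) (.s true (nat_lit 1) (nat_lit 82) (nat_lit 1) (nat_lit 0) (nat_lit 2) true (nat_lit 14) true (nat_lit 17) false (nat_lit 9) true (nat_lit 18) true (nat_lit 19) (.s false (nat_lit 3) (nat_lit 82) (nat_lit 1) (nat_lit 2) (nat_lit 0) true (nat_lit 16) true (nat_lit 19) false (nat_lit 9) true (nat_lit 18) true (nat_lit 17) dC1c_i185)))))))))))))))))))))))))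

noncomputable def dC1c_i187 : IL := (.s false (nat_lit 2) (nat_lit 28) (nat_lit 5) (nat_lit 2) (nat_lit 1) true (nat_lit 8) true (nat_lit 18) true (nat_lit 1) true (nat_lit 14) true (nat_lit 17) (.s true (nat_lit 3) (nat_lit 31) (nat_lit 0) (nat_lit 2) (nat_lit 5) true (nat_lit 9) true (nat_lit 14) true (nat_lit 0) true (nat_lit 19) true (nat_lit 17) (.s true (nat_lit 1) (nat_lit 36) (nat_lit 2) (nat_lit 4) (nat_lit 1) true (nat_lit 14) true (nat_lit 18) true (nat_lit 0) true (nat_lit 17) true (nat_lit 15) (.s false (nat_lit 2) (nat_lit 31) (nat_lit 2) (nat_lit 5) (nat_lit 0) true (nat_lit 15) true (nat_lit 19) true (nat_lit 0) true (nat_lit 17) true (nat_lit 14) (.s true (nat_lit 3) (nat_lit 31) (nat_lit 4) (nat_lit 2) (nat_lit 1) true (nat_lit 9) true (nat_lit 18) true (nat_lit 0) true (nat_lit 15) true (nat_lit 17) (.s false (nat_lit 2) (nat_lit 35) (nat_lit 6) (nat_lit 0) (nat_lit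 1) true (nat_lit 6) true (nat_lit 18) true (nat_lit 0) true (nat_lit 13) true (nat_lit 19) (.s true (nat_lit 3) (nat_lit 45) (nat_lit 2) (nat_lit 3) (nat_lit 0) true (nat_lit 15) true (nat_lit 19) false (nat_lit 3) true (nat_lit 17) true (nat_lit 16) (.s true (nat_lit 3) (nat_lit 45) (nat_lit 4) (nat_lit 0) (nat_lit 1) true (nat_lit 9) true (nat_lit 18) false (nat_lit 3) true (nat_lit 15) true (nat_lit 19) (.s true (nat_lit 1) (nat_lit 49) (nat_lit 2) (nat_lit 2) (nat_lit 2) true (nat_lit 13) true (nat_lit 17) false (nat_lit 5) true (nat_lit 17) true (nat_lit 17) (.s false (nat_lit 1) (nat_lit 52) (nat_lit 2) (nat_lit 2) (nat_lit 2) true (nat_lit 13) true (nat_lit 17) false (nat_lit 5) true (nat_lit 17) true (nat_lit 17) (.s false (nat_lit 2) (nat_lit 54) (nat_lit 2) (nat_lit 2) (nat_lit 2) true (nat_lit 13) true (nat_lit 17) false (nat_lit 5) true (nat_lit 17) true (nat_lit 17) (.s false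 (nat_lit 1) (nat_lit 55) (nat_lit 1) (nat_lit 2) (nat_lit 2) true (nat_lit 14) true (nat_lit 17) false (nat_lit 6) true (nat_lit 18) true (nat_lit 17) (.s false (nat_lit 2) (nat_lit 58) (nat_lit 1) (nat_lit 2) (nat_lit 2) true (nat_lit 14) true (nat_lit 17) false (nat_lit 6) true (nat_lit 18) true (nat_lit 17) (.s true (nat_lit 1) (nat_lit 60) (nat_lit 1) (nat_lit 2) (nat_lit 2) true (nat_lit 14) true (nat_lit 17) false (nat_lit 6) true (nat_lit 18) true (nat_lit 17) (.s true (nat_lit 1) (nat_lit 61) (nat_lit 1) (nat_lit 2) (nat_lit 2) true (nat_lit 14) true (nat_lit 17) false (nat_lit 6) true (nat_lit 18) true (nat_lit 17) (.s false (nat_lit 2) (nat_lit 62) (nat_lit 1) (nat_lit 2) (nat_lit 2) true (nat_lit 14) true (nat_lit 17) false (nat_lit 6) true (nat_lit 18) true (nat_lit 17) (.s true (nat_lit 3) (nat_lit 64) (nat_lit 1) (nat_lit 2) (nat_lit 2) true (nat_lit 14) true (nat_lit 17)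 false (nat_lit 6) true (nat_lit 18) true (nat_lit 17) (.s true (nat_lit 1) (nat_lit 65) (nat_lit 1) (nat_lit 2) (nat_lit 2) true (nat_lit 14) true (nat_lit 17) false (nat_lit 6) true (nat_lit 18) true (nat_lit 17) (.s false (nat_lit 3) (nat_lit 55) (nat_lit 2) (nat_lit 1) (nat_lit 2) true (nat_lit 13) true (nat_lit 17) false (nat_lit 6) true (nat_lit 17) true (nat_lit 18) (.s false (nat_lit 2) (nat_lit 56) (nat_lit 2) (nat_lit 1) (nat_lit 2) true (nat_lit 13) true (nat_lit 17) false (nat_lit 6) true (nat_lit 17) true (nat_lit 18) (.s false (nat_lit 3) (nat_lit 59) (nat_lit 2) (nat_lit 1) (nat_lit 2) true (nat_lit 13) true (nat_lit 17) false (nat_lit 6) true (nat_lit 17) true (nat_lit 18) (.s false (nat_lit 1) (nat_lit 61) (nat_lit 2) (nat_lit 1) (nat_lit 2) true (nat_lit 13) true (nat_lit 17) false (nat_lit 6) true (nat_lit 17) true (nat_lit 18) (.s false (nat_lit 2) (nat_lit 64) (nat_lit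 2) (nat_lit 1) (nat_lit 2) true (nat_lit 13) true (nat_lit 17) false (nat_lit 6) true (nat_lit 17) true (nat_lit 18) (.s false (nat_lit 2) (nat_lit 65) (nat_lit 2) (nat_lit 1) (nat_lit 2) true (nat_lit 13) true (nat_lit 17) false (nat_lit 6) true (nat_lit 17) true (nat_lit 18) (.s true (nat_lit 3) (nat_lit 55) (nat_lit 2) (nat_lit 2) (nat_lit 1) true (nat_lit 14) true (nat_lit 18) false (nat_lit 6) true (nat_lit 17) true (nat_lit 17) dC1c_i186)))))))))))))))))))))))))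

noncomputable def dC1c_i188 : IL := (.s false (nat_lit 2) (nat_lit 16) (nat_lit 9) (nat_lit 1) (nat_lit 2) true (nat_lit 1) true (nat_lit 17) true (nat_lit 6) true (nat_lit 10) true (nat_lit 18) (.s true (nat_lit 2) (nat_lit 16) (nat_lit 9) (nat_lit 2) (nat_lit 1) true (nat_lit 3) true (nat_lit 18) true (nat_lit 6) true (nat_lit 10) true (nat_lit 17) (.s false (nat_lit 1) (nat_lit 16) (nat_lit 14) (nat_lit 0) (nat_lit 1) true (nat_lit 0) true (nat_lit 18) true (nat_lit 6) true (nat_lit 7) true (nat_lit 19) (.s true (nat_lit 3) (nat_lit 18) (nat_lit 0) (nat_lit 2) (nat_lit 8) true (nat_lit 4) true (nat_lit 11) true (nat_lit 5) true (nat_lit 19) true (nat_lit 17) (.s false (nat_lit 1) (nat_lit 18) (nat_lit 0) (nat_lit 8) (nat_lit 2) true (nat_lit 15) true (nat_lit 17) true (nat_lit 5) true (nat_lit 19) true (nat_lit 11) (.s false (nat_lit 3) (nat_lit 18) (nat_lit 1) (nat_lit 1) (nat_lit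 9) true (nat_lit 3) true (nat_lit 10) true (nat_lit 5) true (nat_lit 18) true (nat_lit 18) (.s false (nat_lit 2) (nat_lit 18) (nat_lit 1) (nat_lit 2) (nat_lit 7) true (nat_lit 4) true (nat_lit 12) true (nat_lit 5) true (nat_lit 18) true (nat_lit 17) (.s false (nat_lit 1) (nat_lit 18) (nat_lit 2) (nat_lit 7) (nat_lit 1) true (nat_lit 14) true (nat_lit 18) true (nat_lit 5) true (nat_lit 17) true (nat_lit 12) (.s true (nat_lit 3) (nat_lit 18) (nat_lit 9) (nat_lit 1) (nat_lit 1) true (nat_lit 3) true (nat_lit 18) true (nat_lit 5) true (nat_lit 10) true (nat_lit 18) (.s false (nat_lit 1) (nat_lit 19) (nat_lit 6) (nat_lit 2) (nat_lit 2) true (nat_lit 5) true (nat_lit 17) true (nat_lit 4) true (nat_lit 13) true (nat_lit 17) (.s false (nat_lit 3) (nat_lit 21) (nat_lit 1) (nat_lit 2) (nat_lit 6) true (nat_lit 6) true (nat_lit 13) true (nat_lit 3) true (nat_lit 18) true (nat_lit 17) (.s false (nat_lit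 3) (nat_lit 22) (nat_lit 1) (nat_lit 2) (nat_lit 6) true (nat_lit 6) true (nat_lit 13) true (nat_lit 3) true (nat_lit 18) true (nat_lit 17) (.s false (nat_lit 2) (nat_lit 21) (nat_lit 1) (nat_lit 6) (nat_lit 2) true (nat_lit 14) true (nat_lit 17) true (nat_lit 3) true (nat_lit 18) true (nat_lit 13) (.s true (nat_lit 2) (nat_lit 21) (nat_lit 2) (nat_lit 2) (nat_lit 5) true (nat_lit 6) true (nat_lit 14) true (nat_lit 3) true (nat_lit 17) true (nat_lit 17) (.s true (nat_lit 3) (nat_lit 22) (nat_lit 2) (nat_lit 2) (nat_lit 5) true (nat_lit 6) true (nat_lit 14) true (nat_lit 3) true (nat_lit 17) true (nat_lit 17) (.s true (nat_lit 2) (nat_lit 21) (nat_lit 2) (nat_lit 5) (nat_lit 2) true (nat_lit 13) true (nat_lit 17) true (nat_lit 3) true (nat_lit 17) true (nat_lit 14) (.s false (nat_lit 3) (nat_lit 21) (nat_lit 2) (nat_lit 6) (nat_lit 1) true (nat_lit 14) true (nat_lit 18) true (nat_lit 3)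 true (nat_lit 17) true (nat_lit 13) (.s false (nat_lit 3) (nat_lit 22) (nat_lit 2) (nat_lit 6) (nat_lit 1) true (nat_lit 14) true (nat_lit 18) true (nat_lit 3) true (nat_lit 17) true (nat_lit 13) (.s true (nat_lit 1) (nat_lit 20) (nat_lit 5) (nat_lit 2) (nat_lit 2) true (nat_lit 6) true (nat_lit 17) true (nat_lit 3) true (nat_lit 14) true (nat_lit 17) (.s true (nat_lit 3) (nat_lit 21) (nat_lit 6) (nat_lit 1) (nat_lit 2) true (nat_lit 5) true (nat_lit 17) true (nat_lit 3) true (nat_lit 13) true (nat_lit 18) (.s true (nat_lit 3) (nat_lit 24) (nat_lit 0) (nat_lit 2) (nat_lit 6) true (nat_lit 7) true (nat_lit 13) true (nat_lit 2) true (nat_lit 19) true (nat_lit 17) (.s true (nat_lit 1) (nat_lit 24) (nat_lit 0) (nat_lit 6) (nat_lit 2) true (nat_lit 15) true (nat_lit 17) true (nat_lit 2) true (nat_lit 19) true (nat_lit 13) (.s true (nat_lit 2) (nat_lit 24) (nat_lit 2) (nat_lit 2) (nat_lit 4)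 true (nat_lit 7) true (nat_lit 15) true (nat_lit 2) true (nat_lit 17) true (nat_lit 17) (.s false (nat_lit 1) (nat_lit 28) (nat_lit 1) (nat_lit 1) (nat_lit 6) true (nat_lit 6) true (nat_lit 13) true (nat_lit 1) true (nat_lit 18) true (nat_lit 18) (.s false (nat_lit 3) (nat_lit 30) (nat_lit 1) (nat_lit 1) (nat_lit 6) true (nat_lit 6) true (nat_lit 13) true (nat_lit 1) true (nat_lit 18) true (nat_lit 18) dC1c_i187)))))))))))))))))))))))))

noncomputable def dC1c_i189 : IL := (.e true (nat_lit 1) (nat_lit 63) (nat_lit 18) (nat_lit 3) (.e true (nat_lit 1) (nat_lit 261) (nat_lit 2) (nat_lit 13) (.e true (nat_lit 2) (nat_lit 263) (nat_lit 2) (nat_lit 13) (.e true (nat_lit 2) (nat_lit 264) (nat_lit 2) (nat_lit 13) (.e true (nat_lit 3) (nat_lit 265) (nat_lit 2) (nat_lit 13) (.e false (nat_lit 2) (nat_lit 266) (nat_lit 2) (nat_lit 13) (.e false (nat_lit 3) (nat_lit 267) (nat_lit 2) (nat_lit 13)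 (.e true (nat_lit 1) (nat_lit 268) (nat_lit 2) (nat_lit 13) (.e true (nat_lit 2) (nat_lit 269) (nat_lit 2) (nat_lit 13) (.e false (nat_lit 2) (nat_lit 270) (nat_lit 2) (nat_lit 13) (.e true (nat_lit 2) (nat_lit 271) (nat_lit 2) (nat_lit 13) (.e true (nat_lit 3) (nat_lit 272) (nat_lit 2) (nat_lit 13) (.e true (nat_lit 2) (nat_lit 273) (nat_lit 2) (nat_lit 13) (.e false (nat_lit 2) (nat_lit 279) (nat_lit 2) (nat_lit 13) (.e false (nat_lit 2) (nat_lit 280) (nat_lit 2) (nat_lit 13) (.e true (nat_lit 1) (nat_lit 287) (nat_lit 2) (nat_lit 13) (.e false (nat_lit 1) (nat_lit 340) (nat_lit 0) (nat_lit 15) (.e false (nat_lit 2) (nat_lit 260) (nat_lit 2) (nat_lit 13) (.e false (nat_lit 2) (nat_lit 262) (nat_lit 2) (nat_lit 13) (.e false (nat_lit 3) (nat_lit 278) (nat_lit 2) (nat_lit 13) (.e true (nat_lit 3) (nat_lit 286) (nat_lit 2) (nat_lit 13) (.e true (nat_lit 2) (nat_lit 288) (nat_lit 2) (nat_lit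 13) (.e false (nat_lit 2) (nat_lit 276) (nat_lit 2) (nat_lit 13) (.e true (nat_lit 1) (nat_lit 345) (nat_lit 0) (nat_lit 15) (.u (nat_lit 2) (.p (nat_lit 0) (nat_lit 1) (.p (nat_lit 2) (nat_lit 2) (.p (nat_lit 3) (nat_lit 4) (.p (nat_lit 4) (nat_lit 1) (.n (nat_lit 5) (nat_lit 1) (.n (nat_lit 6) (nat_lit 1) (.n (nat_lit 7) (nat_lit 1) (.n (nat_lit 8) (nat_lit 1) (.p (nat_lit 9) (nat_lit 2) (.n (nat_lit 12) (nat_lit 1) (.n (nat_lit 13) (nat_lit 2) (.p (nat_lit 16) (nat_lit 2) (.p (nat_lit 17) (nat_lit 1) (.n (nat_lit 19) (nat_lit 1) (.p (nat_lit 22) (nat_lit 1) (.n (nat_lit 23) (nat_lit 1) (.p (nat_lit 25) (nat_lit 1) (.n (nat_lit 27) (nat_lit 1) (.p (nat_lit 30) (nat_lit 3) (.p (nat_lit 33) (nat_lit 4) (.n (nat_lit 173) (nat_lit 1) (.p (nat_lit 174) (nat_lit 1) (.n (nat_lit 175) (nat_lit 1) (.p (nat_lit 176) (nat_lit 1) (.n (nat_lit 181) (nat_lit 1) (.p (nat_lit 184) (nat_lit 1) (.n (nat_lit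 190) (nat_lit 1) (.n (nat_lit 193) (nat_lit 1) .z)))))))))))))))))))))))))))) .nil)))))))))))))))))))))))))

noncomputable def dC1c_i190 : IL := (.e true (nat_lit 3) (nat_lit 154) (nat_lit 0) (nat_lit 14) (.e true (nat_lit 1) (nat_lit 132) (nat_lit 1) (nat_lit 13) (.e true (nat_lit 2) (nat_lit 133) (nat_lit 1) (nat_lit 13) (.e false (nat_lit 2) (nat_lit 136) (nat_lit 1) (nat_lit 13) (.e false (nat_lit 3) (nat_lit 137) (nat_lit 1) (nat_lit 13) (.e false (nat_lit 1) (nat_lit 138) (nat_lit 1) (nat_lit 13) (.e false (nat_lit 3) (nat_lit 139) (nat_lit 1) (nat_lit 13) (.e true (nat_lit 2) (nat_lit 141) (nat_lit 1) (nat_lit 13) (.e true (nat_lit 1) (nat_lit 142) (nat_lit 1) (nat_lit 13) (.e false (nat_lit 1) (nat_lit 144) (nat_lit 1) (nat_lit 13) (.e false (nat_lit 3) (nat_lit 145) (nat_lit 1) (nat_lit 13) (.e true (nat_lit 2) (nat_lit 140) (nat_lit 1) (nat_lit 13) (.e true (nat_lit 1) (nat_lit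 134) (nat_lit 1) (nat_lit 13) (.e true (nat_lit 3) (nat_lit 135) (nat_lit 1) (nat_lit 13) (.e true (nat_lit 3) (nat_lit 152) (nat_lit 1) (nat_lit 13) (.e false (nat_lit 1) (nat_lit 170) (nat_lit 0) (nat_lit 14) (.e true (nat_lit 1) (nat_lit 156) (nat_lit 0) (nat_lit 14) (.e true (nat_lit 3) (nat_lit 162) (nat_lit 0) (nat_lit 14) (.e true (nat_lit 3) (nat_lit 119) (nat_lit 2) (nat_lit 12) (.e false (nat_lit 3) (nat_lit 28) (nat_lit 13) (nat_lit 3) (.e true (nat_lit 1) (nat_lit 29) (nat_lit 13) (nat_lit 3) (.e true (nat_lit 3) (nat_lit 30) (nat_lit 13) (nat_lit 3) (.e true (nat_lit 1) (nat_lit 169) (nat_lit 0) (nat_lit 14) (.u (nat_lit 2) (.p (nat_lit 25) (nat_lit 1) (.p (nat_lit 26) (nat_lit 1) (.n (nat_lit 54) (nat_lit 1) (.p (nat_lit 55) (nat_lit 1) (.n (nat_lit 57) (nat_lit 2) (.p (nat_lit 59) (nat_lit 1) (.n (nat_lit 60) (nat_lit 1) (.p (nat_lit 61) (nat_lit 2) (.p (nat_lit 66) (nat_lit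 1) (.n (nat_lit 93) (nat_lit 1) (.n (nat_lit 94) (nat_lit 1) (.p (nat_lit 95) (nat_lit 1) (.n (nat_lit 97) (nat_lit 1) (.p (nat_lit 102) (nat_lit 1) (.p (nat_lit 105) (nat_lit 5) (.p (nat_lit 107) (nat_lit 3) (.n (nat_lit 108) (nat_lit 1) (.p (nat_lit 109) (nat_lit 2) (.p (nat_lit 110) (nat_lit 1) (.n (nat_lit 112) (nat_lit 3) (.p (nat_lit 113) (nat_lit 4) (.n (nat_lit 114) (nat_lit 1) (.n (nat_lit 118) (nat_lit 1) (.n (nat_lit 121) (nat_lit 1) (.p (nat_lit 122) (nat_lit 1) (.p (nat_lit 127) (nat_lit 2) (.p (nat_lit 128) (nat_lit 1) (.n (nat_lit 129) (nat_lit 1) (.p (nat_lit 130) (nat_lit 1) (.p (nat_lit 131) (nat_lit 1) (.n (nat_lit 132) (nat_lit 1) (.p (nat_lit 133) (nat_lit 1) (.n (nat_lit 134) (nat_lit 1) (.p (nat_lit 136) (nat_lit 2) (.p (nat_lit 137) (nat_lit 1) (.p (nat_lit 141) (nat_lit 3) (.n (nat_lit 143) (nat_lit 3) (.p (nat_lit 144) (nat_lit 2) (.n (nat_lit 145) (nat_lit 2)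 (.p (nat_lit 147) (nat_lit 2) (.n (nat_lit 149) (nat_lit 1) (.p (nat_lit 151) (nat_lit 1) (.n (nat_lit 152) (nat_lit 2) (.n (nat_lit 153) (nat_lit 2) (.n (nat_lit 158) (nat_lit 1) (.n (nat_lit 159) (nat_lit 2) (.n (nat_lit 161) (nat_lit 1) (.n (nat_lit 162) (nat_lit 6) (.n (nat_lit 163) (nat_lit 2) (.n (nat_lit 164) (nat_lit 1) (.p (nat_lit 165) (nat_lit 5) (.n (nat_lit 166) (nat_lit 1) (.p (nat_lit 167) (nat_lit 18) (.p (nat_lit 168) (nat_lit 3) (.n (nat_lit 169) (nat_lit 5) (.n (nat_lit 170) (nat_lit 2) (.p (nat_lit 171) (nat_lit 2) (.n (nat_lit 172) (nat_lit 2) (.p (nat_lit 173) (nat_lit 11) (.p (nat_lit 174) (nat_lit 1) .z)))))))))))))))))))))))))))))))))))))))))))))))))))))))))))) (.u (nat_lit 2) (.p (nat_lit 175) (nat_lit 2) (.n (nat_lit 176) (nat_lit 2) (.p (nat_lit 178) (nat_lit 3) (.p (nat_lit 180) (nat_lit 3) (.n (nat_lit 181) (nat_lit 7) (.n (nat_lit 182) (nat_lit 3) (.n (nat_lit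 183) (nat_lit 4) (.p (nat_lit 184) (nat_lit 2) (.n (nat_lit 185) (nat_lit 5) (.p (nat_lit 186) (nat_lit 5) (.p (nat_lit 187) (nat_lit 4) (.n (nat_lit 188) (nat_lit 2) (.p (nat_lit 189) (nat_lit 6) (.n (nat_lit 190) (nat_lit 5) (.p (nat_lit 191) (nat_lit 3) (.p (nat_lit 192) (nat_lit 4) (.n (nat_lit 193) (nat_lit 2) (.p (nat_lit 194) (nat_lit 1) (.p (nat_lit 195) (nat_lit 3) (.p (nat_lit 196) (nat_lit 3) (.n (nat_lit 197) (nat_lit 4) (.p (nat_lit 198) (nat_lit 1) (.n (nat_lit 199) (nat_lit 1) (.p (nat_lit 200) (nat_lit 4) (.n (nat_lit 201) (nat_lit 4) (.n (nat_lit 202) (nat_lit 5) .z)))))))))))))))))))))))))) .nil)))))))))))))))))))))))))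

noncomputable def dC1c_i191 : IL := (.s true (nat_lit 1) (nat_lit 36) (nat_lit 1) (nat_lit 2) (nat_lit 0) true (nat_lit 11) true (nat_lit 14) false (nat_lit 4) true (nat_lit 13) true (nat_lit 12) (.s true (nat_lit 2) (nat_lit 39) (nat_lit 2) (nat_lit 0) (nat_lit 0) true (nat_lit 10) true (nat_lit 14) false (nat_lit 5) true (nat_lit 12) true (nat_lit 14) (.s true (nat_lit 3) (nat_lit 42) (nat_lit 1) (nat_lit 0) (nat_lit 1) false (nat_lit 16) true (nat_lit 13) false (nat_lit 6) true (nat_lit 13) true (nat_lit 14) (.s false (nat_lit 2) (nat_lit 40) (nat_lit 1) (nat_lit 1) (nat_lit 0) true (nat_lit 11) true (nat_lit 14) false (nat_lit 6) true (nat_lit 13) true (nat_lit 13) (.s true (nat_lit 3) (nat_lit 42) (nat_lit 1) (nat_lit 1) (nat_lit 0) true (nat_lit 11) true (nat_lit 14) false (nat_lit 6) true (nat_lit 13) true (nat_lit 13) (.s true (nat_lit 1) (nat_lit 44) (nat_lit 0) (nat_lit 0)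 (nat_lit 1) true (nat_lit 11) true (nat_lit 13) false (nat_lit 7) true (nat_lit 14) true (nat_lit 14) (.s false (nat_lit 1) (nat_lit 45) (nat_lit 0) (nat_lit 0) (nat_lit 1) true (nat_lit 11) true (nat_lit 13) false (nat_lit 7) true (nat_lit 14) true (nat_lit 14) (.s true (nat_lit 1) (nat_lit 44) (nat_lit 0) (nat_lit 1) (nat_lit 0) false (nat_lit 15) true (nat_lit 14) false (nat_lit 7) true (nat_lit 14) true (nat_lit 13) (.s true (nat_lit 1) (nat_lit 45) (nat_lit 0) (nat_lit 1) (nat_lit 0) false (nat_lit 15) true (nat_lit 14) false (nat_lit 7) true (nat_lit 14) true (nat_lit 13) (.s true (nat_lit 2) (nat_lit 43) (nat_lit 1) (nat_lit 0) (nat_lit 0) true (nat_lit 11) true (nat_lit 14) false (nat_lit 7) true (nat_lit 13) true (nat_lit 14) (.e false (nat_lit 1) (nat_lit 37) (nat_lit 9) (nat_lit 5) (.e false (nat_lit 1) (nat_lit 73) (nat_lit 4) (nat_lit 10) (.e true (nat_lit 1) (nat_lit 60)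 (nat_lit 5) (nat_lit 9) (.e true (nat_lit 3) (nat_lit 61) (nat_lit 5) (nat_lit 9) (.e false (nat_lit 1) (nat_lit 157) (nat_lit 0) (nat_lit 14) (.e false (nat_lit 2) (nat_lit 164) (nat_lit 0) (nat_lit 14) (.e false (nat_lit 1) (nat_lit 158) (nat_lit 0) (nat_lit 14) (.e false (nat_lit 2) (nat_lit 163) (nat_lit 0) (nat_lit 14) (.e true (nat_lit 1) (nat_lit 165) (nat_lit 0) (nat_lit 14) (.e true (nat_lit 3) (nat_lit 168) (nat_lit 0) (nat_lit 14) (.e true (nat_lit 3) (nat_lit 153) (nat_lit 0) (nat_lit 14) (.e false (nat_lit 2) (nat_lit 159) (nat_lit 0) (nat_lit 14) (.e true (nat_lit 1) (nat_lit 160) (nat_lit 0) (nat_lit 14) (.e true (nat_lit 1) (nat_lit 161) (nat_lit 0) (nat_lit 14) (.e true (nat_lit 1) (nat_lit 173) (nat_lit 0) (nat_lit 14) dC1c_i190)))))))))))))))))))))))))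

noncomputable def dC1c_i192 : IL := (.s true (nat_lit 2) (nat_lit 14) (nat_lit 5) (nat_lit 1) (nat_lit 0) true (nat_lit 4) true (nat_lit 14) true (nat_lit 2) true (nat_lit 9) true (nat_lit 13) (.s false (nat_lit 2) (nat_lit 16) (nat_lit 0) (nat_lit 0) (nat_lit 5) true (nat_lit 4) true (nat_lit 9) true (nat_lit 1) true (nat_lit 14) true (nat_lit 14) (.s false (nat_lit 3) (nat_lit 16) (nat_lit 0) (nat_lit 4) (nat_lit 1) true (nat_lit 11) true (nat_lit 13) true (nat_lit 1) true (nat_lit 14) true (nat_lit 10) (.s false (nat_lit 1) (nat_lit 17) (nat_lit 0) (nat_lit 4) (nat_lit 1) true (nat_lit 11) true (nat_lit 13) true (nat_lit 1) true (nat_lit 14) true (nat_lit 10) (.s false (nat_lit 3) (nat_lit 17) (nat_lit 1) (nat_lit 4) (nat_lit 0) true (nat_lit 11) true (nat_lit 14) true (nat_lit 1) true (nat_lit 13) true (nat_lit 10) (.s true (nat_lit 3) (nat_lit 17) (nat_lit 2) (nat_lit 3) (nat_lit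 0) true (nat_lit 10) true (nat_lit 14) true (nat_lit 1) true (nat_lit 12) true (nat_lit 11) (.s false (nat_lit 1) (nat_lit 16) (nat_lit 4) (nat_lit 0) (nat_lit 1) true (nat_lit 4) true (nat_lit 13) true (nat_lit 1) true (nat_lit 10) true (nat_lit 14) (.s true (nat_lit 1) (nat_lit 17) (nat_lit 4) (nat_lit 1) (nat_lit 0) true (nat_lit 5) true (nat_lit 14) true (nat_lit 1) true (nat_lit 10) true (nat_lit 13) (.s true (nat_lit 3) (nat_lit 18) (nat_lit 0) (nat_lit 3) (nat_lit 1) true (nat_lit 11) true (nat_lit 13) true (nat_lit 0) true (nat_lit 14) true (nat_lit 11) (.s false (nat_lit 3) (nat_lit 19) (nat_lit 2) (nat_lit 2) (nat_lit 2) true (nat_lit 8) true (nat_lit 12) false (nat_lit 0) true (nat_lit 12) true (nat_lit 12) (.s true (nat_lit 1) (nat_lit 20) (nat_lit 1) (nat_lit 2) (nat_lit 2) true (nat_lit 9) true (nat_lit 12) false (nat_lit 1) true (nat_lit 13) true (nat_lit 12) (.s false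 (nat_lit 2) (nat_lit 21) (nat_lit 1) (nat_lit 2) (nat_lit 2) true (nat_lit 9) true (nat_lit 12) false (nat_lit 1) true (nat_lit 13) true (nat_lit 12) (.s false (nat_lit 1) (nat_lit 20) (nat_lit 2) (nat_lit 1) (nat_lit 2) true (nat_lit 8) true (nat_lit 12) false (nat_lit 1) true (nat_lit 12) true (nat_lit 13) (.s false (nat_lit 2) (nat_lit 21) (nat_lit 2) (nat_lit 1) (nat_lit 2) true (nat_lit 8) true (nat_lit 12) false (nat_lit 1) true (nat_lit 12) true (nat_lit 13) (.s true (nat_lit 3) (nat_lit 24) (nat_lit 0) (nat_lit 2) (nat_lit 2) true (nat_lit 10) true (nat_lit 12) false (nat_lit 2) true (nat_lit 14) true (nat_lit 12) (.s true (nat_lit 3) (nat_lit 24) (nat_lit 2) (nat_lit 0) (nat_lit 2) true (nat_lit 8) true (nat_lit 12) false (nat_lit 2) true (nat_lit 12) true (nat_lit 14) (.s true (nat_lit 2) (nat_lit 24) (nat_lit 2) (nat_lit 2) (nat_lit 0) true (nat_lit 10) true (nat_lit 14) false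 (nat_lit 2) true (nat_lit 12) true (nat_lit 12) (.s true (nat_lit 3) (nat_lit 26) (nat_lit 2) (nat_lit 2) (nat_lit 0) true (nat_lit 10) true (nat_lit 14) false (nat_lit 2) true (nat_lit 12) true (nat_lit 12) (.s true (nat_lit 2) (nat_lit 29) (nat_lit 1) (nat_lit 1) (nat_lit 2) true (nat_lit 9) true (nat_lit 12) false (nat_lit 3) true (nat_lit 13) true (nat_lit 13) (.s false (nat_lit 2) (nat_lit 35) (nat_lit 0) (nat_lit 1) (nat_lit 2) true (nat_lit 10) true (nat_lit 12) false (nat_lit 4) true (nat_lit 14) true (nat_lit 13) (.s true (nat_lit 3) (nat_lit 34) (nat_lit 0) (nat_lit 2) (nat_lit 1) true (nat_lit 11) true (nat_lit 13) false (nat_lit 4) true (nat_lit 14) true (nat_lit 12) (.s true (nat_lit 2) (nat_lit 31) (nat_lit 1) (nat_lit 2) (nat_lit 0) true (nat_lit 11) true (nat_lit 14) false (nat_lit 4) true (nat_lit 13) true (nat_lit 12) (.s true (nat_lit 1) (nat_lit 32) (nat_lit 1) (nat_lit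 2) (nat_lit 0) true (nat_lit 11) true (nat_lit 14) false (nat_lit 4) true (nat_lit 13) true (nat_lit 12) (.s false (nat_lit 3) (nat_lit 33) (nat_lit 1) (nat_lit 2) (nat_lit 0) true (nat_lit 11) true (nat_lit 14) false (nat_lit 4) true (nat_lit 13) true (nat_lit 12) (.s false (nat_lit 1) (nat_lit 35) (nat_lit 1) (nat_lit 2) (nat_lit 0) true (nat_lit 11) true (nat_lit 14) false (nat_lit 4) true (nat_lit 13) true (nat_lit 12) dC1c_i191)))))))))))))))))))))))))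

noncomputable def dC1c_i193 : IL := (.s true (nat_lit 2) (nat_lit 8) (nat_lit 4) (nat_lit 2) (nat_lit 2) true (nat_lit 2) true (nat_lit 12) true (nat_lit 6) true (nat_lit 10) true (nat_lit 12) (.s true (nat_lit 3) (nat_lit 8) (nat_lit 6) (nat_lit 2) (nat_lit 0) true (nat_lit 2) true (nat_lit 14) true (nat_lit 6) true (nat_lit 8) true (nat_lit 12) (.s true (nat_lit 2) (nat_lit 9) (nat_lit 1) (nat_lit 1) (nat_lit 6) true (nat_lit 1) true (nat_lit 8) true (nat_lit 5) true (nat_lit 13) true (nat_lit 13) (.s false (nat_lit 3) (nat_lit 9) (nat_lit 1) (nat_lit 6) (nat_lit 1) false (nat_lit 16) true (nat_lit 13) true (nat_lit 5) true (nat_lit 13) true (nat_lit 8) (.s true (nat_lit 3) (nat_lit 9) (nat_lit 2) (nat_lit 1) (nat_lit 5) true (nat_lit 1) true (nat_lit 9) true (nat_lit 5) true (nat_lit 12) true (nat_lit 13) (.s false (nat_lit 1) (nat_lit 9) (nat_lit 5) (nat_lit 1) (nat_lit 2) true (nat_lit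 1) true (nat_lit 12) true (nat_lit 5) true (nat_lit 9) true (nat_lit 13) (.s true (nat_lit 1) (nat_lit 10) (nat_lit 0) (nat_lit 6) (nat_lit 1) true (nat_lit 11) true (nat_lit 13) true (nat_lit 4) true (nat_lit 14) true (nat_lit 8) (.s false (nat_lit 3) (nat_lit 11) (nat_lit 1) (nat_lit 4) (nat_lit 2) true (nat_lit 9) true (nat_lit 12) true (nat_lit 4) true (nat_lit 13) true (nat_lit 10) (.s false (nat_lit 3) (nat_lit 11) (nat_lit 2) (nat_lit 1) (nat_lit 4) true (nat_lit 2) true (nat_lit 10) true (nat_lit 4) true (nat_lit 12) true (nat_lit 13) (.s true (nat_lit 3) (nat_lit 12) (nat_lit 4) (nat_lit 1) (nat_lit 2) true (nat_lit 2) true (nat_lit 12) true (nat_lit 4) true (nat_lit 10) true (nat_lit 13) (.s false (nat_lit 3) (nat_lit 11) (nat_lit 4) (nat_lit 2) (nat_lit 1) true (nat_lit 4) true (nat_lit 13) true (nat_lit 4) true (nat_lit 10) true (nat_lit 12) (.s false (nat_lit 1) (nat_lit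 11) (nat_lit 5) (nat_lit 2) (nat_lit 0) true (nat_lit 4) true (nat_lit 14) true (nat_lit 4) true (nat_lit 9) true (nat_lit 12) (.s true (nat_lit 1) (nat_lit 12) (nat_lit 6) (nat_lit 1) (nat_lit 0) true (nat_lit 2) true (nat_lit 14) true (nat_lit 4) true (nat_lit 8) true (nat_lit 13) (.s true (nat_lit 3) (nat_lit 13) (nat_lit 2) (nat_lit 0) (nat_lit 4) true (nat_lit 2) true (nat_lit 10) true (nat_lit 3) true (nat_lit 12) true (nat_lit 14) (.s true (nat_lit 3) (nat_lit 14) (nat_lit 0) (nat_lit 1) (nat_lit 5) true (nat_lit 4) true (nat_lit 9) true (nat_lit 2) true (nat_lit 14) true (nat_lit 13) (.s false (nat_lit 1) (nat_lit 15) (nat_lit 0) (nat_lit 5) (nat_lit 1) true (nat_lit 11) true (nat_lit 13) true (nat_lit 2) true (nat_lit 14) true (nat_lit 9) (.s false (nat_lit 2) (nat_lit 14) (nat_lit 1) (nat_lit 0) (nat_lit 5) true (nat_lit 3) true (nat_lit 9) true (nat_lit 2) true (nat_lit 13)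 true (nat_lit 14) (.s false (nat_lit 2) (nat_lit 14) (nat_lit 1) (nat_lit 2) (nat_lit 3) true (nat_lit 6) true (nat_lit 11) true (nat_lit 2) true (nat_lit 13) true (nat_lit 12) (.s true (nat_lit 3) (nat_lit 15) (nat_lit 1) (nat_lit 3) (nat_lit 2) true (nat_lit 9) true (nat_lit 12) true (nat_lit 2) true (nat_lit 13) true (nat_lit 11) (.s true (nat_lit 3) (nat_lit 14) (nat_lit 1) (nat_lit 4) (nat_lit 1) false (nat_lit 16) true (nat_lit 13) true (nat_lit 2) true (nat_lit 13) true (nat_lit 10) (.s false (nat_lit 3) (nat_lit 15) (nat_lit 1) (nat_lit 4) (nat_lit 1) false (nat_lit 16) true (nat_lit 13) true (nat_lit 2) true (nat_lit 13) true (nat_lit 10) (.s false (nat_lit 3) (nat_lit 14) (nat_lit 1) (nat_lit 5) (nat_lit 0) true (nat_lit 11) true (nat_lit 14) true (nat_lit 2) true (nat_lit 13) true (nat_lit 9) (.s false (nat_lit 2) (nat_lit 14) (nat_lit 2) (nat_lit 3) (nat_lit 1) true (nat_lit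 9) true (nat_lit 13) true (nat_lit 2) true (nat_lit 12) true (nat_lit 11) (.s false (nat_lit 3) (nat_lit 15) (nat_lit 3) (nat_lit 1) (nat_lit 2) true (nat_lit 4) true (nat_lit 12) true (nat_lit 2) true (nat_lit 11) true (nat_lit 13) (.s true (nat_lit 1) (nat_lit 14) (nat_lit 5) (nat_lit 0) (nat_lit 1) true (nat_lit 3) true (nat_lit 13) true (nat_lit 2) true (nat_lit 9) true (nat_lit 14) dC1c_i192)))))))))))))))))))))))))

noncomputable def dC1c_i194 : IL := (.e false (nat_lit 2) (nat_lit 219) (nat_lit 2) (nat_lit 17) (.e false (nat_lit 3) (nat_lit 220) (nat_lit 2) (nat_lit 17) (.e true (nat_lit 2) (nat_lit 222) (nat_lit 2) (nat_lit 17) (.e true (nat_lit 3) (nat_lit 223) (nat_lit 2) (nat_lit 17) (.e true (nat_lit 3) (nat_lit 224) (nat_lit 2) (nat_lit 17) (.e true (nat_lit 2) (nat_lit 226) (nat_lit 2) (nat_lit 17) (.e true (nat_lit 2) (nat_lit 227) (nat_lit 2) (nat_lit 17) (.e false (nat_lit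 2) (nat_lit 229) (nat_lit 2) (nat_lit 17) (.e true (nat_lit 1) (nat_lit 230) (nat_lit 2) (nat_lit 17) (.e true (nat_lit 2) (nat_lit 232) (nat_lit 2) (nat_lit 17) (.e false (nat_lit 3) (nat_lit 233) (nat_lit 2) (nat_lit 17) (.e false (nat_lit 2) (nat_lit 234) (nat_lit 2) (nat_lit 17) (.e true (nat_lit 2) (nat_lit 235) (nat_lit 2) (nat_lit 17) (.e false (nat_lit 2) (nat_lit 237) (nat_lit 2) (nat_lit 17) (.e false (nat_lit 2) (nat_lit 239) (nat_lit 2) (nat_lit 17) (.e true (nat_lit 1) (nat_lit 240) (nat_lit 2) (nat_lit 17) (.e false (nat_lit 1) (nat_lit 241) (nat_lit 2) (nat_lit 17) (.e true (nat_lit 3) (nat_lit 242) (nat_lit 2) (nat_lit 17) (.e false (nat_lit 3) (nat_lit 243) (nat_lit 2) (nat_lit 17) (.e false (nat_lit 1) (nat_lit 244) (nat_lit 2) (nat_lit 17) (.e false (nat_lit 3) (nat_lit 245) (nat_lit 2) (nat_lit 17) (.e true (nat_lit 3) (nat_lit 248) (nat_lit 2) (nat_lit 17) (.e false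 (nat_lit 2) (nat_lit 250) (nat_lit 2) (nat_lit 17) (.e true (nat_lit 1) (nat_lit 108) (nat_lit 6) (nat_lit 13) (.u (nat_lit 2) (.p (nat_lit 1) (nat_lit 2) (.n (nat_lit 2) (nat_lit 3) (.n (nat_lit 3) (nat_lit 2) (.n (nat_lit 4) (nat_lit 1) (.n (nat_lit 5) (nat_lit 1) (.p (nat_lit 8) (nat_lit 5) (.n (nat_lit 9) (nat_lit 1) (.p (nat_lit 10) (nat_lit 2) (.n (nat_lit 11) (nat_lit 1) (.p (nat_lit 12) (nat_lit 1) (.n (nat_lit 13) (nat_lit 1) (.p (nat_lit 14) (nat_lit 3) (.n (nat_lit 15) (nat_lit 3) (.n (nat_lit 18) (nat_lit 3) (.n (nat_lit 19) (nat_lit 1) (.n (nat_lit 24) (nat_lit 1) (.n (nat_lit 25) (nat_lit 1) (.n (nat_lit 26) (nat_lit 1) (.n (nat_lit 27) (nat_lit 4) (.p (nat_lit 28) (nat_lit 4) (.p (nat_lit 29) (nat_lit 1) (.p (nat_lit 32) (nat_lit 1) (.p (nat_lit 34) (nat_lit 4) (.n (nat_lit 35) (nat_lit 5) (.n (nat_lit 36) (nat_lit 1) (.n (nat_lit 37) (nat_lit 2) (.n (nat_lit 38) (nat_lit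 8) (.n (nat_lit 39) (nat_lit 1) (.n (nat_lit 40) (nat_lit 3) (.p (nat_lit 45) (nat_lit 1) (.p (nat_lit 49) (nat_lit 4) (.p (nat_lit 50) (nat_lit 2) (.n (nat_lit 51) (nat_lit 1) (.p (nat_lit 53) (nat_lit 1) (.p (nat_lit 54) (nat_lit 4) (.n (nat_lit 55) (nat_lit 3) (.n (nat_lit 56) (nat_lit 2) (.n (nat_lit 57) (nat_lit 1) (.p (nat_lit 63) (nat_lit 1) (.p (nat_lit 65) (nat_lit 1) (.n (nat_lit 66) (nat_lit 1) (.n (nat_lit 67) (nat_lit 1) (.p (nat_lit 69) (nat_lit 1) (.n (nat_lit 70) (nat_lit 2) .z)))))))))))))))))))))))))))))))))))))))))))) .nil)))))))))))))))))))))))))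

noncomputable def dC1c_i195 : IL := (.e false (nat_lit 3) (nat_lit 158) (nat_lit 0) (nat_lit 14) (.e true (nat_lit 2) (nat_lit 159) (nat_lit 0) (nat_lit 14) (.e false (nat_lit 2) (nat_lit 163) (nat_lit 0) (nat_lit 14) (.e true (nat_lit 2) (nat_lit 153) (nat_lit 0) (nat_lit 14) (.e true (nat_lit 3) (nat_lit 154) (nat_lit 0) (nat_lit 14) (.e true (nat_lit 2) (nat_lit 155) (nat_lit 0) (nat_lit 14) (.e false (nat_lit 2) (nat_lit 156) (nat_lit 0) (nat_lit 14) (.e true (nat_lit 2) (nat_lit 157) (nat_lit 0) (nat_lit 14) (.e false (nat_lit 3) (nat_lit 160) (nat_lit 0) (nat_lit 14) (.e true (nat_lit 3) (nat_lit 165) (nat_lit 0) (nat_lit 14) (.e true (nat_lit 1) (nat_lit 166) (nat_lit 0) (nat_lit 14) (.e true (nat_lit 2) (nat_lit 168) (nat_lit 0) (nat_lit 14) (.e false (nat_lit 2) (nat_lit 173) (nat_lit 0) (nat_lit 14) (.e true (nat_lit 1) (nat_lit 162) (nat_lit 0) (nat_lit 14) (.e true (nat_lit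 1) (nat_lit 167) (nat_lit 0) (nat_lit 14) (.e true (nat_lit 2) (nat_lit 164) (nat_lit 0) (nat_lit 14) (.e false (nat_lit 2) (nat_lit 135) (nat_lit 1) (nat_lit 13) (.e false (nat_lit 3) (nat_lit 152) (nat_lit 1) (nat_lit 13) (.e true (nat_lit 1) (nat_lit 133) (nat_lit 1) (nat_lit 13) (.e true (nat_lit 3) (nat_lit 145) (nat_lit 1) (nat_lit 13) (.e false (nat_lit 1) (nat_lit 147) (nat_lit 1) (nat_lit 13) (.e false (nat_lit 3) (nat_lit 56) (nat_lit 5) (nat_lit 9) (.e true (nat_lit 3) (nat_lit 109) (nat_lit 2) (nat_lit 12) (.u (nat_lit 2) (.p (nat_lit 0) (nat_lit 1) (.n (nat_lit 1) (nat_lit 2) (.n (nat_lit 3) (nat_lit 3) (.n (nat_lit 4) (nat_lit 1) (.n (nat_lit 5) (nat_lit 1) (.n (nat_lit 7) (nat_lit 2) (.p (nat_lit 8) (nat_lit 1) (.p (nat_lit 10) (nat_lit 2) (.p (nat_lit 12) (nat_lit 1) (.n (nat_lit 13) (nat_lit 1) (.n (nat_lit 14) (nat_lit 4) (.n (nat_lit 15) (nat_lit 2) (.p (nat_lit 16)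 (nat_lit 3) (.n (nat_lit 17) (nat_lit 1) (.p (nat_lit 19) (nat_lit 1) (.n (nat_lit 21) (nat_lit 3) (.n (nat_lit 22) (nat_lit 2) (.p (nat_lit 23) (nat_lit 1) (.n (nat_lit 24) (nat_lit 2) (.p (nat_lit 25) (nat_lit 2) (.n (nat_lit 26) (nat_lit 2) (.n (nat_lit 27) (nat_lit 1) (.n (nat_lit 28) (nat_lit 3) (.n (nat_lit 29) (nat_lit 1) (.p (nat_lit 32) (nat_lit 1) (.p (nat_lit 33) (nat_lit 1) (.p (nat_lit 34) (nat_lit 1) (.p (nat_lit 41) (nat_lit 1) (.n (nat_lit 44) (nat_lit 3) (.p (nat_lit 46) (nat_lit 1) (.n (nat_lit 47) (nat_lit 1) (.p (nat_lit 57) (nat_lit 1) (.p (nat_lit 61) (nat_lit 1) (.p (nat_lit 66) (nat_lit 1) (.n (nat_lit 67) (nat_lit 1) (.n (nat_lit 90) (nat_lit 1) (.p (nat_lit 95) (nat_lit 1) (.p (nat_lit 103) (nat_lit 1) (.p (nat_lit 107) (nat_lit 2) (.p (nat_lit 108) (nat_lit 3) (.n (nat_lit 112) (nat_lit 3) (.p (nat_lit 113) (nat_lit 3) (.p (nat_lit 144) (nat_lit 1) (.n (nat_lit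 155) (nat_lit 1) (.n (nat_lit 159) (nat_lit 1) (.p (nat_lit 161) (nat_lit 2) (.p (nat_lit 162) (nat_lit 2) (.n (nat_lit 163) (nat_lit 3) (.p (nat_lit 164) (nat_lit 2) (.n (nat_lit 165) (nat_lit 4) (.n (nat_lit 166) (nat_lit 4) (.p (nat_lit 167) (nat_lit 3) (.p (nat_lit 168) (nat_lit 1) (.p (nat_lit 169) (nat_lit 5) (.p (nat_lit 170) (nat_lit 1) (.p (nat_lit 172) (nat_lit 4) (.n (nat_lit 173) (nat_lit 1) (.n (nat_lit 174) (nat_lit 3) (.p (nat_lit 175) (nat_lit 3) (.n (nat_lit 176) (nat_lit 1) .z)))))))))))))))))))))))))))))))))))))))))))))))))))))))))))) (.u (nat_lit 2) (.p (nat_lit 178) (nat_lit 1) (.p (nat_lit 179) (nat_lit 1) (.n (nat_lit 180) (nat_lit 1) (.n (nat_lit 181) (nat_lit 1) (.p (nat_lit 182) (nat_lit 3) (.n (nat_lit 183) (nat_lit 1) (.n (nat_lit 185) (nat_lit 1) (.n (nat_lit 186) (nat_lit 2) (.n (nat_lit 187) (nat_lit 1) (.n (nat_lit 188) (nat_lit 1) (.p (nat_lit 190) (nat_lit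 2) (.n (nat_lit 191) (nat_lit 2) (.p (nat_lit 192) (nat_lit 3) (.n (nat_lit 193) (nat_lit 1) (.n (nat_lit 194) (nat_lit 3) (.p (nat_lit 195) (nat_lit 4) (.n (nat_lit 196) (nat_lit 1) (.n (nat_lit 197) (nat_lit 4) (.p (nat_lit 199) (nat_lit 1) (.p (nat_lit 201) (nat_lit 1) .z)))))))))))))))))))) .nil)))))))))))))))))))))))))

noncomputable def dC1c_i196 : IL := (.e true (nat_lit 2) (nat_lit 142) (nat_lit 1) (nat_lit 13) (.e false (nat_lit 2) (nat_lit 149) (nat_lit 1) (nat_lit 13) (.e false (nat_lit 1) (nat_lit 112) (nat_lit 2) (nat_lit 12) (.e false (nat_lit 3) (nat_lit 114) (nat_lit 2) (nat_lit 12) (.e false (nat_lit 1) (nat_lit 161) (nat_lit 0) (nat_lit 14) (.e true (nat_lit 2) (nat_lit 170) (nat_lit 0) (nat_lit 14) (.e true (nat_lit 3) (nat_lit 125) (nat_lit 2) (nat_lit 12) (.e false (nat_lit 1) (nat_lit 59) (nat_lit 5) (nat_lit 9) (.e true (nat_lit 3) (nat_lit 61) (nat_lit 5) (nat_lit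 9) (.e true (nat_lit 2) (nat_lit 130) (nat_lit 2) (nat_lit 12) (.e false (nat_lit 3) (nat_lit 37) (nat_lit 9) (nat_lit 5) (.e true (nat_lit 1) (nat_lit 132) (nat_lit 1) (nat_lit 13) (.e false (nat_lit 1) (nat_lit 134) (nat_lit 1) (nat_lit 13) (.e false (nat_lit 2) (nat_lit 136) (nat_lit 1) (nat_lit 13) (.e false (nat_lit 3) (nat_lit 137) (nat_lit 1) (nat_lit 13) (.e false (nat_lit 2) (nat_lit 138) (nat_lit 1) (nat_lit 13) (.e false (nat_lit 1) (nat_lit 139) (nat_lit 1) (nat_lit 13) (.e true (nat_lit 2) (nat_lit 140) (nat_lit 1) (nat_lit 13) (.e false (nat_lit 1) (nat_lit 141) (nat_lit 1) (nat_lit 13) (.e false (nat_lit 2) (nat_lit 143) (nat_lit 1) (nat_lit 13) (.e true (nat_lit 3) (nat_lit 73) (nat_lit 4) (nat_lit 10) (.e false (nat_lit 3) (nat_lit 28) (nat_lit 13) (nat_lit 3) (.e true (nat_lit 1) (nat_lit 29) (nat_lit 13) (nat_lit 3) (.e false (nat_lit 1) (nat_lit 30) (nat_lit 13) (nat_lit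 3) (.e false (nat_lit 3) (nat_lit 119) (nat_lit 2) (nat_lit 12) dC1c_i195)))))))))))))))))))))))))

noncomputable def dC1c_i197 : IL := (.s false (nat_lit 3) (nat_lit 7) (nat_lit 6) (nat_lit 1) (nat_lit 2) true (nat_lit 0) true (nat_lit 12) true (nat_lit 7) true (nat_lit 8) true (nat_lit 13) (.s false (nat_lit 3) (nat_lit 8) (nat_lit 0) (nat_lit 2) (nat_lit 6) true (nat_lit 2) true (nat_lit 8) true (nat_lit 6) true (nat_lit 14) true (nat_lit 12) (.s false (nat_lit 1) (nat_lit 8) (nat_lit 2) (nat_lit 2) (nat_lit 4) true (nat_lit 2) true (nat_lit 10) true (nat_lit 6) true (nat_lit 12) true (nat_lit 12) (.s true (nat_lit 3) (nat_lit 8) (nat_lit 2) (nat_lit 6) (nat_lit 0) true (nat_lit 10) true (nat_lit 14) true (nat_lit 6) true (nat_lit 12) true (nat_lit 8) (.s false (nat_lit 3) (nat_lit 8) (nat_lit 4) (nat_lit 2) (nat_lit 2) true (nat_lit 2) true (nat_lit 12) true (nat_lit 6) true (nat_lit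 10) true (nat_lit 12) (.s true (nat_lit 3) (nat_lit 8) (nat_lit 6) (nat_lit 0) (nat_lit 2) true (nat_lit 0) true (nat_lit 12) true (nat_lit 6) true (nat_lit 8) true (nat_lit 14) (.s true (nat_lit 3) (nat_lit 9) (nat_lit 1) (nat_lit 5) (nat_lit 2) true (nat_lit 9) true (nat_lit 12) true (nat_lit 5) true (nat_lit 13) true (nat_lit 9) (.s true (nat_lit 3) (nat_lit 13) (nat_lit 2) (nat_lit 0) (nat_lit 4) true (nat_lit 2) true (nat_lit 10) true (nat_lit 3) true (nat_lit 12) true (nat_lit 14) (.s true (nat_lit 3) (nat_lit 13) (nat_lit 6) (nat_lit 0) (nat_lit 0) true (nat_lit 2) true (nat_lit 14) true (nat_lit 3) true (nat_lit 8) true (nat_lit 14) (.s false (nat_lit 3) (nat_lit 15) (nat_lit 0) (nat_lit 5) (nat_lit 1) true (nat_lit 11) true (nat_lit 13) true (nat_lit 2) true (nat_lit 14) true (nat_lit 9) (.s false (nat_lit 3) (nat_lit 14) (nat_lit 1) (nat_lit 0) (nat_lit 5) true (nat_lit 3) true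 (nat_lit 9) true (nat_lit 2) true (nat_lit 13) true (nat_lit 14) (.s false (nat_lit 3) (nat_lit 14) (nat_lit 1) (nat_lit 1) (nat_lit 4) true (nat_lit 4) true (nat_lit 10) true (nat_lit 2) true (nat_lit 13) true (nat_lit 13) (.s false (nat_lit 3) (nat_lit 14) (nat_lit 1) (nat_lit 4) (nat_lit 1) false (nat_lit 16) true (nat_lit 13) true (nat_lit 2) true (nat_lit 13) true (nat_lit 10) (.s true (nat_lit 3) (nat_lit 14) (nat_lit 2) (nat_lit 3) (nat_lit 1) true (nat_lit 9) true (nat_lit 13) true (nat_lit 2) true (nat_lit 12) true (nat_lit 11) (.s false (nat_lit 3) (nat_lit 15) (nat_lit 3) (nat_lit 2) (nat_lit 1) true (nat_lit 6) true (nat_lit 13) true (nat_lit 2) true (nat_lit 11) true (nat_lit 12) (.s false (nat_lit 1) (nat_lit 20) (nat_lit 2) (nat_lit 1) (nat_lit 2) true (nat_lit 8) true (nat_lit 12) false (nat_lit 1) true (nat_lit 12) true (nat_lit 13) (.s true (nat_lit 3) (nat_lit 24) (nat_lit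 2) (nat_lit 0) (nat_lit 2) true (nat_lit 8) true (nat_lit 12) false (nat_lit 2) true (nat_lit 12) true (nat_lit 14) (.s true (nat_lit 1) (nat_lit 24) (nat_lit 2) (nat_lit 2) (nat_lit 0) true (nat_lit 10) true (nat_lit 14) false (nat_lit 2) true (nat_lit 12) true (nat_lit 12) (.s false (nat_lit 3) (nat_lit 29) (nat_lit 1) (nat_lit 1) (nat_lit 2) true (nat_lit 9) true (nat_lit 12) false (nat_lit 3) true (nat_lit 13) true (nat_lit 13) (.s true (nat_lit 3) (nat_lit 30) (nat_lit 1) (nat_lit 1) (nat_lit 2) true (nat_lit 9) true (nat_lit 12) false (nat_lit 3) true (nat_lit 13) true (nat_lit 13) (.s true (nat_lit 3) (nat_lit 34) (nat_lit 0) (nat_lit 2) (nat_lit 1) true (nat_lit 11) true (nat_lit 13) false (nat_lit 4) true (nat_lit 14) true (nat_lit 12) (.s false (nat_lit 3) (nat_lit 40) (nat_lit 1) (nat_lit 0) (nat_lit 1) false (nat_lit 16) true (nat_lit 13) false (nat_lit 6) true (nat_lit 13)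 true (nat_lit 14) (.s true (nat_lit 3) (nat_lit 41) (nat_lit 1) (nat_lit 0) (nat_lit 1) false (nat_lit 16) true (nat_lit 13) false (nat_lit 6) true (nat_lit 13) true (nat_lit 14) (.s true (nat_lit 1) (nat_lit 42) (nat_lit 1) (nat_lit 0) (nat_lit 1) false (nat_lit 16) true (nat_lit 13) false (nat_lit 6) true (nat_lit 13) true (nat_lit 14) (.e false (nat_lit 3) (nat_lit 129) (nat_lit 2) (nat_lit 12) dC1c_i196)))))))))))))))))))))))))

noncomputable def dC1c_i198 : IL := (.e true (nat_lit 3) (nat_lit 222) (nat_lit 2) (nat_lit 17) (.e false (nat_lit 3) (nat_lit 223) (nat_lit 2) (nat_lit 17) (.e true (nat_lit 3) (nat_lit 224) (nat_lit 2) (nat_lit 17) (.e false (nat_lit 3) (nat_lit 226) (nat_lit 2) (nat_lit 17) (.e true (nat_lit 2) (nat_lit 227) (nat_lit 2) (nat_lit 17) (.e false (nat_lit 2) (nat_lit 229) (nat_lit 2) (nat_lit 17) (.e true (nat_lit 1) (nat_lit 230) (nat_lit 2) (nat_lit 17) (.e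 true (nat_lit 1) (nat_lit 231) (nat_lit 2) (nat_lit 17) (.e true (nat_lit 3) (nat_lit 232) (nat_lit 2) (nat_lit 17) (.e false (nat_lit 3) (nat_lit 233) (nat_lit 2) (nat_lit 17) (.e false (nat_lit 1) (nat_lit 234) (nat_lit 2) (nat_lit 17) (.e true (nat_lit 1) (nat_lit 235) (nat_lit 2) (nat_lit 17) (.e true (nat_lit 3) (nat_lit 236) (nat_lit 2) (nat_lit 17) (.e true (nat_lit 2) (nat_lit 237) (nat_lit 2) (nat_lit 17) (.e true (nat_lit 2) (nat_lit 238) (nat_lit 2) (nat_lit 17) (.e false (nat_lit 1) (nat_lit 239) (nat_lit 2) (nat_lit 17) (.e false (nat_lit 3) (nat_lit 240) (nat_lit 2) (nat_lit 17) (.e true (nat_lit 3) (nat_lit 241) (nat_lit 2) (nat_lit 17) (.e false (nat_lit 1) (nat_lit 243) (nat_lit 2) (nat_lit 17) (.e true (nat_lit 1) (nat_lit 248) (nat_lit 2) (nat_lit 17) (.e false (nat_lit 2) (nat_lit 251) (nat_lit 2) (nat_lit 17) (.e true (nat_lit 2) (nat_lit 258) (nat_lit 2) (nat_lit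 17) (.e false (nat_lit 1) (nat_lit 259) (nat_lit 2) (nat_lit 17) (.e true (nat_lit 1) (nat_lit 109) (nat_lit 6) (nat_lit 13) (.u (nat_lit 2) (.n (nat_lit 0) (nat_lit 2) (.p (nat_lit 1) (nat_lit 1) (.p (nat_lit 2) (nat_lit 2) (.n (nat_lit 3) (nat_lit 3) (.n (nat_lit 4) (nat_lit 3) (.p (nat_lit 5) (nat_lit 3) (.n (nat_lit 6) (nat_lit 1) (.p (nat_lit 7) (nat_lit 3) (.p (nat_lit 8) (nat_lit 2) (.n (nat_lit 10) (nat_lit 1) (.p (nat_lit 11) (nat_lit 3) (.p (nat_lit 12) (nat_lit 5) (.p (nat_lit 13) (nat_lit 1) (.n (nat_lit 14) (nat_lit 2) (.p (nat_lit 15) (nat_lit 3) (.p (nat_lit 17) (nat_lit 2) (.n (nat_lit 19) (nat_lit 4) (.p (nat_lit 20) (nat_lit 2) (.n (nat_lit 23) (nat_lit 1) (.p (nat_lit 26) (nat_lit 2) (.n (nat_lit 27) (nat_lit 1) (.n (nat_lit 29) (nat_lit 1) (.p (nat_lit 30) (nat_lit 2) (.n (nat_lit 32) (nat_lit 1) (.p (nat_lit 33) (nat_lit 1) (.p (nat_lit 34) (nat_lit 1) (.p (nat_lit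 36) (nat_lit 2) (.n (nat_lit 38) (nat_lit 2) (.p (nat_lit 40) (nat_lit 2) (.n (nat_lit 41) (nat_lit 3) (.p (nat_lit 50) (nat_lit 2) (.n (nat_lit 51) (nat_lit 2) (.p (nat_lit 52) (nat_lit 2) (.p (nat_lit 53) (nat_lit 4) (.n (nat_lit 54) (nat_lit 1) (.n (nat_lit 55) (nat_lit 1) (.p (nat_lit 56) (nat_lit 1) (.p (nat_lit 57) (nat_lit 1) (.n (nat_lit 58) (nat_lit 2) (.n (nat_lit 60) (nat_lit 1) (.n (nat_lit 63) (nat_lit 2) (.p (nat_lit 64) (nat_lit 1) (.n (nat_lit 69) (nat_lit 4) (.p (nat_lit 70) (nat_lit 3) .z)))))))))))))))))))))))))))))))))))))))))))) .nil)))))))))))))))))))))))))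

noncomputable def dC1c_i199 : IL := (.e true (nat_lit 3) (nat_lit 129) (nat_lit 2) (nat_lit 12) (.e true (nat_lit 1) (nat_lit 161) (nat_lit 0) (nat_lit 14) (.e false (nat_lit 1) (nat_lit 132) (nat_lit 1) (nat_lit 13) (.e true (nat_lit 1) (nat_lit 136) (nat_lit 1) (nat_lit 13) (.e true (nat_lit 2) (nat_lit 139) (nat_lit 1) (nat_lit 13) (.e false (nat_lit 3) (nat_lit 142) (nat_lit 1) (nat_lit 13) (.e true (nat_lit 2) (nat_lit 143) (nat_lit 1) (nat_lit 13) (.e false (nat_lit 3) (nat_lit 144) (nat_lit 1) (nat_lit 13) (.e true (nat_lit 3) (nat_lit 145) (nat_lit 1) (nat_lit 13) (.e false (nat_lit 2) (nat_lit 147) (nat_lit 1) (nat_lit 13) (.e true (nat_lit 1) (nat_lit 152) (nat_lit 1) (nat_lit 13) (.e false (nat_lit 1) (nat_lit 149) (nat_lit 1) (nat_lit 13) (.e true (nat_lit 1) (nat_lit 155) (nat_lit 0) (nat_lit 14) (.e true (nat_lit 3) (nat_lit 159) (nat_lit 0) (nat_lit 14) (.e false (nat_lit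 1) (nat_lit 163) (nat_lit 0) (nat_lit 14) (.e false (nat_lit 3) (nat_lit 164) (nat_lit 0) (nat_lit 14) (.e false (nat_lit 1) (nat_lit 165) (nat_lit 0) (nat_lit 14) (.e true (nat_lit 2) (nat_lit 166) (nat_lit 0) (nat_lit 14) (.e false (nat_lit 2) (nat_lit 167) (nat_lit 0) (nat_lit 14) (.e false (nat_lit 3) (nat_lit 168) (nat_lit 0) (nat_lit 14) (.e false (nat_lit 1) (nat_lit 169) (nat_lit 0) (nat_lit 14) (.e true (nat_lit 2) (nat_lit 170) (nat_lit 0) (nat_lit 14) (.e true (nat_lit 2) (nat_lit 171) (nat_lit 0) (nat_lit 14) (.e true (nat_lit 3) (nat_lit 160) (nat_lit 0) (nat_lit 14) (.u (nat_lit 2) (.n (nat_lit 0) (nat_lit 3) (.n (nat_lit 1) (nat_lit 2) (.n (nat_lit 3) (nat_lit 4) (.p (nat_lit 5) (nat_lit 3) (.n (nat_lit 6) (nat_lit 2) (.n (nat_lit 8) (nat_lit 2) (.p (nat_lit 9) (nat_lit 1) (.p (nat_lit 10) (nat_lit 4) (.p (nat_lit 11) (nat_lit 1) (.n (nat_lit 12) (nat_lit 1) (.n (nat_lit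 13) (nat_lit 2) (.n (nat_lit 15) (nat_lit 2) (.n (nat_lit 18) (nat_lit 3) (.n (nat_lit 19) (nat_lit 1) (.n (nat_lit 20) (nat_lit 1) (.p (nat_lit 22) (nat_lit 1) (.n (nat_lit 23) (nat_lit 2) (.n (nat_lit 24) (nat_lit 4) (.n (nat_lit 26) (nat_lit 1) (.n (nat_lit 27) (nat_lit 3) (.n (nat_lit 28) (nat_lit 2) (.p (nat_lit 29) (nat_lit 1) (.p (nat_lit 30) (nat_lit 1) (.p (nat_lit 31) (nat_lit 2) (.n (nat_lit 33) (nat_lit 2) (.p (nat_lit 34) (nat_lit 2) (.p (nat_lit 36) (nat_lit 1) (.n (nat_lit 37) (nat_lit 2) (.p (nat_lit 41) (nat_lit 1) (.n (nat_lit 141) (nat_lit 1) (.p (nat_lit 158) (nat_lit 1) (.n (nat_lit 161) (nat_lit 1) (.n (nat_lit 162) (nat_lit 1) (.n (nat_lit 165) (nat_lit 1) (.p (nat_lit 167) (nat_lit 1) (.p (nat_lit 168) (nat_lit 1) (.n (nat_lit 169) (nat_lit 2) (.n (nat_lit 171) (nat_lit 1) (.p (nat_lit 174) (nat_lit 1) (.p (nat_lit 179) (nat_lit 1) (.p (nat_lit 180) (nat_lit 1)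 (.n (nat_lit 181) (nat_lit 1) (.p (nat_lit 188) (nat_lit 1) .z))))))))))))))))))))))))))))))))))))))))))) .nil)))))))))))))))))))))))))

noncomputable def dC1c_i200 : IL := (.e false (nat_lit 3) (nat_lit 270) (nat_lit 1) (nat_lit 18) (.e false (nat_lit 1) (nat_lit 271) (nat_lit 1) (nat_lit 18) (.e false (nat_lit 2) (nat_lit 272) (nat_lit 1) (nat_lit 18) (.e false (nat_lit 3) (nat_lit 277) (nat_lit 1) (nat_lit 18) (.e true (nat_lit 2) (nat_lit 278) (nat_lit 1) (nat_lit 18) (.e true (nat_lit 1) (nat_lit 279) (nat_lit 1) (nat_lit 18) (.e true (nat_lit 1) (nat_lit 280) (nat_lit 1) (nat_lit 18) (.e false (nat_lit 1) (nat_lit 38) (nat_lit 30) (nat_lit 1) (.e false (nat_lit 2) (nat_lit 132) (nat_lit 5) (nat_lit 14) (.e true (nat_lit 3) (nat_lit 134) (nat_lit 5) (nat_lit 14) (.e true (nat_lit 2) (nat_lit 135) (nat_lit 5) (nat_lit 14) (.e false (nat_lit 2) (nat_lit 136) (nat_lit 5) (nat_lit 14)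 (.e true (nat_lit 2) (nat_lit 137) (nat_lit 5) (nat_lit 14) (.e true (nat_lit 3) (nat_lit 138) (nat_lit 5) (nat_lit 14) (.e false (nat_lit 3) (nat_lit 139) (nat_lit 5) (nat_lit 14) (.e true (nat_lit 1) (nat_lit 140) (nat_lit 5) (nat_lit 14) (.e true (nat_lit 2) (nat_lit 141) (nat_lit 5) (nat_lit 14) (.e false (nat_lit 3) (nat_lit 142) (nat_lit 5) (nat_lit 14) (.e false (nat_lit 1) (nat_lit 143) (nat_lit 5) (nat_lit 14) (.e false (nat_lit 2) (nat_lit 144) (nat_lit 5) (nat_lit 14) (.e false (nat_lit 3) (nat_lit 149) (nat_lit 5) (nat_lit 14) (.e true (nat_lit 2) (nat_lit 150) (nat_lit 5) (nat_lit 14) (.e true (nat_lit 1) (nat_lit 152) (nat_lit 5) (nat_lit 14) (.e true (nat_lit 1) (nat_lit 259) (nat_lit 2) (nat_lit 17) (.u (nat_lit 2) (.n (nat_lit 1) (nat_lit 1) (.p (nat_lit 2) (nat_lit 2) (.p (nat_lit 4) (nat_lit 2) (.p (nat_lit 6) (nat_lit 3) (.n (nat_lit 7) (nat_lit 1) (.n (nat_lit 9)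 (nat_lit 5) (.n (nat_lit 11) (nat_lit 3) (.p (nat_lit 12) (nat_lit 4) (.n (nat_lit 13) (nat_lit 1) (.n (nat_lit 14) (nat_lit 2) (.p (nat_lit 15) (nat_lit 1) (.p (nat_lit 18) (nat_lit 2) (.n (nat_lit 19) (nat_lit 1) (.p (nat_lit 20) (nat_lit 1) (.n (nat_lit 26) (nat_lit 2) (.p (nat_lit 27) (nat_lit 1) (.p (nat_lit 28) (nat_lit 4) (.n (nat_lit 29) (nat_lit 2) (.p (nat_lit 30) (nat_lit 3) (.n (nat_lit 32) (nat_lit 2) (.n (nat_lit 33) (nat_lit 3) (.p (nat_lit 34) (nat_lit 5) (.p (nat_lit 35) (nat_lit 5) (.p (nat_lit 36) (nat_lit 3) (.p (nat_lit 37) (nat_lit 3) (.p (nat_lit 38) (nat_lit 1) (.n (nat_lit 39) (nat_lit 4) (.p (nat_lit 40) (nat_lit 4) (.p (nat_lit 41) (nat_lit 6) (.p (nat_lit 49) (nat_lit 3) (.p (nat_lit 50) (nat_lit 1) (.n (nat_lit 51) (nat_lit 1) (.n (nat_lit 53) (nat_lit 3) (.n (nat_lit 55) (nat_lit 2) (.n (nat_lit 57) (nat_lit 1) (.p (nat_lit 58) (nat_lit 1) (.n (nat_lit 60)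 (nat_lit 1) (.p (nat_lit 61) (nat_lit 1) (.p (nat_lit 63) (nat_lit 1) (.n (nat_lit 64) (nat_lit 1) (.p (nat_lit 69) (nat_lit 2) (.n (nat_lit 70) (nat_lit 1) .z)))))))))))))))))))))))))))))))))))))))))) .nil)))))))))))))))))))))))))

noncomputable def dC1c_i201 : IL := (.e false (nat_lit 3) (nat_lit 322) (nat_lit 1) (nat_lit 14) (.e true (nat_lit 3) (nat_lit 323) (nat_lit 1) (nat_lit 14) (.e true (nat_lit 1) (nat_lit 324) (nat_lit 1) (nat_lit 14) (.e false (nat_lit 1) (nat_lit 325) (nat_lit 1) (nat_lit 14) (.e false (nat_lit 1) (nat_lit 45) (nat_lit 28) (nat_lit 1) (.e true (nat_lit 1) (nat_lit 261) (nat_lit 2) (nat_lit 13) (.e false (nat_lit 2) (nat_lit 262) (nat_lit 2) (nat_lit 13) (.e false (nat_lit 2) (nat_lit 264) (nat_lit 2) (nat_lit 13) (.e false (nat_lit 3) (nat_lit 265) (nat_lit 2) (nat_lit 13) (.e false (nat_lit 1) (nat_lit 266) (nat_lit 2) (nat_lit 13) (.e true (nat_lit 3) (nat_lit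 267) (nat_lit 2) (nat_lit 13) (.e false (nat_lit 3) (nat_lit 268) (nat_lit 2) (nat_lit 13) (.e false (nat_lit 2) (nat_lit 269) (nat_lit 2) (nat_lit 13) (.e true (nat_lit 2) (nat_lit 270) (nat_lit 2) (nat_lit 13) (.e false (nat_lit 1) (nat_lit 271) (nat_lit 2) (nat_lit 13) (.e false (nat_lit 2) (nat_lit 272) (nat_lit 2) (nat_lit 13) (.e true (nat_lit 1) (nat_lit 273) (nat_lit 2) (nat_lit 13) (.e true (nat_lit 1) (nat_lit 277) (nat_lit 2) (nat_lit 13) (.e false (nat_lit 1) (nat_lit 278) (nat_lit 2) (nat_lit 13) (.e true (nat_lit 2) (nat_lit 279) (nat_lit 2) (nat_lit 13) (.e true (nat_lit 1) (nat_lit 280) (nat_lit 2) (nat_lit 13) (.e false (nat_lit 3) (nat_lit 286) (nat_lit 2) (nat_lit 13) (.e true (nat_lit 2) (nat_lit 287) (nat_lit 2) (nat_lit 13) (.e true (nat_lit 1) (nat_lit 288) (nat_lit 2) (nat_lit 13) (.u (nat_lit 2) (.n (nat_lit 0) (nat_lit 1) (.p (nat_lit 1) (nat_lit 1) (.n (nat_lit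 2) (nat_lit 1) (.n (nat_lit 3) (nat_lit 1) (.p (nat_lit 4) (nat_lit 2) (.p (nat_lit 6) (nat_lit 3) (.p (nat_lit 7) (nat_lit 3) (.p (nat_lit 8) (nat_lit 1) (.n (nat_lit 9) (nat_lit 3) (.n (nat_lit 12) (nat_lit 3) (.n (nat_lit 13) (nat_lit 2) (.n (nat_lit 15) (nat_lit 1) (.p (nat_lit 16) (nat_lit 1) (.p (nat_lit 17) (nat_lit 1) (.p (nat_lit 18) (nat_lit 1) (.n (nat_lit 22) (nat_lit 1) (.p (nat_lit 23) (nat_lit 2) (.n (nat_lit 25) (nat_lit 1) (.p (nat_lit 30) (nat_lit 2) (.n (nat_lit 33) (nat_lit 2) .z)))))))))))))))))))) .nil)))))))))))))))))))))))))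

noncomputable def dC1c_i202 : IL := (.e true (nat_lit 3) (nat_lit 226) (nat_lit 2) (nat_lit 17) (.e true (nat_lit 1) (nat_lit 227) (nat_lit 2) (nat_lit 17) (.e false (nat_lit 1) (nat_lit 228) (nat_lit 2) (nat_lit 17) (.e false (nat_lit 3) (nat_lit 229) (nat_lit 2) (nat_lit 17) (.e true (nat_lit 2) (nat_lit 230) (nat_lit 2) (nat_lit 17) (.e false (nat_lit 3) (nat_lit 231) (nat_lit 2) (nat_lit 17) (.e false (nat_lit 1) (nat_lit 234) (nat_lit 2) (nat_lit 17) (.e false (nat_lit 3) (nat_lit 235) (nat_lit 2) (nat_lit 17) (.e true (nat_lit 3) (nat_lit 236) (nat_lit 2) (nat_lit 17) (.e false (nat_lit 3) (nat_lit 237) (nat_lit 2) (nat_lit 17) (.e true (nat_lit 3) (nat_lit 238) (nat_lit 2) (nat_lit 17) (.e true (nat_lit 1) (nat_lit 239) (nat_lit 2) (nat_lit 17) (.e true (nat_lit 3) (nat_lit 240) (nat_lit 2) (nat_lit 17) (.e true (nat_lit 3) (nat_lit 241) (nat_lit 2) (nat_lit 17) (.e true (nat_lit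 3) (nat_lit 242) (nat_lit 2) (nat_lit 17) (.e false (nat_lit 2) (nat_lit 243) (nat_lit 2) (nat_lit 17) (.e false (nat_lit 1) (nat_lit 244) (nat_lit 2) (nat_lit 17) (.e true (nat_lit 2) (nat_lit 245) (nat_lit 2) (nat_lit 17) (.e false (nat_lit 2) (nat_lit 246) (nat_lit 2) (nat_lit 17) (.e false (nat_lit 2) (nat_lit 248) (nat_lit 2) (nat_lit 17) (.e true (nat_lit 1) (nat_lit 249) (nat_lit 2) (nat_lit 17) (.e false (nat_lit 1) (nat_lit 253) (nat_lit 2) (nat_lit 17) (.e true (nat_lit 1) (nat_lit 66) (nat_lit 14) (nat_lit 7) (.e false (nat_lit 1) (nat_lit 316) (nat_lit 0) (nat_lit 19) (.u (nat_lit 2) (.n (nat_lit 0) (nat_lit 5) (.n (nat_lit 1) (nat_lit 2) (.p (nat_lit 2) (nat_lit 3) (.p (nat_lit 3) (nat_lit 2) (.n (nat_lit 4) (nat_lit 2) (.n (nat_lit 5) (nat_lit 4) (.p (nat_lit 6) (nat_lit 1) (.p (nat_lit 7) (nat_lit 2) (.p (nat_lit 8) (nat_lit 2) (.n (nat_lit 9) (nat_lit 4) (.p (nat_lit 10)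 (nat_lit 1) (.n (nat_lit 11) (nat_lit 2) (.p (nat_lit 12) (nat_lit 1) (.p (nat_lit 13) (nat_lit 3) (.p (nat_lit 14) (nat_lit 3) (.p (nat_lit 17) (nat_lit 1) (.p (nat_lit 18) (nat_lit 1) (.p (nat_lit 19) (nat_lit 3) (.p (nat_lit 20) (nat_lit 2) (.n (nat_lit 26) (nat_lit 1) (.p (nat_lit 27) (nat_lit 1) (.n (nat_lit 28) (nat_lit 1) (.p (nat_lit 29) (nat_lit 2) (.n (nat_lit 30) (nat_lit 1) (.p (nat_lit 31) (nat_lit 2) (.p (nat_lit 32) (nat_lit 2) (.n (nat_lit 34) (nat_lit 1) (.p (nat_lit 35) (nat_lit 1) (.p (nat_lit 36) (nat_lit 3) (.p (nat_lit 37) (nat_lit 1) (.n (nat_lit 38) (nat_lit 2) (.n (nat_lit 39) (nat_lit 3) (.n (nat_lit 40) (nat_lit 4) (.p (nat_lit 41) (nat_lit 1) (.n (nat_lit 49) (nat_lit 4) (.n (nat_lit 50) (nat_lit 3) (.p (nat_lit 51) (nat_lit 1) (.n (nat_lit 52) (nat_lit 1) (.p (nat_lit 53) (nat_lit 1) (.p (nat_lit 55) (nat_lit 5) (.p (nat_lit 57) (nat_lit 3) (.n (nat_lit 58)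 (nat_lit 3) (.n (nat_lit 60) (nat_lit 2) (.n (nat_lit 63) (nat_lit 2) (.p (nat_lit 64) (nat_lit 1) (.n (nat_lit 67) (nat_lit 1) (.n (nat_lit 69) (nat_lit 1) .z))))))))))))))))))))))))))))))))))))))))))))))) .nil)))))))))))))))))))))))))

noncomputable def dC1c_i203 : IL := (.e false (nat_lit 3) (nat_lit 279) (nat_lit 1) (nat_lit 18) (.e true (nat_lit 1) (nat_lit 288) (nat_lit 1) (nat_lit 18) (.e true (nat_lit 2) (nat_lit 283) (nat_lit 1) (nat_lit 18) (.e true (nat_lit 3) (nat_lit 292) (nat_lit 0) (nat_lit 19) (.e false (nat_lit 3) (nat_lit 293) (nat_lit 0) (nat_lit 19) (.e false (nat_lit 2) (nat_lit 294) (nat_lit 0) (nat_lit 19) (.e true (nat_lit 3) (nat_lit 295) (nat_lit 0) (nat_lit 19) (.e false (nat_lit 2) (nat_lit 296) (nat_lit 0) (nat_lit 19) (.e true (nat_lit 1) (nat_lit 300) (nat_lit 0) (nat_lit 19) (.e true (nat_lit 1) (nat_lit 302) (nat_lit 0) (nat_lit 19) (.e false (nat_lit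 3) (nat_lit 303) (nat_lit 0) (nat_lit 19) (.e true (nat_lit 1) (nat_lit 305) (nat_lit 0) (nat_lit 19) (.e false (nat_lit 3) (nat_lit 309) (nat_lit 0) (nat_lit 19) (.e true (nat_lit 3) (nat_lit 310) (nat_lit 0) (nat_lit 19) (.e true (nat_lit 1) (nat_lit 314) (nat_lit 0) (nat_lit 19) (.e true (nat_lit 1) (nat_lit 315) (nat_lit 0) (nat_lit 19) (.e false (nat_lit 2) (nat_lit 297) (nat_lit 0) (nat_lit 19) (.e true (nat_lit 2) (nat_lit 316) (nat_lit 0) (nat_lit 19) (.e false (nat_lit 1) (nat_lit 290) (nat_lit 0) (nat_lit 19) (.e true (nat_lit 1) (nat_lit 282) (nat_lit 1) (nat_lit 18) (.e true (nat_lit 2) (nat_lit 160) (nat_lit 4) (nat_lit 15) (.u (nat_lit 2) (.n (nat_lit 0) (nat_lit 3) (.n (nat_lit 1) (nat_lit 1) (.n (nat_lit 3) (nat_lit 3) (.p (nat_lit 4) (nat_lit 1) (.p (nat_lit 5) (nat_lit 1) (.p (nat_lit 6) (nat_lit 1) (.n (nat_lit 7) (nat_lit 1) (.p (nat_lit 8) (nat_lit 4) (.p (nat_lit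 9) (nat_lit 4) (.n (nat_lit 10) (nat_lit 4) (.p (nat_lit 11) (nat_lit 4) (.p (nat_lit 15) (nat_lit 2) (.n (nat_lit 17) (nat_lit 1) (.n (nat_lit 18) (nat_lit 2) (.p (nat_lit 19) (nat_lit 2) (.p (nat_lit 20) (nat_lit 1) (.p (nat_lit 24) (nat_lit 1) (.p (nat_lit 25) (nat_lit 1) (.p (nat_lit 26) (nat_lit 4) (.p (nat_lit 27) (nat_lit 2) (.p (nat_lit 29) (nat_lit 2) (.n (nat_lit 30) (nat_lit 2) (.n (nat_lit 31) (nat_lit 2) (.p (nat_lit 34) (nat_lit 2) (.p (nat_lit 35) (nat_lit 5) (.n (nat_lit 36) (nat_lit 6) (.p (nat_lit 37) (nat_lit 1) (.p (nat_lit 38) (nat_lit 3) (.n (nat_lit 39) (nat_lit 1) (.p (nat_lit 40) (nat_lit 1) (.p (nat_lit 41) (nat_lit 1) (.n (nat_lit 45) (nat_lit 1) (.p (nat_lit 46) (nat_lit 1) (.n (nat_lit 48) (nat_lit 1) (.n (nat_lit 49) (nat_lit 2) (.p (nat_lit 51) (nat_lit 1) (.n (nat_lit 54) (nat_lit 2) (.p (nat_lit 55) (nat_lit 2) (.n (nat_lit 56) (nat_lit 1) (.n (nat_lit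 57) (nat_lit 1) (.p (nat_lit 58) (nat_lit 1) (.n (nat_lit 59) (nat_lit 1) (.n (nat_lit 63) (nat_lit 1) (.p (nat_lit 64) (nat_lit 1) (.p (nat_lit 67) (nat_lit 1) (.n (nat_lit 68) (nat_lit 1) (.n (nat_lit 71) (nat_lit 2) (.n (nat_lit 72) (nat_lit 1) (.p (nat_lit 73) (nat_lit 1) (.p (nat_lit 74) (nat_lit 1) (.p (nat_lit 75) (nat_lit 1) (.n (nat_lit 76) (nat_lit 1) (.n (nat_lit 77) (nat_lit 1) (.n (nat_lit 78) (nat_lit 1) (.p (nat_lit 81) (nat_lit 1) (.n (nat_lit 82) (nat_lit 1) (.p (nat_lit 83) (nat_lit 1) (.n (nat_lit 85) (nat_lit 1) (.p (nat_lit 89) (nat_lit 1) (.n (nat_lit 92) (nat_lit 1) .z)))))))))))))))))))))))))))))))))))))))))))))))))))))))))))) (.u (nat_lit 2) (.p (nat_lit 95) (nat_lit 1) (.p (nat_lit 96) (nat_lit 1) (.n (nat_lit 99) (nat_lit 2) (.p (nat_lit 100) (nat_lit 1) (.n (nat_lit 101) (nat_lit 1) (.n (nat_lit 102) (nat_lit 1) (.p (nat_lit 105) (nat_lit 1) (.p (nat_lit 107)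 (nat_lit 1) (.n (nat_lit 118) (nat_lit 1) (.n (nat_lit 120) (nat_lit 1) (.n (nat_lit 121) (nat_lit 1) (.n (nat_lit 129) (nat_lit 2) (.n (nat_lit 130) (nat_lit 1) (.n (nat_lit 148) (nat_lit 1) (.n (nat_lit 149) (nat_lit 1) (.p (nat_lit 150) (nat_lit 1) (.n (nat_lit 151) (nat_lit 2) (.n (nat_lit 153) (nat_lit 1) (.n (nat_lit 154) (nat_lit 1) (.n (nat_lit 155) (nat_lit 1) (.n (nat_lit 156) (nat_lit 1) (.n (nat_lit 157) (nat_lit 1) (.p (nat_lit 158) (nat_lit 1) (.n (nat_lit 159) (nat_lit 2) (.n (nat_lit 160) (nat_lit 1) (.p (nat_lit 161) (nat_lit 2) (.n (nat_lit 163) (nat_lit 2) (.p (nat_lit 166) (nat_lit 1) (.n (nat_lit 171) (nat_lit 1) (.n (nat_lit 172) (nat_lit 1) (.p (nat_lit 173) (nat_lit 1) (.n (nat_lit 174) (nat_lit 1) (.n (nat_lit 175) (nat_lit 1) (.n (nat_lit 195) (nat_lit 1) (.n (nat_lit 215) (nat_lit 1) (.p (nat_lit 221) (nat_lit 1) (.n (nat_lit 232) (nat_lit 1) (.n (nat_lit 234)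 (nat_lit 1) (.p (nat_lit 238) (nat_lit 1) (.n (nat_lit 243) (nat_lit 1) (.p (nat_lit 249) (nat_lit 1) (.n (nat_lit 251) (nat_lit 2) (.p (nat_lit 252) (nat_lit 1) (.n (nat_lit 253) (nat_lit 1) (.p (nat_lit 254) (nat_lit 1) (.p (nat_lit 255) (nat_lit 1) (.p (nat_lit 258) (nat_lit 3) (.n (nat_lit 261) (nat_lit 3) (.p (nat_lit 271) (nat_lit 1) (.p (nat_lit 272) (nat_lit 1) (.n (nat_lit 274) (nat_lit 1) (.p (nat_lit 275) (nat_lit 1) (.p (nat_lit 276) (nat_lit 1) (.p (nat_lit 277) (nat_lit 1) (.p (nat_lit 278) (nat_lit 1) (.p (nat_lit 280) (nat_lit 1) (.n (nat_lit 282) (nat_lit 1) (.n (nat_lit 289) (nat_lit 1) (.n (nat_lit 291) (nat_lit 1) (.n (nat_lit 294) (nat_lit 1) .z)))))))))))))))))))))))))))))))))))))))))))))))))))))))))))) (.u (nat_lit 2) (.p (nat_lit 307) (nat_lit 1) (.n (nat_lit 310) (nat_lit 1) (.p (nat_lit 311) (nat_lit 5) (.p (nat_lit 312) (nat_lit 4) (.p (nat_lit 313) (nat_lit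 1) (.p (nat_lit 314) (nat_lit 1) (.p (nat_lit 316) (nat_lit 5) (.p (nat_lit 317) (nat_lit 1) (.p (nat_lit 318) (nat_lit 1) (.p (nat_lit 319) (nat_lit 2) (.n (nat_lit 323) (nat_lit 1) (.p (nat_lit 325) (nat_lit 1) (.n (nat_lit 328) (nat_lit 6) (.p (nat_lit 329) (nat_lit 16) (.n (nat_lit 330) (nat_lit 33) (.p (nat_lit 331) (nat_lit 52) (.p (nat_lit 332) (nat_lit 4) (.p (nat_lit 333) (nat_lit 53) (.n (nat_lit 334) (nat_lit 16) (.p (nat_lit 335) (nat_lit 24) (.n (nat_lit 336) (nat_lit 23) (.n (nat_lit 337) (nat_lit 9) (.n (nat_lit 338) (nat_lit 52) (.p (nat_lit 339) (nat_lit 11) (.n (nat_lit 340) (nat_lit 10) (.n (nat_lit 341) (nat_lit 4) (.p (nat_lit 342) (nat_lit 20) (.n (nat_lit 343) (nat_lit 15) (.p (nat_lit 344) (nat_lit 20) (.n (nat_lit 345) (nat_lit 22) (.n (nat_lit 346) (nat_lit 17) (.p (nat_lit 347) (nat_lit 18) (.n (nat_lit 348) (nat_lit 30) (.n (nat_lit 349) (nat_lit 39) (.n (nat_lit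 350) (nat_lit 3) (.n (nat_lit 351) (nat_lit 18) (.n (nat_lit 352) (nat_lit 8) (.n (nat_lit 353) (nat_lit 7) (.p (nat_lit 354) (nat_lit 6) (.n (nat_lit 355) (nat_lit 20) (.n (nat_lit 356) (nat_lit 7) (.n (nat_lit 357) (nat_lit 11) (.p (nat_lit 358) (nat_lit 26) (.p (nat_lit 359) (nat_lit 21) (.n (nat_lit 360) (nat_lit 19) (.p (nat_lit 361) (nat_lit 18) (.n (nat_lit 362) (nat_lit 11) (.n (nat_lit 363) (nat_lit 14) (.p (nat_lit 364) (nat_lit 7) (.p (nat_lit 365) (nat_lit 3) (.n (nat_lit 366) (nat_lit 4) (.n (nat_lit 367) (nat_lit 14) (.n (nat_lit 368) (nat_lit 11) (.n (nat_lit 369) (nat_lit 4) (.n (nat_lit 370) (nat_lit 5) (.n (nat_lit 371) (nat_lit 2) (.p (nat_lit 372) (nat_lit 5) (.p (nat_lit 373) (nat_lit 1) (.n (nat_lit 374) (nat_lit 5) (.p (nat_lit 375) (nat_lit 3) .z)))))))))))))))))))))))))))))))))))))))))))))))))))))))))))) (.u (nat_lit 2) (.p (nat_lit 376) (nat_lit 14) (.n (nat_lit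 377) (nat_lit 1) (.n (nat_lit 378) (nat_lit 8) (.p (nat_lit 379) (nat_lit 1) (.p (nat_lit 380) (nat_lit 12) (.n (nat_lit 381) (nat_lit 13) (.p (nat_lit 382) (nat_lit 8) (.n (nat_lit 383) (nat_lit 11) (.n (nat_lit 384) (nat_lit 6) (.p (nat_lit 385) (nat_lit 4) (.p (nat_lit 386) (nat_lit 2) (.n (nat_lit 387) (nat_lit 7) (.p (nat_lit 388) (nat_lit 5) (.p (nat_lit 389) (nat_lit 7) (.n (nat_lit 392) (nat_lit 6) (.p (nat_lit 393) (nat_lit 4) (.n (nat_lit 394) (nat_lit 2) (.n (nat_lit 395) (nat_lit 1) (.p (nat_lit 396) (nat_lit 2) (.p (nat_lit 397) (nat_lit 10) (.n (nat_lit 398) (nat_lit 5) (.p (nat_lit 399) (nat_lit 5) (.n (nat_lit 401) (nat_lit 4) (.n (nat_lit 402) (nat_lit 6) (.n (nat_lit 403) (nat_lit 1) (.n (nat_lit 404) (nat_lit 4) (.n (nat_lit 405) (nat_lit 13) (.n (nat_lit 406) (nat_lit 1) (.n (nat_lit 407) (nat_lit 13) (.p (nat_lit 408) (nat_lit 27) (.n (nat_lit 409) (nat_lit 10) (.p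 (nat_lit 410) (nat_lit 18) (.p (nat_lit 411) (nat_lit 7) (.p (nat_lit 412) (nat_lit 1) (.p (nat_lit 413) (nat_lit 7) (.p (nat_lit 414) (nat_lit 6) (.p (nat_lit 415) (nat_lit 7) (.p (nat_lit 416) (nat_lit 9) (.n (nat_lit 417) (nat_lit 7) (.n (nat_lit 418) (nat_lit 1) (.n (nat_lit 419) (nat_lit 28) (.n (nat_lit 420) (nat_lit 13) (.p (nat_lit 421) (nat_lit 1) (.n (nat_lit 422) (nat_lit 8) (.p (nat_lit 423) (nat_lit 7) (.p (nat_lit 425) (nat_lit 7) (.n (nat_lit 426) (nat_lit 3) (.n (nat_lit 427) (nat_lit 7) (.p (nat_lit 428) (nat_lit 5) (.n (nat_lit 430) (nat_lit 3) (.p (nat_lit 431) (nat_lit 8) (.p (nat_lit 432) (nat_lit 6) (.p (nat_lit 433) (nat_lit 4) (.p (nat_lit 434) (nat_lit 6) .z)))))))))))))))))))))))))))))))))))))))))))))))))))))) .nil)))))))))))))))))))))))))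

noncomputable def dC1c_i204 : IL := (.e true (nat_lit 2) (nat_lit 139) (nat_lit 5) (nat_lit 14) (.e false (nat_lit 1) (nat_lit 143) (nat_lit 5) (nat_lit 14) (.e false (nat_lit 3) (nat_lit 252) (nat_lit 2) (nat_lit 17) (.e false (nat_lit 3) (nat_lit 291) (nat_lit 0) (nat_lit 19) (.e true (nat_lit 1) (nat_lit 299) (nat_lit 0) (nat_lit 19) (.e false (nat_lit 3) (nat_lit 301) (nat_lit 0) (nat_lit 19) (.e true (nat_lit 2) (nat_lit 304) (nat_lit 0) (nat_lit 19) (.e true (nat_lit 3) (nat_lit 308) (nat_lit 0) (nat_lit 19) (.e true (nat_lit 3) (nat_lit 311) (nat_lit 0) (nat_lit 19) (.e false (nat_lit 3) (nat_lit 298) (nat_lit 0) (nat_lit 19) (.e false (nat_lit 2) (nat_lit 78) (nat_lit 13) (nat_lit 8) (.e true (nat_lit 1) (nat_lit 259) (nat_lit 2) (nat_lit 17) (.e false (nat_lit 1) (nat_lit 261) (nat_lit 1) (nat_lit 18) (.e true (nat_lit 2) (nat_lit 263) (nat_lit 1) (nat_lit 18) (.e true (nat_lit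 1) (nat_lit 264) (nat_lit 1) (nat_lit 18) (.e false (nat_lit 1) (nat_lit 265) (nat_lit 1) (nat_lit 18) (.e false (nat_lit 2) (nat_lit 266) (nat_lit 1) (nat_lit 18) (.e false (nat_lit 1) (nat_lit 267) (nat_lit 1) (nat_lit 18) (.e false (nat_lit 1) (nat_lit 268) (nat_lit 1) (nat_lit 18) (.e true (nat_lit 3) (nat_lit 270) (nat_lit 1) (nat_lit 18) (.e true (nat_lit 1) (nat_lit 272) (nat_lit 1) (nat_lit 18) (.e false (nat_lit 2) (nat_lit 285) (nat_lit 1) (nat_lit 18) (.e true (nat_lit 1) (nat_lit 260) (nat_lit 1) (nat_lit 18) (.e true (nat_lit 3) (nat_lit 269) (nat_lit 1) (nat_lit 18) (.e true (nat_lit 3) (nat_lit 271) (nat_lit 1) (nat_lit 18) dC1c_i203)))))))))))))))))))))))))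

noncomputable def dC1c_i205 : IL := (.a true (nat_lit 3) (nat_lit 34) (nat_lit 35) (nat_lit 0) (nat_lit 0) (.a false (nat_lit 3) (nat_lit 34) (nat_lit 36) (nat_lit 0) (nat_lit 0) (.a true (nat_lit 2) (nat_lit 35) (nat_lit 36) (nat_lit 0) (nat_lit 0) (.e true (nat_lit 2) (nat_lit 212) (nat_lit 2) (nat_lit 17) (.e false (nat_lit 3) (nat_lit 214) (nat_lit 2) (nat_lit 17) (.e false (nat_lit 2) (nat_lit 216) (nat_lit 2) (nat_lit 17) (.e false (nat_lit 1) (nat_lit 217) (nat_lit 2) (nat_lit 17) (.e false (nat_lit 1) (nat_lit 218) (nat_lit 2) (nat_lit 17) (.e true (nat_lit 2) (nat_lit 221) (nat_lit 2) (nat_lit 17) (.e true (nat_lit 3) (nat_lit 223) (nat_lit 2) (nat_lit 17) (.e false (nat_lit 2) (nat_lit 224) (nat_lit 2) (nat_lit 17) (.e false (nat_lit 1) (nat_lit 225) (nat_lit 2) (nat_lit 17) (.e false (nat_lit 1) (nat_lit 226) (nat_lit 2) (nat_lit 17) (.e true (nat_lit 3) (nat_lit 227) (nat_lit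 2) (nat_lit 17) (.e true (nat_lit 3) (nat_lit 233) (nat_lit 2) (nat_lit 17) (.e true (nat_lit 1) (nat_lit 236) (nat_lit 2) (nat_lit 17) (.e false (nat_lit 2) (nat_lit 239) (nat_lit 2) (nat_lit 17) (.e true (nat_lit 3) (nat_lit 244) (nat_lit 2) (nat_lit 17) (.e true (nat_lit 3) (nat_lit 246) (nat_lit 2) (nat_lit 17) (.e false (nat_lit 3) (nat_lit 247) (nat_lit 2) (nat_lit 17) (.e false (nat_lit 1) (nat_lit 248) (nat_lit 2) (nat_lit 17) (.e false (nat_lit 1) (nat_lit 249) (nat_lit 2) (nat_lit 17) (.e true (nat_lit 2) (nat_lit 213) (nat_lit 2) (nat_lit 17) (.e true (nat_lit 3) (nat_lit 245) (nat_lit 2) (nat_lit 17) (.e false (nat_lit 1) (nat_lit 307) (nat_lit 0) (nat_lit 19) dC1c_i204)))))))))))))))))))))))))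

noncomputable def dC1c_i206 : IL := (.s false (nat_lit 2) (nat_lit 101) (nat_lit 1) (nat_lit 0) (nat_lit 1) false (nat_lit 21) true (nat_lit 18) false (nat_lit 11) true (nat_lit 18) true (nat_lit 19) (.s false (nat_lit 1) (nat_lit 98) (nat_lit 1) (nat_lit 1) (nat_lit 0) true (nat_lit 16) true (nat_lit 19) false (nat_lit 11) true (nat_lit 18) true (nat_lit 18) (.s false (nat_lit 1) (nat_lit 103) (nat_lit 0) (nat_lit 0) (nat_lit 1) true (nat_lit 16) true (nat_lit 18) false (nat_lit 12) true (nat_lit 19) true (nat_lit 19) (.s false (nat_lit 3) (nat_lit 105) (nat_lit 0) (nat_lit 0) (nat_lit 1) true (nat_lit 16) true (nat_lit 18) false (nat_lit 12) true (nat_lit 19) true (nat_lit 19) (.s true (nat_lit 1) (nat_lit 103) (nat_lit 0) (nat_lit 1) (nat_lit 0) false (nat_lit 20) true (nat_lit 19) false (nat_lit 12) true (nat_lit 19) true (nat_lit 18) (.s true (nat_lit 3) (nat_lit 104) (nat_lit 0)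 (nat_lit 1) (nat_lit 0) false (nat_lit 20) true (nat_lit 19) false (nat_lit 12) true (nat_lit 19) true (nat_lit 18) (.s true (nat_lit 2) (nat_lit 105) (nat_lit 0) (nat_lit 1) (nat_lit 0) false (nat_lit 20) true (nat_lit 19) false (nat_lit 12) true (nat_lit 19) true (nat_lit 18) (.a false (nat_lit 1) (nat_lit 34) (nat_lit 34) (nat_lit 0) (nat_lit 0) (.a false (nat_lit 3) (nat_lit 35) (nat_lit 35) (nat_lit 0) (nat_lit 0) (.a true (nat_lit 2) (nat_lit 36) (nat_lit 36) (nat_lit 0) (nat_lit 0) (.a false (nat_lit 1) (nat_lit 31) (nat_lit 31) (nat_lit 0) (nat_lit 0) (.a true (nat_lit 1) (nat_lit 31) (nat_lit 32) (nat_lit 0) (nat_lit 0) (.a true (nat_lit 1) (nat_lit 31) (nat_lit 33) (nat_lit 0) (nat_lit 0) (.a true (nat_lit 1) (nat_lit 31) (nat_lit 34) (nat_lit 0) (nat_lit 0) (.a false (nat_lit 1) (nat_lit 31) (nat_lit 35) (nat_lit 0) (nat_lit 0) (.a true (nat_lit 1) (nat_lit 31) (nat_lit 36)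 (nat_lit 0) (nat_lit 0) (.a false (nat_lit 1) (nat_lit 32) (nat_lit 32) (nat_lit 0) (nat_lit 0) (.a false (nat_lit 3) (nat_lit 32) (nat_lit 33) (nat_lit 0) (nat_lit 0) (.a false (nat_lit 3) (nat_lit 32) (nat_lit 34) (nat_lit 0) (nat_lit 0) (.a true (nat_lit 2) (nat_lit 32) (nat_lit 35) (nat_lit 0) (nat_lit 0) (.a false (nat_lit 2) (nat_lit 32) (nat_lit 36) (nat_lit 0) (nat_lit 0) (.a false (nat_lit 2) (nat_lit 33) (nat_lit 33) (nat_lit 0) (nat_lit 0) (.a true (nat_lit 3) (nat_lit 33) (nat_lit 34) (nat_lit 0) (nat_lit 0) (.a true (nat_lit 3) (nat_lit 33) (nat_lit 35) (nat_lit 0) (nat_lit 0) (.a false (nat_lit 3) (nat_lit 33) (nat_lit 36) (nat_lit 0) (nat_lit 0) dC1c_i205)))))))))))))))))))))))))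

noncomputable def dC1c_i207 : IL := (.s true (nat_lit 2) (nat_lit 88) (nat_lit 0) (nat_lit 2) (nat_lit 1) true (nat_lit 16) true (nat_lit 18) false (nat_lit 9) true (nat_lit 19) true (nat_lit 17) (.s true (nat_lit 2) (nat_lit 89) (nat_lit 0) (nat_lit 2) (nat_lit 1) true (nat_lit 16) true (nat_lit 18) false (nat_lit 9) true (nat_lit 19) true (nat_lit 17) (.s false (nat_lit 2) (nat_lit 90) (nat_lit 0) (nat_lit 2) (nat_lit 1) true (nat_lit 16) true (nat_lit 18) false (nat_lit 9) true (nat_lit 19) true (nat_lit 17) (.s true (nat_lit 2) (nat_lit 91) (nat_lit 0) (nat_lit 2) (nat_lit 1) true (nat_lit 16) true (nat_lit 18) false (nat_lit 9) true (nat_lit 19) true (nat_lit 17) (.s true (nat_lit 1) (nat_lit 82) (nat_lit 1) (nat_lit 0) (nat_lit 2) true (nat_lit 14) true (nat_lit 17) false (nat_lit 9) true (nat_lit 18) true (nat_lit 19) (.s true (nat_lit 3) (nat_lit 83) (nat_lit 1) (nat_lit 0) (nat_lit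 2) true (nat_lit 14) true (nat_lit 17) false (nat_lit 9) true (nat_lit 18) true (nat_lit 19) (.s false (nat_lit 2) (nat_lit 82) (nat_lit 1) (nat_lit 2) (nat_lit 0) true (nat_lit 16) true (nat_lit 19) false (nat_lit 9) true (nat_lit 18) true (nat_lit 17) (.s false (nat_lit 2) (nat_lit 83) (nat_lit 1) (nat_lit 2) (nat_lit 0) true (nat_lit 16) true (nat_lit 19) false (nat_lit 9) true (nat_lit 18) true (nat_lit 17) (.s false (nat_lit 1) (nat_lit 84) (nat_lit 1) (nat_lit 2) (nat_lit 0) true (nat_lit 16) true (nat_lit 19) false (nat_lit 9) true (nat_lit 18) true (nat_lit 17) (.s true (nat_lit 3) (nat_lit 85) (nat_lit 1) (nat_lit 2) (nat_lit 0) true (nat_lit 16) true (nat_lit 19) false (nat_lit 9) true (nat_lit 18) true (nat_lit 17) (.s true (nat_lit 2) (nat_lit 86) (nat_lit 1) (nat_lit 2) (nat_lit 0) true (nat_lit 16) true (nat_lit 19) false (nat_lit 9) true (nat_lit 18) true (nat_lit 17) (.s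 false (nat_lit 3) (nat_lit 87) (nat_lit 1) (nat_lit 2) (nat_lit 0) true (nat_lit 16) true (nat_lit 19) false (nat_lit 9) true (nat_lit 18) true (nat_lit 17) (.s true (nat_lit 2) (nat_lit 88) (nat_lit 1) (nat_lit 2) (nat_lit 0) true (nat_lit 16) true (nat_lit 19) false (nat_lit 9) true (nat_lit 18) true (nat_lit 17) (.s false (nat_lit 1) (nat_lit 90) (nat_lit 1) (nat_lit 2) (nat_lit 0) true (nat_lit 16) true (nat_lit 19) false (nat_lit 9) true (nat_lit 18) true (nat_lit 17) (.s false (nat_lit 3) (nat_lit 82) (nat_lit 2) (nat_lit 1) (nat_lit 0) true (nat_lit 15) true (nat_lit 19) false (nat_lit 9) true (nat_lit 17) true (nat_lit 18) (.s true (nat_lit 3) (nat_lit 83) (nat_lit 2) (nat_lit 1) (nat_lit 0) true (nat_lit 15) true (nat_lit 19) false (nat_lit 9) true (nat_lit 17) true (nat_lit 18) (.s true (nat_lit 2) (nat_lit 85) (nat_lit 2) (nat_lit 1) (nat_lit 0) true (nat_lit 15) true (nat_lit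 19) false (nat_lit 9) true (nat_lit 17) true (nat_lit 18) (.s false (nat_lit 2) (nat_lit 90) (nat_lit 2) (nat_lit 1) (nat_lit 0) true (nat_lit 15) true (nat_lit 19) false (nat_lit 9) true (nat_lit 17) true (nat_lit 18) (.s false (nat_lit 2) (nat_lit 93) (nat_lit 0) (nat_lit 2) (nat_lit 0) false (nat_lit 20) true (nat_lit 19) false (nat_lit 10) true (nat_lit 19) true (nat_lit 17) (.s true (nat_lit 2) (nat_lit 94) (nat_lit 0) (nat_lit 2) (nat_lit 0) false (nat_lit 20) true (nat_lit 19) false (nat_lit 10) true (nat_lit 19) true (nat_lit 17) (.s true (nat_lit 1) (nat_lit 96) (nat_lit 0) (nat_lit 2) (nat_lit 0) false (nat_lit 20) true (nat_lit 19) false (nat_lit 10) true (nat_lit 19) true (nat_lit 17) (.s true (nat_lit 2) (nat_lit 97) (nat_lit 0) (nat_lit 2) (nat_lit 0) false (nat_lit 20) true (nat_lit 19) false (nat_lit 10) true (nat_lit 19) true (nat_lit 17) (.s false (nat_lit 2) (nat_lit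 98) (nat_lit 0) (nat_lit 1) (nat_lit 1) true (nat_lit 16) true (nat_lit 18) false (nat_lit 11) true (nat_lit 19) true (nat_lit 18) (.s false (nat_lit 3) (nat_lit 99) (nat_lit 1) (nat_lit 0) (nat_lit 1) false (nat_lit 21) true (nat_lit 18) false (nat_lit 11) true (nat_lit 18) true (nat_lit 19) (.s false (nat_lit 1) (nat_lit 100) (nat_lit 1) (nat_lit 0) (nat_lit 1) false (nat_lit 21) true (nat_lit 18) false (nat_lit 11) true (nat_lit 18) true (nat_lit 19) dC1c_i206)))))))))))))))))))))))))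

noncomputable def dC1c_i208 : IL := (.s true (nat_lit 1) (nat_lit 69) (nat_lit 0) (nat_lit 2) (nat_lit 2) true (nat_lit 15) true (nat_lit 17) false (nat_lit 7) true (nat_lit 19) true (nat_lit 17) (.s true (nat_lit 3) (nat_lit 70) (nat_lit 0) (nat_lit 2) (nat_lit 2) true (nat_lit 15) true (nat_lit 17) false (nat_lit 7) true (nat_lit 19) true (nat_lit 17) (.s true (nat_lit 1) (nat_lit 73) (nat_lit 0) (nat_lit 2) (nat_lit 2) true (nat_lit 15) true (nat_lit 17) false (nat_lit 7) true (nat_lit 19) true (nat_lit 17) (.s false (nat_lit 1) (nat_lit 74) (nat_lit 0) (nat_lit 2) (nat_lit 2) true (nat_lit 15) true (nat_lit 17) false (nat_lit 7) true (nat_lit 19) true (nat_lit 17) (.s true (nat_lit 3) (nat_lit 66) (nat_lit 2) (nat_lit 0) (nat_lit 2) true (nat_lit 13) true (nat_lit 17) false (nat_lit 7) true (nat_lit 17) true (nat_lit 19) (.s false (nat_lit 3) (nat_lit 74) (nat_lit 2) (nat_lit 0)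 (nat_lit 2) true (nat_lit 13) true (nat_lit 17) false (nat_lit 7) true (nat_lit 17) true (nat_lit 19) (.s true (nat_lit 2) (nat_lit 75) (nat_lit 2) (nat_lit 0) (nat_lit 2) true (nat_lit 13) true (nat_lit 17) false (nat_lit 7) true (nat_lit 17) true (nat_lit 19) (.s false (nat_lit 3) (nat_lit 66) (nat_lit 2) (nat_lit 2) (nat_lit 0) true (nat_lit 15) true (nat_lit 19) false (nat_lit 7) true (nat_lit 17) true (nat_lit 17) (.s false (nat_lit 1) (nat_lit 67) (nat_lit 2) (nat_lit 2) (nat_lit 0) true (nat_lit 15) true (nat_lit 19) false (nat_lit 7) true (nat_lit 17) true (nat_lit 17) (.s true (nat_lit 2) (nat_lit 68) (nat_lit 2) (nat_lit 2) (nat_lit 0) true (nat_lit 15) true (nat_lit 19) false (nat_lit 7) true (nat_lit 17) true (nat_lit 17) (.s false (nat_lit 1) (nat_lit 69) (nat_lit 2) (nat_lit 2) (nat_lit 0) true (nat_lit 15) true (nat_lit 19) false (nat_lit 7) true (nat_lit 17) true (nat_lit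 17) (.s false (nat_lit 2) (nat_lit 73) (nat_lit 2) (nat_lit 2) (nat_lit 0) true (nat_lit 15) true (nat_lit 19) false (nat_lit 7) true (nat_lit 17) true (nat_lit 17) (.s false (nat_lit 3) (nat_lit 77) (nat_lit 1) (nat_lit 1) (nat_lit 2) true (nat_lit 14) true (nat_lit 17) false (nat_lit 8) true (nat_lit 18) true (nat_lit 18) (.s false (nat_lit 1) (nat_lit 78) (nat_lit 1) (nat_lit 1) (nat_lit 2) true (nat_lit 14) true (nat_lit 17) false (nat_lit 8) true (nat_lit 18) true (nat_lit 18) (.s true (nat_lit 2) (nat_lit 79) (nat_lit 1) (nat_lit 1) (nat_lit 2) true (nat_lit 14) true (nat_lit 17) false (nat_lit 8) true (nat_lit 18) true (nat_lit 18) (.s true (nat_lit 2) (nat_lit 80) (nat_lit 1) (nat_lit 1) (nat_lit 2) true (nat_lit 14) true (nat_lit 17) false (nat_lit 8) true (nat_lit 18) true (nat_lit 18) (.s true (nat_lit 3) (nat_lit 79) (nat_lit 1) (nat_lit 2) (nat_lit 1) false (nat_lit 21) true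 (nat_lit 18) false (nat_lit 8) true (nat_lit 18) true (nat_lit 17) (.s true (nat_lit 3) (nat_lit 81) (nat_lit 1) (nat_lit 2) (nat_lit 1) false (nat_lit 21) true (nat_lit 18) false (nat_lit 8) true (nat_lit 18) true (nat_lit 17) (.s true (nat_lit 2) (nat_lit 80) (nat_lit 2) (nat_lit 1) (nat_lit 1) true (nat_lit 14) true (nat_lit 18) false (nat_lit 8) true (nat_lit 17) true (nat_lit 18) (.s false (nat_lit 1) (nat_lit 82) (nat_lit 0) (nat_lit 1) (nat_lit 2) true (nat_lit 15) true (nat_lit 17) false (nat_lit 9) true (nat_lit 19) true (nat_lit 18) (.s true (nat_lit 3) (nat_lit 83) (nat_lit 0) (nat_lit 1) (nat_lit 2) true (nat_lit 15) true (nat_lit 17) false (nat_lit 9) true (nat_lit 19) true (nat_lit 18) (.s true (nat_lit 2) (nat_lit 85) (nat_lit 0) (nat_lit 1) (nat_lit 2) true (nat_lit 15) true (nat_lit 17) false (nat_lit 9) true (nat_lit 19) true (nat_lit 18) (.s false (nat_lit 2) (nat_lit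 84) (nat_lit 0) (nat_lit 2) (nat_lit 1) true (nat_lit 16) true (nat_lit 18) false (nat_lit 9) true (nat_lit 19) true (nat_lit 17) (.s false (nat_lit 2) (nat_lit 85) (nat_lit 0) (nat_lit 2) (nat_lit 1) true (nat_lit 16) true (nat_lit 18) false (nat_lit 9) true (nat_lit 19) true (nat_lit 17) (.s true (nat_lit 2) (nat_lit 86) (nat_lit 0) (nat_lit 2) (nat_lit 1) true (nat_lit 16) true (nat_lit 18) false (nat_lit 9) true (nat_lit 19) true (nat_lit 17) dC1c_i207)))))))))))))))))))))))))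

noncomputable def dC1c_i209 : IL := (.s false (nat_lit 1) (nat_lit 46) (nat_lit 0) (nat_lit 1) (nat_lit 3) true (nat_lit 12) true (nat_lit 16) false (nat_lit 4) true (nat_lit 19) true (nat_lit 18) (.s false (nat_lit 3) (nat_lit 54) (nat_lit 2) (nat_lit 2) (nat_lit 2) true (nat_lit 13) true (nat_lit 17) false (nat_lit 5) true (nat_lit 17) true (nat_lit 17) (.s false (nat_lit 2) (nat_lit 55) (nat_lit 1) (nat_lit 2) (nat_lit 2) true (nat_lit 14) true (nat_lit 17) false (nat_lit 6) true (nat_lit 18) true (nat_lit 17) (.s false (nat_lit 3) (nat_lit 56) (nat_lit 1) (nat_lit 2) (nat_lit 2) true (nat_lit 14) true (nat_lit 17) false (nat_lit 6) true (nat_lit 18) true (nat_lit 17) (.s true (nat_lit 1) (nat_lit 57) (nat_lit 1) (nat_lit 2) (nat_lit 2) true (nat_lit 14) true (nat_lit 17) false (nat_lit 6) true (nat_lit 18) true (nat_lit 17) (.s false (nat_lit 1) (nat_lit 58) (nat_lit 1) (nat_lit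 2) (nat_lit 2) true (nat_lit 14) true (nat_lit 17) false (nat_lit 6) true (nat_lit 18) true (nat_lit 17) (.s false (nat_lit 3) (nat_lit 64) (nat_lit 1) (nat_lit 2) (nat_lit 2) true (nat_lit 14) true (nat_lit 17) false (nat_lit 6) true (nat_lit 18) true (nat_lit 17) (.s false (nat_lit 3) (nat_lit 55) (nat_lit 2) (nat_lit 1) (nat_lit 2) true (nat_lit 13) true (nat_lit 17) false (nat_lit 6) true (nat_lit 17) true (nat_lit 18) (.s false (nat_lit 1) (nat_lit 57) (nat_lit 2) (nat_lit 1) (nat_lit 2) true (nat_lit 13) true (nat_lit 17) false (nat_lit 6) true (nat_lit 17) true (nat_lit 18) (.s true (nat_lit 3) (nat_lit 58) (nat_lit 2) (nat_lit 1) (nat_lit 2) true (nat_lit 13) true (nat_lit 17) false (nat_lit 6) true (nat_lit 17) true (nat_lit 18) (.s false (nat_lit 1) (nat_lit 59) (nat_lit 2) (nat_lit 1) (nat_lit 2) true (nat_lit 13) true (nat_lit 17) false (nat_lit 6) true (nat_lit 17) true (nat_lit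 18) (.s false (nat_lit 1) (nat_lit 60) (nat_lit 2) (nat_lit 1) (nat_lit 2) true (nat_lit 13) true (nat_lit 17) false (nat_lit 6) true (nat_lit 17) true (nat_lit 18) (.s true (nat_lit 2) (nat_lit 61) (nat_lit 2) (nat_lit 1) (nat_lit 2) true (nat_lit 13) true (nat_lit 17) false (nat_lit 6) true (nat_lit 17) true (nat_lit 18) (.s false (nat_lit 2) (nat_lit 64) (nat_lit 2) (nat_lit 1) (nat_lit 2) true (nat_lit 13) true (nat_lit 17) false (nat_lit 6) true (nat_lit 17) true (nat_lit 18) (.s false (nat_lit 3) (nat_lit 65) (nat_lit 2) (nat_lit 1) (nat_lit 2) true (nat_lit 13) true (nat_lit 17) false (nat_lit 6) true (nat_lit 17) true (nat_lit 18) (.s true (nat_lit 2) (nat_lit 57) (nat_lit 2) (nat_lit 2) (nat_lit 1) true (nat_lit 14) true (nat_lit 18) false (nat_lit 6) true (nat_lit 17) true (nat_lit 17) (.s false (nat_lit 2) (nat_lit 58) (nat_lit 2) (nat_lit 2) (nat_lit 1) true (nat_lit 14) true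 (nat_lit 18) false (nat_lit 6) true (nat_lit 17) true (nat_lit 17) (.s true (nat_lit 3) (nat_lit 59) (nat_lit 2) (nat_lit 2) (nat_lit 1) true (nat_lit 14) true (nat_lit 18) false (nat_lit 6) true (nat_lit 17) true (nat_lit 17) (.s false (nat_lit 3) (nat_lit 61) (nat_lit 2) (nat_lit 2) (nat_lit 1) true (nat_lit 14) true (nat_lit 18) false (nat_lit 6) true (nat_lit 17) true (nat_lit 17) (.s false (nat_lit 1) (nat_lit 62) (nat_lit 2) (nat_lit 2) (nat_lit 1) true (nat_lit 14) true (nat_lit 18) false (nat_lit 6) true (nat_lit 17) true (nat_lit 17) (.s false (nat_lit 1) (nat_lit 63) (nat_lit 2) (nat_lit 2) (nat_lit 1) true (nat_lit 14) true (nat_lit 18) false (nat_lit 6) true (nat_lit 17) true (nat_lit 17) (.s true (nat_lit 3) (nat_lit 64) (nat_lit 2) (nat_lit 2) (nat_lit 1) true (nat_lit 14) true (nat_lit 18) false (nat_lit 6) true (nat_lit 17) true (nat_lit 17) (.s true (nat_lit 1) (nat_lit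 65) (nat_lit 2) (nat_lit 2) (nat_lit 1) true (nat_lit 14) true (nat_lit 18) false (nat_lit 6) true (nat_lit 17) true (nat_lit 17) (.s true (nat_lit 2) (nat_lit 67) (nat_lit 0) (nat_lit 2) (nat_lit 2) true (nat_lit 15) true (nat_lit 17) false (nat_lit 7) true (nat_lit 19) true (nat_lit 17) (.s false (nat_lit 2) (nat_lit 68) (nat_lit 0) (nat_lit 2) (nat_lit 2) true (nat_lit 15) true (nat_lit 17) false (nat_lit 7) true (nat_lit 19) true (nat_lit 17) dC1c_i208)))))))))))))))))))))))))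

noncomputable def dC1c_i210 : IL := (.s false (nat_lit 1) (nat_lit 28) (nat_lit 5) (nat_lit 1) (nat_lit 2) true (nat_lit 6) true (nat_lit 17) true (nat_lit 1) true (nat_lit 14) true (nat_lit 18) (.s true (nat_lit 2) (nat_lit 28) (nat_lit 5) (nat_lit 2) (nat_lit 1) true (nat_lit 8) true (nat_lit 18) true (nat_lit 1) true (nat_lit 14) true (nat_lit 17) (.s true (nat_lit 2) (nat_lit 29) (nat_lit 6) (nat_lit 1) (nat_lit 1) true (nat_lit 6) true (nat_lit 18) true (nat_lit 1) true (nat_lit 13) true (nat_lit 18) (.s false (nat_lit 2) (nat_lit 30) (nat_lit 6) (nat_lit 1) (nat_lit 1) true (nat_lit 6) true (nat_lit 18) true (nat_lit 1) true (nat_lit 13) true (nat_lit 18) (.s false (nat_lit 2) (nat_lit 35) (nat_lit 0) (nat_lit 1) (nat_lit 6) true (nat_lit 7) true (nat_lit 13) true (nat_lit 0) true (nat_lit 19) true (nat_lit 18) (.s false (nat_lit 1) (nat_lit 31) (nat_lit 0) (nat_lit 2) (nat_lit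 5) true (nat_lit 9) true (nat_lit 14) true (nat_lit 0) true (nat_lit 19) true (nat_lit 17) (.s false (nat_lit 1) (nat_lit 32) (nat_lit 0) (nat_lit 2) (nat_lit 5) true (nat_lit 9) true (nat_lit 14) true (nat_lit 0) true (nat_lit 19) true (nat_lit 17) (.s false (nat_lit 2) (nat_lit 35) (nat_lit 0) (nat_lit 2) (nat_lit 5) true (nat_lit 9) true (nat_lit 14) true (nat_lit 0) true (nat_lit 19) true (nat_lit 17) (.s true (nat_lit 2) (nat_lit 36) (nat_lit 0) (nat_lit 2) (nat_lit 5) true (nat_lit 9) true (nat_lit 14) true (nat_lit 0) true (nat_lit 19) true (nat_lit 17) (.s false (nat_lit 2) (nat_lit 35) (nat_lit 1) (nat_lit 0) (nat_lit 6) true (nat_lit 6) true (nat_lit 13) true (nat_lit 0) true (nat_lit 18) true (nat_lit 19) (.s false (nat_lit 1) (nat_lit 31) (nat_lit 2) (nat_lit 0) (nat_lit 5) true (nat_lit 6) true (nat_lit 14) true (nat_lit 0) true (nat_lit 17) true (nat_lit 19) (.s false (nat_lit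 3) (nat_lit 32) (nat_lit 2) (nat_lit 0) (nat_lit 5) true (nat_lit 6) true (nat_lit 14) true (nat_lit 0) true (nat_lit 17) true (nat_lit 19) (.s false (nat_lit 2) (nat_lit 31) (nat_lit 2) (nat_lit 1) (nat_lit 4) true (nat_lit 7) true (nat_lit 15) true (nat_lit 0) true (nat_lit 17) true (nat_lit 18) (.s false (nat_lit 2) (nat_lit 31) (nat_lit 3) (nat_lit 2) (nat_lit 2) true (nat_lit 9) true (nat_lit 17) true (nat_lit 0) true (nat_lit 16) true (nat_lit 17) (.s true (nat_lit 1) (nat_lit 35) (nat_lit 6) (nat_lit 0) (nat_lit 1) true (nat_lit 6) true (nat_lit 18) true (nat_lit 0) true (nat_lit 13) true (nat_lit 19) (.s true (nat_lit 3) (nat_lit 37) (nat_lit 0) (nat_lit 2) (nat_lit 4) true (nat_lit 10) true (nat_lit 15) false (nat_lit 1) true (nat_lit 19) true (nat_lit 17) (.s true (nat_lit 2) (nat_lit 37) (nat_lit 6) (nat_lit 0) (nat_lit 0) true (nat_lit 7) true (nat_lit 19) false (nat_lit 1)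 true (nat_lit 13) true (nat_lit 19) (.s false (nat_lit 2) (nat_lit 40) (nat_lit 0) (nat_lit 1) (nat_lit 5) true (nat_lit 9) true (nat_lit 14) false (nat_lit 2) true (nat_lit 19) true (nat_lit 18) (.s true (nat_lit 1) (nat_lit 40) (nat_lit 1) (nat_lit 2) (nat_lit 3) true (nat_lit 11) true (nat_lit 16) false (nat_lit 2) true (nat_lit 18) true (nat_lit 17) (.s false (nat_lit 2) (nat_lit 40) (nat_lit 1) (nat_lit 5) (nat_lit 0) true (nat_lit 16) true (nat_lit 19) false (nat_lit 2) true (nat_lit 18) true (nat_lit 14) (.s true (nat_lit 1) (nat_lit 42) (nat_lit 1) (nat_lit 5) (nat_lit 0) true (nat_lit 16) true (nat_lit 19) false (nat_lit 2) true (nat_lit 18) true (nat_lit 14) (.s false (nat_lit 3) (nat_lit 40) (nat_lit 4) (nat_lit 1) (nat_lit 1) true (nat_lit 9) true (nat_lit 18) false (nat_lit 2) true (nat_lit 15) true (nat_lit 18) (.s true (nat_lit 3) (nat_lit 44) (nat_lit 0) (nat_lit 3) (nat_lit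 2) true (nat_lit 15) true (nat_lit 17) false (nat_lit 3) true (nat_lit 19) true (nat_lit 16) (.s false (nat_lit 2) (nat_lit 45) (nat_lit 0) (nat_lit 3) (nat_lit 2) true (nat_lit 15) true (nat_lit 17) false (nat_lit 3) true (nat_lit 19) true (nat_lit 16) (.s true (nat_lit 2) (nat_lit 44) (nat_lit 4) (nat_lit 0) (nat_lit 1) true (nat_lit 9) true (nat_lit 18) false (nat_lit 3) true (nat_lit 15) true (nat_lit 19) dC1c_i209)))))))))))))))))))))))))

noncomputable def dC1c_i211 : IL := (.s true (nat_lit 3) (nat_lit 21) (nat_lit 2) (nat_lit 2) (nat_lit 5) true (nat_lit 6) true (nat_lit 14) true (nat_lit 3) true (nat_lit 17) true (nat_lit 17) (.s true (nat_lit 3) (nat_lit 21) (nat_lit 2) (nat_lit 5) (nat_lit 2) true (nat_lit 13) true (nat_lit 17) true (nat_lit 3) true (nat_lit 17) true (nat_lit 14) (.s true (nat_lit 3) (nat_lit 20) (nat_lit 2) (nat_lit 6) (nat_lit 1) true (nat_lit 14) true (nat_lit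 18) true (nat_lit 3) true (nat_lit 17) true (nat_lit 13) (.s false (nat_lit 3) (nat_lit 20) (nat_lit 5) (nat_lit 2) (nat_lit 2) true (nat_lit 6) true (nat_lit 17) true (nat_lit 3) true (nat_lit 14) true (nat_lit 17) (.s false (nat_lit 3) (nat_lit 21) (nat_lit 5) (nat_lit 2) (nat_lit 2) true (nat_lit 6) true (nat_lit 17) true (nat_lit 3) true (nat_lit 14) true (nat_lit 17) (.s false (nat_lit 1) (nat_lit 21) (nat_lit 6) (nat_lit 1) (nat_lit 2) true (nat_lit 5) true (nat_lit 17) true (nat_lit 3) true (nat_lit 13) true (nat_lit 18) (.s true (nat_lit 2) (nat_lit 20) (nat_lit 6) (nat_lit 2) (nat_lit 1) true (nat_lit 6) true (nat_lit 18) true (nat_lit 3) true (nat_lit 13) true (nat_lit 17) (.s true (nat_lit 3) (nat_lit 21) (nat_lit 6) (nat_lit 2) (nat_lit 1) true (nat_lit 6) true (nat_lit 18) true (nat_lit 3) true (nat_lit 13) true (nat_lit 17) (.s false (nat_lit 2) (nat_lit 24) (nat_lit 0)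 (nat_lit 2) (nat_lit 6) true (nat_lit 7) true (nat_lit 13) true (nat_lit 2) true (nat_lit 19) true (nat_lit 17) (.s true (nat_lit 2) (nat_lit 25) (nat_lit 0) (nat_lit 2) (nat_lit 6) true (nat_lit 7) true (nat_lit 13) true (nat_lit 2) true (nat_lit 19) true (nat_lit 17) (.s false (nat_lit 2) (nat_lit 24) (nat_lit 0) (nat_lit 6) (nat_lit 2) true (nat_lit 15) true (nat_lit 17) true (nat_lit 2) true (nat_lit 19) true (nat_lit 13) (.s true (nat_lit 3) (nat_lit 24) (nat_lit 2) (nat_lit 2) (nat_lit 4) true (nat_lit 7) true (nat_lit 15) true (nat_lit 2) true (nat_lit 17) true (nat_lit 17) (.s true (nat_lit 3) (nat_lit 25) (nat_lit 2) (nat_lit 2) (nat_lit 4) true (nat_lit 7) true (nat_lit 15) true (nat_lit 2) true (nat_lit 17) true (nat_lit 17) (.s true (nat_lit 2) (nat_lit 24) (nat_lit 2) (nat_lit 6) (nat_lit 0) true (nat_lit 15) true (nat_lit 19) true (nat_lit 2) true (nat_lit 17) true (nat_lit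 13) (.s true (nat_lit 2) (nat_lit 25) (nat_lit 2) (nat_lit 6) (nat_lit 0) true (nat_lit 15) true (nat_lit 19) true (nat_lit 2) true (nat_lit 17) true (nat_lit 13) (.s false (nat_lit 2) (nat_lit 25) (nat_lit 4) (nat_lit 2) (nat_lit 2) true (nat_lit 7) true (nat_lit 17) true (nat_lit 2) true (nat_lit 15) true (nat_lit 17) (.s true (nat_lit 1) (nat_lit 24) (nat_lit 6) (nat_lit 0) (nat_lit 2) true (nat_lit 5) true (nat_lit 17) true (nat_lit 2) true (nat_lit 13) true (nat_lit 19) (.s false (nat_lit 2) (nat_lit 24) (nat_lit 6) (nat_lit 2) (nat_lit 0) true (nat_lit 7) true (nat_lit 19) true (nat_lit 2) true (nat_lit 13) true (nat_lit 17) (.s false (nat_lit 1) (nat_lit 29) (nat_lit 1) (nat_lit 1) (nat_lit 6) true (nat_lit 6) true (nat_lit 13) true (nat_lit 1) true (nat_lit 18) true (nat_lit 18) (.s false (nat_lit 3) (nat_lit 30) (nat_lit 1) (nat_lit 1) (nat_lit 6) true (nat_lit 6) true (nat_lit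 13) true (nat_lit 1) true (nat_lit 18) true (nat_lit 18) (.s true (nat_lit 2) (nat_lit 29) (nat_lit 1) (nat_lit 2) (nat_lit 5) true (nat_lit 8) true (nat_lit 14) true (nat_lit 1) true (nat_lit 18) true (nat_lit 17) (.s false (nat_lit 3) (nat_lit 28) (nat_lit 1) (nat_lit 5) (nat_lit 2) true (nat_lit 14) true (nat_lit 17) true (nat_lit 1) true (nat_lit 18) true (nat_lit 14) (.s true (nat_lit 1) (nat_lit 28) (nat_lit 2) (nat_lit 1) (nat_lit 5) true (nat_lit 6) true (nat_lit 14) true (nat_lit 1) true (nat_lit 17) true (nat_lit 18) (.s true (nat_lit 2) (nat_lit 30) (nat_lit 2) (nat_lit 1) (nat_lit 5) true (nat_lit 6) true (nat_lit 14) true (nat_lit 1) true (nat_lit 17) true (nat_lit 18) (.s true (nat_lit 1) (nat_lit 28) (nat_lit 2) (nat_lit 5) (nat_lit 1) true (nat_lit 14) true (nat_lit 18) true (nat_lit 1) true (nat_lit 17) true (nat_lit 14) dC1c_i210)))))))))))))))))))))))))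

noncomputable def dC1c_i212 : IL := (.s true (nat_lit 2) (nat_lit 15) (nat_lit 10) (nat_lit 2) (nat_lit 1) true (nat_lit 2) true (nat_lit 18) true (nat_lit 7) true (nat_lit 9) true (nat_lit 17) (.s true (nat_lit 1) (nat_lit 14) (nat_lit 13) (nat_lit 0) (nat_lit 2) false (nat_lit 1) true (nat_lit 17) true (nat_lit 7) true (nat_lit 8) true (nat_lit 19) (.s true (nat_lit 1) (nat_lit 15) (nat_lit 13) (nat_lit 0) (nat_lit 2) false (nat_lit 1) true (nat_lit 17) true (nat_lit 7) true (nat_lit 8) true (nat_lit 19) (.s false (nat_lit 1) (nat_lit 14) (nat_lit 13) (nat_lit 2) (nat_lit 0) true (nat_lit 2) true (nat_lit 19) true (nat_lit 7) true (nat_lit 8) true (nat_lit 17) (.s false (nat_lit 1) (nat_lit 16) (nat_lit 0) (nat_lit 0) (nat_lit 16) true (nat_lit 0) true (nat_lit 6) true (nat_lit 6) true (nat_lit 19) true (nat_lit 19) (.s true (nat_lit 3) (nat_lit 17) (nat_lit 0) (nat_lit 0) (nat_lit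 17) true (nat_lit 0) true (nat_lit 6) true (nat_lit 6) true (nat_lit 19) true (nat_lit 19) (.s false (nat_lit 2) (nat_lit 16) (nat_lit 0) (nat_lit 1) (nat_lit 14) true (nat_lit 1) true (nat_lit 7) true (nat_lit 6) true (nat_lit 19) true (nat_lit 18) (.s false (nat_lit 1) (nat_lit 16) (nat_lit 0) (nat_lit 17) (nat_lit 0) false (nat_lit 20) true (nat_lit 19) true (nat_lit 6) true (nat_lit 19) true (nat_lit 6) (.s true (nat_lit 2) (nat_lit 16) (nat_lit 1) (nat_lit 9) (nat_lit 2) true (nat_lit 14) true (nat_lit 17) true (nat_lit 6) true (nat_lit 18) true (nat_lit 10) (.s true (nat_lit 2) (nat_lit 17) (nat_lit 2) (nat_lit 7) (nat_lit 2) true (nat_lit 13) true (nat_lit 17) true (nat_lit 6) true (nat_lit 17) true (nat_lit 12) (.s true (nat_lit 3) (nat_lit 16) (nat_lit 7) (nat_lit 2) (nat_lit 2) true (nat_lit 3) true (nat_lit 17) true (nat_lit 6) true (nat_lit 12) true (nat_lit 17) (.s false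 (nat_lit 1) (nat_lit 17) (nat_lit 7) (nat_lit 2) (nat_lit 2) true (nat_lit 3) true (nat_lit 17) true (nat_lit 6) true (nat_lit 12) true (nat_lit 17) (.s true (nat_lit 3) (nat_lit 16) (nat_lit 9) (nat_lit 1) (nat_lit 2) true (nat_lit 1) true (nat_lit 17) true (nat_lit 6) true (nat_lit 10) true (nat_lit 18) (.s false (nat_lit 2) (nat_lit 16) (nat_lit 15) (nat_lit 1) (nat_lit 0) true (nat_lit 1) true (nat_lit 19) true (nat_lit 6) true (nat_lit 7) true (nat_lit 18) (.s false (nat_lit 1) (nat_lit 18) (nat_lit 0) (nat_lit 0) (nat_lit 13) true (nat_lit 2) true (nat_lit 8) true (nat_lit 5) true (nat_lit 19) true (nat_lit 19) (.s false (nat_lit 3) (nat_lit 18) (nat_lit 0) (nat_lit 2) (nat_lit 8) true (nat_lit 4) true (nat_lit 11) true (nat_lit 5) true (nat_lit 19) true (nat_lit 17) (.s false (nat_lit 1) (nat_lit 18) (nat_lit 0) (nat_lit 3) (nat_lit 5) true (nat_lit 9) true (nat_lit 14) true (nat_lit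 5) true (nat_lit 19) true (nat_lit 16) (.s false (nat_lit 1) (nat_lit 18) (nat_lit 1) (nat_lit 9) (nat_lit 1) false (nat_lit 21) true (nat_lit 18) true (nat_lit 5) true (nat_lit 18) true (nat_lit 10) (.s true (nat_lit 2) (nat_lit 18) (nat_lit 2) (nat_lit 0) (nat_lit 8) true (nat_lit 2) true (nat_lit 11) true (nat_lit 5) true (nat_lit 17) true (nat_lit 19) (.s true (nat_lit 1) (nat_lit 18) (nat_lit 2) (nat_lit 7) (nat_lit 1) true (nat_lit 14) true (nat_lit 18) true (nat_lit 5) true (nat_lit 17) true (nat_lit 12) (.s false (nat_lit 3) (nat_lit 18) (nat_lit 7) (nat_lit 2) (nat_lit 1) true (nat_lit 4) true (nat_lit 18) true (nat_lit 5) true (nat_lit 12) true (nat_lit 17) (.s true (nat_lit 2) (nat_lit 20) (nat_lit 1) (nat_lit 6) (nat_lit 2) true (nat_lit 14) true (nat_lit 17) true (nat_lit 3) true (nat_lit 18) true (nat_lit 13) (.s false (nat_lit 2) (nat_lit 21) (nat_lit 1) (nat_lit 6) (nat_lit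 2) true (nat_lit 14) true (nat_lit 17) true (nat_lit 3) true (nat_lit 18) true (nat_lit 13) (.s false (nat_lit 3) (nat_lit 20) (nat_lit 2) (nat_lit 1) (nat_lit 6) true (nat_lit 5) true (nat_lit 13) true (nat_lit 3) true (nat_lit 17) true (nat_lit 18) (.s true (nat_lit 1) (nat_lit 20) (nat_lit 2) (nat_lit 2) (nat_lit 5) true (nat_lit 6) true (nat_lit 14) true (nat_lit 3) true (nat_lit 17) true (nat_lit 17) dC1c_i211)))))))))))))))))))))))))

noncomputable def dC1c_i213 : IL := (.e true (nat_lit 1) (nat_lit 74) (nat_lit 15) (nat_lit 7) (.e true (nat_lit 3) (nat_lit 290) (nat_lit 0) (nat_lit 19) (.e true (nat_lit 3) (nat_lit 313) (nat_lit 0) (nat_lit 19) (.e false (nat_lit 2) (nat_lit 154) (nat_lit 4) (nat_lit 15) (.e false (nat_lit 2) (nat_lit 233) (nat_lit 2) (nat_lit 17) (.e true (nat_lit 1) (nat_lit 234) (nat_lit 2) (nat_lit 17) (.e true (nat_lit 2) (nat_lit 235) (nat_lit 2) (nat_lit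 17) (.e true (nat_lit 3) (nat_lit 236) (nat_lit 2) (nat_lit 17) (.e true (nat_lit 2) (nat_lit 237) (nat_lit 2) (nat_lit 17) (.e true (nat_lit 1) (nat_lit 239) (nat_lit 2) (nat_lit 17) (.e true (nat_lit 2) (nat_lit 241) (nat_lit 2) (nat_lit 17) (.e true (nat_lit 1) (nat_lit 242) (nat_lit 2) (nat_lit 17) (.e true (nat_lit 3) (nat_lit 243) (nat_lit 2) (nat_lit 17) (.e true (nat_lit 3) (nat_lit 246) (nat_lit 2) (nat_lit 17) (.e true (nat_lit 2) (nat_lit 248) (nat_lit 2) (nat_lit 17) (.e true (nat_lit 2) (nat_lit 249) (nat_lit 2) (nat_lit 17) (.e false (nat_lit 2) (nat_lit 253) (nat_lit 2) (nat_lit 17) (.e true (nat_lit 2) (nat_lit 232) (nat_lit 2) (nat_lit 17) (.e true (nat_lit 3) (nat_lit 258) (nat_lit 2) (nat_lit 17) (.e true (nat_lit 2) (nat_lit 256) (nat_lit 2) (nat_lit 17) (.e true (nat_lit 1) (nat_lit 257) (nat_lit 2) (nat_lit 17) (.e false (nat_lit 3) (nat_lit 225) (nat_lit 2) (nat_lit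 17) (.e false (nat_lit 2) (nat_lit 259) (nat_lit 2) (nat_lit 17) (.u (nat_lit 2) (.n (nat_lit 0) (nat_lit 1) (.p (nat_lit 1) (nat_lit 1) (.n (nat_lit 2) (nat_lit 5) (.n (nat_lit 4) (nat_lit 4) (.p (nat_lit 5) (nat_lit 4) (.p (nat_lit 6) (nat_lit 3) (.n (nat_lit 7) (nat_lit 4) (.p (nat_lit 8) (nat_lit 5) (.n (nat_lit 9) (nat_lit 2) (.n (nat_lit 10) (nat_lit 3) (.p (nat_lit 11) (nat_lit 1) (.p (nat_lit 12) (nat_lit 3) (.n (nat_lit 13) (nat_lit 1) (.n (nat_lit 14) (nat_lit 5) (.p (nat_lit 15) (nat_lit 2) (.p (nat_lit 17) (nat_lit 2) (.n (nat_lit 19) (nat_lit 9) (.p (nat_lit 20) (nat_lit 1) (.n (nat_lit 23) (nat_lit 1) (.p (nat_lit 24) (nat_lit 2) (.p (nat_lit 25) (nat_lit 3) (.p (nat_lit 26) (nat_lit 2) (.n (nat_lit 27) (nat_lit 3) (.n (nat_lit 29) (nat_lit 1) (.n (nat_lit 30) (nat_lit 2) (.n (nat_lit 31) (nat_lit 4) (.n (nat_lit 32) (nat_lit 2) (.p (nat_lit 33) (nat_lit 1) (.p (nat_lit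 34) (nat_lit 4) (.p (nat_lit 35) (nat_lit 1) (.n (nat_lit 36) (nat_lit 5) (.p (nat_lit 37) (nat_lit 4) (.n (nat_lit 38) (nat_lit 1) (.p (nat_lit 40) (nat_lit 6) (.p (nat_lit 41) (nat_lit 4) (.n (nat_lit 45) (nat_lit 2) (.p (nat_lit 46) (nat_lit 1) (.n (nat_lit 49) (nat_lit 1) (.p (nat_lit 53) (nat_lit 4) (.p (nat_lit 54) (nat_lit 1) (.n (nat_lit 55) (nat_lit 2) (.p (nat_lit 57) (nat_lit 1) (.p (nat_lit 58) (nat_lit 1) (.n (nat_lit 59) (nat_lit 1) (.n (nat_lit 60) (nat_lit 2) (.p (nat_lit 62) (nat_lit 1) (.p (nat_lit 64) (nat_lit 1) (.n (nat_lit 65) (nat_lit 1) (.n (nat_lit 69) (nat_lit 2) (.n (nat_lit 327) (nat_lit 3) (.n (nat_lit 328) (nat_lit 2) (.p (nat_lit 329) (nat_lit 7) (.n (nat_lit 330) (nat_lit 7) (.p (nat_lit 331) (nat_lit 4) (.p (nat_lit 332) (nat_lit 4) (.p (nat_lit 333) (nat_lit 13) (.p (nat_lit 334) (nat_lit 1) (.p (nat_lit 335) (nat_lit 3) (.p (nat_lit 336) (nat_lit 5)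 (.n (nat_lit 337) (nat_lit 2) .z)))))))))))))))))))))))))))))))))))))))))))))))))))))))))))) (.u (nat_lit 2) (.n (nat_lit 338) (nat_lit 3) (.n (nat_lit 339) (nat_lit 5) (.n (nat_lit 341) (nat_lit 2) (.p (nat_lit 342) (nat_lit 4) (.n (nat_lit 343) (nat_lit 3) (.p (nat_lit 344) (nat_lit 4) (.p (nat_lit 345) (nat_lit 2) (.p (nat_lit 346) (nat_lit 2) (.p (nat_lit 347) (nat_lit 12) (.n (nat_lit 348) (nat_lit 6) (.n (nat_lit 349) (nat_lit 3) (.n (nat_lit 350) (nat_lit 7) (.p (nat_lit 351) (nat_lit 1) (.n (nat_lit 352) (nat_lit 6) (.n (nat_lit 353) (nat_lit 3) (.p (nat_lit 354) (nat_lit 5) (.n (nat_lit 355) (nat_lit 3) (.n (nat_lit 356) (nat_lit 1) (.p (nat_lit 357) (nat_lit 7) (.p (nat_lit 358) (nat_lit 4) (.n (nat_lit 359) (nat_lit 2) (.n (nat_lit 360) (nat_lit 7) (.p (nat_lit 361) (nat_lit 5) (.n (nat_lit 362) (nat_lit 1) (.n (nat_lit 363) (nat_lit 2) (.p (nat_lit 364) (nat_lit 2) (.p (nat_lit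 365) (nat_lit 4) (.p (nat_lit 366) (nat_lit 4) (.n (nat_lit 367) (nat_lit 1) (.n (nat_lit 368) (nat_lit 3) (.n (nat_lit 369) (nat_lit 1) (.n (nat_lit 371) (nat_lit 1) (.n (nat_lit 374) (nat_lit 1) (.p (nat_lit 376) (nat_lit 1) (.p (nat_lit 377) (nat_lit 1) (.n (nat_lit 378) (nat_lit 1) (.n (nat_lit 379) (nat_lit 1) (.n (nat_lit 380) (nat_lit 1) (.n (nat_lit 381) (nat_lit 3) (.p (nat_lit 384) (nat_lit 2) (.p (nat_lit 386) (nat_lit 1) (.n (nat_lit 387) (nat_lit 1) (.p (nat_lit 388) (nat_lit 2) (.n (nat_lit 389) (nat_lit 4) (.p (nat_lit 392) (nat_lit 2) (.p (nat_lit 393) (nat_lit 2) (.p (nat_lit 394) (nat_lit 3) (.n (nat_lit 397) (nat_lit 1) (.n (nat_lit 401) (nat_lit 2) (.n (nat_lit 402) (nat_lit 2) (.n (nat_lit 403) (nat_lit 1) (.p (nat_lit 404) (nat_lit 1) (.n (nat_lit 407) (nat_lit 1) (.n (nat_lit 409) (nat_lit 1) (.p (nat_lit 412) (nat_lit 1) (.n (nat_lit 420) (nat_lit 1) (.p (nat_lit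 425) (nat_lit 1) (.n (nat_lit 430) (nat_lit 1) (.p (nat_lit 433) (nat_lit 1) .z))))))))))))))))))))))))))))))))))))))))))))))))))))))))))) .nil)))))))))))))))))))))))))

noncomputable def dC1c_i214 : IL := (.e true (nat_lit 2) (nat_lit 264) (nat_lit 1) (nat_lit 18) (.e false (nat_lit 2) (nat_lit 266) (nat_lit 1) (nat_lit 18) (.e true (nat_lit 2) (nat_lit 267) (nat_lit 1) (nat_lit 18) (.e true (nat_lit 3) (nat_lit 268) (nat_lit 1) (nat_lit 18) (.e false (nat_lit 1) (nat_lit 269) (nat_lit 1) (nat_lit 18) (.e true (nat_lit 2) (nat_lit 273) (nat_lit 1) (nat_lit 18) (.e false (nat_lit 2) (nat_lit 274) (nat_lit 1) (nat_lit 18) (.e false (nat_lit 2) (nat_lit 277) (nat_lit 1) (nat_lit 18) (.e false (nat_lit 3) (nat_lit 278) (nat_lit 1) (nat_lit 18) (.e true (nat_lit 1) (nat_lit 279) (nat_lit 1) (nat_lit 18) (.e false (nat_lit 3) (nat_lit 280) (nat_lit 1) (nat_lit 18) (.e false (nat_lit 3) (nat_lit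 286) (nat_lit 1) (nat_lit 18) (.e false (nat_lit 1) (nat_lit 287) (nat_lit 1) (nat_lit 18) (.e true (nat_lit 2) (nat_lit 289) (nat_lit 1) (nat_lit 18) (.e true (nat_lit 2) (nat_lit 285) (nat_lit 1) (nat_lit 18) (.e true (nat_lit 1) (nat_lit 265) (nat_lit 1) (nat_lit 18) (.e false (nat_lit 2) (nat_lit 282) (nat_lit 1) (nat_lit 18) (.e false (nat_lit 1) (nat_lit 271) (nat_lit 1) (nat_lit 18) (.e false (nat_lit 1) (nat_lit 260) (nat_lit 1) (nat_lit 18) (.e false (nat_lit 2) (nat_lit 281) (nat_lit 1) (nat_lit 18) (.e false (nat_lit 2) (nat_lit 283) (nat_lit 1) (nat_lit 18) (.e false (nat_lit 3) (nat_lit 272) (nat_lit 1) (nat_lit 18) (.e false (nat_lit 3) (nat_lit 270) (nat_lit 1) (nat_lit 18) (.e true (nat_lit 1) (nat_lit 61) (nat_lit 16) (nat_lit 6) (.e false (nat_lit 1) (nat_lit 70) (nat_lit 15) (nat_lit 7) dC1c_i213)))))))))))))))))))))))))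

noncomputable def dC1c_i215 : IL := (.e false (nat_lit 3) (nat_lit 293) (nat_lit 0) (nat_lit 19) (.e false (nat_lit 2) (nat_lit 294) (nat_lit 0) (nat_lit 19) (.e true (nat_lit 2) (nat_lit 295) (nat_lit 0) (nat_lit 19) (.e false (nat_lit 1) (nat_lit 296) (nat_lit 0) (nat_lit 19) (.e true (nat_lit 1) (nat_lit 297) (nat_lit 0) (nat_lit 19) (.e true (nat_lit 3) (nat_lit 298) (nat_lit 0) (nat_lit 19) (.e true (nat_lit 1) (nat_lit 299) (nat_lit 0) (nat_lit 19) (.e false (nat_lit 3) (nat_lit 301) (nat_lit 0) (nat_lit 19) (.e true (nat_lit 2) (nat_lit 302) (nat_lit 0) (nat_lit 19) (.e false (nat_lit 3) (nat_lit 303) (nat_lit 0) (nat_lit 19) (.e true (nat_lit 1) (nat_lit 304) (nat_lit 0) (nat_lit 19) (.e false (nat_lit 1) (nat_lit 305) (nat_lit 0) (nat_lit 19) (.e false (nat_lit 2) (nat_lit 306) (nat_lit 0) (nat_lit 19) (.e true (nat_lit 2) (nat_lit 307) (nat_lit 0) (nat_lit 19) (.e true (nat_lit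 2) (nat_lit 309) (nat_lit 0) (nat_lit 19) (.e true (nat_lit 3) (nat_lit 310) (nat_lit 0) (nat_lit 19) (.e true (nat_lit 2) (nat_lit 311) (nat_lit 0) (nat_lit 19) (.e false (nat_lit 3) (nat_lit 315) (nat_lit 0) (nat_lit 19) (.e false (nat_lit 2) (nat_lit 316) (nat_lit 0) (nat_lit 19) (.e false (nat_lit 2) (nat_lit 317) (nat_lit 0) (nat_lit 19) (.e true (nat_lit 1) (nat_lit 318) (nat_lit 0) (nat_lit 19) (.e false (nat_lit 2) (nat_lit 319) (nat_lit 0) (nat_lit 19) (.e false (nat_lit 1) (nat_lit 36) (nat_lit 35) (nat_lit 0) (.e false (nat_lit 2) (nat_lit 261) (nat_lit 1) (nat_lit 18) (.e true (nat_lit 1) (nat_lit 262) (nat_lit 1) (nat_lit 18) dC1c_i214)))))))))))))))))))))))))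

noncomputable def dC1c_i216 : IL := (.s true (nat_lit 1) (nat_lit 16) (nat_lit 15) (nat_lit 0) (nat_lit 1) true (nat_lit 0) true (nat_lit 18) true (nat_lit 6) true (nat_lit 7) true (nat_lit 19) (.s false (nat_lit 2) (nat_lit 67) (nat_lit 2) (nat_lit 2) (nat_lit 0) true (nat_lit 15) true (nat_lit 19) false (nat_lit 7) true (nat_lit 17) true (nat_lit 17) (.s true (nat_lit 1) (nat_lit 68) (nat_lit 2) (nat_lit 2) (nat_lit 0) true (nat_lit 15) true (nat_lit 19) false (nat_lit 7) true (nat_lit 17) true (nat_lit 17) (.e true (nat_lit 1) (nat_lit 37) (nat_lit 30) (nat_lit 1) (.e true (nat_lit 2) (nat_lit 212) (nat_lit 2) (nat_lit 17) (.e true (nat_lit 1) (nat_lit 216) (nat_lit 2) (nat_lit 17) (.e false (nat_lit 3) (nat_lit 217) (nat_lit 2) (nat_lit 17) (.e false (nat_lit 2) (nat_lit 218) (nat_lit 2) (nat_lit 17) (.e false (nat_lit 2) (nat_lit 220) (nat_lit 2) (nat_lit 17) (.e false (nat_lit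 1) (nat_lit 221) (nat_lit 2) (nat_lit 17) (.e true (nat_lit 3) (nat_lit 222) (nat_lit 2) (nat_lit 17) (.e true (nat_lit 2) (nat_lit 223) (nat_lit 2) (nat_lit 17) (.e false (nat_lit 3) (nat_lit 224) (nat_lit 2) (nat_lit 17) (.e false (nat_lit 2) (nat_lit 227) (nat_lit 2) (nat_lit 17) (.e true (nat_lit 3) (nat_lit 228) (nat_lit 2) (nat_lit 17) (.e true (nat_lit 3) (nat_lit 229) (nat_lit 2) (nat_lit 17) (.e false (nat_lit 3) (nat_lit 214) (nat_lit 2) (nat_lit 17) (.e false (nat_lit 1) (nat_lit 226) (nat_lit 2) (nat_lit 17) (.e true (nat_lit 1) (nat_lit 230) (nat_lit 2) (nat_lit 17) (.e false (nat_lit 2) (nat_lit 77) (nat_lit 13) (nat_lit 8) (.e false (nat_lit 2) (nat_lit 78) (nat_lit 13) (nat_lit 8) (.e true (nat_lit 1) (nat_lit 79) (nat_lit 13) (nat_lit 8) (.e true (nat_lit 1) (nat_lit 81) (nat_lit 13) (nat_lit 8) (.e false (nat_lit 3) (nat_lit 291) (nat_lit 0) (nat_lit 19) (.e false (nat_lit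 2) (nat_lit 292) (nat_lit 0) (nat_lit 19) dC1c_i215)))))))))))))))))))))))))

noncomputable def dC1c_i217 : IL := (.e true (nat_lit 2) (nat_lit 233) (nat_lit 2) (nat_lit 17) (.e false (nat_lit 3) (nat_lit 234) (nat_lit 2) (nat_lit 17) (.e true (nat_lit 2) (nat_lit 235) (nat_lit 2) (nat_lit 17) (.e true (nat_lit 1) (nat_lit 236) (nat_lit 2) (nat_lit 17) (.e true (nat_lit 3) (nat_lit 237) (nat_lit 2) (nat_lit 17) (.e true (nat_lit 1) (nat_lit 239) (nat_lit 2) (nat_lit 17) (.e true (nat_lit 3) (nat_lit 240) (nat_lit 2) (nat_lit 17) (.e true (nat_lit 2) (nat_lit 241) (nat_lit 2) (nat_lit 17) (.e false (nat_lit 1) (nat_lit 242) (nat_lit 2) (nat_lit 17) (.e true (nat_lit 3) (nat_lit 243) (nat_lit 2) (nat_lit 17) (.e false (nat_lit 3) (nat_lit 244) (nat_lit 2) (nat_lit 17) (.e false (nat_lit 2) (nat_lit 245) (nat_lit 2) (nat_lit 17) (.e true (nat_lit 3) (nat_lit 246) (nat_lit 2) (nat_lit 17)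 (.e true (nat_lit 2) (nat_lit 248) (nat_lit 2) (nat_lit 17) (.e true (nat_lit 2) (nat_lit 249) (nat_lit 2) (nat_lit 17) (.e false (nat_lit 2) (nat_lit 253) (nat_lit 2) (nat_lit 17) (.e true (nat_lit 3) (nat_lit 232) (nat_lit 2) (nat_lit 17) (.e false (nat_lit 3) (nat_lit 238) (nat_lit 2) (nat_lit 17) (.e true (nat_lit 3) (nat_lit 258) (nat_lit 2) (nat_lit 17) (.e true (nat_lit 2) (nat_lit 256) (nat_lit 2) (nat_lit 17) (.e true (nat_lit 1) (nat_lit 257) (nat_lit 2) (nat_lit 17) (.e false (nat_lit 3) (nat_lit 225) (nat_lit 2) (nat_lit 17) (.e false (nat_lit 2) (nat_lit 259) (nat_lit 2) (nat_lit 17) (.u (nat_lit 2) (.n (nat_lit 0) (nat_lit 4) (.p (nat_lit 1) (nat_lit 7) (.n (nat_lit 2) (nat_lit 5) (.p (nat_lit 4) (nat_lit 3) (.n (nat_lit 5) (nat_lit 1) (.n (nat_lit 6) (nat_lit 4) (.p (nat_lit 7) (nat_lit 3) (.n (nat_lit 8) (nat_lit 3) (.n (nat_lit 9) (nat_lit 4) (.n (nat_lit 10) (nat_lit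 3) (.n (nat_lit 11) (nat_lit 2) (.n (nat_lit 12) (nat_lit 1) (.n (nat_lit 13) (nat_lit 3) (.n (nat_lit 14) (nat_lit 3) (.p (nat_lit 15) (nat_lit 4) (.p (nat_lit 17) (nat_lit 1) (.p (nat_lit 18) (nat_lit 6) (.n (nat_lit 19) (nat_lit 3) (.p (nat_lit 20) (nat_lit 1) (.n (nat_lit 23) (nat_lit 1) (.p (nat_lit 24) (nat_lit 1) (.p (nat_lit 25) (nat_lit 1) (.p (nat_lit 26) (nat_lit 1) (.n (nat_lit 27) (nat_lit 2) (.n (nat_lit 28) (nat_lit 2) (.n (nat_lit 29) (nat_lit 4) (.p (nat_lit 30) (nat_lit 7) (.p (nat_lit 32) (nat_lit 1) (.p (nat_lit 33) (nat_lit 3) (.p (nat_lit 34) (nat_lit 1) (.p (nat_lit 35) (nat_lit 1) (.p (nat_lit 36) (nat_lit 5) (.p (nat_lit 37) (nat_lit 2) (.n (nat_lit 38) (nat_lit 1) (.n (nat_lit 39) (nat_lit 1) (.p (nat_lit 40) (nat_lit 6) (.p (nat_lit 41) (nat_lit 4) (.n (nat_lit 45) (nat_lit 1) (.n (nat_lit 49) (nat_lit 1) (.p (nat_lit 50) (nat_lit 1) (.n (nat_lit 51) (nat_lit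 2) (.p (nat_lit 52) (nat_lit 1) (.p (nat_lit 53) (nat_lit 4) (.p (nat_lit 54) (nat_lit 1) (.n (nat_lit 55) (nat_lit 1) (.n (nat_lit 57) (nat_lit 1) (.p (nat_lit 58) (nat_lit 2) (.n (nat_lit 59) (nat_lit 1) (.n (nat_lit 60) (nat_lit 2) (.n (nat_lit 61) (nat_lit 2) (.p (nat_lit 62) (nat_lit 2) (.p (nat_lit 63) (nat_lit 1) (.p (nat_lit 64) (nat_lit 1) (.n (nat_lit 65) (nat_lit 1) (.n (nat_lit 67) (nat_lit 1) (.n (nat_lit 70) (nat_lit 3) (.n (nat_lit 327) (nat_lit 2) (.n (nat_lit 328) (nat_lit 2) (.n (nat_lit 329) (nat_lit 1) (.p (nat_lit 330) (nat_lit 4) .z)))))))))))))))))))))))))))))))))))))))))))))))))))))))))))) (.u (nat_lit 2) (.n (nat_lit 331) (nat_lit 2) (.n (nat_lit 332) (nat_lit 1) (.p (nat_lit 333) (nat_lit 2) (.n (nat_lit 334) (nat_lit 3) (.n (nat_lit 335) (nat_lit 2) (.p (nat_lit 336) (nat_lit 3) (.n (nat_lit 337) (nat_lit 3) (.p (nat_lit 338) (nat_lit 3) (.n (nat_lit 340) (nat_lit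 1) (.p (nat_lit 342) (nat_lit 3) (.n (nat_lit 343) (nat_lit 1) (.p (nat_lit 344) (nat_lit 2) (.n (nat_lit 345) (nat_lit 1) (.p (nat_lit 346) (nat_lit 1) (.p (nat_lit 347) (nat_lit 3) (.p (nat_lit 348) (nat_lit 3) (.n (nat_lit 349) (nat_lit 1) (.n (nat_lit 350) (nat_lit 2) (.p (nat_lit 351) (nat_lit 3) (.n (nat_lit 352) (nat_lit 2) (.n (nat_lit 353) (nat_lit 2) (.p (nat_lit 354) (nat_lit 3) (.n (nat_lit 355) (nat_lit 2) (.p (nat_lit 356) (nat_lit 3) (.p (nat_lit 357) (nat_lit 4) (.p (nat_lit 358) (nat_lit 3) (.n (nat_lit 360) (nat_lit 1) (.p (nat_lit 361) (nat_lit 1) (.p (nat_lit 362) (nat_lit 1) (.p (nat_lit 364) (nat_lit 1) (.p (nat_lit 365) (nat_lit 1) (.n (nat_lit 367) (nat_lit 1) (.n (nat_lit 368) (nat_lit 1) (.n (nat_lit 369) (nat_lit 1) (.p (nat_lit 371) (nat_lit 2) (.n (nat_lit 372) (nat_lit 1) (.n (nat_lit 373) (nat_lit 2) (.p (nat_lit 374) (nat_lit 1) .z))))))))))))))))))))))))))))))))))))))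 .nil)))))))))))))))))))))))))

noncomputable def dC1c_i218 : IL := (.e true (nat_lit 3) (nat_lit 294) (nat_lit 0) (nat_lit 19) (.e false (nat_lit 1) (nat_lit 295) (nat_lit 0) (nat_lit 19) (.e true (nat_lit 1) (nat_lit 296) (nat_lit 0) (nat_lit 19) (.e false (nat_lit 3) (nat_lit 297) (nat_lit 0) (nat_lit 19) (.e true (nat_lit 2) (nat_lit 298) (nat_lit 0) (nat_lit 19) (.e false (nat_lit 2) (nat_lit 299) (nat_lit 0) (nat_lit 19) (.e true (nat_lit 2) (nat_lit 300) (nat_lit 0) (nat_lit 19) (.e false (nat_lit 3) (nat_lit 301) (nat_lit 0) (nat_lit 19) (.e true (nat_lit 1) (nat_lit 302) (nat_lit 0) (nat_lit 19) (.e false (nat_lit 3) (nat_lit 303) (nat_lit 0) (nat_lit 19) (.e false (nat_lit 2) (nat_lit 304) (nat_lit 0) (nat_lit 19) (.e true (nat_lit 3) (nat_lit 305) (nat_lit 0) (nat_lit 19) (.e false (nat_lit 2) (nat_lit 306) (nat_lit 0) (nat_lit 19) (.e true (nat_lit 1) (nat_lit 307) (nat_lit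 0) (nat_lit 19) (.e false (nat_lit 2) (nat_lit 308) (nat_lit 0) (nat_lit 19) (.e true (nat_lit 2) (nat_lit 309) (nat_lit 0) (nat_lit 19) (.e false (nat_lit 3) (nat_lit 310) (nat_lit 0) (nat_lit 19) (.e false (nat_lit 1) (nat_lit 311) (nat_lit 0) (nat_lit 19) (.e false (nat_lit 2) (nat_lit 314) (nat_lit 0) (nat_lit 19) (.e true (nat_lit 2) (nat_lit 315) (nat_lit 0) (nat_lit 19) (.e false (nat_lit 1) (nat_lit 316) (nat_lit 0) (nat_lit 19) (.e true (nat_lit 1) (nat_lit 317) (nat_lit 0) (nat_lit 19) (.e false (nat_lit 3) (nat_lit 318) (nat_lit 0) (nat_lit 19) (.e true (nat_lit 1) (nat_lit 319) (nat_lit 0) (nat_lit 19) (.e false (nat_lit 1) (nat_lit 154) (nat_lit 4) (nat_lit 15) dC1c_i217)))))))))))))))))))))))))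

noncomputable def dC1c_i219 : IL := (.s true (nat_lit 1) (nat_lit 15) (nat_lit 13) (nat_lit 0) (nat_lit 2) false (nat_lit 1) true (nat_lit 17) true (nat_lit 7) true (nat_lit 8) true (nat_lit 19) (.s false (nat_lit 1) (nat_lit 67) (nat_lit 2) (nat_lit 2) (nat_lit 0) true (nat_lit 15) true (nat_lit 19) false (nat_lit 7) true (nat_lit 17) true (nat_lit 17) (.s true (nat_lit 1) (nat_lit 69) (nat_lit 2) (nat_lit 2) (nat_lit 0) true (nat_lit 15) true (nat_lit 19) false (nat_lit 7) true (nat_lit 17) true (nat_lit 17) (.e true (nat_lit 1) (nat_lit 37) (nat_lit 30) (nat_lit 1) (.e false (nat_lit 1) (nat_lit 212) (nat_lit 2) (nat_lit 17) (.e true (nat_lit 3) (nat_lit 213) (nat_lit 2) (nat_lit 17) (.e true (nat_lit 3) (nat_lit 215) (nat_lit 2) (nat_lit 17) (.e false (nat_lit 3) (nat_lit 216) (nat_lit 2) (nat_lit 17) (.e false (nat_lit 2) (nat_lit 218) (nat_lit 2) (nat_lit 17) (.e true (nat_lit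 3) (nat_lit 220) (nat_lit 2) (nat_lit 17) (.e true (nat_lit 1) (nat_lit 221) (nat_lit 2) (nat_lit 17) (.e true (nat_lit 2) (nat_lit 223) (nat_lit 2) (nat_lit 17) (.e true (nat_lit 3) (nat_lit 228) (nat_lit 2) (nat_lit 17) (.e false (nat_lit 3) (nat_lit 229) (nat_lit 2) (nat_lit 17) (.e true (nat_lit 2) (nat_lit 214) (nat_lit 2) (nat_lit 17) (.e false (nat_lit 1) (nat_lit 230) (nat_lit 2) (nat_lit 17) (.e false (nat_lit 1) (nat_lit 231) (nat_lit 2) (nat_lit 17) (.e true (nat_lit 1) (nat_lit 66) (nat_lit 15) (nat_lit 7) (.e false (nat_lit 2) (nat_lit 77) (nat_lit 13) (nat_lit 8) (.e false (nat_lit 2) (nat_lit 78) (nat_lit 13) (nat_lit 8) (.e true (nat_lit 1) (nat_lit 79) (nat_lit 13) (nat_lit 8) (.e true (nat_lit 1) (nat_lit 81) (nat_lit 13) (nat_lit 8) (.e true (nat_lit 1) (nat_lit 291) (nat_lit 0) (nat_lit 19) (.e true (nat_lit 1) (nat_lit 292) (nat_lit 0) (nat_lit 19) (.e false (nat_lit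 2) (nat_lit 293) (nat_lit 0) (nat_lit 19) dC1c_i218)))))))))))))))))))))))))

noncomputable def dC1c_i220 : IL := (.e false (nat_lit 2) (nat_lit 301) (nat_lit 0) (nat_lit 19) (.e true (nat_lit 1) (nat_lit 304) (nat_lit 0) (nat_lit 19) (.e true (nat_lit 1) (nat_lit 308) (nat_lit 0) (nat_lit 19) (.e true (nat_lit 1) (nat_lit 216) (nat_lit 2) (nat_lit 17) (.e false (nat_lit 2) (nat_lit 260) (nat_lit 1) (nat_lit 18) (.e true (nat_lit 1) (nat_lit 261) (nat_lit 1) (nat_lit 18) (.e true (nat_lit 2) (nat_lit 262) (nat_lit 1) (nat_lit 18) (.e false (nat_lit 3) (nat_lit 263) (nat_lit 1) (nat_lit 18) (.e true (nat_lit 3) (nat_lit 264) (nat_lit 1) (nat_lit 18) (.e true (nat_lit 2) (nat_lit 265) (nat_lit 1) (nat_lit 18) (.e false (nat_lit 3) (nat_lit 266) (nat_lit 1) (nat_lit 18) (.e true (nat_lit 3) (nat_lit 267) (nat_lit 1) (nat_lit 18) (.e true (nat_lit 2) (nat_lit 269) (nat_lit 1) (nat_lit 18)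 (.e true (nat_lit 3) (nat_lit 270) (nat_lit 1) (nat_lit 18) (.e true (nat_lit 1) (nat_lit 271) (nat_lit 1) (nat_lit 18) (.e true (nat_lit 2) (nat_lit 272) (nat_lit 1) (nat_lit 18) (.e true (nat_lit 1) (nat_lit 273) (nat_lit 1) (nat_lit 18) (.e false (nat_lit 1) (nat_lit 274) (nat_lit 1) (nat_lit 18) (.e true (nat_lit 1) (nat_lit 277) (nat_lit 1) (nat_lit 18) (.e true (nat_lit 1) (nat_lit 278) (nat_lit 1) (nat_lit 18) (.e true (nat_lit 3) (nat_lit 279) (nat_lit 1) (nat_lit 18) (.e true (nat_lit 3) (nat_lit 280) (nat_lit 1) (nat_lit 18) (.e true (nat_lit 1) (nat_lit 239) (nat_lit 2) (nat_lit 17) (.u (nat_lit 2) (.p (nat_lit 0) (nat_lit 2) (.n (nat_lit 2) (nat_lit 1) (.p (nat_lit 3) (nat_lit 2) (.n (nat_lit 8) (nat_lit 2) (.n (nat_lit 9) (nat_lit 1) (.p (nat_lit 11) (nat_lit 1) (.p (nat_lit 12) (nat_lit 2) (.p (nat_lit 14) (nat_lit 2) (.n (nat_lit 17) (nat_lit 2) (.n (nat_lit 18) (nat_lit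 1) (.n (nat_lit 19) (nat_lit 2) (.n (nat_lit 20) (nat_lit 1) (.n (nat_lit 26) (nat_lit 1) (.p (nat_lit 27) (nat_lit 2) (.n (nat_lit 29) (nat_lit 1) (.p (nat_lit 30) (nat_lit 1) (.p (nat_lit 32) (nat_lit 2) (.n (nat_lit 34) (nat_lit 2) (.n (nat_lit 35) (nat_lit 1) (.p (nat_lit 36) (nat_lit 2) (.n (nat_lit 39) (nat_lit 1) (.n (nat_lit 40) (nat_lit 2) (.n (nat_lit 41) (nat_lit 1) (.n (nat_lit 327) (nat_lit 1) (.n (nat_lit 329) (nat_lit 3) (.p (nat_lit 330) (nat_lit 6) (.n (nat_lit 331) (nat_lit 3) (.p (nat_lit 332) (nat_lit 1) (.n (nat_lit 333) (nat_lit 1) (.n (nat_lit 334) (nat_lit 4) (.n (nat_lit 335) (nat_lit 4) (.n (nat_lit 336) (nat_lit 1) (.n (nat_lit 337) (nat_lit 3) (.p (nat_lit 338) (nat_lit 1) (.p (nat_lit 339) (nat_lit 2) (.n (nat_lit 341) (nat_lit 2) (.p (nat_lit 342) (nat_lit 1) (.n (nat_lit 343) (nat_lit 2) (.p (nat_lit 344) (nat_lit 3) (.p (nat_lit 346) (nat_lit 3) (.p (nat_lit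 349) (nat_lit 5) (.p (nat_lit 350) (nat_lit 3) (.p (nat_lit 351) (nat_lit 2) (.p (nat_lit 353) (nat_lit 1) (.p (nat_lit 354) (nat_lit 3) (.p (nat_lit 355) (nat_lit 3) (.n (nat_lit 356) (nat_lit 4) (.n (nat_lit 357) (nat_lit 4) (.p (nat_lit 358) (nat_lit 3) (.n (nat_lit 359) (nat_lit 1) (.p (nat_lit 361) (nat_lit 2) (.n (nat_lit 362) (nat_lit 2) (.n (nat_lit 363) (nat_lit 1) (.n (nat_lit 364) (nat_lit 1) (.n (nat_lit 365) (nat_lit 1) (.n (nat_lit 366) (nat_lit 1) (.p (nat_lit 368) (nat_lit 1) (.n (nat_lit 369) (nat_lit 1) (.p (nat_lit 371) (nat_lit 4) (.n (nat_lit 372) (nat_lit 2) .z)))))))))))))))))))))))))))))))))))))))))))))))))))))))))))) (.u (nat_lit 2) (.n (nat_lit 373) (nat_lit 2) (.p (nat_lit 374) (nat_lit 1) (.n (nat_lit 406) (nat_lit 1) (.n (nat_lit 416) (nat_lit 1) (.p (nat_lit 423) (nat_lit 1) .z))))) .nil)))))))))))))))))))))))))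

noncomputable def dC1c_i221 : IL := (.e false (nat_lit 2) (nat_lit 250) (nat_lit 2) (nat_lit 17) (.e false (nat_lit 2) (nat_lit 222) (nat_lit 2) (nat_lit 17) (.e false (nat_lit 1) (nat_lit 229) (nat_lit 2) (nat_lit 17) (.e true (nat_lit 2) (nat_lit 252) (nat_lit 2) (nat_lit 17) (.e true (nat_lit 1) (nat_lit 224) (nat_lit 2) (nat_lit 17) (.e true (nat_lit 1) (nat_lit 230) (nat_lit 2) (nat_lit 17) (.e false (nat_lit 1) (nat_lit 253) (nat_lit 2) (nat_lit 17) (.e true (nat_lit 3) (nat_lit 239) (nat_lit 2) (nat_lit 17) (.e false (nat_lit 2) (nat_lit 241) (nat_lit 2) (nat_lit 17) (.e true (nat_lit 1) (nat_lit 235) (nat_lit 2) (nat_lit 17) (.e true (nat_lit 1) (nat_lit 72) (nat_lit 14) (nat_lit 7) (.e false (nat_lit 1) (nat_lit 290) (nat_lit 0) (nat_lit 19) (.e true (nat_lit 2) (nat_lit 292) (nat_lit 0) (nat_lit 19) (.e false (nat_lit 3) (nat_lit 296) (nat_lit 0) (nat_lit 19) (.e true (nat_lit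 1) (nat_lit 297) (nat_lit 0) (nat_lit 19) (.e true (nat_lit 3) (nat_lit 299) (nat_lit 0) (nat_lit 19) (.e true (nat_lit 2) (nat_lit 300) (nat_lit 0) (nat_lit 19) (.e false (nat_lit 2) (nat_lit 301) (nat_lit 0) (nat_lit 19) (.e true (nat_lit 3) (nat_lit 304) (nat_lit 0) (nat_lit 19) (.e true (nat_lit 2) (nat_lit 307) (nat_lit 0) (nat_lit 19) (.e false (nat_lit 3) (nat_lit 308) (nat_lit 0) (nat_lit 19) (.e false (nat_lit 2) (nat_lit 310) (nat_lit 0) (nat_lit 19) (.e false (nat_lit 1) (nat_lit 318) (nat_lit 0) (nat_lit 19) (.u (nat_lit 2) (.n (nat_lit 0) (nat_lit 1) (.n (nat_lit 1) (nat_lit 3) (.n (nat_lit 4) (nat_lit 5) (.p (nat_lit 6) (nat_lit 2) (.n (nat_lit 7) (nat_lit 2) (.p (nat_lit 8) (nat_lit 2) (.n (nat_lit 9) (nat_lit 3) (.n (nat_lit 10) (nat_lit 2) (.p (nat_lit 11) (nat_lit 2) (.p (nat_lit 12) (nat_lit 4) (.n (nat_lit 14) (nat_lit 1) (.p (nat_lit 15) (nat_lit 3) (.n (nat_lit 17)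 (nat_lit 2) (.n (nat_lit 18) (nat_lit 1) (.p (nat_lit 19) (nat_lit 4) (.p (nat_lit 20) (nat_lit 4) (.n (nat_lit 24) (nat_lit 1) (.n (nat_lit 25) (nat_lit 1) (.n (nat_lit 26) (nat_lit 1) (.n (nat_lit 27) (nat_lit 1) (.p (nat_lit 28) (nat_lit 1) (.n (nat_lit 29) (nat_lit 3) (.p (nat_lit 30) (nat_lit 1) (.p (nat_lit 31) (nat_lit 2) (.n (nat_lit 34) (nat_lit 1) (.n (nat_lit 35) (nat_lit 1) (.n (nat_lit 37) (nat_lit 3) (.n (nat_lit 38) (nat_lit 5) (.n (nat_lit 40) (nat_lit 2) (.n (nat_lit 41) (nat_lit 3) (.p (nat_lit 45) (nat_lit 1) (.n (nat_lit 46) (nat_lit 1) (.p (nat_lit 48) (nat_lit 1) (.n (nat_lit 49) (nat_lit 1) (.n (nat_lit 51) (nat_lit 2) (.n (nat_lit 52) (nat_lit 1) (.p (nat_lit 55) (nat_lit 1) (.p (nat_lit 56) (nat_lit 2) (.n (nat_lit 57) (nat_lit 1) (.p (nat_lit 59) (nat_lit 1) (.p (nat_lit 60) (nat_lit 1) (.n (nat_lit 64) (nat_lit 1) (.n (nat_lit 67) (nat_lit 2) (.p (nat_lit 68)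 (nat_lit 1) (.n (nat_lit 70) (nat_lit 1) (.p (nat_lit 327) (nat_lit 1) (.p (nat_lit 329) (nat_lit 1) (.n (nat_lit 330) (nat_lit 2) (.p (nat_lit 331) (nat_lit 1) (.n (nat_lit 332) (nat_lit 1) (.n (nat_lit 333) (nat_lit 1) (.p (nat_lit 336) (nat_lit 1) (.n (nat_lit 337) (nat_lit 1) (.n (nat_lit 338) (nat_lit 1) (.n (nat_lit 341) (nat_lit 1) (.n (nat_lit 342) (nat_lit 1) (.p (nat_lit 346) (nat_lit 1) (.p (nat_lit 347) (nat_lit 1) (.n (nat_lit 348) (nat_lit 2) (.n (nat_lit 349) (nat_lit 1) .z)))))))))))))))))))))))))))))))))))))))))))))))))))))))))))) (.u (nat_lit 2) (.n (nat_lit 351) (nat_lit 1) (.p (nat_lit 352) (nat_lit 1) (.n (nat_lit 353) (nat_lit 2) (.p (nat_lit 354) (nat_lit 1) (.n (nat_lit 355) (nat_lit 2) (.n (nat_lit 356) (nat_lit 1) (.n (nat_lit 358) (nat_lit 1) (.n (nat_lit 359) (nat_lit 1) (.n (nat_lit 360) (nat_lit 1) (.n (nat_lit 361) (nat_lit 1) (.p (nat_lit 362) (nat_lit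 1) (.p (nat_lit 363) (nat_lit 1) (.p (nat_lit 366) (nat_lit 1) .z))))))))))))) .nil)))))))))))))))))))))))))

noncomputable def dC1c_i222 : IL := (.e true (nat_lit 3) (nat_lit 213) (nat_lit 2) (nat_lit 17) (.e true (nat_lit 2) (nat_lit 214) (nat_lit 2) (nat_lit 17) (.e true (nat_lit 3) (nat_lit 215) (nat_lit 2) (nat_lit 17) (.e false (nat_lit 1) (nat_lit 218) (nat_lit 2) (nat_lit 17) (.e true (nat_lit 3) (nat_lit 219) (nat_lit 2) (nat_lit 17) (.e false (nat_lit 2) (nat_lit 220) (nat_lit 2) (nat_lit 17) (.e false (nat_lit 2) (nat_lit 223) (nat_lit 2) (nat_lit 17) (.e false (nat_lit 3) (nat_lit 226) (nat_lit 2) (nat_lit 17) (.e true (nat_lit 3) (nat_lit 227) (nat_lit 2) (nat_lit 17) (.e false (nat_lit 3) (nat_lit 231) (nat_lit 2) (nat_lit 17) (.e false (nat_lit 1) (nat_lit 232) (nat_lit 2) (nat_lit 17) (.e true (nat_lit 2) (nat_lit 236) (nat_lit 2) (nat_lit 17) (.e true (nat_lit 1) (nat_lit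 240) (nat_lit 2) (nat_lit 17) (.e false (nat_lit 1) (nat_lit 242) (nat_lit 2) (nat_lit 17) (.e false (nat_lit 2) (nat_lit 243) (nat_lit 2) (nat_lit 17) (.e false (nat_lit 1) (nat_lit 244) (nat_lit 2) (nat_lit 17) (.e false (nat_lit 1) (nat_lit 245) (nat_lit 2) (nat_lit 17) (.e false (nat_lit 2) (nat_lit 248) (nat_lit 2) (nat_lit 17) (.e true (nat_lit 1) (nat_lit 249) (nat_lit 2) (nat_lit 17) (.e true (nat_lit 1) (nat_lit 216) (nat_lit 2) (nat_lit 17) (.e true (nat_lit 1) (nat_lit 217) (nat_lit 2) (nat_lit 17) (.e true (nat_lit 1) (nat_lit 234) (nat_lit 2) (nat_lit 17) (.e false (nat_lit 2) (nat_lit 237) (nat_lit 2) (nat_lit 17) (.e true (nat_lit 1) (nat_lit 238) (nat_lit 2) (nat_lit 17) (.e false (nat_lit 2) (nat_lit 247) (nat_lit 2) (nat_lit 17) dC1c_i221)))))))))))))))))))))))))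

noncomputable def dC1c_i223 : IL := (.e true (nat_lit 1) (nat_lit 226) (nat_lit 2) (nat_lit 17) (.e false (nat_lit 3) (nat_lit 228) (nat_lit 2) (nat_lit 17) (.e true (nat_lit 3) (nat_lit 229) (nat_lit 2) (nat_lit 17) (.e false (nat_lit 1) (nat_lit 230) (nat_lit 2) (nat_lit 17) (.e false (nat_lit 1) (nat_lit 231) (nat_lit 2) (nat_lit 17) (.e true (nat_lit 3) (nat_lit 232) (nat_lit 2) (nat_lit 17) (.e true (nat_lit 3) (nat_lit 233) (nat_lit 2) (nat_lit 17) (.e true (nat_lit 3) (nat_lit 234) (nat_lit 2) (nat_lit 17) (.e false (nat_lit 3) (nat_lit 236) (nat_lit 2) (nat_lit 17) (.e true (nat_lit 2) (nat_lit 237) (nat_lit 2) (nat_lit 17) (.e true (nat_lit 3) (nat_lit 238) (nat_lit 2) (nat_lit 17) (.e true (nat_lit 3) (nat_lit 239) (nat_lit 2) (nat_lit 17) (.e false (nat_lit 3) (nat_lit 240) (nat_lit 2) (nat_lit 17) (.e true (nat_lit 2) (nat_lit 241) (nat_lit 2) (nat_lit 17) (.e true (nat_lit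 2) (nat_lit 242) (nat_lit 2) (nat_lit 17) (.e true (nat_lit 1) (nat_lit 246) (nat_lit 2) (nat_lit 17) (.e true (nat_lit 2) (nat_lit 248) (nat_lit 2) (nat_lit 17) (.e true (nat_lit 3) (nat_lit 249) (nat_lit 2) (nat_lit 17) (.e false (nat_lit 3) (nat_lit 253) (nat_lit 2) (nat_lit 17) (.e false (nat_lit 1) (nat_lit 214) (nat_lit 2) (nat_lit 17) (.e false (nat_lit 3) (nat_lit 216) (nat_lit 2) (nat_lit 17) (.e false (nat_lit 1) (nat_lit 222) (nat_lit 2) (nat_lit 17) (.e true (nat_lit 2) (nat_lit 244) (nat_lit 2) (nat_lit 17) (.u (nat_lit 2) (.n (nat_lit 0) (nat_lit 2) (.n (nat_lit 1) (nat_lit 2) (.p (nat_lit 2) (nat_lit 3) (.p (nat_lit 3) (nat_lit 3) (.p (nat_lit 4) (nat_lit 2) (.p (nat_lit 5) (nat_lit 4) (.p (nat_lit 6) (nat_lit 6) (.n (nat_lit 7) (nat_lit 3) (.p (nat_lit 8) (nat_lit 2) (.n (nat_lit 10) (nat_lit 2) (.p (nat_lit 12) (nat_lit 3) (.p (nat_lit 13) (nat_lit 2) (.n (nat_lit 14)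 (nat_lit 3) (.n (nat_lit 15) (nat_lit 2) (.p (nat_lit 17) (nat_lit 1) (.n (nat_lit 19) (nat_lit 3) (.n (nat_lit 20) (nat_lit 1) (.p (nat_lit 24) (nat_lit 1) (.p (nat_lit 25) (nat_lit 1) (.p (nat_lit 26) (nat_lit 1) (.p (nat_lit 27) (nat_lit 5) (.p (nat_lit 28) (nat_lit 4) (.n (nat_lit 29) (nat_lit 3) (.n (nat_lit 30) (nat_lit 4) (.n (nat_lit 31) (nat_lit 2) (.n (nat_lit 32) (nat_lit 3) (.p (nat_lit 33) (nat_lit 2) (.p (nat_lit 34) (nat_lit 5) (.p (nat_lit 35) (nat_lit 4) (.n (nat_lit 36) (nat_lit 1) (.p (nat_lit 38) (nat_lit 3) (.n (nat_lit 39) (nat_lit 2) (.n (nat_lit 40) (nat_lit 4) (.p (nat_lit 41) (nat_lit 2) (.n (nat_lit 45) (nat_lit 1) (.n (nat_lit 49) (nat_lit 1) (.p (nat_lit 53) (nat_lit 4) (.n (nat_lit 54) (nat_lit 1) (.n (nat_lit 55) (nat_lit 1) (.p (nat_lit 57) (nat_lit 2) (.n (nat_lit 58) (nat_lit 1) (.n (nat_lit 60) (nat_lit 2) (.n (nat_lit 63) (nat_lit 1) (.p (nat_lit 64)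 (nat_lit 1) (.n (nat_lit 65) (nat_lit 1) (.n (nat_lit 67) (nat_lit 2) (.n (nat_lit 69) (nat_lit 4) (.p (nat_lit 70) (nat_lit 2) (.n (nat_lit 327) (nat_lit 1) (.p (nat_lit 333) (nat_lit 1) (.p (nat_lit 334) (nat_lit 1) (.n (nat_lit 340) (nat_lit 1) (.n (nat_lit 343) (nat_lit 1) (.p (nat_lit 344) (nat_lit 1) (.n (nat_lit 345) (nat_lit 1) (.p (nat_lit 348) (nat_lit 1) (.n (nat_lit 351) (nat_lit 1) (.n (nat_lit 355) (nat_lit 1) (.p (nat_lit 357) (nat_lit 1) (.p (nat_lit 361) (nat_lit 1) .z)))))))))))))))))))))))))))))))))))))))))))))))))))))))))))) (.u (nat_lit 2) (.p (nat_lit 363) (nat_lit 1) (.p (nat_lit 364) (nat_lit 1) (.n (nat_lit 368) (nat_lit 1) .z))) .nil)))))))))))))))))))))))))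

noncomputable def dC1c_i224 : IL := (.e true (nat_lit 1) (nat_lit 273) (nat_lit 1) (nat_lit 18) (.e false (nat_lit 2) (nat_lit 274) (nat_lit 1) (nat_lit 18) (.e true (nat_lit 3) (nat_lit 279) (nat_lit 1) (nat_lit 18) (.e true (nat_lit 2) (nat_lit 288) (nat_lit 1) (nat_lit 18) (.e true (nat_lit 3) (nat_lit 233) (nat_lit 2) (nat_lit 17) (.e true (nat_lit 1) (nat_lit 236) (nat_lit 2) (nat_lit 17) (.e true (nat_lit 3) (nat_lit 237) (nat_lit 2) (nat_lit 17) (.e false (nat_lit 2) (nat_lit 238) (nat_lit 2) (nat_lit 17) (.e true (nat_lit 3) (nat_lit 239) (nat_lit 2) (nat_lit 17) (.e true (nat_lit 2) (nat_lit 242) (nat_lit 2) (nat_lit 17) (.e false (nat_lit 3) (nat_lit 213) (nat_lit 2) (nat_lit 17) (.e true (nat_lit 2) (nat_lit 240) (nat_lit 2) (nat_lit 17) (.e true (nat_lit 3) (nat_lit 244) (nat_lit 2) (nat_lit 17) (.e false (nat_lit 3) (nat_lit 216) (nat_lit 2) (nat_lit 17) (.e false (nat_lit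 1) (nat_lit 232) (nat_lit 2) (nat_lit 17) (.e false (nat_lit 1) (nat_lit 234) (nat_lit 2) (nat_lit 17) (.e true (nat_lit 3) (nat_lit 144) (nat_lit 5) (nat_lit 14) (.e true (nat_lit 1) (nat_lit 263) (nat_lit 1) (nat_lit 18) (.e true (nat_lit 2) (nat_lit 268) (nat_lit 1) (nat_lit 18) (.e true (nat_lit 3) (nat_lit 277) (nat_lit 1) (nat_lit 18) (.e false (nat_lit 1) (nat_lit 286) (nat_lit 1) (nat_lit 18) (.e false (nat_lit 3) (nat_lit 319) (nat_lit 0) (nat_lit 19) (.e true (nat_lit 2) (nat_lit 235) (nat_lit 2) (nat_lit 17) (.u (nat_lit 2) (.p (nat_lit 0) (nat_lit 7) (.n (nat_lit 2) (nat_lit 6) (.p (nat_lit 3) (nat_lit 1) (.p (nat_lit 4) (nat_lit 4) (.n (nat_lit 5) (nat_lit 1) (.n (nat_lit 6) (nat_lit 2) (.p (nat_lit 7) (nat_lit 2) (.n (nat_lit 8) (nat_lit 3) (.p (nat_lit 9) (nat_lit 4) (.n (nat_lit 10) (nat_lit 1) (.n (nat_lit 12) (nat_lit 2) (.n (nat_lit 13) (nat_lit 2) (.p (nat_lit 14)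 (nat_lit 2) (.p (nat_lit 15) (nat_lit 4) (.p (nat_lit 17) (nat_lit 2) (.p (nat_lit 18) (nat_lit 3) (.n (nat_lit 19) (nat_lit 2) (.n (nat_lit 20) (nat_lit 8) (.n (nat_lit 26) (nat_lit 4) (.n (nat_lit 27) (nat_lit 1) (.n (nat_lit 28) (nat_lit 1) (.p (nat_lit 29) (nat_lit 1) (.p (nat_lit 30) (nat_lit 1) (.p (nat_lit 31) (nat_lit 4) (.n (nat_lit 32) (nat_lit 1) (.p (nat_lit 33) (nat_lit 4) (.p (nat_lit 34) (nat_lit 2) (.n (nat_lit 35) (nat_lit 5) (.p (nat_lit 36) (nat_lit 2) (.n (nat_lit 37) (nat_lit 6) (.p (nat_lit 38) (nat_lit 1) (.n (nat_lit 39) (nat_lit 2) (.n (nat_lit 40) (nat_lit 1) (.p (nat_lit 51) (nat_lit 1) (.n (nat_lit 53) (nat_lit 1) (.p (nat_lit 54) (nat_lit 1) (.n (nat_lit 55) (nat_lit 1) (.n (nat_lit 57) (nat_lit 1) (.p (nat_lit 58) (nat_lit 2) (.n (nat_lit 60) (nat_lit 1) (.n (nat_lit 61) (nat_lit 1) (.p (nat_lit 62) (nat_lit 1) (.p (nat_lit 69) (nat_lit 1) (.n (nat_lit 70)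 (nat_lit 1) (.n (nat_lit 220) (nat_lit 1) (.n (nat_lit 327) (nat_lit 2) (.n (nat_lit 328) (nat_lit 8) (.n (nat_lit 329) (nat_lit 1) (.p (nat_lit 330) (nat_lit 5) (.p (nat_lit 331) (nat_lit 1) (.p (nat_lit 332) (nat_lit 3) (.n (nat_lit 335) (nat_lit 3) (.p (nat_lit 336) (nat_lit 3) (.p (nat_lit 337) (nat_lit 6) (.p (nat_lit 338) (nat_lit 7) (.n (nat_lit 339) (nat_lit 3) (.p (nat_lit 342) (nat_lit 1) (.p (nat_lit 346) (nat_lit 3) (.n (nat_lit 347) (nat_lit 1) (.p (nat_lit 348) (nat_lit 1) .z)))))))))))))))))))))))))))))))))))))))))))))))))))))))))))) (.u (nat_lit 2) (.p (nat_lit 349) (nat_lit 2) (.p (nat_lit 351) (nat_lit 3) (.n (nat_lit 352) (nat_lit 5) (.n (nat_lit 353) (nat_lit 3) (.n (nat_lit 355) (nat_lit 3) (.p (nat_lit 356) (nat_lit 3) (.p (nat_lit 357) (nat_lit 1) (.n (nat_lit 358) (nat_lit 2) (.n (nat_lit 359) (nat_lit 3) (.p (nat_lit 360) (nat_lit 2) (.p (nat_lit 361) (nat_lit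 1) (.p (nat_lit 363) (nat_lit 5) (.p (nat_lit 375) (nat_lit 1) (.n (nat_lit 377) (nat_lit 2) (.p (nat_lit 378) (nat_lit 1) (.n (nat_lit 379) (nat_lit 2) (.n (nat_lit 380) (nat_lit 1) (.p (nat_lit 381) (nat_lit 1) (.p (nat_lit 382) (nat_lit 1) (.n (nat_lit 383) (nat_lit 1) (.p (nat_lit 386) (nat_lit 1) (.n (nat_lit 388) (nat_lit 2) (.n (nat_lit 389) (nat_lit 2) (.n (nat_lit 390) (nat_lit 1) (.p (nat_lit 394) (nat_lit 3) (.n (nat_lit 395) (nat_lit 3) (.n (nat_lit 401) (nat_lit 1) (.n (nat_lit 403) (nat_lit 1) (.n (nat_lit 406) (nat_lit 1) (.n (nat_lit 414) (nat_lit 1) (.n (nat_lit 416) (nat_lit 1) (.p (nat_lit 423) (nat_lit 1) (.p (nat_lit 426) (nat_lit 1) .z))))))))))))))))))))))))))))))))) .nil)))))))))))))))))))))))))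

noncomputable def dC1c_i225 : IL := (.e false (nat_lit 3) (nat_lit 317) (nat_lit 0) (nat_lit 19) (.e true (nat_lit 1) (nat_lit 223) (nat_lit 2) (nat_lit 17) (.e true (nat_lit 2) (nat_lit 212) (nat_lit 2) (nat_lit 17) (.e false (nat_lit 3) (nat_lit 214) (nat_lit 2) (nat_lit 17) (.e true (nat_lit 2) (nat_lit 215) (nat_lit 2) (nat_lit 17) (.e true (nat_lit 1) (nat_lit 217) (nat_lit 2) (nat_lit 17) (.e false (nat_lit 1) (nat_lit 218) (nat_lit 2) (nat_lit 17) (.e true (nat_lit 1) (nat_lit 219) (nat_lit 2) (nat_lit 17) (.e true (nat_lit 3) (nat_lit 220) (nat_lit 2) (nat_lit 17) (.e true (nat_lit 1) (nat_lit 222) (nat_lit 2) (nat_lit 17) (.e false (nat_lit 1) (nat_lit 224) (nat_lit 2) (nat_lit 17) (.e false (nat_lit 3) (nat_lit 227) (nat_lit 2) (nat_lit 17) (.e false (nat_lit 1) (nat_lit 229) (nat_lit 2) (nat_lit 17) (.e false (nat_lit 3) (nat_lit 157) (nat_lit 4) (nat_lit 15) (.e false (nat_lit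 2) (nat_lit 260) (nat_lit 1) (nat_lit 18) (.e false (nat_lit 3) (nat_lit 261) (nat_lit 1) (nat_lit 18) (.e true (nat_lit 1) (nat_lit 262) (nat_lit 1) (nat_lit 18) (.e true (nat_lit 1) (nat_lit 264) (nat_lit 1) (nat_lit 18) (.e true (nat_lit 2) (nat_lit 265) (nat_lit 1) (nat_lit 18) (.e false (nat_lit 2) (nat_lit 266) (nat_lit 1) (nat_lit 18) (.e false (nat_lit 2) (nat_lit 267) (nat_lit 1) (nat_lit 18) (.e false (nat_lit 3) (nat_lit 269) (nat_lit 1) (nat_lit 18) (.e false (nat_lit 3) (nat_lit 270) (nat_lit 1) (nat_lit 18) (.e true (nat_lit 1) (nat_lit 271) (nat_lit 1) (nat_lit 18) (.e true (nat_lit 3) (nat_lit 272) (nat_lit 1) (nat_lit 18) dC1c_i224)))))))))))))))))))))))))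

noncomputable def dC1c_i226 : IL := (.e false (nat_lit 2) (nat_lit 291) (nat_lit 0) (nat_lit 19) (.e true (nat_lit 3) (nat_lit 292) (nat_lit 0) (nat_lit 19) (.e false (nat_lit 2) (nat_lit 293) (nat_lit 0) (nat_lit 19) (.e false (nat_lit 3) (nat_lit 294) (nat_lit 0) (nat_lit 19) (.e false (nat_lit 1) (nat_lit 295) (nat_lit 0) (nat_lit 19) (.e false (nat_lit 3) (nat_lit 296) (nat_lit 0) (nat_lit 19) (.e true (nat_lit 3) (nat_lit 297) (nat_lit 0) (nat_lit 19) (.e false (nat_lit 2) (nat_lit 298) (nat_lit 0) (nat_lit 19) (.e false (nat_lit 1) (nat_lit 299) (nat_lit 0) (nat_lit 19) (.e false (nat_lit 1) (nat_lit 301) (nat_lit 0) (nat_lit 19) (.e true (nat_lit 1) (nat_lit 302) (nat_lit 0) (nat_lit 19) (.e false (nat_lit 1) (nat_lit 303) (nat_lit 0) (nat_lit 19) (.e true (nat_lit 3) (nat_lit 304) (nat_lit 0) (nat_lit 19) (.e true (nat_lit 3) (nat_lit 305) (nat_lit 0) (nat_lit 19) (.e true (nat_lit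 1) (nat_lit 307) (nat_lit 0) (nat_lit 19) (.e false (nat_lit 1) (nat_lit 308) (nat_lit 0) (nat_lit 19) (.e false (nat_lit 2) (nat_lit 310) (nat_lit 0) (nat_lit 19) (.e false (nat_lit 1) (nat_lit 311) (nat_lit 0) (nat_lit 19) (.e true (nat_lit 1) (nat_lit 313) (nat_lit 0) (nat_lit 19) (.e false (nat_lit 3) (nat_lit 316) (nat_lit 0) (nat_lit 19) (.e false (nat_lit 2) (nat_lit 317) (nat_lit 0) (nat_lit 19) (.e true (nat_lit 1) (nat_lit 319) (nat_lit 0) (nat_lit 19) (.e false (nat_lit 1) (nat_lit 285) (nat_lit 1) (nat_lit 18) (.u (nat_lit 2) (.p (nat_lit 0) (nat_lit 2) (.p (nat_lit 1) (nat_lit 1) (.p (nat_lit 3) (nat_lit 1) (.p (nat_lit 4) (nat_lit 4) (.p (nat_lit 5) (nat_lit 2) (.p (nat_lit 6) (nat_lit 4) (.n (nat_lit 7) (nat_lit 1) (.n (nat_lit 8) (nat_lit 1) (.p (nat_lit 9) (nat_lit 1) (.p (nat_lit 10) (nat_lit 2) (.p (nat_lit 11) (nat_lit 1) (.p (nat_lit 13) (nat_lit 1) (.n (nat_lit 14)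 (nat_lit 3) (.n (nat_lit 15) (nat_lit 3) (.p (nat_lit 17) (nat_lit 2) (.p (nat_lit 18) (nat_lit 4) (.n (nat_lit 19) (nat_lit 2) (.n (nat_lit 20) (nat_lit 5) (.p (nat_lit 26) (nat_lit 1) (.p (nat_lit 27) (nat_lit 1) (.n (nat_lit 28) (nat_lit 1) (.n (nat_lit 29) (nat_lit 3) (.n (nat_lit 32) (nat_lit 4) (.p (nat_lit 33) (nat_lit 4) (.p (nat_lit 34) (nat_lit 1) (.p (nat_lit 35) (nat_lit 2) (.n (nat_lit 36) (nat_lit 1) (.n (nat_lit 37) (nat_lit 3) (.p (nat_lit 38) (nat_lit 5) (.n (nat_lit 39) (nat_lit 4) (.p (nat_lit 40) (nat_lit 3) (.p (nat_lit 41) (nat_lit 1) (.n (nat_lit 49) (nat_lit 1) (.p (nat_lit 50) (nat_lit 1) (.p (nat_lit 53) (nat_lit 1) (.n (nat_lit 55) (nat_lit 1) (.n (nat_lit 56) (nat_lit 1) (.p (nat_lit 57) (nat_lit 2) (.n (nat_lit 58) (nat_lit 1) (.p (nat_lit 62) (nat_lit 1) (.n (nat_lit 63) (nat_lit 1) (.n (nat_lit 69) (nat_lit 2) (.p (nat_lit 70) (nat_lit 3) (.n (nat_lit 328)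 (nat_lit 1) (.p (nat_lit 330) (nat_lit 1) (.p (nat_lit 331) (nat_lit 1) (.p (nat_lit 332) (nat_lit 1) (.n (nat_lit 333) (nat_lit 1) (.p (nat_lit 334) (nat_lit 1) (.n (nat_lit 336) (nat_lit 1) (.p (nat_lit 337) (nat_lit 1) (.p (nat_lit 338) (nat_lit 1) (.n (nat_lit 339) (nat_lit 1) (.n (nat_lit 342) (nat_lit 1) (.p (nat_lit 344) (nat_lit 1) (.p (nat_lit 346) (nat_lit 1) (.n (nat_lit 348) (nat_lit 1) (.n (nat_lit 349) (nat_lit 1) (.p (nat_lit 350) (nat_lit 1) (.p (nat_lit 352) (nat_lit 1) .z)))))))))))))))))))))))))))))))))))))))))))))))))))))))))))) (.u (nat_lit 2) (.n (nat_lit 353) (nat_lit 1) (.p (nat_lit 354) (nat_lit 2) (.n (nat_lit 355) (nat_lit 1) (.n (nat_lit 356) (nat_lit 1) (.n (nat_lit 357) (nat_lit 1) .z))))) .nil)))))))))))))))))))))))))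

noncomputable def dC1c_i227 : IL := (.e false (nat_lit 2) (nat_lit 240) (nat_lit 2) (nat_lit 17) (.e false (nat_lit 2) (nat_lit 242) (nat_lit 2) (nat_lit 17) (.e true (nat_lit 2) (nat_lit 243) (nat_lit 2) (nat_lit 17) (.e true (nat_lit 3) (nat_lit 244) (nat_lit 2) (nat_lit 17) (.e true (nat_lit 1) (nat_lit 214) (nat_lit 2) (nat_lit 17) (.e true (nat_lit 3) (nat_lit 215) (nat_lit 2) (nat_lit 17) (.e true (nat_lit 2) (nat_lit 216) (nat_lit 2) (nat_lit 17) (.e true (nat_lit 3) (nat_lit 217) (nat_lit 2) (nat_lit 17) (.e false (nat_lit 2) (nat_lit 218) (nat_lit 2) (nat_lit 17) (.e true (nat_lit 2) (nat_lit 219) (nat_lit 2) (nat_lit 17) (.e true (nat_lit 2) (nat_lit 220) (nat_lit 2) (nat_lit 17) (.e true (nat_lit 2) (nat_lit 221) (nat_lit 2) (nat_lit 17) (.e true (nat_lit 1) (nat_lit 222) (nat_lit 2) (nat_lit 17) (.e false (nat_lit 3) (nat_lit 224) (nat_lit 2) (nat_lit 17) (.e false (nat_lit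 2) (nat_lit 227) (nat_lit 2) (nat_lit 17) (.e true (nat_lit 2) (nat_lit 229) (nat_lit 2) (nat_lit 17) (.e true (nat_lit 2) (nat_lit 241) (nat_lit 2) (nat_lit 17) (.e true (nat_lit 2) (nat_lit 248) (nat_lit 2) (nat_lit 17) (.e true (nat_lit 1) (nat_lit 247) (nat_lit 2) (nat_lit 17) (.e true (nat_lit 3) (nat_lit 223) (nat_lit 2) (nat_lit 17) (.e true (nat_lit 2) (nat_lit 231) (nat_lit 2) (nat_lit 17) (.e false (nat_lit 1) (nat_lit 232) (nat_lit 2) (nat_lit 17) (.e false (nat_lit 1) (nat_lit 213) (nat_lit 2) (nat_lit 17) (.e true (nat_lit 1) (nat_lit 85) (nat_lit 10) (nat_lit 9) (.e true (nat_lit 2) (nat_lit 290) (nat_lit 0) (nat_lit 19) dC1c_i226)))))))))))))))))))))))))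

noncomputable def dC1c_i228 : IL := (.e true (nat_lit 2) (nat_lit 298) (nat_lit 2) (nat_lit 13) (.e false (nat_lit 2) (nat_lit 299) (nat_lit 2) (nat_lit 13) (.e false (nat_lit 2) (nat_lit 301) (nat_lit 2) (nat_lit 13) (.e true (nat_lit 1) (nat_lit 307) (nat_lit 2) (nat_lit 13) (.e true (nat_lit 2) (nat_lit 308) (nat_lit 2) (nat_lit 13) (.e false (nat_lit 2) (nat_lit 310) (nat_lit 2) (nat_lit 13) (.e false (nat_lit 1) (nat_lit 311) (nat_lit 2) (nat_lit 13) (.e false (nat_lit 3) (nat_lit 316) (nat_lit 2) (nat_lit 13) (.e false (nat_lit 2) (nat_lit 317) (nat_lit 2) (nat_lit 13) (.e true (nat_lit 1) (nat_lit 319) (nat_lit 2) (nat_lit 13) (.e false (nat_lit 1) (nat_lit 328) (nat_lit 1) (nat_lit 14) (.e true (nat_lit 3) (nat_lit 330) (nat_lit 1) (nat_lit 14) (.e true (nat_lit 1) (nat_lit 332) (nat_lit 1) (nat_lit 14) (.e false (nat_lit 2) (nat_lit 334) (nat_lit 1) (nat_lit 14) (.e false (nat_lit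 2) (nat_lit 335) (nat_lit 1) (nat_lit 14) (.e false (nat_lit 2) (nat_lit 336) (nat_lit 1) (nat_lit 14) (.e true (nat_lit 1) (nat_lit 337) (nat_lit 1) (nat_lit 14) (.e false (nat_lit 3) (nat_lit 338) (nat_lit 1) (nat_lit 14) (.e true (nat_lit 2) (nat_lit 340) (nat_lit 1) (nat_lit 14) (.e true (nat_lit 1) (nat_lit 290) (nat_lit 2) (nat_lit 13) (.e true (nat_lit 1) (nat_lit 318) (nat_lit 2) (nat_lit 13) (.e false (nat_lit 2) (nat_lit 303) (nat_lit 2) (nat_lit 13) (.e true (nat_lit 1) (nat_lit 329) (nat_lit 1) (nat_lit 14) (.e false (nat_lit 1) (nat_lit 345) (nat_lit 1) (nat_lit 14) (.u (nat_lit 2) (.p (nat_lit 2) (nat_lit 1) (.p (nat_lit 3) (nat_lit 2) (.p (nat_lit 4) (nat_lit 2) (.p (nat_lit 9) (nat_lit 2) (.n (nat_lit 11) (nat_lit 2) (.p (nat_lit 12) (nat_lit 3) (.n (nat_lit 13) (nat_lit 2) (.n (nat_lit 14) (nat_lit 1) (.p (nat_lit 15) (nat_lit 2) (.n (nat_lit 19) (nat_lit 1) (.n (nat_lit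 22) (nat_lit 1) (.p (nat_lit 24) (nat_lit 1) (.p (nat_lit 26) (nat_lit 1) (.n (nat_lit 29) (nat_lit 2) (.n (nat_lit 33) (nat_lit 3) (.n (nat_lit 179) (nat_lit 1) (.p (nat_lit 180) (nat_lit 1) (.n (nat_lit 184) (nat_lit 1) (.n (nat_lit 193) (nat_lit 1) (.p (nat_lit 205) (nat_lit 1) (.n (nat_lit 213) (nat_lit 1) .z))))))))))))))))))))) .nil)))))))))))))))))))))))))

noncomputable def dC1c_i229 : IL := (.e true (nat_lit 1) (nat_lit 317) (nat_lit 0) (nat_lit 19) (.e true (nat_lit 1) (nat_lit 319) (nat_lit 0) (nat_lit 19) (.e false (nat_lit 2) (nat_lit 261) (nat_lit 1) (nat_lit 18) (.e false (nat_lit 3) (nat_lit 262) (nat_lit 1) (nat_lit 18) (.e false (nat_lit 2) (nat_lit 263) (nat_lit 1) (nat_lit 18) (.e true (nat_lit 3) (nat_lit 264) (nat_lit 1) (nat_lit 18) (.e false (nat_lit 1) (nat_lit 265) (nat_lit 1) (nat_lit 18) (.e false (nat_lit 3) (nat_lit 266) (nat_lit 1) (nat_lit 18) (.e false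 (nat_lit 1) (nat_lit 267) (nat_lit 1) (nat_lit 18) (.e true (nat_lit 2) (nat_lit 268) (nat_lit 1) (nat_lit 18) (.e true (nat_lit 3) (nat_lit 269) (nat_lit 1) (nat_lit 18) (.e false (nat_lit 2) (nat_lit 271) (nat_lit 1) (nat_lit 18) (.e false (nat_lit 3) (nat_lit 272) (nat_lit 1) (nat_lit 18) (.e true (nat_lit 1) (nat_lit 273) (nat_lit 1) (nat_lit 18) (.e true (nat_lit 2) (nat_lit 274) (nat_lit 1) (nat_lit 18) (.e true (nat_lit 3) (nat_lit 277) (nat_lit 1) (nat_lit 18) (.e false (nat_lit 2) (nat_lit 279) (nat_lit 1) (nat_lit 18) (.e true (nat_lit 2) (nat_lit 280) (nat_lit 1) (nat_lit 18) (.e false (nat_lit 1) (nat_lit 281) (nat_lit 1) (nat_lit 18) (.e false (nat_lit 2) (nat_lit 283) (nat_lit 1) (nat_lit 18) (.e true (nat_lit 1) (nat_lit 286) (nat_lit 1) (nat_lit 18) (.e true (nat_lit 1) (nat_lit 287) (nat_lit 1) (nat_lit 18) (.e false (nat_lit 1) (nat_lit 288) (nat_lit 1) (nat_lit 18)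 (.e true (nat_lit 1) (nat_lit 289) (nat_lit 1) (nat_lit 18) (.u (nat_lit 2) (.p (nat_lit 1) (nat_lit 2) (.p (nat_lit 2) (nat_lit 3) (.p (nat_lit 3) (nat_lit 4) (.p (nat_lit 6) (nat_lit 2) (.n (nat_lit 7) (nat_lit 3) (.n (nat_lit 8) (nat_lit 4) (.p (nat_lit 9) (nat_lit 4) (.n (nat_lit 11) (nat_lit 3) (.n (nat_lit 14) (nat_lit 1) (.p (nat_lit 15) (nat_lit 1) (.n (nat_lit 17) (nat_lit 4) (.n (nat_lit 18) (nat_lit 1) (.p (nat_lit 19) (nat_lit 4) (.n (nat_lit 20) (nat_lit 3) (.p (nat_lit 26) (nat_lit 1) (.p (nat_lit 27) (nat_lit 2) (.p (nat_lit 28) (nat_lit 1) (.p (nat_lit 29) (nat_lit 2) (.n (nat_lit 30) (nat_lit 4) (.n (nat_lit 31) (nat_lit 2) (.p (nat_lit 32) (nat_lit 3) (.n (nat_lit 33) (nat_lit 1) (.p (nat_lit 35) (nat_lit 2) (.n (nat_lit 36) (nat_lit 4) (.p (nat_lit 39) (nat_lit 2) (.n (nat_lit 40) (nat_lit 2) (.p (nat_lit 41) (nat_lit 3) (.p (nat_lit 49) (nat_lit 1) (.n (nat_lit 52)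 (nat_lit 1) (.n (nat_lit 53) (nat_lit 1) (.p (nat_lit 54) (nat_lit 1) (.p (nat_lit 63) (nat_lit 1) (.p (nat_lit 69) (nat_lit 1) (.p (nat_lit 328) (nat_lit 2) (.n (nat_lit 330) (nat_lit 1) (.n (nat_lit 332) (nat_lit 1) (.n (nat_lit 337) (nat_lit 1) (.n (nat_lit 338) (nat_lit 1) (.p (nat_lit 339) (nat_lit 1) (.n (nat_lit 346) (nat_lit 1) (.n (nat_lit 351) (nat_lit 1) (.p (nat_lit 352) (nat_lit 1) (.p (nat_lit 355) (nat_lit 1) (.n (nat_lit 356) (nat_lit 1) (.p (nat_lit 359) (nat_lit 1) (.n (nat_lit 363) (nat_lit 1) .z)))))))))))))))))))))))))))))))))))))))))))))) .nil)))))))))))))))))))))))))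

noncomputable def dC1c_i230 : IL := (.e true (nat_lit 3) (nat_lit 248) (nat_lit 2) (nat_lit 17) (.e true (nat_lit 2) (nat_lit 246) (nat_lit 2) (nat_lit 17) (.e true (nat_lit 2) (nat_lit 223) (nat_lit 2) (nat_lit 17) (.e false (nat_lit 1) (nat_lit 231) (nat_lit 2) (nat_lit 17) (.e false (nat_lit 1) (nat_lit 233) (nat_lit 2) (nat_lit 17) (.e true (nat_lit 1) (nat_lit 240) (nat_lit 2) (nat_lit 17) (.e false (nat_lit 1) (nat_lit 232) (nat_lit 2) (nat_lit 17) (.e true (nat_lit 1) (nat_lit 244) (nat_lit 2) (nat_lit 17) (.e true (nat_lit 3) (nat_lit 245) (nat_lit 2) (nat_lit 17) (.e false (nat_lit 2) (nat_lit 212) (nat_lit 2) (nat_lit 17) (.e true (nat_lit 2) (nat_lit 216) (nat_lit 2) (nat_lit 17) (.e true (nat_lit 2) (nat_lit 229) (nat_lit 2) (nat_lit 17) (.e true (nat_lit 1) (nat_lit 90) (nat_lit 10) (nat_lit 9) (.e true (nat_lit 2) (nat_lit 290) (nat_lit 0) (nat_lit 19) (.e false (nat_lit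 2) (nat_lit 291) (nat_lit 0) (nat_lit 19) (.e false (nat_lit 1) (nat_lit 292) (nat_lit 0) (nat_lit 19) (.e true (nat_lit 1) (nat_lit 293) (nat_lit 0) (nat_lit 19) (.e true (nat_lit 1) (nat_lit 294) (nat_lit 0) (nat_lit 19) (.e true (nat_lit 1) (nat_lit 299) (nat_lit 0) (nat_lit 19) (.e false (nat_lit 2) (nat_lit 301) (nat_lit 0) (nat_lit 19) (.e true (nat_lit 3) (nat_lit 304) (nat_lit 0) (nat_lit 19) (.e false (nat_lit 2) (nat_lit 307) (nat_lit 0) (nat_lit 19) (.e true (nat_lit 2) (nat_lit 308) (nat_lit 0) (nat_lit 19) (.e true (nat_lit 1) (nat_lit 310) (nat_lit 0) (nat_lit 19) (.e true (nat_lit 1) (nat_lit 311) (nat_lit 0) (nat_lit 19) dC1c_i229)))))))))))))))))))))))))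

noncomputable def dC1c_i231 : IL := (.e true (nat_lit 1) (nat_lit 318) (nat_lit 0) (nat_lit 19) (.e false (nat_lit 1) (nat_lit 319) (nat_lit 0) (nat_lit 19) (.e false (nat_lit 3) (nat_lit 260) (nat_lit 1) (nat_lit 18) (.e false (nat_lit 1) (nat_lit 261) (nat_lit 1) (nat_lit 18) (.e true (nat_lit 2) (nat_lit 262) (nat_lit 1) (nat_lit 18) (.e false (nat_lit 3) (nat_lit 263) (nat_lit 1) (nat_lit 18) (.e true (nat_lit 2) (nat_lit 264) (nat_lit 1) (nat_lit 18) (.e false (nat_lit 1) (nat_lit 265) (nat_lit 1) (nat_lit 18) (.e false (nat_lit 2) (nat_lit 266) (nat_lit 1) (nat_lit 18) (.e false (nat_lit 3) (nat_lit 267) (nat_lit 1) (nat_lit 18) (.e true (nat_lit 2) (nat_lit 268) (nat_lit 1) (nat_lit 18) (.e true (nat_lit 2) (nat_lit 269) (nat_lit 1) (nat_lit 18) (.e false (nat_lit 1) (nat_lit 270) (nat_lit 1) (nat_lit 18) (.e true (nat_lit 2) (nat_lit 271) (nat_lit 1) (nat_lit 18) (.e false (nat_lit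 2) (nat_lit 273) (nat_lit 1) (nat_lit 18) (.e true (nat_lit 1) (nat_lit 274) (nat_lit 1) (nat_lit 18) (.e true (nat_lit 2) (nat_lit 277) (nat_lit 1) (nat_lit 18) (.e true (nat_lit 1) (nat_lit 278) (nat_lit 1) (nat_lit 18) (.e true (nat_lit 3) (nat_lit 279) (nat_lit 1) (nat_lit 18) (.e true (nat_lit 1) (nat_lit 280) (nat_lit 1) (nat_lit 18) (.e false (nat_lit 2) (nat_lit 284) (nat_lit 1) (nat_lit 18) (.e false (nat_lit 1) (nat_lit 286) (nat_lit 1) (nat_lit 18) (.e true (nat_lit 1) (nat_lit 288) (nat_lit 1) (nat_lit 18) (.u (nat_lit 2) (.p (nat_lit 0) (nat_lit 2) (.n (nat_lit 1) (nat_lit 2) (.p (nat_lit 3) (nat_lit 5) (.n (nat_lit 4) (nat_lit 1) (.p (nat_lit 6) (nat_lit 4) (.n (nat_lit 7) (nat_lit 1) (.p (nat_lit 8) (nat_lit 2) (.p (nat_lit 9) (nat_lit 1) (.p (nat_lit 10) (nat_lit 1) (.n (nat_lit 11) (nat_lit 2) (.p (nat_lit 12) (nat_lit 5) (.p (nat_lit 13) (nat_lit 3) (.p (nat_lit 14)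 (nat_lit 2) (.n (nat_lit 15) (nat_lit 4) (.n (nat_lit 17) (nat_lit 2) (.p (nat_lit 18) (nat_lit 1) (.n (nat_lit 19) (nat_lit 4) (.n (nat_lit 20) (nat_lit 2) (.n (nat_lit 26) (nat_lit 1) (.p (nat_lit 27) (nat_lit 2) (.p (nat_lit 28) (nat_lit 1) (.n (nat_lit 29) (nat_lit 2) (.n (nat_lit 30) (nat_lit 2) (.p (nat_lit 31) (nat_lit 2) (.p (nat_lit 32) (nat_lit 2) (.p (nat_lit 33) (nat_lit 3) (.p (nat_lit 34) (nat_lit 1) (.n (nat_lit 36) (nat_lit 1) (.p (nat_lit 37) (nat_lit 1) (.n (nat_lit 38) (nat_lit 1) (.n (nat_lit 39) (nat_lit 5) (.n (nat_lit 40) (nat_lit 3) (.p (nat_lit 41) (nat_lit 1) (.n (nat_lit 49) (nat_lit 1) (.n (nat_lit 50) (nat_lit 1) (.p (nat_lit 51) (nat_lit 1) (.n (nat_lit 52) (nat_lit 1) (.p (nat_lit 53) (nat_lit 2) (.p (nat_lit 55) (nat_lit 2) (.p (nat_lit 57) (nat_lit 3) (.n (nat_lit 58) (nat_lit 3) (.n (nat_lit 60) (nat_lit 2) (.n (nat_lit 63) (nat_lit 1) (.p (nat_lit 64)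 (nat_lit 1) (.n (nat_lit 69) (nat_lit 2) (.p (nat_lit 70) (nat_lit 2) (.p (nat_lit 327) (nat_lit 1) (.p (nat_lit 328) (nat_lit 2) (.n (nat_lit 332) (nat_lit 1) (.n (nat_lit 333) (nat_lit 1) (.p (nat_lit 334) (nat_lit 1) (.p (nat_lit 336) (nat_lit 1) (.n (nat_lit 337) (nat_lit 1) (.n (nat_lit 338) (nat_lit 1) (.p (nat_lit 339) (nat_lit 1) (.p (nat_lit 342) (nat_lit 1) (.p (nat_lit 347) (nat_lit 1) (.p (nat_lit 348) (nat_lit 1) (.p (nat_lit 350) (nat_lit 1) (.p (nat_lit 352) (nat_lit 2) .z)))))))))))))))))))))))))))))))))))))))))))))))))))))))))))) (.u (nat_lit 2) (.p (nat_lit 353) (nat_lit 1) (.n (nat_lit 354) (nat_lit 1) (.p (nat_lit 355) (nat_lit 1) (.p (nat_lit 356) (nat_lit 1) (.p (nat_lit 357) (nat_lit 1) .z))))) .nil)))))))))))))))))))))))))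

noncomputable def dC1c_i232 : IL := (.e true (nat_lit 3) (nat_lit 242) (nat_lit 2) (nat_lit 17) (.e false (nat_lit 3) (nat_lit 220) (nat_lit 2) (nat_lit 17) (.e false (nat_lit 1) (nat_lit 243) (nat_lit 2) (nat_lit 17) (.e false (nat_lit 2) (nat_lit 244) (nat_lit 2) (nat_lit 17) (.e true (nat_lit 1) (nat_lit 245) (nat_lit 2) (nat_lit 17) (.e true (nat_lit 1) (nat_lit 91) (nat_lit 10) (nat_lit 9) (.e false (nat_lit 2) (nat_lit 290) (nat_lit 0) (nat_lit 19) (.e true (nat_lit 1) (nat_lit 291) (nat_lit 0) (nat_lit 19) (.e false (nat_lit 1) (nat_lit 293) (nat_lit 0) (nat_lit 19) (.e true (nat_lit 1) (nat_lit 294) (nat_lit 0) (nat_lit 19) (.e false (nat_lit 1) (nat_lit 295) (nat_lit 0) (nat_lit 19) (.e true (nat_lit 3) (nat_lit 296) (nat_lit 0) (nat_lit 19) (.e false (nat_lit 3) (nat_lit 297) (nat_lit 0) (nat_lit 19) (.e true (nat_lit 1) (nat_lit 298) (nat_lit 0) (nat_lit 19) (.e true (nat_lit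 2) (nat_lit 299) (nat_lit 0) (nat_lit 19) (.e true (nat_lit 2) (nat_lit 300) (nat_lit 0) (nat_lit 19) (.e true (nat_lit 3) (nat_lit 301) (nat_lit 0) (nat_lit 19) (.e false (nat_lit 1) (nat_lit 305) (nat_lit 0) (nat_lit 19) (.e true (nat_lit 2) (nat_lit 307) (nat_lit 0) (nat_lit 19) (.e false (nat_lit 2) (nat_lit 308) (nat_lit 0) (nat_lit 19) (.e false (nat_lit 2) (nat_lit 310) (nat_lit 0) (nat_lit 19) (.e true (nat_lit 1) (nat_lit 311) (nat_lit 0) (nat_lit 19) (.e true (nat_lit 2) (nat_lit 312) (nat_lit 0) (nat_lit 19) (.e false (nat_lit 2) (nat_lit 316) (nat_lit 0) (nat_lit 19) (.e false (nat_lit 3) (nat_lit 317) (nat_lit 0) (nat_lit 19) dC1c_i231)))))))))))))))))))))))))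

noncomputable def dC1c_i233 : IL := (.s true (nat_lit 1) (nat_lit 91) (nat_lit 0) (nat_lit 1) (nat_lit 2) true (nat_lit 15) true (nat_lit 17) false (nat_lit 9) true (nat_lit 19) true (nat_lit 18) (.e true (nat_lit 2) (nat_lit 232) (nat_lit 2) (nat_lit 17) (.e true (nat_lit 1) (nat_lit 234) (nat_lit 2) (nat_lit 17) (.e true (nat_lit 1) (nat_lit 235) (nat_lit 2) (nat_lit 17) (.e true (nat_lit 3) (nat_lit 238) (nat_lit 2) (nat_lit 17) (.e false (nat_lit 2) (nat_lit 212) (nat_lit 2) (nat_lit 17) (.e false (nat_lit 1) (nat_lit 213) (nat_lit 2) (nat_lit 17) (.e true (nat_lit 2) (nat_lit 214) (nat_lit 2) (nat_lit 17) (.e true (nat_lit 2) (nat_lit 216) (nat_lit 2) (nat_lit 17) (.e false (nat_lit 2) (nat_lit 217) (nat_lit 2) (nat_lit 17) (.e true (nat_lit 1) (nat_lit 218) (nat_lit 2) (nat_lit 17) (.e false (nat_lit 1) (nat_lit 219) (nat_lit 2) (nat_lit 17) (.e true (nat_lit 3) (nat_lit 221) (nat_lit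 2) (nat_lit 17) (.e true (nat_lit 2) (nat_lit 224) (nat_lit 2) (nat_lit 17) (.e false (nat_lit 1) (nat_lit 227) (nat_lit 2) (nat_lit 17) (.e true (nat_lit 2) (nat_lit 229) (nat_lit 2) (nat_lit 17) (.e false (nat_lit 1) (nat_lit 237) (nat_lit 2) (nat_lit 17) (.e true (nat_lit 1) (nat_lit 248) (nat_lit 2) (nat_lit 17) (.e true (nat_lit 2) (nat_lit 247) (nat_lit 2) (nat_lit 17) (.e true (nat_lit 2) (nat_lit 223) (nat_lit 2) (nat_lit 17) (.e false (nat_lit 1) (nat_lit 231) (nat_lit 2) (nat_lit 17) (.e false (nat_lit 3) (nat_lit 236) (nat_lit 2) (nat_lit 17) (.e false (nat_lit 1) (nat_lit 239) (nat_lit 2) (nat_lit 17) (.e false (nat_lit 1) (nat_lit 240) (nat_lit 2) (nat_lit 17) (.e true (nat_lit 3) (nat_lit 241) (nat_lit 2) (nat_lit 17) dC1c_i232)))))))))))))))))))))))))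

noncomputable def dC1c_i234 : IL := (.e true (nat_lit 2) (nat_lit 155) (nat_lit 6) (nat_lit 9) (.e true (nat_lit 1) (nat_lit 156) (nat_lit 6) (nat_lit 9) (.e false (nat_lit 3) (nat_lit 157) (nat_lit 6) (nat_lit 9) (.e true (nat_lit 1) (nat_lit 159) (nat_lit 6) (nat_lit 9) (.e false (nat_lit 1) (nat_lit 160) (nat_lit 6) (nat_lit 9) (.e false (nat_lit 2) (nat_lit 161) (nat_lit 6) (nat_lit 9) (.e true (nat_lit 2) (nat_lit 163) (nat_lit 6) (nat_lit 9) (.e false (nat_lit 1) (nat_lit 165) (nat_lit 6) (nat_lit 9) (.e false (nat_lit 3) (nat_lit 168) (nat_lit 6) (nat_lit 9) (.e false (nat_lit 1) (nat_lit 170) (nat_lit 6) (nat_lit 9) (.e false (nat_lit 3) (nat_lit 171) (nat_lit 6) (nat_lit 9) (.e false (nat_lit 1) (nat_lit 173) (nat_lit 6) (nat_lit 9) (.e true (nat_lit 1) (nat_lit 162) (nat_lit 6) (nat_lit 9) (.e true (nat_lit 2) (nat_lit 167) (nat_lit 6) (nat_lit 9) (.e false (nat_lit 2) (nat_lit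 164) (nat_lit 6) (nat_lit 9) (.e false (nat_lit 3) (nat_lit 99) (nat_lit 13) (nat_lit 6) (.e false (nat_lit 3) (nat_lit 100) (nat_lit 13) (nat_lit 6) (.e true (nat_lit 3) (nat_lit 158) (nat_lit 6) (nat_lit 9) (.e true (nat_lit 2) (nat_lit 172) (nat_lit 6) (nat_lit 9) (.e false (nat_lit 2) (nat_lit 350) (nat_lit 0) (nat_lit 15) (.e false (nat_lit 3) (nat_lit 351) (nat_lit 0) (nat_lit 15) (.e true (nat_lit 3) (nat_lit 352) (nat_lit 0) (nat_lit 15) (.e true (nat_lit 1) (nat_lit 348) (nat_lit 0) (nat_lit 15) (.e true (nat_lit 2) (nat_lit 349) (nat_lit 0) (nat_lit 15) (.u (nat_lit 2) (.n (nat_lit 0) (nat_lit 2) (.p (nat_lit 1) (nat_lit 1) (.n (nat_lit 3) (nat_lit 6) (.p (nat_lit 4) (nat_lit 6) (.p (nat_lit 5) (nat_lit 1) (.n (nat_lit 7) (nat_lit 3) (.p (nat_lit 9) (nat_lit 1) (.p (nat_lit 10) (nat_lit 3) (.n (nat_lit 12) (nat_lit 1) (.p (nat_lit 13) (nat_lit 2) (.p (nat_lit 14) (nat_lit 2)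 (.n (nat_lit 15) (nat_lit 2) (.n (nat_lit 16) (nat_lit 4) (.p (nat_lit 17) (nat_lit 1) (.n (nat_lit 18) (nat_lit 1) (.p (nat_lit 19) (nat_lit 1) (.p (nat_lit 20) (nat_lit 1) (.p (nat_lit 21) (nat_lit 1) (.p (nat_lit 23) (nat_lit 1) (.n (nat_lit 24) (nat_lit 1) (.p (nat_lit 26) (nat_lit 1) (.n (nat_lit 27) (nat_lit 1) (.n (nat_lit 32) (nat_lit 1) (.n (nat_lit 33) (nat_lit 2) (.n (nat_lit 109) (nat_lit 1) (.n (nat_lit 110) (nat_lit 1) (.p (nat_lit 128) (nat_lit 1) (.n (nat_lit 129) (nat_lit 1) (.p (nat_lit 130) (nat_lit 1) (.n (nat_lit 131) (nat_lit 1) (.p (nat_lit 132) (nat_lit 1) (.n (nat_lit 134) (nat_lit 1) (.n (nat_lit 136) (nat_lit 2) (.n (nat_lit 137) (nat_lit 1) (.p (nat_lit 138) (nat_lit 2) (.n (nat_lit 140) (nat_lit 3) (.n (nat_lit 141) (nat_lit 1) (.n (nat_lit 142) (nat_lit 1) (.p (nat_lit 143) (nat_lit 1) (.n (nat_lit 145) (nat_lit 1) (.n (nat_lit 223) (nat_lit 1) (.n (nat_lit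 226) (nat_lit 1) (.p (nat_lit 227) (nat_lit 1) .z))))))))))))))))))))))))))))))))))))))))))) .nil)))))))))))))))))))))))))

noncomputable def dC1c_i235 : IL := (.e false (nat_lit 3) (nat_lit 223) (nat_lit 2) (nat_lit 17) (.e false (nat_lit 1) (nat_lit 224) (nat_lit 2) (nat_lit 17) (.e true (nat_lit 2) (nat_lit 226) (nat_lit 2) (nat_lit 17) (.e false (nat_lit 3) (nat_lit 227) (nat_lit 2) (nat_lit 17) (.e false (nat_lit 1) (nat_lit 230) (nat_lit 2) (nat_lit 17) (.e true (nat_lit 3) (nat_lit 231) (nat_lit 2) (nat_lit 17) (.e false (nat_lit 3) (nat_lit 232) (nat_lit 2) (nat_lit 17) (.e true (nat_lit 2) (nat_lit 234) (nat_lit 2) (nat_lit 17) (.e true (nat_lit 2) (nat_lit 235) (nat_lit 2) (nat_lit 17) (.e false (nat_lit 2) (nat_lit 236) (nat_lit 2) (nat_lit 17) (.e false (nat_lit 3) (nat_lit 237) (nat_lit 2) (nat_lit 17) (.e false (nat_lit 3) (nat_lit 238) (nat_lit 2) (nat_lit 17) (.e true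 (nat_lit 3) (nat_lit 239) (nat_lit 2) (nat_lit 17) (.e false (nat_lit 2) (nat_lit 240) (nat_lit 2) (nat_lit 17) (.e false (nat_lit 2) (nat_lit 241) (nat_lit 2) (nat_lit 17) (.e true (nat_lit 1) (nat_lit 243) (nat_lit 2) (nat_lit 17) (.e false (nat_lit 3) (nat_lit 244) (nat_lit 2) (nat_lit 17) (.e false (nat_lit 2) (nat_lit 245) (nat_lit 2) (nat_lit 17) (.e false (nat_lit 1) (nat_lit 248) (nat_lit 2) (nat_lit 17) (.e true (nat_lit 2) (nat_lit 253) (nat_lit 2) (nat_lit 17) (.e true (nat_lit 1) (nat_lit 41) (nat_lit 24) (nat_lit 2) (.e true (nat_lit 1) (nat_lit 307) (nat_lit 0) (nat_lit 19) (.e false (nat_lit 1) (nat_lit 316) (nat_lit 0) (nat_lit 19) (.e false (nat_lit 1) (nat_lit 125) (nat_lit 6) (nat_lit 13) (.u (nat_lit 2) (.p (nat_lit 0) (nat_lit 2) (.p (nat_lit 1) (nat_lit 2) (.n (nat_lit 2) (nat_lit 3) (.p (nat_lit 4) (nat_lit 3) (.n (nat_lit 5) (nat_lit 3) (.n (nat_lit 6) (nat_lit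 4) (.n (nat_lit 8) (nat_lit 2) (.p (nat_lit 9) (nat_lit 4) (.p (nat_lit 10) (nat_lit 4) (.n (nat_lit 11) (nat_lit 2) (.n (nat_lit 12) (nat_lit 2) (.n (nat_lit 13) (nat_lit 1) (.p (nat_lit 14) (nat_lit 5) (.n (nat_lit 15) (nat_lit 4) (.n (nat_lit 17) (nat_lit 3) (.n (nat_lit 18) (nat_lit 1) (.n (nat_lit 20) (nat_lit 3) (.n (nat_lit 24) (nat_lit 1) (.n (nat_lit 25) (nat_lit 1) (.n (nat_lit 26) (nat_lit 2) (.n (nat_lit 27) (nat_lit 5) (.n (nat_lit 28) (nat_lit 2) (.p (nat_lit 29) (nat_lit 1) (.p (nat_lit 30) (nat_lit 1) (.p (nat_lit 31) (nat_lit 4) (.p (nat_lit 32) (nat_lit 1) (.n (nat_lit 34) (nat_lit 4) (.n (nat_lit 35) (nat_lit 8) (.n (nat_lit 36) (nat_lit 1) (.n (nat_lit 37) (nat_lit 3) (.n (nat_lit 38) (nat_lit 1) (.n (nat_lit 39) (nat_lit 3) (.p (nat_lit 40) (nat_lit 3) (.n (nat_lit 41) (nat_lit 1) (.p (nat_lit 45) (nat_lit 1) (.n (nat_lit 46) (nat_lit 1) (.p (nat_lit 49) (nat_lit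 3) (.p (nat_lit 50) (nat_lit 2) (.n (nat_lit 53) (nat_lit 3) (.n (nat_lit 55) (nat_lit 3) (.n (nat_lit 56) (nat_lit 1) (.p (nat_lit 60) (nat_lit 2) (.n (nat_lit 62) (nat_lit 1) (.p (nat_lit 63) (nat_lit 2) (.n (nat_lit 64) (nat_lit 2) (.p (nat_lit 65) (nat_lit 1) (.p (nat_lit 67) (nat_lit 1) (.p (nat_lit 69) (nat_lit 2) (.n (nat_lit 70) (nat_lit 1) .z))))))))))))))))))))))))))))))))))))))))))))))))) .nil)))))))))))))))))))))))))

noncomputable def dC1c_t0 : Tr := (.nd (.nd (.nd (.nd (.nd (.nd (.nd .leaf (nat_lit 88076) (nat_lit 1079) (.p (nat_lit 355) (nat_lit 1) (.p (nat_lit 356) (nat_lit 2) (.n (nat_lit 358) (nat_lit 2) (.p (nat_lit 359) (nat_lit 3) (.p (nat_lit 362) (nat_lit 3) (.n (nat_lit 363) (nat_lit 3) (.p (nat_lit 364) (nat_lit 2) (.p (nat_lit 365) (nat_lit 3) (.p (nat_lit 366) (nat_lit 2) (.n (nat_lit 367) (nat_lit 2) (.p (nat_lit 368) (nat_lit 2) (.n (nat_lit 370) (nat_lit 1) (.p (nat_lit 372) (nat_lit 1) (.p (nat_lit 373) (nat_lit 1) (.p (nat_lit 374) (nat_lit 3) (.n (nat_lit 375) (nat_lit 1) (.p (nat_lit 378) (nat_lit 2) (.p (nat_lit 381) (nat_lit 1) (.n (nat_lit 382) (nat_lit 2) (.p (nat_lit 383) (nat_lit 3) (.n (nat_lit 384) (nat_lit 2) (.p (nat_lit 385) (nat_lit 1) (.n (nat_lit 386) (nat_lit 3) (.n (nat_lit 387) (nat_lit 3) (.p (nat_lit 388) (nat_lit 3) (.n (nat_lit 390) (nat_lit 2) (.n (nat_lit 391) (nat_lit 1) (.n (nat_lit 392) (nat_lit 1) (.p (nat_lit 393) (nat_lit 2) (.p (nat_lit 395) (nat_lit 1) (.p (nat_lit 396) (nat_lit 3) (.n (nat_lit 398) (nat_lit 2) (.n (nat_lit 404) (nat_lit 3) (.n (nat_lit 405) (nat_lit 1) (.p (nat_lit 406) (nat_lit 1) (.p (nat_lit 408) (nat_lit 2) (.p (nat_lit 409) (nat_lit 1) (.p (nat_lit 410) (nat_lit 3) (.n (nat_lit 412) (nat_lit 3) (.p (nat_lit 413) (nat_lit 3) (.n (nat_lit 416) (nat_lit 2) (.p (nat_lit 417) (nat_lit 2) (.p (nat_lit 418) (nat_lit 2) (.n (nat_lit 419) (nat_lit 2) (.p (nat_lit 421) (nat_lit 2) (.p (nat_lit 424) (nat_lit 1) (.n (nat_lit 425) (nat_lit 1) .z))))))))))))))))))))))))))))))))))))))))))))))) (.ct dC1c_c548 (nat_lit 1) (nat_lit 9) (.s true (nat_lit 1) (nat_lit 86) (nat_lit 1) (nat_lit 2) (nat_lit 0) true (nat_lit 16) true (nat_lit 19) false (nat_lit 9) true (nat_lit 18) true (nat_lit 17) (.e false (nat_lit 1) (nat_lit 184) (nat_lit 3) (nat_lit 16) (.e true (nat_lit 1) (nat_lit 290) (nat_lit 0) (nat_lit 19) (.e true (nat_lit 1) (nat_lit 291) (nat_lit 0) (nat_lit 19) (.e true (nat_lit 2) (nat_lit 292) (nat_lit 0) (nat_lit 19) (.e false (nat_lit 1) (nat_lit 293) (nat_lit 0) (nat_lit 19) (.e true (nat_lit 3) (nat_lit 294) (nat_lit 0) (nat_lit 19) (.e true (nat_lit 1) (nat_lit 295) (nat_lit 0) (nat_lit 19) (.e true (nat_lit 3) (nat_lit 296) (nat_lit 0) (nat_lit 19) (.e false (nat_lit 3) (nat_lit 297) (nat_lit 0) (nat_lit 19) (.e false (nat_lit 3) (nat_lit 298) (nat_lit 0) (nat_lit 19) (.e true (nat_lit 2) (nat_lit 299) (nat_lit 0) (nat_lit 19) (.e true (nat_lit 2) (nat_lit 302) (nat_lit 0) (nat_lit 19) (.e true (nat_lit 2) (nat_lit 303) (nat_lit 0) (nat_lit 19) (.e true (nat_lit 1) (nat_lit 304) (nat_lit 0) (nat_lit 19) (.e false (nat_lit 1) (nat_lit 305) (nat_lit 0) (nat_lit 19) (.e false (nat_lit 2) (nat_lit 307) (nat_lit 0) (nat_lit 19) (.e true (nat_lit 3) (nat_lit 308) (nat_lit 0) (nat_lit 19) (.e false (nat_lit 1) (nat_lit 309) (nat_lit 0) (nat_lit 19) (.e false (nat_lit 1) (nat_lit 310) (nat_lit 0) (nat_lit 19) dC1c_i1))))))))))))))))))))) .leaf) (nat_lit 88078) (nat_lit 1370) (.p (nat_lit 427) (nat_lit 2) (.n (nat_lit 428) (nat_lit 3) (.n (nat_lit 429) (nat_lit 1) (.n (nat_lit 430) (nat_lit 3) (.n (nat_lit 431) (nat_lit 2) (.n (nat_lit 432) (nat_lit 3) (.n (nat_lit 433) (nat_lit 3) (.p (nat_lit 435) (nat_lit 2) (.p (nat_lit 436) (nat_lit 3) (.p (nat_lit 438) (nat_lit 3) (.p (nat_lit 439) (nat_lit 1) (.n (nat_lit 441) (nat_lit 1) (.n (nat_lit 442) (nat_lit 2) (.p (nat_lit 443) (nat_lit 1) (.p (nat_lit 444) (nat_lit 2) (.n (nat_lit 445) (nat_lit 1) (.p (nat_lit 447) (nat_lit 2) (.n (nat_lit 448) (nat_lit 2) (.n (nat_lit 450) (nat_lit 2) (.p (nat_lit 451) (nat_lit 2) (.n (nat_lit 452) (nat_lit 1) (.p (nat_lit 453) (nat_lit 1) (.n (nat_lit 455) (nat_lit 2) .z))))))))))))))))))))))) (.ct dC1c_c533 (nat_lit 1) (nat_lit 5) (.s true (nat_lit 1) (nat_lit 18) (nat_lit 0) (nat_lit 14) (nat_lit 1) true (nat_lit 12) true (nat_lit 14) true (nat_lit 3) true (nat_lit 15) true (nat_lit 5) (.e false (nat_lit 1) (nat_lit 204) (nat_lit 3) (nat_lit 12) dC1c_i2))) (.nd .leaf (nat_lit 88079) (nat_lit 1376) (.n (nat_lit 426) (nat_lit 3) (.n (nat_lit 427) (nat_lit 3) (.n (nat_lit 428) (nat_lit 2) (.n (nat_lit 429) (nat_lit 1) (.p (nat_lit 430) (nat_lit 2) (.p (nat_lit 431) (nat_lit 2) (.n (nat_lit 432) (nat_lit 1) (.n (nat_lit 433) (nat_lit 1) (.n (nat_lit 434) (nat_lit 3) (.p (nat_lit 435) (nat_lit 1) (.p (nat_lit 436) (nat_lit 1) (.n (nat_lit 438) (nat_lit 1) (.p (nat_lit 439) (nat_lit 2) (.n (nat_lit 441) (nat_lit 3) (.p (nat_lit 443) (nat_lit 1) (.n (nat_lit 444) (nat_lit 1) (.p (nat_lit 445) (nat_lit 2) (.n (nat_lit 447) (nat_lit 3) (.p (nat_lit 448) (nat_lit 3) (.p (nat_lit 450) (nat_lit 3) (.n (nat_lit 451) (nat_lit 3) (.n (nat_lit 452) (nat_lit 2) (.p (nat_lit 453) (nat_lit 2) (.p (nat_lit 455) (nat_lit 3) (.p (nat_lit 456) (nat_lit 1) (.p (nat_lit 459) (nat_lit 3) .z)))))))))))))))))))))))))) (.ct dC1c_c533 (nat_lit 1) (nat_lit 5) (.s true (nat_lit 1) (nat_lit 45) (nat_lit 6) (nat_lit 0) (nat_lit 0) true (nat_lit 5) true (nat_lit 15) false (nat_lit 1) true (nat_lit 9) true (nat_lit 15) (.e false (nat_lit 2) (nat_lit 84) (nat_lit 15) (nat_lit 5) (.e false (nat_lit 2) (nat_lit 87) (nat_lit 15) (nat_lit 5) (.e false (nat_lit 1) (nat_lit 90) (nat_lit 15) (nat_lit 5) (.e true (nat_lit 1) (nat_lit 92) (nat_lit 15) (nat_lit 5) (.e true (nat_lit 1) (nat_lit 328) (nat_lit 0) (nat_lit 15) (.e false (nat_lit 2) (nat_lit 329) (nat_lit 0) (nat_lit 15) (.e false (nat_lit 1) (nat_lit 330) (nat_lit 0) (nat_lit 15) (.e false (nat_lit 3) (nat_lit 331) (nat_lit 0) (nat_lit 15) (.e false (nat_lit 2) (nat_lit 332) (nat_lit 0) (nat_lit 15) (.e true (nat_lit 2) (nat_lit 336) (nat_lit 0) (nat_lit 15) (.e false (nat_lit 2) (nat_lit 337) (nat_lit 0) (nat_lit 15) (.e false (nat_lit 1) (nat_lit 338) (nat_lit 0) (nat_lit 15) (.e false (nat_lit 3) (nat_lit 340) (nat_lit 0) (nat_lit 15) (.e false (nat_lit 2) (nat_lit 341) (nat_lit 0) (nat_lit 15) (.e false (nat_lit 1) (nat_lit 45) (nat_lit 30) (nat_lit 1) (.e false (nat_lit 1) (nat_lit 346) (nat_lit 0) (nat_lit 15) (.e true (nat_lit 1) (nat_lit 344) (nat_lit 0) (nat_lit 15) (.u (nat_lit 2) (.p (nat_lit 1) (nat_lit 1) (.p (nat_lit 2) (nat_lit 1) (.p (nat_lit 3) (nat_lit 2) (.n (nat_lit 6) (nat_lit 1) (.n (nat_lit 7) (nat_lit 1) (.p (nat_lit 8) (nat_lit 1) (.p (nat_lit 9) (nat_lit 1) (.p (nat_lit 16) (nat_lit 1) (.n (nat_lit 18) (nat_lit 1) (.p (nat_lit 21) (nat_lit 1) (.n (nat_lit 22) (nat_lit 1) (.n (nat_lit 24) (nat_lit 1) (.p (nat_lit 25) (nat_lit 1) (.p (nat_lit 28) (nat_lit 2) (.n (nat_lit 29) (nat_lit 2) (.n (nat_lit 33) (nat_lit 1) (.n (nat_lit 211) (nat_lit 1) (.p (nat_lit 213) (nat_lit 1) (.n (nat_lit 214) (nat_lit 1) (.p (nat_lit 215) (nat_lit 1) (.p (nat_lit 219) (nat_lit 1) (.n (nat_lit 221) (nat_lit 1) .z)))))))))))))))))))))) .nil)))))))))))))))))))) .leaf)) (nat_lit 88080) (nat_lit 1535) (.p (nat_lit 460) (nat_lit 1) (.p (nat_lit 461) (nat_lit 1) (.n (nat_lit 462) (nat_lit 1) (.n (nat_lit 463) (nat_lit 2) (.n (nat_lit 464) (nat_lit 2) (.p (nat_lit 465) (nat_lit 2) (.n (nat_lit 467) (nat_lit 1) (.p (nat_lit 468) (nat_lit 1) (.p (nat_lit 470) (nat_lit 1) (.p (nat_lit 471) (nat_lit 2) (.n (nat_lit 472) (nat_lit 2) (.n (nat_lit 473) (nat_lit 1) (.n (nat_lit 474) (nat_lit 1) (.n (nat_lit 475) (nat_lit 2) (.n (nat_lit 476) (nat_lit 1) (.n (nat_lit 477) (nat_lit 1) (.p (nat_lit 479) (nat_lit 2) (.n (nat_lit 488) (nat_lit 2) (.p (nat_lit 489) (nat_lit 1) (.p (nat_lit 493) (nat_lit 3) .z)))))))))))))))))))) (.ct dC1c_c293 (nat_lit 1) (nat_lit 4) (.s false (nat_lit 1) (nat_lit 18) (nat_lit 1) (nat_lit 0) (nat_lit 16) true (nat_lit 0) true (nat_lit 4) true (nat_lit 3) true (nat_lit 14) true (nat_lit 15) (.e false (nat_lit 1) (nat_lit 42) (nat_lit 38) (nat_lit 0) (.e false (nat_lit 2) (nat_lit 84) (nat_lit 16) (nat_lit 4) (.e false (nat_lit 2) (nat_lit 87) (nat_lit 16) (nat_lit 4) (.e false (nat_lit 1) (nat_lit 90) (nat_lit 16) (nat_lit 4) (.e true (nat_lit 1) (nat_lit 92) (nat_lit 16) (nat_lit 4) (.e false (nat_lit 1) (nat_lit 66) (nat_lit 18) (nat_lit 3) dC1c_i3)))))))) (.nd (.nd .leaf (nat_lit 89088) (nat_lit 249) (.n (nat_lit 132) (nat_lit 3) (.p (nat_lit 133) (nat_lit 2) (.n (nat_lit 134) (nat_lit 2) (.n (nat_lit 135) (nat_lit 2) (.n (nat_lit 136) (nat_lit 1) (.n (nat_lit 137) (nat_lit 2) (.n (nat_lit 139) (nat_lit 3) (.p (nat_lit 140) (nat_lit 3) (.n (nat_lit 141) (nat_lit 1) (.p (nat_lit 142) (nat_lit 3) (.n (nat_lit 144) (nat_lit 2) (.p (nat_lit 145) (nat_lit 1) (.n (nat_lit 146) (nat_lit 1) (.n (nat_lit 147) (nat_lit 1) (.p (nat_lit 148) (nat_lit 1) (.n (nat_lit 149) (nat_lit 1) (.n (nat_lit 150) (nat_lit 2) (.p (nat_lit 151) (nat_lit 1) (.p (nat_lit 152) (nat_lit 1) .z))))))))))))))))))) (.ct dC1c_c531 (nat_lit 1) (nat_lit 9) (.s false (nat_lit 3) (nat_lit 6) (nat_lit 4) (nat_lit 0) (nat_lit 1) true (nat_lit 0) true (nat_lit 8) true (nat_lit 3) true (nat_lit 5) true (nat_lit 9) (.s false (nat_lit 3) (nat_lit 6) (nat_lit 4) (nat_lit 1) (nat_lit 0) true (nat_lit 1) true (nat_lit 9) true (nat_lit 3) true (nat_lit 5) true (nat_lit 8) (.s true (nat_lit 3) (nat_lit 11) (nat_lit 0) (nat_lit 2) (nat_lit 2) true (nat_lit 5) true (nat_lit 7) true (nat_lit 0) true (nat_lit 9) true (nat_lit 7) (.s false (nat_lit 3) (nat_lit 11) (nat_lit 2) (nat_lit 2) (nat_lit 0) true (nat_lit 5) true (nat_lit 9) true (nat_lit 0) true (nat_lit 7) true (nat_lit 7) dC1c_i4))))) .leaf) (nat_lit 89089) (nat_lit 304) (.p (nat_lit 153) (nat_lit 1) (.p (nat_lit 154) (nat_lit 1) (.p (nat_lit 155) (nat_lit 1) (.n (nat_lit 156) (nat_lit 1) (.p (nat_lit 157) (nat_lit 3) (.p (nat_lit 159) (nat_lit 3) (.n (nat_lit 160) (nat_lit 3) (.n (nat_lit 161) (nat_lit 3) (.p (nat_lit 162) (nat_lit 2) (.p (nat_lit 163) (nat_lit 1) (.n (nat_lit 164) (nat_lit 1) (.p (nat_lit 166) (nat_lit 1) (.p (nat_lit 167) (nat_lit 1) (.n (nat_lit 170) (nat_lit 2) (.p (nat_lit 171) (nat_lit 3) (.n (nat_lit 173) (nat_lit 1) .z)))))))))))))))) (.ct dC1c_c291 (nat_lit 1) (nat_lit 8) (.s true (nat_lit 2) (nat_lit 5) (nat_lit 0) (nat_lit 2) (nat_lit 5) true (nat_lit 1) true (nat_lit 4) true (nat_lit 4) true (nat_lit 9) true (nat_lit 7) (.s true (nat_lit 3) (nat_lit 6) (nat_lit 2) (nat_lit 1) (nat_lit 3) true (nat_lit 1) true (nat_lit 6) true (nat_lit 3) true (nat_lit 7) true (nat_lit 8) (.s true (nat_lit 3) (nat_lit 6) (nat_lit 4) (nat_lit 1) (nat_lit 1) true (nat_lit 1) true (nat_lit 8) true (nat_lit 3) true (nat_lit 5) true (nat_lit 8) (.s false (nat_lit 2) (nat_lit 12) (nat_lit 1) (nat_lit 2) (nat_lit 2) true (nat_lit 4) true (nat_lit 7) true (nat_lit 1) true (nat_lit 8) true (nat_lit 7) (.s true (nat_lit 3) (nat_lit 12) (nat_lit 2) (nat_lit 1) (nat_lit 2) true (nat_lit 3) true (nat_lit 7) true (nat_lit 1) true (nat_lit 7) true (nat_lit 8) (.s true (nat_lit 2) (nat_lit 15) (nat_lit 1) (nat_lit 1) (nat_lit 2) true (nat_lit 4) true (nat_lit 7) false (nat_lit 0) true (nat_lit 8) true (nat_lit 8) (.s true (nat_lit 2) (nat_lit 16) (nat_lit 0) (nat_lit 2) (nat_lit 1) true (nat_lit 6) true (nat_lit 8) false (nat_lit 1) true (nat_lit 9) true (nat_lit 7) dC1c_i5)))))))) .leaf)) (nat_lit 89090) (nat_lit 345) (.p (nat_lit 185) (nat_lit 1) .z) .df (.nd (.nd (.nd .leaf (nat_lit 89091) (nat_lit 522) (.n (nat_lit 212) (nat_lit 3) (.n (nat_lit 214) (nat_lit 2) (.p (nat_lit 215) (nat_lit 3) (.n (nat_lit 216) (nat_lit 2) (.n (nat_lit 217) (nat_lit 1) (.n (nat_lit 218) (nat_lit 2) (.p (nat_lit 219) (nat_lit 2) (.p (nat_lit 221) (nat_lit 1) (.n (nat_lit 222) (nat_lit 2) (.n (nat_lit 223) (nat_lit 1) (.p (nat_lit 224) (nat_lit 1) (.p (nat_lit 225) (nat_lit 1) (.n (nat_lit 226) (nat_lit 3) (.p (nat_lit 227) (nat_lit 3) (.p (nat_lit 229) (nat_lit 1) (.p (nat_lit 231) (nat_lit 3) (.p (nat_lit 232) (nat_lit 3) (.n (nat_lit 233) (nat_lit 2) (.p (nat_lit 234) (nat_lit 3) (.p (nat_lit 235) (nat_lit 1) (.p (nat_lit 236) (nat_lit 2) (.n (nat_lit 237) (nat_lit 3) (.p (nat_lit 238) (nat_lit 1) (.p (nat_lit 240) (nat_lit 2) (.p (nat_lit 241) (nat_lit 3) (.p (nat_lit 242) (nat_lit 1) (.p (nat_lit 243) (nat_lit 2) (.n (nat_lit 244) (nat_lit 2) (.p (nat_lit 245) (nat_lit 3) (.p (nat_lit 246) (nat_lit 1) (.n (nat_lit 247) (nat_lit 1) (.p (nat_lit 248) (nat_lit 1) .z)))))))))))))))))))))))))))))))) (.ct dC1c_c547 (nat_lit 1) (nat_lit 11) (.s true (nat_lit 3) (nat_lit 45) (nat_lit 1) (nat_lit 0) (nat_lit 0) true (nat_lit 11) true (nat_lit 14) false (nat_lit 7) true (nat_lit 13) true (nat_lit 14) (.e true (nat_lit 1) (nat_lit 84) (nat_lit 3) (nat_lit 11) (.e true (nat_lit 3) (nat_lit 86) (nat_lit 3) (nat_lit 11) (.e false (nat_lit 3) (nat_lit 90) (nat_lit 3) (nat_lit 11) (.e true (nat_lit 3) (nat_lit 92) (nat_lit 3) (nat_lit 11) (.e true (nat_lit 1) (nat_lit 153) (nat_lit 0) (nat_lit 14) (.e true (nat_lit 1) (nat_lit 154) (nat_lit 0) (nat_lit 14) (.e true (nat_lit 3) (nat_lit 155) (nat_lit 0) (nat_lit 14) (.e false (nat_lit 3) (nat_lit 156) (nat_lit 0) (nat_lit 14) (.e false (nat_lit 3) (nat_lit 157) (nat_lit 0) (nat_lit 14) (.e false (nat_lit 3) (nat_lit 161) (nat_lit 0) (nat_lit 14) (.e true (nat_lit 3) (nat_lit 171) (nat_lit 0) (nat_lit 14) (.e true (nat_lit 3) (nat_lit 162) (nat_lit 0) (nat_lit 14) (.e false (nat_lit 3) (nat_lit 45) (nat_lit 7) (nat_lit 7) (.e false (nat_lit 1) (nat_lit 170) (nat_lit 0) (nat_lit 14) (.u (nat_lit 2) (.n (nat_lit 0) (nat_lit 3) (.n (nat_lit 1) (nat_lit 1) (.n (nat_lit 2) (nat_lit 1) (.p (nat_lit 3) (nat_lit 2) (.p (nat_lit 5) (nat_lit 2) (.p (nat_lit 6) (nat_lit 2) (.n (nat_lit 7) (nat_lit 2) (.n (nat_lit 8) (nat_lit 4) (.p (nat_lit 10) (nat_lit 4) (.p (nat_lit 11) (nat_lit 4) (.n (nat_lit 13) (nat_lit 1) (.p (nat_lit 14) (nat_lit 1) (.n (nat_lit 17) (nat_lit 2) (.p (nat_lit 19) (nat_lit 1) (.p (nat_lit 21) (nat_lit 1) (.p (nat_lit 23) (nat_lit 1) (.n (nat_lit 24) (nat_lit 2) (.n (nat_lit 25) (nat_lit 1) (.n (nat_lit 26) (nat_lit 2) (.n (nat_lit 28) (nat_lit 3) (.p (nat_lit 29) (nat_lit 2) (.p (nat_lit 30) (nat_lit 1) (.p (nat_lit 31) (nat_lit 4) (.n (nat_lit 32) (nat_lit 1) (.n (nat_lit 33) (nat_lit 3) (.n (nat_lit 34) (nat_lit 2) (.p (nat_lit 35) (nat_lit 2) (.n (nat_lit 36) (nat_lit 4) (.p (nat_lit 127) (nat_lit 1) (.p (nat_lit 130) (nat_lit 1) (.p (nat_lit 182) (nat_lit 1) (.p (nat_lit 183) (nat_lit 1) (.p (nat_lit 185) (nat_lit 3) (.n (nat_lit 187) (nat_lit 3) (.p (nat_lit 189) (nat_lit 3) (.p (nat_lit 190) (nat_lit 3) (.p (nat_lit 192) (nat_lit 3) (.n (nat_lit 196) (nat_lit 3) (.n (nat_lit 199) (nat_lit 1) (.p (nat_lit 200) (nat_lit 6) (.p (nat_lit 201) (nat_lit 3) (.n (nat_lit 202) (nat_lit 3) .z)))))))))))))))))))))))))))))))))))))))))) .nil))))))))))))))))) .leaf) (nat_lit 89092) (nat_lit 679) (.n (nat_lit 260) (nat_lit 1) (.n (nat_lit 261) (nat_lit 2) (.n (nat_lit 262) (nat_lit 3) (.p (nat_lit 263) (nat_lit 2) (.n (nat_lit 264) (nat_lit 1) (.n (nat_lit 265) (nat_lit 1) (.n (nat_lit 267) (nat_lit 2) (.n (nat_lit 268) (nat_lit 1) (.p (nat_lit 269) (nat_lit 2) (.p (nat_lit 270) (nat_lit 2) (.p (nat_lit 272) (nat_lit 2) (.n (nat_lit 273) (nat_lit 3) (.p (nat_lit 274) (nat_lit 2) (.p (nat_lit 275) (nat_lit 1) (.n (nat_lit 276) (nat_lit 1) (.n (nat_lit 279) (nat_lit 3) (.p (nat_lit 280) (nat_lit 3) (.n (nat_lit 281) (nat_lit 1) (.n (nat_lit 283) (nat_lit 1) (.p (nat_lit 285) (nat_lit 1) (.p (nat_lit 286) (nat_lit 3) (.p (nat_lit 287) (nat_lit 1) (.p (nat_lit 288) (nat_lit 2) (.p (nat_lit 289) (nat_lit 1) .z)))))))))))))))))))))))) (.ct dC1c_c532 (nat_lit 1) (nat_lit 8) (.s true (nat_lit 1) (nat_lit 36) (nat_lit 2) (nat_lit 2) (nat_lit 0) true (nat_lit 8) true (nat_lit 12) false (nat_lit 2) true (nat_lit 10) true (nat_lit 10) (.e true (nat_lit 1) (nat_lit 185) (nat_lit 0) (nat_lit 12) (.e false (nat_lit 1) (nat_lit 36) (nat_lit 15) (nat_lit 2) (.e true (nat_lit 1) (nat_lit 132) (nat_lit 2) (nat_lit 10) (.e false (nat_lit 2) (nat_lit 134) (nat_lit 2) (nat_lit 10) (.e false (nat_lit 1) (nat_lit 135) (nat_lit 2) (nat_lit 10) (.e false (nat_lit 2) (nat_lit 136) (nat_lit 2) (nat_lit 10) (.e false (nat_lit 2) (nat_lit 138) (nat_lit 2) (nat_lit 10) (.e false (nat_lit 1) (nat_lit 139) (nat_lit 2) (nat_lit 10) (.e false (nat_lit 2) (nat_lit 141) (nat_lit 2) (nat_lit 10) (.e false (nat_lit 2) (nat_lit 142) (nat_lit 2) (nat_lit 10) (.e true (nat_lit 1) (nat_lit 143) (nat_lit 2) (nat_lit 10) (.e true (nat_lit 1) (nat_lit 144) (nat_lit 2) (nat_lit 10) (.e true (nat_lit 2) (nat_lit 145) (nat_lit 2) (nat_lit 10) (.e true (nat_lit 3) (nat_lit 146) (nat_lit 2) (nat_lit 10) (.e false (nat_lit 1) (nat_lit 147) (nat_lit 2) (nat_lit 10) (.e true (nat_lit 1) (nat_lit 148) (nat_lit 2) (nat_lit 10) (.e true (nat_lit 3) (nat_lit 149) (nat_lit 2) (nat_lit 10) (.e false (nat_lit 3) (nat_lit 150) (nat_lit 2) (nat_lit 10) (.e false (nat_lit 3) (nat_lit 151) (nat_lit 2) (nat_lit 10) (.e false (nat_lit 2) (nat_lit 152) (nat_lit 2) (nat_lit 10) (.e false (nat_lit 1) (nat_lit 133) (nat_lit 2) (nat_lit 10) (.u (nat_lit 2) (.p (nat_lit 2) (nat_lit 1) (.p (nat_lit 4) (nat_lit 1) (.p (nat_lit 6) (nat_lit 1) (.n (nat_lit 11) (nat_lit 1) (.n (nat_lit 17) (nat_lit 1) (.p (nat_lit 19) (nat_lit 1) (.n (nat_lit 102) (nat_lit 1) (.n (nat_lit 105) (nat_lit 1) (.n (nat_lit 106) (nat_lit 1) .z))))))))) .nil)))))))))))))))))))))))) .leaf) (nat_lit 89093) (nat_lit 752) (.p (nat_lit 290) (nat_lit 3) (.p (nat_lit 291) (nat_lit 2) (.p (nat_lit 293) (nat_lit 1) (.n (nat_lit 294) (nat_lit 3) (.n (nat_lit 295) (nat_lit 1) (.n (nat_lit 296) (nat_lit 2) (.p (nat_lit 297) (nat_lit 2) (.p (nat_lit 298) (nat_lit 2) (.p (nat_lit 299) (nat_lit 3) (.n (nat_lit 300) (nat_lit 2) (.p (nat_lit 301) (nat_lit 1) (.p (nat_lit 302) (nat_lit 1) (.n (nat_lit 303) (nat_lit 1) (.p (nat_lit 305) (nat_lit 3) (.p (nat_lit 307) (nat_lit 2) (.n (nat_lit 308) (nat_lit 1) (.n (nat_lit 311) (nat_lit 1) (.p (nat_lit 313) (nat_lit 1) (.n (nat_lit 316) (nat_lit 3) (.n (nat_lit 317) (nat_lit 3) .z)))))))))))))))))))) (.ct dC1c_c292 (nat_lit 1) (nat_lit 7) (.s true (nat_lit 1) (nat_lit 36) (nat_lit 2) (nat_lit 2) (nat_lit 1) true (nat_lit 7) true (nat_lit 11) false (nat_lit 1) true (nat_lit 10) true (nat_lit 10) (.e true (nat_lit 1) (nat_lit 185) (nat_lit 1) (nat_lit 11) (.e false (nat_lit 1) (nat_lit 36) (nat_lit 17) (nat_lit 1) (.e true (nat_lit 1) (nat_lit 153) (nat_lit 2) (nat_lit 10) (.e true (nat_lit 2) (nat_lit 154) (nat_lit 2) (nat_lit 10) (.e false (nat_lit 1) (nat_lit 160) (nat_lit 2) (nat_lit 10) (.e true (nat_lit 2) (nat_lit 161) (nat_lit 2) (nat_lit 10) (.e false (nat_lit 3) (nat_lit 162) (nat_lit 2) (nat_lit 10) (.e false (nat_lit 2) (nat_lit 163) (nat_lit 2) (nat_lit 10) (.e false (nat_lit 2) (nat_lit 164) (nat_lit 2) (nat_lit 10) (.e false (nat_lit 1) (nat_lit 165) (nat_lit 2) (nat_lit 10) (.e true (nat_lit 1) (nat_lit 166) (nat_lit 2) (nat_lit 10) (.e true (nat_lit 3) (nat_lit 167) (nat_lit 2) (nat_lit 10) (.e false (nat_lit 3) (nat_lit 168) (nat_lit 2) (nat_lit 10) (.e false (nat_lit 3) (nat_lit 170) (nat_lit 2) (nat_lit 10) (.e false (nat_lit 2) (nat_lit 171) (nat_lit 2) (nat_lit 10) (.e true (nat_lit 1) (nat_lit 173) (nat_lit 2) (nat_lit 10) (.e false (nat_lit 1) (nat_lit 155) (nat_lit 2) (nat_lit 10) (.e true (nat_lit 1) (nat_lit 156) (nat_lit 2) (nat_lit 10) (.e false (nat_lit 1) (nat_lit 159) (nat_lit 2) (nat_lit 10) (.u (nat_lit 2) (.n (nat_lit 0) (nat_lit 1) (.p (nat_lit 10) (nat_lit 1) (.n (nat_lit 14) (nat_lit 1) (.p (nat_lit 26) (nat_lit 1) .z)))) .nil)))))))))))))))))))))) (.nd (.nd .leaf (nat_lit 89094) (nat_lit 854) (.n (nat_lit 328) (nat_lit 2) (.p (nat_lit 329) (nat_lit 2) (.p (nat_lit 330) (nat_lit 3) (.n (nat_lit 331) (nat_lit 3) (.p (nat_lit 332) (nat_lit 2) (.p (nat_lit 333) (nat_lit 1) (.p (nat_lit 336) (nat_lit 1) (.p (nat_lit 337) (nat_lit 2) (.n (nat_lit 338) (nat_lit 1) (.p (nat_lit 341) (nat_lit 1) (.n (nat_lit 346) (nat_lit 1) .z))))))))))) (.ct dC1c_c277 (nat_lit 1) (nat_lit 4) (.s true (nat_lit 3) (nat_lit 6) (nat_lit 1) (nat_lit 6) (nat_lit 4) true (nat_lit 3) true (nat_lit 6) true (nat_lit 4) true (nat_lit 9) true (nat_lit 4) (.s true (nat_lit 1) (nat_lit 6) (nat_lit 4) (nat_lit 2) (nat_lit 5) false (nat_lit 0) true (nat_lit 5) true (nat_lit 4) true (nat_lit 6) true (nat_lit 8) (.s false (nat_lit 1) (nat_lit 6) (nat_lit 5) (nat_lit 2) (nat_lit 4) false (nat_lit 0) true (nat_lit 6) true (nat_lit 4) true (nat_lit 5) true (nat_lit 8) (.s true (nat_lit 3) (nat_lit 15) (nat_lit 2) (nat_lit 6) (nat_lit 1) true (nat_lit 5) true (nat_lit 9) true (nat_lit 2) true (nat_lit 8) true (nat_lit 4) (.s false (nat_lit 1) (nat_lit 14) (nat_lit 5) (nat_lit 2) (nat_lit 2) true (nat_lit 1) true (nat_lit 8) true (nat_lit 2) true (nat_lit 5) true (nat_lit 8) (.s true (nat_lit 1) (nat_lit 16) (nat_lit 4) (nat_lit 2) (nat_lit 2) true (nat_lit 2) true (nat_lit 8) true (nat_lit 1) true (nat_lit 6) true (nat_lit 8) (.s false (nat_lit 3) (nat_lit 18) (nat_lit 6) (nat_lit 1) (nat_lit 0) true (nat_lit 2) true (nat_lit 10) true (nat_lit 0) true (nat_lit 4) true (nat_lit 9) dC1c_i6)))))))) .leaf) (nat_lit 89098) (nat_lit 1211) (.n (nat_lit 355) (nat_lit 3) (.p (nat_lit 356) (nat_lit 1) (.n (nat_lit 357) (nat_lit 2) (.p (nat_lit 358) (nat_lit 1) (.n (nat_lit 360) (nat_lit 1) (.p (nat_lit 361) (nat_lit 3) (.n (nat_lit 362) (nat_lit 1) (.n (nat_lit 363) (nat_lit 1) (.p (nat_lit 364) (nat_lit 1) (.n (nat_lit 365) (nat_lit 3) (.p (nat_lit 366) (nat_lit 3) (.p (nat_lit 367) (nat_lit 3) (.n (nat_lit 368) (nat_lit 2) (.n (nat_lit 369) (nat_lit 2) (.p (nat_lit 370) (nat_lit 3) (.p (nat_lit 372) (nat_lit 2) (.n (nat_lit 375) (nat_lit 3) (.p (nat_lit 376) (nat_lit 1) (.n (nat_lit 378) (nat_lit 1) (.n (nat_lit 381) (nat_lit 3) (.n (nat_lit 382) (nat_lit 1) (.p (nat_lit 383) (nat_lit 1) (.n (nat_lit 384) (nat_lit 3) (.n (nat_lit 385) (nat_lit 2) (.n (nat_lit 386) (nat_lit 2) (.n (nat_lit 387) (nat_lit 2) (.n (nat_lit 388) (nat_lit 2) (.p (nat_lit 389) (nat_lit 1) (.p (nat_lit 390) (nat_lit 1) (.n (nat_lit 391) (nat_lit 3) (.n (nat_lit 392) (nat_lit 3) (.n (nat_lit 393) (nat_lit 3) (.p (nat_lit 394) (nat_lit 2) (.n (nat_lit 395) (nat_lit 2) (.n (nat_lit 396) (nat_lit 2) (.n (nat_lit 401) (nat_lit 1) (.p (nat_lit 403) (nat_lit 1) (.p (nat_lit 404) (nat_lit 3) (.p (nat_lit 405) (nat_lit 1) (.n (nat_lit 406) (nat_lit 1) (.p (nat_lit 408) (nat_lit 3) (.p (nat_lit 409) (nat_lit 1) (.n (nat_lit 410) (nat_lit 3) (.n (nat_lit 411) (nat_lit 1) (.n (nat_lit 412) (nat_lit 2) (.p (nat_lit 413) (nat_lit 3) (.p (nat_lit 416) (nat_lit 1) (.n (nat_lit 417) (nat_lit 1) (.n (nat_lit 418) (nat_lit 1) (.p (nat_lit 419) (nat_lit 1) (.p (nat_lit 420) (nat_lit 1) (.n (nat_lit 421) (nat_lit 1) (.p (nat_lit 424) (nat_lit 3) (.n (nat_lit 425) (nat_lit 3) .z)))))))))))))))))))))))))))))))))))))))))))))))))))))) (.ct dC1c_c548 (nat_lit 1) (nat_lit 9) (.s true (nat_lit 1) (nat_lit 16) (nat_lit 10) (nat_lit 0) (nat_lit 2) true (nat_lit 0) true (nat_lit 17) true (nat_lit 6) true (nat_lit 9) true (nat_lit 19) (.e false (nat_lit 1) (nat_lit 36) (nat_lit 31) (nat_lit 0) (.e true (nat_lit 1) (nat_lit 216) (nat_lit 2) (nat_lit 17) (.e false (nat_lit 1) (nat_lit 221) (nat_lit 2) (nat_lit 17) (.e true (nat_lit 3) (nat_lit 223) (nat_lit 2) (nat_lit 17) (.e true (nat_lit 3) (nat_lit 212) (nat_lit 2) (nat_lit 17) (.e true (nat_lit 1) (nat_lit 213) (nat_lit 2) (nat_lit 17) (.e true (nat_lit 3) (nat_lit 214) (nat_lit 2) (nat_lit 17) (.e false (nat_lit 1) (nat_lit 215) (nat_lit 2) (nat_lit 17) (.e false (nat_lit 2) (nat_lit 217) (nat_lit 2) (nat_lit 17) (.e false (nat_lit 1) (nat_lit 218) (nat_lit 2) (nat_lit 17) (.e true (nat_lit 1) (nat_lit 219) (nat_lit 2) (nat_lit 17) dC1c_i7))))))))))))) .leaf))) (nat_lit 89099) (nat_lit 1162) (.n (nat_lit 355) (nat_lit 3) (.p (nat_lit 356) (nat_lit 2) (.n (nat_lit 358) (nat_lit 1) (.n (nat_lit 359) (nat_lit 1) (.p (nat_lit 361) (nat_lit 3) (.n (nat_lit 362) (nat_lit 3) (.p (nat_lit 363) (nat_lit 1) (.n (nat_lit 364) (nat_lit 2) (.p (nat_lit 365) (nat_lit 1) (.n (nat_lit 366) (nat_lit 1) (.p (nat_lit 367) (nat_lit 3) (.n (nat_lit 368) (nat_lit 1) (.n (nat_lit 369) (nat_lit 1) (.p (nat_lit 370) (nat_lit 2) (.p (nat_lit 372) (nat_lit 2) (.n (nat_lit 374) (nat_lit 3) (.p (nat_lit 375) (nat_lit 2) (.n (nat_lit 381) (nat_lit 2) (.n (nat_lit 382) (nat_lit 1) (.p (nat_lit 383) (nat_lit 1) (.p (nat_lit 384) (nat_lit 2) (.p (nat_lit 385) (nat_lit 3) (.p (nat_lit 386) (nat_lit 2) (.p (nat_lit 387) (nat_lit 3) (.p (nat_lit 388) (nat_lit 3) (.p (nat_lit 389) (nat_lit 3) (.n (nat_lit 390) (nat_lit 3) (.p (nat_lit 391) (nat_lit 1) (.p (nat_lit 392) (nat_lit 3) (.p (nat_lit 393) (nat_lit 2) (.n (nat_lit 394) (nat_lit 2) (.n (nat_lit 395) (nat_lit 1) (.p (nat_lit 396) (nat_lit 2) (.p (nat_lit 397) (nat_lit 1) (.n (nat_lit 398) (nat_lit 1) (.n (nat_lit 401) (nat_lit 1) (.p (nat_lit 403) (nat_lit 1) (.n (nat_lit 411) (nat_lit 1) (.p (nat_lit 413) (nat_lit 1) .z))))))))))))))))))))))))))))))))))))))) (.ct dC1c_c548 (nat_lit 1) (nat_lit 9) (.s false (nat_lit 3) (nat_lit 9) (nat_lit 6) (nat_lit 5) (nat_lit 1) true (nat_lit 6) true (nat_lit 18) true (nat_lit 10) true (nat_lit 13) true (nat_lit 14) (.s true (nat_lit 1) (nat_lit 16) (nat_lit 0) (nat_lit 2) (nat_lit 11) true (nat_lit 3) true (nat_lit 9) true (nat_lit 6) true (nat_lit 19) true (nat_lit 17) (.s true (nat_lit 3) (nat_lit 16) (nat_lit 0) (nat_lit 17) (nat_lit 0) false (nat_lit 20) true (nat_lit 19) true (nat_lit 6) true (nat_lit 19) true (nat_lit 6) (.s true (nat_lit 1) (nat_lit 43) (nat_lit 0) (nat_lit 2) (nat_lit 3) true (nat_lit 12) true (nat_lit 16) false (nat_lit 3) true (nat_lit 19) true (nat_lit 17) (.s true (nat_lit 1) (nat_lit 43) (nat_lit 5) (nat_lit 0) (nat_lit 0) true (nat_lit 9) true (nat_lit 19) false (nat_lit 3) true (nat_lit 14) true (nat_lit 19) (.s true (nat_lit 1) (nat_lit 89) (nat_lit 1) (nat_lit 2) (nat_lit 0) true (nat_lit 16) true (nat_lit 19) false (nat_lit 9) true (nat_lit 18) true (nat_lit 17) (.e false (nat_lit 3) (nat_lit 55) (nat_lit 17) (nat_lit 6) dC1c_i11)))))))) (.nd (.nd (.nd (.nd .leaf (nat_lit 89100) (nat_lit 1164) (.p (nat_lit 355) (nat_lit 1) (.p (nat_lit 356) (nat_lit 2) (.n (nat_lit 357) (nat_lit 2) (.n (nat_lit 358) (nat_lit 2) (.p (nat_lit 359) (nat_lit 2) (.p (nat_lit 360) (nat_lit 2) (.n (nat_lit 361) (nat_lit 2) (.n (nat_lit 363) (nat_lit 2) (.p (nat_lit 364) (nat_lit 1) (.n (nat_lit 366) (nat_lit 1) (.n (nat_lit 367) (nat_lit 2) (.p (nat_lit 368) (nat_lit 1) (.p (nat_lit 369) (nat_lit 3) (.p (nat_lit 374) (nat_lit 2) (.n (nat_lit 375) (nat_lit 2) (.n (nat_lit 376) (nat_lit 1) (.p (nat_lit 378) (nat_lit 1) (.p (nat_lit 382) (nat_lit 2) (.n (nat_lit 383) (nat_lit 2) (.p (nat_lit 384) (nat_lit 3) (.p (nat_lit 385) (nat_lit 1) (.n (nat_lit 387) (nat_lit 2) (.n (nat_lit 388) (nat_lit 2) (.n (nat_lit 389) (nat_lit 1) (.p (nat_lit 390) (nat_lit 2) (.n (nat_lit 391) (nat_lit 1) (.p (nat_lit 392) (nat_lit 2) (.n (nat_lit 394) (nat_lit 2) (.p (nat_lit 395) (nat_lit 1) (.p (nat_lit 397) (nat_lit 1) (.n (nat_lit 398) (nat_lit 1) (.n (nat_lit 404) (nat_lit 3) (.n (nat_lit 405) (nat_lit 1) (.p (nat_lit 406) (nat_lit 1) (.n (nat_lit 408) (nat_lit 3) (.n (nat_lit 409) (nat_lit 1) (.p (nat_lit 410) (nat_lit 3) (.p (nat_lit 412) (nat_lit 2) (.n (nat_lit 413) (nat_lit 2) (.n (nat_lit 416) (nat_lit 1) (.p (nat_lit 417) (nat_lit 1) (.p (nat_lit 418) (nat_lit 1) (.n (nat_lit 419) (nat_lit 1) (.n (nat_lit 420) (nat_lit 1) (.p (nat_lit 421) (nat_lit 1) (.n (nat_lit 424) (nat_lit 3) (.p (nat_lit 425) (nat_lit 3) .z))))))))))))))))))))))))))))))))))))))))))))))) (.ct dC1c_c548 (nat_lit 1) (nat_lit 9) (.s true (nat_lit 1) (nat_lit 87) (nat_lit 1) (nat_lit 2) (nat_lit 0) true (nat_lit 16) true (nat_lit 19) false (nat_lit 9) true (nat_lit 18) true (nat_lit 17) (.e false (nat_lit 1) (nat_lit 185) (nat_lit 3) (nat_lit 16) (.e true (nat_lit 1) (nat_lit 290) (nat_lit 0) (nat_lit 19) (.e true (nat_lit 1) (nat_lit 291) (nat_lit 0) (nat_lit 19) (.e true (nat_lit 1) (nat_lit 292) (nat_lit 0) (nat_lit 19) (.e false (nat_lit 1) (nat_lit 293) (nat_lit 0) (nat_lit 19) (.e true (nat_lit 3) (nat_lit 294) (nat_lit 0) (nat_lit 19) (.e true (nat_lit 3) (nat_lit 296) (nat_lit 0) (nat_lit 19) (.e false (nat_lit 3) (nat_lit 297) (nat_lit 0) (nat_lit 19) (.e false (nat_lit 3) (nat_lit 298) (nat_lit 0) (nat_lit 19) (.e true (nat_lit 2) (nat_lit 299) (nat_lit 0) (nat_lit 19) (.e true (nat_lit 1) (nat_lit 300) (nat_lit 0) (nat_lit 19) (.e false (nat_lit 1) (nat_lit 301) (nat_lit 0) (nat_lit 19) (.e true (nat_lit 1) (nat_lit 303) (nat_lit 0) (nat_lit 19) (.e true (nat_lit 1) (nat_lit 304) (nat_lit 0) (nat_lit 19) (.e false (nat_lit 2) (nat_lit 307) (nat_lit 0) (nat_lit 19) (.e true (nat_lit 3) (nat_lit 308) (nat_lit 0) (nat_lit 19) (.e false (nat_lit 1) (nat_lit 310) (nat_lit 0) (nat_lit 19) (.e true (nat_lit 1) (nat_lit 260) (nat_lit 1) (nat_lit 18) (.e true (nat_lit 2) (nat_lit 261) (nat_lit 1) (nat_lit 18) (.e true (nat_lit 3) (nat_lit 262) (nat_lit 1) (nat_lit 18) (.e false (nat_lit 2) (nat_lit 263) (nat_lit 1) (nat_lit 18) (.e true (nat_lit 1) (nat_lit 264) (nat_lit 1) (nat_lit 18) (.e true (nat_lit 1) (nat_lit 265) (nat_lit 1) (nat_lit 18) dC1c_i13))))))))))))))))))))))))) .leaf) (nat_lit 89102) (nat_lit 1369) (.n (nat_lit 426) (nat_lit 1) (.n (nat_lit 427) (nat_lit 3) (.p (nat_lit 428) (nat_lit 3) (.n (nat_lit 431) (nat_lit 1) (.p (nat_lit 432) (nat_lit 2) (.p (nat_lit 433) (nat_lit 2) (.p (nat_lit 434) (nat_lit 3) (.n (nat_lit 435) (nat_lit 1) (.n (nat_lit 436) (nat_lit 1) (.n (nat_lit 438) (nat_lit 1) (.p (nat_lit 439) (nat_lit 2) (.n (nat_lit 443) (nat_lit 3) (.n (nat_lit 445) (nat_lit 1) (.p (nat_lit 447) (nat_lit 1) (.n (nat_lit 448) (nat_lit 1) (.n (nat_lit 450) (nat_lit 1) (.p (nat_lit 451) (nat_lit 1) (.p (nat_lit 452) (nat_lit 3) (.n (nat_lit 453) (nat_lit 3) (.p (nat_lit 454) (nat_lit 1) (.n (nat_lit 455) (nat_lit 1) (.p (nat_lit 456) (nat_lit 2) (.n (nat_lit 459) (nat_lit 1) .z))))))))))))))))))))))) (.ct dC1c_c533 (nat_lit 1) (nat_lit 5) dC1c_i14) .leaf) (nat_lit 89103) (nat_lit 1374) (.p (nat_lit 426) (nat_lit 3) (.p (nat_lit 427) (nat_lit 1) (.p (nat_lit 428) (nat_lit 2) (.n (nat_lit 429) (nat_lit 2) (.p (nat_lit 430) (nat_lit 2) (.p (nat_lit 434) (nat_lit 3) (.p (nat_lit 435) (nat_lit 1) (.p (nat_lit 436) (nat_lit 3) (.n (nat_lit 439) (nat_lit 2) (.p (nat_lit 442) (nat_lit 3) (.p (nat_lit 443) (nat_lit 1) (.p (nat_lit 445) (nat_lit 2) (.p (nat_lit 447) (nat_lit 2) (.n (nat_lit 448) (nat_lit 2) (.n (nat_lit 450) (nat_lit 2) (.p (nat_lit 451) (nat_lit 2) (.n (nat_lit 452) (nat_lit 1) (.p (nat_lit 453) (nat_lit 1) (.p (nat_lit 454) (nat_lit 2) (.n (nat_lit 455) (nat_lit 2) .z)))))))))))))))))))) (.ct dC1c_c533 (nat_lit 1) (nat_lit 5) (.s true (nat_lit 1) (nat_lit 18) (nat_lit 6) (nat_lit 3) (nat_lit 0) true (nat_lit 5) true (nat_lit 15) true (nat_lit 3) true (nat_lit 9) true (nat_lit 12) (.e false (nat_lit 1) (nat_lit 83) (nat_lit 15) (nat_lit 5) (.e true (nat_lit 1) (nat_lit 84) (nat_lit 15) (nat_lit 5) (.e false (nat_lit 1) (nat_lit 85) (nat_lit 15) (nat_lit 5) (.e true (nat_lit 1) (nat_lit 90) (nat_lit 15) (nat_lit 5) (.e false (nat_lit 1) (nat_lit 61) (nat_lit 18) (nat_lit 3) (.e true (nat_lit 1) (nat_lit 64) (nat_lit 18) (nat_lit 3) (.e false (nat_lit 1) (nat_lit 65) (nat_lit 18) (nat_lit 3) (.e false (nat_lit 1) (nat_lit 142) (nat_lit 6) (nat_lit 9) (.e true (nat_lit 1) (nat_lit 149) (nat_lit 6) (nat_lit 9) (.e false (nat_lit 1) (nat_lit 206) (nat_lit 3) (nat_lit 12) (.u (nat_lit 2) (.n (nat_lit 2) (nat_lit 1) (.n (nat_lit 3) (nat_lit 1) (.p (nat_lit 8) (nat_lit 1) (.n (nat_lit 9) (nat_lit 1) (.p (nat_lit 13) (nat_lit 1) (.n (nat_lit 16) (nat_lit 1) (.p (nat_lit 18) (nat_lit 1) (.n (nat_lit 28) (nat_lit 1) (.p (nat_lit 33) (nat_lit 1) (.p (nat_lit 75) (nat_lit 1) .z)))))))))) .nil))))))))))))) (.nd (.nd .leaf (nat_lit 89104) (nat_lit 1533) (.p (nat_lit 460) (nat_lit 1) (.n (nat_lit 462) (nat_lit 3) (.n (nat_lit 463) (nat_lit 2) (.n (nat_lit 464) (nat_lit 1) (.n (nat_lit 465) (nat_lit 3) (.n (nat_lit 467) (nat_lit 2) (.n (nat_lit 468) (nat_lit 3) (.n (nat_lit 469) (nat_lit 1) (.p (nat_lit 470) (nat_lit 3) (.p (nat_lit 471) (nat_lit 3) (.p (nat_lit 472) (nat_lit 2) (.n (nat_lit 473) (nat_lit 3) (.n (nat_lit 474) (nat_lit 3) (.p (nat_lit 475) (nat_lit 2) (.p (nat_lit 476) (nat_lit 2) (.n (nat_lit 477) (nat_lit 1) (.n (nat_lit 479) (nat_lit 1) (.p (nat_lit 486) (nat_lit 1) (.n (nat_lit 488) (nat_lit 1) (.n (nat_lit 489) (nat_lit 1) (.n (nat_lit 493) (nat_lit 3) .z))))))))))))))))))))) (.ct dC1c_c293 (nat_lit 1) (nat_lit 4) (.s true (nat_lit 1) (nat_lit 18) (nat_lit 16) (nat_lit 1) (nat_lit 0) true (nat_lit 1) true (nat_lit 15) true (nat_lit 3) true (nat_lit 4) true (nat_lit 14) (.e false (nat_lit 1) (nat_lit 45) (nat_lit 36) (nat_lit 1) (.e true (nat_lit 1) (nat_lit 348) (nat_lit 0) (nat_lit 15) (.e false (nat_lit 2) (nat_lit 349) (nat_lit 0) (nat_lit 15) (.e false (nat_lit 2) (nat_lit 350) (nat_lit 0) (nat_lit 15) (.e false (nat_lit 2) (nat_lit 351) (nat_lit 0) (nat_lit 15) (.e true (nat_lit 3) (nat_lit 352) (nat_lit 0) (nat_lit 15) (.e true (nat_lit 1) (nat_lit 347) (nat_lit 0) (nat_lit 15) dC1c_i15))))))))) .leaf) (nat_lit 90112) (nat_lit 248) (.n (nat_lit 132) (nat_lit 3) (.p (nat_lit 133) (nat_lit 1) (.n (nat_lit 134) (nat_lit 1) (.p (nat_lit 135) (nat_lit 1) (.n (nat_lit 136) (nat_lit 3) (.n (nat_lit 137) (nat_lit 3) (.n (nat_lit 138) (nat_lit 3) (.p (nat_lit 139) (nat_lit 2) (.n (nat_lit 140) (nat_lit 2) (.n (nat_lit 141) (nat_lit 2) (.p (nat_lit 142) (nat_lit 1) (.p (nat_lit 143) (nat_lit 2) (.n (nat_lit 144) (nat_lit 3) (.n (nat_lit 145) (nat_lit 2) (.p (nat_lit 146) (nat_lit 1) (.p (nat_lit 147) (nat_lit 1) (.n (nat_lit 152) (nat_lit 2) .z))))))))))))))))) (.ct dC1c_c531 (nat_lit 1) (nat_lit 9) (.s false (nat_lit 1) (nat_lit 14) (nat_lit 1) (nat_lit 0) (nat_lit 2) true (nat_lit 4) true (nat_lit 7) false (nat_lit 0) true (nat_lit 8) true (nat_lit 9) (.e false (nat_lit 1) (nat_lit 29) (nat_lit 5) (nat_lit 4) (.e false (nat_lit 1) (nat_lit 55) (nat_lit 2) (nat_lit 7) (.e false (nat_lit 1) (nat_lit 57) (nat_lit 2) (nat_lit 7) (.e false (nat_lit 1) (nat_lit 58) (nat_lit 2) (nat_lit 7) (.e false (nat_lit 3) (nat_lit 59) (nat_lit 2) (nat_lit 7) (.e false (nat_lit 3) (nat_lit 60) (nat_lit 2) (nat_lit 7) (.e true (nat_lit 3) (nat_lit 61) (nat_lit 2) (nat_lit 7) (.e true (nat_lit 1) (nat_lit 63) (nat_lit 2) (nat_lit 7) (.e true (nat_lit 3) (nat_lit 64) (nat_lit 2) (nat_lit 7) (.e false (nat_lit 3) (nat_lit 65) (nat_lit 2) (nat_lit 7) (.e true (nat_lit 1) (nat_lit 14) (nat_lit 10) (nat_lit 0) (.e true (nat_lit 1) (nat_lit 78) (nat_lit 1) (nat_lit 8) (.e true (nat_lit 1) (nat_lit 80) (nat_lit 1) (nat_lit 8) (.e false (nat_lit 1) (nat_lit 81) (nat_lit 1) (nat_lit 8) (.u (nat_lit 2) (.p (nat_lit 0) (nat_lit 1) (.p (nat_lit 2) (nat_lit 1) (.p (nat_lit 4) (nat_lit 1) (.p (nat_lit 5) (nat_lit 1) .z)))) .nil))))))))))))))))) .leaf)) (nat_lit 90113) (nat_lit 312) (.n (nat_lit 154) (nat_lit 1) (.p (nat_lit 155) (nat_lit 2) (.n (nat_lit 156) (nat_lit 2) (.p (nat_lit 157) (nat_lit 2) (.n (nat_lit 158) (nat_lit 1) (.n (nat_lit 159) (nat_lit 1) (.n (nat_lit 161) (nat_lit 3) (.p (nat_lit 162) (nat_lit 3) (.p (nat_lit 163) (nat_lit 1) (.n (nat_lit 164) (nat_lit 3) (.n (nat_lit 165) (nat_lit 1) (.p (nat_lit 166) (nat_lit 2) (.n (nat_lit 167) (nat_lit 1) (.n (nat_lit 168) (nat_lit 3) (.n (nat_lit 169) (nat_lit 1) (.p (nat_lit 170) (nat_lit 1) (.n (nat_lit 171) (nat_lit 1) (.p (nat_lit 172) (nat_lit 1) (.n (nat_lit 173) (nat_lit 1) .z))))))))))))))))))) (.ct dC1c_c291 (nat_lit 1) (nat_lit 8) (.s true (nat_lit 1) (nat_lit 14) (nat_lit 2) (nat_lit 1) (nat_lit 1) true (nat_lit 4) true (nat_lit 8) false (nat_lit 0) true (nat_lit 7) true (nat_lit 8) (.e false (nat_lit 1) (nat_lit 34) (nat_lit 5) (nat_lit 4) (.e false (nat_lit 1) (nat_lit 14) (nat_lit 13) (nat_lit 0) (.e false (nat_lit 1) (nat_lit 85) (nat_lit 1) (nat_lit 8) .nil))))) (.nd (.nd (.nd .leaf (nat_lit 90114) (nat_lit 346) (.p (nat_lit 186) (nat_lit 1) .z) .df .leaf) (nat_lit 90115) (nat_lit 495) (.p (nat_lit 212) (nat_lit 1) (.p (nat_lit 213) (nat_lit 3) (.p (nat_lit 214) (nat_lit 3) (.n (nat_lit 215) (nat_lit 2) (.p (nat_lit 216) (nat_lit 3) (.n (nat_lit 217) (nat_lit 2) (.n (nat_lit 218) (nat_lit 3) (.p (nat_lit 219) (nat_lit 2) (.n (nat_lit 220) (nat_lit 1) (.n (nat_lit 222) (nat_lit 1) (.p (nat_lit 223) (nat_lit 2) (.p (nat_lit 225) (nat_lit 2) (.p (nat_lit 226) (nat_lit 1) (.n (nat_lit 228) (nat_lit 1) (.p (nat_lit 229) (nat_lit 2) (.p (nat_lit 230) (nat_lit 1) (.n (nat_lit 231) (nat_lit 2) (.p (nat_lit 232) (nat_lit 2) (.p (nat_lit 233) (nat_lit 3) (.p (nat_lit 235) (nat_lit 2) (.p (nat_lit 236) (nat_lit 3) (.n (nat_lit 238) (nat_lit 3) (.n (nat_lit 239) (nat_lit 1) (.p (nat_lit 240) (nat_lit 2) (.n (nat_lit 241) (nat_lit 1) (.p (nat_lit 242) (nat_lit 1) (.p (nat_lit 243) (nat_lit 1) (.n (nat_lit 245) (nat_lit 2) (.n (nat_lit 246) (nat_lit 1) (.p (nat_lit 248) (nat_lit 2) .z)))))))))))))))))))))))))))))) (.ct dC1c_c547 (nat_lit 1) (nat_lit 11) (.s false (nat_lit 1) (nat_lit 40) (nat_lit 1) (nat_lit 1) (nat_lit 0) true (nat_lit 11) true (nat_lit 14) false (nat_lit 6) true (nat_lit 13) true (nat_lit 13) (.e true (nat_lit 1) (nat_lit 154) (nat_lit 0) (nat_lit 14) (.e false (nat_lit 2) (nat_lit 155) (nat_lit 0) (nat_lit 14) (.e true (nat_lit 2) (nat_lit 156) (nat_lit 0) (nat_lit 14) (.e false (nat_lit 2) (nat_lit 157) (nat_lit 0) (nat_lit 14) (.e true (nat_lit 1) (nat_lit 158) (nat_lit 0) (nat_lit 14) (.e true (nat_lit 1) (nat_lit 159) (nat_lit 0) (nat_lit 14) (.e true (nat_lit 3) (nat_lit 161) (nat_lit 0) (nat_lit 14) (.e false (nat_lit 3) (nat_lit 162) (nat_lit 0) (nat_lit 14) (.e false (nat_lit 1) (nat_lit 163) (nat_lit 0) (nat_lit 14) (.e true (nat_lit 3) (nat_lit 164) (nat_lit 0) (nat_lit 14) (.e true (nat_lit 1) (nat_lit 165) (nat_lit 0) (nat_lit 14) (.e false (nat_lit 2) (nat_lit 166) (nat_lit 0) (nat_lit 14) dC1c_i16)))))))))))))) .leaf) (nat_lit 90116) (nat_lit 636) (.p (nat_lit 261) (nat_lit 2) (.n (nat_lit 262) (nat_lit 1) (.p (nat_lit 263) (nat_lit 3) (.p (nat_lit 264) (nat_lit 3) (.p (nat_lit 265) (nat_lit 1) (.p (nat_lit 266) (nat_lit 2) (.p (nat_lit 268) (nat_lit 3) (.n (nat_lit 270) (nat_lit 2) (.p (nat_lit 271) (nat_lit 1) (.n (nat_lit 272) (nat_lit 3) (.p (nat_lit 273) (nat_lit 1) (.p (nat_lit 274) (nat_lit 2) (.n (nat_lit 276) (nat_lit 1) (.p (nat_lit 277) (nat_lit 3) (.p (nat_lit 278) (nat_lit 2) (.p (nat_lit 279) (nat_lit 1) (.p (nat_lit 280) (nat_lit 1) (.n (nat_lit 282) (nat_lit 3) (.p (nat_lit 284) (nat_lit 1) (.p (nat_lit 286) (nat_lit 3) (.p (nat_lit 287) (nat_lit 1) (.n (nat_lit 288) (nat_lit 3) (.p (nat_lit 289) (nat_lit 3) .z))))))))))))))))))))))) (.ct dC1c_c532 (nat_lit 1) (nat_lit 8) (.s true (nat_lit 3) (nat_lit 9) (nat_lit 2) (nat_lit 1) (nat_lit 6) true (nat_lit 0) true (nat_lit 6) true (nat_lit 4) true (nat_lit 10) true (nat_lit 11) (.s true (nat_lit 3) (nat_lit 9) (nat_lit 2) (nat_lit 2) (nat_lit 5) true (nat_lit 1) true (nat_lit 7) true (nat_lit 4) true (nat_lit 10) true (nat_lit 10) (.s true (nat_lit 1) (nat_lit 11) (nat_lit 2) (nat_lit 6) (nat_lit 0) true (nat_lit 8) true (nat_lit 12) true (nat_lit 3) true (nat_lit 10) true (nat_lit 6) (.s false (nat_lit 1) (nat_lit 11) (nat_lit 4) (nat_lit 2) (nat_lit 2) true (nat_lit 2) true (nat_lit 10) true (nat_lit 3) true (nat_lit 8) true (nat_lit 10) dC1c_i18))))) (.nd (.nd .leaf (nat_lit 90117) (nat_lit 739) (.p (nat_lit 290) (nat_lit 1) (.p (nat_lit 291) (nat_lit 1) (.n (nat_lit 292) (nat_lit 1) (.n (nat_lit 293) (nat_lit 2) (.p (nat_lit 294) (nat_lit 3) (.p (nat_lit 295) (nat_lit 2) (.n (nat_lit 296) (nat_lit 1) (.p (nat_lit 297) (nat_lit 2) (.n (nat_lit 298) (nat_lit 1) (.p (nat_lit 299) (nat_lit 2) (.p (nat_lit 300) (nat_lit 2) (.n (nat_lit 301) (nat_lit 2) (.n (nat_lit 302) (nat_lit 1) (.n (nat_lit 303) (nat_lit 2) (.n (nat_lit 304) (nat_lit 2) (.n (nat_lit 305) (nat_lit 3) (.p (nat_lit 306) (nat_lit 1) (.p (nat_lit 307) (nat_lit 1) (.n (nat_lit 309) (nat_lit 1) (.n (nat_lit 310) (nat_lit 1) (.p (nat_lit 311) (nat_lit 1) (.p (nat_lit 314) (nat_lit 1) (.n (nat_lit 316) (nat_lit 1) (.n (nat_lit 317) (nat_lit 2) (.p (nat_lit 318) (nat_lit 1) (.n (nat_lit 319) (nat_lit 1) .z)))))))))))))))))))))))))) (.ct dC1c_c292 (nat_lit 1) (nat_lit 7) (.s false (nat_lit 1) (nat_lit 40) (nat_lit 2) (nat_lit 1) (nat_lit 1) true (nat_lit 7) true (nat_lit 11) false (nat_lit 3) true (nat_lit 10) true (nat_lit 11) (.e false (nat_lit 1) (nat_lit 191) (nat_lit 1) (nat_lit 11) (.e true (nat_lit 1) (nat_lit 40) (nat_lit 13) (nat_lit 3) (.e true (nat_lit 1) (nat_lit 186) (nat_lit 1) (nat_lit 11) (.u (nat_lit 2) (.p (nat_lit 3) (nat_lit 1) (.n (nat_lit 4) (nat_lit 1) (.p (nat_lit 8) (nat_lit 1) (.n (nat_lit 9) (nat_lit 1) (.p (nat_lit 11) (nat_lit 1) (.p (nat_lit 15) (nat_lit 1) .z)))))) .nil)))))) .leaf) (nat_lit 90118) (nat_lit 870) (.p (nat_lit 328) (nat_lit 2) (.n (nat_lit 330) (nat_lit 3) (.n (nat_lit 331) (nat_lit 3) (.n (nat_lit 332) (nat_lit 2) (.p (nat_lit 333) (nat_lit 3) (.n (nat_lit 334) (nat_lit 1) (.n (nat_lit 335) (nat_lit 3) (.n (nat_lit 336) (nat_lit 2) (.n (nat_lit 337) (nat_lit 2) (.n (nat_lit 338) (nat_lit 3) (.p (nat_lit 345) (nat_lit 1) .z))))))))))) (.ct dC1c_c277 (nat_lit 1) (nat_lit 4) (.s false (nat_lit 1) (nat_lit 6) (nat_lit 1) (nat_lit 4) (nat_lit 6) true (nat_lit 1) true (nat_lit 4) true (nat_lit 4) true (nat_lit 9) true (nat_lit 6) (.e true (nat_lit 1) (nat_lit 41) (nat_lit 17) (nat_lit 1) (.e true (nat_lit 1) (nat_lit 42) (nat_lit 17) (nat_lit 1) (.e false (nat_lit 2) (nat_lit 82) (nat_lit 6) (nat_lit 4) (.e false (nat_lit 3) (nat_lit 83) (nat_lit 6) (nat_lit 4) (.e true (nat_lit 2) (nat_lit 86) (nat_lit 6) (nat_lit 4) (.e false (nat_lit 3) (nat_lit 87) (nat_lit 6) (nat_lit 4) (.e false (nat_lit 1) (nat_lit 89) (nat_lit 6) (nat_lit 4) (.e true (nat_lit 1) (nat_lit 92) (nat_lit 6) (nat_lit 4) (.e true (nat_lit 1) (nat_lit 91) (nat_lit 6) (nat_lit 4) (.e false (nat_lit 2) (nat_lit 203) (nat_lit 1) (nat_lit 9) (.e false (nat_lit 2) (nat_lit 204) (nat_lit 1) (nat_lit 9) (.u (nat_lit 2) (.n (nat_lit 0) (nat_lit 2) (.p (nat_lit 2) (nat_lit 1) (.n (nat_lit 3) (nat_lit 2) (.p (nat_lit 4) (nat_lit 2) (.p (nat_lit 5) (nat_lit 1) (.p (nat_lit 6) (nat_lit 1) (.p (nat_lit 7) (nat_lit 1) (.p (nat_lit 8) (nat_lit 1) (.n (nat_lit 9) (nat_lit 1) (.n (nat_lit 10) (nat_lit 1) .z)))))))))) .nil)))))))))))))) .leaf)))) (nat_lit 90122) (nat_lit 1103) (.n (nat_lit 355) (nat_lit 2) (.p (nat_lit 357) (nat_lit 3) (.n (nat_lit 358) (nat_lit 2) (.n (nat_lit 359) (nat_lit 1) (.n (nat_lit 360) (nat_lit 2) (.n (nat_lit 361) (nat_lit 3) (.p (nat_lit 362) (nat_lit 3) (.n (nat_lit 363) (nat_lit 3) (.n (nat_lit 364) (nat_lit 3) (.p (nat_lit 365) (nat_lit 1) (.n (nat_lit 366) (nat_lit 1) (.p (nat_lit 367) (nat_lit 3) (.n (nat_lit 369) (nat_lit 1) (.p (nat_lit 370) (nat_lit 2) (.p (nat_lit 372) (nat_lit 1) (.p (nat_lit 373) (nat_lit 2) (.n (nat_lit 374) (nat_lit 3) (.n (nat_lit 375) (nat_lit 2) (.n (nat_lit 379) (nat_lit 1) (.p (nat_lit 383) (nat_lit 1) (.p (nat_lit 384) (nat_lit 3) (.n (nat_lit 385) (nat_lit 2) (.p (nat_lit 386) (nat_lit 1) (.p (nat_lit 387) (nat_lit 1) (.n (nat_lit 388) (nat_lit 1) (.n (nat_lit 389) (nat_lit 1) (.p (nat_lit 390) (nat_lit 1) (.p (nat_lit 392) (nat_lit 1) (.p (nat_lit 393) (nat_lit 1) (.n (nat_lit 394) (nat_lit 3) (.p (nat_lit 395) (nat_lit 2) (.n (nat_lit 396) (nat_lit 2) (.p (nat_lit 397) (nat_lit 1) (.n (nat_lit 398) (nat_lit 1) (.p (nat_lit 399) (nat_lit 3) (.n (nat_lit 400) (nat_lit 3) (.p (nat_lit 402) (nat_lit 1) (.n (nat_lit 404) (nat_lit 3) (.n (nat_lit 405) (nat_lit 1) (.p (nat_lit 408) (nat_lit 1) (.p (nat_lit 409) (nat_lit 2) (.n (nat_lit 410) (nat_lit 3) (.p (nat_lit 413) (nat_lit 2) (.n (nat_lit 414) (nat_lit 1) (.n (nat_lit 415) (nat_lit 1) (.p (nat_lit 417) (nat_lit 1) (.p (nat_lit 419) (nat_lit 1) (.n (nat_lit 420) (nat_lit 1) (.n (nat_lit 424) (nat_lit 3) (.n (nat_lit 425) (nat_lit 3) .z)))))))))))))))))))))))))))))))))))))))))))))))))) (.ct dC1c_c548 (nat_lit 1) (nat_lit 9) dC1c_i21) (.nd (.nd (.nd (.nd (.nd .leaf (nat_lit 90123) (nat_lit 1100) (.n (nat_lit 356) (nat_lit 1) (.n (nat_lit 357) (nat_lit 3) (.p (nat_lit 358) (nat_lit 2) (.n (nat_lit 359) (nat_lit 2) (.p (nat_lit 360) (nat_lit 2) (.p (nat_lit 361) (nat_lit 1) (.n (nat_lit 363) (nat_lit 2) (.p (nat_lit 364) (nat_lit 2) (.n (nat_lit 365) (nat_lit 2) (.n (nat_lit 366) (nat_lit 3) (.p (nat_lit 367) (nat_lit 1) (.n (nat_lit 368) (nat_lit 2) (.n (nat_lit 369) (nat_lit 2) (.p (nat_lit 370) (nat_lit 3) (.p (nat_lit 371) (nat_lit 1) (.p (nat_lit 372) (nat_lit 2) (.n (nat_lit 374) (nat_lit 1) (.p (nat_lit 381) (nat_lit 3) (.n (nat_lit 382) (nat_lit 1) (.p (nat_lit 383) (nat_lit 3) (.n (nat_lit 384) (nat_lit 3) (.n (nat_lit 386) (nat_lit 1) (.n (nat_lit 387) (nat_lit 3) (.n (nat_lit 388) (nat_lit 2) (.p (nat_lit 389) (nat_lit 1) (.n (nat_lit 390) (nat_lit 3) (.n (nat_lit 391) (nat_lit 3) (.n (nat_lit 392) (nat_lit 2) (.n (nat_lit 393) (nat_lit 3) (.p (nat_lit 395) (nat_lit 2) (.n (nat_lit 396) (nat_lit 1) (.n (nat_lit 398) (nat_lit 1) (.p (nat_lit 399) (nat_lit 3) (.n (nat_lit 400) (nat_lit 3) (.p (nat_lit 402) (nat_lit 1) (.p (nat_lit 404) (nat_lit 1) (.n (nat_lit 405) (nat_lit 2) (.p (nat_lit 406) (nat_lit 1) (.n (nat_lit 409) (nat_lit 1) (.p (nat_lit 413) (nat_lit 2) (.n (nat_lit 414) (nat_lit 1) .z))))))))))))))))))))))))))))))))))))))))) (.ct dC1c_c548 (nat_lit 1) (nat_lit 9) (.s true (nat_lit 1) (nat_lit 88) (nat_lit 0) (nat_lit 2) (nat_lit 1) true (nat_lit 16) true (nat_lit 18) false (nat_lit 9) true (nat_lit 19) true (nat_lit 17) (.e true (nat_lit 1) (nat_lit 186) (nat_lit 3) (nat_lit 16) (.e false (nat_lit 3) (nat_lit 260) (nat_lit 1) (nat_lit 18) (.e true (nat_lit 1) (nat_lit 261) (nat_lit 1) (nat_lit 18) (.e false (nat_lit 1) (nat_lit 262) (nat_lit 1) (nat_lit 18) (.e true (nat_lit 1) (nat_lit 263) (nat_lit 1) (nat_lit 18) (.e false (nat_lit 3) (nat_lit 264) (nat_lit 1) (nat_lit 18) (.e false (nat_lit 3) (nat_lit 265) (nat_lit 1) (nat_lit 18) (.e false (nat_lit 3) (nat_lit 266) (nat_lit 1) (nat_lit 18) (.e true (nat_lit 2) (nat_lit 267) (nat_lit 1) (nat_lit 18) (.e false (nat_lit 2) (nat_lit 268) (nat_lit 1) (nat_lit 18) (.e false (nat_lit 2) (nat_lit 269) (nat_lit 1) (nat_lit 18) (.e true (nat_lit 1) (nat_lit 270) (nat_lit 1) (nat_lit 18) dC1c_i23)))))))))))))) .leaf) (nat_lit 90124) (nat_lit 1102) (.n (nat_lit 355) (nat_lit 2) (.n (nat_lit 356) (nat_lit 3) (.n (nat_lit 357) (nat_lit 3) (.p (nat_lit 358) (nat_lit 1) (.n (nat_lit 359) (nat_lit 2) (.n (nat_lit 360) (nat_lit 3) (.n (nat_lit 361) (nat_lit 2) (.p (nat_lit 362) (nat_lit 3) (.p (nat_lit 363) (nat_lit 3) (.n (nat_lit 364) (nat_lit 3) (.p (nat_lit 365) (nat_lit 2) (.n (nat_lit 366) (nat_lit 1) (.n (nat_lit 367) (nat_lit 1) (.n (nat_lit 368) (nat_lit 2) (.p (nat_lit 369) (nat_lit 3) (.n (nat_lit 370) (nat_lit 3) (.p (nat_lit 371) (nat_lit 1) (.p (nat_lit 373) (nat_lit 2) (.p (nat_lit 374) (nat_lit 2) (.p (nat_lit 375) (nat_lit 1) (.p (nat_lit 379) (nat_lit 1) (.p (nat_lit 381) (nat_lit 2) (.p (nat_lit 382) (nat_lit 3) (.p (nat_lit 383) (nat_lit 3) (.p (nat_lit 384) (nat_lit 1) (.p (nat_lit 385) (nat_lit 3) (.n (nat_lit 386) (nat_lit 3) (.p (nat_lit 388) (nat_lit 2) (.p (nat_lit 390) (nat_lit 1) (.p (nat_lit 391) (nat_lit 3) (.n (nat_lit 393) (nat_lit 2) (.p (nat_lit 394) (nat_lit 1) (.p (nat_lit 395) (nat_lit 2) (.n (nat_lit 396) (nat_lit 3) (.n (nat_lit 397) (nat_lit 1) (.n (nat_lit 404) (nat_lit 3) (.n (nat_lit 405) (nat_lit 1) (.p (nat_lit 406) (nat_lit 1) (.n (nat_lit 408) (nat_lit 1) (.n (nat_lit 409) (nat_lit 3) (.p (nat_lit 410) (nat_lit 3) (.p (nat_lit 415) (nat_lit 1) (.n (nat_lit 417) (nat_lit 1) (.n (nat_lit 419) (nat_lit 1) (.p (nat_lit 420) (nat_lit 1) (.p (nat_lit 424) (nat_lit 3) (.p (nat_lit 425) (nat_lit 3) .z))))))))))))))))))))))))))))))))))))))))))))))) (.ct dC1c_c548 (nat_lit 1) (nat_lit 9) (.s true (nat_lit 1) (nat_lit 88) (nat_lit 1) (nat_lit 2) (nat_lit 0) true (nat_lit 16) true (nat_lit 19) false (nat_lit 9) true (nat_lit 18) true (nat_lit 17) (.e false (nat_lit 1) (nat_lit 186) (nat_lit 3) (nat_lit 16) (.e false (nat_lit 1) (nat_lit 291) (nat_lit 0) (nat_lit 19) (.e true (nat_lit 2) (nat_lit 292) (nat_lit 0) (nat_lit 19) (.e false (nat_lit 2) (nat_lit 293) (nat_lit 0) (nat_lit 19) (.e true (nat_lit 2) (nat_lit 294) (nat_lit 0) (nat_lit 19) (.e false (nat_lit 1) (nat_lit 295) (nat_lit 0) (nat_lit 19) (.e false (nat_lit 1) (nat_lit 296) (nat_lit 0) (nat_lit 19) (.e false (nat_lit 3) (nat_lit 298) (nat_lit 0) (nat_lit 19) (.e true (nat_lit 3) (nat_lit 299) (nat_lit 0) (nat_lit 19) (.e true (nat_lit 1) (nat_lit 300) (nat_lit 0) (nat_lit 19) (.e false (nat_lit 3) (nat_lit 301) (nat_lit 0) (nat_lit 19) (.e false (nat_lit 1) (nat_lit 302) (nat_lit 0) (nat_lit 19) (.e true (nat_lit 2) (nat_lit 303) (nat_lit 0) (nat_lit 19) (.e false (nat_lit 1) (nat_lit 304) (nat_lit 0) (nat_lit 19) (.e false (nat_lit 3) (nat_lit 305) (nat_lit 0) (nat_lit 19) (.e false (nat_lit 1) (nat_lit 306) (nat_lit 0) (nat_lit 19) (.e true (nat_lit 1) (nat_lit 307) (nat_lit 0) (nat_lit 19) (.e false (nat_lit 1) (nat_lit 308) (nat_lit 0) (nat_lit 19) (.e true (nat_lit 1) (nat_lit 309) (nat_lit 0) (nat_lit 19) (.e false (nat_lit 1) (nat_lit 310) (nat_lit 0) (nat_lit 19) (.e false (nat_lit 2) (nat_lit 261) (nat_lit 1) (nat_lit 18) (.e true (nat_lit 1) (nat_lit 262) (nat_lit 1) (nat_lit 18) (.e false (nat_lit 3) (nat_lit 263) (nat_lit 1) (nat_lit 18) dC1c_i25))))))))))))))))))))))))) .leaf) (nat_lit 90126) (nat_lit 1367) (.n (nat_lit 426) (nat_lit 1) (.n (nat_lit 427) (nat_lit 3) (.n (nat_lit 428) (nat_lit 3) (.n (nat_lit 429) (nat_lit 3) (.n (nat_lit 431) (nat_lit 3) (.n (nat_lit 433) (nat_lit 1) (.p (nat_lit 434) (nat_lit 3) (.n (nat_lit 435) (nat_lit 2) (.p (nat_lit 436) (nat_lit 2) (.p (nat_lit 438) (nat_lit 3) (.n (nat_lit 439) (nat_lit 3) (.n (nat_lit 441) (nat_lit 3) (.n (nat_lit 442) (nat_lit 1) (.n (nat_lit 443) (nat_lit 2) (.n (nat_lit 444) (nat_lit 1) (.p (nat_lit 445) (nat_lit 2) (.p (nat_lit 448) (nat_lit 1) (.p (nat_lit 451) (nat_lit 1) (.p (nat_lit 452) (nat_lit 3) (.p (nat_lit 453) (nat_lit 3) (.n (nat_lit 454) (nat_lit 1) (.n (nat_lit 456) (nat_lit 3) (.p (nat_lit 459) (nat_lit 3) .z))))))))))))))))))))))) (.ct dC1c_c533 (nat_lit 1) (nat_lit 5) (.s false (nat_lit 1) (nat_lit 40) (nat_lit 4) (nat_lit 1) (nat_lit 2) true (nat_lit 5) true (nat_lit 13) false (nat_lit 0) true (nat_lit 11) true (nat_lit 14) (.e true (nat_lit 3) (nat_lit 282) (nat_lit 2) (nat_lit 13) (.e true (nat_lit 2) (nat_lit 260) (nat_lit 2) (nat_lit 13) (.e false (nat_lit 1) (nat_lit 262) (nat_lit 2) (nat_lit 13) (.e false (nat_lit 3) (nat_lit 264) (nat_lit 2) (nat_lit 13) (.e false (nat_lit 1) (nat_lit 267) (nat_lit 2) (nat_lit 13) (.e true (nat_lit 2) (nat_lit 268) (nat_lit 2) (nat_lit 13) dC1c_i26)))))))) (.nd (.nd .leaf (nat_lit 90127) (nat_lit 1381) (.p (nat_lit 426) (nat_lit 3) (.n (nat_lit 427) (nat_lit 3) (.p (nat_lit 428) (nat_lit 2) (.n (nat_lit 429) (nat_lit 1) (.p (nat_lit 430) (nat_lit 1) (.p (nat_lit 431) (nat_lit 3) (.n (nat_lit 432) (nat_lit 2) (.p (nat_lit 433) (nat_lit 3) (.n (nat_lit 434) (nat_lit 1) (.p (nat_lit 435) (nat_lit 1) (.p (nat_lit 436) (nat_lit 3) (.n (nat_lit 438) (nat_lit 2) (.n (nat_lit 439) (nat_lit 3) (.n (nat_lit 441) (nat_lit 2) (.n (nat_lit 442) (nat_lit 3) (.n (nat_lit 443) (nat_lit 1) (.n (nat_lit 444) (nat_lit 3) (.p (nat_lit 445) (nat_lit 3) (.p (nat_lit 448) (nat_lit 2) (.p (nat_lit 451) (nat_lit 2) (.n (nat_lit 452) (nat_lit 1) (.n (nat_lit 453) (nat_lit 1) (.n (nat_lit 454) (nat_lit 2) (.n (nat_lit 456) (nat_lit 3) (.p (nat_lit 459) (nat_lit 1) .z))))))))))))))))))))))))) (.ct dC1c_c533 (nat_lit 1) (nat_lit 5) (.s false (nat_lit 1) (nat_lit 88) (nat_lit 2) (nat_lit 2) (nat_lit 0) true (nat_lit 11) true (nat_lit 15) false (nat_lit 5) true (nat_lit 13) true (nat_lit 13) (.e false (nat_lit 1) (nat_lit 186) (nat_lit 4) (nat_lit 11) (.e false (nat_lit 1) (nat_lit 334) (nat_lit 0) (nat_lit 15) (.e false (nat_lit 1) (nat_lit 261) (nat_lit 2) (nat_lit 13) dC1c_i27))))) .leaf) (nat_lit 90128) (nat_lit 1548) (.p (nat_lit 460) (nat_lit 2) (.p (nat_lit 461) (nat_lit 3) (.n (nat_lit 462) (nat_lit 2) (.n (nat_lit 463) (nat_lit 3) (.p (nat_lit 464) (nat_lit 2) (.p (nat_lit 465) (nat_lit 2) (.n (nat_lit 467) (nat_lit 3) (.p (nat_lit 468) (nat_lit 2) (.n (nat_lit 469) (nat_lit 2) (.n (nat_lit 470) (nat_lit 2) (.n (nat_lit 471) (nat_lit 3) (.n (nat_lit 472) (nat_lit 2) (.n (nat_lit 473) (nat_lit 3) (.p (nat_lit 474) (nat_lit 3) (.n (nat_lit 475) (nat_lit 3) (.p (nat_lit 476) (nat_lit 2) (.p (nat_lit 477) (nat_lit 3) (.n (nat_lit 478) (nat_lit 3) (.n (nat_lit 479) (nat_lit 3) (.p (nat_lit 480) (nat_lit 3) (.p (nat_lit 481) (nat_lit 1) (.p (nat_lit 482) (nat_lit 3) (.p (nat_lit 485) (nat_lit 1) (.n (nat_lit 488) (nat_lit 2) (.n (nat_lit 489) (nat_lit 2) (.n (nat_lit 492) (nat_lit 3) .z)))))))))))))))))))))))))) (.ct dC1c_c293 (nat_lit 1) (nat_lit 4) (.s true (nat_lit 1) (nat_lit 88) (nat_lit 1) (nat_lit 2) (nat_lit 2) true (nat_lit 10) true (nat_lit 13) false (nat_lit 4) true (nat_lit 14) true (nat_lit 13) (.e true (nat_lit 1) (nat_lit 186) (nat_lit 5) (nat_lit 10) (.e false (nat_lit 1) (nat_lit 291) (nat_lit 2) (nat_lit 13) (.e true (nat_lit 2) (nat_lit 292) (nat_lit 2) (nat_lit 13) (.e false (nat_lit 2) (nat_lit 293) (nat_lit 2) (nat_lit 13) (.e true (nat_lit 2) (nat_lit 294) (nat_lit 2) (nat_lit 13) (.e false (nat_lit 1) (nat_lit 295) (nat_lit 2) (nat_lit 13) (.e false (nat_lit 1) (nat_lit 296) (nat_lit 2) (nat_lit 13) (.e false (nat_lit 3) (nat_lit 298) (nat_lit 2) (nat_lit 13) dC1c_i28)))))))))) .leaf)) (nat_lit 90129) (nat_lit 1545) (.p (nat_lit 460) (nat_lit 3) (.p (nat_lit 461) (nat_lit 2) (.p (nat_lit 462) (nat_lit 3) (.p (nat_lit 463) (nat_lit 3) (.p (nat_lit 464) (nat_lit 2) (.p (nat_lit 465) (nat_lit 3) (.n (nat_lit 467) (nat_lit 3) (.n (nat_lit 469) (nat_lit 1) (.p (nat_lit 470) (nat_lit 2) (.n (nat_lit 471) (nat_lit 2) (.n (nat_lit 472) (nat_lit 1) (.n (nat_lit 473) (nat_lit 2) (.p (nat_lit 474) (nat_lit 3) (.n (nat_lit 475) (nat_lit 2) (.n (nat_lit 476) (nat_lit 3) (.p (nat_lit 477) (nat_lit 3) (.p (nat_lit 478) (nat_lit 1) (.n (nat_lit 479) (nat_lit 1) (.n (nat_lit 480) (nat_lit 1) (.p (nat_lit 481) (nat_lit 2) (.n (nat_lit 482) (nat_lit 1) (.p (nat_lit 485) (nat_lit 2) (.p (nat_lit 488) (nat_lit 3) (.n (nat_lit 489) (nat_lit 2) (.p (nat_lit 492) (nat_lit 1) (.n (nat_lit 493) (nat_lit 1) .z)))))))))))))))))))))))))) (.ct dC1c_c293 (nat_lit 1) (nat_lit 4) (.s true (nat_lit 1) (nat_lit 40) (nat_lit 1) (nat_lit 1) (nat_lit 6) true (nat_lit 4) true (nat_lit 9) false (nat_lit 0) true (nat_lit 14) true (nat_lit 14) (.e false (nat_lit 1) (nat_lit 154) (nat_lit 6) (nat_lit 9) (.e true (nat_lit 2) (nat_lit 155) (nat_lit 6) (nat_lit 9) (.e false (nat_lit 2) (nat_lit 156) (nat_lit 6) (nat_lit 9) (.e true (nat_lit 2) (nat_lit 157) (nat_lit 6) (nat_lit 9) (.e false (nat_lit 1) (nat_lit 158) (nat_lit 6) (nat_lit 9) (.e false (nat_lit 1) (nat_lit 159) (nat_lit 6) (nat_lit 9) dC1c_i29)))))))) (.nd (.nd (.nd .leaf (nat_lit 91136) (nat_lit 269) (.n (nat_lit 132) (nat_lit 3) (.p (nat_lit 133) (nat_lit 2) (.p (nat_lit 134) (nat_lit 1) (.n (nat_lit 135) (nat_lit 3) (.p (nat_lit 136) (nat_lit 3) (.n (nat_lit 137) (nat_lit 2) (.n (nat_lit 138) (nat_lit 1) (.p (nat_lit 139) (nat_lit 1) (.p (nat_lit 140) (nat_lit 1) (.n (nat_lit 141) (nat_lit 3) (.p (nat_lit 142) (nat_lit 3) (.n (nat_lit 144) (nat_lit 1) (.p (nat_lit 145) (nat_lit 3) (.p (nat_lit 146) (nat_lit 2) (.n (nat_lit 147) (nat_lit 2) (.p (nat_lit 148) (nat_lit 2) (.p (nat_lit 149) (nat_lit 2) (.p (nat_lit 150) (nat_lit 3) (.n (nat_lit 151) (nat_lit 2) (.n (nat_lit 152) (nat_lit 1) .z)))))))))))))))))))) (.ct dC1c_c531 (nat_lit 1) (nat_lit 9) (.s false (nat_lit 1) (nat_lit 14) (nat_lit 0) (nat_lit 1) (nat_lit 2) true (nat_lit 5) true (nat_lit 7) false (nat_lit 0) true (nat_lit 9) true (nat_lit 8) (.e false (nat_lit 1) (nat_lit 34) (nat_lit 4) (nat_lit 5) (.e false (nat_lit 1) (nat_lit 60) (nat_lit 2) (nat_lit 7) (.e false (nat_lit 1) (nat_lit 14) (nat_lit 10) (nat_lit 0) (.e true (nat_lit 1) (nat_lit 82) (nat_lit 0) (nat_lit 9) (.e true (nat_lit 1) (nat_lit 83) (nat_lit 0) (nat_lit 9) (.e false (nat_lit 1) (nat_lit 86) (nat_lit 0) (nat_lit 9) (.e true (nat_lit 2) (nat_lit 87) (nat_lit 0) (nat_lit 9) (.e false (nat_lit 1) (nat_lit 92) (nat_lit 0) (nat_lit 9) (.e true (nat_lit 1) (nat_lit 80) (nat_lit 1) (nat_lit 8) (.u (nat_lit 2) (.p (nat_lit 0) (nat_lit 1) (.n (nat_lit 1) (nat_lit 1) (.p (nat_lit 3) (nat_lit 1) (.p (nat_lit 7) (nat_lit 1) (.n (nat_lit 8) (nat_lit 1) (.n (nat_lit 10) (nat_lit 2) (.p (nat_lit 12) (nat_lit 1) (.n (nat_lit 13) (nat_lit 1) (.p (nat_lit 19) (nat_lit 1) .z))))))))) .nil)))))))))))) .leaf) (nat_lit 91137) (nat_lit 313) (.p (nat_lit 153) (nat_lit 1) (.p (nat_lit 154) (nat_lit 3) (.p (nat_lit 155) (nat_lit 3) (.n (nat_lit 156) (nat_lit 2) (.p (nat_lit 157) (nat_lit 2) (.p (nat_lit 158) (nat_lit 2) (.n (nat_lit 159) (nat_lit 2) (.p (nat_lit 160) (nat_lit 3) (.n (nat_lit 162) (nat_lit 3) (.n (nat_lit 163) (nat_lit 3) (.p (nat_lit 164) (nat_lit 1) (.p (nat_lit 165) (nat_lit 1) (.n (nat_lit 166) (nat_lit 1) (.p (nat_lit 167) (nat_lit 3) (.p (nat_lit 169) (nat_lit 1) (.n (nat_lit 170) (nat_lit 2) (.p (nat_lit 171) (nat_lit 3) (.n (nat_lit 172) (nat_lit 2) (.p (nat_lit 173) (nat_lit 3) .z))))))))))))))))))) (.ct dC1c_c291 (nat_lit 1) (nat_lit 8) (.s true (nat_lit 1) (nat_lit 14) (nat_lit 1) (nat_lit 2) (nat_lit 1) false (nat_lit 10) true (nat_lit 8) false (nat_lit 0) true (nat_lit 8) true (nat_lit 7) (.e true (nat_lit 1) (nat_lit 85) (nat_lit 1) (nat_lit 8) (.e true (nat_lit 1) (nat_lit 14) (nat_lit 13) (nat_lit 0) (.e true (nat_lit 1) (nat_lit 82) (nat_lit 1) (nat_lit 8) (.e true (nat_lit 1) (nat_lit 83) (nat_lit 1) (nat_lit 8) (.e false (nat_lit 1) (nat_lit 86) (nat_lit 1) (nat_lit 8) (.e true (nat_lit 2) (nat_lit 87) (nat_lit 1) (nat_lit 8) (.e false (nat_lit 1) (nat_lit 92) (nat_lit 1) (nat_lit 8) (.e false (nat_lit 1) (nat_lit 72) (nat_lit 2) (nat_lit 7) (.u (nat_lit 2) (.n (nat_lit 0) (nat_lit 1) (.n (nat_lit 1) (nat_lit 1) (.n (nat_lit 4) (nat_lit 1) (.p (nat_lit 17) (nat_lit 1) (.n (nat_lit 18) (nat_lit 1) .z))))) .nil))))))))))) .leaf) (nat_lit 91138) (nat_lit 347) (.p (nat_lit 187) (nat_lit 1) .z) .df (.nd (.nd .leaf (nat_lit 91139) (nat_lit 509) (.p (nat_lit 212) (nat_lit 1) (.n (nat_lit 213) (nat_lit 2) (.n (nat_lit 214) (nat_lit 1) (.p (nat_lit 215) (nat_lit 3) (.n (nat_lit 216) (nat_lit 2) (.p (nat_lit 217) (nat_lit 1) (.n (nat_lit 218) (nat_lit 2) (.p (nat_lit 219) (nat_lit 3) (.n (nat_lit 220) (nat_lit 2) (.n (nat_lit 221) (nat_lit 2) (.n (nat_lit 222) (nat_lit 2) (.n (nat_lit 223) (nat_lit 3) (.p (nat_lit 224) (nat_lit 2) (.n (nat_lit 225) (nat_lit 1) (.p (nat_lit 226) (nat_lit 3) (.p (nat_lit 227) (nat_lit 3) (.p (nat_lit 228) (nat_lit 1) (.n (nat_lit 229) (nat_lit 2) (.n (nat_lit 230) (nat_lit 2) (.n (nat_lit 231) (nat_lit 2) (.n (nat_lit 232) (nat_lit 3) (.p (nat_lit 234) (nat_lit 1) (.p (nat_lit 235) (nat_lit 2) (.n (nat_lit 236) (nat_lit 1) (.p (nat_lit 238) (nat_lit 3) (.n (nat_lit 239) (nat_lit 3) (.n (nat_lit 240) (nat_lit 1) (.p (nat_lit 241) (nat_lit 2) (.p (nat_lit 242) (nat_lit 3) (.n (nat_lit 243) (nat_lit 3) (.n (nat_lit 244) (nat_lit 1) (.p (nat_lit 245) (nat_lit 1) (.p (nat_lit 246) (nat_lit 2) (.n (nat_lit 247) (nat_lit 2) (.p (nat_lit 248) (nat_lit 3) .z))))))))))))))))))))))))))))))))))) (.ct dC1c_c547 (nat_lit 1) (nat_lit 11) (.s true (nat_lit 1) (nat_lit 43) (nat_lit 0) (nat_lit 0) (nat_lit 1) true (nat_lit 11) true (nat_lit 13) false (nat_lit 7) true (nat_lit 14) true (nat_lit 14) (.e false (nat_lit 3) (nat_lit 132) (nat_lit 1) (nat_lit 13) (.e true (nat_lit 2) (nat_lit 133) (nat_lit 1) (nat_lit 13) (.e true (nat_lit 1) (nat_lit 134) (nat_lit 1) (nat_lit 13) (.e false (nat_lit 3) (nat_lit 135) (nat_lit 1) (nat_lit 13) (.e true (nat_lit 3) (nat_lit 136) (nat_lit 1) (nat_lit 13) (.e false (nat_lit 2) (nat_lit 137) (nat_lit 1) (nat_lit 13) (.e false (nat_lit 1) (nat_lit 138) (nat_lit 1) (nat_lit 13) (.e true (nat_lit 1) (nat_lit 139) (nat_lit 1) (nat_lit 13) (.e true (nat_lit 1) (nat_lit 140) (nat_lit 1) (nat_lit 13) (.e false (nat_lit 3) (nat_lit 141) (nat_lit 1) (nat_lit 13) (.e true (nat_lit 3) (nat_lit 142) (nat_lit 1) (nat_lit 13) (.e false (nat_lit 1) (nat_lit 144) (nat_lit 1) (nat_lit 13) (.e true (nat_lit 3) (nat_lit 145) (nat_lit 1) (nat_lit 13) (.e true (nat_lit 2) (nat_lit 146) (nat_lit 1) (nat_lit 13) (.e false (nat_lit 2) (nat_lit 147) (nat_lit 1) (nat_lit 13) dC1c_i30))))))))))))))))) .leaf) (nat_lit 91140) (nat_lit 662) (.n (nat_lit 260) (nat_lit 1) (.p (nat_lit 262) (nat_lit 2) (.p (nat_lit 263) (nat_lit 3) (.p (nat_lit 264) (nat_lit 2) (.p (nat_lit 265) (nat_lit 3) (.p (nat_lit 266) (nat_lit 3) (.n (nat_lit 268) (nat_lit 3) (.p (nat_lit 269) (nat_lit 3) (.p (nat_lit 270) (nat_lit 1) (.n (nat_lit 271) (nat_lit 3) (.p (nat_lit 272) (nat_lit 1) (.p (nat_lit 273) (nat_lit 2) (.n (nat_lit 274) (nat_lit 2) (.p (nat_lit 275) (nat_lit 1) (.n (nat_lit 276) (nat_lit 1) (.n (nat_lit 277) (nat_lit 1) (.p (nat_lit 278) (nat_lit 2) (.p (nat_lit 279) (nat_lit 3) (.n (nat_lit 280) (nat_lit 3) (.p (nat_lit 282) (nat_lit 3) (.n (nat_lit 283) (nat_lit 1) (.p (nat_lit 285) (nat_lit 1) (.p (nat_lit 286) (nat_lit 1) (.p (nat_lit 287) (nat_lit 2) (.n (nat_lit 288) (nat_lit 3) (.n (nat_lit 289) (nat_lit 3) .z)))))))))))))))))))))))))) (.ct dC1c_c532 (nat_lit 1) (nat_lit 8) (.s false (nat_lit 1) (nat_lit 43) (nat_lit 2) (nat_lit 0) (nat_lit 0) true (nat_lit 8) true (nat_lit 12) false (nat_lit 4) true (nat_lit 10) true (nat_lit 12) (.e false (nat_lit 3) (nat_lit 180) (nat_lit 0) (nat_lit 12) (.e true (nat_lit 2) (nat_lit 181) (nat_lit 0) (nat_lit 12) (.e false (nat_lit 2) (nat_lit 182) (nat_lit 0) (nat_lit 12) (.e true (nat_lit 2) (nat_lit 183) (nat_lit 0) (nat_lit 12) (.e true (nat_lit 3) (nat_lit 184) (nat_lit 0) (nat_lit 12) (.e false (nat_lit 1) (nat_lit 185) (nat_lit 0) (nat_lit 12) (.e false (nat_lit 2) (nat_lit 186) (nat_lit 0) (nat_lit 12) (.e false (nat_lit 1) (nat_lit 187) (nat_lit 0) (nat_lit 12) (.e true (nat_lit 3) (nat_lit 189) (nat_lit 0) (nat_lit 12) (.e true (nat_lit 3) (nat_lit 190) (nat_lit 0) (nat_lit 12) (.e true (nat_lit 1) (nat_lit 191) (nat_lit 0) (nat_lit 12) (.e true (nat_lit 1) (nat_lit 193) (nat_lit 0) (nat_lit 12) (.e true (nat_lit 1) (nat_lit 194) (nat_lit 0) (nat_lit 12) (.e true (nat_lit 1) (nat_lit 43) (nat_lit 9) (nat_lit 4) (.u (nat_lit 2) (.n (nat_lit 0) (nat_lit 1) (.p (nat_lit 1) (nat_lit 2) (.p (nat_lit 2) (nat_lit 1) (.n (nat_lit 3) (nat_lit 2) (.p (nat_lit 4) (nat_lit 1) (.n (nat_lit 5) (nat_lit 3) (.n (nat_lit 6) (nat_lit 3) (.n (nat_lit 7) (nat_lit 3) (.p (nat_lit 8) (nat_lit 2) (.p (nat_lit 9) (nat_lit 2) (.n (nat_lit 10) (nat_lit 3) (.n (nat_lit 11) (nat_lit 1) (.p (nat_lit 12) (nat_lit 2) (.p (nat_lit 13) (nat_lit 1) (.n (nat_lit 14) (nat_lit 2) (.p (nat_lit 17) (nat_lit 3) (.p (nat_lit 18) (nat_lit 1) (.p (nat_lit 19) (nat_lit 1) (.p (nat_lit 20) (nat_lit 2) (.n (nat_lit 22) (nat_lit 1) (.p (nat_lit 23) (nat_lit 1) (.n (nat_lit 24) (nat_lit 2) (.n (nat_lit 25) (nat_lit 1) (.n (nat_lit 26) (nat_lit 1) (.p (nat_lit 29) (nat_lit 1) .z))))))))))))))))))))))))) .nil))))))))))))))))) .leaf))) (nat_lit 91141) (nat_lit 745) (.p (nat_lit 290) (nat_lit 1) (.n (nat_lit 291) (nat_lit 1) (.n (nat_lit 292) (nat_lit 3) (.p (nat_lit 293) (nat_lit 1) (.n (nat_lit 294) (nat_lit 3) (.p (nat_lit 295) (nat_lit 2) (.n (nat_lit 297) (nat_lit 1) (.p (nat_lit 298) (nat_lit 3) (.p (nat_lit 299) (nat_lit 2) (.p (nat_lit 300) (nat_lit 3) (.n (nat_lit 301) (nat_lit 3) (.p (nat_lit 303) (nat_lit 1) (.n (nat_lit 304) (nat_lit 1) (.p (nat_lit 305) (nat_lit 3) (.n (nat_lit 306) (nat_lit 1) (.n (nat_lit 307) (nat_lit 3) (.p (nat_lit 308) (nat_lit 2) (.p (nat_lit 309) (nat_lit 2) (.p (nat_lit 310) (nat_lit 3) (.n (nat_lit 311) (nat_lit 1) (.p (nat_lit 312) (nat_lit 1) (.p (nat_lit 313) (nat_lit 1) (.n (nat_lit 314) (nat_lit 1) (.p (nat_lit 316) (nat_lit 1) (.p (nat_lit 317) (nat_lit 1) (.p (nat_lit 318) (nat_lit 2) .z)))))))))))))))))))))))))) (.ct dC1c_c292 (nat_lit 1) (nat_lit 7) (.s true (nat_lit 1) (nat_lit 43) (nat_lit 1) (nat_lit 0) (nat_lit 2) true (nat_lit 7) true (nat_lit 10) false (nat_lit 4) true (nat_lit 11) true (nat_lit 12) (.e false (nat_lit 1) (nat_lit 153) (nat_lit 2) (nat_lit 10) (.e false (nat_lit 2) (nat_lit 155) (nat_lit 2) (nat_lit 10) (.e true (nat_lit 3) (nat_lit 156) (nat_lit 2) (nat_lit 10) (.e false (nat_lit 3) (nat_lit 157) (nat_lit 2) (nat_lit 10) (.e true (nat_lit 2) (nat_lit 158) (nat_lit 2) (nat_lit 10) (.e true (nat_lit 3) (nat_lit 159) (nat_lit 2) (nat_lit 10) (.e false (nat_lit 2) (nat_lit 160) (nat_lit 2) (nat_lit 10) dC1c_i31))))))))) (.nd (.nd (.nd (.nd .leaf (nat_lit 91142) (nat_lit 856) (.p (nat_lit 328) (nat_lit 2) (.n (nat_lit 329) (nat_lit 1) (.n (nat_lit 330) (nat_lit 2) (.p (nat_lit 331) (nat_lit 1) (.n (nat_lit 332) (nat_lit 2) (.n (nat_lit 333) (nat_lit 1) (.n (nat_lit 334) (nat_lit 3) (.n (nat_lit 335) (nat_lit 1) (.p (nat_lit 336) (nat_lit 2) (.n (nat_lit 337) (nat_lit 3) (.n (nat_lit 338) (nat_lit 2) (.p (nat_lit 346) (nat_lit 1) .z)))))))))))) (.ct dC1c_c277 (nat_lit 1) (nat_lit 4) dC1c_i32) .leaf) (nat_lit 91148) (nat_lit 1175) (.n (nat_lit 355) (nat_lit 2) (.n (nat_lit 356) (nat_lit 1) (.n (nat_lit 357) (nat_lit 1) (.n (nat_lit 358) (nat_lit 3) (.p (nat_lit 359) (nat_lit 2) (.p (nat_lit 360) (nat_lit 2) (.n (nat_lit 362) (nat_lit 3) (.p (nat_lit 365) (nat_lit 1) (.p (nat_lit 366) (nat_lit 2) (.p (nat_lit 367) (nat_lit 1) (.p (nat_lit 368) (nat_lit 3) (.p (nat_lit 369) (nat_lit 2) (.n (nat_lit 370) (nat_lit 2) (.n (nat_lit 371) (nat_lit 1) (.p (nat_lit 372) (nat_lit 2) (.p (nat_lit 373) (nat_lit 3) (.n (nat_lit 374) (nat_lit 1) (.p (nat_lit 375) (nat_lit 1) (.n (nat_lit 376) (nat_lit 1) (.p (nat_lit 377) (nat_lit 1) (.p (nat_lit 378) (nat_lit 1) (.n (nat_lit 379) (nat_lit 1) (.p (nat_lit 382) (nat_lit 2) (.p (nat_lit 383) (nat_lit 3) (.n (nat_lit 385) (nat_lit 3) (.p (nat_lit 386) (nat_lit 3) (.p (nat_lit 387) (nat_lit 2) (.p (nat_lit 389) (nat_lit 1) (.p (nat_lit 390) (nat_lit 1) (.n (nat_lit 391) (nat_lit 3) (.p (nat_lit 393) (nat_lit 2) (.n (nat_lit 394) (nat_lit 2) (.p (nat_lit 395) (nat_lit 2) (.p (nat_lit 396) (nat_lit 3) (.p (nat_lit 397) (nat_lit 2) (.n (nat_lit 398) (nat_lit 2) (.p (nat_lit 404) (nat_lit 1) (.n (nat_lit 405) (nat_lit 2) (.p (nat_lit 406) (nat_lit 2) (.p (nat_lit 408) (nat_lit 3) (.p (nat_lit 409) (nat_lit 3) (.n (nat_lit 410) (nat_lit 1) (.p (nat_lit 412) (nat_lit 2) (.n (nat_lit 413) (nat_lit 2) (.n (nat_lit 415) (nat_lit 1) (.n (nat_lit 416) (nat_lit 1) (.p (nat_lit 417) (nat_lit 2) (.p (nat_lit 418) (nat_lit 1) (.n (nat_lit 420) (nat_lit 2) (.p (nat_lit 421) (nat_lit 2) (.p (nat_lit 424) (nat_lit 1) .z))))))))))))))))))))))))))))))))))))))))))))))))))) (.ct dC1c_c548 (nat_lit 1) (nat_lit 9) (.s false (nat_lit 1) (nat_lit 43) (nat_lit 5) (nat_lit 0) (nat_lit 0) true (nat_lit 9) true (nat_lit 19) false (nat_lit 3) true (nat_lit 14) true (nat_lit 19) dC1c_i33)) .leaf) (nat_lit 91151) (nat_lit 1382) (.n (nat_lit 426) (nat_lit 1) (.n (nat_lit 428) (nat_lit 1) (.n (nat_lit 429) (nat_lit 3) (.p (nat_lit 430) (nat_lit 3) (.p (nat_lit 431) (nat_lit 1) (.p (nat_lit 432) (nat_lit 3) (.n (nat_lit 433) (nat_lit 2) (.n (nat_lit 435) (nat_lit 2) (.p (nat_lit 438) (nat_lit 3) (.n (nat_lit 439) (nat_lit 2) (.p (nat_lit 441) (nat_lit 3) (.p (nat_lit 443) (nat_lit 2) (.p (nat_lit 444) (nat_lit 1) (.n (nat_lit 445) (nat_lit 1) (.p (nat_lit 447) (nat_lit 2) (.p (nat_lit 448) (nat_lit 3) (.n (nat_lit 450) (nat_lit 2) (.p (nat_lit 453) (nat_lit 2) (.n (nat_lit 454) (nat_lit 3) (.p (nat_lit 455) (nat_lit 3) (.p (nat_lit 456) (nat_lit 3) (.n (nat_lit 459) (nat_lit 1) .z)))))))))))))))))))))) (.ct dC1c_c533 (nat_lit 1) (nat_lit 5) (.s false (nat_lit 1) (nat_lit 15) (nat_lit 1) (nat_lit 2) (nat_lit 15) true (nat_lit 0) true (nat_lit 5) true (nat_lit 5) true (nat_lit 14) true (nat_lit 13) (.e false (nat_lit 1) (nat_lit 41) (nat_lit 35) (nat_lit 0) (.e true (nat_lit 1) (nat_lit 86) (nat_lit 15) (nat_lit 5) (.e false (nat_lit 2) (nat_lit 82) (nat_lit 15) (nat_lit 5) (.e false (nat_lit 2) (nat_lit 83) (nat_lit 15) (nat_lit 5) (.e false (nat_lit 1) (nat_lit 84) (nat_lit 15) (nat_lit 5) (.e false (nat_lit 1) (nat_lit 85) (nat_lit 15) (nat_lit 5) (.e false (nat_lit 2) (nat_lit 87) (nat_lit 15) (nat_lit 5) (.e false (nat_lit 1) (nat_lit 88) (nat_lit 15) (nat_lit 5) (.e true (nat_lit 1) (nat_lit 91) (nat_lit 15) (nat_lit 5) (.e true (nat_lit 2) (nat_lit 321) (nat_lit 1) (nat_lit 14) (.e false (nat_lit 2) (nat_lit 322) (nat_lit 1) (nat_lit 14) (.e true (nat_lit 3) (nat_lit 323) (nat_lit 1) (nat_lit 14) (.e true (nat_lit 1) (nat_lit 324) (nat_lit 1) (nat_lit 14) (.e false (nat_lit 1) (nat_lit 325) (nat_lit 1) (nat_lit 14) (.e true (nat_lit 2) (nat_lit 327) (nat_lit 1) (nat_lit 14) (.u (nat_lit 2) (.p (nat_lit 0) (nat_lit 1) (.n (nat_lit 1) (nat_lit 2) (.p (nat_lit 2) (nat_lit 3) (.n (nat_lit 3) (nat_lit 1) (.n (nat_lit 6) (nat_lit 1) (.p (nat_lit 8) (nat_lit 1) (.p (nat_lit 9) (nat_lit 1) (.n (nat_lit 10) (nat_lit 1) (.n (nat_lit 12) (nat_lit 2) (.p (nat_lit 13) (nat_lit 1) (.n (nat_lit 16) (nat_lit 1) (.p (nat_lit 17) (nat_lit 1) (.p (nat_lit 19) (nat_lit 1) (.p (nat_lit 21) (nat_lit 1) (.n (nat_lit 22) (nat_lit 1) (.n (nat_lit 24) (nat_lit 1) (.p (nat_lit 25) (nat_lit 2) (.n (nat_lit 29) (nat_lit 3) (.n (nat_lit 30) (nat_lit 2) .z))))))))))))))))))) .nil)))))))))))))))))) (.nd (.nd .leaf (nat_lit 91152) (nat_lit 1536) (.n (nat_lit 460) (nat_lit 1) (.p (nat_lit 461) (nat_lit 2) (.p (nat_lit 463) (nat_lit 1) (.n (nat_lit 464) (nat_lit 3) (.p (nat_lit 465) (nat_lit 2) (.n (nat_lit 467) (nat_lit 2) (.p (nat_lit 468) (nat_lit 1) (.n (nat_lit 469) (nat_lit 3) (.p (nat_lit 470) (nat_lit 1) (.p (nat_lit 471) (nat_lit 2) (.p (nat_lit 472) (nat_lit 2) (.p (nat_lit 474) (nat_lit 1) (.n (nat_lit 475) (nat_lit 1) (.n (nat_lit 476) (nat_lit 2) (.p (nat_lit 477) (nat_lit 2) (.p (nat_lit 478) (nat_lit 3) (.p (nat_lit 479) (nat_lit 1) (.n (nat_lit 480) (nat_lit 3) (.n (nat_lit 481) (nat_lit 1) (.n (nat_lit 482) (nat_lit 3) (.n (nat_lit 485) (nat_lit 1) (.p (nat_lit 486) (nat_lit 1) (.n (nat_lit 487) (nat_lit 1) (.p (nat_lit 488) (nat_lit 1) (.p (nat_lit 489) (nat_lit 3) (.p (nat_lit 492) (nat_lit 3) (.p (nat_lit 493) (nat_lit 3) .z))))))))))))))))))))))))))) (.ct dC1c_c293 (nat_lit 1) (nat_lit 4) (.s false (nat_lit 1) (nat_lit 16) (nat_lit 0) (nat_lit 16) (nat_lit 2) true (nat_lit 11) true (nat_lit 13) true (nat_lit 4) true (nat_lit 15) true (nat_lit 4) (.e true (nat_lit 3) (nat_lit 290) (nat_lit 2) (nat_lit 13) (.e true (nat_lit 1) (nat_lit 291) (nat_lit 2) (nat_lit 13) (.e false (nat_lit 2) (nat_lit 293) (nat_lit 2) (nat_lit 13) dC1c_i34))))) .leaf) (nat_lit 92160) (nat_lit 253) (.n (nat_lit 132) (nat_lit 1) (.n (nat_lit 134) (nat_lit 1) (.n (nat_lit 135) (nat_lit 2) (.p (nat_lit 136) (nat_lit 3) (.p (nat_lit 137) (nat_lit 2) (.p (nat_lit 138) (nat_lit 3) (.n (nat_lit 139) (nat_lit 1) (.p (nat_lit 141) (nat_lit 3) (.p (nat_lit 142) (nat_lit 1) (.p (nat_lit 143) (nat_lit 1) (.p (nat_lit 144) (nat_lit 2) (.p (nat_lit 145) (nat_lit 1) (.n (nat_lit 146) (nat_lit 1) (.p (nat_lit 147) (nat_lit 2) (.p (nat_lit 149) (nat_lit 1) (.p (nat_lit 150) (nat_lit 1) (.p (nat_lit 151) (nat_lit 2) (.p (nat_lit 152) (nat_lit 3) .z)))))))))))))))))) (.ct dC1c_c531 (nat_lit 1) (nat_lit 9) (.s false (nat_lit 1) (nat_lit 10) (nat_lit 0) (nat_lit 2) (nat_lit 2) true (nat_lit 5) true (nat_lit 7) true (nat_lit 0) true (nat_lit 9) true (nat_lit 7) (.e false (nat_lit 1) (nat_lit 31) (nat_lit 4) (nat_lit 5) (.e false (nat_lit 1) (nat_lit 57) (nat_lit 2) (nat_lit 7) (.e true (nat_lit 1) (nat_lit 14) (nat_lit 10) (nat_lit 0) (.e false (nat_lit 1) (nat_lit 62) (nat_lit 2) (nat_lit 7) (.u (nat_lit 2) (.p (nat_lit 2) (nat_lit 1) (.n (nat_lit 6) (nat_lit 1) (.p (nat_lit 7) (nat_lit 1) .z))) .nil))))))) .leaf)) (nat_lit 92161) (nat_lit 285) (.p (nat_lit 167) (nat_lit 1) .z) .df (.nd (.nd (.nd .leaf (nat_lit 92162) (nat_lit 348) (.p (nat_lit 188) (nat_lit 1) .z) .df .leaf) (nat_lit 92163) (nat_lit 521) (.p (nat_lit 212) (nat_lit 3) (.n (nat_lit 213) (nat_lit 3) (.n (nat_lit 214) (nat_lit 3) (.p (nat_lit 215) (nat_lit 3) (.n (nat_lit 216) (nat_lit 1) (.p (nat_lit 218) (nat_lit 2) (.n (nat_lit 219) (nat_lit 2) (.p (nat_lit 221) (nat_lit 3) (.p (nat_lit 222) (nat_lit 3) (.p (nat_lit 223) (nat_lit 1) (.p (nat_lit 226) (nat_lit 3) (.p (nat_lit 229) (nat_lit 2) (.p (nat_lit 231) (nat_lit 1) (.p (nat_lit 232) (nat_lit 1) (.n (nat_lit 233) (nat_lit 1) (.n (nat_lit 234) (nat_lit 3) (.p (nat_lit 235) (nat_lit 3) (.n (nat_lit 236) (nat_lit 3) (.n (nat_lit 237) (nat_lit 3) (.n (nat_lit 238) (nat_lit 1) (.n (nat_lit 239) (nat_lit 1) (.n (nat_lit 240) (nat_lit 2) (.p (nat_lit 241) (nat_lit 3) (.p (nat_lit 242) (nat_lit 3) (.p (nat_lit 243) (nat_lit 2) (.n (nat_lit 244) (nat_lit 3) (.n (nat_lit 245) (nat_lit 2) (.n (nat_lit 246) (nat_lit 2) (.n (nat_lit 248) (nat_lit 2) .z))))))))))))))))))))))))))))) (.ct dC1c_c547 (nat_lit 1) (nat_lit 11) (.s false (nat_lit 3) (nat_lit 18) (nat_lit 1) (nat_lit 3) (nat_lit 0) true (nat_lit 11) true (nat_lit 14) true (nat_lit 0) true (nat_lit 13) true (nat_lit 11) (.e false (nat_lit 2) (nat_lit 83) (nat_lit 3) (nat_lit 11) (.e true (nat_lit 1) (nat_lit 84) (nat_lit 3) (nat_lit 11) (.e false (nat_lit 1) (nat_lit 85) (nat_lit 3) (nat_lit 11) (.e false (nat_lit 1) (nat_lit 154) (nat_lit 0) (nat_lit 14) (.e false (nat_lit 1) (nat_lit 157) (nat_lit 0) (nat_lit 14) (.e false (nat_lit 3) (nat_lit 161) (nat_lit 0) (nat_lit 14) (.e false (nat_lit 3) (nat_lit 167) (nat_lit 0) (nat_lit 14) (.e true (nat_lit 3) (nat_lit 173) (nat_lit 0) (nat_lit 14) (.e true (nat_lit 3) (nat_lit 19) (nat_lit 18) (nat_lit 0) (.e true (nat_lit 3) (nat_lit 142) (nat_lit 1) (nat_lit 13) (.e false (nat_lit 3) (nat_lit 149) (nat_lit 1) (nat_lit 13) (.e false (nat_lit 1) (nat_lit 82) (nat_lit 3) (nat_lit 11) (.e false (nat_lit 3) (nat_lit 86) (nat_lit 3) (nat_lit 11) (.e false (nat_lit 3) (nat_lit 91) (nat_lit 3) (nat_lit 11) (.u (nat_lit 2) (.n (nat_lit 0) (nat_lit 4) (.n (nat_lit 1) (nat_lit 2) (.p (nat_lit 2) (nat_lit 2) (.n (nat_lit 3) (nat_lit 2) (.p (nat_lit 4) (nat_lit 3) (.n (nat_lit 5) (nat_lit 1) (.n (nat_lit 6) (nat_lit 3) (.p (nat_lit 7) (nat_lit 3) (.p (nat_lit 8) (nat_lit 2) (.p (nat_lit 10) (nat_lit 1) (.p (nat_lit 11) (nat_lit 1) (.n (nat_lit 12) (nat_lit 1) (.p (nat_lit 13) (nat_lit 1) (.p (nat_lit 14) (nat_lit 2) (.n (nat_lit 15) (nat_lit 2) (.n (nat_lit 20) (nat_lit 6) (.n (nat_lit 21) (nat_lit 4) (.n (nat_lit 22) (nat_lit 1) (.n (nat_lit 23) (nat_lit 3) (.p (nat_lit 24) (nat_lit 2) (.p (nat_lit 26) (nat_lit 1) (.p (nat_lit 27) (nat_lit 3) (.n (nat_lit 29) (nat_lit 2) (.n (nat_lit 30) (nat_lit 3) (.n (nat_lit 31) (nat_lit 1) (.n (nat_lit 32) (nat_lit 1) (.n (nat_lit 33) (nat_lit 1) (.n (nat_lit 35) (nat_lit 2) (.n (nat_lit 125) (nat_lit 1) (.n (nat_lit 126) (nat_lit 2) (.p (nat_lit 127) (nat_lit 1) (.n (nat_lit 128) (nat_lit 1) (.p (nat_lit 133) (nat_lit 1) (.n (nat_lit 183) (nat_lit 1) (.n (nat_lit 186) (nat_lit 1) .z))))))))))))))))))))))))))))))))))) .nil))))))))))))))))) .leaf) (nat_lit 92164) (nat_lit 622) (.n (nat_lit 260) (nat_lit 2) (.n (nat_lit 261) (nat_lit 2) (.p (nat_lit 262) (nat_lit 2) (.p (nat_lit 263) (nat_lit 1) (.n (nat_lit 264) (nat_lit 1) (.p (nat_lit 265) (nat_lit 1) (.p (nat_lit 266) (nat_lit 3) (.n (nat_lit 267) (nat_lit 1) (.p (nat_lit 268) (nat_lit 2) (.p (nat_lit 269) (nat_lit 3) (.n (nat_lit 270) (nat_lit 3) (.n (nat_lit 271) (nat_lit 3) (.n (nat_lit 273) (nat_lit 2) (.p (nat_lit 274) (nat_lit 1) (.n (nat_lit 275) (nat_lit 2) (.n (nat_lit 277) (nat_lit 3) (.n (nat_lit 278) (nat_lit 3) (.n (nat_lit 280) (nat_lit 2) (.p (nat_lit 281) (nat_lit 1) (.p (nat_lit 283) (nat_lit 2) (.n (nat_lit 286) (nat_lit 1) (.n (nat_lit 287) (nat_lit 1) (.p (nat_lit 288) (nat_lit 1) (.n (nat_lit 289) (nat_lit 1) .z)))))))))))))))))))))))) (.ct dC1c_c532 (nat_lit 1) (nat_lit 8) (.s true (nat_lit 2) (nat_lit 6) (nat_lit 4) (nat_lit 2) (nat_lit 3) false (nat_lit 0) true (nat_lit 9) true (nat_lit 6) true (nat_lit 8) true (nat_lit 10) (.s false (nat_lit 1) (nat_lit 10) (nat_lit 0) (nat_lit 2) (nat_lit 6) true (nat_lit 2) true (nat_lit 6) true (nat_lit 3) true (nat_lit 12) true (nat_lit 10) (.s true (nat_lit 1) (nat_lit 10) (nat_lit 2) (nat_lit 6) (nat_lit 0) true (nat_lit 8) true (nat_lit 12) true (nat_lit 3) true (nat_lit 10) true (nat_lit 6) (.s false (nat_lit 1) (nat_lit 15) (nat_lit 3) (nat_lit 2) (nat_lit 2) true (nat_lit 3) true (nat_lit 10) true (nat_lit 2) true (nat_lit 9) true (nat_lit 10) (.s true (nat_lit 2) (nat_lit 23) (nat_lit 2) (nat_lit 2) (nat_lit 2) true (nat_lit 6) true (nat_lit 10) false (nat_lit 0) true (nat_lit 10) true (nat_lit 10) (.e false (nat_lit 2) (nat_lit 21) (nat_lit 18) (nat_lit 0) (.e true (nat_lit 2) (nat_lit 22) (nat_lit 18) (nat_lit 0) dC1c_i35)))))))) (.nd (.nd .leaf (nat_lit 92165) (nat_lit 727) (.p (nat_lit 290) (nat_lit 2) (.n (nat_lit 291) (nat_lit 2) (.n (nat_lit 292) (nat_lit 1) (.p (nat_lit 293) (nat_lit 1) (.p (nat_lit 294) (nat_lit 1) (.p (nat_lit 299) (nat_lit 1) (.n (nat_lit 301) (nat_lit 2) (.p (nat_lit 304) (nat_lit 3) (.n (nat_lit 307) (nat_lit 2) (.p (nat_lit 308) (nat_lit 2) (.p (nat_lit 310) (nat_lit 1) (.p (nat_lit 311) (nat_lit 1) (.p (nat_lit 317) (nat_lit 1) (.p (nat_lit 319) (nat_lit 1) .z)))))))))))))) (.ct dC1c_c292 (nat_lit 1) (nat_lit 7) (.s false (nat_lit 1) (nat_lit 10) (nat_lit 5) (nat_lit 2) (nat_lit 2) true (nat_lit 1) true (nat_lit 10) true (nat_lit 4) true (nat_lit 7) true (nat_lit 10) (.e false (nat_lit 1) (nat_lit 31) (nat_lit 16) (nat_lit 1) (.e true (nat_lit 1) (nat_lit 43) (nat_lit 10) (nat_lit 4) (.e false (nat_lit 1) (nat_lit 154) (nat_lit 2) (nat_lit 10) (.e false (nat_lit 2) (nat_lit 157) (nat_lit 2) (nat_lit 10) (.e false (nat_lit 1) (nat_lit 164) (nat_lit 2) (nat_lit 10) (.e true (nat_lit 1) (nat_lit 167) (nat_lit 2) (nat_lit 10) (.e true (nat_lit 1) (nat_lit 171) (nat_lit 2) (nat_lit 10) .nil))))))))) .leaf) (nat_lit 92166) (nat_lit 840) (.p (nat_lit 336) (nat_lit 2) .z) (.ct dC1c_c277 (nat_lit 1) (nat_lit 4) (.s true (nat_lit 1) (nat_lit 6) (nat_lit 2) (nat_lit 6) (nat_lit 3) true (nat_lit 3) true (nat_lit 7) true (nat_lit 4) true (nat_lit 8) true (nat_lit 4) (.e false (nat_lit 2) (nat_lit 188) (nat_lit 2) (nat_lit 8) .nil))) .leaf))))) (nat_lit 92170) (nat_lit 1151) (.p (nat_lit 355) (nat_lit 1) (.n (nat_lit 356) (nat_lit 2) (.p (nat_lit 357) (nat_lit 2) (.p (nat_lit 359) (nat_lit 2) (.p (nat_lit 361) (nat_lit 3) (.n (nat_lit 362) (nat_lit 3) (.n (nat_lit 363) (nat_lit 3) (.n (nat_lit 364) (nat_lit 1) (.p (nat_lit 365) (nat_lit 1) (.p (nat_lit 366) (nat_lit 3) (.p (nat_lit 367) (nat_lit 3) (.n (nat_lit 369) (nat_lit 2) (.p (nat_lit 370) (nat_lit 2) (.n (nat_lit 373) (nat_lit 2) (.n (nat_lit 374) (nat_lit 1) (.n (nat_lit 375) (nat_lit 3) (.n (nat_lit 376) (nat_lit 2) (.n (nat_lit 382) (nat_lit 3) (.p (nat_lit 383) (nat_lit 2) (.p (nat_lit 384) (nat_lit 1) (.p (nat_lit 385) (nat_lit 3) (.p (nat_lit 386) (nat_lit 1) (.n (nat_lit 389) (nat_lit 1) (.p (nat_lit 390) (nat_lit 2) (.p (nat_lit 391) (nat_lit 3) (.p (nat_lit 392) (nat_lit 3) (.p (nat_lit 393) (nat_lit 3) (.n (nat_lit 395) (nat_lit 2) (.p (nat_lit 396) (nat_lit 1) (.p (nat_lit 401) (nat_lit 2) (.p (nat_lit 411) (nat_lit 2) (.n (nat_lit 420) (nat_lit 2) .z)))))))))))))))))))))))))))))))) (.ct dC1c_c548 (nat_lit 1) (nat_lit 9) (.s true (nat_lit 1) (nat_lit 10) (nat_lit 2) (nat_lit 2) (nat_lit 10) true (nat_lit 0) true (nat_lit 9) true (nat_lit 9) true (nat_lit 17) true (nat_lit 17) (.a false (nat_lit 3) (nat_lit 31) (nat_lit 31) (nat_lit 0) (nat_lit 0) (.e true (nat_lit 1) (nat_lit 82) (nat_lit 10) (nat_lit 9) (.e true (nat_lit 1) (nat_lit 212) (nat_lit 2) (nat_lit 17) (.e false (nat_lit 2) (nat_lit 213) (nat_lit 2) (nat_lit 17) (.e false (nat_lit 2) (nat_lit 214) (nat_lit 2) (nat_lit 17) (.e false (nat_lit 2) (nat_lit 215) (nat_lit 2) (nat_lit 17) (.e false (nat_lit 3) (nat_lit 216) (nat_lit 2) (nat_lit 17) (.e true (nat_lit 1) (nat_lit 217) (nat_lit 2) (nat_lit 17) (.e false (nat_lit 1) (nat_lit 218) (nat_lit 2) (nat_lit 17) (.e true (nat_lit 1) (nat_lit 219) (nat_lit 2) (nat_lit 17) (.e true (nat_lit 1) (nat_lit 222) (nat_lit 2) (nat_lit 17) (.e true (nat_lit 2) (nat_lit 224) (nat_lit 2) (nat_lit 17) (.e true (nat_lit 3) (nat_lit 226) (nat_lit 2) (nat_lit 17) (.e false (nat_lit 1) (nat_lit 227) (nat_lit 2) (nat_lit 17) (.e true (nat_lit 2) (nat_lit 228) (nat_lit 2) (nat_lit 17) (.e false (nat_lit 1) (nat_lit 229) (nat_lit 2) (nat_lit 17) (.e true (nat_lit 3) (nat_lit 230) (nat_lit 2) (nat_lit 17) (.e true (nat_lit 2) (nat_lit 231) (nat_lit 2) (nat_lit 17) dC1c_i36)))))))))))))))))))) (.nd (.nd (.nd (.nd (.nd (.nd .leaf (nat_lit 92171) (nat_lit 1155) (.n (nat_lit 355) (nat_lit 1) (.n (nat_lit 356) (nat_lit 3) (.p (nat_lit 357) (nat_lit 2) (.p (nat_lit 358) (nat_lit 2) (.n (nat_lit 359) (nat_lit 3) (.n (nat_lit 361) (nat_lit 3) (.p (nat_lit 362) (nat_lit 3) (.n (nat_lit 363) (nat_lit 3) (.n (nat_lit 364) (nat_lit 3) (.n (nat_lit 365) (nat_lit 1) (.p (nat_lit 367) (nat_lit 2) (.p (nat_lit 369) (nat_lit 2) (.n (nat_lit 370) (nat_lit 1) (.p (nat_lit 372) (nat_lit 2) (.p (nat_lit 373) (nat_lit 1) (.n (nat_lit 374) (nat_lit 2) (.n (nat_lit 375) (nat_lit 3) (.p (nat_lit 381) (nat_lit 3) (.p (nat_lit 382) (nat_lit 1) (.n (nat_lit 383) (nat_lit 1) (.n (nat_lit 384) (nat_lit 2) (.n (nat_lit 385) (nat_lit 3) (.p (nat_lit 386) (nat_lit 2) (.p (nat_lit 387) (nat_lit 2) (.n (nat_lit 388) (nat_lit 1) (.n (nat_lit 389) (nat_lit 2) (.n (nat_lit 390) (nat_lit 3) (.n (nat_lit 391) (nat_lit 1) (.p (nat_lit 393) (nat_lit 3) (.p (nat_lit 394) (nat_lit 1) (.p (nat_lit 395) (nat_lit 1) (.p (nat_lit 396) (nat_lit 1) (.n (nat_lit 397) (nat_lit 2) (.p (nat_lit 401) (nat_lit 2) (.p (nat_lit 411) (nat_lit 2) .z))))))))))))))))))))))))))))))))))) (.ct dC1c_c548 (nat_lit 1) (nat_lit 9) (.s true (nat_lit 1) (nat_lit 90) (nat_lit 0) (nat_lit 2) (nat_lit 1) true (nat_lit 16) true (nat_lit 18) false (nat_lit 9) true (nat_lit 19) true (nat_lit 17) (.e true (nat_lit 1) (nat_lit 188) (nat_lit 3) (nat_lit 16) (.e false (nat_lit 1) (nat_lit 260) (nat_lit 1) (nat_lit 18) (.e false (nat_lit 1) (nat_lit 262) (nat_lit 1) (nat_lit 18) (.e false (nat_lit 2) (nat_lit 263) (nat_lit 1) (nat_lit 18) (.e true (nat_lit 3) (nat_lit 264) (nat_lit 1) (nat_lit 18) (.e true (nat_lit 2) (nat_lit 265) (nat_lit 1) (nat_lit 18) (.e true (nat_lit 3) (nat_lit 266) (nat_lit 1) (nat_lit 18) (.e false (nat_lit 1) (nat_lit 267) (nat_lit 1) (nat_lit 18) (.e true (nat_lit 3) (nat_lit 269) (nat_lit 1) (nat_lit 18) (.e true (nat_lit 1) (nat_lit 270) (nat_lit 1) (nat_lit 18) dC1c_i37)))))))))))) .leaf) (nat_lit 92172) (nat_lit 1153) (.p (nat_lit 355) (nat_lit 3) (.p (nat_lit 356) (nat_lit 3) (.n (nat_lit 357) (nat_lit 2) (.n (nat_lit 358) (nat_lit 1) (.n (nat_lit 359) (nat_lit 2) (.p (nat_lit 361) (nat_lit 3) (.n (nat_lit 362) (nat_lit 3) (.n (nat_lit 363) (nat_lit 1) (.n (nat_lit 364) (nat_lit 1) (.p (nat_lit 365) (nat_lit 1) (.n (nat_lit 366) (nat_lit 1) (.p (nat_lit 367) (nat_lit 2) (.p (nat_lit 369) (nat_lit 1) (.n (nat_lit 370) (nat_lit 1) (.n (nat_lit 372) (nat_lit 2) (.n (nat_lit 374) (nat_lit 2) (.p (nat_lit 375) (nat_lit 2) (.p (nat_lit 376) (nat_lit 2) (.p (nat_lit 381) (nat_lit 1) (.p (nat_lit 382) (nat_lit 2) (.n (nat_lit 384) (nat_lit 3) (.n (nat_lit 385) (nat_lit 3) (.n (nat_lit 386) (nat_lit 2) (.n (nat_lit 387) (nat_lit 2) (.p (nat_lit 388) (nat_lit 1) (.p (nat_lit 389) (nat_lit 2) (.p (nat_lit 390) (nat_lit 3) (.p (nat_lit 391) (nat_lit 1) (.n (nat_lit 392) (nat_lit 2) (.p (nat_lit 393) (nat_lit 2) (.p (nat_lit 394) (nat_lit 1) (.n (nat_lit 395) (nat_lit 3) (.p (nat_lit 396) (nat_lit 3) (.n (nat_lit 397) (nat_lit 2) (.p (nat_lit 420) (nat_lit 2) .z))))))))))))))))))))))))))))))))))) (.ct dC1c_c548 (nat_lit 1) (nat_lit 9) (.s false (nat_lit 1) (nat_lit 90) (nat_lit 2) (nat_lit 1) (nat_lit 0) true (nat_lit 15) true (nat_lit 19) false (nat_lit 9) true (nat_lit 17) true (nat_lit 18) (.e true (nat_lit 1) (nat_lit 167) (nat_lit 4) (nat_lit 15) (.e true (nat_lit 1) (nat_lit 291) (nat_lit 0) (nat_lit 19) (.e true (nat_lit 1) (nat_lit 294) (nat_lit 0) (nat_lit 19) (.e false (nat_lit 1) (nat_lit 299) (nat_lit 0) (nat_lit 19) (.e false (nat_lit 1) (nat_lit 301) (nat_lit 0) (nat_lit 19) (.e false (nat_lit 1) (nat_lit 311) (nat_lit 0) (nat_lit 19) dC1c_i39)))))))) (.nd .leaf (nat_lit 92174) (nat_lit 1316) (.p (nat_lit 426) (nat_lit 2) (.n (nat_lit 427) (nat_lit 1) (.n (nat_lit 428) (nat_lit 1) (.p (nat_lit 429) (nat_lit 2) (.p (nat_lit 430) (nat_lit 3) (.p (nat_lit 431) (nat_lit 1) (.n (nat_lit 432) (nat_lit 2) (.n (nat_lit 433) (nat_lit 2) (.n (nat_lit 434) (nat_lit 3) (.p (nat_lit 435) (nat_lit 3) (.p (nat_lit 436) (nat_lit 3) (.p (nat_lit 438) (nat_lit 1) (.p (nat_lit 439) (nat_lit 2) (.n (nat_lit 441) (nat_lit 3) (.n (nat_lit 443) (nat_lit 2) (.n (nat_lit 444) (nat_lit 1) (.p (nat_lit 445) (nat_lit 1) (.n (nat_lit 454) (nat_lit 2) (.p (nat_lit 456) (nat_lit 1) (.p (nat_lit 459) (nat_lit 3) .z)))))))))))))))))))) (.ct dC1c_c533 (nat_lit 1) (nat_lit 5) (.s false (nat_lit 1) (nat_lit 14) (nat_lit 2) (nat_lit 2) (nat_lit 10) true (nat_lit 0) true (nat_lit 6) true (nat_lit 5) true (nat_lit 13) true (nat_lit 13) (.s false (nat_lit 2) (nat_lit 15) (nat_lit 10) (nat_lit 2) (nat_lit 2) true (nat_lit 0) true (nat_lit 13) true (nat_lit 5) true (nat_lit 6) true (nat_lit 13) (.s true (nat_lit 2) (nat_lit 31) (nat_lit 0) (nat_lit 2) (nat_lit 6) true (nat_lit 5) true (nat_lit 9) true (nat_lit 0) true (nat_lit 15) true (nat_lit 13) (.s false (nat_lit 1) (nat_lit 40) (nat_lit 3) (nat_lit 2) (nat_lit 2) true (nat_lit 6) true (nat_lit 13) false (nat_lit 0) true (nat_lit 12) true (nat_lit 13) (.s false (nat_lit 3) (nat_lit 41) (nat_lit 3) (nat_lit 2) (nat_lit 2) true (nat_lit 6) true (nat_lit 13) false (nat_lit 0) true (nat_lit 12) true (nat_lit 13) (.e false (nat_lit 2) (nat_lit 260) (nat_lit 2) (nat_lit 13) (.e true (nat_lit 2) (nat_lit 261) (nat_lit 2) (nat_lit 13) (.e false (nat_lit 2) (nat_lit 262) (nat_lit 2) (nat_lit 13) (.e true (nat_lit 1) (nat_lit 264) (nat_lit 2) (nat_lit 13) (.e false (nat_lit 2) (nat_lit 265) (nat_lit 2) (nat_lit 13) (.e true (nat_lit 2) (nat_lit 266) (nat_lit 2) (nat_lit 13) (.e false (nat_lit 1) (nat_lit 267) (nat_lit 2) (nat_lit 13) (.e false (nat_lit 3) (nat_lit 269) (nat_lit 2) (nat_lit 13) (.e true (nat_lit 3) (nat_lit 270) (nat_lit 2) (nat_lit 13) (.e true (nat_lit 3) (nat_lit 271) (nat_lit 2) (nat_lit 13) (.e false (nat_lit 1) (nat_lit 272) (nat_lit 2) (nat_lit 13) (.e false (nat_lit 3) (nat_lit 273) (nat_lit 2) (nat_lit 13) (.e false (nat_lit 3) (nat_lit 280) (nat_lit 2) (nat_lit 13) (.e false (nat_lit 2) (nat_lit 283) (nat_lit 2) (nat_lit 13) (.e true (nat_lit 2) (nat_lit 288) (nat_lit 2) (nat_lit 13) dC1c_i40))))))))))))))))))))) .leaf)) (nat_lit 92175) (nat_lit 1350) (.n (nat_lit 426) (nat_lit 3) (.n (nat_lit 427) (nat_lit 3) (.p (nat_lit 428) (nat_lit 1) (.n (nat_lit 430) (nat_lit 1) (.p (nat_lit 431) (nat_lit 2) (.p (nat_lit 434) (nat_lit 1) (.p (nat_lit 435) (nat_lit 1) (.p (nat_lit 436) (nat_lit 2) (.n (nat_lit 438) (nat_lit 3) (.p (nat_lit 439) (nat_lit 1) (.p (nat_lit 441) (nat_lit 3) (.p (nat_lit 442) (nat_lit 3) (.n (nat_lit 443) (nat_lit 2) (.p (nat_lit 444) (nat_lit 1) (.n (nat_lit 445) (nat_lit 3) (.p (nat_lit 454) (nat_lit 3) (.n (nat_lit 456) (nat_lit 1) (.n (nat_lit 459) (nat_lit 3) .z)))))))))))))))))) (.ct dC1c_c533 (nat_lit 1) (nat_lit 5) (.s false (nat_lit 1) (nat_lit 90) (nat_lit 2) (nat_lit 2) (nat_lit 0) true (nat_lit 11) true (nat_lit 15) false (nat_lit 5) true (nat_lit 13) true (nat_lit 13) (.e false (nat_lit 1) (nat_lit 188) (nat_lit 4) (nat_lit 11) dC1c_i41))) (.nd (.nd .leaf (nat_lit 92176) (nat_lit 1471) (.n (nat_lit 460) (nat_lit 3) (.n (nat_lit 462) (nat_lit 1) (.n (nat_lit 463) (nat_lit 1) (.n (nat_lit 464) (nat_lit 2) (.n (nat_lit 465) (nat_lit 3) (.n (nat_lit 467) (nat_lit 2) (.n (nat_lit 469) (nat_lit 3) (.n (nat_lit 470) (nat_lit 3) (.n (nat_lit 472) (nat_lit 1) (.n (nat_lit 473) (nat_lit 3) (.n (nat_lit 474) (nat_lit 3) (.n (nat_lit 475) (nat_lit 3) (.p (nat_lit 476) (nat_lit 2) (.p (nat_lit 477) (nat_lit 2) (.n (nat_lit 479) (nat_lit 1) (.n (nat_lit 486) (nat_lit 2) (.p (nat_lit 489) (nat_lit 1) (.p (nat_lit 493) (nat_lit 3) .z)))))))))))))))))) (.ct dC1c_c293 (nat_lit 1) (nat_lit 4) (.s true (nat_lit 1) (nat_lit 90) (nat_lit 1) (nat_lit 2) (nat_lit 2) true (nat_lit 10) true (nat_lit 13) false (nat_lit 4) true (nat_lit 14) true (nat_lit 13) (.e true (nat_lit 1) (nat_lit 188) (nat_lit 5) (nat_lit 10) (.e true (nat_lit 1) (nat_lit 304) (nat_lit 2) (nat_lit 13) (.e false (nat_lit 2) (nat_lit 336) (nat_lit 1) (nat_lit 14) (.e false (nat_lit 1) (nat_lit 291) (nat_lit 2) (nat_lit 13) (.e false (nat_lit 1) (nat_lit 294) (nat_lit 2) (nat_lit 13) (.e true (nat_lit 1) (nat_lit 299) (nat_lit 2) (nat_lit 13) (.e true (nat_lit 1) (nat_lit 301) (nat_lit 2) (nat_lit 13) (.e true (nat_lit 1) (nat_lit 311) (nat_lit 2) (nat_lit 13) (.e true (nat_lit 1) (nat_lit 317) (nat_lit 2) (nat_lit 13) (.e true (nat_lit 1) (nat_lit 319) (nat_lit 2) (nat_lit 13) (.u (nat_lit 2) (.p (nat_lit 0) (nat_lit 1) (.n (nat_lit 1) (nat_lit 1) (.n (nat_lit 4) (nat_lit 1) (.p (nat_lit 6) (nat_lit 1) (.p (nat_lit 8) (nat_lit 1) (.n (nat_lit 14) (nat_lit 1) (.p (nat_lit 15) (nat_lit 1) (.n (nat_lit 16) (nat_lit 1) (.p (nat_lit 19) (nat_lit 1) (.n (nat_lit 23) (nat_lit 1) (.p (nat_lit 26) (nat_lit 1) (.n (nat_lit 33) (nat_lit 1) .z)))))))))))) .nil))))))))))))) .leaf) (nat_lit 92177) (nat_lit 1478) (.p (nat_lit 460) (nat_lit 1) (.n (nat_lit 461) (nat_lit 3) (.n (nat_lit 462) (nat_lit 3) (.n (nat_lit 463) (nat_lit 2) (.n (nat_lit 464) (nat_lit 1) (.p (nat_lit 465) (nat_lit 2) (.n (nat_lit 467) (nat_lit 3) (.p (nat_lit 468) (nat_lit 3) (.p (nat_lit 470) (nat_lit 3) (.n (nat_lit 471) (nat_lit 1) (.n (nat_lit 472) (nat_lit 2) (.p (nat_lit 473) (nat_lit 1) (.p (nat_lit 474) (nat_lit 1) (.p (nat_lit 475) (nat_lit 1) (.n (nat_lit 476) (nat_lit 3) (.n (nat_lit 477) (nat_lit 2) (.p (nat_lit 479) (nat_lit 3) (.p (nat_lit 486) (nat_lit 3) (.n (nat_lit 489) (nat_lit 1) (.n (nat_lit 493) (nat_lit 3) .z)))))))))))))))))))) (.ct dC1c_c293 (nat_lit 1) (nat_lit 4) (.s true (nat_lit 1) (nat_lit 10) (nat_lit 1) (nat_lit 6) (nat_lit 6) true (nat_lit 4) true (nat_lit 9) true (nat_lit 7) true (nat_lit 14) true (nat_lit 9) (.e true (nat_lit 1) (nat_lit 171) (nat_lit 6) (nat_lit 9) (.e false (nat_lit 2) (nat_lit 103) (nat_lit 10) (nat_lit 7) (.e false (nat_lit 2) (nat_lit 104) (nat_lit 10) (nat_lit 7) (.e false (nat_lit 1) (nat_lit 167) (nat_lit 6) (nat_lit 9) (.u (nat_lit 2) (.n (nat_lit 0) (nat_lit 1) (.p (nat_lit 1) (nat_lit 1) (.n (nat_lit 5) (nat_lit 2) (.p (nat_lit 7) (nat_lit 1) (.n (nat_lit 8) (nat_lit 1) (.p (nat_lit 9) (nat_lit 1) (.p (nat_lit 10) (nat_lit 1) (.n (nat_lit 11) (nat_lit 1) (.n (nat_lit 13) (nat_lit 2) (.n (nat_lit 14) (nat_lit 2) (.n (nat_lit 15) (nat_lit 1) (.p (nat_lit 17) (nat_lit 1) (.p (nat_lit 21) (nat_lit 1) (.n (nat_lit 29) (nat_lit 1) .z)))))))))))))) .nil))))))) .leaf)) (nat_lit 93184) (nat_lit 256) (.n (nat_lit 132) (nat_lit 3) (.n (nat_lit 133) (nat_lit 2) (.p (nat_lit 134) (nat_lit 2) (.p (nat_lit 135) (nat_lit 2) (.n (nat_lit 136) (nat_lit 3) (.p (nat_lit 138) (nat_lit 3) (.p (nat_lit 139) (nat_lit 1) (.n (nat_lit 141) (nat_lit 3) (.n (nat_lit 142) (nat_lit 3) (.p (nat_lit 144) (nat_lit 2) (.p (nat_lit 145) (nat_lit 1) (.n (nat_lit 146) (nat_lit 1) (.p (nat_lit 148) (nat_lit 2) (.p (nat_lit 149) (nat_lit 3) (.p (nat_lit 151) (nat_lit 1) (.n (nat_lit 152) (nat_lit 3) .z)))))))))))))))) (.ct dC1c_c531 (nat_lit 1) (nat_lit 9) (.s true (nat_lit 3) (nat_lit 6) (nat_lit 0) (nat_lit 1) (nat_lit 4) true (nat_lit 1) true (nat_lit 5) true (nat_lit 3) true (nat_lit 9) true (nat_lit 8) (.s false (nat_lit 3) (nat_lit 6) (nat_lit 2) (nat_lit 0) (nat_lit 3) true (nat_lit 0) true (nat_lit 6) true (nat_lit 3) true (nat_lit 7) true (nat_lit 9) (.s false (nat_lit 3) (nat_lit 18) (nat_lit 1) (nat_lit 0) (nat_lit 0) true (nat_lit 6) true (nat_lit 9) false (nat_lit 2) true (nat_lit 8) true (nat_lit 9) (.e true (nat_lit 3) (nat_lit 17) (nat_lit 9) (nat_lit 1) (.e true (nat_lit 3) (nat_lit 35) (nat_lit 4) (nat_lit 5) (.e true (nat_lit 3) (nat_lit 77) (nat_lit 1) (nat_lit 8) (.e true (nat_lit 3) (nat_lit 78) (nat_lit 1) (nat_lit 8) (.e false (nat_lit 3) (nat_lit 15) (nat_lit 10) (nat_lit 0) (.e true (nat_lit 3) (nat_lit 65) (nat_lit 2) (nat_lit 7) (.e false (nat_lit 1) (nat_lit 83) (nat_lit 0) (nat_lit 9) (.e true (nat_lit 1) (nat_lit 84) (nat_lit 0) (nat_lit 9) (.e true (nat_lit 1) (nat_lit 90) (nat_lit 0) (nat_lit 9) (.e true (nat_lit 3) (nat_lit 92) (nat_lit 0) (nat_lit 9) (.e true (nat_lit 3) (nat_lit 18) (nat_lit 7) (nat_lit 2) (.e false (nat_lit 1) (nat_lit 82) (nat_lit 0) (nat_lit 9) (.u (nat_lit 2) (.p (nat_lit 0) (nat_lit 1) (.n (nat_lit 1) (nat_lit 1) (.p (nat_lit 2) (nat_lit 2) (.n (nat_lit 3) (nat_lit 1) (.n (nat_lit 4) (nat_lit 2) (.p (nat_lit 6) (nat_lit 1) (.n (nat_lit 7) (nat_lit 1) (.p (nat_lit 9) (nat_lit 1) (.n (nat_lit 11) (nat_lit 1) (.n (nat_lit 12) (nat_lit 2) (.p (nat_lit 14) (nat_lit 1) (.n (nat_lit 16) (nat_lit 2) (.p (nat_lit 17) (nat_lit 1) (.n (nat_lit 19) (nat_lit 3) (.n (nat_lit 20) (nat_lit 2) (.n (nat_lit 62) (nat_lit 1) (.n (nat_lit 63) (nat_lit 1) (.p (nat_lit 64) (nat_lit 1) (.p (nat_lit 70) (nat_lit 1) (.p (nat_lit 71) (nat_lit 1) .z)))))))))))))))))))) .nil))))))))))))))))) (.nd (.nd (.nd .leaf (nat_lit 93185) (nat_lit 286) (.p (nat_lit 168) (nat_lit 1) .z) .df .leaf) (nat_lit 93186) (nat_lit 349) (.p (nat_lit 189) (nat_lit 1) .z) .df .leaf) (nat_lit 93187) (nat_lit 519) (.n (nat_lit 212) (nat_lit 2) (.n (nat_lit 213) (nat_lit 2) (.p (nat_lit 214) (nat_lit 3) (.p (nat_lit 215) (nat_lit 2) (.p (nat_lit 216) (nat_lit 1) (.p (nat_lit 217) (nat_lit 2) (.n (nat_lit 218) (nat_lit 2) (.p (nat_lit 219) (nat_lit 2) (.p (nat_lit 220) (nat_lit 3) (.n (nat_lit 221) (nat_lit 1) (.p (nat_lit 222) (nat_lit 2) (.p (nat_lit 223) (nat_lit 2) (.n (nat_lit 224) (nat_lit 2) (.n (nat_lit 226) (nat_lit 1) (.p (nat_lit 227) (nat_lit 2) (.n (nat_lit 229) (nat_lit 3) (.n (nat_lit 232) (nat_lit 3) (.n (nat_lit 233) (nat_lit 3) (.n (nat_lit 234) (nat_lit 2) (.p (nat_lit 235) (nat_lit 2) (.p (nat_lit 236) (nat_lit 2) (.p (nat_lit 237) (nat_lit 1) (.p (nat_lit 238) (nat_lit 1) (.p (nat_lit 240) (nat_lit 1) (.p (nat_lit 243) (nat_lit 2) (.n (nat_lit 244) (nat_lit 3) (.n (nat_lit 245) (nat_lit 2) (.n (nat_lit 247) (nat_lit 2) (.n (nat_lit 248) (nat_lit 2) .z))))))))))))))))))))))))))))) (.ct dC1c_c547 (nat_lit 1) (nat_lit 11) (.s false (nat_lit 1) (nat_lit 13) (nat_lit 2) (nat_lit 0) (nat_lit 4) true (nat_lit 2) true (nat_lit 10) true (nat_lit 3) true (nat_lit 12) true (nat_lit 14) (.s true (nat_lit 1) (nat_lit 14) (nat_lit 1) (nat_lit 5) (nat_lit 0) true (nat_lit 11) true (nat_lit 14) true (nat_lit 2) true (nat_lit 13) true (nat_lit 9) (.s true (nat_lit 1) (nat_lit 18) (nat_lit 1) (nat_lit 3) (nat_lit 0) true (nat_lit 11) true (nat_lit 14) true (nat_lit 0) true (nat_lit 13) true (nat_lit 11) (.s true (nat_lit 2) (nat_lit 18) (nat_lit 3) (nat_lit 0) (nat_lit 1) true (nat_lit 6) true (nat_lit 13) true (nat_lit 0) true (nat_lit 11) true (nat_lit 14) dC1c_i43))))) (.nd (.nd .leaf (nat_lit 93188) (nat_lit 647) (.p (nat_lit 260) (nat_lit 3) (.n (nat_lit 261) (nat_lit 1) (.p (nat_lit 262) (nat_lit 1) (.p (nat_lit 263) (nat_lit 2) (.p (nat_lit 265) (nat_lit 3) (.n (nat_lit 266) (nat_lit 2) (.n (nat_lit 267) (nat_lit 3) (.p (nat_lit 268) (nat_lit 1) (.p (nat_lit 269) (nat_lit 2) (.n (nat_lit 271) (nat_lit 1) (.p (nat_lit 272) (nat_lit 3) (.p (nat_lit 273) (nat_lit 3) (.p (nat_lit 274) (nat_lit 3) (.n (nat_lit 276) (nat_lit 2) (.n (nat_lit 277) (nat_lit 2) (.n (nat_lit 278) (nat_lit 2) (.p (nat_lit 279) (nat_lit 1) (.p (nat_lit 280) (nat_lit 3) (.p (nat_lit 284) (nat_lit 2) (.n (nat_lit 286) (nat_lit 3) (.p (nat_lit 287) (nat_lit 1) (.p (nat_lit 288) (nat_lit 1) .z)))))))))))))))))))))) (.ct dC1c_c532 (nat_lit 1) (nat_lit 8) (.s false (nat_lit 1) (nat_lit 11) (nat_lit 4) (nat_lit 2) (nat_lit 2) true (nat_lit 2) true (nat_lit 10) true (nat_lit 3) true (nat_lit 8) true (nat_lit 10) (.e false (nat_lit 1) (nat_lit 32) (nat_lit 14) (nat_lit 2) (.e true (nat_lit 3) (nat_lit 132) (nat_lit 2) (nat_lit 10) (.e false (nat_lit 3) (nat_lit 133) (nat_lit 2) (nat_lit 10) (.e true (nat_lit 3) (nat_lit 134) (nat_lit 2) (nat_lit 10) (.e true (nat_lit 2) (nat_lit 135) (nat_lit 2) (nat_lit 10) (.e false (nat_lit 3) (nat_lit 136) (nat_lit 2) (nat_lit 10) (.e true (nat_lit 3) (nat_lit 138) (nat_lit 2) (nat_lit 10) (.e true (nat_lit 1) (nat_lit 139) (nat_lit 2) (nat_lit 10) (.e false (nat_lit 3) (nat_lit 141) (nat_lit 2) (nat_lit 10) (.e false (nat_lit 3) (nat_lit 142) (nat_lit 2) (nat_lit 10) (.e true (nat_lit 1) (nat_lit 40) (nat_lit 11) (nat_lit 3) (.e false (nat_lit 2) (nat_lit 140) (nat_lit 2) (nat_lit 10) (.e true (nat_lit 2) (nat_lit 144) (nat_lit 2) (nat_lit 10) (.e true (nat_lit 1) (nat_lit 145) (nat_lit 2) (nat_lit 10) (.e false (nat_lit 1) (nat_lit 146) (nat_lit 2) (nat_lit 10) (.e true (nat_lit 1) (nat_lit 148) (nat_lit 2) (nat_lit 10) (.e false (nat_lit 3) (nat_lit 149) (nat_lit 2) (nat_lit 10) (.e true (nat_lit 1) (nat_lit 150) (nat_lit 2) (nat_lit 10) (.e false (nat_lit 3) (nat_lit 152) (nat_lit 2) (nat_lit 10) (.u (nat_lit 2) (.n (nat_lit 0) (nat_lit 1) (.p (nat_lit 1) (nat_lit 1) (.n (nat_lit 2) (nat_lit 1) (.n (nat_lit 3) (nat_lit 1) (.p (nat_lit 10) (nat_lit 1) (.p (nat_lit 11) (nat_lit 1) (.n (nat_lit 12) (nat_lit 1) (.n (nat_lit 13) (nat_lit 1) (.p (nat_lit 96) (nat_lit 1) (.n (nat_lit 97) (nat_lit 1) (.p (nat_lit 98) (nat_lit 1) (.p (nat_lit 102) (nat_lit 1) (.n (nat_lit 105) (nat_lit 1) .z))))))))))))) .nil)))))))))))))))))))))) .leaf) (nat_lit 93189) (nat_lit 746) (.n (nat_lit 290) (nat_lit 2) (.p (nat_lit 291) (nat_lit 1) (.n (nat_lit 293) (nat_lit 1) (.p (nat_lit 294) (nat_lit 1) (.n (nat_lit 295) (nat_lit 1) (.p (nat_lit 296) (nat_lit 3) (.n (nat_lit 297) (nat_lit 3) (.p (nat_lit 298) (nat_lit 1) (.p (nat_lit 299) (nat_lit 2) (.p (nat_lit 300) (nat_lit 2) (.p (nat_lit 301) (nat_lit 3) (.n (nat_lit 305) (nat_lit 1) (.p (nat_lit 307) (nat_lit 2) (.n (nat_lit 308) (nat_lit 2) (.n (nat_lit 310) (nat_lit 2) (.p (nat_lit 311) (nat_lit 1) (.p (nat_lit 312) (nat_lit 2) (.n (nat_lit 316) (nat_lit 2) (.n (nat_lit 317) (nat_lit 3) (.p (nat_lit 318) (nat_lit 1) (.n (nat_lit 319) (nat_lit 1) .z))))))))))))))))))))) (.ct dC1c_c292 (nat_lit 1) (nat_lit 7) (.s false (nat_lit 1) (nat_lit 11) (nat_lit 2) (nat_lit 6) (nat_lit 1) true (nat_lit 7) true (nat_lit 11) true (nat_lit 4) true (nat_lit 10) true (nat_lit 6) (.s false (nat_lit 1) (nat_lit 18) (nat_lit 4) (nat_lit 1) (nat_lit 1) true (nat_lit 4) true (nat_lit 11) true (nat_lit 0) true (nat_lit 8) true (nat_lit 11) (.e false (nat_lit 2) (nat_lit 155) (nat_lit 2) (nat_lit 10) (.e false (nat_lit 2) (nat_lit 158) (nat_lit 2) (nat_lit 10) (.e true (nat_lit 2) (nat_lit 163) (nat_lit 2) (nat_lit 10) (.e true (nat_lit 1) (nat_lit 168) (nat_lit 2) (nat_lit 10) (.e true (nat_lit 1) (nat_lit 172) (nat_lit 2) (nat_lit 10) (.e true (nat_lit 1) (nat_lit 68) (nat_lit 6) (nat_lit 6) (.e false (nat_lit 1) (nat_lit 185) (nat_lit 1) (nat_lit 11) (.e false (nat_lit 3) (nat_lit 186) (nat_lit 1) (nat_lit 11) (.e false (nat_lit 3) (nat_lit 183) (nat_lit 1) (nat_lit 11) (.e true (nat_lit 2) (nat_lit 182) (nat_lit 1) (nat_lit 11) (.e false (nat_lit 3) (nat_lit 187) (nat_lit 1) (nat_lit 11) (.e true (nat_lit 1) (nat_lit 188) (nat_lit 1) (nat_lit 11) (.e true (nat_lit 1) (nat_lit 189) (nat_lit 1) (nat_lit 11) (.e true (nat_lit 2) (nat_lit 190) (nat_lit 1) (nat_lit 11) (.e true (nat_lit 1) (nat_lit 26) (nat_lit 18) (nat_lit 0) (.u (nat_lit 2) (.p (nat_lit 0) (nat_lit 1) (.n (nat_lit 1) (nat_lit 2) (.p (nat_lit 2) (nat_lit 3) (.p (nat_lit 5) (nat_lit 3) (.n (nat_lit 8) (nat_lit 2) (.n (nat_lit 10) (nat_lit 3) (.n (nat_lit 17) (nat_lit 3) (.p (nat_lit 20) (nat_lit 1) (.n (nat_lit 21) (nat_lit 1) (.n (nat_lit 22) (nat_lit 1) (.p (nat_lit 23) (nat_lit 1) (.p (nat_lit 27) (nat_lit 1) (.p (nat_lit 29) (nat_lit 1) (.n (nat_lit 117) (nat_lit 1) (.n (nat_lit 118) (nat_lit 1) (.n (nat_lit 120) (nat_lit 1) (.n (nat_lit 122) (nat_lit 1) (.n (nat_lit 123) (nat_lit 1) (.n (nat_lit 124) (nat_lit 1) .z))))))))))))))))))) .nil))))))))))))))))))) .leaf))) (nat_lit 93190) (nat_lit 843) (.p (nat_lit 340) (nat_lit 2) .z) (.ct dC1c_c277 (nat_lit 1) (nat_lit 4) (.s true (nat_lit 3) (nat_lit 11) (nat_lit 2) (nat_lit 6) (nat_lit 2) true (nat_lit 4) true (nat_lit 8) true (nat_lit 3) true (nat_lit 8) true (nat_lit 4) (.s true (nat_lit 3) (nat_lit 11) (nat_lit 6) (nat_lit 2) (nat_lit 2) true (nat_lit 0) true (nat_lit 8) true (nat_lit 3) true (nat_lit 4) true (nat_lit 8) (.e true (nat_lit 2) (nat_lit 193) (nat_lit 2) (nat_lit 8) (.e true (nat_lit 3) (nat_lit 83) (nat_lit 6) (nat_lit 4) (.e false (nat_lit 3) (nat_lit 32) (nat_lit 18) (nat_lit 0) (.u (nat_lit 2) (.n (nat_lit 12) (nat_lit 1) (.p (nat_lit 49) (nat_lit 1) (.n (nat_lit 73) (nat_lit 1) .z))) .nil))))))) (.nd (.nd (.nd (.nd .leaf (nat_lit 93194) (nat_lit 1184) (.n (nat_lit 355) (nat_lit 3) (.n (nat_lit 356) (nat_lit 1) (.n (nat_lit 357) (nat_lit 2) (.n (nat_lit 358) (nat_lit 3) (.n (nat_lit 359) (nat_lit 2) (.n (nat_lit 361) (nat_lit 1) (.p (nat_lit 362) (nat_lit 1) (.p (nat_lit 364) (nat_lit 2) (.p (nat_lit 365) (nat_lit 2) (.n (nat_lit 367) (nat_lit 2) (.p (nat_lit 370) (nat_lit 1) (.p (nat_lit 373) (nat_lit 1) (.n (nat_lit 374) (nat_lit 1) (.n (nat_lit 377) (nat_lit 2) (.p (nat_lit 381) (nat_lit 1) (.n (nat_lit 383) (nat_lit 2) (.p (nat_lit 384) (nat_lit 1) (.n (nat_lit 385) (nat_lit 1) (.n (nat_lit 386) (nat_lit 2) (.p (nat_lit 387) (nat_lit 2) (.n (nat_lit 388) (nat_lit 2) (.n (nat_lit 389) (nat_lit 3) (.p (nat_lit 390) (nat_lit 3) (.p (nat_lit 391) (nat_lit 2) (.n (nat_lit 392) (nat_lit 3) (.p (nat_lit 393) (nat_lit 3) (.p (nat_lit 394) (nat_lit 3) (.p (nat_lit 396) (nat_lit 1) (.p (nat_lit 402) (nat_lit 2) (.p (nat_lit 412) (nat_lit 2) (.n (nat_lit 421) (nat_lit 2) .z))))))))))))))))))))))))))))))) (.ct dC1c_c548 (nat_lit 1) (nat_lit 9) (.s false (nat_lit 1) (nat_lit 91) (nat_lit 1) (nat_lit 0) (nat_lit 2) true (nat_lit 14) true (nat_lit 17) false (nat_lit 9) true (nat_lit 18) true (nat_lit 19) (.e true (nat_lit 3) (nat_lit 132) (nat_lit 5) (nat_lit 14) (.e true (nat_lit 2) (nat_lit 133) (nat_lit 5) (nat_lit 14) (.e false (nat_lit 2) (nat_lit 134) (nat_lit 5) (nat_lit 14) (.e false (nat_lit 2) (nat_lit 135) (nat_lit 5) (nat_lit 14) (.e true (nat_lit 3) (nat_lit 136) (nat_lit 5) (nat_lit 14) (.e false (nat_lit 3) (nat_lit 138) (nat_lit 5) (nat_lit 14) (.e false (nat_lit 1) (nat_lit 139) (nat_lit 5) (nat_lit 14) (.e true (nat_lit 3) (nat_lit 141) (nat_lit 5) (nat_lit 14) (.e true (nat_lit 3) (nat_lit 142) (nat_lit 5) (nat_lit 14) (.e false (nat_lit 2) (nat_lit 144) (nat_lit 5) (nat_lit 14) dC1c_i45)))))))))))) .leaf) (nat_lit 93195) (nat_lit 1194) (.p (nat_lit 356) (nat_lit 1) (.n (nat_lit 357) (nat_lit 1) (.p (nat_lit 358) (nat_lit 3) (.n (nat_lit 360) (nat_lit 1) (.n (nat_lit 361) (nat_lit 2) (.p (nat_lit 362) (nat_lit 2) (.n (nat_lit 364) (nat_lit 3) (.n (nat_lit 365) (nat_lit 2) (.n (nat_lit 366) (nat_lit 2) (.n (nat_lit 369) (nat_lit 1) (.n (nat_lit 370) (nat_lit 1) (.p (nat_lit 372) (nat_lit 1) (.p (nat_lit 374) (nat_lit 3) (.p (nat_lit 375) (nat_lit 2) (.p (nat_lit 381) (nat_lit 3) (.n (nat_lit 382) (nat_lit 1) (.p (nat_lit 383) (nat_lit 2) (.p (nat_lit 384) (nat_lit 2) (.n (nat_lit 385) (nat_lit 3) (.n (nat_lit 386) (nat_lit 3) (.p (nat_lit 387) (nat_lit 1) (.p (nat_lit 388) (nat_lit 2) (.n (nat_lit 389) (nat_lit 2) (.p (nat_lit 390) (nat_lit 1) (.n (nat_lit 391) (nat_lit 1) (.n (nat_lit 392) (nat_lit 1) (.n (nat_lit 393) (nat_lit 3) (.p (nat_lit 394) (nat_lit 2) (.p (nat_lit 395) (nat_lit 1) (.n (nat_lit 396) (nat_lit 1) (.n (nat_lit 398) (nat_lit 2) (.p (nat_lit 402) (nat_lit 2) (.p (nat_lit 404) (nat_lit 1) (.n (nat_lit 405) (nat_lit 2) (.p (nat_lit 406) (nat_lit 2) (.n (nat_lit 408) (nat_lit 2) (.p (nat_lit 409) (nat_lit 1) (.n (nat_lit 410) (nat_lit 1) (.p (nat_lit 412) (nat_lit 2) .z))))))))))))))))))))))))))))))))))))))) (.ct dC1c_c548 (nat_lit 1) (nat_lit 9) (.s true (nat_lit 1) (nat_lit 42) (nat_lit 4) (nat_lit 1) (nat_lit 1) true (nat_lit 9) true (nat_lit 18) false (nat_lit 2) true (nat_lit 15) true (nat_lit 18) (.e false (nat_lit 2) (nat_lit 82) (nat_lit 11) (nat_lit 9) (.e false (nat_lit 3) (nat_lit 83) (nat_lit 11) (nat_lit 9) (.e true (nat_lit 1) (nat_lit 84) (nat_lit 11) (nat_lit 9) dC1c_i46))))) .leaf) (nat_lit 93196) (nat_lit 1188) (.n (nat_lit 355) (nat_lit 2) (.n (nat_lit 356) (nat_lit 2) (.n (nat_lit 357) (nat_lit 2) (.p (nat_lit 358) (nat_lit 3) (.p (nat_lit 359) (nat_lit 1) (.n (nat_lit 360) (nat_lit 2) (.p (nat_lit 363) (nat_lit 1) (.n (nat_lit 364) (nat_lit 1) (.p (nat_lit 365) (nat_lit 2) (.p (nat_lit 366) (nat_lit 3) (.n (nat_lit 367) (nat_lit 3) (.p (nat_lit 369) (nat_lit 2) (.n (nat_lit 370) (nat_lit 3) (.p (nat_lit 373) (nat_lit 2) (.n (nat_lit 374) (nat_lit 3) (.p (nat_lit 377) (nat_lit 2) (.n (nat_lit 382) (nat_lit 2) (.p (nat_lit 383) (nat_lit 2) (.n (nat_lit 384) (nat_lit 2) (.n (nat_lit 386) (nat_lit 1) (.p (nat_lit 388) (nat_lit 2) (.n (nat_lit 389) (nat_lit 3) (.n (nat_lit 390) (nat_lit 2) (.p (nat_lit 391) (nat_lit 2) (.p (nat_lit 393) (nat_lit 2) (.p (nat_lit 394) (nat_lit 2) (.p (nat_lit 396) (nat_lit 3) (.n (nat_lit 398) (nat_lit 2) (.p (nat_lit 404) (nat_lit 1) (.n (nat_lit 405) (nat_lit 2) (.p (nat_lit 406) (nat_lit 2) (.n (nat_lit 408) (nat_lit 2) (.p (nat_lit 409) (nat_lit 1) (.n (nat_lit 410) (nat_lit 1) (.p (nat_lit 421) (nat_lit 2) .z))))))))))))))))))))))))))))))))))) (.ct dC1c_c548 (nat_lit 1) (nat_lit 9) (.s false (nat_lit 1) (nat_lit 91) (nat_lit 2) (nat_lit 1) (nat_lit 0) true (nat_lit 15) true (nat_lit 19) false (nat_lit 9) true (nat_lit 17) true (nat_lit 18) (.e true (nat_lit 1) (nat_lit 168) (nat_lit 4) (nat_lit 15) (.e true (nat_lit 1) (nat_lit 290) (nat_lit 0) (nat_lit 19) (.e true (nat_lit 2) (nat_lit 291) (nat_lit 0) (nat_lit 19) (.e true (nat_lit 1) (nat_lit 292) (nat_lit 0) (nat_lit 19) (.e true (nat_lit 3) (nat_lit 293) (nat_lit 0) (nat_lit 19) (.e false (nat_lit 2) (nat_lit 294) (nat_lit 0) (nat_lit 19) (.e true (nat_lit 3) (nat_lit 295) (nat_lit 0) (nat_lit 19) (.e true (nat_lit 3) (nat_lit 296) (nat_lit 0) (nat_lit 19) (.e false (nat_lit 3) (nat_lit 297) (nat_lit 0) (nat_lit 19) (.e false (nat_lit 3) (nat_lit 299) (nat_lit 0) (nat_lit 19) (.e false (nat_lit 2) (nat_lit 300) (nat_lit 0) (nat_lit 19) (.e true (nat_lit 3) (nat_lit 301) (nat_lit 0) (nat_lit 19) (.e false (nat_lit 3) (nat_lit 302) (nat_lit 0) (nat_lit 19) (.e false (nat_lit 2) (nat_lit 304) (nat_lit 0) (nat_lit 19) (.e false (nat_lit 2) (nat_lit 305) (nat_lit 0) (nat_lit 19) (.e true (nat_lit 3) (nat_lit 308) (nat_lit 0) (nat_lit 19) (.e true (nat_lit 1) (nat_lit 310) (nat_lit 0) (nat_lit 19) dC1c_i48))))))))))))))))))) (.nd (.nd .leaf (nat_lit 93198) (nat_lit 1283) (.n (nat_lit 426) (nat_lit 1) (.p (nat_lit 427) (nat_lit 3) (.p (nat_lit 428) (nat_lit 2) (.p (nat_lit 429) (nat_lit 1) (.p (nat_lit 430) (nat_lit 3) (.p (nat_lit 431) (nat_lit 3) (.n (nat_lit 432) (nat_lit 3) (.n (nat_lit 433) (nat_lit 3) (.p (nat_lit 434) (nat_lit 3) (.n (nat_lit 435) (nat_lit 3) (.p (nat_lit 436) (nat_lit 2) (.n (nat_lit 438) (nat_lit 2) (.p (nat_lit 439) (nat_lit 3) (.p (nat_lit 442) (nat_lit 3) (.n (nat_lit 443) (nat_lit 1) (.n (nat_lit 445) (nat_lit 1) (.n (nat_lit 455) (nat_lit 2) (.p (nat_lit 456) (nat_lit 2) (.n (nat_lit 459) (nat_lit 1) .z))))))))))))))))))) (.ct dC1c_c533 (nat_lit 1) (nat_lit 5) dC1c_i49) .leaf) (nat_lit 93199) (nat_lit 1282) (.n (nat_lit 426) (nat_lit 3) (.p (nat_lit 427) (nat_lit 2) (.n (nat_lit 428) (nat_lit 1) (.n (nat_lit 429) (nat_lit 1) (.p (nat_lit 432) (nat_lit 1) (.p (nat_lit 433) (nat_lit 1) (.n (nat_lit 435) (nat_lit 2) (.p (nat_lit 438) (nat_lit 1) (.p (nat_lit 439) (nat_lit 2) (.p (nat_lit 441) (nat_lit 3) (.n (nat_lit 442) (nat_lit 3) (.p (nat_lit 443) (nat_lit 1) (.p (nat_lit 444) (nat_lit 1) (.n (nat_lit 445) (nat_lit 3) (.p (nat_lit 455) (nat_lit 3) (.p (nat_lit 456) (nat_lit 2) (.n (nat_lit 459) (nat_lit 1) .z))))))))))))))))) (.ct dC1c_c533 (nat_lit 1) (nat_lit 5) (.s false (nat_lit 1) (nat_lit 91) (nat_lit 2) (nat_lit 2) (nat_lit 0) true (nat_lit 11) true (nat_lit 15) false (nat_lit 5) true (nat_lit 13) true (nat_lit 13) dC1c_i50)) .leaf)) (nat_lit 93200) (nat_lit 1522) (.n (nat_lit 460) (nat_lit 3) (.n (nat_lit 461) (nat_lit 1) (.n (nat_lit 462) (nat_lit 1) (.n (nat_lit 463) (nat_lit 1) (.n (nat_lit 464) (nat_lit 3) (.n (nat_lit 465) (nat_lit 2) (.p (nat_lit 467) (nat_lit 3) (.n (nat_lit 469) (nat_lit 2) (.p (nat_lit 470) (nat_lit 2) (.n (nat_lit 471) (nat_lit 3) (.n (nat_lit 472) (nat_lit 1) (.n (nat_lit 473) (nat_lit 2) (.n (nat_lit 474) (nat_lit 2) (.p (nat_lit 476) (nat_lit 3) (.n (nat_lit 477) (nat_lit 3) (.p (nat_lit 479) (nat_lit 3) (.n (nat_lit 487) (nat_lit 2) (.p (nat_lit 489) (nat_lit 3) (.p (nat_lit 493) (nat_lit 2) .z))))))))))))))))))) (.ct dC1c_c293 (nat_lit 1) (nat_lit 4) (.s true (nat_lit 1) (nat_lit 91) (nat_lit 1) (nat_lit 2) (nat_lit 2) true (nat_lit 10) true (nat_lit 13) false (nat_lit 4) true (nat_lit 14) true (nat_lit 13) (.e true (nat_lit 1) (nat_lit 189) (nat_lit 5) (nat_lit 10) (.e true (nat_lit 3) (nat_lit 305) (nat_lit 2) (nat_lit 13) (.e false (nat_lit 2) (nat_lit 340) (nat_lit 1) (nat_lit 14) (.e false (nat_lit 1) (nat_lit 290) (nat_lit 2) (nat_lit 13) (.e false (nat_lit 2) (nat_lit 291) (nat_lit 2) (nat_lit 13) (.e false (nat_lit 1) (nat_lit 292) (nat_lit 2) (nat_lit 13) (.e false (nat_lit 3) (nat_lit 293) (nat_lit 2) (nat_lit 13) (.e true (nat_lit 2) (nat_lit 294) (nat_lit 2) (nat_lit 13) (.e false (nat_lit 3) (nat_lit 295) (nat_lit 2) (nat_lit 13) (.e false (nat_lit 3) (nat_lit 296) (nat_lit 2) (nat_lit 13) (.e true (nat_lit 3) (nat_lit 297) (nat_lit 2) (nat_lit 13) (.e true (nat_lit 3) (nat_lit 299) (nat_lit 2) (nat_lit 13) (.e true (nat_lit 2) (nat_lit 300) (nat_lit 2) (nat_lit 13) (.e false (nat_lit 3) (nat_lit 301) (nat_lit 2) (nat_lit 13) (.e true (nat_lit 3) (nat_lit 302) (nat_lit 2) (nat_lit 13) (.e true (nat_lit 2) (nat_lit 304) (nat_lit 2) (nat_lit 13) (.e false (nat_lit 3) (nat_lit 308) (nat_lit 2) (nat_lit 13) (.e false (nat_lit 1) (nat_lit 310) (nat_lit 2) (nat_lit 13) (.e true (nat_lit 1) (nat_lit 311) (nat_lit 2) (nat_lit 13) (.e true (nat_lit 2) (nat_lit 312) (nat_lit 2) (nat_lit 13) (.e false (nat_lit 1) (nat_lit 317) (nat_lit 2) (nat_lit 13) (.e false (nat_lit 1) (nat_lit 319) (nat_lit 2) (nat_lit 13) (.u (nat_lit 2) (.p (nat_lit 0) (nat_lit 4) (.n (nat_lit 1) (nat_lit 1) (.p (nat_lit 3) (nat_lit 2) (.n (nat_lit 4) (nat_lit 3) (.n (nat_lit 5) (nat_lit 4) (.n (nat_lit 7) (nat_lit 5) (.p (nat_lit 8) (nat_lit 1) (.n (nat_lit 9) (nat_lit 2) (.n (nat_lit 10) (nat_lit 2) (.p (nat_lit 11) (nat_lit 1) (.n (nat_lit 12) (nat_lit 4) (.n (nat_lit 13) (nat_lit 2) (.n (nat_lit 14) (nat_lit 3) (.n (nat_lit 15) (nat_lit 5) (.p (nat_lit 16) (nat_lit 1) (.p (nat_lit 17) (nat_lit 2) (.p (nat_lit 19) (nat_lit 1) (.p (nat_lit 21) (nat_lit 2) (.n (nat_lit 23) (nat_lit 1) (.p (nat_lit 24) (nat_lit 1) (.n (nat_lit 27) (nat_lit 1) (.n (nat_lit 29) (nat_lit 4) (.p (nat_lit 33) (nat_lit 1) .z))))))))))))))))))))))) .nil))))))))))))))))))))))))) (.nd (.nd (.nd .leaf (nat_lit 94208) (nat_lit 250) (.p (nat_lit 133) (nat_lit 1) (.n (nat_lit 134) (nat_lit 1) (.n (nat_lit 135) (nat_lit 3) (.p (nat_lit 136) (nat_lit 2) (.n (nat_lit 137) (nat_lit 3) (.n (nat_lit 138) (nat_lit 3) (.n (nat_lit 140) (nat_lit 3) (.n (nat_lit 142) (nat_lit 2) (.p (nat_lit 144) (nat_lit 2) (.n (nat_lit 145) (nat_lit 1) (.n (nat_lit 147) (nat_lit 2) (.p (nat_lit 148) (nat_lit 2) (.n (nat_lit 149) (nat_lit 2) (.n (nat_lit 150) (nat_lit 1) (.p (nat_lit 151) (nat_lit 3) .z))))))))))))))) (.ct dC1c_c531 (nat_lit 1) (nat_lit 9) (.s true (nat_lit 1) (nat_lit 4) (nat_lit 1) (nat_lit 4) (nat_lit 2) true (nat_lit 4) true (nat_lit 7) true (nat_lit 5) true (nat_lit 8) true (nat_lit 5) dC1c_i51)) .leaf) (nat_lit 94209) (nat_lit 308) (.n (nat_lit 153) (nat_lit 3) (.n (nat_lit 154) (nat_lit 1) (.p (nat_lit 155) (nat_lit 2) (.n (nat_lit 156) (nat_lit 2) (.n (nat_lit 157) (nat_lit 1) (.p (nat_lit 159) (nat_lit 1) (.n (nat_lit 160) (nat_lit 1) (.n (nat_lit 161) (nat_lit 3) (.n (nat_lit 163) (nat_lit 2) (.p (nat_lit 167) (nat_lit 3) (.p (nat_lit 168) (nat_lit 1) (.p (nat_lit 170) (nat_lit 2) (.n (nat_lit 171) (nat_lit 2) (.p (nat_lit 173) (nat_lit 3) .z)))))))))))))) (.ct dC1c_c291 (nat_lit 1) (nat_lit 8) (.s true (nat_lit 1) (nat_lit 18) (nat_lit 0) (nat_lit 1) (nat_lit 1) true (nat_lit 6) true (nat_lit 8) false (nat_lit 2) true (nat_lit 9) true (nat_lit 8) (.e true (nat_lit 1) (nat_lit 45) (nat_lit 3) (nat_lit 6) (.e true (nat_lit 2) (nat_lit 82) (nat_lit 1) (nat_lit 8) (.e true (nat_lit 3) (nat_lit 83) (nat_lit 1) (nat_lit 8) (.e false (nat_lit 3) (nat_lit 84) (nat_lit 1) (nat_lit 8) (.e true (nat_lit 1) (nat_lit 85) (nat_lit 1) (nat_lit 8) (.e false (nat_lit 1) (nat_lit 87) (nat_lit 1) (nat_lit 8) (.e false (nat_lit 2) (nat_lit 90) (nat_lit 1) (nat_lit 8) (.e false (nat_lit 1) (nat_lit 91) (nat_lit 1) (nat_lit 8) (.e true (nat_lit 1) (nat_lit 18) (nat_lit 8) (nat_lit 2) (.u (nat_lit 2) (.p (nat_lit 0) (nat_lit 1) (.p (nat_lit 1) (nat_lit 1) (.n (nat_lit 2) (nat_lit 1) (.p (nat_lit 3) (nat_lit 1) (.n (nat_lit 6) (nat_lit 1) (.p (nat_lit 7) (nat_lit 1) (.p (nat_lit 8) (nat_lit 1) (.n (nat_lit 9) (nat_lit 1) (.n (nat_lit 14) (nat_lit 1) (.p (nat_lit 18) (nat_lit 2) .z)))))))))) .nil)))))))))))) .leaf) (nat_lit 94210) (nat_lit 350) (.p (nat_lit 190) (nat_lit 1) .z) .df (.nd (.nd .leaf (nat_lit 94211) (nat_lit 514) (.p (nat_lit 212) (nat_lit 3) (.p (nat_lit 213) (nat_lit 1) (.n (nat_lit 214) (nat_lit 2) (.n (nat_lit 215) (nat_lit 1) (.n (nat_lit 216) (nat_lit 3) (.p (nat_lit 217) (nat_lit 3) (.p (nat_lit 220) (nat_lit 3) (.n (nat_lit 221) (nat_lit 1) (.n (nat_lit 222) (nat_lit 3) (.n (nat_lit 223) (nat_lit 2) (.n (nat_lit 224) (nat_lit 3) (.p (nat_lit 226) (nat_lit 2) (.n (nat_lit 227) (nat_lit 1) (.p (nat_lit 229) (nat_lit 1) (.n (nat_lit 231) (nat_lit 2) (.p (nat_lit 232) (nat_lit 3) (.p (nat_lit 233) (nat_lit 3) (.n (nat_lit 234) (nat_lit 1) (.p (nat_lit 235) (nat_lit 2) (.n (nat_lit 236) (nat_lit 3) (.n (nat_lit 237) (nat_lit 1) (.p (nat_lit 238) (nat_lit 1) (.n (nat_lit 239) (nat_lit 2) (.p (nat_lit 240) (nat_lit 2) (.n (nat_lit 241) (nat_lit 1) (.p (nat_lit 242) (nat_lit 1) (.n (nat_lit 243) (nat_lit 3) (.p (nat_lit 244) (nat_lit 1) (.p (nat_lit 245) (nat_lit 3) (.p (nat_lit 246) (nat_lit 2) (.n (nat_lit 247) (nat_lit 2) (.p (nat_lit 248) (nat_lit 3) .z)))))))))))))))))))))))))))))))) (.ct dC1c_c547 (nat_lit 1) (nat_lit 11) (.s false (nat_lit 1) (nat_lit 6) (nat_lit 3) (nat_lit 0) (nat_lit 5) false (nat_lit 2) true (nat_lit 9) true (nat_lit 8) true (nat_lit 11) true (nat_lit 14) (.s true (nat_lit 1) (nat_lit 15) (nat_lit 1) (nat_lit 0) (nat_lit 5) true (nat_lit 3) true (nat_lit 9) true (nat_lit 2) true (nat_lit 13) true (nat_lit 14) (.e true (nat_lit 1) (nat_lit 61) (nat_lit 5) (nat_lit 9) (.e true (nat_lit 1) (nat_lit 65) (nat_lit 5) (nat_lit 9) (.e false (nat_lit 1) (nat_lit 48) (nat_lit 6) (nat_lit 8) (.e true (nat_lit 1) (nat_lit 52) (nat_lit 6) (nat_lit 8) (.e false (nat_lit 1) (nat_lit 54) (nat_lit 6) (nat_lit 8) (.e false (nat_lit 2) (nat_lit 154) (nat_lit 0) (nat_lit 14) (.e false (nat_lit 3) (nat_lit 157) (nat_lit 0) (nat_lit 14) (.e false (nat_lit 1) (nat_lit 161) (nat_lit 0) (nat_lit 14) (.e false (nat_lit 2) (nat_lit 167) (nat_lit 0) (nat_lit 14) (.e true (nat_lit 1) (nat_lit 30) (nat_lit 13) (nat_lit 3) (.e true (nat_lit 1) (nat_lit 132) (nat_lit 1) (nat_lit 13) (.e true (nat_lit 3) (nat_lit 133) (nat_lit 1) (nat_lit 13) (.e false (nat_lit 1) (nat_lit 134) (nat_lit 1) (nat_lit 13) (.e true (nat_lit 3) (nat_lit 135) (nat_lit 1) (nat_lit 13) (.e true (nat_lit 3) (nat_lit 136) (nat_lit 1) (nat_lit 13) (.e false (nat_lit 1) (nat_lit 137) (nat_lit 1) (nat_lit 13) (.e true (nat_lit 3) (nat_lit 138) (nat_lit 1) (nat_lit 13) (.e false (nat_lit 3) (nat_lit 139) (nat_lit 1) (nat_lit 13) (.e true (nat_lit 3) (nat_lit 140) (nat_lit 1) (nat_lit 13) (.e true (nat_lit 2) (nat_lit 141) (nat_lit 1) (nat_lit 13) dC1c_i52))))))))))))))))))))))) .leaf) (nat_lit 94212) (nat_lit 657) (.n (nat_lit 260) (nat_lit 1) (.n (nat_lit 262) (nat_lit 1) (.p (nat_lit 263) (nat_lit 2) (.n (nat_lit 264) (nat_lit 1) (.n (nat_lit 266) (nat_lit 2) (.p (nat_lit 267) (nat_lit 3) (.p (nat_lit 268) (nat_lit 2) (.n (nat_lit 269) (nat_lit 2) (.p (nat_lit 270) (nat_lit 1) (.p (nat_lit 271) (nat_lit 3) (.n (nat_lit 272) (nat_lit 2) (.p (nat_lit 273) (nat_lit 1) (.p (nat_lit 275) (nat_lit 2) (.n (nat_lit 276) (nat_lit 2) (.p (nat_lit 277) (nat_lit 3) (.p (nat_lit 278) (nat_lit 3) (.n (nat_lit 279) (nat_lit 2) (.n (nat_lit 280) (nat_lit 2) (.n (nat_lit 281) (nat_lit 1) (.n (nat_lit 283) (nat_lit 2) (.p (nat_lit 284) (nat_lit 2) (.p (nat_lit 287) (nat_lit 2) (.p (nat_lit 288) (nat_lit 2) (.p (nat_lit 289) (nat_lit 1) .z)))))))))))))))))))))))) (.ct dC1c_c532 (nat_lit 1) (nat_lit 8) (.s false (nat_lit 1) (nat_lit 12) (nat_lit 2) (nat_lit 6) (nat_lit 0) true (nat_lit 8) true (nat_lit 12) true (nat_lit 3) true (nat_lit 10) true (nat_lit 6) (.e false (nat_lit 1) (nat_lit 194) (nat_lit 0) (nat_lit 12) (.e false (nat_lit 1) (nat_lit 42) (nat_lit 12) (nat_lit 3) (.e false (nat_lit 1) (nat_lit 132) (nat_lit 2) (nat_lit 10) (.e false (nat_lit 3) (nat_lit 133) (nat_lit 2) (nat_lit 10) (.e true (nat_lit 1) (nat_lit 134) (nat_lit 2) (nat_lit 10) (.e false (nat_lit 3) (nat_lit 135) (nat_lit 2) (nat_lit 10) (.e false (nat_lit 3) (nat_lit 136) (nat_lit 2) (nat_lit 10) (.e true (nat_lit 1) (nat_lit 137) (nat_lit 2) (nat_lit 10) (.e false (nat_lit 3) (nat_lit 138) (nat_lit 2) (nat_lit 10) (.e true (nat_lit 3) (nat_lit 139) (nat_lit 2) (nat_lit 10) (.e false (nat_lit 3) (nat_lit 140) (nat_lit 2) (nat_lit 10) (.e false (nat_lit 2) (nat_lit 141) (nat_lit 2) (nat_lit 10) (.e false (nat_lit 1) (nat_lit 142) (nat_lit 2) (nat_lit 10) (.e false (nat_lit 2) (nat_lit 143) (nat_lit 2) (nat_lit 10) (.e false (nat_lit 2) (nat_lit 144) (nat_lit 2) (nat_lit 10) (.e true (nat_lit 1) (nat_lit 145) (nat_lit 2) (nat_lit 10) (.e false (nat_lit 2) (nat_lit 147) (nat_lit 2) (nat_lit 10) (.e true (nat_lit 2) (nat_lit 148) (nat_lit 2) (nat_lit 10) (.e true (nat_lit 2) (nat_lit 149) (nat_lit 2) (nat_lit 10) (.e false (nat_lit 3) (nat_lit 151) (nat_lit 2) (nat_lit 10) (.e true (nat_lit 2) (nat_lit 152) (nat_lit 2) (nat_lit 10) (.e true (nat_lit 1) (nat_lit 58) (nat_lit 6) (nat_lit 6) (.u (nat_lit 2) (.n (nat_lit 3) (nat_lit 1) (.p (nat_lit 4) (nat_lit 1) (.p (nat_lit 6) (nat_lit 1) (.p (nat_lit 8) (nat_lit 1) (.p (nat_lit 11) (nat_lit 1) (.n (nat_lit 14) (nat_lit 1) (.n (nat_lit 17) (nat_lit 1) (.p (nat_lit 26) (nat_lit 1) (.n (nat_lit 27) (nat_lit 1) (.n (nat_lit 28) (nat_lit 1) .z)))))))))) .nil))))))))))))))))))))))))) .leaf)))) (nat_lit 94213) (nat_lit 772) (.n (nat_lit 290) (nat_lit 3) (.n (nat_lit 291) (nat_lit 1) (.n (nat_lit 293) (nat_lit 1) (.n (nat_lit 295) (nat_lit 1) (.p (nat_lit 296) (nat_lit 2) (.n (nat_lit 297) (nat_lit 2) (.p (nat_lit 299) (nat_lit 2) (.n (nat_lit 300) (nat_lit 3) (.p (nat_lit 301) (nat_lit 1) (.p (nat_lit 304) (nat_lit 2) (.n (nat_lit 305) (nat_lit 1) (.n (nat_lit 307) (nat_lit 2) (.p (nat_lit 308) (nat_lit 2) (.p (nat_lit 310) (nat_lit 1) (.p (nat_lit 312) (nat_lit 2) (.n (nat_lit 317) (nat_lit 2) (.p (nat_lit 318) (nat_lit 1) (.n (nat_lit 319) (nat_lit 2) .z)))))))))))))))))) (.ct dC1c_c292 (nat_lit 1) (nat_lit 7) (.s false (nat_lit 1) (nat_lit 12) (nat_lit 2) (nat_lit 6) (nat_lit 1) true (nat_lit 7) true (nat_lit 11) true (nat_lit 4) true (nat_lit 10) true (nat_lit 6) (.e false (nat_lit 1) (nat_lit 194) (nat_lit 1) (nat_lit 11) (.e false (nat_lit 1) (nat_lit 45) (nat_lit 12) (nat_lit 4) (.e false (nat_lit 3) (nat_lit 153) (nat_lit 2) (nat_lit 10) (.e true (nat_lit 1) (nat_lit 154) (nat_lit 2) (nat_lit 10) (.e true (nat_lit 1) (nat_lit 155) (nat_lit 2) (nat_lit 10) (.e false (nat_lit 3) (nat_lit 156) (nat_lit 2) (nat_lit 10) (.e false (nat_lit 2) (nat_lit 157) (nat_lit 2) (nat_lit 10) (.e false (nat_lit 2) (nat_lit 158) (nat_lit 2) (nat_lit 10) (.e true (nat_lit 3) (nat_lit 159) (nat_lit 2) (nat_lit 10) (.e false (nat_lit 3) (nat_lit 160) (nat_lit 2) (nat_lit 10) (.e false (nat_lit 1) (nat_lit 161) (nat_lit 2) (nat_lit 10) (.e true (nat_lit 3) (nat_lit 162) (nat_lit 2) (nat_lit 10) (.e true (nat_lit 3) (nat_lit 163) (nat_lit 2) (nat_lit 10) (.e true (nat_lit 2) (nat_lit 167) (nat_lit 2) (nat_lit 10) (.e true (nat_lit 1) (nat_lit 168) (nat_lit 2) (nat_lit 10) (.e false (nat_lit 2) (nat_lit 171) (nat_lit 2) (nat_lit 10) (.e true (nat_lit 1) (nat_lit 172) (nat_lit 2) (nat_lit 10) (.e false (nat_lit 3) (nat_lit 173) (nat_lit 2) (nat_lit 10) (.e true (nat_lit 1) (nat_lit 69) (nat_lit 6) (nat_lit 6) (.u (nat_lit 2) (.p (nat_lit 0) (nat_lit 1) (.n (nat_lit 1) (nat_lit 1) (.n (nat_lit 2) (nat_lit 1) (.p (nat_lit 3) (nat_lit 1) (.p (nat_lit 4) (nat_lit 1) (.n (nat_lit 6) (nat_lit 1) (.p (nat_lit 7) (nat_lit 1) (.n (nat_lit 9) (nat_lit 1) (.n (nat_lit 14) (nat_lit 1) (.n (nat_lit 26) (nat_lit 1) (.p (nat_lit 27) (nat_lit 1) (.n (nat_lit 28) (nat_lit 1) .z)))))))))))) .nil)))))))))))))))))))))) (.nd (.nd (.nd (.nd (.nd .leaf (nat_lit 94214) (nat_lit 845) (.p (nat_lit 341) (nat_lit 2) .z) (.ct dC1c_c277 (nat_lit 1) (nat_lit 4) (.s true (nat_lit 3) (nat_lit 12) (nat_lit 2) (nat_lit 6) (nat_lit 2) true (nat_lit 4) true (nat_lit 8) true (nat_lit 3) true (nat_lit 8) true (nat_lit 4) (.s true (nat_lit 3) (nat_lit 12) (nat_lit 6) (nat_lit 2) (nat_lit 2) true (nat_lit 0) true (nat_lit 8) true (nat_lit 3) true (nat_lit 4) true (nat_lit 8) (.e true (nat_lit 2) (nat_lit 194) (nat_lit 2) (nat_lit 8) (.e true (nat_lit 3) (nat_lit 84) (nat_lit 6) (nat_lit 4) (.e false (nat_lit 3) (nat_lit 33) (nat_lit 18) (nat_lit 0) (.u (nat_lit 2) (.n (nat_lit 13) (nat_lit 1) (.p (nat_lit 50) (nat_lit 1) (.n (nat_lit 74) (nat_lit 1) .z))) .nil))))))) .leaf) (nat_lit 94219) (nat_lit 1196) (.p (nat_lit 355) (nat_lit 1) (.n (nat_lit 356) (nat_lit 3) (.n (nat_lit 357) (nat_lit 2) (.n (nat_lit 358) (nat_lit 2) (.p (nat_lit 359) (nat_lit 2) (.n (nat_lit 360) (nat_lit 3) (.p (nat_lit 361) (nat_lit 3) (.n (nat_lit 362) (nat_lit 3) (.p (nat_lit 363) (nat_lit 1) (.p (nat_lit 364) (nat_lit 3) (.n (nat_lit 365) (nat_lit 3) (.p (nat_lit 367) (nat_lit 2) (.p (nat_lit 369) (nat_lit 2) (.n (nat_lit 370) (nat_lit 2) (.n (nat_lit 373) (nat_lit 2) (.n (nat_lit 375) (nat_lit 1) (.p (nat_lit 381) (nat_lit 1) (.n (nat_lit 382) (nat_lit 1) (.p (nat_lit 383) (nat_lit 1) (.p (nat_lit 385) (nat_lit 1) (.n (nat_lit 386) (nat_lit 1) (.p (nat_lit 387) (nat_lit 3) (.n (nat_lit 388) (nat_lit 2) (.p (nat_lit 389) (nat_lit 2) (.n (nat_lit 390) (nat_lit 2) (.p (nat_lit 391) (nat_lit 1) (.n (nat_lit 393) (nat_lit 3) (.p (nat_lit 394) (nat_lit 2) (.p (nat_lit 395) (nat_lit 1) (.n (nat_lit 396) (nat_lit 1) (.p (nat_lit 397) (nat_lit 2) (.n (nat_lit 398) (nat_lit 2) (.n (nat_lit 401) (nat_lit 2) (.p (nat_lit 402) (nat_lit 2) (.p (nat_lit 404) (nat_lit 1) (.n (nat_lit 405) (nat_lit 2) (.p (nat_lit 406) (nat_lit 2) (.n (nat_lit 408) (nat_lit 2) (.p (nat_lit 409) (nat_lit 1) (.n (nat_lit 410) (nat_lit 1) (.n (nat_lit 411) (nat_lit 2) (.p (nat_lit 412) (nat_lit 2) .z)))))))))))))))))))))))))))))))))))))))))) (.ct dC1c_c548 (nat_lit 1) (nat_lit 9) (.s false (nat_lit 1) (nat_lit 18) (nat_lit 1) (nat_lit 0) (nat_lit 11) true (nat_lit 2) true (nat_lit 9) true (nat_lit 5) true (nat_lit 18) true (nat_lit 19) (.e false (nat_lit 1) (nat_lit 42) (nat_lit 26) (nat_lit 2) (.e false (nat_lit 2) (nat_lit 84) (nat_lit 11) (nat_lit 9) (.e true (nat_lit 1) (nat_lit 86) (nat_lit 11) (nat_lit 9) (.e false (nat_lit 2) (nat_lit 87) (nat_lit 11) (nat_lit 9) (.e false (nat_lit 1) (nat_lit 90) (nat_lit 11) (nat_lit 9) (.e false (nat_lit 1) (nat_lit 48) (nat_lit 18) (nat_lit 5) (.e true (nat_lit 1) (nat_lit 50) (nat_lit 18) (nat_lit 5) (.e false (nat_lit 1) (nat_lit 54) (nat_lit 18) (nat_lit 5) (.e true (nat_lit 1) (nat_lit 277) (nat_lit 1) (nat_lit 18) dC1c_i53))))))))))) .leaf) (nat_lit 94220) (nat_lit 1190) (.n (nat_lit 355) (nat_lit 1) (.n (nat_lit 356) (nat_lit 1) (.p (nat_lit 357) (nat_lit 3) (.p (nat_lit 358) (nat_lit 2) (.n (nat_lit 359) (nat_lit 1) (.p (nat_lit 360) (nat_lit 3) (.n (nat_lit 361) (nat_lit 2) (.p (nat_lit 362) (nat_lit 2) (.p (nat_lit 364) (nat_lit 1) (.p (nat_lit 365) (nat_lit 1) (.p (nat_lit 369) (nat_lit 1) (.n (nat_lit 370) (nat_lit 1) (.n (nat_lit 373) (nat_lit 3) (.p (nat_lit 374) (nat_lit 3) (.n (nat_lit 376) (nat_lit 2) (.p (nat_lit 377) (nat_lit 2) (.p (nat_lit 381) (nat_lit 3) (.p (nat_lit 382) (nat_lit 2) (.p (nat_lit 383) (nat_lit 1) (.p (nat_lit 384) (nat_lit 1) (.p (nat_lit 385) (nat_lit 2) (.p (nat_lit 386) (nat_lit 2) (.p (nat_lit 387) (nat_lit 3) (.p (nat_lit 388) (nat_lit 3) (.p (nat_lit 389) (nat_lit 3) (.n (nat_lit 390) (nat_lit 3) (.n (nat_lit 391) (nat_lit 2) (.n (nat_lit 392) (nat_lit 2) (.n (nat_lit 393) (nat_lit 3) (.p (nat_lit 394) (nat_lit 2) (.p (nat_lit 395) (nat_lit 1) (.n (nat_lit 396) (nat_lit 1) (.p (nat_lit 397) (nat_lit 2) (.n (nat_lit 398) (nat_lit 2) (.p (nat_lit 404) (nat_lit 1) (.n (nat_lit 405) (nat_lit 2) (.p (nat_lit 406) (nat_lit 2) (.n (nat_lit 408) (nat_lit 2) (.p (nat_lit 409) (nat_lit 1) (.n (nat_lit 410) (nat_lit 1) (.n (nat_lit 420) (nat_lit 2) (.p (nat_lit 421) (nat_lit 2) .z)))))))))))))))))))))))))))))))))))))))))) (.ct dC1c_c548 (nat_lit 1) (nat_lit 9) (.s true (nat_lit 1) (nat_lit 45) (nat_lit 5) (nat_lit 0) (nat_lit 0) true (nat_lit 9) true (nat_lit 19) false (nat_lit 3) true (nat_lit 14) true (nat_lit 19) (.e false (nat_lit 2) (nat_lit 84) (nat_lit 12) (nat_lit 9) (.e true (nat_lit 1) (nat_lit 86) (nat_lit 12) (nat_lit 9) (.e false (nat_lit 2) (nat_lit 87) (nat_lit 12) (nat_lit 9) (.e false (nat_lit 1) (nat_lit 90) (nat_lit 12) (nat_lit 9) (.e true (nat_lit 1) (nat_lit 294) (nat_lit 0) (nat_lit 19) (.e true (nat_lit 2) (nat_lit 298) (nat_lit 0) (nat_lit 19) (.e false (nat_lit 2) (nat_lit 299) (nat_lit 0) (nat_lit 19) (.e true (nat_lit 2) (nat_lit 302) (nat_lit 0) (nat_lit 19) (.e false (nat_lit 2) (nat_lit 304) (nat_lit 0) (nat_lit 19) (.e false (nat_lit 1) (nat_lit 305) (nat_lit 0) (nat_lit 19) (.e true (nat_lit 1) (nat_lit 309) (nat_lit 0) (nat_lit 19) (.e true (nat_lit 3) (nat_lit 310) (nat_lit 0) (nat_lit 19) (.e true (nat_lit 2) (nat_lit 316) (nat_lit 0) (nat_lit 19) (.e true (nat_lit 3) (nat_lit 318) (nat_lit 0) (nat_lit 19) (.e true (nat_lit 3) (nat_lit 293) (nat_lit 0) (nat_lit 19) (.e false (nat_lit 1) (nat_lit 308) (nat_lit 0) (nat_lit 19) (.e false (nat_lit 1) (nat_lit 300) (nat_lit 0) (nat_lit 19) (.e true (nat_lit 1) (nat_lit 317) (nat_lit 0) (nat_lit 19) (.e true (nat_lit 1) (nat_lit 295) (nat_lit 0) (nat_lit 19) (.e false (nat_lit 2) (nat_lit 301) (nat_lit 0) (nat_lit 19) (.e false (nat_lit 1) (nat_lit 45) (nat_lit 23) (nat_lit 3) (.e true (nat_lit 2) (nat_lit 292) (nat_lit 0) (nat_lit 19) (.u (nat_lit 2) (.p (nat_lit 0) (nat_lit 1) (.p (nat_lit 1) (nat_lit 1) (.n (nat_lit 3) (nat_lit 1) (.n (nat_lit 7) (nat_lit 1) (.p (nat_lit 9) (nat_lit 1) (.n (nat_lit 10) (nat_lit 1) (.n (nat_lit 12) (nat_lit 1) (.n (nat_lit 14) (nat_lit 1) (.n (nat_lit 18) (nat_lit 1) (.n (nat_lit 19) (nat_lit 1) (.p (nat_lit 20) (nat_lit 1) (.p (nat_lit 27) (nat_lit 1) (.n (nat_lit 28) (nat_lit 2) (.p (nat_lit 29) (nat_lit 1) (.n (nat_lit 30) (nat_lit 1) (.n (nat_lit 31) (nat_lit 1) (.n (nat_lit 32) (nat_lit 1) (.n (nat_lit 33) (nat_lit 1) (.p (nat_lit 35) (nat_lit 3) (.n (nat_lit 39) (nat_lit 1) (.p (nat_lit 41) (nat_lit 1) (.n (nat_lit 49) (nat_lit 1) (.n (nat_lit 53) (nat_lit 1) (.n (nat_lit 54) (nat_lit 1) (.p (nat_lit 55) (nat_lit 1) (.p (nat_lit 57) (nat_lit 1) (.n (nat_lit 58) (nat_lit 1) (.n (nat_lit 69) (nat_lit 1) (.p (nat_lit 70) (nat_lit 1) (.p (nat_lit 405) (nat_lit 2) (.p (nat_lit 407) (nat_lit 1) (.p (nat_lit 408) (nat_lit 1) (.n (nat_lit 409) (nat_lit 1) (.n (nat_lit 410) (nat_lit 1) (.n (nat_lit 411) (nat_lit 2) (.n (nat_lit 416) (nat_lit 2) (.p (nat_lit 417) (nat_lit 3) (.n (nat_lit 418) (nat_lit 1) (.n (nat_lit 419) (nat_lit 1) (.p (nat_lit 420) (nat_lit 3) (.p (nat_lit 421) (nat_lit 1) (.n (nat_lit 423) (nat_lit 2) (.n (nat_lit 424) (nat_lit 1) (.n (nat_lit 425) (nat_lit 3) (.n (nat_lit 426) (nat_lit 2) (.n (nat_lit 429) (nat_lit 1) (.n (nat_lit 430) (nat_lit 2) (.n (nat_lit 431) (nat_lit 1) (.p (nat_lit 432) (nat_lit 1) (.n (nat_lit 433) (nat_lit 4) (.p (nat_lit 434) (nat_lit 2) .z))))))))))))))))))))))))))))))))))))))))))))))))))) .nil))))))))))))))))))))))))) (.nd (.nd .leaf (nat_lit 94222) (nat_lit 1360) (.p (nat_lit 426) (nat_lit 1) (.n (nat_lit 427) (nat_lit 1) (.p (nat_lit 428) (nat_lit 3) (.n (nat_lit 429) (nat_lit 1) (.p (nat_lit 430) (nat_lit 3) (.p (nat_lit 431) (nat_lit 1) (.p (nat_lit 432) (nat_lit 1) (.p (nat_lit 433) (nat_lit 1) (.n (nat_lit 435) (nat_lit 1) (.n (nat_lit 438) (nat_lit 2) (.n (nat_lit 439) (nat_lit 1) (.p (nat_lit 441) (nat_lit 2) (.n (nat_lit 442) (nat_lit 1) (.p (nat_lit 444) (nat_lit 3) (.p (nat_lit 445) (nat_lit 3) (.p (nat_lit 454) (nat_lit 2) (.n (nat_lit 455) (nat_lit 2) (.p (nat_lit 456) (nat_lit 3) (.p (nat_lit 459) (nat_lit 2) .z))))))))))))))))))) (.ct dC1c_c533 (nat_lit 1) (nat_lit 5) (.s true (nat_lit 1) (nat_lit 92) (nat_lit 0) (nat_lit 2) (nat_lit 2) true (nat_lit 11) true (nat_lit 13) false (nat_lit 5) true (nat_lit 15) true (nat_lit 13) (.e true (nat_lit 1) (nat_lit 190) (nat_lit 4) (nat_lit 11) (.e true (nat_lit 2) (nat_lit 261) (nat_lit 2) (nat_lit 13) dC1c_i54)))) .leaf) (nat_lit 94223) (nat_lit 1361) (.n (nat_lit 426) (nat_lit 2) (.p (nat_lit 427) (nat_lit 1) (.p (nat_lit 428) (nat_lit 2) (.n (nat_lit 429) (nat_lit 2) (.p (nat_lit 430) (nat_lit 3) (.p (nat_lit 431) (nat_lit 1) (.p (nat_lit 432) (nat_lit 2) (.p (nat_lit 433) (nat_lit 2) (.p (nat_lit 434) (nat_lit 3) (.n (nat_lit 435) (nat_lit 1) (.p (nat_lit 436) (nat_lit 3) (.n (nat_lit 438) (nat_lit 1) (.p (nat_lit 439) (nat_lit 2) (.n (nat_lit 441) (nat_lit 1) (.n (nat_lit 442) (nat_lit 2) (.p (nat_lit 443) (nat_lit 2) (.p (nat_lit 444) (nat_lit 2) (.n (nat_lit 445) (nat_lit 3) (.n (nat_lit 454) (nat_lit 3) (.p (nat_lit 455) (nat_lit 3) (.p (nat_lit 456) (nat_lit 3) (.p (nat_lit 459) (nat_lit 2) .z)))))))))))))))))))))) (.ct dC1c_c533 (nat_lit 1) (nat_lit 5) (.s false (nat_lit 1) (nat_lit 92) (nat_lit 2) (nat_lit 2) (nat_lit 0) true (nat_lit 11) true (nat_lit 15) false (nat_lit 5) true (nat_lit 13) true (nat_lit 13) (.e false (nat_lit 1) (nat_lit 190) (nat_lit 4) (nat_lit 11) (.e false (nat_lit 1) (nat_lit 338) (nat_lit 0) (nat_lit 15) (.e true (nat_lit 1) (nat_lit 260) (nat_lit 2) (nat_lit 13) dC1c_i55))))) .leaf)) (nat_lit 94224) (nat_lit 1532) (.p (nat_lit 460) (nat_lit 2) (.p (nat_lit 461) (nat_lit 3) (.n (nat_lit 462) (nat_lit 2) (.p (nat_lit 463) (nat_lit 3) (.n (nat_lit 465) (nat_lit 2) (.n (nat_lit 467) (nat_lit 2) (.n (nat_lit 468) (nat_lit 1) (.p (nat_lit 469) (nat_lit 2) (.n (nat_lit 470) (nat_lit 3) (.n (nat_lit 471) (nat_lit 3) (.p (nat_lit 472) (nat_lit 1) (.p (nat_lit 473) (nat_lit 1) (.p (nat_lit 474) (nat_lit 1) (.n (nat_lit 475) (nat_lit 3) (.n (nat_lit 476) (nat_lit 2) (.p (nat_lit 477) (nat_lit 2) (.p (nat_lit 486) (nat_lit 2) (.n (nat_lit 487) (nat_lit 2) (.n (nat_lit 489) (nat_lit 3) (.n (nat_lit 493) (nat_lit 2) .z)))))))))))))))))))) (.ct dC1c_c293 (nat_lit 1) (nat_lit 4) (.s true (nat_lit 1) (nat_lit 92) (nat_lit 1) (nat_lit 2) (nat_lit 2) true (nat_lit 10) true (nat_lit 13) false (nat_lit 4) true (nat_lit 14) true (nat_lit 13) (.e true (nat_lit 1) (nat_lit 190) (nat_lit 5) (nat_lit 10) (.e true (nat_lit 2) (nat_lit 291) (nat_lit 2) (nat_lit 13) (.e true (nat_lit 1) (nat_lit 292) (nat_lit 2) (nat_lit 13) (.e true (nat_lit 2) (nat_lit 293) (nat_lit 2) (nat_lit 13) (.e true (nat_lit 3) (nat_lit 294) (nat_lit 2) (nat_lit 13) (.e true (nat_lit 1) (nat_lit 296) (nat_lit 2) (nat_lit 13) (.e false (nat_lit 1) (nat_lit 297) (nat_lit 2) (nat_lit 13) (.e false (nat_lit 1) (nat_lit 298) (nat_lit 2) (nat_lit 13) (.e true (nat_lit 1) (nat_lit 300) (nat_lit 2) (nat_lit 13) (.e false (nat_lit 3) (nat_lit 304) (nat_lit 2) (nat_lit 13) (.e true (nat_lit 3) (nat_lit 305) (nat_lit 2) (nat_lit 13) (.e false (nat_lit 2) (nat_lit 307) (nat_lit 2) (nat_lit 13) (.e false (nat_lit 1) (nat_lit 308) (nat_lit 2) (nat_lit 13) (.e true (nat_lit 1) (nat_lit 310) (nat_lit 2) (nat_lit 13) (.e false (nat_lit 2) (nat_lit 341) (nat_lit 1) (nat_lit 14) (.e false (nat_lit 3) (nat_lit 295) (nat_lit 2) (nat_lit 13) (.e false (nat_lit 1) (nat_lit 299) (nat_lit 2) (nat_lit 13) (.e true (nat_lit 3) (nat_lit 302) (nat_lit 2) (nat_lit 13) (.e true (nat_lit 2) (nat_lit 312) (nat_lit 2) (nat_lit 13) (.e false (nat_lit 1) (nat_lit 316) (nat_lit 2) (nat_lit 13) (.e false (nat_lit 3) (nat_lit 317) (nat_lit 2) (nat_lit 13) (.e false (nat_lit 2) (nat_lit 319) (nat_lit 2) (nat_lit 13) (.u (nat_lit 2) (.n (nat_lit 0) (nat_lit 2) (.p (nat_lit 1) (nat_lit 2) (.p (nat_lit 2) (nat_lit 2) (.p (nat_lit 5) (nat_lit 1) (.n (nat_lit 6) (nat_lit 1) (.p (nat_lit 7) (nat_lit 1) (.n (nat_lit 8) (nat_lit 6) (.n (nat_lit 9) (nat_lit 3) (.p (nat_lit 10) (nat_lit 4) (.p (nat_lit 11) (nat_lit 1) (.n (nat_lit 12) (nat_lit 1) (.p (nat_lit 13) (nat_lit 3) (.p (nat_lit 14) (nat_lit 2) (.n (nat_lit 15) (nat_lit 1) (.p (nat_lit 16) (nat_lit 2) (.n (nat_lit 17) (nat_lit 2) (.p (nat_lit 21) (nat_lit 1) (.p (nat_lit 23) (nat_lit 1) (.n (nat_lit 26) (nat_lit 1) (.n (nat_lit 27) (nat_lit 1) (.p (nat_lit 33) (nat_lit 2) (.p (nat_lit 176) (nat_lit 1) (.p (nat_lit 177) (nat_lit 1) (.n (nat_lit 187) (nat_lit 1) (.n (nat_lit 190) (nat_lit 1) .z))))))))))))))))))))))))) .nil))))))))))))))))))))))))) (.nd (.nd (.nd .leaf (nat_lit 95232) (nat_lit 287) (.p (nat_lit 169) (nat_lit 1) .z) .df .leaf) (nat_lit 95234) (nat_lit 379) (.p (nat_lit 196) (nat_lit 1) .z) .df .leaf) (nat_lit 95236) (nat_lit 775) (.n (nat_lit 290) (nat_lit 1) (.p (nat_lit 291) (nat_lit 3) (.n (nat_lit 292) (nat_lit 1) (.n (nat_lit 293) (nat_lit 3) (.p (nat_lit 294) (nat_lit 3) (.n (nat_lit 296) (nat_lit 1) (.p (nat_lit 297) (nat_lit 3) (.n (nat_lit 300) (nat_lit 3) (.n (nat_lit 302) (nat_lit 1) (.n (nat_lit 303) (nat_lit 2) (.p (nat_lit 304) (nat_lit 2) (.n (nat_lit 305) (nat_lit 3) (.p (nat_lit 306) (nat_lit 1) (.n (nat_lit 307) (nat_lit 1) (.p (nat_lit 308) (nat_lit 1) (.n (nat_lit 309) (nat_lit 2) (.n (nat_lit 310) (nat_lit 2) (.p (nat_lit 314) (nat_lit 1) (.n (nat_lit 315) (nat_lit 1) (.n (nat_lit 316) (nat_lit 2) (.n (nat_lit 317) (nat_lit 2) (.p (nat_lit 318) (nat_lit 3) .z)))))))))))))))))))))) (.ct dC1c_c292 (nat_lit 1) (nat_lit 8) (.s false (nat_lit 1) (nat_lit 13) (nat_lit 2) (nat_lit 4) (nat_lit 2) true (nat_lit 6) true (nat_lit 10) true (nat_lit 3) true (nat_lit 10) true (nat_lit 8) (.e true (nat_lit 1) (nat_lit 71) (nat_lit 6) (nat_lit 6) (.e false (nat_lit 1) (nat_lit 72) (nat_lit 6) (nat_lit 6) (.e true (nat_lit 1) (nat_lit 76) (nat_lit 6) (nat_lit 6) (.e true (nat_lit 1) (nat_lit 153) (nat_lit 2) (nat_lit 10) (.e true (nat_lit 1) (nat_lit 154) (nat_lit 2) (nat_lit 10) (.e true (nat_lit 1) (nat_lit 157) (nat_lit 2) (nat_lit 10) (.e true (nat_lit 2) (nat_lit 158) (nat_lit 2) (nat_lit 10) (.e false (nat_lit 3) (nat_lit 159) (nat_lit 2) (nat_lit 10) (.e false (nat_lit 3) (nat_lit 160) (nat_lit 2) (nat_lit 10) (.e false (nat_lit 3) (nat_lit 161) (nat_lit 2) (nat_lit 10) (.e false (nat_lit 3) (nat_lit 163) (nat_lit 2) (nat_lit 10) (.e false (nat_lit 3) (nat_lit 164) (nat_lit 2) (nat_lit 10) (.e true (nat_lit 2) (nat_lit 165) (nat_lit 2) (nat_lit 10) (.e false (nat_lit 1) (nat_lit 168) (nat_lit 2) (nat_lit 10) (.e false (nat_lit 3) (nat_lit 171) (nat_lit 2) (nat_lit 10) (.e false (nat_lit 2) (nat_lit 172) (nat_lit 2) (nat_lit 10) (.e false (nat_lit 3) (nat_lit 173) (nat_lit 2) (nat_lit 10) (.e true (nat_lit 1) (nat_lit 40) (nat_lit 13) (nat_lit 3) (.e true (nat_lit 1) (nat_lit 155) (nat_lit 2) (nat_lit 10) (.e true (nat_lit 1) (nat_lit 167) (nat_lit 2) (nat_lit 10) (.u (nat_lit 2) (.n (nat_lit 1) (nat_lit 1) (.n (nat_lit 2) (nat_lit 1) (.p (nat_lit 3) (nat_lit 1) (.n (nat_lit 4) (nat_lit 1) (.n (nat_lit 5) (nat_lit 1) (.p (nat_lit 6) (nat_lit 1) (.p (nat_lit 8) (nat_lit 1) (.n (nat_lit 9) (nat_lit 1) (.p (nat_lit 11) (nat_lit 2) (.p (nat_lit 15) (nat_lit 1) (.p (nat_lit 18) (nat_lit 1) (.p (nat_lit 19) (nat_lit 1) (.p (nat_lit 20) (nat_lit 1) (.p (nat_lit 26) (nat_lit 1) (.p (nat_lit 27) (nat_lit 1) (.n (nat_lit 28) (nat_lit 1) (.n (nat_lit 103) (nat_lit 1) (.n (nat_lit 106) (nat_lit 1) (.n (nat_lit 114) (nat_lit 1) .z))))))))))))))))))) .nil))))))))))))))))))))))) (.nd (.nd .leaf (nat_lit 95238) (nat_lit 893) (.p (nat_lit 353) (nat_lit 1) .z) .df .leaf) (nat_lit 95241) (nat_lit 1027) (.n (nat_lit 355) (nat_lit 3) (.p (nat_lit 357) (nat_lit 2) (.p (nat_lit 358) (nat_lit 2) (.n (nat_lit 359) (nat_lit 1) (.n (nat_lit 360) (nat_lit 3) (.n (nat_lit 361) (nat_lit 2) (.n (nat_lit 362) (nat_lit 3) (.n (nat_lit 363) (nat_lit 1) (.n (nat_lit 364) (nat_lit 1) (.p (nat_lit 365) (nat_lit 2) (.n (nat_lit 366) (nat_lit 2) (.n (nat_lit 367) (nat_lit 3) (.n (nat_lit 368) (nat_lit 2) (.p (nat_lit 369) (nat_lit 2) (.n (nat_lit 370) (nat_lit 2) (.p (nat_lit 373) (nat_lit 1) (.p (nat_lit 374) (nat_lit 2) (.n (nat_lit 375) (nat_lit 1) (.p (nat_lit 379) (nat_lit 1) (.n (nat_lit 380) (nat_lit 1) (.p (nat_lit 381) (nat_lit 1) (.p (nat_lit 414) (nat_lit 1) .z)))))))))))))))))))))) (.ct dC1c_c548 (nat_lit 1) (nat_lit 10) (.s true (nat_lit 1) (nat_lit 93) (nat_lit 0) (nat_lit 2) (nat_lit 0) false (nat_lit 20) true (nat_lit 19) false (nat_lit 10) true (nat_lit 19) true (nat_lit 17) (.e true (nat_lit 1) (nat_lit 290) (nat_lit 0) (nat_lit 19) (.e false (nat_lit 3) (nat_lit 291) (nat_lit 0) (nat_lit 19) (.e true (nat_lit 1) (nat_lit 292) (nat_lit 0) (nat_lit 19) (.e true (nat_lit 3) (nat_lit 293) (nat_lit 0) (nat_lit 19) (.e false (nat_lit 3) (nat_lit 294) (nat_lit 0) (nat_lit 19) (.e true (nat_lit 1) (nat_lit 296) (nat_lit 0) (nat_lit 19) (.e false (nat_lit 3) (nat_lit 297) (nat_lit 0) (nat_lit 19) (.e true (nat_lit 3) (nat_lit 300) (nat_lit 0) (nat_lit 19) (.e true (nat_lit 1) (nat_lit 302) (nat_lit 0) (nat_lit 19) (.e true (nat_lit 2) (nat_lit 303) (nat_lit 0) (nat_lit 19) (.e false (nat_lit 2) (nat_lit 304) (nat_lit 0) (nat_lit 19) (.e true (nat_lit 3) (nat_lit 305) (nat_lit 0) (nat_lit 19) (.e true (nat_lit 1) (nat_lit 307) (nat_lit 0) (nat_lit 19) (.e false (nat_lit 1) (nat_lit 308) (nat_lit 0) (nat_lit 19) (.e true (nat_lit 2) (nat_lit 309) (nat_lit 0) (nat_lit 19) (.e true (nat_lit 2) (nat_lit 310) (nat_lit 0) (nat_lit 19) (.e false (nat_lit 1) (nat_lit 314) (nat_lit 0) (nat_lit 19) (.e true (nat_lit 1) (nat_lit 315) (nat_lit 0) (nat_lit 19) (.e true (nat_lit 2) (nat_lit 316) (nat_lit 0) (nat_lit 19) (.e true (nat_lit 2) (nat_lit 317) (nat_lit 0) (nat_lit 19) (.e false (nat_lit 3) (nat_lit 318) (nat_lit 0) (nat_lit 19) (.e false (nat_lit 1) (nat_lit 228) (nat_lit 2) (nat_lit 17) (.u (nat_lit 2) (.n (nat_lit 0) (nat_lit 1) (.p (nat_lit 1) (nat_lit 1) (.n (nat_lit 2) (nat_lit 1) (.n (nat_lit 3) (nat_lit 1) (.p (nat_lit 7) (nat_lit 1) (.n (nat_lit 8) (nat_lit 2) (.n (nat_lit 9) (nat_lit 1) (.n (nat_lit 10) (nat_lit 2) (.p (nat_lit 12) (nat_lit 1) (.p (nat_lit 15) (nat_lit 2) (.p (nat_lit 17) (nat_lit 1) (.n (nat_lit 20) (nat_lit 1) (.n (nat_lit 26) (nat_lit 2) .z))))))))))))) .nil))))))))))))))))))))))))) .leaf))) (nat_lit 95246) (nat_lit 1551) (.n (nat_lit 460) (nat_lit 3) (.n (nat_lit 461) (nat_lit 2) (.p (nat_lit 462) (nat_lit 3) (.n (nat_lit 464) (nat_lit 2) (.n (nat_lit 465) (nat_lit 1) (.p (nat_lit 467) (nat_lit 1) (.p (nat_lit 468) (nat_lit 2) (.n (nat_lit 469) (nat_lit 1) (.p (nat_lit 470) (nat_lit 1) (.p (nat_lit 472) (nat_lit 3) (.p (nat_lit 473) (nat_lit 3) (.p (nat_lit 474) (nat_lit 3) (.p (nat_lit 475) (nat_lit 3) (.p (nat_lit 476) (nat_lit 2) (.p (nat_lit 477) (nat_lit 1) (.p (nat_lit 478) (nat_lit 3) (.p (nat_lit 479) (nat_lit 2) (.n (nat_lit 480) (nat_lit 3) (.p (nat_lit 481) (nat_lit 1) (.p (nat_lit 482) (nat_lit 3) (.p (nat_lit 492) (nat_lit 3) (.n (nat_lit 493) (nat_lit 1) .z)))))))))))))))))))))) (.ct dC1c_c293 (nat_lit 1) (nat_lit 5) (.s true (nat_lit 1) (nat_lit 14) (nat_lit 13) (nat_lit 2) (nat_lit 2) true (nat_lit 0) true (nat_lit 13) true (nat_lit 5) true (nat_lit 6) true (nat_lit 13) (.e true (nat_lit 1) (nat_lit 40) (nat_lit 37) (nat_lit 0) (.e true (nat_lit 2) (nat_lit 290) (nat_lit 2) (nat_lit 13) (.e true (nat_lit 3) (nat_lit 291) (nat_lit 2) (nat_lit 13) (.e false (nat_lit 3) (nat_lit 292) (nat_lit 2) (nat_lit 13) (.e true (nat_lit 3) (nat_lit 293) (nat_lit 2) (nat_lit 13) (.e false (nat_lit 1) (nat_lit 294) (nat_lit 2) (nat_lit 13) (.e true (nat_lit 2) (nat_lit 296) (nat_lit 2) (nat_lit 13) (.e false (nat_lit 1) (nat_lit 297) (nat_lit 2) (nat_lit 13) (.e false (nat_lit 2) (nat_lit 299) (nat_lit 2) (nat_lit 13) (.e false (nat_lit 2) (nat_lit 300) (nat_lit 2) (nat_lit 13) (.e false (nat_lit 2) (nat_lit 307) (nat_lit 2) (nat_lit 13) (.e true (nat_lit 2) (nat_lit 310) (nat_lit 2) (nat_lit 13) (.e false (nat_lit 1) (nat_lit 101) (nat_lit 13) (nat_lit 6) (.e true (nat_lit 3) (nat_lit 298) (nat_lit 2) (nat_lit 13) (.e true (nat_lit 3) (nat_lit 301) (nat_lit 2) (nat_lit 13) (.e true (nat_lit 1) (nat_lit 302) (nat_lit 2) (nat_lit 13) (.e false (nat_lit 2) (nat_lit 303) (nat_lit 2) (nat_lit 13) (.e true (nat_lit 3) (nat_lit 305) (nat_lit 2) (nat_lit 13) (.e true (nat_lit 1) (nat_lit 314) (nat_lit 2) (nat_lit 13) (.e false (nat_lit 1) (nat_lit 315) (nat_lit 2) (nat_lit 13) (.u (nat_lit 2) (.p (nat_lit 2) (nat_lit 3) (.p (nat_lit 3) (nat_lit 1) (.p (nat_lit 4) (nat_lit 2) (.p (nat_lit 5) (nat_lit 2) (.p (nat_lit 7) (nat_lit 1) (.n (nat_lit 8) (nat_lit 4) (.p (nat_lit 10) (nat_lit 2) (.p (nat_lit 11) (nat_lit 1) (.p (nat_lit 13) (nat_lit 2) (.p (nat_lit 14) (nat_lit 2) (.p (nat_lit 15) (nat_lit 3) (.p (nat_lit 16) (nat_lit 1) (.n (nat_lit 17) (nat_lit 3) (.n (nat_lit 18) (nat_lit 1) (.n (nat_lit 19) (nat_lit 1) (.p (nat_lit 20) (nat_lit 1) (.p (nat_lit 23) (nat_lit 1) (.n (nat_lit 26) (nat_lit 1) (.n (nat_lit 27) (nat_lit 1) (.p (nat_lit 29) (nat_lit 1) (.n (nat_lit 32) (nat_lit 1) (.p (nat_lit 33) (nat_lit 1) .z)))))))))))))))))))))) .nil))))))))))))))))))))))) (.nd (.nd (.nd (.nd .leaf (nat_lit 96256) (nat_lit 314) (.p (nat_lit 153) (nat_lit 1) (.p (nat_lit 154) (nat_lit 1) (.n (nat_lit 155) (nat_lit 3) (.n (nat_lit 156) (nat_lit 3) (.p (nat_lit 157) (nat_lit 2) (.p (nat_lit 158) (nat_lit 3) (.n (nat_lit 159) (nat_lit 2) (.n (nat_lit 160) (nat_lit 3) (.n (nat_lit 161) (nat_lit 2) (.n (nat_lit 163) (nat_lit 2) (.p (nat_lit 164) (nat_lit 3) (.p (nat_lit 165) (nat_lit 3) (.n (nat_lit 166) (nat_lit 2) (.p (nat_lit 168) (nat_lit 3) (.p (nat_lit 169) (nat_lit 1) (.p (nat_lit 170) (nat_lit 1) (.n (nat_lit 171) (nat_lit 2) (.n (nat_lit 172) (nat_lit 3) (.p (nat_lit 173) (nat_lit 2) .z))))))))))))))))))) (.ct dC1c_c291 (nat_lit 1) (nat_lit 9) (.s false (nat_lit 1) (nat_lit 16) (nat_lit 2) (nat_lit 0) (nat_lit 1) true (nat_lit 4) true (nat_lit 8) false (nat_lit 1) true (nat_lit 7) true (nat_lit 9) (.e true (nat_lit 1) (nat_lit 36) (nat_lit 5) (nat_lit 4) (.e false (nat_lit 1) (nat_lit 89) (nat_lit 1) (nat_lit 8) (.e true (nat_lit 1) (nat_lit 16) (nat_lit 11) (nat_lit 1) (.e true (nat_lit 1) (nat_lit 66) (nat_lit 2) (nat_lit 7) (.e true (nat_lit 1) (nat_lit 67) (nat_lit 2) (nat_lit 7) (.e false (nat_lit 1) (nat_lit 68) (nat_lit 2) (nat_lit 7) (.e true (nat_lit 1) (nat_lit 69) (nat_lit 2) (nat_lit 7) (.e true (nat_lit 1) (nat_lit 70) (nat_lit 2) (nat_lit 7) (.e false (nat_lit 1) (nat_lit 74) (nat_lit 2) (nat_lit 7) (.u (nat_lit 2) (.p (nat_lit 2) (nat_lit 1) (.p (nat_lit 7) (nat_lit 1) (.p (nat_lit 18) (nat_lit 1) .z))) .nil)))))))))))) .leaf) (nat_lit 96258) (nat_lit 380) (.p (nat_lit 197) (nat_lit 1) .z) .df .leaf) (nat_lit 96260) (nat_lit 761) (.p (nat_lit 290) (nat_lit 3) (.p (nat_lit 291) (nat_lit 3) (.p (nat_lit 292) (nat_lit 2) (.p (nat_lit 293) (nat_lit 3) (.p (nat_lit 295) (nat_lit 2) (.p (nat_lit 296) (nat_lit 2) (.p (nat_lit 297) (nat_lit 3) (.n (nat_lit 298) (nat_lit 2) (.n (nat_lit 299) (nat_lit 2) (.n (nat_lit 300) (nat_lit 3) (.n (nat_lit 301) (nat_lit 1) (.p (nat_lit 302) (nat_lit 1) (.p (nat_lit 303) (nat_lit 2) (.p (nat_lit 304) (nat_lit 2) (.p (nat_lit 305) (nat_lit 2) (.n (nat_lit 306) (nat_lit 1) (.p (nat_lit 307) (nat_lit 1) (.p (nat_lit 308) (nat_lit 3) (.p (nat_lit 309) (nat_lit 3) (.n (nat_lit 310) (nat_lit 1) (.n (nat_lit 311) (nat_lit 1) (.p (nat_lit 313) (nat_lit 2) (.n (nat_lit 314) (nat_lit 1) (.n (nat_lit 315) (nat_lit 1) (.p (nat_lit 316) (nat_lit 3) (.n (nat_lit 317) (nat_lit 3) (.n (nat_lit 318) (nat_lit 2) (.p (nat_lit 319) (nat_lit 1) .z)))))))))))))))))))))))))))) (.ct dC1c_c292 (nat_lit 1) (nat_lit 8) (.s false (nat_lit 1) (nat_lit 12) (nat_lit 5) (nat_lit 2) (nat_lit 2) true (nat_lit 1) true (nat_lit 10) true (nat_lit 4) true (nat_lit 7) true (nat_lit 10) (.s false (nat_lit 1) (nat_lit 16) (nat_lit 0) (nat_lit 5) (nat_lit 2) true (nat_lit 8) true (nat_lit 10) true (nat_lit 1) true (nat_lit 12) true (nat_lit 7) (.s true (nat_lit 1) (nat_lit 17) (nat_lit 1) (nat_lit 4) (nat_lit 2) true (nat_lit 7) true (nat_lit 10) true (nat_lit 1) true (nat_lit 11) true (nat_lit 8) (.e false (nat_lit 3) (nat_lit 153) (nat_lit 2) (nat_lit 10) (.e false (nat_lit 2) (nat_lit 159) (nat_lit 2) (nat_lit 10) (.e false (nat_lit 2) (nat_lit 160) (nat_lit 2) (nat_lit 10) (.e true (nat_lit 1) (nat_lit 161) (nat_lit 2) (nat_lit 10) (.e true (nat_lit 2) (nat_lit 163) (nat_lit 2) (nat_lit 10) (.e true (nat_lit 1) (nat_lit 43) (nat_lit 12) (nat_lit 4) (.e true (nat_lit 1) (nat_lit 155) (nat_lit 2) (nat_lit 10) (.e false (nat_lit 3) (nat_lit 156) (nat_lit 2) (nat_lit 10) (.e false (nat_lit 1) (nat_lit 158) (nat_lit 2) (nat_lit 10) (.e false (nat_lit 2) (nat_lit 162) (nat_lit 2) (nat_lit 10) (.e false (nat_lit 3) (nat_lit 164) (nat_lit 2) (nat_lit 10) (.e true (nat_lit 1) (nat_lit 165) (nat_lit 2) (nat_lit 10) dC1c_i56)))))))))))))))) (.nd (.nd .leaf (nat_lit 96262) (nat_lit 899) (.n (nat_lit 347) (nat_lit 2) (.p (nat_lit 350) (nat_lit 1) (.n (nat_lit 351) (nat_lit 1) (.p (nat_lit 352) (nat_lit 3) (.n (nat_lit 353) (nat_lit 1) .z))))) (.ct dC1c_c37 (nat_lit 1) (nat_lit 3) (.s false (nat_lit 2) (nat_lit 13) (nat_lit 2) (nat_lit 6) (nat_lit 2) true (nat_lit 3) true (nat_lit 5) true (nat_lit 2) true (nat_lit 5) true (nat_lit 3) (.s false (nat_lit 2) (nat_lit 13) (nat_lit 6) (nat_lit 2) (nat_lit 2) true (nat_lit 0) true (nat_lit 5) true (nat_lit 2) true (nat_lit 3) true (nat_lit 5) (.s true (nat_lit 3) (nat_lit 18) (nat_lit 1) (nat_lit 6) (nat_lit 1) false (nat_lit 7) true (nat_lit 6) true (nat_lit 0) true (nat_lit 6) true (nat_lit 3) (.s false (nat_lit 3) (nat_lit 39) (nat_lit 2) (nat_lit 2) (nat_lit 2) true (nat_lit 3) true (nat_lit 5) false (nat_lit 0) true (nat_lit 5) true (nat_lit 5) (.e false (nat_lit 1) (nat_lit 93) (nat_lit 6) (nat_lit 3) (.e true (nat_lit 3) (nat_lit 197) (nat_lit 2) (nat_lit 5) (.e false (nat_lit 1) (nat_lit 198) (nat_lit 2) (nat_lit 5) (.e false (nat_lit 1) (nat_lit 200) (nat_lit 2) (nat_lit 5) (.e false (nat_lit 1) (nat_lit 201) (nat_lit 2) (nat_lit 5) (.e true (nat_lit 2) (nat_lit 37) (nat_lit 18) (nat_lit 0) (.e true (nat_lit 2) (nat_lit 196) (nat_lit 2) (nat_lit 5) (.u (nat_lit 2) (.n (nat_lit 1) (nat_lit 1) (.p (nat_lit 2) (nat_lit 1) (.n (nat_lit 3) (nat_lit 1) (.p (nat_lit 20) (nat_lit 1) (.n (nat_lit 22) (nat_lit 1) (.n (nat_lit 27) (nat_lit 1) (.p (nat_lit 28) (nat_lit 2) (.p (nat_lit 29) (nat_lit 2) (.n (nat_lit 30) (nat_lit 3) (.n (nat_lit 31) (nat_lit 1) (.p (nat_lit 32) (nat_lit 2) .z))))))))))) .nil))))))))))))) .leaf) (nat_lit 96265) (nat_lit 1036) (.n (nat_lit 355) (nat_lit 3) (.p (nat_lit 356) (nat_lit 2) (.p (nat_lit 358) (nat_lit 3) (.n (nat_lit 359) (nat_lit 3) (.n (nat_lit 361) (nat_lit 3) (.n (nat_lit 362) (nat_lit 1) (.p (nat_lit 363) (nat_lit 1) (.p (nat_lit 364) (nat_lit 1) (.n (nat_lit 365) (nat_lit 2) (.p (nat_lit 366) (nat_lit 1) (.n (nat_lit 368) (nat_lit 3) (.n (nat_lit 369) (nat_lit 2) (.n (nat_lit 370) (nat_lit 2) (.n (nat_lit 371) (nat_lit 2) (.p (nat_lit 373) (nat_lit 3) (.n (nat_lit 374) (nat_lit 3) (.n (nat_lit 375) (nat_lit 2) (.p (nat_lit 378) (nat_lit 2) (.n (nat_lit 379) (nat_lit 1) (.n (nat_lit 380) (nat_lit 1) (.n (nat_lit 382) (nat_lit 1) (.n (nat_lit 383) (nat_lit 3) (.n (nat_lit 384) (nat_lit 3) (.p (nat_lit 385) (nat_lit 1) (.p (nat_lit 386) (nat_lit 1) (.p (nat_lit 387) (nat_lit 1) (.n (nat_lit 388) (nat_lit 1) (.p (nat_lit 390) (nat_lit 2) (.n (nat_lit 392) (nat_lit 1) (.p (nat_lit 393) (nat_lit 2) (.p (nat_lit 394) (nat_lit 2) (.p (nat_lit 396) (nat_lit 3) (.p (nat_lit 404) (nat_lit 1) (.n (nat_lit 407) (nat_lit 2) (.n (nat_lit 408) (nat_lit 2) (.p (nat_lit 409) (nat_lit 3) (.n (nat_lit 410) (nat_lit 1) (.p (nat_lit 412) (nat_lit 2) (.n (nat_lit 413) (nat_lit 2) (.p (nat_lit 414) (nat_lit 1) .z)))))))))))))))))))))))))))))))))))))))) (.ct dC1c_c548 (nat_lit 1) (nat_lit 10) (.s true (nat_lit 1) (nat_lit 94) (nat_lit 0) (nat_lit 2) (nat_lit 0) false (nat_lit 20) true (nat_lit 19) false (nat_lit 10) true (nat_lit 19) true (nat_lit 17) (.e false (nat_lit 2) (nat_lit 290) (nat_lit 0) (nat_lit 19) (.e false (nat_lit 2) (nat_lit 291) (nat_lit 0) (nat_lit 19) (.e true (nat_lit 2) (nat_lit 292) (nat_lit 0) (nat_lit 19) (.e true (nat_lit 1) (nat_lit 293) (nat_lit 0) (nat_lit 19) (.e true (nat_lit 2) (nat_lit 294) (nat_lit 0) (nat_lit 19) (.e true (nat_lit 1) (nat_lit 295) (nat_lit 0) (nat_lit 19) (.e true (nat_lit 3) (nat_lit 296) (nat_lit 0) (nat_lit 19) (.e true (nat_lit 1) (nat_lit 297) (nat_lit 0) (nat_lit 19) (.e true (nat_lit 1) (nat_lit 300) (nat_lit 0) (nat_lit 19) (.e false (nat_lit 3) (nat_lit 301) (nat_lit 0) (nat_lit 19) (.e true (nat_lit 2) (nat_lit 302) (nat_lit 0) (nat_lit 19) (.e true (nat_lit 3) (nat_lit 303) (nat_lit 0) (nat_lit 19) (.e true (nat_lit 1) (nat_lit 305) (nat_lit 0) (nat_lit 19) (.e true (nat_lit 2) (nat_lit 306) (nat_lit 0) (nat_lit 19) (.e true (nat_lit 2) (nat_lit 308) (nat_lit 0) (nat_lit 19) (.e true (nat_lit 1) (nat_lit 309) (nat_lit 0) (nat_lit 19) (.e true (nat_lit 3) (nat_lit 310) (nat_lit 0) (nat_lit 19) (.e true (nat_lit 2) (nat_lit 299) (nat_lit 0) (nat_lit 19) (.e false (nat_lit 2) (nat_lit 304) (nat_lit 0) (nat_lit 19) (.e true (nat_lit 1) (nat_lit 311) (nat_lit 0) (nat_lit 19) (.e false (nat_lit 2) (nat_lit 313) (nat_lit 0) (nat_lit 19) dC1c_i57))))))))))))))))))))))) .leaf)) (nat_lit 97280) (nat_lit 318) (.p (nat_lit 153) (nat_lit 2) (.n (nat_lit 154) (nat_lit 1) (.n (nat_lit 155) (nat_lit 2) (.n (nat_lit 156) (nat_lit 2) (.p (nat_lit 157) (nat_lit 1) (.n (nat_lit 159) (nat_lit 1) (.n (nat_lit 160) (nat_lit 2) (.p (nat_lit 161) (nat_lit 2) (.n (nat_lit 162) (nat_lit 2) (.p (nat_lit 163) (nat_lit 3) (.p (nat_lit 164) (nat_lit 3) (.p (nat_lit 165) (nat_lit 1) (.p (nat_lit 166) (nat_lit 3) (.n (nat_lit 167) (nat_lit 3) (.n (nat_lit 168) (nat_lit 2) (.p (nat_lit 169) (nat_lit 2) (.n (nat_lit 173) (nat_lit 2) .z))))))))))))))))) (.ct dC1c_c291 (nat_lit 1) (nat_lit 9) (.s true (nat_lit 1) (nat_lit 5) (nat_lit 2) (nat_lit 0) (nat_lit 5) false (nat_lit 1) true (nat_lit 4) true (nat_lit 4) true (nat_lit 7) true (nat_lit 9) (.e true (nat_lit 1) (nat_lit 16) (nat_lit 12) (nat_lit 1) (.e false (nat_lit 1) (nat_lit 31) (nat_lit 5) (nat_lit 4) (.e false (nat_lit 1) (nat_lit 32) (nat_lit 5) (nat_lit 4) (.e true (nat_lit 1) (nat_lit 35) (nat_lit 5) (nat_lit 4) (.e true (nat_lit 1) (nat_lit 66) (nat_lit 2) (nat_lit 7) (.e true (nat_lit 1) (nat_lit 67) (nat_lit 2) (nat_lit 7) (.e true (nat_lit 1) (nat_lit 70) (nat_lit 2) (nat_lit 7) (.e false (nat_lit 1) (nat_lit 72) (nat_lit 2) (nat_lit 7) (.e true (nat_lit 1) (nat_lit 73) (nat_lit 2) (nat_lit 7) (.e false (nat_lit 1) (nat_lit 74) (nat_lit 2) (nat_lit 7) (.e true (nat_lit 1) (nat_lit 76) (nat_lit 2) (nat_lit 7) (.e false (nat_lit 1) (nat_lit 93) (nat_lit 0) (nat_lit 9) (.e false (nat_lit 1) (nat_lit 94) (nat_lit 0) (nat_lit 9) (.u (nat_lit 2) (.n (nat_lit 4) (nat_lit 1) (.n (nat_lit 7) (nat_lit 1) (.p (nat_lit 9) (nat_lit 1) (.n (nat_lit 10) (nat_lit 1) (.n (nat_lit 13) (nat_lit 1) (.p (nat_lit 15) (nat_lit 1) (.p (nat_lit 17) (nat_lit 1) (.p (nat_lit 20) (nat_lit 1) .z)))))))) .nil)))))))))))))))) (.nd (.nd (.nd .leaf (nat_lit 97282) (nat_lit 381) (.p (nat_lit 198) (nat_lit 1) .z) .df .leaf) (nat_lit 97284) (nat_lit 756) (.p (nat_lit 290) (nat_lit 1) (.p (nat_lit 292) (nat_lit 3) (.n (nat_lit 293) (nat_lit 3) (.n (nat_lit 294) (nat_lit 1) (.n (nat_lit 295) (nat_lit 1) (.n (nat_lit 296) (nat_lit 1) (.n (nat_lit 297) (nat_lit 3) (.p (nat_lit 298) (nat_lit 3) (.n (nat_lit 299) (nat_lit 2) (.p (nat_lit 300) (nat_lit 2) (.p (nat_lit 301) (nat_lit 1) (.p (nat_lit 302) (nat_lit 1) (.n (nat_lit 303) (nat_lit 3) (.n (nat_lit 304) (nat_lit 1) (.p (nat_lit 305) (nat_lit 1) (.n (nat_lit 306) (nat_lit 2) (.n (nat_lit 307) (nat_lit 3) (.p (nat_lit 308) (nat_lit 2) (.p (nat_lit 310) (nat_lit 2) (.n (nat_lit 311) (nat_lit 3) (.n (nat_lit 313) (nat_lit 3) (.n (nat_lit 314) (nat_lit 2) (.n (nat_lit 315) (nat_lit 2) (.p (nat_lit 317) (nat_lit 3) (.n (nat_lit 318) (nat_lit 1) (.p (nat_lit 319) (nat_lit 3) .z)))))))))))))))))))))))))) (.ct dC1c_c292 (nat_lit 1) (nat_lit 8) (.s true (nat_lit 1) (nat_lit 17) (nat_lit 1) (nat_lit 2) (nat_lit 4) true (nat_lit 4) true (nat_lit 8) true (nat_lit 1) true (nat_lit 11) true (nat_lit 10) (.e true (nat_lit 1) (nat_lit 44) (nat_lit 11) (nat_lit 4) (.e true (nat_lit 1) (nat_lit 31) (nat_lit 17) (nat_lit 1) (.e true (nat_lit 1) (nat_lit 32) (nat_lit 17) (nat_lit 1) (.e false (nat_lit 1) (nat_lit 35) (nat_lit 17) (nat_lit 1) (.e true (nat_lit 1) (nat_lit 36) (nat_lit 17) (nat_lit 1) (.e false (nat_lit 1) (nat_lit 180) (nat_lit 1) (nat_lit 11) (.e false (nat_lit 1) (nat_lit 181) (nat_lit 1) (nat_lit 11) (.e false (nat_lit 1) (nat_lit 183) (nat_lit 1) (nat_lit 11) (.e true (nat_lit 1) (nat_lit 184) (nat_lit 1) (nat_lit 11) dC1c_i58))))))))))) .leaf) (nat_lit 97286) (nat_lit 902) (.n (nat_lit 347) (nat_lit 3) (.p (nat_lit 348) (nat_lit 2) (.n (nat_lit 350) (nat_lit 1) (.p (nat_lit 351) (nat_lit 1) (.n (nat_lit 352) (nat_lit 1) .z))))) (.ct dC1c_c37 (nat_lit 1) (nat_lit 3) (.s true (nat_lit 1) (nat_lit 39) (nat_lit 2) (nat_lit 2) (nat_lit 2) true (nat_lit 3) true (nat_lit 5) false (nat_lit 0) true (nat_lit 5) true (nat_lit 5) (.e false (nat_lit 1) (nat_lit 198) (nat_lit 2) (nat_lit 5) (.e false (nat_lit 1) (nat_lit 39) (nat_lit 18) (nat_lit 0) (.e false (nat_lit 3) (nat_lit 196) (nat_lit 2) (nat_lit 5) (.e true (nat_lit 3) (nat_lit 197) (nat_lit 2) (nat_lit 5) (.e false (nat_lit 1) (nat_lit 199) (nat_lit 2) (nat_lit 5) (.e true (nat_lit 3) (nat_lit 201) (nat_lit 2) (nat_lit 5) (.u (nat_lit 2) (.p (nat_lit 0) (nat_lit 1) (.n (nat_lit 1) (nat_lit 1) .z)) .nil))))))))) (.nd (.nd .leaf (nat_lit 97289) (nat_lit 1033) (.n (nat_lit 355) (nat_lit 2) (.n (nat_lit 356) (nat_lit 3) (.p (nat_lit 357) (nat_lit 1) (.p (nat_lit 359) (nat_lit 2) (.n (nat_lit 362) (nat_lit 1) (.p (nat_lit 363) (nat_lit 3) (.n (nat_lit 364) (nat_lit 3) (.n (nat_lit 365) (nat_lit 2) (.p (nat_lit 368) (nat_lit 1) (.n (nat_lit 369) (nat_lit 1) (.p (nat_lit 370) (nat_lit 3) (.p (nat_lit 371) (nat_lit 3) (.p (nat_lit 372) (nat_lit 1) (.p (nat_lit 373) (nat_lit 3) (.p (nat_lit 375) (nat_lit 1) (.n (nat_lit 378) (nat_lit 3) (.n (nat_lit 379) (nat_lit 2) (.n (nat_lit 380) (nat_lit 2) (.p (nat_lit 381) (nat_lit 1) (.n (nat_lit 383) (nat_lit 1) (.p (nat_lit 384) (nat_lit 1) (.n (nat_lit 386) (nat_lit 3) (.p (nat_lit 388) (nat_lit 2) (.n (nat_lit 389) (nat_lit 1) (.p (nat_lit 390) (nat_lit 1) (.p (nat_lit 391) (nat_lit 3) (.n (nat_lit 394) (nat_lit 2) (.p (nat_lit 395) (nat_lit 1) (.n (nat_lit 404) (nat_lit 2) (.p (nat_lit 405) (nat_lit 1) (.n (nat_lit 406) (nat_lit 1) (.p (nat_lit 407) (nat_lit 3) (.n (nat_lit 408) (nat_lit 3) (.p (nat_lit 409) (nat_lit 2) (.p (nat_lit 410) (nat_lit 2) (.n (nat_lit 412) (nat_lit 3) (.p (nat_lit 413) (nat_lit 3) (.p (nat_lit 414) (nat_lit 2) .z)))))))))))))))))))))))))))))))))))))) (.ct dC1c_c548 (nat_lit 1) (nat_lit 10) (.s true (nat_lit 1) (nat_lit 95) (nat_lit 0) (nat_lit 2) (nat_lit 0) false (nat_lit 20) true (nat_lit 19) false (nat_lit 10) true (nat_lit 19) true (nat_lit 17) (.e true (nat_lit 1) (nat_lit 290) (nat_lit 0) (nat_lit 19) (.e false (nat_lit 1) (nat_lit 291) (nat_lit 0) (nat_lit 19) (.e true (nat_lit 2) (nat_lit 292) (nat_lit 0) (nat_lit 19) (.e true (nat_lit 1) (nat_lit 293) (nat_lit 0) (nat_lit 19) (.e true (nat_lit 2) (nat_lit 294) (nat_lit 0) (nat_lit 19) (.e true (nat_lit 1) (nat_lit 297) (nat_lit 0) (nat_lit 19) (.e false (nat_lit 1) (nat_lit 298) (nat_lit 0) (nat_lit 19) (.e true (nat_lit 1) (nat_lit 300) (nat_lit 0) (nat_lit 19) (.e true (nat_lit 2) (nat_lit 301) (nat_lit 0) (nat_lit 19) (.e false (nat_lit 1) (nat_lit 303) (nat_lit 0) (nat_lit 19) (.e false (nat_lit 2) (nat_lit 304) (nat_lit 0) (nat_lit 19) (.e false (nat_lit 3) (nat_lit 305) (nat_lit 0) (nat_lit 19) (.e false (nat_lit 3) (nat_lit 306) (nat_lit 0) (nat_lit 19) (.e true (nat_lit 3) (nat_lit 310) (nat_lit 0) (nat_lit 19) (.e true (nat_lit 1) (nat_lit 295) (nat_lit 0) (nat_lit 19) (.e true (nat_lit 3) (nat_lit 307) (nat_lit 0) (nat_lit 19) (.e false (nat_lit 2) (nat_lit 308) (nat_lit 0) (nat_lit 19) dC1c_i59))))))))))))))))))) .leaf) (nat_lit 98304) (nat_lit 321) (.n (nat_lit 153) (nat_lit 1) (.n (nat_lit 155) (nat_lit 2) (.p (nat_lit 156) (nat_lit 3) (.n (nat_lit 157) (nat_lit 3) (.p (nat_lit 158) (nat_lit 2) (.p (nat_lit 159) (nat_lit 3) (.n (nat_lit 160) (nat_lit 2) (.n (nat_lit 162) (nat_lit 1) (.p (nat_lit 163) (nat_lit 1) (.p (nat_lit 164) (nat_lit 2) (.p (nat_lit 165) (nat_lit 1) (.n (nat_lit 166) (nat_lit 1) (.n (nat_lit 167) (nat_lit 3) (.p (nat_lit 169) (nat_lit 1) (.p (nat_lit 170) (nat_lit 3) (.n (nat_lit 171) (nat_lit 2) (.n (nat_lit 172) (nat_lit 2) (.p (nat_lit 173) (nat_lit 2) .z)))))))))))))))))) (.ct dC1c_c291 (nat_lit 1) (nat_lit 9) (.s true (nat_lit 1) (nat_lit 16) (nat_lit 0) (nat_lit 2) (nat_lit 1) true (nat_lit 6) true (nat_lit 8) false (nat_lit 1) true (nat_lit 9) true (nat_lit 7) (.e true (nat_lit 1) (nat_lit 43) (nat_lit 3) (nat_lit 6) (.e true (nat_lit 1) (nat_lit 87) (nat_lit 1) (nat_lit 8) (.e true (nat_lit 1) (nat_lit 16) (nat_lit 11) (nat_lit 1) (.e true (nat_lit 1) (nat_lit 94) (nat_lit 0) (nat_lit 9) (.e false (nat_lit 1) (nat_lit 97) (nat_lit 0) (nat_lit 9) (.e true (nat_lit 2) (nat_lit 67) (nat_lit 2) (nat_lit 7) (.e true (nat_lit 1) (nat_lit 68) (nat_lit 2) (nat_lit 7) (.e false (nat_lit 1) (nat_lit 69) (nat_lit 2) (nat_lit 7) (.e true (nat_lit 1) (nat_lit 70) (nat_lit 2) (nat_lit 7) (.e false (nat_lit 2) (nat_lit 72) (nat_lit 2) (nat_lit 7) (.e true (nat_lit 1) (nat_lit 73) (nat_lit 2) (nat_lit 7) (.e false (nat_lit 1) (nat_lit 74) (nat_lit 2) (nat_lit 7) (.e true (nat_lit 1) (nat_lit 75) (nat_lit 2) (nat_lit 7) (.e true (nat_lit 2) (nat_lit 76) (nat_lit 2) (nat_lit 7) (.u (nat_lit 2) (.n (nat_lit 0) (nat_lit 1) (.n (nat_lit 1) (nat_lit 1) (.p (nat_lit 2) (nat_lit 1) (.n (nat_lit 5) (nat_lit 1) (.p (nat_lit 7) (nat_lit 1) (.p (nat_lit 8) (nat_lit 1) (.p (nat_lit 19) (nat_lit 1) (.n (nat_lit 20) (nat_lit 1) .z)))))))) .nil))))))))))))))))) .leaf))))))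

noncomputable def dC1c_t1 : Tr := (.nd (.nd (.nd (.nd (.nd (.nd (.nd .leaf (nat_lit 98308) (nat_lit 759) (.p (nat_lit 290) (nat_lit 2) (.p (nat_lit 291) (nat_lit 1) (.n (nat_lit 292) (nat_lit 2) (.p (nat_lit 293) (nat_lit 1) (.p (nat_lit 294) (nat_lit 3) (.p (nat_lit 295) (nat_lit 1) (.p (nat_lit 298) (nat_lit 3) (.n (nat_lit 299) (nat_lit 3) (.n (nat_lit 300) (nat_lit 2) (.p (nat_lit 301) (nat_lit 2) (.n (nat_lit 302) (nat_lit 2) (.p (nat_lit 304) (nat_lit 3) (.n (nat_lit 305) (nat_lit 3) (.n (nat_lit 307) (nat_lit 3) (.p (nat_lit 308) (nat_lit 2) (.p (nat_lit 309) (nat_lit 1) (.n (nat_lit 311) (nat_lit 1) (.p (nat_lit 313) (nat_lit 1) (.n (nat_lit 315) (nat_lit 1) (.n (nat_lit 316) (nat_lit 1) (.n (nat_lit 318) (nat_lit 1) (.p (nat_lit 319) (nat_lit 1) .z)))))))))))))))))))))) (.ct dC1c_c292 (nat_lit 1) (nat_lit 8) (.s false (nat_lit 1) (nat_lit 43) (nat_lit 2) (nat_lit 1) (nat_lit 0) true (nat_lit 8) true (nat_lit 12) false (nat_lit 4) true (nat_lit 10) true (nat_lit 11) (.e false (nat_lit 1) (nat_lit 200) (nat_lit 0) (nat_lit 12) (.e true (nat_lit 1) (nat_lit 43) (nat_lit 12) (nat_lit 4) (.e true (nat_lit 3) (nat_lit 153) (nat_lit 2) (nat_lit 10) (.e true (nat_lit 2) (nat_lit 154) (nat_lit 2) (nat_lit 10) (.e false (nat_lit 2) (nat_lit 155) (nat_lit 2) (nat_lit 10) (.e true (nat_lit 2) (nat_lit 156) (nat_lit 2) (nat_lit 10) (.e false (nat_lit 1) (nat_lit 161) (nat_lit 2) (nat_lit 10) (.e true (nat_lit 1) (nat_lit 162) (nat_lit 2) (nat_lit 10) (.e false (nat_lit 1) (nat_lit 164) (nat_lit 2) (nat_lit 10) (.e false (nat_lit 1) (nat_lit 170) (nat_lit 2) (nat_lit 10) (.e true (nat_lit 1) (nat_lit 171) (nat_lit 2) (nat_lit 10) (.e true (nat_lit 1) (nat_lit 173) (nat_lit 2) (nat_lit 10) (.e true (nat_lit 1) (nat_lit 187) (nat_lit 1) (nat_lit 11) (.u (nat_lit 2) (.n (nat_lit 0) (nat_lit 1) (.n (nat_lit 5) (nat_lit 1) (.n (nat_lit 8) (nat_lit 1) (.p (nat_lit 10) (nat_lit 1) (.n (nat_lit 12) (nat_lit 1) (.p (nat_lit 17) (nat_lit 1) (.n (nat_lit 18) (nat_lit 1) .z))))))) .nil)))))))))))))))) .leaf) (nat_lit 98310) (nat_lit 916) (.n (nat_lit 347) (nat_lit 3) (.p (nat_lit 348) (nat_lit 1) (.p (nat_lit 349) (nat_lit 2) (.n (nat_lit 350) (nat_lit 3) (.n (nat_lit 352) (nat_lit 3) (.p (nat_lit 353) (nat_lit 1) .z)))))) (.ct dC1c_c37 (nat_lit 1) (nat_lit 3) (.s false (nat_lit 1) (nat_lit 43) (nat_lit 2) (nat_lit 1) (nat_lit 2) true (nat_lit 3) true (nat_lit 5) false (nat_lit 1) true (nat_lit 5) true (nat_lit 6) (.e false (nat_lit 1) (nat_lit 200) (nat_lit 2) (nat_lit 5) (.e true (nat_lit 1) (nat_lit 43) (nat_lit 16) (nat_lit 1) (.e false (nat_lit 1) (nat_lit 197) (nat_lit 2) (nat_lit 5) (.e false (nat_lit 1) (nat_lit 199) (nat_lit 2) (nat_lit 5) (.e true (nat_lit 1) (nat_lit 201) (nat_lit 2) (nat_lit 5) (.e false (nat_lit 1) (nat_lit 207) (nat_lit 1) (nat_lit 6) (.u (nat_lit 2) (.p (nat_lit 0) (nat_lit 1) (.n (nat_lit 2) (nat_lit 1) (.p (nat_lit 3) (nat_lit 1) .z))) .nil))))))))) (.nd .leaf (nat_lit 98313) (nat_lit 1034) (.n (nat_lit 355) (nat_lit 2) (.n (nat_lit 356) (nat_lit 2) (.p (nat_lit 357) (nat_lit 3) (.p (nat_lit 358) (nat_lit 1) (.p (nat_lit 359) (nat_lit 3) (.n (nat_lit 361) (nat_lit 1) (.n (nat_lit 363) (nat_lit 2) (.p (nat_lit 364) (nat_lit 2) (.n (nat_lit 365) (nat_lit 1) (.n (nat_lit 366) (nat_lit 1) (.p (nat_lit 367) (nat_lit 1) (.p (nat_lit 368) (nat_lit 1) (.p (nat_lit 369) (nat_lit 2) (.p (nat_lit 370) (nat_lit 2) (.n (nat_lit 371) (nat_lit 1) (.p (nat_lit 372) (nat_lit 2) (.n (nat_lit 373) (nat_lit 3) (.p (nat_lit 374) (nat_lit 2) (.p (nat_lit 375) (nat_lit 2) (.p (nat_lit 378) (nat_lit 1) (.n (nat_lit 380) (nat_lit 1) (.n (nat_lit 381) (nat_lit 1) (.n (nat_lit 382) (nat_lit 2) (.p (nat_lit 383) (nat_lit 3) (.n (nat_lit 384) (nat_lit 2) (.p (nat_lit 385) (nat_lit 1) (.n (nat_lit 386) (nat_lit 2) (.p (nat_lit 387) (nat_lit 3) (.n (nat_lit 388) (nat_lit 3) (.n (nat_lit 389) (nat_lit 2) (.p (nat_lit 390) (nat_lit 3) (.n (nat_lit 391) (nat_lit 1) (.n (nat_lit 393) (nat_lit 1) (.n (nat_lit 394) (nat_lit 3) (.p (nat_lit 395) (nat_lit 1) (.p (nat_lit 396) (nat_lit 2) (.p (nat_lit 404) (nat_lit 1) (.n (nat_lit 405) (nat_lit 1) (.p (nat_lit 406) (nat_lit 1) (.n (nat_lit 407) (nat_lit 1) (.n (nat_lit 408) (nat_lit 2) (.p (nat_lit 409) (nat_lit 2) (.n (nat_lit 410) (nat_lit 1) (.p (nat_lit 412) (nat_lit 1) (.n (nat_lit 413) (nat_lit 1) (.p (nat_lit 414) (nat_lit 1) .z)))))))))))))))))))))))))))))))))))))))))))))) (.ct dC1c_c548 (nat_lit 1) (nat_lit 10) (.s true (nat_lit 1) (nat_lit 96) (nat_lit 0) (nat_lit 2) (nat_lit 0) false (nat_lit 20) true (nat_lit 19) false (nat_lit 10) true (nat_lit 19) true (nat_lit 17) (.e false (nat_lit 3) (nat_lit 290) (nat_lit 0) (nat_lit 19) (.e true (nat_lit 2) (nat_lit 293) (nat_lit 0) (nat_lit 19) (.e true (nat_lit 1) (nat_lit 294) (nat_lit 0) (nat_lit 19) (.e true (nat_lit 1) (nat_lit 295) (nat_lit 0) (nat_lit 19) (.e true (nat_lit 3) (nat_lit 296) (nat_lit 0) (nat_lit 19) (.e false (nat_lit 2) (nat_lit 297) (nat_lit 0) (nat_lit 19) (.e true (nat_lit 2) (nat_lit 299) (nat_lit 0) (nat_lit 19) (.e true (nat_lit 3) (nat_lit 300) (nat_lit 0) (nat_lit 19) (.e true (nat_lit 3) (nat_lit 302) (nat_lit 0) (nat_lit 19) (.e false (nat_lit 1) (nat_lit 303) (nat_lit 0) (nat_lit 19) (.e true (nat_lit 1) (nat_lit 304) (nat_lit 0) (nat_lit 19) (.e true (nat_lit 1) (nat_lit 306) (nat_lit 0) (nat_lit 19) (.e false (nat_lit 1) (nat_lit 307) (nat_lit 0) (nat_lit 19) (.e true (nat_lit 3) (nat_lit 308) (nat_lit 0) (nat_lit 19) (.e false (nat_lit 3) (nat_lit 309) (nat_lit 0) (nat_lit 19) (.e true (nat_lit 2) (nat_lit 310) (nat_lit 0) (nat_lit 19) (.e false (nat_lit 1) (nat_lit 291) (nat_lit 0) (nat_lit 19) (.e false (nat_lit 3) (nat_lit 298) (nat_lit 0) (nat_lit 19) dC1c_i60)))))))))))))))))))) .leaf)) (nat_lit 98318) (nat_lit 1553) (.p (nat_lit 460) (nat_lit 1) (.n (nat_lit 462) (nat_lit 3) (.n (nat_lit 463) (nat_lit 2) (.p (nat_lit 465) (nat_lit 2) (.n (nat_lit 467) (nat_lit 3) (.p (nat_lit 468) (nat_lit 1) (.n (nat_lit 469) (nat_lit 3) (.p (nat_lit 471) (nat_lit 2) (.p (nat_lit 472) (nat_lit 2) (.p (nat_lit 473) (nat_lit 1) (.p (nat_lit 474) (nat_lit 1) (.p (nat_lit 475) (nat_lit 2) (.p (nat_lit 476) (nat_lit 1) (.n (nat_lit 477) (nat_lit 3) (.p (nat_lit 478) (nat_lit 3) (.n (nat_lit 479) (nat_lit 1) (.n (nat_lit 480) (nat_lit 3) (.n (nat_lit 482) (nat_lit 3) (.p (nat_lit 483) (nat_lit 1) (.n (nat_lit 485) (nat_lit 1) (.n (nat_lit 487) (nat_lit 1) (.p (nat_lit 488) (nat_lit 1) (.p (nat_lit 489) (nat_lit 3) (.p (nat_lit 492) (nat_lit 3) (.p (nat_lit 493) (nat_lit 1) .z))))))))))))))))))))))))) (.ct dC1c_c293 (nat_lit 1) (nat_lit 5) (.s true (nat_lit 1) (nat_lit 16) (nat_lit 2) (nat_lit 1) (nat_lit 14) false (nat_lit 0) true (nat_lit 5) true (nat_lit 4) true (nat_lit 13) true (nat_lit 14) (.e false (nat_lit 1) (nat_lit 40) (nat_lit 38) (nat_lit 0) (.e true (nat_lit 1) (nat_lit 82) (nat_lit 16) (nat_lit 4) (.e true (nat_lit 1) (nat_lit 83) (nat_lit 16) (nat_lit 4) (.e false (nat_lit 1) (nat_lit 86) (nat_lit 16) (nat_lit 4) (.e true (nat_lit 2) (nat_lit 87) (nat_lit 16) (nat_lit 4) (.e true (nat_lit 1) (nat_lit 89) (nat_lit 16) (nat_lit 4) (.e false (nat_lit 1) (nat_lit 92) (nat_lit 16) (nat_lit 4) (.e false (nat_lit 1) (nat_lit 290) (nat_lit 2) (nat_lit 13) (.e false (nat_lit 3) (nat_lit 291) (nat_lit 2) (nat_lit 13) (.e true (nat_lit 1) (nat_lit 292) (nat_lit 2) (nat_lit 13) dC1c_i61)))))))))))) (.nd (.nd .leaf (nat_lit 99328) (nat_lit 315) (.n (nat_lit 153) (nat_lit 3) (.n (nat_lit 154) (nat_lit 1) (.p (nat_lit 155) (nat_lit 2) (.p (nat_lit 157) (nat_lit 3) (.n (nat_lit 158) (nat_lit 3) (.p (nat_lit 159) (nat_lit 2) (.p (nat_lit 162) (nat_lit 3) (.p (nat_lit 163) (nat_lit 3) (.p (nat_lit 164) (nat_lit 3) (.p (nat_lit 165) (nat_lit 3) (.n (nat_lit 166) (nat_lit 2) (.n (nat_lit 167) (nat_lit 2) (.p (nat_lit 168) (nat_lit 3) (.p (nat_lit 169) (nat_lit 2) (.p (nat_lit 170) (nat_lit 1) (.p (nat_lit 172) (nat_lit 3) (.n (nat_lit 173) (nat_lit 3) .z))))))))))))))))) (.ct dC1c_c291 (nat_lit 1) (nat_lit 9) (.s false (nat_lit 1) (nat_lit 18) (nat_lit 1) (nat_lit 1) (nat_lit 0) true (nat_lit 6) true (nat_lit 9) false (nat_lit 2) true (nat_lit 8) true (nat_lit 8) (.e true (nat_lit 1) (nat_lit 45) (nat_lit 3) (nat_lit 6) (.e false (nat_lit 1) (nat_lit 93) (nat_lit 0) (nat_lit 9) (.e false (nat_lit 1) (nat_lit 94) (nat_lit 0) (nat_lit 9) (.e false (nat_lit 3) (nat_lit 83) (nat_lit 1) (nat_lit 8) (.e false (nat_lit 2) (nat_lit 84) (nat_lit 1) (nat_lit 8) (.e true (nat_lit 2) (nat_lit 85) (nat_lit 1) (nat_lit 8) (.e false (nat_lit 2) (nat_lit 90) (nat_lit 1) (nat_lit 8) (.e true (nat_lit 2) (nat_lit 82) (nat_lit 1) (nat_lit 8) (.e false (nat_lit 1) (nat_lit 86) (nat_lit 1) (nat_lit 8) (.e false (nat_lit 1) (nat_lit 91) (nat_lit 1) (nat_lit 8) (.u (nat_lit 2) (.p (nat_lit 0) (nat_lit 1) (.p (nat_lit 1) (nat_lit 1) (.n (nat_lit 2) (nat_lit 1) (.p (nat_lit 5) (nat_lit 1) (.n (nat_lit 6) (nat_lit 1) (.n (nat_lit 9) (nat_lit 1) (.n (nat_lit 10) (nat_lit 1) (.p (nat_lit 12) (nat_lit 1) (.p (nat_lit 18) (nat_lit 1) (.n (nat_lit 19) (nat_lit 1) (.p (nat_lit 20) (nat_lit 1) (.n (nat_lit 58) (nat_lit 1) .z)))))))))))) .nil))))))))))))) .leaf) (nat_lit 99330) (nat_lit 387) (.n (nat_lit 196) (nat_lit 1) (.p (nat_lit 197) (nat_lit 3) (.p (nat_lit 198) (nat_lit 3) (.n (nat_lit 199) (nat_lit 3) (.p (nat_lit 201) (nat_lit 2) .z))))) (.ct dC1c_c36 (nat_lit 1) (nat_lit 4) (.s true (nat_lit 2) (nat_lit 6) (nat_lit 2) (nat_lit 5) (nat_lit 1) true (nat_lit 3) true (nat_lit 5) true (nat_lit 2) true (nat_lit 4) true (nat_lit 3) (.s false (nat_lit 3) (nat_lit 17) (nat_lit 1) (nat_lit 2) (nat_lit 2) true (nat_lit 3) true (nat_lit 4) true (nat_lit 0) true (nat_lit 5) true (nat_lit 4) (.s true (nat_lit 2) (nat_lit 16) (nat_lit 2) (nat_lit 1) (nat_lit 2) true (nat_lit 2) true (nat_lit 4) true (nat_lit 0) true (nat_lit 4) true (nat_lit 5) (.s true (nat_lit 3) (nat_lit 16) (nat_lit 2) (nat_lit 2) (nat_lit 1) true (nat_lit 3) true (nat_lit 5) true (nat_lit 0) true (nat_lit 4) true (nat_lit 4) (.s true (nat_lit 2) (nat_lit 18) (nat_lit 1) (nat_lit 1) (nat_lit 2) true (nat_lit 3) true (nat_lit 4) false (nat_lit 1) true (nat_lit 5) true (nat_lit 5) (.a true (nat_lit 3) (nat_lit 16) (nat_lit 17) (nat_lit 0) (nat_lit 0) (.a true (nat_lit 1) (nat_lit 16) (nat_lit 16) (nat_lit 0) (nat_lit 0) (.e true (nat_lit 2) (nat_lit 104) (nat_lit 1) (nat_lit 5) (.e false (nat_lit 1) (nat_lit 105) (nat_lit 1) (nat_lit 5) (.e true (nat_lit 3) (nat_lit 94) (nat_lit 2) (nat_lit 4) (.e false (nat_lit 1) (nat_lit 95) (nat_lit 2) (nat_lit 4) (.e true (nat_lit 1) (nat_lit 96) (nat_lit 2) (nat_lit 4) (.e false (nat_lit 2) (nat_lit 102) (nat_lit 1) (nat_lit 5) (.e true (nat_lit 3) (nat_lit 43) (nat_lit 5) (nat_lit 3) (.u (nat_lit 2) (.p (nat_lit 0) (nat_lit 1) (.n (nat_lit 1) (nat_lit 1) (.p (nat_lit 3) (nat_lit 1) (.p (nat_lit 15) (nat_lit 1) (.p (nat_lit 18) (nat_lit 1) (.p (nat_lit 21) (nat_lit 1) (.n (nat_lit 22) (nat_lit 1) (.n (nat_lit 25) (nat_lit 1) .z)))))))) .nil)))))))))))))))) .leaf)) (nat_lit 99332) (nat_lit 777) (.n (nat_lit 290) (nat_lit 2) (.p (nat_lit 291) (nat_lit 3) (.p (nat_lit 292) (nat_lit 1) (.p (nat_lit 293) (nat_lit 2) (.p (nat_lit 294) (nat_lit 3) (.p (nat_lit 296) (nat_lit 1) (.n (nat_lit 297) (nat_lit 1) (.n (nat_lit 298) (nat_lit 1) (.p (nat_lit 300) (nat_lit 3) (.p (nat_lit 301) (nat_lit 3) (.p (nat_lit 302) (nat_lit 2) (.p (nat_lit 304) (nat_lit 1) (.n (nat_lit 305) (nat_lit 2) (.n (nat_lit 307) (nat_lit 2) (.p (nat_lit 308) (nat_lit 3) (.p (nat_lit 309) (nat_lit 2) (.n (nat_lit 310) (nat_lit 2) (.n (nat_lit 311) (nat_lit 1) (.p (nat_lit 313) (nat_lit 2) (.n (nat_lit 315) (nat_lit 2) (.p (nat_lit 316) (nat_lit 3) (.n (nat_lit 317) (nat_lit 3) (.p (nat_lit 319) (nat_lit 1) .z))))))))))))))))))))))) (.ct dC1c_c292 (nat_lit 1) (nat_lit 8) (.s true (nat_lit 1) (nat_lit 16) (nat_lit 0) (nat_lit 5) (nat_lit 2) true (nat_lit 8) true (nat_lit 10) true (nat_lit 1) true (nat_lit 12) true (nat_lit 7) (.e false (nat_lit 1) (nat_lit 94) (nat_lit 4) (nat_lit 8) (.e false (nat_lit 1) (nat_lit 96) (nat_lit 4) (nat_lit 8) (.e false (nat_lit 1) (nat_lit 153) (nat_lit 2) (nat_lit 10) (.e true (nat_lit 1) (nat_lit 154) (nat_lit 2) (nat_lit 10) (.e false (nat_lit 1) (nat_lit 157) (nat_lit 2) (nat_lit 10) (.e false (nat_lit 1) (nat_lit 160) (nat_lit 2) (nat_lit 10) (.e true (nat_lit 3) (nat_lit 161) (nat_lit 2) (nat_lit 10) (.e false (nat_lit 3) (nat_lit 162) (nat_lit 2) (nat_lit 10) (.e false (nat_lit 2) (nat_lit 163) (nat_lit 2) (nat_lit 10) (.e false (nat_lit 2) (nat_lit 164) (nat_lit 2) (nat_lit 10) (.e false (nat_lit 1) (nat_lit 165) (nat_lit 2) (nat_lit 10) (.e true (nat_lit 1) (nat_lit 166) (nat_lit 2) (nat_lit 10) (.e true (nat_lit 3) (nat_lit 167) (nat_lit 2) (nat_lit 10) (.e false (nat_lit 3) (nat_lit 168) (nat_lit 2) (nat_lit 10) (.e false (nat_lit 3) (nat_lit 170) (nat_lit 2) (nat_lit 10) (.e false (nat_lit 2) (nat_lit 171) (nat_lit 2) (nat_lit 10) (.e true (nat_lit 1) (nat_lit 173) (nat_lit 2) (nat_lit 10) (.e false (nat_lit 1) (nat_lit 33) (nat_lit 16) (nat_lit 1) (.e true (nat_lit 1) (nat_lit 89) (nat_lit 5) (nat_lit 7) (.u (nat_lit 2) (.p (nat_lit 0) (nat_lit 1) (.p (nat_lit 4) (nat_lit 1) (.p (nat_lit 7) (nat_lit 1) (.n (nat_lit 8) (nat_lit 1) (.n (nat_lit 9) (nat_lit 1) (.n (nat_lit 10) (nat_lit 1) (.p (nat_lit 17) (nat_lit 1) (.n (nat_lit 28) (nat_lit 1) .z)))))))) .nil)))))))))))))))))))))) (.nd (.nd (.nd .leaf (nat_lit 99334) (nat_lit 898) (.n (nat_lit 347) (nat_lit 1) (.n (nat_lit 348) (nat_lit 2) (.n (nat_lit 349) (nat_lit 1) (.n (nat_lit 350) (nat_lit 1) (.n (nat_lit 352) (nat_lit 2) .z))))) (.ct dC1c_c37 (nat_lit 1) (nat_lit 3) (.s false (nat_lit 1) (nat_lit 17) (nat_lit 2) (nat_lit 2) (nat_lit 5) true (nat_lit 1) true (nat_lit 4) true (nat_lit 1) true (nat_lit 5) true (nat_lit 5) (.s false (nat_lit 1) (nat_lit 18) (nat_lit 1) (nat_lit 5) (nat_lit 2) true (nat_lit 4) true (nat_lit 5) true (nat_lit 0) true (nat_lit 6) true (nat_lit 4) (.s false (nat_lit 1) (nat_lit 18) (nat_lit 5) (nat_lit 1) (nat_lit 2) true (nat_lit 1) true (nat_lit 5) true (nat_lit 0) true (nat_lit 4) true (nat_lit 6) (.s false (nat_lit 1) (nat_lit 45) (nat_lit 1) (nat_lit 2) (nat_lit 2) true (nat_lit 4) true (nat_lit 5) false (nat_lit 1) true (nat_lit 6) true (nat_lit 5) (.s false (nat_lit 1) (nat_lit 44) (nat_lit 2) (nat_lit 1) (nat_lit 2) true (nat_lit 3) true (nat_lit 5) false (nat_lit 1) true (nat_lit 5) true (nat_lit 6) (.s true (nat_lit 1) (nat_lit 44) (nat_lit 2) (nat_lit 2) (nat_lit 1) true (nat_lit 4) true (nat_lit 6) false (nat_lit 1) true (nat_lit 5) true (nat_lit 5) (.s true (nat_lit 1) (nat_lit 45) (nat_lit 2) (nat_lit 2) (nat_lit 1) true (nat_lit 4) true (nat_lit 6) false (nat_lit 1) true (nat_lit 5) true (nat_lit 5) (.s true (nat_lit 1) (nat_lit 46) (nat_lit 1) (nat_lit 1) (nat_lit 2) true (nat_lit 4) true (nat_lit 5) false (nat_lit 2) true (nat_lit 6) true (nat_lit 6) (.e true (nat_lit 1) (nat_lit 196) (nat_lit 2) (nat_lit 5) (.e true (nat_lit 1) (nat_lit 198) (nat_lit 2) (nat_lit 5) (.e true (nat_lit 1) (nat_lit 199) (nat_lit 2) (nat_lit 5) (.e true (nat_lit 2) (nat_lit 201) (nat_lit 2) (nat_lit 5) (.e true (nat_lit 2) (nat_lit 197) (nat_lit 2) (nat_lit 5) (.u (nat_lit 2) (.n (nat_lit 27) (nat_lit 1) (.p (nat_lit 29) (nat_lit 1) (.p (nat_lit 30) (nat_lit 1) (.p (nat_lit 32) (nat_lit 2) .z)))) .nil))))))))))))))) .leaf) (nat_lit 99337) (nat_lit 1023) (.p (nat_lit 355) (nat_lit 2) (.n (nat_lit 358) (nat_lit 2) (.n (nat_lit 360) (nat_lit 1) (.p (nat_lit 361) (nat_lit 2) (.p (nat_lit 362) (nat_lit 3) (.n (nat_lit 363) (nat_lit 1) (.p (nat_lit 364) (nat_lit 2) (.n (nat_lit 365) (nat_lit 2) (.p (nat_lit 366) (nat_lit 3) (.p (nat_lit 368) (nat_lit 2) (.p (nat_lit 369) (nat_lit 2) (.n (nat_lit 370) (nat_lit 2) (.n (nat_lit 371) (nat_lit 2) (.n (nat_lit 372) (nat_lit 2) (.p (nat_lit 373) (nat_lit 2) (.n (nat_lit 374) (nat_lit 1) (.p (nat_lit 378) (nat_lit 2) (.n (nat_lit 380) (nat_lit 2) (.n (nat_lit 381) (nat_lit 3) (.p (nat_lit 382) (nat_lit 1) (.p (nat_lit 383) (nat_lit 3) (.p (nat_lit 384) (nat_lit 3) (.n (nat_lit 385) (nat_lit 1) (.n (nat_lit 386) (nat_lit 1) (.p (nat_lit 387) (nat_lit 2) (.n (nat_lit 389) (nat_lit 1) (.n (nat_lit 390) (nat_lit 2) (.p (nat_lit 391) (nat_lit 3) (.n (nat_lit 392) (nat_lit 2) (.n (nat_lit 393) (nat_lit 3) (.p (nat_lit 395) (nat_lit 2) (.n (nat_lit 396) (nat_lit 1) (.n (nat_lit 404) (nat_lit 2) (.n (nat_lit 405) (nat_lit 1) (.p (nat_lit 406) (nat_lit 1) (.n (nat_lit 407) (nat_lit 2) (.n (nat_lit 408) (nat_lit 3) (.p (nat_lit 410) (nat_lit 2) (.p (nat_lit 412) (nat_lit 2) (.n (nat_lit 413) (nat_lit 2) (.p (nat_lit 414) (nat_lit 2) .z))))))))))))))))))))))))))))))))))))))))) (.ct dC1c_c548 (nat_lit 1) (nat_lit 10) (.s true (nat_lit 1) (nat_lit 97) (nat_lit 0) (nat_lit 2) (nat_lit 0) false (nat_lit 20) true (nat_lit 19) false (nat_lit 10) true (nat_lit 19) true (nat_lit 17) (.e false (nat_lit 1) (nat_lit 290) (nat_lit 0) (nat_lit 19) (.e true (nat_lit 3) (nat_lit 291) (nat_lit 0) (nat_lit 19) (.e true (nat_lit 1) (nat_lit 292) (nat_lit 0) (nat_lit 19) (.e false (nat_lit 3) (nat_lit 295) (nat_lit 0) (nat_lit 19) (.e true (nat_lit 1) (nat_lit 296) (nat_lit 0) (nat_lit 19) (.e true (nat_lit 3) (nat_lit 299) (nat_lit 0) (nat_lit 19) (.e true (nat_lit 1) (nat_lit 302) (nat_lit 0) (nat_lit 19) (.e false (nat_lit 2) (nat_lit 303) (nat_lit 0) (nat_lit 19) (.e false (nat_lit 3) (nat_lit 304) (nat_lit 0) (nat_lit 19) (.e false (nat_lit 2) (nat_lit 305) (nat_lit 0) (nat_lit 19) (.e true (nat_lit 2) (nat_lit 306) (nat_lit 0) (nat_lit 19) (.e true (nat_lit 3) (nat_lit 307) (nat_lit 0) (nat_lit 19) (.e true (nat_lit 1) (nat_lit 309) (nat_lit 0) (nat_lit 19) (.e false (nat_lit 1) (nat_lit 310) (nat_lit 0) (nat_lit 19) (.e false (nat_lit 2) (nat_lit 293) (nat_lit 0) (nat_lit 19) (.e true (nat_lit 1) (nat_lit 297) (nat_lit 0) (nat_lit 19) (.e true (nat_lit 1) (nat_lit 298) (nat_lit 0) (nat_lit 19) dC1c_i62))))))))))))))))))) .leaf) (nat_lit 100352) (nat_lit 327) (.p (nat_lit 178) (nat_lit 1) .z) .df (.nd (.nd .leaf (nat_lit 100353) (nat_lit 351) (.p (nat_lit 191) (nat_lit 1) .z) .df .leaf) (nat_lit 100354) (nat_lit 396) (.p (nat_lit 202) (nat_lit 1) .z) .df .leaf))) (nat_lit 100355) (nat_lit 645) (.p (nat_lit 260) (nat_lit 3) (.n (nat_lit 261) (nat_lit 3) (.n (nat_lit 263) (nat_lit 3) (.n (nat_lit 264) (nat_lit 3) (.n (nat_lit 265) (nat_lit 3) (.n (nat_lit 266) (nat_lit 1) (.n (nat_lit 267) (nat_lit 2) (.p (nat_lit 268) (nat_lit 3) (.p (nat_lit 273) (nat_lit 3) (.p (nat_lit 274) (nat_lit 2) (.p (nat_lit 277) (nat_lit 3) (.n (nat_lit 278) (nat_lit 2) (.n (nat_lit 279) (nat_lit 2) (.n (nat_lit 280) (nat_lit 1) (.p (nat_lit 283) (nat_lit 1) (.p (nat_lit 286) (nat_lit 3) (.n (nat_lit 288) (nat_lit 3) .z))))))))))))))))) (.ct dC1c_c532 (nat_lit 1) (nat_lit 9) (.s false (nat_lit 1) (nat_lit 40) (nat_lit 1) (nat_lit 2) (nat_lit 0) true (nat_lit 9) true (nat_lit 12) false (nat_lit 3) true (nat_lit 11) true (nat_lit 10) (.e false (nat_lit 1) (nat_lit 186) (nat_lit 0) (nat_lit 12) (.e false (nat_lit 1) (nat_lit 40) (nat_lit 12) (nat_lit 3) (.e false (nat_lit 1) (nat_lit 175) (nat_lit 1) (nat_lit 11) (.e false (nat_lit 1) (nat_lit 177) (nat_lit 1) (nat_lit 11) (.e true (nat_lit 1) (nat_lit 179) (nat_lit 1) (nat_lit 11) (.e true (nat_lit 1) (nat_lit 146) (nat_lit 2) (nat_lit 10) (.u (nat_lit 2) (.n (nat_lit 0) (nat_lit 1) (.p (nat_lit 7) (nat_lit 1) (.n (nat_lit 8) (nat_lit 1) (.p (nat_lit 10) (nat_lit 1) (.n (nat_lit 13) (nat_lit 1) (.n (nat_lit 17) (nat_lit 1) (.n (nat_lit 18) (nat_lit 1) (.p (nat_lit 20) (nat_lit 1) (.n (nat_lit 22) (nat_lit 1) (.p (nat_lit 29) (nat_lit 1) .z)))))))))) .nil))))))))) (.nd (.nd (.nd (.nd .leaf (nat_lit 100356) (nat_lit 818) (.p (nat_lit 320) (nat_lit 1) (.n (nat_lit 321) (nat_lit 2) (.n (nat_lit 322) (nat_lit 1) (.n (nat_lit 323) (nat_lit 2) (.p (nat_lit 324) (nat_lit 1) (.p (nat_lit 325) (nat_lit 2) (.n (nat_lit 327) (nat_lit 3) .z))))))) (.ct dC1c_c517 (nat_lit 1) (nat_lit 4) (.s true (nat_lit 1) (nat_lit 14) (nat_lit 2) (nat_lit 2) (nat_lit 4) true (nat_lit 1) true (nat_lit 4) true (nat_lit 1) true (nat_lit 5) true (nat_lit 5) (.e true (nat_lit 1) (nat_lit 40) (nat_lit 14) (nat_lit 1) (.e false (nat_lit 1) (nat_lit 41) (nat_lit 14) (nat_lit 1) (.e false (nat_lit 1) (nat_lit 42) (nat_lit 14) (nat_lit 1) (.e false (nat_lit 2) (nat_lit 175) (nat_lit 2) (nat_lit 5) (.e false (nat_lit 3) (nat_lit 177) (nat_lit 2) (nat_lit 5) (.e true (nat_lit 1) (nat_lit 174) (nat_lit 2) (nat_lit 5) (.e false (nat_lit 3) (nat_lit 176) (nat_lit 2) (nat_lit 5) (.e false (nat_lit 2) (nat_lit 179) (nat_lit 2) (nat_lit 5) (.u (nat_lit 2) (.p (nat_lit 3) (nat_lit 1) (.n (nat_lit 5) (nat_lit 1) (.p (nat_lit 7) (nat_lit 1) (.n (nat_lit 30) (nat_lit 1) .z)))) .nil))))))))))) .leaf) (nat_lit 100357) (nat_lit 877) (.p (nat_lit 328) (nat_lit 3) (.p (nat_lit 330) (nat_lit 3) (.n (nat_lit 331) (nat_lit 2) (.n (nat_lit 332) (nat_lit 3) (.p (nat_lit 334) (nat_lit 1) (.p (nat_lit 335) (nat_lit 1) (.p (nat_lit 336) (nat_lit 1) (.p (nat_lit 337) (nat_lit 1) (.n (nat_lit 338) (nat_lit 3) (.n (nat_lit 339) (nat_lit 1) (.n (nat_lit 340) (nat_lit 1) (.n (nat_lit 342) (nat_lit 1) (.p (nat_lit 343) (nat_lit 1) (.p (nat_lit 344) (nat_lit 1) (.p (nat_lit 345) (nat_lit 1) .z))))))))))))))) (.ct dC1c_c277 (nat_lit 1) (nat_lit 5) (.s false (nat_lit 1) (nat_lit 14) (nat_lit 2) (nat_lit 5) (nat_lit 2) true (nat_lit 4) true (nat_lit 8) true (nat_lit 2) true (nat_lit 8) true (nat_lit 5) (.e true (nat_lit 1) (nat_lit 82) (nat_lit 6) (nat_lit 4) (.e true (nat_lit 1) (nat_lit 83) (nat_lit 6) (nat_lit 4) (.e false (nat_lit 1) (nat_lit 86) (nat_lit 6) (nat_lit 4) (.e true (nat_lit 2) (nat_lit 87) (nat_lit 6) (nat_lit 4) (.e true (nat_lit 1) (nat_lit 89) (nat_lit 6) (nat_lit 4) (.e false (nat_lit 1) (nat_lit 92) (nat_lit 6) (nat_lit 4) (.e false (nat_lit 1) (nat_lit 195) (nat_lit 2) (nat_lit 8) (.e false (nat_lit 1) (nat_lit 43) (nat_lit 14) (nat_lit 2) (.e true (nat_lit 2) (nat_lit 180) (nat_lit 2) (nat_lit 8) (.e true (nat_lit 1) (nat_lit 181) (nat_lit 2) (nat_lit 8) (.e false (nat_lit 1) (nat_lit 182) (nat_lit 2) (nat_lit 8) (.e false (nat_lit 3) (nat_lit 183) (nat_lit 2) (nat_lit 8) (.e false (nat_lit 2) (nat_lit 184) (nat_lit 2) (nat_lit 8) (.e false (nat_lit 1) (nat_lit 186) (nat_lit 2) (nat_lit 8) (.e false (nat_lit 1) (nat_lit 187) (nat_lit 2) (nat_lit 8) (.e false (nat_lit 1) (nat_lit 188) (nat_lit 2) (nat_lit 8) (.e true (nat_lit 2) (nat_lit 189) (nat_lit 2) (nat_lit 8) (.e true (nat_lit 1) (nat_lit 190) (nat_lit 2) (nat_lit 8) (.e true (nat_lit 1) (nat_lit 191) (nat_lit 2) (nat_lit 8) (.e true (nat_lit 1) (nat_lit 193) (nat_lit 2) (nat_lit 8) (.u (nat_lit 2) (.p (nat_lit 0) (nat_lit 1) (.n (nat_lit 1) (nat_lit 1) (.p (nat_lit 3) (nat_lit 1) (.n (nat_lit 4) (nat_lit 1) (.n (nat_lit 8) (nat_lit 1) (.p (nat_lit 9) (nat_lit 1) (.p (nat_lit 10) (nat_lit 1) .z))))))) .nil))))))))))))))))))))))) .leaf) (nat_lit 100360) (nat_lit 1059) (.p (nat_lit 355) (nat_lit 3) (.n (nat_lit 356) (nat_lit 3) (.p (nat_lit 357) (nat_lit 3) (.n (nat_lit 359) (nat_lit 1) (.p (nat_lit 361) (nat_lit 1) (.n (nat_lit 362) (nat_lit 1) (.n (nat_lit 363) (nat_lit 2) (.p (nat_lit 364) (nat_lit 1) (.n (nat_lit 365) (nat_lit 2) (.p (nat_lit 366) (nat_lit 1) (.p (nat_lit 367) (nat_lit 2) (.p (nat_lit 369) (nat_lit 3) (.n (nat_lit 370) (nat_lit 1) (.n (nat_lit 372) (nat_lit 3) (.p (nat_lit 373) (nat_lit 1) (.p (nat_lit 374) (nat_lit 2) (.n (nat_lit 379) (nat_lit 1) (.n (nat_lit 380) (nat_lit 1) (.n (nat_lit 381) (nat_lit 3) (.p (nat_lit 382) (nat_lit 3) (.p (nat_lit 383) (nat_lit 1) (.p (nat_lit 384) (nat_lit 2) (.p (nat_lit 385) (nat_lit 3) (.n (nat_lit 386) (nat_lit 2) (.p (nat_lit 388) (nat_lit 2) (.p (nat_lit 389) (nat_lit 1) (.p (nat_lit 390) (nat_lit 3) (.n (nat_lit 391) (nat_lit 1) (.p (nat_lit 392) (nat_lit 1) (.n (nat_lit 393) (nat_lit 1) (.p (nat_lit 395) (nat_lit 3) (.p (nat_lit 396) (nat_lit 2) (.p (nat_lit 400) (nat_lit 1) (.p (nat_lit 401) (nat_lit 2) .z)))))))))))))))))))))))))))))))))) (.ct dC1c_c548 (nat_lit 1) (nat_lit 11) (.s false (nat_lit 1) (nat_lit 98) (nat_lit 1) (nat_lit 0) (nat_lit 1) false (nat_lit 21) true (nat_lit 18) false (nat_lit 11) true (nat_lit 18) true (nat_lit 19) (.e true (nat_lit 3) (nat_lit 260) (nat_lit 1) (nat_lit 18) (.e false (nat_lit 1) (nat_lit 261) (nat_lit 1) (nat_lit 18) (.e true (nat_lit 1) (nat_lit 262) (nat_lit 1) (nat_lit 18) (.e false (nat_lit 2) (nat_lit 263) (nat_lit 1) (nat_lit 18) (.e false (nat_lit 1) (nat_lit 264) (nat_lit 1) (nat_lit 18) (.e true (nat_lit 1) (nat_lit 265) (nat_lit 1) (nat_lit 18) (.e true (nat_lit 2) (nat_lit 266) (nat_lit 1) (nat_lit 18) (.e false (nat_lit 2) (nat_lit 268) (nat_lit 1) (nat_lit 18) (.e false (nat_lit 2) (nat_lit 269) (nat_lit 1) (nat_lit 18) (.e false (nat_lit 3) (nat_lit 270) (nat_lit 1) (nat_lit 18) (.e false (nat_lit 3) (nat_lit 271) (nat_lit 1) (nat_lit 18) (.e true (nat_lit 3) (nat_lit 272) (nat_lit 1) (nat_lit 18) (.e true (nat_lit 1) (nat_lit 274) (nat_lit 1) (nat_lit 18) (.e false (nat_lit 1) (nat_lit 277) (nat_lit 1) (nat_lit 18) (.e false (nat_lit 3) (nat_lit 278) (nat_lit 1) (nat_lit 18) (.e false (nat_lit 1) (nat_lit 281) (nat_lit 1) (nat_lit 18) (.e false (nat_lit 1) (nat_lit 282) (nat_lit 1) (nat_lit 18) (.e false (nat_lit 2) (nat_lit 283) (nat_lit 1) (nat_lit 18) (.e true (nat_lit 2) (nat_lit 286) (nat_lit 1) (nat_lit 18) (.e true (nat_lit 2) (nat_lit 287) (nat_lit 1) (nat_lit 18) (.e true (nat_lit 1) (nat_lit 289) (nat_lit 1) (nat_lit 18) dC1c_i63))))))))))))))))))))))) (.nd (.nd .leaf (nat_lit 100362) (nat_lit 1319) (.n (nat_lit 426) (nat_lit 1) (.p (nat_lit 428) (nat_lit 2) (.p (nat_lit 429) (nat_lit 3) (.p (nat_lit 430) (nat_lit 1) (.p (nat_lit 431) (nat_lit 1) (.p (nat_lit 432) (nat_lit 1) (.p (nat_lit 433) (nat_lit 1) (.n (nat_lit 434) (nat_lit 3) (.n (nat_lit 435) (nat_lit 2) (.n (nat_lit 436) (nat_lit 3) (.p (nat_lit 438) (nat_lit 3) (.n (nat_lit 439) (nat_lit 3) (.n (nat_lit 441) (nat_lit 1) (.p (nat_lit 442) (nat_lit 2) (.n (nat_lit 443) (nat_lit 1) (.p (nat_lit 444) (nat_lit 2) (.n (nat_lit 445) (nat_lit 1) (.p (nat_lit 448) (nat_lit 1) (.n (nat_lit 454) (nat_lit 2) (.p (nat_lit 456) (nat_lit 1) (.p (nat_lit 459) (nat_lit 3) .z))))))))))))))))))))) (.ct dC1c_c533 (nat_lit 1) (nat_lit 6) (.s true (nat_lit 1) (nat_lit 14) (nat_lit 2) (nat_lit 2) (nat_lit 10) true (nat_lit 0) true (nat_lit 6) true (nat_lit 5) true (nat_lit 13) true (nat_lit 13) (.e true (nat_lit 1) (nat_lit 40) (nat_lit 31) (nat_lit 0) (.e false (nat_lit 1) (nat_lit 90) (nat_lit 14) (nat_lit 5) (.e true (nat_lit 2) (nat_lit 260) (nat_lit 2) (nat_lit 13) (.e false (nat_lit 3) (nat_lit 261) (nat_lit 2) (nat_lit 13) (.e false (nat_lit 2) (nat_lit 262) (nat_lit 2) (nat_lit 13) (.e true (nat_lit 3) (nat_lit 264) (nat_lit 2) (nat_lit 13) (.e true (nat_lit 2) (nat_lit 265) (nat_lit 2) (nat_lit 13) (.e false (nat_lit 3) (nat_lit 267) (nat_lit 2) (nat_lit 13) (.e false (nat_lit 1) (nat_lit 269) (nat_lit 2) (nat_lit 13) (.e true (nat_lit 3) (nat_lit 270) (nat_lit 2) (nat_lit 13) (.e true (nat_lit 1) (nat_lit 271) (nat_lit 2) (nat_lit 13) (.e true (nat_lit 2) (nat_lit 272) (nat_lit 2) (nat_lit 13) (.e true (nat_lit 1) (nat_lit 273) (nat_lit 2) (nat_lit 13) (.e false (nat_lit 1) (nat_lit 274) (nat_lit 2) (nat_lit 13) (.e true (nat_lit 1) (nat_lit 278) (nat_lit 2) (nat_lit 13) (.e false (nat_lit 3) (nat_lit 279) (nat_lit 2) (nat_lit 13) (.e true (nat_lit 3) (nat_lit 280) (nat_lit 2) (nat_lit 13) (.e true (nat_lit 1) (nat_lit 283) (nat_lit 2) (nat_lit 13) (.e true (nat_lit 1) (nat_lit 288) (nat_lit 2) (nat_lit 13) (.e true (nat_lit 1) (nat_lit 263) (nat_lit 2) (nat_lit 13) (.e true (nat_lit 1) (nat_lit 275) (nat_lit 2) (nat_lit 13) (.u (nat_lit 2) (.p (nat_lit 0) (nat_lit 1) (.n (nat_lit 1) (nat_lit 2) (.p (nat_lit 2) (nat_lit 1) (.n (nat_lit 3) (nat_lit 2) (.p (nat_lit 4) (nat_lit 1) (.n (nat_lit 5) (nat_lit 1) (.n (nat_lit 6) (nat_lit 2) (.n (nat_lit 7) (nat_lit 2) (.n (nat_lit 8) (nat_lit 1) (.p (nat_lit 10) (nat_lit 1) (.n (nat_lit 12) (nat_lit 1) (.p (nat_lit 13) (nat_lit 1) (.p (nat_lit 15) (nat_lit 1) (.n (nat_lit 16) (nat_lit 3) (.n (nat_lit 17) (nat_lit 1) (.n (nat_lit 19) (nat_lit 1) (.p (nat_lit 22) (nat_lit 1) (.n (nat_lit 26) (nat_lit 1) (.n (nat_lit 27) (nat_lit 1) (.n (nat_lit 30) (nat_lit 1) (.n (nat_lit 33) (nat_lit 3) (.n (nat_lit 175) (nat_lit 1) (.n (nat_lit 180) (nat_lit 1) (.p (nat_lit 183) (nat_lit 1) .z)))))))))))))))))))))))) .nil)))))))))))))))))))))))) .leaf) (nat_lit 100363) (nat_lit 1295) (.n (nat_lit 426) (nat_lit 3) (.n (nat_lit 427) (nat_lit 3) (.p (nat_lit 428) (nat_lit 2) (.n (nat_lit 429) (nat_lit 1) (.n (nat_lit 430) (nat_lit 2) (.n (nat_lit 431) (nat_lit 2) (.n (nat_lit 434) (nat_lit 3) (.n (nat_lit 435) (nat_lit 2) (.n (nat_lit 436) (nat_lit 2) (.n (nat_lit 438) (nat_lit 3) (.p (nat_lit 439) (nat_lit 1) (.n (nat_lit 441) (nat_lit 2) (.p (nat_lit 443) (nat_lit 1) (.n (nat_lit 444) (nat_lit 3) (.p (nat_lit 445) (nat_lit 3) (.p (nat_lit 447) (nat_lit 1) (.n (nat_lit 448) (nat_lit 1) (.n (nat_lit 455) (nat_lit 2) (.n (nat_lit 456) (nat_lit 3) .z))))))))))))))))))) (.ct dC1c_c533 (nat_lit 1) (nat_lit 6) (.s true (nat_lit 1) (nat_lit 14) (nat_lit 2) (nat_lit 2) (nat_lit 11) true (nat_lit 0) true (nat_lit 6) true (nat_lit 5) true (nat_lit 13) true (nat_lit 13) dC1c_i64)) .leaf)) (nat_lit 100364) (nat_lit 1355) (.n (nat_lit 426) (nat_lit 1) (.p (nat_lit 427) (nat_lit 1) (.n (nat_lit 428) (nat_lit 3) (.n (nat_lit 429) (nat_lit 1) (.n (nat_lit 430) (nat_lit 3) (.p (nat_lit 431) (nat_lit 3) (.n (nat_lit 432) (nat_lit 3) (.n (nat_lit 433) (nat_lit 3) (.n (nat_lit 434) (nat_lit 3) (.n (nat_lit 435) (nat_lit 3) (.n (nat_lit 436) (nat_lit 3) (.n (nat_lit 438) (nat_lit 3) (.n (nat_lit 439) (nat_lit 2) (.n (nat_lit 441) (nat_lit 1) (.n (nat_lit 442) (nat_lit 3) (.p (nat_lit 443) (nat_lit 1) (.p (nat_lit 444) (nat_lit 2) (.p (nat_lit 447) (nat_lit 1) (.n (nat_lit 448) (nat_lit 2) (.p (nat_lit 454) (nat_lit 2) (.n (nat_lit 455) (nat_lit 2) (.p (nat_lit 456) (nat_lit 3) (.n (nat_lit 459) (nat_lit 3) .z))))))))))))))))))))))) (.ct dC1c_c533 (nat_lit 1) (nat_lit 6) (.s false (nat_lit 1) (nat_lit 98) (nat_lit 2) (nat_lit 1) (nat_lit 0) true (nat_lit 11) true (nat_lit 15) false (nat_lit 6) true (nat_lit 13) true (nat_lit 14) (.e true (nat_lit 1) (nat_lit 191) (nat_lit 4) (nat_lit 11) (.e false (nat_lit 1) (nat_lit 342) (nat_lit 0) (nat_lit 15) (.e true (nat_lit 3) (nat_lit 260) (nat_lit 2) (nat_lit 13) (.e false (nat_lit 3) (nat_lit 261) (nat_lit 2) (nat_lit 13) (.e false (nat_lit 3) (nat_lit 263) (nat_lit 2) (nat_lit 13) (.e false (nat_lit 3) (nat_lit 264) (nat_lit 2) (nat_lit 13) (.e false (nat_lit 3) (nat_lit 265) (nat_lit 2) (nat_lit 13) (.e false (nat_lit 1) (nat_lit 266) (nat_lit 2) (nat_lit 13) (.e false (nat_lit 2) (nat_lit 267) (nat_lit 2) (nat_lit 13) (.e true (nat_lit 3) (nat_lit 268) (nat_lit 2) (nat_lit 13) (.e true (nat_lit 3) (nat_lit 273) (nat_lit 2) (nat_lit 13) (.e true (nat_lit 2) (nat_lit 274) (nat_lit 2) (nat_lit 13) (.e true (nat_lit 3) (nat_lit 277) (nat_lit 2) (nat_lit 13) (.e false (nat_lit 2) (nat_lit 278) (nat_lit 2) (nat_lit 13) (.e false (nat_lit 2) (nat_lit 279) (nat_lit 2) (nat_lit 13) (.e false (nat_lit 1) (nat_lit 280) (nat_lit 2) (nat_lit 13) (.e true (nat_lit 1) (nat_lit 283) (nat_lit 2) (nat_lit 13) (.e true (nat_lit 3) (nat_lit 286) (nat_lit 2) (nat_lit 13) (.e false (nat_lit 3) (nat_lit 288) (nat_lit 2) (nat_lit 13) (.e true (nat_lit 1) (nat_lit 324) (nat_lit 1) (nat_lit 14) (.u (nat_lit 2) (.p (nat_lit 0) (nat_lit 1) (.n (nat_lit 1) (nat_lit 8) (.p (nat_lit 2) (nat_lit 4) (.n (nat_lit 3) (nat_lit 2) (.n (nat_lit 5) (nat_lit 2) (.n (nat_lit 6) (nat_lit 4) (.n (nat_lit 7) (nat_lit 4) (.p (nat_lit 8) (nat_lit 3) (.p (nat_lit 9) (nat_lit 1) (.p (nat_lit 10) (nat_lit 2) (.n (nat_lit 12) (nat_lit 2) (.p (nat_lit 13) (nat_lit 1) (.p (nat_lit 15) (nat_lit 2) (.p (nat_lit 16) (nat_lit 2) (.n (nat_lit 18) (nat_lit 3) (.n (nat_lit 19) (nat_lit 6) (.p (nat_lit 21) (nat_lit 1) (.p (nat_lit 22) (nat_lit 1) (.n (nat_lit 23) (nat_lit 1) (.p (nat_lit 24) (nat_lit 2) (.p (nat_lit 26) (nat_lit 1) (.p (nat_lit 33) (nat_lit 4) .z)))))))))))))))))))))) .nil))))))))))))))))))))))) (.nd (.nd (.nd .leaf (nat_lit 100365) (nat_lit 1429) (.n (nat_lit 478) (nat_lit 1) (.p (nat_lit 480) (nat_lit 1) (.n (nat_lit 492) (nat_lit 1) .z))) (.ct dC1c_c293 (nat_lit 1) (nat_lit 6) (.s false (nat_lit 1) (nat_lit 98) (nat_lit 2) (nat_lit 1) (nat_lit 1) true (nat_lit 10) true (nat_lit 14) false (nat_lit 6) true (nat_lit 13) true (nat_lit 14) (.e true (nat_lit 1) (nat_lit 191) (nat_lit 5) (nat_lit 10) (.e false (nat_lit 1) (nat_lit 342) (nat_lit 1) (nat_lit 14) (.e true (nat_lit 1) (nat_lit 339) (nat_lit 1) (nat_lit 14) .nil))))) .leaf) (nat_lit 101376) (nat_lit 334) (.p (nat_lit 174) (nat_lit 1) (.n (nat_lit 176) (nat_lit 2) (.n (nat_lit 177) (nat_lit 2) (.n (nat_lit 178) (nat_lit 1) (.n (nat_lit 179) (nat_lit 3) .z))))) (.ct dC1c_c516 (nat_lit 1) (nat_lit 5) (.s true (nat_lit 3) (nat_lit 4) (nat_lit 2) (nat_lit 2) (nat_lit 4) true (nat_lit 0) true (nat_lit 3) true (nat_lit 3) true (nat_lit 4) true (nat_lit 4) (.s true (nat_lit 3) (nat_lit 6) (nat_lit 4) (nat_lit 2) (nat_lit 0) true (nat_lit 1) true (nat_lit 5) true (nat_lit 2) true (nat_lit 3) true (nat_lit 4) (.s false (nat_lit 3) (nat_lit 18) (nat_lit 0) (nat_lit 2) (nat_lit 0) false (nat_lit 6) true (nat_lit 5) false (nat_lit 1) true (nat_lit 5) true (nat_lit 4) (.a false (nat_lit 2) (nat_lit 14) (nat_lit 14) (nat_lit 0) (nat_lit 0) (.e true (nat_lit 3) (nat_lit 40) (nat_lit 4) (nat_lit 3) (.e false (nat_lit 3) (nat_lit 78) (nat_lit 2) (nat_lit 4) (.e false (nat_lit 3) (nat_lit 80) (nat_lit 2) (nat_lit 4) (.e true (nat_lit 3) (nat_lit 81) (nat_lit 2) (nat_lit 4) (.e false (nat_lit 2) (nat_lit 100) (nat_lit 0) (nat_lit 5) (.e true (nat_lit 3) (nat_lit 29) (nat_lit 6) (nat_lit 2) (.e true (nat_lit 3) (nat_lit 101) (nat_lit 0) (nat_lit 5) (.u (nat_lit 2) (.n (nat_lit 0) (nat_lit 1) (.p (nat_lit 1) (nat_lit 1) (.p (nat_lit 3) (nat_lit 3) (.n (nat_lit 5) (nat_lit 1) (.n (nat_lit 6) (nat_lit 1) (.p (nat_lit 23) (nat_lit 1) (.p (nat_lit 24) (nat_lit 1) .z))))))) .nil))))))))))))) .leaf) (nat_lit 101377) (nat_lit 362) (.p (nat_lit 180) (nat_lit 3) (.p (nat_lit 181) (nat_lit 2) (.n (nat_lit 182) (nat_lit 1) (.n (nat_lit 184) (nat_lit 2) (.p (nat_lit 185) (nat_lit 3) (.p (nat_lit 186) (nat_lit 2) (.p (nat_lit 187) (nat_lit 1) (.n (nat_lit 188) (nat_lit 2) (.n (nat_lit 189) (nat_lit 2) (.n (nat_lit 190) (nat_lit 1) (.p (nat_lit 191) (nat_lit 1) (.p (nat_lit 192) (nat_lit 1) (.p (nat_lit 193) (nat_lit 2) (.p (nat_lit 195) (nat_lit 1) .z)))))))))))))) (.ct dC1c_c276 (nat_lit 1) (nat_lit 7) (.s false (nat_lit 1) (nat_lit 5) (nat_lit 4) (nat_lit 2) (nat_lit 2) true (nat_lit 0) true (nat_lit 6) true (nat_lit 3) true (nat_lit 4) true (nat_lit 6) (.s false (nat_lit 1) (nat_lit 6) (nat_lit 4) (nat_lit 1) (nat_lit 2) true (nat_lit 0) true (nat_lit 6) true (nat_lit 2) true (nat_lit 4) true (nat_lit 7) (.s false (nat_lit 1) (nat_lit 14) (nat_lit 1) (nat_lit 2) (nat_lit 2) true (nat_lit 3) true (nat_lit 6) true (nat_lit 0) true (nat_lit 7) true (nat_lit 6) (.e true (nat_lit 1) (nat_lit 83) (nat_lit 2) (nat_lit 6) (.e false (nat_lit 1) (nat_lit 87) (nat_lit 2) (nat_lit 6) (.e false (nat_lit 1) (nat_lit 88) (nat_lit 2) (nat_lit 6) (.e true (nat_lit 1) (nat_lit 17) (nat_lit 14) (nat_lit 0) (.e false (nat_lit 1) (nat_lit 89) (nat_lit 2) (nat_lit 6) (.e true (nat_lit 1) (nat_lit 92) (nat_lit 2) (nat_lit 6) (.e false (nat_lit 1) (nat_lit 32) (nat_lit 6) (nat_lit 2) (.e true (nat_lit 1) (nat_lit 100) (nat_lit 1) (nat_lit 7) (.u (nat_lit 2) (.n (nat_lit 0) (nat_lit 1) (.n (nat_lit 1) (nat_lit 1) (.n (nat_lit 5) (nat_lit 1) .z))) .nil))))))))))))) (.nd (.nd .leaf (nat_lit 101378) (nat_lit 397) (.p (nat_lit 203) (nat_lit 1) .z) .df .leaf) (nat_lit 101379) (nat_lit 654) (.n (nat_lit 260) (nat_lit 1) (.p (nat_lit 261) (nat_lit 3) (.n (nat_lit 262) (nat_lit 2) (.n (nat_lit 263) (nat_lit 2) (.n (nat_lit 264) (nat_lit 2) (.n (nat_lit 265) (nat_lit 3) (.n (nat_lit 266) (nat_lit 2) (.n (nat_lit 267) (nat_lit 3) (.n (nat_lit 268) (nat_lit 2) (.n (nat_lit 269) (nat_lit 3) (.p (nat_lit 270) (nat_lit 1) (.n (nat_lit 272) (nat_lit 1) (.n (nat_lit 273) (nat_lit 3) (.n (nat_lit 277) (nat_lit 2) (.n (nat_lit 278) (nat_lit 2) (.n (nat_lit 280) (nat_lit 1) (.p (nat_lit 281) (nat_lit 1) (.p (nat_lit 283) (nat_lit 2) (.n (nat_lit 286) (nat_lit 3) (.n (nat_lit 287) (nat_lit 1) (.n (nat_lit 288) (nat_lit 2) (.n (nat_lit 289) (nat_lit 1) .z)))))))))))))))))))))) (.ct dC1c_c532 (nat_lit 1) (nat_lit 9) (.s true (nat_lit 3) (nat_lit 15) (nat_lit 3) (nat_lit 2) (nat_lit 2) true (nat_lit 3) true (nat_lit 10) true (nat_lit 2) true (nat_lit 9) true (nat_lit 10) (.e false (nat_lit 3) (nat_lit 41) (nat_lit 10) (nat_lit 3) (.e false (nat_lit 1) (nat_lit 132) (nat_lit 2) (nat_lit 10) (.e false (nat_lit 1) (nat_lit 133) (nat_lit 2) (nat_lit 10) (.e false (nat_lit 3) (nat_lit 134) (nat_lit 2) (nat_lit 10) (.e false (nat_lit 3) (nat_lit 135) (nat_lit 2) (nat_lit 10) (.e false (nat_lit 2) (nat_lit 138) (nat_lit 2) (nat_lit 10) (.e true (nat_lit 1) (nat_lit 141) (nat_lit 2) (nat_lit 10) (.e false (nat_lit 3) (nat_lit 142) (nat_lit 2) (nat_lit 10) (.e true (nat_lit 3) (nat_lit 31) (nat_lit 15) (nat_lit 2) (.e true (nat_lit 1) (nat_lit 100) (nat_lit 3) (nat_lit 9) (.e true (nat_lit 3) (nat_lit 137) (nat_lit 2) (nat_lit 10) (.e false (nat_lit 3) (nat_lit 139) (nat_lit 2) (nat_lit 10) (.e false (nat_lit 2) (nat_lit 140) (nat_lit 2) (nat_lit 10) (.e false (nat_lit 3) (nat_lit 143) (nat_lit 2) (nat_lit 10) (.e true (nat_lit 1) (nat_lit 144) (nat_lit 2) (nat_lit 10) (.e true (nat_lit 2) (nat_lit 145) (nat_lit 2) (nat_lit 10) (.e false (nat_lit 3) (nat_lit 146) (nat_lit 2) (nat_lit 10) (.e false (nat_lit 1) (nat_lit 147) (nat_lit 2) (nat_lit 10) (.e false (nat_lit 3) (nat_lit 149) (nat_lit 2) (nat_lit 10) (.e true (nat_lit 3) (nat_lit 150) (nat_lit 2) (nat_lit 10) (.e false (nat_lit 2) (nat_lit 151) (nat_lit 2) (nat_lit 10) (.e true (nat_lit 1) (nat_lit 152) (nat_lit 2) (nat_lit 10) (.u (nat_lit 2) (.n (nat_lit 1) (nat_lit 1) (.p (nat_lit 3) (nat_lit 2) (.n (nat_lit 4) (nat_lit 1) (.n (nat_lit 5) (nat_lit 3) (.p (nat_lit 6) (nat_lit 1) (.p (nat_lit 7) (nat_lit 2) (.p (nat_lit 8) (nat_lit 1) (.p (nat_lit 9) (nat_lit 2) (.n (nat_lit 10) (nat_lit 1) (.p (nat_lit 13) (nat_lit 1) (.p (nat_lit 14) (nat_lit 2) (.p (nat_lit 15) (nat_lit 1) (.p (nat_lit 17) (nat_lit 2) (.p (nat_lit 19) (nat_lit 2) (.n (nat_lit 20) (nat_lit 1) (.n (nat_lit 21) (nat_lit 1) (.n (nat_lit 23) (nat_lit 2) (.p (nat_lit 26) (nat_lit 1) (.p (nat_lit 27) (nat_lit 1) (.n (nat_lit 28) (nat_lit 1) (.p (nat_lit 29) (nat_lit 1) (.p (nat_lit 93) (nat_lit 1) (.p (nat_lit 94) (nat_lit 1) (.n (nat_lit 96) (nat_lit 1) (.p (nat_lit 97) (nat_lit 2) (.p (nat_lit 102) (nat_lit 1) (.p (nat_lit 104) (nat_lit 1) (.p (nat_lit 105) (nat_lit 1) (.p (nat_lit 108) (nat_lit 1) (.n (nat_lit 109) (nat_lit 1) (.n (nat_lit 111) (nat_lit 1) (.p (nat_lit 115) (nat_lit 1) (.p (nat_lit 116) (nat_lit 1) .z))))))))))))))))))))))))))))))))) .nil))))))))))))))))))))))))) .leaf)))) (nat_lit 101380) (nat_lit 810) (.n (nat_lit 320) (nat_lit 3) (.p (nat_lit 323) (nat_lit 2) (.n (nat_lit 324) (nat_lit 1) (.p (nat_lit 326) (nat_lit 1) (.p (nat_lit 327) (nat_lit 1) .z))))) (.ct dC1c_c517 (nat_lit 1) (nat_lit 4) (.s false (nat_lit 1) (nat_lit 15) (nat_lit 2) (nat_lit 4) (nat_lit 2) true (nat_lit 3) true (nat_lit 5) true (nat_lit 1) true (nat_lit 5) true (nat_lit 4) (.e false (nat_lit 2) (nat_lit 77) (nat_lit 6) (nat_lit 3) (.e false (nat_lit 2) (nat_lit 78) (nat_lit 6) (nat_lit 3) (.e true (nat_lit 1) (nat_lit 79) (nat_lit 6) (nat_lit 3) (.e true (nat_lit 1) (nat_lit 81) (nat_lit 6) (nat_lit 3) (.e false (nat_lit 2) (nat_lit 174) (nat_lit 2) (nat_lit 5) (.e false (nat_lit 1) (nat_lit 175) (nat_lit 2) (nat_lit 5) (.e false (nat_lit 1) (nat_lit 177) (nat_lit 2) (nat_lit 5) (.e false (nat_lit 2) (nat_lit 178) (nat_lit 2) (nat_lit 5) (.e false (nat_lit 1) (nat_lit 179) (nat_lit 2) (nat_lit 5) (.e false (nat_lit 1) (nat_lit 40) (nat_lit 15) (nat_lit 1) (.e false (nat_lit 3) (nat_lit 176) (nat_lit 2) (nat_lit 5) (.u (nat_lit 2) (.p (nat_lit 0) (nat_lit 1) (.p (nat_lit 2) (nat_lit 1) (.p (nat_lit 5) (nat_lit 1) .z))) .nil)))))))))))))) (.nd (.nd (.nd (.nd (.nd .leaf (nat_lit 101381) (nat_lit 866) (.p (nat_lit 328) (nat_lit 3) (.n (nat_lit 330) (nat_lit 2) (.p (nat_lit 331) (nat_lit 1) (.n (nat_lit 332) (nat_lit 3) (.p (nat_lit 333) (nat_lit 3) (.p (nat_lit 334) (nat_lit 2) (.p (nat_lit 335) (nat_lit 2) (.n (nat_lit 336) (nat_lit 3) (.n (nat_lit 337) (nat_lit 3) (.p (nat_lit 338) (nat_lit 3) (.n (nat_lit 339) (nat_lit 2) (.n (nat_lit 340) (nat_lit 1) (.p (nat_lit 343) (nat_lit 1) (.p (nat_lit 344) (nat_lit 1) (.p (nat_lit 346) (nat_lit 1) .z))))))))))))))) (.ct dC1c_c277 (nat_lit 1) (nat_lit 5) (.s true (nat_lit 3) (nat_lit 15) (nat_lit 2) (nat_lit 6) (nat_lit 1) true (nat_lit 5) true (nat_lit 9) true (nat_lit 2) true (nat_lit 8) true (nat_lit 4) (.e true (nat_lit 1) (nat_lit 100) (nat_lit 5) (nat_lit 5) (.e false (nat_lit 1) (nat_lit 203) (nat_lit 1) (nat_lit 9) (.e false (nat_lit 1) (nat_lit 204) (nat_lit 1) (nat_lit 9) (.e false (nat_lit 3) (nat_lit 206) (nat_lit 1) (nat_lit 9) (.e false (nat_lit 3) (nat_lit 45) (nat_lit 15) (nat_lit 2) (.e true (nat_lit 1) (nat_lit 180) (nat_lit 2) (nat_lit 8) (.e false (nat_lit 1) (nat_lit 183) (nat_lit 2) (nat_lit 8) (.e false (nat_lit 1) (nat_lit 184) (nat_lit 2) (nat_lit 8) (.e true (nat_lit 1) (nat_lit 185) (nat_lit 2) (nat_lit 8) (.e true (nat_lit 1) (nat_lit 186) (nat_lit 2) (nat_lit 8) (.e true (nat_lit 2) (nat_lit 188) (nat_lit 2) (nat_lit 8) (.e true (nat_lit 3) (nat_lit 189) (nat_lit 2) (nat_lit 8) (.e true (nat_lit 3) (nat_lit 190) (nat_lit 2) (nat_lit 8) (.e true (nat_lit 1) (nat_lit 191) (nat_lit 2) (nat_lit 8) (.e false (nat_lit 3) (nat_lit 192) (nat_lit 2) (nat_lit 8) (.e false (nat_lit 2) (nat_lit 193) (nat_lit 2) (nat_lit 8) (.e true (nat_lit 3) (nat_lit 194) (nat_lit 2) (nat_lit 8) (.e true (nat_lit 1) (nat_lit 195) (nat_lit 2) (nat_lit 8) (.e false (nat_lit 3) (nat_lit 86) (nat_lit 6) (nat_lit 4) (.u (nat_lit 2) (.p (nat_lit 0) (nat_lit 1) (.p (nat_lit 1) (nat_lit 3) (.p (nat_lit 2) (nat_lit 3) (.n (nat_lit 3) (nat_lit 1) (.n (nat_lit 4) (nat_lit 1) (.n (nat_lit 5) (nat_lit 1) (.p (nat_lit 6) (nat_lit 1) (.p (nat_lit 7) (nat_lit 1) (.p (nat_lit 8) (nat_lit 3) (.p (nat_lit 10) (nat_lit 1) (.n (nat_lit 13) (nat_lit 1) (.p (nat_lit 52) (nat_lit 1) (.p (nat_lit 53) (nat_lit 1) (.p (nat_lit 60) (nat_lit 1) (.n (nat_lit 63) (nat_lit 1) (.n (nat_lit 64) (nat_lit 1) (.p (nat_lit 65) (nat_lit 1) (.p (nat_lit 66) (nat_lit 1) (.n (nat_lit 68) (nat_lit 1) (.p (nat_lit 71) (nat_lit 1) (.p (nat_lit 73) (nat_lit 1) (.p (nat_lit 75) (nat_lit 1) (.n (nat_lit 77) (nat_lit 1) (.n (nat_lit 78) (nat_lit 1) .z)))))))))))))))))))))))) .nil)))))))))))))))))))))) .leaf) (nat_lit 101384) (nat_lit 1064) (.p (nat_lit 355) (nat_lit 1) (.n (nat_lit 356) (nat_lit 1) (.n (nat_lit 357) (nat_lit 2) (.p (nat_lit 358) (nat_lit 2) (.p (nat_lit 359) (nat_lit 3) (.n (nat_lit 360) (nat_lit 1) (.n (nat_lit 361) (nat_lit 2) (.p (nat_lit 362) (nat_lit 2) (.n (nat_lit 364) (nat_lit 2) (.n (nat_lit 365) (nat_lit 2) (.n (nat_lit 366) (nat_lit 3) (.n (nat_lit 367) (nat_lit 3) (.p (nat_lit 369) (nat_lit 1) (.n (nat_lit 370) (nat_lit 2) (.n (nat_lit 372) (nat_lit 3) (.p (nat_lit 373) (nat_lit 3) (.n (nat_lit 374) (nat_lit 3) (.n (nat_lit 375) (nat_lit 3) (.n (nat_lit 379) (nat_lit 2) (.n (nat_lit 380) (nat_lit 2) (.p (nat_lit 381) (nat_lit 1) (.p (nat_lit 382) (nat_lit 3) (.p (nat_lit 383) (nat_lit 3) (.p (nat_lit 384) (nat_lit 3) (.n (nat_lit 385) (nat_lit 1) (.n (nat_lit 386) (nat_lit 1) (.p (nat_lit 388) (nat_lit 1) (.n (nat_lit 389) (nat_lit 2) (.n (nat_lit 390) (nat_lit 2) (.p (nat_lit 391) (nat_lit 3) (.n (nat_lit 392) (nat_lit 1) (.n (nat_lit 393) (nat_lit 2) (.n (nat_lit 395) (nat_lit 1) (.n (nat_lit 396) (nat_lit 3) (.p (nat_lit 400) (nat_lit 2) (.n (nat_lit 401) (nat_lit 3) .z)))))))))))))))))))))))))))))))))))) (.ct dC1c_c548 (nat_lit 1) (nat_lit 11) (.s false (nat_lit 1) (nat_lit 99) (nat_lit 1) (nat_lit 0) (nat_lit 1) false (nat_lit 21) true (nat_lit 18) false (nat_lit 11) true (nat_lit 18) true (nat_lit 19) (.e false (nat_lit 1) (nat_lit 264) (nat_lit 1) (nat_lit 18) (.e false (nat_lit 3) (nat_lit 266) (nat_lit 1) (nat_lit 18) (.e true (nat_lit 1) (nat_lit 267) (nat_lit 1) (nat_lit 18) (.e true (nat_lit 2) (nat_lit 268) (nat_lit 1) (nat_lit 18) (.e true (nat_lit 1) (nat_lit 273) (nat_lit 1) (nat_lit 18) (.e true (nat_lit 1) (nat_lit 274) (nat_lit 1) (nat_lit 18) (.e true (nat_lit 3) (nat_lit 277) (nat_lit 1) (nat_lit 18) (.e false (nat_lit 3) (nat_lit 279) (nat_lit 1) (nat_lit 18) (.e false (nat_lit 2) (nat_lit 280) (nat_lit 1) (nat_lit 18) (.e true (nat_lit 3) (nat_lit 286) (nat_lit 1) (nat_lit 18) (.e true (nat_lit 3) (nat_lit 288) (nat_lit 1) (nat_lit 18) (.e true (nat_lit 3) (nat_lit 289) (nat_lit 1) (nat_lit 18) (.e true (nat_lit 1) (nat_lit 270) (nat_lit 1) (nat_lit 18) (.e true (nat_lit 1) (nat_lit 272) (nat_lit 1) (nat_lit 18) (.e false (nat_lit 2) (nat_lit 265) (nat_lit 1) (nat_lit 18) (.e false (nat_lit 2) (nat_lit 282) (nat_lit 1) (nat_lit 18) (.e true (nat_lit 1) (nat_lit 271) (nat_lit 1) (nat_lit 18) (.e true (nat_lit 3) (nat_lit 283) (nat_lit 1) (nat_lit 18) (.e false (nat_lit 1) (nat_lit 287) (nat_lit 1) (nat_lit 18) (.e true (nat_lit 1) (nat_lit 260) (nat_lit 1) (nat_lit 18) (.e false (nat_lit 3) (nat_lit 281) (nat_lit 1) (nat_lit 18) (.e true (nat_lit 2) (nat_lit 262) (nat_lit 1) (nat_lit 18) dC1c_i65)))))))))))))))))))))))) .leaf) (nat_lit 101387) (nat_lit 1294) (.n (nat_lit 426) (nat_lit 2) (.n (nat_lit 427) (nat_lit 1) (.n (nat_lit 428) (nat_lit 2) (.n (nat_lit 430) (nat_lit 2) (.n (nat_lit 431) (nat_lit 2) (.n (nat_lit 432) (nat_lit 1) (.n (nat_lit 433) (nat_lit 1) (.n (nat_lit 434) (nat_lit 2) (.n (nat_lit 435) (nat_lit 1) (.n (nat_lit 436) (nat_lit 1) (.p (nat_lit 438) (nat_lit 1) (.n (nat_lit 439) (nat_lit 3) (.n (nat_lit 441) (nat_lit 2) (.n (nat_lit 442) (nat_lit 1) (.p (nat_lit 443) (nat_lit 3) (.n (nat_lit 444) (nat_lit 3) (.p (nat_lit 447) (nat_lit 2) (.n (nat_lit 448) (nat_lit 2) (.p (nat_lit 455) (nat_lit 3) (.n (nat_lit 456) (nat_lit 1) (.p (nat_lit 459) (nat_lit 1) .z))))))))))))))))))))) (.ct dC1c_c533 (nat_lit 1) (nat_lit 6) (.s true (nat_lit 1) (nat_lit 15) (nat_lit 2) (nat_lit 2) (nat_lit 11) true (nat_lit 0) true (nat_lit 6) true (nat_lit 5) true (nat_lit 13) true (nat_lit 13) (.e true (nat_lit 1) (nat_lit 41) (nat_lit 32) (nat_lit 0) (.e false (nat_lit 1) (nat_lit 91) (nat_lit 15) (nat_lit 5) (.e true (nat_lit 2) (nat_lit 263) (nat_lit 2) (nat_lit 13) (.e false (nat_lit 2) (nat_lit 264) (nat_lit 2) (nat_lit 13) (.e true (nat_lit 2) (nat_lit 265) (nat_lit 2) (nat_lit 13) (.e true (nat_lit 1) (nat_lit 268) (nat_lit 2) (nat_lit 13) (.e false (nat_lit 1) (nat_lit 270) (nat_lit 2) (nat_lit 13) (.e false (nat_lit 2) (nat_lit 271) (nat_lit 2) (nat_lit 13) (.e false (nat_lit 3) (nat_lit 272) (nat_lit 2) (nat_lit 13) (.e false (nat_lit 3) (nat_lit 273) (nat_lit 2) (nat_lit 13) (.e false (nat_lit 3) (nat_lit 274) (nat_lit 2) (nat_lit 13) (.e false (nat_lit 1) (nat_lit 277) (nat_lit 2) (nat_lit 13) (.e false (nat_lit 3) (nat_lit 279) (nat_lit 2) (nat_lit 13) (.e true (nat_lit 2) (nat_lit 284) (nat_lit 2) (nat_lit 13) (.e false (nat_lit 1) (nat_lit 287) (nat_lit 2) (nat_lit 13) (.e false (nat_lit 3) (nat_lit 260) (nat_lit 2) (nat_lit 13) (.e true (nat_lit 1) (nat_lit 262) (nat_lit 2) (nat_lit 13) (.e true (nat_lit 2) (nat_lit 276) (nat_lit 2) (nat_lit 13) (.e true (nat_lit 1) (nat_lit 278) (nat_lit 2) (nat_lit 13) (.u (nat_lit 2) (.p (nat_lit 0) (nat_lit 1) (.p (nat_lit 1) (nat_lit 3) (.p (nat_lit 3) (nat_lit 2) (.p (nat_lit 5) (nat_lit 2) (.n (nat_lit 6) (nat_lit 1) (.n (nat_lit 7) (nat_lit 1) (.n (nat_lit 8) (nat_lit 5) (.p (nat_lit 9) (nat_lit 1) (.n (nat_lit 10) (nat_lit 1) (.p (nat_lit 12) (nat_lit 1) (.p (nat_lit 15) (nat_lit 1) (.n (nat_lit 16) (nat_lit 4) (.p (nat_lit 17) (nat_lit 2) (.p (nat_lit 18) (nat_lit 1) (.p (nat_lit 19) (nat_lit 3) (.n (nat_lit 21) (nat_lit 1) (.p (nat_lit 22) (nat_lit 2) (.n (nat_lit 26) (nat_lit 1) (.n (nat_lit 30) (nat_lit 2) (.p (nat_lit 33) (nat_lit 1) (.p (nat_lit 176) (nat_lit 1) (.n (nat_lit 177) (nat_lit 1) (.n (nat_lit 185) (nat_lit 1) (.n (nat_lit 186) (nat_lit 1) .z)))))))))))))))))))))))) .nil)))))))))))))))))))))) (.nd (.nd .leaf (nat_lit 101388) (nat_lit 1344) (.p (nat_lit 426) (nat_lit 1) (.n (nat_lit 427) (nat_lit 2) (.p (nat_lit 428) (nat_lit 1) (.p (nat_lit 429) (nat_lit 3) (.n (nat_lit 430) (nat_lit 2) (.p (nat_lit 431) (nat_lit 2) (.n (nat_lit 432) (nat_lit 1) (.n (nat_lit 433) (nat_lit 1) (.n (nat_lit 434) (nat_lit 2) (.n (nat_lit 435) (nat_lit 3) (.p (nat_lit 438) (nat_lit 3) (.p (nat_lit 439) (nat_lit 2) (.n (nat_lit 441) (nat_lit 1) (.p (nat_lit 442) (nat_lit 3) (.p (nat_lit 443) (nat_lit 3) (.p (nat_lit 444) (nat_lit 2) (.n (nat_lit 445) (nat_lit 3) (.p (nat_lit 447) (nat_lit 2) (.p (nat_lit 448) (nat_lit 3) (.n (nat_lit 454) (nat_lit 3) (.p (nat_lit 455) (nat_lit 3) (.n (nat_lit 456) (nat_lit 2) (.n (nat_lit 459) (nat_lit 2) .z))))))))))))))))))))))) (.ct dC1c_c533 (nat_lit 1) (nat_lit 6) (.s false (nat_lit 3) (nat_lit 12) (nat_lit 6) (nat_lit 0) (nat_lit 6) false (nat_lit 2) true (nat_lit 9) true (nat_lit 6) true (nat_lit 9) true (nat_lit 15) (.e false (nat_lit 1) (nat_lit 133) (nat_lit 6) (nat_lit 9) (.e false (nat_lit 3) (nat_lit 135) (nat_lit 6) (nat_lit 9) (.e true (nat_lit 3) (nat_lit 136) (nat_lit 6) (nat_lit 9) (.e false (nat_lit 1) (nat_lit 137) (nat_lit 6) (nat_lit 9) (.e false (nat_lit 3) (nat_lit 138) (nat_lit 6) (nat_lit 9) (.e false (nat_lit 3) (nat_lit 140) (nat_lit 6) (nat_lit 9) (.e true (nat_lit 2) (nat_lit 142) (nat_lit 6) (nat_lit 9) (.e false (nat_lit 2) (nat_lit 147) (nat_lit 6) (nat_lit 9) (.e true (nat_lit 2) (nat_lit 148) (nat_lit 6) (nat_lit 9) (.e true (nat_lit 3) (nat_lit 150) (nat_lit 6) (nat_lit 9) (.e true (nat_lit 1) (nat_lit 100) (nat_lit 12) (nat_lit 6) (.e true (nat_lit 3) (nat_lit 132) (nat_lit 6) (nat_lit 9) (.e false (nat_lit 2) (nat_lit 139) (nat_lit 6) (nat_lit 9) (.e false (nat_lit 1) (nat_lit 141) (nat_lit 6) (nat_lit 9) (.e false (nat_lit 1) (nat_lit 143) (nat_lit 6) (nat_lit 9) (.e true (nat_lit 1) (nat_lit 152) (nat_lit 6) (nat_lit 9) (.e false (nat_lit 1) (nat_lit 341) (nat_lit 0) (nat_lit 15) (.u (nat_lit 2) (.n (nat_lit 0) (nat_lit 2) (.n (nat_lit 1) (nat_lit 1) (.n (nat_lit 2) (nat_lit 1) (.n (nat_lit 3) (nat_lit 4) (.p (nat_lit 4) (nat_lit 5) (.p (nat_lit 5) (nat_lit 3) (.p (nat_lit 6) (nat_lit 2) (.p (nat_lit 7) (nat_lit 2) (.n (nat_lit 9) (nat_lit 4) (.p (nat_lit 10) (nat_lit 1) (.p (nat_lit 12) (nat_lit 2) (.n (nat_lit 13) (nat_lit 2) (.n (nat_lit 15) (nat_lit 1) (.n (nat_lit 16) (nat_lit 2) (.n (nat_lit 17) (nat_lit 4) (.p (nat_lit 18) (nat_lit 1) (.p (nat_lit 19) (nat_lit 1) (.p (nat_lit 21) (nat_lit 3) (.n (nat_lit 23) (nat_lit 1) (.n (nat_lit 24) (nat_lit 1) (.p (nat_lit 25) (nat_lit 1) (.p (nat_lit 28) (nat_lit 1) (.n (nat_lit 29) (nat_lit 1) (.p (nat_lit 117) (nat_lit 1) (.p (nat_lit 118) (nat_lit 1) (.n (nat_lit 126) (nat_lit 1) (.n (nat_lit 128) (nat_lit 3) (.n (nat_lit 130) (nat_lit 1) (.n (nat_lit 131) (nat_lit 3) (.p (nat_lit 132) (nat_lit 1) (.n (nat_lit 133) (nat_lit 3) (.n (nat_lit 134) (nat_lit 1) (.n (nat_lit 135) (nat_lit 1) (.n (nat_lit 136) (nat_lit 1) (.n (nat_lit 140) (nat_lit 2) (.p (nat_lit 141) (nat_lit 2) (.p (nat_lit 145) (nat_lit 1) (.n (nat_lit 224) (nat_lit 1) .z)))))))))))))))))))))))))))))))))))))) .nil)))))))))))))))))))) .leaf) (nat_lit 101389) (nat_lit 1542) (.n (nat_lit 460) (nat_lit 1) (.p (nat_lit 461) (nat_lit 1) (.p (nat_lit 462) (nat_lit 2) (.p (nat_lit 463) (nat_lit 2) (.n (nat_lit 465) (nat_lit 3) (.n (nat_lit 467) (nat_lit 1) (.n (nat_lit 468) (nat_lit 3) (.n (nat_lit 469) (nat_lit 2) (.p (nat_lit 470) (nat_lit 1) (.n (nat_lit 472) (nat_lit 2) (.p (nat_lit 473) (nat_lit 1) (.p (nat_lit 474) (nat_lit 1) (.p (nat_lit 475) (nat_lit 1) (.n (nat_lit 476) (nat_lit 1) (.p (nat_lit 477) (nat_lit 2) (.n (nat_lit 478) (nat_lit 2) (.p (nat_lit 479) (nat_lit 1) (.p (nat_lit 480) (nat_lit 2) (.n (nat_lit 489) (nat_lit 3) (.n (nat_lit 492) (nat_lit 2) (.n (nat_lit 493) (nat_lit 2) .z))))))))))))))))))))) (.ct dC1c_c293 (nat_lit 1) (nat_lit 6) (.s false (nat_lit 1) (nat_lit 46) (nat_lit 5) (nat_lit 0) (nat_lit 1) true (nat_lit 6) true (nat_lit 14) false (nat_lit 2) true (nat_lit 10) true (nat_lit 15) (.e false (nat_lit 1) (nat_lit 101) (nat_lit 13) (nat_lit 6) (.e true (nat_lit 2) (nat_lit 328) (nat_lit 1) (nat_lit 14) (.e false (nat_lit 2) (nat_lit 329) (nat_lit 1) (nat_lit 14) (.e false (nat_lit 3) (nat_lit 331) (nat_lit 1) (nat_lit 14) (.e false (nat_lit 2) (nat_lit 332) (nat_lit 1) (nat_lit 14) (.e true (nat_lit 1) (nat_lit 334) (nat_lit 1) (nat_lit 14) (.e true (nat_lit 1) (nat_lit 335) (nat_lit 1) (nat_lit 14) (.e false (nat_lit 3) (nat_lit 337) (nat_lit 1) (nat_lit 14) (.e false (nat_lit 1) (nat_lit 336) (nat_lit 1) (nat_lit 14) (.e true (nat_lit 3) (nat_lit 330) (nat_lit 1) (nat_lit 14) (.e false (nat_lit 1) (nat_lit 333) (nat_lit 1) (nat_lit 14) (.e true (nat_lit 2) (nat_lit 341) (nat_lit 1) (nat_lit 14) (.e true (nat_lit 1) (nat_lit 46) (nat_lit 27) (nat_lit 2) (.e true (nat_lit 1) (nat_lit 181) (nat_lit 5) (nat_lit 10) (.e false (nat_lit 1) (nat_lit 182) (nat_lit 5) (nat_lit 10) (.e true (nat_lit 1) (nat_lit 183) (nat_lit 5) (nat_lit 10) (.e false (nat_lit 1) (nat_lit 185) (nat_lit 5) (nat_lit 10) (.e false (nat_lit 1) (nat_lit 192) (nat_lit 5) (nat_lit 10) (.e false (nat_lit 3) (nat_lit 347) (nat_lit 0) (nat_lit 15) (.e true (nat_lit 2) (nat_lit 350) (nat_lit 0) (nat_lit 15) (.e false (nat_lit 1) (nat_lit 351) (nat_lit 0) (nat_lit 15) (.e true (nat_lit 1) (nat_lit 353) (nat_lit 0) (nat_lit 15) (.u (nat_lit 2) (.p (nat_lit 0) (nat_lit 1) (.n (nat_lit 2) (nat_lit 2) (.n (nat_lit 3) (nat_lit 1) (.n (nat_lit 5) (nat_lit 2) (.n (nat_lit 6) (nat_lit 1) (.n (nat_lit 7) (nat_lit 1) (.p (nat_lit 8) (nat_lit 1) (.n (nat_lit 9) (nat_lit 1) (.p (nat_lit 11) (nat_lit 1) (.n (nat_lit 12) (nat_lit 1) (.p (nat_lit 13) (nat_lit 1) (.p (nat_lit 14) (nat_lit 1) (.n (nat_lit 15) (nat_lit 1) (.p (nat_lit 16) (nat_lit 1) (.n (nat_lit 17) (nat_lit 1) (.n (nat_lit 18) (nat_lit 1) (.p (nat_lit 20) (nat_lit 1) (.p (nat_lit 23) (nat_lit 1) (.n (nat_lit 26) (nat_lit 1) (.p (nat_lit 29) (nat_lit 2) (.p (nat_lit 33) (nat_lit 1) (.p (nat_lit 213) (nat_lit 1) .z)))))))))))))))))))))) .nil))))))))))))))))))))))))) .leaf)) (nat_lit 102400) (nat_lit 330) (.n (nat_lit 174) (nat_lit 3) (.p (nat_lit 175) (nat_lit 2) (.n (nat_lit 176) (nat_lit 1) (.n (nat_lit 177) (nat_lit 1) (.p (nat_lit 178) (nat_lit 1) (.n (nat_lit 179) (nat_lit 2) .z)))))) (.ct dC1c_c516 (nat_lit 1) (nat_lit 5) (.s false (nat_lit 3) (nat_lit 4) (nat_lit 2) (nat_lit 2) (nat_lit 4) true (nat_lit 0) true (nat_lit 3) true (nat_lit 3) true (nat_lit 4) true (nat_lit 4) (.s true (nat_lit 3) (nat_lit 6) (nat_lit 0) (nat_lit 4) (nat_lit 2) true (nat_lit 3) true (nat_lit 4) true (nat_lit 2) true (nat_lit 5) true (nat_lit 3) (.s true (nat_lit 3) (nat_lit 9) (nat_lit 2) (nat_lit 2) (nat_lit 2) true (nat_lit 2) true (nat_lit 4) true (nat_lit 1) true (nat_lit 4) true (nat_lit 4) (.s true (nat_lit 1) (nat_lit 15) (nat_lit 0) (nat_lit 2) (nat_lit 2) true (nat_lit 3) true (nat_lit 4) true (nat_lit 0) true (nat_lit 5) true (nat_lit 4) (.s false (nat_lit 1) (nat_lit 14) (nat_lit 2) (nat_lit 2) (nat_lit 0) true (nat_lit 3) true (nat_lit 5) true (nat_lit 0) true (nat_lit 4) true (nat_lit 4) (.s false (nat_lit 2) (nat_lit 15) (nat_lit 2) (nat_lit 2) (nat_lit 0) true (nat_lit 3) true (nat_lit 5) true (nat_lit 0) true (nat_lit 4) true (nat_lit 4) (.s false (nat_lit 3) (nat_lit 18) (nat_lit 2) (nat_lit 0) (nat_lit 0) true (nat_lit 3) true (nat_lit 5) false (nat_lit 1) true (nat_lit 4) true (nat_lit 5) (.a true (nat_lit 2) (nat_lit 14) (nat_lit 14) (nat_lit 0) (nat_lit 0) (.a false (nat_lit 1) (nat_lit 14) (nat_lit 15) (nat_lit 0) (nat_lit 0) (.a false (nat_lit 1) (nat_lit 15) (nat_lit 15) (nat_lit 0) (nat_lit 0) (.e true (nat_lit 3) (nat_lit 40) (nat_lit 4) (nat_lit 3) (.e true (nat_lit 1) (nat_lit 78) (nat_lit 2) (nat_lit 4) (.e false (nat_lit 3) (nat_lit 80) (nat_lit 2) (nat_lit 4) (.e true (nat_lit 3) (nat_lit 77) (nat_lit 2) (nat_lit 4) (.e true (nat_lit 1) (nat_lit 79) (nat_lit 2) (nat_lit 4) (.e false (nat_lit 1) (nat_lit 101) (nat_lit 0) (nat_lit 5) (.e false (nat_lit 1) (nat_lit 98) (nat_lit 0) (nat_lit 5) (.u (nat_lit 2) (.p (nat_lit 3) (nat_lit 1) (.p (nat_lit 6) (nat_lit 1) (.p (nat_lit 14) (nat_lit 1) (.p (nat_lit 15) (nat_lit 1) (.p (nat_lit 17) (nat_lit 1) (.n (nat_lit 19) (nat_lit 1) (.n (nat_lit 20) (nat_lit 1) (.p (nat_lit 21) (nat_lit 1) (.p (nat_lit 23) (nat_lit 1) (.n (nat_lit 25) (nat_lit 1) .z)))))))))) .nil))))))))))))))))))) (.nd (.nd (.nd .leaf (nat_lit 102401) (nat_lit 360) (.p (nat_lit 180) (nat_lit 3) (.p (nat_lit 181) (nat_lit 3) (.p (nat_lit 182) (nat_lit 1) (.n (nat_lit 183) (nat_lit 1) (.p (nat_lit 184) (nat_lit 3) (.p (nat_lit 185) (nat_lit 3) (.n (nat_lit 186) (nat_lit 1) (.n (nat_lit 187) (nat_lit 1) (.p (nat_lit 188) (nat_lit 2) (.p (nat_lit 189) (nat_lit 2) (.p (nat_lit 190) (nat_lit 1) (.n (nat_lit 192) (nat_lit 1) (.n (nat_lit 193) (nat_lit 1) .z))))))))))))) (.ct dC1c_c276 (nat_lit 1) (nat_lit 7) dC1c_i66) .leaf) (nat_lit 102402) (nat_lit 398) (.p (nat_lit 204) (nat_lit 1) .z) .df .leaf) (nat_lit 102403) (nat_lit 653) (.n (nat_lit 260) (nat_lit 1) (.n (nat_lit 261) (nat_lit 1) (.n (nat_lit 262) (nat_lit 1) (.p (nat_lit 264) (nat_lit 3) (.p (nat_lit 265) (nat_lit 3) (.n (nat_lit 266) (nat_lit 3) (.p (nat_lit 267) (nat_lit 1) (.n (nat_lit 268) (nat_lit 3) (.n (nat_lit 269) (nat_lit 3) (.n (nat_lit 273) (nat_lit 3) (.n (nat_lit 274) (nat_lit 2) (.p (nat_lit 277) (nat_lit 3) (.p (nat_lit 278) (nat_lit 2) (.p (nat_lit 279) (nat_lit 3) (.p (nat_lit 280) (nat_lit 1) (.p (nat_lit 286) (nat_lit 2) (.p (nat_lit 288) (nat_lit 3) .z))))))))))))))))) (.ct dC1c_c532 (nat_lit 1) (nat_lit 9) (.s true (nat_lit 1) (nat_lit 18) (nat_lit 0) (nat_lit 2) (nat_lit 3) true (nat_lit 5) true (nat_lit 9) true (nat_lit 0) true (nat_lit 12) true (nat_lit 10) (.e true (nat_lit 1) (nat_lit 46) (nat_lit 7) (nat_lit 5) (.e false (nat_lit 1) (nat_lit 21) (nat_lit 18) (nat_lit 0) (.e true (nat_lit 1) (nat_lit 22) (nat_lit 18) (nat_lit 0) (.e true (nat_lit 1) (nat_lit 23) (nat_lit 18) (nat_lit 0) (.e false (nat_lit 1) (nat_lit 188) (nat_lit 0) (nat_lit 12) (.e true (nat_lit 1) (nat_lit 192) (nat_lit 0) (nat_lit 12) (.e true (nat_lit 2) (nat_lit 132) (nat_lit 2) (nat_lit 10) (.e false (nat_lit 2) (nat_lit 133) (nat_lit 2) (nat_lit 10) (.e false (nat_lit 1) (nat_lit 134) (nat_lit 2) (nat_lit 10) (.e true (nat_lit 2) (nat_lit 135) (nat_lit 2) (nat_lit 10) (.e false (nat_lit 1) (nat_lit 138) (nat_lit 2) (nat_lit 10) (.e true (nat_lit 2) (nat_lit 139) (nat_lit 2) (nat_lit 10) (.e true (nat_lit 1) (nat_lit 141) (nat_lit 2) (nat_lit 10) (.e false (nat_lit 2) (nat_lit 142) (nat_lit 2) (nat_lit 10) (.e false (nat_lit 1) (nat_lit 149) (nat_lit 2) (nat_lit 10) (.e false (nat_lit 1) (nat_lit 151) (nat_lit 2) (nat_lit 10) (.u (nat_lit 2) (.p (nat_lit 1) (nat_lit 1) (.n (nat_lit 4) (nat_lit 1) (.n (nat_lit 5) (nat_lit 1) (.p (nat_lit 6) (nat_lit 1) (.n (nat_lit 9) (nat_lit 1) (.p (nat_lit 12) (nat_lit 1) (.n (nat_lit 18) (nat_lit 1) (.n (nat_lit 20) (nat_lit 1) (.n (nat_lit 28) (nat_lit 1) (.p (nat_lit 96) (nat_lit 1) (.p (nat_lit 98) (nat_lit 1) (.p (nat_lit 99) (nat_lit 1) (.n (nat_lit 102) (nat_lit 1) (.p (nat_lit 103) (nat_lit 1) (.n (nat_lit 106) (nat_lit 1) (.n (nat_lit 115) (nat_lit 1) .z)))))))))))))))) .nil))))))))))))))))))) (.nd (.nd .leaf (nat_lit 102404) (nat_lit 811) (.p (nat_lit 320) (nat_lit 3) (.p (nat_lit 321) (nat_lit 1) (.p (nat_lit 322) (nat_lit 3) (.n (nat_lit 323) (nat_lit 2) (.n (nat_lit 325) (nat_lit 3) (.n (nat_lit 326) (nat_lit 1) .z)))))) (.ct dC1c_c517 (nat_lit 1) (nat_lit 4) (.s false (nat_lit 1) (nat_lit 18) (nat_lit 4) (nat_lit 2) (nat_lit 0) true (nat_lit 2) true (nat_lit 6) true (nat_lit 0) true (nat_lit 4) true (nat_lit 5) (.e false (nat_lit 1) (nat_lit 46) (nat_lit 9) (nat_lit 2) (.e false (nat_lit 1) (nat_lit 29) (nat_lit 18) (nat_lit 0) (.e true (nat_lit 1) (nat_lit 99) (nat_lit 4) (nat_lit 4) (.e false (nat_lit 1) (nat_lit 101) (nat_lit 4) (nat_lit 4) (.e false (nat_lit 3) (nat_lit 174) (nat_lit 2) (nat_lit 5) (.e false (nat_lit 3) (nat_lit 175) (nat_lit 2) (nat_lit 5) (.e false (nat_lit 2) (nat_lit 176) (nat_lit 2) (nat_lit 5) (.e false (nat_lit 1) (nat_lit 177) (nat_lit 2) (nat_lit 5) (.e false (nat_lit 1) (nat_lit 178) (nat_lit 2) (nat_lit 5) (.e false (nat_lit 1) (nat_lit 179) (nat_lit 2) (nat_lit 5) (.u (nat_lit 2) (.p (nat_lit 1) (nat_lit 1) (.p (nat_lit 3) (nat_lit 1) .z)) .nil))))))))))))) .leaf) (nat_lit 102405) (nat_lit 849) (.p (nat_lit 328) (nat_lit 1) (.n (nat_lit 329) (nat_lit 1) (.n (nat_lit 330) (nat_lit 3) (.n (nat_lit 332) (nat_lit 1) (.p (nat_lit 334) (nat_lit 2) (.p (nat_lit 335) (nat_lit 2) (.n (nat_lit 336) (nat_lit 2) (.p (nat_lit 337) (nat_lit 3) (.n (nat_lit 338) (nat_lit 1) (.n (nat_lit 340) (nat_lit 1) (.p (nat_lit 341) (nat_lit 1) (.n (nat_lit 346) (nat_lit 1) .z)))))))))))) (.ct dC1c_c277 (nat_lit 1) (nat_lit 5) (.s false (nat_lit 3) (nat_lit 6) (nat_lit 5) (nat_lit 2) (nat_lit 4) false (nat_lit 0) true (nat_lit 6) true (nat_lit 4) true (nat_lit 5) true (nat_lit 8) (.s false (nat_lit 3) (nat_lit 10) (nat_lit 2) (nat_lit 2) (nat_lit 6) true (nat_lit 0) true (nat_lit 4) true (nat_lit 3) true (nat_lit 8) true (nat_lit 8) (.s false (nat_lit 3) (nat_lit 14) (nat_lit 2) (nat_lit 1) (nat_lit 6) true (nat_lit 0) true (nat_lit 4) true (nat_lit 2) true (nat_lit 8) true (nat_lit 9) (.s true (nat_lit 1) (nat_lit 14) (nat_lit 5) (nat_lit 2) (nat_lit 2) true (nat_lit 1) true (nat_lit 8) true (nat_lit 2) true (nat_lit 5) true (nat_lit 8) (.s true (nat_lit 3) (nat_lit 17) (nat_lit 2) (nat_lit 2) (nat_lit 4) true (nat_lit 2) true (nat_lit 6) true (nat_lit 1) true (nat_lit 8) true (nat_lit 8) (.s false (nat_lit 1) (nat_lit 16) (nat_lit 4) (nat_lit 2) (nat_lit 2) true (nat_lit 2) true (nat_lit 8) true (nat_lit 1) true (nat_lit 6) true (nat_lit 8) (.s true (nat_lit 3) (nat_lit 18) (nat_lit 0) (nat_lit 5) (nat_lit 2) true (nat_lit 6) true (nat_lit 8) true (nat_lit 0) true (nat_lit 10) true (nat_lit 5) (.s false (nat_lit 3) (nat_lit 18) (nat_lit 1) (nat_lit 2) (nat_lit 4) true (nat_lit 3) true (nat_lit 6) true (nat_lit 0) true (nat_lit 9) true (nat_lit 8) (.s false (nat_lit 3) (nat_lit 18) (nat_lit 2) (nat_lit 0) (nat_lit 5) true (nat_lit 1) true (nat_lit 5) true (nat_lit 0) true (nat_lit 8) true (nat_lit 10) (.s false (nat_lit 3) (nat_lit 34) (nat_lit 2) (nat_lit 2) (nat_lit 2) true (nat_lit 4) true (nat_lit 8) false (nat_lit 0) true (nat_lit 8) true (nat_lit 8) (.s true (nat_lit 3) (nat_lit 35) (nat_lit 2) (nat_lit 2) (nat_lit 2) true (nat_lit 4) true (nat_lit 8) false (nat_lit 0) true (nat_lit 8) true (nat_lit 8) (.s false (nat_lit 3) (nat_lit 36) (nat_lit 2) (nat_lit 2) (nat_lit 2) true (nat_lit 4) true (nat_lit 8) false (nat_lit 0) true (nat_lit 8) true (nat_lit 8) (.s false (nat_lit 3) (nat_lit 42) (nat_lit 1) (nat_lit 2) (nat_lit 2) true (nat_lit 5) true (nat_lit 8) false (nat_lit 1) true (nat_lit 9) true (nat_lit 8) dC1c_i67)))))))))))))) .leaf))) (nat_lit 102408) (nat_lit 1061) (.p (nat_lit 355) (nat_lit 2) (.n (nat_lit 356) (nat_lit 3) (.p (nat_lit 357) (nat_lit 2) (.p (nat_lit 358) (nat_lit 2) (.p (nat_lit 359) (nat_lit 2) (.p (nat_lit 360) (nat_lit 1) (.n (nat_lit 361) (nat_lit 1) (.p (nat_lit 362) (nat_lit 1) (.p (nat_lit 363) (nat_lit 2) (.p (nat_lit 365) (nat_lit 1) (.n (nat_lit 366) (nat_lit 1) (.p (nat_lit 367) (nat_lit 1) (.p (nat_lit 369) (nat_lit 3) (.p (nat_lit 370) (nat_lit 3) (.p (nat_lit 372) (nat_lit 2) (.p (nat_lit 373) (nat_lit 1) (.p (nat_lit 374) (nat_lit 1) (.p (nat_lit 375) (nat_lit 1) (.n (nat_lit 381) (nat_lit 3) (.p (nat_lit 382) (nat_lit 2) (.p (nat_lit 383) (nat_lit 1) (.p (nat_lit 384) (nat_lit 1) (.p (nat_lit 385) (nat_lit 2) (.p (nat_lit 386) (nat_lit 2) (.n (nat_lit 387) (nat_lit 2) (.n (nat_lit 388) (nat_lit 3) (.n (nat_lit 389) (nat_lit 1) (.n (nat_lit 390) (nat_lit 3) (.p (nat_lit 391) (nat_lit 3) (.n (nat_lit 393) (nat_lit 3) (.n (nat_lit 394) (nat_lit 1) (.n (nat_lit 395) (nat_lit 1) (.n (nat_lit 396) (nat_lit 1) .z))))))))))))))))))))))))))))))))) (.ct dC1c_c548 (nat_lit 1) (nat_lit 11) (.s false (nat_lit 1) (nat_lit 100) (nat_lit 1) (nat_lit 0) (nat_lit 1) false (nat_lit 21) true (nat_lit 18) false (nat_lit 11) true (nat_lit 18) true (nat_lit 19) (.e false (nat_lit 1) (nat_lit 260) (nat_lit 1) (nat_lit 18) (.e false (nat_lit 3) (nat_lit 261) (nat_lit 1) (nat_lit 18) (.e true (nat_lit 1) (nat_lit 264) (nat_lit 1) (nat_lit 18) (.e true (nat_lit 2) (nat_lit 267) (nat_lit 1) (nat_lit 18) (.e true (nat_lit 1) (nat_lit 269) (nat_lit 1) (nat_lit 18) (.e false (nat_lit 2) (nat_lit 271) (nat_lit 1) (nat_lit 18) (.e true (nat_lit 3) (nat_lit 279) (nat_lit 1) (nat_lit 18) (.e true (nat_lit 1) (nat_lit 280) (nat_lit 1) (nat_lit 18) (.e false (nat_lit 2) (nat_lit 288) (nat_lit 1) (nat_lit 18) (.e true (nat_lit 1) (nat_lit 263) (nat_lit 1) (nat_lit 18) (.e false (nat_lit 1) (nat_lit 265) (nat_lit 1) (nat_lit 18) (.e true (nat_lit 1) (nat_lit 272) (nat_lit 1) (nat_lit 18) (.e true (nat_lit 2) (nat_lit 270) (nat_lit 1) (nat_lit 18) (.e false (nat_lit 1) (nat_lit 273) (nat_lit 1) (nat_lit 18) (.e true (nat_lit 2) (nat_lit 287) (nat_lit 1) (nat_lit 18) dC1c_i68))))))))))))))))) (.nd (.nd (.nd (.nd .leaf (nat_lit 102410) (nat_lit 1309) (.n (nat_lit 426) (nat_lit 2) (.p (nat_lit 427) (nat_lit 3) (.p (nat_lit 428) (nat_lit 3) (.p (nat_lit 430) (nat_lit 1) (.p (nat_lit 431) (nat_lit 3) (.p (nat_lit 432) (nat_lit 2) (.p (nat_lit 433) (nat_lit 2) (.n (nat_lit 434) (nat_lit 3) (.n (nat_lit 435) (nat_lit 3) (.p (nat_lit 436) (nat_lit 1) (.n (nat_lit 439) (nat_lit 2) (.p (nat_lit 441) (nat_lit 3) (.p (nat_lit 442) (nat_lit 1) (.p (nat_lit 443) (nat_lit 3) (.p (nat_lit 444) (nat_lit 1) (.p (nat_lit 445) (nat_lit 3) (.n (nat_lit 456) (nat_lit 2) (.p (nat_lit 459) (nat_lit 1) .z)))))))))))))))))) (.ct dC1c_c533 (nat_lit 1) (nat_lit 6) (.s false (nat_lit 1) (nat_lit 42) (nat_lit 3) (nat_lit 2) (nat_lit 2) true (nat_lit 6) true (nat_lit 13) false (nat_lit 0) true (nat_lit 12) true (nat_lit 13) (.e true (nat_lit 2) (nat_lit 260) (nat_lit 2) (nat_lit 13) (.e false (nat_lit 2) (nat_lit 261) (nat_lit 2) (nat_lit 13) (.e false (nat_lit 1) (nat_lit 262) (nat_lit 2) (nat_lit 13) (.e false (nat_lit 1) (nat_lit 263) (nat_lit 2) (nat_lit 13) (.e true (nat_lit 1) (nat_lit 264) (nat_lit 2) (nat_lit 13) (.e true (nat_lit 3) (nat_lit 265) (nat_lit 2) (nat_lit 13) (.e false (nat_lit 2) (nat_lit 266) (nat_lit 2) (nat_lit 13) (.e true (nat_lit 1) (nat_lit 267) (nat_lit 2) (nat_lit 13) (.e false (nat_lit 3) (nat_lit 269) (nat_lit 2) (nat_lit 13) (.e false (nat_lit 1) (nat_lit 270) (nat_lit 2) (nat_lit 13) (.e false (nat_lit 2) (nat_lit 271) (nat_lit 2) (nat_lit 13) (.e true (nat_lit 3) (nat_lit 272) (nat_lit 2) (nat_lit 13) (.e false (nat_lit 2) (nat_lit 273) (nat_lit 2) (nat_lit 13) (.e true (nat_lit 2) (nat_lit 277) (nat_lit 2) (nat_lit 13) (.e false (nat_lit 1) (nat_lit 279) (nat_lit 2) (nat_lit 13) (.e true (nat_lit 1) (nat_lit 280) (nat_lit 2) (nat_lit 13) (.e true (nat_lit 1) (nat_lit 42) (nat_lit 31) (nat_lit 0) (.e true (nat_lit 1) (nat_lit 206) (nat_lit 3) (nat_lit 12) (.e true (nat_lit 2) (nat_lit 274) (nat_lit 2) (nat_lit 13) (.e false (nat_lit 2) (nat_lit 278) (nat_lit 2) (nat_lit 13) (.e false (nat_lit 2) (nat_lit 286) (nat_lit 2) (nat_lit 13) (.e false (nat_lit 3) (nat_lit 288) (nat_lit 2) (nat_lit 13) (.u (nat_lit 2) (.n (nat_lit 1) (nat_lit 5) (.p (nat_lit 2) (nat_lit 1) (.n (nat_lit 3) (nat_lit 4) (.n (nat_lit 4) (nat_lit 1) (.p (nat_lit 5) (nat_lit 1) (.p (nat_lit 6) (nat_lit 1) (.p (nat_lit 7) (nat_lit 1) (.p (nat_lit 8) (nat_lit 1) (.p (nat_lit 9) (nat_lit 3) (.p (nat_lit 10) (nat_lit 2) (.n (nat_lit 12) (nat_lit 3) (.p (nat_lit 13) (nat_lit 2) (.p (nat_lit 15) (nat_lit 3) (.n (nat_lit 16) (nat_lit 1) (.p (nat_lit 17) (nat_lit 2) (.n (nat_lit 19) (nat_lit 3) (.p (nat_lit 21) (nat_lit 1) (.p (nat_lit 22) (nat_lit 1) (.p (nat_lit 24) (nat_lit 1) (.n (nat_lit 25) (nat_lit 1) (.p (nat_lit 26) (nat_lit 1) (.p (nat_lit 27) (nat_lit 1) (.p (nat_lit 30) (nat_lit 1) (.p (nat_lit 33) (nat_lit 3) (.p (nat_lit 177) (nat_lit 1) (.p (nat_lit 178) (nat_lit 1) (.n (nat_lit 179) (nat_lit 1) (.n (nat_lit 182) (nat_lit 1) (.n (nat_lit 186) (nat_lit 1) (.p (nat_lit 190) (nat_lit 1) .z)))))))))))))))))))))))))))))) .nil))))))))))))))))))))))))) .leaf) (nat_lit 102411) (nat_lit 1290) (.n (nat_lit 426) (nat_lit 2) (.n (nat_lit 428) (nat_lit 3) (.p (nat_lit 429) (nat_lit 1) (.p (nat_lit 430) (nat_lit 3) (.p (nat_lit 431) (nat_lit 1) (.n (nat_lit 432) (nat_lit 1) (.n (nat_lit 433) (nat_lit 1) (.p (nat_lit 434) (nat_lit 3) (.p (nat_lit 438) (nat_lit 2) (.p (nat_lit 441) (nat_lit 2) (.n (nat_lit 442) (nat_lit 2) (.p (nat_lit 443) (nat_lit 2) (.p (nat_lit 444) (nat_lit 3) (.n (nat_lit 456) (nat_lit 3) (.n (nat_lit 459) (nat_lit 2) .z))))))))))))))) (.ct dC1c_c533 (nat_lit 1) (nat_lit 6) (.s false (nat_lit 1) (nat_lit 18) (nat_lit 2) (nat_lit 11) (nat_lit 0) true (nat_lit 11) true (nat_lit 15) true (nat_lit 3) true (nat_lit 13) true (nat_lit 6) (.e true (nat_lit 1) (nat_lit 189) (nat_lit 4) (nat_lit 11) (.e false (nat_lit 1) (nat_lit 193) (nat_lit 4) (nat_lit 11) (.e true (nat_lit 1) (nat_lit 337) (nat_lit 0) (nat_lit 15) (.e false (nat_lit 1) (nat_lit 345) (nat_lit 0) (nat_lit 15) (.e false (nat_lit 1) (nat_lit 63) (nat_lit 18) (nat_lit 3) (.e true (nat_lit 1) (nat_lit 277) (nat_lit 2) (nat_lit 13) (.e false (nat_lit 1) (nat_lit 286) (nat_lit 2) (nat_lit 13) (.e true (nat_lit 1) (nat_lit 278) (nat_lit 2) (nat_lit 13) (.e false (nat_lit 1) (nat_lit 287) (nat_lit 2) (nat_lit 13) (.e false (nat_lit 1) (nat_lit 279) (nat_lit 2) (nat_lit 13) (.e true (nat_lit 1) (nat_lit 288) (nat_lit 2) (nat_lit 13) (.u (nat_lit 2) (.p (nat_lit 0) (nat_lit 1) (.p (nat_lit 3) (nat_lit 1) (.n (nat_lit 4) (nat_lit 2) (.n (nat_lit 5) (nat_lit 1) (.n (nat_lit 8) (nat_lit 2) (.n (nat_lit 12) (nat_lit 1) (.n (nat_lit 13) (nat_lit 1) (.n (nat_lit 15) (nat_lit 1) (.n (nat_lit 16) (nat_lit 1) (.n (nat_lit 17) (nat_lit 1) (.n (nat_lit 18) (nat_lit 1) (.p (nat_lit 30) (nat_lit 1) .z)))))))))))) .nil)))))))))))))) .leaf) (nat_lit 102412) (nat_lit 1314) (.p (nat_lit 426) (nat_lit 2) (.p (nat_lit 428) (nat_lit 1) (.n (nat_lit 429) (nat_lit 1) (.n (nat_lit 430) (nat_lit 2) (.n (nat_lit 431) (nat_lit 3) (.p (nat_lit 432) (nat_lit 1) (.p (nat_lit 433) (nat_lit 1) (.n (nat_lit 434) (nat_lit 3) (.p (nat_lit 435) (nat_lit 2) (.n (nat_lit 436) (nat_lit 1) (.p (nat_lit 438) (nat_lit 2) (.p (nat_lit 439) (nat_lit 3) (.p (nat_lit 441) (nat_lit 1) (.n (nat_lit 442) (nat_lit 1) (.p (nat_lit 443) (nat_lit 1) (.n (nat_lit 444) (nat_lit 2) .z)))))))))))))))) (.ct dC1c_c533 (nat_lit 1) (nat_lit 6) (.s true (nat_lit 1) (nat_lit 100) (nat_lit 1) (nat_lit 2) (nat_lit 0) true (nat_lit 12) true (nat_lit 15) false (nat_lit 6) true (nat_lit 14) true (nat_lit 13) (.e false (nat_lit 1) (nat_lit 204) (nat_lit 3) (nat_lit 12) (.e true (nat_lit 3) (nat_lit 328) (nat_lit 0) (nat_lit 15) (.e true (nat_lit 3) (nat_lit 329) (nat_lit 0) (nat_lit 15) (.e true (nat_lit 1) (nat_lit 330) (nat_lit 0) (nat_lit 15) (.e false (nat_lit 1) (nat_lit 331) (nat_lit 0) (nat_lit 15) (.e true (nat_lit 3) (nat_lit 332) (nat_lit 0) (nat_lit 15) (.e true (nat_lit 3) (nat_lit 333) (nat_lit 0) (nat_lit 15) (.e false (nat_lit 1) (nat_lit 334) (nat_lit 0) (nat_lit 15) (.e false (nat_lit 1) (nat_lit 335) (nat_lit 0) (nat_lit 15) (.e true (nat_lit 1) (nat_lit 336) (nat_lit 0) (nat_lit 15) (.e true (nat_lit 2) (nat_lit 337) (nat_lit 0) (nat_lit 15) (.e true (nat_lit 1) (nat_lit 338) (nat_lit 0) (nat_lit 15) (.e false (nat_lit 1) (nat_lit 340) (nat_lit 0) (nat_lit 15) dC1c_i69))))))))))))))) (.nd (.nd .leaf (nat_lit 102413) (nat_lit 1507) (.n (nat_lit 460) (nat_lit 2) (.n (nat_lit 461) (nat_lit 1) (.p (nat_lit 462) (nat_lit 2) (.n (nat_lit 463) (nat_lit 3) (.p (nat_lit 464) (nat_lit 3) (.p (nat_lit 465) (nat_lit 3) (.p (nat_lit 468) (nat_lit 3) (.p (nat_lit 469) (nat_lit 1) (.p (nat_lit 470) (nat_lit 1) (.p (nat_lit 471) (nat_lit 1) (.n (nat_lit 472) (nat_lit 1) (.n (nat_lit 473) (nat_lit 2) (.n (nat_lit 474) (nat_lit 2) (.n (nat_lit 476) (nat_lit 3) (.p (nat_lit 477) (nat_lit 1) (.p (nat_lit 479) (nat_lit 1) (.n (nat_lit 489) (nat_lit 3) (.n (nat_lit 493) (nat_lit 2) .z)))))))))))))))))) (.ct dC1c_c293 (nat_lit 1) (nat_lit 6) (.s false (nat_lit 1) (nat_lit 100) (nat_lit 2) (nat_lit 1) (nat_lit 1) true (nat_lit 10) true (nat_lit 14) false (nat_lit 6) true (nat_lit 13) true (nat_lit 14) (.e true (nat_lit 3) (nat_lit 180) (nat_lit 5) (nat_lit 10) (.e true (nat_lit 3) (nat_lit 181) (nat_lit 5) (nat_lit 10) dC1c_i70)))) .leaf) (nat_lit 103424) (nat_lit 328) (.p (nat_lit 179) (nat_lit 1) .z) .df .leaf)) (nat_lit 103425) (nat_lit 364) (.p (nat_lit 180) (nat_lit 2) (.p (nat_lit 181) (nat_lit 1) (.n (nat_lit 182) (nat_lit 1) (.n (nat_lit 183) (nat_lit 2) (.n (nat_lit 184) (nat_lit 2) (.n (nat_lit 187) (nat_lit 1) (.n (nat_lit 188) (nat_lit 1) (.p (nat_lit 189) (nat_lit 2) (.p (nat_lit 190) (nat_lit 1) (.p (nat_lit 191) (nat_lit 1) (.p (nat_lit 193) (nat_lit 1) (.p (nat_lit 195) (nat_lit 1) .z)))))))))))) (.ct dC1c_c276 (nat_lit 1) (nat_lit 7) (.s true (nat_lit 1) (nat_lit 18) (nat_lit 0) (nat_lit 1) (nat_lit 2) true (nat_lit 4) true (nat_lit 6) false (nat_lit 1) true (nat_lit 8) true (nat_lit 7) (.s true (nat_lit 1) (nat_lit 18) (nat_lit 2) (nat_lit 1) (nat_lit 0) true (nat_lit 4) true (nat_lit 8) false (nat_lit 1) true (nat_lit 6) true (nat_lit 7) (.e true (nat_lit 2) (nat_lit 82) (nat_lit 2) (nat_lit 6) (.e true (nat_lit 2) (nat_lit 83) (nat_lit 2) (nat_lit 6) (.e false (nat_lit 1) (nat_lit 86) (nat_lit 2) (nat_lit 6) (.e true (nat_lit 2) (nat_lit 87) (nat_lit 2) (nat_lit 6) (.e false (nat_lit 1) (nat_lit 91) (nat_lit 2) (nat_lit 6) (.e true (nat_lit 1) (nat_lit 18) (nat_lit 10) (nat_lit 1) (.e false (nat_lit 1) (nat_lit 104) (nat_lit 0) (nat_lit 8) (.e false (nat_lit 1) (nat_lit 99) (nat_lit 1) (nat_lit 7) (.e false (nat_lit 1) (nat_lit 18) (nat_lit 12) (nat_lit 1) (.e false (nat_lit 1) (nat_lit 100) (nat_lit 1) (nat_lit 7) (.u (nat_lit 2) (.p (nat_lit 4) (nat_lit 1) (.p (nat_lit 5) (nat_lit 1) .z)) .nil)))))))))))))) (.nd (.nd (.nd .leaf (nat_lit 103426) (nat_lit 404) (.p (nat_lit 203) (nat_lit 1) (.p (nat_lit 204) (nat_lit 1) .z)) (.ct dC1c_c261 (nat_lit 1) (nat_lit 3) (.s true (nat_lit 1) (nat_lit 18) (nat_lit 2) (nat_lit 2) (nat_lit 0) true (nat_lit 2) true (nat_lit 4) false (nat_lit 0) true (nat_lit 3) true (nat_lit 3) (.e true (nat_lit 1) (nat_lit 46) (nat_lit 4) (nat_lit 2) (.e true (nat_lit 1) (nat_lit 106) (nat_lit 0) (nat_lit 4) (.e false (nat_lit 1) (nat_lit 18) (nat_lit 15) (nat_lit 0) (.e false (nat_lit 1) (nat_lit 99) (nat_lit 2) (nat_lit 3) (.e false (nat_lit 2) (nat_lit 100) (nat_lit 2) (nat_lit 3) .nil))))))) .leaf) (nat_lit 103427) (nat_lit 626) (.n (nat_lit 260) (nat_lit 3) (.p (nat_lit 261) (nat_lit 2) (.p (nat_lit 262) (nat_lit 1) (.p (nat_lit 263) (nat_lit 3) (.p (nat_lit 264) (nat_lit 2) (.n (nat_lit 265) (nat_lit 3) (.n (nat_lit 266) (nat_lit 2) (.n (nat_lit 268) (nat_lit 1) (.p (nat_lit 269) (nat_lit 2) (.p (nat_lit 270) (nat_lit 1) (.n (nat_lit 271) (nat_lit 3) (.p (nat_lit 273) (nat_lit 2) (.n (nat_lit 274) (nat_lit 1) (.p (nat_lit 277) (nat_lit 3) (.n (nat_lit 278) (nat_lit 1) (.p (nat_lit 279) (nat_lit 1) (.n (nat_lit 280) (nat_lit 1) (.p (nat_lit 281) (nat_lit 1) (.p (nat_lit 283) (nat_lit 2) (.n (nat_lit 286) (nat_lit 1) (.n (nat_lit 287) (nat_lit 1) (.p (nat_lit 288) (nat_lit 1) (.n (nat_lit 289) (nat_lit 1) .z))))))))))))))))))))))) (.ct dC1c_c532 (nat_lit 1) (nat_lit 9) (.s false (nat_lit 1) (nat_lit 14) (nat_lit 3) (nat_lit 2) (nat_lit 2) true (nat_lit 3) true (nat_lit 10) true (nat_lit 2) true (nat_lit 9) true (nat_lit 10) (.e true (nat_lit 1) (nat_lit 40) (nat_lit 10) (nat_lit 3) (.e true (nat_lit 3) (nat_lit 133) (nat_lit 2) (nat_lit 10) (.e false (nat_lit 1) (nat_lit 134) (nat_lit 2) (nat_lit 10) (.e true (nat_lit 3) (nat_lit 135) (nat_lit 2) (nat_lit 10) (.e true (nat_lit 3) (nat_lit 139) (nat_lit 2) (nat_lit 10) (.e false (nat_lit 3) (nat_lit 142) (nat_lit 2) (nat_lit 10) (.e false (nat_lit 1) (nat_lit 31) (nat_lit 14) (nat_lit 2) (.e false (nat_lit 1) (nat_lit 137) (nat_lit 2) (nat_lit 10) (.e true (nat_lit 1) (nat_lit 138) (nat_lit 2) (nat_lit 10) (.e true (nat_lit 3) (nat_lit 140) (nat_lit 2) (nat_lit 10) (.e false (nat_lit 3) (nat_lit 141) (nat_lit 2) (nat_lit 10) (.e true (nat_lit 1) (nat_lit 143) (nat_lit 2) (nat_lit 10) (.e true (nat_lit 2) (nat_lit 144) (nat_lit 2) (nat_lit 10) (.e false (nat_lit 3) (nat_lit 145) (nat_lit 2) (nat_lit 10) (.e true (nat_lit 1) (nat_lit 146) (nat_lit 2) (nat_lit 10) (.e false (nat_lit 1) (nat_lit 147) (nat_lit 2) (nat_lit 10) (.e true (nat_lit 2) (nat_lit 149) (nat_lit 2) (nat_lit 10) (.e false (nat_lit 1) (nat_lit 150) (nat_lit 2) (nat_lit 10) (.e true (nat_lit 2) (nat_lit 151) (nat_lit 2) (nat_lit 10) (.e true (nat_lit 2) (nat_lit 152) (nat_lit 2) (nat_lit 10) (.u (nat_lit 2) (.p (nat_lit 0) (nat_lit 1) (.n (nat_lit 1) (nat_lit 1) (.n (nat_lit 3) (nat_lit 1) (.p (nat_lit 5) (nat_lit 1) (.n (nat_lit 17) (nat_lit 1) (.n (nat_lit 19) (nat_lit 1) (.p (nat_lit 97) (nat_lit 1) .z))))))) .nil))))))))))))))))))))))) .leaf) (nat_lit 103428) (nat_lit 798) (.p (nat_lit 327) (nat_lit 1) .z) .df (.nd (.nd .leaf (nat_lit 103429) (nat_lit 867) (.p (nat_lit 328) (nat_lit 1) (.p (nat_lit 329) (nat_lit 1) (.n (nat_lit 331) (nat_lit 3) (.n (nat_lit 332) (nat_lit 1) (.p (nat_lit 333) (nat_lit 3) (.p (nat_lit 334) (nat_lit 2) (.p (nat_lit 335) (nat_lit 2) (.n (nat_lit 337) (nat_lit 1) (.n (nat_lit 338) (nat_lit 2) (.n (nat_lit 339) (nat_lit 2) (.n (nat_lit 340) (nat_lit 2) (.p (nat_lit 343) (nat_lit 1) (.p (nat_lit 344) (nat_lit 1) .z))))))))))))) (.ct dC1c_c277 (nat_lit 1) (nat_lit 5) (.s false (nat_lit 1) (nat_lit 18) (nat_lit 2) (nat_lit 0) (nat_lit 5) true (nat_lit 1) true (nat_lit 5) true (nat_lit 0) true (nat_lit 8) true (nat_lit 10) (.e true (nat_lit 1) (nat_lit 42) (nat_lit 16) (nat_lit 1) (.e false (nat_lit 1) (nat_lit 99) (nat_lit 5) (nat_lit 5) (.e true (nat_lit 1) (nat_lit 31) (nat_lit 18) (nat_lit 0) (.e true (nat_lit 1) (nat_lit 32) (nat_lit 18) (nat_lit 0) (.e false (nat_lit 1) (nat_lit 35) (nat_lit 18) (nat_lit 0) (.e true (nat_lit 1) (nat_lit 36) (nat_lit 18) (nat_lit 0) (.e false (nat_lit 1) (nat_lit 190) (nat_lit 2) (nat_lit 8) (.e true (nat_lit 1) (nat_lit 194) (nat_lit 2) (nat_lit 8) (.u (nat_lit 2) (.p (nat_lit 0) (nat_lit 1) (.n (nat_lit 1) (nat_lit 1) (.p (nat_lit 3) (nat_lit 1) (.n (nat_lit 4) (nat_lit 1) (.n (nat_lit 5) (nat_lit 1) (.p (nat_lit 9) (nat_lit 1) (.p (nat_lit 10) (nat_lit 1) .z))))))) .nil))))))))))) .leaf) (nat_lit 103432) (nat_lit 1062) (.p (nat_lit 355) (nat_lit 2) (.n (nat_lit 356) (nat_lit 1) (.n (nat_lit 357) (nat_lit 2) (.n (nat_lit 358) (nat_lit 3) (.p (nat_lit 360) (nat_lit 1) (.p (nat_lit 361) (nat_lit 2) (.n (nat_lit 362) (nat_lit 2) (.p (nat_lit 363) (nat_lit 2) (.p (nat_lit 365) (nat_lit 2) (.n (nat_lit 366) (nat_lit 2) (.p (nat_lit 367) (nat_lit 2) (.p (nat_lit 369) (nat_lit 1) (.n (nat_lit 370) (nat_lit 1) (.n (nat_lit 372) (nat_lit 3) (.n (nat_lit 373) (nat_lit 3) (.p (nat_lit 374) (nat_lit 2) (.n (nat_lit 379) (nat_lit 2) (.n (nat_lit 380) (nat_lit 2) (.p (nat_lit 381) (nat_lit 1) (.n (nat_lit 382) (nat_lit 3) (.n (nat_lit 383) (nat_lit 3) (.n (nat_lit 384) (nat_lit 2) (.p (nat_lit 385) (nat_lit 2) (.n (nat_lit 386) (nat_lit 3) (.n (nat_lit 387) (nat_lit 3) (.n (nat_lit 388) (nat_lit 2) (.p (nat_lit 389) (nat_lit 2) (.p (nat_lit 390) (nat_lit 1) (.n (nat_lit 391) (nat_lit 2) (.n (nat_lit 392) (nat_lit 3) (.n (nat_lit 393) (nat_lit 3) (.p (nat_lit 394) (nat_lit 2) (.p (nat_lit 395) (nat_lit 1) (.n (nat_lit 396) (nat_lit 1) (.p (nat_lit 400) (nat_lit 2) (.n (nat_lit 401) (nat_lit 3) .z)))))))))))))))))))))))))))))))))))) (.ct dC1c_c548 (nat_lit 1) (nat_lit 11) (.s false (nat_lit 1) (nat_lit 101) (nat_lit 1) (nat_lit 0) (nat_lit 1) false (nat_lit 21) true (nat_lit 18) false (nat_lit 11) true (nat_lit 18) true (nat_lit 19) (.e true (nat_lit 1) (nat_lit 262) (nat_lit 1) (nat_lit 18) (.e true (nat_lit 2) (nat_lit 264) (nat_lit 1) (nat_lit 18) (.e true (nat_lit 3) (nat_lit 266) (nat_lit 1) (nat_lit 18) (.e false (nat_lit 3) (nat_lit 267) (nat_lit 1) (nat_lit 18) (.e false (nat_lit 2) (nat_lit 268) (nat_lit 1) (nat_lit 18) (.e false (nat_lit 2) (nat_lit 269) (nat_lit 1) (nat_lit 18) (.e false (nat_lit 3) (nat_lit 273) (nat_lit 1) (nat_lit 18) (.e false (nat_lit 1) (nat_lit 279) (nat_lit 1) (nat_lit 18) (.e true (nat_lit 3) (nat_lit 280) (nat_lit 1) (nat_lit 18) (.e false (nat_lit 1) (nat_lit 286) (nat_lit 1) (nat_lit 18) (.e false (nat_lit 2) (nat_lit 287) (nat_lit 1) (nat_lit 18) (.e true (nat_lit 3) (nat_lit 289) (nat_lit 1) (nat_lit 18) (.e false (nat_lit 3) (nat_lit 263) (nat_lit 1) (nat_lit 18) (.e true (nat_lit 1) (nat_lit 270) (nat_lit 1) (nat_lit 18) (.e false (nat_lit 1) (nat_lit 272) (nat_lit 1) (nat_lit 18) (.e false (nat_lit 2) (nat_lit 282) (nat_lit 1) (nat_lit 18) (.e false (nat_lit 1) (nat_lit 265) (nat_lit 1) (nat_lit 18) (.e true (nat_lit 1) (nat_lit 278) (nat_lit 1) (nat_lit 18) (.e false (nat_lit 2) (nat_lit 260) (nat_lit 1) (nat_lit 18) dC1c_i71))))))))))))))))))))) .leaf))))) (nat_lit 103434) (nat_lit 1349) (.p (nat_lit 426) (nat_lit 1) (.n (nat_lit 427) (nat_lit 2) (.p (nat_lit 428) (nat_lit 3) (.n (nat_lit 429) (nat_lit 2) (.n (nat_lit 430) (nat_lit 3) (.p (nat_lit 432) (nat_lit 1) (.p (nat_lit 433) (nat_lit 1) (.n (nat_lit 434) (nat_lit 3) (.p (nat_lit 435) (nat_lit 2) (.n (nat_lit 436) (nat_lit 2) (.n (nat_lit 438) (nat_lit 1) (.n (nat_lit 441) (nat_lit 3) (.n (nat_lit 443) (nat_lit 2) (.n (nat_lit 444) (nat_lit 1) (.p (nat_lit 445) (nat_lit 1) (.p (nat_lit 448) (nat_lit 2) (.p (nat_lit 454) (nat_lit 3) (.p (nat_lit 456) (nat_lit 1) (.p (nat_lit 459) (nat_lit 3) .z))))))))))))))))))) (.ct dC1c_c533 (nat_lit 1) (nat_lit 6) (.s false (nat_lit 1) (nat_lit 14) (nat_lit 10) (nat_lit 2) (nat_lit 2) true (nat_lit 0) true (nat_lit 13) true (nat_lit 5) true (nat_lit 6) true (nat_lit 13) (.e false (nat_lit 1) (nat_lit 40) (nat_lit 31) (nat_lit 0) dC1c_i72))) (.nd (.nd (.nd (.nd (.nd (.nd .leaf (nat_lit 103435) (nat_lit 1297) (.p (nat_lit 426) (nat_lit 3) (.n (nat_lit 427) (nat_lit 1) (.n (nat_lit 429) (nat_lit 3) (.p (nat_lit 430) (nat_lit 1) (.p (nat_lit 432) (nat_lit 1) (.p (nat_lit 433) (nat_lit 1) (.n (nat_lit 434) (nat_lit 1) (.p (nat_lit 435) (nat_lit 1) (.p (nat_lit 442) (nat_lit 3) (.n (nat_lit 443) (nat_lit 2) (.p (nat_lit 445) (nat_lit 1) (.p (nat_lit 447) (nat_lit 2) (.n (nat_lit 448) (nat_lit 2) (.p (nat_lit 455) (nat_lit 3) (.n (nat_lit 456) (nat_lit 1) (.p (nat_lit 459) (nat_lit 1) .z)))))))))))))))) (.ct dC1c_c533 (nat_lit 1) (nat_lit 6) dC1c_i73) .leaf) (nat_lit 103436) (nat_lit 1345) (.p (nat_lit 426) (nat_lit 3) (.p (nat_lit 427) (nat_lit 3) (.n (nat_lit 428) (nat_lit 2) (.p (nat_lit 429) (nat_lit 2) (.p (nat_lit 430) (nat_lit 3) (.n (nat_lit 431) (nat_lit 3) (.p (nat_lit 432) (nat_lit 2) (.p (nat_lit 433) (nat_lit 2) (.n (nat_lit 434) (nat_lit 3) (.p (nat_lit 435) (nat_lit 2) (.n (nat_lit 436) (nat_lit 2) (.p (nat_lit 439) (nat_lit 3) (.n (nat_lit 442) (nat_lit 3) (.n (nat_lit 443) (nat_lit 3) (.p (nat_lit 445) (nat_lit 2) (.p (nat_lit 447) (nat_lit 2) (.p (nat_lit 448) (nat_lit 3) (.n (nat_lit 454) (nat_lit 3) (.p (nat_lit 455) (nat_lit 3) (.p (nat_lit 456) (nat_lit 2) (.p (nat_lit 459) (nat_lit 3) .z))))))))))))))))))))) (.ct dC1c_c533 (nat_lit 1) (nat_lit 6) (.s true (nat_lit 1) (nat_lit 46) (nat_lit 5) (nat_lit 0) (nat_lit 0) true (nat_lit 6) true (nat_lit 15) false (nat_lit 2) true (nat_lit 10) true (nat_lit 15) (.e false (nat_lit 1) (nat_lit 99) (nat_lit 12) (nat_lit 6) (.e true (nat_lit 3) (nat_lit 328) (nat_lit 0) (nat_lit 15) (.e true (nat_lit 3) (nat_lit 329) (nat_lit 0) (nat_lit 15) (.e false (nat_lit 1) (nat_lit 331) (nat_lit 0) (nat_lit 15) (.e false (nat_lit 3) (nat_lit 332) (nat_lit 0) (nat_lit 15) (.e false (nat_lit 1) (nat_lit 334) (nat_lit 0) (nat_lit 15) (.e false (nat_lit 1) (nat_lit 335) (nat_lit 0) (nat_lit 15) (.e false (nat_lit 2) (nat_lit 337) (nat_lit 0) (nat_lit 15) (.e true (nat_lit 2) (nat_lit 338) (nat_lit 0) (nat_lit 15) (.e false (nat_lit 3) (nat_lit 336) (nat_lit 0) (nat_lit 15) (.e false (nat_lit 1) (nat_lit 330) (nat_lit 0) (nat_lit 15) (.e true (nat_lit 1) (nat_lit 333) (nat_lit 0) (nat_lit 15) (.e false (nat_lit 2) (nat_lit 341) (nat_lit 0) (nat_lit 15) (.e false (nat_lit 1) (nat_lit 46) (nat_lit 23) (nat_lit 2) (.e false (nat_lit 1) (nat_lit 340) (nat_lit 0) (nat_lit 15) (.e false (nat_lit 1) (nat_lit 346) (nat_lit 0) (nat_lit 15) (.u (nat_lit 2) (.n (nat_lit 0) (nat_lit 1) (.n (nat_lit 1) (nat_lit 1) (.p (nat_lit 2) (nat_lit 1) (.p (nat_lit 3) (nat_lit 1) (.p (nat_lit 5) (nat_lit 1) (.n (nat_lit 6) (nat_lit 1) (.n (nat_lit 7) (nat_lit 1) (.p (nat_lit 8) (nat_lit 1) (.p (nat_lit 12) (nat_lit 1) (.p (nat_lit 16) (nat_lit 1) (.p (nat_lit 17) (nat_lit 1) (.n (nat_lit 19) (nat_lit 1) (.n (nat_lit 30) (nat_lit 1) (.n (nat_lit 33) (nat_lit 1) (.p (nat_lit 211) (nat_lit 1) (.n (nat_lit 215) (nat_lit 1) (.n (nat_lit 219) (nat_lit 1) (.n (nat_lit 220) (nat_lit 1) .z)))))))))))))))))) .nil))))))))))))))))))) .leaf) (nat_lit 103437) (nat_lit 1541) (.p (nat_lit 460) (nat_lit 2) (.p (nat_lit 462) (nat_lit 3) (.p (nat_lit 463) (nat_lit 3) (.n (nat_lit 464) (nat_lit 2) (.n (nat_lit 465) (nat_lit 1) (.p (nat_lit 467) (nat_lit 2) (.p (nat_lit 468) (nat_lit 2) (.p (nat_lit 469) (nat_lit 1) (.n (nat_lit 470) (nat_lit 3) (.n (nat_lit 471) (nat_lit 2) (.n (nat_lit 472) (nat_lit 2) (.p (nat_lit 473) (nat_lit 2) (.p (nat_lit 474) (nat_lit 2) (.p (nat_lit 475) (nat_lit 1) (.p (nat_lit 476) (nat_lit 3) (.n (nat_lit 477) (nat_lit 2) (.n (nat_lit 478) (nat_lit 2) (.p (nat_lit 480) (nat_lit 2) (.p (nat_lit 489) (nat_lit 1) (.n (nat_lit 492) (nat_lit 2) (.p (nat_lit 493) (nat_lit 3) .z))))))))))))))))))))) (.ct dC1c_c293 (nat_lit 1) (nat_lit 6) (.s true (nat_lit 1) (nat_lit 101) (nat_lit 1) (nat_lit 2) (nat_lit 1) false (nat_lit 16) true (nat_lit 14) false (nat_lit 6) true (nat_lit 14) true (nat_lit 13) (.e false (nat_lit 3) (nat_lit 328) (nat_lit 1) (nat_lit 14) (.e false (nat_lit 2) (nat_lit 329) (nat_lit 1) (nat_lit 14) (.e true (nat_lit 1) (nat_lit 330) (nat_lit 1) (nat_lit 14) (.e false (nat_lit 1) (nat_lit 331) (nat_lit 1) (nat_lit 14) (.e true (nat_lit 3) (nat_lit 332) (nat_lit 1) (nat_lit 14) (.e true (nat_lit 2) (nat_lit 335) (nat_lit 1) (nat_lit 14) (.e true (nat_lit 3) (nat_lit 336) (nat_lit 1) (nat_lit 14) (.e false (nat_lit 1) (nat_lit 337) (nat_lit 1) (nat_lit 14) (.e false (nat_lit 3) (nat_lit 339) (nat_lit 1) (nat_lit 14) (.e false (nat_lit 3) (nat_lit 340) (nat_lit 1) (nat_lit 14) (.e true (nat_lit 2) (nat_lit 334) (nat_lit 1) (nat_lit 14) dC1c_i74))))))))))))) (.nd (.nd .leaf (nat_lit 104448) (nat_lit 376) (.p (nat_lit 180) (nat_lit 3) (.n (nat_lit 181) (nat_lit 2) (.p (nat_lit 182) (nat_lit 2) (.n (nat_lit 183) (nat_lit 2) (.n (nat_lit 184) (nat_lit 3) (.p (nat_lit 185) (nat_lit 1) (.p (nat_lit 186) (nat_lit 2) (.p (nat_lit 187) (nat_lit 2) (.n (nat_lit 189) (nat_lit 3) (.n (nat_lit 190) (nat_lit 3) (.n (nat_lit 191) (nat_lit 1) (.n (nat_lit 193) (nat_lit 1) (.n (nat_lit 194) (nat_lit 1) .z))))))))))))) (.ct dC1c_c276 (nat_lit 1) (nat_lit 8) (.s true (nat_lit 1) (nat_lit 16) (nat_lit 2) (nat_lit 0) (nat_lit 2) true (nat_lit 2) true (nat_lit 6) false (nat_lit 0) true (nat_lit 6) true (nat_lit 8) (.e false (nat_lit 1) (nat_lit 36) (nat_lit 6) (nat_lit 2) (.e true (nat_lit 1) (nat_lit 89) (nat_lit 2) (nat_lit 6) (.e false (nat_lit 1) (nat_lit 16) (nat_lit 14) (nat_lit 0) (.e true (nat_lit 1) (nat_lit 82) (nat_lit 2) (nat_lit 6) (.e true (nat_lit 1) (nat_lit 83) (nat_lit 2) (nat_lit 6) (.e true (nat_lit 1) (nat_lit 85) (nat_lit 2) (nat_lit 6) (.e false (nat_lit 1) (nat_lit 86) (nat_lit 2) (nat_lit 6) (.e true (nat_lit 1) (nat_lit 87) (nat_lit 2) (nat_lit 6) (.e true (nat_lit 1) (nat_lit 88) (nat_lit 2) (nat_lit 6) (.e false (nat_lit 1) (nat_lit 91) (nat_lit 2) (nat_lit 6) (.u (nat_lit 2) (.n (nat_lit 0) (nat_lit 1) (.p (nat_lit 3) (nat_lit 1) (.p (nat_lit 4) (nat_lit 1) .z))) .nil))))))))))))) .leaf) (nat_lit 104449) (nat_lit 383) (.p (nat_lit 200) (nat_lit 1) .z) .df .leaf)) (nat_lit 104450) (nat_lit 407) (.p (nat_lit 207) (nat_lit 1) .z) .df (.nd (.nd (.nd .leaf (nat_lit 104451) (nat_lit 737) (.p (nat_lit 290) (nat_lit 1) (.p (nat_lit 291) (nat_lit 2) (.p (nat_lit 292) (nat_lit 1) (.n (nat_lit 293) (nat_lit 1) (.p (nat_lit 294) (nat_lit 3) (.p (nat_lit 298) (nat_lit 2) (.n (nat_lit 301) (nat_lit 3) (.n (nat_lit 304) (nat_lit 1) (.p (nat_lit 307) (nat_lit 3) (.n (nat_lit 308) (nat_lit 3) (.n (nat_lit 310) (nat_lit 1) (.p (nat_lit 311) (nat_lit 1) (.p (nat_lit 316) (nat_lit 3) (.n (nat_lit 317) (nat_lit 3) .z)))))))))))))) (.ct dC1c_c292 (nat_lit 1) (nat_lit 9) (.s true (nat_lit 1) (nat_lit 16) (nat_lit 2) (nat_lit 3) (nat_lit 2) true (nat_lit 6) true (nat_lit 10) true (nat_lit 1) true (nat_lit 10) true (nat_lit 9) (.e true (nat_lit 1) (nat_lit 66) (nat_lit 6) (nat_lit 6) (.e true (nat_lit 1) (nat_lit 67) (nat_lit 6) (nat_lit 6) (.e false (nat_lit 1) (nat_lit 68) (nat_lit 6) (nat_lit 6) (.e true (nat_lit 1) (nat_lit 69) (nat_lit 6) (nat_lit 6) (.e true (nat_lit 1) (nat_lit 70) (nat_lit 6) (nat_lit 6) (.e false (nat_lit 1) (nat_lit 74) (nat_lit 6) (nat_lit 6) (.e true (nat_lit 3) (nat_lit 153) (nat_lit 2) (nat_lit 10) (.e true (nat_lit 2) (nat_lit 154) (nat_lit 2) (nat_lit 10) (.e false (nat_lit 2) (nat_lit 155) (nat_lit 2) (nat_lit 10) (.e true (nat_lit 2) (nat_lit 156) (nat_lit 2) (nat_lit 10) (.e false (nat_lit 1) (nat_lit 161) (nat_lit 2) (nat_lit 10) (.e true (nat_lit 2) (nat_lit 162) (nat_lit 2) (nat_lit 10) (.e false (nat_lit 2) (nat_lit 164) (nat_lit 2) (nat_lit 10) (.e false (nat_lit 1) (nat_lit 170) (nat_lit 2) (nat_lit 10) (.e true (nat_lit 2) (nat_lit 171) (nat_lit 2) (nat_lit 10) (.e true (nat_lit 1) (nat_lit 173) (nat_lit 2) (nat_lit 10) (.e false (nat_lit 1) (nat_lit 31) (nat_lit 16) (nat_lit 1) (.e false (nat_lit 1) (nat_lit 157) (nat_lit 2) (nat_lit 10) (.u (nat_lit 2) (.n (nat_lit 0) (nat_lit 1) (.n (nat_lit 1) (nat_lit 1) (.n (nat_lit 9) (nat_lit 1) (.p (nat_lit 11) (nat_lit 1) (.p (nat_lit 14) (nat_lit 1) (.n (nat_lit 26) (nat_lit 1) (.p (nat_lit 27) (nat_lit 1) .z))))))) .nil))))))))))))))))))))) .leaf) (nat_lit 104452) (nat_lit 876) (.p (nat_lit 328) (nat_lit 2) (.n (nat_lit 329) (nat_lit 3) (.p (nat_lit 330) (nat_lit 3) (.n (nat_lit 331) (nat_lit 2) (.n (nat_lit 332) (nat_lit 2) (.p (nat_lit 333) (nat_lit 2) (.p (nat_lit 334) (nat_lit 2) (.n (nat_lit 335) (nat_lit 3) (.p (nat_lit 336) (nat_lit 3) (.p (nat_lit 337) (nat_lit 1) (.n (nat_lit 338) (nat_lit 3) (.n (nat_lit 340) (nat_lit 1) (.n (nat_lit 341) (nat_lit 1) (.p (nat_lit 342) (nat_lit 1) (.n (nat_lit 345) (nat_lit 1) .z))))))))))))))) (.ct dC1c_c277 (nat_lit 1) (nat_lit 6) (.s true (nat_lit 1) (nat_lit 16) (nat_lit 2) (nat_lit 2) (nat_lit 4) true (nat_lit 2) true (nat_lit 6) true (nat_lit 1) true (nat_lit 8) true (nat_lit 8) (.e true (nat_lit 1) (nat_lit 43) (nat_lit 14) (nat_lit 2) (.e false (nat_lit 1) (nat_lit 41) (nat_lit 16) (nat_lit 1) (.e false (nat_lit 1) (nat_lit 42) (nat_lit 16) (nat_lit 1) (.e true (nat_lit 3) (nat_lit 180) (nat_lit 2) (nat_lit 8) (.e true (nat_lit 2) (nat_lit 181) (nat_lit 2) (nat_lit 8) (.e false (nat_lit 1) (nat_lit 182) (nat_lit 2) (nat_lit 8) (.e false (nat_lit 2) (nat_lit 183) (nat_lit 2) (nat_lit 8) (.e false (nat_lit 3) (nat_lit 184) (nat_lit 2) (nat_lit 8) (.e false (nat_lit 1) (nat_lit 187) (nat_lit 2) (nat_lit 8) (.e false (nat_lit 1) (nat_lit 188) (nat_lit 2) (nat_lit 8) (.e true (nat_lit 1) (nat_lit 189) (nat_lit 2) (nat_lit 8) (.e true (nat_lit 1) (nat_lit 190) (nat_lit 2) (nat_lit 8) (.e true (nat_lit 1) (nat_lit 191) (nat_lit 2) (nat_lit 8) (.e true (nat_lit 1) (nat_lit 193) (nat_lit 2) (nat_lit 8) (.e true (nat_lit 1) (nat_lit 185) (nat_lit 2) (nat_lit 8) (.u (nat_lit 2) (.n (nat_lit 0) (nat_lit 2) (.p (nat_lit 1) (nat_lit 1) (.n (nat_lit 2) (nat_lit 1) (.p (nat_lit 3) (nat_lit 1) (.p (nat_lit 4) (nat_lit 2) (.n (nat_lit 6) (nat_lit 1) (.n (nat_lit 8) (nat_lit 1) (.n (nat_lit 9) (nat_lit 1) .z)))))))) .nil)))))))))))))))))) .leaf) (nat_lit 104453) (nat_lit 914) (.p (nat_lit 347) (nat_lit 1) (.n (nat_lit 348) (nat_lit 2) (.n (nat_lit 349) (nat_lit 1) (.n (nat_lit 350) (nat_lit 2) (.p (nat_lit 351) (nat_lit 1) (.p (nat_lit 352) (nat_lit 2) (.n (nat_lit 354) (nat_lit 3) .z))))))) (.ct dC1c_c37 (nat_lit 1) (nat_lit 4) (.s true (nat_lit 1) (nat_lit 16) (nat_lit 2) (nat_lit 2) (nat_lit 5) true (nat_lit 1) true (nat_lit 4) true (nat_lit 1) true (nat_lit 5) true (nat_lit 5) (.e true (nat_lit 1) (nat_lit 43) (nat_lit 16) (nat_lit 1) (.e false (nat_lit 1) (nat_lit 44) (nat_lit 16) (nat_lit 1) (.e false (nat_lit 1) (nat_lit 45) (nat_lit 16) (nat_lit 1) (.e false (nat_lit 2) (nat_lit 197) (nat_lit 2) (nat_lit 5) (.e false (nat_lit 3) (nat_lit 199) (nat_lit 2) (nat_lit 5) (.e true (nat_lit 1) (nat_lit 196) (nat_lit 2) (nat_lit 5) (.e false (nat_lit 3) (nat_lit 198) (nat_lit 2) (nat_lit 5) (.e false (nat_lit 2) (nat_lit 201) (nat_lit 2) (nat_lit 5) (.u (nat_lit 2) (.p (nat_lit 3) (nat_lit 1) (.n (nat_lit 5) (nat_lit 1) (.p (nat_lit 7) (nat_lit 1) (.n (nat_lit 30) (nat_lit 1) .z)))) .nil))))))))))) (.nd (.nd .leaf (nat_lit 104455) (nat_lit 1057) (.p (nat_lit 355) (nat_lit 3) (.n (nat_lit 356) (nat_lit 1) (.p (nat_lit 357) (nat_lit 2) (.p (nat_lit 358) (nat_lit 2) (.n (nat_lit 360) (nat_lit 2) (.n (nat_lit 361) (nat_lit 2) (.p (nat_lit 362) (nat_lit 2) (.p (nat_lit 363) (nat_lit 2) (.n (nat_lit 364) (nat_lit 2) (.n (nat_lit 365) (nat_lit 1) (.n (nat_lit 366) (nat_lit 2) (.p (nat_lit 367) (nat_lit 2) (.p (nat_lit 369) (nat_lit 1) (.n (nat_lit 370) (nat_lit 1) (.p (nat_lit 372) (nat_lit 1) (.n (nat_lit 373) (nat_lit 1) (.n (nat_lit 374) (nat_lit 1) (.p (nat_lit 376) (nat_lit 2) (.n (nat_lit 378) (nat_lit 2) (.p (nat_lit 379) (nat_lit 1) (.p (nat_lit 380) (nat_lit 1) (.p (nat_lit 381) (nat_lit 2) (.p (nat_lit 382) (nat_lit 2) (.n (nat_lit 383) (nat_lit 2) (.p (nat_lit 384) (nat_lit 1) (.n (nat_lit 385) (nat_lit 1) (.n (nat_lit 386) (nat_lit 2) (.p (nat_lit 387) (nat_lit 1) (.p (nat_lit 388) (nat_lit 1) (.p (nat_lit 389) (nat_lit 1) (.p (nat_lit 390) (nat_lit 3) (.p (nat_lit 391) (nat_lit 3) (.n (nat_lit 392) (nat_lit 2) (.n (nat_lit 393) (nat_lit 2) (.n (nat_lit 395) (nat_lit 1) (.n (nat_lit 396) (nat_lit 3) (.n (nat_lit 400) (nat_lit 1) (.n (nat_lit 401) (nat_lit 2) (.p (nat_lit 403) (nat_lit 2) .z))))))))))))))))))))))))))))))))))))))) (.ct dC1c_c548 (nat_lit 1) (nat_lit 12) (.s true (nat_lit 1) (nat_lit 102) (nat_lit 0) (nat_lit 1) (nat_lit 0) false (nat_lit 20) true (nat_lit 19) false (nat_lit 12) true (nat_lit 19) true (nat_lit 18) (.e false (nat_lit 1) (nat_lit 292) (nat_lit 0) (nat_lit 19) (.e true (nat_lit 1) (nat_lit 293) (nat_lit 0) (nat_lit 19) (.e false (nat_lit 1) (nat_lit 296) (nat_lit 0) (nat_lit 19) (.e true (nat_lit 1) (nat_lit 297) (nat_lit 0) (nat_lit 19) (.e true (nat_lit 2) (nat_lit 298) (nat_lit 0) (nat_lit 19) (.e true (nat_lit 3) (nat_lit 300) (nat_lit 0) (nat_lit 19) (.e false (nat_lit 3) (nat_lit 301) (nat_lit 0) (nat_lit 19) (.e true (nat_lit 1) (nat_lit 304) (nat_lit 0) (nat_lit 19) (.e false (nat_lit 2) (nat_lit 307) (nat_lit 0) (nat_lit 19) (.e false (nat_lit 1) (nat_lit 308) (nat_lit 0) (nat_lit 19) (.e true (nat_lit 3) (nat_lit 317) (nat_lit 0) (nat_lit 19) (.e true (nat_lit 1) (nat_lit 319) (nat_lit 0) (nat_lit 19) (.e true (nat_lit 2) (nat_lit 313) (nat_lit 0) (nat_lit 19) (.e false (nat_lit 2) (nat_lit 291) (nat_lit 0) (nat_lit 19) (.e true (nat_lit 1) (nat_lit 310) (nat_lit 0) (nat_lit 19) (.e true (nat_lit 2) (nat_lit 316) (nat_lit 0) (nat_lit 19) (.e false (nat_lit 3) (nat_lit 318) (nat_lit 0) (nat_lit 19) (.e false (nat_lit 1) (nat_lit 295) (nat_lit 0) (nat_lit 19) (.e false (nat_lit 3) (nat_lit 302) (nat_lit 0) (nat_lit 19) (.e false (nat_lit 3) (nat_lit 311) (nat_lit 0) (nat_lit 19) (.e false (nat_lit 1) (nat_lit 314) (nat_lit 0) (nat_lit 19) (.e false (nat_lit 1) (nat_lit 315) (nat_lit 0) (nat_lit 19) dC1c_i75)))))))))))))))))))))))) .leaf) (nat_lit 104457) (nat_lit 1357) (.p (nat_lit 426) (nat_lit 2) (.n (nat_lit 427) (nat_lit 2) (.p (nat_lit 428) (nat_lit 2) (.n (nat_lit 429) (nat_lit 2) (.n (nat_lit 430) (nat_lit 3) (.n (nat_lit 431) (nat_lit 1) (.p (nat_lit 432) (nat_lit 2) (.p (nat_lit 433) (nat_lit 2) (.n (nat_lit 434) (nat_lit 3) (.n (nat_lit 438) (nat_lit 1) (.p (nat_lit 441) (nat_lit 1) (.p (nat_lit 447) (nat_lit 1) (.n (nat_lit 452) (nat_lit 2) (.p (nat_lit 456) (nat_lit 2) (.n (nat_lit 459) (nat_lit 1) .z))))))))))))))) (.ct dC1c_c533 (nat_lit 1) (nat_lit 7) (.s true (nat_lit 1) (nat_lit 102) (nat_lit 0) (nat_lit 2) (nat_lit 0) false (nat_lit 16) true (nat_lit 15) false (nat_lit 7) true (nat_lit 15) true (nat_lit 13) (.e true (nat_lit 1) (nat_lit 328) (nat_lit 0) (nat_lit 15) (.e true (nat_lit 1) (nat_lit 329) (nat_lit 0) (nat_lit 15) (.e false (nat_lit 1) (nat_lit 330) (nat_lit 0) (nat_lit 15) (.e false (nat_lit 1) (nat_lit 332) (nat_lit 0) (nat_lit 15) (.e false (nat_lit 1) (nat_lit 333) (nat_lit 0) (nat_lit 15) (.e false (nat_lit 2) (nat_lit 335) (nat_lit 0) (nat_lit 15) (.e true (nat_lit 3) (nat_lit 337) (nat_lit 0) (nat_lit 15) dC1c_i76))))))))) .leaf))) (nat_lit 104458) (nat_lit 1475) (.n (nat_lit 460) (nat_lit 3) (.n (nat_lit 461) (nat_lit 2) (.n (nat_lit 462) (nat_lit 1) (.n (nat_lit 463) (nat_lit 1) (.n (nat_lit 464) (nat_lit 2) (.n (nat_lit 465) (nat_lit 2) (.n (nat_lit 467) (nat_lit 1) (.p (nat_lit 468) (nat_lit 1) (.p (nat_lit 469) (nat_lit 3) (.p (nat_lit 470) (nat_lit 1) (.p (nat_lit 471) (nat_lit 1) (.n (nat_lit 472) (nat_lit 1) (.n (nat_lit 473) (nat_lit 2) (.n (nat_lit 474) (nat_lit 2) (.n (nat_lit 475) (nat_lit 3) (.n (nat_lit 476) (nat_lit 3) (.p (nat_lit 477) (nat_lit 3) (.n (nat_lit 479) (nat_lit 1) (.p (nat_lit 481) (nat_lit 1) (.n (nat_lit 486) (nat_lit 2) (.p (nat_lit 489) (nat_lit 1) (.p (nat_lit 493) (nat_lit 3) .z)))))))))))))))))))))) (.ct dC1c_c293 (nat_lit 1) (nat_lit 7) (.s true (nat_lit 1) (nat_lit 16) (nat_lit 2) (nat_lit 2) (nat_lit 10) true (nat_lit 1) true (nat_lit 7) true (nat_lit 4) true (nat_lit 13) true (nat_lit 13) (.e true (nat_lit 1) (nat_lit 43) (nat_lit 31) (nat_lit 1) (.e false (nat_lit 1) (nat_lit 90) (nat_lit 16) (nat_lit 4) (.e false (nat_lit 3) (nat_lit 291) (nat_lit 2) (nat_lit 13) (.e true (nat_lit 2) (nat_lit 294) (nat_lit 2) (nat_lit 13) (.e true (nat_lit 1) (nat_lit 298) (nat_lit 2) (nat_lit 13) (.e false (nat_lit 3) (nat_lit 299) (nat_lit 2) (nat_lit 13) (.e false (nat_lit 1) (nat_lit 301) (nat_lit 2) (nat_lit 13) (.e true (nat_lit 1) (nat_lit 304) (nat_lit 2) (nat_lit 13) (.e false (nat_lit 1) (nat_lit 307) (nat_lit 2) (nat_lit 13) (.e true (nat_lit 2) (nat_lit 308) (nat_lit 2) (nat_lit 13) (.e true (nat_lit 1) (nat_lit 311) (nat_lit 2) (nat_lit 13) (.e true (nat_lit 1) (nat_lit 317) (nat_lit 2) (nat_lit 13) (.u (nat_lit 2) (.p (nat_lit 4) (nat_lit 1) (.p (nat_lit 5) (nat_lit 2) (.p (nat_lit 7) (nat_lit 1) (.p (nat_lit 9) (nat_lit 1) (.n (nat_lit 10) (nat_lit 3) (.p (nat_lit 11) (nat_lit 1) (.p (nat_lit 12) (nat_lit 1) (.p (nat_lit 13) (nat_lit 1) (.p (nat_lit 15) (nat_lit 2) (.p (nat_lit 16) (nat_lit 1) (.p (nat_lit 17) (nat_lit 1) (.n (nat_lit 21) (nat_lit 1) (.p (nat_lit 29) (nat_lit 1) .z))))))))))))) .nil))))))))))))))) (.nd (.nd (.nd (.nd .leaf (nat_lit 104460) (nat_lit 1538) (.p (nat_lit 460) (nat_lit 1) (.n (nat_lit 461) (nat_lit 3) (.n (nat_lit 462) (nat_lit 2) (.n (nat_lit 463) (nat_lit 2) (.n (nat_lit 465) (nat_lit 3) (.n (nat_lit 467) (nat_lit 3) (.p (nat_lit 468) (nat_lit 3) (.n (nat_lit 470) (nat_lit 3) (.n (nat_lit 471) (nat_lit 3) (.n (nat_lit 472) (nat_lit 1) (.p (nat_lit 473) (nat_lit 3) (.p (nat_lit 474) (nat_lit 3) (.n (nat_lit 475) (nat_lit 3) (.n (nat_lit 476) (nat_lit 3) (.p (nat_lit 477) (nat_lit 2) (.p (nat_lit 479) (nat_lit 2) (.n (nat_lit 481) (nat_lit 1) (.p (nat_lit 482) (nat_lit 1) (.p (nat_lit 486) (nat_lit 2) (.n (nat_lit 487) (nat_lit 2) .z)))))))))))))))))))) (.ct dC1c_c293 (nat_lit 1) (nat_lit 7) dC1c_i77) .leaf) (nat_lit 105472) (nat_lit 372) (.n (nat_lit 180) (nat_lit 1) (.p (nat_lit 182) (nat_lit 1) (.p (nat_lit 183) (nat_lit 2) (.p (nat_lit 185) (nat_lit 1) (.p (nat_lit 187) (nat_lit 1) (.p (nat_lit 188) (nat_lit 2) (.n (nat_lit 190) (nat_lit 1) (.n (nat_lit 191) (nat_lit 1) (.n (nat_lit 192) (nat_lit 1) (.n (nat_lit 193) (nat_lit 1) (.p (nat_lit 194) (nat_lit 1) (.n (nat_lit 195) (nat_lit 1) .z)))))))))))) (.ct dC1c_c276 (nat_lit 1) (nat_lit 8) (.s true (nat_lit 1) (nat_lit 18) (nat_lit 2) (nat_lit 1) (nat_lit 0) true (nat_lit 4) true (nat_lit 8) false (nat_lit 1) true (nat_lit 6) true (nat_lit 7) (.e false (nat_lit 1) (nat_lit 45) (nat_lit 4) (nat_lit 4) (.e false (nat_lit 1) (nat_lit 105) (nat_lit 0) (nat_lit 8) (.e false (nat_lit 1) (nat_lit 18) (nat_lit 12) (nat_lit 1) (.e false (nat_lit 1) (nat_lit 83) (nat_lit 2) (nat_lit 6) (.e true (nat_lit 1) (nat_lit 84) (nat_lit 2) (nat_lit 6) (.e false (nat_lit 1) (nat_lit 85) (nat_lit 2) (nat_lit 6) (.e true (nat_lit 1) (nat_lit 87) (nat_lit 2) (nat_lit 6) (.e true (nat_lit 1) (nat_lit 90) (nat_lit 2) (nat_lit 6) (.e false (nat_lit 1) (nat_lit 100) (nat_lit 1) (nat_lit 7) (.u (nat_lit 2) (.p (nat_lit 0) (nat_lit 1) (.p (nat_lit 1) (nat_lit 1) (.p (nat_lit 9) (nat_lit 1) (.p (nat_lit 10) (nat_lit 1) .z)))) .nil)))))))))))) .leaf) (nat_lit 105473) (nat_lit 390) (.p (nat_lit 196) (nat_lit 1) (.n (nat_lit 198) (nat_lit 2) (.n (nat_lit 199) (nat_lit 2) (.n (nat_lit 200) (nat_lit 1) (.n (nat_lit 201) (nat_lit 3) .z))))) (.ct dC1c_c36 (nat_lit 1) (nat_lit 5) (.s true (nat_lit 3) (nat_lit 5) (nat_lit 2) (nat_lit 2) (nat_lit 5) true (nat_lit 0) true (nat_lit 3) true (nat_lit 3) true (nat_lit 4) true (nat_lit 4) (.s true (nat_lit 3) (nat_lit 6) (nat_lit 5) (nat_lit 2) (nat_lit 1) true (nat_lit 1) true (nat_lit 5) true (nat_lit 2) true (nat_lit 3) true (nat_lit 4) (.s false (nat_lit 3) (nat_lit 18) (nat_lit 1) (nat_lit 2) (nat_lit 1) false (nat_lit 6) true (nat_lit 5) false (nat_lit 1) true (nat_lit 5) true (nat_lit 4) (.a false (nat_lit 2) (nat_lit 16) (nat_lit 16) (nat_lit 0) (nat_lit 0) (.e true (nat_lit 3) (nat_lit 43) (nat_lit 5) (nat_lit 3) (.e false (nat_lit 3) (nat_lit 94) (nat_lit 2) (nat_lit 4) (.e false (nat_lit 3) (nat_lit 96) (nat_lit 2) (nat_lit 4) (.e true (nat_lit 3) (nat_lit 97) (nat_lit 2) (nat_lit 4) (.e false (nat_lit 2) (nat_lit 104) (nat_lit 1) (nat_lit 5) (.e true (nat_lit 3) (nat_lit 38) (nat_lit 6) (nat_lit 2) (.e true (nat_lit 3) (nat_lit 105) (nat_lit 1) (nat_lit 5) (.u (nat_lit 2) (.n (nat_lit 0) (nat_lit 1) (.p (nat_lit 1) (nat_lit 1) (.p (nat_lit 3) (nat_lit 3) (.n (nat_lit 5) (nat_lit 1) (.n (nat_lit 6) (nat_lit 1) (.p (nat_lit 23) (nat_lit 1) (.p (nat_lit 24) (nat_lit 1) .z))))))) .nil))))))))))))) (.nd (.nd .leaf (nat_lit 105474) (nat_lit 408) (.p (nat_lit 208) (nat_lit 1) .z) .df .leaf) (nat_lit 105475) (nat_lit 735) (.n (nat_lit 290) (nat_lit 2) (.p (nat_lit 291) (nat_lit 2) (.p (nat_lit 294) (nat_lit 1) (.p (nat_lit 298) (nat_lit 1) (.p (nat_lit 299) (nat_lit 2) (.n (nat_lit 301) (nat_lit 2) (.n (nat_lit 304) (nat_lit 2) (.p (nat_lit 307) (nat_lit 3) (.p (nat_lit 308) (nat_lit 2) (.p (nat_lit 311) (nat_lit 1) (.n (nat_lit 316) (nat_lit 2) (.n (nat_lit 317) (nat_lit 2) (.p (nat_lit 319) (nat_lit 1) .z))))))))))))) (.ct dC1c_c292 (nat_lit 1) (nat_lit 9) (.s true (nat_lit 1) (nat_lit 17) (nat_lit 2) (nat_lit 3) (nat_lit 2) true (nat_lit 6) true (nat_lit 10) true (nat_lit 1) true (nat_lit 10) true (nat_lit 9) (.e false (nat_lit 2) (nat_lit 66) (nat_lit 6) (nat_lit 6) (.e true (nat_lit 1) (nat_lit 68) (nat_lit 6) (nat_lit 6) (.e false (nat_lit 1) (nat_lit 69) (nat_lit 6) (nat_lit 6) (.e true (nat_lit 1) (nat_lit 70) (nat_lit 6) (nat_lit 6) (.e true (nat_lit 1) (nat_lit 75) (nat_lit 6) (nat_lit 6) (.e true (nat_lit 1) (nat_lit 173) (nat_lit 2) (nat_lit 10) (.e false (nat_lit 1) (nat_lit 31) (nat_lit 17) (nat_lit 1) (.e true (nat_lit 2) (nat_lit 154) (nat_lit 2) (nat_lit 10) (.e true (nat_lit 2) (nat_lit 157) (nat_lit 2) (nat_lit 10) (.e false (nat_lit 2) (nat_lit 162) (nat_lit 2) (nat_lit 10) (.e false (nat_lit 1) (nat_lit 167) (nat_lit 2) (nat_lit 10) (.e false (nat_lit 1) (nat_lit 171) (nat_lit 2) (nat_lit 10) (.u (nat_lit 2) (.p (nat_lit 0) (nat_lit 1) (.n (nat_lit 4) (nat_lit 1) (.n (nat_lit 17) (nat_lit 1) (.p (nat_lit 26) (nat_lit 1) .z)))) .nil))))))))))))))) .leaf)) (nat_lit 105476) (nat_lit 882) (.p (nat_lit 329) (nat_lit 3) (.p (nat_lit 330) (nat_lit 2) (.p (nat_lit 331) (nat_lit 1) (.n (nat_lit 333) (nat_lit 3) (.n (nat_lit 334) (nat_lit 2) (.p (nat_lit 335) (nat_lit 2) (.n (nat_lit 336) (nat_lit 3) (.n (nat_lit 338) (nat_lit 1) (.p (nat_lit 341) (nat_lit 1) (.p (nat_lit 343) (nat_lit 1) (.p (nat_lit 344) (nat_lit 1) (.p (nat_lit 345) (nat_lit 1) .z)))))))))))) (.ct dC1c_c277 (nat_lit 1) (nat_lit 6) (.s false (nat_lit 1) (nat_lit 18) (nat_lit 4) (nat_lit 2) (nat_lit 1) true (nat_lit 3) true (nat_lit 9) true (nat_lit 0) true (nat_lit 6) true (nat_lit 8) (.e false (nat_lit 1) (nat_lit 46) (nat_lit 11) (nat_lit 3) (.e false (nat_lit 1) (nat_lit 34) (nat_lit 18) (nat_lit 0) (.e true (nat_lit 1) (nat_lit 104) (nat_lit 4) (nat_lit 6) (.e false (nat_lit 1) (nat_lit 105) (nat_lit 4) (nat_lit 6) (.e true (nat_lit 3) (nat_lit 180) (nat_lit 2) (nat_lit 8) (.e true (nat_lit 3) (nat_lit 181) (nat_lit 2) (nat_lit 8) (.e true (nat_lit 1) (nat_lit 182) (nat_lit 2) (nat_lit 8) (.e true (nat_lit 3) (nat_lit 183) (nat_lit 2) (nat_lit 8) (.e false (nat_lit 3) (nat_lit 184) (nat_lit 2) (nat_lit 8) (.e true (nat_lit 3) (nat_lit 186) (nat_lit 2) (nat_lit 8) (.e true (nat_lit 3) (nat_lit 187) (nat_lit 2) (nat_lit 8) (.e true (nat_lit 3) (nat_lit 189) (nat_lit 2) (nat_lit 8) (.e true (nat_lit 3) (nat_lit 190) (nat_lit 2) (nat_lit 8) (.e true (nat_lit 1) (nat_lit 193) (nat_lit 2) (nat_lit 8) (.u (nat_lit 2) (.n (nat_lit 0) (nat_lit 1) (.p (nat_lit 4) (nat_lit 1) (.n (nat_lit 6) (nat_lit 1) (.n (nat_lit 7) (nat_lit 1) (.n (nat_lit 10) (nat_lit 1) .z))))) .nil))))))))))))))))) (.nd (.nd (.nd .leaf (nat_lit 105477) (nat_lit 906) (.n (nat_lit 347) (nat_lit 3) (.p (nat_lit 350) (nat_lit 2) (.n (nat_lit 351) (nat_lit 1) (.p (nat_lit 353) (nat_lit 1) (.p (nat_lit 354) (nat_lit 1) .z))))) (.ct dC1c_c37 (nat_lit 1) (nat_lit 4) (.s false (nat_lit 1) (nat_lit 17) (nat_lit 2) (nat_lit 5) (nat_lit 2) true (nat_lit 3) true (nat_lit 5) true (nat_lit 1) true (nat_lit 5) true (nat_lit 4) (.e false (nat_lit 2) (nat_lit 93) (nat_lit 6) (nat_lit 3) (.e false (nat_lit 2) (nat_lit 94) (nat_lit 6) (nat_lit 3) (.e true (nat_lit 1) (nat_lit 95) (nat_lit 6) (nat_lit 3) (.e true (nat_lit 1) (nat_lit 97) (nat_lit 6) (nat_lit 3) (.e false (nat_lit 2) (nat_lit 196) (nat_lit 2) (nat_lit 5) (.e false (nat_lit 1) (nat_lit 197) (nat_lit 2) (nat_lit 5) (.e false (nat_lit 1) (nat_lit 199) (nat_lit 2) (nat_lit 5) (.e false (nat_lit 2) (nat_lit 200) (nat_lit 2) (nat_lit 5) (.e false (nat_lit 1) (nat_lit 201) (nat_lit 2) (nat_lit 5) (.e false (nat_lit 1) (nat_lit 43) (nat_lit 17) (nat_lit 1) (.e false (nat_lit 3) (nat_lit 198) (nat_lit 2) (nat_lit 5) (.u (nat_lit 2) (.p (nat_lit 0) (nat_lit 1) (.p (nat_lit 2) (nat_lit 1) (.p (nat_lit 5) (nat_lit 1) .z))) .nil)))))))))))))) .leaf) (nat_lit 105479) (nat_lit 1058) (.n (nat_lit 355) (nat_lit 2) (.n (nat_lit 356) (nat_lit 1) (.p (nat_lit 357) (nat_lit 3) (.p (nat_lit 358) (nat_lit 1) (.p (nat_lit 359) (nat_lit 3) (.p (nat_lit 360) (nat_lit 2) (.n (nat_lit 363) (nat_lit 2) (.n (nat_lit 364) (nat_lit 2) (.n (nat_lit 365) (nat_lit 2) (.n (nat_lit 366) (nat_lit 2) (.p (nat_lit 369) (nat_lit 2) (.p (nat_lit 372) (nat_lit 1) (.n (nat_lit 373) (nat_lit 1) (.n (nat_lit 374) (nat_lit 3) (.n (nat_lit 375) (nat_lit 1) (.n (nat_lit 376) (nat_lit 3) (.p (nat_lit 378) (nat_lit 3) (.p (nat_lit 379) (nat_lit 2) (.p (nat_lit 380) (nat_lit 2) (.n (nat_lit 381) (nat_lit 3) (.p (nat_lit 382) (nat_lit 3) (.n (nat_lit 383) (nat_lit 3) (.p (nat_lit 384) (nat_lit 1) (.n (nat_lit 385) (nat_lit 2) (.n (nat_lit 386) (nat_lit 1) (.p (nat_lit 387) (nat_lit 2) (.n (nat_lit 388) (nat_lit 1) (.n (nat_lit 389) (nat_lit 2) (.n (nat_lit 390) (nat_lit 2) (.n (nat_lit 391) (nat_lit 3) (.n (nat_lit 392) (nat_lit 1) (.p (nat_lit 393) (nat_lit 3) (.n (nat_lit 395) (nat_lit 2) (.p (nat_lit 396) (nat_lit 1) (.n (nat_lit 400) (nat_lit 2) (.p (nat_lit 401) (nat_lit 3) (.n (nat_lit 403) (nat_lit 3) .z))))))))))))))))))))))))))))))))))))) (.ct dC1c_c548 (nat_lit 1) (nat_lit 12) (.s true (nat_lit 1) (nat_lit 103) (nat_lit 0) (nat_lit 1) (nat_lit 0) false (nat_lit 20) true (nat_lit 19) false (nat_lit 12) true (nat_lit 19) true (nat_lit 18) (.e true (nat_lit 2) (nat_lit 311) (nat_lit 0) (nat_lit 19) (.e false (nat_lit 3) (nat_lit 292) (nat_lit 0) (nat_lit 19) (.e false (nat_lit 2) (nat_lit 293) (nat_lit 0) (nat_lit 19) (.e false (nat_lit 3) (nat_lit 294) (nat_lit 0) (nat_lit 19) (.e false (nat_lit 3) (nat_lit 301) (nat_lit 0) (nat_lit 19) (.e true (nat_lit 1) (nat_lit 308) (nat_lit 0) (nat_lit 19) (.e false (nat_lit 1) (nat_lit 317) (nat_lit 0) (nat_lit 19) (.e true (nat_lit 1) (nat_lit 319) (nat_lit 0) (nat_lit 19) (.e false (nat_lit 3) (nat_lit 313) (nat_lit 0) (nat_lit 19) (.e true (nat_lit 1) (nat_lit 291) (nat_lit 0) (nat_lit 19) (.e false (nat_lit 2) (nat_lit 295) (nat_lit 0) (nat_lit 19) (.e true (nat_lit 2) (nat_lit 296) (nat_lit 0) (nat_lit 19) (.e false (nat_lit 2) (nat_lit 297) (nat_lit 0) (nat_lit 19) (.e true (nat_lit 1) (nat_lit 298) (nat_lit 0) (nat_lit 19) (.e false (nat_lit 2) (nat_lit 300) (nat_lit 0) (nat_lit 19) (.e false (nat_lit 2) (nat_lit 314) (nat_lit 0) (nat_lit 19) (.e true (nat_lit 2) (nat_lit 302) (nat_lit 0) (nat_lit 19) (.e false (nat_lit 1) (nat_lit 305) (nat_lit 0) (nat_lit 19) (.e false (nat_lit 2) (nat_lit 315) (nat_lit 0) (nat_lit 19) (.e false (nat_lit 2) (nat_lit 316) (nat_lit 0) (nat_lit 19) (.e true (nat_lit 2) (nat_lit 290) (nat_lit 0) (nat_lit 19) (.e true (nat_lit 2) (nat_lit 304) (nat_lit 0) (nat_lit 19) dC1c_i78)))))))))))))))))))))))) .leaf) (nat_lit 105481) (nat_lit 1341) (.p (nat_lit 426) (nat_lit 1) (.n (nat_lit 427) (nat_lit 2) (.p (nat_lit 428) (nat_lit 2) (.n (nat_lit 430) (nat_lit 2) (.p (nat_lit 431) (nat_lit 1) (.p (nat_lit 432) (nat_lit 3) (.p (nat_lit 433) (nat_lit 3) (.n (nat_lit 435) (nat_lit 3) (.p (nat_lit 436) (nat_lit 1) (.n (nat_lit 438) (nat_lit 3) (.p (nat_lit 442) (nat_lit 1) (.n (nat_lit 443) (nat_lit 2) (.n (nat_lit 444) (nat_lit 3) (.p (nat_lit 445) (nat_lit 1) (.p (nat_lit 447) (nat_lit 2) (.p (nat_lit 452) (nat_lit 3) .z)))))))))))))))) (.ct dC1c_c533 (nat_lit 1) (nat_lit 7) (.s false (nat_lit 3) (nat_lit 9) (nat_lit 6) (nat_lit 1) (nat_lit 6) false (nat_lit 2) true (nat_lit 9) true (nat_lit 7) true (nat_lit 9) true (nat_lit 14) (.e true (nat_lit 1) (nat_lit 143) (nat_lit 6) (nat_lit 9) (.e true (nat_lit 1) (nat_lit 136) (nat_lit 6) (nat_lit 9) (.e true (nat_lit 3) (nat_lit 150) (nat_lit 6) (nat_lit 9) (.e true (nat_lit 1) (nat_lit 152) (nat_lit 6) (nat_lit 9) (.e true (nat_lit 1) (nat_lit 104) (nat_lit 9) (nat_lit 7) (.e true (nat_lit 3) (nat_lit 323) (nat_lit 1) (nat_lit 14) (.e true (nat_lit 1) (nat_lit 324) (nat_lit 1) (nat_lit 14) (.e false (nat_lit 1) (nat_lit 325) (nat_lit 1) (nat_lit 14) (.e true (nat_lit 2) (nat_lit 321) (nat_lit 1) (nat_lit 14) (.e false (nat_lit 3) (nat_lit 322) (nat_lit 1) (nat_lit 14) (.u (nat_lit 2) (.p (nat_lit 1) (nat_lit 1) (.n (nat_lit 3) (nat_lit 2) (.p (nat_lit 4) (nat_lit 2) (.p (nat_lit 5) (nat_lit 1) (.p (nat_lit 6) (nat_lit 2) (.p (nat_lit 7) (nat_lit 2) (.n (nat_lit 8) (nat_lit 1) (.n (nat_lit 10) (nat_lit 1) (.p (nat_lit 12) (nat_lit 1) (.n (nat_lit 13) (nat_lit 1) (.n (nat_lit 15) (nat_lit 1) (.n (nat_lit 16) (nat_lit 1) (.n (nat_lit 18) (nat_lit 1) (.p (nat_lit 21) (nat_lit 1) (.n (nat_lit 26) (nat_lit 1) (.n (nat_lit 30) (nat_lit 1) (.p (nat_lit 121) (nat_lit 1) (.p (nat_lit 122) (nat_lit 1) (.n (nat_lit 129) (nat_lit 2) (.p (nat_lit 136) (nat_lit 1) (.p (nat_lit 145) (nat_lit 1) (.p (nat_lit 204) (nat_lit 2) (.p (nat_lit 207) (nat_lit 1) (.n (nat_lit 208) (nat_lit 1) .z)))))))))))))))))))))))) .nil))))))))))))) (.nd (.nd .leaf (nat_lit 105482) (nat_lit 1477) (.p (nat_lit 461) (nat_lit 1) (.p (nat_lit 462) (nat_lit 2) (.p (nat_lit 464) (nat_lit 1) (.n (nat_lit 465) (nat_lit 3) (.p (nat_lit 467) (nat_lit 1) (.p (nat_lit 468) (nat_lit 1) (.p (nat_lit 470) (nat_lit 2) (.n (nat_lit 471) (nat_lit 2) (.n (nat_lit 472) (nat_lit 2) (.n (nat_lit 473) (nat_lit 3) (.n (nat_lit 474) (nat_lit 3) (.n (nat_lit 475) (nat_lit 2) (.n (nat_lit 476) (nat_lit 1) (.p (nat_lit 479) (nat_lit 2) (.p (nat_lit 481) (nat_lit 2) (.p (nat_lit 486) (nat_lit 3) (.n (nat_lit 489) (nat_lit 1) (.n (nat_lit 493) (nat_lit 3) .z)))))))))))))))))) (.ct dC1c_c293 (nat_lit 1) (nat_lit 7) (.s true (nat_lit 1) (nat_lit 18) (nat_lit 2) (nat_lit 1) (nat_lit 10) true (nat_lit 1) true (nat_lit 7) true (nat_lit 3) true (nat_lit 13) true (nat_lit 14) (.e false (nat_lit 1) (nat_lit 45) (nat_lit 31) (nat_lit 1) (.e false (nat_lit 1) (nat_lit 105) (nat_lit 10) (nat_lit 7) (.e true (nat_lit 1) (nat_lit 75) (nat_lit 18) (nat_lit 3) (.e true (nat_lit 1) (nat_lit 308) (nat_lit 2) (nat_lit 13) (.e false (nat_lit 1) (nat_lit 317) (nat_lit 2) (nat_lit 13) (.u (nat_lit 2) (.p (nat_lit 0) (nat_lit 1) (.n (nat_lit 2) (nat_lit 1) (.p (nat_lit 3) (nat_lit 1) (.p (nat_lit 5) (nat_lit 1) (.n (nat_lit 7) (nat_lit 1) (.n (nat_lit 8) (nat_lit 1) .z)))))) .nil)))))))) .leaf) (nat_lit 105484) (nat_lit 1529) (.n (nat_lit 460) (nat_lit 3) (.n (nat_lit 462) (nat_lit 3) (.n (nat_lit 463) (nat_lit 1) (.p (nat_lit 464) (nat_lit 1) (.p (nat_lit 465) (nat_lit 1) (.n (nat_lit 468) (nat_lit 2) (.n (nat_lit 470) (nat_lit 2) (.p (nat_lit 471) (nat_lit 3) (.n (nat_lit 472) (nat_lit 2) (.n (nat_lit 473) (nat_lit 2) (.n (nat_lit 474) (nat_lit 2) (.n (nat_lit 475) (nat_lit 3) (.n (nat_lit 476) (nat_lit 3) (.n (nat_lit 479) (nat_lit 1) (.n (nat_lit 481) (nat_lit 2) (.p (nat_lit 482) (nat_lit 2) (.n (nat_lit 486) (nat_lit 3) (.p (nat_lit 487) (nat_lit 3) (.p (nat_lit 489) (nat_lit 2) (.n (nat_lit 493) (nat_lit 1) .z)))))))))))))))))))) (.ct dC1c_c293 (nat_lit 1) (nat_lit 7) (.s false (nat_lit 3) (nat_lit 12) (nat_lit 6) (nat_lit 1) (nat_lit 6) false (nat_lit 2) true (nat_lit 9) true (nat_lit 7) true (nat_lit 9) true (nat_lit 14) (.e false (nat_lit 3) (nat_lit 153) (nat_lit 6) (nat_lit 9) (.e false (nat_lit 2) (nat_lit 155) (nat_lit 6) (nat_lit 9) (.e true (nat_lit 1) (nat_lit 156) (nat_lit 6) (nat_lit 9) (.e true (nat_lit 2) (nat_lit 157) (nat_lit 6) (nat_lit 9) (.e true (nat_lit 2) (nat_lit 159) (nat_lit 6) (nat_lit 9) (.e false (nat_lit 2) (nat_lit 160) (nat_lit 6) (nat_lit 9) (.e false (nat_lit 2) (nat_lit 161) (nat_lit 6) (nat_lit 9) (.e false (nat_lit 3) (nat_lit 163) (nat_lit 6) (nat_lit 9) (.e false (nat_lit 1) (nat_lit 167) (nat_lit 6) (nat_lit 9) (.e true (nat_lit 1) (nat_lit 168) (nat_lit 6) (nat_lit 9) (.e true (nat_lit 1) (nat_lit 170) (nat_lit 6) (nat_lit 9) (.e false (nat_lit 2) (nat_lit 171) (nat_lit 6) (nat_lit 9) (.e true (nat_lit 1) (nat_lit 104) (nat_lit 12) (nat_lit 7) (.e false (nat_lit 1) (nat_lit 158) (nat_lit 6) (nat_lit 9) (.e false (nat_lit 2) (nat_lit 162) (nat_lit 6) (nat_lit 9) (.e false (nat_lit 3) (nat_lit 172) (nat_lit 6) (nat_lit 9) (.e false (nat_lit 1) (nat_lit 341) (nat_lit 1) (nat_lit 14) (.u (nat_lit 2) (.n (nat_lit 1) (nat_lit 1) (.p (nat_lit 2) (nat_lit 3) (.p (nat_lit 3) (nat_lit 4) (.p (nat_lit 7) (nat_lit 1) (.n (nat_lit 8) (nat_lit 3) (.n (nat_lit 9) (nat_lit 4) (.n (nat_lit 10) (nat_lit 3) (.n (nat_lit 11) (nat_lit 1) (.p (nat_lit 12) (nat_lit 3) (.p (nat_lit 15) (nat_lit 1) (.p (nat_lit 16) (nat_lit 1) (.p (nat_lit 17) (nat_lit 1) (.p (nat_lit 19) (nat_lit 2) (.n (nat_lit 22) (nat_lit 3) (.p (nat_lit 24) (nat_lit 2) (.p (nat_lit 29) (nat_lit 1) (.p (nat_lit 33) (nat_lit 1) (.p (nat_lit 121) (nat_lit 1) (.p (nat_lit 122) (nat_lit 1) (.n (nat_lit 125) (nat_lit 3) (.p (nat_lit 127) (nat_lit 1) (.n (nat_lit 128) (nat_lit 2) (.n (nat_lit 129) (nat_lit 1) (.n (nat_lit 130) (nat_lit 1) (.p (nat_lit 131) (nat_lit 2) (.n (nat_lit 132) (nat_lit 2) (.n (nat_lit 133) (nat_lit 2) (.p (nat_lit 134) (nat_lit 1) (.p (nat_lit 139) (nat_lit 2) (.p (nat_lit 140) (nat_lit 1) (.p (nat_lit 142) (nat_lit 1) (.n (nat_lit 143) (nat_lit 2) (.n (nat_lit 216) (nat_lit 1) .z))))))))))))))))))))))))))))))))) .nil)))))))))))))))))))) .leaf)))) (nat_lit 106496) (nat_lit 363) (.n (nat_lit 180) (nat_lit 2) (.n (nat_lit 181) (nat_lit 2) (.n (nat_lit 182) (nat_lit 1) (.n (nat_lit 183) (nat_lit 1) (.p (nat_lit 184) (nat_lit 3) (.p (nat_lit 185) (nat_lit 3) (.n (nat_lit 186) (nat_lit 1) (.n (nat_lit 187) (nat_lit 1) (.n (nat_lit 188) (nat_lit 2) (.p (nat_lit 189) (nat_lit 1) (.p (nat_lit 190) (nat_lit 2) (.p (nat_lit 192) (nat_lit 1) (.n (nat_lit 194) (nat_lit 1) .z))))))))))))) (.ct dC1c_c276 (nat_lit 1) (nat_lit 8) (.s false (nat_lit 1) (nat_lit 18) (nat_lit 1) (nat_lit 0) (nat_lit 2) true (nat_lit 3) true (nat_lit 6) false (nat_lit 1) true (nat_lit 7) true (nat_lit 8) (.s false (nat_lit 1) (nat_lit 18) (nat_lit 2) (nat_lit 0) (nat_lit 1) true (nat_lit 3) true (nat_lit 7) false (nat_lit 1) true (nat_lit 6) true (nat_lit 8) (.s false (nat_lit 1) (nat_lit 18) (nat_lit 2) (nat_lit 1) (nat_lit 0) true (nat_lit 4) true (nat_lit 8) false (nat_lit 1) true (nat_lit 6) true (nat_lit 7) (.e false (nat_lit 2) (nat_lit 84) (nat_lit 2) (nat_lit 6) (.e true (nat_lit 1) (nat_lit 86) (nat_lit 2) (nat_lit 6) (.e false (nat_lit 2) (nat_lit 87) (nat_lit 2) (nat_lit 6) (.e false (nat_lit 1) (nat_lit 90) (nat_lit 2) (nat_lit 6) (.e true (nat_lit 1) (nat_lit 92) (nat_lit 2) (nat_lit 6) (.e true (nat_lit 1) (nat_lit 18) (nat_lit 10) (nat_lit 1) (.e true (nat_lit 2) (nat_lit 100) (nat_lit 1) (nat_lit 7) (.e true (nat_lit 1) (nat_lit 18) (nat_lit 11) (nat_lit 1) (.e true (nat_lit 1) (nat_lit 45) (nat_lit 4) (nat_lit 4) (.e true (nat_lit 1) (nat_lit 18) (nat_lit 12) (nat_lit 1) (.u (nat_lit 2) (.n (nat_lit 0) (nat_lit 1) (.n (nat_lit 1) (nat_lit 1) (.n (nat_lit 4) (nat_lit 1) (.n (nat_lit 5) (nat_lit 1) (.n (nat_lit 9) (nat_lit 1) (.n (nat_lit 10) (nat_lit 1) .z)))))) .nil))))))))))))))) (.nd (.nd (.nd (.nd (.nd .leaf (nat_lit 106497) (nat_lit 386) (.n (nat_lit 196) (nat_lit 3) (.p (nat_lit 197) (nat_lit 2) (.n (nat_lit 198) (nat_lit 1) (.n (nat_lit 199) (nat_lit 1) (.p (nat_lit 200) (nat_lit 1) (.n (nat_lit 201) (nat_lit 2) .z)))))) (.ct dC1c_c36 (nat_lit 1) (nat_lit 5) (.s false (nat_lit 3) (nat_lit 5) (nat_lit 2) (nat_lit 2) (nat_lit 5) true (nat_lit 0) true (nat_lit 3) true (nat_lit 3) true (nat_lit 4) true (nat_lit 4) (.s true (nat_lit 3) (nat_lit 6) (nat_lit 1) (nat_lit 5) (nat_lit 2) true (nat_lit 3) true (nat_lit 4) true (nat_lit 2) true (nat_lit 5) true (nat_lit 3) (.s true (nat_lit 3) (nat_lit 13) (nat_lit 2) (nat_lit 2) (nat_lit 2) true (nat_lit 2) true (nat_lit 4) true (nat_lit 1) true (nat_lit 4) true (nat_lit 4) (.s true (nat_lit 1) (nat_lit 17) (nat_lit 1) (nat_lit 2) (nat_lit 2) true (nat_lit 3) true (nat_lit 4) true (nat_lit 0) true (nat_lit 5) true (nat_lit 4) (.s false (nat_lit 1) (nat_lit 16) (nat_lit 2) (nat_lit 2) (nat_lit 1) true (nat_lit 3) true (nat_lit 5) true (nat_lit 0) true (nat_lit 4) true (nat_lit 4) (.s false (nat_lit 2) (nat_lit 17) (nat_lit 2) (nat_lit 2) (nat_lit 1) true (nat_lit 3) true (nat_lit 5) true (nat_lit 0) true (nat_lit 4) true (nat_lit 4) (.s false (nat_lit 3) (nat_lit 18) (nat_lit 2) (nat_lit 1) (nat_lit 1) true (nat_lit 3) true (nat_lit 5) false (nat_lit 1) true (nat_lit 4) true (nat_lit 5) (.a true (nat_lit 2) (nat_lit 16) (nat_lit 16) (nat_lit 0) (nat_lit 0) (.a false (nat_lit 1) (nat_lit 16) (nat_lit 17) (nat_lit 0) (nat_lit 0) (.a false (nat_lit 1) (nat_lit 17) (nat_lit 17) (nat_lit 0) (nat_lit 0) (.e true (nat_lit 3) (nat_lit 43) (nat_lit 5) (nat_lit 3) (.e true (nat_lit 1) (nat_lit 94) (nat_lit 2) (nat_lit 4) (.e false (nat_lit 3) (nat_lit 96) (nat_lit 2) (nat_lit 4) (.e true (nat_lit 3) (nat_lit 93) (nat_lit 2) (nat_lit 4) (.e true (nat_lit 1) (nat_lit 95) (nat_lit 2) (nat_lit 4) (.e false (nat_lit 1) (nat_lit 105) (nat_lit 1) (nat_lit 5) (.e false (nat_lit 1) (nat_lit 102) (nat_lit 1) (nat_lit 5) (.u (nat_lit 2) (.p (nat_lit 3) (nat_lit 1) (.p (nat_lit 6) (nat_lit 1) (.p (nat_lit 14) (nat_lit 1) (.p (nat_lit 15) (nat_lit 1) (.p (nat_lit 17) (nat_lit 1) (.n (nat_lit 19) (nat_lit 1) (.n (nat_lit 20) (nat_lit 1) (.p (nat_lit 21) (nat_lit 1) (.p (nat_lit 23) (nat_lit 1) (.n (nat_lit 25) (nat_lit 1) .z)))))))))) .nil))))))))))))))))))) .leaf) (nat_lit 106498) (nat_lit 409) (.p (nat_lit 209) (nat_lit 1) .z) .df .leaf) (nat_lit 106499) (nat_lit 736) (.n (nat_lit 290) (nat_lit 3) (.n (nat_lit 291) (nat_lit 1) (.n (nat_lit 292) (nat_lit 1) (.p (nat_lit 293) (nat_lit 1) (.n (nat_lit 294) (nat_lit 1) (.n (nat_lit 298) (nat_lit 1) (.p (nat_lit 299) (nat_lit 3) (.p (nat_lit 301) (nat_lit 3) (.p (nat_lit 304) (nat_lit 1) (.p (nat_lit 307) (nat_lit 3) (.n (nat_lit 308) (nat_lit 3) (.p (nat_lit 310) (nat_lit 1) (.p (nat_lit 316) (nat_lit 2) (.p (nat_lit 317) (nat_lit 3) .z)))))))))))))) (.ct dC1c_c292 (nat_lit 1) (nat_lit 9) (.s true (nat_lit 3) (nat_lit 17) (nat_lit 3) (nat_lit 2) (nat_lit 2) true (nat_lit 4) true (nat_lit 10) true (nat_lit 1) true (nat_lit 9) true (nat_lit 10) (.e false (nat_lit 3) (nat_lit 44) (nat_lit 10) (nat_lit 4) (.e false (nat_lit 1) (nat_lit 153) (nat_lit 2) (nat_lit 10) (.e false (nat_lit 3) (nat_lit 155) (nat_lit 2) (nat_lit 10) (.e true (nat_lit 3) (nat_lit 156) (nat_lit 2) (nat_lit 10) (.e false (nat_lit 3) (nat_lit 157) (nat_lit 2) (nat_lit 10) (.e false (nat_lit 3) (nat_lit 162) (nat_lit 2) (nat_lit 10) (.e true (nat_lit 3) (nat_lit 31) (nat_lit 17) (nat_lit 1) (.e true (nat_lit 1) (nat_lit 103) (nat_lit 3) (nat_lit 9) (.e true (nat_lit 3) (nat_lit 173) (nat_lit 2) (nat_lit 10) (.u (nat_lit 2) (.n (nat_lit 1) (nat_lit 1) (.p (nat_lit 2) (nat_lit 1) (.n (nat_lit 3) (nat_lit 1) (.p (nat_lit 4) (nat_lit 3) (.n (nat_lit 9) (nat_lit 2) (.n (nat_lit 11) (nat_lit 1) (.p (nat_lit 14) (nat_lit 1) (.p (nat_lit 18) (nat_lit 1) (.n (nat_lit 20) (nat_lit 1) (.n (nat_lit 21) (nat_lit 1) (.n (nat_lit 27) (nat_lit 1) (.n (nat_lit 29) (nat_lit 1) (.p (nat_lit 93) (nat_lit 1) (.p (nat_lit 94) (nat_lit 1) (.n (nat_lit 96) (nat_lit 1) .z))))))))))))))) .nil)))))))))))) (.nd (.nd .leaf (nat_lit 106500) (nat_lit 881) (.p (nat_lit 328) (nat_lit 1) (.n (nat_lit 329) (nat_lit 2) (.n (nat_lit 330) (nat_lit 2) (.n (nat_lit 331) (nat_lit 1) (.n (nat_lit 332) (nat_lit 1) (.p (nat_lit 333) (nat_lit 1) (.p (nat_lit 334) (nat_lit 2) (.p (nat_lit 335) (nat_lit 2) (.p (nat_lit 336) (nat_lit 2) (.n (nat_lit 337) (nat_lit 1) (.p (nat_lit 338) (nat_lit 3) (.p (nat_lit 340) (nat_lit 1) (.n (nat_lit 341) (nat_lit 1) (.n (nat_lit 345) (nat_lit 1) .z)))))))))))))) (.ct dC1c_c277 (nat_lit 1) (nat_lit 6) (.s true (nat_lit 1) (nat_lit 45) (nat_lit 2) (nat_lit 2) (nat_lit 0) true (nat_lit 6) true (nat_lit 10) false (nat_lit 2) true (nat_lit 8) true (nat_lit 8) (.e true (nat_lit 1) (nat_lit 209) (nat_lit 0) (nat_lit 10) (.e false (nat_lit 1) (nat_lit 45) (nat_lit 15) (nat_lit 2) (.e true (nat_lit 3) (nat_lit 180) (nat_lit 2) (nat_lit 8) (.e true (nat_lit 3) (nat_lit 181) (nat_lit 2) (nat_lit 8) (.e false (nat_lit 1) (nat_lit 182) (nat_lit 2) (nat_lit 8) (.e true (nat_lit 3) (nat_lit 183) (nat_lit 2) (nat_lit 8) (.e false (nat_lit 2) (nat_lit 184) (nat_lit 2) (nat_lit 8) (.e true (nat_lit 3) (nat_lit 186) (nat_lit 2) (nat_lit 8) (.e true (nat_lit 3) (nat_lit 187) (nat_lit 2) (nat_lit 8) (.e true (nat_lit 3) (nat_lit 189) (nat_lit 2) (nat_lit 8) (.e false (nat_lit 3) (nat_lit 190) (nat_lit 2) (nat_lit 8) (.e true (nat_lit 1) (nat_lit 193) (nat_lit 2) (nat_lit 8) (.e false (nat_lit 2) (nat_lit 185) (nat_lit 2) (nat_lit 8) (.e false (nat_lit 1) (nat_lit 188) (nat_lit 2) (nat_lit 8) (.u (nat_lit 2) (.p (nat_lit 2) (nat_lit 1) (.n (nat_lit 3) (nat_lit 1) (.n (nat_lit 9) (nat_lit 1) (.n (nat_lit 70) (nat_lit 1) .z)))) .nil))))))))))))))))) .leaf) (nat_lit 106501) (nat_lit 907) (.p (nat_lit 347) (nat_lit 3) (.p (nat_lit 348) (nat_lit 1) (.p (nat_lit 349) (nat_lit 3) (.n (nat_lit 350) (nat_lit 2) (.n (nat_lit 352) (nat_lit 3) (.n (nat_lit 353) (nat_lit 1) .z)))))) (.ct dC1c_c37 (nat_lit 1) (nat_lit 4) (.s false (nat_lit 1) (nat_lit 18) (nat_lit 5) (nat_lit 2) (nat_lit 1) true (nat_lit 2) true (nat_lit 6) true (nat_lit 0) true (nat_lit 4) true (nat_lit 5) (.e false (nat_lit 1) (nat_lit 46) (nat_lit 13) (nat_lit 2) (.e false (nat_lit 1) (nat_lit 38) (nat_lit 18) (nat_lit 0) (.e true (nat_lit 1) (nat_lit 103) (nat_lit 5) (nat_lit 4) (.e false (nat_lit 1) (nat_lit 105) (nat_lit 5) (nat_lit 4) (.e false (nat_lit 3) (nat_lit 196) (nat_lit 2) (nat_lit 5) (.e false (nat_lit 3) (nat_lit 197) (nat_lit 2) (nat_lit 5) (.e false (nat_lit 2) (nat_lit 198) (nat_lit 2) (nat_lit 5) (.e false (nat_lit 1) (nat_lit 199) (nat_lit 2) (nat_lit 5) (.e false (nat_lit 1) (nat_lit 200) (nat_lit 2) (nat_lit 5) (.e false (nat_lit 1) (nat_lit 201) (nat_lit 2) (nat_lit 5) (.u (nat_lit 2) (.p (nat_lit 1) (nat_lit 1) (.p (nat_lit 3) (nat_lit 1) .z)) .nil))))))))))))) .leaf)) (nat_lit 106503) (nat_lit 1063) (.n (nat_lit 355) (nat_lit 3) (.p (nat_lit 356) (nat_lit 3) (.p (nat_lit 357) (nat_lit 1) (.p (nat_lit 358) (nat_lit 3) (.n (nat_lit 359) (nat_lit 3) (.p (nat_lit 360) (nat_lit 1) (.n (nat_lit 361) (nat_lit 2) (.p (nat_lit 362) (nat_lit 2) (.n (nat_lit 363) (nat_lit 1) (.p (nat_lit 364) (nat_lit 3) (.p (nat_lit 365) (nat_lit 3) (.p (nat_lit 367) (nat_lit 1) (.p (nat_lit 370) (nat_lit 3) (.p (nat_lit 374) (nat_lit 1) (.n (nat_lit 381) (nat_lit 2) (.p (nat_lit 383) (nat_lit 1) (.p (nat_lit 384) (nat_lit 2) (.p (nat_lit 385) (nat_lit 3) (.n (nat_lit 386) (nat_lit 2) (.n (nat_lit 387) (nat_lit 1) (.p (nat_lit 389) (nat_lit 3) (.p (nat_lit 390) (nat_lit 3) (.n (nat_lit 391) (nat_lit 2) (.n (nat_lit 392) (nat_lit 1) (.n (nat_lit 393) (nat_lit 2) (.n (nat_lit 394) (nat_lit 1) (.p (nat_lit 395) (nat_lit 3) (.n (nat_lit 396) (nat_lit 3) .z)))))))))))))))))))))))))))) (.ct dC1c_c548 (nat_lit 1) (nat_lit 12) (.s true (nat_lit 1) (nat_lit 104) (nat_lit 0) (nat_lit 1) (nat_lit 0) false (nat_lit 20) true (nat_lit 19) false (nat_lit 12) true (nat_lit 19) true (nat_lit 18) (.e true (nat_lit 3) (nat_lit 290) (nat_lit 0) (nat_lit 19) (.e true (nat_lit 1) (nat_lit 292) (nat_lit 0) (nat_lit 19) (.e false (nat_lit 1) (nat_lit 293) (nat_lit 0) (nat_lit 19) (.e false (nat_lit 1) (nat_lit 294) (nat_lit 0) (nat_lit 19) (.e true (nat_lit 1) (nat_lit 296) (nat_lit 0) (nat_lit 19) (.e false (nat_lit 1) (nat_lit 297) (nat_lit 0) (nat_lit 19) (.e true (nat_lit 3) (nat_lit 298) (nat_lit 0) (nat_lit 19) (.e false (nat_lit 3) (nat_lit 299) (nat_lit 0) (nat_lit 19) (.e true (nat_lit 1) (nat_lit 300) (nat_lit 0) (nat_lit 19) (.e true (nat_lit 2) (nat_lit 301) (nat_lit 0) (nat_lit 19) (.e true (nat_lit 1) (nat_lit 304) (nat_lit 0) (nat_lit 19) (.e false (nat_lit 1) (nat_lit 307) (nat_lit 0) (nat_lit 19) (.e false (nat_lit 1) (nat_lit 317) (nat_lit 0) (nat_lit 19) (.e false (nat_lit 2) (nat_lit 302) (nat_lit 0) (nat_lit 19) (.e true (nat_lit 1) (nat_lit 305) (nat_lit 0) (nat_lit 19) (.e false (nat_lit 2) (nat_lit 310) (nat_lit 0) (nat_lit 19) (.e false (nat_lit 2) (nat_lit 318) (nat_lit 0) (nat_lit 19) dC1c_i79))))))))))))))))))) (.nd (.nd (.nd .leaf (nat_lit 106505) (nat_lit 1284) (.p (nat_lit 426) (nat_lit 2) (.p (nat_lit 427) (nat_lit 3) (.p (nat_lit 428) (nat_lit 3) (.p (nat_lit 429) (nat_lit 1) (.n (nat_lit 430) (nat_lit 3) (.n (nat_lit 431) (nat_lit 2) (.n (nat_lit 435) (nat_lit 1) (.p (nat_lit 436) (nat_lit 2) (.p (nat_lit 438) (nat_lit 1) (.p (nat_lit 439) (nat_lit 2) (.n (nat_lit 441) (nat_lit 1) (.n (nat_lit 442) (nat_lit 1) (.n (nat_lit 443) (nat_lit 1) (.p (nat_lit 444) (nat_lit 2) (.p (nat_lit 445) (nat_lit 2) (.p (nat_lit 456) (nat_lit 3) (.p (nat_lit 459) (nat_lit 2) .z))))))))))))))))) (.ct dC1c_c533 (nat_lit 1) (nat_lit 7) (.s true (nat_lit 1) (nat_lit 104) (nat_lit 0) (nat_lit 2) (nat_lit 0) false (nat_lit 16) true (nat_lit 15) false (nat_lit 7) true (nat_lit 15) true (nat_lit 13) (.e false (nat_lit 3) (nat_lit 328) (nat_lit 0) (nat_lit 15) (.e true (nat_lit 1) (nat_lit 330) (nat_lit 0) (nat_lit 15) (.e false (nat_lit 3) (nat_lit 332) (nat_lit 0) (nat_lit 15) (.e true (nat_lit 2) (nat_lit 333) (nat_lit 0) (nat_lit 15) (.e false (nat_lit 3) (nat_lit 334) (nat_lit 0) (nat_lit 15) (.e false (nat_lit 3) (nat_lit 335) (nat_lit 0) (nat_lit 15) (.e false (nat_lit 3) (nat_lit 336) (nat_lit 0) (nat_lit 15) dC1c_i80))))))))) .leaf) (nat_lit 106506) (nat_lit 1473) (.n (nat_lit 460) (nat_lit 3) (.n (nat_lit 461) (nat_lit 1) (.n (nat_lit 462) (nat_lit 3) (.n (nat_lit 463) (nat_lit 1) (.n (nat_lit 464) (nat_lit 3) (.n (nat_lit 468) (nat_lit 2) (.p (nat_lit 469) (nat_lit 3) (.p (nat_lit 470) (nat_lit 3) (.n (nat_lit 471) (nat_lit 1) (.p (nat_lit 472) (nat_lit 1) (.n (nat_lit 473) (nat_lit 2) (.n (nat_lit 474) (nat_lit 2) (.n (nat_lit 475) (nat_lit 3) (.n (nat_lit 476) (nat_lit 1) (.p (nat_lit 477) (nat_lit 3) (.p (nat_lit 479) (nat_lit 2) (.n (nat_lit 489) (nat_lit 2) (.p (nat_lit 493) (nat_lit 1) .z)))))))))))))))))) (.ct dC1c_c293 (nat_lit 1) (nat_lit 7) (.s false (nat_lit 1) (nat_lit 18) (nat_lit 2) (nat_lit 10) (nat_lit 1) true (nat_lit 10) true (nat_lit 14) true (nat_lit 3) true (nat_lit 13) true (nat_lit 7) (.e true (nat_lit 1) (nat_lit 188) (nat_lit 5) (nat_lit 10) (.e false (nat_lit 1) (nat_lit 192) (nat_lit 5) (nat_lit 10) (.e true (nat_lit 3) (nat_lit 328) (nat_lit 1) (nat_lit 14) (.e false (nat_lit 2) (nat_lit 329) (nat_lit 1) (nat_lit 14) (.e true (nat_lit 2) (nat_lit 330) (nat_lit 1) (nat_lit 14) (.e true (nat_lit 1) (nat_lit 331) (nat_lit 1) (nat_lit 14) (.e false (nat_lit 2) (nat_lit 332) (nat_lit 1) (nat_lit 14) (.e false (nat_lit 3) (nat_lit 333) (nat_lit 1) (nat_lit 14) (.e false (nat_lit 1) (nat_lit 334) (nat_lit 1) (nat_lit 14) (.e false (nat_lit 1) (nat_lit 335) (nat_lit 1) (nat_lit 14) (.e true (nat_lit 1) (nat_lit 336) (nat_lit 1) (nat_lit 14) (.e true (nat_lit 2) (nat_lit 337) (nat_lit 1) (nat_lit 14) (.e true (nat_lit 1) (nat_lit 340) (nat_lit 1) (nat_lit 14) (.e false (nat_lit 1) (nat_lit 344) (nat_lit 1) (nat_lit 14) (.e true (nat_lit 1) (nat_lit 345) (nat_lit 1) (nat_lit 14) (.e false (nat_lit 1) (nat_lit 70) (nat_lit 18) (nat_lit 3) (.e true (nat_lit 1) (nat_lit 308) (nat_lit 2) (nat_lit 13) (.e false (nat_lit 1) (nat_lit 317) (nat_lit 2) (nat_lit 13) (.u (nat_lit 2) (.p (nat_lit 0) (nat_lit 2) (.p (nat_lit 1) (nat_lit 1) (.p (nat_lit 2) (nat_lit 1) (.p (nat_lit 3) (nat_lit 2) (.p (nat_lit 4) (nat_lit 1) (.n (nat_lit 7) (nat_lit 2) (.n (nat_lit 10) (nat_lit 1) (.p (nat_lit 11) (nat_lit 1) (.p (nat_lit 12) (nat_lit 2) (.p (nat_lit 13) (nat_lit 1) (.p (nat_lit 14) (nat_lit 1) (.p (nat_lit 15) (nat_lit 1) (.n (nat_lit 16) (nat_lit 1) (.n (nat_lit 33) (nat_lit 1) .z)))))))))))))) .nil))))))))))))))))))))) .leaf) (nat_lit 106507) (nat_lit 1508) (.n (nat_lit 460) (nat_lit 1) (.n (nat_lit 461) (nat_lit 1) (.p (nat_lit 463) (nat_lit 2) (.p (nat_lit 464) (nat_lit 2) (.n (nat_lit 465) (nat_lit 1) (.p (nat_lit 467) (nat_lit 1) (.n (nat_lit 468) (nat_lit 3) (.n (nat_lit 471) (nat_lit 1) (.n (nat_lit 472) (nat_lit 2) (.n (nat_lit 473) (nat_lit 3) (.n (nat_lit 474) (nat_lit 3) (.p (nat_lit 475) (nat_lit 3) (.p (nat_lit 476) (nat_lit 3) (.n (nat_lit 477) (nat_lit 1) (.p (nat_lit 479) (nat_lit 1) .z))))))))))))))) (.ct dC1c_c293 (nat_lit 1) (nat_lit 7) (.s false (nat_lit 1) (nat_lit 104) (nat_lit 2) (nat_lit 0) (nat_lit 1) true (nat_lit 10) true (nat_lit 14) false (nat_lit 7) true (nat_lit 13) true (nat_lit 15) (.e false (nat_lit 2) (nat_lit 180) (nat_lit 5) (nat_lit 10) (.e false (nat_lit 2) (nat_lit 181) (nat_lit 5) (nat_lit 10) (.e false (nat_lit 1) (nat_lit 182) (nat_lit 5) (nat_lit 10) (.e false (nat_lit 1) (nat_lit 183) (nat_lit 5) (nat_lit 10) (.e true (nat_lit 3) (nat_lit 184) (nat_lit 5) (nat_lit 10) (.e true (nat_lit 3) (nat_lit 185) (nat_lit 5) (nat_lit 10) (.e false (nat_lit 1) (nat_lit 186) (nat_lit 5) (nat_lit 10) (.e false (nat_lit 1) (nat_lit 187) (nat_lit 5) (nat_lit 10) (.e false (nat_lit 2) (nat_lit 188) (nat_lit 5) (nat_lit 10) (.e true (nat_lit 1) (nat_lit 189) (nat_lit 5) (nat_lit 10) (.e true (nat_lit 2) (nat_lit 190) (nat_lit 5) (nat_lit 10) (.e true (nat_lit 1) (nat_lit 192) (nat_lit 5) (nat_lit 10) (.e false (nat_lit 1) (nat_lit 194) (nat_lit 5) (nat_lit 10) (.e true (nat_lit 3) (nat_lit 328) (nat_lit 1) (nat_lit 14) (.e false (nat_lit 2) (nat_lit 329) (nat_lit 1) (nat_lit 14) (.e true (nat_lit 2) (nat_lit 330) (nat_lit 1) (nat_lit 14) (.e false (nat_lit 3) (nat_lit 331) (nat_lit 1) (nat_lit 14) (.e false (nat_lit 3) (nat_lit 332) (nat_lit 1) (nat_lit 14) (.e true (nat_lit 2) (nat_lit 334) (nat_lit 1) (nat_lit 14) (.e true (nat_lit 2) (nat_lit 335) (nat_lit 1) (nat_lit 14) (.e false (nat_lit 2) (nat_lit 337) (nat_lit 1) (nat_lit 14) (.e false (nat_lit 2) (nat_lit 338) (nat_lit 1) (nat_lit 14) (.e false (nat_lit 1) (nat_lit 340) (nat_lit 1) (nat_lit 14) dC1c_i81))))))))))))))))))))))))) (.nd (.nd .leaf (nat_lit 106508) (nat_lit 1510) (.n (nat_lit 461) (nat_lit 2) (.p (nat_lit 462) (nat_lit 1) (.p (nat_lit 464) (nat_lit 2) (.n (nat_lit 465) (nat_lit 1) (.p (nat_lit 467) (nat_lit 2) (.p (nat_lit 468) (nat_lit 2) (.n (nat_lit 469) (nat_lit 2) (.p (nat_lit 470) (nat_lit 2) (.n (nat_lit 471) (nat_lit 3) (.p (nat_lit 472) (nat_lit 2) (.p (nat_lit 473) (nat_lit 2) (.p (nat_lit 474) (nat_lit 2) (.n (nat_lit 475) (nat_lit 3) (.n (nat_lit 476) (nat_lit 3) (.n (nat_lit 477) (nat_lit 3) (.n (nat_lit 479) (nat_lit 2) (.p (nat_lit 489) (nat_lit 3) (.p (nat_lit 493) (nat_lit 2) .z)))))))))))))))))) (.ct dC1c_c293 (nat_lit 1) (nat_lit 7) (.s false (nat_lit 1) (nat_lit 18) (nat_lit 2) (nat_lit 12) (nat_lit 1) true (nat_lit 10) true (nat_lit 14) true (nat_lit 3) true (nat_lit 13) true (nat_lit 7) (.e true (nat_lit 1) (nat_lit 190) (nat_lit 5) (nat_lit 10) (.e false (nat_lit 1) (nat_lit 194) (nat_lit 5) (nat_lit 10) (.e true (nat_lit 1) (nat_lit 338) (nat_lit 1) (nat_lit 14) (.e false (nat_lit 1) (nat_lit 346) (nat_lit 1) (nat_lit 14) (.e true (nat_lit 1) (nat_lit 67) (nat_lit 18) (nat_lit 3) (.e false (nat_lit 1) (nat_lit 71) (nat_lit 18) (nat_lit 3) (.e true (nat_lit 1) (nat_lit 75) (nat_lit 18) (nat_lit 3) (.e false (nat_lit 1) (nat_lit 290) (nat_lit 2) (nat_lit 13) (.e false (nat_lit 1) (nat_lit 291) (nat_lit 2) (nat_lit 13) (.e false (nat_lit 2) (nat_lit 292) (nat_lit 2) (nat_lit 13) (.e true (nat_lit 2) (nat_lit 293) (nat_lit 2) (nat_lit 13) (.e true (nat_lit 3) (nat_lit 294) (nat_lit 2) (nat_lit 13) (.e false (nat_lit 1) (nat_lit 298) (nat_lit 2) (nat_lit 13) (.e false (nat_lit 1) (nat_lit 299) (nat_lit 2) (nat_lit 13) (.e true (nat_lit 1) (nat_lit 301) (nat_lit 2) (nat_lit 13) (.e true (nat_lit 2) (nat_lit 304) (nat_lit 2) (nat_lit 13) (.e false (nat_lit 1) (nat_lit 308) (nat_lit 2) (nat_lit 13) (.e true (nat_lit 1) (nat_lit 309) (nat_lit 2) (nat_lit 13) (.e true (nat_lit 1) (nat_lit 310) (nat_lit 2) (nat_lit 13) (.e false (nat_lit 3) (nat_lit 316) (nat_lit 2) (nat_lit 13) (.e true (nat_lit 3) (nat_lit 317) (nat_lit 2) (nat_lit 13) (.e false (nat_lit 1) (nat_lit 318) (nat_lit 2) (nat_lit 13) (.u (nat_lit 2) (.n (nat_lit 0) (nat_lit 3) (.p (nat_lit 2) (nat_lit 2) (.n (nat_lit 3) (nat_lit 4) (.n (nat_lit 4) (nat_lit 1) (.p (nat_lit 5) (nat_lit 1) (.p (nat_lit 7) (nat_lit 1) (.n (nat_lit 8) (nat_lit 1) (.p (nat_lit 9) (nat_lit 1) (.p (nat_lit 11) (nat_lit 2) (.n (nat_lit 12) (nat_lit 3) (.n (nat_lit 13) (nat_lit 1) (.n (nat_lit 14) (nat_lit 2) (.p (nat_lit 15) (nat_lit 1) (.p (nat_lit 16) (nat_lit 2) (.p (nat_lit 17) (nat_lit 3) (.p (nat_lit 19) (nat_lit 1) (.n (nat_lit 26) (nat_lit 1) (.p (nat_lit 29) (nat_lit 3) (.p (nat_lit 33) (nat_lit 2) .z))))))))))))))))))) .nil))))))))))))))))))))))))) .leaf) (nat_lit 107520) (nat_lit 371) (.n (nat_lit 183) (nat_lit 1) (.n (nat_lit 185) (nat_lit 1) (.n (nat_lit 186) (nat_lit 2) (.n (nat_lit 187) (nat_lit 1) (.p (nat_lit 188) (nat_lit 1) (.p (nat_lit 189) (nat_lit 2) (.p (nat_lit 190) (nat_lit 3) (.n (nat_lit 191) (nat_lit 1) (.n (nat_lit 193) (nat_lit 1) (.n (nat_lit 195) (nat_lit 1) .z)))))))))) (.ct dC1c_c276 (nat_lit 1) (nat_lit 8) (.s false (nat_lit 1) (nat_lit 16) (nat_lit 0) (nat_lit 2) (nat_lit 2) true (nat_lit 4) true (nat_lit 6) false (nat_lit 0) true (nat_lit 8) true (nat_lit 6) (.e false (nat_lit 1) (nat_lit 43) (nat_lit 4) (nat_lit 4) (.e false (nat_lit 1) (nat_lit 87) (nat_lit 2) (nat_lit 6) (.e false (nat_lit 1) (nat_lit 16) (nat_lit 14) (nat_lit 0) (.e false (nat_lit 1) (nat_lit 89) (nat_lit 2) (nat_lit 6) (.u (nat_lit 2) (.p (nat_lit 3) (nat_lit 1) (.n (nat_lit 9) (nat_lit 1) (.n (nat_lit 10) (nat_lit 1) .z))) .nil))))))) .leaf))) (nat_lit 107521) (nat_lit 384) (.p (nat_lit 201) (nat_lit 1) .z) .df (.nd (.nd (.nd (.nd .leaf (nat_lit 107522) (nat_lit 415) (.p (nat_lit 208) (nat_lit 1) (.p (nat_lit 209) (nat_lit 1) .z)) (.ct dC1c_c21 (nat_lit 1) (nat_lit 3) (.s true (nat_lit 1) (nat_lit 18) (nat_lit 2) (nat_lit 2) (nat_lit 1) true (nat_lit 2) true (nat_lit 4) false (nat_lit 0) true (nat_lit 3) true (nat_lit 3) (.e true (nat_lit 1) (nat_lit 46) (nat_lit 5) (nat_lit 2) (.e true (nat_lit 1) (nat_lit 106) (nat_lit 1) (nat_lit 4) (.e false (nat_lit 1) (nat_lit 18) (nat_lit 17) (nat_lit 0) (.e false (nat_lit 1) (nat_lit 103) (nat_lit 2) (nat_lit 3) (.e false (nat_lit 2) (nat_lit 104) (nat_lit 2) (nat_lit 3) .nil))))))) .leaf) (nat_lit 107523) (nat_lit 728) (.n (nat_lit 290) (nat_lit 3) (.n (nat_lit 291) (nat_lit 2) (.n (nat_lit 292) (nat_lit 2) (.p (nat_lit 293) (nat_lit 2) (.n (nat_lit 294) (nat_lit 2) (.p (nat_lit 299) (nat_lit 2) (.p (nat_lit 301) (nat_lit 3) (.n (nat_lit 304) (nat_lit 3) (.n (nat_lit 307) (nat_lit 3) (.n (nat_lit 308) (nat_lit 3) (.p (nat_lit 310) (nat_lit 2) (.p (nat_lit 311) (nat_lit 1) (.p (nat_lit 317) (nat_lit 1) (.p (nat_lit 319) (nat_lit 1) .z)))))))))))))) (.ct dC1c_c292 (nat_lit 1) (nat_lit 9) (.s false (nat_lit 1) (nat_lit 16) (nat_lit 3) (nat_lit 2) (nat_lit 2) true (nat_lit 4) true (nat_lit 10) true (nat_lit 1) true (nat_lit 9) true (nat_lit 10) (.e true (nat_lit 1) (nat_lit 43) (nat_lit 10) (nat_lit 4) (.e false (nat_lit 2) (nat_lit 153) (nat_lit 2) (nat_lit 10) (.e false (nat_lit 1) (nat_lit 154) (nat_lit 2) (nat_lit 10) (.e true (nat_lit 1) (nat_lit 155) (nat_lit 2) (nat_lit 10) (.e false (nat_lit 1) (nat_lit 156) (nat_lit 2) (nat_lit 10) (.e true (nat_lit 1) (nat_lit 157) (nat_lit 2) (nat_lit 10) (.e false (nat_lit 1) (nat_lit 31) (nat_lit 16) (nat_lit 1) (.e false (nat_lit 1) (nat_lit 162) (nat_lit 2) (nat_lit 10) (.e true (nat_lit 1) (nat_lit 164) (nat_lit 2) (nat_lit 10) (.e true (nat_lit 1) (nat_lit 170) (nat_lit 2) (nat_lit 10) (.e false (nat_lit 1) (nat_lit 171) (nat_lit 2) (nat_lit 10) (.e false (nat_lit 1) (nat_lit 173) (nat_lit 2) (nat_lit 10) (.u (nat_lit 2) (.p (nat_lit 0) (nat_lit 1) (.n (nat_lit 11) (nat_lit 1) (.p (nat_lit 14) (nat_lit 1) (.p (nat_lit 18) (nat_lit 1) .z)))) .nil))))))))))))))) .leaf) (nat_lit 107524) (nat_lit 873) (.n (nat_lit 328) (nat_lit 2) (.p (nat_lit 329) (nat_lit 3) (.n (nat_lit 330) (nat_lit 2) (.p (nat_lit 331) (nat_lit 3) (.p (nat_lit 332) (nat_lit 2) (.n (nat_lit 333) (nat_lit 2) (.n (nat_lit 334) (nat_lit 2) (.p (nat_lit 335) (nat_lit 2) (.p (nat_lit 336) (nat_lit 1) (.p (nat_lit 337) (nat_lit 2) (.p (nat_lit 338) (nat_lit 1) (.p (nat_lit 343) (nat_lit 1) (.p (nat_lit 344) (nat_lit 1) .z))))))))))))) (.ct dC1c_c277 (nat_lit 1) (nat_lit 6) (.s false (nat_lit 1) (nat_lit 16) (nat_lit 4) (nat_lit 2) (nat_lit 2) true (nat_lit 2) true (nat_lit 8) true (nat_lit 1) true (nat_lit 6) true (nat_lit 8) (.e false (nat_lit 1) (nat_lit 43) (nat_lit 14) (nat_lit 2) (.e true (nat_lit 3) (nat_lit 180) (nat_lit 2) (nat_lit 8) (.e true (nat_lit 2) (nat_lit 181) (nat_lit 2) (nat_lit 8) (.e false (nat_lit 3) (nat_lit 183) (nat_lit 2) (nat_lit 8) (.e false (nat_lit 3) (nat_lit 184) (nat_lit 2) (nat_lit 8) (.e false (nat_lit 1) (nat_lit 185) (nat_lit 2) (nat_lit 8) (.e false (nat_lit 2) (nat_lit 186) (nat_lit 2) (nat_lit 8) (.e true (nat_lit 3) (nat_lit 189) (nat_lit 2) (nat_lit 8) (.e false (nat_lit 1) (nat_lit 40) (nat_lit 16) (nat_lit 1) (.e false (nat_lit 1) (nat_lit 182) (nat_lit 2) (nat_lit 8) (.e false (nat_lit 3) (nat_lit 187) (nat_lit 2) (nat_lit 8) (.e false (nat_lit 3) (nat_lit 190) (nat_lit 2) (nat_lit 8) (.e false (nat_lit 1) (nat_lit 195) (nat_lit 2) (nat_lit 8) (.u (nat_lit 2) (.p (nat_lit 0) (nat_lit 1) (.n (nat_lit 1) (nat_lit 1) (.p (nat_lit 2) (nat_lit 1) (.n (nat_lit 3) (nat_lit 1) (.n (nat_lit 4) (nat_lit 1) (.p (nat_lit 5) (nat_lit 1) (.n (nat_lit 8) (nat_lit 1) (.n (nat_lit 63) (nat_lit 1) (.p (nat_lit 69) (nat_lit 1) .z))))))))) .nil)))))))))))))))) (.nd (.nd .leaf (nat_lit 107525) (nat_lit 894) (.p (nat_lit 354) (nat_lit 1) .z) .df .leaf) (nat_lit 107527) (nat_lit 1065) (.n (nat_lit 355) (nat_lit 2) (.p (nat_lit 356) (nat_lit 2) (.n (nat_lit 357) (nat_lit 2) (.n (nat_lit 358) (nat_lit 3) (.n (nat_lit 360) (nat_lit 3) (.n (nat_lit 361) (nat_lit 3) (.p (nat_lit 362) (nat_lit 3) (.p (nat_lit 363) (nat_lit 3) (.p (nat_lit 364) (nat_lit 3) (.p (nat_lit 365) (nat_lit 2) (.n (nat_lit 366) (nat_lit 3) (.n (nat_lit 367) (nat_lit 1) (.n (nat_lit 369) (nat_lit 2) (.n (nat_lit 370) (nat_lit 3) (.n (nat_lit 372) (nat_lit 1) (.p (nat_lit 373) (nat_lit 2) (.n (nat_lit 374) (nat_lit 3) (.n (nat_lit 376) (nat_lit 3) (.p (nat_lit 378) (nat_lit 3) (.p (nat_lit 379) (nat_lit 2) (.p (nat_lit 380) (nat_lit 2) (.p (nat_lit 381) (nat_lit 2) (.n (nat_lit 383) (nat_lit 2) (.p (nat_lit 384) (nat_lit 1) (.n (nat_lit 385) (nat_lit 1) (.n (nat_lit 386) (nat_lit 2) (.n (nat_lit 387) (nat_lit 3) (.n (nat_lit 388) (nat_lit 3) (.p (nat_lit 389) (nat_lit 1) (.p (nat_lit 390) (nat_lit 3) (.p (nat_lit 391) (nat_lit 2) (.p (nat_lit 392) (nat_lit 3) (.p (nat_lit 394) (nat_lit 2) (.n (nat_lit 395) (nat_lit 1) (.n (nat_lit 400) (nat_lit 2) (.p (nat_lit 401) (nat_lit 3) (.n (nat_lit 403) (nat_lit 3) .z))))))))))))))))))))))))))))))))))))) (.ct dC1c_c548 (nat_lit 1) (nat_lit 12) (.s true (nat_lit 1) (nat_lit 105) (nat_lit 0) (nat_lit 1) (nat_lit 0) false (nat_lit 20) true (nat_lit 19) false (nat_lit 12) true (nat_lit 19) true (nat_lit 18) (.e false (nat_lit 3) (nat_lit 313) (nat_lit 0) (nat_lit 19) (.e false (nat_lit 1) (nat_lit 292) (nat_lit 0) (nat_lit 19) (.e true (nat_lit 2) (nat_lit 293) (nat_lit 0) (nat_lit 19) (.e true (nat_lit 2) (nat_lit 294) (nat_lit 0) (nat_lit 19) (.e false (nat_lit 1) (nat_lit 298) (nat_lit 0) (nat_lit 19) (.e false (nat_lit 3) (nat_lit 299) (nat_lit 0) (nat_lit 19) (.e true (nat_lit 1) (nat_lit 301) (nat_lit 0) (nat_lit 19) (.e false (nat_lit 1) (nat_lit 304) (nat_lit 0) (nat_lit 19) (.e true (nat_lit 2) (nat_lit 311) (nat_lit 0) (nat_lit 19) (.e false (nat_lit 2) (nat_lit 314) (nat_lit 0) (nat_lit 19) (.e true (nat_lit 1) (nat_lit 290) (nat_lit 0) (nat_lit 19) (.e false (nat_lit 3) (nat_lit 295) (nat_lit 0) (nat_lit 19) (.e true (nat_lit 2) (nat_lit 302) (nat_lit 0) (nat_lit 19) (.e false (nat_lit 1) (nat_lit 305) (nat_lit 0) (nat_lit 19) (.e true (nat_lit 3) (nat_lit 307) (nat_lit 0) (nat_lit 19) (.e false (nat_lit 1) (nat_lit 317) (nat_lit 0) (nat_lit 19) (.e true (nat_lit 1) (nat_lit 318) (nat_lit 0) (nat_lit 19) (.e true (nat_lit 1) (nat_lit 319) (nat_lit 0) (nat_lit 19) (.e false (nat_lit 2) (nat_lit 296) (nat_lit 0) (nat_lit 19) (.e true (nat_lit 2) (nat_lit 297) (nat_lit 0) (nat_lit 19) (.e true (nat_lit 1) (nat_lit 310) (nat_lit 0) (nat_lit 19) (.e false (nat_lit 2) (nat_lit 315) (nat_lit 0) (nat_lit 19) (.e false (nat_lit 2) (nat_lit 316) (nat_lit 0) (nat_lit 19) dC1c_i82))))))))))))))))))))))))) .leaf)) (nat_lit 107529) (nat_lit 1342) (.n (nat_lit 427) (nat_lit 2) (.p (nat_lit 428) (nat_lit 2) (.p (nat_lit 429) (nat_lit 1) (.n (nat_lit 430) (nat_lit 2) (.p (nat_lit 432) (nat_lit 3) (.p (nat_lit 433) (nat_lit 3) (.p (nat_lit 435) (nat_lit 1) (.n (nat_lit 436) (nat_lit 1) (.p (nat_lit 439) (nat_lit 2) (.n (nat_lit 441) (nat_lit 1) (.n (nat_lit 443) (nat_lit 3) (.n (nat_lit 444) (nat_lit 1) (.p (nat_lit 445) (nat_lit 3) (.p (nat_lit 447) (nat_lit 2) (.p (nat_lit 452) (nat_lit 3) (.p (nat_lit 456) (nat_lit 3) (.p (nat_lit 459) (nat_lit 2) .z))))))))))))))))) (.ct dC1c_c533 (nat_lit 1) (nat_lit 7) (.s false (nat_lit 1) (nat_lit 18) (nat_lit 2) (nat_lit 1) (nat_lit 9) true (nat_lit 1) true (nat_lit 7) true (nat_lit 3) true (nat_lit 13) true (nat_lit 14) (.e true (nat_lit 1) (nat_lit 45) (nat_lit 28) (nat_lit 1) (.e false (nat_lit 1) (nat_lit 103) (nat_lit 9) (nat_lit 7) (.e true (nat_lit 1) (nat_lit 55) (nat_lit 18) (nat_lit 3) (.e true (nat_lit 1) (nat_lit 57) (nat_lit 18) (nat_lit 3) (.e true (nat_lit 3) (nat_lit 59) (nat_lit 18) (nat_lit 3) (.e true (nat_lit 3) (nat_lit 60) (nat_lit 18) (nat_lit 3) (.e true (nat_lit 3) (nat_lit 61) (nat_lit 18) (nat_lit 3) (.e true (nat_lit 1) (nat_lit 62) (nat_lit 18) (nat_lit 3) (.e true (nat_lit 1) (nat_lit 63) (nat_lit 18) (nat_lit 3) (.e false (nat_lit 3) (nat_lit 64) (nat_lit 18) (nat_lit 3) (.e true (nat_lit 2) (nat_lit 65) (nat_lit 18) (nat_lit 3) (.e false (nat_lit 1) (nat_lit 278) (nat_lit 2) (nat_lit 13) (.e true (nat_lit 1) (nat_lit 287) (nat_lit 2) (nat_lit 13) (.e false (nat_lit 1) (nat_lit 321) (nat_lit 1) (nat_lit 14) (.e false (nat_lit 1) (nat_lit 322) (nat_lit 1) (nat_lit 14) (.e true (nat_lit 1) (nat_lit 324) (nat_lit 1) (nat_lit 14) (.e true (nat_lit 1) (nat_lit 325) (nat_lit 1) (nat_lit 14) (.u (nat_lit 2) (.n (nat_lit 0) (nat_lit 1) (.n (nat_lit 1) (nat_lit 2) (.p (nat_lit 2) (nat_lit 3) (.p (nat_lit 3) (nat_lit 2) (.p (nat_lit 4) (nat_lit 1) (.p (nat_lit 5) (nat_lit 1) (.n (nat_lit 8) (nat_lit 4) (.p (nat_lit 9) (nat_lit 1) (.n (nat_lit 10) (nat_lit 1) (.n (nat_lit 13) (nat_lit 2) (.p (nat_lit 15) (nat_lit 1) (.p (nat_lit 16) (nat_lit 2) (.p (nat_lit 17) (nat_lit 1) (.n (nat_lit 19) (nat_lit 1) (.n (nat_lit 30) (nat_lit 4) .z))))))))))))))) .nil)))))))))))))))))))) (.nd (.nd (.nd .leaf (nat_lit 107530) (nat_lit 1461) (.p (nat_lit 460) (nat_lit 2) (.n (nat_lit 462) (nat_lit 2) (.p (nat_lit 463) (nat_lit 3) (.p (nat_lit 465) (nat_lit 3) (.n (nat_lit 467) (nat_lit 2) (.n (nat_lit 468) (nat_lit 2) (.n (nat_lit 469) (nat_lit 1) (.p (nat_lit 470) (nat_lit 2) (.p (nat_lit 472) (nat_lit 1) (.n (nat_lit 473) (nat_lit 3) (.n (nat_lit 474) (nat_lit 3) (.n (nat_lit 475) (nat_lit 3) (.n (nat_lit 476) (nat_lit 3) (.n (nat_lit 479) (nat_lit 1) (.p (nat_lit 481) (nat_lit 2) (.p (nat_lit 486) (nat_lit 3) (.p (nat_lit 489) (nat_lit 1) (.p (nat_lit 493) (nat_lit 3) .z)))))))))))))))))) (.ct dC1c_c293 (nat_lit 1) (nat_lit 7) (.s false (nat_lit 1) (nat_lit 16) (nat_lit 10) (nat_lit 2) (nat_lit 2) true (nat_lit 1) true (nat_lit 13) true (nat_lit 4) true (nat_lit 7) true (nat_lit 13) (.s true (nat_lit 1) (nat_lit 31) (nat_lit 5) (nat_lit 2) (nat_lit 2) true (nat_lit 4) true (nat_lit 13) true (nat_lit 1) true (nat_lit 10) true (nat_lit 13) (.e true (nat_lit 1) (nat_lit 294) (nat_lit 2) (nat_lit 13) (.e false (nat_lit 3) (nat_lit 299) (nat_lit 2) (nat_lit 13) (.e true (nat_lit 1) (nat_lit 301) (nat_lit 2) (nat_lit 13) (.e false (nat_lit 2) (nat_lit 290) (nat_lit 2) (nat_lit 13) (.e true (nat_lit 1) (nat_lit 292) (nat_lit 2) (nat_lit 13) (.e false (nat_lit 1) (nat_lit 293) (nat_lit 2) (nat_lit 13) (.e true (nat_lit 1) (nat_lit 298) (nat_lit 2) (nat_lit 13) (.e false (nat_lit 2) (nat_lit 304) (nat_lit 2) (nat_lit 13) (.e true (nat_lit 1) (nat_lit 307) (nat_lit 2) (nat_lit 13) (.e false (nat_lit 1) (nat_lit 310) (nat_lit 2) (nat_lit 13) (.e false (nat_lit 2) (nat_lit 319) (nat_lit 2) (nat_lit 13) (.e false (nat_lit 1) (nat_lit 291) (nat_lit 2) (nat_lit 13) (.e false (nat_lit 1) (nat_lit 192) (nat_lit 5) (nat_lit 10) (.u (nat_lit 2) (.n (nat_lit 0) (nat_lit 2) (.p (nat_lit 1) (nat_lit 2) (.n (nat_lit 2) (nat_lit 1) (.n (nat_lit 3) (nat_lit 1) (.p (nat_lit 4) (nat_lit 1) (.n (nat_lit 6) (nat_lit 1) (.p (nat_lit 7) (nat_lit 2) (.p (nat_lit 9) (nat_lit 1) (.n (nat_lit 10) (nat_lit 3) (.p (nat_lit 11) (nat_lit 2) (.p (nat_lit 13) (nat_lit 3) (.p (nat_lit 14) (nat_lit 3) (.n (nat_lit 15) (nat_lit 2) (.p (nat_lit 16) (nat_lit 1) (.p (nat_lit 17) (nat_lit 1) (.n (nat_lit 21) (nat_lit 1) (.p (nat_lit 23) (nat_lit 1) (.n (nat_lit 26) (nat_lit 1) (.n (nat_lit 29) (nat_lit 1) .z))))))))))))))))))) .nil))))))))))))))))) .leaf) (nat_lit 107532) (nat_lit 1530) (.n (nat_lit 461) (nat_lit 3) (.p (nat_lit 462) (nat_lit 3) (.p (nat_lit 464) (nat_lit 1) (.n (nat_lit 465) (nat_lit 2) (.p (nat_lit 469) (nat_lit 2) (.n (nat_lit 470) (nat_lit 3) (.p (nat_lit 471) (nat_lit 2) (.n (nat_lit 472) (nat_lit 3) (.p (nat_lit 473) (nat_lit 2) (.p (nat_lit 474) (nat_lit 2) (.p (nat_lit 475) (nat_lit 3) (.p (nat_lit 476) (nat_lit 3) (.p (nat_lit 479) (nat_lit 3) (.n (nat_lit 481) (nat_lit 2) (.p (nat_lit 482) (nat_lit 2) (.n (nat_lit 486) (nat_lit 3) (.p (nat_lit 487) (nat_lit 3) (.p (nat_lit 489) (nat_lit 2) (.n (nat_lit 493) (nat_lit 1) .z))))))))))))))))))) (.ct dC1c_c293 (nat_lit 1) (nat_lit 7) (.s true (nat_lit 1) (nat_lit 46) (nat_lit 5) (nat_lit 1) (nat_lit 0) true (nat_lit 7) true (nat_lit 15) false (nat_lit 2) true (nat_lit 10) true (nat_lit 14) (.e false (nat_lit 1) (nat_lit 103) (nat_lit 12) (nat_lit 7) dC1c_i83))) .leaf) (nat_lit 108544) (nat_lit 399) (.p (nat_lit 205) (nat_lit 1) .z) .df (.nd (.nd .leaf (nat_lit 108545) (nat_lit 410) (.p (nat_lit 210) (nat_lit 1) .z) .df .leaf) (nat_lit 108547) (nat_lit 859) (.n (nat_lit 328) (nat_lit 3) (.p (nat_lit 329) (nat_lit 2) (.n (nat_lit 330) (nat_lit 2) (.n (nat_lit 331) (nat_lit 1) (.p (nat_lit 332) (nat_lit 2) (.p (nat_lit 333) (nat_lit 3) (.p (nat_lit 334) (nat_lit 1) (.p (nat_lit 335) (nat_lit 1) (.p (nat_lit 336) (nat_lit 1) (.p (nat_lit 337) (nat_lit 2) (.p (nat_lit 338) (nat_lit 3) (.n (nat_lit 341) (nat_lit 1) (.p (nat_lit 344) (nat_lit 1) (.n (nat_lit 345) (nat_lit 1) .z)))))))))))))) (.ct dC1c_c277 (nat_lit 1) (nat_lit 7) (.s true (nat_lit 1) (nat_lit 18) (nat_lit 2) (nat_lit 3) (nat_lit 2) true (nat_lit 4) true (nat_lit 8) true (nat_lit 0) true (nat_lit 8) true (nat_lit 7) (.e false (nat_lit 1) (nat_lit 83) (nat_lit 6) (nat_lit 4) (.e true (nat_lit 1) (nat_lit 84) (nat_lit 6) (nat_lit 4) (.e false (nat_lit 1) (nat_lit 85) (nat_lit 6) (nat_lit 4) (.e true (nat_lit 1) (nat_lit 87) (nat_lit 6) (nat_lit 4) (.e true (nat_lit 1) (nat_lit 90) (nat_lit 6) (nat_lit 4) (.e false (nat_lit 1) (nat_lit 181) (nat_lit 2) (nat_lit 8) (.e true (nat_lit 1) (nat_lit 182) (nat_lit 2) (nat_lit 8) (.e false (nat_lit 1) (nat_lit 183) (nat_lit 2) (nat_lit 8) (.e true (nat_lit 1) (nat_lit 185) (nat_lit 2) (nat_lit 8) (.e true (nat_lit 2) (nat_lit 192) (nat_lit 2) (nat_lit 8) (.e false (nat_lit 1) (nat_lit 31) (nat_lit 18) (nat_lit 0) (.e false (nat_lit 1) (nat_lit 188) (nat_lit 2) (nat_lit 8) (.u (nat_lit 2) (.n (nat_lit 2) (nat_lit 1) (.p (nat_lit 3) (nat_lit 1) (.n (nat_lit 8) (nat_lit 1) (.n (nat_lit 9) (nat_lit 1) .z)))) .nil))))))))))))))) .leaf))))))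

noncomputable def dC1c_t2 : Tr := (.nd dC1c_t0 (nat_lit 98306) (nat_lit 382) (.p (nat_lit 199) (nat_lit 1) .z) .df dC1c_t1)

noncomputable def dC1c_t3 : Tr := (.nd (.nd (.nd (.nd (.nd (.nd (.nd .leaf (nat_lit 108552) (nat_lit 1486) (.p (nat_lit 460) (nat_lit 3) (.n (nat_lit 461) (nat_lit 3) (.n (nat_lit 462) (nat_lit 3) (.p (nat_lit 463) (nat_lit 1) (.n (nat_lit 465) (nat_lit 1) (.n (nat_lit 467) (nat_lit 1) (.p (nat_lit 468) (nat_lit 1) (.n (nat_lit 469) (nat_lit 3) (.n (nat_lit 470) (nat_lit 2) (.n (nat_lit 472) (nat_lit 1) (.p (nat_lit 473) (nat_lit 3) (.p (nat_lit 474) (nat_lit 3) (.p (nat_lit 476) (nat_lit 2) (.p (nat_lit 479) (nat_lit 1) .z)))))))))))))) (.ct dC1c_c293 (nat_lit 1) (nat_lit 8) (.s false (nat_lit 1) (nat_lit 46) (nat_lit 3) (nat_lit 2) (nat_lit 1) true (nat_lit 8) true (nat_lit 14) false (nat_lit 2) true (nat_lit 12) true (nat_lit 13) (.e true (nat_lit 1) (nat_lit 329) (nat_lit 1) (nat_lit 14) (.e false (nat_lit 1) (nat_lit 330) (nat_lit 1) (nat_lit 14) (.e true (nat_lit 1) (nat_lit 331) (nat_lit 1) (nat_lit 14) (.e false (nat_lit 1) (nat_lit 333) (nat_lit 1) (nat_lit 14) (.e false (nat_lit 1) (nat_lit 336) (nat_lit 1) (nat_lit 14) (.e true (nat_lit 1) (nat_lit 46) (nat_lit 25) (nat_lit 2) (.e true (nat_lit 1) (nat_lit 209) (nat_lit 3) (nat_lit 12) (.e false (nat_lit 1) (nat_lit 210) (nat_lit 3) (nat_lit 12) (.e true (nat_lit 1) (nat_lit 211) (nat_lit 3) (nat_lit 12) (.e true (nat_lit 1) (nat_lit 290) (nat_lit 2) (nat_lit 13) (.e false (nat_lit 3) (nat_lit 291) (nat_lit 2) (nat_lit 13) (.e true (nat_lit 3) (nat_lit 294) (nat_lit 2) (nat_lit 13) (.e true (nat_lit 1) (nat_lit 298) (nat_lit 2) (nat_lit 13) (.e true (nat_lit 2) (nat_lit 301) (nat_lit 2) (nat_lit 13) (.e true (nat_lit 1) (nat_lit 304) (nat_lit 2) (nat_lit 13) (.e false (nat_lit 1) (nat_lit 307) (nat_lit 2) (nat_lit 13) (.e false (nat_lit 2) (nat_lit 308) (nat_lit 2) (nat_lit 13) (.e false (nat_lit 2) (nat_lit 316) (nat_lit 2) (nat_lit 13) (.e false (nat_lit 3) (nat_lit 317) (nat_lit 2) (nat_lit 13) (.e true (nat_lit 2) (nat_lit 292) (nat_lit 2) (nat_lit 13) (.e false (nat_lit 2) (nat_lit 293) (nat_lit 2) (nat_lit 13) (.e false (nat_lit 2) (nat_lit 310) (nat_lit 2) (nat_lit 13) (.u (nat_lit 2) (.p (nat_lit 0) (nat_lit 3) (.p (nat_lit 1) (nat_lit 4) (.p (nat_lit 3) (nat_lit 3) (.p (nat_lit 4) (nat_lit 1) (.n (nat_lit 5) (nat_lit 1) (.n (nat_lit 7) (nat_lit 1) (.p (nat_lit 9) (nat_lit 3) (.n (nat_lit 11) (nat_lit 1) (.n (nat_lit 13) (nat_lit 3) (.n (nat_lit 14) (nat_lit 3) (.n (nat_lit 15) (nat_lit 1) (.p (nat_lit 16) (nat_lit 1) (.n (nat_lit 19) (nat_lit 1) (.p (nat_lit 21) (nat_lit 1) (.n (nat_lit 23) (nat_lit 1) (.n (nat_lit 29) (nat_lit 1) (.p (nat_lit 33) (nat_lit 1) (.n (nat_lit 174) (nat_lit 1) (.p (nat_lit 184) (nat_lit 1) (.n (nat_lit 190) (nat_lit 1) (.n (nat_lit 191) (nat_lit 1) .z))))))))))))))))))))) .nil))))))))))))))))))))))))) .leaf) (nat_lit 109570) (nat_lit 455) (.p (nat_lit 249) (nat_lit 1) .z) .df (.nd .leaf (nat_lit 109574) (nat_lit 1130) (.p (nat_lit 355) (nat_lit 1) (.p (nat_lit 356) (nat_lit 3) (.n (nat_lit 357) (nat_lit 3) (.n (nat_lit 358) (nat_lit 3) (.n (nat_lit 359) (nat_lit 2) (.p (nat_lit 360) (nat_lit 1) (.p (nat_lit 361) (nat_lit 2) (.n (nat_lit 362) (nat_lit 2) (.p (nat_lit 364) (nat_lit 2) (.p (nat_lit 365) (nat_lit 2) (.n (nat_lit 366) (nat_lit 3) (.p (nat_lit 367) (nat_lit 3) (.n (nat_lit 369) (nat_lit 2) (.p (nat_lit 370) (nat_lit 2) (.p (nat_lit 372) (nat_lit 1) (.p (nat_lit 373) (nat_lit 3) (.n (nat_lit 374) (nat_lit 1) (.p (nat_lit 381) (nat_lit 3) (.n (nat_lit 382) (nat_lit 2) (.p (nat_lit 383) (nat_lit 1) (.p (nat_lit 384) (nat_lit 2) (.p (nat_lit 385) (nat_lit 3) (.n (nat_lit 386) (nat_lit 2) (.p (nat_lit 387) (nat_lit 1) (.n (nat_lit 388) (nat_lit 2) (.n (nat_lit 389) (nat_lit 2) (.p (nat_lit 390) (nat_lit 3) (.n (nat_lit 391) (nat_lit 1) (.n (nat_lit 392) (nat_lit 1) (.p (nat_lit 393) (nat_lit 2) (.p (nat_lit 395) (nat_lit 1) (.p (nat_lit 396) (nat_lit 3) (.p (nat_lit 422) (nat_lit 2) .z))))))))))))))))))))))))))))))))) (.ct dC1c_c548 (nat_lit 1) (nat_lit 13) (.s false (nat_lit 3) (nat_lit 8) (nat_lit 6) (nat_lit 6) (nat_lit 0) true (nat_lit 7) true (nat_lit 19) true (nat_lit 11) true (nat_lit 13) true (nat_lit 13) (.e true (nat_lit 3) (nat_lit 74) (nat_lit 15) (nat_lit 7) (.e true (nat_lit 1) (nat_lit 307) (nat_lit 0) (nat_lit 19) (.e true (nat_lit 1) (nat_lit 112) (nat_lit 6) (nat_lit 13) (.e false (nat_lit 1) (nat_lit 114) (nat_lit 6) (nat_lit 13) (.e true (nat_lit 3) (nat_lit 126) (nat_lit 6) (nat_lit 13) (.e false (nat_lit 1) (nat_lit 129) (nat_lit 6) (nat_lit 13) (.u (nat_lit 2) (.p (nat_lit 0) (nat_lit 2) (.n (nat_lit 2) (nat_lit 2) (.p (nat_lit 4) (nat_lit 2) (.p (nat_lit 8) (nat_lit 2) (.n (nat_lit 9) (nat_lit 2) (.p (nat_lit 11) (nat_lit 2) (.p (nat_lit 12) (nat_lit 1) (.n (nat_lit 14) (nat_lit 2) (.n (nat_lit 17) (nat_lit 3) (.n (nat_lit 20) (nat_lit 2) (.n (nat_lit 26) (nat_lit 1) (.n (nat_lit 27) (nat_lit 1) (.n (nat_lit 32) (nat_lit 1) (.p (nat_lit 34) (nat_lit 1) (.n (nat_lit 35) (nat_lit 1) (.p (nat_lit 36) (nat_lit 1) (.p (nat_lit 37) (nat_lit 1) (.p (nat_lit 38) (nat_lit 1) (.p (nat_lit 41) (nat_lit 1) (.n (nat_lit 67) (nat_lit 1) (.p (nat_lit 244) (nat_lit 1) (.p (nat_lit 249) (nat_lit 1) (.n (nat_lit 251) (nat_lit 1) (.n (nat_lit 266) (nat_lit 1) (.p (nat_lit 422) (nat_lit 1) .z))))))))))))))))))))))))) .nil))))))))) .leaf)) (nat_lit 110594) (nat_lit 456) (.p (nat_lit 250) (nat_lit 1) .z) .df (.nd (.nd .leaf (nat_lit 110598) (nat_lit 1136) (.n (nat_lit 355) (nat_lit 1) (.p (nat_lit 356) (nat_lit 1) (.p (nat_lit 357) (nat_lit 2) (.p (nat_lit 358) (nat_lit 1) (.n (nat_lit 359) (nat_lit 2) (.n (nat_lit 360) (nat_lit 1) (.n (nat_lit 362) (nat_lit 3) (.n (nat_lit 363) (nat_lit 3) (.p (nat_lit 364) (nat_lit 1) (.n (nat_lit 365) (nat_lit 2) (.p (nat_lit 366) (nat_lit 2) (.n (nat_lit 367) (nat_lit 3) (.p (nat_lit 368) (nat_lit 3) (.p (nat_lit 369) (nat_lit 2) (.n (nat_lit 372) (nat_lit 1) (.n (nat_lit 373) (nat_lit 2) (.n (nat_lit 374) (nat_lit 3) (.n (nat_lit 375) (nat_lit 3) (.p (nat_lit 376) (nat_lit 2) (.n (nat_lit 378) (nat_lit 2) (.p (nat_lit 379) (nat_lit 1) (.p (nat_lit 380) (nat_lit 1) (.n (nat_lit 381) (nat_lit 1) (.n (nat_lit 383) (nat_lit 3) (.p (nat_lit 384) (nat_lit 2) (.n (nat_lit 385) (nat_lit 1) (.n (nat_lit 386) (nat_lit 3) (.n (nat_lit 387) (nat_lit 3) (.n (nat_lit 388) (nat_lit 3) (.n (nat_lit 390) (nat_lit 3) (.n (nat_lit 391) (nat_lit 1) (.p (nat_lit 392) (nat_lit 2) (.p (nat_lit 393) (nat_lit 3) (.p (nat_lit 394) (nat_lit 3) (.p (nat_lit 395) (nat_lit 1) (.p (nat_lit 396) (nat_lit 1) (.n (nat_lit 400) (nat_lit 1) (.n (nat_lit 401) (nat_lit 2) (.p (nat_lit 403) (nat_lit 2) (.p (nat_lit 404) (nat_lit 3) (.n (nat_lit 405) (nat_lit 1) (.n (nat_lit 406) (nat_lit 2) (.p (nat_lit 407) (nat_lit 2) (.n (nat_lit 408) (nat_lit 3) (.n (nat_lit 409) (nat_lit 2) (.p (nat_lit 411) (nat_lit 3) (.n (nat_lit 412) (nat_lit 2) (.p (nat_lit 413) (nat_lit 2) (.p (nat_lit 414) (nat_lit 2) (.n (nat_lit 415) (nat_lit 3) (.p (nat_lit 416) (nat_lit 2) (.p (nat_lit 417) (nat_lit 3) (.n (nat_lit 418) (nat_lit 2) (.n (nat_lit 420) (nat_lit 3) (.p (nat_lit 421) (nat_lit 3) (.p (nat_lit 422) (nat_lit 1) (.n (nat_lit 424) (nat_lit 2) .z))))))))))))))))))))))))))))))))))))))))))))))))))))))))) (.ct dC1c_c548 (nat_lit 1) (nat_lit 13) (.s true (nat_lit 1) (nat_lit 48) (nat_lit 2) (nat_lit 2) (nat_lit 2) true (nat_lit 13) true (nat_lit 17) false (nat_lit 5) true (nat_lit 17) true (nat_lit 17) (.e false (nat_lit 2) (nat_lit 250) (nat_lit 2) (nat_lit 17) (.e false (nat_lit 1) (nat_lit 48) (nat_lit 18) (nat_lit 5) (.e true (nat_lit 3) (nat_lit 212) (nat_lit 2) (nat_lit 17) (.e false (nat_lit 1) (nat_lit 213) (nat_lit 2) (nat_lit 17) (.e false (nat_lit 1) (nat_lit 214) (nat_lit 2) (nat_lit 17) (.e true (nat_lit 2) (nat_lit 215) (nat_lit 2) (nat_lit 17) (.e true (nat_lit 2) (nat_lit 216) (nat_lit 2) (nat_lit 17) dC1c_i84))))))))) .leaf) (nat_lit 111618) (nat_lit 457) (.p (nat_lit 251) (nat_lit 1) .z) .df .leaf)) (nat_lit 111622) (nat_lit 1069) (.p (nat_lit 355) (nat_lit 1) (.n (nat_lit 356) (nat_lit 3) (.n (nat_lit 357) (nat_lit 2) (.n (nat_lit 358) (nat_lit 3) (.p (nat_lit 359) (nat_lit 3) (.p (nat_lit 360) (nat_lit 1) (.p (nat_lit 361) (nat_lit 3) (.n (nat_lit 362) (nat_lit 3) (.p (nat_lit 363) (nat_lit 1) (.n (nat_lit 364) (nat_lit 2) (.n (nat_lit 367) (nat_lit 3) (.p (nat_lit 369) (nat_lit 3) (.n (nat_lit 370) (nat_lit 2) (.p (nat_lit 372) (nat_lit 3) (.p (nat_lit 374) (nat_lit 2) (.n (nat_lit 375) (nat_lit 3) (.n (nat_lit 382) (nat_lit 3) (.p (nat_lit 383) (nat_lit 1) (.n (nat_lit 384) (nat_lit 3) (.n (nat_lit 385) (nat_lit 2) (.n (nat_lit 386) (nat_lit 3) (.p (nat_lit 387) (nat_lit 1) (.p (nat_lit 388) (nat_lit 2) (.n (nat_lit 389) (nat_lit 2) (.p (nat_lit 390) (nat_lit 1) (.n (nat_lit 391) (nat_lit 1) (.p (nat_lit 392) (nat_lit 3) (.n (nat_lit 393) (nat_lit 1) (.p (nat_lit 394) (nat_lit 3) (.n (nat_lit 395) (nat_lit 2) (.p (nat_lit 396) (nat_lit 2) (.n (nat_lit 404) (nat_lit 3) (.n (nat_lit 405) (nat_lit 1) (.p (nat_lit 406) (nat_lit 1) (.n (nat_lit 408) (nat_lit 1) (.n (nat_lit 409) (nat_lit 3) (.p (nat_lit 410) (nat_lit 3) (.p (nat_lit 423) (nat_lit 2) .z)))))))))))))))))))))))))))))))))))))) (.ct dC1c_c548 (nat_lit 1) (nat_lit 13) (.s true (nat_lit 1) (nat_lit 49) (nat_lit 2) (nat_lit 2) (nat_lit 2) true (nat_lit 13) true (nat_lit 17) false (nat_lit 5) true (nat_lit 17) true (nat_lit 17) (.e false (nat_lit 2) (nat_lit 251) (nat_lit 2) (nat_lit 17) (.e false (nat_lit 1) (nat_lit 49) (nat_lit 18) (nat_lit 5) (.e true (nat_lit 3) (nat_lit 212) (nat_lit 2) (nat_lit 17) (.e true (nat_lit 3) (nat_lit 213) (nat_lit 2) (nat_lit 17) (.e true (nat_lit 2) (nat_lit 214) (nat_lit 2) (nat_lit 17) (.e false (nat_lit 3) (nat_lit 215) (nat_lit 2) (nat_lit 17) (.e false (nat_lit 1) (nat_lit 216) (nat_lit 2) (nat_lit 17) (.e false (nat_lit 1) (nat_lit 217) (nat_lit 2) (nat_lit 17) dC1c_i85)))))))))) (.nd (.nd (.nd .leaf (nat_lit 112642) (nat_lit 458) (.p (nat_lit 252) (nat_lit 1) .z) .df .leaf) (nat_lit 112646) (nat_lit 1203) (.n (nat_lit 355) (nat_lit 3) (.n (nat_lit 356) (nat_lit 2) (.n (nat_lit 357) (nat_lit 2) (.p (nat_lit 358) (nat_lit 3) (.p (nat_lit 359) (nat_lit 2) (.n (nat_lit 360) (nat_lit 1) (.n (nat_lit 361) (nat_lit 2) (.n (nat_lit 364) (nat_lit 3) (.n (nat_lit 365) (nat_lit 3) (.p (nat_lit 368) (nat_lit 3) (.p (nat_lit 369) (nat_lit 3) (.p (nat_lit 370) (nat_lit 2) (.p (nat_lit 372) (nat_lit 3) (.n (nat_lit 373) (nat_lit 2) (.n (nat_lit 374) (nat_lit 2) (.n (nat_lit 375) (nat_lit 3) (.p (nat_lit 376) (nat_lit 2) (.n (nat_lit 378) (nat_lit 2) (.n (nat_lit 379) (nat_lit 3) (.n (nat_lit 380) (nat_lit 3) (.n (nat_lit 382) (nat_lit 3) (.p (nat_lit 384) (nat_lit 2) (.p (nat_lit 385) (nat_lit 2) (.p (nat_lit 386) (nat_lit 1) (.n (nat_lit 387) (nat_lit 1) (.n (nat_lit 388) (nat_lit 1) (.p (nat_lit 389) (nat_lit 2) (.n (nat_lit 390) (nat_lit 2) (.n (nat_lit 391) (nat_lit 2) (.n (nat_lit 393) (nat_lit 3) (.p (nat_lit 394) (nat_lit 1) (.p (nat_lit 395) (nat_lit 2) (.n (nat_lit 396) (nat_lit 1) (.p (nat_lit 400) (nat_lit 3) (.n (nat_lit 401) (nat_lit 1) (.p (nat_lit 403) (nat_lit 1) (.p (nat_lit 406) (nat_lit 2) (.p (nat_lit 407) (nat_lit 2) (.n (nat_lit 409) (nat_lit 2) (.n (nat_lit 410) (nat_lit 2) (.p (nat_lit 411) (nat_lit 3) (.n (nat_lit 412) (nat_lit 2) (.n (nat_lit 413) (nat_lit 3) (.p (nat_lit 414) (nat_lit 1) (.n (nat_lit 418) (nat_lit 2) (.p (nat_lit 419) (nat_lit 2) (.p (nat_lit 420) (nat_lit 2) (.n (nat_lit 421) (nat_lit 2) (.n (nat_lit 422) (nat_lit 3) (.p (nat_lit 423) (nat_lit 1) (.n (nat_lit 424) (nat_lit 2) (.p (nat_lit 425) (nat_lit 1) .z)))))))))))))))))))))))))))))))))))))))))))))))))))) (.ct dC1c_c548 (nat_lit 1) (nat_lit 13) (.s false (nat_lit 1) (nat_lit 22) (nat_lit 2) (nat_lit 6) (nat_lit 1) true (nat_lit 14) true (nat_lit 18) true (nat_lit 3) true (nat_lit 17) true (nat_lit 13) (.e true (nat_lit 1) (nat_lit 151) (nat_lit 5) (nat_lit 14) (.e false (nat_lit 1) (nat_lit 288) (nat_lit 1) (nat_lit 18) (.e false (nat_lit 1) (nat_lit 45) (nat_lit 22) (nat_lit 3) (.e true (nat_lit 3) (nat_lit 212) (nat_lit 2) (nat_lit 17) (.e true (nat_lit 2) (nat_lit 214) (nat_lit 2) (nat_lit 17) (.e true (nat_lit 3) (nat_lit 215) (nat_lit 2) (nat_lit 17) (.e false (nat_lit 3) (nat_lit 216) (nat_lit 2) (nat_lit 17) dC1c_i86))))))))) .leaf) (nat_lit 113666) (nat_lit 475) (.n (nat_lit 212) (nat_lit 1) (.p (nat_lit 214) (nat_lit 2) (.p (nat_lit 215) (nat_lit 3) (.n (nat_lit 216) (nat_lit 2) (.p (nat_lit 217) (nat_lit 2) (.n (nat_lit 220) (nat_lit 3) (.p (nat_lit 221) (nat_lit 3) (.n (nat_lit 222) (nat_lit 2) (.p (nat_lit 223) (nat_lit 3) (.n (nat_lit 224) (nat_lit 3) (.n (nat_lit 226) (nat_lit 2) (.n (nat_lit 227) (nat_lit 2) (.p (nat_lit 229) (nat_lit 3) (.n (nat_lit 231) (nat_lit 3) (.p (nat_lit 232) (nat_lit 3) (.p (nat_lit 234) (nat_lit 1) (.p (nat_lit 235) (nat_lit 1) (.n (nat_lit 236) (nat_lit 3) (.n (nat_lit 238) (nat_lit 1) (.n (nat_lit 239) (nat_lit 1) (.n (nat_lit 240) (nat_lit 1) (.p (nat_lit 241) (nat_lit 3) (.n (nat_lit 242) (nat_lit 1) (.n (nat_lit 243) (nat_lit 1) (.n (nat_lit 244) (nat_lit 2) (.p (nat_lit 245) (nat_lit 1) (.p (nat_lit 248) (nat_lit 1) (.p (nat_lit 250) (nat_lit 1) (.p (nat_lit 251) (nat_lit 1) (.n (nat_lit 252) (nat_lit 2) .z)))))))))))))))))))))))))))))) (.ct dC1c_c547 (nat_lit 1) (nat_lit 12) (.s false (nat_lit 3) (nat_lit 5) (nat_lit 1) (nat_lit 4) (nat_lit 4) true (nat_lit 4) true (nat_lit 10) true (nat_lit 9) true (nat_lit 13) true (nat_lit 10) (.s true (nat_lit 2) (nat_lit 5) (nat_lit 3) (nat_lit 2) (nat_lit 4) false (nat_lit 1) true (nat_lit 10) true (nat_lit 9) true (nat_lit 11) true (nat_lit 12) (.s true (nat_lit 3) (nat_lit 7) (nat_lit 1) (nat_lit 2) (nat_lit 6) true (nat_lit 1) true (nat_lit 8) true (nat_lit 7) true (nat_lit 13) true (nat_lit 12) (.s false (nat_lit 2) (nat_lit 7) (nat_lit 2) (nat_lit 1) (nat_lit 6) true (nat_lit 0) true (nat_lit 8) true (nat_lit 7) true (nat_lit 12) true (nat_lit 13) (.s false (nat_lit 3) (nat_lit 7) (nat_lit 2) (nat_lit 2) (nat_lit 5) true (nat_lit 1) true (nat_lit 9) true (nat_lit 7) true (nat_lit 12) true (nat_lit 12) (.s true (nat_lit 2) (nat_lit 7) (nat_lit 2) (nat_lit 5) (nat_lit 2) true (nat_lit 8) true (nat_lit 12) true (nat_lit 7) true (nat_lit 12) true (nat_lit 9) (.s false (nat_lit 1) (nat_lit 8) (nat_lit 0) (nat_lit 2) (nat_lit 6) true (nat_lit 2) true (nat_lit 8) true (nat_lit 6) true (nat_lit 14) true (nat_lit 12) (.s true (nat_lit 1) (nat_lit 8) (nat_lit 0) (nat_lit 6) (nat_lit 2) true (nat_lit 10) true (nat_lit 12) true (nat_lit 6) true (nat_lit 14) true (nat_lit 8) (.s false (nat_lit 1) (nat_lit 8) (nat_lit 2) (nat_lit 2) (nat_lit 4) true (nat_lit 2) true (nat_lit 10) true (nat_lit 6) true (nat_lit 12) true (nat_lit 12) (.s true (nat_lit 1) (nat_lit 8) (nat_lit 4) (nat_lit 2) (nat_lit 2) true (nat_lit 2) true (nat_lit 12) true (nat_lit 6) true (nat_lit 10) true (nat_lit 12) (.s true (nat_lit 1) (nat_lit 8) (nat_lit 6) (nat_lit 2) (nat_lit 0) true (nat_lit 2) true (nat_lit 14) true (nat_lit 6) true (nat_lit 8) true (nat_lit 12) (.s false (nat_lit 2) (nat_lit 9) (nat_lit 1) (nat_lit 1) (nat_lit 6) true (nat_lit 1) true (nat_lit 8) true (nat_lit 5) true (nat_lit 13) true (nat_lit 13) (.s false (nat_lit 1) (nat_lit 9) (nat_lit 1) (nat_lit 2) (nat_lit 5) true (nat_lit 3) true (nat_lit 9) true (nat_lit 5) true (nat_lit 13) true (nat_lit 12) (.s true (nat_lit 3) (nat_lit 9) (nat_lit 1) (nat_lit 5) (nat_lit 2) true (nat_lit 9) true (nat_lit 12) true (nat_lit 5) true (nat_lit 13) true (nat_lit 9) (.s false (nat_lit 3) (nat_lit 9) (nat_lit 1) (nat_lit 6) (nat_lit 1) false (nat_lit 16) true (nat_lit 13) true (nat_lit 5) true (nat_lit 13) true (nat_lit 8) dC1c_i90)))))))))))))))) (.nd (.nd .leaf (nat_lit 114690) (nat_lit 459) (.p (nat_lit 253) (nat_lit 1) .z) .df .leaf) (nat_lit 114694) (nat_lit 1129) (.n (nat_lit 355) (nat_lit 2) (.p (nat_lit 357) (nat_lit 2) (.p (nat_lit 358) (nat_lit 3) (.n (nat_lit 359) (nat_lit 2) (.p (nat_lit 361) (nat_lit 3) (.n (nat_lit 362) (nat_lit 3) (.n (nat_lit 363) (nat_lit 1) (.p (nat_lit 365) (nat_lit 1) (.n (nat_lit 366) (nat_lit 2) (.n (nat_lit 367) (nat_lit 3) (.p (nat_lit 369) (nat_lit 2) (.n (nat_lit 370) (nat_lit 2) (.p (nat_lit 372) (nat_lit 2) (.p (nat_lit 373) (nat_lit 1) (.p (nat_lit 374) (nat_lit 1) (.n (nat_lit 375) (nat_lit 1) (.n (nat_lit 379) (nat_lit 1) (.n (nat_lit 380) (nat_lit 1) (.p (nat_lit 381) (nat_lit 2) (.n (nat_lit 382) (nat_lit 3) (.n (nat_lit 384) (nat_lit 3) (.n (nat_lit 385) (nat_lit 3) (.n (nat_lit 386) (nat_lit 2) (.n (nat_lit 388) (nat_lit 1) (.p (nat_lit 390) (nat_lit 3) (.p (nat_lit 391) (nat_lit 2) (.n (nat_lit 392) (nat_lit 3) (.p (nat_lit 393) (nat_lit 2) (.p (nat_lit 394) (nat_lit 2) (.p (nat_lit 396) (nat_lit 1) (.p (nat_lit 400) (nat_lit 1) (.p (nat_lit 401) (nat_lit 2) (.p (nat_lit 404) (nat_lit 3) (.n (nat_lit 405) (nat_lit 2) (.p (nat_lit 408) (nat_lit 2) (.n (nat_lit 409) (nat_lit 3) (.p (nat_lit 410) (nat_lit 1) (.n (nat_lit 413) (nat_lit 3) (.n (nat_lit 414) (nat_lit 2) (.p (nat_lit 415) (nat_lit 3) (.n (nat_lit 417) (nat_lit 3) (.n (nat_lit 419) (nat_lit 3) (.p (nat_lit 420) (nat_lit 3) (.p (nat_lit 422) (nat_lit 1) (.p (nat_lit 424) (nat_lit 1) (.p (nat_lit 425) (nat_lit 1) .z)))))))))))))))))))))))))))))))))))))))))))))) (.ct dC1c_c548 (nat_lit 1) (nat_lit 13) (.s true (nat_lit 1) (nat_lit 24) (nat_lit 0) (nat_lit 2) (nat_lit 6) true (nat_lit 7) true (nat_lit 13) true (nat_lit 2) true (nat_lit 19) true (nat_lit 17) (.e true (nat_lit 1) (nat_lit 66) (nat_lit 15) (nat_lit 7) (.e true (nat_lit 1) (nat_lit 41) (nat_lit 24) (nat_lit 2) (.e true (nat_lit 1) (nat_lit 42) (nat_lit 24) (nat_lit 2) (.e false (nat_lit 1) (nat_lit 307) (nat_lit 0) (nat_lit 19) (.e true (nat_lit 1) (nat_lit 316) (nat_lit 0) (nat_lit 19) (.e false (nat_lit 1) (nat_lit 229) (nat_lit 2) (nat_lit 17) (.u (nat_lit 2) (.n (nat_lit 3) (nat_lit 1) (.p (nat_lit 4) (nat_lit 2) (.n (nat_lit 10) (nat_lit 1) (.p (nat_lit 11) (nat_lit 1) (.n (nat_lit 12) (nat_lit 1) (.n (nat_lit 17) (nat_lit 1) (.n (nat_lit 18) (nat_lit 1) (.p (nat_lit 29) (nat_lit 1) (.p (nat_lit 30) (nat_lit 1) (.p (nat_lit 31) (nat_lit 1) (.n (nat_lit 35) (nat_lit 2) (.p (nat_lit 37) (nat_lit 1) (.n (nat_lit 38) (nat_lit 1) (.n (nat_lit 46) (nat_lit 1) .z)))))))))))))) .nil))))))))) .leaf))) (nat_lit 115714) (nat_lit 562) (.p (nat_lit 212) (nat_lit 1) (.n (nat_lit 213) (nat_lit 2) (.n (nat_lit 214) (nat_lit 1) (.n (nat_lit 215) (nat_lit 2) (.p (nat_lit 216) (nat_lit 1) (.n (nat_lit 217) (nat_lit 3) (.n (nat_lit 218) (nat_lit 2) (.p (nat_lit 219) (nat_lit 2) (.p (nat_lit 220) (nat_lit 3) (.n (nat_lit 223) (nat_lit 3) (.p (nat_lit 224) (nat_lit 2) (.p (nat_lit 226) (nat_lit 1) (.n (nat_lit 227) (nat_lit 1) (.n (nat_lit 228) (nat_lit 3) (.n (nat_lit 229) (nat_lit 2) (.n (nat_lit 230) (nat_lit 1) (.n (nat_lit 231) (nat_lit 3) (.n (nat_lit 232) (nat_lit 3) (.n (nat_lit 233) (nat_lit 1) (.p (nat_lit 234) (nat_lit 2) (.p (nat_lit 235) (nat_lit 1) (.p (nat_lit 238) (nat_lit 1) (.p (nat_lit 239) (nat_lit 1) (.n (nat_lit 241) (nat_lit 3) (.n (nat_lit 242) (nat_lit 3) (.n (nat_lit 244) (nat_lit 3) (.p (nat_lit 249) (nat_lit 3) (.p (nat_lit 250) (nat_lit 1) (.n (nat_lit 251) (nat_lit 3) (.n (nat_lit 252) (nat_lit 1) (.p (nat_lit 253) (nat_lit 1) (.p (nat_lit 258) (nat_lit 3) .z)))))))))))))))))))))))))))))))) (.ct dC1c_c547 (nat_lit 1) (nat_lit 12) (.s true (nat_lit 3) (nat_lit 12) (nat_lit 3) (nat_lit 2) (nat_lit 2) true (nat_lit 4) true (nat_lit 12) true (nat_lit 4) true (nat_lit 11) true (nat_lit 12) (.e false (nat_lit 3) (nat_lit 33) (nat_lit 10) (nat_lit 4) (.e true (nat_lit 2) (nat_lit 108) (nat_lit 2) (nat_lit 12) (.e true (nat_lit 1) (nat_lit 114) (nat_lit 2) (nat_lit 12) (.e true (nat_lit 3) (nat_lit 31) (nat_lit 12) (nat_lit 4) (.e false (nat_lit 3) (nat_lit 92) (nat_lit 3) (nat_lit 11) (.e true (nat_lit 3) (nat_lit 107) (nat_lit 2) (nat_lit 12) (.e false (nat_lit 1) (nat_lit 109) (nat_lit 2) (nat_lit 12) (.e false (nat_lit 2) (nat_lit 110) (nat_lit 2) (nat_lit 12) (.e false (nat_lit 3) (nat_lit 111) (nat_lit 2) (nat_lit 12) (.e false (nat_lit 2) (nat_lit 112) (nat_lit 2) (nat_lit 12) (.e false (nat_lit 3) (nat_lit 116) (nat_lit 2) (nat_lit 12) (.e true (nat_lit 3) (nat_lit 117) (nat_lit 2) (nat_lit 12) (.e false (nat_lit 1) (nat_lit 120) (nat_lit 2) (nat_lit 12) (.e false (nat_lit 3) (nat_lit 121) (nat_lit 2) (nat_lit 12) (.e true (nat_lit 1) (nat_lit 125) (nat_lit 2) (nat_lit 12) (.e true (nat_lit 3) (nat_lit 126) (nat_lit 2) (nat_lit 12) (.e false (nat_lit 3) (nat_lit 127) (nat_lit 2) (nat_lit 12) (.e true (nat_lit 3) (nat_lit 129) (nat_lit 2) (nat_lit 12) (.e true (nat_lit 3) (nat_lit 130) (nat_lit 2) (nat_lit 12) (.u (nat_lit 2) (.p (nat_lit 0) (nat_lit 2) (.p (nat_lit 1) (nat_lit 1) (.p (nat_lit 2) (nat_lit 1) (.p (nat_lit 3) (nat_lit 6) (.n (nat_lit 4) (nat_lit 4) (.n (nat_lit 6) (nat_lit 4) (.n (nat_lit 7) (nat_lit 2) (.p (nat_lit 8) (nat_lit 1) (.p (nat_lit 9) (nat_lit 3) (.n (nat_lit 10) (nat_lit 5) (.p (nat_lit 11) (nat_lit 2) (.n (nat_lit 12) (nat_lit 2) (.p (nat_lit 13) (nat_lit 1) (.n (nat_lit 14) (nat_lit 2) (.n (nat_lit 15) (nat_lit 1) (.p (nat_lit 16) (nat_lit 4) (.p (nat_lit 17) (nat_lit 6) (.p (nat_lit 18) (nat_lit 2) (.n (nat_lit 19) (nat_lit 2) (.p (nat_lit 20) (nat_lit 2) (.p (nat_lit 21) (nat_lit 3) (.n (nat_lit 23) (nat_lit 1) (.n (nat_lit 24) (nat_lit 2) (.p (nat_lit 25) (nat_lit 1) (.p (nat_lit 26) (nat_lit 3) (.n (nat_lit 28) (nat_lit 2) (.p (nat_lit 29) (nat_lit 1) (.n (nat_lit 30) (nat_lit 2) (.n (nat_lit 31) (nat_lit 2) (.p (nat_lit 32) (nat_lit 2) (.p (nat_lit 33) (nat_lit 2) (.n (nat_lit 34) (nat_lit 1) (.p (nat_lit 39) (nat_lit 1) (.p (nat_lit 41) (nat_lit 1) (.n (nat_lit 46) (nat_lit 4) (.n (nat_lit 137) (nat_lit 1) (.n (nat_lit 138) (nat_lit 1) (.p (nat_lit 139) (nat_lit 1) (.p (nat_lit 141) (nat_lit 1) (.p (nat_lit 142) (nat_lit 1) (.p (nat_lit 143) (nat_lit 1) (.n (nat_lit 149) (nat_lit 1) (.p (nat_lit 154) (nat_lit 1) .z))))))))))))))))))))))))))))))))))))))))))) .nil)))))))))))))))))))))) (.nd (.nd (.nd (.nd .leaf (nat_lit 116738) (nat_lit 474) (.n (nat_lit 212) (nat_lit 1) (.n (nat_lit 213) (nat_lit 2) (.p (nat_lit 214) (nat_lit 3) (.n (nat_lit 215) (nat_lit 3) (.n (nat_lit 218) (nat_lit 1) (.p (nat_lit 219) (nat_lit 1) (.n (nat_lit 220) (nat_lit 2) (.p (nat_lit 221) (nat_lit 3) (.p (nat_lit 222) (nat_lit 2) (.p (nat_lit 223) (nat_lit 1) (.n (nat_lit 224) (nat_lit 1) (.n (nat_lit 226) (nat_lit 2) (.n (nat_lit 227) (nat_lit 3) (.n (nat_lit 229) (nat_lit 3) (.n (nat_lit 231) (nat_lit 2) (.n (nat_lit 232) (nat_lit 2) (.n (nat_lit 233) (nat_lit 3) (.n (nat_lit 235) (nat_lit 3) (.n (nat_lit 236) (nat_lit 3) (.n (nat_lit 239) (nat_lit 3) (.n (nat_lit 240) (nat_lit 1) (.p (nat_lit 241) (nat_lit 2) (.p (nat_lit 242) (nat_lit 1) (.n (nat_lit 243) (nat_lit 1) (.n (nat_lit 244) (nat_lit 2) (.p (nat_lit 245) (nat_lit 1) (.p (nat_lit 248) (nat_lit 1) (.n (nat_lit 249) (nat_lit 1) (.p (nat_lit 253) (nat_lit 1) .z))))))))))))))))))))))))))))) (.ct dC1c_c547 (nat_lit 1) (nat_lit 12) (.s false (nat_lit 2) (nat_lit 7) (nat_lit 1) (nat_lit 6) (nat_lit 2) true (nat_lit 9) true (nat_lit 12) true (nat_lit 7) true (nat_lit 13) true (nat_lit 8) (.s false (nat_lit 3) (nat_lit 7) (nat_lit 2) (nat_lit 2) (nat_lit 5) true (nat_lit 1) true (nat_lit 9) true (nat_lit 7) true (nat_lit 12) true (nat_lit 12) (.s false (nat_lit 3) (nat_lit 7) (nat_lit 5) (nat_lit 2) (nat_lit 2) true (nat_lit 1) true (nat_lit 12) true (nat_lit 7) true (nat_lit 9) true (nat_lit 12) (.s true (nat_lit 3) (nat_lit 7) (nat_lit 6) (nat_lit 1) (nat_lit 2) true (nat_lit 0) true (nat_lit 12) true (nat_lit 7) true (nat_lit 8) true (nat_lit 13) dC1c_i94))))) .leaf) (nat_lit 116742) (nat_lit 1124) (.n (nat_lit 356) (nat_lit 2) (.n (nat_lit 357) (nat_lit 3) (.p (nat_lit 358) (nat_lit 3) (.p (nat_lit 359) (nat_lit 1) (.p (nat_lit 360) (nat_lit 1) (.n (nat_lit 361) (nat_lit 1) (.p (nat_lit 362) (nat_lit 1) (.n (nat_lit 363) (nat_lit 1) (.n (nat_lit 364) (nat_lit 3) (.p (nat_lit 365) (nat_lit 1) (.n (nat_lit 367) (nat_lit 1) (.p (nat_lit 369) (nat_lit 1) (.n (nat_lit 370) (nat_lit 3) (.p (nat_lit 372) (nat_lit 3) (.p (nat_lit 373) (nat_lit 1) (.p (nat_lit 374) (nat_lit 3) (.n (nat_lit 375) (nat_lit 1) (.n (nat_lit 379) (nat_lit 1) (.n (nat_lit 380) (nat_lit 1) (.n (nat_lit 381) (nat_lit 2) (.n (nat_lit 382) (nat_lit 3) (.n (nat_lit 383) (nat_lit 2) (.n (nat_lit 384) (nat_lit 1) (.n (nat_lit 385) (nat_lit 3) (.n (nat_lit 386) (nat_lit 1) (.n (nat_lit 387) (nat_lit 1) (.n (nat_lit 388) (nat_lit 1) (.n (nat_lit 390) (nat_lit 2) (.p (nat_lit 391) (nat_lit 2) (.p (nat_lit 392) (nat_lit 3) (.p (nat_lit 393) (nat_lit 3) (.n (nat_lit 395) (nat_lit 2) (.n (nat_lit 396) (nat_lit 1) (.p (nat_lit 400) (nat_lit 1) (.p (nat_lit 401) (nat_lit 2) (.p (nat_lit 404) (nat_lit 3) (.n (nat_lit 405) (nat_lit 2) (.p (nat_lit 408) (nat_lit 2) (.n (nat_lit 409) (nat_lit 3) (.p (nat_lit 410) (nat_lit 1) (.n (nat_lit 413) (nat_lit 3) (.n (nat_lit 414) (nat_lit 2) (.p (nat_lit 415) (nat_lit 3) (.n (nat_lit 417) (nat_lit 3) (.n (nat_lit 419) (nat_lit 3) (.p (nat_lit 420) (nat_lit 3) (.n (nat_lit 422) (nat_lit 1) (.p (nat_lit 424) (nat_lit 1) (.p (nat_lit 425) (nat_lit 1) .z))))))))))))))))))))))))))))))))))))))))))))))))) (.ct dC1c_c548 (nat_lit 1) (nat_lit 13) (.s true (nat_lit 1) (nat_lit 8) (nat_lit 2) (nat_lit 6) (nat_lit 4) true (nat_lit 7) true (nat_lit 15) true (nat_lit 11) true (nat_lit 17) true (nat_lit 13) (.e false (nat_lit 1) (nat_lit 74) (nat_lit 14) (nat_lit 7) (.e true (nat_lit 1) (nat_lit 170) (nat_lit 4) (nat_lit 15) (.e true (nat_lit 1) (nat_lit 99) (nat_lit 8) (nat_lit 11) (.e true (nat_lit 1) (nat_lit 100) (nat_lit 8) (nat_lit 11) (.e false (nat_lit 1) (nat_lit 101) (nat_lit 8) (nat_lit 11) (.e false (nat_lit 2) (nat_lit 212) (nat_lit 2) (nat_lit 17) (.e true (nat_lit 2) (nat_lit 213) (nat_lit 2) (nat_lit 17) (.e true (nat_lit 2) (nat_lit 214) (nat_lit 2) (nat_lit 17) (.e false (nat_lit 3) (nat_lit 216) (nat_lit 2) (nat_lit 17) (.e false (nat_lit 1) (nat_lit 217) (nat_lit 2) (nat_lit 17) (.e true (nat_lit 3) (nat_lit 218) (nat_lit 2) (nat_lit 17) (.e true (nat_lit 2) (nat_lit 220) (nat_lit 2) (nat_lit 17) dC1c_i95)))))))))))))) .leaf) (nat_lit 117762) (nat_lit 512) (.n (nat_lit 214) (nat_lit 3) (.p (nat_lit 215) (nat_lit 3) (.n (nat_lit 216) (nat_lit 2) (.p (nat_lit 217) (nat_lit 1) (.p (nat_lit 218) (nat_lit 3) (.n (nat_lit 219) (nat_lit 2) (.n (nat_lit 220) (nat_lit 2) (.n (nat_lit 221) (nat_lit 3) (.p (nat_lit 222) (nat_lit 2) (.p (nat_lit 223) (nat_lit 2) (.p (nat_lit 224) (nat_lit 2) (.n (nat_lit 225) (nat_lit 1) (.p (nat_lit 226) (nat_lit 1) (.p (nat_lit 227) (nat_lit 3) (.p (nat_lit 228) (nat_lit 1) (.n (nat_lit 229) (nat_lit 2) (.n (nat_lit 230) (nat_lit 1) (.n (nat_lit 231) (nat_lit 3) (.n (nat_lit 232) (nat_lit 3) (.p (nat_lit 233) (nat_lit 3) (.n (nat_lit 234) (nat_lit 2) (.p (nat_lit 235) (nat_lit 2) (.p (nat_lit 236) (nat_lit 2) (.n (nat_lit 237) (nat_lit 2) (.p (nat_lit 238) (nat_lit 3) (.n (nat_lit 239) (nat_lit 3) (.p (nat_lit 240) (nat_lit 3) (.p (nat_lit 241) (nat_lit 2) (.n (nat_lit 242) (nat_lit 2) (.p (nat_lit 243) (nat_lit 3) (.p (nat_lit 244) (nat_lit 2) (.p (nat_lit 245) (nat_lit 3) (.p (nat_lit 246) (nat_lit 2) (.n (nat_lit 247) (nat_lit 2) (.n (nat_lit 248) (nat_lit 3) (.p (nat_lit 249) (nat_lit 1) (.n (nat_lit 250) (nat_lit 1) .z))))))))))))))))))))))))))))))))))))) (.ct dC1c_c547 (nat_lit 1) (nat_lit 12) (.s false (nat_lit 1) (nat_lit 20) (nat_lit 2) (nat_lit 2) (nat_lit 1) true (nat_lit 9) true (nat_lit 13) false (nat_lit 1) true (nat_lit 12) true (nat_lit 12) (.e false (nat_lit 1) (nat_lit 55) (nat_lit 5) (nat_lit 9) (.e false (nat_lit 1) (nat_lit 132) (nat_lit 1) (nat_lit 13) (.e true (nat_lit 1) (nat_lit 20) (nat_lit 17) (nat_lit 1) (.e true (nat_lit 1) (nat_lit 107) (nat_lit 2) (nat_lit 12) (.e true (nat_lit 2) (nat_lit 108) (nat_lit 2) (nat_lit 12) (.e true (nat_lit 1) (nat_lit 112) (nat_lit 2) (nat_lit 12) (.e false (nat_lit 1) (nat_lit 114) (nat_lit 2) (nat_lit 12) (.e false (nat_lit 1) (nat_lit 124) (nat_lit 2) (nat_lit 12) (.e false (nat_lit 1) (nat_lit 129) (nat_lit 2) (nat_lit 12) (.u (nat_lit 2) (.p (nat_lit 0) (nat_lit 1) (.n (nat_lit 1) (nat_lit 1) (.p (nat_lit 2) (nat_lit 1) (.n (nat_lit 3) (nat_lit 1) (.n (nat_lit 5) (nat_lit 1) (.n (nat_lit 6) (nat_lit 1) (.p (nat_lit 8) (nat_lit 1) (.p (nat_lit 9) (nat_lit 1) (.n (nat_lit 10) (nat_lit 1) (.n (nat_lit 12) (nat_lit 1) (.n (nat_lit 14) (nat_lit 1) (.n (nat_lit 15) (nat_lit 1) (.n (nat_lit 24) (nat_lit 1) (.p (nat_lit 25) (nat_lit 1) (.n (nat_lit 26) (nat_lit 1) (.p (nat_lit 27) (nat_lit 1) (.n (nat_lit 28) (nat_lit 1) (.n (nat_lit 31) (nat_lit 1) (.n (nat_lit 32) (nat_lit 1) (.n (nat_lit 34) (nat_lit 1) (.p (nat_lit 35) (nat_lit 1) (.p (nat_lit 36) (nat_lit 1) .z)))))))))))))))))))))) .nil)))))))))))) (.nd (.nd .leaf (nat_lit 117766) (nat_lit 1142) (.p (nat_lit 355) (nat_lit 2) (.p (nat_lit 356) (nat_lit 3) (.p (nat_lit 357) (nat_lit 1) (.p (nat_lit 358) (nat_lit 3) (.p (nat_lit 359) (nat_lit 3) (.n (nat_lit 360) (nat_lit 1) (.n (nat_lit 361) (nat_lit 1) (.p (nat_lit 362) (nat_lit 1) (.n (nat_lit 363) (nat_lit 3) (.p (nat_lit 364) (nat_lit 2) (.p (nat_lit 365) (nat_lit 3) (.p (nat_lit 367) (nat_lit 2) (.p (nat_lit 369) (nat_lit 2) (.n (nat_lit 370) (nat_lit 1) (.p (nat_lit 374) (nat_lit 2) (.n (nat_lit 375) (nat_lit 2) (.n (nat_lit 376) (nat_lit 2) (.p (nat_lit 378) (nat_lit 2) (.n (nat_lit 379) (nat_lit 1) (.n (nat_lit 380) (nat_lit 1) (.p (nat_lit 381) (nat_lit 3) (.n (nat_lit 382) (nat_lit 2) (.n (nat_lit 383) (nat_lit 2) (.n (nat_lit 384) (nat_lit 2) (.p (nat_lit 385) (nat_lit 3) (.p (nat_lit 386) (nat_lit 3) (.p (nat_lit 387) (nat_lit 3) (.p (nat_lit 388) (nat_lit 3) (.n (nat_lit 390) (nat_lit 1) (.p (nat_lit 391) (nat_lit 1) (.p (nat_lit 393) (nat_lit 2) (.p (nat_lit 395) (nat_lit 1) (.p (nat_lit 396) (nat_lit 3) (.p (nat_lit 400) (nat_lit 1) (.p (nat_lit 401) (nat_lit 2) (.n (nat_lit 403) (nat_lit 2) (.p (nat_lit 422) (nat_lit 1) .z))))))))))))))))))))))))))))))))))))) (.ct dC1c_c548 (nat_lit 1) (nat_lit 13) (.s true (nat_lit 1) (nat_lit 20) (nat_lit 2) (nat_lit 1) (nat_lit 6) true (nat_lit 5) true (nat_lit 13) true (nat_lit 3) true (nat_lit 17) true (nat_lit 18) (.e true (nat_lit 1) (nat_lit 48) (nat_lit 18) (nat_lit 5) (.e false (nat_lit 1) (nat_lit 44) (nat_lit 20) (nat_lit 3) (.e false (nat_lit 1) (nat_lit 45) (nat_lit 20) (nat_lit 3) (.e false (nat_lit 2) (nat_lit 212) (nat_lit 2) (nat_lit 17) (.e true (nat_lit 3) (nat_lit 213) (nat_lit 2) (nat_lit 17) (.e false (nat_lit 3) (nat_lit 214) (nat_lit 2) (nat_lit 17) (.e true (nat_lit 1) (nat_lit 217) (nat_lit 2) (nat_lit 17) (.e true (nat_lit 2) (nat_lit 218) (nat_lit 2) (nat_lit 17) dC1c_i96)))))))))) .leaf) (nat_lit 118786) (nat_lit 472) (.n (nat_lit 212) (nat_lit 2) (.p (nat_lit 213) (nat_lit 2) (.n (nat_lit 214) (nat_lit 1) (.p (nat_lit 215) (nat_lit 3) (.n (nat_lit 216) (nat_lit 2) (.n (nat_lit 218) (nat_lit 2) (.n (nat_lit 219) (nat_lit 2) (.n (nat_lit 220) (nat_lit 2) (.p (nat_lit 221) (nat_lit 2) (.n (nat_lit 222) (nat_lit 3) (.p (nat_lit 223) (nat_lit 2) (.p (nat_lit 224) (nat_lit 1) (.n (nat_lit 226) (nat_lit 1) (.p (nat_lit 227) (nat_lit 3) (.n (nat_lit 228) (nat_lit 3) (.p (nat_lit 229) (nat_lit 2) (.n (nat_lit 230) (nat_lit 1) (.n (nat_lit 232) (nat_lit 1) (.p (nat_lit 233) (nat_lit 2) (.p (nat_lit 234) (nat_lit 3) (.n (nat_lit 235) (nat_lit 2) (.p (nat_lit 236) (nat_lit 1) (.p (nat_lit 238) (nat_lit 2) (.p (nat_lit 239) (nat_lit 3) (.n (nat_lit 241) (nat_lit 2) (.p (nat_lit 243) (nat_lit 3) (.n (nat_lit 244) (nat_lit 3) (.n (nat_lit 245) (nat_lit 2) (.p (nat_lit 248) (nat_lit 1) (.n (nat_lit 251) (nat_lit 3) (.p (nat_lit 256) (nat_lit 3) (.n (nat_lit 257) (nat_lit 1) (.n (nat_lit 258) (nat_lit 2) (.p (nat_lit 259) (nat_lit 1) .z)))))))))))))))))))))))))))))))))) (.ct dC1c_c547 (nat_lit 1) (nat_lit 12) (.s false (nat_lit 1) (nat_lit 5) (nat_lit 0) (nat_lit 5) (nat_lit 4) true (nat_lit 5) true (nat_lit 10) true (nat_lit 9) true (nat_lit 14) true (nat_lit 9) (.s true (nat_lit 3) (nat_lit 5) (nat_lit 4) (nat_lit 4) (nat_lit 1) true (nat_lit 4) true (nat_lit 13) true (nat_lit 9) true (nat_lit 10) true (nat_lit 10) (.s true (nat_lit 2) (nat_lit 6) (nat_lit 2) (nat_lit 3) (nat_lit 3) true (nat_lit 4) true (nat_lit 11) true (nat_lit 8) true (nat_lit 12) true (nat_lit 11) (.s true (nat_lit 3) (nat_lit 7) (nat_lit 2) (nat_lit 2) (nat_lit 5) true (nat_lit 1) true (nat_lit 9) true (nat_lit 7) true (nat_lit 12) true (nat_lit 12) (.s true (nat_lit 3) (nat_lit 7) (nat_lit 2) (nat_lit 5) (nat_lit 2) true (nat_lit 8) true (nat_lit 12) true (nat_lit 7) true (nat_lit 12) true (nat_lit 9) (.s false (nat_lit 1) (nat_lit 7) (nat_lit 6) (nat_lit 1) (nat_lit 2) true (nat_lit 0) true (nat_lit 12) true (nat_lit 7) true (nat_lit 8) true (nat_lit 13) (.s true (nat_lit 1) (nat_lit 8) (nat_lit 0) (nat_lit 2) (nat_lit 6) true (nat_lit 2) true (nat_lit 8) true (nat_lit 6) true (nat_lit 14) true (nat_lit 12) (.s true (nat_lit 1) (nat_lit 8) (nat_lit 0) (nat_lit 6) (nat_lit 2) true (nat_lit 10) true (nat_lit 12) true (nat_lit 6) true (nat_lit 14) true (nat_lit 8) (.s true (nat_lit 2) (nat_lit 8) (nat_lit 2) (nat_lit 2) (nat_lit 4) true (nat_lit 2) true (nat_lit 10) true (nat_lit 6) true (nat_lit 12) true (nat_lit 12) (.s true (nat_lit 2) (nat_lit 8) (nat_lit 4) (nat_lit 2) (nat_lit 2) true (nat_lit 2) true (nat_lit 12) true (nat_lit 6) true (nat_lit 10) true (nat_lit 12) (.s false (nat_lit 1) (nat_lit 8) (nat_lit 6) (nat_lit 2) (nat_lit 0) true (nat_lit 2) true (nat_lit 14) true (nat_lit 6) true (nat_lit 8) true (nat_lit 12) (.s true (nat_lit 1) (nat_lit 9) (nat_lit 1) (nat_lit 1) (nat_lit 6) true (nat_lit 1) true (nat_lit 8) true (nat_lit 5) true (nat_lit 13) true (nat_lit 13) (.s true (nat_lit 1) (nat_lit 9) (nat_lit 1) (nat_lit 2) (nat_lit 5) true (nat_lit 3) true (nat_lit 9) true (nat_lit 5) true (nat_lit 13) true (nat_lit 12) (.s true (nat_lit 1) (nat_lit 9) (nat_lit 2) (nat_lit 1) (nat_lit 5) true (nat_lit 1) true (nat_lit 9) true (nat_lit 5) true (nat_lit 12) true (nat_lit 13) (.s false (nat_lit 2) (nat_lit 10) (nat_lit 0) (nat_lit 1) (nat_lit 6) true (nat_lit 2) true (nat_lit 8) true (nat_lit 4) true (nat_lit 14) true (nat_lit 13) dC1c_i100)))))))))))))))) .leaf)) (nat_lit 118790) (nat_lit 1088) (.p (nat_lit 356) (nat_lit 3) (.p (nat_lit 357) (nat_lit 3) (.p (nat_lit 359) (nat_lit 1) (.n (nat_lit 360) (nat_lit 1) (.p (nat_lit 361) (nat_lit 3) (.n (nat_lit 362) (nat_lit 1) (.p (nat_lit 363) (nat_lit 2) (.p (nat_lit 364) (nat_lit 3) (.p (nat_lit 365) (nat_lit 1) (.n (nat_lit 366) (nat_lit 3) (.n (nat_lit 368) (nat_lit 2) (.p (nat_lit 369) (nat_lit 2) (.p (nat_lit 370) (nat_lit 2) (.p (nat_lit 371) (nat_lit 2) (.n (nat_lit 372) (nat_lit 2) (.p (nat_lit 373) (nat_lit 3) (.n (nat_lit 374) (nat_lit 2) (.p (nat_lit 375) (nat_lit 3) (.n (nat_lit 378) (nat_lit 2) (.p (nat_lit 380) (nat_lit 2) (.p (nat_lit 381) (nat_lit 1) (.n (nat_lit 382) (nat_lit 3) (.n (nat_lit 383) (nat_lit 1) (.p (nat_lit 384) (nat_lit 2) (.p (nat_lit 385) (nat_lit 1) (.p (nat_lit 386) (nat_lit 2) (.p (nat_lit 387) (nat_lit 2) (.n (nat_lit 388) (nat_lit 2) (.p (nat_lit 389) (nat_lit 2) (.p (nat_lit 391) (nat_lit 1) (.p (nat_lit 393) (nat_lit 1) (.p (nat_lit 394) (nat_lit 3) (.n (nat_lit 395) (nat_lit 2) (.p (nat_lit 396) (nat_lit 2) (.n (nat_lit 399) (nat_lit 2) (.n (nat_lit 404) (nat_lit 3) (.n (nat_lit 405) (nat_lit 3) (.p (nat_lit 406) (nat_lit 3) (.p (nat_lit 407) (nat_lit 2) (.n (nat_lit 408) (nat_lit 1) (.p (nat_lit 409) (nat_lit 2) (.p (nat_lit 410) (nat_lit 3) (.n (nat_lit 412) (nat_lit 2) (.p (nat_lit 413) (nat_lit 2) (.n (nat_lit 414) (nat_lit 2) (.n (nat_lit 416) (nat_lit 2) (.p (nat_lit 423) (nat_lit 2) .z))))))))))))))))))))))))))))))))))))))))))))))) (.ct dC1c_c548 (nat_lit 1) (nat_lit 13) (.s false (nat_lit 1) (nat_lit 13) (nat_lit 2) (nat_lit 9) (nat_lit 2) true (nat_lit 13) true (nat_lit 17) true (nat_lit 8) true (nat_lit 17) true (nat_lit 10) (.e false (nat_lit 1) (nat_lit 119) (nat_lit 6) (nat_lit 13) (.e true (nat_lit 1) (nat_lit 130) (nat_lit 6) (nat_lit 13) (.e true (nat_lit 1) (nat_lit 219) (nat_lit 2) (nat_lit 17) (.e false (nat_lit 1) (nat_lit 228) (nat_lit 2) (nat_lit 17) (.e true (nat_lit 1) (nat_lit 256) (nat_lit 2) (nat_lit 17) (.e true (nat_lit 1) (nat_lit 77) (nat_lit 13) (nat_lit 8) (.e true (nat_lit 1) (nat_lit 236) (nat_lit 2) (nat_lit 17) (.e false (nat_lit 1) (nat_lit 243) (nat_lit 2) (nat_lit 17) (.e true (nat_lit 1) (nat_lit 257) (nat_lit 2) (nat_lit 17) (.e true (nat_lit 1) (nat_lit 93) (nat_lit 9) (nat_lit 10) (.u (nat_lit 2) (.n (nat_lit 2) (nat_lit 2) (.n (nat_lit 8) (nat_lit 1) (.p (nat_lit 12) (nat_lit 1) (.p (nat_lit 13) (nat_lit 1) (.n (nat_lit 14) (nat_lit 1) (.n (nat_lit 16) (nat_lit 1) (.n (nat_lit 18) (nat_lit 1) (.n (nat_lit 20) (nat_lit 1) (.p (nat_lit 23) (nat_lit 1) (.n (nat_lit 26) (nat_lit 1) (.p (nat_lit 28) (nat_lit 1) (.n (nat_lit 29) (nat_lit 1) (.p (nat_lit 30) (nat_lit 1) (.p (nat_lit 33) (nat_lit 1) (.p (nat_lit 34) (nat_lit 1) (.n (nat_lit 36) (nat_lit 1) (.n (nat_lit 52) (nat_lit 1) (.p (nat_lit 57) (nat_lit 1) (.n (nat_lit 58) (nat_lit 1) (.p (nat_lit 61) (nat_lit 1) .z)))))))))))))))))))) .nil))))))))))))) (.nd (.nd (.nd .leaf (nat_lit 119810) (nat_lit 460) (.p (nat_lit 254) (nat_lit 1) .z) .df .leaf) (nat_lit 120834) (nat_lit 536) (.n (nat_lit 212) (nat_lit 1) (.n (nat_lit 213) (nat_lit 3) (.p (nat_lit 215) (nat_lit 3) (.p (nat_lit 216) (nat_lit 1) (.n (nat_lit 217) (nat_lit 2) (.n (nat_lit 219) (nat_lit 3) (.p (nat_lit 220) (nat_lit 2) (.n (nat_lit 221) (nat_lit 2) (.n (nat_lit 222) (nat_lit 3) (.n (nat_lit 223) (nat_lit 3) (.p (nat_lit 224) (nat_lit 3) (.n (nat_lit 225) (nat_lit 1) (.n (nat_lit 226) (nat_lit 2) (.n (nat_lit 227) (nat_lit 1) (.n (nat_lit 228) (nat_lit 2) (.n (nat_lit 229) (nat_lit 2) (.n (nat_lit 230) (nat_lit 1) (.n (nat_lit 231) (nat_lit 1) (.n (nat_lit 233) (nat_lit 2) (.p (nat_lit 234) (nat_lit 2) (.p (nat_lit 235) (nat_lit 1) (.p (nat_lit 238) (nat_lit 1) (.p (nat_lit 239) (nat_lit 3) (.p (nat_lit 240) (nat_lit 2) (.n (nat_lit 241) (nat_lit 2) (.n (nat_lit 242) (nat_lit 2) (.n (nat_lit 243) (nat_lit 2) (.p (nat_lit 244) (nat_lit 2) (.p (nat_lit 245) (nat_lit 3) (.p (nat_lit 246) (nat_lit 2) (.n (nat_lit 247) (nat_lit 2) (.n (nat_lit 248) (nat_lit 1) (.p (nat_lit 249) (nat_lit 1) (.n (nat_lit 250) (nat_lit 1) (.n (nat_lit 251) (nat_lit 3) (.n (nat_lit 254) (nat_lit 2) (.p (nat_lit 256) (nat_lit 3) (.n (nat_lit 257) (nat_lit 1) (.n (nat_lit 258) (nat_lit 2) (.p (nat_lit 259) (nat_lit 1) .z)))))))))))))))))))))))))))))))))))))))) (.ct dC1c_c547 (nat_lit 1) (nat_lit 12) (.s true (nat_lit 3) (nat_lit 35) (nat_lit 0) (nat_lit 2) (nat_lit 1) true (nat_lit 11) true (nat_lit 13) false (nat_lit 4) true (nat_lit 14) true (nat_lit 12) (.e true (nat_lit 3) (nat_lit 86) (nat_lit 3) (nat_lit 11) (.e true (nat_lit 3) (nat_lit 141) (nat_lit 1) (nat_lit 13) (.e true (nat_lit 3) (nat_lit 35) (nat_lit 11) (nat_lit 4) (.e false (nat_lit 1) (nat_lit 153) (nat_lit 0) (nat_lit 14) (.e true (nat_lit 3) (nat_lit 154) (nat_lit 0) (nat_lit 14) (.e true (nat_lit 2) (nat_lit 155) (nat_lit 0) (nat_lit 14) (.e false (nat_lit 2) (nat_lit 157) (nat_lit 0) (nat_lit 14) (.e true (nat_lit 1) (nat_lit 158) (nat_lit 0) (nat_lit 14) dC1c_i101)))))))))) .leaf) (nat_lit 121858) (nat_lit 468) (.p (nat_lit 243) (nat_lit 1) (.n (nat_lit 248) (nat_lit 1) (.n (nat_lit 257) (nat_lit 1) .z))) (.ct dC1c_c547 (nat_lit 1) (nat_lit 12) (.s true (nat_lit 1) (nat_lit 28) (nat_lit 1) (nat_lit 1) (nat_lit 2) true (nat_lit 9) true (nat_lit 12) false (nat_lit 3) true (nat_lit 13) true (nat_lit 13) (.e true (nat_lit 1) (nat_lit 59) (nat_lit 5) (nat_lit 9) (.e true (nat_lit 1) (nat_lit 152) (nat_lit 1) (nat_lit 13) (.e false (nat_lit 1) (nat_lit 143) (nat_lit 1) (nat_lit 13) .nil))))) (.nd (.nd .leaf (nat_lit 121862) (nat_lit 1084) (.n (nat_lit 355) (nat_lit 2) (.p (nat_lit 359) (nat_lit 1) (.p (nat_lit 360) (nat_lit 1) (.n (nat_lit 361) (nat_lit 1) (.p (nat_lit 362) (nat_lit 2) (.n (nat_lit 363) (nat_lit 3) (.p (nat_lit 365) (nat_lit 3) (.p (nat_lit 366) (nat_lit 3) (.p (nat_lit 367) (nat_lit 2) (.n (nat_lit 368) (nat_lit 1) (.p (nat_lit 369) (nat_lit 3) (.p (nat_lit 370) (nat_lit 3) (.n (nat_lit 371) (nat_lit 3) (.n (nat_lit 372) (nat_lit 1) (.n (nat_lit 373) (nat_lit 2) (.n (nat_lit 374) (nat_lit 1) (.n (nat_lit 375) (nat_lit 1) (.p (nat_lit 378) (nat_lit 3) (.p (nat_lit 379) (nat_lit 2) (.p (nat_lit 380) (nat_lit 2) (.n (nat_lit 381) (nat_lit 3) (.n (nat_lit 382) (nat_lit 2) (.n (nat_lit 383) (nat_lit 2) (.n (nat_lit 384) (nat_lit 3) (.p (nat_lit 385) (nat_lit 2) (.n (nat_lit 386) (nat_lit 3) (.n (nat_lit 387) (nat_lit 3) (.p (nat_lit 389) (nat_lit 3) (.n (nat_lit 391) (nat_lit 2) (.p (nat_lit 392) (nat_lit 2) (.p (nat_lit 393) (nat_lit 1) (.p (nat_lit 394) (nat_lit 3) (.n (nat_lit 395) (nat_lit 2) (.p (nat_lit 396) (nat_lit 2) (.n (nat_lit 399) (nat_lit 2) (.n (nat_lit 404) (nat_lit 3) (.p (nat_lit 405) (nat_lit 2) (.n (nat_lit 406) (nat_lit 2) (.n (nat_lit 407) (nat_lit 3) (.n (nat_lit 408) (nat_lit 1) (.p (nat_lit 410) (nat_lit 3) (.p (nat_lit 412) (nat_lit 3) (.n (nat_lit 413) (nat_lit 3) (.n (nat_lit 414) (nat_lit 2) (.p (nat_lit 416) (nat_lit 3) (.p (nat_lit 423) (nat_lit 2) (.n (nat_lit 424) (nat_lit 2) .z))))))))))))))))))))))))))))))))))))))))))))))) (.ct dC1c_c548 (nat_lit 1) (nat_lit 13) (.s true (nat_lit 1) (nat_lit 28) (nat_lit 1) (nat_lit 1) (nat_lit 6) true (nat_lit 6) true (nat_lit 13) true (nat_lit 1) true (nat_lit 18) true (nat_lit 18) (.e true (nat_lit 1) (nat_lit 59) (nat_lit 17) (nat_lit 6) (.e true (nat_lit 3) (nat_lit 264) (nat_lit 1) (nat_lit 18) (.e true (nat_lit 3) (nat_lit 280) (nat_lit 1) (nat_lit 18) (.e false (nat_lit 2) (nat_lit 262) (nat_lit 1) (nat_lit 18) (.e false (nat_lit 3) (nat_lit 265) (nat_lit 1) (nat_lit 18) (.e false (nat_lit 3) (nat_lit 271) (nat_lit 1) (nat_lit 18) (.e false (nat_lit 2) (nat_lit 272) (nat_lit 1) (nat_lit 18) (.e true (nat_lit 1) (nat_lit 273) (nat_lit 1) (nat_lit 18) (.e true (nat_lit 1) (nat_lit 277) (nat_lit 1) (nat_lit 18) (.e false (nat_lit 1) (nat_lit 278) (nat_lit 1) (nat_lit 18) (.e true (nat_lit 3) (nat_lit 267) (nat_lit 1) (nat_lit 18) (.e false (nat_lit 3) (nat_lit 268) (nat_lit 1) (nat_lit 18) (.e false (nat_lit 2) (nat_lit 269) (nat_lit 1) (nat_lit 18) (.e true (nat_lit 2) (nat_lit 279) (nat_lit 1) (nat_lit 18) (.e true (nat_lit 1) (nat_lit 288) (nat_lit 1) (nat_lit 18) (.e true (nat_lit 1) (nat_lit 261) (nat_lit 1) (nat_lit 18) (.e false (nat_lit 1) (nat_lit 266) (nat_lit 1) (nat_lit 18) (.e true (nat_lit 2) (nat_lit 270) (nat_lit 1) (nat_lit 18) (.e false (nat_lit 3) (nat_lit 286) (nat_lit 1) (nat_lit 18) (.e true (nat_lit 2) (nat_lit 287) (nat_lit 1) (nat_lit 18) (.u (nat_lit 2) (.p (nat_lit 0) (nat_lit 3) (.n (nat_lit 2) (nat_lit 1) (.n (nat_lit 4) (nat_lit 1) (.n (nat_lit 8) (nat_lit 2) (.n (nat_lit 9) (nat_lit 1) (.n (nat_lit 10) (nat_lit 1) (.p (nat_lit 11) (nat_lit 1) (.p (nat_lit 12) (nat_lit 1) (.n (nat_lit 15) (nat_lit 1) (.p (nat_lit 17) (nat_lit 1) (.n (nat_lit 18) (nat_lit 1) (.n (nat_lit 19) (nat_lit 2) (.p (nat_lit 26) (nat_lit 2) (.p (nat_lit 29) (nat_lit 2) (.p (nat_lit 31) (nat_lit 1) (.p (nat_lit 32) (nat_lit 3) (.n (nat_lit 34) (nat_lit 1) (.n (nat_lit 35) (nat_lit 2) (.p (nat_lit 36) (nat_lit 2) (.p (nat_lit 37) (nat_lit 1) (.p (nat_lit 38) (nat_lit 2) (.n (nat_lit 39) (nat_lit 2) (.n (nat_lit 40) (nat_lit 1) (.p (nat_lit 41) (nat_lit 1) (.p (nat_lit 376) (nat_lit 1) (.p (nat_lit 377) (nat_lit 1) (.n (nat_lit 378) (nat_lit 1) (.p (nat_lit 379) (nat_lit 1) (.n (nat_lit 380) (nat_lit 1) (.n (nat_lit 381) (nat_lit 1) (.n (nat_lit 382) (nat_lit 1) (.p (nat_lit 383) (nat_lit 1) (.p (nat_lit 384) (nat_lit 1) (.n (nat_lit 387) (nat_lit 1) (.p (nat_lit 393) (nat_lit 2) (.p (nat_lit 394) (nat_lit 1) (.n (nat_lit 395) (nat_lit 2) (.p (nat_lit 397) (nat_lit 2) (.n (nat_lit 401) (nat_lit 1) (.p (nat_lit 403) (nat_lit 1) (.n (nat_lit 404) (nat_lit 2) .z))))))))))))))))))))))))))))))))))))))))) .nil))))))))))))))))))))))) .leaf) (nat_lit 122882) (nat_lit 508) (.p (nat_lit 212) (nat_lit 1) (.n (nat_lit 214) (nat_lit 1) (.n (nat_lit 215) (nat_lit 3) (.p (nat_lit 216) (nat_lit 1) (.n (nat_lit 217) (nat_lit 3) (.p (nat_lit 218) (nat_lit 2) (.n (nat_lit 219) (nat_lit 2) (.p (nat_lit 220) (nat_lit 1) (.p (nat_lit 221) (nat_lit 3) (.n (nat_lit 222) (nat_lit 1) (.p (nat_lit 223) (nat_lit 3) (.p (nat_lit 224) (nat_lit 3) (.p (nat_lit 227) (nat_lit 2) (.p (nat_lit 229) (nat_lit 1) (.p (nat_lit 231) (nat_lit 2) (.p (nat_lit 232) (nat_lit 3) (.n (nat_lit 233) (nat_lit 1) (.n (nat_lit 234) (nat_lit 2) (.n (nat_lit 235) (nat_lit 3) (.p (nat_lit 236) (nat_lit 1) (.n (nat_lit 237) (nat_lit 2) (.p (nat_lit 238) (nat_lit 1) (.n (nat_lit 239) (nat_lit 1) (.n (nat_lit 240) (nat_lit 3) (.p (nat_lit 241) (nat_lit 3) (.p (nat_lit 242) (nat_lit 2) (.p (nat_lit 243) (nat_lit 1) (.p (nat_lit 244) (nat_lit 2) (.n (nat_lit 245) (nat_lit 1) (.n (nat_lit 248) (nat_lit 1) (.n (nat_lit 258) (nat_lit 1) .z))))))))))))))))))))))))))))))) (.ct dC1c_c547 (nat_lit 1) (nat_lit 12) (.s true (nat_lit 1) (nat_lit 29) (nat_lit 1) (nat_lit 1) (nat_lit 2) true (nat_lit 9) true (nat_lit 12) false (nat_lit 3) true (nat_lit 13) true (nat_lit 13) (.e true (nat_lit 1) (nat_lit 60) (nat_lit 5) (nat_lit 9) (.e true (nat_lit 1) (nat_lit 132) (nat_lit 1) (nat_lit 13) (.e true (nat_lit 1) (nat_lit 133) (nat_lit 1) (nat_lit 13) (.e true (nat_lit 1) (nat_lit 134) (nat_lit 1) (nat_lit 13) (.e false (nat_lit 1) (nat_lit 135) (nat_lit 1) (nat_lit 13) (.e true (nat_lit 3) (nat_lit 136) (nat_lit 1) (nat_lit 13) (.e false (nat_lit 2) (nat_lit 137) (nat_lit 1) (nat_lit 13) (.e false (nat_lit 2) (nat_lit 138) (nat_lit 1) (nat_lit 13) (.e false (nat_lit 1) (nat_lit 139) (nat_lit 1) (nat_lit 13) (.e false (nat_lit 2) (nat_lit 140) (nat_lit 1) (nat_lit 13) (.e true (nat_lit 3) (nat_lit 141) (nat_lit 1) (nat_lit 13) (.e false (nat_lit 2) (nat_lit 142) (nat_lit 1) (nat_lit 13) (.e true (nat_lit 2) (nat_lit 143) (nat_lit 1) (nat_lit 13) (.e false (nat_lit 2) (nat_lit 144) (nat_lit 1) (nat_lit 13) (.e false (nat_lit 3) (nat_lit 145) (nat_lit 1) (nat_lit 13) (.e true (nat_lit 2) (nat_lit 146) (nat_lit 1) (nat_lit 13) (.e true (nat_lit 1) (nat_lit 150) (nat_lit 1) (nat_lit 13) (.e true (nat_lit 1) (nat_lit 151) (nat_lit 1) (nat_lit 13) (.e false (nat_lit 3) (nat_lit 152) (nat_lit 1) (nat_lit 13) (.u (nat_lit 2) (.p (nat_lit 2) (nat_lit 1) (.n (nat_lit 4) (nat_lit 1) (.p (nat_lit 5) (nat_lit 1) (.p (nat_lit 6) (nat_lit 1) (.n (nat_lit 7) (nat_lit 1) (.p (nat_lit 8) (nat_lit 1) (.n (nat_lit 10) (nat_lit 1) (.n (nat_lit 11) (nat_lit 1) (.n (nat_lit 12) (nat_lit 1) (.n (nat_lit 15) (nat_lit 1) (.n (nat_lit 17) (nat_lit 1) (.n (nat_lit 19) (nat_lit 1) (.p (nat_lit 26) (nat_lit 1) (.p (nat_lit 28) (nat_lit 1) (.p (nat_lit 30) (nat_lit 1) (.p (nat_lit 36) (nat_lit 1) .z)))))))))))))))) .nil)))))))))))))))))))))) .leaf)))) (nat_lit 122886) (nat_lit 1071) (.p (nat_lit 355) (nat_lit 2) (.n (nat_lit 356) (nat_lit 3) (.n (nat_lit 357) (nat_lit 3) (.n (nat_lit 358) (nat_lit 1) (.n (nat_lit 359) (nat_lit 1) (.p (nat_lit 360) (nat_lit 1) (.n (nat_lit 361) (nat_lit 1) (.n (nat_lit 362) (nat_lit 2) (.n (nat_lit 363) (nat_lit 3) (.p (nat_lit 364) (nat_lit 3) (.p (nat_lit 365) (nat_lit 2) (.n (nat_lit 367) (nat_lit 1) (.n (nat_lit 369) (nat_lit 3) (.n (nat_lit 370) (nat_lit 3) (.p (nat_lit 372) (nat_lit 1) (.n (nat_lit 374) (nat_lit 2) (.p (nat_lit 375) (nat_lit 3) (.p (nat_lit 378) (nat_lit 3) (.p (nat_lit 379) (nat_lit 2) (.p (nat_lit 380) (nat_lit 2) (.n (nat_lit 383) (nat_lit 2) (.p (nat_lit 384) (nat_lit 3) (.p (nat_lit 385) (nat_lit 1) (.n (nat_lit 386) (nat_lit 3) (.p (nat_lit 387) (nat_lit 3) (.p (nat_lit 388) (nat_lit 3) (.n (nat_lit 389) (nat_lit 2) (.p (nat_lit 390) (nat_lit 1) (.n (nat_lit 391) (nat_lit 1) (.n (nat_lit 395) (nat_lit 1) (.n (nat_lit 396) (nat_lit 3) (.n (nat_lit 400) (nat_lit 2) (.n (nat_lit 404) (nat_lit 1) (.n (nat_lit 405) (nat_lit 2) (.p (nat_lit 406) (nat_lit 2) (.n (nat_lit 407) (nat_lit 3) (.p (nat_lit 408) (nat_lit 1) (.p (nat_lit 409) (nat_lit 3) (.n (nat_lit 410) (nat_lit 3) (.n (nat_lit 412) (nat_lit 3) (.p (nat_lit 413) (nat_lit 3) (.p (nat_lit 414) (nat_lit 2) (.p (nat_lit 416) (nat_lit 3) (.p (nat_lit 423) (nat_lit 2) (.n (nat_lit 424) (nat_lit 2) .z))))))))))))))))))))))))))))))))))))))))))))) (.ct dC1c_c548 (nat_lit 1) (nat_lit 13) (.s true (nat_lit 1) (nat_lit 29) (nat_lit 1) (nat_lit 1) (nat_lit 6) true (nat_lit 6) true (nat_lit 13) true (nat_lit 1) true (nat_lit 18) true (nat_lit 18) (.e true (nat_lit 1) (nat_lit 60) (nat_lit 17) (nat_lit 6) (.e false (nat_lit 2) (nat_lit 260) (nat_lit 1) (nat_lit 18) (.e false (nat_lit 2) (nat_lit 261) (nat_lit 1) (nat_lit 18) (.e false (nat_lit 2) (nat_lit 262) (nat_lit 1) (nat_lit 18) (.e false (nat_lit 3) (nat_lit 264) (nat_lit 1) (nat_lit 18) (.e true (nat_lit 1) (nat_lit 265) (nat_lit 1) (nat_lit 18) (.e false (nat_lit 1) (nat_lit 267) (nat_lit 1) (nat_lit 18) (.e true (nat_lit 3) (nat_lit 268) (nat_lit 1) (nat_lit 18) (.e true (nat_lit 3) (nat_lit 269) (nat_lit 1) (nat_lit 18) (.e true (nat_lit 1) (nat_lit 270) (nat_lit 1) (nat_lit 18) (.e true (nat_lit 2) (nat_lit 271) (nat_lit 1) (nat_lit 18) (.e false (nat_lit 1) (nat_lit 272) (nat_lit 1) (nat_lit 18) (.e false (nat_lit 2) (nat_lit 274) (nat_lit 1) (nat_lit 18) (.e false (nat_lit 1) (nat_lit 277) (nat_lit 1) (nat_lit 18) (.e true (nat_lit 2) (nat_lit 279) (nat_lit 1) (nat_lit 18) (.e false (nat_lit 1) (nat_lit 280) (nat_lit 1) (nat_lit 18) (.e false (nat_lit 1) (nat_lit 286) (nat_lit 1) (nat_lit 18) (.e true (nat_lit 1) (nat_lit 287) (nat_lit 1) (nat_lit 18) (.e false (nat_lit 1) (nat_lit 288) (nat_lit 1) (nat_lit 18) (.e true (nat_lit 2) (nat_lit 263) (nat_lit 1) (nat_lit 18) (.e true (nat_lit 1) (nat_lit 273) (nat_lit 1) (nat_lit 18) (.e true (nat_lit 1) (nat_lit 278) (nat_lit 1) (nat_lit 18) (.u (nat_lit 2) (.p (nat_lit 0) (nat_lit 1) (.n (nat_lit 1) (nat_lit 1) (.p (nat_lit 6) (nat_lit 1) (.n (nat_lit 9) (nat_lit 2) (.n (nat_lit 11) (nat_lit 2) (.n (nat_lit 12) (nat_lit 1) (.p (nat_lit 14) (nat_lit 2) (.n (nat_lit 15) (nat_lit 1) (.p (nat_lit 17) (nat_lit 1) (.n (nat_lit 20) (nat_lit 1) (.p (nat_lit 27) (nat_lit 1) (.p (nat_lit 28) (nat_lit 2) (.n (nat_lit 29) (nat_lit 1) (.p (nat_lit 31) (nat_lit 1) (.p (nat_lit 32) (nat_lit 1) (.n (nat_lit 33) (nat_lit 3) (.p (nat_lit 34) (nat_lit 1) (.n (nat_lit 35) (nat_lit 1) (.n (nat_lit 36) (nat_lit 1) (.n (nat_lit 38) (nat_lit 2) (.p (nat_lit 41) (nat_lit 1) (.p (nat_lit 375) (nat_lit 1) (.n (nat_lit 376) (nat_lit 2) (.n (nat_lit 377) (nat_lit 3) (.p (nat_lit 378) (nat_lit 1) (.p (nat_lit 379) (nat_lit 1) (.p (nat_lit 381) (nat_lit 3) (.p (nat_lit 383) (nat_lit 1) (.p (nat_lit 385) (nat_lit 1) (.n (nat_lit 386) (nat_lit 1) (.n (nat_lit 393) (nat_lit 1) (.p (nat_lit 394) (nat_lit 2) (.p (nat_lit 395) (nat_lit 1) (.n (nat_lit 396) (nat_lit 1) (.n (nat_lit 397) (nat_lit 1) (.p (nat_lit 402) (nat_lit 1) (.p (nat_lit 403) (nat_lit 1) .z))))))))))))))))))))))))))))))))))))) .nil))))))))))))))))))))))))) (.nd (.nd (.nd (.nd (.nd .leaf (nat_lit 123906) (nat_lit 492) (.n (nat_lit 212) (nat_lit 2) (.p (nat_lit 214) (nat_lit 1) (.n (nat_lit 215) (nat_lit 3) (.p (nat_lit 217) (nat_lit 2) (.p (nat_lit 218) (nat_lit 3) (.n (nat_lit 219) (nat_lit 3) (.p (nat_lit 220) (nat_lit 2) (.p (nat_lit 221) (nat_lit 1) (.n (nat_lit 222) (nat_lit 1) (.n (nat_lit 223) (nat_lit 1) (.n (nat_lit 224) (nat_lit 2) (.p (nat_lit 227) (nat_lit 1) (.n (nat_lit 231) (nat_lit 3) (.p (nat_lit 232) (nat_lit 2) (.n (nat_lit 233) (nat_lit 2) (.n (nat_lit 234) (nat_lit 1) (.n (nat_lit 235) (nat_lit 3) (.n (nat_lit 236) (nat_lit 2) (.p (nat_lit 237) (nat_lit 3) (.p (nat_lit 238) (nat_lit 1) (.n (nat_lit 239) (nat_lit 2) (.n (nat_lit 240) (nat_lit 2) (.n (nat_lit 241) (nat_lit 1) (.n (nat_lit 242) (nat_lit 1) (.p (nat_lit 243) (nat_lit 1) (.n (nat_lit 244) (nat_lit 1) (.n (nat_lit 245) (nat_lit 3) (.n (nat_lit 248) (nat_lit 1) (.n (nat_lit 259) (nat_lit 1) .z))))))))))))))))))))))))))))) (.ct dC1c_c547 (nat_lit 1) (nat_lit 12) (.s true (nat_lit 1) (nat_lit 30) (nat_lit 1) (nat_lit 1) (nat_lit 2) true (nat_lit 9) true (nat_lit 12) false (nat_lit 3) true (nat_lit 13) true (nat_lit 13) (.e true (nat_lit 1) (nat_lit 61) (nat_lit 5) (nat_lit 9) (.e true (nat_lit 2) (nat_lit 132) (nat_lit 1) (nat_lit 13) (.e false (nat_lit 3) (nat_lit 134) (nat_lit 1) (nat_lit 13) (.e false (nat_lit 2) (nat_lit 135) (nat_lit 1) (nat_lit 13) (.e true (nat_lit 2) (nat_lit 136) (nat_lit 1) (nat_lit 13) (.e false (nat_lit 2) (nat_lit 137) (nat_lit 1) (nat_lit 13) (.e false (nat_lit 3) (nat_lit 138) (nat_lit 1) (nat_lit 13) (.e true (nat_lit 3) (nat_lit 139) (nat_lit 1) (nat_lit 13) (.e false (nat_lit 1) (nat_lit 140) (nat_lit 1) (nat_lit 13) (.e false (nat_lit 2) (nat_lit 141) (nat_lit 1) (nat_lit 13) (.e true (nat_lit 3) (nat_lit 142) (nat_lit 1) (nat_lit 13) (.e true (nat_lit 1) (nat_lit 143) (nat_lit 1) (nat_lit 13) (.e true (nat_lit 2) (nat_lit 144) (nat_lit 1) (nat_lit 13) (.e true (nat_lit 3) (nat_lit 149) (nat_lit 1) (nat_lit 13) (.e false (nat_lit 2) (nat_lit 150) (nat_lit 1) (nat_lit 13) (.e false (nat_lit 1) (nat_lit 151) (nat_lit 1) (nat_lit 13) (.e false (nat_lit 1) (nat_lit 152) (nat_lit 1) (nat_lit 13) (.e false (nat_lit 1) (nat_lit 145) (nat_lit 1) (nat_lit 13) (.u (nat_lit 2) (.p (nat_lit 0) (nat_lit 2) (.p (nat_lit 3) (nat_lit 2) (.n (nat_lit 6) (nat_lit 2) (.p (nat_lit 7) (nat_lit 2) (.p (nat_lit 9) (nat_lit 1) (.p (nat_lit 15) (nat_lit 1) (.p (nat_lit 19) (nat_lit 2) (.p (nat_lit 21) (nat_lit 1) (.p (nat_lit 22) (nat_lit 1) (.p (nat_lit 23) (nat_lit 3) (.p (nat_lit 24) (nat_lit 1) (.p (nat_lit 25) (nat_lit 1) (.p (nat_lit 26) (nat_lit 1) (.n (nat_lit 27) (nat_lit 1) (.p (nat_lit 28) (nat_lit 1) (.p (nat_lit 29) (nat_lit 1) (.n (nat_lit 31) (nat_lit 1) (.n (nat_lit 32) (nat_lit 1) (.p (nat_lit 33) (nat_lit 1) (.p (nat_lit 36) (nat_lit 1) .z)))))))))))))))))))) .nil))))))))))))))))))))) .leaf) (nat_lit 123910) (nat_lit 1110) (.p (nat_lit 355) (nat_lit 3) (.n (nat_lit 356) (nat_lit 1) (.n (nat_lit 357) (nat_lit 1) (.p (nat_lit 359) (nat_lit 2) (.p (nat_lit 360) (nat_lit 1) (.p (nat_lit 361) (nat_lit 1) (.p (nat_lit 363) (nat_lit 3) (.n (nat_lit 364) (nat_lit 3) (.n (nat_lit 365) (nat_lit 1) (.n (nat_lit 366) (nat_lit 3) (.n (nat_lit 369) (nat_lit 2) (.p (nat_lit 372) (nat_lit 2) (.n (nat_lit 373) (nat_lit 1) (.n (nat_lit 378) (nat_lit 1) (.n (nat_lit 379) (nat_lit 3) (.n (nat_lit 380) (nat_lit 3) (.n (nat_lit 381) (nat_lit 1) (.p (nat_lit 382) (nat_lit 2) (.n (nat_lit 383) (nat_lit 3) (.p (nat_lit 384) (nat_lit 1) (.n (nat_lit 385) (nat_lit 2) (.n (nat_lit 386) (nat_lit 1) (.n (nat_lit 387) (nat_lit 3) (.p (nat_lit 388) (nat_lit 2) (.p (nat_lit 389) (nat_lit 1) (.n (nat_lit 390) (nat_lit 2) (.n (nat_lit 391) (nat_lit 3) (.n (nat_lit 392) (nat_lit 3) (.n (nat_lit 393) (nat_lit 1) (.n (nat_lit 394) (nat_lit 2) (.p (nat_lit 395) (nat_lit 2) (.p (nat_lit 396) (nat_lit 3) (.p (nat_lit 400) (nat_lit 3) (.n (nat_lit 404) (nat_lit 3) (.n (nat_lit 405) (nat_lit 2) (.p (nat_lit 406) (nat_lit 2) (.p (nat_lit 407) (nat_lit 1) (.n (nat_lit 408) (nat_lit 3) (.n (nat_lit 409) (nat_lit 2) (.p (nat_lit 410) (nat_lit 2) (.p (nat_lit 412) (nat_lit 1) (.n (nat_lit 413) (nat_lit 1) (.n (nat_lit 414) (nat_lit 3) (.n (nat_lit 416) (nat_lit 1) (.n (nat_lit 423) (nat_lit 3) (.p (nat_lit 424) (nat_lit 3) .z)))))))))))))))))))))))))))))))))))))))))))))) (.ct dC1c_c548 (nat_lit 1) (nat_lit 13) (.s true (nat_lit 1) (nat_lit 30) (nat_lit 1) (nat_lit 1) (nat_lit 6) true (nat_lit 6) true (nat_lit 13) true (nat_lit 1) true (nat_lit 18) true (nat_lit 18) (.e true (nat_lit 1) (nat_lit 61) (nat_lit 17) (nat_lit 6) (.e false (nat_lit 1) (nat_lit 260) (nat_lit 1) (nat_lit 18) (.e true (nat_lit 3) (nat_lit 262) (nat_lit 1) (nat_lit 18) (.e false (nat_lit 2) (nat_lit 263) (nat_lit 1) (nat_lit 18) (.e true (nat_lit 3) (nat_lit 264) (nat_lit 1) (nat_lit 18) (.e false (nat_lit 1) (nat_lit 265) (nat_lit 1) (nat_lit 18) (.e true (nat_lit 1) (nat_lit 266) (nat_lit 1) (nat_lit 18) (.e false (nat_lit 2) (nat_lit 267) (nat_lit 1) (nat_lit 18) (.e true (nat_lit 1) (nat_lit 268) (nat_lit 1) (nat_lit 18) (.e false (nat_lit 1) (nat_lit 269) (nat_lit 1) (nat_lit 18) (.e true (nat_lit 1) (nat_lit 272) (nat_lit 1) (nat_lit 18) (.e true (nat_lit 1) (nat_lit 274) (nat_lit 1) (nat_lit 18) (.e false (nat_lit 2) (nat_lit 277) (nat_lit 1) (nat_lit 18) (.e false (nat_lit 3) (nat_lit 278) (nat_lit 1) (nat_lit 18) (.e false (nat_lit 1) (nat_lit 280) (nat_lit 1) (nat_lit 18) (.e false (nat_lit 3) (nat_lit 286) (nat_lit 1) (nat_lit 18) (.e false (nat_lit 3) (nat_lit 288) (nat_lit 1) (nat_lit 18) (.e false (nat_lit 3) (nat_lit 271) (nat_lit 1) (nat_lit 18) (.e true (nat_lit 1) (nat_lit 273) (nat_lit 1) (nat_lit 18) (.u (nat_lit 2) (.n (nat_lit 0) (nat_lit 2) (.n (nat_lit 1) (nat_lit 2) (.p (nat_lit 2) (nat_lit 2) (.n (nat_lit 4) (nat_lit 1) (.p (nat_lit 6) (nat_lit 1) (.n (nat_lit 7) (nat_lit 1) (.n (nat_lit 9) (nat_lit 3) (.p (nat_lit 10) (nat_lit 1) (.p (nat_lit 11) (nat_lit 1) (.n (nat_lit 12) (nat_lit 1) (.n (nat_lit 15) (nat_lit 2) (.p (nat_lit 17) (nat_lit 3) (.n (nat_lit 18) (nat_lit 2) (.n (nat_lit 19) (nat_lit 1) (.p (nat_lit 20) (nat_lit 3) (.n (nat_lit 27) (nat_lit 1) (.p (nat_lit 28) (nat_lit 1) (.p (nat_lit 30) (nat_lit 1) (.n (nat_lit 31) (nat_lit 3) (.p (nat_lit 32) (nat_lit 1) (.n (nat_lit 33) (nat_lit 2) (.p (nat_lit 34) (nat_lit 1) (.n (nat_lit 36) (nat_lit 2) (.p (nat_lit 37) (nat_lit 3) (.p (nat_lit 40) (nat_lit 1) (.n (nat_lit 41) (nat_lit 1) (.n (nat_lit 375) (nat_lit 2) (.n (nat_lit 376) (nat_lit 1) (.n (nat_lit 378) (nat_lit 1) (.n (nat_lit 380) (nat_lit 1) (.p (nat_lit 381) (nat_lit 1) (.p (nat_lit 382) (nat_lit 1) (.n (nat_lit 383) (nat_lit 1) (.n (nat_lit 384) (nat_lit 1) (.n (nat_lit 387) (nat_lit 2) (.n (nat_lit 388) (nat_lit 1) (.n (nat_lit 392) (nat_lit 1) (.n (nat_lit 393) (nat_lit 2) (.n (nat_lit 397) (nat_lit 1) (.p (nat_lit 401) (nat_lit 1) (.p (nat_lit 402) (nat_lit 1) (.p (nat_lit 404) (nat_lit 1) .z)))))))))))))))))))))))))))))))))))))))))) .nil)))))))))))))))))))))) .leaf) (nat_lit 124930) (nat_lit 548) (.p (nat_lit 212) (nat_lit 3) (.n (nat_lit 214) (nat_lit 1) (.n (nat_lit 215) (nat_lit 2) (.p (nat_lit 216) (nat_lit 3) (.n (nat_lit 217) (nat_lit 1) (.p (nat_lit 220) (nat_lit 2) (.n (nat_lit 221) (nat_lit 1) (.p (nat_lit 222) (nat_lit 1) (.p (nat_lit 224) (nat_lit 3) (.p (nat_lit 226) (nat_lit 2) (.n (nat_lit 227) (nat_lit 1) (.n (nat_lit 228) (nat_lit 3) (.n (nat_lit 229) (nat_lit 1) (.n (nat_lit 230) (nat_lit 2) (.n (nat_lit 231) (nat_lit 3) (.n (nat_lit 232) (nat_lit 2) (.n (nat_lit 236) (nat_lit 1) (.n (nat_lit 237) (nat_lit 2) (.n (nat_lit 238) (nat_lit 3) (.n (nat_lit 239) (nat_lit 2) (.p (nat_lit 241) (nat_lit 2) (.n (nat_lit 242) (nat_lit 1) (.p (nat_lit 243) (nat_lit 1) (.p (nat_lit 244) (nat_lit 1) (.n (nat_lit 245) (nat_lit 2) (.p (nat_lit 246) (nat_lit 1) (.n (nat_lit 247) (nat_lit 1) (.n (nat_lit 248) (nat_lit 1) (.n (nat_lit 249) (nat_lit 3) (.n (nat_lit 251) (nat_lit 3) (.n (nat_lit 252) (nat_lit 1) (.p (nat_lit 258) (nat_lit 3) .z)))))))))))))))))))))))))))))))) (.ct dC1c_c547 (nat_lit 1) (nat_lit 12) (.s true (nat_lit 1) (nat_lit 23) (nat_lit 2) (nat_lit 1) (nat_lit 2) true (nat_lit 8) true (nat_lit 12) false (nat_lit 1) true (nat_lit 12) true (nat_lit 13) (.e false (nat_lit 1) (nat_lit 51) (nat_lit 6) (nat_lit 8) (.e false (nat_lit 3) (nat_lit 118) (nat_lit 2) (nat_lit 12) (.e false (nat_lit 1) (nat_lit 23) (nat_lit 16) (nat_lit 1) (.e false (nat_lit 3) (nat_lit 108) (nat_lit 2) (nat_lit 12) (.e true (nat_lit 3) (nat_lit 109) (nat_lit 2) (nat_lit 12) (.e false (nat_lit 1) (nat_lit 110) (nat_lit 2) (nat_lit 12) (.e false (nat_lit 3) (nat_lit 111) (nat_lit 2) (nat_lit 12) (.e false (nat_lit 1) (nat_lit 112) (nat_lit 2) (nat_lit 12) (.e true (nat_lit 1) (nat_lit 114) (nat_lit 2) (nat_lit 12) (.e false (nat_lit 3) (nat_lit 115) (nat_lit 2) (nat_lit 12) (.e false (nat_lit 3) (nat_lit 116) (nat_lit 2) (nat_lit 12) (.e true (nat_lit 1) (nat_lit 117) (nat_lit 2) (nat_lit 12) (.e true (nat_lit 3) (nat_lit 121) (nat_lit 2) (nat_lit 12) (.e false (nat_lit 3) (nat_lit 123) (nat_lit 2) (nat_lit 12) (.e false (nat_lit 1) (nat_lit 124) (nat_lit 2) (nat_lit 12) (.e false (nat_lit 1) (nat_lit 125) (nat_lit 2) (nat_lit 12) (.e false (nat_lit 3) (nat_lit 126) (nat_lit 2) (nat_lit 12) (.e false (nat_lit 3) (nat_lit 129) (nat_lit 2) (nat_lit 12) (.e false (nat_lit 1) (nat_lit 130) (nat_lit 2) (nat_lit 12) (.e true (nat_lit 1) (nat_lit 135) (nat_lit 1) (nat_lit 13) (.u (nat_lit 2) (.n (nat_lit 0) (nat_lit 1) (.p (nat_lit 1) (nat_lit 1) (.n (nat_lit 2) (nat_lit 2) (.p (nat_lit 3) (nat_lit 4) (.p (nat_lit 5) (nat_lit 2) (.p (nat_lit 6) (nat_lit 2) (.n (nat_lit 7) (nat_lit 1) (.n (nat_lit 8) (nat_lit 2) (.n (nat_lit 10) (nat_lit 4) (.p (nat_lit 11) (nat_lit 3) (.n (nat_lit 13) (nat_lit 3) (.n (nat_lit 14) (nat_lit 1) (.p (nat_lit 15) (nat_lit 2) (.n (nat_lit 16) (nat_lit 2) (.p (nat_lit 17) (nat_lit 1) (.n (nat_lit 18) (nat_lit 1) (.n (nat_lit 19) (nat_lit 1) (.p (nat_lit 20) (nat_lit 1) (.p (nat_lit 21) (nat_lit 3) (.p (nat_lit 22) (nat_lit 2) (.p (nat_lit 23) (nat_lit 2) (.n (nat_lit 25) (nat_lit 5) (.p (nat_lit 26) (nat_lit 3) (.p (nat_lit 27) (nat_lit 2) (.p (nat_lit 28) (nat_lit 4) (.p (nat_lit 29) (nat_lit 1) (.p (nat_lit 31) (nat_lit 1) (.n (nat_lit 32) (nat_lit 2) (.p (nat_lit 33) (nat_lit 3) (.p (nat_lit 34) (nat_lit 3) (.n (nat_lit 35) (nat_lit 2) (.p (nat_lit 36) (nat_lit 2) (.p (nat_lit 37) (nat_lit 4) (.n (nat_lit 38) (nat_lit 1) (.n (nat_lit 39) (nat_lit 2) (.p (nat_lit 40) (nat_lit 1) (.n (nat_lit 41) (nat_lit 1) (.n (nat_lit 42) (nat_lit 1) (.p (nat_lit 44) (nat_lit 3) (.n (nat_lit 45) (nat_lit 1) (.n (nat_lit 46) (nat_lit 2) (.p (nat_lit 47) (nat_lit 1) (.n (nat_lit 147) (nat_lit 1) .z))))))))))))))))))))))))))))))))))))))))))) .nil))))))))))))))))))))))) (.nd (.nd .leaf (nat_lit 124934) (nat_lit 1042) (.p (nat_lit 355) (nat_lit 1) (.n (nat_lit 356) (nat_lit 2) (.p (nat_lit 357) (nat_lit 3) (.p (nat_lit 358) (nat_lit 1) (.p (nat_lit 359) (nat_lit 2) (.n (nat_lit 360) (nat_lit 2) (.n (nat_lit 361) (nat_lit 3) (.n (nat_lit 362) (nat_lit 3) (.n (nat_lit 363) (nat_lit 1) (.p (nat_lit 364) (nat_lit 1) (.p (nat_lit 365) (nat_lit 3) (.n (nat_lit 366) (nat_lit 3) (.p (nat_lit 367) (nat_lit 2) (.n (nat_lit 370) (nat_lit 1) (.n (nat_lit 372) (nat_lit 1) (.n (nat_lit 373) (nat_lit 3) (.n (nat_lit 374) (nat_lit 1) (.n (nat_lit 375) (nat_lit 2) (.n (nat_lit 376) (nat_lit 2) (.n (nat_lit 379) (nat_lit 3) (.n (nat_lit 380) (nat_lit 3) (.p (nat_lit 382) (nat_lit 1) (.n (nat_lit 384) (nat_lit 1) (.n (nat_lit 385) (nat_lit 1) (.n (nat_lit 386) (nat_lit 3) (.n (nat_lit 387) (nat_lit 2) (.n (nat_lit 388) (nat_lit 1) (.p (nat_lit 389) (nat_lit 2) (.p (nat_lit 390) (nat_lit 1) (.n (nat_lit 391) (nat_lit 3) (.n (nat_lit 392) (nat_lit 1) (.p (nat_lit 394) (nat_lit 3) (.n (nat_lit 395) (nat_lit 2) (.p (nat_lit 396) (nat_lit 2) (.p (nat_lit 400) (nat_lit 3) (.p (nat_lit 401) (nat_lit 1) (.n (nat_lit 403) (nat_lit 1) (.p (nat_lit 404) (nat_lit 1) (.p (nat_lit 405) (nat_lit 3) (.n (nat_lit 406) (nat_lit 3) (.p (nat_lit 407) (nat_lit 2) (.p (nat_lit 408) (nat_lit 1) (.p (nat_lit 409) (nat_lit 3) (.n (nat_lit 410) (nat_lit 3) (.p (nat_lit 412) (nat_lit 2) (.n (nat_lit 413) (nat_lit 2) (.p (nat_lit 414) (nat_lit 1) (.n (nat_lit 416) (nat_lit 2) (.n (nat_lit 422) (nat_lit 3) (.p (nat_lit 423) (nat_lit 1) (.n (nat_lit 424) (nat_lit 1) .z))))))))))))))))))))))))))))))))))))))))))))))))))) (.ct dC1c_c548 (nat_lit 1) (nat_lit 13) (.s false (nat_lit 1) (nat_lit 62) (nat_lit 1) (nat_lit 2) (nat_lit 2) true (nat_lit 14) true (nat_lit 17) false (nat_lit 6) true (nat_lit 18) true (nat_lit 17) (.s false (nat_lit 1) (nat_lit 62) (nat_lit 2) (nat_lit 1) (nat_lit 2) true (nat_lit 13) true (nat_lit 17) false (nat_lit 6) true (nat_lit 17) true (nat_lit 18) (.e false (nat_lit 1) (nat_lit 139) (nat_lit 5) (nat_lit 14) (.e true (nat_lit 3) (nat_lit 212) (nat_lit 2) (nat_lit 17) (.e true (nat_lit 1) (nat_lit 214) (nat_lit 2) (nat_lit 17) (.e false (nat_lit 2) (nat_lit 215) (nat_lit 2) (nat_lit 17) (.e false (nat_lit 3) (nat_lit 216) (nat_lit 2) (nat_lit 17) (.e true (nat_lit 2) (nat_lit 217) (nat_lit 2) (nat_lit 17) (.e false (nat_lit 2) (nat_lit 220) (nat_lit 2) (nat_lit 17) dC1c_i103)))))))))) .leaf) (nat_lit 125954) (nat_lit 523) (.p (nat_lit 213) (nat_lit 1) (.n (nat_lit 214) (nat_lit 2) (.n (nat_lit 215) (nat_lit 3) (.p (nat_lit 216) (nat_lit 3) (.p (nat_lit 217) (nat_lit 3) (.p (nat_lit 219) (nat_lit 2) (.p (nat_lit 220) (nat_lit 2) (.p (nat_lit 221) (nat_lit 1) (.p (nat_lit 222) (nat_lit 1) (.p (nat_lit 223) (nat_lit 3) (.n (nat_lit 224) (nat_lit 3) (.n (nat_lit 225) (nat_lit 2) (.n (nat_lit 227) (nat_lit 2) (.p (nat_lit 228) (nat_lit 1) (.p (nat_lit 229) (nat_lit 1) (.p (nat_lit 230) (nat_lit 1) (.p (nat_lit 231) (nat_lit 2) (.p (nat_lit 232) (nat_lit 2) (.p (nat_lit 233) (nat_lit 1) (.p (nat_lit 234) (nat_lit 3) (.n (nat_lit 235) (nat_lit 1) (.n (nat_lit 236) (nat_lit 3) (.n (nat_lit 237) (nat_lit 3) (.p (nat_lit 238) (nat_lit 2) (.n (nat_lit 239) (nat_lit 3) (.p (nat_lit 240) (nat_lit 2) (.p (nat_lit 241) (nat_lit 3) (.p (nat_lit 242) (nat_lit 1) (.n (nat_lit 243) (nat_lit 3) (.p (nat_lit 244) (nat_lit 1) (.p (nat_lit 246) (nat_lit 2) (.n (nat_lit 247) (nat_lit 2) (.p (nat_lit 248) (nat_lit 3) (.p (nat_lit 249) (nat_lit 1) (.n (nat_lit 250) (nat_lit 2) (.n (nat_lit 251) (nat_lit 1) (.p (nat_lit 252) (nat_lit 2) (.p (nat_lit 258) (nat_lit 1) (.n (nat_lit 259) (nat_lit 1) .z))))))))))))))))))))))))))))))))))))))) (.ct dC1c_c547 (nat_lit 1) (nat_lit 12) (.s false (nat_lit 1) (nat_lit 9) (nat_lit 1) (nat_lit 5) (nat_lit 2) true (nat_lit 9) true (nat_lit 12) true (nat_lit 5) true (nat_lit 13) true (nat_lit 9) (.s true (nat_lit 1) (nat_lit 14) (nat_lit 0) (nat_lit 5) (nat_lit 1) true (nat_lit 11) true (nat_lit 13) true (nat_lit 2) true (nat_lit 14) true (nat_lit 9) (.s false (nat_lit 3) (nat_lit 15) (nat_lit 0) (nat_lit 5) (nat_lit 1) true (nat_lit 11) true (nat_lit 13) true (nat_lit 2) true (nat_lit 14) true (nat_lit 9) (.s true (nat_lit 1) (nat_lit 14) (nat_lit 5) (nat_lit 0) (nat_lit 1) true (nat_lit 3) true (nat_lit 13) true (nat_lit 2) true (nat_lit 9) true (nat_lit 14) (.s false (nat_lit 3) (nat_lit 15) (nat_lit 5) (nat_lit 0) (nat_lit 1) true (nat_lit 3) true (nat_lit 13) true (nat_lit 2) true (nat_lit 9) true (nat_lit 14) (.s false (nat_lit 1) (nat_lit 16) (nat_lit 5) (nat_lit 0) (nat_lit 0) true (nat_lit 4) true (nat_lit 14) true (nat_lit 1) true (nat_lit 9) true (nat_lit 14) (.s true (nat_lit 1) (nat_lit 23) (nat_lit 1) (nat_lit 2) (nat_lit 2) true (nat_lit 9) true (nat_lit 12) false (nat_lit 1) true (nat_lit 13) true (nat_lit 12) (.s false (nat_lit 2) (nat_lit 32) (nat_lit 0) (nat_lit 1) (nat_lit 2) true (nat_lit 10) true (nat_lit 12) false (nat_lit 4) true (nat_lit 14) true (nat_lit 13) (.s false (nat_lit 2) (nat_lit 32) (nat_lit 1) (nat_lit 0) (nat_lit 2) true (nat_lit 9) true (nat_lit 12) false (nat_lit 4) true (nat_lit 13) true (nat_lit 14) dC1c_i106)))))))))) .leaf)) (nat_lit 125958) (nat_lit 1024) (.p (nat_lit 355) (nat_lit 3) (.p (nat_lit 359) (nat_lit 2) (.n (nat_lit 360) (nat_lit 3) (.n (nat_lit 361) (nat_lit 1) (.p (nat_lit 364) (nat_lit 3) (.p (nat_lit 365) (nat_lit 3) (.n (nat_lit 366) (nat_lit 3) (.p (nat_lit 367) (nat_lit 3) (.n (nat_lit 369) (nat_lit 3) (.p (nat_lit 370) (nat_lit 2) (.n (nat_lit 372) (nat_lit 3) (.n (nat_lit 373) (nat_lit 1) (.n (nat_lit 374) (nat_lit 2) (.p (nat_lit 375) (nat_lit 1) (.p (nat_lit 378) (nat_lit 3) (.p (nat_lit 379) (nat_lit 1) (.p (nat_lit 380) (nat_lit 1) (.p (nat_lit 381) (nat_lit 1) (.p (nat_lit 383) (nat_lit 3) (.n (nat_lit 384) (nat_lit 2) (.p (nat_lit 385) (nat_lit 1) (.n (nat_lit 386) (nat_lit 2) (.p (nat_lit 387) (nat_lit 3) (.p (nat_lit 388) (nat_lit 2) (.p (nat_lit 389) (nat_lit 2) (.p (nat_lit 390) (nat_lit 3) (.n (nat_lit 391) (nat_lit 3) (.p (nat_lit 392) (nat_lit 3) (.n (nat_lit 393) (nat_lit 2) (.n (nat_lit 394) (nat_lit 1) (.p (nat_lit 395) (nat_lit 2) (.p (nat_lit 396) (nat_lit 1) (.n (nat_lit 400) (nat_lit 1) (.p (nat_lit 401) (nat_lit 2) (.n (nat_lit 403) (nat_lit 2) (.p (nat_lit 404) (nat_lit 2) (.n (nat_lit 405) (nat_lit 1) (.p (nat_lit 406) (nat_lit 1) (.n (nat_lit 407) (nat_lit 3) (.p (nat_lit 408) (nat_lit 2) (.n (nat_lit 409) (nat_lit 1) (.p (nat_lit 410) (nat_lit 1) (.n (nat_lit 412) (nat_lit 3) (.p (nat_lit 413) (nat_lit 3) (.p (nat_lit 414) (nat_lit 2) (.p (nat_lit 416) (nat_lit 3) (.p (nat_lit 422) (nat_lit 1) (.p (nat_lit 423) (nat_lit 2) (.n (nat_lit 424) (nat_lit 2) .z))))))))))))))))))))))))))))))))))))))))))))))))) (.ct dC1c_c548 (nat_lit 1) (nat_lit 13) (.s false (nat_lit 2) (nat_lit 7) (nat_lit 2) (nat_lit 5) (nat_lit 6) true (nat_lit 5) true (nat_lit 13) true (nat_lit 12) true (nat_lit 17) true (nat_lit 14) (.s true (nat_lit 3) (nat_lit 7) (nat_lit 6) (nat_lit 1) (nat_lit 6) false (nat_lit 4) true (nat_lit 13) true (nat_lit 12) true (nat_lit 13) true (nat_lit 18) (.s true (nat_lit 2) (nat_lit 8) (nat_lit 4) (nat_lit 6) (nat_lit 2) true (nat_lit 7) true (nat_lit 17) true (nat_lit 11) true (nat_lit 15) true (nat_lit 13) (.s true (nat_lit 2) (nat_lit 8) (nat_lit 6) (nat_lit 6) (nat_lit 0) true (nat_lit 7) true (nat_lit 19) true (nat_lit 11) true (nat_lit 13) true (nat_lit 13) (.s false (nat_lit 3) (nat_lit 14) (nat_lit 1) (nat_lit 1) (nat_lit 14) true (nat_lit 0) true (nat_lit 7) true (nat_lit 7) true (nat_lit 18) true (nat_lit 18) (.s true (nat_lit 3) (nat_lit 15) (nat_lit 1) (nat_lit 1) (nat_lit 15) true (nat_lit 0) true (nat_lit 7) true (nat_lit 7) true (nat_lit 18) true (nat_lit 18) (.s false (nat_lit 2) (nat_lit 14) (nat_lit 2) (nat_lit 2) (nat_lit 8) true (nat_lit 2) true (nat_lit 11) true (nat_lit 7) true (nat_lit 17) true (nat_lit 17) (.s true (nat_lit 2) (nat_lit 15) (nat_lit 8) (nat_lit 2) (nat_lit 2) true (nat_lit 2) true (nat_lit 17) true (nat_lit 7) true (nat_lit 11) true (nat_lit 17) dC1c_i111))))))))) (.nd (.nd (.nd .leaf (nat_lit 126978) (nat_lit 477) (.n (nat_lit 213) (nat_lit 1) (.n (nat_lit 214) (nat_lit 3) (.p (nat_lit 216) (nat_lit 1) (.n (nat_lit 217) (nat_lit 2) (.n (nat_lit 218) (nat_lit 3) (.n (nat_lit 219) (nat_lit 2) (.p (nat_lit 220) (nat_lit 1) (.n (nat_lit 221) (nat_lit 1) (.n (nat_lit 222) (nat_lit 2) (.p (nat_lit 223) (nat_lit 1) (.n (nat_lit 224) (nat_lit 1) (.n (nat_lit 225) (nat_lit 2) (.p (nat_lit 226) (nat_lit 2) (.n (nat_lit 227) (nat_lit 2) (.p (nat_lit 228) (nat_lit 2) (.n (nat_lit 229) (nat_lit 1) (.n (nat_lit 230) (nat_lit 2) (.n (nat_lit 231) (nat_lit 1) (.n (nat_lit 232) (nat_lit 1) (.p (nat_lit 233) (nat_lit 3) (.n (nat_lit 234) (nat_lit 3) (.p (nat_lit 235) (nat_lit 2) (.n (nat_lit 236) (nat_lit 2) (.p (nat_lit 237) (nat_lit 3) (.n (nat_lit 238) (nat_lit 3) (.n (nat_lit 239) (nat_lit 1) (.n (nat_lit 240) (nat_lit 3) (.p (nat_lit 241) (nat_lit 3) (.n (nat_lit 243) (nat_lit 3) (.p (nat_lit 245) (nat_lit 1) (.n (nat_lit 246) (nat_lit 3) (.p (nat_lit 247) (nat_lit 3) (.p (nat_lit 248) (nat_lit 3) (.p (nat_lit 249) (nat_lit 2) (.n (nat_lit 250) (nat_lit 2) .z))))))))))))))))))))))))))))))))))) (.ct dC1c_c547 (nat_lit 1) (nat_lit 12) (.s false (nat_lit 1) (nat_lit 5) (nat_lit 4) (nat_lit 4) (nat_lit 1) true (nat_lit 4) true (nat_lit 13) true (nat_lit 9) true (nat_lit 10) true (nat_lit 10) (.s false (nat_lit 1) (nat_lit 7) (nat_lit 2) (nat_lit 2) (nat_lit 5) true (nat_lit 1) true (nat_lit 9) true (nat_lit 7) true (nat_lit 12) true (nat_lit 12) (.s true (nat_lit 3) (nat_lit 7) (nat_lit 2) (nat_lit 6) (nat_lit 1) true (nat_lit 9) true (nat_lit 13) true (nat_lit 7) true (nat_lit 12) true (nat_lit 8) (.s false (nat_lit 3) (nat_lit 8) (nat_lit 2) (nat_lit 2) (nat_lit 4) true (nat_lit 2) true (nat_lit 10) true (nat_lit 6) true (nat_lit 12) true (nat_lit 12) (.s true (nat_lit 3) (nat_lit 8) (nat_lit 2) (nat_lit 4) (nat_lit 2) true (nat_lit 8) true (nat_lit 12) true (nat_lit 6) true (nat_lit 12) true (nat_lit 10) (.s true (nat_lit 3) (nat_lit 8) (nat_lit 6) (nat_lit 2) (nat_lit 0) true (nat_lit 2) true (nat_lit 14) true (nat_lit 6) true (nat_lit 8) true (nat_lit 12) (.s false (nat_lit 2) (nat_lit 9) (nat_lit 1) (nat_lit 1) (nat_lit 6) true (nat_lit 1) true (nat_lit 8) true (nat_lit 5) true (nat_lit 13) true (nat_lit 13) (.s false (nat_lit 2) (nat_lit 9) (nat_lit 1) (nat_lit 6) (nat_lit 1) false (nat_lit 16) true (nat_lit 13) true (nat_lit 5) true (nat_lit 13) true (nat_lit 8) dC1c_i115))))))))) .leaf) (nat_lit 126982) (nat_lit 1131) (.n (nat_lit 355) (nat_lit 2) (.p (nat_lit 356) (nat_lit 1) (.n (nat_lit 357) (nat_lit 3) (.p (nat_lit 358) (nat_lit 1) (.p (nat_lit 359) (nat_lit 2) (.n (nat_lit 360) (nat_lit 3) (.n (nat_lit 363) (nat_lit 3) (.p (nat_lit 364) (nat_lit 1) (.p (nat_lit 365) (nat_lit 3) (.p (nat_lit 366) (nat_lit 1) (.n (nat_lit 367) (nat_lit 3) (.n (nat_lit 370) (nat_lit 2) (.p (nat_lit 372) (nat_lit 3) (.n (nat_lit 374) (nat_lit 1) (.p (nat_lit 375) (nat_lit 3) (.p (nat_lit 376) (nat_lit 3) (.n (nat_lit 378) (nat_lit 3) (.n (nat_lit 379) (nat_lit 2) (.n (nat_lit 380) (nat_lit 2) (.n (nat_lit 381) (nat_lit 3) (.n (nat_lit 382) (nat_lit 1) (.p (nat_lit 384) (nat_lit 3) (.p (nat_lit 385) (nat_lit 3) (.p (nat_lit 386) (nat_lit 2) (.p (nat_lit 387) (nat_lit 3) (.n (nat_lit 388) (nat_lit 3) (.n (nat_lit 389) (nat_lit 3) (.n (nat_lit 390) (nat_lit 3) (.n (nat_lit 391) (nat_lit 3) (.p (nat_lit 392) (nat_lit 2) (.n (nat_lit 393) (nat_lit 2) (.p (nat_lit 394) (nat_lit 2) (.n (nat_lit 395) (nat_lit 2) (.n (nat_lit 396) (nat_lit 3) (.p (nat_lit 400) (nat_lit 2) (.n (nat_lit 401) (nat_lit 3) (.p (nat_lit 403) (nat_lit 3) (.p (nat_lit 422) (nat_lit 2) .z)))))))))))))))))))))))))))))))))))))) (.ct dC1c_c548 (nat_lit 1) (nat_lit 13) (.s false (nat_lit 3) (nat_lit 7) (nat_lit 6) (nat_lit 1) (nat_lit 6) false (nat_lit 4) true (nat_lit 13) true (nat_lit 12) true (nat_lit 13) true (nat_lit 18) (.e true (nat_lit 1) (nat_lit 103) (nat_lit 7) (nat_lit 12) (.e true (nat_lit 1) (nat_lit 104) (nat_lit 7) (nat_lit 12) (.e false (nat_lit 1) (nat_lit 107) (nat_lit 6) (nat_lit 13) (.e false (nat_lit 1) (nat_lit 112) (nat_lit 6) (nat_lit 13) (.e true (nat_lit 1) (nat_lit 114) (nat_lit 6) (nat_lit 13) (.e false (nat_lit 3) (nat_lit 129) (nat_lit 6) (nat_lit 13) (.e false (nat_lit 1) (nat_lit 277) (nat_lit 1) (nat_lit 18) (.u (nat_lit 2) (.p (nat_lit 0) (nat_lit 1) (.n (nat_lit 2) (nat_lit 1) (.p (nat_lit 8) (nat_lit 2) (.n (nat_lit 10) (nat_lit 1) (.n (nat_lit 11) (nat_lit 2) (.n (nat_lit 15) (nat_lit 1) (.n (nat_lit 17) (nat_lit 1) (.p (nat_lit 18) (nat_lit 2) (.n (nat_lit 20) (nat_lit 1) (.p (nat_lit 26) (nat_lit 2) (.p (nat_lit 27) (nat_lit 1) (.p (nat_lit 28) (nat_lit 2) (.n (nat_lit 29) (nat_lit 1) (.p (nat_lit 30) (nat_lit 1) (.n (nat_lit 31) (nat_lit 2) (.n (nat_lit 33) (nat_lit 1) (.p (nat_lit 35) (nat_lit 2) (.p (nat_lit 36) (nat_lit 2) (.n (nat_lit 37) (nat_lit 2) (.p (nat_lit 38) (nat_lit 1) (.p (nat_lit 39) (nat_lit 1) (.p (nat_lit 40) (nat_lit 1) (.p (nat_lit 41) (nat_lit 3) (.n (nat_lit 67) (nat_lit 1) (.p (nat_lit 241) (nat_lit 1) (.p (nat_lit 242) (nat_lit 1) (.n (nat_lit 244) (nat_lit 1) (.n (nat_lit 249) (nat_lit 1) (.p (nat_lit 251) (nat_lit 1) (.p (nat_lit 261) (nat_lit 1) (.n (nat_lit 392) (nat_lit 1) .z))))))))))))))))))))))))))))))) .nil)))))))))) .leaf) (nat_lit 128002) (nat_lit 480) (.n (nat_lit 212) (nat_lit 1) (.p (nat_lit 214) (nat_lit 2) (.p (nat_lit 215) (nat_lit 2) (.p (nat_lit 216) (nat_lit 1) (.p (nat_lit 218) (nat_lit 3) (.p (nat_lit 219) (nat_lit 3) (.n (nat_lit 220) (nat_lit 1) (.n (nat_lit 222) (nat_lit 1) (.n (nat_lit 224) (nat_lit 2) (.p (nat_lit 225) (nat_lit 2) (.p (nat_lit 226) (nat_lit 3) (.p (nat_lit 227) (nat_lit 1) (.n (nat_lit 228) (nat_lit 1) (.n (nat_lit 229) (nat_lit 3) (.p (nat_lit 230) (nat_lit 2) (.n (nat_lit 231) (nat_lit 3) (.n (nat_lit 234) (nat_lit 1) (.n (nat_lit 235) (nat_lit 3) (.p (nat_lit 236) (nat_lit 3) (.n (nat_lit 237) (nat_lit 3) (.p (nat_lit 238) (nat_lit 3) (.p (nat_lit 239) (nat_lit 1) (.p (nat_lit 240) (nat_lit 3) (.p (nat_lit 241) (nat_lit 3) (.p (nat_lit 242) (nat_lit 3) (.n (nat_lit 243) (nat_lit 2) (.n (nat_lit 244) (nat_lit 1) (.p (nat_lit 245) (nat_lit 2) (.n (nat_lit 246) (nat_lit 2) (.n (nat_lit 248) (nat_lit 2) (.p (nat_lit 249) (nat_lit 1) (.n (nat_lit 253) (nat_lit 1) .z)))))))))))))))))))))))))))))))) (.ct dC1c_c547 (nat_lit 1) (nat_lit 12) (.s false (nat_lit 2) (nat_lit 5) (nat_lit 1) (nat_lit 4) (nat_lit 4) true (nat_lit 4) true (nat_lit 10) true (nat_lit 9) true (nat_lit 13) true (nat_lit 10) (.s false (nat_lit 3) (nat_lit 5) (nat_lit 4) (nat_lit 4) (nat_lit 1) true (nat_lit 4) true (nat_lit 13) true (nat_lit 9) true (nat_lit 10) true (nat_lit 10) (.s true (nat_lit 1) (nat_lit 7) (nat_lit 1) (nat_lit 6) (nat_lit 2) true (nat_lit 9) true (nat_lit 12) true (nat_lit 7) true (nat_lit 13) true (nat_lit 8) (.s false (nat_lit 2) (nat_lit 7) (nat_lit 2) (nat_lit 2) (nat_lit 5) true (nat_lit 1) true (nat_lit 9) true (nat_lit 7) true (nat_lit 12) true (nat_lit 12) (.s true (nat_lit 2) (nat_lit 7) (nat_lit 2) (nat_lit 6) (nat_lit 1) true (nat_lit 9) true (nat_lit 13) true (nat_lit 7) true (nat_lit 12) true (nat_lit 8) (.s false (nat_lit 1) (nat_lit 7) (nat_lit 5) (nat_lit 2) (nat_lit 2) true (nat_lit 1) true (nat_lit 12) true (nat_lit 7) true (nat_lit 9) true (nat_lit 12) (.s true (nat_lit 2) (nat_lit 8) (nat_lit 0) (nat_lit 2) (nat_lit 6) true (nat_lit 2) true (nat_lit 8) true (nat_lit 6) true (nat_lit 14) true (nat_lit 12) (.s false (nat_lit 2) (nat_lit 8) (nat_lit 0) (nat_lit 6) (nat_lit 2) true (nat_lit 10) true (nat_lit 12) true (nat_lit 6) true (nat_lit 14) true (nat_lit 8) (.s false (nat_lit 3) (nat_lit 8) (nat_lit 2) (nat_lit 2) (nat_lit 4) true (nat_lit 2) true (nat_lit 10) true (nat_lit 6) true (nat_lit 12) true (nat_lit 12) (.s true (nat_lit 1) (nat_lit 8) (nat_lit 2) (nat_lit 4) (nat_lit 2) true (nat_lit 8) true (nat_lit 12) true (nat_lit 6) true (nat_lit 12) true (nat_lit 10) (.s true (nat_lit 1) (nat_lit 8) (nat_lit 6) (nat_lit 2) (nat_lit 0) true (nat_lit 2) true (nat_lit 14) true (nat_lit 6) true (nat_lit 8) true (nat_lit 12) (.s true (nat_lit 3) (nat_lit 9) (nat_lit 1) (nat_lit 2) (nat_lit 5) true (nat_lit 3) true (nat_lit 9) true (nat_lit 5) true (nat_lit 13) true (nat_lit 12) (.s false (nat_lit 2) (nat_lit 9) (nat_lit 6) (nat_lit 1) (nat_lit 1) true (nat_lit 1) true (nat_lit 13) true (nat_lit 5) true (nat_lit 8) true (nat_lit 13) (.s false (nat_lit 2) (nat_lit 11) (nat_lit 2) (nat_lit 1) (nat_lit 4) true (nat_lit 2) true (nat_lit 10) true (nat_lit 4) true (nat_lit 12) true (nat_lit 13) (.s false (nat_lit 2) (nat_lit 11) (nat_lit 2) (nat_lit 4) (nat_lit 1) true (nat_lit 9) true (nat_lit 13) true (nat_lit 4) true (nat_lit 12) true (nat_lit 10) (.s false (nat_lit 3) (nat_lit 13) (nat_lit 2) (nat_lit 0) (nat_lit 4) true (nat_lit 2) true (nat_lit 10) true (nat_lit 3) true (nat_lit 12) true (nat_lit 14) (.s false (nat_lit 3) (nat_lit 13) (nat_lit 2) (nat_lit 4) (nat_lit 0) true (nat_lit 10) true (nat_lit 14) true (nat_lit 3) true (nat_lit 12) true (nat_lit 10) dC1c_i118)))))))))))))))))) (.nd (.nd .leaf (nat_lit 128006) (nat_lit 1107) (.p (nat_lit 355) (nat_lit 3) (.n (nat_lit 356) (nat_lit 2) (.n (nat_lit 358) (nat_lit 2) (.n (nat_lit 359) (nat_lit 3) (.n (nat_lit 360) (nat_lit 3) (.p (nat_lit 361) (nat_lit 2) (.n (nat_lit 362) (nat_lit 2) (.n (nat_lit 363) (nat_lit 2) (.p (nat_lit 364) (nat_lit 3) (.n (nat_lit 365) (nat_lit 1) (.p (nat_lit 367) (nat_lit 2) (.n (nat_lit 370) (nat_lit 1) (.p (nat_lit 372) (nat_lit 1) (.p (nat_lit 373) (nat_lit 3) (.n (nat_lit 374) (nat_lit 1) (.p (nat_lit 379) (nat_lit 1) (.p (nat_lit 380) (nat_lit 1) (.p (nat_lit 381) (nat_lit 1) (.p (nat_lit 382) (nat_lit 1) (.n (nat_lit 383) (nat_lit 3) (.p (nat_lit 384) (nat_lit 1) (.n (nat_lit 385) (nat_lit 2) (.n (nat_lit 386) (nat_lit 1) (.p (nat_lit 387) (nat_lit 3) (.n (nat_lit 388) (nat_lit 1) (.n (nat_lit 389) (nat_lit 3) (.n (nat_lit 390) (nat_lit 2) (.n (nat_lit 392) (nat_lit 3) (.n (nat_lit 393) (nat_lit 3) (.p (nat_lit 395) (nat_lit 2) (.n (nat_lit 396) (nat_lit 1) (.n (nat_lit 400) (nat_lit 1) (.n (nat_lit 401) (nat_lit 2) (.p (nat_lit 422) (nat_lit 1) .z)))))))))))))))))))))))))))))))))) (.ct dC1c_c548 (nat_lit 1) (nat_lit 13) (.s false (nat_lit 1) (nat_lit 14) (nat_lit 8) (nat_lit 2) (nat_lit 2) true (nat_lit 2) true (nat_lit 17) true (nat_lit 7) true (nat_lit 11) true (nat_lit 17) (.s false (nat_lit 1) (nat_lit 66) (nat_lit 2) (nat_lit 0) (nat_lit 2) true (nat_lit 13) true (nat_lit 17) false (nat_lit 7) true (nat_lit 17) true (nat_lit 19) (.e true (nat_lit 1) (nat_lit 40) (nat_lit 24) (nat_lit 2) (.e true (nat_lit 3) (nat_lit 215) (nat_lit 2) (nat_lit 17) (.e false (nat_lit 1) (nat_lit 218) (nat_lit 2) (nat_lit 17) (.e true (nat_lit 3) (nat_lit 220) (nat_lit 2) (nat_lit 17) (.e true (nat_lit 3) (nat_lit 221) (nat_lit 2) (nat_lit 17) (.e false (nat_lit 1) (nat_lit 223) (nat_lit 2) (nat_lit 17) (.e true (nat_lit 1) (nat_lit 224) (nat_lit 2) (nat_lit 17) (.e false (nat_lit 1) (nat_lit 226) (nat_lit 2) (nat_lit 17) dC1c_i119))))))))))) .leaf) (nat_lit 129026) (nat_lit 481) (.n (nat_lit 212) (nat_lit 3) (.p (nat_lit 214) (nat_lit 1) (.n (nat_lit 215) (nat_lit 3) (.p (nat_lit 216) (nat_lit 3) (.p (nat_lit 217) (nat_lit 3) (.p (nat_lit 218) (nat_lit 3) (.p (nat_lit 219) (nat_lit 2) (.p (nat_lit 222) (nat_lit 1) (.n (nat_lit 224) (nat_lit 2) (.n (nat_lit 225) (nat_lit 3) (.p (nat_lit 226) (nat_lit 2) (.p (nat_lit 227) (nat_lit 1) (.n (nat_lit 228) (nat_lit 2) (.p (nat_lit 229) (nat_lit 1) (.n (nat_lit 230) (nat_lit 3) (.n (nat_lit 231) (nat_lit 2) (.p (nat_lit 233) (nat_lit 3) (.n (nat_lit 234) (nat_lit 1) (.n (nat_lit 235) (nat_lit 2) (.n (nat_lit 236) (nat_lit 1) (.n (nat_lit 237) (nat_lit 3) (.n (nat_lit 238) (nat_lit 1) (.n (nat_lit 239) (nat_lit 1) (.n (nat_lit 240) (nat_lit 1) (.p (nat_lit 241) (nat_lit 1) (.p (nat_lit 242) (nat_lit 2) (.p (nat_lit 243) (nat_lit 3) (.n (nat_lit 244) (nat_lit 2) (.n (nat_lit 245) (nat_lit 3) (.p (nat_lit 246) (nat_lit 3) (.p (nat_lit 248) (nat_lit 3) (.p (nat_lit 249) (nat_lit 2) (.n (nat_lit 253) (nat_lit 2) .z))))))))))))))))))))))))))))))))) (.ct dC1c_c547 (nat_lit 1) (nat_lit 12) (.s true (nat_lit 3) (nat_lit 5) (nat_lit 4) (nat_lit 4) (nat_lit 1) true (nat_lit 4) true (nat_lit 13) true (nat_lit 9) true (nat_lit 10) true (nat_lit 10) (.s true (nat_lit 2) (nat_lit 7) (nat_lit 1) (nat_lit 6) (nat_lit 2) true (nat_lit 9) true (nat_lit 12) true (nat_lit 7) true (nat_lit 13) true (nat_lit 8) (.s true (nat_lit 2) (nat_lit 7) (nat_lit 2) (nat_lit 2) (nat_lit 5) true (nat_lit 1) true (nat_lit 9) true (nat_lit 7) true (nat_lit 12) true (nat_lit 12) (.s true (nat_lit 3) (nat_lit 7) (nat_lit 2) (nat_lit 6) (nat_lit 1) true (nat_lit 9) true (nat_lit 13) true (nat_lit 7) true (nat_lit 12) true (nat_lit 8) (.s true (nat_lit 2) (nat_lit 7) (nat_lit 5) (nat_lit 2) (nat_lit 2) true (nat_lit 1) true (nat_lit 12) true (nat_lit 7) true (nat_lit 9) true (nat_lit 12) (.s true (nat_lit 3) (nat_lit 7) (nat_lit 6) (nat_lit 1) (nat_lit 2) true (nat_lit 0) true (nat_lit 12) true (nat_lit 7) true (nat_lit 8) true (nat_lit 13) (.s false (nat_lit 1) (nat_lit 8) (nat_lit 0) (nat_lit 2) (nat_lit 6) true (nat_lit 2) true (nat_lit 8) true (nat_lit 6) true (nat_lit 14) true (nat_lit 12) (.s true (nat_lit 2) (nat_lit 8) (nat_lit 0) (nat_lit 6) (nat_lit 2) true (nat_lit 10) true (nat_lit 12) true (nat_lit 6) true (nat_lit 14) true (nat_lit 8) (.s false (nat_lit 1) (nat_lit 8) (nat_lit 2) (nat_lit 2) (nat_lit 4) true (nat_lit 2) true (nat_lit 10) true (nat_lit 6) true (nat_lit 12) true (nat_lit 12) (.s true (nat_lit 2) (nat_lit 8) (nat_lit 2) (nat_lit 4) (nat_lit 2) true (nat_lit 8) true (nat_lit 12) true (nat_lit 6) true (nat_lit 12) true (nat_lit 10) (.s false (nat_lit 2) (nat_lit 8) (nat_lit 6) (nat_lit 2) (nat_lit 0) true (nat_lit 2) true (nat_lit 14) true (nat_lit 6) true (nat_lit 8) true (nat_lit 12) (.s false (nat_lit 3) (nat_lit 9) (nat_lit 1) (nat_lit 2) (nat_lit 5) true (nat_lit 3) true (nat_lit 9) true (nat_lit 5) true (nat_lit 13) true (nat_lit 12) (.s true (nat_lit 1) (nat_lit 9) (nat_lit 1) (nat_lit 5) (nat_lit 2) true (nat_lit 9) true (nat_lit 12) true (nat_lit 5) true (nat_lit 13) true (nat_lit 9) (.s true (nat_lit 2) (nat_lit 9) (nat_lit 6) (nat_lit 1) (nat_lit 1) true (nat_lit 1) true (nat_lit 13) true (nat_lit 5) true (nat_lit 8) true (nat_lit 13) (.s true (nat_lit 1) (nat_lit 11) (nat_lit 0) (nat_lit 2) (nat_lit 5) true (nat_lit 4) true (nat_lit 9) true (nat_lit 4) true (nat_lit 14) true (nat_lit 12) (.s true (nat_lit 1) (nat_lit 11) (nat_lit 2) (nat_lit 1) (nat_lit 4) true (nat_lit 2) true (nat_lit 10) true (nat_lit 4) true (nat_lit 12) true (nat_lit 13) dC1c_i123))))))))))))))))) .leaf))) (nat_lit 129030) (nat_lit 1106) (.n (nat_lit 355) (nat_lit 1) (.n (nat_lit 356) (nat_lit 1) (.p (nat_lit 358) (nat_lit 2) (.n (nat_lit 359) (nat_lit 1) (.n (nat_lit 363) (nat_lit 3) (.n (nat_lit 366) (nat_lit 3) (.p (nat_lit 369) (nat_lit 2) (.p (nat_lit 372) (nat_lit 3) (.p (nat_lit 373) (nat_lit 1) (.n (nat_lit 374) (nat_lit 1) (.p (nat_lit 375) (nat_lit 3) (.p (nat_lit 379) (nat_lit 2) (.p (nat_lit 380) (nat_lit 2) (.p (nat_lit 381) (nat_lit 2) (.p (nat_lit 382) (nat_lit 2) (.p (nat_lit 383) (nat_lit 1) (.p (nat_lit 384) (nat_lit 3) (.n (nat_lit 385) (nat_lit 3) (.p (nat_lit 386) (nat_lit 1) (.p (nat_lit 388) (nat_lit 1) (.n (nat_lit 389) (nat_lit 2) (.p (nat_lit 390) (nat_lit 2) (.p (nat_lit 391) (nat_lit 2) (.n (nat_lit 392) (nat_lit 1) (.n (nat_lit 393) (nat_lit 2) (.p (nat_lit 394) (nat_lit 2) (.n (nat_lit 395) (nat_lit 2) (.n (nat_lit 396) (nat_lit 3) (.n (nat_lit 400) (nat_lit 2) (.p (nat_lit 401) (nat_lit 3) (.p (nat_lit 422) (nat_lit 2) .z))))))))))))))))))))))))))))))) (.ct dC1c_c548 (nat_lit 1) (nat_lit 13) (.s true (nat_lit 1) (nat_lit 14) (nat_lit 2) (nat_lit 2) (nat_lit 8) true (nat_lit 2) true (nat_lit 11) true (nat_lit 7) true (nat_lit 17) true (nat_lit 17) (.s false (nat_lit 1) (nat_lit 74) (nat_lit 2) (nat_lit 0) (nat_lit 2) true (nat_lit 13) true (nat_lit 17) false (nat_lit 7) true (nat_lit 17) true (nat_lit 19) (.e false (nat_lit 1) (nat_lit 40) (nat_lit 24) (nat_lit 2) (.e true (nat_lit 1) (nat_lit 98) (nat_lit 8) (nat_lit 11) (.e false (nat_lit 2) (nat_lit 212) (nat_lit 2) (nat_lit 17) (.e true (nat_lit 1) (nat_lit 213) (nat_lit 2) (nat_lit 17) (.e true (nat_lit 1) (nat_lit 214) (nat_lit 2) (nat_lit 17) (.e true (nat_lit 1) (nat_lit 215) (nat_lit 2) (nat_lit 17) (.e false (nat_lit 1) (nat_lit 216) (nat_lit 2) (nat_lit 17) (.e true (nat_lit 3) (nat_lit 217) (nat_lit 2) (nat_lit 17) (.e false (nat_lit 3) (nat_lit 218) (nat_lit 2) (nat_lit 17) (.e false (nat_lit 3) (nat_lit 219) (nat_lit 2) (nat_lit 17) (.e true (nat_lit 3) (nat_lit 220) (nat_lit 2) (nat_lit 17) (.e false (nat_lit 1) (nat_lit 221) (nat_lit 2) (nat_lit 17) (.e false (nat_lit 2) (nat_lit 222) (nat_lit 2) (nat_lit 17) (.e true (nat_lit 1) (nat_lit 223) (nat_lit 2) (nat_lit 17) dC1c_i124))))))))))))))))) (.nd (.nd (.nd (.nd .leaf (nat_lit 130050) (nat_lit 461) (.p (nat_lit 255) (nat_lit 1) .z) .df .leaf) (nat_lit 131074) (nat_lit 566) (.n (nat_lit 212) (nat_lit 3) (.p (nat_lit 213) (nat_lit 3) (.p (nat_lit 214) (nat_lit 2) (.p (nat_lit 215) (nat_lit 2) (.n (nat_lit 216) (nat_lit 2) (.p (nat_lit 217) (nat_lit 2) (.p (nat_lit 218) (nat_lit 1) (.p (nat_lit 219) (nat_lit 2) (.p (nat_lit 220) (nat_lit 3) (.n (nat_lit 221) (nat_lit 1) (.p (nat_lit 222) (nat_lit 3) (.p (nat_lit 223) (nat_lit 2) (.p (nat_lit 224) (nat_lit 3) (.p (nat_lit 225) (nat_lit 1) (.n (nat_lit 227) (nat_lit 2) (.p (nat_lit 228) (nat_lit 3) (.n (nat_lit 229) (nat_lit 3) (.p (nat_lit 230) (nat_lit 1) (.n (nat_lit 231) (nat_lit 1) (.p (nat_lit 232) (nat_lit 2) (.n (nat_lit 233) (nat_lit 2) (.n (nat_lit 234) (nat_lit 1) (.p (nat_lit 235) (nat_lit 3) (.n (nat_lit 236) (nat_lit 3) (.p (nat_lit 238) (nat_lit 3) (.p (nat_lit 239) (nat_lit 1) (.n (nat_lit 241) (nat_lit 3) (.n (nat_lit 242) (nat_lit 3) (.n (nat_lit 243) (nat_lit 1) (.p (nat_lit 244) (nat_lit 3) (.p (nat_lit 245) (nat_lit 2) (.n (nat_lit 248) (nat_lit 3) (.p (nat_lit 251) (nat_lit 3) (.p (nat_lit 255) (nat_lit 1) (.n (nat_lit 256) (nat_lit 3) .z))))))))))))))))))))))))))))))))))) (.ct dC1c_c547 (nat_lit 1) (nat_lit 12) (.s true (nat_lit 1) (nat_lit 11) (nat_lit 5) (nat_lit 0) (nat_lit 2) true (nat_lit 1) true (nat_lit 12) true (nat_lit 4) true (nat_lit 9) true (nat_lit 14) (.e false (nat_lit 1) (nat_lit 20) (nat_lit 16) (nat_lit 1) (.e false (nat_lit 1) (nat_lit 21) (nat_lit 16) (nat_lit 1) (.e true (nat_lit 1) (nat_lit 22) (nat_lit 16) (nat_lit 1) (.e true (nat_lit 1) (nat_lit 33) (nat_lit 11) (nat_lit 4) (.e false (nat_lit 1) (nat_lit 55) (nat_lit 5) (nat_lit 9) (.e true (nat_lit 1) (nat_lit 56) (nat_lit 5) (nat_lit 9) (.e false (nat_lit 2) (nat_lit 57) (nat_lit 5) (nat_lit 9) (.e false (nat_lit 1) (nat_lit 58) (nat_lit 5) (nat_lit 9) (.e false (nat_lit 3) (nat_lit 59) (nat_lit 5) (nat_lit 9) (.e true (nat_lit 3) (nat_lit 60) (nat_lit 5) (nat_lit 9) (.e false (nat_lit 3) (nat_lit 61) (nat_lit 5) (nat_lit 9) (.e false (nat_lit 1) (nat_lit 62) (nat_lit 5) (nat_lit 9) (.e true (nat_lit 3) (nat_lit 64) (nat_lit 5) (nat_lit 9) (.e false (nat_lit 2) (nat_lit 65) (nat_lit 5) (nat_lit 9) (.e false (nat_lit 1) (nat_lit 155) (nat_lit 0) (nat_lit 14) (.e false (nat_lit 2) (nat_lit 158) (nat_lit 0) (nat_lit 14) (.e true (nat_lit 1) (nat_lit 163) (nat_lit 0) (nat_lit 14) (.e false (nat_lit 1) (nat_lit 165) (nat_lit 0) (nat_lit 14) (.e true (nat_lit 1) (nat_lit 168) (nat_lit 0) (nat_lit 14) (.e true (nat_lit 1) (nat_lit 172) (nat_lit 0) (nat_lit 14) (.u (nat_lit 2) (.p (nat_lit 0) (nat_lit 2) (.n (nat_lit 1) (nat_lit 1) (.n (nat_lit 4) (nat_lit 2) (.n (nat_lit 6) (nat_lit 1) (.n (nat_lit 7) (nat_lit 1) (.n (nat_lit 10) (nat_lit 1) (.p (nat_lit 11) (nat_lit 3) (.p (nat_lit 14) (nat_lit 2) (.p (nat_lit 17) (nat_lit 1) (.p (nat_lit 18) (nat_lit 1) (.p (nat_lit 19) (nat_lit 1) (.p (nat_lit 20) (nat_lit 1) (.p (nat_lit 21) (nat_lit 1) (.p (nat_lit 22) (nat_lit 2) (.p (nat_lit 23) (nat_lit 2) (.p (nat_lit 24) (nat_lit 2) (.n (nat_lit 25) (nat_lit 1) (.p (nat_lit 26) (nat_lit 1) (.p (nat_lit 27) (nat_lit 1) (.p (nat_lit 28) (nat_lit 1) (.n (nat_lit 29) (nat_lit 2) (.p (nat_lit 30) (nat_lit 3) (.p (nat_lit 31) (nat_lit 2) (.n (nat_lit 32) (nat_lit 3) (.n (nat_lit 33) (nat_lit 2) (.p (nat_lit 34) (nat_lit 1) (.n (nat_lit 35) (nat_lit 1) (.n (nat_lit 36) (nat_lit 1) (.n (nat_lit 39) (nat_lit 1) (.p (nat_lit 40) (nat_lit 1) .z)))))))))))))))))))))))))))))) .nil))))))))))))))))))))))) .leaf) (nat_lit 132098) (nat_lit 476) (.p (nat_lit 212) (nat_lit 3) (.p (nat_lit 213) (nat_lit 2) (.n (nat_lit 214) (nat_lit 1) (.n (nat_lit 216) (nat_lit 1) (.n (nat_lit 217) (nat_lit 1) (.p (nat_lit 218) (nat_lit 2) (.n (nat_lit 219) (nat_lit 2) (.n (nat_lit 222) (nat_lit 3) (.p (nat_lit 224) (nat_lit 1) (.n (nat_lit 226) (nat_lit 3) (.p (nat_lit 227) (nat_lit 3) (.p (nat_lit 230) (nat_lit 1) (.p (nat_lit 231) (nat_lit 3) (.p (nat_lit 232) (nat_lit 2) (.n (nat_lit 233) (nat_lit 2) (.n (nat_lit 234) (nat_lit 3) (.p (nat_lit 235) (nat_lit 2) (.n (nat_lit 237) (nat_lit 1) (.n (nat_lit 238) (nat_lit 1) (.p (nat_lit 239) (nat_lit 3) (.n (nat_lit 241) (nat_lit 2) (.n (nat_lit 244) (nat_lit 2) (.p (nat_lit 245) (nat_lit 1) (.p (nat_lit 249) (nat_lit 2) .z)))))))))))))))))))))))) (.ct dC1c_c547 (nat_lit 1) (nat_lit 12) (.s true (nat_lit 1) (nat_lit 5) (nat_lit 0) (nat_lit 5) (nat_lit 4) true (nat_lit 5) true (nat_lit 10) true (nat_lit 9) true (nat_lit 14) true (nat_lit 9) (.s false (nat_lit 3) (nat_lit 5) (nat_lit 4) (nat_lit 1) (nat_lit 4) false (nat_lit 3) true (nat_lit 10) true (nat_lit 9) true (nat_lit 10) true (nat_lit 13) (.s false (nat_lit 1) (nat_lit 5) (nat_lit 4) (nat_lit 3) (nat_lit 2) true (nat_lit 2) true (nat_lit 12) true (nat_lit 9) true (nat_lit 10) true (nat_lit 11) (.s true (nat_lit 2) (nat_lit 5) (nat_lit 4) (nat_lit 4) (nat_lit 1) true (nat_lit 4) true (nat_lit 13) true (nat_lit 9) true (nat_lit 10) true (nat_lit 10) (.s true (nat_lit 3) (nat_lit 7) (nat_lit 2) (nat_lit 2) (nat_lit 5) true (nat_lit 1) true (nat_lit 9) true (nat_lit 7) true (nat_lit 12) true (nat_lit 12) (.s false (nat_lit 1) (nat_lit 7) (nat_lit 5) (nat_lit 2) (nat_lit 2) true (nat_lit 1) true (nat_lit 12) true (nat_lit 7) true (nat_lit 9) true (nat_lit 12) (.s false (nat_lit 3) (nat_lit 8) (nat_lit 0) (nat_lit 6) (nat_lit 2) true (nat_lit 10) true (nat_lit 12) true (nat_lit 6) true (nat_lit 14) true (nat_lit 8) (.s false (nat_lit 3) (nat_lit 8) (nat_lit 2) (nat_lit 2) (nat_lit 4) true (nat_lit 2) true (nat_lit 10) true (nat_lit 6) true (nat_lit 12) true (nat_lit 12) (.s false (nat_lit 3) (nat_lit 8) (nat_lit 4) (nat_lit 2) (nat_lit 2) true (nat_lit 2) true (nat_lit 12) true (nat_lit 6) true (nat_lit 10) true (nat_lit 12) (.s true (nat_lit 2) (nat_lit 9) (nat_lit 1) (nat_lit 1) (nat_lit 6) true (nat_lit 1) true (nat_lit 8) true (nat_lit 5) true (nat_lit 13) true (nat_lit 13) dC1c_i128))))))))))) (.nd (.nd .leaf (nat_lit 132102) (nat_lit 1114) (.p (nat_lit 355) (nat_lit 1) (.n (nat_lit 356) (nat_lit 1) (.n (nat_lit 357) (nat_lit 3) (.p (nat_lit 358) (nat_lit 3) (.p (nat_lit 359) (nat_lit 3) (.n (nat_lit 361) (nat_lit 3) (.p (nat_lit 362) (nat_lit 3) (.p (nat_lit 363) (nat_lit 2) (.n (nat_lit 365) (nat_lit 1) (.n (nat_lit 366) (nat_lit 3) (.n (nat_lit 367) (nat_lit 1) (.n (nat_lit 370) (nat_lit 3) (.n (nat_lit 372) (nat_lit 2) (.p (nat_lit 373) (nat_lit 3) (.n (nat_lit 375) (nat_lit 2) (.p (nat_lit 382) (nat_lit 3) (.p (nat_lit 383) (nat_lit 3) (.p (nat_lit 385) (nat_lit 3) (.n (nat_lit 386) (nat_lit 3) (.p (nat_lit 387) (nat_lit 1) (.n (nat_lit 388) (nat_lit 2) (.n (nat_lit 389) (nat_lit 1) (.p (nat_lit 390) (nat_lit 1) (.p (nat_lit 391) (nat_lit 3) (.n (nat_lit 392) (nat_lit 3) (.p (nat_lit 393) (nat_lit 2) (.p (nat_lit 394) (nat_lit 2) (.p (nat_lit 396) (nat_lit 3) (.n (nat_lit 422) (nat_lit 3) .z))))))))))))))))))))))))))))) (.ct dC1c_c548 (nat_lit 1) (nat_lit 13) (.s true (nat_lit 1) (nat_lit 7) (nat_lit 1) (nat_lit 6) (nat_lit 6) true (nat_lit 6) true (nat_lit 13) true (nat_lit 12) true (nat_lit 18) true (nat_lit 13) (.s false (nat_lit 1) (nat_lit 65) (nat_lit 1) (nat_lit 2) (nat_lit 2) true (nat_lit 14) true (nat_lit 17) false (nat_lit 6) true (nat_lit 18) true (nat_lit 17) (.s false (nat_lit 1) (nat_lit 65) (nat_lit 2) (nat_lit 1) (nat_lit 2) true (nat_lit 13) true (nat_lit 17) false (nat_lit 6) true (nat_lit 17) true (nat_lit 18) (.s true (nat_lit 1) (nat_lit 65) (nat_lit 2) (nat_lit 2) (nat_lit 1) true (nat_lit 14) true (nat_lit 18) false (nat_lit 6) true (nat_lit 17) true (nat_lit 17) (.e false (nat_lit 2) (nat_lit 103) (nat_lit 7) (nat_lit 12) (.e false (nat_lit 2) (nat_lit 104) (nat_lit 7) (nat_lit 12) (.e true (nat_lit 2) (nat_lit 213) (nat_lit 2) (nat_lit 17) (.e false (nat_lit 1) (nat_lit 216) (nat_lit 2) (nat_lit 17) (.e false (nat_lit 1) (nat_lit 217) (nat_lit 2) (nat_lit 17) (.e true (nat_lit 1) (nat_lit 218) (nat_lit 2) (nat_lit 17) (.e false (nat_lit 2) (nat_lit 219) (nat_lit 2) (nat_lit 17) (.e false (nat_lit 3) (nat_lit 220) (nat_lit 2) (nat_lit 17) (.e true (nat_lit 1) (nat_lit 221) (nat_lit 2) (nat_lit 17) (.e false (nat_lit 3) (nat_lit 222) (nat_lit 2) (nat_lit 17) (.e false (nat_lit 3) (nat_lit 223) (nat_lit 2) (nat_lit 17) (.e false (nat_lit 1) (nat_lit 224) (nat_lit 2) (nat_lit 17) (.e true (nat_lit 1) (nat_lit 225) (nat_lit 2) (nat_lit 17) (.e true (nat_lit 2) (nat_lit 226) (nat_lit 2) (nat_lit 17) dC1c_i129))))))))))))))))))) .leaf) (nat_lit 133122) (nat_lit 478) (.n (nat_lit 212) (nat_lit 1) (.p (nat_lit 213) (nat_lit 1) (.n (nat_lit 215) (nat_lit 3) (.p (nat_lit 216) (nat_lit 3) (.p (nat_lit 217) (nat_lit 3) (.p (nat_lit 218) (nat_lit 2) (.p (nat_lit 219) (nat_lit 1) (.n (nat_lit 220) (nat_lit 3) (.n (nat_lit 221) (nat_lit 1) (.n (nat_lit 223) (nat_lit 1) (.n (nat_lit 224) (nat_lit 3) (.p (nat_lit 226) (nat_lit 3) (.n (nat_lit 227) (nat_lit 2) (.n (nat_lit 228) (nat_lit 3) (.p (nat_lit 231) (nat_lit 1) (.p (nat_lit 232) (nat_lit 1) (.n (nat_lit 233) (nat_lit 2) (.p (nat_lit 234) (nat_lit 1) (.n (nat_lit 235) (nat_lit 1) (.n (nat_lit 237) (nat_lit 1) (.p (nat_lit 238) (nat_lit 1) (.p (nat_lit 239) (nat_lit 1) (.p (nat_lit 240) (nat_lit 3) (.n (nat_lit 241) (nat_lit 3) (.n (nat_lit 242) (nat_lit 2) (.p (nat_lit 243) (nat_lit 2) (.n (nat_lit 244) (nat_lit 3) (.n (nat_lit 245) (nat_lit 2) (.p (nat_lit 248) (nat_lit 2) (.p (nat_lit 251) (nat_lit 3) (.p (nat_lit 256) (nat_lit 3) (.n (nat_lit 257) (nat_lit 1) .z)))))))))))))))))))))))))))))))) (.ct dC1c_c547 (nat_lit 1) (nat_lit 12) (.s true (nat_lit 3) (nat_lit 7) (nat_lit 1) (nat_lit 6) (nat_lit 2) true (nat_lit 9) true (nat_lit 12) true (nat_lit 7) true (nat_lit 13) true (nat_lit 8) (.s false (nat_lit 1) (nat_lit 7) (nat_lit 2) (nat_lit 2) (nat_lit 5) true (nat_lit 1) true (nat_lit 9) true (nat_lit 7) true (nat_lit 12) true (nat_lit 12) (.s true (nat_lit 3) (nat_lit 8) (nat_lit 0) (nat_lit 2) (nat_lit 6) true (nat_lit 2) true (nat_lit 8) true (nat_lit 6) true (nat_lit 14) true (nat_lit 12) (.s true (nat_lit 1) (nat_lit 8) (nat_lit 2) (nat_lit 2) (nat_lit 4) true (nat_lit 2) true (nat_lit 10) true (nat_lit 6) true (nat_lit 12) true (nat_lit 12) (.s true (nat_lit 2) (nat_lit 8) (nat_lit 2) (nat_lit 4) (nat_lit 2) true (nat_lit 8) true (nat_lit 12) true (nat_lit 6) true (nat_lit 12) true (nat_lit 10) (.s false (nat_lit 3) (nat_lit 8) (nat_lit 6) (nat_lit 2) (nat_lit 0) true (nat_lit 2) true (nat_lit 14) true (nat_lit 6) true (nat_lit 8) true (nat_lit 12) (.s false (nat_lit 2) (nat_lit 9) (nat_lit 1) (nat_lit 1) (nat_lit 6) true (nat_lit 1) true (nat_lit 8) true (nat_lit 5) true (nat_lit 13) true (nat_lit 13) (.s true (nat_lit 2) (nat_lit 9) (nat_lit 1) (nat_lit 5) (nat_lit 2) true (nat_lit 9) true (nat_lit 12) true (nat_lit 5) true (nat_lit 13) true (nat_lit 9) (.s true (nat_lit 1) (nat_lit 11) (nat_lit 0) (nat_lit 2) (nat_lit 5) true (nat_lit 4) true (nat_lit 9) true (nat_lit 4) true (nat_lit 14) true (nat_lit 12) (.s true (nat_lit 1) (nat_lit 11) (nat_lit 2) (nat_lit 1) (nat_lit 4) true (nat_lit 2) true (nat_lit 10) true (nat_lit 4) true (nat_lit 12) true (nat_lit 13) (.s true (nat_lit 3) (nat_lit 12) (nat_lit 5) (nat_lit 2) (nat_lit 0) true (nat_lit 4) true (nat_lit 14) true (nat_lit 4) true (nat_lit 9) true (nat_lit 12) (.s true (nat_lit 3) (nat_lit 12) (nat_lit 6) (nat_lit 0) (nat_lit 1) true (nat_lit 1) true (nat_lit 13) true (nat_lit 4) true (nat_lit 8) true (nat_lit 14) (.s false (nat_lit 2) (nat_lit 13) (nat_lit 0) (nat_lit 6) (nat_lit 0) false (nat_lit 15) true (nat_lit 14) true (nat_lit 3) true (nat_lit 14) true (nat_lit 8) (.s false (nat_lit 1) (nat_lit 13) (nat_lit 2) (nat_lit 0) (nat_lit 4) true (nat_lit 2) true (nat_lit 10) true (nat_lit 3) true (nat_lit 12) true (nat_lit 14) (.s true (nat_lit 3) (nat_lit 13) (nat_lit 6) (nat_lit 0) (nat_lit 0) true (nat_lit 2) true (nat_lit 14) true (nat_lit 3) true (nat_lit 8) true (nat_lit 14) (.s true (nat_lit 2) (nat_lit 14) (nat_lit 1) (nat_lit 0) (nat_lit 5) true (nat_lit 3) true (nat_lit 9) true (nat_lit 2) true (nat_lit 13) true (nat_lit 14) (.s true (nat_lit 1) (nat_lit 14) (nat_lit 1) (nat_lit 1) (nat_lit 4) true (nat_lit 4) true (nat_lit 10) true (nat_lit 2) true (nat_lit 13) true (nat_lit 13) (.s true (nat_lit 1) (nat_lit 14) (nat_lit 1) (nat_lit 4) (nat_lit 1) false (nat_lit 16) true (nat_lit 13) true (nat_lit 2) true (nat_lit 13) true (nat_lit 10) (.s false (nat_lit 1) (nat_lit 14) (nat_lit 2) (nat_lit 3) (nat_lit 1) true (nat_lit 9) true (nat_lit 13) true (nat_lit 2) true (nat_lit 12) true (nat_lit 11) (.s true (nat_lit 3) (nat_lit 15) (nat_lit 2) (nat_lit 3) (nat_lit 1) true (nat_lit 9) true (nat_lit 13) true (nat_lit 2) true (nat_lit 12) true (nat_lit 11) (.s true (nat_lit 1) (nat_lit 14) (nat_lit 5) (nat_lit 0) (nat_lit 1) true (nat_lit 3) true (nat_lit 13) true (nat_lit 2) true (nat_lit 9) true (nat_lit 14) (.s true (nat_lit 3) (nat_lit 15) (nat_lit 5) (nat_lit 0) (nat_lit 1) true (nat_lit 3) true (nat_lit 13) true (nat_lit 2) true (nat_lit 9) true (nat_lit 14) dC1c_i132))))))))))))))))))))))) .leaf)) (nat_lit 133126) (nat_lit 1087) (.n (nat_lit 355) (nat_lit 2) (.n (nat_lit 356) (nat_lit 3) (.p (nat_lit 357) (nat_lit 3) (.n (nat_lit 358) (nat_lit 2) (.n (nat_lit 359) (nat_lit 2) (.p (nat_lit 360) (nat_lit 1) (.p (nat_lit 362) (nat_lit 2) (.p (nat_lit 363) (nat_lit 1) (.n (nat_lit 364) (nat_lit 1) (.n (nat_lit 365) (nat_lit 2) (.p (nat_lit 366) (nat_lit 2) (.n (nat_lit 367) (nat_lit 2) (.n (nat_lit 368) (nat_lit 2) (.p (nat_lit 369) (nat_lit 3) (.p (nat_lit 370) (nat_lit 3) (.p (nat_lit 371) (nat_lit 2) (.n (nat_lit 372) (nat_lit 2) (.n (nat_lit 373) (nat_lit 1) (.n (nat_lit 374) (nat_lit 2) (.p (nat_lit 375) (nat_lit 3) (.n (nat_lit 378) (nat_lit 2) (.p (nat_lit 380) (nat_lit 2) (.n (nat_lit 381) (nat_lit 2) (.n (nat_lit 383) (nat_lit 2) (.n (nat_lit 385) (nat_lit 2) (.n (nat_lit 386) (nat_lit 3) (.n (nat_lit 387) (nat_lit 2) (.n (nat_lit 388) (nat_lit 3) (.n (nat_lit 389) (nat_lit 1) (.n (nat_lit 390) (nat_lit 3) (.p (nat_lit 391) (nat_lit 3) (.p (nat_lit 392) (nat_lit 3) (.p (nat_lit 393) (nat_lit 1) (.p (nat_lit 394) (nat_lit 3) (.n (nat_lit 395) (nat_lit 2) (.p (nat_lit 396) (nat_lit 2) (.n (nat_lit 399) (nat_lit 2) (.n (nat_lit 404) (nat_lit 1) (.p (nat_lit 407) (nat_lit 2) (.p (nat_lit 408) (nat_lit 2) (.n (nat_lit 409) (nat_lit 3) (.p (nat_lit 410) (nat_lit 1) (.n (nat_lit 412) (nat_lit 2) (.p (nat_lit 413) (nat_lit 2) (.n (nat_lit 414) (nat_lit 2) (.n (nat_lit 416) (nat_lit 2) .z)))))))))))))))))))))))))))))))))))))))))))))) (.ct dC1c_c548 (nat_lit 1) (nat_lit 13) (.s true (nat_lit 1) (nat_lit 9) (nat_lit 1) (nat_lit 6) (nat_lit 5) true (nat_lit 8) true (nat_lit 14) true (nat_lit 10) true (nat_lit 18) true (nat_lit 13) (.e true (nat_lit 1) (nat_lit 77) (nat_lit 13) (nat_lit 8) (.e true (nat_lit 1) (nat_lit 78) (nat_lit 13) (nat_lit 8) (.e false (nat_lit 1) (nat_lit 79) (nat_lit 13) (nat_lit 8) (.e true (nat_lit 1) (nat_lit 81) (nat_lit 13) (nat_lit 8) (.e true (nat_lit 1) (nat_lit 150) (nat_lit 5) (nat_lit 14) (.e true (nat_lit 2) (nat_lit 93) (nat_lit 9) (nat_lit 10) (.e true (nat_lit 2) (nat_lit 94) (nat_lit 9) (nat_lit 10) (.e false (nat_lit 1) (nat_lit 95) (nat_lit 9) (nat_lit 10) dC1c_i133)))))))))) (.nd (.nd (.nd .leaf (nat_lit 134146) (nat_lit 567) (.p (nat_lit 212) (nat_lit 3) (.p (nat_lit 213) (nat_lit 2) (.p (nat_lit 214) (nat_lit 2) (.n (nat_lit 215) (nat_lit 3) (.p (nat_lit 218) (nat_lit 1) (.n (nat_lit 220) (nat_lit 2) (.p (nat_lit 223) (nat_lit 1) (.n (nat_lit 224) (nat_lit 2) (.n (nat_lit 225) (nat_lit 2) (.n (nat_lit 226) (nat_lit 3) (.p (nat_lit 227) (nat_lit 2) (.p (nat_lit 228) (nat_lit 1) (.p (nat_lit 229) (nat_lit 1) (.n (nat_lit 230) (nat_lit 3) (.n (nat_lit 231) (nat_lit 1) (.n (nat_lit 232) (nat_lit 1) (.p (nat_lit 233) (nat_lit 1) (.n (nat_lit 234) (nat_lit 1) (.p (nat_lit 235) (nat_lit 2) (.n (nat_lit 236) (nat_lit 3) (.p (nat_lit 237) (nat_lit 3) (.p (nat_lit 238) (nat_lit 2) (.p (nat_lit 239) (nat_lit 2) (.n (nat_lit 240) (nat_lit 3) (.p (nat_lit 241) (nat_lit 1) (.p (nat_lit 242) (nat_lit 1) (.p (nat_lit 243) (nat_lit 2) (.p (nat_lit 244) (nat_lit 1) (.p (nat_lit 245) (nat_lit 3) (.n (nat_lit 247) (nat_lit 2) (.n (nat_lit 248) (nat_lit 1) (.p (nat_lit 249) (nat_lit 2) (.p (nat_lit 250) (nat_lit 3) (.n (nat_lit 251) (nat_lit 1) (.n (nat_lit 252) (nat_lit 3) (.n (nat_lit 253) (nat_lit 2) (.n (nat_lit 255) (nat_lit 2) (.n (nat_lit 256) (nat_lit 1) (.p (nat_lit 257) (nat_lit 3) (.n (nat_lit 258) (nat_lit 3) .z)))))))))))))))))))))))))))))))))))))))) (.ct dC1c_c547 (nat_lit 1) (nat_lit 12) (.s true (nat_lit 1) (nat_lit 31) (nat_lit 2) (nat_lit 0) (nat_lit 1) true (nat_lit 9) true (nat_lit 13) false (nat_lit 4) true (nat_lit 12) true (nat_lit 14) (.e false (nat_lit 1) (nat_lit 62) (nat_lit 5) (nat_lit 9) (.e true (nat_lit 1) (nat_lit 147) (nat_lit 1) (nat_lit 13) (.e false (nat_lit 1) (nat_lit 31) (nat_lit 11) (nat_lit 4) (.e true (nat_lit 1) (nat_lit 108) (nat_lit 2) (nat_lit 12) (.e false (nat_lit 1) (nat_lit 110) (nat_lit 2) (nat_lit 12) (.e true (nat_lit 1) (nat_lit 113) (nat_lit 2) (nat_lit 12) (.e true (nat_lit 1) (nat_lit 115) (nat_lit 2) (nat_lit 12) (.e false (nat_lit 3) (nat_lit 119) (nat_lit 2) (nat_lit 12) (.e true (nat_lit 3) (nat_lit 120) (nat_lit 2) (nat_lit 12) (.e true (nat_lit 3) (nat_lit 121) (nat_lit 2) (nat_lit 12) (.e true (nat_lit 1) (nat_lit 122) (nat_lit 2) (nat_lit 12) (.e false (nat_lit 3) (nat_lit 123) (nat_lit 2) (nat_lit 12) (.e true (nat_lit 2) (nat_lit 124) (nat_lit 2) (nat_lit 12) (.e true (nat_lit 1) (nat_lit 127) (nat_lit 2) (nat_lit 12) (.e true (nat_lit 1) (nat_lit 128) (nat_lit 2) (nat_lit 12) (.e false (nat_lit 1) (nat_lit 130) (nat_lit 2) (nat_lit 12) (.e false (nat_lit 1) (nat_lit 157) (nat_lit 0) (nat_lit 14) (.u (nat_lit 2) (.p (nat_lit 3) (nat_lit 2) (.p (nat_lit 4) (nat_lit 1) (.p (nat_lit 5) (nat_lit 3) (.n (nat_lit 6) (nat_lit 2) (.p (nat_lit 7) (nat_lit 4) (.n (nat_lit 8) (nat_lit 2) (.p (nat_lit 10) (nat_lit 1) (.n (nat_lit 12) (nat_lit 3) (.n (nat_lit 15) (nat_lit 2) (.p (nat_lit 17) (nat_lit 1) (.p (nat_lit 18) (nat_lit 2) (.p (nat_lit 19) (nat_lit 4) (.p (nat_lit 22) (nat_lit 4) (.p (nat_lit 23) (nat_lit 1) (.p (nat_lit 24) (nat_lit 1) (.n (nat_lit 25) (nat_lit 3) (.p (nat_lit 27) (nat_lit 1) (.p (nat_lit 28) (nat_lit 4) (.n (nat_lit 29) (nat_lit 1) (.n (nat_lit 31) (nat_lit 1) (.n (nat_lit 32) (nat_lit 1) (.p (nat_lit 34) (nat_lit 1) (.n (nat_lit 35) (nat_lit 1) (.p (nat_lit 36) (nat_lit 2) (.n (nat_lit 38) (nat_lit 1) (.p (nat_lit 39) (nat_lit 1) (.p (nat_lit 40) (nat_lit 2) (.p (nat_lit 44) (nat_lit 1) (.n (nat_lit 45) (nat_lit 1) .z))))))))))))))))))))))))))))) .nil)))))))))))))))))))) .leaf) (nat_lit 135169) (nat_lit 438) (.p (nat_lit 232) (nat_lit 1) .z) .df .leaf) (nat_lit 135170) (nat_lit 573) (.p (nat_lit 260) (nat_lit 1) .z) .df (.nd (.nd .leaf (nat_lit 135173) (nat_lit 1144) (.n (nat_lit 355) (nat_lit 1) (.p (nat_lit 357) (nat_lit 2) (.n (nat_lit 358) (nat_lit 2) (.n (nat_lit 359) (nat_lit 2) (.n (nat_lit 361) (nat_lit 1) (.p (nat_lit 362) (nat_lit 1) (.p (nat_lit 364) (nat_lit 1) (.p (nat_lit 365) (nat_lit 2) (.p (nat_lit 366) (nat_lit 1) (.n (nat_lit 372) (nat_lit 1) (.p (nat_lit 375) (nat_lit 3) (.n (nat_lit 381) (nat_lit 2) (.n (nat_lit 382) (nat_lit 1) (.p (nat_lit 384) (nat_lit 2) (.p (nat_lit 385) (nat_lit 2) (.n (nat_lit 386) (nat_lit 1) (.p (nat_lit 387) (nat_lit 1) (.n (nat_lit 388) (nat_lit 1) (.p (nat_lit 389) (nat_lit 2) (.n (nat_lit 390) (nat_lit 2) (.p (nat_lit 391) (nat_lit 1) (.p (nat_lit 393) (nat_lit 3) (.n (nat_lit 395) (nat_lit 2) (.p (nat_lit 396) (nat_lit 1) (.n (nat_lit 415) (nat_lit 1) .z))))))))))))))))))))))))) (.ct dC1c_c548 (nat_lit 1) (nat_lit 14) (.s true (nat_lit 1) (nat_lit 20) (nat_lit 2) (nat_lit 2) (nat_lit 5) true (nat_lit 6) true (nat_lit 14) true (nat_lit 3) true (nat_lit 17) true (nat_lit 17) (.e true (nat_lit 1) (nat_lit 55) (nat_lit 16) (nat_lit 6) (.e true (nat_lit 1) (nat_lit 44) (nat_lit 20) (nat_lit 3) (.e true (nat_lit 1) (nat_lit 45) (nat_lit 20) (nat_lit 3) (.e false (nat_lit 3) (nat_lit 212) (nat_lit 2) (nat_lit 17) (.e false (nat_lit 3) (nat_lit 214) (nat_lit 2) (nat_lit 17) (.e true (nat_lit 2) (nat_lit 215) (nat_lit 2) (nat_lit 17) (.e true (nat_lit 2) (nat_lit 217) (nat_lit 2) (nat_lit 17) (.e false (nat_lit 1) (nat_lit 218) (nat_lit 2) (nat_lit 17) (.e true (nat_lit 1) (nat_lit 220) (nat_lit 2) (nat_lit 17) (.e false (nat_lit 3) (nat_lit 221) (nat_lit 2) (nat_lit 17) (.e true (nat_lit 3) (nat_lit 223) (nat_lit 2) (nat_lit 17) (.e false (nat_lit 2) (nat_lit 224) (nat_lit 2) (nat_lit 17) (.e false (nat_lit 3) (nat_lit 227) (nat_lit 2) (nat_lit 17) dC1c_i134))))))))))))))) .leaf) (nat_lit 135174) (nat_lit 1266) (.p (nat_lit 426) (nat_lit 3) (.p (nat_lit 427) (nat_lit 2) (.p (nat_lit 428) (nat_lit 1) (.p (nat_lit 429) (nat_lit 3) (.p (nat_lit 430) (nat_lit 3) (.p (nat_lit 431) (nat_lit 1) (.n (nat_lit 432) (nat_lit 3) (.n (nat_lit 433) (nat_lit 3) (.p (nat_lit 435) (nat_lit 2) (.p (nat_lit 438) (nat_lit 3) (.p (nat_lit 439) (nat_lit 2) (.p (nat_lit 441) (nat_lit 1) (.n (nat_lit 442) (nat_lit 2) (.p (nat_lit 443) (nat_lit 1) (.n (nat_lit 444) (nat_lit 2) (.p (nat_lit 445) (nat_lit 1) (.p (nat_lit 456) (nat_lit 2) (.p (nat_lit 459) (nat_lit 3) .z)))))))))))))))))) (.ct dC1c_c533 (nat_lit 1) (nat_lit 9) (.s false (nat_lit 2) (nat_lit 9) (nat_lit 6) (nat_lit 1) (nat_lit 6) false (nat_lit 2) true (nat_lit 9) true (nat_lit 7) true (nat_lit 9) true (nat_lit 14) dC1c_i139)) .leaf))))) (nat_lit 136193) (nat_lit 439) (.p (nat_lit 233) (nat_lit 1) .z) .df (.nd (.nd (.nd (.nd (.nd (.nd .leaf (nat_lit 136194) (nat_lit 574) (.p (nat_lit 261) (nat_lit 1) .z) .df .leaf) (nat_lit 136197) (nat_lit 1093) (.n (nat_lit 355) (nat_lit 3) (.n (nat_lit 357) (nat_lit 3) (.n (nat_lit 358) (nat_lit 1) (.n (nat_lit 359) (nat_lit 1) (.n (nat_lit 361) (nat_lit 2) (.p (nat_lit 362) (nat_lit 2) (.p (nat_lit 363) (nat_lit 1) (.n (nat_lit 364) (nat_lit 1) (.n (nat_lit 365) (nat_lit 3) (.n (nat_lit 366) (nat_lit 2) (.p (nat_lit 367) (nat_lit 1) (.p (nat_lit 369) (nat_lit 2) (.p (nat_lit 370) (nat_lit 3) (.p (nat_lit 372) (nat_lit 3) (.p (nat_lit 374) (nat_lit 2) (.n (nat_lit 375) (nat_lit 1) (.p (nat_lit 381) (nat_lit 1) (.n (nat_lit 382) (nat_lit 1) (.n (nat_lit 383) (nat_lit 3) (.p (nat_lit 384) (nat_lit 1) (.n (nat_lit 385) (nat_lit 3) (.n (nat_lit 387) (nat_lit 1) (.p (nat_lit 389) (nat_lit 1) (.n (nat_lit 391) (nat_lit 3) (.n (nat_lit 392) (nat_lit 2) (.n (nat_lit 393) (nat_lit 1) (.p (nat_lit 394) (nat_lit 2) (.p (nat_lit 395) (nat_lit 2) (.p (nat_lit 396) (nat_lit 2) (.n (nat_lit 416) (nat_lit 1) .z)))))))))))))))))))))))))))))) (.ct dC1c_c548 (nat_lit 1) (nat_lit 14) (.s true (nat_lit 1) (nat_lit 56) (nat_lit 1) (nat_lit 2) (nat_lit 2) true (nat_lit 14) true (nat_lit 17) false (nat_lit 6) true (nat_lit 18) true (nat_lit 17) (.e false (nat_lit 2) (nat_lit 212) (nat_lit 2) (nat_lit 17) (.e true (nat_lit 2) (nat_lit 213) (nat_lit 2) (nat_lit 17) (.e false (nat_lit 1) (nat_lit 214) (nat_lit 2) (nat_lit 17) (.e true (nat_lit 3) (nat_lit 215) (nat_lit 2) (nat_lit 17) (.e false (nat_lit 2) (nat_lit 216) (nat_lit 2) (nat_lit 17) (.e false (nat_lit 2) (nat_lit 218) (nat_lit 2) (nat_lit 17) (.e false (nat_lit 2) (nat_lit 219) (nat_lit 2) (nat_lit 17) (.e false (nat_lit 2) (nat_lit 220) (nat_lit 2) (nat_lit 17) (.e true (nat_lit 2) (nat_lit 221) (nat_lit 2) (nat_lit 17) (.e false (nat_lit 3) (nat_lit 222) (nat_lit 2) (nat_lit 17) (.e true (nat_lit 2) (nat_lit 223) (nat_lit 2) (nat_lit 17) (.e true (nat_lit 1) (nat_lit 224) (nat_lit 2) (nat_lit 17) dC1c_i140)))))))))))))) .leaf) (nat_lit 136198) (nat_lit 1304) (.p (nat_lit 426) (nat_lit 2) (.n (nat_lit 427) (nat_lit 3) (.p (nat_lit 428) (nat_lit 3) (.p (nat_lit 429) (nat_lit 2) (.p (nat_lit 430) (nat_lit 1) (.p (nat_lit 431) (nat_lit 3) (.n (nat_lit 434) (nat_lit 1) (.n (nat_lit 435) (nat_lit 1) (.p (nat_lit 436) (nat_lit 3) (.n (nat_lit 438) (nat_lit 3) (.p (nat_lit 439) (nat_lit 1) (.n (nat_lit 441) (nat_lit 2) (.n (nat_lit 443) (nat_lit 3) (.n (nat_lit 444) (nat_lit 3) (.n (nat_lit 445) (nat_lit 3) (.p (nat_lit 447) (nat_lit 2) (.p (nat_lit 456) (nat_lit 3) (.p (nat_lit 459) (nat_lit 2) .z)))))))))))))))))) (.ct dC1c_c533 (nat_lit 1) (nat_lit 9) (.s true (nat_lit 1) (nat_lit 21) (nat_lit 2) (nat_lit 2) (nat_lit 6) true (nat_lit 3) true (nat_lit 9) true (nat_lit 2) true (nat_lit 13) true (nat_lit 13) (.e false (nat_lit 1) (nat_lit 56) (nat_lit 18) (nat_lit 3) (.e false (nat_lit 1) (nat_lit 287) (nat_lit 2) (nat_lit 13) (.u (nat_lit 2) (.n (nat_lit 2) (nat_lit 1) (.n (nat_lit 3) (nat_lit 1) (.p (nat_lit 12) (nat_lit 1) (.n (nat_lit 30) (nat_lit 1) .z)))) .nil))))) (.nd (.nd .leaf (nat_lit 137217) (nat_lit 440) (.p (nat_lit 234) (nat_lit 1) .z) .df .leaf) (nat_lit 137218) (nat_lit 575) (.p (nat_lit 262) (nat_lit 1) .z) .df .leaf)) (nat_lit 137221) (nat_lit 1166) (.n (nat_lit 355) (nat_lit 3) (.p (nat_lit 357) (nat_lit 3) (.n (nat_lit 358) (nat_lit 3) (.n (nat_lit 363) (nat_lit 1) (.p (nat_lit 364) (nat_lit 2) (.p (nat_lit 366) (nat_lit 1) (.p (nat_lit 369) (nat_lit 2) (.p (nat_lit 372) (nat_lit 3) (.n (nat_lit 373) (nat_lit 3) (.p (nat_lit 375) (nat_lit 1) (.p (nat_lit 381) (nat_lit 2) (.p (nat_lit 382) (nat_lit 3) (.n (nat_lit 383) (nat_lit 3) (.p (nat_lit 384) (nat_lit 3) (.n (nat_lit 385) (nat_lit 1) (.p (nat_lit 386) (nat_lit 2) (.n (nat_lit 387) (nat_lit 2) (.p (nat_lit 388) (nat_lit 1) (.n (nat_lit 389) (nat_lit 2) (.n (nat_lit 390) (nat_lit 3) (.n (nat_lit 391) (nat_lit 1) (.n (nat_lit 392) (nat_lit 2) (.p (nat_lit 393) (nat_lit 1) (.n (nat_lit 395) (nat_lit 3) (.n (nat_lit 396) (nat_lit 2) (.n (nat_lit 417) (nat_lit 1) .z)))))))))))))))))))))))))) (.ct dC1c_c548 (nat_lit 1) (nat_lit 14) (.s false (nat_lit 1) (nat_lit 81) (nat_lit 2) (nat_lit 1) (nat_lit 1) true (nat_lit 14) true (nat_lit 18) false (nat_lit 8) true (nat_lit 17) true (nat_lit 18) (.e true (nat_lit 1) (nat_lit 132) (nat_lit 5) (nat_lit 14) (.e true (nat_lit 1) (nat_lit 133) (nat_lit 5) (nat_lit 14) (.e false (nat_lit 2) (nat_lit 136) (nat_lit 5) (nat_lit 14) (.e true (nat_lit 3) (nat_lit 137) (nat_lit 5) (nat_lit 14) (.e true (nat_lit 3) (nat_lit 138) (nat_lit 5) (nat_lit 14) (.e true (nat_lit 1) (nat_lit 139) (nat_lit 5) (nat_lit 14) (.e true (nat_lit 1) (nat_lit 140) (nat_lit 5) (nat_lit 14) (.e false (nat_lit 3) (nat_lit 141) (nat_lit 5) (nat_lit 14) (.e true (nat_lit 2) (nat_lit 142) (nat_lit 5) (nat_lit 14) (.e false (nat_lit 1) (nat_lit 144) (nat_lit 5) (nat_lit 14) dC1c_i141)))))))))))) (.nd (.nd (.nd .leaf (nat_lit 137222) (nat_lit 1299) (.n (nat_lit 427) (nat_lit 3) (.p (nat_lit 428) (nat_lit 3) (.n (nat_lit 429) (nat_lit 2) (.p (nat_lit 430) (nat_lit 3) (.p (nat_lit 431) (nat_lit 2) (.p (nat_lit 432) (nat_lit 1) (.p (nat_lit 433) (nat_lit 1) (.p (nat_lit 435) (nat_lit 1) (.n (nat_lit 436) (nat_lit 2) (.n (nat_lit 438) (nat_lit 2) (.n (nat_lit 439) (nat_lit 1) (.n (nat_lit 441) (nat_lit 3) (.n (nat_lit 442) (nat_lit 2) (.p (nat_lit 443) (nat_lit 3) (.n (nat_lit 444) (nat_lit 1) (.p (nat_lit 448) (nat_lit 2) (.p (nat_lit 456) (nat_lit 3) (.p (nat_lit 459) (nat_lit 2) .z)))))))))))))))))) (.ct dC1c_c533 (nat_lit 1) (nat_lit 9) (.s true (nat_lit 1) (nat_lit 18) (nat_lit 0) (nat_lit 6) (nat_lit 3) true (nat_lit 8) true (nat_lit 12) true (nat_lit 3) true (nat_lit 15) true (nat_lit 9) (.s true (nat_lit 2) (nat_lit 18) (nat_lit 11) (nat_lit 2) (nat_lit 0) true (nat_lit 2) true (nat_lit 15) true (nat_lit 3) true (nat_lit 6) true (nat_lit 13) (.s true (nat_lit 2) (nat_lit 21) (nat_lit 2) (nat_lit 2) (nat_lit 6) true (nat_lit 3) true (nat_lit 9) true (nat_lit 2) true (nat_lit 13) true (nat_lit 13) (.s true (nat_lit 3) (nat_lit 22) (nat_lit 2) (nat_lit 2) (nat_lit 6) true (nat_lit 3) true (nat_lit 9) true (nat_lit 2) true (nat_lit 13) true (nat_lit 13) (.s false (nat_lit 2) (nat_lit 23) (nat_lit 2) (nat_lit 2) (nat_lit 6) true (nat_lit 3) true (nat_lit 9) true (nat_lit 2) true (nat_lit 13) true (nat_lit 13) (.s false (nat_lit 1) (nat_lit 22) (nat_lit 2) (nat_lit 6) (nat_lit 2) true (nat_lit 9) true (nat_lit 13) true (nat_lit 2) true (nat_lit 13) true (nat_lit 9) (.s true (nat_lit 2) (nat_lit 46) (nat_lit 0) (nat_lit 2) (nat_lit 3) true (nat_lit 8) true (nat_lit 12) false (nat_lit 2) true (nat_lit 15) true (nat_lit 13) (.s true (nat_lit 1) (nat_lit 46) (nat_lit 3) (nat_lit 2) (nat_lit 0) true (nat_lit 8) true (nat_lit 15) false (nat_lit 2) true (nat_lit 12) true (nat_lit 13) (.s true (nat_lit 2) (nat_lit 46) (nat_lit 5) (nat_lit 0) (nat_lit 0) true (nat_lit 6) true (nat_lit 15) false (nat_lit 2) true (nat_lit 10) true (nat_lit 15) (.s true (nat_lit 1) (nat_lit 61) (nat_lit 2) (nat_lit 2) (nat_lit 2) true (nat_lit 9) true (nat_lit 13) false (nat_lit 3) true (nat_lit 13) true (nat_lit 13) (.s false (nat_lit 1) (nat_lit 64) (nat_lit 2) (nat_lit 2) (nat_lit 2) true (nat_lit 9) true (nat_lit 13) false (nat_lit 3) true (nat_lit 13) true (nat_lit 13) (.s true (nat_lit 1) (nat_lit 100) (nat_lit 0) (nat_lit 2) (nat_lit 1) true (nat_lit 12) true (nat_lit 14) false (nat_lit 6) true (nat_lit 15) true (nat_lit 13) (.s true (nat_lit 2) (nat_lit 99) (nat_lit 1) (nat_lit 2) (nat_lit 0) true (nat_lit 12) true (nat_lit 15) false (nat_lit 6) true (nat_lit 14) true (nat_lit 13) (.s false (nat_lit 2) (nat_lit 101) (nat_lit 1) (nat_lit 2) (nat_lit 0) true (nat_lit 12) true (nat_lit 15) false (nat_lit 6) true (nat_lit 14) true (nat_lit 13) (.s false (nat_lit 1) (nat_lit 106) (nat_lit 0) (nat_lit 0) (nat_lit 1) true (nat_lit 12) true (nat_lit 14) false (nat_lit 8) true (nat_lit 15) true (nat_lit 15) (.e false (nat_lit 2) (nat_lit 55) (nat_lit 18) (nat_lit 3) (.e true (nat_lit 2) (nat_lit 65) (nat_lit 18) (nat_lit 3) dC1c_i143)))))))))))))))))) .leaf) (nat_lit 138241) (nat_lit 441) (.p (nat_lit 235) (nat_lit 1) .z) .df .leaf) (nat_lit 138242) (nat_lit 576) (.p (nat_lit 263) (nat_lit 1) .z) .df (.nd (.nd .leaf (nat_lit 138245) (nat_lit 1167) (.p (nat_lit 355) (nat_lit 3) (.n (nat_lit 356) (nat_lit 3) (.n (nat_lit 358) (nat_lit 2) (.p (nat_lit 359) (nat_lit 3) (.p (nat_lit 360) (nat_lit 1) (.n (nat_lit 361) (nat_lit 2) (.p (nat_lit 362) (nat_lit 2) (.n (nat_lit 363) (nat_lit 2) (.p (nat_lit 364) (nat_lit 2) (.p (nat_lit 365) (nat_lit 3) (.n (nat_lit 366) (nat_lit 1) (.n (nat_lit 369) (nat_lit 2) (.p (nat_lit 372) (nat_lit 2) (.n (nat_lit 373) (nat_lit 1) (.n (nat_lit 374) (nat_lit 3) (.n (nat_lit 375) (nat_lit 1) (.p (nat_lit 381) (nat_lit 2) (.p (nat_lit 382) (nat_lit 1) (.p (nat_lit 383) (nat_lit 1) (.n (nat_lit 384) (nat_lit 3) (.n (nat_lit 385) (nat_lit 1) (.n (nat_lit 386) (nat_lit 3) (.n (nat_lit 388) (nat_lit 1) (.n (nat_lit 389) (nat_lit 2) (.p (nat_lit 390) (nat_lit 1) (.n (nat_lit 391) (nat_lit 1) (.p (nat_lit 392) (nat_lit 1) (.p (nat_lit 393) (nat_lit 1) (.n (nat_lit 394) (nat_lit 1) (.p (nat_lit 395) (nat_lit 1) (.n (nat_lit 396) (nat_lit 2) (.n (nat_lit 415) (nat_lit 1) (.n (nat_lit 416) (nat_lit 1) (.p (nat_lit 417) (nat_lit 2) .z)))))))))))))))))))))))))))))))))) (.ct dC1c_c548 (nat_lit 1) (nat_lit 14) (.s false (nat_lit 1) (nat_lit 40) (nat_lit 0) (nat_lit 5) (nat_lit 1) true (nat_lit 16) true (nat_lit 18) false (nat_lit 2) true (nat_lit 19) true (nat_lit 14) (.e false (nat_lit 1) (nat_lit 195) (nat_lit 3) (nat_lit 16) (.e false (nat_lit 3) (nat_lit 260) (nat_lit 1) (nat_lit 18) (.e false (nat_lit 1) (nat_lit 262) (nat_lit 1) (nat_lit 18) (.e false (nat_lit 3) (nat_lit 263) (nat_lit 1) (nat_lit 18) (.e true (nat_lit 2) (nat_lit 264) (nat_lit 1) (nat_lit 18) (.e true (nat_lit 3) (nat_lit 265) (nat_lit 1) (nat_lit 18) (.e true (nat_lit 3) (nat_lit 266) (nat_lit 1) (nat_lit 18) (.e true (nat_lit 2) (nat_lit 267) (nat_lit 1) (nat_lit 18) (.e false (nat_lit 1) (nat_lit 268) (nat_lit 1) (nat_lit 18) (.e true (nat_lit 1) (nat_lit 269) (nat_lit 1) (nat_lit 18) (.e false (nat_lit 3) (nat_lit 270) (nat_lit 1) (nat_lit 18) (.e true (nat_lit 2) (nat_lit 271) (nat_lit 1) (nat_lit 18) dC1c_i145)))))))))))))) .leaf) (nat_lit 138246) (nat_lit 1321) (.n (nat_lit 426) (nat_lit 3) (.p (nat_lit 427) (nat_lit 2) (.p (nat_lit 428) (nat_lit 1) (.n (nat_lit 429) (nat_lit 2) (.p (nat_lit 430) (nat_lit 1) (.n (nat_lit 434) (nat_lit 2) (.n (nat_lit 435) (nat_lit 2) (.n (nat_lit 436) (nat_lit 1) (.p (nat_lit 438) (nat_lit 1) (.n (nat_lit 439) (nat_lit 3) (.p (nat_lit 441) (nat_lit 3) (.n (nat_lit 442) (nat_lit 1) (.n (nat_lit 443) (nat_lit 3) (.p (nat_lit 444) (nat_lit 1) (.p (nat_lit 445) (nat_lit 3) (.p (nat_lit 447) (nat_lit 2) (.p (nat_lit 448) (nat_lit 3) (.p (nat_lit 456) (nat_lit 1) .z)))))))))))))))))) (.ct dC1c_c533 (nat_lit 1) (nat_lit 9) (.s true (nat_lit 1) (nat_lit 23) (nat_lit 2) (nat_lit 2) (nat_lit 6) true (nat_lit 3) true (nat_lit 9) true (nat_lit 2) true (nat_lit 13) true (nat_lit 13) (.e false (nat_lit 1) (nat_lit 58) (nat_lit 18) (nat_lit 3) (.e true (nat_lit 2) (nat_lit 260) (nat_lit 2) (nat_lit 13) (.e false (nat_lit 3) (nat_lit 261) (nat_lit 2) (nat_lit 13) (.e true (nat_lit 1) (nat_lit 262) (nat_lit 2) (nat_lit 13) (.e false (nat_lit 3) (nat_lit 263) (nat_lit 2) (nat_lit 13) (.e true (nat_lit 2) (nat_lit 264) (nat_lit 2) (nat_lit 13) (.e false (nat_lit 1) (nat_lit 265) (nat_lit 2) (nat_lit 13) (.e true (nat_lit 1) (nat_lit 267) (nat_lit 2) (nat_lit 13) (.e false (nat_lit 3) (nat_lit 269) (nat_lit 2) (nat_lit 13) (.e true (nat_lit 3) (nat_lit 271) (nat_lit 2) (nat_lit 13) (.e false (nat_lit 1) (nat_lit 272) (nat_lit 2) (nat_lit 13) (.e true (nat_lit 3) (nat_lit 273) (nat_lit 2) (nat_lit 13) (.e false (nat_lit 3) (nat_lit 274) (nat_lit 2) (nat_lit 13) (.e false (nat_lit 2) (nat_lit 277) (nat_lit 2) (nat_lit 13) (.e true (nat_lit 3) (nat_lit 278) (nat_lit 2) (nat_lit 13) (.e false (nat_lit 2) (nat_lit 279) (nat_lit 2) (nat_lit 13) (.e true (nat_lit 2) (nat_lit 280) (nat_lit 2) (nat_lit 13) (.e true (nat_lit 3) (nat_lit 286) (nat_lit 2) (nat_lit 13) (.e false (nat_lit 1) (nat_lit 287) (nat_lit 2) (nat_lit 13) (.e false (nat_lit 3) (nat_lit 288) (nat_lit 2) (nat_lit 13) (.e false (nat_lit 2) (nat_lit 270) (nat_lit 2) (nat_lit 13) (.u (nat_lit 2) (.p (nat_lit 0) (nat_lit 5) (.n (nat_lit 1) (nat_lit 2) (.n (nat_lit 2) (nat_lit 1) (.n (nat_lit 5) (nat_lit 1) (.n (nat_lit 6) (nat_lit 3) (.n (nat_lit 7) (nat_lit 3) (.n (nat_lit 9) (nat_lit 1) (.p (nat_lit 10) (nat_lit 3) (.p (nat_lit 12) (nat_lit 2) (.p (nat_lit 13) (nat_lit 1) (.n (nat_lit 15) (nat_lit 1) (.n (nat_lit 16) (nat_lit 5) (.p (nat_lit 17) (nat_lit 1) (.n (nat_lit 18) (nat_lit 4) (.n (nat_lit 19) (nat_lit 2) (.p (nat_lit 24) (nat_lit 1) (.n (nat_lit 25) (nat_lit 1) (.n (nat_lit 26) (nat_lit 2) (.n (nat_lit 27) (nat_lit 2) (.n (nat_lit 30) (nat_lit 2) (.n (nat_lit 174) (nat_lit 1) (.p (nat_lit 175) (nat_lit 1) (.n (nat_lit 176) (nat_lit 1) (.p (nat_lit 186) (nat_lit 1) (.n (nat_lit 190) (nat_lit 1) (.p (nat_lit 191) (nat_lit 1) (.p (nat_lit 193) (nat_lit 1) .z))))))))))))))))))))))))))) .nil)))))))))))))))))))))))) .leaf))) (nat_lit 139265) (nat_lit 442) (.p (nat_lit 236) (nat_lit 1) .z) .df (.nd (.nd (.nd (.nd .leaf (nat_lit 139266) (nat_lit 577) (.p (nat_lit 264) (nat_lit 1) .z) .df .leaf) (nat_lit 139269) (nat_lit 1007) (.p (nat_lit 355) (nat_lit 1) (.p (nat_lit 356) (nat_lit 3) (.p (nat_lit 357) (nat_lit 1) (.p (nat_lit 358) (nat_lit 1) (.n (nat_lit 363) (nat_lit 3) (.p (nat_lit 366) (nat_lit 3) (.p (nat_lit 367) (nat_lit 3) (.p (nat_lit 369) (nat_lit 2) (.p (nat_lit 370) (nat_lit 2) (.n (nat_lit 372) (nat_lit 1) (.n (nat_lit 373) (nat_lit 1) (.n (nat_lit 374) (nat_lit 1) (.p (nat_lit 382) (nat_lit 3) (.n (nat_lit 383) (nat_lit 1) (.p (nat_lit 384) (nat_lit 1) (.n (nat_lit 386) (nat_lit 2) (.p (nat_lit 387) (nat_lit 2) (.p (nat_lit 388) (nat_lit 1) (.n (nat_lit 389) (nat_lit 1) (.p (nat_lit 390) (nat_lit 1) (.p (nat_lit 391) (nat_lit 3) (.p (nat_lit 392) (nat_lit 2) (.p (nat_lit 393) (nat_lit 3) (.n (nat_lit 394) (nat_lit 2) (.n (nat_lit 395) (nat_lit 1) (.p (nat_lit 396) (nat_lit 1) (.n (nat_lit 418) (nat_lit 1) .z))))))))))))))))))))))))))) (.ct dC1c_c548 (nat_lit 1) (nat_lit 14) (.s false (nat_lit 1) (nat_lit 28) (nat_lit 2) (nat_lit 5) (nat_lit 1) true (nat_lit 14) true (nat_lit 18) true (nat_lit 1) true (nat_lit 17) true (nat_lit 14) (.s true (nat_lit 1) (nat_lit 28) (nat_lit 5) (nat_lit 2) (nat_lit 1) true (nat_lit 8) true (nat_lit 18) true (nat_lit 1) true (nat_lit 14) true (nat_lit 17) (.s true (nat_lit 1) (nat_lit 77) (nat_lit 1) (nat_lit 1) (nat_lit 2) true (nat_lit 14) true (nat_lit 17) false (nat_lit 8) true (nat_lit 18) true (nat_lit 18) (.e true (nat_lit 1) (nat_lit 236) (nat_lit 2) (nat_lit 17) (.e true (nat_lit 1) (nat_lit 77) (nat_lit 13) (nat_lit 8) (.e true (nat_lit 1) (nat_lit 280) (nat_lit 1) (nat_lit 18) (.e true (nat_lit 1) (nat_lit 143) (nat_lit 5) (nat_lit 14) (.e false (nat_lit 1) (nat_lit 281) (nat_lit 1) (nat_lit 18) .nil))))))))) .leaf) (nat_lit 139270) (nat_lit 1330) (.n (nat_lit 426) (nat_lit 2) (.n (nat_lit 427) (nat_lit 1) (.p (nat_lit 428) (nat_lit 3) (.n (nat_lit 429) (nat_lit 2) (.n (nat_lit 430) (nat_lit 1) (.n (nat_lit 432) (nat_lit 3) (.n (nat_lit 433) (nat_lit 3) (.n (nat_lit 434) (nat_lit 3) (.p (nat_lit 435) (nat_lit 2) (.n (nat_lit 436) (nat_lit 1) (.n (nat_lit 438) (nat_lit 1) (.n (nat_lit 439) (nat_lit 3) (.n (nat_lit 442) (nat_lit 1) (.p (nat_lit 443) (nat_lit 1) (.n (nat_lit 445) (nat_lit 1) (.p (nat_lit 449) (nat_lit 2) (.n (nat_lit 456) (nat_lit 1) (.n (nat_lit 459) (nat_lit 3) .z)))))))))))))))))) (.ct dC1c_c533 (nat_lit 1) (nat_lit 9) (.s true (nat_lit 1) (nat_lit 59) (nat_lit 2) (nat_lit 2) (nat_lit 2) true (nat_lit 9) true (nat_lit 13) false (nat_lit 3) true (nat_lit 13) true (nat_lit 13) (.e true (nat_lit 2) (nat_lit 264) (nat_lit 2) (nat_lit 13) (.e false (nat_lit 1) (nat_lit 59) (nat_lit 18) (nat_lit 3) (.e false (nat_lit 1) (nat_lit 261) (nat_lit 2) (nat_lit 13) (.e true (nat_lit 2) (nat_lit 262) (nat_lit 2) (nat_lit 13) (.e true (nat_lit 3) (nat_lit 265) (nat_lit 2) (nat_lit 13) (.e true (nat_lit 1) (nat_lit 266) (nat_lit 2) (nat_lit 13) (.e false (nat_lit 3) (nat_lit 267) (nat_lit 2) (nat_lit 13) (.e true (nat_lit 3) (nat_lit 268) (nat_lit 2) (nat_lit 13) (.e true (nat_lit 2) (nat_lit 269) (nat_lit 2) (nat_lit 13) (.e false (nat_lit 2) (nat_lit 270) (nat_lit 2) (nat_lit 13) (.e true (nat_lit 1) (nat_lit 271) (nat_lit 2) (nat_lit 13) (.e true (nat_lit 2) (nat_lit 272) (nat_lit 2) (nat_lit 13) (.e false (nat_lit 1) (nat_lit 273) (nat_lit 2) (nat_lit 13) (.e false (nat_lit 1) (nat_lit 277) (nat_lit 2) (nat_lit 13) (.e true (nat_lit 1) (nat_lit 278) (nat_lit 2) (nat_lit 13) (.e false (nat_lit 2) (nat_lit 279) (nat_lit 2) (nat_lit 13) (.e false (nat_lit 1) (nat_lit 280) (nat_lit 2) (nat_lit 13) (.e true (nat_lit 3) (nat_lit 286) (nat_lit 2) (nat_lit 13) (.e false (nat_lit 2) (nat_lit 287) (nat_lit 2) (nat_lit 13) (.e false (nat_lit 1) (nat_lit 288) (nat_lit 2) (nat_lit 13) (.u (nat_lit 2) (.p (nat_lit 0) (nat_lit 1) (.p (nat_lit 2) (nat_lit 1) (.p (nat_lit 3) (nat_lit 1) (.n (nat_lit 4) (nat_lit 2) (.n (nat_lit 6) (nat_lit 1) (.n (nat_lit 7) (nat_lit 1) (.p (nat_lit 9) (nat_lit 2) (.p (nat_lit 12) (nat_lit 2) (.p (nat_lit 13) (nat_lit 2) (.p (nat_lit 15) (nat_lit 1) (.n (nat_lit 16) (nat_lit 1) (.n (nat_lit 18) (nat_lit 2) (.p (nat_lit 22) (nat_lit 1) (.n (nat_lit 23) (nat_lit 2) (.p (nat_lit 25) (nat_lit 1) (.n (nat_lit 30) (nat_lit 1) (.p (nat_lit 33) (nat_lit 3) .z))))))))))))))))) .nil))))))))))))))))))))))) (.nd (.nd .leaf (nat_lit 140289) (nat_lit 443) (.p (nat_lit 237) (nat_lit 1) .z) .df .leaf) (nat_lit 140290) (nat_lit 578) (.p (nat_lit 265) (nat_lit 1) .z) .df .leaf)) (nat_lit 140293) (nat_lit 1011) (.p (nat_lit 355) (nat_lit 2) (.p (nat_lit 356) (nat_lit 1) (.n (nat_lit 359) (nat_lit 2) (.p (nat_lit 360) (nat_lit 2) (.p (nat_lit 361) (nat_lit 1) (.p (nat_lit 362) (nat_lit 1) (.n (nat_lit 363) (nat_lit 1) (.p (nat_lit 364) (nat_lit 3) (.n (nat_lit 365) (nat_lit 2) (.p (nat_lit 366) (nat_lit 2) (.p (nat_lit 367) (nat_lit 2) (.n (nat_lit 368) (nat_lit 2) (.p (nat_lit 369) (nat_lit 2) (.p (nat_lit 372) (nat_lit 2) (.n (nat_lit 373) (nat_lit 1) (.n (nat_lit 374) (nat_lit 2) (.n (nat_lit 375) (nat_lit 3) (.n (nat_lit 381) (nat_lit 3) (.p (nat_lit 382) (nat_lit 2) (.n (nat_lit 384) (nat_lit 1) (.n (nat_lit 385) (nat_lit 1) (.n (nat_lit 386) (nat_lit 2) (.p (nat_lit 387) (nat_lit 2) (.n (nat_lit 388) (nat_lit 2) (.n (nat_lit 389) (nat_lit 2) (.p (nat_lit 390) (nat_lit 1) (.n (nat_lit 391) (nat_lit 1) (.n (nat_lit 393) (nat_lit 1) (.n (nat_lit 394) (nat_lit 2) (.n (nat_lit 395) (nat_lit 3) (.p (nat_lit 396) (nat_lit 2) (.p (nat_lit 408) (nat_lit 2) (.n (nat_lit 409) (nat_lit 2) (.n (nat_lit 412) (nat_lit 2) (.p (nat_lit 413) (nat_lit 2) (.n (nat_lit 418) (nat_lit 1) (.n (nat_lit 424) (nat_lit 1) (.p (nat_lit 425) (nat_lit 1) .z)))))))))))))))))))))))))))))))))))))) (.ct dC1c_c548 (nat_lit 1) (nat_lit 14) (.s false (nat_lit 3) (nat_lit 29) (nat_lit 1) (nat_lit 1) (nat_lit 6) true (nat_lit 6) true (nat_lit 13) true (nat_lit 1) true (nat_lit 18) true (nat_lit 18) (.s false (nat_lit 3) (nat_lit 60) (nat_lit 1) (nat_lit 2) (nat_lit 2) true (nat_lit 14) true (nat_lit 17) false (nat_lit 6) true (nat_lit 18) true (nat_lit 17) (.s false (nat_lit 3) (nat_lit 60) (nat_lit 2) (nat_lit 1) (nat_lit 2) true (nat_lit 13) true (nat_lit 17) false (nat_lit 6) true (nat_lit 17) true (nat_lit 18) (.s false (nat_lit 3) (nat_lit 60) (nat_lit 2) (nat_lit 2) (nat_lit 1) true (nat_lit 14) true (nat_lit 18) false (nat_lit 6) true (nat_lit 17) true (nat_lit 17) (.e true (nat_lit 1) (nat_lit 260) (nat_lit 1) (nat_lit 18) (.e true (nat_lit 1) (nat_lit 261) (nat_lit 1) (nat_lit 18) (.e true (nat_lit 1) (nat_lit 262) (nat_lit 1) (nat_lit 18) (.e true (nat_lit 3) (nat_lit 264) (nat_lit 1) (nat_lit 18) (.e false (nat_lit 2) (nat_lit 265) (nat_lit 1) (nat_lit 18) (.e false (nat_lit 2) (nat_lit 266) (nat_lit 1) (nat_lit 18) (.e false (nat_lit 1) (nat_lit 267) (nat_lit 1) (nat_lit 18) (.e false (nat_lit 2) (nat_lit 268) (nat_lit 1) (nat_lit 18) (.e true (nat_lit 3) (nat_lit 269) (nat_lit 1) (nat_lit 18) (.e false (nat_lit 2) (nat_lit 270) (nat_lit 1) (nat_lit 18) (.e true (nat_lit 2) (nat_lit 271) (nat_lit 1) (nat_lit 18) (.e false (nat_lit 2) (nat_lit 272) (nat_lit 1) (nat_lit 18) (.e true (nat_lit 2) (nat_lit 274) (nat_lit 1) (nat_lit 18) (.e true (nat_lit 1) (nat_lit 279) (nat_lit 1) (nat_lit 18) (.e false (nat_lit 3) (nat_lit 280) (nat_lit 1) (nat_lit 18) (.e false (nat_lit 1) (nat_lit 263) (nat_lit 1) (nat_lit 18) (.e false (nat_lit 3) (nat_lit 273) (nat_lit 1) (nat_lit 18) (.e true (nat_lit 1) (nat_lit 278) (nat_lit 1) (nat_lit 18) (.e true (nat_lit 1) (nat_lit 237) (nat_lit 2) (nat_lit 17) (.u (nat_lit 2) (.n (nat_lit 1) (nat_lit 2) (.n (nat_lit 2) (nat_lit 1) (.p (nat_lit 4) (nat_lit 1) (.p (nat_lit 8) (nat_lit 1) (.n (nat_lit 9) (nat_lit 1) (.n (nat_lit 11) (nat_lit 2) (.n (nat_lit 12) (nat_lit 2) (.n (nat_lit 14) (nat_lit 1) (.n (nat_lit 15) (nat_lit 1) (.p (nat_lit 18) (nat_lit 1) (.n (nat_lit 27) (nat_lit 1) (.p (nat_lit 28) (nat_lit 1) (.n (nat_lit 29) (nat_lit 1) (.p (nat_lit 30) (nat_lit 1) (.p (nat_lit 31) (nat_lit 1) (.p (nat_lit 34) (nat_lit 1) (.n (nat_lit 36) (nat_lit 1) (.n (nat_lit 37) (nat_lit 1) (.n (nat_lit 38) (nat_lit 1) (.p (nat_lit 39) (nat_lit 2) (.p (nat_lit 40) (nat_lit 1) (.n (nat_lit 41) (nat_lit 1) (.p (nat_lit 274) (nat_lit 1) (.p (nat_lit 352) (nat_lit 1) (.n (nat_lit 375) (nat_lit 5) (.p (nat_lit 376) (nat_lit 4) (.p (nat_lit 377) (nat_lit 7) (.n (nat_lit 378) (nat_lit 1) (.n (nat_lit 379) (nat_lit 3) (.p (nat_lit 380) (nat_lit 1) (.n (nat_lit 381) (nat_lit 8) (.n (nat_lit 382) (nat_lit 1) (.n (nat_lit 383) (nat_lit 2) (.p (nat_lit 384) (nat_lit 3) (.n (nat_lit 385) (nat_lit 2) (.p (nat_lit 386) (nat_lit 5) (.n (nat_lit 387) (nat_lit 2) (.n (nat_lit 389) (nat_lit 1) (.p (nat_lit 393) (nat_lit 4) (.n (nat_lit 394) (nat_lit 5) (.n (nat_lit 395) (nat_lit 3) (.p (nat_lit 396) (nat_lit 3) (.p (nat_lit 397) (nat_lit 3) (.n (nat_lit 402) (nat_lit 3) (.n (nat_lit 403) (nat_lit 3) .z))))))))))))))))))))))))))))))))))))))))))))) .nil))))))))))))))))))))))))) (.nd (.nd (.nd .leaf (nat_lit 140294) (nat_lit 1256) (.n (nat_lit 427) (nat_lit 3) (.p (nat_lit 428) (nat_lit 1) (.p (nat_lit 429) (nat_lit 1) (.p (nat_lit 430) (nat_lit 3) (.p (nat_lit 431) (nat_lit 3) (.n (nat_lit 432) (nat_lit 3) (.n (nat_lit 433) (nat_lit 3) (.n (nat_lit 434) (nat_lit 3) (.n (nat_lit 435) (nat_lit 1) (.p (nat_lit 436) (nat_lit 3) (.n (nat_lit 439) (nat_lit 3) (.n (nat_lit 441) (nat_lit 2) (.n (nat_lit 442) (nat_lit 1) (.n (nat_lit 443) (nat_lit 3) (.n (nat_lit 444) (nat_lit 3) (.n (nat_lit 445) (nat_lit 2) (.p (nat_lit 450) (nat_lit 2) (.p (nat_lit 456) (nat_lit 2) (.n (nat_lit 459) (nat_lit 1) .z))))))))))))))))))) (.ct dC1c_c533 (nat_lit 1) (nat_lit 9) (.s true (nat_lit 1) (nat_lit 9) (nat_lit 6) (nat_lit 1) (nat_lit 6) false (nat_lit 2) true (nat_lit 9) true (nat_lit 7) true (nat_lit 9) true (nat_lit 14) (.s false (nat_lit 2) (nat_lit 10) (nat_lit 4) (nat_lit 2) (nat_lit 6) false (nat_lit 0) true (nat_lit 9) true (nat_lit 6) true (nat_lit 11) true (nat_lit 13) (.s false (nat_lit 2) (nat_lit 11) (nat_lit 6) (nat_lit 4) (nat_lit 2) true (nat_lit 3) true (nat_lit 13) true (nat_lit 6) true (nat_lit 9) true (nat_lit 11) (.s true (nat_lit 2) (nat_lit 15) (nat_lit 1) (nat_lit 2) (nat_lit 15) true (nat_lit 0) true (nat_lit 5) true (nat_lit 5) true (nat_lit 14) true (nat_lit 13) (.s true (nat_lit 3) (nat_lit 14) (nat_lit 1) (nat_lit 14) (nat_lit 2) true (nat_lit 10) true (nat_lit 13) true (nat_lit 5) true (nat_lit 14) true (nat_lit 5) (.s false (nat_lit 3) (nat_lit 14) (nat_lit 2) (nat_lit 2) (nat_lit 11) true (nat_lit 0) true (nat_lit 6) true (nat_lit 5) true (nat_lit 13) true (nat_lit 13) (.s true (nat_lit 3) (nat_lit 15) (nat_lit 2) (nat_lit 2) (nat_lit 11) true (nat_lit 0) true (nat_lit 6) true (nat_lit 5) true (nat_lit 13) true (nat_lit 13) (.s false (nat_lit 2) (nat_lit 15) (nat_lit 4) (nat_lit 1) (nat_lit 6) false (nat_lit 0) true (nat_lit 9) true (nat_lit 5) true (nat_lit 11) true (nat_lit 14) (.s false (nat_lit 1) (nat_lit 14) (nat_lit 5) (nat_lit 4) (nat_lit 2) true (nat_lit 4) true (nat_lit 13) true (nat_lit 5) true (nat_lit 10) true (nat_lit 11) (.s false (nat_lit 2) (nat_lit 14) (nat_lit 10) (nat_lit 2) (nat_lit 2) true (nat_lit 0) true (nat_lit 13) true (nat_lit 5) true (nat_lit 6) true (nat_lit 13) (.s false (nat_lit 3) (nat_lit 15) (nat_lit 11) (nat_lit 2) (nat_lit 2) true (nat_lit 0) true (nat_lit 13) true (nat_lit 5) true (nat_lit 6) true (nat_lit 13) (.s true (nat_lit 3) (nat_lit 16) (nat_lit 0) (nat_lit 2) (nat_lit 14) true (nat_lit 1) true (nat_lit 5) true (nat_lit 4) true (nat_lit 15) true (nat_lit 13) (.s true (nat_lit 1) (nat_lit 16) (nat_lit 2) (nat_lit 0) (nat_lit 15) false (nat_lit 0) true (nat_lit 5) true (nat_lit 4) true (nat_lit 13) true (nat_lit 15) (.s true (nat_lit 3) (nat_lit 17) (nat_lit 9) (nat_lit 2) (nat_lit 2) true (nat_lit 1) true (nat_lit 13) true (nat_lit 4) true (nat_lit 7) true (nat_lit 13) (.s false (nat_lit 3) (nat_lit 18) (nat_lit 0) (nat_lit 0) (nat_lit 16) true (nat_lit 0) true (nat_lit 4) true (nat_lit 3) true (nat_lit 15) true (nat_lit 15) (.s false (nat_lit 3) (nat_lit 18) (nat_lit 0) (nat_lit 1) (nat_lit 15) true (nat_lit 1) true (nat_lit 5) true (nat_lit 3) true (nat_lit 15) true (nat_lit 14) (.s true (nat_lit 3) (nat_lit 18) (nat_lit 0) (nat_lit 6) (nat_lit 3) true (nat_lit 8) true (nat_lit 12) true (nat_lit 3) true (nat_lit 15) true (nat_lit 9) (.s false (nat_lit 3) (nat_lit 18) (nat_lit 0) (nat_lit 15) (nat_lit 1) true (nat_lit 12) true (nat_lit 14) true (nat_lit 3) true (nat_lit 15) true (nat_lit 5) (.s false (nat_lit 1) (nat_lit 18) (nat_lit 0) (nat_lit 17) (nat_lit 0) false (nat_lit 16) true (nat_lit 15) true (nat_lit 3) true (nat_lit 15) true (nat_lit 4) (.s true (nat_lit 1) (nat_lit 18) (nat_lit 1) (nat_lit 0) (nat_lit 14) true (nat_lit 0) true (nat_lit 5) true (nat_lit 3) true (nat_lit 14) true (nat_lit 15) dC1c_i150))))))))))))))))))))) .leaf) (nat_lit 141313) (nat_lit 444) (.p (nat_lit 238) (nat_lit 1) .z) .df .leaf) (nat_lit 141314) (nat_lit 579) (.p (nat_lit 266) (nat_lit 1) .z) .df (.nd (.nd .leaf (nat_lit 141317) (nat_lit 1108) (.n (nat_lit 355) (nat_lit 1) (.p (nat_lit 356) (nat_lit 3) (.n (nat_lit 357) (nat_lit 3) (.p (nat_lit 358) (nat_lit 2) (.n (nat_lit 359) (nat_lit 2) (.n (nat_lit 361) (nat_lit 1) (.n (nat_lit 362) (nat_lit 2) (.p (nat_lit 363) (nat_lit 2) (.p (nat_lit 364) (nat_lit 3) (.n (nat_lit 365) (nat_lit 1) (.n (nat_lit 366) (nat_lit 3) (.n (nat_lit 367) (nat_lit 3) (.p (nat_lit 368) (nat_lit 3) (.p (nat_lit 369) (nat_lit 1) (.p (nat_lit 372) (nat_lit 3) (.p (nat_lit 373) (nat_lit 3) (.p (nat_lit 374) (nat_lit 2) (.n (nat_lit 375) (nat_lit 3) (.p (nat_lit 381) (nat_lit 3) (.p (nat_lit 382) (nat_lit 1) (.n (nat_lit 383) (nat_lit 3) (.p (nat_lit 384) (nat_lit 2) (.n (nat_lit 385) (nat_lit 1) (.n (nat_lit 386) (nat_lit 3) (.p (nat_lit 387) (nat_lit 1) (.p (nat_lit 388) (nat_lit 3) (.n (nat_lit 389) (nat_lit 2) (.n (nat_lit 390) (nat_lit 3) (.n (nat_lit 391) (nat_lit 1) (.n (nat_lit 392) (nat_lit 1) (.n (nat_lit 393) (nat_lit 2) (.p (nat_lit 394) (nat_lit 3) (.p (nat_lit 395) (nat_lit 1) (.n (nat_lit 396) (nat_lit 3) (.n (nat_lit 404) (nat_lit 3) (.n (nat_lit 405) (nat_lit 1) (.p (nat_lit 406) (nat_lit 1) (.p (nat_lit 408) (nat_lit 3) (.p (nat_lit 410) (nat_lit 3) (.p (nat_lit 412) (nat_lit 3) (.n (nat_lit 413) (nat_lit 3) (.n (nat_lit 418) (nat_lit 2) (.n (nat_lit 424) (nat_lit 2) (.p (nat_lit 425) (nat_lit 2) .z)))))))))))))))))))))))))))))))))))))))))))) (.ct dC1c_c548 (nat_lit 1) (nat_lit 14) dC1c_i151) .leaf) (nat_lit 141318) (nat_lit 1326) (.p (nat_lit 426) (nat_lit 1) (.n (nat_lit 427) (nat_lit 3) (.p (nat_lit 429) (nat_lit 1) (.p (nat_lit 430) (nat_lit 3) (.p (nat_lit 431) (nat_lit 2) (.n (nat_lit 432) (nat_lit 2) (.n (nat_lit 433) (nat_lit 2) (.p (nat_lit 434) (nat_lit 3) (.n (nat_lit 435) (nat_lit 3) (.n (nat_lit 436) (nat_lit 2) (.p (nat_lit 438) (nat_lit 2) (.p (nat_lit 439) (nat_lit 2) (.n (nat_lit 441) (nat_lit 1) (.n (nat_lit 442) (nat_lit 3) (.n (nat_lit 443) (nat_lit 3) (.p (nat_lit 444) (nat_lit 2) (.p (nat_lit 445) (nat_lit 1) (.n (nat_lit 450) (nat_lit 3) (.p (nat_lit 456) (nat_lit 1) (.p (nat_lit 459) (nat_lit 3) .z)))))))))))))))))))) (.ct dC1c_c533 (nat_lit 1) (nat_lit 9) (.s true (nat_lit 1) (nat_lit 61) (nat_lit 2) (nat_lit 2) (nat_lit 2) true (nat_lit 9) true (nat_lit 13) false (nat_lit 3) true (nat_lit 13) true (nat_lit 13) (.e false (nat_lit 2) (nat_lit 266) (nat_lit 2) (nat_lit 13) (.e false (nat_lit 1) (nat_lit 61) (nat_lit 18) (nat_lit 3) (.e false (nat_lit 2) (nat_lit 260) (nat_lit 2) (nat_lit 13) (.e false (nat_lit 2) (nat_lit 262) (nat_lit 2) (nat_lit 13) (.e false (nat_lit 2) (nat_lit 263) (nat_lit 2) (nat_lit 13) (.e true (nat_lit 1) (nat_lit 264) (nat_lit 2) (nat_lit 13) (.e false (nat_lit 3) (nat_lit 265) (nat_lit 2) (nat_lit 13) (.e true (nat_lit 1) (nat_lit 267) (nat_lit 2) (nat_lit 13) (.e false (nat_lit 3) (nat_lit 268) (nat_lit 2) (nat_lit 13) (.e false (nat_lit 3) (nat_lit 269) (nat_lit 2) (nat_lit 13) (.e false (nat_lit 1) (nat_lit 270) (nat_lit 2) (nat_lit 13) (.e false (nat_lit 2) (nat_lit 271) (nat_lit 2) (nat_lit 13) (.e true (nat_lit 3) (nat_lit 272) (nat_lit 2) (nat_lit 13) (.e false (nat_lit 3) (nat_lit 273) (nat_lit 2) (nat_lit 13) (.e false (nat_lit 1) (nat_lit 274) (nat_lit 2) (nat_lit 13) (.e true (nat_lit 1) (nat_lit 277) (nat_lit 2) (nat_lit 13) (.e false (nat_lit 1) (nat_lit 278) (nat_lit 2) (nat_lit 13) (.e false (nat_lit 2) (nat_lit 279) (nat_lit 2) (nat_lit 13) (.e false (nat_lit 1) (nat_lit 280) (nat_lit 2) (nat_lit 13) (.e true (nat_lit 3) (nat_lit 286) (nat_lit 2) (nat_lit 13) (.e true (nat_lit 3) (nat_lit 288) (nat_lit 2) (nat_lit 13) (.u (nat_lit 2) (.p (nat_lit 0) (nat_lit 4) (.p (nat_lit 1) (nat_lit 1) (.n (nat_lit 2) (nat_lit 5) (.n (nat_lit 3) (nat_lit 1) (.p (nat_lit 4) (nat_lit 3) (.p (nat_lit 5) (nat_lit 1) (.p (nat_lit 6) (nat_lit 1) (.p (nat_lit 7) (nat_lit 1) (.n (nat_lit 8) (nat_lit 5) (.p (nat_lit 10) (nat_lit 2) (.n (nat_lit 12) (nat_lit 6) (.n (nat_lit 13) (nat_lit 2) (.n (nat_lit 15) (nat_lit 1) (.p (nat_lit 16) (nat_lit 1) (.p (nat_lit 17) (nat_lit 3) (.p (nat_lit 18) (nat_lit 1) (.p (nat_lit 19) (nat_lit 2) (.p (nat_lit 21) (nat_lit 1) (.n (nat_lit 22) (nat_lit 1) (.p (nat_lit 23) (nat_lit 1) (.p (nat_lit 24) (nat_lit 1) (.n (nat_lit 25) (nat_lit 1) (.p (nat_lit 30) (nat_lit 1) (.p (nat_lit 33) (nat_lit 3) .z)))))))))))))))))))))))) .nil)))))))))))))))))))))))) .leaf)))) (nat_lit 142337) (nat_lit 445) (.p (nat_lit 239) (nat_lit 1) .z) .df (.nd (.nd (.nd (.nd (.nd .leaf (nat_lit 142338) (nat_lit 580) (.p (nat_lit 267) (nat_lit 1) .z) .df .leaf) (nat_lit 142341) (nat_lit 999) (.n (nat_lit 355) (nat_lit 2) (.n (nat_lit 356) (nat_lit 2) (.p (nat_lit 357) (nat_lit 1) (.n (nat_lit 358) (nat_lit 3) (.p (nat_lit 359) (nat_lit 3) (.p (nat_lit 361) (nat_lit 2) (.n (nat_lit 362) (nat_lit 2) (.n (nat_lit 363) (nat_lit 1) (.n (nat_lit 364) (nat_lit 1) (.p (nat_lit 365) (nat_lit 3) (.n (nat_lit 366) (nat_lit 3) (.n (nat_lit 367) (nat_lit 3) (.n (nat_lit 369) (nat_lit 3) (.n (nat_lit 370) (nat_lit 2) (.p (nat_lit 372) (nat_lit 3) (.n (nat_lit 373) (nat_lit 2) (.p (nat_lit 374) (nat_lit 1) (.p (nat_lit 375) (nat_lit 1) (.n (nat_lit 381) (nat_lit 1) (.n (nat_lit 382) (nat_lit 1) (.p (nat_lit 383) (nat_lit 2) (.p (nat_lit 385) (nat_lit 2) (.n (nat_lit 386) (nat_lit 2) (.n (nat_lit 387) (nat_lit 1) (.p (nat_lit 388) (nat_lit 2) (.p (nat_lit 390) (nat_lit 3) (.p (nat_lit 391) (nat_lit 3) (.p (nat_lit 392) (nat_lit 2) (.p (nat_lit 393) (nat_lit 2) (.p (nat_lit 395) (nat_lit 1) (.p (nat_lit 396) (nat_lit 3) (.n (nat_lit 419) (nat_lit 1) .z)))))))))))))))))))))))))))))))) (.ct dC1c_c548 (nat_lit 1) (nat_lit 14) (.s false (nat_lit 2) (nat_lit 7) (nat_lit 5) (nat_lit 6) (nat_lit 2) true (nat_lit 6) true (nat_lit 17) true (nat_lit 12) true (nat_lit 14) true (nat_lit 13) (.s true (nat_lit 1) (nat_lit 8) (nat_lit 4) (nat_lit 2) (nat_lit 6) false (nat_lit 2) true (nat_lit 13) true (nat_lit 11) true (nat_lit 15) true (nat_lit 17) (.s true (nat_lit 3) (nat_lit 8) (nat_lit 4) (nat_lit 6) (nat_lit 2) true (nat_lit 7) true (nat_lit 17) true (nat_lit 11) true (nat_lit 15) true (nat_lit 13) (.s true (nat_lit 2) (nat_lit 8) (nat_lit 6) (nat_lit 6) (nat_lit 0) true (nat_lit 7) true (nat_lit 19) true (nat_lit 11) true (nat_lit 13) true (nat_lit 13) (.s true (nat_lit 3) (nat_lit 10) (nat_lit 2) (nat_lit 2) (nat_lit 10) true (nat_lit 0) true (nat_lit 9) true (nat_lit 9) true (nat_lit 17) true (nat_lit 17) (.s false (nat_lit 2) (nat_lit 13) (nat_lit 2) (nat_lit 2) (nat_lit 9) true (nat_lit 1) true (nat_lit 10) true (nat_lit 8) true (nat_lit 17) true (nat_lit 17) (.s true (nat_lit 3) (nat_lit 13) (nat_lit 2) (nat_lit 9) (nat_lit 2) true (nat_lit 13) true (nat_lit 17) true (nat_lit 8) true (nat_lit 17) true (nat_lit 10) (.s false (nat_lit 2) (nat_lit 13) (nat_lit 9) (nat_lit 2) (nat_lit 2) true (nat_lit 1) true (nat_lit 17) true (nat_lit 8) true (nat_lit 10) true (nat_lit 17) (.s false (nat_lit 3) (nat_lit 14) (nat_lit 1) (nat_lit 1) (nat_lit 14) true (nat_lit 0) true (nat_lit 7) true (nat_lit 7) true (nat_lit 18) true (nat_lit 18) (.s true (nat_lit 2) (nat_lit 14) (nat_lit 1) (nat_lit 1) (nat_lit 15) true (nat_lit 0) true (nat_lit 7) true (nat_lit 7) true (nat_lit 18) true (nat_lit 18) (.s false (nat_lit 3) (nat_lit 15) (nat_lit 1) (nat_lit 1) (nat_lit 15) true (nat_lit 0) true (nat_lit 7) true (nat_lit 7) true (nat_lit 18) true (nat_lit 18) (.s false (nat_lit 1) (nat_lit 14) (nat_lit 1) (nat_lit 2) (nat_lit 11) true (nat_lit 2) true (nat_lit 9) true (nat_lit 7) true (nat_lit 18) true (nat_lit 17) dC1c_i161))))))))))))) .leaf) (nat_lit 142342) (nat_lit 1276) (.p (nat_lit 426) (nat_lit 2) (.n (nat_lit 428) (nat_lit 1) (.p (nat_lit 429) (nat_lit 1) (.p (nat_lit 430) (nat_lit 2) (.n (nat_lit 431) (nat_lit 1) (.p (nat_lit 432) (nat_lit 3) (.p (nat_lit 433) (nat_lit 3) (.p (nat_lit 434) (nat_lit 1) (.n (nat_lit 435) (nat_lit 1) (.p (nat_lit 436) (nat_lit 2) (.p (nat_lit 438) (nat_lit 2) (.p (nat_lit 439) (nat_lit 3) (.p (nat_lit 441) (nat_lit 1) (.n (nat_lit 442) (nat_lit 1) (.p (nat_lit 443) (nat_lit 2) (.n (nat_lit 444) (nat_lit 2) (.n (nat_lit 445) (nat_lit 2) (.p (nat_lit 451) (nat_lit 2) (.n (nat_lit 456) (nat_lit 3) (.n (nat_lit 459) (nat_lit 2) .z)))))))))))))))))))) (.ct dC1c_c533 (nat_lit 1) (nat_lit 9) (.s true (nat_lit 2) (nat_lit 10) (nat_lit 6) (nat_lit 4) (nat_lit 2) true (nat_lit 3) true (nat_lit 13) true (nat_lit 6) true (nat_lit 9) true (nat_lit 11) (.s true (nat_lit 2) (nat_lit 11) (nat_lit 6) (nat_lit 4) (nat_lit 2) true (nat_lit 3) true (nat_lit 13) true (nat_lit 6) true (nat_lit 9) true (nat_lit 11) (.s true (nat_lit 2) (nat_lit 15) (nat_lit 2) (nat_lit 2) (nat_lit 10) true (nat_lit 0) true (nat_lit 6) true (nat_lit 5) true (nat_lit 13) true (nat_lit 13) (.s false (nat_lit 2) (nat_lit 15) (nat_lit 2) (nat_lit 2) (nat_lit 12) true (nat_lit 0) true (nat_lit 6) true (nat_lit 5) true (nat_lit 13) true (nat_lit 13) (.s true (nat_lit 1) (nat_lit 14) (nat_lit 10) (nat_lit 2) (nat_lit 2) true (nat_lit 0) true (nat_lit 13) true (nat_lit 5) true (nat_lit 6) true (nat_lit 13) (.s false (nat_lit 2) (nat_lit 14) (nat_lit 12) (nat_lit 2) (nat_lit 2) true (nat_lit 0) true (nat_lit 13) true (nat_lit 5) true (nat_lit 6) true (nat_lit 13) (.s true (nat_lit 3) (nat_lit 15) (nat_lit 10) (nat_lit 2) (nat_lit 2) true (nat_lit 0) true (nat_lit 13) true (nat_lit 5) true (nat_lit 6) true (nat_lit 13) dC1c_i164)))))))) (.nd (.nd .leaf (nat_lit 143361) (nat_lit 446) (.p (nat_lit 240) (nat_lit 1) .z) .df .leaf) (nat_lit 143362) (nat_lit 581) (.p (nat_lit 268) (nat_lit 1) .z) .df .leaf)) (nat_lit 143365) (nat_lit 1165) (.n (nat_lit 355) (nat_lit 2) (.n (nat_lit 356) (nat_lit 2) (.n (nat_lit 357) (nat_lit 3) (.p (nat_lit 358) (nat_lit 3) (.p (nat_lit 359) (nat_lit 3) (.n (nat_lit 360) (nat_lit 3) (.p (nat_lit 361) (nat_lit 2) (.n (nat_lit 362) (nat_lit 1) (.p (nat_lit 363) (nat_lit 1) (.n (nat_lit 364) (nat_lit 3) (.p (nat_lit 366) (nat_lit 3) (.n (nat_lit 368) (nat_lit 1) (.p (nat_lit 369) (nat_lit 2) (.n (nat_lit 370) (nat_lit 3) (.p (nat_lit 372) (nat_lit 1) (.p (nat_lit 374) (nat_lit 1) (.p (nat_lit 381) (nat_lit 3) (.n (nat_lit 382) (nat_lit 2) (.n (nat_lit 383) (nat_lit 3) (.n (nat_lit 385) (nat_lit 3) (.n (nat_lit 387) (nat_lit 2) (.p (nat_lit 388) (nat_lit 1) (.p (nat_lit 392) (nat_lit 3) (.p (nat_lit 393) (nat_lit 1) (.n (nat_lit 395) (nat_lit 3) (.n (nat_lit 396) (nat_lit 2) (.n (nat_lit 404) (nat_lit 3) (.n (nat_lit 405) (nat_lit 1) (.p (nat_lit 406) (nat_lit 1) (.p (nat_lit 409) (nat_lit 3) (.p (nat_lit 410) (nat_lit 3) (.n (nat_lit 412) (nat_lit 1) (.p (nat_lit 413) (nat_lit 1) (.n (nat_lit 415) (nat_lit 1) (.n (nat_lit 416) (nat_lit 1) (.p (nat_lit 417) (nat_lit 1) (.p (nat_lit 424) (nat_lit 3) (.n (nat_lit 425) (nat_lit 3) .z)))))))))))))))))))))))))))))))))))))) (.ct dC1c_c548 (nat_lit 1) (nat_lit 14) dC1c_i168) (.nd (.nd (.nd .leaf (nat_lit 143366) (nat_lit 1271) (.n (nat_lit 428) (nat_lit 2) (.n (nat_lit 429) (nat_lit 3) (.p (nat_lit 430) (nat_lit 3) (.n (nat_lit 432) (nat_lit 3) (.n (nat_lit 433) (nat_lit 3) (.n (nat_lit 435) (nat_lit 2) (.n (nat_lit 436) (nat_lit 1) (.p (nat_lit 438) (nat_lit 2) (.p (nat_lit 441) (nat_lit 2) (.n (nat_lit 442) (nat_lit 1) (.p (nat_lit 443) (nat_lit 1) (.p (nat_lit 444) (nat_lit 3) (.p (nat_lit 445) (nat_lit 1) (.p (nat_lit 447) (nat_lit 2) (.n (nat_lit 448) (nat_lit 2) (.n (nat_lit 449) (nat_lit 1) (.p (nat_lit 450) (nat_lit 1) (.p (nat_lit 456) (nat_lit 3) (.n (nat_lit 459) (nat_lit 1) .z))))))))))))))))))) (.ct dC1c_c533 (nat_lit 1) (nat_lit 9) (.s false (nat_lit 2) (nat_lit 9) (nat_lit 6) (nat_lit 1) (nat_lit 6) false (nat_lit 2) true (nat_lit 9) true (nat_lit 7) true (nat_lit 9) true (nat_lit 14) (.s true (nat_lit 3) (nat_lit 9) (nat_lit 6) (nat_lit 5) (nat_lit 2) true (nat_lit 3) true (nat_lit 13) true (nat_lit 7) true (nat_lit 9) true (nat_lit 10) (.s false (nat_lit 1) (nat_lit 10) (nat_lit 6) (nat_lit 4) (nat_lit 2) true (nat_lit 3) true (nat_lit 13) true (nat_lit 6) true (nat_lit 9) true (nat_lit 11) (.s false (nat_lit 1) (nat_lit 11) (nat_lit 6) (nat_lit 4) (nat_lit 2) true (nat_lit 3) true (nat_lit 13) true (nat_lit 6) true (nat_lit 9) true (nat_lit 11) (.s true (nat_lit 1) (nat_lit 14) (nat_lit 2) (nat_lit 2) (nat_lit 11) true (nat_lit 0) true (nat_lit 6) true (nat_lit 5) true (nat_lit 13) true (nat_lit 13) dC1c_i173)))))) .leaf) (nat_lit 144385) (nat_lit 447) (.p (nat_lit 241) (nat_lit 1) .z) .df .leaf) (nat_lit 144386) (nat_lit 582) (.p (nat_lit 269) (nat_lit 1) .z) .df (.nd (.nd .leaf (nat_lit 144389) (nat_lit 1080) (.p (nat_lit 355) (nat_lit 3) (.n (nat_lit 356) (nat_lit 2) (.p (nat_lit 357) (nat_lit 2) (.n (nat_lit 358) (nat_lit 3) (.n (nat_lit 359) (nat_lit 2) (.n (nat_lit 360) (nat_lit 2) (.n (nat_lit 361) (nat_lit 3) (.p (nat_lit 363) (nat_lit 1) (.p (nat_lit 364) (nat_lit 2) (.n (nat_lit 365) (nat_lit 2) (.p (nat_lit 366) (nat_lit 3) (.n (nat_lit 367) (nat_lit 2) (.p (nat_lit 368) (nat_lit 3) (.p (nat_lit 369) (nat_lit 2) (.p (nat_lit 370) (nat_lit 3) (.n (nat_lit 372) (nat_lit 3) (.n (nat_lit 373) (nat_lit 3) (.p (nat_lit 374) (nat_lit 3) (.n (nat_lit 381) (nat_lit 3) (.n (nat_lit 382) (nat_lit 3) (.p (nat_lit 386) (nat_lit 2) (.n (nat_lit 387) (nat_lit 1) (.n (nat_lit 388) (nat_lit 1) (.p (nat_lit 389) (nat_lit 1) (.n (nat_lit 391) (nat_lit 2) (.p (nat_lit 392) (nat_lit 1) (.n (nat_lit 393) (nat_lit 2) (.p (nat_lit 394) (nat_lit 2) (.n (nat_lit 395) (nat_lit 2) (.n (nat_lit 396) (nat_lit 3) (.n (nat_lit 404) (nat_lit 3) (.n (nat_lit 405) (nat_lit 1) (.p (nat_lit 406) (nat_lit 1) (.p (nat_lit 408) (nat_lit 3) (.p (nat_lit 410) (nat_lit 3) (.p (nat_lit 412) (nat_lit 3) (.n (nat_lit 413) (nat_lit 3) (.n (nat_lit 415) (nat_lit 2) (.n (nat_lit 418) (nat_lit 2) (.p (nat_lit 419) (nat_lit 2) (.n (nat_lit 424) (nat_lit 2) (.p (nat_lit 425) (nat_lit 2) .z)))))))))))))))))))))))))))))))))))))))))) (.ct dC1c_c548 (nat_lit 1) (nat_lit 14) (.s true (nat_lit 1) (nat_lit 64) (nat_lit 1) (nat_lit 2) (nat_lit 2) true (nat_lit 14) true (nat_lit 17) false (nat_lit 6) true (nat_lit 18) true (nat_lit 17) (.e true (nat_lit 1) (nat_lit 213) (nat_lit 2) (nat_lit 17) (.e false (nat_lit 2) (nat_lit 214) (nat_lit 2) (nat_lit 17) (.e false (nat_lit 3) (nat_lit 215) (nat_lit 2) (nat_lit 17) (.e true (nat_lit 3) (nat_lit 216) (nat_lit 2) (nat_lit 17) (.e true (nat_lit 3) (nat_lit 217) (nat_lit 2) (nat_lit 17) (.e true (nat_lit 2) (nat_lit 219) (nat_lit 2) (nat_lit 17) (.e true (nat_lit 2) (nat_lit 220) (nat_lit 2) (nat_lit 17) (.e true (nat_lit 1) (nat_lit 221) (nat_lit 2) (nat_lit 17) (.e true (nat_lit 1) (nat_lit 222) (nat_lit 2) (nat_lit 17) (.e true (nat_lit 3) (nat_lit 223) (nat_lit 2) (nat_lit 17) dC1c_i175)))))))))))) .leaf) (nat_lit 144390) (nat_lit 1324) (.n (nat_lit 426) (nat_lit 2) (.p (nat_lit 427) (nat_lit 3) (.p (nat_lit 428) (nat_lit 2) (.n (nat_lit 429) (nat_lit 3) (.p (nat_lit 430) (nat_lit 3) (.n (nat_lit 431) (nat_lit 2) (.n (nat_lit 432) (nat_lit 1) (.n (nat_lit 433) (nat_lit 1) (.n (nat_lit 434) (nat_lit 1) (.n (nat_lit 435) (nat_lit 1) (.n (nat_lit 436) (nat_lit 3) (.n (nat_lit 438) (nat_lit 3) (.n (nat_lit 439) (nat_lit 2) (.n (nat_lit 441) (nat_lit 2) (.n (nat_lit 442) (nat_lit 3) (.p (nat_lit 443) (nat_lit 1) (.n (nat_lit 444) (nat_lit 3) (.n (nat_lit 445) (nat_lit 1) (.n (nat_lit 450) (nat_lit 3) (.p (nat_lit 451) (nat_lit 3) (.n (nat_lit 456) (nat_lit 2) (.p (nat_lit 459) (nat_lit 2) .z)))))))))))))))))))))) (.ct dC1c_c533 (nat_lit 1) (nat_lit 9) (.s true (nat_lit 1) (nat_lit 64) (nat_lit 2) (nat_lit 2) (nat_lit 2) true (nat_lit 9) true (nat_lit 13) false (nat_lit 3) true (nat_lit 13) true (nat_lit 13) (.e true (nat_lit 3) (nat_lit 269) (nat_lit 2) (nat_lit 13) (.e false (nat_lit 1) (nat_lit 64) (nat_lit 18) (nat_lit 3) (.e false (nat_lit 2) (nat_lit 260) (nat_lit 2) (nat_lit 13) (.e true (nat_lit 3) (nat_lit 261) (nat_lit 2) (nat_lit 13) (.e true (nat_lit 3) (nat_lit 262) (nat_lit 2) (nat_lit 13) (.e false (nat_lit 2) (nat_lit 263) (nat_lit 2) (nat_lit 13) (.e true (nat_lit 2) (nat_lit 264) (nat_lit 2) (nat_lit 13) (.e false (nat_lit 1) (nat_lit 265) (nat_lit 2) (nat_lit 13) (.e false (nat_lit 1) (nat_lit 266) (nat_lit 2) (nat_lit 13) (.e true (nat_lit 3) (nat_lit 267) (nat_lit 2) (nat_lit 13) (.e false (nat_lit 3) (nat_lit 271) (nat_lit 2) (nat_lit 13) (.e true (nat_lit 1) (nat_lit 272) (nat_lit 2) (nat_lit 13) (.e false (nat_lit 1) (nat_lit 273) (nat_lit 2) (nat_lit 13) (.e true (nat_lit 2) (nat_lit 274) (nat_lit 2) (nat_lit 13) (.e true (nat_lit 3) (nat_lit 277) (nat_lit 2) (nat_lit 13) (.e true (nat_lit 3) (nat_lit 278) (nat_lit 2) (nat_lit 13) (.e false (nat_lit 1) (nat_lit 279) (nat_lit 2) (nat_lit 13) (.e true (nat_lit 2) (nat_lit 280) (nat_lit 2) (nat_lit 13) (.e true (nat_lit 1) (nat_lit 286) (nat_lit 2) (nat_lit 13) (.e true (nat_lit 1) (nat_lit 288) (nat_lit 2) (nat_lit 13) (.u (nat_lit 2) (.p (nat_lit 1) (nat_lit 1) (.n (nat_lit 2) (nat_lit 1) (.p (nat_lit 3) (nat_lit 1) (.n (nat_lit 4) (nat_lit 2) (.n (nat_lit 5) (nat_lit 2) (.p (nat_lit 9) (nat_lit 1) (.p (nat_lit 12) (nat_lit 1) (.p (nat_lit 13) (nat_lit 2) (.n (nat_lit 15) (nat_lit 3) (.p (nat_lit 16) (nat_lit 1) (.n (nat_lit 18) (nat_lit 2) (.p (nat_lit 19) (nat_lit 1) (.n (nat_lit 21) (nat_lit 1) (.n (nat_lit 22) (nat_lit 1) (.p (nat_lit 26) (nat_lit 1) (.p (nat_lit 27) (nat_lit 1) (.n (nat_lit 30) (nat_lit 2) (.p (nat_lit 33) (nat_lit 1) .z)))))))))))))))))) .nil))))))))))))))))))))))) .leaf))) (nat_lit 145409) (nat_lit 448) (.p (nat_lit 242) (nat_lit 1) .z) .df (.nd (.nd (.nd (.nd .leaf (nat_lit 145410) (nat_lit 583) (.p (nat_lit 270) (nat_lit 1) .z) .df .leaf) (nat_lit 145413) (nat_lit 1138) (.p (nat_lit 356) (nat_lit 2) (.p (nat_lit 357) (nat_lit 1) (.n (nat_lit 358) (nat_lit 2) (.n (nat_lit 359) (nat_lit 2) (.n (nat_lit 360) (nat_lit 1) (.n (nat_lit 361) (nat_lit 2) (.p (nat_lit 362) (nat_lit 2) (.p (nat_lit 363) (nat_lit 3) (.n (nat_lit 365) (nat_lit 2) (.p (nat_lit 367) (nat_lit 2) (.p (nat_lit 369) (nat_lit 1) (.n (nat_lit 370) (nat_lit 1) (.p (nat_lit 372) (nat_lit 2) (.n (nat_lit 373) (nat_lit 1) (.p (nat_lit 374) (nat_lit 1) (.n (nat_lit 375) (nat_lit 1) (.p (nat_lit 381) (nat_lit 2) (.p (nat_lit 382) (nat_lit 1) (.p (nat_lit 383) (nat_lit 2) (.p (nat_lit 385) (nat_lit 2) (.n (nat_lit 386) (nat_lit 2) (.n (nat_lit 387) (nat_lit 2) (.p (nat_lit 388) (nat_lit 2) (.p (nat_lit 390) (nat_lit 3) (.n (nat_lit 392) (nat_lit 2) (.n (nat_lit 393) (nat_lit 3) (.n (nat_lit 394) (nat_lit 3) (.n (nat_lit 396) (nat_lit 1) (.n (nat_lit 415) (nat_lit 2) .z))))))))))))))))))))))))))))) (.ct dC1c_c548 (nat_lit 1) (nat_lit 14) (.s true (nat_lit 1) (nat_lit 65) (nat_lit 2) (nat_lit 2) (nat_lit 1) true (nat_lit 14) true (nat_lit 18) false (nat_lit 6) true (nat_lit 17) true (nat_lit 17) (.e true (nat_lit 1) (nat_lit 270) (nat_lit 1) (nat_lit 18) (.e false (nat_lit 1) (nat_lit 65) (nat_lit 17) (nat_lit 6) (.e true (nat_lit 1) (nat_lit 212) (nat_lit 2) (nat_lit 17) (.e true (nat_lit 3) (nat_lit 216) (nat_lit 2) (nat_lit 17) (.e true (nat_lit 3) (nat_lit 217) (nat_lit 2) (nat_lit 17) (.e false (nat_lit 3) (nat_lit 218) (nat_lit 2) (nat_lit 17) (.e false (nat_lit 1) (nat_lit 219) (nat_lit 2) (nat_lit 17) (.e true (nat_lit 2) (nat_lit 220) (nat_lit 2) (nat_lit 17) (.e false (nat_lit 3) (nat_lit 221) (nat_lit 2) (nat_lit 17) (.e true (nat_lit 2) (nat_lit 223) (nat_lit 2) (nat_lit 17) (.e true (nat_lit 3) (nat_lit 224) (nat_lit 2) (nat_lit 17) (.e false (nat_lit 3) (nat_lit 225) (nat_lit 2) (nat_lit 17) (.e true (nat_lit 1) (nat_lit 226) (nat_lit 2) (nat_lit 17) dC1c_i176))))))))))))))) .leaf) (nat_lit 145414) (nat_lit 1248) (.p (nat_lit 459) (nat_lit 1) .z) .df (.nd (.nd .leaf (nat_lit 146433) (nat_lit 449) (.p (nat_lit 243) (nat_lit 1) .z) .df .leaf) (nat_lit 146434) (nat_lit 584) (.p (nat_lit 271) (nat_lit 1) .z) .df .leaf)) (nat_lit 146437) (nat_lit 986) (.p (nat_lit 424) (nat_lit 1) .z) .df (.nd (.nd (.nd .leaf (nat_lit 146438) (nat_lit 1336) (.n (nat_lit 426) (nat_lit 2) (.p (nat_lit 427) (nat_lit 2) (.p (nat_lit 429) (nat_lit 3) (.n (nat_lit 430) (nat_lit 2) (.p (nat_lit 431) (nat_lit 2) (.n (nat_lit 432) (nat_lit 1) (.n (nat_lit 433) (nat_lit 1) (.n (nat_lit 434) (nat_lit 2) (.p (nat_lit 436) (nat_lit 3) (.p (nat_lit 438) (nat_lit 3) (.n (nat_lit 439) (nat_lit 3) (.n (nat_lit 441) (nat_lit 3) (.p (nat_lit 443) (nat_lit 3) (.n (nat_lit 444) (nat_lit 1) (.n (nat_lit 445) (nat_lit 2) (.p (nat_lit 452) (nat_lit 2) (.n (nat_lit 456) (nat_lit 3) (.n (nat_lit 459) (nat_lit 2) .z)))))))))))))))))) (.ct dC1c_c533 (nat_lit 1) (nat_lit 9) (.s false (nat_lit 3) (nat_lit 9) (nat_lit 6) (nat_lit 1) (nat_lit 6) false (nat_lit 2) true (nat_lit 9) true (nat_lit 7) true (nat_lit 9) true (nat_lit 14) (.s true (nat_lit 1) (nat_lit 16) (nat_lit 9) (nat_lit 2) (nat_lit 2) true (nat_lit 1) true (nat_lit 13) true (nat_lit 4) true (nat_lit 7) true (nat_lit 13) (.s false (nat_lit 1) (nat_lit 18) (nat_lit 2) (nat_lit 1) (nat_lit 9) true (nat_lit 1) true (nat_lit 7) true (nat_lit 3) true (nat_lit 13) true (nat_lit 14) (.s false (nat_lit 1) (nat_lit 28) (nat_lit 2) (nat_lit 5) (nat_lit 2) true (nat_lit 9) true (nat_lit 13) true (nat_lit 1) true (nat_lit 13) true (nat_lit 10) (.e true (nat_lit 1) (nat_lit 136) (nat_lit 6) (nat_lit 9) (.e true (nat_lit 3) (nat_lit 150) (nat_lit 6) (nat_lit 9) (.e true (nat_lit 1) (nat_lit 104) (nat_lit 9) (nat_lit 7) (.e true (nat_lit 3) (nat_lit 323) (nat_lit 1) (nat_lit 14) (.e true (nat_lit 2) (nat_lit 324) (nat_lit 1) (nat_lit 14) (.e true (nat_lit 1) (nat_lit 321) (nat_lit 1) (nat_lit 14) (.e true (nat_lit 3) (nat_lit 322) (nat_lit 1) (nat_lit 14) (.e true (nat_lit 1) (nat_lit 260) (nat_lit 2) (nat_lit 13) (.e true (nat_lit 1) (nat_lit 264) (nat_lit 2) (nat_lit 13) (.e false (nat_lit 2) (nat_lit 265) (nat_lit 2) (nat_lit 13) (.e true (nat_lit 1) (nat_lit 266) (nat_lit 2) (nat_lit 13) (.e true (nat_lit 3) (nat_lit 267) (nat_lit 2) (nat_lit 13) (.e true (nat_lit 1) (nat_lit 268) (nat_lit 2) (nat_lit 13) (.e false (nat_lit 2) (nat_lit 269) (nat_lit 2) (nat_lit 13) (.e false (nat_lit 1) (nat_lit 271) (nat_lit 2) (nat_lit 13) dC1c_i177)))))))))))))))))))) .leaf) (nat_lit 147457) (nat_lit 450) (.p (nat_lit 244) (nat_lit 1) .z) .df .leaf) (nat_lit 147458) (nat_lit 585) (.p (nat_lit 272) (nat_lit 1) .z) .df (.nd (.nd .leaf (nat_lit 147461) (nat_lit 987) (.p (nat_lit 425) (nat_lit 1) .z) .df .leaf) (nat_lit 148481) (nat_lit 451) (.p (nat_lit 245) (nat_lit 1) .z) .df .leaf))))))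

noncomputable def dC1c_t4 : Tr := (.nd (.nd (.nd (.nd (.nd (.nd (.nd .leaf (nat_lit 148485) (nat_lit 1054) (.n (nat_lit 355) (nat_lit 1) (.n (nat_lit 356) (nat_lit 2) (.p (nat_lit 357) (nat_lit 2) (.p (nat_lit 358) (nat_lit 2) (.p (nat_lit 359) (nat_lit 1) (.n (nat_lit 361) (nat_lit 3) (.p (nat_lit 362) (nat_lit 3) (.p (nat_lit 363) (nat_lit 2) (.n (nat_lit 365) (nat_lit 1) (.p (nat_lit 367) (nat_lit 1) (.p (nat_lit 369) (nat_lit 3) (.p (nat_lit 370) (nat_lit 3) (.p (nat_lit 372) (nat_lit 2) (.p (nat_lit 373) (nat_lit 2) (.n (nat_lit 374) (nat_lit 2) (.n (nat_lit 375) (nat_lit 3) (.n (nat_lit 381) (nat_lit 2) (.p (nat_lit 382) (nat_lit 1) (.n (nat_lit 383) (nat_lit 1) (.n (nat_lit 384) (nat_lit 1) (.n (nat_lit 385) (nat_lit 2) (.n (nat_lit 386) (nat_lit 2) (.p (nat_lit 387) (nat_lit 3) (.p (nat_lit 388) (nat_lit 1) (.n (nat_lit 389) (nat_lit 3) (.p (nat_lit 390) (nat_lit 3) (.p (nat_lit 391) (nat_lit 2) (.n (nat_lit 392) (nat_lit 3) (.p (nat_lit 393) (nat_lit 3) (.p (nat_lit 394) (nat_lit 3) (.p (nat_lit 396) (nat_lit 1) (.n (nat_lit 404) (nat_lit 3) (.n (nat_lit 405) (nat_lit 1) (.p (nat_lit 406) (nat_lit 1) (.n (nat_lit 408) (nat_lit 1) (.n (nat_lit 409) (nat_lit 3) (.p (nat_lit 410) (nat_lit 3) (.p (nat_lit 425) (nat_lit 2) .z)))))))))))))))))))))))))))))))))))))) (.ct dC1c_c548 (nat_lit 1) (nat_lit 14) (.s false (nat_lit 1) (nat_lit 79) (nat_lit 2) (nat_lit 1) (nat_lit 1) true (nat_lit 14) true (nat_lit 18) false (nat_lit 8) true (nat_lit 17) true (nat_lit 18) (.e true (nat_lit 3) (nat_lit 260) (nat_lit 1) (nat_lit 18) (.e false (nat_lit 3) (nat_lit 262) (nat_lit 1) (nat_lit 18) (.e true (nat_lit 2) (nat_lit 263) (nat_lit 1) (nat_lit 18) (.e true (nat_lit 3) (nat_lit 264) (nat_lit 1) (nat_lit 18) (.e true (nat_lit 1) (nat_lit 265) (nat_lit 1) (nat_lit 18) (.e true (nat_lit 3) (nat_lit 266) (nat_lit 1) (nat_lit 18) (.e false (nat_lit 2) (nat_lit 271) (nat_lit 1) (nat_lit 18) (.e true (nat_lit 3) (nat_lit 272) (nat_lit 1) (nat_lit 18) (.e true (nat_lit 3) (nat_lit 273) (nat_lit 1) (nat_lit 18) (.e true (nat_lit 2) (nat_lit 277) (nat_lit 1) (nat_lit 18) (.e false (nat_lit 1) (nat_lit 278) (nat_lit 1) (nat_lit 18) (.e true (nat_lit 3) (nat_lit 280) (nat_lit 1) (nat_lit 18) (.e false (nat_lit 1) (nat_lit 281) (nat_lit 1) (nat_lit 18) (.e false (nat_lit 2) (nat_lit 282) (nat_lit 1) (nat_lit 18) (.e false (nat_lit 1) (nat_lit 286) (nat_lit 1) (nat_lit 18) (.e true (nat_lit 1) (nat_lit 289) (nat_lit 1) (nat_lit 18) (.e true (nat_lit 1) (nat_lit 79) (nat_lit 13) (nat_lit 8) (.u (nat_lit 2) (.p (nat_lit 0) (nat_lit 1) (.p (nat_lit 1) (nat_lit 1) (.n (nat_lit 8) (nat_lit 2) (.p (nat_lit 10) (nat_lit 1) (.p (nat_lit 11) (nat_lit 2) (.p (nat_lit 12) (nat_lit 1) (.n (nat_lit 14) (nat_lit 1) (.n (nat_lit 17) (nat_lit 1) (.n (nat_lit 18) (nat_lit 2) (.p (nat_lit 20) (nat_lit 1) (.p (nat_lit 26) (nat_lit 1) (.n (nat_lit 27) (nat_lit 1) (.p (nat_lit 29) (nat_lit 2) (.p (nat_lit 30) (nat_lit 1) (.p (nat_lit 32) (nat_lit 1) (.p (nat_lit 33) (nat_lit 1) (.n (nat_lit 34) (nat_lit 1) (.n (nat_lit 35) (nat_lit 1) (.p (nat_lit 36) (nat_lit 1) (.p (nat_lit 37) (nat_lit 1) (.p (nat_lit 38) (nat_lit 1) (.n (nat_lit 39) (nat_lit 1) (.n (nat_lit 40) (nat_lit 2) .z))))))))))))))))))))))) .nil)))))))))))))))))))) .leaf) (nat_lit 148486) (nat_lit 1392) (.n (nat_lit 426) (nat_lit 2) (.n (nat_lit 427) (nat_lit 2) (.n (nat_lit 428) (nat_lit 3) (.n (nat_lit 429) (nat_lit 3) (.n (nat_lit 430) (nat_lit 2) (.p (nat_lit 431) (nat_lit 3) (.n (nat_lit 432) (nat_lit 3) (.n (nat_lit 433) (nat_lit 3) (.n (nat_lit 434) (nat_lit 1) (.p (nat_lit 436) (nat_lit 3) (.p (nat_lit 438) (nat_lit 1) (.p (nat_lit 441) (nat_lit 2) (.p (nat_lit 442) (nat_lit 1) (.n (nat_lit 443) (nat_lit 3) (.p (nat_lit 444) (nat_lit 3) (.n (nat_lit 453) (nat_lit 3) (.n (nat_lit 456) (nat_lit 2) (.p (nat_lit 459) (nat_lit 1) .z)))))))))))))))))) (.ct dC1c_c533 (nat_lit 1) (nat_lit 9) (.s false (nat_lit 1) (nat_lit 79) (nat_lit 2) (nat_lit 1) (nat_lit 2) true (nat_lit 9) true (nat_lit 13) false (nat_lit 4) true (nat_lit 13) true (nat_lit 14) (.e true (nat_lit 3) (nat_lit 260) (nat_lit 2) (nat_lit 13) (.e true (nat_lit 3) (nat_lit 262) (nat_lit 2) (nat_lit 13) (.e true (nat_lit 3) (nat_lit 263) (nat_lit 2) (nat_lit 13) (.e true (nat_lit 1) (nat_lit 264) (nat_lit 2) (nat_lit 13) (.e true (nat_lit 2) (nat_lit 271) (nat_lit 2) (nat_lit 13) (.e false (nat_lit 3) (nat_lit 273) (nat_lit 2) (nat_lit 13) (.e false (nat_lit 2) (nat_lit 277) (nat_lit 2) (nat_lit 13) (.e true (nat_lit 1) (nat_lit 278) (nat_lit 2) (nat_lit 13) (.e true (nat_lit 1) (nat_lit 280) (nat_lit 2) (nat_lit 13) (.e false (nat_lit 1) (nat_lit 286) (nat_lit 2) (nat_lit 13) (.e true (nat_lit 1) (nat_lit 79) (nat_lit 16) (nat_lit 4) (.e false (nat_lit 2) (nat_lit 261) (nat_lit 2) (nat_lit 13) (.e true (nat_lit 1) (nat_lit 274) (nat_lit 2) (nat_lit 13) (.e true (nat_lit 1) (nat_lit 279) (nat_lit 2) (nat_lit 13) (.e true (nat_lit 2) (nat_lit 287) (nat_lit 2) (nat_lit 13) (.e false (nat_lit 3) (nat_lit 288) (nat_lit 2) (nat_lit 13) (.e false (nat_lit 1) (nat_lit 322) (nat_lit 1) (nat_lit 14) (.u (nat_lit 2) (.n (nat_lit 0) (nat_lit 4) (.p (nat_lit 1) (nat_lit 1) (.p (nat_lit 2) (nat_lit 3) (.n (nat_lit 3) (nat_lit 2) (.n (nat_lit 4) (nat_lit 4) (.p (nat_lit 5) (nat_lit 1) (.p (nat_lit 6) (nat_lit 3) (.p (nat_lit 7) (nat_lit 3) (.p (nat_lit 8) (nat_lit 2) (.p (nat_lit 9) (nat_lit 3) (.n (nat_lit 10) (nat_lit 1) (.p (nat_lit 12) (nat_lit 1) (.p (nat_lit 13) (nat_lit 4) (.p (nat_lit 15) (nat_lit 4) (.n (nat_lit 16) (nat_lit 3) (.p (nat_lit 17) (nat_lit 2) (.p (nat_lit 18) (nat_lit 1) (.n (nat_lit 21) (nat_lit 1) (.p (nat_lit 22) (nat_lit 1) (.p (nat_lit 27) (nat_lit 2) (.p (nat_lit 30) (nat_lit 1) (.n (nat_lit 33) (nat_lit 3) (.p (nat_lit 175) (nat_lit 1) (.p (nat_lit 184) (nat_lit 1) (.n (nat_lit 186) (nat_lit 1) (.n (nat_lit 190) (nat_lit 1) .z)))))))))))))))))))))))))) .nil)))))))))))))))))))) (.nd .leaf (nat_lit 149505) (nat_lit 507) (.n (nat_lit 212) (nat_lit 1) (.p (nat_lit 213) (nat_lit 3) (.n (nat_lit 214) (nat_lit 3) (.n (nat_lit 215) (nat_lit 1) (.p (nat_lit 216) (nat_lit 2) (.n (nat_lit 217) (nat_lit 3) (.n (nat_lit 218) (nat_lit 3) (.p (nat_lit 219) (nat_lit 3) (.n (nat_lit 220) (nat_lit 3) (.n (nat_lit 221) (nat_lit 2) (.p (nat_lit 222) (nat_lit 2) (.p (nat_lit 224) (nat_lit 3) (.p (nat_lit 227) (nat_lit 2) (.p (nat_lit 229) (nat_lit 2) (.n (nat_lit 232) (nat_lit 2) (.n (nat_lit 236) (nat_lit 3) (.p (nat_lit 237) (nat_lit 3) (.n (nat_lit 238) (nat_lit 2) (.p (nat_lit 239) (nat_lit 1) (.n (nat_lit 241) (nat_lit 3) (.n (nat_lit 242) (nat_lit 3) (.p (nat_lit 244) (nat_lit 2) (.p (nat_lit 245) (nat_lit 1) (.n (nat_lit 248) (nat_lit 3) .z)))))))))))))))))))))))) (.ct dC1c_c547 (nat_lit 1) (nat_lit 13) (.s true (nat_lit 3) (nat_lit 41) (nat_lit 1) (nat_lit 0) (nat_lit 1) false (nat_lit 16) true (nat_lit 13) false (nat_lit 6) true (nat_lit 13) true (nat_lit 14) (.e true (nat_lit 1) (nat_lit 132) (nat_lit 1) (nat_lit 13) (.e true (nat_lit 1) (nat_lit 133) (nat_lit 1) (nat_lit 13) (.e true (nat_lit 2) (nat_lit 134) (nat_lit 1) (nat_lit 13) (.e true (nat_lit 1) (nat_lit 135) (nat_lit 1) (nat_lit 13) (.e false (nat_lit 2) (nat_lit 138) (nat_lit 1) (nat_lit 13) (.e true (nat_lit 2) (nat_lit 139) (nat_lit 1) (nat_lit 13) (.e true (nat_lit 2) (nat_lit 143) (nat_lit 1) (nat_lit 13) (.e true (nat_lit 1) (nat_lit 144) (nat_lit 1) (nat_lit 13) (.e false (nat_lit 3) (nat_lit 151) (nat_lit 1) (nat_lit 13) (.e false (nat_lit 3) (nat_lit 152) (nat_lit 1) (nat_lit 13) (.e false (nat_lit 1) (nat_lit 140) (nat_lit 1) (nat_lit 13) (.e false (nat_lit 2) (nat_lit 147) (nat_lit 1) (nat_lit 13) (.e true (nat_lit 2) (nat_lit 149) (nat_lit 1) (nat_lit 13) dC1c_i178))))))))))))))) .leaf)) (nat_lit 149506) (nat_lit 587) (.p (nat_lit 274) (nat_lit 1) .z) .df (.nd (.nd .leaf (nat_lit 149509) (nat_lit 1074) (.n (nat_lit 355) (nat_lit 3) (.n (nat_lit 357) (nat_lit 3) (.n (nat_lit 358) (nat_lit 2) (.n (nat_lit 359) (nat_lit 3) (.n (nat_lit 361) (nat_lit 1) (.p (nat_lit 362) (nat_lit 1) (.n (nat_lit 363) (nat_lit 1) (.p (nat_lit 364) (nat_lit 2) (.p (nat_lit 365) (nat_lit 2) (.n (nat_lit 366) (nat_lit 2) (.n (nat_lit 367) (nat_lit 1) (.n (nat_lit 369) (nat_lit 2) (.n (nat_lit 370) (nat_lit 3) (.p (nat_lit 372) (nat_lit 3) (.n (nat_lit 373) (nat_lit 3) (.n (nat_lit 374) (nat_lit 1) (.p (nat_lit 375) (nat_lit 3) (.p (nat_lit 381) (nat_lit 3) (.p (nat_lit 383) (nat_lit 1) (.p (nat_lit 384) (nat_lit 3) (.n (nat_lit 385) (nat_lit 3) (.p (nat_lit 386) (nat_lit 1) (.n (nat_lit 388) (nat_lit 1) (.p (nat_lit 389) (nat_lit 1) (.p (nat_lit 390) (nat_lit 2) (.n (nat_lit 391) (nat_lit 3) (.p (nat_lit 393) (nat_lit 1) (.n (nat_lit 395) (nat_lit 3) (.n (nat_lit 396) (nat_lit 2) (.p (nat_lit 404) (nat_lit 3) (.p (nat_lit 405) (nat_lit 1) (.n (nat_lit 406) (nat_lit 1) (.p (nat_lit 408) (nat_lit 1) (.p (nat_lit 409) (nat_lit 3) (.n (nat_lit 410) (nat_lit 3) (.n (nat_lit 424) (nat_lit 3) (.n (nat_lit 425) (nat_lit 3) .z))))))))))))))))))))))))))))))))))))) (.ct dC1c_c548 (nat_lit 1) (nat_lit 14) (.s false (nat_lit 1) (nat_lit 80) (nat_lit 2) (nat_lit 1) (nat_lit 1) true (nat_lit 14) true (nat_lit 18) false (nat_lit 8) true (nat_lit 17) true (nat_lit 18) (.e true (nat_lit 2) (nat_lit 260) (nat_lit 1) (nat_lit 18) (.e false (nat_lit 2) (nat_lit 262) (nat_lit 1) (nat_lit 18) (.e true (nat_lit 3) (nat_lit 264) (nat_lit 1) (nat_lit 18) (.e false (nat_lit 1) (nat_lit 265) (nat_lit 1) (nat_lit 18) (.e true (nat_lit 3) (nat_lit 266) (nat_lit 1) (nat_lit 18) (.e false (nat_lit 3) (nat_lit 267) (nat_lit 1) (nat_lit 18) (.e true (nat_lit 3) (nat_lit 268) (nat_lit 1) (nat_lit 18) (.e true (nat_lit 2) (nat_lit 269) (nat_lit 1) (nat_lit 18) (.e false (nat_lit 1) (nat_lit 271) (nat_lit 1) (nat_lit 18) (.e true (nat_lit 2) (nat_lit 278) (nat_lit 1) (nat_lit 18) (.e true (nat_lit 3) (nat_lit 279) (nat_lit 1) (nat_lit 18) (.e false (nat_lit 2) (nat_lit 280) (nat_lit 1) (nat_lit 18) (.e false (nat_lit 1) (nat_lit 281) (nat_lit 1) (nat_lit 18) (.e true (nat_lit 3) (nat_lit 282) (nat_lit 1) (nat_lit 18) (.e false (nat_lit 1) (nat_lit 286) (nat_lit 1) (nat_lit 18) (.e true (nat_lit 3) (nat_lit 288) (nat_lit 1) (nat_lit 18) (.e false (nat_lit 3) (nat_lit 289) (nat_lit 1) (nat_lit 18) (.e true (nat_lit 1) (nat_lit 80) (nat_lit 13) (nat_lit 8) (.e true (nat_lit 1) (nat_lit 274) (nat_lit 1) (nat_lit 18) (.u (nat_lit 2) (.p (nat_lit 0) (nat_lit 1) (.n (nat_lit 1) (nat_lit 2) (.n (nat_lit 2) (nat_lit 3) (.n (nat_lit 3) (nat_lit 1) (.p (nat_lit 4) (nat_lit 1) (.n (nat_lit 6) (nat_lit 1) (.p (nat_lit 7) (nat_lit 1) (.p (nat_lit 8) (nat_lit 2) (.n (nat_lit 9) (nat_lit 1) (.n (nat_lit 10) (nat_lit 2) (.n (nat_lit 11) (nat_lit 1) (.p (nat_lit 12) (nat_lit 1) (.n (nat_lit 14) (nat_lit 1) (.n (nat_lit 15) (nat_lit 1) (.n (nat_lit 17) (nat_lit 1) (.p (nat_lit 18) (nat_lit 1) (.n (nat_lit 19) (nat_lit 3) (.n (nat_lit 20) (nat_lit 2) (.n (nat_lit 27) (nat_lit 1) (.n (nat_lit 29) (nat_lit 2) (.p (nat_lit 31) (nat_lit 1) (.n (nat_lit 32) (nat_lit 1) (.p (nat_lit 34) (nat_lit 1) (.n (nat_lit 35) (nat_lit 2) (.p (nat_lit 36) (nat_lit 1) (.n (nat_lit 38) (nat_lit 1) (.p (nat_lit 40) (nat_lit 1) (.p (nat_lit 44) (nat_lit 1) .z)))))))))))))))))))))))))))) .nil)))))))))))))))))))))) .leaf) (nat_lit 150529) (nat_lit 452) (.p (nat_lit 246) (nat_lit 1) .z) .df .leaf)) (nat_lit 150530) (nat_lit 588) (.p (nat_lit 275) (nat_lit 1) .z) .df (.nd (.nd (.nd .leaf (nat_lit 150533) (nat_lit 1046) (.p (nat_lit 355) (nat_lit 2) (.p (nat_lit 358) (nat_lit 2) (.p (nat_lit 359) (nat_lit 2) (.p (nat_lit 361) (nat_lit 3) (.n (nat_lit 362) (nat_lit 3) (.p (nat_lit 363) (nat_lit 2) (.n (nat_lit 364) (nat_lit 1) (.p (nat_lit 365) (nat_lit 1) (.p (nat_lit 366) (nat_lit 1) (.p (nat_lit 367) (nat_lit 3) (.n (nat_lit 369) (nat_lit 1) (.p (nat_lit 370) (nat_lit 2) (.n (nat_lit 373) (nat_lit 2) (.n (nat_lit 374) (nat_lit 1) (.n (nat_lit 375) (nat_lit 3) (.n (nat_lit 381) (nat_lit 2) (.p (nat_lit 382) (nat_lit 1) (.p (nat_lit 383) (nat_lit 2) (.p (nat_lit 384) (nat_lit 1) (.p (nat_lit 385) (nat_lit 3) (.p (nat_lit 386) (nat_lit 1) (.n (nat_lit 387) (nat_lit 2) (.p (nat_lit 389) (nat_lit 1) (.p (nat_lit 390) (nat_lit 2) (.n (nat_lit 391) (nat_lit 3) (.n (nat_lit 393) (nat_lit 2) (.n (nat_lit 395) (nat_lit 1) (.n (nat_lit 396) (nat_lit 3) (.p (nat_lit 397) (nat_lit 1) (.n (nat_lit 420) (nat_lit 1) .z)))))))))))))))))))))))))))))) (.ct dC1c_c548 (nat_lit 1) (nat_lit 14) (.s true (nat_lit 1) (nat_lit 31) (nat_lit 0) (nat_lit 2) (nat_lit 5) true (nat_lit 9) true (nat_lit 14) true (nat_lit 0) true (nat_lit 19) true (nat_lit 17) (.s true (nat_lit 1) (nat_lit 31) (nat_lit 2) (nat_lit 0) (nat_lit 5) true (nat_lit 6) true (nat_lit 14) true (nat_lit 0) true (nat_lit 17) true (nat_lit 19) (.s true (nat_lit 1) (nat_lit 62) (nat_lit 1) (nat_lit 2) (nat_lit 2) true (nat_lit 14) true (nat_lit 17) false (nat_lit 6) true (nat_lit 18) true (nat_lit 17) (.s true (nat_lit 1) (nat_lit 82) (nat_lit 2) (nat_lit 1) (nat_lit 0) true (nat_lit 15) true (nat_lit 19) false (nat_lit 9) true (nat_lit 17) true (nat_lit 18) (.e true (nat_lit 2) (nat_lit 139) (nat_lit 5) (nat_lit 14) (.e true (nat_lit 2) (nat_lit 291) (nat_lit 0) (nat_lit 19) (.e false (nat_lit 3) (nat_lit 294) (nat_lit 0) (nat_lit 19) (.e false (nat_lit 1) (nat_lit 298) (nat_lit 0) (nat_lit 19) dC1c_i180))))))))) .leaf) (nat_lit 150534) (nat_lit 1339) (.n (nat_lit 427) (nat_lit 3) (.n (nat_lit 428) (nat_lit 3) (.p (nat_lit 430) (nat_lit 3) (.n (nat_lit 431) (nat_lit 2) (.p (nat_lit 432) (nat_lit 3) (.p (nat_lit 433) (nat_lit 3) (.n (nat_lit 434) (nat_lit 1) (.p (nat_lit 435) (nat_lit 2) (.p (nat_lit 436) (nat_lit 3) (.p (nat_lit 438) (nat_lit 3) (.n (nat_lit 439) (nat_lit 3) (.n (nat_lit 441) (nat_lit 2) (.p (nat_lit 442) (nat_lit 3) (.n (nat_lit 443) (nat_lit 3) (.n (nat_lit 444) (nat_lit 3) (.p (nat_lit 445) (nat_lit 1) (.p (nat_lit 454) (nat_lit 2) (.p (nat_lit 456) (nat_lit 2) (.n (nat_lit 459) (nat_lit 1) .z))))))))))))))))))) (.ct dC1c_c533 (nat_lit 1) (nat_lit 9) (.s false (nat_lit 1) (nat_lit 82) (nat_lit 2) (nat_lit 0) (nat_lit 2) true (nat_lit 9) true (nat_lit 13) false (nat_lit 5) true (nat_lit 13) true (nat_lit 15) dC1c_i181)) .leaf) (nat_lit 151553) (nat_lit 453) (.p (nat_lit 247) (nat_lit 1) .z) .df (.nd (.nd .leaf (nat_lit 151554) (nat_lit 589) (.p (nat_lit 276) (nat_lit 1) .z) .df .leaf) (nat_lit 151557) (nat_lit 1015) (.p (nat_lit 355) (nat_lit 3) (.n (nat_lit 356) (nat_lit 2) (.p (nat_lit 357) (nat_lit 3) (.p (nat_lit 358) (nat_lit 3) (.p (nat_lit 359) (nat_lit 3) (.n (nat_lit 361) (nat_lit 2) (.p (nat_lit 362) (nat_lit 2) (.p (nat_lit 363) (nat_lit 3) (.n (nat_lit 365) (nat_lit 3) (.n (nat_lit 366) (nat_lit 2) (.p (nat_lit 367) (nat_lit 2) (.p (nat_lit 369) (nat_lit 3) (.n (nat_lit 370) (nat_lit 1) (.p (nat_lit 372) (nat_lit 2) (.n (nat_lit 373) (nat_lit 1) (.n (nat_lit 374) (nat_lit 3) (.n (nat_lit 375) (nat_lit 2) (.n (nat_lit 381) (nat_lit 2) (.n (nat_lit 383) (nat_lit 3) (.p (nat_lit 384) (nat_lit 3) (.n (nat_lit 386) (nat_lit 2) (.p (nat_lit 387) (nat_lit 2) (.p (nat_lit 388) (nat_lit 2) (.p (nat_lit 389) (nat_lit 3) (.p (nat_lit 390) (nat_lit 3) (.n (nat_lit 391) (nat_lit 2) (.n (nat_lit 392) (nat_lit 3) (.p (nat_lit 393) (nat_lit 1) (.p (nat_lit 394) (nat_lit 3) (.n (nat_lit 395) (nat_lit 1) (.n (nat_lit 396) (nat_lit 2) (.p (nat_lit 398) (nat_lit 1) (.n (nat_lit 421) (nat_lit 1) .z))))))))))))))))))))))))))))))))) (.ct dC1c_c548 (nat_lit 1) (nat_lit 14) (.s true (nat_lit 1) (nat_lit 7) (nat_lit 2) (nat_lit 5) (nat_lit 6) true (nat_lit 5) true (nat_lit 13) true (nat_lit 12) true (nat_lit 17) true (nat_lit 14) (.s false (nat_lit 1) (nat_lit 7) (nat_lit 5) (nat_lit 6) (nat_lit 2) true (nat_lit 6) true (nat_lit 17) true (nat_lit 12) true (nat_lit 14) true (nat_lit 13) (.s false (nat_lit 3) (nat_lit 7) (nat_lit 6) (nat_lit 1) (nat_lit 6) false (nat_lit 4) true (nat_lit 13) true (nat_lit 12) true (nat_lit 13) true (nat_lit 18) (.s false (nat_lit 1) (nat_lit 8) (nat_lit 2) (nat_lit 6) (nat_lit 4) true (nat_lit 7) true (nat_lit 15) true (nat_lit 11) true (nat_lit 17) true (nat_lit 13) (.s false (nat_lit 1) (nat_lit 8) (nat_lit 4) (nat_lit 6) (nat_lit 2) true (nat_lit 7) true (nat_lit 17) true (nat_lit 11) true (nat_lit 15) true (nat_lit 13) (.s false (nat_lit 2) (nat_lit 8) (nat_lit 6) (nat_lit 0) (nat_lit 6) false (nat_lit 4) true (nat_lit 13) true (nat_lit 11) true (nat_lit 13) true (nat_lit 19) (.s true (nat_lit 2) (nat_lit 8) (nat_lit 6) (nat_lit 2) (nat_lit 4) false (nat_lit 2) true (nat_lit 15) true (nat_lit 11) true (nat_lit 13) true (nat_lit 17) (.s true (nat_lit 1) (nat_lit 9) (nat_lit 5) (nat_lit 1) (nat_lit 6) false (nat_lit 3) true (nat_lit 13) true (nat_lit 10) true (nat_lit 14) true (nat_lit 18) (.s true (nat_lit 1) (nat_lit 10) (nat_lit 2) (nat_lit 2) (nat_lit 10) true (nat_lit 0) true (nat_lit 9) true (nat_lit 9) true (nat_lit 17) true (nat_lit 17) (.s false (nat_lit 3) (nat_lit 10) (nat_lit 4) (nat_lit 2) (nat_lit 5) true (nat_lit 0) true (nat_lit 14) true (nat_lit 9) true (nat_lit 15) true (nat_lit 17) (.s false (nat_lit 3) (nat_lit 13) (nat_lit 2) (nat_lit 9) (nat_lit 2) true (nat_lit 13) true (nat_lit 17) true (nat_lit 8) true (nat_lit 17) true (nat_lit 10) (.s false (nat_lit 1) (nat_lit 14) (nat_lit 1) (nat_lit 1) (nat_lit 14) true (nat_lit 0) true (nat_lit 7) true (nat_lit 7) true (nat_lit 18) true (nat_lit 18) (.s true (nat_lit 2) (nat_lit 14) (nat_lit 2) (nat_lit 8) (nat_lit 2) true (nat_lit 13) true (nat_lit 17) true (nat_lit 7) true (nat_lit 17) true (nat_lit 11) (.s true (nat_lit 1) (nat_lit 15) (nat_lit 8) (nat_lit 2) (nat_lit 2) true (nat_lit 2) true (nat_lit 17) true (nat_lit 7) true (nat_lit 11) true (nat_lit 17) (.s true (nat_lit 3) (nat_lit 14) (nat_lit 10) (nat_lit 1) (nat_lit 2) true (nat_lit 0) true (nat_lit 17) true (nat_lit 7) true (nat_lit 9) true (nat_lit 18) (.s true (nat_lit 2) (nat_lit 16) (nat_lit 0) (nat_lit 10) (nat_lit 2) true (nat_lit 15) true (nat_lit 17) true (nat_lit 6) true (nat_lit 19) true (nat_lit 9) (.s false (nat_lit 3) (nat_lit 17) (nat_lit 1) (nat_lit 9) (nat_lit 2) true (nat_lit 14) true (nat_lit 17) true (nat_lit 6) true (nat_lit 18) true (nat_lit 10) (.s false (nat_lit 2) (nat_lit 16) (nat_lit 2) (nat_lit 0) (nat_lit 10) true (nat_lit 0) true (nat_lit 9) true (nat_lit 6) true (nat_lit 17) true (nat_lit 19) (.s false (nat_lit 3) (nat_lit 16) (nat_lit 2) (nat_lit 7) (nat_lit 2) true (nat_lit 13) true (nat_lit 17) true (nat_lit 6) true (nat_lit 17) true (nat_lit 12) (.s false (nat_lit 3) (nat_lit 17) (nat_lit 2) (nat_lit 7) (nat_lit 2) true (nat_lit 13) true (nat_lit 17) true (nat_lit 6) true (nat_lit 17) true (nat_lit 12) (.s true (nat_lit 2) (nat_lit 16) (nat_lit 2) (nat_lit 9) (nat_lit 1) true (nat_lit 14) true (nat_lit 18) true (nat_lit 6) true (nat_lit 17) true (nat_lit 10) (.s false (nat_lit 1) (nat_lit 16) (nat_lit 7) (nat_lit 2) (nat_lit 2) true (nat_lit 3) true (nat_lit 17) true (nat_lit 6) true (nat_lit 12) true (nat_lit 17) dC1c_i188))))))))))))))))))))))) .leaf))) (nat_lit 151558) (nat_lit 1285) (.p (nat_lit 426) (nat_lit 2) (.p (nat_lit 427) (nat_lit 2) (.n (nat_lit 428) (nat_lit 3) (.p (nat_lit 429) (nat_lit 3) (.p (nat_lit 430) (nat_lit 2) (.n (nat_lit 431) (nat_lit 3) (.p (nat_lit 432) (nat_lit 3) (.p (nat_lit 433) (nat_lit 3) (.n (nat_lit 434) (nat_lit 1) (.n (nat_lit 435) (nat_lit 2) (.p (nat_lit 436) (nat_lit 1) (.p (nat_lit 438) (nat_lit 3) (.n (nat_lit 439) (nat_lit 3) (.n (nat_lit 441) (nat_lit 2) (.n (nat_lit 443) (nat_lit 1) (.n (nat_lit 444) (nat_lit 3) (.p (nat_lit 455) (nat_lit 2) (.p (nat_lit 456) (nat_lit 2) (.n (nat_lit 459) (nat_lit 1) .z))))))))))))))))))) (.ct dC1c_c533 (nat_lit 1) (nat_lit 9) (.s true (nat_lit 1) (nat_lit 32) (nat_lit 2) (nat_lit 0) (nat_lit 6) true (nat_lit 3) true (nat_lit 9) true (nat_lit 0) true (nat_lit 13) true (nat_lit 15) (.s true (nat_lit 1) (nat_lit 32) (nat_lit 2) (nat_lit 2) (nat_lit 4) true (nat_lit 5) true (nat_lit 11) true (nat_lit 0) true (nat_lit 13) true (nat_lit 13) (.s false (nat_lit 1) (nat_lit 83) (nat_lit 0) (nat_lit 2) (nat_lit 2) true (nat_lit 11) true (nat_lit 13) false (nat_lit 5) true (nat_lit 15) true (nat_lit 13) dC1c_i189)))) (.nd (.nd (.nd (.nd .leaf (nat_lit 152577) (nat_lit 471) (.n (nat_lit 212) (nat_lit 3) (.n (nat_lit 213) (nat_lit 3) (.n (nat_lit 215) (nat_lit 1) (.p (nat_lit 216) (nat_lit 1) (.p (nat_lit 217) (nat_lit 1) (.p (nat_lit 218) (nat_lit 2) (.n (nat_lit 219) (nat_lit 2) (.n (nat_lit 220) (nat_lit 1) (.n (nat_lit 221) (nat_lit 3) (.p (nat_lit 222) (nat_lit 2) (.p (nat_lit 223) (nat_lit 2) (.n (nat_lit 224) (nat_lit 1) (.n (nat_lit 227) (nat_lit 3) (.p (nat_lit 229) (nat_lit 1) (.n (nat_lit 231) (nat_lit 1) (.n (nat_lit 232) (nat_lit 1) (.n (nat_lit 233) (nat_lit 2) (.n (nat_lit 234) (nat_lit 1) (.n (nat_lit 235) (nat_lit 3) (.n (nat_lit 236) (nat_lit 1) (.n (nat_lit 237) (nat_lit 3) (.n (nat_lit 238) (nat_lit 3) (.p (nat_lit 239) (nat_lit 3) (.n (nat_lit 240) (nat_lit 2) (.n (nat_lit 241) (nat_lit 2) (.n (nat_lit 242) (nat_lit 1) .z)))))))))))))))))))))))))) (.ct dC1c_c547 (nat_lit 1) (nat_lit 13) (.s false (nat_lit 3) (nat_lit 5) (nat_lit 0) (nat_lit 5) (nat_lit 4) true (nat_lit 5) true (nat_lit 10) true (nat_lit 9) true (nat_lit 14) true (nat_lit 9) (.s true (nat_lit 3) (nat_lit 5) (nat_lit 4) (nat_lit 4) (nat_lit 1) true (nat_lit 4) true (nat_lit 13) true (nat_lit 9) true (nat_lit 10) true (nat_lit 10) (.s true (nat_lit 2) (nat_lit 6) (nat_lit 0) (nat_lit 3) (nat_lit 5) true (nat_lit 4) true (nat_lit 9) true (nat_lit 8) true (nat_lit 14) true (nat_lit 11) (.s false (nat_lit 1) (nat_lit 7) (nat_lit 1) (nat_lit 2) (nat_lit 6) true (nat_lit 1) true (nat_lit 8) true (nat_lit 7) true (nat_lit 13) true (nat_lit 12) (.s false (nat_lit 3) (nat_lit 7) (nat_lit 1) (nat_lit 6) (nat_lit 2) true (nat_lit 9) true (nat_lit 12) true (nat_lit 7) true (nat_lit 13) true (nat_lit 8) (.s false (nat_lit 2) (nat_lit 7) (nat_lit 2) (nat_lit 2) (nat_lit 5) true (nat_lit 1) true (nat_lit 9) true (nat_lit 7) true (nat_lit 12) true (nat_lit 12) (.s true (nat_lit 2) (nat_lit 7) (nat_lit 2) (nat_lit 5) (nat_lit 2) true (nat_lit 8) true (nat_lit 12) true (nat_lit 7) true (nat_lit 12) true (nat_lit 9) (.s true (nat_lit 3) (nat_lit 7) (nat_lit 6) (nat_lit 2) (nat_lit 1) true (nat_lit 1) true (nat_lit 13) true (nat_lit 7) true (nat_lit 8) true (nat_lit 12) (.s false (nat_lit 3) (nat_lit 8) (nat_lit 0) (nat_lit 2) (nat_lit 6) true (nat_lit 2) true (nat_lit 8) true (nat_lit 6) true (nat_lit 14) true (nat_lit 12) (.s true (nat_lit 3) (nat_lit 8) (nat_lit 2) (nat_lit 2) (nat_lit 4) true (nat_lit 2) true (nat_lit 10) true (nat_lit 6) true (nat_lit 12) true (nat_lit 12) dC1c_i193))))))))))) .leaf) (nat_lit 152578) (nat_lit 590) (.p (nat_lit 277) (nat_lit 1) .z) .df .leaf) (nat_lit 152581) (nat_lit 1139) (.p (nat_lit 355) (nat_lit 2) (.n (nat_lit 356) (nat_lit 2) (.p (nat_lit 357) (nat_lit 1) (.p (nat_lit 359) (nat_lit 3) (.p (nat_lit 360) (nat_lit 3) (.p (nat_lit 361) (nat_lit 3) (.n (nat_lit 362) (nat_lit 3) (.n (nat_lit 363) (nat_lit 1) (.n (nat_lit 364) (nat_lit 1) (.n (nat_lit 365) (nat_lit 2) (.n (nat_lit 366) (nat_lit 3) (.p (nat_lit 367) (nat_lit 3) (.n (nat_lit 369) (nat_lit 3) (.p (nat_lit 370) (nat_lit 2) (.p (nat_lit 372) (nat_lit 1) (.p (nat_lit 373) (nat_lit 2) (.n (nat_lit 374) (nat_lit 2) (.p (nat_lit 375) (nat_lit 1) (.p (nat_lit 381) (nat_lit 3) (.n (nat_lit 382) (nat_lit 2) (.p (nat_lit 384) (nat_lit 1) (.p (nat_lit 385) (nat_lit 1) (.p (nat_lit 386) (nat_lit 3) (.n (nat_lit 387) (nat_lit 3) (.n (nat_lit 390) (nat_lit 1) (.p (nat_lit 392) (nat_lit 2) (.n (nat_lit 393) (nat_lit 2) (.n (nat_lit 394) (nat_lit 1) (.p (nat_lit 395) (nat_lit 3) (.n (nat_lit 396) (nat_lit 3) (.n (nat_lit 415) (nat_lit 2) .z))))))))))))))))))))))))))))))) (.ct dC1c_c548 (nat_lit 1) (nat_lit 14) (.s false (nat_lit 1) (nat_lit 20) (nat_lit 2) (nat_lit 6) (nat_lit 1) true (nat_lit 14) true (nat_lit 18) true (nat_lit 3) true (nat_lit 17) true (nat_lit 13) (.e false (nat_lit 1) (nat_lit 286) (nat_lit 1) (nat_lit 18) (.e false (nat_lit 1) (nat_lit 45) (nat_lit 20) (nat_lit 3) (.e false (nat_lit 2) (nat_lit 212) (nat_lit 2) (nat_lit 17) (.e true (nat_lit 3) (nat_lit 213) (nat_lit 2) (nat_lit 17) (.e false (nat_lit 3) (nat_lit 214) (nat_lit 2) (nat_lit 17) (.e true (nat_lit 1) (nat_lit 217) (nat_lit 2) (nat_lit 17) (.e true (nat_lit 2) (nat_lit 218) (nat_lit 2) (nat_lit 17) dC1c_i194))))))))) (.nd (.nd .leaf (nat_lit 152582) (nat_lit 1249) (.p (nat_lit 456) (nat_lit 2) .z) (.ct dC1c_c533 (nat_lit 1) (nat_lit 9) (.s true (nat_lit 1) (nat_lit 7) (nat_lit 6) (nat_lit 2) (nat_lit 6) false (nat_lit 2) true (nat_lit 9) true (nat_lit 8) true (nat_lit 9) true (nat_lit 13) (.e false (nat_lit 2) (nat_lit 277) (nat_lit 2) (nat_lit 13) .nil))) .leaf) (nat_lit 153601) (nat_lit 482) (.p (nat_lit 212) (nat_lit 2) (.n (nat_lit 213) (nat_lit 3) (.p (nat_lit 214) (nat_lit 1) (.p (nat_lit 215) (nat_lit 3) (.p (nat_lit 216) (nat_lit 1) (.p (nat_lit 217) (nat_lit 3) (.n (nat_lit 218) (nat_lit 2) (.p (nat_lit 219) (nat_lit 2) (.p (nat_lit 220) (nat_lit 1) (.n (nat_lit 221) (nat_lit 2) (.p (nat_lit 222) (nat_lit 1) (.p (nat_lit 223) (nat_lit 1) (.n (nat_lit 224) (nat_lit 3) (.n (nat_lit 227) (nat_lit 2) (.p (nat_lit 229) (nat_lit 1) (.p (nat_lit 231) (nat_lit 3) (.p (nat_lit 232) (nat_lit 1) (.n (nat_lit 233) (nat_lit 1) (.n (nat_lit 234) (nat_lit 1) (.p (nat_lit 235) (nat_lit 3) (.p (nat_lit 236) (nat_lit 2) (.p (nat_lit 237) (nat_lit 1) (.n (nat_lit 238) (nat_lit 2) (.p (nat_lit 239) (nat_lit 3) (.n (nat_lit 241) (nat_lit 2) (.n (nat_lit 243) (nat_lit 2) (.n (nat_lit 244) (nat_lit 2) (.p (nat_lit 245) (nat_lit 1) (.p (nat_lit 248) (nat_lit 2) .z))))))))))))))))))))))))))))) (.ct dC1c_c547 (nat_lit 1) (nat_lit 13) (.s false (nat_lit 2) (nat_lit 7) (nat_lit 1) (nat_lit 6) (nat_lit 2) true (nat_lit 9) true (nat_lit 12) true (nat_lit 7) true (nat_lit 13) true (nat_lit 8) (.s false (nat_lit 1) (nat_lit 7) (nat_lit 2) (nat_lit 2) (nat_lit 5) true (nat_lit 1) true (nat_lit 9) true (nat_lit 7) true (nat_lit 12) true (nat_lit 12) (.s true (nat_lit 1) (nat_lit 7) (nat_lit 2) (nat_lit 6) (nat_lit 1) true (nat_lit 9) true (nat_lit 13) true (nat_lit 7) true (nat_lit 12) true (nat_lit 8) dC1c_i197)))) .leaf)) (nat_lit 153602) (nat_lit 591) (.p (nat_lit 278) (nat_lit 1) .z) .df (.nd (.nd (.nd .leaf (nat_lit 153605) (nat_lit 1076) (.p (nat_lit 356) (nat_lit 3) (.n (nat_lit 357) (nat_lit 1) (.p (nat_lit 360) (nat_lit 2) (.p (nat_lit 361) (nat_lit 2) (.n (nat_lit 362) (nat_lit 2) (.n (nat_lit 364) (nat_lit 1) (.p (nat_lit 365) (nat_lit 1) (.n (nat_lit 366) (nat_lit 3) (.n (nat_lit 367) (nat_lit 3) (.p (nat_lit 369) (nat_lit 2) (.n (nat_lit 370) (nat_lit 2) (.p (nat_lit 372) (nat_lit 2) (.n (nat_lit 373) (nat_lit 1) (.p (nat_lit 374) (nat_lit 3) (.p (nat_lit 375) (nat_lit 3) (.p (nat_lit 381) (nat_lit 3) (.n (nat_lit 382) (nat_lit 2) (.p (nat_lit 383) (nat_lit 2) (.p (nat_lit 384) (nat_lit 2) (.p (nat_lit 385) (nat_lit 2) (.n (nat_lit 386) (nat_lit 1) (.p (nat_lit 387) (nat_lit 3) (.p (nat_lit 388) (nat_lit 3) (.n (nat_lit 389) (nat_lit 1) (.n (nat_lit 390) (nat_lit 2) (.p (nat_lit 391) (nat_lit 3) (.n (nat_lit 392) (nat_lit 2) (.p (nat_lit 393) (nat_lit 1) (.n (nat_lit 394) (nat_lit 1) (.p (nat_lit 395) (nat_lit 1) (.n (nat_lit 396) (nat_lit 2) (.p (nat_lit 404) (nat_lit 1) (.n (nat_lit 405) (nat_lit 2) (.p (nat_lit 406) (nat_lit 2) (.n (nat_lit 408) (nat_lit 2) (.p (nat_lit 409) (nat_lit 1) (.n (nat_lit 410) (nat_lit 1) (.n (nat_lit 416) (nat_lit 2) .z)))))))))))))))))))))))))))))))))))))) (.ct dC1c_c548 (nat_lit 1) (nat_lit 14) (.s false (nat_lit 1) (nat_lit 21) (nat_lit 2) (nat_lit 6) (nat_lit 1) true (nat_lit 14) true (nat_lit 18) true (nat_lit 3) true (nat_lit 17) true (nat_lit 13) (.e false (nat_lit 1) (nat_lit 287) (nat_lit 1) (nat_lit 18) (.e false (nat_lit 1) (nat_lit 45) (nat_lit 21) (nat_lit 3) (.e true (nat_lit 1) (nat_lit 212) (nat_lit 2) (nat_lit 17) (.e false (nat_lit 1) (nat_lit 213) (nat_lit 2) (nat_lit 17) (.e true (nat_lit 1) (nat_lit 214) (nat_lit 2) (nat_lit 17) (.e true (nat_lit 1) (nat_lit 215) (nat_lit 2) (nat_lit 17) (.e false (nat_lit 2) (nat_lit 216) (nat_lit 2) (nat_lit 17) (.e true (nat_lit 3) (nat_lit 217) (nat_lit 2) (nat_lit 17) (.e false (nat_lit 3) (nat_lit 218) (nat_lit 2) (nat_lit 17) (.e true (nat_lit 3) (nat_lit 219) (nat_lit 2) (nat_lit 17) (.e false (nat_lit 1) (nat_lit 220) (nat_lit 2) (nat_lit 17) (.e false (nat_lit 3) (nat_lit 221) (nat_lit 2) (nat_lit 17) dC1c_i198)))))))))))))) .leaf) (nat_lit 153606) (nat_lit 1263) (.n (nat_lit 426) (nat_lit 1) (.n (nat_lit 427) (nat_lit 2) (.n (nat_lit 428) (nat_lit 2) (.p (nat_lit 429) (nat_lit 3) (.n (nat_lit 430) (nat_lit 2) (.n (nat_lit 431) (nat_lit 3) (.n (nat_lit 432) (nat_lit 3) (.n (nat_lit 433) (nat_lit 3) (.p (nat_lit 434) (nat_lit 3) (.n (nat_lit 438) (nat_lit 3) (.p (nat_lit 439) (nat_lit 3) (.p (nat_lit 441) (nat_lit 3) (.p (nat_lit 442) (nat_lit 1) (.p (nat_lit 443) (nat_lit 1) (.p (nat_lit 444) (nat_lit 1) (.n (nat_lit 447) (nat_lit 3) (.p (nat_lit 456) (nat_lit 3) (.p (nat_lit 459) (nat_lit 2) .z)))))))))))))))))) (.ct dC1c_c533 (nat_lit 1) (nat_lit 9) (.s false (nat_lit 3) (nat_lit 21) (nat_lit 2) (nat_lit 2) (nat_lit 6) true (nat_lit 3) true (nat_lit 9) true (nat_lit 2) true (nat_lit 13) true (nat_lit 13) (.s true (nat_lit 3) (nat_lit 21) (nat_lit 2) (nat_lit 6) (nat_lit 2) true (nat_lit 9) true (nat_lit 13) true (nat_lit 2) true (nat_lit 13) true (nat_lit 9) (.s true (nat_lit 3) (nat_lit 21) (nat_lit 6) (nat_lit 2) (nat_lit 2) true (nat_lit 3) true (nat_lit 13) true (nat_lit 2) true (nat_lit 9) true (nat_lit 13) (.e false (nat_lit 2) (nat_lit 287) (nat_lit 2) (nat_lit 13) (.u (nat_lit 2) (.p (nat_lit 0) (nat_lit 1) (.n (nat_lit 3) (nat_lit 1) (.p (nat_lit 5) (nat_lit 1) (.p (nat_lit 6) (nat_lit 1) (.p (nat_lit 7) (nat_lit 1) (.n (nat_lit 8) (nat_lit 1) (.p (nat_lit 12) (nat_lit 1) (.n (nat_lit 13) (nat_lit 1) (.n (nat_lit 15) (nat_lit 1) (.n (nat_lit 16) (nat_lit 1) (.n (nat_lit 17) (nat_lit 1) (.n (nat_lit 18) (nat_lit 1) (.p (nat_lit 21) (nat_lit 1) (.n (nat_lit 30) (nat_lit 1) (.p (nat_lit 143) (nat_lit 1) (.n (nat_lit 200) (nat_lit 2) .z)))))))))))))))) .nil)))))) .leaf) (nat_lit 154625) (nat_lit 491) (.n (nat_lit 212) (nat_lit 1) (.n (nat_lit 213) (nat_lit 3) (.n (nat_lit 214) (nat_lit 1) (.p (nat_lit 215) (nat_lit 2) (.p (nat_lit 216) (nat_lit 1) (.n (nat_lit 217) (nat_lit 1) (.n (nat_lit 218) (nat_lit 1) (.p (nat_lit 219) (nat_lit 1) (.n (nat_lit 220) (nat_lit 3) (.p (nat_lit 221) (nat_lit 3) (.p (nat_lit 222) (nat_lit 3) (.p (nat_lit 223) (nat_lit 3) (.p (nat_lit 224) (nat_lit 1) (.p (nat_lit 227) (nat_lit 3) (.p (nat_lit 229) (nat_lit 1) (.p (nat_lit 231) (nat_lit 2) (.n (nat_lit 232) (nat_lit 1) (.p (nat_lit 233) (nat_lit 1) (.p (nat_lit 234) (nat_lit 2) (.p (nat_lit 235) (nat_lit 1) (.n (nat_lit 237) (nat_lit 3) (.n (nat_lit 239) (nat_lit 3) (.n (nat_lit 240) (nat_lit 2) (.p (nat_lit 241) (nat_lit 2) (.n (nat_lit 242) (nat_lit 1) (.n (nat_lit 243) (nat_lit 1) (.n (nat_lit 244) (nat_lit 2) (.p (nat_lit 245) (nat_lit 1) (.p (nat_lit 248) (nat_lit 1) .z))))))))))))))))))))))))))))) (.ct dC1c_c547 (nat_lit 1) (nat_lit 13) (.s false (nat_lit 1) (nat_lit 8) (nat_lit 2) (nat_lit 4) (nat_lit 2) true (nat_lit 8) true (nat_lit 12) true (nat_lit 6) true (nat_lit 12) true (nat_lit 10) (.s true (nat_lit 1) (nat_lit 8) (nat_lit 6) (nat_lit 2) (nat_lit 0) true (nat_lit 2) true (nat_lit 14) true (nat_lit 6) true (nat_lit 8) true (nat_lit 12) (.s false (nat_lit 1) (nat_lit 24) (nat_lit 2) (nat_lit 2) (nat_lit 0) true (nat_lit 10) true (nat_lit 14) false (nat_lit 2) true (nat_lit 12) true (nat_lit 12) (.s false (nat_lit 1) (nat_lit 40) (nat_lit 1) (nat_lit 0) (nat_lit 1) false (nat_lit 16) true (nat_lit 13) false (nat_lit 6) true (nat_lit 13) true (nat_lit 14) (.s true (nat_lit 1) (nat_lit 42) (nat_lit 1) (nat_lit 0) (nat_lit 1) false (nat_lit 16) true (nat_lit 13) false (nat_lit 6) true (nat_lit 13) true (nat_lit 14) (.e false (nat_lit 2) (nat_lit 54) (nat_lit 6) (nat_lit 8) (.e true (nat_lit 2) (nat_lit 107) (nat_lit 2) (nat_lit 12) (.e false (nat_lit 1) (nat_lit 112) (nat_lit 2) (nat_lit 12) (.e false (nat_lit 3) (nat_lit 114) (nat_lit 2) (nat_lit 12) (.e true (nat_lit 3) (nat_lit 125) (nat_lit 2) (nat_lit 12) (.e false (nat_lit 2) (nat_lit 126) (nat_lit 2) (nat_lit 12) dC1c_i199)))))))))))) (.nd (.nd .leaf (nat_lit 154626) (nat_lit 592) (.p (nat_lit 279) (nat_lit 1) .z) .df .leaf) (nat_lit 154629) (nat_lit 1168) (.p (nat_lit 355) (nat_lit 3) (.p (nat_lit 356) (nat_lit 1) (.n (nat_lit 358) (nat_lit 1) (.n (nat_lit 359) (nat_lit 1) (.p (nat_lit 361) (nat_lit 1) (.n (nat_lit 362) (nat_lit 1) (.n (nat_lit 365) (nat_lit 2) (.p (nat_lit 366) (nat_lit 1) (.n (nat_lit 367) (nat_lit 3) (.n (nat_lit 370) (nat_lit 2) (.n (nat_lit 372) (nat_lit 2) (.p (nat_lit 373) (nat_lit 1) (.n (nat_lit 374) (nat_lit 3) (.p (nat_lit 375) (nat_lit 3) (.n (nat_lit 381) (nat_lit 2) (.p (nat_lit 382) (nat_lit 3) (.n (nat_lit 383) (nat_lit 3) (.n (nat_lit 384) (nat_lit 2) (.n (nat_lit 386) (nat_lit 2) (.n (nat_lit 387) (nat_lit 2) (.n (nat_lit 389) (nat_lit 3) (.p (nat_lit 390) (nat_lit 3) (.p (nat_lit 391) (nat_lit 2) (.p (nat_lit 392) (nat_lit 2) (.p (nat_lit 394) (nat_lit 3) (.p (nat_lit 395) (nat_lit 2) (.n (nat_lit 417) (nat_lit 2) .z))))))))))))))))))))))))))) (.ct dC1c_c548 (nat_lit 1) (nat_lit 14) (.s false (nat_lit 1) (nat_lit 30) (nat_lit 5) (nat_lit 2) (nat_lit 1) true (nat_lit 8) true (nat_lit 18) true (nat_lit 1) true (nat_lit 14) true (nat_lit 17) (.e false (nat_lit 1) (nat_lit 79) (nat_lit 13) (nat_lit 8) (.e false (nat_lit 2) (nat_lit 260) (nat_lit 1) (nat_lit 18) (.e true (nat_lit 3) (nat_lit 262) (nat_lit 1) (nat_lit 18) (.e true (nat_lit 2) (nat_lit 263) (nat_lit 1) (nat_lit 18) (.e false (nat_lit 2) (nat_lit 264) (nat_lit 1) (nat_lit 18) (.e true (nat_lit 2) (nat_lit 265) (nat_lit 1) (nat_lit 18) (.e true (nat_lit 3) (nat_lit 266) (nat_lit 1) (nat_lit 18) (.e false (nat_lit 3) (nat_lit 267) (nat_lit 1) (nat_lit 18) (.e true (nat_lit 1) (nat_lit 268) (nat_lit 1) (nat_lit 18) (.e true (nat_lit 2) (nat_lit 269) (nat_lit 1) (nat_lit 18) dC1c_i200)))))))))))) .leaf)))) (nat_lit 154630) (nat_lit 1273) (.p (nat_lit 426) (nat_lit 3) (.p (nat_lit 427) (nat_lit 3) (.n (nat_lit 428) (nat_lit 3) (.p (nat_lit 429) (nat_lit 3) (.p (nat_lit 430) (nat_lit 1) (.n (nat_lit 431) (nat_lit 1) (.p (nat_lit 432) (nat_lit 3) (.p (nat_lit 433) (nat_lit 3) (.n (nat_lit 434) (nat_lit 3) (.n (nat_lit 435) (nat_lit 3) (.p (nat_lit 436) (nat_lit 2) (.n (nat_lit 438) (nat_lit 1) (.n (nat_lit 439) (nat_lit 3) (.p (nat_lit 441) (nat_lit 2) (.p (nat_lit 442) (nat_lit 1) (.p (nat_lit 444) (nat_lit 3) (.p (nat_lit 445) (nat_lit 1) (.n (nat_lit 448) (nat_lit 3) (.p (nat_lit 456) (nat_lit 3) (.p (nat_lit 459) (nat_lit 2) .z)))))))))))))))))))) (.ct dC1c_c533 (nat_lit 1) (nat_lit 9) (.s false (nat_lit 3) (nat_lit 22) (nat_lit 2) (nat_lit 2) (nat_lit 6) true (nat_lit 3) true (nat_lit 9) true (nat_lit 2) true (nat_lit 13) true (nat_lit 13) (.s true (nat_lit 3) (nat_lit 22) (nat_lit 2) (nat_lit 6) (nat_lit 2) true (nat_lit 9) true (nat_lit 13) true (nat_lit 2) true (nat_lit 13) true (nat_lit 9) (.s true (nat_lit 3) (nat_lit 22) (nat_lit 6) (nat_lit 2) (nat_lit 2) true (nat_lit 3) true (nat_lit 13) true (nat_lit 2) true (nat_lit 9) true (nat_lit 13) (.e false (nat_lit 2) (nat_lit 288) (nat_lit 2) (nat_lit 13) (.u (nat_lit 2) (.n (nat_lit 0) (nat_lit 1) (.n (nat_lit 1) (nat_lit 1) (.p (nat_lit 2) (nat_lit 1) (.n (nat_lit 3) (nat_lit 1) (.n (nat_lit 4) (nat_lit 1) (.p (nat_lit 5) (nat_lit 1) (.n (nat_lit 6) (nat_lit 1) (.n (nat_lit 7) (nat_lit 1) (.p (nat_lit 8) (nat_lit 1) (.p (nat_lit 9) (nat_lit 1) (.p (nat_lit 12) (nat_lit 1) (.p (nat_lit 13) (nat_lit 1) (.n (nat_lit 16) (nat_lit 1) (.n (nat_lit 18) (nat_lit 1) (.n (nat_lit 19) (nat_lit 1) (.p (nat_lit 22) (nat_lit 1) (.n (nat_lit 30) (nat_lit 1) (.p (nat_lit 144) (nat_lit 1) (.n (nat_lit 201) (nat_lit 2) .z))))))))))))))))))) .nil)))))) (.nd (.nd (.nd (.nd (.nd .leaf (nat_lit 155649) (nat_lit 454) (.p (nat_lit 248) (nat_lit 1) .z) .df .leaf) (nat_lit 155650) (nat_lit 593) (.p (nat_lit 280) (nat_lit 1) .z) .df .leaf) (nat_lit 155653) (nat_lit 1095) (.n (nat_lit 355) (nat_lit 2) (.p (nat_lit 356) (nat_lit 2) (.n (nat_lit 357) (nat_lit 1) (.n (nat_lit 358) (nat_lit 2) (.n (nat_lit 359) (nat_lit 1) (.n (nat_lit 361) (nat_lit 3) (.p (nat_lit 362) (nat_lit 3) (.p (nat_lit 363) (nat_lit 2) (.p (nat_lit 364) (nat_lit 3) (.n (nat_lit 365) (nat_lit 1) (.p (nat_lit 366) (nat_lit 2) (.p (nat_lit 367) (nat_lit 2) (.n (nat_lit 369) (nat_lit 2) (.n (nat_lit 370) (nat_lit 1) (.n (nat_lit 372) (nat_lit 3) (.n (nat_lit 374) (nat_lit 2) (.p (nat_lit 375) (nat_lit 1) (.p (nat_lit 381) (nat_lit 3) (.p (nat_lit 382) (nat_lit 1) (.n (nat_lit 383) (nat_lit 3) (.p (nat_lit 384) (nat_lit 2) (.n (nat_lit 385) (nat_lit 1) (.p (nat_lit 386) (nat_lit 1) (.p (nat_lit 388) (nat_lit 2) (.p (nat_lit 389) (nat_lit 1) (.n (nat_lit 390) (nat_lit 3) (.n (nat_lit 391) (nat_lit 3) (.p (nat_lit 392) (nat_lit 1) (.n (nat_lit 393) (nat_lit 3) (.p (nat_lit 394) (nat_lit 3) (.n (nat_lit 395) (nat_lit 3) (.n (nat_lit 396) (nat_lit 1) (.p (nat_lit 404) (nat_lit 3) (.p (nat_lit 405) (nat_lit 1) (.n (nat_lit 406) (nat_lit 1) (.p (nat_lit 408) (nat_lit 1) (.p (nat_lit 409) (nat_lit 3) (.n (nat_lit 410) (nat_lit 3) (.p (nat_lit 418) (nat_lit 1) (.p (nat_lit 424) (nat_lit 1) .z)))))))))))))))))))))))))))))))))))))))) (.ct dC1c_c548 (nat_lit 1) (nat_lit 14) (.s false (nat_lit 1) (nat_lit 28) (nat_lit 5) (nat_lit 1) (nat_lit 2) true (nat_lit 6) true (nat_lit 17) true (nat_lit 1) true (nat_lit 14) true (nat_lit 18) (.e true (nat_lit 1) (nat_lit 59) (nat_lit 16) (nat_lit 6) (.e false (nat_lit 1) (nat_lit 248) (nat_lit 2) (nat_lit 17) (.e false (nat_lit 1) (nat_lit 37) (nat_lit 28) (nat_lit 1) (.e false (nat_lit 1) (nat_lit 289) (nat_lit 1) (nat_lit 18) (.u (nat_lit 2) (.n (nat_lit 1) (nat_lit 1) (.n (nat_lit 7) (nat_lit 1) (.n (nat_lit 9) (nat_lit 1) (.p (nat_lit 28) (nat_lit 1) (.p (nat_lit 35) (nat_lit 1) (.p (nat_lit 38) (nat_lit 1) (.n (nat_lit 39) (nat_lit 2) (.n (nat_lit 49) (nat_lit 1) (.n (nat_lit 50) (nat_lit 1) (.p (nat_lit 51) (nat_lit 1) (.n (nat_lit 54) (nat_lit 1) (.p (nat_lit 55) (nat_lit 1) .z)))))))))))) .nil))))))) (.nd (.nd .leaf (nat_lit 155654) (nat_lit 1340) (.p (nat_lit 426) (nat_lit 3) (.n (nat_lit 427) (nat_lit 2) (.p (nat_lit 429) (nat_lit 1) (.p (nat_lit 430) (nat_lit 1) (.n (nat_lit 431) (nat_lit 2) (.n (nat_lit 432) (nat_lit 1) (.n (nat_lit 433) (nat_lit 1) (.p (nat_lit 434) (nat_lit 3) (.n (nat_lit 435) (nat_lit 1) (.n (nat_lit 436) (nat_lit 1) (.p (nat_lit 442) (nat_lit 3) (.n (nat_lit 443) (nat_lit 2) (.p (nat_lit 445) (nat_lit 1) (.n (nat_lit 449) (nat_lit 2) (.p (nat_lit 452) (nat_lit 2) (.n (nat_lit 456) (nat_lit 1) (.n (nat_lit 459) (nat_lit 3) .z))))))))))))))))) (.ct dC1c_c533 (nat_lit 1) (nat_lit 9) (.s false (nat_lit 1) (nat_lit 28) (nat_lit 6) (nat_lit 2) (nat_lit 1) true (nat_lit 4) true (nat_lit 14) true (nat_lit 1) true (nat_lit 9) true (nat_lit 13) (.e true (nat_lit 1) (nat_lit 77) (nat_lit 17) (nat_lit 4) (.e true (nat_lit 2) (nat_lit 321) (nat_lit 1) (nat_lit 14) dC1c_i201)))) .leaf) (nat_lit 156672) (nat_lit 418) (.p (nat_lit 212) (nat_lit 1) .z) .df .leaf)) (nat_lit 156674) (nat_lit 682) (.p (nat_lit 290) (nat_lit 1) .z) .df (.nd (.nd (.nd .leaf (nat_lit 156676) (nat_lit 1123) (.n (nat_lit 355) (nat_lit 2) (.p (nat_lit 356) (nat_lit 1) (.n (nat_lit 357) (nat_lit 3) (.n (nat_lit 359) (nat_lit 3) (.p (nat_lit 361) (nat_lit 3) (.n (nat_lit 362) (nat_lit 3) (.p (nat_lit 363) (nat_lit 3) (.p (nat_lit 365) (nat_lit 1) (.n (nat_lit 366) (nat_lit 1) (.n (nat_lit 367) (nat_lit 1) (.p (nat_lit 369) (nat_lit 2) (.n (nat_lit 370) (nat_lit 3) (.p (nat_lit 372) (nat_lit 2) (.p (nat_lit 373) (nat_lit 2) (.n (nat_lit 374) (nat_lit 2) (.p (nat_lit 375) (nat_lit 2) (.p (nat_lit 381) (nat_lit 3) (.n (nat_lit 382) (nat_lit 2) (.n (nat_lit 387) (nat_lit 1) (.p (nat_lit 389) (nat_lit 1) (.n (nat_lit 391) (nat_lit 3) (.n (nat_lit 392) (nat_lit 3) (.p (nat_lit 393) (nat_lit 1) (.n (nat_lit 395) (nat_lit 3) (.n (nat_lit 396) (nat_lit 2) (.n (nat_lit 404) (nat_lit 1) .z)))))))))))))))))))))))))) (.ct dC1c_c548 (nat_lit 1) (nat_lit 15) (.s true (nat_lit 1) (nat_lit 66) (nat_lit 0) (nat_lit 2) (nat_lit 2) true (nat_lit 15) true (nat_lit 17) false (nat_lit 7) true (nat_lit 19) true (nat_lit 17) (.e true (nat_lit 2) (nat_lit 214) (nat_lit 2) (nat_lit 17) (.e true (nat_lit 2) (nat_lit 215) (nat_lit 2) (nat_lit 17) (.e true (nat_lit 1) (nat_lit 216) (nat_lit 2) (nat_lit 17) (.e true (nat_lit 3) (nat_lit 218) (nat_lit 2) (nat_lit 17) (.e true (nat_lit 3) (nat_lit 219) (nat_lit 2) (nat_lit 17) (.e false (nat_lit 1) (nat_lit 220) (nat_lit 2) (nat_lit 17) (.e false (nat_lit 1) (nat_lit 222) (nat_lit 2) (nat_lit 17) (.e false (nat_lit 2) (nat_lit 224) (nat_lit 2) (nat_lit 17) (.e true (nat_lit 2) (nat_lit 225) (nat_lit 2) (nat_lit 17) dC1c_i202))))))))))) .leaf) (nat_lit 156678) (nat_lit 1489) (.p (nat_lit 460) (nat_lit 2) (.p (nat_lit 461) (nat_lit 2) (.n (nat_lit 462) (nat_lit 3) (.p (nat_lit 463) (nat_lit 3) (.p (nat_lit 464) (nat_lit 3) (.n (nat_lit 465) (nat_lit 2) (.n (nat_lit 468) (nat_lit 3) (.n (nat_lit 469) (nat_lit 1) (.n (nat_lit 470) (nat_lit 1) (.n (nat_lit 471) (nat_lit 1) (.p (nat_lit 472) (nat_lit 1) (.p (nat_lit 473) (nat_lit 2) (.p (nat_lit 474) (nat_lit 2) (.p (nat_lit 476) (nat_lit 1) (.n (nat_lit 477) (nat_lit 1) (.p (nat_lit 479) (nat_lit 1) (.p (nat_lit 489) (nat_lit 2) (.p (nat_lit 493) (nat_lit 3) .z)))))))))))))))))) (.ct dC1c_c293 (nat_lit 1) (nat_lit 9) (.s true (nat_lit 1) (nat_lit 24) (nat_lit 2) (nat_lit 2) (nat_lit 6) true (nat_lit 3) true (nat_lit 9) true (nat_lit 2) true (nat_lit 13) true (nat_lit 13) (.e false (nat_lit 1) (nat_lit 66) (nat_lit 18) (nat_lit 3) (.e false (nat_lit 1) (nat_lit 316) (nat_lit 2) (nat_lit 13) .nil)))) .leaf) (nat_lit 157696) (nat_lit 419) (.p (nat_lit 213) (nat_lit 1) .z) .df (.nd (.nd .leaf (nat_lit 157698) (nat_lit 683) (.p (nat_lit 291) (nat_lit 1) .z) .df .leaf) (nat_lit 157700) (nat_lit 1005) (.p (nat_lit 356) (nat_lit 3) (.n (nat_lit 357) (nat_lit 2) (.p (nat_lit 359) (nat_lit 3) (.n (nat_lit 361) (nat_lit 3) (.p (nat_lit 362) (nat_lit 3) (.n (nat_lit 363) (nat_lit 3) (.n (nat_lit 364) (nat_lit 1) (.n (nat_lit 365) (nat_lit 1) (.n (nat_lit 366) (nat_lit 1) (.n (nat_lit 367) (nat_lit 3) (.p (nat_lit 369) (nat_lit 3) (.n (nat_lit 370) (nat_lit 2) (.n (nat_lit 372) (nat_lit 3) (.n (nat_lit 373) (nat_lit 1) (.p (nat_lit 374) (nat_lit 1) (.p (nat_lit 375) (nat_lit 1) (.p (nat_lit 382) (nat_lit 3) (.n (nat_lit 384) (nat_lit 2) (.n (nat_lit 385) (nat_lit 2) (.p (nat_lit 386) (nat_lit 1) (.n (nat_lit 387) (nat_lit 3) (.n (nat_lit 388) (nat_lit 1) (.n (nat_lit 389) (nat_lit 3) (.p (nat_lit 390) (nat_lit 2) (.p (nat_lit 391) (nat_lit 2) (.n (nat_lit 393) (nat_lit 1) (.p (nat_lit 395) (nat_lit 3) (.p (nat_lit 396) (nat_lit 2) (.n (nat_lit 405) (nat_lit 1) .z))))))))))))))))))))))))))))) (.ct dC1c_c548 (nat_lit 1) (nat_lit 15) (.s false (nat_lit 1) (nat_lit 7) (nat_lit 1) (nat_lit 6) (nat_lit 6) true (nat_lit 6) true (nat_lit 13) true (nat_lit 12) true (nat_lit 18) true (nat_lit 13) (.s true (nat_lit 1) (nat_lit 7) (nat_lit 5) (nat_lit 2) (nat_lit 6) false (nat_lit 3) true (nat_lit 13) true (nat_lit 12) true (nat_lit 14) true (nat_lit 17) (.s true (nat_lit 3) (nat_lit 7) (nat_lit 6) (nat_lit 2) (nat_lit 5) false (nat_lit 3) true (nat_lit 14) true (nat_lit 12) true (nat_lit 13) true (nat_lit 17) (.s true (nat_lit 1) (nat_lit 7) (nat_lit 6) (nat_lit 6) (nat_lit 1) true (nat_lit 6) true (nat_lit 18) true (nat_lit 12) true (nat_lit 13) true (nat_lit 13) (.s true (nat_lit 3) (nat_lit 8) (nat_lit 0) (nat_lit 6) (nat_lit 6) true (nat_lit 7) true (nat_lit 13) true (nat_lit 11) true (nat_lit 19) true (nat_lit 13) (.s false (nat_lit 3) (nat_lit 8) (nat_lit 4) (nat_lit 6) (nat_lit 2) true (nat_lit 7) true (nat_lit 17) true (nat_lit 11) true (nat_lit 15) true (nat_lit 13) (.s true (nat_lit 2) (nat_lit 8) (nat_lit 6) (nat_lit 6) (nat_lit 0) true (nat_lit 7) true (nat_lit 19) true (nat_lit 11) true (nat_lit 13) true (nat_lit 13) (.s true (nat_lit 1) (nat_lit 9) (nat_lit 5) (nat_lit 2) (nat_lit 5) false (nat_lit 1) true (nat_lit 14) true (nat_lit 10) true (nat_lit 14) true (nat_lit 17) (.s false (nat_lit 3) (nat_lit 9) (nat_lit 5) (nat_lit 5) (nat_lit 2) true (nat_lit 6) true (nat_lit 17) true (nat_lit 10) true (nat_lit 14) true (nat_lit 14) (.s false (nat_lit 2) (nat_lit 10) (nat_lit 0) (nat_lit 6) (nat_lit 5) true (nat_lit 9) true (nat_lit 14) true (nat_lit 9) true (nat_lit 19) true (nat_lit 13) (.s false (nat_lit 3) (nat_lit 13) (nat_lit 2) (nat_lit 2) (nat_lit 9) true (nat_lit 1) true (nat_lit 10) true (nat_lit 8) true (nat_lit 17) true (nat_lit 17) (.s false (nat_lit 1) (nat_lit 13) (nat_lit 2) (nat_lit 9) (nat_lit 2) true (nat_lit 13) true (nat_lit 17) true (nat_lit 8) true (nat_lit 17) true (nat_lit 10) (.s false (nat_lit 3) (nat_lit 13) (nat_lit 9) (nat_lit 2) (nat_lit 2) true (nat_lit 1) true (nat_lit 17) true (nat_lit 8) true (nat_lit 10) true (nat_lit 17) (.s true (nat_lit 2) (nat_lit 14) (nat_lit 1) (nat_lit 1) (nat_lit 14) true (nat_lit 0) true (nat_lit 7) true (nat_lit 7) true (nat_lit 18) true (nat_lit 18) (.s true (nat_lit 2) (nat_lit 15) (nat_lit 1) (nat_lit 1) (nat_lit 15) true (nat_lit 0) true (nat_lit 7) true (nat_lit 7) true (nat_lit 18) true (nat_lit 18) (.s false (nat_lit 2) (nat_lit 14) (nat_lit 1) (nat_lit 2) (nat_lit 10) true (nat_lit 2) true (nat_lit 9) true (nat_lit 7) true (nat_lit 18) true (nat_lit 17) (.s true (nat_lit 3) (nat_lit 15) (nat_lit 1) (nat_lit 3) (nat_lit 6) true (nat_lit 6) true (nat_lit 13) true (nat_lit 7) true (nat_lit 18) true (nat_lit 16) (.s false (nat_lit 3) (nat_lit 14) (nat_lit 2) (nat_lit 5) (nat_lit 3) true (nat_lit 9) true (nat_lit 16) true (nat_lit 7) true (nat_lit 17) true (nat_lit 14) (.s true (nat_lit 1) (nat_lit 14) (nat_lit 2) (nat_lit 8) (nat_lit 2) true (nat_lit 13) true (nat_lit 17) true (nat_lit 7) true (nat_lit 17) true (nat_lit 11) (.s false (nat_lit 2) (nat_lit 15) (nat_lit 8) (nat_lit 2) (nat_lit 2) true (nat_lit 2) true (nat_lit 17) true (nat_lit 7) true (nat_lit 11) true (nat_lit 17) (.s false (nat_lit 3) (nat_lit 14) (nat_lit 10) (nat_lit 2) (nat_lit 1) true (nat_lit 2) true (nat_lit 18) true (nat_lit 7) true (nat_lit 9) true (nat_lit 17) dC1c_i212)))))))))))))))))))))) .leaf))) (nat_lit 157702) (nat_lit 1462) (.p (nat_lit 460) (nat_lit 1) (.p (nat_lit 461) (nat_lit 2) (.p (nat_lit 462) (nat_lit 3) (.n (nat_lit 463) (nat_lit 2) (.p (nat_lit 464) (nat_lit 2) (.n (nat_lit 465) (nat_lit 1) (.n (nat_lit 467) (nat_lit 2) (.p (nat_lit 468) (nat_lit 1) (.p (nat_lit 469) (nat_lit 2) (.n (nat_lit 471) (nat_lit 2) (.p (nat_lit 472) (nat_lit 2) (.p (nat_lit 473) (nat_lit 2) (.p (nat_lit 474) (nat_lit 2) (.n (nat_lit 476) (nat_lit 1) (.p (nat_lit 477) (nat_lit 3) (.n (nat_lit 479) (nat_lit 1) (.p (nat_lit 481) (nat_lit 2) (.p (nat_lit 489) (nat_lit 3) (.p (nat_lit 493) (nat_lit 2) .z))))))))))))))))))) (.ct dC1c_c293 (nat_lit 1) (nat_lit 9) (.s true (nat_lit 3) (nat_lit 17) (nat_lit 10) (nat_lit 2) (nat_lit 2) true (nat_lit 1) true (nat_lit 13) true (nat_lit 4) true (nat_lit 7) true (nat_lit 13) (.s true (nat_lit 1) (nat_lit 18) (nat_lit 10) (nat_lit 2) (nat_lit 1) true (nat_lit 2) true (nat_lit 14) true (nat_lit 3) true (nat_lit 7) true (nat_lit 13) (.s true (nat_lit 1) (nat_lit 25) (nat_lit 2) (nat_lit 6) (nat_lit 2) true (nat_lit 9) true (nat_lit 13) true (nat_lit 2) true (nat_lit 13) true (nat_lit 9) (.e true (nat_lit 3) (nat_lit 44) (nat_lit 31) (nat_lit 1) (.e true (nat_lit 2) (nat_lit 291) (nat_lit 2) (nat_lit 13) (.e false (nat_lit 2) (nat_lit 299) (nat_lit 2) (nat_lit 13) (.e false (nat_lit 1) (nat_lit 304) (nat_lit 2) (nat_lit 13) (.e true (nat_lit 1) (nat_lit 308) (nat_lit 2) (nat_lit 13) (.e true (nat_lit 3) (nat_lit 82) (nat_lit 17) (nat_lit 4) (.e false (nat_lit 3) (nat_lit 290) (nat_lit 2) (nat_lit 13) (.e false (nat_lit 2) (nat_lit 292) (nat_lit 2) (nat_lit 13) (.e true (nat_lit 2) (nat_lit 293) (nat_lit 2) (nat_lit 13) (.e true (nat_lit 3) (nat_lit 301) (nat_lit 2) (nat_lit 13) (.e true (nat_lit 2) (nat_lit 307) (nat_lit 2) (nat_lit 13) (.e true (nat_lit 2) (nat_lit 310) (nat_lit 2) (nat_lit 13) (.e true (nat_lit 3) (nat_lit 311) (nat_lit 2) (nat_lit 13) (.e true (nat_lit 3) (nat_lit 319) (nat_lit 2) (nat_lit 13) (.e true (nat_lit 1) (nat_lit 70) (nat_lit 18) (nat_lit 3) (.e true (nat_lit 1) (nat_lit 105) (nat_lit 10) (nat_lit 7) (.e true (nat_lit 1) (nat_lit 298) (nat_lit 2) (nat_lit 13) (.e false (nat_lit 1) (nat_lit 171) (nat_lit 6) (nat_lit 9) (.u (nat_lit 2) (.n (nat_lit 0) (nat_lit 7) (.n (nat_lit 1) (nat_lit 4) (.n (nat_lit 2) (nat_lit 6) (.n (nat_lit 3) (nat_lit 1) (.n (nat_lit 4) (nat_lit 2) (.p (nat_lit 5) (nat_lit 1) (.p (nat_lit 6) (nat_lit 3) (.p (nat_lit 7) (nat_lit 2) (.n (nat_lit 9) (nat_lit 1) (.p (nat_lit 10) (nat_lit 1) (.p (nat_lit 11) (nat_lit 1) (.p (nat_lit 13) (nat_lit 5) (.p (nat_lit 14) (nat_lit 5) (.p (nat_lit 15) (nat_lit 2) (.n (nat_lit 16) (nat_lit 1) (.n (nat_lit 17) (nat_lit 2) (.p (nat_lit 19) (nat_lit 5) (.n (nat_lit 21) (nat_lit 1) (.p (nat_lit 26) (nat_lit 1) (.p (nat_lit 29) (nat_lit 1) (.p (nat_lit 113) (nat_lit 1) (.p (nat_lit 114) (nat_lit 1) (.n (nat_lit 173) (nat_lit 1) (.n (nat_lit 174) (nat_lit 2) (.n (nat_lit 182) (nat_lit 1) (.n (nat_lit 184) (nat_lit 1) (.p (nat_lit 187) (nat_lit 2) (.p (nat_lit 190) (nat_lit 1) (.p (nat_lit 191) (nat_lit 2) (.n (nat_lit 200) (nat_lit 1) .z)))))))))))))))))))))))))))))) .nil))))))))))))))))))))))) (.nd (.nd (.nd (.nd .leaf (nat_lit 158720) (nat_lit 420) (.p (nat_lit 214) (nat_lit 1) .z) .df .leaf) (nat_lit 158722) (nat_lit 684) (.p (nat_lit 292) (nat_lit 1) .z) .df .leaf) (nat_lit 158724) (nat_lit 1161) (.p (nat_lit 357) (nat_lit 2) (.p (nat_lit 358) (nat_lit 2) (.p (nat_lit 359) (nat_lit 2) (.n (nat_lit 361) (nat_lit 1) (.p (nat_lit 362) (nat_lit 1) (.p (nat_lit 363) (nat_lit 3) (.p (nat_lit 365) (nat_lit 2) (.p (nat_lit 366) (nat_lit 1) (.p (nat_lit 367) (nat_lit 2) (.p (nat_lit 369) (nat_lit 2) (.n (nat_lit 370) (nat_lit 1) (.p (nat_lit 373) (nat_lit 3) (.p (nat_lit 374) (nat_lit 2) (.p (nat_lit 375) (nat_lit 1) (.n (nat_lit 381) (nat_lit 1) (.n (nat_lit 382) (nat_lit 1) (.p (nat_lit 383) (nat_lit 3) (.n (nat_lit 384) (nat_lit 2) (.p (nat_lit 385) (nat_lit 1) (.n (nat_lit 386) (nat_lit 2) (.p (nat_lit 387) (nat_lit 3) (.p (nat_lit 388) (nat_lit 3) (.p (nat_lit 390) (nat_lit 3) (.p (nat_lit 392) (nat_lit 2) (.n (nat_lit 393) (nat_lit 2) (.n (nat_lit 395) (nat_lit 1) (.n (nat_lit 396) (nat_lit 3) (.n (nat_lit 406) (nat_lit 1) .z)))))))))))))))))))))))))))) (.ct dC1c_c548 (nat_lit 1) (nat_lit 15) (.s true (nat_lit 1) (nat_lit 15) (nat_lit 13) (nat_lit 0) (nat_lit 2) false (nat_lit 1) true (nat_lit 17) true (nat_lit 7) true (nat_lit 8) true (nat_lit 19) dC1c_i216)) (.nd (.nd .leaf (nat_lit 158726) (nat_lit 1501) (.p (nat_lit 460) (nat_lit 2) (.p (nat_lit 462) (nat_lit 2) (.p (nat_lit 463) (nat_lit 3) (.n (nat_lit 464) (nat_lit 2) (.n (nat_lit 467) (nat_lit 2) (.p (nat_lit 468) (nat_lit 3) (.p (nat_lit 469) (nat_lit 3) (.n (nat_lit 470) (nat_lit 3) (.p (nat_lit 471) (nat_lit 2) (.n (nat_lit 473) (nat_lit 1) (.n (nat_lit 474) (nat_lit 1) (.n (nat_lit 475) (nat_lit 3) (.n (nat_lit 476) (nat_lit 3) (.p (nat_lit 477) (nat_lit 2) (.p (nat_lit 479) (nat_lit 2) (.p (nat_lit 482) (nat_lit 2) (.p (nat_lit 489) (nat_lit 2) (.n (nat_lit 493) (nat_lit 1) .z)))))))))))))))))) (.ct dC1c_c293 (nat_lit 1) (nat_lit 9) (.s true (nat_lit 1) (nat_lit 26) (nat_lit 2) (nat_lit 2) (nat_lit 6) true (nat_lit 3) true (nat_lit 9) true (nat_lit 2) true (nat_lit 13) true (nat_lit 13) (.e false (nat_lit 1) (nat_lit 68) (nat_lit 18) (nat_lit 3) (.e false (nat_lit 1) (nat_lit 318) (nat_lit 2) (nat_lit 13) (.u (nat_lit 2) (.n (nat_lit 2) (nat_lit 1) (.n (nat_lit 3) (nat_lit 1) (.p (nat_lit 4) (nat_lit 1) (.n (nat_lit 8) (nat_lit 1) (.p (nat_lit 10) (nat_lit 1) (.p (nat_lit 16) (nat_lit 1) .z)))))) .nil))))) .leaf) (nat_lit 159744) (nat_lit 421) (.p (nat_lit 215) (nat_lit 1) .z) .df .leaf)) (nat_lit 159746) (nat_lit 685) (.p (nat_lit 293) (nat_lit 1) .z) .df (.nd (.nd (.nd .leaf (nat_lit 159748) (nat_lit 1160) (.n (nat_lit 356) (nat_lit 2) (.n (nat_lit 357) (nat_lit 3) (.n (nat_lit 358) (nat_lit 3) (.n (nat_lit 359) (nat_lit 3) (.p (nat_lit 360) (nat_lit 1) (.p (nat_lit 361) (nat_lit 1) (.n (nat_lit 362) (nat_lit 1) (.p (nat_lit 364) (nat_lit 2) (.n (nat_lit 365) (nat_lit 3) (.n (nat_lit 366) (nat_lit 3) (.n (nat_lit 367) (nat_lit 3) (.p (nat_lit 369) (nat_lit 2) (.n (nat_lit 370) (nat_lit 2) (.p (nat_lit 372) (nat_lit 3) (.p (nat_lit 373) (nat_lit 2) (.p (nat_lit 374) (nat_lit 3) (.p (nat_lit 375) (nat_lit 3) (.n (nat_lit 381) (nat_lit 2) (.p (nat_lit 382) (nat_lit 3) (.n (nat_lit 384) (nat_lit 3) (.n (nat_lit 385) (nat_lit 3) (.n (nat_lit 386) (nat_lit 2) (.n (nat_lit 387) (nat_lit 1) (.p (nat_lit 389) (nat_lit 3) (.p (nat_lit 390) (nat_lit 3) (.n (nat_lit 391) (nat_lit 2) (.n (nat_lit 392) (nat_lit 3) (.n (nat_lit 394) (nat_lit 3) (.n (nat_lit 395) (nat_lit 2) (.p (nat_lit 405) (nat_lit 1) (.n (nat_lit 406) (nat_lit 1) .z))))))))))))))))))))))))))))))) (.ct dC1c_c548 (nat_lit 1) (nat_lit 15) dC1c_i219) .leaf) (nat_lit 159750) (nat_lit 1502) (.p (nat_lit 461) (nat_lit 1) (.p (nat_lit 462) (nat_lit 3) (.p (nat_lit 464) (nat_lit 1) (.p (nat_lit 465) (nat_lit 3) (.n (nat_lit 469) (nat_lit 3) (.n (nat_lit 470) (nat_lit 2) (.n (nat_lit 471) (nat_lit 1) (.n (nat_lit 472) (nat_lit 3) (.p (nat_lit 475) (nat_lit 3) (.n (nat_lit 476) (nat_lit 2) (.n (nat_lit 477) (nat_lit 1) (.p (nat_lit 479) (nat_lit 1) (.n (nat_lit 481) (nat_lit 2) (.p (nat_lit 482) (nat_lit 2) (.p (nat_lit 489) (nat_lit 1) (.p (nat_lit 493) (nat_lit 3) .z)))))))))))))))) (.ct dC1c_c293 (nat_lit 1) (nat_lit 9) (.s true (nat_lit 1) (nat_lit 6) (nat_lit 3) (nat_lit 6) (nat_lit 5) true (nat_lit 2) true (nat_lit 10) true (nat_lit 9) true (nat_lit 12) true (nat_lit 9) (.e false (nat_lit 2) (nat_lit 188) (nat_lit 5) (nat_lit 10) (.e false (nat_lit 1) (nat_lit 155) (nat_lit 6) (nat_lit 9) (.e true (nat_lit 2) (nat_lit 153) (nat_lit 6) (nat_lit 9) (.e false (nat_lit 1) (nat_lit 162) (nat_lit 6) (nat_lit 9) (.e false (nat_lit 1) (nat_lit 170) (nat_lit 6) (nat_lit 9) (.e true (nat_lit 1) (nat_lit 173) (nat_lit 6) (nat_lit 9) (.e false (nat_lit 1) (nat_lit 157) (nat_lit 6) (nat_lit 9) (.e false (nat_lit 2) (nat_lit 208) (nat_lit 3) (nat_lit 12) (.e false (nat_lit 2) (nat_lit 209) (nat_lit 3) (nat_lit 12) (.e true (nat_lit 1) (nat_lit 167) (nat_lit 6) (nat_lit 9) (.u (nat_lit 2) (.n (nat_lit 1) (nat_lit 3) (.p (nat_lit 2) (nat_lit 1) (.n (nat_lit 4) (nat_lit 1) (.p (nat_lit 5) (nat_lit 1) (.p (nat_lit 8) (nat_lit 2) (.p (nat_lit 9) (nat_lit 1) (.p (nat_lit 10) (nat_lit 1) (.n (nat_lit 11) (nat_lit 1) (.n (nat_lit 12) (nat_lit 1) (.p (nat_lit 13) (nat_lit 1) (.p (nat_lit 14) (nat_lit 1) (.n (nat_lit 15) (nat_lit 3) (.n (nat_lit 16) (nat_lit 1) (.n (nat_lit 17) (nat_lit 1) (.n (nat_lit 19) (nat_lit 2) (.n (nat_lit 21) (nat_lit 1) (.p (nat_lit 23) (nat_lit 1) (.n (nat_lit 29) (nat_lit 2) (.n (nat_lit 33) (nat_lit 4) (.p (nat_lit 126) (nat_lit 1) (.p (nat_lit 128) (nat_lit 1) (.p (nat_lit 133) (nat_lit 1) (.n (nat_lit 134) (nat_lit 1) (.n (nat_lit 135) (nat_lit 1) (.n (nat_lit 142) (nat_lit 1) (.p (nat_lit 145) (nat_lit 1) .z)))))))))))))))))))))))))) .nil))))))))))))) .leaf) (nat_lit 160768) (nat_lit 422) (.p (nat_lit 216) (nat_lit 1) .z) .df (.nd (.nd .leaf (nat_lit 160770) (nat_lit 686) (.p (nat_lit 294) (nat_lit 1) .z) .df .leaf) (nat_lit 160772) (nat_lit 1014) (.p (nat_lit 355) (nat_lit 1) (.p (nat_lit 356) (nat_lit 1) (.n (nat_lit 357) (nat_lit 3) (.n (nat_lit 358) (nat_lit 1) (.p (nat_lit 359) (nat_lit 1) (.n (nat_lit 361) (nat_lit 3) (.p (nat_lit 362) (nat_lit 3) (.n (nat_lit 363) (nat_lit 3) (.p (nat_lit 364) (nat_lit 1) (.n (nat_lit 365) (nat_lit 1) (.n (nat_lit 366) (nat_lit 1) (.p (nat_lit 367) (nat_lit 1) (.p (nat_lit 370) (nat_lit 3) (.p (nat_lit 372) (nat_lit 3) (.p (nat_lit 373) (nat_lit 3) (.p (nat_lit 374) (nat_lit 2) (.n (nat_lit 375) (nat_lit 3) (.p (nat_lit 381) (nat_lit 1) (.p (nat_lit 382) (nat_lit 1) (.p (nat_lit 383) (nat_lit 1) (.n (nat_lit 384) (nat_lit 1) (.p (nat_lit 386) (nat_lit 3) (.n (nat_lit 387) (nat_lit 2) (.p (nat_lit 388) (nat_lit 2) (.p (nat_lit 389) (nat_lit 2) (.n (nat_lit 390) (nat_lit 1) (.p (nat_lit 391) (nat_lit 1) (.n (nat_lit 392) (nat_lit 1) (.n (nat_lit 393) (nat_lit 3) (.p (nat_lit 395) (nat_lit 2) (.n (nat_lit 396) (nat_lit 1) (.n (nat_lit 407) (nat_lit 1) .z)))))))))))))))))))))))))))))))) (.ct dC1c_c548 (nat_lit 1) (nat_lit 15) (.s true (nat_lit 1) (nat_lit 31) (nat_lit 0) (nat_lit 2) (nat_lit 5) true (nat_lit 9) true (nat_lit 14) true (nat_lit 0) true (nat_lit 19) true (nat_lit 17) (.s true (nat_lit 1) (nat_lit 31) (nat_lit 2) (nat_lit 1) (nat_lit 4) true (nat_lit 7) true (nat_lit 15) true (nat_lit 0) true (nat_lit 17) true (nat_lit 18) (.s true (nat_lit 1) (nat_lit 70) (nat_lit 0) (nat_lit 2) (nat_lit 2) true (nat_lit 15) true (nat_lit 17) false (nat_lit 7) true (nat_lit 19) true (nat_lit 17) (.s true (nat_lit 1) (nat_lit 82) (nat_lit 2) (nat_lit 1) (nat_lit 0) true (nat_lit 15) true (nat_lit 19) false (nat_lit 9) true (nat_lit 17) true (nat_lit 18) (.e true (nat_lit 1) (nat_lit 139) (nat_lit 5) (nat_lit 14) (.e false (nat_lit 1) (nat_lit 291) (nat_lit 0) (nat_lit 19) (.e false (nat_lit 2) (nat_lit 294) (nat_lit 0) (nat_lit 19) (.e true (nat_lit 1) (nat_lit 299) (nat_lit 0) (nat_lit 19) dC1c_i220))))))))) .leaf))))) (nat_lit 160774) (nat_lit 1457) (.p (nat_lit 460) (nat_lit 1) (.p (nat_lit 461) (nat_lit 1) (.n (nat_lit 462) (nat_lit 1) (.n (nat_lit 463) (nat_lit 2) (.p (nat_lit 465) (nat_lit 1) (.p (nat_lit 468) (nat_lit 2) (.p (nat_lit 469) (nat_lit 3) (.p (nat_lit 470) (nat_lit 1) (.n (nat_lit 471) (nat_lit 3) (.n (nat_lit 472) (nat_lit 3) (.p (nat_lit 473) (nat_lit 1) (.p (nat_lit 474) (nat_lit 1) (.p (nat_lit 475) (nat_lit 1) (.p (nat_lit 476) (nat_lit 1) (.n (nat_lit 477) (nat_lit 3) (.n (nat_lit 479) (nat_lit 1) (.p (nat_lit 483) (nat_lit 2) (.n (nat_lit 489) (nat_lit 3) (.n (nat_lit 493) (nat_lit 2) .z))))))))))))))))))) (.ct dC1c_c293 (nat_lit 1) (nat_lit 9) (.s true (nat_lit 1) (nat_lit 31) (nat_lit 1) (nat_lit 2) (nat_lit 6) true (nat_lit 4) true (nat_lit 9) true (nat_lit 1) true (nat_lit 14) true (nat_lit 13) (.s false (nat_lit 1) (nat_lit 31) (nat_lit 2) (nat_lit 2) (nat_lit 5) true (nat_lit 4) true (nat_lit 10) true (nat_lit 1) true (nat_lit 13) true (nat_lit 13) (.s true (nat_lit 1) (nat_lit 82) (nat_lit 1) (nat_lit 2) (nat_lit 2) true (nat_lit 10) true (nat_lit 13) false (nat_lit 4) true (nat_lit 14) true (nat_lit 13) (.e true (nat_lit 1) (nat_lit 82) (nat_lit 17) (nat_lit 4) (.e false (nat_lit 1) (nat_lit 336) (nat_lit 1) (nat_lit 14) (.e false (nat_lit 1) (nat_lit 291) (nat_lit 2) (nat_lit 13) (.e false (nat_lit 3) (nat_lit 294) (nat_lit 2) (nat_lit 13) (.e true (nat_lit 1) (nat_lit 299) (nat_lit 2) (nat_lit 13) (.e false (nat_lit 1) (nat_lit 301) (nat_lit 2) (nat_lit 13) (.e true (nat_lit 1) (nat_lit 304) (nat_lit 2) (nat_lit 13) (.e true (nat_lit 1) (nat_lit 308) (nat_lit 2) (nat_lit 13) (.e true (nat_lit 1) (nat_lit 311) (nat_lit 2) (nat_lit 13) (.e false (nat_lit 1) (nat_lit 319) (nat_lit 2) (nat_lit 13) (.u (nat_lit 2) (.p (nat_lit 0) (nat_lit 1) (.n (nat_lit 1) (nat_lit 1) (.n (nat_lit 4) (nat_lit 1) (.n (nat_lit 9) (nat_lit 1) (.n (nat_lit 14) (nat_lit 1) (.p (nat_lit 15) (nat_lit 1) .z)))))) .nil))))))))))))))) (.nd (.nd (.nd (.nd (.nd (.nd .leaf (nat_lit 161792) (nat_lit 423) (.p (nat_lit 217) (nat_lit 1) .z) .df .leaf) (nat_lit 161794) (nat_lit 687) (.p (nat_lit 295) (nat_lit 1) .z) .df .leaf) (nat_lit 161798) (nat_lit 1519) (.n (nat_lit 460) (nat_lit 2) (.n (nat_lit 461) (nat_lit 2) (.n (nat_lit 462) (nat_lit 2) (.n (nat_lit 463) (nat_lit 3) (.n (nat_lit 464) (nat_lit 3) (.p (nat_lit 467) (nat_lit 3) (.n (nat_lit 468) (nat_lit 1) (.n (nat_lit 469) (nat_lit 1) (.p (nat_lit 470) (nat_lit 1) (.n (nat_lit 471) (nat_lit 3) (.n (nat_lit 473) (nat_lit 2) (.n (nat_lit 474) (nat_lit 2) (.p (nat_lit 475) (nat_lit 2) (.p (nat_lit 476) (nat_lit 2) (.n (nat_lit 477) (nat_lit 2) (.p (nat_lit 479) (nat_lit 2) (.p (nat_lit 484) (nat_lit 2) .z))))))))))))))))) (.ct dC1c_c293 (nat_lit 1) (nat_lit 9) (.s true (nat_lit 1) (nat_lit 71) (nat_lit 2) (nat_lit 2) (nat_lit 2) true (nat_lit 9) true (nat_lit 13) false (nat_lit 3) true (nat_lit 13) true (nat_lit 13) (.e false (nat_lit 3) (nat_lit 295) (nat_lit 2) (nat_lit 13) (.e false (nat_lit 1) (nat_lit 71) (nat_lit 18) (nat_lit 3) (.e false (nat_lit 2) (nat_lit 291) (nat_lit 2) (nat_lit 13) (.e false (nat_lit 3) (nat_lit 292) (nat_lit 2) (nat_lit 13) (.e false (nat_lit 1) (nat_lit 293) (nat_lit 2) (nat_lit 13) (.e false (nat_lit 1) (nat_lit 294) (nat_lit 2) (nat_lit 13) (.e true (nat_lit 1) (nat_lit 296) (nat_lit 2) (nat_lit 13) (.e false (nat_lit 1) (nat_lit 297) (nat_lit 2) (nat_lit 13) (.e false (nat_lit 1) (nat_lit 299) (nat_lit 2) (nat_lit 13) (.e false (nat_lit 1) (nat_lit 300) (nat_lit 2) (nat_lit 13) (.e true (nat_lit 3) (nat_lit 301) (nat_lit 2) (nat_lit 13) (.e true (nat_lit 3) (nat_lit 304) (nat_lit 2) (nat_lit 13) (.e true (nat_lit 3) (nat_lit 307) (nat_lit 2) (nat_lit 13) (.e true (nat_lit 3) (nat_lit 308) (nat_lit 2) (nat_lit 13) (.e true (nat_lit 1) (nat_lit 309) (nat_lit 2) (nat_lit 13) (.e false (nat_lit 1) (nat_lit 310) (nat_lit 2) (nat_lit 13) (.e true (nat_lit 2) (nat_lit 316) (nat_lit 2) (nat_lit 13) (.e true (nat_lit 2) (nat_lit 317) (nat_lit 2) (nat_lit 13) (.e false (nat_lit 2) (nat_lit 318) (nat_lit 2) (nat_lit 13) (.u (nat_lit 2) (.p (nat_lit 0) (nat_lit 3) (.n (nat_lit 1) (nat_lit 1) (.p (nat_lit 2) (nat_lit 2) (.n (nat_lit 3) (nat_lit 1) (.p (nat_lit 4) (nat_lit 2) (.p (nat_lit 5) (nat_lit 3) (.p (nat_lit 7) (nat_lit 1) (.p (nat_lit 8) (nat_lit 1) (.p (nat_lit 9) (nat_lit 4) (.n (nat_lit 10) (nat_lit 1) (.n (nat_lit 13) (nat_lit 1) (.n (nat_lit 14) (nat_lit 1) (.p (nat_lit 15) (nat_lit 1) (.p (nat_lit 17) (nat_lit 2) (.n (nat_lit 19) (nat_lit 1) (.n (nat_lit 21) (nat_lit 2) (.p (nat_lit 22) (nat_lit 1) (.n (nat_lit 26) (nat_lit 1) (.p (nat_lit 29) (nat_lit 1) (.p (nat_lit 33) (nat_lit 1) .z)))))))))))))))))))) .nil)))))))))))))))))))))) (.nd (.nd .leaf (nat_lit 162816) (nat_lit 424) (.p (nat_lit 218) (nat_lit 1) .z) .df .leaf) (nat_lit 162818) (nat_lit 688) (.p (nat_lit 296) (nat_lit 1) .z) .df .leaf)) (nat_lit 162820) (nat_lit 1148) (.p (nat_lit 356) (nat_lit 3) (.p (nat_lit 357) (nat_lit 3) (.n (nat_lit 358) (nat_lit 2) (.p (nat_lit 359) (nat_lit 1) (.p (nat_lit 361) (nat_lit 1) (.p (nat_lit 364) (nat_lit 3) (.n (nat_lit 367) (nat_lit 1) (.n (nat_lit 369) (nat_lit 2) (.n (nat_lit 370) (nat_lit 3) (.n (nat_lit 372) (nat_lit 1) (.p (nat_lit 373) (nat_lit 1) (.p (nat_lit 374) (nat_lit 3) (.p (nat_lit 375) (nat_lit 2) (.n (nat_lit 381) (nat_lit 1) (.n (nat_lit 382) (nat_lit 3) (.p (nat_lit 384) (nat_lit 3) (.p (nat_lit 385) (nat_lit 3) (.p (nat_lit 386) (nat_lit 2) (.n (nat_lit 388) (nat_lit 2) (.p (nat_lit 389) (nat_lit 2) (.n (nat_lit 390) (nat_lit 3) (.p (nat_lit 391) (nat_lit 1) (.n (nat_lit 392) (nat_lit 3) (.n (nat_lit 393) (nat_lit 1) (.p (nat_lit 395) (nat_lit 3) (.p (nat_lit 396) (nat_lit 2) (.n (nat_lit 409) (nat_lit 1) .z))))))))))))))))))))))))))) (.ct dC1c_c548 (nat_lit 1) (nat_lit 15) (.s true (nat_lit 1) (nat_lit 72) (nat_lit 0) (nat_lit 2) (nat_lit 2) true (nat_lit 15) true (nat_lit 17) false (nat_lit 7) true (nat_lit 19) true (nat_lit 17) (.e false (nat_lit 1) (nat_lit 251) (nat_lit 2) (nat_lit 17) (.e true (nat_lit 2) (nat_lit 212) (nat_lit 2) (nat_lit 17) dC1c_i222)))) (.nd (.nd (.nd .leaf (nat_lit 162822) (nat_lit 1517) (.p (nat_lit 460) (nat_lit 2) (.n (nat_lit 461) (nat_lit 1) (.n (nat_lit 462) (nat_lit 2) (.p (nat_lit 463) (nat_lit 3) (.n (nat_lit 464) (nat_lit 1) (.n (nat_lit 465) (nat_lit 3) (.n (nat_lit 467) (nat_lit 3) (.p (nat_lit 468) (nat_lit 3) (.p (nat_lit 469) (nat_lit 2) (.p (nat_lit 471) (nat_lit 3) (.p (nat_lit 473) (nat_lit 1) (.p (nat_lit 474) (nat_lit 1) (.n (nat_lit 475) (nat_lit 3) (.p (nat_lit 476) (nat_lit 1) (.p (nat_lit 477) (nat_lit 1) (.p (nat_lit 479) (nat_lit 2) (.p (nat_lit 485) (nat_lit 2) (.n (nat_lit 489) (nat_lit 2) (.p (nat_lit 493) (nat_lit 1) .z))))))))))))))))))) (.ct dC1c_c293 (nat_lit 1) (nat_lit 9) (.s true (nat_lit 1) (nat_lit 72) (nat_lit 2) (nat_lit 2) (nat_lit 2) true (nat_lit 9) true (nat_lit 13) false (nat_lit 3) true (nat_lit 13) true (nat_lit 13) (.e false (nat_lit 3) (nat_lit 296) (nat_lit 2) (nat_lit 13) (.e false (nat_lit 1) (nat_lit 72) (nat_lit 18) (nat_lit 3) (.e false (nat_lit 1) (nat_lit 290) (nat_lit 2) (nat_lit 13) (.e true (nat_lit 2) (nat_lit 292) (nat_lit 2) (nat_lit 13) (.e true (nat_lit 1) (nat_lit 297) (nat_lit 2) (nat_lit 13) (.e true (nat_lit 3) (nat_lit 299) (nat_lit 2) (nat_lit 13) (.e true (nat_lit 2) (nat_lit 300) (nat_lit 2) (nat_lit 13) (.e false (nat_lit 2) (nat_lit 301) (nat_lit 2) (nat_lit 13) (.e true (nat_lit 3) (nat_lit 304) (nat_lit 2) (nat_lit 13) (.e true (nat_lit 2) (nat_lit 307) (nat_lit 2) (nat_lit 13) (.e false (nat_lit 3) (nat_lit 308) (nat_lit 2) (nat_lit 13) (.e false (nat_lit 2) (nat_lit 310) (nat_lit 2) (nat_lit 13) (.e false (nat_lit 1) (nat_lit 318) (nat_lit 2) (nat_lit 13) (.u (nat_lit 2) (.p (nat_lit 0) (nat_lit 1) (.p (nat_lit 2) (nat_lit 1) (.n (nat_lit 4) (nat_lit 2) (.n (nat_lit 5) (nat_lit 1) (.n (nat_lit 7) (nat_lit 1) (.p (nat_lit 8) (nat_lit 2) (.n (nat_lit 9) (nat_lit 2) (.n (nat_lit 11) (nat_lit 1) (.n (nat_lit 12) (nat_lit 3) (.n (nat_lit 13) (nat_lit 5) (.n (nat_lit 14) (nat_lit 5) (.n (nat_lit 15) (nat_lit 2) (.p (nat_lit 16) (nat_lit 1) (.p (nat_lit 17) (nat_lit 2) (.p (nat_lit 21) (nat_lit 1) (.n (nat_lit 23) (nat_lit 1) (.n (nat_lit 29) (nat_lit 1) (.p (nat_lit 33) (nat_lit 1) .z)))))))))))))))))) .nil)))))))))))))))) .leaf) (nat_lit 163840) (nat_lit 425) (.p (nat_lit 219) (nat_lit 1) .z) .df .leaf) (nat_lit 163842) (nat_lit 689) (.p (nat_lit 297) (nat_lit 1) .z) .df (.nd (.nd .leaf (nat_lit 163844) (nat_lit 990) (.p (nat_lit 355) (nat_lit 3) (.p (nat_lit 356) (nat_lit 3) (.p (nat_lit 358) (nat_lit 1) (.p (nat_lit 359) (nat_lit 2) (.p (nat_lit 360) (nat_lit 1) (.n (nat_lit 361) (nat_lit 2) (.p (nat_lit 362) (nat_lit 3) (.n (nat_lit 363) (nat_lit 3) (.p (nat_lit 364) (nat_lit 1) (.p (nat_lit 365) (nat_lit 3) (.n (nat_lit 366) (nat_lit 3) (.p (nat_lit 367) (nat_lit 2) (.n (nat_lit 370) (nat_lit 1) (.n (nat_lit 372) (nat_lit 1) (.p (nat_lit 373) (nat_lit 3) (.n (nat_lit 374) (nat_lit 1) (.n (nat_lit 375) (nat_lit 2) (.n (nat_lit 410) (nat_lit 1) .z)))))))))))))))))) (.ct dC1c_c548 (nat_lit 1) (nat_lit 15) (.s false (nat_lit 3) (nat_lit 37) (nat_lit 0) (nat_lit 2) (nat_lit 4) true (nat_lit 10) true (nat_lit 15) false (nat_lit 1) true (nat_lit 19) true (nat_lit 17) (.s false (nat_lit 3) (nat_lit 37) (nat_lit 2) (nat_lit 0) (nat_lit 4) true (nat_lit 7) true (nat_lit 15) false (nat_lit 1) true (nat_lit 17) true (nat_lit 19) (.s false (nat_lit 3) (nat_lit 73) (nat_lit 0) (nat_lit 2) (nat_lit 2) true (nat_lit 15) true (nat_lit 17) false (nat_lit 7) true (nat_lit 19) true (nat_lit 17) (.s true (nat_lit 3) (nat_lit 93) (nat_lit 0) (nat_lit 0) (nat_lit 2) true (nat_lit 15) true (nat_lit 17) false (nat_lit 10) true (nat_lit 19) true (nat_lit 19) (.s true (nat_lit 3) (nat_lit 93) (nat_lit 0) (nat_lit 2) (nat_lit 0) false (nat_lit 20) true (nat_lit 19) false (nat_lit 10) true (nat_lit 19) true (nat_lit 17) (.e false (nat_lit 3) (nat_lit 290) (nat_lit 0) (nat_lit 19) (.e false (nat_lit 3) (nat_lit 291) (nat_lit 0) (nat_lit 19) (.e false (nat_lit 1) (nat_lit 293) (nat_lit 0) (nat_lit 19) (.e false (nat_lit 1) (nat_lit 295) (nat_lit 0) (nat_lit 19) (.e true (nat_lit 2) (nat_lit 296) (nat_lit 0) (nat_lit 19) (.e false (nat_lit 3) (nat_lit 297) (nat_lit 0) (nat_lit 19) (.e true (nat_lit 3) (nat_lit 298) (nat_lit 0) (nat_lit 19) (.e false (nat_lit 1) (nat_lit 299) (nat_lit 0) (nat_lit 19) (.e false (nat_lit 3) (nat_lit 300) (nat_lit 0) (nat_lit 19) (.e true (nat_lit 3) (nat_lit 301) (nat_lit 0) (nat_lit 19) (.e false (nat_lit 2) (nat_lit 302) (nat_lit 0) (nat_lit 19) (.e true (nat_lit 1) (nat_lit 305) (nat_lit 0) (nat_lit 19) (.e true (nat_lit 1) (nat_lit 307) (nat_lit 0) (nat_lit 19) (.e false (nat_lit 3) (nat_lit 308) (nat_lit 0) (nat_lit 19) (.e true (nat_lit 1) (nat_lit 309) (nat_lit 0) (nat_lit 19) (.e true (nat_lit 2) (nat_lit 310) (nat_lit 0) (nat_lit 19) (.e true (nat_lit 1) (nat_lit 219) (nat_lit 2) (nat_lit 17) (.e false (nat_lit 2) (nat_lit 294) (nat_lit 0) (nat_lit 19) (.u (nat_lit 2) (.p (nat_lit 297) (nat_lit 1) (.n (nat_lit 327) (nat_lit 12) (.p (nat_lit 328) (nat_lit 3) (.n (nat_lit 329) (nat_lit 3) (.p (nat_lit 330) (nat_lit 24) (.n (nat_lit 331) (nat_lit 21) (.n (nat_lit 332) (nat_lit 6) (.n (nat_lit 333) (nat_lit 3) (.n (nat_lit 334) (nat_lit 11) (.n (nat_lit 335) (nat_lit 6) (.p (nat_lit 336) (nat_lit 9) (.n (nat_lit 337) (nat_lit 9) (.p (nat_lit 338) (nat_lit 15) (.p (nat_lit 339) (nat_lit 6) (.p (nat_lit 340) (nat_lit 9) (.n (nat_lit 341) (nat_lit 3) (.p (nat_lit 342) (nat_lit 6) (.p (nat_lit 343) (nat_lit 9) (.p (nat_lit 345) (nat_lit 9) (.p (nat_lit 346) (nat_lit 9) (.p (nat_lit 347) (nat_lit 12) (.n (nat_lit 348) (nat_lit 3) (.n (nat_lit 349) (nat_lit 6) (.p (nat_lit 350) (nat_lit 3) (.p (nat_lit 351) (nat_lit 6) (.p (nat_lit 352) (nat_lit 6) (.p (nat_lit 353) (nat_lit 3) (.p (nat_lit 354) (nat_lit 12) (.n (nat_lit 355) (nat_lit 6) (.n (nat_lit 356) (nat_lit 3) (.n (nat_lit 358) (nat_lit 6) (.p (nat_lit 359) (nat_lit 3) (.p (nat_lit 360) (nat_lit 6) (.n (nat_lit 361) (nat_lit 12) (.p (nat_lit 362) (nat_lit 9) (.n (nat_lit 363) (nat_lit 6) (.p (nat_lit 366) (nat_lit 9) (.p (nat_lit 368) (nat_lit 3) (.p (nat_lit 370) (nat_lit 3) (.n (nat_lit 372) (nat_lit 3) (.n (nat_lit 373) (nat_lit 9) (.p (nat_lit 374) (nat_lit 3) (.n (nat_lit 405) (nat_lit 3) (.n (nat_lit 408) (nat_lit 1) (.n (nat_lit 409) (nat_lit 2) (.n (nat_lit 410) (nat_lit 1) (.n (nat_lit 411) (nat_lit 1) (.n (nat_lit 412) (nat_lit 3) (.p (nat_lit 413) (nat_lit 3) (.n (nat_lit 414) (nat_lit 4) (.n (nat_lit 415) (nat_lit 3) (.p (nat_lit 416) (nat_lit 3) (.p (nat_lit 417) (nat_lit 1) (.p (nat_lit 420) (nat_lit 1) (.n (nat_lit 422) (nat_lit 2) (.n (nat_lit 423) (nat_lit 3) (.p (nat_lit 424) (nat_lit 1) (.n (nat_lit 425) (nat_lit 1) (.p (nat_lit 431) (nat_lit 3) (.n (nat_lit 433) (nat_lit 3) .z)))))))))))))))))))))))))))))))))))))))))))))))))))))))))))) .nil))))))))))))))))))))))))) .leaf) (nat_lit 163846) (nat_lit 1520) (.p (nat_lit 460) (nat_lit 1) (.n (nat_lit 461) (nat_lit 2) (.n (nat_lit 462) (nat_lit 2) (.n (nat_lit 463) (nat_lit 2) (.n (nat_lit 464) (nat_lit 2) (.p (nat_lit 465) (nat_lit 1) (.n (nat_lit 468) (nat_lit 2) (.n (nat_lit 469) (nat_lit 3) (.n (nat_lit 470) (nat_lit 1) (.n (nat_lit 471) (nat_lit 3) (.p (nat_lit 472) (nat_lit 2) (.n (nat_lit 473) (nat_lit 2) (.n (nat_lit 474) (nat_lit 2) (.p (nat_lit 475) (nat_lit 3) (.n (nat_lit 476) (nat_lit 2) (.p (nat_lit 477) (nat_lit 1) (.p (nat_lit 479) (nat_lit 1) (.p (nat_lit 481) (nat_lit 3) (.n (nat_lit 482) (nat_lit 3) (.p (nat_lit 484) (nat_lit 3) (.p (nat_lit 485) (nat_lit 2) (.n (nat_lit 489) (nat_lit 2) (.n (nat_lit 493) (nat_lit 2) .z))))))))))))))))))))))) (.ct dC1c_c293 (nat_lit 1) (nat_lit 9) (.s true (nat_lit 1) (nat_lit 73) (nat_lit 2) (nat_lit 2) (nat_lit 2) true (nat_lit 9) true (nat_lit 13) false (nat_lit 3) true (nat_lit 13) true (nat_lit 13) (.e false (nat_lit 2) (nat_lit 297) (nat_lit 2) (nat_lit 13) (.e false (nat_lit 1) (nat_lit 73) (nat_lit 18) (nat_lit 3) (.e true (nat_lit 3) (nat_lit 290) (nat_lit 2) (nat_lit 13) (.e true (nat_lit 1) (nat_lit 291) (nat_lit 2) (nat_lit 13) (.e true (nat_lit 2) (nat_lit 292) (nat_lit 2) (nat_lit 13) (.e true (nat_lit 1) (nat_lit 293) (nat_lit 2) (nat_lit 13) (.e false (nat_lit 1) (nat_lit 294) (nat_lit 2) (nat_lit 13) (.e false (nat_lit 1) (nat_lit 295) (nat_lit 2) (nat_lit 13) (.e true (nat_lit 3) (nat_lit 298) (nat_lit 2) (nat_lit 13) (.e false (nat_lit 3) (nat_lit 299) (nat_lit 2) (nat_lit 13) (.e true (nat_lit 1) (nat_lit 300) (nat_lit 2) (nat_lit 13) (.e true (nat_lit 2) (nat_lit 301) (nat_lit 2) (nat_lit 13) (.e true (nat_lit 1) (nat_lit 304) (nat_lit 2) (nat_lit 13) (.e false (nat_lit 2) (nat_lit 307) (nat_lit 2) (nat_lit 13) (.e false (nat_lit 2) (nat_lit 308) (nat_lit 2) (nat_lit 13) (.e true (nat_lit 1) (nat_lit 309) (nat_lit 2) (nat_lit 13) (.e false (nat_lit 2) (nat_lit 310) (nat_lit 2) (nat_lit 13) (.e true (nat_lit 3) (nat_lit 316) (nat_lit 2) (nat_lit 13) (.e true (nat_lit 2) (nat_lit 317) (nat_lit 2) (nat_lit 13) (.e false (nat_lit 2) (nat_lit 318) (nat_lit 2) (nat_lit 13) (.u (nat_lit 2) (.n (nat_lit 0) (nat_lit 1) (.p (nat_lit 1) (nat_lit 3) (.p (nat_lit 2) (nat_lit 3) (.p (nat_lit 4) (nat_lit 4) (.p (nat_lit 5) (nat_lit 5) (.p (nat_lit 7) (nat_lit 4) (.p (nat_lit 8) (nat_lit 1) (.p (nat_lit 9) (nat_lit 2) (.p (nat_lit 10) (nat_lit 1) (.p (nat_lit 11) (nat_lit 2) (.p (nat_lit 12) (nat_lit 1) (.n (nat_lit 13) (nat_lit 3) (.n (nat_lit 14) (nat_lit 3) (.p (nat_lit 16) (nat_lit 2) (.p (nat_lit 17) (nat_lit 2) (.n (nat_lit 19) (nat_lit 3) (.n (nat_lit 21) (nat_lit 2) (.p (nat_lit 22) (nat_lit 1) (.n (nat_lit 24) (nat_lit 1) (.p (nat_lit 29) (nat_lit 3) .z)))))))))))))))))))) .nil))))))))))))))))))))))) .leaf))) (nat_lit 164864) (nat_lit 426) (.p (nat_lit 220) (nat_lit 1) .z) .df (.nd (.nd (.nd (.nd .leaf (nat_lit 164866) (nat_lit 690) (.p (nat_lit 298) (nat_lit 1) .z) .df .leaf) (nat_lit 164868) (nat_lit 1118) (.n (nat_lit 355) (nat_lit 2) (.n (nat_lit 356) (nat_lit 2) (.n (nat_lit 357) (nat_lit 1) (.p (nat_lit 358) (nat_lit 1) (.p (nat_lit 359) (nat_lit 1) (.n (nat_lit 360) (nat_lit 1) (.n (nat_lit 361) (nat_lit 1) (.p (nat_lit 362) (nat_lit 1) (.p (nat_lit 363) (nat_lit 1) (.n (nat_lit 364) (nat_lit 1) (.p (nat_lit 365) (nat_lit 3) (.n (nat_lit 366) (nat_lit 2) (.p (nat_lit 369) (nat_lit 1) (.p (nat_lit 373) (nat_lit 2) (.n (nat_lit 374) (nat_lit 3) (.n (nat_lit 381) (nat_lit 3) (.n (nat_lit 382) (nat_lit 3) (.n (nat_lit 383) (nat_lit 3) (.n (nat_lit 384) (nat_lit 1) (.p (nat_lit 385) (nat_lit 3) (.n (nat_lit 387) (nat_lit 1) (.n (nat_lit 388) (nat_lit 2) (.n (nat_lit 389) (nat_lit 2) (.n (nat_lit 391) (nat_lit 1) (.p (nat_lit 392) (nat_lit 1) (.p (nat_lit 393) (nat_lit 2) (.n (nat_lit 394) (nat_lit 3) (.n (nat_lit 395) (nat_lit 1) (.p (nat_lit 396) (nat_lit 3) (.n (nat_lit 404) (nat_lit 2) .z)))))))))))))))))))))))))))))) (.ct dC1c_c548 (nat_lit 1) (nat_lit 15) (.s true (nat_lit 1) (nat_lit 74) (nat_lit 2) (nat_lit 2) (nat_lit 0) true (nat_lit 15) true (nat_lit 19) false (nat_lit 7) true (nat_lit 17) true (nat_lit 17) (.e true (nat_lit 1) (nat_lit 298) (nat_lit 0) (nat_lit 19) (.e false (nat_lit 1) (nat_lit 74) (nat_lit 15) (nat_lit 7) (.e false (nat_lit 1) (nat_lit 212) (nat_lit 2) (nat_lit 17) (.e false (nat_lit 2) (nat_lit 213) (nat_lit 2) (nat_lit 17) (.e true (nat_lit 1) (nat_lit 215) (nat_lit 2) (nat_lit 17) (.e false (nat_lit 2) (nat_lit 217) (nat_lit 2) (nat_lit 17) (.e true (nat_lit 2) (nat_lit 218) (nat_lit 2) (nat_lit 17) (.e true (nat_lit 2) (nat_lit 219) (nat_lit 2) (nat_lit 17) (.e false (nat_lit 2) (nat_lit 220) (nat_lit 2) (nat_lit 17) (.e true (nat_lit 1) (nat_lit 221) (nat_lit 2) (nat_lit 17) (.e false (nat_lit 1) (nat_lit 225) (nat_lit 2) (nat_lit 17) dC1c_i223))))))))))))) .leaf) (nat_lit 164870) (nat_lit 1426) (.p (nat_lit 493) (nat_lit 1) .z) .df (.nd (.nd .leaf (nat_lit 165888) (nat_lit 427) (.p (nat_lit 221) (nat_lit 1) .z) .df .leaf) (nat_lit 165890) (nat_lit 691) (.p (nat_lit 299) (nat_lit 1) .z) .df .leaf)) (nat_lit 165894) (nat_lit 1479) (.n (nat_lit 460) (nat_lit 1) (.n (nat_lit 461) (nat_lit 3) (.p (nat_lit 462) (nat_lit 3) (.p (nat_lit 463) (nat_lit 2) (.p (nat_lit 464) (nat_lit 1) (.p (nat_lit 465) (nat_lit 1) (.n (nat_lit 467) (nat_lit 3) (.p (nat_lit 468) (nat_lit 1) (.p (nat_lit 469) (nat_lit 2) (.p (nat_lit 470) (nat_lit 1) (.n (nat_lit 471) (nat_lit 1) (.p (nat_lit 473) (nat_lit 1) (.p (nat_lit 474) (nat_lit 1) (.n (nat_lit 475) (nat_lit 3) (.p (nat_lit 476) (nat_lit 1) (.p (nat_lit 477) (nat_lit 1) (.p (nat_lit 479) (nat_lit 3) (.n (nat_lit 481) (nat_lit 2) (.p (nat_lit 483) (nat_lit 2) (.n (nat_lit 489) (nat_lit 3) (.n (nat_lit 493) (nat_lit 2) .z))))))))))))))))))))) (.ct dC1c_c293 (nat_lit 1) (nat_lit 9) (.s true (nat_lit 3) (nat_lit 10) (nat_lit 6) (nat_lit 6) (nat_lit 1) true (nat_lit 4) true (nat_lit 14) true (nat_lit 7) true (nat_lit 9) true (nat_lit 9) (.e false (nat_lit 3) (nat_lit 90) (nat_lit 17) (nat_lit 4) (.e false (nat_lit 1) (nat_lit 336) (nat_lit 1) (nat_lit 14) (.e false (nat_lit 1) (nat_lit 154) (nat_lit 6) (nat_lit 9) (.e false (nat_lit 1) (nat_lit 157) (nat_lit 6) (nat_lit 9) (.e false (nat_lit 3) (nat_lit 167) (nat_lit 6) (nat_lit 9) (.e true (nat_lit 1) (nat_lit 171) (nat_lit 6) (nat_lit 9) (.u (nat_lit 2) (.p (nat_lit 1) (nat_lit 1) (.n (nat_lit 2) (nat_lit 1) (.n (nat_lit 3) (nat_lit 2) (.p (nat_lit 4) (nat_lit 1) (.n (nat_lit 5) (nat_lit 1) (.p (nat_lit 8) (nat_lit 1) (.p (nat_lit 10) (nat_lit 1) (.n (nat_lit 11) (nat_lit 1) (.n (nat_lit 12) (nat_lit 1) (.p (nat_lit 15) (nat_lit 2) (.n (nat_lit 16) (nat_lit 1) (.n (nat_lit 17) (nat_lit 2) (.n (nat_lit 19) (nat_lit 1) (.p (nat_lit 21) (nat_lit 1) (.n (nat_lit 126) (nat_lit 1) (.n (nat_lit 129) (nat_lit 1) (.p (nat_lit 134) (nat_lit 1) (.p (nat_lit 143) (nat_lit 1) (.n (nat_lit 211) (nat_lit 1) .z))))))))))))))))))) .nil))))))))) (.nd (.nd (.nd .leaf (nat_lit 166912) (nat_lit 428) (.p (nat_lit 222) (nat_lit 1) .z) .df .leaf) (nat_lit 166914) (nat_lit 692) (.p (nat_lit 300) (nat_lit 1) .z) .df .leaf) (nat_lit 166918) (nat_lit 1518) (.n (nat_lit 460) (nat_lit 1) (.n (nat_lit 461) (nat_lit 2) (.p (nat_lit 463) (nat_lit 2) (.p (nat_lit 464) (nat_lit 3) (.n (nat_lit 465) (nat_lit 1) (.n (nat_lit 467) (nat_lit 2) (.n (nat_lit 469) (nat_lit 2) (.n (nat_lit 470) (nat_lit 1) (.p (nat_lit 471) (nat_lit 2) (.n (nat_lit 473) (nat_lit 3) (.n (nat_lit 474) (nat_lit 3) (.p (nat_lit 475) (nat_lit 2) (.p (nat_lit 476) (nat_lit 1) (.n (nat_lit 479) (nat_lit 2) (.n (nat_lit 482) (nat_lit 2) (.p (nat_lit 484) (nat_lit 2) (.p (nat_lit 489) (nat_lit 1) (.p (nat_lit 493) (nat_lit 3) .z)))))))))))))))))) (.ct dC1c_c293 (nat_lit 1) (nat_lit 9) (.s true (nat_lit 1) (nat_lit 76) (nat_lit 2) (nat_lit 2) (nat_lit 2) true (nat_lit 9) true (nat_lit 13) false (nat_lit 3) true (nat_lit 13) true (nat_lit 13) (.e false (nat_lit 2) (nat_lit 300) (nat_lit 2) (nat_lit 13) (.e false (nat_lit 1) (nat_lit 76) (nat_lit 18) (nat_lit 3) (.e false (nat_lit 1) (nat_lit 290) (nat_lit 2) (nat_lit 13) (.e false (nat_lit 2) (nat_lit 291) (nat_lit 2) (nat_lit 13) (.e true (nat_lit 3) (nat_lit 293) (nat_lit 2) (nat_lit 13) (.e false (nat_lit 3) (nat_lit 295) (nat_lit 2) (nat_lit 13) (.e false (nat_lit 2) (nat_lit 296) (nat_lit 2) (nat_lit 13) (.e true (nat_lit 2) (nat_lit 297) (nat_lit 2) (nat_lit 13) (.e true (nat_lit 1) (nat_lit 298) (nat_lit 2) (nat_lit 13) (.e true (nat_lit 3) (nat_lit 301) (nat_lit 2) (nat_lit 13) (.e true (nat_lit 2) (nat_lit 304) (nat_lit 2) (nat_lit 13) (.e false (nat_lit 1) (nat_lit 307) (nat_lit 2) (nat_lit 13) (.e false (nat_lit 2) (nat_lit 308) (nat_lit 2) (nat_lit 13) (.e true (nat_lit 3) (nat_lit 309) (nat_lit 2) (nat_lit 13) (.e true (nat_lit 3) (nat_lit 316) (nat_lit 2) (nat_lit 13) (.e true (nat_lit 3) (nat_lit 317) (nat_lit 2) (nat_lit 13) (.e false (nat_lit 3) (nat_lit 318) (nat_lit 2) (nat_lit 13) (.u (nat_lit 2) (.n (nat_lit 0) (nat_lit 3) (.n (nat_lit 1) (nat_lit 2) (.p (nat_lit 2) (nat_lit 2) (.n (nat_lit 3) (nat_lit 5) (.p (nat_lit 5) (nat_lit 3) (.p (nat_lit 7) (nat_lit 2) (.n (nat_lit 8) (nat_lit 1) (.p (nat_lit 9) (nat_lit 2) (.p (nat_lit 10) (nat_lit 1) (.n (nat_lit 12) (nat_lit 2) (.n (nat_lit 13) (nat_lit 3) (.n (nat_lit 14) (nat_lit 3) (.p (nat_lit 15) (nat_lit 2) (.p (nat_lit 16) (nat_lit 3) (.p (nat_lit 17) (nat_lit 2) (.p (nat_lit 19) (nat_lit 1) (.p (nat_lit 21) (nat_lit 1) (.n (nat_lit 22) (nat_lit 1) (.p (nat_lit 24) (nat_lit 1) (.n (nat_lit 26) (nat_lit 1) (.p (nat_lit 29) (nat_lit 2) (.p (nat_lit 33) (nat_lit 4) .z)))))))))))))))))))))) .nil)))))))))))))))))))) (.nd (.nd .leaf (nat_lit 167936) (nat_lit 429) (.p (nat_lit 223) (nat_lit 1) .z) .df .leaf) (nat_lit 167938) (nat_lit 693) (.p (nat_lit 301) (nat_lit 1) .z) .df .leaf)))) (nat_lit 167940) (nat_lit 1044) (.n (nat_lit 355) (nat_lit 2) (.n (nat_lit 356) (nat_lit 2) (.p (nat_lit 357) (nat_lit 1) (.p (nat_lit 358) (nat_lit 3) (.n (nat_lit 359) (nat_lit 3) (.n (nat_lit 361) (nat_lit 1) (.p (nat_lit 362) (nat_lit 1) (.p (nat_lit 363) (nat_lit 2) (.p (nat_lit 365) (nat_lit 2) (.p (nat_lit 366) (nat_lit 3) (.n (nat_lit 367) (nat_lit 1) (.n (nat_lit 369) (nat_lit 3) (.n (nat_lit 370) (nat_lit 3) (.p (nat_lit 372) (nat_lit 2) (.p (nat_lit 373) (nat_lit 2) (.n (nat_lit 374) (nat_lit 2) (.p (nat_lit 375) (nat_lit 2) (.n (nat_lit 381) (nat_lit 2) (.p (nat_lit 382) (nat_lit 3) (.p (nat_lit 383) (nat_lit 1) (.p (nat_lit 384) (nat_lit 1) (.p (nat_lit 385) (nat_lit 2) (.p (nat_lit 386) (nat_lit 2) (.p (nat_lit 388) (nat_lit 3) (.n (nat_lit 389) (nat_lit 1) (.n (nat_lit 390) (nat_lit 3) (.p (nat_lit 391) (nat_lit 3) (.p (nat_lit 392) (nat_lit 3) (.n (nat_lit 393) (nat_lit 1) (.p (nat_lit 395) (nat_lit 3) (.p (nat_lit 396) (nat_lit 2) (.n (nat_lit 411) (nat_lit 1) .z)))))))))))))))))))))))))))))))) (.ct dC1c_c548 (nat_lit 1) (nat_lit 15) (.s true (nat_lit 3) (nat_lit 31) (nat_lit 0) (nat_lit 2) (nat_lit 5) true (nat_lit 9) true (nat_lit 14) true (nat_lit 0) true (nat_lit 19) true (nat_lit 17) (.s false (nat_lit 3) (nat_lit 31) (nat_lit 1) (nat_lit 2) (nat_lit 4) true (nat_lit 9) true (nat_lit 15) true (nat_lit 0) true (nat_lit 18) true (nat_lit 17) (.s true (nat_lit 3) (nat_lit 78) (nat_lit 1) (nat_lit 1) (nat_lit 2) true (nat_lit 14) true (nat_lit 17) false (nat_lit 8) true (nat_lit 18) true (nat_lit 18) (.s true (nat_lit 3) (nat_lit 82) (nat_lit 0) (nat_lit 2) (nat_lit 1) true (nat_lit 16) true (nat_lit 18) false (nat_lit 9) true (nat_lit 19) true (nat_lit 17) (.s true (nat_lit 3) (nat_lit 82) (nat_lit 1) (nat_lit 2) (nat_lit 0) true (nat_lit 16) true (nat_lit 19) false (nat_lit 9) true (nat_lit 18) true (nat_lit 17) (.s false (nat_lit 1) (nat_lit 82) (nat_lit 2) (nat_lit 1) (nat_lit 0) true (nat_lit 15) true (nat_lit 19) false (nat_lit 9) true (nat_lit 17) true (nat_lit 18) (.e true (nat_lit 3) (nat_lit 139) (nat_lit 5) (nat_lit 14) (.e true (nat_lit 2) (nat_lit 291) (nat_lit 0) (nat_lit 19) (.e false (nat_lit 3) (nat_lit 294) (nat_lit 0) (nat_lit 19) (.e false (nat_lit 3) (nat_lit 298) (nat_lit 0) (nat_lit 19) (.e false (nat_lit 1) (nat_lit 299) (nat_lit 0) (nat_lit 19) (.e true (nat_lit 2) (nat_lit 301) (nat_lit 0) (nat_lit 19) (.e false (nat_lit 3) (nat_lit 304) (nat_lit 0) (nat_lit 19) (.e true (nat_lit 3) (nat_lit 307) (nat_lit 0) (nat_lit 19) (.e false (nat_lit 2) (nat_lit 308) (nat_lit 0) (nat_lit 19) (.e true (nat_lit 3) (nat_lit 311) (nat_lit 0) (nat_lit 19) dC1c_i225))))))))))))))))) (.nd (.nd (.nd (.nd (.nd .leaf (nat_lit 167942) (nat_lit 1465) (.n (nat_lit 460) (nat_lit 2) (.n (nat_lit 461) (nat_lit 3) (.p (nat_lit 462) (nat_lit 1) (.n (nat_lit 463) (nat_lit 3) (.p (nat_lit 464) (nat_lit 3) (.n (nat_lit 465) (nat_lit 2) (.n (nat_lit 467) (nat_lit 3) (.p (nat_lit 468) (nat_lit 1) (.n (nat_lit 469) (nat_lit 3) (.p (nat_lit 470) (nat_lit 2) (.n (nat_lit 471) (nat_lit 1) (.n (nat_lit 472) (nat_lit 3) (.p (nat_lit 473) (nat_lit 3) (.p (nat_lit 474) (nat_lit 3) (.n (nat_lit 475) (nat_lit 1) (.n (nat_lit 476) (nat_lit 2) (.n (nat_lit 477) (nat_lit 1) (.n (nat_lit 479) (nat_lit 1) (.p (nat_lit 486) (nat_lit 2) (.p (nat_lit 489) (nat_lit 2) (.n (nat_lit 493) (nat_lit 1) .z))))))))))))))))))))) (.ct dC1c_c293 (nat_lit 1) (nat_lit 9) (.s false (nat_lit 1) (nat_lit 10) (nat_lit 6) (nat_lit 5) (nat_lit 2) true (nat_lit 3) true (nat_lit 13) true (nat_lit 7) true (nat_lit 9) true (nat_lit 10) (.s false (nat_lit 3) (nat_lit 17) (nat_lit 10) (nat_lit 2) (nat_lit 2) true (nat_lit 1) true (nat_lit 13) true (nat_lit 4) true (nat_lit 7) true (nat_lit 13) (.s true (nat_lit 1) (nat_lit 75) (nat_lit 2) (nat_lit 2) (nat_lit 2) true (nat_lit 9) true (nat_lit 13) false (nat_lit 3) true (nat_lit 13) true (nat_lit 13) (.e true (nat_lit 1) (nat_lit 290) (nat_lit 2) (nat_lit 13) (.e true (nat_lit 3) (nat_lit 292) (nat_lit 2) (nat_lit 13) (.e false (nat_lit 3) (nat_lit 293) (nat_lit 2) (nat_lit 13) (.e false (nat_lit 3) (nat_lit 294) (nat_lit 2) (nat_lit 13) (.e true (nat_lit 1) (nat_lit 299) (nat_lit 2) (nat_lit 13) (.e false (nat_lit 3) (nat_lit 301) (nat_lit 2) (nat_lit 13) (.e false (nat_lit 1) (nat_lit 304) (nat_lit 2) (nat_lit 13) (.e false (nat_lit 2) (nat_lit 308) (nat_lit 2) (nat_lit 13) (.e false (nat_lit 3) (nat_lit 310) (nat_lit 2) (nat_lit 13) (.e true (nat_lit 3) (nat_lit 311) (nat_lit 2) (nat_lit 13) (.e true (nat_lit 3) (nat_lit 319) (nat_lit 2) (nat_lit 13) (.e true (nat_lit 1) (nat_lit 157) (nat_lit 6) (nat_lit 9) (.e false (nat_lit 1) (nat_lit 171) (nat_lit 6) (nat_lit 9) (.e false (nat_lit 1) (nat_lit 192) (nat_lit 5) (nat_lit 10) (.e false (nat_lit 3) (nat_lit 44) (nat_lit 31) (nat_lit 1) (.e false (nat_lit 3) (nat_lit 82) (nat_lit 17) (nat_lit 4) (.e false (nat_lit 1) (nat_lit 298) (nat_lit 2) (nat_lit 13) (.u (nat_lit 2) (.p (nat_lit 0) (nat_lit 4) (.p (nat_lit 1) (nat_lit 2) (.p (nat_lit 3) (nat_lit 1) (.n (nat_lit 4) (nat_lit 2) (.n (nat_lit 5) (nat_lit 1) (.p (nat_lit 6) (nat_lit 2) (.p (nat_lit 8) (nat_lit 3) (.n (nat_lit 10) (nat_lit 3) (.p (nat_lit 11) (nat_lit 1) (.n (nat_lit 12) (nat_lit 1) (.n (nat_lit 13) (nat_lit 2) (.n (nat_lit 14) (nat_lit 4) (.n (nat_lit 15) (nat_lit 3) (.n (nat_lit 16) (nat_lit 2) (.p (nat_lit 17) (nat_lit 1) (.n (nat_lit 18) (nat_lit 2) (.p (nat_lit 19) (nat_lit 1) (.p (nat_lit 20) (nat_lit 2) (.n (nat_lit 21) (nat_lit 3) (.n (nat_lit 23) (nat_lit 3) (.p (nat_lit 26) (nat_lit 3) (.n (nat_lit 29) (nat_lit 2) (.n (nat_lit 33) (nat_lit 2) (.n (nat_lit 113) (nat_lit 1) (.n (nat_lit 114) (nat_lit 1) (.p (nat_lit 173) (nat_lit 1) (.p (nat_lit 174) (nat_lit 2) (.n (nat_lit 177) (nat_lit 1) (.p (nat_lit 182) (nat_lit 1) (.p (nat_lit 184) (nat_lit 1) (.n (nat_lit 187) (nat_lit 1) (.n (nat_lit 190) (nat_lit 1) (.n (nat_lit 191) (nat_lit 2) (.p (nat_lit 194) (nat_lit 1) (.p (nat_lit 200) (nat_lit 1) (.p (nat_lit 202) (nat_lit 1) .z)))))))))))))))))))))))))))))))))))) .nil)))))))))))))))))))))) .leaf) (nat_lit 168960) (nat_lit 430) (.p (nat_lit 224) (nat_lit 1) .z) .df .leaf) (nat_lit 168962) (nat_lit 694) (.p (nat_lit 302) (nat_lit 1) .z) .df (.nd (.nd .leaf (nat_lit 168966) (nat_lit 1527) (.p (nat_lit 460) (nat_lit 1) (.p (nat_lit 461) (nat_lit 3) (.n (nat_lit 463) (nat_lit 2) (.p (nat_lit 464) (nat_lit 3) (.p (nat_lit 465) (nat_lit 1) (.p (nat_lit 467) (nat_lit 1) (.p (nat_lit 468) (nat_lit 3) (.p (nat_lit 469) (nat_lit 2) (.p (nat_lit 470) (nat_lit 1) (.n (nat_lit 471) (nat_lit 1) (.p (nat_lit 472) (nat_lit 2) (.n (nat_lit 473) (nat_lit 1) (.n (nat_lit 474) (nat_lit 1) (.n (nat_lit 475) (nat_lit 3) (.n (nat_lit 476) (nat_lit 3) (.p (nat_lit 477) (nat_lit 3) (.n (nat_lit 479) (nat_lit 2) (.p (nat_lit 487) (nat_lit 2) (.n (nat_lit 489) (nat_lit 1) (.n (nat_lit 493) (nat_lit 3) .z)))))))))))))))))))) (.ct dC1c_c293 (nat_lit 1) (nat_lit 9) (.s false (nat_lit 1) (nat_lit 32) (nat_lit 1) (nat_lit 6) (nat_lit 2) true (nat_lit 10) true (nat_lit 13) true (nat_lit 1) true (nat_lit 14) true (nat_lit 9) (.e false (nat_lit 1) (nat_lit 193) (nat_lit 5) (nat_lit 10) (.e false (nat_lit 2) (nat_lit 291) (nat_lit 2) (nat_lit 13) (.e false (nat_lit 3) (nat_lit 292) (nat_lit 2) (nat_lit 13) (.e false (nat_lit 1) (nat_lit 293) (nat_lit 2) (nat_lit 13) (.e false (nat_lit 1) (nat_lit 294) (nat_lit 2) (nat_lit 13) (.e false (nat_lit 3) (nat_lit 295) (nat_lit 2) (nat_lit 13) (.e true (nat_lit 1) (nat_lit 296) (nat_lit 2) (nat_lit 13) (.e false (nat_lit 1) (nat_lit 297) (nat_lit 2) (nat_lit 13) (.e false (nat_lit 1) (nat_lit 299) (nat_lit 2) (nat_lit 13) (.e false (nat_lit 1) (nat_lit 300) (nat_lit 2) (nat_lit 13) (.e true (nat_lit 3) (nat_lit 301) (nat_lit 2) (nat_lit 13) (.e true (nat_lit 3) (nat_lit 304) (nat_lit 2) (nat_lit 13) (.e true (nat_lit 3) (nat_lit 307) (nat_lit 2) (nat_lit 13) (.e true (nat_lit 3) (nat_lit 308) (nat_lit 2) (nat_lit 13) (.e true (nat_lit 1) (nat_lit 309) (nat_lit 2) (nat_lit 13) (.e false (nat_lit 1) (nat_lit 310) (nat_lit 2) (nat_lit 13) (.e true (nat_lit 2) (nat_lit 316) (nat_lit 2) (nat_lit 13) (.e true (nat_lit 2) (nat_lit 317) (nat_lit 2) (nat_lit 13) (.e false (nat_lit 2) (nat_lit 318) (nat_lit 2) (nat_lit 13) (.e true (nat_lit 1) (nat_lit 44) (nat_lit 32) (nat_lit 1) (.e false (nat_lit 1) (nat_lit 340) (nat_lit 1) (nat_lit 14) (.e true (nat_lit 1) (nat_lit 345) (nat_lit 1) (nat_lit 14) (.u (nat_lit 2) (.p (nat_lit 0) (nat_lit 3) (.n (nat_lit 1) (nat_lit 2) (.p (nat_lit 2) (nat_lit 1) (.p (nat_lit 4) (nat_lit 1) (.p (nat_lit 5) (nat_lit 3) (.p (nat_lit 9) (nat_lit 3) (.n (nat_lit 10) (nat_lit 2) (.p (nat_lit 11) (nat_lit 1) (.n (nat_lit 13) (nat_lit 1) (.n (nat_lit 14) (nat_lit 1) (.p (nat_lit 15) (nat_lit 3) (.p (nat_lit 16) (nat_lit 1) (.p (nat_lit 17) (nat_lit 1) (.n (nat_lit 21) (nat_lit 2) (.p (nat_lit 22) (nat_lit 1) (.n (nat_lit 26) (nat_lit 1) (.p (nat_lit 29) (nat_lit 1) (.p (nat_lit 33) (nat_lit 2) .z)))))))))))))))))) .nil))))))))))))))))))))))))) .leaf) (nat_lit 169984) (nat_lit 431) (.p (nat_lit 225) (nat_lit 1) .z) .df .leaf)) (nat_lit 169986) (nat_lit 695) (.p (nat_lit 303) (nat_lit 1) .z) .df (.nd (.nd (.nd .leaf (nat_lit 169988) (nat_lit 1172) (.p (nat_lit 355) (nat_lit 2) (.n (nat_lit 356) (nat_lit 2) (.n (nat_lit 357) (nat_lit 2) (.p (nat_lit 360) (nat_lit 1) (.p (nat_lit 361) (nat_lit 1) (.n (nat_lit 362) (nat_lit 1) (.p (nat_lit 363) (nat_lit 1) (.p (nat_lit 364) (nat_lit 1) (.n (nat_lit 365) (nat_lit 3) (.n (nat_lit 366) (nat_lit 1) (.p (nat_lit 367) (nat_lit 1) (.p (nat_lit 368) (nat_lit 1) (.p (nat_lit 370) (nat_lit 3) (.n (nat_lit 372) (nat_lit 2) (.p (nat_lit 373) (nat_lit 1) (.n (nat_lit 374) (nat_lit 3) (.n (nat_lit 375) (nat_lit 3) (.p (nat_lit 382) (nat_lit 2) (.n (nat_lit 383) (nat_lit 2) (.n (nat_lit 385) (nat_lit 2) (.p (nat_lit 386) (nat_lit 2) (.n (nat_lit 387) (nat_lit 2) (.p (nat_lit 388) (nat_lit 2) (.p (nat_lit 389) (nat_lit 3) (.n (nat_lit 390) (nat_lit 3) (.n (nat_lit 391) (nat_lit 2) (.p (nat_lit 393) (nat_lit 1) (.n (nat_lit 395) (nat_lit 3) (.n (nat_lit 396) (nat_lit 2) (.n (nat_lit 413) (nat_lit 1) .z)))))))))))))))))))))))))))))) (.ct dC1c_c548 (nat_lit 1) (nat_lit 15) (.s true (nat_lit 1) (nat_lit 85) (nat_lit 0) (nat_lit 1) (nat_lit 2) true (nat_lit 15) true (nat_lit 17) false (nat_lit 9) true (nat_lit 19) true (nat_lit 18) (.e false (nat_lit 2) (nat_lit 233) (nat_lit 2) (nat_lit 17) (.e false (nat_lit 2) (nat_lit 234) (nat_lit 2) (nat_lit 17) (.e true (nat_lit 3) (nat_lit 235) (nat_lit 2) (nat_lit 17) (.e true (nat_lit 1) (nat_lit 236) (nat_lit 2) (nat_lit 17) (.e true (nat_lit 3) (nat_lit 237) (nat_lit 2) (nat_lit 17) (.e true (nat_lit 1) (nat_lit 238) (nat_lit 2) (nat_lit 17) (.e true (nat_lit 3) (nat_lit 239) (nat_lit 2) (nat_lit 17) dC1c_i227))))))))) .leaf) (nat_lit 169990) (nat_lit 1495) (.p (nat_lit 460) (nat_lit 2) (.p (nat_lit 461) (nat_lit 2) (.p (nat_lit 462) (nat_lit 3) (.p (nat_lit 463) (nat_lit 3) (.p (nat_lit 464) (nat_lit 3) (.n (nat_lit 465) (nat_lit 1) (.p (nat_lit 467) (nat_lit 2) (.n (nat_lit 468) (nat_lit 1) (.p (nat_lit 469) (nat_lit 2) (.n (nat_lit 470) (nat_lit 2) (.n (nat_lit 471) (nat_lit 2) (.n (nat_lit 472) (nat_lit 2) (.p (nat_lit 473) (nat_lit 1) (.p (nat_lit 474) (nat_lit 1) (.n (nat_lit 475) (nat_lit 1) (.p (nat_lit 476) (nat_lit 2) (.p (nat_lit 477) (nat_lit 3) (.p (nat_lit 479) (nat_lit 1) (.p (nat_lit 488) (nat_lit 2) .z))))))))))))))))))) (.ct dC1c_c293 (nat_lit 1) (nat_lit 9) (.s true (nat_lit 1) (nat_lit 34) (nat_lit 2) (nat_lit 1) (nat_lit 6) true (nat_lit 3) true (nat_lit 9) true (nat_lit 1) true (nat_lit 13) true (nat_lit 14) (.s true (nat_lit 1) (nat_lit 34) (nat_lit 2) (nat_lit 2) (nat_lit 5) true (nat_lit 4) true (nat_lit 10) true (nat_lit 1) true (nat_lit 13) true (nat_lit 13) (.s false (nat_lit 1) (nat_lit 85) (nat_lit 1) (nat_lit 2) (nat_lit 2) true (nat_lit 10) true (nat_lit 13) false (nat_lit 4) true (nat_lit 14) true (nat_lit 13) (.e true (nat_lit 1) (nat_lit 72) (nat_lit 18) (nat_lit 3) (.e true (nat_lit 2) (nat_lit 291) (nat_lit 2) (nat_lit 13) (.e false (nat_lit 3) (nat_lit 292) (nat_lit 2) (nat_lit 13) (.e true (nat_lit 2) (nat_lit 293) (nat_lit 2) (nat_lit 13) (.e false (nat_lit 2) (nat_lit 294) (nat_lit 2) (nat_lit 13) (.e false (nat_lit 1) (nat_lit 295) (nat_lit 2) (nat_lit 13) (.e false (nat_lit 3) (nat_lit 296) (nat_lit 2) (nat_lit 13) (.e true (nat_lit 3) (nat_lit 297) (nat_lit 2) (nat_lit 13) dC1c_i228)))))))))))) .leaf) (nat_lit 171008) (nat_lit 432) (.p (nat_lit 226) (nat_lit 1) .z) .df (.nd (.nd .leaf (nat_lit 171010) (nat_lit 696) (.p (nat_lit 304) (nat_lit 1) .z) .df .leaf) (nat_lit 171012) (nat_lit 1152) (.n (nat_lit 355) (nat_lit 2) (.p (nat_lit 356) (nat_lit 2) (.n (nat_lit 357) (nat_lit 2) (.n (nat_lit 358) (nat_lit 1) (.p (nat_lit 361) (nat_lit 1) (.n (nat_lit 362) (nat_lit 1) (.p (nat_lit 363) (nat_lit 2) (.n (nat_lit 364) (nat_lit 3) (.n (nat_lit 365) (nat_lit 2) (.p (nat_lit 367) (nat_lit 3) (.n (nat_lit 369) (nat_lit 1) (.p (nat_lit 370) (nat_lit 2) (.n (nat_lit 373) (nat_lit 2) (.n (nat_lit 374) (nat_lit 2) (.p (nat_lit 375) (nat_lit 2) (.p (nat_lit 381) (nat_lit 1) (.p (nat_lit 382) (nat_lit 1) (.n (nat_lit 383) (nat_lit 2) (.n (nat_lit 385) (nat_lit 2) (.p (nat_lit 386) (nat_lit 2) (.p (nat_lit 387) (nat_lit 3) (.n (nat_lit 388) (nat_lit 3) (.p (nat_lit 389) (nat_lit 1) (.n (nat_lit 390) (nat_lit 3) (.n (nat_lit 391) (nat_lit 3) (.n (nat_lit 392) (nat_lit 2) (.n (nat_lit 393) (nat_lit 3) (.n (nat_lit 394) (nat_lit 1) (.n (nat_lit 395) (nat_lit 1) (.n (nat_lit 396) (nat_lit 1) (.n (nat_lit 411) (nat_lit 2) .z))))))))))))))))))))))))))))))) (.ct dC1c_c548 (nat_lit 1) (nat_lit 15) (.s true (nat_lit 1) (nat_lit 90) (nat_lit 0) (nat_lit 1) (nat_lit 2) true (nat_lit 15) true (nat_lit 17) false (nat_lit 9) true (nat_lit 19) true (nat_lit 18) (.e true (nat_lit 1) (nat_lit 234) (nat_lit 2) (nat_lit 17) (.e false (nat_lit 2) (nat_lit 237) (nat_lit 2) (nat_lit 17) (.e false (nat_lit 2) (nat_lit 239) (nat_lit 2) (nat_lit 17) (.e false (nat_lit 1) (nat_lit 241) (nat_lit 2) (nat_lit 17) (.e true (nat_lit 1) (nat_lit 242) (nat_lit 2) (nat_lit 17) (.e false (nat_lit 3) (nat_lit 243) (nat_lit 2) (nat_lit 17) (.e false (nat_lit 1) (nat_lit 213) (nat_lit 2) (nat_lit 17) (.e true (nat_lit 2) (nat_lit 214) (nat_lit 2) (nat_lit 17) (.e false (nat_lit 2) (nat_lit 217) (nat_lit 2) (nat_lit 17) (.e true (nat_lit 1) (nat_lit 218) (nat_lit 2) (nat_lit 17) (.e false (nat_lit 1) (nat_lit 219) (nat_lit 2) (nat_lit 17) (.e false (nat_lit 3) (nat_lit 220) (nat_lit 2) (nat_lit 17) (.e true (nat_lit 3) (nat_lit 221) (nat_lit 2) (nat_lit 17) (.e true (nat_lit 2) (nat_lit 224) (nat_lit 2) (nat_lit 17) (.e false (nat_lit 1) (nat_lit 227) (nat_lit 2) (nat_lit 17) dC1c_i230))))))))))))))))) .leaf))) (nat_lit 171014) (nat_lit 1472) (.n (nat_lit 460) (nat_lit 3) (.p (nat_lit 461) (nat_lit 3) (.p (nat_lit 462) (nat_lit 2) (.n (nat_lit 463) (nat_lit 1) (.p (nat_lit 464) (nat_lit 3) (.n (nat_lit 465) (nat_lit 3) (.p (nat_lit 467) (nat_lit 3) (.n (nat_lit 468) (nat_lit 1) (.n (nat_lit 469) (nat_lit 2) (.n (nat_lit 470) (nat_lit 1) (.p (nat_lit 471) (nat_lit 1) (.n (nat_lit 473) (nat_lit 1) (.n (nat_lit 474) (nat_lit 1) (.p (nat_lit 475) (nat_lit 1) (.p (nat_lit 476) (nat_lit 1) (.n (nat_lit 477) (nat_lit 3) (.n (nat_lit 479) (nat_lit 3) (.n (nat_lit 486) (nat_lit 3) (.p (nat_lit 489) (nat_lit 1) (.p (nat_lit 493) (nat_lit 3) .z)))))))))))))))))))) (.ct dC1c_c293 (nat_lit 1) (nat_lit 9) (.s false (nat_lit 1) (nat_lit 90) (nat_lit 2) (nat_lit 1) (nat_lit 2) true (nat_lit 9) true (nat_lit 13) false (nat_lit 4) true (nat_lit 13) true (nat_lit 14) (.e false (nat_lit 1) (nat_lit 291) (nat_lit 2) (nat_lit 13) (.e true (nat_lit 2) (nat_lit 294) (nat_lit 2) (nat_lit 13) (.e false (nat_lit 3) (nat_lit 301) (nat_lit 2) (nat_lit 13) (.e true (nat_lit 1) (nat_lit 90) (nat_lit 16) (nat_lit 4) (.e true (nat_lit 2) (nat_lit 290) (nat_lit 2) (nat_lit 13) (.e false (nat_lit 1) (nat_lit 292) (nat_lit 2) (nat_lit 13) (.e true (nat_lit 1) (nat_lit 293) (nat_lit 2) (nat_lit 13) (.e true (nat_lit 3) (nat_lit 304) (nat_lit 2) (nat_lit 13) (.e false (nat_lit 2) (nat_lit 307) (nat_lit 2) (nat_lit 13) (.e true (nat_lit 2) (nat_lit 308) (nat_lit 2) (nat_lit 13) (.e true (nat_lit 1) (nat_lit 310) (nat_lit 2) (nat_lit 13) (.e false (nat_lit 1) (nat_lit 336) (nat_lit 1) (nat_lit 14) (.u (nat_lit 2) (.p (nat_lit 0) (nat_lit 3) (.n (nat_lit 1) (nat_lit 1) (.p (nat_lit 2) (nat_lit 2) (.p (nat_lit 3) (nat_lit 1) (.p (nat_lit 4) (nat_lit 1) (.p (nat_lit 5) (nat_lit 2) (.n (nat_lit 7) (nat_lit 1) (.p (nat_lit 9) (nat_lit 2) (.p (nat_lit 10) (nat_lit 1) (.n (nat_lit 11) (nat_lit 1) (.p (nat_lit 12) (nat_lit 1) (.n (nat_lit 13) (nat_lit 1) (.n (nat_lit 14) (nat_lit 1) (.p (nat_lit 15) (nat_lit 4) (.p (nat_lit 17) (nat_lit 1) (.p (nat_lit 29) (nat_lit 1) (.n (nat_lit 33) (nat_lit 1) .z))))))))))))))))) .nil))))))))))))))) (.nd (.nd (.nd (.nd .leaf (nat_lit 172032) (nat_lit 433) (.p (nat_lit 227) (nat_lit 1) .z) .df .leaf) (nat_lit 172034) (nat_lit 697) (.p (nat_lit 305) (nat_lit 1) .z) .df .leaf) (nat_lit 172036) (nat_lit 1187) (.p (nat_lit 355) (nat_lit 2) (.n (nat_lit 356) (nat_lit 3) (.n (nat_lit 357) (nat_lit 3) (.n (nat_lit 358) (nat_lit 1) (.n (nat_lit 359) (nat_lit 1) (.p (nat_lit 360) (nat_lit 1) (.p (nat_lit 361) (nat_lit 2) (.n (nat_lit 362) (nat_lit 2) (.n (nat_lit 363) (nat_lit 2) (.n (nat_lit 364) (nat_lit 2) (.p (nat_lit 365) (nat_lit 2) (.n (nat_lit 367) (nat_lit 3) (.n (nat_lit 369) (nat_lit 2) (.n (nat_lit 370) (nat_lit 1) (.p (nat_lit 372) (nat_lit 1) (.n (nat_lit 374) (nat_lit 2) (.p (nat_lit 375) (nat_lit 2) (.n (nat_lit 381) (nat_lit 1) (.p (nat_lit 383) (nat_lit 3) (.p (nat_lit 384) (nat_lit 3) (.n (nat_lit 385) (nat_lit 1) (.n (nat_lit 386) (nat_lit 1) (.n (nat_lit 387) (nat_lit 3) (.p (nat_lit 388) (nat_lit 3) (.n (nat_lit 389) (nat_lit 2) (.n (nat_lit 390) (nat_lit 2) (.n (nat_lit 391) (nat_lit 1) (.n (nat_lit 392) (nat_lit 1) (.p (nat_lit 393) (nat_lit 3) (.p (nat_lit 394) (nat_lit 1) (.p (nat_lit 395) (nat_lit 1) (.p (nat_lit 396) (nat_lit 1) (.n (nat_lit 404) (nat_lit 1) (.p (nat_lit 405) (nat_lit 2) (.n (nat_lit 406) (nat_lit 2) (.p (nat_lit 408) (nat_lit 2) (.n (nat_lit 409) (nat_lit 1) (.p (nat_lit 410) (nat_lit 1) (.n (nat_lit 412) (nat_lit 2) .z))))))))))))))))))))))))))))))))))))))) (.ct dC1c_c548 (nat_lit 1) (nat_lit 15) dC1c_i233) (.nd (.nd .leaf (nat_lit 172038) (nat_lit 1523) (.n (nat_lit 460) (nat_lit 2) (.n (nat_lit 462) (nat_lit 1) (.n (nat_lit 463) (nat_lit 3) (.p (nat_lit 464) (nat_lit 2) (.n (nat_lit 465) (nat_lit 1) (.n (nat_lit 467) (nat_lit 2) (.n (nat_lit 468) (nat_lit 3) (.p (nat_lit 469) (nat_lit 1) (.p (nat_lit 470) (nat_lit 3) (.p (nat_lit 471) (nat_lit 2) (.p (nat_lit 472) (nat_lit 3) (.n (nat_lit 473) (nat_lit 3) (.n (nat_lit 474) (nat_lit 3) (.n (nat_lit 475) (nat_lit 3) (.n (nat_lit 476) (nat_lit 3) (.n (nat_lit 477) (nat_lit 1) (.p (nat_lit 479) (nat_lit 3) (.n (nat_lit 487) (nat_lit 3) (.p (nat_lit 489) (nat_lit 2) (.n (nat_lit 493) (nat_lit 1) .z)))))))))))))))))))) (.ct dC1c_c293 (nat_lit 1) (nat_lit 9) (.s false (nat_lit 1) (nat_lit 91) (nat_lit 2) (nat_lit 1) (nat_lit 2) true (nat_lit 9) true (nat_lit 13) false (nat_lit 4) true (nat_lit 13) true (nat_lit 14) (.e false (nat_lit 1) (nat_lit 290) (nat_lit 2) (nat_lit 13) (.e true (nat_lit 3) (nat_lit 291) (nat_lit 2) (nat_lit 13) (.e true (nat_lit 1) (nat_lit 292) (nat_lit 2) (nat_lit 13) (.e true (nat_lit 2) (nat_lit 293) (nat_lit 2) (nat_lit 13) (.e false (nat_lit 1) (nat_lit 294) (nat_lit 2) (nat_lit 13) (.e true (nat_lit 2) (nat_lit 295) (nat_lit 2) (nat_lit 13) (.e false (nat_lit 1) (nat_lit 296) (nat_lit 2) (nat_lit 13) (.e true (nat_lit 1) (nat_lit 297) (nat_lit 2) (nat_lit 13) (.e false (nat_lit 1) (nat_lit 299) (nat_lit 2) (nat_lit 13) (.e false (nat_lit 1) (nat_lit 301) (nat_lit 2) (nat_lit 13) (.e false (nat_lit 3) (nat_lit 302) (nat_lit 2) (nat_lit 13) (.e false (nat_lit 2) (nat_lit 304) (nat_lit 2) (nat_lit 13) (.e false (nat_lit 3) (nat_lit 305) (nat_lit 2) (nat_lit 13) (.e true (nat_lit 1) (nat_lit 308) (nat_lit 2) (nat_lit 13) (.e false (nat_lit 1) (nat_lit 310) (nat_lit 2) (nat_lit 13) (.e false (nat_lit 2) (nat_lit 317) (nat_lit 2) (nat_lit 13) (.e true (nat_lit 1) (nat_lit 91) (nat_lit 16) (nat_lit 4) (.e true (nat_lit 1) (nat_lit 298) (nat_lit 2) (nat_lit 13) (.e true (nat_lit 2) (nat_lit 307) (nat_lit 2) (nat_lit 13) (.e false (nat_lit 2) (nat_lit 316) (nat_lit 2) (nat_lit 13) (.e true (nat_lit 1) (nat_lit 318) (nat_lit 2) (nat_lit 13) (.e false (nat_lit 1) (nat_lit 337) (nat_lit 1) (nat_lit 14) (.u (nat_lit 2) (.n (nat_lit 0) (nat_lit 2) (.p (nat_lit 1) (nat_lit 2) (.n (nat_lit 2) (nat_lit 1) (.p (nat_lit 3) (nat_lit 1) (.p (nat_lit 4) (nat_lit 1) (.p (nat_lit 7) (nat_lit 2) (.p (nat_lit 8) (nat_lit 1) (.p (nat_lit 9) (nat_lit 1) (.n (nat_lit 10) (nat_lit 1) (.n (nat_lit 11) (nat_lit 2) (.p (nat_lit 12) (nat_lit 2) (.p (nat_lit 13) (nat_lit 1) (.p (nat_lit 14) (nat_lit 1) (.p (nat_lit 15) (nat_lit 2) (.n (nat_lit 16) (nat_lit 1) (.p (nat_lit 17) (nat_lit 1) (.n (nat_lit 22) (nat_lit 1) (.p (nat_lit 26) (nat_lit 1) (.p (nat_lit 27) (nat_lit 2) (.n (nat_lit 29) (nat_lit 2) (.n (nat_lit 33) (nat_lit 2) (.n (nat_lit 179) (nat_lit 1) (.p (nat_lit 180) (nat_lit 1) (.n (nat_lit 184) (nat_lit 1) .z)))))))))))))))))))))))) .nil))))))))))))))))))))))))) .leaf) (nat_lit 173056) (nat_lit 434) (.p (nat_lit 228) (nat_lit 1) .z) .df .leaf)) (nat_lit 173058) (nat_lit 698) (.p (nat_lit 306) (nat_lit 1) .z) .df (.nd (.nd (.nd .leaf (nat_lit 173062) (nat_lit 1544) (.p (nat_lit 460) (nat_lit 3) (.n (nat_lit 461) (nat_lit 3) (.p (nat_lit 462) (nat_lit 3) (.p (nat_lit 463) (nat_lit 3) (.n (nat_lit 464) (nat_lit 3) (.p (nat_lit 465) (nat_lit 1) (.n (nat_lit 467) (nat_lit 1) (.n (nat_lit 468) (nat_lit 3) (.p (nat_lit 470) (nat_lit 3) (.n (nat_lit 471) (nat_lit 2) (.p (nat_lit 473) (nat_lit 1) (.p (nat_lit 474) (nat_lit 1) (.n (nat_lit 475) (nat_lit 1) (.n (nat_lit 476) (nat_lit 2) (.n (nat_lit 477) (nat_lit 2) (.p (nat_lit 478) (nat_lit 1) (.n (nat_lit 479) (nat_lit 2) (.n (nat_lit 480) (nat_lit 1) (.n (nat_lit 481) (nat_lit 2) (.p (nat_lit 482) (nat_lit 1) (.n (nat_lit 489) (nat_lit 1) (.p (nat_lit 492) (nat_lit 1) (.n (nat_lit 493) (nat_lit 1) .z))))))))))))))))))))))) (.ct dC1c_c293 (nat_lit 1) (nat_lit 9) (.s true (nat_lit 2) (nat_lit 13) (nat_lit 6) (nat_lit 0) (nat_lit 6) false (nat_lit 2) true (nat_lit 9) true (nat_lit 6) true (nat_lit 9) true (nat_lit 15) (.e false (nat_lit 2) (nat_lit 153) (nat_lit 6) (nat_lit 9) (.e false (nat_lit 2) (nat_lit 154) (nat_lit 6) (nat_lit 9) dC1c_i234)))) .leaf) (nat_lit 174080) (nat_lit 435) (.p (nat_lit 229) (nat_lit 1) .z) .df .leaf) (nat_lit 174082) (nat_lit 699) (.p (nat_lit 307) (nat_lit 1) .z) .df (.nd (.nd .leaf (nat_lit 174084) (nat_lit 1121) (.n (nat_lit 355) (nat_lit 3) (.p (nat_lit 356) (nat_lit 3) (.n (nat_lit 357) (nat_lit 2) (.n (nat_lit 358) (nat_lit 1) (.n (nat_lit 359) (nat_lit 1) (.p (nat_lit 360) (nat_lit 3) (.p (nat_lit 361) (nat_lit 3) (.n (nat_lit 362) (nat_lit 3) (.p (nat_lit 363) (nat_lit 3) (.n (nat_lit 364) (nat_lit 3) (.n (nat_lit 365) (nat_lit 2) (.n (nat_lit 366) (nat_lit 1) (.n (nat_lit 367) (nat_lit 3) (.n (nat_lit 369) (nat_lit 1) (.n (nat_lit 370) (nat_lit 2) (.n (nat_lit 372) (nat_lit 3) (.p (nat_lit 373) (nat_lit 2) (.n (nat_lit 375) (nat_lit 2) (.n (nat_lit 381) (nat_lit 1) (.p (nat_lit 382) (nat_lit 1) (.n (nat_lit 383) (nat_lit 3) (.n (nat_lit 384) (nat_lit 2) (.p (nat_lit 385) (nat_lit 2) (.n (nat_lit 386) (nat_lit 3) (.n (nat_lit 387) (nat_lit 2) (.p (nat_lit 388) (nat_lit 3) (.n (nat_lit 389) (nat_lit 1) (.p (nat_lit 390) (nat_lit 1) (.p (nat_lit 391) (nat_lit 3) (.p (nat_lit 392) (nat_lit 2) (.n (nat_lit 394) (nat_lit 1) (.n (nat_lit 395) (nat_lit 3) (.n (nat_lit 404) (nat_lit 2) .z))))))))))))))))))))))))))))))))) (.ct dC1c_c548 (nat_lit 1) (nat_lit 15) (.s true (nat_lit 1) (nat_lit 24) (nat_lit 0) (nat_lit 6) (nat_lit 2) true (nat_lit 15) true (nat_lit 17) true (nat_lit 2) true (nat_lit 19) true (nat_lit 13) (.e true (nat_lit 2) (nat_lit 212) (nat_lit 2) (nat_lit 17) (.e false (nat_lit 3) (nat_lit 213) (nat_lit 2) (nat_lit 17) (.e false (nat_lit 2) (nat_lit 215) (nat_lit 2) (nat_lit 17) (.e true (nat_lit 3) (nat_lit 216) (nat_lit 2) (nat_lit 17) (.e false (nat_lit 3) (nat_lit 217) (nat_lit 2) (nat_lit 17) (.e false (nat_lit 2) (nat_lit 218) (nat_lit 2) (nat_lit 17) (.e true (nat_lit 2) (nat_lit 219) (nat_lit 2) (nat_lit 17) (.e true (nat_lit 2) (nat_lit 220) (nat_lit 2) (nat_lit 17) (.e true (nat_lit 3) (nat_lit 221) (nat_lit 2) (nat_lit 17) dC1c_i235))))))))))) .leaf) (nat_lit 174086) (nat_lit 1427) (.p (nat_lit 489) (nat_lit 2) .z) (.ct dC1c_c293 (nat_lit 1) (nat_lit 9) (.s true (nat_lit 1) (nat_lit 8) (nat_lit 6) (nat_lit 2) (nat_lit 6) false (nat_lit 2) true (nat_lit 9) true (nat_lit 8) true (nat_lit 9) true (nat_lit 13) (.e false (nat_lit 2) (nat_lit 307) (nat_lit 2) (nat_lit 13) .nil))) .leaf))))))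

noncomputable def dC1c_t5 : Tr := (.nd dC1c_t3 (nat_lit 148482) (nat_lit 586) (.p (nat_lit 273) (nat_lit 1) .z) .df dC1c_t4)

noncomputable def dC1c_t6 : Tr := (.nd dC1c_t2 (nat_lit 108551) (nat_lit 1269) (.n (nat_lit 426) (nat_lit 2) (.n (nat_lit 427) (nat_lit 3) (.p (nat_lit 428) (nat_lit 1) (.n (nat_lit 429) (nat_lit 1) (.p (nat_lit 430) (nat_lit 1) (.n (nat_lit 431) (nat_lit 1) (.n (nat_lit 435) (nat_lit 3) (.p (nat_lit 436) (nat_lit 2) (.n (nat_lit 438) (nat_lit 2) (.n (nat_lit 439) (nat_lit 3) (.p (nat_lit 441) (nat_lit 2) (.p (nat_lit 442) (nat_lit 3) (.p (nat_lit 443) (nat_lit 2) (.p (nat_lit 444) (nat_lit 3) (.p (nat_lit 445) (nat_lit 2) .z))))))))))))))) (.ct dC1c_c533 (nat_lit 1) (nat_lit 8) (.s true (nat_lit 1) (nat_lit 18) (nat_lit 2) (nat_lit 2) (nat_lit 7) true (nat_lit 2) true (nat_lit 8) true (nat_lit 3) true (nat_lit 13) true (nat_lit 13) (.e false (nat_lit 1) (nat_lit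 46) (nat_lit 20) (nat_lit 2) (.e false (nat_lit 1) (nat_lit 65) (nat_lit 18) (nat_lit 3) (.e true (nat_lit 2) (nat_lit 277) (nat_lit 2) (nat_lit 13) (.e false (nat_lit 1) (nat_lit 286) (nat_lit 2) (nat_lit 13) (.e false (nat_lit 1) (nat_lit 270) (nat_lit 2) (nat_lit 13) (.u (nat_lit 2) (.p (nat_lit 0) (nat_lit 1) (.p (nat_lit 1) (nat_lit 1) (.p (nat_lit 3) (nat_lit 1) (.p (nat_lit 9) (nat_lit 1) (.p (nat_lit 12) (nat_lit 1) (.p (nat_lit 13) (nat_lit 1) (.n (nat_lit 16) (nat_lit 1) (.n (nat_lit 18) (nat_lit 1) (.p (nat_lit 33) (nat_lit 1) .z))))))))) .nil)))))))) dC1c_t5)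

end Pool.Agent.MalP.Chk7
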