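import Pool.Agent.MalP.P7.ChkDef

/-! # Data for the certificate of zC1Ex -/

set_option autoImplicit false
set_option maxRecDepth 100000

namespace Pool.Agent.MalP.Chk7

noncomputable def dC1d_c293 : Cm := .mk (nat_lit 1393) (nat_lit 293) (nat_lit 460) (nat_lit 34) (.c (nat_lit 40) (nat_lit 3) (nat_lit 37) (nat_lit 3) (nat_lit 34) (.c (nat_lit 43) (nat_lit 3) (nat_lit 31) (nat_lit 6) (nat_lit 43) (.c (nat_lit 46) (nat_lit 1) (nat_lit 24) (nat_lit 4) (nat_lit 61) (.c (nat_lit 66) (nat_lit 11) (nat_lit 18) (nat_lit 1) (nat_lit 65) (.c (nat_lit 82) (nat_lit 11) (nat_lit 16) (nat_lit 2) (nat_lit 76) (.c (nat_lit 93) (nat_lit 5) (nat_lit 14) (nat_lit 2) (nat_lit 98) (.c (nat_lit 98) (nat_lit 4) (nat_lit 13) (nat_lit 1) (nat_lit 108) (.c (nat_lit 102) (nat_lit 4) (nat_lit 10) (nat_lit 3) (nat_lit 112) (.c (nat_lit 106) (nat_lit 1) (nat_lit 8) (nat_lit 1) (nat_lit 124) (.c (nat_lit 153) (nat_lit 21) (nat_lit 6) (nat_lit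 1) (nat_lit 125) (.c (nat_lit 180) (nat_lit 16) (nat_lit 5) (nat_lit 1) (nat_lit 146) (.c (nat_lit 196) (nat_lit 6) (nat_lit 4) (nat_lit 1) (nat_lit 162) (.c (nat_lit 207) (nat_lit 5) (nat_lit 3) (nat_lit 1) (nat_lit 168) (.c (nat_lit 290) (nat_lit 30) (nat_lit 2) (nat_lit 1) (nat_lit 173) (.c (nat_lit 328) (nat_lit 19) (nat_lit 1) (nat_lit 1) (nat_lit 203) (.c (nat_lit 347) (nat_lit 8) (nat_lit 0) (nat_lit 1) (nat_lit 222) (.c (nat_lit 2032) (nat_lit 0) (nat_lit 202) (nat_lit 5) (nat_lit 230) .nil)))))))))))))))))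

noncomputable def dC1d_i0 : IL := (.e true (nat_lit 1) (nat_lit 324) (nat_lit 1) (nat_lit 14) (.e false (nat_lit 1) (nat_lit 325) (nat_lit 1) (nat_lit 14) (.e true (nat_lit 1) (nat_lit 326) (nat_lit 1) (nat_lit 14) (.e false (nat_lit 2) (nat_lit 262) (nat_lit 2) (nat_lit 13) (.e false (nat_lit 3) (nat_lit 265) (nat_lit 2) (nat_lit 13) (.e true (nat_lit 3) (nat_lit 271) (nat_lit 2) (nat_lit 13) (.e false (nat_lit 2) (nat_lit 272) (nat_lit 2) (nat_lit 13) (.e true (nat_lit 1) (nat_lit 273) (nat_lit 2) (nat_lit 13) (.e true (nat_lit 1) (nat_lit 277) (nat_lit 2) (nat_lit 13) (.e false (nat_lit 1) (nat_lit 278) (nat_lit 2) (nat_lit 13) (.e true (nat_lit 2) (nat_lit 280) (nat_lit 2) (nat_lit 13) (.e true (nat_lit 3) (nat_lit 267) (nat_lit 2) (nat_lit 13) (.e false (nat_lit 3) (nat_lit 268) (nat_lit 2) (nat_lit 13) (.e false (nat_lit 2) (nat_lit 269) (nat_lit 2) (nat_lit 13) (.e true (nat_lit 2) (nat_lit 279) (nat_lit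 2) (nat_lit 13) (.e true (nat_lit 1) (nat_lit 288) (nat_lit 2) (nat_lit 13) (.e true (nat_lit 1) (nat_lit 261) (nat_lit 2) (nat_lit 13) (.e false (nat_lit 3) (nat_lit 264) (nat_lit 2) (nat_lit 13) (.e false (nat_lit 1) (nat_lit 266) (nat_lit 2) (nat_lit 13) (.e true (nat_lit 2) (nat_lit 270) (nat_lit 2) (nat_lit 13) (.e false (nat_lit 3) (nat_lit 286) (nat_lit 2) (nat_lit 13) (.e true (nat_lit 2) (nat_lit 287) (nat_lit 2) (nat_lit 13) (.e false (nat_lit 1) (nat_lit 281) (nat_lit 2) (nat_lit 13) (.e true (nat_lit 1) (nat_lit 320) (nat_lit 1) (nat_lit 14) (.u (nat_lit 2) (.n (nat_lit 0) (nat_lit 1) (.p (nat_lit 1) (nat_lit 1) (.n (nat_lit 2) (nat_lit 2) (.p (nat_lit 4) (nat_lit 2) (.p (nat_lit 6) (nat_lit 3) (.p (nat_lit 7) (nat_lit 3) (.p (nat_lit 8) (nat_lit 2) (.n (nat_lit 9) (nat_lit 3) (.p (nat_lit 10) (nat_lit 1) (.n (nat_lit 12) (nat_lit 2) (.p (nat_lit 16) (nat_lit 2) (.p (nat_lit 18) (nat_lit 1) (.n (nat_lit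 19) (nat_lit 1) (.n (nat_lit 22) (nat_lit 1) (.p (nat_lit 23) (nat_lit 2) (.n (nat_lit 25) (nat_lit 1) (.n (nat_lit 26) (nat_lit 1) (.p (nat_lit 30) (nat_lit 2) (.n (nat_lit 33) (nat_lit 3) (.p (nat_lit 174) (nat_lit 1) (.p (nat_lit 175) (nat_lit 1) (.n (nat_lit 176) (nat_lit 1) (.n (nat_lit 178) (nat_lit 1) (.n (nat_lit 179) (nat_lit 1) (.n (nat_lit 180) (nat_lit 1) (.p (nat_lit 181) (nat_lit 1) (.p (nat_lit 182) (nat_lit 1) (.p (nat_lit 184) (nat_lit 1) (.n (nat_lit 185) (nat_lit 1) (.p (nat_lit 191) (nat_lit 2) (.p (nat_lit 192) (nat_lit 1) (.n (nat_lit 193) (nat_lit 2) (.p (nat_lit 195) (nat_lit 2) (.n (nat_lit 199) (nat_lit 1) (.p (nat_lit 201) (nat_lit 1) (.n (nat_lit 202) (nat_lit 2) .z)))))))))))))))))))))))))))))))))))) .nil)))))))))))))))))))))))))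

noncomputable def dC1d_c533 : Cm := .mk (nat_lit 1215) (nat_lit 533) (nat_lit 426) (nat_lit 34) (.c (nat_lit 40) (nat_lit 3) (nat_lit 31) (nat_lit 6) (nat_lit 34) (.c (nat_lit 43) (nat_lit 3) (nat_lit 28) (nat_lit 3) (nat_lit 52) (.c (nat_lit 46) (nat_lit 1) (nat_lit 20) (nat_lit 4) (nat_lit 61) (.c (nat_lit 55) (nat_lit 11) (nat_lit 18) (nat_lit 1) (nat_lit 65) (.c (nat_lit 77) (nat_lit 5) (nat_lit 16) (nat_lit 2) (nat_lit 76) (.c (nat_lit 82) (nat_lit 11) (nat_lit 14) (nat_lit 2) (nat_lit 86) (.c (nat_lit 98) (nat_lit 4) (nat_lit 10) (nat_lit 3) (nat_lit 108) (.c (nat_lit 102) (nat_lit 4) (nat_lit 9) (nat_lit 1) (nat_lit 120) (.c (nat_lit 106) (nat_lit 1) (nat_lit 7) (nat_lit 1) (nat_lit 124) (.c (nat_lit 132) (nat_lit 21) (nat_lit 6) (nat_lit 1) (nat_lit 125) (.c (nat_lit 174) (nat_lit 6) (nat_lit 5) (nat_lit 1) (nat_lit 146) (.c (nat_lit 180) (nat_lit 16) (nat_lit 4) (nat_lit 1) (nat_lit 152) (.c (nat_lit 202)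 (nat_lit 5) (nat_lit 3) (nat_lit 1) (nat_lit 168) (.c (nat_lit 260) (nat_lit 30) (nat_lit 2) (nat_lit 1) (nat_lit 173) (.c (nat_lit 320) (nat_lit 8) (nat_lit 1) (nat_lit 1) (nat_lit 203) (.c (nat_lit 328) (nat_lit 19) (nat_lit 0) (nat_lit 1) (nat_lit 211) (.c (nat_lit 2512) (nat_lit 0) (nat_lit 207) (nat_lit 5) (nat_lit 230) .nil)))))))))))))))))

noncomputable def dC1d_c532 : Cm := .mk (nat_lit 573) (nat_lit 532) (nat_lit 260) (nat_lit 30) (.c (nat_lit 20) (nat_lit 4) (nat_lit 18) (nat_lit 1) (nat_lit 30) (.c (nat_lit 28) (nat_lit 3) (nat_lit 16) (nat_lit 2) (nat_lit 34) (.c (nat_lit 31) (nat_lit 6) (nat_lit 14) (nat_lit 2) (nat_lit 40) (.c (nat_lit 40) (nat_lit 3) (nat_lit 10) (nat_lit 3) (nat_lit 52) (.c (nat_lit 43) (nat_lit 3) (nat_lit 9) (nat_lit 1) (nat_lit 61) (.c (nat_lit 46) (nat_lit 1) (nat_lit 7) (nat_lit 1) (nat_lit 64) (.c (nat_lit 55) (nat_lit 11) (nat_lit 6) (nat_lit 1) (nat_lit 65) (.c (nat_lit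 77) (nat_lit 5) (nat_lit 5) (nat_lit 1) (nat_lit 76) (.c (nat_lit 82) (nat_lit 11) (nat_lit 4) (nat_lit 1) (nat_lit 81) (.c (nat_lit 98) (nat_lit 4) (nat_lit 3) (nat_lit 1) (nat_lit 92) (.c (nat_lit 132) (nat_lit 21) (nat_lit 2) (nat_lit 1) (nat_lit 96) (.c (nat_lit 174) (nat_lit 6) (nat_lit 1) (nat_lit 1) (nat_lit 117) (.c (nat_lit 180) (nat_lit 16) (nat_lit 0) (nat_lit 1) (nat_lit 123) (.c (nat_lit 2512) (nat_lit 0) (nat_lit 102) (nat_lit 4) (nat_lit 139) .nil))))))))))))))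

noncomputable def dC1d_i1 : IL := (.e false (nat_lit 3) (nat_lit 151) (nat_lit 2) (nat_lit 10) (.e true (nat_lit 3) (nat_lit 152) (nat_lit 2) (nat_lit 10) (.e false (nat_lit 3) (nat_lit 137) (nat_lit 2) (nat_lit 10) (.e false (nat_lit 1) (nat_lit 139) (nat_lit 2) (nat_lit 10) (.e false (nat_lit 3) (nat_lit 41) (nat_lit 10) (nat_lit 3) (.e true (nat_lit 3) (nat_lit 141) (nat_lit 2) (nat_lit 10) (.e true (nat_lit 3) (nat_lit 31) (nat_lit 15) (nat_lit 2) (.e false (nat_lit 1) (nat_lit 46) (nat_lit 7) (nat_lit 5) (.e true (nat_lit 1) (nat_lit 21) (nat_lit 18) (nat_lit 0) (.e false (nat_lit 1) (nat_lit 22) (nat_lit 18) (nat_lit 0) (.e true (nat_lit 1) (nat_lit 188) (nat_lit 0) (nat_lit 12) (.e false (nat_lit 1) (nat_lit 192) (nat_lit 0) (nat_lit 12) (.e false (nat_lit 2) (nat_lit 180) (nat_lit 0) (nat_lit 12) (.e true (nat_lit 2) (nat_lit 185) (nat_lit 0) (nat_lit 12) (.e true (nat_lit 2) (nat_lit 190) (nat_lit 0) (nat_lit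 12) (.e true (nat_lit 1) (nat_lit 184) (nat_lit 0) (nat_lit 12) (.e false (nat_lit 2) (nat_lit 186) (nat_lit 0) (nat_lit 12) (.e true (nat_lit 2) (nat_lit 189) (nat_lit 0) (nat_lit 12) (.e true (nat_lit 3) (nat_lit 187) (nat_lit 0) (nat_lit 12) (.e true (nat_lit 1) (nat_lit 182) (nat_lit 0) (nat_lit 12) (.e false (nat_lit 3) (nat_lit 174) (nat_lit 1) (nat_lit 11) (.e false (nat_lit 1) (nat_lit 175) (nat_lit 1) (nat_lit 11) (.e false (nat_lit 1) (nat_lit 178) (nat_lit 1) (nat_lit 11) (.e true (nat_lit 2) (nat_lit 179) (nat_lit 1) (nat_lit 11) (.u (nat_lit 2) (.n (nat_lit 0) (nat_lit 2) (.n (nat_lit 1) (nat_lit 5) (.n (nat_lit 2) (nat_lit 2) (.p (nat_lit 4) (nat_lit 2) (.n (nat_lit 5) (nat_lit 4) (.p (nat_lit 6) (nat_lit 1) (.n (nat_lit 8) (nat_lit 1) (.p (nat_lit 9) (nat_lit 1) (.n (nat_lit 11) (nat_lit 2) (.n (nat_lit 12) (nat_lit 1) (.n (nat_lit 13) (nat_lit 3) (.p (nat_lit 14) (nat_lit 2) (.p (nat_lit 15) (nat_lit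 2) (.n (nat_lit 16) (nat_lit 1) (.p (nat_lit 17) (nat_lit 1) (.n (nat_lit 18) (nat_lit 1) (.p (nat_lit 19) (nat_lit 6) (.n (nat_lit 20) (nat_lit 1) (.n (nat_lit 22) (nat_lit 2) (.n (nat_lit 24) (nat_lit 1) (.n (nat_lit 25) (nat_lit 1) (.p (nat_lit 26) (nat_lit 3) (.p (nat_lit 28) (nat_lit 1) (.p (nat_lit 29) (nat_lit 2) (.p (nat_lit 93) (nat_lit 1) (.p (nat_lit 94) (nat_lit 1) (.n (nat_lit 96) (nat_lit 1) (.p (nat_lit 97) (nat_lit 3) (.p (nat_lit 102) (nat_lit 3) (.p (nat_lit 104) (nat_lit 2) (.p (nat_lit 105) (nat_lit 1) (.p (nat_lit 106) (nat_lit 2) (.p (nat_lit 107) (nat_lit 1) (.p (nat_lit 108) (nat_lit 1) (.n (nat_lit 109) (nat_lit 1) (.n (nat_lit 111) (nat_lit 1) (.p (nat_lit 115) (nat_lit 1) (.p (nat_lit 116) (nat_lit 2) (.p (nat_lit 124) (nat_lit 1) (.n (nat_lit 129) (nat_lit 1) .z)))))))))))))))))))))))))))))))))))))))) .nil)))))))))))))))))))))))))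

noncomputable def dC1d_i2 : IL := (.e false (nat_lit 1) (nat_lit 323) (nat_lit 1) (nat_lit 14) (.e true (nat_lit 1) (nat_lit 324) (nat_lit 1) (nat_lit 14) (.e false (nat_lit 1) (nat_lit 325) (nat_lit 1) (nat_lit 14) (.e false (nat_lit 1) (nat_lit 326) (nat_lit 1) (nat_lit 14) (.e true (nat_lit 3) (nat_lit 327) (nat_lit 1) (nat_lit 14) (.e true (nat_lit 1) (nat_lit 98) (nat_lit 11) (nat_lit 6) (.e false (nat_lit 3) (nat_lit 260) (nat_lit 2) (nat_lit 13) (.e true (nat_lit 3) (nat_lit 261) (nat_lit 2) (nat_lit 13) (.e true (nat_lit 3) (nat_lit 263) (nat_lit 2) (nat_lit 13) (.e true (nat_lit 3) (nat_lit 264) (nat_lit 2) (nat_lit 13) (.e true (nat_lit 3) (nat_lit 265) (nat_lit 2) (nat_lit 13) (.e true (nat_lit 1) (nat_lit 266) (nat_lit 2) (nat_lit 13) (.e true (nat_lit 2) (nat_lit 267) (nat_lit 2) (nat_lit 13) (.e false (nat_lit 3) (nat_lit 268) (nat_lit 2) (nat_lit 13) (.e false (nat_lit 3) (nat_lit 273) (nat_lit 2)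 (nat_lit 13) (.e false (nat_lit 2) (nat_lit 274) (nat_lit 2) (nat_lit 13) (.e false (nat_lit 3) (nat_lit 277) (nat_lit 2) (nat_lit 13) (.e true (nat_lit 2) (nat_lit 278) (nat_lit 2) (nat_lit 13) (.e true (nat_lit 2) (nat_lit 279) (nat_lit 2) (nat_lit 13) (.e true (nat_lit 1) (nat_lit 280) (nat_lit 2) (nat_lit 13) (.e false (nat_lit 1) (nat_lit 283) (nat_lit 2) (nat_lit 13) (.e false (nat_lit 3) (nat_lit 286) (nat_lit 2) (nat_lit 13) (.e true (nat_lit 3) (nat_lit 288) (nat_lit 2) (nat_lit 13) (.e true (nat_lit 1) (nat_lit 339) (nat_lit 0) (nat_lit 15) (.u (nat_lit 2) (.n (nat_lit 0) (nat_lit 1) (.p (nat_lit 1) (nat_lit 8) (.n (nat_lit 2) (nat_lit 3) (.p (nat_lit 3) (nat_lit 1) (.p (nat_lit 5) (nat_lit 1) (.p (nat_lit 6) (nat_lit 5) (.p (nat_lit 7) (nat_lit 5) (.n (nat_lit 8) (nat_lit 2) (.n (nat_lit 9) (nat_lit 1) (.n (nat_lit 10) (nat_lit 2) (.p (nat_lit 12) (nat_lit 2) (.n (nat_lit 13) (nat_lit 2) (.n (nat_lit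 15) (nat_lit 2) (.n (nat_lit 16) (nat_lit 2) (.p (nat_lit 18) (nat_lit 3) (.p (nat_lit 19) (nat_lit 6) (.n (nat_lit 21) (nat_lit 1) (.n (nat_lit 22) (nat_lit 1) (.p (nat_lit 23) (nat_lit 1) (.n (nat_lit 24) (nat_lit 2) (.n (nat_lit 26) (nat_lit 1) (.n (nat_lit 33) (nat_lit 4) .z)))))))))))))))))))))) .nil)))))))))))))))))))))))))

noncomputable def dC1d_i3 : IL := (.e false (nat_lit 3) (nat_lit 82) (nat_lit 4) (nat_lit 8) (.e false (nat_lit 2) (nat_lit 83) (nat_lit 4) (nat_lit 8) (.e false (nat_lit 1) (nat_lit 32) (nat_lit 14) (nat_lit 2) (.e true (nat_lit 1) (nat_lit 31) (nat_lit 14) (nat_lit 2) (.e true (nat_lit 3) (nat_lit 41) (nat_lit 10) (nat_lit 3) (.e false (nat_lit 3) (nat_lit 31) (nat_lit 15) (nat_lit 2) (.e false (nat_lit 2) (nat_lit 195) (nat_lit 0) (nat_lit 12) (.e true (nat_lit 2) (nat_lit 46) (nat_lit 7) (nat_lit 5) (.e false (nat_lit 1) (nat_lit 21) (nat_lit 18) (nat_lit 0) (.e true (nat_lit 1) (nat_lit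 22) (nat_lit 18) (nat_lit 0) (.e true (nat_lit 3) (nat_lit 188) (nat_lit 0) (nat_lit 12) (.e true (nat_lit 3) (nat_lit 192) (nat_lit 0) (nat_lit 12) (.e false (nat_lit 2) (nat_lit 180) (nat_lit 0) (nat_lit 12) (.e true (nat_lit 1) (nat_lit 181) (nat_lit 0) (nat_lit 12) (.e false (nat_lit 3) (nat_lit 184) (nat_lit 0) (nat_lit 12) (.e false (nat_lit 2) (nat_lit 185) (nat_lit 0) (nat_lit 12) (.e false (nat_lit 1) (nat_lit 186) (nat_lit 0) (nat_lit 12) (.e true (nat_lit 1) (nat_lit 187) (nat_lit 0) (nat_lit 12) (.e true (nat_lit 3) (nat_lit 189) (nat_lit 0) (nat_lit 12) (.e false (nat_lit 1) (nat_lit 174) (nat_lit 1) (nat_lit 11) (.e false (nat_lit 2) (nat_lit 182) (nat_lit 0) (nat_lit 12) (.e true (nat_lit 2) (nat_lit 193) (nat_lit 0) (nat_lit 12) (.e false (nat_lit 1) (nat_lit 101) (nat_lit 3) (nat_lit 9) (.u (nat_lit 2) (.p (nat_lit 0) (nat_lit 1) (.p (nat_lit 1) (nat_lit 2) (.n (nat_lit 2) (nat_lit 1) (.n (nat_lit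 3) (nat_lit 4) (.p (nat_lit 4) (nat_lit 3) (.n (nat_lit 5) (nat_lit 1) (.n (nat_lit 6) (nat_lit 5) (.n (nat_lit 7) (nat_lit 1) (.p (nat_lit 8) (nat_lit 3) (.p (nat_lit 9) (nat_lit 1) (.p (nat_lit 10) (nat_lit 2) (.p (nat_lit 11) (nat_lit 1) (.p (nat_lit 12) (nat_lit 1) (.n (nat_lit 13) (nat_lit 3) (.n (nat_lit 14) (nat_lit 1) (.n (nat_lit 15) (nat_lit 2) (.p (nat_lit 17) (nat_lit 1) (.n (nat_lit 18) (nat_lit 2) (.n (nat_lit 19) (nat_lit 5) (.p (nat_lit 20) (nat_lit 1) (.p (nat_lit 21) (nat_lit 1) (.n (nat_lit 22) (nat_lit 2) (.p (nat_lit 23) (nat_lit 1) (.n (nat_lit 24) (nat_lit 1) (.p (nat_lit 25) (nat_lit 1) (.n (nat_lit 26) (nat_lit 2) (.n (nat_lit 27) (nat_lit 1) (.p (nat_lit 29) (nat_lit 1) (.p (nat_lit 52) (nat_lit 1) (.n (nat_lit 69) (nat_lit 1) (.p (nat_lit 70) (nat_lit 1) (.n (nat_lit 71) (nat_lit 1) (.p (nat_lit 74) (nat_lit 1) (.n (nat_lit 75) (nat_lit 1) (.n (nat_lit 93) (nat_lit 1) (.n (nat_lit 94)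 (nat_lit 1) (.p (nat_lit 96) (nat_lit 2) (.n (nat_lit 97) (nat_lit 3) (.p (nat_lit 98) (nat_lit 1) (.n (nat_lit 100) (nat_lit 1) (.p (nat_lit 101) (nat_lit 2) (.n (nat_lit 102) (nat_lit 1) (.n (nat_lit 103) (nat_lit 3) (.n (nat_lit 104) (nat_lit 2) (.n (nat_lit 106) (nat_lit 4) (.n (nat_lit 107) (nat_lit 2) (.n (nat_lit 108) (nat_lit 2) (.p (nat_lit 109) (nat_lit 2) (.p (nat_lit 110) (nat_lit 1) (.p (nat_lit 111) (nat_lit 1) (.n (nat_lit 113) (nat_lit 1) (.n (nat_lit 115) (nat_lit 2) (.n (nat_lit 116) (nat_lit 5) (.p (nat_lit 123) (nat_lit 1) (.n (nat_lit 127) (nat_lit 2) (.n (nat_lit 128) (nat_lit 1) (.p (nat_lit 129) (nat_lit 1) (.p (nat_lit 130) (nat_lit 1) (.p (nat_lit 131) (nat_lit 1) (.p (nat_lit 132) (nat_lit 2) .z)))))))))))))))))))))))))))))))))))))))))))))))))))))))))))) (.u (nat_lit 2) (.p (nat_lit 133) (nat_lit 2) .z) .nil)))))))))))))))))))))))))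

noncomputable def dC1d_i4 : IL := (.s true (nat_lit 1) (nat_lit 44) (nat_lit 0) (nat_lit 2) (nat_lit 0) false (nat_lit 13) true (nat_lit 12) false (nat_lit 4) true (nat_lit 12) true (nat_lit 10) (.s true (nat_lit 1) (nat_lit 45) (nat_lit 0) (nat_lit 2) (nat_lit 0) false (nat_lit 13) true (nat_lit 12) false (nat_lit 4) true (nat_lit 12) true (nat_lit 10) (.s false (nat_lit 1) (nat_lit 46) (nat_lit 1) (nat_lit 0) (nat_lit 0) true (nat_lit 9) true (nat_lit 12) false (nat_lit 5) true (nat_lit 11) true (nat_lit 12) (.e true (nat_lit 1) (nat_lit 77) (nat_lit 5) (nat_lit 7) (.e true (nat_lit 3) (nat_lit 132) (nat_lit 2) (nat_lit 10) (.e true (nat_lit 2) (nat_lit 134) (nat_lit 2) (nat_lit 10) (.e false (nat_lit 2) (nat_lit 136) (nat_lit 2) (nat_lit 10) (.e true (nat_lit 3) (nat_lit 137) (nat_lit 2) (nat_lit 10) (.e false (nat_lit 2) (nat_lit 138) (nat_lit 2) (nat_lit 10) (.e true (nat_lit 3) (nat_lit 139) (nat_lit 2) (nat_lit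 10) (.e false (nat_lit 2) (nat_lit 140) (nat_lit 2) (nat_lit 10) (.e false (nat_lit 2) (nat_lit 141) (nat_lit 2) (nat_lit 10) (.e false (nat_lit 3) (nat_lit 142) (nat_lit 2) (nat_lit 10) (.e true (nat_lit 3) (nat_lit 143) (nat_lit 2) (nat_lit 10) (.e true (nat_lit 1) (nat_lit 55) (nat_lit 6) (nat_lit 6) (.e false (nat_lit 3) (nat_lit 57) (nat_lit 6) (nat_lit 6) (.e true (nat_lit 2) (nat_lit 63) (nat_lit 6) (nat_lit 6) (.e true (nat_lit 1) (nat_lit 133) (nat_lit 2) (nat_lit 10) (.e true (nat_lit 3) (nat_lit 135) (nat_lit 2) (nat_lit 10) (.e true (nat_lit 1) (nat_lit 145) (nat_lit 2) (nat_lit 10) (.e true (nat_lit 3) (nat_lit 147) (nat_lit 2) (nat_lit 10) (.e false (nat_lit 2) (nat_lit 148) (nat_lit 2) (nat_lit 10) (.e false (nat_lit 2) (nat_lit 149) (nat_lit 2) (nat_lit 10) (.e true (nat_lit 3) (nat_lit 146) (nat_lit 2) (nat_lit 10) (.e true (nat_lit 2) (nat_lit 40) (nat_lit 10) (nat_lit 3) dC1d_i3)))))))))))))))))))))))))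

noncomputable def dC1d_i5 : IL := (.e false (nat_lit 1) (nat_lit 266) (nat_lit 2) (nat_lit 13) (.e true (nat_lit 3) (nat_lit 267) (nat_lit 2) (nat_lit 13) (.e true (nat_lit 3) (nat_lit 268) (nat_lit 2) (nat_lit 13) (.e true (nat_lit 1) (nat_lit 273) (nat_lit 2) (nat_lit 13) (.e false (nat_lit 3) (nat_lit 277) (nat_lit 2) (nat_lit 13) (.e false (nat_lit 2) (nat_lit 280) (nat_lit 2) (nat_lit 13) (.e true (nat_lit 2) (nat_lit 286) (nat_lit 2) (nat_lit 13) (.e true (nat_lit 3) (nat_lit 287) (nat_lit 2) (nat_lit 13) (.e false (nat_lit 1) (nat_lit 288) (nat_lit 2) (nat_lit 13) (.e false (nat_lit 2) (nat_lit 289) (nat_lit 2) (nat_lit 13) (.e false (nat_lit 2) (nat_lit 270) (nat_lit 2) (nat_lit 13) (.e true (nat_lit 1) (nat_lit 272) (nat_lit 2) (nat_lit 13) (.e true (nat_lit 2) (nat_lit 282) (nat_lit 2) (nat_lit 13) (.e false (nat_lit 3) (nat_lit 265) (nat_lit 2) (nat_lit 13) (.e true (nat_lit 1) (nat_lit 274) (nat_lit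 2) (nat_lit 13) (.e false (nat_lit 2) (nat_lit 261) (nat_lit 2) (nat_lit 13) (.e false (nat_lit 2) (nat_lit 260) (nat_lit 2) (nat_lit 13) (.e true (nat_lit 2) (nat_lit 281) (nat_lit 2) (nat_lit 13) (.e true (nat_lit 2) (nat_lit 283) (nat_lit 2) (nat_lit 13) (.e true (nat_lit 3) (nat_lit 271) (nat_lit 2) (nat_lit 13) (.e false (nat_lit 1) (nat_lit 101) (nat_lit 10) (nat_lit 6) (.e true (nat_lit 1) (nat_lit 327) (nat_lit 1) (nat_lit 14) (.e false (nat_lit 1) (nat_lit 343) (nat_lit 0) (nat_lit 15) (.e false (nat_lit 1) (nat_lit 344) (nat_lit 0) (nat_lit 15) (.u (nat_lit 2) (.n (nat_lit 0) (nat_lit 2) (.n (nat_lit 1) (nat_lit 1) (.p (nat_lit 2) (nat_lit 1) (.p (nat_lit 3) (nat_lit 3) (.n (nat_lit 5) (nat_lit 1) (.n (nat_lit 6) (nat_lit 2) (.n (nat_lit 7) (nat_lit 2) (.n (nat_lit 8) (nat_lit 1) (.p (nat_lit 9) (nat_lit 2) (.p (nat_lit 10) (nat_lit 1) (.p (nat_lit 13) (nat_lit 3) (.p (nat_lit 15) (nat_lit 2) (.p (nat_lit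 16) (nat_lit 4) (.n (nat_lit 18) (nat_lit 1) (.p (nat_lit 19) (nat_lit 1) (.n (nat_lit 20) (nat_lit 1) (.n (nat_lit 21) (nat_lit 1) (.p (nat_lit 22) (nat_lit 2) (.n (nat_lit 23) (nat_lit 2) (.p (nat_lit 24) (nat_lit 2) (.n (nat_lit 25) (nat_lit 1) (.p (nat_lit 29) (nat_lit 1) (.p (nat_lit 30) (nat_lit 2) (.p (nat_lit 33) (nat_lit 5) (.n (nat_lit 173) (nat_lit 1) (.p (nat_lit 175) (nat_lit 1) (.n (nat_lit 176) (nat_lit 1) (.p (nat_lit 177) (nat_lit 1) (.n (nat_lit 178) (nat_lit 1) (.n (nat_lit 179) (nat_lit 1) (.p (nat_lit 181) (nat_lit 2) (.p (nat_lit 182) (nat_lit 1) (.n (nat_lit 183) (nat_lit 2) (.p (nat_lit 185) (nat_lit 2) (.n (nat_lit 186) (nat_lit 1) (.p (nat_lit 187) (nat_lit 1) (.p (nat_lit 190) (nat_lit 1) (.p (nat_lit 191) (nat_lit 1) (.n (nat_lit 192) (nat_lit 1) (.p (nat_lit 193) (nat_lit 1) (.p (nat_lit 195) (nat_lit 1) (.n (nat_lit 197) (nat_lit 1) (.p (nat_lit 198) (nat_lit 1) (.p (nat_lit 200) (nat_lit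 2) (.p (nat_lit 201) (nat_lit 1) (.n (nat_lit 202) (nat_lit 1) .z)))))))))))))))))))))))))))))))))))))))))))))) .nil)))))))))))))))))))))))))

noncomputable def dC1d_c548 : Cm := .mk (nat_lit 917) (nat_lit 548) (nat_lit 355) (nat_lit 71) (.c (nat_lit 31) (nat_lit 6) (nat_lit 31) (nat_lit 6) (nat_lit 71) (.c (nat_lit 37) (nat_lit 3) (nat_lit 28) (nat_lit 3) (nat_lit 107) (.c (nat_lit 40) (nat_lit 3) (nat_lit 24) (nat_lit 4) (nat_lit 116) (.c (nat_lit 43) (nat_lit 3) (nat_lit 20) (nat_lit 4) (nat_lit 128) (.c (nat_lit 46) (nat_lit 1) (nat_lit 19) (nat_lit 1) (nat_lit 140) (.c (nat_lit 47) (nat_lit 8) (nat_lit 18) (nat_lit 1) (nat_lit 141) (.c (nat_lit 55) (nat_lit 11) (nat_lit 16) (nat_lit 2) (nat_lit 149) (.c (nat_lit 66) (nat_lit 11) (nat_lit 14) (nat_lit 2) (nat_lit 171) (.c (nat_lit 77) (nat_lit 5) (nat_lit 13) (nat_lit 1) (nat_lit 193) (.c (nat_lit 82) (nat_lit 11) (nat_lit 10) (nat_lit 3) (nat_lit 198) (.c (nat_lit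 93) (nat_lit 5) (nat_lit 9) (nat_lit 1) (nat_lit 231) (.c (nat_lit 98) (nat_lit 4) (nat_lit 8) (nat_lit 1) (nat_lit 236) (.c (nat_lit 102) (nat_lit 4) (nat_lit 7) (nat_lit 1) (nat_lit 240) (.c (nat_lit 107) (nat_lit 25) (nat_lit 6) (nat_lit 1) (nat_lit 244) (.c (nat_lit 132) (nat_lit 21) (nat_lit 5) (nat_lit 1) (nat_lit 269) (.c (nat_lit 153) (nat_lit 21) (nat_lit 4) (nat_lit 1) (nat_lit 290) (.c (nat_lit 180) (nat_lit 16) (nat_lit 3) (nat_lit 1) (nat_lit 311) (.c (nat_lit 212) (nat_lit 48) (nat_lit 2) (nat_lit 1) (nat_lit 327) (.c (nat_lit 260) (nat_lit 30) (nat_lit 1) (nat_lit 1) (nat_lit 375) (.c (nat_lit 290) (nat_lit 30) (nat_lit 0) (nat_lit 1) (nat_lit 405) (.c (nat_lit 2512) (nat_lit 0) (nat_lit 196) (nat_lit 6) (nat_lit 435) (.c (nat_lit 2032) (nat_lit 0) (nat_lit 174) (nat_lit 6) (nat_lit 435) .nil))))))))))))))))))))))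

noncomputable def dC1d_i6 : IL := (.s true (nat_lit 1) (nat_lit 82) (nat_lit 0) (nat_lit 2) (nat_lit 2) true (nat_lit 11) true (nat_lit 13) false (nat_lit 5) true (nat_lit 15) true (nat_lit 13) (.s true (nat_lit 1) (nat_lit 82) (nat_lit 2) (nat_lit 2) (nat_lit 0) true (nat_lit 11) true (nat_lit 15) false (nat_lit 5) true (nat_lit 13) true (nat_lit 13) (.e true (nat_lit 1) (nat_lit 139) (nat_lit 6) (nat_lit 9) (.e true (nat_lit 1) (nat_lit 328) (nat_lit 0) (nat_lit 15) (.e false (nat_lit 1) (nat_lit 336) (nat_lit 0) (nat_lit 15) (.e false (nat_lit 2) (nat_lit 260) (nat_lit 2) (nat_lit 13) (.e true (nat_lit 1) (nat_lit 261) (nat_lit 2) (nat_lit 13) (.e true (nat_lit 2) (nat_lit 262) (nat_lit 2) (nat_lit 13) (.e false (nat_lit 3) (nat_lit 263) (nat_lit 2) (nat_lit 13) (.e true (nat_lit 2) (nat_lit 265) (nat_lit 2) (nat_lit 13) (.e false (nat_lit 3) (nat_lit 266) (nat_lit 2) (nat_lit 13) (.e true (nat_lit 2) (nat_lit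 267) (nat_lit 2) (nat_lit 13) (.e true (nat_lit 2) (nat_lit 269) (nat_lit 2) (nat_lit 13) (.e true (nat_lit 3) (nat_lit 270) (nat_lit 2) (nat_lit 13) (.e true (nat_lit 1) (nat_lit 271) (nat_lit 2) (nat_lit 13) (.e true (nat_lit 2) (nat_lit 272) (nat_lit 2) (nat_lit 13) (.e false (nat_lit 1) (nat_lit 274) (nat_lit 2) (nat_lit 13) (.e true (nat_lit 1) (nat_lit 277) (nat_lit 2) (nat_lit 13) (.e true (nat_lit 1) (nat_lit 278) (nat_lit 2) (nat_lit 13) (.e true (nat_lit 3) (nat_lit 280) (nat_lit 2) (nat_lit 13) (.e true (nat_lit 1) (nat_lit 283) (nat_lit 2) (nat_lit 13) (.e true (nat_lit 3) (nat_lit 264) (nat_lit 2) (nat_lit 13) (.e true (nat_lit 1) (nat_lit 273) (nat_lit 2) (nat_lit 13) (.e true (nat_lit 3) (nat_lit 279) (nat_lit 2) (nat_lit 13) (.u (nat_lit 2) (.n (nat_lit 0) (nat_lit 1) (.n (nat_lit 2) (nat_lit 1) (.p (nat_lit 3) (nat_lit 1) (.p (nat_lit 4) (nat_lit 2) (.n (nat_lit 5) (nat_lit 1) (.n (nat_lit 6) (nat_lit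 2) (.n (nat_lit 7) (nat_lit 2) (.n (nat_lit 9) (nat_lit 3) (.n (nat_lit 10) (nat_lit 3) (.n (nat_lit 15) (nat_lit 6) (.p (nat_lit 16) (nat_lit 2) (.p (nat_lit 17) (nat_lit 1) (.p (nat_lit 19) (nat_lit 1) (.n (nat_lit 22) (nat_lit 2) (.n (nat_lit 26) (nat_lit 1) (.n (nat_lit 27) (nat_lit 1) (.n (nat_lit 30) (nat_lit 3) (.n (nat_lit 33) (nat_lit 1) (.n (nat_lit 180) (nat_lit 1) (.p (nat_lit 182) (nat_lit 1) (.p (nat_lit 183) (nat_lit 1) (.n (nat_lit 185) (nat_lit 1) .z)))))))))))))))))))))) .nil)))))))))))))))))))))))))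

noncomputable def dC1d_i7 : IL := (.e true (nat_lit 3) (nat_lit 319) (nat_lit 2) (nat_lit 13) (.e false (nat_lit 3) (nat_lit 328) (nat_lit 1) (nat_lit 14) (.e true (nat_lit 3) (nat_lit 329) (nat_lit 1) (nat_lit 14) (.e true (nat_lit 1) (nat_lit 330) (nat_lit 1) (nat_lit 14) (.e true (nat_lit 3) (nat_lit 331) (nat_lit 1) (nat_lit 14) (.e true (nat_lit 2) (nat_lit 332) (nat_lit 1) (nat_lit 14) (.e true (nat_lit 1) (nat_lit 333) (nat_lit 1) (nat_lit 14) (.e false (nat_lit 2) (nat_lit 335) (nat_lit 1) (nat_lit 14) (.e true (nat_lit 3) (nat_lit 337) (nat_lit 1) (nat_lit 14) (.e false (nat_lit 1) (nat_lit 338) (nat_lit 1) (nat_lit 14) (.e false (nat_lit 3) (nat_lit 345) (nat_lit 1) (nat_lit 14) (.e true (nat_lit 1) (nat_lit 312) (nat_lit 2) (nat_lit 13) (.e true (nat_lit 3) (nat_lit 83) (nat_lit 16) (nat_lit 4) (.e false (nat_lit 3) (nat_lit 339) (nat_lit 1) (nat_lit 14) (.e true (nat_lit 1) (nat_lit 161) (nat_lit 6)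 (nat_lit 9) (.e true (nat_lit 1) (nat_lit 347) (nat_lit 0) (nat_lit 15) (.e false (nat_lit 2) (nat_lit 349) (nat_lit 0) (nat_lit 15) (.e false (nat_lit 2) (nat_lit 350) (nat_lit 0) (nat_lit 15) (.e false (nat_lit 1) (nat_lit 351) (nat_lit 0) (nat_lit 15) (.e false (nat_lit 2) (nat_lit 352) (nat_lit 0) (nat_lit 15) (.e false (nat_lit 1) (nat_lit 186) (nat_lit 5) (nat_lit 10) (.e true (nat_lit 3) (nat_lit 342) (nat_lit 1) (nat_lit 14) (.e true (nat_lit 3) (nat_lit 354) (nat_lit 0) (nat_lit 15) (.u (nat_lit 2) (.n (nat_lit 0) (nat_lit 2) (.p (nat_lit 1) (nat_lit 3) (.p (nat_lit 2) (nat_lit 2) (.p (nat_lit 3) (nat_lit 1) (.p (nat_lit 4) (nat_lit 2) (.p (nat_lit 5) (nat_lit 3) (.p (nat_lit 7) (nat_lit 2) (.p (nat_lit 8) (nat_lit 1) (.n (nat_lit 9) (nat_lit 1) (.p (nat_lit 10) (nat_lit 4) (.n (nat_lit 11) (nat_lit 1) (.n (nat_lit 12) (nat_lit 2) (.n (nat_lit 13) (nat_lit 3) (.n (nat_lit 14) (nat_lit 2) (.p (nat_lit 15)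 (nat_lit 1) (.n (nat_lit 16) (nat_lit 1) (.n (nat_lit 17) (nat_lit 1) (.p (nat_lit 18) (nat_lit 1) (.n (nat_lit 19) (nat_lit 2) (.n (nat_lit 20) (nat_lit 1) (.p (nat_lit 22) (nat_lit 2) (.n (nat_lit 23) (nat_lit 2) (.p (nat_lit 26) (nat_lit 2) (.p (nat_lit 27) (nat_lit 1) (.n (nat_lit 29) (nat_lit 1) (.n (nat_lit 32) (nat_lit 2) (.n (nat_lit 33) (nat_lit 1) (.p (nat_lit 65) (nat_lit 1) (.p (nat_lit 71) (nat_lit 1) (.n (nat_lit 76) (nat_lit 1) (.p (nat_lit 77) (nat_lit 1) (.n (nat_lit 93) (nat_lit 1) (.p (nat_lit 98) (nat_lit 1) (.p (nat_lit 99) (nat_lit 1) (.n (nat_lit 100) (nat_lit 1) (.n (nat_lit 102) (nat_lit 1) (.p (nat_lit 115) (nat_lit 1) (.n (nat_lit 125) (nat_lit 1) (.n (nat_lit 126) (nat_lit 1) (.n (nat_lit 129) (nat_lit 1) (.p (nat_lit 130) (nat_lit 1) (.p (nat_lit 133) (nat_lit 1) (.n (nat_lit 134) (nat_lit 1) (.p (nat_lit 137) (nat_lit 1) (.n (nat_lit 143) (nat_lit 1) (.n (nat_lit 146) (nat_lit 1) (.p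 (nat_lit 169) (nat_lit 1) (.p (nat_lit 170) (nat_lit 2) (.n (nat_lit 171) (nat_lit 1) (.p (nat_lit 173) (nat_lit 7) (.n (nat_lit 174) (nat_lit 2) (.n (nat_lit 175) (nat_lit 3) (.n (nat_lit 176) (nat_lit 4) (.p (nat_lit 177) (nat_lit 8) (.n (nat_lit 178) (nat_lit 6) (.p (nat_lit 179) (nat_lit 7) (.n (nat_lit 180) (nat_lit 8) (.n (nat_lit 181) (nat_lit 1) (.n (nat_lit 182) (nat_lit 10) (.n (nat_lit 183) (nat_lit 6) .z)))))))))))))))))))))))))))))))))))))))))))))))))))))))))))) (.u (nat_lit 2) (.p (nat_lit 184) (nat_lit 13) (.p (nat_lit 185) (nat_lit 6) (.n (nat_lit 186) (nat_lit 1) (.p (nat_lit 187) (nat_lit 11) (.n (nat_lit 190) (nat_lit 5) (.p (nat_lit 191) (nat_lit 2) (.p (nat_lit 193) (nat_lit 7) (.n (nat_lit 194) (nat_lit 7) (.p (nat_lit 195) (nat_lit 1) (.n (nat_lit 196) (nat_lit 3) (.n (nat_lit 197) (nat_lit 4) (.n (nat_lit 198) (nat_lit 4) (.n (nat_lit 199) (nat_lit 6) (.n (nat_lit 200) (nat_lit 1) (.n (nat_lit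 201) (nat_lit 5) (.p (nat_lit 202) (nat_lit 3) (.p (nat_lit 203) (nat_lit 3) (.n (nat_lit 204) (nat_lit 4) (.p (nat_lit 205) (nat_lit 3) (.n (nat_lit 207) (nat_lit 3) (.n (nat_lit 209) (nat_lit 2) (.n (nat_lit 210) (nat_lit 1) (.n (nat_lit 211) (nat_lit 1) (.n (nat_lit 212) (nat_lit 2) (.p (nat_lit 214) (nat_lit 1) (.p (nat_lit 215) (nat_lit 1) (.p (nat_lit 217) (nat_lit 1) (.n (nat_lit 223) (nat_lit 2) (.n (nat_lit 224) (nat_lit 1) (.p (nat_lit 227) (nat_lit 1) (.p (nat_lit 229) (nat_lit 1) .z))))))))))))))))))))))))))))))) .nil)))))))))))))))))))))))))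

noncomputable def dC1d_i8 : IL := (.s false (nat_lit 2) (nat_lit 105) (nat_lit 1) (nat_lit 2) (nat_lit 0) true (nat_lit 12) true (nat_lit 15) false (nat_lit 7) true (nat_lit 14) true (nat_lit 13) (.s false (nat_lit 2) (nat_lit 105) (nat_lit 2) (nat_lit 1) (nat_lit 0) true (nat_lit 11) true (nat_lit 15) false (nat_lit 7) true (nat_lit 13) true (nat_lit 14) (.s true (nat_lit 1) (nat_lit 106) (nat_lit 1) (nat_lit 1) (nat_lit 0) true (nat_lit 12) true (nat_lit 15) false (nat_lit 8) true (nat_lit 14) true (nat_lit 14) (.e false (nat_lit 1) (nat_lit 171) (nat_lit 6) (nat_lit 9) (.e true (nat_lit 1) (nat_lit 172) (nat_lit 6) (nat_lit 9) (.e true (nat_lit 2) (nat_lit 290) (nat_lit 2) (nat_lit 13) (.e false (nat_lit 2) (nat_lit 291) (nat_lit 2) (nat_lit 13) (.e true (nat_lit 1) (nat_lit 298) (nat_lit 2) (nat_lit 13) (.e false (nat_lit 3) (nat_lit 301) (nat_lit 2) (nat_lit 13) (.e false (nat_lit 1) (nat_lit 307) (nat_lit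 2) (nat_lit 13) (.e false (nat_lit 3) (nat_lit 308) (nat_lit 2) (nat_lit 13) (.e false (nat_lit 2) (nat_lit 316) (nat_lit 2) (nat_lit 13) (.e false (nat_lit 1) (nat_lit 317) (nat_lit 2) (nat_lit 13) (.e true (nat_lit 1) (nat_lit 318) (nat_lit 2) (nat_lit 13) (.e true (nat_lit 1) (nat_lit 193) (nat_lit 5) (nat_lit 10) (.e true (nat_lit 2) (nat_lit 336) (nat_lit 1) (nat_lit 14) (.e true (nat_lit 2) (nat_lit 340) (nat_lit 1) (nat_lit 14) (.e false (nat_lit 1) (nat_lit 181) (nat_lit 5) (nat_lit 10) (.e false (nat_lit 3) (nat_lit 183) (nat_lit 5) (nat_lit 10) (.e false (nat_lit 1) (nat_lit 185) (nat_lit 5) (nat_lit 10) (.e true (nat_lit 2) (nat_lit 191) (nat_lit 5) (nat_lit 10) (.e false (nat_lit 1) (nat_lit 292) (nat_lit 2) (nat_lit 13) (.e true (nat_lit 2) (nat_lit 294) (nat_lit 2) (nat_lit 13) (.e false (nat_lit 3) (nat_lit 310) (nat_lit 2) (nat_lit 13) (.e false (nat_lit 1) (nat_lit 314) (nat_lit 2) (nat_lit 13)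 dC1d_i7)))))))))))))))))))))))))

noncomputable def dC1d_i9 : IL := (.s false (nat_lit 3) (nat_lit 46) (nat_lit 1) (nat_lit 3) (nat_lit 2) true (nat_lit 10) true (nat_lit 13) false (nat_lit 2) true (nat_lit 14) true (nat_lit 12) (.s false (nat_lit 1) (nat_lit 46) (nat_lit 2) (nat_lit 3) (nat_lit 1) true (nat_lit 10) true (nat_lit 14) false (nat_lit 2) true (nat_lit 13) true (nat_lit 12) (.s false (nat_lit 3) (nat_lit 46) (nat_lit 3) (nat_lit 1) (nat_lit 2) true (nat_lit 7) true (nat_lit 13) false (nat_lit 2) true (nat_lit 12) true (nat_lit 14) (.s true (nat_lit 1) (nat_lit 70) (nat_lit 2) (nat_lit 2) (nat_lit 2) true (nat_lit 9) true (nat_lit 13) false (nat_lit 3) true (nat_lit 13) true (nat_lit 13) (.s false (nat_lit 1) (nat_lit 71) (nat_lit 2) (nat_lit 2) (nat_lit 2) true (nat_lit 9) true (nat_lit 13) false (nat_lit 3) true (nat_lit 13) true (nat_lit 13) (.s true (nat_lit 3) (nat_lit 72) (nat_lit 2) (nat_lit 2)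 (nat_lit 2) true (nat_lit 9) true (nat_lit 13) false (nat_lit 3) true (nat_lit 13) true (nat_lit 13) (.s true (nat_lit 2) (nat_lit 75) (nat_lit 2) (nat_lit 2) (nat_lit 2) true (nat_lit 9) true (nat_lit 13) false (nat_lit 3) true (nat_lit 13) true (nat_lit 13) (.s true (nat_lit 3) (nat_lit 82) (nat_lit 1) (nat_lit 2) (nat_lit 2) true (nat_lit 10) true (nat_lit 13) false (nat_lit 4) true (nat_lit 14) true (nat_lit 13) (.s false (nat_lit 1) (nat_lit 87) (nat_lit 1) (nat_lit 2) (nat_lit 2) true (nat_lit 10) true (nat_lit 13) false (nat_lit 4) true (nat_lit 14) true (nat_lit 13) (.s true (nat_lit 1) (nat_lit 91) (nat_lit 1) (nat_lit 2) (nat_lit 2) true (nat_lit 10) true (nat_lit 13) false (nat_lit 4) true (nat_lit 14) true (nat_lit 13) (.s false (nat_lit 2) (nat_lit 82) (nat_lit 2) (nat_lit 1) (nat_lit 2) true (nat_lit 9) true (nat_lit 13) false (nat_lit 4) true (nat_lit 13) true (nat_lit 14) (.s true (nat_lit 2) (nat_lit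 83) (nat_lit 2) (nat_lit 1) (nat_lit 2) true (nat_lit 9) true (nat_lit 13) false (nat_lit 4) true (nat_lit 13) true (nat_lit 14) (.s false (nat_lit 3) (nat_lit 85) (nat_lit 2) (nat_lit 1) (nat_lit 2) true (nat_lit 9) true (nat_lit 13) false (nat_lit 4) true (nat_lit 13) true (nat_lit 14) (.s false (nat_lit 3) (nat_lit 90) (nat_lit 2) (nat_lit 1) (nat_lit 2) true (nat_lit 9) true (nat_lit 13) false (nat_lit 4) true (nat_lit 13) true (nat_lit 14) (.s true (nat_lit 1) (nat_lit 91) (nat_lit 2) (nat_lit 1) (nat_lit 2) true (nat_lit 9) true (nat_lit 13) false (nat_lit 4) true (nat_lit 13) true (nat_lit 14) (.s true (nat_lit 3) (nat_lit 82) (nat_lit 2) (nat_lit 2) (nat_lit 1) true (nat_lit 10) true (nat_lit 14) false (nat_lit 4) true (nat_lit 13) true (nat_lit 13) (.s false (nat_lit 1) (nat_lit 83) (nat_lit 2) (nat_lit 2) (nat_lit 1) true (nat_lit 10) true (nat_lit 14) false (nat_lit 4) true (nat_lit 13) true (nat_lit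 13) (.s true (nat_lit 2) (nat_lit 84) (nat_lit 2) (nat_lit 2) (nat_lit 1) true (nat_lit 10) true (nat_lit 14) false (nat_lit 4) true (nat_lit 13) true (nat_lit 13) (.s false (nat_lit 2) (nat_lit 85) (nat_lit 2) (nat_lit 2) (nat_lit 1) true (nat_lit 10) true (nat_lit 14) false (nat_lit 4) true (nat_lit 13) true (nat_lit 13) (.s true (nat_lit 1) (nat_lit 87) (nat_lit 2) (nat_lit 2) (nat_lit 1) true (nat_lit 10) true (nat_lit 14) false (nat_lit 4) true (nat_lit 13) true (nat_lit 13) (.s false (nat_lit 1) (nat_lit 88) (nat_lit 2) (nat_lit 2) (nat_lit 1) true (nat_lit 10) true (nat_lit 14) false (nat_lit 4) true (nat_lit 13) true (nat_lit 13) (.s false (nat_lit 1) (nat_lit 95) (nat_lit 2) (nat_lit 2) (nat_lit 0) true (nat_lit 11) true (nat_lit 15) false (nat_lit 5) true (nat_lit 13) true (nat_lit 13) (.s true (nat_lit 2) (nat_lit 98) (nat_lit 1) (nat_lit 1) (nat_lit 2) true (nat_lit 10) true (nat_lit 13) false (nat_lit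 6) true (nat_lit 14) true (nat_lit 14) (.s false (nat_lit 2) (nat_lit 105) (nat_lit 0) (nat_lit 1) (nat_lit 2) true (nat_lit 11) true (nat_lit 13) false (nat_lit 7) true (nat_lit 15) true (nat_lit 14) (.s false (nat_lit 1) (nat_lit 104) (nat_lit 0) (nat_lit 2) (nat_lit 1) true (nat_lit 12) true (nat_lit 14) false (nat_lit 7) true (nat_lit 15) true (nat_lit 13) dC1d_i8)))))))))))))))))))))))))

noncomputable def dC1d_i10 : IL := (.s false (nat_lit 1) (nat_lit 18) (nat_lit 2) (nat_lit 11) (nat_lit 1) true (nat_lit 10) true (nat_lit 14) true (nat_lit 3) true (nat_lit 13) true (nat_lit 7) (.s false (nat_lit 1) (nat_lit 18) (nat_lit 10) (nat_lit 2) (nat_lit 1) true (nat_lit 2) true (nat_lit 14) true (nat_lit 3) true (nat_lit 7) true (nat_lit 13) (.s true (nat_lit 3) (nat_lit 24) (nat_lit 2) (nat_lit 2) (nat_lit 6) true (nat_lit 3) true (nat_lit 9) true (nat_lit 2) true (nat_lit 13) true (nat_lit 13) (.s true (nat_lit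 2) (nat_lit 26) (nat_lit 2) (nat_lit 2) (nat_lit 6) true (nat_lit 3) true (nat_lit 9) true (nat_lit 2) true (nat_lit 13) true (nat_lit 13) (.s false (nat_lit 2) (nat_lit 27) (nat_lit 2) (nat_lit 2) (nat_lit 6) true (nat_lit 3) true (nat_lit 9) true (nat_lit 2) true (nat_lit 13) true (nat_lit 13) (.s false (nat_lit 1) (nat_lit 25) (nat_lit 2) (nat_lit 6) (nat_lit 2) true (nat_lit 9) true (nat_lit 13) true (nat_lit 2) true (nat_lit 13) true (nat_lit 9) (.s false (nat_lit 1) (nat_lit 32) (nat_lit 1) (nat_lit 2) (nat_lit 6) true (nat_lit 4) true (nat_lit 9) true (nat_lit 1) true (nat_lit 14) true (nat_lit 13) (.s false (nat_lit 1) (nat_lit 36) (nat_lit 1) (nat_lit 2) (nat_lit 6) true (nat_lit 4) true (nat_lit 9) true (nat_lit 1) true (nat_lit 14) true (nat_lit 13) (.s true (nat_lit 1) (nat_lit 31) (nat_lit 1) (nat_lit 6) (nat_lit 2) true (nat_lit 10) true (nat_lit 13) true (nat_lit 1) true (nat_lit 14) true (nat_lit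 9) (.s true (nat_lit 2) (nat_lit 32) (nat_lit 1) (nat_lit 6) (nat_lit 2) true (nat_lit 10) true (nat_lit 13) true (nat_lit 1) true (nat_lit 14) true (nat_lit 9) (.s false (nat_lit 3) (nat_lit 34) (nat_lit 2) (nat_lit 1) (nat_lit 6) true (nat_lit 3) true (nat_lit 9) true (nat_lit 1) true (nat_lit 13) true (nat_lit 14) (.s true (nat_lit 2) (nat_lit 31) (nat_lit 2) (nat_lit 2) (nat_lit 5) true (nat_lit 4) true (nat_lit 10) true (nat_lit 1) true (nat_lit 13) true (nat_lit 13) (.s false (nat_lit 2) (nat_lit 32) (nat_lit 2) (nat_lit 2) (nat_lit 5) true (nat_lit 4) true (nat_lit 10) true (nat_lit 1) true (nat_lit 13) true (nat_lit 13) (.s false (nat_lit 3) (nat_lit 34) (nat_lit 2) (nat_lit 2) (nat_lit 5) true (nat_lit 4) true (nat_lit 10) true (nat_lit 1) true (nat_lit 13) true (nat_lit 13) (.s true (nat_lit 1) (nat_lit 36) (nat_lit 2) (nat_lit 2) (nat_lit 5) true (nat_lit 4) true (nat_lit 10) true (nat_lit 1) true (nat_lit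 13) true (nat_lit 13) (.s false (nat_lit 1) (nat_lit 31) (nat_lit 5) (nat_lit 2) (nat_lit 2) true (nat_lit 4) true (nat_lit 13) true (nat_lit 1) true (nat_lit 10) true (nat_lit 13) (.s true (nat_lit 2) (nat_lit 32) (nat_lit 5) (nat_lit 2) (nat_lit 2) true (nat_lit 4) true (nat_lit 13) true (nat_lit 1) true (nat_lit 10) true (nat_lit 13) (.s false (nat_lit 3) (nat_lit 32) (nat_lit 6) (nat_lit 2) (nat_lit 1) true (nat_lit 4) true (nat_lit 14) true (nat_lit 1) true (nat_lit 9) true (nat_lit 13) (.s false (nat_lit 1) (nat_lit 39) (nat_lit 0) (nat_lit 2) (nat_lit 6) true (nat_lit 5) true (nat_lit 9) true (nat_lit 0) true (nat_lit 15) true (nat_lit 13) (.s true (nat_lit 1) (nat_lit 39) (nat_lit 2) (nat_lit 2) (nat_lit 4) true (nat_lit 5) true (nat_lit 11) true (nat_lit 0) true (nat_lit 13) true (nat_lit 13) (.s false (nat_lit 3) (nat_lit 40) (nat_lit 6) (nat_lit 1) (nat_lit 1) true (nat_lit 4) true (nat_lit 14) false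 (nat_lit 0) true (nat_lit 9) true (nat_lit 14) (.s true (nat_lit 3) (nat_lit 44) (nat_lit 2) (nat_lit 3) (nat_lit 2) true (nat_lit 9) true (nat_lit 13) false (nat_lit 1) true (nat_lit 13) true (nat_lit 12) (.s true (nat_lit 3) (nat_lit 45) (nat_lit 2) (nat_lit 3) (nat_lit 2) true (nat_lit 9) true (nat_lit 13) false (nat_lit 1) true (nat_lit 13) true (nat_lit 12) (.s true (nat_lit 2) (nat_lit 43) (nat_lit 3) (nat_lit 2) (nat_lit 2) true (nat_lit 7) true (nat_lit 13) false (nat_lit 1) true (nat_lit 12) true (nat_lit 13) (.s true (nat_lit 3) (nat_lit 44) (nat_lit 3) (nat_lit 2) (nat_lit 2) true (nat_lit 7) true (nat_lit 13) false (nat_lit 1) true (nat_lit 12) true (nat_lit 13) dC1d_i9)))))))))))))))))))))))))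

noncomputable def dC1d_i11 : IL := (.s true (nat_lit 1) (nat_lit 83) (nat_lit 0) (nat_lit 2) (nat_lit 1) true (nat_lit 16) true (nat_lit 18) false (nat_lit 9) true (nat_lit 19) true (nat_lit 17) (.e true (nat_lit 1) (nat_lit 276) (nat_lit 1) (nat_lit 18) (.e true (nat_lit 1) (nat_lit 83) (nat_lit 11) (nat_lit 9) (.e true (nat_lit 1) (nat_lit 290) (nat_lit 0) (nat_lit 19) (.e true (nat_lit 2) (nat_lit 291) (nat_lit 0) (nat_lit 19) (.e true (nat_lit 3) (nat_lit 293) (nat_lit 0) (nat_lit 19) (.e false (nat_lit 2) (nat_lit 294) (nat_lit 0) (nat_lit 19) (.e true (nat_lit 2) (nat_lit 295) (nat_lit 0) (nat_lit 19) (.e true (nat_lit 3) (nat_lit 296) (nat_lit 0) (nat_lit 19) (.e false (nat_lit 3) (nat_lit 297) (nat_lit 0) (nat_lit 19) (.e false (nat_lit 3) (nat_lit 299) (nat_lit 0) (nat_lit 19) (.e false (nat_lit 1) (nat_lit 300) (nat_lit 0) (nat_lit 19) (.e true (nat_lit 3) (nat_lit 301) (nat_lit 0) (nat_lit 19) (.e false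 (nat_lit 2) (nat_lit 302) (nat_lit 0) (nat_lit 19) (.e false (nat_lit 2) (nat_lit 304) (nat_lit 0) (nat_lit 19) (.e false (nat_lit 2) (nat_lit 305) (nat_lit 0) (nat_lit 19) (.e true (nat_lit 3) (nat_lit 308) (nat_lit 0) (nat_lit 19) (.e true (nat_lit 1) (nat_lit 310) (nat_lit 0) (nat_lit 19) (.e false (nat_lit 1) (nat_lit 311) (nat_lit 0) (nat_lit 19) (.e false (nat_lit 1) (nat_lit 312) (nat_lit 0) (nat_lit 19) (.e true (nat_lit 1) (nat_lit 317) (nat_lit 0) (nat_lit 19) (.e true (nat_lit 1) (nat_lit 318) (nat_lit 0) (nat_lit 19) (.e true (nat_lit 1) (nat_lit 319) (nat_lit 0) (nat_lit 19) (.e false (nat_lit 1) (nat_lit 224) (nat_lit 2) (nat_lit 17) (.u (nat_lit 2) (.n (nat_lit 0) (nat_lit 1) (.p (nat_lit 1) (nat_lit 1) (.p (nat_lit 4) (nat_lit 1) (.p (nat_lit 9) (nat_lit 1) (.n (nat_lit 11) (nat_lit 1) (.n (nat_lit 14) (nat_lit 1) (.n (nat_lit 18) (nat_lit 1) (.p (nat_lit 19) (nat_lit 1) (.p (nat_lit 20) (nat_lit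 1) .z))))))))) .nil)))))))))))))))))))))))))

noncomputable def dC1d_i12 : IL := (.e false (nat_lit 1) (nat_lit 307) (nat_lit 2) (nat_lit 13) (.e false (nat_lit 1) (nat_lit 316) (nat_lit 2) (nat_lit 13) (.e false (nat_lit 2) (nat_lit 318) (nat_lit 2) (nat_lit 13) (.e false (nat_lit 1) (nat_lit 336) (nat_lit 1) (nat_lit 14) (.e false (nat_lit 1) (nat_lit 340) (nat_lit 1) (nat_lit 14) (.e false (nat_lit 1) (nat_lit 292) (nat_lit 2) (nat_lit 13) (.e true (nat_lit 1) (nat_lit 312) (nat_lit 2) (nat_lit 13) (.e false (nat_lit 2) (nat_lit 74) (nat_lit 18) (nat_lit 3) (.e false (nat_lit 3) (nat_lit 328) (nat_lit 1) (nat_lit 14) (.e false (nat_lit 1) (nat_lit 329) (nat_lit 1) (nat_lit 14) (.e true (nat_lit 1) (nat_lit 330) (nat_lit 1) (nat_lit 14) (.e false (nat_lit 3) (nat_lit 331) (nat_lit 1) (nat_lit 14) (.e true (nat_lit 3) (nat_lit 332) (nat_lit 1) (nat_lit 14) (.e true (nat_lit 1) (nat_lit 333) (nat_lit 1) (nat_lit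 14) (.e false (nat_lit 3) (nat_lit 337) (nat_lit 1) (nat_lit 14) (.e true (nat_lit 2) (nat_lit 338) (nat_lit 1) (nat_lit 14) (.e true (nat_lit 1) (nat_lit 347) (nat_lit 0) (nat_lit 15) (.e false (nat_lit 3) (nat_lit 348) (nat_lit 0) (nat_lit 15) (.e true (nat_lit 1) (nat_lit 349) (nat_lit 0) (nat_lit 15) (.e false (nat_lit 2) (nat_lit 350) (nat_lit 0) (nat_lit 15) (.e true (nat_lit 2) (nat_lit 351) (nat_lit 0) (nat_lit 15) (.e true (nat_lit 3) (nat_lit 334) (nat_lit 1) (nat_lit 14) (.e true (nat_lit 3) (nat_lit 335) (nat_lit 1) (nat_lit 14) (.u (nat_lit 2) (.n (nat_lit 0) (nat_lit 1) (.n (nat_lit 1) (nat_lit 1) (.n (nat_lit 2) (nat_lit 2) (.n (nat_lit 3) (nat_lit 2) (.p (nat_lit 4) (nat_lit 2) (.p (nat_lit 5) (nat_lit 1) (.p (nat_lit 8) (nat_lit 1) (.p (nat_lit 9) (nat_lit 2) (.p (nat_lit 10) (nat_lit 2) (.n (nat_lit 12) (nat_lit 1) (.n (nat_lit 13) (nat_lit 2) (.n (nat_lit 14) (nat_lit 2) (.p (nat_lit 16) (nat_lit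 2) (.p (nat_lit 22) (nat_lit 2) (.p (nat_lit 29) (nat_lit 1) (.p (nat_lit 33) (nat_lit 2) (.p (nat_lit 45) (nat_lit 1) (.n (nat_lit 62) (nat_lit 1) (.n (nat_lit 65) (nat_lit 1) (.n (nat_lit 66) (nat_lit 1) (.n (nat_lit 69) (nat_lit 2) (.p (nat_lit 70) (nat_lit 1) (.n (nat_lit 74) (nat_lit 1) (.p (nat_lit 75) (nat_lit 1) (.p (nat_lit 77) (nat_lit 2) (.p (nat_lit 78) (nat_lit 1) (.p (nat_lit 79) (nat_lit 2) (.n (nat_lit 80) (nat_lit 1) (.n (nat_lit 86) (nat_lit 1) (.p (nat_lit 87) (nat_lit 2) (.p (nat_lit 88) (nat_lit 3) (.n (nat_lit 89) (nat_lit 1) (.p (nat_lit 90) (nat_lit 1) (.n (nat_lit 91) (nat_lit 1) (.p (nat_lit 92) (nat_lit 1) (.n (nat_lit 95) (nat_lit 1) (.n (nat_lit 96) (nat_lit 1) (.p (nat_lit 113) (nat_lit 1) (.p (nat_lit 114) (nat_lit 2) (.n (nat_lit 125) (nat_lit 4) (.n (nat_lit 126) (nat_lit 1) (.p (nat_lit 127) (nat_lit 3) (.n (nat_lit 128) (nat_lit 3) (.p (nat_lit 129) (nat_lit 1) (.n (nat_lit 130)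 (nat_lit 1) (.p (nat_lit 131) (nat_lit 1) (.n (nat_lit 132) (nat_lit 1) (.n (nat_lit 133) (nat_lit 1) (.p (nat_lit 134) (nat_lit 1) (.p (nat_lit 135) (nat_lit 1) (.n (nat_lit 136) (nat_lit 1) (.p (nat_lit 138) (nat_lit 1) (.p (nat_lit 139) (nat_lit 1) (.n (nat_lit 140) (nat_lit 2) (.n (nat_lit 143) (nat_lit 3) (.p (nat_lit 144) (nat_lit 1) (.n (nat_lit 145) (nat_lit 1) (.n (nat_lit 146) (nat_lit 1) (.p (nat_lit 149) (nat_lit 1) (.n (nat_lit 150) (nat_lit 2) .z)))))))))))))))))))))))))))))))))))))))))))))))))))))))))))) (.u (nat_lit 2) (.n (nat_lit 151) (nat_lit 2) (.p (nat_lit 152) (nat_lit 1) (.p (nat_lit 153) (nat_lit 1) (.p (nat_lit 155) (nat_lit 1) (.p (nat_lit 156) (nat_lit 1) (.p (nat_lit 169) (nat_lit 2) (.p (nat_lit 170) (nat_lit 3) (.n (nat_lit 171) (nat_lit 1) (.p (nat_lit 173) (nat_lit 4) (.p (nat_lit 175) (nat_lit 3) (.p (nat_lit 176) (nat_lit 3) (.n (nat_lit 177) (nat_lit 2) (.p (nat_lit 178) (nat_lit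 3) (.n (nat_lit 179) (nat_lit 14) (.p (nat_lit 180) (nat_lit 4) (.p (nat_lit 181) (nat_lit 3) (.n (nat_lit 182) (nat_lit 20) (.n (nat_lit 183) (nat_lit 12) (.p (nat_lit 184) (nat_lit 6) (.p (nat_lit 185) (nat_lit 12) (.n (nat_lit 186) (nat_lit 7) (.n (nat_lit 187) (nat_lit 13) (.p (nat_lit 188) (nat_lit 11) (.p (nat_lit 189) (nat_lit 5) (.n (nat_lit 190) (nat_lit 11) (.n (nat_lit 191) (nat_lit 2) (.n (nat_lit 192) (nat_lit 4) (.n (nat_lit 193) (nat_lit 3) (.n (nat_lit 194) (nat_lit 8) (.n (nat_lit 195) (nat_lit 1) (.n (nat_lit 196) (nat_lit 6) (.n (nat_lit 197) (nat_lit 2) (.n (nat_lit 198) (nat_lit 7) (.n (nat_lit 199) (nat_lit 2) (.n (nat_lit 200) (nat_lit 4) (.n (nat_lit 201) (nat_lit 10) (.p (nat_lit 202) (nat_lit 4) (.n (nat_lit 203) (nat_lit 4) (.n (nat_lit 204) (nat_lit 1) (.n (nat_lit 205) (nat_lit 2) (.n (nat_lit 206) (nat_lit 2) (.p (nat_lit 207) (nat_lit 3) (.p (nat_lit 208) (nat_lit 2) (.n (nat_lit 209)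 (nat_lit 2) (.n (nat_lit 210) (nat_lit 2) (.n (nat_lit 211) (nat_lit 7) (.n (nat_lit 212) (nat_lit 4) (.n (nat_lit 213) (nat_lit 7) (.p (nat_lit 216) (nat_lit 3) (.p (nat_lit 220) (nat_lit 1) (.n (nat_lit 221) (nat_lit 1) (.p (nat_lit 222) (nat_lit 4) (.n (nat_lit 224) (nat_lit 8) (.p (nat_lit 225) (nat_lit 4) (.p (nat_lit 226) (nat_lit 3) (.p (nat_lit 228) (nat_lit 1) .z)))))))))))))))))))))))))))))))))))))))))))))))))))))))) .nil)))))))))))))))))))))))))

noncomputable def dC1d_i13 : IL := (.s true (nat_lit 3) (nat_lit 71) (nat_lit 2) (nat_lit 2) (nat_lit 2) true (nat_lit 9) true (nat_lit 13) false (nat_lit 3) true (nat_lit 13) true (nat_lit 13) (.s true (nat_lit 2) (nat_lit 72) (nat_lit 2) (nat_lit 2) (nat_lit 2) true (nat_lit 9) true (nat_lit 13) false (nat_lit 3) true (nat_lit 13) true (nat_lit 13) (.s false (nat_lit 3) (nat_lit 73) (nat_lit 2) (nat_lit 2) (nat_lit 2) true (nat_lit 9) true (nat_lit 13) false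 (nat_lit 3) true (nat_lit 13) true (nat_lit 13) (.s true (nat_lit 1) (nat_lit 75) (nat_lit 2) (nat_lit 2) (nat_lit 2) true (nat_lit 9) true (nat_lit 13) false (nat_lit 3) true (nat_lit 13) true (nat_lit 13) (.s true (nat_lit 3) (nat_lit 82) (nat_lit 1) (nat_lit 2) (nat_lit 2) true (nat_lit 10) true (nat_lit 13) false (nat_lit 4) true (nat_lit 14) true (nat_lit 13) (.s false (nat_lit 2) (nat_lit 83) (nat_lit 1) (nat_lit 2) (nat_lit 2) true (nat_lit 10) true (nat_lit 13) false (nat_lit 4) true (nat_lit 14) true (nat_lit 13) (.s false (nat_lit 3) (nat_lit 84) (nat_lit 1) (nat_lit 2) (nat_lit 2) true (nat_lit 10) true (nat_lit 13) false (nat_lit 4) true (nat_lit 14) true (nat_lit 13) (.s true (nat_lit 2) (nat_lit 85) (nat_lit 1) (nat_lit 2) (nat_lit 2) true (nat_lit 10) true (nat_lit 13) false (nat_lit 4) true (nat_lit 14) true (nat_lit 13) (.s true (nat_lit 2) (nat_lit 87) (nat_lit 1) (nat_lit 2) (nat_lit 2) true (nat_lit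 10) true (nat_lit 13) false (nat_lit 4) true (nat_lit 14) true (nat_lit 13) (.s false (nat_lit 1) (nat_lit 91) (nat_lit 1) (nat_lit 2) (nat_lit 2) true (nat_lit 10) true (nat_lit 13) false (nat_lit 4) true (nat_lit 14) true (nat_lit 13) (.s true (nat_lit 3) (nat_lit 82) (nat_lit 2) (nat_lit 1) (nat_lit 2) true (nat_lit 9) true (nat_lit 13) false (nat_lit 4) true (nat_lit 13) true (nat_lit 14) (.s true (nat_lit 3) (nat_lit 85) (nat_lit 2) (nat_lit 1) (nat_lit 2) true (nat_lit 9) true (nat_lit 13) false (nat_lit 4) true (nat_lit 13) true (nat_lit 14) (.s false (nat_lit 1) (nat_lit 90) (nat_lit 2) (nat_lit 1) (nat_lit 2) true (nat_lit 9) true (nat_lit 13) false (nat_lit 4) true (nat_lit 13) true (nat_lit 14) (.s false (nat_lit 3) (nat_lit 91) (nat_lit 2) (nat_lit 1) (nat_lit 2) true (nat_lit 9) true (nat_lit 13) false (nat_lit 4) true (nat_lit 13) true (nat_lit 14) (.s true (nat_lit 3) (nat_lit 84) (nat_lit 2) (nat_lit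 2) (nat_lit 1) true (nat_lit 10) true (nat_lit 14) false (nat_lit 4) true (nat_lit 13) true (nat_lit 13) (.s false (nat_lit 1) (nat_lit 86) (nat_lit 2) (nat_lit 2) (nat_lit 1) true (nat_lit 10) true (nat_lit 14) false (nat_lit 4) true (nat_lit 13) true (nat_lit 13) (.s false (nat_lit 1) (nat_lit 87) (nat_lit 2) (nat_lit 2) (nat_lit 1) true (nat_lit 10) true (nat_lit 14) false (nat_lit 4) true (nat_lit 13) true (nat_lit 13) (.s false (nat_lit 1) (nat_lit 92) (nat_lit 2) (nat_lit 2) (nat_lit 1) true (nat_lit 10) true (nat_lit 14) false (nat_lit 4) true (nat_lit 13) true (nat_lit 13) (.s true (nat_lit 2) (nat_lit 100) (nat_lit 1) (nat_lit 1) (nat_lit 2) true (nat_lit 10) true (nat_lit 13) false (nat_lit 6) true (nat_lit 14) true (nat_lit 14) (.s true (nat_lit 1) (nat_lit 100) (nat_lit 1) (nat_lit 2) (nat_lit 1) false (nat_lit 16) true (nat_lit 14) false (nat_lit 6) true (nat_lit 14) true (nat_lit 13) (.s false (nat_lit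 3) (nat_lit 104) (nat_lit 0) (nat_lit 2) (nat_lit 1) true (nat_lit 12) true (nat_lit 14) false (nat_lit 7) true (nat_lit 15) true (nat_lit 13) (.s false (nat_lit 2) (nat_lit 106) (nat_lit 1) (nat_lit 0) (nat_lit 1) false (nat_lit 16) true (nat_lit 14) false (nat_lit 8) true (nat_lit 14) true (nat_lit 15) (.s false (nat_lit 2) (nat_lit 106) (nat_lit 1) (nat_lit 1) (nat_lit 0) true (nat_lit 12) true (nat_lit 15) false (nat_lit 8) true (nat_lit 14) true (nat_lit 14) (.e true (nat_lit 1) (nat_lit 170) (nat_lit 6) (nat_lit 9) (.e true (nat_lit 3) (nat_lit 172) (nat_lit 6) (nat_lit 9) dC1d_i12)))))))))))))))))))))))))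

noncomputable def dC1d_i14 : IL := (.s true (nat_lit 2) (nat_lit 18) (nat_lit 16) (nat_lit 1) (nat_lit 0) true (nat_lit 1) true (nat_lit 15) true (nat_lit 3) true (nat_lit 4) true (nat_lit 14) (.s false (nat_lit 2) (nat_lit 24) (nat_lit 2) (nat_lit 2) (nat_lit 6) true (nat_lit 3) true (nat_lit 9) true (nat_lit 2) true (nat_lit 13) true (nat_lit 13) (.s true (nat_lit 1) (nat_lit 25) (nat_lit 2) (nat_lit 2) (nat_lit 6) true (nat_lit 3) true (nat_lit 9) true (nat_lit 2) true (nat_lit 13) true (nat_lit 13) (.s true (nat_lit 1) (nat_lit 26) (nat_lit 2) (nat_lit 2) (nat_lit 6) true (nat_lit 3) true (nat_lit 9) true (nat_lit 2) true (nat_lit 13) true (nat_lit 13) (.s true (nat_lit 1) (nat_lit 27) (nat_lit 2) (nat_lit 2) (nat_lit 6) true (nat_lit 3) true (nat_lit 9) true (nat_lit 2) true (nat_lit 13) true (nat_lit 13) (.s true (nat_lit 3) (nat_lit 25) (nat_lit 6) (nat_lit 2) (nat_lit 2) true (nat_lit 3) true (nat_lit 13)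 true (nat_lit 2) true (nat_lit 9) true (nat_lit 13) (.s false (nat_lit 3) (nat_lit 36) (nat_lit 1) (nat_lit 2) (nat_lit 6) true (nat_lit 4) true (nat_lit 9) true (nat_lit 1) true (nat_lit 14) true (nat_lit 13) (.s true (nat_lit 3) (nat_lit 32) (nat_lit 1) (nat_lit 6) (nat_lit 2) true (nat_lit 10) true (nat_lit 13) true (nat_lit 1) true (nat_lit 14) true (nat_lit 9) (.s false (nat_lit 3) (nat_lit 31) (nat_lit 2) (nat_lit 1) (nat_lit 6) true (nat_lit 3) true (nat_lit 9) true (nat_lit 1) true (nat_lit 13) true (nat_lit 14) (.s false (nat_lit 3) (nat_lit 32) (nat_lit 2) (nat_lit 2) (nat_lit 5) true (nat_lit 4) true (nat_lit 10) true (nat_lit 1) true (nat_lit 13) true (nat_lit 13) (.s false (nat_lit 3) (nat_lit 34) (nat_lit 2) (nat_lit 2) (nat_lit 5) true (nat_lit 4) true (nat_lit 10) true (nat_lit 1) true (nat_lit 13) true (nat_lit 13) (.s true (nat_lit 2) (nat_lit 36) (nat_lit 2) (nat_lit 2) (nat_lit 5) true (nat_lit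 4) true (nat_lit 10) true (nat_lit 1) true (nat_lit 13) true (nat_lit 13) (.s false (nat_lit 1) (nat_lit 32) (nat_lit 2) (nat_lit 5) (nat_lit 2) true (nat_lit 9) true (nat_lit 13) true (nat_lit 1) true (nat_lit 13) true (nat_lit 10) (.s true (nat_lit 1) (nat_lit 32) (nat_lit 5) (nat_lit 2) (nat_lit 2) true (nat_lit 4) true (nat_lit 13) true (nat_lit 1) true (nat_lit 10) true (nat_lit 13) (.s true (nat_lit 1) (nat_lit 33) (nat_lit 5) (nat_lit 2) (nat_lit 2) true (nat_lit 4) true (nat_lit 13) true (nat_lit 1) true (nat_lit 10) true (nat_lit 13) (.s false (nat_lit 3) (nat_lit 34) (nat_lit 6) (nat_lit 1) (nat_lit 2) true (nat_lit 3) true (nat_lit 13) true (nat_lit 1) true (nat_lit 9) true (nat_lit 14) (.s false (nat_lit 1) (nat_lit 36) (nat_lit 6) (nat_lit 1) (nat_lit 2) true (nat_lit 3) true (nat_lit 13) true (nat_lit 1) true (nat_lit 9) true (nat_lit 14) (.s false (nat_lit 3) (nat_lit 42) (nat_lit 1) (nat_lit 1) (nat_lit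 6) true (nat_lit 4) true (nat_lit 9) false (nat_lit 0) true (nat_lit 14) true (nat_lit 14) (.s true (nat_lit 2) (nat_lit 42) (nat_lit 6) (nat_lit 1) (nat_lit 1) true (nat_lit 4) true (nat_lit 14) false (nat_lit 0) true (nat_lit 9) true (nat_lit 14) (.s false (nat_lit 2) (nat_lit 45) (nat_lit 2) (nat_lit 2) (nat_lit 3) true (nat_lit 7) true (nat_lit 12) false (nat_lit 1) true (nat_lit 13) true (nat_lit 13) (.s true (nat_lit 2) (nat_lit 45) (nat_lit 3) (nat_lit 2) (nat_lit 2) true (nat_lit 7) true (nat_lit 13) false (nat_lit 1) true (nat_lit 12) true (nat_lit 13) (.s true (nat_lit 2) (nat_lit 45) (nat_lit 5) (nat_lit 0) (nat_lit 2) true (nat_lit 4) true (nat_lit 13) false (nat_lit 1) true (nat_lit 10) true (nat_lit 15) (.s true (nat_lit 1) (nat_lit 45) (nat_lit 6) (nat_lit 0) (nat_lit 1) true (nat_lit 4) true (nat_lit 14) false (nat_lit 1) true (nat_lit 9) true (nat_lit 15) (.s true (nat_lit 3) (nat_lit 46) (nat_lit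 2) (nat_lit 3) (nat_lit 1) true (nat_lit 10) true (nat_lit 14) false (nat_lit 2) true (nat_lit 13) true (nat_lit 12) (.s false (nat_lit 1) (nat_lit 70) (nat_lit 2) (nat_lit 2) (nat_lit 2) true (nat_lit 9) true (nat_lit 13) false (nat_lit 3) true (nat_lit 13) true (nat_lit 13) dC1d_i13)))))))))))))))))))))))))

noncomputable def dC1d_i15 : IL := (.s false (nat_lit 1) (nat_lit 16) (nat_lit 12) (nat_lit 2) (nat_lit 2) true (nat_lit 1) true (nat_lit 13) true (nat_lit 4) true (nat_lit 7) true (nat_lit 13) (.s true (nat_lit 2) (nat_lit 18) (nat_lit 0) (nat_lit 16) (nat_lit 1) true (nat_lit 12) true (nat_lit 14) true (nat_lit 3) true (nat_lit 15) true (nat_lit 4) (.s false (nat_lit 3) (nat_lit 18) (nat_lit 1) (nat_lit 0) (nat_lit 16) true (nat_lit 0) true (nat_lit 4) true (nat_lit 3) true (nat_lit 14) true (nat_lit 15) (.s true (nat_lit 2) (nat_lit 18) (nat_lit 1) (nat_lit 0) (nat_lit 17) true (nat_lit 0) true (nat_lit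 4) true (nat_lit 3) true (nat_lit 14) true (nat_lit 15) (.s false (nat_lit 3) (nat_lit 18) (nat_lit 1) (nat_lit 3) (nat_lit 6) true (nat_lit 4) true (nat_lit 9) true (nat_lit 3) true (nat_lit 14) true (nat_lit 12) (.s true (nat_lit 1) (nat_lit 18) (nat_lit 1) (nat_lit 6) (nat_lit 3) true (nat_lit 8) true (nat_lit 12) true (nat_lit 3) true (nat_lit 14) true (nat_lit 9) (.s false (nat_lit 1) (nat_lit 18) (nat_lit 1) (nat_lit 11) (nat_lit 2) true (nat_lit 10) true (nat_lit 13) true (nat_lit 3) true (nat_lit 14) true (nat_lit 7) (.s true (nat_lit 1) (nat_lit 18) (nat_lit 1) (nat_lit 12) (nat_lit 2) true (nat_lit 10) true (nat_lit 13) true (nat_lit 3) true (nat_lit 14) true (nat_lit 7) (.s true (nat_lit 2) (nat_lit 18) (nat_lit 1) (nat_lit 17) (nat_lit 0) true (nat_lit 12) true (nat_lit 15) true (nat_lit 3) true (nat_lit 14) true (nat_lit 4) (.s true (nat_lit 2) (nat_lit 18) (nat_lit 2) (nat_lit 0) (nat_lit 13) true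 (nat_lit 0) true (nat_lit 6) true (nat_lit 3) true (nat_lit 13) true (nat_lit 15) (.s true (nat_lit 1) (nat_lit 18) (nat_lit 2) (nat_lit 1) (nat_lit 10) true (nat_lit 1) true (nat_lit 7) true (nat_lit 3) true (nat_lit 13) true (nat_lit 14) (.s false (nat_lit 2) (nat_lit 18) (nat_lit 2) (nat_lit 1) (nat_lit 11) true (nat_lit 1) true (nat_lit 7) true (nat_lit 3) true (nat_lit 13) true (nat_lit 14) (.s false (nat_lit 2) (nat_lit 18) (nat_lit 2) (nat_lit 2) (nat_lit 8) true (nat_lit 2) true (nat_lit 8) true (nat_lit 3) true (nat_lit 13) true (nat_lit 13) (.s true (nat_lit 2) (nat_lit 18) (nat_lit 2) (nat_lit 3) (nat_lit 5) true (nat_lit 4) true (nat_lit 10) true (nat_lit 3) true (nat_lit 13) true (nat_lit 12) (.s true (nat_lit 3) (nat_lit 18) (nat_lit 2) (nat_lit 10) (nat_lit 1) true (nat_lit 10) true (nat_lit 14) true (nat_lit 3) true (nat_lit 13) true (nat_lit 7) (.s false (nat_lit 1) (nat_lit 18) (nat_lit 2) (nat_lit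 13) (nat_lit 0) true (nat_lit 11) true (nat_lit 15) true (nat_lit 3) true (nat_lit 13) true (nat_lit 6) (.s false (nat_lit 1) (nat_lit 18) (nat_lit 3) (nat_lit 6) (nat_lit 1) true (nat_lit 8) true (nat_lit 14) true (nat_lit 3) true (nat_lit 12) true (nat_lit 9) (.s false (nat_lit 1) (nat_lit 18) (nat_lit 4) (nat_lit 1) (nat_lit 5) true (nat_lit 1) true (nat_lit 10) true (nat_lit 3) true (nat_lit 11) true (nat_lit 14) (.s false (nat_lit 3) (nat_lit 18) (nat_lit 6) (nat_lit 3) (nat_lit 1) true (nat_lit 4) true (nat_lit 14) true (nat_lit 3) true (nat_lit 9) true (nat_lit 12) (.s true (nat_lit 2) (nat_lit 18) (nat_lit 8) (nat_lit 2) (nat_lit 2) true (nat_lit 2) true (nat_lit 13) true (nat_lit 3) true (nat_lit 8) true (nat_lit 13) (.s true (nat_lit 2) (nat_lit 18) (nat_lit 11) (nat_lit 1) (nat_lit 2) true (nat_lit 1) true (nat_lit 13) true (nat_lit 3) true (nat_lit 7) true (nat_lit 14) (.s true (nat_lit 1) (nat_lit 18)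 (nat_lit 10) (nat_lit 2) (nat_lit 1) true (nat_lit 2) true (nat_lit 14) true (nat_lit 3) true (nat_lit 7) true (nat_lit 13) (.s false (nat_lit 2) (nat_lit 18) (nat_lit 13) (nat_lit 0) (nat_lit 2) true (nat_lit 0) true (nat_lit 13) true (nat_lit 3) true (nat_lit 6) true (nat_lit 15) (.s true (nat_lit 1) (nat_lit 18) (nat_lit 14) (nat_lit 1) (nat_lit 1) true (nat_lit 1) true (nat_lit 14) true (nat_lit 3) true (nat_lit 5) true (nat_lit 14) (.s false (nat_lit 3) (nat_lit 18) (nat_lit 16) (nat_lit 0) (nat_lit 1) true (nat_lit 0) true (nat_lit 14) true (nat_lit 3) true (nat_lit 4) true (nat_lit 15) dC1d_i14)))))))))))))))))))))))))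

noncomputable def dC1d_i16 : IL := (.e true (nat_lit 2) (nat_lit 134) (nat_lit 2) (nat_lit 10) (.e false (nat_lit 2) (nat_lit 135) (nat_lit 2) (nat_lit 10) (.e true (nat_lit 1) (nat_lit 138) (nat_lit 2) (nat_lit 10) (.e true (nat_lit 1) (nat_lit 142) (nat_lit 2) (nat_lit 10) (.e false (nat_lit 3) (nat_lit 31) (nat_lit 15) (nat_lit 2) (.e false (nat_lit 3) (nat_lit 137) (nat_lit 2) (nat_lit 10) (.e false (nat_lit 2) (nat_lit 139) (nat_lit 2) (nat_lit 10) (.e true (nat_lit 2) (nat_lit 140) (nat_lit 2) (nat_lit 10) (.e true (nat_lit 3) (nat_lit 143) (nat_lit 2) (nat_lit 10) (.e false (nat_lit 1) (nat_lit 144) (nat_lit 2) (nat_lit 10) (.e false (nat_lit 2) (nat_lit 145) (nat_lit 2) (nat_lit 10) (.e true (nat_lit 3) (nat_lit 146) (nat_lit 2) (nat_lit 10) (.e true (nat_lit 1) (nat_lit 147) (nat_lit 2) (nat_lit 10) (.e true (nat_lit 2) (nat_lit 149) (nat_lit 2) (nat_lit 10) (.e false (nat_lit 3) (nat_lit 150) (nat_lit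 2) (nat_lit 10) (.e true (nat_lit 1) (nat_lit 151) (nat_lit 2) (nat_lit 10) (.e false (nat_lit 1) (nat_lit 152) (nat_lit 2) (nat_lit 10) (.e true (nat_lit 1) (nat_lit 42) (nat_lit 10) (nat_lit 3) (.e true (nat_lit 1) (nat_lit 20) (nat_lit 18) (nat_lit 0) (.e false (nat_lit 1) (nat_lit 101) (nat_lit 3) (nat_lit 9) (.e false (nat_lit 1) (nat_lit 181) (nat_lit 0) (nat_lit 12) (.e false (nat_lit 1) (nat_lit 183) (nat_lit 0) (nat_lit 12) (.e true (nat_lit 1) (nat_lit 185) (nat_lit 0) (nat_lit 12) (.e true (nat_lit 1) (nat_lit 192) (nat_lit 0) (nat_lit 12) (.u (nat_lit 2) (.n (nat_lit 0) (nat_lit 1) (.p (nat_lit 1) (nat_lit 1) (.p (nat_lit 2) (nat_lit 1) (.n (nat_lit 3) (nat_lit 1) (.p (nat_lit 4) (nat_lit 1) (.p (nat_lit 5) (nat_lit 2) (.n (nat_lit 7) (nat_lit 1) (.n (nat_lit 9) (nat_lit 2) (.p (nat_lit 10) (nat_lit 1) (.n (nat_lit 11) (nat_lit 2) (.p (nat_lit 12) (nat_lit 1) (.n (nat_lit 14) (nat_lit 1) (.n (nat_lit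 15) (nat_lit 1) (.n (nat_lit 17) (nat_lit 2) (.n (nat_lit 19) (nat_lit 2) (.p (nat_lit 21) (nat_lit 1) (.p (nat_lit 23) (nat_lit 2) (.n (nat_lit 26) (nat_lit 1) (.n (nat_lit 27) (nat_lit 1) (.p (nat_lit 28) (nat_lit 1) (.n (nat_lit 29) (nat_lit 1) (.n (nat_lit 93) (nat_lit 1) (.n (nat_lit 94) (nat_lit 1) (.p (nat_lit 96) (nat_lit 2) (.n (nat_lit 97) (nat_lit 2) (.p (nat_lit 98) (nat_lit 1) (.n (nat_lit 102) (nat_lit 2) (.n (nat_lit 104) (nat_lit 1) (.n (nat_lit 105) (nat_lit 1) (.n (nat_lit 106) (nat_lit 1) (.n (nat_lit 108) (nat_lit 1) (.p (nat_lit 109) (nat_lit 1) (.p (nat_lit 111) (nat_lit 1) (.n (nat_lit 115) (nat_lit 2) (.n (nat_lit 116) (nat_lit 1) .z))))))))))))))))))))))))))))))))))) .nil)))))))))))))))))))))))))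

noncomputable def dC1d_c292 : Cm := .mk (nat_lit 682) (nat_lit 292) (nat_lit 290) (nat_lit 30) (.c (nat_lit 24) (nat_lit 4) (nat_lit 18) (nat_lit 1) (nat_lit 30) (.c (nat_lit 31) (nat_lit 6) (nat_lit 16) (nat_lit 2) (nat_lit 34) (.c (nat_lit 37) (nat_lit 3) (nat_lit 14) (nat_lit 2) (nat_lit 46) (.c (nat_lit 40) (nat_lit 3) (nat_lit 13) (nat_lit 1) (nat_lit 52) (.c (nat_lit 43) (nat_lit 3) (nat_lit 10) (nat_lit 3) (nat_lit 55) (.c (nat_lit 46) (nat_lit 1) (nat_lit 8) (nat_lit 1) (nat_lit 64) (.c (nat_lit 66) (nat_lit 11) (nat_lit 6) (nat_lit 1) (nat_lit 65) (.c (nat_lit 82) (nat_lit 11) (nat_lit 5) (nat_lit 1) (nat_lit 76) (.c (nat_lit 93) (nat_lit 5) (nat_lit 4) (nat_lit 1) (nat_lit 87) (.c (nat_lit 102) (nat_lit 4) (nat_lit 3) (nat_lit 1) (nat_lit 92) (.c (nat_lit 153) (nat_lit 21) (nat_lit 2) (nat_lit 1) (nat_lit 96) (.c (nat_lit 180) (nat_lit 16) (nat_lit 1) (nat_lit 1) (nat_lit 117) (.c (nat_lit 196) (nat_lit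 6) (nat_lit 0) (nat_lit 1) (nat_lit 133) (.c (nat_lit 2032) (nat_lit 0) (nat_lit 98) (nat_lit 4) (nat_lit 139) .nil))))))))))))))

noncomputable def dC1d_i17 : IL := (.e true (nat_lit 1) (nat_lit 316) (nat_lit 0) (nat_lit 19) (.e false (nat_lit 1) (nat_lit 298) (nat_lit 0) (nat_lit 19) (.e true (nat_lit 1) (nat_lit 46) (nat_lit 19) (nat_lit 4) (.e false (nat_lit 1) (nat_lit 181) (nat_lit 3) (nat_lit 16) (.e false (nat_lit 1) (nat_lit 183) (nat_lit 3) (nat_lit 16) (.e true (nat_lit 1) (nat_lit 185) (nat_lit 3) (nat_lit 16) (.e true (nat_lit 1) (nat_lit 192) (nat_lit 3) (nat_lit 16) (.e true (nat_lit 2) (nat_lit 260) (nat_lit 1) (nat_lit 18) (.e true (nat_lit 1) (nat_lit 261) (nat_lit 1) (nat_lit 18) (.e false (nat_lit 3) (nat_lit 262) (nat_lit 1) (nat_lit 18) (.e true (nat_lit 2) (nat_lit 263) (nat_lit 1) (nat_lit 18) (.e true (nat_lit 3) (nat_lit 264) (nat_lit 1) (nat_lit 18) (.e false (nat_lit 3) (nat_lit 267)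 (nat_lit 1) (nat_lit 18) (.e false (nat_lit 1) (nat_lit 268) (nat_lit 1) (nat_lit 18) (.e true (nat_lit 2) (nat_lit 269) (nat_lit 1) (nat_lit 18) (.e false (nat_lit 1) (nat_lit 272) (nat_lit 1) (nat_lit 18) (.e true (nat_lit 2) (nat_lit 273) (nat_lit 1) (nat_lit 18) (.e true (nat_lit 2) (nat_lit 277) (nat_lit 1) (nat_lit 18) (.e false (nat_lit 1) (nat_lit 278) (nat_lit 1) (nat_lit 18) (.e false (nat_lit 2) (nat_lit 286) (nat_lit 1) (nat_lit 18) (.e false (nat_lit 3) (nat_lit 288) (nat_lit 1) (nat_lit 18) (.e true (nat_lit 3) (nat_lit 271) (nat_lit 1) (nat_lit 18) (.e true (nat_lit 1) (nat_lit 274) (nat_lit 1) (nat_lit 18) (.e false (nat_lit 1) (nat_lit 279) (nat_lit 1) (nat_lit 18) (.u (nat_lit 2) (.p (nat_lit 2) (nat_lit 1) (.n (nat_lit 5) (nat_lit 1) (.n (nat_lit 6) (nat_lit 1) (.p (nat_lit 7) (nat_lit 1) (.n (nat_lit 9) (nat_lit 1) (.p (nat_lit 10) (nat_lit 1) (.p (nat_lit 11) (nat_lit 3) (.n (nat_lit 12) (nat_lit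 1) (.n (nat_lit 14) (nat_lit 3) (.n (nat_lit 15) (nat_lit 2) (.p (nat_lit 17) (nat_lit 1) (.n (nat_lit 18) (nat_lit 2) (.n (nat_lit 19) (nat_lit 1) (.p (nat_lit 20) (nat_lit 2) (.p (nat_lit 26) (nat_lit 2) (.n (nat_lit 27) (nat_lit 1) (.p (nat_lit 28) (nat_lit 1) (.p (nat_lit 29) (nat_lit 3) (.p (nat_lit 30) (nat_lit 1) (.n (nat_lit 33) (nat_lit 1) (.n (nat_lit 34) (nat_lit 1) (.p (nat_lit 35) (nat_lit 1) (.n (nat_lit 36) (nat_lit 1) (.p (nat_lit 37) (nat_lit 1) (.n (nat_lit 38) (nat_lit 1) (.n (nat_lit 41) (nat_lit 1) (.p (nat_lit 378) (nat_lit 1) (.p (nat_lit 379) (nat_lit 1) (.p (nat_lit 384) (nat_lit 1) (.p (nat_lit 388) (nat_lit 1) (.p (nat_lit 392) (nat_lit 1) (.n (nat_lit 406) (nat_lit 1) (.p (nat_lit 409) (nat_lit 1) (.n (nat_lit 414) (nat_lit 1) (.p (nat_lit 423) (nat_lit 1) .z))))))))))))))))))))))))))))))))))) .nil)))))))))))))))))))))))))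

noncomputable def dC1d_i18 : IL := (.e true (nat_lit 3) (nat_lit 262) (nat_lit 2) (nat_lit 13) (.e false (nat_lit 2) (nat_lit 263) (nat_lit 2) (nat_lit 13) (.e false (nat_lit 2) (nat_lit 265) (nat_lit 2) (nat_lit 13) (.e true (nat_lit 1) (nat_lit 266) (nat_lit 2) (nat_lit 13) (.e true (nat_lit 2) (nat_lit 267) (nat_lit 2) (nat_lit 13) (.e true (nat_lit 1) (nat_lit 269) (nat_lit 2) (nat_lit 13) (.e true (nat_lit 2) (nat_lit 270) (nat_lit 2) (nat_lit 13) (.e true (nat_lit 1) (nat_lit 272) (nat_lit 2) (nat_lit 13) (.e false (nat_lit 2) (nat_lit 274) (nat_lit 2) (nat_lit 13) (.e false (nat_lit 1) (nat_lit 275) (nat_lit 2) (nat_lit 13) (.e true (nat_lit 1) (nat_lit 276) (nat_lit 2) (nat_lit 13) (.e true (nat_lit 1) (nat_lit 277) (nat_lit 2) (nat_lit 13) (.e false (nat_lit 3) (nat_lit 278) (nat_lit 2) (nat_lit 13) (.e true (nat_lit 2) (nat_lit 280) (nat_lit 2) (nat_lit 13) (.e true (nat_lit 1) (nat_lit 84) (nat_lit 14)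 (nat_lit 5) (.e false (nat_lit 1) (nat_lit 346) (nat_lit 0) (nat_lit 15) (.e true (nat_lit 3) (nat_lit 268) (nat_lit 2) (nat_lit 13) (.e false (nat_lit 1) (nat_lit 281) (nat_lit 2) (nat_lit 13) (.e false (nat_lit 1) (nat_lit 283) (nat_lit 2) (nat_lit 13) (.e true (nat_lit 1) (nat_lit 284) (nat_lit 2) (nat_lit 13) (.e true (nat_lit 1) (nat_lit 286) (nat_lit 2) (nat_lit 13) (.e true (nat_lit 1) (nat_lit 287) (nat_lit 2) (nat_lit 13) (.e false (nat_lit 2) (nat_lit 288) (nat_lit 2) (nat_lit 13) (.e true (nat_lit 1) (nat_lit 289) (nat_lit 2) (nat_lit 13) (.u (nat_lit 2) (.n (nat_lit 0) (nat_lit 1) (.n (nat_lit 1) (nat_lit 4) (.p (nat_lit 2) (nat_lit 5) (.n (nat_lit 3) (nat_lit 2) (.p (nat_lit 4) (nat_lit 3) (.n (nat_lit 6) (nat_lit 4) (.n (nat_lit 7) (nat_lit 4) (.p (nat_lit 8) (nat_lit 4) (.n (nat_lit 9) (nat_lit 1) (.n (nat_lit 10) (nat_lit 2) (.n (nat_lit 12) (nat_lit 1) (.p (nat_lit 13) (nat_lit 2) (.p (nat_lit 15)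 (nat_lit 2) (.p (nat_lit 16) (nat_lit 2) (.p (nat_lit 17) (nat_lit 4) (.p (nat_lit 18) (nat_lit 3) (.n (nat_lit 19) (nat_lit 2) (.n (nat_lit 23) (nat_lit 1) (.p (nat_lit 24) (nat_lit 1) (.n (nat_lit 26) (nat_lit 1) (.n (nat_lit 27) (nat_lit 1) (.n (nat_lit 30) (nat_lit 3) (.n (nat_lit 33) (nat_lit 1) (.p (nat_lit 173) (nat_lit 1) (.p (nat_lit 174) (nat_lit 1) (.p (nat_lit 175) (nat_lit 1) (.p (nat_lit 180) (nat_lit 1) .z))))))))))))))))))))))))))) .nil)))))))))))))))))))))))))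

noncomputable def dC1d_i19 : IL := (.s false (nat_lit 1) (nat_lit 87) (nat_lit 1) (nat_lit 2) (nat_lit 2) true (nat_lit 10) true (nat_lit 13) false (nat_lit 4) true (nat_lit 14) true (nat_lit 13) (.s true (nat_lit 1) (nat_lit 85) (nat_lit 2) (nat_lit 1) (nat_lit 2) true (nat_lit 9) true (nat_lit 13) false (nat_lit 4) true (nat_lit 13) true (nat_lit 14) (.s false (nat_lit 3) (nat_lit 90) (nat_lit 2) (nat_lit 1) (nat_lit 2) true (nat_lit 9) true (nat_lit 13) false (nat_lit 4) true (nat_lit 13) true (nat_lit 14) (.s false (nat_lit 1) (nat_lit 87) (nat_lit 2) (nat_lit 2) (nat_lit 1) true (nat_lit 10) true (nat_lit 14) false (nat_lit 4) true (nat_lit 13) true (nat_lit 13) (.e false (nat_lit 1) (nat_lit 171) (nat_lit 6) (nat_lit 9) (.e false (nat_lit 2) (nat_lit 336) (nat_lit 1) (nat_lit 14) (.e true (nat_lit 2) (nat_lit 291) (nat_lit 2) (nat_lit 13) (.e true (nat_lit 1) (nat_lit 294) (nat_lit 2) (nat_lit 13) (.e false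 (nat_lit 2) (nat_lit 298) (nat_lit 2) (nat_lit 13) (.e false (nat_lit 2) (nat_lit 307) (nat_lit 2) (nat_lit 13) (.e true (nat_lit 3) (nat_lit 311) (nat_lit 2) (nat_lit 13) (.e false (nat_lit 2) (nat_lit 317) (nat_lit 2) (nat_lit 13) (.e true (nat_lit 3) (nat_lit 319) (nat_lit 2) (nat_lit 13) (.e false (nat_lit 1) (nat_lit 290) (nat_lit 2) (nat_lit 13) (.e false (nat_lit 3) (nat_lit 310) (nat_lit 2) (nat_lit 13) (.e true (nat_lit 1) (nat_lit 74) (nat_lit 18) (nat_lit 3) (.e true (nat_lit 1) (nat_lit 331) (nat_lit 1) (nat_lit 14) (.e false (nat_lit 1) (nat_lit 333) (nat_lit 1) (nat_lit 14) (.e true (nat_lit 3) (nat_lit 337) (nat_lit 1) (nat_lit 14) (.e false (nat_lit 1) (nat_lit 181) (nat_lit 5) (nat_lit 10) (.e false (nat_lit 1) (nat_lit 316) (nat_lit 2) (nat_lit 13) (.e false (nat_lit 1) (nat_lit 82) (nat_lit 17) (nat_lit 4) (.e false (nat_lit 1) (nat_lit 161) (nat_lit 6) (nat_lit 9) (.e false (nat_lit 3) (nat_lit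 338) (nat_lit 1) (nat_lit 14) (.u (nat_lit 2) (.p (nat_lit 0) (nat_lit 2) (.p (nat_lit 1) (nat_lit 2) (.n (nat_lit 2) (nat_lit 1) (.p (nat_lit 3) (nat_lit 1) (.n (nat_lit 4) (nat_lit 3) (.p (nat_lit 5) (nat_lit 1) (.p (nat_lit 6) (nat_lit 3) (.p (nat_lit 8) (nat_lit 1) (.n (nat_lit 10) (nat_lit 1) (.n (nat_lit 11) (nat_lit 1) (.n (nat_lit 12) (nat_lit 1) (.n (nat_lit 14) (nat_lit 1) (.n (nat_lit 16) (nat_lit 3) (.n (nat_lit 18) (nat_lit 1) (.p (nat_lit 19) (nat_lit 2) (.p (nat_lit 20) (nat_lit 1) (.n (nat_lit 21) (nat_lit 2) (.n (nat_lit 23) (nat_lit 3) (.p (nat_lit 26) (nat_lit 3) (.n (nat_lit 29) (nat_lit 1) (.n (nat_lit 84) (nat_lit 1) (.n (nat_lit 126) (nat_lit 1) (.n (nat_lit 129) (nat_lit 1) (.p (nat_lit 134) (nat_lit 1) (.p (nat_lit 143) (nat_lit 1) (.n (nat_lit 169) (nat_lit 1) (.n (nat_lit 170) (nat_lit 1) (.n (nat_lit 173) (nat_lit 2) (.n (nat_lit 174) (nat_lit 1) (.n (nat_lit 175) (nat_lit 1) (.n (nat_lit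 176) (nat_lit 1) (.n (nat_lit 177) (nat_lit 2) (.n (nat_lit 178) (nat_lit 3) (.n (nat_lit 179) (nat_lit 1) (.p (nat_lit 180) (nat_lit 1) (.p (nat_lit 181) (nat_lit 2) (.p (nat_lit 183) (nat_lit 1) (.n (nat_lit 184) (nat_lit 1) (.p (nat_lit 185) (nat_lit 1) (.n (nat_lit 187) (nat_lit 1) (.p (nat_lit 188) (nat_lit 2) (.p (nat_lit 190) (nat_lit 3) (.n (nat_lit 191) (nat_lit 1) (.n (nat_lit 193) (nat_lit 1) (.p (nat_lit 194) (nat_lit 3) (.p (nat_lit 195) (nat_lit 1) (.n (nat_lit 196) (nat_lit 1) (.n (nat_lit 199) (nat_lit 2) (.n (nat_lit 200) (nat_lit 1) (.n (nat_lit 201) (nat_lit 1) (.p (nat_lit 206) (nat_lit 1) .z))))))))))))))))))))))))))))))))))))))))))))))))))) .nil)))))))))))))))))))))))))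

noncomputable def dC1d_i20 : IL := (.s true (nat_lit 2) (nat_lit 18) (nat_lit 2) (nat_lit 1) (nat_lit 10) true (nat_lit 1) true (nat_lit 7) true (nat_lit 3) true (nat_lit 13) true (nat_lit 14) (.s true (nat_lit 1) (nat_lit 18) (nat_lit 2) (nat_lit 3) (nat_lit 5) true (nat_lit 4) true (nat_lit 10) true (nat_lit 3) true (nat_lit 13) true (nat_lit 12) (.s false (nat_lit 1) (nat_lit 18) (nat_lit 8) (nat_lit 2) (nat_lit 2) true (nat_lit 2) true (nat_lit 13) true (nat_lit 3) true (nat_lit 8) true (nat_lit 13) (.s true (nat_lit 2) (nat_lit 18) (nat_lit 10) (nat_lit 2) (nat_lit 1) true (nat_lit 2) true (nat_lit 14) true (nat_lit 3) true (nat_lit 7) true (nat_lit 13) (.s false (nat_lit 2) (nat_lit 24) (nat_lit 2) (nat_lit 2) (nat_lit 6) true (nat_lit 3) true (nat_lit 9) true (nat_lit 2) true (nat_lit 13) true (nat_lit 13) (.s false (nat_lit 1) (nat_lit 25) (nat_lit 2) (nat_lit 2) (nat_lit 6) true (nat_lit 3) true (nat_lit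 9) true (nat_lit 2) true (nat_lit 13) true (nat_lit 13) (.s true (nat_lit 1) (nat_lit 26) (nat_lit 2) (nat_lit 2) (nat_lit 6) true (nat_lit 3) true (nat_lit 9) true (nat_lit 2) true (nat_lit 13) true (nat_lit 13) (.s false (nat_lit 1) (nat_lit 27) (nat_lit 2) (nat_lit 2) (nat_lit 6) true (nat_lit 3) true (nat_lit 9) true (nat_lit 2) true (nat_lit 13) true (nat_lit 13) (.s true (nat_lit 3) (nat_lit 25) (nat_lit 2) (nat_lit 6) (nat_lit 2) true (nat_lit 9) true (nat_lit 13) true (nat_lit 2) true (nat_lit 13) true (nat_lit 9) (.s false (nat_lit 1) (nat_lit 31) (nat_lit 1) (nat_lit 2) (nat_lit 6) true (nat_lit 4) true (nat_lit 9) true (nat_lit 1) true (nat_lit 14) true (nat_lit 13) (.s false (nat_lit 1) (nat_lit 36) (nat_lit 1) (nat_lit 2) (nat_lit 6) true (nat_lit 4) true (nat_lit 9) true (nat_lit 1) true (nat_lit 14) true (nat_lit 13) (.s true (nat_lit 2) (nat_lit 31) (nat_lit 1) (nat_lit 6) (nat_lit 2) true (nat_lit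 10) true (nat_lit 13) true (nat_lit 1) true (nat_lit 14) true (nat_lit 9) (.s true (nat_lit 1) (nat_lit 34) (nat_lit 2) (nat_lit 1) (nat_lit 6) true (nat_lit 3) true (nat_lit 9) true (nat_lit 1) true (nat_lit 13) true (nat_lit 14) (.s true (nat_lit 1) (nat_lit 31) (nat_lit 2) (nat_lit 2) (nat_lit 5) true (nat_lit 4) true (nat_lit 10) true (nat_lit 1) true (nat_lit 13) true (nat_lit 13) (.s true (nat_lit 1) (nat_lit 34) (nat_lit 2) (nat_lit 2) (nat_lit 5) true (nat_lit 4) true (nat_lit 10) true (nat_lit 1) true (nat_lit 13) true (nat_lit 13) (.s true (nat_lit 1) (nat_lit 36) (nat_lit 2) (nat_lit 2) (nat_lit 5) true (nat_lit 4) true (nat_lit 10) true (nat_lit 1) true (nat_lit 13) true (nat_lit 13) (.s true (nat_lit 3) (nat_lit 31) (nat_lit 5) (nat_lit 2) (nat_lit 2) true (nat_lit 4) true (nat_lit 13) true (nat_lit 1) true (nat_lit 10) true (nat_lit 13) (.s false (nat_lit 3) (nat_lit 44) (nat_lit 3) (nat_lit 2) (nat_lit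 2) true (nat_lit 7) true (nat_lit 13) false (nat_lit 1) true (nat_lit 12) true (nat_lit 13) (.s false (nat_lit 2) (nat_lit 45) (nat_lit 3) (nat_lit 2) (nat_lit 2) true (nat_lit 7) true (nat_lit 13) false (nat_lit 1) true (nat_lit 12) true (nat_lit 13) (.s false (nat_lit 1) (nat_lit 46) (nat_lit 1) (nat_lit 3) (nat_lit 2) true (nat_lit 10) true (nat_lit 13) false (nat_lit 2) true (nat_lit 14) true (nat_lit 12) (.s false (nat_lit 1) (nat_lit 46) (nat_lit 2) (nat_lit 3) (nat_lit 1) true (nat_lit 10) true (nat_lit 14) false (nat_lit 2) true (nat_lit 13) true (nat_lit 12) (.s true (nat_lit 1) (nat_lit 70) (nat_lit 2) (nat_lit 2) (nat_lit 2) true (nat_lit 9) true (nat_lit 13) false (nat_lit 3) true (nat_lit 13) true (nat_lit 13) (.s true (nat_lit 1) (nat_lit 72) (nat_lit 2) (nat_lit 2) (nat_lit 2) true (nat_lit 9) true (nat_lit 13) false (nat_lit 3) true (nat_lit 13) true (nat_lit 13) (.s false (nat_lit 1) (nat_lit 75)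 (nat_lit 2) (nat_lit 2) (nat_lit 2) true (nat_lit 9) true (nat_lit 13) false (nat_lit 3) true (nat_lit 13) true (nat_lit 13) (.s false (nat_lit 1) (nat_lit 82) (nat_lit 1) (nat_lit 2) (nat_lit 2) true (nat_lit 10) true (nat_lit 13) false (nat_lit 4) true (nat_lit 14) true (nat_lit 13) dC1d_i19)))))))))))))))))))))))))

noncomputable def dC1d_i21 : IL := (.e false (nat_lit 2) (nat_lit 240) (nat_lit 2) (nat_lit 17) (.e false (nat_lit 2) (nat_lit 242) (nat_lit 2) (nat_lit 17) (.e true (nat_lit 2) (nat_lit 243) (nat_lit 2) (nat_lit 17) (.e true (nat_lit 3) (nat_lit 244) (nat_lit 2) (nat_lit 17) (.e true (nat_lit 1) (nat_lit 214) (nat_lit 2) (nat_lit 17) (.e true (nat_lit 3) (nat_lit 215) (nat_lit 2) (nat_lit 17) (.e true (nat_lit 2) (nat_lit 216) (nat_lit 2) (nat_lit 17) (.e true (nat_lit 3) (nat_lit 217) (nat_lit 2) (nat_lit 17) (.e false (nat_lit 2) (nat_lit 218) (nat_lit 2) (nat_lit 17) (.e true (nat_lit 2) (nat_lit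 219) (nat_lit 2) (nat_lit 17) (.e true (nat_lit 2) (nat_lit 220) (nat_lit 2) (nat_lit 17) (.e true (nat_lit 2) (nat_lit 221) (nat_lit 2) (nat_lit 17) (.e true (nat_lit 1) (nat_lit 222) (nat_lit 2) (nat_lit 17) (.e false (nat_lit 3) (nat_lit 224) (nat_lit 2) (nat_lit 17) (.e false (nat_lit 2) (nat_lit 227) (nat_lit 2) (nat_lit 17) (.e true (nat_lit 2) (nat_lit 229) (nat_lit 2) (nat_lit 17) (.e true (nat_lit 2) (nat_lit 241) (nat_lit 2) (nat_lit 17) (.e true (nat_lit 2) (nat_lit 248) (nat_lit 2) (nat_lit 17) (.e true (nat_lit 1) (nat_lit 247) (nat_lit 2) (nat_lit 17) (.e true (nat_lit 3) (nat_lit 223) (nat_lit 2) (nat_lit 17) (.e true (nat_lit 2) (nat_lit 231) (nat_lit 2) (nat_lit 17) (.e false (nat_lit 1) (nat_lit 232) (nat_lit 2) (nat_lit 17) (.e false (nat_lit 1) (nat_lit 213) (nat_lit 2) (nat_lit 17) (.u (nat_lit 2) (.p (nat_lit 1) (nat_lit 3) (.p (nat_lit 2) (nat_lit 1) (.p (nat_lit 4) (nat_lit 4) (.p (nat_lit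 5) (nat_lit 2) (.p (nat_lit 6) (nat_lit 2) (.p (nat_lit 9) (nat_lit 5) (.p (nat_lit 11) (nat_lit 1) (.p (nat_lit 12) (nat_lit 1) (.p (nat_lit 13) (nat_lit 1) (.n (nat_lit 14) (nat_lit 4) (.p (nat_lit 15) (nat_lit 1) (.p (nat_lit 18) (nat_lit 6) (.n (nat_lit 20) (nat_lit 7) (.p (nat_lit 26) (nat_lit 1) (.n (nat_lit 28) (nat_lit 3) (.n (nat_lit 29) (nat_lit 3) (.n (nat_lit 30) (nat_lit 2) (.p (nat_lit 31) (nat_lit 1) (.n (nat_lit 32) (nat_lit 7) (.p (nat_lit 33) (nat_lit 7) (.p (nat_lit 34) (nat_lit 3) (.p (nat_lit 35) (nat_lit 3) (.n (nat_lit 36) (nat_lit 1) (.n (nat_lit 37) (nat_lit 5) (.p (nat_lit 38) (nat_lit 6) (.n (nat_lit 39) (nat_lit 4) (.p (nat_lit 40) (nat_lit 2) (.p (nat_lit 41) (nat_lit 3) (.n (nat_lit 49) (nat_lit 1) (.p (nat_lit 50) (nat_lit 1) (.p (nat_lit 53) (nat_lit 1) (.n (nat_lit 55) (nat_lit 1) (.n (nat_lit 56) (nat_lit 1) (.p (nat_lit 57) (nat_lit 2) (.n (nat_lit 58) (nat_lit 1) (.p (nat_lit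 62) (nat_lit 1) (.n (nat_lit 63) (nat_lit 1) (.n (nat_lit 69) (nat_lit 2) (.p (nat_lit 70) (nat_lit 3) (.n (nat_lit 328) (nat_lit 1) (.p (nat_lit 330) (nat_lit 1) (.p (nat_lit 331) (nat_lit 1) (.p (nat_lit 332) (nat_lit 1) (.n (nat_lit 333) (nat_lit 1) (.p (nat_lit 334) (nat_lit 1) (.n (nat_lit 336) (nat_lit 1) (.p (nat_lit 337) (nat_lit 1) (.p (nat_lit 338) (nat_lit 1) (.n (nat_lit 339) (nat_lit 1) (.n (nat_lit 342) (nat_lit 1) (.p (nat_lit 344) (nat_lit 1) (.p (nat_lit 346) (nat_lit 1) (.n (nat_lit 348) (nat_lit 1) (.n (nat_lit 349) (nat_lit 1) (.p (nat_lit 350) (nat_lit 1) (.p (nat_lit 352) (nat_lit 1) (.n (nat_lit 353) (nat_lit 1) (.p (nat_lit 354) (nat_lit 2) (.n (nat_lit 355) (nat_lit 1) (.n (nat_lit 356) (nat_lit 1) .z)))))))))))))))))))))))))))))))))))))))))))))))))))))))))))) (.u (nat_lit 2) (.n (nat_lit 357) (nat_lit 1) .z) .nil)))))))))))))))))))))))))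

noncomputable def dC1d_i22 : IL := (.e false (nat_lit 2) (nat_lit 262) (nat_lit 1) (nat_lit 18) (.e true (nat_lit 1) (nat_lit 263) (nat_lit 1) (nat_lit 18) (.e true (nat_lit 2) (nat_lit 264) (nat_lit 1) (nat_lit 18) (.e true (nat_lit 2) (nat_lit 265) (nat_lit 1) (nat_lit 18) (.e false (nat_lit 1) (nat_lit 266) (nat_lit 1) (nat_lit 18) (.e false (nat_lit 2) (nat_lit 267) (nat_lit 1) (nat_lit 18) (.e false (nat_lit 3) (nat_lit 268) (nat_lit 1) (nat_lit 18) (.e true (nat_lit 2) (nat_lit 269) (nat_lit 1) (nat_lit 18) (.e false (nat_lit 2) (nat_lit 270) (nat_lit 1) (nat_lit 18) (.e true (nat_lit 1) (nat_lit 272) (nat_lit 1) (nat_lit 18) (.e false (nat_lit 1) (nat_lit 274) (nat_lit 1) (nat_lit 18) (.e false (nat_lit 1) (nat_lit 276) (nat_lit 1) (nat_lit 18) (.e true (nat_lit 1) (nat_lit 277) (nat_lit 1) (nat_lit 18) (.e true (nat_lit 1) (nat_lit 278) (nat_lit 1) (nat_lit 18) (.e false (nat_lit 3) (nat_lit 279) (nat_lit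 1) (nat_lit 18) (.e true (nat_lit 1) (nat_lit 285) (nat_lit 1) (nat_lit 18) (.e true (nat_lit 2) (nat_lit 286) (nat_lit 1) (nat_lit 18) (.e true (nat_lit 3) (nat_lit 288) (nat_lit 1) (nat_lit 18) (.e false (nat_lit 2) (nat_lit 233) (nat_lit 2) (nat_lit 17) (.e false (nat_lit 2) (nat_lit 234) (nat_lit 2) (nat_lit 17) (.e true (nat_lit 3) (nat_lit 235) (nat_lit 2) (nat_lit 17) (.e true (nat_lit 1) (nat_lit 236) (nat_lit 2) (nat_lit 17) (.e true (nat_lit 3) (nat_lit 237) (nat_lit 2) (nat_lit 17) (.e true (nat_lit 1) (nat_lit 238) (nat_lit 2) (nat_lit 17) (.e true (nat_lit 3) (nat_lit 239) (nat_lit 2) (nat_lit 17) dC1d_i21)))))))))))))))))))))))))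

noncomputable def dC1d_i23 : IL := (.e false (nat_lit 1) (nat_lit 267) (nat_lit 2) (nat_lit 13) (.e true (nat_lit 3) (nat_lit 268) (nat_lit 2) (nat_lit 13) (.e true (nat_lit 1) (nat_lit 270) (nat_lit 2) (nat_lit 13) (.e false (nat_lit 2) (nat_lit 271) (nat_lit 2) (nat_lit 13) (.e true (nat_lit 1) (nat_lit 272) (nat_lit 2) (nat_lit 13) (.e true (nat_lit 3) (nat_lit 273) (nat_lit 2) (nat_lit 13) (.e false (nat_lit 1) (nat_lit 274) (nat_lit 2) (nat_lit 13) (.e true (nat_lit 1) (nat_lit 276) (nat_lit 2) (nat_lit 13) (.e false (nat_lit 1) (nat_lit 277) (nat_lit 2) (nat_lit 13) (.e false (nat_lit 2) (nat_lit 278) (nat_lit 2) (nat_lit 13) (.e true (nat_lit 3) (nat_lit 280) (nat_lit 2) (nat_lit 13) (.e true (nat_lit 1) (nat_lit 85) (nat_lit 14) (nat_lit 5) (.e true (nat_lit 2) (nat_lit 328) (nat_lit 0) (nat_lit 15) (.e false (nat_lit 1) (nat_lit 329) (nat_lit 0) (nat_lit 15) (.e true (nat_lit 3) (nat_lit 330) (nat_lit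 0) (nat_lit 15) (.e false (nat_lit 3) (nat_lit 331) (nat_lit 0) (nat_lit 15) (.e false (nat_lit 2) (nat_lit 332) (nat_lit 0) (nat_lit 15) (.e false (nat_lit 2) (nat_lit 333) (nat_lit 0) (nat_lit 15) (.e true (nat_lit 1) (nat_lit 336) (nat_lit 0) (nat_lit 15) (.e true (nat_lit 1) (nat_lit 337) (nat_lit 0) (nat_lit 15) (.e false (nat_lit 2) (nat_lit 338) (nat_lit 0) (nat_lit 15) (.e false (nat_lit 1) (nat_lit 340) (nat_lit 0) (nat_lit 15) (.e true (nat_lit 1) (nat_lit 345) (nat_lit 0) (nat_lit 15) (.e true (nat_lit 1) (nat_lit 285) (nat_lit 2) (nat_lit 13) (.u (nat_lit 2) (.n (nat_lit 0) (nat_lit 1) (.n (nat_lit 1) (nat_lit 1) (.p (nat_lit 2) (nat_lit 1) (.p (nat_lit 3) (nat_lit 2) (.p (nat_lit 4) (nat_lit 4) (.n (nat_lit 5) (nat_lit 1) (.n (nat_lit 6) (nat_lit 2) (.n (nat_lit 7) (nat_lit 2) (.n (nat_lit 9) (nat_lit 3) (.p (nat_lit 12) (nat_lit 1) (.n (nat_lit 13) (nat_lit 1) (.n (nat_lit 15) (nat_lit 2) (.p (nat_lit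 16) (nat_lit 1) (.p (nat_lit 17) (nat_lit 2) (.n (nat_lit 19) (nat_lit 1) (.n (nat_lit 23) (nat_lit 1) (.p (nat_lit 24) (nat_lit 2) (.n (nat_lit 26) (nat_lit 1) (.n (nat_lit 27) (nat_lit 1) (.n (nat_lit 30) (nat_lit 2) (.p (nat_lit 33) (nat_lit 1) .z))))))))))))))))))))) .nil)))))))))))))))))))))))))

noncomputable def dC1d_i24 : IL := (.e true (nat_lit 1) (nat_lit 302) (nat_lit 2) (nat_lit 13) (.e true (nat_lit 1) (nat_lit 83) (nat_lit 16) (nat_lit 4) (.e false (nat_lit 1) (nat_lit 329) (nat_lit 1) (nat_lit 14) (.e true (nat_lit 2) (nat_lit 330) (nat_lit 1) (nat_lit 14) (.e true (nat_lit 1) (nat_lit 336) (nat_lit 1) (nat_lit 14) (.e false (nat_lit 3) (nat_lit 337) (nat_lit 1) (nat_lit 14) (.e true (nat_lit 2) (nat_lit 338) (nat_lit 1) (nat_lit 14) (.e false (nat_lit 2) (nat_lit 331) (nat_lit 1) (nat_lit 14) (.e false (nat_lit 1) (nat_lit 333) (nat_lit 1) (nat_lit 14) (.e true (nat_lit 2) (nat_lit 170) (nat_lit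 6) (nat_lit 9) (.e true (nat_lit 3) (nat_lit 193) (nat_lit 5) (nat_lit 10) (.e true (nat_lit 2) (nat_lit 345) (nat_lit 1) (nat_lit 14) (.e true (nat_lit 1) (nat_lit 181) (nat_lit 5) (nat_lit 10) (.e false (nat_lit 1) (nat_lit 185) (nat_lit 5) (nat_lit 10) (.e false (nat_lit 1) (nat_lit 332) (nat_lit 1) (nat_lit 14) (.e false (nat_lit 2) (nat_lit 334) (nat_lit 1) (nat_lit 14) (.e false (nat_lit 2) (nat_lit 335) (nat_lit 1) (nat_lit 14) (.e true (nat_lit 1) (nat_lit 161) (nat_lit 6) (nat_lit 9) (.e true (nat_lit 1) (nat_lit 347) (nat_lit 0) (nat_lit 15) (.e false (nat_lit 2) (nat_lit 350) (nat_lit 0) (nat_lit 15) (.e false (nat_lit 3) (nat_lit 351) (nat_lit 0) (nat_lit 15) (.e true (nat_lit 1) (nat_lit 349) (nat_lit 0) (nat_lit 15) (.e true (nat_lit 2) (nat_lit 348) (nat_lit 0) (nat_lit 15) (.u (nat_lit 2) (.n (nat_lit 0) (nat_lit 2) (.n (nat_lit 1) (nat_lit 1) (.p (nat_lit 2) (nat_lit 3) (.n (nat_lit 3) (nat_lit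 3) (.n (nat_lit 4) (nat_lit 1) (.p (nat_lit 5) (nat_lit 4) (.p (nat_lit 7) (nat_lit 1) (.p (nat_lit 8) (nat_lit 2) (.n (nat_lit 9) (nat_lit 1) (.p (nat_lit 10) (nat_lit 1) (.p (nat_lit 11) (nat_lit 1) (.n (nat_lit 13) (nat_lit 2) (.n (nat_lit 14) (nat_lit 2) (.n (nat_lit 15) (nat_lit 2) (.p (nat_lit 17) (nat_lit 1) (.n (nat_lit 18) (nat_lit 1) (.p (nat_lit 19) (nat_lit 1) (.p (nat_lit 20) (nat_lit 1) (.n (nat_lit 21) (nat_lit 2) (.n (nat_lit 23) (nat_lit 1) (.p (nat_lit 26) (nat_lit 1) (.p (nat_lit 29) (nat_lit 3) (.p (nat_lit 30) (nat_lit 1) (.p (nat_lit 33) (nat_lit 1) (.n (nat_lit 50) (nat_lit 1) (.n (nat_lit 51) (nat_lit 1) (.n (nat_lit 65) (nat_lit 1) (.p (nat_lit 67) (nat_lit 1) (.p (nat_lit 74) (nat_lit 1) (.p (nat_lit 77) (nat_lit 1) (.p (nat_lit 118) (nat_lit 1) (.p (nat_lit 121) (nat_lit 1) (.p (nat_lit 122) (nat_lit 1) (.n (nat_lit 123) (nat_lit 1) (.p (nat_lit 125) (nat_lit 1) (.p (nat_lit 126) (nat_lit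 1) (.p (nat_lit 129) (nat_lit 1) (.p (nat_lit 130) (nat_lit 1) (.n (nat_lit 134) (nat_lit 1) (.n (nat_lit 135) (nat_lit 1) (.p (nat_lit 137) (nat_lit 1) (.p (nat_lit 143) (nat_lit 1) (.n (nat_lit 144) (nat_lit 1) (.p (nat_lit 147) (nat_lit 1) (.n (nat_lit 158) (nat_lit 1) (.p (nat_lit 169) (nat_lit 1) (.p (nat_lit 173) (nat_lit 9) (.p (nat_lit 174) (nat_lit 5) (.n (nat_lit 175) (nat_lit 4) (.n (nat_lit 176) (nat_lit 12) (.n (nat_lit 177) (nat_lit 6) (.n (nat_lit 178) (nat_lit 13) (.p (nat_lit 179) (nat_lit 3) (.n (nat_lit 180) (nat_lit 3) (.p (nat_lit 182) (nat_lit 10) (.p (nat_lit 183) (nat_lit 9) (.n (nat_lit 184) (nat_lit 11) (.p (nat_lit 185) (nat_lit 7) (.p (nat_lit 187) (nat_lit 8) (.p (nat_lit 188) (nat_lit 5) .z)))))))))))))))))))))))))))))))))))))))))))))))))))))))))))) (.u (nat_lit 2) (.p (nat_lit 190) (nat_lit 9) (.p (nat_lit 191) (nat_lit 1) (.n (nat_lit 193) (nat_lit 7) (.p (nat_lit 194) (nat_lit 5)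 (.p (nat_lit 195) (nat_lit 2) (.n (nat_lit 196) (nat_lit 2) (.p (nat_lit 199) (nat_lit 2) (.n (nat_lit 200) (nat_lit 12) (.p (nat_lit 201) (nat_lit 2) (.n (nat_lit 202) (nat_lit 4) (.p (nat_lit 204) (nat_lit 4) (.n (nat_lit 205) (nat_lit 4) (.p (nat_lit 206) (nat_lit 5) (.n (nat_lit 208) (nat_lit 5) (.n (nat_lit 209) (nat_lit 1) (.p (nat_lit 210) (nat_lit 1) (.n (nat_lit 212) (nat_lit 4) (.p (nat_lit 213) (nat_lit 2) (.n (nat_lit 214) (nat_lit 2) (.n (nat_lit 215) (nat_lit 2) (.p (nat_lit 216) (nat_lit 1) (.p (nat_lit 218) (nat_lit 1) (.p (nat_lit 220) (nat_lit 1) (.p (nat_lit 221) (nat_lit 1) (.p (nat_lit 222) (nat_lit 1) (.p (nat_lit 223) (nat_lit 1) (.n (nat_lit 227) (nat_lit 1) (.n (nat_lit 229) (nat_lit 1) .z)))))))))))))))))))))))))))) .nil)))))))))))))))))))))))))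

noncomputable def dC1d_i25 : IL := (.s true (nat_lit 1) (nat_lit 90) (nat_lit 2) (nat_lit 1) (nat_lit 2) true (nat_lit 9) true (nat_lit 13) false (nat_lit 4) true (nat_lit 13) true (nat_lit 14) (.s false (nat_lit 2) (nat_lit 83) (nat_lit 2) (nat_lit 2) (nat_lit 1) true (nat_lit 10) true (nat_lit 14) false (nat_lit 4) true (nat_lit 13) true (nat_lit 13) (.s true (nat_lit 1) (nat_lit 84) (nat_lit 2) (nat_lit 2) (nat_lit 1) true (nat_lit 10) true (nat_lit 14) false (nat_lit 4) true (nat_lit 13) true (nat_lit 13) (.s true (nat_lit 3) (nat_lit 103) (nat_lit 0) (nat_lit 1) (nat_lit 2) true (nat_lit 11) true (nat_lit 13) false (nat_lit 7) true (nat_lit 15) true (nat_lit 14) (.s false (nat_lit 1) (nat_lit 105) (nat_lit 0) (nat_lit 1) (nat_lit 2) true (nat_lit 11) true (nat_lit 13) false (nat_lit 7) true (nat_lit 15) true (nat_lit 14) (.s false (nat_lit 3) (nat_lit 105) (nat_lit 0) (nat_lit 2) (nat_lit 1) true (nat_lit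 12) true (nat_lit 14) false (nat_lit 7) true (nat_lit 15) true (nat_lit 13) (.s true (nat_lit 2) (nat_lit 103) (nat_lit 1) (nat_lit 2) (nat_lit 0) true (nat_lit 12) true (nat_lit 15) false (nat_lit 7) true (nat_lit 14) true (nat_lit 13) (.s false (nat_lit 1) (nat_lit 104) (nat_lit 1) (nat_lit 2) (nat_lit 0) true (nat_lit 12) true (nat_lit 15) false (nat_lit 7) true (nat_lit 14) true (nat_lit 13) (.s true (nat_lit 3) (nat_lit 105) (nat_lit 1) (nat_lit 2) (nat_lit 0) true (nat_lit 12) true (nat_lit 15) false (nat_lit 7) true (nat_lit 14) true (nat_lit 13) (.s true (nat_lit 3) (nat_lit 103) (nat_lit 2) (nat_lit 1) (nat_lit 0) true (nat_lit 11) true (nat_lit 15) false (nat_lit 7) true (nat_lit 13) true (nat_lit 14) (.s false (nat_lit 1) (nat_lit 105) (nat_lit 2) (nat_lit 1) (nat_lit 0) true (nat_lit 11) true (nat_lit 15) false (nat_lit 7) true (nat_lit 13) true (nat_lit 14) (.s false (nat_lit 3) (nat_lit 106) (nat_lit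 1) (nat_lit 0) (nat_lit 1) false (nat_lit 16) true (nat_lit 14) false (nat_lit 8) true (nat_lit 14) true (nat_lit 15) (.s false (nat_lit 3) (nat_lit 106) (nat_lit 1) (nat_lit 1) (nat_lit 0) true (nat_lit 12) true (nat_lit 15) false (nat_lit 8) true (nat_lit 14) true (nat_lit 14) (.e true (nat_lit 1) (nat_lit 172) (nat_lit 6) (nat_lit 9) (.e false (nat_lit 2) (nat_lit 307) (nat_lit 2) (nat_lit 13) (.e true (nat_lit 1) (nat_lit 317) (nat_lit 2) (nat_lit 13) (.e true (nat_lit 1) (nat_lit 319) (nat_lit 2) (nat_lit 13) (.e false (nat_lit 1) (nat_lit 298) (nat_lit 2) (nat_lit 13) (.e false (nat_lit 2) (nat_lit 171) (nat_lit 6) (nat_lit 9) (.e true (nat_lit 1) (nat_lit 292) (nat_lit 2) (nat_lit 13) (.e true (nat_lit 1) (nat_lit 294) (nat_lit 2) (nat_lit 13) (.e false (nat_lit 3) (nat_lit 310) (nat_lit 2) (nat_lit 13) (.e true (nat_lit 2) (nat_lit 309) (nat_lit 2) (nat_lit 13) (.e false (nat_lit 1) (nat_lit 318) (nat_lit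 2) (nat_lit 13) (.e false (nat_lit 1) (nat_lit 340) (nat_lit 1) (nat_lit 14) dC1d_i24)))))))))))))))))))))))))

noncomputable def dC1d_i26 : IL := (.s false (nat_lit 3) (nat_lit 24) (nat_lit 2) (nat_lit 2) (nat_lit 6) true (nat_lit 3) true (nat_lit 9) true (nat_lit 2) true (nat_lit 13) true (nat_lit 13) (.s true (nat_lit 2) (nat_lit 26) (nat_lit 2) (nat_lit 2) (nat_lit 6) true (nat_lit 3) true (nat_lit 9) true (nat_lit 2) true (nat_lit 13) true (nat_lit 13) (.s true (nat_lit 2) (nat_lit 27) (nat_lit 2) (nat_lit 2) (nat_lit 6) true (nat_lit 3) true (nat_lit 9) true (nat_lit 2) true (nat_lit 13) true (nat_lit 13) (.s false (nat_lit 1) (nat_lit 32) (nat_lit 1) (nat_lit 2) (nat_lit 6) true (nat_lit 4) true (nat_lit 9) true (nat_lit 1) true (nat_lit 14) true (nat_lit 13) (.s false (nat_lit 2) (nat_lit 33) (nat_lit 1) (nat_lit 2) (nat_lit 6) true (nat_lit 4) true (nat_lit 9) true (nat_lit 1) true (nat_lit 14) true (nat_lit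 13) (.s false (nat_lit 3) (nat_lit 31) (nat_lit 1) (nat_lit 6) (nat_lit 2) true (nat_lit 10) true (nat_lit 13) true (nat_lit 1) true (nat_lit 14) true (nat_lit 9) (.s true (nat_lit 3) (nat_lit 32) (nat_lit 1) (nat_lit 6) (nat_lit 2) true (nat_lit 10) true (nat_lit 13) true (nat_lit 1) true (nat_lit 14) true (nat_lit 9) (.s false (nat_lit 2) (nat_lit 32) (nat_lit 2) (nat_lit 2) (nat_lit 5) true (nat_lit 4) true (nat_lit 10) true (nat_lit 1) true (nat_lit 13) true (nat_lit 13) (.s false (nat_lit 2) (nat_lit 33) (nat_lit 2) (nat_lit 2) (nat_lit 5) true (nat_lit 4) true (nat_lit 10) true (nat_lit 1) true (nat_lit 13) true (nat_lit 13) (.s false (nat_lit 3) (nat_lit 33) (nat_lit 2) (nat_lit 6) (nat_lit 1) true (nat_lit 10) true (nat_lit 14) true (nat_lit 1) true (nat_lit 13) true (nat_lit 9) (.s false (nat_lit 3) (nat_lit 31) (nat_lit 5) (nat_lit 2) (nat_lit 2) true (nat_lit 4) true (nat_lit 13) true (nat_lit 1) true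 (nat_lit 10) true (nat_lit 13) (.s true (nat_lit 3) (nat_lit 32) (nat_lit 5) (nat_lit 2) (nat_lit 2) true (nat_lit 4) true (nat_lit 13) true (nat_lit 1) true (nat_lit 10) true (nat_lit 13) (.s true (nat_lit 3) (nat_lit 33) (nat_lit 5) (nat_lit 2) (nat_lit 2) true (nat_lit 4) true (nat_lit 13) true (nat_lit 1) true (nat_lit 10) true (nat_lit 13) (.s false (nat_lit 1) (nat_lit 44) (nat_lit 2) (nat_lit 3) (nat_lit 2) true (nat_lit 9) true (nat_lit 13) false (nat_lit 1) true (nat_lit 13) true (nat_lit 12) (.s false (nat_lit 1) (nat_lit 45) (nat_lit 2) (nat_lit 3) (nat_lit 2) true (nat_lit 9) true (nat_lit 13) false (nat_lit 1) true (nat_lit 13) true (nat_lit 12) (.s false (nat_lit 2) (nat_lit 43) (nat_lit 3) (nat_lit 2) (nat_lit 2) true (nat_lit 7) true (nat_lit 13) false (nat_lit 1) true (nat_lit 12) true (nat_lit 13) (.s false (nat_lit 1) (nat_lit 45) (nat_lit 3) (nat_lit 2) (nat_lit 2) true (nat_lit 7) true (nat_lit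 13) false (nat_lit 1) true (nat_lit 12) true (nat_lit 13) (.s true (nat_lit 2) (nat_lit 46) (nat_lit 1) (nat_lit 3) (nat_lit 2) true (nat_lit 10) true (nat_lit 13) false (nat_lit 2) true (nat_lit 14) true (nat_lit 12) (.s true (nat_lit 3) (nat_lit 46) (nat_lit 2) (nat_lit 3) (nat_lit 1) true (nat_lit 10) true (nat_lit 14) false (nat_lit 2) true (nat_lit 13) true (nat_lit 12) (.s true (nat_lit 2) (nat_lit 46) (nat_lit 3) (nat_lit 1) (nat_lit 2) true (nat_lit 7) true (nat_lit 13) false (nat_lit 2) true (nat_lit 12) true (nat_lit 14) (.s true (nat_lit 3) (nat_lit 46) (nat_lit 3) (nat_lit 2) (nat_lit 1) true (nat_lit 8) true (nat_lit 14) false (nat_lit 2) true (nat_lit 12) true (nat_lit 13) (.s false (nat_lit 1) (nat_lit 84) (nat_lit 1) (nat_lit 2) (nat_lit 2) true (nat_lit 10) true (nat_lit 13) false (nat_lit 4) true (nat_lit 14) true (nat_lit 13) (.s true (nat_lit 3) (nat_lit 85) (nat_lit 1) (nat_lit 2) (nat_lit 2)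 true (nat_lit 10) true (nat_lit 13) false (nat_lit 4) true (nat_lit 14) true (nat_lit 13) (.s false (nat_lit 3) (nat_lit 87) (nat_lit 1) (nat_lit 2) (nat_lit 2) true (nat_lit 10) true (nat_lit 13) false (nat_lit 4) true (nat_lit 14) true (nat_lit 13) (.s true (nat_lit 1) (nat_lit 83) (nat_lit 2) (nat_lit 1) (nat_lit 2) true (nat_lit 9) true (nat_lit 13) false (nat_lit 4) true (nat_lit 13) true (nat_lit 14) dC1d_i25)))))))))))))))))))))))))

noncomputable def dC1d_i27 : IL := (.e true (nat_lit 3) (nat_lit 139) (nat_lit 2) (nat_lit 10) (.e false (nat_lit 1) (nat_lit 140) (nat_lit 2) (nat_lit 10) (.e false (nat_lit 2) (nat_lit 141) (nat_lit 2) (nat_lit 10) (.e true (nat_lit 1) (nat_lit 142) (nat_lit 2) (nat_lit 10) (.e false (nat_lit 3) (nat_lit 143) (nat_lit 2) (nat_lit 10) (.e true (nat_lit 1) (nat_lit 144) (nat_lit 2) (nat_lit 10) (.e false (nat_lit 2) (nat_lit 146) (nat_lit 2) (nat_lit 10) (.e true (nat_lit 2)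 (nat_lit 150) (nat_lit 2) (nat_lit 10) (.e true (nat_lit 3) (nat_lit 151) (nat_lit 2) (nat_lit 10) (.e true (nat_lit 2) (nat_lit 149) (nat_lit 2) (nat_lit 10) (.e true (nat_lit 2) (nat_lit 137) (nat_lit 2) (nat_lit 10) (.e false (nat_lit 1) (nat_lit 21) (nat_lit 18) (nat_lit 0) (.e false (nat_lit 2) (nat_lit 22) (nat_lit 18) (nat_lit 0) (.e true (nat_lit 2) (nat_lit 62) (nat_lit 6) (nat_lit 6) (.e true (nat_lit 3) (nat_lit 55) (nat_lit 6) (nat_lit 6) (.e true (nat_lit 2) (nat_lit 189) (nat_lit 0) (nat_lit 12) (.e true (nat_lit 3) (nat_lit 193) (nat_lit 0) (nat_lit 12) (.e false (nat_lit 3) (nat_lit 148) (nat_lit 2) (nat_lit 10) (.e true (nat_lit 1) (nat_lit 63) (nat_lit 6) (nat_lit 6) (.e true (nat_lit 3) (nat_lit 180) (nat_lit 0) (nat_lit 12) (.e true (nat_lit 2) (nat_lit 181) (nat_lit 0) (nat_lit 12) (.e false (nat_lit 2) (nat_lit 183) (nat_lit 0) (nat_lit 12) (.e true (nat_lit 2) (nat_lit 46) (nat_lit 7) (nat_lit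 5) (.u (nat_lit 2) (.p (nat_lit 1) (nat_lit 1) (.p (nat_lit 2) (nat_lit 1) (.n (nat_lit 3) (nat_lit 1) (.p (nat_lit 4) (nat_lit 1) (.n (nat_lit 5) (nat_lit 1) (.n (nat_lit 6) (nat_lit 1) (.n (nat_lit 7) (nat_lit 1) (.p (nat_lit 8) (nat_lit 1) (.n (nat_lit 10) (nat_lit 1) (.p (nat_lit 11) (nat_lit 2) (.p (nat_lit 13) (nat_lit 1) (.n (nat_lit 14) (nat_lit 1) (.n (nat_lit 17) (nat_lit 2) (.p (nat_lit 18) (nat_lit 1) (.n (nat_lit 19) (nat_lit 3) (.p (nat_lit 20) (nat_lit 1) (.n (nat_lit 24) (nat_lit 1) (.n (nat_lit 26) (nat_lit 1) (.p (nat_lit 28) (nat_lit 1) (.p (nat_lit 45) (nat_lit 1) (.p (nat_lit 59) (nat_lit 1) (.p (nat_lit 60) (nat_lit 1) (.p (nat_lit 64) (nat_lit 1) (.p (nat_lit 66) (nat_lit 1) (.p (nat_lit 69) (nat_lit 3) (.p (nat_lit 70) (nat_lit 3) (.n (nat_lit 71) (nat_lit 3) (.n (nat_lit 73) (nat_lit 1) (.n (nat_lit 74) (nat_lit 3) (.n (nat_lit 75) (nat_lit 1) (.p (nat_lit 84) (nat_lit 1) (.n (nat_lit 89)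 (nat_lit 1) (.p (nat_lit 93) (nat_lit 1) (.p (nat_lit 94) (nat_lit 1) (.p (nat_lit 96) (nat_lit 3) (.n (nat_lit 97) (nat_lit 7) (.n (nat_lit 99) (nat_lit 1) (.n (nat_lit 100) (nat_lit 2) (.p (nat_lit 101) (nat_lit 8) (.p (nat_lit 102) (nat_lit 16) (.n (nat_lit 103) (nat_lit 5) (.n (nat_lit 104) (nat_lit 6) (.p (nat_lit 105) (nat_lit 4) (.p (nat_lit 106) (nat_lit 7) (.p (nat_lit 107) (nat_lit 4) (.p (nat_lit 108) (nat_lit 2) (.p (nat_lit 109) (nat_lit 3) (.p (nat_lit 110) (nat_lit 3) (.n (nat_lit 112) (nat_lit 1) (.p (nat_lit 113) (nat_lit 6) (.p (nat_lit 114) (nat_lit 3) (.n (nat_lit 115) (nat_lit 3) (.n (nat_lit 116) (nat_lit 2) (.p (nat_lit 117) (nat_lit 1) (.n (nat_lit 118) (nat_lit 1) (.p (nat_lit 120) (nat_lit 5) (.p (nat_lit 124) (nat_lit 1) (.n (nat_lit 126) (nat_lit 1) (.p (nat_lit 127) (nat_lit 1) (.n (nat_lit 128) (nat_lit 1) .z)))))))))))))))))))))))))))))))))))))))))))))))))))))))))))) (.u (nat_lit 2)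 (.n (nat_lit 129) (nat_lit 2) (.n (nat_lit 130) (nat_lit 2) (.n (nat_lit 131) (nat_lit 1) (.p (nat_lit 133) (nat_lit 1) (.p (nat_lit 135) (nat_lit 1) .z))))) .nil)))))))))))))))))))))))))

noncomputable def dC1d_i28 : IL := (.s false (nat_lit 1) (nat_lit 18) (nat_lit 0) (nat_lit 2) (nat_lit 3) true (nat_lit 5) true (nat_lit 9) true (nat_lit 0) true (nat_lit 12) true (nat_lit 10) (.s false (nat_lit 1) (nat_lit 18) (nat_lit 0) (nat_lit 5) (nat_lit 0) false (nat_lit 13) true (nat_lit 12) true (nat_lit 0) true (nat_lit 12) true (nat_lit 7) (.s true (nat_lit 1) (nat_lit 18) (nat_lit 3) (nat_lit 2) (nat_lit 0) true (nat_lit 5) true (nat_lit 12) true (nat_lit 0) true (nat_lit 9) true (nat_lit 10) (.s false (nat_lit 2) (nat_lit 30) (nat_lit 2) (nat_lit 1) (nat_lit 2) true (nat_lit 6) true (nat_lit 10) false (nat_lit 1) true (nat_lit 10) true (nat_lit 11) (.s false (nat_lit 1) (nat_lit 31) (nat_lit 0) (nat_lit 2) (nat_lit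 2) true (nat_lit 8) true (nat_lit 10) false (nat_lit 2) true (nat_lit 12) true (nat_lit 10) (.s true (nat_lit 3) (nat_lit 33) (nat_lit 0) (nat_lit 2) (nat_lit 2) true (nat_lit 8) true (nat_lit 10) false (nat_lit 2) true (nat_lit 12) true (nat_lit 10) (.s true (nat_lit 2) (nat_lit 35) (nat_lit 2) (nat_lit 0) (nat_lit 2) true (nat_lit 6) true (nat_lit 10) false (nat_lit 2) true (nat_lit 10) true (nat_lit 12) (.s true (nat_lit 3) (nat_lit 36) (nat_lit 2) (nat_lit 0) (nat_lit 2) true (nat_lit 6) true (nat_lit 10) false (nat_lit 2) true (nat_lit 10) true (nat_lit 12) (.s false (nat_lit 1) (nat_lit 31) (nat_lit 2) (nat_lit 2) (nat_lit 0) true (nat_lit 8) true (nat_lit 12) false (nat_lit 2) true (nat_lit 10) true (nat_lit 10) (.s false (nat_lit 3) (nat_lit 33) (nat_lit 2) (nat_lit 2) (nat_lit 0) true (nat_lit 8) true (nat_lit 12) false (nat_lit 2) true (nat_lit 10) true (nat_lit 10) (.s true (nat_lit 3) (nat_lit 35) (nat_lit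 2) (nat_lit 2) (nat_lit 0) true (nat_lit 8) true (nat_lit 12) false (nat_lit 2) true (nat_lit 10) true (nat_lit 10) (.s false (nat_lit 3) (nat_lit 36) (nat_lit 2) (nat_lit 2) (nat_lit 0) true (nat_lit 8) true (nat_lit 12) false (nat_lit 2) true (nat_lit 10) true (nat_lit 10) (.s false (nat_lit 3) (nat_lit 42) (nat_lit 0) (nat_lit 2) (nat_lit 1) true (nat_lit 9) true (nat_lit 11) false (nat_lit 3) true (nat_lit 12) true (nat_lit 10) (.s true (nat_lit 1) (nat_lit 42) (nat_lit 2) (nat_lit 0) (nat_lit 1) true (nat_lit 7) true (nat_lit 11) false (nat_lit 3) true (nat_lit 10) true (nat_lit 12) (.s true (nat_lit 3) (nat_lit 46) (nat_lit 1) (nat_lit 0) (nat_lit 0) true (nat_lit 9) true (nat_lit 12) false (nat_lit 5) true (nat_lit 11) true (nat_lit 12) (.e false (nat_lit 3) (nat_lit 31) (nat_lit 14) (nat_lit 2) (.e false (nat_lit 2) (nat_lit 32) (nat_lit 14) (nat_lit 2) (.e false (nat_lit 3) (nat_lit 83) (nat_lit 4) (nat_lit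 8) (.e false (nat_lit 3) (nat_lit 152) (nat_lit 2) (nat_lit 10) (.e false (nat_lit 3) (nat_lit 132) (nat_lit 2) (nat_lit 10) (.e true (nat_lit 1) (nat_lit 133) (nat_lit 2) (nat_lit 10) (.e true (nat_lit 2) (nat_lit 134) (nat_lit 2) (nat_lit 10) (.e false (nat_lit 1) (nat_lit 135) (nat_lit 2) (nat_lit 10) (.e true (nat_lit 2) (nat_lit 136) (nat_lit 2) (nat_lit 10) (.e true (nat_lit 2) (nat_lit 138) (nat_lit 2) (nat_lit 10) dC1d_i27)))))))))))))))))))))))))

noncomputable def dC1d_i29 : IL := (.e true (nat_lit 2) (nat_lit 163) (nat_lit 2) (nat_lit 10) (.e true (nat_lit 3) (nat_lit 167) (nat_lit 2) (nat_lit 10) (.e true (nat_lit 1) (nat_lit 168) (nat_lit 2) (nat_lit 10) (.e true (nat_lit 1) (nat_lit 170) (nat_lit 2) (nat_lit 10) (.e false (nat_lit 3) (nat_lit 171) (nat_lit 2) (nat_lit 10) (.e false (nat_lit 3) (nat_lit 173) (nat_lit 2) (nat_lit 10) (.e false (nat_lit 3) (nat_lit 172) (nat_lit 2) (nat_lit 10) (.e false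 (nat_lit 2) (nat_lit 162) (nat_lit 2) (nat_lit 10) (.e false (nat_lit 2) (nat_lit 158) (nat_lit 2) (nat_lit 10) (.e true (nat_lit 2) (nat_lit 164) (nat_lit 2) (nat_lit 10) (.e false (nat_lit 2) (nat_lit 165) (nat_lit 2) (nat_lit 10) (.e false (nat_lit 1) (nat_lit 169) (nat_lit 2) (nat_lit 10) (.e false (nat_lit 1) (nat_lit 40) (nat_lit 13) (nat_lit 3) (.e false (nat_lit 2) (nat_lit 181) (nat_lit 1) (nat_lit 11) (.e true (nat_lit 2) (nat_lit 166) (nat_lit 2) (nat_lit 10) (.e false (nat_lit 2) (nat_lit 82) (nat_lit 5) (nat_lit 7) (.e true (nat_lit 3) (nat_lit 31) (nat_lit 16) (nat_lit 1) (.e false (nat_lit 2) (nat_lit 45) (nat_lit 10) (nat_lit 4) (.e false (nat_lit 2) (nat_lit 24) (nat_lit 18) (nat_lit 0) (.e true (nat_lit 3) (nat_lit 105) (nat_lit 3) (nat_lit 9) (.e true (nat_lit 3) (nat_lit 26) (nat_lit 18) (nat_lit 0) (.e true (nat_lit 3) (nat_lit 43) (nat_lit 10) (nat_lit 4) (.e false (nat_lit 1) (nat_lit 46)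 (nat_lit 8) (nat_lit 5) (.u (nat_lit 2) (.p (nat_lit 0) (nat_lit 4) (.p (nat_lit 2) (nat_lit 2) (.n (nat_lit 3) (nat_lit 1) (.n (nat_lit 4) (nat_lit 3) (.p (nat_lit 5) (nat_lit 1) (.n (nat_lit 8) (nat_lit 2) (.p (nat_lit 9) (nat_lit 3) (.n (nat_lit 11) (nat_lit 1) (.p (nat_lit 12) (nat_lit 2) (.p (nat_lit 14) (nat_lit 3) (.p (nat_lit 15) (nat_lit 1) (.p (nat_lit 18) (nat_lit 1) (.p (nat_lit 19) (nat_lit 1) (.n (nat_lit 21) (nat_lit 1) (.p (nat_lit 22) (nat_lit 1) (.n (nat_lit 24) (nat_lit 1) (.n (nat_lit 27) (nat_lit 3) (.p (nat_lit 41) (nat_lit 1) (.n (nat_lit 44) (nat_lit 1) (.n (nat_lit 46) (nat_lit 1) (.p (nat_lit 65) (nat_lit 1) (.p (nat_lit 66) (nat_lit 2) (.n (nat_lit 67) (nat_lit 1) (.p (nat_lit 68) (nat_lit 1) (.p (nat_lit 69) (nat_lit 1) (.n (nat_lit 71) (nat_lit 1) (.n (nat_lit 72) (nat_lit 1) (.n (nat_lit 73) (nat_lit 1) (.p (nat_lit 74) (nat_lit 1) (.p (nat_lit 75) (nat_lit 1) (.n (nat_lit 76) (nat_lit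 1) (.n (nat_lit 77) (nat_lit 2) (.p (nat_lit 79) (nat_lit 1) (.p (nat_lit 80) (nat_lit 1) (.n (nat_lit 81) (nat_lit 1) (.p (nat_lit 82) (nat_lit 1) (.n (nat_lit 85) (nat_lit 1) (.p (nat_lit 86) (nat_lit 1) (.p (nat_lit 92) (nat_lit 1) (.p (nat_lit 93) (nat_lit 2) (.p (nat_lit 94) (nat_lit 2) (.p (nat_lit 96) (nat_lit 4) (.p (nat_lit 97) (nat_lit 9) (.p (nat_lit 98) (nat_lit 6) (.p (nat_lit 100) (nat_lit 7) (.n (nat_lit 101) (nat_lit 1) (.n (nat_lit 102) (nat_lit 7) (.p (nat_lit 103) (nat_lit 7) (.n (nat_lit 104) (nat_lit 5) (.n (nat_lit 105) (nat_lit 4) (.n (nat_lit 107) (nat_lit 5) (.n (nat_lit 108) (nat_lit 2) (.p (nat_lit 109) (nat_lit 1) (.p (nat_lit 110) (nat_lit 3) (.n (nat_lit 111) (nat_lit 2) (.n (nat_lit 113) (nat_lit 8) (.p (nat_lit 114) (nat_lit 7) (.n (nat_lit 117) (nat_lit 2) (.n (nat_lit 118) (nat_lit 3) (.n (nat_lit 119) (nat_lit 1) .z)))))))))))))))))))))))))))))))))))))))))))))))))))))))))))) (.u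 (nat_lit 2) (.p (nat_lit 120) (nat_lit 3) (.n (nat_lit 122) (nat_lit 4) (.n (nat_lit 123) (nat_lit 3) (.n (nat_lit 124) (nat_lit 3) (.n (nat_lit 126) (nat_lit 4) (.n (nat_lit 127) (nat_lit 3) (.n (nat_lit 128) (nat_lit 1) (.n (nat_lit 130) (nat_lit 1) (.n (nat_lit 132) (nat_lit 1) (.n (nat_lit 137) (nat_lit 1) .z)))))))))) .nil)))))))))))))))))))))))))

noncomputable def dC1d_i30 : IL := (.s false (nat_lit 2) (nat_lit 42) (nat_lit 1) (nat_lit 2) (nat_lit 1) false (nat_lit 13) true (nat_lit 11) false (nat_lit 3) true (nat_lit 11) true (nat_lit 10) (.s false (nat_lit 2) (nat_lit 43) (nat_lit 0) (nat_lit 2) (nat_lit 1) true (nat_lit 9) true (nat_lit 11) false (nat_lit 4) true (nat_lit 12) true (nat_lit 10) (.s false (nat_lit 3) (nat_lit 43) (nat_lit 1) (nat_lit 0) (nat_lit 2) true (nat_lit 7) true (nat_lit 10) false (nat_lit 4) true (nat_lit 11) true (nat_lit 12) (.s true (nat_lit 3) (nat_lit 43) (nat_lit 1) (nat_lit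 2) (nat_lit 0) true (nat_lit 9) true (nat_lit 12) false (nat_lit 4) true (nat_lit 11) true (nat_lit 10) (.s true (nat_lit 3) (nat_lit 43) (nat_lit 2) (nat_lit 1) (nat_lit 0) true (nat_lit 8) true (nat_lit 12) false (nat_lit 4) true (nat_lit 10) true (nat_lit 11) (.s false (nat_lit 1) (nat_lit 46) (nat_lit 0) (nat_lit 1) (nat_lit 1) true (nat_lit 9) true (nat_lit 11) false (nat_lit 5) true (nat_lit 12) true (nat_lit 11) (.e false (nat_lit 2) (nat_lit 66) (nat_lit 6) (nat_lit 6) (.e false (nat_lit 1) (nat_lit 68) (nat_lit 6) (nat_lit 6) (.e false (nat_lit 1) (nat_lit 70) (nat_lit 6) (nat_lit 6) (.e false (nat_lit 2) (nat_lit 75) (nat_lit 6) (nat_lit 6) (.e true (nat_lit 2) (nat_lit 188) (nat_lit 1) (nat_lit 11) (.e true (nat_lit 2) (nat_lit 67) (nat_lit 6) (nat_lit 6) (.e true (nat_lit 1) (nat_lit 74) (nat_lit 6) (nat_lit 6) (.e false (nat_lit 3) (nat_lit 31) (nat_lit 17) (nat_lit 1) (.e true (nat_lit 1) (nat_lit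 183) (nat_lit 1) (nat_lit 11) (.e true (nat_lit 3) (nat_lit 186) (nat_lit 1) (nat_lit 11) (.e true (nat_lit 1) (nat_lit 195) (nat_lit 1) (nat_lit 11) (.e false (nat_lit 3) (nat_lit 187) (nat_lit 1) (nat_lit 11) (.e false (nat_lit 1) (nat_lit 190) (nat_lit 1) (nat_lit 11) (.e false (nat_lit 1) (nat_lit 153) (nat_lit 2) (nat_lit 10) (.e true (nat_lit 3) (nat_lit 154) (nat_lit 2) (nat_lit 10) (.e false (nat_lit 1) (nat_lit 155) (nat_lit 2) (nat_lit 10) (.e false (nat_lit 2) (nat_lit 156) (nat_lit 2) (nat_lit 10) (.e true (nat_lit 1) (nat_lit 157) (nat_lit 2) (nat_lit 10) (.e false (nat_lit 1) (nat_lit 159) (nat_lit 2) (nat_lit 10) dC1d_i29)))))))))))))))))))))))))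

noncomputable def dC1d_i31 : IL := (.s true (nat_lit 1) (nat_lit 17) (nat_lit 1) (nat_lit 2) (nat_lit 4) true (nat_lit 4) true (nat_lit 8) true (nat_lit 1) true (nat_lit 11) true (nat_lit 10) (.s true (nat_lit 3) (nat_lit 16) (nat_lit 1) (nat_lit 4) (nat_lit 2) true (nat_lit 7) true (nat_lit 10) true (nat_lit 1) true (nat_lit 11) true (nat_lit 8) (.s true (nat_lit 2) (nat_lit 17) (nat_lit 1) (nat_lit 4) (nat_lit 2) true (nat_lit 7) true (nat_lit 10) true (nat_lit 1) true (nat_lit 11) true (nat_lit 8) (.s false (nat_lit 1) (nat_lit 16) (nat_lit 2) (nat_lit 1) (nat_lit 4) true (nat_lit 2) true (nat_lit 8) true (nat_lit 1) true (nat_lit 10) true (nat_lit 11) (.s false (nat_lit 2) (nat_lit 16) (nat_lit 2) (nat_lit 3) (nat_lit 2) true (nat_lit 6) true (nat_lit 10) true (nat_lit 1) true (nat_lit 10) true (nat_lit 9) (.s true (nat_lit 1) (nat_lit 17) (nat_lit 2) (nat_lit 3) (nat_lit 2) true (nat_lit 6) true (nat_lit 10)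 true (nat_lit 1) true (nat_lit 10) true (nat_lit 9) (.s true (nat_lit 1) (nat_lit 17) (nat_lit 2) (nat_lit 5) (nat_lit 0) true (nat_lit 8) true (nat_lit 12) true (nat_lit 1) true (nat_lit 10) true (nat_lit 7) (.s true (nat_lit 2) (nat_lit 18) (nat_lit 3) (nat_lit 1) (nat_lit 2) true (nat_lit 4) true (nat_lit 10) true (nat_lit 0) true (nat_lit 9) true (nat_lit 11) (.s false (nat_lit 3) (nat_lit 18) (nat_lit 4) (nat_lit 1) (nat_lit 1) true (nat_lit 4) true (nat_lit 11) true (nat_lit 0) true (nat_lit 8) true (nat_lit 11) (.s true (nat_lit 2) (nat_lit 32) (nat_lit 1) (nat_lit 2) (nat_lit 2) true (nat_lit 7) true (nat_lit 10) false (nat_lit 1) true (nat_lit 11) true (nat_lit 10) (.s false (nat_lit 1) (nat_lit 33) (nat_lit 1) (nat_lit 2) (nat_lit 2) true (nat_lit 7) true (nat_lit 10) false (nat_lit 1) true (nat_lit 11) true (nat_lit 10) (.s false (nat_lit 1) (nat_lit 35) (nat_lit 1) (nat_lit 2) (nat_lit 2) true (nat_lit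 7) true (nat_lit 10) false (nat_lit 1) true (nat_lit 11) true (nat_lit 10) (.s true (nat_lit 1) (nat_lit 32) (nat_lit 2) (nat_lit 1) (nat_lit 2) true (nat_lit 6) true (nat_lit 10) false (nat_lit 1) true (nat_lit 10) true (nat_lit 11) (.s false (nat_lit 2) (nat_lit 34) (nat_lit 2) (nat_lit 1) (nat_lit 2) true (nat_lit 6) true (nat_lit 10) false (nat_lit 1) true (nat_lit 10) true (nat_lit 11) (.s false (nat_lit 2) (nat_lit 35) (nat_lit 2) (nat_lit 1) (nat_lit 2) true (nat_lit 6) true (nat_lit 10) false (nat_lit 1) true (nat_lit 10) true (nat_lit 11) (.s true (nat_lit 1) (nat_lit 36) (nat_lit 2) (nat_lit 1) (nat_lit 2) true (nat_lit 6) true (nat_lit 10) false (nat_lit 1) true (nat_lit 10) true (nat_lit 11) (.s true (nat_lit 3) (nat_lit 32) (nat_lit 2) (nat_lit 2) (nat_lit 1) true (nat_lit 7) true (nat_lit 11) false (nat_lit 1) true (nat_lit 10) true (nat_lit 10) (.s true (nat_lit 2) (nat_lit 33) (nat_lit 2) (nat_lit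 2) (nat_lit 1) true (nat_lit 7) true (nat_lit 11) false (nat_lit 1) true (nat_lit 10) true (nat_lit 10) (.s false (nat_lit 3) (nat_lit 34) (nat_lit 2) (nat_lit 2) (nat_lit 1) true (nat_lit 7) true (nat_lit 11) false (nat_lit 1) true (nat_lit 10) true (nat_lit 10) (.s false (nat_lit 2) (nat_lit 35) (nat_lit 2) (nat_lit 2) (nat_lit 1) true (nat_lit 7) true (nat_lit 11) false (nat_lit 1) true (nat_lit 10) true (nat_lit 10) (.s false (nat_lit 1) (nat_lit 36) (nat_lit 2) (nat_lit 2) (nat_lit 1) true (nat_lit 7) true (nat_lit 11) false (nat_lit 1) true (nat_lit 10) true (nat_lit 10) (.s false (nat_lit 3) (nat_lit 37) (nat_lit 2) (nat_lit 0) (nat_lit 2) true (nat_lit 6) true (nat_lit 10) false (nat_lit 2) true (nat_lit 10) true (nat_lit 12) (.s true (nat_lit 1) (nat_lit 38) (nat_lit 2) (nat_lit 0) (nat_lit 2) true (nat_lit 6) true (nat_lit 10) false (nat_lit 2) true (nat_lit 10) true (nat_lit 12) (.s false (nat_lit 2)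 (nat_lit 40) (nat_lit 1) (nat_lit 1) (nat_lit 2) true (nat_lit 7) true (nat_lit 10) false (nat_lit 3) true (nat_lit 11) true (nat_lit 11) (.s false (nat_lit 2) (nat_lit 41) (nat_lit 1) (nat_lit 2) (nat_lit 1) false (nat_lit 13) true (nat_lit 11) false (nat_lit 3) true (nat_lit 11) true (nat_lit 10) dC1d_i30)))))))))))))))))))))))))

noncomputable def dC1d_i32 : IL := (.e true (nat_lit 1) (nat_lit 297) (nat_lit 0) (nat_lit 19) (.e false (nat_lit 2) (nat_lit 298) (nat_lit 0) (nat_lit 19) (.e true (nat_lit 3) (nat_lit 299) (nat_lit 0) (nat_lit 19) (.e true (nat_lit 1) (nat_lit 300) (nat_lit 0) (nat_lit 19) (.e false (nat_lit 1) (nat_lit 302) (nat_lit 0) (nat_lit 19) (.e false (nat_lit 3) (nat_lit 304) (nat_lit 0) (nat_lit 19) (.e false (nat_lit 3) (nat_lit 305) (nat_lit 0) (nat_lit 19) (.e false (nat_lit 3) (nat_lit 309) (nat_lit 0) (nat_lit 19) (.e false (nat_lit 3) (nat_lit 311) (nat_lit 0) (nat_lit 19) (.e true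 (nat_lit 3) (nat_lit 313) (nat_lit 0) (nat_lit 19) (.e false (nat_lit 3) (nat_lit 317) (nat_lit 0) (nat_lit 19) (.e false (nat_lit 2) (nat_lit 319) (nat_lit 0) (nat_lit 19) (.e false (nat_lit 1) (nat_lit 291) (nat_lit 0) (nat_lit 19) (.e true (nat_lit 2) (nat_lit 293) (nat_lit 0) (nat_lit 19) (.e false (nat_lit 3) (nat_lit 301) (nat_lit 0) (nat_lit 19) (.e false (nat_lit 3) (nat_lit 314) (nat_lit 0) (nat_lit 19) (.e false (nat_lit 3) (nat_lit 315) (nat_lit 0) (nat_lit 19) (.e true (nat_lit 1) (nat_lit 316) (nat_lit 0) (nat_lit 19) (.e true (nat_lit 3) (nat_lit 282) (nat_lit 1) (nat_lit 18) (.e false (nat_lit 1) (nat_lit 139) (nat_lit 5) (nat_lit 14) (.e true (nat_lit 2) (nat_lit 157) (nat_lit 4) (nat_lit 15) (.e false (nat_lit 3) (nat_lit 259) (nat_lit 2) (nat_lit 17) (.u (nat_lit 2) (.p (nat_lit 1) (nat_lit 1) (.n (nat_lit 3) (nat_lit 2) (.n (nat_lit 7) (nat_lit 1) (.p (nat_lit 8) (nat_lit 5) (.n (nat_lit 9) (nat_lit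 1) (.p (nat_lit 10) (nat_lit 4) (.n (nat_lit 12) (nat_lit 4) (.n (nat_lit 13) (nat_lit 1) (.n (nat_lit 14) (nat_lit 4) (.n (nat_lit 15) (nat_lit 3) (.p (nat_lit 17) (nat_lit 1) (.p (nat_lit 18) (nat_lit 1) (.p (nat_lit 19) (nat_lit 5) (.n (nat_lit 20) (nat_lit 3) (.p (nat_lit 21) (nat_lit 1) (.n (nat_lit 23) (nat_lit 2) (.p (nat_lit 26) (nat_lit 2) (.n (nat_lit 27) (nat_lit 5) (.n (nat_lit 28) (nat_lit 2) (.p (nat_lit 29) (nat_lit 2) (.n (nat_lit 32) (nat_lit 3) (.n (nat_lit 34) (nat_lit 1) (.n (nat_lit 35) (nat_lit 1) (.p (nat_lit 36) (nat_lit 2) (.n (nat_lit 37) (nat_lit 3) (.p (nat_lit 38) (nat_lit 5) (.p (nat_lit 39) (nat_lit 1) (.n (nat_lit 40) (nat_lit 1) (.p (nat_lit 41) (nat_lit 2) (.p (nat_lit 46) (nat_lit 1) (.n (nat_lit 48) (nat_lit 1) (.p (nat_lit 50) (nat_lit 1) (.p (nat_lit 52) (nat_lit 2) (.n (nat_lit 55) (nat_lit 1) (.n (nat_lit 56) (nat_lit 1) (.p (nat_lit 57) (nat_lit 1) (.n (nat_lit 59) (nat_lit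 2) (.p (nat_lit 60) (nat_lit 1) (.n (nat_lit 61) (nat_lit 1) (.n (nat_lit 62) (nat_lit 1) (.p (nat_lit 63) (nat_lit 1) (.p (nat_lit 67) (nat_lit 1) (.n (nat_lit 68) (nat_lit 2) (.n (nat_lit 69) (nat_lit 1) (.n (nat_lit 70) (nat_lit 2) (.p (nat_lit 71) (nat_lit 1) (.p (nat_lit 146) (nat_lit 1) (.p (nat_lit 169) (nat_lit 1) (.p (nat_lit 171) (nat_lit 1) (.n (nat_lit 182) (nat_lit 2) (.n (nat_lit 183) (nat_lit 1) (.n (nat_lit 185) (nat_lit 1) (.p (nat_lit 187) (nat_lit 1) (.p (nat_lit 188) (nat_lit 2) (.p (nat_lit 190) (nat_lit 1) (.n (nat_lit 192) (nat_lit 1) (.p (nat_lit 220) (nat_lit 1) (.n (nat_lit 237) (nat_lit 1) (.n (nat_lit 238) (nat_lit 2) (.p (nat_lit 239) (nat_lit 1) .z)))))))))))))))))))))))))))))))))))))))))))))))))))))))))))) (.u (nat_lit 2) (.n (nat_lit 245) (nat_lit 1) (.n (nat_lit 249) (nat_lit 1) (.p (nat_lit 266) (nat_lit 1) (.n (nat_lit 311) (nat_lit 3) (.n (nat_lit 312) (nat_lit 1) (.p (nat_lit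 314) (nat_lit 2) (.p (nat_lit 315) (nat_lit 3) (.n (nat_lit 316) (nat_lit 1) (.n (nat_lit 317) (nat_lit 2) (.p (nat_lit 319) (nat_lit 3) (.p (nat_lit 320) (nat_lit 1) (.p (nat_lit 321) (nat_lit 1) (.n (nat_lit 322) (nat_lit 2) (.n (nat_lit 323) (nat_lit 1) (.n (nat_lit 324) (nat_lit 3) (.p (nat_lit 325) (nat_lit 1) (.n (nat_lit 326) (nat_lit 2) (.n (nat_lit 327) (nat_lit 3) (.p (nat_lit 328) (nat_lit 5) (.p (nat_lit 329) (nat_lit 4) (.n (nat_lit 330) (nat_lit 17) (.n (nat_lit 331) (nat_lit 2) (.n (nat_lit 332) (nat_lit 4) (.p (nat_lit 333) (nat_lit 11) (.n (nat_lit 334) (nat_lit 7) (.p (nat_lit 335) (nat_lit 6) (.p (nat_lit 336) (nat_lit 3) (.n (nat_lit 337) (nat_lit 8) (.n (nat_lit 338) (nat_lit 8) (.p (nat_lit 339) (nat_lit 3) (.p (nat_lit 340) (nat_lit 4) (.p (nat_lit 341) (nat_lit 1) (.p (nat_lit 342) (nat_lit 1) (.p (nat_lit 343) (nat_lit 4) (.n (nat_lit 344) (nat_lit 10) (.n (nat_lit 345) (nat_lit 7) (.n (nat_lit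 346) (nat_lit 10) (.p (nat_lit 347) (nat_lit 8) (.n (nat_lit 348) (nat_lit 7) (.n (nat_lit 349) (nat_lit 12) (.n (nat_lit 350) (nat_lit 7) (.n (nat_lit 351) (nat_lit 12) (.p (nat_lit 352) (nat_lit 10) (.n (nat_lit 354) (nat_lit 1) (.n (nat_lit 355) (nat_lit 14) (.p (nat_lit 356) (nat_lit 13) (.p (nat_lit 357) (nat_lit 9) (.n (nat_lit 358) (nat_lit 1) (.n (nat_lit 359) (nat_lit 1) (.p (nat_lit 360) (nat_lit 2) (.n (nat_lit 361) (nat_lit 15) (.p (nat_lit 362) (nat_lit 8) (.n (nat_lit 363) (nat_lit 14) (.n (nat_lit 364) (nat_lit 2) (.p (nat_lit 365) (nat_lit 4) (.p (nat_lit 366) (nat_lit 2) (.n (nat_lit 367) (nat_lit 4) (.n (nat_lit 368) (nat_lit 1) (.n (nat_lit 369) (nat_lit 1) (.n (nat_lit 371) (nat_lit 6) .z)))))))))))))))))))))))))))))))))))))))))))))))))))))))))))) (.u (nat_lit 2) (.p (nat_lit 372) (nat_lit 4) (.n (nat_lit 373) (nat_lit 1) (.n (nat_lit 374) (nat_lit 2) (.p (nat_lit 375) (nat_lit 8) (.p (nat_lit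 376) (nat_lit 3) (.n (nat_lit 377) (nat_lit 8) (.n (nat_lit 378) (nat_lit 3) (.p (nat_lit 379) (nat_lit 6) (.p (nat_lit 380) (nat_lit 19) (.p (nat_lit 381) (nat_lit 7) (.p (nat_lit 382) (nat_lit 10) (.n (nat_lit 383) (nat_lit 2) (.n (nat_lit 384) (nat_lit 12) (.p (nat_lit 385) (nat_lit 3) (.p (nat_lit 386) (nat_lit 14) (.n (nat_lit 388) (nat_lit 14) (.p (nat_lit 389) (nat_lit 21) (.p (nat_lit 390) (nat_lit 1) (.n (nat_lit 392) (nat_lit 7) (.n (nat_lit 393) (nat_lit 2) (.n (nat_lit 394) (nat_lit 26) (.p (nat_lit 395) (nat_lit 9) (.n (nat_lit 396) (nat_lit 3) (.p (nat_lit 397) (nat_lit 5) (.n (nat_lit 398) (nat_lit 6) (.n (nat_lit 399) (nat_lit 1) (.p (nat_lit 400) (nat_lit 11) (.p (nat_lit 401) (nat_lit 7) (.p (nat_lit 402) (nat_lit 15) (.p (nat_lit 403) (nat_lit 14) (.n (nat_lit 404) (nat_lit 2) (.p (nat_lit 405) (nat_lit 7) (.n (nat_lit 406) (nat_lit 5) (.n (nat_lit 407) (nat_lit 17) (.p (nat_lit 408) (nat_lit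 29) (.n (nat_lit 409) (nat_lit 8) (.n (nat_lit 410) (nat_lit 1) (.p (nat_lit 411) (nat_lit 4) (.p (nat_lit 412) (nat_lit 2) (.n (nat_lit 413) (nat_lit 3) (.p (nat_lit 414) (nat_lit 14) (.p (nat_lit 416) (nat_lit 5) (.p (nat_lit 417) (nat_lit 5) (.p (nat_lit 418) (nat_lit 1) (.n (nat_lit 419) (nat_lit 22) (.p (nat_lit 420) (nat_lit 2) (.n (nat_lit 421) (nat_lit 1) (.n (nat_lit 422) (nat_lit 19) (.n (nat_lit 423) (nat_lit 14) (.p (nat_lit 424) (nat_lit 2) (.p (nat_lit 425) (nat_lit 17) (.n (nat_lit 426) (nat_lit 5) (.n (nat_lit 427) (nat_lit 1) (.n (nat_lit 428) (nat_lit 10) (.n (nat_lit 429) (nat_lit 6) (.n (nat_lit 430) (nat_lit 5) (.n (nat_lit 431) (nat_lit 7) (.p (nat_lit 432) (nat_lit 7) (.n (nat_lit 433) (nat_lit 3) (.p (nat_lit 434) (nat_lit 6) .z)))))))))))))))))))))))))))))))))))))))))))))))))))))))))))) .nil)))))))))))))))))))))))))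

noncomputable def dC1d_i33 : IL := (.e false (nat_lit 1) (nat_lit 258) (nat_lit 2) (nat_lit 17) (.e true (nat_lit 3) (nat_lit 260) (nat_lit 1) (nat_lit 18) (.e false (nat_lit 2) (nat_lit 261) (nat_lit 1) (nat_lit 18) (.e true (nat_lit 1) (nat_lit 263) (nat_lit 1) (nat_lit 18) (.e true (nat_lit 2) (nat_lit 264) (nat_lit 1) (nat_lit 18) (.e true (nat_lit 2) (nat_lit 265) (nat_lit 1) (nat_lit 18) (.e false (nat_lit 1) (nat_lit 266) (nat_lit 1) (nat_lit 18) (.e false (nat_lit 2) (nat_lit 267) (nat_lit 1) (nat_lit 18) (.e false (nat_lit 1) (nat_lit 269) (nat_lit 1) (nat_lit 18) (.e true (nat_lit 2) (nat_lit 270) (nat_lit 1) (nat_lit 18) (.e false (nat_lit 2) (nat_lit 271) (nat_lit 1) (nat_lit 18) (.e false (nat_lit 3) (nat_lit 272) (nat_lit 1) (nat_lit 18) (.e false (nat_lit 1) (nat_lit 274) (nat_lit 1) (nat_lit 18) (.e true (nat_lit 1) (nat_lit 278) (nat_lit 1) (nat_lit 18) (.e false (nat_lit 3) (nat_lit 279) (nat_lit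 1) (nat_lit 18) (.e false (nat_lit 1) (nat_lit 280) (nat_lit 1) (nat_lit 18) (.e true (nat_lit 3) (nat_lit 285) (nat_lit 1) (nat_lit 18) (.e true (nat_lit 1) (nat_lit 286) (nat_lit 1) (nat_lit 18) (.e true (nat_lit 1) (nat_lit 288) (nat_lit 1) (nat_lit 18) (.e false (nat_lit 2) (nat_lit 262) (nat_lit 1) (nat_lit 18) (.e false (nat_lit 1) (nat_lit 283) (nat_lit 1) (nat_lit 18) (.e false (nat_lit 1) (nat_lit 268) (nat_lit 1) (nat_lit 18) (.e false (nat_lit 2) (nat_lit 290) (nat_lit 0) (nat_lit 19) (.e true (nat_lit 3) (nat_lit 292) (nat_lit 0) (nat_lit 19) (.e true (nat_lit 1) (nat_lit 295) (nat_lit 0) (nat_lit 19) dC1d_i32)))))))))))))))))))))))))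

noncomputable def dC1d_i34 : IL := (.e false (nat_lit 2) (nat_lit 216) (nat_lit 2) (nat_lit 17) (.e false (nat_lit 2) (nat_lit 217) (nat_lit 2) (nat_lit 17) (.e true (nat_lit 1) (nat_lit 218) (nat_lit 2) (nat_lit 17) (.e false (nat_lit 1) (nat_lit 221) (nat_lit 2) (nat_lit 17) (.e false (nat_lit 1) (nat_lit 223) (nat_lit 2) (nat_lit 17) (.e true (nat_lit 1) (nat_lit 224) (nat_lit 2) (nat_lit 17) (.e true (nat_lit 2) (nat_lit 226) (nat_lit 2) (nat_lit 17) (.e false (nat_lit 3) (nat_lit 227) (nat_lit 2) (nat_lit 17) (.e true (nat_lit 1) (nat_lit 228) (nat_lit 2) (nat_lit 17) (.e true (nat_lit 3) (nat_lit 233) (nat_lit 2) (nat_lit 17) (.e false (nat_lit 3) (nat_lit 235) (nat_lit 2) (nat_lit 17) (.e true (nat_lit 1) (nat_lit 239) (nat_lit 2) (nat_lit 17) (.e false (nat_lit 2) (nat_lit 242) (nat_lit 2) (nat_lit 17) (.e true (nat_lit 3) (nat_lit 244) (nat_lit 2) (nat_lit 17) (.e false (nat_lit 1) (nat_lit 245) (nat_lit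 2) (nat_lit 17) (.e true (nat_lit 2) (nat_lit 246) (nat_lit 2) (nat_lit 17) (.e false (nat_lit 2) (nat_lit 247) (nat_lit 2) (nat_lit 17) (.e false (nat_lit 1) (nat_lit 212) (nat_lit 2) (nat_lit 17) (.e false (nat_lit 1) (nat_lit 219) (nat_lit 2) (nat_lit 17) (.e true (nat_lit 1) (nat_lit 234) (nat_lit 2) (nat_lit 17) (.e false (nat_lit 2) (nat_lit 237) (nat_lit 2) (nat_lit 17) (.e true (nat_lit 3) (nat_lit 215) (nat_lit 2) (nat_lit 17) (.e false (nat_lit 3) (nat_lit 249) (nat_lit 2) (nat_lit 17) (.e true (nat_lit 1) (nat_lit 251) (nat_lit 2) (nat_lit 17) (.e false (nat_lit 2) (nat_lit 252) (nat_lit 2) (nat_lit 17) dC1d_i33)))))))))))))))))))))))))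

noncomputable def dC1d_i35 : IL := (.s true (nat_lit 1) (nat_lit 74) (nat_lit 0) (nat_lit 2) (nat_lit 2) true (nat_lit 15) true (nat_lit 17) false (nat_lit 7) true (nat_lit 19) true (nat_lit 17) (.s true (nat_lit 3) (nat_lit 66) (nat_lit 2) (nat_lit 0) (nat_lit 2) true (nat_lit 13) true (nat_lit 17) false (nat_lit 7) true (nat_lit 17) true (nat_lit 19) (.s true (nat_lit 3) (nat_lit 66) (nat_lit 2) (nat_lit 2) (nat_lit 0) true (nat_lit 15) true (nat_lit 19) false (nat_lit 7) true (nat_lit 17) true (nat_lit 17) (.s true (nat_lit 2) (nat_lit 82) (nat_lit 0) (nat_lit 1) (nat_lit 2) true (nat_lit 15) true (nat_lit 17) false (nat_lit 9) true (nat_lit 19) true (nat_lit 18) (.s true (nat_lit 2) (nat_lit 90) (nat_lit 0) (nat_lit 1) (nat_lit 2) true (nat_lit 15) true (nat_lit 17) false (nat_lit 9) true (nat_lit 19) true (nat_lit 18) (.s false (nat_lit 3) (nat_lit 82) (nat_lit 0) (nat_lit 2) (nat_lit 1) true (nat_lit 16)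 true (nat_lit 18) false (nat_lit 9) true (nat_lit 19) true (nat_lit 17) (.s false (nat_lit 3) (nat_lit 82) (nat_lit 1) (nat_lit 2) (nat_lit 0) true (nat_lit 16) true (nat_lit 19) false (nat_lit 9) true (nat_lit 18) true (nat_lit 17) (.s true (nat_lit 2) (nat_lit 90) (nat_lit 1) (nat_lit 2) (nat_lit 0) true (nat_lit 16) true (nat_lit 19) false (nat_lit 9) true (nat_lit 18) true (nat_lit 17) (.s true (nat_lit 2) (nat_lit 82) (nat_lit 2) (nat_lit 1) (nat_lit 0) true (nat_lit 15) true (nat_lit 19) false (nat_lit 9) true (nat_lit 17) true (nat_lit 18) (.s true (nat_lit 2) (nat_lit 90) (nat_lit 2) (nat_lit 1) (nat_lit 0) true (nat_lit 15) true (nat_lit 19) false (nat_lit 9) true (nat_lit 17) true (nat_lit 18) (.s false (nat_lit 1) (nat_lit 98) (nat_lit 0) (nat_lit 1) (nat_lit 1) true (nat_lit 16) true (nat_lit 18) false (nat_lit 11) true (nat_lit 19) true (nat_lit 18) (.s false (nat_lit 2) (nat_lit 99) (nat_lit 1) (nat_lit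 0) (nat_lit 1) false (nat_lit 21) true (nat_lit 18) false (nat_lit 11) true (nat_lit 18) true (nat_lit 19) (.s false (nat_lit 3) (nat_lit 100) (nat_lit 1) (nat_lit 0) (nat_lit 1) false (nat_lit 21) true (nat_lit 18) false (nat_lit 11) true (nat_lit 18) true (nat_lit 19) (.s true (nat_lit 3) (nat_lit 101) (nat_lit 1) (nat_lit 0) (nat_lit 1) false (nat_lit 21) true (nat_lit 18) false (nat_lit 11) true (nat_lit 18) true (nat_lit 19) (.s false (nat_lit 1) (nat_lit 98) (nat_lit 1) (nat_lit 1) (nat_lit 0) true (nat_lit 16) true (nat_lit 19) false (nat_lit 11) true (nat_lit 18) true (nat_lit 18) (.s false (nat_lit 2) (nat_lit 104) (nat_lit 0) (nat_lit 0) (nat_lit 1) true (nat_lit 16) true (nat_lit 18) false (nat_lit 12) true (nat_lit 19) true (nat_lit 19) (.s false (nat_lit 2) (nat_lit 105) (nat_lit 0) (nat_lit 0) (nat_lit 1) true (nat_lit 16) true (nat_lit 18) false (nat_lit 12) true (nat_lit 19) true (nat_lit 19) (.s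 true (nat_lit 1) (nat_lit 102) (nat_lit 0) (nat_lit 1) (nat_lit 0) false (nat_lit 20) true (nat_lit 19) false (nat_lit 12) true (nat_lit 19) true (nat_lit 18) (.s false (nat_lit 1) (nat_lit 103) (nat_lit 0) (nat_lit 1) (nat_lit 0) false (nat_lit 20) true (nat_lit 19) false (nat_lit 12) true (nat_lit 19) true (nat_lit 18) (.s true (nat_lit 3) (nat_lit 104) (nat_lit 0) (nat_lit 1) (nat_lit 0) false (nat_lit 20) true (nat_lit 19) false (nat_lit 12) true (nat_lit 19) true (nat_lit 18) (.s true (nat_lit 3) (nat_lit 105) (nat_lit 0) (nat_lit 1) (nat_lit 0) false (nat_lit 20) true (nat_lit 19) false (nat_lit 12) true (nat_lit 19) true (nat_lit 18) (.a true (nat_lit 3) (nat_lit 31) (nat_lit 31) (nat_lit 0) (nat_lit 0) (.a false (nat_lit 1) (nat_lit 31) (nat_lit 35) (nat_lit 0) (nat_lit 0) (.e false (nat_lit 3) (nat_lit 213) (nat_lit 2) (nat_lit 17) (.e false (nat_lit 3) (nat_lit 214) (nat_lit 2) (nat_lit 17) dC1d_i34)))))))))))))))))))))))))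

noncomputable def dC1d_i36 : IL := (.s false (nat_lit 1) (nat_lit 35) (nat_lit 0) (nat_lit 1) (nat_lit 6) true (nat_lit 7) true (nat_lit 13) true (nat_lit 0) true (nat_lit 19) true (nat_lit 18) (.s false (nat_lit 2) (nat_lit 31) (nat_lit 0) (nat_lit 2) (nat_lit 5) true (nat_lit 9) true (nat_lit 14) true (nat_lit 0) true (nat_lit 19) true (nat_lit 17) (.s true (nat_lit 3) (nat_lit 31) (nat_lit 1) (nat_lit 2) (nat_lit 4) true (nat_lit 9) true (nat_lit 15) true (nat_lit 0) true (nat_lit 18) true (nat_lit 17) (.s true (nat_lit 1) (nat_lit 35) (nat_lit 2) (nat_lit 2) (nat_lit 3) true (nat_lit 9) true (nat_lit 16) true (nat_lit 0) true (nat_lit 17) true (nat_lit 17) (.s false (nat_lit 1) (nat_lit 31) (nat_lit 2) (nat_lit 5) (nat_lit 0) true (nat_lit 15) true (nat_lit 19) true (nat_lit 0) true (nat_lit 17) true (nat_lit 14) (.s false (nat_lit 1) (nat_lit 35) (nat_lit 3) (nat_lit 2) (nat_lit 2) true (nat_lit 9) true (nat_lit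 17) true (nat_lit 0) true (nat_lit 16) true (nat_lit 17) (.s false (nat_lit 1) (nat_lit 31) (nat_lit 4) (nat_lit 1) (nat_lit 2) true (nat_lit 7) true (nat_lit 17) true (nat_lit 0) true (nat_lit 15) true (nat_lit 18) (.s true (nat_lit 3) (nat_lit 35) (nat_lit 6) (nat_lit 0) (nat_lit 1) true (nat_lit 6) true (nat_lit 18) true (nat_lit 0) true (nat_lit 13) true (nat_lit 19) (.s true (nat_lit 3) (nat_lit 39) (nat_lit 6) (nat_lit 0) (nat_lit 0) true (nat_lit 7) true (nat_lit 19) false (nat_lit 1) true (nat_lit 13) true (nat_lit 19) (.s false (nat_lit 2) (nat_lit 46) (nat_lit 1) (nat_lit 0) (nat_lit 3) true (nat_lit 11) true (nat_lit 16) false (nat_lit 4) true (nat_lit 18) true (nat_lit 19) (.s true (nat_lit 3) (nat_lit 48) (nat_lit 2) (nat_lit 2) (nat_lit 2) true (nat_lit 13) true (nat_lit 17) false (nat_lit 5) true (nat_lit 17) true (nat_lit 17) (.s true (nat_lit 3) (nat_lit 52) (nat_lit 2) (nat_lit 2) (nat_lit 2) true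 (nat_lit 13) true (nat_lit 17) false (nat_lit 5) true (nat_lit 17) true (nat_lit 17) (.s true (nat_lit 3) (nat_lit 54) (nat_lit 2) (nat_lit 2) (nat_lit 2) true (nat_lit 13) true (nat_lit 17) false (nat_lit 5) true (nat_lit 17) true (nat_lit 17) (.s true (nat_lit 2) (nat_lit 55) (nat_lit 1) (nat_lit 2) (nat_lit 2) true (nat_lit 14) true (nat_lit 17) false (nat_lit 6) true (nat_lit 18) true (nat_lit 17) (.s false (nat_lit 3) (nat_lit 61) (nat_lit 1) (nat_lit 2) (nat_lit 2) true (nat_lit 14) true (nat_lit 17) false (nat_lit 6) true (nat_lit 18) true (nat_lit 17) (.s true (nat_lit 2) (nat_lit 64) (nat_lit 1) (nat_lit 2) (nat_lit 2) true (nat_lit 14) true (nat_lit 17) false (nat_lit 6) true (nat_lit 18) true (nat_lit 17) (.s false (nat_lit 3) (nat_lit 65) (nat_lit 1) (nat_lit 2) (nat_lit 2) true (nat_lit 14) true (nat_lit 17) false (nat_lit 6) true (nat_lit 18) true (nat_lit 17) (.s true (nat_lit 3) (nat_lit 55) (nat_lit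 2) (nat_lit 1) (nat_lit 2) true (nat_lit 13) true (nat_lit 17) false (nat_lit 6) true (nat_lit 17) true (nat_lit 18) (.s false (nat_lit 3) (nat_lit 61) (nat_lit 2) (nat_lit 1) (nat_lit 2) true (nat_lit 13) true (nat_lit 17) false (nat_lit 6) true (nat_lit 17) true (nat_lit 18) (.s true (nat_lit 2) (nat_lit 64) (nat_lit 2) (nat_lit 1) (nat_lit 2) true (nat_lit 13) true (nat_lit 17) false (nat_lit 6) true (nat_lit 17) true (nat_lit 18) (.s false (nat_lit 2) (nat_lit 55) (nat_lit 2) (nat_lit 2) (nat_lit 1) true (nat_lit 14) true (nat_lit 18) false (nat_lit 6) true (nat_lit 17) true (nat_lit 17) (.s true (nat_lit 3) (nat_lit 61) (nat_lit 2) (nat_lit 2) (nat_lit 1) true (nat_lit 14) true (nat_lit 18) false (nat_lit 6) true (nat_lit 17) true (nat_lit 17) (.s false (nat_lit 2) (nat_lit 64) (nat_lit 2) (nat_lit 2) (nat_lit 1) true (nat_lit 14) true (nat_lit 18) false (nat_lit 6) true (nat_lit 17) true (nat_lit 17) (.s false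 (nat_lit 2) (nat_lit 66) (nat_lit 0) (nat_lit 2) (nat_lit 2) true (nat_lit 15) true (nat_lit 17) false (nat_lit 7) true (nat_lit 19) true (nat_lit 17) (.s false (nat_lit 1) (nat_lit 70) (nat_lit 0) (nat_lit 2) (nat_lit 2) true (nat_lit 15) true (nat_lit 17) false (nat_lit 7) true (nat_lit 19) true (nat_lit 17) dC1d_i35)))))))))))))))))))))))))

noncomputable def dC1d_i37 : IL := (.s false (nat_lit 1) (nat_lit 8) (nat_lit 4) (nat_lit 2) (nat_lit 6) false (nat_lit 2) true (nat_lit 13) true (nat_lit 11) true (nat_lit 15) true (nat_lit 17) (.s true (nat_lit 1) (nat_lit 8) (nat_lit 6) (nat_lit 0) (nat_lit 6) false (nat_lit 4) true (nat_lit 13) true (nat_lit 11) true (nat_lit 13) true (nat_lit 19) (.s false (nat_lit 3) (nat_lit 8) (nat_lit 6) (nat_lit 2) (nat_lit 4) false (nat_lit 2) true (nat_lit 15) true (nat_lit 11) true (nat_lit 13) true (nat_lit 17) (.s true (nat_lit 3) (nat_lit 8) (nat_lit 6) (nat_lit 6) (nat_lit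 0) true (nat_lit 7) true (nat_lit 19) true (nat_lit 11) true (nat_lit 13) true (nat_lit 13) (.s false (nat_lit 2) (nat_lit 10) (nat_lit 2) (nat_lit 2) (nat_lit 10) true (nat_lit 0) true (nat_lit 9) true (nat_lit 9) true (nat_lit 17) true (nat_lit 17) (.s false (nat_lit 3) (nat_lit 15) (nat_lit 1) (nat_lit 1) (nat_lit 15) true (nat_lit 0) true (nat_lit 7) true (nat_lit 7) true (nat_lit 18) true (nat_lit 18) (.s true (nat_lit 1) (nat_lit 14) (nat_lit 2) (nat_lit 2) (nat_lit 8) true (nat_lit 2) true (nat_lit 11) true (nat_lit 7) true (nat_lit 17) true (nat_lit 17) (.s false (nat_lit 2) (nat_lit 15) (nat_lit 2) (nat_lit 8) (nat_lit 2) true (nat_lit 13) true (nat_lit 17) true (nat_lit 7) true (nat_lit 17) true (nat_lit 11) (.s false (nat_lit 1) (nat_lit 15) (nat_lit 8) (nat_lit 2) (nat_lit 2) true (nat_lit 2) true (nat_lit 17) true (nat_lit 7) true (nat_lit 11) true (nat_lit 17) (.s false (nat_lit 3) (nat_lit 17) (nat_lit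 0) (nat_lit 15) (nat_lit 1) true (nat_lit 16) true (nat_lit 18) true (nat_lit 6) true (nat_lit 19) true (nat_lit 7) (.s true (nat_lit 3) (nat_lit 17) (nat_lit 1) (nat_lit 15) (nat_lit 0) true (nat_lit 16) true (nat_lit 19) true (nat_lit 6) true (nat_lit 18) true (nat_lit 7) (.s false (nat_lit 1) (nat_lit 16) (nat_lit 2) (nat_lit 7) (nat_lit 2) true (nat_lit 13) true (nat_lit 17) true (nat_lit 6) true (nat_lit 17) true (nat_lit 12) (.s true (nat_lit 2) (nat_lit 17) (nat_lit 2) (nat_lit 7) (nat_lit 2) true (nat_lit 13) true (nat_lit 17) true (nat_lit 6) true (nat_lit 17) true (nat_lit 12) (.s true (nat_lit 2) (nat_lit 16) (nat_lit 7) (nat_lit 2) (nat_lit 2) true (nat_lit 3) true (nat_lit 17) true (nat_lit 6) true (nat_lit 12) true (nat_lit 17) (.s false (nat_lit 3) (nat_lit 17) (nat_lit 15) (nat_lit 1) (nat_lit 0) true (nat_lit 1) true (nat_lit 19) true (nat_lit 6) true (nat_lit 7) true (nat_lit 18) (.s true (nat_lit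 1) (nat_lit 18) (nat_lit 0) (nat_lit 2) (nat_lit 8) true (nat_lit 4) true (nat_lit 11) true (nat_lit 5) true (nat_lit 19) true (nat_lit 17) (.s false (nat_lit 1) (nat_lit 18) (nat_lit 1) (nat_lit 2) (nat_lit 7) true (nat_lit 4) true (nat_lit 12) true (nat_lit 5) true (nat_lit 18) true (nat_lit 17) (.s true (nat_lit 2) (nat_lit 18) (nat_lit 2) (nat_lit 0) (nat_lit 8) true (nat_lit 2) true (nat_lit 11) true (nat_lit 5) true (nat_lit 17) true (nat_lit 19) (.s true (nat_lit 1) (nat_lit 18) (nat_lit 2) (nat_lit 7) (nat_lit 1) true (nat_lit 14) true (nat_lit 18) true (nat_lit 5) true (nat_lit 17) true (nat_lit 12) (.s false (nat_lit 3) (nat_lit 18) (nat_lit 2) (nat_lit 8) (nat_lit 0) true (nat_lit 15) true (nat_lit 19) true (nat_lit 5) true (nat_lit 17) true (nat_lit 11) (.s false (nat_lit 2) (nat_lit 20) (nat_lit 5) (nat_lit 2) (nat_lit 2) true (nat_lit 6) true (nat_lit 17) true (nat_lit 3) true (nat_lit 14) true (nat_lit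 17) (.s true (nat_lit 2) (nat_lit 24) (nat_lit 0) (nat_lit 2) (nat_lit 6) true (nat_lit 7) true (nat_lit 13) true (nat_lit 2) true (nat_lit 19) true (nat_lit 17) (.s true (nat_lit 1) (nat_lit 24) (nat_lit 2) (nat_lit 4) (nat_lit 2) true (nat_lit 13) true (nat_lit 17) true (nat_lit 2) true (nat_lit 17) true (nat_lit 15) (.s false (nat_lit 2) (nat_lit 24) (nat_lit 4) (nat_lit 2) (nat_lit 2) true (nat_lit 7) true (nat_lit 17) true (nat_lit 2) true (nat_lit 15) true (nat_lit 17) (.s false (nat_lit 1) (nat_lit 24) (nat_lit 6) (nat_lit 0) (nat_lit 2) true (nat_lit 5) true (nat_lit 17) true (nat_lit 2) true (nat_lit 13) true (nat_lit 19) dC1d_i36)))))))))))))))))))))))))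

noncomputable def dC1d_i38 : IL := (.e true (nat_lit 1) (nat_lit 290) (nat_lit 2) (nat_lit 13) (.e false (nat_lit 2) (nat_lit 291) (nat_lit 2) (nat_lit 13) (.e true (nat_lit 1) (nat_lit 293) (nat_lit 2) (nat_lit 13) (.e true (nat_lit 2) (nat_lit 295) (nat_lit 2) (nat_lit 13) (.e false (nat_lit 1) (nat_lit 296) (nat_lit 2) (nat_lit 13) (.e true (nat_lit 1) (nat_lit 297) (nat_lit 2) (nat_lit 13) (.e false (nat_lit 1) (nat_lit 298) (nat_lit 2) (nat_lit 13) (.e false (nat_lit 3) (nat_lit 299) (nat_lit 2) (nat_lit 13) (.e true (nat_lit 2) (nat_lit 304) (nat_lit 2) (nat_lit 13) (.e true (nat_lit 2) (nat_lit 307) (nat_lit 2) (nat_lit 13) (.e true (nat_lit 3) (nat_lit 308) (nat_lit 2) (nat_lit 13) (.e false (nat_lit 2) (nat_lit 310) (nat_lit 2) (nat_lit 13) (.e true (nat_lit 3) (nat_lit 317) (nat_lit 2) (nat_lit 13) (.e false (nat_lit 2) (nat_lit 318) (nat_lit 2) (nat_lit 13) (.e false (nat_lit 3) (nat_lit 182) (nat_lit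 5) (nat_lit 10) (.e false (nat_lit 1) (nat_lit 188) (nat_lit 5) (nat_lit 10) (.e false (nat_lit 3) (nat_lit 331) (nat_lit 1) (nat_lit 14) (.e true (nat_lit 1) (nat_lit 333) (nat_lit 1) (nat_lit 14) (.e false (nat_lit 1) (nat_lit 294) (nat_lit 2) (nat_lit 13) (.e true (nat_lit 1) (nat_lit 292) (nat_lit 2) (nat_lit 13) (.e false (nat_lit 2) (nat_lit 192) (nat_lit 5) (nat_lit 10) (.e false (nat_lit 2) (nat_lit 193) (nat_lit 5) (nat_lit 10) (.e false (nat_lit 2) (nat_lit 344) (nat_lit 1) (nat_lit 14) (.u (nat_lit 2) (.p (nat_lit 0) (nat_lit 1) (.n (nat_lit 1) (nat_lit 1) (.n (nat_lit 3) (nat_lit 3) (.p (nat_lit 4) (nat_lit 1) (.p (nat_lit 5) (nat_lit 2) (.n (nat_lit 6) (nat_lit 5) (.p (nat_lit 7) (nat_lit 2) (.n (nat_lit 8) (nat_lit 4) (.p (nat_lit 9) (nat_lit 1) (.n (nat_lit 10) (nat_lit 2) (.p (nat_lit 11) (nat_lit 3) (.p (nat_lit 12) (nat_lit 1) (.p (nat_lit 13) (nat_lit 1) (.n (nat_lit 14) (nat_lit 1) (.p (nat_lit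 15) (nat_lit 1) (.p (nat_lit 16) (nat_lit 2) (.p (nat_lit 17) (nat_lit 2) (.n (nat_lit 18) (nat_lit 4) (.n (nat_lit 19) (nat_lit 2) (.p (nat_lit 20) (nat_lit 4) (.n (nat_lit 21) (nat_lit 2) (.p (nat_lit 22) (nat_lit 1) (.p (nat_lit 23) (nat_lit 5) (.n (nat_lit 26) (nat_lit 5) (.p (nat_lit 29) (nat_lit 6) (.n (nat_lit 30) (nat_lit 1) (.n (nat_lit 32) (nat_lit 1) (.p (nat_lit 33) (nat_lit 2) (.n (nat_lit 148) (nat_lit 1) (.p (nat_lit 149) (nat_lit 1) (.n (nat_lit 150) (nat_lit 1) (.n (nat_lit 151) (nat_lit 1) (.n (nat_lit 154) (nat_lit 1) (.n (nat_lit 155) (nat_lit 1) (.n (nat_lit 173) (nat_lit 1) (.n (nat_lit 175) (nat_lit 1) (.p (nat_lit 176) (nat_lit 3) (.p (nat_lit 177) (nat_lit 1) (.p (nat_lit 178) (nat_lit 2) (.p (nat_lit 179) (nat_lit 7) (.n (nat_lit 180) (nat_lit 7) (.p (nat_lit 181) (nat_lit 1) (.n (nat_lit 182) (nat_lit 3) (.p (nat_lit 183) (nat_lit 2) (.p (nat_lit 184) (nat_lit 2) (.n (nat_lit 185) (nat_lit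 2) (.n (nat_lit 187) (nat_lit 2) (.n (nat_lit 188) (nat_lit 2) (.p (nat_lit 191) (nat_lit 3) (.p (nat_lit 199) (nat_lit 2) (.p (nat_lit 200) (nat_lit 3) (.p (nat_lit 201) (nat_lit 2) (.n (nat_lit 204) (nat_lit 1) (.p (nat_lit 205) (nat_lit 1) (.n (nat_lit 206) (nat_lit 1) (.n (nat_lit 207) (nat_lit 1) (.n (nat_lit 208) (nat_lit 1) (.p (nat_lit 209) (nat_lit 1) (.p (nat_lit 210) (nat_lit 1) (.n (nat_lit 212) (nat_lit 1) .z)))))))))))))))))))))))))))))))))))))))))))))))))))))))))))) (.u (nat_lit 2) (.p (nat_lit 213) (nat_lit 1) (.p (nat_lit 215) (nat_lit 1) .z)) .nil)))))))))))))))))))))))))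

noncomputable def dC1d_i39 : IL := (.e true (nat_lit 2) (nat_lit 77) (nat_lit 5) (nat_lit 7) (.e false (nat_lit 3) (nat_lit 32) (nat_lit 15) (nat_lit 2) (.e false (nat_lit 3) (nat_lit 55) (nat_lit 6) (nat_lit 6) (.e false (nat_lit 3) (nat_lit 56) (nat_lit 6) (nat_lit 6) (.e true (nat_lit 3) (nat_lit 57) (nat_lit 6) (nat_lit 6) (.e false (nat_lit 2) (nat_lit 189) (nat_lit 0) (nat_lit 12) (.e true (nat_lit 1) (nat_lit 193) (nat_lit 0) (nat_lit 12) (.e false (nat_lit 2) (nat_lit 148) (nat_lit 2) (nat_lit 10) (.e false (nat_lit 3) (nat_lit 41) (nat_lit 10) (nat_lit 3) (.e false (nat_lit 1) (nat_lit 31) (nat_lit 15) (nat_lit 2) (.e true (nat_lit 2) (nat_lit 22) (nat_lit 18) (nat_lit 0) (.e true (nat_lit 1) (nat_lit 188) (nat_lit 0) (nat_lit 12) (.e true (nat_lit 1) (nat_lit 192) (nat_lit 0) (nat_lit 12) (.e true (nat_lit 3) (nat_lit 42) (nat_lit 10) (nat_lit 3) (.e true (nat_lit 3) (nat_lit 20) (nat_lit 18) (nat_lit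 0) (.e false (nat_lit 3) (nat_lit 101) (nat_lit 3) (nat_lit 9) (.e true (nat_lit 2) (nat_lit 181) (nat_lit 0) (nat_lit 12) (.e false (nat_lit 3) (nat_lit 183) (nat_lit 0) (nat_lit 12) (.e false (nat_lit 3) (nat_lit 180) (nat_lit 0) (nat_lit 12) (.e false (nat_lit 1) (nat_lit 184) (nat_lit 0) (nat_lit 12) (.e true (nat_lit 2) (nat_lit 186) (nat_lit 0) (nat_lit 12) (.e false (nat_lit 3) (nat_lit 187) (nat_lit 0) (nat_lit 12) (.e false (nat_lit 3) (nat_lit 174) (nat_lit 1) (nat_lit 11) (.e true (nat_lit 1) (nat_lit 40) (nat_lit 10) (nat_lit 3) (.u (nat_lit 2) (.n (nat_lit 0) (nat_lit 2) (.p (nat_lit 1) (nat_lit 2) (.p (nat_lit 3) (nat_lit 1) (.n (nat_lit 4) (nat_lit 2) (.n (nat_lit 5) (nat_lit 1) (.n (nat_lit 6) (nat_lit 1) (.n (nat_lit 7) (nat_lit 1) (.p (nat_lit 8) (nat_lit 2) (.p (nat_lit 9) (nat_lit 2) (.n (nat_lit 10) (nat_lit 2) (.n (nat_lit 11) (nat_lit 3) (.p (nat_lit 13) (nat_lit 4) (.n (nat_lit 14) (nat_lit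 2) (.p (nat_lit 16) (nat_lit 1) (.p (nat_lit 17) (nat_lit 1) (.p (nat_lit 18) (nat_lit 2) (.n (nat_lit 19) (nat_lit 4) (.p (nat_lit 22) (nat_lit 2) (.p (nat_lit 24) (nat_lit 1) (.p (nat_lit 25) (nat_lit 1) (.n (nat_lit 26) (nat_lit 2) (.p (nat_lit 27) (nat_lit 1) (.n (nat_lit 28) (nat_lit 2) (.n (nat_lit 29) (nat_lit 2) (.p (nat_lit 52) (nat_lit 1) (.n (nat_lit 53) (nat_lit 1) (.n (nat_lit 93) (nat_lit 1) (.n (nat_lit 94) (nat_lit 1) (.p (nat_lit 96) (nat_lit 6) (.n (nat_lit 97) (nat_lit 5) (.p (nat_lit 98) (nat_lit 6) (.p (nat_lit 100) (nat_lit 5) (.n (nat_lit 102) (nat_lit 6) (.p (nat_lit 103) (nat_lit 3) (.n (nat_lit 104) (nat_lit 3) (.n (nat_lit 105) (nat_lit 3) (.n (nat_lit 106) (nat_lit 3) (.n (nat_lit 107) (nat_lit 3) (.p (nat_lit 108) (nat_lit 1) (.p (nat_lit 109) (nat_lit 2) (.n (nat_lit 110) (nat_lit 1) (.p (nat_lit 111) (nat_lit 1) (.n (nat_lit 112) (nat_lit 1) (.p (nat_lit 113) (nat_lit 1) (.n (nat_lit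 114) (nat_lit 2) (.n (nat_lit 115) (nat_lit 3) (.p (nat_lit 116) (nat_lit 1) (.n (nat_lit 117) (nat_lit 1) (.p (nat_lit 118) (nat_lit 1) (.n (nat_lit 119) (nat_lit 1) (.n (nat_lit 122) (nat_lit 2) (.n (nat_lit 123) (nat_lit 2) (.n (nat_lit 124) (nat_lit 2) (.p (nat_lit 127) (nat_lit 1) (.p (nat_lit 129) (nat_lit 1) (.p (nat_lit 130) (nat_lit 1) (.p (nat_lit 131) (nat_lit 1) (.n (nat_lit 135) (nat_lit 1) .z)))))))))))))))))))))))))))))))))))))))))))))))))))))))))) .nil)))))))))))))))))))))))))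

noncomputable def dC1d_i40 : IL := (.s false (nat_lit 3) (nat_lit 41) (nat_lit 1) (nat_lit 0) (nat_lit 2) true (nat_lit 7) true (nat_lit 10) false (nat_lit 3) true (nat_lit 11) true (nat_lit 12) (.s false (nat_lit 2) (nat_lit 41) (nat_lit 1) (nat_lit 2) (nat_lit 0) true (nat_lit 9) true (nat_lit 12) false (nat_lit 3) true (nat_lit 11) true (nat_lit 10) (.s false (nat_lit 3) (nat_lit 41) (nat_lit 2) (nat_lit 0) (nat_lit 1) true (nat_lit 7) true (nat_lit 11) false (nat_lit 3) true (nat_lit 10) true (nat_lit 12) (.s false (nat_lit 3) (nat_lit 42) (nat_lit 2) (nat_lit 0) (nat_lit 1) true (nat_lit 7) true (nat_lit 11) false (nat_lit 3) true (nat_lit 10) true (nat_lit 12) (.s false (nat_lit 2) (nat_lit 46) (nat_lit 0) (nat_lit 1) (nat_lit 0) false (nat_lit 13) true (nat_lit 12) false (nat_lit 5) true (nat_lit 12) true (nat_lit 11) (.e false (nat_lit 3) (nat_lit 32) (nat_lit 14) (nat_lit 2) (.e false (nat_lit 2) (nat_lit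 152) (nat_lit 2) (nat_lit 10) (.e true (nat_lit 1) (nat_lit 132) (nat_lit 2) (nat_lit 10) (.e true (nat_lit 1) (nat_lit 134) (nat_lit 2) (nat_lit 10) (.e false (nat_lit 1) (nat_lit 135) (nat_lit 2) (nat_lit 10) (.e false (nat_lit 1) (nat_lit 136) (nat_lit 2) (nat_lit 10) (.e false (nat_lit 1) (nat_lit 138) (nat_lit 2) (nat_lit 10) (.e false (nat_lit 2) (nat_lit 139) (nat_lit 2) (nat_lit 10) (.e false (nat_lit 2) (nat_lit 140) (nat_lit 2) (nat_lit 10) (.e true (nat_lit 1) (nat_lit 141) (nat_lit 2) (nat_lit 10) (.e false (nat_lit 3) (nat_lit 142) (nat_lit 2) (nat_lit 10) (.e true (nat_lit 2) (nat_lit 143) (nat_lit 2) (nat_lit 10) (.e true (nat_lit 3) (nat_lit 144) (nat_lit 2) (nat_lit 10) (.e true (nat_lit 1) (nat_lit 145) (nat_lit 2) (nat_lit 10) (.e false (nat_lit 1) (nat_lit 146) (nat_lit 2) (nat_lit 10) (.e false (nat_lit 1) (nat_lit 151) (nat_lit 2) (nat_lit 10) (.e true (nat_lit 2) (nat_lit 149) (nat_lit 2)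 (nat_lit 10) (.e false (nat_lit 3) (nat_lit 21) (nat_lit 18) (nat_lit 0) (.e false (nat_lit 1) (nat_lit 137) (nat_lit 2) (nat_lit 10) (.e true (nat_lit 1) (nat_lit 175) (nat_lit 1) (nat_lit 11) dC1d_i39)))))))))))))))))))))))))

noncomputable def dC1d_i41 : IL := (.e false (nat_lit 3) (nat_lit 162) (nat_lit 2) (nat_lit 10) (.e true (nat_lit 1) (nat_lit 163) (nat_lit 2) (nat_lit 10) (.e true (nat_lit 2) (nat_lit 167) (nat_lit 2) (nat_lit 10) (.e false (nat_lit 1) (nat_lit 168) (nat_lit 2) (nat_lit 10) (.e false (nat_lit 2) (nat_lit 171) (nat_lit 2) (nat_lit 10) (.e false (nat_lit 3) (nat_lit 172) (nat_lit 2) (nat_lit 10) (.e false (nat_lit 3) (nat_lit 190) (nat_lit 1) (nat_lit 11) (.e true (nat_lit 2) (nat_lit 165) (nat_lit 2) (nat_lit 10) (.e true (nat_lit 1) (nat_lit 164) (nat_lit 2) (nat_lit 10) (.e false (nat_lit 2) (nat_lit 181) (nat_lit 1) (nat_lit 11) (.e false (nat_lit 1) (nat_lit 183) (nat_lit 1) (nat_lit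 11) (.e true (nat_lit 3) (nat_lit 184) (nat_lit 1) (nat_lit 11) (.e true (nat_lit 1) (nat_lit 187) (nat_lit 1) (nat_lit 11) (.e true (nat_lit 3) (nat_lit 188) (nat_lit 1) (nat_lit 11) (.e true (nat_lit 1) (nat_lit 186) (nat_lit 1) (nat_lit 11) (.e true (nat_lit 3) (nat_lit 192) (nat_lit 1) (nat_lit 11) (.e true (nat_lit 2) (nat_lit 45) (nat_lit 10) (nat_lit 4) (.e false (nat_lit 2) (nat_lit 24) (nat_lit 18) (nat_lit 0) (.e false (nat_lit 1) (nat_lit 90) (nat_lit 5) (nat_lit 7) (.e false (nat_lit 1) (nat_lit 25) (nat_lit 18) (nat_lit 0) (.e true (nat_lit 1) (nat_lit 104) (nat_lit 3) (nat_lit 9) (.e false (nat_lit 1) (nat_lit 68) (nat_lit 6) (nat_lit 6) (.e true (nat_lit 1) (nat_lit 70) (nat_lit 6) (nat_lit 6) (.e false (nat_lit 2) (nat_lit 46) (nat_lit 8) (nat_lit 5) (.u (nat_lit 2) (.p (nat_lit 0) (nat_lit 3) (.p (nat_lit 1) (nat_lit 4) (.n (nat_lit 3) (nat_lit 1) (.n (nat_lit 5) (nat_lit 2) (.p (nat_lit 6) (nat_lit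 1) (.n (nat_lit 7) (nat_lit 1) (.p (nat_lit 9) (nat_lit 2) (.p (nat_lit 10) (nat_lit 2) (.n (nat_lit 11) (nat_lit 1) (.p (nat_lit 12) (nat_lit 1) (.n (nat_lit 14) (nat_lit 3) (.p (nat_lit 15) (nat_lit 2) (.p (nat_lit 17) (nat_lit 1) (.p (nat_lit 22) (nat_lit 1) (.n (nat_lit 23) (nat_lit 1) (.p (nat_lit 26) (nat_lit 1) (.n (nat_lit 27) (nat_lit 5) (.n (nat_lit 29) (nat_lit 2) (.n (nat_lit 65) (nat_lit 2) (.n (nat_lit 66) (nat_lit 1) (.n (nat_lit 68) (nat_lit 1) (.p (nat_lit 70) (nat_lit 1) (.p (nat_lit 71) (nat_lit 2) (.p (nat_lit 73) (nat_lit 1) (.n (nat_lit 75) (nat_lit 1) (.n (nat_lit 96) (nat_lit 2) (.n (nat_lit 97) (nat_lit 1) (.n (nat_lit 98) (nat_lit 3) (.p (nat_lit 99) (nat_lit 1) (.n (nat_lit 102) (nat_lit 2) (.p (nat_lit 103) (nat_lit 4) (.n (nat_lit 105) (nat_lit 3) (.p (nat_lit 106) (nat_lit 3) (.n (nat_lit 107) (nat_lit 1) (.p (nat_lit 110) (nat_lit 3) (.n (nat_lit 111) (nat_lit 1) (.n (nat_lit 113)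 (nat_lit 1) (.n (nat_lit 114) (nat_lit 4) (.n (nat_lit 115) (nat_lit 2) (.n (nat_lit 116) (nat_lit 2) (.n (nat_lit 117) (nat_lit 2) (.n (nat_lit 118) (nat_lit 2) (.p (nat_lit 120) (nat_lit 1) (.n (nat_lit 121) (nat_lit 2) (.n (nat_lit 122) (nat_lit 2) (.p (nat_lit 123) (nat_lit 1) (.p (nat_lit 124) (nat_lit 1) (.n (nat_lit 125) (nat_lit 2) (.n (nat_lit 126) (nat_lit 1) (.p (nat_lit 129) (nat_lit 2) (.p (nat_lit 130) (nat_lit 1) (.n (nat_lit 131) (nat_lit 1) .z)))))))))))))))))))))))))))))))))))))))))))))))))))) .nil)))))))))))))))))))))))))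

noncomputable def dC1d_i42 : IL := (.s false (nat_lit 1) (nat_lit 18) (nat_lit 2) (nat_lit 3) (nat_lit 1) true (nat_lit 7) true (nat_lit 11) true (nat_lit 0) true (nat_lit 10) true (nat_lit 9) (.s true (nat_lit 1) (nat_lit 18) (nat_lit 4) (nat_lit 1) (nat_lit 1) true (nat_lit 4) true (nat_lit 11) true (nat_lit 0) true (nat_lit 8) true (nat_lit 11) (.s false (nat_lit 2) (nat_lit 32) (nat_lit 1) (nat_lit 2) (nat_lit 2) true (nat_lit 7) true (nat_lit 10) false (nat_lit 1) true (nat_lit 11) true (nat_lit 10) (.s true (nat_lit 2) (nat_lit 33) (nat_lit 1) (nat_lit 2) (nat_lit 2) true (nat_lit 7) true (nat_lit 10) false (nat_lit 1) true (nat_lit 11) true (nat_lit 10) (.s true (nat_lit 3) (nat_lit 35) (nat_lit 1) (nat_lit 2) (nat_lit 2) true (nat_lit 7) true (nat_lit 10) false (nat_lit 1) true (nat_lit 11) true (nat_lit 10) (.s true (nat_lit 1) (nat_lit 36) (nat_lit 1) (nat_lit 2) (nat_lit 2) true (nat_lit 7) true (nat_lit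 10) false (nat_lit 1) true (nat_lit 11) true (nat_lit 10) (.s false (nat_lit 1) (nat_lit 32) (nat_lit 2) (nat_lit 1) (nat_lit 2) true (nat_lit 6) true (nat_lit 10) false (nat_lit 1) true (nat_lit 10) true (nat_lit 11) (.s true (nat_lit 1) (nat_lit 33) (nat_lit 2) (nat_lit 1) (nat_lit 2) true (nat_lit 6) true (nat_lit 10) false (nat_lit 1) true (nat_lit 10) true (nat_lit 11) (.s true (nat_lit 3) (nat_lit 35) (nat_lit 2) (nat_lit 1) (nat_lit 2) true (nat_lit 6) true (nat_lit 10) false (nat_lit 1) true (nat_lit 10) true (nat_lit 11) (.s true (nat_lit 1) (nat_lit 36) (nat_lit 2) (nat_lit 1) (nat_lit 2) true (nat_lit 6) true (nat_lit 10) false (nat_lit 1) true (nat_lit 10) true (nat_lit 11) (.s false (nat_lit 1) (nat_lit 34) (nat_lit 2) (nat_lit 2) (nat_lit 1) true (nat_lit 7) true (nat_lit 11) false (nat_lit 1) true (nat_lit 10) true (nat_lit 10) (.s false (nat_lit 3) (nat_lit 35) (nat_lit 2) (nat_lit 2) (nat_lit 1)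 true (nat_lit 7) true (nat_lit 11) false (nat_lit 1) true (nat_lit 10) true (nat_lit 10) (.s false (nat_lit 2) (nat_lit 46) (nat_lit 0) (nat_lit 1) (nat_lit 1) true (nat_lit 9) true (nat_lit 11) false (nat_lit 5) true (nat_lit 12) true (nat_lit 11) (.e false (nat_lit 3) (nat_lit 27) (nat_lit 18) (nat_lit 0) (.e true (nat_lit 2) (nat_lit 67) (nat_lit 6) (nat_lit 6) (.e true (nat_lit 2) (nat_lit 75) (nat_lit 6) (nat_lit 6) (.e true (nat_lit 3) (nat_lit 153) (nat_lit 2) (nat_lit 10) (.e false (nat_lit 1) (nat_lit 154) (nat_lit 2) (nat_lit 10) (.e false (nat_lit 3) (nat_lit 155) (nat_lit 2) (nat_lit 10) (.e true (nat_lit 2) (nat_lit 156) (nat_lit 2) (nat_lit 10) (.e false (nat_lit 3) (nat_lit 157) (nat_lit 2) (nat_lit 10) (.e true (nat_lit 2) (nat_lit 158) (nat_lit 2) (nat_lit 10) (.e true (nat_lit 2) (nat_lit 159) (nat_lit 2) (nat_lit 10) (.e false (nat_lit 2) (nat_lit 160) (nat_lit 2) (nat_lit 10) (.e true (nat_lit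 3) (nat_lit 161) (nat_lit 2) (nat_lit 10) dC1d_i41)))))))))))))))))))))))))

noncomputable def dC1d_i43 : IL := (.e true (nat_lit 1) (nat_lit 303) (nat_lit 0) (nat_lit 19) (.e false (nat_lit 3) (nat_lit 305) (nat_lit 0) (nat_lit 19) (.e false (nat_lit 2) (nat_lit 307) (nat_lit 0) (nat_lit 19) (.e true (nat_lit 1) (nat_lit 308) (nat_lit 0) (nat_lit 19) (.e true (nat_lit 1) (nat_lit 311) (nat_lit 0) (nat_lit 19) (.e false (nat_lit 1) (nat_lit 313) (nat_lit 0) (nat_lit 19) (.e true (nat_lit 3) (nat_lit 316) (nat_lit 0) (nat_lit 19) (.e true (nat_lit 3) (nat_lit 317) (nat_lit 0) (nat_lit 19) (.e false (nat_lit 3) (nat_lit 212) (nat_lit 2) (nat_lit 17) (.e true (nat_lit 3) (nat_lit 213) (nat_lit 2) (nat_lit 17) (.e false (nat_lit 3) (nat_lit 214) (nat_lit 2) (nat_lit 17) (.e false (nat_lit 3) (nat_lit 215) (nat_lit 2) (nat_lit 17) (.e false (nat_lit 2) (nat_lit 216) (nat_lit 2) (nat_lit 17) (.e true (nat_lit 1) (nat_lit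 220) (nat_lit 2) (nat_lit 17) (.e false (nat_lit 3) (nat_lit 221) (nat_lit 2) (nat_lit 17) (.e true (nat_lit 1) (nat_lit 222) (nat_lit 2) (nat_lit 17) (.e true (nat_lit 3) (nat_lit 223) (nat_lit 2) (nat_lit 17) (.e false (nat_lit 1) (nat_lit 225) (nat_lit 2) (nat_lit 17) (.e false (nat_lit 2) (nat_lit 226) (nat_lit 2) (nat_lit 17) (.e true (nat_lit 3) (nat_lit 229) (nat_lit 2) (nat_lit 17) (.e false (nat_lit 1) (nat_lit 217) (nat_lit 2) (nat_lit 17) (.e true (nat_lit 1) (nat_lit 224) (nat_lit 2) (nat_lit 17) (.e true (nat_lit 3) (nat_lit 227) (nat_lit 2) (nat_lit 17) (.e true (nat_lit 1) (nat_lit 231) (nat_lit 2) (nat_lit 17) (.u (nat_lit 2) (.p (nat_lit 0) (nat_lit 1) (.n (nat_lit 1) (nat_lit 1) (.n (nat_lit 3) (nat_lit 1) (.n (nat_lit 4) (nat_lit 5) (.p (nat_lit 5) (nat_lit 2) (.n (nat_lit 6) (nat_lit 2) (.p (nat_lit 7) (nat_lit 2) (.n (nat_lit 8) (nat_lit 1) (.p (nat_lit 9) (nat_lit 1) (.n (nat_lit 10) (nat_lit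 5) (.p (nat_lit 11) (nat_lit 3) (.p (nat_lit 12) (nat_lit 3) (.p (nat_lit 14) (nat_lit 1) (.p (nat_lit 15) (nat_lit 4) (.p (nat_lit 17) (nat_lit 2) (.n (nat_lit 18) (nat_lit 3) (.n (nat_lit 19) (nat_lit 3) (.p (nat_lit 20) (nat_lit 2) (.n (nat_lit 26) (nat_lit 1) (.p (nat_lit 27) (nat_lit 2) (.p (nat_lit 29) (nat_lit 1) (.n (nat_lit 30) (nat_lit 2) (.n (nat_lit 31) (nat_lit 4) (.n (nat_lit 32) (nat_lit 2) (.n (nat_lit 33) (nat_lit 4) (.p (nat_lit 34) (nat_lit 1) (.p (nat_lit 35) (nat_lit 2) (.n (nat_lit 36) (nat_lit 1) (.p (nat_lit 37) (nat_lit 4) (.n (nat_lit 38) (nat_lit 1) (.p (nat_lit 39) (nat_lit 2) (.p (nat_lit 40) (nat_lit 3) (.n (nat_lit 41) (nat_lit 2) (.n (nat_lit 49) (nat_lit 1) (.p (nat_lit 52) (nat_lit 1) (.p (nat_lit 53) (nat_lit 1) (.n (nat_lit 57) (nat_lit 1) (.p (nat_lit 327) (nat_lit 1) (.p (nat_lit 328) (nat_lit 1) (.p (nat_lit 329) (nat_lit 1) (.n (nat_lit 330) (nat_lit 1) (.p (nat_lit 331) (nat_lit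 1) (.n (nat_lit 332) (nat_lit 1) (.p (nat_lit 335) (nat_lit 1) (.n (nat_lit 336) (nat_lit 1) (.n (nat_lit 337) (nat_lit 1) (.n (nat_lit 338) (nat_lit 1) (.p (nat_lit 339) (nat_lit 1) (.n (nat_lit 341) (nat_lit 1) (.p (nat_lit 344) (nat_lit 1) .z)))))))))))))))))))))))))))))))))))))))))))))))))) .nil)))))))))))))))))))))))))

noncomputable def dC1d_i44 : IL := (.e true (nat_lit 3) (nat_lit 268) (nat_lit 1) (nat_lit 18) (.e false (nat_lit 1) (nat_lit 269) (nat_lit 1) (nat_lit 18) (.e true (nat_lit 3) (nat_lit 270) (nat_lit 1) (nat_lit 18) (.e false (nat_lit 2) (nat_lit 272) (nat_lit 1) (nat_lit 18) (.e true (nat_lit 1) (nat_lit 273) (nat_lit 1) (nat_lit 18) (.e false (nat_lit 1) (nat_lit 274) (nat_lit 1) (nat_lit 18) (.e false (nat_lit 1) (nat_lit 275) (nat_lit 1) (nat_lit 18) (.e true (nat_lit 1) (nat_lit 276) (nat_lit 1) (nat_lit 18) (.e false (nat_lit 1) (nat_lit 277) (nat_lit 1) (nat_lit 18) (.e false (nat_lit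 2) (nat_lit 278) (nat_lit 1) (nat_lit 18) (.e true (nat_lit 1) (nat_lit 279) (nat_lit 1) (nat_lit 18) (.e true (nat_lit 1) (nat_lit 280) (nat_lit 1) (nat_lit 18) (.e true (nat_lit 1) (nat_lit 87) (nat_lit 11) (nat_lit 9) (.e false (nat_lit 3) (nat_lit 290) (nat_lit 0) (nat_lit 19) (.e false (nat_lit 2) (nat_lit 291) (nat_lit 0) (nat_lit 19) (.e false (nat_lit 1) (nat_lit 293) (nat_lit 0) (nat_lit 19) (.e true (nat_lit 3) (nat_lit 294) (nat_lit 0) (nat_lit 19) (.e true (nat_lit 1) (nat_lit 295) (nat_lit 0) (nat_lit 19) (.e true (nat_lit 2) (nat_lit 296) (nat_lit 0) (nat_lit 19) (.e false (nat_lit 2) (nat_lit 297) (nat_lit 0) (nat_lit 19) (.e false (nat_lit 2) (nat_lit 298) (nat_lit 0) (nat_lit 19) (.e false (nat_lit 3) (nat_lit 299) (nat_lit 0) (nat_lit 19) (.e true (nat_lit 2) (nat_lit 300) (nat_lit 0) (nat_lit 19) (.e false (nat_lit 1) (nat_lit 301) (nat_lit 0) (nat_lit 19) (.e false (nat_lit 1) (nat_lit 302) (nat_lit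 0) (nat_lit 19) dC1d_i43)))))))))))))))))))))))))

noncomputable def dC1d_i45 : IL := (.e false (nat_lit 1) (nat_lit 348) (nat_lit 0) (nat_lit 15) (.e false (nat_lit 3) (nat_lit 349) (nat_lit 0) (nat_lit 15) (.e true (nat_lit 2) (nat_lit 350) (nat_lit 0) (nat_lit 15) (.e true (nat_lit 2) (nat_lit 352) (nat_lit 0) (nat_lit 15) (.e true (nat_lit 3) (nat_lit 83) (nat_lit 16) (nat_lit 4) (.e true (nat_lit 2) (nat_lit 351) (nat_lit 0) (nat_lit 15) (.e false (nat_lit 1) (nat_lit 314) (nat_lit 2) (nat_lit 13) (.e false (nat_lit 2) (nat_lit 329) (nat_lit 1) (nat_lit 14) (.e true (nat_lit 3) (nat_lit 333) (nat_lit 1) (nat_lit 14) (.e true (nat_lit 2) (nat_lit 334) (nat_lit 1) (nat_lit 14) (.e true (nat_lit 1) (nat_lit 335) (nat_lit 1) (nat_lit 14) (.e false (nat_lit 2) (nat_lit 337) (nat_lit 1) (nat_lit 14) (.e true (nat_lit 1) (nat_lit 338) (nat_lit 1) (nat_lit 14) (.e false (nat_lit 1) (nat_lit 345) (nat_lit 1) (nat_lit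 14) (.e true (nat_lit 1) (nat_lit 328) (nat_lit 1) (nat_lit 14) (.e true (nat_lit 1) (nat_lit 331) (nat_lit 1) (nat_lit 14) (.e true (nat_lit 1) (nat_lit 332) (nat_lit 1) (nat_lit 14) (.e false (nat_lit 1) (nat_lit 330) (nat_lit 1) (nat_lit 14) (.e false (nat_lit 3) (nat_lit 74) (nat_lit 18) (nat_lit 3) (.e true (nat_lit 3) (nat_lit 181) (nat_lit 5) (nat_lit 10) (.e false (nat_lit 2) (nat_lit 186) (nat_lit 5) (nat_lit 10) (.e false (nat_lit 1) (nat_lit 187) (nat_lit 5) (nat_lit 10) (.u (nat_lit 2) (.p (nat_lit 1) (nat_lit 3) (.n (nat_lit 3) (nat_lit 2) (.n (nat_lit 4) (nat_lit 1) (.n (nat_lit 5) (nat_lit 1) (.p (nat_lit 7) (nat_lit 1) (.p (nat_lit 10) (nat_lit 2) (.n (nat_lit 11) (nat_lit 3) (.n (nat_lit 12) (nat_lit 5) (.p (nat_lit 13) (nat_lit 1) (.p (nat_lit 14) (nat_lit 1) (.p (nat_lit 15) (nat_lit 2) (.p (nat_lit 16) (nat_lit 1) (.p (nat_lit 17) (nat_lit 2) (.n (nat_lit 19) (nat_lit 1) (.p (nat_lit 21) (nat_lit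 2) (.n (nat_lit 22) (nat_lit 1) (.n (nat_lit 29) (nat_lit 4) (.p (nat_lit 30) (nat_lit 1) (.p (nat_lit 45) (nat_lit 1) (.p (nat_lit 47) (nat_lit 1) (.p (nat_lit 48) (nat_lit 1) (.p (nat_lit 53) (nat_lit 1) (.p (nat_lit 54) (nat_lit 1) (.n (nat_lit 57) (nat_lit 1) (.p (nat_lit 60) (nat_lit 1) (.p (nat_lit 65) (nat_lit 1) (.p (nat_lit 66) (nat_lit 1) (.n (nat_lit 67) (nat_lit 1) (.p (nat_lit 71) (nat_lit 1) (.n (nat_lit 73) (nat_lit 1) (.n (nat_lit 76) (nat_lit 1) (.n (nat_lit 79) (nat_lit 1) (.p (nat_lit 81) (nat_lit 1) (.p (nat_lit 85) (nat_lit 1) (.n (nat_lit 95) (nat_lit 1) (.p (nat_lit 113) (nat_lit 1) (.p (nat_lit 114) (nat_lit 1) (.n (nat_lit 118) (nat_lit 1) (.n (nat_lit 119) (nat_lit 1) (.n (nat_lit 122) (nat_lit 1) (.p (nat_lit 124) (nat_lit 1) (.n (nat_lit 125) (nat_lit 1) (.p (nat_lit 127) (nat_lit 2) (.p (nat_lit 129) (nat_lit 1) (.p (nat_lit 130) (nat_lit 3) (.n (nat_lit 134) (nat_lit 1) (.n (nat_lit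 135) (nat_lit 2) (.p (nat_lit 137) (nat_lit 2) (.n (nat_lit 140) (nat_lit 1) (.p (nat_lit 142) (nat_lit 1) (.n (nat_lit 143) (nat_lit 3) (.n (nat_lit 144) (nat_lit 2) (.n (nat_lit 146) (nat_lit 2) (.n (nat_lit 147) (nat_lit 2) (.n (nat_lit 149) (nat_lit 2) (.p (nat_lit 150) (nat_lit 1) (.p (nat_lit 151) (nat_lit 2) (.n (nat_lit 152) (nat_lit 1) (.n (nat_lit 153) (nat_lit 1) (.n (nat_lit 154) (nat_lit 1) .z)))))))))))))))))))))))))))))))))))))))))))))))))))))))))))) (.u (nat_lit 2) (.n (nat_lit 155) (nat_lit 2) (.n (nat_lit 156) (nat_lit 2) (.p (nat_lit 158) (nat_lit 2) (.n (nat_lit 159) (nat_lit 1) (.n (nat_lit 162) (nat_lit 1) (.p (nat_lit 163) (nat_lit 1) (.n (nat_lit 164) (nat_lit 1) (.n (nat_lit 165) (nat_lit 4) (.n (nat_lit 166) (nat_lit 1) (.n (nat_lit 167) (nat_lit 3) (.p (nat_lit 170) (nat_lit 1) (.n (nat_lit 171) (nat_lit 1) (.n (nat_lit 173) (nat_lit 7) (.p (nat_lit 174) (nat_lit 4) (.p (nat_lit 175) (nat_lit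 11) (.p (nat_lit 176) (nat_lit 7) (.p (nat_lit 177) (nat_lit 5) (.p (nat_lit 178) (nat_lit 7) (.p (nat_lit 179) (nat_lit 18) (.n (nat_lit 180) (nat_lit 23) (.n (nat_lit 181) (nat_lit 3) (.n (nat_lit 182) (nat_lit 4) (.n (nat_lit 183) (nat_lit 7) (.n (nat_lit 184) (nat_lit 11) (.n (nat_lit 185) (nat_lit 22) (.p (nat_lit 186) (nat_lit 2) (.p (nat_lit 187) (nat_lit 8) (.n (nat_lit 188) (nat_lit 14) (.n (nat_lit 189) (nat_lit 1) (.p (nat_lit 190) (nat_lit 7) (.p (nat_lit 191) (nat_lit 8) (.p (nat_lit 192) (nat_lit 5) (.n (nat_lit 193) (nat_lit 4) (.n (nat_lit 194) (nat_lit 7) (.n (nat_lit 195) (nat_lit 15) (.p (nat_lit 196) (nat_lit 4) (.p (nat_lit 199) (nat_lit 3) (.p (nat_lit 200) (nat_lit 20) (.p (nat_lit 201) (nat_lit 3) (.p (nat_lit 202) (nat_lit 9) (.p (nat_lit 203) (nat_lit 3) (.n (nat_lit 204) (nat_lit 1) (.n (nat_lit 205) (nat_lit 6) (.p (nat_lit 206) (nat_lit 9) (.n (nat_lit 207) (nat_lit 2) (.p (nat_lit 208)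 (nat_lit 1) (.p (nat_lit 209) (nat_lit 1) (.p (nat_lit 210) (nat_lit 2) (.p (nat_lit 211) (nat_lit 5) (.p (nat_lit 212) (nat_lit 1) (.p (nat_lit 213) (nat_lit 5) (.n (nat_lit 216) (nat_lit 3) (.p (nat_lit 219) (nat_lit 1) (.p (nat_lit 220) (nat_lit 1) (.p (nat_lit 221) (nat_lit 1) (.p (nat_lit 222) (nat_lit 4) (.n (nat_lit 223) (nat_lit 1) (.p (nat_lit 224) (nat_lit 1) (.p (nat_lit 225) (nat_lit 1) (.p (nat_lit 227) (nat_lit 1) .z)))))))))))))))))))))))))))))))))))))))))))))))))))))))))))) (.u (nat_lit 2) (.p (nat_lit 229) (nat_lit 1) .z) .nil)))))))))))))))))))))))))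

noncomputable def dC1d_i46 : IL := (.s true (nat_lit 2) (nat_lit 103) (nat_lit 2) (nat_lit 1) (nat_lit 0) true (nat_lit 11) true (nat_lit 15) false (nat_lit 7) true (nat_lit 13) true (nat_lit 14) (.s false (nat_lit 2) (nat_lit 105) (nat_lit 2) (nat_lit 1) (nat_lit 0) true (nat_lit 11) true (nat_lit 15) false (nat_lit 7) true (nat_lit 13) true (nat_lit 14) (.s true (nat_lit 1) (nat_lit 106) (nat_lit 1) (nat_lit 0) (nat_lit 1) false (nat_lit 16) true (nat_lit 14) false (nat_lit 8) true (nat_lit 14) true (nat_lit 15) (.s true (nat_lit 1) (nat_lit 106) (nat_lit 1) (nat_lit 1) (nat_lit 0) true (nat_lit 12) true (nat_lit 15) false (nat_lit 8) true (nat_lit 14) true (nat_lit 14) (.e true (nat_lit 3) (nat_lit 161) (nat_lit 6) (nat_lit 9) (.e true (nat_lit 2) (nat_lit 170) (nat_lit 6) (nat_lit 9) (.e true (nat_lit 3) (nat_lit 171) (nat_lit 6) (nat_lit 9) (.e false (nat_lit 1) (nat_lit 172) (nat_lit 6) (nat_lit 9) (.e false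 (nat_lit 1) (nat_lit 290) (nat_lit 2) (nat_lit 13) (.e false (nat_lit 3) (nat_lit 291) (nat_lit 2) (nat_lit 13) (.e true (nat_lit 2) (nat_lit 292) (nat_lit 2) (nat_lit 13) (.e false (nat_lit 2) (nat_lit 294) (nat_lit 2) (nat_lit 13) (.e true (nat_lit 3) (nat_lit 302) (nat_lit 2) (nat_lit 13) (.e true (nat_lit 3) (nat_lit 307) (nat_lit 2) (nat_lit 13) (.e false (nat_lit 1) (nat_lit 310) (nat_lit 2) (nat_lit 13) (.e false (nat_lit 3) (nat_lit 312) (nat_lit 2) (nat_lit 13) (.e true (nat_lit 2) (nat_lit 316) (nat_lit 2) (nat_lit 13) (.e false (nat_lit 2) (nat_lit 317) (nat_lit 2) (nat_lit 13) (.e true (nat_lit 1) (nat_lit 318) (nat_lit 2) (nat_lit 13) (.e true (nat_lit 2) (nat_lit 301) (nat_lit 2) (nat_lit 13) (.e false (nat_lit 3) (nat_lit 298) (nat_lit 2) (nat_lit 13) (.e true (nat_lit 1) (nat_lit 193) (nat_lit 5) (nat_lit 10) (.e true (nat_lit 2) (nat_lit 336) (nat_lit 1) (nat_lit 14) (.e true (nat_lit 3) (nat_lit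 340) (nat_lit 1) (nat_lit 14) (.e false (nat_lit 1) (nat_lit 347) (nat_lit 0) (nat_lit 15) dC1d_i45)))))))))))))))))))))))))

noncomputable def dC1d_i47 : IL := (.s true (nat_lit 1) (nat_lit 85) (nat_lit 1) (nat_lit 2) (nat_lit 2) true (nat_lit 10) true (nat_lit 13) false (nat_lit 4) true (nat_lit 14) true (nat_lit 13) (.s true (nat_lit 2) (nat_lit 86) (nat_lit 1) (nat_lit 2) (nat_lit 2) true (nat_lit 10) true (nat_lit 13) false (nat_lit 4) true (nat_lit 14) true (nat_lit 13) (.s false (nat_lit 3) (nat_lit 87) (nat_lit 1) (nat_lit 2) (nat_lit 2) true (nat_lit 10) true (nat_lit 13) false (nat_lit 4) true (nat_lit 14) true (nat_lit 13) (.s true (nat_lit 3) (nat_lit 89) (nat_lit 1) (nat_lit 2) (nat_lit 2) true (nat_lit 10) true (nat_lit 13) false (nat_lit 4) true (nat_lit 14) true (nat_lit 13) (.s false (nat_lit 1) (nat_lit 90) (nat_lit 1) (nat_lit 2) (nat_lit 2) true (nat_lit 10) true (nat_lit 13) false (nat_lit 4)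 true (nat_lit 14) true (nat_lit 13) (.s true (nat_lit 3) (nat_lit 82) (nat_lit 2) (nat_lit 1) (nat_lit 2) true (nat_lit 9) true (nat_lit 13) false (nat_lit 4) true (nat_lit 13) true (nat_lit 14) (.s true (nat_lit 3) (nat_lit 83) (nat_lit 2) (nat_lit 1) (nat_lit 2) true (nat_lit 9) true (nat_lit 13) false (nat_lit 4) true (nat_lit 13) true (nat_lit 14) (.s false (nat_lit 3) (nat_lit 85) (nat_lit 2) (nat_lit 1) (nat_lit 2) true (nat_lit 9) true (nat_lit 13) false (nat_lit 4) true (nat_lit 13) true (nat_lit 14) (.s false (nat_lit 3) (nat_lit 90) (nat_lit 2) (nat_lit 1) (nat_lit 2) true (nat_lit 9) true (nat_lit 13) false (nat_lit 4) true (nat_lit 13) true (nat_lit 14) (.s true (nat_lit 2) (nat_lit 91) (nat_lit 2) (nat_lit 1) (nat_lit 2) true (nat_lit 9) true (nat_lit 13) false (nat_lit 4) true (nat_lit 13) true (nat_lit 14) (.s true (nat_lit 1) (nat_lit 82) (nat_lit 2) (nat_lit 2) (nat_lit 1) true (nat_lit 10) true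 (nat_lit 14) false (nat_lit 4) true (nat_lit 13) true (nat_lit 13) (.s true (nat_lit 3) (nat_lit 83) (nat_lit 2) (nat_lit 2) (nat_lit 1) true (nat_lit 10) true (nat_lit 14) false (nat_lit 4) true (nat_lit 13) true (nat_lit 13) (.s false (nat_lit 2) (nat_lit 84) (nat_lit 2) (nat_lit 2) (nat_lit 1) true (nat_lit 10) true (nat_lit 14) false (nat_lit 4) true (nat_lit 13) true (nat_lit 13) (.s true (nat_lit 2) (nat_lit 87) (nat_lit 2) (nat_lit 2) (nat_lit 1) true (nat_lit 10) true (nat_lit 14) false (nat_lit 4) true (nat_lit 13) true (nat_lit 13) (.s false (nat_lit 2) (nat_lit 89) (nat_lit 2) (nat_lit 2) (nat_lit 1) true (nat_lit 10) true (nat_lit 14) false (nat_lit 4) true (nat_lit 13) true (nat_lit 13) (.s false (nat_lit 2) (nat_lit 90) (nat_lit 2) (nat_lit 2) (nat_lit 1) true (nat_lit 10) true (nat_lit 14) false (nat_lit 4) true (nat_lit 13) true (nat_lit 13) (.s true (nat_lit 1) (nat_lit 91) (nat_lit 2) (nat_lit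 2) (nat_lit 1) true (nat_lit 10) true (nat_lit 14) false (nat_lit 4) true (nat_lit 13) true (nat_lit 13) (.s true (nat_lit 1) (nat_lit 92) (nat_lit 2) (nat_lit 2) (nat_lit 1) true (nat_lit 10) true (nat_lit 14) false (nat_lit 4) true (nat_lit 13) true (nat_lit 13) (.s true (nat_lit 1) (nat_lit 93) (nat_lit 2) (nat_lit 2) (nat_lit 0) true (nat_lit 11) true (nat_lit 15) false (nat_lit 5) true (nat_lit 13) true (nat_lit 13) (.s true (nat_lit 1) (nat_lit 94) (nat_lit 2) (nat_lit 2) (nat_lit 0) true (nat_lit 11) true (nat_lit 15) false (nat_lit 5) true (nat_lit 13) true (nat_lit 13) (.s false (nat_lit 1) (nat_lit 97) (nat_lit 2) (nat_lit 2) (nat_lit 0) true (nat_lit 11) true (nat_lit 15) false (nat_lit 5) true (nat_lit 13) true (nat_lit 13) (.s false (nat_lit 2) (nat_lit 100) (nat_lit 1) (nat_lit 2) (nat_lit 1) false (nat_lit 16) true (nat_lit 14) false (nat_lit 6) true (nat_lit 14) true (nat_lit 13) (.s true (nat_lit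 2) (nat_lit 99) (nat_lit 2) (nat_lit 1) (nat_lit 1) true (nat_lit 10) true (nat_lit 14) false (nat_lit 6) true (nat_lit 13) true (nat_lit 14) (.s false (nat_lit 2) (nat_lit 101) (nat_lit 2) (nat_lit 1) (nat_lit 1) true (nat_lit 10) true (nat_lit 14) false (nat_lit 6) true (nat_lit 13) true (nat_lit 14) (.s true (nat_lit 2) (nat_lit 104) (nat_lit 1) (nat_lit 2) (nat_lit 0) true (nat_lit 12) true (nat_lit 15) false (nat_lit 7) true (nat_lit 14) true (nat_lit 13) dC1d_i46)))))))))))))))))))))))))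

noncomputable def dC1d_i48 : IL := (.s false (nat_lit 3) (nat_lit 31) (nat_lit 1) (nat_lit 6) (nat_lit 2) true (nat_lit 10) true (nat_lit 13) true (nat_lit 1) true (nat_lit 14) true (nat_lit 9) (.s true (nat_lit 3) (nat_lit 32) (nat_lit 1) (nat_lit 6) (nat_lit 2) true (nat_lit 10) true (nat_lit 13) true (nat_lit 1) true (nat_lit 14) true (nat_lit 9) (.s false (nat_lit 3) (nat_lit 34) (nat_lit 2) (nat_lit 1) (nat_lit 6) true (nat_lit 3) true (nat_lit 9) true (nat_lit 1) true (nat_lit 13) true (nat_lit 14) (.s true (nat_lit 3) (nat_lit 31) (nat_lit 2) (nat_lit 2) (nat_lit 5) true (nat_lit 4) true (nat_lit 10) true (nat_lit 1) true (nat_lit 13) true (nat_lit 13) (.s true (nat_lit 1) (nat_lit 32) (nat_lit 2) (nat_lit 2) (nat_lit 5) true (nat_lit 4) true (nat_lit 10) true (nat_lit 1) true (nat_lit 13) true (nat_lit 13) (.s true (nat_lit 2) (nat_lit 33) (nat_lit 2) (nat_lit 2) (nat_lit 5) true (nat_lit 4) true (nat_lit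 10) true (nat_lit 1) true (nat_lit 13) true (nat_lit 13) (.s true (nat_lit 2) (nat_lit 34) (nat_lit 2) (nat_lit 2) (nat_lit 5) true (nat_lit 4) true (nat_lit 10) true (nat_lit 1) true (nat_lit 13) true (nat_lit 13) (.s false (nat_lit 3) (nat_lit 32) (nat_lit 5) (nat_lit 2) (nat_lit 2) true (nat_lit 4) true (nat_lit 13) true (nat_lit 1) true (nat_lit 10) true (nat_lit 13) (.s false (nat_lit 1) (nat_lit 40) (nat_lit 6) (nat_lit 1) (nat_lit 1) true (nat_lit 4) true (nat_lit 14) false (nat_lit 0) true (nat_lit 9) true (nat_lit 14) (.s false (nat_lit 1) (nat_lit 42) (nat_lit 6) (nat_lit 1) (nat_lit 1) true (nat_lit 4) true (nat_lit 14) false (nat_lit 0) true (nat_lit 9) true (nat_lit 14) (.s true (nat_lit 3) (nat_lit 45) (nat_lit 1) (nat_lit 2) (nat_lit 4) true (nat_lit 7) true (nat_lit 11) false (nat_lit 1) true (nat_lit 14) true (nat_lit 13) (.s false (nat_lit 1) (nat_lit 45) (nat_lit 2) (nat_lit 1) (nat_lit 4) true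 (nat_lit 5) true (nat_lit 11) false (nat_lit 1) true (nat_lit 13) true (nat_lit 14) (.s false (nat_lit 1) (nat_lit 45) (nat_lit 4) (nat_lit 2) (nat_lit 1) true (nat_lit 7) true (nat_lit 14) false (nat_lit 1) true (nat_lit 11) true (nat_lit 13) (.s true (nat_lit 3) (nat_lit 45) (nat_lit 5) (nat_lit 2) (nat_lit 0) true (nat_lit 7) true (nat_lit 15) false (nat_lit 1) true (nat_lit 10) true (nat_lit 13) (.s false (nat_lit 3) (nat_lit 46) (nat_lit 1) (nat_lit 3) (nat_lit 2) true (nat_lit 10) true (nat_lit 13) false (nat_lit 2) true (nat_lit 14) true (nat_lit 12) (.s true (nat_lit 3) (nat_lit 46) (nat_lit 1) (nat_lit 4) (nat_lit 1) false (nat_lit 16) true (nat_lit 14) false (nat_lit 2) true (nat_lit 14) true (nat_lit 11) (.s true (nat_lit 3) (nat_lit 46) (nat_lit 3) (nat_lit 2) (nat_lit 1) true (nat_lit 8) true (nat_lit 14) false (nat_lit 2) true (nat_lit 12) true (nat_lit 13) (.s true (nat_lit 3) (nat_lit 46) (nat_lit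 4) (nat_lit 1) (nat_lit 1) true (nat_lit 7) true (nat_lit 14) false (nat_lit 2) true (nat_lit 11) true (nat_lit 14) (.s false (nat_lit 2) (nat_lit 46) (nat_lit 5) (nat_lit 0) (nat_lit 1) true (nat_lit 6) true (nat_lit 14) false (nat_lit 2) true (nat_lit 10) true (nat_lit 15) (.s false (nat_lit 2) (nat_lit 70) (nat_lit 2) (nat_lit 2) (nat_lit 2) true (nat_lit 9) true (nat_lit 13) false (nat_lit 3) true (nat_lit 13) true (nat_lit 13) (.s false (nat_lit 3) (nat_lit 71) (nat_lit 2) (nat_lit 2) (nat_lit 2) true (nat_lit 9) true (nat_lit 13) false (nat_lit 3) true (nat_lit 13) true (nat_lit 13) (.s false (nat_lit 3) (nat_lit 72) (nat_lit 2) (nat_lit 2) (nat_lit 2) true (nat_lit 9) true (nat_lit 13) false (nat_lit 3) true (nat_lit 13) true (nat_lit 13) (.s true (nat_lit 2) (nat_lit 75) (nat_lit 2) (nat_lit 2) (nat_lit 2) true (nat_lit 9) true (nat_lit 13) false (nat_lit 3) true (nat_lit 13) true (nat_lit 13) (.s true (nat_lit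 3) (nat_lit 82) (nat_lit 1) (nat_lit 2) (nat_lit 2) true (nat_lit 10) true (nat_lit 13) false (nat_lit 4) true (nat_lit 14) true (nat_lit 13) (.s true (nat_lit 3) (nat_lit 84) (nat_lit 1) (nat_lit 2) (nat_lit 2) true (nat_lit 10) true (nat_lit 13) false (nat_lit 4) true (nat_lit 14) true (nat_lit 13) dC1d_i47)))))))))))))))))))))))))

noncomputable def dC1d_i49 : IL := (.s false (nat_lit 1) (nat_lit 17) (nat_lit 14) (nat_lit 1) (nat_lit 2) false (nat_lit 0) true (nat_lit 13) true (nat_lit 4) true (nat_lit 5) true (nat_lit 14) (.s false (nat_lit 1) (nat_lit 17) (nat_lit 14) (nat_lit 2) (nat_lit 1) true (nat_lit 1) true (nat_lit 14) true (nat_lit 4) true (nat_lit 5) true (nat_lit 13) (.s false (nat_lit 1) (nat_lit 18) (nat_lit 1) (nat_lit 0) (nat_lit 17) true (nat_lit 0) true (nat_lit 4) true (nat_lit 3) true (nat_lit 14) true (nat_lit 15) (.s true (nat_lit 3) (nat_lit 18) (nat_lit 1) (nat_lit 1) (nat_lit 15) true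 (nat_lit 1) true (nat_lit 5) true (nat_lit 3) true (nat_lit 14) true (nat_lit 14) (.s true (nat_lit 2) (nat_lit 18) (nat_lit 1) (nat_lit 6) (nat_lit 3) true (nat_lit 8) true (nat_lit 12) true (nat_lit 3) true (nat_lit 14) true (nat_lit 9) (.s true (nat_lit 1) (nat_lit 18) (nat_lit 1) (nat_lit 14) (nat_lit 1) false (nat_lit 16) true (nat_lit 14) true (nat_lit 3) true (nat_lit 14) true (nat_lit 5) (.s true (nat_lit 2) (nat_lit 18) (nat_lit 1) (nat_lit 15) (nat_lit 1) false (nat_lit 16) true (nat_lit 14) true (nat_lit 3) true (nat_lit 14) true (nat_lit 5) (.s false (nat_lit 2) (nat_lit 18) (nat_lit 2) (nat_lit 0) (nat_lit 13) true (nat_lit 0) true (nat_lit 6) true (nat_lit 3) true (nat_lit 13) true (nat_lit 15) (.s true (nat_lit 1) (nat_lit 18) (nat_lit 2) (nat_lit 1) (nat_lit 10) true (nat_lit 1) true (nat_lit 7) true (nat_lit 3) true (nat_lit 13) true (nat_lit 14) (.s false (nat_lit 1) (nat_lit 18) (nat_lit 2) (nat_lit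 1) (nat_lit 11) true (nat_lit 1) true (nat_lit 7) true (nat_lit 3) true (nat_lit 13) true (nat_lit 14) (.s false (nat_lit 3) (nat_lit 18) (nat_lit 2) (nat_lit 2) (nat_lit 8) true (nat_lit 2) true (nat_lit 8) true (nat_lit 3) true (nat_lit 13) true (nat_lit 13) (.s false (nat_lit 1) (nat_lit 18) (nat_lit 2) (nat_lit 3) (nat_lit 5) true (nat_lit 4) true (nat_lit 10) true (nat_lit 3) true (nat_lit 13) true (nat_lit 12) (.s false (nat_lit 1) (nat_lit 18) (nat_lit 2) (nat_lit 11) (nat_lit 1) true (nat_lit 10) true (nat_lit 14) true (nat_lit 3) true (nat_lit 13) true (nat_lit 7) (.s false (nat_lit 3) (nat_lit 18) (nat_lit 3) (nat_lit 6) (nat_lit 1) true (nat_lit 8) true (nat_lit 14) true (nat_lit 3) true (nat_lit 12) true (nat_lit 9) (.s false (nat_lit 2) (nat_lit 18) (nat_lit 5) (nat_lit 3) (nat_lit 2) true (nat_lit 4) true (nat_lit 13) true (nat_lit 3) true (nat_lit 10) true (nat_lit 12) (.s false (nat_lit 2) (nat_lit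 18) (nat_lit 12) (nat_lit 2) (nat_lit 1) true (nat_lit 2) true (nat_lit 14) true (nat_lit 3) true (nat_lit 7) true (nat_lit 13) (.s true (nat_lit 2) (nat_lit 18) (nat_lit 13) (nat_lit 0) (nat_lit 2) true (nat_lit 0) true (nat_lit 13) true (nat_lit 3) true (nat_lit 6) true (nat_lit 15) (.s true (nat_lit 3) (nat_lit 24) (nat_lit 2) (nat_lit 2) (nat_lit 6) true (nat_lit 3) true (nat_lit 9) true (nat_lit 2) true (nat_lit 13) true (nat_lit 13) (.s true (nat_lit 3) (nat_lit 25) (nat_lit 2) (nat_lit 2) (nat_lit 6) true (nat_lit 3) true (nat_lit 9) true (nat_lit 2) true (nat_lit 13) true (nat_lit 13) (.s false (nat_lit 1) (nat_lit 26) (nat_lit 2) (nat_lit 2) (nat_lit 6) true (nat_lit 3) true (nat_lit 9) true (nat_lit 2) true (nat_lit 13) true (nat_lit 13) (.s false (nat_lit 2) (nat_lit 27) (nat_lit 2) (nat_lit 2) (nat_lit 6) true (nat_lit 3) true (nat_lit 9) true (nat_lit 2) true (nat_lit 13) true (nat_lit 13) (.s false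 (nat_lit 3) (nat_lit 25) (nat_lit 2) (nat_lit 6) (nat_lit 2) true (nat_lit 9) true (nat_lit 13) true (nat_lit 2) true (nat_lit 13) true (nat_lit 9) (.s false (nat_lit 1) (nat_lit 31) (nat_lit 1) (nat_lit 2) (nat_lit 6) true (nat_lit 4) true (nat_lit 9) true (nat_lit 1) true (nat_lit 14) true (nat_lit 13) (.s true (nat_lit 1) (nat_lit 33) (nat_lit 1) (nat_lit 2) (nat_lit 6) true (nat_lit 4) true (nat_lit 9) true (nat_lit 1) true (nat_lit 14) true (nat_lit 13) (.s true (nat_lit 3) (nat_lit 36) (nat_lit 1) (nat_lit 2) (nat_lit 6) true (nat_lit 4) true (nat_lit 9) true (nat_lit 1) true (nat_lit 14) true (nat_lit 13) dC1d_i48)))))))))))))))))))))))))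

noncomputable def dC1d_i50 : IL := (.e false (nat_lit 3) (nat_lit 62) (nat_lit 6) (nat_lit 6) (.e true (nat_lit 1) (nat_lit 65) (nat_lit 6) (nat_lit 6) (.e true (nat_lit 2) (nat_lit 40) (nat_lit 10) (nat_lit 3) (.e false (nat_lit 2) (nat_lit 82) (nat_lit 4) (nat_lit 8) (.e true (nat_lit 2) (nat_lit 32) (nat_lit 15) (nat_lit 2) (.e true (nat_lit 2) (nat_lit 183) (nat_lit 0) (nat_lit 12) (.e false (nat_lit 1) (nat_lit 184) (nat_lit 0) (nat_lit 12) (.e true (nat_lit 1) (nat_lit 188) (nat_lit 0) (nat_lit 12) (.e false (nat_lit 1) (nat_lit 189) (nat_lit 0) (nat_lit 12) (.e true (nat_lit 1) (nat_lit 192) (nat_lit 0) (nat_lit 12) (.e false (nat_lit 3) (nat_lit 193) (nat_lit 0) (nat_lit 12) (.e false (nat_lit 1) (nat_lit 174) (nat_lit 1) (nat_lit 11) (.e false (nat_lit 1) (nat_lit 32) (nat_lit 14) (nat_lit 2) (.e true (nat_lit 3) (nat_lit 181) (nat_lit 0) (nat_lit 12) (.e true (nat_lit 2) (nat_lit 31) (nat_lit 15) (nat_lit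 2) (.e true (nat_lit 1) (nat_lit 31) (nat_lit 14) (nat_lit 2) (.e true (nat_lit 1) (nat_lit 41) (nat_lit 10) (nat_lit 3) (.e false (nat_lit 2) (nat_lit 46) (nat_lit 7) (nat_lit 5) (.e true (nat_lit 2) (nat_lit 22) (nat_lit 18) (nat_lit 0) (.e true (nat_lit 2) (nat_lit 42) (nat_lit 10) (nat_lit 3) (.e true (nat_lit 3) (nat_lit 20) (nat_lit 18) (nat_lit 0) (.e true (nat_lit 3) (nat_lit 101) (nat_lit 3) (nat_lit 9) (.e true (nat_lit 1) (nat_lit 83) (nat_lit 4) (nat_lit 8) (.e false (nat_lit 1) (nat_lit 90) (nat_lit 4) (nat_lit 8) (.u (nat_lit 2) (.p (nat_lit 0) (nat_lit 3) (.n (nat_lit 1) (nat_lit 2) (.n (nat_lit 2) (nat_lit 2) (.n (nat_lit 4) (nat_lit 2) (.p (nat_lit 5) (nat_lit 2) (.p (nat_lit 6) (nat_lit 3) (.p (nat_lit 7) (nat_lit 3) (.n (nat_lit 9) (nat_lit 3) (.n (nat_lit 10) (nat_lit 1) (.n (nat_lit 11) (nat_lit 1) (.p (nat_lit 12) (nat_lit 1) (.n (nat_lit 13) (nat_lit 3) (.p (nat_lit 14) (nat_lit 2) (.n (nat_lit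 15) (nat_lit 1) (.n (nat_lit 17) (nat_lit 2) (.n (nat_lit 18) (nat_lit 1) (.n (nat_lit 20) (nat_lit 2) (.n (nat_lit 23) (nat_lit 1) (.n (nat_lit 26) (nat_lit 2) (.n (nat_lit 27) (nat_lit 1) (.n (nat_lit 28) (nat_lit 2) (.p (nat_lit 31) (nat_lit 1) (.n (nat_lit 46) (nat_lit 1) (.p (nat_lit 49) (nat_lit 1) (.n (nat_lit 51) (nat_lit 1) (.p (nat_lit 52) (nat_lit 1) (.n (nat_lit 64) (nat_lit 1) (.p (nat_lit 67) (nat_lit 2) (.n (nat_lit 68) (nat_lit 1) (.p (nat_lit 95) (nat_lit 1) (.p (nat_lit 96) (nat_lit 8) (.p (nat_lit 97) (nat_lit 1) (.p (nat_lit 98) (nat_lit 11) (.p (nat_lit 99) (nat_lit 5) (.n (nat_lit 101) (nat_lit 1) (.n (nat_lit 102) (nat_lit 5) (.p (nat_lit 103) (nat_lit 5) (.n (nat_lit 104) (nat_lit 3) (.n (nat_lit 106) (nat_lit 10) (.p (nat_lit 107) (nat_lit 1) (.p (nat_lit 108) (nat_lit 3) (.n (nat_lit 110) (nat_lit 1) (.p (nat_lit 114) (nat_lit 4) (.n (nat_lit 115) (nat_lit 6) (.n (nat_lit 117) (nat_lit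 2) (.p (nat_lit 118) (nat_lit 2) (.n (nat_lit 119) (nat_lit 4) (.n (nat_lit 120) (nat_lit 1) (.n (nat_lit 122) (nat_lit 5) (.n (nat_lit 123) (nat_lit 1) (.p (nat_lit 124) (nat_lit 1) (.p (nat_lit 126) (nat_lit 1) (.p (nat_lit 127) (nat_lit 3) (.n (nat_lit 129) (nat_lit 1) (.n (nat_lit 130) (nat_lit 1) (.p (nat_lit 131) (nat_lit 3) (.n (nat_lit 133) (nat_lit 1) (.n (nat_lit 135) (nat_lit 2) (.n (nat_lit 136) (nat_lit 2) (.p (nat_lit 137) (nat_lit 1) .z)))))))))))))))))))))))))))))))))))))))))))))))))))))))))))) .nil)))))))))))))))))))))))))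

noncomputable def dC1d_i51 : IL := (.s false (nat_lit 1) (nat_lit 45) (nat_lit 0) (nat_lit 2) (nat_lit 0) false (nat_lit 13) true (nat_lit 12) false (nat_lit 4) true (nat_lit 12) true (nat_lit 10) (.s false (nat_lit 2) (nat_lit 46) (nat_lit 1) (nat_lit 0) (nat_lit 0) true (nat_lit 9) true (nat_lit 12) false (nat_lit 5) true (nat_lit 11) true (nat_lit 12) (.e true (nat_lit 2) (nat_lit 21) (nat_lit 18) (nat_lit 0) (.e true (nat_lit 3) (nat_lit 132) (nat_lit 2) (nat_lit 10) (.e true (nat_lit 2) (nat_lit 134) (nat_lit 2) (nat_lit 10) (.e false (nat_lit 3) (nat_lit 136) (nat_lit 2) (nat_lit 10) (.e false (nat_lit 1) (nat_lit 137) (nat_lit 2) (nat_lit 10) (.e true (nat_lit 3) (nat_lit 138) (nat_lit 2) (nat_lit 10) (.e false (nat_lit 2) (nat_lit 139) (nat_lit 2) (nat_lit 10) (.e true (nat_lit 3) (nat_lit 140) (nat_lit 2) (nat_lit 10) (.e true (nat_lit 3) (nat_lit 141) (nat_lit 2) (nat_lit 10) (.e false (nat_lit 2) (nat_lit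 142) (nat_lit 2) (nat_lit 10) (.e true (nat_lit 1) (nat_lit 152) (nat_lit 2) (nat_lit 10) (.e true (nat_lit 3) (nat_lit 175) (nat_lit 1) (nat_lit 11) (.e false (nat_lit 2) (nat_lit 77) (nat_lit 5) (nat_lit 7) (.e true (nat_lit 3) (nat_lit 150) (nat_lit 2) (nat_lit 10) (.e true (nat_lit 3) (nat_lit 135) (nat_lit 2) (nat_lit 10) (.e true (nat_lit 1) (nat_lit 144) (nat_lit 2) (nat_lit 10) (.e true (nat_lit 1) (nat_lit 145) (nat_lit 2) (nat_lit 10) (.e false (nat_lit 2) (nat_lit 147) (nat_lit 2) (nat_lit 10) (.e true (nat_lit 2) (nat_lit 148) (nat_lit 2) (nat_lit 10) (.e false (nat_lit 1) (nat_lit 149) (nat_lit 2) (nat_lit 10) (.e true (nat_lit 1) (nat_lit 151) (nat_lit 2) (nat_lit 10) (.e true (nat_lit 2) (nat_lit 55) (nat_lit 6) (nat_lit 6) (.e false (nat_lit 1) (nat_lit 56) (nat_lit 6) (nat_lit 6) dC1d_i50)))))))))))))))))))))))))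

noncomputable def dC1d_i52 : IL := (.s true (nat_lit 3) (nat_lit 12) (nat_lit 0) (nat_lit 2) (nat_lit 6) true (nat_lit 2) true (nat_lit 6) true (nat_lit 3) true (nat_lit 12) true (nat_lit 10) (.s false (nat_lit 3) (nat_lit 12) (nat_lit 2) (nat_lit 2) (nat_lit 4) true (nat_lit 2) true (nat_lit 8) true (nat_lit 3) true (nat_lit 10) true (nat_lit 10) (.s true (nat_lit 2) (nat_lit 10) (nat_lit 2) (nat_lit 4) (nat_lit 2) true (nat_lit 6) true (nat_lit 10) true (nat_lit 3) true (nat_lit 10) true (nat_lit 8) (.s true (nat_lit 3) (nat_lit 15) (nat_lit 0) (nat_lit 1) (nat_lit 6) true (nat_lit 2) true (nat_lit 6) true (nat_lit 2) true (nat_lit 12) true (nat_lit 11) (.s true (nat_lit 1) (nat_lit 14) (nat_lit 1) (nat_lit 4) (nat_lit 2) true (nat_lit 7) true (nat_lit 10) true (nat_lit 2) true (nat_lit 11) true (nat_lit 8) (.s true (nat_lit 3) (nat_lit 15) (nat_lit 1) (nat_lit 6) (nat_lit 0) true (nat_lit 9) true (nat_lit 12)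 true (nat_lit 2) true (nat_lit 11) true (nat_lit 6) (.s false (nat_lit 1) (nat_lit 14) (nat_lit 2) (nat_lit 3) (nat_lit 2) true (nat_lit 6) true (nat_lit 10) true (nat_lit 2) true (nat_lit 10) true (nat_lit 9) (.s false (nat_lit 1) (nat_lit 15) (nat_lit 3) (nat_lit 2) (nat_lit 2) true (nat_lit 3) true (nat_lit 10) true (nat_lit 2) true (nat_lit 9) true (nat_lit 10) (.s false (nat_lit 2) (nat_lit 15) (nat_lit 6) (nat_lit 1) (nat_lit 0) true (nat_lit 2) true (nat_lit 12) true (nat_lit 2) true (nat_lit 6) true (nat_lit 11) (.s true (nat_lit 3) (nat_lit 18) (nat_lit 0) (nat_lit 2) (nat_lit 3) true (nat_lit 5) true (nat_lit 9) true (nat_lit 0) true (nat_lit 12) true (nat_lit 10) (.s false (nat_lit 2) (nat_lit 18) (nat_lit 3) (nat_lit 0) (nat_lit 2) true (nat_lit 3) true (nat_lit 10) true (nat_lit 0) true (nat_lit 9) true (nat_lit 12) (.s false (nat_lit 1) (nat_lit 18) (nat_lit 4) (nat_lit 1) (nat_lit 0) true (nat_lit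 4) true (nat_lit 12) true (nat_lit 0) true (nat_lit 8) true (nat_lit 11) (.s true (nat_lit 3) (nat_lit 23) (nat_lit 2) (nat_lit 2) (nat_lit 2) true (nat_lit 6) true (nat_lit 10) false (nat_lit 0) true (nat_lit 10) true (nat_lit 10) (.s false (nat_lit 3) (nat_lit 28) (nat_lit 2) (nat_lit 1) (nat_lit 2) true (nat_lit 6) true (nat_lit 10) false (nat_lit 1) true (nat_lit 10) true (nat_lit 11) (.s true (nat_lit 3) (nat_lit 33) (nat_lit 0) (nat_lit 2) (nat_lit 2) true (nat_lit 8) true (nat_lit 10) false (nat_lit 2) true (nat_lit 12) true (nat_lit 10) (.s true (nat_lit 1) (nat_lit 33) (nat_lit 2) (nat_lit 2) (nat_lit 0) true (nat_lit 8) true (nat_lit 12) false (nat_lit 2) true (nat_lit 10) true (nat_lit 10) (.s false (nat_lit 1) (nat_lit 34) (nat_lit 2) (nat_lit 2) (nat_lit 0) true (nat_lit 8) true (nat_lit 12) false (nat_lit 2) true (nat_lit 10) true (nat_lit 10) (.s true (nat_lit 1) (nat_lit 36) (nat_lit 2) (nat_lit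 2) (nat_lit 0) true (nat_lit 8) true (nat_lit 12) false (nat_lit 2) true (nat_lit 10) true (nat_lit 10) (.s false (nat_lit 3) (nat_lit 40) (nat_lit 0) (nat_lit 1) (nat_lit 2) true (nat_lit 8) true (nat_lit 10) false (nat_lit 3) true (nat_lit 12) true (nat_lit 11) (.s false (nat_lit 1) (nat_lit 40) (nat_lit 0) (nat_lit 2) (nat_lit 1) true (nat_lit 9) true (nat_lit 11) false (nat_lit 3) true (nat_lit 12) true (nat_lit 10) (.s false (nat_lit 1) (nat_lit 42) (nat_lit 0) (nat_lit 2) (nat_lit 1) true (nat_lit 9) true (nat_lit 11) false (nat_lit 3) true (nat_lit 12) true (nat_lit 10) (.s false (nat_lit 2) (nat_lit 40) (nat_lit 1) (nat_lit 2) (nat_lit 0) true (nat_lit 9) true (nat_lit 12) false (nat_lit 3) true (nat_lit 11) true (nat_lit 10) (.s false (nat_lit 1) (nat_lit 40) (nat_lit 2) (nat_lit 0) (nat_lit 1) true (nat_lit 7) true (nat_lit 11) false (nat_lit 3) true (nat_lit 10) true (nat_lit 12) (.s false (nat_lit 1)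 (nat_lit 42) (nat_lit 2) (nat_lit 0) (nat_lit 1) true (nat_lit 7) true (nat_lit 11) false (nat_lit 3) true (nat_lit 10) true (nat_lit 12) (.s false (nat_lit 2) (nat_lit 40) (nat_lit 2) (nat_lit 1) (nat_lit 0) true (nat_lit 8) true (nat_lit 12) false (nat_lit 3) true (nat_lit 10) true (nat_lit 11) dC1d_i51)))))))))))))))))))))))))

noncomputable def dC1d_i53 : IL := (.e true (nat_lit 2) (nat_lit 227) (nat_lit 2) (nat_lit 17) (.e false (nat_lit 3) (nat_lit 228) (nat_lit 2) (nat_lit 17) (.e false (nat_lit 2) (nat_lit 229) (nat_lit 2) (nat_lit 17) (.e true (nat_lit 1) (nat_lit 212) (nat_lit 2) (nat_lit 17) (.e true (nat_lit 2) (nat_lit 219) (nat_lit 2) (nat_lit 17) (.e true (nat_lit 3) (nat_lit 230) (nat_lit 2) (nat_lit 17) (.e false (nat_lit 3) (nat_lit 231) (nat_lit 2) (nat_lit 17) (.e true (nat_lit 1) (nat_lit 232) (nat_lit 2) (nat_lit 17) (.e false (nat_lit 3) (nat_lit 233) (nat_lit 2) (nat_lit 17) (.e true (nat_lit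 3) (nat_lit 234) (nat_lit 2) (nat_lit 17) (.e false (nat_lit 3) (nat_lit 235) (nat_lit 2) (nat_lit 17) (.e false (nat_lit 3) (nat_lit 236) (nat_lit 2) (nat_lit 17) (.e true (nat_lit 1) (nat_lit 238) (nat_lit 2) (nat_lit 17) (.e false (nat_lit 2) (nat_lit 239) (nat_lit 2) (nat_lit 17) (.e false (nat_lit 1) (nat_lit 240) (nat_lit 2) (nat_lit 17) (.e true (nat_lit 1) (nat_lit 241) (nat_lit 2) (nat_lit 17) (.e false (nat_lit 1) (nat_lit 242) (nat_lit 2) (nat_lit 17) (.e true (nat_lit 1) (nat_lit 243) (nat_lit 2) (nat_lit 17) (.e true (nat_lit 3) (nat_lit 245) (nat_lit 2) (nat_lit 17) (.e true (nat_lit 1) (nat_lit 216) (nat_lit 2) (nat_lit 17) (.e true (nat_lit 2) (nat_lit 218) (nat_lit 2) (nat_lit 17) (.e true (nat_lit 1) (nat_lit 248) (nat_lit 2) (nat_lit 17) (.e false (nat_lit 3) (nat_lit 246) (nat_lit 2) (nat_lit 17) (.u (nat_lit 2) (.n (nat_lit 0) (nat_lit 5) (.n (nat_lit 1) (nat_lit 5) (.p (nat_lit 2) (nat_lit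 6) (.p (nat_lit 3) (nat_lit 2) (.n (nat_lit 4) (nat_lit 2) (.n (nat_lit 5) (nat_lit 3) (.p (nat_lit 7) (nat_lit 1) (.p (nat_lit 8) (nat_lit 3) (.p (nat_lit 9) (nat_lit 1) (.p (nat_lit 10) (nat_lit 1) (.n (nat_lit 11) (nat_lit 2) (.p (nat_lit 12) (nat_lit 3) (.p (nat_lit 13) (nat_lit 3) (.n (nat_lit 14) (nat_lit 3) (.n (nat_lit 15) (nat_lit 3) (.p (nat_lit 16) (nat_lit 1) (.p (nat_lit 17) (nat_lit 1) (.n (nat_lit 18) (nat_lit 5) (.n (nat_lit 19) (nat_lit 1) (.n (nat_lit 20) (nat_lit 3) (.p (nat_lit 26) (nat_lit 4) (.p (nat_lit 27) (nat_lit 2) (.p (nat_lit 28) (nat_lit 1) (.p (nat_lit 29) (nat_lit 2) (.n (nat_lit 30) (nat_lit 5) (.p (nat_lit 31) (nat_lit 4) (.p (nat_lit 32) (nat_lit 1) (.n (nat_lit 33) (nat_lit 4) (.n (nat_lit 34) (nat_lit 3) (.p (nat_lit 35) (nat_lit 3) (.p (nat_lit 36) (nat_lit 7) (.p (nat_lit 37) (nat_lit 2) (.n (nat_lit 38) (nat_lit 9) (.p (nat_lit 39) (nat_lit 2) (.n (nat_lit 40) (nat_lit 6)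 (.n (nat_lit 41) (nat_lit 5) (.n (nat_lit 43) (nat_lit 1) (.p (nat_lit 44) (nat_lit 3) (.p (nat_lit 47) (nat_lit 1) (.p (nat_lit 49) (nat_lit 2) (.n (nat_lit 50) (nat_lit 2) (.n (nat_lit 52) (nat_lit 1) (.p (nat_lit 53) (nat_lit 1) (.p (nat_lit 54) (nat_lit 2) (.p (nat_lit 61) (nat_lit 1) (.n (nat_lit 62) (nat_lit 1) (.p (nat_lit 64) (nat_lit 1) (.n (nat_lit 69) (nat_lit 5) (.n (nat_lit 70) (nat_lit 3) (.p (nat_lit 317) (nat_lit 1) (.p (nat_lit 327) (nat_lit 1) (.p (nat_lit 328) (nat_lit 2) (.n (nat_lit 329) (nat_lit 1) (.p (nat_lit 331) (nat_lit 1) (.n (nat_lit 332) (nat_lit 2) (.n (nat_lit 333) (nat_lit 1) (.p (nat_lit 334) (nat_lit 2) (.p (nat_lit 335) (nat_lit 1) (.n (nat_lit 336) (nat_lit 3) (.n (nat_lit 337) (nat_lit 1) .z)))))))))))))))))))))))))))))))))))))))))))))))))))))))))))) (.u (nat_lit 2) (.p (nat_lit 339) (nat_lit 3) (.n (nat_lit 340) (nat_lit 1) (.p (nat_lit 342) (nat_lit 2) (.p (nat_lit 344) (nat_lit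 1) (.n (nat_lit 347) (nat_lit 2) (.n (nat_lit 351) (nat_lit 3) (.n (nat_lit 353) (nat_lit 2) (.p (nat_lit 354) (nat_lit 1) (.n (nat_lit 355) (nat_lit 1) (.n (nat_lit 356) (nat_lit 2) (.n (nat_lit 357) (nat_lit 1) (.p (nat_lit 358) (nat_lit 1) (.n (nat_lit 359) (nat_lit 1) (.n (nat_lit 363) (nat_lit 2) (.p (nat_lit 376) (nat_lit 1) (.n (nat_lit 377) (nat_lit 1) (.p (nat_lit 378) (nat_lit 2) (.n (nat_lit 380) (nat_lit 1) (.n (nat_lit 381) (nat_lit 1) (.n (nat_lit 382) (nat_lit 1) (.p (nat_lit 383) (nat_lit 1) (.p (nat_lit 384) (nat_lit 1) (.n (nat_lit 385) (nat_lit 1) (.n (nat_lit 386) (nat_lit 1) (.n (nat_lit 387) (nat_lit 1) (.p (nat_lit 389) (nat_lit 1) (.p (nat_lit 390) (nat_lit 1) (.p (nat_lit 392) (nat_lit 1) (.p (nat_lit 393) (nat_lit 3) (.p (nat_lit 394) (nat_lit 1) (.n (nat_lit 395) (nat_lit 1) (.p (nat_lit 397) (nat_lit 3) (.p (nat_lit 403) (nat_lit 2) (.n (nat_lit 404) (nat_lit 3) (.p (nat_lit 408) (nat_lit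 1) (.n (nat_lit 409) (nat_lit 1) (.n (nat_lit 410) (nat_lit 1) (.p (nat_lit 411) (nat_lit 1) (.n (nat_lit 412) (nat_lit 1) (.n (nat_lit 415) (nat_lit 1) (.p (nat_lit 416) (nat_lit 1) (.p (nat_lit 418) (nat_lit 1) (.p (nat_lit 420) (nat_lit 1) (.n (nat_lit 421) (nat_lit 1) (.n (nat_lit 422) (nat_lit 1) (.p (nat_lit 424) (nat_lit 1) (.p (nat_lit 425) (nat_lit 1) (.n (nat_lit 429) (nat_lit 1) (.p (nat_lit 432) (nat_lit 1) .z))))))))))))))))))))))))))))))))))))))))))))))))) .nil)))))))))))))))))))))))))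

noncomputable def dC1d_i54 : IL := (.e true (nat_lit 3) (nat_lit 276) (nat_lit 1) (nat_lit 18) (.e false (nat_lit 2) (nat_lit 277) (nat_lit 1) (nat_lit 18) (.e true (nat_lit 3) (nat_lit 278) (nat_lit 1) (nat_lit 18) (.e false (nat_lit 1) (nat_lit 280) (nat_lit 1) (nat_lit 18) (.e true (nat_lit 3) (nat_lit 281) (nat_lit 1) (nat_lit 18) (.e true (nat_lit 3) (nat_lit 283) (nat_lit 1) (nat_lit 18) (.e false (nat_lit 3) (nat_lit 284) (nat_lit 1) (nat_lit 18) (.e true (nat_lit 3) (nat_lit 286) (nat_lit 1) (nat_lit 18) (.e true (nat_lit 2) (nat_lit 288) (nat_lit 1) (nat_lit 18) (.e false (nat_lit 2) (nat_lit 268) (nat_lit 1) (nat_lit 18) (.e true (nat_lit 1) (nat_lit 269) (nat_lit 1) (nat_lit 18) (.e true (nat_lit 1) (nat_lit 279) (nat_lit 1) (nat_lit 18) (.e true (nat_lit 3) (nat_lit 311) (nat_lit 0) (nat_lit 19) (.e false (nat_lit 3) (nat_lit 316) (nat_lit 0) (nat_lit 19) (.e true (nat_lit 1) (nat_lit 317) (nat_lit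 0) (nat_lit 19) (.e true (nat_lit 3) (nat_lit 318) (nat_lit 0) (nat_lit 19) (.e false (nat_lit 3) (nat_lit 319) (nat_lit 0) (nat_lit 19) (.e false (nat_lit 1) (nat_lit 213) (nat_lit 2) (nat_lit 17) (.e false (nat_lit 1) (nat_lit 214) (nat_lit 2) (nat_lit 17) (.e false (nat_lit 2) (nat_lit 217) (nat_lit 2) (nat_lit 17) (.e false (nat_lit 2) (nat_lit 220) (nat_lit 2) (nat_lit 17) (.e false (nat_lit 1) (nat_lit 222) (nat_lit 2) (nat_lit 17) (.e true (nat_lit 3) (nat_lit 224) (nat_lit 2) (nat_lit 17) (.e false (nat_lit 1) (nat_lit 225) (nat_lit 2) (nat_lit 17) (.e true (nat_lit 3) (nat_lit 226) (nat_lit 2) (nat_lit 17) dC1d_i53)))))))))))))))))))))))))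

noncomputable def dC1d_i55 : IL := (.e false (nat_lit 3) (nat_lit 81) (nat_lit 13) (nat_lit 8) (.e false (nat_lit 3) (nat_lit 237) (nat_lit 2) (nat_lit 17) (.e false (nat_lit 1) (nat_lit 244) (nat_lit 2) (nat_lit 17) (.e false (nat_lit 3) (nat_lit 258) (nat_lit 2) (nat_lit 17) (.e false (nat_lit 3) (nat_lit 146) (nat_lit 5) (nat_lit 14) (.e false (nat_lit 3) (nat_lit 298) (nat_lit 0) (nat_lit 19) (.e true (nat_lit 1) (nat_lit 301) (nat_lit 0) (nat_lit 19) (.e false (nat_lit 3) (nat_lit 302) (nat_lit 0) (nat_lit 19) (.e true (nat_lit 1) (nat_lit 303) (nat_lit 0) (nat_lit 19) (.e false (nat_lit 2) (nat_lit 305) (nat_lit 0) (nat_lit 19) (.e false (nat_lit 1) (nat_lit 314) (nat_lit 0) (nat_lit 19) (.e false (nat_lit 3) (nat_lit 315) (nat_lit 0) (nat_lit 19) (.e true (nat_lit 3) (nat_lit 260) (nat_lit 1) (nat_lit 18) (.e true (nat_lit 1) (nat_lit 261) (nat_lit 1) (nat_lit 18) (.e true (nat_lit 2) (nat_lit 262) (nat_lit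 1) (nat_lit 18) (.e true (nat_lit 2) (nat_lit 263) (nat_lit 1) (nat_lit 18) (.e false (nat_lit 1) (nat_lit 265) (nat_lit 1) (nat_lit 18) (.e false (nat_lit 1) (nat_lit 266) (nat_lit 1) (nat_lit 18) (.e true (nat_lit 2) (nat_lit 267) (nat_lit 1) (nat_lit 18) (.e true (nat_lit 2) (nat_lit 270) (nat_lit 1) (nat_lit 18) (.e false (nat_lit 1) (nat_lit 271) (nat_lit 1) (nat_lit 18) (.e false (nat_lit 1) (nat_lit 272) (nat_lit 1) (nat_lit 18) (.e true (nat_lit 3) (nat_lit 273) (nat_lit 1) (nat_lit 18) (.e false (nat_lit 2) (nat_lit 274) (nat_lit 1) (nat_lit 18) (.e true (nat_lit 1) (nat_lit 275) (nat_lit 1) (nat_lit 18) dC1d_i54)))))))))))))))))))))))))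

noncomputable def dC1d_i56 : IL := (.s false (nat_lit 3) (nat_lit 105) (nat_lit 2) (nat_lit 0) (nat_lit 0) true (nat_lit 11) true (nat_lit 15) false (nat_lit 7) true (nat_lit 13) true (nat_lit 15) (.e false (nat_lit 3) (nat_lit 183) (nat_lit 4) (nat_lit 11) (.e false (nat_lit 3) (nat_lit 185) (nat_lit 4) (nat_lit 11) (.e false (nat_lit 3) (nat_lit 187) (nat_lit 4) (nat_lit 11) (.e true (nat_lit 3) (nat_lit 188) (nat_lit 4) (nat_lit 11) (.e false (nat_lit 1) (nat_lit 189) (nat_lit 4) (nat_lit 11) (.e true (nat_lit 2) (nat_lit 190) (nat_lit 4) (nat_lit 11) (.e false (nat_lit 3) (nat_lit 191) (nat_lit 4) (nat_lit 11) (.e false (nat_lit 3) (nat_lit 193) (nat_lit 4) (nat_lit 11) (.e false (nat_lit 3) (nat_lit 195) (nat_lit 4) (nat_lit 11) (.e true (nat_lit 3) (nat_lit 328) (nat_lit 0) (nat_lit 15) (.e false (nat_lit 2) (nat_lit 329) (nat_lit 0) (nat_lit 15) (.e true (nat_lit 2) (nat_lit 330) (nat_lit 0) (nat_lit 15)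 (.e false (nat_lit 2) (nat_lit 331) (nat_lit 0) (nat_lit 15) (.e false (nat_lit 3) (nat_lit 332) (nat_lit 0) (nat_lit 15) (.e true (nat_lit 3) (nat_lit 333) (nat_lit 0) (nat_lit 15) (.e false (nat_lit 2) (nat_lit 335) (nat_lit 0) (nat_lit 15) (.e true (nat_lit 2) (nat_lit 336) (nat_lit 0) (nat_lit 15) (.e true (nat_lit 3) (nat_lit 337) (nat_lit 0) (nat_lit 15) (.e true (nat_lit 2) (nat_lit 338) (nat_lit 0) (nat_lit 15) (.e false (nat_lit 3) (nat_lit 343) (nat_lit 0) (nat_lit 15) (.e false (nat_lit 3) (nat_lit 344) (nat_lit 0) (nat_lit 15) (.e true (nat_lit 3) (nat_lit 105) (nat_lit 9) (nat_lit 7) (.e true (nat_lit 3) (nat_lit 334) (nat_lit 0) (nat_lit 15) (.u (nat_lit 2) (.n (nat_lit 0) (nat_lit 1) (.p (nat_lit 1) (nat_lit 2) (.n (nat_lit 2) (nat_lit 2) (.n (nat_lit 3) (nat_lit 1) (.p (nat_lit 4) (nat_lit 6) (.p (nat_lit 5) (nat_lit 1) (.n (nat_lit 6) (nat_lit 5) (.n (nat_lit 7) (nat_lit 2) (.p (nat_lit 8) (nat_lit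 2) (.p (nat_lit 9) (nat_lit 3) (.n (nat_lit 10) (nat_lit 5) (.n (nat_lit 11) (nat_lit 3) (.p (nat_lit 12) (nat_lit 2) (.p (nat_lit 13) (nat_lit 2) (.p (nat_lit 14) (nat_lit 2) (.p (nat_lit 15) (nat_lit 5) (.p (nat_lit 16) (nat_lit 2) (.n (nat_lit 17) (nat_lit 1) (.p (nat_lit 18) (nat_lit 2) (.n (nat_lit 19) (nat_lit 3) (.n (nat_lit 20) (nat_lit 4) (.n (nat_lit 23) (nat_lit 3) (.p (nat_lit 24) (nat_lit 3) (.n (nat_lit 25) (nat_lit 1) (.n (nat_lit 26) (nat_lit 3) (.n (nat_lit 27) (nat_lit 3) (.p (nat_lit 28) (nat_lit 2) (.p (nat_lit 29) (nat_lit 1) (.p (nat_lit 30) (nat_lit 3) (.p (nat_lit 31) (nat_lit 3) (.n (nat_lit 33) (nat_lit 1) (.p (nat_lit 158) (nat_lit 1) (.n (nat_lit 161) (nat_lit 1) (.n (nat_lit 162) (nat_lit 1) (.p (nat_lit 212) (nat_lit 1) (.n (nat_lit 213) (nat_lit 1) (.p (nat_lit 214) (nat_lit 1) (.p (nat_lit 216) (nat_lit 3) (.n (nat_lit 218) (nat_lit 2) (.n (nat_lit 219) (nat_lit 1) (.p (nat_lit 220)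 (nat_lit 3) (.n (nat_lit 221) (nat_lit 1) .z)))))))))))))))))))))))))))))))))))))))))) .nil)))))))))))))))))))))))))

noncomputable def dC1d_i57 : IL := (.e true (nat_lit 2) (nat_lit 144) (nat_lit 2) (nat_lit 10) (.e false (nat_lit 3) (nat_lit 145) (nat_lit 2) (nat_lit 10) (.e true (nat_lit 1) (nat_lit 146) (nat_lit 2) (nat_lit 10) (.e true (nat_lit 3) (nat_lit 147) (nat_lit 2) (nat_lit 10) (.e true (nat_lit 3) (nat_lit 149) (nat_lit 2) (nat_lit 10) (.e false (nat_lit 1) (nat_lit 150) (nat_lit 2) (nat_lit 10) (.e true (nat_lit 3) (nat_lit 152) (nat_lit 2) (nat_lit 10) (.e true (nat_lit 3) (nat_lit 132) (nat_lit 2) (nat_lit 10) (.e false (nat_lit 2) (nat_lit 133) (nat_lit 2) (nat_lit 10) (.e true (nat_lit 3) (nat_lit 140) (nat_lit 2) (nat_lit 10) (.e true (nat_lit 1) (nat_lit 148) (nat_lit 2) (nat_lit 10) (.e false (nat_lit 1) (nat_lit 31) (nat_lit 14) (nat_lit 2) (.e true (nat_lit 2) (nat_lit 180) (nat_lit 0) (nat_lit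 12) (.e true (nat_lit 1) (nat_lit 181) (nat_lit 0) (nat_lit 12) (.e true (nat_lit 1) (nat_lit 189) (nat_lit 0) (nat_lit 12) (.e true (nat_lit 3) (nat_lit 31) (nat_lit 15) (nat_lit 2) (.e true (nat_lit 3) (nat_lit 41) (nat_lit 10) (nat_lit 3) (.e true (nat_lit 1) (nat_lit 82) (nat_lit 4) (nat_lit 8) (.e true (nat_lit 1) (nat_lit 83) (nat_lit 4) (nat_lit 8) (.e false (nat_lit 1) (nat_lit 183) (nat_lit 0) (nat_lit 12) (.e true (nat_lit 1) (nat_lit 186) (nat_lit 0) (nat_lit 12) (.e false (nat_lit 1) (nat_lit 42) (nat_lit 10) (nat_lit 3) (.e false (nat_lit 1) (nat_lit 20) (nat_lit 18) (nat_lit 0) (.e false (nat_lit 1) (nat_lit 40) (nat_lit 10) (nat_lit 3) (.u (nat_lit 2) (.n (nat_lit 0) (nat_lit 1) (.n (nat_lit 1) (nat_lit 1) (.n (nat_lit 2) (nat_lit 2) (.n (nat_lit 3) (nat_lit 3) (.p (nat_lit 4) (nat_lit 2) (.p (nat_lit 5) (nat_lit 1) (.p (nat_lit 6) (nat_lit 2) (.n (nat_lit 7) (nat_lit 1) (.n (nat_lit 9) (nat_lit 3)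 (.p (nat_lit 11) (nat_lit 1) (.p (nat_lit 14) (nat_lit 1) (.n (nat_lit 15) (nat_lit 1) (.n (nat_lit 17) (nat_lit 1) (.p (nat_lit 20) (nat_lit 1) (.n (nat_lit 26) (nat_lit 1) (.n (nat_lit 27) (nat_lit 1) (.p (nat_lit 28) (nat_lit 1) (.n (nat_lit 44) (nat_lit 1) (.n (nat_lit 47) (nat_lit 1) (.p (nat_lit 48) (nat_lit 1) (.p (nat_lit 65) (nat_lit 1) (.n (nat_lit 66) (nat_lit 1) (.n (nat_lit 67) (nat_lit 1) (.p (nat_lit 68) (nat_lit 1) (.n (nat_lit 75) (nat_lit 1) (.n (nat_lit 97) (nat_lit 2) (.n (nat_lit 98) (nat_lit 1) (.n (nat_lit 99) (nat_lit 3) (.p (nat_lit 101) (nat_lit 2) (.n (nat_lit 103) (nat_lit 1) (.p (nat_lit 104) (nat_lit 1) (.n (nat_lit 107) (nat_lit 1) (.p (nat_lit 109) (nat_lit 1) (.p (nat_lit 111) (nat_lit 1) (.p (nat_lit 113) (nat_lit 1) (.n (nat_lit 114) (nat_lit 1) (.p (nat_lit 123) (nat_lit 1) (.p (nat_lit 126) (nat_lit 1) (.p (nat_lit 129) (nat_lit 1) (.p (nat_lit 130) (nat_lit 1) (.p (nat_lit 131)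 (nat_lit 1) .z))))))))))))))))))))))))))))))))))))))))) .nil)))))))))))))))))))))))))

noncomputable def dC1d_i58 : IL := (.s true (nat_lit 1) (nat_lit 18) (nat_lit 3) (nat_lit 0) (nat_lit 2) true (nat_lit 3) true (nat_lit 10) true (nat_lit 0) true (nat_lit 9) true (nat_lit 12) (.s true (nat_lit 1) (nat_lit 18) (nat_lit 5) (nat_lit 0) (nat_lit 0) true (nat_lit 3) true (nat_lit 12) true (nat_lit 0) true (nat_lit 7) true (nat_lit 12) (.s false (nat_lit 1) (nat_lit 23) (nat_lit 2) (nat_lit 2) (nat_lit 2) true (nat_lit 6) true (nat_lit 10) false (nat_lit 0) true (nat_lit 10) true (nat_lit 10) (.s true (nat_lit 1) (nat_lit 33) (nat_lit 0) (nat_lit 2) (nat_lit 2) true (nat_lit 8) true (nat_lit 10) false (nat_lit 2) true (nat_lit 12) true (nat_lit 10) (.s true (nat_lit 1) (nat_lit 34) (nat_lit 0) (nat_lit 2) (nat_lit 2) true (nat_lit 8) true (nat_lit 10) false (nat_lit 2) true (nat_lit 12) true (nat_lit 10) (.s true (nat_lit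 3) (nat_lit 35) (nat_lit 0) (nat_lit 2) (nat_lit 2) true (nat_lit 8) true (nat_lit 10) false (nat_lit 2) true (nat_lit 12) true (nat_lit 10) (.s false (nat_lit 3) (nat_lit 35) (nat_lit 2) (nat_lit 0) (nat_lit 2) true (nat_lit 6) true (nat_lit 10) false (nat_lit 2) true (nat_lit 10) true (nat_lit 12) (.s true (nat_lit 3) (nat_lit 33) (nat_lit 2) (nat_lit 2) (nat_lit 0) true (nat_lit 8) true (nat_lit 12) false (nat_lit 2) true (nat_lit 10) true (nat_lit 10) (.s false (nat_lit 3) (nat_lit 35) (nat_lit 2) (nat_lit 2) (nat_lit 0) true (nat_lit 8) true (nat_lit 12) false (nat_lit 2) true (nat_lit 10) true (nat_lit 10) (.s false (nat_lit 1) (nat_lit 40) (nat_lit 0) (nat_lit 1) (nat_lit 2) true (nat_lit 8) true (nat_lit 10) false (nat_lit 3) true (nat_lit 12) true (nat_lit 11) (.s false (nat_lit 1) (nat_lit 40) (nat_lit 2) (nat_lit 0) (nat_lit 1) true (nat_lit 7) true (nat_lit 11) false (nat_lit 3) true (nat_lit 10) true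 (nat_lit 12) (.s false (nat_lit 1) (nat_lit 45) (nat_lit 0) (nat_lit 0) (nat_lit 2) true (nat_lit 8) true (nat_lit 10) false (nat_lit 4) true (nat_lit 12) true (nat_lit 12) (.e false (nat_lit 1) (nat_lit 32) (nat_lit 15) (nat_lit 2) (.e true (nat_lit 1) (nat_lit 55) (nat_lit 6) (nat_lit 6) (.e true (nat_lit 1) (nat_lit 57) (nat_lit 6) (nat_lit 6) (.e true (nat_lit 2) (nat_lit 65) (nat_lit 6) (nat_lit 6) (.e false (nat_lit 1) (nat_lit 188) (nat_lit 0) (nat_lit 12) (.e false (nat_lit 3) (nat_lit 32) (nat_lit 14) (nat_lit 2) (.e true (nat_lit 3) (nat_lit 134) (nat_lit 2) (nat_lit 10) (.e true (nat_lit 3) (nat_lit 135) (nat_lit 2) (nat_lit 10) (.e true (nat_lit 3) (nat_lit 137) (nat_lit 2) (nat_lit 10) (.e false (nat_lit 3) (nat_lit 138) (nat_lit 2) (nat_lit 10) (.e false (nat_lit 1) (nat_lit 139) (nat_lit 2) (nat_lit 10) (.e true (nat_lit 3) (nat_lit 141) (nat_lit 2) (nat_lit 10) (.e true (nat_lit 3) (nat_lit 142)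 (nat_lit 2) (nat_lit 10) dC1d_i57)))))))))))))))))))))))))

noncomputable def dC1d_i59 : IL := (.e true (nat_lit 2) (nat_lit 170) (nat_lit 2) (nat_lit 10) (.e true (nat_lit 1) (nat_lit 171) (nat_lit 2) (nat_lit 10) (.e true (nat_lit 2) (nat_lit 173) (nat_lit 2) (nat_lit 10) (.e true (nat_lit 2) (nat_lit 172) (nat_lit 2) (nat_lit 10) (.e true (nat_lit 1) (nat_lit 158) (nat_lit 2) (nat_lit 10) (.e false (nat_lit 2) (nat_lit 165) (nat_lit 2) (nat_lit 10) (.e true (nat_lit 1) (nat_lit 164) (nat_lit 2) (nat_lit 10) (.e false (nat_lit 2) (nat_lit 169) (nat_lit 2) (nat_lit 10) (.e false (nat_lit 2) (nat_lit 40) (nat_lit 13) (nat_lit 3) (.e true (nat_lit 3) (nat_lit 180) (nat_lit 1) (nat_lit 11) (.e false (nat_lit 2) (nat_lit 183) (nat_lit 1) (nat_lit 11) (.e true (nat_lit 3) (nat_lit 186) (nat_lit 1) (nat_lit 11) (.e true (nat_lit 1) (nat_lit 192) (nat_lit 1) (nat_lit 11) (.e false (nat_lit 1) (nat_lit 195) (nat_lit 1)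 (nat_lit 11) (.e false (nat_lit 3) (nat_lit 166) (nat_lit 2) (nat_lit 10) (.e true (nat_lit 3) (nat_lit 31) (nat_lit 17) (nat_lit 1) (.e false (nat_lit 3) (nat_lit 31) (nat_lit 16) (nat_lit 1) (.e false (nat_lit 3) (nat_lit 105) (nat_lit 3) (nat_lit 9) (.e false (nat_lit 3) (nat_lit 200) (nat_lit 0) (nat_lit 12) (.e false (nat_lit 3) (nat_lit 46) (nat_lit 8) (nat_lit 5) (.e false (nat_lit 3) (nat_lit 24) (nat_lit 18) (nat_lit 0) (.e false (nat_lit 1) (nat_lit 45) (nat_lit 10) (nat_lit 4) (.e false (nat_lit 3) (nat_lit 43) (nat_lit 10) (nat_lit 4) (.u (nat_lit 2) (.n (nat_lit 0) (nat_lit 4) (.n (nat_lit 1) (nat_lit 4) (.p (nat_lit 3) (nat_lit 1) (.p (nat_lit 4) (nat_lit 5) (.n (nat_lit 6) (nat_lit 1) (.n (nat_lit 8) (nat_lit 3) (.n (nat_lit 11) (nat_lit 1) (.n (nat_lit 12) (nat_lit 3) (.p (nat_lit 13) (nat_lit 1) (.n (nat_lit 14) (nat_lit 3) (.n (nat_lit 15) (nat_lit 3) (.n (nat_lit 17) (nat_lit 3) (.n (nat_lit 18)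 (nat_lit 2) (.p (nat_lit 20) (nat_lit 1) (.n (nat_lit 21) (nat_lit 1) (.n (nat_lit 22) (nat_lit 1) (.p (nat_lit 23) (nat_lit 1) (.n (nat_lit 24) (nat_lit 1) (.p (nat_lit 26) (nat_lit 1) (.p (nat_lit 27) (nat_lit 3) (.n (nat_lit 28) (nat_lit 1) (.p (nat_lit 29) (nat_lit 1) (.p (nat_lit 44) (nat_lit 1) (.n (nat_lit 66) (nat_lit 1) (.n (nat_lit 68) (nat_lit 1) (.n (nat_lit 69) (nat_lit 1) (.n (nat_lit 83) (nat_lit 1) (.n (nat_lit 92) (nat_lit 1) (.p (nat_lit 93) (nat_lit 1) (.p (nat_lit 94) (nat_lit 1) (.n (nat_lit 95) (nat_lit 1) (.p (nat_lit 97) (nat_lit 1) (.p (nat_lit 98) (nat_lit 5) (.n (nat_lit 99) (nat_lit 1) (.p (nat_lit 100) (nat_lit 2) (.p (nat_lit 101) (nat_lit 1) (.p (nat_lit 102) (nat_lit 4) (.n (nat_lit 103) (nat_lit 4) (.n (nat_lit 104) (nat_lit 3) (.p (nat_lit 105) (nat_lit 4) (.n (nat_lit 106) (nat_lit 2) (.p (nat_lit 107) (nat_lit 1) (.p (nat_lit 108) (nat_lit 1) (.n (nat_lit 109) (nat_lit 2) (.n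 (nat_lit 110) (nat_lit 1) (.p (nat_lit 111) (nat_lit 3) (.n (nat_lit 112) (nat_lit 1) (.p (nat_lit 113) (nat_lit 1) (.p (nat_lit 114) (nat_lit 2) (.p (nat_lit 115) (nat_lit 2) (.p (nat_lit 116) (nat_lit 2) (.n (nat_lit 117) (nat_lit 3) (.n (nat_lit 118) (nat_lit 3) (.p (nat_lit 119) (nat_lit 1) (.n (nat_lit 120) (nat_lit 1) (.n (nat_lit 121) (nat_lit 1) (.n (nat_lit 122) (nat_lit 1) (.p (nat_lit 123) (nat_lit 4) (.p (nat_lit 124) (nat_lit 4) (.n (nat_lit 125) (nat_lit 1) .z)))))))))))))))))))))))))))))))))))))))))))))))))))))))))))) (.u (nat_lit 2) (.p (nat_lit 126) (nat_lit 2) (.p (nat_lit 127) (nat_lit 3) (.p (nat_lit 129) (nat_lit 1) .z))) .nil)))))))))))))))))))))))))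

noncomputable def dC1d_i60 : IL := (.s true (nat_lit 2) (nat_lit 39) (nat_lit 2) (nat_lit 0) (nat_lit 2) true (nat_lit 6) true (nat_lit 10) false (nat_lit 2) true (nat_lit 10) true (nat_lit 12) (.s true (nat_lit 2) (nat_lit 40) (nat_lit 1) (nat_lit 1) (nat_lit 2) true (nat_lit 7) true (nat_lit 10) false (nat_lit 3) true (nat_lit 11) true (nat_lit 11) (.s false (nat_lit 2) (nat_lit 42) (nat_lit 1) (nat_lit 1) (nat_lit 2) true (nat_lit 7) true (nat_lit 10) false (nat_lit 3) true (nat_lit 11) true (nat_lit 11) (.s true (nat_lit 2) (nat_lit 43) (nat_lit 0) (nat_lit 2) (nat_lit 1) true (nat_lit 9) true (nat_lit 11) false (nat_lit 4) true (nat_lit 12) true (nat_lit 10) (.s true (nat_lit 3) (nat_lit 43) (nat_lit 1) (nat_lit 0) (nat_lit 2) true (nat_lit 7) true (nat_lit 10) false (nat_lit 4) true (nat_lit 11) true (nat_lit 12) (.s false (nat_lit 2) (nat_lit 43) (nat_lit 1) (nat_lit 2) (nat_lit 0) true (nat_lit 9) true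 (nat_lit 12) false (nat_lit 4) true (nat_lit 11) true (nat_lit 10) (.s false (nat_lit 2) (nat_lit 43) (nat_lit 2) (nat_lit 1) (nat_lit 0) true (nat_lit 8) true (nat_lit 12) false (nat_lit 4) true (nat_lit 10) true (nat_lit 11) (.s false (nat_lit 1) (nat_lit 46) (nat_lit 0) (nat_lit 1) (nat_lit 1) true (nat_lit 9) true (nat_lit 11) false (nat_lit 5) true (nat_lit 12) true (nat_lit 11) (.e true (nat_lit 3) (nat_lit 66) (nat_lit 6) (nat_lit 6) (.e false (nat_lit 3) (nat_lit 68) (nat_lit 6) (nat_lit 6) (.e false (nat_lit 1) (nat_lit 70) (nat_lit 6) (nat_lit 6) (.e true (nat_lit 1) (nat_lit 75) (nat_lit 6) (nat_lit 6) (.e false (nat_lit 3) (nat_lit 74) (nat_lit 6) (nat_lit 6) (.e true (nat_lit 1) (nat_lit 188) (nat_lit 1) (nat_lit 11) (.e false (nat_lit 3) (nat_lit 67) (nat_lit 6) (nat_lit 6) (.e true (nat_lit 3) (nat_lit 190) (nat_lit 1) (nat_lit 11) (.e true (nat_lit 1) (nat_lit 154) (nat_lit 2) (nat_lit 10) (.e true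 (nat_lit 2) (nat_lit 155) (nat_lit 2) (nat_lit 10) (.e true (nat_lit 1) (nat_lit 156) (nat_lit 2) (nat_lit 10) (.e false (nat_lit 1) (nat_lit 157) (nat_lit 2) (nat_lit 10) (.e true (nat_lit 3) (nat_lit 159) (nat_lit 2) (nat_lit 10) (.e true (nat_lit 2) (nat_lit 160) (nat_lit 2) (nat_lit 10) (.e true (nat_lit 3) (nat_lit 163) (nat_lit 2) (nat_lit 10) (.e false (nat_lit 1) (nat_lit 167) (nat_lit 2) (nat_lit 10) (.e true (nat_lit 1) (nat_lit 168) (nat_lit 2) (nat_lit 10) dC1d_i59)))))))))))))))))))))))))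

noncomputable def dC1d_i61 : IL := (.s true (nat_lit 2) (nat_lit 12) (nat_lit 1) (nat_lit 2) (nat_lit 6) true (nat_lit 1) true (nat_lit 6) true (nat_lit 4) true (nat_lit 11) true (nat_lit 10) (.s false (nat_lit 1) (nat_lit 11) (nat_lit 1) (nat_lit 6) (nat_lit 2) true (nat_lit 7) true (nat_lit 10) true (nat_lit 4) true (nat_lit 11) true (nat_lit 6) (.s false (nat_lit 2) (nat_lit 12) (nat_lit 1) (nat_lit 6) (nat_lit 2) true (nat_lit 7) true (nat_lit 10) true (nat_lit 4) true (nat_lit 11) true (nat_lit 6) (.s true (nat_lit 2) (nat_lit 11) (nat_lit 2) (nat_lit 5) (nat_lit 2) true (nat_lit 6) true (nat_lit 10) true (nat_lit 4) true (nat_lit 10) true (nat_lit 7) (.s true (nat_lit 1) (nat_lit 11) (nat_lit 2) (nat_lit 6) (nat_lit 1) true (nat_lit 7) true (nat_lit 11) true (nat_lit 4) true (nat_lit 10) true (nat_lit 6) (.s false (nat_lit 2) (nat_lit 12) (nat_lit 2) (nat_lit 6) (nat_lit 1) true (nat_lit 7) true (nat_lit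 11) true (nat_lit 4) true (nat_lit 10) true (nat_lit 6) (.s false (nat_lit 1) (nat_lit 11) (nat_lit 6) (nat_lit 1) (nat_lit 2) true (nat_lit 0) true (nat_lit 10) true (nat_lit 4) true (nat_lit 6) true (nat_lit 11) (.s true (nat_lit 2) (nat_lit 13) (nat_lit 2) (nat_lit 4) (nat_lit 2) true (nat_lit 6) true (nat_lit 10) true (nat_lit 3) true (nat_lit 10) true (nat_lit 8) (.s false (nat_lit 2) (nat_lit 15) (nat_lit 1) (nat_lit 1) (nat_lit 6) true (nat_lit 1) true (nat_lit 6) true (nat_lit 2) true (nat_lit 11) true (nat_lit 11) (.s true (nat_lit 2) (nat_lit 16) (nat_lit 0) (nat_lit 5) (nat_lit 2) true (nat_lit 8) true (nat_lit 10) true (nat_lit 1) true (nat_lit 12) true (nat_lit 7) (.s true (nat_lit 2) (nat_lit 17) (nat_lit 1) (nat_lit 4) (nat_lit 2) true (nat_lit 7) true (nat_lit 10) true (nat_lit 1) true (nat_lit 11) true (nat_lit 8) (.s false (nat_lit 2) (nat_lit 17) (nat_lit 2) (nat_lit 1) (nat_lit 4) true (nat_lit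 2) true (nat_lit 8) true (nat_lit 1) true (nat_lit 10) true (nat_lit 11) (.s true (nat_lit 3) (nat_lit 16) (nat_lit 2) (nat_lit 3) (nat_lit 2) true (nat_lit 6) true (nat_lit 10) true (nat_lit 1) true (nat_lit 10) true (nat_lit 9) (.s false (nat_lit 1) (nat_lit 17) (nat_lit 2) (nat_lit 3) (nat_lit 2) true (nat_lit 6) true (nat_lit 10) true (nat_lit 1) true (nat_lit 10) true (nat_lit 9) (.s true (nat_lit 2) (nat_lit 18) (nat_lit 0) (nat_lit 5) (nat_lit 1) true (nat_lit 9) true (nat_lit 11) true (nat_lit 0) true (nat_lit 12) true (nat_lit 7) (.s true (nat_lit 2) (nat_lit 18) (nat_lit 1) (nat_lit 1) (nat_lit 4) true (nat_lit 4) true (nat_lit 8) true (nat_lit 0) true (nat_lit 11) true (nat_lit 11) (.s false (nat_lit 2) (nat_lit 18) (nat_lit 1) (nat_lit 2) (nat_lit 3) true (nat_lit 5) true (nat_lit 9) true (nat_lit 0) true (nat_lit 11) true (nat_lit 10) (.s true (nat_lit 1) (nat_lit 18) (nat_lit 3) (nat_lit 1) (nat_lit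 2) true (nat_lit 4) true (nat_lit 10) true (nat_lit 0) true (nat_lit 9) true (nat_lit 11) (.s true (nat_lit 3) (nat_lit 18) (nat_lit 4) (nat_lit 1) (nat_lit 1) true (nat_lit 4) true (nat_lit 11) true (nat_lit 0) true (nat_lit 8) true (nat_lit 11) (.s true (nat_lit 2) (nat_lit 33) (nat_lit 1) (nat_lit 2) (nat_lit 2) true (nat_lit 7) true (nat_lit 10) false (nat_lit 1) true (nat_lit 11) true (nat_lit 10) (.s false (nat_lit 3) (nat_lit 35) (nat_lit 1) (nat_lit 2) (nat_lit 2) true (nat_lit 7) true (nat_lit 10) false (nat_lit 1) true (nat_lit 11) true (nat_lit 10) (.s false (nat_lit 3) (nat_lit 35) (nat_lit 2) (nat_lit 1) (nat_lit 2) true (nat_lit 6) true (nat_lit 10) false (nat_lit 1) true (nat_lit 10) true (nat_lit 11) (.s true (nat_lit 2) (nat_lit 32) (nat_lit 2) (nat_lit 2) (nat_lit 1) true (nat_lit 7) true (nat_lit 11) false (nat_lit 1) true (nat_lit 10) true (nat_lit 10) (.s true (nat_lit 2) (nat_lit 34) (nat_lit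 2) (nat_lit 2) (nat_lit 1) true (nat_lit 7) true (nat_lit 11) false (nat_lit 1) true (nat_lit 10) true (nat_lit 10) (.s true (nat_lit 3) (nat_lit 35) (nat_lit 2) (nat_lit 2) (nat_lit 1) true (nat_lit 7) true (nat_lit 11) false (nat_lit 1) true (nat_lit 10) true (nat_lit 10) dC1d_i60)))))))))))))))))))))))))

noncomputable def dC1d_i62 : IL := (.e true (nat_lit 2) (nat_lit 186) (nat_lit 3) (nat_lit 16) (.e false (nat_lit 1) (nat_lit 188) (nat_lit 3) (nat_lit 16) (.e false (nat_lit 2) (nat_lit 189) (nat_lit 3) (nat_lit 16) (.e false (nat_lit 3) (nat_lit 190) (nat_lit 3) (nat_lit 16) (.e true (nat_lit 1) (nat_lit 191) (nat_lit 3) (nat_lit 16) (.e true (nat_lit 1) (nat_lit 193) (nat_lit 3) (nat_lit 16) (.e true (nat_lit 1) (nat_lit 195) (nat_lit 3) (nat_lit 16) (.e true (nat_lit 3) (nat_lit 290) (nat_lit 0) (nat_lit 19) (.e true (nat_lit 3) (nat_lit 291) (nat_lit 0) (nat_lit 19) (.e true (nat_lit 2) (nat_lit 292) (nat_lit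 0) (nat_lit 19) (.e false (nat_lit 2) (nat_lit 293) (nat_lit 0) (nat_lit 19) (.e true (nat_lit 1) (nat_lit 294) (nat_lit 0) (nat_lit 19) (.e true (nat_lit 3) (nat_lit 296) (nat_lit 0) (nat_lit 19) (.e false (nat_lit 3) (nat_lit 297) (nat_lit 0) (nat_lit 19) (.e false (nat_lit 2) (nat_lit 299) (nat_lit 0) (nat_lit 19) (.e true (nat_lit 1) (nat_lit 300) (nat_lit 0) (nat_lit 19) (.e false (nat_lit 1) (nat_lit 304) (nat_lit 0) (nat_lit 19) (.e false (nat_lit 3) (nat_lit 307) (nat_lit 0) (nat_lit 19) (.e true (nat_lit 2) (nat_lit 308) (nat_lit 0) (nat_lit 19) (.e false (nat_lit 2) (nat_lit 310) (nat_lit 0) (nat_lit 19) (.e true (nat_lit 1) (nat_lit 311) (nat_lit 0) (nat_lit 19) (.e false (nat_lit 1) (nat_lit 316) (nat_lit 0) (nat_lit 19) (.e true (nat_lit 1) (nat_lit 319) (nat_lit 0) (nat_lit 19) (.e false (nat_lit 1) (nat_lit 105) (nat_lit 7) (nat_lit 12) (.u (nat_lit 2) (.n (nat_lit 0) (nat_lit 1) (.n (nat_lit 1) (nat_lit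 1) (.p (nat_lit 3) (nat_lit 1) (.n (nat_lit 4) (nat_lit 3) (.n (nat_lit 5) (nat_lit 3) (.n (nat_lit 6) (nat_lit 3) (.p (nat_lit 7) (nat_lit 3) (.n (nat_lit 8) (nat_lit 1) (.p (nat_lit 9) (nat_lit 1) (.p (nat_lit 10) (nat_lit 2) (.n (nat_lit 11) (nat_lit 1) (.p (nat_lit 12) (nat_lit 2) (.p (nat_lit 14) (nat_lit 2) (.n (nat_lit 15) (nat_lit 1) (.p (nat_lit 18) (nat_lit 2) (.n (nat_lit 19) (nat_lit 1) (.n (nat_lit 20) (nat_lit 2) (.n (nat_lit 21) (nat_lit 1) (.p (nat_lit 22) (nat_lit 1) (.n (nat_lit 26) (nat_lit 1) (.n (nat_lit 27) (nat_lit 1) (.p (nat_lit 28) (nat_lit 2) (.n (nat_lit 30) (nat_lit 2) (.n (nat_lit 31) (nat_lit 3) (.n (nat_lit 32) (nat_lit 3) (.p (nat_lit 35) (nat_lit 2) (.p (nat_lit 36) (nat_lit 3) (.p (nat_lit 39) (nat_lit 1) (.n (nat_lit 40) (nat_lit 1) (.n (nat_lit 41) (nat_lit 1) (.n (nat_lit 45) (nat_lit 1) (.p (nat_lit 46) (nat_lit 1) (.n (nat_lit 47) (nat_lit 1) (.p (nat_lit 405) (nat_lit 1)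 (.p (nat_lit 406) (nat_lit 1) (.n (nat_lit 407) (nat_lit 1) (.n (nat_lit 408) (nat_lit 3) (.n (nat_lit 409) (nat_lit 1) (.n (nat_lit 410) (nat_lit 2) (.p (nat_lit 413) (nat_lit 1) (.p (nat_lit 414) (nat_lit 1) (.p (nat_lit 415) (nat_lit 2) (.n (nat_lit 416) (nat_lit 1) (.p (nat_lit 417) (nat_lit 2) (.p (nat_lit 419) (nat_lit 1) (.p (nat_lit 420) (nat_lit 1) (.p (nat_lit 422) (nat_lit 1) (.n (nat_lit 425) (nat_lit 1) (.p (nat_lit 426) (nat_lit 1) (.p (nat_lit 427) (nat_lit 1) (.n (nat_lit 432) (nat_lit 1) (.n (nat_lit 434) (nat_lit 1) .z)))))))))))))))))))))))))))))))))))))))))))))))))))) .nil)))))))))))))))))))))))))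

noncomputable def dC1d_i63 : IL := (.e false (nat_lit 1) (nat_lit 190) (nat_lit 4) (nat_lit 11) (.e false (nat_lit 1) (nat_lit 191) (nat_lit 4) (nat_lit 11) (.e false (nat_lit 1) (nat_lit 192) (nat_lit 4) (nat_lit 11) (.e false (nat_lit 1) (nat_lit 193) (nat_lit 4) (nat_lit 11) (.e true (nat_lit 1) (nat_lit 194) (nat_lit 4) (nat_lit 11) (.e false (nat_lit 1) (nat_lit 195) (nat_lit 4) (nat_lit 11) (.e false (nat_lit 3) (nat_lit 328) (nat_lit 0) (nat_lit 15) (.e false (nat_lit 1) (nat_lit 329) (nat_lit 0) (nat_lit 15) (.e true (nat_lit 2) (nat_lit 330) (nat_lit 0) (nat_lit 15) (.e true (nat_lit 3) (nat_lit 331) (nat_lit 0) (nat_lit 15) (.e true (nat_lit 2) (nat_lit 332) (nat_lit 0) (nat_lit 15) (.e true (nat_lit 3) (nat_lit 333) (nat_lit 0) (nat_lit 15) (.e true (nat_lit 1) (nat_lit 334) (nat_lit 0) (nat_lit 15) (.e false (nat_lit 3) (nat_lit 335) (nat_lit 0) (nat_lit 15) (.e true (nat_lit 3) (nat_lit 336) (nat_lit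 0) (nat_lit 15) (.e true (nat_lit 1) (nat_lit 337) (nat_lit 0) (nat_lit 15) (.e true (nat_lit 1) (nat_lit 338) (nat_lit 0) (nat_lit 15) (.e true (nat_lit 1) (nat_lit 340) (nat_lit 0) (nat_lit 15) (.e true (nat_lit 2) (nat_lit 341) (nat_lit 0) (nat_lit 15) (.e false (nat_lit 1) (nat_lit 343) (nat_lit 0) (nat_lit 15) (.e false (nat_lit 2) (nat_lit 344) (nat_lit 0) (nat_lit 15) (.e true (nat_lit 1) (nat_lit 345) (nat_lit 0) (nat_lit 15) (.e true (nat_lit 1) (nat_lit 346) (nat_lit 0) (nat_lit 15) (.e true (nat_lit 1) (nat_lit 103) (nat_lit 9) (nat_lit 7) (.u (nat_lit 2) (.p (nat_lit 0) (nat_lit 1) (.n (nat_lit 1) (nat_lit 1) (.n (nat_lit 3) (nat_lit 3) (.p (nat_lit 4) (nat_lit 1) (.p (nat_lit 5) (nat_lit 1) (.n (nat_lit 6) (nat_lit 2) (.n (nat_lit 7) (nat_lit 2) (.p (nat_lit 8) (nat_lit 1) (.p (nat_lit 10) (nat_lit 1) (.n (nat_lit 13) (nat_lit 1) (.p (nat_lit 14) (nat_lit 1) (.p (nat_lit 15) (nat_lit 1) (.n (nat_lit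 16) (nat_lit 2) (.n (nat_lit 17) (nat_lit 1) (.p (nat_lit 18) (nat_lit 1) (.p (nat_lit 19) (nat_lit 1) (.n (nat_lit 20) (nat_lit 1) (.n (nat_lit 25) (nat_lit 1) (.n (nat_lit 26) (nat_lit 1) (.p (nat_lit 28) (nat_lit 1) (.p (nat_lit 30) (nat_lit 1) (.p (nat_lit 216) (nat_lit 1) (.n (nat_lit 218) (nat_lit 1) (.p (nat_lit 220) (nat_lit 1) .z)))))))))))))))))))))))) .nil)))))))))))))))))))))))))

noncomputable def dC1d_i64 : IL := (.e true (nat_lit 2) (nat_lit 316) (nat_lit 2) (nat_lit 13) (.e true (nat_lit 3) (nat_lit 318) (nat_lit 2) (nat_lit 13) (.e false (nat_lit 1) (nat_lit 336) (nat_lit 1) (nat_lit 14) (.e false (nat_lit 2) (nat_lit 340) (nat_lit 1) (nat_lit 14) (.e false (nat_lit 1) (nat_lit 186) (nat_lit 5) (nat_lit 10) (.e false (nat_lit 2) (nat_lit 329) (nat_lit 1) (nat_lit 14) (.e true (nat_lit 3) (nat_lit 333) (nat_lit 1) (nat_lit 14) (.e true (nat_lit 1) (nat_lit 334) (nat_lit 1) (nat_lit 14) (.e true (nat_lit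 1) (nat_lit 338) (nat_lit 1) (nat_lit 14) (.e false (nat_lit 2) (nat_lit 328) (nat_lit 1) (nat_lit 14) (.e false (nat_lit 1) (nat_lit 330) (nat_lit 1) (nat_lit 14) (.e false (nat_lit 3) (nat_lit 331) (nat_lit 1) (nat_lit 14) (.e false (nat_lit 3) (nat_lit 332) (nat_lit 1) (nat_lit 14) (.e false (nat_lit 3) (nat_lit 98) (nat_lit 13) (nat_lit 6) (.e false (nat_lit 2) (nat_lit 314) (nat_lit 2) (nat_lit 13) (.e true (nat_lit 2) (nat_lit 347) (nat_lit 0) (nat_lit 15) (.e true (nat_lit 2) (nat_lit 348) (nat_lit 0) (nat_lit 15) (.e true (nat_lit 3) (nat_lit 350) (nat_lit 0) (nat_lit 15) (.e false (nat_lit 2) (nat_lit 352) (nat_lit 0) (nat_lit 15) (.e true (nat_lit 3) (nat_lit 354) (nat_lit 0) (nat_lit 15) (.e false (nat_lit 3) (nat_lit 74) (nat_lit 18) (nat_lit 3) (.e false (nat_lit 2) (nat_lit 181) (nat_lit 5) (nat_lit 10) (.u (nat_lit 2) (.p (nat_lit 1) (nat_lit 1) (.p (nat_lit 2) (nat_lit 1) (.p (nat_lit 3) (nat_lit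 2) (.n (nat_lit 4) (nat_lit 2) (.n (nat_lit 5) (nat_lit 1) (.n (nat_lit 7) (nat_lit 1) (.n (nat_lit 9) (nat_lit 2) (.n (nat_lit 10) (nat_lit 1) (.p (nat_lit 11) (nat_lit 1) (.p (nat_lit 13) (nat_lit 1) (.p (nat_lit 14) (nat_lit 1) (.p (nat_lit 15) (nat_lit 1) (.n (nat_lit 16) (nat_lit 2) (.n (nat_lit 19) (nat_lit 1) (.n (nat_lit 22) (nat_lit 2) (.n (nat_lit 29) (nat_lit 3) (.n (nat_lit 33) (nat_lit 1) (.p (nat_lit 44) (nat_lit 1) (.n (nat_lit 48) (nat_lit 1) (.p (nat_lit 51) (nat_lit 1) (.p (nat_lit 62) (nat_lit 1) (.n (nat_lit 63) (nat_lit 1) (.p (nat_lit 66) (nat_lit 2) (.p (nat_lit 67) (nat_lit 1) (.p (nat_lit 69) (nat_lit 1) (.n (nat_lit 73) (nat_lit 1) (.p (nat_lit 74) (nat_lit 1) (.p (nat_lit 75) (nat_lit 1) (.p (nat_lit 79) (nat_lit 1) (.p (nat_lit 84) (nat_lit 1) (.n (nat_lit 95) (nat_lit 1) (.p (nat_lit 98) (nat_lit 1) (.p (nat_lit 99) (nat_lit 1) (.n (nat_lit 102) (nat_lit 1) (.n (nat_lit 111) (nat_lit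 1) (.n (nat_lit 113) (nat_lit 1) (.n (nat_lit 114) (nat_lit 1) (.n (nat_lit 117) (nat_lit 1) (.n (nat_lit 118) (nat_lit 1) (.n (nat_lit 121) (nat_lit 1) (.n (nat_lit 122) (nat_lit 1) (.p (nat_lit 123) (nat_lit 1) (.n (nat_lit 125) (nat_lit 5) (.n (nat_lit 126) (nat_lit 5) (.p (nat_lit 127) (nat_lit 2) (.n (nat_lit 128) (nat_lit 2) (.n (nat_lit 129) (nat_lit 4) (.p (nat_lit 130) (nat_lit 1) (.n (nat_lit 132) (nat_lit 1) (.p (nat_lit 133) (nat_lit 3) (.n (nat_lit 134) (nat_lit 1) (.n (nat_lit 135) (nat_lit 2) (.n (nat_lit 136) (nat_lit 1) (.n (nat_lit 137) (nat_lit 1) (.p (nat_lit 138) (nat_lit 1) (.p (nat_lit 139) (nat_lit 2) (.n (nat_lit 140) (nat_lit 3) (.p (nat_lit 142) (nat_lit 1) (.n (nat_lit 143) (nat_lit 5) (.n (nat_lit 144) (nat_lit 1) .z)))))))))))))))))))))))))))))))))))))))))))))))))))))))))))) (.u (nat_lit 2) (.n (nat_lit 145) (nat_lit 1) (.n (nat_lit 146) (nat_lit 6) (.n (nat_lit 147) (nat_lit 3) (.n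 (nat_lit 148) (nat_lit 1) (.p (nat_lit 149) (nat_lit 1) (.p (nat_lit 150) (nat_lit 5) (.n (nat_lit 151) (nat_lit 2) (.n (nat_lit 152) (nat_lit 4) (.n (nat_lit 153) (nat_lit 3) (.p (nat_lit 154) (nat_lit 1) (.n (nat_lit 155) (nat_lit 1) (.n (nat_lit 156) (nat_lit 1) (.n (nat_lit 157) (nat_lit 1) (.n (nat_lit 158) (nat_lit 1) (.n (nat_lit 159) (nat_lit 1) (.n (nat_lit 160) (nat_lit 1) (.n (nat_lit 161) (nat_lit 1) (.p (nat_lit 170) (nat_lit 1) (.p (nat_lit 172) (nat_lit 1) (.p (nat_lit 173) (nat_lit 8) (.n (nat_lit 174) (nat_lit 1) (.p (nat_lit 175) (nat_lit 11) (.n (nat_lit 176) (nat_lit 11) (.n (nat_lit 177) (nat_lit 2) (.p (nat_lit 178) (nat_lit 4) (.p (nat_lit 179) (nat_lit 1) (.p (nat_lit 180) (nat_lit 9) (.p (nat_lit 181) (nat_lit 2) (.p (nat_lit 182) (nat_lit 3) (.n (nat_lit 183) (nat_lit 4) (.n (nat_lit 184) (nat_lit 11) (.n (nat_lit 185) (nat_lit 7) (.p (nat_lit 186) (nat_lit 1) (.p (nat_lit 187) (nat_lit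 6) (.n (nat_lit 188) (nat_lit 4) (.n (nat_lit 189) (nat_lit 1) (.p (nat_lit 190) (nat_lit 6) (.p (nat_lit 191) (nat_lit 14) (.n (nat_lit 192) (nat_lit 1) (.n (nat_lit 193) (nat_lit 3) (.n (nat_lit 194) (nat_lit 3) (.n (nat_lit 195) (nat_lit 5) (.p (nat_lit 196) (nat_lit 7) (.p (nat_lit 198) (nat_lit 2) (.n (nat_lit 199) (nat_lit 7) (.n (nat_lit 200) (nat_lit 5) (.p (nat_lit 201) (nat_lit 10) (.p (nat_lit 202) (nat_lit 4) (.n (nat_lit 203) (nat_lit 2) (.n (nat_lit 204) (nat_lit 2) (.n (nat_lit 205) (nat_lit 1) (.p (nat_lit 206) (nat_lit 1) (.p (nat_lit 207) (nat_lit 4) (.n (nat_lit 208) (nat_lit 1) (.p (nat_lit 211) (nat_lit 12) (.n (nat_lit 212) (nat_lit 3) (.p (nat_lit 213) (nat_lit 3) (.n (nat_lit 214) (nat_lit 2) (.n (nat_lit 215) (nat_lit 2) (.n (nat_lit 216) (nat_lit 2) .z)))))))))))))))))))))))))))))))))))))))))))))))))))))))))))) (.u (nat_lit 2) (.p (nat_lit 218) (nat_lit 1) (.p (nat_lit 219) (nat_lit 1)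 (.n (nat_lit 220) (nat_lit 1) (.n (nat_lit 221) (nat_lit 1) (.p (nat_lit 223) (nat_lit 1) (.p (nat_lit 224) (nat_lit 4) (.n (nat_lit 225) (nat_lit 3) (.n (nat_lit 226) (nat_lit 1) (.p (nat_lit 227) (nat_lit 4) .z))))))))) .nil)))))))))))))))))))))))))

noncomputable def dC1d_i65 : IL := (.s true (nat_lit 3) (nat_lit 90) (nat_lit 2) (nat_lit 1) (nat_lit 2) true (nat_lit 9) true (nat_lit 13) false (nat_lit 4) true (nat_lit 13) true (nat_lit 14) (.s true (nat_lit 1) (nat_lit 91) (nat_lit 2) (nat_lit 1) (nat_lit 2) true (nat_lit 9) true (nat_lit 13) false (nat_lit 4) true (nat_lit 13) true (nat_lit 14) (.s true (nat_lit 2) (nat_lit 82) (nat_lit 2) (nat_lit 2) (nat_lit 1) true (nat_lit 10) true (nat_lit 14) false (nat_lit 4) true (nat_lit 13) true (nat_lit 13) (.s true (nat_lit 2) (nat_lit 84) (nat_lit 2) (nat_lit 2) (nat_lit 1) true (nat_lit 10) true (nat_lit 14) false (nat_lit 4) true (nat_lit 13) true (nat_lit 13)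 (.s true (nat_lit 1) (nat_lit 87) (nat_lit 2) (nat_lit 2) (nat_lit 1) true (nat_lit 10) true (nat_lit 14) false (nat_lit 4) true (nat_lit 13) true (nat_lit 13) (.s true (nat_lit 1) (nat_lit 92) (nat_lit 2) (nat_lit 2) (nat_lit 1) true (nat_lit 10) true (nat_lit 14) false (nat_lit 4) true (nat_lit 13) true (nat_lit 13) (.s true (nat_lit 3) (nat_lit 93) (nat_lit 2) (nat_lit 0) (nat_lit 2) true (nat_lit 9) true (nat_lit 13) false (nat_lit 5) true (nat_lit 13) true (nat_lit 15) (.s false (nat_lit 3) (nat_lit 100) (nat_lit 1) (nat_lit 2) (nat_lit 1) false (nat_lit 16) true (nat_lit 14) false (nat_lit 6) true (nat_lit 14) true (nat_lit 13) (.s false (nat_lit 2) (nat_lit 99) (nat_lit 2) (nat_lit 1) (nat_lit 1) true (nat_lit 10) true (nat_lit 14) false (nat_lit 6) true (nat_lit 13) true (nat_lit 14) (.s false (nat_lit 2) (nat_lit 101) (nat_lit 2) (nat_lit 1) (nat_lit 1) true (nat_lit 10) true (nat_lit 14) false (nat_lit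 6) true (nat_lit 13) true (nat_lit 14) (.s false (nat_lit 2) (nat_lit 104) (nat_lit 1) (nat_lit 0) (nat_lit 2) true (nat_lit 10) true (nat_lit 13) false (nat_lit 7) true (nat_lit 14) true (nat_lit 15) (.s true (nat_lit 3) (nat_lit 104) (nat_lit 1) (nat_lit 2) (nat_lit 0) true (nat_lit 12) true (nat_lit 15) false (nat_lit 7) true (nat_lit 14) true (nat_lit 13) (.s true (nat_lit 1) (nat_lit 104) (nat_lit 2) (nat_lit 0) (nat_lit 1) true (nat_lit 10) true (nat_lit 14) false (nat_lit 7) true (nat_lit 13) true (nat_lit 15) (.s true (nat_lit 1) (nat_lit 106) (nat_lit 1) (nat_lit 0) (nat_lit 1) false (nat_lit 16) true (nat_lit 14) false (nat_lit 8) true (nat_lit 14) true (nat_lit 15) (.s true (nat_lit 3) (nat_lit 106) (nat_lit 1) (nat_lit 1) (nat_lit 0) true (nat_lit 12) true (nat_lit 15) false (nat_lit 8) true (nat_lit 14) true (nat_lit 14) (.e true (nat_lit 2) (nat_lit 161) (nat_lit 6) (nat_lit 9) (.e false (nat_lit 3)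 (nat_lit 170) (nat_lit 6) (nat_lit 9) (.e false (nat_lit 1) (nat_lit 172) (nat_lit 6) (nat_lit 9) (.e false (nat_lit 1) (nat_lit 291) (nat_lit 2) (nat_lit 13) (.e true (nat_lit 2) (nat_lit 301) (nat_lit 2) (nat_lit 13) (.e true (nat_lit 2) (nat_lit 307) (nat_lit 2) (nat_lit 13) (.e true (nat_lit 2) (nat_lit 292) (nat_lit 2) (nat_lit 13) (.e false (nat_lit 1) (nat_lit 294) (nat_lit 2) (nat_lit 13) (.e false (nat_lit 1) (nat_lit 302) (nat_lit 2) (nat_lit 13) (.e false (nat_lit 1) (nat_lit 312) (nat_lit 2) (nat_lit 13) dC1d_i64)))))))))))))))))))))))))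

noncomputable def dC1d_i66 : IL := (.s true (nat_lit 2) (nat_lit 45) (nat_lit 2) (nat_lit 3) (nat_lit 2) true (nat_lit 9) true (nat_lit 13) false (nat_lit 1) true (nat_lit 13) true (nat_lit 12) (.s true (nat_lit 1) (nat_lit 45) (nat_lit 3) (nat_lit 2) (nat_lit 2) true (nat_lit 7) true (nat_lit 13) false (nat_lit 1) true (nat_lit 12) true (nat_lit 13) (.s true (nat_lit 1) (nat_lit 45) (nat_lit 4) (nat_lit 2) (nat_lit 1) true (nat_lit 7) true (nat_lit 14) false (nat_lit 1) true (nat_lit 11) true (nat_lit 13) (.s true (nat_lit 3) (nat_lit 45) (nat_lit 5) (nat_lit 2) (nat_lit 0) true (nat_lit 7) true (nat_lit 15) false (nat_lit 1) true (nat_lit 10) true (nat_lit 13) (.s true (nat_lit 3) (nat_lit 45) (nat_lit 6) (nat_lit 1) (nat_lit 0) true (nat_lit 5) true (nat_lit 15) false (nat_lit 1) true (nat_lit 9) true (nat_lit 14) (.s false (nat_lit 1) (nat_lit 46) (nat_lit 1) (nat_lit 0) (nat_lit 5) true (nat_lit 6) true (nat_lit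 10) false (nat_lit 2) true (nat_lit 14) true (nat_lit 15) (.s false (nat_lit 3) (nat_lit 46) (nat_lit 2) (nat_lit 3) (nat_lit 1) true (nat_lit 10) true (nat_lit 14) false (nat_lit 2) true (nat_lit 13) true (nat_lit 12) (.s false (nat_lit 3) (nat_lit 46) (nat_lit 4) (nat_lit 1) (nat_lit 1) true (nat_lit 7) true (nat_lit 14) false (nat_lit 2) true (nat_lit 11) true (nat_lit 14) (.s true (nat_lit 1) (nat_lit 46) (nat_lit 5) (nat_lit 0) (nat_lit 1) true (nat_lit 6) true (nat_lit 14) false (nat_lit 2) true (nat_lit 10) true (nat_lit 15) (.s false (nat_lit 2) (nat_lit 46) (nat_lit 5) (nat_lit 1) (nat_lit 0) true (nat_lit 7) true (nat_lit 15) false (nat_lit 2) true (nat_lit 10) true (nat_lit 14) (.s false (nat_lit 1) (nat_lit 72) (nat_lit 2) (nat_lit 2) (nat_lit 2) true (nat_lit 9) true (nat_lit 13) false (nat_lit 3) true (nat_lit 13) true (nat_lit 13) (.s false (nat_lit 1) (nat_lit 73) (nat_lit 2) (nat_lit 2) (nat_lit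 2) true (nat_lit 9) true (nat_lit 13) false (nat_lit 3) true (nat_lit 13) true (nat_lit 13) (.s false (nat_lit 3) (nat_lit 75) (nat_lit 2) (nat_lit 2) (nat_lit 2) true (nat_lit 9) true (nat_lit 13) false (nat_lit 3) true (nat_lit 13) true (nat_lit 13) (.s false (nat_lit 2) (nat_lit 82) (nat_lit 1) (nat_lit 2) (nat_lit 2) true (nat_lit 10) true (nat_lit 13) false (nat_lit 4) true (nat_lit 14) true (nat_lit 13) (.s false (nat_lit 1) (nat_lit 83) (nat_lit 1) (nat_lit 2) (nat_lit 2) true (nat_lit 10) true (nat_lit 13) false (nat_lit 4) true (nat_lit 14) true (nat_lit 13) (.s false (nat_lit 3) (nat_lit 84) (nat_lit 1) (nat_lit 2) (nat_lit 2) true (nat_lit 10) true (nat_lit 13) false (nat_lit 4) true (nat_lit 14) true (nat_lit 13) (.s true (nat_lit 2) (nat_lit 85) (nat_lit 1) (nat_lit 2) (nat_lit 2) true (nat_lit 10) true (nat_lit 13) false (nat_lit 4) true (nat_lit 14) true (nat_lit 13) (.s false (nat_lit 3) (nat_lit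 86) (nat_lit 1) (nat_lit 2) (nat_lit 2) true (nat_lit 10) true (nat_lit 13) false (nat_lit 4) true (nat_lit 14) true (nat_lit 13) (.s false (nat_lit 2) (nat_lit 87) (nat_lit 1) (nat_lit 2) (nat_lit 2) true (nat_lit 10) true (nat_lit 13) false (nat_lit 4) true (nat_lit 14) true (nat_lit 13) (.s true (nat_lit 3) (nat_lit 88) (nat_lit 1) (nat_lit 2) (nat_lit 2) true (nat_lit 10) true (nat_lit 13) false (nat_lit 4) true (nat_lit 14) true (nat_lit 13) (.s true (nat_lit 2) (nat_lit 89) (nat_lit 1) (nat_lit 2) (nat_lit 2) true (nat_lit 10) true (nat_lit 13) false (nat_lit 4) true (nat_lit 14) true (nat_lit 13) (.s false (nat_lit 1) (nat_lit 90) (nat_lit 1) (nat_lit 2) (nat_lit 2) true (nat_lit 10) true (nat_lit 13) false (nat_lit 4) true (nat_lit 14) true (nat_lit 13) (.s false (nat_lit 2) (nat_lit 91) (nat_lit 1) (nat_lit 2) (nat_lit 2) true (nat_lit 10) true (nat_lit 13) false (nat_lit 4) true (nat_lit 14) true (nat_lit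 13) (.s false (nat_lit 2) (nat_lit 82) (nat_lit 2) (nat_lit 1) (nat_lit 2) true (nat_lit 9) true (nat_lit 13) false (nat_lit 4) true (nat_lit 13) true (nat_lit 14) (.s false (nat_lit 3) (nat_lit 83) (nat_lit 2) (nat_lit 1) (nat_lit 2) true (nat_lit 9) true (nat_lit 13) false (nat_lit 4) true (nat_lit 13) true (nat_lit 14) dC1d_i65)))))))))))))))))))))))))

noncomputable def dC1d_i67 : IL := (.s true (nat_lit 3) (nat_lit 25) (nat_lit 2) (nat_lit 2) (nat_lit 6) true (nat_lit 3) true (nat_lit 9) true (nat_lit 2) true (nat_lit 13) true (nat_lit 13) (.s true (nat_lit 2) (nat_lit 26) (nat_lit 2) (nat_lit 2) (nat_lit 6) true (nat_lit 3) true (nat_lit 9) true (nat_lit 2) true (nat_lit 13) true (nat_lit 13) (.s true (nat_lit 2) (nat_lit 27) (nat_lit 2) (nat_lit 2) (nat_lit 6) true (nat_lit 3) true (nat_lit 9) true (nat_lit 2) true (nat_lit 13) true (nat_lit 13) (.s true (nat_lit 2) (nat_lit 25) (nat_lit 2) (nat_lit 6) (nat_lit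 2) true (nat_lit 9) true (nat_lit 13) true (nat_lit 2) true (nat_lit 13) true (nat_lit 9) (.s false (nat_lit 3) (nat_lit 26) (nat_lit 2) (nat_lit 6) (nat_lit 2) true (nat_lit 9) true (nat_lit 13) true (nat_lit 2) true (nat_lit 13) true (nat_lit 9) (.s true (nat_lit 1) (nat_lit 25) (nat_lit 6) (nat_lit 2) (nat_lit 2) true (nat_lit 3) true (nat_lit 13) true (nat_lit 2) true (nat_lit 9) true (nat_lit 13) (.s true (nat_lit 2) (nat_lit 34) (nat_lit 1) (nat_lit 2) (nat_lit 6) true (nat_lit 4) true (nat_lit 9) true (nat_lit 1) true (nat_lit 14) true (nat_lit 13) (.s false (nat_lit 1) (nat_lit 36) (nat_lit 1) (nat_lit 2) (nat_lit 6) true (nat_lit 4) true (nat_lit 9) true (nat_lit 1) true (nat_lit 14) true (nat_lit 13) (.s true (nat_lit 1) (nat_lit 32) (nat_lit 1) (nat_lit 6) (nat_lit 2) true (nat_lit 10) true (nat_lit 13) true (nat_lit 1) true (nat_lit 14) true (nat_lit 9) (.s false (nat_lit 1) (nat_lit 31) (nat_lit 2)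 (nat_lit 1) (nat_lit 6) true (nat_lit 3) true (nat_lit 9) true (nat_lit 1) true (nat_lit 13) true (nat_lit 14) (.s true (nat_lit 2) (nat_lit 32) (nat_lit 2) (nat_lit 1) (nat_lit 6) true (nat_lit 3) true (nat_lit 9) true (nat_lit 1) true (nat_lit 13) true (nat_lit 14) (.s true (nat_lit 1) (nat_lit 34) (nat_lit 2) (nat_lit 1) (nat_lit 6) true (nat_lit 3) true (nat_lit 9) true (nat_lit 1) true (nat_lit 13) true (nat_lit 14) (.s true (nat_lit 3) (nat_lit 31) (nat_lit 2) (nat_lit 2) (nat_lit 5) true (nat_lit 4) true (nat_lit 10) true (nat_lit 1) true (nat_lit 13) true (nat_lit 13) (.s true (nat_lit 1) (nat_lit 32) (nat_lit 2) (nat_lit 2) (nat_lit 5) true (nat_lit 4) true (nat_lit 10) true (nat_lit 1) true (nat_lit 13) true (nat_lit 13) (.s false (nat_lit 3) (nat_lit 34) (nat_lit 2) (nat_lit 2) (nat_lit 5) true (nat_lit 4) true (nat_lit 10) true (nat_lit 1) true (nat_lit 13) true (nat_lit 13) (.s true (nat_lit 1) (nat_lit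 36) (nat_lit 2) (nat_lit 2) (nat_lit 5) true (nat_lit 4) true (nat_lit 10) true (nat_lit 1) true (nat_lit 13) true (nat_lit 13) (.s false (nat_lit 3) (nat_lit 32) (nat_lit 2) (nat_lit 5) (nat_lit 2) true (nat_lit 9) true (nat_lit 13) true (nat_lit 1) true (nat_lit 13) true (nat_lit 10) (.s false (nat_lit 3) (nat_lit 36) (nat_lit 2) (nat_lit 5) (nat_lit 2) true (nat_lit 9) true (nat_lit 13) true (nat_lit 1) true (nat_lit 13) true (nat_lit 10) (.s true (nat_lit 1) (nat_lit 31) (nat_lit 2) (nat_lit 6) (nat_lit 1) true (nat_lit 10) true (nat_lit 14) true (nat_lit 1) true (nat_lit 13) true (nat_lit 9) (.s true (nat_lit 3) (nat_lit 32) (nat_lit 5) (nat_lit 2) (nat_lit 2) true (nat_lit 4) true (nat_lit 13) true (nat_lit 1) true (nat_lit 10) true (nat_lit 13) (.s false (nat_lit 2) (nat_lit 34) (nat_lit 6) (nat_lit 1) (nat_lit 2) true (nat_lit 3) true (nat_lit 13) true (nat_lit 1) true (nat_lit 9) true (nat_lit 14) (.s false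 (nat_lit 2) (nat_lit 33) (nat_lit 6) (nat_lit 2) (nat_lit 1) true (nat_lit 4) true (nat_lit 14) true (nat_lit 1) true (nat_lit 9) true (nat_lit 13) (.s false (nat_lit 3) (nat_lit 40) (nat_lit 5) (nat_lit 1) (nat_lit 2) true (nat_lit 4) true (nat_lit 13) false (nat_lit 0) true (nat_lit 10) true (nat_lit 14) (.s true (nat_lit 2) (nat_lit 42) (nat_lit 5) (nat_lit 2) (nat_lit 1) true (nat_lit 6) true (nat_lit 14) false (nat_lit 0) true (nat_lit 10) true (nat_lit 13) (.s false (nat_lit 1) (nat_lit 42) (nat_lit 6) (nat_lit 1) (nat_lit 1) true (nat_lit 4) true (nat_lit 14) false (nat_lit 0) true (nat_lit 9) true (nat_lit 14) dC1d_i66)))))))))))))))))))))))))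

noncomputable def dC1d_i68 : IL := (.s true (nat_lit 2) (nat_lit 16) (nat_lit 6) (nat_lit 3) (nat_lit 2) true (nat_lit 3) true (nat_lit 13) true (nat_lit 4) true (nat_lit 9) true (nat_lit 12) (.s false (nat_lit 3) (nat_lit 17) (nat_lit 6) (nat_lit 3) (nat_lit 2) true (nat_lit 3) true (nat_lit 13) true (nat_lit 4) true (nat_lit 9) true (nat_lit 12) (.s true (nat_lit 1) (nat_lit 18) (nat_lit 0) (nat_lit 2) (nat_lit 13) true (nat_lit 2) true (nat_lit 6) true (nat_lit 3) true (nat_lit 15) true (nat_lit 13) (.s true (nat_lit 3) (nat_lit 18) (nat_lit 0) (nat_lit 16) (nat_lit 1) true (nat_lit 12) true (nat_lit 14) true (nat_lit 3) true (nat_lit 15) true (nat_lit 4) (.s true (nat_lit 3) (nat_lit 18) (nat_lit 1) (nat_lit 0) (nat_lit 16) true (nat_lit 0) true (nat_lit 4) true (nat_lit 3) true (nat_lit 14) true (nat_lit 15) (.s false (nat_lit 1) (nat_lit 18) (nat_lit 1) (nat_lit 0) (nat_lit 17) true (nat_lit 0) true (nat_lit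 4) true (nat_lit 3) true (nat_lit 14) true (nat_lit 15) (.s true (nat_lit 3) (nat_lit 18) (nat_lit 1) (nat_lit 1) (nat_lit 15) true (nat_lit 1) true (nat_lit 5) true (nat_lit 3) true (nat_lit 14) true (nat_lit 14) (.s false (nat_lit 1) (nat_lit 18) (nat_lit 1) (nat_lit 2) (nat_lit 12) true (nat_lit 2) true (nat_lit 7) true (nat_lit 3) true (nat_lit 14) true (nat_lit 13) (.s false (nat_lit 3) (nat_lit 18) (nat_lit 1) (nat_lit 3) (nat_lit 6) true (nat_lit 4) true (nat_lit 9) true (nat_lit 3) true (nat_lit 14) true (nat_lit 12) (.s false (nat_lit 1) (nat_lit 18) (nat_lit 1) (nat_lit 5) (nat_lit 4) true (nat_lit 7) true (nat_lit 11) true (nat_lit 3) true (nat_lit 14) true (nat_lit 10) (.s true (nat_lit 2) (nat_lit 18) (nat_lit 1) (nat_lit 10) (nat_lit 2) true (nat_lit 10) true (nat_lit 13) true (nat_lit 3) true (nat_lit 14) true (nat_lit 7) (.s true (nat_lit 2) (nat_lit 18) (nat_lit 1) (nat_lit 11) (nat_lit 2) true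 (nat_lit 10) true (nat_lit 13) true (nat_lit 3) true (nat_lit 14) true (nat_lit 7) (.s true (nat_lit 3) (nat_lit 18) (nat_lit 1) (nat_lit 12) (nat_lit 2) true (nat_lit 10) true (nat_lit 13) true (nat_lit 3) true (nat_lit 14) true (nat_lit 7) (.s true (nat_lit 1) (nat_lit 18) (nat_lit 1) (nat_lit 14) (nat_lit 1) false (nat_lit 16) true (nat_lit 14) true (nat_lit 3) true (nat_lit 14) true (nat_lit 5) (.s true (nat_lit 2) (nat_lit 18) (nat_lit 2) (nat_lit 1) (nat_lit 10) true (nat_lit 1) true (nat_lit 7) true (nat_lit 3) true (nat_lit 13) true (nat_lit 14) (.s false (nat_lit 3) (nat_lit 18) (nat_lit 2) (nat_lit 1) (nat_lit 11) true (nat_lit 1) true (nat_lit 7) true (nat_lit 3) true (nat_lit 13) true (nat_lit 14) (.s true (nat_lit 1) (nat_lit 18) (nat_lit 2) (nat_lit 2) (nat_lit 8) true (nat_lit 2) true (nat_lit 8) true (nat_lit 3) true (nat_lit 13) true (nat_lit 13) (.s false (nat_lit 2) (nat_lit 18) (nat_lit 2) (nat_lit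 11) (nat_lit 1) true (nat_lit 10) true (nat_lit 14) true (nat_lit 3) true (nat_lit 13) true (nat_lit 7) (.s false (nat_lit 3) (nat_lit 18) (nat_lit 3) (nat_lit 6) (nat_lit 1) true (nat_lit 8) true (nat_lit 14) true (nat_lit 3) true (nat_lit 12) true (nat_lit 9) (.s true (nat_lit 3) (nat_lit 18) (nat_lit 6) (nat_lit 3) (nat_lit 1) true (nat_lit 4) true (nat_lit 14) true (nat_lit 3) true (nat_lit 9) true (nat_lit 12) (.s true (nat_lit 1) (nat_lit 18) (nat_lit 8) (nat_lit 2) (nat_lit 2) true (nat_lit 2) true (nat_lit 13) true (nat_lit 3) true (nat_lit 8) true (nat_lit 13) (.s true (nat_lit 2) (nat_lit 18) (nat_lit 12) (nat_lit 1) (nat_lit 2) true (nat_lit 1) true (nat_lit 13) true (nat_lit 3) true (nat_lit 7) true (nat_lit 14) (.s false (nat_lit 2) (nat_lit 18) (nat_lit 14) (nat_lit 1) (nat_lit 1) true (nat_lit 1) true (nat_lit 14) true (nat_lit 3) true (nat_lit 5) true (nat_lit 14) (.s true (nat_lit 1) (nat_lit 18)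 (nat_lit 16) (nat_lit 0) (nat_lit 1) true (nat_lit 0) true (nat_lit 14) true (nat_lit 3) true (nat_lit 4) true (nat_lit 15) (.s true (nat_lit 3) (nat_lit 24) (nat_lit 2) (nat_lit 2) (nat_lit 6) true (nat_lit 3) true (nat_lit 9) true (nat_lit 2) true (nat_lit 13) true (nat_lit 13) dC1d_i67)))))))))))))))))))))))))

noncomputable def dC1d_i69 : IL := (.e true (nat_lit 2) (nat_lit 146) (nat_lit 2) (nat_lit 10) (.e true (nat_lit 2) (nat_lit 150) (nat_lit 2) (nat_lit 10) (.e true (nat_lit 1) (nat_lit 149) (nat_lit 2) (nat_lit 10) (.e false (nat_lit 2) (nat_lit 137) (nat_lit 2) (nat_lit 10) (.e true (nat_lit 3) (nat_lit 56) (nat_lit 6) (nat_lit 6) (.e false (nat_lit 3) (nat_lit 57) (nat_lit 6) (nat_lit 6) (.e true (nat_lit 2) (nat_lit 21) (nat_lit 18) (nat_lit 0) (.e false (nat_lit 2) (nat_lit 22) (nat_lit 18) (nat_lit 0) (.e true (nat_lit 1) (nat_lit 65) (nat_lit 6) (nat_lit 6) (.e false (nat_lit 3) (nat_lit 77) (nat_lit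 5) (nat_lit 7) (.e true (nat_lit 3) (nat_lit 32) (nat_lit 15) (nat_lit 2) (.e true (nat_lit 1) (nat_lit 55) (nat_lit 6) (nat_lit 6) (.e true (nat_lit 3) (nat_lit 189) (nat_lit 0) (nat_lit 12) (.e false (nat_lit 3) (nat_lit 193) (nat_lit 0) (nat_lit 12) (.e false (nat_lit 3) (nat_lit 148) (nat_lit 2) (nat_lit 10) (.e true (nat_lit 3) (nat_lit 180) (nat_lit 0) (nat_lit 12) (.e false (nat_lit 3) (nat_lit 183) (nat_lit 0) (nat_lit 12) (.e false (nat_lit 2) (nat_lit 184) (nat_lit 0) (nat_lit 12) (.e true (nat_lit 2) (nat_lit 174) (nat_lit 1) (nat_lit 11) (.e false (nat_lit 1) (nat_lit 181) (nat_lit 0) (nat_lit 12) (.e false (nat_lit 3) (nat_lit 28) (nat_lit 17) (nat_lit 1) (.e true (nat_lit 1) (nat_lit 46) (nat_lit 7) (nat_lit 5) (.e true (nat_lit 3) (nat_lit 63) (nat_lit 6) (nat_lit 6) (.u (nat_lit 2) (.p (nat_lit 0) (nat_lit 1) (.p (nat_lit 3) (nat_lit 2) (.p (nat_lit 4) (nat_lit 1) (.n (nat_lit 5) (nat_lit 4) (.n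 (nat_lit 6) (nat_lit 1) (.n (nat_lit 8) (nat_lit 2) (.p (nat_lit 9) (nat_lit 1) (.p (nat_lit 10) (nat_lit 1) (.p (nat_lit 11) (nat_lit 3) (.n (nat_lit 12) (nat_lit 4) (.n (nat_lit 13) (nat_lit 1) (.p (nat_lit 17) (nat_lit 1) (.p (nat_lit 18) (nat_lit 2) (.p (nat_lit 19) (nat_lit 1) (.n (nat_lit 20) (nat_lit 1) (.n (nat_lit 23) (nat_lit 1) (.p (nat_lit 25) (nat_lit 1) (.n (nat_lit 26) (nat_lit 4) (.n (nat_lit 27) (nat_lit 3) (.n (nat_lit 28) (nat_lit 1) (.p (nat_lit 29) (nat_lit 1) (.n (nat_lit 31) (nat_lit 1) (.p (nat_lit 32) (nat_lit 1) (.p (nat_lit 33) (nat_lit 1) (.p (nat_lit 40) (nat_lit 1) (.n (nat_lit 42) (nat_lit 1) (.p (nat_lit 47) (nat_lit 1) (.p (nat_lit 49) (nat_lit 1) (.n (nat_lit 50) (nat_lit 1) (.n (nat_lit 51) (nat_lit 1) (.n (nat_lit 53) (nat_lit 1) (.n (nat_lit 54) (nat_lit 1) (.p (nat_lit 64) (nat_lit 1) (.n (nat_lit 65) (nat_lit 1) (.p (nat_lit 66) (nat_lit 3) (.n (nat_lit 67) (nat_lit 1) (.n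 (nat_lit 68) (nat_lit 2) (.p (nat_lit 71) (nat_lit 1) (.n (nat_lit 72) (nat_lit 1) (.n (nat_lit 74) (nat_lit 1) (.p (nat_lit 75) (nat_lit 3) (.n (nat_lit 76) (nat_lit 1) (.p (nat_lit 77) (nat_lit 1) (.p (nat_lit 79) (nat_lit 1) (.n (nat_lit 80) (nat_lit 1) (.n (nat_lit 81) (nat_lit 1) (.n (nat_lit 82) (nat_lit 2) (.p (nat_lit 85) (nat_lit 1) (.n (nat_lit 86) (nat_lit 1) (.n (nat_lit 88) (nat_lit 1) (.p (nat_lit 89) (nat_lit 1) (.p (nat_lit 91) (nat_lit 1) (.n (nat_lit 93) (nat_lit 1) (.n (nat_lit 94) (nat_lit 1) (.n (nat_lit 96) (nat_lit 8) (.p (nat_lit 97) (nat_lit 2) (.n (nat_lit 98) (nat_lit 5) (.n (nat_lit 99) (nat_lit 3) (.p (nat_lit 100) (nat_lit 6) (.p (nat_lit 101) (nat_lit 5) .z)))))))))))))))))))))))))))))))))))))))))))))))))))))))))))) (.u (nat_lit 2) (.n (nat_lit 102) (nat_lit 8) (.p (nat_lit 103) (nat_lit 8) (.n (nat_lit 104) (nat_lit 3) (.p (nat_lit 106) (nat_lit 1) (.n (nat_lit 107) (nat_lit 3) (.p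 (nat_lit 108) (nat_lit 11) (.p (nat_lit 109) (nat_lit 4) (.n (nat_lit 110) (nat_lit 1) (.p (nat_lit 111) (nat_lit 4) (.n (nat_lit 112) (nat_lit 1) (.p (nat_lit 113) (nat_lit 3) (.n (nat_lit 114) (nat_lit 1) (.n (nat_lit 116) (nat_lit 8) (.p (nat_lit 117) (nat_lit 1) (.n (nat_lit 119) (nat_lit 1) (.p (nat_lit 120) (nat_lit 1) (.n (nat_lit 122) (nat_lit 2) (.n (nat_lit 126) (nat_lit 2) (.p (nat_lit 127) (nat_lit 1) (.p (nat_lit 128) (nat_lit 1) (.n (nat_lit 129) (nat_lit 1) (.p (nat_lit 130) (nat_lit 1) (.p (nat_lit 132) (nat_lit 1) (.p (nat_lit 133) (nat_lit 1) (.n (nat_lit 134) (nat_lit 1) (.n (nat_lit 136) (nat_lit 1) (.n (nat_lit 138) (nat_lit 1) .z))))))))))))))))))))))))))) .nil)))))))))))))))))))))))))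

noncomputable def dC1d_i70 : IL := (.s false (nat_lit 3) (nat_lit 33) (nat_lit 2) (nat_lit 0) (nat_lit 2) true (nat_lit 6) true (nat_lit 10) false (nat_lit 2) true (nat_lit 10) true (nat_lit 12) (.s true (nat_lit 1) (nat_lit 31) (nat_lit 2) (nat_lit 2) (nat_lit 0) true (nat_lit 8) true (nat_lit 12) false (nat_lit 2) true (nat_lit 10) true (nat_lit 10) (.s true (nat_lit 2) (nat_lit 33) (nat_lit 2) (nat_lit 2) (nat_lit 0) true (nat_lit 8) true (nat_lit 12) false (nat_lit 2) true (nat_lit 10) true (nat_lit 10) (.s true (nat_lit 3) (nat_lit 34) (nat_lit 2) (nat_lit 2) (nat_lit 0) true (nat_lit 8) true (nat_lit 12) false (nat_lit 2) true (nat_lit 10) true (nat_lit 10) (.s false (nat_lit 3) (nat_lit 35) (nat_lit 2) (nat_lit 2) (nat_lit 0) true (nat_lit 8) true (nat_lit 12) false (nat_lit 2) true (nat_lit 10) true (nat_lit 10) (.s false (nat_lit 3) (nat_lit 36) (nat_lit 2) (nat_lit 2) (nat_lit 0) true (nat_lit 8) true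 (nat_lit 12) false (nat_lit 2) true (nat_lit 10) true (nat_lit 10) (.s true (nat_lit 2) (nat_lit 41) (nat_lit 0) (nat_lit 2) (nat_lit 1) true (nat_lit 9) true (nat_lit 11) false (nat_lit 3) true (nat_lit 12) true (nat_lit 10) (.s true (nat_lit 1) (nat_lit 40) (nat_lit 1) (nat_lit 0) (nat_lit 2) true (nat_lit 7) true (nat_lit 10) false (nat_lit 3) true (nat_lit 11) true (nat_lit 12) (.s true (nat_lit 3) (nat_lit 40) (nat_lit 1) (nat_lit 2) (nat_lit 0) true (nat_lit 9) true (nat_lit 12) false (nat_lit 3) true (nat_lit 11) true (nat_lit 10) (.s true (nat_lit 1) (nat_lit 40) (nat_lit 2) (nat_lit 1) (nat_lit 0) true (nat_lit 8) true (nat_lit 12) false (nat_lit 3) true (nat_lit 10) true (nat_lit 11) (.s true (nat_lit 2) (nat_lit 46) (nat_lit 1) (nat_lit 0) (nat_lit 0) true (nat_lit 9) true (nat_lit 12) false (nat_lit 5) true (nat_lit 11) true (nat_lit 12) (.e true (nat_lit 2) (nat_lit 31) (nat_lit 14) (nat_lit 2) (.e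 false (nat_lit 2) (nat_lit 32) (nat_lit 14) (nat_lit 2) (.e false (nat_lit 3) (nat_lit 83) (nat_lit 4) (nat_lit 8) (.e false (nat_lit 3) (nat_lit 152) (nat_lit 2) (nat_lit 10) (.e true (nat_lit 1) (nat_lit 133) (nat_lit 2) (nat_lit 10) (.e true (nat_lit 2) (nat_lit 134) (nat_lit 2) (nat_lit 10) (.e true (nat_lit 3) (nat_lit 136) (nat_lit 2) (nat_lit 10) (.e false (nat_lit 1) (nat_lit 138) (nat_lit 2) (nat_lit 10) (.e true (nat_lit 1) (nat_lit 139) (nat_lit 2) (nat_lit 10) (.e true (nat_lit 1) (nat_lit 140) (nat_lit 2) (nat_lit 10) (.e true (nat_lit 3) (nat_lit 141) (nat_lit 2) (nat_lit 10) (.e true (nat_lit 2) (nat_lit 142) (nat_lit 2) (nat_lit 10) (.e false (nat_lit 1) (nat_lit 143) (nat_lit 2) (nat_lit 10) (.e false (nat_lit 1) (nat_lit 144) (nat_lit 2) (nat_lit 10) dC1d_i69)))))))))))))))))))))))))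

noncomputable def dC1d_i71 : IL := (.s false (nat_lit 3) (nat_lit 10) (nat_lit 4) (nat_lit 2) (nat_lit 2) true (nat_lit 2) true (nat_lit 10) true (nat_lit 3) true (nat_lit 8) true (nat_lit 10) (.s true (nat_lit 2) (nat_lit 12) (nat_lit 4) (nat_lit 2) (nat_lit 2) true (nat_lit 2) true (nat_lit 10) true (nat_lit 3) true (nat_lit 8) true (nat_lit 10) (.s true (nat_lit 3) (nat_lit 15) (nat_lit 0) (nat_lit 1) (nat_lit 6) true (nat_lit 2) true (nat_lit 6) true (nat_lit 2) true (nat_lit 12) true (nat_lit 11) (.s true (nat_lit 3) (nat_lit 14) (nat_lit 1) (nat_lit 4) (nat_lit 2) true (nat_lit 7) true (nat_lit 10) true (nat_lit 2) true (nat_lit 11) true (nat_lit 8) (.s true (nat_lit 1) (nat_lit 15) (nat_lit 1) (nat_lit 6) (nat_lit 0) true (nat_lit 9) true (nat_lit 12) true (nat_lit 2) true (nat_lit 11) true (nat_lit 6) (.s true (nat_lit 2) (nat_lit 14) (nat_lit 2) (nat_lit 1) (nat_lit 4) true (nat_lit 2) true (nat_lit 8)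 true (nat_lit 2) true (nat_lit 10) true (nat_lit 11) (.s true (nat_lit 3) (nat_lit 14) (nat_lit 2) (nat_lit 3) (nat_lit 2) true (nat_lit 6) true (nat_lit 10) true (nat_lit 2) true (nat_lit 10) true (nat_lit 9) (.s false (nat_lit 2) (nat_lit 15) (nat_lit 2) (nat_lit 3) (nat_lit 2) true (nat_lit 6) true (nat_lit 10) true (nat_lit 2) true (nat_lit 10) true (nat_lit 9) (.s true (nat_lit 3) (nat_lit 14) (nat_lit 2) (nat_lit 4) (nat_lit 1) true (nat_lit 7) true (nat_lit 11) true (nat_lit 2) true (nat_lit 10) true (nat_lit 8) (.s true (nat_lit 2) (nat_lit 14) (nat_lit 3) (nat_lit 2) (nat_lit 2) true (nat_lit 3) true (nat_lit 10) true (nat_lit 2) true (nat_lit 9) true (nat_lit 10) (.s false (nat_lit 3) (nat_lit 15) (nat_lit 3) (nat_lit 2) (nat_lit 2) true (nat_lit 3) true (nat_lit 10) true (nat_lit 2) true (nat_lit 9) true (nat_lit 10) (.s true (nat_lit 1) (nat_lit 14) (nat_lit 4) (nat_lit 1) (nat_lit 2) true (nat_lit 2)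 true (nat_lit 10) true (nat_lit 2) true (nat_lit 8) true (nat_lit 11) (.s true (nat_lit 2) (nat_lit 15) (nat_lit 6) (nat_lit 0) (nat_lit 1) true (nat_lit 1) true (nat_lit 11) true (nat_lit 2) true (nat_lit 6) true (nat_lit 12) (.s true (nat_lit 3) (nat_lit 17) (nat_lit 0) (nat_lit 4) (nat_lit 2) true (nat_lit 8) true (nat_lit 10) true (nat_lit 1) true (nat_lit 12) true (nat_lit 8) (.s false (nat_lit 2) (nat_lit 18) (nat_lit 0) (nat_lit 2) (nat_lit 3) true (nat_lit 5) true (nat_lit 9) true (nat_lit 0) true (nat_lit 12) true (nat_lit 10) (.s false (nat_lit 1) (nat_lit 18) (nat_lit 0) (nat_lit 5) (nat_lit 0) false (nat_lit 13) true (nat_lit 12) true (nat_lit 0) true (nat_lit 12) true (nat_lit 7) (.s true (nat_lit 2) (nat_lit 18) (nat_lit 3) (nat_lit 2) (nat_lit 0) true (nat_lit 5) true (nat_lit 12) true (nat_lit 0) true (nat_lit 9) true (nat_lit 10) (.s false (nat_lit 1) (nat_lit 18) (nat_lit 4) (nat_lit 0) (nat_lit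 1) true (nat_lit 3) true (nat_lit 11) true (nat_lit 0) true (nat_lit 8) true (nat_lit 12) (.s true (nat_lit 1) (nat_lit 18) (nat_lit 5) (nat_lit 0) (nat_lit 0) true (nat_lit 3) true (nat_lit 12) true (nat_lit 0) true (nat_lit 7) true (nat_lit 12) (.s true (nat_lit 2) (nat_lit 30) (nat_lit 1) (nat_lit 2) (nat_lit 2) true (nat_lit 7) true (nat_lit 10) false (nat_lit 1) true (nat_lit 11) true (nat_lit 10) (.s true (nat_lit 3) (nat_lit 28) (nat_lit 2) (nat_lit 1) (nat_lit 2) true (nat_lit 6) true (nat_lit 10) false (nat_lit 1) true (nat_lit 10) true (nat_lit 11) (.s true (nat_lit 2) (nat_lit 30) (nat_lit 2) (nat_lit 1) (nat_lit 2) true (nat_lit 6) true (nat_lit 10) false (nat_lit 1) true (nat_lit 10) true (nat_lit 11) (.s false (nat_lit 2) (nat_lit 30) (nat_lit 2) (nat_lit 2) (nat_lit 1) true (nat_lit 7) true (nat_lit 11) false (nat_lit 1) true (nat_lit 10) true (nat_lit 10) (.s false (nat_lit 1) (nat_lit 31) (nat_lit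 0) (nat_lit 2) (nat_lit 2) true (nat_lit 8) true (nat_lit 10) false (nat_lit 2) true (nat_lit 12) true (nat_lit 10) (.s true (nat_lit 2) (nat_lit 33) (nat_lit 0) (nat_lit 2) (nat_lit 2) true (nat_lit 8) true (nat_lit 10) false (nat_lit 2) true (nat_lit 12) true (nat_lit 10) dC1d_i70)))))))))))))))))))))))))

noncomputable def dC1d_i72 : IL := (.e false (nat_lit 1) (nat_lit 241) (nat_lit 2) (nat_lit 17) (.e true (nat_lit 1) (nat_lit 242) (nat_lit 2) (nat_lit 17) (.e false (nat_lit 3) (nat_lit 243) (nat_lit 2) (nat_lit 17) (.e false (nat_lit 1) (nat_lit 213) (nat_lit 2) (nat_lit 17) (.e true (nat_lit 2) (nat_lit 214) (nat_lit 2) (nat_lit 17) (.e false (nat_lit 2) (nat_lit 217) (nat_lit 2) (nat_lit 17) (.e true (nat_lit 1) (nat_lit 218) (nat_lit 2) (nat_lit 17) (.e false (nat_lit 1) (nat_lit 219) (nat_lit 2) (nat_lit 17) (.e false (nat_lit 3) (nat_lit 220) (nat_lit 2) (nat_lit 17) (.e true (nat_lit 3) (nat_lit 221)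 (nat_lit 2) (nat_lit 17) (.e true (nat_lit 2) (nat_lit 224) (nat_lit 2) (nat_lit 17) (.e false (nat_lit 1) (nat_lit 227) (nat_lit 2) (nat_lit 17) (.e true (nat_lit 3) (nat_lit 248) (nat_lit 2) (nat_lit 17) (.e true (nat_lit 2) (nat_lit 246) (nat_lit 2) (nat_lit 17) (.e true (nat_lit 2) (nat_lit 223) (nat_lit 2) (nat_lit 17) (.e false (nat_lit 1) (nat_lit 231) (nat_lit 2) (nat_lit 17) (.e false (nat_lit 1) (nat_lit 233) (nat_lit 2) (nat_lit 17) (.e true (nat_lit 1) (nat_lit 240) (nat_lit 2) (nat_lit 17) (.e false (nat_lit 1) (nat_lit 232) (nat_lit 2) (nat_lit 17) (.e true (nat_lit 1) (nat_lit 244) (nat_lit 2) (nat_lit 17) (.e true (nat_lit 3) (nat_lit 245) (nat_lit 2) (nat_lit 17) (.e false (nat_lit 2) (nat_lit 212) (nat_lit 2) (nat_lit 17) (.e true (nat_lit 2) (nat_lit 216) (nat_lit 2) (nat_lit 17) (.e true (nat_lit 2) (nat_lit 229) (nat_lit 2) (nat_lit 17) (.u (nat_lit 2) (.n (nat_lit 0) (nat_lit 2) (.p (nat_lit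 2) (nat_lit 1) (.p (nat_lit 3) (nat_lit 3) (.n (nat_lit 4) (nat_lit 3) (.p (nat_lit 6) (nat_lit 3) (.n (nat_lit 7) (nat_lit 4) (.p (nat_lit 8) (nat_lit 1) (.n (nat_lit 10) (nat_lit 2) (.n (nat_lit 11) (nat_lit 2) (.p (nat_lit 12) (nat_lit 3) (.n (nat_lit 14) (nat_lit 1) (.n (nat_lit 18) (nat_lit 2) (.n (nat_lit 20) (nat_lit 1) (.n (nat_lit 29) (nat_lit 1) (.n (nat_lit 30) (nat_lit 6) (.n (nat_lit 31) (nat_lit 4) (.n (nat_lit 32) (nat_lit 2) (.n (nat_lit 33) (nat_lit 3) (.p (nat_lit 34) (nat_lit 4) (.p (nat_lit 35) (nat_lit 1) (.n (nat_lit 36) (nat_lit 7) (.p (nat_lit 37) (nat_lit 3) (.p (nat_lit 39) (nat_lit 2) (.p (nat_lit 40) (nat_lit 3) (.p (nat_lit 41) (nat_lit 4) (.p (nat_lit 49) (nat_lit 1) (.n (nat_lit 52) (nat_lit 1) (.n (nat_lit 53) (nat_lit 1) (.p (nat_lit 54) (nat_lit 1) (.p (nat_lit 63) (nat_lit 1) (.p (nat_lit 69) (nat_lit 1) (.p (nat_lit 328) (nat_lit 2) (.n (nat_lit 330) (nat_lit 1) (.n (nat_lit 332)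 (nat_lit 1) (.n (nat_lit 337) (nat_lit 1) (.n (nat_lit 338) (nat_lit 1) (.p (nat_lit 339) (nat_lit 1) (.n (nat_lit 346) (nat_lit 1) (.n (nat_lit 351) (nat_lit 1) (.p (nat_lit 352) (nat_lit 1) (.p (nat_lit 355) (nat_lit 1) (.n (nat_lit 356) (nat_lit 1) (.p (nat_lit 359) (nat_lit 1) (.n (nat_lit 363) (nat_lit 1) .z)))))))))))))))))))))))))))))))))))))))))))) .nil)))))))))))))))))))))))))

noncomputable def dC1d_i73 : IL := (.e true (nat_lit 2) (nat_lit 262) (nat_lit 1) (nat_lit 18) (.e true (nat_lit 1) (nat_lit 263) (nat_lit 1) (nat_lit 18) (.e false (nat_lit 1) (nat_lit 264) (nat_lit 1) (nat_lit 18) (.e true (nat_lit 1) (nat_lit 265) (nat_lit 1) (nat_lit 18) (.e true (nat_lit 3) (nat_lit 266) (nat_lit 1) (nat_lit 18) (.e false (nat_lit 1) (nat_lit 267) (nat_lit 1) (nat_lit 18) (.e true (nat_lit 2) (nat_lit 268) (nat_lit 1) (nat_lit 18) (.e true (nat_lit 3) (nat_lit 269) (nat_lit 1) (nat_lit 18) (.e false (nat_lit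 3) (nat_lit 270) (nat_lit 1) (nat_lit 18) (.e false (nat_lit 3) (nat_lit 271) (nat_lit 1) (nat_lit 18) (.e false (nat_lit 2) (nat_lit 273) (nat_lit 1) (nat_lit 18) (.e true (nat_lit 1) (nat_lit 274) (nat_lit 1) (nat_lit 18) (.e false (nat_lit 2) (nat_lit 275) (nat_lit 1) (nat_lit 18) (.e false (nat_lit 3) (nat_lit 277) (nat_lit 1) (nat_lit 18) (.e false (nat_lit 3) (nat_lit 278) (nat_lit 1) (nat_lit 18) (.e false (nat_lit 2) (nat_lit 280) (nat_lit 1) (nat_lit 18) (.e true (nat_lit 1) (nat_lit 281) (nat_lit 1) (nat_lit 18) (.e true (nat_lit 2) (nat_lit 283) (nat_lit 1) (nat_lit 18) (.e false (nat_lit 1) (nat_lit 286) (nat_lit 1) (nat_lit 18) (.e false (nat_lit 1) (nat_lit 287) (nat_lit 1) (nat_lit 18) (.e true (nat_lit 1) (nat_lit 288) (nat_lit 1) (nat_lit 18) (.e false (nat_lit 1) (nat_lit 289) (nat_lit 1) (nat_lit 18) (.e true (nat_lit 1) (nat_lit 234) (nat_lit 2) (nat_lit 17) (.e false (nat_lit 2) (nat_lit 237)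 (nat_lit 2) (nat_lit 17) (.e false (nat_lit 2) (nat_lit 239) (nat_lit 2) (nat_lit 17) dC1d_i72)))))))))))))))))))))))))

noncomputable def dC1d_i74 : IL := (.e false (nat_lit 3) (nat_lit 44) (nat_lit 31) (nat_lit 1) (.e true (nat_lit 2) (nat_lit 45) (nat_lit 31) (nat_lit 1) (.e true (nat_lit 1) (nat_lit 105) (nat_lit 10) (nat_lit 7) (.e false (nat_lit 1) (nat_lit 192) (nat_lit 5) (nat_lit 10) (.e false (nat_lit 1) (nat_lit 290) (nat_lit 2) (nat_lit 13) (.e true (nat_lit 2) (nat_lit 291) (nat_lit 2) (nat_lit 13) (.e false (nat_lit 3) (nat_lit 292) (nat_lit 2) (nat_lit 13) (.e true (nat_lit 3) (nat_lit 293) (nat_lit 2) (nat_lit 13) (.e false (nat_lit 1) (nat_lit 294) (nat_lit 2) (nat_lit 13) (.e false (nat_lit 2) (nat_lit 301) (nat_lit 2) (nat_lit 13) (.e false (nat_lit 1) (nat_lit 304) (nat_lit 2) (nat_lit 13) (.e true (nat_lit 1) (nat_lit 307) (nat_lit 2) (nat_lit 13) (.e true (nat_lit 2) (nat_lit 308) (nat_lit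 2) (nat_lit 13) (.e true (nat_lit 3) (nat_lit 310) (nat_lit 2) (nat_lit 13) (.e false (nat_lit 2) (nat_lit 311) (nat_lit 2) (nat_lit 13) (.e true (nat_lit 3) (nat_lit 319) (nat_lit 2) (nat_lit 13) (.e true (nat_lit 2) (nat_lit 82) (nat_lit 17) (nat_lit 4) (.e false (nat_lit 1) (nat_lit 154) (nat_lit 6) (nat_lit 9) (.e true (nat_lit 1) (nat_lit 164) (nat_lit 6) (nat_lit 9) (.e false (nat_lit 1) (nat_lit 171) (nat_lit 6) (nat_lit 9) (.e false (nat_lit 1) (nat_lit 43) (nat_lit 31) (nat_lit 1) (.e false (nat_lit 2) (nat_lit 298) (nat_lit 2) (nat_lit 13) (.e true (nat_lit 1) (nat_lit 180) (nat_lit 5) (nat_lit 10) (.e true (nat_lit 1) (nat_lit 161) (nat_lit 6) (nat_lit 9) (.u (nat_lit 2) (.n (nat_lit 0) (nat_lit 4) (.n (nat_lit 1) (nat_lit 3) (.p (nat_lit 2) (nat_lit 2) (.n (nat_lit 3) (nat_lit 2) (.n (nat_lit 4) (nat_lit 1) (.n (nat_lit 5) (nat_lit 2) (.n (nat_lit 7) (nat_lit 1) (.n (nat_lit 8) (nat_lit 1) (.p (nat_lit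 9) (nat_lit 2) (.p (nat_lit 10) (nat_lit 4) (.p (nat_lit 11) (nat_lit 1) (.p (nat_lit 12) (nat_lit 2) (.p (nat_lit 13) (nat_lit 3) (.p (nat_lit 14) (nat_lit 4) (.p (nat_lit 15) (nat_lit 5) (.n (nat_lit 16) (nat_lit 2) (.n (nat_lit 17) (nat_lit 2) (.n (nat_lit 18) (nat_lit 1) (.p (nat_lit 19) (nat_lit 2) (.p (nat_lit 20) (nat_lit 1) (.n (nat_lit 21) (nat_lit 1) (.p (nat_lit 26) (nat_lit 1) (.p (nat_lit 29) (nat_lit 1) (.n (nat_lit 33) (nat_lit 1) (.p (nat_lit 45) (nat_lit 1) (.p (nat_lit 113) (nat_lit 1) (.p (nat_lit 114) (nat_lit 1) (.p (nat_lit 169) (nat_lit 1) (.p (nat_lit 170) (nat_lit 1) (.p (nat_lit 173) (nat_lit 1) (.n (nat_lit 174) (nat_lit 1) (.p (nat_lit 177) (nat_lit 1) (.n (nat_lit 181) (nat_lit 1) (.n (nat_lit 182) (nat_lit 2) (.n (nat_lit 184) (nat_lit 2) (.p (nat_lit 187) (nat_lit 2) (.n (nat_lit 190) (nat_lit 1) (.p (nat_lit 191) (nat_lit 2) (.n (nat_lit 194) (nat_lit 1) (.n (nat_lit 200) (nat_lit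 1) .z)))))))))))))))))))))))))))))))))))))))) .nil)))))))))))))))))))))))))

noncomputable def dC1d_i75 : IL := (.e false (nat_lit 2) (nat_lit 161) (nat_lit 2) (nat_lit 10) (.e false (nat_lit 3) (nat_lit 163) (nat_lit 2) (nat_lit 10) (.e true (nat_lit 1) (nat_lit 167) (nat_lit 2) (nat_lit 10) (.e true (nat_lit 1) (nat_lit 168) (nat_lit 2) (nat_lit 10) (.e true (nat_lit 2) (nat_lit 170) (nat_lit 2) (nat_lit 10) (.e false (nat_lit 1) (nat_lit 173) (nat_lit 2) (nat_lit 10) (.e true (nat_lit 1) (nat_lit 26) (nat_lit 18) (nat_lit 0) (.e false (nat_lit 2) (nat_lit 158) (nat_lit 2) (nat_lit 10) (.e true (nat_lit 1) (nat_lit 172) (nat_lit 2) (nat_lit 10) (.e false (nat_lit 1) (nat_lit 27) (nat_lit 18) (nat_lit 0) (.e true (nat_lit 1) (nat_lit 67) (nat_lit 6) (nat_lit 6) (.e true (nat_lit 1) (nat_lit 75) (nat_lit 6) (nat_lit 6) (.e false (nat_lit 3) (nat_lit 162) (nat_lit 2) (nat_lit 10) (.e false (nat_lit 2) (nat_lit 165)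 (nat_lit 2) (nat_lit 10) (.e false (nat_lit 1) (nat_lit 103) (nat_lit 3) (nat_lit 9) (.e true (nat_lit 1) (nat_lit 105) (nat_lit 3) (nat_lit 9) (.e false (nat_lit 2) (nat_lit 180) (nat_lit 1) (nat_lit 11) (.e false (nat_lit 1) (nat_lit 181) (nat_lit 1) (nat_lit 11) (.e false (nat_lit 1) (nat_lit 185) (nat_lit 1) (nat_lit 11) (.e true (nat_lit 2) (nat_lit 188) (nat_lit 1) (nat_lit 11) (.e false (nat_lit 2) (nat_lit 192) (nat_lit 1) (nat_lit 11) (.e true (nat_lit 1) (nat_lit 183) (nat_lit 1) (nat_lit 11) (.e false (nat_lit 1) (nat_lit 46) (nat_lit 8) (nat_lit 5) (.e true (nat_lit 1) (nat_lit 182) (nat_lit 1) (nat_lit 11) (.u (nat_lit 2) (.p (nat_lit 0) (nat_lit 1) (.p (nat_lit 1) (nat_lit 1) (.p (nat_lit 2) (nat_lit 2) (.n (nat_lit 3) (nat_lit 1) (.p (nat_lit 4) (nat_lit 1) (.p (nat_lit 5) (nat_lit 1) (.p (nat_lit 6) (nat_lit 1) (.n (nat_lit 7) (nat_lit 1) (.n (nat_lit 9) (nat_lit 1) (.n (nat_lit 11) (nat_lit 2) (.p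 (nat_lit 18) (nat_lit 2) (.p (nat_lit 26) (nat_lit 1) (.n (nat_lit 27) (nat_lit 1) (.n (nat_lit 116) (nat_lit 1) .z)))))))))))))) .nil)))))))))))))))))))))))))

noncomputable def dC1d_i76 : IL := (.e false (nat_lit 3) (nat_lit 280) (nat_lit 1) (nat_lit 18) (.e true (nat_lit 1) (nat_lit 91) (nat_lit 11) (nat_lit 9) (.e true (nat_lit 2) (nat_lit 290) (nat_lit 0) (nat_lit 19) (.e false (nat_lit 1) (nat_lit 291) (nat_lit 0) (nat_lit 19) (.e true (nat_lit 1) (nat_lit 293) (nat_lit 0) (nat_lit 19) (.e false (nat_lit 1) (nat_lit 294) (nat_lit 0) (nat_lit 19) (.e true (nat_lit 1) (nat_lit 295) (nat_lit 0) (nat_lit 19) (.e false (nat_lit 3) (nat_lit 296) (nat_lit 0) (nat_lit 19) (.e true (nat_lit 3) (nat_lit 297) (nat_lit 0) (nat_lit 19) (.e false (nat_lit 1) (nat_lit 298) (nat_lit 0) (nat_lit 19) (.e false (nat_lit 2) (nat_lit 299) (nat_lit 0) (nat_lit 19) (.e false (nat_lit 2) (nat_lit 300) (nat_lit 0) (nat_lit 19) (.e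 false (nat_lit 3) (nat_lit 301) (nat_lit 0) (nat_lit 19) (.e true (nat_lit 1) (nat_lit 305) (nat_lit 0) (nat_lit 19) (.e false (nat_lit 2) (nat_lit 307) (nat_lit 0) (nat_lit 19) (.e true (nat_lit 2) (nat_lit 308) (nat_lit 0) (nat_lit 19) (.e true (nat_lit 2) (nat_lit 310) (nat_lit 0) (nat_lit 19) (.e false (nat_lit 1) (nat_lit 311) (nat_lit 0) (nat_lit 19) (.e false (nat_lit 2) (nat_lit 312) (nat_lit 0) (nat_lit 19) (.e true (nat_lit 2) (nat_lit 316) (nat_lit 0) (nat_lit 19) (.e true (nat_lit 3) (nat_lit 317) (nat_lit 0) (nat_lit 19) (.e false (nat_lit 1) (nat_lit 318) (nat_lit 0) (nat_lit 19) (.e true (nat_lit 1) (nat_lit 319) (nat_lit 0) (nat_lit 19) (.e false (nat_lit 1) (nat_lit 227) (nat_lit 2) (nat_lit 17) (.u (nat_lit 2) (.n (nat_lit 0) (nat_lit 1) (.p (nat_lit 4) (nat_lit 1) (.n (nat_lit 8) (nat_lit 2) (.p (nat_lit 9) (nat_lit 1) (.n (nat_lit 11) (nat_lit 2) (.n (nat_lit 12) (nat_lit 1) (.n (nat_lit 14)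 (nat_lit 3) (.p (nat_lit 15) (nat_lit 1) (.n (nat_lit 18) (nat_lit 1) (.p (nat_lit 19) (nat_lit 1) (.n (nat_lit 20) (nat_lit 2) (.n (nat_lit 26) (nat_lit 2) (.n (nat_lit 27) (nat_lit 2) (.n (nat_lit 29) (nat_lit 1) (.p (nat_lit 30) (nat_lit 1) (.p (nat_lit 31) (nat_lit 4) (.n (nat_lit 34) (nat_lit 1) (.n (nat_lit 35) (nat_lit 2) (.n (nat_lit 37) (nat_lit 1) (.n (nat_lit 40) (nat_lit 2) (.n (nat_lit 41) (nat_lit 1) .z))))))))))))))))))))) .nil)))))))))))))))))))))))))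

noncomputable def dC1d_i77 : IL := (.e true (nat_lit 1) (nat_lit 322) (nat_lit 1) (nat_lit 14) (.e true (nat_lit 1) (nat_lit 65) (nat_lit 18) (nat_lit 3) (.e false (nat_lit 2) (nat_lit 275) (nat_lit 2) (nat_lit 13) (.e false (nat_lit 1) (nat_lit 283) (nat_lit 2) (nat_lit 13) (.e true (nat_lit 2) (nat_lit 320) (nat_lit 1) (nat_lit 14) (.e true (nat_lit 3) (nat_lit 327) (nat_lit 1) (nat_lit 14) (.e true (nat_lit 2) (nat_lit 284) (nat_lit 2) (nat_lit 13) (.e true (nat_lit 3) (nat_lit 340) (nat_lit 0) (nat_lit 15) (.e true (nat_lit 1) (nat_lit 345) (nat_lit 0) (nat_lit 15) (.e true (nat_lit 1) (nat_lit 341) (nat_lit 0) (nat_lit 15) (.e false (nat_lit 2) (nat_lit 328) (nat_lit 0) (nat_lit 15) (.e true (nat_lit 2) (nat_lit 329) (nat_lit 0) (nat_lit 15) (.e true (nat_lit 1) (nat_lit 330) (nat_lit 0) (nat_lit 15) (.e false (nat_lit 3) (nat_lit 331) (nat_lit 0) (nat_lit 15) (.e false (nat_lit 3) (nat_lit 333) (nat_lit 0)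 (nat_lit 15) (.e false (nat_lit 1) (nat_lit 334) (nat_lit 0) (nat_lit 15) (.e false (nat_lit 1) (nat_lit 335) (nat_lit 0) (nat_lit 15) (.e true (nat_lit 2) (nat_lit 336) (nat_lit 0) (nat_lit 15) (.e false (nat_lit 1) (nat_lit 337) (nat_lit 0) (nat_lit 15) (.e true (nat_lit 1) (nat_lit 338) (nat_lit 0) (nat_lit 15) (.e false (nat_lit 2) (nat_lit 149) (nat_lit 6) (nat_lit 9) (.e true (nat_lit 1) (nat_lit 342) (nat_lit 0) (nat_lit 15) (.u (nat_lit 2) (.p (nat_lit 4) (nat_lit 2) (.p (nat_lit 5) (nat_lit 1) (.p (nat_lit 8) (nat_lit 2) (.n (nat_lit 9) (nat_lit 1) (.n (nat_lit 10) (nat_lit 2) (.n (nat_lit 12) (nat_lit 1) (.n (nat_lit 13) (nat_lit 2) (.n (nat_lit 15) (nat_lit 1) (.p (nat_lit 16) (nat_lit 1) (.p (nat_lit 17) (nat_lit 2) (.p (nat_lit 18) (nat_lit 3) (.n (nat_lit 19) (nat_lit 1) (.p (nat_lit 21) (nat_lit 1) (.n (nat_lit 24) (nat_lit 1) (.n (nat_lit 26) (nat_lit 1) (.n (nat_lit 27) (nat_lit 2) (.n (nat_lit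 30) (nat_lit 1) (.n (nat_lit 33) (nat_lit 1) (.n (nat_lit 34) (nat_lit 1) (.p (nat_lit 35) (nat_lit 2) (.p (nat_lit 36) (nat_lit 1) (.n (nat_lit 37) (nat_lit 1) (.p (nat_lit 46) (nat_lit 1) (.n (nat_lit 49) (nat_lit 1) (.n (nat_lit 56) (nat_lit 1) (.n (nat_lit 57) (nat_lit 1) (.n (nat_lit 66) (nat_lit 1) (.n (nat_lit 68) (nat_lit 1) (.n (nat_lit 69) (nat_lit 2) (.n (nat_lit 70) (nat_lit 1) (.p (nat_lit 71) (nat_lit 1) (.p (nat_lit 73) (nat_lit 1) (.p (nat_lit 74) (nat_lit 2) (.p (nat_lit 75) (nat_lit 2) (.p (nat_lit 76) (nat_lit 1) (.p (nat_lit 77) (nat_lit 1) (.n (nat_lit 86) (nat_lit 1) (.n (nat_lit 87) (nat_lit 1) (.p (nat_lit 90) (nat_lit 1) (.n (nat_lit 91) (nat_lit 1) (.n (nat_lit 98) (nat_lit 1) (.p (nat_lit 99) (nat_lit 1) (.n (nat_lit 100) (nat_lit 1) (.p (nat_lit 102) (nat_lit 1) (.p (nat_lit 123) (nat_lit 1) (.p (nat_lit 125) (nat_lit 2) (.n (nat_lit 126) (nat_lit 2) (.p (nat_lit 127) (nat_lit 3) (.p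 (nat_lit 130) (nat_lit 3) (.n (nat_lit 131) (nat_lit 1) (.n (nat_lit 134) (nat_lit 1) (.n (nat_lit 135) (nat_lit 3) (.p (nat_lit 136) (nat_lit 1) (.n (nat_lit 137) (nat_lit 1) (.p (nat_lit 140) (nat_lit 1) (.p (nat_lit 142) (nat_lit 1) (.n (nat_lit 143) (nat_lit 1) (.n (nat_lit 144) (nat_lit 1) (.p (nat_lit 145) (nat_lit 2) (.p (nat_lit 146) (nat_lit 3) .z)))))))))))))))))))))))))))))))))))))))))))))))))))))))))))) (.u (nat_lit 2) (.n (nat_lit 147) (nat_lit 1) (.p (nat_lit 148) (nat_lit 1) (.p (nat_lit 149) (nat_lit 5) (.p (nat_lit 150) (nat_lit 1) (.p (nat_lit 151) (nat_lit 2) (.n (nat_lit 152) (nat_lit 1) (.n (nat_lit 153) (nat_lit 1) (.p (nat_lit 156) (nat_lit 1) (.n (nat_lit 157) (nat_lit 1) (.n (nat_lit 161) (nat_lit 1) (.n (nat_lit 162) (nat_lit 1) (.p (nat_lit 166) (nat_lit 1) (.n (nat_lit 173) (nat_lit 3) (.p (nat_lit 174) (nat_lit 2) (.p (nat_lit 175) (nat_lit 15) (.n (nat_lit 176) (nat_lit 9) (.n (nat_lit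 177) (nat_lit 1) (.n (nat_lit 178) (nat_lit 7) (.n (nat_lit 179) (nat_lit 22) (.p (nat_lit 180) (nat_lit 2) (.n (nat_lit 181) (nat_lit 5) (.n (nat_lit 182) (nat_lit 8) (.p (nat_lit 183) (nat_lit 3) (.n (nat_lit 184) (nat_lit 14) (.p (nat_lit 185) (nat_lit 3) (.p (nat_lit 186) (nat_lit 7) (.p (nat_lit 187) (nat_lit 3) (.n (nat_lit 188) (nat_lit 5) (.p (nat_lit 189) (nat_lit 1) (.p (nat_lit 190) (nat_lit 8) (.n (nat_lit 191) (nat_lit 2) (.n (nat_lit 192) (nat_lit 12) (.p (nat_lit 193) (nat_lit 5) (.p (nat_lit 194) (nat_lit 6) (.n (nat_lit 195) (nat_lit 9) (.p (nat_lit 196) (nat_lit 6) (.n (nat_lit 197) (nat_lit 7) (.n (nat_lit 198) (nat_lit 1) (.n (nat_lit 199) (nat_lit 3) (.n (nat_lit 200) (nat_lit 4) (.n (nat_lit 201) (nat_lit 11) (.p (nat_lit 202) (nat_lit 3) (.p (nat_lit 203) (nat_lit 6) (.n (nat_lit 204) (nat_lit 3) (.n (nat_lit 205) (nat_lit 6) (.p (nat_lit 206) (nat_lit 5) (.p (nat_lit 207) (nat_lit 1) (.n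 (nat_lit 208) (nat_lit 2) (.n (nat_lit 209) (nat_lit 1) (.p (nat_lit 210) (nat_lit 2) (.n (nat_lit 211) (nat_lit 3) (.p (nat_lit 212) (nat_lit 1) (.p (nat_lit 213) (nat_lit 4) (.p (nat_lit 215) (nat_lit 4) (.n (nat_lit 216) (nat_lit 5) (.p (nat_lit 217) (nat_lit 1) (.n (nat_lit 218) (nat_lit 1) (.p (nat_lit 219) (nat_lit 7) (.p (nat_lit 221) (nat_lit 7) (.n (nat_lit 222) (nat_lit 2) .z)))))))))))))))))))))))))))))))))))))))))))))))))))))))))))) (.u (nat_lit 2) (.n (nat_lit 223) (nat_lit 1) (.n (nat_lit 224) (nat_lit 1) (.p (nat_lit 228) (nat_lit 2) .z))) .nil)))))))))))))))))))))))))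

noncomputable def dC1d_i78 : IL := (.s false (nat_lit 3) (nat_lit 99) (nat_lit 2) (nat_lit 0) (nat_lit 1) true (nat_lit 10) true (nat_lit 14) false (nat_lit 6) true (nat_lit 13) true (nat_lit 15) (.s true (nat_lit 1) (nat_lit 100) (nat_lit 2) (nat_lit 0) (nat_lit 1) true (nat_lit 10) true (nat_lit 14) false (nat_lit 6) true (nat_lit 13) true (nat_lit 15) (.s true (nat_lit 1) (nat_lit 101) (nat_lit 2) (nat_lit 0) (nat_lit 1) true (nat_lit 10) true (nat_lit 14) false (nat_lit 6) true (nat_lit 13) true (nat_lit 15) (.s false (nat_lit 1) (nat_lit 98) (nat_lit 2) (nat_lit 1) (nat_lit 0) true (nat_lit 11) true (nat_lit 15) false (nat_lit 6) true (nat_lit 13) true (nat_lit 14) (.s false (nat_lit 1) (nat_lit 102) (nat_lit 0) (nat_lit 2) (nat_lit 0) false (nat_lit 16) true (nat_lit 15) false (nat_lit 7) true (nat_lit 15) true (nat_lit 13) (.s false (nat_lit 1) (nat_lit 104) (nat_lit 0) (nat_lit 2) (nat_lit 0) false (nat_lit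 16) true (nat_lit 15) false (nat_lit 7) true (nat_lit 15) true (nat_lit 13) (.s false (nat_lit 3) (nat_lit 105) (nat_lit 0) (nat_lit 2) (nat_lit 0) false (nat_lit 16) true (nat_lit 15) false (nat_lit 7) true (nat_lit 15) true (nat_lit 13) (.s false (nat_lit 2) (nat_lit 106) (nat_lit 0) (nat_lit 1) (nat_lit 0) false (nat_lit 16) true (nat_lit 15) false (nat_lit 8) true (nat_lit 15) true (nat_lit 14) (.e false (nat_lit 1) (nat_lit 286) (nat_lit 2) (nat_lit 13) (.e true (nat_lit 3) (nat_lit 264) (nat_lit 2) (nat_lit 13) (.e true (nat_lit 2) (nat_lit 267) (nat_lit 2) (nat_lit 13) (.e false (nat_lit 2) (nat_lit 271) (nat_lit 2) (nat_lit 13) (.e true (nat_lit 1) (nat_lit 272) (nat_lit 2) (nat_lit 13) (.e true (nat_lit 2) (nat_lit 273) (nat_lit 2) (nat_lit 13) (.e false (nat_lit 3) (nat_lit 278) (nat_lit 2) (nat_lit 13) (.e false (nat_lit 3) (nat_lit 274) (nat_lit 2) (nat_lit 13) (.e true (nat_lit 3) (nat_lit 270) (nat_lit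 2) (nat_lit 13) (.e true (nat_lit 1) (nat_lit 277) (nat_lit 2) (nat_lit 13) (.e false (nat_lit 2) (nat_lit 265) (nat_lit 2) (nat_lit 13) (.e false (nat_lit 1) (nat_lit 268) (nat_lit 2) (nat_lit 13) (.e true (nat_lit 3) (nat_lit 137) (nat_lit 6) (nat_lit 9) (.e false (nat_lit 3) (nat_lit 142) (nat_lit 6) (nat_lit 9) (.e true (nat_lit 3) (nat_lit 323) (nat_lit 1) (nat_lit 14) (.e true (nat_lit 1) (nat_lit 324) (nat_lit 1) (nat_lit 14) (.e false (nat_lit 2) (nat_lit 321) (nat_lit 1) (nat_lit 14) dC1d_i77)))))))))))))))))))))))))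

noncomputable def dC1d_i79 : IL := (.s false (nat_lit 2) (nat_lit 61) (nat_lit 2) (nat_lit 2) (nat_lit 2) true (nat_lit 9) true (nat_lit 13) false (nat_lit 3) true (nat_lit 13) true (nat_lit 13) (.s false (nat_lit 3) (nat_lit 62) (nat_lit 2) (nat_lit 2) (nat_lit 2) true (nat_lit 9) true (nat_lit 13) false (nat_lit 3) true (nat_lit 13) true (nat_lit 13) (.s false (nat_lit 3) (nat_lit 77) (nat_lit 1) (nat_lit 2) (nat_lit 2) true (nat_lit 10) true (nat_lit 13) false (nat_lit 4) true (nat_lit 14) true (nat_lit 13) (.s false (nat_lit 1) (nat_lit 78) (nat_lit 1) (nat_lit 2) (nat_lit 2) true (nat_lit 10) true (nat_lit 13) false (nat_lit 4) true (nat_lit 14) true (nat_lit 13) (.s false (nat_lit 3) (nat_lit 80) (nat_lit 1) (nat_lit 2) (nat_lit 2) true (nat_lit 10) true (nat_lit 13) false (nat_lit 4) true (nat_lit 14) true (nat_lit 13) (.s true (nat_lit 3) (nat_lit 81) (nat_lit 1) (nat_lit 2) (nat_lit 2) true (nat_lit 10)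 true (nat_lit 13) false (nat_lit 4) true (nat_lit 14) true (nat_lit 13) (.s true (nat_lit 3) (nat_lit 77) (nat_lit 2) (nat_lit 1) (nat_lit 2) true (nat_lit 9) true (nat_lit 13) false (nat_lit 4) true (nat_lit 13) true (nat_lit 14) (.s true (nat_lit 3) (nat_lit 79) (nat_lit 2) (nat_lit 1) (nat_lit 2) true (nat_lit 9) true (nat_lit 13) false (nat_lit 4) true (nat_lit 13) true (nat_lit 14) (.s false (nat_lit 3) (nat_lit 80) (nat_lit 2) (nat_lit 1) (nat_lit 2) true (nat_lit 9) true (nat_lit 13) false (nat_lit 4) true (nat_lit 13) true (nat_lit 14) (.s false (nat_lit 3) (nat_lit 78) (nat_lit 2) (nat_lit 2) (nat_lit 1) true (nat_lit 10) true (nat_lit 14) false (nat_lit 4) true (nat_lit 13) true (nat_lit 13) (.s false (nat_lit 2) (nat_lit 82) (nat_lit 0) (nat_lit 2) (nat_lit 2) true (nat_lit 11) true (nat_lit 13) false (nat_lit 5) true (nat_lit 15) true (nat_lit 13) (.s true (nat_lit 1) (nat_lit 83) (nat_lit 0) (nat_lit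 2) (nat_lit 2) true (nat_lit 11) true (nat_lit 13) false (nat_lit 5) true (nat_lit 15) true (nat_lit 13) (.s false (nat_lit 1) (nat_lit 86) (nat_lit 0) (nat_lit 2) (nat_lit 2) true (nat_lit 11) true (nat_lit 13) false (nat_lit 5) true (nat_lit 15) true (nat_lit 13) (.s false (nat_lit 2) (nat_lit 87) (nat_lit 0) (nat_lit 2) (nat_lit 2) true (nat_lit 11) true (nat_lit 13) false (nat_lit 5) true (nat_lit 15) true (nat_lit 13) (.s false (nat_lit 3) (nat_lit 89) (nat_lit 0) (nat_lit 2) (nat_lit 2) true (nat_lit 11) true (nat_lit 13) false (nat_lit 5) true (nat_lit 15) true (nat_lit 13) (.s true (nat_lit 3) (nat_lit 90) (nat_lit 0) (nat_lit 2) (nat_lit 2) true (nat_lit 11) true (nat_lit 13) false (nat_lit 5) true (nat_lit 15) true (nat_lit 13) (.s true (nat_lit 3) (nat_lit 91) (nat_lit 0) (nat_lit 2) (nat_lit 2) true (nat_lit 11) true (nat_lit 13) false (nat_lit 5) true (nat_lit 15) true (nat_lit 13) (.s true (nat_lit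 3) (nat_lit 92) (nat_lit 0) (nat_lit 2) (nat_lit 2) true (nat_lit 11) true (nat_lit 13) false (nat_lit 5) true (nat_lit 15) true (nat_lit 13) (.s true (nat_lit 1) (nat_lit 83) (nat_lit 2) (nat_lit 0) (nat_lit 2) true (nat_lit 9) true (nat_lit 13) false (nat_lit 5) true (nat_lit 13) true (nat_lit 15) (.s false (nat_lit 3) (nat_lit 85) (nat_lit 2) (nat_lit 2) (nat_lit 0) true (nat_lit 11) true (nat_lit 15) false (nat_lit 5) true (nat_lit 13) true (nat_lit 13) (.s false (nat_lit 3) (nat_lit 90) (nat_lit 2) (nat_lit 2) (nat_lit 0) true (nat_lit 11) true (nat_lit 15) false (nat_lit 5) true (nat_lit 13) true (nat_lit 13) (.s true (nat_lit 1) (nat_lit 91) (nat_lit 2) (nat_lit 2) (nat_lit 0) true (nat_lit 11) true (nat_lit 15) false (nat_lit 5) true (nat_lit 13) true (nat_lit 13) (.s true (nat_lit 3) (nat_lit 100) (nat_lit 1) (nat_lit 0) (nat_lit 2) true (nat_lit 10) true (nat_lit 13) false (nat_lit 6) true (nat_lit 14)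 true (nat_lit 15) (.s true (nat_lit 3) (nat_lit 101) (nat_lit 1) (nat_lit 0) (nat_lit 2) true (nat_lit 10) true (nat_lit 13) false (nat_lit 6) true (nat_lit 14) true (nat_lit 15) (.s false (nat_lit 3) (nat_lit 98) (nat_lit 2) (nat_lit 0) (nat_lit 1) true (nat_lit 10) true (nat_lit 14) false (nat_lit 6) true (nat_lit 13) true (nat_lit 15) dC1d_i78)))))))))))))))))))))))))

noncomputable def dC1d_i80 : IL := (.s false (nat_lit 2) (nat_lit 28) (nat_lit 2) (nat_lit 6) (nat_lit 1) true (nat_lit 10) true (nat_lit 14) true (nat_lit 1) true (nat_lit 13) true (nat_lit 9) (.s true (nat_lit 3) (nat_lit 30) (nat_lit 2) (nat_lit 6) (nat_lit 1) true (nat_lit 10) true (nat_lit 14) true (nat_lit 1) true (nat_lit 13) true (nat_lit 9) (.s true (nat_lit 3) (nat_lit 31) (nat_lit 0) (nat_lit 2) (nat_lit 6) true (nat_lit 5) true (nat_lit 9) true (nat_lit 0) true (nat_lit 15) true (nat_lit 13) (.s true (nat_lit 3) (nat_lit 32) (nat_lit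 0) (nat_lit 2) (nat_lit 6) true (nat_lit 5) true (nat_lit 9) true (nat_lit 0) true (nat_lit 15) true (nat_lit 13) (.s false (nat_lit 3) (nat_lit 33) (nat_lit 0) (nat_lit 2) (nat_lit 6) true (nat_lit 5) true (nat_lit 9) true (nat_lit 0) true (nat_lit 15) true (nat_lit 13) (.s false (nat_lit 3) (nat_lit 36) (nat_lit 0) (nat_lit 2) (nat_lit 6) true (nat_lit 5) true (nat_lit 9) true (nat_lit 0) true (nat_lit 15) true (nat_lit 13) (.s true (nat_lit 1) (nat_lit 31) (nat_lit 0) (nat_lit 6) (nat_lit 2) true (nat_lit 11) true (nat_lit 13) true (nat_lit 0) true (nat_lit 15) true (nat_lit 9) (.s false (nat_lit 1) (nat_lit 32) (nat_lit 0) (nat_lit 6) (nat_lit 2) true (nat_lit 11) true (nat_lit 13) true (nat_lit 0) true (nat_lit 15) true (nat_lit 9) (.s false (nat_lit 3) (nat_lit 31) (nat_lit 2) (nat_lit 0) (nat_lit 6) true (nat_lit 3) true (nat_lit 9) true (nat_lit 0) true (nat_lit 13) true (nat_lit 15) (.s false (nat_lit 3)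 (nat_lit 32) (nat_lit 2) (nat_lit 0) (nat_lit 6) true (nat_lit 3) true (nat_lit 9) true (nat_lit 0) true (nat_lit 13) true (nat_lit 15) (.s true (nat_lit 3) (nat_lit 31) (nat_lit 2) (nat_lit 2) (nat_lit 4) true (nat_lit 5) true (nat_lit 11) true (nat_lit 0) true (nat_lit 13) true (nat_lit 13) (.s false (nat_lit 3) (nat_lit 32) (nat_lit 2) (nat_lit 2) (nat_lit 4) true (nat_lit 5) true (nat_lit 11) true (nat_lit 0) true (nat_lit 13) true (nat_lit 13) (.s true (nat_lit 3) (nat_lit 33) (nat_lit 2) (nat_lit 2) (nat_lit 4) true (nat_lit 5) true (nat_lit 11) true (nat_lit 0) true (nat_lit 13) true (nat_lit 13) (.s true (nat_lit 3) (nat_lit 36) (nat_lit 2) (nat_lit 2) (nat_lit 4) true (nat_lit 5) true (nat_lit 11) true (nat_lit 0) true (nat_lit 13) true (nat_lit 13) (.s false (nat_lit 3) (nat_lit 32) (nat_lit 2) (nat_lit 6) (nat_lit 0) true (nat_lit 11) true (nat_lit 15) true (nat_lit 0) true (nat_lit 13) true (nat_lit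 9) (.s false (nat_lit 1) (nat_lit 35) (nat_lit 2) (nat_lit 6) (nat_lit 0) true (nat_lit 11) true (nat_lit 15) true (nat_lit 0) true (nat_lit 13) true (nat_lit 9) (.s true (nat_lit 1) (nat_lit 31) (nat_lit 4) (nat_lit 2) (nat_lit 2) true (nat_lit 5) true (nat_lit 13) true (nat_lit 0) true (nat_lit 11) true (nat_lit 13) (.s true (nat_lit 3) (nat_lit 32) (nat_lit 6) (nat_lit 0) (nat_lit 2) true (nat_lit 3) true (nat_lit 13) true (nat_lit 0) true (nat_lit 9) true (nat_lit 15) (.s false (nat_lit 1) (nat_lit 40) (nat_lit 0) (nat_lit 2) (nat_lit 5) true (nat_lit 6) true (nat_lit 10) false (nat_lit 0) true (nat_lit 15) true (nat_lit 13) (.s false (nat_lit 3) (nat_lit 40) (nat_lit 1) (nat_lit 2) (nat_lit 4) true (nat_lit 6) true (nat_lit 11) false (nat_lit 0) true (nat_lit 14) true (nat_lit 13) (.s false (nat_lit 1) (nat_lit 40) (nat_lit 1) (nat_lit 4) (nat_lit 2) true (nat_lit 10) true (nat_lit 13) false (nat_lit 0) true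 (nat_lit 14) true (nat_lit 11) (.s false (nat_lit 3) (nat_lit 40) (nat_lit 2) (nat_lit 4) (nat_lit 1) true (nat_lit 10) true (nat_lit 14) false (nat_lit 0) true (nat_lit 13) true (nat_lit 11) (.s true (nat_lit 3) (nat_lit 46) (nat_lit 0) (nat_lit 0) (nat_lit 5) true (nat_lit 6) true (nat_lit 10) false (nat_lit 2) true (nat_lit 15) true (nat_lit 15) (.s false (nat_lit 3) (nat_lit 59) (nat_lit 2) (nat_lit 2) (nat_lit 2) true (nat_lit 9) true (nat_lit 13) false (nat_lit 3) true (nat_lit 13) true (nat_lit 13) (.s true (nat_lit 3) (nat_lit 60) (nat_lit 2) (nat_lit 2) (nat_lit 2) true (nat_lit 9) true (nat_lit 13) false (nat_lit 3) true (nat_lit 13) true (nat_lit 13) dC1d_i79)))))))))))))))))))))))))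

noncomputable def dC1d_i81 : IL := (.s false (nat_lit 3) (nat_lit 18) (nat_lit 0) (nat_lit 12) (nat_lit 2) true (nat_lit 11) true (nat_lit 13) true (nat_lit 3) true (nat_lit 15) true (nat_lit 6) (.s false (nat_lit 1) (nat_lit 18) (nat_lit 1) (nat_lit 9) (nat_lit 2) true (nat_lit 10) true (nat_lit 13) true (nat_lit 3) true (nat_lit 14) true (nat_lit 7) (.s false (nat_lit 1) (nat_lit 18) (nat_lit 2) (nat_lit 0) (nat_lit 10) true (nat_lit 0) true (nat_lit 6) true (nat_lit 3) true (nat_lit 13) true (nat_lit 15) (.s true (nat_lit 2) (nat_lit 18) (nat_lit 2) (nat_lit 2) (nat_lit 7) true (nat_lit 2) true (nat_lit 8) true (nat_lit 3) true (nat_lit 13) true (nat_lit 13) (.s false (nat_lit 3) (nat_lit 18) (nat_lit 2) (nat_lit 3) (nat_lit 4) true (nat_lit 5) true (nat_lit 11) true (nat_lit 3) true (nat_lit 13) true (nat_lit 12) (.s false (nat_lit 1) (nat_lit 18) (nat_lit 2) (nat_lit 10) (nat_lit 0) true (nat_lit 11) true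 (nat_lit 15) true (nat_lit 3) true (nat_lit 13) true (nat_lit 6) (.s false (nat_lit 1) (nat_lit 18) (nat_lit 2) (nat_lit 11) (nat_lit 0) true (nat_lit 11) true (nat_lit 15) true (nat_lit 3) true (nat_lit 13) true (nat_lit 6) (.s false (nat_lit 3) (nat_lit 18) (nat_lit 4) (nat_lit 5) (nat_lit 0) true (nat_lit 7) true (nat_lit 15) true (nat_lit 3) true (nat_lit 11) true (nat_lit 10) (.s false (nat_lit 2) (nat_lit 18) (nat_lit 7) (nat_lit 2) (nat_lit 2) true (nat_lit 2) true (nat_lit 13) true (nat_lit 3) true (nat_lit 8) true (nat_lit 13) (.s true (nat_lit 2) (nat_lit 18) (nat_lit 9) (nat_lit 1) (nat_lit 2) true (nat_lit 1) true (nat_lit 13) true (nat_lit 3) true (nat_lit 7) true (nat_lit 14) (.s true (nat_lit 2) (nat_lit 18) (nat_lit 9) (nat_lit 2) (nat_lit 1) true (nat_lit 2) true (nat_lit 14) true (nat_lit 3) true (nat_lit 7) true (nat_lit 13) (.s false (nat_lit 1) (nat_lit 18) (nat_lit 10) (nat_lit 0) (nat_lit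 2) true (nat_lit 0) true (nat_lit 13) true (nat_lit 3) true (nat_lit 6) true (nat_lit 15) (.s true (nat_lit 1) (nat_lit 18) (nat_lit 15) (nat_lit 0) (nat_lit 1) true (nat_lit 0) true (nat_lit 14) true (nat_lit 3) true (nat_lit 5) true (nat_lit 15) (.s false (nat_lit 3) (nat_lit 18) (nat_lit 15) (nat_lit 1) (nat_lit 0) true (nat_lit 1) true (nat_lit 15) true (nat_lit 3) true (nat_lit 5) true (nat_lit 14) (.s true (nat_lit 1) (nat_lit 20) (nat_lit 2) (nat_lit 2) (nat_lit 6) true (nat_lit 3) true (nat_lit 9) true (nat_lit 2) true (nat_lit 13) true (nat_lit 13) (.s true (nat_lit 2) (nat_lit 21) (nat_lit 2) (nat_lit 2) (nat_lit 6) true (nat_lit 3) true (nat_lit 9) true (nat_lit 2) true (nat_lit 13) true (nat_lit 13) (.s false (nat_lit 1) (nat_lit 22) (nat_lit 2) (nat_lit 2) (nat_lit 6) true (nat_lit 3) true (nat_lit 9) true (nat_lit 2) true (nat_lit 13) true (nat_lit 13) (.s false (nat_lit 3) (nat_lit 23) (nat_lit 2)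 (nat_lit 2) (nat_lit 6) true (nat_lit 3) true (nat_lit 9) true (nat_lit 2) true (nat_lit 13) true (nat_lit 13) (.s false (nat_lit 2) (nat_lit 22) (nat_lit 2) (nat_lit 6) (nat_lit 2) true (nat_lit 9) true (nat_lit 13) true (nat_lit 2) true (nat_lit 13) true (nat_lit 9) (.s false (nat_lit 2) (nat_lit 21) (nat_lit 6) (nat_lit 2) (nat_lit 2) true (nat_lit 3) true (nat_lit 13) true (nat_lit 2) true (nat_lit 9) true (nat_lit 13) (.s false (nat_lit 2) (nat_lit 22) (nat_lit 6) (nat_lit 2) (nat_lit 2) true (nat_lit 3) true (nat_lit 13) true (nat_lit 2) true (nat_lit 9) true (nat_lit 13) (.s false (nat_lit 3) (nat_lit 29) (nat_lit 1) (nat_lit 2) (nat_lit 6) true (nat_lit 4) true (nat_lit 9) true (nat_lit 1) true (nat_lit 14) true (nat_lit 13) (.s true (nat_lit 1) (nat_lit 29) (nat_lit 2) (nat_lit 1) (nat_lit 6) true (nat_lit 3) true (nat_lit 9) true (nat_lit 1) true (nat_lit 13) true (nat_lit 14) (.s false (nat_lit 3) (nat_lit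 29) (nat_lit 2) (nat_lit 2) (nat_lit 5) true (nat_lit 4) true (nat_lit 10) true (nat_lit 1) true (nat_lit 13) true (nat_lit 13) (.s false (nat_lit 3) (nat_lit 28) (nat_lit 2) (nat_lit 5) (nat_lit 2) true (nat_lit 9) true (nat_lit 13) true (nat_lit 1) true (nat_lit 13) true (nat_lit 10) dC1d_i80)))))))))))))))))))))))))

noncomputable def dC1d_i82 : IL := (.e true (nat_lit 2) (nat_lit 354) (nat_lit 0) (nat_lit 15) (.e false (nat_lit 2) (nat_lit 298) (nat_lit 2) (nat_lit 13) (.e false (nat_lit 2) (nat_lit 302) (nat_lit 2) (nat_lit 13) (.e false (nat_lit 3) (nat_lit 316) (nat_lit 2) (nat_lit 13) (.e false (nat_lit 2) (nat_lit 82) (nat_lit 17) (nat_lit 4) (.e false (nat_lit 3) (nat_lit 328) (nat_lit 1) (nat_lit 14) (.e true (nat_lit 3) (nat_lit 329) (nat_lit 1) (nat_lit 14) (.e true (nat_lit 3) (nat_lit 330) (nat_lit 1) (nat_lit 14) (.e false (nat_lit 3) (nat_lit 332) (nat_lit 1) (nat_lit 14) (.e true (nat_lit 1) (nat_lit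 333) (nat_lit 1) (nat_lit 14) (.e true (nat_lit 3) (nat_lit 334) (nat_lit 1) (nat_lit 14) (.e true (nat_lit 2) (nat_lit 335) (nat_lit 1) (nat_lit 14) (.e true (nat_lit 1) (nat_lit 337) (nat_lit 1) (nat_lit 14) (.e true (nat_lit 1) (nat_lit 338) (nat_lit 1) (nat_lit 14) (.e false (nat_lit 3) (nat_lit 345) (nat_lit 1) (nat_lit 14) (.e false (nat_lit 1) (nat_lit 292) (nat_lit 2) (nat_lit 13) (.e true (nat_lit 2) (nat_lit 314) (nat_lit 2) (nat_lit 13) (.e false (nat_lit 3) (nat_lit 309) (nat_lit 2) (nat_lit 13) (.e false (nat_lit 2) (nat_lit 339) (nat_lit 1) (nat_lit 14) (.e true (nat_lit 1) (nat_lit 74) (nat_lit 18) (nat_lit 3) (.e true (nat_lit 2) (nat_lit 351) (nat_lit 0) (nat_lit 15) (.e true (nat_lit 2) (nat_lit 342) (nat_lit 1) (nat_lit 14) (.u (nat_lit 2) (.p (nat_lit 0) (nat_lit 1) (.p (nat_lit 1) (nat_lit 2) (.p (nat_lit 3) (nat_lit 2) (.n (nat_lit 4) (nat_lit 1) (.n (nat_lit 5) (nat_lit 4) (.p (nat_lit 6)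 (nat_lit 1) (.n (nat_lit 7) (nat_lit 1) (.n (nat_lit 8) (nat_lit 2) (.n (nat_lit 9) (nat_lit 2) (.p (nat_lit 10) (nat_lit 1) (.n (nat_lit 11) (nat_lit 2) (.n (nat_lit 12) (nat_lit 1) (.p (nat_lit 13) (nat_lit 4) (.p (nat_lit 14) (nat_lit 4) (.p (nat_lit 15) (nat_lit 1) (.n (nat_lit 16) (nat_lit 1) (.p (nat_lit 18) (nat_lit 2) (.n (nat_lit 20) (nat_lit 2) (.p (nat_lit 21) (nat_lit 1) (.n (nat_lit 22) (nat_lit 1) (.n (nat_lit 29) (nat_lit 1) (.p (nat_lit 30) (nat_lit 1) (.n (nat_lit 31) (nat_lit 1) (.p (nat_lit 32) (nat_lit 1) (.n (nat_lit 33) (nat_lit 1) (.n (nat_lit 43) (nat_lit 1) (.p (nat_lit 44) (nat_lit 1) (.p (nat_lit 45) (nat_lit 1) (.p (nat_lit 53) (nat_lit 1) (.p (nat_lit 54) (nat_lit 1) (.n (nat_lit 61) (nat_lit 1) (.p (nat_lit 74) (nat_lit 1) (.p (nat_lit 77) (nat_lit 1) (.n (nat_lit 79) (nat_lit 1) (.p (nat_lit 85) (nat_lit 1) (.n (nat_lit 87) (nat_lit 1) (.n (nat_lit 88) (nat_lit 1) (.p (nat_lit 100)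 (nat_lit 1) (.n (nat_lit 112) (nat_lit 1) (.p (nat_lit 113) (nat_lit 1) (.n (nat_lit 116) (nat_lit 1) (.p (nat_lit 117) (nat_lit 2) (.p (nat_lit 118) (nat_lit 1) (.p (nat_lit 125) (nat_lit 1) (.p (nat_lit 126) (nat_lit 1) (.n (nat_lit 127) (nat_lit 3) (.p (nat_lit 128) (nat_lit 1) (.n (nat_lit 129) (nat_lit 1) (.n (nat_lit 130) (nat_lit 2) (.n (nat_lit 131) (nat_lit 2) (.p (nat_lit 132) (nat_lit 3) (.p (nat_lit 133) (nat_lit 1) (.p (nat_lit 134) (nat_lit 3) (.p (nat_lit 135) (nat_lit 4) (.p (nat_lit 136) (nat_lit 1) (.p (nat_lit 138) (nat_lit 2) (.n (nat_lit 142) (nat_lit 1) (.p (nat_lit 143) (nat_lit 5) (.p (nat_lit 144) (nat_lit 1) (.n (nat_lit 145) (nat_lit 2) .z)))))))))))))))))))))))))))))))))))))))))))))))))))))))))))) (.u (nat_lit 2) (.p (nat_lit 146) (nat_lit 3) (.p (nat_lit 147) (nat_lit 3) (.n (nat_lit 149) (nat_lit 3) (.n (nat_lit 150) (nat_lit 3) (.n (nat_lit 151) (nat_lit 1) (.p (nat_lit 152) (nat_lit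 1) (.p (nat_lit 153) (nat_lit 1) (.p (nat_lit 155) (nat_lit 4) (.p (nat_lit 156) (nat_lit 3) (.p (nat_lit 159) (nat_lit 1) (.p (nat_lit 162) (nat_lit 2) (.p (nat_lit 163) (nat_lit 2) (.p (nat_lit 164) (nat_lit 1) (.p (nat_lit 169) (nat_lit 1) (.p (nat_lit 170) (nat_lit 1) (.n (nat_lit 173) (nat_lit 10) (.p (nat_lit 174) (nat_lit 7) (.n (nat_lit 175) (nat_lit 2) (.n (nat_lit 176) (nat_lit 6) (.p (nat_lit 177) (nat_lit 7) (.p (nat_lit 178) (nat_lit 2) (.p (nat_lit 179) (nat_lit 2) (.p (nat_lit 180) (nat_lit 1) (.p (nat_lit 181) (nat_lit 6) (.n (nat_lit 182) (nat_lit 5) (.n (nat_lit 183) (nat_lit 2) (.p (nat_lit 184) (nat_lit 4) (.n (nat_lit 185) (nat_lit 1) (.n (nat_lit 186) (nat_lit 2) (.n (nat_lit 187) (nat_lit 5) (.n (nat_lit 188) (nat_lit 8) (.p (nat_lit 189) (nat_lit 3) (.n (nat_lit 190) (nat_lit 7) (.p (nat_lit 191) (nat_lit 5) (.n (nat_lit 192) (nat_lit 2) (.n (nat_lit 193) (nat_lit 10) (.p (nat_lit 194) (nat_lit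 1) (.n (nat_lit 196) (nat_lit 2) (.p (nat_lit 197) (nat_lit 3) (.p (nat_lit 199) (nat_lit 1) (.n (nat_lit 200) (nat_lit 2) (.p (nat_lit 201) (nat_lit 1) (.n (nat_lit 202) (nat_lit 1) (.n (nat_lit 203) (nat_lit 2) (.p (nat_lit 204) (nat_lit 4) (.n (nat_lit 205) (nat_lit 2) (.n (nat_lit 206) (nat_lit 3) (.p (nat_lit 207) (nat_lit 1) (.p (nat_lit 209) (nat_lit 3) (.p (nat_lit 210) (nat_lit 1) (.p (nat_lit 211) (nat_lit 6) (.p (nat_lit 213) (nat_lit 1) (.n (nat_lit 214) (nat_lit 1) (.n (nat_lit 215) (nat_lit 2) (.p (nat_lit 216) (nat_lit 1) (.n (nat_lit 219) (nat_lit 1) (.p (nat_lit 221) (nat_lit 1) (.p (nat_lit 222) (nat_lit 3) (.n (nat_lit 223) (nat_lit 3) (.n (nat_lit 224) (nat_lit 2) .z)))))))))))))))))))))))))))))))))))))))))))))))))))))))))))) (.u (nat_lit 2) (.p (nat_lit 225) (nat_lit 1) (.n (nat_lit 227) (nat_lit 1) .z)) .nil)))))))))))))))))))))))))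

noncomputable def dC1d_i83 : IL := (.s false (nat_lit 3) (nat_lit 106) (nat_lit 1) (nat_lit 0) (nat_lit 1) false (nat_lit 16) true (nat_lit 14) false (nat_lit 8) true (nat_lit 14) true (nat_lit 15) (.e true (nat_lit 1) (nat_lit 161) (nat_lit 6) (nat_lit 9) (.e true (nat_lit 1) (nat_lit 185) (nat_lit 5) (nat_lit 10) (.e false (nat_lit 1) (nat_lit 183) (nat_lit 5) (nat_lit 10) (.e false (nat_lit 3) (nat_lit 186) (nat_lit 5) (nat_lit 10) (.e true (nat_lit 2) (nat_lit 187) (nat_lit 5) (nat_lit 10) (.e false (nat_lit 1) (nat_lit 191) (nat_lit 5) (nat_lit 10) (.e true (nat_lit 2) (nat_lit 193) (nat_lit 5) (nat_lit 10) (.e false (nat_lit 2) (nat_lit 172) (nat_lit 6) (nat_lit 9) (.e true (nat_lit 1) (nat_lit 290) (nat_lit 2) (nat_lit 13) (.e true (nat_lit 2) (nat_lit 291) (nat_lit 2) (nat_lit 13) (.e false (nat_lit 2) (nat_lit 301) (nat_lit 2) (nat_lit 13) (.e false (nat_lit 2) (nat_lit 307) (nat_lit 2) (nat_lit 13) (.e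 false (nat_lit 1) (nat_lit 308) (nat_lit 2) (nat_lit 13) (.e true (nat_lit 2) (nat_lit 310) (nat_lit 2) (nat_lit 13) (.e true (nat_lit 1) (nat_lit 312) (nat_lit 2) (nat_lit 13) (.e false (nat_lit 3) (nat_lit 317) (nat_lit 2) (nat_lit 13) (.e true (nat_lit 1) (nat_lit 318) (nat_lit 2) (nat_lit 13) (.e false (nat_lit 1) (nat_lit 336) (nat_lit 1) (nat_lit 14) (.e false (nat_lit 2) (nat_lit 340) (nat_lit 1) (nat_lit 14) (.e false (nat_lit 1) (nat_lit 347) (nat_lit 0) (nat_lit 15) (.e false (nat_lit 1) (nat_lit 348) (nat_lit 0) (nat_lit 15) (.e true (nat_lit 2) (nat_lit 349) (nat_lit 0) (nat_lit 15) (.e true (nat_lit 2) (nat_lit 350) (nat_lit 0) (nat_lit 15) (.e true (nat_lit 3) (nat_lit 352) (nat_lit 0) (nat_lit 15) dC1d_i82)))))))))))))))))))))))))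

noncomputable def dC1d_i84 : IL := (.s false (nat_lit 3) (nat_lit 90) (nat_lit 2) (nat_lit 1) (nat_lit 2) true (nat_lit 9) true (nat_lit 13) false (nat_lit 4) true (nat_lit 13) true (nat_lit 14) (.s true (nat_lit 2) (nat_lit 91) (nat_lit 2) (nat_lit 1) (nat_lit 2) true (nat_lit 9) true (nat_lit 13) false (nat_lit 4) true (nat_lit 13) true (nat_lit 14) (.s true (nat_lit 2) (nat_lit 83) (nat_lit 2) (nat_lit 2) (nat_lit 1) true (nat_lit 10) true (nat_lit 14) false (nat_lit 4) true (nat_lit 13) true (nat_lit 13) (.s false (nat_lit 3) (nat_lit 84) (nat_lit 2) (nat_lit 2) (nat_lit 1) true (nat_lit 10) true (nat_lit 14) false (nat_lit 4) true (nat_lit 13) true (nat_lit 13) (.s true (nat_lit 2) (nat_lit 85) (nat_lit 2) (nat_lit 2) (nat_lit 1) true (nat_lit 10) true (nat_lit 14) false (nat_lit 4) true (nat_lit 13) true (nat_lit 13) (.s false (nat_lit 3) (nat_lit 86) (nat_lit 2) (nat_lit 2) (nat_lit 1) true (nat_lit 10)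 true (nat_lit 14) false (nat_lit 4) true (nat_lit 13) true (nat_lit 13) (.s true (nat_lit 2) (nat_lit 87) (nat_lit 2) (nat_lit 2) (nat_lit 1) true (nat_lit 10) true (nat_lit 14) false (nat_lit 4) true (nat_lit 13) true (nat_lit 13) (.s false (nat_lit 3) (nat_lit 88) (nat_lit 2) (nat_lit 2) (nat_lit 1) true (nat_lit 10) true (nat_lit 14) false (nat_lit 4) true (nat_lit 13) true (nat_lit 13) (.s true (nat_lit 3) (nat_lit 89) (nat_lit 2) (nat_lit 2) (nat_lit 1) true (nat_lit 10) true (nat_lit 14) false (nat_lit 4) true (nat_lit 13) true (nat_lit 13) (.s true (nat_lit 3) (nat_lit 91) (nat_lit 2) (nat_lit 2) (nat_lit 1) true (nat_lit 10) true (nat_lit 14) false (nat_lit 4) true (nat_lit 13) true (nat_lit 13) (.s false (nat_lit 3) (nat_lit 92) (nat_lit 2) (nat_lit 2) (nat_lit 1) true (nat_lit 10) true (nat_lit 14) false (nat_lit 4) true (nat_lit 13) true (nat_lit 13) (.s false (nat_lit 2) (nat_lit 93) (nat_lit 0) (nat_lit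 2) (nat_lit 2) true (nat_lit 11) true (nat_lit 13) false (nat_lit 5) true (nat_lit 15) true (nat_lit 13) (.s false (nat_lit 1) (nat_lit 95) (nat_lit 0) (nat_lit 2) (nat_lit 2) true (nat_lit 11) true (nat_lit 13) false (nat_lit 5) true (nat_lit 15) true (nat_lit 13) (.s true (nat_lit 2) (nat_lit 96) (nat_lit 0) (nat_lit 2) (nat_lit 2) true (nat_lit 11) true (nat_lit 13) false (nat_lit 5) true (nat_lit 15) true (nat_lit 13) (.s false (nat_lit 2) (nat_lit 93) (nat_lit 2) (nat_lit 2) (nat_lit 0) true (nat_lit 11) true (nat_lit 15) false (nat_lit 5) true (nat_lit 13) true (nat_lit 13) (.s false (nat_lit 2) (nat_lit 94) (nat_lit 2) (nat_lit 2) (nat_lit 0) true (nat_lit 11) true (nat_lit 15) false (nat_lit 5) true (nat_lit 13) true (nat_lit 13) (.s true (nat_lit 2) (nat_lit 97) (nat_lit 2) (nat_lit 2) (nat_lit 0) true (nat_lit 11) true (nat_lit 15) false (nat_lit 5) true (nat_lit 13) true (nat_lit 13) (.s false (nat_lit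 1) (nat_lit 98) (nat_lit 1) (nat_lit 1) (nat_lit 2) true (nat_lit 10) true (nat_lit 13) false (nat_lit 6) true (nat_lit 14) true (nat_lit 14) (.s false (nat_lit 2) (nat_lit 99) (nat_lit 2) (nat_lit 1) (nat_lit 1) true (nat_lit 10) true (nat_lit 14) false (nat_lit 6) true (nat_lit 13) true (nat_lit 14) (.s true (nat_lit 2) (nat_lit 101) (nat_lit 2) (nat_lit 1) (nat_lit 1) true (nat_lit 10) true (nat_lit 14) false (nat_lit 6) true (nat_lit 13) true (nat_lit 14) (.s true (nat_lit 3) (nat_lit 105) (nat_lit 0) (nat_lit 1) (nat_lit 2) true (nat_lit 11) true (nat_lit 13) false (nat_lit 7) true (nat_lit 15) true (nat_lit 14) (.s false (nat_lit 1) (nat_lit 104) (nat_lit 0) (nat_lit 2) (nat_lit 1) true (nat_lit 12) true (nat_lit 14) false (nat_lit 7) true (nat_lit 15) true (nat_lit 13) (.s true (nat_lit 2) (nat_lit 103) (nat_lit 1) (nat_lit 2) (nat_lit 0) true (nat_lit 12) true (nat_lit 15) false (nat_lit 7) true (nat_lit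 14) true (nat_lit 13) (.s true (nat_lit 2) (nat_lit 104) (nat_lit 1) (nat_lit 2) (nat_lit 0) true (nat_lit 12) true (nat_lit 15) false (nat_lit 7) true (nat_lit 14) true (nat_lit 13) (.s true (nat_lit 2) (nat_lit 103) (nat_lit 2) (nat_lit 1) (nat_lit 0) true (nat_lit 11) true (nat_lit 15) false (nat_lit 7) true (nat_lit 13) true (nat_lit 14) dC1d_i83)))))))))))))))))))))))))

noncomputable def dC1d_i85 : IL := (.s false (nat_lit 2) (nat_lit 32) (nat_lit 5) (nat_lit 2) (nat_lit 2) true (nat_lit 4) true (nat_lit 13) true (nat_lit 1) true (nat_lit 10) true (nat_lit 13) (.s false (nat_lit 3) (nat_lit 33) (nat_lit 5) (nat_lit 2) (nat_lit 2) true (nat_lit 4) true (nat_lit 13) true (nat_lit 1) true (nat_lit 10) true (nat_lit 13) (.s true (nat_lit 2) (nat_lit 45) (nat_lit 1) (nat_lit 2) (nat_lit 4) true (nat_lit 7) true (nat_lit 11) false (nat_lit 1) true (nat_lit 14) true (nat_lit 13) (.s false (nat_lit 1) (nat_lit 44)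 (nat_lit 2) (nat_lit 3) (nat_lit 2) true (nat_lit 9) true (nat_lit 13) false (nat_lit 1) true (nat_lit 13) true (nat_lit 12) (.s false (nat_lit 3) (nat_lit 43) (nat_lit 2) (nat_lit 5) (nat_lit 0) true (nat_lit 11) true (nat_lit 15) false (nat_lit 1) true (nat_lit 13) true (nat_lit 10) (.s false (nat_lit 2) (nat_lit 43) (nat_lit 3) (nat_lit 2) (nat_lit 2) true (nat_lit 7) true (nat_lit 13) false (nat_lit 1) true (nat_lit 12) true (nat_lit 13) (.s true (nat_lit 3) (nat_lit 44) (nat_lit 3) (nat_lit 2) (nat_lit 2) true (nat_lit 7) true (nat_lit 13) false (nat_lit 1) true (nat_lit 12) true (nat_lit 13) (.s true (nat_lit 2) (nat_lit 45) (nat_lit 3) (nat_lit 2) (nat_lit 2) true (nat_lit 7) true (nat_lit 13) false (nat_lit 1) true (nat_lit 12) true (nat_lit 13) (.s false (nat_lit 3) (nat_lit 45) (nat_lit 4) (nat_lit 1) (nat_lit 2) true (nat_lit 5) true (nat_lit 13) false (nat_lit 1) true (nat_lit 11) true (nat_lit 14) (.s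 true (nat_lit 2) (nat_lit 43) (nat_lit 4) (nat_lit 2) (nat_lit 1) true (nat_lit 7) true (nat_lit 14) false (nat_lit 1) true (nat_lit 11) true (nat_lit 13) (.s false (nat_lit 2) (nat_lit 45) (nat_lit 5) (nat_lit 2) (nat_lit 0) true (nat_lit 7) true (nat_lit 15) false (nat_lit 1) true (nat_lit 10) true (nat_lit 13) (.s true (nat_lit 1) (nat_lit 46) (nat_lit 1) (nat_lit 4) (nat_lit 1) false (nat_lit 16) true (nat_lit 14) false (nat_lit 2) true (nat_lit 14) true (nat_lit 11) (.s true (nat_lit 2) (nat_lit 46) (nat_lit 1) (nat_lit 5) (nat_lit 0) true (nat_lit 12) true (nat_lit 15) false (nat_lit 2) true (nat_lit 14) true (nat_lit 10) (.s true (nat_lit 2) (nat_lit 46) (nat_lit 5) (nat_lit 0) (nat_lit 1) true (nat_lit 6) true (nat_lit 14) false (nat_lit 2) true (nat_lit 10) true (nat_lit 15) (.s false (nat_lit 1) (nat_lit 70) (nat_lit 2) (nat_lit 2) (nat_lit 2) true (nat_lit 9) true (nat_lit 13) false (nat_lit 3) true (nat_lit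 13) true (nat_lit 13) (.s true (nat_lit 1) (nat_lit 72) (nat_lit 2) (nat_lit 2) (nat_lit 2) true (nat_lit 9) true (nat_lit 13) false (nat_lit 3) true (nat_lit 13) true (nat_lit 13) (.s true (nat_lit 3) (nat_lit 75) (nat_lit 2) (nat_lit 2) (nat_lit 2) true (nat_lit 9) true (nat_lit 13) false (nat_lit 3) true (nat_lit 13) true (nat_lit 13) (.s true (nat_lit 1) (nat_lit 82) (nat_lit 1) (nat_lit 2) (nat_lit 2) true (nat_lit 10) true (nat_lit 13) false (nat_lit 4) true (nat_lit 14) true (nat_lit 13) (.s true (nat_lit 1) (nat_lit 85) (nat_lit 1) (nat_lit 2) (nat_lit 2) true (nat_lit 10) true (nat_lit 13) false (nat_lit 4) true (nat_lit 14) true (nat_lit 13) (.s false (nat_lit 1) (nat_lit 88) (nat_lit 1) (nat_lit 2) (nat_lit 2) true (nat_lit 10) true (nat_lit 13) false (nat_lit 4) true (nat_lit 14) true (nat_lit 13) (.s true (nat_lit 1) (nat_lit 89) (nat_lit 1) (nat_lit 2) (nat_lit 2) true (nat_lit 10) true (nat_lit 13)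 false (nat_lit 4) true (nat_lit 14) true (nat_lit 13) (.s false (nat_lit 3) (nat_lit 90) (nat_lit 1) (nat_lit 2) (nat_lit 2) true (nat_lit 10) true (nat_lit 13) false (nat_lit 4) true (nat_lit 14) true (nat_lit 13) (.s true (nat_lit 3) (nat_lit 82) (nat_lit 2) (nat_lit 1) (nat_lit 2) true (nat_lit 9) true (nat_lit 13) false (nat_lit 4) true (nat_lit 13) true (nat_lit 14) (.s true (nat_lit 2) (nat_lit 83) (nat_lit 2) (nat_lit 1) (nat_lit 2) true (nat_lit 9) true (nat_lit 13) false (nat_lit 4) true (nat_lit 13) true (nat_lit 14) (.s false (nat_lit 2) (nat_lit 85) (nat_lit 2) (nat_lit 1) (nat_lit 2) true (nat_lit 9) true (nat_lit 13) false (nat_lit 4) true (nat_lit 13) true (nat_lit 14) dC1d_i84)))))))))))))))))))))))))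

noncomputable def dC1d_i86 : IL := (.s false (nat_lit 1) (nat_lit 18) (nat_lit 1) (nat_lit 6) (nat_lit 3) true (nat_lit 8) true (nat_lit 12) true (nat_lit 3) true (nat_lit 14) true (nat_lit 9) (.s true (nat_lit 1) (nat_lit 18) (nat_lit 1) (nat_lit 14) (nat_lit 1) false (nat_lit 16) true (nat_lit 14) true (nat_lit 3) true (nat_lit 14) true (nat_lit 5) (.s true (nat_lit 2) (nat_lit 18) (nat_lit 2) (nat_lit 1) (nat_lit 10) true (nat_lit 1) true (nat_lit 7) true (nat_lit 3) true (nat_lit 13) true (nat_lit 14) (.s false (nat_lit 3) (nat_lit 18) (nat_lit 2) (nat_lit 2) (nat_lit 8) true (nat_lit 2) true (nat_lit 8) true (nat_lit 3) true (nat_lit 13) true (nat_lit 13) (.s true (nat_lit 2) (nat_lit 18) (nat_lit 2) (nat_lit 3) (nat_lit 5) true (nat_lit 4) true (nat_lit 10) true (nat_lit 3) true (nat_lit 13) true (nat_lit 12) (.s false (nat_lit 2) (nat_lit 18) (nat_lit 8) (nat_lit 2) (nat_lit 2) true (nat_lit 2) true (nat_lit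 13) true (nat_lit 3) true (nat_lit 8) true (nat_lit 13) (.s false (nat_lit 1) (nat_lit 18) (nat_lit 10) (nat_lit 2) (nat_lit 1) true (nat_lit 2) true (nat_lit 14) true (nat_lit 3) true (nat_lit 7) true (nat_lit 13) (.s true (nat_lit 3) (nat_lit 18) (nat_lit 14) (nat_lit 1) (nat_lit 1) true (nat_lit 1) true (nat_lit 14) true (nat_lit 3) true (nat_lit 5) true (nat_lit 14) (.s false (nat_lit 1) (nat_lit 26) (nat_lit 2) (nat_lit 2) (nat_lit 6) true (nat_lit 3) true (nat_lit 9) true (nat_lit 2) true (nat_lit 13) true (nat_lit 13) (.s true (nat_lit 1) (nat_lit 27) (nat_lit 2) (nat_lit 2) (nat_lit 6) true (nat_lit 3) true (nat_lit 9) true (nat_lit 2) true (nat_lit 13) true (nat_lit 13) (.s true (nat_lit 1) (nat_lit 26) (nat_lit 2) (nat_lit 6) (nat_lit 2) true (nat_lit 9) true (nat_lit 13) true (nat_lit 2) true (nat_lit 13) true (nat_lit 9) (.s false (nat_lit 1) (nat_lit 32) (nat_lit 1) (nat_lit 2) (nat_lit 6) true (nat_lit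 4) true (nat_lit 9) true (nat_lit 1) true (nat_lit 14) true (nat_lit 13) (.s false (nat_lit 1) (nat_lit 33) (nat_lit 1) (nat_lit 2) (nat_lit 6) true (nat_lit 4) true (nat_lit 9) true (nat_lit 1) true (nat_lit 14) true (nat_lit 13) (.s false (nat_lit 2) (nat_lit 36) (nat_lit 1) (nat_lit 2) (nat_lit 6) true (nat_lit 4) true (nat_lit 9) true (nat_lit 1) true (nat_lit 14) true (nat_lit 13) (.s false (nat_lit 1) (nat_lit 31) (nat_lit 1) (nat_lit 6) (nat_lit 2) true (nat_lit 10) true (nat_lit 13) true (nat_lit 1) true (nat_lit 14) true (nat_lit 9) (.s false (nat_lit 2) (nat_lit 32) (nat_lit 1) (nat_lit 6) (nat_lit 2) true (nat_lit 10) true (nat_lit 13) true (nat_lit 1) true (nat_lit 14) true (nat_lit 9) (.s true (nat_lit 1) (nat_lit 31) (nat_lit 2) (nat_lit 1) (nat_lit 6) true (nat_lit 3) true (nat_lit 9) true (nat_lit 1) true (nat_lit 13) true (nat_lit 14) (.s false (nat_lit 1) (nat_lit 34) (nat_lit 2) (nat_lit 1) (nat_lit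 6) true (nat_lit 3) true (nat_lit 9) true (nat_lit 1) true (nat_lit 13) true (nat_lit 14) (.s false (nat_lit 1) (nat_lit 31) (nat_lit 2) (nat_lit 2) (nat_lit 5) true (nat_lit 4) true (nat_lit 10) true (nat_lit 1) true (nat_lit 13) true (nat_lit 13) (.s false (nat_lit 1) (nat_lit 32) (nat_lit 2) (nat_lit 2) (nat_lit 5) true (nat_lit 4) true (nat_lit 10) true (nat_lit 1) true (nat_lit 13) true (nat_lit 13) (.s false (nat_lit 2) (nat_lit 33) (nat_lit 2) (nat_lit 2) (nat_lit 5) true (nat_lit 4) true (nat_lit 10) true (nat_lit 1) true (nat_lit 13) true (nat_lit 13) (.s true (nat_lit 3) (nat_lit 34) (nat_lit 2) (nat_lit 2) (nat_lit 5) true (nat_lit 4) true (nat_lit 10) true (nat_lit 1) true (nat_lit 13) true (nat_lit 13) (.s true (nat_lit 3) (nat_lit 35) (nat_lit 2) (nat_lit 2) (nat_lit 5) true (nat_lit 4) true (nat_lit 10) true (nat_lit 1) true (nat_lit 13) true (nat_lit 13) (.s false (nat_lit 1) (nat_lit 36) (nat_lit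 2) (nat_lit 2) (nat_lit 5) true (nat_lit 4) true (nat_lit 10) true (nat_lit 1) true (nat_lit 13) true (nat_lit 13) (.s true (nat_lit 3) (nat_lit 31) (nat_lit 5) (nat_lit 2) (nat_lit 2) true (nat_lit 4) true (nat_lit 13) true (nat_lit 1) true (nat_lit 10) true (nat_lit 13) dC1d_i85)))))))))))))))))))))))))

noncomputable def dC1d_i87 : IL := (.e false (nat_lit 1) (nat_lit 141) (nat_lit 2) (nat_lit 10) (.e true (nat_lit 1) (nat_lit 142) (nat_lit 2) (nat_lit 10) (.e true (nat_lit 3) (nat_lit 143) (nat_lit 2) (nat_lit 10) (.e true (nat_lit 2) (nat_lit 152) (nat_lit 2) (nat_lit 10) (.e true (nat_lit 3) (nat_lit 150) (nat_lit 2) (nat_lit 10) (.e true (nat_lit 1) (nat_lit 28) (nat_lit 17) (nat_lit 1) (.e false (nat_lit 1) (nat_lit 174) (nat_lit 1) (nat_lit 11) (.e false (nat_lit 1) (nat_lit 187) (nat_lit 0) (nat_lit 12) (.e false (nat_lit 2) (nat_lit 180) (nat_lit 0) (nat_lit 12) (.e false (nat_lit 3) (nat_lit 181) (nat_lit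 0) (nat_lit 12) (.e false (nat_lit 2) (nat_lit 182) (nat_lit 0) (nat_lit 12) (.e false (nat_lit 1) (nat_lit 183) (nat_lit 0) (nat_lit 12) (.e true (nat_lit 3) (nat_lit 184) (nat_lit 0) (nat_lit 12) (.e true (nat_lit 3) (nat_lit 185) (nat_lit 0) (nat_lit 12) (.e false (nat_lit 1) (nat_lit 195) (nat_lit 0) (nat_lit 12) (.e true (nat_lit 3) (nat_lit 135) (nat_lit 2) (nat_lit 10) (.e false (nat_lit 2) (nat_lit 144) (nat_lit 2) (nat_lit 10) (.e true (nat_lit 2) (nat_lit 146) (nat_lit 2) (nat_lit 10) (.e false (nat_lit 2) (nat_lit 147) (nat_lit 2) (nat_lit 10) (.e true (nat_lit 2) (nat_lit 148) (nat_lit 2) (nat_lit 10) (.e false (nat_lit 2) (nat_lit 149) (nat_lit 2) (nat_lit 10) (.e false (nat_lit 3) (nat_lit 151) (nat_lit 2) (nat_lit 10) (.e false (nat_lit 1) (nat_lit 188) (nat_lit 0) (nat_lit 12) (.e true (nat_lit 1) (nat_lit 193) (nat_lit 0) (nat_lit 12) (.u (nat_lit 2) (.n (nat_lit 0) (nat_lit 2) (.p (nat_lit 2) (nat_lit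 2) (.n (nat_lit 4) (nat_lit 1) (.n (nat_lit 5) (nat_lit 1) (.p (nat_lit 6) (nat_lit 1) (.n (nat_lit 7) (nat_lit 2) (.p (nat_lit 8) (nat_lit 2) (.n (nat_lit 10) (nat_lit 1) (.n (nat_lit 11) (nat_lit 1) (.p (nat_lit 12) (nat_lit 2) (.n (nat_lit 14) (nat_lit 2) (.n (nat_lit 17) (nat_lit 1) (.n (nat_lit 18) (nat_lit 2) (.p (nat_lit 19) (nat_lit 1) (.n (nat_lit 20) (nat_lit 2) (.p (nat_lit 23) (nat_lit 1) (.n (nat_lit 25) (nat_lit 1) (.n (nat_lit 28) (nat_lit 1) (.p (nat_lit 96) (nat_lit 2) (.p (nat_lit 98) (nat_lit 1) (.p (nat_lit 99) (nat_lit 2) (.p (nat_lit 100) (nat_lit 1) (.n (nat_lit 102) (nat_lit 2) (.p (nat_lit 103) (nat_lit 1) (.n (nat_lit 104) (nat_lit 2) (.p (nat_lit 105) (nat_lit 1) (.n (nat_lit 106) (nat_lit 3) (.p (nat_lit 107) (nat_lit 1) (.n (nat_lit 109) (nat_lit 1) (.p (nat_lit 114) (nat_lit 1) (.n (nat_lit 115) (nat_lit 1) (.n (nat_lit 123) (nat_lit 1) (.n (nat_lit 124) (nat_lit 1) (.n (nat_lit 126)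 (nat_lit 1) (.p (nat_lit 127) (nat_lit 1) (.p (nat_lit 128) (nat_lit 1) .z)))))))))))))))))))))))))))))))))))) .nil)))))))))))))))))))))))))

noncomputable def dC1d_i88 : IL := (.e false (nat_lit 3) (nat_lit 70) (nat_lit 6) (nat_lit 6) (.e true (nat_lit 3) (nat_lit 75) (nat_lit 6) (nat_lit 6) (.e false (nat_lit 1) (nat_lit 188) (nat_lit 1) (nat_lit 11) (.e true (nat_lit 2) (nat_lit 67) (nat_lit 6) (nat_lit 6) (.e true (nat_lit 2) (nat_lit 74) (nat_lit 6) (nat_lit 6) (.e false (nat_lit 2) (nat_lit 44) (nat_lit 10) (nat_lit 4) (.e false (nat_lit 2) (nat_lit 45) (nat_lit 10) (nat_lit 4) (.e true (nat_lit 2) (nat_lit 105) (nat_lit 3) (nat_lit 9) (.e true (nat_lit 3) (nat_lit 90) (nat_lit 5) (nat_lit 7) (.e true (nat_lit 3) (nat_lit 167) (nat_lit 2) (nat_lit 10) (.e true (nat_lit 2) (nat_lit 172) (nat_lit 2) (nat_lit 10) (.e false (nat_lit 2) (nat_lit 26) (nat_lit 18) (nat_lit 0) (.e true (nat_lit 3) (nat_lit 169) (nat_lit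 2) (nat_lit 10) (.e true (nat_lit 3) (nat_lit 40) (nat_lit 13) (nat_lit 3) (.e true (nat_lit 3) (nat_lit 180) (nat_lit 1) (nat_lit 11) (.e false (nat_lit 2) (nat_lit 181) (nat_lit 1) (nat_lit 11) (.e false (nat_lit 3) (nat_lit 195) (nat_lit 1) (nat_lit 11) (.e true (nat_lit 3) (nat_lit 186) (nat_lit 1) (nat_lit 11) (.e false (nat_lit 3) (nat_lit 46) (nat_lit 8) (nat_lit 5) (.e true (nat_lit 1) (nat_lit 24) (nat_lit 18) (nat_lit 0) (.e true (nat_lit 1) (nat_lit 192) (nat_lit 1) (nat_lit 11) (.e true (nat_lit 1) (nat_lit 25) (nat_lit 18) (nat_lit 0) (.e false (nat_lit 3) (nat_lit 43) (nat_lit 10) (nat_lit 4) (.u (nat_lit 2) (.n (nat_lit 1) (nat_lit 2) (.p (nat_lit 4) (nat_lit 2) (.p (nat_lit 5) (nat_lit 1) (.n (nat_lit 9) (nat_lit 6) (.n (nat_lit 10) (nat_lit 1) (.n (nat_lit 11) (nat_lit 3) (.n (nat_lit 13) (nat_lit 1) (.n (nat_lit 14) (nat_lit 2) (.p (nat_lit 15) (nat_lit 1) (.p (nat_lit 17) (nat_lit 1) (.p (nat_lit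 18) (nat_lit 4) (.n (nat_lit 19) (nat_lit 1) (.n (nat_lit 21) (nat_lit 1) (.n (nat_lit 27) (nat_lit 1) (.n (nat_lit 29) (nat_lit 1) (.p (nat_lit 39) (nat_lit 1) (.p (nat_lit 62) (nat_lit 1) (.n (nat_lit 64) (nat_lit 1) (.p (nat_lit 66) (nat_lit 1) (.p (nat_lit 67) (nat_lit 1) (.n (nat_lit 70) (nat_lit 1) (.p (nat_lit 74) (nat_lit 1) (.n (nat_lit 76) (nat_lit 1) (.n (nat_lit 77) (nat_lit 1) (.p (nat_lit 80) (nat_lit 1) (.n (nat_lit 81) (nat_lit 1) (.n (nat_lit 88) (nat_lit 1) (.n (nat_lit 90) (nat_lit 1) (.p (nat_lit 91) (nat_lit 1) (.p (nat_lit 95) (nat_lit 1) (.p (nat_lit 97) (nat_lit 2) (.p (nat_lit 98) (nat_lit 1) (.n (nat_lit 99) (nat_lit 2) (.p (nat_lit 100) (nat_lit 1) (.n (nat_lit 101) (nat_lit 3) (.p (nat_lit 102) (nat_lit 4) (.n (nat_lit 103) (nat_lit 6) (.p (nat_lit 104) (nat_lit 3) (.p (nat_lit 105) (nat_lit 1) (.n (nat_lit 106) (nat_lit 3) (.n (nat_lit 107) (nat_lit 2) (.n (nat_lit 108) (nat_lit 1) (.p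 (nat_lit 109) (nat_lit 1) (.p (nat_lit 110) (nat_lit 2) (.n (nat_lit 111) (nat_lit 1) (.n (nat_lit 112) (nat_lit 2) (.n (nat_lit 113) (nat_lit 5) (.n (nat_lit 114) (nat_lit 6) (.p (nat_lit 115) (nat_lit 4) (.n (nat_lit 116) (nat_lit 1) (.p (nat_lit 119) (nat_lit 1) (.n (nat_lit 120) (nat_lit 3) (.p (nat_lit 121) (nat_lit 3) (.p (nat_lit 122) (nat_lit 2) (.p (nat_lit 123) (nat_lit 1) (.p (nat_lit 124) (nat_lit 3) (.p (nat_lit 125) (nat_lit 1) (.p (nat_lit 126) (nat_lit 3) (.n (nat_lit 129) (nat_lit 1) (.p (nat_lit 131) (nat_lit 1) .z)))))))))))))))))))))))))))))))))))))))))))))))))))))))))))) (.u (nat_lit 2) (.n (nat_lit 133) (nat_lit 1) (.p (nat_lit 135) (nat_lit 1) (.p (nat_lit 136) (nat_lit 1) (.p (nat_lit 137) (nat_lit 1) (.p (nat_lit 138) (nat_lit 2) .z))))) .nil)))))))))))))))))))))))))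

noncomputable def dC1d_i89 : IL := (.s true (nat_lit 1) (nat_lit 44) (nat_lit 0) (nat_lit 1) (nat_lit 2) true (nat_lit 8) true (nat_lit 10) false (nat_lit 4) true (nat_lit 12) true (nat_lit 11) (.s false (nat_lit 1) (nat_lit 43) (nat_lit 0) (nat_lit 2) (nat_lit 1) true (nat_lit 9) true (nat_lit 11) false (nat_lit 4) true (nat_lit 12) true (nat_lit 10) (.s true (nat_lit 3) (nat_lit 43) (nat_lit 1) (nat_lit 0) (nat_lit 2) true (nat_lit 7) true (nat_lit 10) false (nat_lit 4) true (nat_lit 11) true (nat_lit 12) (.s true (nat_lit 3) (nat_lit 44) (nat_lit 2) (nat_lit 1) (nat_lit 0) true (nat_lit 8) true (nat_lit 12) false (nat_lit 4) true (nat_lit 10) true (nat_lit 11) (.s true (nat_lit 1) (nat_lit 46) (nat_lit 0) (nat_lit 1) (nat_lit 1) true (nat_lit 9) true (nat_lit 11) false (nat_lit 5) true (nat_lit 12) true (nat_lit 11) (.s false (nat_lit 2) (nat_lit 46) (nat_lit 1) (nat_lit 0) (nat_lit 1) false (nat_lit 13) true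 (nat_lit 11) false (nat_lit 5) true (nat_lit 11) true (nat_lit 12) (.e false (nat_lit 3) (nat_lit 31) (nat_lit 16) (nat_lit 1) (.e false (nat_lit 1) (nat_lit 82) (nat_lit 5) (nat_lit 7) (.e false (nat_lit 3) (nat_lit 153) (nat_lit 2) (nat_lit 10) (.e false (nat_lit 3) (nat_lit 154) (nat_lit 2) (nat_lit 10) (.e true (nat_lit 2) (nat_lit 156) (nat_lit 2) (nat_lit 10) (.e false (nat_lit 1) (nat_lit 157) (nat_lit 2) (nat_lit 10) (.e false (nat_lit 1) (nat_lit 158) (nat_lit 2) (nat_lit 10) (.e true (nat_lit 3) (nat_lit 159) (nat_lit 2) (nat_lit 10) (.e true (nat_lit 2) (nat_lit 162) (nat_lit 2) (nat_lit 10) (.e true (nat_lit 1) (nat_lit 163) (nat_lit 2) (nat_lit 10) (.e false (nat_lit 1) (nat_lit 170) (nat_lit 2) (nat_lit 10) (.e true (nat_lit 2) (nat_lit 171) (nat_lit 2) (nat_lit 10) (.e false (nat_lit 2) (nat_lit 173) (nat_lit 2) (nat_lit 10) (.e true (nat_lit 2) (nat_lit 155) (nat_lit 2) (nat_lit 10) (.e true (nat_lit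 1) (nat_lit 166) (nat_lit 2) (nat_lit 10) (.e true (nat_lit 1) (nat_lit 161) (nat_lit 2) (nat_lit 10) (.e true (nat_lit 3) (nat_lit 164) (nat_lit 2) (nat_lit 10) (.e true (nat_lit 3) (nat_lit 66) (nat_lit 6) (nat_lit 6) (.e true (nat_lit 2) (nat_lit 68) (nat_lit 6) (nat_lit 6) dC1d_i88)))))))))))))))))))))))))

noncomputable def dC1d_i90 : IL := (.s false (nat_lit 3) (nat_lit 13) (nat_lit 2) (nat_lit 4) (nat_lit 2) true (nat_lit 6) true (nat_lit 10) true (nat_lit 3) true (nat_lit 10) true (nat_lit 8) (.s false (nat_lit 1) (nat_lit 14) (nat_lit 1) (nat_lit 1) (nat_lit 6) true (nat_lit 1) true (nat_lit 6) true (nat_lit 2) true (nat_lit 11) true (nat_lit 11) (.s false (nat_lit 1) (nat_lit 16) (nat_lit 0) (nat_lit 5) (nat_lit 2) true (nat_lit 8) true (nat_lit 10) true (nat_lit 1) true (nat_lit 12) true (nat_lit 7) (.s true (nat_lit 2) (nat_lit 17) (nat_lit 1) (nat_lit 4) (nat_lit 2) true (nat_lit 7) true (nat_lit 10)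 true (nat_lit 1) true (nat_lit 11) true (nat_lit 8) (.s true (nat_lit 1) (nat_lit 16) (nat_lit 2) (nat_lit 3) (nat_lit 2) true (nat_lit 6) true (nat_lit 10) true (nat_lit 1) true (nat_lit 10) true (nat_lit 9) (.s false (nat_lit 2) (nat_lit 16) (nat_lit 2) (nat_lit 5) (nat_lit 0) true (nat_lit 8) true (nat_lit 12) true (nat_lit 1) true (nat_lit 10) true (nat_lit 7) (.s false (nat_lit 2) (nat_lit 16) (nat_lit 4) (nat_lit 2) (nat_lit 1) true (nat_lit 4) true (nat_lit 11) true (nat_lit 1) true (nat_lit 8) true (nat_lit 10) (.s true (nat_lit 1) (nat_lit 18) (nat_lit 1) (nat_lit 2) (nat_lit 3) true (nat_lit 5) true (nat_lit 9) true (nat_lit 0) true (nat_lit 11) true (nat_lit 10) (.s false (nat_lit 1) (nat_lit 18) (nat_lit 3) (nat_lit 1) (nat_lit 2) true (nat_lit 4) true (nat_lit 10) true (nat_lit 0) true (nat_lit 9) true (nat_lit 11) (.s true (nat_lit 1) (nat_lit 18) (nat_lit 5) (nat_lit 1) (nat_lit 0) true (nat_lit 4)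 true (nat_lit 12) true (nat_lit 0) true (nat_lit 7) true (nat_lit 11) (.s true (nat_lit 1) (nat_lit 32) (nat_lit 1) (nat_lit 2) (nat_lit 2) true (nat_lit 7) true (nat_lit 10) false (nat_lit 1) true (nat_lit 11) true (nat_lit 10) (.s true (nat_lit 2) (nat_lit 33) (nat_lit 1) (nat_lit 2) (nat_lit 2) true (nat_lit 7) true (nat_lit 10) false (nat_lit 1) true (nat_lit 11) true (nat_lit 10) (.s false (nat_lit 2) (nat_lit 35) (nat_lit 1) (nat_lit 2) (nat_lit 2) true (nat_lit 7) true (nat_lit 10) false (nat_lit 1) true (nat_lit 11) true (nat_lit 10) (.s false (nat_lit 2) (nat_lit 36) (nat_lit 1) (nat_lit 2) (nat_lit 2) true (nat_lit 7) true (nat_lit 10) false (nat_lit 1) true (nat_lit 11) true (nat_lit 10) (.s false (nat_lit 3) (nat_lit 32) (nat_lit 2) (nat_lit 1) (nat_lit 2) true (nat_lit 6) true (nat_lit 10) false (nat_lit 1) true (nat_lit 10) true (nat_lit 11) (.s false (nat_lit 2) (nat_lit 34) (nat_lit 2) (nat_lit 1)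 (nat_lit 2) true (nat_lit 6) true (nat_lit 10) false (nat_lit 1) true (nat_lit 10) true (nat_lit 11) (.s true (nat_lit 1) (nat_lit 36) (nat_lit 2) (nat_lit 1) (nat_lit 2) true (nat_lit 6) true (nat_lit 10) false (nat_lit 1) true (nat_lit 10) true (nat_lit 11) (.s false (nat_lit 2) (nat_lit 32) (nat_lit 2) (nat_lit 2) (nat_lit 1) true (nat_lit 7) true (nat_lit 11) false (nat_lit 1) true (nat_lit 10) true (nat_lit 10) (.s false (nat_lit 2) (nat_lit 33) (nat_lit 2) (nat_lit 2) (nat_lit 1) true (nat_lit 7) true (nat_lit 11) false (nat_lit 1) true (nat_lit 10) true (nat_lit 10) (.s false (nat_lit 1) (nat_lit 34) (nat_lit 2) (nat_lit 2) (nat_lit 1) true (nat_lit 7) true (nat_lit 11) false (nat_lit 1) true (nat_lit 10) true (nat_lit 10) (.s false (nat_lit 3) (nat_lit 37) (nat_lit 2) (nat_lit 0) (nat_lit 2) true (nat_lit 6) true (nat_lit 10) false (nat_lit 2) true (nat_lit 10) true (nat_lit 12) (.s true (nat_lit 3) (nat_lit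 42) (nat_lit 1) (nat_lit 1) (nat_lit 2) true (nat_lit 7) true (nat_lit 10) false (nat_lit 3) true (nat_lit 11) true (nat_lit 11) (.s true (nat_lit 1) (nat_lit 41) (nat_lit 1) (nat_lit 2) (nat_lit 1) false (nat_lit 13) true (nat_lit 11) false (nat_lit 3) true (nat_lit 11) true (nat_lit 10) (.s true (nat_lit 3) (nat_lit 42) (nat_lit 1) (nat_lit 2) (nat_lit 1) false (nat_lit 13) true (nat_lit 11) false (nat_lit 3) true (nat_lit 11) true (nat_lit 10) (.s false (nat_lit 2) (nat_lit 41) (nat_lit 2) (nat_lit 1) (nat_lit 1) true (nat_lit 7) true (nat_lit 11) false (nat_lit 3) true (nat_lit 10) true (nat_lit 11) dC1d_i89)))))))))))))))))))))))))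

noncomputable def dC1d_i91 : IL := (.e false (nat_lit 2) (nat_lit 304) (nat_lit 0) (nat_lit 19) (.e true (nat_lit 1) (nat_lit 305) (nat_lit 0) (nat_lit 19) (.e true (nat_lit 2) (nat_lit 307) (nat_lit 0) (nat_lit 19) (.e false (nat_lit 2) (nat_lit 308) (nat_lit 0) (nat_lit 19) (.e false (nat_lit 1) (nat_lit 310) (nat_lit 0) (nat_lit 19) (.e false (nat_lit 2) (nat_lit 312) (nat_lit 0) (nat_lit 19) (.e true (nat_lit 2) (nat_lit 317) (nat_lit 0) (nat_lit 19) (.e false (nat_lit 1) (nat_lit 318) (nat_lit 0) (nat_lit 19) (.e true (nat_lit 2) (nat_lit 319) (nat_lit 0) (nat_lit 19) (.e true (nat_lit 2) (nat_lit 212) (nat_lit 2) (nat_lit 17) (.e true (nat_lit 3) (nat_lit 213) (nat_lit 2) (nat_lit 17) (.e false (nat_lit 3) (nat_lit 214) (nat_lit 2) (nat_lit 17) (.e false (nat_lit 2) (nat_lit 216) (nat_lit 2) (nat_lit 17) (.e false (nat_lit 3) (nat_lit 218) (nat_lit 2) (nat_lit 17) (.e true (nat_lit 3) (nat_lit 219) (nat_lit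 2) (nat_lit 17) (.e true (nat_lit 2) (nat_lit 220) (nat_lit 2) (nat_lit 17) (.e true (nat_lit 3) (nat_lit 222) (nat_lit 2) (nat_lit 17) (.e false (nat_lit 3) (nat_lit 227) (nat_lit 2) (nat_lit 17) (.e true (nat_lit 2) (nat_lit 229) (nat_lit 2) (nat_lit 17) (.e true (nat_lit 3) (nat_lit 217) (nat_lit 2) (nat_lit 17) (.e true (nat_lit 3) (nat_lit 221) (nat_lit 2) (nat_lit 17) (.e true (nat_lit 1) (nat_lit 223) (nat_lit 2) (nat_lit 17) (.e false (nat_lit 3) (nat_lit 224) (nat_lit 2) (nat_lit 17) (.e false (nat_lit 3) (nat_lit 231) (nat_lit 2) (nat_lit 17) (.u (nat_lit 2) (.p (nat_lit 1) (nat_lit 2) (.p (nat_lit 2) (nat_lit 2) (.p (nat_lit 3) (nat_lit 3) (.n (nat_lit 4) (nat_lit 3) (.p (nat_lit 5) (nat_lit 2) (.p (nat_lit 6) (nat_lit 1) (.n (nat_lit 7) (nat_lit 1) (.n (nat_lit 8) (nat_lit 6) (.n (nat_lit 9) (nat_lit 1) (.n (nat_lit 10) (nat_lit 2) (.n (nat_lit 11) (nat_lit 2) (.p (nat_lit 12) (nat_lit 1) (.p (nat_lit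 14) (nat_lit 1) (.p (nat_lit 15) (nat_lit 4) (.p (nat_lit 17) (nat_lit 2) (.p (nat_lit 18) (nat_lit 2) (.p (nat_lit 19) (nat_lit 1) (.n (nat_lit 20) (nat_lit 4) (.n (nat_lit 26) (nat_lit 6) (.p (nat_lit 27) (nat_lit 1) (.n (nat_lit 28) (nat_lit 2) (.p (nat_lit 30) (nat_lit 1) (.p (nat_lit 32) (nat_lit 2) (.n (nat_lit 33) (nat_lit 1) (.p (nat_lit 34) (nat_lit 2) (.p (nat_lit 35) (nat_lit 1) (.n (nat_lit 36) (nat_lit 2) (.n (nat_lit 37) (nat_lit 1) (.p (nat_lit 38) (nat_lit 1) (.n (nat_lit 39) (nat_lit 5) (.p (nat_lit 40) (nat_lit 2) (.p (nat_lit 41) (nat_lit 3) (.p (nat_lit 49) (nat_lit 1) (.n (nat_lit 50) (nat_lit 1) (.p (nat_lit 51) (nat_lit 1) (.n (nat_lit 52) (nat_lit 1) (.n (nat_lit 53) (nat_lit 1) (.p (nat_lit 54) (nat_lit 2) (.n (nat_lit 55) (nat_lit 2) (.p (nat_lit 56) (nat_lit 1) (.p (nat_lit 57) (nat_lit 1) (.n (nat_lit 327) (nat_lit 1) (.n (nat_lit 329) (nat_lit 1) (.n (nat_lit 331) (nat_lit 1) (.p (nat_lit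 332) (nat_lit 1) (.n (nat_lit 335) (nat_lit 1) (.p (nat_lit 336) (nat_lit 1) (.p (nat_lit 337) (nat_lit 1) (.p (nat_lit 338) (nat_lit 1) (.n (nat_lit 339) (nat_lit 1) (.p (nat_lit 341) (nat_lit 1) .z))))))))))))))))))))))))))))))))))))))))))))))))))) .nil)))))))))))))))))))))))))

noncomputable def dC1d_i92 : IL := (.e true (nat_lit 1) (nat_lit 261) (nat_lit 1) (nat_lit 18) (.e false (nat_lit 1) (nat_lit 262) (nat_lit 1) (nat_lit 18) (.e false (nat_lit 3) (nat_lit 263) (nat_lit 1) (nat_lit 18) (.e true (nat_lit 2) (nat_lit 264) (nat_lit 1) (nat_lit 18) (.e false (nat_lit 3) (nat_lit 265) (nat_lit 1) (nat_lit 18) (.e false (nat_lit 3) (nat_lit 266) (nat_lit 1) (nat_lit 18) (.e false (nat_lit 3) (nat_lit 268) (nat_lit 1) (nat_lit 18) (.e false (nat_lit 2) (nat_lit 270) (nat_lit 1) (nat_lit 18) (.e true (nat_lit 2) (nat_lit 272) (nat_lit 1) (nat_lit 18) (.e false (nat_lit 1) (nat_lit 273) (nat_lit 1) (nat_lit 18) (.e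 false (nat_lit 2) (nat_lit 275) (nat_lit 1) (nat_lit 18) (.e true (nat_lit 2) (nat_lit 276) (nat_lit 1) (nat_lit 18) (.e false (nat_lit 2) (nat_lit 277) (nat_lit 1) (nat_lit 18) (.e false (nat_lit 1) (nat_lit 278) (nat_lit 1) (nat_lit 18) (.e true (nat_lit 3) (nat_lit 279) (nat_lit 1) (nat_lit 18) (.e true (nat_lit 1) (nat_lit 92) (nat_lit 11) (nat_lit 9) (.e true (nat_lit 3) (nat_lit 290) (nat_lit 0) (nat_lit 19) (.e true (nat_lit 1) (nat_lit 291) (nat_lit 0) (nat_lit 19) (.e true (nat_lit 1) (nat_lit 293) (nat_lit 0) (nat_lit 19) (.e true (nat_lit 1) (nat_lit 295) (nat_lit 0) (nat_lit 19) (.e false (nat_lit 2) (nat_lit 296) (nat_lit 0) (nat_lit 19) (.e true (nat_lit 2) (nat_lit 297) (nat_lit 0) (nat_lit 19) (.e false (nat_lit 2) (nat_lit 299) (nat_lit 0) (nat_lit 19) (.e true (nat_lit 3) (nat_lit 300) (nat_lit 0) (nat_lit 19) (.e false (nat_lit 1) (nat_lit 301) (nat_lit 0) (nat_lit 19) dC1d_i91)))))))))))))))))))))))))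

noncomputable def dC1d_i93 : IL := (.e true (nat_lit 2) (nat_lit 262) (nat_lit 2) (nat_lit 13) (.e true (nat_lit 3) (nat_lit 263) (nat_lit 2) (nat_lit 13) (.e false (nat_lit 3) (nat_lit 264) (nat_lit 2) (nat_lit 13) (.e false (nat_lit 2) (nat_lit 265) (nat_lit 2) (nat_lit 13) (.e false (nat_lit 2) (nat_lit 266) (nat_lit 2) (nat_lit 13) (.e false (nat_lit 3) (nat_lit 267) (nat_lit 2) (nat_lit 13) (.e false (nat_lit 3) (nat_lit 268) (nat_lit 2) (nat_lit 13) (.e true (nat_lit 2) (nat_lit 269) (nat_lit 2) (nat_lit 13) (.e false (nat_lit 3) (nat_lit 271) (nat_lit 2) (nat_lit 13) (.e true (nat_lit 3) (nat_lit 272) (nat_lit 2) (nat_lit 13) (.e false (nat_lit 2) (nat_lit 273) (nat_lit 2) (nat_lit 13) (.e true (nat_lit 2) (nat_lit 274) (nat_lit 2) (nat_lit 13) (.e true (nat_lit 3) (nat_lit 277) (nat_lit 2) (nat_lit 13) (.e true (nat_lit 3) (nat_lit 278) (nat_lit 2) (nat_lit 13) (.e true (nat_lit 2) (nat_lit 279) (nat_lit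 2) (nat_lit 13) (.e true (nat_lit 2) (nat_lit 280) (nat_lit 2) (nat_lit 13) (.e false (nat_lit 3) (nat_lit 286) (nat_lit 2) (nat_lit 13) (.e true (nat_lit 2) (nat_lit 287) (nat_lit 2) (nat_lit 13) (.e true (nat_lit 2) (nat_lit 288) (nat_lit 2) (nat_lit 13) (.e true (nat_lit 1) (nat_lit 58) (nat_lit 18) (nat_lit 3) (.e true (nat_lit 1) (nat_lit 341) (nat_lit 0) (nat_lit 15) (.e false (nat_lit 1) (nat_lit 346) (nat_lit 0) (nat_lit 15) (.e false (nat_lit 1) (nat_lit 99) (nat_lit 12) (nat_lit 6) (.e true (nat_lit 1) (nat_lit 101) (nat_lit 12) (nat_lit 6) (.u (nat_lit 2) (.n (nat_lit 0) (nat_lit 3) (.p (nat_lit 1) (nat_lit 3) (.n (nat_lit 4) (nat_lit 5) (.n (nat_lit 5) (nat_lit 1) (.p (nat_lit 6) (nat_lit 5) (.p (nat_lit 7) (nat_lit 5) (.p (nat_lit 8) (nat_lit 1) (.p (nat_lit 9) (nat_lit 3) (.n (nat_lit 10) (nat_lit 2) (.p (nat_lit 12) (nat_lit 2) (.p (nat_lit 13) (nat_lit 3) (.n (nat_lit 15) (nat_lit 1) (.n (nat_lit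 16) (nat_lit 2) (.p (nat_lit 17) (nat_lit 1) (.p (nat_lit 18) (nat_lit 1) (.p (nat_lit 19) (nat_lit 1) (.n (nat_lit 21) (nat_lit 1) (.n (nat_lit 22) (nat_lit 1) (.p (nat_lit 23) (nat_lit 2) (.n (nat_lit 24) (nat_lit 1) (.p (nat_lit 25) (nat_lit 1) (.p (nat_lit 26) (nat_lit 1) (.p (nat_lit 27) (nat_lit 1) (.p (nat_lit 30) (nat_lit 2) (.n (nat_lit 33) (nat_lit 7) .z))))))))))))))))))))))))) .nil)))))))))))))))))))))))))

noncomputable def dC1d_i94 : IL := (.e false (nat_lit 3) (nat_lit 180) (nat_lit 5) (nat_lit 10) (.e true (nat_lit 1) (nat_lit 186) (nat_lit 5) (nat_lit 10) (.e true (nat_lit 1) (nat_lit 187) (nat_lit 5) (nat_lit 10) (.e true (nat_lit 3) (nat_lit 192) (nat_lit 5) (nat_lit 10) (.e false (nat_lit 1) (nat_lit 350) (nat_lit 0) (nat_lit 15) (.e true (nat_lit 3) (nat_lit 353) (nat_lit 0) (nat_lit 15) (.e true (nat_lit 2) (nat_lit 328) (nat_lit 1) (nat_lit 14) (.e true (nat_lit 3) (nat_lit 329) (nat_lit 1)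 (nat_lit 14) (.e false (nat_lit 3) (nat_lit 331) (nat_lit 1) (nat_lit 14) (.e false (nat_lit 1) (nat_lit 332) (nat_lit 1) (nat_lit 14) (.e true (nat_lit 1) (nat_lit 334) (nat_lit 1) (nat_lit 14) (.e true (nat_lit 1) (nat_lit 335) (nat_lit 1) (nat_lit 14) (.e false (nat_lit 2) (nat_lit 338) (nat_lit 1) (nat_lit 14) (.e true (nat_lit 1) (nat_lit 336) (nat_lit 1) (nat_lit 14) (.e true (nat_lit 1) (nat_lit 330) (nat_lit 1) (nat_lit 14) (.e false (nat_lit 3) (nat_lit 333) (nat_lit 1) (nat_lit 14) (.e false (nat_lit 2) (nat_lit 341) (nat_lit 1) (nat_lit 14) (.e false (nat_lit 2) (nat_lit 347) (nat_lit 0) (nat_lit 15) (.e true (nat_lit 1) (nat_lit 346) (nat_lit 1) (nat_lit 14) (.e true (nat_lit 1) (nat_lit 72) (nat_lit 18) (nat_lit 3) (.e true (nat_lit 2) (nat_lit 83) (nat_lit 16) (nat_lit 4) (.e true (nat_lit 2) (nat_lit 311) (nat_lit 2) (nat_lit 13) (.e false (nat_lit 2) (nat_lit 340) (nat_lit 1) (nat_lit 14) (.u (nat_lit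 2) (.n (nat_lit 0) (nat_lit 7) (.p (nat_lit 1) (nat_lit 6) (.n (nat_lit 2) (nat_lit 2) (.p (nat_lit 4) (nat_lit 8) (.p (nat_lit 5) (nat_lit 1) (.p (nat_lit 6) (nat_lit 2) (.p (nat_lit 7) (nat_lit 5) (.n (nat_lit 8) (nat_lit 9) (.n (nat_lit 9) (nat_lit 4) (.p (nat_lit 10) (nat_lit 6) (.n (nat_lit 11) (nat_lit 2) (.n (nat_lit 12) (nat_lit 3) (.n (nat_lit 13) (nat_lit 2) (.n (nat_lit 14) (nat_lit 1) (.p (nat_lit 15) (nat_lit 6) (.p (nat_lit 16) (nat_lit 7) (.p (nat_lit 18) (nat_lit 1) (.n (nat_lit 19) (nat_lit 5) (.n (nat_lit 20) (nat_lit 1) (.n (nat_lit 23) (nat_lit 2) (.p (nat_lit 26) (nat_lit 2) (.p (nat_lit 29) (nat_lit 3) (.p (nat_lit 30) (nat_lit 1) (.p (nat_lit 33) (nat_lit 6) (.n (nat_lit 125) (nat_lit 1) (.p (nat_lit 126) (nat_lit 2) (.p (nat_lit 128) (nat_lit 2) (.p (nat_lit 131) (nat_lit 1) (.n (nat_lit 132) (nat_lit 1) (.p (nat_lit 133) (nat_lit 3) (.n (nat_lit 134) (nat_lit 1) (.n (nat_lit 135) (nat_lit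 2) (.n (nat_lit 139) (nat_lit 1) (.n (nat_lit 142) (nat_lit 1) (.p (nat_lit 143) (nat_lit 1) (.p (nat_lit 145) (nat_lit 2) (.n (nat_lit 146) (nat_lit 1) (.n (nat_lit 147) (nat_lit 1) (.n (nat_lit 149) (nat_lit 2) (.n (nat_lit 151) (nat_lit 1) (.n (nat_lit 152) (nat_lit 1) (.n (nat_lit 153) (nat_lit 1) (.p (nat_lit 154) (nat_lit 1) (.p (nat_lit 155) (nat_lit 3) (.p (nat_lit 156) (nat_lit 1) (.n (nat_lit 159) (nat_lit 1) (.p (nat_lit 169) (nat_lit 1) (.p (nat_lit 171) (nat_lit 1) (.n (nat_lit 172) (nat_lit 1) (.n (nat_lit 173) (nat_lit 1) (.p (nat_lit 174) (nat_lit 1) (.p (nat_lit 175) (nat_lit 4) (.n (nat_lit 176) (nat_lit 15) (.n (nat_lit 177) (nat_lit 3) (.n (nat_lit 178) (nat_lit 2) (.n (nat_lit 179) (nat_lit 1) (.p (nat_lit 180) (nat_lit 5) (.n (nat_lit 181) (nat_lit 4) (.p (nat_lit 182) (nat_lit 1) (.p (nat_lit 183) (nat_lit 7) .z)))))))))))))))))))))))))))))))))))))))))))))))))))))))))))) (.u (nat_lit 2) (.n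 (nat_lit 184) (nat_lit 12) (.n (nat_lit 185) (nat_lit 1) (.p (nat_lit 186) (nat_lit 2) (.p (nat_lit 187) (nat_lit 13) (.n (nat_lit 188) (nat_lit 5) (.n (nat_lit 189) (nat_lit 2) (.p (nat_lit 190) (nat_lit 4) (.n (nat_lit 191) (nat_lit 2) (.p (nat_lit 192) (nat_lit 1) (.n (nat_lit 193) (nat_lit 5) (.n (nat_lit 194) (nat_lit 2) (.p (nat_lit 196) (nat_lit 7) (.p (nat_lit 198) (nat_lit 2) (.n (nat_lit 199) (nat_lit 3) (.n (nat_lit 200) (nat_lit 3) (.p (nat_lit 201) (nat_lit 6) (.p (nat_lit 202) (nat_lit 1) (.p (nat_lit 204) (nat_lit 1) (.n (nat_lit 205) (nat_lit 2) (.p (nat_lit 206) (nat_lit 1) (.n (nat_lit 207) (nat_lit 1) (.n (nat_lit 208) (nat_lit 1) (.p (nat_lit 209) (nat_lit 1) (.p (nat_lit 210) (nat_lit 1) (.p (nat_lit 211) (nat_lit 1) (.p (nat_lit 212) (nat_lit 1) (.p (nat_lit 213) (nat_lit 3) (.n (nat_lit 216) (nat_lit 1) (.n (nat_lit 220) (nat_lit 1) (.p (nat_lit 222) (nat_lit 1) (.n (nat_lit 223) (nat_lit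 1) (.p (nat_lit 224) (nat_lit 2) (.n (nat_lit 225) (nat_lit 1) .z))))))))))))))))))))))))))))))))) .nil)))))))))))))))))))))))))

noncomputable def dC1d_i95 : IL := (.e false (nat_lit 3) (nat_lit 308) (nat_lit 2) (nat_lit 13) (.e true (nat_lit 3) (nat_lit 309) (nat_lit 2) (nat_lit 13) (.e false (nat_lit 3) (nat_lit 317) (nat_lit 2) (nat_lit 13) (.e false (nat_lit 1) (nat_lit 304) (nat_lit 2) (nat_lit 13) (.e true (nat_lit 3) (nat_lit 189) (nat_lit 5) (nat_lit 10) (.e false (nat_lit 1) (nat_lit 193) (nat_lit 5) (nat_lit 10) (.e false (nat_lit 1) (nat_lit 337) (nat_lit 1) (nat_lit 14) (.e false (nat_lit 3) (nat_lit 345) (nat_lit 1) (nat_lit 14) (.e false (nat_lit 1) (nat_lit 46) (nat_lit 24) (nat_lit 2) (.e false (nat_lit 3) (nat_lit 182) (nat_lit 5) (nat_lit 10) (.e false (nat_lit 3) (nat_lit 183) (nat_lit 5) (nat_lit 10) (.e true (nat_lit 2) (nat_lit 185) (nat_lit 5) (nat_lit 10) (.e true (nat_lit 2) (nat_lit 75)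 (nat_lit 18) (nat_lit 3) (.e true (nat_lit 3) (nat_lit 210) (nat_lit 3) (nat_lit 12) (.e false (nat_lit 3) (nat_lit 211) (nat_lit 3) (nat_lit 12) (.e false (nat_lit 3) (nat_lit 292) (nat_lit 2) (nat_lit 13) (.e true (nat_lit 1) (nat_lit 310) (nat_lit 2) (nat_lit 13) (.e true (nat_lit 1) (nat_lit 46) (nat_lit 25) (nat_lit 2) (.e true (nat_lit 2) (nat_lit 348) (nat_lit 0) (nat_lit 15) (.e true (nat_lit 3) (nat_lit 349) (nat_lit 0) (nat_lit 15) (.e true (nat_lit 2) (nat_lit 351) (nat_lit 0) (nat_lit 15) (.e false (nat_lit 3) (nat_lit 352) (nat_lit 0) (nat_lit 15) (.e true (nat_lit 2) (nat_lit 302) (nat_lit 2) (nat_lit 13) (.e false (nat_lit 3) (nat_lit 312) (nat_lit 2) (nat_lit 13) (.e true (nat_lit 1) (nat_lit 319) (nat_lit 2) (nat_lit 13) dC1d_i94)))))))))))))))))))))))))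

noncomputable def dC1d_i96 : IL := (.e false (nat_lit 3) (nat_lit 188) (nat_lit 5) (nat_lit 10) (.e false (nat_lit 3) (nat_lit 153) (nat_lit 6) (nat_lit 9) (.e true (nat_lit 2) (nat_lit 154) (nat_lit 6) (nat_lit 9) (.e true (nat_lit 3) (nat_lit 161) (nat_lit 6) (nat_lit 9) (.e true (nat_lit 1) (nat_lit 162) (nat_lit 6) (nat_lit 9) (.e false (nat_lit 1) (nat_lit 170) (nat_lit 6) (nat_lit 9) (.e true (nat_lit 2) (nat_lit 173) (nat_lit 6) (nat_lit 9) (.e true (nat_lit 2) (nat_lit 157) (nat_lit 6) (nat_lit 9) (.e true (nat_lit 3) (nat_lit 208) (nat_lit 3) (nat_lit 12) (.e false (nat_lit 3) (nat_lit 167) (nat_lit 6) (nat_lit 9) (.e false (nat_lit 2) (nat_lit 164) (nat_lit 6) (nat_lit 9) (.e true (nat_lit 1) (nat_lit 171) (nat_lit 6) (nat_lit 9) (.e true (nat_lit 2) (nat_lit 172) (nat_lit 6) (nat_lit 9) (.e false (nat_lit 1) (nat_lit 316) (nat_lit 2) (nat_lit 13) (.e false (nat_lit 2) (nat_lit 291) (nat_lit 2) (nat_lit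 13) (.e false (nat_lit 3) (nat_lit 294) (nat_lit 2) (nat_lit 13) (.e false (nat_lit 2) (nat_lit 299) (nat_lit 2) (nat_lit 13) (.e false (nat_lit 3) (nat_lit 301) (nat_lit 2) (nat_lit 13) (.e false (nat_lit 2) (nat_lit 307) (nat_lit 2) (nat_lit 13) (.e true (nat_lit 3) (nat_lit 290) (nat_lit 2) (nat_lit 13) (.e true (nat_lit 1) (nat_lit 296) (nat_lit 2) (nat_lit 13) (.e false (nat_lit 1) (nat_lit 297) (nat_lit 2) (nat_lit 13) (.e true (nat_lit 2) (nat_lit 318) (nat_lit 2) (nat_lit 13) (.e true (nat_lit 1) (nat_lit 293) (nat_lit 2) (nat_lit 13) (.e false (nat_lit 2) (nat_lit 295) (nat_lit 2) (nat_lit 13) dC1d_i95)))))))))))))))))))))))))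

noncomputable def dC1d_i97 : IL := (.e false (nat_lit 2) (nat_lit 188) (nat_lit 0) (nat_lit 12) (.e true (nat_lit 1) (nat_lit 44) (nat_lit 9) (nat_lit 4) (.e false (nat_lit 2) (nat_lit 180) (nat_lit 0) (nat_lit 12) (.e false (nat_lit 3) (nat_lit 181) (nat_lit 0) (nat_lit 12) (.e false (nat_lit 3) (nat_lit 190) (nat_lit 0) (nat_lit 12) (.e true (nat_lit 2) (nat_lit 193) (nat_lit 0) (nat_lit 12) (.e true (nat_lit 1) (nat_lit 195) (nat_lit 0) (nat_lit 12) (.e false (nat_lit 1) (nat_lit 132) (nat_lit 2) (nat_lit 10) (.e false (nat_lit 1) (nat_lit 133) (nat_lit 2) (nat_lit 10) (.e false (nat_lit 1) (nat_lit 134) (nat_lit 2) (nat_lit 10) (.e false (nat_lit 2) (nat_lit 137) (nat_lit 2) (nat_lit 10) (.e false (nat_lit 1) (nat_lit 138) (nat_lit 2) (nat_lit 10) (.e true (nat_lit 2) (nat_lit 139) (nat_lit 2) (nat_lit 10) (.e true (nat_lit 1) (nat_lit 141) (nat_lit 2) (nat_lit 10) (.e false (nat_lit 1) (nat_lit 143) (nat_lit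 2) (nat_lit 10) (.e false (nat_lit 1) (nat_lit 149) (nat_lit 2) (nat_lit 10) (.e false (nat_lit 2) (nat_lit 151) (nat_lit 2) (nat_lit 10) (.e true (nat_lit 1) (nat_lit 152) (nat_lit 2) (nat_lit 10) (.e true (nat_lit 1) (nat_lit 136) (nat_lit 2) (nat_lit 10) (.e true (nat_lit 1) (nat_lit 144) (nat_lit 2) (nat_lit 10) (.e false (nat_lit 3) (nat_lit 145) (nat_lit 2) (nat_lit 10) (.e false (nat_lit 3) (nat_lit 147) (nat_lit 2) (nat_lit 10) (.e true (nat_lit 3) (nat_lit 148) (nat_lit 2) (nat_lit 10) (.e true (nat_lit 3) (nat_lit 135) (nat_lit 2) (nat_lit 10) (.u (nat_lit 2) (.n (nat_lit 0) (nat_lit 3) (.p (nat_lit 1) (nat_lit 1) (.n (nat_lit 2) (nat_lit 1) (.p (nat_lit 3) (nat_lit 1) (.n (nat_lit 4) (nat_lit 1) (.p (nat_lit 5) (nat_lit 3) (.p (nat_lit 6) (nat_lit 3) (.n (nat_lit 7) (nat_lit 2) (.n (nat_lit 9) (nat_lit 3) (.p (nat_lit 10) (nat_lit 1) (.p (nat_lit 11) (nat_lit 2) (.n (nat_lit 13) (nat_lit 1) (.p (nat_lit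 14) (nat_lit 1) (.p (nat_lit 15) (nat_lit 1) (.n (nat_lit 16) (nat_lit 1) (.n (nat_lit 17) (nat_lit 3) (.n (nat_lit 18) (nat_lit 2) (.p (nat_lit 19) (nat_lit 1) (.n (nat_lit 20) (nat_lit 1) (.n (nat_lit 22) (nat_lit 1) (.p (nat_lit 24) (nat_lit 1) (.n (nat_lit 25) (nat_lit 1) (.p (nat_lit 26) (nat_lit 3) (.p (nat_lit 27) (nat_lit 1) (.n (nat_lit 28) (nat_lit 1) (.p (nat_lit 29) (nat_lit 1) (.p (nat_lit 98) (nat_lit 1) (.p (nat_lit 99) (nat_lit 1) (.p (nat_lit 103) (nat_lit 1) (.n (nat_lit 105) (nat_lit 1) (.n (nat_lit 106) (nat_lit 1) (.n (nat_lit 111) (nat_lit 1) (.p (nat_lit 112) (nat_lit 1) (.p (nat_lit 113) (nat_lit 1) (.p (nat_lit 114) (nat_lit 1) (.n (nat_lit 115) (nat_lit 1) (.n (nat_lit 116) (nat_lit 1) .z))))))))))))))))))))))))))))))))))))) .nil)))))))))))))))))))))))))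

noncomputable def dC1d_i98 : IL := (.e true (nat_lit 1) (nat_lit 164) (nat_lit 2) (nat_lit 10) (.e true (nat_lit 2) (nat_lit 165) (nat_lit 2) (nat_lit 10) (.e false (nat_lit 3) (nat_lit 66) (nat_lit 6) (nat_lit 6) (.e true (nat_lit 3) (nat_lit 70) (nat_lit 6) (nat_lit 6) (.e false (nat_lit 3) (nat_lit 68) (nat_lit 6) (nat_lit 6) (.e false (nat_lit 2) (nat_lit 180) (nat_lit 1) (nat_lit 11) (.e true (nat_lit 1) (nat_lit 183) (nat_lit 1) (nat_lit 11) (.e true (nat_lit 3) (nat_lit 184) (nat_lit 1) (nat_lit 11) (.e true (nat_lit 3) (nat_lit 186) (nat_lit 1) (nat_lit 11) (.e true (nat_lit 1) (nat_lit 187) (nat_lit 1) (nat_lit 11) (.e true (nat_lit 2) (nat_lit 195) (nat_lit 1) (nat_lit 11) (.e true (nat_lit 3) (nat_lit 31) (nat_lit 16) (nat_lit 1) (.e false (nat_lit 3) (nat_lit 45) (nat_lit 10) (nat_lit 4) (.e false (nat_lit 3) (nat_lit 103) (nat_lit 3) (nat_lit 9) (.e true (nat_lit 3) (nat_lit 105) (nat_lit 3) (nat_lit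 9) (.e true (nat_lit 3) (nat_lit 24) (nat_lit 18) (nat_lit 0) (.e true (nat_lit 1) (nat_lit 26) (nat_lit 18) (nat_lit 0) (.e false (nat_lit 3) (nat_lit 90) (nat_lit 5) (nat_lit 7) (.e false (nat_lit 3) (nat_lit 192) (nat_lit 1) (nat_lit 11) (.e false (nat_lit 3) (nat_lit 25) (nat_lit 18) (nat_lit 0) (.e true (nat_lit 3) (nat_lit 104) (nat_lit 3) (nat_lit 9) (.e false (nat_lit 3) (nat_lit 69) (nat_lit 6) (nat_lit 6) (.e true (nat_lit 3) (nat_lit 43) (nat_lit 10) (nat_lit 4) (.e true (nat_lit 3) (nat_lit 200) (nat_lit 0) (nat_lit 12) (.u (nat_lit 2) (.p (nat_lit 0) (nat_lit 5) (.p (nat_lit 1) (nat_lit 3) (.n (nat_lit 2) (nat_lit 1) (.p (nat_lit 3) (nat_lit 2) (.p (nat_lit 4) (nat_lit 1) (.p (nat_lit 5) (nat_lit 1) (.p (nat_lit 6) (nat_lit 2) (.n (nat_lit 7) (nat_lit 2) (.p (nat_lit 9) (nat_lit 1) (.n (nat_lit 10) (nat_lit 2) (.n (nat_lit 11) (nat_lit 3) (.p (nat_lit 14) (nat_lit 4) (.p (nat_lit 15) (nat_lit 1) (.n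 (nat_lit 17) (nat_lit 1) (.p (nat_lit 18) (nat_lit 2) (.p (nat_lit 20) (nat_lit 3) (.p (nat_lit 21) (nat_lit 2) (.n (nat_lit 22) (nat_lit 1) (.n (nat_lit 23) (nat_lit 2) (.n (nat_lit 26) (nat_lit 1) (.n (nat_lit 27) (nat_lit 1) (.p (nat_lit 28) (nat_lit 1) (.p (nat_lit 29) (nat_lit 1) (.p (nat_lit 32) (nat_lit 1) (.n (nat_lit 66) (nat_lit 1) (.n (nat_lit 74) (nat_lit 1) (.p (nat_lit 78) (nat_lit 1) (.p (nat_lit 82) (nat_lit 1) (.n (nat_lit 96) (nat_lit 1) (.n (nat_lit 97) (nat_lit 2) (.p (nat_lit 98) (nat_lit 5) (.n (nat_lit 99) (nat_lit 2) (.n (nat_lit 100) (nat_lit 6) (.n (nat_lit 101) (nat_lit 1) (.p (nat_lit 102) (nat_lit 4) (.n (nat_lit 103) (nat_lit 8) (.n (nat_lit 104) (nat_lit 3) (.p (nat_lit 105) (nat_lit 2) (.n (nat_lit 107) (nat_lit 7) (.n (nat_lit 108) (nat_lit 1) (.n (nat_lit 109) (nat_lit 1) (.p (nat_lit 110) (nat_lit 1) (.n (nat_lit 111) (nat_lit 4) (.n (nat_lit 112) (nat_lit 1) (.p (nat_lit 113)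 (nat_lit 6) (.n (nat_lit 114) (nat_lit 11) (.p (nat_lit 115) (nat_lit 2) (.p (nat_lit 116) (nat_lit 3) (.p (nat_lit 117) (nat_lit 4) (.p (nat_lit 118) (nat_lit 6) (.p (nat_lit 119) (nat_lit 1) (.p (nat_lit 120) (nat_lit 1) (.p (nat_lit 122) (nat_lit 3) (.p (nat_lit 124) (nat_lit 1) (.n (nat_lit 127) (nat_lit 1) .z))))))))))))))))))))))))))))))))))))))))))))))))))))))) .nil)))))))))))))))))))))))))

noncomputable def dC1d_i99 : IL := (.s true (nat_lit 3) (nat_lit 36) (nat_lit 2) (nat_lit 1) (nat_lit 2) true (nat_lit 6) true (nat_lit 10) false (nat_lit 1) true (nat_lit 10) true (nat_lit 11) (.s false (nat_lit 3) (nat_lit 32) (nat_lit 2) (nat_lit 2) (nat_lit 1) true (nat_lit 7) true (nat_lit 11) false (nat_lit 1) true (nat_lit 10) true (nat_lit 10) (.s true (nat_lit 3) (nat_lit 38) (nat_lit 2) (nat_lit 0) (nat_lit 2) true (nat_lit 6) true (nat_lit 10) false (nat_lit 2) true (nat_lit 10) true (nat_lit 12) (.s false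 (nat_lit 3) (nat_lit 38) (nat_lit 2) (nat_lit 2) (nat_lit 0) true (nat_lit 8) true (nat_lit 12) false (nat_lit 2) true (nat_lit 10) true (nat_lit 10) (.s false (nat_lit 1) (nat_lit 40) (nat_lit 1) (nat_lit 1) (nat_lit 2) true (nat_lit 7) true (nat_lit 10) false (nat_lit 3) true (nat_lit 11) true (nat_lit 11) (.s true (nat_lit 3) (nat_lit 41) (nat_lit 1) (nat_lit 2) (nat_lit 1) false (nat_lit 13) true (nat_lit 11) false (nat_lit 3) true (nat_lit 11) true (nat_lit 10) (.s false (nat_lit 3) (nat_lit 43) (nat_lit 1) (nat_lit 0) (nat_lit 2) true (nat_lit 7) true (nat_lit 10) false (nat_lit 4) true (nat_lit 11) true (nat_lit 12) (.e true (nat_lit 2) (nat_lit 27) (nat_lit 18) (nat_lit 0) (.e false (nat_lit 1) (nat_lit 67) (nat_lit 6) (nat_lit 6) (.e false (nat_lit 1) (nat_lit 75) (nat_lit 6) (nat_lit 6) (.e true (nat_lit 3) (nat_lit 153) (nat_lit 2) (nat_lit 10) (.e false (nat_lit 1) (nat_lit 154) (nat_lit 2) (nat_lit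 10) (.e true (nat_lit 3) (nat_lit 155) (nat_lit 2) (nat_lit 10) (.e true (nat_lit 2) (nat_lit 156) (nat_lit 2) (nat_lit 10) (.e true (nat_lit 3) (nat_lit 157) (nat_lit 2) (nat_lit 10) (.e true (nat_lit 1) (nat_lit 158) (nat_lit 2) (nat_lit 10) (.e true (nat_lit 1) (nat_lit 159) (nat_lit 2) (nat_lit 10) (.e false (nat_lit 1) (nat_lit 160) (nat_lit 2) (nat_lit 10) (.e false (nat_lit 3) (nat_lit 163) (nat_lit 2) (nat_lit 10) (.e false (nat_lit 2) (nat_lit 167) (nat_lit 2) (nat_lit 10) (.e false (nat_lit 1) (nat_lit 168) (nat_lit 2) (nat_lit 10) (.e true (nat_lit 3) (nat_lit 171) (nat_lit 2) (nat_lit 10) (.e true (nat_lit 3) (nat_lit 172) (nat_lit 2) (nat_lit 10) (.e false (nat_lit 3) (nat_lit 173) (nat_lit 2) (nat_lit 10) (.e true (nat_lit 3) (nat_lit 190) (nat_lit 1) (nat_lit 11) dC1d_i98)))))))))))))))))))))))))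

noncomputable def dC1d_i100 : IL := (.s true (nat_lit 1) (nat_lit 98) (nat_lit 0) (nat_lit 1) (nat_lit 1) true (nat_lit 16) true (nat_lit 18) false (nat_lit 11) true (nat_lit 19) true (nat_lit 18) (.e false (nat_lit 2) (nat_lit 262) (nat_lit 1) (nat_lit 18) (.e false (nat_lit 2) (nat_lit 263) (nat_lit 1) (nat_lit 18) (.e false (nat_lit 3) (nat_lit 265) (nat_lit 1) (nat_lit 18) (.e false (nat_lit 3) (nat_lit 266) (nat_lit 1) (nat_lit 18) (.e true (nat_lit 3) (nat_lit 267) (nat_lit 1) (nat_lit 18) (.e true (nat_lit 2) (nat_lit 268) (nat_lit 1) (nat_lit 18) (.e false (nat_lit 3) (nat_lit 269) (nat_lit 1) (nat_lit 18) (.e false (nat_lit 2) (nat_lit 270) (nat_lit 1) (nat_lit 18) (.e true (nat_lit 2) (nat_lit 272) (nat_lit 1) (nat_lit 18) (.e false (nat_lit 1) (nat_lit 277) (nat_lit 1) (nat_lit 18) (.e false (nat_lit 1) (nat_lit 278) (nat_lit 1) (nat_lit 18) (.e true (nat_lit 1) (nat_lit 279) (nat_lit 1) (nat_lit 18)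 (.e false (nat_lit 1) (nat_lit 286) (nat_lit 1) (nat_lit 18) (.e true (nat_lit 1) (nat_lit 287) (nat_lit 1) (nat_lit 18) (.e false (nat_lit 1) (nat_lit 288) (nat_lit 1) (nat_lit 18) (.e true (nat_lit 1) (nat_lit 98) (nat_lit 8) (nat_lit 11) (.e false (nat_lit 1) (nat_lit 260) (nat_lit 1) (nat_lit 18) (.e false (nat_lit 3) (nat_lit 271) (nat_lit 1) (nat_lit 18) (.e true (nat_lit 3) (nat_lit 274) (nat_lit 1) (nat_lit 18) (.e false (nat_lit 1) (nat_lit 280) (nat_lit 1) (nat_lit 18) (.e false (nat_lit 1) (nat_lit 281) (nat_lit 1) (nat_lit 18) (.e false (nat_lit 1) (nat_lit 283) (nat_lit 1) (nat_lit 18) (.e true (nat_lit 1) (nat_lit 289) (nat_lit 1) (nat_lit 18) (.u (nat_lit 2) (.n (nat_lit 1) (nat_lit 1) (.n (nat_lit 4) (nat_lit 1) (.n (nat_lit 9) (nat_lit 2) (.n (nat_lit 11) (nat_lit 1) (.n (nat_lit 12) (nat_lit 1) (.p (nat_lit 14) (nat_lit 1) (.n (nat_lit 15) (nat_lit 1) (.p (nat_lit 17) (nat_lit 2) (.p (nat_lit 28)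 (nat_lit 1) (.p (nat_lit 31) (nat_lit 1) (.p (nat_lit 32) (nat_lit 1) (.n (nat_lit 33) (nat_lit 2) (.n (nat_lit 35) (nat_lit 2) (.p (nat_lit 37) (nat_lit 1) (.n (nat_lit 40) (nat_lit 1) (.n (nat_lit 41) (nat_lit 1) (.n (nat_lit 378) (nat_lit 1) (.n (nat_lit 381) (nat_lit 1) (.p (nat_lit 382) (nat_lit 1) .z))))))))))))))))))) .nil)))))))))))))))))))))))))

noncomputable def dC1d_i101 : IL := (.e true (nat_lit 1) (nat_lit 98) (nat_lit 10) (nat_lit 6) (.e true (nat_lit 3) (nat_lit 328) (nat_lit 0) (nat_lit 15) (.e true (nat_lit 3) (nat_lit 330) (nat_lit 0) (nat_lit 15) (.e false (nat_lit 2) (nat_lit 331) (nat_lit 0) (nat_lit 15) (.e false (nat_lit 3) (nat_lit 332) (nat_lit 0) (nat_lit 15) (.e true (nat_lit 1) (nat_lit 334) (nat_lit 0) (nat_lit 15) (.e true (nat_lit 1) (nat_lit 335) (nat_lit 0) (nat_lit 15) (.e true (nat_lit 1) (nat_lit 336) (nat_lit 0) (nat_lit 15) (.e true (nat_lit 1) (nat_lit 337) (nat_lit 0) (nat_lit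 15) (.e false (nat_lit 3) (nat_lit 338) (nat_lit 0) (nat_lit 15) (.e false (nat_lit 1) (nat_lit 339) (nat_lit 0) (nat_lit 15) (.e false (nat_lit 1) (nat_lit 340) (nat_lit 0) (nat_lit 15) (.e false (nat_lit 1) (nat_lit 342) (nat_lit 0) (nat_lit 15) (.e true (nat_lit 1) (nat_lit 343) (nat_lit 0) (nat_lit 15) (.e true (nat_lit 1) (nat_lit 344) (nat_lit 0) (nat_lit 15) (.e true (nat_lit 1) (nat_lit 345) (nat_lit 0) (nat_lit 15) (.e false (nat_lit 1) (nat_lit 320) (nat_lit 1) (nat_lit 14) (.e false (nat_lit 2) (nat_lit 321) (nat_lit 1) (nat_lit 14) (.e true (nat_lit 3) (nat_lit 322) (nat_lit 1) (nat_lit 14) (.e false (nat_lit 1) (nat_lit 323) (nat_lit 1) (nat_lit 14) (.e true (nat_lit 1) (nat_lit 324) (nat_lit 1) (nat_lit 14) (.e false (nat_lit 1) (nat_lit 325) (nat_lit 1) (nat_lit 14) (.e false (nat_lit 1) (nat_lit 326) (nat_lit 1) (nat_lit 14) (.e true (nat_lit 3) (nat_lit 327) (nat_lit 1) (nat_lit 14) (.u (nat_lit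 2) (.n (nat_lit 0) (nat_lit 5) (.p (nat_lit 1) (nat_lit 2) (.p (nat_lit 2) (nat_lit 1) (.n (nat_lit 3) (nat_lit 3) (.p (nat_lit 4) (nat_lit 2) (.p (nat_lit 5) (nat_lit 2) (.p (nat_lit 6) (nat_lit 4) (.p (nat_lit 7) (nat_lit 4) (.p (nat_lit 8) (nat_lit 1) (.n (nat_lit 9) (nat_lit 3) (.n (nat_lit 10) (nat_lit 1) (.n (nat_lit 12) (nat_lit 1) (.p (nat_lit 15) (nat_lit 4) (.p (nat_lit 16) (nat_lit 3) (.p (nat_lit 18) (nat_lit 4) (.p (nat_lit 19) (nat_lit 4) (.p (nat_lit 21) (nat_lit 1) (.p (nat_lit 27) (nat_lit 1) (.n (nat_lit 30) (nat_lit 2) (.n (nat_lit 33) (nat_lit 2) .z)))))))))))))))))))) .nil)))))))))))))))))))))))))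

noncomputable def dC1d_c277 : Cm := .mk (nat_lit 821) (nat_lit 277) (nat_lit 328) (nat_lit 19) (.c (nat_lit 31) (nat_lit 6) (nat_lit 18) (nat_lit 1) (nat_lit 19) (.c (nat_lit 40) (nat_lit 3) (nat_lit 16) (nat_lit 2) (nat_lit 25) (.c (nat_lit 43) (nat_lit 3) (nat_lit 14) (nat_lit 2) (nat_lit 31) (.c (nat_lit 46) (nat_lit 1) (nat_lit 10) (nat_lit 3) (nat_lit 37) (.c (nat_lit 82) (nat_lit 11) (nat_lit 6) (nat_lit 1) (nat_lit 40) (.c (nat_lit 98) (nat_lit 4) (nat_lit 5) (nat_lit 1) (nat_lit 51) (.c (nat_lit 102) (nat_lit 4) (nat_lit 4) (nat_lit 1) (nat_lit 55) (.c (nat_lit 106) (nat_lit 1) (nat_lit 3) (nat_lit 1) (nat_lit 59) (.c (nat_lit 180) (nat_lit 16) (nat_lit 2) (nat_lit 1) (nat_lit 60) (.c (nat_lit 202) (nat_lit 5) (nat_lit 1) (nat_lit 1) (nat_lit 76) (.c (nat_lit 207) (nat_lit 5) (nat_lit 0) (nat_lit 1) (nat_lit 81) .nil)))))))))))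

noncomputable def dC1d_i102 : IL := (.e false (nat_lit 3) (nat_lit 233) (nat_lit 2) (nat_lit 17) (.e false (nat_lit 3) (nat_lit 239) (nat_lit 2) (nat_lit 17) (.e true (nat_lit 2) (nat_lit 241) (nat_lit 2) (nat_lit 17) (.e false (nat_lit 2) (nat_lit 242) (nat_lit 2) (nat_lit 17) (.e true (nat_lit 3) (nat_lit 249) (nat_lit 2) (nat_lit 17) (.e true (nat_lit 1) (nat_lit 253) (nat_lit 2) (nat_lit 17) (.e false (nat_lit 3) (nat_lit 221) (nat_lit 2) (nat_lit 17) (.e true (nat_lit 2) (nat_lit 222) (nat_lit 2) (nat_lit 17) (.e true (nat_lit 1) (nat_lit 237) (nat_lit 2) (nat_lit 17) (.e true (nat_lit 3) (nat_lit 240) (nat_lit 2) (nat_lit 17) (.e true (nat_lit 3) (nat_lit 246) (nat_lit 2) (nat_lit 17) (.e false (nat_lit 2) (nat_lit 219) (nat_lit 2) (nat_lit 17) (.e true (nat_lit 3) (nat_lit 234) (nat_lit 2) (nat_lit 17) (.e true (nat_lit 3) (nat_lit 243) (nat_lit 2) (nat_lit 17) (.e false (nat_lit 3) (nat_lit 248) (nat_lit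 2) (nat_lit 17) (.e false (nat_lit 1) (nat_lit 231) (nat_lit 2) (nat_lit 17) (.e false (nat_lit 3) (nat_lit 245) (nat_lit 2) (nat_lit 17) (.e true (nat_lit 3) (nat_lit 244) (nat_lit 2) (nat_lit 17) (.e true (nat_lit 2) (nat_lit 223) (nat_lit 2) (nat_lit 17) (.e false (nat_lit 3) (nat_lit 251) (nat_lit 2) (nat_lit 17) (.e false (nat_lit 3) (nat_lit 232) (nat_lit 2) (nat_lit 17) (.e true (nat_lit 2) (nat_lit 236) (nat_lit 2) (nat_lit 17) (.e true (nat_lit 3) (nat_lit 258) (nat_lit 2) (nat_lit 17) (.u (nat_lit 2) (.p (nat_lit 0) (nat_lit 1) (.p (nat_lit 1) (nat_lit 1) (.n (nat_lit 2) (nat_lit 6) (.n (nat_lit 3) (nat_lit 5) (.n (nat_lit 4) (nat_lit 5) (.p (nat_lit 5) (nat_lit 2) (.p (nat_lit 6) (nat_lit 1) (.n (nat_lit 7) (nat_lit 1) (.p (nat_lit 8) (nat_lit 4) (.n (nat_lit 9) (nat_lit 2) (.p (nat_lit 10) (nat_lit 1) (.n (nat_lit 12) (nat_lit 3) (.n (nat_lit 13) (nat_lit 1) (.n (nat_lit 15) (nat_lit 1) (.n (nat_lit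 17) (nat_lit 1) (.p (nat_lit 18) (nat_lit 2) (.n (nat_lit 19) (nat_lit 4) (.p (nat_lit 20) (nat_lit 2) (.n (nat_lit 23) (nat_lit 1) (.p (nat_lit 24) (nat_lit 1) (.p (nat_lit 25) (nat_lit 1) (.n (nat_lit 27) (nat_lit 1) (.p (nat_lit 28) (nat_lit 2) (.p (nat_lit 29) (nat_lit 4) (.p (nat_lit 30) (nat_lit 4) (.p (nat_lit 31) (nat_lit 1) (.p (nat_lit 32) (nat_lit 1) (.p (nat_lit 34) (nat_lit 3) (.n (nat_lit 36) (nat_lit 3) (.p (nat_lit 37) (nat_lit 6) (.p (nat_lit 38) (nat_lit 2) (.p (nat_lit 39) (nat_lit 1) (.n (nat_lit 40) (nat_lit 2) (.p (nat_lit 41) (nat_lit 1) (.n (nat_lit 45) (nat_lit 1) (.p (nat_lit 46) (nat_lit 1) (.n (nat_lit 48) (nat_lit 1) (.n (nat_lit 49) (nat_lit 1) (.p (nat_lit 52) (nat_lit 1) (.p (nat_lit 53) (nat_lit 2) (.p (nat_lit 55) (nat_lit 2) (.n (nat_lit 56) (nat_lit 1) (.n (nat_lit 61) (nat_lit 1) (.n (nat_lit 63) (nat_lit 2) (.p (nat_lit 64) (nat_lit 1) (.p (nat_lit 67) (nat_lit 1) (.n (nat_lit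 70) (nat_lit 1) (.p (nat_lit 71) (nat_lit 1) (.n (nat_lit 328) (nat_lit 1) (.n (nat_lit 330) (nat_lit 2) (.n (nat_lit 331) (nat_lit 1) (.n (nat_lit 332) (nat_lit 3) (.p (nat_lit 333) (nat_lit 2) (.n (nat_lit 334) (nat_lit 4) (.p (nat_lit 335) (nat_lit 1) (.n (nat_lit 337) (nat_lit 1) (.p (nat_lit 338) (nat_lit 1) (.p (nat_lit 339) (nat_lit 3) (.p (nat_lit 341) (nat_lit 1) (.p (nat_lit 342) (nat_lit 2) .z)))))))))))))))))))))))))))))))))))))))))))))))))))))))))))) (.u (nat_lit 2) (.n (nat_lit 344) (nat_lit 1) (.n (nat_lit 345) (nat_lit 2) (.n (nat_lit 346) (nat_lit 3) (.n (nat_lit 347) (nat_lit 1) (.n (nat_lit 348) (nat_lit 1) (.n (nat_lit 349) (nat_lit 3) (.p (nat_lit 352) (nat_lit 3) (.n (nat_lit 354) (nat_lit 1) (.n (nat_lit 355) (nat_lit 4) (.p (nat_lit 356) (nat_lit 1) (.n (nat_lit 357) (nat_lit 1) (.p (nat_lit 358) (nat_lit 2) (.p (nat_lit 359) (nat_lit 1) (.n (nat_lit 360) (nat_lit 1) (.n (nat_lit 361) (nat_lit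 1) (.p (nat_lit 362) (nat_lit 1) (.n (nat_lit 363) (nat_lit 3) (.p (nat_lit 364) (nat_lit 1) (.p (nat_lit 365) (nat_lit 1) (.n (nat_lit 366) (nat_lit 1) (.n (nat_lit 367) (nat_lit 2) (.n (nat_lit 371) (nat_lit 1) (.p (nat_lit 372) (nat_lit 1) .z))))))))))))))))))))))) .nil)))))))))))))))))))))))))

noncomputable def dC1d_i103 : IL := (.e false (nat_lit 2) (nat_lit 271) (nat_lit 2) (nat_lit 13) (.e true (nat_lit 3) (nat_lit 272) (nat_lit 2) (nat_lit 13) (.e false (nat_lit 2) (nat_lit 273) (nat_lit 2) (nat_lit 13) (.e true (nat_lit 2) (nat_lit 274) (nat_lit 2) (nat_lit 13) (.e false (nat_lit 1) (nat_lit 277) (nat_lit 2) (nat_lit 13) (.e false (nat_lit 2) (nat_lit 278) (nat_lit 2) (nat_lit 13) (.e false (nat_lit 1) (nat_lit 279) (nat_lit 2) (nat_lit 13) (.e true (nat_lit 1) (nat_lit 280) (nat_lit 2) (nat_lit 13) (.e false (nat_lit 1) (nat_lit 288) (nat_lit 2) (nat_lit 13) (.e false (nat_lit 1) (nat_lit 41) (nat_lit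 31) (nat_lit 0) (.e true (nat_lit 3) (nat_lit 328) (nat_lit 0) (nat_lit 15) (.e false (nat_lit 2) (nat_lit 329) (nat_lit 0) (nat_lit 15) (.e true (nat_lit 2) (nat_lit 330) (nat_lit 0) (nat_lit 15) (.e true (nat_lit 1) (nat_lit 331) (nat_lit 0) (nat_lit 15) (.e false (nat_lit 2) (nat_lit 332) (nat_lit 0) (nat_lit 15) (.e false (nat_lit 3) (nat_lit 333) (nat_lit 0) (nat_lit 15) (.e false (nat_lit 1) (nat_lit 334) (nat_lit 0) (nat_lit 15) (.e false (nat_lit 1) (nat_lit 335) (nat_lit 0) (nat_lit 15) (.e true (nat_lit 1) (nat_lit 336) (nat_lit 0) (nat_lit 15) (.e true (nat_lit 2) (nat_lit 337) (nat_lit 0) (nat_lit 15) (.e true (nat_lit 1) (nat_lit 340) (nat_lit 0) (nat_lit 15) (.e false (nat_lit 1) (nat_lit 344) (nat_lit 0) (nat_lit 15) (.e true (nat_lit 1) (nat_lit 345) (nat_lit 0) (nat_lit 15) (.e false (nat_lit 1) (nat_lit 147) (nat_lit 6) (nat_lit 9) (.u (nat_lit 2) (.n (nat_lit 0) (nat_lit 4) (.p (nat_lit 2) (nat_lit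 3) (.n (nat_lit 3) (nat_lit 3) (.n (nat_lit 4) (nat_lit 1) (.p (nat_lit 5) (nat_lit 1) (.p (nat_lit 6) (nat_lit 4) (.p (nat_lit 7) (nat_lit 4) (.p (nat_lit 8) (nat_lit 2) (.p (nat_lit 9) (nat_lit 2) (.p (nat_lit 10) (nat_lit 1) (.p (nat_lit 12) (nat_lit 1) (.p (nat_lit 13) (nat_lit 1) (.p (nat_lit 15) (nat_lit 4) (.n (nat_lit 17) (nat_lit 1) (.p (nat_lit 18) (nat_lit 1) (.n (nat_lit 19) (nat_lit 1) (.p (nat_lit 22) (nat_lit 1) (.n (nat_lit 24) (nat_lit 1) (.n (nat_lit 25) (nat_lit 1) (.p (nat_lit 26) (nat_lit 1) (.p (nat_lit 27) (nat_lit 1) (.p (nat_lit 28) (nat_lit 1) (.p (nat_lit 30) (nat_lit 1) .z))))))))))))))))))))))) .nil)))))))))))))))))))))))))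

noncomputable def dC1d_i104 : IL := (.e false (nat_lit 3) (nat_lit 141) (nat_lit 2) (nat_lit 10) (.e false (nat_lit 2) (nat_lit 142) (nat_lit 2) (nat_lit 10) (.e false (nat_lit 2) (nat_lit 144) (nat_lit 2) (nat_lit 10) (.e false (nat_lit 3) (nat_lit 145) (nat_lit 2) (nat_lit 10) (.e true (nat_lit 2) (nat_lit 146) (nat_lit 2) (nat_lit 10) (.e true (nat_lit 2) (nat_lit 150) (nat_lit 2) (nat_lit 10) (.e false (nat_lit 2) (nat_lit 151) (nat_lit 2) (nat_lit 10) (.e false (nat_lit 1) (nat_lit 149) (nat_lit 2) (nat_lit 10) (.e true (nat_lit 1) (nat_lit 21) (nat_lit 18) (nat_lit 0) (.e true (nat_lit 2) (nat_lit 22) (nat_lit 18) (nat_lit 0) (.e true (nat_lit 2) (nat_lit 56) (nat_lit 6) (nat_lit 6) (.e false (nat_lit 3) (nat_lit 57) (nat_lit 6) (nat_lit 6) (.e true (nat_lit 3) (nat_lit 62) (nat_lit 6) (nat_lit 6) (.e true (nat_lit 2) (nat_lit 65) (nat_lit 6) (nat_lit 6) (.e false (nat_lit 1) (nat_lit 28) (nat_lit 17) (nat_lit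 1) (.e true (nat_lit 1) (nat_lit 77) (nat_lit 5) (nat_lit 7) (.e false (nat_lit 3) (nat_lit 55) (nat_lit 6) (nat_lit 6) (.e true (nat_lit 2) (nat_lit 148) (nat_lit 2) (nat_lit 10) (.e false (nat_lit 2) (nat_lit 181) (nat_lit 0) (nat_lit 12) (.e true (nat_lit 1) (nat_lit 189) (nat_lit 0) (nat_lit 12) (.e false (nat_lit 2) (nat_lit 32) (nat_lit 15) (nat_lit 2) (.e false (nat_lit 2) (nat_lit 46) (nat_lit 7) (nat_lit 5) (.e true (nat_lit 1) (nat_lit 174) (nat_lit 1) (nat_lit 11) (.u (nat_lit 2) (.n (nat_lit 0) (nat_lit 2) (.n (nat_lit 1) (nat_lit 1) (.n (nat_lit 2) (nat_lit 1) (.n (nat_lit 3) (nat_lit 3) (.n (nat_lit 4) (nat_lit 1) (.n (nat_lit 6) (nat_lit 1) (.n (nat_lit 7) (nat_lit 3) (.p (nat_lit 8) (nat_lit 2) (.p (nat_lit 9) (nat_lit 1) (.p (nat_lit 11) (nat_lit 1) (.p (nat_lit 13) (nat_lit 1) (.n (nat_lit 14) (nat_lit 1) (.p (nat_lit 17) (nat_lit 1) (.p (nat_lit 18) (nat_lit 1) (.p (nat_lit 19) (nat_lit 1) (.p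 (nat_lit 20) (nat_lit 1) (.p (nat_lit 26) (nat_lit 1) (.p (nat_lit 28) (nat_lit 1) (.n (nat_lit 40) (nat_lit 1) (.p (nat_lit 44) (nat_lit 1) (.p (nat_lit 51) (nat_lit 1) (.p (nat_lit 58) (nat_lit 1) (.p (nat_lit 59) (nat_lit 1) (.p (nat_lit 60) (nat_lit 1) (.n (nat_lit 64) (nat_lit 1) (.n (nat_lit 65) (nat_lit 1) (.n (nat_lit 67) (nat_lit 1) (.n (nat_lit 71) (nat_lit 1) (.p (nat_lit 74) (nat_lit 1) (.p (nat_lit 76) (nat_lit 1) (.n (nat_lit 78) (nat_lit 1) (.p (nat_lit 82) (nat_lit 1) (.n (nat_lit 86) (nat_lit 1) (.n (nat_lit 95) (nat_lit 1) (.n (nat_lit 96) (nat_lit 5) (.p (nat_lit 98) (nat_lit 2) (.p (nat_lit 99) (nat_lit 2) (.p (nat_lit 100) (nat_lit 6) (.p (nat_lit 101) (nat_lit 1) (.n (nat_lit 102) (nat_lit 5) (.p (nat_lit 103) (nat_lit 4) (.n (nat_lit 104) (nat_lit 2) (.p (nat_lit 105) (nat_lit 1) (.n (nat_lit 106) (nat_lit 4) (.n (nat_lit 107) (nat_lit 2) (.p (nat_lit 108) (nat_lit 4) (.n (nat_lit 110) (nat_lit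 3) (.p (nat_lit 111) (nat_lit 3) (.n (nat_lit 112) (nat_lit 2) (.p (nat_lit 114) (nat_lit 5) (.p (nat_lit 115) (nat_lit 6) (.n (nat_lit 116) (nat_lit 2) (.p (nat_lit 117) (nat_lit 4) (.n (nat_lit 118) (nat_lit 6) (.n (nat_lit 119) (nat_lit 3) (.p (nat_lit 120) (nat_lit 3) (.n (nat_lit 122) (nat_lit 3) (.n (nat_lit 123) (nat_lit 1) (.n (nat_lit 125) (nat_lit 1) (.n (nat_lit 126) (nat_lit 3) .z)))))))))))))))))))))))))))))))))))))))))))))))))))))))))))) (.u (nat_lit 2) (.n (nat_lit 128) (nat_lit 2) (.n (nat_lit 129) (nat_lit 4) (.n (nat_lit 130) (nat_lit 5) (.n (nat_lit 131) (nat_lit 1) (.p (nat_lit 135) (nat_lit 1) .z))))) .nil)))))))))))))))))))))))))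

noncomputable def dC1d_i105 : IL := (.s true (nat_lit 3) (nat_lit 30) (nat_lit 2) (nat_lit 1) (nat_lit 2) true (nat_lit 6) true (nat_lit 10) false (nat_lit 1) true (nat_lit 10) true (nat_lit 11) (.s true (nat_lit 3) (nat_lit 29) (nat_lit 2) (nat_lit 2) (nat_lit 1) true (nat_lit 7) true (nat_lit 11) false (nat_lit 1) true (nat_lit 10) true (nat_lit 10) (.s true (nat_lit 2) (nat_lit 31) (nat_lit 0) (nat_lit 2) (nat_lit 2) true (nat_lit 8) true (nat_lit 10) false (nat_lit 2) true (nat_lit 12) true (nat_lit 10) (.s false (nat_lit 2) (nat_lit 32) (nat_lit 0) (nat_lit 2) (nat_lit 2) true (nat_lit 8) true (nat_lit 10) false (nat_lit 2) true (nat_lit 12) true (nat_lit 10) (.s false (nat_lit 1) (nat_lit 35) (nat_lit 0) (nat_lit 2) (nat_lit 2) true (nat_lit 8) true (nat_lit 10) false (nat_lit 2) true (nat_lit 12) true (nat_lit 10) (.s false (nat_lit 1) (nat_lit 36) (nat_lit 0) (nat_lit 2) (nat_lit 2) true (nat_lit 8) true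 (nat_lit 10) false (nat_lit 2) true (nat_lit 12) true (nat_lit 10) (.s true (nat_lit 2) (nat_lit 35) (nat_lit 2) (nat_lit 0) (nat_lit 2) true (nat_lit 6) true (nat_lit 10) false (nat_lit 2) true (nat_lit 10) true (nat_lit 12) (.s false (nat_lit 3) (nat_lit 31) (nat_lit 2) (nat_lit 2) (nat_lit 0) true (nat_lit 8) true (nat_lit 12) false (nat_lit 2) true (nat_lit 10) true (nat_lit 10) (.s false (nat_lit 1) (nat_lit 33) (nat_lit 2) (nat_lit 2) (nat_lit 0) true (nat_lit 8) true (nat_lit 12) false (nat_lit 2) true (nat_lit 10) true (nat_lit 10) (.s true (nat_lit 2) (nat_lit 34) (nat_lit 2) (nat_lit 2) (nat_lit 0) true (nat_lit 8) true (nat_lit 12) false (nat_lit 2) true (nat_lit 10) true (nat_lit 10) (.s true (nat_lit 2) (nat_lit 35) (nat_lit 2) (nat_lit 2) (nat_lit 0) true (nat_lit 8) true (nat_lit 12) false (nat_lit 2) true (nat_lit 10) true (nat_lit 10) (.s true (nat_lit 3) (nat_lit 36) (nat_lit 2) (nat_lit 2) (nat_lit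 0) true (nat_lit 8) true (nat_lit 12) false (nat_lit 2) true (nat_lit 10) true (nat_lit 10) (.s false (nat_lit 3) (nat_lit 42) (nat_lit 0) (nat_lit 2) (nat_lit 1) true (nat_lit 9) true (nat_lit 11) false (nat_lit 3) true (nat_lit 12) true (nat_lit 10) (.s false (nat_lit 3) (nat_lit 40) (nat_lit 1) (nat_lit 2) (nat_lit 0) true (nat_lit 9) true (nat_lit 12) false (nat_lit 3) true (nat_lit 11) true (nat_lit 10) (.s true (nat_lit 3) (nat_lit 46) (nat_lit 0) (nat_lit 1) (nat_lit 0) false (nat_lit 13) true (nat_lit 12) false (nat_lit 5) true (nat_lit 12) true (nat_lit 11) (.s true (nat_lit 2) (nat_lit 46) (nat_lit 1) (nat_lit 0) (nat_lit 0) true (nat_lit 9) true (nat_lit 12) false (nat_lit 5) true (nat_lit 11) true (nat_lit 12) (.e true (nat_lit 2) (nat_lit 83) (nat_lit 4) (nat_lit 8) (.e true (nat_lit 1) (nat_lit 132) (nat_lit 2) (nat_lit 10) (.e false (nat_lit 3) (nat_lit 133) (nat_lit 2) (nat_lit 10) (.e false (nat_lit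 3) (nat_lit 134) (nat_lit 2) (nat_lit 10) (.e false (nat_lit 1) (nat_lit 135) (nat_lit 2) (nat_lit 10) (.e true (nat_lit 3) (nat_lit 136) (nat_lit 2) (nat_lit 10) (.e false (nat_lit 3) (nat_lit 138) (nat_lit 2) (nat_lit 10) (.e true (nat_lit 2) (nat_lit 139) (nat_lit 2) (nat_lit 10) (.e false (nat_lit 1) (nat_lit 140) (nat_lit 2) (nat_lit 10) dC1d_i104)))))))))))))))))))))))))

noncomputable def dC1d_i106 : IL := (.s false (nat_lit 3) (nat_lit 12) (nat_lit 0) (nat_lit 2) (nat_lit 6) true (nat_lit 2) true (nat_lit 6) true (nat_lit 3) true (nat_lit 12) true (nat_lit 10) (.s false (nat_lit 1) (nat_lit 12) (nat_lit 0) (nat_lit 6) (nat_lit 2) true (nat_lit 8) true (nat_lit 10) true (nat_lit 3) true (nat_lit 12) true (nat_lit 6) (.s true (nat_lit 1) (nat_lit 10) (nat_lit 2) (nat_lit 2) (nat_lit 4) true (nat_lit 2) true (nat_lit 8) true (nat_lit 3) true (nat_lit 10) true (nat_lit 10) (.s false (nat_lit 1) (nat_lit 12)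 (nat_lit 2) (nat_lit 2) (nat_lit 4) true (nat_lit 2) true (nat_lit 8) true (nat_lit 3) true (nat_lit 10) true (nat_lit 10) (.s true (nat_lit 3) (nat_lit 12) (nat_lit 2) (nat_lit 4) (nat_lit 2) true (nat_lit 6) true (nat_lit 10) true (nat_lit 3) true (nat_lit 10) true (nat_lit 8) (.s false (nat_lit 1) (nat_lit 10) (nat_lit 2) (nat_lit 6) (nat_lit 0) true (nat_lit 8) true (nat_lit 12) true (nat_lit 3) true (nat_lit 10) true (nat_lit 6) (.s false (nat_lit 1) (nat_lit 11) (nat_lit 2) (nat_lit 6) (nat_lit 0) true (nat_lit 8) true (nat_lit 12) true (nat_lit 3) true (nat_lit 10) true (nat_lit 6) (.s false (nat_lit 3) (nat_lit 12) (nat_lit 2) (nat_lit 6) (nat_lit 0) true (nat_lit 8) true (nat_lit 12) true (nat_lit 3) true (nat_lit 10) true (nat_lit 6) (.s true (nat_lit 2) (nat_lit 10) (nat_lit 4) (nat_lit 2) (nat_lit 2) true (nat_lit 2) true (nat_lit 10) true (nat_lit 3) true (nat_lit 8) true (nat_lit 10) (.s true (nat_lit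 1) (nat_lit 12) (nat_lit 4) (nat_lit 2) (nat_lit 2) true (nat_lit 2) true (nat_lit 10) true (nat_lit 3) true (nat_lit 8) true (nat_lit 10) (.s false (nat_lit 1) (nat_lit 14) (nat_lit 1) (nat_lit 4) (nat_lit 2) true (nat_lit 7) true (nat_lit 10) true (nat_lit 2) true (nat_lit 11) true (nat_lit 8) (.s false (nat_lit 2) (nat_lit 15) (nat_lit 1) (nat_lit 6) (nat_lit 0) true (nat_lit 9) true (nat_lit 12) true (nat_lit 2) true (nat_lit 11) true (nat_lit 6) (.s false (nat_lit 3) (nat_lit 14) (nat_lit 2) (nat_lit 3) (nat_lit 2) true (nat_lit 6) true (nat_lit 10) true (nat_lit 2) true (nat_lit 10) true (nat_lit 9) (.s false (nat_lit 2) (nat_lit 14) (nat_lit 3) (nat_lit 2) (nat_lit 2) true (nat_lit 3) true (nat_lit 10) true (nat_lit 2) true (nat_lit 9) true (nat_lit 10) (.s true (nat_lit 1) (nat_lit 15) (nat_lit 3) (nat_lit 2) (nat_lit 2) true (nat_lit 3) true (nat_lit 10) true (nat_lit 2) true (nat_lit 9) true (nat_lit 10)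 (.s false (nat_lit 2) (nat_lit 15) (nat_lit 5) (nat_lit 2) (nat_lit 0) true (nat_lit 3) true (nat_lit 12) true (nat_lit 2) true (nat_lit 7) true (nat_lit 10) (.s false (nat_lit 3) (nat_lit 14) (nat_lit 6) (nat_lit 0) (nat_lit 1) true (nat_lit 1) true (nat_lit 11) true (nat_lit 2) true (nat_lit 6) true (nat_lit 12) (.s true (nat_lit 1) (nat_lit 18) (nat_lit 0) (nat_lit 2) (nat_lit 3) true (nat_lit 5) true (nat_lit 9) true (nat_lit 0) true (nat_lit 12) true (nat_lit 10) (.s true (nat_lit 1) (nat_lit 18) (nat_lit 1) (nat_lit 0) (nat_lit 4) true (nat_lit 3) true (nat_lit 8) true (nat_lit 0) true (nat_lit 11) true (nat_lit 12) (.s false (nat_lit 3) (nat_lit 18) (nat_lit 3) (nat_lit 2) (nat_lit 0) true (nat_lit 5) true (nat_lit 12) true (nat_lit 0) true (nat_lit 9) true (nat_lit 10) (.s false (nat_lit 3) (nat_lit 18) (nat_lit 4) (nat_lit 0) (nat_lit 1) true (nat_lit 3) true (nat_lit 11) true (nat_lit 0) true (nat_lit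 8) true (nat_lit 12) (.s false (nat_lit 1) (nat_lit 23) (nat_lit 2) (nat_lit 2) (nat_lit 2) true (nat_lit 6) true (nat_lit 10) false (nat_lit 0) true (nat_lit 10) true (nat_lit 10) (.s true (nat_lit 3) (nat_lit 29) (nat_lit 1) (nat_lit 2) (nat_lit 2) true (nat_lit 7) true (nat_lit 10) false (nat_lit 1) true (nat_lit 11) true (nat_lit 10) (.s true (nat_lit 3) (nat_lit 30) (nat_lit 1) (nat_lit 2) (nat_lit 2) true (nat_lit 7) true (nat_lit 10) false (nat_lit 1) true (nat_lit 11) true (nat_lit 10) (.s true (nat_lit 3) (nat_lit 29) (nat_lit 2) (nat_lit 1) (nat_lit 2) true (nat_lit 6) true (nat_lit 10) false (nat_lit 1) true (nat_lit 10) true (nat_lit 11) dC1d_i105)))))))))))))))))))))))))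

noncomputable def dC1d_i107 : IL := (.e true (nat_lit 1) (nat_lit 264) (nat_lit 1) (nat_lit 18) (.e false (nat_lit 1) (nat_lit 265) (nat_lit 1) (nat_lit 18) (.e true (nat_lit 2) (nat_lit 268) (nat_lit 1) (nat_lit 18) (.e true (nat_lit 1) (nat_lit 270) (nat_lit 1) (nat_lit 18) (.e false (nat_lit 2) (nat_lit 271) (nat_lit 1) (nat_lit 18) (.e true (nat_lit 1) (nat_lit 272) (nat_lit 1) (nat_lit 18) (.e true (nat_lit 2) (nat_lit 273) (nat_lit 1) (nat_lit 18) (.e false (nat_lit 3) (nat_lit 274) (nat_lit 1) (nat_lit 18) (.e false (nat_lit 1) (nat_lit 277) (nat_lit 1) (nat_lit 18) (.e false (nat_lit 2) (nat_lit 278) (nat_lit 1) (nat_lit 18) (.e false (nat_lit 2) (nat_lit 279) (nat_lit 1) (nat_lit 18) (.e true (nat_lit 1) (nat_lit 286) (nat_lit 1) (nat_lit 18) (.e false (nat_lit 2) (nat_lit 287) (nat_lit 1) (nat_lit 18) (.e true (nat_lit 2) (nat_lit 288) (nat_lit 1) (nat_lit 18) (.e true (nat_lit 1) (nat_lit 48) (nat_lit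 18) (nat_lit 5) (.e true (nat_lit 1) (nat_lit 49) (nat_lit 18) (nat_lit 5) (.e false (nat_lit 1) (nat_lit 50) (nat_lit 18) (nat_lit 5) (.e true (nat_lit 1) (nat_lit 309) (nat_lit 0) (nat_lit 19) (.e false (nat_lit 1) (nat_lit 318) (nat_lit 0) (nat_lit 19) (.e false (nat_lit 2) (nat_lit 84) (nat_lit 11) (nat_lit 9) (.e true (nat_lit 1) (nat_lit 86) (nat_lit 11) (nat_lit 9) (.e false (nat_lit 2) (nat_lit 87) (nat_lit 11) (nat_lit 9) (.e false (nat_lit 1) (nat_lit 90) (nat_lit 11) (nat_lit 9) (.e true (nat_lit 1) (nat_lit 92) (nat_lit 11) (nat_lit 9) (.u (nat_lit 2) (.n (nat_lit 0) (nat_lit 4) (.p (nat_lit 1) (nat_lit 2) (.p (nat_lit 2) (nat_lit 1) (.p (nat_lit 3) (nat_lit 1) (.n (nat_lit 4) (nat_lit 5) (.n (nat_lit 5) (nat_lit 1) (.n (nat_lit 6) (nat_lit 1) (.p (nat_lit 7) (nat_lit 1) (.n (nat_lit 9) (nat_lit 2) (.p (nat_lit 10) (nat_lit 1) (.p (nat_lit 11) (nat_lit 1) (.p (nat_lit 12) (nat_lit 4) (.n (nat_lit 14)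 (nat_lit 1) (.p (nat_lit 15) (nat_lit 4) (.p (nat_lit 17) (nat_lit 1) (.p (nat_lit 18) (nat_lit 1) (.n (nat_lit 19) (nat_lit 1) (.n (nat_lit 26) (nat_lit 1) (.n (nat_lit 27) (nat_lit 1) (.n (nat_lit 28) (nat_lit 1) (.p (nat_lit 29) (nat_lit 2) (.n (nat_lit 30) (nat_lit 1) (.n (nat_lit 32) (nat_lit 3) (.p (nat_lit 33) (nat_lit 4) (.n (nat_lit 35) (nat_lit 1) (.p (nat_lit 38) (nat_lit 4) (.p (nat_lit 40) (nat_lit 3) (.p (nat_lit 41) (nat_lit 2) (.n (nat_lit 49) (nat_lit 1) (.n (nat_lit 54) (nat_lit 1) (.p (nat_lit 55) (nat_lit 1) .z))))))))))))))))))))))))))))))) .nil)))))))))))))))))))))))))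

noncomputable def dC1d_i108 : IL := (.e false (nat_lit 1) (nat_lit 265) (nat_lit 2) (nat_lit 13) (.e false (nat_lit 2) (nat_lit 266) (nat_lit 2) (nat_lit 13) (.e false (nat_lit 3) (nat_lit 267) (nat_lit 2) (nat_lit 13) (.e true (nat_lit 2) (nat_lit 268) (nat_lit 2) (nat_lit 13) (.e true (nat_lit 2) (nat_lit 269) (nat_lit 2) (nat_lit 13) (.e false (nat_lit 2) (nat_lit 270) (nat_lit 2) (nat_lit 13) (.e true (nat_lit 1) (nat_lit 273) (nat_lit 2) (nat_lit 13) (.e true (nat_lit 3) (nat_lit 274) (nat_lit 2) (nat_lit 13) (.e true (nat_lit 2) (nat_lit 279) (nat_lit 2) (nat_lit 13) (.e true (nat_lit 2) (nat_lit 280) (nat_lit 2) (nat_lit 13) (.e false (nat_lit 1) (nat_lit 284) (nat_lit 2) (nat_lit 13) (.e false (nat_lit 3) (nat_lit 287) (nat_lit 2) (nat_lit 13) (.e false (nat_lit 2) (nat_lit 260) (nat_lit 2) (nat_lit 13) (.e false (nat_lit 3) (nat_lit 262) (nat_lit 2) (nat_lit 13) (.e true (nat_lit 1) (nat_lit 278) (nat_lit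 2) (nat_lit 13) (.e true (nat_lit 1) (nat_lit 83) (nat_lit 15) (nat_lit 5) (.e false (nat_lit 2) (nat_lit 286) (nat_lit 2) (nat_lit 13) (.e true (nat_lit 2) (nat_lit 189) (nat_lit 4) (nat_lit 11) (.e true (nat_lit 2) (nat_lit 337) (nat_lit 0) (nat_lit 15) (.e true (nat_lit 2) (nat_lit 345) (nat_lit 0) (nat_lit 15) (.e false (nat_lit 2) (nat_lit 63) (nat_lit 18) (nat_lit 3) (.e true (nat_lit 1) (nat_lit 288) (nat_lit 2) (nat_lit 13) (.e true (nat_lit 3) (nat_lit 340) (nat_lit 0) (nat_lit 15) (.e false (nat_lit 3) (nat_lit 148) (nat_lit 6) (nat_lit 9) (.u (nat_lit 2) (.n (nat_lit 0) (nat_lit 1) (.p (nat_lit 1) (nat_lit 1) (.n (nat_lit 2) (nat_lit 4) (.p (nat_lit 3) (nat_lit 3) (.n (nat_lit 4) (nat_lit 1) (.n (nat_lit 5) (nat_lit 3) (.p (nat_lit 6) (nat_lit 4) (.p (nat_lit 7) (nat_lit 4) (.p (nat_lit 8) (nat_lit 1) (.n (nat_lit 9) (nat_lit 3) (.p (nat_lit 10) (nat_lit 3) (.p (nat_lit 12) (nat_lit 2) (.n (nat_lit 15)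 (nat_lit 6) (.n (nat_lit 18) (nat_lit 5) (.n (nat_lit 19) (nat_lit 2) (.p (nat_lit 21) (nat_lit 1) (.n (nat_lit 22) (nat_lit 1) (.n (nat_lit 23) (nat_lit 1) (.p (nat_lit 24) (nat_lit 1) (.p (nat_lit 25) (nat_lit 1) (.p (nat_lit 26) (nat_lit 1) (.p (nat_lit 27) (nat_lit 1) (.p (nat_lit 29) (nat_lit 2) (.p (nat_lit 30) (nat_lit 1) (.p (nat_lit 32) (nat_lit 1) (.p (nat_lit 33) (nat_lit 1) (.p (nat_lit 173) (nat_lit 1) (.n (nat_lit 174) (nat_lit 1) (.p (nat_lit 176) (nat_lit 2) (.n (nat_lit 177) (nat_lit 1) (.n (nat_lit 178) (nat_lit 1) (.p (nat_lit 181) (nat_lit 1) (.p (nat_lit 184) (nat_lit 2) (.n (nat_lit 185) (nat_lit 1) (.p (nat_lit 191) (nat_lit 1) (.p (nat_lit 192) (nat_lit 1) (.n (nat_lit 193) (nat_lit 1) (.n (nat_lit 197) (nat_lit 1) (.n (nat_lit 199) (nat_lit 1) (.n (nat_lit 200) (nat_lit 1) (.n (nat_lit 201) (nat_lit 1) (.p (nat_lit 228) (nat_lit 1) .z)))))))))))))))))))))))))))))))))))))))))) .nil)))))))))))))))))))))))))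

noncomputable def dC1d_i109 : IL := (.e true (nat_lit 1) (nat_lit 340) (nat_lit 1) (nat_lit 14) (.e false (nat_lit 1) (nat_lit 181) (nat_lit 5) (nat_lit 10) (.e false (nat_lit 3) (nat_lit 186) (nat_lit 5) (nat_lit 10) (.e false (nat_lit 3) (nat_lit 191) (nat_lit 5) (nat_lit 10) (.e false (nat_lit 3) (nat_lit 314) (nat_lit 2) (nat_lit 13) (.e false (nat_lit 1) (nat_lit 347) (nat_lit 0) (nat_lit 15) (.e true (nat_lit 2) (nat_lit 348) (nat_lit 0) (nat_lit 15) (.e false (nat_lit 2) (nat_lit 349) (nat_lit 0) (nat_lit 15) (.e true (nat_lit 2) (nat_lit 350) (nat_lit 0) (nat_lit 15) (.e true (nat_lit 1) (nat_lit 352) (nat_lit 0) (nat_lit 15) (.e false (nat_lit 1) (nat_lit 351) (nat_lit 0) (nat_lit 15) (.e false (nat_lit 3) (nat_lit 328) (nat_lit 1) (nat_lit 14) (.e false (nat_lit 3) (nat_lit 330) (nat_lit 1) (nat_lit 14) (.e true (nat_lit 2) (nat_lit 331) (nat_lit 1) (nat_lit 14) (.e true (nat_lit 3) (nat_lit 332) (nat_lit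 1) (nat_lit 14) (.e true (nat_lit 2) (nat_lit 334) (nat_lit 1) (nat_lit 14) (.e false (nat_lit 1) (nat_lit 335) (nat_lit 1) (nat_lit 14) (.e false (nat_lit 2) (nat_lit 337) (nat_lit 1) (nat_lit 14) (.e false (nat_lit 1) (nat_lit 338) (nat_lit 1) (nat_lit 14) (.e true (nat_lit 3) (nat_lit 342) (nat_lit 1) (nat_lit 14) (.e false (nat_lit 2) (nat_lit 74) (nat_lit 18) (nat_lit 3) (.e false (nat_lit 3) (nat_lit 98) (nat_lit 13) (nat_lit 6) (.e false (nat_lit 3) (nat_lit 339) (nat_lit 1) (nat_lit 14) (.u (nat_lit 2) (.n (nat_lit 1) (nat_lit 2) (.n (nat_lit 2) (nat_lit 1) (.n (nat_lit 3) (nat_lit 2) (.p (nat_lit 4) (nat_lit 1) (.p (nat_lit 5) (nat_lit 2) (.n (nat_lit 7) (nat_lit 1) (.p (nat_lit 8) (nat_lit 1) (.p (nat_lit 9) (nat_lit 1) (.p (nat_lit 10) (nat_lit 2) (.p (nat_lit 11) (nat_lit 1) (.n (nat_lit 12) (nat_lit 1) (.n (nat_lit 13) (nat_lit 1) (.n (nat_lit 14) (nat_lit 1) (.p (nat_lit 15) (nat_lit 1) (.p (nat_lit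 17) (nat_lit 1) (.n (nat_lit 19) (nat_lit 1) (.p (nat_lit 22) (nat_lit 2) (.p (nat_lit 29) (nat_lit 1) (.p (nat_lit 33) (nat_lit 2) (.n (nat_lit 63) (nat_lit 1) (.p (nat_lit 65) (nat_lit 1) (.n (nat_lit 67) (nat_lit 1) (.p (nat_lit 68) (nat_lit 1) (.n (nat_lit 74) (nat_lit 1) (.n (nat_lit 78) (nat_lit 1) (.n (nat_lit 82) (nat_lit 1) (.p (nat_lit 83) (nat_lit 1) (.p (nat_lit 85) (nat_lit 1) (.p (nat_lit 87) (nat_lit 2) (.p (nat_lit 88) (nat_lit 1) (.n (nat_lit 91) (nat_lit 1) (.p (nat_lit 92) (nat_lit 1) (.n (nat_lit 111) (nat_lit 1) (.p (nat_lit 113) (nat_lit 1) (.n (nat_lit 117) (nat_lit 1) (.n (nat_lit 118) (nat_lit 1) (.p (nat_lit 122) (nat_lit 1) (.p (nat_lit 123) (nat_lit 1) (.p (nat_lit 127) (nat_lit 1) (.p (nat_lit 129) (nat_lit 2) (.p (nat_lit 130) (nat_lit 1) (.p (nat_lit 131) (nat_lit 1) (.n (nat_lit 132) (nat_lit 1) (.n (nat_lit 133) (nat_lit 2) (.n (nat_lit 135) (nat_lit 2) (.n (nat_lit 136) (nat_lit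 1) (.p (nat_lit 138) (nat_lit 1) (.p (nat_lit 139) (nat_lit 2) (.p (nat_lit 143) (nat_lit 2) (.p (nat_lit 145) (nat_lit 3) (.p (nat_lit 147) (nat_lit 1) (.p (nat_lit 148) (nat_lit 1) (.p (nat_lit 149) (nat_lit 3) (.p (nat_lit 151) (nat_lit 1) (.p (nat_lit 152) (nat_lit 1) (.p (nat_lit 153) (nat_lit 2) (.p (nat_lit 154) (nat_lit 1) (.p (nat_lit 155) (nat_lit 1) (.n (nat_lit 156) (nat_lit 1) (.n (nat_lit 157) (nat_lit 1) .z)))))))))))))))))))))))))))))))))))))))))))))))))))))))))))) (.u (nat_lit 2) (.n (nat_lit 159) (nat_lit 1) (.n (nat_lit 161) (nat_lit 1) (.n (nat_lit 163) (nat_lit 1) (.p (nat_lit 164) (nat_lit 1) (.p (nat_lit 165) (nat_lit 1) (.p (nat_lit 167) (nat_lit 2) (.n (nat_lit 170) (nat_lit 1) (.n (nat_lit 172) (nat_lit 1) (.n (nat_lit 173) (nat_lit 2) (.p (nat_lit 174) (nat_lit 6) (.p (nat_lit 175) (nat_lit 2) (.p (nat_lit 176) (nat_lit 4) (.n (nat_lit 177) (nat_lit 1) (.n (nat_lit 178) (nat_lit 1) (.p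 (nat_lit 179) (nat_lit 9) (.p (nat_lit 181) (nat_lit 1) (.n (nat_lit 182) (nat_lit 4) (.p (nat_lit 183) (nat_lit 1) (.p (nat_lit 184) (nat_lit 14) (.n (nat_lit 185) (nat_lit 1) (.n (nat_lit 186) (nat_lit 5) (.p (nat_lit 187) (nat_lit 15) (.p (nat_lit 189) (nat_lit 1) (.p (nat_lit 190) (nat_lit 5) (.n (nat_lit 191) (nat_lit 2) (.p (nat_lit 193) (nat_lit 13) (.p (nat_lit 194) (nat_lit 2) (.p (nat_lit 195) (nat_lit 2) (.p (nat_lit 198) (nat_lit 2) (.p (nat_lit 199) (nat_lit 5) (.p (nat_lit 200) (nat_lit 3) (.n (nat_lit 201) (nat_lit 2) (.n (nat_lit 202) (nat_lit 1) (.n (nat_lit 203) (nat_lit 3) (.p (nat_lit 204) (nat_lit 5) (.p (nat_lit 205) (nat_lit 2) (.n (nat_lit 206) (nat_lit 1) (.p (nat_lit 207) (nat_lit 5) (.n (nat_lit 208) (nat_lit 3) (.n (nat_lit 209) (nat_lit 2) (.n (nat_lit 210) (nat_lit 5) (.n (nat_lit 211) (nat_lit 2) (.n (nat_lit 213) (nat_lit 7) (.n (nat_lit 214) (nat_lit 2) (.n (nat_lit 215) (nat_lit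 3) (.p (nat_lit 216) (nat_lit 1) (.p (nat_lit 218) (nat_lit 1) (.n (nat_lit 221) (nat_lit 1) (.p (nat_lit 223) (nat_lit 1) (.n (nat_lit 224) (nat_lit 2) (.p (nat_lit 225) (nat_lit 5) (.p (nat_lit 226) (nat_lit 1) (.n (nat_lit 227) (nat_lit 3) (.p (nat_lit 229) (nat_lit 2) .z)))))))))))))))))))))))))))))))))))))))))))))))))))))) .nil)))))))))))))))))))))))))

noncomputable def dC1d_i110 : IL := (.s true (nat_lit 1) (nat_lit 85) (nat_lit 2) (nat_lit 1) (nat_lit 2) true (nat_lit 9) true (nat_lit 13) false (nat_lit 4) true (nat_lit 13) true (nat_lit 14) (.s true (nat_lit 2) (nat_lit 87) (nat_lit 2) (nat_lit 1) (nat_lit 2) true (nat_lit 9) true (nat_lit 13) false (nat_lit 4) true (nat_lit 13) true (nat_lit 14) (.s true (nat_lit 2) (nat_lit 90) (nat_lit 2) (nat_lit 1) (nat_lit 2) true (nat_lit 9) true (nat_lit 13) false (nat_lit 4) true (nat_lit 13) true (nat_lit 14) (.s true (nat_lit 3) (nat_lit 91) (nat_lit 2) (nat_lit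 1) (nat_lit 2) true (nat_lit 9) true (nat_lit 13) false (nat_lit 4) true (nat_lit 13) true (nat_lit 14) (.s true (nat_lit 1) (nat_lit 92) (nat_lit 2) (nat_lit 1) (nat_lit 2) true (nat_lit 9) true (nat_lit 13) false (nat_lit 4) true (nat_lit 13) true (nat_lit 14) (.s true (nat_lit 2) (nat_lit 82) (nat_lit 2) (nat_lit 2) (nat_lit 1) true (nat_lit 10) true (nat_lit 14) false (nat_lit 4) true (nat_lit 13) true (nat_lit 13) (.s true (nat_lit 1) (nat_lit 84) (nat_lit 2) (nat_lit 2) (nat_lit 1) true (nat_lit 10) true (nat_lit 14) false (nat_lit 4) true (nat_lit 13) true (nat_lit 13) (.s false (nat_lit 1) (nat_lit 86) (nat_lit 2) (nat_lit 2) (nat_lit 1) true (nat_lit 10) true (nat_lit 14) false (nat_lit 4) true (nat_lit 13) true (nat_lit 13) (.s true (nat_lit 1) (nat_lit 87) (nat_lit 2) (nat_lit 2) (nat_lit 1) true (nat_lit 10) true (nat_lit 14) false (nat_lit 4) true (nat_lit 13) true (nat_lit 13) (.s false (nat_lit 3)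 (nat_lit 88) (nat_lit 2) (nat_lit 2) (nat_lit 1) true (nat_lit 10) true (nat_lit 14) false (nat_lit 4) true (nat_lit 13) true (nat_lit 13) (.s true (nat_lit 3) (nat_lit 89) (nat_lit 2) (nat_lit 2) (nat_lit 1) true (nat_lit 10) true (nat_lit 14) false (nat_lit 4) true (nat_lit 13) true (nat_lit 13) (.s true (nat_lit 1) (nat_lit 92) (nat_lit 2) (nat_lit 2) (nat_lit 1) true (nat_lit 10) true (nat_lit 14) false (nat_lit 4) true (nat_lit 13) true (nat_lit 13) (.s false (nat_lit 1) (nat_lit 99) (nat_lit 2) (nat_lit 1) (nat_lit 1) true (nat_lit 10) true (nat_lit 14) false (nat_lit 6) true (nat_lit 13) true (nat_lit 14) (.s true (nat_lit 2) (nat_lit 100) (nat_lit 2) (nat_lit 1) (nat_lit 1) true (nat_lit 10) true (nat_lit 14) false (nat_lit 6) true (nat_lit 13) true (nat_lit 14) (.s false (nat_lit 3) (nat_lit 101) (nat_lit 2) (nat_lit 1) (nat_lit 1) true (nat_lit 10) true (nat_lit 14) false (nat_lit 6) true (nat_lit 13)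 true (nat_lit 14) (.s true (nat_lit 2) (nat_lit 104) (nat_lit 0) (nat_lit 2) (nat_lit 1) true (nat_lit 12) true (nat_lit 14) false (nat_lit 7) true (nat_lit 15) true (nat_lit 13) (.s true (nat_lit 2) (nat_lit 106) (nat_lit 1) (nat_lit 0) (nat_lit 1) false (nat_lit 16) true (nat_lit 14) false (nat_lit 8) true (nat_lit 14) true (nat_lit 15) (.s false (nat_lit 3) (nat_lit 106) (nat_lit 1) (nat_lit 1) (nat_lit 0) true (nat_lit 12) true (nat_lit 15) false (nat_lit 8) true (nat_lit 14) true (nat_lit 14) (.e true (nat_lit 2) (nat_lit 172) (nat_lit 6) (nat_lit 9) (.e false (nat_lit 2) (nat_lit 307) (nat_lit 2) (nat_lit 13) (.e false (nat_lit 2) (nat_lit 292) (nat_lit 2) (nat_lit 13) (.e true (nat_lit 1) (nat_lit 312) (nat_lit 2) (nat_lit 13) (.e true (nat_lit 2) (nat_lit 316) (nat_lit 2) (nat_lit 13) (.e false (nat_lit 3) (nat_lit 318) (nat_lit 2) (nat_lit 13) (.e true (nat_lit 2) (nat_lit 336) (nat_lit 1) (nat_lit 14)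 dC1d_i109)))))))))))))))))))))))))

noncomputable def dC1d_i111 : IL := (.s true (nat_lit 2) (nat_lit 33) (nat_lit 6) (nat_lit 1) (nat_lit 2) true (nat_lit 3) true (nat_lit 13) true (nat_lit 1) true (nat_lit 9) true (nat_lit 14) (.s false (nat_lit 3) (nat_lit 40) (nat_lit 1) (nat_lit 2) (nat_lit 5) true (nat_lit 6) true (nat_lit 10) false (nat_lit 0) true (nat_lit 14) true (nat_lit 13) (.s false (nat_lit 3) (nat_lit 40) (nat_lit 5) (nat_lit 1) (nat_lit 2) true (nat_lit 4) true (nat_lit 13) false (nat_lit 0) true (nat_lit 10) true (nat_lit 14) (.s true (nat_lit 3) (nat_lit 42) (nat_lit 6) (nat_lit 1) (nat_lit 1) true (nat_lit 4) true (nat_lit 14) false (nat_lit 0) true (nat_lit 9) true (nat_lit 14) (.s false (nat_lit 2) (nat_lit 45) (nat_lit 3) (nat_lit 2) (nat_lit 2) true (nat_lit 7) true (nat_lit 13) false (nat_lit 1) true (nat_lit 12) true (nat_lit 13) (.s false (nat_lit 3) (nat_lit 46) (nat_lit 1) (nat_lit 0)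 (nat_lit 5) true (nat_lit 6) true (nat_lit 10) false (nat_lit 2) true (nat_lit 14) true (nat_lit 15) (.s true (nat_lit 2) (nat_lit 46) (nat_lit 2) (nat_lit 3) (nat_lit 1) true (nat_lit 10) true (nat_lit 14) false (nat_lit 2) true (nat_lit 13) true (nat_lit 12) (.s false (nat_lit 2) (nat_lit 46) (nat_lit 4) (nat_lit 1) (nat_lit 1) true (nat_lit 7) true (nat_lit 14) false (nat_lit 2) true (nat_lit 11) true (nat_lit 14) (.s false (nat_lit 3) (nat_lit 46) (nat_lit 5) (nat_lit 1) (nat_lit 0) true (nat_lit 7) true (nat_lit 15) false (nat_lit 2) true (nat_lit 10) true (nat_lit 14) (.s false (nat_lit 3) (nat_lit 70) (nat_lit 2) (nat_lit 2) (nat_lit 2) true (nat_lit 9) true (nat_lit 13) false (nat_lit 3) true (nat_lit 13) true (nat_lit 13) (.s true (nat_lit 2) (nat_lit 72) (nat_lit 2) (nat_lit 2) (nat_lit 2) true (nat_lit 9) true (nat_lit 13) false (nat_lit 3) true (nat_lit 13) true (nat_lit 13) (.s false (nat_lit 2) (nat_lit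 75) (nat_lit 2) (nat_lit 2) (nat_lit 2) true (nat_lit 9) true (nat_lit 13) false (nat_lit 3) true (nat_lit 13) true (nat_lit 13) (.s false (nat_lit 2) (nat_lit 76) (nat_lit 2) (nat_lit 2) (nat_lit 2) true (nat_lit 9) true (nat_lit 13) false (nat_lit 3) true (nat_lit 13) true (nat_lit 13) (.s false (nat_lit 2) (nat_lit 82) (nat_lit 1) (nat_lit 2) (nat_lit 2) true (nat_lit 10) true (nat_lit 13) false (nat_lit 4) true (nat_lit 14) true (nat_lit 13) (.s false (nat_lit 1) (nat_lit 83) (nat_lit 1) (nat_lit 2) (nat_lit 2) true (nat_lit 10) true (nat_lit 13) false (nat_lit 4) true (nat_lit 14) true (nat_lit 13) (.s true (nat_lit 1) (nat_lit 84) (nat_lit 1) (nat_lit 2) (nat_lit 2) true (nat_lit 10) true (nat_lit 13) false (nat_lit 4) true (nat_lit 14) true (nat_lit 13) (.s false (nat_lit 1) (nat_lit 85) (nat_lit 1) (nat_lit 2) (nat_lit 2) true (nat_lit 10) true (nat_lit 13) false (nat_lit 4) true (nat_lit 14) true (nat_lit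 13) (.s true (nat_lit 3) (nat_lit 86) (nat_lit 1) (nat_lit 2) (nat_lit 2) true (nat_lit 10) true (nat_lit 13) false (nat_lit 4) true (nat_lit 14) true (nat_lit 13) (.s true (nat_lit 1) (nat_lit 87) (nat_lit 1) (nat_lit 2) (nat_lit 2) true (nat_lit 10) true (nat_lit 13) false (nat_lit 4) true (nat_lit 14) true (nat_lit 13) (.s true (nat_lit 3) (nat_lit 88) (nat_lit 1) (nat_lit 2) (nat_lit 2) true (nat_lit 10) true (nat_lit 13) false (nat_lit 4) true (nat_lit 14) true (nat_lit 13) (.s false (nat_lit 3) (nat_lit 89) (nat_lit 1) (nat_lit 2) (nat_lit 2) true (nat_lit 10) true (nat_lit 13) false (nat_lit 4) true (nat_lit 14) true (nat_lit 13) (.s false (nat_lit 1) (nat_lit 90) (nat_lit 1) (nat_lit 2) (nat_lit 2) true (nat_lit 10) true (nat_lit 13) false (nat_lit 4) true (nat_lit 14) true (nat_lit 13) (.s false (nat_lit 2) (nat_lit 91) (nat_lit 1) (nat_lit 2) (nat_lit 2) true (nat_lit 10) true (nat_lit 13) false (nat_lit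 4) true (nat_lit 14) true (nat_lit 13) (.s false (nat_lit 3) (nat_lit 82) (nat_lit 2) (nat_lit 1) (nat_lit 2) true (nat_lit 9) true (nat_lit 13) false (nat_lit 4) true (nat_lit 13) true (nat_lit 14) (.s false (nat_lit 2) (nat_lit 83) (nat_lit 2) (nat_lit 1) (nat_lit 2) true (nat_lit 9) true (nat_lit 13) false (nat_lit 4) true (nat_lit 13) true (nat_lit 14) dC1d_i110)))))))))))))))))))))))))

noncomputable def dC1d_i112 : IL := (.s false (nat_lit 2) (nat_lit 18) (nat_lit 2) (nat_lit 10) (nat_lit 1) true (nat_lit 10) true (nat_lit 14) true (nat_lit 3) true (nat_lit 13) true (nat_lit 7) (.s true (nat_lit 3) (nat_lit 18) (nat_lit 2) (nat_lit 11) (nat_lit 1) true (nat_lit 10) true (nat_lit 14) true (nat_lit 3) true (nat_lit 13) true (nat_lit 7) (.s false (nat_lit 3) (nat_lit 18) (nat_lit 3) (nat_lit 6) (nat_lit 1) true (nat_lit 8) true (nat_lit 14) true (nat_lit 3) true (nat_lit 12) true (nat_lit 9) (.s false (nat_lit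 1) (nat_lit 18) (nat_lit 6) (nat_lit 3) (nat_lit 1) true (nat_lit 4) true (nat_lit 14) true (nat_lit 3) true (nat_lit 9) true (nat_lit 12) (.s false (nat_lit 2) (nat_lit 18) (nat_lit 8) (nat_lit 2) (nat_lit 2) true (nat_lit 2) true (nat_lit 13) true (nat_lit 3) true (nat_lit 8) true (nat_lit 13) (.s true (nat_lit 1) (nat_lit 18) (nat_lit 11) (nat_lit 1) (nat_lit 2) true (nat_lit 1) true (nat_lit 13) true (nat_lit 3) true (nat_lit 7) true (nat_lit 14) (.s false (nat_lit 3) (nat_lit 24) (nat_lit 2) (nat_lit 2) (nat_lit 6) true (nat_lit 3) true (nat_lit 9) true (nat_lit 2) true (nat_lit 13) true (nat_lit 13) (.s true (nat_lit 2) (nat_lit 25) (nat_lit 2) (nat_lit 2) (nat_lit 6) true (nat_lit 3) true (nat_lit 9) true (nat_lit 2) true (nat_lit 13) true (nat_lit 13) (.s false (nat_lit 2) (nat_lit 26) (nat_lit 2) (nat_lit 2) (nat_lit 6) true (nat_lit 3) true (nat_lit 9) true (nat_lit 2) true (nat_lit 13) true (nat_lit 13)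 (.s false (nat_lit 3) (nat_lit 25) (nat_lit 2) (nat_lit 6) (nat_lit 2) true (nat_lit 9) true (nat_lit 13) true (nat_lit 2) true (nat_lit 13) true (nat_lit 9) (.s false (nat_lit 2) (nat_lit 26) (nat_lit 2) (nat_lit 6) (nat_lit 2) true (nat_lit 9) true (nat_lit 13) true (nat_lit 2) true (nat_lit 13) true (nat_lit 9) (.s false (nat_lit 2) (nat_lit 25) (nat_lit 6) (nat_lit 2) (nat_lit 2) true (nat_lit 3) true (nat_lit 13) true (nat_lit 2) true (nat_lit 9) true (nat_lit 13) (.s false (nat_lit 2) (nat_lit 34) (nat_lit 1) (nat_lit 2) (nat_lit 6) true (nat_lit 4) true (nat_lit 9) true (nat_lit 1) true (nat_lit 14) true (nat_lit 13) (.s false (nat_lit 2) (nat_lit 32) (nat_lit 1) (nat_lit 6) (nat_lit 2) true (nat_lit 10) true (nat_lit 13) true (nat_lit 1) true (nat_lit 14) true (nat_lit 9) (.s true (nat_lit 1) (nat_lit 31) (nat_lit 2) (nat_lit 1) (nat_lit 6) true (nat_lit 3) true (nat_lit 9) true (nat_lit 1) true (nat_lit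 13) true (nat_lit 14) (.s false (nat_lit 3) (nat_lit 34) (nat_lit 2) (nat_lit 1) (nat_lit 6) true (nat_lit 3) true (nat_lit 9) true (nat_lit 1) true (nat_lit 13) true (nat_lit 14) (.s false (nat_lit 1) (nat_lit 36) (nat_lit 2) (nat_lit 1) (nat_lit 6) true (nat_lit 3) true (nat_lit 9) true (nat_lit 1) true (nat_lit 13) true (nat_lit 14) (.s false (nat_lit 1) (nat_lit 31) (nat_lit 2) (nat_lit 2) (nat_lit 5) true (nat_lit 4) true (nat_lit 10) true (nat_lit 1) true (nat_lit 13) true (nat_lit 13) (.s true (nat_lit 1) (nat_lit 32) (nat_lit 2) (nat_lit 2) (nat_lit 5) true (nat_lit 4) true (nat_lit 10) true (nat_lit 1) true (nat_lit 13) true (nat_lit 13) (.s false (nat_lit 1) (nat_lit 34) (nat_lit 2) (nat_lit 2) (nat_lit 5) true (nat_lit 4) true (nat_lit 10) true (nat_lit 1) true (nat_lit 13) true (nat_lit 13) (.s false (nat_lit 1) (nat_lit 36) (nat_lit 2) (nat_lit 2) (nat_lit 5) true (nat_lit 4) true (nat_lit 10) true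 (nat_lit 1) true (nat_lit 13) true (nat_lit 13) (.s true (nat_lit 1) (nat_lit 32) (nat_lit 2) (nat_lit 5) (nat_lit 2) true (nat_lit 9) true (nat_lit 13) true (nat_lit 1) true (nat_lit 13) true (nat_lit 10) (.s true (nat_lit 2) (nat_lit 31) (nat_lit 2) (nat_lit 6) (nat_lit 1) true (nat_lit 10) true (nat_lit 14) true (nat_lit 1) true (nat_lit 13) true (nat_lit 9) (.s false (nat_lit 1) (nat_lit 32) (nat_lit 5) (nat_lit 2) (nat_lit 2) true (nat_lit 4) true (nat_lit 13) true (nat_lit 1) true (nat_lit 10) true (nat_lit 13) (.s false (nat_lit 3) (nat_lit 33) (nat_lit 5) (nat_lit 2) (nat_lit 2) true (nat_lit 4) true (nat_lit 13) true (nat_lit 1) true (nat_lit 10) true (nat_lit 13) dC1d_i111)))))))))))))))))))))))))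

noncomputable def dC1d_i113 : IL := (.s true (nat_lit 3) (nat_lit 11) (nat_lit 6) (nat_lit 6) (nat_lit 1) true (nat_lit 4) true (nat_lit 14) true (nat_lit 7) true (nat_lit 9) true (nat_lit 9) (.s true (nat_lit 3) (nat_lit 14) (nat_lit 5) (nat_lit 2) (nat_lit 5) true (nat_lit 0) true (nat_lit 10) true (nat_lit 5) true (nat_lit 10) true (nat_lit 13) (.s false (nat_lit 3) (nat_lit 14) (nat_lit 13) (nat_lit 2) (nat_lit 2) true (nat_lit 0) true (nat_lit 13) true (nat_lit 5) true (nat_lit 6) true (nat_lit 13) (.s true (nat_lit 3) (nat_lit 16) (nat_lit 0) (nat_lit 16) (nat_lit 2) true (nat_lit 11) true (nat_lit 13) true (nat_lit 4) true (nat_lit 15) true (nat_lit 4) (.s true (nat_lit 1) (nat_lit 17) (nat_lit 0) (nat_lit 16) (nat_lit 2) true (nat_lit 11) true (nat_lit 13) true (nat_lit 4) true (nat_lit 15) true (nat_lit 4) (.s false (nat_lit 3) (nat_lit 17) (nat_lit 0) (nat_lit 17) (nat_lit 2) true (nat_lit 11) true (nat_lit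 13) true (nat_lit 4) true (nat_lit 15) true (nat_lit 4) (.s false (nat_lit 3) (nat_lit 16) (nat_lit 1) (nat_lit 14) (nat_lit 2) true (nat_lit 10) true (nat_lit 13) true (nat_lit 4) true (nat_lit 14) true (nat_lit 5) (.s false (nat_lit 2) (nat_lit 17) (nat_lit 2) (nat_lit 2) (nat_lit 10) true (nat_lit 1) true (nat_lit 7) true (nat_lit 4) true (nat_lit 13) true (nat_lit 13) (.s false (nat_lit 2) (nat_lit 17) (nat_lit 2) (nat_lit 2) (nat_lit 12) true (nat_lit 1) true (nat_lit 7) true (nat_lit 4) true (nat_lit 13) true (nat_lit 13) (.s false (nat_lit 3) (nat_lit 17) (nat_lit 2) (nat_lit 12) (nat_lit 2) true (nat_lit 9) true (nat_lit 13) true (nat_lit 4) true (nat_lit 13) true (nat_lit 7) (.s false (nat_lit 1) (nat_lit 16) (nat_lit 3) (nat_lit 6) (nat_lit 2) true (nat_lit 7) true (nat_lit 13) true (nat_lit 4) true (nat_lit 12) true (nat_lit 9) (.s false (nat_lit 1) (nat_lit 17) (nat_lit 6) (nat_lit 3) (nat_lit 2) true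 (nat_lit 3) true (nat_lit 13) true (nat_lit 4) true (nat_lit 9) true (nat_lit 12) (.s true (nat_lit 3) (nat_lit 16) (nat_lit 12) (nat_lit 2) (nat_lit 2) true (nat_lit 1) true (nat_lit 13) true (nat_lit 4) true (nat_lit 7) true (nat_lit 13) (.s false (nat_lit 2) (nat_lit 18) (nat_lit 0) (nat_lit 16) (nat_lit 1) true (nat_lit 12) true (nat_lit 14) true (nat_lit 3) true (nat_lit 15) true (nat_lit 4) (.s true (nat_lit 3) (nat_lit 18) (nat_lit 1) (nat_lit 0) (nat_lit 17) true (nat_lit 0) true (nat_lit 4) true (nat_lit 3) true (nat_lit 14) true (nat_lit 15) (.s true (nat_lit 3) (nat_lit 18) (nat_lit 1) (nat_lit 3) (nat_lit 6) true (nat_lit 4) true (nat_lit 9) true (nat_lit 3) true (nat_lit 14) true (nat_lit 12) (.s false (nat_lit 2) (nat_lit 18) (nat_lit 1) (nat_lit 4) (nat_lit 5) true (nat_lit 6) true (nat_lit 10) true (nat_lit 3) true (nat_lit 14) true (nat_lit 11) (.s false (nat_lit 1) (nat_lit 18) (nat_lit 1) (nat_lit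 5) (nat_lit 4) true (nat_lit 7) true (nat_lit 11) true (nat_lit 3) true (nat_lit 14) true (nat_lit 10) (.s false (nat_lit 1) (nat_lit 18) (nat_lit 1) (nat_lit 6) (nat_lit 3) true (nat_lit 8) true (nat_lit 12) true (nat_lit 3) true (nat_lit 14) true (nat_lit 9) (.s false (nat_lit 3) (nat_lit 18) (nat_lit 1) (nat_lit 10) (nat_lit 2) true (nat_lit 10) true (nat_lit 13) true (nat_lit 3) true (nat_lit 14) true (nat_lit 7) (.s true (nat_lit 3) (nat_lit 18) (nat_lit 1) (nat_lit 12) (nat_lit 2) true (nat_lit 10) true (nat_lit 13) true (nat_lit 3) true (nat_lit 14) true (nat_lit 7) (.s false (nat_lit 3) (nat_lit 18) (nat_lit 1) (nat_lit 14) (nat_lit 1) false (nat_lit 16) true (nat_lit 14) true (nat_lit 3) true (nat_lit 14) true (nat_lit 5) (.s true (nat_lit 2) (nat_lit 18) (nat_lit 2) (nat_lit 1) (nat_lit 10) true (nat_lit 1) true (nat_lit 7) true (nat_lit 3) true (nat_lit 13) true (nat_lit 14) (.s false (nat_lit 3) (nat_lit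 18) (nat_lit 2) (nat_lit 1) (nat_lit 11) true (nat_lit 1) true (nat_lit 7) true (nat_lit 3) true (nat_lit 13) true (nat_lit 14) (.s true (nat_lit 2) (nat_lit 18) (nat_lit 2) (nat_lit 2) (nat_lit 8) true (nat_lit 2) true (nat_lit 8) true (nat_lit 3) true (nat_lit 13) true (nat_lit 13) dC1d_i112)))))))))))))))))))))))))

noncomputable def dC1d_i114 : IL := (.e true (nat_lit 1) (nat_lit 270) (nat_lit 2) (nat_lit 13) (.e true (nat_lit 3) (nat_lit 271) (nat_lit 2) (nat_lit 13) (.e false (nat_lit 1) (nat_lit 272) (nat_lit 2) (nat_lit 13) (.e true (nat_lit 1) (nat_lit 273) (nat_lit 2) (nat_lit 13) (.e false (nat_lit 2) (nat_lit 274) (nat_lit 2) (nat_lit 13) (.e true (nat_lit 1) (nat_lit 277) (nat_lit 2) (nat_lit 13) (.e true (nat_lit 2) (nat_lit 278) (nat_lit 2) (nat_lit 13) (.e true (nat_lit 3) (nat_lit 279) (nat_lit 2) (nat_lit 13) (.e false (nat_lit 1) (nat_lit 280) (nat_lit 2) (nat_lit 13) (.e false (nat_lit 1) (nat_lit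 281) (nat_lit 2) (nat_lit 13) (.e false (nat_lit 2) (nat_lit 283) (nat_lit 2) (nat_lit 13) (.e true (nat_lit 2) (nat_lit 284) (nat_lit 2) (nat_lit 13) (.e false (nat_lit 3) (nat_lit 286) (nat_lit 2) (nat_lit 13) (.e true (nat_lit 1) (nat_lit 288) (nat_lit 2) (nat_lit 13) (.e true (nat_lit 1) (nat_lit 289) (nat_lit 2) (nat_lit 13) (.e true (nat_lit 1) (nat_lit 132) (nat_lit 6) (nat_lit 9) (.e false (nat_lit 1) (nat_lit 133) (nat_lit 6) (nat_lit 9) (.e true (nat_lit 2) (nat_lit 134) (nat_lit 6) (nat_lit 9) (.e true (nat_lit 1) (nat_lit 135) (nat_lit 6) (nat_lit 9) (.e false (nat_lit 1) (nat_lit 138) (nat_lit 6) (nat_lit 9) (.e true (nat_lit 1) (nat_lit 139) (nat_lit 6) (nat_lit 9) (.e true (nat_lit 1) (nat_lit 140) (nat_lit 6) (nat_lit 9) (.e true (nat_lit 1) (nat_lit 141) (nat_lit 6) (nat_lit 9) (.e false (nat_lit 2) (nat_lit 142) (nat_lit 6) (nat_lit 9) (.u (nat_lit 2) (.p (nat_lit 1) (nat_lit 4) (.n (nat_lit 2)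 (nat_lit 4) (.p (nat_lit 3) (nat_lit 5) (.p (nat_lit 5) (nat_lit 1) (.n (nat_lit 6) (nat_lit 2) (.n (nat_lit 7) (nat_lit 2) (.p (nat_lit 8) (nat_lit 2) (.n (nat_lit 9) (nat_lit 3) (.n (nat_lit 10) (nat_lit 2) (.p (nat_lit 12) (nat_lit 3) (.n (nat_lit 13) (nat_lit 1) (.n (nat_lit 15) (nat_lit 6) (.p (nat_lit 16) (nat_lit 3) (.n (nat_lit 17) (nat_lit 2) (.p (nat_lit 18) (nat_lit 1) (.p (nat_lit 19) (nat_lit 2) (.p (nat_lit 20) (nat_lit 1) (.n (nat_lit 22) (nat_lit 3) (.n (nat_lit 24) (nat_lit 2) (.p (nat_lit 25) (nat_lit 1) (.n (nat_lit 26) (nat_lit 1) (.n (nat_lit 27) (nat_lit 1) (.n (nat_lit 28) (nat_lit 1) (.n (nat_lit 30) (nat_lit 3) (.n (nat_lit 33) (nat_lit 1) .z))))))))))))))))))))))))) .nil)))))))))))))))))))))))))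

noncomputable def dC1d_i115 : IL := (.e true (nat_lit 3) (nat_lit 331) (nat_lit 1) (nat_lit 14) (.e true (nat_lit 2) (nat_lit 332) (nat_lit 1) (nat_lit 14) (.e true (nat_lit 3) (nat_lit 336) (nat_lit 1) (nat_lit 14) (.e true (nat_lit 2) (nat_lit 337) (nat_lit 1) (nat_lit 14) (.e true (nat_lit 2) (nat_lit 338) (nat_lit 1) (nat_lit 14) (.e false (nat_lit 1) (nat_lit 340) (nat_lit 1) (nat_lit 14) (.e false (nat_lit 1) (nat_lit 346) (nat_lit 1) (nat_lit 14) (.e true (nat_lit 1) (nat_lit 329) (nat_lit 1) (nat_lit 14) (.e false (nat_lit 1) (nat_lit 46) (nat_lit 27) (nat_lit 2) (.e true (nat_lit 3) (nat_lit 348) (nat_lit 0) (nat_lit 15) (.e false (nat_lit 2) (nat_lit 349) (nat_lit 0) (nat_lit 15) (.e true (nat_lit 3) (nat_lit 350) (nat_lit 0) (nat_lit 15) (.e false (nat_lit 2) (nat_lit 352) (nat_lit 0) (nat_lit 15) (.e true (nat_lit 1) (nat_lit 353) (nat_lit 0) (nat_lit 15) (.e false (nat_lit 1) (nat_lit 180) (nat_lit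 5) (nat_lit 10) (.e true (nat_lit 1) (nat_lit 182) (nat_lit 5) (nat_lit 10) (.e true (nat_lit 3) (nat_lit 183) (nat_lit 5) (nat_lit 10) (.e true (nat_lit 2) (nat_lit 185) (nat_lit 5) (nat_lit 10) (.e true (nat_lit 2) (nat_lit 187) (nat_lit 5) (nat_lit 10) (.e true (nat_lit 1) (nat_lit 188) (nat_lit 5) (nat_lit 10) (.e true (nat_lit 3) (nat_lit 190) (nat_lit 5) (nat_lit 10) (.e false (nat_lit 1) (nat_lit 192) (nat_lit 5) (nat_lit 10) (.e true (nat_lit 2) (nat_lit 186) (nat_lit 5) (nat_lit 10) (.e false (nat_lit 2) (nat_lit 189) (nat_lit 5) (nat_lit 10) (.u (nat_lit 2) (.n (nat_lit 0) (nat_lit 2) (.n (nat_lit 1) (nat_lit 3) (.n (nat_lit 2) (nat_lit 1) (.n (nat_lit 3) (nat_lit 3) (.n (nat_lit 4) (nat_lit 1) (.n (nat_lit 5) (nat_lit 1) (.p (nat_lit 6) (nat_lit 2) (.n (nat_lit 8) (nat_lit 1) (.n (nat_lit 11) (nat_lit 3) (.p (nat_lit 12) (nat_lit 3) (.n (nat_lit 13) (nat_lit 1) (.n (nat_lit 14) (nat_lit 1) (.n (nat_lit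 15) (nat_lit 2) (.p (nat_lit 16) (nat_lit 4) (.n (nat_lit 18) (nat_lit 1) (.n (nat_lit 19) (nat_lit 3) (.p (nat_lit 20) (nat_lit 1) (.n (nat_lit 21) (nat_lit 2) (.n (nat_lit 22) (nat_lit 3) (.p (nat_lit 23) (nat_lit 1) (.n (nat_lit 27) (nat_lit 1) (.n (nat_lit 29) (nat_lit 1) (.p (nat_lit 30) (nat_lit 1) (.p (nat_lit 32) (nat_lit 3) (.n (nat_lit 33) (nat_lit 1) (.p (nat_lit 156) (nat_lit 1) (.p (nat_lit 206) (nat_lit 1) (.p (nat_lit 213) (nat_lit 1) .z)))))))))))))))))))))))))))) .nil)))))))))))))))))))))))))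

noncomputable def dC1d_i116 : IL := (.e false (nat_lit 2) (nat_lit 151) (nat_lit 2) (nat_lit 10) (.e false (nat_lit 1) (nat_lit 152) (nat_lit 2) (nat_lit 10) (.e false (nat_lit 1) (nat_lit 132) (nat_lit 2) (nat_lit 10) (.e false (nat_lit 3) (nat_lit 136) (nat_lit 2) (nat_lit 10) (.e true (nat_lit 1) (nat_lit 31) (nat_lit 14) (nat_lit 2) (.e true (nat_lit 2) (nat_lit 32) (nat_lit 14) (nat_lit 2) (.e false (nat_lit 3) (nat_lit 140) (nat_lit 2) (nat_lit 10) (.e true (nat_lit 1) (nat_lit 148) (nat_lit 2) (nat_lit 10) (.e true (nat_lit 3) (nat_lit 181) (nat_lit 0) (nat_lit 12) (.e false (nat_lit 3) (nat_lit 184) (nat_lit 0) (nat_lit 12) (.e false (nat_lit 3) (nat_lit 185) (nat_lit 0) (nat_lit 12) (.e true (nat_lit 2) (nat_lit 188) (nat_lit 0) (nat_lit 12) (.e true (nat_lit 3) (nat_lit 189) (nat_lit 0) (nat_lit 12) (.e false (nat_lit 3) (nat_lit 192) (nat_lit 0) (nat_lit 12) (.e false (nat_lit 1) (nat_lit 193) (nat_lit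 0) (nat_lit 12) (.e false (nat_lit 3) (nat_lit 32) (nat_lit 15) (nat_lit 2) (.e true (nat_lit 1) (nat_lit 41) (nat_lit 10) (nat_lit 3) (.e false (nat_lit 2) (nat_lit 46) (nat_lit 7) (nat_lit 5) (.e false (nat_lit 3) (nat_lit 183) (nat_lit 0) (nat_lit 12) (.e false (nat_lit 3) (nat_lit 186) (nat_lit 0) (nat_lit 12) (.e false (nat_lit 2) (nat_lit 187) (nat_lit 0) (nat_lit 12) (.e false (nat_lit 1) (nat_lit 77) (nat_lit 5) (nat_lit 7) (.e false (nat_lit 2) (nat_lit 182) (nat_lit 0) (nat_lit 12) (.e true (nat_lit 1) (nat_lit 40) (nat_lit 10) (nat_lit 3) (.u (nat_lit 2) (.n (nat_lit 0) (nat_lit 1) (.n (nat_lit 1) (nat_lit 2) (.n (nat_lit 2) (nat_lit 2) (.n (nat_lit 3) (nat_lit 3) (.p (nat_lit 4) (nat_lit 3) (.n (nat_lit 5) (nat_lit 1) (.n (nat_lit 6) (nat_lit 6) (.n (nat_lit 7) (nat_lit 5) (.p (nat_lit 8) (nat_lit 4) (.p (nat_lit 9) (nat_lit 8) (.p (nat_lit 10) (nat_lit 2) (.n (nat_lit 12) (nat_lit 1) (.p (nat_lit 13)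 (nat_lit 1) (.n (nat_lit 14) (nat_lit 2) (.p (nat_lit 17) (nat_lit 7) (.p (nat_lit 18) (nat_lit 1) (.p (nat_lit 20) (nat_lit 6) (.p (nat_lit 25) (nat_lit 2) (.n (nat_lit 26) (nat_lit 1) (.p (nat_lit 27) (nat_lit 2) (.n (nat_lit 31) (nat_lit 1) (.p (nat_lit 32) (nat_lit 1) (.p (nat_lit 44) (nat_lit 1) (.p (nat_lit 46) (nat_lit 1) (.n (nat_lit 67) (nat_lit 1) (.p (nat_lit 75) (nat_lit 1) (.n (nat_lit 84) (nat_lit 1) (.p (nat_lit 86) (nat_lit 1) (.n (nat_lit 93) (nat_lit 1) (.n (nat_lit 94) (nat_lit 1) (.n (nat_lit 96) (nat_lit 1) (.p (nat_lit 97) (nat_lit 1) (.n (nat_lit 98) (nat_lit 4) (.p (nat_lit 100) (nat_lit 1) (.p (nat_lit 101) (nat_lit 3) (.p (nat_lit 104) (nat_lit 1) (.p (nat_lit 105) (nat_lit 4) (.p (nat_lit 108) (nat_lit 2) (.p (nat_lit 110) (nat_lit 1) (.n (nat_lit 111) (nat_lit 1) (.p (nat_lit 113) (nat_lit 3) (.n (nat_lit 114) (nat_lit 2) (.n (nat_lit 116) (nat_lit 2) (.p (nat_lit 124) (nat_lit 1) (.n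 (nat_lit 125) (nat_lit 1) (.n (nat_lit 126) (nat_lit 1) (.n (nat_lit 127) (nat_lit 1) (.n (nat_lit 129) (nat_lit 1) (.n (nat_lit 130) (nat_lit 1) .z))))))))))))))))))))))))))))))))))))))))))))))))) .nil)))))))))))))))))))))))))

noncomputable def dC1d_i117 : IL := (.s true (nat_lit 1) (nat_lit 40) (nat_lit 0) (nat_lit 1) (nat_lit 2) true (nat_lit 8) true (nat_lit 10) false (nat_lit 3) true (nat_lit 12) true (nat_lit 11) (.s true (nat_lit 1) (nat_lit 40) (nat_lit 2) (nat_lit 0) (nat_lit 1) true (nat_lit 7) true (nat_lit 11) false (nat_lit 3) true (nat_lit 10) true (nat_lit 12) (.s true (nat_lit 1) (nat_lit 46) (nat_lit 1) (nat_lit 0) (nat_lit 0) true (nat_lit 9) true (nat_lit 12) false (nat_lit 5) true (nat_lit 11) true (nat_lit 12) (.e false (nat_lit 3) (nat_lit 21) (nat_lit 18) (nat_lit 0) (.e true (nat_lit 3) (nat_lit 22) (nat_lit 18) (nat_lit 0) (.e true (nat_lit 3) (nat_lit 83) (nat_lit 4) (nat_lit 8) (.e true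 (nat_lit 3) (nat_lit 55) (nat_lit 6) (nat_lit 6) (.e false (nat_lit 3) (nat_lit 56) (nat_lit 6) (nat_lit 6) (.e true (nat_lit 2) (nat_lit 57) (nat_lit 6) (nat_lit 6) (.e true (nat_lit 3) (nat_lit 62) (nat_lit 6) (nat_lit 6) (.e true (nat_lit 1) (nat_lit 65) (nat_lit 6) (nat_lit 6) (.e false (nat_lit 2) (nat_lit 101) (nat_lit 3) (nat_lit 9) (.e true (nat_lit 1) (nat_lit 134) (nat_lit 2) (nat_lit 10) (.e true (nat_lit 3) (nat_lit 135) (nat_lit 2) (nat_lit 10) (.e true (nat_lit 2) (nat_lit 137) (nat_lit 2) (nat_lit 10) (.e true (nat_lit 1) (nat_lit 138) (nat_lit 2) (nat_lit 10) (.e true (nat_lit 3) (nat_lit 139) (nat_lit 2) (nat_lit 10) (.e false (nat_lit 1) (nat_lit 141) (nat_lit 2) (nat_lit 10) (.e false (nat_lit 3) (nat_lit 142) (nat_lit 2) (nat_lit 10) (.e false (nat_lit 1) (nat_lit 143) (nat_lit 2) (nat_lit 10) (.e false (nat_lit 2) (nat_lit 144) (nat_lit 2) (nat_lit 10) (.e false (nat_lit 3) (nat_lit 145) (nat_lit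 2) (nat_lit 10) (.e false (nat_lit 3) (nat_lit 146) (nat_lit 2) (nat_lit 10) (.e false (nat_lit 1) (nat_lit 147) (nat_lit 2) (nat_lit 10) (.e true (nat_lit 1) (nat_lit 150) (nat_lit 2) (nat_lit 10) dC1d_i116)))))))))))))))))))))))))

noncomputable def dC1d_i118 : IL := (.s true (nat_lit 2) (nat_lit 46) (nat_lit 2) (nat_lit 1) (nat_lit 0) true (nat_lit 6) true (nat_lit 10) false (nat_lit 3) true (nat_lit 8) true (nat_lit 9) (.e true (nat_lit 2) (nat_lit 32) (nat_lit 18) (nat_lit 0) (.e false (nat_lit 2) (nat_lit 83) (nat_lit 6) (nat_lit 4) (.e true (nat_lit 2) (nat_lit 92) (nat_lit 6) (nat_lit 4) (.e false (nat_lit 3) (nat_lit 180) (nat_lit 2) (nat_lit 8) (.e true (nat_lit 2) (nat_lit 181) (nat_lit 2) (nat_lit 8) (.e true (nat_lit 2) (nat_lit 183) (nat_lit 2) (nat_lit 8) (.e true (nat_lit 3) (nat_lit 184) (nat_lit 2) (nat_lit 8) (.e true (nat_lit 3) (nat_lit 186) (nat_lit 2) (nat_lit 8) (.e true (nat_lit 2) (nat_lit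 187) (nat_lit 2) (nat_lit 8) (.e true (nat_lit 3) (nat_lit 188) (nat_lit 2) (nat_lit 8) (.e false (nat_lit 3) (nat_lit 189) (nat_lit 2) (nat_lit 8) (.e true (nat_lit 2) (nat_lit 190) (nat_lit 2) (nat_lit 8) (.e false (nat_lit 1) (nat_lit 191) (nat_lit 2) (nat_lit 8) (.e true (nat_lit 2) (nat_lit 193) (nat_lit 2) (nat_lit 8) (.e false (nat_lit 2) (nat_lit 182) (nat_lit 2) (nat_lit 8) (.e false (nat_lit 3) (nat_lit 192) (nat_lit 2) (nat_lit 8) (.e false (nat_lit 3) (nat_lit 185) (nat_lit 2) (nat_lit 8) (.e true (nat_lit 1) (nat_lit 194) (nat_lit 2) (nat_lit 8) (.e true (nat_lit 3) (nat_lit 91) (nat_lit 6) (nat_lit 4) (.e false (nat_lit 2) (nat_lit 33) (nat_lit 18) (nat_lit 0) (.e false (nat_lit 1) (nat_lit 46) (nat_lit 12) (nat_lit 3) (.e true (nat_lit 3) (nat_lit 84) (nat_lit 6) (nat_lit 4) (.e false (nat_lit 2) (nat_lit 90) (nat_lit 6) (nat_lit 4) (.u (nat_lit 2) (.p (nat_lit 8) (nat_lit 1) (.n (nat_lit 12) (nat_lit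 1) (.n (nat_lit 13) (nat_lit 1) (.p (nat_lit 19) (nat_lit 1) (.p (nat_lit 20) (nat_lit 1) (.n (nat_lit 21) (nat_lit 1) (.n (nat_lit 23) (nat_lit 1) (.p (nat_lit 24) (nat_lit 1) (.p (nat_lit 26) (nat_lit 1) (.p (nat_lit 27) (nat_lit 1) (.p (nat_lit 40) (nat_lit 1) (.p (nat_lit 41) (nat_lit 1) (.p (nat_lit 42) (nat_lit 1) (.n (nat_lit 44) (nat_lit 1) (.p (nat_lit 45) (nat_lit 1) (.n (nat_lit 52) (nat_lit 1) (.n (nat_lit 53) (nat_lit 2) (.n (nat_lit 57) (nat_lit 1) (.n (nat_lit 60) (nat_lit 3) (.p (nat_lit 61) (nat_lit 1) (.p (nat_lit 62) (nat_lit 3) (.p (nat_lit 63) (nat_lit 8) (.p (nat_lit 64) (nat_lit 4) (.p (nat_lit 65) (nat_lit 3) (.p (nat_lit 66) (nat_lit 7) (.p (nat_lit 67) (nat_lit 5) (.p (nat_lit 68) (nat_lit 3) (.p (nat_lit 70) (nat_lit 4) (.n (nat_lit 71) (nat_lit 2) (.n (nat_lit 72) (nat_lit 1) (.n (nat_lit 73) (nat_lit 2) (.p (nat_lit 74) (nat_lit 1) (.n (nat_lit 78) (nat_lit 1) (.n (nat_lit 83) (nat_lit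 1) .z)))))))))))))))))))))))))))))))))) .nil)))))))))))))))))))))))))

noncomputable def dC1d_i119 : IL := (.e false (nat_lit 1) (nat_lit 261) (nat_lit 1) (nat_lit 18) (.e true (nat_lit 2) (nat_lit 262) (nat_lit 1) (nat_lit 18) (.e false (nat_lit 3) (nat_lit 263) (nat_lit 1) (nat_lit 18) (.e false (nat_lit 3) (nat_lit 264) (nat_lit 1) (nat_lit 18) (.e false (nat_lit 1) (nat_lit 265) (nat_lit 1) (nat_lit 18) (.e true (nat_lit 1) (nat_lit 266) (nat_lit 1) (nat_lit 18) (.e true (nat_lit 1) (nat_lit 267) (nat_lit 1) (nat_lit 18) (.e true (nat_lit 2) (nat_lit 268) (nat_lit 1) (nat_lit 18) (.e true (nat_lit 1) (nat_lit 269) (nat_lit 1) (nat_lit 18) (.e true (nat_lit 3) (nat_lit 270) (nat_lit 1) (nat_lit 18) (.e true (nat_lit 2) (nat_lit 271) (nat_lit 1) (nat_lit 18) (.e true (nat_lit 2) (nat_lit 272) (nat_lit 1) (nat_lit 18) (.e true (nat_lit 3) (nat_lit 274) (nat_lit 1) (nat_lit 18) (.e false (nat_lit 1) (nat_lit 275)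 (nat_lit 1) (nat_lit 18) (.e true (nat_lit 1) (nat_lit 276) (nat_lit 1) (nat_lit 18) (.e false (nat_lit 3) (nat_lit 277) (nat_lit 1) (nat_lit 18) (.e false (nat_lit 3) (nat_lit 278) (nat_lit 1) (nat_lit 18) (.e false (nat_lit 1) (nat_lit 279) (nat_lit 1) (nat_lit 18) (.e true (nat_lit 1) (nat_lit 283) (nat_lit 1) (nat_lit 18) (.e false (nat_lit 1) (nat_lit 284) (nat_lit 1) (nat_lit 18) (.e false (nat_lit 2) (nat_lit 286) (nat_lit 1) (nat_lit 18) (.e false (nat_lit 3) (nat_lit 287) (nat_lit 1) (nat_lit 18) (.e true (nat_lit 2) (nat_lit 288) (nat_lit 1) (nat_lit 18) (.e true (nat_lit 1) (nat_lit 146) (nat_lit 5) (nat_lit 14) (.u (nat_lit 2) (.n (nat_lit 0) (nat_lit 4) (.p (nat_lit 1) (nat_lit 3) (.p (nat_lit 3) (nat_lit 1) (.n (nat_lit 4) (nat_lit 2) (.p (nat_lit 5) (nat_lit 1) (.n (nat_lit 6) (nat_lit 1) (.p (nat_lit 7) (nat_lit 1) (.p (nat_lit 8) (nat_lit 2) (.n (nat_lit 9) (nat_lit 3) (.n (nat_lit 10) (nat_lit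 2) (.p (nat_lit 11) (nat_lit 3) (.p (nat_lit 12) (nat_lit 4) (.n (nat_lit 13) (nat_lit 1) (.n (nat_lit 14) (nat_lit 1) (.p (nat_lit 15) (nat_lit 4) (.p (nat_lit 17) (nat_lit 2) (.p (nat_lit 18) (nat_lit 1) (.n (nat_lit 19) (nat_lit 1) (.p (nat_lit 20) (nat_lit 2) (.n (nat_lit 26) (nat_lit 1) (.n (nat_lit 27) (nat_lit 4) (.n (nat_lit 28) (nat_lit 3) (.n (nat_lit 29) (nat_lit 2) (.p (nat_lit 30) (nat_lit 2) (.n (nat_lit 31) (nat_lit 3) (.n (nat_lit 32) (nat_lit 3) (.p (nat_lit 33) (nat_lit 2) (.p (nat_lit 34) (nat_lit 2) (.n (nat_lit 35) (nat_lit 1) (.n (nat_lit 36) (nat_lit 2) (.p (nat_lit 37) (nat_lit 2) (.p (nat_lit 38) (nat_lit 2) (.p (nat_lit 40) (nat_lit 5) (.p (nat_lit 41) (nat_lit 2) (.n (nat_lit 44) (nat_lit 1) (.n (nat_lit 45) (nat_lit 1) (.n (nat_lit 49) (nat_lit 1) (.n (nat_lit 54) (nat_lit 1) (.p (nat_lit 69) (nat_lit 1) (.p (nat_lit 70) (nat_lit 1) .z)))))))))))))))))))))))))))))))))))))))) .nil)))))))))))))))))))))))))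

noncomputable def dC1d_i120 : IL := (.e true (nat_lit 1) (nat_lit 304) (nat_lit 0) (nat_lit 19) (.e false (nat_lit 2) (nat_lit 306) (nat_lit 0) (nat_lit 19) (.e false (nat_lit 2) (nat_lit 307) (nat_lit 0) (nat_lit 19) (.e false (nat_lit 1) (nat_lit 308) (nat_lit 0) (nat_lit 19) (.e true (nat_lit 2) (nat_lit 309) (nat_lit 0) (nat_lit 19) (.e true (nat_lit 2) (nat_lit 310) (nat_lit 0) (nat_lit 19) (.e true (nat_lit 1) (nat_lit 73) (nat_lit 14) (nat_lit 7) (.e false (nat_lit 1) (nat_lit 78) (nat_lit 13) (nat_lit 8) (.e false (nat_lit 1) (nat_lit 80) (nat_lit 13) (nat_lit 8) (.e true (nat_lit 1) (nat_lit 81) (nat_lit 13) (nat_lit 8) (.e true (nat_lit 1) (nat_lit 237) (nat_lit 2) (nat_lit 17) (.e false (nat_lit 1) (nat_lit 244) (nat_lit 2) (nat_lit 17) (.e true (nat_lit 1) (nat_lit 258) (nat_lit 2) (nat_lit 17) (.e true (nat_lit 1) (nat_lit 298) (nat_lit 0) (nat_lit 19) (.e true (nat_lit 2) (nat_lit 301) (nat_lit 0)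 (nat_lit 19) (.e true (nat_lit 1) (nat_lit 302) (nat_lit 0) (nat_lit 19) (.e true (nat_lit 2) (nat_lit 303) (nat_lit 0) (nat_lit 19) (.e true (nat_lit 3) (nat_lit 305) (nat_lit 0) (nat_lit 19) (.e false (nat_lit 1) (nat_lit 311) (nat_lit 0) (nat_lit 19) (.e false (nat_lit 1) (nat_lit 314) (nat_lit 0) (nat_lit 19) (.e true (nat_lit 1) (nat_lit 316) (nat_lit 0) (nat_lit 19) (.e true (nat_lit 2) (nat_lit 317) (nat_lit 0) (nat_lit 19) (.e false (nat_lit 1) (nat_lit 318) (nat_lit 0) (nat_lit 19) (.e true (nat_lit 1) (nat_lit 319) (nat_lit 0) (nat_lit 19) (.e true (nat_lit 3) (nat_lit 260) (nat_lit 1) (nat_lit 18) dC1d_i119)))))))))))))))))))))))))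

noncomputable def dC1d_i121 : IL := (.e false (nat_lit 2) (nat_lit 277) (nat_lit 2) (nat_lit 13) (.e true (nat_lit 3) (nat_lit 278) (nat_lit 2) (nat_lit 13) (.e true (nat_lit 2) (nat_lit 279) (nat_lit 2) (nat_lit 13) (.e true (nat_lit 1) (nat_lit 280) (nat_lit 2) (nat_lit 13) (.e false (nat_lit 3) (nat_lit 282) (nat_lit 2) (nat_lit 13) (.e true (nat_lit 2) (nat_lit 287) (nat_lit 2) (nat_lit 13) (.e true (nat_lit 1) (nat_lit 288) (nat_lit 2) (nat_lit 13) (.e false (nat_lit 3) (nat_lit 289) (nat_lit 2) (nat_lit 13) (.e true (nat_lit 1) (nat_lit 40) (nat_lit 33) (nat_lit 0) (.e false (nat_lit 2) (nat_lit 328) (nat_lit 0) (nat_lit 15) (.e false (nat_lit 2) (nat_lit 329) (nat_lit 0) (nat_lit 15) (.e false (nat_lit 1) (nat_lit 330) (nat_lit 0) (nat_lit 15) (.e true (nat_lit 2) (nat_lit 331) (nat_lit 0) (nat_lit 15) (.e true (nat_lit 2) (nat_lit 332) (nat_lit 0) (nat_lit 15) (.e false (nat_lit 1) (nat_lit 333) (nat_lit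 0) (nat_lit 15) (.e true (nat_lit 3) (nat_lit 334) (nat_lit 0) (nat_lit 15) (.e true (nat_lit 2) (nat_lit 335) (nat_lit 0) (nat_lit 15) (.e true (nat_lit 2) (nat_lit 336) (nat_lit 0) (nat_lit 15) (.e true (nat_lit 1) (nat_lit 337) (nat_lit 0) (nat_lit 15) (.e true (nat_lit 1) (nat_lit 338) (nat_lit 0) (nat_lit 15) (.e true (nat_lit 1) (nat_lit 340) (nat_lit 0) (nat_lit 15) (.e false (nat_lit 1) (nat_lit 342) (nat_lit 0) (nat_lit 15) (.e true (nat_lit 1) (nat_lit 345) (nat_lit 0) (nat_lit 15) (.e true (nat_lit 1) (nat_lit 178) (nat_lit 5) (nat_lit 10) (.u (nat_lit 2) (.n (nat_lit 0) (nat_lit 3) (.p (nat_lit 1) (nat_lit 1) (.n (nat_lit 3) (nat_lit 1) (.n (nat_lit 4) (nat_lit 3) (.p (nat_lit 6) (nat_lit 2) (.p (nat_lit 7) (nat_lit 2) (.n (nat_lit 8) (nat_lit 1) (.p (nat_lit 11) (nat_lit 1) (.n (nat_lit 12) (nat_lit 1) (.n (nat_lit 14) (nat_lit 1) (.p (nat_lit 15) (nat_lit 2) (.n (nat_lit 16) (nat_lit 2) (.p (nat_lit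 17) (nat_lit 1) (.p (nat_lit 18) (nat_lit 4) (.p (nat_lit 19) (nat_lit 1) (.n (nat_lit 21) (nat_lit 2) (.n (nat_lit 22) (nat_lit 1) (.p (nat_lit 24) (nat_lit 2) (.p (nat_lit 26) (nat_lit 1) (.p (nat_lit 27) (nat_lit 2) (.p (nat_lit 28) (nat_lit 1) (.n (nat_lit 29) (nat_lit 1) (.p (nat_lit 30) (nat_lit 5) (.n (nat_lit 33) (nat_lit 5) .z)))))))))))))))))))))))) .nil)))))))))))))))))))))))))

noncomputable def dC1d_i122 : IL := (.e false (nat_lit 2) (nat_lit 183) (nat_lit 5) (nat_lit 10) (.e false (nat_lit 2) (nat_lit 184) (nat_lit 5) (nat_lit 10) (.e false (nat_lit 1) (nat_lit 187) (nat_lit 5) (nat_lit 10) (.e false (nat_lit 1) (nat_lit 188) (nat_lit 5) (nat_lit 10) (.e true (nat_lit 2) (nat_lit 189) (nat_lit 5) (nat_lit 10) (.e true (nat_lit 1) (nat_lit 190) (nat_lit 5) (nat_lit 10) (.e true (nat_lit 1) (nat_lit 191) (nat_lit 5) (nat_lit 10) (.e true (nat_lit 1) (nat_lit 193) (nat_lit 5) (nat_lit 10) (.e false (nat_lit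 1) (nat_lit 343) (nat_lit 1) (nat_lit 14) (.e false (nat_lit 1) (nat_lit 344) (nat_lit 1) (nat_lit 14) (.e true (nat_lit 1) (nat_lit 101) (nat_lit 13) (nat_lit 6) (.e false (nat_lit 2) (nat_lit 328) (nat_lit 1) (nat_lit 14) (.e false (nat_lit 1) (nat_lit 329) (nat_lit 1) (nat_lit 14) (.e true (nat_lit 1) (nat_lit 330) (nat_lit 1) (nat_lit 14) (.e true (nat_lit 3) (nat_lit 331) (nat_lit 1) (nat_lit 14) (.e true (nat_lit 2) (nat_lit 332) (nat_lit 1) (nat_lit 14) (.e false (nat_lit 3) (nat_lit 335) (nat_lit 1) (nat_lit 14) (.e true (nat_lit 3) (nat_lit 336) (nat_lit 1) (nat_lit 14) (.e false (nat_lit 2) (nat_lit 337) (nat_lit 1) (nat_lit 14) (.e false (nat_lit 2) (nat_lit 338) (nat_lit 1) (nat_lit 14) (.e true (nat_lit 2) (nat_lit 339) (nat_lit 1) (nat_lit 14) (.e true (nat_lit 2) (nat_lit 340) (nat_lit 1) (nat_lit 14) (.e true (nat_lit 3) (nat_lit 333) (nat_lit 1) (nat_lit 14) (.e false (nat_lit 3) (nat_lit 334) (nat_lit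 1) (nat_lit 14) (.u (nat_lit 2) (.n (nat_lit 0) (nat_lit 3) (.p (nat_lit 2) (nat_lit 2) (.n (nat_lit 3) (nat_lit 2) (.p (nat_lit 4) (nat_lit 1) (.p (nat_lit 5) (nat_lit 1) (.n (nat_lit 6) (nat_lit 2) (.p (nat_lit 7) (nat_lit 2) (.n (nat_lit 8) (nat_lit 2) (.p (nat_lit 9) (nat_lit 1) (.p (nat_lit 10) (nat_lit 1) (.p (nat_lit 11) (nat_lit 1) (.n (nat_lit 12) (nat_lit 2) (.p (nat_lit 13) (nat_lit 2) (.p (nat_lit 14) (nat_lit 2) (.n (nat_lit 15) (nat_lit 1) (.n (nat_lit 16) (nat_lit 1) (.n (nat_lit 17) (nat_lit 1) (.p (nat_lit 22) (nat_lit 1) (.p (nat_lit 23) (nat_lit 1) (.n (nat_lit 26) (nat_lit 2) (.p (nat_lit 27) (nat_lit 1) (.p (nat_lit 29) (nat_lit 2) (.p (nat_lit 30) (nat_lit 1) (.n (nat_lit 32) (nat_lit 1) (.n (nat_lit 203) (nat_lit 1) (.p (nat_lit 206) (nat_lit 1) (.p (nat_lit 207) (nat_lit 1) (.p (nat_lit 211) (nat_lit 1) (.n (nat_lit 212) (nat_lit 1) .z))))))))))))))))))))))))))))) .nil)))))))))))))))))))))))))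

noncomputable def dC1d_i123 : IL := (.e true (nat_lit 1) (nat_lit 291) (nat_lit 2) (nat_lit 13) (.e false (nat_lit 1) (nat_lit 292) (nat_lit 2) (nat_lit 13) (.e false (nat_lit 1) (nat_lit 294) (nat_lit 2) (nat_lit 13) (.e true (nat_lit 2) (nat_lit 295) (nat_lit 2) (nat_lit 13) (.e false (nat_lit 2) (nat_lit 296) (nat_lit 2) (nat_lit 13) (.e false (nat_lit 3) (nat_lit 297) (nat_lit 2) (nat_lit 13) (.e true (nat_lit 1) (nat_lit 298) (nat_lit 2) (nat_lit 13) (.e false (nat_lit 3) (nat_lit 299) (nat_lit 2) (nat_lit 13) (.e false (nat_lit 3) (nat_lit 300) (nat_lit 2) (nat_lit 13) (.e true (nat_lit 2) (nat_lit 301) (nat_lit 2) (nat_lit 13) (.e true (nat_lit 3) (nat_lit 302) (nat_lit 2) (nat_lit 13) (.e false (nat_lit 2) (nat_lit 303) (nat_lit 2) (nat_lit 13) (.e false (nat_lit 3) (nat_lit 304) (nat_lit 2) (nat_lit 13) (.e true (nat_lit 2) (nat_lit 305) (nat_lit 2) (nat_lit 13) (.e false (nat_lit 1) (nat_lit 307) (nat_lit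 2) (nat_lit 13) (.e false (nat_lit 2) (nat_lit 309) (nat_lit 2) (nat_lit 13) (.e false (nat_lit 2) (nat_lit 310) (nat_lit 2) (nat_lit 13) (.e true (nat_lit 1) (nat_lit 311) (nat_lit 2) (nat_lit 13) (.e true (nat_lit 1) (nat_lit 314) (nat_lit 2) (nat_lit 13) (.e false (nat_lit 1) (nat_lit 315) (nat_lit 2) (nat_lit 13) (.e true (nat_lit 1) (nat_lit 316) (nat_lit 2) (nat_lit 13) (.e true (nat_lit 1) (nat_lit 317) (nat_lit 2) (nat_lit 13) (.e false (nat_lit 3) (nat_lit 318) (nat_lit 2) (nat_lit 13) (.e false (nat_lit 1) (nat_lit 319) (nat_lit 2) (nat_lit 13) (.u (nat_lit 2) (.n (nat_lit 1) (nat_lit 1) (.n (nat_lit 2) (nat_lit 2) (.n (nat_lit 3) (nat_lit 1) (.p (nat_lit 4) (nat_lit 1) (.p (nat_lit 5) (nat_lit 2) (.p (nat_lit 7) (nat_lit 6) (.n (nat_lit 8) (nat_lit 4) (.n (nat_lit 10) (nat_lit 3) (.p (nat_lit 11) (nat_lit 1) (.p (nat_lit 13) (nat_lit 7) (.p (nat_lit 14) (nat_lit 6) (.n (nat_lit 15) (nat_lit 4) (.p (nat_lit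 16) (nat_lit 1) (.n (nat_lit 17) (nat_lit 6) (.p (nat_lit 18) (nat_lit 1) (.n (nat_lit 19) (nat_lit 2) (.n (nat_lit 20) (nat_lit 1) (.n (nat_lit 21) (nat_lit 2) (.p (nat_lit 22) (nat_lit 3) (.n (nat_lit 24) (nat_lit 1) (.p (nat_lit 25) (nat_lit 1) (.p (nat_lit 26) (nat_lit 1) (.n (nat_lit 27) (nat_lit 1) (.p (nat_lit 29) (nat_lit 1) (.p (nat_lit 32) (nat_lit 1) (.p (nat_lit 33) (nat_lit 1) .z)))))))))))))))))))))))))) .nil)))))))))))))))))))))))))

noncomputable def dC1d_i124 : IL := (.e true (nat_lit 1) (nat_lit 68) (nat_lit 6) (nat_lit 6) (.e false (nat_lit 1) (nat_lit 69) (nat_lit 6) (nat_lit 6) (.e true (nat_lit 1) (nat_lit 70) (nat_lit 6) (nat_lit 6) (.e false (nat_lit 2) (nat_lit 72) (nat_lit 6) (nat_lit 6) (.e true (nat_lit 1) (nat_lit 73) (nat_lit 6) (nat_lit 6) (.e false (nat_lit 1) (nat_lit 74) (nat_lit 6) (nat_lit 6) (.e true (nat_lit 1) (nat_lit 75) (nat_lit 6) (nat_lit 6) (.e true (nat_lit 2) (nat_lit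 76) (nat_lit 6) (nat_lit 6) (.e true (nat_lit 2) (nat_lit 153) (nat_lit 2) (nat_lit 10) (.e true (nat_lit 2) (nat_lit 154) (nat_lit 2) (nat_lit 10) (.e true (nat_lit 2) (nat_lit 155) (nat_lit 2) (nat_lit 10) (.e false (nat_lit 2) (nat_lit 156) (nat_lit 2) (nat_lit 10) (.e true (nat_lit 2) (nat_lit 157) (nat_lit 2) (nat_lit 10) (.e true (nat_lit 2) (nat_lit 159) (nat_lit 2) (nat_lit 10) (.e false (nat_lit 1) (nat_lit 160) (nat_lit 2) (nat_lit 10) (.e true (nat_lit 1) (nat_lit 161) (nat_lit 2) (nat_lit 10) (.e false (nat_lit 2) (nat_lit 163) (nat_lit 2) (nat_lit 10) (.e false (nat_lit 1) (nat_lit 164) (nat_lit 2) (nat_lit 10) (.e true (nat_lit 1) (nat_lit 165) (nat_lit 2) (nat_lit 10) (.e true (nat_lit 3) (nat_lit 168) (nat_lit 2) (nat_lit 10) (.e false (nat_lit 1) (nat_lit 173) (nat_lit 2) (nat_lit 10) (.e false (nat_lit 1) (nat_lit 38) (nat_lit 14) (nat_lit 2) (.e true (nat_lit 1) (nat_lit 162) (nat_lit 2) (nat_lit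 10) (.e false (nat_lit 2) (nat_lit 167) (nat_lit 2) (nat_lit 10) (.u (nat_lit 2) (.p (nat_lit 0) (nat_lit 1) (.p (nat_lit 3) (nat_lit 1) (.n (nat_lit 5) (nat_lit 1) (.p (nat_lit 8) (nat_lit 1) (.n (nat_lit 9) (nat_lit 1) (.n (nat_lit 10) (nat_lit 1) (.p (nat_lit 11) (nat_lit 2) (.n (nat_lit 12) (nat_lit 1) (.n (nat_lit 15) (nat_lit 1) (.n (nat_lit 17) (nat_lit 1) (.p (nat_lit 19) (nat_lit 1) (.p (nat_lit 20) (nat_lit 1) (.p (nat_lit 26) (nat_lit 2) (.p (nat_lit 27) (nat_lit 1) (.n (nat_lit 28) (nat_lit 1) (.p (nat_lit 98) (nat_lit 1) (.p (nat_lit 102) (nat_lit 1) (.n (nat_lit 107) (nat_lit 1) .z)))))))))))))))))) .nil)))))))))))))))))))))))))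

noncomputable def dC1d_i125 : IL := (.s true (nat_lit 1) (nat_lit 39) (nat_lit 2) (nat_lit 0) (nat_lit 2) true (nat_lit 6) true (nat_lit 10) false (nat_lit 2) true (nat_lit 10) true (nat_lit 12) (.e true (nat_lit 2) (nat_lit 66) (nat_lit 6) (nat_lit 6) (.e true (nat_lit 3) (nat_lit 67) (nat_lit 6) (nat_lit 6) (.e true (nat_lit 1) (nat_lit 69) (nat_lit 6) (nat_lit 6) (.e true (nat_lit 2) (nat_lit 70) (nat_lit 6) (nat_lit 6) (.e false (nat_lit 1) (nat_lit 71) (nat_lit 6) (nat_lit 6) (.e false (nat_lit 2) (nat_lit 72) (nat_lit 6) (nat_lit 6) (.e false (nat_lit 2) (nat_lit 74) (nat_lit 6) (nat_lit 6) (.e true (nat_lit 2) (nat_lit 75) (nat_lit 6) (nat_lit 6) (.e true (nat_lit 1) (nat_lit 76) (nat_lit 6) (nat_lit 6) (.e false (nat_lit 3) (nat_lit 153) (nat_lit 2) (nat_lit 10) (.e false (nat_lit 3) (nat_lit 156) (nat_lit 2) (nat_lit 10) (.e false (nat_lit 3) (nat_lit 157) (nat_lit 2) (nat_lit 10) (.e false (nat_lit 2)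 (nat_lit 159) (nat_lit 2) (nat_lit 10) (.e false (nat_lit 3) (nat_lit 160) (nat_lit 2) (nat_lit 10) (.e false (nat_lit 1) (nat_lit 161) (nat_lit 2) (nat_lit 10) (.e true (nat_lit 2) (nat_lit 162) (nat_lit 2) (nat_lit 10) (.e true (nat_lit 2) (nat_lit 163) (nat_lit 2) (nat_lit 10) (.e true (nat_lit 2) (nat_lit 167) (nat_lit 2) (nat_lit 10) (.e false (nat_lit 2) (nat_lit 173) (nat_lit 2) (nat_lit 10) (.e false (nat_lit 1) (nat_lit 39) (nat_lit 14) (nat_lit 2) (.e false (nat_lit 1) (nat_lit 158) (nat_lit 2) (nat_lit 10) (.e false (nat_lit 2) (nat_lit 171) (nat_lit 2) (nat_lit 10) (.e true (nat_lit 2) (nat_lit 172) (nat_lit 2) (nat_lit 10) (.u (nat_lit 2) (.p (nat_lit 0) (nat_lit 1) (.n (nat_lit 2) (nat_lit 1) (.p (nat_lit 3) (nat_lit 2) (.p (nat_lit 4) (nat_lit 1) (.p (nat_lit 6) (nat_lit 1) (.p (nat_lit 8) (nat_lit 1) (.n (nat_lit 9) (nat_lit 3) (.n (nat_lit 10) (nat_lit 1) (.p (nat_lit 11) (nat_lit 1) (.n (nat_lit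 14) (nat_lit 1) (.n (nat_lit 17) (nat_lit 1) (.p (nat_lit 20) (nat_lit 2) (.n (nat_lit 96) (nat_lit 1) (.n (nat_lit 100) (nat_lit 1) (.p (nat_lit 105) (nat_lit 1) (.p (nat_lit 110) (nat_lit 1) .z)))))))))))))))) .nil)))))))))))))))))))))))))

noncomputable def dC1d_i126 : IL := (.e true (nat_lit 2) (nat_lit 160) (nat_lit 2) (nat_lit 10) (.e false (nat_lit 2) (nat_lit 161) (nat_lit 2) (nat_lit 10) (.e true (nat_lit 1) (nat_lit 162) (nat_lit 2) (nat_lit 10) (.e false (nat_lit 3) (nat_lit 164) (nat_lit 2) (nat_lit 10) (.e true (nat_lit 2) (nat_lit 165) (nat_lit 2) (nat_lit 10) (.e false (nat_lit 1) (nat_lit 166) (nat_lit 2) (nat_lit 10) (.e false (nat_lit 1) (nat_lit 167) (nat_lit 2) (nat_lit 10) (.e false (nat_lit 3) (nat_lit 170) (nat_lit 2) (nat_lit 10) (.e true (nat_lit 1) (nat_lit 171) (nat_lit 2) (nat_lit 10) (.e false (nat_lit 1) (nat_lit 172) (nat_lit 2) (nat_lit 10) (.e false (nat_lit 1) (nat_lit 173) (nat_lit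 2) (nat_lit 10) (.e true (nat_lit 1) (nat_lit 183) (nat_lit 1) (nat_lit 11) (.e true (nat_lit 2) (nat_lit 186) (nat_lit 1) (nat_lit 11) (.e true (nat_lit 1) (nat_lit 187) (nat_lit 1) (nat_lit 11) (.e false (nat_lit 1) (nat_lit 188) (nat_lit 1) (nat_lit 11) (.e false (nat_lit 2) (nat_lit 189) (nat_lit 1) (nat_lit 11) (.e false (nat_lit 3) (nat_lit 190) (nat_lit 1) (nat_lit 11) (.e true (nat_lit 1) (nat_lit 191) (nat_lit 1) (nat_lit 11) (.e false (nat_lit 1) (nat_lit 102) (nat_lit 3) (nat_lit 9) (.e true (nat_lit 2) (nat_lit 185) (nat_lit 1) (nat_lit 11) (.e true (nat_lit 1) (nat_lit 195) (nat_lit 1) (nat_lit 11) (.e false (nat_lit 2) (nat_lit 157) (nat_lit 2) (nat_lit 10) (.e true (nat_lit 3) (nat_lit 163) (nat_lit 2) (nat_lit 10) (.e true (nat_lit 1) (nat_lit 200) (nat_lit 0) (nat_lit 12) (.u (nat_lit 2) (.p (nat_lit 0) (nat_lit 2) (.p (nat_lit 1) (nat_lit 2) (.n (nat_lit 2) (nat_lit 2) (.n (nat_lit 3) (nat_lit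 2) (.n (nat_lit 4) (nat_lit 2) (.n (nat_lit 5) (nat_lit 3) (.n (nat_lit 6) (nat_lit 2) (.p (nat_lit 7) (nat_lit 2) (.p (nat_lit 8) (nat_lit 2) (.p (nat_lit 9) (nat_lit 2) (.p (nat_lit 10) (nat_lit 1) (.n (nat_lit 11) (nat_lit 3) (.p (nat_lit 12) (nat_lit 2) (.p (nat_lit 14) (nat_lit 1) (.p (nat_lit 15) (nat_lit 1) (.p (nat_lit 17) (nat_lit 3) (.n (nat_lit 20) (nat_lit 1) (.p (nat_lit 21) (nat_lit 1) (.p (nat_lit 22) (nat_lit 1) (.n (nat_lit 23) (nat_lit 1) (.n (nat_lit 27) (nat_lit 2) (.n (nat_lit 29) (nat_lit 1) (.p (nat_lit 96) (nat_lit 1) (.p (nat_lit 97) (nat_lit 1) (.n (nat_lit 102) (nat_lit 1) (.p (nat_lit 103) (nat_lit 1) (.n (nat_lit 113) (nat_lit 1) (.p (nat_lit 114) (nat_lit 1) (.p (nat_lit 120) (nat_lit 1) (.n (nat_lit 126) (nat_lit 1) (.n (nat_lit 127) (nat_lit 1) .z))))))))))))))))))))))))))))))) .nil)))))))))))))))))))))))))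

noncomputable def dC1d_i127 : IL := (.e false (nat_lit 2) (nat_lit 300) (nat_lit 2) (nat_lit 13) (.e false (nat_lit 2) (nat_lit 301) (nat_lit 2) (nat_lit 13) (.e true (nat_lit 2) (nat_lit 302) (nat_lit 2) (nat_lit 13) (.e false (nat_lit 2) (nat_lit 303) (nat_lit 2) (nat_lit 13) (.e true (nat_lit 2) (nat_lit 304) (nat_lit 2) (nat_lit 13) (.e true (nat_lit 2) (nat_lit 306) (nat_lit 2) (nat_lit 13) (.e false (nat_lit 2) (nat_lit 307) (nat_lit 2) (nat_lit 13) (.e true (nat_lit 2) (nat_lit 308) (nat_lit 2) (nat_lit 13) (.e false (nat_lit 3) (nat_lit 309) (nat_lit 2) (nat_lit 13) (.e false (nat_lit 1) (nat_lit 310) (nat_lit 2) (nat_lit 13) (.e true (nat_lit 1) (nat_lit 96) (nat_lit 14) (nat_lit 5) (.e true (nat_lit 3) (nat_lit 347) (nat_lit 0) (nat_lit 15) (.e false (nat_lit 1) (nat_lit 348) (nat_lit 0) (nat_lit 15) (.e false (nat_lit 2) (nat_lit 349) (nat_lit 0) (nat_lit 15) (.e true (nat_lit 3) (nat_lit 350) (nat_lit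 0) (nat_lit 15) (.e true (nat_lit 3) (nat_lit 352) (nat_lit 0) (nat_lit 15) (.e false (nat_lit 1) (nat_lit 353) (nat_lit 0) (nat_lit 15) (.e false (nat_lit 1) (nat_lit 291) (nat_lit 2) (nat_lit 13) (.e true (nat_lit 1) (nat_lit 298) (nat_lit 2) (nat_lit 13) (.e true (nat_lit 3) (nat_lit 305) (nat_lit 2) (nat_lit 13) (.e true (nat_lit 1) (nat_lit 313) (nat_lit 2) (nat_lit 13) (.e false (nat_lit 1) (nat_lit 315) (nat_lit 2) (nat_lit 13) (.e true (nat_lit 1) (nat_lit 317) (nat_lit 2) (nat_lit 13) (.e false (nat_lit 2) (nat_lit 318) (nat_lit 2) (nat_lit 13) (.u (nat_lit 2) (.p (nat_lit 0) (nat_lit 4) (.n (nat_lit 1) (nat_lit 4) (.p (nat_lit 2) (nat_lit 1) (.p (nat_lit 3) (nat_lit 2) (.n (nat_lit 5) (nat_lit 1) (.p (nat_lit 7) (nat_lit 2) (.n (nat_lit 8) (nat_lit 1) (.p (nat_lit 9) (nat_lit 2) (.n (nat_lit 10) (nat_lit 4) (.p (nat_lit 12) (nat_lit 1) (.p (nat_lit 13) (nat_lit 4) (.p (nat_lit 14) (nat_lit 4) (.n (nat_lit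 15) (nat_lit 3) (.p (nat_lit 16) (nat_lit 1) (.n (nat_lit 17) (nat_lit 3) (.p (nat_lit 18) (nat_lit 1) (.n (nat_lit 19) (nat_lit 3) (.n (nat_lit 20) (nat_lit 1) (.n (nat_lit 21) (nat_lit 2) (.p (nat_lit 22) (nat_lit 4) (.p (nat_lit 25) (nat_lit 1) (.n (nat_lit 27) (nat_lit 1) (.p (nat_lit 29) (nat_lit 1) (.p (nat_lit 33) (nat_lit 1) (.n (nat_lit 176) (nat_lit 1) (.n (nat_lit 178) (nat_lit 1) (.n (nat_lit 179) (nat_lit 1) (.n (nat_lit 184) (nat_lit 1) (.p (nat_lit 187) (nat_lit 1) (.n (nat_lit 190) (nat_lit 1) (.p (nat_lit 191) (nat_lit 1) .z))))))))))))))))))))))))))))))) .nil)))))))))))))))))))))))))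

noncomputable def dC1d_i128 : IL := (.e true (nat_lit 1) (nat_lit 155) (nat_lit 2) (nat_lit 10) (.e false (nat_lit 1) (nat_lit 161) (nat_lit 2) (nat_lit 10) (.e true (nat_lit 3) (nat_lit 164) (nat_lit 2) (nat_lit 10) (.e false (nat_lit 3) (nat_lit 165) (nat_lit 2) (nat_lit 10) (.e false (nat_lit 3) (nat_lit 66) (nat_lit 6) (nat_lit 6) (.e false (nat_lit 1) (nat_lit 68) (nat_lit 6) (nat_lit 6) (.e true (nat_lit 1) (nat_lit 70) (nat_lit 6) (nat_lit 6) (.e true (nat_lit 2) (nat_lit 75) (nat_lit 6) (nat_lit 6) (.e false (nat_lit 3) (nat_lit 74) (nat_lit 6) (nat_lit 6) (.e false (nat_lit 2) (nat_lit 188) (nat_lit 1) (nat_lit 11) (.e false (nat_lit 3) (nat_lit 67) (nat_lit 6) (nat_lit 6) (.e true (nat_lit 2) (nat_lit 190) (nat_lit 1) (nat_lit 11) (.e true (nat_lit 1) (nat_lit 167) (nat_lit 2) (nat_lit 10) (.e false (nat_lit 3) (nat_lit 172) (nat_lit 2) (nat_lit 10) (.e false (nat_lit 3) (nat_lit 26) (nat_lit 18) (nat_lit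 0) (.e false (nat_lit 2) (nat_lit 180) (nat_lit 1) (nat_lit 11) (.e true (nat_lit 3) (nat_lit 181) (nat_lit 1) (nat_lit 11) (.e false (nat_lit 2) (nat_lit 183) (nat_lit 1) (nat_lit 11) (.e true (nat_lit 1) (nat_lit 195) (nat_lit 1) (nat_lit 11) (.e true (nat_lit 1) (nat_lit 186) (nat_lit 1) (nat_lit 11) (.e true (nat_lit 3) (nat_lit 192) (nat_lit 1) (nat_lit 11) (.e false (nat_lit 2) (nat_lit 45) (nat_lit 10) (nat_lit 4) (.e false (nat_lit 2) (nat_lit 24) (nat_lit 18) (nat_lit 0) (.e true (nat_lit 2) (nat_lit 105) (nat_lit 3) (nat_lit 9) (.u (nat_lit 2) (.p (nat_lit 0) (nat_lit 1) (.p (nat_lit 1) (nat_lit 1) (.p (nat_lit 3) (nat_lit 1) (.n (nat_lit 4) (nat_lit 1) (.p (nat_lit 5) (nat_lit 1) (.n (nat_lit 8) (nat_lit 1) (.n (nat_lit 10) (nat_lit 1) (.n (nat_lit 11) (nat_lit 1) (.p (nat_lit 17) (nat_lit 1) (.n (nat_lit 18) (nat_lit 1) (.p (nat_lit 20) (nat_lit 1) (.n (nat_lit 22) (nat_lit 1) (.p (nat_lit 26) (nat_lit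 1) (.p (nat_lit 27) (nat_lit 1) (.p (nat_lit 28) (nat_lit 1) (.p (nat_lit 35) (nat_lit 1) (.p (nat_lit 38) (nat_lit 1) (.n (nat_lit 65) (nat_lit 1) (.n (nat_lit 66) (nat_lit 1) (.p (nat_lit 70) (nat_lit 1) (.n (nat_lit 75) (nat_lit 1) (.p (nat_lit 77) (nat_lit 1) (.n (nat_lit 85) (nat_lit 1) (.p (nat_lit 97) (nat_lit 1) (.n (nat_lit 98) (nat_lit 2) (.p (nat_lit 101) (nat_lit 2) (.p (nat_lit 102) (nat_lit 3) (.p (nat_lit 104) (nat_lit 2) (.p (nat_lit 107) (nat_lit 2) (.p (nat_lit 108) (nat_lit 1) (.p (nat_lit 109) (nat_lit 1) (.p (nat_lit 110) (nat_lit 1) (.n (nat_lit 111) (nat_lit 1) (.n (nat_lit 113) (nat_lit 2) (.p (nat_lit 114) (nat_lit 4) (.n (nat_lit 115) (nat_lit 2) (.n (nat_lit 116) (nat_lit 3) (.p (nat_lit 117) (nat_lit 2) (.p (nat_lit 118) (nat_lit 2) (.n (nat_lit 120) (nat_lit 1) (.p (nat_lit 121) (nat_lit 1) (.p (nat_lit 122) (nat_lit 2) (.p (nat_lit 125) (nat_lit 1) (.p (nat_lit 131) (nat_lit 1) .z))))))))))))))))))))))))))))))))))))))))))))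 .nil)))))))))))))))))))))))))

noncomputable def dC1d_i129 : IL := (.s true (nat_lit 2) (nat_lit 18) (nat_lit 3) (nat_lit 1) (nat_lit 2) true (nat_lit 4) true (nat_lit 10) true (nat_lit 0) true (nat_lit 9) true (nat_lit 11) (.s false (nat_lit 2) (nat_lit 32) (nat_lit 1) (nat_lit 2) (nat_lit 2) true (nat_lit 7) true (nat_lit 10) false (nat_lit 1) true (nat_lit 11) true (nat_lit 10) (.s false (nat_lit 3) (nat_lit 35) (nat_lit 1) (nat_lit 2) (nat_lit 2) true (nat_lit 7) true (nat_lit 10) false (nat_lit 1) true (nat_lit 11) true (nat_lit 10) (.s false (nat_lit 1) (nat_lit 36) (nat_lit 1) (nat_lit 2) (nat_lit 2) true (nat_lit 7) true (nat_lit 10) false (nat_lit 1) true (nat_lit 11) true (nat_lit 10) (.s true (nat_lit 2) (nat_lit 32) (nat_lit 2) (nat_lit 1) (nat_lit 2) true (nat_lit 6) true (nat_lit 10) false (nat_lit 1) true (nat_lit 10) true (nat_lit 11) (.s true (nat_lit 3) (nat_lit 35) (nat_lit 2) (nat_lit 1) (nat_lit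 2) true (nat_lit 6) true (nat_lit 10) false (nat_lit 1) true (nat_lit 10) true (nat_lit 11) (.s false (nat_lit 1) (nat_lit 32) (nat_lit 2) (nat_lit 2) (nat_lit 1) true (nat_lit 7) true (nat_lit 11) false (nat_lit 1) true (nat_lit 10) true (nat_lit 10) (.s true (nat_lit 1) (nat_lit 34) (nat_lit 2) (nat_lit 2) (nat_lit 1) true (nat_lit 7) true (nat_lit 11) false (nat_lit 1) true (nat_lit 10) true (nat_lit 10) (.s true (nat_lit 2) (nat_lit 35) (nat_lit 2) (nat_lit 2) (nat_lit 1) true (nat_lit 7) true (nat_lit 11) false (nat_lit 1) true (nat_lit 10) true (nat_lit 10) (.s true (nat_lit 1) (nat_lit 36) (nat_lit 2) (nat_lit 2) (nat_lit 1) true (nat_lit 7) true (nat_lit 11) false (nat_lit 1) true (nat_lit 10) true (nat_lit 10) (.s true (nat_lit 1) (nat_lit 40) (nat_lit 1) (nat_lit 1) (nat_lit 2) true (nat_lit 7) true (nat_lit 10) false (nat_lit 3) true (nat_lit 11) true (nat_lit 11) (.s true (nat_lit 1) (nat_lit 43) (nat_lit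 2) (nat_lit 1) (nat_lit 0) true (nat_lit 8) true (nat_lit 12) false (nat_lit 4) true (nat_lit 10) true (nat_lit 11) (.e true (nat_lit 1) (nat_lit 31) (nat_lit 16) (nat_lit 1) (.e false (nat_lit 1) (nat_lit 82) (nat_lit 5) (nat_lit 7) (.e true (nat_lit 3) (nat_lit 153) (nat_lit 2) (nat_lit 10) (.e true (nat_lit 2) (nat_lit 154) (nat_lit 2) (nat_lit 10) (.e true (nat_lit 2) (nat_lit 157) (nat_lit 2) (nat_lit 10) (.e true (nat_lit 1) (nat_lit 159) (nat_lit 2) (nat_lit 10) (.e false (nat_lit 1) (nat_lit 160) (nat_lit 2) (nat_lit 10) (.e false (nat_lit 3) (nat_lit 162) (nat_lit 2) (nat_lit 10) (.e false (nat_lit 2) (nat_lit 163) (nat_lit 2) (nat_lit 10) (.e false (nat_lit 2) (nat_lit 168) (nat_lit 2) (nat_lit 10) (.e false (nat_lit 1) (nat_lit 170) (nat_lit 2) (nat_lit 10) (.e true (nat_lit 2) (nat_lit 171) (nat_lit 2) (nat_lit 10) (.e false (nat_lit 3) (nat_lit 173) (nat_lit 2) (nat_lit 10) dC1d_i128)))))))))))))))))))))))))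

noncomputable def dC1d_i130 : IL := (.e false (nat_lit 1) (nat_lit 293) (nat_lit 2) (nat_lit 13) (.e true (nat_lit 3) (nat_lit 294) (nat_lit 2) (nat_lit 13) (.e true (nat_lit 2) (nat_lit 298) (nat_lit 2) (nat_lit 13) (.e false (nat_lit 3) (nat_lit 301) (nat_lit 2) (nat_lit 13) (.e false (nat_lit 1) (nat_lit 304) (nat_lit 2) (nat_lit 13) (.e true (nat_lit 3) (nat_lit 307) (nat_lit 2) (nat_lit 13) (.e false (nat_lit 3) (nat_lit 308) (nat_lit 2) (nat_lit 13) (.e false (nat_lit 1) (nat_lit 310) (nat_lit 2) (nat_lit 13) (.e true (nat_lit 1) (nat_lit 311) (nat_lit 2) (nat_lit 13) (.e true (nat_lit 3) (nat_lit 316) (nat_lit 2) (nat_lit 13) (.e false (nat_lit 3) (nat_lit 317) (nat_lit 2) (nat_lit 13) (.e true (nat_lit 3) (nat_lit 328) (nat_lit 1) (nat_lit 14) (.e false (nat_lit 2) (nat_lit 329) (nat_lit 1) (nat_lit 14) (.e true (nat_lit 2) (nat_lit 330) (nat_lit 1) (nat_lit 14) (.e false (nat_lit 2) (nat_lit 331) (nat_lit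 1) (nat_lit 14) (.e false (nat_lit 3) (nat_lit 332) (nat_lit 1) (nat_lit 14) (.e true (nat_lit 1) (nat_lit 333) (nat_lit 1) (nat_lit 14) (.e true (nat_lit 2) (nat_lit 334) (nat_lit 1) (nat_lit 14) (.e true (nat_lit 2) (nat_lit 335) (nat_lit 1) (nat_lit 14) (.e false (nat_lit 3) (nat_lit 337) (nat_lit 1) (nat_lit 14) (.e false (nat_lit 3) (nat_lit 338) (nat_lit 1) (nat_lit 14) (.e false (nat_lit 1) (nat_lit 339) (nat_lit 1) (nat_lit 14) (.e false (nat_lit 1) (nat_lit 340) (nat_lit 1) (nat_lit 14) (.e false (nat_lit 1) (nat_lit 341) (nat_lit 1) (nat_lit 14) (.u (nat_lit 2) (.p (nat_lit 1) (nat_lit 3) (.n (nat_lit 2) (nat_lit 1) (.p (nat_lit 3) (nat_lit 2) (.n (nat_lit 8) (nat_lit 1) (.p (nat_lit 10) (nat_lit 2) (.n (nat_lit 13) (nat_lit 1) (.n (nat_lit 14) (nat_lit 2) (.p (nat_lit 16) (nat_lit 2) (.n (nat_lit 19) (nat_lit 1) (.p (nat_lit 21) (nat_lit 1) (.n (nat_lit 23) (nat_lit 1) (.p (nat_lit 26) (nat_lit 1) (.n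 (nat_lit 29) (nat_lit 2) .z))))))))))))) .nil)))))))))))))))))))))))))

noncomputable def dC1d_i131 : IL := (.e true (nat_lit 2) (nat_lit 293) (nat_lit 2) (nat_lit 13) (.e false (nat_lit 2) (nat_lit 294) (nat_lit 2) (nat_lit 13) (.e true (nat_lit 2) (nat_lit 299) (nat_lit 2) (nat_lit 13) (.e true (nat_lit 3) (nat_lit 301) (nat_lit 2) (nat_lit 13) (.e false (nat_lit 3) (nat_lit 304) (nat_lit 2) (nat_lit 13) (.e false (nat_lit 3) (nat_lit 307) (nat_lit 2) (nat_lit 13) (.e false (nat_lit 3) (nat_lit 308) (nat_lit 2) (nat_lit 13) (.e true (nat_lit 2) (nat_lit 310) (nat_lit 2) (nat_lit 13) (.e true (nat_lit 1) (nat_lit 311) (nat_lit 2) (nat_lit 13) (.e true (nat_lit 1) (nat_lit 317) (nat_lit 2) (nat_lit 13) (.e true (nat_lit 1) (nat_lit 319) (nat_lit 2) (nat_lit 13) (.e true (nat_lit 1) (nat_lit 331) (nat_lit 1) (nat_lit 14) (.e true (nat_lit 3) (nat_lit 333) (nat_lit 1) (nat_lit 14) (.e true (nat_lit 1) (nat_lit 334)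 (nat_lit 1) (nat_lit 14) (.e true (nat_lit 1) (nat_lit 335) (nat_lit 1) (nat_lit 14) (.e false (nat_lit 3) (nat_lit 336) (nat_lit 1) (nat_lit 14) (.e false (nat_lit 1) (nat_lit 337) (nat_lit 1) (nat_lit 14) (.e false (nat_lit 1) (nat_lit 338) (nat_lit 1) (nat_lit 14) (.e false (nat_lit 2) (nat_lit 339) (nat_lit 1) (nat_lit 14) (.e false (nat_lit 2) (nat_lit 340) (nat_lit 1) (nat_lit 14) (.e false (nat_lit 3) (nat_lit 328) (nat_lit 1) (nat_lit 14) (.e true (nat_lit 2) (nat_lit 329) (nat_lit 1) (nat_lit 14) (.e false (nat_lit 2) (nat_lit 330) (nat_lit 1) (nat_lit 14) (.e true (nat_lit 3) (nat_lit 332) (nat_lit 1) (nat_lit 14) (.u (nat_lit 2) (.n (nat_lit 0) (nat_lit 5) (.n (nat_lit 1) (nat_lit 1) (.n (nat_lit 2) (nat_lit 3) (.n (nat_lit 3) (nat_lit 2) (.n (nat_lit 4) (nat_lit 3) (.n (nat_lit 5) (nat_lit 2) (.p (nat_lit 6) (nat_lit 1) (.p (nat_lit 7) (nat_lit 1) (.n (nat_lit 9) (nat_lit 3) (.p (nat_lit 10) (nat_lit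 2) (.n (nat_lit 12) (nat_lit 2) (.p (nat_lit 13) (nat_lit 2) (.p (nat_lit 14) (nat_lit 1) (.n (nat_lit 15) (nat_lit 2) (.n (nat_lit 16) (nat_lit 2) (.n (nat_lit 17) (nat_lit 2) (.p (nat_lit 19) (nat_lit 3) (.p (nat_lit 21) (nat_lit 2) (.p (nat_lit 26) (nat_lit 1) (.n (nat_lit 29) (nat_lit 1) (.p (nat_lit 33) (nat_lit 1) (.p (nat_lit 208) (nat_lit 1) (.n (nat_lit 211) (nat_lit 1) (.n (nat_lit 213) (nat_lit 1) (.n (nat_lit 223) (nat_lit 1) .z))))))))))))))))))))))))) .nil)))))))))))))))))))))))))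

noncomputable def dC1d_c517 : Cm := .mk (nat_lit 791) (nat_lit 517) (nat_lit 320) (nat_lit 8) (.c (nat_lit 28) (nat_lit 3) (nat_lit 18) (nat_lit 1) (nat_lit 8) (.c (nat_lit 40) (nat_lit 3) (nat_lit 14) (nat_lit 2) (nat_lit 11) (.c (nat_lit 46) (nat_lit 1) (nat_lit 9) (nat_lit 1) (nat_lit 17) (.c (nat_lit 77) (nat_lit 5) (nat_lit 6) (nat_lit 1) (nat_lit 18) (.c (nat_lit 98) (nat_lit 4) (nat_lit 4) (nat_lit 1) (nat_lit 23) (.c (nat_lit 174) (nat_lit 6) (nat_lit 2) (nat_lit 1) (nat_lit 27) (.c (nat_lit 202) (nat_lit 5) (nat_lit 0) (nat_lit 1) (nat_lit 33) (.c (nat_lit 2512) (nat_lit 0) (nat_lit 106) (nat_lit 1) (nat_lit 38) .nil))))))))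

noncomputable def dC1d_i132 : IL := (.e false (nat_lit 1) (nat_lit 330) (nat_lit 0) (nat_lit 15) (.e true (nat_lit 1) (nat_lit 331) (nat_lit 0) (nat_lit 15) (.e false (nat_lit 1) (nat_lit 333) (nat_lit 0) (nat_lit 15) (.e false (nat_lit 1) (nat_lit 336) (nat_lit 0) (nat_lit 15) (.e true (nat_lit 1) (nat_lit 46) (nat_lit 22) (nat_lit 2) (.e false (nat_lit 1) (nat_lit 205) (nat_lit 3) (nat_lit 12) (.e true (nat_lit 1) (nat_lit 206) (nat_lit 3) (nat_lit 12) (.e true (nat_lit 2) (nat_lit 260) (nat_lit 2) (nat_lit 13) (.e true (nat_lit 1) (nat_lit 261) (nat_lit 2) (nat_lit 13) (.e false (nat_lit 3) (nat_lit 262) (nat_lit 2) (nat_lit 13) (.e true (nat_lit 2) (nat_lit 263) (nat_lit 2) (nat_lit 13) (.e true (nat_lit 3) (nat_lit 264) (nat_lit 2) (nat_lit 13) (.e false (nat_lit 3) (nat_lit 267) (nat_lit 2) (nat_lit 13) (.e false (nat_lit 1) (nat_lit 268) (nat_lit 2) (nat_lit 13) (.e true (nat_lit 2) (nat_lit 269) (nat_lit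 2) (nat_lit 13) (.e false (nat_lit 1) (nat_lit 272) (nat_lit 2) (nat_lit 13) (.e true (nat_lit 2) (nat_lit 273) (nat_lit 2) (nat_lit 13) (.e true (nat_lit 2) (nat_lit 277) (nat_lit 2) (nat_lit 13) (.e false (nat_lit 1) (nat_lit 278) (nat_lit 2) (nat_lit 13) (.e false (nat_lit 2) (nat_lit 286) (nat_lit 2) (nat_lit 13) (.e false (nat_lit 3) (nat_lit 288) (nat_lit 2) (nat_lit 13) (.e true (nat_lit 3) (nat_lit 271) (nat_lit 2) (nat_lit 13) (.e true (nat_lit 1) (nat_lit 274) (nat_lit 2) (nat_lit 13) (.e false (nat_lit 1) (nat_lit 279) (nat_lit 2) (nat_lit 13) (.u (nat_lit 2) (.n (nat_lit 0) (nat_lit 1) (.p (nat_lit 2) (nat_lit 3) (.n (nat_lit 4) (nat_lit 3) (.p (nat_lit 6) (nat_lit 1) (.p (nat_lit 7) (nat_lit 1) (.p (nat_lit 8) (nat_lit 3) (.p (nat_lit 9) (nat_lit 4) (.p (nat_lit 12) (nat_lit 3) (.p (nat_lit 13) (nat_lit 1) (.n (nat_lit 16) (nat_lit 4) (.n (nat_lit 17) (nat_lit 3) (.n (nat_lit 18) (nat_lit 3) (.n (nat_lit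 19) (nat_lit 5) (.p (nat_lit 22) (nat_lit 2) (.n (nat_lit 24) (nat_lit 1) (.p (nat_lit 25) (nat_lit 1) (.p (nat_lit 30) (nat_lit 1) (.p (nat_lit 176) (nat_lit 1) (.p (nat_lit 177) (nat_lit 1) (.p (nat_lit 182) (nat_lit 1) (.p (nat_lit 186) (nat_lit 1) (.p (nat_lit 190) (nat_lit 1) .z)))))))))))))))))))))) .nil)))))))))))))))))))))))))

noncomputable def dC1d_c37 : Cm := .mk (nat_lit 887) (nat_lit 37) (nat_lit 347) (nat_lit 8) (.c (nat_lit 37) (nat_lit 3) (nat_lit 18) (nat_lit 1) (nat_lit 8) (.c (nat_lit 43) (nat_lit 3) (nat_lit 16) (nat_lit 2) (nat_lit 11) (.c (nat_lit 46) (nat_lit 1) (nat_lit 13) (nat_lit 1) (nat_lit 17) (.c (nat_lit 93) (nat_lit 5) (nat_lit 6) (nat_lit 1) (nat_lit 18) (.c (nat_lit 102) (nat_lit 4) (nat_lit 5) (nat_lit 1) (nat_lit 23) (.c (nat_lit 196) (nat_lit 6) (nat_lit 2) (nat_lit 1) (nat_lit 27) (.c (nat_lit 207) (nat_lit 5) (nat_lit 1) (nat_lit 1) (nat_lit 33) (.c (nat_lit 2032) (nat_lit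 0) (nat_lit 106) (nat_lit 1) (nat_lit 38) .nil))))))))

noncomputable def dC1d_i133 : IL := (.e false (nat_lit 2) (nat_lit 156) (nat_lit 6) (nat_lit 9) (.e true (nat_lit 1) (nat_lit 161) (nat_lit 6) (nat_lit 9) (.e false (nat_lit 1) (nat_lit 162) (nat_lit 6) (nat_lit 9) (.e true (nat_lit 1) (nat_lit 164) (nat_lit 6) (nat_lit 9) (.e true (nat_lit 1) (nat_lit 170) (nat_lit 6) (nat_lit 9) (.e false (nat_lit 1) (nat_lit 171) (nat_lit 6) (nat_lit 9) (.e false (nat_lit 1) (nat_lit 173) (nat_lit 6) (nat_lit 9) (.e false (nat_lit 1) (nat_lit 290) (nat_lit 2) (nat_lit 13) (.e true (nat_lit 2) (nat_lit 291) (nat_lit 2) (nat_lit 13) (.e true (nat_lit 2) (nat_lit 292) (nat_lit 2) (nat_lit 13) (.e false (nat_lit 2) (nat_lit 293) (nat_lit 2) (nat_lit 13) (.e false (nat_lit 2) (nat_lit 294) (nat_lit 2) (nat_lit 13) (.e true (nat_lit 3) (nat_lit 298) (nat_lit 2) (nat_lit 13) (.e false (nat_lit 2) (nat_lit 301) (nat_lit 2) (nat_lit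 13) (.e true (nat_lit 3) (nat_lit 304) (nat_lit 2) (nat_lit 13) (.e false (nat_lit 3) (nat_lit 307) (nat_lit 2) (nat_lit 13) (.e false (nat_lit 3) (nat_lit 308) (nat_lit 2) (nat_lit 13) (.e false (nat_lit 2) (nat_lit 310) (nat_lit 2) (nat_lit 13) (.e true (nat_lit 1) (nat_lit 311) (nat_lit 2) (nat_lit 13) (.e true (nat_lit 3) (nat_lit 316) (nat_lit 2) (nat_lit 13) (.e false (nat_lit 3) (nat_lit 317) (nat_lit 2) (nat_lit 13) (.e true (nat_lit 1) (nat_lit 43) (nat_lit 31) (nat_lit 1) (.e false (nat_lit 3) (nat_lit 299) (nat_lit 2) (nat_lit 13) (.e false (nat_lit 1) (nat_lit 319) (nat_lit 2) (nat_lit 13) (.u (nat_lit 2) (.p (nat_lit 0) (nat_lit 1) (.p (nat_lit 1) (nat_lit 5) (.n (nat_lit 2) (nat_lit 1) (.p (nat_lit 3) (nat_lit 2) (.p (nat_lit 4) (nat_lit 2) (.n (nat_lit 7) (nat_lit 1) (.n (nat_lit 8) (nat_lit 2) (.p (nat_lit 9) (nat_lit 2) (.n (nat_lit 10) (nat_lit 4) (.n (nat_lit 12) (nat_lit 1) (.p (nat_lit 13) (nat_lit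 1) (.p (nat_lit 15) (nat_lit 2) (.p (nat_lit 16) (nat_lit 3) (.p (nat_lit 17) (nat_lit 2) (.p (nat_lit 23) (nat_lit 1) (.n (nat_lit 26) (nat_lit 1) (.p (nat_lit 33) (nat_lit 6) (.n (nat_lit 177) (nat_lit 1) (.p (nat_lit 187) (nat_lit 1) (.n (nat_lit 190) (nat_lit 1) .z)))))))))))))))))))) .nil)))))))))))))))))))))))))

noncomputable def dC1d_i134 : IL := (.s false (nat_lit 1) (nat_lit 46) (nat_lit 3) (nat_lit 2) (nat_lit 1) true (nat_lit 8) true (nat_lit 14) false (nat_lit 2) true (nat_lit 12) true (nat_lit 13) (.e true (nat_lit 1) (nat_lit 74) (nat_lit 18) (nat_lit 3) (.e false (nat_lit 2) (nat_lit 307) (nat_lit 2) (nat_lit 13) (.e true (nat_lit 1) (nat_lit 316) (nat_lit 2) (nat_lit 13) (.e true (nat_lit 1) (nat_lit 298) (nat_lit 2) (nat_lit 13) (.e true (nat_lit 1) (nat_lit 181) (nat_lit 5) (nat_lit 10) (.e false (nat_lit 1) (nat_lit 182) (nat_lit 5) (nat_lit 10) (.e true (nat_lit 1) (nat_lit 183) (nat_lit 5)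 (nat_lit 10) (.e false (nat_lit 1) (nat_lit 185) (nat_lit 5) (nat_lit 10) (.e false (nat_lit 1) (nat_lit 192) (nat_lit 5) (nat_lit 10) (.e false (nat_lit 3) (nat_lit 328) (nat_lit 1) (nat_lit 14) (.e true (nat_lit 3) (nat_lit 329) (nat_lit 1) (nat_lit 14) (.e false (nat_lit 3) (nat_lit 330) (nat_lit 1) (nat_lit 14) (.e true (nat_lit 2) (nat_lit 332) (nat_lit 1) (nat_lit 14) (.e true (nat_lit 2) (nat_lit 333) (nat_lit 1) (nat_lit 14) (.e true (nat_lit 1) (nat_lit 334) (nat_lit 1) (nat_lit 14) (.e true (nat_lit 1) (nat_lit 335) (nat_lit 1) (nat_lit 14) (.e false (nat_lit 2) (nat_lit 336) (nat_lit 1) (nat_lit 14) (.e false (nat_lit 2) (nat_lit 337) (nat_lit 1) (nat_lit 14) (.e false (nat_lit 1) (nat_lit 340) (nat_lit 1) (nat_lit 14) (.e true (nat_lit 1) (nat_lit 344) (nat_lit 1) (nat_lit 14) (.e false (nat_lit 1) (nat_lit 345) (nat_lit 1) (nat_lit 14) (.e true (nat_lit 1) (nat_lit 46) (nat_lit 25) (nat_lit 2) (.e true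 (nat_lit 1) (nat_lit 211) (nat_lit 3) (nat_lit 12) (.u (nat_lit 2) (.n (nat_lit 2) (nat_lit 1) (.p (nat_lit 4) (nat_lit 2) (.n (nat_lit 5) (nat_lit 2) (.n (nat_lit 6) (nat_lit 1) (.p (nat_lit 7) (nat_lit 1) (.n (nat_lit 8) (nat_lit 1) (.p (nat_lit 9) (nat_lit 1) (.p (nat_lit 10) (nat_lit 1) (.n (nat_lit 11) (nat_lit 1) (.n (nat_lit 12) (nat_lit 1) (.n (nat_lit 13) (nat_lit 1) (.n (nat_lit 14) (nat_lit 1) (.n (nat_lit 15) (nat_lit 2) (.p (nat_lit 16) (nat_lit 1) (.n (nat_lit 18) (nat_lit 1) (.p (nat_lit 20) (nat_lit 1) (.p (nat_lit 23) (nat_lit 1) (.n (nat_lit 26) (nat_lit 1) (.p (nat_lit 29) (nat_lit 1) .z))))))))))))))))))) .nil)))))))))))))))))))))))))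

noncomputable def dC1d_i135 : IL := (.e false (nat_lit 1) (nat_lit 100) (nat_lit 5) (nat_lit 5) (.e false (nat_lit 1) (nat_lit 31) (nat_lit 18) (nat_lit 0) (.e false (nat_lit 1) (nat_lit 32) (nat_lit 18) (nat_lit 0) (.e false (nat_lit 1) (nat_lit 36) (nat_lit 18) (nat_lit 0) (.e true (nat_lit 3) (nat_lit 180) (nat_lit 2) (nat_lit 8) (.e false (nat_lit 2) (nat_lit 183) (nat_lit 2) (nat_lit 8) (.e true (nat_lit 1) (nat_lit 190) (nat_lit 2) (nat_lit 8) (.e false (nat_lit 2) (nat_lit 181) (nat_lit 2) (nat_lit 8) (.e true (nat_lit 3) (nat_lit 184) (nat_lit 2) (nat_lit 8) (.e true (nat_lit 3) (nat_lit 186) (nat_lit 2) (nat_lit 8) (.e false (nat_lit 3) (nat_lit 189) (nat_lit 2) (nat_lit 8) (.e true (nat_lit 3) (nat_lit 187) (nat_lit 2) (nat_lit 8) (.e true (nat_lit 1) (nat_lit 42) (nat_lit 17) (nat_lit 1) (.e false (nat_lit 1) (nat_lit 83) (nat_lit 6) (nat_lit 4) (.e true (nat_lit 1) (nat_lit 84) (nat_lit 6) (nat_lit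 4) (.e false (nat_lit 1) (nat_lit 85) (nat_lit 6) (nat_lit 4) (.e true (nat_lit 1) (nat_lit 87) (nat_lit 6) (nat_lit 4) (.e true (nat_lit 1) (nat_lit 90) (nat_lit 6) (nat_lit 4) (.e false (nat_lit 1) (nat_lit 106) (nat_lit 3) (nat_lit 7) (.e true (nat_lit 1) (nat_lit 204) (nat_lit 1) (nat_lit 9) (.e false (nat_lit 1) (nat_lit 46) (nat_lit 11) (nat_lit 3) (.e true (nat_lit 1) (nat_lit 182) (nat_lit 2) (nat_lit 8) (.e false (nat_lit 1) (nat_lit 192) (nat_lit 2) (nat_lit 8) (.e true (nat_lit 1) (nat_lit 194) (nat_lit 2) (nat_lit 8) (.u (nat_lit 2) (.n (nat_lit 0) (nat_lit 2) (.p (nat_lit 1) (nat_lit 1) (.n (nat_lit 2) (nat_lit 1) (.p (nat_lit 3) (nat_lit 1) (.p (nat_lit 4) (nat_lit 1) (.p (nat_lit 5) (nat_lit 1) (.p (nat_lit 60) (nat_lit 1) (.n (nat_lit 63) (nat_lit 1) (.n (nat_lit 65) (nat_lit 1) (.p (nat_lit 70) (nat_lit 1) .z)))))))))) .nil)))))))))))))))))))))))))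

noncomputable def dC1d_i136 : IL := (.e false (nat_lit 3) (nat_lit 317) (nat_lit 0) (nat_lit 19) (.e false (nat_lit 2) (nat_lit 292) (nat_lit 0) (nat_lit 19) (.e true (nat_lit 3) (nat_lit 309) (nat_lit 0) (nat_lit 19) (.e false (nat_lit 3) (nat_lit 295) (nat_lit 0) (nat_lit 19) (.e false (nat_lit 3) (nat_lit 260) (nat_lit 1) (nat_lit 18) (.e false (nat_lit 2) (nat_lit 279) (nat_lit 1) (nat_lit 18) (.e false (nat_lit 2) (nat_lit 281) (nat_lit 1) (nat_lit 18) (.e true (nat_lit 3) (nat_lit 283) (nat_lit 1) (nat_lit 18) (.e false (nat_lit 1) (nat_lit 269) (nat_lit 1) (nat_lit 18) (.e false (nat_lit 3) (nat_lit 288) (nat_lit 1) (nat_lit 18) (.e true (nat_lit 2) (nat_lit 278) (nat_lit 1) (nat_lit 18) (.e true (nat_lit 1) (nat_lit 259) (nat_lit 2) (nat_lit 17) (.e true (nat_lit 2) (nat_lit 136) (nat_lit 5) (nat_lit 14) (.e true (nat_lit 3) (nat_lit 137) (nat_lit 5) (nat_lit 14) (.e true (nat_lit 3) (nat_lit 143) (nat_lit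 5) (nat_lit 14) (.e false (nat_lit 2) (nat_lit 144) (nat_lit 5) (nat_lit 14) (.e true (nat_lit 1) (nat_lit 154) (nat_lit 4) (nat_lit 15) (.e true (nat_lit 3) (nat_lit 282) (nat_lit 1) (nat_lit 18) (.e false (nat_lit 3) (nat_lit 139) (nat_lit 5) (nat_lit 14) (.e false (nat_lit 3) (nat_lit 314) (nat_lit 0) (nat_lit 19) (.e false (nat_lit 3) (nat_lit 315) (nat_lit 0) (nat_lit 19) (.u (nat_lit 2) (.n (nat_lit 0) (nat_lit 1) (.n (nat_lit 1) (nat_lit 3) (.n (nat_lit 3) (nat_lit 2) (.p (nat_lit 4) (nat_lit 5) (.p (nat_lit 6) (nat_lit 4) (.n (nat_lit 7) (nat_lit 5) (.p (nat_lit 8) (nat_lit 5) (.n (nat_lit 9) (nat_lit 3) (.p (nat_lit 10) (nat_lit 6) (.n (nat_lit 11) (nat_lit 5) (.n (nat_lit 12) (nat_lit 6) (.p (nat_lit 13) (nat_lit 1) (.n (nat_lit 14) (nat_lit 3) (.n (nat_lit 15) (nat_lit 8) (.p (nat_lit 17) (nat_lit 1) (.p (nat_lit 18) (nat_lit 1) (.p (nat_lit 19) (nat_lit 3) (.p (nat_lit 20) (nat_lit 2) (.p (nat_lit 24)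 (nat_lit 1) (.p (nat_lit 25) (nat_lit 1) (.p (nat_lit 26) (nat_lit 2) (.p (nat_lit 28) (nat_lit 5) (.n (nat_lit 29) (nat_lit 4) (.p (nat_lit 30) (nat_lit 3) (.p (nat_lit 31) (nat_lit 1) (.n (nat_lit 32) (nat_lit 3) (.p (nat_lit 33) (nat_lit 1) (.p (nat_lit 34) (nat_lit 4) (.p (nat_lit 35) (nat_lit 3) (.n (nat_lit 36) (nat_lit 3) (.n (nat_lit 37) (nat_lit 1) (.p (nat_lit 39) (nat_lit 1) (.p (nat_lit 40) (nat_lit 2) (.p (nat_lit 41) (nat_lit 2) (.n (nat_lit 45) (nat_lit 1) (.p (nat_lit 49) (nat_lit 2) (.p (nat_lit 50) (nat_lit 1) (.n (nat_lit 51) (nat_lit 1) (.n (nat_lit 52) (nat_lit 1) (.p (nat_lit 54) (nat_lit 3) (.n (nat_lit 55) (nat_lit 2) (.n (nat_lit 58) (nat_lit 1) (.p (nat_lit 62) (nat_lit 1) (.p (nat_lit 63) (nat_lit 1) (.p (nat_lit 69) (nat_lit 1) (.n (nat_lit 70) (nat_lit 1) (.n (nat_lit 71) (nat_lit 1) (.n (nat_lit 72) (nat_lit 1) (.p (nat_lit 73) (nat_lit 1) (.p (nat_lit 74) (nat_lit 1) (.p (nat_lit 75)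 (nat_lit 1) (.n (nat_lit 76) (nat_lit 1) (.n (nat_lit 77) (nat_lit 1) (.n (nat_lit 78) (nat_lit 1) (.p (nat_lit 83) (nat_lit 1) (.n (nat_lit 85) (nat_lit 1) (.p (nat_lit 89) (nat_lit 1) (.p (nat_lit 95) (nat_lit 1) (.n (nat_lit 99) (nat_lit 1) (.n (nat_lit 101) (nat_lit 1) .z)))))))))))))))))))))))))))))))))))))))))))))))))))))))))))) (.u (nat_lit 2) (.p (nat_lit 118) (nat_lit 1) (.n (nat_lit 133) (nat_lit 1) (.p (nat_lit 140) (nat_lit 1) (.p (nat_lit 141) (nat_lit 1) (.p (nat_lit 146) (nat_lit 1) (.n (nat_lit 149) (nat_lit 1) (.n (nat_lit 150) (nat_lit 1) (.n (nat_lit 153) (nat_lit 2) (.n (nat_lit 154) (nat_lit 1) (.p (nat_lit 155) (nat_lit 2) (.p (nat_lit 157) (nat_lit 1) (.p (nat_lit 158) (nat_lit 1) (.p (nat_lit 159) (nat_lit 1) (.n (nat_lit 160) (nat_lit 1) (.p (nat_lit 161) (nat_lit 1) (.n (nat_lit 162) (nat_lit 2) (.n (nat_lit 163) (nat_lit 1) (.p (nat_lit 166) (nat_lit 1) (.n (nat_lit 169) (nat_lit 1) (.n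 (nat_lit 170) (nat_lit 2) (.p (nat_lit 210) (nat_lit 1) (.p (nat_lit 227) (nat_lit 1) (.n (nat_lit 238) (nat_lit 1) (.p (nat_lit 244) (nat_lit 1) (.n (nat_lit 251) (nat_lit 1) (.p (nat_lit 258) (nat_lit 1) (.n (nat_lit 261) (nat_lit 1) (.n (nat_lit 262) (nat_lit 1) (.n (nat_lit 266) (nat_lit 1) (.n (nat_lit 269) (nat_lit 1) (.p (nat_lit 270) (nat_lit 1) (.n (nat_lit 271) (nat_lit 1) (.p (nat_lit 272) (nat_lit 1) (.p (nat_lit 273) (nat_lit 2) (.p (nat_lit 274) (nat_lit 1) (.n (nat_lit 275) (nat_lit 1) (.p (nat_lit 277) (nat_lit 1) (.n (nat_lit 279) (nat_lit 1) (.p (nat_lit 280) (nat_lit 1) (.n (nat_lit 281) (nat_lit 2) (.n (nat_lit 282) (nat_lit 1) (.p (nat_lit 284) (nat_lit 1) (.p (nat_lit 286) (nat_lit 1) (.n (nat_lit 289) (nat_lit 1) (.n (nat_lit 298) (nat_lit 1) (.p (nat_lit 311) (nat_lit 4) (.p (nat_lit 312) (nat_lit 2) (.n (nat_lit 313) (nat_lit 1) (.n (nat_lit 314) (nat_lit 3) (.n (nat_lit 315) (nat_lit 3)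 (.p (nat_lit 316) (nat_lit 2) (.p (nat_lit 317) (nat_lit 2) (.n (nat_lit 318) (nat_lit 1) (.n (nat_lit 319) (nat_lit 3) (.p (nat_lit 320) (nat_lit 1) (.p (nat_lit 321) (nat_lit 1) (.p (nat_lit 322) (nat_lit 2) (.p (nat_lit 323) (nat_lit 1) (.p (nat_lit 324) (nat_lit 3) (.n (nat_lit 325) (nat_lit 1) .z)))))))))))))))))))))))))))))))))))))))))))))))))))))))))))) (.u (nat_lit 2) (.p (nat_lit 326) (nat_lit 2) (.n (nat_lit 327) (nat_lit 6) (.n (nat_lit 328) (nat_lit 14) (.p (nat_lit 329) (nat_lit 11) (.p (nat_lit 330) (nat_lit 1) (.n (nat_lit 331) (nat_lit 7) (.p (nat_lit 332) (nat_lit 11) (.p (nat_lit 333) (nat_lit 2) (.n (nat_lit 334) (nat_lit 6) (.n (nat_lit 335) (nat_lit 6) (.n (nat_lit 336) (nat_lit 7) (.p (nat_lit 337) (nat_lit 9) (.p (nat_lit 338) (nat_lit 7) (.n (nat_lit 339) (nat_lit 18) (.p (nat_lit 340) (nat_lit 2) (.p (nat_lit 341) (nat_lit 2) (.n (nat_lit 342) (nat_lit 17) (.p (nat_lit 343) (nat_lit 2) (.n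 (nat_lit 344) (nat_lit 1) (.p (nat_lit 345) (nat_lit 2) (.n (nat_lit 346) (nat_lit 1) (.p (nat_lit 347) (nat_lit 8) (.n (nat_lit 348) (nat_lit 13) (.n (nat_lit 349) (nat_lit 4) (.n (nat_lit 350) (nat_lit 7) (.n (nat_lit 351) (nat_lit 7) (.n (nat_lit 352) (nat_lit 5) (.n (nat_lit 353) (nat_lit 18) (.p (nat_lit 354) (nat_lit 14) (.n (nat_lit 355) (nat_lit 17) (.n (nat_lit 356) (nat_lit 12) (.n (nat_lit 357) (nat_lit 14) (.p (nat_lit 358) (nat_lit 2) (.n (nat_lit 359) (nat_lit 7) (.n (nat_lit 360) (nat_lit 10) (.n (nat_lit 361) (nat_lit 2) (.n (nat_lit 363) (nat_lit 4) (.p (nat_lit 364) (nat_lit 3) (.n (nat_lit 365) (nat_lit 1) (.p (nat_lit 366) (nat_lit 1) (.n (nat_lit 367) (nat_lit 2) (.p (nat_lit 368) (nat_lit 3) (.n (nat_lit 369) (nat_lit 2) (.p (nat_lit 371) (nat_lit 2) (.p (nat_lit 372) (nat_lit 1) (.n (nat_lit 373) (nat_lit 1) (.n (nat_lit 375) (nat_lit 1) (.n (nat_lit 376) (nat_lit 1) (.n (nat_lit 377) (nat_lit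 1) (.n (nat_lit 378) (nat_lit 23) (.p (nat_lit 379) (nat_lit 2) (.n (nat_lit 380) (nat_lit 2) (.n (nat_lit 381) (nat_lit 12) (.p (nat_lit 382) (nat_lit 12) (.n (nat_lit 383) (nat_lit 5) (.n (nat_lit 384) (nat_lit 18) (.n (nat_lit 385) (nat_lit 6) (.p (nat_lit 386) (nat_lit 9) (.p (nat_lit 387) (nat_lit 9) (.n (nat_lit 388) (nat_lit 6) .z)))))))))))))))))))))))))))))))))))))))))))))))))))))))))))) (.u (nat_lit 2) (.n (nat_lit 389) (nat_lit 12) (.p (nat_lit 392) (nat_lit 8) (.n (nat_lit 393) (nat_lit 2) (.p (nat_lit 395) (nat_lit 16) (.p (nat_lit 396) (nat_lit 1) (.n (nat_lit 397) (nat_lit 7) (.p (nat_lit 398) (nat_lit 5) (.n (nat_lit 399) (nat_lit 3) (.p (nat_lit 400) (nat_lit 7) (.n (nat_lit 401) (nat_lit 5) (.p (nat_lit 402) (nat_lit 9) (.n (nat_lit 403) (nat_lit 2) (.p (nat_lit 404) (nat_lit 4) (.p (nat_lit 405) (nat_lit 2) (.p (nat_lit 406) (nat_lit 2) (.n (nat_lit 407) (nat_lit 4) (.n (nat_lit 408) (nat_lit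 5) (.n (nat_lit 409) (nat_lit 3) (.p (nat_lit 410) (nat_lit 2) (.p (nat_lit 411) (nat_lit 1) (.n (nat_lit 412) (nat_lit 3) (.p (nat_lit 413) (nat_lit 9) (.p (nat_lit 414) (nat_lit 10) (.p (nat_lit 415) (nat_lit 6) (.p (nat_lit 416) (nat_lit 13) (.p (nat_lit 417) (nat_lit 16) (.p (nat_lit 418) (nat_lit 2) (.n (nat_lit 419) (nat_lit 2) (.p (nat_lit 420) (nat_lit 11) (.p (nat_lit 422) (nat_lit 16) (.p (nat_lit 423) (nat_lit 9) (.p (nat_lit 424) (nat_lit 2) (.p (nat_lit 425) (nat_lit 2) (.p (nat_lit 427) (nat_lit 6) (.n (nat_lit 428) (nat_lit 1) (.n (nat_lit 429) (nat_lit 2) (.n (nat_lit 430) (nat_lit 1) (.n (nat_lit 431) (nat_lit 1) (.n (nat_lit 432) (nat_lit 15) (.p (nat_lit 433) (nat_lit 5) (.n (nat_lit 434) (nat_lit 8) .z))))))))))))))))))))))))))))))))))))))))) .nil)))))))))))))))))))))))))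

noncomputable def dC1d_i137 : IL := (.e true (nat_lit 3) (nat_lit 266) (nat_lit 1) (nat_lit 18) (.e false (nat_lit 3) (nat_lit 267) (nat_lit 1) (nat_lit 18) (.e false (nat_lit 1) (nat_lit 268) (nat_lit 1) (nat_lit 18) (.e true (nat_lit 2) (nat_lit 270) (nat_lit 1) (nat_lit 18) (.e true (nat_lit 1) (nat_lit 272) (nat_lit 1) (nat_lit 18) (.e true (nat_lit 3) (nat_lit 273) (nat_lit 1) (nat_lit 18) (.e false (nat_lit 3) (nat_lit 274) (nat_lit 1) (nat_lit 18) (.e false (nat_lit 1) (nat_lit 280) (nat_lit 1) (nat_lit 18) (.e false (nat_lit 3) (nat_lit 285) (nat_lit 1) (nat_lit 18) (.e false (nat_lit 1) (nat_lit 290) (nat_lit 0) (nat_lit 19) (.e false (nat_lit 3) (nat_lit 291) (nat_lit 0) (nat_lit 19) (.e false (nat_lit 1) (nat_lit 293) (nat_lit 0) (nat_lit 19) (.e false (nat_lit 2) (nat_lit 294) (nat_lit 0) (nat_lit 19) (.e true (nat_lit 1) (nat_lit 297) (nat_lit 0) (nat_lit 19) (.e true (nat_lit 3) (nat_lit 298) (nat_lit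 0) (nat_lit 19) (.e false (nat_lit 2) (nat_lit 299) (nat_lit 0) (nat_lit 19) (.e false (nat_lit 2) (nat_lit 300) (nat_lit 0) (nat_lit 19) (.e false (nat_lit 1) (nat_lit 301) (nat_lit 0) (nat_lit 19) (.e true (nat_lit 3) (nat_lit 302) (nat_lit 0) (nat_lit 19) (.e true (nat_lit 2) (nat_lit 305) (nat_lit 0) (nat_lit 19) (.e false (nat_lit 3) (nat_lit 308) (nat_lit 0) (nat_lit 19) (.e false (nat_lit 3) (nat_lit 310) (nat_lit 0) (nat_lit 19) (.e true (nat_lit 1) (nat_lit 311) (nat_lit 0) (nat_lit 19) (.e true (nat_lit 2) (nat_lit 313) (nat_lit 0) (nat_lit 19) (.e true (nat_lit 3) (nat_lit 316) (nat_lit 0) (nat_lit 19) dC1d_i136)))))))))))))))))))))))))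

noncomputable def dC1d_i138 : IL := (.e true (nat_lit 3) (nat_lit 225) (nat_lit 2) (nat_lit 17) (.e true (nat_lit 2) (nat_lit 227) (nat_lit 2) (nat_lit 17) (.e false (nat_lit 1) (nat_lit 228) (nat_lit 2) (nat_lit 17) (.e true (nat_lit 3) (nat_lit 235) (nat_lit 2) (nat_lit 17) (.e false (nat_lit 2) (nat_lit 236) (nat_lit 2) (nat_lit 17) (.e false (nat_lit 2) (nat_lit 239) (nat_lit 2) (nat_lit 17) (.e false (nat_lit 2) (nat_lit 242) (nat_lit 2) (nat_lit 17) (.e true (nat_lit 1) (nat_lit 244) (nat_lit 2) (nat_lit 17) (.e false (nat_lit 3) (nat_lit 245) (nat_lit 2) (nat_lit 17) (.e true (nat_lit 1) (nat_lit 246) (nat_lit 2) (nat_lit 17) (.e false (nat_lit 1) (nat_lit 247) (nat_lit 2) (nat_lit 17) (.e true (nat_lit 3) (nat_lit 248) (nat_lit 2) (nat_lit 17) (.e false (nat_lit 1) (nat_lit 212) (nat_lit 2) (nat_lit 17) (.e true (nat_lit 3) (nat_lit 219) (nat_lit 2) (nat_lit 17) (.e false (nat_lit 1) (nat_lit 234) (nat_lit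 2) (nat_lit 17) (.e true (nat_lit 1) (nat_lit 232) (nat_lit 2) (nat_lit 17) (.e true (nat_lit 2) (nat_lit 249) (nat_lit 2) (nat_lit 17) (.e false (nat_lit 1) (nat_lit 277) (nat_lit 1) (nat_lit 18) (.e false (nat_lit 1) (nat_lit 307) (nat_lit 0) (nat_lit 19) (.e false (nat_lit 1) (nat_lit 251) (nat_lit 2) (nat_lit 17) (.e false (nat_lit 1) (nat_lit 252) (nat_lit 2) (nat_lit 17) (.e true (nat_lit 2) (nat_lit 77) (nat_lit 13) (nat_lit 8) (.e true (nat_lit 3) (nat_lit 262) (nat_lit 1) (nat_lit 18) (.e false (nat_lit 3) (nat_lit 263) (nat_lit 1) (nat_lit 18) (.e false (nat_lit 2) (nat_lit 265) (nat_lit 1) (nat_lit 18) dC1d_i137)))))))))))))))))))))))))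

noncomputable def dC1d_i139 : IL := (.a true (nat_lit 1) (nat_lit 31) (nat_lit 33) (nat_lit 0) (nat_lit 0) (.a true (nat_lit 1) (nat_lit 31) (nat_lit 34) (nat_lit 0) (nat_lit 0) (.a true (nat_lit 1) (nat_lit 31) (nat_lit 35) (nat_lit 0) (nat_lit 0) (.a false (nat_lit 1) (nat_lit 31) (nat_lit 36) (nat_lit 0) (nat_lit 0) (.a false (nat_lit 2) (nat_lit 32) (nat_lit 32) (nat_lit 0) (nat_lit 0) (.a false (nat_lit 3) (nat_lit 32) (nat_lit 33) (nat_lit 0) (nat_lit 0) (.a false (nat_lit 3) (nat_lit 32) (nat_lit 34) (nat_lit 0) (nat_lit 0) (.a false (nat_lit 3) (nat_lit 32) (nat_lit 35) (nat_lit 0) (nat_lit 0) (.a true (nat_lit 3) (nat_lit 32) (nat_lit 36) (nat_lit 0) (nat_lit 0) (.a false (nat_lit 2) (nat_lit 33) (nat_lit 33) (nat_lit 0) (nat_lit 0) (.a true (nat_lit 3) (nat_lit 33) (nat_lit 34) (nat_lit 0) (nat_lit 0) (.a true (nat_lit 3) (nat_lit 33) (nat_lit 35) (nat_lit 0) (nat_lit 0) (.a false (nat_lit 3) (nat_lit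 33) (nat_lit 36) (nat_lit 0) (nat_lit 0) (.a true (nat_lit 3) (nat_lit 34) (nat_lit 35) (nat_lit 0) (nat_lit 0) (.a false (nat_lit 3) (nat_lit 34) (nat_lit 36) (nat_lit 0) (nat_lit 0) (.a false (nat_lit 1) (nat_lit 35) (nat_lit 35) (nat_lit 0) (nat_lit 0) (.a false (nat_lit 3) (nat_lit 35) (nat_lit 36) (nat_lit 0) (nat_lit 0) (.e true (nat_lit 3) (nat_lit 213) (nat_lit 2) (nat_lit 17) (.e true (nat_lit 2) (nat_lit 216) (nat_lit 2) (nat_lit 17) (.e true (nat_lit 1) (nat_lit 217) (nat_lit 2) (nat_lit 17) (.e false (nat_lit 3) (nat_lit 218) (nat_lit 2) (nat_lit 17) (.e true (nat_lit 3) (nat_lit 221) (nat_lit 2) (nat_lit 17) (.e false (nat_lit 2) (nat_lit 222) (nat_lit 2) (nat_lit 17) (.e false (nat_lit 2) (nat_lit 223) (nat_lit 2) (nat_lit 17) (.e true (nat_lit 1) (nat_lit 224) (nat_lit 2) (nat_lit 17) dC1d_i138)))))))))))))))))))))))))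

noncomputable def dC1d_i140 : IL := (.s false (nat_lit 3) (nat_lit 85) (nat_lit 1) (nat_lit 2) (nat_lit 0) true (nat_lit 16) true (nat_lit 19) false (nat_lit 9) true (nat_lit 18) true (nat_lit 17) (.s true (nat_lit 3) (nat_lit 86) (nat_lit 1) (nat_lit 2) (nat_lit 0) true (nat_lit 16) true (nat_lit 19) false (nat_lit 9) true (nat_lit 18) true (nat_lit 17) (.s false (nat_lit 2) (nat_lit 89) (nat_lit 1) (nat_lit 2) (nat_lit 0) true (nat_lit 16) true (nat_lit 19) false (nat_lit 9) true (nat_lit 18) true (nat_lit 17) (.s false (nat_lit 2) (nat_lit 90) (nat_lit 1) (nat_lit 2) (nat_lit 0) true (nat_lit 16) true (nat_lit 19) false (nat_lit 9) true (nat_lit 18) true (nat_lit 17) (.s true (nat_lit 3) (nat_lit 91) (nat_lit 1) (nat_lit 2) (nat_lit 0) true (nat_lit 16) true (nat_lit 19) false (nat_lit 9) true (nat_lit 18) true (nat_lit 17) (.s true (nat_lit 3) (nat_lit 82) (nat_lit 2) (nat_lit 0) (nat_lit 1) true (nat_lit 14)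 true (nat_lit 18) false (nat_lit 9) true (nat_lit 17) true (nat_lit 19) (.s true (nat_lit 3) (nat_lit 83) (nat_lit 2) (nat_lit 0) (nat_lit 1) true (nat_lit 14) true (nat_lit 18) false (nat_lit 9) true (nat_lit 17) true (nat_lit 19) (.s true (nat_lit 1) (nat_lit 90) (nat_lit 2) (nat_lit 1) (nat_lit 0) true (nat_lit 15) true (nat_lit 19) false (nat_lit 9) true (nat_lit 17) true (nat_lit 18) (.s false (nat_lit 2) (nat_lit 93) (nat_lit 0) (nat_lit 2) (nat_lit 0) false (nat_lit 20) true (nat_lit 19) false (nat_lit 10) true (nat_lit 19) true (nat_lit 17) (.s false (nat_lit 1) (nat_lit 95) (nat_lit 0) (nat_lit 2) (nat_lit 0) false (nat_lit 20) true (nat_lit 19) false (nat_lit 10) true (nat_lit 19) true (nat_lit 17) (.s true (nat_lit 1) (nat_lit 96) (nat_lit 0) (nat_lit 2) (nat_lit 0) false (nat_lit 20) true (nat_lit 19) false (nat_lit 10) true (nat_lit 19) true (nat_lit 17) (.s true (nat_lit 1) (nat_lit 97) (nat_lit 0)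 (nat_lit 2) (nat_lit 0) false (nat_lit 20) true (nat_lit 19) false (nat_lit 10) true (nat_lit 19) true (nat_lit 17) (.s false (nat_lit 1) (nat_lit 99) (nat_lit 1) (nat_lit 0) (nat_lit 1) false (nat_lit 21) true (nat_lit 18) false (nat_lit 11) true (nat_lit 18) true (nat_lit 19) (.s false (nat_lit 2) (nat_lit 100) (nat_lit 1) (nat_lit 0) (nat_lit 1) false (nat_lit 21) true (nat_lit 18) false (nat_lit 11) true (nat_lit 18) true (nat_lit 19) (.s true (nat_lit 2) (nat_lit 101) (nat_lit 1) (nat_lit 0) (nat_lit 1) false (nat_lit 21) true (nat_lit 18) false (nat_lit 11) true (nat_lit 18) true (nat_lit 19) (.s true (nat_lit 3) (nat_lit 99) (nat_lit 1) (nat_lit 1) (nat_lit 0) true (nat_lit 16) true (nat_lit 19) false (nat_lit 11) true (nat_lit 18) true (nat_lit 18) (.s true (nat_lit 3) (nat_lit 101) (nat_lit 1) (nat_lit 1) (nat_lit 0) true (nat_lit 16) true (nat_lit 19) false (nat_lit 11) true (nat_lit 18) true (nat_lit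 18) (.s true (nat_lit 2) (nat_lit 105) (nat_lit 0) (nat_lit 0) (nat_lit 1) true (nat_lit 16) true (nat_lit 18) false (nat_lit 12) true (nat_lit 19) true (nat_lit 19) (.s false (nat_lit 1) (nat_lit 102) (nat_lit 0) (nat_lit 1) (nat_lit 0) false (nat_lit 20) true (nat_lit 19) false (nat_lit 12) true (nat_lit 19) true (nat_lit 18) (.s false (nat_lit 1) (nat_lit 104) (nat_lit 0) (nat_lit 1) (nat_lit 0) false (nat_lit 20) true (nat_lit 19) false (nat_lit 12) true (nat_lit 19) true (nat_lit 18) (.s false (nat_lit 1) (nat_lit 105) (nat_lit 0) (nat_lit 1) (nat_lit 0) false (nat_lit 20) true (nat_lit 19) false (nat_lit 12) true (nat_lit 19) true (nat_lit 18) (.a true (nat_lit 2) (nat_lit 31) (nat_lit 31) (nat_lit 0) (nat_lit 0) (.a true (nat_lit 2) (nat_lit 34) (nat_lit 34) (nat_lit 0) (nat_lit 0) (.a true (nat_lit 3) (nat_lit 36) (nat_lit 36) (nat_lit 0) (nat_lit 0) (.a false (nat_lit 1) (nat_lit 31) (nat_lit 32) (nat_lit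 0) (nat_lit 0) dC1d_i139)))))))))))))))))))))))))

noncomputable def dC1d_i141 : IL := (.s false (nat_lit 3) (nat_lit 59) (nat_lit 2) (nat_lit 2) (nat_lit 1) true (nat_lit 14) true (nat_lit 18) false (nat_lit 6) true (nat_lit 17) true (nat_lit 17) (.s true (nat_lit 1) (nat_lit 61) (nat_lit 2) (nat_lit 2) (nat_lit 1) true (nat_lit 14) true (nat_lit 18) false (nat_lit 6) true (nat_lit 17) true (nat_lit 17) (.s false (nat_lit 3) (nat_lit 64) (nat_lit 2) (nat_lit 2) (nat_lit 1) true (nat_lit 14) true (nat_lit 18) false (nat_lit 6) true (nat_lit 17) true (nat_lit 17) (.s true (nat_lit 1) (nat_lit 67) (nat_lit 0) (nat_lit 2) (nat_lit 2) true (nat_lit 15) true (nat_lit 17) false (nat_lit 7) true (nat_lit 19) true (nat_lit 17) (.s true (nat_lit 2) (nat_lit 74) (nat_lit 0) (nat_lit 2) (nat_lit 2) true (nat_lit 15) true (nat_lit 17) false (nat_lit 7) true (nat_lit 19) true (nat_lit 17) (.s false (nat_lit 2) (nat_lit 66) (nat_lit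 2) (nat_lit 0) (nat_lit 2) true (nat_lit 13) true (nat_lit 17) false (nat_lit 7) true (nat_lit 17) true (nat_lit 19) (.s true (nat_lit 1) (nat_lit 72) (nat_lit 2) (nat_lit 0) (nat_lit 2) true (nat_lit 13) true (nat_lit 17) false (nat_lit 7) true (nat_lit 17) true (nat_lit 19) (.s true (nat_lit 3) (nat_lit 74) (nat_lit 2) (nat_lit 0) (nat_lit 2) true (nat_lit 13) true (nat_lit 17) false (nat_lit 7) true (nat_lit 17) true (nat_lit 19) (.s false (nat_lit 1) (nat_lit 66) (nat_lit 2) (nat_lit 2) (nat_lit 0) true (nat_lit 15) true (nat_lit 19) false (nat_lit 7) true (nat_lit 17) true (nat_lit 17) (.s true (nat_lit 1) (nat_lit 67) (nat_lit 2) (nat_lit 2) (nat_lit 0) true (nat_lit 15) true (nat_lit 19) false (nat_lit 7) true (nat_lit 17) true (nat_lit 17) (.s true (nat_lit 2) (nat_lit 77) (nat_lit 1) (nat_lit 1) (nat_lit 2) true (nat_lit 14) true (nat_lit 17) false (nat_lit 8) true (nat_lit 18) true (nat_lit 18) (.s true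 (nat_lit 3) (nat_lit 78) (nat_lit 1) (nat_lit 1) (nat_lit 2) true (nat_lit 14) true (nat_lit 17) false (nat_lit 8) true (nat_lit 18) true (nat_lit 18) (.s true (nat_lit 1) (nat_lit 79) (nat_lit 1) (nat_lit 1) (nat_lit 2) true (nat_lit 14) true (nat_lit 17) false (nat_lit 8) true (nat_lit 18) true (nat_lit 18) (.s true (nat_lit 3) (nat_lit 80) (nat_lit 1) (nat_lit 1) (nat_lit 2) true (nat_lit 14) true (nat_lit 17) false (nat_lit 8) true (nat_lit 18) true (nat_lit 18) (.s true (nat_lit 1) (nat_lit 90) (nat_lit 0) (nat_lit 1) (nat_lit 2) true (nat_lit 15) true (nat_lit 17) false (nat_lit 9) true (nat_lit 19) true (nat_lit 18) (.s true (nat_lit 3) (nat_lit 82) (nat_lit 0) (nat_lit 2) (nat_lit 1) true (nat_lit 16) true (nat_lit 18) false (nat_lit 9) true (nat_lit 19) true (nat_lit 17) (.s false (nat_lit 3) (nat_lit 83) (nat_lit 0) (nat_lit 2) (nat_lit 1) true (nat_lit 16) true (nat_lit 18) false (nat_lit 9) true (nat_lit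 19) true (nat_lit 17) (.s false (nat_lit 1) (nat_lit 84) (nat_lit 0) (nat_lit 2) (nat_lit 1) true (nat_lit 16) true (nat_lit 18) false (nat_lit 9) true (nat_lit 19) true (nat_lit 17) (.s true (nat_lit 1) (nat_lit 85) (nat_lit 0) (nat_lit 2) (nat_lit 1) true (nat_lit 16) true (nat_lit 18) false (nat_lit 9) true (nat_lit 19) true (nat_lit 17) (.s false (nat_lit 1) (nat_lit 87) (nat_lit 0) (nat_lit 2) (nat_lit 1) true (nat_lit 16) true (nat_lit 18) false (nat_lit 9) true (nat_lit 19) true (nat_lit 17) (.s false (nat_lit 1) (nat_lit 90) (nat_lit 0) (nat_lit 2) (nat_lit 1) true (nat_lit 16) true (nat_lit 18) false (nat_lit 9) true (nat_lit 19) true (nat_lit 17) (.s false (nat_lit 1) (nat_lit 82) (nat_lit 1) (nat_lit 0) (nat_lit 2) true (nat_lit 14) true (nat_lit 17) false (nat_lit 9) true (nat_lit 18) true (nat_lit 19) (.s true (nat_lit 3) (nat_lit 82) (nat_lit 1) (nat_lit 2) (nat_lit 0) true (nat_lit 16) true (nat_lit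 19) false (nat_lit 9) true (nat_lit 18) true (nat_lit 17) (.s false (nat_lit 3) (nat_lit 83) (nat_lit 1) (nat_lit 2) (nat_lit 0) true (nat_lit 16) true (nat_lit 19) false (nat_lit 9) true (nat_lit 18) true (nat_lit 17) (.s false (nat_lit 3) (nat_lit 84) (nat_lit 1) (nat_lit 2) (nat_lit 0) true (nat_lit 16) true (nat_lit 19) false (nat_lit 9) true (nat_lit 18) true (nat_lit 17) dC1d_i140)))))))))))))))))))))))))

noncomputable def dC1d_i142 : IL := (.s true (nat_lit 2) (nat_lit 46) (nat_lit 3) (nat_lit 0) (nat_lit 1) true (nat_lit 11) true (nat_lit 18) false (nat_lit 4) true (nat_lit 16) true (nat_lit 19) (.s true (nat_lit 3) (nat_lit 49) (nat_lit 2) (nat_lit 2) (nat_lit 2) true (nat_lit 13) true (nat_lit 17) false (nat_lit 5) true (nat_lit 17) true (nat_lit 17) (.s true (nat_lit 2) (nat_lit 50) (nat_lit 2) (nat_lit 2) (nat_lit 2) true (nat_lit 13) true (nat_lit 17) false (nat_lit 5) true (nat_lit 17) true (nat_lit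 17) (.s true (nat_lit 3) (nat_lit 52) (nat_lit 2) (nat_lit 2) (nat_lit 2) true (nat_lit 13) true (nat_lit 17) false (nat_lit 5) true (nat_lit 17) true (nat_lit 17) (.s false (nat_lit 1) (nat_lit 53) (nat_lit 2) (nat_lit 2) (nat_lit 2) true (nat_lit 13) true (nat_lit 17) false (nat_lit 5) true (nat_lit 17) true (nat_lit 17) (.s false (nat_lit 3) (nat_lit 54) (nat_lit 2) (nat_lit 2) (nat_lit 2) true (nat_lit 13) true (nat_lit 17) false (nat_lit 5) true (nat_lit 17) true (nat_lit 17) (.s true (nat_lit 3) (nat_lit 55) (nat_lit 1) (nat_lit 2) (nat_lit 2) true (nat_lit 14) true (nat_lit 17) false (nat_lit 6) true (nat_lit 18) true (nat_lit 17) (.s true (nat_lit 3) (nat_lit 56) (nat_lit 1) (nat_lit 2) (nat_lit 2) true (nat_lit 14) true (nat_lit 17) false (nat_lit 6) true (nat_lit 18) true (nat_lit 17) (.s false (nat_lit 3) (nat_lit 58) (nat_lit 1) (nat_lit 2) (nat_lit 2) true (nat_lit 14) true (nat_lit 17) false (nat_lit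 6) true (nat_lit 18) true (nat_lit 17) (.s false (nat_lit 1) (nat_lit 60) (nat_lit 1) (nat_lit 2) (nat_lit 2) true (nat_lit 14) true (nat_lit 17) false (nat_lit 6) true (nat_lit 18) true (nat_lit 17) (.s false (nat_lit 3) (nat_lit 61) (nat_lit 1) (nat_lit 2) (nat_lit 2) true (nat_lit 14) true (nat_lit 17) false (nat_lit 6) true (nat_lit 18) true (nat_lit 17) (.s false (nat_lit 1) (nat_lit 63) (nat_lit 1) (nat_lit 2) (nat_lit 2) true (nat_lit 14) true (nat_lit 17) false (nat_lit 6) true (nat_lit 18) true (nat_lit 17) (.s true (nat_lit 3) (nat_lit 64) (nat_lit 1) (nat_lit 2) (nat_lit 2) true (nat_lit 14) true (nat_lit 17) false (nat_lit 6) true (nat_lit 18) true (nat_lit 17) (.s true (nat_lit 1) (nat_lit 65) (nat_lit 1) (nat_lit 2) (nat_lit 2) true (nat_lit 14) true (nat_lit 17) false (nat_lit 6) true (nat_lit 18) true (nat_lit 17) (.s false (nat_lit 3) (nat_lit 55) (nat_lit 2) (nat_lit 1) (nat_lit 2) true (nat_lit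 13) true (nat_lit 17) false (nat_lit 6) true (nat_lit 17) true (nat_lit 18) (.s false (nat_lit 1) (nat_lit 56) (nat_lit 2) (nat_lit 1) (nat_lit 2) true (nat_lit 13) true (nat_lit 17) false (nat_lit 6) true (nat_lit 17) true (nat_lit 18) (.s false (nat_lit 3) (nat_lit 58) (nat_lit 2) (nat_lit 1) (nat_lit 2) true (nat_lit 13) true (nat_lit 17) false (nat_lit 6) true (nat_lit 17) true (nat_lit 18) (.s false (nat_lit 3) (nat_lit 59) (nat_lit 2) (nat_lit 1) (nat_lit 2) true (nat_lit 13) true (nat_lit 17) false (nat_lit 6) true (nat_lit 17) true (nat_lit 18) (.s true (nat_lit 1) (nat_lit 60) (nat_lit 2) (nat_lit 1) (nat_lit 2) true (nat_lit 13) true (nat_lit 17) false (nat_lit 6) true (nat_lit 17) true (nat_lit 18) (.s true (nat_lit 2) (nat_lit 61) (nat_lit 2) (nat_lit 1) (nat_lit 2) true (nat_lit 13) true (nat_lit 17) false (nat_lit 6) true (nat_lit 17) true (nat_lit 18) (.s true (nat_lit 1) (nat_lit 64) (nat_lit 2)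 (nat_lit 1) (nat_lit 2) true (nat_lit 13) true (nat_lit 17) false (nat_lit 6) true (nat_lit 17) true (nat_lit 18) (.s false (nat_lit 2) (nat_lit 65) (nat_lit 2) (nat_lit 1) (nat_lit 2) true (nat_lit 13) true (nat_lit 17) false (nat_lit 6) true (nat_lit 17) true (nat_lit 18) (.s true (nat_lit 1) (nat_lit 55) (nat_lit 2) (nat_lit 2) (nat_lit 1) true (nat_lit 14) true (nat_lit 18) false (nat_lit 6) true (nat_lit 17) true (nat_lit 17) (.s false (nat_lit 3) (nat_lit 57) (nat_lit 2) (nat_lit 2) (nat_lit 1) true (nat_lit 14) true (nat_lit 18) false (nat_lit 6) true (nat_lit 17) true (nat_lit 17) (.s false (nat_lit 1) (nat_lit 58) (nat_lit 2) (nat_lit 2) (nat_lit 1) true (nat_lit 14) true (nat_lit 18) false (nat_lit 6) true (nat_lit 17) true (nat_lit 17) dC1d_i141)))))))))))))))))))))))))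

noncomputable def dC1d_i143 : IL := (.s false (nat_lit 1) (nat_lit 24) (nat_lit 0) (nat_lit 2) (nat_lit 6) true (nat_lit 7) true (nat_lit 13) true (nat_lit 2) true (nat_lit 19) true (nat_lit 17) (.s true (nat_lit 1) (nat_lit 25) (nat_lit 0) (nat_lit 2) (nat_lit 6) true (nat_lit 7) true (nat_lit 13) true (nat_lit 2) true (nat_lit 19) true (nat_lit 17) (.s true (nat_lit 1) (nat_lit 24) (nat_lit 2) (nat_lit 2) (nat_lit 4) true (nat_lit 7) true (nat_lit 15) true (nat_lit 2) true (nat_lit 17) true (nat_lit 17) (.s false (nat_lit 1) (nat_lit 25) (nat_lit 2) (nat_lit 2) (nat_lit 4) true (nat_lit 7) true (nat_lit 15) true (nat_lit 2) true (nat_lit 17) true (nat_lit 17) (.s false (nat_lit 3) (nat_lit 24) (nat_lit 2) (nat_lit 6) (nat_lit 0) true (nat_lit 15) true (nat_lit 19) true (nat_lit 2) true (nat_lit 17) true (nat_lit 13) (.s false (nat_lit 2) (nat_lit 28) (nat_lit 1) (nat_lit 1) (nat_lit 6) true (nat_lit 6) true (nat_lit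 13) true (nat_lit 1) true (nat_lit 18) true (nat_lit 18) (.s false (nat_lit 3) (nat_lit 30) (nat_lit 1) (nat_lit 1) (nat_lit 6) true (nat_lit 6) true (nat_lit 13) true (nat_lit 1) true (nat_lit 18) true (nat_lit 18) (.s true (nat_lit 1) (nat_lit 28) (nat_lit 5) (nat_lit 2) (nat_lit 1) true (nat_lit 8) true (nat_lit 18) true (nat_lit 1) true (nat_lit 14) true (nat_lit 17) (.s false (nat_lit 3) (nat_lit 30) (nat_lit 6) (nat_lit 1) (nat_lit 1) true (nat_lit 6) true (nat_lit 18) true (nat_lit 1) true (nat_lit 13) true (nat_lit 18) (.s false (nat_lit 3) (nat_lit 31) (nat_lit 0) (nat_lit 2) (nat_lit 5) true (nat_lit 9) true (nat_lit 14) true (nat_lit 0) true (nat_lit 19) true (nat_lit 17) (.s true (nat_lit 3) (nat_lit 32) (nat_lit 0) (nat_lit 2) (nat_lit 5) true (nat_lit 9) true (nat_lit 14) true (nat_lit 0) true (nat_lit 19) true (nat_lit 17) (.s false (nat_lit 3) (nat_lit 31) (nat_lit 2) (nat_lit 0) (nat_lit 5) true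 (nat_lit 6) true (nat_lit 14) true (nat_lit 0) true (nat_lit 17) true (nat_lit 19) (.s true (nat_lit 3) (nat_lit 32) (nat_lit 2) (nat_lit 0) (nat_lit 5) true (nat_lit 6) true (nat_lit 14) true (nat_lit 0) true (nat_lit 17) true (nat_lit 19) (.s true (nat_lit 2) (nat_lit 35) (nat_lit 6) (nat_lit 0) (nat_lit 1) true (nat_lit 6) true (nat_lit 18) true (nat_lit 0) true (nat_lit 13) true (nat_lit 19) (.s false (nat_lit 3) (nat_lit 39) (nat_lit 6) (nat_lit 0) (nat_lit 0) true (nat_lit 7) true (nat_lit 19) false (nat_lit 1) true (nat_lit 13) true (nat_lit 19) (.s false (nat_lit 3) (nat_lit 40) (nat_lit 0) (nat_lit 1) (nat_lit 5) true (nat_lit 9) true (nat_lit 14) false (nat_lit 2) true (nat_lit 19) true (nat_lit 18) (.s false (nat_lit 3) (nat_lit 40) (nat_lit 1) (nat_lit 2) (nat_lit 3) true (nat_lit 11) true (nat_lit 16) false (nat_lit 2) true (nat_lit 18) true (nat_lit 17) (.s true (nat_lit 2) (nat_lit 43) (nat_lit 0)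 (nat_lit 2) (nat_lit 3) true (nat_lit 12) true (nat_lit 16) false (nat_lit 3) true (nat_lit 19) true (nat_lit 17) (.s true (nat_lit 3) (nat_lit 45) (nat_lit 2) (nat_lit 3) (nat_lit 0) true (nat_lit 15) true (nat_lit 19) false (nat_lit 3) true (nat_lit 17) true (nat_lit 16) (.s false (nat_lit 1) (nat_lit 45) (nat_lit 3) (nat_lit 0) (nat_lit 2) true (nat_lit 9) true (nat_lit 17) false (nat_lit 3) true (nat_lit 16) true (nat_lit 19) (.s false (nat_lit 3) (nat_lit 45) (nat_lit 4) (nat_lit 1) (nat_lit 0) true (nat_lit 10) true (nat_lit 19) false (nat_lit 3) true (nat_lit 15) true (nat_lit 18) (.s true (nat_lit 2) (nat_lit 43) (nat_lit 5) (nat_lit 0) (nat_lit 0) true (nat_lit 9) true (nat_lit 19) false (nat_lit 3) true (nat_lit 14) true (nat_lit 19) (.s true (nat_lit 3) (nat_lit 44) (nat_lit 5) (nat_lit 0) (nat_lit 0) true (nat_lit 9) true (nat_lit 19) false (nat_lit 3) true (nat_lit 14) true (nat_lit 19) (.s false (nat_lit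 3) (nat_lit 46) (nat_lit 0) (nat_lit 3) (nat_lit 1) true (nat_lit 16) true (nat_lit 18) false (nat_lit 4) true (nat_lit 19) true (nat_lit 16) (.s true (nat_lit 1) (nat_lit 46) (nat_lit 1) (nat_lit 0) (nat_lit 3) true (nat_lit 11) true (nat_lit 16) false (nat_lit 4) true (nat_lit 18) true (nat_lit 19) dC1d_i142)))))))))))))))))))))))))

noncomputable def dC1d_i144 : IL := (.s false (nat_lit 1) (nat_lit 18) (nat_lit 0) (nat_lit 8) (nat_lit 2) true (nat_lit 15) true (nat_lit 17) true (nat_lit 5) true (nat_lit 19) true (nat_lit 11) (.s true (nat_lit 1) (nat_lit 18) (nat_lit 0) (nat_lit 10) (nat_lit 1) true (nat_lit 16) true (nat_lit 18) true (nat_lit 5) true (nat_lit 19) true (nat_lit 9) (.s false (nat_lit 1) (nat_lit 18) (nat_lit 1) (nat_lit 2) (nat_lit 7) true (nat_lit 4) true (nat_lit 12) true (nat_lit 5) true (nat_lit 18) true (nat_lit 17) (.s false (nat_lit 1) (nat_lit 18) (nat_lit 2) (nat_lit 0) (nat_lit 8) true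 (nat_lit 2) true (nat_lit 11) true (nat_lit 5) true (nat_lit 17) true (nat_lit 19) (.s true (nat_lit 1) (nat_lit 18) (nat_lit 2) (nat_lit 3) (nat_lit 3) true (nat_lit 9) true (nat_lit 16) true (nat_lit 5) true (nat_lit 17) true (nat_lit 16) (.s false (nat_lit 3) (nat_lit 18) (nat_lit 2) (nat_lit 8) (nat_lit 0) true (nat_lit 15) true (nat_lit 19) true (nat_lit 5) true (nat_lit 17) true (nat_lit 11) (.s false (nat_lit 1) (nat_lit 18) (nat_lit 3) (nat_lit 3) (nat_lit 2) true (nat_lit 9) true (nat_lit 17) true (nat_lit 5) true (nat_lit 16) true (nat_lit 16) (.s true (nat_lit 3) (nat_lit 18) (nat_lit 7) (nat_lit 1) (nat_lit 2) true (nat_lit 3) true (nat_lit 17) true (nat_lit 5) true (nat_lit 12) true (nat_lit 18) (.s true (nat_lit 3) (nat_lit 18) (nat_lit 8) (nat_lit 0) (nat_lit 2) true (nat_lit 2) true (nat_lit 17) true (nat_lit 5) true (nat_lit 11) true (nat_lit 19) (.s false (nat_lit 3) (nat_lit 18) (nat_lit 9) (nat_lit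 1) (nat_lit 1) true (nat_lit 3) true (nat_lit 18) true (nat_lit 5) true (nat_lit 10) true (nat_lit 18) (.s true (nat_lit 2) (nat_lit 18) (nat_lit 10) (nat_lit 1) (nat_lit 0) true (nat_lit 3) true (nat_lit 19) true (nat_lit 5) true (nat_lit 9) true (nat_lit 18) (.s true (nat_lit 1) (nat_lit 18) (nat_lit 11) (nat_lit 1) (nat_lit 0) true (nat_lit 3) true (nat_lit 19) true (nat_lit 5) true (nat_lit 9) true (nat_lit 18) (.s true (nat_lit 2) (nat_lit 19) (nat_lit 2) (nat_lit 2) (nat_lit 6) true (nat_lit 5) true (nat_lit 13) true (nat_lit 4) true (nat_lit 17) true (nat_lit 17) (.s false (nat_lit 3) (nat_lit 19) (nat_lit 6) (nat_lit 2) (nat_lit 2) true (nat_lit 5) true (nat_lit 17) true (nat_lit 4) true (nat_lit 13) true (nat_lit 17) (.s false (nat_lit 1) (nat_lit 21) (nat_lit 1) (nat_lit 2) (nat_lit 6) true (nat_lit 6) true (nat_lit 13) true (nat_lit 3) true (nat_lit 18) true (nat_lit 17) (.s false (nat_lit 1) (nat_lit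 22) (nat_lit 1) (nat_lit 2) (nat_lit 6) true (nat_lit 6) true (nat_lit 13) true (nat_lit 3) true (nat_lit 18) true (nat_lit 17) (.s true (nat_lit 3) (nat_lit 23) (nat_lit 1) (nat_lit 6) (nat_lit 2) true (nat_lit 14) true (nat_lit 17) true (nat_lit 3) true (nat_lit 18) true (nat_lit 13) (.s false (nat_lit 1) (nat_lit 21) (nat_lit 2) (nat_lit 1) (nat_lit 6) true (nat_lit 5) true (nat_lit 13) true (nat_lit 3) true (nat_lit 17) true (nat_lit 18) (.s false (nat_lit 1) (nat_lit 21) (nat_lit 2) (nat_lit 2) (nat_lit 5) true (nat_lit 6) true (nat_lit 14) true (nat_lit 3) true (nat_lit 17) true (nat_lit 17) (.s true (nat_lit 1) (nat_lit 22) (nat_lit 2) (nat_lit 2) (nat_lit 5) true (nat_lit 6) true (nat_lit 14) true (nat_lit 3) true (nat_lit 17) true (nat_lit 17) (.s true (nat_lit 3) (nat_lit 21) (nat_lit 2) (nat_lit 6) (nat_lit 1) true (nat_lit 14) true (nat_lit 18) true (nat_lit 3) true (nat_lit 17) true (nat_lit 13) (.s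 true (nat_lit 1) (nat_lit 22) (nat_lit 2) (nat_lit 6) (nat_lit 1) true (nat_lit 14) true (nat_lit 18) true (nat_lit 3) true (nat_lit 17) true (nat_lit 13) (.s false (nat_lit 1) (nat_lit 20) (nat_lit 5) (nat_lit 2) (nat_lit 2) true (nat_lit 6) true (nat_lit 17) true (nat_lit 3) true (nat_lit 14) true (nat_lit 17) (.s true (nat_lit 2) (nat_lit 22) (nat_lit 5) (nat_lit 2) (nat_lit 2) true (nat_lit 6) true (nat_lit 17) true (nat_lit 3) true (nat_lit 14) true (nat_lit 17) (.s false (nat_lit 2) (nat_lit 21) (nat_lit 6) (nat_lit 1) (nat_lit 2) true (nat_lit 5) true (nat_lit 17) true (nat_lit 3) true (nat_lit 13) true (nat_lit 18) dC1d_i143)))))))))))))))))))))))))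

noncomputable def dC1d_i145 : IL := (.e true (nat_lit 2) (nat_lit 296) (nat_lit 0) (nat_lit 19) (.e true (nat_lit 1) (nat_lit 297) (nat_lit 0) (nat_lit 19) (.e true (nat_lit 3) (nat_lit 298) (nat_lit 0) (nat_lit 19) (.e false (nat_lit 1) (nat_lit 300) (nat_lit 0) (nat_lit 19) (.e true (nat_lit 3) (nat_lit 301) (nat_lit 0) (nat_lit 19) (.e false (nat_lit 3) (nat_lit 303) (nat_lit 0) (nat_lit 19) (.e true (nat_lit 2) (nat_lit 305) (nat_lit 0) (nat_lit 19) (.e true (nat_lit 2) (nat_lit 306) (nat_lit 0) (nat_lit 19) (.e true (nat_lit 2) (nat_lit 307) (nat_lit 0) (nat_lit 19) (.e false (nat_lit 2) (nat_lit 308) (nat_lit 0) (nat_lit 19) (.e false (nat_lit 1) (nat_lit 309) (nat_lit 0) (nat_lit 19) (.e false (nat_lit 3) (nat_lit 310) (nat_lit 0) (nat_lit 19) (.e false (nat_lit 1) (nat_lit 299) (nat_lit 0) (nat_lit 19) (.e true (nat_lit 2) (nat_lit 304) (nat_lit 0) (nat_lit 19) (.e false (nat_lit 1) (nat_lit 311) (nat_lit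 0) (nat_lit 19) (.e false (nat_lit 2) (nat_lit 313) (nat_lit 0) (nat_lit 19) (.e false (nat_lit 3) (nat_lit 314) (nat_lit 0) (nat_lit 19) (.e false (nat_lit 2) (nat_lit 315) (nat_lit 0) (nat_lit 19) (.e true (nat_lit 2) (nat_lit 316) (nat_lit 0) (nat_lit 19) (.e true (nat_lit 3) (nat_lit 317) (nat_lit 0) (nat_lit 19) (.e false (nat_lit 1) (nat_lit 318) (nat_lit 0) (nat_lit 19) (.e true (nat_lit 1) (nat_lit 319) (nat_lit 0) (nat_lit 19) (.e true (nat_lit 2) (nat_lit 225) (nat_lit 2) (nat_lit 17) (.u (nat_lit 2) (.p (nat_lit 2) (nat_lit 1) (.p (nat_lit 3) (nat_lit 4) (.p (nat_lit 4) (nat_lit 1) (.p (nat_lit 5) (nat_lit 4) (.n (nat_lit 6) (nat_lit 1) (.n (nat_lit 7) (nat_lit 5) (.n (nat_lit 8) (nat_lit 3) (.n (nat_lit 9) (nat_lit 4) (.p (nat_lit 12) (nat_lit 7) (.n (nat_lit 13) (nat_lit 2) (.n (nat_lit 14) (nat_lit 6) (.p (nat_lit 15) (nat_lit 7) (.p (nat_lit 17) (nat_lit 1) (.p (nat_lit 18) (nat_lit 2) (.n (nat_lit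 19) (nat_lit 1) (.p (nat_lit 24) (nat_lit 1) (.p (nat_lit 25) (nat_lit 2) (.p (nat_lit 26) (nat_lit 4) (.n (nat_lit 28) (nat_lit 2) (.n (nat_lit 29) (nat_lit 4) (.p (nat_lit 30) (nat_lit 8) (.n (nat_lit 31) (nat_lit 1) (.n (nat_lit 33) (nat_lit 5) (.n (nat_lit 35) (nat_lit 1) (.p (nat_lit 36) (nat_lit 2) (.p (nat_lit 37) (nat_lit 2) (.p (nat_lit 38) (nat_lit 4) (.n (nat_lit 39) (nat_lit 1) (.n (nat_lit 40) (nat_lit 3) (.n (nat_lit 45) (nat_lit 1) (.p (nat_lit 49) (nat_lit 5) (.n (nat_lit 51) (nat_lit 1) (.p (nat_lit 53) (nat_lit 1) (.n (nat_lit 54) (nat_lit 1) (.n (nat_lit 55) (nat_lit 4) (.n (nat_lit 57) (nat_lit 1) (.p (nat_lit 58) (nat_lit 1) (.p (nat_lit 60) (nat_lit 2) (.p (nat_lit 61) (nat_lit 1) (.n (nat_lit 62) (nat_lit 1) (.n (nat_lit 64) (nat_lit 1) (.p (nat_lit 68) (nat_lit 1) (.p (nat_lit 69) (nat_lit 1) (.p (nat_lit 70) (nat_lit 1) (.p (nat_lit 133) (nat_lit 1) (.n (nat_lit 327) (nat_lit 2) (.n (nat_lit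 328) (nat_lit 1) (.n (nat_lit 329) (nat_lit 3) (.n (nat_lit 330) (nat_lit 1) (.n (nat_lit 331) (nat_lit 1) (.p (nat_lit 332) (nat_lit 2) (.p (nat_lit 333) (nat_lit 2) (.n (nat_lit 334) (nat_lit 3) (.n (nat_lit 335) (nat_lit 1) (.p (nat_lit 336) (nat_lit 2) (.p (nat_lit 337) (nat_lit 2) (.p (nat_lit 338) (nat_lit 4) (.n (nat_lit 339) (nat_lit 2) (.p (nat_lit 341) (nat_lit 1) (.p (nat_lit 343) (nat_lit 2) .z)))))))))))))))))))))))))))))))))))))))))))))))))))))))))))) (.u (nat_lit 2) (.n (nat_lit 344) (nat_lit 1) (.n (nat_lit 345) (nat_lit 1) (.n (nat_lit 346) (nat_lit 1) (.p (nat_lit 348) (nat_lit 1) (.p (nat_lit 349) (nat_lit 1) (.p (nat_lit 351) (nat_lit 1) (.n (nat_lit 354) (nat_lit 1) (.p (nat_lit 355) (nat_lit 1) (.n (nat_lit 356) (nat_lit 1) (.p (nat_lit 357) (nat_lit 1) (.n (nat_lit 358) (nat_lit 1) (.p (nat_lit 359) (nat_lit 1) (.p (nat_lit 360) (nat_lit 1) (.n (nat_lit 363) (nat_lit 1) (.n (nat_lit 371) (nat_lit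 1) (.p (nat_lit 373) (nat_lit 1) (.p (nat_lit 375) (nat_lit 5) (.n (nat_lit 376) (nat_lit 1) (.n (nat_lit 377) (nat_lit 4) (.p (nat_lit 378) (nat_lit 5) (.p (nat_lit 380) (nat_lit 2) (.p (nat_lit 381) (nat_lit 3) (.n (nat_lit 382) (nat_lit 3) (.p (nat_lit 383) (nat_lit 1) (.n (nat_lit 386) (nat_lit 2) (.p (nat_lit 387) (nat_lit 5) (.p (nat_lit 392) (nat_lit 1) (.n (nat_lit 393) (nat_lit 3) (.p (nat_lit 394) (nat_lit 1) (.p (nat_lit 395) (nat_lit 4) (.n (nat_lit 397) (nat_lit 2) (.n (nat_lit 401) (nat_lit 1) (.n (nat_lit 402) (nat_lit 3) (.p (nat_lit 404) (nat_lit 2) (.p (nat_lit 405) (nat_lit 1) (.p (nat_lit 406) (nat_lit 1) (.p (nat_lit 407) (nat_lit 2) (.p (nat_lit 408) (nat_lit 1) (.n (nat_lit 410) (nat_lit 1) (.p (nat_lit 411) (nat_lit 1) (.p (nat_lit 412) (nat_lit 2) (.p (nat_lit 413) (nat_lit 1) (.n (nat_lit 414) (nat_lit 1) (.n (nat_lit 415) (nat_lit 1) (.n (nat_lit 416) (nat_lit 1) (.n (nat_lit 417) (nat_lit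 1) (.p (nat_lit 419) (nat_lit 2) (.n (nat_lit 421) (nat_lit 1) (.n (nat_lit 422) (nat_lit 1) (.p (nat_lit 423) (nat_lit 2) (.p (nat_lit 424) (nat_lit 2) (.n (nat_lit 425) (nat_lit 1) (.n (nat_lit 426) (nat_lit 1) (.n (nat_lit 429) (nat_lit 1) (.n (nat_lit 430) (nat_lit 1) (.p (nat_lit 431) (nat_lit 1) (.n (nat_lit 433) (nat_lit 1) (.p (nat_lit 434) (nat_lit 1) .z)))))))))))))))))))))))))))))))))))))))))))))))))))))))))) .nil)))))))))))))))))))))))))

noncomputable def dC1d_i146 : IL := (.e false (nat_lit 2) (nat_lit 251) (nat_lit 2) (nat_lit 17) (.e true (nat_lit 1) (nat_lit 261) (nat_lit 1) (nat_lit 18) (.e true (nat_lit 2) (nat_lit 280) (nat_lit 1) (nat_lit 18) (.e false (nat_lit 1) (nat_lit 93) (nat_lit 9) (nat_lit 10) (.e false (nat_lit 3) (nat_lit 212) (nat_lit 2) (nat_lit 17) (.e false (nat_lit 1) (nat_lit 230) (nat_lit 2) (nat_lit 17) (.e true (nat_lit 3) (nat_lit 258) (nat_lit 2) (nat_lit 17) (.e true (nat_lit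 2) (nat_lit 259) (nat_lit 2) (nat_lit 17) (.e false (nat_lit 2) (nat_lit 263) (nat_lit 1) (nat_lit 18) (.e true (nat_lit 1) (nat_lit 272) (nat_lit 1) (nat_lit 18) (.e true (nat_lit 1) (nat_lit 273) (nat_lit 1) (nat_lit 18) (.e true (nat_lit 1) (nat_lit 277) (nat_lit 1) (nat_lit 18) (.e false (nat_lit 1) (nat_lit 288) (nat_lit 1) (nat_lit 18) (.e false (nat_lit 1) (nat_lit 286) (nat_lit 1) (nat_lit 18) (.e false (nat_lit 1) (nat_lit 274) (nat_lit 1) (nat_lit 18) (.e false (nat_lit 1) (nat_lit 216) (nat_lit 2) (nat_lit 17) (.e true (nat_lit 2) (nat_lit 256) (nat_lit 2) (nat_lit 17) (.e false (nat_lit 2) (nat_lit 136) (nat_lit 5) (nat_lit 14) (.e true (nat_lit 1) (nat_lit 143) (nat_lit 5) (nat_lit 14) (.e true (nat_lit 1) (nat_lit 144) (nat_lit 5) (nat_lit 14) (.e true (nat_lit 1) (nat_lit 290) (nat_lit 0) (nat_lit 19) (.e true (nat_lit 1) (nat_lit 291) (nat_lit 0) (nat_lit 19) (.e false (nat_lit 1) (nat_lit 292) (nat_lit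 0) (nat_lit 19) (.e false (nat_lit 2) (nat_lit 293) (nat_lit 0) (nat_lit 19) (.e false (nat_lit 3) (nat_lit 295) (nat_lit 0) (nat_lit 19) dC1d_i145)))))))))))))))))))))))))

noncomputable def dC1d_i147 : IL := (.e true (nat_lit 1) (nat_lit 269) (nat_lit 1) (nat_lit 18) (.e true (nat_lit 1) (nat_lit 270) (nat_lit 1) (nat_lit 18) (.e false (nat_lit 2) (nat_lit 271) (nat_lit 1) (nat_lit 18) (.e false (nat_lit 1) (nat_lit 278) (nat_lit 1) (nat_lit 18) (.e true (nat_lit 3) (nat_lit 97) (nat_lit 9) (nat_lit 10) (.e false (nat_lit 1) (nat_lit 213) (nat_lit 2) (nat_lit 17) (.e true (nat_lit 1) (nat_lit 214) (nat_lit 2) (nat_lit 17) (.e true (nat_lit 3) (nat_lit 215) (nat_lit 2) (nat_lit 17) (.e false (nat_lit 2) (nat_lit 218) (nat_lit 2) (nat_lit 17) (.e true (nat_lit 2) (nat_lit 219) (nat_lit 2) (nat_lit 17) (.e false (nat_lit 3) (nat_lit 221) (nat_lit 2) (nat_lit 17) (.e true (nat_lit 3) (nat_lit 226) (nat_lit 2) (nat_lit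 17) (.e false (nat_lit 1) (nat_lit 227) (nat_lit 2) (nat_lit 17) (.e false (nat_lit 3) (nat_lit 231) (nat_lit 2) (nat_lit 17) (.e true (nat_lit 1) (nat_lit 232) (nat_lit 2) (nat_lit 17) (.e true (nat_lit 3) (nat_lit 234) (nat_lit 2) (nat_lit 17) (.e false (nat_lit 1) (nat_lit 235) (nat_lit 2) (nat_lit 17) (.e true (nat_lit 3) (nat_lit 236) (nat_lit 2) (nat_lit 17) (.e true (nat_lit 1) (nat_lit 239) (nat_lit 2) (nat_lit 17) (.e false (nat_lit 2) (nat_lit 240) (nat_lit 2) (nat_lit 17) (.e false (nat_lit 3) (nat_lit 241) (nat_lit 2) (nat_lit 17) (.e false (nat_lit 3) (nat_lit 242) (nat_lit 2) (nat_lit 17) (.e false (nat_lit 1) (nat_lit 244) (nat_lit 2) (nat_lit 17) (.e true (nat_lit 1) (nat_lit 245) (nat_lit 2) (nat_lit 17) (.e true (nat_lit 2) (nat_lit 248) (nat_lit 2) (nat_lit 17) dC1d_i146)))))))))))))))))))))))))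

noncomputable def dC1d_i148 : IL := (.e true (nat_lit 2) (nat_lit 78) (nat_lit 13) (nat_lit 8) (.e true (nat_lit 3) (nat_lit 291) (nat_lit 0) (nat_lit 19) (.e true (nat_lit 3) (nat_lit 292) (nat_lit 0) (nat_lit 19) (.e true (nat_lit 1) (nat_lit 293) (nat_lit 0) (nat_lit 19) (.e false (nat_lit 2) (nat_lit 294) (nat_lit 0) (nat_lit 19) (.e true (nat_lit 1) (nat_lit 295) (nat_lit 0) (nat_lit 19) (.e true (nat_lit 3) (nat_lit 296) (nat_lit 0) (nat_lit 19) (.e false (nat_lit 1) (nat_lit 297) (nat_lit 0) (nat_lit 19) (.e false (nat_lit 2) (nat_lit 298) (nat_lit 0) (nat_lit 19) (.e false (nat_lit 3) (nat_lit 299) (nat_lit 0) (nat_lit 19) (.e false (nat_lit 1) (nat_lit 301) (nat_lit 0) (nat_lit 19) (.e false (nat_lit 1) (nat_lit 302) (nat_lit 0) (nat_lit 19) (.e true (nat_lit 3) (nat_lit 304) (nat_lit 0) (nat_lit 19) (.e false (nat_lit 3) (nat_lit 305) (nat_lit 0) (nat_lit 19) (.e false (nat_lit 1) (nat_lit 308) (nat_lit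 0) (nat_lit 19) (.e true (nat_lit 1) (nat_lit 309) (nat_lit 0) (nat_lit 19) (.e true (nat_lit 1) (nat_lit 310) (nat_lit 0) (nat_lit 19) (.e true (nat_lit 3) (nat_lit 316) (nat_lit 0) (nat_lit 19) (.e false (nat_lit 3) (nat_lit 290) (nat_lit 0) (nat_lit 19) (.e true (nat_lit 1) (nat_lit 144) (nat_lit 5) (nat_lit 14) (.e false (nat_lit 2) (nat_lit 160) (nat_lit 4) (nat_lit 15) (.u (nat_lit 2) (.p (nat_lit 0) (nat_lit 1) (.p (nat_lit 1) (nat_lit 1) (.n (nat_lit 2) (nat_lit 1) (.n (nat_lit 3) (nat_lit 1) (.p (nat_lit 4) (nat_lit 1) (.p (nat_lit 10) (nat_lit 2) (.n (nat_lit 11) (nat_lit 2) (.n (nat_lit 12) (nat_lit 1) (.n (nat_lit 15) (nat_lit 2) (.n (nat_lit 17) (nat_lit 1) (.n (nat_lit 18) (nat_lit 1) (.p (nat_lit 19) (nat_lit 1) (.n (nat_lit 20) (nat_lit 2) (.n (nat_lit 26) (nat_lit 2) (.p (nat_lit 28) (nat_lit 2) (.n (nat_lit 30) (nat_lit 1) (.p (nat_lit 31) (nat_lit 1) (.n (nat_lit 32) (nat_lit 2) (.p (nat_lit 33)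 (nat_lit 1) (.p (nat_lit 34) (nat_lit 2) (.n (nat_lit 35) (nat_lit 1) (.n (nat_lit 36) (nat_lit 1) (.n (nat_lit 37) (nat_lit 1) (.p (nat_lit 38) (nat_lit 2) (.n (nat_lit 40) (nat_lit 2) (.p (nat_lit 41) (nat_lit 1) (.p (nat_lit 49) (nat_lit 1) (.p (nat_lit 54) (nat_lit 1) (.n (nat_lit 55) (nat_lit 1) (.n (nat_lit 71) (nat_lit 2) (.n (nat_lit 72) (nat_lit 1) (.p (nat_lit 73) (nat_lit 1) (.p (nat_lit 74) (nat_lit 1) (.p (nat_lit 75) (nat_lit 1) (.n (nat_lit 76) (nat_lit 2) (.n (nat_lit 77) (nat_lit 1) (.p (nat_lit 83) (nat_lit 1) (.n (nat_lit 85) (nat_lit 1) (.p (nat_lit 89) (nat_lit 1) (.p (nat_lit 95) (nat_lit 1) (.n (nat_lit 101) (nat_lit 1) (.p (nat_lit 109) (nat_lit 1) (.p (nat_lit 116) (nat_lit 2) (.n (nat_lit 122) (nat_lit 1) (.p (nat_lit 125) (nat_lit 2) (.p (nat_lit 133) (nat_lit 2) (.p (nat_lit 140) (nat_lit 1) (.n (nat_lit 149) (nat_lit 2) (.p (nat_lit 150) (nat_lit 2) (.n (nat_lit 151) (nat_lit 3) (.n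 (nat_lit 152) (nat_lit 1) (.n (nat_lit 153) (nat_lit 1) (.n (nat_lit 156) (nat_lit 1) (.n (nat_lit 158) (nat_lit 2) (.n (nat_lit 159) (nat_lit 3) (.p (nat_lit 164) (nat_lit 1) (.p (nat_lit 165) (nat_lit 1) (.p (nat_lit 166) (nat_lit 2) (.p (nat_lit 167) (nat_lit 1) (.n (nat_lit 169) (nat_lit 3) .z)))))))))))))))))))))))))))))))))))))))))))))))))))))))))))) (.u (nat_lit 2) (.p (nat_lit 170) (nat_lit 1) (.n (nat_lit 171) (nat_lit 1) (.n (nat_lit 172) (nat_lit 1) (.n (nat_lit 180) (nat_lit 1) (.p (nat_lit 182) (nat_lit 1) (.p (nat_lit 188) (nat_lit 1) (.p (nat_lit 190) (nat_lit 1) (.p (nat_lit 197) (nat_lit 1) (.n (nat_lit 198) (nat_lit 1) (.p (nat_lit 209) (nat_lit 1) (.p (nat_lit 210) (nat_lit 1) (.p (nat_lit 214) (nat_lit 1) (.p (nat_lit 220) (nat_lit 1) (.p (nat_lit 232) (nat_lit 1) (.p (nat_lit 234) (nat_lit 1) (.n (nat_lit 235) (nat_lit 2) (.n (nat_lit 237) (nat_lit 1) (.n (nat_lit 238) (nat_lit 1) (.n (nat_lit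 243) (nat_lit 1) (.n (nat_lit 244) (nat_lit 3) (.n (nat_lit 246) (nat_lit 1) (.n (nat_lit 249) (nat_lit 2) (.p (nat_lit 251) (nat_lit 2) (.p (nat_lit 252) (nat_lit 1) (.p (nat_lit 254) (nat_lit 1) (.p (nat_lit 255) (nat_lit 1) (.p (nat_lit 257) (nat_lit 1) (.p (nat_lit 259) (nat_lit 1) (.n (nat_lit 260) (nat_lit 2) (.p (nat_lit 263) (nat_lit 1) (.p (nat_lit 266) (nat_lit 2) (.n (nat_lit 267) (nat_lit 1) (.n (nat_lit 270) (nat_lit 1) (.n (nat_lit 271) (nat_lit 1) (.n (nat_lit 272) (nat_lit 2) (.n (nat_lit 273) (nat_lit 1) (.p (nat_lit 274) (nat_lit 1) (.p (nat_lit 275) (nat_lit 4) (.p (nat_lit 276) (nat_lit 1) (.p (nat_lit 277) (nat_lit 2) (.n (nat_lit 278) (nat_lit 1) (.p (nat_lit 279) (nat_lit 2) (.p (nat_lit 281) (nat_lit 2) (.p (nat_lit 282) (nat_lit 1) (.n (nat_lit 287) (nat_lit 2) (.p (nat_lit 288) (nat_lit 1) (.p (nat_lit 289) (nat_lit 1) (.p (nat_lit 294) (nat_lit 2) (.n (nat_lit 297) (nat_lit 1) (.n (nat_lit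 298) (nat_lit 1) (.n (nat_lit 299) (nat_lit 1) (.p (nat_lit 301) (nat_lit 1) (.n (nat_lit 310) (nat_lit 1) (.p (nat_lit 311) (nat_lit 3) (.n (nat_lit 312) (nat_lit 1) (.p (nat_lit 313) (nat_lit 2) (.n (nat_lit 314) (nat_lit 1) (.p (nat_lit 316) (nat_lit 6) (.p (nat_lit 317) (nat_lit 4) (.p (nat_lit 318) (nat_lit 4) .z)))))))))))))))))))))))))))))))))))))))))))))))))))))))))))) (.u (nat_lit 2) (.n (nat_lit 320) (nat_lit 3) (.n (nat_lit 321) (nat_lit 4) (.p (nat_lit 324) (nat_lit 1) (.p (nat_lit 326) (nat_lit 1) (.p (nat_lit 327) (nat_lit 14) (.n (nat_lit 328) (nat_lit 7) (.n (nat_lit 330) (nat_lit 45) (.p (nat_lit 331) (nat_lit 45) (.p (nat_lit 332) (nat_lit 10) (.n (nat_lit 333) (nat_lit 22) (.p (nat_lit 334) (nat_lit 40) (.n (nat_lit 335) (nat_lit 4) (.n (nat_lit 336) (nat_lit 6) (.p (nat_lit 337) (nat_lit 34) (.n (nat_lit 338) (nat_lit 21) (.n (nat_lit 339) (nat_lit 32) (.n (nat_lit 340) (nat_lit 13) (.p (nat_lit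 341) (nat_lit 10) (.n (nat_lit 342) (nat_lit 14) (.n (nat_lit 343) (nat_lit 1) (.p (nat_lit 344) (nat_lit 14) (.n (nat_lit 345) (nat_lit 3) (.p (nat_lit 346) (nat_lit 26) (.n (nat_lit 347) (nat_lit 34) (.p (nat_lit 348) (nat_lit 20) (.p (nat_lit 349) (nat_lit 10) (.n (nat_lit 351) (nat_lit 16) (.n (nat_lit 352) (nat_lit 20) (.n (nat_lit 353) (nat_lit 22) (.n (nat_lit 354) (nat_lit 16) (.p (nat_lit 355) (nat_lit 8) (.n (nat_lit 356) (nat_lit 2) (.n (nat_lit 357) (nat_lit 2) (.p (nat_lit 358) (nat_lit 13) (.n (nat_lit 359) (nat_lit 15) (.n (nat_lit 360) (nat_lit 5) (.p (nat_lit 361) (nat_lit 11) (.n (nat_lit 362) (nat_lit 5) (.p (nat_lit 363) (nat_lit 16) (.p (nat_lit 364) (nat_lit 12) (.n (nat_lit 365) (nat_lit 2) (.n (nat_lit 366) (nat_lit 4) (.p (nat_lit 367) (nat_lit 12) (.n (nat_lit 368) (nat_lit 3) (.p (nat_lit 369) (nat_lit 11) (.n (nat_lit 370) (nat_lit 4) (.n (nat_lit 371) (nat_lit 10) (.p (nat_lit 372) (nat_lit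 6) (.p (nat_lit 373) (nat_lit 16) (.n (nat_lit 374) (nat_lit 6) (.p (nat_lit 375) (nat_lit 17) (.p (nat_lit 376) (nat_lit 15) (.n (nat_lit 377) (nat_lit 26) (.n (nat_lit 378) (nat_lit 7) (.p (nat_lit 379) (nat_lit 6) (.n (nat_lit 380) (nat_lit 9) (.p (nat_lit 381) (nat_lit 22) (.p (nat_lit 382) (nat_lit 19) (.n (nat_lit 383) (nat_lit 7) (.n (nat_lit 384) (nat_lit 9) .z)))))))))))))))))))))))))))))))))))))))))))))))))))))))))))) (.u (nat_lit 2) (.n (nat_lit 385) (nat_lit 3) (.n (nat_lit 386) (nat_lit 24) (.p (nat_lit 387) (nat_lit 15) (.p (nat_lit 388) (nat_lit 5) (.p (nat_lit 389) (nat_lit 9) (.p (nat_lit 391) (nat_lit 3) (.p (nat_lit 392) (nat_lit 17) (.p (nat_lit 394) (nat_lit 9) (.p (nat_lit 395) (nat_lit 24) (.n (nat_lit 396) (nat_lit 14) (.n (nat_lit 397) (nat_lit 7) (.n (nat_lit 398) (nat_lit 1) (.n (nat_lit 399) (nat_lit 4) (.n (nat_lit 400) (nat_lit 1) (.n (nat_lit 401) (nat_lit 1) (.p (nat_lit 402) (nat_lit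 24) (.p (nat_lit 403) (nat_lit 14) (.p (nat_lit 405) (nat_lit 12) (.p (nat_lit 406) (nat_lit 30) (.n (nat_lit 407) (nat_lit 15) (.p (nat_lit 408) (nat_lit 15) (.n (nat_lit 409) (nat_lit 5) (.n (nat_lit 410) (nat_lit 3) (.p (nat_lit 411) (nat_lit 7) (.n (nat_lit 412) (nat_lit 16) (.p (nat_lit 413) (nat_lit 9) (.p (nat_lit 414) (nat_lit 21) (.p (nat_lit 415) (nat_lit 13) (.n (nat_lit 416) (nat_lit 8) (.p (nat_lit 417) (nat_lit 7) (.n (nat_lit 418) (nat_lit 5) (.n (nat_lit 419) (nat_lit 15) (.p (nat_lit 420) (nat_lit 10) (.p (nat_lit 421) (nat_lit 2) (.p (nat_lit 422) (nat_lit 18) (.n (nat_lit 423) (nat_lit 16) (.n (nat_lit 424) (nat_lit 9) (.p (nat_lit 425) (nat_lit 8) (.p (nat_lit 426) (nat_lit 9) (.p (nat_lit 427) (nat_lit 2) (.n (nat_lit 428) (nat_lit 12) (.p (nat_lit 429) (nat_lit 5) (.p (nat_lit 430) (nat_lit 2) (.p (nat_lit 431) (nat_lit 10) (.n (nat_lit 432) (nat_lit 11) (.n (nat_lit 433) (nat_lit 6) (.n (nat_lit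 434) (nat_lit 12) .z))))))))))))))))))))))))))))))))))))))))))))))) .nil)))))))))))))))))))))))))

noncomputable def dC1d_i149 : IL := (.e false (nat_lit 1) (nat_lit 212) (nat_lit 2) (nat_lit 17) (.e false (nat_lit 2) (nat_lit 214) (nat_lit 2) (nat_lit 17) (.e false (nat_lit 1) (nat_lit 216) (nat_lit 2) (nat_lit 17) (.e true (nat_lit 2) (nat_lit 217) (nat_lit 2) (nat_lit 17) (.e false (nat_lit 1) (nat_lit 218) (nat_lit 2) (nat_lit 17) (.e false (nat_lit 1) (nat_lit 219) (nat_lit 2) (nat_lit 17) (.e true (nat_lit 3) (nat_lit 244) (nat_lit 2) (nat_lit 17) (.e false (nat_lit 2) (nat_lit 245) (nat_lit 2) (nat_lit 17) (.e true (nat_lit 1) (nat_lit 307) (nat_lit 0) (nat_lit 19) (.e true (nat_lit 3) (nat_lit 143) (nat_lit 5) (nat_lit 14) (.e false (nat_lit 1) (nat_lit 261) (nat_lit 1) (nat_lit 18) (.e false (nat_lit 1) (nat_lit 262) (nat_lit 1) (nat_lit 18) (.e false (nat_lit 2) (nat_lit 264) (nat_lit 1) (nat_lit 18) (.e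 true (nat_lit 1) (nat_lit 266) (nat_lit 1) (nat_lit 18) (.e true (nat_lit 1) (nat_lit 272) (nat_lit 1) (nat_lit 18) (.e true (nat_lit 3) (nat_lit 273) (nat_lit 1) (nat_lit 18) (.e true (nat_lit 1) (nat_lit 260) (nat_lit 1) (nat_lit 18) (.e false (nat_lit 1) (nat_lit 274) (nat_lit 1) (nat_lit 18) (.e false (nat_lit 1) (nat_lit 270) (nat_lit 1) (nat_lit 18) (.e false (nat_lit 2) (nat_lit 263) (nat_lit 1) (nat_lit 18) (.e true (nat_lit 3) (nat_lit 268) (nat_lit 1) (nat_lit 18) (.e true (nat_lit 3) (nat_lit 213) (nat_lit 2) (nat_lit 17) (.e true (nat_lit 3) (nat_lit 77) (nat_lit 13) (nat_lit 8) (.e false (nat_lit 3) (nat_lit 281) (nat_lit 1) (nat_lit 18) (.e false (nat_lit 2) (nat_lit 282) (nat_lit 1) (nat_lit 18) dC1d_i148)))))))))))))))))))))))))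

noncomputable def dC1d_i150 : IL := (.s false (nat_lit 3) (nat_lit 102) (nat_lit 0) (nat_lit 0) (nat_lit 1) true (nat_lit 16) true (nat_lit 18) false (nat_lit 12) true (nat_lit 19) true (nat_lit 19) (.s false (nat_lit 1) (nat_lit 104) (nat_lit 0) (nat_lit 0) (nat_lit 1) true (nat_lit 16) true (nat_lit 18) false (nat_lit 12) true (nat_lit 19) true (nat_lit 19) (.s true (nat_lit 3) (nat_lit 105) (nat_lit 0) (nat_lit 0) (nat_lit 1) true (nat_lit 16) true (nat_lit 18) false (nat_lit 12) true (nat_lit 19) true (nat_lit 19) (.s true (nat_lit 1) (nat_lit 102) (nat_lit 0) (nat_lit 1) (nat_lit 0) false (nat_lit 20) true (nat_lit 19) false (nat_lit 12) true (nat_lit 19) true (nat_lit 18) (.s true (nat_lit 3) (nat_lit 103) (nat_lit 0) (nat_lit 1) (nat_lit 0) false (nat_lit 20) true (nat_lit 19) false (nat_lit 12) true (nat_lit 19) true (nat_lit 18) (.s true (nat_lit 1) (nat_lit 104) (nat_lit 0) (nat_lit 1) (nat_lit 0) false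 (nat_lit 20) true (nat_lit 19) false (nat_lit 12) true (nat_lit 19) true (nat_lit 18) (.s true (nat_lit 3) (nat_lit 105) (nat_lit 0) (nat_lit 1) (nat_lit 0) false (nat_lit 20) true (nat_lit 19) false (nat_lit 12) true (nat_lit 19) true (nat_lit 18) (.s true (nat_lit 2) (nat_lit 103) (nat_lit 1) (nat_lit 0) (nat_lit 0) true (nat_lit 16) true (nat_lit 19) false (nat_lit 12) true (nat_lit 18) true (nat_lit 19) (.a true (nat_lit 1) (nat_lit 32) (nat_lit 32) (nat_lit 0) (nat_lit 0) (.a true (nat_lit 1) (nat_lit 34) (nat_lit 34) (nat_lit 0) (nat_lit 0) (.a true (nat_lit 1) (nat_lit 36) (nat_lit 36) (nat_lit 0) (nat_lit 0) (.a false (nat_lit 2) (nat_lit 31) (nat_lit 36) (nat_lit 0) (nat_lit 0) (.a true (nat_lit 3) (nat_lit 32) (nat_lit 36) (nat_lit 0) (nat_lit 0) (.a false (nat_lit 2) (nat_lit 33) (nat_lit 36) (nat_lit 0) (nat_lit 0) (.a false (nat_lit 2) (nat_lit 34) (nat_lit 36) (nat_lit 0) (nat_lit 0) (.a false (nat_lit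 3) (nat_lit 35) (nat_lit 36) (nat_lit 0) (nat_lit 0) (.a false (nat_lit 1) (nat_lit 31) (nat_lit 32) (nat_lit 0) (nat_lit 0) (.a true (nat_lit 1) (nat_lit 31) (nat_lit 33) (nat_lit 0) (nat_lit 0) (.a true (nat_lit 2) (nat_lit 31) (nat_lit 34) (nat_lit 0) (nat_lit 0) (.a true (nat_lit 1) (nat_lit 31) (nat_lit 35) (nat_lit 0) (nat_lit 0) (.a false (nat_lit 3) (nat_lit 32) (nat_lit 33) (nat_lit 0) (nat_lit 0) (.a false (nat_lit 3) (nat_lit 32) (nat_lit 35) (nat_lit 0) (nat_lit 0) (.a false (nat_lit 2) (nat_lit 33) (nat_lit 33) (nat_lit 0) (nat_lit 0) (.a true (nat_lit 3) (nat_lit 33) (nat_lit 34) (nat_lit 0) (nat_lit 0) (.a true (nat_lit 3) (nat_lit 33) (nat_lit 35) (nat_lit 0) (nat_lit 0) dC1d_i149)))))))))))))))))))))))))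

noncomputable def dC1d_i151 : IL := (.s false (nat_lit 1) (nat_lit 92) (nat_lit 0) (nat_lit 2) (nat_lit 1) true (nat_lit 16) true (nat_lit 18) false (nat_lit 9) true (nat_lit 19) true (nat_lit 17) (.s false (nat_lit 2) (nat_lit 82) (nat_lit 1) (nat_lit 0) (nat_lit 2) true (nat_lit 14) true (nat_lit 17) false (nat_lit 9) true (nat_lit 18) true (nat_lit 19) (.s true (nat_lit 3) (nat_lit 83) (nat_lit 1) (nat_lit 0) (nat_lit 2) true (nat_lit 14) true (nat_lit 17) false (nat_lit 9) true (nat_lit 18) true (nat_lit 19) (.s false (nat_lit 1) (nat_lit 82) (nat_lit 1) (nat_lit 2) (nat_lit 0) true (nat_lit 16) true (nat_lit 19) false (nat_lit 9) true (nat_lit 18) true (nat_lit 17) (.s true (nat_lit 2) (nat_lit 83) (nat_lit 1) (nat_lit 2) (nat_lit 0) true (nat_lit 16) true (nat_lit 19) false (nat_lit 9) true (nat_lit 18) true (nat_lit 17) (.s false (nat_lit 1) (nat_lit 86) (nat_lit 1) (nat_lit 2) (nat_lit 0) true (nat_lit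 16) true (nat_lit 19) false (nat_lit 9) true (nat_lit 18) true (nat_lit 17) (.s true (nat_lit 1) (nat_lit 87) (nat_lit 1) (nat_lit 2) (nat_lit 0) true (nat_lit 16) true (nat_lit 19) false (nat_lit 9) true (nat_lit 18) true (nat_lit 17) (.s false (nat_lit 1) (nat_lit 88) (nat_lit 1) (nat_lit 2) (nat_lit 0) true (nat_lit 16) true (nat_lit 19) false (nat_lit 9) true (nat_lit 18) true (nat_lit 17) (.s false (nat_lit 1) (nat_lit 89) (nat_lit 1) (nat_lit 2) (nat_lit 0) true (nat_lit 16) true (nat_lit 19) false (nat_lit 9) true (nat_lit 18) true (nat_lit 17) (.s false (nat_lit 1) (nat_lit 91) (nat_lit 1) (nat_lit 2) (nat_lit 0) true (nat_lit 16) true (nat_lit 19) false (nat_lit 9) true (nat_lit 18) true (nat_lit 17) (.s true (nat_lit 3) (nat_lit 84) (nat_lit 2) (nat_lit 0) (nat_lit 1) true (nat_lit 14) true (nat_lit 18) false (nat_lit 9) true (nat_lit 17) true (nat_lit 19) (.s true (nat_lit 2) (nat_lit 82) (nat_lit 2)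 (nat_lit 1) (nat_lit 0) true (nat_lit 15) true (nat_lit 19) false (nat_lit 9) true (nat_lit 17) true (nat_lit 18) (.s true (nat_lit 1) (nat_lit 83) (nat_lit 2) (nat_lit 1) (nat_lit 0) true (nat_lit 15) true (nat_lit 19) false (nat_lit 9) true (nat_lit 17) true (nat_lit 18) (.s true (nat_lit 2) (nat_lit 85) (nat_lit 2) (nat_lit 1) (nat_lit 0) true (nat_lit 15) true (nat_lit 19) false (nat_lit 9) true (nat_lit 17) true (nat_lit 18) (.s false (nat_lit 3) (nat_lit 94) (nat_lit 0) (nat_lit 2) (nat_lit 0) false (nat_lit 20) true (nat_lit 19) false (nat_lit 10) true (nat_lit 19) true (nat_lit 17) (.s true (nat_lit 1) (nat_lit 95) (nat_lit 0) (nat_lit 2) (nat_lit 0) false (nat_lit 20) true (nat_lit 19) false (nat_lit 10) true (nat_lit 19) true (nat_lit 17) (.s false (nat_lit 3) (nat_lit 96) (nat_lit 0) (nat_lit 2) (nat_lit 0) false (nat_lit 20) true (nat_lit 19) false (nat_lit 10) true (nat_lit 19) true (nat_lit 17) (.s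 true (nat_lit 1) (nat_lit 97) (nat_lit 0) (nat_lit 2) (nat_lit 0) false (nat_lit 20) true (nat_lit 19) false (nat_lit 10) true (nat_lit 19) true (nat_lit 17) (.s false (nat_lit 2) (nat_lit 98) (nat_lit 1) (nat_lit 0) (nat_lit 1) false (nat_lit 21) true (nat_lit 18) false (nat_lit 11) true (nat_lit 18) true (nat_lit 19) (.s true (nat_lit 2) (nat_lit 99) (nat_lit 1) (nat_lit 0) (nat_lit 1) false (nat_lit 21) true (nat_lit 18) false (nat_lit 11) true (nat_lit 18) true (nat_lit 19) (.s false (nat_lit 1) (nat_lit 100) (nat_lit 1) (nat_lit 0) (nat_lit 1) false (nat_lit 21) true (nat_lit 18) false (nat_lit 11) true (nat_lit 18) true (nat_lit 19) (.s true (nat_lit 2) (nat_lit 101) (nat_lit 1) (nat_lit 0) (nat_lit 1) false (nat_lit 21) true (nat_lit 18) false (nat_lit 11) true (nat_lit 18) true (nat_lit 19) (.s true (nat_lit 1) (nat_lit 98) (nat_lit 1) (nat_lit 1) (nat_lit 0) true (nat_lit 16) true (nat_lit 19) false (nat_lit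 11) true (nat_lit 18) true (nat_lit 18) (.s true (nat_lit 2) (nat_lit 99) (nat_lit 1) (nat_lit 1) (nat_lit 0) true (nat_lit 16) true (nat_lit 19) false (nat_lit 11) true (nat_lit 18) true (nat_lit 18) (.s true (nat_lit 3) (nat_lit 100) (nat_lit 1) (nat_lit 1) (nat_lit 0) true (nat_lit 16) true (nat_lit 19) false (nat_lit 11) true (nat_lit 18) true (nat_lit 18) dC1d_i150)))))))))))))))))))))))))

noncomputable def dC1d_i152 : IL := (.s false (nat_lit 2) (nat_lit 66) (nat_lit 2) (nat_lit 2) (nat_lit 0) true (nat_lit 15) true (nat_lit 19) false (nat_lit 7) true (nat_lit 17) true (nat_lit 17) (.s true (nat_lit 3) (nat_lit 67) (nat_lit 2) (nat_lit 2) (nat_lit 0) true (nat_lit 15) true (nat_lit 19) false (nat_lit 7) true (nat_lit 17) true (nat_lit 17) (.s false (nat_lit 1) (nat_lit 69) (nat_lit 2) (nat_lit 2) (nat_lit 0) true (nat_lit 15) true (nat_lit 19) false (nat_lit 7) true (nat_lit 17) true (nat_lit 17) (.s true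 (nat_lit 3) (nat_lit 72) (nat_lit 2) (nat_lit 2) (nat_lit 0) true (nat_lit 15) true (nat_lit 19) false (nat_lit 7) true (nat_lit 17) true (nat_lit 17) (.s false (nat_lit 1) (nat_lit 73) (nat_lit 2) (nat_lit 2) (nat_lit 0) true (nat_lit 15) true (nat_lit 19) false (nat_lit 7) true (nat_lit 17) true (nat_lit 17) (.s false (nat_lit 2) (nat_lit 77) (nat_lit 1) (nat_lit 1) (nat_lit 2) true (nat_lit 14) true (nat_lit 17) false (nat_lit 8) true (nat_lit 18) true (nat_lit 18) (.s true (nat_lit 2) (nat_lit 78) (nat_lit 1) (nat_lit 1) (nat_lit 2) true (nat_lit 14) true (nat_lit 17) false (nat_lit 8) true (nat_lit 18) true (nat_lit 18) (.s true (nat_lit 2) (nat_lit 80) (nat_lit 1) (nat_lit 1) (nat_lit 2) true (nat_lit 14) true (nat_lit 17) false (nat_lit 8) true (nat_lit 18) true (nat_lit 18) (.s true (nat_lit 2) (nat_lit 81) (nat_lit 1) (nat_lit 1) (nat_lit 2) true (nat_lit 14) true (nat_lit 17) false (nat_lit 8) true (nat_lit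 18) true (nat_lit 18) (.s false (nat_lit 1) (nat_lit 79) (nat_lit 2) (nat_lit 1) (nat_lit 1) true (nat_lit 14) true (nat_lit 18) false (nat_lit 8) true (nat_lit 17) true (nat_lit 18) (.s true (nat_lit 3) (nat_lit 80) (nat_lit 2) (nat_lit 1) (nat_lit 1) true (nat_lit 14) true (nat_lit 18) false (nat_lit 8) true (nat_lit 17) true (nat_lit 18) (.s true (nat_lit 3) (nat_lit 81) (nat_lit 2) (nat_lit 1) (nat_lit 1) true (nat_lit 14) true (nat_lit 18) false (nat_lit 8) true (nat_lit 17) true (nat_lit 18) (.s true (nat_lit 1) (nat_lit 82) (nat_lit 0) (nat_lit 1) (nat_lit 2) true (nat_lit 15) true (nat_lit 17) false (nat_lit 9) true (nat_lit 19) true (nat_lit 18) (.s true (nat_lit 1) (nat_lit 83) (nat_lit 0) (nat_lit 1) (nat_lit 2) true (nat_lit 15) true (nat_lit 17) false (nat_lit 9) true (nat_lit 19) true (nat_lit 18) (.s true (nat_lit 3) (nat_lit 85) (nat_lit 0) (nat_lit 1) (nat_lit 2) true (nat_lit 15) true (nat_lit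 17) false (nat_lit 9) true (nat_lit 19) true (nat_lit 18) (.s false (nat_lit 2) (nat_lit 90) (nat_lit 0) (nat_lit 1) (nat_lit 2) true (nat_lit 15) true (nat_lit 17) false (nat_lit 9) true (nat_lit 19) true (nat_lit 18) (.s false (nat_lit 3) (nat_lit 82) (nat_lit 0) (nat_lit 2) (nat_lit 1) true (nat_lit 16) true (nat_lit 18) false (nat_lit 9) true (nat_lit 19) true (nat_lit 17) (.s false (nat_lit 1) (nat_lit 83) (nat_lit 0) (nat_lit 2) (nat_lit 1) true (nat_lit 16) true (nat_lit 18) false (nat_lit 9) true (nat_lit 19) true (nat_lit 17) (.s true (nat_lit 1) (nat_lit 84) (nat_lit 0) (nat_lit 2) (nat_lit 1) true (nat_lit 16) true (nat_lit 18) false (nat_lit 9) true (nat_lit 19) true (nat_lit 17) (.s true (nat_lit 2) (nat_lit 85) (nat_lit 0) (nat_lit 2) (nat_lit 1) true (nat_lit 16) true (nat_lit 18) false (nat_lit 9) true (nat_lit 19) true (nat_lit 17) (.s false (nat_lit 2) (nat_lit 86) (nat_lit 0) (nat_lit 2) (nat_lit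 1) true (nat_lit 16) true (nat_lit 18) false (nat_lit 9) true (nat_lit 19) true (nat_lit 17) (.s false (nat_lit 3) (nat_lit 87) (nat_lit 0) (nat_lit 2) (nat_lit 1) true (nat_lit 16) true (nat_lit 18) false (nat_lit 9) true (nat_lit 19) true (nat_lit 17) (.s true (nat_lit 3) (nat_lit 88) (nat_lit 0) (nat_lit 2) (nat_lit 1) true (nat_lit 16) true (nat_lit 18) false (nat_lit 9) true (nat_lit 19) true (nat_lit 17) (.s true (nat_lit 1) (nat_lit 89) (nat_lit 0) (nat_lit 2) (nat_lit 1) true (nat_lit 16) true (nat_lit 18) false (nat_lit 9) true (nat_lit 19) true (nat_lit 17) (.s false (nat_lit 2) (nat_lit 90) (nat_lit 0) (nat_lit 2) (nat_lit 1) true (nat_lit 16) true (nat_lit 18) false (nat_lit 9) true (nat_lit 19) true (nat_lit 17) dC1d_i151)))))))))))))))))))))))))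

noncomputable def dC1d_i153 : IL := (.s false (nat_lit 3) (nat_lit 55) (nat_lit 2) (nat_lit 1) (nat_lit 2) true (nat_lit 13) true (nat_lit 17) false (nat_lit 6) true (nat_lit 17) true (nat_lit 18) (.s true (nat_lit 1) (nat_lit 56) (nat_lit 2) (nat_lit 1) (nat_lit 2) true (nat_lit 13) true (nat_lit 17) false (nat_lit 6) true (nat_lit 17) true (nat_lit 18) (.s false (nat_lit 2) (nat_lit 57) (nat_lit 2) (nat_lit 1) (nat_lit 2) true (nat_lit 13) true (nat_lit 17) false (nat_lit 6) true (nat_lit 17) true (nat_lit 18) (.s true (nat_lit 2) (nat_lit 58) (nat_lit 2) (nat_lit 1) (nat_lit 2) true (nat_lit 13) true (nat_lit 17) false (nat_lit 6) true (nat_lit 17) true (nat_lit 18) (.s false (nat_lit 3) (nat_lit 59) (nat_lit 2) (nat_lit 1) (nat_lit 2) true (nat_lit 13) true (nat_lit 17) false (nat_lit 6) true (nat_lit 17) true (nat_lit 18) (.s false (nat_lit 3) (nat_lit 60) (nat_lit 2) (nat_lit 1) (nat_lit 2) true (nat_lit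 13) true (nat_lit 17) false (nat_lit 6) true (nat_lit 17) true (nat_lit 18) (.s true (nat_lit 1) (nat_lit 61) (nat_lit 2) (nat_lit 1) (nat_lit 2) true (nat_lit 13) true (nat_lit 17) false (nat_lit 6) true (nat_lit 17) true (nat_lit 18) (.s true (nat_lit 2) (nat_lit 62) (nat_lit 2) (nat_lit 1) (nat_lit 2) true (nat_lit 13) true (nat_lit 17) false (nat_lit 6) true (nat_lit 17) true (nat_lit 18) (.s false (nat_lit 3) (nat_lit 64) (nat_lit 2) (nat_lit 1) (nat_lit 2) true (nat_lit 13) true (nat_lit 17) false (nat_lit 6) true (nat_lit 17) true (nat_lit 18) (.s true (nat_lit 1) (nat_lit 65) (nat_lit 2) (nat_lit 1) (nat_lit 2) true (nat_lit 13) true (nat_lit 17) false (nat_lit 6) true (nat_lit 17) true (nat_lit 18) (.s true (nat_lit 2) (nat_lit 55) (nat_lit 2) (nat_lit 2) (nat_lit 1) true (nat_lit 14) true (nat_lit 18) false (nat_lit 6) true (nat_lit 17) true (nat_lit 17) (.s false (nat_lit 3) (nat_lit 57) (nat_lit 2) (nat_lit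 2) (nat_lit 1) true (nat_lit 14) true (nat_lit 18) false (nat_lit 6) true (nat_lit 17) true (nat_lit 17) (.s false (nat_lit 3) (nat_lit 59) (nat_lit 2) (nat_lit 2) (nat_lit 1) true (nat_lit 14) true (nat_lit 18) false (nat_lit 6) true (nat_lit 17) true (nat_lit 17) (.s false (nat_lit 2) (nat_lit 62) (nat_lit 2) (nat_lit 2) (nat_lit 1) true (nat_lit 14) true (nat_lit 18) false (nat_lit 6) true (nat_lit 17) true (nat_lit 17) (.s false (nat_lit 3) (nat_lit 63) (nat_lit 2) (nat_lit 2) (nat_lit 1) true (nat_lit 14) true (nat_lit 18) false (nat_lit 6) true (nat_lit 17) true (nat_lit 17) (.s false (nat_lit 3) (nat_lit 64) (nat_lit 2) (nat_lit 2) (nat_lit 1) true (nat_lit 14) true (nat_lit 18) false (nat_lit 6) true (nat_lit 17) true (nat_lit 17) (.s true (nat_lit 1) (nat_lit 66) (nat_lit 0) (nat_lit 2) (nat_lit 2) true (nat_lit 15) true (nat_lit 17) false (nat_lit 7) true (nat_lit 19) true (nat_lit 17) (.s true (nat_lit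 2) (nat_lit 67) (nat_lit 0) (nat_lit 2) (nat_lit 2) true (nat_lit 15) true (nat_lit 17) false (nat_lit 7) true (nat_lit 19) true (nat_lit 17) (.s false (nat_lit 3) (nat_lit 70) (nat_lit 0) (nat_lit 2) (nat_lit 2) true (nat_lit 15) true (nat_lit 17) false (nat_lit 7) true (nat_lit 19) true (nat_lit 17) (.s true (nat_lit 3) (nat_lit 73) (nat_lit 0) (nat_lit 2) (nat_lit 2) true (nat_lit 15) true (nat_lit 17) false (nat_lit 7) true (nat_lit 19) true (nat_lit 17) (.s true (nat_lit 3) (nat_lit 74) (nat_lit 0) (nat_lit 2) (nat_lit 2) true (nat_lit 15) true (nat_lit 17) false (nat_lit 7) true (nat_lit 19) true (nat_lit 17) (.s true (nat_lit 3) (nat_lit 75) (nat_lit 0) (nat_lit 2) (nat_lit 2) true (nat_lit 15) true (nat_lit 17) false (nat_lit 7) true (nat_lit 19) true (nat_lit 17) (.s true (nat_lit 1) (nat_lit 76) (nat_lit 0) (nat_lit 2) (nat_lit 2) true (nat_lit 15) true (nat_lit 17) false (nat_lit 7) true (nat_lit 19)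 true (nat_lit 17) (.s false (nat_lit 2) (nat_lit 66) (nat_lit 2) (nat_lit 0) (nat_lit 2) true (nat_lit 13) true (nat_lit 17) false (nat_lit 7) true (nat_lit 17) true (nat_lit 19) (.s true (nat_lit 1) (nat_lit 74) (nat_lit 2) (nat_lit 0) (nat_lit 2) true (nat_lit 13) true (nat_lit 17) false (nat_lit 7) true (nat_lit 17) true (nat_lit 19) dC1d_i152)))))))))))))))))))))))))

noncomputable def dC1d_i154 : IL := (.s false (nat_lit 2) (nat_lit 42) (nat_lit 3) (nat_lit 1) (nat_lit 2) true (nat_lit 9) true (nat_lit 17) false (nat_lit 2) true (nat_lit 16) true (nat_lit 18) (.s true (nat_lit 1) (nat_lit 40) (nat_lit 4) (nat_lit 1) (nat_lit 1) true (nat_lit 9) true (nat_lit 18) false (nat_lit 2) true (nat_lit 15) true (nat_lit 18) (.s false (nat_lit 1) (nat_lit 41) (nat_lit 4) (nat_lit 1) (nat_lit 1) true (nat_lit 9) true (nat_lit 18) false (nat_lit 2) true (nat_lit 15) true (nat_lit 18) (.s false (nat_lit 1) (nat_lit 43)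 (nat_lit 0) (nat_lit 2) (nat_lit 3) true (nat_lit 12) true (nat_lit 16) false (nat_lit 3) true (nat_lit 19) true (nat_lit 17) (.s true (nat_lit 2) (nat_lit 44) (nat_lit 0) (nat_lit 3) (nat_lit 2) true (nat_lit 15) true (nat_lit 17) false (nat_lit 3) true (nat_lit 19) true (nat_lit 16) (.s true (nat_lit 1) (nat_lit 45) (nat_lit 2) (nat_lit 3) (nat_lit 0) true (nat_lit 15) true (nat_lit 19) false (nat_lit 3) true (nat_lit 17) true (nat_lit 16) (.s false (nat_lit 3) (nat_lit 44) (nat_lit 3) (nat_lit 2) (nat_lit 0) true (nat_lit 12) true (nat_lit 19) false (nat_lit 3) true (nat_lit 16) true (nat_lit 17) (.s false (nat_lit 3) (nat_lit 44) (nat_lit 4) (nat_lit 1) (nat_lit 0) true (nat_lit 10) true (nat_lit 19) false (nat_lit 3) true (nat_lit 15) true (nat_lit 18) (.s false (nat_lit 1) (nat_lit 43) (nat_lit 5) (nat_lit 0) (nat_lit 0) true (nat_lit 9) true (nat_lit 19) false (nat_lit 3) true (nat_lit 14) true (nat_lit 19)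 (.s false (nat_lit 2) (nat_lit 46) (nat_lit 0) (nat_lit 1) (nat_lit 3) true (nat_lit 12) true (nat_lit 16) false (nat_lit 4) true (nat_lit 19) true (nat_lit 18) (.s true (nat_lit 1) (nat_lit 46) (nat_lit 3) (nat_lit 0) (nat_lit 1) true (nat_lit 11) true (nat_lit 18) false (nat_lit 4) true (nat_lit 16) true (nat_lit 19) (.s true (nat_lit 3) (nat_lit 46) (nat_lit 3) (nat_lit 1) (nat_lit 0) true (nat_lit 12) true (nat_lit 19) false (nat_lit 4) true (nat_lit 16) true (nat_lit 18) (.s true (nat_lit 1) (nat_lit 48) (nat_lit 2) (nat_lit 2) (nat_lit 2) true (nat_lit 13) true (nat_lit 17) false (nat_lit 5) true (nat_lit 17) true (nat_lit 17) (.s true (nat_lit 1) (nat_lit 50) (nat_lit 2) (nat_lit 2) (nat_lit 2) true (nat_lit 13) true (nat_lit 17) false (nat_lit 5) true (nat_lit 17) true (nat_lit 17) (.s false (nat_lit 2) (nat_lit 53) (nat_lit 2) (nat_lit 2) (nat_lit 2) true (nat_lit 13) true (nat_lit 17) false (nat_lit 5)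 true (nat_lit 17) true (nat_lit 17) (.s true (nat_lit 2) (nat_lit 55) (nat_lit 1) (nat_lit 2) (nat_lit 2) true (nat_lit 14) true (nat_lit 17) false (nat_lit 6) true (nat_lit 18) true (nat_lit 17) (.s true (nat_lit 1) (nat_lit 56) (nat_lit 1) (nat_lit 2) (nat_lit 2) true (nat_lit 14) true (nat_lit 17) false (nat_lit 6) true (nat_lit 18) true (nat_lit 17) (.s false (nat_lit 2) (nat_lit 57) (nat_lit 1) (nat_lit 2) (nat_lit 2) true (nat_lit 14) true (nat_lit 17) false (nat_lit 6) true (nat_lit 18) true (nat_lit 17) (.s false (nat_lit 1) (nat_lit 58) (nat_lit 1) (nat_lit 2) (nat_lit 2) true (nat_lit 14) true (nat_lit 17) false (nat_lit 6) true (nat_lit 18) true (nat_lit 17) (.s false (nat_lit 2) (nat_lit 60) (nat_lit 1) (nat_lit 2) (nat_lit 2) true (nat_lit 14) true (nat_lit 17) false (nat_lit 6) true (nat_lit 18) true (nat_lit 17) (.s true (nat_lit 2) (nat_lit 61) (nat_lit 1) (nat_lit 2) (nat_lit 2) true (nat_lit 14)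 true (nat_lit 17) false (nat_lit 6) true (nat_lit 18) true (nat_lit 17) (.s true (nat_lit 3) (nat_lit 62) (nat_lit 1) (nat_lit 2) (nat_lit 2) true (nat_lit 14) true (nat_lit 17) false (nat_lit 6) true (nat_lit 18) true (nat_lit 17) (.s false (nat_lit 1) (nat_lit 63) (nat_lit 1) (nat_lit 2) (nat_lit 2) true (nat_lit 14) true (nat_lit 17) false (nat_lit 6) true (nat_lit 18) true (nat_lit 17) (.s true (nat_lit 1) (nat_lit 64) (nat_lit 1) (nat_lit 2) (nat_lit 2) true (nat_lit 14) true (nat_lit 17) false (nat_lit 6) true (nat_lit 18) true (nat_lit 17) (.s false (nat_lit 3) (nat_lit 65) (nat_lit 1) (nat_lit 2) (nat_lit 2) true (nat_lit 14) true (nat_lit 17) false (nat_lit 6) true (nat_lit 18) true (nat_lit 17) dC1d_i153)))))))))))))))))))))))))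

noncomputable def dC1d_i155 : IL := (.s false (nat_lit 3) (nat_lit 28) (nat_lit 1) (nat_lit 5) (nat_lit 2) true (nat_lit 14) true (nat_lit 17) true (nat_lit 1) true (nat_lit 18) true (nat_lit 14) (.s false (nat_lit 1) (nat_lit 28) (nat_lit 2) (nat_lit 1) (nat_lit 5) true (nat_lit 6) true (nat_lit 14) true (nat_lit 1) true (nat_lit 17) true (nat_lit 18) (.s false (nat_lit 3) (nat_lit 29) (nat_lit 2) (nat_lit 1) (nat_lit 5) true (nat_lit 6) true (nat_lit 14) true (nat_lit 1) true (nat_lit 17) true (nat_lit 18) (.s false (nat_lit 3) (nat_lit 28) (nat_lit 2) (nat_lit 5) (nat_lit 1) true (nat_lit 14) true (nat_lit 18) true (nat_lit 1) true (nat_lit 17) true (nat_lit 14) (.s false (nat_lit 2) (nat_lit 28) (nat_lit 5) (nat_lit 1) (nat_lit 2) true (nat_lit 6) true (nat_lit 17) true (nat_lit 1) true (nat_lit 14) true (nat_lit 18) (.s true (nat_lit 2) (nat_lit 30) (nat_lit 5) (nat_lit 1) (nat_lit 2) true (nat_lit 6) true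 (nat_lit 17) true (nat_lit 1) true (nat_lit 14) true (nat_lit 18) (.s false (nat_lit 1) (nat_lit 28) (nat_lit 5) (nat_lit 2) (nat_lit 1) true (nat_lit 8) true (nat_lit 18) true (nat_lit 1) true (nat_lit 14) true (nat_lit 17) (.s false (nat_lit 2) (nat_lit 29) (nat_lit 6) (nat_lit 1) (nat_lit 1) true (nat_lit 6) true (nat_lit 18) true (nat_lit 1) true (nat_lit 13) true (nat_lit 18) (.s false (nat_lit 1) (nat_lit 34) (nat_lit 0) (nat_lit 1) (nat_lit 6) true (nat_lit 7) true (nat_lit 13) true (nat_lit 0) true (nat_lit 19) true (nat_lit 18) (.s false (nat_lit 3) (nat_lit 31) (nat_lit 0) (nat_lit 2) (nat_lit 5) true (nat_lit 9) true (nat_lit 14) true (nat_lit 0) true (nat_lit 19) true (nat_lit 17) (.s true (nat_lit 3) (nat_lit 34) (nat_lit 0) (nat_lit 2) (nat_lit 5) true (nat_lit 9) true (nat_lit 14) true (nat_lit 0) true (nat_lit 19) true (nat_lit 17) (.s true (nat_lit 2) (nat_lit 36) (nat_lit 1) (nat_lit 6) (nat_lit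 0) true (nat_lit 16) true (nat_lit 19) true (nat_lit 0) true (nat_lit 18) true (nat_lit 13) (.s false (nat_lit 2) (nat_lit 31) (nat_lit 2) (nat_lit 0) (nat_lit 5) true (nat_lit 6) true (nat_lit 14) true (nat_lit 0) true (nat_lit 17) true (nat_lit 19) (.s false (nat_lit 1) (nat_lit 31) (nat_lit 2) (nat_lit 1) (nat_lit 4) true (nat_lit 7) true (nat_lit 15) true (nat_lit 0) true (nat_lit 17) true (nat_lit 18) (.s false (nat_lit 1) (nat_lit 36) (nat_lit 2) (nat_lit 1) (nat_lit 4) true (nat_lit 7) true (nat_lit 15) true (nat_lit 0) true (nat_lit 17) true (nat_lit 18) (.s true (nat_lit 1) (nat_lit 34) (nat_lit 2) (nat_lit 2) (nat_lit 3) true (nat_lit 9) true (nat_lit 16) true (nat_lit 0) true (nat_lit 17) true (nat_lit 17) (.s true (nat_lit 2) (nat_lit 34) (nat_lit 2) (nat_lit 3) (nat_lit 2) true (nat_lit 13) true (nat_lit 17) true (nat_lit 0) true (nat_lit 17) true (nat_lit 16) (.s true (nat_lit 3) (nat_lit 31) (nat_lit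 2) (nat_lit 5) (nat_lit 0) true (nat_lit 15) true (nat_lit 19) true (nat_lit 0) true (nat_lit 17) true (nat_lit 14) (.s false (nat_lit 3) (nat_lit 35) (nat_lit 6) (nat_lit 0) (nat_lit 1) true (nat_lit 6) true (nat_lit 18) true (nat_lit 0) true (nat_lit 13) true (nat_lit 19) (.s true (nat_lit 3) (nat_lit 34) (nat_lit 6) (nat_lit 1) (nat_lit 0) true (nat_lit 7) true (nat_lit 19) true (nat_lit 0) true (nat_lit 13) true (nat_lit 18) (.s true (nat_lit 1) (nat_lit 37) (nat_lit 6) (nat_lit 0) (nat_lit 0) true (nat_lit 7) true (nat_lit 19) false (nat_lit 1) true (nat_lit 13) true (nat_lit 19) (.s true (nat_lit 2) (nat_lit 40) (nat_lit 0) (nat_lit 1) (nat_lit 5) true (nat_lit 9) true (nat_lit 14) false (nat_lit 2) true (nat_lit 19) true (nat_lit 18) (.s false (nat_lit 2) (nat_lit 40) (nat_lit 0) (nat_lit 5) (nat_lit 1) true (nat_lit 16) true (nat_lit 18) false (nat_lit 2) true (nat_lit 19) true (nat_lit 14) (.s false (nat_lit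 3) (nat_lit 40) (nat_lit 1) (nat_lit 2) (nat_lit 3) true (nat_lit 11) true (nat_lit 16) false (nat_lit 2) true (nat_lit 18) true (nat_lit 17) (.s true (nat_lit 3) (nat_lit 40) (nat_lit 2) (nat_lit 1) (nat_lit 3) true (nat_lit 9) true (nat_lit 16) false (nat_lit 2) true (nat_lit 17) true (nat_lit 18) dC1d_i154)))))))))))))))))))))))))

noncomputable def dC1d_i156 : IL := (.s true (nat_lit 1) (nat_lit 18) (nat_lit 1) (nat_lit 11) (nat_lit 0) true (nat_lit 16) true (nat_lit 19) true (nat_lit 5) true (nat_lit 18) true (nat_lit 9) (.s true (nat_lit 1) (nat_lit 18) (nat_lit 8) (nat_lit 0) (nat_lit 2) true (nat_lit 2) true (nat_lit 17) true (nat_lit 5) true (nat_lit 11) true (nat_lit 19) (.s true (nat_lit 3) (nat_lit 18) (nat_lit 9) (nat_lit 1) (nat_lit 1) true (nat_lit 3) true (nat_lit 18) true (nat_lit 5) true (nat_lit 10) true (nat_lit 18) (.s true (nat_lit 2) (nat_lit 18) (nat_lit 10) (nat_lit 1) (nat_lit 0) true (nat_lit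 3) true (nat_lit 19) true (nat_lit 5) true (nat_lit 9) true (nat_lit 18) (.s true (nat_lit 3) (nat_lit 19) (nat_lit 2) (nat_lit 6) (nat_lit 2) true (nat_lit 13) true (nat_lit 17) true (nat_lit 4) true (nat_lit 17) true (nat_lit 13) (.s false (nat_lit 1) (nat_lit 19) (nat_lit 6) (nat_lit 2) (nat_lit 2) true (nat_lit 5) true (nat_lit 17) true (nat_lit 4) true (nat_lit 13) true (nat_lit 17) (.s false (nat_lit 3) (nat_lit 21) (nat_lit 1) (nat_lit 2) (nat_lit 6) true (nat_lit 6) true (nat_lit 13) true (nat_lit 3) true (nat_lit 18) true (nat_lit 17) (.s false (nat_lit 2) (nat_lit 20) (nat_lit 1) (nat_lit 6) (nat_lit 2) true (nat_lit 14) true (nat_lit 17) true (nat_lit 3) true (nat_lit 18) true (nat_lit 13) (.s true (nat_lit 1) (nat_lit 22) (nat_lit 2) (nat_lit 1) (nat_lit 6) true (nat_lit 5) true (nat_lit 13) true (nat_lit 3) true (nat_lit 17) true (nat_lit 18) (.s true (nat_lit 1) (nat_lit 22) (nat_lit 2) (nat_lit 2)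 (nat_lit 5) true (nat_lit 6) true (nat_lit 14) true (nat_lit 3) true (nat_lit 17) true (nat_lit 17) (.s true (nat_lit 1) (nat_lit 20) (nat_lit 2) (nat_lit 5) (nat_lit 2) true (nat_lit 13) true (nat_lit 17) true (nat_lit 3) true (nat_lit 17) true (nat_lit 14) (.s false (nat_lit 3) (nat_lit 21) (nat_lit 2) (nat_lit 6) (nat_lit 1) true (nat_lit 14) true (nat_lit 18) true (nat_lit 3) true (nat_lit 17) true (nat_lit 13) (.s true (nat_lit 1) (nat_lit 22) (nat_lit 2) (nat_lit 6) (nat_lit 1) true (nat_lit 14) true (nat_lit 18) true (nat_lit 3) true (nat_lit 17) true (nat_lit 13) (.s false (nat_lit 3) (nat_lit 20) (nat_lit 5) (nat_lit 2) (nat_lit 2) true (nat_lit 6) true (nat_lit 17) true (nat_lit 3) true (nat_lit 14) true (nat_lit 17) (.s false (nat_lit 3) (nat_lit 21) (nat_lit 6) (nat_lit 1) (nat_lit 2) true (nat_lit 5) true (nat_lit 17) true (nat_lit 3) true (nat_lit 13) true (nat_lit 18) (.s false (nat_lit 3) (nat_lit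 24) (nat_lit 0) (nat_lit 2) (nat_lit 6) true (nat_lit 7) true (nat_lit 13) true (nat_lit 2) true (nat_lit 19) true (nat_lit 17) (.s true (nat_lit 2) (nat_lit 25) (nat_lit 0) (nat_lit 2) (nat_lit 6) true (nat_lit 7) true (nat_lit 13) true (nat_lit 2) true (nat_lit 19) true (nat_lit 17) (.s true (nat_lit 2) (nat_lit 24) (nat_lit 2) (nat_lit 2) (nat_lit 4) true (nat_lit 7) true (nat_lit 15) true (nat_lit 2) true (nat_lit 17) true (nat_lit 17) (.s false (nat_lit 2) (nat_lit 25) (nat_lit 2) (nat_lit 2) (nat_lit 4) true (nat_lit 7) true (nat_lit 15) true (nat_lit 2) true (nat_lit 17) true (nat_lit 17) (.s false (nat_lit 1) (nat_lit 26) (nat_lit 2) (nat_lit 4) (nat_lit 2) true (nat_lit 13) true (nat_lit 17) true (nat_lit 2) true (nat_lit 17) true (nat_lit 15) (.s true (nat_lit 3) (nat_lit 25) (nat_lit 4) (nat_lit 2) (nat_lit 2) true (nat_lit 7) true (nat_lit 17) true (nat_lit 2) true (nat_lit 15) true (nat_lit 17) (.s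 false (nat_lit 1) (nat_lit 24) (nat_lit 6) (nat_lit 0) (nat_lit 2) true (nat_lit 5) true (nat_lit 17) true (nat_lit 2) true (nat_lit 13) true (nat_lit 19) (.s true (nat_lit 1) (nat_lit 26) (nat_lit 6) (nat_lit 0) (nat_lit 2) true (nat_lit 5) true (nat_lit 17) true (nat_lit 2) true (nat_lit 13) true (nat_lit 19) (.s false (nat_lit 2) (nat_lit 30) (nat_lit 1) (nat_lit 1) (nat_lit 6) true (nat_lit 6) true (nat_lit 13) true (nat_lit 1) true (nat_lit 18) true (nat_lit 18) (.s false (nat_lit 3) (nat_lit 29) (nat_lit 1) (nat_lit 2) (nat_lit 5) true (nat_lit 8) true (nat_lit 14) true (nat_lit 1) true (nat_lit 18) true (nat_lit 17) dC1d_i155)))))))))))))))))))))))))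

noncomputable def dC1d_i157 : IL := (.s false (nat_lit 3) (nat_lit 15) (nat_lit 8) (nat_lit 2) (nat_lit 2) true (nat_lit 2) true (nat_lit 17) true (nat_lit 7) true (nat_lit 11) true (nat_lit 17) (.s false (nat_lit 1) (nat_lit 15) (nat_lit 13) (nat_lit 0) (nat_lit 2) false (nat_lit 1) true (nat_lit 17) true (nat_lit 7) true (nat_lit 8) true (nat_lit 19) (.s false (nat_lit 3) (nat_lit 14) (nat_lit 13) (nat_lit 2) (nat_lit 0) true (nat_lit 2) true (nat_lit 19) true (nat_lit 7) true (nat_lit 8) true (nat_lit 17) (.s false (nat_lit 1) (nat_lit 16) (nat_lit 0) (nat_lit 0) (nat_lit 16) true (nat_lit 0) true (nat_lit 6) true (nat_lit 6) true (nat_lit 19) true (nat_lit 19) (.s true (nat_lit 3) (nat_lit 17) (nat_lit 0) (nat_lit 0) (nat_lit 16) true (nat_lit 0) true (nat_lit 6) true (nat_lit 6) true (nat_lit 19) true (nat_lit 19) (.s true (nat_lit 3) (nat_lit 17) (nat_lit 0) (nat_lit 0) (nat_lit 17) true (nat_lit 0) true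 (nat_lit 6) true (nat_lit 6) true (nat_lit 19) true (nat_lit 19) (.s false (nat_lit 1) (nat_lit 16) (nat_lit 0) (nat_lit 2) (nat_lit 11) true (nat_lit 3) true (nat_lit 9) true (nat_lit 6) true (nat_lit 19) true (nat_lit 17) (.s false (nat_lit 2) (nat_lit 16) (nat_lit 0) (nat_lit 17) (nat_lit 0) false (nat_lit 20) true (nat_lit 19) true (nat_lit 6) true (nat_lit 19) true (nat_lit 6) (.s false (nat_lit 3) (nat_lit 17) (nat_lit 1) (nat_lit 0) (nat_lit 14) true (nat_lit 0) true (nat_lit 7) true (nat_lit 6) true (nat_lit 18) true (nat_lit 19) (.s false (nat_lit 1) (nat_lit 16) (nat_lit 1) (nat_lit 9) (nat_lit 2) true (nat_lit 14) true (nat_lit 17) true (nat_lit 6) true (nat_lit 18) true (nat_lit 10) (.s true (nat_lit 3) (nat_lit 17) (nat_lit 2) (nat_lit 1) (nat_lit 9) true (nat_lit 1) true (nat_lit 10) true (nat_lit 6) true (nat_lit 17) true (nat_lit 18) (.s true (nat_lit 3) (nat_lit 17) (nat_lit 2) (nat_lit 2) (nat_lit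 7) true (nat_lit 3) true (nat_lit 12) true (nat_lit 6) true (nat_lit 17) true (nat_lit 17) (.s false (nat_lit 1) (nat_lit 17) (nat_lit 2) (nat_lit 7) (nat_lit 2) true (nat_lit 13) true (nat_lit 17) true (nat_lit 6) true (nat_lit 17) true (nat_lit 12) (.s true (nat_lit 1) (nat_lit 16) (nat_lit 2) (nat_lit 9) (nat_lit 1) true (nat_lit 14) true (nat_lit 18) true (nat_lit 6) true (nat_lit 17) true (nat_lit 10) (.s false (nat_lit 1) (nat_lit 17) (nat_lit 2) (nat_lit 9) (nat_lit 1) true (nat_lit 14) true (nat_lit 18) true (nat_lit 6) true (nat_lit 17) true (nat_lit 10) (.s true (nat_lit 2) (nat_lit 16) (nat_lit 2) (nat_lit 10) (nat_lit 0) true (nat_lit 15) true (nat_lit 19) true (nat_lit 6) true (nat_lit 17) true (nat_lit 9) (.s true (nat_lit 1) (nat_lit 16) (nat_lit 7) (nat_lit 2) (nat_lit 2) true (nat_lit 3) true (nat_lit 17) true (nat_lit 6) true (nat_lit 12) true (nat_lit 17) (.s false (nat_lit 3) (nat_lit 16) (nat_lit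 9) (nat_lit 1) (nat_lit 2) true (nat_lit 1) true (nat_lit 17) true (nat_lit 6) true (nat_lit 10) true (nat_lit 18) (.s true (nat_lit 3) (nat_lit 17) (nat_lit 9) (nat_lit 1) (nat_lit 2) true (nat_lit 1) true (nat_lit 17) true (nat_lit 6) true (nat_lit 10) true (nat_lit 18) (.s false (nat_lit 3) (nat_lit 16) (nat_lit 10) (nat_lit 0) (nat_lit 2) true (nat_lit 0) true (nat_lit 17) true (nat_lit 6) true (nat_lit 9) true (nat_lit 19) (.s false (nat_lit 1) (nat_lit 16) (nat_lit 12) (nat_lit 0) (nat_lit 2) true (nat_lit 0) true (nat_lit 17) true (nat_lit 6) true (nat_lit 9) true (nat_lit 19) (.s true (nat_lit 2) (nat_lit 16) (nat_lit 14) (nat_lit 0) (nat_lit 1) true (nat_lit 0) true (nat_lit 18) true (nat_lit 6) true (nat_lit 7) true (nat_lit 19) (.s false (nat_lit 2) (nat_lit 17) (nat_lit 14) (nat_lit 1) (nat_lit 0) true (nat_lit 1) true (nat_lit 19) true (nat_lit 6) true (nat_lit 7) true (nat_lit 18) (.s true (nat_lit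 1) (nat_lit 18) (nat_lit 0) (nat_lit 2) (nat_lit 8) true (nat_lit 4) true (nat_lit 11) true (nat_lit 5) true (nat_lit 19) true (nat_lit 17) (.s false (nat_lit 2) (nat_lit 18) (nat_lit 1) (nat_lit 1) (nat_lit 9) true (nat_lit 3) true (nat_lit 10) true (nat_lit 5) true (nat_lit 18) true (nat_lit 18) dC1d_i156)))))))))))))))))))))))))

noncomputable def dC1d_i158 : IL := (.e false (nat_lit 2) (nat_lit 317) (nat_lit 0) (nat_lit 19) (.e true (nat_lit 2) (nat_lit 269) (nat_lit 1) (nat_lit 18) (.e false (nat_lit 3) (nat_lit 271) (nat_lit 1) (nat_lit 18) (.e false (nat_lit 3) (nat_lit 278) (nat_lit 1) (nat_lit 18) (.e false (nat_lit 2) (nat_lit 279) (nat_lit 1) (nat_lit 18) (.e false (nat_lit 3) (nat_lit 281) (nat_lit 1) (nat_lit 18) (.e false (nat_lit 3) (nat_lit 288) (nat_lit 1) (nat_lit 18) (.e false (nat_lit 2) (nat_lit 260) (nat_lit 1) (nat_lit 18) (.e true (nat_lit 3) (nat_lit 251) (nat_lit 2) (nat_lit 17) (.e false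 (nat_lit 3) (nat_lit 78) (nat_lit 13) (nat_lit 8) (.e true (nat_lit 1) (nat_lit 292) (nat_lit 0) (nat_lit 19) (.e true (nat_lit 2) (nat_lit 309) (nat_lit 0) (nat_lit 19) (.e false (nat_lit 1) (nat_lit 154) (nat_lit 4) (nat_lit 15) (.e false (nat_lit 2) (nat_lit 249) (nat_lit 2) (nat_lit 17) (.e true (nat_lit 1) (nat_lit 252) (nat_lit 2) (nat_lit 17) (.e false (nat_lit 2) (nat_lit 282) (nat_lit 1) (nat_lit 18) (.e false (nat_lit 2) (nat_lit 139) (nat_lit 5) (nat_lit 14) (.e true (nat_lit 2) (nat_lit 144) (nat_lit 5) (nat_lit 14) (.e true (nat_lit 1) (nat_lit 136) (nat_lit 5) (nat_lit 14) (.e false (nat_lit 3) (nat_lit 283) (nat_lit 1) (nat_lit 18) (.e false (nat_lit 2) (nat_lit 314) (nat_lit 0) (nat_lit 19) (.e false (nat_lit 2) (nat_lit 315) (nat_lit 0) (nat_lit 19) (.u (nat_lit 2) (.p (nat_lit 0) (nat_lit 1) (.n (nat_lit 1) (nat_lit 2) (.p (nat_lit 2) (nat_lit 3) (.n (nat_lit 4) (nat_lit 1) (.p (nat_lit 7) (nat_lit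 1) (.n (nat_lit 8) (nat_lit 3) (.p (nat_lit 9) (nat_lit 2) (.p (nat_lit 10) (nat_lit 3) (.p (nat_lit 11) (nat_lit 3) (.n (nat_lit 12) (nat_lit 3) (.n (nat_lit 14) (nat_lit 3) (.p (nat_lit 15) (nat_lit 2) (.p (nat_lit 18) (nat_lit 2) (.p (nat_lit 19) (nat_lit 2) (.p (nat_lit 20) (nat_lit 4) (.p (nat_lit 26) (nat_lit 1) (.n (nat_lit 27) (nat_lit 3) (.n (nat_lit 28) (nat_lit 3) (.p (nat_lit 29) (nat_lit 2) (.p (nat_lit 30) (nat_lit 2) (.p (nat_lit 31) (nat_lit 1) (.p (nat_lit 32) (nat_lit 3) (.p (nat_lit 33) (nat_lit 2) (.n (nat_lit 34) (nat_lit 6) (.p (nat_lit 35) (nat_lit 2) (.p (nat_lit 38) (nat_lit 1) (.p (nat_lit 39) (nat_lit 1) (.p (nat_lit 40) (nat_lit 1) (.n (nat_lit 41) (nat_lit 2) (.p (nat_lit 45) (nat_lit 1) (.n (nat_lit 49) (nat_lit 1) (.n (nat_lit 50) (nat_lit 1) (.p (nat_lit 51) (nat_lit 1) (.n (nat_lit 53) (nat_lit 1) (.n (nat_lit 54) (nat_lit 2) (.p (nat_lit 55) (nat_lit 2) (.p (nat_lit 56) (nat_lit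 1) (.p (nat_lit 60) (nat_lit 1) (.n (nat_lit 106) (nat_lit 1) (.p (nat_lit 118) (nat_lit 1) (.p (nat_lit 130) (nat_lit 1) (.p (nat_lit 132) (nat_lit 1) (.p (nat_lit 133) (nat_lit 1) (.p (nat_lit 141) (nat_lit 1) (.p (nat_lit 150) (nat_lit 1) (.n (nat_lit 154) (nat_lit 1) (.p (nat_lit 158) (nat_lit 1) (.n (nat_lit 177) (nat_lit 1) (.n (nat_lit 182) (nat_lit 1) (.p (nat_lit 193) (nat_lit 1) (.p (nat_lit 231) (nat_lit 1) (.p (nat_lit 237) (nat_lit 2) (.p (nat_lit 238) (nat_lit 1) (.n (nat_lit 239) (nat_lit 1) (.p (nat_lit 242) (nat_lit 1) (.n (nat_lit 244) (nat_lit 1) (.p (nat_lit 246) (nat_lit 1) (.n (nat_lit 249) (nat_lit 1) (.p (nat_lit 251) (nat_lit 1) (.p (nat_lit 263) (nat_lit 1) .z)))))))))))))))))))))))))))))))))))))))))))))))))))))))))))) (.u (nat_lit 2) (.p (nat_lit 270) (nat_lit 1) (.p (nat_lit 281) (nat_lit 1) (.p (nat_lit 290) (nat_lit 1) (.p (nat_lit 311) (nat_lit 3) (.n (nat_lit 312) (nat_lit 1) (.n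 (nat_lit 313) (nat_lit 1) (.n (nat_lit 314) (nat_lit 2) (.n (nat_lit 315) (nat_lit 3) (.n (nat_lit 316) (nat_lit 3) (.p (nat_lit 317) (nat_lit 2) (.p (nat_lit 318) (nat_lit 2) (.n (nat_lit 319) (nat_lit 1) (.p (nat_lit 320) (nat_lit 1) (.p (nat_lit 321) (nat_lit 2) (.n (nat_lit 322) (nat_lit 1) (.p (nat_lit 327) (nat_lit 4) (.n (nat_lit 328) (nat_lit 6) (.p (nat_lit 330) (nat_lit 2) (.p (nat_lit 331) (nat_lit 6) (.n (nat_lit 332) (nat_lit 15) (.n (nat_lit 334) (nat_lit 6) (.n (nat_lit 335) (nat_lit 8) (.n (nat_lit 336) (nat_lit 3) (.n (nat_lit 337) (nat_lit 2) (.n (nat_lit 338) (nat_lit 5) (.p (nat_lit 339) (nat_lit 14) (.p (nat_lit 340) (nat_lit 5) (.p (nat_lit 342) (nat_lit 12) (.p (nat_lit 343) (nat_lit 2) (.n (nat_lit 345) (nat_lit 2) (.n (nat_lit 346) (nat_lit 3) (.p (nat_lit 347) (nat_lit 4) (.n (nat_lit 348) (nat_lit 9) (.n (nat_lit 349) (nat_lit 7) (.n (nat_lit 350) (nat_lit 9) (.n (nat_lit 351) (nat_lit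 5) (.n (nat_lit 352) (nat_lit 8) (.p (nat_lit 354) (nat_lit 11) (.n (nat_lit 355) (nat_lit 5) (.p (nat_lit 356) (nat_lit 4) (.n (nat_lit 357) (nat_lit 14) (.p (nat_lit 358) (nat_lit 6) (.p (nat_lit 359) (nat_lit 4) (.n (nat_lit 360) (nat_lit 1) (.n (nat_lit 361) (nat_lit 8) (.p (nat_lit 362) (nat_lit 4) (.n (nat_lit 363) (nat_lit 7) (.n (nat_lit 364) (nat_lit 2) (.p (nat_lit 365) (nat_lit 2) (.p (nat_lit 366) (nat_lit 1) (.n (nat_lit 367) (nat_lit 3) (.p (nat_lit 368) (nat_lit 3) (.n (nat_lit 369) (nat_lit 1) (.p (nat_lit 372) (nat_lit 1) (.n (nat_lit 373) (nat_lit 1) (.n (nat_lit 375) (nat_lit 17) (.n (nat_lit 376) (nat_lit 1) (.p (nat_lit 377) (nat_lit 7) (.n (nat_lit 378) (nat_lit 1) (.p (nat_lit 379) (nat_lit 6) .z)))))))))))))))))))))))))))))))))))))))))))))))))))))))))))) (.u (nat_lit 2) (.n (nat_lit 380) (nat_lit 8) (.p (nat_lit 381) (nat_lit 2) (.n (nat_lit 382) (nat_lit 3) (.p (nat_lit 383) (nat_lit 7)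 (.p (nat_lit 384) (nat_lit 7) (.n (nat_lit 385) (nat_lit 11) (.n (nat_lit 386) (nat_lit 17) (.p (nat_lit 387) (nat_lit 16) (.p (nat_lit 388) (nat_lit 1) (.p (nat_lit 389) (nat_lit 1) (.p (nat_lit 392) (nat_lit 4) (.n (nat_lit 393) (nat_lit 1) (.n (nat_lit 394) (nat_lit 1) (.p (nat_lit 395) (nat_lit 1) (.n (nat_lit 396) (nat_lit 1) (.n (nat_lit 397) (nat_lit 5) (.p (nat_lit 398) (nat_lit 2) (.n (nat_lit 399) (nat_lit 7) (.n (nat_lit 400) (nat_lit 4) (.p (nat_lit 401) (nat_lit 6) (.p (nat_lit 402) (nat_lit 2) (.p (nat_lit 403) (nat_lit 2) (.n (nat_lit 405) (nat_lit 10) (.p (nat_lit 406) (nat_lit 5) (.p (nat_lit 407) (nat_lit 5) (.p (nat_lit 408) (nat_lit 7) (.p (nat_lit 409) (nat_lit 3) (.p (nat_lit 410) (nat_lit 2) (.p (nat_lit 411) (nat_lit 14) (.n (nat_lit 412) (nat_lit 10) (.p (nat_lit 413) (nat_lit 3) (.n (nat_lit 414) (nat_lit 24) (.n (nat_lit 415) (nat_lit 4) (.n (nat_lit 416) (nat_lit 1) (.n (nat_lit 417)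 (nat_lit 14) (.p (nat_lit 418) (nat_lit 1) (.p (nat_lit 419) (nat_lit 1) (.n (nat_lit 420) (nat_lit 14) (.p (nat_lit 421) (nat_lit 1) (.p (nat_lit 422) (nat_lit 7) (.p (nat_lit 423) (nat_lit 8) (.p (nat_lit 424) (nat_lit 1) (.n (nat_lit 425) (nat_lit 3) (.n (nat_lit 426) (nat_lit 2) (.n (nat_lit 427) (nat_lit 6) (.p (nat_lit 428) (nat_lit 3) (.p (nat_lit 429) (nat_lit 1) (.p (nat_lit 430) (nat_lit 2) (.p (nat_lit 431) (nat_lit 7) (.p (nat_lit 432) (nat_lit 11) (.p (nat_lit 433) (nat_lit 6) (.p (nat_lit 434) (nat_lit 3) .z)))))))))))))))))))))))))))))))))))))))))))))))))))) .nil)))))))))))))))))))))))))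

noncomputable def dC1d_i159 : IL := (.e true (nat_lit 1) (nat_lit 263) (nat_lit 1) (nat_lit 18) (.e false (nat_lit 3) (nat_lit 264) (nat_lit 1) (nat_lit 18) (.e false (nat_lit 1) (nat_lit 265) (nat_lit 1) (nat_lit 18) (.e false (nat_lit 3) (nat_lit 266) (nat_lit 1) (nat_lit 18) (.e true (nat_lit 3) (nat_lit 267) (nat_lit 1) (nat_lit 18) (.e false (nat_lit 2) (nat_lit 268) (nat_lit 1) (nat_lit 18) (.e false (nat_lit 3) (nat_lit 272) (nat_lit 1) (nat_lit 18) (.e true (nat_lit 3) (nat_lit 273) (nat_lit 1) (nat_lit 18) (.e false (nat_lit 1) (nat_lit 274) (nat_lit 1) (nat_lit 18) (.e false (nat_lit 1) (nat_lit 280) (nat_lit 1) (nat_lit 18) (.e true (nat_lit 3) (nat_lit 285) (nat_lit 1) (nat_lit 18) (.e false (nat_lit 1) (nat_lit 290) (nat_lit 0) (nat_lit 19) (.e true (nat_lit 1) (nat_lit 291) (nat_lit 0) (nat_lit 19) (.e true (nat_lit 2) (nat_lit 293) (nat_lit 0) (nat_lit 19) (.e true (nat_lit 2) (nat_lit 294) (nat_lit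 0) (nat_lit 19) (.e false (nat_lit 3) (nat_lit 296) (nat_lit 0) (nat_lit 19) (.e false (nat_lit 1) (nat_lit 297) (nat_lit 0) (nat_lit 19) (.e false (nat_lit 1) (nat_lit 299) (nat_lit 0) (nat_lit 19) (.e false (nat_lit 2) (nat_lit 300) (nat_lit 0) (nat_lit 19) (.e true (nat_lit 2) (nat_lit 302) (nat_lit 0) (nat_lit 19) (.e false (nat_lit 1) (nat_lit 305) (nat_lit 0) (nat_lit 19) (.e false (nat_lit 2) (nat_lit 308) (nat_lit 0) (nat_lit 19) (.e false (nat_lit 1) (nat_lit 311) (nat_lit 0) (nat_lit 19) (.e true (nat_lit 1) (nat_lit 313) (nat_lit 0) (nat_lit 19) (.e false (nat_lit 2) (nat_lit 316) (nat_lit 0) (nat_lit 19) dC1d_i158)))))))))))))))))))))))))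

noncomputable def dC1d_i160 : IL := (.e false (nat_lit 1) (nat_lit 221) (nat_lit 2) (nat_lit 17) (.e false (nat_lit 3) (nat_lit 223) (nat_lit 2) (nat_lit 17) (.e true (nat_lit 3) (nat_lit 224) (nat_lit 2) (nat_lit 17) (.e false (nat_lit 1) (nat_lit 226) (nat_lit 2) (nat_lit 17) (.e false (nat_lit 2) (nat_lit 227) (nat_lit 2) (nat_lit 17) (.e true (nat_lit 3) (nat_lit 228) (nat_lit 2) (nat_lit 17) (.e true (nat_lit 1) (nat_lit 233) (nat_lit 2) (nat_lit 17) (.e false (nat_lit 1) (nat_lit 235) (nat_lit 2) (nat_lit 17) (.e false (nat_lit 2) (nat_lit 236) (nat_lit 2) (nat_lit 17) (.e false (nat_lit 3) (nat_lit 239) (nat_lit 2) (nat_lit 17) (.e false (nat_lit 2) (nat_lit 242) (nat_lit 2) (nat_lit 17) (.e false (nat_lit 3) (nat_lit 244) (nat_lit 2) (nat_lit 17) (.e true (nat_lit 2) (nat_lit 245) (nat_lit 2) (nat_lit 17) (.e false (nat_lit 1) (nat_lit 246) (nat_lit 2) (nat_lit 17) (.e true (nat_lit 1) (nat_lit 247) (nat_lit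 2) (nat_lit 17) (.e false (nat_lit 3) (nat_lit 248) (nat_lit 2) (nat_lit 17) (.e true (nat_lit 3) (nat_lit 277) (nat_lit 1) (nat_lit 18) (.e false (nat_lit 3) (nat_lit 212) (nat_lit 2) (nat_lit 17) (.e false (nat_lit 2) (nat_lit 232) (nat_lit 2) (nat_lit 17) (.e false (nat_lit 2) (nat_lit 234) (nat_lit 2) (nat_lit 17) (.e true (nat_lit 1) (nat_lit 237) (nat_lit 2) (nat_lit 17) (.e false (nat_lit 3) (nat_lit 219) (nat_lit 2) (nat_lit 17) (.e true (nat_lit 2) (nat_lit 307) (nat_lit 0) (nat_lit 19) (.e true (nat_lit 3) (nat_lit 77) (nat_lit 13) (nat_lit 8) (.e true (nat_lit 3) (nat_lit 262) (nat_lit 1) (nat_lit 18) dC1d_i159)))))))))))))))))))))))))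

noncomputable def dC1d_i161 : IL := (.s true (nat_lit 1) (nat_lit 84) (nat_lit 0) (nat_lit 2) (nat_lit 1) true (nat_lit 16) true (nat_lit 18) false (nat_lit 9) true (nat_lit 19) true (nat_lit 17) (.s true (nat_lit 1) (nat_lit 85) (nat_lit 0) (nat_lit 2) (nat_lit 1) true (nat_lit 16) true (nat_lit 18) false (nat_lit 9) true (nat_lit 19) true (nat_lit 17) (.s true (nat_lit 1) (nat_lit 87) (nat_lit 0) (nat_lit 2) (nat_lit 1) true (nat_lit 16) true (nat_lit 18) false (nat_lit 9) true (nat_lit 19) true (nat_lit 17) (.s true (nat_lit 1) (nat_lit 90) (nat_lit 0) (nat_lit 2) (nat_lit 1) true (nat_lit 16) true (nat_lit 18) false (nat_lit 9) true (nat_lit 19) true (nat_lit 17) (.s true (nat_lit 1) (nat_lit 82) (nat_lit 1) (nat_lit 0) (nat_lit 2) true (nat_lit 14) true (nat_lit 17) false (nat_lit 9) true (nat_lit 18) true (nat_lit 19) (.s true (nat_lit 2) (nat_lit 82) (nat_lit 1) (nat_lit 2) (nat_lit 0) true (nat_lit 16)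 true (nat_lit 19) false (nat_lit 9) true (nat_lit 18) true (nat_lit 17) (.s false (nat_lit 2) (nat_lit 85) (nat_lit 1) (nat_lit 2) (nat_lit 0) true (nat_lit 16) true (nat_lit 19) false (nat_lit 9) true (nat_lit 18) true (nat_lit 17) (.s true (nat_lit 1) (nat_lit 82) (nat_lit 2) (nat_lit 1) (nat_lit 0) true (nat_lit 15) true (nat_lit 19) false (nat_lit 9) true (nat_lit 17) true (nat_lit 18) (.s false (nat_lit 2) (nat_lit 85) (nat_lit 2) (nat_lit 1) (nat_lit 0) true (nat_lit 15) true (nat_lit 19) false (nat_lit 9) true (nat_lit 17) true (nat_lit 18) (.s true (nat_lit 2) (nat_lit 94) (nat_lit 0) (nat_lit 2) (nat_lit 0) false (nat_lit 20) true (nat_lit 19) false (nat_lit 10) true (nat_lit 19) true (nat_lit 17) (.s false (nat_lit 1) (nat_lit 95) (nat_lit 0) (nat_lit 2) (nat_lit 0) false (nat_lit 20) true (nat_lit 19) false (nat_lit 10) true (nat_lit 19) true (nat_lit 17) (.s false (nat_lit 3) (nat_lit 96) (nat_lit 0)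 (nat_lit 2) (nat_lit 0) false (nat_lit 20) true (nat_lit 19) false (nat_lit 10) true (nat_lit 19) true (nat_lit 17) (.s false (nat_lit 2) (nat_lit 97) (nat_lit 0) (nat_lit 2) (nat_lit 0) false (nat_lit 20) true (nat_lit 19) false (nat_lit 10) true (nat_lit 19) true (nat_lit 17) (.s true (nat_lit 3) (nat_lit 98) (nat_lit 0) (nat_lit 1) (nat_lit 1) true (nat_lit 16) true (nat_lit 18) false (nat_lit 11) true (nat_lit 19) true (nat_lit 18) (.s true (nat_lit 2) (nat_lit 99) (nat_lit 1) (nat_lit 0) (nat_lit 1) false (nat_lit 21) true (nat_lit 18) false (nat_lit 11) true (nat_lit 18) true (nat_lit 19) (.s true (nat_lit 1) (nat_lit 100) (nat_lit 1) (nat_lit 0) (nat_lit 1) false (nat_lit 21) true (nat_lit 18) false (nat_lit 11) true (nat_lit 18) true (nat_lit 19) (.s false (nat_lit 2) (nat_lit 98) (nat_lit 1) (nat_lit 1) (nat_lit 0) true (nat_lit 16) true (nat_lit 19) false (nat_lit 11) true (nat_lit 18) true (nat_lit 18)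 (.s false (nat_lit 2) (nat_lit 102) (nat_lit 0) (nat_lit 0) (nat_lit 1) true (nat_lit 16) true (nat_lit 18) false (nat_lit 12) true (nat_lit 19) true (nat_lit 19) (.s true (nat_lit 1) (nat_lit 102) (nat_lit 0) (nat_lit 1) (nat_lit 0) false (nat_lit 20) true (nat_lit 19) false (nat_lit 12) true (nat_lit 19) true (nat_lit 18) (.s false (nat_lit 1) (nat_lit 104) (nat_lit 0) (nat_lit 1) (nat_lit 0) false (nat_lit 20) true (nat_lit 19) false (nat_lit 12) true (nat_lit 19) true (nat_lit 18) (.a true (nat_lit 1) (nat_lit 34) (nat_lit 34) (nat_lit 0) (nat_lit 0) (.a false (nat_lit 3) (nat_lit 36) (nat_lit 36) (nat_lit 0) (nat_lit 0) (.e false (nat_lit 3) (nat_lit 213) (nat_lit 2) (nat_lit 17) (.e true (nat_lit 1) (nat_lit 214) (nat_lit 2) (nat_lit 17) (.e true (nat_lit 3) (nat_lit 218) (nat_lit 2) (nat_lit 17) dC1d_i160)))))))))))))))))))))))))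

noncomputable def dC1d_i162 : IL := (.s true (nat_lit 1) (nat_lit 53) (nat_lit 2) (nat_lit 2) (nat_lit 2) true (nat_lit 13) true (nat_lit 17) false (nat_lit 5) true (nat_lit 17) true (nat_lit 17) (.s false (nat_lit 2) (nat_lit 54) (nat_lit 2) (nat_lit 2) (nat_lit 2) true (nat_lit 13) true (nat_lit 17) false (nat_lit 5) true (nat_lit 17) true (nat_lit 17) (.s false (nat_lit 3) (nat_lit 56) (nat_lit 1) (nat_lit 2) (nat_lit 2) true (nat_lit 14) true (nat_lit 17) false (nat_lit 6) true (nat_lit 18) true (nat_lit 17) (.s false (nat_lit 1) (nat_lit 62) (nat_lit 1) (nat_lit 2) (nat_lit 2) true (nat_lit 14) true (nat_lit 17) false (nat_lit 6) true (nat_lit 18) true (nat_lit 17) (.s true (nat_lit 2) (nat_lit 55) (nat_lit 2) (nat_lit 1) (nat_lit 2) true (nat_lit 13) true (nat_lit 17) false (nat_lit 6) true (nat_lit 17) true (nat_lit 18) (.s true (nat_lit 3) (nat_lit 59) (nat_lit 2) (nat_lit 1) (nat_lit 2) true (nat_lit 13)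 true (nat_lit 17) false (nat_lit 6) true (nat_lit 17) true (nat_lit 18) (.s false (nat_lit 1) (nat_lit 60) (nat_lit 2) (nat_lit 1) (nat_lit 2) true (nat_lit 13) true (nat_lit 17) false (nat_lit 6) true (nat_lit 17) true (nat_lit 18) (.s true (nat_lit 1) (nat_lit 64) (nat_lit 2) (nat_lit 1) (nat_lit 2) true (nat_lit 13) true (nat_lit 17) false (nat_lit 6) true (nat_lit 17) true (nat_lit 18) (.s true (nat_lit 1) (nat_lit 65) (nat_lit 2) (nat_lit 1) (nat_lit 2) true (nat_lit 13) true (nat_lit 17) false (nat_lit 6) true (nat_lit 17) true (nat_lit 18) (.s false (nat_lit 1) (nat_lit 56) (nat_lit 2) (nat_lit 2) (nat_lit 1) true (nat_lit 14) true (nat_lit 18) false (nat_lit 6) true (nat_lit 17) true (nat_lit 17) (.s true (nat_lit 1) (nat_lit 59) (nat_lit 2) (nat_lit 2) (nat_lit 1) true (nat_lit 14) true (nat_lit 18) false (nat_lit 6) true (nat_lit 17) true (nat_lit 17) (.s true (nat_lit 2) (nat_lit 65) (nat_lit 2) (nat_lit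 2) (nat_lit 1) true (nat_lit 14) true (nat_lit 18) false (nat_lit 6) true (nat_lit 17) true (nat_lit 17) (.s false (nat_lit 3) (nat_lit 66) (nat_lit 0) (nat_lit 2) (nat_lit 2) true (nat_lit 15) true (nat_lit 17) false (nat_lit 7) true (nat_lit 19) true (nat_lit 17) (.s false (nat_lit 1) (nat_lit 67) (nat_lit 0) (nat_lit 2) (nat_lit 2) true (nat_lit 15) true (nat_lit 17) false (nat_lit 7) true (nat_lit 19) true (nat_lit 17) (.s true (nat_lit 2) (nat_lit 72) (nat_lit 0) (nat_lit 2) (nat_lit 2) true (nat_lit 15) true (nat_lit 17) false (nat_lit 7) true (nat_lit 19) true (nat_lit 17) (.s false (nat_lit 2) (nat_lit 66) (nat_lit 2) (nat_lit 0) (nat_lit 2) true (nat_lit 13) true (nat_lit 17) false (nat_lit 7) true (nat_lit 17) true (nat_lit 19) (.s false (nat_lit 1) (nat_lit 72) (nat_lit 2) (nat_lit 0) (nat_lit 2) true (nat_lit 13) true (nat_lit 17) false (nat_lit 7) true (nat_lit 17) true (nat_lit 19) (.s true (nat_lit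 2) (nat_lit 74) (nat_lit 2) (nat_lit 0) (nat_lit 2) true (nat_lit 13) true (nat_lit 17) false (nat_lit 7) true (nat_lit 17) true (nat_lit 19) (.s false (nat_lit 2) (nat_lit 66) (nat_lit 2) (nat_lit 2) (nat_lit 0) true (nat_lit 15) true (nat_lit 19) false (nat_lit 7) true (nat_lit 17) true (nat_lit 17) (.s false (nat_lit 1) (nat_lit 67) (nat_lit 2) (nat_lit 2) (nat_lit 0) true (nat_lit 15) true (nat_lit 19) false (nat_lit 7) true (nat_lit 17) true (nat_lit 17) (.s true (nat_lit 3) (nat_lit 77) (nat_lit 1) (nat_lit 1) (nat_lit 2) true (nat_lit 14) true (nat_lit 17) false (nat_lit 8) true (nat_lit 18) true (nat_lit 18) (.s false (nat_lit 2) (nat_lit 78) (nat_lit 1) (nat_lit 1) (nat_lit 2) true (nat_lit 14) true (nat_lit 17) false (nat_lit 8) true (nat_lit 18) true (nat_lit 18) (.s true (nat_lit 3) (nat_lit 81) (nat_lit 2) (nat_lit 1) (nat_lit 1) true (nat_lit 14) true (nat_lit 18) false (nat_lit 8) true (nat_lit 17)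 true (nat_lit 18) (.s true (nat_lit 1) (nat_lit 82) (nat_lit 0) (nat_lit 1) (nat_lit 2) true (nat_lit 15) true (nat_lit 17) false (nat_lit 9) true (nat_lit 19) true (nat_lit 18) (.s false (nat_lit 1) (nat_lit 83) (nat_lit 0) (nat_lit 2) (nat_lit 1) true (nat_lit 16) true (nat_lit 18) false (nat_lit 9) true (nat_lit 19) true (nat_lit 17) dC1d_i161)))))))))))))))))))))))))

noncomputable def dC1d_i163 : IL := (.s true (nat_lit 2) (nat_lit 21) (nat_lit 2) (nat_lit 6) (nat_lit 1) true (nat_lit 14) true (nat_lit 18) true (nat_lit 3) true (nat_lit 17) true (nat_lit 13) (.s true (nat_lit 1) (nat_lit 20) (nat_lit 5) (nat_lit 2) (nat_lit 2) true (nat_lit 6) true (nat_lit 17) true (nat_lit 3) true (nat_lit 14) true (nat_lit 17) (.s false (nat_lit 2) (nat_lit 21) (nat_lit 5) (nat_lit 2) (nat_lit 2) true (nat_lit 6) true (nat_lit 17) true (nat_lit 3) true (nat_lit 14) true (nat_lit 17) (.s true (nat_lit 2) (nat_lit 21) (nat_lit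 6) (nat_lit 1) (nat_lit 2) true (nat_lit 5) true (nat_lit 17) true (nat_lit 3) true (nat_lit 13) true (nat_lit 18) (.s true (nat_lit 2) (nat_lit 24) (nat_lit 0) (nat_lit 2) (nat_lit 6) true (nat_lit 7) true (nat_lit 13) true (nat_lit 2) true (nat_lit 19) true (nat_lit 17) (.s false (nat_lit 1) (nat_lit 25) (nat_lit 0) (nat_lit 2) (nat_lit 6) true (nat_lit 7) true (nat_lit 13) true (nat_lit 2) true (nat_lit 19) true (nat_lit 17) (.s false (nat_lit 2) (nat_lit 24) (nat_lit 2) (nat_lit 2) (nat_lit 4) true (nat_lit 7) true (nat_lit 15) true (nat_lit 2) true (nat_lit 17) true (nat_lit 17) (.s true (nat_lit 1) (nat_lit 25) (nat_lit 2) (nat_lit 2) (nat_lit 4) true (nat_lit 7) true (nat_lit 15) true (nat_lit 2) true (nat_lit 17) true (nat_lit 17) (.s false (nat_lit 2) (nat_lit 24) (nat_lit 2) (nat_lit 6) (nat_lit 0) true (nat_lit 15) true (nat_lit 19) true (nat_lit 2) true (nat_lit 17) true (nat_lit 13) (.s true (nat_lit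 2) (nat_lit 28) (nat_lit 1) (nat_lit 1) (nat_lit 6) true (nat_lit 6) true (nat_lit 13) true (nat_lit 1) true (nat_lit 18) true (nat_lit 18) (.s false (nat_lit 1) (nat_lit 31) (nat_lit 0) (nat_lit 2) (nat_lit 5) true (nat_lit 9) true (nat_lit 14) true (nat_lit 0) true (nat_lit 19) true (nat_lit 17) (.s false (nat_lit 2) (nat_lit 34) (nat_lit 1) (nat_lit 2) (nat_lit 4) true (nat_lit 9) true (nat_lit 15) true (nat_lit 0) true (nat_lit 18) true (nat_lit 17) (.s false (nat_lit 1) (nat_lit 31) (nat_lit 2) (nat_lit 0) (nat_lit 5) true (nat_lit 6) true (nat_lit 14) true (nat_lit 0) true (nat_lit 17) true (nat_lit 19) (.s false (nat_lit 2) (nat_lit 34) (nat_lit 2) (nat_lit 1) (nat_lit 4) true (nat_lit 7) true (nat_lit 15) true (nat_lit 0) true (nat_lit 17) true (nat_lit 18) (.s true (nat_lit 3) (nat_lit 42) (nat_lit 1) (nat_lit 5) (nat_lit 0) true (nat_lit 16) true (nat_lit 19) false (nat_lit 2) true (nat_lit 18) true (nat_lit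 14) (.s false (nat_lit 1) (nat_lit 45) (nat_lit 0) (nat_lit 3) (nat_lit 2) true (nat_lit 15) true (nat_lit 17) false (nat_lit 3) true (nat_lit 19) true (nat_lit 16) (.s false (nat_lit 3) (nat_lit 45) (nat_lit 2) (nat_lit 3) (nat_lit 0) true (nat_lit 15) true (nat_lit 19) false (nat_lit 3) true (nat_lit 17) true (nat_lit 16) (.s true (nat_lit 1) (nat_lit 45) (nat_lit 3) (nat_lit 2) (nat_lit 0) true (nat_lit 12) true (nat_lit 19) false (nat_lit 3) true (nat_lit 16) true (nat_lit 17) (.s true (nat_lit 3) (nat_lit 45) (nat_lit 4) (nat_lit 1) (nat_lit 0) true (nat_lit 10) true (nat_lit 19) false (nat_lit 3) true (nat_lit 15) true (nat_lit 18) (.s true (nat_lit 2) (nat_lit 46) (nat_lit 1) (nat_lit 0) (nat_lit 3) true (nat_lit 11) true (nat_lit 16) false (nat_lit 4) true (nat_lit 18) true (nat_lit 19) (.s true (nat_lit 1) (nat_lit 46) (nat_lit 1) (nat_lit 3) (nat_lit 0) true (nat_lit 16) true (nat_lit 19) false (nat_lit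 4) true (nat_lit 18) true (nat_lit 16) (.s true (nat_lit 2) (nat_lit 46) (nat_lit 3) (nat_lit 0) (nat_lit 1) true (nat_lit 11) true (nat_lit 18) false (nat_lit 4) true (nat_lit 16) true (nat_lit 19) (.s false (nat_lit 3) (nat_lit 46) (nat_lit 3) (nat_lit 1) (nat_lit 0) true (nat_lit 12) true (nat_lit 19) false (nat_lit 4) true (nat_lit 16) true (nat_lit 18) (.s true (nat_lit 1) (nat_lit 48) (nat_lit 2) (nat_lit 2) (nat_lit 2) true (nat_lit 13) true (nat_lit 17) false (nat_lit 5) true (nat_lit 17) true (nat_lit 17) (.s false (nat_lit 3) (nat_lit 49) (nat_lit 2) (nat_lit 2) (nat_lit 2) true (nat_lit 13) true (nat_lit 17) false (nat_lit 5) true (nat_lit 17) true (nat_lit 17) dC1d_i162)))))))))))))))))))))))))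

noncomputable def dC1d_i164 : IL := (.s true (nat_lit 1) (nat_lit 13) (nat_lit 2) (nat_lit 9) (nat_lit 2) true (nat_lit 13) true (nat_lit 17) true (nat_lit 8) true (nat_lit 17) true (nat_lit 10) (.s true (nat_lit 2) (nat_lit 14) (nat_lit 1) (nat_lit 1) (nat_lit 14) true (nat_lit 0) true (nat_lit 7) true (nat_lit 7) true (nat_lit 18) true (nat_lit 18) (.s false (nat_lit 3) (nat_lit 14) (nat_lit 2) (nat_lit 8) (nat_lit 2) true (nat_lit 13) true (nat_lit 17) true (nat_lit 7) true (nat_lit 17) true (nat_lit 11) (.s false (nat_lit 3) (nat_lit 15) (nat_lit 2) (nat_lit 8) (nat_lit 2) true (nat_lit 13) true (nat_lit 17) true (nat_lit 7) true (nat_lit 17) true (nat_lit 11) (.s true (nat_lit 1) (nat_lit 16) (nat_lit 0) (nat_lit 0) (nat_lit 16) true (nat_lit 0) true (nat_lit 6) true (nat_lit 6) true (nat_lit 19) true (nat_lit 19) (.s true (nat_lit 1) (nat_lit 16) (nat_lit 1) (nat_lit 2) (nat_lit 9) true (nat_lit 3) true (nat_lit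 10) true (nat_lit 6) true (nat_lit 18) true (nat_lit 17) (.s false (nat_lit 1) (nat_lit 16) (nat_lit 2) (nat_lit 2) (nat_lit 7) true (nat_lit 3) true (nat_lit 12) true (nat_lit 6) true (nat_lit 17) true (nat_lit 17) (.s false (nat_lit 3) (nat_lit 16) (nat_lit 9) (nat_lit 2) (nat_lit 1) true (nat_lit 3) true (nat_lit 18) true (nat_lit 6) true (nat_lit 10) true (nat_lit 17) (.s false (nat_lit 1) (nat_lit 17) (nat_lit 9) (nat_lit 2) (nat_lit 1) true (nat_lit 3) true (nat_lit 18) true (nat_lit 6) true (nat_lit 10) true (nat_lit 17) (.s false (nat_lit 3) (nat_lit 18) (nat_lit 0) (nat_lit 0) (nat_lit 13) true (nat_lit 2) true (nat_lit 8) true (nat_lit 5) true (nat_lit 19) true (nat_lit 19) (.s true (nat_lit 1) (nat_lit 18) (nat_lit 0) (nat_lit 2) (nat_lit 8) true (nat_lit 4) true (nat_lit 11) true (nat_lit 5) true (nat_lit 19) true (nat_lit 17) (.s false (nat_lit 1) (nat_lit 18) (nat_lit 1) (nat_lit 1) (nat_lit 9) true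 (nat_lit 3) true (nat_lit 10) true (nat_lit 5) true (nat_lit 18) true (nat_lit 18) (.s true (nat_lit 1) (nat_lit 18) (nat_lit 1) (nat_lit 3) (nat_lit 4) true (nat_lit 9) true (nat_lit 15) true (nat_lit 5) true (nat_lit 18) true (nat_lit 16) (.s false (nat_lit 2) (nat_lit 18) (nat_lit 2) (nat_lit 0) (nat_lit 8) true (nat_lit 2) true (nat_lit 11) true (nat_lit 5) true (nat_lit 17) true (nat_lit 19) (.s true (nat_lit 2) (nat_lit 18) (nat_lit 2) (nat_lit 7) (nat_lit 1) true (nat_lit 14) true (nat_lit 18) true (nat_lit 5) true (nat_lit 17) true (nat_lit 12) (.s true (nat_lit 1) (nat_lit 18) (nat_lit 3) (nat_lit 3) (nat_lit 2) true (nat_lit 9) true (nat_lit 17) true (nat_lit 5) true (nat_lit 16) true (nat_lit 16) (.s true (nat_lit 3) (nat_lit 18) (nat_lit 7) (nat_lit 1) (nat_lit 2) true (nat_lit 3) true (nat_lit 17) true (nat_lit 5) true (nat_lit 12) true (nat_lit 18) (.s true (nat_lit 1) (nat_lit 18) (nat_lit 7) (nat_lit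 2) (nat_lit 1) true (nat_lit 4) true (nat_lit 18) true (nat_lit 5) true (nat_lit 12) true (nat_lit 17) (.s true (nat_lit 3) (nat_lit 18) (nat_lit 8) (nat_lit 0) (nat_lit 2) true (nat_lit 2) true (nat_lit 17) true (nat_lit 5) true (nat_lit 11) true (nat_lit 19) (.s true (nat_lit 1) (nat_lit 18) (nat_lit 9) (nat_lit 1) (nat_lit 1) true (nat_lit 3) true (nat_lit 18) true (nat_lit 5) true (nat_lit 10) true (nat_lit 18) (.s false (nat_lit 1) (nat_lit 18) (nat_lit 10) (nat_lit 1) (nat_lit 0) true (nat_lit 3) true (nat_lit 19) true (nat_lit 5) true (nat_lit 9) true (nat_lit 18) (.s true (nat_lit 1) (nat_lit 19) (nat_lit 2) (nat_lit 2) (nat_lit 6) true (nat_lit 5) true (nat_lit 13) true (nat_lit 4) true (nat_lit 17) true (nat_lit 17) (.s true (nat_lit 2) (nat_lit 19) (nat_lit 2) (nat_lit 6) (nat_lit 2) true (nat_lit 13) true (nat_lit 17) true (nat_lit 4) true (nat_lit 17) true (nat_lit 13) (.s false (nat_lit 1) (nat_lit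 21) (nat_lit 1) (nat_lit 2) (nat_lit 6) true (nat_lit 6) true (nat_lit 13) true (nat_lit 3) true (nat_lit 18) true (nat_lit 17) (.s false (nat_lit 3) (nat_lit 21) (nat_lit 2) (nat_lit 2) (nat_lit 5) true (nat_lit 6) true (nat_lit 14) true (nat_lit 3) true (nat_lit 17) true (nat_lit 17) dC1d_i163)))))))))))))))))))))))))

noncomputable def dC1d_i165 : IL := (.e false (nat_lit 2) (nat_lit 295) (nat_lit 0) (nat_lit 19) (.e false (nat_lit 3) (nat_lit 296) (nat_lit 0) (nat_lit 19) (.e true (nat_lit 3) (nat_lit 297) (nat_lit 0) (nat_lit 19) (.e false (nat_lit 3) (nat_lit 304) (nat_lit 0) (nat_lit 19) (.e true (nat_lit 1) (nat_lit 308) (nat_lit 0) (nat_lit 19) (.e true (nat_lit 2) (nat_lit 309) (nat_lit 0) (nat_lit 19) (.e false (nat_lit 1) (nat_lit 310) (nat_lit 0) (nat_lit 19) (.e true (nat_lit 3) (nat_lit 298) (nat_lit 0) (nat_lit 19) (.e true (nat_lit 1) (nat_lit 301) (nat_lit 0) (nat_lit 19) (.e true (nat_lit 2) (nat_lit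 302) (nat_lit 0) (nat_lit 19) (.e false (nat_lit 2) (nat_lit 303) (nat_lit 0) (nat_lit 19) (.e true (nat_lit 1) (nat_lit 314) (nat_lit 0) (nat_lit 19) (.e true (nat_lit 1) (nat_lit 315) (nat_lit 0) (nat_lit 19) (.e false (nat_lit 1) (nat_lit 316) (nat_lit 0) (nat_lit 19) (.e true (nat_lit 1) (nat_lit 281) (nat_lit 1) (nat_lit 18) (.e false (nat_lit 2) (nat_lit 313) (nat_lit 0) (nat_lit 19) (.e false (nat_lit 2) (nat_lit 282) (nat_lit 1) (nat_lit 18) (.e true (nat_lit 3) (nat_lit 143) (nat_lit 5) (nat_lit 14) (.e true (nat_lit 3) (nat_lit 144) (nat_lit 5) (nat_lit 14) (.e false (nat_lit 1) (nat_lit 139) (nat_lit 5) (nat_lit 14) (.e false (nat_lit 3) (nat_lit 160) (nat_lit 4) (nat_lit 15) (.u (nat_lit 2) (.n (nat_lit 0) (nat_lit 1) (.p (nat_lit 1) (nat_lit 1) (.n (nat_lit 2) (nat_lit 2) (.p (nat_lit 3) (nat_lit 2) (.p (nat_lit 6) (nat_lit 1) (.n (nat_lit 7) (nat_lit 1) (.n (nat_lit 8) (nat_lit 5) (.p (nat_lit 10)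 (nat_lit 3) (.n (nat_lit 11) (nat_lit 3) (.n (nat_lit 12) (nat_lit 1) (.n (nat_lit 13) (nat_lit 1) (.p (nat_lit 14) (nat_lit 4) (.n (nat_lit 15) (nat_lit 3) (.n (nat_lit 17) (nat_lit 1) (.n (nat_lit 18) (nat_lit 2) (.n (nat_lit 19) (nat_lit 3) (.n (nat_lit 20) (nat_lit 4) (.n (nat_lit 23) (nat_lit 1) (.n (nat_lit 24) (nat_lit 1) (.n (nat_lit 25) (nat_lit 1) (.n (nat_lit 26) (nat_lit 6) (.n (nat_lit 27) (nat_lit 2) (.p (nat_lit 28) (nat_lit 3) (.p (nat_lit 29) (nat_lit 1) (.n (nat_lit 30) (nat_lit 2) (.p (nat_lit 31) (nat_lit 2) (.n (nat_lit 32) (nat_lit 2) (.p (nat_lit 33) (nat_lit 3) (.p (nat_lit 34) (nat_lit 2) (.n (nat_lit 35) (nat_lit 5) (.n (nat_lit 37) (nat_lit 2) (.p (nat_lit 38) (nat_lit 2) (.n (nat_lit 39) (nat_lit 3) (.n (nat_lit 40) (nat_lit 1) (.p (nat_lit 45) (nat_lit 1) (.n (nat_lit 49) (nat_lit 1) (.p (nat_lit 50) (nat_lit 1) (.n (nat_lit 51) (nat_lit 1) (.p (nat_lit 52) (nat_lit 1) (.p (nat_lit 53)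 (nat_lit 1) (.n (nat_lit 54) (nat_lit 1) (.n (nat_lit 55) (nat_lit 1) (.p (nat_lit 57) (nat_lit 1) (.n (nat_lit 59) (nat_lit 1) (.n (nat_lit 60) (nat_lit 1) (.n (nat_lit 61) (nat_lit 2) (.p (nat_lit 62) (nat_lit 1) (.p (nat_lit 63) (nat_lit 1) (.n (nat_lit 68) (nat_lit 1) (.n (nat_lit 69) (nat_lit 2) (.n (nat_lit 70) (nat_lit 1) (.n (nat_lit 92) (nat_lit 1) (.p (nat_lit 99) (nat_lit 1) (.p (nat_lit 115) (nat_lit 1) (.n (nat_lit 117) (nat_lit 1) (.p (nat_lit 141) (nat_lit 1) (.p (nat_lit 150) (nat_lit 1) (.p (nat_lit 153) (nat_lit 1) (.n (nat_lit 166) (nat_lit 1) (.n (nat_lit 170) (nat_lit 1) .z)))))))))))))))))))))))))))))))))))))))))))))))))))))))))))) (.u (nat_lit 2) (.n (nat_lit 171) (nat_lit 1) (.n (nat_lit 177) (nat_lit 1) (.n (nat_lit 182) (nat_lit 2) (.n (nat_lit 183) (nat_lit 1) (.n (nat_lit 185) (nat_lit 1) (.n (nat_lit 186) (nat_lit 1) (.p (nat_lit 187) (nat_lit 1) (.p (nat_lit 188) (nat_lit 1) (.p (nat_lit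 189) (nat_lit 1) (.p (nat_lit 190) (nat_lit 2) (.n (nat_lit 191) (nat_lit 1) (.p (nat_lit 193) (nat_lit 1) (.p (nat_lit 231) (nat_lit 1) (.p (nat_lit 232) (nat_lit 1) (.n (nat_lit 237) (nat_lit 1) (.n (nat_lit 238) (nat_lit 1) (.p (nat_lit 241) (nat_lit 1) (.p (nat_lit 242) (nat_lit 1) (.n (nat_lit 244) (nat_lit 1) (.p (nat_lit 252) (nat_lit 1) (.p (nat_lit 253) (nat_lit 1) (.p (nat_lit 267) (nat_lit 1) (.p (nat_lit 279) (nat_lit 1) (.n (nat_lit 291) (nat_lit 1) (.n (nat_lit 297) (nat_lit 1) (.p (nat_lit 298) (nat_lit 1) (.n (nat_lit 300) (nat_lit 1) (.n (nat_lit 327) (nat_lit 1) (.n (nat_lit 328) (nat_lit 8) (.p (nat_lit 329) (nat_lit 1) (.p (nat_lit 330) (nat_lit 29) (.n (nat_lit 331) (nat_lit 21) (.n (nat_lit 332) (nat_lit 18) (.n (nat_lit 333) (nat_lit 2) (.n (nat_lit 334) (nat_lit 30) (.n (nat_lit 335) (nat_lit 6) (.p (nat_lit 336) (nat_lit 7) (.n (nat_lit 337) (nat_lit 20) (.p (nat_lit 338) (nat_lit 17) (.p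 (nat_lit 339) (nat_lit 23) (.p (nat_lit 340) (nat_lit 4) (.n (nat_lit 341) (nat_lit 7) (.p (nat_lit 342) (nat_lit 4) (.p (nat_lit 343) (nat_lit 9) (.n (nat_lit 344) (nat_lit 1) (.n (nat_lit 345) (nat_lit 4) (.p (nat_lit 346) (nat_lit 3) (.p (nat_lit 347) (nat_lit 20) (.n (nat_lit 348) (nat_lit 3) (.n (nat_lit 349) (nat_lit 14) (.p (nat_lit 350) (nat_lit 10) (.p (nat_lit 351) (nat_lit 12) (.p (nat_lit 352) (nat_lit 14) (.n (nat_lit 353) (nat_lit 11) (.p (nat_lit 354) (nat_lit 16) (.n (nat_lit 355) (nat_lit 23) (.p (nat_lit 356) (nat_lit 11) (.n (nat_lit 357) (nat_lit 4) (.p (nat_lit 359) (nat_lit 10) (.p (nat_lit 360) (nat_lit 7) .z)))))))))))))))))))))))))))))))))))))))))))))))))))))))))))) (.u (nat_lit 2) (.n (nat_lit 361) (nat_lit 14) (.p (nat_lit 362) (nat_lit 11) (.n (nat_lit 363) (nat_lit 10) (.p (nat_lit 365) (nat_lit 3) (.p (nat_lit 366) (nat_lit 4) (.n (nat_lit 367) (nat_lit 6) (.p (nat_lit 368) (nat_lit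 2) (.n (nat_lit 369) (nat_lit 5) (.p (nat_lit 370) (nat_lit 2) (.p (nat_lit 371) (nat_lit 2) (.n (nat_lit 372) (nat_lit 2) (.n (nat_lit 373) (nat_lit 16) (.p (nat_lit 374) (nat_lit 6) (.n (nat_lit 375) (nat_lit 3) (.n (nat_lit 376) (nat_lit 4) (.n (nat_lit 377) (nat_lit 4) (.n (nat_lit 378) (nat_lit 8) (.p (nat_lit 379) (nat_lit 1) (.p (nat_lit 380) (nat_lit 8) (.p (nat_lit 382) (nat_lit 10) (.n (nat_lit 383) (nat_lit 3) (.p (nat_lit 384) (nat_lit 10) (.p (nat_lit 385) (nat_lit 1) (.p (nat_lit 386) (nat_lit 17) (.n (nat_lit 387) (nat_lit 9) (.n (nat_lit 388) (nat_lit 3) (.n (nat_lit 389) (nat_lit 4) (.p (nat_lit 392) (nat_lit 3) (.n (nat_lit 393) (nat_lit 6) (.n (nat_lit 394) (nat_lit 14) (.p (nat_lit 395) (nat_lit 13) (.p (nat_lit 396) (nat_lit 1) (.n (nat_lit 397) (nat_lit 5) (.n (nat_lit 399) (nat_lit 6) (.p (nat_lit 400) (nat_lit 5) (.p (nat_lit 401) (nat_lit 11) (.p (nat_lit 402) (nat_lit 16) (.p (nat_lit 403)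 (nat_lit 7) (.p (nat_lit 404) (nat_lit 5) (.p (nat_lit 405) (nat_lit 10) (.n (nat_lit 406) (nat_lit 7) (.n (nat_lit 407) (nat_lit 17) (.p (nat_lit 408) (nat_lit 19) (.n (nat_lit 409) (nat_lit 2) (.p (nat_lit 410) (nat_lit 2) (.p (nat_lit 411) (nat_lit 9) (.n (nat_lit 412) (nat_lit 2) (.n (nat_lit 413) (nat_lit 4) (.p (nat_lit 414) (nat_lit 7) (.p (nat_lit 415) (nat_lit 10) (.p (nat_lit 416) (nat_lit 5) (.p (nat_lit 417) (nat_lit 3) (.p (nat_lit 418) (nat_lit 4) (.n (nat_lit 419) (nat_lit 16) (.p (nat_lit 420) (nat_lit 8) (.p (nat_lit 421) (nat_lit 1) (.n (nat_lit 422) (nat_lit 16) (.n (nat_lit 423) (nat_lit 17) (.n (nat_lit 424) (nat_lit 2) (.p (nat_lit 425) (nat_lit 14) .z)))))))))))))))))))))))))))))))))))))))))))))))))))))))))))) (.u (nat_lit 2) (.p (nat_lit 426) (nat_lit 8) (.p (nat_lit 427) (nat_lit 6) (.p (nat_lit 428) (nat_lit 8) (.p (nat_lit 429) (nat_lit 4) (.p (nat_lit 430) (nat_lit 5) (.n (nat_lit 431)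 (nat_lit 4) (.n (nat_lit 432) (nat_lit 7) (.p (nat_lit 433) (nat_lit 1) (.n (nat_lit 434) (nat_lit 10) .z))))))))) .nil)))))))))))))))))))))))))

noncomputable def dC1d_i166 : IL := (.e false (nat_lit 1) (nat_lit 77) (nat_lit 13) (nat_lit 8) (.e true (nat_lit 1) (nat_lit 78) (nat_lit 13) (nat_lit 8) (.e false (nat_lit 3) (nat_lit 259) (nat_lit 2) (nat_lit 17) (.e false (nat_lit 3) (nat_lit 261) (nat_lit 1) (nat_lit 18) (.e true (nat_lit 2) (nat_lit 262) (nat_lit 1) (nat_lit 18) (.e true (nat_lit 1) (nat_lit 263) (nat_lit 1) (nat_lit 18) (.e false (nat_lit 2) (nat_lit 264) (nat_lit 1) (nat_lit 18) (.e false (nat_lit 1) (nat_lit 265) (nat_lit 1) (nat_lit 18) (.e true (nat_lit 3) (nat_lit 266) (nat_lit 1) (nat_lit 18) (.e true (nat_lit 1) (nat_lit 268) (nat_lit 1) (nat_lit 18) (.e false (nat_lit 1) (nat_lit 270) (nat_lit 1) (nat_lit 18) (.e true (nat_lit 1) (nat_lit 272) (nat_lit 1) (nat_lit 18) (.e false (nat_lit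 2) (nat_lit 273) (nat_lit 1) (nat_lit 18) (.e false (nat_lit 1) (nat_lit 274) (nat_lit 1) (nat_lit 18) (.e true (nat_lit 1) (nat_lit 260) (nat_lit 1) (nat_lit 18) (.e true (nat_lit 3) (nat_lit 269) (nat_lit 1) (nat_lit 18) (.e false (nat_lit 2) (nat_lit 271) (nat_lit 1) (nat_lit 18) (.e false (nat_lit 3) (nat_lit 278) (nat_lit 1) (nat_lit 18) (.e true (nat_lit 3) (nat_lit 279) (nat_lit 1) (nat_lit 18) (.e true (nat_lit 1) (nat_lit 288) (nat_lit 1) (nat_lit 18) (.e false (nat_lit 1) (nat_lit 290) (nat_lit 0) (nat_lit 19) (.e true (nat_lit 2) (nat_lit 291) (nat_lit 0) (nat_lit 19) (.e false (nat_lit 3) (nat_lit 292) (nat_lit 0) (nat_lit 19) (.e false (nat_lit 1) (nat_lit 293) (nat_lit 0) (nat_lit 19) (.e true (nat_lit 3) (nat_lit 294) (nat_lit 0) (nat_lit 19) dC1d_i165)))))))))))))))))))))))))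

noncomputable def dC1d_i167 : IL := (.s true (nat_lit 3) (nat_lit 104) (nat_lit 0) (nat_lit 1) (nat_lit 0) false (nat_lit 20) true (nat_lit 19) false (nat_lit 12) true (nat_lit 19) true (nat_lit 18) (.a false (nat_lit 2) (nat_lit 31) (nat_lit 31) (nat_lit 0) (nat_lit 0) (.a false (nat_lit 3) (nat_lit 34) (nat_lit 34) (nat_lit 0) (nat_lit 0) (.a true (nat_lit 2) (nat_lit 35) (nat_lit 35) (nat_lit 0) (nat_lit 0) (.e true (nat_lit 1) (nat_lit 213) (nat_lit 2) (nat_lit 17) (.e true (nat_lit 2) (nat_lit 214) (nat_lit 2) (nat_lit 17) (.e false (nat_lit 1) (nat_lit 216) (nat_lit 2) (nat_lit 17) (.e false (nat_lit 2) (nat_lit 217) (nat_lit 2) (nat_lit 17) (.e true (nat_lit 3) (nat_lit 221) (nat_lit 2) (nat_lit 17) (.e false (nat_lit 2) (nat_lit 223) (nat_lit 2) (nat_lit 17) (.e false (nat_lit 3) (nat_lit 224) (nat_lit 2) (nat_lit 17) (.e false (nat_lit 2) (nat_lit 227) (nat_lit 2) (nat_lit 17) (.e true (nat_lit 1) (nat_lit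 228) (nat_lit 2) (nat_lit 17) (.e true (nat_lit 3) (nat_lit 233) (nat_lit 2) (nat_lit 17) (.e true (nat_lit 2) (nat_lit 235) (nat_lit 2) (nat_lit 17) (.e false (nat_lit 2) (nat_lit 236) (nat_lit 2) (nat_lit 17) (.e false (nat_lit 1) (nat_lit 239) (nat_lit 2) (nat_lit 17) (.e true (nat_lit 3) (nat_lit 242) (nat_lit 2) (nat_lit 17) (.e true (nat_lit 3) (nat_lit 244) (nat_lit 2) (nat_lit 17) (.e false (nat_lit 1) (nat_lit 245) (nat_lit 2) (nat_lit 17) (.e false (nat_lit 1) (nat_lit 248) (nat_lit 2) (nat_lit 17) (.e true (nat_lit 2) (nat_lit 219) (nat_lit 2) (nat_lit 17) (.e false (nat_lit 1) (nat_lit 232) (nat_lit 2) (nat_lit 17) (.e false (nat_lit 3) (nat_lit 234) (nat_lit 2) (nat_lit 17) (.e true (nat_lit 1) (nat_lit 251) (nat_lit 2) (nat_lit 17) dC1d_i166)))))))))))))))))))))))))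

noncomputable def dC1d_i168 : IL := (.s false (nat_lit 2) (nat_lit 75) (nat_lit 2) (nat_lit 2) (nat_lit 0) true (nat_lit 15) true (nat_lit 19) false (nat_lit 7) true (nat_lit 17) true (nat_lit 17) (.s true (nat_lit 1) (nat_lit 76) (nat_lit 2) (nat_lit 2) (nat_lit 0) true (nat_lit 15) true (nat_lit 19) false (nat_lit 7) true (nat_lit 17) true (nat_lit 17) (.s false (nat_lit 1) (nat_lit 77) (nat_lit 1) (nat_lit 1) (nat_lit 2) true (nat_lit 14) true (nat_lit 17) false (nat_lit 8) true (nat_lit 18) true (nat_lit 18) (.s true (nat_lit 1) (nat_lit 78) (nat_lit 1) (nat_lit 1) (nat_lit 2) true (nat_lit 14) true (nat_lit 17) false (nat_lit 8) true (nat_lit 18) true (nat_lit 18) (.s true (nat_lit 1) (nat_lit 79) (nat_lit 1) (nat_lit 1) (nat_lit 2) true (nat_lit 14) true (nat_lit 17) false (nat_lit 8) true (nat_lit 18) true (nat_lit 18) (.s true (nat_lit 2) (nat_lit 80) (nat_lit 1) (nat_lit 1) (nat_lit 2) true (nat_lit 14)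 true (nat_lit 17) false (nat_lit 8) true (nat_lit 18) true (nat_lit 18) (.s true (nat_lit 1) (nat_lit 79) (nat_lit 1) (nat_lit 2) (nat_lit 1) false (nat_lit 21) true (nat_lit 18) false (nat_lit 8) true (nat_lit 18) true (nat_lit 17) (.s false (nat_lit 3) (nat_lit 81) (nat_lit 1) (nat_lit 2) (nat_lit 1) false (nat_lit 21) true (nat_lit 18) false (nat_lit 8) true (nat_lit 18) true (nat_lit 17) (.s true (nat_lit 2) (nat_lit 80) (nat_lit 2) (nat_lit 1) (nat_lit 1) true (nat_lit 14) true (nat_lit 18) false (nat_lit 8) true (nat_lit 17) true (nat_lit 18) (.s true (nat_lit 2) (nat_lit 90) (nat_lit 0) (nat_lit 1) (nat_lit 2) true (nat_lit 15) true (nat_lit 17) false (nat_lit 9) true (nat_lit 19) true (nat_lit 18) (.s true (nat_lit 2) (nat_lit 90) (nat_lit 1) (nat_lit 2) (nat_lit 0) true (nat_lit 16) true (nat_lit 19) false (nat_lit 9) true (nat_lit 18) true (nat_lit 17) (.s false (nat_lit 1) (nat_lit 82) (nat_lit 2) (nat_lit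 1) (nat_lit 0) true (nat_lit 15) true (nat_lit 19) false (nat_lit 9) true (nat_lit 17) true (nat_lit 18) (.s true (nat_lit 2) (nat_lit 90) (nat_lit 2) (nat_lit 1) (nat_lit 0) true (nat_lit 15) true (nat_lit 19) false (nat_lit 9) true (nat_lit 17) true (nat_lit 18) (.s false (nat_lit 1) (nat_lit 93) (nat_lit 0) (nat_lit 2) (nat_lit 0) false (nat_lit 20) true (nat_lit 19) false (nat_lit 10) true (nat_lit 19) true (nat_lit 17) (.s false (nat_lit 1) (nat_lit 94) (nat_lit 0) (nat_lit 2) (nat_lit 0) false (nat_lit 20) true (nat_lit 19) false (nat_lit 10) true (nat_lit 19) true (nat_lit 17) (.s false (nat_lit 3) (nat_lit 95) (nat_lit 0) (nat_lit 2) (nat_lit 0) false (nat_lit 20) true (nat_lit 19) false (nat_lit 10) true (nat_lit 19) true (nat_lit 17) (.s false (nat_lit 1) (nat_lit 96) (nat_lit 0) (nat_lit 2) (nat_lit 0) false (nat_lit 20) true (nat_lit 19) false (nat_lit 10) true (nat_lit 19) true (nat_lit 17) (.s true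 (nat_lit 1) (nat_lit 97) (nat_lit 0) (nat_lit 2) (nat_lit 0) false (nat_lit 20) true (nat_lit 19) false (nat_lit 10) true (nat_lit 19) true (nat_lit 17) (.s true (nat_lit 2) (nat_lit 98) (nat_lit 0) (nat_lit 1) (nat_lit 1) true (nat_lit 16) true (nat_lit 18) false (nat_lit 11) true (nat_lit 19) true (nat_lit 18) (.s true (nat_lit 1) (nat_lit 99) (nat_lit 1) (nat_lit 0) (nat_lit 1) false (nat_lit 21) true (nat_lit 18) false (nat_lit 11) true (nat_lit 18) true (nat_lit 19) (.s false (nat_lit 2) (nat_lit 100) (nat_lit 1) (nat_lit 0) (nat_lit 1) false (nat_lit 21) true (nat_lit 18) false (nat_lit 11) true (nat_lit 18) true (nat_lit 19) (.s true (nat_lit 2) (nat_lit 101) (nat_lit 1) (nat_lit 0) (nat_lit 1) false (nat_lit 21) true (nat_lit 18) false (nat_lit 11) true (nat_lit 18) true (nat_lit 19) (.s true (nat_lit 2) (nat_lit 98) (nat_lit 1) (nat_lit 1) (nat_lit 0) true (nat_lit 16) true (nat_lit 19) false (nat_lit 11)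 true (nat_lit 18) true (nat_lit 18) (.s true (nat_lit 3) (nat_lit 102) (nat_lit 0) (nat_lit 1) (nat_lit 0) false (nat_lit 20) true (nat_lit 19) false (nat_lit 12) true (nat_lit 19) true (nat_lit 18) (.s false (nat_lit 3) (nat_lit 103) (nat_lit 0) (nat_lit 1) (nat_lit 0) false (nat_lit 20) true (nat_lit 19) false (nat_lit 12) true (nat_lit 19) true (nat_lit 18) dC1d_i167)))))))))))))))))))))))))

noncomputable def dC1d_i169 : IL := (.s true (nat_lit 2) (nat_lit 61) (nat_lit 1) (nat_lit 2) (nat_lit 2) true (nat_lit 14) true (nat_lit 17) false (nat_lit 6) true (nat_lit 18) true (nat_lit 17) (.s false (nat_lit 1) (nat_lit 64) (nat_lit 1) (nat_lit 2) (nat_lit 2) true (nat_lit 14) true (nat_lit 17) false (nat_lit 6) true (nat_lit 18) true (nat_lit 17) (.s false (nat_lit 2) (nat_lit 65) (nat_lit 1) (nat_lit 2) (nat_lit 2) true (nat_lit 14) true (nat_lit 17) false (nat_lit 6) true (nat_lit 18) true (nat_lit 17) (.s true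 (nat_lit 3) (nat_lit 55) (nat_lit 2) (nat_lit 1) (nat_lit 2) true (nat_lit 13) true (nat_lit 17) false (nat_lit 6) true (nat_lit 17) true (nat_lit 18) (.s true (nat_lit 2) (nat_lit 56) (nat_lit 2) (nat_lit 1) (nat_lit 2) true (nat_lit 13) true (nat_lit 17) false (nat_lit 6) true (nat_lit 17) true (nat_lit 18) (.s true (nat_lit 3) (nat_lit 59) (nat_lit 2) (nat_lit 1) (nat_lit 2) true (nat_lit 13) true (nat_lit 17) false (nat_lit 6) true (nat_lit 17) true (nat_lit 18) (.s false (nat_lit 2) (nat_lit 60) (nat_lit 2) (nat_lit 1) (nat_lit 2) true (nat_lit 13) true (nat_lit 17) false (nat_lit 6) true (nat_lit 17) true (nat_lit 18) (.s true (nat_lit 3) (nat_lit 61) (nat_lit 2) (nat_lit 1) (nat_lit 2) true (nat_lit 13) true (nat_lit 17) false (nat_lit 6) true (nat_lit 17) true (nat_lit 18) (.s false (nat_lit 2) (nat_lit 61) (nat_lit 2) (nat_lit 2) (nat_lit 1) true (nat_lit 14) true (nat_lit 18) false (nat_lit 6) true (nat_lit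 17) true (nat_lit 17) (.s true (nat_lit 1) (nat_lit 64) (nat_lit 2) (nat_lit 2) (nat_lit 1) true (nat_lit 14) true (nat_lit 18) false (nat_lit 6) true (nat_lit 17) true (nat_lit 17) (.s false (nat_lit 3) (nat_lit 65) (nat_lit 2) (nat_lit 2) (nat_lit 1) true (nat_lit 14) true (nat_lit 18) false (nat_lit 6) true (nat_lit 17) true (nat_lit 17) (.s true (nat_lit 2) (nat_lit 67) (nat_lit 0) (nat_lit 2) (nat_lit 2) true (nat_lit 15) true (nat_lit 17) false (nat_lit 7) true (nat_lit 19) true (nat_lit 17) (.s false (nat_lit 1) (nat_lit 70) (nat_lit 0) (nat_lit 2) (nat_lit 2) true (nat_lit 15) true (nat_lit 17) false (nat_lit 7) true (nat_lit 19) true (nat_lit 17) (.s true (nat_lit 3) (nat_lit 72) (nat_lit 0) (nat_lit 2) (nat_lit 2) true (nat_lit 15) true (nat_lit 17) false (nat_lit 7) true (nat_lit 19) true (nat_lit 17) (.s false (nat_lit 2) (nat_lit 74) (nat_lit 0) (nat_lit 2) (nat_lit 2) true (nat_lit 15) true (nat_lit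 17) false (nat_lit 7) true (nat_lit 19) true (nat_lit 17) (.s true (nat_lit 2) (nat_lit 76) (nat_lit 0) (nat_lit 2) (nat_lit 2) true (nat_lit 15) true (nat_lit 17) false (nat_lit 7) true (nat_lit 19) true (nat_lit 17) (.s false (nat_lit 3) (nat_lit 66) (nat_lit 2) (nat_lit 0) (nat_lit 2) true (nat_lit 13) true (nat_lit 17) false (nat_lit 7) true (nat_lit 17) true (nat_lit 19) (.s false (nat_lit 1) (nat_lit 74) (nat_lit 2) (nat_lit 0) (nat_lit 2) true (nat_lit 13) true (nat_lit 17) false (nat_lit 7) true (nat_lit 17) true (nat_lit 19) (.s false (nat_lit 3) (nat_lit 66) (nat_lit 2) (nat_lit 2) (nat_lit 0) true (nat_lit 15) true (nat_lit 19) false (nat_lit 7) true (nat_lit 17) true (nat_lit 17) (.s true (nat_lit 1) (nat_lit 67) (nat_lit 2) (nat_lit 2) (nat_lit 0) true (nat_lit 15) true (nat_lit 19) false (nat_lit 7) true (nat_lit 17) true (nat_lit 17) (.s false (nat_lit 2) (nat_lit 68) (nat_lit 2) (nat_lit 2) (nat_lit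 0) true (nat_lit 15) true (nat_lit 19) false (nat_lit 7) true (nat_lit 17) true (nat_lit 17) (.s true (nat_lit 2) (nat_lit 69) (nat_lit 2) (nat_lit 2) (nat_lit 0) true (nat_lit 15) true (nat_lit 19) false (nat_lit 7) true (nat_lit 17) true (nat_lit 17) (.s false (nat_lit 1) (nat_lit 70) (nat_lit 2) (nat_lit 2) (nat_lit 0) true (nat_lit 15) true (nat_lit 19) false (nat_lit 7) true (nat_lit 17) true (nat_lit 17) (.s true (nat_lit 1) (nat_lit 72) (nat_lit 2) (nat_lit 2) (nat_lit 0) true (nat_lit 15) true (nat_lit 19) false (nat_lit 7) true (nat_lit 17) true (nat_lit 17) (.s true (nat_lit 2) (nat_lit 73) (nat_lit 2) (nat_lit 2) (nat_lit 0) true (nat_lit 15) true (nat_lit 19) false (nat_lit 7) true (nat_lit 17) true (nat_lit 17) dC1d_i168)))))))))))))))))))))))))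

noncomputable def dC1d_i170 : IL := (.s true (nat_lit 1) (nat_lit 24) (nat_lit 2) (nat_lit 6) (nat_lit 0) true (nat_lit 15) true (nat_lit 19) true (nat_lit 2) true (nat_lit 17) true (nat_lit 13) (.s false (nat_lit 2) (nat_lit 24) (nat_lit 6) (nat_lit 0) (nat_lit 2) true (nat_lit 5) true (nat_lit 17) true (nat_lit 2) true (nat_lit 13) true (nat_lit 19) (.s true (nat_lit 1) (nat_lit 24) (nat_lit 6) (nat_lit 2) (nat_lit 0) true (nat_lit 7) true (nat_lit 19) true (nat_lit 2) true (nat_lit 13) true (nat_lit 17) (.s false (nat_lit 2) (nat_lit 29) (nat_lit 1) (nat_lit 1) (nat_lit 6) true (nat_lit 6) true (nat_lit 13) true (nat_lit 1) true (nat_lit 18) true (nat_lit 18) (.s true (nat_lit 3) (nat_lit 30) (nat_lit 1) (nat_lit 1) (nat_lit 6) true (nat_lit 6) true (nat_lit 13) true (nat_lit 1) true (nat_lit 18) true (nat_lit 18) (.s true (nat_lit 3) (nat_lit 28) (nat_lit 1) (nat_lit 5) (nat_lit 2) true (nat_lit 14) true (nat_lit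 17) true (nat_lit 1) true (nat_lit 18) true (nat_lit 14) (.s true (nat_lit 1) (nat_lit 28) (nat_lit 2) (nat_lit 1) (nat_lit 5) true (nat_lit 6) true (nat_lit 14) true (nat_lit 1) true (nat_lit 17) true (nat_lit 18) (.s true (nat_lit 2) (nat_lit 29) (nat_lit 2) (nat_lit 1) (nat_lit 5) true (nat_lit 6) true (nat_lit 14) true (nat_lit 1) true (nat_lit 17) true (nat_lit 18) (.s false (nat_lit 1) (nat_lit 30) (nat_lit 2) (nat_lit 1) (nat_lit 5) true (nat_lit 6) true (nat_lit 14) true (nat_lit 1) true (nat_lit 17) true (nat_lit 18) (.s false (nat_lit 3) (nat_lit 28) (nat_lit 5) (nat_lit 2) (nat_lit 1) true (nat_lit 8) true (nat_lit 18) true (nat_lit 1) true (nat_lit 14) true (nat_lit 17) (.s false (nat_lit 2) (nat_lit 29) (nat_lit 6) (nat_lit 1) (nat_lit 1) true (nat_lit 6) true (nat_lit 18) true (nat_lit 1) true (nat_lit 13) true (nat_lit 18) (.s false (nat_lit 2) (nat_lit 30) (nat_lit 6) (nat_lit 1) (nat_lit 1) true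 (nat_lit 6) true (nat_lit 18) true (nat_lit 1) true (nat_lit 13) true (nat_lit 18) (.s false (nat_lit 1) (nat_lit 31) (nat_lit 0) (nat_lit 2) (nat_lit 5) true (nat_lit 9) true (nat_lit 14) true (nat_lit 0) true (nat_lit 19) true (nat_lit 17) (.s false (nat_lit 1) (nat_lit 31) (nat_lit 2) (nat_lit 1) (nat_lit 4) true (nat_lit 7) true (nat_lit 15) true (nat_lit 0) true (nat_lit 17) true (nat_lit 18) (.s false (nat_lit 2) (nat_lit 31) (nat_lit 3) (nat_lit 2) (nat_lit 2) true (nat_lit 9) true (nat_lit 17) true (nat_lit 0) true (nat_lit 16) true (nat_lit 17) (.s false (nat_lit 2) (nat_lit 38) (nat_lit 0) (nat_lit 2) (nat_lit 4) true (nat_lit 10) true (nat_lit 15) false (nat_lit 1) true (nat_lit 19) true (nat_lit 17) (.s true (nat_lit 3) (nat_lit 37) (nat_lit 6) (nat_lit 0) (nat_lit 0) true (nat_lit 7) true (nat_lit 19) false (nat_lit 1) true (nat_lit 13) true (nat_lit 19) (.s false (nat_lit 2) (nat_lit 38) (nat_lit 6)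 (nat_lit 0) (nat_lit 0) true (nat_lit 7) true (nat_lit 19) false (nat_lit 1) true (nat_lit 13) true (nat_lit 19) (.s true (nat_lit 3) (nat_lit 39) (nat_lit 6) (nat_lit 0) (nat_lit 0) true (nat_lit 7) true (nat_lit 19) false (nat_lit 1) true (nat_lit 13) true (nat_lit 19) (.s false (nat_lit 3) (nat_lit 46) (nat_lit 3) (nat_lit 0) (nat_lit 1) true (nat_lit 11) true (nat_lit 18) false (nat_lit 4) true (nat_lit 16) true (nat_lit 19) (.s false (nat_lit 1) (nat_lit 46) (nat_lit 3) (nat_lit 1) (nat_lit 0) true (nat_lit 12) true (nat_lit 19) false (nat_lit 4) true (nat_lit 16) true (nat_lit 18) (.s true (nat_lit 2) (nat_lit 48) (nat_lit 2) (nat_lit 2) (nat_lit 2) true (nat_lit 13) true (nat_lit 17) false (nat_lit 5) true (nat_lit 17) true (nat_lit 17) (.s true (nat_lit 1) (nat_lit 49) (nat_lit 2) (nat_lit 2) (nat_lit 2) true (nat_lit 13) true (nat_lit 17) false (nat_lit 5) true (nat_lit 17) true (nat_lit 17) (.s true (nat_lit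 2) (nat_lit 54) (nat_lit 2) (nat_lit 2) (nat_lit 2) true (nat_lit 13) true (nat_lit 17) false (nat_lit 5) true (nat_lit 17) true (nat_lit 17) (.s false (nat_lit 1) (nat_lit 56) (nat_lit 1) (nat_lit 2) (nat_lit 2) true (nat_lit 14) true (nat_lit 17) false (nat_lit 6) true (nat_lit 18) true (nat_lit 17) dC1d_i169)))))))))))))))))))))))))

noncomputable def dC1d_i171 : IL := (.s false (nat_lit 2) (nat_lit 16) (nat_lit 9) (nat_lit 1) (nat_lit 2) true (nat_lit 1) true (nat_lit 17) true (nat_lit 6) true (nat_lit 10) true (nat_lit 18) (.s true (nat_lit 1) (nat_lit 17) (nat_lit 9) (nat_lit 1) (nat_lit 2) true (nat_lit 1) true (nat_lit 17) true (nat_lit 6) true (nat_lit 10) true (nat_lit 18) (.s false (nat_lit 3) (nat_lit 16) (nat_lit 9) (nat_lit 2) (nat_lit 1) true (nat_lit 3) true (nat_lit 18) true (nat_lit 6) true (nat_lit 10) true (nat_lit 17) (.s true (nat_lit 1) (nat_lit 16) (nat_lit 15) (nat_lit 1) (nat_lit 0) true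 (nat_lit 1) true (nat_lit 19) true (nat_lit 6) true (nat_lit 7) true (nat_lit 18) (.s true (nat_lit 1) (nat_lit 17) (nat_lit 15) (nat_lit 1) (nat_lit 0) true (nat_lit 1) true (nat_lit 19) true (nat_lit 6) true (nat_lit 7) true (nat_lit 18) (.s true (nat_lit 1) (nat_lit 18) (nat_lit 0) (nat_lit 1) (nat_lit 10) true (nat_lit 3) true (nat_lit 9) true (nat_lit 5) true (nat_lit 19) true (nat_lit 18) (.s false (nat_lit 1) (nat_lit 18) (nat_lit 0) (nat_lit 2) (nat_lit 8) true (nat_lit 4) true (nat_lit 11) true (nat_lit 5) true (nat_lit 19) true (nat_lit 17) (.s false (nat_lit 1) (nat_lit 18) (nat_lit 1) (nat_lit 1) (nat_lit 9) true (nat_lit 3) true (nat_lit 10) true (nat_lit 5) true (nat_lit 18) true (nat_lit 18) (.s false (nat_lit 3) (nat_lit 18) (nat_lit 1) (nat_lit 2) (nat_lit 7) true (nat_lit 4) true (nat_lit 12) true (nat_lit 5) true (nat_lit 18) true (nat_lit 17) (.s false (nat_lit 2) (nat_lit 18) (nat_lit 1) (nat_lit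 7) (nat_lit 2) true (nat_lit 14) true (nat_lit 17) true (nat_lit 5) true (nat_lit 18) true (nat_lit 12) (.s true (nat_lit 1) (nat_lit 18) (nat_lit 1) (nat_lit 10) (nat_lit 0) true (nat_lit 16) true (nat_lit 19) true (nat_lit 5) true (nat_lit 18) true (nat_lit 9) (.s true (nat_lit 1) (nat_lit 18) (nat_lit 2) (nat_lit 3) (nat_lit 3) true (nat_lit 9) true (nat_lit 16) true (nat_lit 5) true (nat_lit 17) true (nat_lit 16) (.s true (nat_lit 2) (nat_lit 18) (nat_lit 8) (nat_lit 0) (nat_lit 2) true (nat_lit 2) true (nat_lit 17) true (nat_lit 5) true (nat_lit 11) true (nat_lit 19) (.s false (nat_lit 2) (nat_lit 18) (nat_lit 9) (nat_lit 1) (nat_lit 1) true (nat_lit 3) true (nat_lit 18) true (nat_lit 5) true (nat_lit 10) true (nat_lit 18) (.s true (nat_lit 1) (nat_lit 18) (nat_lit 10) (nat_lit 1) (nat_lit 0) true (nat_lit 3) true (nat_lit 19) true (nat_lit 5) true (nat_lit 9) true (nat_lit 18) (.s true (nat_lit 3) (nat_lit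 19) (nat_lit 2) (nat_lit 2) (nat_lit 6) true (nat_lit 5) true (nat_lit 13) true (nat_lit 4) true (nat_lit 17) true (nat_lit 17) (.s false (nat_lit 1) (nat_lit 21) (nat_lit 1) (nat_lit 2) (nat_lit 6) true (nat_lit 6) true (nat_lit 13) true (nat_lit 3) true (nat_lit 18) true (nat_lit 17) (.s false (nat_lit 2) (nat_lit 21) (nat_lit 2) (nat_lit 1) (nat_lit 6) true (nat_lit 5) true (nat_lit 13) true (nat_lit 3) true (nat_lit 17) true (nat_lit 18) (.s false (nat_lit 2) (nat_lit 21) (nat_lit 2) (nat_lit 2) (nat_lit 5) true (nat_lit 6) true (nat_lit 14) true (nat_lit 3) true (nat_lit 17) true (nat_lit 17) (.s false (nat_lit 3) (nat_lit 21) (nat_lit 2) (nat_lit 5) (nat_lit 2) true (nat_lit 13) true (nat_lit 17) true (nat_lit 3) true (nat_lit 17) true (nat_lit 14) (.s true (nat_lit 1) (nat_lit 20) (nat_lit 5) (nat_lit 2) (nat_lit 2) true (nat_lit 6) true (nat_lit 17) true (nat_lit 3) true (nat_lit 14) true (nat_lit 17) (.s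 false (nat_lit 1) (nat_lit 21) (nat_lit 6) (nat_lit 1) (nat_lit 2) true (nat_lit 5) true (nat_lit 17) true (nat_lit 3) true (nat_lit 13) true (nat_lit 18) (.s false (nat_lit 1) (nat_lit 24) (nat_lit 0) (nat_lit 2) (nat_lit 6) true (nat_lit 7) true (nat_lit 13) true (nat_lit 2) true (nat_lit 19) true (nat_lit 17) (.s true (nat_lit 3) (nat_lit 24) (nat_lit 0) (nat_lit 6) (nat_lit 2) true (nat_lit 15) true (nat_lit 17) true (nat_lit 2) true (nat_lit 19) true (nat_lit 13) (.s true (nat_lit 3) (nat_lit 24) (nat_lit 2) (nat_lit 2) (nat_lit 4) true (nat_lit 7) true (nat_lit 15) true (nat_lit 2) true (nat_lit 17) true (nat_lit 17) dC1d_i170)))))))))))))))))))))))))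

noncomputable def dC1d_i172 : IL := (.e false (nat_lit 1) (nat_lit 262) (nat_lit 1) (nat_lit 18) (.e false (nat_lit 3) (nat_lit 265) (nat_lit 1) (nat_lit 18) (.e true (nat_lit 1) (nat_lit 282) (nat_lit 1) (nat_lit 18) (.e false (nat_lit 1) (nat_lit 290) (nat_lit 0) (nat_lit 19) (.e true (nat_lit 3) (nat_lit 291) (nat_lit 0) (nat_lit 19) (.e false (nat_lit 2) (nat_lit 292) (nat_lit 0) (nat_lit 19) (.e false (nat_lit 1) (nat_lit 293) (nat_lit 0) (nat_lit 19) (.e false (nat_lit 3) (nat_lit 295) (nat_lit 0) (nat_lit 19) (.e true (nat_lit 3) (nat_lit 298) (nat_lit 0) (nat_lit 19) (.e true (nat_lit 2) (nat_lit 299) (nat_lit 0) (nat_lit 19) (.e true (nat_lit 3) (nat_lit 300) (nat_lit 0) (nat_lit 19) (.e true (nat_lit 1) (nat_lit 304) (nat_lit 0) (nat_lit 19) (.e false (nat_lit 1) (nat_lit 308) (nat_lit 0) (nat_lit 19) (.e false (nat_lit 2) (nat_lit 294) (nat_lit 0) (nat_lit 19) (.e false (nat_lit 2) (nat_lit 301) (nat_lit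 0) (nat_lit 19) (.e false (nat_lit 2) (nat_lit 302) (nat_lit 0) (nat_lit 19) (.e true (nat_lit 1) (nat_lit 305) (nat_lit 0) (nat_lit 19) (.e false (nat_lit 1) (nat_lit 78) (nat_lit 13) (nat_lit 8) (.e false (nat_lit 2) (nat_lit 143) (nat_lit 5) (nat_lit 14) (.e false (nat_lit 3) (nat_lit 144) (nat_lit 5) (nat_lit 14) (.e true (nat_lit 3) (nat_lit 309) (nat_lit 0) (nat_lit 19) (.u (nat_lit 2) (.n (nat_lit 1) (nat_lit 2) (.p (nat_lit 2) (nat_lit 1) (.p (nat_lit 4) (nat_lit 1) (.p (nat_lit 5) (nat_lit 1) (.p (nat_lit 9) (nat_lit 1) (.n (nat_lit 10) (nat_lit 2) (.p (nat_lit 11) (nat_lit 2) (.p (nat_lit 12) (nat_lit 1) (.n (nat_lit 14) (nat_lit 1) (.p (nat_lit 15) (nat_lit 2) (.p (nat_lit 18) (nat_lit 2) (.n (nat_lit 19) (nat_lit 2) (.p (nat_lit 20) (nat_lit 1) (.p (nat_lit 26) (nat_lit 3) (.p (nat_lit 27) (nat_lit 1) (.n (nat_lit 28) (nat_lit 1) (.p (nat_lit 29) (nat_lit 1) (.p (nat_lit 30) (nat_lit 1) (.n (nat_lit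 31) (nat_lit 2) (.p (nat_lit 32) (nat_lit 2) (.n (nat_lit 33) (nat_lit 2) (.n (nat_lit 34) (nat_lit 1) (.p (nat_lit 35) (nat_lit 2) (.p (nat_lit 37) (nat_lit 1) (.n (nat_lit 38) (nat_lit 1) (.p (nat_lit 39) (nat_lit 1) (.p (nat_lit 40) (nat_lit 1) (.n (nat_lit 41) (nat_lit 1) (.n (nat_lit 49) (nat_lit 1) (.n (nat_lit 54) (nat_lit 1) (.p (nat_lit 55) (nat_lit 1) (.p (nat_lit 70) (nat_lit 1) (.n (nat_lit 71) (nat_lit 1) (.n (nat_lit 72) (nat_lit 1) (.p (nat_lit 75) (nat_lit 1) (.n (nat_lit 89) (nat_lit 1) (.n (nat_lit 94) (nat_lit 1) (.p (nat_lit 95) (nat_lit 1) (.p (nat_lit 99) (nat_lit 1) (.n (nat_lit 107) (nat_lit 1) (.n (nat_lit 108) (nat_lit 1) (.p (nat_lit 118) (nat_lit 1) (.p (nat_lit 129) (nat_lit 1) (.p (nat_lit 132) (nat_lit 1) (.p (nat_lit 140) (nat_lit 1) (.p (nat_lit 142) (nat_lit 1) (.p (nat_lit 148) (nat_lit 1) (.n (nat_lit 152) (nat_lit 1) (.p (nat_lit 160) (nat_lit 1) (.p (nat_lit 163) (nat_lit 1)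 (.n (nat_lit 170) (nat_lit 1) (.p (nat_lit 171) (nat_lit 1) (.p (nat_lit 179) (nat_lit 1) (.p (nat_lit 182) (nat_lit 1) (.n (nat_lit 198) (nat_lit 1) (.p (nat_lit 201) (nat_lit 1) (.p (nat_lit 209) (nat_lit 1) (.n (nat_lit 231) (nat_lit 1) (.p (nat_lit 235) (nat_lit 1) (.n (nat_lit 236) (nat_lit 1) .z)))))))))))))))))))))))))))))))))))))))))))))))))))))))))))) (.u (nat_lit 2) (.p (nat_lit 237) (nat_lit 1) (.p (nat_lit 238) (nat_lit 1) (.n (nat_lit 239) (nat_lit 1) (.p (nat_lit 241) (nat_lit 1) (.p (nat_lit 245) (nat_lit 1) (.p (nat_lit 246) (nat_lit 1) (.n (nat_lit 249) (nat_lit 1) (.p (nat_lit 251) (nat_lit 1) (.n (nat_lit 254) (nat_lit 1) (.n (nat_lit 255) (nat_lit 1) (.p (nat_lit 257) (nat_lit 4) (.n (nat_lit 259) (nat_lit 1) (.n (nat_lit 260) (nat_lit 3) (.p (nat_lit 261) (nat_lit 3) (.n (nat_lit 262) (nat_lit 1) (.p (nat_lit 263) (nat_lit 1) (.n (nat_lit 272) (nat_lit 1) (.p (nat_lit 279) (nat_lit 1) (.p (nat_lit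 284) (nat_lit 1) (.n (nat_lit 294) (nat_lit 1) (.n (nat_lit 298) (nat_lit 1) (.p (nat_lit 299) (nat_lit 1) (.n (nat_lit 301) (nat_lit 1) (.p (nat_lit 304) (nat_lit 1) (.p (nat_lit 308) (nat_lit 1) (.p (nat_lit 310) (nat_lit 1) (.n (nat_lit 311) (nat_lit 5) (.n (nat_lit 312) (nat_lit 4) (.n (nat_lit 313) (nat_lit 2) (.p (nat_lit 315) (nat_lit 3) (.n (nat_lit 316) (nat_lit 2) (.n (nat_lit 318) (nat_lit 1) (.n (nat_lit 319) (nat_lit 2) (.n (nat_lit 320) (nat_lit 1) (.p (nat_lit 321) (nat_lit 1) (.p (nat_lit 322) (nat_lit 1) (.p (nat_lit 323) (nat_lit 1) (.p (nat_lit 326) (nat_lit 1) (.n (nat_lit 327) (nat_lit 1) (.p (nat_lit 328) (nat_lit 14) (.n (nat_lit 329) (nat_lit 2) (.n (nat_lit 330) (nat_lit 18) (.n (nat_lit 331) (nat_lit 4) (.p (nat_lit 332) (nat_lit 28) (.n (nat_lit 333) (nat_lit 3) (.p (nat_lit 334) (nat_lit 26) (.n (nat_lit 335) (nat_lit 1) (.n (nat_lit 336) (nat_lit 7) (.p (nat_lit 337) (nat_lit 14) (.p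 (nat_lit 338) (nat_lit 24) (.n (nat_lit 339) (nat_lit 33) (.n (nat_lit 340) (nat_lit 4) (.p (nat_lit 341) (nat_lit 18) (.n (nat_lit 342) (nat_lit 17) (.p (nat_lit 343) (nat_lit 2) (.n (nat_lit 344) (nat_lit 19) (.n (nat_lit 345) (nat_lit 8) (.n (nat_lit 346) (nat_lit 12) (.n (nat_lit 347) (nat_lit 10) (.p (nat_lit 348) (nat_lit 5) .z)))))))))))))))))))))))))))))))))))))))))))))))))))))))))))) (.u (nat_lit 2) (.n (nat_lit 349) (nat_lit 9) (.n (nat_lit 350) (nat_lit 14) (.n (nat_lit 351) (nat_lit 7) (.n (nat_lit 353) (nat_lit 2) (.n (nat_lit 354) (nat_lit 16) (.p (nat_lit 355) (nat_lit 6) (.p (nat_lit 356) (nat_lit 14) (.p (nat_lit 357) (nat_lit 5) (.n (nat_lit 358) (nat_lit 15) (.n (nat_lit 359) (nat_lit 7) (.n (nat_lit 360) (nat_lit 2) (.p (nat_lit 361) (nat_lit 2) (.n (nat_lit 362) (nat_lit 4) (.p (nat_lit 363) (nat_lit 17) (.p (nat_lit 364) (nat_lit 10) (.n (nat_lit 365) (nat_lit 4) (.p (nat_lit 366) (nat_lit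 2) (.p (nat_lit 367) (nat_lit 5) (.n (nat_lit 368) (nat_lit 4) (.p (nat_lit 369) (nat_lit 1) (.n (nat_lit 371) (nat_lit 3) (.p (nat_lit 372) (nat_lit 3) (.p (nat_lit 373) (nat_lit 5) (.n (nat_lit 374) (nat_lit 2) (.n (nat_lit 375) (nat_lit 10) (.n (nat_lit 376) (nat_lit 13) (.p (nat_lit 377) (nat_lit 9) (.n (nat_lit 378) (nat_lit 1) (.p (nat_lit 379) (nat_lit 18) (.p (nat_lit 380) (nat_lit 5) (.p (nat_lit 381) (nat_lit 4) (.n (nat_lit 382) (nat_lit 11) (.p (nat_lit 383) (nat_lit 9) (.p (nat_lit 384) (nat_lit 10) (.p (nat_lit 385) (nat_lit 10) (.n (nat_lit 386) (nat_lit 6) (.n (nat_lit 387) (nat_lit 6) (.p (nat_lit 389) (nat_lit 13) (.p (nat_lit 390) (nat_lit 1) (.n (nat_lit 392) (nat_lit 13) (.n (nat_lit 393) (nat_lit 6) (.p (nat_lit 394) (nat_lit 5) (.n (nat_lit 395) (nat_lit 4) (.p (nat_lit 396) (nat_lit 4) (.n (nat_lit 397) (nat_lit 4) (.p (nat_lit 398) (nat_lit 3) (.n (nat_lit 399) (nat_lit 1) (.n (nat_lit 400)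 (nat_lit 3) (.n (nat_lit 401) (nat_lit 4) (.n (nat_lit 402) (nat_lit 5) (.n (nat_lit 403) (nat_lit 10) (.n (nat_lit 404) (nat_lit 1) (.n (nat_lit 405) (nat_lit 10) (.n (nat_lit 406) (nat_lit 3) (.p (nat_lit 407) (nat_lit 3) (.n (nat_lit 408) (nat_lit 37) (.n (nat_lit 409) (nat_lit 6) (.n (nat_lit 410) (nat_lit 2) (.n (nat_lit 411) (nat_lit 13) (.p (nat_lit 412) (nat_lit 10) .z)))))))))))))))))))))))))))))))))))))))))))))))))))))))))))) (.u (nat_lit 2) (.p (nat_lit 413) (nat_lit 4) (.n (nat_lit 414) (nat_lit 23) (.n (nat_lit 415) (nat_lit 4) (.p (nat_lit 416) (nat_lit 6) (.p (nat_lit 417) (nat_lit 11) (.n (nat_lit 418) (nat_lit 1) (.p (nat_lit 419) (nat_lit 20) (.n (nat_lit 420) (nat_lit 8) (.p (nat_lit 421) (nat_lit 1) (.n (nat_lit 422) (nat_lit 7) (.p (nat_lit 423) (nat_lit 3) (.n (nat_lit 424) (nat_lit 1) (.n (nat_lit 425) (nat_lit 11) (.p (nat_lit 426) (nat_lit 1) (.p (nat_lit 427) (nat_lit 9) (.p (nat_lit 428)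 (nat_lit 19) (.p (nat_lit 429) (nat_lit 5) (.p (nat_lit 430) (nat_lit 4) (.p (nat_lit 431) (nat_lit 2) (.p (nat_lit 432) (nat_lit 3) (.p (nat_lit 433) (nat_lit 10) (.n (nat_lit 434) (nat_lit 8) .z)))))))))))))))))))))) .nil)))))))))))))))))))))))))

noncomputable def dC1d_i173 : IL := (.e true (nat_lit 1) (nat_lit 214) (nat_lit 2) (nat_lit 17) (.e true (nat_lit 2) (nat_lit 216) (nat_lit 2) (nat_lit 17) (.e false (nat_lit 1) (nat_lit 217) (nat_lit 2) (nat_lit 17) (.e false (nat_lit 3) (nat_lit 218) (nat_lit 2) (nat_lit 17) (.e false (nat_lit 2) (nat_lit 221) (nat_lit 2) (nat_lit 17) (.e false (nat_lit 2) (nat_lit 224) (nat_lit 2) (nat_lit 17) (.e false (nat_lit 1) (nat_lit 244) (nat_lit 2) (nat_lit 17) (.e true (nat_lit 3) (nat_lit 245) (nat_lit 2) (nat_lit 17) (.e false (nat_lit 3) (nat_lit 212) (nat_lit 2) (nat_lit 17) (.e true (nat_lit 3) (nat_lit 219) (nat_lit 2) (nat_lit 17) (.e true (nat_lit 1) (nat_lit 307)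 (nat_lit 0) (nat_lit 19) (.e false (nat_lit 2) (nat_lit 77) (nat_lit 13) (nat_lit 8) (.e true (nat_lit 1) (nat_lit 260) (nat_lit 1) (nat_lit 18) (.e false (nat_lit 1) (nat_lit 263) (nat_lit 1) (nat_lit 18) (.e true (nat_lit 3) (nat_lit 264) (nat_lit 1) (nat_lit 18) (.e false (nat_lit 3) (nat_lit 266) (nat_lit 1) (nat_lit 18) (.e false (nat_lit 1) (nat_lit 267) (nat_lit 1) (nat_lit 18) (.e false (nat_lit 1) (nat_lit 268) (nat_lit 1) (nat_lit 18) (.e true (nat_lit 3) (nat_lit 269) (nat_lit 1) (nat_lit 18) (.e true (nat_lit 1) (nat_lit 270) (nat_lit 1) (nat_lit 18) (.e false (nat_lit 3) (nat_lit 271) (nat_lit 1) (nat_lit 18) (.e true (nat_lit 2) (nat_lit 274) (nat_lit 1) (nat_lit 18) (.e true (nat_lit 1) (nat_lit 278) (nat_lit 1) (nat_lit 18) (.e false (nat_lit 1) (nat_lit 279) (nat_lit 1) (nat_lit 18) (.e true (nat_lit 2) (nat_lit 281) (nat_lit 1) (nat_lit 18) dC1d_i172)))))))))))))))))))))))))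

noncomputable def dC1d_i174 : IL := (.s false (nat_lit 1) (nat_lit 95) (nat_lit 0) (nat_lit 2) (nat_lit 0) false (nat_lit 20) true (nat_lit 19) false (nat_lit 10) true (nat_lit 19) true (nat_lit 17) (.s true (nat_lit 3) (nat_lit 96) (nat_lit 0) (nat_lit 2) (nat_lit 0) false (nat_lit 20) true (nat_lit 19) false (nat_lit 10) true (nat_lit 19) true (nat_lit 17) (.s false (nat_lit 1) (nat_lit 97) (nat_lit 0) (nat_lit 2) (nat_lit 0) false (nat_lit 20) true (nat_lit 19) false (nat_lit 10) true (nat_lit 19) true (nat_lit 17) (.s true (nat_lit 2) (nat_lit 98) (nat_lit 0) (nat_lit 1) (nat_lit 1) true (nat_lit 16) true (nat_lit 18) false (nat_lit 11) true (nat_lit 19) true (nat_lit 18) (.s true (nat_lit 2) (nat_lit 100) (nat_lit 1) (nat_lit 0) (nat_lit 1) false (nat_lit 21) true (nat_lit 18) false (nat_lit 11) true (nat_lit 18) true (nat_lit 19) (.s false (nat_lit 2) (nat_lit 101) (nat_lit 1) (nat_lit 0) (nat_lit 1) false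 (nat_lit 21) true (nat_lit 18) false (nat_lit 11) true (nat_lit 18) true (nat_lit 19) (.s false (nat_lit 1) (nat_lit 98) (nat_lit 1) (nat_lit 1) (nat_lit 0) true (nat_lit 16) true (nat_lit 19) false (nat_lit 11) true (nat_lit 18) true (nat_lit 18) (.s false (nat_lit 3) (nat_lit 100) (nat_lit 1) (nat_lit 1) (nat_lit 0) true (nat_lit 16) true (nat_lit 19) false (nat_lit 11) true (nat_lit 18) true (nat_lit 18) (.s true (nat_lit 3) (nat_lit 101) (nat_lit 1) (nat_lit 1) (nat_lit 0) true (nat_lit 16) true (nat_lit 19) false (nat_lit 11) true (nat_lit 18) true (nat_lit 18) (.s true (nat_lit 3) (nat_lit 102) (nat_lit 0) (nat_lit 0) (nat_lit 1) true (nat_lit 16) true (nat_lit 18) false (nat_lit 12) true (nat_lit 19) true (nat_lit 19) (.s true (nat_lit 2) (nat_lit 103) (nat_lit 0) (nat_lit 0) (nat_lit 1) true (nat_lit 16) true (nat_lit 18) false (nat_lit 12) true (nat_lit 19) true (nat_lit 19) (.s false (nat_lit 1) (nat_lit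 105) (nat_lit 0) (nat_lit 0) (nat_lit 1) true (nat_lit 16) true (nat_lit 18) false (nat_lit 12) true (nat_lit 19) true (nat_lit 19) (.s true (nat_lit 2) (nat_lit 102) (nat_lit 0) (nat_lit 1) (nat_lit 0) false (nat_lit 20) true (nat_lit 19) false (nat_lit 12) true (nat_lit 19) true (nat_lit 18) (.s false (nat_lit 1) (nat_lit 103) (nat_lit 0) (nat_lit 1) (nat_lit 0) false (nat_lit 20) true (nat_lit 19) false (nat_lit 12) true (nat_lit 19) true (nat_lit 18) (.s false (nat_lit 1) (nat_lit 104) (nat_lit 0) (nat_lit 1) (nat_lit 0) false (nat_lit 20) true (nat_lit 19) false (nat_lit 12) true (nat_lit 19) true (nat_lit 18) (.s false (nat_lit 1) (nat_lit 105) (nat_lit 0) (nat_lit 1) (nat_lit 0) false (nat_lit 20) true (nat_lit 19) false (nat_lit 12) true (nat_lit 19) true (nat_lit 18) (.a false (nat_lit 2) (nat_lit 31) (nat_lit 31) (nat_lit 0) (nat_lit 0) (.a false (nat_lit 2) (nat_lit 34) (nat_lit 35) (nat_lit 0) (nat_lit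 0) (.a false (nat_lit 2) (nat_lit 34) (nat_lit 34) (nat_lit 0) (nat_lit 0) (.a false (nat_lit 1) (nat_lit 34) (nat_lit 36) (nat_lit 0) (nat_lit 0) (.a true (nat_lit 1) (nat_lit 31) (nat_lit 36) (nat_lit 0) (nat_lit 0) (.a false (nat_lit 1) (nat_lit 33) (nat_lit 34) (nat_lit 0) (nat_lit 0) (.a true (nat_lit 3) (nat_lit 31) (nat_lit 35) (nat_lit 0) (nat_lit 0) (.a true (nat_lit 3) (nat_lit 35) (nat_lit 35) (nat_lit 0) (nat_lit 0) (.e false (nat_lit 3) (nat_lit 213) (nat_lit 2) (nat_lit 17) dC1d_i173)))))))))))))))))))))))))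

noncomputable def dC1d_i175 : IL := (.s false (nat_lit 2) (nat_lit 70) (nat_lit 0) (nat_lit 2) (nat_lit 2) true (nat_lit 15) true (nat_lit 17) false (nat_lit 7) true (nat_lit 19) true (nat_lit 17) (.s true (nat_lit 1) (nat_lit 72) (nat_lit 0) (nat_lit 2) (nat_lit 2) true (nat_lit 15) true (nat_lit 17) false (nat_lit 7) true (nat_lit 19) true (nat_lit 17) (.s false (nat_lit 1) (nat_lit 74) (nat_lit 0) (nat_lit 2) (nat_lit 2) true (nat_lit 15) true (nat_lit 17) false (nat_lit 7) true (nat_lit 19) true (nat_lit 17) (.s true (nat_lit 3) (nat_lit 74) (nat_lit 2) (nat_lit 0) (nat_lit 2) true (nat_lit 13) true (nat_lit 17) false (nat_lit 7) true (nat_lit 17) true (nat_lit 19) (.s true (nat_lit 2) (nat_lit 66) (nat_lit 2) (nat_lit 2) (nat_lit 0) true (nat_lit 15) true (nat_lit 19) false (nat_lit 7) true (nat_lit 17) true (nat_lit 17) (.s false (nat_lit 1) (nat_lit 72) (nat_lit 2) (nat_lit 2) (nat_lit 0) true (nat_lit 15)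 true (nat_lit 19) false (nat_lit 7) true (nat_lit 17) true (nat_lit 17) (.s true (nat_lit 2) (nat_lit 74) (nat_lit 2) (nat_lit 2) (nat_lit 0) true (nat_lit 15) true (nat_lit 19) false (nat_lit 7) true (nat_lit 17) true (nat_lit 17) (.s true (nat_lit 1) (nat_lit 77) (nat_lit 1) (nat_lit 1) (nat_lit 2) true (nat_lit 14) true (nat_lit 17) false (nat_lit 8) true (nat_lit 18) true (nat_lit 18) (.s false (nat_lit 2) (nat_lit 78) (nat_lit 1) (nat_lit 1) (nat_lit 2) true (nat_lit 14) true (nat_lit 17) false (nat_lit 8) true (nat_lit 18) true (nat_lit 18) (.s false (nat_lit 1) (nat_lit 80) (nat_lit 1) (nat_lit 1) (nat_lit 2) true (nat_lit 14) true (nat_lit 17) false (nat_lit 8) true (nat_lit 18) true (nat_lit 18) (.s false (nat_lit 1) (nat_lit 85) (nat_lit 0) (nat_lit 1) (nat_lit 2) true (nat_lit 15) true (nat_lit 17) false (nat_lit 9) true (nat_lit 19) true (nat_lit 18) (.s false (nat_lit 1) (nat_lit 90) (nat_lit 0) (nat_lit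 1) (nat_lit 2) true (nat_lit 15) true (nat_lit 17) false (nat_lit 9) true (nat_lit 19) true (nat_lit 18) (.s false (nat_lit 3) (nat_lit 82) (nat_lit 0) (nat_lit 2) (nat_lit 1) true (nat_lit 16) true (nat_lit 18) false (nat_lit 9) true (nat_lit 19) true (nat_lit 17) (.s true (nat_lit 1) (nat_lit 83) (nat_lit 0) (nat_lit 2) (nat_lit 1) true (nat_lit 16) true (nat_lit 18) false (nat_lit 9) true (nat_lit 19) true (nat_lit 17) (.s false (nat_lit 1) (nat_lit 84) (nat_lit 0) (nat_lit 2) (nat_lit 1) true (nat_lit 16) true (nat_lit 18) false (nat_lit 9) true (nat_lit 19) true (nat_lit 17) (.s false (nat_lit 1) (nat_lit 87) (nat_lit 0) (nat_lit 2) (nat_lit 1) true (nat_lit 16) true (nat_lit 18) false (nat_lit 9) true (nat_lit 19) true (nat_lit 17) (.s false (nat_lit 1) (nat_lit 88) (nat_lit 0) (nat_lit 2) (nat_lit 1) true (nat_lit 16) true (nat_lit 18) false (nat_lit 9) true (nat_lit 19) true (nat_lit 17) (.s false (nat_lit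 1) (nat_lit 90) (nat_lit 0) (nat_lit 2) (nat_lit 1) true (nat_lit 16) true (nat_lit 18) false (nat_lit 9) true (nat_lit 19) true (nat_lit 17) (.s false (nat_lit 1) (nat_lit 82) (nat_lit 1) (nat_lit 0) (nat_lit 2) true (nat_lit 14) true (nat_lit 17) false (nat_lit 9) true (nat_lit 18) true (nat_lit 19) (.s false (nat_lit 2) (nat_lit 82) (nat_lit 1) (nat_lit 2) (nat_lit 0) true (nat_lit 16) true (nat_lit 19) false (nat_lit 9) true (nat_lit 18) true (nat_lit 17) (.s true (nat_lit 3) (nat_lit 90) (nat_lit 1) (nat_lit 2) (nat_lit 0) true (nat_lit 16) true (nat_lit 19) false (nat_lit 9) true (nat_lit 18) true (nat_lit 17) (.s true (nat_lit 3) (nat_lit 82) (nat_lit 2) (nat_lit 0) (nat_lit 1) true (nat_lit 14) true (nat_lit 18) false (nat_lit 9) true (nat_lit 17) true (nat_lit 19) (.s true (nat_lit 3) (nat_lit 90) (nat_lit 2) (nat_lit 1) (nat_lit 0) true (nat_lit 15) true (nat_lit 19) false (nat_lit 9) true (nat_lit 17)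 true (nat_lit 18) (.s true (nat_lit 3) (nat_lit 93) (nat_lit 0) (nat_lit 2) (nat_lit 0) false (nat_lit 20) true (nat_lit 19) false (nat_lit 10) true (nat_lit 19) true (nat_lit 17) (.s false (nat_lit 2) (nat_lit 94) (nat_lit 0) (nat_lit 2) (nat_lit 0) false (nat_lit 20) true (nat_lit 19) false (nat_lit 10) true (nat_lit 19) true (nat_lit 17) dC1d_i174)))))))))))))))))))))))))

noncomputable def dC1d_i176 : IL := (.s true (nat_lit 2) (nat_lit 48) (nat_lit 2) (nat_lit 2) (nat_lit 2) true (nat_lit 13) true (nat_lit 17) false (nat_lit 5) true (nat_lit 17) true (nat_lit 17) (.s false (nat_lit 2) (nat_lit 49) (nat_lit 2) (nat_lit 2) (nat_lit 2) true (nat_lit 13) true (nat_lit 17) false (nat_lit 5) true (nat_lit 17) true (nat_lit 17) (.s true (nat_lit 3) (nat_lit 54) (nat_lit 2) (nat_lit 2) (nat_lit 2) true (nat_lit 13) true (nat_lit 17) false (nat_lit 5) true (nat_lit 17) true (nat_lit 17) (.s false (nat_lit 3) (nat_lit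 55) (nat_lit 1) (nat_lit 2) (nat_lit 2) true (nat_lit 14) true (nat_lit 17) false (nat_lit 6) true (nat_lit 18) true (nat_lit 17) (.s true (nat_lit 2) (nat_lit 56) (nat_lit 1) (nat_lit 2) (nat_lit 2) true (nat_lit 14) true (nat_lit 17) false (nat_lit 6) true (nat_lit 18) true (nat_lit 17) (.s false (nat_lit 1) (nat_lit 57) (nat_lit 1) (nat_lit 2) (nat_lit 2) true (nat_lit 14) true (nat_lit 17) false (nat_lit 6) true (nat_lit 18) true (nat_lit 17) (.s true (nat_lit 3) (nat_lit 58) (nat_lit 1) (nat_lit 2) (nat_lit 2) true (nat_lit 14) true (nat_lit 17) false (nat_lit 6) true (nat_lit 18) true (nat_lit 17) (.s true (nat_lit 1) (nat_lit 60) (nat_lit 1) (nat_lit 2) (nat_lit 2) true (nat_lit 14) true (nat_lit 17) false (nat_lit 6) true (nat_lit 18) true (nat_lit 17) (.s false (nat_lit 1) (nat_lit 62) (nat_lit 1) (nat_lit 2) (nat_lit 2) true (nat_lit 14) true (nat_lit 17) false (nat_lit 6) true (nat_lit 18) true (nat_lit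 17) (.s false (nat_lit 2) (nat_lit 65) (nat_lit 1) (nat_lit 2) (nat_lit 2) true (nat_lit 14) true (nat_lit 17) false (nat_lit 6) true (nat_lit 18) true (nat_lit 17) (.s true (nat_lit 1) (nat_lit 55) (nat_lit 2) (nat_lit 1) (nat_lit 2) true (nat_lit 13) true (nat_lit 17) false (nat_lit 6) true (nat_lit 17) true (nat_lit 18) (.s false (nat_lit 3) (nat_lit 56) (nat_lit 2) (nat_lit 1) (nat_lit 2) true (nat_lit 13) true (nat_lit 17) false (nat_lit 6) true (nat_lit 17) true (nat_lit 18) (.s true (nat_lit 3) (nat_lit 57) (nat_lit 2) (nat_lit 1) (nat_lit 2) true (nat_lit 13) true (nat_lit 17) false (nat_lit 6) true (nat_lit 17) true (nat_lit 18) (.s false (nat_lit 2) (nat_lit 58) (nat_lit 2) (nat_lit 1) (nat_lit 2) true (nat_lit 13) true (nat_lit 17) false (nat_lit 6) true (nat_lit 17) true (nat_lit 18) (.s true (nat_lit 1) (nat_lit 59) (nat_lit 2) (nat_lit 1) (nat_lit 2) true (nat_lit 13) true (nat_lit 17) false (nat_lit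 6) true (nat_lit 17) true (nat_lit 18) (.s false (nat_lit 1) (nat_lit 61) (nat_lit 2) (nat_lit 1) (nat_lit 2) true (nat_lit 13) true (nat_lit 17) false (nat_lit 6) true (nat_lit 17) true (nat_lit 18) (.s false (nat_lit 2) (nat_lit 62) (nat_lit 2) (nat_lit 1) (nat_lit 2) true (nat_lit 13) true (nat_lit 17) false (nat_lit 6) true (nat_lit 17) true (nat_lit 18) (.s true (nat_lit 2) (nat_lit 64) (nat_lit 2) (nat_lit 1) (nat_lit 2) true (nat_lit 13) true (nat_lit 17) false (nat_lit 6) true (nat_lit 17) true (nat_lit 18) (.s true (nat_lit 2) (nat_lit 65) (nat_lit 2) (nat_lit 1) (nat_lit 2) true (nat_lit 13) true (nat_lit 17) false (nat_lit 6) true (nat_lit 17) true (nat_lit 18) (.s true (nat_lit 3) (nat_lit 55) (nat_lit 2) (nat_lit 2) (nat_lit 1) true (nat_lit 14) true (nat_lit 18) false (nat_lit 6) true (nat_lit 17) true (nat_lit 17) (.s false (nat_lit 1) (nat_lit 56) (nat_lit 2) (nat_lit 2) (nat_lit 1) true (nat_lit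 14) true (nat_lit 18) false (nat_lit 6) true (nat_lit 17) true (nat_lit 17) (.s false (nat_lit 1) (nat_lit 57) (nat_lit 2) (nat_lit 2) (nat_lit 1) true (nat_lit 14) true (nat_lit 18) false (nat_lit 6) true (nat_lit 17) true (nat_lit 17) (.s true (nat_lit 3) (nat_lit 58) (nat_lit 2) (nat_lit 2) (nat_lit 1) true (nat_lit 14) true (nat_lit 18) false (nat_lit 6) true (nat_lit 17) true (nat_lit 17) (.s false (nat_lit 2) (nat_lit 62) (nat_lit 2) (nat_lit 2) (nat_lit 1) true (nat_lit 14) true (nat_lit 18) false (nat_lit 6) true (nat_lit 17) true (nat_lit 17) (.s false (nat_lit 2) (nat_lit 66) (nat_lit 0) (nat_lit 2) (nat_lit 2) true (nat_lit 15) true (nat_lit 17) false (nat_lit 7) true (nat_lit 19) true (nat_lit 17) dC1d_i175)))))))))))))))))))))))))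

noncomputable def dC1d_i177 : IL := (.s true (nat_lit 1) (nat_lit 36) (nat_lit 1) (nat_lit 6) (nat_lit 0) true (nat_lit 16) true (nat_lit 19) true (nat_lit 0) true (nat_lit 18) true (nat_lit 13) (.s true (nat_lit 1) (nat_lit 34) (nat_lit 2) (nat_lit 1) (nat_lit 4) true (nat_lit 7) true (nat_lit 15) true (nat_lit 0) true (nat_lit 17) true (nat_lit 18) (.s false (nat_lit 3) (nat_lit 31) (nat_lit 2) (nat_lit 2) (nat_lit 3) true (nat_lit 9) true (nat_lit 16) true (nat_lit 0) true (nat_lit 17) true (nat_lit 17) (.s true (nat_lit 3) (nat_lit 34) (nat_lit 2) (nat_lit 2) (nat_lit 3) true (nat_lit 9) true (nat_lit 16) true (nat_lit 0) true (nat_lit 17) true (nat_lit 17) (.s true (nat_lit 3) (nat_lit 35) (nat_lit 2) (nat_lit 2) (nat_lit 3) true (nat_lit 9) true (nat_lit 16) true (nat_lit 0) true (nat_lit 17) true (nat_lit 17) (.s true (nat_lit 1) (nat_lit 35) (nat_lit 2) (nat_lit 3) (nat_lit 2) true (nat_lit 13) true (nat_lit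 17) true (nat_lit 0) true (nat_lit 17) true (nat_lit 16) (.s false (nat_lit 2) (nat_lit 31) (nat_lit 3) (nat_lit 2) (nat_lit 2) true (nat_lit 9) true (nat_lit 17) true (nat_lit 0) true (nat_lit 16) true (nat_lit 17) (.s true (nat_lit 2) (nat_lit 34) (nat_lit 3) (nat_lit 2) (nat_lit 2) true (nat_lit 9) true (nat_lit 17) true (nat_lit 0) true (nat_lit 16) true (nat_lit 17) (.s false (nat_lit 3) (nat_lit 35) (nat_lit 3) (nat_lit 2) (nat_lit 2) true (nat_lit 9) true (nat_lit 17) true (nat_lit 0) true (nat_lit 16) true (nat_lit 17) (.s true (nat_lit 1) (nat_lit 36) (nat_lit 3) (nat_lit 2) (nat_lit 2) true (nat_lit 9) true (nat_lit 17) true (nat_lit 0) true (nat_lit 16) true (nat_lit 17) (.s false (nat_lit 3) (nat_lit 31) (nat_lit 4) (nat_lit 2) (nat_lit 1) true (nat_lit 9) true (nat_lit 18) true (nat_lit 0) true (nat_lit 15) true (nat_lit 17) (.s false (nat_lit 1) (nat_lit 35) (nat_lit 6) (nat_lit 0) (nat_lit 1) true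 (nat_lit 6) true (nat_lit 18) true (nat_lit 0) true (nat_lit 13) true (nat_lit 19) (.s false (nat_lit 2) (nat_lit 34) (nat_lit 6) (nat_lit 1) (nat_lit 0) true (nat_lit 7) true (nat_lit 19) true (nat_lit 0) true (nat_lit 13) true (nat_lit 18) (.s false (nat_lit 3) (nat_lit 35) (nat_lit 6) (nat_lit 1) (nat_lit 0) true (nat_lit 7) true (nat_lit 19) true (nat_lit 0) true (nat_lit 13) true (nat_lit 18) (.s true (nat_lit 2) (nat_lit 40) (nat_lit 1) (nat_lit 2) (nat_lit 3) true (nat_lit 11) true (nat_lit 16) false (nat_lit 2) true (nat_lit 18) true (nat_lit 17) (.s false (nat_lit 1) (nat_lit 40) (nat_lit 1) (nat_lit 5) (nat_lit 0) true (nat_lit 16) true (nat_lit 19) false (nat_lit 2) true (nat_lit 18) true (nat_lit 14) (.s false (nat_lit 2) (nat_lit 44) (nat_lit 0) (nat_lit 3) (nat_lit 2) true (nat_lit 15) true (nat_lit 17) false (nat_lit 3) true (nat_lit 19) true (nat_lit 16) (.s true (nat_lit 3) (nat_lit 45) (nat_lit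 0) (nat_lit 3) (nat_lit 2) true (nat_lit 15) true (nat_lit 17) false (nat_lit 3) true (nat_lit 19) true (nat_lit 16) (.s true (nat_lit 2) (nat_lit 44) (nat_lit 2) (nat_lit 3) (nat_lit 0) true (nat_lit 15) true (nat_lit 19) false (nat_lit 3) true (nat_lit 17) true (nat_lit 16) (.s true (nat_lit 2) (nat_lit 44) (nat_lit 3) (nat_lit 2) (nat_lit 0) true (nat_lit 12) true (nat_lit 19) false (nat_lit 3) true (nat_lit 16) true (nat_lit 17) (.s false (nat_lit 1) (nat_lit 45) (nat_lit 3) (nat_lit 2) (nat_lit 0) true (nat_lit 12) true (nat_lit 19) false (nat_lit 3) true (nat_lit 16) true (nat_lit 17) (.s false (nat_lit 1) (nat_lit 45) (nat_lit 4) (nat_lit 1) (nat_lit 0) true (nat_lit 10) true (nat_lit 19) false (nat_lit 3) true (nat_lit 15) true (nat_lit 18) (.s false (nat_lit 1) (nat_lit 46) (nat_lit 0) (nat_lit 1) (nat_lit 3) true (nat_lit 12) true (nat_lit 16) false (nat_lit 4) true (nat_lit 19) true (nat_lit 18) (.s true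 (nat_lit 1) (nat_lit 46) (nat_lit 1) (nat_lit 3) (nat_lit 0) true (nat_lit 16) true (nat_lit 19) false (nat_lit 4) true (nat_lit 18) true (nat_lit 16) (.s true (nat_lit 2) (nat_lit 46) (nat_lit 3) (nat_lit 1) (nat_lit 0) true (nat_lit 12) true (nat_lit 19) false (nat_lit 4) true (nat_lit 16) true (nat_lit 18) dC1d_i176)))))))))))))))))))))))))

noncomputable def dC1d_i178 : IL := (.s true (nat_lit 2) (nat_lit 18) (nat_lit 8) (nat_lit 0) (nat_lit 2) true (nat_lit 2) true (nat_lit 17) true (nat_lit 5) true (nat_lit 11) true (nat_lit 19) (.s false (nat_lit 1) (nat_lit 18) (nat_lit 8) (nat_lit 2) (nat_lit 0) true (nat_lit 4) true (nat_lit 19) true (nat_lit 5) true (nat_lit 11) true (nat_lit 17) (.s false (nat_lit 3) (nat_lit 19) (nat_lit 6) (nat_lit 2) (nat_lit 2) true (nat_lit 5) true (nat_lit 17) true (nat_lit 4) true (nat_lit 13) true (nat_lit 17) (.s false (nat_lit 3) (nat_lit 20) (nat_lit 1) (nat_lit 2) (nat_lit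 6) true (nat_lit 6) true (nat_lit 13) true (nat_lit 3) true (nat_lit 18) true (nat_lit 17) (.s false (nat_lit 3) (nat_lit 21) (nat_lit 1) (nat_lit 2) (nat_lit 6) true (nat_lit 6) true (nat_lit 13) true (nat_lit 3) true (nat_lit 18) true (nat_lit 17) (.s true (nat_lit 1) (nat_lit 21) (nat_lit 2) (nat_lit 1) (nat_lit 6) true (nat_lit 5) true (nat_lit 13) true (nat_lit 3) true (nat_lit 17) true (nat_lit 18) (.s true (nat_lit 2) (nat_lit 20) (nat_lit 2) (nat_lit 6) (nat_lit 1) true (nat_lit 14) true (nat_lit 18) true (nat_lit 3) true (nat_lit 17) true (nat_lit 13) (.s true (nat_lit 3) (nat_lit 21) (nat_lit 6) (nat_lit 1) (nat_lit 2) true (nat_lit 5) true (nat_lit 17) true (nat_lit 3) true (nat_lit 13) true (nat_lit 18) (.s false (nat_lit 3) (nat_lit 24) (nat_lit 0) (nat_lit 2) (nat_lit 6) true (nat_lit 7) true (nat_lit 13) true (nat_lit 2) true (nat_lit 19) true (nat_lit 17) (.s true (nat_lit 3) (nat_lit 24) (nat_lit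 0) (nat_lit 6) (nat_lit 2) true (nat_lit 15) true (nat_lit 17) true (nat_lit 2) true (nat_lit 19) true (nat_lit 13) (.s true (nat_lit 3) (nat_lit 24) (nat_lit 6) (nat_lit 0) (nat_lit 2) true (nat_lit 5) true (nat_lit 17) true (nat_lit 2) true (nat_lit 13) true (nat_lit 19) (.s false (nat_lit 1) (nat_lit 30) (nat_lit 1) (nat_lit 1) (nat_lit 6) true (nat_lit 6) true (nat_lit 13) true (nat_lit 1) true (nat_lit 18) true (nat_lit 18) (.s false (nat_lit 1) (nat_lit 29) (nat_lit 1) (nat_lit 2) (nat_lit 5) true (nat_lit 8) true (nat_lit 14) true (nat_lit 1) true (nat_lit 18) true (nat_lit 17) (.s false (nat_lit 1) (nat_lit 28) (nat_lit 1) (nat_lit 5) (nat_lit 2) true (nat_lit 14) true (nat_lit 17) true (nat_lit 1) true (nat_lit 18) true (nat_lit 14) (.s false (nat_lit 2) (nat_lit 28) (nat_lit 2) (nat_lit 1) (nat_lit 5) true (nat_lit 6) true (nat_lit 14) true (nat_lit 1) true (nat_lit 17) true (nat_lit 18) (.s false (nat_lit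 1) (nat_lit 29) (nat_lit 2) (nat_lit 1) (nat_lit 5) true (nat_lit 6) true (nat_lit 14) true (nat_lit 1) true (nat_lit 17) true (nat_lit 18) (.s true (nat_lit 1) (nat_lit 28) (nat_lit 5) (nat_lit 1) (nat_lit 2) true (nat_lit 6) true (nat_lit 17) true (nat_lit 1) true (nat_lit 14) true (nat_lit 18) (.s true (nat_lit 2) (nat_lit 28) (nat_lit 5) (nat_lit 2) (nat_lit 1) true (nat_lit 8) true (nat_lit 18) true (nat_lit 1) true (nat_lit 14) true (nat_lit 17) (.s false (nat_lit 1) (nat_lit 34) (nat_lit 0) (nat_lit 1) (nat_lit 6) true (nat_lit 7) true (nat_lit 13) true (nat_lit 0) true (nat_lit 19) true (nat_lit 18) (.s false (nat_lit 3) (nat_lit 35) (nat_lit 0) (nat_lit 1) (nat_lit 6) true (nat_lit 7) true (nat_lit 13) true (nat_lit 0) true (nat_lit 19) true (nat_lit 18) (.s true (nat_lit 2) (nat_lit 31) (nat_lit 0) (nat_lit 2) (nat_lit 5) true (nat_lit 9) true (nat_lit 14) true (nat_lit 0) true (nat_lit 19) true (nat_lit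 17) (.s false (nat_lit 3) (nat_lit 31) (nat_lit 0) (nat_lit 5) (nat_lit 2) true (nat_lit 15) true (nat_lit 17) true (nat_lit 0) true (nat_lit 19) true (nat_lit 14) (.s true (nat_lit 2) (nat_lit 31) (nat_lit 1) (nat_lit 2) (nat_lit 4) true (nat_lit 9) true (nat_lit 15) true (nat_lit 0) true (nat_lit 18) true (nat_lit 17) (.s true (nat_lit 1) (nat_lit 34) (nat_lit 1) (nat_lit 6) (nat_lit 0) true (nat_lit 16) true (nat_lit 19) true (nat_lit 0) true (nat_lit 18) true (nat_lit 13) (.s false (nat_lit 3) (nat_lit 35) (nat_lit 1) (nat_lit 6) (nat_lit 0) true (nat_lit 16) true (nat_lit 19) true (nat_lit 0) true (nat_lit 18) true (nat_lit 13) dC1d_i177)))))))))))))))))))))))))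

noncomputable def dC1d_i179 : IL := (.s false (nat_lit 1) (nat_lit 14) (nat_lit 1) (nat_lit 2) (nat_lit 10) true (nat_lit 2) true (nat_lit 9) true (nat_lit 7) true (nat_lit 18) true (nat_lit 17) (.s true (nat_lit 1) (nat_lit 14) (nat_lit 1) (nat_lit 2) (nat_lit 11) true (nat_lit 2) true (nat_lit 9) true (nat_lit 7) true (nat_lit 18) true (nat_lit 17) (.s true (nat_lit 3) (nat_lit 14) (nat_lit 1) (nat_lit 3) (nat_lit 6) true (nat_lit 6) true (nat_lit 13) true (nat_lit 7) true (nat_lit 18) true (nat_lit 16) (.s false (nat_lit 1) (nat_lit 15) (nat_lit 1) (nat_lit 3) (nat_lit 6) true (nat_lit 6) true (nat_lit 13) true (nat_lit 7) true (nat_lit 18) true (nat_lit 16) (.s true (nat_lit 1) (nat_lit 14) (nat_lit 2) (nat_lit 1) (nat_lit 11) true (nat_lit 0) true (nat_lit 9) true (nat_lit 7) true (nat_lit 17) true (nat_lit 18) (.s true (nat_lit 3) (nat_lit 14) (nat_lit 2) (nat_lit 8) (nat_lit 2) true (nat_lit 13) true (nat_lit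 17) true (nat_lit 7) true (nat_lit 17) true (nat_lit 11) (.s false (nat_lit 1) (nat_lit 15) (nat_lit 2) (nat_lit 8) (nat_lit 2) true (nat_lit 13) true (nat_lit 17) true (nat_lit 7) true (nat_lit 17) true (nat_lit 11) (.s false (nat_lit 2) (nat_lit 14) (nat_lit 3) (nat_lit 1) (nat_lit 6) true (nat_lit 0) true (nat_lit 13) true (nat_lit 7) true (nat_lit 16) true (nat_lit 18) (.s false (nat_lit 1) (nat_lit 14) (nat_lit 3) (nat_lit 2) (nat_lit 5) true (nat_lit 2) true (nat_lit 14) true (nat_lit 7) true (nat_lit 16) true (nat_lit 17) (.s false (nat_lit 1) (nat_lit 14) (nat_lit 6) (nat_lit 1) (nat_lit 3) true (nat_lit 0) true (nat_lit 16) true (nat_lit 7) true (nat_lit 13) true (nat_lit 18) (.s true (nat_lit 1) (nat_lit 14) (nat_lit 6) (nat_lit 3) (nat_lit 1) true (nat_lit 6) true (nat_lit 18) true (nat_lit 7) true (nat_lit 13) true (nat_lit 16) (.s false (nat_lit 3) (nat_lit 15) (nat_lit 8) (nat_lit 2) (nat_lit 2) true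 (nat_lit 2) true (nat_lit 17) true (nat_lit 7) true (nat_lit 11) true (nat_lit 17) (.s true (nat_lit 1) (nat_lit 17) (nat_lit 0) (nat_lit 0) (nat_lit 16) true (nat_lit 0) true (nat_lit 6) true (nat_lit 6) true (nat_lit 19) true (nat_lit 19) (.s false (nat_lit 2) (nat_lit 16) (nat_lit 2) (nat_lit 7) (nat_lit 2) true (nat_lit 13) true (nat_lit 17) true (nat_lit 6) true (nat_lit 17) true (nat_lit 12) (.s false (nat_lit 1) (nat_lit 17) (nat_lit 2) (nat_lit 7) (nat_lit 2) true (nat_lit 13) true (nat_lit 17) true (nat_lit 6) true (nat_lit 17) true (nat_lit 12) (.s false (nat_lit 1) (nat_lit 16) (nat_lit 2) (nat_lit 10) (nat_lit 0) true (nat_lit 15) true (nat_lit 19) true (nat_lit 6) true (nat_lit 17) true (nat_lit 9) (.s false (nat_lit 3) (nat_lit 16) (nat_lit 9) (nat_lit 1) (nat_lit 2) true (nat_lit 1) true (nat_lit 17) true (nat_lit 6) true (nat_lit 10) true (nat_lit 18) (.s false (nat_lit 2) (nat_lit 17) (nat_lit 9)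 (nat_lit 1) (nat_lit 2) true (nat_lit 1) true (nat_lit 17) true (nat_lit 6) true (nat_lit 10) true (nat_lit 18) (.s false (nat_lit 2) (nat_lit 16) (nat_lit 14) (nat_lit 0) (nat_lit 1) true (nat_lit 0) true (nat_lit 18) true (nat_lit 6) true (nat_lit 7) true (nat_lit 19) (.s false (nat_lit 1) (nat_lit 18) (nat_lit 0) (nat_lit 2) (nat_lit 8) true (nat_lit 4) true (nat_lit 11) true (nat_lit 5) true (nat_lit 19) true (nat_lit 17) (.s true (nat_lit 3) (nat_lit 18) (nat_lit 1) (nat_lit 1) (nat_lit 9) true (nat_lit 3) true (nat_lit 10) true (nat_lit 5) true (nat_lit 18) true (nat_lit 18) (.s false (nat_lit 1) (nat_lit 18) (nat_lit 1) (nat_lit 3) (nat_lit 4) true (nat_lit 9) true (nat_lit 15) true (nat_lit 5) true (nat_lit 18) true (nat_lit 16) (.s false (nat_lit 2) (nat_lit 18) (nat_lit 2) (nat_lit 0) (nat_lit 8) true (nat_lit 2) true (nat_lit 11) true (nat_lit 5) true (nat_lit 17) true (nat_lit 19) (.s true (nat_lit 1)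 (nat_lit 18) (nat_lit 7) (nat_lit 1) (nat_lit 2) true (nat_lit 3) true (nat_lit 17) true (nat_lit 5) true (nat_lit 12) true (nat_lit 18) (.s true (nat_lit 3) (nat_lit 18) (nat_lit 7) (nat_lit 2) (nat_lit 1) true (nat_lit 4) true (nat_lit 18) true (nat_lit 5) true (nat_lit 12) true (nat_lit 17) dC1d_i178)))))))))))))))))))))))))

noncomputable def dC1d_i180 : IL := (.e false (nat_lit 3) (nat_lit 263) (nat_lit 1) (nat_lit 18) (.e false (nat_lit 3) (nat_lit 264) (nat_lit 1) (nat_lit 18) (.e true (nat_lit 2) (nat_lit 265) (nat_lit 1) (nat_lit 18) (.e true (nat_lit 3) (nat_lit 266) (nat_lit 1) (nat_lit 18) (.e true (nat_lit 3) (nat_lit 270) (nat_lit 1) (nat_lit 18) (.e false (nat_lit 3) (nat_lit 271) (nat_lit 1) (nat_lit 18) (.e false (nat_lit 2) (nat_lit 272) (nat_lit 1) (nat_lit 18) (.e true (nat_lit 3) (nat_lit 273) (nat_lit 1) (nat_lit 18) (.e false (nat_lit 1) (nat_lit 279) (nat_lit 1) (nat_lit 18) (.e false (nat_lit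 1) (nat_lit 288) (nat_lit 1) (nat_lit 18) (.e false (nat_lit 3) (nat_lit 278) (nat_lit 1) (nat_lit 18) (.e false (nat_lit 1) (nat_lit 267) (nat_lit 1) (nat_lit 18) (.e true (nat_lit 3) (nat_lit 269) (nat_lit 1) (nat_lit 18) (.e true (nat_lit 2) (nat_lit 286) (nat_lit 1) (nat_lit 18) (.e true (nat_lit 2) (nat_lit 251) (nat_lit 2) (nat_lit 17) (.e false (nat_lit 3) (nat_lit 281) (nat_lit 1) (nat_lit 18) (.e false (nat_lit 2) (nat_lit 143) (nat_lit 5) (nat_lit 14) (.e false (nat_lit 1) (nat_lit 160) (nat_lit 4) (nat_lit 15) (.e false (nat_lit 3) (nat_lit 290) (nat_lit 0) (nat_lit 19) (.e true (nat_lit 3) (nat_lit 313) (nat_lit 0) (nat_lit 19) (.e false (nat_lit 2) (nat_lit 144) (nat_lit 5) (nat_lit 14) (.e false (nat_lit 1) (nat_lit 282) (nat_lit 1) (nat_lit 18) (.u (nat_lit 2) (.p (nat_lit 0) (nat_lit 3) (.n (nat_lit 2) (nat_lit 3) (.n (nat_lit 3) (nat_lit 1) (.n (nat_lit 4) (nat_lit 2) (.p (nat_lit 5) (nat_lit 4)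 (.p (nat_lit 6) (nat_lit 2) (.n (nat_lit 7) (nat_lit 2) (.p (nat_lit 8) (nat_lit 1) (.p (nat_lit 9) (nat_lit 4) (.p (nat_lit 11) (nat_lit 4) (.p (nat_lit 12) (nat_lit 3) (.p (nat_lit 14) (nat_lit 4) (.p (nat_lit 15) (nat_lit 2) (.p (nat_lit 18) (nat_lit 5) (.n (nat_lit 19) (nat_lit 5) (.p (nat_lit 20) (nat_lit 1) (.p (nat_lit 24) (nat_lit 1) (.p (nat_lit 25) (nat_lit 1) (.n (nat_lit 26) (nat_lit 1) (.n (nat_lit 29) (nat_lit 1) (.p (nat_lit 30) (nat_lit 4) (.n (nat_lit 31) (nat_lit 2) (.n (nat_lit 33) (nat_lit 3) (.p (nat_lit 34) (nat_lit 4) (.p (nat_lit 35) (nat_lit 2) (.n (nat_lit 36) (nat_lit 5) (.p (nat_lit 37) (nat_lit 4) (.n (nat_lit 38) (nat_lit 1) (.p (nat_lit 40) (nat_lit 2) (.n (nat_lit 45) (nat_lit 1) (.p (nat_lit 49) (nat_lit 2) (.p (nat_lit 50) (nat_lit 1) (.p (nat_lit 53) (nat_lit 2) (.p (nat_lit 54) (nat_lit 1) (.n (nat_lit 55) (nat_lit 2) (.n (nat_lit 57) (nat_lit 1) (.p (nat_lit 58) (nat_lit 1) (.p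 (nat_lit 59) (nat_lit 1) (.p (nat_lit 62) (nat_lit 1) (.n (nat_lit 63) (nat_lit 1) (.p (nat_lit 68) (nat_lit 1) (.p (nat_lit 69) (nat_lit 1) (.p (nat_lit 70) (nat_lit 1) (.p (nat_lit 148) (nat_lit 1) (.p (nat_lit 159) (nat_lit 1) (.p (nat_lit 179) (nat_lit 1) (.n (nat_lit 231) (nat_lit 1) (.n (nat_lit 232) (nat_lit 1) (.p (nat_lit 235) (nat_lit 1) (.n (nat_lit 236) (nat_lit 1) (.n (nat_lit 237) (nat_lit 1) (.n (nat_lit 238) (nat_lit 1) (.p (nat_lit 244) (nat_lit 1) (.p (nat_lit 249) (nat_lit 2) (.n (nat_lit 251) (nat_lit 1) (.n (nat_lit 263) (nat_lit 1) (.n (nat_lit 266) (nat_lit 1) (.p (nat_lit 279) (nat_lit 1) (.n (nat_lit 286) (nat_lit 1) (.p (nat_lit 298) (nat_lit 1) .z)))))))))))))))))))))))))))))))))))))))))))))))))))))))))))) (.u (nat_lit 2) (.n (nat_lit 307) (nat_lit 1) (.p (nat_lit 327) (nat_lit 6) (.n (nat_lit 328) (nat_lit 1) (.p (nat_lit 329) (nat_lit 14) (.n (nat_lit 330) (nat_lit 18) (.p (nat_lit 331)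 (nat_lit 14) (.n (nat_lit 332) (nat_lit 7) (.p (nat_lit 334) (nat_lit 3) (.p (nat_lit 335) (nat_lit 1) (.p (nat_lit 336) (nat_lit 10) (.n (nat_lit 337) (nat_lit 12) (.n (nat_lit 338) (nat_lit 7) (.n (nat_lit 339) (nat_lit 4) (.n (nat_lit 340) (nat_lit 7) (.n (nat_lit 341) (nat_lit 5) (.n (nat_lit 343) (nat_lit 12) (.p (nat_lit 344) (nat_lit 2) (.n (nat_lit 345) (nat_lit 6) (.n (nat_lit 346) (nat_lit 2) (.n (nat_lit 347) (nat_lit 2) (.p (nat_lit 348) (nat_lit 5) (.n (nat_lit 349) (nat_lit 3) (.n (nat_lit 350) (nat_lit 13) (.n (nat_lit 351) (nat_lit 6) (.n (nat_lit 352) (nat_lit 11) (.n (nat_lit 353) (nat_lit 14) (.n (nat_lit 354) (nat_lit 3) (.n (nat_lit 355) (nat_lit 6) (.p (nat_lit 356) (nat_lit 9) (.p (nat_lit 357) (nat_lit 8) (.p (nat_lit 358) (nat_lit 7) (.n (nat_lit 359) (nat_lit 7) (.n (nat_lit 360) (nat_lit 7) (.p (nat_lit 361) (nat_lit 9) (.n (nat_lit 362) (nat_lit 2) (.p (nat_lit 363) (nat_lit 10) (.p (nat_lit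 364) (nat_lit 7) (.p (nat_lit 365) (nat_lit 2) (.n (nat_lit 366) (nat_lit 10) (.n (nat_lit 367) (nat_lit 2) (.n (nat_lit 368) (nat_lit 8) (.n (nat_lit 369) (nat_lit 2) (.n (nat_lit 370) (nat_lit 2) (.p (nat_lit 371) (nat_lit 4) (.p (nat_lit 373) (nat_lit 1) (.p (nat_lit 374) (nat_lit 1) (.p (nat_lit 375) (nat_lit 13) (.n (nat_lit 376) (nat_lit 6) (.n (nat_lit 377) (nat_lit 11) (.n (nat_lit 378) (nat_lit 4) (.p (nat_lit 379) (nat_lit 4) (.p (nat_lit 380) (nat_lit 1) (.n (nat_lit 381) (nat_lit 2) (.p (nat_lit 382) (nat_lit 7) (.n (nat_lit 383) (nat_lit 13) (.p (nat_lit 384) (nat_lit 5) (.p (nat_lit 385) (nat_lit 15) (.p (nat_lit 386) (nat_lit 3) (.n (nat_lit 387) (nat_lit 18) (.p (nat_lit 388) (nat_lit 3) .z)))))))))))))))))))))))))))))))))))))))))))))))))))))))))))) (.u (nat_lit 2) (.p (nat_lit 389) (nat_lit 7) (.n (nat_lit 392) (nat_lit 3) (.n (nat_lit 393) (nat_lit 3) (.p (nat_lit 394) (nat_lit 3) (.p (nat_lit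 395) (nat_lit 3) (.p (nat_lit 396) (nat_lit 2) (.n (nat_lit 397) (nat_lit 2) (.n (nat_lit 398) (nat_lit 2) (.p (nat_lit 399) (nat_lit 3) (.p (nat_lit 400) (nat_lit 3) (.n (nat_lit 401) (nat_lit 2) (.n (nat_lit 402) (nat_lit 12) (.p (nat_lit 403) (nat_lit 4) (.p (nat_lit 404) (nat_lit 2) (.n (nat_lit 405) (nat_lit 6) (.n (nat_lit 406) (nat_lit 14) (.n (nat_lit 407) (nat_lit 1) (.p (nat_lit 408) (nat_lit 3) (.n (nat_lit 409) (nat_lit 3) (.p (nat_lit 410) (nat_lit 12) (.p (nat_lit 411) (nat_lit 10) (.n (nat_lit 412) (nat_lit 8) (.n (nat_lit 413) (nat_lit 6) (.p (nat_lit 414) (nat_lit 7) (.n (nat_lit 415) (nat_lit 1) (.p (nat_lit 416) (nat_lit 14) (.p (nat_lit 417) (nat_lit 9) (.n (nat_lit 418) (nat_lit 5) (.n (nat_lit 419) (nat_lit 7) (.p (nat_lit 420) (nat_lit 6) (.p (nat_lit 421) (nat_lit 2) (.n (nat_lit 422) (nat_lit 5) (.n (nat_lit 423) (nat_lit 1) (.n (nat_lit 424) (nat_lit 4) (.p (nat_lit 425) (nat_lit 13) (.p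 (nat_lit 426) (nat_lit 3) (.n (nat_lit 427) (nat_lit 3) (.p (nat_lit 428) (nat_lit 1) (.n (nat_lit 430) (nat_lit 1) (.n (nat_lit 431) (nat_lit 4) (.p (nat_lit 432) (nat_lit 2) (.p (nat_lit 433) (nat_lit 3) (.p (nat_lit 434) (nat_lit 1) .z))))))))))))))))))))))))))))))))))))))))))) .nil)))))))))))))))))))))))))

noncomputable def dC1d_i181 : IL := (.e true (nat_lit 3) (nat_lit 77) (nat_lit 13) (nat_lit 8) (.e false (nat_lit 1) (nat_lit 78) (nat_lit 13) (nat_lit 8) (.e false (nat_lit 2) (nat_lit 293) (nat_lit 0) (nat_lit 19) (.e false (nat_lit 1) (nat_lit 294) (nat_lit 0) (nat_lit 19) (.e true (nat_lit 3) (nat_lit 295) (nat_lit 0) (nat_lit 19) (.e false (nat_lit 3) (nat_lit 296) (nat_lit 0) (nat_lit 19) (.e true (nat_lit 2) (nat_lit 298) (nat_lit 0) (nat_lit 19) (.e false (nat_lit 2) (nat_lit 300) (nat_lit 0) (nat_lit 19) (.e false (nat_lit 3) (nat_lit 301) (nat_lit 0) (nat_lit 19) (.e true (nat_lit 2) (nat_lit 302)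 (nat_lit 0) (nat_lit 19) (.e false (nat_lit 1) (nat_lit 303) (nat_lit 0) (nat_lit 19) (.e false (nat_lit 1) (nat_lit 304) (nat_lit 0) (nat_lit 19) (.e true (nat_lit 3) (nat_lit 305) (nat_lit 0) (nat_lit 19) (.e false (nat_lit 1) (nat_lit 309) (nat_lit 0) (nat_lit 19) (.e false (nat_lit 2) (nat_lit 310) (nat_lit 0) (nat_lit 19) (.e true (nat_lit 2) (nat_lit 314) (nat_lit 0) (nat_lit 19) (.e true (nat_lit 2) (nat_lit 315) (nat_lit 0) (nat_lit 19) (.e true (nat_lit 2) (nat_lit 297) (nat_lit 0) (nat_lit 19) (.e true (nat_lit 2) (nat_lit 311) (nat_lit 0) (nat_lit 19) (.e true (nat_lit 3) (nat_lit 316) (nat_lit 0) (nat_lit 19) (.e false (nat_lit 2) (nat_lit 317) (nat_lit 0) (nat_lit 19) (.e false (nat_lit 2) (nat_lit 319) (nat_lit 0) (nat_lit 19) (.e true (nat_lit 3) (nat_lit 260) (nat_lit 1) (nat_lit 18) (.e true (nat_lit 2) (nat_lit 261) (nat_lit 1) (nat_lit 18) (.e false (nat_lit 2) (nat_lit 262) (nat_lit 1) (nat_lit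 18) dC1d_i180)))))))))))))))))))))))))

noncomputable def dC1d_i182 : IL := (.e true (nat_lit 2) (nat_lit 218) (nat_lit 2) (nat_lit 17) (.e true (nat_lit 3) (nat_lit 219) (nat_lit 2) (nat_lit 17) (.e false (nat_lit 2) (nat_lit 223) (nat_lit 2) (nat_lit 17) (.e true (nat_lit 1) (nat_lit 226) (nat_lit 2) (nat_lit 17) (.e false (nat_lit 1) (nat_lit 234) (nat_lit 2) (nat_lit 17) (.e true (nat_lit 3) (nat_lit 235) (nat_lit 2) (nat_lit 17) (.e true (nat_lit 2) (nat_lit 237) (nat_lit 2) (nat_lit 17) (.e false (nat_lit 3) (nat_lit 242) (nat_lit 2) (nat_lit 17) (.e false (nat_lit 3) (nat_lit 244) (nat_lit 2) (nat_lit 17) (.e false (nat_lit 1) (nat_lit 245) (nat_lit 2) (nat_lit 17) (.e true (nat_lit 1) (nat_lit 248) (nat_lit 2) (nat_lit 17) (.e false (nat_lit 3) (nat_lit 224) (nat_lit 2) (nat_lit 17) (.e true (nat_lit 3) (nat_lit 227) (nat_lit 2) (nat_lit 17) (.e true (nat_lit 3) (nat_lit 232) (nat_lit 2) (nat_lit 17) (.e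 false (nat_lit 3) (nat_lit 215) (nat_lit 2) (nat_lit 17) (.e true (nat_lit 3) (nat_lit 222) (nat_lit 2) (nat_lit 17) (.e false (nat_lit 2) (nat_lit 230) (nat_lit 2) (nat_lit 17) (.e false (nat_lit 3) (nat_lit 236) (nat_lit 2) (nat_lit 17) (.e false (nat_lit 1) (nat_lit 277) (nat_lit 1) (nat_lit 18) (.e false (nat_lit 2) (nat_lit 214) (nat_lit 2) (nat_lit 17) (.e false (nat_lit 3) (nat_lit 225) (nat_lit 2) (nat_lit 17) (.e true (nat_lit 2) (nat_lit 228) (nat_lit 2) (nat_lit 17) (.e false (nat_lit 1) (nat_lit 307) (nat_lit 0) (nat_lit 19) (.e true (nat_lit 3) (nat_lit 258) (nat_lit 2) (nat_lit 17) (.e true (nat_lit 3) (nat_lit 259) (nat_lit 2) (nat_lit 17) dC1d_i181)))))))))))))))))))))))))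

noncomputable def dC1d_i183 : IL := (.s false (nat_lit 1) (nat_lit 67) (nat_lit 2) (nat_lit 2) (nat_lit 0) true (nat_lit 15) true (nat_lit 19) false (nat_lit 7) true (nat_lit 17) true (nat_lit 17) (.s true (nat_lit 1) (nat_lit 69) (nat_lit 2) (nat_lit 2) (nat_lit 0) true (nat_lit 15) true (nat_lit 19) false (nat_lit 7) true (nat_lit 17) true (nat_lit 17) (.s false (nat_lit 2) (nat_lit 73) (nat_lit 2) (nat_lit 2) (nat_lit 0) true (nat_lit 15) true (nat_lit 19) false (nat_lit 7) true (nat_lit 17) true (nat_lit 17) (.s true (nat_lit 1) (nat_lit 77) (nat_lit 1) (nat_lit 1) (nat_lit 2) true (nat_lit 14) true (nat_lit 17) false (nat_lit 8) true (nat_lit 18) true (nat_lit 18) (.s false (nat_lit 2) (nat_lit 78) (nat_lit 1) (nat_lit 1) (nat_lit 2) true (nat_lit 14) true (nat_lit 17) false (nat_lit 8) true (nat_lit 18) true (nat_lit 18) (.s true (nat_lit 1) (nat_lit 80) (nat_lit 1) (nat_lit 1) (nat_lit 2) true (nat_lit 14)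 true (nat_lit 17) false (nat_lit 8) true (nat_lit 18) true (nat_lit 18) (.s false (nat_lit 1) (nat_lit 79) (nat_lit 1) (nat_lit 2) (nat_lit 1) false (nat_lit 21) true (nat_lit 18) false (nat_lit 8) true (nat_lit 18) true (nat_lit 17) (.s true (nat_lit 1) (nat_lit 80) (nat_lit 2) (nat_lit 1) (nat_lit 1) true (nat_lit 14) true (nat_lit 18) false (nat_lit 8) true (nat_lit 17) true (nat_lit 18) (.s true (nat_lit 1) (nat_lit 93) (nat_lit 0) (nat_lit 2) (nat_lit 0) false (nat_lit 20) true (nat_lit 19) false (nat_lit 10) true (nat_lit 19) true (nat_lit 17) (.s false (nat_lit 1) (nat_lit 94) (nat_lit 0) (nat_lit 2) (nat_lit 0) false (nat_lit 20) true (nat_lit 19) false (nat_lit 10) true (nat_lit 19) true (nat_lit 17) (.s true (nat_lit 2) (nat_lit 95) (nat_lit 0) (nat_lit 2) (nat_lit 0) false (nat_lit 20) true (nat_lit 19) false (nat_lit 10) true (nat_lit 19) true (nat_lit 17) (.s false (nat_lit 3) (nat_lit 96) (nat_lit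 0) (nat_lit 2) (nat_lit 0) false (nat_lit 20) true (nat_lit 19) false (nat_lit 10) true (nat_lit 19) true (nat_lit 17) (.s false (nat_lit 3) (nat_lit 97) (nat_lit 0) (nat_lit 2) (nat_lit 0) false (nat_lit 20) true (nat_lit 19) false (nat_lit 10) true (nat_lit 19) true (nat_lit 17) (.s true (nat_lit 3) (nat_lit 98) (nat_lit 0) (nat_lit 1) (nat_lit 1) true (nat_lit 16) true (nat_lit 18) false (nat_lit 11) true (nat_lit 19) true (nat_lit 18) (.s false (nat_lit 1) (nat_lit 99) (nat_lit 1) (nat_lit 0) (nat_lit 1) false (nat_lit 21) true (nat_lit 18) false (nat_lit 11) true (nat_lit 18) true (nat_lit 19) (.s true (nat_lit 2) (nat_lit 100) (nat_lit 1) (nat_lit 0) (nat_lit 1) false (nat_lit 21) true (nat_lit 18) false (nat_lit 11) true (nat_lit 18) true (nat_lit 19) (.s false (nat_lit 1) (nat_lit 101) (nat_lit 1) (nat_lit 0) (nat_lit 1) false (nat_lit 21) true (nat_lit 18) false (nat_lit 11) true (nat_lit 18) true (nat_lit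 19) (.s true (nat_lit 3) (nat_lit 98) (nat_lit 1) (nat_lit 1) (nat_lit 0) true (nat_lit 16) true (nat_lit 19) false (nat_lit 11) true (nat_lit 18) true (nat_lit 18) (.s false (nat_lit 3) (nat_lit 102) (nat_lit 0) (nat_lit 1) (nat_lit 0) false (nat_lit 20) true (nat_lit 19) false (nat_lit 12) true (nat_lit 19) true (nat_lit 18) (.s true (nat_lit 3) (nat_lit 104) (nat_lit 0) (nat_lit 1) (nat_lit 0) false (nat_lit 20) true (nat_lit 19) false (nat_lit 12) true (nat_lit 19) true (nat_lit 18) (.s false (nat_lit 2) (nat_lit 105) (nat_lit 0) (nat_lit 1) (nat_lit 0) false (nat_lit 20) true (nat_lit 19) false (nat_lit 12) true (nat_lit 19) true (nat_lit 18) (.e false (nat_lit 3) (nat_lit 212) (nat_lit 2) (nat_lit 17) (.e true (nat_lit 2) (nat_lit 213) (nat_lit 2) (nat_lit 17) (.e false (nat_lit 3) (nat_lit 216) (nat_lit 2) (nat_lit 17) (.e false (nat_lit 1) (nat_lit 217) (nat_lit 2) (nat_lit 17) dC1d_i182)))))))))))))))))))))))))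

noncomputable def dC1d_i184 : IL := (.s false (nat_lit 1) (nat_lit 19) (nat_lit 6) (nat_lit 2) (nat_lit 2) true (nat_lit 5) true (nat_lit 17) true (nat_lit 4) true (nat_lit 13) true (nat_lit 17) (.s true (nat_lit 3) (nat_lit 21) (nat_lit 1) (nat_lit 2) (nat_lit 6) true (nat_lit 6) true (nat_lit 13) true (nat_lit 3) true (nat_lit 18) true (nat_lit 17) (.s false (nat_lit 3) (nat_lit 21) (nat_lit 2) (nat_lit 2) (nat_lit 5) true (nat_lit 6) true (nat_lit 14) true (nat_lit 3) true (nat_lit 17) true (nat_lit 17) (.s false (nat_lit 1) (nat_lit 20) (nat_lit 2) (nat_lit 5) (nat_lit 2) true (nat_lit 13) true (nat_lit 17) true (nat_lit 3) true (nat_lit 17) true (nat_lit 14) (.s false (nat_lit 1) (nat_lit 24) (nat_lit 0) (nat_lit 2) (nat_lit 6) true (nat_lit 7) true (nat_lit 13) true (nat_lit 2) true (nat_lit 19) true (nat_lit 17) (.s true (nat_lit 3) (nat_lit 24) (nat_lit 2) (nat_lit 2) (nat_lit 4) true (nat_lit 7) true (nat_lit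 15) true (nat_lit 2) true (nat_lit 17) true (nat_lit 17) (.s false (nat_lit 2) (nat_lit 24) (nat_lit 4) (nat_lit 2) (nat_lit 2) true (nat_lit 7) true (nat_lit 17) true (nat_lit 2) true (nat_lit 15) true (nat_lit 17) (.s true (nat_lit 2) (nat_lit 24) (nat_lit 6) (nat_lit 0) (nat_lit 2) true (nat_lit 5) true (nat_lit 17) true (nat_lit 2) true (nat_lit 13) true (nat_lit 19) (.s false (nat_lit 3) (nat_lit 28) (nat_lit 1) (nat_lit 5) (nat_lit 2) true (nat_lit 14) true (nat_lit 17) true (nat_lit 1) true (nat_lit 18) true (nat_lit 14) (.s true (nat_lit 3) (nat_lit 28) (nat_lit 5) (nat_lit 2) (nat_lit 1) true (nat_lit 8) true (nat_lit 18) true (nat_lit 1) true (nat_lit 14) true (nat_lit 17) (.s true (nat_lit 1) (nat_lit 37) (nat_lit 0) (nat_lit 2) (nat_lit 4) true (nat_lit 10) true (nat_lit 15) false (nat_lit 1) true (nat_lit 19) true (nat_lit 17) (.s true (nat_lit 2) (nat_lit 37) (nat_lit 6) (nat_lit 0) (nat_lit 0) true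 (nat_lit 7) true (nat_lit 19) false (nat_lit 1) true (nat_lit 13) true (nat_lit 19) (.s true (nat_lit 2) (nat_lit 48) (nat_lit 2) (nat_lit 2) (nat_lit 2) true (nat_lit 13) true (nat_lit 17) false (nat_lit 5) true (nat_lit 17) true (nat_lit 17) (.s false (nat_lit 3) (nat_lit 49) (nat_lit 2) (nat_lit 2) (nat_lit 2) true (nat_lit 13) true (nat_lit 17) false (nat_lit 5) true (nat_lit 17) true (nat_lit 17) (.s false (nat_lit 2) (nat_lit 52) (nat_lit 2) (nat_lit 2) (nat_lit 2) true (nat_lit 13) true (nat_lit 17) false (nat_lit 5) true (nat_lit 17) true (nat_lit 17) (.s false (nat_lit 2) (nat_lit 54) (nat_lit 2) (nat_lit 2) (nat_lit 2) true (nat_lit 13) true (nat_lit 17) false (nat_lit 5) true (nat_lit 17) true (nat_lit 17) (.s false (nat_lit 1) (nat_lit 55) (nat_lit 1) (nat_lit 2) (nat_lit 2) true (nat_lit 14) true (nat_lit 17) false (nat_lit 6) true (nat_lit 18) true (nat_lit 17) (.s false (nat_lit 1) (nat_lit 65) (nat_lit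 1) (nat_lit 2) (nat_lit 2) true (nat_lit 14) true (nat_lit 17) false (nat_lit 6) true (nat_lit 18) true (nat_lit 17) (.s false (nat_lit 3) (nat_lit 55) (nat_lit 2) (nat_lit 1) (nat_lit 2) true (nat_lit 13) true (nat_lit 17) false (nat_lit 6) true (nat_lit 17) true (nat_lit 18) (.s true (nat_lit 3) (nat_lit 56) (nat_lit 2) (nat_lit 2) (nat_lit 1) true (nat_lit 14) true (nat_lit 18) false (nat_lit 6) true (nat_lit 17) true (nat_lit 17) (.s false (nat_lit 3) (nat_lit 66) (nat_lit 0) (nat_lit 2) (nat_lit 2) true (nat_lit 15) true (nat_lit 17) false (nat_lit 7) true (nat_lit 19) true (nat_lit 17) (.s true (nat_lit 1) (nat_lit 67) (nat_lit 0) (nat_lit 2) (nat_lit 2) true (nat_lit 15) true (nat_lit 17) false (nat_lit 7) true (nat_lit 19) true (nat_lit 17) (.s false (nat_lit 1) (nat_lit 69) (nat_lit 0) (nat_lit 2) (nat_lit 2) true (nat_lit 15) true (nat_lit 17) false (nat_lit 7) true (nat_lit 19) true (nat_lit 17) (.s false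 (nat_lit 2) (nat_lit 74) (nat_lit 0) (nat_lit 2) (nat_lit 2) true (nat_lit 15) true (nat_lit 17) false (nat_lit 7) true (nat_lit 19) true (nat_lit 17) (.s false (nat_lit 3) (nat_lit 66) (nat_lit 2) (nat_lit 0) (nat_lit 2) true (nat_lit 13) true (nat_lit 17) false (nat_lit 7) true (nat_lit 17) true (nat_lit 19) dC1d_i183)))))))))))))))))))))))))

noncomputable def dC1d_i185 : IL := (.e true (nat_lit 2) (nat_lit 294) (nat_lit 0) (nat_lit 19) (.e false (nat_lit 1) (nat_lit 304) (nat_lit 0) (nat_lit 19) (.e false (nat_lit 1) (nat_lit 308) (nat_lit 0) (nat_lit 19) (.e true (nat_lit 1) (nat_lit 311) (nat_lit 0) (nat_lit 19) (.e true (nat_lit 3) (nat_lit 317) (nat_lit 0) (nat_lit 19) (.e true (nat_lit 1) (nat_lit 157) (nat_lit 4) (nat_lit 15) (.e false (nat_lit 3) (nat_lit 279) (nat_lit 1) (nat_lit 18) (.e true (nat_lit 3) (nat_lit 283) (nat_lit 1) (nat_lit 18) (.e false (nat_lit 3) (nat_lit 285) (nat_lit 1) (nat_lit 18)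 (.e false (nat_lit 1) (nat_lit 293) (nat_lit 0) (nat_lit 19) (.e true (nat_lit 2) (nat_lit 296) (nat_lit 0) (nat_lit 19) (.e true (nat_lit 1) (nat_lit 300) (nat_lit 0) (nat_lit 19) (.e true (nat_lit 1) (nat_lit 309) (nat_lit 0) (nat_lit 19) (.e true (nat_lit 1) (nat_lit 310) (nat_lit 0) (nat_lit 19) (.e false (nat_lit 1) (nat_lit 154) (nat_lit 4) (nat_lit 15) (.e true (nat_lit 1) (nat_lit 313) (nat_lit 0) (nat_lit 19) (.e true (nat_lit 1) (nat_lit 302) (nat_lit 0) (nat_lit 19) (.e true (nat_lit 3) (nat_lit 305) (nat_lit 0) (nat_lit 19) (.e false (nat_lit 1) (nat_lit 295) (nat_lit 0) (nat_lit 19) (.e true (nat_lit 1) (nat_lit 315) (nat_lit 0) (nat_lit 19) (.e true (nat_lit 1) (nat_lit 314) (nat_lit 0) (nat_lit 19) (.e true (nat_lit 2) (nat_lit 144) (nat_lit 5) (nat_lit 14) (.u (nat_lit 2) (.n (nat_lit 0) (nat_lit 2) (.p (nat_lit 1) (nat_lit 4) (.p (nat_lit 2) (nat_lit 4) (.p (nat_lit 4) (nat_lit 3) (.n (nat_lit 5)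 (nat_lit 1) (.p (nat_lit 7) (nat_lit 1) (.n (nat_lit 9) (nat_lit 1) (.p (nat_lit 10) (nat_lit 2) (.n (nat_lit 12) (nat_lit 3) (.p (nat_lit 13) (nat_lit 1) (.p (nat_lit 14) (nat_lit 2) (.n (nat_lit 15) (nat_lit 2) (.p (nat_lit 17) (nat_lit 3) (.n (nat_lit 18) (nat_lit 5) (.p (nat_lit 19) (nat_lit 2) (.p (nat_lit 20) (nat_lit 3) (.p (nat_lit 23) (nat_lit 1) (.n (nat_lit 26) (nat_lit 3) (.p (nat_lit 27) (nat_lit 1) (.p (nat_lit 28) (nat_lit 1) (.p (nat_lit 29) (nat_lit 5) (.n (nat_lit 30) (nat_lit 2) (.n (nat_lit 31) (nat_lit 3) (.p (nat_lit 33) (nat_lit 2) (.p (nat_lit 35) (nat_lit 4) (.p (nat_lit 36) (nat_lit 2) (.p (nat_lit 37) (nat_lit 1) (.n (nat_lit 38) (nat_lit 1) (.n (nat_lit 39) (nat_lit 3) (.n (nat_lit 40) (nat_lit 2) (.p (nat_lit 41) (nat_lit 1) (.p (nat_lit 49) (nat_lit 3) (.n (nat_lit 50) (nat_lit 2) (.p (nat_lit 51) (nat_lit 1) (.n (nat_lit 52) (nat_lit 1) (.n (nat_lit 53) (nat_lit 1) (.p (nat_lit 54)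 (nat_lit 3) (.n (nat_lit 55) (nat_lit 2) (.n (nat_lit 56) (nat_lit 1) (.n (nat_lit 59) (nat_lit 1) (.n (nat_lit 60) (nat_lit 1) (.p (nat_lit 61) (nat_lit 1) (.n (nat_lit 68) (nat_lit 1) (.p (nat_lit 69) (nat_lit 1) (.n (nat_lit 70) (nat_lit 2) (.p (nat_lit 71) (nat_lit 1) (.n (nat_lit 99) (nat_lit 1) (.n (nat_lit 117) (nat_lit 1) (.n (nat_lit 118) (nat_lit 1) (.p (nat_lit 135) (nat_lit 1) (.p (nat_lit 136) (nat_lit 1) (.p (nat_lit 140) (nat_lit 1) (.n (nat_lit 149) (nat_lit 1) (.n (nat_lit 182) (nat_lit 1) (.p (nat_lit 220) (nat_lit 1) (.p (nat_lit 225) (nat_lit 1) (.n (nat_lit 238) (nat_lit 1) (.n (nat_lit 241) (nat_lit 1) (.p (nat_lit 244) (nat_lit 1) (.p (nat_lit 245) (nat_lit 1) .z)))))))))))))))))))))))))))))))))))))))))))))))))))))))))))) (.u (nat_lit 2) (.n (nat_lit 249) (nat_lit 1) (.n (nat_lit 251) (nat_lit 1) (.p (nat_lit 258) (nat_lit 1) (.n (nat_lit 261) (nat_lit 1) (.n (nat_lit 262) (nat_lit 1) (.p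 (nat_lit 279) (nat_lit 1) (.p (nat_lit 291) (nat_lit 1) (.p (nat_lit 294) (nat_lit 1) (.n (nat_lit 298) (nat_lit 1) (.n (nat_lit 304) (nat_lit 1) (.n (nat_lit 316) (nat_lit 1) (.n (nat_lit 327) (nat_lit 3) (.p (nat_lit 328) (nat_lit 7) (.n (nat_lit 329) (nat_lit 13) (.p (nat_lit 330) (nat_lit 8) (.n (nat_lit 331) (nat_lit 5) (.n (nat_lit 332) (nat_lit 1) (.p (nat_lit 333) (nat_lit 4) (.n (nat_lit 334) (nat_lit 7) (.n (nat_lit 336) (nat_lit 22) (.n (nat_lit 337) (nat_lit 2) (.p (nat_lit 338) (nat_lit 15) (.n (nat_lit 339) (nat_lit 1) (.p (nat_lit 340) (nat_lit 2) (.p (nat_lit 341) (nat_lit 10) (.n (nat_lit 342) (nat_lit 5) (.p (nat_lit 343) (nat_lit 13) (.p (nat_lit 344) (nat_lit 19) (.n (nat_lit 345) (nat_lit 6) (.n (nat_lit 346) (nat_lit 27) (.p (nat_lit 347) (nat_lit 2) (.p (nat_lit 348) (nat_lit 3) (.n (nat_lit 349) (nat_lit 10) (.p (nat_lit 350) (nat_lit 5) (.n (nat_lit 351) (nat_lit 9) (.p (nat_lit 352) (nat_lit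 18) (.p (nat_lit 354) (nat_lit 9) (.n (nat_lit 355) (nat_lit 8) (.n (nat_lit 356) (nat_lit 5) (.n (nat_lit 357) (nat_lit 11) (.p (nat_lit 358) (nat_lit 5) (.p (nat_lit 359) (nat_lit 19) (.p (nat_lit 360) (nat_lit 2) (.n (nat_lit 361) (nat_lit 10) (.p (nat_lit 362) (nat_lit 1) (.n (nat_lit 363) (nat_lit 21) (.n (nat_lit 365) (nat_lit 2) (.p (nat_lit 366) (nat_lit 6) (.n (nat_lit 367) (nat_lit 5) (.p (nat_lit 368) (nat_lit 4) (.n (nat_lit 371) (nat_lit 3) (.p (nat_lit 372) (nat_lit 3) (.n (nat_lit 373) (nat_lit 6) (.n (nat_lit 375) (nat_lit 16) (.p (nat_lit 376) (nat_lit 4) (.p (nat_lit 377) (nat_lit 22) (.n (nat_lit 378) (nat_lit 8) (.p (nat_lit 379) (nat_lit 2) (.n (nat_lit 380) (nat_lit 10) (.p (nat_lit 381) (nat_lit 4) .z)))))))))))))))))))))))))))))))))))))))))))))))))))))))))))) (.u (nat_lit 2) (.n (nat_lit 382) (nat_lit 14) (.p (nat_lit 383) (nat_lit 25) (.n (nat_lit 384) (nat_lit 8) (.n (nat_lit 385) (nat_lit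 28) (.n (nat_lit 386) (nat_lit 17) (.p (nat_lit 387) (nat_lit 32) (.n (nat_lit 388) (nat_lit 8) (.p (nat_lit 389) (nat_lit 2) (.p (nat_lit 391) (nat_lit 1) (.n (nat_lit 392) (nat_lit 1) (.p (nat_lit 393) (nat_lit 6) (.p (nat_lit 394) (nat_lit 5) (.n (nat_lit 395) (nat_lit 8) (.n (nat_lit 396) (nat_lit 3) (.p (nat_lit 397) (nat_lit 6) (.p (nat_lit 398) (nat_lit 3) (.n (nat_lit 399) (nat_lit 10) (.n (nat_lit 400) (nat_lit 4) (.n (nat_lit 401) (nat_lit 6) (.p (nat_lit 402) (nat_lit 9) (.n (nat_lit 403) (nat_lit 3) (.n (nat_lit 404) (nat_lit 6) (.p (nat_lit 405) (nat_lit 8) (.p (nat_lit 406) (nat_lit 15) (.n (nat_lit 407) (nat_lit 2) (.n (nat_lit 408) (nat_lit 18) (.n (nat_lit 409) (nat_lit 2) (.n (nat_lit 410) (nat_lit 28) (.n (nat_lit 411) (nat_lit 7) (.p (nat_lit 412) (nat_lit 5) (.p (nat_lit 413) (nat_lit 7) (.p (nat_lit 414) (nat_lit 1) (.p (nat_lit 415) (nat_lit 17) (.n (nat_lit 416) (nat_lit 20) (.p (nat_lit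 417) (nat_lit 14) (.p (nat_lit 418) (nat_lit 1) (.p (nat_lit 419) (nat_lit 7) (.p (nat_lit 420) (nat_lit 17) (.p (nat_lit 422) (nat_lit 23) (.n (nat_lit 423) (nat_lit 21) (.p (nat_lit 424) (nat_lit 1) (.n (nat_lit 425) (nat_lit 19) (.n (nat_lit 426) (nat_lit 1) (.p (nat_lit 427) (nat_lit 15) (.n (nat_lit 429) (nat_lit 1) (.n (nat_lit 430) (nat_lit 1) (.n (nat_lit 431) (nat_lit 11) (.n (nat_lit 432) (nat_lit 10) (.n (nat_lit 433) (nat_lit 5) (.n (nat_lit 434) (nat_lit 6) .z)))))))))))))))))))))))))))))))))))))))))))))))))) .nil)))))))))))))))))))))))))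

noncomputable def dC1d_i186 : IL := (.e false (nat_lit 3) (nat_lit 258) (nat_lit 2) (nat_lit 17) (.e false (nat_lit 1) (nat_lit 316) (nat_lit 0) (nat_lit 19) (.e true (nat_lit 1) (nat_lit 286) (nat_lit 1) (nat_lit 18) (.e false (nat_lit 1) (nat_lit 298) (nat_lit 0) (nat_lit 19) (.e false (nat_lit 2) (nat_lit 270) (nat_lit 1) (nat_lit 18) (.e true (nat_lit 1) (nat_lit 259) (nat_lit 2) (nat_lit 17) (.e false (nat_lit 1) (nat_lit 260) (nat_lit 1) (nat_lit 18) (.e true (nat_lit 2) (nat_lit 261) (nat_lit 1) (nat_lit 18) (.e false (nat_lit 2) (nat_lit 262) (nat_lit 1) (nat_lit 18) (.e true (nat_lit 2) (nat_lit 263) (nat_lit 1) (nat_lit 18) (.e true (nat_lit 1) (nat_lit 264) (nat_lit 1) (nat_lit 18) (.e true (nat_lit 3) (nat_lit 265) (nat_lit 1) (nat_lit 18) (.e true (nat_lit 1) (nat_lit 266) (nat_lit 1) (nat_lit 18) (.e true (nat_lit 3) (nat_lit 267) (nat_lit 1) (nat_lit 18) (.e false (nat_lit 2) (nat_lit 268) (nat_lit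 1) (nat_lit 18) (.e false (nat_lit 1) (nat_lit 269) (nat_lit 1) (nat_lit 18) (.e false (nat_lit 3) (nat_lit 274) (nat_lit 1) (nat_lit 18) (.e false (nat_lit 1) (nat_lit 278) (nat_lit 1) (nat_lit 18) (.e true (nat_lit 2) (nat_lit 280) (nat_lit 1) (nat_lit 18) (.e false (nat_lit 1) (nat_lit 282) (nat_lit 1) (nat_lit 18) (.e false (nat_lit 2) (nat_lit 288) (nat_lit 1) (nat_lit 18) (.e true (nat_lit 3) (nat_lit 271) (nat_lit 1) (nat_lit 18) (.e false (nat_lit 2) (nat_lit 273) (nat_lit 1) (nat_lit 18) (.e false (nat_lit 2) (nat_lit 139) (nat_lit 5) (nat_lit 14) (.e false (nat_lit 2) (nat_lit 291) (nat_lit 0) (nat_lit 19) dC1d_i185)))))))))))))))))))))))))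

noncomputable def dC1d_i187 : IL := (.e false (nat_lit 1) (nat_lit 223) (nat_lit 2) (nat_lit 17) (.e false (nat_lit 1) (nat_lit 224) (nat_lit 2) (nat_lit 17) (.e true (nat_lit 2) (nat_lit 225) (nat_lit 2) (nat_lit 17) (.e true (nat_lit 3) (nat_lit 226) (nat_lit 2) (nat_lit 17) (.e true (nat_lit 3) (nat_lit 228) (nat_lit 2) (nat_lit 17) (.e true (nat_lit 3) (nat_lit 233) (nat_lit 2) (nat_lit 17) (.e false (nat_lit 1) (nat_lit 235) (nat_lit 2) (nat_lit 17) (.e false (nat_lit 1) (nat_lit 236) (nat_lit 2) (nat_lit 17) (.e false (nat_lit 1) (nat_lit 239) (nat_lit 2) (nat_lit 17) (.e true (nat_lit 3) (nat_lit 242) (nat_lit 2) (nat_lit 17) (.e false (nat_lit 2) (nat_lit 244) (nat_lit 2) (nat_lit 17) (.e false (nat_lit 3) (nat_lit 245) (nat_lit 2) (nat_lit 17) (.e true (nat_lit 1) (nat_lit 246) (nat_lit 2) (nat_lit 17) (.e false (nat_lit 1) (nat_lit 247) (nat_lit 2) (nat_lit 17) (.e false (nat_lit 1) (nat_lit 248) (nat_lit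 2) (nat_lit 17) (.e false (nat_lit 2) (nat_lit 212) (nat_lit 2) (nat_lit 17) (.e true (nat_lit 3) (nat_lit 219) (nat_lit 2) (nat_lit 17) (.e true (nat_lit 2) (nat_lit 232) (nat_lit 2) (nat_lit 17) (.e false (nat_lit 2) (nat_lit 234) (nat_lit 2) (nat_lit 17) (.e true (nat_lit 2) (nat_lit 249) (nat_lit 2) (nat_lit 17) (.e false (nat_lit 1) (nat_lit 277) (nat_lit 1) (nat_lit 18) (.e false (nat_lit 2) (nat_lit 215) (nat_lit 2) (nat_lit 17) (.e false (nat_lit 2) (nat_lit 307) (nat_lit 0) (nat_lit 19) (.e true (nat_lit 3) (nat_lit 251) (nat_lit 2) (nat_lit 17) (.e false (nat_lit 1) (nat_lit 252) (nat_lit 2) (nat_lit 17) dC1d_i186)))))))))))))))))))))))))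

noncomputable def dC1d_i188 : IL := (.s false (nat_lit 2) (nat_lit 85) (nat_lit 1) (nat_lit 2) (nat_lit 0) true (nat_lit 16) true (nat_lit 19) false (nat_lit 9) true (nat_lit 18) true (nat_lit 17) (.s false (nat_lit 3) (nat_lit 87) (nat_lit 1) (nat_lit 2) (nat_lit 0) true (nat_lit 16) true (nat_lit 19) false (nat_lit 9) true (nat_lit 18) true (nat_lit 17) (.s false (nat_lit 2) (nat_lit 88) (nat_lit 1) (nat_lit 2) (nat_lit 0) true (nat_lit 16) true (nat_lit 19) false (nat_lit 9) true (nat_lit 18) true (nat_lit 17) (.s true (nat_lit 2) (nat_lit 89) (nat_lit 1) (nat_lit 2) (nat_lit 0) true (nat_lit 16) true (nat_lit 19) false (nat_lit 9) true (nat_lit 18) true (nat_lit 17) (.s true (nat_lit 2) (nat_lit 91) (nat_lit 1) (nat_lit 2) (nat_lit 0) true (nat_lit 16) true (nat_lit 19) false (nat_lit 9) true (nat_lit 18) true (nat_lit 17) (.s false (nat_lit 2) (nat_lit 92) (nat_lit 1) (nat_lit 2) (nat_lit 0) true (nat_lit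 16) true (nat_lit 19) false (nat_lit 9) true (nat_lit 18) true (nat_lit 17) (.s true (nat_lit 3) (nat_lit 82) (nat_lit 2) (nat_lit 1) (nat_lit 0) true (nat_lit 15) true (nat_lit 19) false (nat_lit 9) true (nat_lit 17) true (nat_lit 18) (.s false (nat_lit 2) (nat_lit 93) (nat_lit 0) (nat_lit 2) (nat_lit 0) false (nat_lit 20) true (nat_lit 19) false (nat_lit 10) true (nat_lit 19) true (nat_lit 17) (.s false (nat_lit 2) (nat_lit 94) (nat_lit 0) (nat_lit 2) (nat_lit 0) false (nat_lit 20) true (nat_lit 19) false (nat_lit 10) true (nat_lit 19) true (nat_lit 17) (.s false (nat_lit 3) (nat_lit 98) (nat_lit 0) (nat_lit 1) (nat_lit 1) true (nat_lit 16) true (nat_lit 18) false (nat_lit 11) true (nat_lit 19) true (nat_lit 18) (.s true (nat_lit 1) (nat_lit 99) (nat_lit 1) (nat_lit 0) (nat_lit 1) false (nat_lit 21) true (nat_lit 18) false (nat_lit 11) true (nat_lit 18) true (nat_lit 19) (.s true (nat_lit 1) (nat_lit 100) (nat_lit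 1) (nat_lit 0) (nat_lit 1) false (nat_lit 21) true (nat_lit 18) false (nat_lit 11) true (nat_lit 18) true (nat_lit 19) (.s true (nat_lit 2) (nat_lit 101) (nat_lit 1) (nat_lit 0) (nat_lit 1) false (nat_lit 21) true (nat_lit 18) false (nat_lit 11) true (nat_lit 18) true (nat_lit 19) (.s false (nat_lit 3) (nat_lit 98) (nat_lit 1) (nat_lit 1) (nat_lit 0) true (nat_lit 16) true (nat_lit 19) false (nat_lit 11) true (nat_lit 18) true (nat_lit 18) (.s true (nat_lit 3) (nat_lit 102) (nat_lit 0) (nat_lit 1) (nat_lit 0) false (nat_lit 20) true (nat_lit 19) false (nat_lit 12) true (nat_lit 19) true (nat_lit 18) (.s true (nat_lit 2) (nat_lit 103) (nat_lit 0) (nat_lit 1) (nat_lit 0) false (nat_lit 20) true (nat_lit 19) false (nat_lit 12) true (nat_lit 19) true (nat_lit 18) (.s false (nat_lit 3) (nat_lit 104) (nat_lit 0) (nat_lit 1) (nat_lit 0) false (nat_lit 20) true (nat_lit 19) false (nat_lit 12) true (nat_lit 19) true (nat_lit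 18) (.s true (nat_lit 2) (nat_lit 105) (nat_lit 0) (nat_lit 1) (nat_lit 0) false (nat_lit 20) true (nat_lit 19) false (nat_lit 12) true (nat_lit 19) true (nat_lit 18) (.a true (nat_lit 2) (nat_lit 31) (nat_lit 31) (nat_lit 0) (nat_lit 0) (.a false (nat_lit 2) (nat_lit 35) (nat_lit 35) (nat_lit 0) (nat_lit 0) (.e true (nat_lit 3) (nat_lit 213) (nat_lit 2) (nat_lit 17) (.e true (nat_lit 3) (nat_lit 214) (nat_lit 2) (nat_lit 17) (.e false (nat_lit 2) (nat_lit 217) (nat_lit 2) (nat_lit 17) (.e false (nat_lit 3) (nat_lit 218) (nat_lit 2) (nat_lit 17) (.e true (nat_lit 1) (nat_lit 222) (nat_lit 2) (nat_lit 17) dC1d_i187)))))))))))))))))))))))))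

noncomputable def dC1d_i189 : IL := (.s true (nat_lit 3) (nat_lit 46) (nat_lit 3) (nat_lit 0) (nat_lit 1) true (nat_lit 11) true (nat_lit 18) false (nat_lit 4) true (nat_lit 16) true (nat_lit 19) (.s false (nat_lit 2) (nat_lit 48) (nat_lit 2) (nat_lit 2) (nat_lit 2) true (nat_lit 13) true (nat_lit 17) false (nat_lit 5) true (nat_lit 17) true (nat_lit 17) (.s true (nat_lit 2) (nat_lit 52) (nat_lit 2) (nat_lit 2) (nat_lit 2) true (nat_lit 13) true (nat_lit 17) false (nat_lit 5) true (nat_lit 17) true (nat_lit 17) (.s true (nat_lit 3) (nat_lit 54) (nat_lit 2) (nat_lit 2) (nat_lit 2) true (nat_lit 13) true (nat_lit 17) false (nat_lit 5) true (nat_lit 17) true (nat_lit 17) (.s true (nat_lit 1) (nat_lit 55) (nat_lit 1) (nat_lit 2) (nat_lit 2) true (nat_lit 14) true (nat_lit 17) false (nat_lit 6) true (nat_lit 18) true (nat_lit 17) (.s true (nat_lit 2) (nat_lit 56) (nat_lit 1) (nat_lit 2) (nat_lit 2) true (nat_lit 14)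 true (nat_lit 17) false (nat_lit 6) true (nat_lit 18) true (nat_lit 17) (.s true (nat_lit 3) (nat_lit 57) (nat_lit 1) (nat_lit 2) (nat_lit 2) true (nat_lit 14) true (nat_lit 17) false (nat_lit 6) true (nat_lit 18) true (nat_lit 17) (.s false (nat_lit 2) (nat_lit 58) (nat_lit 1) (nat_lit 2) (nat_lit 2) true (nat_lit 14) true (nat_lit 17) false (nat_lit 6) true (nat_lit 18) true (nat_lit 17) (.s true (nat_lit 2) (nat_lit 61) (nat_lit 1) (nat_lit 2) (nat_lit 2) true (nat_lit 14) true (nat_lit 17) false (nat_lit 6) true (nat_lit 18) true (nat_lit 17) (.s true (nat_lit 3) (nat_lit 64) (nat_lit 1) (nat_lit 2) (nat_lit 2) true (nat_lit 14) true (nat_lit 17) false (nat_lit 6) true (nat_lit 18) true (nat_lit 17) (.s false (nat_lit 3) (nat_lit 65) (nat_lit 1) (nat_lit 2) (nat_lit 2) true (nat_lit 14) true (nat_lit 17) false (nat_lit 6) true (nat_lit 18) true (nat_lit 17) (.s false (nat_lit 3) (nat_lit 55) (nat_lit 2) (nat_lit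 1) (nat_lit 2) true (nat_lit 13) true (nat_lit 17) false (nat_lit 6) true (nat_lit 17) true (nat_lit 18) (.s true (nat_lit 2) (nat_lit 61) (nat_lit 2) (nat_lit 1) (nat_lit 2) true (nat_lit 13) true (nat_lit 17) false (nat_lit 6) true (nat_lit 17) true (nat_lit 18) (.s true (nat_lit 3) (nat_lit 64) (nat_lit 2) (nat_lit 1) (nat_lit 2) true (nat_lit 13) true (nat_lit 17) false (nat_lit 6) true (nat_lit 17) true (nat_lit 18) (.s false (nat_lit 1) (nat_lit 55) (nat_lit 2) (nat_lit 2) (nat_lit 1) true (nat_lit 14) true (nat_lit 18) false (nat_lit 6) true (nat_lit 17) true (nat_lit 17) (.s false (nat_lit 2) (nat_lit 61) (nat_lit 2) (nat_lit 2) (nat_lit 1) true (nat_lit 14) true (nat_lit 18) false (nat_lit 6) true (nat_lit 17) true (nat_lit 17) (.s false (nat_lit 3) (nat_lit 64) (nat_lit 2) (nat_lit 2) (nat_lit 1) true (nat_lit 14) true (nat_lit 18) false (nat_lit 6) true (nat_lit 17) true (nat_lit 17) (.s false (nat_lit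 1) (nat_lit 65) (nat_lit 2) (nat_lit 2) (nat_lit 1) true (nat_lit 14) true (nat_lit 18) false (nat_lit 6) true (nat_lit 17) true (nat_lit 17) (.s false (nat_lit 3) (nat_lit 66) (nat_lit 2) (nat_lit 2) (nat_lit 0) true (nat_lit 15) true (nat_lit 19) false (nat_lit 7) true (nat_lit 17) true (nat_lit 17) (.s true (nat_lit 2) (nat_lit 78) (nat_lit 1) (nat_lit 1) (nat_lit 2) true (nat_lit 14) true (nat_lit 17) false (nat_lit 8) true (nat_lit 18) true (nat_lit 18) (.s true (nat_lit 3) (nat_lit 82) (nat_lit 0) (nat_lit 1) (nat_lit 2) true (nat_lit 15) true (nat_lit 17) false (nat_lit 9) true (nat_lit 19) true (nat_lit 18) (.s true (nat_lit 3) (nat_lit 90) (nat_lit 0) (nat_lit 1) (nat_lit 2) true (nat_lit 15) true (nat_lit 17) false (nat_lit 9) true (nat_lit 19) true (nat_lit 18) (.s false (nat_lit 2) (nat_lit 82) (nat_lit 0) (nat_lit 2) (nat_lit 1) true (nat_lit 16) true (nat_lit 18) false (nat_lit 9) true (nat_lit 19)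 true (nat_lit 17) (.s false (nat_lit 2) (nat_lit 82) (nat_lit 1) (nat_lit 2) (nat_lit 0) true (nat_lit 16) true (nat_lit 19) false (nat_lit 9) true (nat_lit 18) true (nat_lit 17) (.s true (nat_lit 2) (nat_lit 84) (nat_lit 1) (nat_lit 2) (nat_lit 0) true (nat_lit 16) true (nat_lit 19) false (nat_lit 9) true (nat_lit 18) true (nat_lit 17) dC1d_i188)))))))))))))))))))))))))

noncomputable def dC1d_i190 : IL := (.s true (nat_lit 1) (nat_lit 17) (nat_lit 2) (nat_lit 7) (nat_lit 2) true (nat_lit 13) true (nat_lit 17) true (nat_lit 6) true (nat_lit 17) true (nat_lit 12) (.s true (nat_lit 3) (nat_lit 16) (nat_lit 7) (nat_lit 2) (nat_lit 2) true (nat_lit 3) true (nat_lit 17) true (nat_lit 6) true (nat_lit 12) true (nat_lit 17) (.s true (nat_lit 2) (nat_lit 18) (nat_lit 0) (nat_lit 2) (nat_lit 8) true (nat_lit 4) true (nat_lit 11) true (nat_lit 5) true (nat_lit 19) true (nat_lit 17) (.s false (nat_lit 3) (nat_lit 18) (nat_lit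 1) (nat_lit 2) (nat_lit 7) true (nat_lit 4) true (nat_lit 12) true (nat_lit 5) true (nat_lit 18) true (nat_lit 17) (.s true (nat_lit 2) (nat_lit 18) (nat_lit 2) (nat_lit 0) (nat_lit 8) true (nat_lit 2) true (nat_lit 11) true (nat_lit 5) true (nat_lit 17) true (nat_lit 19) (.s false (nat_lit 2) (nat_lit 18) (nat_lit 2) (nat_lit 7) (nat_lit 1) true (nat_lit 14) true (nat_lit 18) true (nat_lit 5) true (nat_lit 17) true (nat_lit 12) (.s true (nat_lit 2) (nat_lit 18) (nat_lit 2) (nat_lit 8) (nat_lit 0) true (nat_lit 15) true (nat_lit 19) true (nat_lit 5) true (nat_lit 17) true (nat_lit 11) (.s false (nat_lit 2) (nat_lit 21) (nat_lit 2) (nat_lit 2) (nat_lit 5) true (nat_lit 6) true (nat_lit 14) true (nat_lit 3) true (nat_lit 17) true (nat_lit 17) (.s false (nat_lit 3) (nat_lit 22) (nat_lit 2) (nat_lit 2) (nat_lit 5) true (nat_lit 6) true (nat_lit 14) true (nat_lit 3) true (nat_lit 17) true (nat_lit 17) (.s true (nat_lit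 2) (nat_lit 23) (nat_lit 2) (nat_lit 2) (nat_lit 5) true (nat_lit 6) true (nat_lit 14) true (nat_lit 3) true (nat_lit 17) true (nat_lit 17) (.s true (nat_lit 3) (nat_lit 24) (nat_lit 0) (nat_lit 2) (nat_lit 6) true (nat_lit 7) true (nat_lit 13) true (nat_lit 2) true (nat_lit 19) true (nat_lit 17) (.s false (nat_lit 3) (nat_lit 24) (nat_lit 2) (nat_lit 4) (nat_lit 2) true (nat_lit 13) true (nat_lit 17) true (nat_lit 2) true (nat_lit 17) true (nat_lit 15) (.s true (nat_lit 2) (nat_lit 24) (nat_lit 4) (nat_lit 2) (nat_lit 2) true (nat_lit 7) true (nat_lit 17) true (nat_lit 2) true (nat_lit 15) true (nat_lit 17) (.s false (nat_lit 2) (nat_lit 30) (nat_lit 1) (nat_lit 1) (nat_lit 6) true (nat_lit 6) true (nat_lit 13) true (nat_lit 1) true (nat_lit 18) true (nat_lit 18) (.s false (nat_lit 2) (nat_lit 31) (nat_lit 0) (nat_lit 2) (nat_lit 5) true (nat_lit 9) true (nat_lit 14) true (nat_lit 0) true (nat_lit 19) true (nat_lit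 17) (.s true (nat_lit 2) (nat_lit 31) (nat_lit 1) (nat_lit 2) (nat_lit 4) true (nat_lit 9) true (nat_lit 15) true (nat_lit 0) true (nat_lit 18) true (nat_lit 17) (.s true (nat_lit 3) (nat_lit 35) (nat_lit 6) (nat_lit 0) (nat_lit 1) true (nat_lit 6) true (nat_lit 18) true (nat_lit 0) true (nat_lit 13) true (nat_lit 19) (.s false (nat_lit 2) (nat_lit 44) (nat_lit 2) (nat_lit 3) (nat_lit 0) true (nat_lit 15) true (nat_lit 19) false (nat_lit 3) true (nat_lit 17) true (nat_lit 16) (.s false (nat_lit 2) (nat_lit 45) (nat_lit 2) (nat_lit 3) (nat_lit 0) true (nat_lit 15) true (nat_lit 19) false (nat_lit 3) true (nat_lit 17) true (nat_lit 16) (.s false (nat_lit 2) (nat_lit 44) (nat_lit 4) (nat_lit 1) (nat_lit 0) true (nat_lit 10) true (nat_lit 19) false (nat_lit 3) true (nat_lit 15) true (nat_lit 18) (.s false (nat_lit 2) (nat_lit 45) (nat_lit 4) (nat_lit 1) (nat_lit 0) true (nat_lit 10) true (nat_lit 19) false (nat_lit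 3) true (nat_lit 15) true (nat_lit 18) (.s true (nat_lit 2) (nat_lit 44) (nat_lit 5) (nat_lit 0) (nat_lit 0) true (nat_lit 9) true (nat_lit 19) false (nat_lit 3) true (nat_lit 14) true (nat_lit 19) (.s true (nat_lit 2) (nat_lit 45) (nat_lit 5) (nat_lit 0) (nat_lit 0) true (nat_lit 9) true (nat_lit 19) false (nat_lit 3) true (nat_lit 14) true (nat_lit 19) (.s false (nat_lit 3) (nat_lit 46) (nat_lit 0) (nat_lit 3) (nat_lit 1) true (nat_lit 16) true (nat_lit 18) false (nat_lit 4) true (nat_lit 19) true (nat_lit 16) (.s false (nat_lit 3) (nat_lit 46) (nat_lit 1) (nat_lit 0) (nat_lit 3) true (nat_lit 11) true (nat_lit 16) false (nat_lit 4) true (nat_lit 18) true (nat_lit 19) dC1d_i189)))))))))))))))))))))))))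

noncomputable def dC1d_i191 : IL := (.e true (nat_lit 1) (nat_lit 300) (nat_lit 0) (nat_lit 19) (.e true (nat_lit 1) (nat_lit 301) (nat_lit 0) (nat_lit 19) (.e false (nat_lit 2) (nat_lit 302) (nat_lit 0) (nat_lit 19) (.e true (nat_lit 1) (nat_lit 303) (nat_lit 0) (nat_lit 19) (.e false (nat_lit 3) (nat_lit 305) (nat_lit 0) (nat_lit 19) (.e false (nat_lit 1) (nat_lit 308) (nat_lit 0) (nat_lit 19) (.e false (nat_lit 1) (nat_lit 309) (nat_lit 0) (nat_lit 19) (.e true (nat_lit 2) (nat_lit 310) (nat_lit 0) (nat_lit 19) (.e false (nat_lit 2) (nat_lit 314) (nat_lit 0) (nat_lit 19) (.e false (nat_lit 2) (nat_lit 315) (nat_lit 0) (nat_lit 19) (.e true (nat_lit 2) (nat_lit 311) (nat_lit 0) (nat_lit 19) (.e true (nat_lit 2) (nat_lit 316) (nat_lit 0) (nat_lit 19) (.e false (nat_lit 1) (nat_lit 317) (nat_lit 0) (nat_lit 19) (.e false (nat_lit 2) (nat_lit 319) (nat_lit 0) (nat_lit 19) (.e false (nat_lit 3) (nat_lit 263) (nat_lit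 1) (nat_lit 18) (.e true (nat_lit 3) (nat_lit 274) (nat_lit 1) (nat_lit 18) (.e false (nat_lit 1) (nat_lit 259) (nat_lit 2) (nat_lit 17) (.e true (nat_lit 1) (nat_lit 160) (nat_lit 4) (nat_lit 15) (.e true (nat_lit 2) (nat_lit 290) (nat_lit 0) (nat_lit 19) (.e false (nat_lit 3) (nat_lit 313) (nat_lit 0) (nat_lit 19) (.e true (nat_lit 1) (nat_lit 144) (nat_lit 5) (nat_lit 14) (.e false (nat_lit 3) (nat_lit 282) (nat_lit 1) (nat_lit 18) (.u (nat_lit 2) (.n (nat_lit 0) (nat_lit 4) (.p (nat_lit 1) (nat_lit 1) (.p (nat_lit 2) (nat_lit 1) (.n (nat_lit 4) (nat_lit 3) (.n (nat_lit 5) (nat_lit 3) (.n (nat_lit 6) (nat_lit 4) (.p (nat_lit 7) (nat_lit 3) (.p (nat_lit 9) (nat_lit 1) (.p (nat_lit 11) (nat_lit 2) (.p (nat_lit 12) (nat_lit 3) (.p (nat_lit 14) (nat_lit 4) (.p (nat_lit 15) (nat_lit 1) (.p (nat_lit 17) (nat_lit 2) (.n (nat_lit 18) (nat_lit 4) (.n (nat_lit 19) (nat_lit 2) (.n (nat_lit 26) (nat_lit 1) (.n (nat_lit 27)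 (nat_lit 2) (.n (nat_lit 28) (nat_lit 3) (.p (nat_lit 29) (nat_lit 3) (.n (nat_lit 30) (nat_lit 4) (.n (nat_lit 31) (nat_lit 2) (.p (nat_lit 32) (nat_lit 1) (.n (nat_lit 34) (nat_lit 1) (.n (nat_lit 35) (nat_lit 3) (.p (nat_lit 36) (nat_lit 2) (.p (nat_lit 37) (nat_lit 4) (.n (nat_lit 38) (nat_lit 2) (.p (nat_lit 40) (nat_lit 2) (.p (nat_lit 45) (nat_lit 1) (.p (nat_lit 49) (nat_lit 2) (.p (nat_lit 52) (nat_lit 1) (.n (nat_lit 53) (nat_lit 1) (.p (nat_lit 54) (nat_lit 2) (.n (nat_lit 55) (nat_lit 2) (.p (nat_lit 57) (nat_lit 1) (.n (nat_lit 58) (nat_lit 1) (.n (nat_lit 62) (nat_lit 1) (.p (nat_lit 63) (nat_lit 1) (.n (nat_lit 70) (nat_lit 1) (.p (nat_lit 133) (nat_lit 1) (.p (nat_lit 140) (nat_lit 1) (.n (nat_lit 142) (nat_lit 1) (.p (nat_lit 146) (nat_lit 1) (.p (nat_lit 149) (nat_lit 1) (.p (nat_lit 231) (nat_lit 1) (.p (nat_lit 232) (nat_lit 1) (.n (nat_lit 235) (nat_lit 1) (.p (nat_lit 237) (nat_lit 1) (.p (nat_lit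 238) (nat_lit 1) (.n (nat_lit 241) (nat_lit 1) (.n (nat_lit 242) (nat_lit 1) (.n (nat_lit 244) (nat_lit 1) (.p (nat_lit 246) (nat_lit 1) (.n (nat_lit 249) (nat_lit 1) (.p (nat_lit 256) (nat_lit 3) (.n (nat_lit 261) (nat_lit 1) (.p (nat_lit 263) (nat_lit 1) (.p (nat_lit 266) (nat_lit 1) (.p (nat_lit 269) (nat_lit 1) (.n (nat_lit 273) (nat_lit 1) .z)))))))))))))))))))))))))))))))))))))))))))))))))))))))))))) (.u (nat_lit 2) (.n (nat_lit 290) (nat_lit 1) (.n (nat_lit 327) (nat_lit 3) (.p (nat_lit 328) (nat_lit 12) (.p (nat_lit 329) (nat_lit 3) (.n (nat_lit 330) (nat_lit 6) (.n (nat_lit 331) (nat_lit 10) (.n (nat_lit 332) (nat_lit 2) (.n (nat_lit 333) (nat_lit 3) (.n (nat_lit 334) (nat_lit 3) (.n (nat_lit 335) (nat_lit 8) (.p (nat_lit 336) (nat_lit 7) (.p (nat_lit 337) (nat_lit 2) (.n (nat_lit 338) (nat_lit 1) (.p (nat_lit 339) (nat_lit 7) (.n (nat_lit 341) (nat_lit 9) (.p (nat_lit 342) (nat_lit 5) (.p (nat_lit 343)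 (nat_lit 14) (.n (nat_lit 344) (nat_lit 9) (.p (nat_lit 345) (nat_lit 6) (.p (nat_lit 346) (nat_lit 2) (.p (nat_lit 347) (nat_lit 11) (.n (nat_lit 348) (nat_lit 10) (.n (nat_lit 349) (nat_lit 8) (.n (nat_lit 350) (nat_lit 1) (.n (nat_lit 351) (nat_lit 12) (.p (nat_lit 353) (nat_lit 9) (.n (nat_lit 354) (nat_lit 8) (.p (nat_lit 355) (nat_lit 1) (.p (nat_lit 356) (nat_lit 1) (.p (nat_lit 357) (nat_lit 1) (.n (nat_lit 358) (nat_lit 7) (.n (nat_lit 359) (nat_lit 5) (.p (nat_lit 360) (nat_lit 12) (.n (nat_lit 361) (nat_lit 8) (.p (nat_lit 362) (nat_lit 6) (.n (nat_lit 363) (nat_lit 4) (.n (nat_lit 364) (nat_lit 1) (.n (nat_lit 365) (nat_lit 5) (.p (nat_lit 366) (nat_lit 6) (.p (nat_lit 367) (nat_lit 3) (.p (nat_lit 368) (nat_lit 4) (.p (nat_lit 369) (nat_lit 2) (.p (nat_lit 370) (nat_lit 2) (.n (nat_lit 371) (nat_lit 8) (.p (nat_lit 372) (nat_lit 2) (.p (nat_lit 373) (nat_lit 2) (.n (nat_lit 374) (nat_lit 2) (.p (nat_lit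 375) (nat_lit 10) (.p (nat_lit 376) (nat_lit 12) (.n (nat_lit 377) (nat_lit 9) (.p (nat_lit 378) (nat_lit 6) (.p (nat_lit 379) (nat_lit 4) (.p (nat_lit 380) (nat_lit 4) (.n (nat_lit 381) (nat_lit 4) (.n (nat_lit 382) (nat_lit 3) (.n (nat_lit 383) (nat_lit 8) (.p (nat_lit 384) (nat_lit 2) (.p (nat_lit 385) (nat_lit 7) (.p (nat_lit 386) (nat_lit 1) (.n (nat_lit 387) (nat_lit 8) .z)))))))))))))))))))))))))))))))))))))))))))))))))))))))))))) (.u (nat_lit 2) (.p (nat_lit 388) (nat_lit 9) (.p (nat_lit 389) (nat_lit 1) (.n (nat_lit 393) (nat_lit 1) (.p (nat_lit 394) (nat_lit 4) (.p (nat_lit 395) (nat_lit 7) (.n (nat_lit 397) (nat_lit 2) (.n (nat_lit 398) (nat_lit 2) (.p (nat_lit 399) (nat_lit 2) (.n (nat_lit 401) (nat_lit 8) (.n (nat_lit 402) (nat_lit 5) (.n (nat_lit 403) (nat_lit 3) (.n (nat_lit 405) (nat_lit 3) (.p (nat_lit 406) (nat_lit 1) (.n (nat_lit 407) (nat_lit 6) (.p (nat_lit 408) (nat_lit 14) (.n (nat_lit 409)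 (nat_lit 4) (.p (nat_lit 410) (nat_lit 3) (.n (nat_lit 411) (nat_lit 4) (.p (nat_lit 412) (nat_lit 1) (.p (nat_lit 413) (nat_lit 2) (.p (nat_lit 414) (nat_lit 9) (.p (nat_lit 415) (nat_lit 1) (.p (nat_lit 416) (nat_lit 4) (.n (nat_lit 417) (nat_lit 8) (.p (nat_lit 418) (nat_lit 4) (.n (nat_lit 419) (nat_lit 11) (.n (nat_lit 420) (nat_lit 8) (.n (nat_lit 421) (nat_lit 1) (.n (nat_lit 422) (nat_lit 2) (.p (nat_lit 423) (nat_lit 3) (.p (nat_lit 424) (nat_lit 2) (.p (nat_lit 425) (nat_lit 4) (.n (nat_lit 427) (nat_lit 2) (.n (nat_lit 428) (nat_lit 5) (.n (nat_lit 429) (nat_lit 2) (.p (nat_lit 431) (nat_lit 5) (.p (nat_lit 432) (nat_lit 4) (.p (nat_lit 434) (nat_lit 4) .z)))))))))))))))))))))))))))))))))))))) .nil)))))))))))))))))))))))))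

noncomputable def dC1d_i192 : IL := (.e false (nat_lit 2) (nat_lit 307) (nat_lit 0) (nat_lit 19) (.e true (nat_lit 2) (nat_lit 77) (nat_lit 13) (nat_lit 8) (.e false (nat_lit 2) (nat_lit 78) (nat_lit 13) (nat_lit 8) (.e false (nat_lit 3) (nat_lit 262) (nat_lit 1) (nat_lit 18) (.e false (nat_lit 2) (nat_lit 264) (nat_lit 1) (nat_lit 18) (.e true (nat_lit 1) (nat_lit 265) (nat_lit 1) (nat_lit 18) (.e true (nat_lit 1) (nat_lit 266) (nat_lit 1) (nat_lit 18) (.e true (nat_lit 3) (nat_lit 267) (nat_lit 1) (nat_lit 18) (.e false (nat_lit 2) (nat_lit 269) (nat_lit 1) (nat_lit 18) (.e false (nat_lit 3) (nat_lit 278) (nat_lit 1) (nat_lit 18) (.e false (nat_lit 2) (nat_lit 281) (nat_lit 1) (nat_lit 18) (.e false (nat_lit 1) (nat_lit 286) (nat_lit 1) (nat_lit 18) (.e true (nat_lit 2) (nat_lit 288) (nat_lit 1) (nat_lit 18) (.e true (nat_lit 2) (nat_lit 268) (nat_lit 1) (nat_lit 18) (.e true (nat_lit 1) (nat_lit 279) (nat_lit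 1) (nat_lit 18) (.e false (nat_lit 2) (nat_lit 251) (nat_lit 2) (nat_lit 17) (.e false (nat_lit 1) (nat_lit 136) (nat_lit 5) (nat_lit 14) (.e true (nat_lit 3) (nat_lit 143) (nat_lit 5) (nat_lit 14) (.e true (nat_lit 3) (nat_lit 292) (nat_lit 0) (nat_lit 19) (.e false (nat_lit 2) (nat_lit 293) (nat_lit 0) (nat_lit 19) (.e true (nat_lit 2) (nat_lit 294) (nat_lit 0) (nat_lit 19) (.e true (nat_lit 2) (nat_lit 295) (nat_lit 0) (nat_lit 19) (.e true (nat_lit 1) (nat_lit 296) (nat_lit 0) (nat_lit 19) (.e false (nat_lit 1) (nat_lit 298) (nat_lit 0) (nat_lit 19) (.e false (nat_lit 1) (nat_lit 299) (nat_lit 0) (nat_lit 19) dC1d_i191)))))))))))))))))))))))))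

noncomputable def dC1d_i193 : IL := (.e false (nat_lit 1) (nat_lit 213) (nat_lit 2) (nat_lit 17) (.e true (nat_lit 1) (nat_lit 214) (nat_lit 2) (nat_lit 17) (.e false (nat_lit 2) (nat_lit 216) (nat_lit 2) (nat_lit 17) (.e true (nat_lit 1) (nat_lit 217) (nat_lit 2) (nat_lit 17) (.e false (nat_lit 1) (nat_lit 218) (nat_lit 2) (nat_lit 17) (.e true (nat_lit 2) (nat_lit 222) (nat_lit 2) (nat_lit 17) (.e false (nat_lit 2) (nat_lit 223) (nat_lit 2) (nat_lit 17) (.e false (nat_lit 1) (nat_lit 224) (nat_lit 2) (nat_lit 17) (.e true (nat_lit 3) (nat_lit 225) (nat_lit 2) (nat_lit 17) (.e false (nat_lit 1) (nat_lit 227) (nat_lit 2) (nat_lit 17) (.e false (nat_lit 2) (nat_lit 228) (nat_lit 2) (nat_lit 17) (.e false (nat_lit 2) (nat_lit 229) (nat_lit 2) (nat_lit 17) (.e true (nat_lit 2) (nat_lit 230) (nat_lit 2) (nat_lit 17) (.e false (nat_lit 3) (nat_lit 235) (nat_lit 2) (nat_lit 17) (.e false (nat_lit 2) (nat_lit 236) (nat_lit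 2) (nat_lit 17) (.e true (nat_lit 3) (nat_lit 242) (nat_lit 2) (nat_lit 17) (.e false (nat_lit 2) (nat_lit 244) (nat_lit 2) (nat_lit 17) (.e true (nat_lit 1) (nat_lit 245) (nat_lit 2) (nat_lit 17) (.e true (nat_lit 2) (nat_lit 248) (nat_lit 2) (nat_lit 17) (.e false (nat_lit 3) (nat_lit 212) (nat_lit 2) (nat_lit 17) (.e true (nat_lit 3) (nat_lit 219) (nat_lit 2) (nat_lit 17) (.e true (nat_lit 1) (nat_lit 234) (nat_lit 2) (nat_lit 17) (.e false (nat_lit 2) (nat_lit 237) (nat_lit 2) (nat_lit 17) (.e false (nat_lit 3) (nat_lit 232) (nat_lit 2) (nat_lit 17) (.e false (nat_lit 3) (nat_lit 215) (nat_lit 2) (nat_lit 17) dC1d_i192)))))))))))))))))))))))))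

noncomputable def dC1d_i194 : IL := (.s false (nat_lit 1) (nat_lit 67) (nat_lit 0) (nat_lit 2) (nat_lit 2) true (nat_lit 15) true (nat_lit 17) false (nat_lit 7) true (nat_lit 19) true (nat_lit 17) (.s true (nat_lit 1) (nat_lit 69) (nat_lit 0) (nat_lit 2) (nat_lit 2) true (nat_lit 15) true (nat_lit 17) false (nat_lit 7) true (nat_lit 19) true (nat_lit 17) (.s false (nat_lit 2) (nat_lit 74) (nat_lit 0) (nat_lit 2) (nat_lit 2) true (nat_lit 15) true (nat_lit 17) false (nat_lit 7) true (nat_lit 19) true (nat_lit 17) (.s true (nat_lit 2) (nat_lit 66) (nat_lit 2) (nat_lit 0) (nat_lit 2) true (nat_lit 13) true (nat_lit 17) false (nat_lit 7) true (nat_lit 17) true (nat_lit 19) (.s true (nat_lit 3) (nat_lit 66) (nat_lit 2) (nat_lit 2) (nat_lit 0) true (nat_lit 15) true (nat_lit 19) false (nat_lit 7) true (nat_lit 17) true (nat_lit 17) (.s true (nat_lit 1) (nat_lit 67) (nat_lit 2) (nat_lit 2) (nat_lit 0) true (nat_lit 15)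 true (nat_lit 19) false (nat_lit 7) true (nat_lit 17) true (nat_lit 17) (.s false (nat_lit 1) (nat_lit 69) (nat_lit 2) (nat_lit 2) (nat_lit 0) true (nat_lit 15) true (nat_lit 19) false (nat_lit 7) true (nat_lit 17) true (nat_lit 17) (.s true (nat_lit 2) (nat_lit 73) (nat_lit 2) (nat_lit 2) (nat_lit 0) true (nat_lit 15) true (nat_lit 19) false (nat_lit 7) true (nat_lit 17) true (nat_lit 17) (.s true (nat_lit 3) (nat_lit 77) (nat_lit 1) (nat_lit 1) (nat_lit 2) true (nat_lit 14) true (nat_lit 17) false (nat_lit 8) true (nat_lit 18) true (nat_lit 18) (.s true (nat_lit 1) (nat_lit 78) (nat_lit 1) (nat_lit 1) (nat_lit 2) true (nat_lit 14) true (nat_lit 17) false (nat_lit 8) true (nat_lit 18) true (nat_lit 18) (.s false (nat_lit 1) (nat_lit 80) (nat_lit 1) (nat_lit 1) (nat_lit 2) true (nat_lit 14) true (nat_lit 17) false (nat_lit 8) true (nat_lit 18) true (nat_lit 18) (.s false (nat_lit 2) (nat_lit 79) (nat_lit 1) (nat_lit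 2) (nat_lit 1) false (nat_lit 21) true (nat_lit 18) false (nat_lit 8) true (nat_lit 18) true (nat_lit 17) (.s true (nat_lit 3) (nat_lit 81) (nat_lit 1) (nat_lit 2) (nat_lit 1) false (nat_lit 21) true (nat_lit 18) false (nat_lit 8) true (nat_lit 18) true (nat_lit 17) (.s false (nat_lit 1) (nat_lit 80) (nat_lit 2) (nat_lit 1) (nat_lit 1) true (nat_lit 14) true (nat_lit 18) false (nat_lit 8) true (nat_lit 17) true (nat_lit 18) (.s false (nat_lit 2) (nat_lit 93) (nat_lit 0) (nat_lit 2) (nat_lit 0) false (nat_lit 20) true (nat_lit 19) false (nat_lit 10) true (nat_lit 19) true (nat_lit 17) (.s false (nat_lit 2) (nat_lit 95) (nat_lit 0) (nat_lit 2) (nat_lit 0) false (nat_lit 20) true (nat_lit 19) false (nat_lit 10) true (nat_lit 19) true (nat_lit 17) (.s true (nat_lit 2) (nat_lit 97) (nat_lit 0) (nat_lit 2) (nat_lit 0) false (nat_lit 20) true (nat_lit 19) false (nat_lit 10) true (nat_lit 19) true (nat_lit 17) (.s false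 (nat_lit 1) (nat_lit 98) (nat_lit 0) (nat_lit 1) (nat_lit 1) true (nat_lit 16) true (nat_lit 18) false (nat_lit 11) true (nat_lit 19) true (nat_lit 18) (.s false (nat_lit 2) (nat_lit 99) (nat_lit 1) (nat_lit 0) (nat_lit 1) false (nat_lit 21) true (nat_lit 18) false (nat_lit 11) true (nat_lit 18) true (nat_lit 19) (.s false (nat_lit 2) (nat_lit 101) (nat_lit 1) (nat_lit 0) (nat_lit 1) false (nat_lit 21) true (nat_lit 18) false (nat_lit 11) true (nat_lit 18) true (nat_lit 19) (.s false (nat_lit 1) (nat_lit 98) (nat_lit 1) (nat_lit 1) (nat_lit 0) true (nat_lit 16) true (nat_lit 19) false (nat_lit 11) true (nat_lit 18) true (nat_lit 18) (.s true (nat_lit 1) (nat_lit 102) (nat_lit 0) (nat_lit 1) (nat_lit 0) false (nat_lit 20) true (nat_lit 19) false (nat_lit 12) true (nat_lit 19) true (nat_lit 18) (.s true (nat_lit 1) (nat_lit 103) (nat_lit 0) (nat_lit 1) (nat_lit 0) false (nat_lit 20) true (nat_lit 19) false (nat_lit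 12) true (nat_lit 19) true (nat_lit 18) (.s true (nat_lit 3) (nat_lit 104) (nat_lit 0) (nat_lit 1) (nat_lit 0) false (nat_lit 20) true (nat_lit 19) false (nat_lit 12) true (nat_lit 19) true (nat_lit 18) (.s true (nat_lit 2) (nat_lit 105) (nat_lit 0) (nat_lit 1) (nat_lit 0) false (nat_lit 20) true (nat_lit 19) false (nat_lit 12) true (nat_lit 19) true (nat_lit 18) dC1d_i193)))))))))))))))))))))))))

noncomputable def dC1d_i195 : IL := (.s true (nat_lit 1) (nat_lit 24) (nat_lit 0) (nat_lit 2) (nat_lit 6) true (nat_lit 7) true (nat_lit 13) true (nat_lit 2) true (nat_lit 19) true (nat_lit 17) (.s true (nat_lit 1) (nat_lit 24) (nat_lit 2) (nat_lit 2) (nat_lit 4) true (nat_lit 7) true (nat_lit 15) true (nat_lit 2) true (nat_lit 17) true (nat_lit 17) (.s false (nat_lit 2) (nat_lit 24) (nat_lit 2) (nat_lit 6) (nat_lit 0) true (nat_lit 15) true (nat_lit 19) true (nat_lit 2) true (nat_lit 17) true (nat_lit 13) (.s false (nat_lit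 1) (nat_lit 24) (nat_lit 4) (nat_lit 2) (nat_lit 2) true (nat_lit 7) true (nat_lit 17) true (nat_lit 2) true (nat_lit 15) true (nat_lit 17) (.s true (nat_lit 1) (nat_lit 28) (nat_lit 1) (nat_lit 5) (nat_lit 2) true (nat_lit 14) true (nat_lit 17) true (nat_lit 1) true (nat_lit 18) true (nat_lit 14) (.s false (nat_lit 1) (nat_lit 37) (nat_lit 0) (nat_lit 2) (nat_lit 4) true (nat_lit 10) true (nat_lit 15) false (nat_lit 1) true (nat_lit 19) true (nat_lit 17) (.s false (nat_lit 2) (nat_lit 37) (nat_lit 6) (nat_lit 0) (nat_lit 0) true (nat_lit 7) true (nat_lit 19) false (nat_lit 1) true (nat_lit 13) true (nat_lit 19) (.s false (nat_lit 3) (nat_lit 48) (nat_lit 2) (nat_lit 2) (nat_lit 2) true (nat_lit 13) true (nat_lit 17) false (nat_lit 5) true (nat_lit 17) true (nat_lit 17) (.s false (nat_lit 3) (nat_lit 49) (nat_lit 2) (nat_lit 2) (nat_lit 2) true (nat_lit 13) true (nat_lit 17) false (nat_lit 5) true (nat_lit 17) true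 (nat_lit 17) (.s true (nat_lit 2) (nat_lit 54) (nat_lit 2) (nat_lit 2) (nat_lit 2) true (nat_lit 13) true (nat_lit 17) false (nat_lit 5) true (nat_lit 17) true (nat_lit 17) (.s false (nat_lit 3) (nat_lit 55) (nat_lit 1) (nat_lit 2) (nat_lit 2) true (nat_lit 14) true (nat_lit 17) false (nat_lit 6) true (nat_lit 18) true (nat_lit 17) (.s true (nat_lit 2) (nat_lit 56) (nat_lit 1) (nat_lit 2) (nat_lit 2) true (nat_lit 14) true (nat_lit 17) false (nat_lit 6) true (nat_lit 18) true (nat_lit 17) (.s true (nat_lit 1) (nat_lit 57) (nat_lit 1) (nat_lit 2) (nat_lit 2) true (nat_lit 14) true (nat_lit 17) false (nat_lit 6) true (nat_lit 18) true (nat_lit 17) (.s true (nat_lit 3) (nat_lit 59) (nat_lit 1) (nat_lit 2) (nat_lit 2) true (nat_lit 14) true (nat_lit 17) false (nat_lit 6) true (nat_lit 18) true (nat_lit 17) (.s true (nat_lit 3) (nat_lit 60) (nat_lit 1) (nat_lit 2) (nat_lit 2) true (nat_lit 14) true (nat_lit 17) false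 (nat_lit 6) true (nat_lit 18) true (nat_lit 17) (.s true (nat_lit 3) (nat_lit 61) (nat_lit 1) (nat_lit 2) (nat_lit 2) true (nat_lit 14) true (nat_lit 17) false (nat_lit 6) true (nat_lit 18) true (nat_lit 17) (.s true (nat_lit 1) (nat_lit 62) (nat_lit 1) (nat_lit 2) (nat_lit 2) true (nat_lit 14) true (nat_lit 17) false (nat_lit 6) true (nat_lit 18) true (nat_lit 17) (.s true (nat_lit 1) (nat_lit 63) (nat_lit 1) (nat_lit 2) (nat_lit 2) true (nat_lit 14) true (nat_lit 17) false (nat_lit 6) true (nat_lit 18) true (nat_lit 17) (.s false (nat_lit 3) (nat_lit 64) (nat_lit 1) (nat_lit 2) (nat_lit 2) true (nat_lit 14) true (nat_lit 17) false (nat_lit 6) true (nat_lit 18) true (nat_lit 17) (.s false (nat_lit 1) (nat_lit 65) (nat_lit 1) (nat_lit 2) (nat_lit 2) true (nat_lit 14) true (nat_lit 17) false (nat_lit 6) true (nat_lit 18) true (nat_lit 17) (.s true (nat_lit 1) (nat_lit 55) (nat_lit 2) (nat_lit 1) (nat_lit 2) true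 (nat_lit 13) true (nat_lit 17) false (nat_lit 6) true (nat_lit 17) true (nat_lit 18) (.s true (nat_lit 1) (nat_lit 56) (nat_lit 2) (nat_lit 1) (nat_lit 2) true (nat_lit 13) true (nat_lit 17) false (nat_lit 6) true (nat_lit 17) true (nat_lit 18) (.s false (nat_lit 3) (nat_lit 65) (nat_lit 2) (nat_lit 1) (nat_lit 2) true (nat_lit 13) true (nat_lit 17) false (nat_lit 6) true (nat_lit 17) true (nat_lit 18) (.s false (nat_lit 1) (nat_lit 56) (nat_lit 2) (nat_lit 2) (nat_lit 1) true (nat_lit 14) true (nat_lit 18) false (nat_lit 6) true (nat_lit 17) true (nat_lit 17) (.s true (nat_lit 3) (nat_lit 66) (nat_lit 0) (nat_lit 2) (nat_lit 2) true (nat_lit 15) true (nat_lit 17) false (nat_lit 7) true (nat_lit 19) true (nat_lit 17) dC1d_i194)))))))))))))))))))))))))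

noncomputable def dC1d_i196 : IL := (.s false (nat_lit 2) (nat_lit 7) (nat_lit 6) (nat_lit 5) (nat_lit 2) true (nat_lit 5) true (nat_lit 17) true (nat_lit 12) true (nat_lit 13) true (nat_lit 14) (.s true (nat_lit 1) (nat_lit 8) (nat_lit 2) (nat_lit 4) (nat_lit 6) true (nat_lit 5) true (nat_lit 13) true (nat_lit 11) true (nat_lit 17) true (nat_lit 15) (.s false (nat_lit 3) (nat_lit 8) (nat_lit 4) (nat_lit 6) (nat_lit 2) true (nat_lit 7) true (nat_lit 17) true (nat_lit 11) true (nat_lit 15) true (nat_lit 13) (.s false (nat_lit 2) (nat_lit 8) (nat_lit 6) (nat_lit 0) (nat_lit 6) false (nat_lit 4) true (nat_lit 13) true (nat_lit 11) true (nat_lit 13) true (nat_lit 19) (.s false (nat_lit 3) (nat_lit 9) (nat_lit 1) (nat_lit 6) (nat_lit 5) true (nat_lit 8) true (nat_lit 14) true (nat_lit 10) true (nat_lit 18) true (nat_lit 13) (.s true (nat_lit 1) (nat_lit 9) (nat_lit 5) (nat_lit 5) (nat_lit 2) true (nat_lit 6) true (nat_lit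 17) true (nat_lit 10) true (nat_lit 14) true (nat_lit 14) (.s false (nat_lit 3) (nat_lit 13) (nat_lit 2) (nat_lit 9) (nat_lit 2) true (nat_lit 13) true (nat_lit 17) true (nat_lit 8) true (nat_lit 17) true (nat_lit 10) (.s true (nat_lit 1) (nat_lit 14) (nat_lit 2) (nat_lit 2) (nat_lit 8) true (nat_lit 2) true (nat_lit 11) true (nat_lit 7) true (nat_lit 17) true (nat_lit 17) (.s false (nat_lit 1) (nat_lit 15) (nat_lit 2) (nat_lit 8) (nat_lit 2) true (nat_lit 13) true (nat_lit 17) true (nat_lit 7) true (nat_lit 17) true (nat_lit 11) (.s true (nat_lit 2) (nat_lit 15) (nat_lit 8) (nat_lit 2) (nat_lit 2) true (nat_lit 2) true (nat_lit 17) true (nat_lit 7) true (nat_lit 11) true (nat_lit 17) (.s false (nat_lit 1) (nat_lit 14) (nat_lit 13) (nat_lit 0) (nat_lit 2) false (nat_lit 1) true (nat_lit 17) true (nat_lit 7) true (nat_lit 8) true (nat_lit 19) (.s false (nat_lit 1) (nat_lit 15) (nat_lit 13) (nat_lit 0) (nat_lit 2)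 false (nat_lit 1) true (nat_lit 17) true (nat_lit 7) true (nat_lit 8) true (nat_lit 19) (.s false (nat_lit 1) (nat_lit 16) (nat_lit 2) (nat_lit 7) (nat_lit 2) true (nat_lit 13) true (nat_lit 17) true (nat_lit 6) true (nat_lit 17) true (nat_lit 12) (.s false (nat_lit 1) (nat_lit 16) (nat_lit 7) (nat_lit 2) (nat_lit 2) true (nat_lit 3) true (nat_lit 17) true (nat_lit 6) true (nat_lit 12) true (nat_lit 17) (.s true (nat_lit 1) (nat_lit 18) (nat_lit 0) (nat_lit 2) (nat_lit 8) true (nat_lit 4) true (nat_lit 11) true (nat_lit 5) true (nat_lit 19) true (nat_lit 17) (.s false (nat_lit 2) (nat_lit 18) (nat_lit 1) (nat_lit 1) (nat_lit 9) true (nat_lit 3) true (nat_lit 10) true (nat_lit 5) true (nat_lit 18) true (nat_lit 18) (.s false (nat_lit 2) (nat_lit 18) (nat_lit 1) (nat_lit 2) (nat_lit 7) true (nat_lit 4) true (nat_lit 12) true (nat_lit 5) true (nat_lit 18) true (nat_lit 17) (.s true (nat_lit 3) (nat_lit 18) (nat_lit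 8) (nat_lit 2) (nat_lit 0) true (nat_lit 4) true (nat_lit 19) true (nat_lit 5) true (nat_lit 11) true (nat_lit 17) (.s true (nat_lit 3) (nat_lit 18) (nat_lit 9) (nat_lit 1) (nat_lit 1) true (nat_lit 3) true (nat_lit 18) true (nat_lit 5) true (nat_lit 10) true (nat_lit 18) (.s true (nat_lit 3) (nat_lit 19) (nat_lit 2) (nat_lit 6) (nat_lit 2) true (nat_lit 13) true (nat_lit 17) true (nat_lit 4) true (nat_lit 17) true (nat_lit 13) (.s false (nat_lit 1) (nat_lit 21) (nat_lit 1) (nat_lit 2) (nat_lit 6) true (nat_lit 6) true (nat_lit 13) true (nat_lit 3) true (nat_lit 18) true (nat_lit 17) (.s true (nat_lit 2) (nat_lit 21) (nat_lit 1) (nat_lit 6) (nat_lit 2) true (nat_lit 14) true (nat_lit 17) true (nat_lit 3) true (nat_lit 18) true (nat_lit 13) (.s false (nat_lit 1) (nat_lit 21) (nat_lit 2) (nat_lit 2) (nat_lit 5) true (nat_lit 6) true (nat_lit 14) true (nat_lit 3) true (nat_lit 17) true (nat_lit 17) (.s true (nat_lit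 3) (nat_lit 20) (nat_lit 2) (nat_lit 5) (nat_lit 2) true (nat_lit 13) true (nat_lit 17) true (nat_lit 3) true (nat_lit 17) true (nat_lit 14) (.s false (nat_lit 2) (nat_lit 20) (nat_lit 5) (nat_lit 2) (nat_lit 2) true (nat_lit 6) true (nat_lit 17) true (nat_lit 3) true (nat_lit 14) true (nat_lit 17) dC1d_i195)))))))))))))))))))))))))

noncomputable def dC1d_i197 : IL := (.e true (nat_lit 1) (nat_lit 261) (nat_lit 1) (nat_lit 18) (.e false (nat_lit 1) (nat_lit 262) (nat_lit 1) (nat_lit 18) (.e true (nat_lit 2) (nat_lit 263) (nat_lit 1) (nat_lit 18) (.e false (nat_lit 1) (nat_lit 265) (nat_lit 1) (nat_lit 18) (.e false (nat_lit 1) (nat_lit 266) (nat_lit 1) (nat_lit 18) (.e true (nat_lit 3) (nat_lit 267) (nat_lit 1) (nat_lit 18) (.e false (nat_lit 2) (nat_lit 270) (nat_lit 1) (nat_lit 18) (.e false (nat_lit 3) (nat_lit 272) (nat_lit 1) (nat_lit 18) (.e true (nat_lit 1) (nat_lit 273) (nat_lit 1) (nat_lit 18) (.e true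 (nat_lit 1) (nat_lit 274) (nat_lit 1) (nat_lit 18) (.e false (nat_lit 1) (nat_lit 260) (nat_lit 1) (nat_lit 18) (.e false (nat_lit 2) (nat_lit 269) (nat_lit 1) (nat_lit 18) (.e false (nat_lit 2) (nat_lit 271) (nat_lit 1) (nat_lit 18) (.e true (nat_lit 2) (nat_lit 278) (nat_lit 1) (nat_lit 18) (.e false (nat_lit 1) (nat_lit 279) (nat_lit 1) (nat_lit 18) (.e false (nat_lit 2) (nat_lit 281) (nat_lit 1) (nat_lit 18) (.e false (nat_lit 3) (nat_lit 290) (nat_lit 0) (nat_lit 19) (.e true (nat_lit 3) (nat_lit 302) (nat_lit 0) (nat_lit 19) (.e true (nat_lit 2) (nat_lit 305) (nat_lit 0) (nat_lit 19) (.e false (nat_lit 3) (nat_lit 144) (nat_lit 5) (nat_lit 14) (.e true (nat_lit 1) (nat_lit 160) (nat_lit 4) (nat_lit 15) (.u (nat_lit 2) (.p (nat_lit 0) (nat_lit 2) (.p (nat_lit 1) (nat_lit 1) (.p (nat_lit 8) (nat_lit 1) (.n (nat_lit 12) (nat_lit 2) (.n (nat_lit 14) (nat_lit 2) (.p (nat_lit 17) (nat_lit 1) (.p (nat_lit 18) (nat_lit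 1) (.p (nat_lit 19) (nat_lit 1) (.n (nat_lit 27) (nat_lit 1) (.n (nat_lit 28) (nat_lit 1) (.p (nat_lit 29) (nat_lit 1) (.p (nat_lit 30) (nat_lit 1) (.p (nat_lit 31) (nat_lit 1) (.p (nat_lit 32) (nat_lit 1) (.p (nat_lit 33) (nat_lit 1) (.n (nat_lit 34) (nat_lit 1) (.n (nat_lit 35) (nat_lit 1) (.n (nat_lit 37) (nat_lit 2) (.n (nat_lit 40) (nat_lit 1) (.p (nat_lit 41) (nat_lit 1) (.p (nat_lit 49) (nat_lit 1) (.n (nat_lit 50) (nat_lit 1) (.p (nat_lit 54) (nat_lit 1) (.n (nat_lit 55) (nat_lit 1) (.p (nat_lit 57) (nat_lit 1) (.p (nat_lit 71) (nat_lit 2) (.p (nat_lit 72) (nat_lit 2) (.n (nat_lit 73) (nat_lit 1) (.n (nat_lit 74) (nat_lit 1) (.n (nat_lit 75) (nat_lit 2) (.p (nat_lit 76) (nat_lit 2) (.p (nat_lit 77) (nat_lit 1) (.p (nat_lit 78) (nat_lit 1) (.n (nat_lit 80) (nat_lit 1) (.n (nat_lit 83) (nat_lit 1) (.p (nat_lit 85) (nat_lit 1) (.p (nat_lit 86) (nat_lit 1) (.n (nat_lit 89) (nat_lit 2) (.n (nat_lit 90) (nat_lit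 1) (.p (nat_lit 91) (nat_lit 1) (.p (nat_lit 93) (nat_lit 1) (.n (nat_lit 94) (nat_lit 1) (.n (nat_lit 95) (nat_lit 1) (.p (nat_lit 98) (nat_lit 1) (.p (nat_lit 99) (nat_lit 1) (.p (nat_lit 101) (nat_lit 1) (.p (nat_lit 107) (nat_lit 1) (.p (nat_lit 108) (nat_lit 1) (.n (nat_lit 121) (nat_lit 1) (.p (nat_lit 127) (nat_lit 1) (.p (nat_lit 130) (nat_lit 1) (.p (nat_lit 139) (nat_lit 1) (.p (nat_lit 142) (nat_lit 1) (.p (nat_lit 143) (nat_lit 1) (.p (nat_lit 148) (nat_lit 1) (.n (nat_lit 149) (nat_lit 1) (.p (nat_lit 150) (nat_lit 1) (.n (nat_lit 155) (nat_lit 2) (.n (nat_lit 156) (nat_lit 1) (.n (nat_lit 157) (nat_lit 1) .z)))))))))))))))))))))))))))))))))))))))))))))))))))))))))))) (.u (nat_lit 2) (.n (nat_lit 159) (nat_lit 3) (.p (nat_lit 160) (nat_lit 1) (.n (nat_lit 161) (nat_lit 1) (.p (nat_lit 162) (nat_lit 1) (.n (nat_lit 164) (nat_lit 1) (.n (nat_lit 165) (nat_lit 1) (.p (nat_lit 166) (nat_lit 1) (.p (nat_lit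 169) (nat_lit 2) (.p (nat_lit 170) (nat_lit 1) (.n (nat_lit 182) (nat_lit 1) (.p (nat_lit 188) (nat_lit 1) (.p (nat_lit 190) (nat_lit 1) (.n (nat_lit 192) (nat_lit 1) (.p (nat_lit 193) (nat_lit 1) (.p (nat_lit 194) (nat_lit 1) (.n (nat_lit 200) (nat_lit 2) (.p (nat_lit 202) (nat_lit 1) (.n (nat_lit 203) (nat_lit 2) (.n (nat_lit 206) (nat_lit 1) (.p (nat_lit 208) (nat_lit 1) (.p (nat_lit 228) (nat_lit 1) (.p (nat_lit 232) (nat_lit 1) (.n (nat_lit 235) (nat_lit 1) (.n (nat_lit 239) (nat_lit 1) (.n (nat_lit 241) (nat_lit 1) (.n (nat_lit 242) (nat_lit 1) (.p (nat_lit 244) (nat_lit 1) (.p (nat_lit 245) (nat_lit 1) (.p (nat_lit 246) (nat_lit 1) (.n (nat_lit 247) (nat_lit 1) (.n (nat_lit 249) (nat_lit 1) (.n (nat_lit 250) (nat_lit 1) (.p (nat_lit 251) (nat_lit 2) (.n (nat_lit 252) (nat_lit 2) (.n (nat_lit 254) (nat_lit 1) (.n (nat_lit 255) (nat_lit 1) (.n (nat_lit 257) (nat_lit 1) (.n (nat_lit 259) (nat_lit 1) (.p (nat_lit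 260) (nat_lit 1) (.n (nat_lit 261) (nat_lit 1) (.n (nat_lit 263) (nat_lit 1) (.p (nat_lit 266) (nat_lit 1) (.p (nat_lit 267) (nat_lit 1) (.p (nat_lit 270) (nat_lit 1) (.n (nat_lit 274) (nat_lit 1) (.n (nat_lit 275) (nat_lit 1) (.n (nat_lit 277) (nat_lit 1) (.p (nat_lit 278) (nat_lit 2) (.n (nat_lit 279) (nat_lit 1) (.n (nat_lit 281) (nat_lit 1) (.n (nat_lit 282) (nat_lit 1) (.p (nat_lit 283) (nat_lit 1) (.p (nat_lit 288) (nat_lit 1) (.n (nat_lit 291) (nat_lit 1) (.n (nat_lit 294) (nat_lit 1) (.p (nat_lit 304) (nat_lit 1) (.n (nat_lit 311) (nat_lit 1) (.p (nat_lit 313) (nat_lit 2) (.n (nat_lit 315) (nat_lit 1) (.n (nat_lit 316) (nat_lit 2) .z)))))))))))))))))))))))))))))))))))))))))))))))))))))))))))) (.u (nat_lit 2) (.n (nat_lit 318) (nat_lit 1) (.p (nat_lit 319) (nat_lit 2) (.n (nat_lit 320) (nat_lit 4) (.n (nat_lit 321) (nat_lit 7) (.p (nat_lit 322) (nat_lit 1) (.n (nat_lit 323) (nat_lit 1) (.n (nat_lit 324) (nat_lit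 1) (.p (nat_lit 325) (nat_lit 1) (.p (nat_lit 326) (nat_lit 1) (.n (nat_lit 327) (nat_lit 4) (.p (nat_lit 328) (nat_lit 1) (.n (nat_lit 329) (nat_lit 33) (.p (nat_lit 330) (nat_lit 2) (.n (nat_lit 331) (nat_lit 21) (.p (nat_lit 332) (nat_lit 5) (.n (nat_lit 333) (nat_lit 15) (.n (nat_lit 334) (nat_lit 7) (.n (nat_lit 335) (nat_lit 23) (.p (nat_lit 336) (nat_lit 7) (.p (nat_lit 337) (nat_lit 30) (.p (nat_lit 338) (nat_lit 34) (.n (nat_lit 339) (nat_lit 1) (.n (nat_lit 340) (nat_lit 10) (.p (nat_lit 341) (nat_lit 15) (.p (nat_lit 342) (nat_lit 16) (.p (nat_lit 343) (nat_lit 2) (.n (nat_lit 345) (nat_lit 18) (.n (nat_lit 346) (nat_lit 19) (.n (nat_lit 347) (nat_lit 41) (.p (nat_lit 348) (nat_lit 32) (.p (nat_lit 349) (nat_lit 10) (.n (nat_lit 350) (nat_lit 8) (.n (nat_lit 351) (nat_lit 9) (.p (nat_lit 352) (nat_lit 9) (.p (nat_lit 353) (nat_lit 14) (.n (nat_lit 354) (nat_lit 49) (.p (nat_lit 356) (nat_lit 31) (.n (nat_lit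 357) (nat_lit 4) (.p (nat_lit 358) (nat_lit 17) (.p (nat_lit 359) (nat_lit 2) (.p (nat_lit 360) (nat_lit 4) (.p (nat_lit 361) (nat_lit 3) (.n (nat_lit 362) (nat_lit 10) (.n (nat_lit 363) (nat_lit 1) (.n (nat_lit 364) (nat_lit 6) (.n (nat_lit 365) (nat_lit 11) (.n (nat_lit 366) (nat_lit 21) (.p (nat_lit 368) (nat_lit 2) (.p (nat_lit 369) (nat_lit 9) (.n (nat_lit 370) (nat_lit 4) (.p (nat_lit 371) (nat_lit 2) (.p (nat_lit 373) (nat_lit 7) (.n (nat_lit 374) (nat_lit 4) (.n (nat_lit 375) (nat_lit 5) (.p (nat_lit 376) (nat_lit 9) (.p (nat_lit 377) (nat_lit 7) (.n (nat_lit 378) (nat_lit 20) (.p (nat_lit 379) (nat_lit 7) (.n (nat_lit 380) (nat_lit 26) (.n (nat_lit 381) (nat_lit 32) .z)))))))))))))))))))))))))))))))))))))))))))))))))))))))))))) (.u (nat_lit 2) (.n (nat_lit 382) (nat_lit 5) (.n (nat_lit 383) (nat_lit 2) (.p (nat_lit 384) (nat_lit 31) (.n (nat_lit 385) (nat_lit 6) (.n (nat_lit 386) (nat_lit 3) (.p (nat_lit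 387) (nat_lit 11) (.p (nat_lit 388) (nat_lit 3) (.n (nat_lit 389) (nat_lit 29) (.p (nat_lit 390) (nat_lit 1) (.p (nat_lit 392) (nat_lit 24) (.p (nat_lit 393) (nat_lit 13) (.p (nat_lit 394) (nat_lit 11) (.p (nat_lit 395) (nat_lit 16) (.p (nat_lit 396) (nat_lit 1) (.n (nat_lit 397) (nat_lit 16) (.p (nat_lit 398) (nat_lit 5) (.n (nat_lit 399) (nat_lit 10) (.p (nat_lit 400) (nat_lit 1) (.n (nat_lit 401) (nat_lit 6) (.n (nat_lit 403) (nat_lit 6) (.p (nat_lit 404) (nat_lit 12) (.n (nat_lit 405) (nat_lit 4) (.n (nat_lit 406) (nat_lit 12) (.p (nat_lit 407) (nat_lit 4) (.n (nat_lit 408) (nat_lit 26) (.n (nat_lit 409) (nat_lit 16) (.p (nat_lit 410) (nat_lit 3) (.n (nat_lit 411) (nat_lit 16) (.p (nat_lit 412) (nat_lit 18) (.p (nat_lit 413) (nat_lit 6) (.n (nat_lit 414) (nat_lit 4) (.p (nat_lit 415) (nat_lit 5) (.n (nat_lit 416) (nat_lit 20) (.p (nat_lit 417) (nat_lit 2) (.p (nat_lit 418) (nat_lit 2) (.p (nat_lit 419) (nat_lit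 18) (.n (nat_lit 420) (nat_lit 15) (.n (nat_lit 422) (nat_lit 17) (.p (nat_lit 423) (nat_lit 3) (.n (nat_lit 425) (nat_lit 13) (.n (nat_lit 426) (nat_lit 2) (.p (nat_lit 427) (nat_lit 1) (.p (nat_lit 428) (nat_lit 20) (.p (nat_lit 430) (nat_lit 1) (.p (nat_lit 431) (nat_lit 7) (.n (nat_lit 432) (nat_lit 1) (.p (nat_lit 433) (nat_lit 11) (.p (nat_lit 434) (nat_lit 3) .z)))))))))))))))))))))))))))))))))))))))))))))))) .nil)))))))))))))))))))))))))

noncomputable def dC1d_i198 : IL := (.e false (nat_lit 2) (nat_lit 227) (nat_lit 2) (nat_lit 17) (.e false (nat_lit 1) (nat_lit 233) (nat_lit 2) (nat_lit 17) (.e false (nat_lit 1) (nat_lit 244) (nat_lit 2) (nat_lit 17) (.e false (nat_lit 1) (nat_lit 245) (nat_lit 2) (nat_lit 17) (.e false (nat_lit 2) (nat_lit 212) (nat_lit 2) (nat_lit 17) (.e true (nat_lit 3) (nat_lit 219) (nat_lit 2) (nat_lit 17) (.e true (nat_lit 2) (nat_lit 234) (nat_lit 2) (nat_lit 17) (.e false (nat_lit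 1) (nat_lit 232) (nat_lit 2) (nat_lit 17) (.e false (nat_lit 3) (nat_lit 307) (nat_lit 0) (nat_lit 19) (.e true (nat_lit 2) (nat_lit 143) (nat_lit 5) (nat_lit 14) (.e false (nat_lit 1) (nat_lit 291) (nat_lit 0) (nat_lit 19) (.e true (nat_lit 3) (nat_lit 299) (nat_lit 0) (nat_lit 19) (.e false (nat_lit 2) (nat_lit 301) (nat_lit 0) (nat_lit 19) (.e true (nat_lit 3) (nat_lit 304) (nat_lit 0) (nat_lit 19) (.e true (nat_lit 2) (nat_lit 298) (nat_lit 0) (nat_lit 19) (.e true (nat_lit 2) (nat_lit 77) (nat_lit 13) (nat_lit 8) (.e false (nat_lit 2) (nat_lit 292) (nat_lit 0) (nat_lit 19) (.e true (nat_lit 2) (nat_lit 293) (nat_lit 0) (nat_lit 19) (.e false (nat_lit 3) (nat_lit 295) (nat_lit 0) (nat_lit 19) (.e true (nat_lit 1) (nat_lit 296) (nat_lit 0) (nat_lit 19) (.e false (nat_lit 2) (nat_lit 297) (nat_lit 0) (nat_lit 19) (.e true (nat_lit 1) (nat_lit 300) (nat_lit 0) (nat_lit 19) (.e false (nat_lit 2) (nat_lit 309) (nat_lit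 0) (nat_lit 19) (.e false (nat_lit 2) (nat_lit 310) (nat_lit 0) (nat_lit 19) (.e false (nat_lit 2) (nat_lit 316) (nat_lit 0) (nat_lit 19) dC1d_i197)))))))))))))))))))))))))

noncomputable def dC1d_i199 : IL := (.a true (nat_lit 2) (nat_lit 34) (nat_lit 35) (nat_lit 0) (nat_lit 0) (.a true (nat_lit 1) (nat_lit 34) (nat_lit 36) (nat_lit 0) (nat_lit 0) (.a false (nat_lit 3) (nat_lit 36) (nat_lit 36) (nat_lit 0) (nat_lit 0) (.a true (nat_lit 1) (nat_lit 31) (nat_lit 32) (nat_lit 0) (nat_lit 0) (.a false (nat_lit 1) (nat_lit 31) (nat_lit 33) (nat_lit 0) (nat_lit 0) (.a false (nat_lit 2) (nat_lit 31) (nat_lit 34) (nat_lit 0) (nat_lit 0) (.a false (nat_lit 1) (nat_lit 31) (nat_lit 35) (nat_lit 0) (nat_lit 0) (.a true (nat_lit 1) (nat_lit 31) (nat_lit 36) (nat_lit 0) (nat_lit 0) (.a true (nat_lit 2) (nat_lit 32) (nat_lit 32) (nat_lit 0) (nat_lit 0) (.a true (nat_lit 3) (nat_lit 32) (nat_lit 33) (nat_lit 0) (nat_lit 0) (.a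 false (nat_lit 2) (nat_lit 32) (nat_lit 34) (nat_lit 0) (nat_lit 0) (.a true (nat_lit 3) (nat_lit 32) (nat_lit 35) (nat_lit 0) (nat_lit 0) (.a false (nat_lit 3) (nat_lit 32) (nat_lit 36) (nat_lit 0) (nat_lit 0) (.a true (nat_lit 2) (nat_lit 33) (nat_lit 33) (nat_lit 0) (nat_lit 0) (.a true (nat_lit 2) (nat_lit 33) (nat_lit 34) (nat_lit 0) (nat_lit 0) (.a false (nat_lit 3) (nat_lit 33) (nat_lit 35) (nat_lit 0) (nat_lit 0) (.a true (nat_lit 3) (nat_lit 33) (nat_lit 36) (nat_lit 0) (nat_lit 0) (.a true (nat_lit 3) (nat_lit 35) (nat_lit 36) (nat_lit 0) (nat_lit 0) (.e true (nat_lit 3) (nat_lit 213) (nat_lit 2) (nat_lit 17) (.e true (nat_lit 3) (nat_lit 214) (nat_lit 2) (nat_lit 17) (.e true (nat_lit 1) (nat_lit 216) (nat_lit 2) (nat_lit 17) (.e false (nat_lit 3) (nat_lit 217) (nat_lit 2) (nat_lit 17) (.e false (nat_lit 2) (nat_lit 218) (nat_lit 2) (nat_lit 17) (.e false (nat_lit 1) (nat_lit 221) (nat_lit 2) (nat_lit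 17) (.e false (nat_lit 3) (nat_lit 224) (nat_lit 2) (nat_lit 17) dC1d_i198)))))))))))))))))))))))))

noncomputable def dC1d_i200 : IL := (.s true (nat_lit 3) (nat_lit 82) (nat_lit 1) (nat_lit 2) (nat_lit 0) true (nat_lit 16) true (nat_lit 19) false (nat_lit 9) true (nat_lit 18) true (nat_lit 17) (.s true (nat_lit 1) (nat_lit 83) (nat_lit 1) (nat_lit 2) (nat_lit 0) true (nat_lit 16) true (nat_lit 19) false (nat_lit 9) true (nat_lit 18) true (nat_lit 17) (.s true (nat_lit 2) (nat_lit 84) (nat_lit 1) (nat_lit 2) (nat_lit 0) true (nat_lit 16) true (nat_lit 19) false (nat_lit 9) true (nat_lit 18) true (nat_lit 17) (.s false (nat_lit 1) (nat_lit 86) (nat_lit 1) (nat_lit 2) (nat_lit 0) true (nat_lit 16) true (nat_lit 19) false (nat_lit 9) true (nat_lit 18) true (nat_lit 17) (.s true (nat_lit 2) (nat_lit 87) (nat_lit 1) (nat_lit 2) (nat_lit 0) true (nat_lit 16) true (nat_lit 19) false (nat_lit 9) true (nat_lit 18) true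 (nat_lit 17) (.s false (nat_lit 3) (nat_lit 90) (nat_lit 1) (nat_lit 2) (nat_lit 0) true (nat_lit 16) true (nat_lit 19) false (nat_lit 9) true (nat_lit 18) true (nat_lit 17) (.s false (nat_lit 1) (nat_lit 92) (nat_lit 1) (nat_lit 2) (nat_lit 0) true (nat_lit 16) true (nat_lit 19) false (nat_lit 9) true (nat_lit 18) true (nat_lit 17) (.s true (nat_lit 1) (nat_lit 82) (nat_lit 2) (nat_lit 1) (nat_lit 0) true (nat_lit 15) true (nat_lit 19) false (nat_lit 9) true (nat_lit 17) true (nat_lit 18) (.s true (nat_lit 1) (nat_lit 83) (nat_lit 2) (nat_lit 1) (nat_lit 0) true (nat_lit 15) true (nat_lit 19) false (nat_lit 9) true (nat_lit 17) true (nat_lit 18) (.s true (nat_lit 1) (nat_lit 90) (nat_lit 2) (nat_lit 1) (nat_lit 0) true (nat_lit 15) true (nat_lit 19) false (nat_lit 9) true (nat_lit 17) true (nat_lit 18) (.s true (nat_lit 2) (nat_lit 93) (nat_lit 0) (nat_lit 2) (nat_lit 0) false (nat_lit 20) true (nat_lit 19) false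 (nat_lit 10) true (nat_lit 19) true (nat_lit 17) (.s false (nat_lit 2) (nat_lit 95) (nat_lit 0) (nat_lit 2) (nat_lit 0) false (nat_lit 20) true (nat_lit 19) false (nat_lit 10) true (nat_lit 19) true (nat_lit 17) (.s true (nat_lit 2) (nat_lit 96) (nat_lit 0) (nat_lit 2) (nat_lit 0) false (nat_lit 20) true (nat_lit 19) false (nat_lit 10) true (nat_lit 19) true (nat_lit 17) (.s true (nat_lit 3) (nat_lit 97) (nat_lit 0) (nat_lit 2) (nat_lit 0) false (nat_lit 20) true (nat_lit 19) false (nat_lit 10) true (nat_lit 19) true (nat_lit 17) (.s true (nat_lit 1) (nat_lit 100) (nat_lit 1) (nat_lit 0) (nat_lit 1) false (nat_lit 21) true (nat_lit 18) false (nat_lit 11) true (nat_lit 18) true (nat_lit 19) (.s false (nat_lit 3) (nat_lit 101) (nat_lit 1) (nat_lit 0) (nat_lit 1) false (nat_lit 21) true (nat_lit 18) false (nat_lit 11) true (nat_lit 18) true (nat_lit 19) (.s true (nat_lit 1) (nat_lit 99) (nat_lit 1) (nat_lit 1) (nat_lit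 0) true (nat_lit 16) true (nat_lit 19) false (nat_lit 11) true (nat_lit 18) true (nat_lit 18) (.s false (nat_lit 1) (nat_lit 100) (nat_lit 1) (nat_lit 1) (nat_lit 0) true (nat_lit 16) true (nat_lit 19) false (nat_lit 11) true (nat_lit 18) true (nat_lit 18) (.s true (nat_lit 3) (nat_lit 104) (nat_lit 0) (nat_lit 0) (nat_lit 1) true (nat_lit 16) true (nat_lit 18) false (nat_lit 12) true (nat_lit 19) true (nat_lit 19) (.s true (nat_lit 2) (nat_lit 105) (nat_lit 0) (nat_lit 0) (nat_lit 1) true (nat_lit 16) true (nat_lit 18) false (nat_lit 12) true (nat_lit 19) true (nat_lit 19) (.s true (nat_lit 2) (nat_lit 102) (nat_lit 0) (nat_lit 1) (nat_lit 0) false (nat_lit 20) true (nat_lit 19) false (nat_lit 12) true (nat_lit 19) true (nat_lit 18) (.s true (nat_lit 1) (nat_lit 104) (nat_lit 0) (nat_lit 1) (nat_lit 0) false (nat_lit 20) true (nat_lit 19) false (nat_lit 12) true (nat_lit 19) true (nat_lit 18) (.s false (nat_lit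 2) (nat_lit 105) (nat_lit 0) (nat_lit 1) (nat_lit 0) false (nat_lit 20) true (nat_lit 19) false (nat_lit 12) true (nat_lit 19) true (nat_lit 18) (.a false (nat_lit 1) (nat_lit 31) (nat_lit 31) (nat_lit 0) (nat_lit 0) (.a false (nat_lit 2) (nat_lit 34) (nat_lit 34) (nat_lit 0) (nat_lit 0) dC1d_i199)))))))))))))))))))))))))

noncomputable def dC1d_i201 : IL := (.s true (nat_lit 1) (nat_lit 67) (nat_lit 2) (nat_lit 2) (nat_lit 0) true (nat_lit 15) true (nat_lit 19) false (nat_lit 7) true (nat_lit 17) true (nat_lit 17) (.s false (nat_lit 1) (nat_lit 68) (nat_lit 2) (nat_lit 2) (nat_lit 0) true (nat_lit 15) true (nat_lit 19) false (nat_lit 7) true (nat_lit 17) true (nat_lit 17) (.s true (nat_lit 1) (nat_lit 69) (nat_lit 2) (nat_lit 2) (nat_lit 0) true (nat_lit 15) true (nat_lit 19) false (nat_lit 7) true (nat_lit 17) true (nat_lit 17) (.s true (nat_lit 1) (nat_lit 70) (nat_lit 2) (nat_lit 2) (nat_lit 0) true (nat_lit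 15) true (nat_lit 19) false (nat_lit 7) true (nat_lit 17) true (nat_lit 17) (.s true (nat_lit 1) (nat_lit 71) (nat_lit 2) (nat_lit 2) (nat_lit 0) true (nat_lit 15) true (nat_lit 19) false (nat_lit 7) true (nat_lit 17) true (nat_lit 17) (.s true (nat_lit 3) (nat_lit 72) (nat_lit 2) (nat_lit 2) (nat_lit 0) true (nat_lit 15) true (nat_lit 19) false (nat_lit 7) true (nat_lit 17) true (nat_lit 17) (.s false (nat_lit 2) (nat_lit 73) (nat_lit 2) (nat_lit 2) (nat_lit 0) true (nat_lit 15) true (nat_lit 19) false (nat_lit 7) true (nat_lit 17) true (nat_lit 17) (.s false (nat_lit 1) (nat_lit 75) (nat_lit 2) (nat_lit 2) (nat_lit 0) true (nat_lit 15) true (nat_lit 19) false (nat_lit 7) true (nat_lit 17) true (nat_lit 17) (.s false (nat_lit 2) (nat_lit 76) (nat_lit 2) (nat_lit 2) (nat_lit 0) true (nat_lit 15) true (nat_lit 19) false (nat_lit 7) true (nat_lit 17) true (nat_lit 17) (.s true (nat_lit 1) (nat_lit 77) (nat_lit 1)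 (nat_lit 1) (nat_lit 2) true (nat_lit 14) true (nat_lit 17) false (nat_lit 8) true (nat_lit 18) true (nat_lit 18) (.s true (nat_lit 3) (nat_lit 78) (nat_lit 1) (nat_lit 1) (nat_lit 2) true (nat_lit 14) true (nat_lit 17) false (nat_lit 8) true (nat_lit 18) true (nat_lit 18) (.s true (nat_lit 3) (nat_lit 79) (nat_lit 1) (nat_lit 1) (nat_lit 2) true (nat_lit 14) true (nat_lit 17) false (nat_lit 8) true (nat_lit 18) true (nat_lit 18) (.s false (nat_lit 1) (nat_lit 80) (nat_lit 1) (nat_lit 1) (nat_lit 2) true (nat_lit 14) true (nat_lit 17) false (nat_lit 8) true (nat_lit 18) true (nat_lit 18) (.s false (nat_lit 3) (nat_lit 79) (nat_lit 1) (nat_lit 2) (nat_lit 1) false (nat_lit 21) true (nat_lit 18) false (nat_lit 8) true (nat_lit 18) true (nat_lit 17) (.s true (nat_lit 2) (nat_lit 81) (nat_lit 2) (nat_lit 1) (nat_lit 1) true (nat_lit 14) true (nat_lit 18) false (nat_lit 8) true (nat_lit 17) true (nat_lit 18) (.s false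 (nat_lit 3) (nat_lit 82) (nat_lit 0) (nat_lit 1) (nat_lit 2) true (nat_lit 15) true (nat_lit 17) false (nat_lit 9) true (nat_lit 19) true (nat_lit 18) (.s true (nat_lit 1) (nat_lit 83) (nat_lit 0) (nat_lit 1) (nat_lit 2) true (nat_lit 15) true (nat_lit 17) false (nat_lit 9) true (nat_lit 19) true (nat_lit 18) (.s false (nat_lit 3) (nat_lit 90) (nat_lit 0) (nat_lit 1) (nat_lit 2) true (nat_lit 15) true (nat_lit 17) false (nat_lit 9) true (nat_lit 19) true (nat_lit 18) (.s true (nat_lit 3) (nat_lit 82) (nat_lit 0) (nat_lit 2) (nat_lit 1) true (nat_lit 16) true (nat_lit 18) false (nat_lit 9) true (nat_lit 19) true (nat_lit 17) (.s true (nat_lit 2) (nat_lit 83) (nat_lit 0) (nat_lit 2) (nat_lit 1) true (nat_lit 16) true (nat_lit 18) false (nat_lit 9) true (nat_lit 19) true (nat_lit 17) (.s false (nat_lit 1) (nat_lit 84) (nat_lit 0) (nat_lit 2) (nat_lit 1) true (nat_lit 16) true (nat_lit 18) false (nat_lit 9) true (nat_lit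 19) true (nat_lit 17) (.s true (nat_lit 1) (nat_lit 85) (nat_lit 0) (nat_lit 2) (nat_lit 1) true (nat_lit 16) true (nat_lit 18) false (nat_lit 9) true (nat_lit 19) true (nat_lit 17) (.s false (nat_lit 1) (nat_lit 87) (nat_lit 0) (nat_lit 2) (nat_lit 1) true (nat_lit 16) true (nat_lit 18) false (nat_lit 9) true (nat_lit 19) true (nat_lit 17) (.s false (nat_lit 1) (nat_lit 90) (nat_lit 0) (nat_lit 2) (nat_lit 1) true (nat_lit 16) true (nat_lit 18) false (nat_lit 9) true (nat_lit 19) true (nat_lit 17) (.s true (nat_lit 1) (nat_lit 83) (nat_lit 1) (nat_lit 0) (nat_lit 2) true (nat_lit 14) true (nat_lit 17) false (nat_lit 9) true (nat_lit 18) true (nat_lit 19) dC1d_i200)))))))))))))))))))))))))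

noncomputable def dC1d_i202 : IL := (.s false (nat_lit 1) (nat_lit 56) (nat_lit 2) (nat_lit 1) (nat_lit 2) true (nat_lit 13) true (nat_lit 17) false (nat_lit 6) true (nat_lit 17) true (nat_lit 18) (.s true (nat_lit 3) (nat_lit 57) (nat_lit 2) (nat_lit 1) (nat_lit 2) true (nat_lit 13) true (nat_lit 17) false (nat_lit 6) true (nat_lit 17) true (nat_lit 18) (.s false (nat_lit 2) (nat_lit 58) (nat_lit 2) (nat_lit 1) (nat_lit 2) true (nat_lit 13) true (nat_lit 17) false (nat_lit 6) true (nat_lit 17) true (nat_lit 18) (.s true (nat_lit 2) (nat_lit 61) (nat_lit 2) (nat_lit 1) (nat_lit 2) true (nat_lit 13) true (nat_lit 17) false (nat_lit 6) true (nat_lit 17) true (nat_lit 18) (.s false (nat_lit 2) (nat_lit 62) (nat_lit 2) (nat_lit 1) (nat_lit 2) true (nat_lit 13) true (nat_lit 17) false (nat_lit 6) true (nat_lit 17) true (nat_lit 18) (.s false (nat_lit 1) (nat_lit 64) (nat_lit 2) (nat_lit 1) (nat_lit 2) true (nat_lit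 13) true (nat_lit 17) false (nat_lit 6) true (nat_lit 17) true (nat_lit 18) (.s false (nat_lit 2) (nat_lit 65) (nat_lit 2) (nat_lit 1) (nat_lit 2) true (nat_lit 13) true (nat_lit 17) false (nat_lit 6) true (nat_lit 17) true (nat_lit 18) (.s true (nat_lit 2) (nat_lit 55) (nat_lit 2) (nat_lit 2) (nat_lit 1) true (nat_lit 14) true (nat_lit 18) false (nat_lit 6) true (nat_lit 17) true (nat_lit 17) (.s true (nat_lit 3) (nat_lit 57) (nat_lit 2) (nat_lit 2) (nat_lit 1) true (nat_lit 14) true (nat_lit 18) false (nat_lit 6) true (nat_lit 17) true (nat_lit 17) (.s false (nat_lit 2) (nat_lit 58) (nat_lit 2) (nat_lit 2) (nat_lit 1) true (nat_lit 14) true (nat_lit 18) false (nat_lit 6) true (nat_lit 17) true (nat_lit 17) (.s true (nat_lit 3) (nat_lit 59) (nat_lit 2) (nat_lit 2) (nat_lit 1) true (nat_lit 14) true (nat_lit 18) false (nat_lit 6) true (nat_lit 17) true (nat_lit 17) (.s true (nat_lit 2) (nat_lit 61) (nat_lit 2) (nat_lit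 2) (nat_lit 1) true (nat_lit 14) true (nat_lit 18) false (nat_lit 6) true (nat_lit 17) true (nat_lit 17) (.s true (nat_lit 1) (nat_lit 62) (nat_lit 2) (nat_lit 2) (nat_lit 1) true (nat_lit 14) true (nat_lit 18) false (nat_lit 6) true (nat_lit 17) true (nat_lit 17) (.s false (nat_lit 3) (nat_lit 63) (nat_lit 2) (nat_lit 2) (nat_lit 1) true (nat_lit 14) true (nat_lit 18) false (nat_lit 6) true (nat_lit 17) true (nat_lit 17) (.s false (nat_lit 1) (nat_lit 65) (nat_lit 2) (nat_lit 2) (nat_lit 1) true (nat_lit 14) true (nat_lit 18) false (nat_lit 6) true (nat_lit 17) true (nat_lit 17) (.s false (nat_lit 3) (nat_lit 66) (nat_lit 0) (nat_lit 2) (nat_lit 2) true (nat_lit 15) true (nat_lit 17) false (nat_lit 7) true (nat_lit 19) true (nat_lit 17) (.s false (nat_lit 2) (nat_lit 67) (nat_lit 0) (nat_lit 2) (nat_lit 2) true (nat_lit 15) true (nat_lit 17) false (nat_lit 7) true (nat_lit 19) true (nat_lit 17) (.s true (nat_lit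 1) (nat_lit 70) (nat_lit 0) (nat_lit 2) (nat_lit 2) true (nat_lit 15) true (nat_lit 17) false (nat_lit 7) true (nat_lit 19) true (nat_lit 17) (.s false (nat_lit 1) (nat_lit 72) (nat_lit 0) (nat_lit 2) (nat_lit 2) true (nat_lit 15) true (nat_lit 17) false (nat_lit 7) true (nat_lit 19) true (nat_lit 17) (.s true (nat_lit 3) (nat_lit 74) (nat_lit 0) (nat_lit 2) (nat_lit 2) true (nat_lit 15) true (nat_lit 17) false (nat_lit 7) true (nat_lit 19) true (nat_lit 17) (.s true (nat_lit 1) (nat_lit 75) (nat_lit 0) (nat_lit 2) (nat_lit 2) true (nat_lit 15) true (nat_lit 17) false (nat_lit 7) true (nat_lit 19) true (nat_lit 17) (.s false (nat_lit 2) (nat_lit 66) (nat_lit 2) (nat_lit 0) (nat_lit 2) true (nat_lit 13) true (nat_lit 17) false (nat_lit 7) true (nat_lit 17) true (nat_lit 19) (.s false (nat_lit 1) (nat_lit 74) (nat_lit 2) (nat_lit 0) (nat_lit 2) true (nat_lit 13) true (nat_lit 17) false (nat_lit 7) true (nat_lit 17)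 true (nat_lit 19) (.s true (nat_lit 2) (nat_lit 75) (nat_lit 2) (nat_lit 0) (nat_lit 2) true (nat_lit 13) true (nat_lit 17) false (nat_lit 7) true (nat_lit 17) true (nat_lit 19) (.s true (nat_lit 1) (nat_lit 66) (nat_lit 2) (nat_lit 2) (nat_lit 0) true (nat_lit 15) true (nat_lit 19) false (nat_lit 7) true (nat_lit 17) true (nat_lit 17) dC1d_i201)))))))))))))))))))))))))

noncomputable def dC1d_i203 : IL := (.s false (nat_lit 1) (nat_lit 38) (nat_lit 6) (nat_lit 0) (nat_lit 0) true (nat_lit 7) true (nat_lit 19) false (nat_lit 1) true (nat_lit 13) true (nat_lit 19) (.s true (nat_lit 1) (nat_lit 42) (nat_lit 1) (nat_lit 3) (nat_lit 2) true (nat_lit 14) true (nat_lit 17) false (nat_lit 2) true (nat_lit 18) true (nat_lit 16) (.s false (nat_lit 1) (nat_lit 42) (nat_lit 1) (nat_lit 5) (nat_lit 0) true (nat_lit 16) true (nat_lit 19) false (nat_lit 2) true (nat_lit 18) true (nat_lit 14) (.s false (nat_lit 3) (nat_lit 45)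 (nat_lit 0) (nat_lit 2) (nat_lit 3) true (nat_lit 12) true (nat_lit 16) false (nat_lit 3) true (nat_lit 19) true (nat_lit 17) (.s false (nat_lit 2) (nat_lit 44) (nat_lit 0) (nat_lit 3) (nat_lit 2) true (nat_lit 15) true (nat_lit 17) false (nat_lit 3) true (nat_lit 19) true (nat_lit 16) (.s false (nat_lit 2) (nat_lit 45) (nat_lit 0) (nat_lit 3) (nat_lit 2) true (nat_lit 15) true (nat_lit 17) false (nat_lit 3) true (nat_lit 19) true (nat_lit 16) (.s true (nat_lit 3) (nat_lit 45) (nat_lit 2) (nat_lit 0) (nat_lit 3) true (nat_lit 9) true (nat_lit 16) false (nat_lit 3) true (nat_lit 17) true (nat_lit 19) (.s true (nat_lit 2) (nat_lit 45) (nat_lit 3) (nat_lit 0) (nat_lit 2) true (nat_lit 9) true (nat_lit 17) false (nat_lit 3) true (nat_lit 16) true (nat_lit 19) (.s false (nat_lit 3) (nat_lit 45) (nat_lit 3) (nat_lit 2) (nat_lit 0) true (nat_lit 12) true (nat_lit 19) false (nat_lit 3) true (nat_lit 16) true (nat_lit 17)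 (.s true (nat_lit 1) (nat_lit 45) (nat_lit 5) (nat_lit 0) (nat_lit 0) true (nat_lit 9) true (nat_lit 19) false (nat_lit 3) true (nat_lit 14) true (nat_lit 19) (.s true (nat_lit 3) (nat_lit 46) (nat_lit 0) (nat_lit 1) (nat_lit 3) true (nat_lit 12) true (nat_lit 16) false (nat_lit 4) true (nat_lit 19) true (nat_lit 18) (.s true (nat_lit 2) (nat_lit 46) (nat_lit 0) (nat_lit 3) (nat_lit 1) true (nat_lit 16) true (nat_lit 18) false (nat_lit 4) true (nat_lit 19) true (nat_lit 16) (.s true (nat_lit 2) (nat_lit 46) (nat_lit 3) (nat_lit 1) (nat_lit 0) true (nat_lit 12) true (nat_lit 19) false (nat_lit 4) true (nat_lit 16) true (nat_lit 18) (.s true (nat_lit 3) (nat_lit 48) (nat_lit 2) (nat_lit 2) (nat_lit 2) true (nat_lit 13) true (nat_lit 17) false (nat_lit 5) true (nat_lit 17) true (nat_lit 17) (.s false (nat_lit 2) (nat_lit 50) (nat_lit 2) (nat_lit 2) (nat_lit 2) true (nat_lit 13) true (nat_lit 17) false (nat_lit 5) true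 (nat_lit 17) true (nat_lit 17) (.s true (nat_lit 3) (nat_lit 53) (nat_lit 2) (nat_lit 2) (nat_lit 2) true (nat_lit 13) true (nat_lit 17) false (nat_lit 5) true (nat_lit 17) true (nat_lit 17) (.s true (nat_lit 2) (nat_lit 54) (nat_lit 2) (nat_lit 2) (nat_lit 2) true (nat_lit 13) true (nat_lit 17) false (nat_lit 5) true (nat_lit 17) true (nat_lit 17) (.s true (nat_lit 1) (nat_lit 55) (nat_lit 1) (nat_lit 2) (nat_lit 2) true (nat_lit 14) true (nat_lit 17) false (nat_lit 6) true (nat_lit 18) true (nat_lit 17) (.s false (nat_lit 2) (nat_lit 56) (nat_lit 1) (nat_lit 2) (nat_lit 2) true (nat_lit 14) true (nat_lit 17) false (nat_lit 6) true (nat_lit 18) true (nat_lit 17) (.s false (nat_lit 2) (nat_lit 58) (nat_lit 1) (nat_lit 2) (nat_lit 2) true (nat_lit 14) true (nat_lit 17) false (nat_lit 6) true (nat_lit 18) true (nat_lit 17) (.s false (nat_lit 2) (nat_lit 60) (nat_lit 1) (nat_lit 2) (nat_lit 2) true (nat_lit 14) true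 (nat_lit 17) false (nat_lit 6) true (nat_lit 18) true (nat_lit 17) (.s false (nat_lit 2) (nat_lit 61) (nat_lit 1) (nat_lit 2) (nat_lit 2) true (nat_lit 14) true (nat_lit 17) false (nat_lit 6) true (nat_lit 18) true (nat_lit 17) (.s false (nat_lit 1) (nat_lit 62) (nat_lit 1) (nat_lit 2) (nat_lit 2) true (nat_lit 14) true (nat_lit 17) false (nat_lit 6) true (nat_lit 18) true (nat_lit 17) (.s false (nat_lit 1) (nat_lit 64) (nat_lit 1) (nat_lit 2) (nat_lit 2) true (nat_lit 14) true (nat_lit 17) false (nat_lit 6) true (nat_lit 18) true (nat_lit 17) (.s false (nat_lit 1) (nat_lit 55) (nat_lit 2) (nat_lit 1) (nat_lit 2) true (nat_lit 13) true (nat_lit 17) false (nat_lit 6) true (nat_lit 17) true (nat_lit 18) dC1d_i202)))))))))))))))))))))))))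

noncomputable def dC1d_i204 : IL := (.s true (nat_lit 1) (nat_lit 30) (nat_lit 1) (nat_lit 1) (nat_lit 6) true (nat_lit 6) true (nat_lit 13) true (nat_lit 1) true (nat_lit 18) true (nat_lit 18) (.s false (nat_lit 1) (nat_lit 29) (nat_lit 1) (nat_lit 2) (nat_lit 5) true (nat_lit 8) true (nat_lit 14) true (nat_lit 1) true (nat_lit 18) true (nat_lit 17) (.s true (nat_lit 1) (nat_lit 28) (nat_lit 1) (nat_lit 5) (nat_lit 2) true (nat_lit 14) true (nat_lit 17) true (nat_lit 1) true (nat_lit 18) true (nat_lit 14) (.s true (nat_lit 1) (nat_lit 28) (nat_lit 2) (nat_lit 1) (nat_lit 5) true (nat_lit 6) true (nat_lit 14) true (nat_lit 1) true (nat_lit 17) true (nat_lit 18) (.s false (nat_lit 3) (nat_lit 29) (nat_lit 2) (nat_lit 1) (nat_lit 5) true (nat_lit 6) true (nat_lit 14) true (nat_lit 1) true (nat_lit 17) true (nat_lit 18) (.s false (nat_lit 3) (nat_lit 28) (nat_lit 2) (nat_lit 5) (nat_lit 1) true (nat_lit 14) true (nat_lit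 18) true (nat_lit 1) true (nat_lit 17) true (nat_lit 14) (.s false (nat_lit 1) (nat_lit 28) (nat_lit 5) (nat_lit 1) (nat_lit 2) true (nat_lit 6) true (nat_lit 17) true (nat_lit 1) true (nat_lit 14) true (nat_lit 18) (.s false (nat_lit 3) (nat_lit 28) (nat_lit 5) (nat_lit 2) (nat_lit 1) true (nat_lit 8) true (nat_lit 18) true (nat_lit 1) true (nat_lit 14) true (nat_lit 17) (.s false (nat_lit 3) (nat_lit 29) (nat_lit 5) (nat_lit 2) (nat_lit 1) true (nat_lit 8) true (nat_lit 18) true (nat_lit 1) true (nat_lit 14) true (nat_lit 17) (.s true (nat_lit 3) (nat_lit 29) (nat_lit 6) (nat_lit 1) (nat_lit 1) true (nat_lit 6) true (nat_lit 18) true (nat_lit 1) true (nat_lit 13) true (nat_lit 18) (.s true (nat_lit 2) (nat_lit 34) (nat_lit 0) (nat_lit 1) (nat_lit 6) true (nat_lit 7) true (nat_lit 13) true (nat_lit 0) true (nat_lit 19) true (nat_lit 18) (.s false (nat_lit 2) (nat_lit 31) (nat_lit 0) (nat_lit 2) (nat_lit 5) true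 (nat_lit 9) true (nat_lit 14) true (nat_lit 0) true (nat_lit 19) true (nat_lit 17) (.s false (nat_lit 3) (nat_lit 34) (nat_lit 0) (nat_lit 6) (nat_lit 1) true (nat_lit 16) true (nat_lit 18) true (nat_lit 0) true (nat_lit 19) true (nat_lit 13) (.s true (nat_lit 1) (nat_lit 34) (nat_lit 1) (nat_lit 0) (nat_lit 6) true (nat_lit 6) true (nat_lit 13) true (nat_lit 0) true (nat_lit 18) true (nat_lit 19) (.s false (nat_lit 2) (nat_lit 31) (nat_lit 1) (nat_lit 2) (nat_lit 4) true (nat_lit 9) true (nat_lit 15) true (nat_lit 0) true (nat_lit 18) true (nat_lit 17) (.s false (nat_lit 1) (nat_lit 32) (nat_lit 1) (nat_lit 2) (nat_lit 4) true (nat_lit 9) true (nat_lit 15) true (nat_lit 0) true (nat_lit 18) true (nat_lit 17) (.s false (nat_lit 1) (nat_lit 32) (nat_lit 2) (nat_lit 0) (nat_lit 5) true (nat_lit 6) true (nat_lit 14) true (nat_lit 0) true (nat_lit 17) true (nat_lit 19) (.s true (nat_lit 3) (nat_lit 31) (nat_lit 2) (nat_lit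 1) (nat_lit 4) true (nat_lit 7) true (nat_lit 15) true (nat_lit 0) true (nat_lit 17) true (nat_lit 18) (.s false (nat_lit 1) (nat_lit 31) (nat_lit 4) (nat_lit 2) (nat_lit 1) true (nat_lit 9) true (nat_lit 18) true (nat_lit 0) true (nat_lit 15) true (nat_lit 17) (.s false (nat_lit 2) (nat_lit 34) (nat_lit 6) (nat_lit 0) (nat_lit 1) true (nat_lit 6) true (nat_lit 18) true (nat_lit 0) true (nat_lit 13) true (nat_lit 19) (.s false (nat_lit 1) (nat_lit 35) (nat_lit 6) (nat_lit 0) (nat_lit 1) true (nat_lit 6) true (nat_lit 18) true (nat_lit 0) true (nat_lit 13) true (nat_lit 19) (.s false (nat_lit 3) (nat_lit 34) (nat_lit 6) (nat_lit 1) (nat_lit 0) true (nat_lit 7) true (nat_lit 19) true (nat_lit 0) true (nat_lit 13) true (nat_lit 18) (.s true (nat_lit 2) (nat_lit 37) (nat_lit 0) (nat_lit 2) (nat_lit 4) true (nat_lit 10) true (nat_lit 15) false (nat_lit 1) true (nat_lit 19) true (nat_lit 17) (.s false (nat_lit 1) (nat_lit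 38) (nat_lit 0) (nat_lit 2) (nat_lit 4) true (nat_lit 10) true (nat_lit 15) false (nat_lit 1) true (nat_lit 19) true (nat_lit 17) (.s true (nat_lit 1) (nat_lit 37) (nat_lit 6) (nat_lit 0) (nat_lit 0) true (nat_lit 7) true (nat_lit 19) false (nat_lit 1) true (nat_lit 13) true (nat_lit 19) dC1d_i203)))))))))))))))))))))))))

noncomputable def dC1d_i205 : IL := (.s false (nat_lit 3) (nat_lit 18) (nat_lit 0) (nat_lit 0) (nat_lit 13) true (nat_lit 2) true (nat_lit 8) true (nat_lit 5) true (nat_lit 19) true (nat_lit 19) (.s false (nat_lit 2) (nat_lit 18) (nat_lit 0) (nat_lit 1) (nat_lit 11) true (nat_lit 3) true (nat_lit 9) true (nat_lit 5) true (nat_lit 19) true (nat_lit 18) (.s true (nat_lit 3) (nat_lit 18) (nat_lit 0) (nat_lit 8) (nat_lit 2) true (nat_lit 15) true (nat_lit 17) true (nat_lit 5) true (nat_lit 19) true (nat_lit 11) (.s false (nat_lit 3) (nat_lit 18) (nat_lit 0) (nat_lit 10) (nat_lit 1) true (nat_lit 16)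 true (nat_lit 18) true (nat_lit 5) true (nat_lit 19) true (nat_lit 9) (.s true (nat_lit 3) (nat_lit 18) (nat_lit 1) (nat_lit 0) (nat_lit 10) true (nat_lit 2) true (nat_lit 9) true (nat_lit 5) true (nat_lit 18) true (nat_lit 19) (.s true (nat_lit 1) (nat_lit 18) (nat_lit 1) (nat_lit 1) (nat_lit 9) true (nat_lit 3) true (nat_lit 10) true (nat_lit 5) true (nat_lit 18) true (nat_lit 18) (.s false (nat_lit 2) (nat_lit 18) (nat_lit 1) (nat_lit 11) (nat_lit 0) true (nat_lit 16) true (nat_lit 19) true (nat_lit 5) true (nat_lit 18) true (nat_lit 9) (.s true (nat_lit 1) (nat_lit 18) (nat_lit 9) (nat_lit 1) (nat_lit 1) true (nat_lit 3) true (nat_lit 18) true (nat_lit 5) true (nat_lit 10) true (nat_lit 18) (.s true (nat_lit 1) (nat_lit 18) (nat_lit 11) (nat_lit 1) (nat_lit 0) true (nat_lit 3) true (nat_lit 19) true (nat_lit 5) true (nat_lit 9) true (nat_lit 18) (.s true (nat_lit 3) (nat_lit 22) (nat_lit 1) (nat_lit 2) (nat_lit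 6) true (nat_lit 6) true (nat_lit 13) true (nat_lit 3) true (nat_lit 18) true (nat_lit 17) (.s false (nat_lit 2) (nat_lit 20) (nat_lit 1) (nat_lit 6) (nat_lit 2) true (nat_lit 14) true (nat_lit 17) true (nat_lit 3) true (nat_lit 18) true (nat_lit 13) (.s false (nat_lit 3) (nat_lit 21) (nat_lit 2) (nat_lit 1) (nat_lit 6) true (nat_lit 5) true (nat_lit 13) true (nat_lit 3) true (nat_lit 17) true (nat_lit 18) (.s true (nat_lit 2) (nat_lit 20) (nat_lit 2) (nat_lit 2) (nat_lit 5) true (nat_lit 6) true (nat_lit 14) true (nat_lit 3) true (nat_lit 17) true (nat_lit 17) (.s false (nat_lit 3) (nat_lit 21) (nat_lit 2) (nat_lit 2) (nat_lit 5) true (nat_lit 6) true (nat_lit 14) true (nat_lit 3) true (nat_lit 17) true (nat_lit 17) (.s false (nat_lit 3) (nat_lit 22) (nat_lit 2) (nat_lit 2) (nat_lit 5) true (nat_lit 6) true (nat_lit 14) true (nat_lit 3) true (nat_lit 17) true (nat_lit 17) (.s true (nat_lit 2) (nat_lit 20) (nat_lit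 2) (nat_lit 5) (nat_lit 2) true (nat_lit 13) true (nat_lit 17) true (nat_lit 3) true (nat_lit 17) true (nat_lit 14) (.s false (nat_lit 2) (nat_lit 20) (nat_lit 2) (nat_lit 6) (nat_lit 1) true (nat_lit 14) true (nat_lit 18) true (nat_lit 3) true (nat_lit 17) true (nat_lit 13) (.s false (nat_lit 3) (nat_lit 21) (nat_lit 2) (nat_lit 6) (nat_lit 1) true (nat_lit 14) true (nat_lit 18) true (nat_lit 3) true (nat_lit 17) true (nat_lit 13) (.s true (nat_lit 1) (nat_lit 24) (nat_lit 0) (nat_lit 2) (nat_lit 6) true (nat_lit 7) true (nat_lit 13) true (nat_lit 2) true (nat_lit 19) true (nat_lit 17) (.s false (nat_lit 3) (nat_lit 27) (nat_lit 0) (nat_lit 2) (nat_lit 6) true (nat_lit 7) true (nat_lit 13) true (nat_lit 2) true (nat_lit 19) true (nat_lit 17) (.s true (nat_lit 2) (nat_lit 24) (nat_lit 2) (nat_lit 2) (nat_lit 4) true (nat_lit 7) true (nat_lit 15) true (nat_lit 2) true (nat_lit 17) true (nat_lit 17) (.s true (nat_lit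 1) (nat_lit 25) (nat_lit 2) (nat_lit 2) (nat_lit 4) true (nat_lit 7) true (nat_lit 15) true (nat_lit 2) true (nat_lit 17) true (nat_lit 17) (.s false (nat_lit 1) (nat_lit 25) (nat_lit 2) (nat_lit 6) (nat_lit 0) true (nat_lit 15) true (nat_lit 19) true (nat_lit 2) true (nat_lit 17) true (nat_lit 13) (.s true (nat_lit 3) (nat_lit 24) (nat_lit 6) (nat_lit 0) (nat_lit 2) true (nat_lit 5) true (nat_lit 17) true (nat_lit 2) true (nat_lit 13) true (nat_lit 19) (.s true (nat_lit 1) (nat_lit 29) (nat_lit 1) (nat_lit 1) (nat_lit 6) true (nat_lit 6) true (nat_lit 13) true (nat_lit 1) true (nat_lit 18) true (nat_lit 18) dC1d_i204)))))))))))))))))))))))))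

noncomputable def dC1d_i206 : IL := (.s false (nat_lit 1) (nat_lit 9) (nat_lit 2) (nat_lit 5) (nat_lit 5) true (nat_lit 6) true (nat_lit 14) true (nat_lit 10) true (nat_lit 17) true (nat_lit 14) (.s false (nat_lit 1) (nat_lit 9) (nat_lit 5) (nat_lit 2) (nat_lit 5) false (nat_lit 1) true (nat_lit 14) true (nat_lit 10) true (nat_lit 14) true (nat_lit 17) (.s false (nat_lit 2) (nat_lit 9) (nat_lit 5) (nat_lit 5) (nat_lit 2) true (nat_lit 6) true (nat_lit 17) true (nat_lit 10) true (nat_lit 14) true (nat_lit 14) (.s false (nat_lit 2) (nat_lit 10) (nat_lit 0) (nat_lit 6) (nat_lit 5) true (nat_lit 9) true (nat_lit 14) true (nat_lit 9) true (nat_lit 19) true (nat_lit 13) (.s true (nat_lit 3) (nat_lit 10) (nat_lit 2) (nat_lit 2) (nat_lit 10) true (nat_lit 0) true (nat_lit 9) true (nat_lit 9) true (nat_lit 17) true (nat_lit 17) (.s false (nat_lit 1) (nat_lit 13) (nat_lit 9) (nat_lit 2) (nat_lit 2) true (nat_lit 1) true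 (nat_lit 17) true (nat_lit 8) true (nat_lit 10) true (nat_lit 17) (.s true (nat_lit 3) (nat_lit 15) (nat_lit 0) (nat_lit 2) (nat_lit 13) true (nat_lit 2) true (nat_lit 8) true (nat_lit 7) true (nat_lit 19) true (nat_lit 17) (.s true (nat_lit 1) (nat_lit 14) (nat_lit 1) (nat_lit 1) (nat_lit 14) true (nat_lit 0) true (nat_lit 7) true (nat_lit 7) true (nat_lit 18) true (nat_lit 18) (.s false (nat_lit 2) (nat_lit 14) (nat_lit 1) (nat_lit 1) (nat_lit 15) true (nat_lit 0) true (nat_lit 7) true (nat_lit 7) true (nat_lit 18) true (nat_lit 18) (.s false (nat_lit 3) (nat_lit 15) (nat_lit 1) (nat_lit 1) (nat_lit 15) true (nat_lit 0) true (nat_lit 7) true (nat_lit 7) true (nat_lit 18) true (nat_lit 18) (.s false (nat_lit 1) (nat_lit 14) (nat_lit 1) (nat_lit 15) (nat_lit 1) false (nat_lit 21) true (nat_lit 18) true (nat_lit 7) true (nat_lit 18) true (nat_lit 7) (.s false (nat_lit 1) (nat_lit 15) (nat_lit 2) (nat_lit 0) (nat_lit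 13) false (nat_lit 1) true (nat_lit 8) true (nat_lit 7) true (nat_lit 17) true (nat_lit 19) (.s true (nat_lit 1) (nat_lit 15) (nat_lit 2) (nat_lit 2) (nat_lit 8) true (nat_lit 2) true (nat_lit 11) true (nat_lit 7) true (nat_lit 17) true (nat_lit 17) (.s true (nat_lit 1) (nat_lit 15) (nat_lit 2) (nat_lit 8) (nat_lit 2) true (nat_lit 13) true (nat_lit 17) true (nat_lit 7) true (nat_lit 17) true (nat_lit 11) (.s false (nat_lit 2) (nat_lit 14) (nat_lit 3) (nat_lit 1) (nat_lit 6) true (nat_lit 0) true (nat_lit 13) true (nat_lit 7) true (nat_lit 16) true (nat_lit 18) (.s true (nat_lit 2) (nat_lit 15) (nat_lit 8) (nat_lit 2) (nat_lit 2) true (nat_lit 2) true (nat_lit 17) true (nat_lit 7) true (nat_lit 11) true (nat_lit 17) (.s true (nat_lit 2) (nat_lit 15) (nat_lit 10) (nat_lit 2) (nat_lit 1) true (nat_lit 2) true (nat_lit 18) true (nat_lit 7) true (nat_lit 9) true (nat_lit 17) (.s false (nat_lit 3) (nat_lit 16) (nat_lit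 0) (nat_lit 0) (nat_lit 16) true (nat_lit 0) true (nat_lit 6) true (nat_lit 6) true (nat_lit 19) true (nat_lit 19) (.s false (nat_lit 3) (nat_lit 17) (nat_lit 0) (nat_lit 0) (nat_lit 17) true (nat_lit 0) true (nat_lit 6) true (nat_lit 6) true (nat_lit 19) true (nat_lit 19) (.s false (nat_lit 1) (nat_lit 17) (nat_lit 0) (nat_lit 1) (nat_lit 14) true (nat_lit 1) true (nat_lit 7) true (nat_lit 6) true (nat_lit 19) true (nat_lit 18) (.s false (nat_lit 2) (nat_lit 16) (nat_lit 2) (nat_lit 2) (nat_lit 7) true (nat_lit 3) true (nat_lit 12) true (nat_lit 6) true (nat_lit 17) true (nat_lit 17) (.s true (nat_lit 1) (nat_lit 17) (nat_lit 2) (nat_lit 9) (nat_lit 1) true (nat_lit 14) true (nat_lit 18) true (nat_lit 6) true (nat_lit 17) true (nat_lit 10) (.s false (nat_lit 2) (nat_lit 17) (nat_lit 7) (nat_lit 2) (nat_lit 2) true (nat_lit 3) true (nat_lit 17) true (nat_lit 6) true (nat_lit 12) true (nat_lit 17) (.s true (nat_lit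 2) (nat_lit 17) (nat_lit 9) (nat_lit 1) (nat_lit 2) true (nat_lit 1) true (nat_lit 17) true (nat_lit 6) true (nat_lit 10) true (nat_lit 18) (.s false (nat_lit 1) (nat_lit 16) (nat_lit 14) (nat_lit 0) (nat_lit 1) true (nat_lit 0) true (nat_lit 18) true (nat_lit 6) true (nat_lit 7) true (nat_lit 19) dC1d_i205)))))))))))))))))))))))))

noncomputable def dC1d_i207 : IL := (.e false (nat_lit 2) (nat_lit 301) (nat_lit 0) (nat_lit 19) (.e false (nat_lit 1) (nat_lit 302) (nat_lit 0) (nat_lit 19) (.e true (nat_lit 1) (nat_lit 305) (nat_lit 0) (nat_lit 19) (.e false (nat_lit 2) (nat_lit 308) (nat_lit 0) (nat_lit 19) (.e true (nat_lit 1) (nat_lit 310) (nat_lit 0) (nat_lit 19) (.e false (nat_lit 2) (nat_lit 311) (nat_lit 0) (nat_lit 19) (.e false (nat_lit 1) (nat_lit 313) (nat_lit 0) (nat_lit 19) (.e true (nat_lit 3) (nat_lit 317) (nat_lit 0) (nat_lit 19) (.e true (nat_lit 1) (nat_lit 283) (nat_lit 1) (nat_lit 18) (.e true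 (nat_lit 2) (nat_lit 295) (nat_lit 0) (nat_lit 19) (.e false (nat_lit 2) (nat_lit 309) (nat_lit 0) (nat_lit 19) (.e false (nat_lit 1) (nat_lit 78) (nat_lit 13) (nat_lit 8) (.e true (nat_lit 2) (nat_lit 154) (nat_lit 4) (nat_lit 15) (.e false (nat_lit 1) (nat_lit 144) (nat_lit 5) (nat_lit 14) (.e true (nat_lit 1) (nat_lit 139) (nat_lit 5) (nat_lit 14) (.e true (nat_lit 2) (nat_lit 160) (nat_lit 4) (nat_lit 15) (.e false (nat_lit 2) (nat_lit 136) (nat_lit 5) (nat_lit 14) (.e false (nat_lit 2) (nat_lit 143) (nat_lit 5) (nat_lit 14) (.e false (nat_lit 1) (nat_lit 303) (nat_lit 0) (nat_lit 19) (.e true (nat_lit 1) (nat_lit 314) (nat_lit 0) (nat_lit 19) (.e true (nat_lit 1) (nat_lit 315) (nat_lit 0) (nat_lit 19) (.u (nat_lit 2) (.n (nat_lit 0) (nat_lit 4) (.p (nat_lit 2) (nat_lit 3) (.p (nat_lit 3) (nat_lit 3) (.n (nat_lit 4) (nat_lit 2) (.n (nat_lit 5) (nat_lit 2) (.p (nat_lit 6) (nat_lit 1) (.n (nat_lit 7) (nat_lit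 1) (.n (nat_lit 8) (nat_lit 1) (.n (nat_lit 10) (nat_lit 4) (.p (nat_lit 11) (nat_lit 1) (.p (nat_lit 12) (nat_lit 1) (.p (nat_lit 15) (nat_lit 4) (.p (nat_lit 17) (nat_lit 2) (.n (nat_lit 19) (nat_lit 1) (.p (nat_lit 20) (nat_lit 1) (.n (nat_lit 24) (nat_lit 1) (.n (nat_lit 25) (nat_lit 1) (.n (nat_lit 26) (nat_lit 3) (.n (nat_lit 28) (nat_lit 2) (.p (nat_lit 29) (nat_lit 2) (.n (nat_lit 30) (nat_lit 1) (.n (nat_lit 31) (nat_lit 1) (.p (nat_lit 32) (nat_lit 2) (.p (nat_lit 34) (nat_lit 1) (.n (nat_lit 35) (nat_lit 2) (.n (nat_lit 36) (nat_lit 1) (.n (nat_lit 37) (nat_lit 1) (.n (nat_lit 38) (nat_lit 1) (.n (nat_lit 39) (nat_lit 1) (.n (nat_lit 41) (nat_lit 1) (.p (nat_lit 45) (nat_lit 1) (.n (nat_lit 46) (nat_lit 1) (.p (nat_lit 48) (nat_lit 1) (.n (nat_lit 49) (nat_lit 1) (.n (nat_lit 54) (nat_lit 1) (.p (nat_lit 55) (nat_lit 2) (.p (nat_lit 56) (nat_lit 1) (.p (nat_lit 57) (nat_lit 1) (.p (nat_lit 59) (nat_lit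 1) (.n (nat_lit 60) (nat_lit 1) (.n (nat_lit 67) (nat_lit 1) (.p (nat_lit 68) (nat_lit 1) (.p (nat_lit 70) (nat_lit 1) (.p (nat_lit 71) (nat_lit 1) (.n (nat_lit 80) (nat_lit 1) (.p (nat_lit 99) (nat_lit 1) (.n (nat_lit 106) (nat_lit 1) (.p (nat_lit 108) (nat_lit 1) (.n (nat_lit 116) (nat_lit 1) (.p (nat_lit 117) (nat_lit 1) (.p (nat_lit 118) (nat_lit 1) (.p (nat_lit 122) (nat_lit 1) (.n (nat_lit 125) (nat_lit 1) (.p (nat_lit 130) (nat_lit 1) (.p (nat_lit 133) (nat_lit 1) (.n (nat_lit 136) (nat_lit 1) (.n (nat_lit 140) (nat_lit 1) (.p (nat_lit 141) (nat_lit 1) (.n (nat_lit 142) (nat_lit 1) (.p (nat_lit 143) (nat_lit 1) .z)))))))))))))))))))))))))))))))))))))))))))))))))))))))))))) (.u (nat_lit 2) (.p (nat_lit 149) (nat_lit 1) (.p (nat_lit 151) (nat_lit 1) (.p (nat_lit 153) (nat_lit 1) (.p (nat_lit 154) (nat_lit 1) (.p (nat_lit 155) (nat_lit 2) (.p (nat_lit 156) (nat_lit 1) (.p (nat_lit 157) (nat_lit 1) (.n (nat_lit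 158) (nat_lit 1) (.p (nat_lit 159) (nat_lit 1) (.p (nat_lit 183) (nat_lit 1) (.p (nat_lit 193) (nat_lit 1) (.p (nat_lit 198) (nat_lit 1) (.n (nat_lit 211) (nat_lit 1) (.p (nat_lit 213) (nat_lit 1) (.n (nat_lit 214) (nat_lit 1) (.n (nat_lit 217) (nat_lit 1) (.n (nat_lit 234) (nat_lit 1) (.p (nat_lit 237) (nat_lit 1) (.p (nat_lit 238) (nat_lit 1) (.p (nat_lit 239) (nat_lit 1) (.n (nat_lit 243) (nat_lit 1) (.n (nat_lit 244) (nat_lit 1) (.n (nat_lit 249) (nat_lit 1) (.p (nat_lit 251) (nat_lit 2) (.n (nat_lit 252) (nat_lit 1) (.n (nat_lit 257) (nat_lit 2) (.p (nat_lit 260) (nat_lit 2) (.n (nat_lit 261) (nat_lit 2) (.p (nat_lit 263) (nat_lit 1) (.p (nat_lit 266) (nat_lit 1) (.p (nat_lit 269) (nat_lit 1) (.n (nat_lit 273) (nat_lit 1) (.p (nat_lit 276) (nat_lit 1) (.n (nat_lit 277) (nat_lit 1) (.p (nat_lit 280) (nat_lit 1) (.n (nat_lit 282) (nat_lit 1) (.p (nat_lit 283) (nat_lit 1) (.n (nat_lit 286) (nat_lit 1) (.n (nat_lit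 289) (nat_lit 1) (.p (nat_lit 290) (nat_lit 1) (.n (nat_lit 291) (nat_lit 3) (.p (nat_lit 293) (nat_lit 1) (.n (nat_lit 294) (nat_lit 4) (.p (nat_lit 295) (nat_lit 1) (.p (nat_lit 298) (nat_lit 3) (.n (nat_lit 300) (nat_lit 1) (.p (nat_lit 301) (nat_lit 1) (.p (nat_lit 302) (nat_lit 1) (.p (nat_lit 304) (nat_lit 2) (.n (nat_lit 307) (nat_lit 1) (.n (nat_lit 310) (nat_lit 1) (.p (nat_lit 311) (nat_lit 3) (.n (nat_lit 312) (nat_lit 1) (.p (nat_lit 313) (nat_lit 2) (.n (nat_lit 315) (nat_lit 2) (.p (nat_lit 316) (nat_lit 1) (.p (nat_lit 317) (nat_lit 3) (.p (nat_lit 318) (nat_lit 3) (.p (nat_lit 319) (nat_lit 2) (.n (nat_lit 320) (nat_lit 4) .z)))))))))))))))))))))))))))))))))))))))))))))))))))))))))))) (.u (nat_lit 2) (.n (nat_lit 321) (nat_lit 5) (.n (nat_lit 322) (nat_lit 1) (.n (nat_lit 323) (nat_lit 1) (.n (nat_lit 324) (nat_lit 1) (.p (nat_lit 325) (nat_lit 1) (.n (nat_lit 327) (nat_lit 1) (.p (nat_lit 328) (nat_lit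 12) (.n (nat_lit 329) (nat_lit 15) (.p (nat_lit 330) (nat_lit 11) (.n (nat_lit 331) (nat_lit 21) (.n (nat_lit 332) (nat_lit 11) (.p (nat_lit 333) (nat_lit 19) (.n (nat_lit 334) (nat_lit 26) (.p (nat_lit 335) (nat_lit 7) (.n (nat_lit 336) (nat_lit 6) (.n (nat_lit 337) (nat_lit 1) (.n (nat_lit 338) (nat_lit 15) (.p (nat_lit 339) (nat_lit 15) (.p (nat_lit 340) (nat_lit 7) (.p (nat_lit 341) (nat_lit 31) (.p (nat_lit 342) (nat_lit 28) (.p (nat_lit 343) (nat_lit 11) (.n (nat_lit 344) (nat_lit 13) (.n (nat_lit 345) (nat_lit 8) (.n (nat_lit 346) (nat_lit 26) (.n (nat_lit 347) (nat_lit 8) (.p (nat_lit 348) (nat_lit 5) (.n (nat_lit 349) (nat_lit 21) (.n (nat_lit 350) (nat_lit 2) (.p (nat_lit 351) (nat_lit 17) (.p (nat_lit 352) (nat_lit 36) (.p (nat_lit 353) (nat_lit 18) (.n (nat_lit 354) (nat_lit 16) (.p (nat_lit 356) (nat_lit 1) (.n (nat_lit 357) (nat_lit 12) (.p (nat_lit 358) (nat_lit 15) (.p (nat_lit 359) (nat_lit 34)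 (.p (nat_lit 360) (nat_lit 4) (.n (nat_lit 361) (nat_lit 16) (.p (nat_lit 362) (nat_lit 9) (.n (nat_lit 363) (nat_lit 32) (.n (nat_lit 364) (nat_lit 8) (.p (nat_lit 365) (nat_lit 1) (.p (nat_lit 366) (nat_lit 6) (.n (nat_lit 367) (nat_lit 11) (.p (nat_lit 368) (nat_lit 2) (.n (nat_lit 370) (nat_lit 1) (.n (nat_lit 371) (nat_lit 7) (.n (nat_lit 373) (nat_lit 6) (.n (nat_lit 375) (nat_lit 15) (.p (nat_lit 376) (nat_lit 7) (.p (nat_lit 377) (nat_lit 5) (.p (nat_lit 378) (nat_lit 16) (.n (nat_lit 379) (nat_lit 1) (.p (nat_lit 381) (nat_lit 16) (.n (nat_lit 382) (nat_lit 14) (.p (nat_lit 383) (nat_lit 17) (.p (nat_lit 384) (nat_lit 14) (.n (nat_lit 385) (nat_lit 2) (.n (nat_lit 386) (nat_lit 24) .z)))))))))))))))))))))))))))))))))))))))))))))))))))))))))))) (.u (nat_lit 2) (.p (nat_lit 387) (nat_lit 18) (.p (nat_lit 388) (nat_lit 2) (.p (nat_lit 389) (nat_lit 11) (.n (nat_lit 391) (nat_lit 1) (.n (nat_lit 392) (nat_lit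 7) (.n (nat_lit 393) (nat_lit 8) (.n (nat_lit 394) (nat_lit 7) (.p (nat_lit 395) (nat_lit 8) (.n (nat_lit 396) (nat_lit 4) (.n (nat_lit 397) (nat_lit 1) (.n (nat_lit 398) (nat_lit 5) (.n (nat_lit 400) (nat_lit 1) (.n (nat_lit 403) (nat_lit 3) (.p (nat_lit 404) (nat_lit 2) (.n (nat_lit 405) (nat_lit 3) (.n (nat_lit 406) (nat_lit 8) (.p (nat_lit 407) (nat_lit 10) (.p (nat_lit 408) (nat_lit 23) (.p (nat_lit 409) (nat_lit 15) (.p (nat_lit 410) (nat_lit 11) (.p (nat_lit 411) (nat_lit 22) (.n (nat_lit 412) (nat_lit 16) (.n (nat_lit 413) (nat_lit 10) (.n (nat_lit 414) (nat_lit 17) (.n (nat_lit 415) (nat_lit 1) (.p (nat_lit 416) (nat_lit 11) (.n (nat_lit 417) (nat_lit 24) (.p (nat_lit 418) (nat_lit 5) (.n (nat_lit 419) (nat_lit 1) (.n (nat_lit 420) (nat_lit 18) (.n (nat_lit 421) (nat_lit 6) (.n (nat_lit 422) (nat_lit 20) (.p (nat_lit 423) (nat_lit 6) (.p (nat_lit 424) (nat_lit 4) (.p (nat_lit 425) (nat_lit 16) (.n (nat_lit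 426) (nat_lit 2) (.n (nat_lit 427) (nat_lit 7) (.p (nat_lit 430) (nat_lit 4) (.p (nat_lit 431) (nat_lit 2) (.p (nat_lit 432) (nat_lit 5) (.p (nat_lit 433) (nat_lit 6) (.p (nat_lit 434) (nat_lit 9) .z)))))))))))))))))))))))))))))))))))))))))) .nil)))))))))))))))))))))))))

noncomputable def dC1d_i208 : IL := (.e true (nat_lit 2) (nat_lit 261) (nat_lit 1) (nat_lit 18) (.e false (nat_lit 2) (nat_lit 262) (nat_lit 1) (nat_lit 18) (.e false (nat_lit 2) (nat_lit 263) (nat_lit 1) (nat_lit 18) (.e false (nat_lit 3) (nat_lit 264) (nat_lit 1) (nat_lit 18) (.e true (nat_lit 2) (nat_lit 265) (nat_lit 1) (nat_lit 18) (.e false (nat_lit 2) (nat_lit 266) (nat_lit 1) (nat_lit 18) (.e false (nat_lit 1) (nat_lit 267) (nat_lit 1) (nat_lit 18) (.e true (nat_lit 2) (nat_lit 268) (nat_lit 1) (nat_lit 18) (.e false (nat_lit 3) (nat_lit 270) (nat_lit 1) (nat_lit 18) (.e true (nat_lit 3) (nat_lit 272) (nat_lit 1) (nat_lit 18) (.e false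 (nat_lit 3) (nat_lit 280) (nat_lit 1) (nat_lit 18) (.e false (nat_lit 1) (nat_lit 285) (nat_lit 1) (nat_lit 18) (.e false (nat_lit 3) (nat_lit 260) (nat_lit 1) (nat_lit 18) (.e true (nat_lit 3) (nat_lit 269) (nat_lit 1) (nat_lit 18) (.e true (nat_lit 3) (nat_lit 271) (nat_lit 1) (nat_lit 18) (.e false (nat_lit 1) (nat_lit 278) (nat_lit 1) (nat_lit 18) (.e false (nat_lit 1) (nat_lit 281) (nat_lit 1) (nat_lit 18) (.e true (nat_lit 2) (nat_lit 247) (nat_lit 2) (nat_lit 17) (.e true (nat_lit 3) (nat_lit 290) (nat_lit 0) (nat_lit 19) (.e false (nat_lit 3) (nat_lit 291) (nat_lit 0) (nat_lit 19) (.e true (nat_lit 1) (nat_lit 293) (nat_lit 0) (nat_lit 19) (.e true (nat_lit 2) (nat_lit 294) (nat_lit 0) (nat_lit 19) (.e true (nat_lit 1) (nat_lit 297) (nat_lit 0) (nat_lit 19) (.e false (nat_lit 1) (nat_lit 299) (nat_lit 0) (nat_lit 19) (.e true (nat_lit 3) (nat_lit 300) (nat_lit 0) (nat_lit 19) dC1d_i207)))))))))))))))))))))))))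

noncomputable def dC1d_i209 : IL := (.e false (nat_lit 3) (nat_lit 212) (nat_lit 2) (nat_lit 17) (.e false (nat_lit 2) (nat_lit 213) (nat_lit 2) (nat_lit 17) (.e true (nat_lit 2) (nat_lit 214) (nat_lit 2) (nat_lit 17) (.e true (nat_lit 1) (nat_lit 216) (nat_lit 2) (nat_lit 17) (.e false (nat_lit 2) (nat_lit 217) (nat_lit 2) (nat_lit 17) (.e false (nat_lit 3) (nat_lit 218) (nat_lit 2) (nat_lit 17) (.e false (nat_lit 2) (nat_lit 225) (nat_lit 2) (nat_lit 17) (.e false (nat_lit 3) (nat_lit 228) (nat_lit 2) (nat_lit 17) (.e true (nat_lit 1) (nat_lit 232) (nat_lit 2) (nat_lit 17) (.e false (nat_lit 3) (nat_lit 233) (nat_lit 2) (nat_lit 17) (.e false (nat_lit 1) (nat_lit 239) (nat_lit 2) (nat_lit 17) (.e true (nat_lit 3) (nat_lit 242) (nat_lit 2) (nat_lit 17) (.e false (nat_lit 2) (nat_lit 246) (nat_lit 2) (nat_lit 17) (.e false (nat_lit 1) (nat_lit 248) (nat_lit 2) (nat_lit 17) (.e false (nat_lit 3) (nat_lit 219) (nat_lit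 2) (nat_lit 17) (.e false (nat_lit 3) (nat_lit 224) (nat_lit 2) (nat_lit 17) (.e false (nat_lit 2) (nat_lit 227) (nat_lit 2) (nat_lit 17) (.e true (nat_lit 2) (nat_lit 245) (nat_lit 2) (nat_lit 17) (.e true (nat_lit 3) (nat_lit 249) (nat_lit 2) (nat_lit 17) (.e false (nat_lit 3) (nat_lit 223) (nat_lit 2) (nat_lit 17) (.e false (nat_lit 2) (nat_lit 244) (nat_lit 2) (nat_lit 17) (.e false (nat_lit 3) (nat_lit 251) (nat_lit 2) (nat_lit 17) (.e true (nat_lit 2) (nat_lit 252) (nat_lit 2) (nat_lit 17) (.e false (nat_lit 1) (nat_lit 259) (nat_lit 2) (nat_lit 17) (.e true (nat_lit 1) (nat_lit 77) (nat_lit 13) (nat_lit 8) dC1d_i208)))))))))))))))))))))))))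

noncomputable def dC1d_i210 : IL := (.s true (nat_lit 2) (nat_lit 93) (nat_lit 0) (nat_lit 2) (nat_lit 0) false (nat_lit 20) true (nat_lit 19) false (nat_lit 10) true (nat_lit 19) true (nat_lit 17) (.s true (nat_lit 1) (nat_lit 95) (nat_lit 0) (nat_lit 2) (nat_lit 0) false (nat_lit 20) true (nat_lit 19) false (nat_lit 10) true (nat_lit 19) true (nat_lit 17) (.s true (nat_lit 1) (nat_lit 96) (nat_lit 0) (nat_lit 2) (nat_lit 0) false (nat_lit 20) true (nat_lit 19) false (nat_lit 10) true (nat_lit 19) true (nat_lit 17) (.s true (nat_lit 2) (nat_lit 97) (nat_lit 0) (nat_lit 2) (nat_lit 0) false (nat_lit 20) true (nat_lit 19) false (nat_lit 10) true (nat_lit 19) true (nat_lit 17) (.s false (nat_lit 1) (nat_lit 98) (nat_lit 0) (nat_lit 1) (nat_lit 1) true (nat_lit 16) true (nat_lit 18) false (nat_lit 11) true (nat_lit 19) true (nat_lit 18) (.s true (nat_lit 3) (nat_lit 99) (nat_lit 1) (nat_lit 0) (nat_lit 1) false (nat_lit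 21) true (nat_lit 18) false (nat_lit 11) true (nat_lit 18) true (nat_lit 19) (.s true (nat_lit 3) (nat_lit 100) (nat_lit 1) (nat_lit 0) (nat_lit 1) false (nat_lit 21) true (nat_lit 18) false (nat_lit 11) true (nat_lit 18) true (nat_lit 19) (.s true (nat_lit 2) (nat_lit 101) (nat_lit 1) (nat_lit 0) (nat_lit 1) false (nat_lit 21) true (nat_lit 18) false (nat_lit 11) true (nat_lit 18) true (nat_lit 19) (.s false (nat_lit 3) (nat_lit 98) (nat_lit 1) (nat_lit 1) (nat_lit 0) true (nat_lit 16) true (nat_lit 19) false (nat_lit 11) true (nat_lit 18) true (nat_lit 18) (.s false (nat_lit 1) (nat_lit 100) (nat_lit 1) (nat_lit 1) (nat_lit 0) true (nat_lit 16) true (nat_lit 19) false (nat_lit 11) true (nat_lit 18) true (nat_lit 18) (.s false (nat_lit 1) (nat_lit 101) (nat_lit 1) (nat_lit 1) (nat_lit 0) true (nat_lit 16) true (nat_lit 19) false (nat_lit 11) true (nat_lit 18) true (nat_lit 18) (.s false (nat_lit 3) (nat_lit 102)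 (nat_lit 0) (nat_lit 0) (nat_lit 1) true (nat_lit 16) true (nat_lit 18) false (nat_lit 12) true (nat_lit 19) true (nat_lit 19) (.s true (nat_lit 3) (nat_lit 104) (nat_lit 0) (nat_lit 0) (nat_lit 1) true (nat_lit 16) true (nat_lit 18) false (nat_lit 12) true (nat_lit 19) true (nat_lit 19) (.s true (nat_lit 3) (nat_lit 105) (nat_lit 0) (nat_lit 0) (nat_lit 1) true (nat_lit 16) true (nat_lit 18) false (nat_lit 12) true (nat_lit 19) true (nat_lit 19) (.s false (nat_lit 2) (nat_lit 102) (nat_lit 0) (nat_lit 1) (nat_lit 0) false (nat_lit 20) true (nat_lit 19) false (nat_lit 12) true (nat_lit 19) true (nat_lit 18) (.s true (nat_lit 3) (nat_lit 104) (nat_lit 0) (nat_lit 1) (nat_lit 0) false (nat_lit 20) true (nat_lit 19) false (nat_lit 12) true (nat_lit 19) true (nat_lit 18) (.s true (nat_lit 3) (nat_lit 105) (nat_lit 0) (nat_lit 1) (nat_lit 0) false (nat_lit 20) true (nat_lit 19) false (nat_lit 12) true (nat_lit 19) true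 (nat_lit 18) (.a true (nat_lit 3) (nat_lit 31) (nat_lit 31) (nat_lit 0) (nat_lit 0) (.a false (nat_lit 1) (nat_lit 34) (nat_lit 34) (nat_lit 0) (nat_lit 0) (.a true (nat_lit 1) (nat_lit 34) (nat_lit 35) (nat_lit 0) (nat_lit 0) (.a true (nat_lit 3) (nat_lit 35) (nat_lit 35) (nat_lit 0) (nat_lit 0) (.a false (nat_lit 3) (nat_lit 36) (nat_lit 36) (nat_lit 0) (nat_lit 0) (.a false (nat_lit 2) (nat_lit 32) (nat_lit 34) (nat_lit 0) (nat_lit 0) (.a false (nat_lit 2) (nat_lit 31) (nat_lit 34) (nat_lit 0) (nat_lit 0) (.e false (nat_lit 2) (nat_lit 277) (nat_lit 1) (nat_lit 18) dC1d_i209)))))))))))))))))))))))))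

noncomputable def dC1d_i211 : IL := (.s true (nat_lit 3) (nat_lit 81) (nat_lit 2) (nat_lit 1) (nat_lit 1) true (nat_lit 14) true (nat_lit 18) false (nat_lit 8) true (nat_lit 17) true (nat_lit 18) (.s false (nat_lit 3) (nat_lit 82) (nat_lit 0) (nat_lit 1) (nat_lit 2) true (nat_lit 15) true (nat_lit 17) false (nat_lit 9) true (nat_lit 19) true (nat_lit 18) (.s false (nat_lit 2) (nat_lit 83) (nat_lit 0) (nat_lit 1) (nat_lit 2) true (nat_lit 15) true (nat_lit 17) false (nat_lit 9) true (nat_lit 19) true (nat_lit 18) (.s true (nat_lit 2) (nat_lit 90) (nat_lit 0) (nat_lit 1) (nat_lit 2) true (nat_lit 15) true (nat_lit 17) false (nat_lit 9) true (nat_lit 19) true (nat_lit 18) (.s false (nat_lit 2) (nat_lit 82) (nat_lit 0) (nat_lit 2) (nat_lit 1) true (nat_lit 16) true (nat_lit 18) false (nat_lit 9) true (nat_lit 19) true (nat_lit 17) (.s false (nat_lit 2) (nat_lit 83) (nat_lit 0) (nat_lit 2) (nat_lit 1) true (nat_lit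 16) true (nat_lit 18) false (nat_lit 9) true (nat_lit 19) true (nat_lit 17) (.s false (nat_lit 1) (nat_lit 84) (nat_lit 0) (nat_lit 2) (nat_lit 1) true (nat_lit 16) true (nat_lit 18) false (nat_lit 9) true (nat_lit 19) true (nat_lit 17) (.s true (nat_lit 2) (nat_lit 85) (nat_lit 0) (nat_lit 2) (nat_lit 1) true (nat_lit 16) true (nat_lit 18) false (nat_lit 9) true (nat_lit 19) true (nat_lit 17) (.s false (nat_lit 2) (nat_lit 86) (nat_lit 0) (nat_lit 2) (nat_lit 1) true (nat_lit 16) true (nat_lit 18) false (nat_lit 9) true (nat_lit 19) true (nat_lit 17) (.s false (nat_lit 3) (nat_lit 87) (nat_lit 0) (nat_lit 2) (nat_lit 1) true (nat_lit 16) true (nat_lit 18) false (nat_lit 9) true (nat_lit 19) true (nat_lit 17) (.s false (nat_lit 3) (nat_lit 88) (nat_lit 0) (nat_lit 2) (nat_lit 1) true (nat_lit 16) true (nat_lit 18) false (nat_lit 9) true (nat_lit 19) true (nat_lit 17) (.s true (nat_lit 2) (nat_lit 90) (nat_lit 0)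 (nat_lit 2) (nat_lit 1) true (nat_lit 16) true (nat_lit 18) false (nat_lit 9) true (nat_lit 19) true (nat_lit 17) (.s true (nat_lit 2) (nat_lit 91) (nat_lit 0) (nat_lit 2) (nat_lit 1) true (nat_lit 16) true (nat_lit 18) false (nat_lit 9) true (nat_lit 19) true (nat_lit 17) (.s true (nat_lit 3) (nat_lit 92) (nat_lit 0) (nat_lit 2) (nat_lit 1) true (nat_lit 16) true (nat_lit 18) false (nat_lit 9) true (nat_lit 19) true (nat_lit 17) (.s true (nat_lit 1) (nat_lit 82) (nat_lit 1) (nat_lit 0) (nat_lit 2) true (nat_lit 14) true (nat_lit 17) false (nat_lit 9) true (nat_lit 18) true (nat_lit 19) (.s false (nat_lit 2) (nat_lit 83) (nat_lit 1) (nat_lit 0) (nat_lit 2) true (nat_lit 14) true (nat_lit 17) false (nat_lit 9) true (nat_lit 18) true (nat_lit 19) (.s true (nat_lit 3) (nat_lit 82) (nat_lit 1) (nat_lit 2) (nat_lit 0) true (nat_lit 16) true (nat_lit 19) false (nat_lit 9) true (nat_lit 18) true (nat_lit 17) (.s false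 (nat_lit 1) (nat_lit 83) (nat_lit 1) (nat_lit 2) (nat_lit 0) true (nat_lit 16) true (nat_lit 19) false (nat_lit 9) true (nat_lit 18) true (nat_lit 17) (.s true (nat_lit 2) (nat_lit 85) (nat_lit 1) (nat_lit 2) (nat_lit 0) true (nat_lit 16) true (nat_lit 19) false (nat_lit 9) true (nat_lit 18) true (nat_lit 17) (.s true (nat_lit 2) (nat_lit 88) (nat_lit 1) (nat_lit 2) (nat_lit 0) true (nat_lit 16) true (nat_lit 19) false (nat_lit 9) true (nat_lit 18) true (nat_lit 17) (.s true (nat_lit 3) (nat_lit 90) (nat_lit 1) (nat_lit 2) (nat_lit 0) true (nat_lit 16) true (nat_lit 19) false (nat_lit 9) true (nat_lit 18) true (nat_lit 17) (.s false (nat_lit 3) (nat_lit 91) (nat_lit 1) (nat_lit 2) (nat_lit 0) true (nat_lit 16) true (nat_lit 19) false (nat_lit 9) true (nat_lit 18) true (nat_lit 17) (.s true (nat_lit 2) (nat_lit 85) (nat_lit 2) (nat_lit 1) (nat_lit 0) true (nat_lit 15) true (nat_lit 19) false (nat_lit 9) true (nat_lit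 17) true (nat_lit 18) (.s true (nat_lit 3) (nat_lit 90) (nat_lit 2) (nat_lit 1) (nat_lit 0) true (nat_lit 15) true (nat_lit 19) false (nat_lit 9) true (nat_lit 17) true (nat_lit 18) (.s false (nat_lit 3) (nat_lit 91) (nat_lit 2) (nat_lit 1) (nat_lit 0) true (nat_lit 15) true (nat_lit 19) false (nat_lit 9) true (nat_lit 17) true (nat_lit 18) dC1d_i210)))))))))))))))))))))))))

noncomputable def dC1d_i212 : IL := (.s true (nat_lit 2) (nat_lit 58) (nat_lit 2) (nat_lit 1) (nat_lit 2) true (nat_lit 13) true (nat_lit 17) false (nat_lit 6) true (nat_lit 17) true (nat_lit 18) (.s false (nat_lit 2) (nat_lit 60) (nat_lit 2) (nat_lit 1) (nat_lit 2) true (nat_lit 13) true (nat_lit 17) false (nat_lit 6) true (nat_lit 17) true (nat_lit 18) (.s true (nat_lit 2) (nat_lit 62) (nat_lit 2) (nat_lit 1) (nat_lit 2) true (nat_lit 13) true (nat_lit 17) false (nat_lit 6) true (nat_lit 17) true (nat_lit 18) (.s true (nat_lit 2) (nat_lit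 64) (nat_lit 2) (nat_lit 1) (nat_lit 2) true (nat_lit 13) true (nat_lit 17) false (nat_lit 6) true (nat_lit 17) true (nat_lit 18) (.s false (nat_lit 3) (nat_lit 65) (nat_lit 2) (nat_lit 1) (nat_lit 2) true (nat_lit 13) true (nat_lit 17) false (nat_lit 6) true (nat_lit 17) true (nat_lit 18) (.s false (nat_lit 1) (nat_lit 55) (nat_lit 2) (nat_lit 2) (nat_lit 1) true (nat_lit 14) true (nat_lit 18) false (nat_lit 6) true (nat_lit 17) true (nat_lit 17) (.s false (nat_lit 1) (nat_lit 56) (nat_lit 2) (nat_lit 2) (nat_lit 1) true (nat_lit 14) true (nat_lit 18) false (nat_lit 6) true (nat_lit 17) true (nat_lit 17) (.s false (nat_lit 2) (nat_lit 57) (nat_lit 2) (nat_lit 2) (nat_lit 1) true (nat_lit 14) true (nat_lit 18) false (nat_lit 6) true (nat_lit 17) true (nat_lit 17) (.s true (nat_lit 3) (nat_lit 59) (nat_lit 2) (nat_lit 2) (nat_lit 1) true (nat_lit 14) true (nat_lit 18) false (nat_lit 6) true (nat_lit 17) true (nat_lit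 17) (.s true (nat_lit 1) (nat_lit 61) (nat_lit 2) (nat_lit 2) (nat_lit 1) true (nat_lit 14) true (nat_lit 18) false (nat_lit 6) true (nat_lit 17) true (nat_lit 17) (.s false (nat_lit 2) (nat_lit 65) (nat_lit 2) (nat_lit 2) (nat_lit 1) true (nat_lit 14) true (nat_lit 18) false (nat_lit 6) true (nat_lit 17) true (nat_lit 17) (.s false (nat_lit 3) (nat_lit 68) (nat_lit 0) (nat_lit 2) (nat_lit 2) true (nat_lit 15) true (nat_lit 17) false (nat_lit 7) true (nat_lit 19) true (nat_lit 17) (.s false (nat_lit 1) (nat_lit 69) (nat_lit 0) (nat_lit 2) (nat_lit 2) true (nat_lit 15) true (nat_lit 17) false (nat_lit 7) true (nat_lit 19) true (nat_lit 17) (.s true (nat_lit 2) (nat_lit 72) (nat_lit 0) (nat_lit 2) (nat_lit 2) true (nat_lit 15) true (nat_lit 17) false (nat_lit 7) true (nat_lit 19) true (nat_lit 17) (.s true (nat_lit 1) (nat_lit 66) (nat_lit 2) (nat_lit 0) (nat_lit 2) true (nat_lit 13) true (nat_lit 17) false (nat_lit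 7) true (nat_lit 17) true (nat_lit 19) (.s false (nat_lit 2) (nat_lit 66) (nat_lit 2) (nat_lit 2) (nat_lit 0) true (nat_lit 15) true (nat_lit 19) false (nat_lit 7) true (nat_lit 17) true (nat_lit 17) (.s true (nat_lit 3) (nat_lit 67) (nat_lit 2) (nat_lit 2) (nat_lit 0) true (nat_lit 15) true (nat_lit 19) false (nat_lit 7) true (nat_lit 17) true (nat_lit 17) (.s false (nat_lit 1) (nat_lit 69) (nat_lit 2) (nat_lit 2) (nat_lit 0) true (nat_lit 15) true (nat_lit 19) false (nat_lit 7) true (nat_lit 17) true (nat_lit 17) (.s false (nat_lit 2) (nat_lit 70) (nat_lit 2) (nat_lit 2) (nat_lit 0) true (nat_lit 15) true (nat_lit 19) false (nat_lit 7) true (nat_lit 17) true (nat_lit 17) (.s true (nat_lit 2) (nat_lit 72) (nat_lit 2) (nat_lit 2) (nat_lit 0) true (nat_lit 15) true (nat_lit 19) false (nat_lit 7) true (nat_lit 17) true (nat_lit 17) (.s false (nat_lit 2) (nat_lit 75) (nat_lit 2) (nat_lit 2) (nat_lit 0) true (nat_lit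 15) true (nat_lit 19) false (nat_lit 7) true (nat_lit 17) true (nat_lit 17) (.s false (nat_lit 2) (nat_lit 77) (nat_lit 1) (nat_lit 1) (nat_lit 2) true (nat_lit 14) true (nat_lit 17) false (nat_lit 8) true (nat_lit 18) true (nat_lit 18) (.s false (nat_lit 2) (nat_lit 78) (nat_lit 1) (nat_lit 1) (nat_lit 2) true (nat_lit 14) true (nat_lit 17) false (nat_lit 8) true (nat_lit 18) true (nat_lit 18) (.s true (nat_lit 1) (nat_lit 79) (nat_lit 1) (nat_lit 1) (nat_lit 2) true (nat_lit 14) true (nat_lit 17) false (nat_lit 8) true (nat_lit 18) true (nat_lit 18) (.s false (nat_lit 1) (nat_lit 80) (nat_lit 1) (nat_lit 1) (nat_lit 2) true (nat_lit 14) true (nat_lit 17) false (nat_lit 8) true (nat_lit 18) true (nat_lit 18) dC1d_i211)))))))))))))))))))))))))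

noncomputable def dC1d_i213 : IL := (.s true (nat_lit 3) (nat_lit 40) (nat_lit 1) (nat_lit 2) (nat_lit 3) true (nat_lit 11) true (nat_lit 16) false (nat_lit 2) true (nat_lit 18) true (nat_lit 17) (.s true (nat_lit 2) (nat_lit 40) (nat_lit 1) (nat_lit 5) (nat_lit 0) true (nat_lit 16) true (nat_lit 19) false (nat_lit 2) true (nat_lit 18) true (nat_lit 14) (.s true (nat_lit 3) (nat_lit 42) (nat_lit 1) (nat_lit 5) (nat_lit 0) true (nat_lit 16) true (nat_lit 19) false (nat_lit 2) true (nat_lit 18) true (nat_lit 14) (.s false (nat_lit 3) (nat_lit 40) (nat_lit 4) (nat_lit 1) (nat_lit 1) true (nat_lit 9) true (nat_lit 18) false (nat_lit 2) true (nat_lit 15) true (nat_lit 18) (.s true (nat_lit 3) (nat_lit 45) (nat_lit 2) (nat_lit 3) (nat_lit 0) true (nat_lit 15) true (nat_lit 19) false (nat_lit 3) true (nat_lit 17) true (nat_lit 16) (.s false (nat_lit 2) (nat_lit 45) (nat_lit 3) (nat_lit 2) (nat_lit 0) true (nat_lit 12)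 true (nat_lit 19) false (nat_lit 3) true (nat_lit 16) true (nat_lit 17) (.s false (nat_lit 3) (nat_lit 45) (nat_lit 4) (nat_lit 0) (nat_lit 1) true (nat_lit 9) true (nat_lit 18) false (nat_lit 3) true (nat_lit 15) true (nat_lit 19) (.s true (nat_lit 3) (nat_lit 45) (nat_lit 4) (nat_lit 1) (nat_lit 0) true (nat_lit 10) true (nat_lit 19) false (nat_lit 3) true (nat_lit 15) true (nat_lit 18) (.s true (nat_lit 2) (nat_lit 46) (nat_lit 0) (nat_lit 3) (nat_lit 1) true (nat_lit 16) true (nat_lit 18) false (nat_lit 4) true (nat_lit 19) true (nat_lit 16) (.s true (nat_lit 1) (nat_lit 46) (nat_lit 3) (nat_lit 0) (nat_lit 1) true (nat_lit 11) true (nat_lit 18) false (nat_lit 4) true (nat_lit 16) true (nat_lit 19) (.s false (nat_lit 1) (nat_lit 46) (nat_lit 3) (nat_lit 1) (nat_lit 0) true (nat_lit 12) true (nat_lit 19) false (nat_lit 4) true (nat_lit 16) true (nat_lit 18) (.s false (nat_lit 1) (nat_lit 48) (nat_lit 2) (nat_lit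 2) (nat_lit 2) true (nat_lit 13) true (nat_lit 17) false (nat_lit 5) true (nat_lit 17) true (nat_lit 17) (.s true (nat_lit 3) (nat_lit 49) (nat_lit 2) (nat_lit 2) (nat_lit 2) true (nat_lit 13) true (nat_lit 17) false (nat_lit 5) true (nat_lit 17) true (nat_lit 17) (.s true (nat_lit 1) (nat_lit 53) (nat_lit 2) (nat_lit 2) (nat_lit 2) true (nat_lit 13) true (nat_lit 17) false (nat_lit 5) true (nat_lit 17) true (nat_lit 17) (.s false (nat_lit 1) (nat_lit 54) (nat_lit 2) (nat_lit 2) (nat_lit 2) true (nat_lit 13) true (nat_lit 17) false (nat_lit 5) true (nat_lit 17) true (nat_lit 17) (.s false (nat_lit 2) (nat_lit 55) (nat_lit 1) (nat_lit 2) (nat_lit 2) true (nat_lit 14) true (nat_lit 17) false (nat_lit 6) true (nat_lit 18) true (nat_lit 17) (.s false (nat_lit 1) (nat_lit 56) (nat_lit 1) (nat_lit 2) (nat_lit 2) true (nat_lit 14) true (nat_lit 17) false (nat_lit 6) true (nat_lit 18) true (nat_lit 17) (.s false (nat_lit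 2) (nat_lit 57) (nat_lit 1) (nat_lit 2) (nat_lit 2) true (nat_lit 14) true (nat_lit 17) false (nat_lit 6) true (nat_lit 18) true (nat_lit 17) (.s true (nat_lit 2) (nat_lit 58) (nat_lit 1) (nat_lit 2) (nat_lit 2) true (nat_lit 14) true (nat_lit 17) false (nat_lit 6) true (nat_lit 18) true (nat_lit 17) (.s true (nat_lit 2) (nat_lit 60) (nat_lit 1) (nat_lit 2) (nat_lit 2) true (nat_lit 14) true (nat_lit 17) false (nat_lit 6) true (nat_lit 18) true (nat_lit 17) (.s true (nat_lit 1) (nat_lit 61) (nat_lit 1) (nat_lit 2) (nat_lit 2) true (nat_lit 14) true (nat_lit 17) false (nat_lit 6) true (nat_lit 18) true (nat_lit 17) (.s false (nat_lit 1) (nat_lit 62) (nat_lit 1) (nat_lit 2) (nat_lit 2) true (nat_lit 14) true (nat_lit 17) false (nat_lit 6) true (nat_lit 18) true (nat_lit 17) (.s true (nat_lit 3) (nat_lit 65) (nat_lit 1) (nat_lit 2) (nat_lit 2) true (nat_lit 14) true (nat_lit 17) false (nat_lit 6) true (nat_lit 18)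 true (nat_lit 17) (.s false (nat_lit 3) (nat_lit 55) (nat_lit 2) (nat_lit 1) (nat_lit 2) true (nat_lit 13) true (nat_lit 17) false (nat_lit 6) true (nat_lit 17) true (nat_lit 18) (.s true (nat_lit 2) (nat_lit 57) (nat_lit 2) (nat_lit 1) (nat_lit 2) true (nat_lit 13) true (nat_lit 17) false (nat_lit 6) true (nat_lit 17) true (nat_lit 18) dC1d_i212)))))))))))))))))))))))))

noncomputable def dC1d_i214 : IL := (.s false (nat_lit 1) (nat_lit 27) (nat_lit 0) (nat_lit 2) (nat_lit 6) true (nat_lit 7) true (nat_lit 13) true (nat_lit 2) true (nat_lit 19) true (nat_lit 17) (.s false (nat_lit 1) (nat_lit 24) (nat_lit 2) (nat_lit 2) (nat_lit 4) true (nat_lit 7) true (nat_lit 15) true (nat_lit 2) true (nat_lit 17) true (nat_lit 17) (.s true (nat_lit 2) (nat_lit 25) (nat_lit 2) (nat_lit 2) (nat_lit 4) true (nat_lit 7) true (nat_lit 15) true (nat_lit 2) true (nat_lit 17) true (nat_lit 17) (.s true (nat_lit 1) (nat_lit 27) (nat_lit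 2) (nat_lit 2) (nat_lit 4) true (nat_lit 7) true (nat_lit 15) true (nat_lit 2) true (nat_lit 17) true (nat_lit 17) (.s true (nat_lit 2) (nat_lit 24) (nat_lit 2) (nat_lit 6) (nat_lit 0) true (nat_lit 15) true (nat_lit 19) true (nat_lit 2) true (nat_lit 17) true (nat_lit 13) (.s false (nat_lit 2) (nat_lit 25) (nat_lit 4) (nat_lit 2) (nat_lit 2) true (nat_lit 7) true (nat_lit 17) true (nat_lit 2) true (nat_lit 15) true (nat_lit 17) (.s true (nat_lit 3) (nat_lit 26) (nat_lit 4) (nat_lit 2) (nat_lit 2) true (nat_lit 7) true (nat_lit 17) true (nat_lit 2) true (nat_lit 15) true (nat_lit 17) (.s true (nat_lit 2) (nat_lit 29) (nat_lit 1) (nat_lit 2) (nat_lit 5) true (nat_lit 8) true (nat_lit 14) true (nat_lit 1) true (nat_lit 18) true (nat_lit 17) (.s true (nat_lit 2) (nat_lit 29) (nat_lit 2) (nat_lit 1) (nat_lit 5) true (nat_lit 6) true (nat_lit 14) true (nat_lit 1) true (nat_lit 17) true (nat_lit 18) (.s false (nat_lit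 2) (nat_lit 28) (nat_lit 5) (nat_lit 1) (nat_lit 2) true (nat_lit 6) true (nat_lit 17) true (nat_lit 1) true (nat_lit 14) true (nat_lit 18) (.s false (nat_lit 1) (nat_lit 28) (nat_lit 5) (nat_lit 2) (nat_lit 1) true (nat_lit 8) true (nat_lit 18) true (nat_lit 1) true (nat_lit 14) true (nat_lit 17) (.s true (nat_lit 1) (nat_lit 30) (nat_lit 6) (nat_lit 1) (nat_lit 1) true (nat_lit 6) true (nat_lit 18) true (nat_lit 1) true (nat_lit 13) true (nat_lit 18) (.s true (nat_lit 1) (nat_lit 34) (nat_lit 0) (nat_lit 1) (nat_lit 6) true (nat_lit 7) true (nat_lit 13) true (nat_lit 0) true (nat_lit 19) true (nat_lit 18) (.s false (nat_lit 3) (nat_lit 31) (nat_lit 0) (nat_lit 2) (nat_lit 5) true (nat_lit 9) true (nat_lit 14) true (nat_lit 0) true (nat_lit 19) true (nat_lit 17) (.s true (nat_lit 1) (nat_lit 32) (nat_lit 0) (nat_lit 2) (nat_lit 5) true (nat_lit 9) true (nat_lit 14) true (nat_lit 0) true (nat_lit 19) true (nat_lit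 17) (.s true (nat_lit 2) (nat_lit 34) (nat_lit 0) (nat_lit 5) (nat_lit 2) true (nat_lit 15) true (nat_lit 17) true (nat_lit 0) true (nat_lit 19) true (nat_lit 14) (.s true (nat_lit 2) (nat_lit 31) (nat_lit 1) (nat_lit 2) (nat_lit 4) true (nat_lit 9) true (nat_lit 15) true (nat_lit 0) true (nat_lit 18) true (nat_lit 17) (.s false (nat_lit 1) (nat_lit 32) (nat_lit 1) (nat_lit 2) (nat_lit 4) true (nat_lit 9) true (nat_lit 15) true (nat_lit 0) true (nat_lit 18) true (nat_lit 17) (.s false (nat_lit 1) (nat_lit 34) (nat_lit 1) (nat_lit 6) (nat_lit 0) true (nat_lit 16) true (nat_lit 19) true (nat_lit 0) true (nat_lit 18) true (nat_lit 13) (.s false (nat_lit 1) (nat_lit 31) (nat_lit 2) (nat_lit 0) (nat_lit 5) true (nat_lit 6) true (nat_lit 14) true (nat_lit 0) true (nat_lit 17) true (nat_lit 19) (.s true (nat_lit 1) (nat_lit 31) (nat_lit 3) (nat_lit 2) (nat_lit 2) true (nat_lit 9) true (nat_lit 17) true (nat_lit 0) true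 (nat_lit 16) true (nat_lit 17) (.s false (nat_lit 2) (nat_lit 31) (nat_lit 4) (nat_lit 2) (nat_lit 1) true (nat_lit 9) true (nat_lit 18) true (nat_lit 0) true (nat_lit 15) true (nat_lit 17) (.s true (nat_lit 3) (nat_lit 32) (nat_lit 4) (nat_lit 2) (nat_lit 1) true (nat_lit 9) true (nat_lit 18) true (nat_lit 0) true (nat_lit 15) true (nat_lit 17) (.s true (nat_lit 1) (nat_lit 39) (nat_lit 6) (nat_lit 0) (nat_lit 0) true (nat_lit 7) true (nat_lit 19) false (nat_lit 1) true (nat_lit 13) true (nat_lit 19) (.s false (nat_lit 2) (nat_lit 40) (nat_lit 0) (nat_lit 1) (nat_lit 5) true (nat_lit 9) true (nat_lit 14) false (nat_lit 2) true (nat_lit 19) true (nat_lit 18) dC1d_i213)))))))))))))))))))))))))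

noncomputable def dC1d_i215 : IL := (.s false (nat_lit 3) (nat_lit 18) (nat_lit 0) (nat_lit 0) (nat_lit 13) true (nat_lit 2) true (nat_lit 8) true (nat_lit 5) true (nat_lit 19) true (nat_lit 19) (.s true (nat_lit 2) (nat_lit 18) (nat_lit 0) (nat_lit 2) (nat_lit 8) true (nat_lit 4) true (nat_lit 11) true (nat_lit 5) true (nat_lit 19) true (nat_lit 17) (.s false (nat_lit 2) (nat_lit 18) (nat_lit 0) (nat_lit 8) (nat_lit 2) true (nat_lit 15) true (nat_lit 17) true (nat_lit 5) true (nat_lit 19) true (nat_lit 11) (.s false (nat_lit 3) (nat_lit 18) (nat_lit 1) (nat_lit 1) (nat_lit 9) true (nat_lit 3) true (nat_lit 10) true (nat_lit 5) true (nat_lit 18) true (nat_lit 18) (.s false (nat_lit 2) (nat_lit 18) (nat_lit 1) (nat_lit 3) (nat_lit 4) true (nat_lit 9) true (nat_lit 15) true (nat_lit 5) true (nat_lit 18) true (nat_lit 16) (.s true (nat_lit 1) (nat_lit 18) (nat_lit 2) (nat_lit 0) (nat_lit 8) true (nat_lit 2) true (nat_lit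 11) true (nat_lit 5) true (nat_lit 17) true (nat_lit 19) (.s true (nat_lit 3) (nat_lit 18) (nat_lit 2) (nat_lit 7) (nat_lit 1) true (nat_lit 14) true (nat_lit 18) true (nat_lit 5) true (nat_lit 17) true (nat_lit 12) (.s true (nat_lit 1) (nat_lit 18) (nat_lit 3) (nat_lit 3) (nat_lit 2) true (nat_lit 9) true (nat_lit 17) true (nat_lit 5) true (nat_lit 16) true (nat_lit 16) (.s true (nat_lit 1) (nat_lit 18) (nat_lit 7) (nat_lit 1) (nat_lit 2) true (nat_lit 3) true (nat_lit 17) true (nat_lit 5) true (nat_lit 12) true (nat_lit 18) (.s false (nat_lit 3) (nat_lit 18) (nat_lit 7) (nat_lit 2) (nat_lit 1) true (nat_lit 4) true (nat_lit 18) true (nat_lit 5) true (nat_lit 12) true (nat_lit 17) (.s true (nat_lit 3) (nat_lit 18) (nat_lit 8) (nat_lit 0) (nat_lit 2) true (nat_lit 2) true (nat_lit 17) true (nat_lit 5) true (nat_lit 11) true (nat_lit 19) (.s true (nat_lit 2) (nat_lit 18) (nat_lit 9) (nat_lit 1) (nat_lit 1) true (nat_lit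 3) true (nat_lit 18) true (nat_lit 5) true (nat_lit 10) true (nat_lit 18) (.s false (nat_lit 1) (nat_lit 18) (nat_lit 10) (nat_lit 1) (nat_lit 0) true (nat_lit 3) true (nat_lit 19) true (nat_lit 5) true (nat_lit 9) true (nat_lit 18) (.s true (nat_lit 1) (nat_lit 19) (nat_lit 2) (nat_lit 2) (nat_lit 6) true (nat_lit 5) true (nat_lit 13) true (nat_lit 4) true (nat_lit 17) true (nat_lit 17) (.s false (nat_lit 1) (nat_lit 21) (nat_lit 1) (nat_lit 2) (nat_lit 6) true (nat_lit 6) true (nat_lit 13) true (nat_lit 3) true (nat_lit 18) true (nat_lit 17) (.s false (nat_lit 2) (nat_lit 22) (nat_lit 1) (nat_lit 2) (nat_lit 6) true (nat_lit 6) true (nat_lit 13) true (nat_lit 3) true (nat_lit 18) true (nat_lit 17) (.s true (nat_lit 2) (nat_lit 22) (nat_lit 1) (nat_lit 6) (nat_lit 2) true (nat_lit 14) true (nat_lit 17) true (nat_lit 3) true (nat_lit 18) true (nat_lit 13) (.s false (nat_lit 3) (nat_lit 20) (nat_lit 2) (nat_lit 6)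 (nat_lit 1) true (nat_lit 14) true (nat_lit 18) true (nat_lit 3) true (nat_lit 17) true (nat_lit 13) (.s false (nat_lit 1) (nat_lit 21) (nat_lit 2) (nat_lit 6) (nat_lit 1) true (nat_lit 14) true (nat_lit 18) true (nat_lit 3) true (nat_lit 17) true (nat_lit 13) (.s false (nat_lit 3) (nat_lit 20) (nat_lit 5) (nat_lit 2) (nat_lit 2) true (nat_lit 6) true (nat_lit 17) true (nat_lit 3) true (nat_lit 14) true (nat_lit 17) (.s false (nat_lit 3) (nat_lit 21) (nat_lit 5) (nat_lit 2) (nat_lit 2) true (nat_lit 6) true (nat_lit 17) true (nat_lit 3) true (nat_lit 14) true (nat_lit 17) (.s true (nat_lit 2) (nat_lit 22) (nat_lit 5) (nat_lit 2) (nat_lit 2) true (nat_lit 6) true (nat_lit 17) true (nat_lit 3) true (nat_lit 14) true (nat_lit 17) (.s true (nat_lit 2) (nat_lit 21) (nat_lit 6) (nat_lit 1) (nat_lit 2) true (nat_lit 5) true (nat_lit 17) true (nat_lit 3) true (nat_lit 13) true (nat_lit 18) (.s false (nat_lit 2) (nat_lit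 24) (nat_lit 0) (nat_lit 2) (nat_lit 6) true (nat_lit 7) true (nat_lit 13) true (nat_lit 2) true (nat_lit 19) true (nat_lit 17) (.s false (nat_lit 2) (nat_lit 25) (nat_lit 0) (nat_lit 2) (nat_lit 6) true (nat_lit 7) true (nat_lit 13) true (nat_lit 2) true (nat_lit 19) true (nat_lit 17) dC1d_i214)))))))))))))))))))))))))

noncomputable def dC1d_i216 : IL := (.s true (nat_lit 1) (nat_lit 7) (nat_lit 6) (nat_lit 1) (nat_lit 6) false (nat_lit 4) true (nat_lit 13) true (nat_lit 12) true (nat_lit 13) true (nat_lit 18) (.s true (nat_lit 2) (nat_lit 7) (nat_lit 6) (nat_lit 6) (nat_lit 1) true (nat_lit 6) true (nat_lit 18) true (nat_lit 12) true (nat_lit 13) true (nat_lit 13) (.s false (nat_lit 2) (nat_lit 8) (nat_lit 2) (nat_lit 4) (nat_lit 6) true (nat_lit 5) true (nat_lit 13) true (nat_lit 11) true (nat_lit 17) true (nat_lit 15) (.s false (nat_lit 3) (nat_lit 8) (nat_lit 4) (nat_lit 2) (nat_lit 6) false (nat_lit 2) true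 (nat_lit 13) true (nat_lit 11) true (nat_lit 15) true (nat_lit 17) (.s false (nat_lit 2) (nat_lit 8) (nat_lit 6) (nat_lit 0) (nat_lit 6) false (nat_lit 4) true (nat_lit 13) true (nat_lit 11) true (nat_lit 13) true (nat_lit 19) (.s false (nat_lit 1) (nat_lit 8) (nat_lit 6) (nat_lit 2) (nat_lit 4) false (nat_lit 2) true (nat_lit 15) true (nat_lit 11) true (nat_lit 13) true (nat_lit 17) (.s true (nat_lit 1) (nat_lit 8) (nat_lit 6) (nat_lit 6) (nat_lit 0) true (nat_lit 7) true (nat_lit 19) true (nat_lit 11) true (nat_lit 13) true (nat_lit 13) (.s false (nat_lit 2) (nat_lit 10) (nat_lit 2) (nat_lit 2) (nat_lit 10) true (nat_lit 0) true (nat_lit 9) true (nat_lit 9) true (nat_lit 17) true (nat_lit 17) (.s true (nat_lit 2) (nat_lit 13) (nat_lit 9) (nat_lit 2) (nat_lit 2) true (nat_lit 1) true (nat_lit 17) true (nat_lit 8) true (nat_lit 10) true (nat_lit 17) (.s false (nat_lit 2) (nat_lit 14) (nat_lit 1) (nat_lit 1) (nat_lit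 14) true (nat_lit 0) true (nat_lit 7) true (nat_lit 7) true (nat_lit 18) true (nat_lit 18) (.s true (nat_lit 1) (nat_lit 14) (nat_lit 1) (nat_lit 1) (nat_lit 15) true (nat_lit 0) true (nat_lit 7) true (nat_lit 7) true (nat_lit 18) true (nat_lit 18) (.s false (nat_lit 1) (nat_lit 15) (nat_lit 1) (nat_lit 1) (nat_lit 15) true (nat_lit 0) true (nat_lit 7) true (nat_lit 7) true (nat_lit 18) true (nat_lit 18) (.s false (nat_lit 2) (nat_lit 14) (nat_lit 1) (nat_lit 2) (nat_lit 11) true (nat_lit 2) true (nat_lit 9) true (nat_lit 7) true (nat_lit 18) true (nat_lit 17) (.s false (nat_lit 2) (nat_lit 14) (nat_lit 2) (nat_lit 1) (nat_lit 11) true (nat_lit 0) true (nat_lit 9) true (nat_lit 7) true (nat_lit 17) true (nat_lit 18) (.s false (nat_lit 2) (nat_lit 14) (nat_lit 2) (nat_lit 8) (nat_lit 2) true (nat_lit 13) true (nat_lit 17) true (nat_lit 7) true (nat_lit 17) true (nat_lit 11) (.s true (nat_lit 1) (nat_lit 16) (nat_lit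 0) (nat_lit 0) (nat_lit 16) true (nat_lit 0) true (nat_lit 6) true (nat_lit 6) true (nat_lit 19) true (nat_lit 19) (.s false (nat_lit 2) (nat_lit 17) (nat_lit 0) (nat_lit 15) (nat_lit 1) true (nat_lit 16) true (nat_lit 18) true (nat_lit 6) true (nat_lit 19) true (nat_lit 7) (.s false (nat_lit 1) (nat_lit 16) (nat_lit 1) (nat_lit 2) (nat_lit 9) true (nat_lit 3) true (nat_lit 10) true (nat_lit 6) true (nat_lit 18) true (nat_lit 17) (.s true (nat_lit 3) (nat_lit 16) (nat_lit 2) (nat_lit 1) (nat_lit 9) true (nat_lit 1) true (nat_lit 10) true (nat_lit 6) true (nat_lit 17) true (nat_lit 18) (.s true (nat_lit 2) (nat_lit 16) (nat_lit 2) (nat_lit 2) (nat_lit 7) true (nat_lit 3) true (nat_lit 12) true (nat_lit 6) true (nat_lit 17) true (nat_lit 17) (.s true (nat_lit 1) (nat_lit 17) (nat_lit 2) (nat_lit 7) (nat_lit 2) true (nat_lit 13) true (nat_lit 17) true (nat_lit 6) true (nat_lit 17) true (nat_lit 12) (.s false (nat_lit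 1) (nat_lit 16) (nat_lit 7) (nat_lit 2) (nat_lit 2) true (nat_lit 3) true (nat_lit 17) true (nat_lit 6) true (nat_lit 12) true (nat_lit 17) (.s true (nat_lit 3) (nat_lit 16) (nat_lit 9) (nat_lit 1) (nat_lit 2) true (nat_lit 1) true (nat_lit 17) true (nat_lit 6) true (nat_lit 10) true (nat_lit 18) (.s true (nat_lit 3) (nat_lit 17) (nat_lit 9) (nat_lit 2) (nat_lit 1) true (nat_lit 3) true (nat_lit 18) true (nat_lit 6) true (nat_lit 10) true (nat_lit 17) (.s false (nat_lit 2) (nat_lit 16) (nat_lit 11) (nat_lit 2) (nat_lit 0) true (nat_lit 3) true (nat_lit 19) true (nat_lit 6) true (nat_lit 9) true (nat_lit 17) dC1d_i215)))))))))))))))))))))))))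

noncomputable def dC1d_i217 : IL := (.e false (nat_lit 3) (nat_lit 263) (nat_lit 1) (nat_lit 18) (.e false (nat_lit 2) (nat_lit 265) (nat_lit 1) (nat_lit 18) (.e false (nat_lit 1) (nat_lit 266) (nat_lit 1) (nat_lit 18) (.e true (nat_lit 2) (nat_lit 268) (nat_lit 1) (nat_lit 18) (.e true (nat_lit 2) (nat_lit 270) (nat_lit 1) (nat_lit 18) (.e false (nat_lit 3) (nat_lit 272) (nat_lit 1) (nat_lit 18) (.e false (nat_lit 1) (nat_lit 273) (nat_lit 1) (nat_lit 18) (.e false (nat_lit 1) (nat_lit 274) (nat_lit 1) (nat_lit 18) (.e true (nat_lit 3) (nat_lit 279) (nat_lit 1) (nat_lit 18) (.e false (nat_lit 2) (nat_lit 280) (nat_lit 1) (nat_lit 18) (.e false (nat_lit 3) (nat_lit 288) (nat_lit 1) (nat_lit 18) (.e true (nat_lit 3) (nat_lit 267) (nat_lit 1) (nat_lit 18) (.e false (nat_lit 2) (nat_lit 269) (nat_lit 1) (nat_lit 18) (.e false (nat_lit 3) (nat_lit 278) (nat_lit 1) (nat_lit 18) (.e true (nat_lit 1) (nat_lit 232) (nat_lit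 2) (nat_lit 17) (.e true (nat_lit 3) (nat_lit 251) (nat_lit 2) (nat_lit 17) (.e false (nat_lit 2) (nat_lit 277) (nat_lit 1) (nat_lit 18) (.e false (nat_lit 3) (nat_lit 286) (nat_lit 1) (nat_lit 18) (.e false (nat_lit 2) (nat_lit 136) (nat_lit 5) (nat_lit 14) (.e false (nat_lit 1) (nat_lit 143) (nat_lit 5) (nat_lit 14) (.e false (nat_lit 3) (nat_lit 281) (nat_lit 1) (nat_lit 18) (.e true (nat_lit 3) (nat_lit 144) (nat_lit 5) (nat_lit 14) (.e true (nat_lit 3) (nat_lit 282) (nat_lit 1) (nat_lit 18) (.u (nat_lit 2) (.p (nat_lit 2) (nat_lit 2) (.n (nat_lit 3) (nat_lit 1) (.n (nat_lit 5) (nat_lit 2) (.p (nat_lit 6) (nat_lit 4) (.n (nat_lit 7) (nat_lit 5) (.n (nat_lit 9) (nat_lit 3) (.p (nat_lit 10) (nat_lit 2) (.n (nat_lit 11) (nat_lit 3) (.n (nat_lit 12) (nat_lit 3) (.p (nat_lit 13) (nat_lit 2) (.p (nat_lit 14) (nat_lit 1) (.n (nat_lit 15) (nat_lit 5) (.p (nat_lit 16) (nat_lit 1) (.p (nat_lit 17) (nat_lit 5) (.n (nat_lit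 18) (nat_lit 3) (.p (nat_lit 20) (nat_lit 2) (.p (nat_lit 24) (nat_lit 2) (.p (nat_lit 25) (nat_lit 1) (.n (nat_lit 26) (nat_lit 5) (.p (nat_lit 27) (nat_lit 3) (.p (nat_lit 28) (nat_lit 2) (.n (nat_lit 29) (nat_lit 1) (.p (nat_lit 31) (nat_lit 2) (.n (nat_lit 32) (nat_lit 3) (.p (nat_lit 33) (nat_lit 2) (.p (nat_lit 34) (nat_lit 1) (.n (nat_lit 35) (nat_lit 2) (.n (nat_lit 36) (nat_lit 3) (.p (nat_lit 37) (nat_lit 1) (.p (nat_lit 38) (nat_lit 5) (.n (nat_lit 39) (nat_lit 6) (.n (nat_lit 40) (nat_lit 6) (.p (nat_lit 41) (nat_lit 3) (.n (nat_lit 45) (nat_lit 1) (.n (nat_lit 49) (nat_lit 2) (.p (nat_lit 51) (nat_lit 1) (.n (nat_lit 52) (nat_lit 1) (.p (nat_lit 54) (nat_lit 2) (.p (nat_lit 55) (nat_lit 3) (.p (nat_lit 56) (nat_lit 1) (.p (nat_lit 57) (nat_lit 1) (.n (nat_lit 58) (nat_lit 1) (.p (nat_lit 59) (nat_lit 1) (.n (nat_lit 60) (nat_lit 2) (.p (nat_lit 62) (nat_lit 1) (.n (nat_lit 63) (nat_lit 3) (.p (nat_lit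 64) (nat_lit 1) (.p (nat_lit 68) (nat_lit 1) (.n (nat_lit 69) (nat_lit 1) (.p (nat_lit 70) (nat_lit 1) (.n (nat_lit 267) (nat_lit 1) (.n (nat_lit 327) (nat_lit 2) (.p (nat_lit 328) (nat_lit 4) (.n (nat_lit 329) (nat_lit 1) (.n (nat_lit 330) (nat_lit 2) (.n (nat_lit 331) (nat_lit 1) (.p (nat_lit 333) (nat_lit 1) (.n (nat_lit 334) (nat_lit 4) (.n (nat_lit 335) (nat_lit 3) (.p (nat_lit 336) (nat_lit 4) .z)))))))))))))))))))))))))))))))))))))))))))))))))))))))))))) (.u (nat_lit 2) (.n (nat_lit 337) (nat_lit 4) (.p (nat_lit 339) (nat_lit 1) (.n (nat_lit 341) (nat_lit 1) (.p (nat_lit 342) (nat_lit 3) (.n (nat_lit 343) (nat_lit 3) (.p (nat_lit 344) (nat_lit 1) (.n (nat_lit 345) (nat_lit 1) (.n (nat_lit 346) (nat_lit 3) (.p (nat_lit 347) (nat_lit 1) (.p (nat_lit 348) (nat_lit 2) (.p (nat_lit 349) (nat_lit 5) (.n (nat_lit 350) (nat_lit 4) (.n (nat_lit 351) (nat_lit 5) (.n (nat_lit 352) (nat_lit 1) (.p (nat_lit 353) (nat_lit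 7) (.p (nat_lit 354) (nat_lit 1) (.p (nat_lit 355) (nat_lit 2) (.n (nat_lit 356) (nat_lit 3) (.p (nat_lit 357) (nat_lit 2) (.p (nat_lit 358) (nat_lit 5) (.n (nat_lit 359) (nat_lit 4) (.n (nat_lit 360) (nat_lit 4) (.p (nat_lit 363) (nat_lit 1) (.n (nat_lit 366) (nat_lit 2) (.p (nat_lit 371) (nat_lit 3) (.n (nat_lit 372) (nat_lit 2) (.n (nat_lit 373) (nat_lit 1) (.p (nat_lit 374) (nat_lit 1) (.p (nat_lit 375) (nat_lit 2) (.n (nat_lit 376) (nat_lit 1) (.n (nat_lit 378) (nat_lit 1) (.p (nat_lit 379) (nat_lit 4) (.p (nat_lit 381) (nat_lit 4) (.n (nat_lit 382) (nat_lit 2) (.p (nat_lit 383) (nat_lit 1) (.p (nat_lit 384) (nat_lit 1) (.n (nat_lit 385) (nat_lit 1) (.p (nat_lit 387) (nat_lit 2) (.n (nat_lit 388) (nat_lit 4) (.n (nat_lit 389) (nat_lit 1) (.n (nat_lit 392) (nat_lit 2) (.n (nat_lit 393) (nat_lit 2) (.p (nat_lit 394) (nat_lit 3) (.n (nat_lit 396) (nat_lit 1) (.n (nat_lit 402) (nat_lit 4) (.p (nat_lit 404) (nat_lit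 1) .z)))))))))))))))))))))))))))))))))))))))))))))) .nil)))))))))))))))))))))))))

noncomputable def dC1d_i218 : IL := (.e true (nat_lit 3) (nat_lit 228) (nat_lit 2) (nat_lit 17) (.e false (nat_lit 1) (nat_lit 229) (nat_lit 2) (nat_lit 17) (.e false (nat_lit 3) (nat_lit 230) (nat_lit 2) (nat_lit 17) (.e false (nat_lit 1) (nat_lit 234) (nat_lit 2) (nat_lit 17) (.e true (nat_lit 3) (nat_lit 235) (nat_lit 2) (nat_lit 17) (.e false (nat_lit 1) (nat_lit 239) (nat_lit 2) (nat_lit 17) (.e true (nat_lit 3) (nat_lit 241) (nat_lit 2) (nat_lit 17) (.e true (nat_lit 3) (nat_lit 244) (nat_lit 2) (nat_lit 17) (.e false (nat_lit 2) (nat_lit 245) (nat_lit 2) (nat_lit 17) (.e false (nat_lit 2) (nat_lit 248) (nat_lit 2) (nat_lit 17) (.e false (nat_lit 3) (nat_lit 256) (nat_lit 2) (nat_lit 17) (.e true (nat_lit 1) (nat_lit 258) (nat_lit 2) (nat_lit 17) (.e true (nat_lit 3) (nat_lit 259) (nat_lit 2) (nat_lit 17) (.e true (nat_lit 1)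 (nat_lit 217) (nat_lit 2) (nat_lit 17) (.e false (nat_lit 2) (nat_lit 231) (nat_lit 2) (nat_lit 17) (.e false (nat_lit 1) (nat_lit 237) (nat_lit 2) (nat_lit 17) (.e true (nat_lit 2) (nat_lit 242) (nat_lit 2) (nat_lit 17) (.e true (nat_lit 1) (nat_lit 215) (nat_lit 2) (nat_lit 17) (.e false (nat_lit 3) (nat_lit 218) (nat_lit 2) (nat_lit 17) (.e false (nat_lit 2) (nat_lit 233) (nat_lit 2) (nat_lit 17) (.e false (nat_lit 1) (nat_lit 94) (nat_lit 9) (nat_lit 10) (.e true (nat_lit 1) (nat_lit 96) (nat_lit 9) (nat_lit 10) (.e true (nat_lit 1) (nat_lit 97) (nat_lit 9) (nat_lit 10) (.e false (nat_lit 3) (nat_lit 260) (nat_lit 1) (nat_lit 18) (.e true (nat_lit 3) (nat_lit 262) (nat_lit 1) (nat_lit 18) dC1d_i217)))))))))))))))))))))))))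

noncomputable def dC1d_i219 : IL := (.s false (nat_lit 2) (nat_lit 21) (nat_lit 6) (nat_lit 2) (nat_lit 1) true (nat_lit 6) true (nat_lit 18) true (nat_lit 3) true (nat_lit 13) true (nat_lit 17) (.s true (nat_lit 3) (nat_lit 28) (nat_lit 5) (nat_lit 1) (nat_lit 2) true (nat_lit 6) true (nat_lit 17) true (nat_lit 1) true (nat_lit 14) true (nat_lit 18) (.s true (nat_lit 3) (nat_lit 28) (nat_lit 5) (nat_lit 2) (nat_lit 1) true (nat_lit 8) true (nat_lit 18) true (nat_lit 1) true (nat_lit 14) true (nat_lit 17) (.s false (nat_lit 2) (nat_lit 59) (nat_lit 1) (nat_lit 2) (nat_lit 2) true (nat_lit 14) true (nat_lit 17) false (nat_lit 6) true (nat_lit 18) true (nat_lit 17) (.s true (nat_lit 3) (nat_lit 56) (nat_lit 2) (nat_lit 1) (nat_lit 2) true (nat_lit 13) true (nat_lit 17) false (nat_lit 6) true (nat_lit 17) true (nat_lit 18) (.s false (nat_lit 3) (nat_lit 59) (nat_lit 2) (nat_lit 1) (nat_lit 2) true (nat_lit 13) true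 (nat_lit 17) false (nat_lit 6) true (nat_lit 17) true (nat_lit 18) (.s true (nat_lit 2) (nat_lit 56) (nat_lit 2) (nat_lit 2) (nat_lit 1) true (nat_lit 14) true (nat_lit 18) false (nat_lit 6) true (nat_lit 17) true (nat_lit 17) (.s false (nat_lit 1) (nat_lit 77) (nat_lit 1) (nat_lit 1) (nat_lit 2) true (nat_lit 14) true (nat_lit 17) false (nat_lit 8) true (nat_lit 18) true (nat_lit 18) (.s true (nat_lit 3) (nat_lit 78) (nat_lit 1) (nat_lit 1) (nat_lit 2) true (nat_lit 14) true (nat_lit 17) false (nat_lit 8) true (nat_lit 18) true (nat_lit 18) (.s false (nat_lit 3) (nat_lit 79) (nat_lit 1) (nat_lit 2) (nat_lit 1) false (nat_lit 21) true (nat_lit 18) false (nat_lit 8) true (nat_lit 18) true (nat_lit 17) (.s true (nat_lit 3) (nat_lit 81) (nat_lit 1) (nat_lit 2) (nat_lit 1) false (nat_lit 21) true (nat_lit 18) false (nat_lit 8) true (nat_lit 18) true (nat_lit 17) (.e false (nat_lit 2) (nat_lit 93) (nat_lit 9) (nat_lit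 10) (.e true (nat_lit 3) (nat_lit 77) (nat_lit 13) (nat_lit 8) (.e false (nat_lit 3) (nat_lit 78) (nat_lit 13) (nat_lit 8) (.e false (nat_lit 3) (nat_lit 236) (nat_lit 2) (nat_lit 17) (.e true (nat_lit 3) (nat_lit 212) (nat_lit 2) (nat_lit 17) (.e false (nat_lit 3) (nat_lit 213) (nat_lit 2) (nat_lit 17) (.e false (nat_lit 3) (nat_lit 214) (nat_lit 2) (nat_lit 17) (.e true (nat_lit 2) (nat_lit 216) (nat_lit 2) (nat_lit 17) (.e true (nat_lit 1) (nat_lit 221) (nat_lit 2) (nat_lit 17) (.e false (nat_lit 2) (nat_lit 222) (nat_lit 2) (nat_lit 17) (.e true (nat_lit 1) (nat_lit 223) (nat_lit 2) (nat_lit 17) (.e true (nat_lit 2) (nat_lit 224) (nat_lit 2) (nat_lit 17) (.e false (nat_lit 2) (nat_lit 226) (nat_lit 2) (nat_lit 17) (.e false (nat_lit 1) (nat_lit 227) (nat_lit 2) (nat_lit 17) dC1d_i218)))))))))))))))))))))))))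

noncomputable def dC1d_i220 : IL := (.e false (nat_lit 3) (nat_lit 273) (nat_lit 1) (nat_lit 18) (.e true (nat_lit 1) (nat_lit 274) (nat_lit 1) (nat_lit 18) (.e true (nat_lit 3) (nat_lit 278) (nat_lit 1) (nat_lit 18) (.e false (nat_lit 1) (nat_lit 279) (nat_lit 1) (nat_lit 18) (.e false (nat_lit 2) (nat_lit 280) (nat_lit 1) (nat_lit 18) (.e false (nat_lit 1) (nat_lit 288) (nat_lit 1) (nat_lit 18) (.e false (nat_lit 3) (nat_lit 292) (nat_lit 0) (nat_lit 19) (.e false (nat_lit 3) (nat_lit 294) (nat_lit 0) (nat_lit 19) (.e false (nat_lit 3) (nat_lit 295) (nat_lit 0) (nat_lit 19) (.e false (nat_lit 1) (nat_lit 296) (nat_lit 0) (nat_lit 19) (.e true (nat_lit 1) (nat_lit 297) (nat_lit 0) (nat_lit 19) (.e false (nat_lit 3) (nat_lit 299) (nat_lit 0) (nat_lit 19) (.e false (nat_lit 2) (nat_lit 300) (nat_lit 0) (nat_lit 19) (.e true (nat_lit 3) (nat_lit 301) (nat_lit 0) (nat_lit 19) (.e true (nat_lit 1) (nat_lit 304) (nat_lit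 0) (nat_lit 19) (.e false (nat_lit 3) (nat_lit 308) (nat_lit 0) (nat_lit 19) (.e false (nat_lit 3) (nat_lit 310) (nat_lit 0) (nat_lit 19) (.e true (nat_lit 1) (nat_lit 311) (nat_lit 0) (nat_lit 19) (.e false (nat_lit 2) (nat_lit 317) (nat_lit 0) (nat_lit 19) (.e true (nat_lit 3) (nat_lit 318) (nat_lit 0) (nat_lit 19) (.e false (nat_lit 1) (nat_lit 319) (nat_lit 0) (nat_lit 19) (.e true (nat_lit 3) (nat_lit 291) (nat_lit 0) (nat_lit 19) (.u (nat_lit 2) (.p (nat_lit 0) (nat_lit 7) (.n (nat_lit 1) (nat_lit 2) (.n (nat_lit 2) (nat_lit 1) (.n (nat_lit 3) (nat_lit 1) (.p (nat_lit 4) (nat_lit 1) (.p (nat_lit 5) (nat_lit 3) (.p (nat_lit 6) (nat_lit 1) (.n (nat_lit 7) (nat_lit 2) (.p (nat_lit 8) (nat_lit 3) (.p (nat_lit 9) (nat_lit 3) (.p (nat_lit 10) (nat_lit 1) (.p (nat_lit 11) (nat_lit 1) (.n (nat_lit 12) (nat_lit 6) (.n (nat_lit 13) (nat_lit 2) (.n (nat_lit 14) (nat_lit 3) (.n (nat_lit 15) (nat_lit 1) (.n (nat_lit 17)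 (nat_lit 1) (.n (nat_lit 18) (nat_lit 1) (.p (nat_lit 19) (nat_lit 4) (.p (nat_lit 20) (nat_lit 1) (.n (nat_lit 26) (nat_lit 3) (.n (nat_lit 27) (nat_lit 3) (.p (nat_lit 28) (nat_lit 2) (.p (nat_lit 29) (nat_lit 3) (.p (nat_lit 30) (nat_lit 5) (.p (nat_lit 31) (nat_lit 1) (.p (nat_lit 32) (nat_lit 3) (.p (nat_lit 33) (nat_lit 1) (.p (nat_lit 34) (nat_lit 2) (.n (nat_lit 35) (nat_lit 1) (.n (nat_lit 36) (nat_lit 4) (.n (nat_lit 37) (nat_lit 8) (.n (nat_lit 38) (nat_lit 1) (.n (nat_lit 40) (nat_lit 2) (.p (nat_lit 49) (nat_lit 3) (.n (nat_lit 50) (nat_lit 1) (.n (nat_lit 52) (nat_lit 1) (.n (nat_lit 53) (nat_lit 1) (.p (nat_lit 54) (nat_lit 1) (.n (nat_lit 55) (nat_lit 2) (.p (nat_lit 56) (nat_lit 1) (.n (nat_lit 57) (nat_lit 1) (.p (nat_lit 58) (nat_lit 2) (.p (nat_lit 62) (nat_lit 1) (.n (nat_lit 64) (nat_lit 1) (.p (nat_lit 69) (nat_lit 1) (.n (nat_lit 70) (nat_lit 2) (.p (nat_lit 140) (nat_lit 1) (.n (nat_lit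 148) (nat_lit 1) (.n (nat_lit 171) (nat_lit 1) (.p (nat_lit 237) (nat_lit 1) (.p (nat_lit 238) (nat_lit 1) (.p (nat_lit 249) (nat_lit 1) (.n (nat_lit 266) (nat_lit 1) (.n (nat_lit 327) (nat_lit 4) (.p (nat_lit 329) (nat_lit 1) (.p (nat_lit 330) (nat_lit 1) (.p (nat_lit 331) (nat_lit 1) (.p (nat_lit 332) (nat_lit 4) (.p (nat_lit 333) (nat_lit 7) .z)))))))))))))))))))))))))))))))))))))))))))))))))))))))))))) (.u (nat_lit 2) (.p (nat_lit 334) (nat_lit 1) (.p (nat_lit 335) (nat_lit 2) (.n (nat_lit 336) (nat_lit 3) (.p (nat_lit 337) (nat_lit 5) (.p (nat_lit 338) (nat_lit 2) (.n (nat_lit 340) (nat_lit 9) (.n (nat_lit 341) (nat_lit 5) (.n (nat_lit 343) (nat_lit 3) (.p (nat_lit 344) (nat_lit 3) (.n (nat_lit 345) (nat_lit 8) (.n (nat_lit 346) (nat_lit 2) (.n (nat_lit 347) (nat_lit 4) (.p (nat_lit 348) (nat_lit 3) (.n (nat_lit 349) (nat_lit 4) (.p (nat_lit 350) (nat_lit 3) (.n (nat_lit 351) (nat_lit 3) (.n (nat_lit 352) (nat_lit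 2) (.n (nat_lit 353) (nat_lit 5) (.n (nat_lit 354) (nat_lit 3) (.n (nat_lit 355) (nat_lit 3) (.n (nat_lit 356) (nat_lit 5) (.n (nat_lit 357) (nat_lit 2) (.p (nat_lit 358) (nat_lit 5) (.n (nat_lit 359) (nat_lit 1) (.n (nat_lit 360) (nat_lit 4) (.p (nat_lit 361) (nat_lit 10) (.n (nat_lit 362) (nat_lit 1) (.p (nat_lit 363) (nat_lit 7) (.p (nat_lit 364) (nat_lit 5) (.n (nat_lit 368) (nat_lit 5) (.p (nat_lit 375) (nat_lit 8) (.n (nat_lit 376) (nat_lit 1) (.n (nat_lit 377) (nat_lit 5) (.p (nat_lit 378) (nat_lit 1) (.n (nat_lit 379) (nat_lit 4) (.p (nat_lit 380) (nat_lit 8) (.p (nat_lit 381) (nat_lit 7) (.p (nat_lit 382) (nat_lit 13) (.n (nat_lit 383) (nat_lit 1) (.n (nat_lit 384) (nat_lit 11) (.p (nat_lit 385) (nat_lit 3) (.p (nat_lit 386) (nat_lit 4) (.p (nat_lit 387) (nat_lit 3) (.n (nat_lit 388) (nat_lit 5) (.p (nat_lit 389) (nat_lit 4) (.n (nat_lit 392) (nat_lit 3) (.n (nat_lit 393) (nat_lit 5) (.n (nat_lit 394) (nat_lit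 11) (.n (nat_lit 395) (nat_lit 3) (.n (nat_lit 396) (nat_lit 1) (.p (nat_lit 397) (nat_lit 1) (.n (nat_lit 398) (nat_lit 1) (.p (nat_lit 399) (nat_lit 3) (.p (nat_lit 400) (nat_lit 2) (.p (nat_lit 401) (nat_lit 9) (.p (nat_lit 402) (nat_lit 4) (.p (nat_lit 403) (nat_lit 5) (.p (nat_lit 405) (nat_lit 6) (.p (nat_lit 407) (nat_lit 3) (.p (nat_lit 408) (nat_lit 12) .z)))))))))))))))))))))))))))))))))))))))))))))))))))))))))))) (.u (nat_lit 2) (.p (nat_lit 409) (nat_lit 4) (.p (nat_lit 410) (nat_lit 8) (.p (nat_lit 411) (nat_lit 8) (.n (nat_lit 412) (nat_lit 8) (.n (nat_lit 413) (nat_lit 6) (.p (nat_lit 414) (nat_lit 2) (.n (nat_lit 415) (nat_lit 7) (.p (nat_lit 416) (nat_lit 7) (.n (nat_lit 417) (nat_lit 5) (.n (nat_lit 419) (nat_lit 7) (.p (nat_lit 420) (nat_lit 2) (.n (nat_lit 422) (nat_lit 4) (.p (nat_lit 423) (nat_lit 5) (.p (nat_lit 425) (nat_lit 6) (.n (nat_lit 427) (nat_lit 3) (.n (nat_lit 428) (nat_lit 2) (.p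 (nat_lit 431) (nat_lit 2) (.n (nat_lit 432) (nat_lit 1) (.n (nat_lit 433) (nat_lit 3) (.p (nat_lit 434) (nat_lit 1) .z)))))))))))))))))))) .nil)))))))))))))))))))))))))

noncomputable def dC1d_i221 : IL := (.e false (nat_lit 3) (nat_lit 248) (nat_lit 2) (nat_lit 17) (.e true (nat_lit 2) (nat_lit 213) (nat_lit 2) (nat_lit 17) (.e true (nat_lit 1) (nat_lit 215) (nat_lit 2) (nat_lit 17) (.e true (nat_lit 2) (nat_lit 222) (nat_lit 2) (nat_lit 17) (.e false (nat_lit 3) (nat_lit 245) (nat_lit 2) (nat_lit 17) (.e true (nat_lit 3) (nat_lit 307) (nat_lit 0) (nat_lit 19) (.e true (nat_lit 3) (nat_lit 316) (nat_lit 0) (nat_lit 19) (.e false (nat_lit 1) (nat_lit 286) (nat_lit 1) (nat_lit 18) (.e false (nat_lit 2) (nat_lit 298) (nat_lit 0) (nat_lit 19) (.e true (nat_lit 1) (nat_lit 260) (nat_lit 1) (nat_lit 18) (.e false (nat_lit 3) (nat_lit 290) (nat_lit 0) (nat_lit 19) (.e false (nat_lit 3) (nat_lit 143) (nat_lit 5) (nat_lit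 14) (.e true (nat_lit 3) (nat_lit 144) (nat_lit 5) (nat_lit 14) (.e true (nat_lit 1) (nat_lit 261) (nat_lit 1) (nat_lit 18) (.e true (nat_lit 1) (nat_lit 262) (nat_lit 1) (nat_lit 18) (.e false (nat_lit 3) (nat_lit 263) (nat_lit 1) (nat_lit 18) (.e true (nat_lit 3) (nat_lit 264) (nat_lit 1) (nat_lit 18) (.e true (nat_lit 2) (nat_lit 265) (nat_lit 1) (nat_lit 18) (.e true (nat_lit 2) (nat_lit 266) (nat_lit 1) (nat_lit 18) (.e true (nat_lit 3) (nat_lit 267) (nat_lit 1) (nat_lit 18) (.e true (nat_lit 3) (nat_lit 268) (nat_lit 1) (nat_lit 18) (.e false (nat_lit 2) (nat_lit 269) (nat_lit 1) (nat_lit 18) (.e false (nat_lit 2) (nat_lit 270) (nat_lit 1) (nat_lit 18) (.e true (nat_lit 1) (nat_lit 271) (nat_lit 1) (nat_lit 18) (.e false (nat_lit 1) (nat_lit 272) (nat_lit 1) (nat_lit 18) dC1d_i220)))))))))))))))))))))))))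

noncomputable def dC1d_i222 : IL := (.s false (nat_lit 2) (nat_lit 100) (nat_lit 1) (nat_lit 0) (nat_lit 1) false (nat_lit 21) true (nat_lit 18) false (nat_lit 11) true (nat_lit 18) true (nat_lit 19) (.s false (nat_lit 2) (nat_lit 101) (nat_lit 1) (nat_lit 0) (nat_lit 1) false (nat_lit 21) true (nat_lit 18) false (nat_lit 11) true (nat_lit 18) true (nat_lit 19) (.s true (nat_lit 1) (nat_lit 103) (nat_lit 0) (nat_lit 1) (nat_lit 0) false (nat_lit 20) true (nat_lit 19) false (nat_lit 12) true (nat_lit 19) true (nat_lit 18) (.s true (nat_lit 1) (nat_lit 104) (nat_lit 0) (nat_lit 1) (nat_lit 0) false (nat_lit 20) true (nat_lit 19) false (nat_lit 12) true (nat_lit 19) true (nat_lit 18) (.s false (nat_lit 1) (nat_lit 105) (nat_lit 0) (nat_lit 1) (nat_lit 0) false (nat_lit 20) true (nat_lit 19) false (nat_lit 12) true (nat_lit 19) true (nat_lit 18) (.e true (nat_lit 1) (nat_lit 277) (nat_lit 1) (nat_lit 18) (.e true (nat_lit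 1) (nat_lit 212) (nat_lit 2) (nat_lit 17) (.e true (nat_lit 1) (nat_lit 214) (nat_lit 2) (nat_lit 17) (.e true (nat_lit 1) (nat_lit 216) (nat_lit 2) (nat_lit 17) (.e false (nat_lit 2) (nat_lit 217) (nat_lit 2) (nat_lit 17) (.e true (nat_lit 3) (nat_lit 223) (nat_lit 2) (nat_lit 17) (.e false (nat_lit 3) (nat_lit 224) (nat_lit 2) (nat_lit 17) (.e false (nat_lit 2) (nat_lit 226) (nat_lit 2) (nat_lit 17) (.e false (nat_lit 2) (nat_lit 227) (nat_lit 2) (nat_lit 17) (.e false (nat_lit 1) (nat_lit 229) (nat_lit 2) (nat_lit 17) (.e false (nat_lit 3) (nat_lit 231) (nat_lit 2) (nat_lit 17) (.e true (nat_lit 3) (nat_lit 232) (nat_lit 2) (nat_lit 17) (.e false (nat_lit 3) (nat_lit 233) (nat_lit 2) (nat_lit 17) (.e false (nat_lit 2) (nat_lit 234) (nat_lit 2) (nat_lit 17) (.e true (nat_lit 2) (nat_lit 235) (nat_lit 2) (nat_lit 17) (.e true (nat_lit 1) (nat_lit 236) (nat_lit 2) (nat_lit 17) (.e true (nat_lit 2) (nat_lit 237)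 (nat_lit 2) (nat_lit 17) (.e true (nat_lit 1) (nat_lit 239) (nat_lit 2) (nat_lit 17) (.e false (nat_lit 3) (nat_lit 241) (nat_lit 2) (nat_lit 17) (.e true (nat_lit 2) (nat_lit 244) (nat_lit 2) (nat_lit 17) dC1d_i221)))))))))))))))))))))))))

noncomputable def dC1d_i223 : IL := (.s false (nat_lit 1) (nat_lit 18) (nat_lit 1) (nat_lit 2) (nat_lit 7) true (nat_lit 4) true (nat_lit 12) true (nat_lit 5) true (nat_lit 18) true (nat_lit 17) (.s true (nat_lit 2) (nat_lit 18) (nat_lit 2) (nat_lit 0) (nat_lit 8) true (nat_lit 2) true (nat_lit 11) true (nat_lit 5) true (nat_lit 17) true (nat_lit 19) (.s true (nat_lit 2) (nat_lit 18) (nat_lit 8) (nat_lit 0) (nat_lit 2) true (nat_lit 2) true (nat_lit 17) true (nat_lit 5) true (nat_lit 11) true (nat_lit 19) (.s true (nat_lit 2) (nat_lit 18) (nat_lit 8) (nat_lit 2) (nat_lit 0) true (nat_lit 4) true (nat_lit 19) true (nat_lit 5) true (nat_lit 11) true (nat_lit 17) (.s false (nat_lit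 1) (nat_lit 19) (nat_lit 2) (nat_lit 2) (nat_lit 6) true (nat_lit 5) true (nat_lit 13) true (nat_lit 4) true (nat_lit 17) true (nat_lit 17) (.s false (nat_lit 1) (nat_lit 19) (nat_lit 6) (nat_lit 2) (nat_lit 2) true (nat_lit 5) true (nat_lit 17) true (nat_lit 4) true (nat_lit 13) true (nat_lit 17) (.s false (nat_lit 1) (nat_lit 20) (nat_lit 2) (nat_lit 5) (nat_lit 2) true (nat_lit 13) true (nat_lit 17) true (nat_lit 3) true (nat_lit 17) true (nat_lit 14) (.s true (nat_lit 2) (nat_lit 20) (nat_lit 5) (nat_lit 2) (nat_lit 2) true (nat_lit 6) true (nat_lit 17) true (nat_lit 3) true (nat_lit 14) true (nat_lit 17) (.s false (nat_lit 3) (nat_lit 24) (nat_lit 0) (nat_lit 2) (nat_lit 6) true (nat_lit 7) true (nat_lit 13) true (nat_lit 2) true (nat_lit 19) true (nat_lit 17) (.s true (nat_lit 3) (nat_lit 24) (nat_lit 2) (nat_lit 2) (nat_lit 4) true (nat_lit 7) true (nat_lit 15) true (nat_lit 2) true (nat_lit 17) true (nat_lit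 17) (.s false (nat_lit 1) (nat_lit 48) (nat_lit 2) (nat_lit 2) (nat_lit 2) true (nat_lit 13) true (nat_lit 17) false (nat_lit 5) true (nat_lit 17) true (nat_lit 17) (.s false (nat_lit 1) (nat_lit 52) (nat_lit 2) (nat_lit 2) (nat_lit 2) true (nat_lit 13) true (nat_lit 17) false (nat_lit 5) true (nat_lit 17) true (nat_lit 17) (.s false (nat_lit 3) (nat_lit 54) (nat_lit 2) (nat_lit 2) (nat_lit 2) true (nat_lit 13) true (nat_lit 17) false (nat_lit 5) true (nat_lit 17) true (nat_lit 17) (.s false (nat_lit 2) (nat_lit 55) (nat_lit 1) (nat_lit 2) (nat_lit 2) true (nat_lit 14) true (nat_lit 17) false (nat_lit 6) true (nat_lit 18) true (nat_lit 17) (.s false (nat_lit 1) (nat_lit 55) (nat_lit 2) (nat_lit 1) (nat_lit 2) true (nat_lit 13) true (nat_lit 17) false (nat_lit 6) true (nat_lit 17) true (nat_lit 18) (.s true (nat_lit 1) (nat_lit 55) (nat_lit 2) (nat_lit 2) (nat_lit 1) true (nat_lit 14) true (nat_lit 18) false (nat_lit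 6) true (nat_lit 17) true (nat_lit 17) (.s false (nat_lit 3) (nat_lit 74) (nat_lit 0) (nat_lit 2) (nat_lit 2) true (nat_lit 15) true (nat_lit 17) false (nat_lit 7) true (nat_lit 19) true (nat_lit 17) (.s false (nat_lit 2) (nat_lit 66) (nat_lit 2) (nat_lit 0) (nat_lit 2) true (nat_lit 13) true (nat_lit 17) false (nat_lit 7) true (nat_lit 17) true (nat_lit 19) (.s false (nat_lit 3) (nat_lit 74) (nat_lit 2) (nat_lit 0) (nat_lit 2) true (nat_lit 13) true (nat_lit 17) false (nat_lit 7) true (nat_lit 17) true (nat_lit 19) (.s false (nat_lit 3) (nat_lit 66) (nat_lit 2) (nat_lit 2) (nat_lit 0) true (nat_lit 15) true (nat_lit 19) false (nat_lit 7) true (nat_lit 17) true (nat_lit 17) (.s true (nat_lit 3) (nat_lit 74) (nat_lit 2) (nat_lit 2) (nat_lit 0) true (nat_lit 15) true (nat_lit 19) false (nat_lit 7) true (nat_lit 17) true (nat_lit 17) (.s false (nat_lit 3) (nat_lit 77) (nat_lit 1) (nat_lit 1) (nat_lit 2) true (nat_lit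 14) true (nat_lit 17) false (nat_lit 8) true (nat_lit 18) true (nat_lit 18) (.s true (nat_lit 3) (nat_lit 78) (nat_lit 1) (nat_lit 1) (nat_lit 2) true (nat_lit 14) true (nat_lit 17) false (nat_lit 8) true (nat_lit 18) true (nat_lit 18) (.s false (nat_lit 2) (nat_lit 98) (nat_lit 1) (nat_lit 0) (nat_lit 1) false (nat_lit 21) true (nat_lit 18) false (nat_lit 11) true (nat_lit 18) true (nat_lit 19) (.s true (nat_lit 3) (nat_lit 99) (nat_lit 1) (nat_lit 0) (nat_lit 1) false (nat_lit 21) true (nat_lit 18) false (nat_lit 11) true (nat_lit 18) true (nat_lit 19) dC1d_i222)))))))))))))))))))))))))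

noncomputable def dC1d_i224 : IL := (.e true (nat_lit 3) (nat_lit 273) (nat_lit 1) (nat_lit 18) (.e false (nat_lit 2) (nat_lit 274) (nat_lit 1) (nat_lit 18) (.e false (nat_lit 3) (nat_lit 278) (nat_lit 1) (nat_lit 18) (.e true (nat_lit 1) (nat_lit 279) (nat_lit 1) (nat_lit 18) (.e false (nat_lit 2) (nat_lit 280) (nat_lit 1) (nat_lit 18) (.e true (nat_lit 1) (nat_lit 292) (nat_lit 0) (nat_lit 19) (.e false (nat_lit 2) (nat_lit 293) (nat_lit 0) (nat_lit 19) (.e false (nat_lit 2) (nat_lit 299) (nat_lit 0) (nat_lit 19) (.e true (nat_lit 3) (nat_lit 300) (nat_lit 0) (nat_lit 19) (.e true (nat_lit 1) (nat_lit 304) (nat_lit 0) (nat_lit 19) (.e false (nat_lit 3) (nat_lit 317) (nat_lit 0) (nat_lit 19) (.e true (nat_lit 3) (nat_lit 305) (nat_lit 0) (nat_lit 19) (.e false (nat_lit 2) (nat_lit 310) (nat_lit 0) (nat_lit 19) (.e true (nat_lit 2) (nat_lit 318) (nat_lit 0) (nat_lit 19) (.e false (nat_lit 3) (nat_lit 295) (nat_lit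 0) (nat_lit 19) (.e true (nat_lit 1) (nat_lit 301) (nat_lit 0) (nat_lit 19) (.e true (nat_lit 1) (nat_lit 302) (nat_lit 0) (nat_lit 19) (.e true (nat_lit 3) (nat_lit 308) (nat_lit 0) (nat_lit 19) (.e false (nat_lit 2) (nat_lit 294) (nat_lit 0) (nat_lit 19) (.e false (nat_lit 1) (nat_lit 319) (nat_lit 0) (nat_lit 19) (.e false (nat_lit 1) (nat_lit 291) (nat_lit 0) (nat_lit 19) (.e true (nat_lit 1) (nat_lit 311) (nat_lit 0) (nat_lit 19) (.u (nat_lit 2) (.n (nat_lit 0) (nat_lit 1) (.n (nat_lit 1) (nat_lit 2) (.p (nat_lit 3) (nat_lit 1) (.n (nat_lit 4) (nat_lit 3) (.n (nat_lit 5) (nat_lit 1) (.p (nat_lit 9) (nat_lit 5) (.p (nat_lit 10) (nat_lit 5) (.p (nat_lit 11) (nat_lit 1) (.n (nat_lit 12) (nat_lit 1) (.p (nat_lit 13) (nat_lit 1) (.p (nat_lit 14) (nat_lit 4) (.n (nat_lit 15) (nat_lit 2) (.n (nat_lit 17) (nat_lit 3) (.n (nat_lit 18) (nat_lit 1) (.p (nat_lit 19) (nat_lit 2) (.n (nat_lit 20) (nat_lit 3) (.n (nat_lit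 26) (nat_lit 1) (.n (nat_lit 27) (nat_lit 4) (.n (nat_lit 28) (nat_lit 3) (.p (nat_lit 29) (nat_lit 2) (.n (nat_lit 30) (nat_lit 4) (.p (nat_lit 31) (nat_lit 5) (.n (nat_lit 32) (nat_lit 1) (.p (nat_lit 33) (nat_lit 4) (.n (nat_lit 34) (nat_lit 3) (.n (nat_lit 35) (nat_lit 4) (.n (nat_lit 36) (nat_lit 2) (.n (nat_lit 37) (nat_lit 1) (.n (nat_lit 38) (nat_lit 1) (.n (nat_lit 40) (nat_lit 1) (.n (nat_lit 41) (nat_lit 3) (.n (nat_lit 49) (nat_lit 1) (.n (nat_lit 50) (nat_lit 1) (.p (nat_lit 51) (nat_lit 1) (.n (nat_lit 53) (nat_lit 2) (.p (nat_lit 54) (nat_lit 1) (.n (nat_lit 56) (nat_lit 1) (.p (nat_lit 57) (nat_lit 2) (.n (nat_lit 58) (nat_lit 1) (.p (nat_lit 70) (nat_lit 1) (.p (nat_lit 142) (nat_lit 1) (.n (nat_lit 146) (nat_lit 1) (.p (nat_lit 179) (nat_lit 1) (.n (nat_lit 237) (nat_lit 1) (.p (nat_lit 241) (nat_lit 1) (.n (nat_lit 243) (nat_lit 1) (.p (nat_lit 244) (nat_lit 1) (.p (nat_lit 249) (nat_lit 1) (.n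 (nat_lit 251) (nat_lit 1) (.n (nat_lit 263) (nat_lit 1) (.n (nat_lit 266) (nat_lit 1) (.p (nat_lit 298) (nat_lit 1) (.n (nat_lit 307) (nat_lit 1) (.n (nat_lit 327) (nat_lit 5) (.p (nat_lit 328) (nat_lit 4) (.p (nat_lit 329) (nat_lit 9) (.n (nat_lit 330) (nat_lit 3) (.p (nat_lit 331) (nat_lit 3) (.n (nat_lit 332) (nat_lit 1) (.n (nat_lit 333) (nat_lit 4) .z)))))))))))))))))))))))))))))))))))))))))))))))))))))))))))) (.u (nat_lit 2) (.p (nat_lit 334) (nat_lit 3) (.n (nat_lit 335) (nat_lit 3) (.p (nat_lit 336) (nat_lit 5) (.n (nat_lit 337) (nat_lit 7) (.n (nat_lit 338) (nat_lit 5) (.n (nat_lit 339) (nat_lit 6) (.p (nat_lit 340) (nat_lit 3) (.p (nat_lit 341) (nat_lit 5) (.n (nat_lit 342) (nat_lit 5) (.n (nat_lit 343) (nat_lit 2) (.n (nat_lit 344) (nat_lit 7) (.p (nat_lit 345) (nat_lit 6) (.p (nat_lit 346) (nat_lit 12) (.p (nat_lit 347) (nat_lit 5) (.n (nat_lit 348) (nat_lit 4) (.n (nat_lit 349) (nat_lit 4) (.n (nat_lit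 350) (nat_lit 13) (.n (nat_lit 351) (nat_lit 3) (.p (nat_lit 352) (nat_lit 3) (.n (nat_lit 353) (nat_lit 1) (.p (nat_lit 354) (nat_lit 3) (.n (nat_lit 355) (nat_lit 3) (.p (nat_lit 356) (nat_lit 5) (.p (nat_lit 357) (nat_lit 2) (.n (nat_lit 358) (nat_lit 7) (.p (nat_lit 359) (nat_lit 1) (.p (nat_lit 360) (nat_lit 7) (.n (nat_lit 361) (nat_lit 5) (.p (nat_lit 362) (nat_lit 2) (.n (nat_lit 363) (nat_lit 1) (.p (nat_lit 364) (nat_lit 4) (.n (nat_lit 368) (nat_lit 2) (.p (nat_lit 375) (nat_lit 1) (.n (nat_lit 376) (nat_lit 7) (.n (nat_lit 377) (nat_lit 9) (.p (nat_lit 378) (nat_lit 10) (.p (nat_lit 379) (nat_lit 3) (.p (nat_lit 380) (nat_lit 14) (.p (nat_lit 381) (nat_lit 17) (.p (nat_lit 382) (nat_lit 2) (.n (nat_lit 383) (nat_lit 7) (.n (nat_lit 384) (nat_lit 10) (.p (nat_lit 385) (nat_lit 12) (.p (nat_lit 386) (nat_lit 4) (.n (nat_lit 387) (nat_lit 16) (.p (nat_lit 389) (nat_lit 19) (.n (nat_lit 392) (nat_lit 20)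 (.n (nat_lit 393) (nat_lit 12) (.n (nat_lit 394) (nat_lit 4) (.n (nat_lit 395) (nat_lit 6) (.p (nat_lit 397) (nat_lit 1) (.n (nat_lit 398) (nat_lit 4) (.p (nat_lit 399) (nat_lit 5) (.n (nat_lit 400) (nat_lit 1) (.p (nat_lit 401) (nat_lit 6) (.n (nat_lit 402) (nat_lit 1) (.n (nat_lit 404) (nat_lit 1) (.n (nat_lit 405) (nat_lit 5) (.n (nat_lit 406) (nat_lit 14) (.p (nat_lit 407) (nat_lit 7) .z)))))))))))))))))))))))))))))))))))))))))))))))))))))))))))) (.u (nat_lit 2) (.p (nat_lit 408) (nat_lit 13) (.p (nat_lit 409) (nat_lit 7) (.p (nat_lit 410) (nat_lit 16) (.p (nat_lit 411) (nat_lit 6) (.n (nat_lit 412) (nat_lit 6) (.n (nat_lit 413) (nat_lit 9) (.n (nat_lit 415) (nat_lit 11) (.p (nat_lit 416) (nat_lit 20) (.n (nat_lit 417) (nat_lit 7) (.n (nat_lit 419) (nat_lit 8) (.n (nat_lit 420) (nat_lit 3) (.n (nat_lit 422) (nat_lit 13) (.p (nat_lit 423) (nat_lit 3) (.p (nat_lit 425) (nat_lit 12) (.n (nat_lit 426) (nat_lit 1)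 (.n (nat_lit 427) (nat_lit 5) (.p (nat_lit 428) (nat_lit 1) (.n (nat_lit 431) (nat_lit 2) (.p (nat_lit 432) (nat_lit 5) (.p (nat_lit 433) (nat_lit 1) (.p (nat_lit 434) (nat_lit 5) .z))))))))))))))))))))) .nil)))))))))))))))))))))))))

noncomputable def dC1d_i225 : IL := (.e true (nat_lit 2) (nat_lit 212) (nat_lit 2) (nat_lit 17) (.e true (nat_lit 1) (nat_lit 219) (nat_lit 2) (nat_lit 17) (.e false (nat_lit 2) (nat_lit 237) (nat_lit 2) (nat_lit 17) (.e true (nat_lit 2) (nat_lit 232) (nat_lit 2) (nat_lit 17) (.e false (nat_lit 2) (nat_lit 215) (nat_lit 2) (nat_lit 17) (.e true (nat_lit 3) (nat_lit 277) (nat_lit 1) (nat_lit 18) (.e false (nat_lit 3) (nat_lit 307) (nat_lit 0) (nat_lit 19) (.e true (nat_lit 3) (nat_lit 286) (nat_lit 1) (nat_lit 18) (.e true (nat_lit 1) (nat_lit 298) (nat_lit 0) (nat_lit 19) (.e true (nat_lit 3) (nat_lit 260) (nat_lit 1) (nat_lit 18) (.e true (nat_lit 1) (nat_lit 290) (nat_lit 0) (nat_lit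 19) (.e false (nat_lit 2) (nat_lit 143) (nat_lit 5) (nat_lit 14) (.e false (nat_lit 3) (nat_lit 144) (nat_lit 5) (nat_lit 14) (.e false (nat_lit 3) (nat_lit 261) (nat_lit 1) (nat_lit 18) (.e false (nat_lit 1) (nat_lit 262) (nat_lit 1) (nat_lit 18) (.e false (nat_lit 1) (nat_lit 263) (nat_lit 1) (nat_lit 18) (.e true (nat_lit 3) (nat_lit 264) (nat_lit 1) (nat_lit 18) (.e true (nat_lit 3) (nat_lit 265) (nat_lit 1) (nat_lit 18) (.e false (nat_lit 3) (nat_lit 266) (nat_lit 1) (nat_lit 18) (.e false (nat_lit 2) (nat_lit 267) (nat_lit 1) (nat_lit 18) (.e true (nat_lit 3) (nat_lit 268) (nat_lit 1) (nat_lit 18) (.e false (nat_lit 1) (nat_lit 269) (nat_lit 1) (nat_lit 18) (.e true (nat_lit 3) (nat_lit 270) (nat_lit 1) (nat_lit 18) (.e false (nat_lit 2) (nat_lit 271) (nat_lit 1) (nat_lit 18) (.e false (nat_lit 2) (nat_lit 272) (nat_lit 1) (nat_lit 18) dC1d_i224)))))))))))))))))))))))))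

noncomputable def dC1d_i226 : IL := (.s false (nat_lit 2) (nat_lit 77) (nat_lit 1) (nat_lit 1) (nat_lit 2) true (nat_lit 14) true (nat_lit 17) false (nat_lit 8) true (nat_lit 18) true (nat_lit 18) (.s false (nat_lit 3) (nat_lit 78) (nat_lit 1) (nat_lit 1) (nat_lit 2) true (nat_lit 14) true (nat_lit 17) false (nat_lit 8) true (nat_lit 18) true (nat_lit 18) (.s true (nat_lit 2) (nat_lit 100) (nat_lit 1) (nat_lit 0) (nat_lit 1) false (nat_lit 21) true (nat_lit 18) false (nat_lit 11) true (nat_lit 18) true (nat_lit 19) (.s false (nat_lit 2) (nat_lit 102) (nat_lit 0) (nat_lit 1) (nat_lit 0) false (nat_lit 20) true (nat_lit 19) false (nat_lit 12) true (nat_lit 19) true (nat_lit 18) (.s false (nat_lit 2) (nat_lit 103) (nat_lit 0) (nat_lit 1) (nat_lit 0) false (nat_lit 20) true (nat_lit 19) false (nat_lit 12) true (nat_lit 19) true (nat_lit 18) (.s true (nat_lit 2) (nat_lit 104) (nat_lit 0) (nat_lit 1) (nat_lit 0) false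 (nat_lit 20) true (nat_lit 19) false (nat_lit 12) true (nat_lit 19) true (nat_lit 18) (.s true (nat_lit 3) (nat_lit 105) (nat_lit 0) (nat_lit 1) (nat_lit 0) false (nat_lit 20) true (nat_lit 19) false (nat_lit 12) true (nat_lit 19) true (nat_lit 18) (.e false (nat_lit 2) (nat_lit 213) (nat_lit 2) (nat_lit 17) (.e true (nat_lit 3) (nat_lit 214) (nat_lit 2) (nat_lit 17) (.e true (nat_lit 3) (nat_lit 216) (nat_lit 2) (nat_lit 17) (.e false (nat_lit 1) (nat_lit 218) (nat_lit 2) (nat_lit 17) (.e true (nat_lit 1) (nat_lit 221) (nat_lit 2) (nat_lit 17) (.e true (nat_lit 2) (nat_lit 222) (nat_lit 2) (nat_lit 17) (.e true (nat_lit 1) (nat_lit 223) (nat_lit 2) (nat_lit 17) (.e false (nat_lit 3) (nat_lit 224) (nat_lit 2) (nat_lit 17) (.e true (nat_lit 1) (nat_lit 226) (nat_lit 2) (nat_lit 17) (.e false (nat_lit 2) (nat_lit 227) (nat_lit 2) (nat_lit 17) (.e true (nat_lit 3) (nat_lit 230) (nat_lit 2) (nat_lit 17) (.e true (nat_lit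 2) (nat_lit 231) (nat_lit 2) (nat_lit 17) (.e false (nat_lit 2) (nat_lit 236) (nat_lit 2) (nat_lit 17) (.e true (nat_lit 2) (nat_lit 239) (nat_lit 2) (nat_lit 17) (.e false (nat_lit 2) (nat_lit 242) (nat_lit 2) (nat_lit 17) (.e true (nat_lit 2) (nat_lit 244) (nat_lit 2) (nat_lit 17) (.e true (nat_lit 1) (nat_lit 245) (nat_lit 2) (nat_lit 17) (.e false (nat_lit 2) (nat_lit 248) (nat_lit 2) (nat_lit 17) dC1d_i225)))))))))))))))))))))))))

noncomputable def dC1d_i227 : IL := (.s false (nat_lit 1) (nat_lit 7) (nat_lit 6) (nat_lit 1) (nat_lit 6) false (nat_lit 4) true (nat_lit 13) true (nat_lit 12) true (nat_lit 13) true (nat_lit 18) (.s true (nat_lit 2) (nat_lit 8) (nat_lit 2) (nat_lit 6) (nat_lit 4) true (nat_lit 7) true (nat_lit 15) true (nat_lit 11) true (nat_lit 17) true (nat_lit 13) (.s true (nat_lit 3) (nat_lit 8) (nat_lit 4) (nat_lit 6) (nat_lit 2) true (nat_lit 7) true (nat_lit 17) true (nat_lit 11) true (nat_lit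 15) true (nat_lit 13) (.s true (nat_lit 2) (nat_lit 8) (nat_lit 6) (nat_lit 0) (nat_lit 6) false (nat_lit 4) true (nat_lit 13) true (nat_lit 11) true (nat_lit 13) true (nat_lit 19) (.s true (nat_lit 1) (nat_lit 8) (nat_lit 6) (nat_lit 2) (nat_lit 4) false (nat_lit 2) true (nat_lit 15) true (nat_lit 11) true (nat_lit 13) true (nat_lit 17) (.s true (nat_lit 2) (nat_lit 16) (nat_lit 2) (nat_lit 2) (nat_lit 7) true (nat_lit 3) true (nat_lit 12) true (nat_lit 6) true (nat_lit 17) true (nat_lit 17) (.s false (nat_lit 2) (nat_lit 16) (nat_lit 7) (nat_lit 2) (nat_lit 2) true (nat_lit 3) true (nat_lit 17) true (nat_lit 6) true (nat_lit 12) true (nat_lit 17) (.s false (nat_lit 3) (nat_lit 18) (nat_lit 0) (nat_lit 2) (nat_lit 8) true (nat_lit 4) true (nat_lit 11) true (nat_lit 5) true (nat_lit 19) true (nat_lit 17) (.s true (nat_lit 3) (nat_lit 18) (nat_lit 1) (nat_lit 2) (nat_lit 7) true (nat_lit 4) true (nat_lit 12) true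 (nat_lit 5) true (nat_lit 18) true (nat_lit 17) (.s false (nat_lit 1) (nat_lit 18) (nat_lit 2) (nat_lit 0) (nat_lit 8) true (nat_lit 2) true (nat_lit 11) true (nat_lit 5) true (nat_lit 17) true (nat_lit 19) (.s true (nat_lit 3) (nat_lit 18) (nat_lit 2) (nat_lit 8) (nat_lit 0) true (nat_lit 15) true (nat_lit 19) true (nat_lit 5) true (nat_lit 17) true (nat_lit 11) (.s true (nat_lit 3) (nat_lit 20) (nat_lit 2) (nat_lit 5) (nat_lit 2) true (nat_lit 13) true (nat_lit 17) true (nat_lit 3) true (nat_lit 17) true (nat_lit 14) (.s false (nat_lit 3) (nat_lit 20) (nat_lit 5) (nat_lit 2) (nat_lit 2) true (nat_lit 6) true (nat_lit 17) true (nat_lit 3) true (nat_lit 14) true (nat_lit 17) (.s true (nat_lit 3) (nat_lit 24) (nat_lit 0) (nat_lit 2) (nat_lit 6) true (nat_lit 7) true (nat_lit 13) true (nat_lit 2) true (nat_lit 19) true (nat_lit 17) (.s false (nat_lit 1) (nat_lit 24) (nat_lit 0) (nat_lit 6) (nat_lit 2) true (nat_lit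 15) true (nat_lit 17) true (nat_lit 2) true (nat_lit 19) true (nat_lit 13) (.s false (nat_lit 3) (nat_lit 24) (nat_lit 2) (nat_lit 2) (nat_lit 4) true (nat_lit 7) true (nat_lit 15) true (nat_lit 2) true (nat_lit 17) true (nat_lit 17) (.s true (nat_lit 2) (nat_lit 48) (nat_lit 2) (nat_lit 2) (nat_lit 2) true (nat_lit 13) true (nat_lit 17) false (nat_lit 5) true (nat_lit 17) true (nat_lit 17) (.s true (nat_lit 1) (nat_lit 52) (nat_lit 2) (nat_lit 2) (nat_lit 2) true (nat_lit 13) true (nat_lit 17) false (nat_lit 5) true (nat_lit 17) true (nat_lit 17) (.s false (nat_lit 3) (nat_lit 54) (nat_lit 2) (nat_lit 2) (nat_lit 2) true (nat_lit 13) true (nat_lit 17) false (nat_lit 5) true (nat_lit 17) true (nat_lit 17) (.s true (nat_lit 3) (nat_lit 55) (nat_lit 1) (nat_lit 2) (nat_lit 2) true (nat_lit 14) true (nat_lit 17) false (nat_lit 6) true (nat_lit 18) true (nat_lit 17) (.s false (nat_lit 1) (nat_lit 65) (nat_lit 1) (nat_lit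 2) (nat_lit 2) true (nat_lit 14) true (nat_lit 17) false (nat_lit 6) true (nat_lit 18) true (nat_lit 17) (.s false (nat_lit 2) (nat_lit 55) (nat_lit 2) (nat_lit 1) (nat_lit 2) true (nat_lit 13) true (nat_lit 17) false (nat_lit 6) true (nat_lit 17) true (nat_lit 18) (.s false (nat_lit 2) (nat_lit 74) (nat_lit 0) (nat_lit 2) (nat_lit 2) true (nat_lit 15) true (nat_lit 17) false (nat_lit 7) true (nat_lit 19) true (nat_lit 17) (.s false (nat_lit 3) (nat_lit 66) (nat_lit 2) (nat_lit 0) (nat_lit 2) true (nat_lit 13) true (nat_lit 17) false (nat_lit 7) true (nat_lit 17) true (nat_lit 19) (.s true (nat_lit 3) (nat_lit 66) (nat_lit 2) (nat_lit 2) (nat_lit 0) true (nat_lit 15) true (nat_lit 19) false (nat_lit 7) true (nat_lit 17) true (nat_lit 17) dC1d_i226)))))))))))))))))))))))))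

noncomputable def dC1d_i228 : IL := (.e false (nat_lit 1) (nat_lit 272) (nat_lit 1) (nat_lit 18) (.e false (nat_lit 1) (nat_lit 279) (nat_lit 1) (nat_lit 18) (.e false (nat_lit 3) (nat_lit 266) (nat_lit 1) (nat_lit 18) (.e false (nat_lit 3) (nat_lit 271) (nat_lit 1) (nat_lit 18) (.e false (nat_lit 3) (nat_lit 273) (nat_lit 1) (nat_lit 18) (.e true (nat_lit 2) (nat_lit 274) (nat_lit 1) (nat_lit 18) (.e false (nat_lit 3) (nat_lit 278) (nat_lit 1) (nat_lit 18) (.e false (nat_lit 2) (nat_lit 77) (nat_lit 13) (nat_lit 8) (.e false (nat_lit 1) (nat_lit 268) (nat_lit 1) (nat_lit 18) (.e true (nat_lit 2) (nat_lit 281) (nat_lit 1) (nat_lit 18) (.e true (nat_lit 1) (nat_lit 282) (nat_lit 1) (nat_lit 18) (.e false (nat_lit 2) (nat_lit 143) (nat_lit 5) (nat_lit 14) (.e false (nat_lit 3) (nat_lit 144) (nat_lit 5) (nat_lit 14) (.e false (nat_lit 3) (nat_lit 294) (nat_lit 0) (nat_lit 19) (.e true (nat_lit 3) (nat_lit 290) (nat_lit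 0) (nat_lit 19) (.e false (nat_lit 1) (nat_lit 292) (nat_lit 0) (nat_lit 19) (.e true (nat_lit 3) (nat_lit 302) (nat_lit 0) (nat_lit 19) (.e true (nat_lit 2) (nat_lit 305) (nat_lit 0) (nat_lit 19) (.e false (nat_lit 3) (nat_lit 309) (nat_lit 0) (nat_lit 19) (.e false (nat_lit 1) (nat_lit 310) (nat_lit 0) (nat_lit 19) (.e false (nat_lit 1) (nat_lit 78) (nat_lit 13) (nat_lit 8) (.u (nat_lit 2) (.n (nat_lit 0) (nat_lit 4) (.p (nat_lit 1) (nat_lit 1) (.p (nat_lit 2) (nat_lit 2) (.n (nat_lit 3) (nat_lit 1) (.n (nat_lit 6) (nat_lit 2) (.p (nat_lit 7) (nat_lit 2) (.n (nat_lit 9) (nat_lit 1) (.n (nat_lit 10) (nat_lit 1) (.p (nat_lit 11) (nat_lit 1) (.p (nat_lit 12) (nat_lit 2) (.p (nat_lit 14) (nat_lit 2) (.n (nat_lit 18) (nat_lit 1) (.p (nat_lit 19) (nat_lit 1) (.p (nat_lit 20) (nat_lit 4) (.p (nat_lit 26) (nat_lit 1) (.n (nat_lit 29) (nat_lit 1) (.n (nat_lit 30) (nat_lit 2) (.n (nat_lit 31) (nat_lit 3) (.n (nat_lit 32)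 (nat_lit 1) (.p (nat_lit 35) (nat_lit 3) (.p (nat_lit 36) (nat_lit 1) (.p (nat_lit 37) (nat_lit 4) (.p (nat_lit 38) (nat_lit 1) (.p (nat_lit 40) (nat_lit 3) (.n (nat_lit 41) (nat_lit 1) (.p (nat_lit 50) (nat_lit 1) (.n (nat_lit 51) (nat_lit 1) (.p (nat_lit 53) (nat_lit 1) (.n (nat_lit 57) (nat_lit 1) (.n (nat_lit 62) (nat_lit 1) (.n (nat_lit 73) (nat_lit 1) (.n (nat_lit 74) (nat_lit 1) (.p (nat_lit 77) (nat_lit 1) (.p (nat_lit 78) (nat_lit 1) (.n (nat_lit 83) (nat_lit 1) (.n (nat_lit 89) (nat_lit 1) (.n (nat_lit 92) (nat_lit 1) (.p (nat_lit 93) (nat_lit 1) (.p (nat_lit 99) (nat_lit 1) (.n (nat_lit 105) (nat_lit 1) (.n (nat_lit 117) (nat_lit 1) (.n (nat_lit 118) (nat_lit 1) (.n (nat_lit 129) (nat_lit 1) (.p (nat_lit 133) (nat_lit 1) (.p (nat_lit 144) (nat_lit 1) (.p (nat_lit 145) (nat_lit 1) (.p (nat_lit 146) (nat_lit 1) (.n (nat_lit 159) (nat_lit 1) (.p (nat_lit 160) (nat_lit 1) (.n (nat_lit 161) (nat_lit 1) (.p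 (nat_lit 162) (nat_lit 1) (.p (nat_lit 163) (nat_lit 1) (.p (nat_lit 170) (nat_lit 1) (.n (nat_lit 171) (nat_lit 1) (.p (nat_lit 182) (nat_lit 2) (.n (nat_lit 184) (nat_lit 1) (.p (nat_lit 185) (nat_lit 1) (.n (nat_lit 190) (nat_lit 1) (.n (nat_lit 191) (nat_lit 1) (.p (nat_lit 198) (nat_lit 2) .z)))))))))))))))))))))))))))))))))))))))))))))))))))))))))))) (.u (nat_lit 2) (.p (nat_lit 199) (nat_lit 2) (.p (nat_lit 200) (nat_lit 1) (.p (nat_lit 201) (nat_lit 1) (.n (nat_lit 202) (nat_lit 2) (.p (nat_lit 203) (nat_lit 2) (.p (nat_lit 204) (nat_lit 1) (.n (nat_lit 205) (nat_lit 1) (.n (nat_lit 207) (nat_lit 1) (.p (nat_lit 218) (nat_lit 1) (.p (nat_lit 222) (nat_lit 1) (.n (nat_lit 224) (nat_lit 1) (.p (nat_lit 225) (nat_lit 1) (.p (nat_lit 228) (nat_lit 1) (.p (nat_lit 231) (nat_lit 1) (.p (nat_lit 232) (nat_lit 1) (.n (nat_lit 235) (nat_lit 1) (.n (nat_lit 239) (nat_lit 1) (.n (nat_lit 244) (nat_lit 2) (.n (nat_lit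 249) (nat_lit 3) (.p (nat_lit 251) (nat_lit 3) (.n (nat_lit 252) (nat_lit 2) (.p (nat_lit 253) (nat_lit 1) (.p (nat_lit 254) (nat_lit 1) (.n (nat_lit 255) (nat_lit 1) (.p (nat_lit 261) (nat_lit 2) (.p (nat_lit 266) (nat_lit 2) (.p (nat_lit 275) (nat_lit 1) (.n (nat_lit 276) (nat_lit 1) (.p (nat_lit 288) (nat_lit 1) (.n (nat_lit 290) (nat_lit 1) (.n (nat_lit 294) (nat_lit 1) (.p (nat_lit 299) (nat_lit 1) (.n (nat_lit 301) (nat_lit 1) (.p (nat_lit 304) (nat_lit 1) (.p (nat_lit 308) (nat_lit 1) (.n (nat_lit 311) (nat_lit 3) (.n (nat_lit 312) (nat_lit 5) (.p (nat_lit 313) (nat_lit 1) (.n (nat_lit 314) (nat_lit 1) (.n (nat_lit 316) (nat_lit 2) (.p (nat_lit 318) (nat_lit 2) (.n (nat_lit 319) (nat_lit 1) (.p (nat_lit 320) (nat_lit 2) (.p (nat_lit 321) (nat_lit 2) (.n (nat_lit 322) (nat_lit 1) (.p (nat_lit 323) (nat_lit 2) (.n (nat_lit 324) (nat_lit 1) (.n (nat_lit 325) (nat_lit 1) (.n (nat_lit 326) (nat_lit 1) (.n (nat_lit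 327) (nat_lit 5) (.n (nat_lit 328) (nat_lit 18) (.n (nat_lit 329) (nat_lit 10) (.p (nat_lit 330) (nat_lit 35) (.n (nat_lit 331) (nat_lit 16) (.p (nat_lit 332) (nat_lit 14) (.p (nat_lit 333) (nat_lit 8) (.n (nat_lit 334) (nat_lit 23) (.n (nat_lit 335) (nat_lit 8) (.n (nat_lit 336) (nat_lit 22) (.p (nat_lit 337) (nat_lit 23) .z)))))))))))))))))))))))))))))))))))))))))))))))))))))))))))) (.u (nat_lit 2) (.p (nat_lit 338) (nat_lit 15) (.n (nat_lit 339) (nat_lit 2) (.p (nat_lit 340) (nat_lit 2) (.p (nat_lit 341) (nat_lit 16) (.p (nat_lit 342) (nat_lit 3) (.p (nat_lit 343) (nat_lit 7) (.p (nat_lit 344) (nat_lit 16) (.n (nat_lit 345) (nat_lit 7) (.n (nat_lit 346) (nat_lit 29) (.p (nat_lit 347) (nat_lit 12) (.p (nat_lit 348) (nat_lit 29) (.n (nat_lit 349) (nat_lit 18) (.p (nat_lit 350) (nat_lit 26) (.n (nat_lit 351) (nat_lit 14) (.p (nat_lit 352) (nat_lit 7) (.p (nat_lit 353) (nat_lit 3) (.n (nat_lit 354) (nat_lit 6) (.p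 (nat_lit 355) (nat_lit 11) (.p (nat_lit 356) (nat_lit 18) (.n (nat_lit 357) (nat_lit 14) (.p (nat_lit 358) (nat_lit 13) (.p (nat_lit 359) (nat_lit 19) (.p (nat_lit 360) (nat_lit 18) (.n (nat_lit 362) (nat_lit 11) (.n (nat_lit 363) (nat_lit 21) (.n (nat_lit 364) (nat_lit 2) (.n (nat_lit 365) (nat_lit 5) (.n (nat_lit 366) (nat_lit 7) (.n (nat_lit 367) (nat_lit 5) (.p (nat_lit 368) (nat_lit 1) (.p (nat_lit 369) (nat_lit 1) (.n (nat_lit 370) (nat_lit 3) (.p (nat_lit 372) (nat_lit 7) (.n (nat_lit 373) (nat_lit 3) (.n (nat_lit 374) (nat_lit 1) (.p (nat_lit 375) (nat_lit 3) (.p (nat_lit 376) (nat_lit 13) (.n (nat_lit 377) (nat_lit 9) (.p (nat_lit 378) (nat_lit 6) (.n (nat_lit 379) (nat_lit 11) (.p (nat_lit 380) (nat_lit 7) (.p (nat_lit 381) (nat_lit 3) (.n (nat_lit 382) (nat_lit 7) (.n (nat_lit 383) (nat_lit 7) (.n (nat_lit 384) (nat_lit 13) (.p (nat_lit 385) (nat_lit 3) (.p (nat_lit 386) (nat_lit 7) (.n (nat_lit 387)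 (nat_lit 9) (.p (nat_lit 388) (nat_lit 1) (.n (nat_lit 389) (nat_lit 3) (.n (nat_lit 390) (nat_lit 2) (.p (nat_lit 391) (nat_lit 2) (.n (nat_lit 392) (nat_lit 12) (.n (nat_lit 393) (nat_lit 16) (.p (nat_lit 394) (nat_lit 12) (.n (nat_lit 395) (nat_lit 10) (.p (nat_lit 396) (nat_lit 3) (.p (nat_lit 397) (nat_lit 1) (.p (nat_lit 398) (nat_lit 3) (.p (nat_lit 399) (nat_lit 4) .z)))))))))))))))))))))))))))))))))))))))))))))))))))))))))))) (.u (nat_lit 2) (.n (nat_lit 400) (nat_lit 6) (.n (nat_lit 402) (nat_lit 7) (.n (nat_lit 403) (nat_lit 13) (.p (nat_lit 404) (nat_lit 3) (.n (nat_lit 405) (nat_lit 9) (.n (nat_lit 406) (nat_lit 10) (.n (nat_lit 408) (nat_lit 8) (.p (nat_lit 410) (nat_lit 9) (.n (nat_lit 411) (nat_lit 13) (.n (nat_lit 412) (nat_lit 4) (.n (nat_lit 413) (nat_lit 2) (.n (nat_lit 414) (nat_lit 12) (.n (nat_lit 415) (nat_lit 10) (.p (nat_lit 416) (nat_lit 4) (.p (nat_lit 417) (nat_lit 12) (.n (nat_lit 418)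 (nat_lit 4) (.p (nat_lit 419) (nat_lit 6) (.p (nat_lit 420) (nat_lit 4) (.p (nat_lit 421) (nat_lit 6) (.n (nat_lit 422) (nat_lit 6) (.n (nat_lit 423) (nat_lit 4) (.n (nat_lit 424) (nat_lit 7) (.n (nat_lit 425) (nat_lit 3) (.n (nat_lit 426) (nat_lit 3) (.n (nat_lit 427) (nat_lit 4) (.p (nat_lit 428) (nat_lit 2) (.n (nat_lit 429) (nat_lit 1) (.n (nat_lit 430) (nat_lit 7) (.p (nat_lit 431) (nat_lit 5) (.p (nat_lit 432) (nat_lit 5) (.n (nat_lit 433) (nat_lit 8) (.p (nat_lit 434) (nat_lit 4) .z)))))))))))))))))))))))))))))))) .nil)))))))))))))))))))))))))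

noncomputable def dC1d_i229 : IL := (.e false (nat_lit 3) (nat_lit 218) (nat_lit 2) (nat_lit 17) (.e true (nat_lit 3) (nat_lit 219) (nat_lit 2) (nat_lit 17) (.e true (nat_lit 2) (nat_lit 221) (nat_lit 2) (nat_lit 17) (.e true (nat_lit 3) (nat_lit 233) (nat_lit 2) (nat_lit 17) (.e true (nat_lit 1) (nat_lit 234) (nat_lit 2) (nat_lit 17) (.e false (nat_lit 3) (nat_lit 235) (nat_lit 2) (nat_lit 17) (.e false (nat_lit 2) (nat_lit 244) (nat_lit 2) (nat_lit 17) (.e true (nat_lit 1) (nat_lit 224) (nat_lit 2) (nat_lit 17) (.e true (nat_lit 3) (nat_lit 227) (nat_lit 2) (nat_lit 17) (.e true (nat_lit 1) (nat_lit 232) (nat_lit 2) (nat_lit 17) (.e true (nat_lit 1) (nat_lit 214) (nat_lit 2) (nat_lit 17) (.e false (nat_lit 2) (nat_lit 291) (nat_lit 0) (nat_lit 19) (.e true (nat_lit 1) (nat_lit 299) (nat_lit 0) (nat_lit 19) (.e false (nat_lit 1) (nat_lit 301) (nat_lit 0) (nat_lit 19) (.e false (nat_lit 2) (nat_lit 304) (nat_lit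 0) (nat_lit 19) (.e false (nat_lit 3) (nat_lit 308) (nat_lit 0) (nat_lit 19) (.e true (nat_lit 3) (nat_lit 298) (nat_lit 0) (nat_lit 19) (.e true (nat_lit 2) (nat_lit 260) (nat_lit 1) (nat_lit 18) (.e false (nat_lit 3) (nat_lit 261) (nat_lit 1) (nat_lit 18) (.e true (nat_lit 3) (nat_lit 263) (nat_lit 1) (nat_lit 18) (.e true (nat_lit 3) (nat_lit 264) (nat_lit 1) (nat_lit 18) (.e true (nat_lit 1) (nat_lit 265) (nat_lit 1) (nat_lit 18) (.e true (nat_lit 2) (nat_lit 267) (nat_lit 1) (nat_lit 18) (.e true (nat_lit 1) (nat_lit 269) (nat_lit 1) (nat_lit 18) (.e false (nat_lit 3) (nat_lit 270) (nat_lit 1) (nat_lit 18) dC1d_i228)))))))))))))))))))))))))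

noncomputable def dC1d_i230 : IL := (.a false (nat_lit 2) (nat_lit 31) (nat_lit 31) (nat_lit 0) (nat_lit 0) (.a true (nat_lit 1) (nat_lit 32) (nat_lit 32) (nat_lit 0) (nat_lit 0) (.a false (nat_lit 3) (nat_lit 34) (nat_lit 34) (nat_lit 0) (nat_lit 0) (.a true (nat_lit 2) (nat_lit 34) (nat_lit 35) (nat_lit 0) (nat_lit 0) (.a false (nat_lit 2) (nat_lit 35) (nat_lit 36) (nat_lit 0) (nat_lit 0) (.a true (nat_lit 3) (nat_lit 31) (nat_lit 32) (nat_lit 0) (nat_lit 0) (.a false (nat_lit 3) (nat_lit 31) (nat_lit 33) (nat_lit 0) (nat_lit 0) (.a false (nat_lit 3) (nat_lit 31) (nat_lit 34) (nat_lit 0) (nat_lit 0) (.a false (nat_lit 2) (nat_lit 31) (nat_lit 35) (nat_lit 0) (nat_lit 0) (.a false (nat_lit 3) (nat_lit 31) (nat_lit 36) (nat_lit 0) (nat_lit 0) (.a true (nat_lit 2) (nat_lit 32) (nat_lit 33) (nat_lit 0) (nat_lit 0) (.a true (nat_lit 2) (nat_lit 32) (nat_lit 34) (nat_lit 0) (nat_lit 0) (.a false (nat_lit 1) (nat_lit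 32) (nat_lit 35) (nat_lit 0) (nat_lit 0) (.a false (nat_lit 2) (nat_lit 32) (nat_lit 36) (nat_lit 0) (nat_lit 0) (.a false (nat_lit 1) (nat_lit 33) (nat_lit 33) (nat_lit 0) (nat_lit 0) (.a false (nat_lit 2) (nat_lit 33) (nat_lit 34) (nat_lit 0) (nat_lit 0) (.a true (nat_lit 1) (nat_lit 33) (nat_lit 35) (nat_lit 0) (nat_lit 0) (.a true (nat_lit 2) (nat_lit 33) (nat_lit 36) (nat_lit 0) (nat_lit 0) (.a true (nat_lit 2) (nat_lit 34) (nat_lit 36) (nat_lit 0) (nat_lit 0) (.a true (nat_lit 3) (nat_lit 35) (nat_lit 35) (nat_lit 0) (nat_lit 0) (.a false (nat_lit 1) (nat_lit 36) (nat_lit 36) (nat_lit 0) (nat_lit 0) (.e false (nat_lit 3) (nat_lit 212) (nat_lit 2) (nat_lit 17) (.e true (nat_lit 1) (nat_lit 213) (nat_lit 2) (nat_lit 17) (.e false (nat_lit 2) (nat_lit 216) (nat_lit 2) (nat_lit 17) (.e false (nat_lit 1) (nat_lit 217) (nat_lit 2) (nat_lit 17) dC1d_i229)))))))))))))))))))))))))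

noncomputable def dC1d_i231 : IL := (.s false (nat_lit 1) (nat_lit 89) (nat_lit 1) (nat_lit 2) (nat_lit 0) true (nat_lit 16) true (nat_lit 19) false (nat_lit 9) true (nat_lit 18) true (nat_lit 17) (.s true (nat_lit 2) (nat_lit 90) (nat_lit 1) (nat_lit 2) (nat_lit 0) true (nat_lit 16) true (nat_lit 19) false (nat_lit 9) true (nat_lit 18) true (nat_lit 17) (.s false (nat_lit 1) (nat_lit 91) (nat_lit 1) (nat_lit 2) (nat_lit 0) true (nat_lit 16) true (nat_lit 19) false (nat_lit 9) true (nat_lit 18) true (nat_lit 17) (.s false (nat_lit 2) (nat_lit 92) (nat_lit 1) (nat_lit 2) (nat_lit 0) true (nat_lit 16) true (nat_lit 19) false (nat_lit 9) true (nat_lit 18) true (nat_lit 17) (.s false (nat_lit 2) (nat_lit 82) (nat_lit 2) (nat_lit 1) (nat_lit 0) true (nat_lit 15) true (nat_lit 19) false (nat_lit 9) true (nat_lit 17) true (nat_lit 18) (.s false (nat_lit 3) (nat_lit 83) (nat_lit 2) (nat_lit 1) (nat_lit 0) true (nat_lit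 15) true (nat_lit 19) false (nat_lit 9) true (nat_lit 17) true (nat_lit 18) (.s true (nat_lit 3) (nat_lit 90) (nat_lit 2) (nat_lit 1) (nat_lit 0) true (nat_lit 15) true (nat_lit 19) false (nat_lit 9) true (nat_lit 17) true (nat_lit 18) (.s false (nat_lit 1) (nat_lit 93) (nat_lit 0) (nat_lit 2) (nat_lit 0) false (nat_lit 20) true (nat_lit 19) false (nat_lit 10) true (nat_lit 19) true (nat_lit 17) (.s false (nat_lit 2) (nat_lit 94) (nat_lit 0) (nat_lit 2) (nat_lit 0) false (nat_lit 20) true (nat_lit 19) false (nat_lit 10) true (nat_lit 19) true (nat_lit 17) (.s false (nat_lit 2) (nat_lit 95) (nat_lit 0) (nat_lit 2) (nat_lit 0) false (nat_lit 20) true (nat_lit 19) false (nat_lit 10) true (nat_lit 19) true (nat_lit 17) (.s true (nat_lit 3) (nat_lit 97) (nat_lit 0) (nat_lit 2) (nat_lit 0) false (nat_lit 20) true (nat_lit 19) false (nat_lit 10) true (nat_lit 19) true (nat_lit 17) (.s false (nat_lit 1) (nat_lit 98) (nat_lit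 0) (nat_lit 1) (nat_lit 1) true (nat_lit 16) true (nat_lit 18) false (nat_lit 11) true (nat_lit 19) true (nat_lit 18) (.s false (nat_lit 3) (nat_lit 99) (nat_lit 1) (nat_lit 0) (nat_lit 1) false (nat_lit 21) true (nat_lit 18) false (nat_lit 11) true (nat_lit 18) true (nat_lit 19) (.s false (nat_lit 1) (nat_lit 100) (nat_lit 1) (nat_lit 0) (nat_lit 1) false (nat_lit 21) true (nat_lit 18) false (nat_lit 11) true (nat_lit 18) true (nat_lit 19) (.s false (nat_lit 2) (nat_lit 101) (nat_lit 1) (nat_lit 0) (nat_lit 1) false (nat_lit 21) true (nat_lit 18) false (nat_lit 11) true (nat_lit 18) true (nat_lit 19) (.s true (nat_lit 2) (nat_lit 98) (nat_lit 1) (nat_lit 1) (nat_lit 0) true (nat_lit 16) true (nat_lit 19) false (nat_lit 11) true (nat_lit 18) true (nat_lit 18) (.s false (nat_lit 1) (nat_lit 99) (nat_lit 1) (nat_lit 1) (nat_lit 0) true (nat_lit 16) true (nat_lit 19) false (nat_lit 11) true (nat_lit 18) true (nat_lit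 18) (.s false (nat_lit 2) (nat_lit 100) (nat_lit 1) (nat_lit 1) (nat_lit 0) true (nat_lit 16) true (nat_lit 19) false (nat_lit 11) true (nat_lit 18) true (nat_lit 18) (.s false (nat_lit 3) (nat_lit 102) (nat_lit 0) (nat_lit 0) (nat_lit 1) true (nat_lit 16) true (nat_lit 18) false (nat_lit 12) true (nat_lit 19) true (nat_lit 19) (.s false (nat_lit 2) (nat_lit 104) (nat_lit 0) (nat_lit 0) (nat_lit 1) true (nat_lit 16) true (nat_lit 18) false (nat_lit 12) true (nat_lit 19) true (nat_lit 19) (.s false (nat_lit 3) (nat_lit 105) (nat_lit 0) (nat_lit 0) (nat_lit 1) true (nat_lit 16) true (nat_lit 18) false (nat_lit 12) true (nat_lit 19) true (nat_lit 19) (.s false (nat_lit 1) (nat_lit 102) (nat_lit 0) (nat_lit 1) (nat_lit 0) false (nat_lit 20) true (nat_lit 19) false (nat_lit 12) true (nat_lit 19) true (nat_lit 18) (.s false (nat_lit 3) (nat_lit 103) (nat_lit 0) (nat_lit 1) (nat_lit 0) false (nat_lit 20) true (nat_lit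 19) false (nat_lit 12) true (nat_lit 19) true (nat_lit 18) (.s false (nat_lit 1) (nat_lit 104) (nat_lit 0) (nat_lit 1) (nat_lit 0) false (nat_lit 20) true (nat_lit 19) false (nat_lit 12) true (nat_lit 19) true (nat_lit 18) (.s true (nat_lit 2) (nat_lit 105) (nat_lit 0) (nat_lit 1) (nat_lit 0) false (nat_lit 20) true (nat_lit 19) false (nat_lit 12) true (nat_lit 19) true (nat_lit 18) dC1d_i230)))))))))))))))))))))))))

noncomputable def dC1d_i232 : IL := (.s false (nat_lit 3) (nat_lit 75) (nat_lit 2) (nat_lit 2) (nat_lit 0) true (nat_lit 15) true (nat_lit 19) false (nat_lit 7) true (nat_lit 17) true (nat_lit 17) (.s true (nat_lit 3) (nat_lit 78) (nat_lit 1) (nat_lit 1) (nat_lit 2) true (nat_lit 14) true (nat_lit 17) false (nat_lit 8) true (nat_lit 18) true (nat_lit 18) (.s true (nat_lit 1) (nat_lit 79) (nat_lit 1) (nat_lit 1) (nat_lit 2) true (nat_lit 14) true (nat_lit 17) false (nat_lit 8) true (nat_lit 18) true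 (nat_lit 18) (.s true (nat_lit 1) (nat_lit 82) (nat_lit 0) (nat_lit 1) (nat_lit 2) true (nat_lit 15) true (nat_lit 17) false (nat_lit 9) true (nat_lit 19) true (nat_lit 18) (.s false (nat_lit 2) (nat_lit 83) (nat_lit 0) (nat_lit 1) (nat_lit 2) true (nat_lit 15) true (nat_lit 17) false (nat_lit 9) true (nat_lit 19) true (nat_lit 18) (.s false (nat_lit 1) (nat_lit 90) (nat_lit 0) (nat_lit 1) (nat_lit 2) true (nat_lit 15) true (nat_lit 17) false (nat_lit 9) true (nat_lit 19) true (nat_lit 18) (.s true (nat_lit 1) (nat_lit 82) (nat_lit 0) (nat_lit 2) (nat_lit 1) true (nat_lit 16) true (nat_lit 18) false (nat_lit 9) true (nat_lit 19) true (nat_lit 17) (.s true (nat_lit 3) (nat_lit 83) (nat_lit 0) (nat_lit 2) (nat_lit 1) true (nat_lit 16) true (nat_lit 18) false (nat_lit 9) true (nat_lit 19) true (nat_lit 17) (.s false (nat_lit 2) (nat_lit 84) (nat_lit 0) (nat_lit 2) (nat_lit 1) true (nat_lit 16) true (nat_lit 18) false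 (nat_lit 9) true (nat_lit 19) true (nat_lit 17) (.s false (nat_lit 2) (nat_lit 85) (nat_lit 0) (nat_lit 2) (nat_lit 1) true (nat_lit 16) true (nat_lit 18) false (nat_lit 9) true (nat_lit 19) true (nat_lit 17) (.s true (nat_lit 1) (nat_lit 86) (nat_lit 0) (nat_lit 2) (nat_lit 1) true (nat_lit 16) true (nat_lit 18) false (nat_lit 9) true (nat_lit 19) true (nat_lit 17) (.s false (nat_lit 1) (nat_lit 87) (nat_lit 0) (nat_lit 2) (nat_lit 1) true (nat_lit 16) true (nat_lit 18) false (nat_lit 9) true (nat_lit 19) true (nat_lit 17) (.s true (nat_lit 1) (nat_lit 89) (nat_lit 0) (nat_lit 2) (nat_lit 1) true (nat_lit 16) true (nat_lit 18) false (nat_lit 9) true (nat_lit 19) true (nat_lit 17) (.s false (nat_lit 2) (nat_lit 90) (nat_lit 0) (nat_lit 2) (nat_lit 1) true (nat_lit 16) true (nat_lit 18) false (nat_lit 9) true (nat_lit 19) true (nat_lit 17) (.s false (nat_lit 2) (nat_lit 91) (nat_lit 0) (nat_lit 2) (nat_lit 1) true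 (nat_lit 16) true (nat_lit 18) false (nat_lit 9) true (nat_lit 19) true (nat_lit 17) (.s false (nat_lit 1) (nat_lit 92) (nat_lit 0) (nat_lit 2) (nat_lit 1) true (nat_lit 16) true (nat_lit 18) false (nat_lit 9) true (nat_lit 19) true (nat_lit 17) (.s true (nat_lit 2) (nat_lit 82) (nat_lit 1) (nat_lit 0) (nat_lit 2) true (nat_lit 14) true (nat_lit 17) false (nat_lit 9) true (nat_lit 18) true (nat_lit 19) (.s false (nat_lit 2) (nat_lit 83) (nat_lit 1) (nat_lit 0) (nat_lit 2) true (nat_lit 14) true (nat_lit 17) false (nat_lit 9) true (nat_lit 18) true (nat_lit 19) (.s false (nat_lit 3) (nat_lit 82) (nat_lit 1) (nat_lit 2) (nat_lit 0) true (nat_lit 16) true (nat_lit 19) false (nat_lit 9) true (nat_lit 18) true (nat_lit 17) (.s false (nat_lit 3) (nat_lit 83) (nat_lit 1) (nat_lit 2) (nat_lit 0) true (nat_lit 16) true (nat_lit 19) false (nat_lit 9) true (nat_lit 18) true (nat_lit 17) (.s false (nat_lit 2) (nat_lit 84) (nat_lit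 1) (nat_lit 2) (nat_lit 0) true (nat_lit 16) true (nat_lit 19) false (nat_lit 9) true (nat_lit 18) true (nat_lit 17) (.s true (nat_lit 1) (nat_lit 85) (nat_lit 1) (nat_lit 2) (nat_lit 0) true (nat_lit 16) true (nat_lit 19) false (nat_lit 9) true (nat_lit 18) true (nat_lit 17) (.s true (nat_lit 3) (nat_lit 86) (nat_lit 1) (nat_lit 2) (nat_lit 0) true (nat_lit 16) true (nat_lit 19) false (nat_lit 9) true (nat_lit 18) true (nat_lit 17) (.s false (nat_lit 3) (nat_lit 87) (nat_lit 1) (nat_lit 2) (nat_lit 0) true (nat_lit 16) true (nat_lit 19) false (nat_lit 9) true (nat_lit 18) true (nat_lit 17) (.s true (nat_lit 1) (nat_lit 88) (nat_lit 1) (nat_lit 2) (nat_lit 0) true (nat_lit 16) true (nat_lit 19) false (nat_lit 9) true (nat_lit 18) true (nat_lit 17) dC1d_i231)))))))))))))))))))))))))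

noncomputable def dC1d_i233 : IL := (.s false (nat_lit 2) (nat_lit 55) (nat_lit 2) (nat_lit 1) (nat_lit 2) true (nat_lit 13) true (nat_lit 17) false (nat_lit 6) true (nat_lit 17) true (nat_lit 18) (.s false (nat_lit 2) (nat_lit 57) (nat_lit 2) (nat_lit 1) (nat_lit 2) true (nat_lit 13) true (nat_lit 17) false (nat_lit 6) true (nat_lit 17) true (nat_lit 18) (.s true (nat_lit 1) (nat_lit 59) (nat_lit 2) (nat_lit 1) (nat_lit 2) true (nat_lit 13) true (nat_lit 17) false (nat_lit 6) true (nat_lit 17) true (nat_lit 18) (.s true (nat_lit 1) (nat_lit 61) (nat_lit 2) (nat_lit 1) (nat_lit 2) true (nat_lit 13) true (nat_lit 17) false (nat_lit 6) true (nat_lit 17) true (nat_lit 18) (.s true (nat_lit 1) (nat_lit 64) (nat_lit 2) (nat_lit 1) (nat_lit 2) true (nat_lit 13) true (nat_lit 17) false (nat_lit 6) true (nat_lit 17) true (nat_lit 18) (.s true (nat_lit 2) (nat_lit 55) (nat_lit 2) (nat_lit 2) (nat_lit 1) true (nat_lit 14)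 true (nat_lit 18) false (nat_lit 6) true (nat_lit 17) true (nat_lit 17) (.s false (nat_lit 1) (nat_lit 56) (nat_lit 2) (nat_lit 2) (nat_lit 1) true (nat_lit 14) true (nat_lit 18) false (nat_lit 6) true (nat_lit 17) true (nat_lit 17) (.s true (nat_lit 2) (nat_lit 57) (nat_lit 2) (nat_lit 2) (nat_lit 1) true (nat_lit 14) true (nat_lit 18) false (nat_lit 6) true (nat_lit 17) true (nat_lit 17) (.s true (nat_lit 1) (nat_lit 58) (nat_lit 2) (nat_lit 2) (nat_lit 1) true (nat_lit 14) true (nat_lit 18) false (nat_lit 6) true (nat_lit 17) true (nat_lit 17) (.s true (nat_lit 2) (nat_lit 66) (nat_lit 0) (nat_lit 2) (nat_lit 2) true (nat_lit 15) true (nat_lit 17) false (nat_lit 7) true (nat_lit 19) true (nat_lit 17) (.s false (nat_lit 3) (nat_lit 67) (nat_lit 0) (nat_lit 2) (nat_lit 2) true (nat_lit 15) true (nat_lit 17) false (nat_lit 7) true (nat_lit 19) true (nat_lit 17) (.s false (nat_lit 1) (nat_lit 70) (nat_lit 0) (nat_lit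 2) (nat_lit 2) true (nat_lit 15) true (nat_lit 17) false (nat_lit 7) true (nat_lit 19) true (nat_lit 17) (.s false (nat_lit 3) (nat_lit 72) (nat_lit 0) (nat_lit 2) (nat_lit 2) true (nat_lit 15) true (nat_lit 17) false (nat_lit 7) true (nat_lit 19) true (nat_lit 17) (.s false (nat_lit 1) (nat_lit 74) (nat_lit 0) (nat_lit 2) (nat_lit 2) true (nat_lit 15) true (nat_lit 17) false (nat_lit 7) true (nat_lit 19) true (nat_lit 17) (.s true (nat_lit 3) (nat_lit 75) (nat_lit 0) (nat_lit 2) (nat_lit 2) true (nat_lit 15) true (nat_lit 17) false (nat_lit 7) true (nat_lit 19) true (nat_lit 17) (.s true (nat_lit 1) (nat_lit 76) (nat_lit 0) (nat_lit 2) (nat_lit 2) true (nat_lit 15) true (nat_lit 17) false (nat_lit 7) true (nat_lit 19) true (nat_lit 17) (.s false (nat_lit 3) (nat_lit 66) (nat_lit 2) (nat_lit 0) (nat_lit 2) true (nat_lit 13) true (nat_lit 17) false (nat_lit 7) true (nat_lit 17) true (nat_lit 19) (.s false (nat_lit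 1) (nat_lit 74) (nat_lit 2) (nat_lit 0) (nat_lit 2) true (nat_lit 13) true (nat_lit 17) false (nat_lit 7) true (nat_lit 17) true (nat_lit 19) (.s true (nat_lit 3) (nat_lit 75) (nat_lit 2) (nat_lit 0) (nat_lit 2) true (nat_lit 13) true (nat_lit 17) false (nat_lit 7) true (nat_lit 17) true (nat_lit 19) (.s true (nat_lit 2) (nat_lit 66) (nat_lit 2) (nat_lit 2) (nat_lit 0) true (nat_lit 15) true (nat_lit 19) false (nat_lit 7) true (nat_lit 17) true (nat_lit 17) (.s false (nat_lit 1) (nat_lit 67) (nat_lit 2) (nat_lit 2) (nat_lit 0) true (nat_lit 15) true (nat_lit 19) false (nat_lit 7) true (nat_lit 17) true (nat_lit 17) (.s false (nat_lit 1) (nat_lit 68) (nat_lit 2) (nat_lit 2) (nat_lit 0) true (nat_lit 15) true (nat_lit 19) false (nat_lit 7) true (nat_lit 17) true (nat_lit 17) (.s false (nat_lit 1) (nat_lit 70) (nat_lit 2) (nat_lit 2) (nat_lit 0) true (nat_lit 15) true (nat_lit 19) false (nat_lit 7) true (nat_lit 17)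 true (nat_lit 17) (.s true (nat_lit 3) (nat_lit 72) (nat_lit 2) (nat_lit 2) (nat_lit 0) true (nat_lit 15) true (nat_lit 19) false (nat_lit 7) true (nat_lit 17) true (nat_lit 17) (.s false (nat_lit 1) (nat_lit 74) (nat_lit 2) (nat_lit 2) (nat_lit 0) true (nat_lit 15) true (nat_lit 19) false (nat_lit 7) true (nat_lit 17) true (nat_lit 17) dC1d_i232)))))))))))))))))))))))))

noncomputable def dC1d_i234 : IL := (.s false (nat_lit 2) (nat_lit 35) (nat_lit 6) (nat_lit 0) (nat_lit 1) true (nat_lit 6) true (nat_lit 18) true (nat_lit 0) true (nat_lit 13) true (nat_lit 19) (.s true (nat_lit 1) (nat_lit 41) (nat_lit 3) (nat_lit 2) (nat_lit 1) true (nat_lit 11) true (nat_lit 18) false (nat_lit 2) true (nat_lit 16) true (nat_lit 17) (.s true (nat_lit 2) (nat_lit 40) (nat_lit 4) (nat_lit 1) (nat_lit 1) true (nat_lit 9) true (nat_lit 18) false (nat_lit 2) true (nat_lit 15) true (nat_lit 18) (.s false (nat_lit 2) (nat_lit 41) (nat_lit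 4) (nat_lit 1) (nat_lit 1) true (nat_lit 9) true (nat_lit 18) false (nat_lit 2) true (nat_lit 15) true (nat_lit 18) (.s true (nat_lit 1) (nat_lit 44) (nat_lit 0) (nat_lit 3) (nat_lit 2) true (nat_lit 15) true (nat_lit 17) false (nat_lit 3) true (nat_lit 19) true (nat_lit 16) (.s false (nat_lit 1) (nat_lit 45) (nat_lit 2) (nat_lit 0) (nat_lit 3) true (nat_lit 9) true (nat_lit 16) false (nat_lit 3) true (nat_lit 17) true (nat_lit 19) (.s true (nat_lit 1) (nat_lit 44) (nat_lit 2) (nat_lit 3) (nat_lit 0) true (nat_lit 15) true (nat_lit 19) false (nat_lit 3) true (nat_lit 17) true (nat_lit 16) (.s false (nat_lit 3) (nat_lit 44) (nat_lit 3) (nat_lit 2) (nat_lit 0) true (nat_lit 12) true (nat_lit 19) false (nat_lit 3) true (nat_lit 16) true (nat_lit 17) (.s true (nat_lit 2) (nat_lit 45) (nat_lit 3) (nat_lit 2) (nat_lit 0) true (nat_lit 12) true (nat_lit 19) false (nat_lit 3) true (nat_lit 16) true (nat_lit 17) (.s false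 (nat_lit 2) (nat_lit 44) (nat_lit 4) (nat_lit 1) (nat_lit 0) true (nat_lit 10) true (nat_lit 19) false (nat_lit 3) true (nat_lit 15) true (nat_lit 18) (.s false (nat_lit 1) (nat_lit 44) (nat_lit 5) (nat_lit 0) (nat_lit 0) true (nat_lit 9) true (nat_lit 19) false (nat_lit 3) true (nat_lit 14) true (nat_lit 19) (.s true (nat_lit 2) (nat_lit 45) (nat_lit 5) (nat_lit 0) (nat_lit 0) true (nat_lit 9) true (nat_lit 19) false (nat_lit 3) true (nat_lit 14) true (nat_lit 19) (.s false (nat_lit 1) (nat_lit 46) (nat_lit 0) (nat_lit 1) (nat_lit 3) true (nat_lit 12) true (nat_lit 16) false (nat_lit 4) true (nat_lit 19) true (nat_lit 18) (.s false (nat_lit 3) (nat_lit 46) (nat_lit 0) (nat_lit 3) (nat_lit 1) true (nat_lit 16) true (nat_lit 18) false (nat_lit 4) true (nat_lit 19) true (nat_lit 16) (.s true (nat_lit 1) (nat_lit 46) (nat_lit 1) (nat_lit 3) (nat_lit 0) true (nat_lit 16) true (nat_lit 19) false (nat_lit 4) true (nat_lit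 18) true (nat_lit 16) (.s false (nat_lit 1) (nat_lit 46) (nat_lit 3) (nat_lit 1) (nat_lit 0) true (nat_lit 12) true (nat_lit 19) false (nat_lit 4) true (nat_lit 16) true (nat_lit 18) (.s false (nat_lit 1) (nat_lit 48) (nat_lit 2) (nat_lit 2) (nat_lit 2) true (nat_lit 13) true (nat_lit 17) false (nat_lit 5) true (nat_lit 17) true (nat_lit 17) (.s true (nat_lit 1) (nat_lit 55) (nat_lit 1) (nat_lit 2) (nat_lit 2) true (nat_lit 14) true (nat_lit 17) false (nat_lit 6) true (nat_lit 18) true (nat_lit 17) (.s true (nat_lit 1) (nat_lit 56) (nat_lit 1) (nat_lit 2) (nat_lit 2) true (nat_lit 14) true (nat_lit 17) false (nat_lit 6) true (nat_lit 18) true (nat_lit 17) (.s true (nat_lit 2) (nat_lit 57) (nat_lit 1) (nat_lit 2) (nat_lit 2) true (nat_lit 14) true (nat_lit 17) false (nat_lit 6) true (nat_lit 18) true (nat_lit 17) (.s true (nat_lit 1) (nat_lit 58) (nat_lit 1) (nat_lit 2) (nat_lit 2) true (nat_lit 14) true (nat_lit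 17) false (nat_lit 6) true (nat_lit 18) true (nat_lit 17) (.s false (nat_lit 1) (nat_lit 60) (nat_lit 1) (nat_lit 2) (nat_lit 2) true (nat_lit 14) true (nat_lit 17) false (nat_lit 6) true (nat_lit 18) true (nat_lit 17) (.s false (nat_lit 1) (nat_lit 61) (nat_lit 1) (nat_lit 2) (nat_lit 2) true (nat_lit 14) true (nat_lit 17) false (nat_lit 6) true (nat_lit 18) true (nat_lit 17) (.s true (nat_lit 2) (nat_lit 62) (nat_lit 1) (nat_lit 2) (nat_lit 2) true (nat_lit 14) true (nat_lit 17) false (nat_lit 6) true (nat_lit 18) true (nat_lit 17) (.s true (nat_lit 2) (nat_lit 64) (nat_lit 1) (nat_lit 2) (nat_lit 2) true (nat_lit 14) true (nat_lit 17) false (nat_lit 6) true (nat_lit 18) true (nat_lit 17) dC1d_i233)))))))))))))))))))))))))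

noncomputable def dC1d_i235 : IL := (.s true (nat_lit 1) (nat_lit 21) (nat_lit 6) (nat_lit 2) (nat_lit 1) true (nat_lit 6) true (nat_lit 18) true (nat_lit 3) true (nat_lit 13) true (nat_lit 17) (.s true (nat_lit 3) (nat_lit 24) (nat_lit 0) (nat_lit 2) (nat_lit 6) true (nat_lit 7) true (nat_lit 13) true (nat_lit 2) true (nat_lit 19) true (nat_lit 17) (.s false (nat_lit 1) (nat_lit 24) (nat_lit 0) (nat_lit 6) (nat_lit 2) true (nat_lit 15) true (nat_lit 17) true (nat_lit 2) true (nat_lit 19) true (nat_lit 13) (.s false (nat_lit 1) (nat_lit 24) (nat_lit 2) (nat_lit 0) (nat_lit 6) true (nat_lit 5) true (nat_lit 13) true (nat_lit 2) true (nat_lit 17) true (nat_lit 19) (.s true (nat_lit 3) (nat_lit 24) (nat_lit 2) (nat_lit 2) (nat_lit 4) true (nat_lit 7) true (nat_lit 15) true (nat_lit 2) true (nat_lit 17) true (nat_lit 17) (.s true (nat_lit 3) (nat_lit 25) (nat_lit 2) (nat_lit 2) (nat_lit 4) true (nat_lit 7) true (nat_lit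 15) true (nat_lit 2) true (nat_lit 17) true (nat_lit 17) (.s true (nat_lit 3) (nat_lit 24) (nat_lit 6) (nat_lit 0) (nat_lit 2) true (nat_lit 5) true (nat_lit 17) true (nat_lit 2) true (nat_lit 13) true (nat_lit 19) (.s true (nat_lit 1) (nat_lit 26) (nat_lit 6) (nat_lit 0) (nat_lit 2) true (nat_lit 5) true (nat_lit 17) true (nat_lit 2) true (nat_lit 13) true (nat_lit 19) (.s false (nat_lit 1) (nat_lit 30) (nat_lit 1) (nat_lit 1) (nat_lit 6) true (nat_lit 6) true (nat_lit 13) true (nat_lit 1) true (nat_lit 18) true (nat_lit 18) (.s false (nat_lit 1) (nat_lit 29) (nat_lit 1) (nat_lit 2) (nat_lit 5) true (nat_lit 8) true (nat_lit 14) true (nat_lit 1) true (nat_lit 18) true (nat_lit 17) (.s false (nat_lit 3) (nat_lit 28) (nat_lit 1) (nat_lit 5) (nat_lit 2) true (nat_lit 14) true (nat_lit 17) true (nat_lit 1) true (nat_lit 18) true (nat_lit 14) (.s false (nat_lit 3) (nat_lit 30) (nat_lit 1) (nat_lit 6) (nat_lit 1) false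 (nat_lit 21) true (nat_lit 18) true (nat_lit 1) true (nat_lit 18) true (nat_lit 13) (.s true (nat_lit 1) (nat_lit 28) (nat_lit 2) (nat_lit 1) (nat_lit 5) true (nat_lit 6) true (nat_lit 14) true (nat_lit 1) true (nat_lit 17) true (nat_lit 18) (.s false (nat_lit 1) (nat_lit 29) (nat_lit 2) (nat_lit 1) (nat_lit 5) true (nat_lit 6) true (nat_lit 14) true (nat_lit 1) true (nat_lit 17) true (nat_lit 18) (.s false (nat_lit 3) (nat_lit 28) (nat_lit 5) (nat_lit 1) (nat_lit 2) true (nat_lit 6) true (nat_lit 17) true (nat_lit 1) true (nat_lit 14) true (nat_lit 18) (.s false (nat_lit 1) (nat_lit 31) (nat_lit 0) (nat_lit 1) (nat_lit 6) true (nat_lit 7) true (nat_lit 13) true (nat_lit 0) true (nat_lit 19) true (nat_lit 18) (.s true (nat_lit 1) (nat_lit 31) (nat_lit 0) (nat_lit 2) (nat_lit 5) true (nat_lit 9) true (nat_lit 14) true (nat_lit 0) true (nat_lit 19) true (nat_lit 17) (.s true (nat_lit 1) (nat_lit 31) (nat_lit 1) (nat_lit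 2) (nat_lit 4) true (nat_lit 9) true (nat_lit 15) true (nat_lit 0) true (nat_lit 18) true (nat_lit 17) (.s false (nat_lit 1) (nat_lit 31) (nat_lit 1) (nat_lit 6) (nat_lit 0) true (nat_lit 16) true (nat_lit 19) true (nat_lit 0) true (nat_lit 18) true (nat_lit 13) (.s false (nat_lit 3) (nat_lit 31) (nat_lit 2) (nat_lit 1) (nat_lit 4) true (nat_lit 7) true (nat_lit 15) true (nat_lit 0) true (nat_lit 17) true (nat_lit 18) (.s false (nat_lit 1) (nat_lit 31) (nat_lit 2) (nat_lit 5) (nat_lit 0) true (nat_lit 15) true (nat_lit 19) true (nat_lit 0) true (nat_lit 17) true (nat_lit 14) (.s true (nat_lit 1) (nat_lit 36) (nat_lit 3) (nat_lit 2) (nat_lit 2) true (nat_lit 9) true (nat_lit 17) true (nat_lit 0) true (nat_lit 16) true (nat_lit 17) (.s true (nat_lit 2) (nat_lit 31) (nat_lit 4) (nat_lit 1) (nat_lit 2) true (nat_lit 7) true (nat_lit 17) true (nat_lit 0) true (nat_lit 15) true (nat_lit 18) (.s false (nat_lit 2) (nat_lit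 31) (nat_lit 4) (nat_lit 2) (nat_lit 1) true (nat_lit 9) true (nat_lit 18) true (nat_lit 0) true (nat_lit 15) true (nat_lit 17) (.s true (nat_lit 1) (nat_lit 32) (nat_lit 4) (nat_lit 2) (nat_lit 1) true (nat_lit 9) true (nat_lit 18) true (nat_lit 0) true (nat_lit 15) true (nat_lit 17) dC1d_i234)))))))))))))))))))))))))

noncomputable def dC1d_i236 : IL := (.s false (nat_lit 1) (nat_lit 16) (nat_lit 9) (nat_lit 2) (nat_lit 1) true (nat_lit 3) true (nat_lit 18) true (nat_lit 6) true (nat_lit 10) true (nat_lit 17) (.s true (nat_lit 1) (nat_lit 16) (nat_lit 15) (nat_lit 0) (nat_lit 1) true (nat_lit 0) true (nat_lit 18) true (nat_lit 6) true (nat_lit 7) true (nat_lit 19) (.s false (nat_lit 2) (nat_lit 17) (nat_lit 15) (nat_lit 0) (nat_lit 1) true (nat_lit 0) true (nat_lit 18) true (nat_lit 6) true (nat_lit 7) true (nat_lit 19) (.s true (nat_lit 3) (nat_lit 17) (nat_lit 15) (nat_lit 1) (nat_lit 0) true (nat_lit 1) true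 (nat_lit 19) true (nat_lit 6) true (nat_lit 7) true (nat_lit 18) (.s true (nat_lit 1) (nat_lit 18) (nat_lit 0) (nat_lit 2) (nat_lit 8) true (nat_lit 4) true (nat_lit 11) true (nat_lit 5) true (nat_lit 19) true (nat_lit 17) (.s false (nat_lit 1) (nat_lit 18) (nat_lit 0) (nat_lit 10) (nat_lit 1) true (nat_lit 16) true (nat_lit 18) true (nat_lit 5) true (nat_lit 19) true (nat_lit 9) (.s false (nat_lit 2) (nat_lit 18) (nat_lit 1) (nat_lit 1) (nat_lit 9) true (nat_lit 3) true (nat_lit 10) true (nat_lit 5) true (nat_lit 18) true (nat_lit 18) (.s false (nat_lit 1) (nat_lit 18) (nat_lit 1) (nat_lit 4) (nat_lit 3) true (nat_lit 11) true (nat_lit 16) true (nat_lit 5) true (nat_lit 18) true (nat_lit 15) (.s false (nat_lit 2) (nat_lit 18) (nat_lit 1) (nat_lit 11) (nat_lit 0) true (nat_lit 16) true (nat_lit 19) true (nat_lit 5) true (nat_lit 18) true (nat_lit 9) (.s false (nat_lit 1) (nat_lit 18) (nat_lit 3) (nat_lit 1) (nat_lit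 4) true (nat_lit 3) true (nat_lit 15) true (nat_lit 5) true (nat_lit 16) true (nat_lit 18) (.s true (nat_lit 3) (nat_lit 18) (nat_lit 3) (nat_lit 3) (nat_lit 2) true (nat_lit 9) true (nat_lit 17) true (nat_lit 5) true (nat_lit 16) true (nat_lit 16) (.s false (nat_lit 2) (nat_lit 18) (nat_lit 3) (nat_lit 4) (nat_lit 1) true (nat_lit 11) true (nat_lit 18) true (nat_lit 5) true (nat_lit 16) true (nat_lit 15) (.s false (nat_lit 2) (nat_lit 18) (nat_lit 4) (nat_lit 1) (nat_lit 3) true (nat_lit 3) true (nat_lit 16) true (nat_lit 5) true (nat_lit 15) true (nat_lit 18) (.s false (nat_lit 1) (nat_lit 18) (nat_lit 7) (nat_lit 1) (nat_lit 2) true (nat_lit 3) true (nat_lit 17) true (nat_lit 5) true (nat_lit 12) true (nat_lit 18) (.s true (nat_lit 2) (nat_lit 18) (nat_lit 8) (nat_lit 0) (nat_lit 2) true (nat_lit 2) true (nat_lit 17) true (nat_lit 5) true (nat_lit 11) true (nat_lit 19) (.s true (nat_lit 3) (nat_lit 18) (nat_lit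 10) (nat_lit 0) (nat_lit 1) true (nat_lit 2) true (nat_lit 18) true (nat_lit 5) true (nat_lit 9) true (nat_lit 19) (.s true (nat_lit 2) (nat_lit 18) (nat_lit 11) (nat_lit 1) (nat_lit 0) true (nat_lit 3) true (nat_lit 19) true (nat_lit 5) true (nat_lit 9) true (nat_lit 18) (.s false (nat_lit 1) (nat_lit 19) (nat_lit 2) (nat_lit 2) (nat_lit 6) true (nat_lit 5) true (nat_lit 13) true (nat_lit 4) true (nat_lit 17) true (nat_lit 17) (.s true (nat_lit 2) (nat_lit 20) (nat_lit 1) (nat_lit 6) (nat_lit 2) true (nat_lit 14) true (nat_lit 17) true (nat_lit 3) true (nat_lit 18) true (nat_lit 13) (.s false (nat_lit 1) (nat_lit 23) (nat_lit 1) (nat_lit 6) (nat_lit 2) true (nat_lit 14) true (nat_lit 17) true (nat_lit 3) true (nat_lit 18) true (nat_lit 13) (.s false (nat_lit 2) (nat_lit 22) (nat_lit 2) (nat_lit 2) (nat_lit 5) true (nat_lit 6) true (nat_lit 14) true (nat_lit 3) true (nat_lit 17) true (nat_lit 17) (.s true (nat_lit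 1) (nat_lit 20) (nat_lit 2) (nat_lit 5) (nat_lit 2) true (nat_lit 13) true (nat_lit 17) true (nat_lit 3) true (nat_lit 17) true (nat_lit 14) (.s true (nat_lit 1) (nat_lit 20) (nat_lit 2) (nat_lit 6) (nat_lit 1) true (nat_lit 14) true (nat_lit 18) true (nat_lit 3) true (nat_lit 17) true (nat_lit 13) (.s false (nat_lit 1) (nat_lit 21) (nat_lit 5) (nat_lit 2) (nat_lit 2) true (nat_lit 6) true (nat_lit 17) true (nat_lit 3) true (nat_lit 14) true (nat_lit 17) (.s true (nat_lit 2) (nat_lit 21) (nat_lit 6) (nat_lit 1) (nat_lit 2) true (nat_lit 5) true (nat_lit 17) true (nat_lit 3) true (nat_lit 13) true (nat_lit 18) dC1d_i235)))))))))))))))))))))))))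

noncomputable def dC1d_i237 : IL := (.s true (nat_lit 1) (nat_lit 13) (nat_lit 2) (nat_lit 9) (nat_lit 2) true (nat_lit 13) true (nat_lit 17) true (nat_lit 8) true (nat_lit 17) true (nat_lit 10) (.s true (nat_lit 1) (nat_lit 13) (nat_lit 9) (nat_lit 2) (nat_lit 2) true (nat_lit 1) true (nat_lit 17) true (nat_lit 8) true (nat_lit 10) true (nat_lit 17) (.s true (nat_lit 3) (nat_lit 14) (nat_lit 1) (nat_lit 1) (nat_lit 14) true (nat_lit 0) true (nat_lit 7) true (nat_lit 7) true (nat_lit 18) true (nat_lit 18) (.s true (nat_lit 1) (nat_lit 14) (nat_lit 1) (nat_lit 1) (nat_lit 15) true (nat_lit 0) true (nat_lit 7) true (nat_lit 7) true (nat_lit 18) true (nat_lit 18) (.s true (nat_lit 2) (nat_lit 14) (nat_lit 1) (nat_lit 2) (nat_lit 11) true (nat_lit 2) true (nat_lit 9) true (nat_lit 7) true (nat_lit 18) true (nat_lit 17) (.s false (nat_lit 1) (nat_lit 15) (nat_lit 1) (nat_lit 2) (nat_lit 11) true (nat_lit 2) true (nat_lit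 9) true (nat_lit 7) true (nat_lit 18) true (nat_lit 17) (.s true (nat_lit 1) (nat_lit 14) (nat_lit 2) (nat_lit 1) (nat_lit 11) true (nat_lit 0) true (nat_lit 9) true (nat_lit 7) true (nat_lit 17) true (nat_lit 18) (.s true (nat_lit 1) (nat_lit 14) (nat_lit 2) (nat_lit 8) (nat_lit 2) true (nat_lit 13) true (nat_lit 17) true (nat_lit 7) true (nat_lit 17) true (nat_lit 11) (.s false (nat_lit 1) (nat_lit 15) (nat_lit 2) (nat_lit 12) (nat_lit 1) true (nat_lit 14) true (nat_lit 18) true (nat_lit 7) true (nat_lit 17) true (nat_lit 9) (.s true (nat_lit 3) (nat_lit 15) (nat_lit 3) (nat_lit 1) (nat_lit 6) true (nat_lit 0) true (nat_lit 13) true (nat_lit 7) true (nat_lit 16) true (nat_lit 18) (.s false (nat_lit 2) (nat_lit 15) (nat_lit 8) (nat_lit 2) (nat_lit 2) true (nat_lit 2) true (nat_lit 17) true (nat_lit 7) true (nat_lit 11) true (nat_lit 17) (.s true (nat_lit 2) (nat_lit 15) (nat_lit 10) (nat_lit 1) (nat_lit 2) true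 (nat_lit 0) true (nat_lit 17) true (nat_lit 7) true (nat_lit 9) true (nat_lit 18) (.s false (nat_lit 2) (nat_lit 15) (nat_lit 10) (nat_lit 2) (nat_lit 1) true (nat_lit 2) true (nat_lit 18) true (nat_lit 7) true (nat_lit 9) true (nat_lit 17) (.s false (nat_lit 2) (nat_lit 17) (nat_lit 0) (nat_lit 0) (nat_lit 17) true (nat_lit 0) true (nat_lit 6) true (nat_lit 6) true (nat_lit 19) true (nat_lit 19) (.s false (nat_lit 1) (nat_lit 16) (nat_lit 0) (nat_lit 10) (nat_lit 2) true (nat_lit 15) true (nat_lit 17) true (nat_lit 6) true (nat_lit 19) true (nat_lit 9) (.s true (nat_lit 1) (nat_lit 17) (nat_lit 1) (nat_lit 0) (nat_lit 15) true (nat_lit 0) true (nat_lit 7) true (nat_lit 6) true (nat_lit 18) true (nat_lit 19) (.s true (nat_lit 1) (nat_lit 16) (nat_lit 2) (nat_lit 0) (nat_lit 10) true (nat_lit 0) true (nat_lit 9) true (nat_lit 6) true (nat_lit 17) true (nat_lit 19) (.s false (nat_lit 2) (nat_lit 16) (nat_lit 2) (nat_lit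 2) (nat_lit 7) true (nat_lit 3) true (nat_lit 12) true (nat_lit 6) true (nat_lit 17) true (nat_lit 17) (.s true (nat_lit 3) (nat_lit 16) (nat_lit 2) (nat_lit 7) (nat_lit 2) true (nat_lit 13) true (nat_lit 17) true (nat_lit 6) true (nat_lit 17) true (nat_lit 12) (.s false (nat_lit 3) (nat_lit 17) (nat_lit 2) (nat_lit 7) (nat_lit 2) true (nat_lit 13) true (nat_lit 17) true (nat_lit 6) true (nat_lit 17) true (nat_lit 12) (.s false (nat_lit 1) (nat_lit 16) (nat_lit 2) (nat_lit 10) (nat_lit 0) true (nat_lit 15) true (nat_lit 19) true (nat_lit 6) true (nat_lit 17) true (nat_lit 9) (.s true (nat_lit 1) (nat_lit 16) (nat_lit 7) (nat_lit 2) (nat_lit 2) true (nat_lit 3) true (nat_lit 17) true (nat_lit 6) true (nat_lit 12) true (nat_lit 17) (.s false (nat_lit 2) (nat_lit 17) (nat_lit 7) (nat_lit 2) (nat_lit 2) true (nat_lit 3) true (nat_lit 17) true (nat_lit 6) true (nat_lit 12) true (nat_lit 17) (.s false (nat_lit 1) (nat_lit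 16) (nat_lit 9) (nat_lit 1) (nat_lit 2) true (nat_lit 1) true (nat_lit 17) true (nat_lit 6) true (nat_lit 10) true (nat_lit 18) (.s true (nat_lit 1) (nat_lit 17) (nat_lit 9) (nat_lit 1) (nat_lit 2) true (nat_lit 1) true (nat_lit 17) true (nat_lit 6) true (nat_lit 10) true (nat_lit 18) dC1d_i236)))))))))))))))))))))))))

noncomputable def dC1d_i238 : IL := (.e false (nat_lit 2) (nat_lit 77) (nat_lit 13) (nat_lit 8) (.e true (nat_lit 1) (nat_lit 291) (nat_lit 0) (nat_lit 19) (.e true (nat_lit 1) (nat_lit 293) (nat_lit 0) (nat_lit 19) (.e true (nat_lit 3) (nat_lit 295) (nat_lit 0) (nat_lit 19) (.e false (nat_lit 3) (nat_lit 296) (nat_lit 0) (nat_lit 19) (.e false (nat_lit 1) (nat_lit 297) (nat_lit 0) (nat_lit 19) (.e false (nat_lit 2) (nat_lit 298) (nat_lit 0) (nat_lit 19) (.e true (nat_lit 3) (nat_lit 299) (nat_lit 0) (nat_lit 19) (.e true (nat_lit 3) (nat_lit 300) (nat_lit 0) (nat_lit 19) (.e false (nat_lit 3) (nat_lit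 301) (nat_lit 0) (nat_lit 19) (.e false (nat_lit 1) (nat_lit 308) (nat_lit 0) (nat_lit 19) (.e false (nat_lit 2) (nat_lit 309) (nat_lit 0) (nat_lit 19) (.e false (nat_lit 2) (nat_lit 310) (nat_lit 0) (nat_lit 19) (.e false (nat_lit 1) (nat_lit 316) (nat_lit 0) (nat_lit 19) (.e true (nat_lit 2) (nat_lit 281) (nat_lit 1) (nat_lit 18) (.e true (nat_lit 1) (nat_lit 282) (nat_lit 1) (nat_lit 18) (.e true (nat_lit 1) (nat_lit 290) (nat_lit 0) (nat_lit 19) (.e true (nat_lit 3) (nat_lit 302) (nat_lit 0) (nat_lit 19) (.e true (nat_lit 2) (nat_lit 305) (nat_lit 0) (nat_lit 19) (.e false (nat_lit 3) (nat_lit 160) (nat_lit 4) (nat_lit 15) (.e false (nat_lit 1) (nat_lit 78) (nat_lit 13) (nat_lit 8) (.u (nat_lit 2) (.p (nat_lit 0) (nat_lit 1) (.p (nat_lit 1) (nat_lit 1) (.p (nat_lit 4) (nat_lit 1) (.p (nat_lit 7) (nat_lit 1) (.n (nat_lit 8) (nat_lit 1) (.p (nat_lit 10) (nat_lit 1) (.n (nat_lit 11) (nat_lit 1) (.n (nat_lit 15)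 (nat_lit 1) (.n (nat_lit 17) (nat_lit 1) (.p (nat_lit 18) (nat_lit 1) (.n (nat_lit 20) (nat_lit 1) (.n (nat_lit 71) (nat_lit 2) (.n (nat_lit 72) (nat_lit 1) (.p (nat_lit 73) (nat_lit 1) (.p (nat_lit 74) (nat_lit 1) (.p (nat_lit 75) (nat_lit 1) (.n (nat_lit 76) (nat_lit 2) (.n (nat_lit 77) (nat_lit 1) (.n (nat_lit 78) (nat_lit 1) (.p (nat_lit 79) (nat_lit 1) (.p (nat_lit 80) (nat_lit 1) (.n (nat_lit 82) (nat_lit 1) (.p (nat_lit 83) (nat_lit 1) (.p (nat_lit 84) (nat_lit 1) (.n (nat_lit 85) (nat_lit 1) (.n (nat_lit 86) (nat_lit 1) (.p (nat_lit 88) (nat_lit 1) (.p (nat_lit 89) (nat_lit 1) (.p (nat_lit 90) (nat_lit 1) (.n (nat_lit 91) (nat_lit 1) (.p (nat_lit 94) (nat_lit 1) (.p (nat_lit 95) (nat_lit 1) (.p (nat_lit 100) (nat_lit 1) (.n (nat_lit 107) (nat_lit 1) (.n (nat_lit 108) (nat_lit 1) (.p (nat_lit 109) (nat_lit 1) (.p (nat_lit 115) (nat_lit 1) (.n (nat_lit 117) (nat_lit 1) (.p (nat_lit 120) (nat_lit 1) (.p (nat_lit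 127) (nat_lit 1) (.p (nat_lit 133) (nat_lit 1) (.n (nat_lit 136) (nat_lit 1) (.n (nat_lit 139) (nat_lit 1) (.p (nat_lit 140) (nat_lit 1) (.n (nat_lit 141) (nat_lit 1) (.p (nat_lit 144) (nat_lit 1) (.p (nat_lit 146) (nat_lit 1) (.n (nat_lit 148) (nat_lit 1) (.n (nat_lit 149) (nat_lit 1) (.p (nat_lit 150) (nat_lit 1) (.n (nat_lit 151) (nat_lit 2) (.n (nat_lit 152) (nat_lit 1) (.n (nat_lit 153) (nat_lit 2) (.n (nat_lit 154) (nat_lit 2) (.p (nat_lit 155) (nat_lit 1) (.p (nat_lit 158) (nat_lit 1) (.n (nat_lit 159) (nat_lit 1) (.p (nat_lit 161) (nat_lit 1) (.n (nat_lit 162) (nat_lit 3) (.p (nat_lit 164) (nat_lit 3) .z)))))))))))))))))))))))))))))))))))))))))))))))))))))))))))) (.u (nat_lit 2) (.p (nat_lit 165) (nat_lit 2) (.n (nat_lit 169) (nat_lit 3) (.n (nat_lit 170) (nat_lit 4) (.n (nat_lit 183) (nat_lit 1) (.n (nat_lit 186) (nat_lit 1) (.p (nat_lit 188) (nat_lit 2) (.p (nat_lit 190) (nat_lit 1) (.n (nat_lit 191) (nat_lit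 1) (.n (nat_lit 192) (nat_lit 1) (.n (nat_lit 195) (nat_lit 1) (.n (nat_lit 210) (nat_lit 1) (.p (nat_lit 220) (nat_lit 1) (.p (nat_lit 221) (nat_lit 1) (.n (nat_lit 222) (nat_lit 1) (.p (nat_lit 225) (nat_lit 1) (.n (nat_lit 226) (nat_lit 1) (.p (nat_lit 231) (nat_lit 1) (.p (nat_lit 232) (nat_lit 1) (.n (nat_lit 233) (nat_lit 1) (.n (nat_lit 235) (nat_lit 1) (.n (nat_lit 237) (nat_lit 1) (.n (nat_lit 238) (nat_lit 1) (.n (nat_lit 239) (nat_lit 1) (.n (nat_lit 242) (nat_lit 1) (.p (nat_lit 244) (nat_lit 1) (.p (nat_lit 245) (nat_lit 1) (.p (nat_lit 246) (nat_lit 1) (.n (nat_lit 247) (nat_lit 1) (.p (nat_lit 249) (nat_lit 1) (.n (nat_lit 251) (nat_lit 3) (.p (nat_lit 252) (nat_lit 1) (.n (nat_lit 253) (nat_lit 1) (.p (nat_lit 254) (nat_lit 2) (.p (nat_lit 255) (nat_lit 1) (.n (nat_lit 257) (nat_lit 3) (.p (nat_lit 258) (nat_lit 3) (.p (nat_lit 260) (nat_lit 4) (.n (nat_lit 261) (nat_lit 5) (.p (nat_lit 262) (nat_lit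 1) (.n (nat_lit 263) (nat_lit 1) (.n (nat_lit 266) (nat_lit 1) (.p (nat_lit 269) (nat_lit 1) (.p (nat_lit 270) (nat_lit 2) (.p (nat_lit 271) (nat_lit 1) (.p (nat_lit 273) (nat_lit 3) (.p (nat_lit 274) (nat_lit 3) (.p (nat_lit 275) (nat_lit 2) (.p (nat_lit 277) (nat_lit 2) (.n (nat_lit 278) (nat_lit 3) (.p (nat_lit 279) (nat_lit 2) (.n (nat_lit 281) (nat_lit 2) (.n (nat_lit 282) (nat_lit 1) (.p (nat_lit 286) (nat_lit 1) (.n (nat_lit 288) (nat_lit 1) (.n (nat_lit 289) (nat_lit 1) (.n (nat_lit 298) (nat_lit 1) (.n (nat_lit 301) (nat_lit 1) (.n (nat_lit 308) (nat_lit 3) (.p (nat_lit 311) (nat_lit 2) (.n (nat_lit 312) (nat_lit 3) .z)))))))))))))))))))))))))))))))))))))))))))))))))))))))))))) (.u (nat_lit 2) (.n (nat_lit 314) (nat_lit 6) (.n (nat_lit 315) (nat_lit 3) (.n (nat_lit 316) (nat_lit 2) (.n (nat_lit 317) (nat_lit 1) (.n (nat_lit 318) (nat_lit 2) (.n (nat_lit 319) (nat_lit 2) (.p (nat_lit 320) (nat_lit 2) (.p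 (nat_lit 321) (nat_lit 4) (.p (nat_lit 323) (nat_lit 2) (.p (nat_lit 324) (nat_lit 1) (.n (nat_lit 325) (nat_lit 1) (.n (nat_lit 327) (nat_lit 10) (.p (nat_lit 328) (nat_lit 28) (.p (nat_lit 329) (nat_lit 13) (.p (nat_lit 330) (nat_lit 3) (.p (nat_lit 331) (nat_lit 14) (.p (nat_lit 332) (nat_lit 30) (.p (nat_lit 333) (nat_lit 27) (.p (nat_lit 334) (nat_lit 29) (.p (nat_lit 335) (nat_lit 24) (.n (nat_lit 336) (nat_lit 28) (.p (nat_lit 337) (nat_lit 8) (.n (nat_lit 338) (nat_lit 23) (.n (nat_lit 339) (nat_lit 12) (.p (nat_lit 340) (nat_lit 2) (.n (nat_lit 341) (nat_lit 8) (.p (nat_lit 342) (nat_lit 7) (.n (nat_lit 343) (nat_lit 11) (.p (nat_lit 344) (nat_lit 17) (.p (nat_lit 345) (nat_lit 10) (.n (nat_lit 346) (nat_lit 1) (.p (nat_lit 347) (nat_lit 8) (.n (nat_lit 348) (nat_lit 3) (.p (nat_lit 349) (nat_lit 14) (.p (nat_lit 350) (nat_lit 3) (.n (nat_lit 351) (nat_lit 5) (.n (nat_lit 352) (nat_lit 5) (.n (nat_lit 353)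 (nat_lit 1) (.p (nat_lit 354) (nat_lit 33) (.p (nat_lit 355) (nat_lit 29) (.n (nat_lit 356) (nat_lit 55) (.n (nat_lit 357) (nat_lit 12) (.p (nat_lit 358) (nat_lit 8) (.n (nat_lit 360) (nat_lit 12) (.p (nat_lit 361) (nat_lit 22) (.n (nat_lit 362) (nat_lit 15) (.n (nat_lit 363) (nat_lit 15) (.p (nat_lit 364) (nat_lit 3) (.p (nat_lit 365) (nat_lit 7) (.p (nat_lit 366) (nat_lit 4) (.p (nat_lit 367) (nat_lit 2) (.n (nat_lit 368) (nat_lit 7) (.n (nat_lit 369) (nat_lit 1) (.p (nat_lit 370) (nat_lit 1) (.n (nat_lit 372) (nat_lit 4) (.p (nat_lit 373) (nat_lit 4) (.n (nat_lit 374) (nat_lit 1) (.n (nat_lit 376) (nat_lit 23) (.n (nat_lit 377) (nat_lit 13) (.n (nat_lit 378) (nat_lit 3) .z)))))))))))))))))))))))))))))))))))))))))))))))))))))))))))) (.u (nat_lit 2) (.p (nat_lit 379) (nat_lit 12) (.n (nat_lit 380) (nat_lit 16) (.p (nat_lit 381) (nat_lit 12) (.n (nat_lit 382) (nat_lit 30) (.p (nat_lit 383) (nat_lit 8) (.p (nat_lit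 384) (nat_lit 17) (.p (nat_lit 385) (nat_lit 2) (.n (nat_lit 386) (nat_lit 3) (.n (nat_lit 387) (nat_lit 8) (.p (nat_lit 388) (nat_lit 10) (.n (nat_lit 389) (nat_lit 11) (.p (nat_lit 390) (nat_lit 1) (.n (nat_lit 392) (nat_lit 16) (.p (nat_lit 393) (nat_lit 4) (.p (nat_lit 394) (nat_lit 14) (.n (nat_lit 395) (nat_lit 1) (.n (nat_lit 397) (nat_lit 7) (.p (nat_lit 398) (nat_lit 8) (.n (nat_lit 399) (nat_lit 12) (.n (nat_lit 400) (nat_lit 10) (.n (nat_lit 401) (nat_lit 5) (.n (nat_lit 402) (nat_lit 9) (.p (nat_lit 403) (nat_lit 3) (.n (nat_lit 404) (nat_lit 5) (.n (nat_lit 405) (nat_lit 22) (.p (nat_lit 406) (nat_lit 1) (.n (nat_lit 407) (nat_lit 13) (.p (nat_lit 408) (nat_lit 13) (.n (nat_lit 409) (nat_lit 27) (.p (nat_lit 410) (nat_lit 14) (.p (nat_lit 411) (nat_lit 11) (.p (nat_lit 413) (nat_lit 17) (.n (nat_lit 414) (nat_lit 23) (.n (nat_lit 415) (nat_lit 7) (.p (nat_lit 416) (nat_lit 2) (.n (nat_lit 417) (nat_lit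 21) (.p (nat_lit 418) (nat_lit 7) (.n (nat_lit 419) (nat_lit 2) (.n (nat_lit 420) (nat_lit 32) (.n (nat_lit 421) (nat_lit 9) (.n (nat_lit 422) (nat_lit 21) (.p (nat_lit 423) (nat_lit 6) (.p (nat_lit 424) (nat_lit 10) (.p (nat_lit 425) (nat_lit 25) (.p (nat_lit 426) (nat_lit 1) (.n (nat_lit 427) (nat_lit 12) (.p (nat_lit 428) (nat_lit 23) (.p (nat_lit 429) (nat_lit 5) (.p (nat_lit 430) (nat_lit 15) (.p (nat_lit 431) (nat_lit 14) (.p (nat_lit 432) (nat_lit 17) (.p (nat_lit 433) (nat_lit 25) (.p (nat_lit 434) (nat_lit 3) .z))))))))))))))))))))))))))))))))))))))))))))))))))))) .nil)))))))))))))))))))))))))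

noncomputable def dC1d_i239 : IL := (.a true (nat_lit 1) (nat_lit 33) (nat_lit 36) (nat_lit 0) (nat_lit 0) (.a true (nat_lit 1) (nat_lit 35) (nat_lit 36) (nat_lit 0) (nat_lit 0) (.a false (nat_lit 1) (nat_lit 31) (nat_lit 31) (nat_lit 0) (nat_lit 0) (.a false (nat_lit 1) (nat_lit 31) (nat_lit 32) (nat_lit 0) (nat_lit 0) (.a true (nat_lit 1) (nat_lit 31) (nat_lit 33) (nat_lit 0) (nat_lit 0) (.a true (nat_lit 1) (nat_lit 31) (nat_lit 34) (nat_lit 0) (nat_lit 0) (.a true (nat_lit 1) (nat_lit 31) (nat_lit 35) (nat_lit 0) (nat_lit 0) (.a false (nat_lit 3) (nat_lit 32) (nat_lit 35) (nat_lit 0) (nat_lit 0) (.a false (nat_lit 2) (nat_lit 33) (nat_lit 33) (nat_lit 0) (nat_lit 0) (.a false (nat_lit 2) (nat_lit 33) (nat_lit 34) (nat_lit 0) (nat_lit 0) (.a true (nat_lit 3) (nat_lit 33) (nat_lit 35) (nat_lit 0) (nat_lit 0) (.e false (nat_lit 3) (nat_lit 219) (nat_lit 2) (nat_lit 17) (.e true (nat_lit 3) (nat_lit 307) (nat_lit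 0) (nat_lit 19) (.e false (nat_lit 2) (nat_lit 143) (nat_lit 5) (nat_lit 14) (.e true (nat_lit 3) (nat_lit 261) (nat_lit 1) (nat_lit 18) (.e true (nat_lit 1) (nat_lit 262) (nat_lit 1) (nat_lit 18) (.e true (nat_lit 3) (nat_lit 267) (nat_lit 1) (nat_lit 18) (.e false (nat_lit 2) (nat_lit 269) (nat_lit 1) (nat_lit 18) (.e true (nat_lit 1) (nat_lit 271) (nat_lit 1) (nat_lit 18) (.e false (nat_lit 3) (nat_lit 273) (nat_lit 1) (nat_lit 18) (.e true (nat_lit 2) (nat_lit 260) (nat_lit 1) (nat_lit 18) (.e true (nat_lit 1) (nat_lit 274) (nat_lit 1) (nat_lit 18) (.e false (nat_lit 1) (nat_lit 270) (nat_lit 1) (nat_lit 18) (.e false (nat_lit 3) (nat_lit 265) (nat_lit 1) (nat_lit 18) (.e false (nat_lit 3) (nat_lit 263) (nat_lit 1) (nat_lit 18) dC1d_i238)))))))))))))))))))))))))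

noncomputable def dC1d_i240 : IL := (.s true (nat_lit 1) (nat_lit 96) (nat_lit 0) (nat_lit 2) (nat_lit 0) false (nat_lit 20) true (nat_lit 19) false (nat_lit 10) true (nat_lit 19) true (nat_lit 17) (.s true (nat_lit 3) (nat_lit 97) (nat_lit 0) (nat_lit 2) (nat_lit 0) false (nat_lit 20) true (nat_lit 19) false (nat_lit 10) true (nat_lit 19) true (nat_lit 17) (.s true (nat_lit 2) (nat_lit 98) (nat_lit 1) (nat_lit 0) (nat_lit 1) false (nat_lit 21) true (nat_lit 18) false (nat_lit 11) true (nat_lit 18) true (nat_lit 19) (.s false (nat_lit 3) (nat_lit 99) (nat_lit 1) (nat_lit 0) (nat_lit 1) false (nat_lit 21) true (nat_lit 18) false (nat_lit 11) true (nat_lit 18) true (nat_lit 19) (.s true (nat_lit 2) (nat_lit 100) (nat_lit 1) (nat_lit 0) (nat_lit 1) false (nat_lit 21) true (nat_lit 18) false (nat_lit 11) true (nat_lit 18) true (nat_lit 19) (.s false (nat_lit 3) (nat_lit 101) (nat_lit 1) (nat_lit 0) (nat_lit 1) false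 (nat_lit 21) true (nat_lit 18) false (nat_lit 11) true (nat_lit 18) true (nat_lit 19) (.s true (nat_lit 1) (nat_lit 98) (nat_lit 1) (nat_lit 1) (nat_lit 0) true (nat_lit 16) true (nat_lit 19) false (nat_lit 11) true (nat_lit 18) true (nat_lit 18) (.s false (nat_lit 1) (nat_lit 99) (nat_lit 1) (nat_lit 1) (nat_lit 0) true (nat_lit 16) true (nat_lit 19) false (nat_lit 11) true (nat_lit 18) true (nat_lit 18) (.s true (nat_lit 1) (nat_lit 100) (nat_lit 1) (nat_lit 1) (nat_lit 0) true (nat_lit 16) true (nat_lit 19) false (nat_lit 11) true (nat_lit 18) true (nat_lit 18) (.s false (nat_lit 1) (nat_lit 102) (nat_lit 0) (nat_lit 0) (nat_lit 1) true (nat_lit 16) true (nat_lit 18) false (nat_lit 12) true (nat_lit 19) true (nat_lit 19) (.s true (nat_lit 2) (nat_lit 104) (nat_lit 0) (nat_lit 0) (nat_lit 1) true (nat_lit 16) true (nat_lit 18) false (nat_lit 12) true (nat_lit 19) true (nat_lit 19) (.s false (nat_lit 1) (nat_lit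 105) (nat_lit 0) (nat_lit 0) (nat_lit 1) true (nat_lit 16) true (nat_lit 18) false (nat_lit 12) true (nat_lit 19) true (nat_lit 19) (.s true (nat_lit 2) (nat_lit 102) (nat_lit 0) (nat_lit 1) (nat_lit 0) false (nat_lit 20) true (nat_lit 19) false (nat_lit 12) true (nat_lit 19) true (nat_lit 18) (.s false (nat_lit 2) (nat_lit 103) (nat_lit 0) (nat_lit 1) (nat_lit 0) false (nat_lit 20) true (nat_lit 19) false (nat_lit 12) true (nat_lit 19) true (nat_lit 18) (.s true (nat_lit 1) (nat_lit 104) (nat_lit 0) (nat_lit 1) (nat_lit 0) false (nat_lit 20) true (nat_lit 19) false (nat_lit 12) true (nat_lit 19) true (nat_lit 18) (.s true (nat_lit 3) (nat_lit 105) (nat_lit 0) (nat_lit 1) (nat_lit 0) false (nat_lit 20) true (nat_lit 19) false (nat_lit 12) true (nat_lit 19) true (nat_lit 18) (.a false (nat_lit 1) (nat_lit 32) (nat_lit 32) (nat_lit 0) (nat_lit 0) (.a true (nat_lit 3) (nat_lit 32) (nat_lit 33) (nat_lit 0) (nat_lit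 0) (.a true (nat_lit 3) (nat_lit 32) (nat_lit 34) (nat_lit 0) (nat_lit 0) (.a false (nat_lit 2) (nat_lit 32) (nat_lit 36) (nat_lit 0) (nat_lit 0) (.a true (nat_lit 1) (nat_lit 34) (nat_lit 34) (nat_lit 0) (nat_lit 0) (.a true (nat_lit 1) (nat_lit 35) (nat_lit 35) (nat_lit 0) (nat_lit 0) (.a true (nat_lit 3) (nat_lit 34) (nat_lit 36) (nat_lit 0) (nat_lit 0) (.a true (nat_lit 2) (nat_lit 36) (nat_lit 36) (nat_lit 0) (nat_lit 0) (.a false (nat_lit 2) (nat_lit 31) (nat_lit 36) (nat_lit 0) (nat_lit 0) dC1d_i239)))))))))))))))))))))))))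

noncomputable def dC1d_i241 : IL := (.s false (nat_lit 1) (nat_lit 83) (nat_lit 0) (nat_lit 1) (nat_lit 2) true (nat_lit 15) true (nat_lit 17) false (nat_lit 9) true (nat_lit 19) true (nat_lit 18) (.s false (nat_lit 2) (nat_lit 82) (nat_lit 0) (nat_lit 2) (nat_lit 1) true (nat_lit 16) true (nat_lit 18) false (nat_lit 9) true (nat_lit 19) true (nat_lit 17) (.s true (nat_lit 2) (nat_lit 83) (nat_lit 0) (nat_lit 2) (nat_lit 1) true (nat_lit 16) true (nat_lit 18) false (nat_lit 9) true (nat_lit 19) true (nat_lit 17) (.s true (nat_lit 2) (nat_lit 84) (nat_lit 0) (nat_lit 2) (nat_lit 1) true (nat_lit 16) true (nat_lit 18) false (nat_lit 9) true (nat_lit 19) true (nat_lit 17) (.s false (nat_lit 1) (nat_lit 85) (nat_lit 0) (nat_lit 2) (nat_lit 1) true (nat_lit 16) true (nat_lit 18) false (nat_lit 9) true (nat_lit 19) true (nat_lit 17) (.s true (nat_lit 2) (nat_lit 87) (nat_lit 0) (nat_lit 2) (nat_lit 1) true (nat_lit 16)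 true (nat_lit 18) false (nat_lit 9) true (nat_lit 19) true (nat_lit 17) (.s false (nat_lit 3) (nat_lit 88) (nat_lit 0) (nat_lit 2) (nat_lit 1) true (nat_lit 16) true (nat_lit 18) false (nat_lit 9) true (nat_lit 19) true (nat_lit 17) (.s true (nat_lit 1) (nat_lit 90) (nat_lit 0) (nat_lit 2) (nat_lit 1) true (nat_lit 16) true (nat_lit 18) false (nat_lit 9) true (nat_lit 19) true (nat_lit 17) (.s true (nat_lit 1) (nat_lit 91) (nat_lit 0) (nat_lit 2) (nat_lit 1) true (nat_lit 16) true (nat_lit 18) false (nat_lit 9) true (nat_lit 19) true (nat_lit 17) (.s true (nat_lit 1) (nat_lit 82) (nat_lit 1) (nat_lit 0) (nat_lit 2) true (nat_lit 14) true (nat_lit 17) false (nat_lit 9) true (nat_lit 18) true (nat_lit 19) (.s true (nat_lit 1) (nat_lit 82) (nat_lit 1) (nat_lit 2) (nat_lit 0) true (nat_lit 16) true (nat_lit 19) false (nat_lit 9) true (nat_lit 18) true (nat_lit 17) (.s true (nat_lit 1) (nat_lit 83) (nat_lit 1) (nat_lit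 2) (nat_lit 0) true (nat_lit 16) true (nat_lit 19) false (nat_lit 9) true (nat_lit 18) true (nat_lit 17) (.s true (nat_lit 2) (nat_lit 84) (nat_lit 1) (nat_lit 2) (nat_lit 0) true (nat_lit 16) true (nat_lit 19) false (nat_lit 9) true (nat_lit 18) true (nat_lit 17) (.s false (nat_lit 3) (nat_lit 85) (nat_lit 1) (nat_lit 2) (nat_lit 0) true (nat_lit 16) true (nat_lit 19) false (nat_lit 9) true (nat_lit 18) true (nat_lit 17) (.s false (nat_lit 3) (nat_lit 86) (nat_lit 1) (nat_lit 2) (nat_lit 0) true (nat_lit 16) true (nat_lit 19) false (nat_lit 9) true (nat_lit 18) true (nat_lit 17) (.s true (nat_lit 2) (nat_lit 88) (nat_lit 1) (nat_lit 2) (nat_lit 0) true (nat_lit 16) true (nat_lit 19) false (nat_lit 9) true (nat_lit 18) true (nat_lit 17) (.s true (nat_lit 3) (nat_lit 89) (nat_lit 1) (nat_lit 2) (nat_lit 0) true (nat_lit 16) true (nat_lit 19) false (nat_lit 9) true (nat_lit 18) true (nat_lit 17) (.s false (nat_lit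 1) (nat_lit 90) (nat_lit 1) (nat_lit 2) (nat_lit 0) true (nat_lit 16) true (nat_lit 19) false (nat_lit 9) true (nat_lit 18) true (nat_lit 17) (.s false (nat_lit 3) (nat_lit 82) (nat_lit 2) (nat_lit 1) (nat_lit 0) true (nat_lit 15) true (nat_lit 19) false (nat_lit 9) true (nat_lit 17) true (nat_lit 18) (.s false (nat_lit 2) (nat_lit 83) (nat_lit 2) (nat_lit 1) (nat_lit 0) true (nat_lit 15) true (nat_lit 19) false (nat_lit 9) true (nat_lit 17) true (nat_lit 18) (.s true (nat_lit 2) (nat_lit 90) (nat_lit 2) (nat_lit 1) (nat_lit 0) true (nat_lit 15) true (nat_lit 19) false (nat_lit 9) true (nat_lit 17) true (nat_lit 18) (.s true (nat_lit 1) (nat_lit 91) (nat_lit 2) (nat_lit 1) (nat_lit 0) true (nat_lit 15) true (nat_lit 19) false (nat_lit 9) true (nat_lit 17) true (nat_lit 18) (.s false (nat_lit 3) (nat_lit 93) (nat_lit 0) (nat_lit 2) (nat_lit 0) false (nat_lit 20) true (nat_lit 19) false (nat_lit 10) true (nat_lit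 19) true (nat_lit 17) (.s false (nat_lit 3) (nat_lit 94) (nat_lit 0) (nat_lit 2) (nat_lit 0) false (nat_lit 20) true (nat_lit 19) false (nat_lit 10) true (nat_lit 19) true (nat_lit 17) (.s true (nat_lit 2) (nat_lit 95) (nat_lit 0) (nat_lit 2) (nat_lit 0) false (nat_lit 20) true (nat_lit 19) false (nat_lit 10) true (nat_lit 19) true (nat_lit 17) dC1d_i240)))))))))))))))))))))))))

noncomputable def dC1d_i242 : IL := (.s true (nat_lit 2) (nat_lit 59) (nat_lit 2) (nat_lit 2) (nat_lit 1) true (nat_lit 14) true (nat_lit 18) false (nat_lit 6) true (nat_lit 17) true (nat_lit 17) (.s false (nat_lit 2) (nat_lit 61) (nat_lit 2) (nat_lit 2) (nat_lit 1) true (nat_lit 14) true (nat_lit 18) false (nat_lit 6) true (nat_lit 17) true (nat_lit 17) (.s true (nat_lit 1) (nat_lit 62) (nat_lit 2) (nat_lit 2) (nat_lit 1) true (nat_lit 14) true (nat_lit 18) false (nat_lit 6) true (nat_lit 17) true (nat_lit 17) (.s true (nat_lit 2) (nat_lit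 63) (nat_lit 2) (nat_lit 2) (nat_lit 1) true (nat_lit 14) true (nat_lit 18) false (nat_lit 6) true (nat_lit 17) true (nat_lit 17) (.s false (nat_lit 1) (nat_lit 64) (nat_lit 2) (nat_lit 2) (nat_lit 1) true (nat_lit 14) true (nat_lit 18) false (nat_lit 6) true (nat_lit 17) true (nat_lit 17) (.s false (nat_lit 2) (nat_lit 66) (nat_lit 0) (nat_lit 2) (nat_lit 2) true (nat_lit 15) true (nat_lit 17) false (nat_lit 7) true (nat_lit 19) true (nat_lit 17) (.s true (nat_lit 1) (nat_lit 67) (nat_lit 0) (nat_lit 2) (nat_lit 2) true (nat_lit 15) true (nat_lit 17) false (nat_lit 7) true (nat_lit 19) true (nat_lit 17) (.s true (nat_lit 2) (nat_lit 70) (nat_lit 0) (nat_lit 2) (nat_lit 2) true (nat_lit 15) true (nat_lit 17) false (nat_lit 7) true (nat_lit 19) true (nat_lit 17) (.s false (nat_lit 3) (nat_lit 72) (nat_lit 0) (nat_lit 2) (nat_lit 2) true (nat_lit 15) true (nat_lit 17) false (nat_lit 7) true (nat_lit 19) true (nat_lit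 17) (.s false (nat_lit 3) (nat_lit 74) (nat_lit 0) (nat_lit 2) (nat_lit 2) true (nat_lit 15) true (nat_lit 17) false (nat_lit 7) true (nat_lit 19) true (nat_lit 17) (.s false (nat_lit 3) (nat_lit 76) (nat_lit 0) (nat_lit 2) (nat_lit 2) true (nat_lit 15) true (nat_lit 17) false (nat_lit 7) true (nat_lit 19) true (nat_lit 17) (.s false (nat_lit 2) (nat_lit 66) (nat_lit 2) (nat_lit 0) (nat_lit 2) true (nat_lit 13) true (nat_lit 17) false (nat_lit 7) true (nat_lit 17) true (nat_lit 19) (.s false (nat_lit 3) (nat_lit 74) (nat_lit 2) (nat_lit 0) (nat_lit 2) true (nat_lit 13) true (nat_lit 17) false (nat_lit 7) true (nat_lit 17) true (nat_lit 19) (.s false (nat_lit 3) (nat_lit 66) (nat_lit 2) (nat_lit 2) (nat_lit 0) true (nat_lit 15) true (nat_lit 19) false (nat_lit 7) true (nat_lit 17) true (nat_lit 17) (.s false (nat_lit 1) (nat_lit 67) (nat_lit 2) (nat_lit 2) (nat_lit 0) true (nat_lit 15) true (nat_lit 19) false (nat_lit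 7) true (nat_lit 17) true (nat_lit 17) (.s true (nat_lit 3) (nat_lit 68) (nat_lit 2) (nat_lit 2) (nat_lit 0) true (nat_lit 15) true (nat_lit 19) false (nat_lit 7) true (nat_lit 17) true (nat_lit 17) (.s false (nat_lit 3) (nat_lit 69) (nat_lit 2) (nat_lit 2) (nat_lit 0) true (nat_lit 15) true (nat_lit 19) false (nat_lit 7) true (nat_lit 17) true (nat_lit 17) (.s true (nat_lit 2) (nat_lit 72) (nat_lit 2) (nat_lit 2) (nat_lit 0) true (nat_lit 15) true (nat_lit 19) false (nat_lit 7) true (nat_lit 17) true (nat_lit 17) (.s true (nat_lit 1) (nat_lit 74) (nat_lit 2) (nat_lit 2) (nat_lit 0) true (nat_lit 15) true (nat_lit 19) false (nat_lit 7) true (nat_lit 17) true (nat_lit 17) (.s true (nat_lit 1) (nat_lit 76) (nat_lit 2) (nat_lit 2) (nat_lit 0) true (nat_lit 15) true (nat_lit 19) false (nat_lit 7) true (nat_lit 17) true (nat_lit 17) (.s true (nat_lit 3) (nat_lit 77) (nat_lit 1) (nat_lit 1) (nat_lit 2) true (nat_lit 14)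 true (nat_lit 17) false (nat_lit 8) true (nat_lit 18) true (nat_lit 18) (.s true (nat_lit 3) (nat_lit 78) (nat_lit 1) (nat_lit 1) (nat_lit 2) true (nat_lit 14) true (nat_lit 17) false (nat_lit 8) true (nat_lit 18) true (nat_lit 18) (.s false (nat_lit 3) (nat_lit 80) (nat_lit 1) (nat_lit 1) (nat_lit 2) true (nat_lit 14) true (nat_lit 17) false (nat_lit 8) true (nat_lit 18) true (nat_lit 18) (.s false (nat_lit 2) (nat_lit 79) (nat_lit 2) (nat_lit 1) (nat_lit 1) true (nat_lit 14) true (nat_lit 18) false (nat_lit 8) true (nat_lit 17) true (nat_lit 18) (.s true (nat_lit 1) (nat_lit 82) (nat_lit 0) (nat_lit 1) (nat_lit 2) true (nat_lit 15) true (nat_lit 17) false (nat_lit 9) true (nat_lit 19) true (nat_lit 18) dC1d_i241)))))))))))))))))))))))))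

noncomputable def dC1d_i243 : IL := (.s false (nat_lit 3) (nat_lit 46) (nat_lit 0) (nat_lit 3) (nat_lit 1) true (nat_lit 16) true (nat_lit 18) false (nat_lit 4) true (nat_lit 19) true (nat_lit 16) (.s true (nat_lit 1) (nat_lit 46) (nat_lit 1) (nat_lit 3) (nat_lit 0) true (nat_lit 16) true (nat_lit 19) false (nat_lit 4) true (nat_lit 18) true (nat_lit 16) (.s true (nat_lit 2) (nat_lit 46) (nat_lit 3) (nat_lit 1) (nat_lit 0) true (nat_lit 12) true (nat_lit 19) false (nat_lit 4) true (nat_lit 16) true (nat_lit 18) (.s false (nat_lit 2) (nat_lit 48) (nat_lit 2) (nat_lit 2) (nat_lit 2) true (nat_lit 13) true (nat_lit 17) false (nat_lit 5) true (nat_lit 17) true (nat_lit 17) (.s false (nat_lit 1) (nat_lit 49) (nat_lit 2) (nat_lit 2) (nat_lit 2) true (nat_lit 13) true (nat_lit 17) false (nat_lit 5) true (nat_lit 17) true (nat_lit 17) (.s false (nat_lit 1) (nat_lit 50) (nat_lit 2) (nat_lit 2) (nat_lit 2) true (nat_lit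 13) true (nat_lit 17) false (nat_lit 5) true (nat_lit 17) true (nat_lit 17) (.s false (nat_lit 1) (nat_lit 55) (nat_lit 1) (nat_lit 2) (nat_lit 2) true (nat_lit 14) true (nat_lit 17) false (nat_lit 6) true (nat_lit 18) true (nat_lit 17) (.s false (nat_lit 2) (nat_lit 56) (nat_lit 1) (nat_lit 2) (nat_lit 2) true (nat_lit 14) true (nat_lit 17) false (nat_lit 6) true (nat_lit 18) true (nat_lit 17) (.s true (nat_lit 2) (nat_lit 57) (nat_lit 1) (nat_lit 2) (nat_lit 2) true (nat_lit 14) true (nat_lit 17) false (nat_lit 6) true (nat_lit 18) true (nat_lit 17) (.s true (nat_lit 2) (nat_lit 58) (nat_lit 1) (nat_lit 2) (nat_lit 2) true (nat_lit 14) true (nat_lit 17) false (nat_lit 6) true (nat_lit 18) true (nat_lit 17) (.s true (nat_lit 1) (nat_lit 60) (nat_lit 1) (nat_lit 2) (nat_lit 2) true (nat_lit 14) true (nat_lit 17) false (nat_lit 6) true (nat_lit 18) true (nat_lit 17) (.s false (nat_lit 2) (nat_lit 61) (nat_lit 1)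 (nat_lit 2) (nat_lit 2) true (nat_lit 14) true (nat_lit 17) false (nat_lit 6) true (nat_lit 18) true (nat_lit 17) (.s true (nat_lit 1) (nat_lit 64) (nat_lit 1) (nat_lit 2) (nat_lit 2) true (nat_lit 14) true (nat_lit 17) false (nat_lit 6) true (nat_lit 18) true (nat_lit 17) (.s true (nat_lit 2) (nat_lit 55) (nat_lit 2) (nat_lit 1) (nat_lit 2) true (nat_lit 13) true (nat_lit 17) false (nat_lit 6) true (nat_lit 17) true (nat_lit 18) (.s true (nat_lit 1) (nat_lit 57) (nat_lit 2) (nat_lit 1) (nat_lit 2) true (nat_lit 13) true (nat_lit 17) false (nat_lit 6) true (nat_lit 17) true (nat_lit 18) (.s true (nat_lit 2) (nat_lit 58) (nat_lit 2) (nat_lit 1) (nat_lit 2) true (nat_lit 13) true (nat_lit 17) false (nat_lit 6) true (nat_lit 17) true (nat_lit 18) (.s false (nat_lit 1) (nat_lit 59) (nat_lit 2) (nat_lit 1) (nat_lit 2) true (nat_lit 13) true (nat_lit 17) false (nat_lit 6) true (nat_lit 17) true (nat_lit 18) (.s false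 (nat_lit 1) (nat_lit 60) (nat_lit 2) (nat_lit 1) (nat_lit 2) true (nat_lit 13) true (nat_lit 17) false (nat_lit 6) true (nat_lit 17) true (nat_lit 18) (.s true (nat_lit 2) (nat_lit 61) (nat_lit 2) (nat_lit 1) (nat_lit 2) true (nat_lit 13) true (nat_lit 17) false (nat_lit 6) true (nat_lit 17) true (nat_lit 18) (.s true (nat_lit 1) (nat_lit 62) (nat_lit 2) (nat_lit 1) (nat_lit 2) true (nat_lit 13) true (nat_lit 17) false (nat_lit 6) true (nat_lit 17) true (nat_lit 18) (.s true (nat_lit 2) (nat_lit 64) (nat_lit 2) (nat_lit 1) (nat_lit 2) true (nat_lit 13) true (nat_lit 17) false (nat_lit 6) true (nat_lit 17) true (nat_lit 18) (.s true (nat_lit 3) (nat_lit 65) (nat_lit 2) (nat_lit 1) (nat_lit 2) true (nat_lit 13) true (nat_lit 17) false (nat_lit 6) true (nat_lit 17) true (nat_lit 18) (.s false (nat_lit 3) (nat_lit 55) (nat_lit 2) (nat_lit 2) (nat_lit 1) true (nat_lit 14) true (nat_lit 18) false (nat_lit 6) true (nat_lit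 17) true (nat_lit 17) (.s true (nat_lit 2) (nat_lit 57) (nat_lit 2) (nat_lit 2) (nat_lit 1) true (nat_lit 14) true (nat_lit 18) false (nat_lit 6) true (nat_lit 17) true (nat_lit 17) (.s true (nat_lit 1) (nat_lit 58) (nat_lit 2) (nat_lit 2) (nat_lit 1) true (nat_lit 14) true (nat_lit 18) false (nat_lit 6) true (nat_lit 17) true (nat_lit 17) dC1d_i242)))))))))))))))))))))))))

noncomputable def dC1d_i244 : IL := (.s false (nat_lit 1) (nat_lit 36) (nat_lit 1) (nat_lit 6) (nat_lit 0) true (nat_lit 16) true (nat_lit 19) true (nat_lit 0) true (nat_lit 18) true (nat_lit 13) (.s false (nat_lit 1) (nat_lit 31) (nat_lit 2) (nat_lit 0) (nat_lit 5) true (nat_lit 6) true (nat_lit 14) true (nat_lit 0) true (nat_lit 17) true (nat_lit 19) (.s true (nat_lit 2) (nat_lit 31) (nat_lit 2) (nat_lit 1) (nat_lit 4) true (nat_lit 7) true (nat_lit 15) true (nat_lit 0) true (nat_lit 17) true (nat_lit 18) (.s false (nat_lit 1) (nat_lit 32)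 (nat_lit 2) (nat_lit 2) (nat_lit 3) true (nat_lit 9) true (nat_lit 16) true (nat_lit 0) true (nat_lit 17) true (nat_lit 17) (.s true (nat_lit 2) (nat_lit 32) (nat_lit 4) (nat_lit 2) (nat_lit 1) true (nat_lit 9) true (nat_lit 18) true (nat_lit 0) true (nat_lit 15) true (nat_lit 17) (.s false (nat_lit 1) (nat_lit 37) (nat_lit 0) (nat_lit 2) (nat_lit 4) true (nat_lit 10) true (nat_lit 15) false (nat_lit 1) true (nat_lit 19) true (nat_lit 17) (.s false (nat_lit 1) (nat_lit 38) (nat_lit 0) (nat_lit 2) (nat_lit 4) true (nat_lit 10) true (nat_lit 15) false (nat_lit 1) true (nat_lit 19) true (nat_lit 17) (.s true (nat_lit 1) (nat_lit 37) (nat_lit 6) (nat_lit 0) (nat_lit 0) true (nat_lit 7) true (nat_lit 19) false (nat_lit 1) true (nat_lit 13) true (nat_lit 19) (.s true (nat_lit 1) (nat_lit 38) (nat_lit 6) (nat_lit 0) (nat_lit 0) true (nat_lit 7) true (nat_lit 19) false (nat_lit 1) true (nat_lit 13) true (nat_lit 19) (.s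 true (nat_lit 3) (nat_lit 39) (nat_lit 6) (nat_lit 0) (nat_lit 0) true (nat_lit 7) true (nat_lit 19) false (nat_lit 1) true (nat_lit 13) true (nat_lit 19) (.s true (nat_lit 3) (nat_lit 40) (nat_lit 0) (nat_lit 1) (nat_lit 5) true (nat_lit 9) true (nat_lit 14) false (nat_lit 2) true (nat_lit 19) true (nat_lit 18) (.s true (nat_lit 3) (nat_lit 40) (nat_lit 1) (nat_lit 2) (nat_lit 3) true (nat_lit 11) true (nat_lit 16) false (nat_lit 2) true (nat_lit 18) true (nat_lit 17) (.s false (nat_lit 1) (nat_lit 42) (nat_lit 1) (nat_lit 5) (nat_lit 0) true (nat_lit 16) true (nat_lit 19) false (nat_lit 2) true (nat_lit 18) true (nat_lit 14) (.s false (nat_lit 3) (nat_lit 42) (nat_lit 3) (nat_lit 1) (nat_lit 2) true (nat_lit 9) true (nat_lit 17) false (nat_lit 2) true (nat_lit 16) true (nat_lit 18) (.s false (nat_lit 1) (nat_lit 40) (nat_lit 4) (nat_lit 1) (nat_lit 1) true (nat_lit 9) true (nat_lit 18) false (nat_lit 2) true (nat_lit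 15) true (nat_lit 18) (.s false (nat_lit 1) (nat_lit 41) (nat_lit 4) (nat_lit 1) (nat_lit 1) true (nat_lit 9) true (nat_lit 18) false (nat_lit 2) true (nat_lit 15) true (nat_lit 18) (.s true (nat_lit 3) (nat_lit 42) (nat_lit 5) (nat_lit 1) (nat_lit 0) true (nat_lit 9) true (nat_lit 19) false (nat_lit 2) true (nat_lit 14) true (nat_lit 18) (.s false (nat_lit 3) (nat_lit 45) (nat_lit 2) (nat_lit 0) (nat_lit 3) true (nat_lit 9) true (nat_lit 16) false (nat_lit 3) true (nat_lit 17) true (nat_lit 19) (.s false (nat_lit 3) (nat_lit 44) (nat_lit 2) (nat_lit 3) (nat_lit 0) true (nat_lit 15) true (nat_lit 19) false (nat_lit 3) true (nat_lit 17) true (nat_lit 16) (.s false (nat_lit 2) (nat_lit 45) (nat_lit 3) (nat_lit 0) (nat_lit 2) true (nat_lit 9) true (nat_lit 17) false (nat_lit 3) true (nat_lit 16) true (nat_lit 19) (.s true (nat_lit 1) (nat_lit 44) (nat_lit 3) (nat_lit 2) (nat_lit 0) true (nat_lit 12) true (nat_lit 19)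 false (nat_lit 3) true (nat_lit 16) true (nat_lit 17) (.s true (nat_lit 3) (nat_lit 45) (nat_lit 4) (nat_lit 0) (nat_lit 1) true (nat_lit 9) true (nat_lit 18) false (nat_lit 3) true (nat_lit 15) true (nat_lit 19) (.s true (nat_lit 2) (nat_lit 45) (nat_lit 4) (nat_lit 1) (nat_lit 0) true (nat_lit 10) true (nat_lit 19) false (nat_lit 3) true (nat_lit 15) true (nat_lit 18) (.s true (nat_lit 2) (nat_lit 44) (nat_lit 5) (nat_lit 0) (nat_lit 0) true (nat_lit 9) true (nat_lit 19) false (nat_lit 3) true (nat_lit 14) true (nat_lit 19) (.s false (nat_lit 2) (nat_lit 45) (nat_lit 5) (nat_lit 0) (nat_lit 0) true (nat_lit 9) true (nat_lit 19) false (nat_lit 3) true (nat_lit 14) true (nat_lit 19) dC1d_i243)))))))))))))))))))))))))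

noncomputable def dC1d_i245 : IL := (.s true (nat_lit 2) (nat_lit 20) (nat_lit 5) (nat_lit 2) (nat_lit 2) true (nat_lit 6) true (nat_lit 17) true (nat_lit 3) true (nat_lit 14) true (nat_lit 17) (.s false (nat_lit 2) (nat_lit 24) (nat_lit 0) (nat_lit 2) (nat_lit 6) true (nat_lit 7) true (nat_lit 13) true (nat_lit 2) true (nat_lit 19) true (nat_lit 17) (.s false (nat_lit 3) (nat_lit 25) (nat_lit 0) (nat_lit 2) (nat_lit 6) true (nat_lit 7) true (nat_lit 13) true (nat_lit 2) true (nat_lit 19) true (nat_lit 17) (.s false (nat_lit 3) (nat_lit 27) (nat_lit 0) (nat_lit 2) (nat_lit 6) true (nat_lit 7) true (nat_lit 13) true (nat_lit 2) true (nat_lit 19) true (nat_lit 17) (.s true (nat_lit 1) (nat_lit 24) (nat_lit 0) (nat_lit 6) (nat_lit 2) true (nat_lit 15) true (nat_lit 17) true (nat_lit 2) true (nat_lit 19) true (nat_lit 13) (.s false (nat_lit 1) (nat_lit 24) (nat_lit 2) (nat_lit 2) (nat_lit 4) true (nat_lit 7) true (nat_lit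 15) true (nat_lit 2) true (nat_lit 17) true (nat_lit 17) (.s false (nat_lit 1) (nat_lit 25) (nat_lit 2) (nat_lit 2) (nat_lit 4) true (nat_lit 7) true (nat_lit 15) true (nat_lit 2) true (nat_lit 17) true (nat_lit 17) (.s true (nat_lit 1) (nat_lit 26) (nat_lit 6) (nat_lit 0) (nat_lit 2) true (nat_lit 5) true (nat_lit 17) true (nat_lit 2) true (nat_lit 13) true (nat_lit 19) (.s true (nat_lit 1) (nat_lit 29) (nat_lit 1) (nat_lit 1) (nat_lit 6) true (nat_lit 6) true (nat_lit 13) true (nat_lit 1) true (nat_lit 18) true (nat_lit 18) (.s true (nat_lit 1) (nat_lit 30) (nat_lit 1) (nat_lit 1) (nat_lit 6) true (nat_lit 6) true (nat_lit 13) true (nat_lit 1) true (nat_lit 18) true (nat_lit 18) (.s false (nat_lit 1) (nat_lit 29) (nat_lit 1) (nat_lit 2) (nat_lit 5) true (nat_lit 8) true (nat_lit 14) true (nat_lit 1) true (nat_lit 18) true (nat_lit 17) (.s true (nat_lit 2) (nat_lit 30) (nat_lit 1) (nat_lit 2) (nat_lit 5) true (nat_lit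 8) true (nat_lit 14) true (nat_lit 1) true (nat_lit 18) true (nat_lit 17) (.s false (nat_lit 1) (nat_lit 28) (nat_lit 1) (nat_lit 5) (nat_lit 2) true (nat_lit 14) true (nat_lit 17) true (nat_lit 1) true (nat_lit 18) true (nat_lit 14) (.s true (nat_lit 2) (nat_lit 30) (nat_lit 1) (nat_lit 6) (nat_lit 1) false (nat_lit 21) true (nat_lit 18) true (nat_lit 1) true (nat_lit 18) true (nat_lit 13) (.s false (nat_lit 2) (nat_lit 28) (nat_lit 2) (nat_lit 1) (nat_lit 5) true (nat_lit 6) true (nat_lit 14) true (nat_lit 1) true (nat_lit 17) true (nat_lit 18) (.s true (nat_lit 2) (nat_lit 28) (nat_lit 2) (nat_lit 5) (nat_lit 1) true (nat_lit 14) true (nat_lit 18) true (nat_lit 1) true (nat_lit 17) true (nat_lit 14) (.s false (nat_lit 3) (nat_lit 28) (nat_lit 5) (nat_lit 2) (nat_lit 1) true (nat_lit 8) true (nat_lit 18) true (nat_lit 1) true (nat_lit 14) true (nat_lit 17) (.s false (nat_lit 1) (nat_lit 29) (nat_lit 6) (nat_lit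 1) (nat_lit 1) true (nat_lit 6) true (nat_lit 18) true (nat_lit 1) true (nat_lit 13) true (nat_lit 18) (.s true (nat_lit 2) (nat_lit 34) (nat_lit 0) (nat_lit 1) (nat_lit 6) true (nat_lit 7) true (nat_lit 13) true (nat_lit 0) true (nat_lit 19) true (nat_lit 18) (.s false (nat_lit 1) (nat_lit 31) (nat_lit 0) (nat_lit 2) (nat_lit 5) true (nat_lit 9) true (nat_lit 14) true (nat_lit 0) true (nat_lit 19) true (nat_lit 17) (.s false (nat_lit 1) (nat_lit 32) (nat_lit 0) (nat_lit 2) (nat_lit 5) true (nat_lit 9) true (nat_lit 14) true (nat_lit 0) true (nat_lit 19) true (nat_lit 17) (.s true (nat_lit 3) (nat_lit 34) (nat_lit 0) (nat_lit 6) (nat_lit 1) true (nat_lit 16) true (nat_lit 18) true (nat_lit 0) true (nat_lit 19) true (nat_lit 13) (.s true (nat_lit 3) (nat_lit 35) (nat_lit 0) (nat_lit 6) (nat_lit 1) true (nat_lit 16) true (nat_lit 18) true (nat_lit 0) true (nat_lit 19) true (nat_lit 13) (.s true (nat_lit 2) (nat_lit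 31) (nat_lit 1) (nat_lit 2) (nat_lit 4) true (nat_lit 9) true (nat_lit 15) true (nat_lit 0) true (nat_lit 18) true (nat_lit 17) (.s true (nat_lit 1) (nat_lit 32) (nat_lit 1) (nat_lit 2) (nat_lit 4) true (nat_lit 9) true (nat_lit 15) true (nat_lit 0) true (nat_lit 18) true (nat_lit 17) dC1d_i244)))))))))))))))))))))))))

noncomputable def dC1d_i246 : IL := (.s false (nat_lit 2) (nat_lit 16) (nat_lit 2) (nat_lit 2) (nat_lit 7) true (nat_lit 3) true (nat_lit 12) true (nat_lit 6) true (nat_lit 17) true (nat_lit 17) (.s false (nat_lit 1) (nat_lit 16) (nat_lit 2) (nat_lit 9) (nat_lit 1) true (nat_lit 14) true (nat_lit 18) true (nat_lit 6) true (nat_lit 17) true (nat_lit 10) (.s false (nat_lit 3) (nat_lit 17) (nat_lit 2) (nat_lit 9) (nat_lit 1) true (nat_lit 14) true (nat_lit 18) true (nat_lit 6) true (nat_lit 17) true (nat_lit 10) (.s false (nat_lit 1) (nat_lit 17) (nat_lit 6) (nat_lit 3) (nat_lit 0) true (nat_lit 7)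 true (nat_lit 19) true (nat_lit 6) true (nat_lit 13) true (nat_lit 16) (.s false (nat_lit 1) (nat_lit 16) (nat_lit 9) (nat_lit 1) (nat_lit 2) true (nat_lit 1) true (nat_lit 17) true (nat_lit 6) true (nat_lit 10) true (nat_lit 18) (.s true (nat_lit 1) (nat_lit 18) (nat_lit 0) (nat_lit 8) (nat_lit 2) true (nat_lit 15) true (nat_lit 17) true (nat_lit 5) true (nat_lit 19) true (nat_lit 11) (.s false (nat_lit 1) (nat_lit 18) (nat_lit 0) (nat_lit 10) (nat_lit 1) true (nat_lit 16) true (nat_lit 18) true (nat_lit 5) true (nat_lit 19) true (nat_lit 9) (.s false (nat_lit 3) (nat_lit 18) (nat_lit 0) (nat_lit 11) (nat_lit 1) true (nat_lit 16) true (nat_lit 18) true (nat_lit 5) true (nat_lit 19) true (nat_lit 9) (.s true (nat_lit 2) (nat_lit 18) (nat_lit 0) (nat_lit 12) (nat_lit 1) true (nat_lit 16) true (nat_lit 18) true (nat_lit 5) true (nat_lit 19) true (nat_lit 9) (.s true (nat_lit 2) (nat_lit 18) (nat_lit 1) (nat_lit 3)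 (nat_lit 4) true (nat_lit 9) true (nat_lit 15) true (nat_lit 5) true (nat_lit 18) true (nat_lit 16) (.s true (nat_lit 3) (nat_lit 18) (nat_lit 1) (nat_lit 4) (nat_lit 3) true (nat_lit 11) true (nat_lit 16) true (nat_lit 5) true (nat_lit 18) true (nat_lit 15) (.s true (nat_lit 3) (nat_lit 18) (nat_lit 1) (nat_lit 10) (nat_lit 0) true (nat_lit 16) true (nat_lit 19) true (nat_lit 5) true (nat_lit 18) true (nat_lit 9) (.s false (nat_lit 1) (nat_lit 18) (nat_lit 1) (nat_lit 11) (nat_lit 0) true (nat_lit 16) true (nat_lit 19) true (nat_lit 5) true (nat_lit 18) true (nat_lit 9) (.s false (nat_lit 1) (nat_lit 18) (nat_lit 2) (nat_lit 7) (nat_lit 1) true (nat_lit 14) true (nat_lit 18) true (nat_lit 5) true (nat_lit 17) true (nat_lit 12) (.s false (nat_lit 3) (nat_lit 18) (nat_lit 2) (nat_lit 8) (nat_lit 0) true (nat_lit 15) true (nat_lit 19) true (nat_lit 5) true (nat_lit 17) true (nat_lit 11) (.s false (nat_lit 1) (nat_lit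 18) (nat_lit 3) (nat_lit 3) (nat_lit 2) true (nat_lit 9) true (nat_lit 17) true (nat_lit 5) true (nat_lit 16) true (nat_lit 16) (.s true (nat_lit 3) (nat_lit 18) (nat_lit 7) (nat_lit 2) (nat_lit 1) true (nat_lit 4) true (nat_lit 18) true (nat_lit 5) true (nat_lit 12) true (nat_lit 17) (.s false (nat_lit 2) (nat_lit 18) (nat_lit 8) (nat_lit 0) (nat_lit 2) true (nat_lit 2) true (nat_lit 17) true (nat_lit 5) true (nat_lit 11) true (nat_lit 19) (.s true (nat_lit 1) (nat_lit 18) (nat_lit 10) (nat_lit 1) (nat_lit 0) true (nat_lit 3) true (nat_lit 19) true (nat_lit 5) true (nat_lit 9) true (nat_lit 18) (.s false (nat_lit 2) (nat_lit 18) (nat_lit 12) (nat_lit 1) (nat_lit 0) true (nat_lit 3) true (nat_lit 19) true (nat_lit 5) true (nat_lit 9) true (nat_lit 18) (.s false (nat_lit 1) (nat_lit 21) (nat_lit 1) (nat_lit 2) (nat_lit 6) true (nat_lit 6) true (nat_lit 13) true (nat_lit 3) true (nat_lit 18) true (nat_lit 17) (.s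 false (nat_lit 3) (nat_lit 22) (nat_lit 2) (nat_lit 1) (nat_lit 6) true (nat_lit 5) true (nat_lit 13) true (nat_lit 3) true (nat_lit 17) true (nat_lit 18) (.s true (nat_lit 1) (nat_lit 22) (nat_lit 2) (nat_lit 2) (nat_lit 5) true (nat_lit 6) true (nat_lit 14) true (nat_lit 3) true (nat_lit 17) true (nat_lit 17) (.s true (nat_lit 1) (nat_lit 21) (nat_lit 2) (nat_lit 6) (nat_lit 1) true (nat_lit 14) true (nat_lit 18) true (nat_lit 3) true (nat_lit 17) true (nat_lit 13) (.s false (nat_lit 1) (nat_lit 22) (nat_lit 2) (nat_lit 6) (nat_lit 1) true (nat_lit 14) true (nat_lit 18) true (nat_lit 3) true (nat_lit 17) true (nat_lit 13) dC1d_i245)))))))))))))))))))))))))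

noncomputable def dC1d_i247 : IL := (.s false (nat_lit 1) (nat_lit 11) (nat_lit 3) (nat_lit 2) (nat_lit 6) true (nat_lit 0) true (nat_lit 13) true (nat_lit 9) true (nat_lit 16) true (nat_lit 17) (.s true (nat_lit 1) (nat_lit 11) (nat_lit 4) (nat_lit 6) (nat_lit 1) true (nat_lit 9) true (nat_lit 18) true (nat_lit 9) true (nat_lit 15) true (nat_lit 13) (.s false (nat_lit 2) (nat_lit 13) (nat_lit 2) (nat_lit 9) (nat_lit 2) true (nat_lit 13) true (nat_lit 17) true (nat_lit 8) true (nat_lit 17) true (nat_lit 10) (.s true (nat_lit 1) (nat_lit 13) (nat_lit 9) (nat_lit 2) (nat_lit 2) true (nat_lit 1) true (nat_lit 17) true (nat_lit 8) true (nat_lit 10) true (nat_lit 17) (.s true (nat_lit 3) (nat_lit 15) (nat_lit 0) (nat_lit 2) (nat_lit 13) true (nat_lit 2) true (nat_lit 8) true (nat_lit 7) true (nat_lit 19) true (nat_lit 17) (.s true (nat_lit 3) (nat_lit 14) (nat_lit 1) (nat_lit 1) (nat_lit 14) true (nat_lit 0) true (nat_lit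 7) true (nat_lit 7) true (nat_lit 18) true (nat_lit 18) (.s false (nat_lit 3) (nat_lit 14) (nat_lit 1) (nat_lit 1) (nat_lit 15) true (nat_lit 0) true (nat_lit 7) true (nat_lit 7) true (nat_lit 18) true (nat_lit 18) (.s true (nat_lit 2) (nat_lit 15) (nat_lit 1) (nat_lit 1) (nat_lit 15) true (nat_lit 0) true (nat_lit 7) true (nat_lit 7) true (nat_lit 18) true (nat_lit 18) (.s false (nat_lit 1) (nat_lit 14) (nat_lit 1) (nat_lit 2) (nat_lit 11) true (nat_lit 2) true (nat_lit 9) true (nat_lit 7) true (nat_lit 18) true (nat_lit 17) (.s true (nat_lit 1) (nat_lit 14) (nat_lit 1) (nat_lit 3) (nat_lit 6) true (nat_lit 6) true (nat_lit 13) true (nat_lit 7) true (nat_lit 18) true (nat_lit 16) (.s true (nat_lit 2) (nat_lit 14) (nat_lit 2) (nat_lit 1) (nat_lit 11) true (nat_lit 0) true (nat_lit 9) true (nat_lit 7) true (nat_lit 17) true (nat_lit 18) (.s false (nat_lit 1) (nat_lit 15) (nat_lit 2) (nat_lit 2) (nat_lit 8) true (nat_lit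 2) true (nat_lit 11) true (nat_lit 7) true (nat_lit 17) true (nat_lit 17) (.s false (nat_lit 1) (nat_lit 14) (nat_lit 2) (nat_lit 8) (nat_lit 2) true (nat_lit 13) true (nat_lit 17) true (nat_lit 7) true (nat_lit 17) true (nat_lit 11) (.s true (nat_lit 2) (nat_lit 14) (nat_lit 3) (nat_lit 1) (nat_lit 6) true (nat_lit 0) true (nat_lit 13) true (nat_lit 7) true (nat_lit 16) true (nat_lit 18) (.s true (nat_lit 3) (nat_lit 15) (nat_lit 6) (nat_lit 3) (nat_lit 1) true (nat_lit 6) true (nat_lit 18) true (nat_lit 7) true (nat_lit 13) true (nat_lit 16) (.s false (nat_lit 3) (nat_lit 15) (nat_lit 8) (nat_lit 2) (nat_lit 2) true (nat_lit 2) true (nat_lit 17) true (nat_lit 7) true (nat_lit 11) true (nat_lit 17) (.s true (nat_lit 2) (nat_lit 16) (nat_lit 0) (nat_lit 0) (nat_lit 16) true (nat_lit 0) true (nat_lit 6) true (nat_lit 6) true (nat_lit 19) true (nat_lit 19) (.s false (nat_lit 3) (nat_lit 16) (nat_lit 0) (nat_lit 0)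 (nat_lit 17) true (nat_lit 0) true (nat_lit 6) true (nat_lit 6) true (nat_lit 19) true (nat_lit 19) (.s true (nat_lit 3) (nat_lit 17) (nat_lit 0) (nat_lit 0) (nat_lit 16) true (nat_lit 0) true (nat_lit 6) true (nat_lit 6) true (nat_lit 19) true (nat_lit 19) (.s true (nat_lit 3) (nat_lit 17) (nat_lit 0) (nat_lit 0) (nat_lit 17) true (nat_lit 0) true (nat_lit 6) true (nat_lit 6) true (nat_lit 19) true (nat_lit 19) (.s true (nat_lit 2) (nat_lit 17) (nat_lit 0) (nat_lit 2) (nat_lit 12) true (nat_lit 3) true (nat_lit 9) true (nat_lit 6) true (nat_lit 19) true (nat_lit 17) (.s false (nat_lit 1) (nat_lit 16) (nat_lit 0) (nat_lit 12) (nat_lit 2) true (nat_lit 15) true (nat_lit 17) true (nat_lit 6) true (nat_lit 19) true (nat_lit 9) (.s true (nat_lit 2) (nat_lit 17) (nat_lit 0) (nat_lit 15) (nat_lit 1) true (nat_lit 16) true (nat_lit 18) true (nat_lit 6) true (nat_lit 19) true (nat_lit 7) (.s false (nat_lit 2) (nat_lit 16)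 (nat_lit 2) (nat_lit 1) (nat_lit 9) true (nat_lit 1) true (nat_lit 10) true (nat_lit 6) true (nat_lit 17) true (nat_lit 18) (.s true (nat_lit 3) (nat_lit 17) (nat_lit 2) (nat_lit 1) (nat_lit 9) true (nat_lit 1) true (nat_lit 10) true (nat_lit 6) true (nat_lit 17) true (nat_lit 18) dC1d_i246)))))))))))))))))))))))))

noncomputable def dC1d_i248 : IL := (.e false (nat_lit 2) (nat_lit 290) (nat_lit 0) (nat_lit 19) (.e false (nat_lit 3) (nat_lit 291) (nat_lit 0) (nat_lit 19) (.e true (nat_lit 2) (nat_lit 292) (nat_lit 0) (nat_lit 19) (.e false (nat_lit 2) (nat_lit 293) (nat_lit 0) (nat_lit 19) (.e false (nat_lit 1) (nat_lit 294) (nat_lit 0) (nat_lit 19) (.e false (nat_lit 2) (nat_lit 295) (nat_lit 0) (nat_lit 19) (.e true (nat_lit 1) (nat_lit 296) (nat_lit 0) (nat_lit 19) (.e false (nat_lit 3) (nat_lit 297) (nat_lit 0) (nat_lit 19) (.e true (nat_lit 1) (nat_lit 299) (nat_lit 0) (nat_lit 19) (.e true (nat_lit 1) (nat_lit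 302) (nat_lit 0) (nat_lit 19) (.e true (nat_lit 1) (nat_lit 309) (nat_lit 0) (nat_lit 19) (.e true (nat_lit 2) (nat_lit 316) (nat_lit 0) (nat_lit 19) (.e true (nat_lit 3) (nat_lit 305) (nat_lit 0) (nat_lit 19) (.e true (nat_lit 3) (nat_lit 143) (nat_lit 5) (nat_lit 14) (.e true (nat_lit 3) (nat_lit 77) (nat_lit 13) (nat_lit 8) (.e true (nat_lit 1) (nat_lit 270) (nat_lit 1) (nat_lit 18) (.e false (nat_lit 1) (nat_lit 271) (nat_lit 1) (nat_lit 18) (.e true (nat_lit 3) (nat_lit 282) (nat_lit 1) (nat_lit 18) (.e true (nat_lit 3) (nat_lit 298) (nat_lit 0) (nat_lit 19) (.e false (nat_lit 3) (nat_lit 78) (nat_lit 13) (nat_lit 8) (.e true (nat_lit 2) (nat_lit 160) (nat_lit 4) (nat_lit 15) (.u (nat_lit 2) (.n (nat_lit 0) (nat_lit 1) (.n (nat_lit 1) (nat_lit 1) (.p (nat_lit 6) (nat_lit 1) (.n (nat_lit 7) (nat_lit 1) (.n (nat_lit 10) (nat_lit 1) (.p (nat_lit 11) (nat_lit 1) (.n (nat_lit 12) (nat_lit 1) (.n (nat_lit 18) (nat_lit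 1) (.p (nat_lit 27) (nat_lit 1) (.n (nat_lit 30) (nat_lit 1) (.p (nat_lit 38) (nat_lit 1) (.p (nat_lit 55) (nat_lit 1) (.p (nat_lit 92) (nat_lit 2) (.n (nat_lit 107) (nat_lit 1) (.p (nat_lit 109) (nat_lit 1) (.n (nat_lit 117) (nat_lit 1) (.n (nat_lit 118) (nat_lit 1) (.n (nat_lit 129) (nat_lit 1) (.p (nat_lit 133) (nat_lit 1) (.p (nat_lit 148) (nat_lit 1) (.n (nat_lit 149) (nat_lit 1) (.p (nat_lit 150) (nat_lit 1) (.n (nat_lit 151) (nat_lit 3) (.n (nat_lit 152) (nat_lit 1) (.p (nat_lit 153) (nat_lit 1) (.n (nat_lit 158) (nat_lit 2) (.n (nat_lit 159) (nat_lit 3) (.n (nat_lit 160) (nat_lit 1) (.p (nat_lit 162) (nat_lit 1) (.n (nat_lit 163) (nat_lit 1) (.n (nat_lit 164) (nat_lit 3) (.n (nat_lit 165) (nat_lit 3) (.p (nat_lit 166) (nat_lit 3) (.p (nat_lit 168) (nat_lit 1) (.p (nat_lit 169) (nat_lit 2) (.p (nat_lit 170) (nat_lit 1) (.p (nat_lit 181) (nat_lit 1) (.n (nat_lit 182) (nat_lit 1) (.p (nat_lit 193) (nat_lit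 1) (.n (nat_lit 198) (nat_lit 1) (.p (nat_lit 209) (nat_lit 1) (.p (nat_lit 210) (nat_lit 1) (.n (nat_lit 213) (nat_lit 1) (.p (nat_lit 215) (nat_lit 1) (.n (nat_lit 217) (nat_lit 1) (.p (nat_lit 231) (nat_lit 1) (.n (nat_lit 233) (nat_lit 1) (.n (nat_lit 236) (nat_lit 1) (.p (nat_lit 237) (nat_lit 1) (.n (nat_lit 238) (nat_lit 1) (.p (nat_lit 241) (nat_lit 1) (.p (nat_lit 242) (nat_lit 1) (.n (nat_lit 244) (nat_lit 2) (.p (nat_lit 246) (nat_lit 1) (.n (nat_lit 247) (nat_lit 1) (.n (nat_lit 249) (nat_lit 1) (.n (nat_lit 253) (nat_lit 1) (.p (nat_lit 254) (nat_lit 1) (.p (nat_lit 256) (nat_lit 1) (.n (nat_lit 257) (nat_lit 2) .z)))))))))))))))))))))))))))))))))))))))))))))))))))))))))))) (.u (nat_lit 2) (.p (nat_lit 260) (nat_lit 2) (.n (nat_lit 261) (nat_lit 2) (.n (nat_lit 262) (nat_lit 1) (.p (nat_lit 263) (nat_lit 1) (.p (nat_lit 266) (nat_lit 1) (.n (nat_lit 269) (nat_lit 1) (.n (nat_lit 270) (nat_lit 2) (.n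 (nat_lit 271) (nat_lit 3) (.n (nat_lit 274) (nat_lit 3) (.p (nat_lit 275) (nat_lit 2) (.n (nat_lit 276) (nat_lit 3) (.p (nat_lit 278) (nat_lit 1) (.n (nat_lit 280) (nat_lit 1) (.p (nat_lit 282) (nat_lit 1) (.n (nat_lit 286) (nat_lit 2) (.n (nat_lit 288) (nat_lit 1) (.n (nat_lit 291) (nat_lit 1) (.p (nat_lit 298) (nat_lit 1) (.p (nat_lit 304) (nat_lit 1) (.n (nat_lit 310) (nat_lit 1) (.p (nat_lit 311) (nat_lit 5) (.p (nat_lit 312) (nat_lit 4) (.p (nat_lit 313) (nat_lit 1) (.p (nat_lit 314) (nat_lit 3) (.n (nat_lit 315) (nat_lit 1) (.p (nat_lit 316) (nat_lit 6) (.p (nat_lit 317) (nat_lit 2) (.p (nat_lit 318) (nat_lit 3) (.p (nat_lit 319) (nat_lit 1) (.n (nat_lit 320) (nat_lit 1) (.n (nat_lit 321) (nat_lit 1) (.n (nat_lit 322) (nat_lit 1) (.n (nat_lit 323) (nat_lit 1) (.n (nat_lit 324) (nat_lit 1) (.n (nat_lit 326) (nat_lit 1) (.p (nat_lit 327) (nat_lit 2) (.p (nat_lit 328) (nat_lit 4) (.p (nat_lit 329) (nat_lit 18)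 (.n (nat_lit 330) (nat_lit 7) (.p (nat_lit 331) (nat_lit 5) (.n (nat_lit 332) (nat_lit 13) (.n (nat_lit 333) (nat_lit 10) (.p (nat_lit 334) (nat_lit 19) (.n (nat_lit 335) (nat_lit 2) (.p (nat_lit 336) (nat_lit 29) (.p (nat_lit 337) (nat_lit 8) (.p (nat_lit 338) (nat_lit 8) (.p (nat_lit 339) (nat_lit 1) (.p (nat_lit 340) (nat_lit 10) (.n (nat_lit 341) (nat_lit 9) (.n (nat_lit 342) (nat_lit 1) (.p (nat_lit 343) (nat_lit 8) (.p (nat_lit 345) (nat_lit 17) (.p (nat_lit 346) (nat_lit 27) (.p (nat_lit 347) (nat_lit 20) (.n (nat_lit 348) (nat_lit 7) (.p (nat_lit 349) (nat_lit 9) (.p (nat_lit 350) (nat_lit 3) (.n (nat_lit 351) (nat_lit 8) (.n (nat_lit 352) (nat_lit 20) .z)))))))))))))))))))))))))))))))))))))))))))))))))))))))))))) (.u (nat_lit 2) (.n (nat_lit 353) (nat_lit 8) (.n (nat_lit 354) (nat_lit 3) (.p (nat_lit 356) (nat_lit 7) (.p (nat_lit 357) (nat_lit 23) (.n (nat_lit 358) (nat_lit 17) (.n (nat_lit 359) (nat_lit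 19) (.p (nat_lit 360) (nat_lit 6) (.n (nat_lit 361) (nat_lit 5) (.p (nat_lit 362) (nat_lit 10) (.p (nat_lit 363) (nat_lit 23) (.p (nat_lit 364) (nat_lit 1) (.p (nat_lit 365) (nat_lit 4) (.p (nat_lit 366) (nat_lit 22) (.p (nat_lit 367) (nat_lit 5) (.p (nat_lit 368) (nat_lit 1) (.p (nat_lit 369) (nat_lit 2) (.p (nat_lit 370) (nat_lit 2) (.n (nat_lit 371) (nat_lit 8) (.p (nat_lit 374) (nat_lit 1) (.p (nat_lit 375) (nat_lit 10) (.p (nat_lit 376) (nat_lit 1) (.n (nat_lit 377) (nat_lit 22) (.n (nat_lit 378) (nat_lit 11) (.p (nat_lit 379) (nat_lit 9) (.n (nat_lit 380) (nat_lit 24) (.p (nat_lit 381) (nat_lit 1) (.p (nat_lit 382) (nat_lit 13) (.p (nat_lit 383) (nat_lit 26) (.p (nat_lit 384) (nat_lit 11) (.n (nat_lit 385) (nat_lit 21) (.n (nat_lit 386) (nat_lit 31) (.p (nat_lit 387) (nat_lit 37) (.p (nat_lit 388) (nat_lit 1) (.p (nat_lit 389) (nat_lit 2) (.n (nat_lit 390) (nat_lit 3) (.p (nat_lit 391) (nat_lit 1) (.p (nat_lit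 392) (nat_lit 38) (.p (nat_lit 393) (nat_lit 8) (.p (nat_lit 395) (nat_lit 21) (.n (nat_lit 396) (nat_lit 14) (.n (nat_lit 397) (nat_lit 8) (.n (nat_lit 399) (nat_lit 14) (.p (nat_lit 400) (nat_lit 9) (.p (nat_lit 401) (nat_lit 5) (.p (nat_lit 402) (nat_lit 34) (.p (nat_lit 403) (nat_lit 23) (.n (nat_lit 404) (nat_lit 1) (.p (nat_lit 405) (nat_lit 24) (.p (nat_lit 406) (nat_lit 21) (.n (nat_lit 407) (nat_lit 6) (.n (nat_lit 408) (nat_lit 6) (.n (nat_lit 409) (nat_lit 2) (.n (nat_lit 410) (nat_lit 24) (.n (nat_lit 411) (nat_lit 5) (.n (nat_lit 412) (nat_lit 2) (.p (nat_lit 413) (nat_lit 6) (.n (nat_lit 414) (nat_lit 2) (.p (nat_lit 415) (nat_lit 12) (.n (nat_lit 416) (nat_lit 29) (.p (nat_lit 417) (nat_lit 33) .z)))))))))))))))))))))))))))))))))))))))))))))))))))))))))))) (.u (nat_lit 2) (.n (nat_lit 418) (nat_lit 6) (.p (nat_lit 419) (nat_lit 5) (.p (nat_lit 420) (nat_lit 21) (.p (nat_lit 421) (nat_lit 3) (.p (nat_lit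 422) (nat_lit 6) (.n (nat_lit 423) (nat_lit 10) (.n (nat_lit 424) (nat_lit 4) (.n (nat_lit 425) (nat_lit 8) (.n (nat_lit 426) (nat_lit 4) (.p (nat_lit 427) (nat_lit 5) (.n (nat_lit 428) (nat_lit 12) (.n (nat_lit 429) (nat_lit 4) (.n (nat_lit 430) (nat_lit 7) (.p (nat_lit 431) (nat_lit 3) (.n (nat_lit 432) (nat_lit 7) (.n (nat_lit 433) (nat_lit 14) (.p (nat_lit 434) (nat_lit 1) .z))))))))))))))))) .nil)))))))))))))))))))))))))

noncomputable def dC1d_i249 : IL := (.a true (nat_lit 3) (nat_lit 34) (nat_lit 36) (nat_lit 0) (nat_lit 0) (.a false (nat_lit 1) (nat_lit 36) (nat_lit 36) (nat_lit 0) (nat_lit 0) (.a false (nat_lit 3) (nat_lit 32) (nat_lit 34) (nat_lit 0) (nat_lit 0) (.a true (nat_lit 3) (nat_lit 33) (nat_lit 34) (nat_lit 0) (nat_lit 0) (.a true (nat_lit 3) (nat_lit 31) (nat_lit 34) (nat_lit 0) (nat_lit 0) (.e false (nat_lit 3) (nat_lit 212) (nat_lit 2) (nat_lit 17) (.e false (nat_lit 1) (nat_lit 213) (nat_lit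 2) (nat_lit 17) (.e true (nat_lit 1) (nat_lit 214) (nat_lit 2) (nat_lit 17) (.e false (nat_lit 1) (nat_lit 217) (nat_lit 2) (nat_lit 17) (.e false (nat_lit 3) (nat_lit 218) (nat_lit 2) (nat_lit 17) (.e false (nat_lit 2) (nat_lit 219) (nat_lit 2) (nat_lit 17) (.e true (nat_lit 1) (nat_lit 244) (nat_lit 2) (nat_lit 17) (.e false (nat_lit 2) (nat_lit 260) (nat_lit 1) (nat_lit 18) (.e true (nat_lit 1) (nat_lit 261) (nat_lit 1) (nat_lit 18) (.e true (nat_lit 2) (nat_lit 262) (nat_lit 1) (nat_lit 18) (.e false (nat_lit 2) (nat_lit 264) (nat_lit 1) (nat_lit 18) (.e false (nat_lit 3) (nat_lit 266) (nat_lit 1) (nat_lit 18) (.e true (nat_lit 1) (nat_lit 267) (nat_lit 1) (nat_lit 18) (.e true (nat_lit 3) (nat_lit 268) (nat_lit 1) (nat_lit 18) (.e false (nat_lit 3) (nat_lit 269) (nat_lit 1) (nat_lit 18) (.e false (nat_lit 1) (nat_lit 272) (nat_lit 1) (nat_lit 18) (.e false (nat_lit 1) (nat_lit 273) (nat_lit 1) (nat_lit 18)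 (.e true (nat_lit 1) (nat_lit 274) (nat_lit 1) (nat_lit 18) (.e true (nat_lit 3) (nat_lit 263) (nat_lit 1) (nat_lit 18) (.e false (nat_lit 3) (nat_lit 281) (nat_lit 1) (nat_lit 18) dC1d_i248)))))))))))))))))))))))))

noncomputable def dC1d_i250 : IL := (.s false (nat_lit 1) (nat_lit 88) (nat_lit 1) (nat_lit 2) (nat_lit 0) true (nat_lit 16) true (nat_lit 19) false (nat_lit 9) true (nat_lit 18) true (nat_lit 17) (.s false (nat_lit 2) (nat_lit 89) (nat_lit 1) (nat_lit 2) (nat_lit 0) true (nat_lit 16) true (nat_lit 19) false (nat_lit 9) true (nat_lit 18) true (nat_lit 17) (.s true (nat_lit 2) (nat_lit 90) (nat_lit 1) (nat_lit 2) (nat_lit 0) true (nat_lit 16) true (nat_lit 19) false (nat_lit 9) true (nat_lit 18) true (nat_lit 17) (.s true (nat_lit 1) (nat_lit 91) (nat_lit 1) (nat_lit 2) (nat_lit 0) true (nat_lit 16) true (nat_lit 19) false (nat_lit 9) true (nat_lit 18) true (nat_lit 17) (.s false (nat_lit 3) (nat_lit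 93) (nat_lit 0) (nat_lit 2) (nat_lit 0) false (nat_lit 20) true (nat_lit 19) false (nat_lit 10) true (nat_lit 19) true (nat_lit 17) (.s true (nat_lit 2) (nat_lit 95) (nat_lit 0) (nat_lit 2) (nat_lit 0) false (nat_lit 20) true (nat_lit 19) false (nat_lit 10) true (nat_lit 19) true (nat_lit 17) (.s false (nat_lit 2) (nat_lit 96) (nat_lit 0) (nat_lit 2) (nat_lit 0) false (nat_lit 20) true (nat_lit 19) false (nat_lit 10) true (nat_lit 19) true (nat_lit 17) (.s false (nat_lit 1) (nat_lit 97) (nat_lit 0) (nat_lit 2) (nat_lit 0) false (nat_lit 20) true (nat_lit 19) false (nat_lit 10) true (nat_lit 19) true (nat_lit 17) (.s false (nat_lit 3) (nat_lit 98) (nat_lit 1) (nat_lit 0) (nat_lit 1) false (nat_lit 21) true (nat_lit 18) false (nat_lit 11) true (nat_lit 18) true (nat_lit 19) (.s true (nat_lit 3) (nat_lit 99) (nat_lit 1) (nat_lit 0) (nat_lit 1) false (nat_lit 21) true (nat_lit 18) false (nat_lit 11) true (nat_lit 18)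 true (nat_lit 19) (.s false (nat_lit 2) (nat_lit 100) (nat_lit 1) (nat_lit 0) (nat_lit 1) false (nat_lit 21) true (nat_lit 18) false (nat_lit 11) true (nat_lit 18) true (nat_lit 19) (.s true (nat_lit 3) (nat_lit 98) (nat_lit 1) (nat_lit 1) (nat_lit 0) true (nat_lit 16) true (nat_lit 19) false (nat_lit 11) true (nat_lit 18) true (nat_lit 18) (.s true (nat_lit 3) (nat_lit 99) (nat_lit 1) (nat_lit 1) (nat_lit 0) true (nat_lit 16) true (nat_lit 19) false (nat_lit 11) true (nat_lit 18) true (nat_lit 18) (.s true (nat_lit 2) (nat_lit 100) (nat_lit 1) (nat_lit 1) (nat_lit 0) true (nat_lit 16) true (nat_lit 19) false (nat_lit 11) true (nat_lit 18) true (nat_lit 18) (.s false (nat_lit 3) (nat_lit 102) (nat_lit 0) (nat_lit 0) (nat_lit 1) true (nat_lit 16) true (nat_lit 18) false (nat_lit 12) true (nat_lit 19) true (nat_lit 19) (.s false (nat_lit 3) (nat_lit 104) (nat_lit 0) (nat_lit 0) (nat_lit 1) true (nat_lit 16) true (nat_lit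 18) false (nat_lit 12) true (nat_lit 19) true (nat_lit 19) (.s false (nat_lit 1) (nat_lit 105) (nat_lit 0) (nat_lit 0) (nat_lit 1) true (nat_lit 16) true (nat_lit 18) false (nat_lit 12) true (nat_lit 19) true (nat_lit 19) (.s true (nat_lit 2) (nat_lit 102) (nat_lit 0) (nat_lit 1) (nat_lit 0) false (nat_lit 20) true (nat_lit 19) false (nat_lit 12) true (nat_lit 19) true (nat_lit 18) (.s true (nat_lit 2) (nat_lit 103) (nat_lit 0) (nat_lit 1) (nat_lit 0) false (nat_lit 20) true (nat_lit 19) false (nat_lit 12) true (nat_lit 19) true (nat_lit 18) (.s false (nat_lit 1) (nat_lit 104) (nat_lit 0) (nat_lit 1) (nat_lit 0) false (nat_lit 20) true (nat_lit 19) false (nat_lit 12) true (nat_lit 19) true (nat_lit 18) (.s false (nat_lit 3) (nat_lit 105) (nat_lit 0) (nat_lit 1) (nat_lit 0) false (nat_lit 20) true (nat_lit 19) false (nat_lit 12) true (nat_lit 19) true (nat_lit 18) (.a true (nat_lit 2) (nat_lit 31) (nat_lit 31) (nat_lit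 0) (nat_lit 0) (.a true (nat_lit 3) (nat_lit 34) (nat_lit 34) (nat_lit 0) (nat_lit 0) (.a false (nat_lit 3) (nat_lit 34) (nat_lit 35) (nat_lit 0) (nat_lit 0) (.a false (nat_lit 2) (nat_lit 35) (nat_lit 35) (nat_lit 0) (nat_lit 0) dC1d_i249)))))))))))))))))))))))))

noncomputable def dC1d_i251 : IL := (.s false (nat_lit 3) (nat_lit 74) (nat_lit 2) (nat_lit 2) (nat_lit 0) true (nat_lit 15) true (nat_lit 19) false (nat_lit 7) true (nat_lit 17) true (nat_lit 17) (.s false (nat_lit 2) (nat_lit 75) (nat_lit 2) (nat_lit 2) (nat_lit 0) true (nat_lit 15) true (nat_lit 19) false (nat_lit 7) true (nat_lit 17) true (nat_lit 17) (.s true (nat_lit 3) (nat_lit 76) (nat_lit 2) (nat_lit 2) (nat_lit 0) true (nat_lit 15) true (nat_lit 19) false (nat_lit 7) true (nat_lit 17) true (nat_lit 17) (.s true (nat_lit 2) (nat_lit 77) (nat_lit 1) (nat_lit 1) (nat_lit 2) true (nat_lit 14) true (nat_lit 17) false (nat_lit 8) true (nat_lit 18)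 true (nat_lit 18) (.s true (nat_lit 2) (nat_lit 78) (nat_lit 1) (nat_lit 1) (nat_lit 2) true (nat_lit 14) true (nat_lit 17) false (nat_lit 8) true (nat_lit 18) true (nat_lit 18) (.s false (nat_lit 2) (nat_lit 79) (nat_lit 1) (nat_lit 1) (nat_lit 2) true (nat_lit 14) true (nat_lit 17) false (nat_lit 8) true (nat_lit 18) true (nat_lit 18) (.s true (nat_lit 1) (nat_lit 81) (nat_lit 2) (nat_lit 1) (nat_lit 1) true (nat_lit 14) true (nat_lit 18) false (nat_lit 8) true (nat_lit 17) true (nat_lit 18) (.s true (nat_lit 2) (nat_lit 82) (nat_lit 0) (nat_lit 1) (nat_lit 2) true (nat_lit 15) true (nat_lit 17) false (nat_lit 9) true (nat_lit 19) true (nat_lit 18) (.s false (nat_lit 3) (nat_lit 90) (nat_lit 0) (nat_lit 1) (nat_lit 2) true (nat_lit 15) true (nat_lit 17) false (nat_lit 9) true (nat_lit 19) true (nat_lit 18) (.s true (nat_lit 2) (nat_lit 82) (nat_lit 0) (nat_lit 2) (nat_lit 1) true (nat_lit 16) true (nat_lit 18)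 false (nat_lit 9) true (nat_lit 19) true (nat_lit 17) (.s true (nat_lit 2) (nat_lit 83) (nat_lit 0) (nat_lit 2) (nat_lit 1) true (nat_lit 16) true (nat_lit 18) false (nat_lit 9) true (nat_lit 19) true (nat_lit 17) (.s false (nat_lit 1) (nat_lit 84) (nat_lit 0) (nat_lit 2) (nat_lit 1) true (nat_lit 16) true (nat_lit 18) false (nat_lit 9) true (nat_lit 19) true (nat_lit 17) (.s true (nat_lit 2) (nat_lit 85) (nat_lit 0) (nat_lit 2) (nat_lit 1) true (nat_lit 16) true (nat_lit 18) false (nat_lit 9) true (nat_lit 19) true (nat_lit 17) (.s true (nat_lit 2) (nat_lit 86) (nat_lit 0) (nat_lit 2) (nat_lit 1) true (nat_lit 16) true (nat_lit 18) false (nat_lit 9) true (nat_lit 19) true (nat_lit 17) (.s true (nat_lit 3) (nat_lit 87) (nat_lit 0) (nat_lit 2) (nat_lit 1) true (nat_lit 16) true (nat_lit 18) false (nat_lit 9) true (nat_lit 19) true (nat_lit 17) (.s false (nat_lit 2) (nat_lit 88) (nat_lit 0) (nat_lit 2) (nat_lit 1)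 true (nat_lit 16) true (nat_lit 18) false (nat_lit 9) true (nat_lit 19) true (nat_lit 17) (.s false (nat_lit 2) (nat_lit 89) (nat_lit 0) (nat_lit 2) (nat_lit 1) true (nat_lit 16) true (nat_lit 18) false (nat_lit 9) true (nat_lit 19) true (nat_lit 17) (.s true (nat_lit 3) (nat_lit 90) (nat_lit 0) (nat_lit 2) (nat_lit 1) true (nat_lit 16) true (nat_lit 18) false (nat_lit 9) true (nat_lit 19) true (nat_lit 17) (.s false (nat_lit 2) (nat_lit 91) (nat_lit 0) (nat_lit 2) (nat_lit 1) true (nat_lit 16) true (nat_lit 18) false (nat_lit 9) true (nat_lit 19) true (nat_lit 17) (.s false (nat_lit 1) (nat_lit 92) (nat_lit 0) (nat_lit 2) (nat_lit 1) true (nat_lit 16) true (nat_lit 18) false (nat_lit 9) true (nat_lit 19) true (nat_lit 17) (.s false (nat_lit 3) (nat_lit 82) (nat_lit 1) (nat_lit 0) (nat_lit 2) true (nat_lit 14) true (nat_lit 17) false (nat_lit 9) true (nat_lit 18) true (nat_lit 19) (.s false (nat_lit 1) (nat_lit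 82) (nat_lit 1) (nat_lit 2) (nat_lit 0) true (nat_lit 16) true (nat_lit 19) false (nat_lit 9) true (nat_lit 18) true (nat_lit 17) (.s true (nat_lit 2) (nat_lit 84) (nat_lit 1) (nat_lit 2) (nat_lit 0) true (nat_lit 16) true (nat_lit 19) false (nat_lit 9) true (nat_lit 18) true (nat_lit 17) (.s true (nat_lit 2) (nat_lit 85) (nat_lit 1) (nat_lit 2) (nat_lit 0) true (nat_lit 16) true (nat_lit 19) false (nat_lit 9) true (nat_lit 18) true (nat_lit 17) (.s false (nat_lit 2) (nat_lit 86) (nat_lit 1) (nat_lit 2) (nat_lit 0) true (nat_lit 16) true (nat_lit 19) false (nat_lit 9) true (nat_lit 18) true (nat_lit 17) dC1d_i250)))))))))))))))))))))))))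

noncomputable def dC1d_i252 : IL := (.s true (nat_lit 3) (nat_lit 56) (nat_lit 2) (nat_lit 1) (nat_lit 2) true (nat_lit 13) true (nat_lit 17) false (nat_lit 6) true (nat_lit 17) true (nat_lit 18) (.s true (nat_lit 1) (nat_lit 57) (nat_lit 2) (nat_lit 1) (nat_lit 2) true (nat_lit 13) true (nat_lit 17) false (nat_lit 6) true (nat_lit 17) true (nat_lit 18) (.s true (nat_lit 3) (nat_lit 59) (nat_lit 2) (nat_lit 1) (nat_lit 2) true (nat_lit 13) true (nat_lit 17) false (nat_lit 6) true (nat_lit 17) true (nat_lit 18) (.s false (nat_lit 3) (nat_lit 60) (nat_lit 2) (nat_lit 1) (nat_lit 2) true (nat_lit 13) true (nat_lit 17) false (nat_lit 6) true (nat_lit 17) true (nat_lit 18) (.s true (nat_lit 1) (nat_lit 61) (nat_lit 2) (nat_lit 1) (nat_lit 2) true (nat_lit 13) true (nat_lit 17) false (nat_lit 6) true (nat_lit 17) true (nat_lit 18) (.s true (nat_lit 3) (nat_lit 65) (nat_lit 2) (nat_lit 1) (nat_lit 2) true (nat_lit 13)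 true (nat_lit 17) false (nat_lit 6) true (nat_lit 17) true (nat_lit 18) (.s true (nat_lit 1) (nat_lit 57) (nat_lit 2) (nat_lit 2) (nat_lit 1) true (nat_lit 14) true (nat_lit 18) false (nat_lit 6) true (nat_lit 17) true (nat_lit 17) (.s false (nat_lit 3) (nat_lit 59) (nat_lit 2) (nat_lit 2) (nat_lit 1) true (nat_lit 14) true (nat_lit 18) false (nat_lit 6) true (nat_lit 17) true (nat_lit 17) (.s false (nat_lit 3) (nat_lit 62) (nat_lit 2) (nat_lit 2) (nat_lit 1) true (nat_lit 14) true (nat_lit 18) false (nat_lit 6) true (nat_lit 17) true (nat_lit 17) (.s true (nat_lit 1) (nat_lit 63) (nat_lit 2) (nat_lit 2) (nat_lit 1) true (nat_lit 14) true (nat_lit 18) false (nat_lit 6) true (nat_lit 17) true (nat_lit 17) (.s false (nat_lit 1) (nat_lit 65) (nat_lit 2) (nat_lit 2) (nat_lit 1) true (nat_lit 14) true (nat_lit 18) false (nat_lit 6) true (nat_lit 17) true (nat_lit 17) (.s false (nat_lit 3) (nat_lit 66) (nat_lit 0) (nat_lit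 2) (nat_lit 2) true (nat_lit 15) true (nat_lit 17) false (nat_lit 7) true (nat_lit 19) true (nat_lit 17) (.s false (nat_lit 1) (nat_lit 67) (nat_lit 0) (nat_lit 2) (nat_lit 2) true (nat_lit 15) true (nat_lit 17) false (nat_lit 7) true (nat_lit 19) true (nat_lit 17) (.s false (nat_lit 2) (nat_lit 70) (nat_lit 0) (nat_lit 2) (nat_lit 2) true (nat_lit 15) true (nat_lit 17) false (nat_lit 7) true (nat_lit 19) true (nat_lit 17) (.s true (nat_lit 2) (nat_lit 72) (nat_lit 0) (nat_lit 2) (nat_lit 2) true (nat_lit 15) true (nat_lit 17) false (nat_lit 7) true (nat_lit 19) true (nat_lit 17) (.s false (nat_lit 3) (nat_lit 74) (nat_lit 0) (nat_lit 2) (nat_lit 2) true (nat_lit 15) true (nat_lit 17) false (nat_lit 7) true (nat_lit 19) true (nat_lit 17) (.s true (nat_lit 2) (nat_lit 75) (nat_lit 0) (nat_lit 2) (nat_lit 2) true (nat_lit 15) true (nat_lit 17) false (nat_lit 7) true (nat_lit 19) true (nat_lit 17) (.s false (nat_lit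 3) (nat_lit 76) (nat_lit 0) (nat_lit 2) (nat_lit 2) true (nat_lit 15) true (nat_lit 17) false (nat_lit 7) true (nat_lit 19) true (nat_lit 17) (.s false (nat_lit 1) (nat_lit 66) (nat_lit 2) (nat_lit 0) (nat_lit 2) true (nat_lit 13) true (nat_lit 17) false (nat_lit 7) true (nat_lit 17) true (nat_lit 19) (.s false (nat_lit 2) (nat_lit 74) (nat_lit 2) (nat_lit 0) (nat_lit 2) true (nat_lit 13) true (nat_lit 17) false (nat_lit 7) true (nat_lit 17) true (nat_lit 19) (.s true (nat_lit 2) (nat_lit 75) (nat_lit 2) (nat_lit 0) (nat_lit 2) true (nat_lit 13) true (nat_lit 17) false (nat_lit 7) true (nat_lit 17) true (nat_lit 19) (.s true (nat_lit 1) (nat_lit 76) (nat_lit 2) (nat_lit 0) (nat_lit 2) true (nat_lit 13) true (nat_lit 17) false (nat_lit 7) true (nat_lit 17) true (nat_lit 19) (.s false (nat_lit 1) (nat_lit 67) (nat_lit 2) (nat_lit 2) (nat_lit 0) true (nat_lit 15) true (nat_lit 19) false (nat_lit 7) true (nat_lit 17)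 true (nat_lit 17) (.s false (nat_lit 2) (nat_lit 72) (nat_lit 2) (nat_lit 2) (nat_lit 0) true (nat_lit 15) true (nat_lit 19) false (nat_lit 7) true (nat_lit 17) true (nat_lit 17) (.s true (nat_lit 2) (nat_lit 73) (nat_lit 2) (nat_lit 2) (nat_lit 0) true (nat_lit 15) true (nat_lit 19) false (nat_lit 7) true (nat_lit 17) true (nat_lit 17) dC1d_i251)))))))))))))))))))))))))

noncomputable def dC1d_i253 : IL := (.s false (nat_lit 2) (nat_lit 45) (nat_lit 0) (nat_lit 3) (nat_lit 2) true (nat_lit 15) true (nat_lit 17) false (nat_lit 3) true (nat_lit 19) true (nat_lit 16) (.s false (nat_lit 1) (nat_lit 45) (nat_lit 2) (nat_lit 0) (nat_lit 3) true (nat_lit 9) true (nat_lit 16) false (nat_lit 3) true (nat_lit 17) true (nat_lit 19) (.s false (nat_lit 1) (nat_lit 44) (nat_lit 2) (nat_lit 3) (nat_lit 0) true (nat_lit 15) true (nat_lit 19) false (nat_lit 3) true (nat_lit 17) true (nat_lit 16) (.s false (nat_lit 1) (nat_lit 45)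 (nat_lit 3) (nat_lit 0) (nat_lit 2) true (nat_lit 9) true (nat_lit 17) false (nat_lit 3) true (nat_lit 16) true (nat_lit 19) (.s false (nat_lit 2) (nat_lit 44) (nat_lit 4) (nat_lit 1) (nat_lit 0) true (nat_lit 10) true (nat_lit 19) false (nat_lit 3) true (nat_lit 15) true (nat_lit 18) (.s false (nat_lit 1) (nat_lit 45) (nat_lit 4) (nat_lit 1) (nat_lit 0) true (nat_lit 10) true (nat_lit 19) false (nat_lit 3) true (nat_lit 15) true (nat_lit 18) (.s true (nat_lit 1) (nat_lit 45) (nat_lit 5) (nat_lit 0) (nat_lit 0) true (nat_lit 9) true (nat_lit 19) false (nat_lit 3) true (nat_lit 14) true (nat_lit 19) (.s false (nat_lit 3) (nat_lit 46) (nat_lit 0) (nat_lit 1) (nat_lit 3) true (nat_lit 12) true (nat_lit 16) false (nat_lit 4) true (nat_lit 19) true (nat_lit 18) (.s true (nat_lit 2) (nat_lit 46) (nat_lit 0) (nat_lit 3) (nat_lit 1) true (nat_lit 16) true (nat_lit 18) false (nat_lit 4) true (nat_lit 19) true (nat_lit 16)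 (.s false (nat_lit 3) (nat_lit 46) (nat_lit 1) (nat_lit 3) (nat_lit 0) true (nat_lit 16) true (nat_lit 19) false (nat_lit 4) true (nat_lit 18) true (nat_lit 16) (.s true (nat_lit 2) (nat_lit 46) (nat_lit 3) (nat_lit 0) (nat_lit 1) true (nat_lit 11) true (nat_lit 18) false (nat_lit 4) true (nat_lit 16) true (nat_lit 19) (.s false (nat_lit 1) (nat_lit 46) (nat_lit 3) (nat_lit 1) (nat_lit 0) true (nat_lit 12) true (nat_lit 19) false (nat_lit 4) true (nat_lit 16) true (nat_lit 18) (.s false (nat_lit 1) (nat_lit 48) (nat_lit 2) (nat_lit 2) (nat_lit 2) true (nat_lit 13) true (nat_lit 17) false (nat_lit 5) true (nat_lit 17) true (nat_lit 17) (.s false (nat_lit 2) (nat_lit 49) (nat_lit 2) (nat_lit 2) (nat_lit 2) true (nat_lit 13) true (nat_lit 17) false (nat_lit 5) true (nat_lit 17) true (nat_lit 17) (.s true (nat_lit 1) (nat_lit 53) (nat_lit 2) (nat_lit 2) (nat_lit 2) true (nat_lit 13) true (nat_lit 17) false (nat_lit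 5) true (nat_lit 17) true (nat_lit 17) (.s false (nat_lit 1) (nat_lit 55) (nat_lit 1) (nat_lit 2) (nat_lit 2) true (nat_lit 14) true (nat_lit 17) false (nat_lit 6) true (nat_lit 18) true (nat_lit 17) (.s true (nat_lit 3) (nat_lit 56) (nat_lit 1) (nat_lit 2) (nat_lit 2) true (nat_lit 14) true (nat_lit 17) false (nat_lit 6) true (nat_lit 18) true (nat_lit 17) (.s true (nat_lit 3) (nat_lit 57) (nat_lit 1) (nat_lit 2) (nat_lit 2) true (nat_lit 14) true (nat_lit 17) false (nat_lit 6) true (nat_lit 18) true (nat_lit 17) (.s false (nat_lit 1) (nat_lit 58) (nat_lit 1) (nat_lit 2) (nat_lit 2) true (nat_lit 14) true (nat_lit 17) false (nat_lit 6) true (nat_lit 18) true (nat_lit 17) (.s true (nat_lit 1) (nat_lit 60) (nat_lit 1) (nat_lit 2) (nat_lit 2) true (nat_lit 14) true (nat_lit 17) false (nat_lit 6) true (nat_lit 18) true (nat_lit 17) (.s false (nat_lit 1) (nat_lit 61) (nat_lit 1) (nat_lit 2) (nat_lit 2) true (nat_lit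 14) true (nat_lit 17) false (nat_lit 6) true (nat_lit 18) true (nat_lit 17) (.s false (nat_lit 2) (nat_lit 62) (nat_lit 1) (nat_lit 2) (nat_lit 2) true (nat_lit 14) true (nat_lit 17) false (nat_lit 6) true (nat_lit 18) true (nat_lit 17) (.s false (nat_lit 2) (nat_lit 63) (nat_lit 1) (nat_lit 2) (nat_lit 2) true (nat_lit 14) true (nat_lit 17) false (nat_lit 6) true (nat_lit 18) true (nat_lit 17) (.s true (nat_lit 2) (nat_lit 65) (nat_lit 1) (nat_lit 2) (nat_lit 2) true (nat_lit 14) true (nat_lit 17) false (nat_lit 6) true (nat_lit 18) true (nat_lit 17) (.s true (nat_lit 3) (nat_lit 55) (nat_lit 2) (nat_lit 1) (nat_lit 2) true (nat_lit 13) true (nat_lit 17) false (nat_lit 6) true (nat_lit 17) true (nat_lit 18) dC1d_i252)))))))))))))))))))))))))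

noncomputable def dC1d_i254 : IL := (.s false (nat_lit 2) (nat_lit 29) (nat_lit 1) (nat_lit 2) (nat_lit 5) true (nat_lit 8) true (nat_lit 14) true (nat_lit 1) true (nat_lit 18) true (nat_lit 17) (.s false (nat_lit 3) (nat_lit 28) (nat_lit 1) (nat_lit 5) (nat_lit 2) true (nat_lit 14) true (nat_lit 17) true (nat_lit 1) true (nat_lit 18) true (nat_lit 14) (.s true (nat_lit 1) (nat_lit 30) (nat_lit 1) (nat_lit 6) (nat_lit 1) false (nat_lit 21) true (nat_lit 18) true (nat_lit 1) true (nat_lit 18) true (nat_lit 13) (.s false (nat_lit 3) (nat_lit 28) (nat_lit 2) (nat_lit 1) (nat_lit 5) true (nat_lit 6) true (nat_lit 14) true (nat_lit 1) true (nat_lit 17) true (nat_lit 18) (.s false (nat_lit 2) (nat_lit 29) (nat_lit 2) (nat_lit 1) (nat_lit 5) true (nat_lit 6) true (nat_lit 14) true (nat_lit 1) true (nat_lit 17) true (nat_lit 18) (.s true (nat_lit 2) (nat_lit 28) (nat_lit 2) (nat_lit 5) (nat_lit 1) true (nat_lit 14) true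 (nat_lit 18) true (nat_lit 1) true (nat_lit 17) true (nat_lit 14) (.s false (nat_lit 2) (nat_lit 28) (nat_lit 5) (nat_lit 1) (nat_lit 2) true (nat_lit 6) true (nat_lit 17) true (nat_lit 1) true (nat_lit 14) true (nat_lit 18) (.s false (nat_lit 2) (nat_lit 28) (nat_lit 5) (nat_lit 2) (nat_lit 1) true (nat_lit 8) true (nat_lit 18) true (nat_lit 1) true (nat_lit 14) true (nat_lit 17) (.s true (nat_lit 3) (nat_lit 34) (nat_lit 0) (nat_lit 1) (nat_lit 6) true (nat_lit 7) true (nat_lit 13) true (nat_lit 0) true (nat_lit 19) true (nat_lit 18) (.s true (nat_lit 1) (nat_lit 31) (nat_lit 0) (nat_lit 2) (nat_lit 5) true (nat_lit 9) true (nat_lit 14) true (nat_lit 0) true (nat_lit 19) true (nat_lit 17) (.s false (nat_lit 3) (nat_lit 31) (nat_lit 1) (nat_lit 2) (nat_lit 4) true (nat_lit 9) true (nat_lit 15) true (nat_lit 0) true (nat_lit 18) true (nat_lit 17) (.s true (nat_lit 1) (nat_lit 36) (nat_lit 1) (nat_lit 6) (nat_lit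 0) true (nat_lit 16) true (nat_lit 19) true (nat_lit 0) true (nat_lit 18) true (nat_lit 13) (.s false (nat_lit 2) (nat_lit 31) (nat_lit 2) (nat_lit 1) (nat_lit 4) true (nat_lit 7) true (nat_lit 15) true (nat_lit 0) true (nat_lit 17) true (nat_lit 18) (.s false (nat_lit 3) (nat_lit 34) (nat_lit 2) (nat_lit 3) (nat_lit 2) true (nat_lit 13) true (nat_lit 17) true (nat_lit 0) true (nat_lit 17) true (nat_lit 16) (.s true (nat_lit 3) (nat_lit 31) (nat_lit 2) (nat_lit 4) (nat_lit 1) true (nat_lit 14) true (nat_lit 18) true (nat_lit 0) true (nat_lit 17) true (nat_lit 15) (.s true (nat_lit 1) (nat_lit 31) (nat_lit 3) (nat_lit 2) (nat_lit 2) true (nat_lit 9) true (nat_lit 17) true (nat_lit 0) true (nat_lit 16) true (nat_lit 17) (.s false (nat_lit 3) (nat_lit 34) (nat_lit 6) (nat_lit 0) (nat_lit 1) true (nat_lit 6) true (nat_lit 18) true (nat_lit 0) true (nat_lit 13) true (nat_lit 19) (.s false (nat_lit 2) (nat_lit 35) (nat_lit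 6) (nat_lit 0) (nat_lit 1) true (nat_lit 6) true (nat_lit 18) true (nat_lit 0) true (nat_lit 13) true (nat_lit 19) (.s true (nat_lit 2) (nat_lit 39) (nat_lit 6) (nat_lit 0) (nat_lit 0) true (nat_lit 7) true (nat_lit 19) false (nat_lit 1) true (nat_lit 13) true (nat_lit 19) (.s true (nat_lit 3) (nat_lit 40) (nat_lit 0) (nat_lit 1) (nat_lit 5) true (nat_lit 9) true (nat_lit 14) false (nat_lit 2) true (nat_lit 19) true (nat_lit 18) (.s true (nat_lit 3) (nat_lit 40) (nat_lit 1) (nat_lit 2) (nat_lit 3) true (nat_lit 11) true (nat_lit 16) false (nat_lit 2) true (nat_lit 18) true (nat_lit 17) (.s true (nat_lit 1) (nat_lit 42) (nat_lit 1) (nat_lit 5) (nat_lit 0) true (nat_lit 16) true (nat_lit 19) false (nat_lit 2) true (nat_lit 18) true (nat_lit 14) (.s true (nat_lit 3) (nat_lit 40) (nat_lit 4) (nat_lit 1) (nat_lit 1) true (nat_lit 9) true (nat_lit 18) false (nat_lit 2) true (nat_lit 15) true (nat_lit 18) (.s false (nat_lit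 1) (nat_lit 41) (nat_lit 4) (nat_lit 1) (nat_lit 1) true (nat_lit 9) true (nat_lit 18) false (nat_lit 2) true (nat_lit 15) true (nat_lit 18) (.s false (nat_lit 1) (nat_lit 45) (nat_lit 0) (nat_lit 0) (nat_lit 5) true (nat_lit 9) true (nat_lit 14) false (nat_lit 3) true (nat_lit 19) true (nat_lit 19) dC1d_i253)))))))))))))))))))))))))

noncomputable def dC1d_i255 : IL := (.s false (nat_lit 1) (nat_lit 18) (nat_lit 2) (nat_lit 7) (nat_lit 1) true (nat_lit 14) true (nat_lit 18) true (nat_lit 5) true (nat_lit 17) true (nat_lit 12) (.s true (nat_lit 1) (nat_lit 18) (nat_lit 3) (nat_lit 3) (nat_lit 2) true (nat_lit 9) true (nat_lit 17) true (nat_lit 5) true (nat_lit 16) true (nat_lit 16) (.s false (nat_lit 1) (nat_lit 18) (nat_lit 7) (nat_lit 2) (nat_lit 1) true (nat_lit 4) true (nat_lit 18) true (nat_lit 5) true (nat_lit 12) true (nat_lit 17) (.s false (nat_lit 1) (nat_lit 18) (nat_lit 8) (nat_lit 0) (nat_lit 2) true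 (nat_lit 2) true (nat_lit 17) true (nat_lit 5) true (nat_lit 11) true (nat_lit 19) (.s true (nat_lit 2) (nat_lit 18) (nat_lit 9) (nat_lit 1) (nat_lit 1) true (nat_lit 3) true (nat_lit 18) true (nat_lit 5) true (nat_lit 10) true (nat_lit 18) (.s false (nat_lit 1) (nat_lit 18) (nat_lit 10) (nat_lit 1) (nat_lit 0) true (nat_lit 3) true (nat_lit 19) true (nat_lit 5) true (nat_lit 9) true (nat_lit 18) (.s true (nat_lit 1) (nat_lit 18) (nat_lit 11) (nat_lit 1) (nat_lit 0) true (nat_lit 3) true (nat_lit 19) true (nat_lit 5) true (nat_lit 9) true (nat_lit 18) (.s true (nat_lit 3) (nat_lit 19) (nat_lit 2) (nat_lit 2) (nat_lit 6) true (nat_lit 5) true (nat_lit 13) true (nat_lit 4) true (nat_lit 17) true (nat_lit 17) (.s true (nat_lit 1) (nat_lit 19) (nat_lit 2) (nat_lit 6) (nat_lit 2) true (nat_lit 13) true (nat_lit 17) true (nat_lit 4) true (nat_lit 17) true (nat_lit 13) (.s false (nat_lit 1) (nat_lit 21) (nat_lit 1) (nat_lit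 2) (nat_lit 6) true (nat_lit 6) true (nat_lit 13) true (nat_lit 3) true (nat_lit 18) true (nat_lit 17) (.s true (nat_lit 3) (nat_lit 20) (nat_lit 1) (nat_lit 6) (nat_lit 2) true (nat_lit 14) true (nat_lit 17) true (nat_lit 3) true (nat_lit 18) true (nat_lit 13) (.s false (nat_lit 2) (nat_lit 22) (nat_lit 2) (nat_lit 1) (nat_lit 6) true (nat_lit 5) true (nat_lit 13) true (nat_lit 3) true (nat_lit 17) true (nat_lit 18) (.s true (nat_lit 1) (nat_lit 20) (nat_lit 2) (nat_lit 2) (nat_lit 5) true (nat_lit 6) true (nat_lit 14) true (nat_lit 3) true (nat_lit 17) true (nat_lit 17) (.s false (nat_lit 1) (nat_lit 21) (nat_lit 2) (nat_lit 2) (nat_lit 5) true (nat_lit 6) true (nat_lit 14) true (nat_lit 3) true (nat_lit 17) true (nat_lit 17) (.s true (nat_lit 1) (nat_lit 22) (nat_lit 2) (nat_lit 2) (nat_lit 5) true (nat_lit 6) true (nat_lit 14) true (nat_lit 3) true (nat_lit 17) true (nat_lit 17) (.s false (nat_lit 2) (nat_lit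 20) (nat_lit 2) (nat_lit 6) (nat_lit 1) true (nat_lit 14) true (nat_lit 18) true (nat_lit 3) true (nat_lit 17) true (nat_lit 13) (.s false (nat_lit 2) (nat_lit 21) (nat_lit 2) (nat_lit 6) (nat_lit 1) true (nat_lit 14) true (nat_lit 18) true (nat_lit 3) true (nat_lit 17) true (nat_lit 13) (.s false (nat_lit 3) (nat_lit 22) (nat_lit 2) (nat_lit 6) (nat_lit 1) true (nat_lit 14) true (nat_lit 18) true (nat_lit 3) true (nat_lit 17) true (nat_lit 13) (.s false (nat_lit 1) (nat_lit 20) (nat_lit 6) (nat_lit 1) (nat_lit 2) true (nat_lit 5) true (nat_lit 17) true (nat_lit 3) true (nat_lit 13) true (nat_lit 18) (.s true (nat_lit 3) (nat_lit 24) (nat_lit 0) (nat_lit 2) (nat_lit 6) true (nat_lit 7) true (nat_lit 13) true (nat_lit 2) true (nat_lit 19) true (nat_lit 17) (.s false (nat_lit 1) (nat_lit 25) (nat_lit 0) (nat_lit 2) (nat_lit 6) true (nat_lit 7) true (nat_lit 13) true (nat_lit 2) true (nat_lit 19) true (nat_lit 17)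 (.s true (nat_lit 3) (nat_lit 24) (nat_lit 2) (nat_lit 2) (nat_lit 4) true (nat_lit 7) true (nat_lit 15) true (nat_lit 2) true (nat_lit 17) true (nat_lit 17) (.s true (nat_lit 1) (nat_lit 25) (nat_lit 2) (nat_lit 2) (nat_lit 4) true (nat_lit 7) true (nat_lit 15) true (nat_lit 2) true (nat_lit 17) true (nat_lit 17) (.s true (nat_lit 3) (nat_lit 29) (nat_lit 1) (nat_lit 1) (nat_lit 6) true (nat_lit 6) true (nat_lit 13) true (nat_lit 1) true (nat_lit 18) true (nat_lit 18) (.s false (nat_lit 2) (nat_lit 30) (nat_lit 1) (nat_lit 1) (nat_lit 6) true (nat_lit 6) true (nat_lit 13) true (nat_lit 1) true (nat_lit 18) true (nat_lit 18) dC1d_i254)))))))))))))))))))))))))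

noncomputable def dC1d_i256 : IL := (.s true (nat_lit 1) (nat_lit 14) (nat_lit 2) (nat_lit 8) (nat_lit 2) true (nat_lit 13) true (nat_lit 17) true (nat_lit 7) true (nat_lit 17) true (nat_lit 11) (.s false (nat_lit 3) (nat_lit 15) (nat_lit 2) (nat_lit 8) (nat_lit 2) true (nat_lit 13) true (nat_lit 17) true (nat_lit 7) true (nat_lit 17) true (nat_lit 11) (.s true (nat_lit 3) (nat_lit 14) (nat_lit 3) (nat_lit 1) (nat_lit 6) true (nat_lit 0) true (nat_lit 13) true (nat_lit 7) true (nat_lit 16) true (nat_lit 18) (.s true (nat_lit 1) (nat_lit 15) (nat_lit 6) (nat_lit 3) (nat_lit 1) true (nat_lit 6) true (nat_lit 18) true (nat_lit 7) true (nat_lit 13) true (nat_lit 16) (.s false (nat_lit 1) (nat_lit 15) (nat_lit 8) (nat_lit 2) (nat_lit 2) true (nat_lit 2) true (nat_lit 17) true (nat_lit 7) true (nat_lit 11) true (nat_lit 17) (.s false (nat_lit 2) (nat_lit 16) (nat_lit 0) (nat_lit 0) (nat_lit 16) true (nat_lit 0) true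 (nat_lit 6) true (nat_lit 6) true (nat_lit 19) true (nat_lit 19) (.s true (nat_lit 1) (nat_lit 17) (nat_lit 0) (nat_lit 0) (nat_lit 16) true (nat_lit 0) true (nat_lit 6) true (nat_lit 6) true (nat_lit 19) true (nat_lit 19) (.s true (nat_lit 3) (nat_lit 17) (nat_lit 0) (nat_lit 1) (nat_lit 15) true (nat_lit 1) true (nat_lit 7) true (nat_lit 6) true (nat_lit 19) true (nat_lit 18) (.s false (nat_lit 2) (nat_lit 17) (nat_lit 0) (nat_lit 15) (nat_lit 1) true (nat_lit 16) true (nat_lit 18) true (nat_lit 6) true (nat_lit 19) true (nat_lit 7) (.s false (nat_lit 3) (nat_lit 16) (nat_lit 0) (nat_lit 17) (nat_lit 0) false (nat_lit 20) true (nat_lit 19) true (nat_lit 6) true (nat_lit 19) true (nat_lit 6) (.s false (nat_lit 1) (nat_lit 16) (nat_lit 1) (nat_lit 9) (nat_lit 2) true (nat_lit 14) true (nat_lit 17) true (nat_lit 6) true (nat_lit 18) true (nat_lit 10) (.s true (nat_lit 1) (nat_lit 17) (nat_lit 1) (nat_lit 15) (nat_lit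 0) true (nat_lit 16) true (nat_lit 19) true (nat_lit 6) true (nat_lit 18) true (nat_lit 7) (.s true (nat_lit 2) (nat_lit 17) (nat_lit 2) (nat_lit 1) (nat_lit 9) true (nat_lit 1) true (nat_lit 10) true (nat_lit 6) true (nat_lit 17) true (nat_lit 18) (.s false (nat_lit 2) (nat_lit 16) (nat_lit 2) (nat_lit 7) (nat_lit 2) true (nat_lit 13) true (nat_lit 17) true (nat_lit 6) true (nat_lit 17) true (nat_lit 12) (.s false (nat_lit 3) (nat_lit 16) (nat_lit 2) (nat_lit 9) (nat_lit 1) true (nat_lit 14) true (nat_lit 18) true (nat_lit 6) true (nat_lit 17) true (nat_lit 10) (.s true (nat_lit 1) (nat_lit 17) (nat_lit 6) (nat_lit 3) (nat_lit 0) true (nat_lit 7) true (nat_lit 19) true (nat_lit 6) true (nat_lit 13) true (nat_lit 16) (.s true (nat_lit 3) (nat_lit 16) (nat_lit 9) (nat_lit 1) (nat_lit 2) true (nat_lit 1) true (nat_lit 17) true (nat_lit 6) true (nat_lit 10) true (nat_lit 18) (.s true (nat_lit 2) (nat_lit 17) (nat_lit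 9) (nat_lit 1) (nat_lit 2) true (nat_lit 1) true (nat_lit 17) true (nat_lit 6) true (nat_lit 10) true (nat_lit 18) (.s false (nat_lit 1) (nat_lit 18) (nat_lit 0) (nat_lit 0) (nat_lit 13) true (nat_lit 2) true (nat_lit 8) true (nat_lit 5) true (nat_lit 19) true (nat_lit 19) (.s true (nat_lit 2) (nat_lit 18) (nat_lit 0) (nat_lit 1) (nat_lit 11) true (nat_lit 3) true (nat_lit 9) true (nat_lit 5) true (nat_lit 19) true (nat_lit 18) (.s true (nat_lit 2) (nat_lit 18) (nat_lit 0) (nat_lit 2) (nat_lit 8) true (nat_lit 4) true (nat_lit 11) true (nat_lit 5) true (nat_lit 19) true (nat_lit 17) (.s true (nat_lit 2) (nat_lit 18) (nat_lit 0) (nat_lit 8) (nat_lit 2) true (nat_lit 15) true (nat_lit 17) true (nat_lit 5) true (nat_lit 19) true (nat_lit 11) (.s false (nat_lit 2) (nat_lit 18) (nat_lit 1) (nat_lit 1) (nat_lit 9) true (nat_lit 3) true (nat_lit 10) true (nat_lit 5) true (nat_lit 18) true (nat_lit 18) (.s false (nat_lit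 3) (nat_lit 18) (nat_lit 1) (nat_lit 3) (nat_lit 4) true (nat_lit 9) true (nat_lit 15) true (nat_lit 5) true (nat_lit 18) true (nat_lit 16) (.s true (nat_lit 1) (nat_lit 18) (nat_lit 1) (nat_lit 11) (nat_lit 0) true (nat_lit 16) true (nat_lit 19) true (nat_lit 5) true (nat_lit 18) true (nat_lit 9) dC1d_i255)))))))))))))))))))))))))

noncomputable def dC1d_i257 : IL := (.e false (nat_lit 3) (nat_lit 279) (nat_lit 1) (nat_lit 18) (.e true (nat_lit 2) (nat_lit 292) (nat_lit 0) (nat_lit 19) (.e true (nat_lit 2) (nat_lit 293) (nat_lit 0) (nat_lit 19) (.e false (nat_lit 3) (nat_lit 294) (nat_lit 0) (nat_lit 19) (.e true (nat_lit 3) (nat_lit 295) (nat_lit 0) (nat_lit 19) (.e true (nat_lit 1) (nat_lit 296) (nat_lit 0) (nat_lit 19) (.e true (nat_lit 2) (nat_lit 298) (nat_lit 0) (nat_lit 19) (.e true (nat_lit 2) (nat_lit 299) (nat_lit 0) (nat_lit 19) (.e true (nat_lit 2) (nat_lit 300) (nat_lit 0) (nat_lit 19) (.e true (nat_lit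 2) (nat_lit 301) (nat_lit 0) (nat_lit 19) (.e false (nat_lit 1) (nat_lit 302) (nat_lit 0) (nat_lit 19) (.e true (nat_lit 3) (nat_lit 304) (nat_lit 0) (nat_lit 19) (.e false (nat_lit 3) (nat_lit 305) (nat_lit 0) (nat_lit 19) (.e false (nat_lit 3) (nat_lit 308) (nat_lit 0) (nat_lit 19) (.e true (nat_lit 3) (nat_lit 310) (nat_lit 0) (nat_lit 19) (.e true (nat_lit 1) (nat_lit 297) (nat_lit 0) (nat_lit 19) (.e true (nat_lit 1) (nat_lit 316) (nat_lit 0) (nat_lit 19) (.e true (nat_lit 2) (nat_lit 290) (nat_lit 0) (nat_lit 19) (.e false (nat_lit 2) (nat_lit 144) (nat_lit 5) (nat_lit 14) (.e true (nat_lit 2) (nat_lit 282) (nat_lit 1) (nat_lit 18) (.e false (nat_lit 2) (nat_lit 160) (nat_lit 4) (nat_lit 15) (.u (nat_lit 2) (.n (nat_lit 0) (nat_lit 1) (.p (nat_lit 1) (nat_lit 3) (.p (nat_lit 2) (nat_lit 1) (.n (nat_lit 3) (nat_lit 3) (.p (nat_lit 4) (nat_lit 2) (.p (nat_lit 8) (nat_lit 1) (.p (nat_lit 10) (nat_lit 2) (.n (nat_lit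 11) (nat_lit 2) (.n (nat_lit 14) (nat_lit 2) (.n (nat_lit 15) (nat_lit 1) (.p (nat_lit 17) (nat_lit 3) (.n (nat_lit 18) (nat_lit 1) (.p (nat_lit 20) (nat_lit 2) (.n (nat_lit 26) (nat_lit 1) (.n (nat_lit 27) (nat_lit 2) (.p (nat_lit 28) (nat_lit 1) (.p (nat_lit 29) (nat_lit 1) (.n (nat_lit 31) (nat_lit 2) (.n (nat_lit 32) (nat_lit 3) (.p (nat_lit 33) (nat_lit 3) (.p (nat_lit 34) (nat_lit 2) (.p (nat_lit 35) (nat_lit 1) (.p (nat_lit 36) (nat_lit 1) (.p (nat_lit 37) (nat_lit 1) (.p (nat_lit 38) (nat_lit 1) (.n (nat_lit 39) (nat_lit 2) (.p (nat_lit 40) (nat_lit 1) (.p (nat_lit 41) (nat_lit 2) (.p (nat_lit 49) (nat_lit 2) (.p (nat_lit 50) (nat_lit 1) (.n (nat_lit 51) (nat_lit 1) (.p (nat_lit 53) (nat_lit 1) (.p (nat_lit 54) (nat_lit 2) (.n (nat_lit 55) (nat_lit 2) (.n (nat_lit 60) (nat_lit 1) (.n (nat_lit 70) (nat_lit 1) (.n (nat_lit 71) (nat_lit 1) (.p (nat_lit 74) (nat_lit 1) (.p (nat_lit 75) (nat_lit 1) (.n (nat_lit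 76) (nat_lit 1) (.n (nat_lit 85) (nat_lit 1) (.n (nat_lit 106) (nat_lit 1) (.n (nat_lit 116) (nat_lit 1) (.p (nat_lit 118) (nat_lit 1) (.p (nat_lit 122) (nat_lit 1) (.n (nat_lit 125) (nat_lit 1) (.p (nat_lit 131) (nat_lit 1) (.p (nat_lit 132) (nat_lit 1) (.p (nat_lit 133) (nat_lit 1) (.n (nat_lit 155) (nat_lit 1) (.p (nat_lit 158) (nat_lit 1) (.n (nat_lit 169) (nat_lit 1) (.n (nat_lit 170) (nat_lit 1) (.n (nat_lit 172) (nat_lit 1) (.p (nat_lit 179) (nat_lit 1) (.p (nat_lit 199) (nat_lit 1) (.p (nat_lit 222) (nat_lit 1) (.p (nat_lit 225) (nat_lit 1) (.p (nat_lit 231) (nat_lit 1) (.n (nat_lit 236) (nat_lit 1) .z)))))))))))))))))))))))))))))))))))))))))))))))))))))))))))) (.u (nat_lit 2) (.n (nat_lit 242) (nat_lit 1) (.p (nat_lit 244) (nat_lit 1) (.p (nat_lit 246) (nat_lit 1) (.p (nat_lit 251) (nat_lit 3) (.n (nat_lit 252) (nat_lit 1) (.p (nat_lit 253) (nat_lit 1) (.n (nat_lit 254) (nat_lit 2) (.n (nat_lit 255) (nat_lit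 1) (.p (nat_lit 257) (nat_lit 3) (.n (nat_lit 258) (nat_lit 2) (.n (nat_lit 259) (nat_lit 1) (.n (nat_lit 260) (nat_lit 3) (.p (nat_lit 261) (nat_lit 6) (.n (nat_lit 262) (nat_lit 1) (.p (nat_lit 266) (nat_lit 1) (.n (nat_lit 269) (nat_lit 1) (.p (nat_lit 270) (nat_lit 3) (.n (nat_lit 271) (nat_lit 2) (.p (nat_lit 272) (nat_lit 1) (.p (nat_lit 273) (nat_lit 2) (.n (nat_lit 274) (nat_lit 2) (.n (nat_lit 275) (nat_lit 3) (.p (nat_lit 276) (nat_lit 1) (.n (nat_lit 277) (nat_lit 1) (.n (nat_lit 278) (nat_lit 2) (.p (nat_lit 279) (nat_lit 2) (.p (nat_lit 280) (nat_lit 1) (.n (nat_lit 284) (nat_lit 1) (.n (nat_lit 288) (nat_lit 1) (.n (nat_lit 289) (nat_lit 3) (.n (nat_lit 291) (nat_lit 1) (.n (nat_lit 294) (nat_lit 1) (.p (nat_lit 296) (nat_lit 1) (.p (nat_lit 298) (nat_lit 1) (.p (nat_lit 302) (nat_lit 1) (.n (nat_lit 313) (nat_lit 1) (.n (nat_lit 314) (nat_lit 1) (.n (nat_lit 316) (nat_lit 1) (.n (nat_lit 327) (nat_lit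 15) (.p (nat_lit 328) (nat_lit 3) (.n (nat_lit 329) (nat_lit 1) (.n (nat_lit 330) (nat_lit 35) (.p (nat_lit 331) (nat_lit 14) (.p (nat_lit 332) (nat_lit 21) (.p (nat_lit 333) (nat_lit 10) (.p (nat_lit 334) (nat_lit 17) (.n (nat_lit 335) (nat_lit 10) (.p (nat_lit 336) (nat_lit 1) (.p (nat_lit 337) (nat_lit 12) (.p (nat_lit 338) (nat_lit 10) (.n (nat_lit 339) (nat_lit 23) (.n (nat_lit 340) (nat_lit 7) (.n (nat_lit 341) (nat_lit 2) (.n (nat_lit 342) (nat_lit 18) (.p (nat_lit 343) (nat_lit 2) (.n (nat_lit 344) (nat_lit 10) (.p (nat_lit 345) (nat_lit 5) (.n (nat_lit 346) (nat_lit 10) (.p (nat_lit 347) (nat_lit 7) (.n (nat_lit 348) (nat_lit 18) .z)))))))))))))))))))))))))))))))))))))))))))))))))))))))))))) (.u (nat_lit 2) (.p (nat_lit 349) (nat_lit 2) (.n (nat_lit 350) (nat_lit 30) (.n (nat_lit 351) (nat_lit 18) (.n (nat_lit 352) (nat_lit 13) (.p (nat_lit 353) (nat_lit 3) (.n (nat_lit 354) (nat_lit 8) (.p (nat_lit 355)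 (nat_lit 6) (.p (nat_lit 356) (nat_lit 12) (.p (nat_lit 357) (nat_lit 6) (.n (nat_lit 358) (nat_lit 1) (.n (nat_lit 359) (nat_lit 8) (.n (nat_lit 360) (nat_lit 4) (.p (nat_lit 361) (nat_lit 14) (.n (nat_lit 362) (nat_lit 12) (.p (nat_lit 363) (nat_lit 14) (.n (nat_lit 365) (nat_lit 2) (.n (nat_lit 366) (nat_lit 3) (.p (nat_lit 367) (nat_lit 3) (.n (nat_lit 368) (nat_lit 1) (.p (nat_lit 369) (nat_lit 5) (.n (nat_lit 371) (nat_lit 6) (.p (nat_lit 372) (nat_lit 3) (.p (nat_lit 373) (nat_lit 16) (.n (nat_lit 374) (nat_lit 7) (.p (nat_lit 375) (nat_lit 11) (.n (nat_lit 376) (nat_lit 18) (.n (nat_lit 377) (nat_lit 6) (.p (nat_lit 378) (nat_lit 9) (.n (nat_lit 379) (nat_lit 1) (.p (nat_lit 380) (nat_lit 12) (.p (nat_lit 381) (nat_lit 6) (.p (nat_lit 382) (nat_lit 14) (.n (nat_lit 383) (nat_lit 8) (.n (nat_lit 384) (nat_lit 2) (.p (nat_lit 385) (nat_lit 9) (.p (nat_lit 386) (nat_lit 2) (.n (nat_lit 387) (nat_lit 18) (.n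 (nat_lit 388) (nat_lit 7) (.p (nat_lit 389) (nat_lit 16) (.n (nat_lit 390) (nat_lit 1) (.p (nat_lit 391) (nat_lit 1) (.n (nat_lit 392) (nat_lit 15) (.n (nat_lit 393) (nat_lit 5) (.p (nat_lit 394) (nat_lit 5) (.p (nat_lit 395) (nat_lit 1) (.p (nat_lit 396) (nat_lit 1) (.p (nat_lit 397) (nat_lit 4) (.n (nat_lit 398) (nat_lit 6) (.p (nat_lit 399) (nat_lit 3) (.p (nat_lit 400) (nat_lit 4) (.p (nat_lit 401) (nat_lit 4) (.n (nat_lit 402) (nat_lit 4) (.n (nat_lit 403) (nat_lit 4) (.n (nat_lit 404) (nat_lit 2) (.p (nat_lit 405) (nat_lit 9) (.n (nat_lit 406) (nat_lit 4) (.p (nat_lit 407) (nat_lit 18) (.p (nat_lit 408) (nat_lit 16) (.p (nat_lit 409) (nat_lit 19) (.p (nat_lit 410) (nat_lit 12) .z)))))))))))))))))))))))))))))))))))))))))))))))))))))))))))) (.u (nat_lit 2) (.p (nat_lit 411) (nat_lit 9) (.n (nat_lit 412) (nat_lit 16) (.n (nat_lit 413) (nat_lit 20) (.p (nat_lit 414) (nat_lit 3) (.n (nat_lit 415) (nat_lit 13) (.p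 (nat_lit 416) (nat_lit 17) (.p (nat_lit 417) (nat_lit 15) (.n (nat_lit 418) (nat_lit 1) (.n (nat_lit 419) (nat_lit 9) (.p (nat_lit 420) (nat_lit 22) (.p (nat_lit 421) (nat_lit 6) (.p (nat_lit 422) (nat_lit 5) (.n (nat_lit 423) (nat_lit 7) (.n (nat_lit 424) (nat_lit 6) (.n (nat_lit 425) (nat_lit 9) (.n (nat_lit 426) (nat_lit 5) (.n (nat_lit 427) (nat_lit 1) (.n (nat_lit 428) (nat_lit 4) (.n (nat_lit 429) (nat_lit 4) (.n (nat_lit 430) (nat_lit 9) (.n (nat_lit 431) (nat_lit 5) (.n (nat_lit 432) (nat_lit 7) (.n (nat_lit 433) (nat_lit 23) (.p (nat_lit 434) (nat_lit 7) .z)))))))))))))))))))))))) .nil)))))))))))))))))))))))))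

noncomputable def dC1d_i258 : IL := (.e true (nat_lit 1) (nat_lit 235) (nat_lit 2) (nat_lit 17) (.e false (nat_lit 3) (nat_lit 239) (nat_lit 2) (nat_lit 17) (.e true (nat_lit 2) (nat_lit 242) (nat_lit 2) (nat_lit 17) (.e false (nat_lit 1) (nat_lit 244) (nat_lit 2) (nat_lit 17) (.e false (nat_lit 3) (nat_lit 245) (nat_lit 2) (nat_lit 17) (.e false (nat_lit 2) (nat_lit 224) (nat_lit 2) (nat_lit 17) (.e true (nat_lit 1) (nat_lit 227) (nat_lit 2) (nat_lit 17) (.e true (nat_lit 2) (nat_lit 232) (nat_lit 2) (nat_lit 17) (.e true (nat_lit 1) (nat_lit 236) (nat_lit 2) (nat_lit 17) (.e true (nat_lit 1) (nat_lit 214) (nat_lit 2) (nat_lit 17) (.e false (nat_lit 3) (nat_lit 307) (nat_lit 0) (nat_lit 19) (.e false (nat_lit 3) (nat_lit 139) (nat_lit 5) (nat_lit 14) (.e true (nat_lit 1) (nat_lit 143) (nat_lit 5) (nat_lit 14) (.e false (nat_lit 2) (nat_lit 78) (nat_lit 13) (nat_lit 8) (.e true (nat_lit 3) (nat_lit 261) (nat_lit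 1) (nat_lit 18) (.e false (nat_lit 3) (nat_lit 264) (nat_lit 1) (nat_lit 18) (.e false (nat_lit 2) (nat_lit 265) (nat_lit 1) (nat_lit 18) (.e true (nat_lit 1) (nat_lit 267) (nat_lit 1) (nat_lit 18) (.e true (nat_lit 1) (nat_lit 268) (nat_lit 1) (nat_lit 18) (.e false (nat_lit 3) (nat_lit 270) (nat_lit 1) (nat_lit 18) (.e false (nat_lit 2) (nat_lit 273) (nat_lit 1) (nat_lit 18) (.e false (nat_lit 3) (nat_lit 274) (nat_lit 1) (nat_lit 18) (.e false (nat_lit 1) (nat_lit 269) (nat_lit 1) (nat_lit 18) (.e false (nat_lit 3) (nat_lit 271) (nat_lit 1) (nat_lit 18) (.e false (nat_lit 2) (nat_lit 278) (nat_lit 1) (nat_lit 18) dC1d_i257)))))))))))))))))))))))))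

noncomputable def dC1d_i259 : IL := (.a true (nat_lit 2) (nat_lit 31) (nat_lit 32) (nat_lit 0) (nat_lit 0) (.a false (nat_lit 2) (nat_lit 31) (nat_lit 33) (nat_lit 0) (nat_lit 0) (.a false (nat_lit 2) (nat_lit 31) (nat_lit 34) (nat_lit 0) (nat_lit 0) (.a true (nat_lit 1) (nat_lit 31) (nat_lit 35) (nat_lit 0) (nat_lit 0) (.a true (nat_lit 2) (nat_lit 31) (nat_lit 36) (nat_lit 0) (nat_lit 0) (.a true (nat_lit 2) (nat_lit 32) (nat_lit 32) (nat_lit 0) (nat_lit 0) (.a false (nat_lit 1) (nat_lit 32) (nat_lit 33) (nat_lit 0) (nat_lit 0) (.a false (nat_lit 1) (nat_lit 32) (nat_lit 34) (nat_lit 0) (nat_lit 0) (.a false (nat_lit 1) (nat_lit 32) (nat_lit 35) (nat_lit 0) (nat_lit 0) (.a true (nat_lit 1) (nat_lit 32) (nat_lit 36) (nat_lit 0) (nat_lit 0) (.a false (nat_lit 3) (nat_lit 33) (nat_lit 33) (nat_lit 0) (nat_lit 0) (.a true (nat_lit 1) (nat_lit 33) (nat_lit 34) (nat_lit 0) (nat_lit 0) (.a true (nat_lit 1) (nat_lit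 33) (nat_lit 35) (nat_lit 0) (nat_lit 0) (.a false (nat_lit 1) (nat_lit 33) (nat_lit 36) (nat_lit 0) (nat_lit 0) (.a true (nat_lit 1) (nat_lit 34) (nat_lit 35) (nat_lit 0) (nat_lit 0) (.a false (nat_lit 1) (nat_lit 34) (nat_lit 36) (nat_lit 0) (nat_lit 0) (.a false (nat_lit 1) (nat_lit 35) (nat_lit 36) (nat_lit 0) (nat_lit 0) (.a false (nat_lit 3) (nat_lit 36) (nat_lit 36) (nat_lit 0) (nat_lit 0) (.e false (nat_lit 3) (nat_lit 212) (nat_lit 2) (nat_lit 17) (.e false (nat_lit 1) (nat_lit 213) (nat_lit 2) (nat_lit 17) (.e false (nat_lit 1) (nat_lit 217) (nat_lit 2) (nat_lit 17) (.e false (nat_lit 3) (nat_lit 218) (nat_lit 2) (nat_lit 17) (.e true (nat_lit 1) (nat_lit 219) (nat_lit 2) (nat_lit 17) (.e false (nat_lit 1) (nat_lit 233) (nat_lit 2) (nat_lit 17) (.e true (nat_lit 2) (nat_lit 234) (nat_lit 2) (nat_lit 17) dC1d_i258)))))))))))))))))))))))))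

noncomputable def dC1d_i260 : IL := (.s false (nat_lit 1) (nat_lit 87) (nat_lit 1) (nat_lit 2) (nat_lit 0) true (nat_lit 16) true (nat_lit 19) false (nat_lit 9) true (nat_lit 18) true (nat_lit 17) (.s true (nat_lit 2) (nat_lit 88) (nat_lit 1) (nat_lit 2) (nat_lit 0) true (nat_lit 16) true (nat_lit 19) false (nat_lit 9) true (nat_lit 18) true (nat_lit 17) (.s true (nat_lit 2) (nat_lit 89) (nat_lit 1) (nat_lit 2) (nat_lit 0) true (nat_lit 16) true (nat_lit 19) false (nat_lit 9) true (nat_lit 18) true (nat_lit 17) (.s true (nat_lit 3) (nat_lit 90) (nat_lit 1) (nat_lit 2) (nat_lit 0) true (nat_lit 16) true (nat_lit 19) false (nat_lit 9) true (nat_lit 18) true (nat_lit 17) (.s false (nat_lit 3) (nat_lit 92) (nat_lit 1) (nat_lit 2) (nat_lit 0) true (nat_lit 16) true (nat_lit 19) false (nat_lit 9) true (nat_lit 18) true (nat_lit 17) (.s false (nat_lit 1) (nat_lit 82) (nat_lit 2) (nat_lit 1) (nat_lit 0) true (nat_lit 15)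 true (nat_lit 19) false (nat_lit 9) true (nat_lit 17) true (nat_lit 18) (.s true (nat_lit 3) (nat_lit 83) (nat_lit 2) (nat_lit 1) (nat_lit 0) true (nat_lit 15) true (nat_lit 19) false (nat_lit 9) true (nat_lit 17) true (nat_lit 18) (.s false (nat_lit 3) (nat_lit 85) (nat_lit 2) (nat_lit 1) (nat_lit 0) true (nat_lit 15) true (nat_lit 19) false (nat_lit 9) true (nat_lit 17) true (nat_lit 18) (.s true (nat_lit 2) (nat_lit 93) (nat_lit 0) (nat_lit 2) (nat_lit 0) false (nat_lit 20) true (nat_lit 19) false (nat_lit 10) true (nat_lit 19) true (nat_lit 17) (.s true (nat_lit 3) (nat_lit 94) (nat_lit 0) (nat_lit 2) (nat_lit 0) false (nat_lit 20) true (nat_lit 19) false (nat_lit 10) true (nat_lit 19) true (nat_lit 17) (.s false (nat_lit 3) (nat_lit 95) (nat_lit 0) (nat_lit 2) (nat_lit 0) false (nat_lit 20) true (nat_lit 19) false (nat_lit 10) true (nat_lit 19) true (nat_lit 17) (.s false (nat_lit 2) (nat_lit 96) (nat_lit 0)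 (nat_lit 2) (nat_lit 0) false (nat_lit 20) true (nat_lit 19) false (nat_lit 10) true (nat_lit 19) true (nat_lit 17) (.s true (nat_lit 2) (nat_lit 97) (nat_lit 0) (nat_lit 2) (nat_lit 0) false (nat_lit 20) true (nat_lit 19) false (nat_lit 10) true (nat_lit 19) true (nat_lit 17) (.s true (nat_lit 3) (nat_lit 98) (nat_lit 0) (nat_lit 1) (nat_lit 1) true (nat_lit 16) true (nat_lit 18) false (nat_lit 11) true (nat_lit 19) true (nat_lit 18) (.s true (nat_lit 2) (nat_lit 100) (nat_lit 1) (nat_lit 0) (nat_lit 1) false (nat_lit 21) true (nat_lit 18) false (nat_lit 11) true (nat_lit 18) true (nat_lit 19) (.s true (nat_lit 1) (nat_lit 101) (nat_lit 1) (nat_lit 0) (nat_lit 1) false (nat_lit 21) true (nat_lit 18) false (nat_lit 11) true (nat_lit 18) true (nat_lit 19) (.s false (nat_lit 3) (nat_lit 99) (nat_lit 1) (nat_lit 1) (nat_lit 0) true (nat_lit 16) true (nat_lit 19) false (nat_lit 11) true (nat_lit 18) true (nat_lit 18)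 (.s true (nat_lit 2) (nat_lit 100) (nat_lit 1) (nat_lit 1) (nat_lit 0) true (nat_lit 16) true (nat_lit 19) false (nat_lit 11) true (nat_lit 18) true (nat_lit 18) (.s false (nat_lit 1) (nat_lit 103) (nat_lit 0) (nat_lit 0) (nat_lit 1) true (nat_lit 16) true (nat_lit 18) false (nat_lit 12) true (nat_lit 19) true (nat_lit 19) (.s false (nat_lit 3) (nat_lit 104) (nat_lit 0) (nat_lit 0) (nat_lit 1) true (nat_lit 16) true (nat_lit 18) false (nat_lit 12) true (nat_lit 19) true (nat_lit 19) (.s false (nat_lit 3) (nat_lit 102) (nat_lit 0) (nat_lit 1) (nat_lit 0) false (nat_lit 20) true (nat_lit 19) false (nat_lit 12) true (nat_lit 19) true (nat_lit 18) (.s true (nat_lit 1) (nat_lit 104) (nat_lit 0) (nat_lit 1) (nat_lit 0) false (nat_lit 20) true (nat_lit 19) false (nat_lit 12) true (nat_lit 19) true (nat_lit 18) (.s false (nat_lit 2) (nat_lit 105) (nat_lit 0) (nat_lit 1) (nat_lit 0) false (nat_lit 20) true (nat_lit 19) false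 (nat_lit 12) true (nat_lit 19) true (nat_lit 18) (.a true (nat_lit 3) (nat_lit 31) (nat_lit 31) (nat_lit 0) (nat_lit 0) (.a true (nat_lit 1) (nat_lit 34) (nat_lit 34) (nat_lit 0) (nat_lit 0) dC1d_i259)))))))))))))))))))))))))

noncomputable def dC1d_i261 : IL := (.s false (nat_lit 3) (nat_lit 72) (nat_lit 0) (nat_lit 2) (nat_lit 2) true (nat_lit 15) true (nat_lit 17) false (nat_lit 7) true (nat_lit 19) true (nat_lit 17) (.s false (nat_lit 3) (nat_lit 74) (nat_lit 0) (nat_lit 2) (nat_lit 2) true (nat_lit 15) true (nat_lit 17) false (nat_lit 7) true (nat_lit 19) true (nat_lit 17) (.s false (nat_lit 1) (nat_lit 66) (nat_lit 2) (nat_lit 0) (nat_lit 2) true (nat_lit 13) true (nat_lit 17) false (nat_lit 7) true (nat_lit 17) true (nat_lit 19) (.s true (nat_lit 2) (nat_lit 74) (nat_lit 2) (nat_lit 0) (nat_lit 2) true (nat_lit 13) true (nat_lit 17) false (nat_lit 7) true (nat_lit 17) true (nat_lit 19) (.s false (nat_lit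 2) (nat_lit 66) (nat_lit 2) (nat_lit 2) (nat_lit 0) true (nat_lit 15) true (nat_lit 19) false (nat_lit 7) true (nat_lit 17) true (nat_lit 17) (.s true (nat_lit 1) (nat_lit 67) (nat_lit 2) (nat_lit 2) (nat_lit 0) true (nat_lit 15) true (nat_lit 19) false (nat_lit 7) true (nat_lit 17) true (nat_lit 17) (.s false (nat_lit 1) (nat_lit 69) (nat_lit 2) (nat_lit 2) (nat_lit 0) true (nat_lit 15) true (nat_lit 19) false (nat_lit 7) true (nat_lit 17) true (nat_lit 17) (.s true (nat_lit 3) (nat_lit 70) (nat_lit 2) (nat_lit 2) (nat_lit 0) true (nat_lit 15) true (nat_lit 19) false (nat_lit 7) true (nat_lit 17) true (nat_lit 17) (.s false (nat_lit 2) (nat_lit 72) (nat_lit 2) (nat_lit 2) (nat_lit 0) true (nat_lit 15) true (nat_lit 19) false (nat_lit 7) true (nat_lit 17) true (nat_lit 17) (.s false (nat_lit 1) (nat_lit 73) (nat_lit 2) (nat_lit 2) (nat_lit 0) true (nat_lit 15) true (nat_lit 19) false (nat_lit 7) true (nat_lit 17)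 true (nat_lit 17) (.s false (nat_lit 2) (nat_lit 74) (nat_lit 2) (nat_lit 2) (nat_lit 0) true (nat_lit 15) true (nat_lit 19) false (nat_lit 7) true (nat_lit 17) true (nat_lit 17) (.s false (nat_lit 2) (nat_lit 77) (nat_lit 1) (nat_lit 1) (nat_lit 2) true (nat_lit 14) true (nat_lit 17) false (nat_lit 8) true (nat_lit 18) true (nat_lit 18) (.s false (nat_lit 2) (nat_lit 79) (nat_lit 1) (nat_lit 2) (nat_lit 1) false (nat_lit 21) true (nat_lit 18) false (nat_lit 8) true (nat_lit 18) true (nat_lit 17) (.s true (nat_lit 3) (nat_lit 81) (nat_lit 1) (nat_lit 2) (nat_lit 1) false (nat_lit 21) true (nat_lit 18) false (nat_lit 8) true (nat_lit 18) true (nat_lit 17) (.s false (nat_lit 1) (nat_lit 80) (nat_lit 2) (nat_lit 1) (nat_lit 1) true (nat_lit 14) true (nat_lit 18) false (nat_lit 8) true (nat_lit 17) true (nat_lit 18) (.s false (nat_lit 1) (nat_lit 83) (nat_lit 0) (nat_lit 1) (nat_lit 2) true (nat_lit 15) true (nat_lit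 17) false (nat_lit 9) true (nat_lit 19) true (nat_lit 18) (.s false (nat_lit 1) (nat_lit 85) (nat_lit 0) (nat_lit 1) (nat_lit 2) true (nat_lit 15) true (nat_lit 17) false (nat_lit 9) true (nat_lit 19) true (nat_lit 18) (.s false (nat_lit 2) (nat_lit 82) (nat_lit 0) (nat_lit 2) (nat_lit 1) true (nat_lit 16) true (nat_lit 18) false (nat_lit 9) true (nat_lit 19) true (nat_lit 17) (.s true (nat_lit 2) (nat_lit 85) (nat_lit 0) (nat_lit 2) (nat_lit 1) true (nat_lit 16) true (nat_lit 18) false (nat_lit 9) true (nat_lit 19) true (nat_lit 17) (.s false (nat_lit 1) (nat_lit 82) (nat_lit 1) (nat_lit 0) (nat_lit 2) true (nat_lit 14) true (nat_lit 17) false (nat_lit 9) true (nat_lit 18) true (nat_lit 19) (.s true (nat_lit 2) (nat_lit 90) (nat_lit 1) (nat_lit 0) (nat_lit 2) true (nat_lit 14) true (nat_lit 17) false (nat_lit 9) true (nat_lit 18) true (nat_lit 19) (.s false (nat_lit 2) (nat_lit 82) (nat_lit 1) (nat_lit 2) (nat_lit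 0) true (nat_lit 16) true (nat_lit 19) false (nat_lit 9) true (nat_lit 18) true (nat_lit 17) (.s false (nat_lit 1) (nat_lit 84) (nat_lit 1) (nat_lit 2) (nat_lit 0) true (nat_lit 16) true (nat_lit 19) false (nat_lit 9) true (nat_lit 18) true (nat_lit 17) (.s false (nat_lit 3) (nat_lit 85) (nat_lit 1) (nat_lit 2) (nat_lit 0) true (nat_lit 16) true (nat_lit 19) false (nat_lit 9) true (nat_lit 18) true (nat_lit 17) (.s false (nat_lit 3) (nat_lit 86) (nat_lit 1) (nat_lit 2) (nat_lit 0) true (nat_lit 16) true (nat_lit 19) false (nat_lit 9) true (nat_lit 18) true (nat_lit 17) dC1d_i260)))))))))))))))))))))))))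

noncomputable def dC1d_i262 : IL := (.s false (nat_lit 2) (nat_lit 54) (nat_lit 2) (nat_lit 2) (nat_lit 2) true (nat_lit 13) true (nat_lit 17) false (nat_lit 5) true (nat_lit 17) true (nat_lit 17) (.s false (nat_lit 3) (nat_lit 55) (nat_lit 1) (nat_lit 2) (nat_lit 2) true (nat_lit 14) true (nat_lit 17) false (nat_lit 6) true (nat_lit 18) true (nat_lit 17) (.s false (nat_lit 2) (nat_lit 56) (nat_lit 1) (nat_lit 2) (nat_lit 2) true (nat_lit 14) true (nat_lit 17) false (nat_lit 6) true (nat_lit 18) true (nat_lit 17) (.s false (nat_lit 3) (nat_lit 57) (nat_lit 1) (nat_lit 2) (nat_lit 2) true (nat_lit 14) true (nat_lit 17) false (nat_lit 6) true (nat_lit 18) true (nat_lit 17) (.s false (nat_lit 3) (nat_lit 60) (nat_lit 1) (nat_lit 2) (nat_lit 2) true (nat_lit 14) true (nat_lit 17) false (nat_lit 6) true (nat_lit 18) true (nat_lit 17) (.s true (nat_lit 3) (nat_lit 61) (nat_lit 1) (nat_lit 2) (nat_lit 2) true (nat_lit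 14) true (nat_lit 17) false (nat_lit 6) true (nat_lit 18) true (nat_lit 17) (.s false (nat_lit 1) (nat_lit 62) (nat_lit 1) (nat_lit 2) (nat_lit 2) true (nat_lit 14) true (nat_lit 17) false (nat_lit 6) true (nat_lit 18) true (nat_lit 17) (.s true (nat_lit 1) (nat_lit 63) (nat_lit 1) (nat_lit 2) (nat_lit 2) true (nat_lit 14) true (nat_lit 17) false (nat_lit 6) true (nat_lit 18) true (nat_lit 17) (.s true (nat_lit 1) (nat_lit 64) (nat_lit 1) (nat_lit 2) (nat_lit 2) true (nat_lit 14) true (nat_lit 17) false (nat_lit 6) true (nat_lit 18) true (nat_lit 17) (.s false (nat_lit 1) (nat_lit 65) (nat_lit 1) (nat_lit 2) (nat_lit 2) true (nat_lit 14) true (nat_lit 17) false (nat_lit 6) true (nat_lit 18) true (nat_lit 17) (.s true (nat_lit 1) (nat_lit 56) (nat_lit 2) (nat_lit 1) (nat_lit 2) true (nat_lit 13) true (nat_lit 17) false (nat_lit 6) true (nat_lit 17) true (nat_lit 18) (.s true (nat_lit 3) (nat_lit 60) (nat_lit 2) (nat_lit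 1) (nat_lit 2) true (nat_lit 13) true (nat_lit 17) false (nat_lit 6) true (nat_lit 17) true (nat_lit 18) (.s true (nat_lit 2) (nat_lit 61) (nat_lit 2) (nat_lit 1) (nat_lit 2) true (nat_lit 13) true (nat_lit 17) false (nat_lit 6) true (nat_lit 17) true (nat_lit 18) (.s false (nat_lit 3) (nat_lit 62) (nat_lit 2) (nat_lit 1) (nat_lit 2) true (nat_lit 13) true (nat_lit 17) false (nat_lit 6) true (nat_lit 17) true (nat_lit 18) (.s true (nat_lit 2) (nat_lit 64) (nat_lit 2) (nat_lit 1) (nat_lit 2) true (nat_lit 13) true (nat_lit 17) false (nat_lit 6) true (nat_lit 17) true (nat_lit 18) (.s true (nat_lit 2) (nat_lit 65) (nat_lit 2) (nat_lit 1) (nat_lit 2) true (nat_lit 13) true (nat_lit 17) false (nat_lit 6) true (nat_lit 17) true (nat_lit 18) (.s true (nat_lit 2) (nat_lit 55) (nat_lit 2) (nat_lit 2) (nat_lit 1) true (nat_lit 14) true (nat_lit 18) false (nat_lit 6) true (nat_lit 17) true (nat_lit 17) (.s false (nat_lit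 1) (nat_lit 58) (nat_lit 2) (nat_lit 2) (nat_lit 1) true (nat_lit 14) true (nat_lit 18) false (nat_lit 6) true (nat_lit 17) true (nat_lit 17) (.s false (nat_lit 1) (nat_lit 61) (nat_lit 2) (nat_lit 2) (nat_lit 1) true (nat_lit 14) true (nat_lit 18) false (nat_lit 6) true (nat_lit 17) true (nat_lit 17) (.s false (nat_lit 3) (nat_lit 62) (nat_lit 2) (nat_lit 2) (nat_lit 1) true (nat_lit 14) true (nat_lit 18) false (nat_lit 6) true (nat_lit 17) true (nat_lit 17) (.s false (nat_lit 1) (nat_lit 64) (nat_lit 2) (nat_lit 2) (nat_lit 1) true (nat_lit 14) true (nat_lit 18) false (nat_lit 6) true (nat_lit 17) true (nat_lit 17) (.s true (nat_lit 3) (nat_lit 66) (nat_lit 0) (nat_lit 2) (nat_lit 2) true (nat_lit 15) true (nat_lit 17) false (nat_lit 7) true (nat_lit 19) true (nat_lit 17) (.s true (nat_lit 3) (nat_lit 67) (nat_lit 0) (nat_lit 2) (nat_lit 2) true (nat_lit 15) true (nat_lit 17) false (nat_lit 7) true (nat_lit 19)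 true (nat_lit 17) (.s true (nat_lit 1) (nat_lit 69) (nat_lit 0) (nat_lit 2) (nat_lit 2) true (nat_lit 15) true (nat_lit 17) false (nat_lit 7) true (nat_lit 19) true (nat_lit 17) (.s true (nat_lit 1) (nat_lit 70) (nat_lit 0) (nat_lit 2) (nat_lit 2) true (nat_lit 15) true (nat_lit 17) false (nat_lit 7) true (nat_lit 19) true (nat_lit 17) dC1d_i261)))))))))))))))))))))))))

noncomputable def dC1d_i263 : IL := (.s true (nat_lit 3) (nat_lit 32) (nat_lit 2) (nat_lit 0) (nat_lit 5) true (nat_lit 6) true (nat_lit 14) true (nat_lit 0) true (nat_lit 17) true (nat_lit 19) (.s false (nat_lit 1) (nat_lit 31) (nat_lit 2) (nat_lit 1) (nat_lit 4) true (nat_lit 7) true (nat_lit 15) true (nat_lit 0) true (nat_lit 17) true (nat_lit 18) (.s false (nat_lit 2) (nat_lit 34) (nat_lit 2) (nat_lit 1) (nat_lit 4) true (nat_lit 7) true (nat_lit 15) true (nat_lit 0) true (nat_lit 17) true (nat_lit 18) (.s true (nat_lit 2) (nat_lit 34) (nat_lit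 2) (nat_lit 2) (nat_lit 3) true (nat_lit 9) true (nat_lit 16) true (nat_lit 0) true (nat_lit 17) true (nat_lit 17) (.s true (nat_lit 3) (nat_lit 35) (nat_lit 2) (nat_lit 2) (nat_lit 3) true (nat_lit 9) true (nat_lit 16) true (nat_lit 0) true (nat_lit 17) true (nat_lit 17) (.s false (nat_lit 3) (nat_lit 35) (nat_lit 2) (nat_lit 3) (nat_lit 2) true (nat_lit 13) true (nat_lit 17) true (nat_lit 0) true (nat_lit 17) true (nat_lit 16) (.s false (nat_lit 1) (nat_lit 31) (nat_lit 4) (nat_lit 1) (nat_lit 2) true (nat_lit 7) true (nat_lit 17) true (nat_lit 0) true (nat_lit 15) true (nat_lit 18) (.s true (nat_lit 2) (nat_lit 31) (nat_lit 4) (nat_lit 2) (nat_lit 1) true (nat_lit 9) true (nat_lit 18) true (nat_lit 0) true (nat_lit 15) true (nat_lit 17) (.s false (nat_lit 1) (nat_lit 35) (nat_lit 6) (nat_lit 0) (nat_lit 1) true (nat_lit 6) true (nat_lit 18) true (nat_lit 0) true (nat_lit 13) true (nat_lit 19) (.s false (nat_lit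 1) (nat_lit 37) (nat_lit 0) (nat_lit 2) (nat_lit 4) true (nat_lit 10) true (nat_lit 15) false (nat_lit 1) true (nat_lit 19) true (nat_lit 17) (.s true (nat_lit 1) (nat_lit 37) (nat_lit 6) (nat_lit 0) (nat_lit 0) true (nat_lit 7) true (nat_lit 19) false (nat_lit 1) true (nat_lit 13) true (nat_lit 19) (.s false (nat_lit 2) (nat_lit 40) (nat_lit 0) (nat_lit 1) (nat_lit 5) true (nat_lit 9) true (nat_lit 14) false (nat_lit 2) true (nat_lit 19) true (nat_lit 18) (.s true (nat_lit 2) (nat_lit 40) (nat_lit 1) (nat_lit 2) (nat_lit 3) true (nat_lit 11) true (nat_lit 16) false (nat_lit 2) true (nat_lit 18) true (nat_lit 17) (.s false (nat_lit 2) (nat_lit 42) (nat_lit 1) (nat_lit 3) (nat_lit 2) true (nat_lit 14) true (nat_lit 17) false (nat_lit 2) true (nat_lit 18) true (nat_lit 16) (.s false (nat_lit 3) (nat_lit 40) (nat_lit 2) (nat_lit 1) (nat_lit 3) true (nat_lit 9) true (nat_lit 16) false (nat_lit 2) true (nat_lit 17) true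 (nat_lit 18) (.s true (nat_lit 2) (nat_lit 43) (nat_lit 0) (nat_lit 2) (nat_lit 3) true (nat_lit 12) true (nat_lit 16) false (nat_lit 3) true (nat_lit 19) true (nat_lit 17) (.s true (nat_lit 3) (nat_lit 45) (nat_lit 0) (nat_lit 2) (nat_lit 3) true (nat_lit 12) true (nat_lit 16) false (nat_lit 3) true (nat_lit 19) true (nat_lit 17) (.s false (nat_lit 1) (nat_lit 44) (nat_lit 0) (nat_lit 3) (nat_lit 2) true (nat_lit 15) true (nat_lit 17) false (nat_lit 3) true (nat_lit 19) true (nat_lit 16) (.s false (nat_lit 3) (nat_lit 45) (nat_lit 0) (nat_lit 3) (nat_lit 2) true (nat_lit 15) true (nat_lit 17) false (nat_lit 3) true (nat_lit 19) true (nat_lit 16) (.s true (nat_lit 2) (nat_lit 44) (nat_lit 4) (nat_lit 1) (nat_lit 0) true (nat_lit 10) true (nat_lit 19) false (nat_lit 3) true (nat_lit 15) true (nat_lit 18) (.s true (nat_lit 2) (nat_lit 43) (nat_lit 5) (nat_lit 0) (nat_lit 0) true (nat_lit 9) true (nat_lit 19) false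 (nat_lit 3) true (nat_lit 14) true (nat_lit 19) (.s true (nat_lit 3) (nat_lit 45) (nat_lit 5) (nat_lit 0) (nat_lit 0) true (nat_lit 9) true (nat_lit 19) false (nat_lit 3) true (nat_lit 14) true (nat_lit 19) (.s false (nat_lit 3) (nat_lit 46) (nat_lit 0) (nat_lit 1) (nat_lit 3) true (nat_lit 12) true (nat_lit 16) false (nat_lit 4) true (nat_lit 19) true (nat_lit 18) (.s true (nat_lit 2) (nat_lit 48) (nat_lit 2) (nat_lit 2) (nat_lit 2) true (nat_lit 13) true (nat_lit 17) false (nat_lit 5) true (nat_lit 17) true (nat_lit 17) (.s false (nat_lit 2) (nat_lit 49) (nat_lit 2) (nat_lit 2) (nat_lit 2) true (nat_lit 13) true (nat_lit 17) false (nat_lit 5) true (nat_lit 17) true (nat_lit 17) dC1d_i262)))))))))))))))))))))))))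

noncomputable def dC1d_i264 : IL := (.s true (nat_lit 1) (nat_lit 21) (nat_lit 2) (nat_lit 6) (nat_lit 1) true (nat_lit 14) true (nat_lit 18) true (nat_lit 3) true (nat_lit 17) true (nat_lit 13) (.s false (nat_lit 1) (nat_lit 22) (nat_lit 2) (nat_lit 6) (nat_lit 1) true (nat_lit 14) true (nat_lit 18) true (nat_lit 3) true (nat_lit 17) true (nat_lit 13) (.s false (nat_lit 1) (nat_lit 20) (nat_lit 5) (nat_lit 2) (nat_lit 2) true (nat_lit 6) true (nat_lit 17) true (nat_lit 3) true (nat_lit 14) true (nat_lit 17) (.s true (nat_lit 3) (nat_lit 21) (nat_lit 5) (nat_lit 2) (nat_lit 2) true (nat_lit 6) true (nat_lit 17) true (nat_lit 3) true (nat_lit 14) true (nat_lit 17) (.s true (nat_lit 2) (nat_lit 22) (nat_lit 5) (nat_lit 2) (nat_lit 2) true (nat_lit 6) true (nat_lit 17) true (nat_lit 3) true (nat_lit 14) true (nat_lit 17) (.s true (nat_lit 1) (nat_lit 21) (nat_lit 6) (nat_lit 1) (nat_lit 2) true (nat_lit 5) true (nat_lit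 17) true (nat_lit 3) true (nat_lit 13) true (nat_lit 18) (.s false (nat_lit 2) (nat_lit 24) (nat_lit 0) (nat_lit 2) (nat_lit 6) true (nat_lit 7) true (nat_lit 13) true (nat_lit 2) true (nat_lit 19) true (nat_lit 17) (.s false (nat_lit 1) (nat_lit 24) (nat_lit 2) (nat_lit 2) (nat_lit 4) true (nat_lit 7) true (nat_lit 15) true (nat_lit 2) true (nat_lit 17) true (nat_lit 17) (.s false (nat_lit 3) (nat_lit 24) (nat_lit 2) (nat_lit 6) (nat_lit 0) true (nat_lit 15) true (nat_lit 19) true (nat_lit 2) true (nat_lit 17) true (nat_lit 13) (.s false (nat_lit 3) (nat_lit 24) (nat_lit 6) (nat_lit 0) (nat_lit 2) true (nat_lit 5) true (nat_lit 17) true (nat_lit 2) true (nat_lit 13) true (nat_lit 19) (.s false (nat_lit 1) (nat_lit 24) (nat_lit 6) (nat_lit 2) (nat_lit 0) true (nat_lit 7) true (nat_lit 19) true (nat_lit 2) true (nat_lit 13) true (nat_lit 17) (.s false (nat_lit 2) (nat_lit 28) (nat_lit 1) (nat_lit 5) (nat_lit 2) true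 (nat_lit 14) true (nat_lit 17) true (nat_lit 1) true (nat_lit 18) true (nat_lit 14) (.s false (nat_lit 3) (nat_lit 30) (nat_lit 1) (nat_lit 5) (nat_lit 2) true (nat_lit 14) true (nat_lit 17) true (nat_lit 1) true (nat_lit 18) true (nat_lit 14) (.s true (nat_lit 2) (nat_lit 28) (nat_lit 2) (nat_lit 1) (nat_lit 5) true (nat_lit 6) true (nat_lit 14) true (nat_lit 1) true (nat_lit 17) true (nat_lit 18) (.s true (nat_lit 2) (nat_lit 28) (nat_lit 2) (nat_lit 5) (nat_lit 1) true (nat_lit 14) true (nat_lit 18) true (nat_lit 1) true (nat_lit 17) true (nat_lit 14) (.s true (nat_lit 2) (nat_lit 28) (nat_lit 5) (nat_lit 1) (nat_lit 2) true (nat_lit 6) true (nat_lit 17) true (nat_lit 1) true (nat_lit 14) true (nat_lit 18) (.s true (nat_lit 1) (nat_lit 28) (nat_lit 5) (nat_lit 2) (nat_lit 1) true (nat_lit 8) true (nat_lit 18) true (nat_lit 1) true (nat_lit 14) true (nat_lit 17) (.s true (nat_lit 3) (nat_lit 31) (nat_lit 0) (nat_lit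 1) (nat_lit 6) true (nat_lit 7) true (nat_lit 13) true (nat_lit 0) true (nat_lit 19) true (nat_lit 18) (.s false (nat_lit 2) (nat_lit 34) (nat_lit 0) (nat_lit 1) (nat_lit 6) true (nat_lit 7) true (nat_lit 13) true (nat_lit 0) true (nat_lit 19) true (nat_lit 18) (.s true (nat_lit 1) (nat_lit 31) (nat_lit 0) (nat_lit 2) (nat_lit 5) true (nat_lit 9) true (nat_lit 14) true (nat_lit 0) true (nat_lit 19) true (nat_lit 17) (.s true (nat_lit 3) (nat_lit 32) (nat_lit 0) (nat_lit 2) (nat_lit 5) true (nat_lit 9) true (nat_lit 14) true (nat_lit 0) true (nat_lit 19) true (nat_lit 17) (.s true (nat_lit 3) (nat_lit 35) (nat_lit 1) (nat_lit 0) (nat_lit 6) true (nat_lit 6) true (nat_lit 13) true (nat_lit 0) true (nat_lit 18) true (nat_lit 19) (.s false (nat_lit 2) (nat_lit 34) (nat_lit 1) (nat_lit 2) (nat_lit 4) true (nat_lit 9) true (nat_lit 15) true (nat_lit 0) true (nat_lit 18) true (nat_lit 17) (.s false (nat_lit 3) (nat_lit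 32) (nat_lit 1) (nat_lit 4) (nat_lit 2) true (nat_lit 14) true (nat_lit 17) true (nat_lit 0) true (nat_lit 18) true (nat_lit 15) (.s true (nat_lit 1) (nat_lit 31) (nat_lit 2) (nat_lit 0) (nat_lit 5) true (nat_lit 6) true (nat_lit 14) true (nat_lit 0) true (nat_lit 17) true (nat_lit 19) dC1d_i263)))))))))))))))))))))))))

noncomputable def dC1d_i265 : IL := (.s false (nat_lit 3) (nat_lit 14) (nat_lit 2) (nat_lit 10) (nat_lit 1) true (nat_lit 14) true (nat_lit 18) true (nat_lit 7) true (nat_lit 17) true (nat_lit 9) (.s true (nat_lit 3) (nat_lit 14) (nat_lit 10) (nat_lit 1) (nat_lit 2) true (nat_lit 0) true (nat_lit 17) true (nat_lit 7) true (nat_lit 9) true (nat_lit 18) (.s false (nat_lit 1) (nat_lit 14) (nat_lit 13) (nat_lit 0) (nat_lit 2) false (nat_lit 1) true (nat_lit 17) true (nat_lit 7) true (nat_lit 8) true (nat_lit 19) (.s false (nat_lit 1) (nat_lit 15) (nat_lit 13) (nat_lit 0) (nat_lit 2) false (nat_lit 1)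 true (nat_lit 17) true (nat_lit 7) true (nat_lit 8) true (nat_lit 19) (.s true (nat_lit 1) (nat_lit 17) (nat_lit 0) (nat_lit 0) (nat_lit 17) true (nat_lit 0) true (nat_lit 6) true (nat_lit 6) true (nat_lit 19) true (nat_lit 19) (.s true (nat_lit 1) (nat_lit 16) (nat_lit 2) (nat_lit 7) (nat_lit 2) true (nat_lit 13) true (nat_lit 17) true (nat_lit 6) true (nat_lit 17) true (nat_lit 12) (.s false (nat_lit 3) (nat_lit 16) (nat_lit 2) (nat_lit 10) (nat_lit 0) true (nat_lit 15) true (nat_lit 19) true (nat_lit 6) true (nat_lit 17) true (nat_lit 9) (.s true (nat_lit 3) (nat_lit 16) (nat_lit 7) (nat_lit 2) (nat_lit 2) true (nat_lit 3) true (nat_lit 17) true (nat_lit 6) true (nat_lit 12) true (nat_lit 17) (.s true (nat_lit 1) (nat_lit 16) (nat_lit 9) (nat_lit 1) (nat_lit 2) true (nat_lit 1) true (nat_lit 17) true (nat_lit 6) true (nat_lit 10) true (nat_lit 18) (.s true (nat_lit 2) (nat_lit 17) (nat_lit 9) (nat_lit 1) (nat_lit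 2) true (nat_lit 1) true (nat_lit 17) true (nat_lit 6) true (nat_lit 10) true (nat_lit 18) (.s false (nat_lit 2) (nat_lit 16) (nat_lit 9) (nat_lit 2) (nat_lit 1) true (nat_lit 3) true (nat_lit 18) true (nat_lit 6) true (nat_lit 10) true (nat_lit 17) (.s true (nat_lit 3) (nat_lit 17) (nat_lit 10) (nat_lit 0) (nat_lit 2) true (nat_lit 0) true (nat_lit 17) true (nat_lit 6) true (nat_lit 9) true (nat_lit 19) (.s false (nat_lit 1) (nat_lit 18) (nat_lit 0) (nat_lit 8) (nat_lit 2) true (nat_lit 15) true (nat_lit 17) true (nat_lit 5) true (nat_lit 19) true (nat_lit 11) (.s false (nat_lit 3) (nat_lit 18) (nat_lit 2) (nat_lit 8) (nat_lit 0) true (nat_lit 15) true (nat_lit 19) true (nat_lit 5) true (nat_lit 17) true (nat_lit 11) (.s false (nat_lit 2) (nat_lit 18) (nat_lit 7) (nat_lit 2) (nat_lit 1) true (nat_lit 4) true (nat_lit 18) true (nat_lit 5) true (nat_lit 12) true (nat_lit 17) (.s true (nat_lit 1) (nat_lit 18) (nat_lit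 9) (nat_lit 1) (nat_lit 1) true (nat_lit 3) true (nat_lit 18) true (nat_lit 5) true (nat_lit 10) true (nat_lit 18) (.s false (nat_lit 1) (nat_lit 19) (nat_lit 2) (nat_lit 2) (nat_lit 6) true (nat_lit 5) true (nat_lit 13) true (nat_lit 4) true (nat_lit 17) true (nat_lit 17) (.s true (nat_lit 2) (nat_lit 19) (nat_lit 2) (nat_lit 6) (nat_lit 2) true (nat_lit 13) true (nat_lit 17) true (nat_lit 4) true (nat_lit 17) true (nat_lit 13) (.s false (nat_lit 3) (nat_lit 21) (nat_lit 1) (nat_lit 2) (nat_lit 6) true (nat_lit 6) true (nat_lit 13) true (nat_lit 3) true (nat_lit 18) true (nat_lit 17) (.s false (nat_lit 1) (nat_lit 22) (nat_lit 1) (nat_lit 2) (nat_lit 6) true (nat_lit 6) true (nat_lit 13) true (nat_lit 3) true (nat_lit 18) true (nat_lit 17) (.s true (nat_lit 3) (nat_lit 20) (nat_lit 1) (nat_lit 6) (nat_lit 2) true (nat_lit 14) true (nat_lit 17) true (nat_lit 3) true (nat_lit 18) true (nat_lit 13) (.s false (nat_lit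 1) (nat_lit 21) (nat_lit 2) (nat_lit 2) (nat_lit 5) true (nat_lit 6) true (nat_lit 14) true (nat_lit 3) true (nat_lit 17) true (nat_lit 17) (.s false (nat_lit 1) (nat_lit 22) (nat_lit 2) (nat_lit 2) (nat_lit 5) true (nat_lit 6) true (nat_lit 14) true (nat_lit 3) true (nat_lit 17) true (nat_lit 17) (.s false (nat_lit 2) (nat_lit 20) (nat_lit 2) (nat_lit 5) (nat_lit 2) true (nat_lit 13) true (nat_lit 17) true (nat_lit 3) true (nat_lit 17) true (nat_lit 14) (.s true (nat_lit 3) (nat_lit 20) (nat_lit 2) (nat_lit 6) (nat_lit 1) true (nat_lit 14) true (nat_lit 18) true (nat_lit 3) true (nat_lit 17) true (nat_lit 13) dC1d_i264)))))))))))))))))))))))))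

noncomputable def dC1d_i266 : IL := (.e true (nat_lit 1) (nat_lit 299) (nat_lit 0) (nat_lit 19) (.e true (nat_lit 1) (nat_lit 301) (nat_lit 0) (nat_lit 19) (.e false (nat_lit 3) (nat_lit 307) (nat_lit 0) (nat_lit 19) (.e false (nat_lit 2) (nat_lit 308) (nat_lit 0) (nat_lit 19) (.e true (nat_lit 1) (nat_lit 317) (nat_lit 0) (nat_lit 19) (.e true (nat_lit 2) (nat_lit 319) (nat_lit 0) (nat_lit 19) (.e true (nat_lit 1) (nat_lit 313) (nat_lit 0) (nat_lit 19) (.e false (nat_lit 2) (nat_lit 291) (nat_lit 0) (nat_lit 19) (.e true (nat_lit 2) (nat_lit 296) (nat_lit 0) (nat_lit 19) (.e false (nat_lit 2) (nat_lit 297) (nat_lit 0) (nat_lit 19) (.e false (nat_lit 3) (nat_lit 298) (nat_lit 0) (nat_lit 19) (.e true (nat_lit 3) (nat_lit 300) (nat_lit 0) (nat_lit 19) (.e true (nat_lit 3) (nat_lit 314) (nat_lit 0) (nat_lit 19) (.e false (nat_lit 3) (nat_lit 310) (nat_lit 0) (nat_lit 19) (.e true (nat_lit 3) (nat_lit 302) (nat_lit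 0) (nat_lit 19) (.e true (nat_lit 2) (nat_lit 305) (nat_lit 0) (nat_lit 19) (.e true (nat_lit 3) (nat_lit 315) (nat_lit 0) (nat_lit 19) (.e false (nat_lit 1) (nat_lit 316) (nat_lit 0) (nat_lit 19) (.e false (nat_lit 3) (nat_lit 290) (nat_lit 0) (nat_lit 19) (.e false (nat_lit 1) (nat_lit 285) (nat_lit 1) (nat_lit 18) (.e true (nat_lit 1) (nat_lit 283) (nat_lit 1) (nat_lit 18) (.e false (nat_lit 3) (nat_lit 318) (nat_lit 0) (nat_lit 19) (.u (nat_lit 2) (.p (nat_lit 1) (nat_lit 1) (.p (nat_lit 3) (nat_lit 2) (.n (nat_lit 4) (nat_lit 3) (.n (nat_lit 5) (nat_lit 1) (.p (nat_lit 6) (nat_lit 2) (.n (nat_lit 8) (nat_lit 4) (.n (nat_lit 9) (nat_lit 1) (.p (nat_lit 10) (nat_lit 1) (.n (nat_lit 11) (nat_lit 1) (.p (nat_lit 12) (nat_lit 3) (.p (nat_lit 13) (nat_lit 4) (.p (nat_lit 14) (nat_lit 1) (.n (nat_lit 15) (nat_lit 3) (.p (nat_lit 17) (nat_lit 2) (.p (nat_lit 18) (nat_lit 1) (.n (nat_lit 19) (nat_lit 1) (.n (nat_lit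 20) (nat_lit 3) (.p (nat_lit 26) (nat_lit 1) (.n (nat_lit 28) (nat_lit 2) (.n (nat_lit 29) (nat_lit 1) (.n (nat_lit 30) (nat_lit 2) (.n (nat_lit 32) (nat_lit 2) (.p (nat_lit 33) (nat_lit 2) (.n (nat_lit 34) (nat_lit 1) (.n (nat_lit 35) (nat_lit 1) (.n (nat_lit 36) (nat_lit 3) (.p (nat_lit 37) (nat_lit 1) (.p (nat_lit 38) (nat_lit 1) (.n (nat_lit 39) (nat_lit 5) (.p (nat_lit 40) (nat_lit 1) (.n (nat_lit 49) (nat_lit 1) (.p (nat_lit 51) (nat_lit 1) (.p (nat_lit 53) (nat_lit 1) (.p (nat_lit 54) (nat_lit 1) (.p (nat_lit 55) (nat_lit 1) (.p (nat_lit 57) (nat_lit 4) (.n (nat_lit 58) (nat_lit 4) (.n (nat_lit 60) (nat_lit 1) (.p (nat_lit 62) (nat_lit 1) (.n (nat_lit 63) (nat_lit 1) (.p (nat_lit 64) (nat_lit 1) (.n (nat_lit 69) (nat_lit 2) (.p (nat_lit 70) (nat_lit 2) (.p (nat_lit 129) (nat_lit 1) (.p (nat_lit 130) (nat_lit 1) (.p (nat_lit 241) (nat_lit 1) (.p (nat_lit 242) (nat_lit 1) (.p (nat_lit 327) (nat_lit 1) (.p (nat_lit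 329) (nat_lit 3) (.p (nat_lit 331) (nat_lit 1) (.n (nat_lit 332) (nat_lit 1) (.p (nat_lit 334) (nat_lit 2) (.p (nat_lit 335) (nat_lit 3) (.p (nat_lit 336) (nat_lit 4) (.n (nat_lit 338) (nat_lit 1) (.p (nat_lit 339) (nat_lit 2) (.p (nat_lit 340) (nat_lit 1) (.n (nat_lit 341) (nat_lit 2) (.p (nat_lit 342) (nat_lit 1) (.n (nat_lit 343) (nat_lit 1) .z)))))))))))))))))))))))))))))))))))))))))))))))))))))))))))) (.u (nat_lit 2) (.n (nat_lit 344) (nat_lit 2) (.p (nat_lit 345) (nat_lit 2) (.n (nat_lit 347) (nat_lit 1) (.p (nat_lit 349) (nat_lit 4) (.n (nat_lit 350) (nat_lit 1) (.p (nat_lit 351) (nat_lit 3) (.p (nat_lit 352) (nat_lit 1) (.p (nat_lit 353) (nat_lit 2) (.n (nat_lit 354) (nat_lit 1) (.p (nat_lit 355) (nat_lit 1) (.n (nat_lit 357) (nat_lit 1) (.p (nat_lit 358) (nat_lit 2) (.n (nat_lit 359) (nat_lit 1) (.n (nat_lit 361) (nat_lit 1) (.p (nat_lit 362) (nat_lit 1) (.n (nat_lit 363) (nat_lit 2) (.n (nat_lit 364) (nat_lit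 1) (.p (nat_lit 365) (nat_lit 3) (.n (nat_lit 375) (nat_lit 3) (.n (nat_lit 376) (nat_lit 7) (.p (nat_lit 377) (nat_lit 4) (.n (nat_lit 378) (nat_lit 4) (.p (nat_lit 379) (nat_lit 5) (.n (nat_lit 380) (nat_lit 10) (.n (nat_lit 381) (nat_lit 4) (.n (nat_lit 382) (nat_lit 7) (.p (nat_lit 384) (nat_lit 7) (.p (nat_lit 385) (nat_lit 1) (.n (nat_lit 386) (nat_lit 5) (.p (nat_lit 387) (nat_lit 1) (.n (nat_lit 388) (nat_lit 3) (.n (nat_lit 389) (nat_lit 8) (.p (nat_lit 392) (nat_lit 3) (.n (nat_lit 393) (nat_lit 1) (.p (nat_lit 394) (nat_lit 13) (.n (nat_lit 395) (nat_lit 3) (.p (nat_lit 396) (nat_lit 2) (.n (nat_lit 397) (nat_lit 4) (.p (nat_lit 398) (nat_lit 6) (.n (nat_lit 399) (nat_lit 2) (.n (nat_lit 400) (nat_lit 4) (.n (nat_lit 401) (nat_lit 3) (.n (nat_lit 402) (nat_lit 7) (.n (nat_lit 403) (nat_lit 3) (.p (nat_lit 404) (nat_lit 3) (.p (nat_lit 405) (nat_lit 1) (.p (nat_lit 407) (nat_lit 3) (.n (nat_lit 408) (nat_lit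 19) (.n (nat_lit 410) (nat_lit 7) (.n (nat_lit 411) (nat_lit 2) (.p (nat_lit 412) (nat_lit 2) (.n (nat_lit 414) (nat_lit 9) (.p (nat_lit 415) (nat_lit 1) (.n (nat_lit 416) (nat_lit 7) (.p (nat_lit 417) (nat_lit 8) (.p (nat_lit 419) (nat_lit 14) (.n (nat_lit 420) (nat_lit 1) (.n (nat_lit 422) (nat_lit 1) (.p (nat_lit 423) (nat_lit 1) (.n (nat_lit 425) (nat_lit 6) .z)))))))))))))))))))))))))))))))))))))))))))))))))))))))))))) (.u (nat_lit 2) (.n (nat_lit 426) (nat_lit 5) (.p (nat_lit 427) (nat_lit 2) (.p (nat_lit 428) (nat_lit 4) (.n (nat_lit 429) (nat_lit 1) (.n (nat_lit 430) (nat_lit 1) (.n (nat_lit 431) (nat_lit 2) (.p (nat_lit 433) (nat_lit 2) (.n (nat_lit 434) (nat_lit 1) .z)))))))) .nil)))))))))))))))))))))))))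

noncomputable def dC1d_i267 : IL := (.e false (nat_lit 2) (nat_lit 286) (nat_lit 1) (nat_lit 18) (.e true (nat_lit 3) (nat_lit 249) (nat_lit 2) (nat_lit 17) (.e true (nat_lit 2) (nat_lit 143) (nat_lit 5) (nat_lit 14) (.e true (nat_lit 3) (nat_lit 144) (nat_lit 5) (nat_lit 14) (.e true (nat_lit 1) (nat_lit 260) (nat_lit 1) (nat_lit 18) (.e false (nat_lit 1) (nat_lit 262) (nat_lit 1) (nat_lit 18) (.e false (nat_lit 3) (nat_lit 263) (nat_lit 1) (nat_lit 18) (.e true (nat_lit 3) (nat_lit 265) (nat_lit 1) (nat_lit 18) (.e false (nat_lit 3) (nat_lit 267) (nat_lit 1) (nat_lit 18) (.e false (nat_lit 2) (nat_lit 268) (nat_lit 1) (nat_lit 18) (.e false (nat_lit 1) (nat_lit 269) (nat_lit 1) (nat_lit 18) (.e true (nat_lit 2) (nat_lit 270) (nat_lit 1) (nat_lit 18) (.e false (nat_lit 1) (nat_lit 271) (nat_lit 1) (nat_lit 18) (.e true (nat_lit 2) (nat_lit 272) (nat_lit 1) (nat_lit 18) (.e true (nat_lit 2) (nat_lit 273) (nat_lit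 1) (nat_lit 18) (.e true (nat_lit 3) (nat_lit 274) (nat_lit 1) (nat_lit 18) (.e false (nat_lit 1) (nat_lit 278) (nat_lit 1) (nat_lit 18) (.e true (nat_lit 1) (nat_lit 279) (nat_lit 1) (nat_lit 18) (.e true (nat_lit 1) (nat_lit 280) (nat_lit 1) (nat_lit 18) (.e false (nat_lit 3) (nat_lit 282) (nat_lit 1) (nat_lit 18) (.e false (nat_lit 1) (nat_lit 288) (nat_lit 1) (nat_lit 18) (.e false (nat_lit 3) (nat_lit 311) (nat_lit 0) (nat_lit 19) (.e true (nat_lit 1) (nat_lit 292) (nat_lit 0) (nat_lit 19) (.e false (nat_lit 2) (nat_lit 293) (nat_lit 0) (nat_lit 19) (.e true (nat_lit 1) (nat_lit 294) (nat_lit 0) (nat_lit 19) dC1d_i266)))))))))))))))))))))))))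

noncomputable def dC1d_i268 : IL := (.e false (nat_lit 1) (nat_lit 226) (nat_lit 2) (nat_lit 17) (.e false (nat_lit 2) (nat_lit 227) (nat_lit 2) (nat_lit 17) (.e true (nat_lit 1) (nat_lit 229) (nat_lit 2) (nat_lit 17) (.e true (nat_lit 2) (nat_lit 231) (nat_lit 2) (nat_lit 17) (.e false (nat_lit 2) (nat_lit 233) (nat_lit 2) (nat_lit 17) (.e true (nat_lit 3) (nat_lit 235) (nat_lit 2) (nat_lit 17) (.e true (nat_lit 1) (nat_lit 236) (nat_lit 2) (nat_lit 17) (.e false (nat_lit 2) (nat_lit 240) (nat_lit 2) (nat_lit 17) (.e false (nat_lit 1) (nat_lit 242) (nat_lit 2) (nat_lit 17) (.e true (nat_lit 1) (nat_lit 245) (nat_lit 2) (nat_lit 17) (.e true (nat_lit 2) (nat_lit 248) (nat_lit 2) (nat_lit 17) (.e true (nat_lit 1) (nat_lit 216) (nat_lit 2) (nat_lit 17) (.e true (nat_lit 2) (nat_lit 217) (nat_lit 2) (nat_lit 17) (.e true (nat_lit 1) (nat_lit 225) (nat_lit 2) (nat_lit 17) (.e false (nat_lit 1) (nat_lit 228) (nat_lit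 2) (nat_lit 17) (.e false (nat_lit 1) (nat_lit 230) (nat_lit 2) (nat_lit 17) (.e false (nat_lit 1) (nat_lit 234) (nat_lit 2) (nat_lit 17) (.e false (nat_lit 3) (nat_lit 237) (nat_lit 2) (nat_lit 17) (.e true (nat_lit 3) (nat_lit 238) (nat_lit 2) (nat_lit 17) (.e false (nat_lit 2) (nat_lit 246) (nat_lit 2) (nat_lit 17) (.e true (nat_lit 2) (nat_lit 247) (nat_lit 2) (nat_lit 17) (.e true (nat_lit 1) (nat_lit 222) (nat_lit 2) (nat_lit 17) (.e false (nat_lit 1) (nat_lit 239) (nat_lit 2) (nat_lit 17) (.e true (nat_lit 3) (nat_lit 241) (nat_lit 2) (nat_lit 17) (.e false (nat_lit 1) (nat_lit 213) (nat_lit 2) (nat_lit 17) dC1d_i267)))))))))))))))))))))))))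

noncomputable def dC1d_i269 : IL := (.e false (nat_lit 1) (nat_lit 311) (nat_lit 0) (nat_lit 19) (.e true (nat_lit 3) (nat_lit 298) (nat_lit 0) (nat_lit 19) (.e false (nat_lit 3) (nat_lit 160) (nat_lit 4) (nat_lit 15) (.e true (nat_lit 3) (nat_lit 285) (nat_lit 1) (nat_lit 18) (.e false (nat_lit 3) (nat_lit 283) (nat_lit 1) (nat_lit 18) (.e true (nat_lit 3) (nat_lit 292) (nat_lit 0) (nat_lit 19) (.e true (nat_lit 3) (nat_lit 293) (nat_lit 0) (nat_lit 19) (.e true (nat_lit 3) (nat_lit 294) (nat_lit 0) (nat_lit 19) (.e true (nat_lit 3) (nat_lit 295) (nat_lit 0) (nat_lit 19) (.e true (nat_lit 1) (nat_lit 300) (nat_lit 0) (nat_lit 19) (.e false (nat_lit 1) (nat_lit 302) (nat_lit 0) (nat_lit 19) (.e true (nat_lit 2) (nat_lit 303) (nat_lit 0) (nat_lit 19) (.e true (nat_lit 3) (nat_lit 305) (nat_lit 0) (nat_lit 19) (.e true (nat_lit 2) (nat_lit 310) (nat_lit 0) (nat_lit 19) (.e false (nat_lit 2) (nat_lit 314) (nat_lit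 0) (nat_lit 19) (.e false (nat_lit 2) (nat_lit 315) (nat_lit 0) (nat_lit 19) (.e false (nat_lit 3) (nat_lit 297) (nat_lit 0) (nat_lit 19) (.e false (nat_lit 1) (nat_lit 316) (nat_lit 0) (nat_lit 19) (.e true (nat_lit 3) (nat_lit 290) (nat_lit 0) (nat_lit 19) (.e true (nat_lit 1) (nat_lit 313) (nat_lit 0) (nat_lit 19) (.e true (nat_lit 2) (nat_lit 282) (nat_lit 1) (nat_lit 18) (.u (nat_lit 2) (.p (nat_lit 0) (nat_lit 1) (.n (nat_lit 1) (nat_lit 1) (.n (nat_lit 2) (nat_lit 1) (.n (nat_lit 3) (nat_lit 1) (.n (nat_lit 6) (nat_lit 1) (.p (nat_lit 7) (nat_lit 2) (.n (nat_lit 8) (nat_lit 1) (.n (nat_lit 9) (nat_lit 2) (.n (nat_lit 11) (nat_lit 2) (.p (nat_lit 12) (nat_lit 1) (.p (nat_lit 14) (nat_lit 2) (.n (nat_lit 15) (nat_lit 1) (.n (nat_lit 17) (nat_lit 2) (.p (nat_lit 18) (nat_lit 1) (.n (nat_lit 19) (nat_lit 1) (.n (nat_lit 20) (nat_lit 1) (.p (nat_lit 26) (nat_lit 1) (.p (nat_lit 27) (nat_lit 3) (.p (nat_lit 28)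 (nat_lit 1) (.n (nat_lit 29) (nat_lit 1) (.n (nat_lit 30) (nat_lit 1) (.p (nat_lit 32) (nat_lit 1) (.n (nat_lit 33) (nat_lit 4) (.p (nat_lit 35) (nat_lit 1) (.p (nat_lit 36) (nat_lit 2) (.p (nat_lit 37) (nat_lit 1) (.p (nat_lit 39) (nat_lit 3) (.n (nat_lit 40) (nat_lit 2) (.n (nat_lit 41) (nat_lit 2) (.n (nat_lit 49) (nat_lit 1) (.n (nat_lit 54) (nat_lit 1) (.p (nat_lit 55) (nat_lit 1) (.n (nat_lit 62) (nat_lit 1) (.p (nat_lit 70) (nat_lit 1) (.n (nat_lit 71) (nat_lit 2) (.n (nat_lit 72) (nat_lit 1) (.p (nat_lit 73) (nat_lit 1) (.p (nat_lit 74) (nat_lit 1) (.p (nat_lit 75) (nat_lit 1) (.n (nat_lit 76) (nat_lit 1) (.n (nat_lit 77) (nat_lit 1) (.n (nat_lit 78) (nat_lit 1) (.p (nat_lit 83) (nat_lit 1) (.n (nat_lit 85) (nat_lit 1) (.p (nat_lit 89) (nat_lit 1) (.n (nat_lit 92) (nat_lit 1) (.p (nat_lit 95) (nat_lit 1) (.n (nat_lit 101) (nat_lit 1) (.n (nat_lit 110) (nat_lit 1) (.p (nat_lit 113) (nat_lit 1) (.p (nat_lit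 132) (nat_lit 1) (.p (nat_lit 133) (nat_lit 1) (.n (nat_lit 135) (nat_lit 1) (.n (nat_lit 149) (nat_lit 1) (.n (nat_lit 151) (nat_lit 2) (.n (nat_lit 153) (nat_lit 2) (.n (nat_lit 154) (nat_lit 2) (.p (nat_lit 158) (nat_lit 2) (.n (nat_lit 159) (nat_lit 3) (.n (nat_lit 162) (nat_lit 2) .z)))))))))))))))))))))))))))))))))))))))))))))))))))))))))))) (.u (nat_lit 2) (.n (nat_lit 163) (nat_lit 1) (.n (nat_lit 169) (nat_lit 1) (.n (nat_lit 170) (nat_lit 2) (.n (nat_lit 174) (nat_lit 1) (.n (nat_lit 175) (nat_lit 1) (.n (nat_lit 177) (nat_lit 2) (.p (nat_lit 181) (nat_lit 1) (.p (nat_lit 186) (nat_lit 1) (.p (nat_lit 189) (nat_lit 1) (.p (nat_lit 193) (nat_lit 1) (.n (nat_lit 196) (nat_lit 1) (.n (nat_lit 198) (nat_lit 1) (.p (nat_lit 220) (nat_lit 1) (.n (nat_lit 222) (nat_lit 1) (.n (nat_lit 225) (nat_lit 1) (.n (nat_lit 228) (nat_lit 1) (.p (nat_lit 231) (nat_lit 1) (.p (nat_lit 232) (nat_lit 1) (.p (nat_lit 237) (nat_lit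 1) (.n (nat_lit 241) (nat_lit 1) (.n (nat_lit 242) (nat_lit 1) (.n (nat_lit 244) (nat_lit 1) (.n (nat_lit 249) (nat_lit 2) (.p (nat_lit 251) (nat_lit 1) (.n (nat_lit 252) (nat_lit 1) (.n (nat_lit 262) (nat_lit 1) (.p (nat_lit 263) (nat_lit 1) (.p (nat_lit 266) (nat_lit 1) (.p (nat_lit 270) (nat_lit 1) (.p (nat_lit 271) (nat_lit 1) (.n (nat_lit 273) (nat_lit 1) (.p (nat_lit 274) (nat_lit 3) (.p (nat_lit 275) (nat_lit 3) (.p (nat_lit 276) (nat_lit 2) (.p (nat_lit 277) (nat_lit 1) (.n (nat_lit 278) (nat_lit 3) (.p (nat_lit 279) (nat_lit 2) (.p (nat_lit 286) (nat_lit 1) (.n (nat_lit 287) (nat_lit 1) (.p (nat_lit 290) (nat_lit 1) (.p (nat_lit 291) (nat_lit 1) (.n (nat_lit 296) (nat_lit 1) (.p (nat_lit 297) (nat_lit 1) (.n (nat_lit 298) (nat_lit 2) (.p (nat_lit 299) (nat_lit 1) (.p (nat_lit 300) (nat_lit 1) (.n (nat_lit 301) (nat_lit 1) (.p (nat_lit 302) (nat_lit 1) (.p (nat_lit 308) (nat_lit 1) (.n (nat_lit 314) (nat_lit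 1) (.n (nat_lit 315) (nat_lit 1) (.p (nat_lit 317) (nat_lit 1) (.p (nat_lit 318) (nat_lit 1) (.n (nat_lit 319) (nat_lit 1) (.p (nat_lit 320) (nat_lit 1) (.n (nat_lit 321) (nat_lit 1) (.p (nat_lit 322) (nat_lit 1) (.n (nat_lit 323) (nat_lit 1) (.p (nat_lit 324) (nat_lit 1) (.p (nat_lit 326) (nat_lit 1) .z)))))))))))))))))))))))))))))))))))))))))))))))))))))))))))) (.u (nat_lit 2) (.n (nat_lit 327) (nat_lit 12) (.n (nat_lit 328) (nat_lit 10) (.p (nat_lit 329) (nat_lit 12) (.n (nat_lit 330) (nat_lit 18) (.n (nat_lit 331) (nat_lit 1) (.p (nat_lit 332) (nat_lit 7) (.p (nat_lit 333) (nat_lit 22) (.n (nat_lit 334) (nat_lit 2) (.p (nat_lit 335) (nat_lit 7) (.p (nat_lit 336) (nat_lit 18) (.p (nat_lit 337) (nat_lit 19) (.p (nat_lit 338) (nat_lit 21) (.n (nat_lit 339) (nat_lit 8) (.p (nat_lit 340) (nat_lit 9) (.p (nat_lit 341) (nat_lit 16) (.p (nat_lit 342) (nat_lit 5) (.p (nat_lit 343) (nat_lit 13) (.n (nat_lit 344) (nat_lit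 10) (.n (nat_lit 345) (nat_lit 1) (.n (nat_lit 346) (nat_lit 11) (.n (nat_lit 347) (nat_lit 2) (.n (nat_lit 348) (nat_lit 16) (.n (nat_lit 349) (nat_lit 23) (.n (nat_lit 350) (nat_lit 7) (.n (nat_lit 351) (nat_lit 24) (.n (nat_lit 352) (nat_lit 1) (.p (nat_lit 353) (nat_lit 4) (.n (nat_lit 354) (nat_lit 36) (.n (nat_lit 355) (nat_lit 32) (.p (nat_lit 356) (nat_lit 26) (.n (nat_lit 357) (nat_lit 5) (.n (nat_lit 358) (nat_lit 23) (.p (nat_lit 360) (nat_lit 1) (.n (nat_lit 361) (nat_lit 18) (.p (nat_lit 362) (nat_lit 12) (.n (nat_lit 363) (nat_lit 13) (.p (nat_lit 365) (nat_lit 7) (.p (nat_lit 366) (nat_lit 19) (.n (nat_lit 367) (nat_lit 10) (.p (nat_lit 369) (nat_lit 5) (.p (nat_lit 370) (nat_lit 3) (.n (nat_lit 371) (nat_lit 22) (.p (nat_lit 372) (nat_lit 11) (.p (nat_lit 373) (nat_lit 10) (.n (nat_lit 374) (nat_lit 9) (.p (nat_lit 375) (nat_lit 7) (.n (nat_lit 376) (nat_lit 3) (.p (nat_lit 377) (nat_lit 21) (.n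 (nat_lit 378) (nat_lit 8) (.p (nat_lit 379) (nat_lit 2) (.n (nat_lit 380) (nat_lit 14) (.n (nat_lit 381) (nat_lit 22) (.p (nat_lit 382) (nat_lit 2) (.n (nat_lit 383) (nat_lit 6) (.p (nat_lit 384) (nat_lit 17) (.p (nat_lit 385) (nat_lit 12) (.n (nat_lit 386) (nat_lit 14) (.p (nat_lit 387) (nat_lit 11) (.n (nat_lit 388) (nat_lit 3) (.n (nat_lit 389) (nat_lit 4) .z)))))))))))))))))))))))))))))))))))))))))))))))))))))))))))) (.u (nat_lit 2) (.p (nat_lit 390) (nat_lit 2) (.n (nat_lit 391) (nat_lit 3) (.p (nat_lit 392) (nat_lit 7) (.n (nat_lit 393) (nat_lit 6) (.p (nat_lit 394) (nat_lit 25) (.p (nat_lit 395) (nat_lit 1) (.p (nat_lit 396) (nat_lit 3) (.n (nat_lit 397) (nat_lit 7) (.p (nat_lit 398) (nat_lit 4) (.n (nat_lit 399) (nat_lit 2) (.p (nat_lit 400) (nat_lit 2) (.n (nat_lit 401) (nat_lit 12) (.n (nat_lit 402) (nat_lit 8) (.p (nat_lit 403) (nat_lit 3) (.p (nat_lit 404) (nat_lit 4) (.n (nat_lit 405) (nat_lit 4) (.p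 (nat_lit 406) (nat_lit 3) (.n (nat_lit 408) (nat_lit 2) (.n (nat_lit 409) (nat_lit 1) (.p (nat_lit 410) (nat_lit 9) (.p (nat_lit 411) (nat_lit 5) (.p (nat_lit 412) (nat_lit 7) (.p (nat_lit 413) (nat_lit 7) (.n (nat_lit 414) (nat_lit 13) (.n (nat_lit 415) (nat_lit 4) (.p (nat_lit 416) (nat_lit 1) (.n (nat_lit 417) (nat_lit 1) (.p (nat_lit 418) (nat_lit 3) (.p (nat_lit 419) (nat_lit 2) (.n (nat_lit 420) (nat_lit 8) (.n (nat_lit 421) (nat_lit 4) (.n (nat_lit 422) (nat_lit 8) (.p (nat_lit 423) (nat_lit 4) (.p (nat_lit 424) (nat_lit 5) (.n (nat_lit 425) (nat_lit 4) (.n (nat_lit 426) (nat_lit 1) (.n (nat_lit 427) (nat_lit 1) (.p (nat_lit 428) (nat_lit 13) (.p (nat_lit 429) (nat_lit 2) (.p (nat_lit 430) (nat_lit 5) (.p (nat_lit 431) (nat_lit 10) (.n (nat_lit 432) (nat_lit 2) (.p (nat_lit 433) (nat_lit 11) (.n (nat_lit 434) (nat_lit 6) .z)))))))))))))))))))))))))))))))))))))))))))) .nil)))))))))))))))))))))))))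

noncomputable def dC1d_i270 : IL := (.e false (nat_lit 2) (nat_lit 225) (nat_lit 2) (nat_lit 17) (.e true (nat_lit 3) (nat_lit 228) (nat_lit 2) (nat_lit 17) (.e false (nat_lit 1) (nat_lit 246) (nat_lit 2) (nat_lit 17) (.e true (nat_lit 1) (nat_lit 247) (nat_lit 2) (nat_lit 17) (.e true (nat_lit 1) (nat_lit 139) (nat_lit 5) (nat_lit 14) (.e true (nat_lit 3) (nat_lit 251) (nat_lit 2) (nat_lit 17) (.e true (nat_lit 2) (nat_lit 261) (nat_lit 1) (nat_lit 18) (.e false (nat_lit 2) (nat_lit 264) (nat_lit 1) (nat_lit 18) (.e true (nat_lit 2) (nat_lit 266) (nat_lit 1) (nat_lit 18) (.e true (nat_lit 2) (nat_lit 269) (nat_lit 1) (nat_lit 18) (.e false (nat_lit 2) (nat_lit 271) (nat_lit 1) (nat_lit 18) (.e false (nat_lit 1) (nat_lit 272) (nat_lit 1) (nat_lit 18) (.e true (nat_lit 2) (nat_lit 273) (nat_lit 1) (nat_lit 18) (.e true (nat_lit 2) (nat_lit 278) (nat_lit 1) (nat_lit 18) (.e true (nat_lit 2) (nat_lit 279) (nat_lit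 1) (nat_lit 18) (.e false (nat_lit 3) (nat_lit 260) (nat_lit 1) (nat_lit 18) (.e false (nat_lit 1) (nat_lit 274) (nat_lit 1) (nat_lit 18) (.e false (nat_lit 1) (nat_lit 270) (nat_lit 1) (nat_lit 18) (.e false (nat_lit 3) (nat_lit 265) (nat_lit 1) (nat_lit 18) (.e true (nat_lit 3) (nat_lit 263) (nat_lit 1) (nat_lit 18) (.e false (nat_lit 2) (nat_lit 268) (nat_lit 1) (nat_lit 18) (.e false (nat_lit 3) (nat_lit 291) (nat_lit 0) (nat_lit 19) (.e true (nat_lit 2) (nat_lit 299) (nat_lit 0) (nat_lit 19) (.e true (nat_lit 2) (nat_lit 301) (nat_lit 0) (nat_lit 19) (.e false (nat_lit 3) (nat_lit 304) (nat_lit 0) (nat_lit 19) dC1d_i269)))))))))))))))))))))))))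

noncomputable def dC1d_i271 : IL := (.a true (nat_lit 3) (nat_lit 32) (nat_lit 36) (nat_lit 0) (nat_lit 0) (.a false (nat_lit 2) (nat_lit 33) (nat_lit 33) (nat_lit 0) (nat_lit 0) (.a true (nat_lit 3) (nat_lit 33) (nat_lit 34) (nat_lit 0) (nat_lit 0) (.a true (nat_lit 3) (nat_lit 33) (nat_lit 35) (nat_lit 0) (nat_lit 0) (.a false (nat_lit 3) (nat_lit 33) (nat_lit 36) (nat_lit 0) (nat_lit 0) (.a true (nat_lit 3) (nat_lit 34) (nat_lit 35) (nat_lit 0) (nat_lit 0) (.a false (nat_lit 3) (nat_lit 34) (nat_lit 36) (nat_lit 0) (nat_lit 0) (.a false (nat_lit 3) (nat_lit 35) (nat_lit 36) (nat_lit 0) (nat_lit 0) (.e false (nat_lit 1) (nat_lit 212) (nat_lit 2) (nat_lit 17) (.e true (nat_lit 1) (nat_lit 216) (nat_lit 2) (nat_lit 17) (.e true (nat_lit 2) (nat_lit 217) (nat_lit 2) (nat_lit 17) (.e false (nat_lit 1) (nat_lit 219) (nat_lit 2) (nat_lit 17) (.e false (nat_lit 2) (nat_lit 221) (nat_lit 2) (nat_lit 17) (.e true (nat_lit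 2) (nat_lit 223) (nat_lit 2) (nat_lit 17) (.e true (nat_lit 3) (nat_lit 233) (nat_lit 2) (nat_lit 17) (.e true (nat_lit 1) (nat_lit 234) (nat_lit 2) (nat_lit 17) (.e false (nat_lit 3) (nat_lit 235) (nat_lit 2) (nat_lit 17) (.e true (nat_lit 2) (nat_lit 244) (nat_lit 2) (nat_lit 17) (.e true (nat_lit 1) (nat_lit 245) (nat_lit 2) (nat_lit 17) (.e false (nat_lit 1) (nat_lit 248) (nat_lit 2) (nat_lit 17) (.e false (nat_lit 3) (nat_lit 224) (nat_lit 2) (nat_lit 17) (.e true (nat_lit 2) (nat_lit 227) (nat_lit 2) (nat_lit 17) (.e true (nat_lit 3) (nat_lit 232) (nat_lit 2) (nat_lit 17) (.e false (nat_lit 2) (nat_lit 249) (nat_lit 2) (nat_lit 17) (.e false (nat_lit 3) (nat_lit 214) (nat_lit 2) (nat_lit 17) dC1d_i270)))))))))))))))))))))))))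

noncomputable def dC1d_i272 : IL := (.s true (nat_lit 3) (nat_lit 96) (nat_lit 0) (nat_lit 2) (nat_lit 0) false (nat_lit 20) true (nat_lit 19) false (nat_lit 10) true (nat_lit 19) true (nat_lit 17) (.s false (nat_lit 1) (nat_lit 97) (nat_lit 0) (nat_lit 2) (nat_lit 0) false (nat_lit 20) true (nat_lit 19) false (nat_lit 10) true (nat_lit 19) true (nat_lit 17) (.s false (nat_lit 1) (nat_lit 98) (nat_lit 0) (nat_lit 1) (nat_lit 1) true (nat_lit 16) true (nat_lit 18) false (nat_lit 11) true (nat_lit 19) true (nat_lit 18) (.s true (nat_lit 1) (nat_lit 99) (nat_lit 1) (nat_lit 0) (nat_lit 1) false (nat_lit 21) true (nat_lit 18) false (nat_lit 11) true (nat_lit 18) true (nat_lit 19) (.s false (nat_lit 1) (nat_lit 101) (nat_lit 1) (nat_lit 0) (nat_lit 1) false (nat_lit 21) true (nat_lit 18) false (nat_lit 11) true (nat_lit 18) true (nat_lit 19) (.s false (nat_lit 1) (nat_lit 98) (nat_lit 1) (nat_lit 1) (nat_lit 0) true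 (nat_lit 16) true (nat_lit 19) false (nat_lit 11) true (nat_lit 18) true (nat_lit 18) (.s true (nat_lit 1) (nat_lit 101) (nat_lit 1) (nat_lit 1) (nat_lit 0) true (nat_lit 16) true (nat_lit 19) false (nat_lit 11) true (nat_lit 18) true (nat_lit 18) (.s true (nat_lit 1) (nat_lit 103) (nat_lit 0) (nat_lit 0) (nat_lit 1) true (nat_lit 16) true (nat_lit 18) false (nat_lit 12) true (nat_lit 19) true (nat_lit 19) (.s true (nat_lit 3) (nat_lit 105) (nat_lit 0) (nat_lit 0) (nat_lit 1) true (nat_lit 16) true (nat_lit 18) false (nat_lit 12) true (nat_lit 19) true (nat_lit 19) (.s false (nat_lit 1) (nat_lit 102) (nat_lit 0) (nat_lit 1) (nat_lit 0) false (nat_lit 20) true (nat_lit 19) false (nat_lit 12) true (nat_lit 19) true (nat_lit 18) (.s false (nat_lit 2) (nat_lit 103) (nat_lit 0) (nat_lit 1) (nat_lit 0) false (nat_lit 20) true (nat_lit 19) false (nat_lit 12) true (nat_lit 19) true (nat_lit 18) (.s false (nat_lit 2) (nat_lit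 104) (nat_lit 0) (nat_lit 1) (nat_lit 0) false (nat_lit 20) true (nat_lit 19) false (nat_lit 12) true (nat_lit 19) true (nat_lit 18) (.s false (nat_lit 2) (nat_lit 105) (nat_lit 0) (nat_lit 1) (nat_lit 0) false (nat_lit 20) true (nat_lit 19) false (nat_lit 12) true (nat_lit 19) true (nat_lit 18) (.a false (nat_lit 2) (nat_lit 31) (nat_lit 31) (nat_lit 0) (nat_lit 0) (.a false (nat_lit 3) (nat_lit 32) (nat_lit 32) (nat_lit 0) (nat_lit 0) (.a false (nat_lit 1) (nat_lit 34) (nat_lit 34) (nat_lit 0) (nat_lit 0) (.a true (nat_lit 2) (nat_lit 35) (nat_lit 35) (nat_lit 0) (nat_lit 0) (.a true (nat_lit 1) (nat_lit 36) (nat_lit 36) (nat_lit 0) (nat_lit 0) (.a false (nat_lit 1) (nat_lit 31) (nat_lit 32) (nat_lit 0) (nat_lit 0) (.a true (nat_lit 1) (nat_lit 31) (nat_lit 33) (nat_lit 0) (nat_lit 0) (.a true (nat_lit 1) (nat_lit 31) (nat_lit 34) (nat_lit 0) (nat_lit 0) (.a false (nat_lit 1) (nat_lit 31) (nat_lit 36) (nat_lit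 0) (nat_lit 0) (.a false (nat_lit 3) (nat_lit 32) (nat_lit 33) (nat_lit 0) (nat_lit 0) (.a false (nat_lit 3) (nat_lit 32) (nat_lit 34) (nat_lit 0) (nat_lit 0) (.a false (nat_lit 3) (nat_lit 32) (nat_lit 35) (nat_lit 0) (nat_lit 0) dC1d_i271)))))))))))))))))))))))))

noncomputable def dC1d_i273 : IL := (.s true (nat_lit 1) (nat_lit 81) (nat_lit 1) (nat_lit 2) (nat_lit 1) false (nat_lit 21) true (nat_lit 18) false (nat_lit 8) true (nat_lit 18) true (nat_lit 17) (.s false (nat_lit 2) (nat_lit 80) (nat_lit 2) (nat_lit 1) (nat_lit 1) true (nat_lit 14) true (nat_lit 18) false (nat_lit 8) true (nat_lit 17) true (nat_lit 18) (.s true (nat_lit 3) (nat_lit 82) (nat_lit 0) (nat_lit 1) (nat_lit 2) true (nat_lit 15) true (nat_lit 17) false (nat_lit 9) true (nat_lit 19) true (nat_lit 18) (.s false (nat_lit 1) (nat_lit 90) (nat_lit 0) (nat_lit 1) (nat_lit 2) true (nat_lit 15) true (nat_lit 17) false (nat_lit 9) true (nat_lit 19)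 true (nat_lit 18) (.s false (nat_lit 1) (nat_lit 82) (nat_lit 0) (nat_lit 2) (nat_lit 1) true (nat_lit 16) true (nat_lit 18) false (nat_lit 9) true (nat_lit 19) true (nat_lit 17) (.s true (nat_lit 2) (nat_lit 83) (nat_lit 0) (nat_lit 2) (nat_lit 1) true (nat_lit 16) true (nat_lit 18) false (nat_lit 9) true (nat_lit 19) true (nat_lit 17) (.s false (nat_lit 3) (nat_lit 88) (nat_lit 0) (nat_lit 2) (nat_lit 1) true (nat_lit 16) true (nat_lit 18) false (nat_lit 9) true (nat_lit 19) true (nat_lit 17) (.s true (nat_lit 2) (nat_lit 91) (nat_lit 0) (nat_lit 2) (nat_lit 1) true (nat_lit 16) true (nat_lit 18) false (nat_lit 9) true (nat_lit 19) true (nat_lit 17) (.s false (nat_lit 1) (nat_lit 82) (nat_lit 1) (nat_lit 2) (nat_lit 0) true (nat_lit 16) true (nat_lit 19) false (nat_lit 9) true (nat_lit 18) true (nat_lit 17) (.s true (nat_lit 1) (nat_lit 83) (nat_lit 1) (nat_lit 2) (nat_lit 0) true (nat_lit 16) true (nat_lit 19)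 false (nat_lit 9) true (nat_lit 18) true (nat_lit 17) (.s true (nat_lit 3) (nat_lit 84) (nat_lit 1) (nat_lit 2) (nat_lit 0) true (nat_lit 16) true (nat_lit 19) false (nat_lit 9) true (nat_lit 18) true (nat_lit 17) (.s true (nat_lit 2) (nat_lit 86) (nat_lit 1) (nat_lit 2) (nat_lit 0) true (nat_lit 16) true (nat_lit 19) false (nat_lit 9) true (nat_lit 18) true (nat_lit 17) (.s true (nat_lit 3) (nat_lit 87) (nat_lit 1) (nat_lit 2) (nat_lit 0) true (nat_lit 16) true (nat_lit 19) false (nat_lit 9) true (nat_lit 18) true (nat_lit 17) (.s false (nat_lit 1) (nat_lit 88) (nat_lit 1) (nat_lit 2) (nat_lit 0) true (nat_lit 16) true (nat_lit 19) false (nat_lit 9) true (nat_lit 18) true (nat_lit 17) (.s true (nat_lit 2) (nat_lit 89) (nat_lit 1) (nat_lit 2) (nat_lit 0) true (nat_lit 16) true (nat_lit 19) false (nat_lit 9) true (nat_lit 18) true (nat_lit 17) (.s true (nat_lit 1) (nat_lit 90) (nat_lit 1) (nat_lit 2) (nat_lit 0)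 true (nat_lit 16) true (nat_lit 19) false (nat_lit 9) true (nat_lit 18) true (nat_lit 17) (.s true (nat_lit 3) (nat_lit 91) (nat_lit 1) (nat_lit 2) (nat_lit 0) true (nat_lit 16) true (nat_lit 19) false (nat_lit 9) true (nat_lit 18) true (nat_lit 17) (.s true (nat_lit 2) (nat_lit 92) (nat_lit 1) (nat_lit 2) (nat_lit 0) true (nat_lit 16) true (nat_lit 19) false (nat_lit 9) true (nat_lit 18) true (nat_lit 17) (.s true (nat_lit 3) (nat_lit 82) (nat_lit 2) (nat_lit 1) (nat_lit 0) true (nat_lit 15) true (nat_lit 19) false (nat_lit 9) true (nat_lit 17) true (nat_lit 18) (.s true (nat_lit 1) (nat_lit 83) (nat_lit 2) (nat_lit 1) (nat_lit 0) true (nat_lit 15) true (nat_lit 19) false (nat_lit 9) true (nat_lit 17) true (nat_lit 18) (.s false (nat_lit 1) (nat_lit 90) (nat_lit 2) (nat_lit 1) (nat_lit 0) true (nat_lit 15) true (nat_lit 19) false (nat_lit 9) true (nat_lit 17) true (nat_lit 18) (.s true (nat_lit 3) (nat_lit 91)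 (nat_lit 2) (nat_lit 1) (nat_lit 0) true (nat_lit 15) true (nat_lit 19) false (nat_lit 9) true (nat_lit 17) true (nat_lit 18) (.s false (nat_lit 3) (nat_lit 93) (nat_lit 0) (nat_lit 0) (nat_lit 2) true (nat_lit 15) true (nat_lit 17) false (nat_lit 10) true (nat_lit 19) true (nat_lit 19) (.s true (nat_lit 2) (nat_lit 94) (nat_lit 0) (nat_lit 2) (nat_lit 0) false (nat_lit 20) true (nat_lit 19) false (nat_lit 10) true (nat_lit 19) true (nat_lit 17) (.s false (nat_lit 1) (nat_lit 95) (nat_lit 0) (nat_lit 2) (nat_lit 0) false (nat_lit 20) true (nat_lit 19) false (nat_lit 10) true (nat_lit 19) true (nat_lit 17) dC1d_i272)))))))))))))))))))))))))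

noncomputable def dC1d_i274 : IL := (.s false (nat_lit 2) (nat_lit 56) (nat_lit 2) (nat_lit 2) (nat_lit 1) true (nat_lit 14) true (nat_lit 18) false (nat_lit 6) true (nat_lit 17) true (nat_lit 17) (.s false (nat_lit 2) (nat_lit 57) (nat_lit 2) (nat_lit 2) (nat_lit 1) true (nat_lit 14) true (nat_lit 18) false (nat_lit 6) true (nat_lit 17) true (nat_lit 17) (.s false (nat_lit 2) (nat_lit 58) (nat_lit 2) (nat_lit 2) (nat_lit 1) true (nat_lit 14) true (nat_lit 18) false (nat_lit 6) true (nat_lit 17) true (nat_lit 17) (.s false (nat_lit 1) (nat_lit 61) (nat_lit 2) (nat_lit 2) (nat_lit 1) true (nat_lit 14) true (nat_lit 18) false (nat_lit 6) true (nat_lit 17) true (nat_lit 17) (.s false (nat_lit 1) (nat_lit 62) (nat_lit 2) (nat_lit 2) (nat_lit 1) true (nat_lit 14) true (nat_lit 18) false (nat_lit 6) true (nat_lit 17) true (nat_lit 17) (.s false (nat_lit 1) (nat_lit 64) (nat_lit 2) (nat_lit 2) (nat_lit 1) true (nat_lit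 14) true (nat_lit 18) false (nat_lit 6) true (nat_lit 17) true (nat_lit 17) (.s true (nat_lit 3) (nat_lit 69) (nat_lit 0) (nat_lit 2) (nat_lit 2) true (nat_lit 15) true (nat_lit 17) false (nat_lit 7) true (nat_lit 19) true (nat_lit 17) (.s true (nat_lit 3) (nat_lit 72) (nat_lit 0) (nat_lit 2) (nat_lit 2) true (nat_lit 15) true (nat_lit 17) false (nat_lit 7) true (nat_lit 19) true (nat_lit 17) (.s false (nat_lit 2) (nat_lit 74) (nat_lit 0) (nat_lit 2) (nat_lit 2) true (nat_lit 15) true (nat_lit 17) false (nat_lit 7) true (nat_lit 19) true (nat_lit 17) (.s false (nat_lit 3) (nat_lit 75) (nat_lit 0) (nat_lit 2) (nat_lit 2) true (nat_lit 15) true (nat_lit 17) false (nat_lit 7) true (nat_lit 19) true (nat_lit 17) (.s false (nat_lit 1) (nat_lit 76) (nat_lit 0) (nat_lit 2) (nat_lit 2) true (nat_lit 15) true (nat_lit 17) false (nat_lit 7) true (nat_lit 19) true (nat_lit 17) (.s false (nat_lit 1) (nat_lit 66) (nat_lit 2)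 (nat_lit 0) (nat_lit 2) true (nat_lit 13) true (nat_lit 17) false (nat_lit 7) true (nat_lit 17) true (nat_lit 19) (.s false (nat_lit 1) (nat_lit 74) (nat_lit 2) (nat_lit 0) (nat_lit 2) true (nat_lit 13) true (nat_lit 17) false (nat_lit 7) true (nat_lit 17) true (nat_lit 19) (.s false (nat_lit 3) (nat_lit 75) (nat_lit 2) (nat_lit 0) (nat_lit 2) true (nat_lit 13) true (nat_lit 17) false (nat_lit 7) true (nat_lit 17) true (nat_lit 19) (.s true (nat_lit 2) (nat_lit 66) (nat_lit 2) (nat_lit 2) (nat_lit 0) true (nat_lit 15) true (nat_lit 19) false (nat_lit 7) true (nat_lit 17) true (nat_lit 17) (.s false (nat_lit 2) (nat_lit 69) (nat_lit 2) (nat_lit 2) (nat_lit 0) true (nat_lit 15) true (nat_lit 19) false (nat_lit 7) true (nat_lit 17) true (nat_lit 17) (.s true (nat_lit 3) (nat_lit 70) (nat_lit 2) (nat_lit 2) (nat_lit 0) true (nat_lit 15) true (nat_lit 19) false (nat_lit 7) true (nat_lit 17) true (nat_lit 17) (.s true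 (nat_lit 1) (nat_lit 72) (nat_lit 2) (nat_lit 2) (nat_lit 0) true (nat_lit 15) true (nat_lit 19) false (nat_lit 7) true (nat_lit 17) true (nat_lit 17) (.s true (nat_lit 1) (nat_lit 73) (nat_lit 2) (nat_lit 2) (nat_lit 0) true (nat_lit 15) true (nat_lit 19) false (nat_lit 7) true (nat_lit 17) true (nat_lit 17) (.s false (nat_lit 1) (nat_lit 75) (nat_lit 2) (nat_lit 2) (nat_lit 0) true (nat_lit 15) true (nat_lit 19) false (nat_lit 7) true (nat_lit 17) true (nat_lit 17) (.s true (nat_lit 3) (nat_lit 78) (nat_lit 1) (nat_lit 1) (nat_lit 2) true (nat_lit 14) true (nat_lit 17) false (nat_lit 8) true (nat_lit 18) true (nat_lit 18) (.s true (nat_lit 1) (nat_lit 79) (nat_lit 1) (nat_lit 1) (nat_lit 2) true (nat_lit 14) true (nat_lit 17) false (nat_lit 8) true (nat_lit 18) true (nat_lit 18) (.s false (nat_lit 3) (nat_lit 80) (nat_lit 1) (nat_lit 1) (nat_lit 2) true (nat_lit 14) true (nat_lit 17) false (nat_lit 8) true (nat_lit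 18) true (nat_lit 18) (.s false (nat_lit 1) (nat_lit 81) (nat_lit 1) (nat_lit 1) (nat_lit 2) true (nat_lit 14) true (nat_lit 17) false (nat_lit 8) true (nat_lit 18) true (nat_lit 18) (.s false (nat_lit 1) (nat_lit 79) (nat_lit 1) (nat_lit 2) (nat_lit 1) false (nat_lit 21) true (nat_lit 18) false (nat_lit 8) true (nat_lit 18) true (nat_lit 17) dC1d_i273)))))))))))))))))))))))))

noncomputable def dC1d_i275 : IL := (.s true (nat_lit 2) (nat_lit 43) (nat_lit 5) (nat_lit 0) (nat_lit 0) true (nat_lit 9) true (nat_lit 19) false (nat_lit 3) true (nat_lit 14) true (nat_lit 19) (.s false (nat_lit 2) (nat_lit 45) (nat_lit 5) (nat_lit 0) (nat_lit 0) true (nat_lit 9) true (nat_lit 19) false (nat_lit 3) true (nat_lit 14) true (nat_lit 19) (.s true (nat_lit 1) (nat_lit 46) (nat_lit 0) (nat_lit 3) (nat_lit 1) true (nat_lit 16) true (nat_lit 18) false (nat_lit 4) true (nat_lit 19) true (nat_lit 16) (.s true (nat_lit 2) (nat_lit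 46) (nat_lit 3) (nat_lit 0) (nat_lit 1) true (nat_lit 11) true (nat_lit 18) false (nat_lit 4) true (nat_lit 16) true (nat_lit 19) (.s true (nat_lit 1) (nat_lit 48) (nat_lit 2) (nat_lit 2) (nat_lit 2) true (nat_lit 13) true (nat_lit 17) false (nat_lit 5) true (nat_lit 17) true (nat_lit 17) (.s false (nat_lit 2) (nat_lit 49) (nat_lit 2) (nat_lit 2) (nat_lit 2) true (nat_lit 13) true (nat_lit 17) false (nat_lit 5) true (nat_lit 17) true (nat_lit 17) (.s false (nat_lit 1) (nat_lit 50) (nat_lit 2) (nat_lit 2) (nat_lit 2) true (nat_lit 13) true (nat_lit 17) false (nat_lit 5) true (nat_lit 17) true (nat_lit 17) (.s true (nat_lit 1) (nat_lit 54) (nat_lit 2) (nat_lit 2) (nat_lit 2) true (nat_lit 13) true (nat_lit 17) false (nat_lit 5) true (nat_lit 17) true (nat_lit 17) (.s true (nat_lit 1) (nat_lit 55) (nat_lit 1) (nat_lit 2) (nat_lit 2) true (nat_lit 14) true (nat_lit 17) false (nat_lit 6) true (nat_lit 18) true (nat_lit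 17) (.s true (nat_lit 1) (nat_lit 56) (nat_lit 1) (nat_lit 2) (nat_lit 2) true (nat_lit 14) true (nat_lit 17) false (nat_lit 6) true (nat_lit 18) true (nat_lit 17) (.s true (nat_lit 3) (nat_lit 57) (nat_lit 1) (nat_lit 2) (nat_lit 2) true (nat_lit 14) true (nat_lit 17) false (nat_lit 6) true (nat_lit 18) true (nat_lit 17) (.s true (nat_lit 2) (nat_lit 58) (nat_lit 1) (nat_lit 2) (nat_lit 2) true (nat_lit 14) true (nat_lit 17) false (nat_lit 6) true (nat_lit 18) true (nat_lit 17) (.s true (nat_lit 1) (nat_lit 61) (nat_lit 1) (nat_lit 2) (nat_lit 2) true (nat_lit 14) true (nat_lit 17) false (nat_lit 6) true (nat_lit 18) true (nat_lit 17) (.s false (nat_lit 2) (nat_lit 62) (nat_lit 1) (nat_lit 2) (nat_lit 2) true (nat_lit 14) true (nat_lit 17) false (nat_lit 6) true (nat_lit 18) true (nat_lit 17) (.s true (nat_lit 1) (nat_lit 64) (nat_lit 1) (nat_lit 2) (nat_lit 2) true (nat_lit 14) true (nat_lit 17) false (nat_lit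 6) true (nat_lit 18) true (nat_lit 17) (.s true (nat_lit 1) (nat_lit 65) (nat_lit 1) (nat_lit 2) (nat_lit 2) true (nat_lit 14) true (nat_lit 17) false (nat_lit 6) true (nat_lit 18) true (nat_lit 17) (.s false (nat_lit 1) (nat_lit 55) (nat_lit 2) (nat_lit 1) (nat_lit 2) true (nat_lit 13) true (nat_lit 17) false (nat_lit 6) true (nat_lit 17) true (nat_lit 18) (.s true (nat_lit 2) (nat_lit 57) (nat_lit 2) (nat_lit 1) (nat_lit 2) true (nat_lit 13) true (nat_lit 17) false (nat_lit 6) true (nat_lit 17) true (nat_lit 18) (.s true (nat_lit 1) (nat_lit 58) (nat_lit 2) (nat_lit 1) (nat_lit 2) true (nat_lit 13) true (nat_lit 17) false (nat_lit 6) true (nat_lit 17) true (nat_lit 18) (.s true (nat_lit 1) (nat_lit 60) (nat_lit 2) (nat_lit 1) (nat_lit 2) true (nat_lit 13) true (nat_lit 17) false (nat_lit 6) true (nat_lit 17) true (nat_lit 18) (.s true (nat_lit 3) (nat_lit 61) (nat_lit 2) (nat_lit 1) (nat_lit 2) true (nat_lit 13)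 true (nat_lit 17) false (nat_lit 6) true (nat_lit 17) true (nat_lit 18) (.s true (nat_lit 1) (nat_lit 62) (nat_lit 2) (nat_lit 1) (nat_lit 2) true (nat_lit 13) true (nat_lit 17) false (nat_lit 6) true (nat_lit 17) true (nat_lit 18) (.s false (nat_lit 1) (nat_lit 64) (nat_lit 2) (nat_lit 1) (nat_lit 2) true (nat_lit 13) true (nat_lit 17) false (nat_lit 6) true (nat_lit 17) true (nat_lit 18) (.s false (nat_lit 1) (nat_lit 65) (nat_lit 2) (nat_lit 1) (nat_lit 2) true (nat_lit 13) true (nat_lit 17) false (nat_lit 6) true (nat_lit 17) true (nat_lit 18) (.s true (nat_lit 3) (nat_lit 55) (nat_lit 2) (nat_lit 2) (nat_lit 1) true (nat_lit 14) true (nat_lit 18) false (nat_lit 6) true (nat_lit 17) true (nat_lit 17) dC1d_i274)))))))))))))))))))))))))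

noncomputable def dC1d_i276 : IL := (.s false (nat_lit 1) (nat_lit 28) (nat_lit 2) (nat_lit 5) (nat_lit 1) true (nat_lit 14) true (nat_lit 18) true (nat_lit 1) true (nat_lit 17) true (nat_lit 14) (.s true (nat_lit 1) (nat_lit 28) (nat_lit 5) (nat_lit 1) (nat_lit 2) true (nat_lit 6) true (nat_lit 17) true (nat_lit 1) true (nat_lit 14) true (nat_lit 18) (.s true (nat_lit 3) (nat_lit 29) (nat_lit 6) (nat_lit 1) (nat_lit 1) true (nat_lit 6) true (nat_lit 18) true (nat_lit 1) true (nat_lit 13) true (nat_lit 18) (.s false (nat_lit 1) (nat_lit 31) (nat_lit 0) (nat_lit 1) (nat_lit 6) true (nat_lit 7) true (nat_lit 13) true (nat_lit 0) true (nat_lit 19) true (nat_lit 18) (.s false (nat_lit 1) (nat_lit 35) (nat_lit 0) (nat_lit 1) (nat_lit 6) true (nat_lit 7) true (nat_lit 13) true (nat_lit 0) true (nat_lit 19) true (nat_lit 18) (.s false (nat_lit 3) (nat_lit 31) (nat_lit 0) (nat_lit 2) (nat_lit 5) true (nat_lit 9) true (nat_lit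 14) true (nat_lit 0) true (nat_lit 19) true (nat_lit 17) (.s true (nat_lit 3) (nat_lit 31) (nat_lit 1) (nat_lit 2) (nat_lit 4) true (nat_lit 9) true (nat_lit 15) true (nat_lit 0) true (nat_lit 18) true (nat_lit 17) (.s false (nat_lit 1) (nat_lit 31) (nat_lit 1) (nat_lit 6) (nat_lit 0) true (nat_lit 16) true (nat_lit 19) true (nat_lit 0) true (nat_lit 18) true (nat_lit 13) (.s false (nat_lit 2) (nat_lit 31) (nat_lit 2) (nat_lit 1) (nat_lit 4) true (nat_lit 7) true (nat_lit 15) true (nat_lit 0) true (nat_lit 17) true (nat_lit 18) (.s true (nat_lit 1) (nat_lit 35) (nat_lit 2) (nat_lit 2) (nat_lit 3) true (nat_lit 9) true (nat_lit 16) true (nat_lit 0) true (nat_lit 17) true (nat_lit 17) (.s true (nat_lit 1) (nat_lit 35) (nat_lit 2) (nat_lit 3) (nat_lit 2) true (nat_lit 13) true (nat_lit 17) true (nat_lit 0) true (nat_lit 17) true (nat_lit 16) (.s false (nat_lit 3) (nat_lit 31) (nat_lit 3) (nat_lit 2) (nat_lit 2) true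 (nat_lit 9) true (nat_lit 17) true (nat_lit 0) true (nat_lit 16) true (nat_lit 17) (.s false (nat_lit 2) (nat_lit 31) (nat_lit 4) (nat_lit 1) (nat_lit 2) true (nat_lit 7) true (nat_lit 17) true (nat_lit 0) true (nat_lit 15) true (nat_lit 18) (.s false (nat_lit 2) (nat_lit 31) (nat_lit 4) (nat_lit 2) (nat_lit 1) true (nat_lit 9) true (nat_lit 18) true (nat_lit 0) true (nat_lit 15) true (nat_lit 17) (.s false (nat_lit 2) (nat_lit 37) (nat_lit 0) (nat_lit 2) (nat_lit 4) true (nat_lit 10) true (nat_lit 15) false (nat_lit 1) true (nat_lit 19) true (nat_lit 17) (.s true (nat_lit 3) (nat_lit 37) (nat_lit 6) (nat_lit 0) (nat_lit 0) true (nat_lit 7) true (nat_lit 19) false (nat_lit 1) true (nat_lit 13) true (nat_lit 19) (.s true (nat_lit 1) (nat_lit 40) (nat_lit 0) (nat_lit 1) (nat_lit 5) true (nat_lit 9) true (nat_lit 14) false (nat_lit 2) true (nat_lit 19) true (nat_lit 18) (.s true (nat_lit 1) (nat_lit 40) (nat_lit 1)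 (nat_lit 2) (nat_lit 3) true (nat_lit 11) true (nat_lit 16) false (nat_lit 2) true (nat_lit 18) true (nat_lit 17) (.s true (nat_lit 1) (nat_lit 41) (nat_lit 1) (nat_lit 5) (nat_lit 0) true (nat_lit 16) true (nat_lit 19) false (nat_lit 2) true (nat_lit 18) true (nat_lit 14) (.s true (nat_lit 1) (nat_lit 42) (nat_lit 1) (nat_lit 5) (nat_lit 0) true (nat_lit 16) true (nat_lit 19) false (nat_lit 2) true (nat_lit 18) true (nat_lit 14) (.s false (nat_lit 3) (nat_lit 40) (nat_lit 4) (nat_lit 1) (nat_lit 1) true (nat_lit 9) true (nat_lit 18) false (nat_lit 2) true (nat_lit 15) true (nat_lit 18) (.s true (nat_lit 2) (nat_lit 43) (nat_lit 0) (nat_lit 2) (nat_lit 3) true (nat_lit 12) true (nat_lit 16) false (nat_lit 3) true (nat_lit 19) true (nat_lit 17) (.s false (nat_lit 3) (nat_lit 45) (nat_lit 0) (nat_lit 2) (nat_lit 3) true (nat_lit 12) true (nat_lit 16) false (nat_lit 3) true (nat_lit 19) true (nat_lit 17) (.s true (nat_lit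 3) (nat_lit 44) (nat_lit 2) (nat_lit 3) (nat_lit 0) true (nat_lit 15) true (nat_lit 19) false (nat_lit 3) true (nat_lit 17) true (nat_lit 16) (.s true (nat_lit 3) (nat_lit 44) (nat_lit 4) (nat_lit 1) (nat_lit 0) true (nat_lit 10) true (nat_lit 19) false (nat_lit 3) true (nat_lit 15) true (nat_lit 18) dC1d_i275)))))))))))))))))))))))))

noncomputable def dC1d_i277 : IL := (.s true (nat_lit 1) (nat_lit 21) (nat_lit 1) (nat_lit 2) (nat_lit 6) true (nat_lit 6) true (nat_lit 13) true (nat_lit 3) true (nat_lit 18) true (nat_lit 17) (.s true (nat_lit 2) (nat_lit 22) (nat_lit 1) (nat_lit 2) (nat_lit 6) true (nat_lit 6) true (nat_lit 13) true (nat_lit 3) true (nat_lit 18) true (nat_lit 17) (.s false (nat_lit 2) (nat_lit 21) (nat_lit 2) (nat_lit 2) (nat_lit 5) true (nat_lit 6) true (nat_lit 14) true (nat_lit 3) true (nat_lit 17) true (nat_lit 17) (.s false (nat_lit 1) (nat_lit 22) (nat_lit 2) (nat_lit 2) (nat_lit 5) true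 (nat_lit 6) true (nat_lit 14) true (nat_lit 3) true (nat_lit 17) true (nat_lit 17) (.s false (nat_lit 3) (nat_lit 20) (nat_lit 2) (nat_lit 5) (nat_lit 2) true (nat_lit 13) true (nat_lit 17) true (nat_lit 3) true (nat_lit 17) true (nat_lit 14) (.s true (nat_lit 3) (nat_lit 20) (nat_lit 2) (nat_lit 6) (nat_lit 1) true (nat_lit 14) true (nat_lit 18) true (nat_lit 3) true (nat_lit 17) true (nat_lit 13) (.s false (nat_lit 2) (nat_lit 21) (nat_lit 2) (nat_lit 6) (nat_lit 1) true (nat_lit 14) true (nat_lit 18) true (nat_lit 3) true (nat_lit 17) true (nat_lit 13) (.s true (nat_lit 1) (nat_lit 22) (nat_lit 2) (nat_lit 6) (nat_lit 1) true (nat_lit 14) true (nat_lit 18) true (nat_lit 3) true (nat_lit 17) true (nat_lit 13) (.s true (nat_lit 2) (nat_lit 20) (nat_lit 5) (nat_lit 2) (nat_lit 2) true (nat_lit 6) true (nat_lit 17) true (nat_lit 3) true (nat_lit 14) true (nat_lit 17) (.s true (nat_lit 2) (nat_lit 22) (nat_lit 5)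 (nat_lit 2) (nat_lit 2) true (nat_lit 6) true (nat_lit 17) true (nat_lit 3) true (nat_lit 14) true (nat_lit 17) (.s true (nat_lit 1) (nat_lit 21) (nat_lit 6) (nat_lit 1) (nat_lit 2) true (nat_lit 5) true (nat_lit 17) true (nat_lit 3) true (nat_lit 13) true (nat_lit 18) (.s false (nat_lit 2) (nat_lit 25) (nat_lit 0) (nat_lit 2) (nat_lit 6) true (nat_lit 7) true (nat_lit 13) true (nat_lit 2) true (nat_lit 19) true (nat_lit 17) (.s false (nat_lit 2) (nat_lit 24) (nat_lit 0) (nat_lit 6) (nat_lit 2) true (nat_lit 15) true (nat_lit 17) true (nat_lit 2) true (nat_lit 19) true (nat_lit 13) (.s true (nat_lit 2) (nat_lit 25) (nat_lit 2) (nat_lit 2) (nat_lit 4) true (nat_lit 7) true (nat_lit 15) true (nat_lit 2) true (nat_lit 17) true (nat_lit 17) (.s true (nat_lit 2) (nat_lit 27) (nat_lit 2) (nat_lit 2) (nat_lit 4) true (nat_lit 7) true (nat_lit 15) true (nat_lit 2) true (nat_lit 17) true (nat_lit 17) (.s false (nat_lit 1)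 (nat_lit 24) (nat_lit 2) (nat_lit 6) (nat_lit 0) true (nat_lit 15) true (nat_lit 19) true (nat_lit 2) true (nat_lit 17) true (nat_lit 13) (.s false (nat_lit 2) (nat_lit 25) (nat_lit 2) (nat_lit 6) (nat_lit 0) true (nat_lit 15) true (nat_lit 19) true (nat_lit 2) true (nat_lit 17) true (nat_lit 13) (.s true (nat_lit 3) (nat_lit 26) (nat_lit 4) (nat_lit 2) (nat_lit 2) true (nat_lit 7) true (nat_lit 17) true (nat_lit 2) true (nat_lit 15) true (nat_lit 17) (.s false (nat_lit 3) (nat_lit 24) (nat_lit 6) (nat_lit 0) (nat_lit 2) true (nat_lit 5) true (nat_lit 17) true (nat_lit 2) true (nat_lit 13) true (nat_lit 19) (.s false (nat_lit 3) (nat_lit 24) (nat_lit 6) (nat_lit 2) (nat_lit 0) true (nat_lit 7) true (nat_lit 19) true (nat_lit 2) true (nat_lit 13) true (nat_lit 17) (.s true (nat_lit 3) (nat_lit 29) (nat_lit 1) (nat_lit 1) (nat_lit 6) true (nat_lit 6) true (nat_lit 13) true (nat_lit 1) true (nat_lit 18) true (nat_lit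 18) (.s true (nat_lit 2) (nat_lit 30) (nat_lit 1) (nat_lit 1) (nat_lit 6) true (nat_lit 6) true (nat_lit 13) true (nat_lit 1) true (nat_lit 18) true (nat_lit 18) (.s true (nat_lit 2) (nat_lit 28) (nat_lit 1) (nat_lit 5) (nat_lit 2) true (nat_lit 14) true (nat_lit 17) true (nat_lit 1) true (nat_lit 18) true (nat_lit 14) (.s true (nat_lit 2) (nat_lit 28) (nat_lit 2) (nat_lit 1) (nat_lit 5) true (nat_lit 6) true (nat_lit 14) true (nat_lit 1) true (nat_lit 17) true (nat_lit 18) (.s false (nat_lit 3) (nat_lit 29) (nat_lit 2) (nat_lit 1) (nat_lit 5) true (nat_lit 6) true (nat_lit 14) true (nat_lit 1) true (nat_lit 17) true (nat_lit 18) dC1d_i276)))))))))))))))))))))))))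

noncomputable def dC1d_i278 : IL := (.s false (nat_lit 1) (nat_lit 15) (nat_lit 8) (nat_lit 2) (nat_lit 2) true (nat_lit 2) true (nat_lit 17) true (nat_lit 7) true (nat_lit 11) true (nat_lit 17) (.s false (nat_lit 3) (nat_lit 15) (nat_lit 10) (nat_lit 2) (nat_lit 1) true (nat_lit 2) true (nat_lit 18) true (nat_lit 7) true (nat_lit 9) true (nat_lit 17) (.s true (nat_lit 2) (nat_lit 14) (nat_lit 13) (nat_lit 0) (nat_lit 2) false (nat_lit 1) true (nat_lit 17) true (nat_lit 7) true (nat_lit 8) true (nat_lit 19) (.s false (nat_lit 2) (nat_lit 15) (nat_lit 13) (nat_lit 0) (nat_lit 2) false (nat_lit 1) true (nat_lit 17) true (nat_lit 7) true (nat_lit 8) true (nat_lit 19) (.s false (nat_lit 3) (nat_lit 15) (nat_lit 13) (nat_lit 2) (nat_lit 0) true (nat_lit 2) true (nat_lit 19) true (nat_lit 7) true (nat_lit 8) true (nat_lit 17) (.s false (nat_lit 1) (nat_lit 16) (nat_lit 0) (nat_lit 0) (nat_lit 16) true (nat_lit 0) true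 (nat_lit 6) true (nat_lit 6) true (nat_lit 19) true (nat_lit 19) (.s true (nat_lit 3) (nat_lit 17) (nat_lit 0) (nat_lit 0) (nat_lit 17) true (nat_lit 0) true (nat_lit 6) true (nat_lit 6) true (nat_lit 19) true (nat_lit 19) (.s false (nat_lit 2) (nat_lit 16) (nat_lit 0) (nat_lit 1) (nat_lit 15) true (nat_lit 1) true (nat_lit 7) true (nat_lit 6) true (nat_lit 19) true (nat_lit 18) (.s false (nat_lit 1) (nat_lit 17) (nat_lit 1) (nat_lit 9) (nat_lit 2) true (nat_lit 14) true (nat_lit 17) true (nat_lit 6) true (nat_lit 18) true (nat_lit 10) (.s false (nat_lit 1) (nat_lit 16) (nat_lit 2) (nat_lit 7) (nat_lit 2) true (nat_lit 13) true (nat_lit 17) true (nat_lit 6) true (nat_lit 17) true (nat_lit 12) (.s true (nat_lit 3) (nat_lit 16) (nat_lit 2) (nat_lit 9) (nat_lit 1) true (nat_lit 14) true (nat_lit 18) true (nat_lit 6) true (nat_lit 17) true (nat_lit 10) (.s true (nat_lit 1) (nat_lit 16) (nat_lit 7) (nat_lit 2) (nat_lit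 2) true (nat_lit 3) true (nat_lit 17) true (nat_lit 6) true (nat_lit 12) true (nat_lit 17) (.s false (nat_lit 3) (nat_lit 17) (nat_lit 7) (nat_lit 2) (nat_lit 2) true (nat_lit 3) true (nat_lit 17) true (nat_lit 6) true (nat_lit 12) true (nat_lit 17) (.s false (nat_lit 2) (nat_lit 16) (nat_lit 9) (nat_lit 1) (nat_lit 2) true (nat_lit 1) true (nat_lit 17) true (nat_lit 6) true (nat_lit 10) true (nat_lit 18) (.s true (nat_lit 1) (nat_lit 17) (nat_lit 9) (nat_lit 1) (nat_lit 2) true (nat_lit 1) true (nat_lit 17) true (nat_lit 6) true (nat_lit 10) true (nat_lit 18) (.s true (nat_lit 2) (nat_lit 16) (nat_lit 9) (nat_lit 2) (nat_lit 1) true (nat_lit 3) true (nat_lit 18) true (nat_lit 6) true (nat_lit 10) true (nat_lit 17) (.s true (nat_lit 3) (nat_lit 16) (nat_lit 14) (nat_lit 1) (nat_lit 0) true (nat_lit 1) true (nat_lit 19) true (nat_lit 6) true (nat_lit 7) true (nat_lit 18) (.s false (nat_lit 2) (nat_lit 16) (nat_lit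 15) (nat_lit 1) (nat_lit 0) true (nat_lit 1) true (nat_lit 19) true (nat_lit 6) true (nat_lit 7) true (nat_lit 18) (.s false (nat_lit 3) (nat_lit 18) (nat_lit 0) (nat_lit 0) (nat_lit 13) true (nat_lit 2) true (nat_lit 8) true (nat_lit 5) true (nat_lit 19) true (nat_lit 19) (.s true (nat_lit 1) (nat_lit 18) (nat_lit 0) (nat_lit 2) (nat_lit 8) true (nat_lit 4) true (nat_lit 11) true (nat_lit 5) true (nat_lit 19) true (nat_lit 17) (.s false (nat_lit 3) (nat_lit 18) (nat_lit 1) (nat_lit 1) (nat_lit 9) true (nat_lit 3) true (nat_lit 10) true (nat_lit 5) true (nat_lit 18) true (nat_lit 18) (.s false (nat_lit 3) (nat_lit 18) (nat_lit 2) (nat_lit 1) (nat_lit 7) true (nat_lit 3) true (nat_lit 12) true (nat_lit 5) true (nat_lit 17) true (nat_lit 18) (.s false (nat_lit 3) (nat_lit 18) (nat_lit 2) (nat_lit 8) (nat_lit 0) true (nat_lit 15) true (nat_lit 19) true (nat_lit 5) true (nat_lit 17) true (nat_lit 11) (.s false (nat_lit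 1) (nat_lit 18) (nat_lit 4) (nat_lit 1) (nat_lit 3) true (nat_lit 3) true (nat_lit 16) true (nat_lit 5) true (nat_lit 15) true (nat_lit 18) (.s true (nat_lit 1) (nat_lit 18) (nat_lit 9) (nat_lit 1) (nat_lit 1) true (nat_lit 3) true (nat_lit 18) true (nat_lit 5) true (nat_lit 10) true (nat_lit 18) dC1d_i277)))))))))))))))))))))))))

noncomputable def dC1d_i279 : IL := (.e false (nat_lit 2) (nat_lit 224) (nat_lit 2) (nat_lit 17) (.e true (nat_lit 1) (nat_lit 227) (nat_lit 2) (nat_lit 17) (.e false (nat_lit 1) (nat_lit 229) (nat_lit 2) (nat_lit 17) (.e false (nat_lit 1) (nat_lit 231) (nat_lit 2) (nat_lit 17) (.e true (nat_lit 2) (nat_lit 235) (nat_lit 2) (nat_lit 17) (.e true (nat_lit 1) (nat_lit 236) (nat_lit 2) (nat_lit 17) (.e false (nat_lit 1) (nat_lit 237) (nat_lit 2) (nat_lit 17) (.e true (nat_lit 3) (nat_lit 238) (nat_lit 2) (nat_lit 17) (.e false (nat_lit 2) (nat_lit 240) (nat_lit 2) (nat_lit 17) (.e true (nat_lit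 2) (nat_lit 242) (nat_lit 2) (nat_lit 17) (.e false (nat_lit 2) (nat_lit 226) (nat_lit 2) (nat_lit 17) (.e true (nat_lit 3) (nat_lit 239) (nat_lit 2) (nat_lit 17) (.e false (nat_lit 2) (nat_lit 241) (nat_lit 2) (nat_lit 17) (.e false (nat_lit 2) (nat_lit 243) (nat_lit 2) (nat_lit 17) (.e true (nat_lit 1) (nat_lit 244) (nat_lit 2) (nat_lit 17) (.e true (nat_lit 2) (nat_lit 248) (nat_lit 2) (nat_lit 17) (.e true (nat_lit 1) (nat_lit 230) (nat_lit 2) (nat_lit 17) (.e true (nat_lit 2) (nat_lit 234) (nat_lit 2) (nat_lit 17) (.e true (nat_lit 3) (nat_lit 245) (nat_lit 2) (nat_lit 17) (.e true (nat_lit 1) (nat_lit 249) (nat_lit 2) (nat_lit 17) (.e true (nat_lit 2) (nat_lit 307) (nat_lit 0) (nat_lit 19) (.e true (nat_lit 1) (nat_lit 298) (nat_lit 0) (nat_lit 19) (.e false (nat_lit 1) (nat_lit 74) (nat_lit 15) (nat_lit 7) (.u (nat_lit 2) (.n (nat_lit 0) (nat_lit 2) (.n (nat_lit 1) (nat_lit 3) (.p (nat_lit 2) (nat_lit 4)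 (.p (nat_lit 3) (nat_lit 2) (.p (nat_lit 5) (nat_lit 1) (.p (nat_lit 6) (nat_lit 2) (.n (nat_lit 7) (nat_lit 2) (.n (nat_lit 8) (nat_lit 3) (.p (nat_lit 9) (nat_lit 3) (.n (nat_lit 10) (nat_lit 2) (.p (nat_lit 11) (nat_lit 1) (.p (nat_lit 12) (nat_lit 4) (.p (nat_lit 13) (nat_lit 1) (.p (nat_lit 14) (nat_lit 3) (.n (nat_lit 15) (nat_lit 2) (.n (nat_lit 17) (nat_lit 2) (.n (nat_lit 18) (nat_lit 4) (.p (nat_lit 19) (nat_lit 2) (.n (nat_lit 20) (nat_lit 1) (.n (nat_lit 24) (nat_lit 1) (.n (nat_lit 25) (nat_lit 1) (.p (nat_lit 27) (nat_lit 3) (.p (nat_lit 28) (nat_lit 2) (.n (nat_lit 29) (nat_lit 1) (.n (nat_lit 30) (nat_lit 2) (.n (nat_lit 31) (nat_lit 2) (.p (nat_lit 32) (nat_lit 1) (.p (nat_lit 34) (nat_lit 1) (.p (nat_lit 35) (nat_lit 1) (.n (nat_lit 36) (nat_lit 4) (.n (nat_lit 37) (nat_lit 3) (.n (nat_lit 38) (nat_lit 2) (.n (nat_lit 39) (nat_lit 1) (.n (nat_lit 41) (nat_lit 1) (.p (nat_lit 45) (nat_lit 1) (.p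 (nat_lit 49) (nat_lit 1) (.n (nat_lit 52) (nat_lit 1) (.n (nat_lit 54) (nat_lit 1) (.p (nat_lit 56) (nat_lit 1) (.p (nat_lit 57) (nat_lit 1) (.n (nat_lit 58) (nat_lit 1) (.n (nat_lit 64) (nat_lit 1) (.n (nat_lit 69) (nat_lit 1) (.p (nat_lit 70) (nat_lit 2) (.n (nat_lit 327) (nat_lit 2) (.p (nat_lit 328) (nat_lit 1) (.p (nat_lit 331) (nat_lit 1) (.p (nat_lit 332) (nat_lit 1) (.p (nat_lit 333) (nat_lit 1) (.p (nat_lit 334) (nat_lit 2) (.n (nat_lit 339) (nat_lit 1) (.n (nat_lit 340) (nat_lit 1) (.p (nat_lit 341) (nat_lit 1) (.n (nat_lit 343) (nat_lit 1) (.p (nat_lit 344) (nat_lit 1) (.n (nat_lit 345) (nat_lit 1) (.n (nat_lit 346) (nat_lit 1) (.p (nat_lit 348) (nat_lit 2) (.n (nat_lit 352) (nat_lit 1) (.p (nat_lit 357) (nat_lit 2) .z)))))))))))))))))))))))))))))))))))))))))))))))))))))))))))) (.u (nat_lit 2) (.p (nat_lit 361) (nat_lit 1) (.p (nat_lit 363) (nat_lit 1) (.p (nat_lit 364) (nat_lit 1) (.n (nat_lit 368) (nat_lit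 1) .z)))) .nil)))))))))))))))))))))))))

noncomputable def dC1d_i280 : IL := (.e false (nat_lit 3) (nat_lit 217) (nat_lit 2) (nat_lit 17) (.e true (nat_lit 3) (nat_lit 218) (nat_lit 2) (nat_lit 17) (.e false (nat_lit 3) (nat_lit 219) (nat_lit 2) (nat_lit 17) (.e false (nat_lit 3) (nat_lit 222) (nat_lit 2) (nat_lit 17) (.e true (nat_lit 2) (nat_lit 223) (nat_lit 2) (nat_lit 17) (.e true (nat_lit 3) (nat_lit 224) (nat_lit 2) (nat_lit 17) (.e true (nat_lit 2) (nat_lit 226) (nat_lit 2) (nat_lit 17) (.e true (nat_lit 2) (nat_lit 227) (nat_lit 2) (nat_lit 17) (.e true (nat_lit 1) (nat_lit 229) (nat_lit 2) (nat_lit 17) (.e false (nat_lit 3) (nat_lit 231) (nat_lit 2) (nat_lit 17) (.e false (nat_lit 1) (nat_lit 233) (nat_lit 2) (nat_lit 17) (.e true (nat_lit 2) (nat_lit 234) (nat_lit 2) (nat_lit 17) (.e false (nat_lit 2) (nat_lit 235) (nat_lit 2) (nat_lit 17) (.e false (nat_lit 1) (nat_lit 236) (nat_lit 2) (nat_lit 17) (.e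 true (nat_lit 1) (nat_lit 237) (nat_lit 2) (nat_lit 17) (.e true (nat_lit 1) (nat_lit 239) (nat_lit 2) (nat_lit 17) (.e true (nat_lit 3) (nat_lit 240) (nat_lit 2) (nat_lit 17) (.e false (nat_lit 3) (nat_lit 241) (nat_lit 2) (nat_lit 17) (.e false (nat_lit 1) (nat_lit 242) (nat_lit 2) (nat_lit 17) (.e false (nat_lit 1) (nat_lit 243) (nat_lit 2) (nat_lit 17) (.e false (nat_lit 2) (nat_lit 244) (nat_lit 2) (nat_lit 17) (.e true (nat_lit 1) (nat_lit 245) (nat_lit 2) (nat_lit 17) (.e true (nat_lit 1) (nat_lit 248) (nat_lit 2) (nat_lit 17) (.u (nat_lit 2) (.p (nat_lit 0) (nat_lit 3) (.n (nat_lit 1) (nat_lit 3) (.n (nat_lit 2) (nat_lit 3) (.p (nat_lit 3) (nat_lit 4) (.p (nat_lit 4) (nat_lit 1) (.p (nat_lit 5) (nat_lit 1) (.n (nat_lit 6) (nat_lit 1) (.n (nat_lit 8) (nat_lit 1) (.n (nat_lit 9) (nat_lit 5) (.n (nat_lit 10) (nat_lit 2) (.n (nat_lit 11) (nat_lit 1) (.p (nat_lit 12) (nat_lit 2) (.n (nat_lit 13) (nat_lit 2) (.n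 (nat_lit 14) (nat_lit 3) (.p (nat_lit 15) (nat_lit 2) (.n (nat_lit 17) (nat_lit 2) (.p (nat_lit 18) (nat_lit 4) (.p (nat_lit 19) (nat_lit 1) (.p (nat_lit 20) (nat_lit 2) (.p (nat_lit 21) (nat_lit 1) (.n (nat_lit 22) (nat_lit 1) (.n (nat_lit 24) (nat_lit 1) (.p (nat_lit 25) (nat_lit 1) (.n (nat_lit 26) (nat_lit 2) (.p (nat_lit 27) (nat_lit 2) (.p (nat_lit 28) (nat_lit 2) (.n (nat_lit 29) (nat_lit 4) (.p (nat_lit 30) (nat_lit 5) (.n (nat_lit 31) (nat_lit 3) (.p (nat_lit 32) (nat_lit 4) (.n (nat_lit 33) (nat_lit 6) (.p (nat_lit 34) (nat_lit 3) (.p (nat_lit 35) (nat_lit 3) (.p (nat_lit 36) (nat_lit 1) (.p (nat_lit 37) (nat_lit 3) (.n (nat_lit 38) (nat_lit 2) (.p (nat_lit 39) (nat_lit 3) (.p (nat_lit 40) (nat_lit 2) (.n (nat_lit 42) (nat_lit 1) (.p (nat_lit 43) (nat_lit 1) (.p (nat_lit 45) (nat_lit 1) (.n (nat_lit 49) (nat_lit 2) (.n (nat_lit 50) (nat_lit 2) (.n (nat_lit 52) (nat_lit 2) (.n (nat_lit 53) (nat_lit 1) (.n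 (nat_lit 54) (nat_lit 1) (.p (nat_lit 55) (nat_lit 3) (.p (nat_lit 56) (nat_lit 1) (.n (nat_lit 57) (nat_lit 3) (.p (nat_lit 58) (nat_lit 1) (.p (nat_lit 60) (nat_lit 2) (.p (nat_lit 61) (nat_lit 1) (.n (nat_lit 62) (nat_lit 1) (.p (nat_lit 63) (nat_lit 1) (.n (nat_lit 64) (nat_lit 2) (.p (nat_lit 65) (nat_lit 1) (.n (nat_lit 66) (nat_lit 1) (.p (nat_lit 67) (nat_lit 1) (.p (nat_lit 69) (nat_lit 2) (.n (nat_lit 70) (nat_lit 2) .z)))))))))))))))))))))))))))))))))))))))))))))))))))))))))))) (.u (nat_lit 2) (.n (nat_lit 329) (nat_lit 1) (.p (nat_lit 330) (nat_lit 1) (.p (nat_lit 331) (nat_lit 1) (.n (nat_lit 338) (nat_lit 1) (.n (nat_lit 341) (nat_lit 1) (.n (nat_lit 342) (nat_lit 1) (.p (nat_lit 344) (nat_lit 1) (.n (nat_lit 348) (nat_lit 1) (.n (nat_lit 349) (nat_lit 1) (.p (nat_lit 350) (nat_lit 1) (.n (nat_lit 351) (nat_lit 1) (.p (nat_lit 352) (nat_lit 1) (.p (nat_lit 354) (nat_lit 1) (.n (nat_lit 357) (nat_lit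 1) (.n (nat_lit 358) (nat_lit 1) (.p (nat_lit 359) (nat_lit 1) (.p (nat_lit 360) (nat_lit 1) (.p (nat_lit 363) (nat_lit 1) (.p (nat_lit 369) (nat_lit 1) .z))))))))))))))))))) .nil)))))))))))))))))))))))))

noncomputable def dC1d_i281 : IL := (.e false (nat_lit 2) (nat_lit 260) (nat_lit 1) (nat_lit 18) (.e false (nat_lit 1) (nat_lit 263) (nat_lit 1) (nat_lit 18) (.e false (nat_lit 2) (nat_lit 290) (nat_lit 0) (nat_lit 19) (.e false (nat_lit 2) (nat_lit 144) (nat_lit 5) (nat_lit 14) (.e true (nat_lit 2) (nat_lit 282) (nat_lit 1) (nat_lit 18) (.e false (nat_lit 3) (nat_lit 306) (nat_lit 0) (nat_lit 19) (.e true (nat_lit 1) (nat_lit 291) (nat_lit 0) (nat_lit 19) (.e true (nat_lit 3) (nat_lit 292) (nat_lit 0) (nat_lit 19) (.e true (nat_lit 3) (nat_lit 293) (nat_lit 0) (nat_lit 19) (.e true (nat_lit 1) (nat_lit 294) (nat_lit 0) (nat_lit 19) (.e true (nat_lit 3) (nat_lit 302) (nat_lit 0) (nat_lit 19) (.e true (nat_lit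 3) (nat_lit 304) (nat_lit 0) (nat_lit 19) (.e false (nat_lit 1) (nat_lit 305) (nat_lit 0) (nat_lit 19) (.e false (nat_lit 2) (nat_lit 308) (nat_lit 0) (nat_lit 19) (.e false (nat_lit 2) (nat_lit 314) (nat_lit 0) (nat_lit 19) (.e false (nat_lit 1) (nat_lit 315) (nat_lit 0) (nat_lit 19) (.e false (nat_lit 3) (nat_lit 317) (nat_lit 0) (nat_lit 19) (.e true (nat_lit 1) (nat_lit 295) (nat_lit 0) (nat_lit 19) (.e true (nat_lit 2) (nat_lit 299) (nat_lit 0) (nat_lit 19) (.e true (nat_lit 1) (nat_lit 311) (nat_lit 0) (nat_lit 19) (.e true (nat_lit 3) (nat_lit 313) (nat_lit 0) (nat_lit 19) (.e false (nat_lit 1) (nat_lit 319) (nat_lit 0) (nat_lit 19) (.u (nat_lit 2) (.n (nat_lit 1) (nat_lit 8) (.n (nat_lit 2) (nat_lit 2) (.p (nat_lit 3) (nat_lit 2) (.n (nat_lit 4) (nat_lit 1) (.n (nat_lit 5) (nat_lit 1) (.p (nat_lit 6) (nat_lit 2) (.n (nat_lit 7) (nat_lit 3) (.p (nat_lit 8) (nat_lit 4) (.n (nat_lit 9) (nat_lit 6) (.p (nat_lit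 10) (nat_lit 4) (.p (nat_lit 11) (nat_lit 1) (.n (nat_lit 12) (nat_lit 3) (.p (nat_lit 14) (nat_lit 3) (.n (nat_lit 15) (nat_lit 3) (.p (nat_lit 16) (nat_lit 1) (.p (nat_lit 17) (nat_lit 2) (.p (nat_lit 18) (nat_lit 1) (.n (nat_lit 19) (nat_lit 1) (.p (nat_lit 20) (nat_lit 1) (.p (nat_lit 25) (nat_lit 1) (.p (nat_lit 26) (nat_lit 1) (.p (nat_lit 27) (nat_lit 1) (.p (nat_lit 28) (nat_lit 1) (.n (nat_lit 29) (nat_lit 1) (.p (nat_lit 30) (nat_lit 5) (.p (nat_lit 31) (nat_lit 4) (.p (nat_lit 32) (nat_lit 5) (.n (nat_lit 33) (nat_lit 3) (.n (nat_lit 34) (nat_lit 1) (.p (nat_lit 37) (nat_lit 1) (.n (nat_lit 38) (nat_lit 4) (.n (nat_lit 40) (nat_lit 3) (.n (nat_lit 41) (nat_lit 2) (.p (nat_lit 49) (nat_lit 1) (.n (nat_lit 50) (nat_lit 3) (.p (nat_lit 51) (nat_lit 1) (.n (nat_lit 52) (nat_lit 1) (.n (nat_lit 54) (nat_lit 1) (.p (nat_lit 55) (nat_lit 1) (.n (nat_lit 57) (nat_lit 1) (.p (nat_lit 58) (nat_lit 1) (.n (nat_lit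 59) (nat_lit 1) (.p (nat_lit 60) (nat_lit 1) (.p (nat_lit 61) (nat_lit 1) (.p (nat_lit 69) (nat_lit 1) (.p (nat_lit 148) (nat_lit 1) (.p (nat_lit 159) (nat_lit 1) (.p (nat_lit 231) (nat_lit 1) (.p (nat_lit 232) (nat_lit 1) (.p (nat_lit 237) (nat_lit 1) (.p (nat_lit 238) (nat_lit 1) (.p (nat_lit 241) (nat_lit 1) (.p (nat_lit 242) (nat_lit 1) (.n (nat_lit 244) (nat_lit 2) (.n (nat_lit 249) (nat_lit 2) (.p (nat_lit 251) (nat_lit 1) (.p (nat_lit 256) (nat_lit 2) (.p (nat_lit 261) (nat_lit 1) (.p (nat_lit 263) (nat_lit 1) (.n (nat_lit 273) (nat_lit 1) .z)))))))))))))))))))))))))))))))))))))))))))))))))))))))))))) (.u (nat_lit 2) (.p (nat_lit 279) (nat_lit 1) (.n (nat_lit 286) (nat_lit 1) (.p (nat_lit 327) (nat_lit 7) (.n (nat_lit 328) (nat_lit 2) (.n (nat_lit 329) (nat_lit 2) (.n (nat_lit 330) (nat_lit 7) (.p (nat_lit 331) (nat_lit 3) (.n (nat_lit 332) (nat_lit 11) (.n (nat_lit 333) (nat_lit 8) (.p (nat_lit 334) (nat_lit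 5) (.p (nat_lit 335) (nat_lit 8) (.p (nat_lit 336) (nat_lit 4) (.n (nat_lit 337) (nat_lit 2) (.n (nat_lit 338) (nat_lit 4) (.p (nat_lit 339) (nat_lit 5) (.n (nat_lit 340) (nat_lit 9) (.n (nat_lit 341) (nat_lit 7) (.n (nat_lit 342) (nat_lit 5) (.p (nat_lit 343) (nat_lit 3) (.p (nat_lit 344) (nat_lit 1) (.n (nat_lit 345) (nat_lit 7) (.p (nat_lit 346) (nat_lit 5) (.n (nat_lit 347) (nat_lit 5) (.n (nat_lit 348) (nat_lit 2) (.p (nat_lit 350) (nat_lit 9) (.n (nat_lit 351) (nat_lit 10) (.p (nat_lit 352) (nat_lit 5) (.n (nat_lit 353) (nat_lit 15) (.p (nat_lit 354) (nat_lit 1) (.n (nat_lit 355) (nat_lit 13) (.n (nat_lit 356) (nat_lit 8) (.p (nat_lit 357) (nat_lit 6) (.p (nat_lit 358) (nat_lit 3) (.n (nat_lit 359) (nat_lit 7) (.n (nat_lit 360) (nat_lit 7) (.p (nat_lit 361) (nat_lit 3) (.p (nat_lit 362) (nat_lit 3) (.p (nat_lit 363) (nat_lit 4) (.p (nat_lit 364) (nat_lit 4) (.n (nat_lit 365) (nat_lit 2) (.p (nat_lit 367) (nat_lit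 1) (.p (nat_lit 368) (nat_lit 2) (.n (nat_lit 371) (nat_lit 2) (.p (nat_lit 372) (nat_lit 1) (.n (nat_lit 375) (nat_lit 1) (.n (nat_lit 376) (nat_lit 3) (.n (nat_lit 377) (nat_lit 2) (.p (nat_lit 378) (nat_lit 7) (.p (nat_lit 380) (nat_lit 14) (.p (nat_lit 381) (nat_lit 17) (.p (nat_lit 382) (nat_lit 7) (.n (nat_lit 383) (nat_lit 7) (.n (nat_lit 384) (nat_lit 14) (.p (nat_lit 385) (nat_lit 11) (.p (nat_lit 386) (nat_lit 5) (.n (nat_lit 387) (nat_lit 10) (.n (nat_lit 388) (nat_lit 4) (.p (nat_lit 389) (nat_lit 16) (.n (nat_lit 392) (nat_lit 22) (.n (nat_lit 393) (nat_lit 13) .z)))))))))))))))))))))))))))))))))))))))))))))))))))))))))))) (.u (nat_lit 2) (.n (nat_lit 394) (nat_lit 3) (.n (nat_lit 395) (nat_lit 6) (.p (nat_lit 397) (nat_lit 1) (.n (nat_lit 398) (nat_lit 2) (.p (nat_lit 399) (nat_lit 7) (.n (nat_lit 400) (nat_lit 1) (.p (nat_lit 401) (nat_lit 5) (.n (nat_lit 403) (nat_lit 1) (.n (nat_lit 404) (nat_lit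 1) (.n (nat_lit 405) (nat_lit 3) (.n (nat_lit 406) (nat_lit 13) (.p (nat_lit 407) (nat_lit 7) (.p (nat_lit 408) (nat_lit 13) (.p (nat_lit 409) (nat_lit 7) (.p (nat_lit 410) (nat_lit 17) (.p (nat_lit 411) (nat_lit 7) (.n (nat_lit 412) (nat_lit 9) (.n (nat_lit 413) (nat_lit 10) (.n (nat_lit 414) (nat_lit 2) (.n (nat_lit 415) (nat_lit 10) (.p (nat_lit 416) (nat_lit 17) (.n (nat_lit 417) (nat_lit 6) (.p (nat_lit 418) (nat_lit 2) (.n (nat_lit 419) (nat_lit 8) (.n (nat_lit 420) (nat_lit 3) (.p (nat_lit 421) (nat_lit 1) (.n (nat_lit 422) (nat_lit 12) (.p (nat_lit 423) (nat_lit 2) (.p (nat_lit 425) (nat_lit 11) (.n (nat_lit 426) (nat_lit 2) (.n (nat_lit 427) (nat_lit 7) (.p (nat_lit 428) (nat_lit 2) (.p (nat_lit 430) (nat_lit 1) (.n (nat_lit 431) (nat_lit 1) (.p (nat_lit 432) (nat_lit 4) (.p (nat_lit 434) (nat_lit 4) .z)))))))))))))))))))))))))))))))))))) .nil)))))))))))))))))))))))))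

noncomputable def dC1d_i282 : IL := (.e true (nat_lit 3) (nat_lit 97) (nat_lit 9) (nat_lit 10) (.e false (nat_lit 2) (nat_lit 261) (nat_lit 1) (nat_lit 18) (.e true (nat_lit 2) (nat_lit 262) (nat_lit 1) (nat_lit 18) (.e true (nat_lit 2) (nat_lit 265) (nat_lit 1) (nat_lit 18) (.e false (nat_lit 3) (nat_lit 266) (nat_lit 1) (nat_lit 18) (.e true (nat_lit 1) (nat_lit 267) (nat_lit 1) (nat_lit 18) (.e false (nat_lit 3) (nat_lit 269) (nat_lit 1) (nat_lit 18) (.e true (nat_lit 3) (nat_lit 270) (nat_lit 1) (nat_lit 18) (.e true (nat_lit 3) (nat_lit 271) (nat_lit 1) (nat_lit 18) (.e true (nat_lit 3) (nat_lit 272) (nat_lit 1) (nat_lit 18) (.e true (nat_lit 1) (nat_lit 273) (nat_lit 1) (nat_lit 18) (.e true (nat_lit 2) (nat_lit 278) (nat_lit 1) (nat_lit 18) (.e false (nat_lit 2) (nat_lit 280) (nat_lit 1) (nat_lit 18) (.e true (nat_lit 1) (nat_lit 281) (nat_lit 1) (nat_lit 18) (.e false (nat_lit 2) (nat_lit 286) (nat_lit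 1) (nat_lit 18) (.e false (nat_lit 2) (nat_lit 288) (nat_lit 1) (nat_lit 18) (.e false (nat_lit 1) (nat_lit 268) (nat_lit 1) (nat_lit 18) (.e true (nat_lit 3) (nat_lit 279) (nat_lit 1) (nat_lit 18) (.e false (nat_lit 1) (nat_lit 222) (nat_lit 2) (nat_lit 17) (.e false (nat_lit 1) (nat_lit 251) (nat_lit 2) (nat_lit 17) (.e false (nat_lit 1) (nat_lit 136) (nat_lit 5) (nat_lit 14) (.e false (nat_lit 1) (nat_lit 143) (nat_lit 5) (nat_lit 14) (.e false (nat_lit 2) (nat_lit 258) (nat_lit 2) (nat_lit 17) (.e true (nat_lit 1) (nat_lit 259) (nat_lit 2) (nat_lit 17) (.e true (nat_lit 1) (nat_lit 316) (nat_lit 0) (nat_lit 19) dC1d_i281)))))))))))))))))))))))))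

noncomputable def dC1d_i283 : IL := (.e true (nat_lit 2) (nat_lit 214) (nat_lit 2) (nat_lit 17) (.e true (nat_lit 1) (nat_lit 216) (nat_lit 2) (nat_lit 17) (.e false (nat_lit 1) (nat_lit 217) (nat_lit 2) (nat_lit 17) (.e false (nat_lit 3) (nat_lit 218) (nat_lit 2) (nat_lit 17) (.e false (nat_lit 1) (nat_lit 221) (nat_lit 2) (nat_lit 17) (.e false (nat_lit 2) (nat_lit 223) (nat_lit 2) (nat_lit 17) (.e true (nat_lit 1) (nat_lit 224) (nat_lit 2) (nat_lit 17) (.e false (nat_lit 3) (nat_lit 225) (nat_lit 2) (nat_lit 17) (.e true (nat_lit 3) (nat_lit 226) (nat_lit 2) (nat_lit 17) (.e true (nat_lit 1) (nat_lit 227) (nat_lit 2) (nat_lit 17) (.e false (nat_lit 2) (nat_lit 229) (nat_lit 2) (nat_lit 17) (.e true (nat_lit 2) (nat_lit 230) (nat_lit 2) (nat_lit 17) (.e false (nat_lit 2) (nat_lit 231) (nat_lit 2) (nat_lit 17) (.e false (nat_lit 3) (nat_lit 232) (nat_lit 2) (nat_lit 17) (.e true (nat_lit 2) (nat_lit 233) (nat_lit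 2) (nat_lit 17) (.e false (nat_lit 2) (nat_lit 236) (nat_lit 2) (nat_lit 17) (.e false (nat_lit 2) (nat_lit 242) (nat_lit 2) (nat_lit 17) (.e false (nat_lit 2) (nat_lit 244) (nat_lit 2) (nat_lit 17) (.e false (nat_lit 3) (nat_lit 248) (nat_lit 2) (nat_lit 17) (.e true (nat_lit 1) (nat_lit 307) (nat_lit 0) (nat_lit 19) (.e true (nat_lit 2) (nat_lit 213) (nat_lit 2) (nat_lit 17) (.e false (nat_lit 1) (nat_lit 215) (nat_lit 2) (nat_lit 17) (.e true (nat_lit 1) (nat_lit 245) (nat_lit 2) (nat_lit 17) (.e false (nat_lit 1) (nat_lit 77) (nat_lit 13) (nat_lit 8) (.e false (nat_lit 2) (nat_lit 78) (nat_lit 13) (nat_lit 8) dC1d_i282)))))))))))))))))))))))))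

noncomputable def dC1d_i284 : IL := (.s true (nat_lit 1) (nat_lit 54) (nat_lit 2) (nat_lit 2) (nat_lit 2) true (nat_lit 13) true (nat_lit 17) false (nat_lit 5) true (nat_lit 17) true (nat_lit 17) (.s true (nat_lit 2) (nat_lit 56) (nat_lit 1) (nat_lit 2) (nat_lit 2) true (nat_lit 14) true (nat_lit 17) false (nat_lit 6) true (nat_lit 18) true (nat_lit 17) (.s true (nat_lit 1) (nat_lit 57) (nat_lit 1) (nat_lit 2) (nat_lit 2) true (nat_lit 14) true (nat_lit 17) false (nat_lit 6) true (nat_lit 18) true (nat_lit 17) (.s true (nat_lit 3) (nat_lit 59) (nat_lit 1) (nat_lit 2) (nat_lit 2) true (nat_lit 14) true (nat_lit 17) false (nat_lit 6) true (nat_lit 18) true (nat_lit 17) (.s true (nat_lit 3) (nat_lit 60) (nat_lit 1) (nat_lit 2) (nat_lit 2) true (nat_lit 14) true (nat_lit 17) false (nat_lit 6) true (nat_lit 18) true (nat_lit 17) (.s true (nat_lit 3) (nat_lit 61) (nat_lit 1) (nat_lit 2) (nat_lit 2) true (nat_lit 14)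 true (nat_lit 17) false (nat_lit 6) true (nat_lit 18) true (nat_lit 17) (.s true (nat_lit 1) (nat_lit 62) (nat_lit 1) (nat_lit 2) (nat_lit 2) true (nat_lit 14) true (nat_lit 17) false (nat_lit 6) true (nat_lit 18) true (nat_lit 17) (.s true (nat_lit 1) (nat_lit 63) (nat_lit 1) (nat_lit 2) (nat_lit 2) true (nat_lit 14) true (nat_lit 17) false (nat_lit 6) true (nat_lit 18) true (nat_lit 17) (.s false (nat_lit 3) (nat_lit 64) (nat_lit 1) (nat_lit 2) (nat_lit 2) true (nat_lit 14) true (nat_lit 17) false (nat_lit 6) true (nat_lit 18) true (nat_lit 17) (.s false (nat_lit 3) (nat_lit 65) (nat_lit 1) (nat_lit 2) (nat_lit 2) true (nat_lit 14) true (nat_lit 17) false (nat_lit 6) true (nat_lit 18) true (nat_lit 17) (.s false (nat_lit 2) (nat_lit 55) (nat_lit 2) (nat_lit 1) (nat_lit 2) true (nat_lit 13) true (nat_lit 17) false (nat_lit 6) true (nat_lit 17) true (nat_lit 18) (.s true (nat_lit 3) (nat_lit 66) (nat_lit 2) (nat_lit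 0) (nat_lit 2) true (nat_lit 13) true (nat_lit 17) false (nat_lit 7) true (nat_lit 17) true (nat_lit 19) (.s false (nat_lit 3) (nat_lit 66) (nat_lit 2) (nat_lit 2) (nat_lit 0) true (nat_lit 15) true (nat_lit 19) false (nat_lit 7) true (nat_lit 17) true (nat_lit 17) (.s false (nat_lit 1) (nat_lit 77) (nat_lit 1) (nat_lit 1) (nat_lit 2) true (nat_lit 14) true (nat_lit 17) false (nat_lit 8) true (nat_lit 18) true (nat_lit 18) (.s false (nat_lit 2) (nat_lit 78) (nat_lit 1) (nat_lit 1) (nat_lit 2) true (nat_lit 14) true (nat_lit 17) false (nat_lit 8) true (nat_lit 18) true (nat_lit 18) (.s false (nat_lit 2) (nat_lit 79) (nat_lit 1) (nat_lit 2) (nat_lit 1) false (nat_lit 21) true (nat_lit 18) false (nat_lit 8) true (nat_lit 18) true (nat_lit 17) (.s true (nat_lit 2) (nat_lit 81) (nat_lit 1) (nat_lit 2) (nat_lit 1) false (nat_lit 21) true (nat_lit 18) false (nat_lit 8) true (nat_lit 18) true (nat_lit 17) (.s false (nat_lit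 3) (nat_lit 93) (nat_lit 0) (nat_lit 2) (nat_lit 0) false (nat_lit 20) true (nat_lit 19) false (nat_lit 10) true (nat_lit 19) true (nat_lit 17) (.s false (nat_lit 1) (nat_lit 94) (nat_lit 0) (nat_lit 2) (nat_lit 0) false (nat_lit 20) true (nat_lit 19) false (nat_lit 10) true (nat_lit 19) true (nat_lit 17) (.s false (nat_lit 2) (nat_lit 95) (nat_lit 0) (nat_lit 2) (nat_lit 0) false (nat_lit 20) true (nat_lit 19) false (nat_lit 10) true (nat_lit 19) true (nat_lit 17) (.s false (nat_lit 2) (nat_lit 102) (nat_lit 0) (nat_lit 1) (nat_lit 0) false (nat_lit 20) true (nat_lit 19) false (nat_lit 12) true (nat_lit 19) true (nat_lit 18) (.s false (nat_lit 2) (nat_lit 103) (nat_lit 0) (nat_lit 1) (nat_lit 0) false (nat_lit 20) true (nat_lit 19) false (nat_lit 12) true (nat_lit 19) true (nat_lit 18) (.s true (nat_lit 3) (nat_lit 105) (nat_lit 0) (nat_lit 1) (nat_lit 0) false (nat_lit 20) true (nat_lit 19) false (nat_lit 12)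 true (nat_lit 19) true (nat_lit 18) (.e false (nat_lit 3) (nat_lit 277) (nat_lit 1) (nat_lit 18) (.e true (nat_lit 2) (nat_lit 212) (nat_lit 2) (nat_lit 17) dC1d_i283)))))))))))))))))))))))))

noncomputable def dC1d_i285 : IL := (.s true (nat_lit 1) (nat_lit 9) (nat_lit 5) (nat_lit 5) (nat_lit 2) true (nat_lit 6) true (nat_lit 17) true (nat_lit 10) true (nat_lit 14) true (nat_lit 14) (.s false (nat_lit 2) (nat_lit 13) (nat_lit 2) (nat_lit 9) (nat_lit 2) true (nat_lit 13) true (nat_lit 17) true (nat_lit 8) true (nat_lit 17) true (nat_lit 10) (.s true (nat_lit 1) (nat_lit 13) (nat_lit 9) (nat_lit 2) (nat_lit 2) true (nat_lit 1) true (nat_lit 17) true (nat_lit 8) true (nat_lit 10) true (nat_lit 17) (.s true (nat_lit 2) (nat_lit 16) (nat_lit 2) (nat_lit 2) (nat_lit 7) true (nat_lit 3) true (nat_lit 12) true (nat_lit 6) true (nat_lit 17) true (nat_lit 17) (.s false (nat_lit 1) (nat_lit 16) (nat_lit 7) (nat_lit 2) (nat_lit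 2) true (nat_lit 3) true (nat_lit 17) true (nat_lit 6) true (nat_lit 12) true (nat_lit 17) (.s true (nat_lit 3) (nat_lit 18) (nat_lit 0) (nat_lit 2) (nat_lit 8) true (nat_lit 4) true (nat_lit 11) true (nat_lit 5) true (nat_lit 19) true (nat_lit 17) (.s false (nat_lit 2) (nat_lit 18) (nat_lit 1) (nat_lit 1) (nat_lit 9) true (nat_lit 3) true (nat_lit 10) true (nat_lit 5) true (nat_lit 18) true (nat_lit 18) (.s false (nat_lit 2) (nat_lit 18) (nat_lit 1) (nat_lit 7) (nat_lit 2) true (nat_lit 14) true (nat_lit 17) true (nat_lit 5) true (nat_lit 18) true (nat_lit 12) (.s true (nat_lit 3) (nat_lit 18) (nat_lit 2) (nat_lit 0) (nat_lit 8) true (nat_lit 2) true (nat_lit 11) true (nat_lit 5) true (nat_lit 17) true (nat_lit 19) (.s false (nat_lit 2) (nat_lit 18) (nat_lit 7) (nat_lit 1) (nat_lit 2) true (nat_lit 3) true (nat_lit 17) true (nat_lit 5) true (nat_lit 12) true (nat_lit 18) (.s true (nat_lit 3) (nat_lit 18) (nat_lit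 8) (nat_lit 0) (nat_lit 2) true (nat_lit 2) true (nat_lit 17) true (nat_lit 5) true (nat_lit 11) true (nat_lit 19) (.s false (nat_lit 3) (nat_lit 18) (nat_lit 9) (nat_lit 1) (nat_lit 1) true (nat_lit 3) true (nat_lit 18) true (nat_lit 5) true (nat_lit 10) true (nat_lit 18) (.s false (nat_lit 3) (nat_lit 19) (nat_lit 6) (nat_lit 2) (nat_lit 2) true (nat_lit 5) true (nat_lit 17) true (nat_lit 4) true (nat_lit 13) true (nat_lit 17) (.s true (nat_lit 1) (nat_lit 21) (nat_lit 1) (nat_lit 6) (nat_lit 2) true (nat_lit 14) true (nat_lit 17) true (nat_lit 3) true (nat_lit 18) true (nat_lit 13) (.s false (nat_lit 1) (nat_lit 21) (nat_lit 2) (nat_lit 1) (nat_lit 6) true (nat_lit 5) true (nat_lit 13) true (nat_lit 3) true (nat_lit 17) true (nat_lit 18) (.s false (nat_lit 2) (nat_lit 21) (nat_lit 2) (nat_lit 2) (nat_lit 5) true (nat_lit 6) true (nat_lit 14) true (nat_lit 3) true (nat_lit 17) true (nat_lit 17) (.s false (nat_lit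 1) (nat_lit 20) (nat_lit 2) (nat_lit 5) (nat_lit 2) true (nat_lit 13) true (nat_lit 17) true (nat_lit 3) true (nat_lit 17) true (nat_lit 14) (.s false (nat_lit 2) (nat_lit 20) (nat_lit 2) (nat_lit 6) (nat_lit 1) true (nat_lit 14) true (nat_lit 18) true (nat_lit 3) true (nat_lit 17) true (nat_lit 13) (.s false (nat_lit 3) (nat_lit 24) (nat_lit 0) (nat_lit 6) (nat_lit 2) true (nat_lit 15) true (nat_lit 17) true (nat_lit 2) true (nat_lit 19) true (nat_lit 13) (.s true (nat_lit 3) (nat_lit 24) (nat_lit 2) (nat_lit 2) (nat_lit 4) true (nat_lit 7) true (nat_lit 15) true (nat_lit 2) true (nat_lit 17) true (nat_lit 17) (.s true (nat_lit 3) (nat_lit 24) (nat_lit 6) (nat_lit 2) (nat_lit 0) true (nat_lit 7) true (nat_lit 19) true (nat_lit 2) true (nat_lit 13) true (nat_lit 17) (.s true (nat_lit 1) (nat_lit 28) (nat_lit 1) (nat_lit 5) (nat_lit 2) true (nat_lit 14) true (nat_lit 17) true (nat_lit 1) true (nat_lit 18) true (nat_lit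 14) (.s false (nat_lit 3) (nat_lit 48) (nat_lit 2) (nat_lit 2) (nat_lit 2) true (nat_lit 13) true (nat_lit 17) false (nat_lit 5) true (nat_lit 17) true (nat_lit 17) (.s true (nat_lit 2) (nat_lit 49) (nat_lit 2) (nat_lit 2) (nat_lit 2) true (nat_lit 13) true (nat_lit 17) false (nat_lit 5) true (nat_lit 17) true (nat_lit 17) (.s true (nat_lit 3) (nat_lit 52) (nat_lit 2) (nat_lit 2) (nat_lit 2) true (nat_lit 13) true (nat_lit 17) false (nat_lit 5) true (nat_lit 17) true (nat_lit 17) dC1d_i284)))))))))))))))))))))))))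

noncomputable def dC1d_i286 : IL := (.e false (nat_lit 3) (nat_lit 227) (nat_lit 2) (nat_lit 17) (.e false (nat_lit 1) (nat_lit 228) (nat_lit 2) (nat_lit 17) (.e true (nat_lit 1) (nat_lit 229) (nat_lit 2) (nat_lit 17) (.e true (nat_lit 3) (nat_lit 230) (nat_lit 2) (nat_lit 17) (.e true (nat_lit 2) (nat_lit 234) (nat_lit 2) (nat_lit 17) (.e true (nat_lit 2) (nat_lit 235) (nat_lit 2) (nat_lit 17) (.e false (nat_lit 2) (nat_lit 238) (nat_lit 2) (nat_lit 17) (.e true (nat_lit 2) (nat_lit 239) (nat_lit 2) (nat_lit 17) (.e true (nat_lit 1) (nat_lit 241) (nat_lit 2) (nat_lit 17) (.e false (nat_lit 3) (nat_lit 244) (nat_lit 2) (nat_lit 17) (.e false (nat_lit 2) (nat_lit 245) (nat_lit 2) (nat_lit 17) (.e true (nat_lit 2) (nat_lit 248) (nat_lit 2) (nat_lit 17) (.e true (nat_lit 1) (nat_lit 256) (nat_lit 2) (nat_lit 17) (.e false (nat_lit 1) (nat_lit 258) (nat_lit 2) (nat_lit 17) (.e false (nat_lit 3) (nat_lit 259) (nat_lit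 2) (nat_lit 17) (.e false (nat_lit 2) (nat_lit 217) (nat_lit 2) (nat_lit 17) (.e false (nat_lit 3) (nat_lit 231) (nat_lit 2) (nat_lit 17) (.e true (nat_lit 3) (nat_lit 237) (nat_lit 2) (nat_lit 17) (.e false (nat_lit 2) (nat_lit 240) (nat_lit 2) (nat_lit 17) (.e false (nat_lit 1) (nat_lit 242) (nat_lit 2) (nat_lit 17) (.e true (nat_lit 2) (nat_lit 94) (nat_lit 9) (nat_lit 10) (.e false (nat_lit 2) (nat_lit 95) (nat_lit 9) (nat_lit 10) (.e true (nat_lit 2) (nat_lit 97) (nat_lit 9) (nat_lit 10) (.u (nat_lit 2) (.p (nat_lit 2) (nat_lit 2) (.p (nat_lit 3) (nat_lit 6) (.n (nat_lit 4) (nat_lit 2) (.p (nat_lit 5) (nat_lit 1) (.n (nat_lit 7) (nat_lit 3) (.n (nat_lit 9) (nat_lit 2) (.p (nat_lit 10) (nat_lit 1) (.n (nat_lit 11) (nat_lit 1) (.n (nat_lit 12) (nat_lit 1) (.n (nat_lit 13) (nat_lit 2) (.n (nat_lit 14) (nat_lit 3) (.p (nat_lit 15) (nat_lit 6) (.p (nat_lit 16) (nat_lit 2) (.p (nat_lit 17) (nat_lit 6) (.p (nat_lit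 18) (nat_lit 4) (.n (nat_lit 19) (nat_lit 1) (.n (nat_lit 20) (nat_lit 4) (.n (nat_lit 23) (nat_lit 3) (.n (nat_lit 24) (nat_lit 1) (.n (nat_lit 25) (nat_lit 1) (.n (nat_lit 26) (nat_lit 2) (.n (nat_lit 27) (nat_lit 4) (.n (nat_lit 28) (nat_lit 1) (.p (nat_lit 29) (nat_lit 1) (.p (nat_lit 30) (nat_lit 4) (.p (nat_lit 31) (nat_lit 2) (.p (nat_lit 32) (nat_lit 4) (.n (nat_lit 33) (nat_lit 1) (.n (nat_lit 35) (nat_lit 4) (.p (nat_lit 36) (nat_lit 5) (.n (nat_lit 37) (nat_lit 2) (.n (nat_lit 38) (nat_lit 3) (.n (nat_lit 39) (nat_lit 1) (.p (nat_lit 40) (nat_lit 1) (.p (nat_lit 41) (nat_lit 1) (.p (nat_lit 45) (nat_lit 1) (.p (nat_lit 49) (nat_lit 5) (.n (nat_lit 51) (nat_lit 2) (.p (nat_lit 52) (nat_lit 3) (.p (nat_lit 53) (nat_lit 2) (.p (nat_lit 54) (nat_lit 2) (.n (nat_lit 55) (nat_lit 6) (.p (nat_lit 56) (nat_lit 1) (.n (nat_lit 57) (nat_lit 2) (.p (nat_lit 58) (nat_lit 3) (.n (nat_lit 59) (nat_lit 1) (.n (nat_lit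 61) (nat_lit 1) (.p (nat_lit 63) (nat_lit 1) (.n (nat_lit 68) (nat_lit 1) (.n (nat_lit 69) (nat_lit 2) (.n (nat_lit 70) (nat_lit 1) (.n (nat_lit 193) (nat_lit 1) (.n (nat_lit 231) (nat_lit 1) (.p (nat_lit 327) (nat_lit 2) (.n (nat_lit 328) (nat_lit 2) (.p (nat_lit 329) (nat_lit 1) (.n (nat_lit 331) (nat_lit 1) (.n (nat_lit 332) (nat_lit 2) (.p (nat_lit 334) (nat_lit 1) (.p (nat_lit 335) (nat_lit 3) .z)))))))))))))))))))))))))))))))))))))))))))))))))))))))))))) (.u (nat_lit 2) (.n (nat_lit 336) (nat_lit 1) (.p (nat_lit 337) (nat_lit 2) (.n (nat_lit 338) (nat_lit 1) (.p (nat_lit 339) (nat_lit 1) (.n (nat_lit 341) (nat_lit 1) (.n (nat_lit 342) (nat_lit 1) (.p (nat_lit 343) (nat_lit 3) (.n (nat_lit 344) (nat_lit 1) (.p (nat_lit 345) (nat_lit 1) (.n (nat_lit 346) (nat_lit 1) (.n (nat_lit 349) (nat_lit 2) (.p (nat_lit 350) (nat_lit 2) (.p (nat_lit 352) (nat_lit 1) (.n (nat_lit 353) (nat_lit 2) (.n (nat_lit 354) (nat_lit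 2) (.n (nat_lit 355) (nat_lit 2) (.p (nat_lit 356) (nat_lit 3) (.p (nat_lit 357) (nat_lit 1) (.n (nat_lit 358) (nat_lit 3) (.p (nat_lit 359) (nat_lit 3) (.p (nat_lit 360) (nat_lit 2) (.n (nat_lit 363) (nat_lit 2) (.n (nat_lit 371) (nat_lit 3) (.p (nat_lit 372) (nat_lit 1) (.p (nat_lit 373) (nat_lit 1) (.n (nat_lit 374) (nat_lit 1) .z)))))))))))))))))))))))))) .nil)))))))))))))))))))))))))

noncomputable def dC1d_i287 : IL := (.e true (nat_lit 3) (nat_lit 309) (nat_lit 0) (nat_lit 19) (.e true (nat_lit 3) (nat_lit 310) (nat_lit 0) (nat_lit 19) (.e true (nat_lit 1) (nat_lit 251) (nat_lit 2) (nat_lit 17) (.e true (nat_lit 3) (nat_lit 292) (nat_lit 0) (nat_lit 19) (.e false (nat_lit 3) (nat_lit 304) (nat_lit 0) (nat_lit 19) (.e true (nat_lit 2) (nat_lit 317) (nat_lit 0) (nat_lit 19) (.e false (nat_lit 2) (nat_lit 313) (nat_lit 0) (nat_lit 19) (.e false (nat_lit 2) (nat_lit 316) (nat_lit 0) (nat_lit 19) (.e true (nat_lit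 2) (nat_lit 314) (nat_lit 0) (nat_lit 19) (.e true (nat_lit 3) (nat_lit 311) (nat_lit 0) (nat_lit 19) (.e true (nat_lit 2) (nat_lit 315) (nat_lit 0) (nat_lit 19) (.e false (nat_lit 1) (nat_lit 281) (nat_lit 1) (nat_lit 18) (.e true (nat_lit 2) (nat_lit 283) (nat_lit 1) (nat_lit 18) (.e false (nat_lit 3) (nat_lit 252) (nat_lit 2) (nat_lit 17) (.e false (nat_lit 1) (nat_lit 282) (nat_lit 1) (nat_lit 18) (.e true (nat_lit 1) (nat_lit 136) (nat_lit 5) (nat_lit 14) (.e true (nat_lit 2) (nat_lit 143) (nat_lit 5) (nat_lit 14) (.e false (nat_lit 2) (nat_lit 157) (nat_lit 4) (nat_lit 15) (.e true (nat_lit 2) (nat_lit 303) (nat_lit 0) (nat_lit 19) (.e true (nat_lit 1) (nat_lit 137) (nat_lit 5) (nat_lit 14) (.e true (nat_lit 1) (nat_lit 160) (nat_lit 4) (nat_lit 15) (.e false (nat_lit 3) (nat_lit 144) (nat_lit 5) (nat_lit 14) (.u (nat_lit 2) (.n (nat_lit 0) (nat_lit 3) (.n (nat_lit 2) (nat_lit 1) (.p (nat_lit 4) (nat_lit 6)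 (.p (nat_lit 5) (nat_lit 2) (.n (nat_lit 6) (nat_lit 1) (.n (nat_lit 9) (nat_lit 1) (.n (nat_lit 10) (nat_lit 1) (.p (nat_lit 11) (nat_lit 1) (.n (nat_lit 13) (nat_lit 1) (.p (nat_lit 15) (nat_lit 1) (.p (nat_lit 17) (nat_lit 2) (.n (nat_lit 19) (nat_lit 2) (.p (nat_lit 24) (nat_lit 1) (.p (nat_lit 25) (nat_lit 1) (.p (nat_lit 26) (nat_lit 5) (.p (nat_lit 27) (nat_lit 3) (.p (nat_lit 28) (nat_lit 2) (.p (nat_lit 29) (nat_lit 1) (.p (nat_lit 30) (nat_lit 2) (.n (nat_lit 31) (nat_lit 3) (.p (nat_lit 32) (nat_lit 2) (.n (nat_lit 33) (nat_lit 2) (.p (nat_lit 34) (nat_lit 3) (.p (nat_lit 35) (nat_lit 4) (.n (nat_lit 36) (nat_lit 3) (.p (nat_lit 37) (nat_lit 5) (.p (nat_lit 38) (nat_lit 1) (.n (nat_lit 39) (nat_lit 1) (.p (nat_lit 40) (nat_lit 3) (.p (nat_lit 41) (nat_lit 3) (.n (nat_lit 45) (nat_lit 1) (.p (nat_lit 46) (nat_lit 1) (.n (nat_lit 48) (nat_lit 1) (.p (nat_lit 49) (nat_lit 1) (.p (nat_lit 50) (nat_lit 1)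 (.p (nat_lit 53) (nat_lit 1) (.n (nat_lit 55) (nat_lit 1) (.n (nat_lit 56) (nat_lit 2) (.n (nat_lit 57) (nat_lit 1) (.p (nat_lit 58) (nat_lit 1) (.n (nat_lit 59) (nat_lit 1) (.p (nat_lit 67) (nat_lit 1) (.n (nat_lit 68) (nat_lit 1) (.n (nat_lit 92) (nat_lit 1) (.n (nat_lit 99) (nat_lit 1) (.n (nat_lit 128) (nat_lit 1) (.n (nat_lit 159) (nat_lit 1) (.p (nat_lit 171) (nat_lit 1) (.n (nat_lit 182) (nat_lit 1) (.n (nat_lit 197) (nat_lit 1) (.p (nat_lit 232) (nat_lit 1) (.n (nat_lit 235) (nat_lit 1) (.n (nat_lit 237) (nat_lit 1) (.n (nat_lit 238) (nat_lit 1) (.n (nat_lit 245) (nat_lit 1) (.n (nat_lit 252) (nat_lit 1) (.p (nat_lit 261) (nat_lit 1) (.p (nat_lit 262) (nat_lit 1) (.n (nat_lit 263) (nat_lit 1) (.n (nat_lit 269) (nat_lit 1) .z)))))))))))))))))))))))))))))))))))))))))))))))))))))))))))) (.u (nat_lit 2) (.n (nat_lit 279) (nat_lit 1) (.p (nat_lit 290) (nat_lit 1) (.p (nat_lit 327) (nat_lit 2) (.p (nat_lit 328)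 (nat_lit 5) (.n (nat_lit 329) (nat_lit 4) (.p (nat_lit 330) (nat_lit 28) (.n (nat_lit 331) (nat_lit 11) (.n (nat_lit 332) (nat_lit 3) (.p (nat_lit 333) (nat_lit 3) (.n (nat_lit 334) (nat_lit 1) (.n (nat_lit 335) (nat_lit 4) (.n (nat_lit 336) (nat_lit 6) (.p (nat_lit 337) (nat_lit 1) (.n (nat_lit 338) (nat_lit 5) (.p (nat_lit 339) (nat_lit 10) (.p (nat_lit 340) (nat_lit 5) (.p (nat_lit 342) (nat_lit 20) (.p (nat_lit 343) (nat_lit 3) (.n (nat_lit 344) (nat_lit 1) (.p (nat_lit 345) (nat_lit 4) (.n (nat_lit 346) (nat_lit 2) (.n (nat_lit 347) (nat_lit 5) (.p (nat_lit 348) (nat_lit 8) (.p (nat_lit 349) (nat_lit 1) (.n (nat_lit 350) (nat_lit 1) (.p (nat_lit 351) (nat_lit 17) (.p (nat_lit 352) (nat_lit 2) (.p (nat_lit 353) (nat_lit 19) (.p (nat_lit 354) (nat_lit 3) (.p (nat_lit 355) (nat_lit 10) (.p (nat_lit 356) (nat_lit 2) (.n (nat_lit 357) (nat_lit 1) (.p (nat_lit 358) (nat_lit 8) (.p (nat_lit 359) (nat_lit 6) (.p (nat_lit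 360) (nat_lit 7) (.n (nat_lit 361) (nat_lit 5) (.p (nat_lit 362) (nat_lit 1) (.n (nat_lit 363) (nat_lit 10) (.n (nat_lit 364) (nat_lit 2) (.n (nat_lit 366) (nat_lit 1) (.p (nat_lit 367) (nat_lit 1) (.p (nat_lit 368) (nat_lit 1) (.p (nat_lit 369) (nat_lit 2) (.p (nat_lit 370) (nat_lit 1) (.n (nat_lit 372) (nat_lit 1) (.n (nat_lit 373) (nat_lit 3) (.p (nat_lit 374) (nat_lit 2) (.p (nat_lit 375) (nat_lit 2) (.p (nat_lit 376) (nat_lit 12) (.p (nat_lit 377) (nat_lit 2) (.n (nat_lit 378) (nat_lit 3) (.n (nat_lit 379) (nat_lit 12) (.p (nat_lit 380) (nat_lit 4) (.n (nat_lit 381) (nat_lit 10) (.n (nat_lit 382) (nat_lit 1) (.p (nat_lit 383) (nat_lit 4) (.n (nat_lit 384) (nat_lit 7) (.n (nat_lit 385) (nat_lit 6) (.p (nat_lit 387) (nat_lit 8) (.p (nat_lit 388) (nat_lit 5) .z)))))))))))))))))))))))))))))))))))))))))))))))))))))))))))) (.u (nat_lit 2) (.n (nat_lit 389) (nat_lit 7) (.p (nat_lit 392) (nat_lit 3) (.p (nat_lit 393)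 (nat_lit 6) (.n (nat_lit 394) (nat_lit 7) (.p (nat_lit 395) (nat_lit 1) (.p (nat_lit 396) (nat_lit 1) (.p (nat_lit 397) (nat_lit 6) (.p (nat_lit 398) (nat_lit 1) (.p (nat_lit 399) (nat_lit 2) (.p (nat_lit 400) (nat_lit 2) (.p (nat_lit 401) (nat_lit 1) (.p (nat_lit 402) (nat_lit 5) (.n (nat_lit 404) (nat_lit 9) (.p (nat_lit 405) (nat_lit 2) (.p (nat_lit 406) (nat_lit 10) (.n (nat_lit 407) (nat_lit 14) (.n (nat_lit 408) (nat_lit 1) (.n (nat_lit 409) (nat_lit 7) (.n (nat_lit 410) (nat_lit 13) (.n (nat_lit 411) (nat_lit 6) (.p (nat_lit 412) (nat_lit 4) (.p (nat_lit 413) (nat_lit 3) (.p (nat_lit 414) (nat_lit 5) (.p (nat_lit 415) (nat_lit 13) (.n (nat_lit 416) (nat_lit 20) (.p (nat_lit 417) (nat_lit 2) (.p (nat_lit 418) (nat_lit 2) (.p (nat_lit 419) (nat_lit 5) (.n (nat_lit 420) (nat_lit 10) (.n (nat_lit 421) (nat_lit 2) (.n (nat_lit 422) (nat_lit 1) (.n (nat_lit 423) (nat_lit 2) (.p (nat_lit 425) (nat_lit 2) (.n (nat_lit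 426) (nat_lit 5) (.n (nat_lit 427) (nat_lit 1) (.n (nat_lit 428) (nat_lit 8) (.n (nat_lit 429) (nat_lit 4) (.n (nat_lit 430) (nat_lit 2) (.n (nat_lit 431) (nat_lit 3) (.p (nat_lit 433) (nat_lit 7) (.p (nat_lit 434) (nat_lit 7) .z))))))))))))))))))))))))))))))))))))))))) .nil)))))))))))))))))))))))))

noncomputable def dC1d_i288 : IL := (.e false (nat_lit 3) (nat_lit 266) (nat_lit 1) (nat_lit 18) (.e true (nat_lit 2) (nat_lit 267) (nat_lit 1) (nat_lit 18) (.e true (nat_lit 3) (nat_lit 268) (nat_lit 1) (nat_lit 18) (.e false (nat_lit 1) (nat_lit 270) (nat_lit 1) (nat_lit 18) (.e true (nat_lit 3) (nat_lit 272) (nat_lit 1) (nat_lit 18) (.e false (nat_lit 3) (nat_lit 273) (nat_lit 1) (nat_lit 18) (.e false (nat_lit 1) (nat_lit 274) (nat_lit 1) (nat_lit 18) (.e true (nat_lit 3) (nat_lit 280) (nat_lit 1) (nat_lit 18) (.e false (nat_lit 2) (nat_lit 285) (nat_lit 1) (nat_lit 18) (.e false (nat_lit 2) (nat_lit 286) (nat_lit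 1) (nat_lit 18) (.e false (nat_lit 2) (nat_lit 260) (nat_lit 1) (nat_lit 18) (.e true (nat_lit 2) (nat_lit 271) (nat_lit 1) (nat_lit 18) (.e false (nat_lit 2) (nat_lit 279) (nat_lit 1) (nat_lit 18) (.e false (nat_lit 2) (nat_lit 288) (nat_lit 1) (nat_lit 18) (.e false (nat_lit 2) (nat_lit 291) (nat_lit 0) (nat_lit 19) (.e true (nat_lit 1) (nat_lit 293) (nat_lit 0) (nat_lit 19) (.e false (nat_lit 3) (nat_lit 294) (nat_lit 0) (nat_lit 19) (.e false (nat_lit 1) (nat_lit 295) (nat_lit 0) (nat_lit 19) (.e true (nat_lit 3) (nat_lit 296) (nat_lit 0) (nat_lit 19) (.e false (nat_lit 2) (nat_lit 297) (nat_lit 0) (nat_lit 19) (.e true (nat_lit 2) (nat_lit 299) (nat_lit 0) (nat_lit 19) (.e true (nat_lit 1) (nat_lit 300) (nat_lit 0) (nat_lit 19) (.e true (nat_lit 2) (nat_lit 302) (nat_lit 0) (nat_lit 19) (.e false (nat_lit 2) (nat_lit 305) (nat_lit 0) (nat_lit 19) (.e false (nat_lit 1) (nat_lit 308) (nat_lit 0) (nat_lit 19)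 dC1d_i287)))))))))))))))))))))))))

noncomputable def dC1d_i289 : IL := (.e true (nat_lit 2) (nat_lit 223) (nat_lit 2) (nat_lit 17) (.e false (nat_lit 1) (nat_lit 225) (nat_lit 2) (nat_lit 17) (.e true (nat_lit 3) (nat_lit 226) (nat_lit 2) (nat_lit 17) (.e true (nat_lit 2) (nat_lit 227) (nat_lit 2) (nat_lit 17) (.e true (nat_lit 1) (nat_lit 228) (nat_lit 2) (nat_lit 17) (.e true (nat_lit 1) (nat_lit 233) (nat_lit 2) (nat_lit 17) (.e false (nat_lit 2) (nat_lit 236) (nat_lit 2) (nat_lit 17) (.e true (nat_lit 3) (nat_lit 239) (nat_lit 2) (nat_lit 17) (.e true (nat_lit 2) (nat_lit 245) (nat_lit 2) (nat_lit 17) (.e true (nat_lit 3) (nat_lit 246) (nat_lit 2) (nat_lit 17) (.e false (nat_lit 3) (nat_lit 247) (nat_lit 2) (nat_lit 17) (.e true (nat_lit 3) (nat_lit 248) (nat_lit 2) (nat_lit 17) (.e false (nat_lit 2) (nat_lit 212) (nat_lit 2) (nat_lit 17) (.e true (nat_lit 1) (nat_lit 219) (nat_lit 2) (nat_lit 17) (.e true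 (nat_lit 1) (nat_lit 237) (nat_lit 2) (nat_lit 17) (.e false (nat_lit 1) (nat_lit 215) (nat_lit 2) (nat_lit 17) (.e false (nat_lit 1) (nat_lit 249) (nat_lit 2) (nat_lit 17) (.e false (nat_lit 3) (nat_lit 307) (nat_lit 0) (nat_lit 19) (.e true (nat_lit 1) (nat_lit 77) (nat_lit 13) (nat_lit 8) (.e false (nat_lit 1) (nat_lit 78) (nat_lit 13) (nat_lit 8) (.e true (nat_lit 1) (nat_lit 259) (nat_lit 2) (nat_lit 17) (.e false (nat_lit 1) (nat_lit 261) (nat_lit 1) (nat_lit 18) (.e false (nat_lit 2) (nat_lit 263) (nat_lit 1) (nat_lit 18) (.e false (nat_lit 1) (nat_lit 264) (nat_lit 1) (nat_lit 18) (.e false (nat_lit 2) (nat_lit 265) (nat_lit 1) (nat_lit 18) dC1d_i288)))))))))))))))))))))))))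

noncomputable def dC1d_i290 : IL := (.s true (nat_lit 1) (nat_lit 73) (nat_lit 2) (nat_lit 2) (nat_lit 0) true (nat_lit 15) true (nat_lit 19) false (nat_lit 7) true (nat_lit 17) true (nat_lit 17) (.s true (nat_lit 2) (nat_lit 75) (nat_lit 2) (nat_lit 2) (nat_lit 0) true (nat_lit 15) true (nat_lit 19) false (nat_lit 7) true (nat_lit 17) true (nat_lit 17) (.s true (nat_lit 3) (nat_lit 77) (nat_lit 1) (nat_lit 1) (nat_lit 2) true (nat_lit 14) true (nat_lit 17) false (nat_lit 8) true (nat_lit 18) true (nat_lit 18) (.s false (nat_lit 3) (nat_lit 78) (nat_lit 1) (nat_lit 1) (nat_lit 2) true (nat_lit 14) true (nat_lit 17) false (nat_lit 8) true (nat_lit 18) true (nat_lit 18) (.s false (nat_lit 2) (nat_lit 79) (nat_lit 1) (nat_lit 1) (nat_lit 2) true (nat_lit 14) true (nat_lit 17) false (nat_lit 8) true (nat_lit 18) true (nat_lit 18) (.s true (nat_lit 1) (nat_lit 79) (nat_lit 1) (nat_lit 2) (nat_lit 1) false (nat_lit 21)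 true (nat_lit 18) false (nat_lit 8) true (nat_lit 18) true (nat_lit 17) (.s true (nat_lit 3) (nat_lit 81) (nat_lit 1) (nat_lit 2) (nat_lit 1) false (nat_lit 21) true (nat_lit 18) false (nat_lit 8) true (nat_lit 18) true (nat_lit 17) (.s true (nat_lit 2) (nat_lit 93) (nat_lit 0) (nat_lit 2) (nat_lit 0) false (nat_lit 20) true (nat_lit 19) false (nat_lit 10) true (nat_lit 19) true (nat_lit 17) (.s false (nat_lit 3) (nat_lit 94) (nat_lit 0) (nat_lit 2) (nat_lit 0) false (nat_lit 20) true (nat_lit 19) false (nat_lit 10) true (nat_lit 19) true (nat_lit 17) (.s false (nat_lit 1) (nat_lit 95) (nat_lit 0) (nat_lit 2) (nat_lit 0) false (nat_lit 20) true (nat_lit 19) false (nat_lit 10) true (nat_lit 19) true (nat_lit 17) (.s true (nat_lit 1) (nat_lit 97) (nat_lit 0) (nat_lit 2) (nat_lit 0) false (nat_lit 20) true (nat_lit 19) false (nat_lit 10) true (nat_lit 19) true (nat_lit 17) (.s true (nat_lit 2) (nat_lit 98) (nat_lit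 0) (nat_lit 1) (nat_lit 1) true (nat_lit 16) true (nat_lit 18) false (nat_lit 11) true (nat_lit 19) true (nat_lit 18) (.s false (nat_lit 2) (nat_lit 100) (nat_lit 1) (nat_lit 0) (nat_lit 1) false (nat_lit 21) true (nat_lit 18) false (nat_lit 11) true (nat_lit 18) true (nat_lit 19) (.s true (nat_lit 2) (nat_lit 98) (nat_lit 1) (nat_lit 1) (nat_lit 0) true (nat_lit 16) true (nat_lit 19) false (nat_lit 11) true (nat_lit 18) true (nat_lit 18) (.s true (nat_lit 1) (nat_lit 102) (nat_lit 0) (nat_lit 1) (nat_lit 0) false (nat_lit 20) true (nat_lit 19) false (nat_lit 12) true (nat_lit 19) true (nat_lit 18) (.s true (nat_lit 3) (nat_lit 103) (nat_lit 0) (nat_lit 1) (nat_lit 0) false (nat_lit 20) true (nat_lit 19) false (nat_lit 12) true (nat_lit 19) true (nat_lit 18) (.s true (nat_lit 1) (nat_lit 105) (nat_lit 0) (nat_lit 1) (nat_lit 0) false (nat_lit 20) true (nat_lit 19) false (nat_lit 12) true (nat_lit 19) true (nat_lit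 18) (.a false (nat_lit 3) (nat_lit 34) (nat_lit 34) (nat_lit 0) (nat_lit 0) (.a false (nat_lit 3) (nat_lit 35) (nat_lit 35) (nat_lit 0) (nat_lit 0) (.e false (nat_lit 1) (nat_lit 213) (nat_lit 2) (nat_lit 17) (.e false (nat_lit 2) (nat_lit 216) (nat_lit 2) (nat_lit 17) (.e false (nat_lit 3) (nat_lit 217) (nat_lit 2) (nat_lit 17) (.e true (nat_lit 2) (nat_lit 218) (nat_lit 2) (nat_lit 17) (.e true (nat_lit 2) (nat_lit 221) (nat_lit 2) (nat_lit 17) (.e true (nat_lit 1) (nat_lit 222) (nat_lit 2) (nat_lit 17) dC1d_i289)))))))))))))))))))))))))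

noncomputable def dC1d_i291 : IL := (.s false (nat_lit 2) (nat_lit 52) (nat_lit 2) (nat_lit 2) (nat_lit 2) true (nat_lit 13) true (nat_lit 17) false (nat_lit 5) true (nat_lit 17) true (nat_lit 17) (.s true (nat_lit 1) (nat_lit 54) (nat_lit 2) (nat_lit 2) (nat_lit 2) true (nat_lit 13) true (nat_lit 17) false (nat_lit 5) true (nat_lit 17) true (nat_lit 17) (.s true (nat_lit 3) (nat_lit 55) (nat_lit 1) (nat_lit 2) (nat_lit 2) true (nat_lit 14) true (nat_lit 17) false (nat_lit 6) true (nat_lit 18) true (nat_lit 17) (.s false (nat_lit 2) (nat_lit 56) (nat_lit 1) (nat_lit 2) (nat_lit 2) true (nat_lit 14) true (nat_lit 17) false (nat_lit 6) true (nat_lit 18) true (nat_lit 17) (.s true (nat_lit 2) (nat_lit 59) (nat_lit 1) (nat_lit 2) (nat_lit 2) true (nat_lit 14) true (nat_lit 17) false (nat_lit 6) true (nat_lit 18) true (nat_lit 17) (.s true (nat_lit 1) (nat_lit 60) (nat_lit 1) (nat_lit 2) (nat_lit 2) true (nat_lit 14)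 true (nat_lit 17) false (nat_lit 6) true (nat_lit 18) true (nat_lit 17) (.s true (nat_lit 1) (nat_lit 64) (nat_lit 1) (nat_lit 2) (nat_lit 2) true (nat_lit 14) true (nat_lit 17) false (nat_lit 6) true (nat_lit 18) true (nat_lit 17) (.s true (nat_lit 3) (nat_lit 65) (nat_lit 1) (nat_lit 2) (nat_lit 2) true (nat_lit 14) true (nat_lit 17) false (nat_lit 6) true (nat_lit 18) true (nat_lit 17) (.s true (nat_lit 2) (nat_lit 59) (nat_lit 2) (nat_lit 1) (nat_lit 2) true (nat_lit 13) true (nat_lit 17) false (nat_lit 6) true (nat_lit 17) true (nat_lit 18) (.s true (nat_lit 1) (nat_lit 60) (nat_lit 2) (nat_lit 1) (nat_lit 2) true (nat_lit 13) true (nat_lit 17) false (nat_lit 6) true (nat_lit 17) true (nat_lit 18) (.s false (nat_lit 2) (nat_lit 61) (nat_lit 2) (nat_lit 1) (nat_lit 2) true (nat_lit 13) true (nat_lit 17) false (nat_lit 6) true (nat_lit 17) true (nat_lit 18) (.s false (nat_lit 1) (nat_lit 64) (nat_lit 2) (nat_lit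 1) (nat_lit 2) true (nat_lit 13) true (nat_lit 17) false (nat_lit 6) true (nat_lit 17) true (nat_lit 18) (.s false (nat_lit 1) (nat_lit 65) (nat_lit 2) (nat_lit 1) (nat_lit 2) true (nat_lit 13) true (nat_lit 17) false (nat_lit 6) true (nat_lit 17) true (nat_lit 18) (.s true (nat_lit 1) (nat_lit 55) (nat_lit 2) (nat_lit 2) (nat_lit 1) true (nat_lit 14) true (nat_lit 18) false (nat_lit 6) true (nat_lit 17) true (nat_lit 17) (.s false (nat_lit 1) (nat_lit 64) (nat_lit 2) (nat_lit 2) (nat_lit 1) true (nat_lit 14) true (nat_lit 18) false (nat_lit 6) true (nat_lit 17) true (nat_lit 17) (.s false (nat_lit 2) (nat_lit 66) (nat_lit 0) (nat_lit 2) (nat_lit 2) true (nat_lit 15) true (nat_lit 17) false (nat_lit 7) true (nat_lit 19) true (nat_lit 17) (.s true (nat_lit 2) (nat_lit 67) (nat_lit 0) (nat_lit 2) (nat_lit 2) true (nat_lit 15) true (nat_lit 17) false (nat_lit 7) true (nat_lit 19) true (nat_lit 17) (.s false (nat_lit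 1) (nat_lit 71) (nat_lit 0) (nat_lit 2) (nat_lit 2) true (nat_lit 15) true (nat_lit 17) false (nat_lit 7) true (nat_lit 19) true (nat_lit 17) (.s false (nat_lit 3) (nat_lit 72) (nat_lit 0) (nat_lit 2) (nat_lit 2) true (nat_lit 15) true (nat_lit 17) false (nat_lit 7) true (nat_lit 19) true (nat_lit 17) (.s false (nat_lit 2) (nat_lit 74) (nat_lit 0) (nat_lit 2) (nat_lit 2) true (nat_lit 15) true (nat_lit 17) false (nat_lit 7) true (nat_lit 19) true (nat_lit 17) (.s true (nat_lit 1) (nat_lit 76) (nat_lit 0) (nat_lit 2) (nat_lit 2) true (nat_lit 15) true (nat_lit 17) false (nat_lit 7) true (nat_lit 19) true (nat_lit 17) (.s true (nat_lit 3) (nat_lit 66) (nat_lit 2) (nat_lit 0) (nat_lit 2) true (nat_lit 13) true (nat_lit 17) false (nat_lit 7) true (nat_lit 17) true (nat_lit 19) (.s false (nat_lit 1) (nat_lit 66) (nat_lit 2) (nat_lit 2) (nat_lit 0) true (nat_lit 15) true (nat_lit 19) false (nat_lit 7) true (nat_lit 17)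 true (nat_lit 17) (.s true (nat_lit 2) (nat_lit 67) (nat_lit 2) (nat_lit 2) (nat_lit 0) true (nat_lit 15) true (nat_lit 19) false (nat_lit 7) true (nat_lit 17) true (nat_lit 17) (.s true (nat_lit 1) (nat_lit 72) (nat_lit 2) (nat_lit 2) (nat_lit 0) true (nat_lit 15) true (nat_lit 19) false (nat_lit 7) true (nat_lit 17) true (nat_lit 17) dC1d_i290)))))))))))))))))))))))))

noncomputable def dC1d_i292 : IL := (.s true (nat_lit 2) (nat_lit 18) (nat_lit 2) (nat_lit 0) (nat_lit 8) true (nat_lit 2) true (nat_lit 11) true (nat_lit 5) true (nat_lit 17) true (nat_lit 19) (.s true (nat_lit 3) (nat_lit 18) (nat_lit 8) (nat_lit 0) (nat_lit 2) true (nat_lit 2) true (nat_lit 17) true (nat_lit 5) true (nat_lit 11) true (nat_lit 19) (.s true (nat_lit 2) (nat_lit 18) (nat_lit 8) (nat_lit 2) (nat_lit 0) true (nat_lit 4) true (nat_lit 19) true (nat_lit 5) true (nat_lit 11) true (nat_lit 17) (.s false (nat_lit 2) (nat_lit 19) (nat_lit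 2) (nat_lit 2) (nat_lit 6) true (nat_lit 5) true (nat_lit 13) true (nat_lit 4) true (nat_lit 17) true (nat_lit 17) (.s false (nat_lit 1) (nat_lit 19) (nat_lit 6) (nat_lit 2) (nat_lit 2) true (nat_lit 5) true (nat_lit 17) true (nat_lit 4) true (nat_lit 13) true (nat_lit 17) (.s true (nat_lit 2) (nat_lit 21) (nat_lit 2) (nat_lit 2) (nat_lit 5) true (nat_lit 6) true (nat_lit 14) true (nat_lit 3) true (nat_lit 17) true (nat_lit 17) (.s false (nat_lit 3) (nat_lit 20) (nat_lit 2) (nat_lit 5) (nat_lit 2) true (nat_lit 13) true (nat_lit 17) true (nat_lit 3) true (nat_lit 17) true (nat_lit 14) (.s false (nat_lit 2) (nat_lit 20) (nat_lit 5) (nat_lit 2) (nat_lit 2) true (nat_lit 6) true (nat_lit 17) true (nat_lit 3) true (nat_lit 14) true (nat_lit 17) (.s true (nat_lit 3) (nat_lit 24) (nat_lit 0) (nat_lit 2) (nat_lit 6) true (nat_lit 7) true (nat_lit 13) true (nat_lit 2) true (nat_lit 19) true (nat_lit 17) (.s true (nat_lit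 1) (nat_lit 24) (nat_lit 0) (nat_lit 6) (nat_lit 2) true (nat_lit 15) true (nat_lit 17) true (nat_lit 2) true (nat_lit 19) true (nat_lit 13) (.s false (nat_lit 2) (nat_lit 24) (nat_lit 2) (nat_lit 2) (nat_lit 4) true (nat_lit 7) true (nat_lit 15) true (nat_lit 2) true (nat_lit 17) true (nat_lit 17) (.s false (nat_lit 1) (nat_lit 25) (nat_lit 2) (nat_lit 2) (nat_lit 4) true (nat_lit 7) true (nat_lit 15) true (nat_lit 2) true (nat_lit 17) true (nat_lit 17) (.s true (nat_lit 1) (nat_lit 27) (nat_lit 2) (nat_lit 2) (nat_lit 4) true (nat_lit 7) true (nat_lit 15) true (nat_lit 2) true (nat_lit 17) true (nat_lit 17) (.s false (nat_lit 1) (nat_lit 24) (nat_lit 6) (nat_lit 2) (nat_lit 0) true (nat_lit 7) true (nat_lit 19) true (nat_lit 2) true (nat_lit 13) true (nat_lit 17) (.s true (nat_lit 2) (nat_lit 28) (nat_lit 1) (nat_lit 1) (nat_lit 6) true (nat_lit 6) true (nat_lit 13) true (nat_lit 1) true (nat_lit 18) true (nat_lit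 18) (.s false (nat_lit 1) (nat_lit 28) (nat_lit 1) (nat_lit 2) (nat_lit 5) true (nat_lit 8) true (nat_lit 14) true (nat_lit 1) true (nat_lit 18) true (nat_lit 17) (.s false (nat_lit 1) (nat_lit 28) (nat_lit 1) (nat_lit 5) (nat_lit 2) true (nat_lit 14) true (nat_lit 17) true (nat_lit 1) true (nat_lit 18) true (nat_lit 14) (.s false (nat_lit 1) (nat_lit 29) (nat_lit 1) (nat_lit 6) (nat_lit 1) false (nat_lit 21) true (nat_lit 18) true (nat_lit 1) true (nat_lit 18) true (nat_lit 13) (.s true (nat_lit 3) (nat_lit 30) (nat_lit 1) (nat_lit 6) (nat_lit 1) false (nat_lit 21) true (nat_lit 18) true (nat_lit 1) true (nat_lit 18) true (nat_lit 13) (.s true (nat_lit 2) (nat_lit 30) (nat_lit 2) (nat_lit 1) (nat_lit 5) true (nat_lit 6) true (nat_lit 14) true (nat_lit 1) true (nat_lit 17) true (nat_lit 18) (.s true (nat_lit 1) (nat_lit 28) (nat_lit 5) (nat_lit 2) (nat_lit 1) true (nat_lit 8) true (nat_lit 18) true (nat_lit 1) true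 (nat_lit 14) true (nat_lit 17) (.s false (nat_lit 1) (nat_lit 35) (nat_lit 6) (nat_lit 0) (nat_lit 1) true (nat_lit 6) true (nat_lit 18) true (nat_lit 0) true (nat_lit 13) true (nat_lit 19) (.s true (nat_lit 1) (nat_lit 39) (nat_lit 0) (nat_lit 2) (nat_lit 4) true (nat_lit 10) true (nat_lit 15) false (nat_lit 1) true (nat_lit 19) true (nat_lit 17) (.s false (nat_lit 2) (nat_lit 37) (nat_lit 6) (nat_lit 0) (nat_lit 0) true (nat_lit 7) true (nat_lit 19) false (nat_lit 1) true (nat_lit 13) true (nat_lit 19) (.s true (nat_lit 2) (nat_lit 39) (nat_lit 6) (nat_lit 0) (nat_lit 0) true (nat_lit 7) true (nat_lit 19) false (nat_lit 1) true (nat_lit 13) true (nat_lit 19) dC1d_i291)))))))))))))))))))))))))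

noncomputable def dC1d_i293 : IL := (.e true (nat_lit 3) (nat_lit 292) (nat_lit 0) (nat_lit 19) (.e true (nat_lit 3) (nat_lit 294) (nat_lit 0) (nat_lit 19) (.e true (nat_lit 1) (nat_lit 295) (nat_lit 0) (nat_lit 19) (.e false (nat_lit 3) (nat_lit 296) (nat_lit 0) (nat_lit 19) (.e true (nat_lit 3) (nat_lit 300) (nat_lit 0) (nat_lit 19) (.e true (nat_lit 3) (nat_lit 302) (nat_lit 0) (nat_lit 19) (.e true (nat_lit 3) (nat_lit 303) (nat_lit 0) (nat_lit 19) (.e false (nat_lit 3) (nat_lit 305) (nat_lit 0) (nat_lit 19) (.e true (nat_lit 1) (nat_lit 309) (nat_lit 0) (nat_lit 19) (.e true (nat_lit 2) (nat_lit 314) (nat_lit 0) (nat_lit 19) (.e true (nat_lit 2) (nat_lit 315) (nat_lit 0) (nat_lit 19) (.e true (nat_lit 1) (nat_lit 316) (nat_lit 0) (nat_lit 19) (.e false (nat_lit 3) (nat_lit 290) (nat_lit 0) (nat_lit 19) (.e true (nat_lit 3) (nat_lit 281) (nat_lit 1) (nat_lit 18) (.e true (nat_lit 1) (nat_lit 282) (nat_lit 1)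 (nat_lit 18) (.e false (nat_lit 3) (nat_lit 293) (nat_lit 0) (nat_lit 19) (.e true (nat_lit 1) (nat_lit 310) (nat_lit 0) (nat_lit 19) (.e true (nat_lit 3) (nat_lit 297) (nat_lit 0) (nat_lit 19) (.e true (nat_lit 3) (nat_lit 313) (nat_lit 0) (nat_lit 19) (.e true (nat_lit 2) (nat_lit 144) (nat_lit 5) (nat_lit 14) (.e true (nat_lit 1) (nat_lit 160) (nat_lit 4) (nat_lit 15) (.u (nat_lit 2) (.n (nat_lit 0) (nat_lit 1) (.n (nat_lit 1) (nat_lit 2) (.p (nat_lit 4) (nat_lit 1) (.p (nat_lit 6) (nat_lit 1) (.n (nat_lit 7) (nat_lit 1) (.p (nat_lit 8) (nat_lit 1) (.p (nat_lit 9) (nat_lit 1) (.n (nat_lit 10) (nat_lit 2) (.p (nat_lit 11) (nat_lit 1) (.p (nat_lit 14) (nat_lit 1) (.p (nat_lit 15) (nat_lit 1) (.n (nat_lit 17) (nat_lit 1) (.p (nat_lit 20) (nat_lit 1) (.p (nat_lit 26) (nat_lit 2) (.p (nat_lit 27) (nat_lit 2) (.n (nat_lit 29) (nat_lit 1) (.n (nat_lit 31) (nat_lit 1) (.p (nat_lit 32) (nat_lit 1) (.n (nat_lit 33) (nat_lit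 1) (.p (nat_lit 35) (nat_lit 3) (.n (nat_lit 36) (nat_lit 1) (.p (nat_lit 37) (nat_lit 1) (.n (nat_lit 38) (nat_lit 1) (.p (nat_lit 40) (nat_lit 1) (.n (nat_lit 49) (nat_lit 1) (.n (nat_lit 52) (nat_lit 1) (.n (nat_lit 54) (nat_lit 1) (.p (nat_lit 55) (nat_lit 1) (.n (nat_lit 57) (nat_lit 1) (.p (nat_lit 73) (nat_lit 1) (.p (nat_lit 74) (nat_lit 1) (.n (nat_lit 77) (nat_lit 1) (.n (nat_lit 78) (nat_lit 1) (.p (nat_lit 83) (nat_lit 1) (.p (nat_lit 93) (nat_lit 1) (.n (nat_lit 94) (nat_lit 1) (.p (nat_lit 95) (nat_lit 1) (.n (nat_lit 101) (nat_lit 1) (.p (nat_lit 107) (nat_lit 1) (.p (nat_lit 110) (nat_lit 1) (.p (nat_lit 111) (nat_lit 1) (.n (nat_lit 112) (nat_lit 1) (.p (nat_lit 117) (nat_lit 1) (.p (nat_lit 118) (nat_lit 1) (.p (nat_lit 126) (nat_lit 1) (.p (nat_lit 127) (nat_lit 1) (.n (nat_lit 131) (nat_lit 1) (.p (nat_lit 136) (nat_lit 1) (.n (nat_lit 140) (nat_lit 1) (.n (nat_lit 142) (nat_lit 1) (.p (nat_lit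 146) (nat_lit 1) (.p (nat_lit 149) (nat_lit 1) (.p (nat_lit 150) (nat_lit 1) (.p (nat_lit 154) (nat_lit 1) (.n (nat_lit 155) (nat_lit 1) (.n (nat_lit 156) (nat_lit 1) (.n (nat_lit 159) (nat_lit 1) (.n (nat_lit 162) (nat_lit 3) (.n (nat_lit 170) (nat_lit 2) (.n (nat_lit 173) (nat_lit 1) .z)))))))))))))))))))))))))))))))))))))))))))))))))))))))))))) (.u (nat_lit 2) (.p (nat_lit 174) (nat_lit 1) (.p (nat_lit 181) (nat_lit 1) (.p (nat_lit 182) (nat_lit 1) (.n (nat_lit 183) (nat_lit 1) (.p (nat_lit 185) (nat_lit 1) (.n (nat_lit 192) (nat_lit 1) (.n (nat_lit 193) (nat_lit 2) (.n (nat_lit 194) (nat_lit 1) (.p (nat_lit 195) (nat_lit 1) (.n (nat_lit 212) (nat_lit 1) (.n (nat_lit 222) (nat_lit 1) (.n (nat_lit 225) (nat_lit 1) (.n (nat_lit 228) (nat_lit 1) (.p (nat_lit 233) (nat_lit 1) (.p (nat_lit 234) (nat_lit 1) (.n (nat_lit 235) (nat_lit 2) (.n (nat_lit 237) (nat_lit 1) (.n (nat_lit 238) (nat_lit 1) (.p (nat_lit 241) (nat_lit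 1) (.p (nat_lit 242) (nat_lit 1) (.p (nat_lit 244) (nat_lit 1) (.p (nat_lit 245) (nat_lit 2) (.p (nat_lit 246) (nat_lit 2) (.n (nat_lit 247) (nat_lit 1) (.p (nat_lit 248) (nat_lit 1) (.n (nat_lit 250) (nat_lit 1) (.p (nat_lit 251) (nat_lit 3) (.n (nat_lit 252) (nat_lit 1) (.p (nat_lit 253) (nat_lit 1) (.n (nat_lit 254) (nat_lit 2) (.p (nat_lit 255) (nat_lit 1) (.n (nat_lit 257) (nat_lit 2) (.n (nat_lit 258) (nat_lit 1) (.n (nat_lit 259) (nat_lit 1) (.p (nat_lit 260) (nat_lit 3) (.p (nat_lit 262) (nat_lit 1) (.p (nat_lit 263) (nat_lit 1) (.n (nat_lit 265) (nat_lit 1) (.n (nat_lit 269) (nat_lit 1) (.p (nat_lit 270) (nat_lit 2) (.n (nat_lit 272) (nat_lit 1) (.n (nat_lit 273) (nat_lit 3) (.n (nat_lit 274) (nat_lit 1) (.n (nat_lit 276) (nat_lit 1) (.n (nat_lit 277) (nat_lit 2) (.p (nat_lit 278) (nat_lit 3) (.n (nat_lit 279) (nat_lit 1) (.p (nat_lit 282) (nat_lit 2) (.n (nat_lit 283) (nat_lit 2) (.n (nat_lit 285) (nat_lit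 1) (.n (nat_lit 286) (nat_lit 1) (.p (nat_lit 287) (nat_lit 1) (.n (nat_lit 288) (nat_lit 2) (.n (nat_lit 289) (nat_lit 2) (.n (nat_lit 290) (nat_lit 1) (.n (nat_lit 296) (nat_lit 1) (.p (nat_lit 300) (nat_lit 1) (.p (nat_lit 304) (nat_lit 1) (.p (nat_lit 307) (nat_lit 1) (.n (nat_lit 311) (nat_lit 3) .z)))))))))))))))))))))))))))))))))))))))))))))))))))))))))))) (.u (nat_lit 2) (.n (nat_lit 312) (nat_lit 3) (.n (nat_lit 314) (nat_lit 1) (.n (nat_lit 315) (nat_lit 3) (.n (nat_lit 316) (nat_lit 6) (.n (nat_lit 317) (nat_lit 2) (.p (nat_lit 320) (nat_lit 1) (.p (nat_lit 327) (nat_lit 9) (.n (nat_lit 328) (nat_lit 12) (.n (nat_lit 329) (nat_lit 9) (.p (nat_lit 330) (nat_lit 51) (.n (nat_lit 331) (nat_lit 37) (.p (nat_lit 332) (nat_lit 11) (.n (nat_lit 333) (nat_lit 31) (.n (nat_lit 334) (nat_lit 23) (.n (nat_lit 335) (nat_lit 20) (.p (nat_lit 336) (nat_lit 31) (.n (nat_lit 337) (nat_lit 10) (.p (nat_lit 338) (nat_lit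 29) (.p (nat_lit 339) (nat_lit 11) (.p (nat_lit 340) (nat_lit 9) (.n (nat_lit 341) (nat_lit 25) (.n (nat_lit 342) (nat_lit 7) (.p (nat_lit 343) (nat_lit 15) (.p (nat_lit 344) (nat_lit 8) (.p (nat_lit 345) (nat_lit 10) (.p (nat_lit 346) (nat_lit 49) (.p (nat_lit 347) (nat_lit 5) (.p (nat_lit 348) (nat_lit 2) (.p (nat_lit 349) (nat_lit 35) (.p (nat_lit 350) (nat_lit 31) (.p (nat_lit 351) (nat_lit 14) (.n (nat_lit 352) (nat_lit 16) (.p (nat_lit 353) (nat_lit 16) (.n (nat_lit 354) (nat_lit 8) (.n (nat_lit 355) (nat_lit 7) (.p (nat_lit 356) (nat_lit 7) (.n (nat_lit 357) (nat_lit 11) (.n (nat_lit 358) (nat_lit 4) (.n (nat_lit 359) (nat_lit 30) (.p (nat_lit 360) (nat_lit 11) (.p (nat_lit 361) (nat_lit 3) (.n (nat_lit 362) (nat_lit 1) (.p (nat_lit 363) (nat_lit 15) (.n (nat_lit 364) (nat_lit 9) (.n (nat_lit 365) (nat_lit 9) (.p (nat_lit 366) (nat_lit 5) (.p (nat_lit 367) (nat_lit 10) (.p (nat_lit 368) (nat_lit 18) (.p (nat_lit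 370) (nat_lit 7) (.p (nat_lit 371) (nat_lit 10) (.n (nat_lit 372) (nat_lit 12) (.n (nat_lit 373) (nat_lit 9) (.p (nat_lit 374) (nat_lit 5) (.p (nat_lit 375) (nat_lit 3) (.n (nat_lit 376) (nat_lit 2) (.p (nat_lit 377) (nat_lit 17) (.n (nat_lit 378) (nat_lit 5) (.n (nat_lit 379) (nat_lit 2) (.n (nat_lit 380) (nat_lit 11) (.n (nat_lit 381) (nat_lit 25) .z)))))))))))))))))))))))))))))))))))))))))))))))))))))))))))) (.u (nat_lit 2) (.n (nat_lit 382) (nat_lit 21) (.p (nat_lit 383) (nat_lit 17) (.p (nat_lit 384) (nat_lit 33) (.n (nat_lit 385) (nat_lit 4) (.n (nat_lit 386) (nat_lit 10) (.p (nat_lit 387) (nat_lit 12) (.p (nat_lit 388) (nat_lit 4) (.n (nat_lit 389) (nat_lit 15) (.n (nat_lit 390) (nat_lit 3) (.p (nat_lit 392) (nat_lit 23) (.p (nat_lit 393) (nat_lit 1) (.p (nat_lit 394) (nat_lit 9) (.p (nat_lit 395) (nat_lit 8) (.p (nat_lit 396) (nat_lit 7) (.n (nat_lit 397) (nat_lit 8) (.p (nat_lit 398) (nat_lit 11) (.n (nat_lit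 399) (nat_lit 7) (.n (nat_lit 400) (nat_lit 1) (.n (nat_lit 401) (nat_lit 16) (.n (nat_lit 402) (nat_lit 14) (.n (nat_lit 403) (nat_lit 3) (.p (nat_lit 404) (nat_lit 8) (.p (nat_lit 405) (nat_lit 11) (.n (nat_lit 406) (nat_lit 4) (.n (nat_lit 407) (nat_lit 8) (.n (nat_lit 408) (nat_lit 17) (.n (nat_lit 409) (nat_lit 2) (.n (nat_lit 410) (nat_lit 16) (.p (nat_lit 411) (nat_lit 4) (.p (nat_lit 412) (nat_lit 10) (.p (nat_lit 413) (nat_lit 4) (.n (nat_lit 414) (nat_lit 2) (.p (nat_lit 415) (nat_lit 11) (.n (nat_lit 417) (nat_lit 1) (.p (nat_lit 418) (nat_lit 5) (.p (nat_lit 419) (nat_lit 13) (.n (nat_lit 420) (nat_lit 17) (.n (nat_lit 421) (nat_lit 6) (.n (nat_lit 422) (nat_lit 5) (.p (nat_lit 423) (nat_lit 9) (.p (nat_lit 424) (nat_lit 9) (.p (nat_lit 425) (nat_lit 13) (.n (nat_lit 426) (nat_lit 3) (.p (nat_lit 427) (nat_lit 3) (.n (nat_lit 428) (nat_lit 1) (.n (nat_lit 429) (nat_lit 2) (.p (nat_lit 430) (nat_lit 4)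 (.p (nat_lit 431) (nat_lit 5) (.p (nat_lit 432) (nat_lit 3) (.p (nat_lit 433) (nat_lit 18) (.n (nat_lit 434) (nat_lit 1) .z))))))))))))))))))))))))))))))))))))))))))))))))))) .nil)))))))))))))))))))))))))

noncomputable def dC1d_i294 : IL := (.e true (nat_lit 2) (nat_lit 245) (nat_lit 2) (nat_lit 17) (.e true (nat_lit 2) (nat_lit 212) (nat_lit 2) (nat_lit 17) (.e true (nat_lit 2) (nat_lit 219) (nat_lit 2) (nat_lit 17) (.e true (nat_lit 1) (nat_lit 307) (nat_lit 0) (nat_lit 19) (.e true (nat_lit 2) (nat_lit 251) (nat_lit 2) (nat_lit 17) (.e false (nat_lit 3) (nat_lit 77) (nat_lit 13) (nat_lit 8) (.e false (nat_lit 3) (nat_lit 78) (nat_lit 13) (nat_lit 8) (.e false (nat_lit 3) (nat_lit 261) (nat_lit 1) (nat_lit 18) (.e true (nat_lit 3) (nat_lit 262) (nat_lit 1) (nat_lit 18) (.e false (nat_lit 1) (nat_lit 264) (nat_lit 1) (nat_lit 18) (.e false (nat_lit 2) (nat_lit 266) (nat_lit 1) (nat_lit 18) (.e true (nat_lit 1)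 (nat_lit 271) (nat_lit 1) (nat_lit 18) (.e false (nat_lit 3) (nat_lit 272) (nat_lit 1) (nat_lit 18) (.e true (nat_lit 3) (nat_lit 273) (nat_lit 1) (nat_lit 18) (.e true (nat_lit 1) (nat_lit 278) (nat_lit 1) (nat_lit 18) (.e false (nat_lit 1) (nat_lit 279) (nat_lit 1) (nat_lit 18) (.e false (nat_lit 1) (nat_lit 260) (nat_lit 1) (nat_lit 18) (.e true (nat_lit 3) (nat_lit 274) (nat_lit 1) (nat_lit 18) (.e true (nat_lit 2) (nat_lit 265) (nat_lit 1) (nat_lit 18) (.e true (nat_lit 1) (nat_lit 268) (nat_lit 1) (nat_lit 18) (.e true (nat_lit 3) (nat_lit 291) (nat_lit 0) (nat_lit 19) (.e true (nat_lit 2) (nat_lit 299) (nat_lit 0) (nat_lit 19) (.e false (nat_lit 1) (nat_lit 304) (nat_lit 0) (nat_lit 19) (.e true (nat_lit 3) (nat_lit 308) (nat_lit 0) (nat_lit 19) (.e true (nat_lit 1) (nat_lit 298) (nat_lit 0) (nat_lit 19) dC1d_i293)))))))))))))))))))))))))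

noncomputable def dC1d_i295 : IL := (.a true (nat_lit 3) (nat_lit 31) (nat_lit 33) (nat_lit 0) (nat_lit 0) (.a true (nat_lit 3) (nat_lit 31) (nat_lit 34) (nat_lit 0) (nat_lit 0) (.a true (nat_lit 3) (nat_lit 31) (nat_lit 35) (nat_lit 0) (nat_lit 0) (.a false (nat_lit 3) (nat_lit 31) (nat_lit 36) (nat_lit 0) (nat_lit 0) (.a false (nat_lit 2) (nat_lit 32) (nat_lit 33) (nat_lit 0) (nat_lit 0) (.a false (nat_lit 2) (nat_lit 32) (nat_lit 35) (nat_lit 0) (nat_lit 0) (.a true (nat_lit 2) (nat_lit 32) (nat_lit 36) (nat_lit 0) (nat_lit 0) (.a true (nat_lit 1) (nat_lit 33) (nat_lit 33) (nat_lit 0) (nat_lit 0) (.a true (nat_lit 2) (nat_lit 33) (nat_lit 34) (nat_lit 0) (nat_lit 0) (.a true (nat_lit 2) (nat_lit 33) (nat_lit 35) (nat_lit 0) (nat_lit 0) (.a false (nat_lit 2) (nat_lit 33) (nat_lit 36) (nat_lit 0) (nat_lit 0) (.a false (nat_lit 2) (nat_lit 34) (nat_lit 36) (nat_lit 0) (nat_lit 0) (.a true (nat_lit 1) (nat_lit 35)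 (nat_lit 35) (nat_lit 0) (nat_lit 0) (.a false (nat_lit 2) (nat_lit 35) (nat_lit 36) (nat_lit 0) (nat_lit 0) (.e true (nat_lit 1) (nat_lit 214) (nat_lit 2) (nat_lit 17) (.e true (nat_lit 3) (nat_lit 216) (nat_lit 2) (nat_lit 17) (.e false (nat_lit 1) (nat_lit 217) (nat_lit 2) (nat_lit 17) (.e true (nat_lit 2) (nat_lit 218) (nat_lit 2) (nat_lit 17) (.e true (nat_lit 1) (nat_lit 221) (nat_lit 2) (nat_lit 17) (.e true (nat_lit 3) (nat_lit 224) (nat_lit 2) (nat_lit 17) (.e true (nat_lit 2) (nat_lit 227) (nat_lit 2) (nat_lit 17) (.e true (nat_lit 2) (nat_lit 228) (nat_lit 2) (nat_lit 17) (.e true (nat_lit 3) (nat_lit 233) (nat_lit 2) (nat_lit 17) (.e false (nat_lit 2) (nat_lit 236) (nat_lit 2) (nat_lit 17) (.e false (nat_lit 1) (nat_lit 244) (nat_lit 2) (nat_lit 17) dC1d_i294)))))))))))))))))))))))))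

noncomputable def dC1d_i296 : IL := (.s true (nat_lit 3) (nat_lit 86) (nat_lit 1) (nat_lit 2) (nat_lit 0) true (nat_lit 16) true (nat_lit 19) false (nat_lit 9) true (nat_lit 18) true (nat_lit 17) (.s true (nat_lit 1) (nat_lit 87) (nat_lit 1) (nat_lit 2) (nat_lit 0) true (nat_lit 16) true (nat_lit 19) false (nat_lit 9) true (nat_lit 18) true (nat_lit 17) (.s false (nat_lit 3) (nat_lit 88) (nat_lit 1) (nat_lit 2) (nat_lit 0) true (nat_lit 16) true (nat_lit 19) false (nat_lit 9) true (nat_lit 18) true (nat_lit 17) (.s false (nat_lit 2) (nat_lit 89) (nat_lit 1) (nat_lit 2) (nat_lit 0) true (nat_lit 16) true (nat_lit 19) false (nat_lit 9) true (nat_lit 18) true (nat_lit 17) (.s true (nat_lit 3) (nat_lit 90) (nat_lit 1) (nat_lit 2) (nat_lit 0) true (nat_lit 16) true (nat_lit 19) false (nat_lit 9) true (nat_lit 18) true (nat_lit 17) (.s true (nat_lit 3) (nat_lit 92) (nat_lit 1) (nat_lit 2) (nat_lit 0) true (nat_lit 16)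 true (nat_lit 19) false (nat_lit 9) true (nat_lit 18) true (nat_lit 17) (.s true (nat_lit 2) (nat_lit 82) (nat_lit 2) (nat_lit 1) (nat_lit 0) true (nat_lit 15) true (nat_lit 19) false (nat_lit 9) true (nat_lit 17) true (nat_lit 18) (.s true (nat_lit 1) (nat_lit 83) (nat_lit 2) (nat_lit 1) (nat_lit 0) true (nat_lit 15) true (nat_lit 19) false (nat_lit 9) true (nat_lit 17) true (nat_lit 18) (.s true (nat_lit 3) (nat_lit 85) (nat_lit 2) (nat_lit 1) (nat_lit 0) true (nat_lit 15) true (nat_lit 19) false (nat_lit 9) true (nat_lit 17) true (nat_lit 18) (.s true (nat_lit 2) (nat_lit 90) (nat_lit 2) (nat_lit 1) (nat_lit 0) true (nat_lit 15) true (nat_lit 19) false (nat_lit 9) true (nat_lit 17) true (nat_lit 18) (.s false (nat_lit 1) (nat_lit 93) (nat_lit 0) (nat_lit 2) (nat_lit 0) false (nat_lit 20) true (nat_lit 19) false (nat_lit 10) true (nat_lit 19) true (nat_lit 17) (.s false (nat_lit 2) (nat_lit 97) (nat_lit 0) (nat_lit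 2) (nat_lit 0) false (nat_lit 20) true (nat_lit 19) false (nat_lit 10) true (nat_lit 19) true (nat_lit 17) (.s false (nat_lit 3) (nat_lit 99) (nat_lit 1) (nat_lit 0) (nat_lit 1) false (nat_lit 21) true (nat_lit 18) false (nat_lit 11) true (nat_lit 18) true (nat_lit 19) (.s true (nat_lit 2) (nat_lit 101) (nat_lit 1) (nat_lit 0) (nat_lit 1) false (nat_lit 21) true (nat_lit 18) false (nat_lit 11) true (nat_lit 18) true (nat_lit 19) (.s true (nat_lit 3) (nat_lit 101) (nat_lit 1) (nat_lit 1) (nat_lit 0) true (nat_lit 16) true (nat_lit 19) false (nat_lit 11) true (nat_lit 18) true (nat_lit 18) (.s true (nat_lit 1) (nat_lit 103) (nat_lit 0) (nat_lit 0) (nat_lit 1) true (nat_lit 16) true (nat_lit 18) false (nat_lit 12) true (nat_lit 19) true (nat_lit 19) (.s true (nat_lit 3) (nat_lit 104) (nat_lit 0) (nat_lit 0) (nat_lit 1) true (nat_lit 16) true (nat_lit 18) false (nat_lit 12) true (nat_lit 19) true (nat_lit 19) (.s true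 (nat_lit 1) (nat_lit 102) (nat_lit 0) (nat_lit 1) (nat_lit 0) false (nat_lit 20) true (nat_lit 19) false (nat_lit 12) true (nat_lit 19) true (nat_lit 18) (.s false (nat_lit 3) (nat_lit 103) (nat_lit 0) (nat_lit 1) (nat_lit 0) false (nat_lit 20) true (nat_lit 19) false (nat_lit 12) true (nat_lit 19) true (nat_lit 18) (.s false (nat_lit 2) (nat_lit 105) (nat_lit 0) (nat_lit 1) (nat_lit 0) false (nat_lit 20) true (nat_lit 19) false (nat_lit 12) true (nat_lit 19) true (nat_lit 18) (.a true (nat_lit 2) (nat_lit 31) (nat_lit 31) (nat_lit 0) (nat_lit 0) (.a false (nat_lit 1) (nat_lit 32) (nat_lit 32) (nat_lit 0) (nat_lit 0) (.a false (nat_lit 1) (nat_lit 34) (nat_lit 34) (nat_lit 0) (nat_lit 0) (.a true (nat_lit 3) (nat_lit 34) (nat_lit 35) (nat_lit 0) (nat_lit 0) (.a false (nat_lit 3) (nat_lit 31) (nat_lit 32) (nat_lit 0) (nat_lit 0) dC1d_i295)))))))))))))))))))))))))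

noncomputable def dC1d_i297 : IL := (.s false (nat_lit 1) (nat_lit 76) (nat_lit 2) (nat_lit 0) (nat_lit 2) true (nat_lit 13) true (nat_lit 17) false (nat_lit 7) true (nat_lit 17) true (nat_lit 19) (.s true (nat_lit 1) (nat_lit 66) (nat_lit 2) (nat_lit 2) (nat_lit 0) true (nat_lit 15) true (nat_lit 19) false (nat_lit 7) true (nat_lit 17) true (nat_lit 17) (.s true (nat_lit 1) (nat_lit 68) (nat_lit 2) (nat_lit 2) (nat_lit 0) true (nat_lit 15) true (nat_lit 19) false (nat_lit 7) true (nat_lit 17) true (nat_lit 17) (.s false (nat_lit 1) (nat_lit 70) (nat_lit 2) (nat_lit 2) (nat_lit 0) true (nat_lit 15) true (nat_lit 19) false (nat_lit 7) true (nat_lit 17) true (nat_lit 17) (.s false (nat_lit 1) (nat_lit 72) (nat_lit 2) (nat_lit 2) (nat_lit 0) true (nat_lit 15) true (nat_lit 19) false (nat_lit 7) true (nat_lit 17) true (nat_lit 17) (.s true (nat_lit 3) (nat_lit 73) (nat_lit 2) (nat_lit 2) (nat_lit 0) true (nat_lit 15)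 true (nat_lit 19) false (nat_lit 7) true (nat_lit 17) true (nat_lit 17) (.s true (nat_lit 2) (nat_lit 75) (nat_lit 2) (nat_lit 2) (nat_lit 0) true (nat_lit 15) true (nat_lit 19) false (nat_lit 7) true (nat_lit 17) true (nat_lit 17) (.s false (nat_lit 3) (nat_lit 77) (nat_lit 1) (nat_lit 1) (nat_lit 2) true (nat_lit 14) true (nat_lit 17) false (nat_lit 8) true (nat_lit 18) true (nat_lit 18) (.s false (nat_lit 3) (nat_lit 79) (nat_lit 1) (nat_lit 1) (nat_lit 2) true (nat_lit 14) true (nat_lit 17) false (nat_lit 8) true (nat_lit 18) true (nat_lit 18) (.s true (nat_lit 1) (nat_lit 80) (nat_lit 1) (nat_lit 1) (nat_lit 2) true (nat_lit 14) true (nat_lit 17) false (nat_lit 8) true (nat_lit 18) true (nat_lit 18) (.s false (nat_lit 2) (nat_lit 79) (nat_lit 1) (nat_lit 2) (nat_lit 1) false (nat_lit 21) true (nat_lit 18) false (nat_lit 8) true (nat_lit 18) true (nat_lit 17) (.s false (nat_lit 2) (nat_lit 80) (nat_lit 2) (nat_lit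 1) (nat_lit 1) true (nat_lit 14) true (nat_lit 18) false (nat_lit 8) true (nat_lit 17) true (nat_lit 18) (.s false (nat_lit 1) (nat_lit 82) (nat_lit 0) (nat_lit 1) (nat_lit 2) true (nat_lit 15) true (nat_lit 17) false (nat_lit 9) true (nat_lit 19) true (nat_lit 18) (.s true (nat_lit 3) (nat_lit 83) (nat_lit 0) (nat_lit 1) (nat_lit 2) true (nat_lit 15) true (nat_lit 17) false (nat_lit 9) true (nat_lit 19) true (nat_lit 18) (.s false (nat_lit 2) (nat_lit 90) (nat_lit 0) (nat_lit 1) (nat_lit 2) true (nat_lit 15) true (nat_lit 17) false (nat_lit 9) true (nat_lit 19) true (nat_lit 18) (.s true (nat_lit 3) (nat_lit 82) (nat_lit 0) (nat_lit 2) (nat_lit 1) true (nat_lit 16) true (nat_lit 18) false (nat_lit 9) true (nat_lit 19) true (nat_lit 17) (.s false (nat_lit 1) (nat_lit 83) (nat_lit 0) (nat_lit 2) (nat_lit 1) true (nat_lit 16) true (nat_lit 18) false (nat_lit 9) true (nat_lit 19) true (nat_lit 17) (.s true (nat_lit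 2) (nat_lit 85) (nat_lit 0) (nat_lit 2) (nat_lit 1) true (nat_lit 16) true (nat_lit 18) false (nat_lit 9) true (nat_lit 19) true (nat_lit 17) (.s true (nat_lit 3) (nat_lit 86) (nat_lit 0) (nat_lit 2) (nat_lit 1) true (nat_lit 16) true (nat_lit 18) false (nat_lit 9) true (nat_lit 19) true (nat_lit 17) (.s true (nat_lit 2) (nat_lit 88) (nat_lit 0) (nat_lit 2) (nat_lit 1) true (nat_lit 16) true (nat_lit 18) false (nat_lit 9) true (nat_lit 19) true (nat_lit 17) (.s false (nat_lit 1) (nat_lit 91) (nat_lit 0) (nat_lit 2) (nat_lit 1) true (nat_lit 16) true (nat_lit 18) false (nat_lit 9) true (nat_lit 19) true (nat_lit 17) (.s true (nat_lit 3) (nat_lit 83) (nat_lit 1) (nat_lit 0) (nat_lit 2) true (nat_lit 14) true (nat_lit 17) false (nat_lit 9) true (nat_lit 18) true (nat_lit 19) (.s true (nat_lit 3) (nat_lit 82) (nat_lit 1) (nat_lit 2) (nat_lit 0) true (nat_lit 16) true (nat_lit 19) false (nat_lit 9) true (nat_lit 18)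 true (nat_lit 17) (.s false (nat_lit 2) (nat_lit 83) (nat_lit 1) (nat_lit 2) (nat_lit 0) true (nat_lit 16) true (nat_lit 19) false (nat_lit 9) true (nat_lit 18) true (nat_lit 17) (.s true (nat_lit 1) (nat_lit 84) (nat_lit 1) (nat_lit 2) (nat_lit 0) true (nat_lit 16) true (nat_lit 19) false (nat_lit 9) true (nat_lit 18) true (nat_lit 17) dC1d_i296)))))))))))))))))))))))))

noncomputable def dC1d_i298 : IL := (.s true (nat_lit 1) (nat_lit 55) (nat_lit 2) (nat_lit 1) (nat_lit 2) true (nat_lit 13) true (nat_lit 17) false (nat_lit 6) true (nat_lit 17) true (nat_lit 18) (.s true (nat_lit 3) (nat_lit 56) (nat_lit 2) (nat_lit 1) (nat_lit 2) true (nat_lit 13) true (nat_lit 17) false (nat_lit 6) true (nat_lit 17) true (nat_lit 18) (.s false (nat_lit 1) (nat_lit 57) (nat_lit 2) (nat_lit 1) (nat_lit 2) true (nat_lit 13) true (nat_lit 17) false (nat_lit 6) true (nat_lit 17) true (nat_lit 18) (.s true (nat_lit 3) (nat_lit 58)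 (nat_lit 2) (nat_lit 1) (nat_lit 2) true (nat_lit 13) true (nat_lit 17) false (nat_lit 6) true (nat_lit 17) true (nat_lit 18) (.s true (nat_lit 3) (nat_lit 59) (nat_lit 2) (nat_lit 1) (nat_lit 2) true (nat_lit 13) true (nat_lit 17) false (nat_lit 6) true (nat_lit 17) true (nat_lit 18) (.s true (nat_lit 1) (nat_lit 60) (nat_lit 2) (nat_lit 1) (nat_lit 2) true (nat_lit 13) true (nat_lit 17) false (nat_lit 6) true (nat_lit 17) true (nat_lit 18) (.s true (nat_lit 2) (nat_lit 61) (nat_lit 2) (nat_lit 1) (nat_lit 2) true (nat_lit 13) true (nat_lit 17) false (nat_lit 6) true (nat_lit 17) true (nat_lit 18) (.s false (nat_lit 2) (nat_lit 62) (nat_lit 2) (nat_lit 1) (nat_lit 2) true (nat_lit 13) true (nat_lit 17) false (nat_lit 6) true (nat_lit 17) true (nat_lit 18) (.s true (nat_lit 1) (nat_lit 64) (nat_lit 2) (nat_lit 1) (nat_lit 2) true (nat_lit 13) true (nat_lit 17) false (nat_lit 6) true (nat_lit 17) true (nat_lit 18)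 (.s true (nat_lit 1) (nat_lit 65) (nat_lit 2) (nat_lit 1) (nat_lit 2) true (nat_lit 13) true (nat_lit 17) false (nat_lit 6) true (nat_lit 17) true (nat_lit 18) (.s false (nat_lit 3) (nat_lit 57) (nat_lit 2) (nat_lit 2) (nat_lit 1) true (nat_lit 14) true (nat_lit 18) false (nat_lit 6) true (nat_lit 17) true (nat_lit 17) (.s false (nat_lit 2) (nat_lit 58) (nat_lit 2) (nat_lit 2) (nat_lit 1) true (nat_lit 14) true (nat_lit 18) false (nat_lit 6) true (nat_lit 17) true (nat_lit 17) (.s true (nat_lit 1) (nat_lit 61) (nat_lit 2) (nat_lit 2) (nat_lit 1) true (nat_lit 14) true (nat_lit 18) false (nat_lit 6) true (nat_lit 17) true (nat_lit 17) (.s true (nat_lit 1) (nat_lit 64) (nat_lit 2) (nat_lit 2) (nat_lit 1) true (nat_lit 14) true (nat_lit 18) false (nat_lit 6) true (nat_lit 17) true (nat_lit 17) (.s true (nat_lit 2) (nat_lit 65) (nat_lit 2) (nat_lit 2) (nat_lit 1) true (nat_lit 14) true (nat_lit 18) false (nat_lit 6)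 true (nat_lit 17) true (nat_lit 17) (.s false (nat_lit 3) (nat_lit 67) (nat_lit 0) (nat_lit 2) (nat_lit 2) true (nat_lit 15) true (nat_lit 17) false (nat_lit 7) true (nat_lit 19) true (nat_lit 17) (.s true (nat_lit 3) (nat_lit 68) (nat_lit 0) (nat_lit 2) (nat_lit 2) true (nat_lit 15) true (nat_lit 17) false (nat_lit 7) true (nat_lit 19) true (nat_lit 17) (.s false (nat_lit 2) (nat_lit 69) (nat_lit 0) (nat_lit 2) (nat_lit 2) true (nat_lit 15) true (nat_lit 17) false (nat_lit 7) true (nat_lit 19) true (nat_lit 17) (.s true (nat_lit 3) (nat_lit 70) (nat_lit 0) (nat_lit 2) (nat_lit 2) true (nat_lit 15) true (nat_lit 17) false (nat_lit 7) true (nat_lit 19) true (nat_lit 17) (.s true (nat_lit 2) (nat_lit 72) (nat_lit 0) (nat_lit 2) (nat_lit 2) true (nat_lit 15) true (nat_lit 17) false (nat_lit 7) true (nat_lit 19) true (nat_lit 17) (.s false (nat_lit 3) (nat_lit 74) (nat_lit 0) (nat_lit 2) (nat_lit 2) true (nat_lit 15)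 true (nat_lit 17) false (nat_lit 7) true (nat_lit 19) true (nat_lit 17) (.s false (nat_lit 3) (nat_lit 75) (nat_lit 0) (nat_lit 2) (nat_lit 2) true (nat_lit 15) true (nat_lit 17) false (nat_lit 7) true (nat_lit 19) true (nat_lit 17) (.s false (nat_lit 3) (nat_lit 76) (nat_lit 0) (nat_lit 2) (nat_lit 2) true (nat_lit 15) true (nat_lit 17) false (nat_lit 7) true (nat_lit 19) true (nat_lit 17) (.s true (nat_lit 1) (nat_lit 66) (nat_lit 2) (nat_lit 0) (nat_lit 2) true (nat_lit 13) true (nat_lit 17) false (nat_lit 7) true (nat_lit 17) true (nat_lit 19) (.s false (nat_lit 3) (nat_lit 75) (nat_lit 2) (nat_lit 0) (nat_lit 2) true (nat_lit 13) true (nat_lit 17) false (nat_lit 7) true (nat_lit 17) true (nat_lit 19) dC1d_i297)))))))))))))))))))))))))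

noncomputable def dC1d_i299 : IL := (.s true (nat_lit 3) (nat_lit 34) (nat_lit 1) (nat_lit 4) (nat_lit 2) true (nat_lit 14) true (nat_lit 17) true (nat_lit 0) true (nat_lit 18) true (nat_lit 15) (.s true (nat_lit 3) (nat_lit 32) (nat_lit 2) (nat_lit 0) (nat_lit 5) true (nat_lit 6) true (nat_lit 14) true (nat_lit 0) true (nat_lit 17) true (nat_lit 19) (.s true (nat_lit 3) (nat_lit 31) (nat_lit 2) (nat_lit 1) (nat_lit 4) true (nat_lit 7) true (nat_lit 15) true (nat_lit 0) true (nat_lit 17) true (nat_lit 18) (.s true (nat_lit 1) (nat_lit 31) (nat_lit 3) (nat_lit 2) (nat_lit 2) true (nat_lit 9) true (nat_lit 17) true (nat_lit 0) true (nat_lit 16) true (nat_lit 17) (.s false (nat_lit 1) (nat_lit 34) (nat_lit 6) (nat_lit 1) (nat_lit 0) true (nat_lit 7) true (nat_lit 19) true (nat_lit 0) true (nat_lit 13) true (nat_lit 18) (.s true (nat_lit 2) (nat_lit 38) (nat_lit 0) (nat_lit 2) (nat_lit 4) true (nat_lit 10) true (nat_lit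 15) false (nat_lit 1) true (nat_lit 19) true (nat_lit 17) (.s false (nat_lit 2) (nat_lit 37) (nat_lit 6) (nat_lit 0) (nat_lit 0) true (nat_lit 7) true (nat_lit 19) false (nat_lit 1) true (nat_lit 13) true (nat_lit 19) (.s true (nat_lit 2) (nat_lit 38) (nat_lit 6) (nat_lit 0) (nat_lit 0) true (nat_lit 7) true (nat_lit 19) false (nat_lit 1) true (nat_lit 13) true (nat_lit 19) (.s true (nat_lit 3) (nat_lit 40) (nat_lit 0) (nat_lit 1) (nat_lit 5) true (nat_lit 9) true (nat_lit 14) false (nat_lit 2) true (nat_lit 19) true (nat_lit 18) (.s true (nat_lit 3) (nat_lit 40) (nat_lit 1) (nat_lit 2) (nat_lit 3) true (nat_lit 11) true (nat_lit 16) false (nat_lit 2) true (nat_lit 18) true (nat_lit 17) (.s false (nat_lit 2) (nat_lit 43) (nat_lit 0) (nat_lit 2) (nat_lit 3) true (nat_lit 12) true (nat_lit 16) false (nat_lit 3) true (nat_lit 19) true (nat_lit 17) (.s false (nat_lit 3) (nat_lit 45) (nat_lit 0) (nat_lit 2) (nat_lit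 3) true (nat_lit 12) true (nat_lit 16) false (nat_lit 3) true (nat_lit 19) true (nat_lit 17) (.s false (nat_lit 2) (nat_lit 44) (nat_lit 0) (nat_lit 3) (nat_lit 2) true (nat_lit 15) true (nat_lit 17) false (nat_lit 3) true (nat_lit 19) true (nat_lit 16) (.s true (nat_lit 3) (nat_lit 44) (nat_lit 2) (nat_lit 3) (nat_lit 0) true (nat_lit 15) true (nat_lit 19) false (nat_lit 3) true (nat_lit 17) true (nat_lit 16) (.s false (nat_lit 2) (nat_lit 44) (nat_lit 4) (nat_lit 1) (nat_lit 0) true (nat_lit 10) true (nat_lit 19) false (nat_lit 3) true (nat_lit 15) true (nat_lit 18) (.s false (nat_lit 2) (nat_lit 43) (nat_lit 5) (nat_lit 0) (nat_lit 0) true (nat_lit 9) true (nat_lit 19) false (nat_lit 3) true (nat_lit 14) true (nat_lit 19) (.s false (nat_lit 3) (nat_lit 45) (nat_lit 5) (nat_lit 0) (nat_lit 0) true (nat_lit 9) true (nat_lit 19) false (nat_lit 3) true (nat_lit 14) true (nat_lit 19) (.s false (nat_lit 1) (nat_lit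 46) (nat_lit 3) (nat_lit 0) (nat_lit 1) true (nat_lit 11) true (nat_lit 18) false (nat_lit 4) true (nat_lit 16) true (nat_lit 19) (.s false (nat_lit 2) (nat_lit 46) (nat_lit 3) (nat_lit 1) (nat_lit 0) true (nat_lit 12) true (nat_lit 19) false (nat_lit 4) true (nat_lit 16) true (nat_lit 18) (.s false (nat_lit 2) (nat_lit 48) (nat_lit 2) (nat_lit 2) (nat_lit 2) true (nat_lit 13) true (nat_lit 17) false (nat_lit 5) true (nat_lit 17) true (nat_lit 17) (.s false (nat_lit 1) (nat_lit 49) (nat_lit 2) (nat_lit 2) (nat_lit 2) true (nat_lit 13) true (nat_lit 17) false (nat_lit 5) true (nat_lit 17) true (nat_lit 17) (.s false (nat_lit 3) (nat_lit 55) (nat_lit 1) (nat_lit 2) (nat_lit 2) true (nat_lit 14) true (nat_lit 17) false (nat_lit 6) true (nat_lit 18) true (nat_lit 17) (.s true (nat_lit 3) (nat_lit 58) (nat_lit 1) (nat_lit 2) (nat_lit 2) true (nat_lit 14) true (nat_lit 17) false (nat_lit 6) true (nat_lit 18) true (nat_lit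 17) (.s true (nat_lit 2) (nat_lit 62) (nat_lit 1) (nat_lit 2) (nat_lit 2) true (nat_lit 14) true (nat_lit 17) false (nat_lit 6) true (nat_lit 18) true (nat_lit 17) (.s false (nat_lit 2) (nat_lit 64) (nat_lit 1) (nat_lit 2) (nat_lit 2) true (nat_lit 14) true (nat_lit 17) false (nat_lit 6) true (nat_lit 18) true (nat_lit 17) dC1d_i298)))))))))))))))))))))))))

noncomputable def dC1d_i300 : IL := (.s false (nat_lit 2) (nat_lit 24) (nat_lit 0) (nat_lit 6) (nat_lit 2) true (nat_lit 15) true (nat_lit 17) true (nat_lit 2) true (nat_lit 19) true (nat_lit 13) (.s true (nat_lit 1) (nat_lit 25) (nat_lit 2) (nat_lit 2) (nat_lit 4) true (nat_lit 7) true (nat_lit 15) true (nat_lit 2) true (nat_lit 17) true (nat_lit 17) (.s true (nat_lit 1) (nat_lit 26) (nat_lit 2) (nat_lit 2) (nat_lit 4) true (nat_lit 7) true (nat_lit 15) true (nat_lit 2) true (nat_lit 17) true (nat_lit 17) (.s false (nat_lit 3) (nat_lit 27) (nat_lit 2) (nat_lit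 2) (nat_lit 4) true (nat_lit 7) true (nat_lit 15) true (nat_lit 2) true (nat_lit 17) true (nat_lit 17) (.s false (nat_lit 2) (nat_lit 24) (nat_lit 2) (nat_lit 6) (nat_lit 0) true (nat_lit 15) true (nat_lit 19) true (nat_lit 2) true (nat_lit 17) true (nat_lit 13) (.s false (nat_lit 3) (nat_lit 25) (nat_lit 2) (nat_lit 6) (nat_lit 0) true (nat_lit 15) true (nat_lit 19) true (nat_lit 2) true (nat_lit 17) true (nat_lit 13) (.s true (nat_lit 3) (nat_lit 26) (nat_lit 4) (nat_lit 2) (nat_lit 2) true (nat_lit 7) true (nat_lit 17) true (nat_lit 2) true (nat_lit 15) true (nat_lit 17) (.s true (nat_lit 3) (nat_lit 24) (nat_lit 6) (nat_lit 0) (nat_lit 2) true (nat_lit 5) true (nat_lit 17) true (nat_lit 2) true (nat_lit 13) true (nat_lit 19) (.s true (nat_lit 3) (nat_lit 24) (nat_lit 6) (nat_lit 2) (nat_lit 0) true (nat_lit 7) true (nat_lit 19) true (nat_lit 2) true (nat_lit 13) true (nat_lit 17) (.s true (nat_lit 3) (nat_lit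 26) (nat_lit 6) (nat_lit 2) (nat_lit 0) true (nat_lit 7) true (nat_lit 19) true (nat_lit 2) true (nat_lit 13) true (nat_lit 17) (.s true (nat_lit 2) (nat_lit 29) (nat_lit 1) (nat_lit 1) (nat_lit 6) true (nat_lit 6) true (nat_lit 13) true (nat_lit 1) true (nat_lit 18) true (nat_lit 18) (.s false (nat_lit 2) (nat_lit 29) (nat_lit 1) (nat_lit 2) (nat_lit 5) true (nat_lit 8) true (nat_lit 14) true (nat_lit 1) true (nat_lit 18) true (nat_lit 17) (.s true (nat_lit 2) (nat_lit 28) (nat_lit 1) (nat_lit 5) (nat_lit 2) true (nat_lit 14) true (nat_lit 17) true (nat_lit 1) true (nat_lit 18) true (nat_lit 14) (.s true (nat_lit 3) (nat_lit 29) (nat_lit 2) (nat_lit 1) (nat_lit 5) true (nat_lit 6) true (nat_lit 14) true (nat_lit 1) true (nat_lit 17) true (nat_lit 18) (.s false (nat_lit 3) (nat_lit 28) (nat_lit 2) (nat_lit 5) (nat_lit 1) true (nat_lit 14) true (nat_lit 18) true (nat_lit 1) true (nat_lit 17) true (nat_lit 14) (.s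 false (nat_lit 3) (nat_lit 28) (nat_lit 5) (nat_lit 1) (nat_lit 2) true (nat_lit 6) true (nat_lit 17) true (nat_lit 1) true (nat_lit 14) true (nat_lit 18) (.s true (nat_lit 3) (nat_lit 28) (nat_lit 5) (nat_lit 2) (nat_lit 1) true (nat_lit 8) true (nat_lit 18) true (nat_lit 1) true (nat_lit 14) true (nat_lit 17) (.s true (nat_lit 2) (nat_lit 29) (nat_lit 6) (nat_lit 1) (nat_lit 1) true (nat_lit 6) true (nat_lit 18) true (nat_lit 1) true (nat_lit 13) true (nat_lit 18) (.s true (nat_lit 1) (nat_lit 34) (nat_lit 0) (nat_lit 1) (nat_lit 6) true (nat_lit 7) true (nat_lit 13) true (nat_lit 0) true (nat_lit 19) true (nat_lit 18) (.s false (nat_lit 1) (nat_lit 31) (nat_lit 0) (nat_lit 2) (nat_lit 5) true (nat_lit 9) true (nat_lit 14) true (nat_lit 0) true (nat_lit 19) true (nat_lit 17) (.s true (nat_lit 3) (nat_lit 32) (nat_lit 0) (nat_lit 2) (nat_lit 5) true (nat_lit 9) true (nat_lit 14) true (nat_lit 0) true (nat_lit 19)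 true (nat_lit 17) (.s true (nat_lit 3) (nat_lit 34) (nat_lit 0) (nat_lit 2) (nat_lit 5) true (nat_lit 9) true (nat_lit 14) true (nat_lit 0) true (nat_lit 19) true (nat_lit 17) (.s false (nat_lit 3) (nat_lit 31) (nat_lit 1) (nat_lit 2) (nat_lit 4) true (nat_lit 9) true (nat_lit 15) true (nat_lit 0) true (nat_lit 18) true (nat_lit 17) (.s true (nat_lit 2) (nat_lit 34) (nat_lit 1) (nat_lit 2) (nat_lit 4) true (nat_lit 9) true (nat_lit 15) true (nat_lit 0) true (nat_lit 18) true (nat_lit 17) (.s false (nat_lit 2) (nat_lit 32) (nat_lit 1) (nat_lit 4) (nat_lit 2) true (nat_lit 14) true (nat_lit 17) true (nat_lit 0) true (nat_lit 18) true (nat_lit 15) dC1d_i299)))))))))))))))))))))))))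

noncomputable def dC1d_i301 : IL := (.s true (nat_lit 1) (nat_lit 16) (nat_lit 2) (nat_lit 7) (nat_lit 2) true (nat_lit 13) true (nat_lit 17) true (nat_lit 6) true (nat_lit 17) true (nat_lit 12) (.s false (nat_lit 2) (nat_lit 17) (nat_lit 2) (nat_lit 7) (nat_lit 2) true (nat_lit 13) true (nat_lit 17) true (nat_lit 6) true (nat_lit 17) true (nat_lit 12) (.s false (nat_lit 3) (nat_lit 16) (nat_lit 7) (nat_lit 2) (nat_lit 2) true (nat_lit 3) true (nat_lit 17) true (nat_lit 6) true (nat_lit 12) true (nat_lit 17) (.s true (nat_lit 1) (nat_lit 17) (nat_lit 9) (nat_lit 1) (nat_lit 2) true (nat_lit 1) true (nat_lit 17) true (nat_lit 6) true (nat_lit 10) true (nat_lit 18) (.s true (nat_lit 3) (nat_lit 16) (nat_lit 9) (nat_lit 2) (nat_lit 1) true (nat_lit 3) true (nat_lit 18) true (nat_lit 6) true (nat_lit 10) true (nat_lit 17) (.s false (nat_lit 1) (nat_lit 18) (nat_lit 0) (nat_lit 0) (nat_lit 13) true (nat_lit 2) true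 (nat_lit 8) true (nat_lit 5) true (nat_lit 19) true (nat_lit 19) (.s true (nat_lit 3) (nat_lit 18) (nat_lit 0) (nat_lit 2) (nat_lit 8) true (nat_lit 4) true (nat_lit 11) true (nat_lit 5) true (nat_lit 19) true (nat_lit 17) (.s false (nat_lit 3) (nat_lit 18) (nat_lit 1) (nat_lit 1) (nat_lit 9) true (nat_lit 3) true (nat_lit 10) true (nat_lit 5) true (nat_lit 18) true (nat_lit 18) (.s false (nat_lit 1) (nat_lit 18) (nat_lit 2) (nat_lit 8) (nat_lit 0) true (nat_lit 15) true (nat_lit 19) true (nat_lit 5) true (nat_lit 17) true (nat_lit 11) (.s false (nat_lit 2) (nat_lit 18) (nat_lit 7) (nat_lit 2) (nat_lit 1) true (nat_lit 4) true (nat_lit 18) true (nat_lit 5) true (nat_lit 12) true (nat_lit 17) (.s true (nat_lit 1) (nat_lit 19) (nat_lit 2) (nat_lit 2) (nat_lit 6) true (nat_lit 5) true (nat_lit 13) true (nat_lit 4) true (nat_lit 17) true (nat_lit 17) (.s false (nat_lit 1) (nat_lit 19) (nat_lit 6) (nat_lit 2) (nat_lit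 2) true (nat_lit 5) true (nat_lit 17) true (nat_lit 4) true (nat_lit 13) true (nat_lit 17) (.s false (nat_lit 3) (nat_lit 21) (nat_lit 1) (nat_lit 2) (nat_lit 6) true (nat_lit 6) true (nat_lit 13) true (nat_lit 3) true (nat_lit 18) true (nat_lit 17) (.s true (nat_lit 1) (nat_lit 22) (nat_lit 1) (nat_lit 2) (nat_lit 6) true (nat_lit 6) true (nat_lit 13) true (nat_lit 3) true (nat_lit 18) true (nat_lit 17) (.s false (nat_lit 1) (nat_lit 21) (nat_lit 2) (nat_lit 1) (nat_lit 6) true (nat_lit 5) true (nat_lit 13) true (nat_lit 3) true (nat_lit 17) true (nat_lit 18) (.s false (nat_lit 2) (nat_lit 22) (nat_lit 2) (nat_lit 2) (nat_lit 5) true (nat_lit 6) true (nat_lit 14) true (nat_lit 3) true (nat_lit 17) true (nat_lit 17) (.s true (nat_lit 3) (nat_lit 20) (nat_lit 2) (nat_lit 5) (nat_lit 2) true (nat_lit 13) true (nat_lit 17) true (nat_lit 3) true (nat_lit 17) true (nat_lit 14) (.s true (nat_lit 2) (nat_lit 21) (nat_lit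 2) (nat_lit 6) (nat_lit 1) true (nat_lit 14) true (nat_lit 18) true (nat_lit 3) true (nat_lit 17) true (nat_lit 13) (.s false (nat_lit 3) (nat_lit 22) (nat_lit 2) (nat_lit 6) (nat_lit 1) true (nat_lit 14) true (nat_lit 18) true (nat_lit 3) true (nat_lit 17) true (nat_lit 13) (.s false (nat_lit 2) (nat_lit 21) (nat_lit 5) (nat_lit 2) (nat_lit 2) true (nat_lit 6) true (nat_lit 17) true (nat_lit 3) true (nat_lit 14) true (nat_lit 17) (.s false (nat_lit 2) (nat_lit 22) (nat_lit 5) (nat_lit 2) (nat_lit 2) true (nat_lit 6) true (nat_lit 17) true (nat_lit 3) true (nat_lit 14) true (nat_lit 17) (.s false (nat_lit 1) (nat_lit 24) (nat_lit 0) (nat_lit 2) (nat_lit 6) true (nat_lit 7) true (nat_lit 13) true (nat_lit 2) true (nat_lit 19) true (nat_lit 17) (.s true (nat_lit 1) (nat_lit 25) (nat_lit 0) (nat_lit 2) (nat_lit 6) true (nat_lit 7) true (nat_lit 13) true (nat_lit 2) true (nat_lit 19) true (nat_lit 17) (.s true (nat_lit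 2) (nat_lit 26) (nat_lit 0) (nat_lit 2) (nat_lit 6) true (nat_lit 7) true (nat_lit 13) true (nat_lit 2) true (nat_lit 19) true (nat_lit 17) (.s false (nat_lit 3) (nat_lit 27) (nat_lit 0) (nat_lit 2) (nat_lit 6) true (nat_lit 7) true (nat_lit 13) true (nat_lit 2) true (nat_lit 19) true (nat_lit 17) dC1d_i300)))))))))))))))))))))))))

noncomputable def dC1d_i302 : IL := (.s false (nat_lit 2) (nat_lit 8) (nat_lit 6) (nat_lit 6) (nat_lit 0) true (nat_lit 7) true (nat_lit 19) true (nat_lit 11) true (nat_lit 13) true (nat_lit 13) (.s false (nat_lit 1) (nat_lit 9) (nat_lit 5) (nat_lit 2) (nat_lit 5) false (nat_lit 1) true (nat_lit 14) true (nat_lit 10) true (nat_lit 14) true (nat_lit 17) (.s true (nat_lit 2) (nat_lit 9) (nat_lit 5) (nat_lit 5) (nat_lit 2) true (nat_lit 6) true (nat_lit 17) true (nat_lit 10) true (nat_lit 14) true (nat_lit 14) (.s true (nat_lit 1) (nat_lit 9) (nat_lit 5) (nat_lit 6) (nat_lit 1) true (nat_lit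 8) true (nat_lit 18) true (nat_lit 10) true (nat_lit 14) true (nat_lit 13) (.s true (nat_lit 3) (nat_lit 10) (nat_lit 0) (nat_lit 6) (nat_lit 5) true (nat_lit 9) true (nat_lit 14) true (nat_lit 9) true (nat_lit 19) true (nat_lit 13) (.s true (nat_lit 2) (nat_lit 10) (nat_lit 2) (nat_lit 2) (nat_lit 10) true (nat_lit 0) true (nat_lit 9) true (nat_lit 9) true (nat_lit 17) true (nat_lit 17) (.s true (nat_lit 1) (nat_lit 11) (nat_lit 2) (nat_lit 2) (nat_lit 11) true (nat_lit 0) true (nat_lit 9) true (nat_lit 9) true (nat_lit 17) true (nat_lit 17) (.s true (nat_lit 3) (nat_lit 13) (nat_lit 0) (nat_lit 6) (nat_lit 4) true (nat_lit 10) true (nat_lit 15) true (nat_lit 8) true (nat_lit 19) true (nat_lit 13) (.s true (nat_lit 2) (nat_lit 13) (nat_lit 2) (nat_lit 2) (nat_lit 9) true (nat_lit 1) true (nat_lit 10) true (nat_lit 8) true (nat_lit 17) true (nat_lit 17) (.s true (nat_lit 3) (nat_lit 13) (nat_lit 2) (nat_lit 9) (nat_lit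 2) true (nat_lit 13) true (nat_lit 17) true (nat_lit 8) true (nat_lit 17) true (nat_lit 10) (.s false (nat_lit 3) (nat_lit 13) (nat_lit 9) (nat_lit 2) (nat_lit 2) true (nat_lit 1) true (nat_lit 17) true (nat_lit 8) true (nat_lit 10) true (nat_lit 17) (.s false (nat_lit 2) (nat_lit 14) (nat_lit 1) (nat_lit 1) (nat_lit 14) true (nat_lit 0) true (nat_lit 7) true (nat_lit 7) true (nat_lit 18) true (nat_lit 18) (.s true (nat_lit 1) (nat_lit 14) (nat_lit 1) (nat_lit 1) (nat_lit 15) true (nat_lit 0) true (nat_lit 7) true (nat_lit 7) true (nat_lit 18) true (nat_lit 18) (.s true (nat_lit 3) (nat_lit 14) (nat_lit 1) (nat_lit 2) (nat_lit 11) true (nat_lit 2) true (nat_lit 9) true (nat_lit 7) true (nat_lit 18) true (nat_lit 17) (.s false (nat_lit 3) (nat_lit 15) (nat_lit 1) (nat_lit 2) (nat_lit 11) true (nat_lit 2) true (nat_lit 9) true (nat_lit 7) true (nat_lit 18) true (nat_lit 17) (.s false (nat_lit 3) (nat_lit 15) (nat_lit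 1) (nat_lit 3) (nat_lit 6) true (nat_lit 6) true (nat_lit 13) true (nat_lit 7) true (nat_lit 18) true (nat_lit 16) (.s false (nat_lit 2) (nat_lit 14) (nat_lit 2) (nat_lit 1) (nat_lit 11) true (nat_lit 0) true (nat_lit 9) true (nat_lit 7) true (nat_lit 17) true (nat_lit 18) (.s false (nat_lit 3) (nat_lit 14) (nat_lit 2) (nat_lit 8) (nat_lit 2) true (nat_lit 13) true (nat_lit 17) true (nat_lit 7) true (nat_lit 17) true (nat_lit 11) (.s false (nat_lit 3) (nat_lit 15) (nat_lit 10) (nat_lit 2) (nat_lit 1) true (nat_lit 2) true (nat_lit 18) true (nat_lit 7) true (nat_lit 9) true (nat_lit 17) (.s false (nat_lit 2) (nat_lit 14) (nat_lit 13) (nat_lit 0) (nat_lit 2) false (nat_lit 1) true (nat_lit 17) true (nat_lit 7) true (nat_lit 8) true (nat_lit 19) (.s false (nat_lit 2) (nat_lit 15) (nat_lit 13) (nat_lit 0) (nat_lit 2) false (nat_lit 1) true (nat_lit 17) true (nat_lit 7) true (nat_lit 8) true (nat_lit 19) (.s false (nat_lit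 1) (nat_lit 15) (nat_lit 13) (nat_lit 2) (nat_lit 0) true (nat_lit 2) true (nat_lit 19) true (nat_lit 7) true (nat_lit 8) true (nat_lit 17) (.s false (nat_lit 2) (nat_lit 16) (nat_lit 0) (nat_lit 0) (nat_lit 16) true (nat_lit 0) true (nat_lit 6) true (nat_lit 6) true (nat_lit 19) true (nat_lit 19) (.s true (nat_lit 2) (nat_lit 17) (nat_lit 0) (nat_lit 0) (nat_lit 17) true (nat_lit 0) true (nat_lit 6) true (nat_lit 6) true (nat_lit 19) true (nat_lit 19) (.s false (nat_lit 3) (nat_lit 16) (nat_lit 2) (nat_lit 1) (nat_lit 9) true (nat_lit 1) true (nat_lit 10) true (nat_lit 6) true (nat_lit 17) true (nat_lit 18) dC1d_i301)))))))))))))))))))))))))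

noncomputable def dC1d_i303 : IL := (.e false (nat_lit 3) (nat_lit 270) (nat_lit 2) (nat_lit 13) (.e false (nat_lit 2) (nat_lit 264) (nat_lit 2) (nat_lit 13) (.e false (nat_lit 1) (nat_lit 328) (nat_lit 0) (nat_lit 15) (.e true (nat_lit 3) (nat_lit 329) (nat_lit 0) (nat_lit 15) (.e false (nat_lit 2) (nat_lit 330) (nat_lit 0) (nat_lit 15) (.e true (nat_lit 2) (nat_lit 331) (nat_lit 0) (nat_lit 15) (.e false (nat_lit 1) (nat_lit 332) (nat_lit 0) (nat_lit 15) (.e true (nat_lit 2) (nat_lit 333) (nat_lit 0) (nat_lit 15) (.e false (nat_lit 2) (nat_lit 334) (nat_lit 0) (nat_lit 15) (.e false (nat_lit 2) (nat_lit 335) (nat_lit 0) (nat_lit 15) (.e true (nat_lit 3) (nat_lit 336) (nat_lit 0) (nat_lit 15) (.e false (nat_lit 1) (nat_lit 338) (nat_lit 0) (nat_lit 15) (.e true (nat_lit 1) (nat_lit 341) (nat_lit 0) (nat_lit 15) (.e false (nat_lit 3) (nat_lit 189) (nat_lit 4) (nat_lit 11) (.e false (nat_lit 1) (nat_lit 345) (nat_lit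 0) (nat_lit 15) (.e true (nat_lit 3) (nat_lit 321) (nat_lit 1) (nat_lit 14) (.e false (nat_lit 1) (nat_lit 322) (nat_lit 1) (nat_lit 14) (.e false (nat_lit 2) (nat_lit 323) (nat_lit 1) (nat_lit 14) (.e false (nat_lit 2) (nat_lit 324) (nat_lit 1) (nat_lit 14) (.e true (nat_lit 1) (nat_lit 325) (nat_lit 1) (nat_lit 14) (.e false (nat_lit 1) (nat_lit 326) (nat_lit 1) (nat_lit 14) (.e true (nat_lit 3) (nat_lit 320) (nat_lit 1) (nat_lit 14) (.e true (nat_lit 1) (nat_lit 340) (nat_lit 0) (nat_lit 15) (.u (nat_lit 2) (.p (nat_lit 0) (nat_lit 3) (.p (nat_lit 2) (nat_lit 1) (.n (nat_lit 3) (nat_lit 2) (.p (nat_lit 4) (nat_lit 4) (.n (nat_lit 6) (nat_lit 1) (.n (nat_lit 7) (nat_lit 1) (.n (nat_lit 8) (nat_lit 2) (.n (nat_lit 9) (nat_lit 2) (.n (nat_lit 10) (nat_lit 1) (.p (nat_lit 12) (nat_lit 2) (.n (nat_lit 13) (nat_lit 1) (.p (nat_lit 15) (nat_lit 4) (.n (nat_lit 16) (nat_lit 1) (.n (nat_lit 17) (nat_lit 1) (.p (nat_lit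 18) (nat_lit 3) (.p (nat_lit 19) (nat_lit 2) (.p (nat_lit 21) (nat_lit 2) (.n (nat_lit 22) (nat_lit 1) (.n (nat_lit 23) (nat_lit 1) (.p (nat_lit 24) (nat_lit 1) (.n (nat_lit 32) (nat_lit 1) (.p (nat_lit 33) (nat_lit 2) (.p (nat_lit 38) (nat_lit 1) (.p (nat_lit 53) (nat_lit 1) (.p (nat_lit 73) (nat_lit 1) (.n (nat_lit 76) (nat_lit 1) (.p (nat_lit 81) (nat_lit 1) (.n (nat_lit 121) (nat_lit 1) (.n (nat_lit 122) (nat_lit 1) (.n (nat_lit 133) (nat_lit 1) (.p (nat_lit 141) (nat_lit 1) (.p (nat_lit 147) (nat_lit 2) (.n (nat_lit 148) (nat_lit 2) (.p (nat_lit 149) (nat_lit 2) (.p (nat_lit 150) (nat_lit 1) (.n (nat_lit 151) (nat_lit 2) (.n (nat_lit 161) (nat_lit 1) (.p (nat_lit 173) (nat_lit 4) (.p (nat_lit 175) (nat_lit 3) (.n (nat_lit 176) (nat_lit 5) (.p (nat_lit 177) (nat_lit 9) (.n (nat_lit 178) (nat_lit 8) (.n (nat_lit 179) (nat_lit 15) (.p (nat_lit 182) (nat_lit 13) (.n (nat_lit 183) (nat_lit 16) (.n (nat_lit 184)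 (nat_lit 8) (.p (nat_lit 185) (nat_lit 7) (.p (nat_lit 186) (nat_lit 11) (.n (nat_lit 187) (nat_lit 7) (.p (nat_lit 190) (nat_lit 23) (.p (nat_lit 191) (nat_lit 8) (.n (nat_lit 192) (nat_lit 11) (.p (nat_lit 193) (nat_lit 9) (.p (nat_lit 194) (nat_lit 4) (.n (nat_lit 195) (nat_lit 9) (.n (nat_lit 196) (nat_lit 3) (.n (nat_lit 197) (nat_lit 5) (.p (nat_lit 198) (nat_lit 3) (.p (nat_lit 199) (nat_lit 1) (.n (nat_lit 200) (nat_lit 3) .z)))))))))))))))))))))))))))))))))))))))))))))))))))))))))))) (.u (nat_lit 2) (.n (nat_lit 201) (nat_lit 7) (.p (nat_lit 202) (nat_lit 6) (.p (nat_lit 204) (nat_lit 3) (.n (nat_lit 205) (nat_lit 5) (.p (nat_lit 206) (nat_lit 3) (.p (nat_lit 207) (nat_lit 1) (.n (nat_lit 208) (nat_lit 1) (.p (nat_lit 209) (nat_lit 1) (.p (nat_lit 211) (nat_lit 5) (.p (nat_lit 212) (nat_lit 4) (.p (nat_lit 213) (nat_lit 5) (.n (nat_lit 214) (nat_lit 3) (.p (nat_lit 216) (nat_lit 2) (.n (nat_lit 217) (nat_lit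 4) (.n (nat_lit 218) (nat_lit 4) (.p (nat_lit 219) (nat_lit 1) (.n (nat_lit 220) (nat_lit 5) (.n (nat_lit 221) (nat_lit 3) (.p (nat_lit 224) (nat_lit 1) (.p (nat_lit 228) (nat_lit 1) .z)))))))))))))))))))) .nil)))))))))))))))))))))))))

noncomputable def dC1d_i304 : IL := (.s true (nat_lit 3) (nat_lit 104) (nat_lit 0) (nat_lit 2) (nat_lit 0) false (nat_lit 16) true (nat_lit 15) false (nat_lit 7) true (nat_lit 15) true (nat_lit 13) (.s false (nat_lit 3) (nat_lit 105) (nat_lit 0) (nat_lit 2) (nat_lit 0) false (nat_lit 16) true (nat_lit 15) false (nat_lit 7) true (nat_lit 15) true (nat_lit 13) (.e false (nat_lit 1) (nat_lit 55) (nat_lit 18) (nat_lit 3) (.e false (nat_lit 2) (nat_lit 65) (nat_lit 18) (nat_lit 3) (.e true (nat_lit 1) (nat_lit 261) (nat_lit 2) (nat_lit 13) (.e false (nat_lit 2) (nat_lit 262) (nat_lit 2) (nat_lit 13) (.e true (nat_lit 3) (nat_lit 266) (nat_lit 2) (nat_lit 13) (.e true (nat_lit 2) (nat_lit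 268) (nat_lit 2) (nat_lit 13) (.e false (nat_lit 3) (nat_lit 271) (nat_lit 2) (nat_lit 13) (.e false (nat_lit 1) (nat_lit 272) (nat_lit 2) (nat_lit 13) (.e false (nat_lit 1) (nat_lit 273) (nat_lit 2) (nat_lit 13) (.e false (nat_lit 1) (nat_lit 274) (nat_lit 2) (nat_lit 13) (.e true (nat_lit 3) (nat_lit 277) (nat_lit 2) (nat_lit 13) (.e false (nat_lit 2) (nat_lit 278) (nat_lit 2) (nat_lit 13) (.e true (nat_lit 1) (nat_lit 284) (nat_lit 2) (nat_lit 13) (.e false (nat_lit 2) (nat_lit 286) (nat_lit 2) (nat_lit 13) (.e false (nat_lit 2) (nat_lit 287) (nat_lit 2) (nat_lit 13) (.e true (nat_lit 1) (nat_lit 288) (nat_lit 2) (nat_lit 13) (.e true (nat_lit 1) (nat_lit 132) (nat_lit 6) (nat_lit 9) (.e false (nat_lit 2) (nat_lit 137) (nat_lit 6) (nat_lit 9) (.e false (nat_lit 3) (nat_lit 140) (nat_lit 6) (nat_lit 9) (.e true (nat_lit 2) (nat_lit 142) (nat_lit 6) (nat_lit 9) (.e true (nat_lit 1) (nat_lit 149) (nat_lit 6) (nat_lit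 9) (.e true (nat_lit 1) (nat_lit 150) (nat_lit 6) (nat_lit 9) (.e false (nat_lit 1) (nat_lit 151) (nat_lit 6) (nat_lit 9) dC1d_i303)))))))))))))))))))))))))

noncomputable def dC1d_i305 : IL := (.s true (nat_lit 3) (nat_lit 42) (nat_lit 5) (nat_lit 2) (nat_lit 0) true (nat_lit 6) true (nat_lit 15) false (nat_lit 0) true (nat_lit 10) true (nat_lit 13) (.s true (nat_lit 1) (nat_lit 60) (nat_lit 2) (nat_lit 2) (nat_lit 2) true (nat_lit 9) true (nat_lit 13) false (nat_lit 3) true (nat_lit 13) true (nat_lit 13) (.s false (nat_lit 3) (nat_lit 61) (nat_lit 2) (nat_lit 2) (nat_lit 2) true (nat_lit 9) true (nat_lit 13) false (nat_lit 3) true (nat_lit 13) true (nat_lit 13) (.s false (nat_lit 1) (nat_lit 62) (nat_lit 2) (nat_lit 2) (nat_lit 2) true (nat_lit 9) true (nat_lit 13) false (nat_lit 3) true (nat_lit 13) true (nat_lit 13) (.s true (nat_lit 3) (nat_lit 63) (nat_lit 2) (nat_lit 2) (nat_lit 2) true (nat_lit 9) true (nat_lit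 13) false (nat_lit 3) true (nat_lit 13) true (nat_lit 13) (.s true (nat_lit 3) (nat_lit 64) (nat_lit 2) (nat_lit 2) (nat_lit 2) true (nat_lit 9) true (nat_lit 13) false (nat_lit 3) true (nat_lit 13) true (nat_lit 13) (.s true (nat_lit 2) (nat_lit 77) (nat_lit 1) (nat_lit 2) (nat_lit 2) true (nat_lit 10) true (nat_lit 13) false (nat_lit 4) true (nat_lit 14) true (nat_lit 13) (.s false (nat_lit 3) (nat_lit 78) (nat_lit 1) (nat_lit 2) (nat_lit 2) true (nat_lit 10) true (nat_lit 13) false (nat_lit 4) true (nat_lit 14) true (nat_lit 13) (.s false (nat_lit 2) (nat_lit 80) (nat_lit 1) (nat_lit 2) (nat_lit 2) true (nat_lit 10) true (nat_lit 13) false (nat_lit 4) true (nat_lit 14) true (nat_lit 13) (.s true (nat_lit 3) (nat_lit 81) (nat_lit 1) (nat_lit 2) (nat_lit 2) true (nat_lit 10) true (nat_lit 13) false (nat_lit 4) true (nat_lit 14) true (nat_lit 13) (.s false (nat_lit 2) (nat_lit 77) (nat_lit 2) (nat_lit 1) (nat_lit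 2) true (nat_lit 9) true (nat_lit 13) false (nat_lit 4) true (nat_lit 13) true (nat_lit 14) (.s false (nat_lit 2) (nat_lit 78) (nat_lit 2) (nat_lit 1) (nat_lit 2) true (nat_lit 9) true (nat_lit 13) false (nat_lit 4) true (nat_lit 13) true (nat_lit 14) (.s true (nat_lit 2) (nat_lit 77) (nat_lit 2) (nat_lit 2) (nat_lit 1) true (nat_lit 10) true (nat_lit 14) false (nat_lit 4) true (nat_lit 13) true (nat_lit 13) (.s true (nat_lit 3) (nat_lit 83) (nat_lit 0) (nat_lit 2) (nat_lit 2) true (nat_lit 11) true (nat_lit 13) false (nat_lit 5) true (nat_lit 15) true (nat_lit 13) (.s true (nat_lit 1) (nat_lit 88) (nat_lit 0) (nat_lit 2) (nat_lit 2) true (nat_lit 11) true (nat_lit 13) false (nat_lit 5) true (nat_lit 15) true (nat_lit 13) (.s false (nat_lit 1) (nat_lit 91) (nat_lit 0) (nat_lit 2) (nat_lit 2) true (nat_lit 11) true (nat_lit 13) false (nat_lit 5) true (nat_lit 15) true (nat_lit 13) (.s true (nat_lit 2) (nat_lit 83)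 (nat_lit 2) (nat_lit 0) (nat_lit 2) true (nat_lit 9) true (nat_lit 13) false (nat_lit 5) true (nat_lit 13) true (nat_lit 15) (.s true (nat_lit 2) (nat_lit 91) (nat_lit 2) (nat_lit 2) (nat_lit 0) true (nat_lit 11) true (nat_lit 15) false (nat_lit 5) true (nat_lit 13) true (nat_lit 13) (.s false (nat_lit 3) (nat_lit 100) (nat_lit 0) (nat_lit 2) (nat_lit 1) true (nat_lit 12) true (nat_lit 14) false (nat_lit 6) true (nat_lit 15) true (nat_lit 13) (.s false (nat_lit 3) (nat_lit 100) (nat_lit 1) (nat_lit 2) (nat_lit 0) true (nat_lit 12) true (nat_lit 15) false (nat_lit 6) true (nat_lit 14) true (nat_lit 13) (.s false (nat_lit 2) (nat_lit 98) (nat_lit 2) (nat_lit 0) (nat_lit 1) true (nat_lit 10) true (nat_lit 14) false (nat_lit 6) true (nat_lit 13) true (nat_lit 15) (.s true (nat_lit 1) (nat_lit 99) (nat_lit 2) (nat_lit 0) (nat_lit 1) true (nat_lit 10) true (nat_lit 14) false (nat_lit 6) true (nat_lit 13) true (nat_lit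 15) (.s true (nat_lit 3) (nat_lit 100) (nat_lit 2) (nat_lit 0) (nat_lit 1) true (nat_lit 10) true (nat_lit 14) false (nat_lit 6) true (nat_lit 13) true (nat_lit 15) (.s false (nat_lit 1) (nat_lit 101) (nat_lit 2) (nat_lit 0) (nat_lit 1) true (nat_lit 10) true (nat_lit 14) false (nat_lit 6) true (nat_lit 13) true (nat_lit 15) (.s true (nat_lit 3) (nat_lit 103) (nat_lit 0) (nat_lit 2) (nat_lit 0) false (nat_lit 16) true (nat_lit 15) false (nat_lit 7) true (nat_lit 15) true (nat_lit 13) dC1d_i304)))))))))))))))))))))))))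

noncomputable def dC1d_i306 : IL := (.s false (nat_lit 2) (nat_lit 15) (nat_lit 11) (nat_lit 2) (nat_lit 2) true (nat_lit 0) true (nat_lit 13) true (nat_lit 5) true (nat_lit 6) true (nat_lit 13) (.s false (nat_lit 3) (nat_lit 16) (nat_lit 9) (nat_lit 2) (nat_lit 2) true (nat_lit 1) true (nat_lit 13) true (nat_lit 4) true (nat_lit 7) true (nat_lit 13) (.s false (nat_lit 2) (nat_lit 17) (nat_lit 9) (nat_lit 2) (nat_lit 2) true (nat_lit 1) true (nat_lit 13) true (nat_lit 4) true (nat_lit 7) true (nat_lit 13) (.s true (nat_lit 3) (nat_lit 18) (nat_lit 0) (nat_lit 0) (nat_lit 16) true (nat_lit 0) true (nat_lit 4) true (nat_lit 3) true (nat_lit 15) true (nat_lit 15) (.s false (nat_lit 3) (nat_lit 18) (nat_lit 2) (nat_lit 11) (nat_lit 0) true (nat_lit 11) true (nat_lit 15) true (nat_lit 3) true (nat_lit 13) true (nat_lit 6) (.s true (nat_lit 1) (nat_lit 21) (nat_lit 2) (nat_lit 2) (nat_lit 6) true (nat_lit 3) true (nat_lit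 9) true (nat_lit 2) true (nat_lit 13) true (nat_lit 13) (.s false (nat_lit 2) (nat_lit 22) (nat_lit 2) (nat_lit 2) (nat_lit 6) true (nat_lit 3) true (nat_lit 9) true (nat_lit 2) true (nat_lit 13) true (nat_lit 13) (.s false (nat_lit 1) (nat_lit 23) (nat_lit 2) (nat_lit 2) (nat_lit 6) true (nat_lit 3) true (nat_lit 9) true (nat_lit 2) true (nat_lit 13) true (nat_lit 13) (.s false (nat_lit 3) (nat_lit 28) (nat_lit 1) (nat_lit 2) (nat_lit 6) true (nat_lit 4) true (nat_lit 9) true (nat_lit 1) true (nat_lit 14) true (nat_lit 13) (.s true (nat_lit 2) (nat_lit 28) (nat_lit 1) (nat_lit 6) (nat_lit 2) true (nat_lit 10) true (nat_lit 13) true (nat_lit 1) true (nat_lit 14) true (nat_lit 9) (.s false (nat_lit 2) (nat_lit 29) (nat_lit 2) (nat_lit 1) (nat_lit 6) true (nat_lit 3) true (nat_lit 9) true (nat_lit 1) true (nat_lit 13) true (nat_lit 14) (.s true (nat_lit 3) (nat_lit 28) (nat_lit 2) (nat_lit 2) (nat_lit 5) true (nat_lit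 4) true (nat_lit 10) true (nat_lit 1) true (nat_lit 13) true (nat_lit 13) (.s false (nat_lit 2) (nat_lit 29) (nat_lit 2) (nat_lit 2) (nat_lit 5) true (nat_lit 4) true (nat_lit 10) true (nat_lit 1) true (nat_lit 13) true (nat_lit 13) (.s true (nat_lit 3) (nat_lit 28) (nat_lit 2) (nat_lit 5) (nat_lit 2) true (nat_lit 9) true (nat_lit 13) true (nat_lit 1) true (nat_lit 13) true (nat_lit 10) (.s false (nat_lit 3) (nat_lit 28) (nat_lit 6) (nat_lit 1) (nat_lit 2) true (nat_lit 3) true (nat_lit 13) true (nat_lit 1) true (nat_lit 9) true (nat_lit 14) (.s true (nat_lit 2) (nat_lit 32) (nat_lit 0) (nat_lit 2) (nat_lit 6) true (nat_lit 5) true (nat_lit 9) true (nat_lit 0) true (nat_lit 15) true (nat_lit 13) (.s true (nat_lit 3) (nat_lit 32) (nat_lit 0) (nat_lit 6) (nat_lit 2) true (nat_lit 11) true (nat_lit 13) true (nat_lit 0) true (nat_lit 15) true (nat_lit 9) (.s false (nat_lit 1) (nat_lit 32) (nat_lit 2) (nat_lit 0) (nat_lit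 6) true (nat_lit 3) true (nat_lit 9) true (nat_lit 0) true (nat_lit 13) true (nat_lit 15) (.s false (nat_lit 3) (nat_lit 32) (nat_lit 2) (nat_lit 2) (nat_lit 4) true (nat_lit 5) true (nat_lit 11) true (nat_lit 0) true (nat_lit 13) true (nat_lit 13) (.s true (nat_lit 1) (nat_lit 32) (nat_lit 4) (nat_lit 2) (nat_lit 2) true (nat_lit 5) true (nat_lit 13) true (nat_lit 0) true (nat_lit 11) true (nat_lit 13) (.s false (nat_lit 2) (nat_lit 40) (nat_lit 1) (nat_lit 2) (nat_lit 4) true (nat_lit 6) true (nat_lit 11) false (nat_lit 0) true (nat_lit 14) true (nat_lit 13) (.s false (nat_lit 2) (nat_lit 40) (nat_lit 2) (nat_lit 0) (nat_lit 5) true (nat_lit 4) true (nat_lit 10) false (nat_lit 0) true (nat_lit 13) true (nat_lit 15) (.s false (nat_lit 1) (nat_lit 40) (nat_lit 2) (nat_lit 4) (nat_lit 1) true (nat_lit 10) true (nat_lit 14) false (nat_lit 0) true (nat_lit 13) true (nat_lit 11) (.s true (nat_lit 1) (nat_lit 40) (nat_lit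 4) (nat_lit 1) (nat_lit 2) true (nat_lit 5) true (nat_lit 13) false (nat_lit 0) true (nat_lit 11) true (nat_lit 14) (.s true (nat_lit 1) (nat_lit 40) (nat_lit 4) (nat_lit 2) (nat_lit 1) true (nat_lit 6) true (nat_lit 14) false (nat_lit 0) true (nat_lit 11) true (nat_lit 13) dC1d_i305)))))))))))))))))))))))))

noncomputable def dC1d_i307 : IL := (.e true (nat_lit 2) (nat_lit 277) (nat_lit 2) (nat_lit 13) (.e true (nat_lit 1) (nat_lit 278) (nat_lit 2) (nat_lit 13) (.e false (nat_lit 2) (nat_lit 283) (nat_lit 2) (nat_lit 13) (.e false (nat_lit 1) (nat_lit 286) (nat_lit 2) (nat_lit 13) (.e false (nat_lit 1) (nat_lit 287) (nat_lit 2) (nat_lit 13) (.e true (nat_lit 2) (nat_lit 272) (nat_lit 2) (nat_lit 13) (.e true (nat_lit 1) (nat_lit 320) (nat_lit 1) (nat_lit 14) (.e false (nat_lit 1) (nat_lit 327) (nat_lit 1) (nat_lit 14) (.e false (nat_lit 2) (nat_lit 284) (nat_lit 2) (nat_lit 13) (.e false (nat_lit 2) (nat_lit 340)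 (nat_lit 0) (nat_lit 15) (.e true (nat_lit 3) (nat_lit 341) (nat_lit 0) (nat_lit 15) (.e false (nat_lit 1) (nat_lit 329) (nat_lit 0) (nat_lit 15) (.e false (nat_lit 1) (nat_lit 330) (nat_lit 0) (nat_lit 15) (.e false (nat_lit 1) (nat_lit 337) (nat_lit 0) (nat_lit 15) (.e false (nat_lit 3) (nat_lit 338) (nat_lit 0) (nat_lit 15) (.e true (nat_lit 1) (nat_lit 149) (nat_lit 6) (nat_lit 9) (.e true (nat_lit 2) (nat_lit 328) (nat_lit 0) (nat_lit 15) (.e true (nat_lit 3) (nat_lit 332) (nat_lit 0) (nat_lit 15) (.e true (nat_lit 1) (nat_lit 334) (nat_lit 0) (nat_lit 15) (.e true (nat_lit 1) (nat_lit 335) (nat_lit 0) (nat_lit 15) (.e true (nat_lit 1) (nat_lit 345) (nat_lit 0) (nat_lit 15) (.e false (nat_lit 1) (nat_lit 189) (nat_lit 4) (nat_lit 11) (.e true (nat_lit 2) (nat_lit 342) (nat_lit 0) (nat_lit 15) (.u (nat_lit 2) (.p (nat_lit 0) (nat_lit 1) (.p (nat_lit 1) (nat_lit 1) (.n (nat_lit 2) (nat_lit 2) (.p (nat_lit 4)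 (nat_lit 1) (.p (nat_lit 5) (nat_lit 4) (.n (nat_lit 6) (nat_lit 2) (.n (nat_lit 7) (nat_lit 2) (.n (nat_lit 8) (nat_lit 3) (.n (nat_lit 13) (nat_lit 3) (.n (nat_lit 15) (nat_lit 2) (.n (nat_lit 16) (nat_lit 3) (.p (nat_lit 17) (nat_lit 1) (.p (nat_lit 18) (nat_lit 1) (.p (nat_lit 19) (nat_lit 1) (.p (nat_lit 20) (nat_lit 1) (.p (nat_lit 24) (nat_lit 1) (.p (nat_lit 25) (nat_lit 1) (.n (nat_lit 26) (nat_lit 1) (.n (nat_lit 27) (nat_lit 1) (.n (nat_lit 28) (nat_lit 1) (.n (nat_lit 33) (nat_lit 1) (.p (nat_lit 36) (nat_lit 1) (.p (nat_lit 37) (nat_lit 1) (.n (nat_lit 86) (nat_lit 1) (.p (nat_lit 88) (nat_lit 1) (.n (nat_lit 97) (nat_lit 1) (.p (nat_lit 109) (nat_lit 1) (.p (nat_lit 110) (nat_lit 1) (.n (nat_lit 117) (nat_lit 1) (.n (nat_lit 118) (nat_lit 1) (.n (nat_lit 123) (nat_lit 1) (.n (nat_lit 125) (nat_lit 1) (.n (nat_lit 127) (nat_lit 1) (.n (nat_lit 128) (nat_lit 1) (.p (nat_lit 129) (nat_lit 1) (.p (nat_lit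 131) (nat_lit 1) (.n (nat_lit 136) (nat_lit 1) (.n (nat_lit 141) (nat_lit 1) (.p (nat_lit 144) (nat_lit 1) (.n (nat_lit 145) (nat_lit 1) (.p (nat_lit 146) (nat_lit 1) (.n (nat_lit 147) (nat_lit 1) (.p (nat_lit 149) (nat_lit 2) (.p (nat_lit 151) (nat_lit 1) (.p (nat_lit 154) (nat_lit 1) (.p (nat_lit 164) (nat_lit 1) (.p (nat_lit 169) (nat_lit 1) (.p (nat_lit 170) (nat_lit 1) (.n (nat_lit 173) (nat_lit 27) (.n (nat_lit 174) (nat_lit 11) (.n (nat_lit 175) (nat_lit 6) (.p (nat_lit 176) (nat_lit 7) (.p (nat_lit 177) (nat_lit 12) (.p (nat_lit 178) (nat_lit 9) (.p (nat_lit 179) (nat_lit 23) (.n (nat_lit 181) (nat_lit 14) (.n (nat_lit 182) (nat_lit 13) (.n (nat_lit 183) (nat_lit 8) (.p (nat_lit 184) (nat_lit 5) (.n (nat_lit 185) (nat_lit 1) .z)))))))))))))))))))))))))))))))))))))))))))))))))))))))))))) (.u (nat_lit 2) (.p (nat_lit 186) (nat_lit 2) (.p (nat_lit 188) (nat_lit 1) (.p (nat_lit 189) (nat_lit 4) (.n (nat_lit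 190) (nat_lit 16) (.n (nat_lit 191) (nat_lit 19) (.p (nat_lit 192) (nat_lit 20) (.n (nat_lit 193) (nat_lit 8) (.n (nat_lit 195) (nat_lit 9) (.p (nat_lit 196) (nat_lit 4) (.p (nat_lit 197) (nat_lit 3) (.n (nat_lit 198) (nat_lit 10) (.p (nat_lit 199) (nat_lit 9) (.p (nat_lit 200) (nat_lit 2) (.n (nat_lit 201) (nat_lit 6) (.p (nat_lit 202) (nat_lit 5) (.n (nat_lit 203) (nat_lit 2) (.n (nat_lit 204) (nat_lit 2) (.n (nat_lit 205) (nat_lit 1) (.n (nat_lit 206) (nat_lit 1) (.n (nat_lit 207) (nat_lit 1) (.p (nat_lit 208) (nat_lit 1) (.p (nat_lit 209) (nat_lit 1) (.n (nat_lit 210) (nat_lit 1) (.n (nat_lit 211) (nat_lit 2) (.n (nat_lit 212) (nat_lit 3) (.p (nat_lit 213) (nat_lit 3) (.p (nat_lit 214) (nat_lit 6) (.p (nat_lit 215) (nat_lit 2) (.n (nat_lit 216) (nat_lit 6) (.p (nat_lit 219) (nat_lit 3) (.n (nat_lit 220) (nat_lit 5) (.p (nat_lit 221) (nat_lit 1) (.n (nat_lit 222) (nat_lit 2) (.n (nat_lit 223) (nat_lit 1) (.n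 (nat_lit 227) (nat_lit 1) .z))))))))))))))))))))))))))))))))))) .nil)))))))))))))))))))))))))

noncomputable def dC1d_i308 : IL := (.s false (nat_lit 2) (nat_lit 98) (nat_lit 2) (nat_lit 0) (nat_lit 1) true (nat_lit 10) true (nat_lit 14) false (nat_lit 6) true (nat_lit 13) true (nat_lit 15) (.s false (nat_lit 2) (nat_lit 100) (nat_lit 2) (nat_lit 0) (nat_lit 1) true (nat_lit 10) true (nat_lit 14) false (nat_lit 6) true (nat_lit 13) true (nat_lit 15) (.s false (nat_lit 1) (nat_lit 101) (nat_lit 2) (nat_lit 0) (nat_lit 1) true (nat_lit 10) true (nat_lit 14) false (nat_lit 6) true (nat_lit 13) true (nat_lit 15) (.s false (nat_lit 3) (nat_lit 103) (nat_lit 0) (nat_lit 2) (nat_lit 0) false (nat_lit 16) true (nat_lit 15) false (nat_lit 7) true (nat_lit 15) true (nat_lit 13) (.s false (nat_lit 3) (nat_lit 104) (nat_lit 0) (nat_lit 2) (nat_lit 0) false (nat_lit 16) true (nat_lit 15) false (nat_lit 7) true (nat_lit 15) true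 (nat_lit 13) (.s true (nat_lit 3) (nat_lit 105) (nat_lit 0) (nat_lit 2) (nat_lit 0) false (nat_lit 16) true (nat_lit 15) false (nat_lit 7) true (nat_lit 15) true (nat_lit 13) (.s false (nat_lit 1) (nat_lit 106) (nat_lit 0) (nat_lit 1) (nat_lit 0) false (nat_lit 16) true (nat_lit 15) false (nat_lit 8) true (nat_lit 15) true (nat_lit 14) (.e false (nat_lit 3) (nat_lit 137) (nat_lit 6) (nat_lit 9) (.e false (nat_lit 3) (nat_lit 142) (nat_lit 6) (nat_lit 9) (.e false (nat_lit 1) (nat_lit 150) (nat_lit 6) (nat_lit 9) (.e false (nat_lit 2) (nat_lit 323) (nat_lit 1) (nat_lit 14) (.e true (nat_lit 1) (nat_lit 321) (nat_lit 1) (nat_lit 14) (.e false (nat_lit 1) (nat_lit 322) (nat_lit 1) (nat_lit 14) (.e true (nat_lit 1) (nat_lit 65) (nat_lit 18) (nat_lit 3) (.e false (nat_lit 3) (nat_lit 261) (nat_lit 2) (nat_lit 13) (.e true (nat_lit 3) (nat_lit 262) (nat_lit 2) (nat_lit 13) (.e true (nat_lit 3) (nat_lit 264) (nat_lit 2)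 (nat_lit 13) (.e false (nat_lit 2) (nat_lit 266) (nat_lit 2) (nat_lit 13) (.e false (nat_lit 3) (nat_lit 267) (nat_lit 2) (nat_lit 13) (.e false (nat_lit 1) (nat_lit 268) (nat_lit 2) (nat_lit 13) (.e true (nat_lit 2) (nat_lit 270) (nat_lit 2) (nat_lit 13) (.e false (nat_lit 2) (nat_lit 271) (nat_lit 2) (nat_lit 13) (.e false (nat_lit 2) (nat_lit 273) (nat_lit 2) (nat_lit 13) (.e false (nat_lit 3) (nat_lit 274) (nat_lit 2) (nat_lit 13) (.e true (nat_lit 3) (nat_lit 275) (nat_lit 2) (nat_lit 13) dC1d_i307)))))))))))))))))))))))))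

noncomputable def dC1d_i309 : IL := (.s false (nat_lit 2) (nat_lit 61) (nat_lit 2) (nat_lit 2) (nat_lit 2) true (nat_lit 9) true (nat_lit 13) false (nat_lit 3) true (nat_lit 13) true (nat_lit 13) (.s false (nat_lit 1) (nat_lit 62) (nat_lit 2) (nat_lit 2) (nat_lit 2) true (nat_lit 9) true (nat_lit 13) false (nat_lit 3) true (nat_lit 13) true (nat_lit 13) (.s true (nat_lit 2) (nat_lit 64) (nat_lit 2) (nat_lit 2) (nat_lit 2) true (nat_lit 9) true (nat_lit 13) false (nat_lit 3) true (nat_lit 13) true (nat_lit 13) (.s false (nat_lit 3) (nat_lit 78) (nat_lit 1) (nat_lit 2) (nat_lit 2) true (nat_lit 10) true (nat_lit 13) false (nat_lit 4) true (nat_lit 14) true (nat_lit 13) (.s false (nat_lit 2) (nat_lit 80) (nat_lit 1) (nat_lit 2) (nat_lit 2) true (nat_lit 10) true (nat_lit 13) false (nat_lit 4) true (nat_lit 14) true (nat_lit 13) (.s true (nat_lit 2) (nat_lit 81) (nat_lit 1) (nat_lit 2) (nat_lit 2) true (nat_lit 10)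 true (nat_lit 13) false (nat_lit 4) true (nat_lit 14) true (nat_lit 13) (.s false (nat_lit 1) (nat_lit 77) (nat_lit 2) (nat_lit 1) (nat_lit 2) true (nat_lit 9) true (nat_lit 13) false (nat_lit 4) true (nat_lit 13) true (nat_lit 14) (.s false (nat_lit 1) (nat_lit 78) (nat_lit 2) (nat_lit 2) (nat_lit 1) true (nat_lit 10) true (nat_lit 14) false (nat_lit 4) true (nat_lit 13) true (nat_lit 13) (.s false (nat_lit 1) (nat_lit 83) (nat_lit 0) (nat_lit 2) (nat_lit 2) true (nat_lit 11) true (nat_lit 13) false (nat_lit 5) true (nat_lit 15) true (nat_lit 13) (.s false (nat_lit 2) (nat_lit 84) (nat_lit 0) (nat_lit 2) (nat_lit 2) true (nat_lit 11) true (nat_lit 13) false (nat_lit 5) true (nat_lit 15) true (nat_lit 13) (.s false (nat_lit 2) (nat_lit 90) (nat_lit 0) (nat_lit 2) (nat_lit 2) true (nat_lit 11) true (nat_lit 13) false (nat_lit 5) true (nat_lit 15) true (nat_lit 13) (.s false (nat_lit 2) (nat_lit 91) (nat_lit 0) (nat_lit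 2) (nat_lit 2) true (nat_lit 11) true (nat_lit 13) false (nat_lit 5) true (nat_lit 15) true (nat_lit 13) (.s false (nat_lit 2) (nat_lit 92) (nat_lit 0) (nat_lit 2) (nat_lit 2) true (nat_lit 11) true (nat_lit 13) false (nat_lit 5) true (nat_lit 15) true (nat_lit 13) (.s false (nat_lit 3) (nat_lit 83) (nat_lit 2) (nat_lit 0) (nat_lit 2) true (nat_lit 9) true (nat_lit 13) false (nat_lit 5) true (nat_lit 13) true (nat_lit 15) (.s false (nat_lit 3) (nat_lit 82) (nat_lit 2) (nat_lit 2) (nat_lit 0) true (nat_lit 11) true (nat_lit 15) false (nat_lit 5) true (nat_lit 13) true (nat_lit 13) (.s false (nat_lit 2) (nat_lit 84) (nat_lit 2) (nat_lit 2) (nat_lit 0) true (nat_lit 11) true (nat_lit 15) false (nat_lit 5) true (nat_lit 13) true (nat_lit 13) (.s false (nat_lit 1) (nat_lit 90) (nat_lit 2) (nat_lit 2) (nat_lit 0) true (nat_lit 11) true (nat_lit 15) false (nat_lit 5) true (nat_lit 13) true (nat_lit 13) (.s true (nat_lit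 3) (nat_lit 91) (nat_lit 2) (nat_lit 2) (nat_lit 0) true (nat_lit 11) true (nat_lit 15) false (nat_lit 5) true (nat_lit 13) true (nat_lit 13) (.s true (nat_lit 1) (nat_lit 92) (nat_lit 2) (nat_lit 2) (nat_lit 0) true (nat_lit 11) true (nat_lit 15) false (nat_lit 5) true (nat_lit 13) true (nat_lit 13) (.s false (nat_lit 3) (nat_lit 100) (nat_lit 0) (nat_lit 2) (nat_lit 1) true (nat_lit 12) true (nat_lit 14) false (nat_lit 6) true (nat_lit 15) true (nat_lit 13) (.s false (nat_lit 2) (nat_lit 98) (nat_lit 1) (nat_lit 0) (nat_lit 2) true (nat_lit 10) true (nat_lit 13) false (nat_lit 6) true (nat_lit 14) true (nat_lit 15) (.s true (nat_lit 1) (nat_lit 99) (nat_lit 1) (nat_lit 0) (nat_lit 2) true (nat_lit 10) true (nat_lit 13) false (nat_lit 6) true (nat_lit 14) true (nat_lit 15) (.s false (nat_lit 1) (nat_lit 101) (nat_lit 1) (nat_lit 0) (nat_lit 2) true (nat_lit 10) true (nat_lit 13) false (nat_lit 6) true (nat_lit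 14) true (nat_lit 15) (.s true (nat_lit 3) (nat_lit 99) (nat_lit 1) (nat_lit 2) (nat_lit 0) true (nat_lit 12) true (nat_lit 15) false (nat_lit 6) true (nat_lit 14) true (nat_lit 13) (.s true (nat_lit 2) (nat_lit 101) (nat_lit 1) (nat_lit 2) (nat_lit 0) true (nat_lit 12) true (nat_lit 15) false (nat_lit 6) true (nat_lit 14) true (nat_lit 13) dC1d_i308)))))))))))))))))))))))))

noncomputable def dC1d_i310 : IL := (.s false (nat_lit 1) (nat_lit 22) (nat_lit 6) (nat_lit 2) (nat_lit 2) true (nat_lit 3) true (nat_lit 13) true (nat_lit 2) true (nat_lit 9) true (nat_lit 13) (.s false (nat_lit 1) (nat_lit 29) (nat_lit 1) (nat_lit 2) (nat_lit 6) true (nat_lit 4) true (nat_lit 9) true (nat_lit 1) true (nat_lit 14) true (nat_lit 13) (.s true (nat_lit 2) (nat_lit 28) (nat_lit 2) (nat_lit 1) (nat_lit 6) true (nat_lit 3) true (nat_lit 9) true (nat_lit 1) true (nat_lit 13) true (nat_lit 14) (.s true (nat_lit 2) (nat_lit 28) (nat_lit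 2) (nat_lit 2) (nat_lit 5) true (nat_lit 4) true (nat_lit 10) true (nat_lit 1) true (nat_lit 13) true (nat_lit 13) (.s true (nat_lit 1) (nat_lit 29) (nat_lit 2) (nat_lit 2) (nat_lit 5) true (nat_lit 4) true (nat_lit 10) true (nat_lit 1) true (nat_lit 13) true (nat_lit 13) (.s true (nat_lit 3) (nat_lit 28) (nat_lit 2) (nat_lit 5) (nat_lit 2) true (nat_lit 9) true (nat_lit 13) true (nat_lit 1) true (nat_lit 13) true (nat_lit 10) (.s true (nat_lit 1) (nat_lit 31) (nat_lit 0) (nat_lit 2) (nat_lit 6) true (nat_lit 5) true (nat_lit 9) true (nat_lit 0) true (nat_lit 15) true (nat_lit 13) (.s false (nat_lit 3) (nat_lit 32) (nat_lit 0) (nat_lit 6) (nat_lit 2) true (nat_lit 11) true (nat_lit 13) true (nat_lit 0) true (nat_lit 15) true (nat_lit 9) (.s true (nat_lit 1) (nat_lit 31) (nat_lit 2) (nat_lit 0) (nat_lit 6) true (nat_lit 3) true (nat_lit 9) true (nat_lit 0) true (nat_lit 13) true (nat_lit 15) (.s true (nat_lit 1)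 (nat_lit 32) (nat_lit 2) (nat_lit 0) (nat_lit 6) true (nat_lit 3) true (nat_lit 9) true (nat_lit 0) true (nat_lit 13) true (nat_lit 15) (.s true (nat_lit 3) (nat_lit 31) (nat_lit 2) (nat_lit 2) (nat_lit 4) true (nat_lit 5) true (nat_lit 11) true (nat_lit 0) true (nat_lit 13) true (nat_lit 13) (.s true (nat_lit 1) (nat_lit 32) (nat_lit 2) (nat_lit 2) (nat_lit 4) true (nat_lit 5) true (nat_lit 11) true (nat_lit 0) true (nat_lit 13) true (nat_lit 13) (.s false (nat_lit 3) (nat_lit 33) (nat_lit 2) (nat_lit 2) (nat_lit 4) true (nat_lit 5) true (nat_lit 11) true (nat_lit 0) true (nat_lit 13) true (nat_lit 13) (.s true (nat_lit 3) (nat_lit 31) (nat_lit 2) (nat_lit 6) (nat_lit 0) true (nat_lit 11) true (nat_lit 15) true (nat_lit 0) true (nat_lit 13) true (nat_lit 9) (.s true (nat_lit 2) (nat_lit 31) (nat_lit 4) (nat_lit 2) (nat_lit 2) true (nat_lit 5) true (nat_lit 13) true (nat_lit 0) true (nat_lit 11) true (nat_lit 13)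 (.s false (nat_lit 1) (nat_lit 32) (nat_lit 4) (nat_lit 2) (nat_lit 2) true (nat_lit 5) true (nat_lit 13) true (nat_lit 0) true (nat_lit 11) true (nat_lit 13) (.s false (nat_lit 1) (nat_lit 33) (nat_lit 4) (nat_lit 2) (nat_lit 2) true (nat_lit 5) true (nat_lit 13) true (nat_lit 0) true (nat_lit 11) true (nat_lit 13) (.s true (nat_lit 1) (nat_lit 41) (nat_lit 3) (nat_lit 2) (nat_lit 2) true (nat_lit 6) true (nat_lit 13) false (nat_lit 0) true (nat_lit 12) true (nat_lit 13) (.s true (nat_lit 2) (nat_lit 40) (nat_lit 4) (nat_lit 1) (nat_lit 2) true (nat_lit 5) true (nat_lit 13) false (nat_lit 0) true (nat_lit 11) true (nat_lit 14) (.s true (nat_lit 1) (nat_lit 46) (nat_lit 0) (nat_lit 0) (nat_lit 5) true (nat_lit 6) true (nat_lit 10) false (nat_lit 2) true (nat_lit 15) true (nat_lit 15) (.s false (nat_lit 2) (nat_lit 46) (nat_lit 3) (nat_lit 0) (nat_lit 2) true (nat_lit 6) true (nat_lit 13) false (nat_lit 2) true (nat_lit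 12) true (nat_lit 15) (.s false (nat_lit 2) (nat_lit 46) (nat_lit 3) (nat_lit 2) (nat_lit 0) true (nat_lit 8) true (nat_lit 15) false (nat_lit 2) true (nat_lit 12) true (nat_lit 13) (.s true (nat_lit 2) (nat_lit 46) (nat_lit 5) (nat_lit 0) (nat_lit 0) true (nat_lit 6) true (nat_lit 15) false (nat_lit 2) true (nat_lit 10) true (nat_lit 15) (.s true (nat_lit 3) (nat_lit 59) (nat_lit 2) (nat_lit 2) (nat_lit 2) true (nat_lit 9) true (nat_lit 13) false (nat_lit 3) true (nat_lit 13) true (nat_lit 13) (.s false (nat_lit 2) (nat_lit 60) (nat_lit 2) (nat_lit 2) (nat_lit 2) true (nat_lit 9) true (nat_lit 13) false (nat_lit 3) true (nat_lit 13) true (nat_lit 13) dC1d_i309)))))))))))))))))))))))))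

noncomputable def dC1d_i311 : IL := (.s false (nat_lit 2) (nat_lit 14) (nat_lit 11) (nat_lit 2) (nat_lit 2) true (nat_lit 0) true (nat_lit 13) true (nat_lit 5) true (nat_lit 6) true (nat_lit 13) (.s true (nat_lit 1) (nat_lit 14) (nat_lit 12) (nat_lit 2) (nat_lit 2) true (nat_lit 0) true (nat_lit 13) true (nat_lit 5) true (nat_lit 6) true (nat_lit 13) (.s true (nat_lit 3) (nat_lit 15) (nat_lit 10) (nat_lit 2) (nat_lit 2) true (nat_lit 0) true (nat_lit 13) true (nat_lit 5) true (nat_lit 6) true (nat_lit 13) (.s false (nat_lit 2) (nat_lit 15) (nat_lit 12) (nat_lit 2) (nat_lit 2) true (nat_lit 0) true (nat_lit 13) true (nat_lit 5) true (nat_lit 6) true (nat_lit 13) (.s false (nat_lit 3) (nat_lit 16) (nat_lit 9) (nat_lit 2) (nat_lit 2) true (nat_lit 1) true (nat_lit 13) true (nat_lit 4) true (nat_lit 7) true (nat_lit 13) (.s false (nat_lit 1) (nat_lit 18) (nat_lit 0) (nat_lit 6) (nat_lit 3) true (nat_lit 8) true (nat_lit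 12) true (nat_lit 3) true (nat_lit 15) true (nat_lit 9) (.s false (nat_lit 2) (nat_lit 18) (nat_lit 0) (nat_lit 10) (nat_lit 2) true (nat_lit 11) true (nat_lit 13) true (nat_lit 3) true (nat_lit 15) true (nat_lit 6) (.s true (nat_lit 3) (nat_lit 18) (nat_lit 0) (nat_lit 11) (nat_lit 2) true (nat_lit 11) true (nat_lit 13) true (nat_lit 3) true (nat_lit 15) true (nat_lit 6) (.s false (nat_lit 1) (nat_lit 18) (nat_lit 0) (nat_lit 12) (nat_lit 2) true (nat_lit 11) true (nat_lit 13) true (nat_lit 3) true (nat_lit 15) true (nat_lit 6) (.s false (nat_lit 2) (nat_lit 18) (nat_lit 1) (nat_lit 0) (nat_lit 14) true (nat_lit 0) true (nat_lit 5) true (nat_lit 3) true (nat_lit 14) true (nat_lit 15) (.s false (nat_lit 1) (nat_lit 18) (nat_lit 2) (nat_lit 2) (nat_lit 7) true (nat_lit 2) true (nat_lit 8) true (nat_lit 3) true (nat_lit 13) true (nat_lit 13) (.s true (nat_lit 1) (nat_lit 18) (nat_lit 2) (nat_lit 10) (nat_lit 0) true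 (nat_lit 11) true (nat_lit 15) true (nat_lit 3) true (nat_lit 13) true (nat_lit 6) (.s false (nat_lit 1) (nat_lit 18) (nat_lit 2) (nat_lit 11) (nat_lit 0) true (nat_lit 11) true (nat_lit 15) true (nat_lit 3) true (nat_lit 13) true (nat_lit 6) (.s true (nat_lit 2) (nat_lit 18) (nat_lit 4) (nat_lit 2) (nat_lit 3) true (nat_lit 2) true (nat_lit 12) true (nat_lit 3) true (nat_lit 11) true (nat_lit 13) (.s true (nat_lit 3) (nat_lit 18) (nat_lit 7) (nat_lit 2) (nat_lit 2) true (nat_lit 2) true (nat_lit 13) true (nat_lit 3) true (nat_lit 8) true (nat_lit 13) (.s true (nat_lit 1) (nat_lit 18) (nat_lit 9) (nat_lit 2) (nat_lit 1) true (nat_lit 2) true (nat_lit 14) true (nat_lit 3) true (nat_lit 7) true (nat_lit 13) (.s true (nat_lit 1) (nat_lit 18) (nat_lit 10) (nat_lit 0) (nat_lit 2) true (nat_lit 0) true (nat_lit 13) true (nat_lit 3) true (nat_lit 6) true (nat_lit 15) (.s true (nat_lit 3) (nat_lit 18) (nat_lit 12) (nat_lit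 0) (nat_lit 2) true (nat_lit 0) true (nat_lit 13) true (nat_lit 3) true (nat_lit 6) true (nat_lit 15) (.s false (nat_lit 2) (nat_lit 18) (nat_lit 14) (nat_lit 0) (nat_lit 1) true (nat_lit 0) true (nat_lit 14) true (nat_lit 3) true (nat_lit 5) true (nat_lit 15) (.s true (nat_lit 3) (nat_lit 20) (nat_lit 2) (nat_lit 2) (nat_lit 6) true (nat_lit 3) true (nat_lit 9) true (nat_lit 2) true (nat_lit 13) true (nat_lit 13) (.s false (nat_lit 2) (nat_lit 21) (nat_lit 2) (nat_lit 2) (nat_lit 6) true (nat_lit 3) true (nat_lit 9) true (nat_lit 2) true (nat_lit 13) true (nat_lit 13) (.s false (nat_lit 1) (nat_lit 22) (nat_lit 2) (nat_lit 2) (nat_lit 6) true (nat_lit 3) true (nat_lit 9) true (nat_lit 2) true (nat_lit 13) true (nat_lit 13) (.s true (nat_lit 3) (nat_lit 23) (nat_lit 2) (nat_lit 2) (nat_lit 6) true (nat_lit 3) true (nat_lit 9) true (nat_lit 2) true (nat_lit 13) true (nat_lit 13) (.s false (nat_lit 1) (nat_lit 21)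 (nat_lit 2) (nat_lit 6) (nat_lit 2) true (nat_lit 9) true (nat_lit 13) true (nat_lit 2) true (nat_lit 13) true (nat_lit 9) (.s true (nat_lit 3) (nat_lit 22) (nat_lit 2) (nat_lit 6) (nat_lit 2) true (nat_lit 9) true (nat_lit 13) true (nat_lit 2) true (nat_lit 13) true (nat_lit 9) dC1d_i310)))))))))))))))))))))))))

noncomputable def dC1d_i312 : IL := (.e false (nat_lit 2) (nat_lit 283) (nat_lit 2) (nat_lit 13) (.e false (nat_lit 3) (nat_lit 149) (nat_lit 6) (nat_lit 9) (.e true (nat_lit 2) (nat_lit 65) (nat_lit 18) (nat_lit 3) (.e false (nat_lit 2) (nat_lit 320) (nat_lit 1) (nat_lit 14) (.e false (nat_lit 3) (nat_lit 323) (nat_lit 1) (nat_lit 14) (.e false (nat_lit 1) (nat_lit 327) (nat_lit 1) (nat_lit 14) (.e true (nat_lit 3) (nat_lit 324) (nat_lit 1) (nat_lit 14) (.e false (nat_lit 3) (nat_lit 328) (nat_lit 0) (nat_lit 15) (.e false (nat_lit 3) (nat_lit 330) (nat_lit 0) (nat_lit 15) (.e false (nat_lit 2) (nat_lit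 331) (nat_lit 0) (nat_lit 15) (.e false (nat_lit 3) (nat_lit 332) (nat_lit 0) (nat_lit 15) (.e false (nat_lit 3) (nat_lit 333) (nat_lit 0) (nat_lit 15) (.e false (nat_lit 3) (nat_lit 334) (nat_lit 0) (nat_lit 15) (.e false (nat_lit 3) (nat_lit 335) (nat_lit 0) (nat_lit 15) (.e false (nat_lit 2) (nat_lit 337) (nat_lit 0) (nat_lit 15) (.e false (nat_lit 2) (nat_lit 336) (nat_lit 0) (nat_lit 15) (.e true (nat_lit 3) (nat_lit 329) (nat_lit 0) (nat_lit 15) (.e false (nat_lit 3) (nat_lit 338) (nat_lit 0) (nat_lit 15) (.e true (nat_lit 3) (nat_lit 341) (nat_lit 0) (nat_lit 15) (.e true (nat_lit 2) (nat_lit 340) (nat_lit 0) (nat_lit 15) (.e false (nat_lit 2) (nat_lit 345) (nat_lit 0) (nat_lit 15) (.e true (nat_lit 2) (nat_lit 342) (nat_lit 0) (nat_lit 15) (.u (nat_lit 2) (.n (nat_lit 1) (nat_lit 1) (.n (nat_lit 3) (nat_lit 1) (.p (nat_lit 5) (nat_lit 1) (.p (nat_lit 8) (nat_lit 1) (.n (nat_lit 10) (nat_lit 1) (.n (nat_lit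 12) (nat_lit 1) (.n (nat_lit 13) (nat_lit 2) (.p (nat_lit 16) (nat_lit 1) (.p (nat_lit 18) (nat_lit 2) (.n (nat_lit 19) (nat_lit 1) (.p (nat_lit 20) (nat_lit 1) (.p (nat_lit 25) (nat_lit 1) (.n (nat_lit 28) (nat_lit 1) (.p (nat_lit 30) (nat_lit 1) (.n (nat_lit 33) (nat_lit 2) (.p (nat_lit 35) (nat_lit 1) (.n (nat_lit 39) (nat_lit 1) (.n (nat_lit 60) (nat_lit 1) (.n (nat_lit 63) (nat_lit 1) (.n (nat_lit 65) (nat_lit 1) (.p (nat_lit 66) (nat_lit 2) (.p (nat_lit 67) (nat_lit 3) (.n (nat_lit 68) (nat_lit 1) (.p (nat_lit 69) (nat_lit 1) (.p (nat_lit 71) (nat_lit 2) (.n (nat_lit 74) (nat_lit 1) (.p (nat_lit 75) (nat_lit 3) (.n (nat_lit 76) (nat_lit 1) (.p (nat_lit 86) (nat_lit 1) (.p (nat_lit 87) (nat_lit 1) (.n (nat_lit 88) (nat_lit 1) (.n (nat_lit 97) (nat_lit 1) (.n (nat_lit 98) (nat_lit 1) (.n (nat_lit 99) (nat_lit 1) (.p (nat_lit 101) (nat_lit 1) (.n (nat_lit 102) (nat_lit 2) (.p (nat_lit 107) (nat_lit 1) (.n (nat_lit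 109) (nat_lit 1) (.n (nat_lit 110) (nat_lit 1) (.p (nat_lit 113) (nat_lit 1) (.p (nat_lit 117) (nat_lit 1) (.n (nat_lit 125) (nat_lit 3) (.n (nat_lit 126) (nat_lit 3) (.n (nat_lit 127) (nat_lit 2) (.n (nat_lit 128) (nat_lit 1) (.p (nat_lit 129) (nat_lit 2) (.p (nat_lit 130) (nat_lit 1) (.p (nat_lit 131) (nat_lit 6) (.n (nat_lit 132) (nat_lit 2) (.n (nat_lit 133) (nat_lit 2) (.n (nat_lit 134) (nat_lit 1) (.p (nat_lit 135) (nat_lit 3) (.p (nat_lit 136) (nat_lit 1) (.p (nat_lit 137) (nat_lit 1) (.p (nat_lit 139) (nat_lit 1) (.p (nat_lit 142) (nat_lit 3) (.p (nat_lit 143) (nat_lit 2) (.p (nat_lit 144) (nat_lit 1) (.n (nat_lit 145) (nat_lit 3) (.n (nat_lit 147) (nat_lit 1) .z)))))))))))))))))))))))))))))))))))))))))))))))))))))))))))) (.u (nat_lit 2) (.p (nat_lit 148) (nat_lit 1) (.n (nat_lit 149) (nat_lit 2) (.n (nat_lit 150) (nat_lit 1) (.n (nat_lit 153) (nat_lit 2) (.n (nat_lit 155) (nat_lit 2) (.p (nat_lit 156) (nat_lit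 5) (.p (nat_lit 157) (nat_lit 2) (.p (nat_lit 158) (nat_lit 1) (.n (nat_lit 161) (nat_lit 1) (.n (nat_lit 162) (nat_lit 3) (.n (nat_lit 165) (nat_lit 1) (.p (nat_lit 172) (nat_lit 2) (.n (nat_lit 173) (nat_lit 7) (.p (nat_lit 174) (nat_lit 5) (.p (nat_lit 175) (nat_lit 11) (.n (nat_lit 176) (nat_lit 4) (.n (nat_lit 177) (nat_lit 5) (.p (nat_lit 178) (nat_lit 9) (.n (nat_lit 179) (nat_lit 2) (.p (nat_lit 180) (nat_lit 16) (.n (nat_lit 181) (nat_lit 2) (.p (nat_lit 182) (nat_lit 4) (.p (nat_lit 183) (nat_lit 4) (.p (nat_lit 184) (nat_lit 5) (.n (nat_lit 185) (nat_lit 1) (.p (nat_lit 186) (nat_lit 9) (.n (nat_lit 187) (nat_lit 5) (.n (nat_lit 188) (nat_lit 4) (.p (nat_lit 189) (nat_lit 5) (.p (nat_lit 190) (nat_lit 8) (.p (nat_lit 191) (nat_lit 8) (.n (nat_lit 192) (nat_lit 1) (.p (nat_lit 193) (nat_lit 13) (.p (nat_lit 194) (nat_lit 4) (.p (nat_lit 195) (nat_lit 4) (.p (nat_lit 196) (nat_lit 4) (.p (nat_lit 198) (nat_lit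 6) (.n (nat_lit 199) (nat_lit 10) (.n (nat_lit 200) (nat_lit 5) (.p (nat_lit 201) (nat_lit 10) (.p (nat_lit 202) (nat_lit 3) (.p (nat_lit 203) (nat_lit 3) (.p (nat_lit 204) (nat_lit 5) (.n (nat_lit 205) (nat_lit 2) (.p (nat_lit 206) (nat_lit 5) (.p (nat_lit 207) (nat_lit 1) (.p (nat_lit 208) (nat_lit 3) (.p (nat_lit 209) (nat_lit 1) (.n (nat_lit 210) (nat_lit 3) (.p (nat_lit 211) (nat_lit 4) (.n (nat_lit 212) (nat_lit 3) (.p (nat_lit 213) (nat_lit 2) (.n (nat_lit 214) (nat_lit 2) (.n (nat_lit 215) (nat_lit 5) (.p (nat_lit 216) (nat_lit 5) (.n (nat_lit 217) (nat_lit 5) (.n (nat_lit 218) (nat_lit 8) (.n (nat_lit 219) (nat_lit 8) (.p (nat_lit 220) (nat_lit 7) (.n (nat_lit 221) (nat_lit 9) .z)))))))))))))))))))))))))))))))))))))))))))))))))))))))))))) (.u (nat_lit 2) (.p (nat_lit 222) (nat_lit 1) (.n (nat_lit 223) (nat_lit 2) (.p (nat_lit 224) (nat_lit 2) (.p (nat_lit 225) (nat_lit 1) (.n (nat_lit 229) (nat_lit 1) .z)))))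 .nil)))))))))))))))))))))))))

noncomputable def dC1d_i313 : IL := (.s false (nat_lit 3) (nat_lit 86) (nat_lit 2) (nat_lit 2) (nat_lit 0) true (nat_lit 11) true (nat_lit 15) false (nat_lit 5) true (nat_lit 13) true (nat_lit 13) (.s true (nat_lit 2) (nat_lit 87) (nat_lit 2) (nat_lit 2) (nat_lit 0) true (nat_lit 11) true (nat_lit 15) false (nat_lit 5) true (nat_lit 13) true (nat_lit 13) (.s false (nat_lit 2) (nat_lit 88) (nat_lit 2) (nat_lit 2) (nat_lit 0) true (nat_lit 11) true (nat_lit 15) false (nat_lit 5) true (nat_lit 13) true (nat_lit 13) (.s true (nat_lit 2) (nat_lit 89) (nat_lit 2) (nat_lit 2) (nat_lit 0) true (nat_lit 11) true (nat_lit 15) false (nat_lit 5) true (nat_lit 13) true (nat_lit 13) (.s true (nat_lit 1) (nat_lit 90) (nat_lit 2) (nat_lit 2) (nat_lit 0) true (nat_lit 11) true (nat_lit 15) false (nat_lit 5) true (nat_lit 13) true (nat_lit 13) (.s true (nat_lit 1) (nat_lit 91) (nat_lit 2) (nat_lit 2)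 (nat_lit 0) true (nat_lit 11) true (nat_lit 15) false (nat_lit 5) true (nat_lit 13) true (nat_lit 13) (.s true (nat_lit 2) (nat_lit 92) (nat_lit 2) (nat_lit 2) (nat_lit 0) true (nat_lit 11) true (nat_lit 15) false (nat_lit 5) true (nat_lit 13) true (nat_lit 13) (.s false (nat_lit 1) (nat_lit 100) (nat_lit 0) (nat_lit 1) (nat_lit 2) true (nat_lit 11) true (nat_lit 13) false (nat_lit 6) true (nat_lit 15) true (nat_lit 14) (.s true (nat_lit 3) (nat_lit 100) (nat_lit 0) (nat_lit 2) (nat_lit 1) true (nat_lit 12) true (nat_lit 14) false (nat_lit 6) true (nat_lit 15) true (nat_lit 13) (.s false (nat_lit 2) (nat_lit 99) (nat_lit 1) (nat_lit 2) (nat_lit 0) true (nat_lit 12) true (nat_lit 15) false (nat_lit 6) true (nat_lit 14) true (nat_lit 13) (.s true (nat_lit 2) (nat_lit 100) (nat_lit 1) (nat_lit 2) (nat_lit 0) true (nat_lit 12) true (nat_lit 15) false (nat_lit 6) true (nat_lit 14) true (nat_lit 13) (.s false (nat_lit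 3) (nat_lit 98) (nat_lit 2) (nat_lit 0) (nat_lit 1) true (nat_lit 10) true (nat_lit 14) false (nat_lit 6) true (nat_lit 13) true (nat_lit 15) (.s true (nat_lit 2) (nat_lit 99) (nat_lit 2) (nat_lit 0) (nat_lit 1) true (nat_lit 10) true (nat_lit 14) false (nat_lit 6) true (nat_lit 13) true (nat_lit 15) (.s true (nat_lit 2) (nat_lit 105) (nat_lit 0) (nat_lit 0) (nat_lit 2) true (nat_lit 11) true (nat_lit 13) false (nat_lit 7) true (nat_lit 15) true (nat_lit 15) (.s false (nat_lit 3) (nat_lit 105) (nat_lit 2) (nat_lit 0) (nat_lit 0) true (nat_lit 11) true (nat_lit 15) false (nat_lit 7) true (nat_lit 13) true (nat_lit 15) (.s false (nat_lit 2) (nat_lit 106) (nat_lit 0) (nat_lit 0) (nat_lit 1) true (nat_lit 12) true (nat_lit 14) false (nat_lit 8) true (nat_lit 15) true (nat_lit 15) (.s false (nat_lit 2) (nat_lit 106) (nat_lit 0) (nat_lit 1) (nat_lit 0) false (nat_lit 16) true (nat_lit 15) false (nat_lit 8) true (nat_lit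 15) true (nat_lit 14) (.e true (nat_lit 2) (nat_lit 262) (nat_lit 2) (nat_lit 13) (.e false (nat_lit 2) (nat_lit 265) (nat_lit 2) (nat_lit 13) (.e false (nat_lit 3) (nat_lit 277) (nat_lit 2) (nat_lit 13) (.e false (nat_lit 1) (nat_lit 286) (nat_lit 2) (nat_lit 13) (.e true (nat_lit 3) (nat_lit 142) (nat_lit 6) (nat_lit 9) (.e false (nat_lit 3) (nat_lit 267) (nat_lit 2) (nat_lit 13) (.e true (nat_lit 3) (nat_lit 270) (nat_lit 2) (nat_lit 13) (.e true (nat_lit 3) (nat_lit 275) (nat_lit 2) (nat_lit 13) dC1d_i312)))))))))))))))))))))))))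

noncomputable def dC1d_i314 : IL := (.s true (nat_lit 3) (nat_lit 59) (nat_lit 2) (nat_lit 2) (nat_lit 2) true (nat_lit 9) true (nat_lit 13) false (nat_lit 3) true (nat_lit 13) true (nat_lit 13) (.s true (nat_lit 2) (nat_lit 60) (nat_lit 2) (nat_lit 2) (nat_lit 2) true (nat_lit 9) true (nat_lit 13) false (nat_lit 3) true (nat_lit 13) true (nat_lit 13) (.s true (nat_lit 2) (nat_lit 61) (nat_lit 2) (nat_lit 2) (nat_lit 2) true (nat_lit 9) true (nat_lit 13) false (nat_lit 3) true (nat_lit 13) true (nat_lit 13) (.s false (nat_lit 1) (nat_lit 62) (nat_lit 2) (nat_lit 2) (nat_lit 2) true (nat_lit 9) true (nat_lit 13) false (nat_lit 3) true (nat_lit 13) true (nat_lit 13) (.s true (nat_lit 1) (nat_lit 64) (nat_lit 2) (nat_lit 2) (nat_lit 2) true (nat_lit 9) true (nat_lit 13) false (nat_lit 3) true (nat_lit 13) true (nat_lit 13) (.s true (nat_lit 1) (nat_lit 77) (nat_lit 1) (nat_lit 2) (nat_lit 2) true (nat_lit 10) true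 (nat_lit 13) false (nat_lit 4) true (nat_lit 14) true (nat_lit 13) (.s false (nat_lit 2) (nat_lit 79) (nat_lit 1) (nat_lit 2) (nat_lit 2) true (nat_lit 10) true (nat_lit 13) false (nat_lit 4) true (nat_lit 14) true (nat_lit 13) (.s false (nat_lit 2) (nat_lit 80) (nat_lit 1) (nat_lit 2) (nat_lit 2) true (nat_lit 10) true (nat_lit 13) false (nat_lit 4) true (nat_lit 14) true (nat_lit 13) (.s false (nat_lit 2) (nat_lit 77) (nat_lit 2) (nat_lit 1) (nat_lit 2) true (nat_lit 9) true (nat_lit 13) false (nat_lit 4) true (nat_lit 13) true (nat_lit 14) (.s true (nat_lit 1) (nat_lit 78) (nat_lit 2) (nat_lit 1) (nat_lit 2) true (nat_lit 9) true (nat_lit 13) false (nat_lit 4) true (nat_lit 13) true (nat_lit 14) (.s false (nat_lit 2) (nat_lit 79) (nat_lit 2) (nat_lit 1) (nat_lit 2) true (nat_lit 9) true (nat_lit 13) false (nat_lit 4) true (nat_lit 13) true (nat_lit 14) (.s false (nat_lit 2) (nat_lit 80) (nat_lit 2) (nat_lit 1)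 (nat_lit 2) true (nat_lit 9) true (nat_lit 13) false (nat_lit 4) true (nat_lit 13) true (nat_lit 14) (.s false (nat_lit 3) (nat_lit 82) (nat_lit 0) (nat_lit 2) (nat_lit 2) true (nat_lit 11) true (nat_lit 13) false (nat_lit 5) true (nat_lit 15) true (nat_lit 13) (.s true (nat_lit 1) (nat_lit 83) (nat_lit 0) (nat_lit 2) (nat_lit 2) true (nat_lit 11) true (nat_lit 13) false (nat_lit 5) true (nat_lit 15) true (nat_lit 13) (.s true (nat_lit 2) (nat_lit 84) (nat_lit 0) (nat_lit 2) (nat_lit 2) true (nat_lit 11) true (nat_lit 13) false (nat_lit 5) true (nat_lit 15) true (nat_lit 13) (.s true (nat_lit 2) (nat_lit 85) (nat_lit 0) (nat_lit 2) (nat_lit 2) true (nat_lit 11) true (nat_lit 13) false (nat_lit 5) true (nat_lit 15) true (nat_lit 13) (.s false (nat_lit 3) (nat_lit 86) (nat_lit 0) (nat_lit 2) (nat_lit 2) true (nat_lit 11) true (nat_lit 13) false (nat_lit 5) true (nat_lit 15) true (nat_lit 13) (.s true (nat_lit 1) (nat_lit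 87) (nat_lit 0) (nat_lit 2) (nat_lit 2) true (nat_lit 11) true (nat_lit 13) false (nat_lit 5) true (nat_lit 15) true (nat_lit 13) (.s false (nat_lit 3) (nat_lit 90) (nat_lit 0) (nat_lit 2) (nat_lit 2) true (nat_lit 11) true (nat_lit 13) false (nat_lit 5) true (nat_lit 15) true (nat_lit 13) (.s false (nat_lit 2) (nat_lit 91) (nat_lit 0) (nat_lit 2) (nat_lit 2) true (nat_lit 11) true (nat_lit 13) false (nat_lit 5) true (nat_lit 15) true (nat_lit 13) (.s true (nat_lit 2) (nat_lit 82) (nat_lit 2) (nat_lit 0) (nat_lit 2) true (nat_lit 9) true (nat_lit 13) false (nat_lit 5) true (nat_lit 13) true (nat_lit 15) (.s false (nat_lit 2) (nat_lit 82) (nat_lit 2) (nat_lit 2) (nat_lit 0) true (nat_lit 11) true (nat_lit 15) false (nat_lit 5) true (nat_lit 13) true (nat_lit 13) (.s true (nat_lit 3) (nat_lit 83) (nat_lit 2) (nat_lit 2) (nat_lit 0) true (nat_lit 11) true (nat_lit 15) false (nat_lit 5) true (nat_lit 13) true (nat_lit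 13) (.s true (nat_lit 1) (nat_lit 84) (nat_lit 2) (nat_lit 2) (nat_lit 0) true (nat_lit 11) true (nat_lit 15) false (nat_lit 5) true (nat_lit 13) true (nat_lit 13) (.s false (nat_lit 2) (nat_lit 85) (nat_lit 2) (nat_lit 2) (nat_lit 0) true (nat_lit 11) true (nat_lit 15) false (nat_lit 5) true (nat_lit 13) true (nat_lit 13) dC1d_i313)))))))))))))))))))))))))

noncomputable def dC1d_i315 : IL := (.s false (nat_lit 2) (nat_lit 29) (nat_lit 2) (nat_lit 1) (nat_lit 6) true (nat_lit 3) true (nat_lit 9) true (nat_lit 1) true (nat_lit 13) true (nat_lit 14) (.s false (nat_lit 2) (nat_lit 28) (nat_lit 2) (nat_lit 2) (nat_lit 5) true (nat_lit 4) true (nat_lit 10) true (nat_lit 1) true (nat_lit 13) true (nat_lit 13) (.s false (nat_lit 2) (nat_lit 29) (nat_lit 2) (nat_lit 2) (nat_lit 5) true (nat_lit 4) true (nat_lit 10) true (nat_lit 1) true (nat_lit 13) true (nat_lit 13) (.s false (nat_lit 3) (nat_lit 28) (nat_lit 2) (nat_lit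 5) (nat_lit 2) true (nat_lit 9) true (nat_lit 13) true (nat_lit 1) true (nat_lit 13) true (nat_lit 10) (.s true (nat_lit 3) (nat_lit 28) (nat_lit 5) (nat_lit 2) (nat_lit 2) true (nat_lit 4) true (nat_lit 13) true (nat_lit 1) true (nat_lit 10) true (nat_lit 13) (.s true (nat_lit 3) (nat_lit 32) (nat_lit 0) (nat_lit 6) (nat_lit 2) true (nat_lit 11) true (nat_lit 13) true (nat_lit 0) true (nat_lit 15) true (nat_lit 9) (.s true (nat_lit 1) (nat_lit 32) (nat_lit 2) (nat_lit 0) (nat_lit 6) true (nat_lit 3) true (nat_lit 9) true (nat_lit 0) true (nat_lit 13) true (nat_lit 15) (.s true (nat_lit 3) (nat_lit 31) (nat_lit 2) (nat_lit 2) (nat_lit 4) true (nat_lit 5) true (nat_lit 11) true (nat_lit 0) true (nat_lit 13) true (nat_lit 13) (.s true (nat_lit 1) (nat_lit 33) (nat_lit 2) (nat_lit 2) (nat_lit 4) true (nat_lit 5) true (nat_lit 11) true (nat_lit 0) true (nat_lit 13) true (nat_lit 13) (.s false (nat_lit 2) (nat_lit 32)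 (nat_lit 2) (nat_lit 6) (nat_lit 0) true (nat_lit 11) true (nat_lit 15) true (nat_lit 0) true (nat_lit 13) true (nat_lit 9) (.s false (nat_lit 1) (nat_lit 33) (nat_lit 2) (nat_lit 6) (nat_lit 0) true (nat_lit 11) true (nat_lit 15) true (nat_lit 0) true (nat_lit 13) true (nat_lit 9) (.s true (nat_lit 1) (nat_lit 32) (nat_lit 4) (nat_lit 2) (nat_lit 2) true (nat_lit 5) true (nat_lit 13) true (nat_lit 0) true (nat_lit 11) true (nat_lit 13) (.s true (nat_lit 3) (nat_lit 40) (nat_lit 0) (nat_lit 2) (nat_lit 5) true (nat_lit 6) true (nat_lit 10) false (nat_lit 0) true (nat_lit 15) true (nat_lit 13) (.s false (nat_lit 2) (nat_lit 42) (nat_lit 0) (nat_lit 6) (nat_lit 1) true (nat_lit 12) true (nat_lit 14) false (nat_lit 0) true (nat_lit 15) true (nat_lit 9) (.s false (nat_lit 2) (nat_lit 40) (nat_lit 1) (nat_lit 2) (nat_lit 4) true (nat_lit 6) true (nat_lit 11) false (nat_lit 0) true (nat_lit 14) true (nat_lit 13) (.s false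 (nat_lit 1) (nat_lit 40) (nat_lit 2) (nat_lit 0) (nat_lit 5) true (nat_lit 4) true (nat_lit 10) false (nat_lit 0) true (nat_lit 13) true (nat_lit 15) (.s true (nat_lit 2) (nat_lit 40) (nat_lit 2) (nat_lit 1) (nat_lit 4) true (nat_lit 5) true (nat_lit 11) false (nat_lit 0) true (nat_lit 13) true (nat_lit 14) (.s true (nat_lit 3) (nat_lit 40) (nat_lit 2) (nat_lit 5) (nat_lit 0) true (nat_lit 11) true (nat_lit 15) false (nat_lit 0) true (nat_lit 13) true (nat_lit 10) (.s true (nat_lit 1) (nat_lit 40) (nat_lit 3) (nat_lit 2) (nat_lit 2) true (nat_lit 6) true (nat_lit 13) false (nat_lit 0) true (nat_lit 12) true (nat_lit 13) (.s false (nat_lit 3) (nat_lit 42) (nat_lit 3) (nat_lit 2) (nat_lit 2) true (nat_lit 6) true (nat_lit 13) false (nat_lit 0) true (nat_lit 12) true (nat_lit 13) (.s true (nat_lit 2) (nat_lit 42) (nat_lit 4) (nat_lit 1) (nat_lit 2) true (nat_lit 5) true (nat_lit 13) false (nat_lit 0) true (nat_lit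 11) true (nat_lit 14) (.s false (nat_lit 3) (nat_lit 40) (nat_lit 5) (nat_lit 2) (nat_lit 0) true (nat_lit 6) true (nat_lit 15) false (nat_lit 0) true (nat_lit 10) true (nat_lit 13) (.s true (nat_lit 1) (nat_lit 43) (nat_lit 2) (nat_lit 4) (nat_lit 0) true (nat_lit 11) true (nat_lit 15) false (nat_lit 1) true (nat_lit 13) true (nat_lit 11) (.s false (nat_lit 1) (nat_lit 45) (nat_lit 6) (nat_lit 0) (nat_lit 0) true (nat_lit 5) true (nat_lit 15) false (nat_lit 1) true (nat_lit 9) true (nat_lit 15) (.s true (nat_lit 3) (nat_lit 46) (nat_lit 2) (nat_lit 3) (nat_lit 0) true (nat_lit 11) true (nat_lit 15) false (nat_lit 2) true (nat_lit 13) true (nat_lit 12) dC1d_i314)))))))))))))))))))))))))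

noncomputable def dC1d_i316 : IL := (.s false (nat_lit 3) (nat_lit 18) (nat_lit 1) (nat_lit 0) (nat_lit 14) true (nat_lit 0) true (nat_lit 5) true (nat_lit 3) true (nat_lit 14) true (nat_lit 15) (.s true (nat_lit 3) (nat_lit 18) (nat_lit 1) (nat_lit 4) (nat_lit 4) true (nat_lit 6) true (nat_lit 11) true (nat_lit 3) true (nat_lit 14) true (nat_lit 11) (.s true (nat_lit 1) (nat_lit 18) (nat_lit 1) (nat_lit 15) (nat_lit 0) true (nat_lit 12) true (nat_lit 15) true (nat_lit 3) true (nat_lit 14) true (nat_lit 5) (.s false (nat_lit 2) (nat_lit 18) (nat_lit 2) (nat_lit 0) (nat_lit 10) true (nat_lit 0) true (nat_lit 6) true (nat_lit 3) true (nat_lit 13) true (nat_lit 15) (.s true (nat_lit 2) (nat_lit 18) (nat_lit 2) (nat_lit 2) (nat_lit 7) true (nat_lit 2) true (nat_lit 8) true (nat_lit 3) true (nat_lit 13) true (nat_lit 13) (.s true (nat_lit 3) (nat_lit 18) (nat_lit 2) (nat_lit 3) (nat_lit 4) true (nat_lit 5) true (nat_lit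 11) true (nat_lit 3) true (nat_lit 13) true (nat_lit 12) (.s true (nat_lit 1) (nat_lit 18) (nat_lit 2) (nat_lit 11) (nat_lit 0) true (nat_lit 11) true (nat_lit 15) true (nat_lit 3) true (nat_lit 13) true (nat_lit 6) (.s false (nat_lit 2) (nat_lit 18) (nat_lit 2) (nat_lit 12) (nat_lit 0) true (nat_lit 11) true (nat_lit 15) true (nat_lit 3) true (nat_lit 13) true (nat_lit 6) (.s true (nat_lit 3) (nat_lit 18) (nat_lit 3) (nat_lit 6) (nat_lit 0) true (nat_lit 8) true (nat_lit 15) true (nat_lit 3) true (nat_lit 12) true (nat_lit 9) (.s false (nat_lit 3) (nat_lit 18) (nat_lit 4) (nat_lit 3) (nat_lit 2) true (nat_lit 5) true (nat_lit 13) true (nat_lit 3) true (nat_lit 11) true (nat_lit 12) (.s false (nat_lit 1) (nat_lit 18) (nat_lit 4) (nat_lit 4) (nat_lit 1) true (nat_lit 6) true (nat_lit 14) true (nat_lit 3) true (nat_lit 11) true (nat_lit 11) (.s true (nat_lit 3) (nat_lit 18) (nat_lit 6) (nat_lit 3) (nat_lit 0) true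 (nat_lit 5) true (nat_lit 15) true (nat_lit 3) true (nat_lit 9) true (nat_lit 12) (.s false (nat_lit 2) (nat_lit 18) (nat_lit 7) (nat_lit 2) (nat_lit 2) true (nat_lit 2) true (nat_lit 13) true (nat_lit 3) true (nat_lit 8) true (nat_lit 13) (.s false (nat_lit 3) (nat_lit 18) (nat_lit 11) (nat_lit 0) (nat_lit 2) true (nat_lit 0) true (nat_lit 13) true (nat_lit 3) true (nat_lit 6) true (nat_lit 15) (.s false (nat_lit 3) (nat_lit 18) (nat_lit 14) (nat_lit 0) (nat_lit 1) true (nat_lit 0) true (nat_lit 14) true (nat_lit 3) true (nat_lit 5) true (nat_lit 15) (.s false (nat_lit 2) (nat_lit 18) (nat_lit 15) (nat_lit 0) (nat_lit 1) true (nat_lit 0) true (nat_lit 14) true (nat_lit 3) true (nat_lit 5) true (nat_lit 15) (.s false (nat_lit 3) (nat_lit 18) (nat_lit 15) (nat_lit 1) (nat_lit 0) true (nat_lit 1) true (nat_lit 15) true (nat_lit 3) true (nat_lit 5) true (nat_lit 14) (.s true (nat_lit 2) (nat_lit 20) (nat_lit 2) (nat_lit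 2) (nat_lit 6) true (nat_lit 3) true (nat_lit 9) true (nat_lit 2) true (nat_lit 13) true (nat_lit 13) (.s true (nat_lit 2) (nat_lit 22) (nat_lit 2) (nat_lit 2) (nat_lit 6) true (nat_lit 3) true (nat_lit 9) true (nat_lit 2) true (nat_lit 13) true (nat_lit 13) (.s true (nat_lit 1) (nat_lit 23) (nat_lit 2) (nat_lit 2) (nat_lit 6) true (nat_lit 3) true (nat_lit 9) true (nat_lit 2) true (nat_lit 13) true (nat_lit 13) (.s true (nat_lit 3) (nat_lit 21) (nat_lit 2) (nat_lit 6) (nat_lit 2) true (nat_lit 9) true (nat_lit 13) true (nat_lit 2) true (nat_lit 13) true (nat_lit 9) (.s false (nat_lit 3) (nat_lit 22) (nat_lit 2) (nat_lit 6) (nat_lit 2) true (nat_lit 9) true (nat_lit 13) true (nat_lit 2) true (nat_lit 13) true (nat_lit 9) (.s true (nat_lit 3) (nat_lit 21) (nat_lit 6) (nat_lit 2) (nat_lit 2) true (nat_lit 3) true (nat_lit 13) true (nat_lit 2) true (nat_lit 9) true (nat_lit 13) (.s true (nat_lit 1) (nat_lit 22) (nat_lit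 6) (nat_lit 2) (nat_lit 2) true (nat_lit 3) true (nat_lit 13) true (nat_lit 2) true (nat_lit 9) true (nat_lit 13) (.s false (nat_lit 2) (nat_lit 28) (nat_lit 2) (nat_lit 1) (nat_lit 6) true (nat_lit 3) true (nat_lit 9) true (nat_lit 1) true (nat_lit 13) true (nat_lit 14) dC1d_i315)))))))))))))))))))))))))

noncomputable def dC1d_i317 : IL := (.e false (nat_lit 2) (nat_lit 278) (nat_lit 2) (nat_lit 13) (.e false (nat_lit 3) (nat_lit 283) (nat_lit 2) (nat_lit 13) (.e true (nat_lit 2) (nat_lit 286) (nat_lit 2) (nat_lit 13) (.e true (nat_lit 3) (nat_lit 272) (nat_lit 2) (nat_lit 13) (.e false (nat_lit 3) (nat_lit 149) (nat_lit 6) (nat_lit 9) (.e true (nat_lit 3) (nat_lit 322) (nat_lit 1) (nat_lit 14) (.e false (nat_lit 2) (nat_lit 323) (nat_lit 1) (nat_lit 14) (.e false (nat_lit 1) (nat_lit 324) (nat_lit 1) (nat_lit 14) (.e true (nat_lit 2) (nat_lit 327) (nat_lit 1) (nat_lit 14) (.e true (nat_lit 1) (nat_lit 320) (nat_lit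 1) (nat_lit 14) (.e false (nat_lit 1) (nat_lit 328) (nat_lit 0) (nat_lit 15) (.e true (nat_lit 1) (nat_lit 330) (nat_lit 0) (nat_lit 15) (.e true (nat_lit 2) (nat_lit 331) (nat_lit 0) (nat_lit 15) (.e true (nat_lit 1) (nat_lit 332) (nat_lit 0) (nat_lit 15) (.e false (nat_lit 2) (nat_lit 334) (nat_lit 0) (nat_lit 15) (.e false (nat_lit 2) (nat_lit 335) (nat_lit 0) (nat_lit 15) (.e false (nat_lit 2) (nat_lit 336) (nat_lit 0) (nat_lit 15) (.e false (nat_lit 1) (nat_lit 338) (nat_lit 0) (nat_lit 15) (.e true (nat_lit 2) (nat_lit 341) (nat_lit 0) (nat_lit 15) (.e false (nat_lit 2) (nat_lit 333) (nat_lit 0) (nat_lit 15) (.e false (nat_lit 1) (nat_lit 337) (nat_lit 0) (nat_lit 15) (.e false (nat_lit 3) (nat_lit 340) (nat_lit 0) (nat_lit 15) (.e true (nat_lit 3) (nat_lit 342) (nat_lit 0) (nat_lit 15) (.u (nat_lit 2) (.n (nat_lit 0) (nat_lit 1) (.n (nat_lit 1) (nat_lit 1) (.n (nat_lit 3) (nat_lit 1) (.p (nat_lit 4) (nat_lit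 1) (.p (nat_lit 5) (nat_lit 1) (.p (nat_lit 8) (nat_lit 3) (.n (nat_lit 9) (nat_lit 1) (.n (nat_lit 13) (nat_lit 3) (.p (nat_lit 16) (nat_lit 2) (.p (nat_lit 18) (nat_lit 2) (.n (nat_lit 19) (nat_lit 2) (.p (nat_lit 20) (nat_lit 1) (.p (nat_lit 22) (nat_lit 1) (.p (nat_lit 25) (nat_lit 1) (.n (nat_lit 27) (nat_lit 1) (.n (nat_lit 28) (nat_lit 1) (.p (nat_lit 30) (nat_lit 1) (.n (nat_lit 37) (nat_lit 1) (.n (nat_lit 39) (nat_lit 1) (.n (nat_lit 51) (nat_lit 1) (.p (nat_lit 66) (nat_lit 1) (.n (nat_lit 67) (nat_lit 2) (.n (nat_lit 68) (nat_lit 1) (.n (nat_lit 69) (nat_lit 1) (.p (nat_lit 70) (nat_lit 1) (.n (nat_lit 71) (nat_lit 1) (.n (nat_lit 72) (nat_lit 1) (.p (nat_lit 74) (nat_lit 1) (.p (nat_lit 75) (nat_lit 2) (.p (nat_lit 86) (nat_lit 1) (.p (nat_lit 87) (nat_lit 1) (.n (nat_lit 90) (nat_lit 1) (.p (nat_lit 91) (nat_lit 1) (.p (nat_lit 98) (nat_lit 1) (.n (nat_lit 99) (nat_lit 1) (.p (nat_lit 100) (nat_lit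 1) (.n (nat_lit 109) (nat_lit 1) (.p (nat_lit 111) (nat_lit 1) (.n (nat_lit 113) (nat_lit 1) (.p (nat_lit 117) (nat_lit 1) (.p (nat_lit 118) (nat_lit 1) (.p (nat_lit 125) (nat_lit 2) (.p (nat_lit 127) (nat_lit 3) (.p (nat_lit 128) (nat_lit 2) (.p (nat_lit 129) (nat_lit 1) (.n (nat_lit 130) (nat_lit 1) (.p (nat_lit 132) (nat_lit 2) (.n (nat_lit 133) (nat_lit 1) (.n (nat_lit 134) (nat_lit 2) (.p (nat_lit 140) (nat_lit 1) (.p (nat_lit 143) (nat_lit 1) (.n (nat_lit 144) (nat_lit 2) (.n (nat_lit 150) (nat_lit 1) (.p (nat_lit 152) (nat_lit 2) (.p (nat_lit 153) (nat_lit 2) (.n (nat_lit 154) (nat_lit 1) (.n (nat_lit 155) (nat_lit 1) (.n (nat_lit 156) (nat_lit 2) (.p (nat_lit 157) (nat_lit 2) (.p (nat_lit 158) (nat_lit 1) .z)))))))))))))))))))))))))))))))))))))))))))))))))))))))))))) (.u (nat_lit 2) (.p (nat_lit 159) (nat_lit 1) (.n (nat_lit 160) (nat_lit 1) (.n (nat_lit 162) (nat_lit 1) (.n (nat_lit 164) (nat_lit 1) (.p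 (nat_lit 165) (nat_lit 1) (.n (nat_lit 169) (nat_lit 1) (.n (nat_lit 170) (nat_lit 1) (.p (nat_lit 173) (nat_lit 7) (.p (nat_lit 174) (nat_lit 8) (.p (nat_lit 175) (nat_lit 7) (.p (nat_lit 177) (nat_lit 3) (.p (nat_lit 178) (nat_lit 4) (.n (nat_lit 179) (nat_lit 7) (.p (nat_lit 180) (nat_lit 7) (.n (nat_lit 181) (nat_lit 5) (.n (nat_lit 182) (nat_lit 10) (.p (nat_lit 183) (nat_lit 1) (.p (nat_lit 184) (nat_lit 6) (.p (nat_lit 185) (nat_lit 4) (.p (nat_lit 186) (nat_lit 2) (.n (nat_lit 187) (nat_lit 8) (.p (nat_lit 188) (nat_lit 2) (.n (nat_lit 189) (nat_lit 2) (.p (nat_lit 190) (nat_lit 7) (.p (nat_lit 191) (nat_lit 2) (.n (nat_lit 193) (nat_lit 8) (.p (nat_lit 194) (nat_lit 3) (.p (nat_lit 195) (nat_lit 2) (.p (nat_lit 197) (nat_lit 2) (.n (nat_lit 198) (nat_lit 4) (.n (nat_lit 199) (nat_lit 6) (.n (nat_lit 200) (nat_lit 10) (.n (nat_lit 201) (nat_lit 7) (.p (nat_lit 202) (nat_lit 1) (.p (nat_lit 203) (nat_lit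 3) (.n (nat_lit 205) (nat_lit 3) (.n (nat_lit 206) (nat_lit 2) (.n (nat_lit 208) (nat_lit 5) (.n (nat_lit 209) (nat_lit 1) (.n (nat_lit 210) (nat_lit 1) (.n (nat_lit 211) (nat_lit 2) (.p (nat_lit 212) (nat_lit 2) (.n (nat_lit 213) (nat_lit 3) (.p (nat_lit 214) (nat_lit 2) (.p (nat_lit 215) (nat_lit 5) (.p (nat_lit 216) (nat_lit 4) (.n (nat_lit 217) (nat_lit 1) (.n (nat_lit 218) (nat_lit 2) (.p (nat_lit 219) (nat_lit 3) (.p (nat_lit 220) (nat_lit 2) (.p (nat_lit 221) (nat_lit 1) (.p (nat_lit 222) (nat_lit 1) (.n (nat_lit 223) (nat_lit 3) (.p (nat_lit 224) (nat_lit 1) (.p (nat_lit 225) (nat_lit 1) (.n (nat_lit 226) (nat_lit 1) (.p (nat_lit 228) (nat_lit 1) (.n (nat_lit 229) (nat_lit 1) .z)))))))))))))))))))))))))))))))))))))))))))))))))))))))))) .nil)))))))))))))))))))))))))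

noncomputable def dC1d_i318 : IL := (.s false (nat_lit 1) (nat_lit 84) (nat_lit 2) (nat_lit 2) (nat_lit 0) true (nat_lit 11) true (nat_lit 15) false (nat_lit 5) true (nat_lit 13) true (nat_lit 13) (.s true (nat_lit 2) (nat_lit 85) (nat_lit 2) (nat_lit 2) (nat_lit 0) true (nat_lit 11) true (nat_lit 15) false (nat_lit 5) true (nat_lit 13) true (nat_lit 13) (.s true (nat_lit 3) (nat_lit 87) (nat_lit 2) (nat_lit 2) (nat_lit 0) true (nat_lit 11) true (nat_lit 15) false (nat_lit 5) true (nat_lit 13) true (nat_lit 13) (.s false (nat_lit 2) (nat_lit 88) (nat_lit 2) (nat_lit 2) (nat_lit 0) true (nat_lit 11) true (nat_lit 15) false (nat_lit 5) true (nat_lit 13) true (nat_lit 13) (.s true (nat_lit 1) (nat_lit 89) (nat_lit 2) (nat_lit 2) (nat_lit 0) true (nat_lit 11) true (nat_lit 15) false (nat_lit 5) true (nat_lit 13) true (nat_lit 13) (.s true (nat_lit 1) (nat_lit 90) (nat_lit 2) (nat_lit 2) (nat_lit 0) true (nat_lit 11)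 true (nat_lit 15) false (nat_lit 5) true (nat_lit 13) true (nat_lit 13) (.s false (nat_lit 2) (nat_lit 91) (nat_lit 2) (nat_lit 2) (nat_lit 0) true (nat_lit 11) true (nat_lit 15) false (nat_lit 5) true (nat_lit 13) true (nat_lit 13) (.s false (nat_lit 1) (nat_lit 101) (nat_lit 1) (nat_lit 0) (nat_lit 2) true (nat_lit 10) true (nat_lit 13) false (nat_lit 6) true (nat_lit 14) true (nat_lit 15) (.s false (nat_lit 3) (nat_lit 100) (nat_lit 1) (nat_lit 2) (nat_lit 0) true (nat_lit 12) true (nat_lit 15) false (nat_lit 6) true (nat_lit 14) true (nat_lit 13) (.s true (nat_lit 1) (nat_lit 98) (nat_lit 2) (nat_lit 0) (nat_lit 1) true (nat_lit 10) true (nat_lit 14) false (nat_lit 6) true (nat_lit 13) true (nat_lit 15) (.s true (nat_lit 2) (nat_lit 99) (nat_lit 2) (nat_lit 0) (nat_lit 1) true (nat_lit 10) true (nat_lit 14) false (nat_lit 6) true (nat_lit 13) true (nat_lit 15) (.s true (nat_lit 1) (nat_lit 100) (nat_lit 2) (nat_lit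 0) (nat_lit 1) true (nat_lit 10) true (nat_lit 14) false (nat_lit 6) true (nat_lit 13) true (nat_lit 15) (.s false (nat_lit 2) (nat_lit 98) (nat_lit 2) (nat_lit 1) (nat_lit 0) true (nat_lit 11) true (nat_lit 15) false (nat_lit 6) true (nat_lit 13) true (nat_lit 14) (.s true (nat_lit 3) (nat_lit 99) (nat_lit 2) (nat_lit 1) (nat_lit 0) true (nat_lit 11) true (nat_lit 15) false (nat_lit 6) true (nat_lit 13) true (nat_lit 14) (.s false (nat_lit 2) (nat_lit 106) (nat_lit 0) (nat_lit 1) (nat_lit 0) false (nat_lit 16) true (nat_lit 15) false (nat_lit 8) true (nat_lit 15) true (nat_lit 14) (.e true (nat_lit 1) (nat_lit 65) (nat_lit 18) (nat_lit 3) (.e true (nat_lit 3) (nat_lit 261) (nat_lit 2) (nat_lit 13) (.e false (nat_lit 3) (nat_lit 262) (nat_lit 2) (nat_lit 13) (.e false (nat_lit 3) (nat_lit 264) (nat_lit 2) (nat_lit 13) (.e true (nat_lit 1) (nat_lit 265) (nat_lit 2) (nat_lit 13) (.e true (nat_lit 1) (nat_lit 266)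 (nat_lit 2) (nat_lit 13) (.e false (nat_lit 1) (nat_lit 267) (nat_lit 2) (nat_lit 13) (.e true (nat_lit 2) (nat_lit 270) (nat_lit 2) (nat_lit 13) (.e true (nat_lit 2) (nat_lit 273) (nat_lit 2) (nat_lit 13) (.e true (nat_lit 1) (nat_lit 275) (nat_lit 2) (nat_lit 13) dC1d_i317)))))))))))))))))))))))))

noncomputable def dC1d_i319 : IL := (.s true (nat_lit 2) (nat_lit 40) (nat_lit 2) (nat_lit 5) (nat_lit 0) true (nat_lit 11) true (nat_lit 15) false (nat_lit 0) true (nat_lit 13) true (nat_lit 10) (.s false (nat_lit 3) (nat_lit 41) (nat_lit 3) (nat_lit 2) (nat_lit 2) true (nat_lit 6) true (nat_lit 13) false (nat_lit 0) true (nat_lit 12) true (nat_lit 13) (.s false (nat_lit 2) (nat_lit 42) (nat_lit 3) (nat_lit 2) (nat_lit 2) true (nat_lit 6) true (nat_lit 13) false (nat_lit 0) true (nat_lit 12) true (nat_lit 13) (.s false (nat_lit 2) (nat_lit 40) (nat_lit 4) (nat_lit 1) (nat_lit 2) true (nat_lit 5) true (nat_lit 13) false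 (nat_lit 0) true (nat_lit 11) true (nat_lit 14) (.s false (nat_lit 2) (nat_lit 40) (nat_lit 5) (nat_lit 2) (nat_lit 0) true (nat_lit 6) true (nat_lit 15) false (nat_lit 0) true (nat_lit 10) true (nat_lit 13) (.s false (nat_lit 2) (nat_lit 46) (nat_lit 2) (nat_lit 3) (nat_lit 0) true (nat_lit 11) true (nat_lit 15) false (nat_lit 2) true (nat_lit 13) true (nat_lit 12) (.s false (nat_lit 2) (nat_lit 46) (nat_lit 4) (nat_lit 0) (nat_lit 1) true (nat_lit 6) true (nat_lit 14) false (nat_lit 2) true (nat_lit 11) true (nat_lit 15) (.s true (nat_lit 2) (nat_lit 59) (nat_lit 2) (nat_lit 2) (nat_lit 2) true (nat_lit 9) true (nat_lit 13) false (nat_lit 3) true (nat_lit 13) true (nat_lit 13) (.s false (nat_lit 2) (nat_lit 60) (nat_lit 2) (nat_lit 2) (nat_lit 2) true (nat_lit 9) true (nat_lit 13) false (nat_lit 3) true (nat_lit 13) true (nat_lit 13) (.s false (nat_lit 2) (nat_lit 61) (nat_lit 2) (nat_lit 2) (nat_lit 2) true (nat_lit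 9) true (nat_lit 13) false (nat_lit 3) true (nat_lit 13) true (nat_lit 13) (.s true (nat_lit 1) (nat_lit 62) (nat_lit 2) (nat_lit 2) (nat_lit 2) true (nat_lit 9) true (nat_lit 13) false (nat_lit 3) true (nat_lit 13) true (nat_lit 13) (.s true (nat_lit 2) (nat_lit 64) (nat_lit 2) (nat_lit 2) (nat_lit 2) true (nat_lit 9) true (nat_lit 13) false (nat_lit 3) true (nat_lit 13) true (nat_lit 13) (.s true (nat_lit 1) (nat_lit 79) (nat_lit 1) (nat_lit 2) (nat_lit 2) true (nat_lit 10) true (nat_lit 13) false (nat_lit 4) true (nat_lit 14) true (nat_lit 13) (.s true (nat_lit 2) (nat_lit 80) (nat_lit 1) (nat_lit 2) (nat_lit 2) true (nat_lit 10) true (nat_lit 13) false (nat_lit 4) true (nat_lit 14) true (nat_lit 13) (.s false (nat_lit 1) (nat_lit 78) (nat_lit 2) (nat_lit 1) (nat_lit 2) true (nat_lit 9) true (nat_lit 13) false (nat_lit 4) true (nat_lit 13) true (nat_lit 14) (.s false (nat_lit 2) (nat_lit 83) (nat_lit 0) (nat_lit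 2) (nat_lit 2) true (nat_lit 11) true (nat_lit 13) false (nat_lit 5) true (nat_lit 15) true (nat_lit 13) (.s true (nat_lit 3) (nat_lit 84) (nat_lit 0) (nat_lit 2) (nat_lit 2) true (nat_lit 11) true (nat_lit 13) false (nat_lit 5) true (nat_lit 15) true (nat_lit 13) (.s true (nat_lit 3) (nat_lit 85) (nat_lit 0) (nat_lit 2) (nat_lit 2) true (nat_lit 11) true (nat_lit 13) false (nat_lit 5) true (nat_lit 15) true (nat_lit 13) (.s true (nat_lit 2) (nat_lit 86) (nat_lit 0) (nat_lit 2) (nat_lit 2) true (nat_lit 11) true (nat_lit 13) false (nat_lit 5) true (nat_lit 15) true (nat_lit 13) (.s true (nat_lit 3) (nat_lit 87) (nat_lit 0) (nat_lit 2) (nat_lit 2) true (nat_lit 11) true (nat_lit 13) false (nat_lit 5) true (nat_lit 15) true (nat_lit 13) (.s true (nat_lit 1) (nat_lit 88) (nat_lit 0) (nat_lit 2) (nat_lit 2) true (nat_lit 11) true (nat_lit 13) false (nat_lit 5) true (nat_lit 15) true (nat_lit 13) (.s false (nat_lit 3)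 (nat_lit 91) (nat_lit 0) (nat_lit 2) (nat_lit 2) true (nat_lit 11) true (nat_lit 13) false (nat_lit 5) true (nat_lit 15) true (nat_lit 13) (.s false (nat_lit 1) (nat_lit 92) (nat_lit 0) (nat_lit 2) (nat_lit 2) true (nat_lit 11) true (nat_lit 13) false (nat_lit 5) true (nat_lit 15) true (nat_lit 13) (.s true (nat_lit 3) (nat_lit 82) (nat_lit 2) (nat_lit 0) (nat_lit 2) true (nat_lit 9) true (nat_lit 13) false (nat_lit 5) true (nat_lit 13) true (nat_lit 15) (.s true (nat_lit 1) (nat_lit 83) (nat_lit 2) (nat_lit 0) (nat_lit 2) true (nat_lit 9) true (nat_lit 13) false (nat_lit 5) true (nat_lit 13) true (nat_lit 15) dC1d_i318)))))))))))))))))))))))))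

noncomputable def dC1d_i320 : IL := (.s true (nat_lit 1) (nat_lit 21) (nat_lit 6) (nat_lit 2) (nat_lit 2) true (nat_lit 3) true (nat_lit 13) true (nat_lit 2) true (nat_lit 9) true (nat_lit 13) (.s true (nat_lit 3) (nat_lit 22) (nat_lit 6) (nat_lit 2) (nat_lit 2) true (nat_lit 3) true (nat_lit 13) true (nat_lit 2) true (nat_lit 9) true (nat_lit 13) (.s true (nat_lit 2) (nat_lit 29) (nat_lit 1) (nat_lit 6) (nat_lit 2) true (nat_lit 10) true (nat_lit 13) true (nat_lit 1) true (nat_lit 14) true (nat_lit 9) (.s true (nat_lit 1) (nat_lit 29) (nat_lit 2) (nat_lit 1) (nat_lit 6) true (nat_lit 3) true (nat_lit 9) true (nat_lit 1) true (nat_lit 13) true (nat_lit 14) (.s false (nat_lit 1) (nat_lit 29) (nat_lit 2) (nat_lit 2) (nat_lit 5) true (nat_lit 4) true (nat_lit 10) true (nat_lit 1) true (nat_lit 13) true (nat_lit 13) (.s false (nat_lit 3) (nat_lit 32) (nat_lit 0) (nat_lit 2) (nat_lit 6) true (nat_lit 5) true (nat_lit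 9) true (nat_lit 0) true (nat_lit 15) true (nat_lit 13) (.s true (nat_lit 3) (nat_lit 33) (nat_lit 0) (nat_lit 2) (nat_lit 6) true (nat_lit 5) true (nat_lit 9) true (nat_lit 0) true (nat_lit 15) true (nat_lit 13) (.s true (nat_lit 2) (nat_lit 31) (nat_lit 0) (nat_lit 6) (nat_lit 2) true (nat_lit 11) true (nat_lit 13) true (nat_lit 0) true (nat_lit 15) true (nat_lit 9) (.s true (nat_lit 1) (nat_lit 31) (nat_lit 2) (nat_lit 0) (nat_lit 6) true (nat_lit 3) true (nat_lit 9) true (nat_lit 0) true (nat_lit 13) true (nat_lit 15) (.s false (nat_lit 2) (nat_lit 32) (nat_lit 2) (nat_lit 0) (nat_lit 6) true (nat_lit 3) true (nat_lit 9) true (nat_lit 0) true (nat_lit 13) true (nat_lit 15) (.s true (nat_lit 2) (nat_lit 31) (nat_lit 2) (nat_lit 2) (nat_lit 4) true (nat_lit 5) true (nat_lit 11) true (nat_lit 0) true (nat_lit 13) true (nat_lit 13) (.s true (nat_lit 1) (nat_lit 32) (nat_lit 2) (nat_lit 2) (nat_lit 4) true (nat_lit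 5) true (nat_lit 11) true (nat_lit 0) true (nat_lit 13) true (nat_lit 13) (.s false (nat_lit 2) (nat_lit 33) (nat_lit 2) (nat_lit 2) (nat_lit 4) true (nat_lit 5) true (nat_lit 11) true (nat_lit 0) true (nat_lit 13) true (nat_lit 13) (.s true (nat_lit 1) (nat_lit 34) (nat_lit 2) (nat_lit 2) (nat_lit 4) true (nat_lit 5) true (nat_lit 11) true (nat_lit 0) true (nat_lit 13) true (nat_lit 13) (.s false (nat_lit 3) (nat_lit 36) (nat_lit 2) (nat_lit 2) (nat_lit 4) true (nat_lit 5) true (nat_lit 11) true (nat_lit 0) true (nat_lit 13) true (nat_lit 13) (.s false (nat_lit 3) (nat_lit 32) (nat_lit 2) (nat_lit 6) (nat_lit 0) true (nat_lit 11) true (nat_lit 15) true (nat_lit 0) true (nat_lit 13) true (nat_lit 9) (.s false (nat_lit 1) (nat_lit 33) (nat_lit 2) (nat_lit 6) (nat_lit 0) true (nat_lit 11) true (nat_lit 15) true (nat_lit 0) true (nat_lit 13) true (nat_lit 9) (.s false (nat_lit 2) (nat_lit 31) (nat_lit 4) (nat_lit 2)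 (nat_lit 2) true (nat_lit 5) true (nat_lit 13) true (nat_lit 0) true (nat_lit 11) true (nat_lit 13) (.s true (nat_lit 2) (nat_lit 32) (nat_lit 4) (nat_lit 2) (nat_lit 2) true (nat_lit 5) true (nat_lit 13) true (nat_lit 0) true (nat_lit 11) true (nat_lit 13) (.s true (nat_lit 2) (nat_lit 41) (nat_lit 1) (nat_lit 2) (nat_lit 4) true (nat_lit 6) true (nat_lit 11) false (nat_lit 0) true (nat_lit 14) true (nat_lit 13) (.s true (nat_lit 2) (nat_lit 40) (nat_lit 1) (nat_lit 4) (nat_lit 2) true (nat_lit 10) true (nat_lit 13) false (nat_lit 0) true (nat_lit 14) true (nat_lit 11) (.s true (nat_lit 2) (nat_lit 40) (nat_lit 2) (nat_lit 0) (nat_lit 5) true (nat_lit 4) true (nat_lit 10) false (nat_lit 0) true (nat_lit 13) true (nat_lit 15) (.s true (nat_lit 2) (nat_lit 42) (nat_lit 2) (nat_lit 0) (nat_lit 5) true (nat_lit 4) true (nat_lit 10) false (nat_lit 0) true (nat_lit 13) true (nat_lit 15) (.s true (nat_lit 1) (nat_lit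 41) (nat_lit 2) (nat_lit 2) (nat_lit 3) true (nat_lit 6) true (nat_lit 12) false (nat_lit 0) true (nat_lit 13) true (nat_lit 13) (.s false (nat_lit 1) (nat_lit 42) (nat_lit 2) (nat_lit 4) (nat_lit 1) true (nat_lit 10) true (nat_lit 14) false (nat_lit 0) true (nat_lit 13) true (nat_lit 11) dC1d_i319)))))))))))))))))))))))))

noncomputable def dC1d_i321 : IL := (.s true (nat_lit 1) (nat_lit 18) (nat_lit 0) (nat_lit 2) (nat_lit 10) true (nat_lit 2) true (nat_lit 6) true (nat_lit 3) true (nat_lit 15) true (nat_lit 13) (.s true (nat_lit 2) (nat_lit 18) (nat_lit 0) (nat_lit 6) (nat_lit 3) true (nat_lit 8) true (nat_lit 12) true (nat_lit 3) true (nat_lit 15) true (nat_lit 9) (.s true (nat_lit 3) (nat_lit 18) (nat_lit 0) (nat_lit 14) (nat_lit 1) true (nat_lit 12) true (nat_lit 14) true (nat_lit 3) true (nat_lit 15) true (nat_lit 5) (.s true (nat_lit 2) (nat_lit 18) (nat_lit 1) (nat_lit 0) (nat_lit 14) true (nat_lit 0) true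 (nat_lit 5) true (nat_lit 3) true (nat_lit 14) true (nat_lit 15) (.s false (nat_lit 1) (nat_lit 18) (nat_lit 1) (nat_lit 15) (nat_lit 0) true (nat_lit 12) true (nat_lit 15) true (nat_lit 3) true (nat_lit 14) true (nat_lit 5) (.s true (nat_lit 3) (nat_lit 18) (nat_lit 2) (nat_lit 0) (nat_lit 10) true (nat_lit 0) true (nat_lit 6) true (nat_lit 3) true (nat_lit 13) true (nat_lit 15) (.s true (nat_lit 2) (nat_lit 18) (nat_lit 2) (nat_lit 2) (nat_lit 7) true (nat_lit 2) true (nat_lit 8) true (nat_lit 3) true (nat_lit 13) true (nat_lit 13) (.s true (nat_lit 3) (nat_lit 18) (nat_lit 2) (nat_lit 4) (nat_lit 3) true (nat_lit 6) true (nat_lit 12) true (nat_lit 3) true (nat_lit 13) true (nat_lit 11) (.s true (nat_lit 3) (nat_lit 18) (nat_lit 2) (nat_lit 10) (nat_lit 0) true (nat_lit 11) true (nat_lit 15) true (nat_lit 3) true (nat_lit 13) true (nat_lit 6) (.s true (nat_lit 2) (nat_lit 18) (nat_lit 2) (nat_lit 11) (nat_lit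 0) true (nat_lit 11) true (nat_lit 15) true (nat_lit 3) true (nat_lit 13) true (nat_lit 6) (.s false (nat_lit 1) (nat_lit 18) (nat_lit 3) (nat_lit 4) (nat_lit 2) true (nat_lit 6) true (nat_lit 13) true (nat_lit 3) true (nat_lit 12) true (nat_lit 11) (.s true (nat_lit 1) (nat_lit 18) (nat_lit 4) (nat_lit 3) (nat_lit 2) true (nat_lit 5) true (nat_lit 13) true (nat_lit 3) true (nat_lit 11) true (nat_lit 12) (.s true (nat_lit 2) (nat_lit 18) (nat_lit 6) (nat_lit 3) (nat_lit 0) true (nat_lit 5) true (nat_lit 15) true (nat_lit 3) true (nat_lit 9) true (nat_lit 12) (.s false (nat_lit 2) (nat_lit 18) (nat_lit 7) (nat_lit 2) (nat_lit 2) true (nat_lit 2) true (nat_lit 13) true (nat_lit 3) true (nat_lit 8) true (nat_lit 13) (.s false (nat_lit 2) (nat_lit 18) (nat_lit 11) (nat_lit 0) (nat_lit 2) true (nat_lit 0) true (nat_lit 13) true (nat_lit 3) true (nat_lit 6) true (nat_lit 15) (.s false (nat_lit 1) (nat_lit 18) (nat_lit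 10) (nat_lit 2) (nat_lit 0) true (nat_lit 2) true (nat_lit 15) true (nat_lit 3) true (nat_lit 6) true (nat_lit 13) (.s true (nat_lit 2) (nat_lit 18) (nat_lit 14) (nat_lit 0) (nat_lit 1) true (nat_lit 0) true (nat_lit 14) true (nat_lit 3) true (nat_lit 5) true (nat_lit 15) (.s false (nat_lit 2) (nat_lit 18) (nat_lit 15) (nat_lit 0) (nat_lit 1) true (nat_lit 0) true (nat_lit 14) true (nat_lit 3) true (nat_lit 5) true (nat_lit 15) (.s true (nat_lit 1) (nat_lit 18) (nat_lit 15) (nat_lit 1) (nat_lit 0) true (nat_lit 1) true (nat_lit 15) true (nat_lit 3) true (nat_lit 5) true (nat_lit 14) (.s false (nat_lit 2) (nat_lit 20) (nat_lit 2) (nat_lit 2) (nat_lit 6) true (nat_lit 3) true (nat_lit 9) true (nat_lit 2) true (nat_lit 13) true (nat_lit 13) (.s false (nat_lit 1) (nat_lit 21) (nat_lit 2) (nat_lit 2) (nat_lit 6) true (nat_lit 3) true (nat_lit 9) true (nat_lit 2) true (nat_lit 13) true (nat_lit 13) (.s true (nat_lit 1)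 (nat_lit 22) (nat_lit 2) (nat_lit 2) (nat_lit 6) true (nat_lit 3) true (nat_lit 9) true (nat_lit 2) true (nat_lit 13) true (nat_lit 13) (.s false (nat_lit 2) (nat_lit 23) (nat_lit 2) (nat_lit 2) (nat_lit 6) true (nat_lit 3) true (nat_lit 9) true (nat_lit 2) true (nat_lit 13) true (nat_lit 13) (.s true (nat_lit 3) (nat_lit 21) (nat_lit 2) (nat_lit 6) (nat_lit 2) true (nat_lit 9) true (nat_lit 13) true (nat_lit 2) true (nat_lit 13) true (nat_lit 9) (.s true (nat_lit 1) (nat_lit 22) (nat_lit 2) (nat_lit 6) (nat_lit 2) true (nat_lit 9) true (nat_lit 13) true (nat_lit 2) true (nat_lit 13) true (nat_lit 9) dC1d_i320)))))))))))))))))))))))))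

noncomputable def dC1d_i322 : IL := (.e false (nat_lit 3) (nat_lit 287) (nat_lit 2) (nat_lit 13) (.e false (nat_lit 3) (nat_lit 260) (nat_lit 2) (nat_lit 13) (.e true (nat_lit 1) (nat_lit 262) (nat_lit 2) (nat_lit 13) (.e false (nat_lit 2) (nat_lit 278) (nat_lit 2) (nat_lit 13) (.e true (nat_lit 3) (nat_lit 288) (nat_lit 2) (nat_lit 13) (.e true (nat_lit 1) (nat_lit 286) (nat_lit 2) (nat_lit 13) (.e true (nat_lit 1) (nat_lit 337) (nat_lit 0) (nat_lit 15) (.e true (nat_lit 1) (nat_lit 345) (nat_lit 0) (nat_lit 15) (.e false (nat_lit 1) (nat_lit 340) (nat_lit 0) (nat_lit 15) (.e true (nat_lit 2) (nat_lit 320) (nat_lit 1) (nat_lit 14) (.e true (nat_lit 3) (nat_lit 322) (nat_lit 1) (nat_lit 14) (.e true (nat_lit 3) (nat_lit 323) (nat_lit 1) (nat_lit 14) (.e false (nat_lit 1) (nat_lit 325) (nat_lit 1) (nat_lit 14) (.e true (nat_lit 3) (nat_lit 328) (nat_lit 0) (nat_lit 15) (.e true (nat_lit 2) (nat_lit 330) (nat_lit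 0) (nat_lit 15) (.e false (nat_lit 3) (nat_lit 331) (nat_lit 0) (nat_lit 15) (.e false (nat_lit 3) (nat_lit 332) (nat_lit 0) (nat_lit 15) (.e true (nat_lit 2) (nat_lit 334) (nat_lit 0) (nat_lit 15) (.e true (nat_lit 2) (nat_lit 335) (nat_lit 0) (nat_lit 15) (.e true (nat_lit 2) (nat_lit 336) (nat_lit 0) (nat_lit 15) (.e false (nat_lit 3) (nat_lit 338) (nat_lit 0) (nat_lit 15) (.e false (nat_lit 2) (nat_lit 321) (nat_lit 1) (nat_lit 14) (.e false (nat_lit 2) (nat_lit 329) (nat_lit 0) (nat_lit 15) (.e true (nat_lit 1) (nat_lit 341) (nat_lit 0) (nat_lit 15) (.u (nat_lit 2) (.n (nat_lit 0) (nat_lit 1) (.p (nat_lit 1) (nat_lit 2) (.p (nat_lit 3) (nat_lit 1) (.p (nat_lit 4) (nat_lit 1) (.n (nat_lit 5) (nat_lit 2) (.p (nat_lit 6) (nat_lit 3) (.p (nat_lit 7) (nat_lit 3) (.n (nat_lit 9) (nat_lit 1) (.p (nat_lit 10) (nat_lit 2) (.p (nat_lit 12) (nat_lit 1) (.n (nat_lit 13) (nat_lit 2) (.p (nat_lit 16) (nat_lit 2) (.n (nat_lit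 17) (nat_lit 4) (.n (nat_lit 18) (nat_lit 3) (.p (nat_lit 21) (nat_lit 1) (.n (nat_lit 24) (nat_lit 1) (.p (nat_lit 26) (nat_lit 1) (.p (nat_lit 27) (nat_lit 1) (.p (nat_lit 30) (nat_lit 1) (.p (nat_lit 33) (nat_lit 4) (.n (nat_lit 173) (nat_lit 3) (.n (nat_lit 174) (nat_lit 5) (.p (nat_lit 175) (nat_lit 1) (.p (nat_lit 177) (nat_lit 1) (.p (nat_lit 178) (nat_lit 1) (.p (nat_lit 179) (nat_lit 4) (.n (nat_lit 180) (nat_lit 2) (.p (nat_lit 181) (nat_lit 2) (.n (nat_lit 182) (nat_lit 2) (.n (nat_lit 183) (nat_lit 2) (.n (nat_lit 184) (nat_lit 5) (.p (nat_lit 187) (nat_lit 2) (.n (nat_lit 191) (nat_lit 4) (.p (nat_lit 192) (nat_lit 1) (.n (nat_lit 193) (nat_lit 2) (.n (nat_lit 198) (nat_lit 2) (.p (nat_lit 199) (nat_lit 3) (.n (nat_lit 200) (nat_lit 1) (.n (nat_lit 208) (nat_lit 1) (.p (nat_lit 213) (nat_lit 1) (.n (nat_lit 214) (nat_lit 1) (.p (nat_lit 219) (nat_lit 1) (.n (nat_lit 221) (nat_lit 1) .z)))))))))))))))))))))))))))))))))))))))))))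 .nil)))))))))))))))))))))))))

noncomputable def dC1d_i323 : IL := (.s true (nat_lit 1) (nat_lit 18) (nat_lit 2) (nat_lit 11) (nat_lit 0) true (nat_lit 11) true (nat_lit 15) true (nat_lit 3) true (nat_lit 13) true (nat_lit 6) (.s true (nat_lit 1) (nat_lit 32) (nat_lit 0) (nat_lit 2) (nat_lit 6) true (nat_lit 5) true (nat_lit 9) true (nat_lit 0) true (nat_lit 15) true (nat_lit 13) (.s false (nat_lit 2) (nat_lit 32) (nat_lit 0) (nat_lit 6) (nat_lit 2) true (nat_lit 11) true (nat_lit 13) true (nat_lit 0) true (nat_lit 15) true (nat_lit 9) (.s false (nat_lit 2) (nat_lit 32) (nat_lit 2) (nat_lit 0) (nat_lit 6) true (nat_lit 3) true (nat_lit 9) true (nat_lit 0) true (nat_lit 13) true (nat_lit 15) (.s false (nat_lit 3) (nat_lit 32) (nat_lit 2) (nat_lit 2) (nat_lit 4) true (nat_lit 5) true (nat_lit 11) true (nat_lit 0) true (nat_lit 13) true (nat_lit 13) (.s false (nat_lit 1) (nat_lit 32) (nat_lit 4) (nat_lit 2) (nat_lit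 2) true (nat_lit 5) true (nat_lit 13) true (nat_lit 0) true (nat_lit 11) true (nat_lit 13) (.s false (nat_lit 1) (nat_lit 63) (nat_lit 2) (nat_lit 2) (nat_lit 2) true (nat_lit 9) true (nat_lit 13) false (nat_lit 3) true (nat_lit 13) true (nat_lit 13) (.s true (nat_lit 3) (nat_lit 83) (nat_lit 0) (nat_lit 2) (nat_lit 2) true (nat_lit 11) true (nat_lit 13) false (nat_lit 5) true (nat_lit 15) true (nat_lit 13) (.s true (nat_lit 1) (nat_lit 91) (nat_lit 2) (nat_lit 2) (nat_lit 0) true (nat_lit 11) true (nat_lit 15) false (nat_lit 5) true (nat_lit 13) true (nat_lit 13) (.s false (nat_lit 1) (nat_lit 99) (nat_lit 0) (nat_lit 2) (nat_lit 1) true (nat_lit 12) true (nat_lit 14) false (nat_lit 6) true (nat_lit 15) true (nat_lit 13) (.s false (nat_lit 1) (nat_lit 100) (nat_lit 0) (nat_lit 2) (nat_lit 1) true (nat_lit 12) true (nat_lit 14) false (nat_lit 6) true (nat_lit 15) true (nat_lit 13) (.s true (nat_lit 1) (nat_lit 101)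 (nat_lit 0) (nat_lit 2) (nat_lit 1) true (nat_lit 12) true (nat_lit 14) false (nat_lit 6) true (nat_lit 15) true (nat_lit 13) (.e true (nat_lit 1) (nat_lit 261) (nat_lit 2) (nat_lit 13) (.e true (nat_lit 1) (nat_lit 263) (nat_lit 2) (nat_lit 13) (.e false (nat_lit 3) (nat_lit 264) (nat_lit 2) (nat_lit 13) (.e true (nat_lit 2) (nat_lit 265) (nat_lit 2) (nat_lit 13) (.e true (nat_lit 3) (nat_lit 266) (nat_lit 2) (nat_lit 13) (.e true (nat_lit 2) (nat_lit 267) (nat_lit 2) (nat_lit 13) (.e true (nat_lit 1) (nat_lit 268) (nat_lit 2) (nat_lit 13) (.e false (nat_lit 3) (nat_lit 270) (nat_lit 2) (nat_lit 13) (.e true (nat_lit 2) (nat_lit 271) (nat_lit 2) (nat_lit 13) (.e true (nat_lit 1) (nat_lit 273) (nat_lit 2) (nat_lit 13) (.e true (nat_lit 3) (nat_lit 274) (nat_lit 2) (nat_lit 13) (.e false (nat_lit 2) (nat_lit 277) (nat_lit 2) (nat_lit 13) (.e false (nat_lit 2) (nat_lit 279) (nat_lit 2) (nat_lit 13) dC1d_i322)))))))))))))))))))))))))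

noncomputable def dC1d_i324 : IL := (.e true (nat_lit 2) (nat_lit 321) (nat_lit 1) (nat_lit 14) (.e true (nat_lit 3) (nat_lit 322) (nat_lit 1) (nat_lit 14) (.e false (nat_lit 1) (nat_lit 65) (nat_lit 18) (nat_lit 3) (.e false (nat_lit 1) (nat_lit 262) (nat_lit 2) (nat_lit 13) (.e false (nat_lit 2) (nat_lit 267) (nat_lit 2) (nat_lit 13) (.e true (nat_lit 1) (nat_lit 149) (nat_lit 6) (nat_lit 9) (.e false (nat_lit 3) (nat_lit 327) (nat_lit 1) (nat_lit 14) (.e true (nat_lit 1) (nat_lit 283) (nat_lit 2) (nat_lit 13) (.e true (nat_lit 2) (nat_lit 275) (nat_lit 2) (nat_lit 13) (.e false (nat_lit 3) (nat_lit 328) (nat_lit 0) (nat_lit 15) (.e false (nat_lit 1) (nat_lit 329) (nat_lit 0) (nat_lit 15) (.e false (nat_lit 2) (nat_lit 330) (nat_lit 0) (nat_lit 15) (.e true (nat_lit 2) (nat_lit 331) (nat_lit 0) (nat_lit 15) (.e false (nat_lit 2) (nat_lit 332) (nat_lit 0) (nat_lit 15) (.e true (nat_lit 1) (nat_lit 333) (nat_lit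 0) (nat_lit 15) (.e true (nat_lit 1) (nat_lit 334) (nat_lit 0) (nat_lit 15) (.e true (nat_lit 1) (nat_lit 335) (nat_lit 0) (nat_lit 15) (.e true (nat_lit 1) (nat_lit 337) (nat_lit 0) (nat_lit 15) (.e false (nat_lit 2) (nat_lit 338) (nat_lit 0) (nat_lit 15) (.e false (nat_lit 2) (nat_lit 345) (nat_lit 0) (nat_lit 15) (.e true (nat_lit 3) (nat_lit 340) (nat_lit 0) (nat_lit 15) (.e true (nat_lit 1) (nat_lit 341) (nat_lit 0) (nat_lit 15) (.e false (nat_lit 1) (nat_lit 342) (nat_lit 0) (nat_lit 15) (.u (nat_lit 2) (.p (nat_lit 0) (nat_lit 1) (.n (nat_lit 1) (nat_lit 1) (.p (nat_lit 2) (nat_lit 1) (.n (nat_lit 5) (nat_lit 1) (.n (nat_lit 6) (nat_lit 1) (.n (nat_lit 7) (nat_lit 1) (.n (nat_lit 8) (nat_lit 1) (.n (nat_lit 10) (nat_lit 1) (.n (nat_lit 12) (nat_lit 1) (.n (nat_lit 17) (nat_lit 1) (.n (nat_lit 30) (nat_lit 1) (.p (nat_lit 36) (nat_lit 1) (.n (nat_lit 37) (nat_lit 1) (.p (nat_lit 39) (nat_lit 1) (.n (nat_lit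 42) (nat_lit 1) (.p (nat_lit 45) (nat_lit 1) (.n (nat_lit 62) (nat_lit 1) (.p (nat_lit 65) (nat_lit 2) (.n (nat_lit 66) (nat_lit 3) (.p (nat_lit 67) (nat_lit 1) (.p (nat_lit 68) (nat_lit 3) (.p (nat_lit 69) (nat_lit 1) (.n (nat_lit 70) (nat_lit 1) (.p (nat_lit 71) (nat_lit 2) (.p (nat_lit 72) (nat_lit 1) (.n (nat_lit 74) (nat_lit 1) (.n (nat_lit 75) (nat_lit 1) (.n (nat_lit 76) (nat_lit 1) (.n (nat_lit 77) (nat_lit 1) (.p (nat_lit 80) (nat_lit 1) (.n (nat_lit 86) (nat_lit 1) (.n (nat_lit 87) (nat_lit 1) (.p (nat_lit 88) (nat_lit 2) (.n (nat_lit 89) (nat_lit 1) (.p (nat_lit 91) (nat_lit 1) (.n (nat_lit 92) (nat_lit 1) (.p (nat_lit 95) (nat_lit 1) (.n (nat_lit 96) (nat_lit 1) (.n (nat_lit 99) (nat_lit 1) (.n (nat_lit 109) (nat_lit 1) (.p (nat_lit 111) (nat_lit 1) (.p (nat_lit 126) (nat_lit 2) (.p (nat_lit 127) (nat_lit 1) (.n (nat_lit 131) (nat_lit 3) (.p (nat_lit 132) (nat_lit 1) (.n (nat_lit 133) (nat_lit 1) (.p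 (nat_lit 134) (nat_lit 1) (.n (nat_lit 135) (nat_lit 1) (.n (nat_lit 142) (nat_lit 1) (.n (nat_lit 144) (nat_lit 2) (.n (nat_lit 146) (nat_lit 1) (.p (nat_lit 147) (nat_lit 3) (.p (nat_lit 148) (nat_lit 3) (.p (nat_lit 150) (nat_lit 1) (.n (nat_lit 153) (nat_lit 1) (.p (nat_lit 154) (nat_lit 1) (.n (nat_lit 157) (nat_lit 1) (.n (nat_lit 159) (nat_lit 1) (.p (nat_lit 162) (nat_lit 1) (.n (nat_lit 173) (nat_lit 17) .z)))))))))))))))))))))))))))))))))))))))))))))))))))))))))))) (.u (nat_lit 2) (.n (nat_lit 174) (nat_lit 12) (.p (nat_lit 176) (nat_lit 20) (.n (nat_lit 177) (nat_lit 5) (.n (nat_lit 178) (nat_lit 3) (.p (nat_lit 179) (nat_lit 27) (.n (nat_lit 180) (nat_lit 11) (.p (nat_lit 181) (nat_lit 10) (.p (nat_lit 182) (nat_lit 8) (.p (nat_lit 183) (nat_lit 12) (.n (nat_lit 184) (nat_lit 13) (.n (nat_lit 185) (nat_lit 7) (.p (nat_lit 186) (nat_lit 1) (.p (nat_lit 188) (nat_lit 2) (.n (nat_lit 189) (nat_lit 3) (.n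 (nat_lit 190) (nat_lit 5) (.n (nat_lit 191) (nat_lit 6) (.p (nat_lit 192) (nat_lit 5) (.n (nat_lit 193) (nat_lit 6) (.n (nat_lit 194) (nat_lit 6) (.n (nat_lit 196) (nat_lit 2) (.p (nat_lit 197) (nat_lit 7) (.n (nat_lit 198) (nat_lit 6) (.p (nat_lit 199) (nat_lit 8) (.p (nat_lit 200) (nat_lit 1) (.n (nat_lit 201) (nat_lit 8) (.p (nat_lit 203) (nat_lit 3) (.n (nat_lit 204) (nat_lit 4) (.n (nat_lit 205) (nat_lit 2) (.n (nat_lit 206) (nat_lit 3) (.p (nat_lit 207) (nat_lit 1) (.p (nat_lit 208) (nat_lit 3) (.n (nat_lit 210) (nat_lit 1) (.p (nat_lit 211) (nat_lit 7) (.p (nat_lit 213) (nat_lit 3) (.n (nat_lit 214) (nat_lit 6) (.n (nat_lit 215) (nat_lit 6) (.n (nat_lit 216) (nat_lit 3) (.p (nat_lit 217) (nat_lit 3) (.p (nat_lit 218) (nat_lit 5) (.p (nat_lit 219) (nat_lit 3) (.p (nat_lit 220) (nat_lit 2) (.n (nat_lit 221) (nat_lit 3) (.n (nat_lit 223) (nat_lit 1) (.p (nat_lit 224) (nat_lit 2) (.n (nat_lit 225) (nat_lit 1)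 (.n (nat_lit 229) (nat_lit 1) .z)))))))))))))))))))))))))))))))))))))))))))))) .nil)))))))))))))))))))))))))

noncomputable def dC1d_i325 : IL := (.s false (nat_lit 3) (nat_lit 84) (nat_lit 0) (nat_lit 2) (nat_lit 2) true (nat_lit 11) true (nat_lit 13) false (nat_lit 5) true (nat_lit 15) true (nat_lit 13) (.s false (nat_lit 1) (nat_lit 85) (nat_lit 0) (nat_lit 2) (nat_lit 2) true (nat_lit 11) true (nat_lit 13) false (nat_lit 5) true (nat_lit 15) true (nat_lit 13) (.s true (nat_lit 2) (nat_lit 87) (nat_lit 0) (nat_lit 2) (nat_lit 2) true (nat_lit 11) true (nat_lit 13) false (nat_lit 5) true (nat_lit 15) true (nat_lit 13) (.s true (nat_lit 3) (nat_lit 89) (nat_lit 0) (nat_lit 2) (nat_lit 2) true (nat_lit 11) true (nat_lit 13) false (nat_lit 5) true (nat_lit 15) true (nat_lit 13) (.s true (nat_lit 3) (nat_lit 90) (nat_lit 0) (nat_lit 2) (nat_lit 2) true (nat_lit 11) true (nat_lit 13) false (nat_lit 5) true (nat_lit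 15) true (nat_lit 13) (.s false (nat_lit 1) (nat_lit 91) (nat_lit 0) (nat_lit 2) (nat_lit 2) true (nat_lit 11) true (nat_lit 13) false (nat_lit 5) true (nat_lit 15) true (nat_lit 13) (.s true (nat_lit 3) (nat_lit 92) (nat_lit 0) (nat_lit 2) (nat_lit 2) true (nat_lit 11) true (nat_lit 13) false (nat_lit 5) true (nat_lit 15) true (nat_lit 13) (.s false (nat_lit 2) (nat_lit 82) (nat_lit 2) (nat_lit 0) (nat_lit 2) true (nat_lit 9) true (nat_lit 13) false (nat_lit 5) true (nat_lit 13) true (nat_lit 15) (.s true (nat_lit 2) (nat_lit 83) (nat_lit 2) (nat_lit 0) (nat_lit 2) true (nat_lit 9) true (nat_lit 13) false (nat_lit 5) true (nat_lit 13) true (nat_lit 15) (.s false (nat_lit 1) (nat_lit 85) (nat_lit 2) (nat_lit 2) (nat_lit 0) true (nat_lit 11) true (nat_lit 15) false (nat_lit 5) true (nat_lit 13) true (nat_lit 13) (.s false (nat_lit 1) (nat_lit 86) (nat_lit 2) (nat_lit 2) (nat_lit 0) true (nat_lit 11) true (nat_lit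 15) false (nat_lit 5) true (nat_lit 13) true (nat_lit 13) (.s true (nat_lit 3) (nat_lit 87) (nat_lit 2) (nat_lit 2) (nat_lit 0) true (nat_lit 11) true (nat_lit 15) false (nat_lit 5) true (nat_lit 13) true (nat_lit 13) (.s false (nat_lit 1) (nat_lit 88) (nat_lit 2) (nat_lit 2) (nat_lit 0) true (nat_lit 11) true (nat_lit 15) false (nat_lit 5) true (nat_lit 13) true (nat_lit 13) (.s true (nat_lit 1) (nat_lit 91) (nat_lit 2) (nat_lit 2) (nat_lit 0) true (nat_lit 11) true (nat_lit 15) false (nat_lit 5) true (nat_lit 13) true (nat_lit 13) (.s false (nat_lit 2) (nat_lit 92) (nat_lit 2) (nat_lit 2) (nat_lit 0) true (nat_lit 11) true (nat_lit 15) false (nat_lit 5) true (nat_lit 13) true (nat_lit 13) (.s false (nat_lit 2) (nat_lit 98) (nat_lit 1) (nat_lit 0) (nat_lit 2) true (nat_lit 10) true (nat_lit 13) false (nat_lit 6) true (nat_lit 14) true (nat_lit 15) (.s true (nat_lit 1) (nat_lit 100) (nat_lit 1) (nat_lit 0) (nat_lit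 2) true (nat_lit 10) true (nat_lit 13) false (nat_lit 6) true (nat_lit 14) true (nat_lit 15) (.s true (nat_lit 1) (nat_lit 100) (nat_lit 1) (nat_lit 2) (nat_lit 0) true (nat_lit 12) true (nat_lit 15) false (nat_lit 6) true (nat_lit 14) true (nat_lit 13) (.s true (nat_lit 1) (nat_lit 98) (nat_lit 2) (nat_lit 0) (nat_lit 1) true (nat_lit 10) true (nat_lit 14) false (nat_lit 6) true (nat_lit 13) true (nat_lit 15) (.s true (nat_lit 2) (nat_lit 100) (nat_lit 2) (nat_lit 0) (nat_lit 1) true (nat_lit 10) true (nat_lit 14) false (nat_lit 6) true (nat_lit 13) true (nat_lit 15) (.s false (nat_lit 2) (nat_lit 101) (nat_lit 2) (nat_lit 0) (nat_lit 1) true (nat_lit 10) true (nat_lit 14) false (nat_lit 6) true (nat_lit 13) true (nat_lit 15) (.s false (nat_lit 2) (nat_lit 105) (nat_lit 0) (nat_lit 0) (nat_lit 2) true (nat_lit 11) true (nat_lit 13) false (nat_lit 7) true (nat_lit 15) true (nat_lit 15) (.s false (nat_lit 1) (nat_lit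 104) (nat_lit 0) (nat_lit 2) (nat_lit 0) false (nat_lit 16) true (nat_lit 15) false (nat_lit 7) true (nat_lit 15) true (nat_lit 13) (.s false (nat_lit 1) (nat_lit 106) (nat_lit 0) (nat_lit 1) (nat_lit 0) false (nat_lit 16) true (nat_lit 15) false (nat_lit 8) true (nat_lit 15) true (nat_lit 14) (.e false (nat_lit 3) (nat_lit 142) (nat_lit 6) (nat_lit 9) dC1d_i324)))))))))))))))))))))))))

noncomputable def dC1d_i326 : IL := (.s false (nat_lit 2) (nat_lit 40) (nat_lit 2) (nat_lit 5) (nat_lit 0) true (nat_lit 11) true (nat_lit 15) false (nat_lit 0) true (nat_lit 13) true (nat_lit 10) (.s true (nat_lit 1) (nat_lit 42) (nat_lit 3) (nat_lit 2) (nat_lit 2) true (nat_lit 6) true (nat_lit 13) false (nat_lit 0) true (nat_lit 12) true (nat_lit 13) (.s false (nat_lit 1) (nat_lit 40) (nat_lit 4) (nat_lit 1) (nat_lit 2) true (nat_lit 5) true (nat_lit 13) false (nat_lit 0) true (nat_lit 11) true (nat_lit 14) (.s false (nat_lit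 3) (nat_lit 42) (nat_lit 5) (nat_lit 0) (nat_lit 2) true (nat_lit 4) true (nat_lit 13) false (nat_lit 0) true (nat_lit 10) true (nat_lit 15) (.s true (nat_lit 2) (nat_lit 40) (nat_lit 5) (nat_lit 2) (nat_lit 0) true (nat_lit 6) true (nat_lit 15) false (nat_lit 0) true (nat_lit 10) true (nat_lit 13) (.s false (nat_lit 2) (nat_lit 45) (nat_lit 6) (nat_lit 0) (nat_lit 0) true (nat_lit 5) true (nat_lit 15) false (nat_lit 1) true (nat_lit 9) true (nat_lit 15) (.s true (nat_lit 1) (nat_lit 46) (nat_lit 0) (nat_lit 0) (nat_lit 5) true (nat_lit 6) true (nat_lit 10) false (nat_lit 2) true (nat_lit 15) true (nat_lit 15) (.s true (nat_lit 1) (nat_lit 46) (nat_lit 2) (nat_lit 3) (nat_lit 0) true (nat_lit 11) true (nat_lit 15) false (nat_lit 2) true (nat_lit 13) true (nat_lit 12) (.s false (nat_lit 1) (nat_lit 46) (nat_lit 4) (nat_lit 0) (nat_lit 1) true (nat_lit 6) true (nat_lit 14) false (nat_lit 2) true (nat_lit 11) true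 (nat_lit 15) (.s false (nat_lit 2) (nat_lit 59) (nat_lit 2) (nat_lit 2) (nat_lit 2) true (nat_lit 9) true (nat_lit 13) false (nat_lit 3) true (nat_lit 13) true (nat_lit 13) (.s false (nat_lit 1) (nat_lit 60) (nat_lit 2) (nat_lit 2) (nat_lit 2) true (nat_lit 9) true (nat_lit 13) false (nat_lit 3) true (nat_lit 13) true (nat_lit 13) (.s true (nat_lit 3) (nat_lit 61) (nat_lit 2) (nat_lit 2) (nat_lit 2) true (nat_lit 9) true (nat_lit 13) false (nat_lit 3) true (nat_lit 13) true (nat_lit 13) (.s false (nat_lit 3) (nat_lit 62) (nat_lit 2) (nat_lit 2) (nat_lit 2) true (nat_lit 9) true (nat_lit 13) false (nat_lit 3) true (nat_lit 13) true (nat_lit 13) (.s false (nat_lit 1) (nat_lit 63) (nat_lit 2) (nat_lit 2) (nat_lit 2) true (nat_lit 9) true (nat_lit 13) false (nat_lit 3) true (nat_lit 13) true (nat_lit 13) (.s false (nat_lit 3) (nat_lit 64) (nat_lit 2) (nat_lit 2) (nat_lit 2) true (nat_lit 9) true (nat_lit 13) false (nat_lit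 3) true (nat_lit 13) true (nat_lit 13) (.s true (nat_lit 1) (nat_lit 78) (nat_lit 1) (nat_lit 2) (nat_lit 2) true (nat_lit 10) true (nat_lit 13) false (nat_lit 4) true (nat_lit 14) true (nat_lit 13) (.s false (nat_lit 1) (nat_lit 79) (nat_lit 1) (nat_lit 2) (nat_lit 2) true (nat_lit 10) true (nat_lit 13) false (nat_lit 4) true (nat_lit 14) true (nat_lit 13) (.s false (nat_lit 2) (nat_lit 80) (nat_lit 1) (nat_lit 2) (nat_lit 2) true (nat_lit 10) true (nat_lit 13) false (nat_lit 4) true (nat_lit 14) true (nat_lit 13) (.s false (nat_lit 1) (nat_lit 81) (nat_lit 1) (nat_lit 2) (nat_lit 2) true (nat_lit 10) true (nat_lit 13) false (nat_lit 4) true (nat_lit 14) true (nat_lit 13) (.s true (nat_lit 2) (nat_lit 77) (nat_lit 2) (nat_lit 1) (nat_lit 2) true (nat_lit 9) true (nat_lit 13) false (nat_lit 4) true (nat_lit 13) true (nat_lit 14) (.s false (nat_lit 1) (nat_lit 78) (nat_lit 2) (nat_lit 1) (nat_lit 2) true (nat_lit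 9) true (nat_lit 13) false (nat_lit 4) true (nat_lit 13) true (nat_lit 14) (.s false (nat_lit 1) (nat_lit 79) (nat_lit 2) (nat_lit 1) (nat_lit 2) true (nat_lit 9) true (nat_lit 13) false (nat_lit 4) true (nat_lit 13) true (nat_lit 14) (.s true (nat_lit 1) (nat_lit 80) (nat_lit 2) (nat_lit 1) (nat_lit 2) true (nat_lit 9) true (nat_lit 13) false (nat_lit 4) true (nat_lit 13) true (nat_lit 14) (.s true (nat_lit 2) (nat_lit 82) (nat_lit 0) (nat_lit 2) (nat_lit 2) true (nat_lit 11) true (nat_lit 13) false (nat_lit 5) true (nat_lit 15) true (nat_lit 13) (.s false (nat_lit 1) (nat_lit 83) (nat_lit 0) (nat_lit 2) (nat_lit 2) true (nat_lit 11) true (nat_lit 13) false (nat_lit 5) true (nat_lit 15) true (nat_lit 13) dC1d_i325)))))))))))))))))))))))))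

noncomputable def dC1d_i327 : IL := (.s false (nat_lit 2) (nat_lit 22) (nat_lit 6) (nat_lit 2) (nat_lit 2) true (nat_lit 3) true (nat_lit 13) true (nat_lit 2) true (nat_lit 9) true (nat_lit 13) (.s true (nat_lit 2) (nat_lit 29) (nat_lit 1) (nat_lit 2) (nat_lit 6) true (nat_lit 4) true (nat_lit 9) true (nat_lit 1) true (nat_lit 14) true (nat_lit 13) (.s true (nat_lit 2) (nat_lit 29) (nat_lit 1) (nat_lit 6) (nat_lit 2) true (nat_lit 10) true (nat_lit 13) true (nat_lit 1) true (nat_lit 14) true (nat_lit 9) (.s true (nat_lit 2) (nat_lit 28) (nat_lit 2) (nat_lit 1) (nat_lit 6) true (nat_lit 3) true (nat_lit 9) true (nat_lit 1) true (nat_lit 13) true (nat_lit 14) (.s true (nat_lit 3) (nat_lit 29) (nat_lit 2) (nat_lit 1) (nat_lit 6) true (nat_lit 3) true (nat_lit 9) true (nat_lit 1) true (nat_lit 13) true (nat_lit 14) (.s true (nat_lit 2) (nat_lit 28) (nat_lit 2) (nat_lit 2) (nat_lit 5) true (nat_lit 4) true (nat_lit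 10) true (nat_lit 1) true (nat_lit 13) true (nat_lit 13) (.s false (nat_lit 1) (nat_lit 29) (nat_lit 2) (nat_lit 2) (nat_lit 5) true (nat_lit 4) true (nat_lit 10) true (nat_lit 1) true (nat_lit 13) true (nat_lit 13) (.s false (nat_lit 1) (nat_lit 28) (nat_lit 2) (nat_lit 5) (nat_lit 2) true (nat_lit 9) true (nat_lit 13) true (nat_lit 1) true (nat_lit 13) true (nat_lit 10) (.s true (nat_lit 1) (nat_lit 28) (nat_lit 5) (nat_lit 2) (nat_lit 2) true (nat_lit 4) true (nat_lit 13) true (nat_lit 1) true (nat_lit 10) true (nat_lit 13) (.s true (nat_lit 1) (nat_lit 31) (nat_lit 0) (nat_lit 2) (nat_lit 6) true (nat_lit 5) true (nat_lit 9) true (nat_lit 0) true (nat_lit 15) true (nat_lit 13) (.s true (nat_lit 2) (nat_lit 32) (nat_lit 0) (nat_lit 2) (nat_lit 6) true (nat_lit 5) true (nat_lit 9) true (nat_lit 0) true (nat_lit 15) true (nat_lit 13) (.s true (nat_lit 3) (nat_lit 33) (nat_lit 0) (nat_lit 2) (nat_lit 6) true (nat_lit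 5) true (nat_lit 9) true (nat_lit 0) true (nat_lit 15) true (nat_lit 13) (.s true (nat_lit 1) (nat_lit 31) (nat_lit 0) (nat_lit 6) (nat_lit 2) true (nat_lit 11) true (nat_lit 13) true (nat_lit 0) true (nat_lit 15) true (nat_lit 9) (.s false (nat_lit 3) (nat_lit 32) (nat_lit 0) (nat_lit 6) (nat_lit 2) true (nat_lit 11) true (nat_lit 13) true (nat_lit 0) true (nat_lit 15) true (nat_lit 9) (.s false (nat_lit 1) (nat_lit 31) (nat_lit 2) (nat_lit 0) (nat_lit 6) true (nat_lit 3) true (nat_lit 9) true (nat_lit 0) true (nat_lit 13) true (nat_lit 15) (.s true (nat_lit 3) (nat_lit 32) (nat_lit 2) (nat_lit 0) (nat_lit 6) true (nat_lit 3) true (nat_lit 9) true (nat_lit 0) true (nat_lit 13) true (nat_lit 15) (.s false (nat_lit 1) (nat_lit 31) (nat_lit 2) (nat_lit 2) (nat_lit 4) true (nat_lit 5) true (nat_lit 11) true (nat_lit 0) true (nat_lit 13) true (nat_lit 13) (.s true (nat_lit 2) (nat_lit 32) (nat_lit 2) (nat_lit 2) (nat_lit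 4) true (nat_lit 5) true (nat_lit 11) true (nat_lit 0) true (nat_lit 13) true (nat_lit 13) (.s false (nat_lit 3) (nat_lit 33) (nat_lit 2) (nat_lit 2) (nat_lit 4) true (nat_lit 5) true (nat_lit 11) true (nat_lit 0) true (nat_lit 13) true (nat_lit 13) (.s false (nat_lit 1) (nat_lit 33) (nat_lit 2) (nat_lit 6) (nat_lit 0) true (nat_lit 11) true (nat_lit 15) true (nat_lit 0) true (nat_lit 13) true (nat_lit 9) (.s false (nat_lit 2) (nat_lit 40) (nat_lit 0) (nat_lit 2) (nat_lit 5) true (nat_lit 6) true (nat_lit 10) false (nat_lit 0) true (nat_lit 15) true (nat_lit 13) (.s false (nat_lit 2) (nat_lit 40) (nat_lit 1) (nat_lit 2) (nat_lit 4) true (nat_lit 6) true (nat_lit 11) false (nat_lit 0) true (nat_lit 14) true (nat_lit 13) (.s false (nat_lit 3) (nat_lit 40) (nat_lit 2) (nat_lit 0) (nat_lit 5) true (nat_lit 4) true (nat_lit 10) false (nat_lit 0) true (nat_lit 13) true (nat_lit 15) (.s false (nat_lit 3) (nat_lit 42) (nat_lit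 2) (nat_lit 0) (nat_lit 5) true (nat_lit 4) true (nat_lit 10) false (nat_lit 0) true (nat_lit 13) true (nat_lit 15) (.s false (nat_lit 1) (nat_lit 40) (nat_lit 2) (nat_lit 1) (nat_lit 4) true (nat_lit 5) true (nat_lit 11) false (nat_lit 0) true (nat_lit 13) true (nat_lit 14) dC1d_i326)))))))))))))))))))))))))

noncomputable def dC1d_i328 : IL := (.s false (nat_lit 2) (nat_lit 18) (nat_lit 0) (nat_lit 11) (nat_lit 2) true (nat_lit 11) true (nat_lit 13) true (nat_lit 3) true (nat_lit 15) true (nat_lit 6) (.s true (nat_lit 1) (nat_lit 18) (nat_lit 0) (nat_lit 14) (nat_lit 1) true (nat_lit 12) true (nat_lit 14) true (nat_lit 3) true (nat_lit 15) true (nat_lit 5) (.s false (nat_lit 3) (nat_lit 18) (nat_lit 1) (nat_lit 0) (nat_lit 14) true (nat_lit 0) true (nat_lit 5) true (nat_lit 3) true (nat_lit 14) true (nat_lit 15) (.s false (nat_lit 1) (nat_lit 18) (nat_lit 1) (nat_lit 2) (nat_lit 9) true (nat_lit 2) true (nat_lit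 7) true (nat_lit 3) true (nat_lit 14) true (nat_lit 13) (.s true (nat_lit 2) (nat_lit 18) (nat_lit 2) (nat_lit 0) (nat_lit 10) true (nat_lit 0) true (nat_lit 6) true (nat_lit 3) true (nat_lit 13) true (nat_lit 15) (.s false (nat_lit 2) (nat_lit 18) (nat_lit 2) (nat_lit 3) (nat_lit 4) true (nat_lit 5) true (nat_lit 11) true (nat_lit 3) true (nat_lit 13) true (nat_lit 12) (.s true (nat_lit 1) (nat_lit 18) (nat_lit 2) (nat_lit 7) (nat_lit 2) true (nat_lit 9) true (nat_lit 13) true (nat_lit 3) true (nat_lit 13) true (nat_lit 8) (.s false (nat_lit 2) (nat_lit 18) (nat_lit 2) (nat_lit 9) (nat_lit 1) true (nat_lit 10) true (nat_lit 14) true (nat_lit 3) true (nat_lit 13) true (nat_lit 7) (.s true (nat_lit 1) (nat_lit 18) (nat_lit 2) (nat_lit 10) (nat_lit 0) true (nat_lit 11) true (nat_lit 15) true (nat_lit 3) true (nat_lit 13) true (nat_lit 6) (.s true (nat_lit 3) (nat_lit 18) (nat_lit 3) (nat_lit 4) (nat_lit 2) true (nat_lit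 6) true (nat_lit 13) true (nat_lit 3) true (nat_lit 12) true (nat_lit 11) (.s false (nat_lit 1) (nat_lit 18) (nat_lit 4) (nat_lit 2) (nat_lit 3) true (nat_lit 2) true (nat_lit 12) true (nat_lit 3) true (nat_lit 11) true (nat_lit 13) (.s false (nat_lit 2) (nat_lit 18) (nat_lit 4) (nat_lit 3) (nat_lit 2) true (nat_lit 5) true (nat_lit 13) true (nat_lit 3) true (nat_lit 11) true (nat_lit 12) (.s false (nat_lit 3) (nat_lit 18) (nat_lit 6) (nat_lit 0) (nat_lit 3) true (nat_lit 0) true (nat_lit 12) true (nat_lit 3) true (nat_lit 9) true (nat_lit 15) (.s true (nat_lit 1) (nat_lit 18) (nat_lit 6) (nat_lit 3) (nat_lit 0) true (nat_lit 5) true (nat_lit 15) true (nat_lit 3) true (nat_lit 9) true (nat_lit 12) (.s true (nat_lit 1) (nat_lit 18) (nat_lit 12) (nat_lit 2) (nat_lit 0) true (nat_lit 2) true (nat_lit 15) true (nat_lit 3) true (nat_lit 6) true (nat_lit 13) (.s true (nat_lit 1) (nat_lit 18) (nat_lit 14) (nat_lit 0) (nat_lit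 1) true (nat_lit 0) true (nat_lit 14) true (nat_lit 3) true (nat_lit 5) true (nat_lit 15) (.s true (nat_lit 3) (nat_lit 18) (nat_lit 15) (nat_lit 0) (nat_lit 1) true (nat_lit 0) true (nat_lit 14) true (nat_lit 3) true (nat_lit 5) true (nat_lit 15) (.s true (nat_lit 2) (nat_lit 18) (nat_lit 14) (nat_lit 1) (nat_lit 0) true (nat_lit 1) true (nat_lit 15) true (nat_lit 3) true (nat_lit 5) true (nat_lit 14) (.s true (nat_lit 2) (nat_lit 18) (nat_lit 15) (nat_lit 1) (nat_lit 0) true (nat_lit 1) true (nat_lit 15) true (nat_lit 3) true (nat_lit 5) true (nat_lit 14) (.s false (nat_lit 1) (nat_lit 20) (nat_lit 2) (nat_lit 2) (nat_lit 6) true (nat_lit 3) true (nat_lit 9) true (nat_lit 2) true (nat_lit 13) true (nat_lit 13) (.s false (nat_lit 2) (nat_lit 22) (nat_lit 2) (nat_lit 2) (nat_lit 6) true (nat_lit 3) true (nat_lit 9) true (nat_lit 2) true (nat_lit 13) true (nat_lit 13) (.s true (nat_lit 1) (nat_lit 23) (nat_lit 2)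 (nat_lit 2) (nat_lit 6) true (nat_lit 3) true (nat_lit 9) true (nat_lit 2) true (nat_lit 13) true (nat_lit 13) (.s false (nat_lit 3) (nat_lit 21) (nat_lit 2) (nat_lit 6) (nat_lit 2) true (nat_lit 9) true (nat_lit 13) true (nat_lit 2) true (nat_lit 13) true (nat_lit 9) (.s false (nat_lit 2) (nat_lit 22) (nat_lit 2) (nat_lit 6) (nat_lit 2) true (nat_lit 9) true (nat_lit 13) true (nat_lit 2) true (nat_lit 13) true (nat_lit 9) (.s true (nat_lit 3) (nat_lit 21) (nat_lit 6) (nat_lit 2) (nat_lit 2) true (nat_lit 3) true (nat_lit 13) true (nat_lit 2) true (nat_lit 9) true (nat_lit 13) dC1d_i327)))))))))))))))))))))))))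

noncomputable def dC1d_i329 : IL := (.e false (nat_lit 2) (nat_lit 323) (nat_lit 1) (nat_lit 14) (.e false (nat_lit 2) (nat_lit 321) (nat_lit 1) (nat_lit 14) (.e true (nat_lit 2) (nat_lit 322) (nat_lit 1) (nat_lit 14) (.e false (nat_lit 2) (nat_lit 65) (nat_lit 18) (nat_lit 3) (.e true (nat_lit 2) (nat_lit 275) (nat_lit 2) (nat_lit 13) (.e true (nat_lit 1) (nat_lit 283) (nat_lit 2) (nat_lit 13) (.e true (nat_lit 1) (nat_lit 320) (nat_lit 1) (nat_lit 14) (.e false (nat_lit 3) (nat_lit 327) (nat_lit 1) (nat_lit 14) (.e true (nat_lit 2) (nat_lit 328) (nat_lit 0) (nat_lit 15) (.e false (nat_lit 3) (nat_lit 330) (nat_lit 0) (nat_lit 15) (.e false (nat_lit 2) (nat_lit 332) (nat_lit 0) (nat_lit 15) (.e false (nat_lit 3) (nat_lit 333) (nat_lit 0) (nat_lit 15) (.e false (nat_lit 3) (nat_lit 334) (nat_lit 0) (nat_lit 15) (.e false (nat_lit 3) (nat_lit 335) (nat_lit 0) (nat_lit 15) (.e false (nat_lit 3) (nat_lit 337) (nat_lit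 0) (nat_lit 15) (.e false (nat_lit 3) (nat_lit 338) (nat_lit 0) (nat_lit 15) (.e true (nat_lit 3) (nat_lit 340) (nat_lit 0) (nat_lit 15) (.e false (nat_lit 2) (nat_lit 341) (nat_lit 0) (nat_lit 15) (.e true (nat_lit 3) (nat_lit 331) (nat_lit 0) (nat_lit 15) (.e true (nat_lit 3) (nat_lit 336) (nat_lit 0) (nat_lit 15) (.e true (nat_lit 2) (nat_lit 329) (nat_lit 0) (nat_lit 15) (.e false (nat_lit 1) (nat_lit 342) (nat_lit 0) (nat_lit 15) (.u (nat_lit 2) (.n (nat_lit 0) (nat_lit 1) (.n (nat_lit 1) (nat_lit 2) (.p (nat_lit 2) (nat_lit 1) (.n (nat_lit 3) (nat_lit 1) (.p (nat_lit 4) (nat_lit 2) (.p (nat_lit 5) (nat_lit 1) (.n (nat_lit 6) (nat_lit 2) (.n (nat_lit 7) (nat_lit 2) (.n (nat_lit 8) (nat_lit 1) (.n (nat_lit 9) (nat_lit 1) (.n (nat_lit 12) (nat_lit 1) (.n (nat_lit 13) (nat_lit 1) (.n (nat_lit 15) (nat_lit 1) (.p (nat_lit 16) (nat_lit 1) (.n (nat_lit 17) (nat_lit 2) (.n (nat_lit 19) (nat_lit 1) (.n (nat_lit 33)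 (nat_lit 1) (.p (nat_lit 34) (nat_lit 1) (.p (nat_lit 35) (nat_lit 1) (.p (nat_lit 36) (nat_lit 1) (.p (nat_lit 38) (nat_lit 1) (.p (nat_lit 49) (nat_lit 1) (.n (nat_lit 50) (nat_lit 1) (.n (nat_lit 66) (nat_lit 2) (.p (nat_lit 67) (nat_lit 1) (.p (nat_lit 68) (nat_lit 2) (.n (nat_lit 70) (nat_lit 3) (.n (nat_lit 71) (nat_lit 1) (.p (nat_lit 72) (nat_lit 1) (.p (nat_lit 74) (nat_lit 1) (.n (nat_lit 75) (nat_lit 3) (.n (nat_lit 76) (nat_lit 1) (.n (nat_lit 77) (nat_lit 1) (.p (nat_lit 78) (nat_lit 1) (.n (nat_lit 79) (nat_lit 1) (.n (nat_lit 87) (nat_lit 1) (.p (nat_lit 91) (nat_lit 1) (.p (nat_lit 97) (nat_lit 1) (.n (nat_lit 99) (nat_lit 2) (.n (nat_lit 102) (nat_lit 1) (.n (nat_lit 105) (nat_lit 1) (.n (nat_lit 106) (nat_lit 1) (.p (nat_lit 107) (nat_lit 1) (.p (nat_lit 113) (nat_lit 1) (.p (nat_lit 124) (nat_lit 1) (.p (nat_lit 125) (nat_lit 4) (.n (nat_lit 127) (nat_lit 3) (.n (nat_lit 128) (nat_lit 3) (.p (nat_lit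 129) (nat_lit 1) (.p (nat_lit 130) (nat_lit 4) (.p (nat_lit 131) (nat_lit 1) (.n (nat_lit 132) (nat_lit 2) (.p (nat_lit 133) (nat_lit 1) (.p (nat_lit 134) (nat_lit 1) (.p (nat_lit 135) (nat_lit 1) (.n (nat_lit 140) (nat_lit 1) (.n (nat_lit 143) (nat_lit 2) (.n (nat_lit 144) (nat_lit 1) (.p (nat_lit 145) (nat_lit 3) (.p (nat_lit 146) (nat_lit 3) .z)))))))))))))))))))))))))))))))))))))))))))))))))))))))))))) (.u (nat_lit 2) (.p (nat_lit 147) (nat_lit 3) (.p (nat_lit 148) (nat_lit 1) (.p (nat_lit 149) (nat_lit 4) (.n (nat_lit 151) (nat_lit 1) (.p (nat_lit 153) (nat_lit 1) (.p (nat_lit 157) (nat_lit 1) (.n (nat_lit 160) (nat_lit 1) (.p (nat_lit 164) (nat_lit 1) (.p (nat_lit 169) (nat_lit 1) (.p (nat_lit 170) (nat_lit 2) (.n (nat_lit 171) (nat_lit 1) (.p (nat_lit 172) (nat_lit 1) (.n (nat_lit 173) (nat_lit 18) (.n (nat_lit 174) (nat_lit 14) (.p (nat_lit 175) (nat_lit 8) (.p (nat_lit 176) (nat_lit 12) (.p (nat_lit 177)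 (nat_lit 9) (.p (nat_lit 178) (nat_lit 7) (.p (nat_lit 179) (nat_lit 9) (.n (nat_lit 180) (nat_lit 16) (.p (nat_lit 181) (nat_lit 7) (.n (nat_lit 182) (nat_lit 3) (.n (nat_lit 183) (nat_lit 8) (.p (nat_lit 184) (nat_lit 5) (.n (nat_lit 185) (nat_lit 15) (.p (nat_lit 186) (nat_lit 12) (.n (nat_lit 187) (nat_lit 4) (.p (nat_lit 188) (nat_lit 1) (.n (nat_lit 189) (nat_lit 1) (.n (nat_lit 190) (nat_lit 1) (.p (nat_lit 191) (nat_lit 5) (.n (nat_lit 193) (nat_lit 17) (.n (nat_lit 194) (nat_lit 2) (.p (nat_lit 195) (nat_lit 5) (.n (nat_lit 196) (nat_lit 1) (.p (nat_lit 197) (nat_lit 7) (.n (nat_lit 198) (nat_lit 8) (.p (nat_lit 199) (nat_lit 13) (.n (nat_lit 200) (nat_lit 2) (.n (nat_lit 201) (nat_lit 9) (.n (nat_lit 202) (nat_lit 3) (.p (nat_lit 203) (nat_lit 3) (.n (nat_lit 204) (nat_lit 2) (.n (nat_lit 205) (nat_lit 3) (.n (nat_lit 206) (nat_lit 3) (.n (nat_lit 207) (nat_lit 3) (.n (nat_lit 208) (nat_lit 2) (.p (nat_lit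 209) (nat_lit 2) (.n (nat_lit 210) (nat_lit 2) (.p (nat_lit 211) (nat_lit 3) (.p (nat_lit 212) (nat_lit 4) (.n (nat_lit 213) (nat_lit 11) (.p (nat_lit 214) (nat_lit 3) (.n (nat_lit 215) (nat_lit 3) (.p (nat_lit 216) (nat_lit 5) (.p (nat_lit 217) (nat_lit 2) (.n (nat_lit 218) (nat_lit 2) (.n (nat_lit 219) (nat_lit 2) (.p (nat_lit 220) (nat_lit 4) (.p (nat_lit 221) (nat_lit 2) .z)))))))))))))))))))))))))))))))))))))))))))))))))))))))))))) (.u (nat_lit 2) (.n (nat_lit 223) (nat_lit 3) (.n (nat_lit 224) (nat_lit 2) (.p (nat_lit 227) (nat_lit 1) (.n (nat_lit 228) (nat_lit 1) .z)))) .nil)))))))))))))))))))))))))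

noncomputable def dC1d_i330 : IL := (.s false (nat_lit 2) (nat_lit 84) (nat_lit 2) (nat_lit 2) (nat_lit 0) true (nat_lit 11) true (nat_lit 15) false (nat_lit 5) true (nat_lit 13) true (nat_lit 13) (.s false (nat_lit 1) (nat_lit 85) (nat_lit 2) (nat_lit 2) (nat_lit 0) true (nat_lit 11) true (nat_lit 15) false (nat_lit 5) true (nat_lit 13) true (nat_lit 13) (.s false (nat_lit 2) (nat_lit 86) (nat_lit 2) (nat_lit 2) (nat_lit 0) true (nat_lit 11) true (nat_lit 15) false (nat_lit 5) true (nat_lit 13) true (nat_lit 13) (.s false (nat_lit 2) (nat_lit 88) (nat_lit 2) (nat_lit 2) (nat_lit 0) true (nat_lit 11) true (nat_lit 15) false (nat_lit 5) true (nat_lit 13) true (nat_lit 13) (.s false (nat_lit 3) (nat_lit 90) (nat_lit 2) (nat_lit 2) (nat_lit 0) true (nat_lit 11) true (nat_lit 15) false (nat_lit 5) true (nat_lit 13) true (nat_lit 13) (.s true (nat_lit 1) (nat_lit 91) (nat_lit 2) (nat_lit 2) (nat_lit 0) true (nat_lit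 11) true (nat_lit 15) false (nat_lit 5) true (nat_lit 13) true (nat_lit 13) (.s false (nat_lit 3) (nat_lit 99) (nat_lit 0) (nat_lit 2) (nat_lit 1) true (nat_lit 12) true (nat_lit 14) false (nat_lit 6) true (nat_lit 15) true (nat_lit 13) (.s true (nat_lit 3) (nat_lit 101) (nat_lit 0) (nat_lit 2) (nat_lit 1) true (nat_lit 12) true (nat_lit 14) false (nat_lit 6) true (nat_lit 15) true (nat_lit 13) (.s true (nat_lit 3) (nat_lit 100) (nat_lit 1) (nat_lit 0) (nat_lit 2) true (nat_lit 10) true (nat_lit 13) false (nat_lit 6) true (nat_lit 14) true (nat_lit 15) (.s false (nat_lit 3) (nat_lit 98) (nat_lit 1) (nat_lit 2) (nat_lit 0) true (nat_lit 12) true (nat_lit 15) false (nat_lit 6) true (nat_lit 14) true (nat_lit 13) (.s false (nat_lit 3) (nat_lit 98) (nat_lit 2) (nat_lit 0) (nat_lit 1) true (nat_lit 10) true (nat_lit 14) false (nat_lit 6) true (nat_lit 13) true (nat_lit 15) (.s true (nat_lit 2) (nat_lit 99) (nat_lit 2)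 (nat_lit 0) (nat_lit 1) true (nat_lit 10) true (nat_lit 14) false (nat_lit 6) true (nat_lit 13) true (nat_lit 15) (.s true (nat_lit 1) (nat_lit 98) (nat_lit 2) (nat_lit 1) (nat_lit 0) true (nat_lit 11) true (nat_lit 15) false (nat_lit 6) true (nat_lit 13) true (nat_lit 14) (.s true (nat_lit 2) (nat_lit 106) (nat_lit 0) (nat_lit 0) (nat_lit 1) true (nat_lit 12) true (nat_lit 14) false (nat_lit 8) true (nat_lit 15) true (nat_lit 15) (.s false (nat_lit 3) (nat_lit 106) (nat_lit 0) (nat_lit 1) (nat_lit 0) false (nat_lit 16) true (nat_lit 15) false (nat_lit 8) true (nat_lit 15) true (nat_lit 14) (.e false (nat_lit 3) (nat_lit 142) (nat_lit 6) (nat_lit 9) (.e false (nat_lit 1) (nat_lit 137) (nat_lit 6) (nat_lit 9) (.e false (nat_lit 1) (nat_lit 149) (nat_lit 6) (nat_lit 9) (.e false (nat_lit 2) (nat_lit 286) (nat_lit 2) (nat_lit 13) (.e false (nat_lit 1) (nat_lit 262) (nat_lit 2) (nat_lit 13) (.e false (nat_lit 2) (nat_lit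 267) (nat_lit 2) (nat_lit 13) (.e false (nat_lit 2) (nat_lit 272) (nat_lit 2) (nat_lit 13) (.e true (nat_lit 3) (nat_lit 270) (nat_lit 2) (nat_lit 13) (.e false (nat_lit 3) (nat_lit 277) (nat_lit 2) (nat_lit 13) (.e true (nat_lit 2) (nat_lit 265) (nat_lit 2) (nat_lit 13) dC1d_i329)))))))))))))))))))))))))

noncomputable def dC1d_i331 : IL := (.s false (nat_lit 2) (nat_lit 46) (nat_lit 2) (nat_lit 3) (nat_lit 0) true (nat_lit 11) true (nat_lit 15) false (nat_lit 2) true (nat_lit 13) true (nat_lit 12) (.s true (nat_lit 1) (nat_lit 46) (nat_lit 3) (nat_lit 2) (nat_lit 0) true (nat_lit 8) true (nat_lit 15) false (nat_lit 2) true (nat_lit 12) true (nat_lit 13) (.s false (nat_lit 3) (nat_lit 46) (nat_lit 4) (nat_lit 0) (nat_lit 1) true (nat_lit 6) true (nat_lit 14) false (nat_lit 2) true (nat_lit 11) true (nat_lit 15) (.s true (nat_lit 2) (nat_lit 46) (nat_lit 5) (nat_lit 0) (nat_lit 0) true (nat_lit 6) true (nat_lit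 15) false (nat_lit 2) true (nat_lit 10) true (nat_lit 15) (.s true (nat_lit 3) (nat_lit 59) (nat_lit 2) (nat_lit 2) (nat_lit 2) true (nat_lit 9) true (nat_lit 13) false (nat_lit 3) true (nat_lit 13) true (nat_lit 13) (.s false (nat_lit 1) (nat_lit 60) (nat_lit 2) (nat_lit 2) (nat_lit 2) true (nat_lit 9) true (nat_lit 13) false (nat_lit 3) true (nat_lit 13) true (nat_lit 13) (.s true (nat_lit 1) (nat_lit 61) (nat_lit 2) (nat_lit 2) (nat_lit 2) true (nat_lit 9) true (nat_lit 13) false (nat_lit 3) true (nat_lit 13) true (nat_lit 13) (.s false (nat_lit 1) (nat_lit 64) (nat_lit 2) (nat_lit 2) (nat_lit 2) true (nat_lit 9) true (nat_lit 13) false (nat_lit 3) true (nat_lit 13) true (nat_lit 13) (.s true (nat_lit 1) (nat_lit 77) (nat_lit 1) (nat_lit 2) (nat_lit 2) true (nat_lit 10) true (nat_lit 13) false (nat_lit 4) true (nat_lit 14) true (nat_lit 13) (.s false (nat_lit 3) (nat_lit 79) (nat_lit 1) (nat_lit 2) (nat_lit 2)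 true (nat_lit 10) true (nat_lit 13) false (nat_lit 4) true (nat_lit 14) true (nat_lit 13) (.s true (nat_lit 3) (nat_lit 80) (nat_lit 1) (nat_lit 2) (nat_lit 2) true (nat_lit 10) true (nat_lit 13) false (nat_lit 4) true (nat_lit 14) true (nat_lit 13) (.s false (nat_lit 2) (nat_lit 81) (nat_lit 1) (nat_lit 2) (nat_lit 2) true (nat_lit 10) true (nat_lit 13) false (nat_lit 4) true (nat_lit 14) true (nat_lit 13) (.s true (nat_lit 2) (nat_lit 78) (nat_lit 2) (nat_lit 1) (nat_lit 2) true (nat_lit 9) true (nat_lit 13) false (nat_lit 4) true (nat_lit 13) true (nat_lit 14) (.s false (nat_lit 1) (nat_lit 79) (nat_lit 2) (nat_lit 1) (nat_lit 2) true (nat_lit 9) true (nat_lit 13) false (nat_lit 4) true (nat_lit 13) true (nat_lit 14) (.s false (nat_lit 2) (nat_lit 80) (nat_lit 2) (nat_lit 1) (nat_lit 2) true (nat_lit 9) true (nat_lit 13) false (nat_lit 4) true (nat_lit 13) true (nat_lit 14) (.s false (nat_lit 2) (nat_lit 77)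 (nat_lit 2) (nat_lit 2) (nat_lit 1) true (nat_lit 10) true (nat_lit 14) false (nat_lit 4) true (nat_lit 13) true (nat_lit 13) (.s true (nat_lit 2) (nat_lit 80) (nat_lit 2) (nat_lit 2) (nat_lit 1) true (nat_lit 10) true (nat_lit 14) false (nat_lit 4) true (nat_lit 13) true (nat_lit 13) (.s true (nat_lit 1) (nat_lit 82) (nat_lit 0) (nat_lit 2) (nat_lit 2) true (nat_lit 11) true (nat_lit 13) false (nat_lit 5) true (nat_lit 15) true (nat_lit 13) (.s true (nat_lit 2) (nat_lit 84) (nat_lit 0) (nat_lit 2) (nat_lit 2) true (nat_lit 11) true (nat_lit 13) false (nat_lit 5) true (nat_lit 15) true (nat_lit 13) (.s false (nat_lit 1) (nat_lit 87) (nat_lit 0) (nat_lit 2) (nat_lit 2) true (nat_lit 11) true (nat_lit 13) false (nat_lit 5) true (nat_lit 15) true (nat_lit 13) (.s true (nat_lit 1) (nat_lit 90) (nat_lit 0) (nat_lit 2) (nat_lit 2) true (nat_lit 11) true (nat_lit 13) false (nat_lit 5) true (nat_lit 15) true (nat_lit 13)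 (.s false (nat_lit 3) (nat_lit 91) (nat_lit 0) (nat_lit 2) (nat_lit 2) true (nat_lit 11) true (nat_lit 13) false (nat_lit 5) true (nat_lit 15) true (nat_lit 13) (.s true (nat_lit 1) (nat_lit 82) (nat_lit 2) (nat_lit 0) (nat_lit 2) true (nat_lit 9) true (nat_lit 13) false (nat_lit 5) true (nat_lit 13) true (nat_lit 15) (.s false (nat_lit 3) (nat_lit 83) (nat_lit 2) (nat_lit 0) (nat_lit 2) true (nat_lit 9) true (nat_lit 13) false (nat_lit 5) true (nat_lit 13) true (nat_lit 15) (.s false (nat_lit 3) (nat_lit 83) (nat_lit 2) (nat_lit 2) (nat_lit 0) true (nat_lit 11) true (nat_lit 15) false (nat_lit 5) true (nat_lit 13) true (nat_lit 13) dC1d_i330)))))))))))))))))))))))))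

noncomputable def dC1d_i332 : IL := (.s false (nat_lit 1) (nat_lit 32) (nat_lit 2) (nat_lit 0) (nat_lit 6) true (nat_lit 3) true (nat_lit 9) true (nat_lit 0) true (nat_lit 13) true (nat_lit 15) (.s true (nat_lit 1) (nat_lit 31) (nat_lit 2) (nat_lit 2) (nat_lit 4) true (nat_lit 5) true (nat_lit 11) true (nat_lit 0) true (nat_lit 13) true (nat_lit 13) (.s false (nat_lit 1) (nat_lit 32) (nat_lit 2) (nat_lit 2) (nat_lit 4) true (nat_lit 5) true (nat_lit 11) true (nat_lit 0) true (nat_lit 13) true (nat_lit 13) (.s true (nat_lit 1) (nat_lit 33) (nat_lit 2) (nat_lit 2) (nat_lit 4) true (nat_lit 5) true (nat_lit 11) true (nat_lit 0) true (nat_lit 13) true (nat_lit 13) (.s false (nat_lit 2) (nat_lit 34) (nat_lit 2) (nat_lit 2) (nat_lit 4) true (nat_lit 5) true (nat_lit 11) true (nat_lit 0) true (nat_lit 13) true (nat_lit 13) (.s false (nat_lit 3) (nat_lit 36) (nat_lit 2) (nat_lit 2) (nat_lit 4) true (nat_lit 5) true (nat_lit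 11) true (nat_lit 0) true (nat_lit 13) true (nat_lit 13) (.s false (nat_lit 2) (nat_lit 32) (nat_lit 2) (nat_lit 6) (nat_lit 0) true (nat_lit 11) true (nat_lit 15) true (nat_lit 0) true (nat_lit 13) true (nat_lit 9) (.s false (nat_lit 2) (nat_lit 31) (nat_lit 4) (nat_lit 2) (nat_lit 2) true (nat_lit 5) true (nat_lit 13) true (nat_lit 0) true (nat_lit 11) true (nat_lit 13) (.s true (nat_lit 2) (nat_lit 32) (nat_lit 4) (nat_lit 2) (nat_lit 2) true (nat_lit 5) true (nat_lit 13) true (nat_lit 0) true (nat_lit 11) true (nat_lit 13) (.s true (nat_lit 1) (nat_lit 40) (nat_lit 0) (nat_lit 2) (nat_lit 5) true (nat_lit 6) true (nat_lit 10) false (nat_lit 0) true (nat_lit 15) true (nat_lit 13) (.s false (nat_lit 3) (nat_lit 40) (nat_lit 0) (nat_lit 6) (nat_lit 1) true (nat_lit 12) true (nat_lit 14) false (nat_lit 0) true (nat_lit 15) true (nat_lit 9) (.s false (nat_lit 2) (nat_lit 42) (nat_lit 1) (nat_lit 0) (nat_lit 6) true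 (nat_lit 4) true (nat_lit 9) false (nat_lit 0) true (nat_lit 14) true (nat_lit 15) (.s true (nat_lit 3) (nat_lit 40) (nat_lit 1) (nat_lit 4) (nat_lit 2) true (nat_lit 10) true (nat_lit 13) false (nat_lit 0) true (nat_lit 14) true (nat_lit 11) (.s false (nat_lit 2) (nat_lit 40) (nat_lit 2) (nat_lit 0) (nat_lit 5) true (nat_lit 4) true (nat_lit 10) false (nat_lit 0) true (nat_lit 13) true (nat_lit 15) (.s false (nat_lit 3) (nat_lit 40) (nat_lit 2) (nat_lit 3) (nat_lit 2) true (nat_lit 9) true (nat_lit 13) false (nat_lit 0) true (nat_lit 13) true (nat_lit 12) (.s false (nat_lit 3) (nat_lit 42) (nat_lit 2) (nat_lit 3) (nat_lit 2) true (nat_lit 9) true (nat_lit 13) false (nat_lit 0) true (nat_lit 13) true (nat_lit 12) (.s true (nat_lit 1) (nat_lit 40) (nat_lit 2) (nat_lit 5) (nat_lit 0) true (nat_lit 11) true (nat_lit 15) false (nat_lit 0) true (nat_lit 13) true (nat_lit 10) (.s false (nat_lit 2) (nat_lit 42) (nat_lit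 3) (nat_lit 2) (nat_lit 2) true (nat_lit 6) true (nat_lit 13) false (nat_lit 0) true (nat_lit 12) true (nat_lit 13) (.s false (nat_lit 1) (nat_lit 40) (nat_lit 4) (nat_lit 1) (nat_lit 2) true (nat_lit 5) true (nat_lit 13) false (nat_lit 0) true (nat_lit 11) true (nat_lit 14) (.s false (nat_lit 2) (nat_lit 42) (nat_lit 5) (nat_lit 0) (nat_lit 2) true (nat_lit 4) true (nat_lit 13) false (nat_lit 0) true (nat_lit 10) true (nat_lit 15) (.s true (nat_lit 3) (nat_lit 40) (nat_lit 5) (nat_lit 2) (nat_lit 0) true (nat_lit 6) true (nat_lit 15) false (nat_lit 0) true (nat_lit 10) true (nat_lit 13) (.s true (nat_lit 1) (nat_lit 45) (nat_lit 0) (nat_lit 0) (nat_lit 6) true (nat_lit 5) true (nat_lit 9) false (nat_lit 1) true (nat_lit 15) true (nat_lit 15) (.s false (nat_lit 2) (nat_lit 44) (nat_lit 6) (nat_lit 0) (nat_lit 0) true (nat_lit 5) true (nat_lit 15) false (nat_lit 1) true (nat_lit 9) true (nat_lit 15) (.s false (nat_lit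 3) (nat_lit 45) (nat_lit 6) (nat_lit 0) (nat_lit 0) true (nat_lit 5) true (nat_lit 15) false (nat_lit 1) true (nat_lit 9) true (nat_lit 15) (.s true (nat_lit 2) (nat_lit 46) (nat_lit 0) (nat_lit 0) (nat_lit 5) true (nat_lit 6) true (nat_lit 10) false (nat_lit 2) true (nat_lit 15) true (nat_lit 15) dC1d_i331)))))))))))))))))))))))))

noncomputable def dC1d_i333 : IL := (.s false (nat_lit 2) (nat_lit 18) (nat_lit 2) (nat_lit 11) (nat_lit 0) true (nat_lit 11) true (nat_lit 15) true (nat_lit 3) true (nat_lit 13) true (nat_lit 6) (.s true (nat_lit 2) (nat_lit 18) (nat_lit 4) (nat_lit 2) (nat_lit 3) true (nat_lit 2) true (nat_lit 12) true (nat_lit 3) true (nat_lit 11) true (nat_lit 13) (.s false (nat_lit 3) (nat_lit 18) (nat_lit 4) (nat_lit 3) (nat_lit 2) true (nat_lit 5) true (nat_lit 13) true (nat_lit 3) true (nat_lit 11) true (nat_lit 12) (.s false (nat_lit 1) (nat_lit 18) (nat_lit 6) (nat_lit 3) (nat_lit 0) true (nat_lit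 5) true (nat_lit 15) true (nat_lit 3) true (nat_lit 9) true (nat_lit 12) (.s true (nat_lit 3) (nat_lit 18) (nat_lit 7) (nat_lit 2) (nat_lit 2) true (nat_lit 2) true (nat_lit 13) true (nat_lit 3) true (nat_lit 8) true (nat_lit 13) (.s false (nat_lit 3) (nat_lit 18) (nat_lit 15) (nat_lit 1) (nat_lit 0) true (nat_lit 1) true (nat_lit 15) true (nat_lit 3) true (nat_lit 5) true (nat_lit 14) (.s true (nat_lit 2) (nat_lit 20) (nat_lit 2) (nat_lit 2) (nat_lit 6) true (nat_lit 3) true (nat_lit 9) true (nat_lit 2) true (nat_lit 13) true (nat_lit 13) (.s false (nat_lit 2) (nat_lit 21) (nat_lit 2) (nat_lit 2) (nat_lit 6) true (nat_lit 3) true (nat_lit 9) true (nat_lit 2) true (nat_lit 13) true (nat_lit 13) (.s true (nat_lit 3) (nat_lit 23) (nat_lit 2) (nat_lit 2) (nat_lit 6) true (nat_lit 3) true (nat_lit 9) true (nat_lit 2) true (nat_lit 13) true (nat_lit 13) (.s false (nat_lit 3) (nat_lit 22) (nat_lit 2) (nat_lit 6) (nat_lit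 2) true (nat_lit 9) true (nat_lit 13) true (nat_lit 2) true (nat_lit 13) true (nat_lit 9) (.s false (nat_lit 1) (nat_lit 21) (nat_lit 6) (nat_lit 2) (nat_lit 2) true (nat_lit 3) true (nat_lit 13) true (nat_lit 2) true (nat_lit 9) true (nat_lit 13) (.s false (nat_lit 2) (nat_lit 22) (nat_lit 6) (nat_lit 2) (nat_lit 2) true (nat_lit 3) true (nat_lit 13) true (nat_lit 2) true (nat_lit 9) true (nat_lit 13) (.s true (nat_lit 2) (nat_lit 29) (nat_lit 1) (nat_lit 6) (nat_lit 2) true (nat_lit 10) true (nat_lit 13) true (nat_lit 1) true (nat_lit 14) true (nat_lit 9) (.s true (nat_lit 3) (nat_lit 29) (nat_lit 2) (nat_lit 1) (nat_lit 6) true (nat_lit 3) true (nat_lit 9) true (nat_lit 1) true (nat_lit 13) true (nat_lit 14) (.s true (nat_lit 2) (nat_lit 28) (nat_lit 2) (nat_lit 2) (nat_lit 5) true (nat_lit 4) true (nat_lit 10) true (nat_lit 1) true (nat_lit 13) true (nat_lit 13) (.s true (nat_lit 3) (nat_lit 29) (nat_lit 2)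 (nat_lit 2) (nat_lit 5) true (nat_lit 4) true (nat_lit 10) true (nat_lit 1) true (nat_lit 13) true (nat_lit 13) (.s true (nat_lit 2) (nat_lit 28) (nat_lit 2) (nat_lit 5) (nat_lit 2) true (nat_lit 9) true (nat_lit 13) true (nat_lit 1) true (nat_lit 13) true (nat_lit 10) (.s false (nat_lit 2) (nat_lit 28) (nat_lit 2) (nat_lit 6) (nat_lit 1) true (nat_lit 10) true (nat_lit 14) true (nat_lit 1) true (nat_lit 13) true (nat_lit 9) (.s true (nat_lit 3) (nat_lit 30) (nat_lit 2) (nat_lit 6) (nat_lit 1) true (nat_lit 10) true (nat_lit 14) true (nat_lit 1) true (nat_lit 13) true (nat_lit 9) (.s false (nat_lit 2) (nat_lit 28) (nat_lit 5) (nat_lit 2) (nat_lit 2) true (nat_lit 4) true (nat_lit 13) true (nat_lit 1) true (nat_lit 10) true (nat_lit 13) (.s false (nat_lit 1) (nat_lit 31) (nat_lit 0) (nat_lit 2) (nat_lit 6) true (nat_lit 5) true (nat_lit 9) true (nat_lit 0) true (nat_lit 15) true (nat_lit 13) (.s true (nat_lit 2)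 (nat_lit 32) (nat_lit 0) (nat_lit 2) (nat_lit 6) true (nat_lit 5) true (nat_lit 9) true (nat_lit 0) true (nat_lit 15) true (nat_lit 13) (.s true (nat_lit 1) (nat_lit 33) (nat_lit 0) (nat_lit 2) (nat_lit 6) true (nat_lit 5) true (nat_lit 9) true (nat_lit 0) true (nat_lit 15) true (nat_lit 13) (.s true (nat_lit 1) (nat_lit 31) (nat_lit 0) (nat_lit 6) (nat_lit 2) true (nat_lit 11) true (nat_lit 13) true (nat_lit 0) true (nat_lit 15) true (nat_lit 9) (.s false (nat_lit 3) (nat_lit 31) (nat_lit 2) (nat_lit 0) (nat_lit 6) true (nat_lit 3) true (nat_lit 9) true (nat_lit 0) true (nat_lit 13) true (nat_lit 15) dC1d_i332)))))))))))))))))))))))))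

noncomputable def dC1d_i334 : IL := (.e false (nat_lit 2) (nat_lit 142) (nat_lit 6) (nat_lit 9) (.e true (nat_lit 1) (nat_lit 149) (nat_lit 6) (nat_lit 9) (.e true (nat_lit 2) (nat_lit 65) (nat_lit 18) (nat_lit 3) (.e false (nat_lit 3) (nat_lit 275) (nat_lit 2) (nat_lit 13) (.e true (nat_lit 2) (nat_lit 283) (nat_lit 2) (nat_lit 13) (.e false (nat_lit 2) (nat_lit 320) (nat_lit 1) (nat_lit 14) (.e false (nat_lit 2) (nat_lit 321) (nat_lit 1) (nat_lit 14) (.e true (nat_lit 2) (nat_lit 322) (nat_lit 1) (nat_lit 14) (.e false (nat_lit 3) (nat_lit 323) (nat_lit 1) (nat_lit 14) (.e true (nat_lit 1) (nat_lit 327) (nat_lit 1) (nat_lit 14) (.e true (nat_lit 3) (nat_lit 328) (nat_lit 0) (nat_lit 15) (.e false (nat_lit 2) (nat_lit 330) (nat_lit 0) (nat_lit 15) (.e false (nat_lit 2) (nat_lit 331) (nat_lit 0) (nat_lit 15) (.e false (nat_lit 2) (nat_lit 332) (nat_lit 0) (nat_lit 15) (.e true (nat_lit 3) (nat_lit 334) (nat_lit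 0) (nat_lit 15) (.e true (nat_lit 3) (nat_lit 335) (nat_lit 0) (nat_lit 15) (.e false (nat_lit 2) (nat_lit 336) (nat_lit 0) (nat_lit 15) (.e true (nat_lit 2) (nat_lit 341) (nat_lit 0) (nat_lit 15) (.e true (nat_lit 3) (nat_lit 333) (nat_lit 0) (nat_lit 15) (.e false (nat_lit 3) (nat_lit 337) (nat_lit 0) (nat_lit 15) (.e false (nat_lit 3) (nat_lit 340) (nat_lit 0) (nat_lit 15) (.e false (nat_lit 2) (nat_lit 324) (nat_lit 1) (nat_lit 14) (.e false (nat_lit 2) (nat_lit 342) (nat_lit 0) (nat_lit 15) (.u (nat_lit 2) (.p (nat_lit 1) (nat_lit 1) (.p (nat_lit 3) (nat_lit 2) (.n (nat_lit 4) (nat_lit 1) (.n (nat_lit 5) (nat_lit 3) (.n (nat_lit 6) (nat_lit 1) (.n (nat_lit 7) (nat_lit 1) (.p (nat_lit 10) (nat_lit 1) (.p (nat_lit 12) (nat_lit 3) (.p (nat_lit 13) (nat_lit 1) (.n (nat_lit 16) (nat_lit 1) (.n (nat_lit 17) (nat_lit 3) (.n (nat_lit 18) (nat_lit 3) (.p (nat_lit 19) (nat_lit 1) (.n (nat_lit 20) (nat_lit 1) (.n (nat_lit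 21) (nat_lit 1) (.n (nat_lit 25) (nat_lit 1) (.p (nat_lit 28) (nat_lit 1) (.p (nat_lit 30) (nat_lit 1) (.n (nat_lit 33) (nat_lit 1) (.p (nat_lit 35) (nat_lit 1) (.n (nat_lit 37) (nat_lit 1) (.n (nat_lit 38) (nat_lit 1) (.n (nat_lit 39) (nat_lit 1) (.n (nat_lit 52) (nat_lit 1) (.n (nat_lit 53) (nat_lit 1) (.n (nat_lit 54) (nat_lit 1) (.p (nat_lit 65) (nat_lit 2) (.n (nat_lit 66) (nat_lit 2) (.p (nat_lit 67) (nat_lit 4) (.p (nat_lit 68) (nat_lit 2) (.p (nat_lit 69) (nat_lit 1) (.n (nat_lit 70) (nat_lit 1) (.p (nat_lit 71) (nat_lit 1) (.p (nat_lit 72) (nat_lit 1) (.p (nat_lit 75) (nat_lit 2) (.p (nat_lit 76) (nat_lit 1) (.p (nat_lit 77) (nat_lit 1) (.p (nat_lit 81) (nat_lit 1) (.p (nat_lit 82) (nat_lit 1) (.p (nat_lit 87) (nat_lit 1) (.p (nat_lit 89) (nat_lit 1) (.p (nat_lit 113) (nat_lit 2) (.p (nat_lit 114) (nat_lit 1) (.n (nat_lit 125) (nat_lit 2) (.n (nat_lit 128) (nat_lit 2) (.n (nat_lit 129) (nat_lit 3) (.p (nat_lit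 130) (nat_lit 3) (.p (nat_lit 131) (nat_lit 2) (.n (nat_lit 132) (nat_lit 2) (.n (nat_lit 133) (nat_lit 1) (.n (nat_lit 134) (nat_lit 1) (.p (nat_lit 135) (nat_lit 1) (.n (nat_lit 136) (nat_lit 1) (.p (nat_lit 137) (nat_lit 2) (.p (nat_lit 138) (nat_lit 2) (.n (nat_lit 139) (nat_lit 1) (.p (nat_lit 141) (nat_lit 1) (.n (nat_lit 142) (nat_lit 1) (.p (nat_lit 144) (nat_lit 2) (.n (nat_lit 145) (nat_lit 1) .z)))))))))))))))))))))))))))))))))))))))))))))))))))))))))))) (.u (nat_lit 2) (.p (nat_lit 146) (nat_lit 3) (.p (nat_lit 147) (nat_lit 1) (.n (nat_lit 148) (nat_lit 1) (.n (nat_lit 149) (nat_lit 1) (.n (nat_lit 150) (nat_lit 1) (.n (nat_lit 151) (nat_lit 3) (.p (nat_lit 153) (nat_lit 1) (.n (nat_lit 161) (nat_lit 1) (.p (nat_lit 173) (nat_lit 2) (.n (nat_lit 174) (nat_lit 10) (.p (nat_lit 175) (nat_lit 8) (.p (nat_lit 176) (nat_lit 1) (.p (nat_lit 177) (nat_lit 13) (.p (nat_lit 178) (nat_lit 7) (.p (nat_lit 179)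 (nat_lit 12) (.n (nat_lit 180) (nat_lit 6) (.p (nat_lit 181) (nat_lit 8) (.n (nat_lit 182) (nat_lit 2) (.p (nat_lit 183) (nat_lit 4) (.p (nat_lit 184) (nat_lit 15) (.n (nat_lit 185) (nat_lit 3) (.p (nat_lit 186) (nat_lit 2) (.n (nat_lit 187) (nat_lit 12) (.p (nat_lit 188) (nat_lit 2) (.p (nat_lit 189) (nat_lit 2) (.n (nat_lit 190) (nat_lit 6) (.p (nat_lit 191) (nat_lit 1) (.p (nat_lit 192) (nat_lit 8) (.p (nat_lit 193) (nat_lit 2) (.p (nat_lit 194) (nat_lit 1) (.p (nat_lit 195) (nat_lit 4) (.p (nat_lit 196) (nat_lit 4) (.n (nat_lit 197) (nat_lit 3) (.n (nat_lit 198) (nat_lit 2) (.p (nat_lit 199) (nat_lit 3) (.n (nat_lit 200) (nat_lit 6) (.n (nat_lit 201) (nat_lit 1) (.n (nat_lit 202) (nat_lit 5) (.p (nat_lit 203) (nat_lit 1) (.p (nat_lit 204) (nat_lit 1) (.p (nat_lit 206) (nat_lit 3) (.n (nat_lit 207) (nat_lit 1) (.n (nat_lit 208) (nat_lit 5) (.p (nat_lit 209) (nat_lit 1) (.n (nat_lit 212) (nat_lit 2) (.n (nat_lit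 213) (nat_lit 1) (.n (nat_lit 214) (nat_lit 4) (.n (nat_lit 215) (nat_lit 2) (.p (nat_lit 216) (nat_lit 4) (.p (nat_lit 217) (nat_lit 2) (.p (nat_lit 218) (nat_lit 3) (.n (nat_lit 219) (nat_lit 3) (.n (nat_lit 220) (nat_lit 6) (.n (nat_lit 221) (nat_lit 5) (.p (nat_lit 222) (nat_lit 1) (.p (nat_lit 223) (nat_lit 1) (.n (nat_lit 225) (nat_lit 1) (.p (nat_lit 228) (nat_lit 1) .z)))))))))))))))))))))))))))))))))))))))))))))))))))))))))) .nil)))))))))))))))))))))))))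

noncomputable def dC1d_i335 : IL := (.s true (nat_lit 3) (nat_lit 91) (nat_lit 2) (nat_lit 2) (nat_lit 0) true (nat_lit 11) true (nat_lit 15) false (nat_lit 5) true (nat_lit 13) true (nat_lit 13) (.s false (nat_lit 1) (nat_lit 98) (nat_lit 1) (nat_lit 0) (nat_lit 2) true (nat_lit 10) true (nat_lit 13) false (nat_lit 6) true (nat_lit 14) true (nat_lit 15) (.s false (nat_lit 2) (nat_lit 99) (nat_lit 1) (nat_lit 0) (nat_lit 2) true (nat_lit 10) true (nat_lit 13) false (nat_lit 6) true (nat_lit 14) true (nat_lit 15) (.s false (nat_lit 1) (nat_lit 100) (nat_lit 1) (nat_lit 0) (nat_lit 2) true (nat_lit 10) true (nat_lit 13) false (nat_lit 6) true (nat_lit 14) true (nat_lit 15) (.s true (nat_lit 1) (nat_lit 101) (nat_lit 1) (nat_lit 0) (nat_lit 2) true (nat_lit 10) true (nat_lit 13) false (nat_lit 6) true (nat_lit 14) true (nat_lit 15) (.s true (nat_lit 2) (nat_lit 98) (nat_lit 2) (nat_lit 0) (nat_lit 1) true (nat_lit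 10) true (nat_lit 14) false (nat_lit 6) true (nat_lit 13) true (nat_lit 15) (.s true (nat_lit 3) (nat_lit 99) (nat_lit 2) (nat_lit 0) (nat_lit 1) true (nat_lit 10) true (nat_lit 14) false (nat_lit 6) true (nat_lit 13) true (nat_lit 15) (.s false (nat_lit 3) (nat_lit 100) (nat_lit 2) (nat_lit 0) (nat_lit 1) true (nat_lit 10) true (nat_lit 14) false (nat_lit 6) true (nat_lit 13) true (nat_lit 15) (.s true (nat_lit 2) (nat_lit 101) (nat_lit 2) (nat_lit 0) (nat_lit 1) true (nat_lit 10) true (nat_lit 14) false (nat_lit 6) true (nat_lit 13) true (nat_lit 15) (.s true (nat_lit 2) (nat_lit 98) (nat_lit 2) (nat_lit 1) (nat_lit 0) true (nat_lit 11) true (nat_lit 15) false (nat_lit 6) true (nat_lit 13) true (nat_lit 14) (.s false (nat_lit 2) (nat_lit 103) (nat_lit 0) (nat_lit 2) (nat_lit 0) false (nat_lit 16) true (nat_lit 15) false (nat_lit 7) true (nat_lit 15) true (nat_lit 13) (.s false (nat_lit 2) (nat_lit 104) (nat_lit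 0) (nat_lit 2) (nat_lit 0) false (nat_lit 16) true (nat_lit 15) false (nat_lit 7) true (nat_lit 15) true (nat_lit 13) (.s true (nat_lit 1) (nat_lit 105) (nat_lit 0) (nat_lit 2) (nat_lit 0) false (nat_lit 16) true (nat_lit 15) false (nat_lit 7) true (nat_lit 15) true (nat_lit 13) (.e true (nat_lit 1) (nat_lit 261) (nat_lit 2) (nat_lit 13) (.e false (nat_lit 2) (nat_lit 262) (nat_lit 2) (nat_lit 13) (.e false (nat_lit 2) (nat_lit 265) (nat_lit 2) (nat_lit 13) (.e true (nat_lit 1) (nat_lit 266) (nat_lit 2) (nat_lit 13) (.e true (nat_lit 3) (nat_lit 267) (nat_lit 2) (nat_lit 13) (.e false (nat_lit 2) (nat_lit 270) (nat_lit 2) (nat_lit 13) (.e true (nat_lit 3) (nat_lit 271) (nat_lit 2) (nat_lit 13) (.e false (nat_lit 1) (nat_lit 272) (nat_lit 2) (nat_lit 13) (.e true (nat_lit 2) (nat_lit 273) (nat_lit 2) (nat_lit 13) (.e false (nat_lit 1) (nat_lit 277) (nat_lit 2) (nat_lit 13) (.e true (nat_lit 3) (nat_lit 278) (nat_lit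 2) (nat_lit 13) (.e false (nat_lit 1) (nat_lit 286) (nat_lit 2) (nat_lit 13) dC1d_i334)))))))))))))))))))))))))

noncomputable def dC1d_i336 : IL := (.s true (nat_lit 3) (nat_lit 61) (nat_lit 2) (nat_lit 2) (nat_lit 2) true (nat_lit 9) true (nat_lit 13) false (nat_lit 3) true (nat_lit 13) true (nat_lit 13) (.s true (nat_lit 3) (nat_lit 62) (nat_lit 2) (nat_lit 2) (nat_lit 2) true (nat_lit 9) true (nat_lit 13) false (nat_lit 3) true (nat_lit 13) true (nat_lit 13) (.s true (nat_lit 1) (nat_lit 64) (nat_lit 2) (nat_lit 2) (nat_lit 2) true (nat_lit 9) true (nat_lit 13) false (nat_lit 3) true (nat_lit 13) true (nat_lit 13) (.s false (nat_lit 2) (nat_lit 77) (nat_lit 1) (nat_lit 2) (nat_lit 2) true (nat_lit 10) true (nat_lit 13) false (nat_lit 4) true (nat_lit 14) true (nat_lit 13) (.s false (nat_lit 3) (nat_lit 78) (nat_lit 1) (nat_lit 2) (nat_lit 2) true (nat_lit 10) true (nat_lit 13) false (nat_lit 4) true (nat_lit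 14) true (nat_lit 13) (.s false (nat_lit 3) (nat_lit 79) (nat_lit 1) (nat_lit 2) (nat_lit 2) true (nat_lit 10) true (nat_lit 13) false (nat_lit 4) true (nat_lit 14) true (nat_lit 13) (.s false (nat_lit 1) (nat_lit 80) (nat_lit 1) (nat_lit 2) (nat_lit 2) true (nat_lit 10) true (nat_lit 13) false (nat_lit 4) true (nat_lit 14) true (nat_lit 13) (.s true (nat_lit 3) (nat_lit 77) (nat_lit 2) (nat_lit 1) (nat_lit 2) true (nat_lit 9) true (nat_lit 13) false (nat_lit 4) true (nat_lit 13) true (nat_lit 14) (.s false (nat_lit 1) (nat_lit 78) (nat_lit 2) (nat_lit 1) (nat_lit 2) true (nat_lit 9) true (nat_lit 13) false (nat_lit 4) true (nat_lit 13) true (nat_lit 14) (.s false (nat_lit 1) (nat_lit 79) (nat_lit 2) (nat_lit 1) (nat_lit 2) true (nat_lit 9) true (nat_lit 13) false (nat_lit 4) true (nat_lit 13) true (nat_lit 14) (.s false (nat_lit 2) (nat_lit 77) (nat_lit 2) (nat_lit 2) (nat_lit 1) true (nat_lit 10) true (nat_lit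 14) false (nat_lit 4) true (nat_lit 13) true (nat_lit 13) (.s true (nat_lit 3) (nat_lit 79) (nat_lit 2) (nat_lit 2) (nat_lit 1) true (nat_lit 10) true (nat_lit 14) false (nat_lit 4) true (nat_lit 13) true (nat_lit 13) (.s false (nat_lit 2) (nat_lit 82) (nat_lit 0) (nat_lit 2) (nat_lit 2) true (nat_lit 11) true (nat_lit 13) false (nat_lit 5) true (nat_lit 15) true (nat_lit 13) (.s false (nat_lit 1) (nat_lit 83) (nat_lit 0) (nat_lit 2) (nat_lit 2) true (nat_lit 11) true (nat_lit 13) false (nat_lit 5) true (nat_lit 15) true (nat_lit 13) (.s false (nat_lit 2) (nat_lit 85) (nat_lit 0) (nat_lit 2) (nat_lit 2) true (nat_lit 11) true (nat_lit 13) false (nat_lit 5) true (nat_lit 15) true (nat_lit 13) (.s true (nat_lit 1) (nat_lit 88) (nat_lit 0) (nat_lit 2) (nat_lit 2) true (nat_lit 11) true (nat_lit 13) false (nat_lit 5) true (nat_lit 15) true (nat_lit 13) (.s false (nat_lit 3) (nat_lit 90) (nat_lit 0) (nat_lit 2) (nat_lit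 2) true (nat_lit 11) true (nat_lit 13) false (nat_lit 5) true (nat_lit 15) true (nat_lit 13) (.s true (nat_lit 3) (nat_lit 91) (nat_lit 0) (nat_lit 2) (nat_lit 2) true (nat_lit 11) true (nat_lit 13) false (nat_lit 5) true (nat_lit 15) true (nat_lit 13) (.s true (nat_lit 1) (nat_lit 83) (nat_lit 2) (nat_lit 0) (nat_lit 2) true (nat_lit 9) true (nat_lit 13) false (nat_lit 5) true (nat_lit 13) true (nat_lit 15) (.s true (nat_lit 1) (nat_lit 82) (nat_lit 2) (nat_lit 2) (nat_lit 0) true (nat_lit 11) true (nat_lit 15) false (nat_lit 5) true (nat_lit 13) true (nat_lit 13) (.s false (nat_lit 3) (nat_lit 83) (nat_lit 2) (nat_lit 2) (nat_lit 0) true (nat_lit 11) true (nat_lit 15) false (nat_lit 5) true (nat_lit 13) true (nat_lit 13) (.s true (nat_lit 2) (nat_lit 84) (nat_lit 2) (nat_lit 2) (nat_lit 0) true (nat_lit 11) true (nat_lit 15) false (nat_lit 5) true (nat_lit 13) true (nat_lit 13) (.s true (nat_lit 2) (nat_lit 85)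 (nat_lit 2) (nat_lit 2) (nat_lit 0) true (nat_lit 11) true (nat_lit 15) false (nat_lit 5) true (nat_lit 13) true (nat_lit 13) (.s true (nat_lit 2) (nat_lit 87) (nat_lit 2) (nat_lit 2) (nat_lit 0) true (nat_lit 11) true (nat_lit 15) false (nat_lit 5) true (nat_lit 13) true (nat_lit 13) (.s true (nat_lit 3) (nat_lit 90) (nat_lit 2) (nat_lit 2) (nat_lit 0) true (nat_lit 11) true (nat_lit 15) false (nat_lit 5) true (nat_lit 13) true (nat_lit 13) dC1d_i335)))))))))))))))))))))))))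

noncomputable def dC1d_i337 : IL := (.s true (nat_lit 2) (nat_lit 29) (nat_lit 2) (nat_lit 6) (nat_lit 1) true (nat_lit 10) true (nat_lit 14) true (nat_lit 1) true (nat_lit 13) true (nat_lit 9) (.s true (nat_lit 2) (nat_lit 28) (nat_lit 5) (nat_lit 2) (nat_lit 2) true (nat_lit 4) true (nat_lit 13) true (nat_lit 1) true (nat_lit 10) true (nat_lit 13) (.s true (nat_lit 3) (nat_lit 28) (nat_lit 6) (nat_lit 2) (nat_lit 1) true (nat_lit 4) true (nat_lit 14) true (nat_lit 1) true (nat_lit 9) true (nat_lit 13) (.s true (nat_lit 1) (nat_lit 31) (nat_lit 0) (nat_lit 2) (nat_lit 6) true (nat_lit 5) true (nat_lit 9) true (nat_lit 0) true (nat_lit 15) true (nat_lit 13) (.s false (nat_lit 3) (nat_lit 32) (nat_lit 0) (nat_lit 2) (nat_lit 6) true (nat_lit 5) true (nat_lit 9) true (nat_lit 0) true (nat_lit 15) true (nat_lit 13) (.s true (nat_lit 2) (nat_lit 33) (nat_lit 0) (nat_lit 2) (nat_lit 6) true (nat_lit 5) true (nat_lit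 9) true (nat_lit 0) true (nat_lit 15) true (nat_lit 13) (.s true (nat_lit 3) (nat_lit 31) (nat_lit 0) (nat_lit 6) (nat_lit 2) true (nat_lit 11) true (nat_lit 13) true (nat_lit 0) true (nat_lit 15) true (nat_lit 9) (.s true (nat_lit 1) (nat_lit 31) (nat_lit 2) (nat_lit 0) (nat_lit 6) true (nat_lit 3) true (nat_lit 9) true (nat_lit 0) true (nat_lit 13) true (nat_lit 15) (.s true (nat_lit 1) (nat_lit 32) (nat_lit 2) (nat_lit 0) (nat_lit 6) true (nat_lit 3) true (nat_lit 9) true (nat_lit 0) true (nat_lit 13) true (nat_lit 15) (.s true (nat_lit 1) (nat_lit 31) (nat_lit 2) (nat_lit 2) (nat_lit 4) true (nat_lit 5) true (nat_lit 11) true (nat_lit 0) true (nat_lit 13) true (nat_lit 13) (.s false (nat_lit 3) (nat_lit 32) (nat_lit 2) (nat_lit 2) (nat_lit 4) true (nat_lit 5) true (nat_lit 11) true (nat_lit 0) true (nat_lit 13) true (nat_lit 13) (.s false (nat_lit 2) (nat_lit 33) (nat_lit 2) (nat_lit 2) (nat_lit 4) true (nat_lit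 5) true (nat_lit 11) true (nat_lit 0) true (nat_lit 13) true (nat_lit 13) (.s false (nat_lit 2) (nat_lit 36) (nat_lit 2) (nat_lit 2) (nat_lit 4) true (nat_lit 5) true (nat_lit 11) true (nat_lit 0) true (nat_lit 13) true (nat_lit 13) (.s true (nat_lit 2) (nat_lit 32) (nat_lit 2) (nat_lit 6) (nat_lit 0) true (nat_lit 11) true (nat_lit 15) true (nat_lit 0) true (nat_lit 13) true (nat_lit 9) (.s true (nat_lit 1) (nat_lit 31) (nat_lit 4) (nat_lit 2) (nat_lit 2) true (nat_lit 5) true (nat_lit 13) true (nat_lit 0) true (nat_lit 11) true (nat_lit 13) (.s false (nat_lit 2) (nat_lit 34) (nat_lit 6) (nat_lit 2) (nat_lit 0) true (nat_lit 5) true (nat_lit 15) true (nat_lit 0) true (nat_lit 9) true (nat_lit 13) (.s false (nat_lit 1) (nat_lit 40) (nat_lit 1) (nat_lit 2) (nat_lit 4) true (nat_lit 6) true (nat_lit 11) false (nat_lit 0) true (nat_lit 14) true (nat_lit 13) (.s true (nat_lit 2) (nat_lit 40) (nat_lit 1) (nat_lit 4)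 (nat_lit 2) true (nat_lit 10) true (nat_lit 13) false (nat_lit 0) true (nat_lit 14) true (nat_lit 11) (.s false (nat_lit 1) (nat_lit 40) (nat_lit 2) (nat_lit 0) (nat_lit 5) true (nat_lit 4) true (nat_lit 10) false (nat_lit 0) true (nat_lit 13) true (nat_lit 15) (.s false (nat_lit 2) (nat_lit 40) (nat_lit 2) (nat_lit 5) (nat_lit 0) true (nat_lit 11) true (nat_lit 15) false (nat_lit 0) true (nat_lit 13) true (nat_lit 10) (.s false (nat_lit 2) (nat_lit 40) (nat_lit 4) (nat_lit 1) (nat_lit 2) true (nat_lit 5) true (nat_lit 13) false (nat_lit 0) true (nat_lit 11) true (nat_lit 14) (.s true (nat_lit 2) (nat_lit 40) (nat_lit 5) (nat_lit 2) (nat_lit 0) true (nat_lit 6) true (nat_lit 15) false (nat_lit 0) true (nat_lit 10) true (nat_lit 13) (.s true (nat_lit 2) (nat_lit 43) (nat_lit 6) (nat_lit 0) (nat_lit 0) true (nat_lit 5) true (nat_lit 15) false (nat_lit 1) true (nat_lit 9) true (nat_lit 15) (.s false (nat_lit 1) (nat_lit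 46) (nat_lit 0) (nat_lit 0) (nat_lit 5) true (nat_lit 6) true (nat_lit 10) false (nat_lit 2) true (nat_lit 15) true (nat_lit 15) (.s false (nat_lit 1) (nat_lit 46) (nat_lit 5) (nat_lit 0) (nat_lit 0) true (nat_lit 6) true (nat_lit 15) false (nat_lit 2) true (nat_lit 10) true (nat_lit 15) dC1d_i336)))))))))))))))))))))))))

noncomputable def dC1d_i338 : IL := (.s true (nat_lit 3) (nat_lit 17) (nat_lit 2) (nat_lit 2) (nat_lit 9) true (nat_lit 1) true (nat_lit 7) true (nat_lit 4) true (nat_lit 13) true (nat_lit 13) (.s true (nat_lit 2) (nat_lit 16) (nat_lit 9) (nat_lit 2) (nat_lit 2) true (nat_lit 1) true (nat_lit 13) true (nat_lit 4) true (nat_lit 7) true (nat_lit 13) (.s false (nat_lit 2) (nat_lit 18) (nat_lit 0) (nat_lit 0) (nat_lit 16) true (nat_lit 0) true (nat_lit 4) true (nat_lit 3) true (nat_lit 15) true (nat_lit 15) (.s true (nat_lit 3) (nat_lit 18) (nat_lit 0) (nat_lit 17) (nat_lit 0) false (nat_lit 16) true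 (nat_lit 15) true (nat_lit 3) true (nat_lit 15) true (nat_lit 4) (.s false (nat_lit 3) (nat_lit 18) (nat_lit 2) (nat_lit 9) (nat_lit 1) true (nat_lit 10) true (nat_lit 14) true (nat_lit 3) true (nat_lit 13) true (nat_lit 7) (.s true (nat_lit 2) (nat_lit 18) (nat_lit 2) (nat_lit 10) (nat_lit 0) true (nat_lit 11) true (nat_lit 15) true (nat_lit 3) true (nat_lit 13) true (nat_lit 6) (.s false (nat_lit 1) (nat_lit 18) (nat_lit 2) (nat_lit 11) (nat_lit 0) true (nat_lit 11) true (nat_lit 15) true (nat_lit 3) true (nat_lit 13) true (nat_lit 6) (.s true (nat_lit 2) (nat_lit 18) (nat_lit 4) (nat_lit 2) (nat_lit 3) true (nat_lit 2) true (nat_lit 12) true (nat_lit 3) true (nat_lit 11) true (nat_lit 13) (.s true (nat_lit 3) (nat_lit 18) (nat_lit 9) (nat_lit 2) (nat_lit 1) true (nat_lit 2) true (nat_lit 14) true (nat_lit 3) true (nat_lit 7) true (nat_lit 13) (.s false (nat_lit 1) (nat_lit 18) (nat_lit 10) (nat_lit 0) (nat_lit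 2) true (nat_lit 0) true (nat_lit 13) true (nat_lit 3) true (nat_lit 6) true (nat_lit 15) (.s false (nat_lit 2) (nat_lit 18) (nat_lit 11) (nat_lit 0) (nat_lit 2) true (nat_lit 0) true (nat_lit 13) true (nat_lit 3) true (nat_lit 6) true (nat_lit 15) (.s false (nat_lit 2) (nat_lit 18) (nat_lit 14) (nat_lit 0) (nat_lit 1) true (nat_lit 0) true (nat_lit 14) true (nat_lit 3) true (nat_lit 5) true (nat_lit 15) (.s true (nat_lit 1) (nat_lit 20) (nat_lit 2) (nat_lit 2) (nat_lit 6) true (nat_lit 3) true (nat_lit 9) true (nat_lit 2) true (nat_lit 13) true (nat_lit 13) (.s false (nat_lit 2) (nat_lit 21) (nat_lit 2) (nat_lit 2) (nat_lit 6) true (nat_lit 3) true (nat_lit 9) true (nat_lit 2) true (nat_lit 13) true (nat_lit 13) (.s true (nat_lit 1) (nat_lit 23) (nat_lit 2) (nat_lit 2) (nat_lit 6) true (nat_lit 3) true (nat_lit 9) true (nat_lit 2) true (nat_lit 13) true (nat_lit 13) (.s true (nat_lit 3) (nat_lit 22) (nat_lit 2)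 (nat_lit 6) (nat_lit 2) true (nat_lit 9) true (nat_lit 13) true (nat_lit 2) true (nat_lit 13) true (nat_lit 9) (.s true (nat_lit 3) (nat_lit 23) (nat_lit 2) (nat_lit 6) (nat_lit 2) true (nat_lit 9) true (nat_lit 13) true (nat_lit 2) true (nat_lit 13) true (nat_lit 9) (.s false (nat_lit 1) (nat_lit 21) (nat_lit 6) (nat_lit 2) (nat_lit 2) true (nat_lit 3) true (nat_lit 13) true (nat_lit 2) true (nat_lit 9) true (nat_lit 13) (.s true (nat_lit 1) (nat_lit 22) (nat_lit 6) (nat_lit 2) (nat_lit 2) true (nat_lit 3) true (nat_lit 13) true (nat_lit 2) true (nat_lit 9) true (nat_lit 13) (.s false (nat_lit 1) (nat_lit 29) (nat_lit 1) (nat_lit 2) (nat_lit 6) true (nat_lit 4) true (nat_lit 9) true (nat_lit 1) true (nat_lit 14) true (nat_lit 13) (.s true (nat_lit 2) (nat_lit 29) (nat_lit 1) (nat_lit 6) (nat_lit 2) true (nat_lit 10) true (nat_lit 13) true (nat_lit 1) true (nat_lit 14) true (nat_lit 9) (.s true (nat_lit 2) (nat_lit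 28) (nat_lit 2) (nat_lit 1) (nat_lit 6) true (nat_lit 3) true (nat_lit 9) true (nat_lit 1) true (nat_lit 13) true (nat_lit 14) (.s false (nat_lit 2) (nat_lit 28) (nat_lit 2) (nat_lit 2) (nat_lit 5) true (nat_lit 4) true (nat_lit 10) true (nat_lit 1) true (nat_lit 13) true (nat_lit 13) (.s false (nat_lit 1) (nat_lit 29) (nat_lit 2) (nat_lit 2) (nat_lit 5) true (nat_lit 4) true (nat_lit 10) true (nat_lit 1) true (nat_lit 13) true (nat_lit 13) (.s true (nat_lit 3) (nat_lit 28) (nat_lit 2) (nat_lit 5) (nat_lit 2) true (nat_lit 9) true (nat_lit 13) true (nat_lit 1) true (nat_lit 13) true (nat_lit 10) dC1d_i337)))))))))))))))))))))))))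

noncomputable def dC1d_i339 : IL := (.e false (nat_lit 3) (nat_lit 310) (nat_lit 0) (nat_lit 19) (.e false (nat_lit 1) (nat_lit 296) (nat_lit 0) (nat_lit 19) (.e true (nat_lit 1) (nat_lit 297) (nat_lit 0) (nat_lit 19) (.e true (nat_lit 2) (nat_lit 300) (nat_lit 0) (nat_lit 19) (.e false (nat_lit 3) (nat_lit 260) (nat_lit 1) (nat_lit 18) (.e true (nat_lit 3) (nat_lit 261) (nat_lit 1) (nat_lit 18) (.e false (nat_lit 2) (nat_lit 262) (nat_lit 1) (nat_lit 18) (.e false (nat_lit 1) (nat_lit 263) (nat_lit 1) (nat_lit 18) (.e false (nat_lit 3) (nat_lit 265) (nat_lit 1) (nat_lit 18) (.e true (nat_lit 2) (nat_lit 266) (nat_lit 1) (nat_lit 18) (.e true (nat_lit 2) (nat_lit 270) (nat_lit 1) (nat_lit 18) (.e false (nat_lit 2) (nat_lit 271) (nat_lit 1) (nat_lit 18) (.e true (nat_lit 2) (nat_lit 272) (nat_lit 1) (nat_lit 18) (.e true (nat_lit 3) (nat_lit 273) (nat_lit 1) (nat_lit 18) (.e false (nat_lit 3) (nat_lit 288) (nat_lit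 1) (nat_lit 18) (.e true (nat_lit 2) (nat_lit 264) (nat_lit 1) (nat_lit 18) (.e false (nat_lit 2) (nat_lit 268) (nat_lit 1) (nat_lit 18) (.e true (nat_lit 2) (nat_lit 279) (nat_lit 1) (nat_lit 18) (.e true (nat_lit 3) (nat_lit 280) (nat_lit 1) (nat_lit 18) (.e true (nat_lit 1) (nat_lit 143) (nat_lit 5) (nat_lit 14) (.e true (nat_lit 1) (nat_lit 144) (nat_lit 5) (nat_lit 14) (.e false (nat_lit 1) (nat_lit 281) (nat_lit 1) (nat_lit 18) (.e false (nat_lit 1) (nat_lit 282) (nat_lit 1) (nat_lit 18) (.u (nat_lit 2) (.p (nat_lit 2) (nat_lit 1) (.p (nat_lit 3) (nat_lit 3) (.p (nat_lit 4) (nat_lit 1) (.n (nat_lit 8) (nat_lit 5) (.n (nat_lit 9) (nat_lit 2) (.p (nat_lit 12) (nat_lit 1) (.p (nat_lit 15) (nat_lit 1) (.n (nat_lit 18) (nat_lit 3) (.p (nat_lit 20) (nat_lit 1) (.n (nat_lit 26) (nat_lit 2) (.p (nat_lit 27) (nat_lit 3) (.p (nat_lit 28) (nat_lit 1) (.p (nat_lit 30) (nat_lit 1) (.n (nat_lit 31) (nat_lit 1) (.p (nat_lit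 32) (nat_lit 3) (.n (nat_lit 33) (nat_lit 1) (.n (nat_lit 34) (nat_lit 2) (.p (nat_lit 35) (nat_lit 1) (.p (nat_lit 36) (nat_lit 2) (.p (nat_lit 37) (nat_lit 1) (.n (nat_lit 39) (nat_lit 1) (.n (nat_lit 40) (nat_lit 2) (.n (nat_lit 41) (nat_lit 2) (.p (nat_lit 140) (nat_lit 1) (.n (nat_lit 244) (nat_lit 1) (.p (nat_lit 311) (nat_lit 1) (.p (nat_lit 312) (nat_lit 2) (.p (nat_lit 314) (nat_lit 1) (.p (nat_lit 327) (nat_lit 5) (.p (nat_lit 328) (nat_lit 4) (.p (nat_lit 329) (nat_lit 1) (.p (nat_lit 330) (nat_lit 6) (.n (nat_lit 331) (nat_lit 2) (.n (nat_lit 332) (nat_lit 1) (.p (nat_lit 333) (nat_lit 8) (.n (nat_lit 334) (nat_lit 4) (.p (nat_lit 335) (nat_lit 5) (.n (nat_lit 336) (nat_lit 4) (.n (nat_lit 337) (nat_lit 3) (.n (nat_lit 338) (nat_lit 3) (.n (nat_lit 339) (nat_lit 2) (.n (nat_lit 342) (nat_lit 2) (.n (nat_lit 344) (nat_lit 3) (.n (nat_lit 345) (nat_lit 1) (.n (nat_lit 346) (nat_lit 5) (.p (nat_lit 347)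 (nat_lit 5) (.n (nat_lit 349) (nat_lit 1) (.p (nat_lit 350) (nat_lit 7) (.p (nat_lit 351) (nat_lit 6) (.n (nat_lit 352) (nat_lit 1) (.n (nat_lit 353) (nat_lit 3) (.p (nat_lit 354) (nat_lit 8) (.p (nat_lit 355) (nat_lit 4) (.n (nat_lit 356) (nat_lit 3) (.n (nat_lit 357) (nat_lit 2) (.p (nat_lit 358) (nat_lit 6) (.n (nat_lit 359) (nat_lit 1) (.n (nat_lit 360) (nat_lit 6) (.p (nat_lit 361) (nat_lit 2) (.n (nat_lit 362) (nat_lit 2) .z)))))))))))))))))))))))))))))))))))))))))))))))))))))))))))) (.u (nat_lit 2) (.n (nat_lit 363) (nat_lit 2) (.p (nat_lit 364) (nat_lit 2) (.n (nat_lit 375) (nat_lit 6) (.n (nat_lit 376) (nat_lit 1) (.p (nat_lit 377) (nat_lit 3) (.n (nat_lit 378) (nat_lit 1) (.n (nat_lit 379) (nat_lit 1) (.n (nat_lit 380) (nat_lit 10) (.n (nat_lit 382) (nat_lit 7) (.p (nat_lit 383) (nat_lit 4) (.n (nat_lit 385) (nat_lit 6) (.n (nat_lit 386) (nat_lit 5) (.p (nat_lit 387) (nat_lit 5) (.n (nat_lit 388) (nat_lit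 5) (.n (nat_lit 389) (nat_lit 8) (.p (nat_lit 392) (nat_lit 1) (.p (nat_lit 393) (nat_lit 3) (.p (nat_lit 394) (nat_lit 12) (.n (nat_lit 395) (nat_lit 4) (.n (nat_lit 396) (nat_lit 2) (.p (nat_lit 397) (nat_lit 3) (.p (nat_lit 398) (nat_lit 3) (.n (nat_lit 399) (nat_lit 1) (.n (nat_lit 400) (nat_lit 2) (.n (nat_lit 401) (nat_lit 3) (.n (nat_lit 402) (nat_lit 1) (.n (nat_lit 404) (nat_lit 2) (.p (nat_lit 405) (nat_lit 1) (.p (nat_lit 406) (nat_lit 6) (.n (nat_lit 407) (nat_lit 1) (.n (nat_lit 408) (nat_lit 9) (.n (nat_lit 409) (nat_lit 2) (.n (nat_lit 410) (nat_lit 4) (.n (nat_lit 411) (nat_lit 4) (.p (nat_lit 412) (nat_lit 6) (.p (nat_lit 413) (nat_lit 3) (.n (nat_lit 414) (nat_lit 2) (.p (nat_lit 415) (nat_lit 2) (.n (nat_lit 416) (nat_lit 9) (.p (nat_lit 417) (nat_lit 1) (.p (nat_lit 418) (nat_lit 1) (.p (nat_lit 419) (nat_lit 5) (.n (nat_lit 420) (nat_lit 1) (.n (nat_lit 421) (nat_lit 1) (.p (nat_lit 422) (nat_lit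 4) (.p (nat_lit 423) (nat_lit 1) (.p (nat_lit 424) (nat_lit 1) (.n (nat_lit 425) (nat_lit 3) (.n (nat_lit 427) (nat_lit 1) (.p (nat_lit 429) (nat_lit 1) (.p (nat_lit 430) (nat_lit 2) (.p (nat_lit 431) (nat_lit 1) (.n (nat_lit 432) (nat_lit 4) (.p (nat_lit 433) (nat_lit 4) (.n (nat_lit 434) (nat_lit 3) .z))))))))))))))))))))))))))))))))))))))))))))))))))))))) .nil)))))))))))))))))))))))))

noncomputable def dC1d_i340 : IL := (.s false (nat_lit 1) (nat_lit 81) (nat_lit 2) (nat_lit 1) (nat_lit 1) true (nat_lit 14) true (nat_lit 18) false (nat_lit 8) true (nat_lit 17) true (nat_lit 18) (.s true (nat_lit 2) (nat_lit 82) (nat_lit 1) (nat_lit 2) (nat_lit 0) true (nat_lit 16) true (nat_lit 19) false (nat_lit 9) true (nat_lit 18) true (nat_lit 17) (.s true (nat_lit 3) (nat_lit 83) (nat_lit 1) (nat_lit 2) (nat_lit 0) true (nat_lit 16) true (nat_lit 19) false (nat_lit 9) true (nat_lit 18) true (nat_lit 17) (.s false (nat_lit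 3) (nat_lit 84) (nat_lit 1) (nat_lit 2) (nat_lit 0) true (nat_lit 16) true (nat_lit 19) false (nat_lit 9) true (nat_lit 18) true (nat_lit 17) (.s true (nat_lit 1) (nat_lit 85) (nat_lit 1) (nat_lit 2) (nat_lit 0) true (nat_lit 16) true (nat_lit 19) false (nat_lit 9) true (nat_lit 18) true (nat_lit 17) (.s false (nat_lit 1) (nat_lit 87) (nat_lit 1) (nat_lit 2) (nat_lit 0) true (nat_lit 16) true (nat_lit 19) false (nat_lit 9) true (nat_lit 18) true (nat_lit 17) (.s false (nat_lit 2) (nat_lit 90) (nat_lit 1) (nat_lit 2) (nat_lit 0) true (nat_lit 16) true (nat_lit 19) false (nat_lit 9) true (nat_lit 18) true (nat_lit 17) (.s false (nat_lit 1) (nat_lit 91) (nat_lit 1) (nat_lit 2) (nat_lit 0) true (nat_lit 16) true (nat_lit 19) false (nat_lit 9) true (nat_lit 18) true (nat_lit 17) (.s true (nat_lit 1) (nat_lit 92) (nat_lit 1) (nat_lit 2) (nat_lit 0) true (nat_lit 16) true (nat_lit 19) false (nat_lit 9) true (nat_lit 18)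 true (nat_lit 17) (.s false (nat_lit 2) (nat_lit 100) (nat_lit 0) (nat_lit 1) (nat_lit 1) true (nat_lit 16) true (nat_lit 18) false (nat_lit 11) true (nat_lit 19) true (nat_lit 18) (.s false (nat_lit 1) (nat_lit 99) (nat_lit 1) (nat_lit 0) (nat_lit 1) false (nat_lit 21) true (nat_lit 18) false (nat_lit 11) true (nat_lit 18) true (nat_lit 19) (.s false (nat_lit 2) (nat_lit 100) (nat_lit 1) (nat_lit 0) (nat_lit 1) false (nat_lit 21) true (nat_lit 18) false (nat_lit 11) true (nat_lit 18) true (nat_lit 19) (.s true (nat_lit 1) (nat_lit 101) (nat_lit 1) (nat_lit 0) (nat_lit 1) false (nat_lit 21) true (nat_lit 18) false (nat_lit 11) true (nat_lit 18) true (nat_lit 19) (.s false (nat_lit 3) (nat_lit 104) (nat_lit 0) (nat_lit 1) (nat_lit 0) false (nat_lit 20) true (nat_lit 19) false (nat_lit 12) true (nat_lit 19) true (nat_lit 18) (.e true (nat_lit 1) (nat_lit 77) (nat_lit 13) (nat_lit 8) (.e true (nat_lit 1) (nat_lit 78)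 (nat_lit 13) (nat_lit 8) (.e true (nat_lit 3) (nat_lit 316) (nat_lit 0) (nat_lit 19) (.e true (nat_lit 3) (nat_lit 317) (nat_lit 0) (nat_lit 19) (.e true (nat_lit 2) (nat_lit 291) (nat_lit 0) (nat_lit 19) (.e true (nat_lit 1) (nat_lit 292) (nat_lit 0) (nat_lit 19) (.e false (nat_lit 1) (nat_lit 293) (nat_lit 0) (nat_lit 19) (.e true (nat_lit 2) (nat_lit 294) (nat_lit 0) (nat_lit 19) (.e true (nat_lit 3) (nat_lit 298) (nat_lit 0) (nat_lit 19) (.e false (nat_lit 1) (nat_lit 299) (nat_lit 0) (nat_lit 19) (.e true (nat_lit 3) (nat_lit 304) (nat_lit 0) (nat_lit 19) dC1d_i339)))))))))))))))))))))))))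

noncomputable def dC1d_i341 : IL := (.s true (nat_lit 1) (nat_lit 18) (nat_lit 2) (nat_lit 3) (nat_lit 3) true (nat_lit 9) true (nat_lit 16) true (nat_lit 5) true (nat_lit 17) true (nat_lit 16) (.s false (nat_lit 2) (nat_lit 18) (nat_lit 2) (nat_lit 7) (nat_lit 1) true (nat_lit 14) true (nat_lit 18) true (nat_lit 5) true (nat_lit 17) true (nat_lit 12) (.s true (nat_lit 1) (nat_lit 18) (nat_lit 3) (nat_lit 3) (nat_lit 2) true (nat_lit 9) true (nat_lit 17) true (nat_lit 5) true (nat_lit 16) true (nat_lit 16) (.s false (nat_lit 1) (nat_lit 18) (nat_lit 4) (nat_lit 1) (nat_lit 3) true (nat_lit 3) true (nat_lit 16) true (nat_lit 5) true (nat_lit 15) true (nat_lit 18) (.s false (nat_lit 3) (nat_lit 18) (nat_lit 8) (nat_lit 0) (nat_lit 2) true (nat_lit 2) true (nat_lit 17) true (nat_lit 5) true (nat_lit 11) true (nat_lit 19) (.s true (nat_lit 3) (nat_lit 18) (nat_lit 8) (nat_lit 2) (nat_lit 0) true (nat_lit 4) true (nat_lit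 19) true (nat_lit 5) true (nat_lit 11) true (nat_lit 17) (.s false (nat_lit 1) (nat_lit 18) (nat_lit 10) (nat_lit 0) (nat_lit 1) true (nat_lit 2) true (nat_lit 18) true (nat_lit 5) true (nat_lit 9) true (nat_lit 19) (.s false (nat_lit 1) (nat_lit 18) (nat_lit 10) (nat_lit 1) (nat_lit 0) true (nat_lit 3) true (nat_lit 19) true (nat_lit 5) true (nat_lit 9) true (nat_lit 18) (.s true (nat_lit 3) (nat_lit 19) (nat_lit 2) (nat_lit 2) (nat_lit 6) true (nat_lit 5) true (nat_lit 13) true (nat_lit 4) true (nat_lit 17) true (nat_lit 17) (.s false (nat_lit 2) (nat_lit 20) (nat_lit 2) (nat_lit 5) (nat_lit 2) true (nat_lit 13) true (nat_lit 17) true (nat_lit 3) true (nat_lit 17) true (nat_lit 14) (.s false (nat_lit 1) (nat_lit 24) (nat_lit 0) (nat_lit 2) (nat_lit 6) true (nat_lit 7) true (nat_lit 13) true (nat_lit 2) true (nat_lit 19) true (nat_lit 17) (.s false (nat_lit 3) (nat_lit 24) (nat_lit 0) (nat_lit 6) (nat_lit 2) true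 (nat_lit 15) true (nat_lit 17) true (nat_lit 2) true (nat_lit 19) true (nat_lit 13) (.s false (nat_lit 2) (nat_lit 24) (nat_lit 2) (nat_lit 6) (nat_lit 0) true (nat_lit 15) true (nat_lit 19) true (nat_lit 2) true (nat_lit 17) true (nat_lit 13) (.s false (nat_lit 1) (nat_lit 24) (nat_lit 6) (nat_lit 0) (nat_lit 2) true (nat_lit 5) true (nat_lit 17) true (nat_lit 2) true (nat_lit 13) true (nat_lit 19) (.s false (nat_lit 1) (nat_lit 42) (nat_lit 1) (nat_lit 5) (nat_lit 0) true (nat_lit 16) true (nat_lit 19) false (nat_lit 2) true (nat_lit 18) true (nat_lit 14) (.s true (nat_lit 1) (nat_lit 45) (nat_lit 2) (nat_lit 0) (nat_lit 3) true (nat_lit 9) true (nat_lit 16) false (nat_lit 3) true (nat_lit 17) true (nat_lit 19) (.s true (nat_lit 1) (nat_lit 45) (nat_lit 3) (nat_lit 2) (nat_lit 0) true (nat_lit 12) true (nat_lit 19) false (nat_lit 3) true (nat_lit 16) true (nat_lit 17) (.s false (nat_lit 1) (nat_lit 45) (nat_lit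 5) (nat_lit 0) (nat_lit 0) true (nat_lit 9) true (nat_lit 19) false (nat_lit 3) true (nat_lit 14) true (nat_lit 19) (.s false (nat_lit 1) (nat_lit 46) (nat_lit 0) (nat_lit 1) (nat_lit 3) true (nat_lit 12) true (nat_lit 16) false (nat_lit 4) true (nat_lit 19) true (nat_lit 18) (.s true (nat_lit 1) (nat_lit 46) (nat_lit 3) (nat_lit 1) (nat_lit 0) true (nat_lit 12) true (nat_lit 19) false (nat_lit 4) true (nat_lit 16) true (nat_lit 18) (.s false (nat_lit 2) (nat_lit 48) (nat_lit 2) (nat_lit 2) (nat_lit 2) true (nat_lit 13) true (nat_lit 17) false (nat_lit 5) true (nat_lit 17) true (nat_lit 17) (.s false (nat_lit 2) (nat_lit 55) (nat_lit 1) (nat_lit 2) (nat_lit 2) true (nat_lit 14) true (nat_lit 17) false (nat_lit 6) true (nat_lit 18) true (nat_lit 17) (.s false (nat_lit 2) (nat_lit 65) (nat_lit 2) (nat_lit 2) (nat_lit 1) true (nat_lit 14) true (nat_lit 18) false (nat_lit 6) true (nat_lit 17) true (nat_lit 17) (.s false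 (nat_lit 1) (nat_lit 74) (nat_lit 0) (nat_lit 2) (nat_lit 2) true (nat_lit 15) true (nat_lit 17) false (nat_lit 7) true (nat_lit 19) true (nat_lit 17) (.s false (nat_lit 1) (nat_lit 74) (nat_lit 2) (nat_lit 0) (nat_lit 2) true (nat_lit 13) true (nat_lit 17) false (nat_lit 7) true (nat_lit 17) true (nat_lit 19) dC1d_i340)))))))))))))))))))))))))

noncomputable def dC1d_i342 : IL := (.e true (nat_lit 2) (nat_lit 281) (nat_lit 1) (nat_lit 18) (.e false (nat_lit 3) (nat_lit 262) (nat_lit 1) (nat_lit 18) (.e true (nat_lit 2) (nat_lit 282) (nat_lit 1) (nat_lit 18) (.e false (nat_lit 1) (nat_lit 291) (nat_lit 0) (nat_lit 19) (.e true (nat_lit 1) (nat_lit 294) (nat_lit 0) (nat_lit 19) (.e true (nat_lit 3) (nat_lit 301) (nat_lit 0) (nat_lit 19) (.e true (nat_lit 2) (nat_lit 290) (nat_lit 0) (nat_lit 19) (.e true (nat_lit 2) (nat_lit 292) (nat_lit 0) (nat_lit 19) (.e true (nat_lit 1) (nat_lit 293) (nat_lit 0) (nat_lit 19)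 (.e true (nat_lit 3) (nat_lit 302) (nat_lit 0) (nat_lit 19) (.e true (nat_lit 2) (nat_lit 305) (nat_lit 0) (nat_lit 19) (.e false (nat_lit 3) (nat_lit 295) (nat_lit 0) (nat_lit 19) (.e false (nat_lit 2) (nat_lit 308) (nat_lit 0) (nat_lit 19) (.e false (nat_lit 1) (nat_lit 316) (nat_lit 0) (nat_lit 19) (.e true (nat_lit 3) (nat_lit 300) (nat_lit 0) (nat_lit 19) (.e false (nat_lit 2) (nat_lit 304) (nat_lit 0) (nat_lit 19) (.e false (nat_lit 3) (nat_lit 310) (nat_lit 0) (nat_lit 19) (.e false (nat_lit 2) (nat_lit 77) (nat_lit 13) (nat_lit 8) (.e false (nat_lit 2) (nat_lit 78) (nat_lit 13) (nat_lit 8) (.e false (nat_lit 2) (nat_lit 143) (nat_lit 5) (nat_lit 14) (.e false (nat_lit 2) (nat_lit 144) (nat_lit 5) (nat_lit 14) (.u (nat_lit 2) (.n (nat_lit 0) (nat_lit 1) (.n (nat_lit 2) (nat_lit 1) (.p (nat_lit 3) (nat_lit 1) (.p (nat_lit 4) (nat_lit 1) (.n (nat_lit 8) (nat_lit 1) (.n (nat_lit 11) (nat_lit 2) (.n (nat_lit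 12) (nat_lit 1) (.p (nat_lit 14) (nat_lit 2) (.n (nat_lit 15) (nat_lit 2) (.n (nat_lit 17) (nat_lit 2) (.p (nat_lit 19) (nat_lit 1) (.n (nat_lit 20) (nat_lit 1) (.n (nat_lit 26) (nat_lit 1) (.p (nat_lit 27) (nat_lit 1) (.n (nat_lit 29) (nat_lit 1) (.p (nat_lit 31) (nat_lit 1) (.p (nat_lit 32) (nat_lit 1) (.p (nat_lit 35) (nat_lit 1) (.n (nat_lit 36) (nat_lit 1) (.n (nat_lit 37) (nat_lit 1) (.n (nat_lit 39) (nat_lit 1) (.p (nat_lit 40) (nat_lit 1) (.p (nat_lit 41) (nat_lit 1) (.p (nat_lit 71) (nat_lit 2) (.p (nat_lit 72) (nat_lit 1) (.n (nat_lit 73) (nat_lit 1) (.n (nat_lit 74) (nat_lit 1) (.n (nat_lit 75) (nat_lit 1) (.p (nat_lit 76) (nat_lit 1) (.p (nat_lit 77) (nat_lit 1) (.n (nat_lit 83) (nat_lit 1) (.n (nat_lit 89) (nat_lit 1) (.p (nat_lit 96) (nat_lit 1) (.n (nat_lit 97) (nat_lit 1) (.p (nat_lit 98) (nat_lit 1) (.p (nat_lit 99) (nat_lit 1) (.n (nat_lit 100) (nat_lit 1) (.p (nat_lit 101) (nat_lit 1) (.n (nat_lit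 117) (nat_lit 1) (.n (nat_lit 130) (nat_lit 1) (.p (nat_lit 136) (nat_lit 1) (.p (nat_lit 139) (nat_lit 1) (.p (nat_lit 141) (nat_lit 1) (.p (nat_lit 142) (nat_lit 2) (.p (nat_lit 143) (nat_lit 1) (.n (nat_lit 144) (nat_lit 2) (.n (nat_lit 146) (nat_lit 2) (.n (nat_lit 147) (nat_lit 1) (.p (nat_lit 148) (nat_lit 3) (.p (nat_lit 149) (nat_lit 1) (.p (nat_lit 160) (nat_lit 1) (.n (nat_lit 161) (nat_lit 1) (.p (nat_lit 163) (nat_lit 1) (.n (nat_lit 166) (nat_lit 1) (.p (nat_lit 169) (nat_lit 1) (.p (nat_lit 170) (nat_lit 1) (.p (nat_lit 175) (nat_lit 1) (.p (nat_lit 182) (nat_lit 3) (.p (nat_lit 183) (nat_lit 3) (.p (nat_lit 185) (nat_lit 1) .z)))))))))))))))))))))))))))))))))))))))))))))))))))))))))))) (.u (nat_lit 2) (.p (nat_lit 186) (nat_lit 2) (.n (nat_lit 187) (nat_lit 1) (.n (nat_lit 188) (nat_lit 2) (.n (nat_lit 190) (nat_lit 2) (.p (nat_lit 191) (nat_lit 2) (.p (nat_lit 192) (nat_lit 2) (.n (nat_lit 220) (nat_lit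 1) (.n (nat_lit 221) (nat_lit 1) (.p (nat_lit 222) (nat_lit 1) (.p (nat_lit 225) (nat_lit 1) (.p (nat_lit 228) (nat_lit 1) (.n (nat_lit 237) (nat_lit 2) (.n (nat_lit 238) (nat_lit 2) (.n (nat_lit 241) (nat_lit 1) (.p (nat_lit 243) (nat_lit 1) (.p (nat_lit 244) (nat_lit 2) (.p (nat_lit 245) (nat_lit 1) (.p (nat_lit 249) (nat_lit 1) (.n (nat_lit 251) (nat_lit 1) (.p (nat_lit 252) (nat_lit 1) (.n (nat_lit 261) (nat_lit 1) (.n (nat_lit 263) (nat_lit 1) (.n (nat_lit 266) (nat_lit 1) (.n (nat_lit 271) (nat_lit 1) (.p (nat_lit 275) (nat_lit 1) (.n (nat_lit 276) (nat_lit 1) (.n (nat_lit 278) (nat_lit 1) (.p (nat_lit 279) (nat_lit 2) (.n (nat_lit 284) (nat_lit 1) (.n (nat_lit 286) (nat_lit 1) (.n (nat_lit 290) (nat_lit 1) (.p (nat_lit 291) (nat_lit 1) (.p (nat_lit 292) (nat_lit 1) (.n (nat_lit 293) (nat_lit 1) (.p (nat_lit 294) (nat_lit 3) (.p (nat_lit 296) (nat_lit 1) (.n (nat_lit 297) (nat_lit 1) (.n (nat_lit 298) (nat_lit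 2) (.p (nat_lit 303) (nat_lit 1) (.n (nat_lit 307) (nat_lit 1) (.p (nat_lit 308) (nat_lit 2) (.n (nat_lit 312) (nat_lit 4) (.n (nat_lit 314) (nat_lit 3) (.p (nat_lit 315) (nat_lit 1) (.n (nat_lit 316) (nat_lit 1) (.p (nat_lit 318) (nat_lit 1) (.p (nat_lit 320) (nat_lit 4) (.p (nat_lit 321) (nat_lit 4) (.n (nat_lit 322) (nat_lit 1) (.n (nat_lit 324) (nat_lit 2) (.n (nat_lit 326) (nat_lit 1) (.n (nat_lit 327) (nat_lit 12) (.p (nat_lit 328) (nat_lit 16) (.p (nat_lit 329) (nat_lit 14) (.n (nat_lit 330) (nat_lit 48) (.p (nat_lit 331) (nat_lit 18) (.p (nat_lit 332) (nat_lit 5) (.n (nat_lit 333) (nat_lit 12) (.p (nat_lit 334) (nat_lit 37) (.n (nat_lit 335) (nat_lit 15) .z)))))))))))))))))))))))))))))))))))))))))))))))))))))))))))) (.u (nat_lit 2) (.p (nat_lit 336) (nat_lit 15) (.p (nat_lit 337) (nat_lit 4) (.p (nat_lit 338) (nat_lit 25) (.n (nat_lit 339) (nat_lit 32) (.n (nat_lit 340) (nat_lit 3) (.p (nat_lit 341) (nat_lit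 9) (.n (nat_lit 342) (nat_lit 35) (.n (nat_lit 343) (nat_lit 1) (.p (nat_lit 344) (nat_lit 9) (.n (nat_lit 345) (nat_lit 2) (.n (nat_lit 346) (nat_lit 6) (.n (nat_lit 347) (nat_lit 25) (.p (nat_lit 348) (nat_lit 4) (.p (nat_lit 349) (nat_lit 5) (.n (nat_lit 350) (nat_lit 30) (.n (nat_lit 351) (nat_lit 23) (.n (nat_lit 352) (nat_lit 19) (.p (nat_lit 353) (nat_lit 1) (.n (nat_lit 354) (nat_lit 13) (.n (nat_lit 355) (nat_lit 11) (.p (nat_lit 356) (nat_lit 25) (.p (nat_lit 357) (nat_lit 21) (.n (nat_lit 358) (nat_lit 9) (.n (nat_lit 359) (nat_lit 13) (.n (nat_lit 360) (nat_lit 7) (.n (nat_lit 361) (nat_lit 1) (.n (nat_lit 362) (nat_lit 1) (.p (nat_lit 363) (nat_lit 26) (.p (nat_lit 364) (nat_lit 5) (.n (nat_lit 365) (nat_lit 4) (.n (nat_lit 366) (nat_lit 3) (.p (nat_lit 367) (nat_lit 7) (.n (nat_lit 368) (nat_lit 9) (.p (nat_lit 369) (nat_lit 11) (.n (nat_lit 371) (nat_lit 12) (.p (nat_lit 372) (nat_lit 4) (.p (nat_lit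 373) (nat_lit 15) (.n (nat_lit 374) (nat_lit 5) (.p (nat_lit 375) (nat_lit 25) (.p (nat_lit 376) (nat_lit 10) (.n (nat_lit 377) (nat_lit 31) (.p (nat_lit 378) (nat_lit 22) (.p (nat_lit 380) (nat_lit 32) (.p (nat_lit 381) (nat_lit 26) (.p (nat_lit 382) (nat_lit 23) (.n (nat_lit 383) (nat_lit 21) (.n (nat_lit 384) (nat_lit 36) (.p (nat_lit 385) (nat_lit 13) (.p (nat_lit 386) (nat_lit 13) (.n (nat_lit 387) (nat_lit 18) (.p (nat_lit 388) (nat_lit 22) (.p (nat_lit 389) (nat_lit 10) (.p (nat_lit 391) (nat_lit 1) (.n (nat_lit 392) (nat_lit 19) (.n (nat_lit 393) (nat_lit 25) (.n (nat_lit 394) (nat_lit 19) (.p (nat_lit 395) (nat_lit 6) (.n (nat_lit 396) (nat_lit 2) (.n (nat_lit 397) (nat_lit 5) (.n (nat_lit 398) (nat_lit 12) .z)))))))))))))))))))))))))))))))))))))))))))))))))))))))))))) (.u (nat_lit 2) (.p (nat_lit 399) (nat_lit 13) (.p (nat_lit 400) (nat_lit 4) (.p (nat_lit 401) (nat_lit 9) (.p (nat_lit 402) (nat_lit 10)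 (.n (nat_lit 403) (nat_lit 8) (.p (nat_lit 405) (nat_lit 6) (.n (nat_lit 406) (nat_lit 11) (.p (nat_lit 407) (nat_lit 10) (.p (nat_lit 408) (nat_lit 2) (.p (nat_lit 409) (nat_lit 1) (.p (nat_lit 410) (nat_lit 6) (.p (nat_lit 411) (nat_lit 1) (.n (nat_lit 412) (nat_lit 21) (.n (nat_lit 413) (nat_lit 5) (.p (nat_lit 414) (nat_lit 2) (.n (nat_lit 415) (nat_lit 3) (.p (nat_lit 416) (nat_lit 14) (.p (nat_lit 417) (nat_lit 21) (.n (nat_lit 418) (nat_lit 7) (.n (nat_lit 419) (nat_lit 1) (.p (nat_lit 420) (nat_lit 18) (.p (nat_lit 421) (nat_lit 7) (.n (nat_lit 422) (nat_lit 8) (.p (nat_lit 423) (nat_lit 4) (.n (nat_lit 424) (nat_lit 6) (.n (nat_lit 425) (nat_lit 9) (.n (nat_lit 426) (nat_lit 3) (.p (nat_lit 427) (nat_lit 3) (.n (nat_lit 428) (nat_lit 3) (.n (nat_lit 429) (nat_lit 4) (.n (nat_lit 430) (nat_lit 11) (.n (nat_lit 431) (nat_lit 4) (.n (nat_lit 432) (nat_lit 5) (.n (nat_lit 433) (nat_lit 12) (.p (nat_lit 434)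 (nat_lit 7) .z))))))))))))))))))))))))))))))))))) .nil)))))))))))))))))))))))))

noncomputable def dC1d_i343 : IL := (.a false (nat_lit 2) (nat_lit 33) (nat_lit 34) (nat_lit 0) (nat_lit 0) (.a false (nat_lit 2) (nat_lit 33) (nat_lit 35) (nat_lit 0) (nat_lit 0) (.a true (nat_lit 2) (nat_lit 33) (nat_lit 36) (nat_lit 0) (nat_lit 0) (.a false (nat_lit 1) (nat_lit 34) (nat_lit 34) (nat_lit 0) (nat_lit 0) (.a true (nat_lit 2) (nat_lit 34) (nat_lit 36) (nat_lit 0) (nat_lit 0) (.a true (nat_lit 2) (nat_lit 35) (nat_lit 35) (nat_lit 0) (nat_lit 0) (.a true (nat_lit 2) (nat_lit 35) (nat_lit 36) (nat_lit 0) (nat_lit 0) (.a false (nat_lit 1) (nat_lit 36) (nat_lit 36) (nat_lit 0) (nat_lit 0) (.e true (nat_lit 3) (nat_lit 213) (nat_lit 2) (nat_lit 17) (.e false (nat_lit 3) (nat_lit 216) (nat_lit 2) (nat_lit 17) (.e true (nat_lit 3) (nat_lit 221) (nat_lit 2) (nat_lit 17) (.e true (nat_lit 3) (nat_lit 307) (nat_lit 0) (nat_lit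 19) (.e false (nat_lit 1) (nat_lit 260) (nat_lit 1) (nat_lit 18) (.e true (nat_lit 3) (nat_lit 261) (nat_lit 1) (nat_lit 18) (.e false (nat_lit 3) (nat_lit 263) (nat_lit 1) (nat_lit 18) (.e false (nat_lit 1) (nat_lit 264) (nat_lit 1) (nat_lit 18) (.e true (nat_lit 3) (nat_lit 266) (nat_lit 1) (nat_lit 18) (.e true (nat_lit 2) (nat_lit 267) (nat_lit 1) (nat_lit 18) (.e false (nat_lit 2) (nat_lit 268) (nat_lit 1) (nat_lit 18) (.e true (nat_lit 1) (nat_lit 269) (nat_lit 1) (nat_lit 18) (.e true (nat_lit 2) (nat_lit 270) (nat_lit 1) (nat_lit 18) (.e true (nat_lit 1) (nat_lit 271) (nat_lit 1) (nat_lit 18) (.e false (nat_lit 3) (nat_lit 273) (nat_lit 1) (nat_lit 18) (.e true (nat_lit 1) (nat_lit 274) (nat_lit 1) (nat_lit 18) (.e true (nat_lit 1) (nat_lit 279) (nat_lit 1) (nat_lit 18) dC1d_i342)))))))))))))))))))))))))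

noncomputable def dC1d_i344 : IL := (.s false (nat_lit 2) (nat_lit 98) (nat_lit 0) (nat_lit 1) (nat_lit 1) true (nat_lit 16) true (nat_lit 18) false (nat_lit 11) true (nat_lit 19) true (nat_lit 18) (.s true (nat_lit 2) (nat_lit 99) (nat_lit 1) (nat_lit 0) (nat_lit 1) false (nat_lit 21) true (nat_lit 18) false (nat_lit 11) true (nat_lit 18) true (nat_lit 19) (.s true (nat_lit 1) (nat_lit 100) (nat_lit 1) (nat_lit 0) (nat_lit 1) false (nat_lit 21) true (nat_lit 18) false (nat_lit 11) true (nat_lit 18) true (nat_lit 19) (.s false (nat_lit 1) (nat_lit 98) (nat_lit 1) (nat_lit 1) (nat_lit 0) true (nat_lit 16) true (nat_lit 19) false (nat_lit 11) true (nat_lit 18) true (nat_lit 18) (.s false (nat_lit 1) (nat_lit 99) (nat_lit 1) (nat_lit 1) (nat_lit 0) true (nat_lit 16) true (nat_lit 19) false (nat_lit 11) true (nat_lit 18) true (nat_lit 18) (.s false (nat_lit 1) (nat_lit 100) (nat_lit 1) (nat_lit 1) (nat_lit 0) true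 (nat_lit 16) true (nat_lit 19) false (nat_lit 11) true (nat_lit 18) true (nat_lit 18) (.s true (nat_lit 1) (nat_lit 102) (nat_lit 0) (nat_lit 0) (nat_lit 1) true (nat_lit 16) true (nat_lit 18) false (nat_lit 12) true (nat_lit 19) true (nat_lit 19) (.s false (nat_lit 3) (nat_lit 104) (nat_lit 0) (nat_lit 0) (nat_lit 1) true (nat_lit 16) true (nat_lit 18) false (nat_lit 12) true (nat_lit 19) true (nat_lit 19) (.s true (nat_lit 1) (nat_lit 105) (nat_lit 0) (nat_lit 0) (nat_lit 1) true (nat_lit 16) true (nat_lit 18) false (nat_lit 12) true (nat_lit 19) true (nat_lit 19) (.s false (nat_lit 3) (nat_lit 102) (nat_lit 0) (nat_lit 1) (nat_lit 0) false (nat_lit 20) true (nat_lit 19) false (nat_lit 12) true (nat_lit 19) true (nat_lit 18) (.s true (nat_lit 2) (nat_lit 103) (nat_lit 0) (nat_lit 1) (nat_lit 0) false (nat_lit 20) true (nat_lit 19) false (nat_lit 12) true (nat_lit 19) true (nat_lit 18) (.s true (nat_lit 1) (nat_lit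 104) (nat_lit 0) (nat_lit 1) (nat_lit 0) false (nat_lit 20) true (nat_lit 19) false (nat_lit 12) true (nat_lit 19) true (nat_lit 18) (.s true (nat_lit 2) (nat_lit 105) (nat_lit 0) (nat_lit 1) (nat_lit 0) false (nat_lit 20) true (nat_lit 19) false (nat_lit 12) true (nat_lit 19) true (nat_lit 18) (.a false (nat_lit 2) (nat_lit 34) (nat_lit 35) (nat_lit 0) (nat_lit 0) (.a true (nat_lit 1) (nat_lit 31) (nat_lit 31) (nat_lit 0) (nat_lit 0) (.a true (nat_lit 3) (nat_lit 31) (nat_lit 32) (nat_lit 0) (nat_lit 0) (.a false (nat_lit 3) (nat_lit 31) (nat_lit 33) (nat_lit 0) (nat_lit 0) (.a false (nat_lit 2) (nat_lit 31) (nat_lit 34) (nat_lit 0) (nat_lit 0) (.a false (nat_lit 1) (nat_lit 31) (nat_lit 35) (nat_lit 0) (nat_lit 0) (.a false (nat_lit 1) (nat_lit 32) (nat_lit 32) (nat_lit 0) (nat_lit 0) (.a true (nat_lit 2) (nat_lit 32) (nat_lit 33) (nat_lit 0) (nat_lit 0) (.a true (nat_lit 2) (nat_lit 32) (nat_lit 34) (nat_lit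 0) (nat_lit 0) (.a true (nat_lit 2) (nat_lit 32) (nat_lit 35) (nat_lit 0) (nat_lit 0) (.a false (nat_lit 2) (nat_lit 32) (nat_lit 36) (nat_lit 0) (nat_lit 0) (.a false (nat_lit 1) (nat_lit 33) (nat_lit 33) (nat_lit 0) (nat_lit 0) dC1d_i343)))))))))))))))))))))))))

noncomputable def dC1d_i345 : IL := (.s false (nat_lit 1) (nat_lit 68) (nat_lit 2) (nat_lit 2) (nat_lit 0) true (nat_lit 15) true (nat_lit 19) false (nat_lit 7) true (nat_lit 17) true (nat_lit 17) (.s true (nat_lit 1) (nat_lit 69) (nat_lit 2) (nat_lit 2) (nat_lit 0) true (nat_lit 15) true (nat_lit 19) false (nat_lit 7) true (nat_lit 17) true (nat_lit 17) (.s true (nat_lit 2) (nat_lit 70) (nat_lit 2) (nat_lit 2) (nat_lit 0) true (nat_lit 15) true (nat_lit 19) false (nat_lit 7) true (nat_lit 17) true (nat_lit 17) (.s true (nat_lit 2) (nat_lit 72) (nat_lit 2) (nat_lit 2) (nat_lit 0) true (nat_lit 15) true (nat_lit 19) false (nat_lit 7) true (nat_lit 17)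 true (nat_lit 17) (.s false (nat_lit 2) (nat_lit 73) (nat_lit 2) (nat_lit 2) (nat_lit 0) true (nat_lit 15) true (nat_lit 19) false (nat_lit 7) true (nat_lit 17) true (nat_lit 17) (.s true (nat_lit 2) (nat_lit 75) (nat_lit 2) (nat_lit 2) (nat_lit 0) true (nat_lit 15) true (nat_lit 19) false (nat_lit 7) true (nat_lit 17) true (nat_lit 17) (.s true (nat_lit 3) (nat_lit 76) (nat_lit 2) (nat_lit 2) (nat_lit 0) true (nat_lit 15) true (nat_lit 19) false (nat_lit 7) true (nat_lit 17) true (nat_lit 17) (.s true (nat_lit 2) (nat_lit 81) (nat_lit 2) (nat_lit 1) (nat_lit 1) true (nat_lit 14) true (nat_lit 18) false (nat_lit 8) true (nat_lit 17) true (nat_lit 18) (.s true (nat_lit 1) (nat_lit 82) (nat_lit 0) (nat_lit 1) (nat_lit 2) true (nat_lit 15) true (nat_lit 17) false (nat_lit 9) true (nat_lit 19) true (nat_lit 18) (.s false (nat_lit 2) (nat_lit 85) (nat_lit 0) (nat_lit 1) (nat_lit 2) true (nat_lit 15) true (nat_lit 17)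 false (nat_lit 9) true (nat_lit 19) true (nat_lit 18) (.s true (nat_lit 2) (nat_lit 82) (nat_lit 0) (nat_lit 2) (nat_lit 1) true (nat_lit 16) true (nat_lit 18) false (nat_lit 9) true (nat_lit 19) true (nat_lit 17) (.s false (nat_lit 1) (nat_lit 83) (nat_lit 0) (nat_lit 2) (nat_lit 1) true (nat_lit 16) true (nat_lit 18) false (nat_lit 9) true (nat_lit 19) true (nat_lit 17) (.s true (nat_lit 1) (nat_lit 84) (nat_lit 0) (nat_lit 2) (nat_lit 1) true (nat_lit 16) true (nat_lit 18) false (nat_lit 9) true (nat_lit 19) true (nat_lit 17) (.s false (nat_lit 1) (nat_lit 85) (nat_lit 0) (nat_lit 2) (nat_lit 1) true (nat_lit 16) true (nat_lit 18) false (nat_lit 9) true (nat_lit 19) true (nat_lit 17) (.s true (nat_lit 1) (nat_lit 87) (nat_lit 0) (nat_lit 2) (nat_lit 1) true (nat_lit 16) true (nat_lit 18) false (nat_lit 9) true (nat_lit 19) true (nat_lit 17) (.s true (nat_lit 1) (nat_lit 90) (nat_lit 0) (nat_lit 2) (nat_lit 1)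 true (nat_lit 16) true (nat_lit 18) false (nat_lit 9) true (nat_lit 19) true (nat_lit 17) (.s true (nat_lit 2) (nat_lit 82) (nat_lit 1) (nat_lit 0) (nat_lit 2) true (nat_lit 14) true (nat_lit 17) false (nat_lit 9) true (nat_lit 18) true (nat_lit 19) (.s true (nat_lit 1) (nat_lit 85) (nat_lit 1) (nat_lit 2) (nat_lit 0) true (nat_lit 16) true (nat_lit 19) false (nat_lit 9) true (nat_lit 18) true (nat_lit 17) (.s false (nat_lit 3) (nat_lit 87) (nat_lit 1) (nat_lit 2) (nat_lit 0) true (nat_lit 16) true (nat_lit 19) false (nat_lit 9) true (nat_lit 18) true (nat_lit 17) (.s false (nat_lit 3) (nat_lit 90) (nat_lit 1) (nat_lit 2) (nat_lit 0) true (nat_lit 16) true (nat_lit 19) false (nat_lit 9) true (nat_lit 18) true (nat_lit 17) (.s true (nat_lit 3) (nat_lit 91) (nat_lit 1) (nat_lit 2) (nat_lit 0) true (nat_lit 16) true (nat_lit 19) false (nat_lit 9) true (nat_lit 18) true (nat_lit 17) (.s false (nat_lit 3) (nat_lit 92)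 (nat_lit 1) (nat_lit 2) (nat_lit 0) true (nat_lit 16) true (nat_lit 19) false (nat_lit 9) true (nat_lit 18) true (nat_lit 17) (.s true (nat_lit 1) (nat_lit 82) (nat_lit 2) (nat_lit 1) (nat_lit 0) true (nat_lit 15) true (nat_lit 19) false (nat_lit 9) true (nat_lit 17) true (nat_lit 18) (.s true (nat_lit 2) (nat_lit 85) (nat_lit 2) (nat_lit 1) (nat_lit 0) true (nat_lit 15) true (nat_lit 19) false (nat_lit 9) true (nat_lit 17) true (nat_lit 18) (.s true (nat_lit 3) (nat_lit 87) (nat_lit 2) (nat_lit 1) (nat_lit 0) true (nat_lit 15) true (nat_lit 19) false (nat_lit 9) true (nat_lit 17) true (nat_lit 18) dC1d_i344)))))))))))))))))))))))))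

noncomputable def dC1d_i346 : IL := (.s false (nat_lit 2) (nat_lit 46) (nat_lit 3) (nat_lit 1) (nat_lit 0) true (nat_lit 12) true (nat_lit 19) false (nat_lit 4) true (nat_lit 16) true (nat_lit 18) (.s false (nat_lit 1) (nat_lit 48) (nat_lit 2) (nat_lit 2) (nat_lit 2) true (nat_lit 13) true (nat_lit 17) false (nat_lit 5) true (nat_lit 17) true (nat_lit 17) (.s false (nat_lit 3) (nat_lit 50) (nat_lit 2) (nat_lit 2) (nat_lit 2) true (nat_lit 13) true (nat_lit 17) false (nat_lit 5) true (nat_lit 17) true (nat_lit 17) (.s false (nat_lit 1) (nat_lit 53) (nat_lit 2) (nat_lit 2) (nat_lit 2) true (nat_lit 13) true (nat_lit 17) false (nat_lit 5) true (nat_lit 17) true (nat_lit 17) (.s false (nat_lit 3) (nat_lit 55) (nat_lit 1) (nat_lit 2) (nat_lit 2) true (nat_lit 14) true (nat_lit 17) false (nat_lit 6) true (nat_lit 18) true (nat_lit 17) (.s false (nat_lit 2) (nat_lit 61) (nat_lit 1) (nat_lit 2) (nat_lit 2) true (nat_lit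 14) true (nat_lit 17) false (nat_lit 6) true (nat_lit 18) true (nat_lit 17) (.s false (nat_lit 1) (nat_lit 62) (nat_lit 1) (nat_lit 2) (nat_lit 2) true (nat_lit 14) true (nat_lit 17) false (nat_lit 6) true (nat_lit 18) true (nat_lit 17) (.s true (nat_lit 2) (nat_lit 64) (nat_lit 1) (nat_lit 2) (nat_lit 2) true (nat_lit 14) true (nat_lit 17) false (nat_lit 6) true (nat_lit 18) true (nat_lit 17) (.s true (nat_lit 3) (nat_lit 55) (nat_lit 2) (nat_lit 1) (nat_lit 2) true (nat_lit 13) true (nat_lit 17) false (nat_lit 6) true (nat_lit 17) true (nat_lit 18) (.s false (nat_lit 3) (nat_lit 57) (nat_lit 2) (nat_lit 1) (nat_lit 2) true (nat_lit 13) true (nat_lit 17) false (nat_lit 6) true (nat_lit 17) true (nat_lit 18) (.s false (nat_lit 1) (nat_lit 61) (nat_lit 2) (nat_lit 1) (nat_lit 2) true (nat_lit 13) true (nat_lit 17) false (nat_lit 6) true (nat_lit 17) true (nat_lit 18) (.s true (nat_lit 1) (nat_lit 64) (nat_lit 2)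 (nat_lit 1) (nat_lit 2) true (nat_lit 13) true (nat_lit 17) false (nat_lit 6) true (nat_lit 17) true (nat_lit 18) (.s false (nat_lit 3) (nat_lit 65) (nat_lit 2) (nat_lit 1) (nat_lit 2) true (nat_lit 13) true (nat_lit 17) false (nat_lit 6) true (nat_lit 17) true (nat_lit 18) (.s true (nat_lit 3) (nat_lit 56) (nat_lit 2) (nat_lit 2) (nat_lit 1) true (nat_lit 14) true (nat_lit 18) false (nat_lit 6) true (nat_lit 17) true (nat_lit 17) (.s true (nat_lit 1) (nat_lit 57) (nat_lit 2) (nat_lit 2) (nat_lit 1) true (nat_lit 14) true (nat_lit 18) false (nat_lit 6) true (nat_lit 17) true (nat_lit 17) (.s false (nat_lit 3) (nat_lit 58) (nat_lit 2) (nat_lit 2) (nat_lit 1) true (nat_lit 14) true (nat_lit 18) false (nat_lit 6) true (nat_lit 17) true (nat_lit 17) (.s false (nat_lit 2) (nat_lit 61) (nat_lit 2) (nat_lit 2) (nat_lit 1) true (nat_lit 14) true (nat_lit 18) false (nat_lit 6) true (nat_lit 17) true (nat_lit 17) (.s true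 (nat_lit 2) (nat_lit 64) (nat_lit 2) (nat_lit 2) (nat_lit 1) true (nat_lit 14) true (nat_lit 18) false (nat_lit 6) true (nat_lit 17) true (nat_lit 17) (.s true (nat_lit 3) (nat_lit 67) (nat_lit 0) (nat_lit 2) (nat_lit 2) true (nat_lit 15) true (nat_lit 17) false (nat_lit 7) true (nat_lit 19) true (nat_lit 17) (.s false (nat_lit 3) (nat_lit 70) (nat_lit 0) (nat_lit 2) (nat_lit 2) true (nat_lit 15) true (nat_lit 17) false (nat_lit 7) true (nat_lit 19) true (nat_lit 17) (.s true (nat_lit 2) (nat_lit 74) (nat_lit 0) (nat_lit 2) (nat_lit 2) true (nat_lit 15) true (nat_lit 17) false (nat_lit 7) true (nat_lit 19) true (nat_lit 17) (.s true (nat_lit 1) (nat_lit 66) (nat_lit 2) (nat_lit 0) (nat_lit 2) true (nat_lit 13) true (nat_lit 17) false (nat_lit 7) true (nat_lit 17) true (nat_lit 19) (.s false (nat_lit 1) (nat_lit 74) (nat_lit 2) (nat_lit 0) (nat_lit 2) true (nat_lit 13) true (nat_lit 17) false (nat_lit 7) true (nat_lit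 17) true (nat_lit 19) (.s true (nat_lit 3) (nat_lit 66) (nat_lit 2) (nat_lit 2) (nat_lit 0) true (nat_lit 15) true (nat_lit 19) false (nat_lit 7) true (nat_lit 17) true (nat_lit 17) (.s true (nat_lit 2) (nat_lit 67) (nat_lit 2) (nat_lit 2) (nat_lit 0) true (nat_lit 15) true (nat_lit 19) false (nat_lit 7) true (nat_lit 17) true (nat_lit 17) dC1d_i345)))))))))))))))))))))))))

noncomputable def dC1d_i347 : IL := (.s true (nat_lit 3) (nat_lit 35) (nat_lit 0) (nat_lit 1) (nat_lit 6) true (nat_lit 7) true (nat_lit 13) true (nat_lit 0) true (nat_lit 19) true (nat_lit 18) (.s true (nat_lit 2) (nat_lit 31) (nat_lit 0) (nat_lit 2) (nat_lit 5) true (nat_lit 9) true (nat_lit 14) true (nat_lit 0) true (nat_lit 19) true (nat_lit 17) (.s false (nat_lit 1) (nat_lit 31) (nat_lit 1) (nat_lit 2) (nat_lit 4) true (nat_lit 9) true (nat_lit 15) true (nat_lit 0) true (nat_lit 18) true (nat_lit 17) (.s false (nat_lit 1) (nat_lit 31) (nat_lit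 1) (nat_lit 6) (nat_lit 0) true (nat_lit 16) true (nat_lit 19) true (nat_lit 0) true (nat_lit 18) true (nat_lit 13) (.s true (nat_lit 2) (nat_lit 35) (nat_lit 1) (nat_lit 6) (nat_lit 0) true (nat_lit 16) true (nat_lit 19) true (nat_lit 0) true (nat_lit 18) true (nat_lit 13) (.s true (nat_lit 2) (nat_lit 31) (nat_lit 2) (nat_lit 0) (nat_lit 5) true (nat_lit 6) true (nat_lit 14) true (nat_lit 0) true (nat_lit 17) true (nat_lit 19) (.s true (nat_lit 3) (nat_lit 35) (nat_lit 2) (nat_lit 2) (nat_lit 3) true (nat_lit 9) true (nat_lit 16) true (nat_lit 0) true (nat_lit 17) true (nat_lit 17) (.s false (nat_lit 1) (nat_lit 31) (nat_lit 3) (nat_lit 2) (nat_lit 2) true (nat_lit 9) true (nat_lit 17) true (nat_lit 0) true (nat_lit 16) true (nat_lit 17) (.s true (nat_lit 1) (nat_lit 34) (nat_lit 3) (nat_lit 2) (nat_lit 2) true (nat_lit 9) true (nat_lit 17) true (nat_lit 0) true (nat_lit 16) true (nat_lit 17) (.s false (nat_lit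 3) (nat_lit 35) (nat_lit 3) (nat_lit 2) (nat_lit 2) true (nat_lit 9) true (nat_lit 17) true (nat_lit 0) true (nat_lit 16) true (nat_lit 17) (.s false (nat_lit 3) (nat_lit 36) (nat_lit 3) (nat_lit 2) (nat_lit 2) true (nat_lit 9) true (nat_lit 17) true (nat_lit 0) true (nat_lit 16) true (nat_lit 17) (.s true (nat_lit 1) (nat_lit 31) (nat_lit 4) (nat_lit 1) (nat_lit 2) true (nat_lit 7) true (nat_lit 17) true (nat_lit 0) true (nat_lit 15) true (nat_lit 18) (.s false (nat_lit 1) (nat_lit 31) (nat_lit 4) (nat_lit 2) (nat_lit 1) true (nat_lit 9) true (nat_lit 18) true (nat_lit 0) true (nat_lit 15) true (nat_lit 17) (.s false (nat_lit 2) (nat_lit 35) (nat_lit 6) (nat_lit 0) (nat_lit 1) true (nat_lit 6) true (nat_lit 18) true (nat_lit 0) true (nat_lit 13) true (nat_lit 19) (.s true (nat_lit 1) (nat_lit 38) (nat_lit 6) (nat_lit 0) (nat_lit 0) true (nat_lit 7) true (nat_lit 19) false (nat_lit 1) true (nat_lit 13) true (nat_lit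 19) (.s false (nat_lit 1) (nat_lit 39) (nat_lit 6) (nat_lit 0) (nat_lit 0) true (nat_lit 7) true (nat_lit 19) false (nat_lit 1) true (nat_lit 13) true (nat_lit 19) (.s true (nat_lit 2) (nat_lit 42) (nat_lit 1) (nat_lit 5) (nat_lit 0) true (nat_lit 16) true (nat_lit 19) false (nat_lit 2) true (nat_lit 18) true (nat_lit 14) (.s true (nat_lit 3) (nat_lit 42) (nat_lit 3) (nat_lit 2) (nat_lit 1) true (nat_lit 11) true (nat_lit 18) false (nat_lit 2) true (nat_lit 16) true (nat_lit 17) (.s true (nat_lit 2) (nat_lit 43) (nat_lit 0) (nat_lit 3) (nat_lit 2) true (nat_lit 15) true (nat_lit 17) false (nat_lit 3) true (nat_lit 19) true (nat_lit 16) (.s true (nat_lit 1) (nat_lit 45) (nat_lit 0) (nat_lit 3) (nat_lit 2) true (nat_lit 15) true (nat_lit 17) false (nat_lit 3) true (nat_lit 19) true (nat_lit 16) (.s false (nat_lit 3) (nat_lit 45) (nat_lit 4) (nat_lit 1) (nat_lit 0) true (nat_lit 10) true (nat_lit 19) false (nat_lit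 3) true (nat_lit 15) true (nat_lit 18) (.s true (nat_lit 3) (nat_lit 45) (nat_lit 5) (nat_lit 0) (nat_lit 0) true (nat_lit 9) true (nat_lit 19) false (nat_lit 3) true (nat_lit 14) true (nat_lit 19) (.s true (nat_lit 2) (nat_lit 46) (nat_lit 0) (nat_lit 1) (nat_lit 3) true (nat_lit 12) true (nat_lit 16) false (nat_lit 4) true (nat_lit 19) true (nat_lit 18) (.s false (nat_lit 1) (nat_lit 46) (nat_lit 0) (nat_lit 3) (nat_lit 1) true (nat_lit 16) true (nat_lit 18) false (nat_lit 4) true (nat_lit 19) true (nat_lit 16) (.s true (nat_lit 2) (nat_lit 46) (nat_lit 1) (nat_lit 3) (nat_lit 0) true (nat_lit 16) true (nat_lit 19) false (nat_lit 4) true (nat_lit 18) true (nat_lit 16) dC1d_i346)))))))))))))))))))))))))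

noncomputable def dC1d_i348 : IL := (.s true (nat_lit 3) (nat_lit 18) (nat_lit 4) (nat_lit 1) (nat_lit 3) true (nat_lit 3) true (nat_lit 16) true (nat_lit 5) true (nat_lit 15) true (nat_lit 18) (.s false (nat_lit 2) (nat_lit 18) (nat_lit 7) (nat_lit 1) (nat_lit 2) true (nat_lit 3) true (nat_lit 17) true (nat_lit 5) true (nat_lit 12) true (nat_lit 18) (.s true (nat_lit 3) (nat_lit 18) (nat_lit 7) (nat_lit 2) (nat_lit 1) true (nat_lit 4) true (nat_lit 18) true (nat_lit 5) true (nat_lit 12) true (nat_lit 17) (.s false (nat_lit 1) (nat_lit 18) (nat_lit 8) (nat_lit 0) (nat_lit 2) true (nat_lit 2) true (nat_lit 17) true (nat_lit 5) true (nat_lit 11) true (nat_lit 19) (.s true (nat_lit 2) (nat_lit 18) (nat_lit 9) (nat_lit 1) (nat_lit 1) true (nat_lit 3) true (nat_lit 18) true (nat_lit 5) true (nat_lit 10) true (nat_lit 18) (.s false (nat_lit 1) (nat_lit 18) (nat_lit 10) (nat_lit 0) (nat_lit 1) true (nat_lit 2) true (nat_lit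 18) true (nat_lit 5) true (nat_lit 9) true (nat_lit 19) (.s false (nat_lit 1) (nat_lit 18) (nat_lit 10) (nat_lit 1) (nat_lit 0) true (nat_lit 3) true (nat_lit 19) true (nat_lit 5) true (nat_lit 9) true (nat_lit 18) (.s true (nat_lit 2) (nat_lit 18) (nat_lit 12) (nat_lit 1) (nat_lit 0) true (nat_lit 3) true (nat_lit 19) true (nat_lit 5) true (nat_lit 9) true (nat_lit 18) (.s false (nat_lit 1) (nat_lit 19) (nat_lit 2) (nat_lit 2) (nat_lit 6) true (nat_lit 5) true (nat_lit 13) true (nat_lit 4) true (nat_lit 17) true (nat_lit 17) (.s true (nat_lit 1) (nat_lit 19) (nat_lit 6) (nat_lit 2) (nat_lit 2) true (nat_lit 5) true (nat_lit 17) true (nat_lit 4) true (nat_lit 13) true (nat_lit 17) (.s false (nat_lit 3) (nat_lit 22) (nat_lit 2) (nat_lit 1) (nat_lit 6) true (nat_lit 5) true (nat_lit 13) true (nat_lit 3) true (nat_lit 17) true (nat_lit 18) (.s false (nat_lit 3) (nat_lit 22) (nat_lit 2) (nat_lit 2) (nat_lit 5) true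 (nat_lit 6) true (nat_lit 14) true (nat_lit 3) true (nat_lit 17) true (nat_lit 17) (.s false (nat_lit 1) (nat_lit 20) (nat_lit 2) (nat_lit 6) (nat_lit 1) true (nat_lit 14) true (nat_lit 18) true (nat_lit 3) true (nat_lit 17) true (nat_lit 13) (.s false (nat_lit 3) (nat_lit 22) (nat_lit 2) (nat_lit 6) (nat_lit 1) true (nat_lit 14) true (nat_lit 18) true (nat_lit 3) true (nat_lit 17) true (nat_lit 13) (.s false (nat_lit 2) (nat_lit 20) (nat_lit 6) (nat_lit 2) (nat_lit 1) true (nat_lit 6) true (nat_lit 18) true (nat_lit 3) true (nat_lit 13) true (nat_lit 17) (.s true (nat_lit 2) (nat_lit 24) (nat_lit 0) (nat_lit 2) (nat_lit 6) true (nat_lit 7) true (nat_lit 13) true (nat_lit 2) true (nat_lit 19) true (nat_lit 17) (.s true (nat_lit 3) (nat_lit 25) (nat_lit 0) (nat_lit 2) (nat_lit 6) true (nat_lit 7) true (nat_lit 13) true (nat_lit 2) true (nat_lit 19) true (nat_lit 17) (.s true (nat_lit 2) (nat_lit 24) (nat_lit 0) (nat_lit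 6) (nat_lit 2) true (nat_lit 15) true (nat_lit 17) true (nat_lit 2) true (nat_lit 19) true (nat_lit 13) (.s true (nat_lit 2) (nat_lit 24) (nat_lit 2) (nat_lit 0) (nat_lit 6) true (nat_lit 5) true (nat_lit 13) true (nat_lit 2) true (nat_lit 17) true (nat_lit 19) (.s true (nat_lit 3) (nat_lit 24) (nat_lit 2) (nat_lit 2) (nat_lit 4) true (nat_lit 7) true (nat_lit 15) true (nat_lit 2) true (nat_lit 17) true (nat_lit 17) (.s false (nat_lit 3) (nat_lit 25) (nat_lit 2) (nat_lit 2) (nat_lit 4) true (nat_lit 7) true (nat_lit 15) true (nat_lit 2) true (nat_lit 17) true (nat_lit 17) (.s true (nat_lit 2) (nat_lit 25) (nat_lit 2) (nat_lit 6) (nat_lit 0) true (nat_lit 15) true (nat_lit 19) true (nat_lit 2) true (nat_lit 17) true (nat_lit 13) (.s true (nat_lit 1) (nat_lit 30) (nat_lit 1) (nat_lit 1) (nat_lit 6) true (nat_lit 6) true (nat_lit 13) true (nat_lit 1) true (nat_lit 18) true (nat_lit 18) (.s true (nat_lit 2) (nat_lit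 30) (nat_lit 1) (nat_lit 6) (nat_lit 1) false (nat_lit 21) true (nat_lit 18) true (nat_lit 1) true (nat_lit 18) true (nat_lit 13) (.s false (nat_lit 1) (nat_lit 31) (nat_lit 0) (nat_lit 1) (nat_lit 6) true (nat_lit 7) true (nat_lit 13) true (nat_lit 0) true (nat_lit 19) true (nat_lit 18) dC1d_i347)))))))))))))))))))))))))

noncomputable def dC1d_i349 : IL := (.s false (nat_lit 2) (nat_lit 8) (nat_lit 6) (nat_lit 6) (nat_lit 0) true (nat_lit 7) true (nat_lit 19) true (nat_lit 11) true (nat_lit 13) true (nat_lit 13) (.s false (nat_lit 2) (nat_lit 14) (nat_lit 1) (nat_lit 1) (nat_lit 15) true (nat_lit 0) true (nat_lit 7) true (nat_lit 7) true (nat_lit 18) true (nat_lit 18) (.s true (nat_lit 2) (nat_lit 14) (nat_lit 2) (nat_lit 8) (nat_lit 2) true (nat_lit 13) true (nat_lit 17) true (nat_lit 7) true (nat_lit 17) true (nat_lit 11) (.s false (nat_lit 3) (nat_lit 14) (nat_lit 2) (nat_lit 10) (nat_lit 1) true (nat_lit 14)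 true (nat_lit 18) true (nat_lit 7) true (nat_lit 17) true (nat_lit 9) (.s false (nat_lit 2) (nat_lit 15) (nat_lit 3) (nat_lit 6) (nat_lit 1) true (nat_lit 11) true (nat_lit 18) true (nat_lit 7) true (nat_lit 16) true (nat_lit 13) (.s false (nat_lit 3) (nat_lit 15) (nat_lit 8) (nat_lit 2) (nat_lit 2) true (nat_lit 2) true (nat_lit 17) true (nat_lit 7) true (nat_lit 11) true (nat_lit 17) (.s false (nat_lit 2) (nat_lit 17) (nat_lit 0) (nat_lit 0) (nat_lit 17) true (nat_lit 0) true (nat_lit 6) true (nat_lit 6) true (nat_lit 19) true (nat_lit 19) (.s false (nat_lit 3) (nat_lit 16) (nat_lit 0) (nat_lit 15) (nat_lit 1) true (nat_lit 16) true (nat_lit 18) true (nat_lit 6) true (nat_lit 19) true (nat_lit 7) (.s true (nat_lit 3) (nat_lit 17) (nat_lit 1) (nat_lit 0) (nat_lit 15) true (nat_lit 0) true (nat_lit 7) true (nat_lit 6) true (nat_lit 18) true (nat_lit 19) (.s true (nat_lit 3) (nat_lit 16) (nat_lit 2) (nat_lit 7) (nat_lit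 2) true (nat_lit 13) true (nat_lit 17) true (nat_lit 6) true (nat_lit 17) true (nat_lit 12) (.s false (nat_lit 1) (nat_lit 17) (nat_lit 2) (nat_lit 7) (nat_lit 2) true (nat_lit 13) true (nat_lit 17) true (nat_lit 6) true (nat_lit 17) true (nat_lit 12) (.s true (nat_lit 3) (nat_lit 16) (nat_lit 2) (nat_lit 10) (nat_lit 0) true (nat_lit 15) true (nat_lit 19) true (nat_lit 6) true (nat_lit 17) true (nat_lit 9) (.s true (nat_lit 1) (nat_lit 17) (nat_lit 6) (nat_lit 3) (nat_lit 0) true (nat_lit 7) true (nat_lit 19) true (nat_lit 6) true (nat_lit 13) true (nat_lit 16) (.s true (nat_lit 2) (nat_lit 16) (nat_lit 7) (nat_lit 2) (nat_lit 2) true (nat_lit 3) true (nat_lit 17) true (nat_lit 6) true (nat_lit 12) true (nat_lit 17) (.s false (nat_lit 2) (nat_lit 16) (nat_lit 15) (nat_lit 0) (nat_lit 1) true (nat_lit 0) true (nat_lit 18) true (nat_lit 6) true (nat_lit 7) true (nat_lit 19) (.s false (nat_lit 1) (nat_lit 16) (nat_lit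 15) (nat_lit 1) (nat_lit 0) true (nat_lit 1) true (nat_lit 19) true (nat_lit 6) true (nat_lit 7) true (nat_lit 18) (.s false (nat_lit 1) (nat_lit 17) (nat_lit 15) (nat_lit 1) (nat_lit 0) true (nat_lit 1) true (nat_lit 19) true (nat_lit 6) true (nat_lit 7) true (nat_lit 18) (.s false (nat_lit 2) (nat_lit 18) (nat_lit 0) (nat_lit 0) (nat_lit 13) true (nat_lit 2) true (nat_lit 8) true (nat_lit 5) true (nat_lit 19) true (nat_lit 19) (.s false (nat_lit 1) (nat_lit 18) (nat_lit 0) (nat_lit 2) (nat_lit 8) true (nat_lit 4) true (nat_lit 11) true (nat_lit 5) true (nat_lit 19) true (nat_lit 17) (.s false (nat_lit 3) (nat_lit 18) (nat_lit 1) (nat_lit 1) (nat_lit 9) true (nat_lit 3) true (nat_lit 10) true (nat_lit 5) true (nat_lit 18) true (nat_lit 18) (.s true (nat_lit 1) (nat_lit 18) (nat_lit 1) (nat_lit 3) (nat_lit 4) true (nat_lit 9) true (nat_lit 15) true (nat_lit 5) true (nat_lit 18) true (nat_lit 16) (.s false (nat_lit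 3) (nat_lit 18) (nat_lit 1) (nat_lit 12) (nat_lit 0) true (nat_lit 16) true (nat_lit 19) true (nat_lit 5) true (nat_lit 18) true (nat_lit 9) (.s false (nat_lit 3) (nat_lit 18) (nat_lit 2) (nat_lit 0) (nat_lit 8) true (nat_lit 2) true (nat_lit 11) true (nat_lit 5) true (nat_lit 17) true (nat_lit 19) (.s true (nat_lit 3) (nat_lit 18) (nat_lit 2) (nat_lit 7) (nat_lit 1) true (nat_lit 14) true (nat_lit 18) true (nat_lit 5) true (nat_lit 17) true (nat_lit 12) (.s true (nat_lit 1) (nat_lit 18) (nat_lit 3) (nat_lit 1) (nat_lit 4) true (nat_lit 3) true (nat_lit 15) true (nat_lit 5) true (nat_lit 16) true (nat_lit 18) dC1d_i348)))))))))))))))))))))))))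

noncomputable def dC1d_i350 : IL := (.s true (nat_lit 2) (nat_lit 106) (nat_lit 0) (nat_lit 1) (nat_lit 0) false (nat_lit 16) true (nat_lit 15) false (nat_lit 8) true (nat_lit 15) true (nat_lit 14) (.e true (nat_lit 3) (nat_lit 137) (nat_lit 6) (nat_lit 9) (.e false (nat_lit 1) (nat_lit 142) (nat_lit 6) (nat_lit 9) (.e false (nat_lit 2) (nat_lit 323) (nat_lit 1) (nat_lit 14) (.e false (nat_lit 1) (nat_lit 321) (nat_lit 1) (nat_lit 14) (.e true (nat_lit 1) (nat_lit 322) (nat_lit 1) (nat_lit 14) (.e true (nat_lit 1) (nat_lit 65) (nat_lit 18) (nat_lit 3) (.e false (nat_lit 2) (nat_lit 261) (nat_lit 2) (nat_lit 13) (.e true (nat_lit 2) (nat_lit 265) (nat_lit 2) (nat_lit 13) (.e true (nat_lit 3) (nat_lit 266) (nat_lit 2) (nat_lit 13) (.e true (nat_lit 1) (nat_lit 286) (nat_lit 2) (nat_lit 13) (.e false (nat_lit 2) (nat_lit 270) (nat_lit 2) (nat_lit 13) (.e false (nat_lit 2) (nat_lit 149) (nat_lit 6) (nat_lit 9) (.e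 false (nat_lit 1) (nat_lit 340) (nat_lit 0) (nat_lit 15) (.e false (nat_lit 2) (nat_lit 328) (nat_lit 0) (nat_lit 15) (.e true (nat_lit 2) (nat_lit 329) (nat_lit 0) (nat_lit 15) (.e false (nat_lit 3) (nat_lit 331) (nat_lit 0) (nat_lit 15) (.e false (nat_lit 1) (nat_lit 332) (nat_lit 0) (nat_lit 15) (.e false (nat_lit 2) (nat_lit 333) (nat_lit 0) (nat_lit 15) (.e true (nat_lit 3) (nat_lit 336) (nat_lit 0) (nat_lit 15) (.e true (nat_lit 3) (nat_lit 341) (nat_lit 0) (nat_lit 15) (.e false (nat_lit 3) (nat_lit 345) (nat_lit 0) (nat_lit 15) (.e true (nat_lit 1) (nat_lit 320) (nat_lit 1) (nat_lit 14) (.u (nat_lit 2) (.p (nat_lit 0) (nat_lit 1) (.p (nat_lit 1) (nat_lit 2) (.p (nat_lit 3) (nat_lit 1) (.n (nat_lit 4) (nat_lit 3) (.n (nat_lit 5) (nat_lit 3) (.p (nat_lit 6) (nat_lit 2) (.p (nat_lit 7) (nat_lit 2) (.p (nat_lit 8) (nat_lit 1) (.p (nat_lit 9) (nat_lit 1) (.n (nat_lit 10) (nat_lit 2) (.p (nat_lit 12) (nat_lit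 2) (.p (nat_lit 13) (nat_lit 2) (.p (nat_lit 15) (nat_lit 2) (.p (nat_lit 18) (nat_lit 1) (.p (nat_lit 19) (nat_lit 2) (.n (nat_lit 24) (nat_lit 2) (.n (nat_lit 30) (nat_lit 1) (.p (nat_lit 36) (nat_lit 1) (.p (nat_lit 38) (nat_lit 1) (.p (nat_lit 39) (nat_lit 1) (.n (nat_lit 41) (nat_lit 1) (.n (nat_lit 42) (nat_lit 1) (.n (nat_lit 45) (nat_lit 1) (.n (nat_lit 61) (nat_lit 1) (.p (nat_lit 66) (nat_lit 1) (.n (nat_lit 67) (nat_lit 1) (.n (nat_lit 68) (nat_lit 2) (.n (nat_lit 69) (nat_lit 1) (.p (nat_lit 70) (nat_lit 1) (.p (nat_lit 71) (nat_lit 1) (.n (nat_lit 72) (nat_lit 1) (.p (nat_lit 73) (nat_lit 1) (.p (nat_lit 75) (nat_lit 5) (.n (nat_lit 77) (nat_lit 1) (.p (nat_lit 80) (nat_lit 1) (.n (nat_lit 88) (nat_lit 1) (.n (nat_lit 91) (nat_lit 1) (.p (nat_lit 98) (nat_lit 1) (.n (nat_lit 113) (nat_lit 1) (.n (nat_lit 114) (nat_lit 1) (.n (nat_lit 121) (nat_lit 1) (.n (nat_lit 122) (nat_lit 1) (.n (nat_lit 125) (nat_lit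 3) (.n (nat_lit 128) (nat_lit 2) (.p (nat_lit 129) (nat_lit 7) (.n (nat_lit 130) (nat_lit 2) (.p (nat_lit 131) (nat_lit 2) (.p (nat_lit 132) (nat_lit 1) (.n (nat_lit 133) (nat_lit 1) (.n (nat_lit 136) (nat_lit 1) (.p (nat_lit 137) (nat_lit 3) (.p (nat_lit 140) (nat_lit 1) (.p (nat_lit 143) (nat_lit 2) (.n (nat_lit 145) (nat_lit 4) (.p (nat_lit 146) (nat_lit 1) (.n (nat_lit 152) (nat_lit 1) (.n (nat_lit 153) (nat_lit 1) (.n (nat_lit 157) (nat_lit 1) (.p (nat_lit 160) (nat_lit 1) (.p (nat_lit 161) (nat_lit 1) .z)))))))))))))))))))))))))))))))))))))))))))))))))))))))))))) (.u (nat_lit 2) (.n (nat_lit 164) (nat_lit 1) (.p (nat_lit 165) (nat_lit 1) (.p (nat_lit 170) (nat_lit 1) (.p (nat_lit 172) (nat_lit 1) (.n (nat_lit 173) (nat_lit 4) (.p (nat_lit 174) (nat_lit 12) (.n (nat_lit 175) (nat_lit 6) (.p (nat_lit 176) (nat_lit 24) (.n (nat_lit 177) (nat_lit 6) (.p (nat_lit 178) (nat_lit 1) (.p (nat_lit 179) (nat_lit 6) (.n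 (nat_lit 180) (nat_lit 27) (.n (nat_lit 181) (nat_lit 4) (.p (nat_lit 182) (nat_lit 4) (.n (nat_lit 183) (nat_lit 3) (.n (nat_lit 184) (nat_lit 6) (.n (nat_lit 185) (nat_lit 8) (.p (nat_lit 186) (nat_lit 3) (.n (nat_lit 187) (nat_lit 2) (.p (nat_lit 188) (nat_lit 2) (.n (nat_lit 189) (nat_lit 4) (.n (nat_lit 190) (nat_lit 11) (.n (nat_lit 191) (nat_lit 2) (.p (nat_lit 192) (nat_lit 10) (.n (nat_lit 193) (nat_lit 14) (.p (nat_lit 194) (nat_lit 1) (.p (nat_lit 195) (nat_lit 12) (.n (nat_lit 196) (nat_lit 1) (.p (nat_lit 197) (nat_lit 7) (.n (nat_lit 198) (nat_lit 6) (.n (nat_lit 199) (nat_lit 5) (.n (nat_lit 200) (nat_lit 6) (.n (nat_lit 201) (nat_lit 15) (.n (nat_lit 202) (nat_lit 5) (.n (nat_lit 203) (nat_lit 3) (.n (nat_lit 204) (nat_lit 1) (.p (nat_lit 205) (nat_lit 3) (.n (nat_lit 207) (nat_lit 3) (.p (nat_lit 208) (nat_lit 2) (.n (nat_lit 209) (nat_lit 1) (.p (nat_lit 211) (nat_lit 5) (.n (nat_lit 212) (nat_lit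 1) (.p (nat_lit 213) (nat_lit 2) (.p (nat_lit 214) (nat_lit 3) (.n (nat_lit 215) (nat_lit 7) (.n (nat_lit 216) (nat_lit 6) (.n (nat_lit 217) (nat_lit 2) (.n (nat_lit 218) (nat_lit 2) (.p (nat_lit 219) (nat_lit 3) (.n (nat_lit 220) (nat_lit 2) (.p (nat_lit 221) (nat_lit 4) (.p (nat_lit 223) (nat_lit 1) (.p (nat_lit 224) (nat_lit 2) (.n (nat_lit 227) (nat_lit 1) (.n (nat_lit 228) (nat_lit 1) (.p (nat_lit 229) (nat_lit 1) .z)))))))))))))))))))))))))))))))))))))))))))))))))))))))) .nil)))))))))))))))))))))))))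

noncomputable def dC1d_i351 : IL := (.s true (nat_lit 3) (nat_lit 60) (nat_lit 2) (nat_lit 2) (nat_lit 2) true (nat_lit 9) true (nat_lit 13) false (nat_lit 3) true (nat_lit 13) true (nat_lit 13) (.s false (nat_lit 1) (nat_lit 61) (nat_lit 2) (nat_lit 2) (nat_lit 2) true (nat_lit 9) true (nat_lit 13) false (nat_lit 3) true (nat_lit 13) true (nat_lit 13) (.s false (nat_lit 2) (nat_lit 62) (nat_lit 2) (nat_lit 2) (nat_lit 2) true (nat_lit 9) true (nat_lit 13) false (nat_lit 3) true (nat_lit 13) true (nat_lit 13) (.s true (nat_lit 3) (nat_lit 64) (nat_lit 2) (nat_lit 2) (nat_lit 2) true (nat_lit 9) true (nat_lit 13) false (nat_lit 3) true (nat_lit 13) true (nat_lit 13) (.s false (nat_lit 3) (nat_lit 77) (nat_lit 1) (nat_lit 2) (nat_lit 2) true (nat_lit 10) true (nat_lit 13) false (nat_lit 4) true (nat_lit 14) true (nat_lit 13) (.s true (nat_lit 3) (nat_lit 78) (nat_lit 1) (nat_lit 2) (nat_lit 2) true (nat_lit 10) true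 (nat_lit 13) false (nat_lit 4) true (nat_lit 14) true (nat_lit 13) (.s false (nat_lit 3) (nat_lit 81) (nat_lit 1) (nat_lit 2) (nat_lit 2) true (nat_lit 10) true (nat_lit 13) false (nat_lit 4) true (nat_lit 14) true (nat_lit 13) (.s true (nat_lit 2) (nat_lit 82) (nat_lit 0) (nat_lit 2) (nat_lit 2) true (nat_lit 11) true (nat_lit 13) false (nat_lit 5) true (nat_lit 15) true (nat_lit 13) (.s false (nat_lit 1) (nat_lit 83) (nat_lit 0) (nat_lit 2) (nat_lit 2) true (nat_lit 11) true (nat_lit 13) false (nat_lit 5) true (nat_lit 15) true (nat_lit 13) (.s true (nat_lit 2) (nat_lit 84) (nat_lit 0) (nat_lit 2) (nat_lit 2) true (nat_lit 11) true (nat_lit 13) false (nat_lit 5) true (nat_lit 15) true (nat_lit 13) (.s true (nat_lit 2) (nat_lit 85) (nat_lit 0) (nat_lit 2) (nat_lit 2) true (nat_lit 11) true (nat_lit 13) false (nat_lit 5) true (nat_lit 15) true (nat_lit 13) (.s true (nat_lit 2) (nat_lit 86) (nat_lit 0) (nat_lit 2)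 (nat_lit 2) true (nat_lit 11) true (nat_lit 13) false (nat_lit 5) true (nat_lit 15) true (nat_lit 13) (.s true (nat_lit 1) (nat_lit 87) (nat_lit 0) (nat_lit 2) (nat_lit 2) true (nat_lit 11) true (nat_lit 13) false (nat_lit 5) true (nat_lit 15) true (nat_lit 13) (.s false (nat_lit 3) (nat_lit 90) (nat_lit 0) (nat_lit 2) (nat_lit 2) true (nat_lit 11) true (nat_lit 13) false (nat_lit 5) true (nat_lit 15) true (nat_lit 13) (.s false (nat_lit 3) (nat_lit 91) (nat_lit 0) (nat_lit 2) (nat_lit 2) true (nat_lit 11) true (nat_lit 13) false (nat_lit 5) true (nat_lit 15) true (nat_lit 13) (.s true (nat_lit 1) (nat_lit 82) (nat_lit 2) (nat_lit 0) (nat_lit 2) true (nat_lit 9) true (nat_lit 13) false (nat_lit 5) true (nat_lit 13) true (nat_lit 15) (.s false (nat_lit 1) (nat_lit 83) (nat_lit 2) (nat_lit 0) (nat_lit 2) true (nat_lit 9) true (nat_lit 13) false (nat_lit 5) true (nat_lit 13) true (nat_lit 15) (.s false (nat_lit 1)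 (nat_lit 84) (nat_lit 2) (nat_lit 2) (nat_lit 0) true (nat_lit 11) true (nat_lit 15) false (nat_lit 5) true (nat_lit 13) true (nat_lit 13) (.s false (nat_lit 2) (nat_lit 85) (nat_lit 2) (nat_lit 2) (nat_lit 0) true (nat_lit 11) true (nat_lit 15) false (nat_lit 5) true (nat_lit 13) true (nat_lit 13) (.s true (nat_lit 1) (nat_lit 86) (nat_lit 2) (nat_lit 2) (nat_lit 0) true (nat_lit 11) true (nat_lit 15) false (nat_lit 5) true (nat_lit 13) true (nat_lit 13) (.s true (nat_lit 1) (nat_lit 90) (nat_lit 2) (nat_lit 2) (nat_lit 0) true (nat_lit 11) true (nat_lit 15) false (nat_lit 5) true (nat_lit 13) true (nat_lit 13) (.s false (nat_lit 2) (nat_lit 91) (nat_lit 2) (nat_lit 2) (nat_lit 0) true (nat_lit 11) true (nat_lit 15) false (nat_lit 5) true (nat_lit 13) true (nat_lit 13) (.s false (nat_lit 2) (nat_lit 100) (nat_lit 0) (nat_lit 2) (nat_lit 1) true (nat_lit 12) true (nat_lit 14) false (nat_lit 6) true (nat_lit 15)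 true (nat_lit 13) (.s true (nat_lit 2) (nat_lit 100) (nat_lit 1) (nat_lit 2) (nat_lit 0) true (nat_lit 12) true (nat_lit 15) false (nat_lit 6) true (nat_lit 14) true (nat_lit 13) (.s true (nat_lit 2) (nat_lit 106) (nat_lit 0) (nat_lit 0) (nat_lit 1) true (nat_lit 12) true (nat_lit 14) false (nat_lit 8) true (nat_lit 15) true (nat_lit 15) dC1d_i350)))))))))))))))))))))))))

noncomputable def dC1d_i352 : IL := (.s false (nat_lit 2) (nat_lit 23) (nat_lit 2) (nat_lit 2) (nat_lit 6) true (nat_lit 3) true (nat_lit 9) true (nat_lit 2) true (nat_lit 13) true (nat_lit 13) (.s true (nat_lit 1) (nat_lit 21) (nat_lit 2) (nat_lit 6) (nat_lit 2) true (nat_lit 9) true (nat_lit 13) true (nat_lit 2) true (nat_lit 13) true (nat_lit 9) (.s false (nat_lit 1) (nat_lit 21) (nat_lit 6) (nat_lit 2) (nat_lit 2) true (nat_lit 3) true (nat_lit 13) true (nat_lit 2) true (nat_lit 9) true (nat_lit 13) (.s true (nat_lit 1) (nat_lit 22) (nat_lit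 6) (nat_lit 2) (nat_lit 2) true (nat_lit 3) true (nat_lit 13) true (nat_lit 2) true (nat_lit 9) true (nat_lit 13) (.s true (nat_lit 1) (nat_lit 28) (nat_lit 2) (nat_lit 5) (nat_lit 2) true (nat_lit 9) true (nat_lit 13) true (nat_lit 1) true (nat_lit 13) true (nat_lit 10) (.s false (nat_lit 1) (nat_lit 28) (nat_lit 5) (nat_lit 2) (nat_lit 2) true (nat_lit 4) true (nat_lit 13) true (nat_lit 1) true (nat_lit 10) true (nat_lit 13) (.s true (nat_lit 2) (nat_lit 31) (nat_lit 0) (nat_lit 2) (nat_lit 6) true (nat_lit 5) true (nat_lit 9) true (nat_lit 0) true (nat_lit 15) true (nat_lit 13) (.s false (nat_lit 3) (nat_lit 33) (nat_lit 0) (nat_lit 2) (nat_lit 6) true (nat_lit 5) true (nat_lit 9) true (nat_lit 0) true (nat_lit 15) true (nat_lit 13) (.s false (nat_lit 2) (nat_lit 32) (nat_lit 2) (nat_lit 0) (nat_lit 6) true (nat_lit 3) true (nat_lit 9) true (nat_lit 0) true (nat_lit 13) true (nat_lit 15) (.s false (nat_lit 1)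 (nat_lit 31) (nat_lit 2) (nat_lit 2) (nat_lit 4) true (nat_lit 5) true (nat_lit 11) true (nat_lit 0) true (nat_lit 13) true (nat_lit 13) (.s true (nat_lit 2) (nat_lit 32) (nat_lit 2) (nat_lit 2) (nat_lit 4) true (nat_lit 5) true (nat_lit 11) true (nat_lit 0) true (nat_lit 13) true (nat_lit 13) (.s false (nat_lit 1) (nat_lit 33) (nat_lit 2) (nat_lit 2) (nat_lit 4) true (nat_lit 5) true (nat_lit 11) true (nat_lit 0) true (nat_lit 13) true (nat_lit 13) (.s true (nat_lit 2) (nat_lit 32) (nat_lit 2) (nat_lit 6) (nat_lit 0) true (nat_lit 11) true (nat_lit 15) true (nat_lit 0) true (nat_lit 13) true (nat_lit 9) (.s false (nat_lit 2) (nat_lit 33) (nat_lit 2) (nat_lit 6) (nat_lit 0) true (nat_lit 11) true (nat_lit 15) true (nat_lit 0) true (nat_lit 13) true (nat_lit 9) (.s true (nat_lit 3) (nat_lit 32) (nat_lit 4) (nat_lit 2) (nat_lit 2) true (nat_lit 5) true (nat_lit 13) true (nat_lit 0) true (nat_lit 11) true (nat_lit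 13) (.s true (nat_lit 3) (nat_lit 33) (nat_lit 6) (nat_lit 0) (nat_lit 2) true (nat_lit 3) true (nat_lit 13) true (nat_lit 0) true (nat_lit 9) true (nat_lit 15) (.s false (nat_lit 3) (nat_lit 42) (nat_lit 0) (nat_lit 2) (nat_lit 5) true (nat_lit 6) true (nat_lit 10) false (nat_lit 0) true (nat_lit 15) true (nat_lit 13) (.s true (nat_lit 3) (nat_lit 42) (nat_lit 1) (nat_lit 2) (nat_lit 4) true (nat_lit 6) true (nat_lit 11) false (nat_lit 0) true (nat_lit 14) true (nat_lit 13) (.s true (nat_lit 3) (nat_lit 42) (nat_lit 1) (nat_lit 6) (nat_lit 0) true (nat_lit 12) true (nat_lit 15) false (nat_lit 0) true (nat_lit 14) true (nat_lit 9) (.s false (nat_lit 1) (nat_lit 42) (nat_lit 3) (nat_lit 2) (nat_lit 2) true (nat_lit 6) true (nat_lit 13) false (nat_lit 0) true (nat_lit 12) true (nat_lit 13) (.s false (nat_lit 1) (nat_lit 45) (nat_lit 6) (nat_lit 0) (nat_lit 0) true (nat_lit 5) true (nat_lit 15) false (nat_lit 1) true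 (nat_lit 9) true (nat_lit 15) (.s true (nat_lit 2) (nat_lit 46) (nat_lit 0) (nat_lit 3) (nat_lit 2) true (nat_lit 11) true (nat_lit 13) false (nat_lit 2) true (nat_lit 15) true (nat_lit 12) (.s false (nat_lit 3) (nat_lit 46) (nat_lit 2) (nat_lit 3) (nat_lit 0) true (nat_lit 11) true (nat_lit 15) false (nat_lit 2) true (nat_lit 13) true (nat_lit 12) (.s false (nat_lit 2) (nat_lit 46) (nat_lit 4) (nat_lit 0) (nat_lit 1) true (nat_lit 6) true (nat_lit 14) false (nat_lit 2) true (nat_lit 11) true (nat_lit 15) (.s false (nat_lit 3) (nat_lit 59) (nat_lit 2) (nat_lit 2) (nat_lit 2) true (nat_lit 9) true (nat_lit 13) false (nat_lit 3) true (nat_lit 13) true (nat_lit 13) dC1d_i351)))))))))))))))))))))))))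

noncomputable def dC1d_i353 : IL := (.s true (nat_lit 1) (nat_lit 14) (nat_lit 2) (nat_lit 10) (nat_lit 2) true (nat_lit 9) true (nat_lit 13) true (nat_lit 5) true (nat_lit 13) true (nat_lit 6) (.s false (nat_lit 3) (nat_lit 14) (nat_lit 2) (nat_lit 11) (nat_lit 2) true (nat_lit 9) true (nat_lit 13) true (nat_lit 5) true (nat_lit 13) true (nat_lit 6) (.s false (nat_lit 1) (nat_lit 14) (nat_lit 10) (nat_lit 2) (nat_lit 2) true (nat_lit 0) true (nat_lit 13) true (nat_lit 5) true (nat_lit 6) true (nat_lit 13) (.s false (nat_lit 3) (nat_lit 15) (nat_lit 11) (nat_lit 2) (nat_lit 2) true (nat_lit 0) true (nat_lit 13) true (nat_lit 5) true (nat_lit 6) true (nat_lit 13) (.s true (nat_lit 3) (nat_lit 18) (nat_lit 0) (nat_lit 0) (nat_lit 16) true (nat_lit 0) true (nat_lit 4) true (nat_lit 3) true (nat_lit 15) true (nat_lit 15) (.s true (nat_lit 2) (nat_lit 18) (nat_lit 0) (nat_lit 2) (nat_lit 10) true (nat_lit 2) true (nat_lit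 6) true (nat_lit 3) true (nat_lit 15) true (nat_lit 13) (.s false (nat_lit 2) (nat_lit 18) (nat_lit 0) (nat_lit 6) (nat_lit 3) true (nat_lit 8) true (nat_lit 12) true (nat_lit 3) true (nat_lit 15) true (nat_lit 9) (.s true (nat_lit 1) (nat_lit 18) (nat_lit 0) (nat_lit 15) (nat_lit 1) true (nat_lit 12) true (nat_lit 14) true (nat_lit 3) true (nat_lit 15) true (nat_lit 5) (.s false (nat_lit 1) (nat_lit 18) (nat_lit 0) (nat_lit 16) (nat_lit 0) false (nat_lit 16) true (nat_lit 15) true (nat_lit 3) true (nat_lit 15) true (nat_lit 4) (.s true (nat_lit 2) (nat_lit 18) (nat_lit 1) (nat_lit 0) (nat_lit 14) true (nat_lit 0) true (nat_lit 5) true (nat_lit 3) true (nat_lit 14) true (nat_lit 15) (.s true (nat_lit 1) (nat_lit 18) (nat_lit 1) (nat_lit 15) (nat_lit 0) true (nat_lit 12) true (nat_lit 15) true (nat_lit 3) true (nat_lit 14) true (nat_lit 5) (.s false (nat_lit 1) (nat_lit 18) (nat_lit 2) (nat_lit 0) (nat_lit 12) true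 (nat_lit 0) true (nat_lit 6) true (nat_lit 3) true (nat_lit 13) true (nat_lit 15) (.s false (nat_lit 2) (nat_lit 18) (nat_lit 2) (nat_lit 2) (nat_lit 7) true (nat_lit 2) true (nat_lit 8) true (nat_lit 3) true (nat_lit 13) true (nat_lit 13) (.s true (nat_lit 2) (nat_lit 18) (nat_lit 2) (nat_lit 10) (nat_lit 0) true (nat_lit 11) true (nat_lit 15) true (nat_lit 3) true (nat_lit 13) true (nat_lit 6) (.s false (nat_lit 1) (nat_lit 18) (nat_lit 2) (nat_lit 11) (nat_lit 0) true (nat_lit 11) true (nat_lit 15) true (nat_lit 3) true (nat_lit 13) true (nat_lit 6) (.s true (nat_lit 3) (nat_lit 18) (nat_lit 6) (nat_lit 3) (nat_lit 0) true (nat_lit 5) true (nat_lit 15) true (nat_lit 3) true (nat_lit 9) true (nat_lit 12) (.s false (nat_lit 3) (nat_lit 18) (nat_lit 7) (nat_lit 2) (nat_lit 2) true (nat_lit 2) true (nat_lit 13) true (nat_lit 3) true (nat_lit 8) true (nat_lit 13) (.s true (nat_lit 1) (nat_lit 18) (nat_lit 10) (nat_lit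 0) (nat_lit 2) true (nat_lit 0) true (nat_lit 13) true (nat_lit 3) true (nat_lit 6) true (nat_lit 15) (.s false (nat_lit 2) (nat_lit 18) (nat_lit 11) (nat_lit 0) (nat_lit 2) true (nat_lit 0) true (nat_lit 13) true (nat_lit 3) true (nat_lit 6) true (nat_lit 15) (.s true (nat_lit 3) (nat_lit 18) (nat_lit 12) (nat_lit 0) (nat_lit 2) true (nat_lit 0) true (nat_lit 13) true (nat_lit 3) true (nat_lit 6) true (nat_lit 15) (.s false (nat_lit 2) (nat_lit 18) (nat_lit 14) (nat_lit 0) (nat_lit 1) true (nat_lit 0) true (nat_lit 14) true (nat_lit 3) true (nat_lit 5) true (nat_lit 15) (.s true (nat_lit 3) (nat_lit 18) (nat_lit 15) (nat_lit 0) (nat_lit 1) true (nat_lit 0) true (nat_lit 14) true (nat_lit 3) true (nat_lit 5) true (nat_lit 15) (.s true (nat_lit 1) (nat_lit 18) (nat_lit 15) (nat_lit 1) (nat_lit 0) true (nat_lit 1) true (nat_lit 15) true (nat_lit 3) true (nat_lit 5) true (nat_lit 14) (.s false (nat_lit 3) (nat_lit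 21) (nat_lit 2) (nat_lit 2) (nat_lit 6) true (nat_lit 3) true (nat_lit 9) true (nat_lit 2) true (nat_lit 13) true (nat_lit 13) (.s true (nat_lit 1) (nat_lit 22) (nat_lit 2) (nat_lit 2) (nat_lit 6) true (nat_lit 3) true (nat_lit 9) true (nat_lit 2) true (nat_lit 13) true (nat_lit 13) dC1d_i352)))))))))))))))))))))))))

noncomputable def dC1d_i354 : IL := (.e true (nat_lit 2) (nat_lit 265) (nat_lit 1) (nat_lit 18) (.e true (nat_lit 3) (nat_lit 266) (nat_lit 1) (nat_lit 18) (.e true (nat_lit 3) (nat_lit 267) (nat_lit 1) (nat_lit 18) (.e false (nat_lit 1) (nat_lit 268) (nat_lit 1) (nat_lit 18) (.e false (nat_lit 1) (nat_lit 270) (nat_lit 1) (nat_lit 18) (.e true (nat_lit 3) (nat_lit 273) (nat_lit 1) (nat_lit 18) (.e false (nat_lit 1) (nat_lit 274) (nat_lit 1) (nat_lit 18) (.e false (nat_lit 2) (nat_lit 269) (nat_lit 1) (nat_lit 18) (.e false (nat_lit 2) (nat_lit 271) (nat_lit 1) (nat_lit 18) (.e false (nat_lit 1) (nat_lit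 281) (nat_lit 1) (nat_lit 18) (.e false (nat_lit 2) (nat_lit 144) (nat_lit 5) (nat_lit 14) (.e true (nat_lit 2) (nat_lit 290) (nat_lit 0) (nat_lit 19) (.e true (nat_lit 2) (nat_lit 293) (nat_lit 0) (nat_lit 19) (.e false (nat_lit 3) (nat_lit 294) (nat_lit 0) (nat_lit 19) (.e false (nat_lit 3) (nat_lit 295) (nat_lit 0) (nat_lit 19) (.e true (nat_lit 1) (nat_lit 296) (nat_lit 0) (nat_lit 19) (.e true (nat_lit 1) (nat_lit 297) (nat_lit 0) (nat_lit 19) (.e true (nat_lit 1) (nat_lit 300) (nat_lit 0) (nat_lit 19) (.e false (nat_lit 1) (nat_lit 316) (nat_lit 0) (nat_lit 19) (.e true (nat_lit 1) (nat_lit 292) (nat_lit 0) (nat_lit 19) (.e false (nat_lit 2) (nat_lit 160) (nat_lit 4) (nat_lit 15) (.u (nat_lit 2) (.p (nat_lit 0) (nat_lit 1) (.n (nat_lit 1) (nat_lit 1) (.p (nat_lit 4) (nat_lit 1) (.p (nat_lit 5) (nat_lit 1) (.n (nat_lit 8) (nat_lit 2) (.p (nat_lit 12) (nat_lit 1) (.p (nat_lit 15) (nat_lit 1) (.p (nat_lit 18)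 (nat_lit 1) (.n (nat_lit 19) (nat_lit 2) (.n (nat_lit 20) (nat_lit 1) (.p (nat_lit 26) (nat_lit 1) (.p (nat_lit 27) (nat_lit 1) (.p (nat_lit 29) (nat_lit 1) (.n (nat_lit 31) (nat_lit 1) (.n (nat_lit 33) (nat_lit 2) (.n (nat_lit 34) (nat_lit 1) (.p (nat_lit 36) (nat_lit 1) (.p (nat_lit 37) (nat_lit 1) (.p (nat_lit 39) (nat_lit 1) (.n (nat_lit 40) (nat_lit 1) (.n (nat_lit 41) (nat_lit 1) (.n (nat_lit 49) (nat_lit 1) (.n (nat_lit 50) (nat_lit 1) (.n (nat_lit 54) (nat_lit 1) (.p (nat_lit 55) (nat_lit 1) (.p (nat_lit 70) (nat_lit 1) (.p (nat_lit 71) (nat_lit 1) (.p (nat_lit 72) (nat_lit 1) (.n (nat_lit 75) (nat_lit 1) (.p (nat_lit 76) (nat_lit 1) (.n (nat_lit 78) (nat_lit 1) (.n (nat_lit 85) (nat_lit 1) (.p (nat_lit 89) (nat_lit 1) (.p (nat_lit 90) (nat_lit 1) (.n (nat_lit 91) (nat_lit 1) (.n (nat_lit 93) (nat_lit 1) (.n (nat_lit 106) (nat_lit 1) (.p (nat_lit 107) (nat_lit 1) (.p (nat_lit 117) (nat_lit 1) (.p (nat_lit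 118) (nat_lit 1) (.p (nat_lit 120) (nat_lit 1) (.p (nat_lit 122) (nat_lit 1) (.n (nat_lit 129) (nat_lit 1) (.p (nat_lit 130) (nat_lit 1) (.n (nat_lit 132) (nat_lit 1) (.n (nat_lit 133) (nat_lit 1) (.n (nat_lit 136) (nat_lit 1) (.p (nat_lit 139) (nat_lit 1) (.p (nat_lit 140) (nat_lit 1) (.p (nat_lit 142) (nat_lit 1) (.n (nat_lit 144) (nat_lit 1) (.n (nat_lit 146) (nat_lit 1) (.p (nat_lit 148) (nat_lit 2) (.n (nat_lit 152) (nat_lit 1) (.p (nat_lit 154) (nat_lit 1) (.p (nat_lit 155) (nat_lit 3) (.p (nat_lit 156) (nat_lit 1) (.p (nat_lit 157) (nat_lit 1) (.n (nat_lit 158) (nat_lit 1) (.p (nat_lit 159) (nat_lit 2) .z)))))))))))))))))))))))))))))))))))))))))))))))))))))))))))) (.u (nat_lit 2) (.n (nat_lit 160) (nat_lit 1) (.p (nat_lit 161) (nat_lit 1) (.n (nat_lit 162) (nat_lit 1) (.n (nat_lit 163) (nat_lit 1) (.p (nat_lit 166) (nat_lit 1) (.n (nat_lit 169) (nat_lit 1) (.n (nat_lit 174) (nat_lit 1) (.p (nat_lit 179) (nat_lit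 1) (.n (nat_lit 185) (nat_lit 1) (.p (nat_lit 186) (nat_lit 1) (.p (nat_lit 190) (nat_lit 1) (.p (nat_lit 193) (nat_lit 1) (.p (nat_lit 194) (nat_lit 1) (.n (nat_lit 197) (nat_lit 1) (.n (nat_lit 221) (nat_lit 1) (.n (nat_lit 222) (nat_lit 1) (.p (nat_lit 224) (nat_lit 2) (.n (nat_lit 225) (nat_lit 2) (.n (nat_lit 228) (nat_lit 1) (.p (nat_lit 230) (nat_lit 1) (.n (nat_lit 231) (nat_lit 1) (.n (nat_lit 232) (nat_lit 1) (.p (nat_lit 233) (nat_lit 1) (.n (nat_lit 237) (nat_lit 1) (.n (nat_lit 238) (nat_lit 2) (.p (nat_lit 241) (nat_lit 2) (.p (nat_lit 242) (nat_lit 1) (.n (nat_lit 244) (nat_lit 2) (.n (nat_lit 245) (nat_lit 2) (.p (nat_lit 247) (nat_lit 1) (.n (nat_lit 248) (nat_lit 1) (.n (nat_lit 251) (nat_lit 1) (.n (nat_lit 252) (nat_lit 1) (.n (nat_lit 254) (nat_lit 1) (.n (nat_lit 255) (nat_lit 1) (.n (nat_lit 257) (nat_lit 3) (.p (nat_lit 258) (nat_lit 1) (.p (nat_lit 260) (nat_lit 3) (.n (nat_lit 261) (nat_lit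 1) (.p (nat_lit 262) (nat_lit 1) (.p (nat_lit 266) (nat_lit 1) (.p (nat_lit 267) (nat_lit 1) (.p (nat_lit 269) (nat_lit 5) (.p (nat_lit 271) (nat_lit 4) (.p (nat_lit 272) (nat_lit 2) (.n (nat_lit 274) (nat_lit 3) (.n (nat_lit 275) (nat_lit 6) (.p (nat_lit 276) (nat_lit 3) (.n (nat_lit 277) (nat_lit 5) (.p (nat_lit 278) (nat_lit 2) (.n (nat_lit 279) (nat_lit 8) (.p (nat_lit 280) (nat_lit 1) (.n (nat_lit 282) (nat_lit 2) (.n (nat_lit 284) (nat_lit 1) (.p (nat_lit 286) (nat_lit 1) (.p (nat_lit 287) (nat_lit 3) (.n (nat_lit 288) (nat_lit 4) (.n (nat_lit 289) (nat_lit 4) (.p (nat_lit 291) (nat_lit 1) (.p (nat_lit 294) (nat_lit 1) .z)))))))))))))))))))))))))))))))))))))))))))))))))))))))))))) (.u (nat_lit 2) (.p (nat_lit 311) (nat_lit 1) (.n (nat_lit 312) (nat_lit 3) (.n (nat_lit 313) (nat_lit 1) (.n (nat_lit 314) (nat_lit 6) (.n (nat_lit 315) (nat_lit 4) (.n (nat_lit 316) (nat_lit 1) (.n (nat_lit 318) (nat_lit 2) (.n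 (nat_lit 319) (nat_lit 5) (.n (nat_lit 320) (nat_lit 3) (.n (nat_lit 321) (nat_lit 1) (.p (nat_lit 322) (nat_lit 2) (.p (nat_lit 323) (nat_lit 3) (.p (nat_lit 324) (nat_lit 3) (.n (nat_lit 325) (nat_lit 2) (.p (nat_lit 326) (nat_lit 2) (.p (nat_lit 327) (nat_lit 2) (.p (nat_lit 328) (nat_lit 5) (.p (nat_lit 329) (nat_lit 20) (.n (nat_lit 330) (nat_lit 30) (.p (nat_lit 331) (nat_lit 31) (.p (nat_lit 332) (nat_lit 30) (.n (nat_lit 333) (nat_lit 16) (.p (nat_lit 334) (nat_lit 51) (.p (nat_lit 335) (nat_lit 1) (.n (nat_lit 336) (nat_lit 1) (.p (nat_lit 337) (nat_lit 31) (.n (nat_lit 338) (nat_lit 33) (.n (nat_lit 339) (nat_lit 30) (.p (nat_lit 341) (nat_lit 1) (.n (nat_lit 342) (nat_lit 28) (.n (nat_lit 343) (nat_lit 10) (.n (nat_lit 344) (nat_lit 4) (.p (nat_lit 345) (nat_lit 10) (.p (nat_lit 346) (nat_lit 16) (.n (nat_lit 347) (nat_lit 22) (.n (nat_lit 348) (nat_lit 11) (.p (nat_lit 349) (nat_lit 38) (.n (nat_lit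 351) (nat_lit 18) (.n (nat_lit 352) (nat_lit 37) (.p (nat_lit 353) (nat_lit 5) (.n (nat_lit 354) (nat_lit 6) (.p (nat_lit 355) (nat_lit 32) (.n (nat_lit 356) (nat_lit 17) (.n (nat_lit 357) (nat_lit 16) (.n (nat_lit 358) (nat_lit 14) (.n (nat_lit 359) (nat_lit 21) (.n (nat_lit 360) (nat_lit 18) (.p (nat_lit 361) (nat_lit 22) (.n (nat_lit 362) (nat_lit 18) (.p (nat_lit 363) (nat_lit 30) (.n (nat_lit 364) (nat_lit 2) (.n (nat_lit 365) (nat_lit 1) (.p (nat_lit 366) (nat_lit 2) (.p (nat_lit 367) (nat_lit 13) (.p (nat_lit 368) (nat_lit 5) (.p (nat_lit 369) (nat_lit 4) (.p (nat_lit 370) (nat_lit 3) (.n (nat_lit 372) (nat_lit 4) (.p (nat_lit 373) (nat_lit 18) (.n (nat_lit 374) (nat_lit 3) .z)))))))))))))))))))))))))))))))))))))))))))))))))))))))))))) (.u (nat_lit 2) (.n (nat_lit 375) (nat_lit 13) (.p (nat_lit 376) (nat_lit 10) (.p (nat_lit 377) (nat_lit 17) (.n (nat_lit 378) (nat_lit 27) (.p (nat_lit 379) (nat_lit 5) (.n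 (nat_lit 380) (nat_lit 19) (.n (nat_lit 381) (nat_lit 31) (.n (nat_lit 382) (nat_lit 33) (.p (nat_lit 383) (nat_lit 26) (.p (nat_lit 384) (nat_lit 22) (.n (nat_lit 385) (nat_lit 18) (.n (nat_lit 386) (nat_lit 12) (.p (nat_lit 387) (nat_lit 28) (.n (nat_lit 388) (nat_lit 3) (.n (nat_lit 389) (nat_lit 15) (.n (nat_lit 390) (nat_lit 1) (.p (nat_lit 392) (nat_lit 17) (.p (nat_lit 393) (nat_lit 19) (.n (nat_lit 394) (nat_lit 13) (.n (nat_lit 395) (nat_lit 6) (.p (nat_lit 396) (nat_lit 5) (.p (nat_lit 398) (nat_lit 11) (.n (nat_lit 399) (nat_lit 9) (.p (nat_lit 400) (nat_lit 1) (.n (nat_lit 401) (nat_lit 5) (.n (nat_lit 402) (nat_lit 3) (.n (nat_lit 403) (nat_lit 7) (.n (nat_lit 404) (nat_lit 1) (.p (nat_lit 405) (nat_lit 10) (.p (nat_lit 406) (nat_lit 12) (.n (nat_lit 407) (nat_lit 4) (.n (nat_lit 408) (nat_lit 25) (.n (nat_lit 409) (nat_lit 6) (.n (nat_lit 410) (nat_lit 16) (.p (nat_lit 411) (nat_lit 11) (.n (nat_lit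 412) (nat_lit 5) (.p (nat_lit 413) (nat_lit 10) (.p (nat_lit 414) (nat_lit 4) (.p (nat_lit 415) (nat_lit 17) (.n (nat_lit 416) (nat_lit 12) (.p (nat_lit 417) (nat_lit 12) (.p (nat_lit 418) (nat_lit 4) (.p (nat_lit 419) (nat_lit 20) (.p (nat_lit 420) (nat_lit 5) (.n (nat_lit 421) (nat_lit 3) (.p (nat_lit 422) (nat_lit 9) (.p (nat_lit 423) (nat_lit 3) (.p (nat_lit 424) (nat_lit 4) (.p (nat_lit 426) (nat_lit 9) (.p (nat_lit 427) (nat_lit 6) (.p (nat_lit 428) (nat_lit 8) (.p (nat_lit 429) (nat_lit 6) (.p (nat_lit 430) (nat_lit 10) (.p (nat_lit 431) (nat_lit 4) (.n (nat_lit 432) (nat_lit 14) (.p (nat_lit 433) (nat_lit 17) (.n (nat_lit 434) (nat_lit 14) .z))))))))))))))))))))))))))))))))))))))))))))))))))))))))) .nil)))))))))))))))))))))))))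

noncomputable def dC1d_i355 : IL := (.a false (nat_lit 1) (nat_lit 33) (nat_lit 36) (nat_lit 0) (nat_lit 0) (.a false (nat_lit 1) (nat_lit 34) (nat_lit 36) (nat_lit 0) (nat_lit 0) (.a false (nat_lit 1) (nat_lit 35) (nat_lit 36) (nat_lit 0) (nat_lit 0) (.e true (nat_lit 1) (nat_lit 212) (nat_lit 2) (nat_lit 17) (.e true (nat_lit 3) (nat_lit 213) (nat_lit 2) (nat_lit 17) (.e true (nat_lit 2) (nat_lit 216) (nat_lit 2) (nat_lit 17) (.e false (nat_lit 2) (nat_lit 217) (nat_lit 2) (nat_lit 17) (.e true (nat_lit 1) (nat_lit 218) (nat_lit 2) (nat_lit 17) (.e false (nat_lit 3) (nat_lit 219) (nat_lit 2) (nat_lit 17) (.e false (nat_lit 2) (nat_lit 221) (nat_lit 2) (nat_lit 17) (.e true (nat_lit 1) (nat_lit 244) (nat_lit 2) (nat_lit 17) (.e true (nat_lit 2) (nat_lit 245) (nat_lit 2) (nat_lit 17) (.e true (nat_lit 1) (nat_lit 307) (nat_lit 0) (nat_lit 19) (.e true (nat_lit 2) (nat_lit 214) (nat_lit 2) (nat_lit 17) (.e true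 (nat_lit 1) (nat_lit 143) (nat_lit 5) (nat_lit 14) (.e true (nat_lit 1) (nat_lit 291) (nat_lit 0) (nat_lit 19) (.e true (nat_lit 3) (nat_lit 299) (nat_lit 0) (nat_lit 19) (.e false (nat_lit 1) (nat_lit 301) (nat_lit 0) (nat_lit 19) (.e false (nat_lit 3) (nat_lit 304) (nat_lit 0) (nat_lit 19) (.e true (nat_lit 1) (nat_lit 308) (nat_lit 0) (nat_lit 19) (.e true (nat_lit 3) (nat_lit 298) (nat_lit 0) (nat_lit 19) (.e true (nat_lit 1) (nat_lit 77) (nat_lit 13) (nat_lit 8) (.e true (nat_lit 1) (nat_lit 261) (nat_lit 1) (nat_lit 18) (.e false (nat_lit 3) (nat_lit 262) (nat_lit 1) (nat_lit 18) (.e true (nat_lit 3) (nat_lit 264) (nat_lit 1) (nat_lit 18) dC1d_i354)))))))))))))))))))))))))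

noncomputable def dC1d_i356 : IL := (.s true (nat_lit 1) (nat_lit 101) (nat_lit 1) (nat_lit 1) (nat_lit 0) true (nat_lit 16) true (nat_lit 19) false (nat_lit 11) true (nat_lit 18) true (nat_lit 18) (.s false (nat_lit 2) (nat_lit 102) (nat_lit 0) (nat_lit 0) (nat_lit 1) true (nat_lit 16) true (nat_lit 18) false (nat_lit 12) true (nat_lit 19) true (nat_lit 19) (.s true (nat_lit 3) (nat_lit 104) (nat_lit 0) (nat_lit 0) (nat_lit 1) true (nat_lit 16) true (nat_lit 18) false (nat_lit 12) true (nat_lit 19) true (nat_lit 19) (.s true (nat_lit 1) (nat_lit 102) (nat_lit 0) (nat_lit 1) (nat_lit 0) false (nat_lit 20) true (nat_lit 19) false (nat_lit 12) true (nat_lit 19) true (nat_lit 18) (.s false (nat_lit 2) (nat_lit 103) (nat_lit 0) (nat_lit 1) (nat_lit 0) false (nat_lit 20) true (nat_lit 19) false (nat_lit 12) true (nat_lit 19) true (nat_lit 18) (.s false (nat_lit 2) (nat_lit 104) (nat_lit 0) (nat_lit 1) (nat_lit 0) false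 (nat_lit 20) true (nat_lit 19) false (nat_lit 12) true (nat_lit 19) true (nat_lit 18) (.s false (nat_lit 2) (nat_lit 105) (nat_lit 0) (nat_lit 1) (nat_lit 0) false (nat_lit 20) true (nat_lit 19) false (nat_lit 12) true (nat_lit 19) true (nat_lit 18) (.s false (nat_lit 3) (nat_lit 103) (nat_lit 1) (nat_lit 0) (nat_lit 0) true (nat_lit 16) true (nat_lit 19) false (nat_lit 12) true (nat_lit 18) true (nat_lit 19) (.a true (nat_lit 3) (nat_lit 31) (nat_lit 31) (nat_lit 0) (nat_lit 0) (.a true (nat_lit 2) (nat_lit 34) (nat_lit 34) (nat_lit 0) (nat_lit 0) (.a false (nat_lit 1) (nat_lit 34) (nat_lit 35) (nat_lit 0) (nat_lit 0) (.a false (nat_lit 2) (nat_lit 36) (nat_lit 36) (nat_lit 0) (nat_lit 0) (.a true (nat_lit 2) (nat_lit 31) (nat_lit 32) (nat_lit 0) (nat_lit 0) (.a false (nat_lit 2) (nat_lit 31) (nat_lit 33) (nat_lit 0) (nat_lit 0) (.a false (nat_lit 2) (nat_lit 31) (nat_lit 34) (nat_lit 0) (nat_lit 0) (.a false (nat_lit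 2) (nat_lit 31) (nat_lit 35) (nat_lit 0) (nat_lit 0) (.a true (nat_lit 2) (nat_lit 31) (nat_lit 36) (nat_lit 0) (nat_lit 0) (.a false (nat_lit 3) (nat_lit 32) (nat_lit 32) (nat_lit 0) (nat_lit 0) (.a false (nat_lit 1) (nat_lit 32) (nat_lit 33) (nat_lit 0) (nat_lit 0) (.a false (nat_lit 1) (nat_lit 32) (nat_lit 34) (nat_lit 0) (nat_lit 0) (.a false (nat_lit 1) (nat_lit 32) (nat_lit 35) (nat_lit 0) (nat_lit 0) (.a true (nat_lit 1) (nat_lit 32) (nat_lit 36) (nat_lit 0) (nat_lit 0) (.a false (nat_lit 3) (nat_lit 33) (nat_lit 33) (nat_lit 0) (nat_lit 0) (.a false (nat_lit 2) (nat_lit 33) (nat_lit 34) (nat_lit 0) (nat_lit 0) (.a true (nat_lit 1) (nat_lit 33) (nat_lit 35) (nat_lit 0) (nat_lit 0) dC1d_i355)))))))))))))))))))))))))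

noncomputable def dC1d_i357 : IL := (.s true (nat_lit 1) (nat_lit 82) (nat_lit 1) (nat_lit 0) (nat_lit 2) true (nat_lit 14) true (nat_lit 17) false (nat_lit 9) true (nat_lit 18) true (nat_lit 19) (.s false (nat_lit 2) (nat_lit 82) (nat_lit 1) (nat_lit 2) (nat_lit 0) true (nat_lit 16) true (nat_lit 19) false (nat_lit 9) true (nat_lit 18) true (nat_lit 17) (.s false (nat_lit 1) (nat_lit 83) (nat_lit 1) (nat_lit 2) (nat_lit 0) true (nat_lit 16) true (nat_lit 19) false (nat_lit 9) true (nat_lit 18) true (nat_lit 17) (.s true (nat_lit 2) (nat_lit 84) (nat_lit 1) (nat_lit 2) (nat_lit 0) true (nat_lit 16) true (nat_lit 19) false (nat_lit 9) true (nat_lit 18) true (nat_lit 17) (.s true (nat_lit 2) (nat_lit 85) (nat_lit 1) (nat_lit 2) (nat_lit 0) true (nat_lit 16) true (nat_lit 19) false (nat_lit 9) true (nat_lit 18) true (nat_lit 17) (.s false (nat_lit 3) (nat_lit 86) (nat_lit 1) (nat_lit 2) (nat_lit 0) true (nat_lit 16)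 true (nat_lit 19) false (nat_lit 9) true (nat_lit 18) true (nat_lit 17) (.s false (nat_lit 1) (nat_lit 87) (nat_lit 1) (nat_lit 2) (nat_lit 0) true (nat_lit 16) true (nat_lit 19) false (nat_lit 9) true (nat_lit 18) true (nat_lit 17) (.s false (nat_lit 1) (nat_lit 88) (nat_lit 1) (nat_lit 2) (nat_lit 0) true (nat_lit 16) true (nat_lit 19) false (nat_lit 9) true (nat_lit 18) true (nat_lit 17) (.s false (nat_lit 3) (nat_lit 89) (nat_lit 1) (nat_lit 2) (nat_lit 0) true (nat_lit 16) true (nat_lit 19) false (nat_lit 9) true (nat_lit 18) true (nat_lit 17) (.s true (nat_lit 1) (nat_lit 90) (nat_lit 1) (nat_lit 2) (nat_lit 0) true (nat_lit 16) true (nat_lit 19) false (nat_lit 9) true (nat_lit 18) true (nat_lit 17) (.s true (nat_lit 2) (nat_lit 91) (nat_lit 1) (nat_lit 2) (nat_lit 0) true (nat_lit 16) true (nat_lit 19) false (nat_lit 9) true (nat_lit 18) true (nat_lit 17) (.s false (nat_lit 1) (nat_lit 92) (nat_lit 1) (nat_lit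 2) (nat_lit 0) true (nat_lit 16) true (nat_lit 19) false (nat_lit 9) true (nat_lit 18) true (nat_lit 17) (.s true (nat_lit 3) (nat_lit 82) (nat_lit 2) (nat_lit 1) (nat_lit 0) true (nat_lit 15) true (nat_lit 19) false (nat_lit 9) true (nat_lit 17) true (nat_lit 18) (.s true (nat_lit 3) (nat_lit 85) (nat_lit 2) (nat_lit 1) (nat_lit 0) true (nat_lit 15) true (nat_lit 19) false (nat_lit 9) true (nat_lit 17) true (nat_lit 18) (.s true (nat_lit 1) (nat_lit 90) (nat_lit 2) (nat_lit 1) (nat_lit 0) true (nat_lit 15) true (nat_lit 19) false (nat_lit 9) true (nat_lit 17) true (nat_lit 18) (.s false (nat_lit 1) (nat_lit 93) (nat_lit 0) (nat_lit 2) (nat_lit 0) false (nat_lit 20) true (nat_lit 19) false (nat_lit 10) true (nat_lit 19) true (nat_lit 17) (.s false (nat_lit 3) (nat_lit 94) (nat_lit 0) (nat_lit 2) (nat_lit 0) false (nat_lit 20) true (nat_lit 19) false (nat_lit 10) true (nat_lit 19) true (nat_lit 17) (.s false (nat_lit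 2) (nat_lit 95) (nat_lit 0) (nat_lit 2) (nat_lit 0) false (nat_lit 20) true (nat_lit 19) false (nat_lit 10) true (nat_lit 19) true (nat_lit 17) (.s true (nat_lit 2) (nat_lit 96) (nat_lit 0) (nat_lit 2) (nat_lit 0) false (nat_lit 20) true (nat_lit 19) false (nat_lit 10) true (nat_lit 19) true (nat_lit 17) (.s false (nat_lit 1) (nat_lit 97) (nat_lit 0) (nat_lit 2) (nat_lit 0) false (nat_lit 20) true (nat_lit 19) false (nat_lit 10) true (nat_lit 19) true (nat_lit 17) (.s false (nat_lit 2) (nat_lit 98) (nat_lit 1) (nat_lit 0) (nat_lit 1) false (nat_lit 21) true (nat_lit 18) false (nat_lit 11) true (nat_lit 18) true (nat_lit 19) (.s true (nat_lit 1) (nat_lit 99) (nat_lit 1) (nat_lit 0) (nat_lit 1) false (nat_lit 21) true (nat_lit 18) false (nat_lit 11) true (nat_lit 18) true (nat_lit 19) (.s false (nat_lit 3) (nat_lit 100) (nat_lit 1) (nat_lit 0) (nat_lit 1) false (nat_lit 21) true (nat_lit 18) false (nat_lit 11) true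 (nat_lit 18) true (nat_lit 19) (.s true (nat_lit 2) (nat_lit 98) (nat_lit 1) (nat_lit 1) (nat_lit 0) true (nat_lit 16) true (nat_lit 19) false (nat_lit 11) true (nat_lit 18) true (nat_lit 18) (.s false (nat_lit 3) (nat_lit 100) (nat_lit 1) (nat_lit 1) (nat_lit 0) true (nat_lit 16) true (nat_lit 19) false (nat_lit 11) true (nat_lit 18) true (nat_lit 18) dC1d_i356)))))))))))))))))))))))))

noncomputable def dC1d_i358 : IL := (.s true (nat_lit 2) (nat_lit 69) (nat_lit 0) (nat_lit 2) (nat_lit 2) true (nat_lit 15) true (nat_lit 17) false (nat_lit 7) true (nat_lit 19) true (nat_lit 17) (.s false (nat_lit 1) (nat_lit 74) (nat_lit 0) (nat_lit 2) (nat_lit 2) true (nat_lit 15) true (nat_lit 17) false (nat_lit 7) true (nat_lit 19) true (nat_lit 17) (.s false (nat_lit 2) (nat_lit 75) (nat_lit 0) (nat_lit 2) (nat_lit 2) true (nat_lit 15) true (nat_lit 17) false (nat_lit 7) true (nat_lit 19) true (nat_lit 17) (.s false (nat_lit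 3) (nat_lit 76) (nat_lit 0) (nat_lit 2) (nat_lit 2) true (nat_lit 15) true (nat_lit 17) false (nat_lit 7) true (nat_lit 19) true (nat_lit 17) (.s true (nat_lit 3) (nat_lit 66) (nat_lit 2) (nat_lit 0) (nat_lit 2) true (nat_lit 13) true (nat_lit 17) false (nat_lit 7) true (nat_lit 17) true (nat_lit 19) (.s true (nat_lit 3) (nat_lit 74) (nat_lit 2) (nat_lit 0) (nat_lit 2) true (nat_lit 13) true (nat_lit 17) false (nat_lit 7) true (nat_lit 17) true (nat_lit 19) (.s false (nat_lit 2) (nat_lit 75) (nat_lit 2) (nat_lit 0) (nat_lit 2) true (nat_lit 13) true (nat_lit 17) false (nat_lit 7) true (nat_lit 17) true (nat_lit 19) (.s true (nat_lit 3) (nat_lit 66) (nat_lit 2) (nat_lit 2) (nat_lit 0) true (nat_lit 15) true (nat_lit 19) false (nat_lit 7) true (nat_lit 17) true (nat_lit 17) (.s true (nat_lit 1) (nat_lit 67) (nat_lit 2) (nat_lit 2) (nat_lit 0) true (nat_lit 15) true (nat_lit 19) false (nat_lit 7) true (nat_lit 17)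 true (nat_lit 17) (.s false (nat_lit 1) (nat_lit 69) (nat_lit 2) (nat_lit 2) (nat_lit 0) true (nat_lit 15) true (nat_lit 19) false (nat_lit 7) true (nat_lit 17) true (nat_lit 17) (.s false (nat_lit 2) (nat_lit 73) (nat_lit 2) (nat_lit 2) (nat_lit 0) true (nat_lit 15) true (nat_lit 19) false (nat_lit 7) true (nat_lit 17) true (nat_lit 17) (.s false (nat_lit 2) (nat_lit 74) (nat_lit 2) (nat_lit 2) (nat_lit 0) true (nat_lit 15) true (nat_lit 19) false (nat_lit 7) true (nat_lit 17) true (nat_lit 17) (.s true (nat_lit 2) (nat_lit 75) (nat_lit 2) (nat_lit 2) (nat_lit 0) true (nat_lit 15) true (nat_lit 19) false (nat_lit 7) true (nat_lit 17) true (nat_lit 17) (.s true (nat_lit 3) (nat_lit 76) (nat_lit 2) (nat_lit 2) (nat_lit 0) true (nat_lit 15) true (nat_lit 19) false (nat_lit 7) true (nat_lit 17) true (nat_lit 17) (.s false (nat_lit 1) (nat_lit 77) (nat_lit 1) (nat_lit 1) (nat_lit 2) true (nat_lit 14) true (nat_lit 17)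 false (nat_lit 8) true (nat_lit 18) true (nat_lit 18) (.s false (nat_lit 1) (nat_lit 78) (nat_lit 1) (nat_lit 1) (nat_lit 2) true (nat_lit 14) true (nat_lit 17) false (nat_lit 8) true (nat_lit 18) true (nat_lit 18) (.s false (nat_lit 2) (nat_lit 79) (nat_lit 1) (nat_lit 1) (nat_lit 2) true (nat_lit 14) true (nat_lit 17) false (nat_lit 8) true (nat_lit 18) true (nat_lit 18) (.s true (nat_lit 2) (nat_lit 80) (nat_lit 1) (nat_lit 1) (nat_lit 2) true (nat_lit 14) true (nat_lit 17) false (nat_lit 8) true (nat_lit 18) true (nat_lit 18) (.s true (nat_lit 2) (nat_lit 79) (nat_lit 2) (nat_lit 1) (nat_lit 1) true (nat_lit 14) true (nat_lit 18) false (nat_lit 8) true (nat_lit 17) true (nat_lit 18) (.s false (nat_lit 3) (nat_lit 81) (nat_lit 2) (nat_lit 1) (nat_lit 1) true (nat_lit 14) true (nat_lit 18) false (nat_lit 8) true (nat_lit 17) true (nat_lit 18) (.s false (nat_lit 1) (nat_lit 90) (nat_lit 0) (nat_lit 1) (nat_lit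 2) true (nat_lit 15) true (nat_lit 17) false (nat_lit 9) true (nat_lit 19) true (nat_lit 18) (.s true (nat_lit 2) (nat_lit 82) (nat_lit 0) (nat_lit 2) (nat_lit 1) true (nat_lit 16) true (nat_lit 18) false (nat_lit 9) true (nat_lit 19) true (nat_lit 17) (.s true (nat_lit 3) (nat_lit 85) (nat_lit 0) (nat_lit 2) (nat_lit 1) true (nat_lit 16) true (nat_lit 18) false (nat_lit 9) true (nat_lit 19) true (nat_lit 17) (.s true (nat_lit 3) (nat_lit 86) (nat_lit 0) (nat_lit 2) (nat_lit 1) true (nat_lit 16) true (nat_lit 18) false (nat_lit 9) true (nat_lit 19) true (nat_lit 17) (.s true (nat_lit 1) (nat_lit 88) (nat_lit 0) (nat_lit 2) (nat_lit 1) true (nat_lit 16) true (nat_lit 18) false (nat_lit 9) true (nat_lit 19) true (nat_lit 17) dC1d_i357)))))))))))))))))))))))))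

noncomputable def dC1d_i359 : IL := (.s false (nat_lit 2) (nat_lit 56) (nat_lit 1) (nat_lit 2) (nat_lit 2) true (nat_lit 14) true (nat_lit 17) false (nat_lit 6) true (nat_lit 18) true (nat_lit 17) (.s true (nat_lit 1) (nat_lit 57) (nat_lit 1) (nat_lit 2) (nat_lit 2) true (nat_lit 14) true (nat_lit 17) false (nat_lit 6) true (nat_lit 18) true (nat_lit 17) (.s true (nat_lit 3) (nat_lit 58) (nat_lit 1) (nat_lit 2) (nat_lit 2) true (nat_lit 14) true (nat_lit 17) false (nat_lit 6) true (nat_lit 18) true (nat_lit 17) (.s true (nat_lit 1) (nat_lit 60) (nat_lit 1) (nat_lit 2) (nat_lit 2) true (nat_lit 14) true (nat_lit 17) false (nat_lit 6) true (nat_lit 18) true (nat_lit 17) (.s false (nat_lit 2) (nat_lit 61) (nat_lit 1) (nat_lit 2) (nat_lit 2) true (nat_lit 14) true (nat_lit 17) false (nat_lit 6) true (nat_lit 18) true (nat_lit 17) (.s false (nat_lit 2) (nat_lit 63) (nat_lit 1) (nat_lit 2) (nat_lit 2) true (nat_lit 14)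 true (nat_lit 17) false (nat_lit 6) true (nat_lit 18) true (nat_lit 17) (.s true (nat_lit 1) (nat_lit 64) (nat_lit 1) (nat_lit 2) (nat_lit 2) true (nat_lit 14) true (nat_lit 17) false (nat_lit 6) true (nat_lit 18) true (nat_lit 17) (.s false (nat_lit 1) (nat_lit 65) (nat_lit 1) (nat_lit 2) (nat_lit 2) true (nat_lit 14) true (nat_lit 17) false (nat_lit 6) true (nat_lit 18) true (nat_lit 17) (.s true (nat_lit 1) (nat_lit 55) (nat_lit 2) (nat_lit 1) (nat_lit 2) true (nat_lit 13) true (nat_lit 17) false (nat_lit 6) true (nat_lit 17) true (nat_lit 18) (.s false (nat_lit 1) (nat_lit 56) (nat_lit 2) (nat_lit 1) (nat_lit 2) true (nat_lit 13) true (nat_lit 17) false (nat_lit 6) true (nat_lit 17) true (nat_lit 18) (.s true (nat_lit 1) (nat_lit 57) (nat_lit 2) (nat_lit 1) (nat_lit 2) true (nat_lit 13) true (nat_lit 17) false (nat_lit 6) true (nat_lit 17) true (nat_lit 18) (.s false (nat_lit 3) (nat_lit 58) (nat_lit 2) (nat_lit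 1) (nat_lit 2) true (nat_lit 13) true (nat_lit 17) false (nat_lit 6) true (nat_lit 17) true (nat_lit 18) (.s true (nat_lit 1) (nat_lit 59) (nat_lit 2) (nat_lit 1) (nat_lit 2) true (nat_lit 13) true (nat_lit 17) false (nat_lit 6) true (nat_lit 17) true (nat_lit 18) (.s true (nat_lit 3) (nat_lit 60) (nat_lit 2) (nat_lit 1) (nat_lit 2) true (nat_lit 13) true (nat_lit 17) false (nat_lit 6) true (nat_lit 17) true (nat_lit 18) (.s true (nat_lit 3) (nat_lit 61) (nat_lit 2) (nat_lit 1) (nat_lit 2) true (nat_lit 13) true (nat_lit 17) false (nat_lit 6) true (nat_lit 17) true (nat_lit 18) (.s true (nat_lit 3) (nat_lit 62) (nat_lit 2) (nat_lit 1) (nat_lit 2) true (nat_lit 13) true (nat_lit 17) false (nat_lit 6) true (nat_lit 17) true (nat_lit 18) (.s false (nat_lit 2) (nat_lit 64) (nat_lit 2) (nat_lit 1) (nat_lit 2) true (nat_lit 13) true (nat_lit 17) false (nat_lit 6) true (nat_lit 17) true (nat_lit 18) (.s true (nat_lit 3)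 (nat_lit 65) (nat_lit 2) (nat_lit 1) (nat_lit 2) true (nat_lit 13) true (nat_lit 17) false (nat_lit 6) true (nat_lit 17) true (nat_lit 18) (.s false (nat_lit 2) (nat_lit 55) (nat_lit 2) (nat_lit 2) (nat_lit 1) true (nat_lit 14) true (nat_lit 18) false (nat_lit 6) true (nat_lit 17) true (nat_lit 17) (.s true (nat_lit 2) (nat_lit 56) (nat_lit 2) (nat_lit 2) (nat_lit 1) true (nat_lit 14) true (nat_lit 18) false (nat_lit 6) true (nat_lit 17) true (nat_lit 17) (.s true (nat_lit 3) (nat_lit 57) (nat_lit 2) (nat_lit 2) (nat_lit 1) true (nat_lit 14) true (nat_lit 18) false (nat_lit 6) true (nat_lit 17) true (nat_lit 17) (.s false (nat_lit 2) (nat_lit 58) (nat_lit 2) (nat_lit 2) (nat_lit 1) true (nat_lit 14) true (nat_lit 18) false (nat_lit 6) true (nat_lit 17) true (nat_lit 17) (.s false (nat_lit 1) (nat_lit 61) (nat_lit 2) (nat_lit 2) (nat_lit 1) true (nat_lit 14) true (nat_lit 18) false (nat_lit 6) true (nat_lit 17) true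 (nat_lit 17) (.s true (nat_lit 3) (nat_lit 62) (nat_lit 2) (nat_lit 2) (nat_lit 1) true (nat_lit 14) true (nat_lit 18) false (nat_lit 6) true (nat_lit 17) true (nat_lit 17) (.s true (nat_lit 3) (nat_lit 63) (nat_lit 2) (nat_lit 2) (nat_lit 1) true (nat_lit 14) true (nat_lit 18) false (nat_lit 6) true (nat_lit 17) true (nat_lit 17) dC1d_i358)))))))))))))))))))))))))

noncomputable def dC1d_i360 : IL := (.s false (nat_lit 2) (nat_lit 34) (nat_lit 1) (nat_lit 6) (nat_lit 0) true (nat_lit 16) true (nat_lit 19) true (nat_lit 0) true (nat_lit 18) true (nat_lit 13) (.s true (nat_lit 3) (nat_lit 31) (nat_lit 2) (nat_lit 1) (nat_lit 4) true (nat_lit 7) true (nat_lit 15) true (nat_lit 0) true (nat_lit 17) true (nat_lit 18) (.s true (nat_lit 3) (nat_lit 34) (nat_lit 2) (nat_lit 1) (nat_lit 4) true (nat_lit 7) true (nat_lit 15) true (nat_lit 0) true (nat_lit 17) true (nat_lit 18) (.s true (nat_lit 1) (nat_lit 31) (nat_lit 2)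 (nat_lit 2) (nat_lit 3) true (nat_lit 9) true (nat_lit 16) true (nat_lit 0) true (nat_lit 17) true (nat_lit 17) (.s false (nat_lit 1) (nat_lit 31) (nat_lit 2) (nat_lit 5) (nat_lit 0) true (nat_lit 15) true (nat_lit 19) true (nat_lit 0) true (nat_lit 17) true (nat_lit 14) (.s true (nat_lit 1) (nat_lit 35) (nat_lit 6) (nat_lit 0) (nat_lit 1) true (nat_lit 6) true (nat_lit 18) true (nat_lit 0) true (nat_lit 13) true (nat_lit 19) (.s false (nat_lit 1) (nat_lit 39) (nat_lit 6) (nat_lit 0) (nat_lit 0) true (nat_lit 7) true (nat_lit 19) false (nat_lit 1) true (nat_lit 13) true (nat_lit 19) (.s true (nat_lit 1) (nat_lit 40) (nat_lit 0) (nat_lit 1) (nat_lit 5) true (nat_lit 9) true (nat_lit 14) false (nat_lit 2) true (nat_lit 19) true (nat_lit 18) (.s true (nat_lit 1) (nat_lit 40) (nat_lit 1) (nat_lit 2) (nat_lit 3) true (nat_lit 11) true (nat_lit 16) false (nat_lit 2) true (nat_lit 18) true (nat_lit 17) (.s true (nat_lit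 1) (nat_lit 40) (nat_lit 4) (nat_lit 1) (nat_lit 1) true (nat_lit 9) true (nat_lit 18) false (nat_lit 2) true (nat_lit 15) true (nat_lit 18) (.s true (nat_lit 3) (nat_lit 45) (nat_lit 0) (nat_lit 0) (nat_lit 5) true (nat_lit 9) true (nat_lit 14) false (nat_lit 3) true (nat_lit 19) true (nat_lit 19) (.s false (nat_lit 2) (nat_lit 45) (nat_lit 0) (nat_lit 2) (nat_lit 3) true (nat_lit 12) true (nat_lit 16) false (nat_lit 3) true (nat_lit 19) true (nat_lit 17) (.s false (nat_lit 2) (nat_lit 45) (nat_lit 2) (nat_lit 0) (nat_lit 3) true (nat_lit 9) true (nat_lit 16) false (nat_lit 3) true (nat_lit 17) true (nat_lit 19) (.s false (nat_lit 3) (nat_lit 45) (nat_lit 2) (nat_lit 3) (nat_lit 0) true (nat_lit 15) true (nat_lit 19) false (nat_lit 3) true (nat_lit 17) true (nat_lit 16) (.s false (nat_lit 3) (nat_lit 45) (nat_lit 3) (nat_lit 2) (nat_lit 0) true (nat_lit 12) true (nat_lit 19) false (nat_lit 3) true (nat_lit 16)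 true (nat_lit 17) (.s false (nat_lit 3) (nat_lit 44) (nat_lit 4) (nat_lit 1) (nat_lit 0) true (nat_lit 10) true (nat_lit 19) false (nat_lit 3) true (nat_lit 15) true (nat_lit 18) (.s true (nat_lit 3) (nat_lit 44) (nat_lit 5) (nat_lit 0) (nat_lit 0) true (nat_lit 9) true (nat_lit 19) false (nat_lit 3) true (nat_lit 14) true (nat_lit 19) (.s true (nat_lit 3) (nat_lit 45) (nat_lit 5) (nat_lit 0) (nat_lit 0) true (nat_lit 9) true (nat_lit 19) false (nat_lit 3) true (nat_lit 14) true (nat_lit 19) (.s false (nat_lit 2) (nat_lit 46) (nat_lit 0) (nat_lit 1) (nat_lit 3) true (nat_lit 12) true (nat_lit 16) false (nat_lit 4) true (nat_lit 19) true (nat_lit 18) (.s false (nat_lit 3) (nat_lit 46) (nat_lit 0) (nat_lit 3) (nat_lit 1) true (nat_lit 16) true (nat_lit 18) false (nat_lit 4) true (nat_lit 19) true (nat_lit 16) (.s false (nat_lit 2) (nat_lit 48) (nat_lit 2) (nat_lit 2) (nat_lit 2) true (nat_lit 13) true (nat_lit 17)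 false (nat_lit 5) true (nat_lit 17) true (nat_lit 17) (.s true (nat_lit 1) (nat_lit 49) (nat_lit 2) (nat_lit 2) (nat_lit 2) true (nat_lit 13) true (nat_lit 17) false (nat_lit 5) true (nat_lit 17) true (nat_lit 17) (.s false (nat_lit 1) (nat_lit 50) (nat_lit 2) (nat_lit 2) (nat_lit 2) true (nat_lit 13) true (nat_lit 17) false (nat_lit 5) true (nat_lit 17) true (nat_lit 17) (.s true (nat_lit 3) (nat_lit 53) (nat_lit 2) (nat_lit 2) (nat_lit 2) true (nat_lit 13) true (nat_lit 17) false (nat_lit 5) true (nat_lit 17) true (nat_lit 17) (.s true (nat_lit 2) (nat_lit 55) (nat_lit 1) (nat_lit 2) (nat_lit 2) true (nat_lit 14) true (nat_lit 17) false (nat_lit 6) true (nat_lit 18) true (nat_lit 17) dC1d_i359)))))))))))))))))))))))))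

noncomputable def dC1d_i361 : IL := (.s true (nat_lit 1) (nat_lit 22) (nat_lit 2) (nat_lit 6) (nat_lit 1) true (nat_lit 14) true (nat_lit 18) true (nat_lit 3) true (nat_lit 17) true (nat_lit 13) (.s false (nat_lit 2) (nat_lit 21) (nat_lit 6) (nat_lit 1) (nat_lit 2) true (nat_lit 5) true (nat_lit 17) true (nat_lit 3) true (nat_lit 13) true (nat_lit 18) (.s false (nat_lit 3) (nat_lit 24) (nat_lit 0) (nat_lit 2) (nat_lit 6) true (nat_lit 7) true (nat_lit 13) true (nat_lit 2) true (nat_lit 19) true (nat_lit 17) (.s false (nat_lit 1) (nat_lit 25) (nat_lit 0) (nat_lit 2) (nat_lit 6) true (nat_lit 7) true (nat_lit 13) true (nat_lit 2) true (nat_lit 19) true (nat_lit 17) (.s true (nat_lit 3) (nat_lit 26) (nat_lit 0) (nat_lit 2) (nat_lit 6) true (nat_lit 7) true (nat_lit 13) true (nat_lit 2) true (nat_lit 19) true (nat_lit 17) (.s true (nat_lit 3) (nat_lit 27) (nat_lit 0) (nat_lit 2) (nat_lit 6) true (nat_lit 7) true (nat_lit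 13) true (nat_lit 2) true (nat_lit 19) true (nat_lit 17) (.s false (nat_lit 3) (nat_lit 24) (nat_lit 2) (nat_lit 2) (nat_lit 4) true (nat_lit 7) true (nat_lit 15) true (nat_lit 2) true (nat_lit 17) true (nat_lit 17) (.s false (nat_lit 3) (nat_lit 25) (nat_lit 2) (nat_lit 2) (nat_lit 4) true (nat_lit 7) true (nat_lit 15) true (nat_lit 2) true (nat_lit 17) true (nat_lit 17) (.s false (nat_lit 1) (nat_lit 27) (nat_lit 2) (nat_lit 2) (nat_lit 4) true (nat_lit 7) true (nat_lit 15) true (nat_lit 2) true (nat_lit 17) true (nat_lit 17) (.s false (nat_lit 3) (nat_lit 26) (nat_lit 2) (nat_lit 6) (nat_lit 0) true (nat_lit 15) true (nat_lit 19) true (nat_lit 2) true (nat_lit 17) true (nat_lit 13) (.s true (nat_lit 3) (nat_lit 26) (nat_lit 4) (nat_lit 2) (nat_lit 2) true (nat_lit 7) true (nat_lit 17) true (nat_lit 2) true (nat_lit 15) true (nat_lit 17) (.s true (nat_lit 1) (nat_lit 24) (nat_lit 6) (nat_lit 0) (nat_lit 2) true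 (nat_lit 5) true (nat_lit 17) true (nat_lit 2) true (nat_lit 13) true (nat_lit 19) (.s false (nat_lit 2) (nat_lit 30) (nat_lit 1) (nat_lit 1) (nat_lit 6) true (nat_lit 6) true (nat_lit 13) true (nat_lit 1) true (nat_lit 18) true (nat_lit 18) (.s false (nat_lit 1) (nat_lit 29) (nat_lit 1) (nat_lit 2) (nat_lit 5) true (nat_lit 8) true (nat_lit 14) true (nat_lit 1) true (nat_lit 18) true (nat_lit 17) (.s true (nat_lit 3) (nat_lit 28) (nat_lit 1) (nat_lit 5) (nat_lit 2) true (nat_lit 14) true (nat_lit 17) true (nat_lit 1) true (nat_lit 18) true (nat_lit 14) (.s true (nat_lit 1) (nat_lit 30) (nat_lit 1) (nat_lit 6) (nat_lit 1) false (nat_lit 21) true (nat_lit 18) true (nat_lit 1) true (nat_lit 18) true (nat_lit 13) (.s false (nat_lit 1) (nat_lit 28) (nat_lit 2) (nat_lit 1) (nat_lit 5) true (nat_lit 6) true (nat_lit 14) true (nat_lit 1) true (nat_lit 17) true (nat_lit 18) (.s false (nat_lit 1) (nat_lit 29) (nat_lit 2)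 (nat_lit 1) (nat_lit 5) true (nat_lit 6) true (nat_lit 14) true (nat_lit 1) true (nat_lit 17) true (nat_lit 18) (.s false (nat_lit 3) (nat_lit 28) (nat_lit 2) (nat_lit 5) (nat_lit 1) true (nat_lit 14) true (nat_lit 18) true (nat_lit 1) true (nat_lit 17) true (nat_lit 14) (.s false (nat_lit 3) (nat_lit 28) (nat_lit 5) (nat_lit 1) (nat_lit 2) true (nat_lit 6) true (nat_lit 17) true (nat_lit 1) true (nat_lit 14) true (nat_lit 18) (.s false (nat_lit 2) (nat_lit 28) (nat_lit 5) (nat_lit 2) (nat_lit 1) true (nat_lit 8) true (nat_lit 18) true (nat_lit 1) true (nat_lit 14) true (nat_lit 17) (.s false (nat_lit 1) (nat_lit 31) (nat_lit 0) (nat_lit 1) (nat_lit 6) true (nat_lit 7) true (nat_lit 13) true (nat_lit 0) true (nat_lit 19) true (nat_lit 18) (.s true (nat_lit 2) (nat_lit 34) (nat_lit 0) (nat_lit 1) (nat_lit 6) true (nat_lit 7) true (nat_lit 13) true (nat_lit 0) true (nat_lit 19) true (nat_lit 18) (.s false (nat_lit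 2) (nat_lit 31) (nat_lit 0) (nat_lit 2) (nat_lit 5) true (nat_lit 9) true (nat_lit 14) true (nat_lit 0) true (nat_lit 19) true (nat_lit 17) (.s false (nat_lit 2) (nat_lit 31) (nat_lit 1) (nat_lit 2) (nat_lit 4) true (nat_lit 9) true (nat_lit 15) true (nat_lit 0) true (nat_lit 18) true (nat_lit 17) dC1d_i360)))))))))))))))))))))))))

noncomputable def dC1d_i362 : IL := (.s false (nat_lit 2) (nat_lit 18) (nat_lit 0) (nat_lit 0) (nat_lit 13) true (nat_lit 2) true (nat_lit 8) true (nat_lit 5) true (nat_lit 19) true (nat_lit 19) (.s false (nat_lit 3) (nat_lit 18) (nat_lit 0) (nat_lit 1) (nat_lit 12) true (nat_lit 3) true (nat_lit 9) true (nat_lit 5) true (nat_lit 19) true (nat_lit 18) (.s true (nat_lit 3) (nat_lit 18) (nat_lit 0) (nat_lit 2) (nat_lit 8) true (nat_lit 4) true (nat_lit 11) true (nat_lit 5) true (nat_lit 19) true (nat_lit 17) (.s false (nat_lit 2) (nat_lit 18) (nat_lit 0) (nat_lit 10) (nat_lit 1) true (nat_lit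 16) true (nat_lit 18) true (nat_lit 5) true (nat_lit 19) true (nat_lit 9) (.s true (nat_lit 2) (nat_lit 18) (nat_lit 1) (nat_lit 1) (nat_lit 9) true (nat_lit 3) true (nat_lit 10) true (nat_lit 5) true (nat_lit 18) true (nat_lit 18) (.s false (nat_lit 2) (nat_lit 18) (nat_lit 1) (nat_lit 12) (nat_lit 0) true (nat_lit 16) true (nat_lit 19) true (nat_lit 5) true (nat_lit 18) true (nat_lit 9) (.s false (nat_lit 2) (nat_lit 18) (nat_lit 2) (nat_lit 0) (nat_lit 8) true (nat_lit 2) true (nat_lit 11) true (nat_lit 5) true (nat_lit 17) true (nat_lit 19) (.s false (nat_lit 3) (nat_lit 18) (nat_lit 2) (nat_lit 1) (nat_lit 7) true (nat_lit 3) true (nat_lit 12) true (nat_lit 5) true (nat_lit 17) true (nat_lit 18) (.s false (nat_lit 1) (nat_lit 18) (nat_lit 2) (nat_lit 7) (nat_lit 1) true (nat_lit 14) true (nat_lit 18) true (nat_lit 5) true (nat_lit 17) true (nat_lit 12) (.s true (nat_lit 2) (nat_lit 18) (nat_lit 2) (nat_lit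 8) (nat_lit 0) true (nat_lit 15) true (nat_lit 19) true (nat_lit 5) true (nat_lit 17) true (nat_lit 11) (.s true (nat_lit 2) (nat_lit 18) (nat_lit 7) (nat_lit 2) (nat_lit 1) true (nat_lit 4) true (nat_lit 18) true (nat_lit 5) true (nat_lit 12) true (nat_lit 17) (.s false (nat_lit 1) (nat_lit 18) (nat_lit 8) (nat_lit 0) (nat_lit 2) true (nat_lit 2) true (nat_lit 17) true (nat_lit 5) true (nat_lit 11) true (nat_lit 19) (.s true (nat_lit 3) (nat_lit 18) (nat_lit 8) (nat_lit 2) (nat_lit 0) true (nat_lit 4) true (nat_lit 19) true (nat_lit 5) true (nat_lit 11) true (nat_lit 17) (.s false (nat_lit 2) (nat_lit 18) (nat_lit 9) (nat_lit 1) (nat_lit 1) true (nat_lit 3) true (nat_lit 18) true (nat_lit 5) true (nat_lit 10) true (nat_lit 18) (.s false (nat_lit 2) (nat_lit 18) (nat_lit 10) (nat_lit 0) (nat_lit 1) true (nat_lit 2) true (nat_lit 18) true (nat_lit 5) true (nat_lit 9) true (nat_lit 19) (.s false (nat_lit 3) (nat_lit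 18) (nat_lit 10) (nat_lit 1) (nat_lit 0) true (nat_lit 3) true (nat_lit 19) true (nat_lit 5) true (nat_lit 9) true (nat_lit 18) (.s true (nat_lit 1) (nat_lit 18) (nat_lit 12) (nat_lit 1) (nat_lit 0) true (nat_lit 3) true (nat_lit 19) true (nat_lit 5) true (nat_lit 9) true (nat_lit 18) (.s false (nat_lit 3) (nat_lit 19) (nat_lit 2) (nat_lit 2) (nat_lit 6) true (nat_lit 5) true (nat_lit 13) true (nat_lit 4) true (nat_lit 17) true (nat_lit 17) (.s false (nat_lit 2) (nat_lit 19) (nat_lit 6) (nat_lit 2) (nat_lit 2) true (nat_lit 5) true (nat_lit 17) true (nat_lit 4) true (nat_lit 13) true (nat_lit 17) (.s false (nat_lit 1) (nat_lit 20) (nat_lit 1) (nat_lit 2) (nat_lit 6) true (nat_lit 6) true (nat_lit 13) true (nat_lit 3) true (nat_lit 18) true (nat_lit 17) (.s true (nat_lit 2) (nat_lit 21) (nat_lit 1) (nat_lit 2) (nat_lit 6) true (nat_lit 6) true (nat_lit 13) true (nat_lit 3) true (nat_lit 18) true (nat_lit 17) (.s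 true (nat_lit 3) (nat_lit 20) (nat_lit 1) (nat_lit 6) (nat_lit 2) true (nat_lit 14) true (nat_lit 17) true (nat_lit 3) true (nat_lit 18) true (nat_lit 13) (.s true (nat_lit 3) (nat_lit 22) (nat_lit 2) (nat_lit 2) (nat_lit 5) true (nat_lit 6) true (nat_lit 14) true (nat_lit 3) true (nat_lit 17) true (nat_lit 17) (.s false (nat_lit 3) (nat_lit 20) (nat_lit 2) (nat_lit 6) (nat_lit 1) true (nat_lit 14) true (nat_lit 18) true (nat_lit 3) true (nat_lit 17) true (nat_lit 13) (.s true (nat_lit 1) (nat_lit 21) (nat_lit 2) (nat_lit 6) (nat_lit 1) true (nat_lit 14) true (nat_lit 18) true (nat_lit 3) true (nat_lit 17) true (nat_lit 13) dC1d_i361)))))))))))))))))))))))))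

noncomputable def dC1d_i363 : IL := (.s false (nat_lit 3) (nat_lit 14) (nat_lit 1) (nat_lit 2) (nat_lit 11) true (nat_lit 2) true (nat_lit 9) true (nat_lit 7) true (nat_lit 18) true (nat_lit 17) (.s false (nat_lit 3) (nat_lit 15) (nat_lit 1) (nat_lit 2) (nat_lit 10) true (nat_lit 2) true (nat_lit 9) true (nat_lit 7) true (nat_lit 18) true (nat_lit 17) (.s false (nat_lit 3) (nat_lit 15) (nat_lit 1) (nat_lit 2) (nat_lit 11) true (nat_lit 2) true (nat_lit 9) true (nat_lit 7) true (nat_lit 18) true (nat_lit 17) (.s false (nat_lit 3) (nat_lit 14) (nat_lit 2) (nat_lit 8) (nat_lit 2) true (nat_lit 13) true (nat_lit 17) true (nat_lit 7) true (nat_lit 17) true (nat_lit 11) (.s false (nat_lit 3) (nat_lit 15) (nat_lit 2) (nat_lit 10) (nat_lit 1) true (nat_lit 14) true (nat_lit 18) true (nat_lit 7) true (nat_lit 17) true (nat_lit 9) (.s true (nat_lit 3) (nat_lit 14) (nat_lit 12) (nat_lit 1) (nat_lit 2) true (nat_lit 0) true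 (nat_lit 17) true (nat_lit 7) true (nat_lit 9) true (nat_lit 18) (.s false (nat_lit 2) (nat_lit 15) (nat_lit 10) (nat_lit 2) (nat_lit 1) true (nat_lit 2) true (nat_lit 18) true (nat_lit 7) true (nat_lit 9) true (nat_lit 17) (.s false (nat_lit 2) (nat_lit 15) (nat_lit 13) (nat_lit 2) (nat_lit 0) true (nat_lit 2) true (nat_lit 19) true (nat_lit 7) true (nat_lit 8) true (nat_lit 17) (.s true (nat_lit 2) (nat_lit 16) (nat_lit 0) (nat_lit 0) (nat_lit 16) true (nat_lit 0) true (nat_lit 6) true (nat_lit 6) true (nat_lit 19) true (nat_lit 19) (.s true (nat_lit 1) (nat_lit 17) (nat_lit 0) (nat_lit 0) (nat_lit 17) true (nat_lit 0) true (nat_lit 6) true (nat_lit 6) true (nat_lit 19) true (nat_lit 19) (.s true (nat_lit 1) (nat_lit 16) (nat_lit 0) (nat_lit 2) (nat_lit 10) true (nat_lit 3) true (nat_lit 9) true (nat_lit 6) true (nat_lit 19) true (nat_lit 17) (.s true (nat_lit 2) (nat_lit 17) (nat_lit 0) (nat_lit 15) (nat_lit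 1) true (nat_lit 16) true (nat_lit 18) true (nat_lit 6) true (nat_lit 19) true (nat_lit 7) (.s false (nat_lit 3) (nat_lit 16) (nat_lit 1) (nat_lit 9) (nat_lit 2) true (nat_lit 14) true (nat_lit 17) true (nat_lit 6) true (nat_lit 18) true (nat_lit 10) (.s false (nat_lit 3) (nat_lit 17) (nat_lit 1) (nat_lit 15) (nat_lit 0) true (nat_lit 16) true (nat_lit 19) true (nat_lit 6) true (nat_lit 18) true (nat_lit 7) (.s false (nat_lit 1) (nat_lit 16) (nat_lit 2) (nat_lit 2) (nat_lit 7) true (nat_lit 3) true (nat_lit 12) true (nat_lit 6) true (nat_lit 17) true (nat_lit 17) (.s false (nat_lit 2) (nat_lit 17) (nat_lit 2) (nat_lit 2) (nat_lit 7) true (nat_lit 3) true (nat_lit 12) true (nat_lit 6) true (nat_lit 17) true (nat_lit 17) (.s false (nat_lit 1) (nat_lit 17) (nat_lit 2) (nat_lit 7) (nat_lit 2) true (nat_lit 13) true (nat_lit 17) true (nat_lit 6) true (nat_lit 17) true (nat_lit 12) (.s true (nat_lit 1) (nat_lit 16) (nat_lit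 2) (nat_lit 10) (nat_lit 0) true (nat_lit 15) true (nat_lit 19) true (nat_lit 6) true (nat_lit 17) true (nat_lit 9) (.s true (nat_lit 1) (nat_lit 16) (nat_lit 7) (nat_lit 2) (nat_lit 2) true (nat_lit 3) true (nat_lit 17) true (nat_lit 6) true (nat_lit 12) true (nat_lit 17) (.s false (nat_lit 3) (nat_lit 16) (nat_lit 9) (nat_lit 1) (nat_lit 2) true (nat_lit 1) true (nat_lit 17) true (nat_lit 6) true (nat_lit 10) true (nat_lit 18) (.s false (nat_lit 2) (nat_lit 17) (nat_lit 9) (nat_lit 1) (nat_lit 2) true (nat_lit 1) true (nat_lit 17) true (nat_lit 6) true (nat_lit 10) true (nat_lit 18) (.s false (nat_lit 1) (nat_lit 16) (nat_lit 10) (nat_lit 0) (nat_lit 2) true (nat_lit 0) true (nat_lit 17) true (nat_lit 6) true (nat_lit 9) true (nat_lit 19) (.s false (nat_lit 1) (nat_lit 16) (nat_lit 10) (nat_lit 2) (nat_lit 0) true (nat_lit 3) true (nat_lit 19) true (nat_lit 6) true (nat_lit 9) true (nat_lit 17) (.s true (nat_lit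 3) (nat_lit 17) (nat_lit 12) (nat_lit 2) (nat_lit 0) true (nat_lit 3) true (nat_lit 19) true (nat_lit 6) true (nat_lit 9) true (nat_lit 17) (.s false (nat_lit 3) (nat_lit 16) (nat_lit 14) (nat_lit 0) (nat_lit 1) true (nat_lit 0) true (nat_lit 18) true (nat_lit 6) true (nat_lit 7) true (nat_lit 19) dC1d_i362)))))))))))))))))))))))))

noncomputable def dC1d_i364 : IL := (.e false (nat_lit 1) (nat_lit 273) (nat_lit 2) (nat_lit 13) (.e false (nat_lit 3) (nat_lit 274) (nat_lit 2) (nat_lit 13) (.e true (nat_lit 1) (nat_lit 277) (nat_lit 2) (nat_lit 13) (.e true (nat_lit 2) (nat_lit 278) (nat_lit 2) (nat_lit 13) (.e false (nat_lit 1) (nat_lit 284) (nat_lit 2) (nat_lit 13) (.e false (nat_lit 2) (nat_lit 287) (nat_lit 2) (nat_lit 13) (.e true (nat_lit 2) (nat_lit 288) (nat_lit 2) (nat_lit 13) (.e true (nat_lit 3) (nat_lit 149) (nat_lit 6) (nat_lit 9) (.e false (nat_lit 3) (nat_lit 151) (nat_lit 6) (nat_lit 9) (.e false (nat_lit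 3) (nat_lit 264) (nat_lit 2) (nat_lit 13) (.e true (nat_lit 2) (nat_lit 270) (nat_lit 2) (nat_lit 13) (.e false (nat_lit 1) (nat_lit 341) (nat_lit 0) (nat_lit 15) (.e true (nat_lit 3) (nat_lit 189) (nat_lit 4) (nat_lit 11) (.e true (nat_lit 1) (nat_lit 337) (nat_lit 0) (nat_lit 15) (.e false (nat_lit 1) (nat_lit 345) (nat_lit 0) (nat_lit 15) (.e true (nat_lit 1) (nat_lit 338) (nat_lit 0) (nat_lit 15) (.e false (nat_lit 1) (nat_lit 340) (nat_lit 0) (nat_lit 15) (.e true (nat_lit 1) (nat_lit 328) (nat_lit 0) (nat_lit 15) (.e true (nat_lit 3) (nat_lit 329) (nat_lit 0) (nat_lit 15) (.e true (nat_lit 2) (nat_lit 331) (nat_lit 0) (nat_lit 15) (.e true (nat_lit 2) (nat_lit 332) (nat_lit 0) (nat_lit 15) (.e true (nat_lit 1) (nat_lit 333) (nat_lit 0) (nat_lit 15) (.e true (nat_lit 2) (nat_lit 320) (nat_lit 1) (nat_lit 14) (.u (nat_lit 2) (.p (nat_lit 0) (nat_lit 3) (.n (nat_lit 2) (nat_lit 2) (.n (nat_lit 3) (nat_lit 1)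 (.p (nat_lit 4) (nat_lit 2) (.n (nat_lit 5) (nat_lit 1) (.p (nat_lit 6) (nat_lit 1) (.p (nat_lit 7) (nat_lit 1) (.n (nat_lit 8) (nat_lit 3) (.n (nat_lit 9) (nat_lit 4) (.n (nat_lit 10) (nat_lit 2) (.n (nat_lit 13) (nat_lit 2) (.n (nat_lit 15) (nat_lit 2) (.n (nat_lit 16) (nat_lit 1) (.p (nat_lit 17) (nat_lit 2) (.p (nat_lit 18) (nat_lit 2) (.p (nat_lit 19) (nat_lit 4) (.p (nat_lit 21) (nat_lit 1) (.n (nat_lit 22) (nat_lit 4) (.n (nat_lit 26) (nat_lit 1) (.n (nat_lit 27) (nat_lit 1) (.n (nat_lit 30) (nat_lit 2) (.p (nat_lit 32) (nat_lit 1) (.n (nat_lit 33) (nat_lit 4) (.p (nat_lit 67) (nat_lit 1) (.p (nat_lit 69) (nat_lit 1) (.n (nat_lit 70) (nat_lit 1) (.p (nat_lit 71) (nat_lit 1) (.n (nat_lit 73) (nat_lit 1) (.n (nat_lit 74) (nat_lit 1) (.p (nat_lit 75) (nat_lit 1) (.n (nat_lit 117) (nat_lit 1) (.p (nat_lit 119) (nat_lit 1) (.n (nat_lit 121) (nat_lit 1) (.n (nat_lit 122) (nat_lit 1) (.n (nat_lit 127) (nat_lit 1)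 (.p (nat_lit 129) (nat_lit 1) (.p (nat_lit 130) (nat_lit 1) (.n (nat_lit 131) (nat_lit 1) (.p (nat_lit 134) (nat_lit 1) (.n (nat_lit 135) (nat_lit 1) (.n (nat_lit 136) (nat_lit 1) (.n (nat_lit 145) (nat_lit 1) (.p (nat_lit 161) (nat_lit 1) (.n (nat_lit 165) (nat_lit 1) (.n (nat_lit 170) (nat_lit 1) (.p (nat_lit 173) (nat_lit 7) (.p (nat_lit 174) (nat_lit 10) (.n (nat_lit 175) (nat_lit 2) (.n (nat_lit 176) (nat_lit 4) (.p (nat_lit 177) (nat_lit 3) (.p (nat_lit 178) (nat_lit 2) (.n (nat_lit 179) (nat_lit 9) (.p (nat_lit 180) (nat_lit 8) (.n (nat_lit 181) (nat_lit 11) (.p (nat_lit 182) (nat_lit 4) (.n (nat_lit 183) (nat_lit 5) (.p (nat_lit 184) (nat_lit 4) (.p (nat_lit 185) (nat_lit 3) (.n (nat_lit 187) (nat_lit 3) (.p (nat_lit 190) (nat_lit 15) .z)))))))))))))))))))))))))))))))))))))))))))))))))))))))))))) (.u (nat_lit 2) (.p (nat_lit 191) (nat_lit 9) (.n (nat_lit 192) (nat_lit 5) (.n (nat_lit 193) (nat_lit 3) (.p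 (nat_lit 194) (nat_lit 2) (.n (nat_lit 196) (nat_lit 1) (.p (nat_lit 198) (nat_lit 4) (.p (nat_lit 199) (nat_lit 1) (.p (nat_lit 200) (nat_lit 3) (.p (nat_lit 201) (nat_lit 4) (.n (nat_lit 202) (nat_lit 3) (.n (nat_lit 203) (nat_lit 1) (.n (nat_lit 204) (nat_lit 4) (.n (nat_lit 205) (nat_lit 2) (.p (nat_lit 206) (nat_lit 3) (.n (nat_lit 207) (nat_lit 2) (.p (nat_lit 208) (nat_lit 2) (.p (nat_lit 209) (nat_lit 1) (.p (nat_lit 211) (nat_lit 2) (.p (nat_lit 212) (nat_lit 2) (.n (nat_lit 213) (nat_lit 1) (.p (nat_lit 215) (nat_lit 1) (.p (nat_lit 216) (nat_lit 1) (.p (nat_lit 220) (nat_lit 3) (.p (nat_lit 221) (nat_lit 3) (.n (nat_lit 228) (nat_lit 1) (.n (nat_lit 229) (nat_lit 1) .z)))))))))))))))))))))))))) .nil)))))))))))))))))))))))))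

noncomputable def dC1d_i365 : IL := (.s true (nat_lit 2) (nat_lit 99) (nat_lit 1) (nat_lit 2) (nat_lit 0) true (nat_lit 12) true (nat_lit 15) false (nat_lit 6) true (nat_lit 14) true (nat_lit 13) (.s false (nat_lit 3) (nat_lit 100) (nat_lit 1) (nat_lit 2) (nat_lit 0) true (nat_lit 12) true (nat_lit 15) false (nat_lit 6) true (nat_lit 14) true (nat_lit 13) (.s false (nat_lit 2) (nat_lit 101) (nat_lit 1) (nat_lit 2) (nat_lit 0) true (nat_lit 12) true (nat_lit 15) false (nat_lit 6) true (nat_lit 14) true (nat_lit 13) (.s true (nat_lit 2) (nat_lit 99) (nat_lit 2) (nat_lit 0) (nat_lit 1) true (nat_lit 10) true (nat_lit 14) false (nat_lit 6) true (nat_lit 13) true (nat_lit 15) (.s false (nat_lit 2) (nat_lit 101) (nat_lit 2) (nat_lit 0) (nat_lit 1) true (nat_lit 10) true (nat_lit 14) false (nat_lit 6) true (nat_lit 13) true (nat_lit 15) (.s true (nat_lit 1) (nat_lit 103) (nat_lit 0) (nat_lit 2) (nat_lit 0) false (nat_lit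 16) true (nat_lit 15) false (nat_lit 7) true (nat_lit 15) true (nat_lit 13) (.s true (nat_lit 1) (nat_lit 104) (nat_lit 0) (nat_lit 2) (nat_lit 0) false (nat_lit 16) true (nat_lit 15) false (nat_lit 7) true (nat_lit 15) true (nat_lit 13) (.s false (nat_lit 1) (nat_lit 105) (nat_lit 0) (nat_lit 2) (nat_lit 0) false (nat_lit 16) true (nat_lit 15) false (nat_lit 7) true (nat_lit 15) true (nat_lit 13) (.e true (nat_lit 3) (nat_lit 132) (nat_lit 6) (nat_lit 9) (.e false (nat_lit 3) (nat_lit 140) (nat_lit 6) (nat_lit 9) (.e false (nat_lit 1) (nat_lit 142) (nat_lit 6) (nat_lit 9) (.e true (nat_lit 3) (nat_lit 323) (nat_lit 1) (nat_lit 14) (.e false (nat_lit 1) (nat_lit 324) (nat_lit 1) (nat_lit 14) (.e false (nat_lit 2) (nat_lit 325) (nat_lit 1) (nat_lit 14) (.e false (nat_lit 1) (nat_lit 321) (nat_lit 1) (nat_lit 14) (.e false (nat_lit 3) (nat_lit 322) (nat_lit 1) (nat_lit 14) (.e false (nat_lit 3) (nat_lit 55) (nat_lit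 18) (nat_lit 3) (.e true (nat_lit 1) (nat_lit 65) (nat_lit 18) (nat_lit 3) (.e true (nat_lit 2) (nat_lit 260) (nat_lit 2) (nat_lit 13) (.e true (nat_lit 1) (nat_lit 261) (nat_lit 2) (nat_lit 13) (.e true (nat_lit 3) (nat_lit 262) (nat_lit 2) (nat_lit 13) (.e false (nat_lit 2) (nat_lit 263) (nat_lit 2) (nat_lit 13) (.e true (nat_lit 1) (nat_lit 265) (nat_lit 2) (nat_lit 13) (.e true (nat_lit 1) (nat_lit 266) (nat_lit 2) (nat_lit 13) (.e false (nat_lit 2) (nat_lit 271) (nat_lit 2) (nat_lit 13) dC1d_i364)))))))))))))))))))))))))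

noncomputable def dC1d_i366 : IL := (.s true (nat_lit 1) (nat_lit 22) (nat_lit 2) (nat_lit 2) (nat_lit 6) true (nat_lit 3) true (nat_lit 9) true (nat_lit 2) true (nat_lit 13) true (nat_lit 13) (.s false (nat_lit 3) (nat_lit 23) (nat_lit 2) (nat_lit 2) (nat_lit 6) true (nat_lit 3) true (nat_lit 9) true (nat_lit 2) true (nat_lit 13) true (nat_lit 13) (.s true (nat_lit 1) (nat_lit 28) (nat_lit 1) (nat_lit 2) (nat_lit 6) true (nat_lit 4) true (nat_lit 9) true (nat_lit 1) true (nat_lit 14) true (nat_lit 13) (.s false (nat_lit 1) (nat_lit 28) (nat_lit 2) (nat_lit 2) (nat_lit 5) true (nat_lit 4) true (nat_lit 10) true (nat_lit 1) true (nat_lit 13) true (nat_lit 13) (.s true (nat_lit 1) (nat_lit 28) (nat_lit 2) (nat_lit 5) (nat_lit 2) true (nat_lit 9) true (nat_lit 13) true (nat_lit 1) true (nat_lit 13) true (nat_lit 10) (.s true (nat_lit 2) (nat_lit 32) (nat_lit 0) (nat_lit 2) (nat_lit 6) true (nat_lit 5) true (nat_lit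 9) true (nat_lit 0) true (nat_lit 15) true (nat_lit 13) (.s false (nat_lit 1) (nat_lit 32) (nat_lit 0) (nat_lit 6) (nat_lit 2) true (nat_lit 11) true (nat_lit 13) true (nat_lit 0) true (nat_lit 15) true (nat_lit 9) (.s true (nat_lit 2) (nat_lit 32) (nat_lit 2) (nat_lit 0) (nat_lit 6) true (nat_lit 3) true (nat_lit 9) true (nat_lit 0) true (nat_lit 13) true (nat_lit 15) (.s false (nat_lit 3) (nat_lit 33) (nat_lit 2) (nat_lit 2) (nat_lit 4) true (nat_lit 5) true (nat_lit 11) true (nat_lit 0) true (nat_lit 13) true (nat_lit 13) (.s false (nat_lit 2) (nat_lit 32) (nat_lit 4) (nat_lit 2) (nat_lit 2) true (nat_lit 5) true (nat_lit 13) true (nat_lit 0) true (nat_lit 11) true (nat_lit 13) (.s true (nat_lit 3) (nat_lit 33) (nat_lit 4) (nat_lit 2) (nat_lit 2) true (nat_lit 5) true (nat_lit 13) true (nat_lit 0) true (nat_lit 11) true (nat_lit 13) (.s true (nat_lit 2) (nat_lit 46) (nat_lit 0) (nat_lit 0) (nat_lit 5) true (nat_lit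 6) true (nat_lit 10) false (nat_lit 2) true (nat_lit 15) true (nat_lit 15) (.s false (nat_lit 2) (nat_lit 59) (nat_lit 2) (nat_lit 2) (nat_lit 2) true (nat_lit 9) true (nat_lit 13) false (nat_lit 3) true (nat_lit 13) true (nat_lit 13) (.s true (nat_lit 2) (nat_lit 60) (nat_lit 2) (nat_lit 2) (nat_lit 2) true (nat_lit 9) true (nat_lit 13) false (nat_lit 3) true (nat_lit 13) true (nat_lit 13) (.s false (nat_lit 2) (nat_lit 61) (nat_lit 2) (nat_lit 2) (nat_lit 2) true (nat_lit 9) true (nat_lit 13) false (nat_lit 3) true (nat_lit 13) true (nat_lit 13) (.s false (nat_lit 3) (nat_lit 62) (nat_lit 2) (nat_lit 2) (nat_lit 2) true (nat_lit 9) true (nat_lit 13) false (nat_lit 3) true (nat_lit 13) true (nat_lit 13) (.s false (nat_lit 2) (nat_lit 63) (nat_lit 2) (nat_lit 2) (nat_lit 2) true (nat_lit 9) true (nat_lit 13) false (nat_lit 3) true (nat_lit 13) true (nat_lit 13) (.s true (nat_lit 2) (nat_lit 64) (nat_lit 2) (nat_lit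 2) (nat_lit 2) true (nat_lit 9) true (nat_lit 13) false (nat_lit 3) true (nat_lit 13) true (nat_lit 13) (.s true (nat_lit 1) (nat_lit 77) (nat_lit 1) (nat_lit 2) (nat_lit 2) true (nat_lit 10) true (nat_lit 13) false (nat_lit 4) true (nat_lit 14) true (nat_lit 13) (.s false (nat_lit 1) (nat_lit 77) (nat_lit 2) (nat_lit 1) (nat_lit 2) true (nat_lit 9) true (nat_lit 13) false (nat_lit 4) true (nat_lit 13) true (nat_lit 14) (.s true (nat_lit 1) (nat_lit 77) (nat_lit 2) (nat_lit 2) (nat_lit 1) true (nat_lit 10) true (nat_lit 14) false (nat_lit 4) true (nat_lit 13) true (nat_lit 13) (.s true (nat_lit 3) (nat_lit 84) (nat_lit 0) (nat_lit 2) (nat_lit 2) true (nat_lit 11) true (nat_lit 13) false (nat_lit 5) true (nat_lit 15) true (nat_lit 13) (.s false (nat_lit 1) (nat_lit 91) (nat_lit 2) (nat_lit 2) (nat_lit 0) true (nat_lit 11) true (nat_lit 15) false (nat_lit 5) true (nat_lit 13) true (nat_lit 13) (.s true (nat_lit 3)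 (nat_lit 92) (nat_lit 2) (nat_lit 2) (nat_lit 0) true (nat_lit 11) true (nat_lit 15) false (nat_lit 5) true (nat_lit 13) true (nat_lit 13) (.s true (nat_lit 2) (nat_lit 100) (nat_lit 0) (nat_lit 2) (nat_lit 1) true (nat_lit 12) true (nat_lit 14) false (nat_lit 6) true (nat_lit 15) true (nat_lit 13) dC1d_i365)))))))))))))))))))))))))

noncomputable def dC1d_i367 : IL := (.e true (nat_lit 3) (nat_lit 288) (nat_lit 1) (nat_lit 18) (.e false (nat_lit 1) (nat_lit 281) (nat_lit 1) (nat_lit 18) (.e false (nat_lit 1) (nat_lit 282) (nat_lit 1) (nat_lit 18) (.e true (nat_lit 2) (nat_lit 283) (nat_lit 1) (nat_lit 18) (.e true (nat_lit 3) (nat_lit 290) (nat_lit 0) (nat_lit 19) (.e false (nat_lit 3) (nat_lit 292) (nat_lit 0) (nat_lit 19) (.e false (nat_lit 1) (nat_lit 293) (nat_lit 0) (nat_lit 19) (.e true (nat_lit 3) (nat_lit 294) (nat_lit 0) (nat_lit 19) (.e false (nat_lit 1) (nat_lit 295) (nat_lit 0) (nat_lit 19) (.e true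 (nat_lit 1) (nat_lit 300) (nat_lit 0) (nat_lit 19) (.e true (nat_lit 1) (nat_lit 309) (nat_lit 0) (nat_lit 19) (.e true (nat_lit 1) (nat_lit 310) (nat_lit 0) (nat_lit 19) (.e true (nat_lit 1) (nat_lit 302) (nat_lit 0) (nat_lit 19) (.e true (nat_lit 1) (nat_lit 305) (nat_lit 0) (nat_lit 19) (.e false (nat_lit 1) (nat_lit 316) (nat_lit 0) (nat_lit 19) (.e true (nat_lit 3) (nat_lit 154) (nat_lit 4) (nat_lit 15) (.e true (nat_lit 2) (nat_lit 144) (nat_lit 5) (nat_lit 14) (.e false (nat_lit 3) (nat_lit 303) (nat_lit 0) (nat_lit 19) (.e true (nat_lit 1) (nat_lit 314) (nat_lit 0) (nat_lit 19) (.e true (nat_lit 1) (nat_lit 315) (nat_lit 0) (nat_lit 19) (.e false (nat_lit 2) (nat_lit 160) (nat_lit 4) (nat_lit 15) (.u (nat_lit 2) (.n (nat_lit 1) (nat_lit 1) (.p (nat_lit 2) (nat_lit 1) (.n (nat_lit 3) (nat_lit 2) (.p (nat_lit 4) (nat_lit 2) (.p (nat_lit 5) (nat_lit 2) (.p (nat_lit 6) (nat_lit 1) (.n (nat_lit 7) (nat_lit 1)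 (.p (nat_lit 9) (nat_lit 2) (.p (nat_lit 10) (nat_lit 1) (.n (nat_lit 11) (nat_lit 1) (.p (nat_lit 12) (nat_lit 2) (.n (nat_lit 14) (nat_lit 6) (.p (nat_lit 15) (nat_lit 1) (.p (nat_lit 17) (nat_lit 3) (.p (nat_lit 18) (nat_lit 2) (.n (nat_lit 19) (nat_lit 1) (.n (nat_lit 20) (nat_lit 5) (.p (nat_lit 24) (nat_lit 1) (.p (nat_lit 25) (nat_lit 1) (.p (nat_lit 26) (nat_lit 5) (.p (nat_lit 29) (nat_lit 1) (.p (nat_lit 30) (nat_lit 2) (.n (nat_lit 31) (nat_lit 2) (.p (nat_lit 34) (nat_lit 2) (.p (nat_lit 35) (nat_lit 2) (.p (nat_lit 37) (nat_lit 4) (.p (nat_lit 38) (nat_lit 4) (.p (nat_lit 39) (nat_lit 2) (.p (nat_lit 41) (nat_lit 4) (.n (nat_lit 45) (nat_lit 1) (.p (nat_lit 46) (nat_lit 1) (.n (nat_lit 48) (nat_lit 1) (.p (nat_lit 51) (nat_lit 1) (.n (nat_lit 55) (nat_lit 1) (.n (nat_lit 56) (nat_lit 1) (.p (nat_lit 58) (nat_lit 1) (.n (nat_lit 59) (nat_lit 1) (.p (nat_lit 60) (nat_lit 1) (.p (nat_lit 61) (nat_lit 1)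 (.p (nat_lit 67) (nat_lit 1) (.n (nat_lit 68) (nat_lit 1) (.p (nat_lit 69) (nat_lit 1) (.p (nat_lit 85) (nat_lit 1) (.p (nat_lit 92) (nat_lit 1) (.n (nat_lit 99) (nat_lit 1) (.n (nat_lit 108) (nat_lit 1) (.n (nat_lit 116) (nat_lit 1) (.p (nat_lit 118) (nat_lit 1) (.n (nat_lit 120) (nat_lit 1) (.n (nat_lit 121) (nat_lit 1) (.n (nat_lit 125) (nat_lit 1) (.p (nat_lit 129) (nat_lit 1) (.p (nat_lit 130) (nat_lit 1) (.p (nat_lit 132) (nat_lit 1) (.p (nat_lit 135) (nat_lit 1) (.p (nat_lit 136) (nat_lit 1) (.n (nat_lit 153) (nat_lit 2) (.n (nat_lit 154) (nat_lit 3) (.n (nat_lit 155) (nat_lit 1) (.p (nat_lit 158) (nat_lit 2) .z)))))))))))))))))))))))))))))))))))))))))))))))))))))))))))) (.u (nat_lit 2) (.p (nat_lit 169) (nat_lit 1) (.p (nat_lit 171) (nat_lit 1) (.p (nat_lit 179) (nat_lit 1) (.p (nat_lit 182) (nat_lit 1) (.p (nat_lit 186) (nat_lit 1) (.p (nat_lit 191) (nat_lit 1) (.p (nat_lit 193) (nat_lit 1) (.p (nat_lit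 194) (nat_lit 1) (.n (nat_lit 223) (nat_lit 1) (.p (nat_lit 231) (nat_lit 1) (.p (nat_lit 232) (nat_lit 1) (.p (nat_lit 234) (nat_lit 1) (.n (nat_lit 235) (nat_lit 1) (.n (nat_lit 237) (nat_lit 1) (.n (nat_lit 238) (nat_lit 1) (.n (nat_lit 242) (nat_lit 1) (.p (nat_lit 243) (nat_lit 1) (.n (nat_lit 244) (nat_lit 2) (.n (nat_lit 245) (nat_lit 1) (.n (nat_lit 249) (nat_lit 2) (.p (nat_lit 251) (nat_lit 2) (.n (nat_lit 252) (nat_lit 1) (.p (nat_lit 263) (nat_lit 1) (.p (nat_lit 266) (nat_lit 2) (.n (nat_lit 267) (nat_lit 1) (.n (nat_lit 274) (nat_lit 1) (.n (nat_lit 275) (nat_lit 1) (.p (nat_lit 278) (nat_lit 1) (.n (nat_lit 279) (nat_lit 1) (.p (nat_lit 281) (nat_lit 1) (.p (nat_lit 311) (nat_lit 2) (.p (nat_lit 312) (nat_lit 2) (.p (nat_lit 314) (nat_lit 1) (.p (nat_lit 315) (nat_lit 1) (.p (nat_lit 316) (nat_lit 3) (.p (nat_lit 317) (nat_lit 1) (.p (nat_lit 318) (nat_lit 1) (.n (nat_lit 320) (nat_lit 1) (.p (nat_lit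 327) (nat_lit 3) (.n (nat_lit 328) (nat_lit 5) (.p (nat_lit 329) (nat_lit 7) (.p (nat_lit 330) (nat_lit 6) (.n (nat_lit 331) (nat_lit 4) (.n (nat_lit 332) (nat_lit 26) (.p (nat_lit 333) (nat_lit 32) (.n (nat_lit 334) (nat_lit 14) (.p (nat_lit 335) (nat_lit 28) (.n (nat_lit 336) (nat_lit 16) (.n (nat_lit 337) (nat_lit 13) (.p (nat_lit 338) (nat_lit 24) (.p (nat_lit 339) (nat_lit 9) (.p (nat_lit 340) (nat_lit 2) (.p (nat_lit 341) (nat_lit 33) (.p (nat_lit 342) (nat_lit 13) (.p (nat_lit 343) (nat_lit 29) (.n (nat_lit 344) (nat_lit 23) (.n (nat_lit 345) (nat_lit 10) (.n (nat_lit 346) (nat_lit 57) (.p (nat_lit 347) (nat_lit 6) (.p (nat_lit 348) (nat_lit 15) .z)))))))))))))))))))))))))))))))))))))))))))))))))))))))))))) (.u (nat_lit 2) (.n (nat_lit 349) (nat_lit 55) (.n (nat_lit 350) (nat_lit 10) (.p (nat_lit 351) (nat_lit 5) (.p (nat_lit 352) (nat_lit 2) (.n (nat_lit 354) (nat_lit 2) (.n (nat_lit 355) (nat_lit 37) (.p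 (nat_lit 356) (nat_lit 55) (.p (nat_lit 357) (nat_lit 2) (.n (nat_lit 358) (nat_lit 9) (.p (nat_lit 359) (nat_lit 24) (.p (nat_lit 360) (nat_lit 16) (.n (nat_lit 361) (nat_lit 42) (.p (nat_lit 362) (nat_lit 23) (.n (nat_lit 363) (nat_lit 40) (.p (nat_lit 364) (nat_lit 17) (.p (nat_lit 365) (nat_lit 5) (.p (nat_lit 366) (nat_lit 1) (.n (nat_lit 367) (nat_lit 9) (.n (nat_lit 368) (nat_lit 9) (.n (nat_lit 369) (nat_lit 1) (.p (nat_lit 370) (nat_lit 1) (.n (nat_lit 371) (nat_lit 27) (.p (nat_lit 372) (nat_lit 21) (.n (nat_lit 373) (nat_lit 2) (.n (nat_lit 374) (nat_lit 3) (.p (nat_lit 375) (nat_lit 1) (.n (nat_lit 376) (nat_lit 1) (.p (nat_lit 377) (nat_lit 13) (.n (nat_lit 378) (nat_lit 11) (.p (nat_lit 379) (nat_lit 12) (.n (nat_lit 380) (nat_lit 1) (.n (nat_lit 381) (nat_lit 17) (.p (nat_lit 382) (nat_lit 5) (.n (nat_lit 383) (nat_lit 4) (.p (nat_lit 384) (nat_lit 6) (.p (nat_lit 386) (nat_lit 2) (.p (nat_lit 387)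 (nat_lit 6) (.n (nat_lit 388) (nat_lit 7) (.p (nat_lit 389) (nat_lit 12) (.p (nat_lit 390) (nat_lit 2) (.n (nat_lit 391) (nat_lit 3) (.n (nat_lit 392) (nat_lit 2) (.n (nat_lit 393) (nat_lit 2) (.n (nat_lit 394) (nat_lit 7) (.p (nat_lit 395) (nat_lit 2) (.p (nat_lit 396) (nat_lit 4) (.n (nat_lit 398) (nat_lit 1) (.n (nat_lit 399) (nat_lit 7) (.p (nat_lit 400) (nat_lit 3) (.n (nat_lit 401) (nat_lit 3) (.p (nat_lit 402) (nat_lit 1) (.p (nat_lit 403) (nat_lit 1) (.p (nat_lit 404) (nat_lit 1) (.n (nat_lit 405) (nat_lit 7) (.n (nat_lit 406) (nat_lit 3) (.n (nat_lit 407) (nat_lit 4) (.p (nat_lit 408) (nat_lit 2) (.n (nat_lit 409) (nat_lit 3) (.p (nat_lit 411) (nat_lit 4) (.n (nat_lit 412) (nat_lit 1) .z)))))))))))))))))))))))))))))))))))))))))))))))))))))))))))) (.u (nat_lit 2) (.p (nat_lit 413) (nat_lit 7) (.p (nat_lit 414) (nat_lit 8) (.n (nat_lit 415) (nat_lit 4) (.p (nat_lit 416) (nat_lit 24) (.p (nat_lit 418) (nat_lit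 3) (.n (nat_lit 419) (nat_lit 7) (.p (nat_lit 420) (nat_lit 1) (.n (nat_lit 421) (nat_lit 2) (.p (nat_lit 422) (nat_lit 2) (.p (nat_lit 424) (nat_lit 4) (.p (nat_lit 425) (nat_lit 5) (.p (nat_lit 426) (nat_lit 5) (.p (nat_lit 427) (nat_lit 5) (.p (nat_lit 430) (nat_lit 2) (.p (nat_lit 431) (nat_lit 4) (.p (nat_lit 432) (nat_lit 1) (.p (nat_lit 433) (nat_lit 5) (.n (nat_lit 434) (nat_lit 6) .z)))))))))))))))))) .nil)))))))))))))))))))))))))

noncomputable def dC1d_i368 : IL := (.e false (nat_lit 3) (nat_lit 252) (nat_lit 2) (nat_lit 17) (.e false (nat_lit 2) (nat_lit 291) (nat_lit 0) (nat_lit 19) (.e false (nat_lit 1) (nat_lit 299) (nat_lit 0) (nat_lit 19) (.e true (nat_lit 2) (nat_lit 301) (nat_lit 0) (nat_lit 19) (.e false (nat_lit 2) (nat_lit 304) (nat_lit 0) (nat_lit 19) (.e true (nat_lit 1) (nat_lit 308) (nat_lit 0) (nat_lit 19) (.e true (nat_lit 3) (nat_lit 311) (nat_lit 0) (nat_lit 19) (.e true (nat_lit 2)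 (nat_lit 298) (nat_lit 0) (nat_lit 19) (.e true (nat_lit 1) (nat_lit 259) (nat_lit 2) (nat_lit 17) (.e true (nat_lit 1) (nat_lit 77) (nat_lit 13) (nat_lit 8) (.e false (nat_lit 1) (nat_lit 261) (nat_lit 1) (nat_lit 18) (.e false (nat_lit 3) (nat_lit 262) (nat_lit 1) (nat_lit 18) (.e false (nat_lit 3) (nat_lit 263) (nat_lit 1) (nat_lit 18) (.e false (nat_lit 3) (nat_lit 265) (nat_lit 1) (nat_lit 18) (.e false (nat_lit 2) (nat_lit 266) (nat_lit 1) (nat_lit 18) (.e true (nat_lit 1) (nat_lit 267) (nat_lit 1) (nat_lit 18) (.e true (nat_lit 2) (nat_lit 268) (nat_lit 1) (nat_lit 18) (.e true (nat_lit 2) (nat_lit 272) (nat_lit 1) (nat_lit 18) (.e false (nat_lit 1) (nat_lit 273) (nat_lit 1) (nat_lit 18) (.e false (nat_lit 1) (nat_lit 274) (nat_lit 1) (nat_lit 18) (.e false (nat_lit 2) (nat_lit 285) (nat_lit 1) (nat_lit 18) (.e false (nat_lit 2) (nat_lit 260) (nat_lit 1) (nat_lit 18) (.e false (nat_lit 2) (nat_lit 269) (nat_lit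 1) (nat_lit 18) (.e true (nat_lit 3) (nat_lit 271) (nat_lit 1) (nat_lit 18) (.e true (nat_lit 1) (nat_lit 278) (nat_lit 1) (nat_lit 18) dC1d_i367)))))))))))))))))))))))))

noncomputable def dC1d_i369 : IL := (.e false (nat_lit 1) (nat_lit 213) (nat_lit 2) (nat_lit 17) (.e false (nat_lit 1) (nat_lit 214) (nat_lit 2) (nat_lit 17) (.e true (nat_lit 1) (nat_lit 216) (nat_lit 2) (nat_lit 17) (.e false (nat_lit 3) (nat_lit 217) (nat_lit 2) (nat_lit 17) (.e false (nat_lit 1) (nat_lit 221) (nat_lit 2) (nat_lit 17) (.e false (nat_lit 1) (nat_lit 223) (nat_lit 2) (nat_lit 17) (.e false (nat_lit 3) (nat_lit 224) (nat_lit 2) (nat_lit 17) (.e false (nat_lit 1) (nat_lit 225) (nat_lit 2) (nat_lit 17) (.e true (nat_lit 1) (nat_lit 226) (nat_lit 2) (nat_lit 17) (.e false (nat_lit 3) (nat_lit 233) (nat_lit 2) (nat_lit 17) (.e false (nat_lit 1) (nat_lit 235) (nat_lit 2) (nat_lit 17) (.e false (nat_lit 2) (nat_lit 236) (nat_lit 2)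 (nat_lit 17) (.e false (nat_lit 3) (nat_lit 242) (nat_lit 2) (nat_lit 17) (.e true (nat_lit 3) (nat_lit 244) (nat_lit 2) (nat_lit 17) (.e true (nat_lit 3) (nat_lit 245) (nat_lit 2) (nat_lit 17) (.e true (nat_lit 3) (nat_lit 246) (nat_lit 2) (nat_lit 17) (.e false (nat_lit 3) (nat_lit 247) (nat_lit 2) (nat_lit 17) (.e true (nat_lit 3) (nat_lit 248) (nat_lit 2) (nat_lit 17) (.e true (nat_lit 3) (nat_lit 212) (nat_lit 2) (nat_lit 17) (.e true (nat_lit 2) (nat_lit 219) (nat_lit 2) (nat_lit 17) (.e false (nat_lit 2) (nat_lit 234) (nat_lit 2) (nat_lit 17) (.e false (nat_lit 1) (nat_lit 249) (nat_lit 2) (nat_lit 17) (.e false (nat_lit 2) (nat_lit 307) (nat_lit 0) (nat_lit 19) (.e false (nat_lit 3) (nat_lit 139) (nat_lit 5) (nat_lit 14) (.e false (nat_lit 3) (nat_lit 143) (nat_lit 5) (nat_lit 14) dC1d_i368)))))))))))))))))))))))))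

noncomputable def dC1d_i370 : IL := (.s false (nat_lit 3) (nat_lit 90) (nat_lit 1) (nat_lit 2) (nat_lit 0) true (nat_lit 16) true (nat_lit 19) false (nat_lit 9) true (nat_lit 18) true (nat_lit 17) (.s true (nat_lit 3) (nat_lit 91) (nat_lit 1) (nat_lit 2) (nat_lit 0) true (nat_lit 16) true (nat_lit 19) false (nat_lit 9) true (nat_lit 18) true (nat_lit 17) (.s true (nat_lit 2) (nat_lit 92) (nat_lit 1) (nat_lit 2) (nat_lit 0) true (nat_lit 16) true (nat_lit 19) false (nat_lit 9) true (nat_lit 18) true (nat_lit 17) (.s false (nat_lit 3) (nat_lit 82) (nat_lit 2) (nat_lit 1) (nat_lit 0) true (nat_lit 15) true (nat_lit 19) false (nat_lit 9) true (nat_lit 17) true (nat_lit 18) (.s false (nat_lit 2) (nat_lit 85) (nat_lit 2) (nat_lit 1) (nat_lit 0) true (nat_lit 15) true (nat_lit 19) false (nat_lit 9) true (nat_lit 17) true (nat_lit 18) (.s true (nat_lit 3) (nat_lit 90) (nat_lit 2) (nat_lit 1) (nat_lit 0) true (nat_lit 15)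 true (nat_lit 19) false (nat_lit 9) true (nat_lit 17) true (nat_lit 18) (.s true (nat_lit 1) (nat_lit 93) (nat_lit 0) (nat_lit 2) (nat_lit 0) false (nat_lit 20) true (nat_lit 19) false (nat_lit 10) true (nat_lit 19) true (nat_lit 17) (.s true (nat_lit 1) (nat_lit 94) (nat_lit 0) (nat_lit 2) (nat_lit 0) false (nat_lit 20) true (nat_lit 19) false (nat_lit 10) true (nat_lit 19) true (nat_lit 17) (.s false (nat_lit 1) (nat_lit 95) (nat_lit 0) (nat_lit 2) (nat_lit 0) false (nat_lit 20) true (nat_lit 19) false (nat_lit 10) true (nat_lit 19) true (nat_lit 17) (.s true (nat_lit 1) (nat_lit 97) (nat_lit 0) (nat_lit 2) (nat_lit 0) false (nat_lit 20) true (nat_lit 19) false (nat_lit 10) true (nat_lit 19) true (nat_lit 17) (.s false (nat_lit 2) (nat_lit 98) (nat_lit 0) (nat_lit 1) (nat_lit 1) true (nat_lit 16) true (nat_lit 18) false (nat_lit 11) true (nat_lit 19) true (nat_lit 18) (.s true (nat_lit 2) (nat_lit 100) (nat_lit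 1) (nat_lit 0) (nat_lit 1) false (nat_lit 21) true (nat_lit 18) false (nat_lit 11) true (nat_lit 18) true (nat_lit 19) (.s false (nat_lit 1) (nat_lit 101) (nat_lit 1) (nat_lit 0) (nat_lit 1) false (nat_lit 21) true (nat_lit 18) false (nat_lit 11) true (nat_lit 18) true (nat_lit 19) (.s false (nat_lit 2) (nat_lit 105) (nat_lit 0) (nat_lit 0) (nat_lit 1) true (nat_lit 16) true (nat_lit 18) false (nat_lit 12) true (nat_lit 19) true (nat_lit 19) (.s false (nat_lit 2) (nat_lit 103) (nat_lit 0) (nat_lit 1) (nat_lit 0) false (nat_lit 20) true (nat_lit 19) false (nat_lit 12) true (nat_lit 19) true (nat_lit 18) (.s true (nat_lit 3) (nat_lit 104) (nat_lit 0) (nat_lit 1) (nat_lit 0) false (nat_lit 20) true (nat_lit 19) false (nat_lit 12) true (nat_lit 19) true (nat_lit 18) (.s false (nat_lit 3) (nat_lit 105) (nat_lit 0) (nat_lit 1) (nat_lit 0) false (nat_lit 20) true (nat_lit 19) false (nat_lit 12) true (nat_lit 19) true (nat_lit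 18) (.a false (nat_lit 3) (nat_lit 31) (nat_lit 31) (nat_lit 0) (nat_lit 0) (.a false (nat_lit 1) (nat_lit 32) (nat_lit 33) (nat_lit 0) (nat_lit 0) (.a true (nat_lit 3) (nat_lit 33) (nat_lit 33) (nat_lit 0) (nat_lit 0) (.a true (nat_lit 3) (nat_lit 34) (nat_lit 34) (nat_lit 0) (nat_lit 0) (.a false (nat_lit 1) (nat_lit 34) (nat_lit 35) (nat_lit 0) (nat_lit 0) (.a true (nat_lit 1) (nat_lit 36) (nat_lit 36) (nat_lit 0) (nat_lit 0) (.a false (nat_lit 3) (nat_lit 31) (nat_lit 35) (nat_lit 0) (nat_lit 0) (.a false (nat_lit 2) (nat_lit 35) (nat_lit 35) (nat_lit 0) (nat_lit 0) dC1d_i369)))))))))))))))))))))))))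

noncomputable def dC1d_i371 : IL := (.s true (nat_lit 3) (nat_lit 74) (nat_lit 2) (nat_lit 0) (nat_lit 2) true (nat_lit 13) true (nat_lit 17) false (nat_lit 7) true (nat_lit 17) true (nat_lit 19) (.s false (nat_lit 3) (nat_lit 75) (nat_lit 2) (nat_lit 0) (nat_lit 2) true (nat_lit 13) true (nat_lit 17) false (nat_lit 7) true (nat_lit 17) true (nat_lit 19) (.s true (nat_lit 3) (nat_lit 66) (nat_lit 2) (nat_lit 2) (nat_lit 0) true (nat_lit 15) true (nat_lit 19) false (nat_lit 7) true (nat_lit 17) true (nat_lit 17) (.s true (nat_lit 1) (nat_lit 67) (nat_lit 2) (nat_lit 2) (nat_lit 0) true (nat_lit 15) true (nat_lit 19) false (nat_lit 7) true (nat_lit 17) true (nat_lit 17) (.s true (nat_lit 3) (nat_lit 70) (nat_lit 2) (nat_lit 2) (nat_lit 0) true (nat_lit 15) true (nat_lit 19) false (nat_lit 7) true (nat_lit 17) true (nat_lit 17) (.s false (nat_lit 1) (nat_lit 72) (nat_lit 2) (nat_lit 2) (nat_lit 0) true (nat_lit 15)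 true (nat_lit 19) false (nat_lit 7) true (nat_lit 17) true (nat_lit 17) (.s true (nat_lit 1) (nat_lit 75) (nat_lit 2) (nat_lit 2) (nat_lit 0) true (nat_lit 15) true (nat_lit 19) false (nat_lit 7) true (nat_lit 17) true (nat_lit 17) (.s false (nat_lit 3) (nat_lit 77) (nat_lit 1) (nat_lit 1) (nat_lit 2) true (nat_lit 14) true (nat_lit 17) false (nat_lit 8) true (nat_lit 18) true (nat_lit 18) (.s false (nat_lit 3) (nat_lit 78) (nat_lit 1) (nat_lit 1) (nat_lit 2) true (nat_lit 14) true (nat_lit 17) false (nat_lit 8) true (nat_lit 18) true (nat_lit 18) (.s true (nat_lit 3) (nat_lit 80) (nat_lit 1) (nat_lit 1) (nat_lit 2) true (nat_lit 14) true (nat_lit 17) false (nat_lit 8) true (nat_lit 18) true (nat_lit 18) (.s false (nat_lit 3) (nat_lit 79) (nat_lit 1) (nat_lit 2) (nat_lit 1) false (nat_lit 21) true (nat_lit 18) false (nat_lit 8) true (nat_lit 18) true (nat_lit 17) (.s true (nat_lit 1) (nat_lit 81) (nat_lit 1) (nat_lit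 2) (nat_lit 1) false (nat_lit 21) true (nat_lit 18) false (nat_lit 8) true (nat_lit 18) true (nat_lit 17) (.s false (nat_lit 2) (nat_lit 80) (nat_lit 2) (nat_lit 1) (nat_lit 1) true (nat_lit 14) true (nat_lit 18) false (nat_lit 8) true (nat_lit 17) true (nat_lit 18) (.s false (nat_lit 2) (nat_lit 85) (nat_lit 0) (nat_lit 1) (nat_lit 2) true (nat_lit 15) true (nat_lit 17) false (nat_lit 9) true (nat_lit 19) true (nat_lit 18) (.s true (nat_lit 3) (nat_lit 90) (nat_lit 0) (nat_lit 1) (nat_lit 2) true (nat_lit 15) true (nat_lit 17) false (nat_lit 9) true (nat_lit 19) true (nat_lit 18) (.s true (nat_lit 1) (nat_lit 84) (nat_lit 0) (nat_lit 2) (nat_lit 1) true (nat_lit 16) true (nat_lit 18) false (nat_lit 9) true (nat_lit 19) true (nat_lit 17) (.s false (nat_lit 3) (nat_lit 88) (nat_lit 0) (nat_lit 2) (nat_lit 1) true (nat_lit 16) true (nat_lit 18) false (nat_lit 9) true (nat_lit 19) true (nat_lit 17) (.s true (nat_lit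 1) (nat_lit 92) (nat_lit 0) (nat_lit 2) (nat_lit 1) true (nat_lit 16) true (nat_lit 18) false (nat_lit 9) true (nat_lit 19) true (nat_lit 17) (.s true (nat_lit 1) (nat_lit 83) (nat_lit 1) (nat_lit 2) (nat_lit 0) true (nat_lit 16) true (nat_lit 19) false (nat_lit 9) true (nat_lit 18) true (nat_lit 17) (.s false (nat_lit 3) (nat_lit 84) (nat_lit 1) (nat_lit 2) (nat_lit 0) true (nat_lit 16) true (nat_lit 19) false (nat_lit 9) true (nat_lit 18) true (nat_lit 17) (.s true (nat_lit 3) (nat_lit 85) (nat_lit 1) (nat_lit 2) (nat_lit 0) true (nat_lit 16) true (nat_lit 19) false (nat_lit 9) true (nat_lit 18) true (nat_lit 17) (.s true (nat_lit 3) (nat_lit 86) (nat_lit 1) (nat_lit 2) (nat_lit 0) true (nat_lit 16) true (nat_lit 19) false (nat_lit 9) true (nat_lit 18) true (nat_lit 17) (.s false (nat_lit 2) (nat_lit 87) (nat_lit 1) (nat_lit 2) (nat_lit 0) true (nat_lit 16) true (nat_lit 19) false (nat_lit 9) true (nat_lit 18)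 true (nat_lit 17) (.s true (nat_lit 1) (nat_lit 88) (nat_lit 1) (nat_lit 2) (nat_lit 0) true (nat_lit 16) true (nat_lit 19) false (nat_lit 9) true (nat_lit 18) true (nat_lit 17) (.s true (nat_lit 2) (nat_lit 89) (nat_lit 1) (nat_lit 2) (nat_lit 0) true (nat_lit 16) true (nat_lit 19) false (nat_lit 9) true (nat_lit 18) true (nat_lit 17) dC1d_i370)))))))))))))))))))))))))

noncomputable def dC1d_i372 : IL := (.s false (nat_lit 1) (nat_lit 55) (nat_lit 2) (nat_lit 1) (nat_lit 2) true (nat_lit 13) true (nat_lit 17) false (nat_lit 6) true (nat_lit 17) true (nat_lit 18) (.s true (nat_lit 1) (nat_lit 57) (nat_lit 2) (nat_lit 1) (nat_lit 2) true (nat_lit 13) true (nat_lit 17) false (nat_lit 6) true (nat_lit 17) true (nat_lit 18) (.s false (nat_lit 1) (nat_lit 58) (nat_lit 2) (nat_lit 1) (nat_lit 2) true (nat_lit 13) true (nat_lit 17) false (nat_lit 6) true (nat_lit 17) true (nat_lit 18) (.s true (nat_lit 1) (nat_lit 59)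 (nat_lit 2) (nat_lit 1) (nat_lit 2) true (nat_lit 13) true (nat_lit 17) false (nat_lit 6) true (nat_lit 17) true (nat_lit 18) (.s false (nat_lit 1) (nat_lit 60) (nat_lit 2) (nat_lit 1) (nat_lit 2) true (nat_lit 13) true (nat_lit 17) false (nat_lit 6) true (nat_lit 17) true (nat_lit 18) (.s false (nat_lit 1) (nat_lit 61) (nat_lit 2) (nat_lit 1) (nat_lit 2) true (nat_lit 13) true (nat_lit 17) false (nat_lit 6) true (nat_lit 17) true (nat_lit 18) (.s false (nat_lit 1) (nat_lit 62) (nat_lit 2) (nat_lit 1) (nat_lit 2) true (nat_lit 13) true (nat_lit 17) false (nat_lit 6) true (nat_lit 17) true (nat_lit 18) (.s false (nat_lit 3) (nat_lit 64) (nat_lit 2) (nat_lit 1) (nat_lit 2) true (nat_lit 13) true (nat_lit 17) false (nat_lit 6) true (nat_lit 17) true (nat_lit 18) (.s false (nat_lit 3) (nat_lit 65) (nat_lit 2) (nat_lit 1) (nat_lit 2) true (nat_lit 13) true (nat_lit 17) false (nat_lit 6) true (nat_lit 17) true (nat_lit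 18) (.s true (nat_lit 2) (nat_lit 55) (nat_lit 2) (nat_lit 2) (nat_lit 1) true (nat_lit 14) true (nat_lit 18) false (nat_lit 6) true (nat_lit 17) true (nat_lit 17) (.s true (nat_lit 1) (nat_lit 56) (nat_lit 2) (nat_lit 2) (nat_lit 1) true (nat_lit 14) true (nat_lit 18) false (nat_lit 6) true (nat_lit 17) true (nat_lit 17) (.s false (nat_lit 2) (nat_lit 57) (nat_lit 2) (nat_lit 2) (nat_lit 1) true (nat_lit 14) true (nat_lit 18) false (nat_lit 6) true (nat_lit 17) true (nat_lit 17) (.s true (nat_lit 1) (nat_lit 58) (nat_lit 2) (nat_lit 2) (nat_lit 1) true (nat_lit 14) true (nat_lit 18) false (nat_lit 6) true (nat_lit 17) true (nat_lit 17) (.s true (nat_lit 3) (nat_lit 59) (nat_lit 2) (nat_lit 2) (nat_lit 1) true (nat_lit 14) true (nat_lit 18) false (nat_lit 6) true (nat_lit 17) true (nat_lit 17) (.s false (nat_lit 2) (nat_lit 61) (nat_lit 2) (nat_lit 2) (nat_lit 1) true (nat_lit 14) true (nat_lit 18) false (nat_lit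 6) true (nat_lit 17) true (nat_lit 17) (.s false (nat_lit 1) (nat_lit 63) (nat_lit 2) (nat_lit 2) (nat_lit 1) true (nat_lit 14) true (nat_lit 18) false (nat_lit 6) true (nat_lit 17) true (nat_lit 17) (.s true (nat_lit 1) (nat_lit 64) (nat_lit 2) (nat_lit 2) (nat_lit 1) true (nat_lit 14) true (nat_lit 18) false (nat_lit 6) true (nat_lit 17) true (nat_lit 17) (.s true (nat_lit 3) (nat_lit 65) (nat_lit 2) (nat_lit 2) (nat_lit 1) true (nat_lit 14) true (nat_lit 18) false (nat_lit 6) true (nat_lit 17) true (nat_lit 17) (.s false (nat_lit 1) (nat_lit 67) (nat_lit 0) (nat_lit 2) (nat_lit 2) true (nat_lit 15) true (nat_lit 17) false (nat_lit 7) true (nat_lit 19) true (nat_lit 17) (.s false (nat_lit 3) (nat_lit 70) (nat_lit 0) (nat_lit 2) (nat_lit 2) true (nat_lit 15) true (nat_lit 17) false (nat_lit 7) true (nat_lit 19) true (nat_lit 17) (.s true (nat_lit 1) (nat_lit 72) (nat_lit 0) (nat_lit 2) (nat_lit 2) true (nat_lit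 15) true (nat_lit 17) false (nat_lit 7) true (nat_lit 19) true (nat_lit 17) (.s false (nat_lit 2) (nat_lit 73) (nat_lit 0) (nat_lit 2) (nat_lit 2) true (nat_lit 15) true (nat_lit 17) false (nat_lit 7) true (nat_lit 19) true (nat_lit 17) (.s false (nat_lit 3) (nat_lit 74) (nat_lit 0) (nat_lit 2) (nat_lit 2) true (nat_lit 15) true (nat_lit 17) false (nat_lit 7) true (nat_lit 19) true (nat_lit 17) (.s false (nat_lit 1) (nat_lit 75) (nat_lit 0) (nat_lit 2) (nat_lit 2) true (nat_lit 15) true (nat_lit 17) false (nat_lit 7) true (nat_lit 19) true (nat_lit 17) (.s true (nat_lit 2) (nat_lit 66) (nat_lit 2) (nat_lit 0) (nat_lit 2) true (nat_lit 13) true (nat_lit 17) false (nat_lit 7) true (nat_lit 17) true (nat_lit 19) dC1d_i371)))))))))))))))))))))))))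

noncomputable def dC1d_i373 : IL := (.s false (nat_lit 3) (nat_lit 31) (nat_lit 0) (nat_lit 2) (nat_lit 5) true (nat_lit 9) true (nat_lit 14) true (nat_lit 0) true (nat_lit 19) true (nat_lit 17) (.s false (nat_lit 3) (nat_lit 31) (nat_lit 2) (nat_lit 1) (nat_lit 4) true (nat_lit 7) true (nat_lit 15) true (nat_lit 0) true (nat_lit 17) true (nat_lit 18) (.s true (nat_lit 2) (nat_lit 35) (nat_lit 2) (nat_lit 2) (nat_lit 3) true (nat_lit 9) true (nat_lit 16) true (nat_lit 0) true (nat_lit 17) true (nat_lit 17) (.s true (nat_lit 3) (nat_lit 35) (nat_lit 2) (nat_lit 3) (nat_lit 2) true (nat_lit 13) true (nat_lit 17) true (nat_lit 0) true (nat_lit 17) true (nat_lit 16) (.s false (nat_lit 3) (nat_lit 31) (nat_lit 3) (nat_lit 2) (nat_lit 2) true (nat_lit 9) true (nat_lit 17) true (nat_lit 0) true (nat_lit 16) true (nat_lit 17) (.s false (nat_lit 1) (nat_lit 34) (nat_lit 6) (nat_lit 0) (nat_lit 1) true (nat_lit 6) true (nat_lit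 18) true (nat_lit 0) true (nat_lit 13) true (nat_lit 19) (.s true (nat_lit 3) (nat_lit 35) (nat_lit 6) (nat_lit 0) (nat_lit 1) true (nat_lit 6) true (nat_lit 18) true (nat_lit 0) true (nat_lit 13) true (nat_lit 19) (.s false (nat_lit 2) (nat_lit 39) (nat_lit 6) (nat_lit 0) (nat_lit 0) true (nat_lit 7) true (nat_lit 19) false (nat_lit 1) true (nat_lit 13) true (nat_lit 19) (.s false (nat_lit 3) (nat_lit 40) (nat_lit 0) (nat_lit 1) (nat_lit 5) true (nat_lit 9) true (nat_lit 14) false (nat_lit 2) true (nat_lit 19) true (nat_lit 18) (.s true (nat_lit 2) (nat_lit 40) (nat_lit 1) (nat_lit 5) (nat_lit 0) true (nat_lit 16) true (nat_lit 19) false (nat_lit 2) true (nat_lit 18) true (nat_lit 14) (.s false (nat_lit 3) (nat_lit 40) (nat_lit 4) (nat_lit 1) (nat_lit 1) true (nat_lit 9) true (nat_lit 18) false (nat_lit 2) true (nat_lit 15) true (nat_lit 18) (.s true (nat_lit 2) (nat_lit 44) (nat_lit 5) (nat_lit 0) (nat_lit 0)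 true (nat_lit 9) true (nat_lit 19) false (nat_lit 3) true (nat_lit 14) true (nat_lit 19) (.s false (nat_lit 1) (nat_lit 45) (nat_lit 5) (nat_lit 0) (nat_lit 0) true (nat_lit 9) true (nat_lit 19) false (nat_lit 3) true (nat_lit 14) true (nat_lit 19) (.s false (nat_lit 1) (nat_lit 46) (nat_lit 0) (nat_lit 1) (nat_lit 3) true (nat_lit 12) true (nat_lit 16) false (nat_lit 4) true (nat_lit 19) true (nat_lit 18) (.s true (nat_lit 1) (nat_lit 46) (nat_lit 1) (nat_lit 3) (nat_lit 0) true (nat_lit 16) true (nat_lit 19) false (nat_lit 4) true (nat_lit 18) true (nat_lit 16) (.s true (nat_lit 3) (nat_lit 50) (nat_lit 2) (nat_lit 2) (nat_lit 2) true (nat_lit 13) true (nat_lit 17) false (nat_lit 5) true (nat_lit 17) true (nat_lit 17) (.s false (nat_lit 3) (nat_lit 55) (nat_lit 1) (nat_lit 2) (nat_lit 2) true (nat_lit 14) true (nat_lit 17) false (nat_lit 6) true (nat_lit 18) true (nat_lit 17) (.s true (nat_lit 3) (nat_lit 56)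 (nat_lit 1) (nat_lit 2) (nat_lit 2) true (nat_lit 14) true (nat_lit 17) false (nat_lit 6) true (nat_lit 18) true (nat_lit 17) (.s true (nat_lit 1) (nat_lit 57) (nat_lit 1) (nat_lit 2) (nat_lit 2) true (nat_lit 14) true (nat_lit 17) false (nat_lit 6) true (nat_lit 18) true (nat_lit 17) (.s false (nat_lit 3) (nat_lit 58) (nat_lit 1) (nat_lit 2) (nat_lit 2) true (nat_lit 14) true (nat_lit 17) false (nat_lit 6) true (nat_lit 18) true (nat_lit 17) (.s true (nat_lit 3) (nat_lit 60) (nat_lit 1) (nat_lit 2) (nat_lit 2) true (nat_lit 14) true (nat_lit 17) false (nat_lit 6) true (nat_lit 18) true (nat_lit 17) (.s true (nat_lit 3) (nat_lit 61) (nat_lit 1) (nat_lit 2) (nat_lit 2) true (nat_lit 14) true (nat_lit 17) false (nat_lit 6) true (nat_lit 18) true (nat_lit 17) (.s false (nat_lit 2) (nat_lit 62) (nat_lit 1) (nat_lit 2) (nat_lit 2) true (nat_lit 14) true (nat_lit 17) false (nat_lit 6) true (nat_lit 18) true (nat_lit 17)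 (.s false (nat_lit 1) (nat_lit 63) (nat_lit 1) (nat_lit 2) (nat_lit 2) true (nat_lit 14) true (nat_lit 17) false (nat_lit 6) true (nat_lit 18) true (nat_lit 17) (.s false (nat_lit 2) (nat_lit 64) (nat_lit 1) (nat_lit 2) (nat_lit 2) true (nat_lit 14) true (nat_lit 17) false (nat_lit 6) true (nat_lit 18) true (nat_lit 17) dC1d_i372)))))))))))))))))))))))))

noncomputable def dC1d_i374 : IL := (.s true (nat_lit 2) (nat_lit 21) (nat_lit 2) (nat_lit 5) (nat_lit 2) true (nat_lit 13) true (nat_lit 17) true (nat_lit 3) true (nat_lit 17) true (nat_lit 14) (.s false (nat_lit 2) (nat_lit 20) (nat_lit 2) (nat_lit 6) (nat_lit 1) true (nat_lit 14) true (nat_lit 18) true (nat_lit 3) true (nat_lit 17) true (nat_lit 13) (.s true (nat_lit 3) (nat_lit 20) (nat_lit 5) (nat_lit 2) (nat_lit 2) true (nat_lit 6) true (nat_lit 17) true (nat_lit 3) true (nat_lit 14) true (nat_lit 17) (.s false (nat_lit 1) (nat_lit 21) (nat_lit 5) (nat_lit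 2) (nat_lit 2) true (nat_lit 6) true (nat_lit 17) true (nat_lit 3) true (nat_lit 14) true (nat_lit 17) (.s true (nat_lit 3) (nat_lit 21) (nat_lit 6) (nat_lit 1) (nat_lit 2) true (nat_lit 5) true (nat_lit 17) true (nat_lit 3) true (nat_lit 13) true (nat_lit 18) (.s false (nat_lit 2) (nat_lit 21) (nat_lit 6) (nat_lit 2) (nat_lit 1) true (nat_lit 6) true (nat_lit 18) true (nat_lit 3) true (nat_lit 13) true (nat_lit 17) (.s false (nat_lit 3) (nat_lit 24) (nat_lit 0) (nat_lit 2) (nat_lit 6) true (nat_lit 7) true (nat_lit 13) true (nat_lit 2) true (nat_lit 19) true (nat_lit 17) (.s true (nat_lit 2) (nat_lit 25) (nat_lit 0) (nat_lit 2) (nat_lit 6) true (nat_lit 7) true (nat_lit 13) true (nat_lit 2) true (nat_lit 19) true (nat_lit 17) (.s true (nat_lit 1) (nat_lit 24) (nat_lit 0) (nat_lit 6) (nat_lit 2) true (nat_lit 15) true (nat_lit 17) true (nat_lit 2) true (nat_lit 19) true (nat_lit 13) (.s false (nat_lit 3) (nat_lit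 24) (nat_lit 2) (nat_lit 2) (nat_lit 4) true (nat_lit 7) true (nat_lit 15) true (nat_lit 2) true (nat_lit 17) true (nat_lit 17) (.s true (nat_lit 3) (nat_lit 25) (nat_lit 2) (nat_lit 2) (nat_lit 4) true (nat_lit 7) true (nat_lit 15) true (nat_lit 2) true (nat_lit 17) true (nat_lit 17) (.s false (nat_lit 1) (nat_lit 24) (nat_lit 2) (nat_lit 6) (nat_lit 0) true (nat_lit 15) true (nat_lit 19) true (nat_lit 2) true (nat_lit 17) true (nat_lit 13) (.s true (nat_lit 2) (nat_lit 25) (nat_lit 2) (nat_lit 6) (nat_lit 0) true (nat_lit 15) true (nat_lit 19) true (nat_lit 2) true (nat_lit 17) true (nat_lit 13) (.s false (nat_lit 2) (nat_lit 25) (nat_lit 4) (nat_lit 2) (nat_lit 2) true (nat_lit 7) true (nat_lit 17) true (nat_lit 2) true (nat_lit 15) true (nat_lit 17) (.s false (nat_lit 2) (nat_lit 24) (nat_lit 6) (nat_lit 0) (nat_lit 2) true (nat_lit 5) true (nat_lit 17) true (nat_lit 2) true (nat_lit 13) true (nat_lit 19) (.s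 false (nat_lit 3) (nat_lit 29) (nat_lit 1) (nat_lit 1) (nat_lit 6) true (nat_lit 6) true (nat_lit 13) true (nat_lit 1) true (nat_lit 18) true (nat_lit 18) (.s false (nat_lit 1) (nat_lit 30) (nat_lit 1) (nat_lit 1) (nat_lit 6) true (nat_lit 6) true (nat_lit 13) true (nat_lit 1) true (nat_lit 18) true (nat_lit 18) (.s false (nat_lit 2) (nat_lit 29) (nat_lit 1) (nat_lit 2) (nat_lit 5) true (nat_lit 8) true (nat_lit 14) true (nat_lit 1) true (nat_lit 18) true (nat_lit 17) (.s false (nat_lit 1) (nat_lit 28) (nat_lit 2) (nat_lit 1) (nat_lit 5) true (nat_lit 6) true (nat_lit 14) true (nat_lit 1) true (nat_lit 17) true (nat_lit 18) (.s false (nat_lit 2) (nat_lit 29) (nat_lit 2) (nat_lit 1) (nat_lit 5) true (nat_lit 6) true (nat_lit 14) true (nat_lit 1) true (nat_lit 17) true (nat_lit 18) (.s true (nat_lit 3) (nat_lit 28) (nat_lit 2) (nat_lit 5) (nat_lit 1) true (nat_lit 14) true (nat_lit 18) true (nat_lit 1) true (nat_lit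 17) true (nat_lit 14) (.s true (nat_lit 2) (nat_lit 28) (nat_lit 5) (nat_lit 1) (nat_lit 2) true (nat_lit 6) true (nat_lit 17) true (nat_lit 1) true (nat_lit 14) true (nat_lit 18) (.s false (nat_lit 1) (nat_lit 28) (nat_lit 5) (nat_lit 2) (nat_lit 1) true (nat_lit 8) true (nat_lit 18) true (nat_lit 1) true (nat_lit 14) true (nat_lit 17) (.s false (nat_lit 2) (nat_lit 30) (nat_lit 6) (nat_lit 1) (nat_lit 1) true (nat_lit 6) true (nat_lit 18) true (nat_lit 1) true (nat_lit 13) true (nat_lit 18) (.s false (nat_lit 2) (nat_lit 35) (nat_lit 0) (nat_lit 1) (nat_lit 6) true (nat_lit 7) true (nat_lit 13) true (nat_lit 0) true (nat_lit 19) true (nat_lit 18) dC1d_i373)))))))))))))))))))))))))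

noncomputable def dC1d_i375 : IL := (.s true (nat_lit 2) (nat_lit 14) (nat_lit 2) (nat_lit 8) (nat_lit 2) true (nat_lit 13) true (nat_lit 17) true (nat_lit 7) true (nat_lit 17) true (nat_lit 11) (.s false (nat_lit 2) (nat_lit 15) (nat_lit 2) (nat_lit 8) (nat_lit 2) true (nat_lit 13) true (nat_lit 17) true (nat_lit 7) true (nat_lit 17) true (nat_lit 11) (.s false (nat_lit 3) (nat_lit 15) (nat_lit 8) (nat_lit 2) (nat_lit 2) true (nat_lit 2) true (nat_lit 17) true (nat_lit 7) true (nat_lit 11) true (nat_lit 17) (.s true (nat_lit 3) (nat_lit 15) (nat_lit 10) (nat_lit 1) (nat_lit 2) true (nat_lit 0) true (nat_lit 17) true (nat_lit 7) true (nat_lit 9) true (nat_lit 18) (.s true (nat_lit 2) (nat_lit 14) (nat_lit 13) (nat_lit 2) (nat_lit 0) true (nat_lit 2) true (nat_lit 19) true (nat_lit 7) true (nat_lit 8) true (nat_lit 17) (.s true (nat_lit 2) (nat_lit 16) (nat_lit 0) (nat_lit 0) (nat_lit 16) true (nat_lit 0) true (nat_lit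 6) true (nat_lit 6) true (nat_lit 19) true (nat_lit 19) (.s false (nat_lit 3) (nat_lit 16) (nat_lit 2) (nat_lit 1) (nat_lit 9) true (nat_lit 1) true (nat_lit 10) true (nat_lit 6) true (nat_lit 17) true (nat_lit 18) (.s false (nat_lit 1) (nat_lit 17) (nat_lit 2) (nat_lit 7) (nat_lit 2) true (nat_lit 13) true (nat_lit 17) true (nat_lit 6) true (nat_lit 17) true (nat_lit 12) (.s false (nat_lit 3) (nat_lit 16) (nat_lit 7) (nat_lit 2) (nat_lit 2) true (nat_lit 3) true (nat_lit 17) true (nat_lit 6) true (nat_lit 12) true (nat_lit 17) (.s false (nat_lit 2) (nat_lit 16) (nat_lit 9) (nat_lit 1) (nat_lit 2) true (nat_lit 1) true (nat_lit 17) true (nat_lit 6) true (nat_lit 10) true (nat_lit 18) (.s true (nat_lit 1) (nat_lit 16) (nat_lit 9) (nat_lit 2) (nat_lit 1) true (nat_lit 3) true (nat_lit 18) true (nat_lit 6) true (nat_lit 10) true (nat_lit 17) (.s true (nat_lit 3) (nat_lit 18) (nat_lit 1) (nat_lit 9) (nat_lit 1) false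 (nat_lit 21) true (nat_lit 18) true (nat_lit 5) true (nat_lit 18) true (nat_lit 10) (.s true (nat_lit 3) (nat_lit 18) (nat_lit 4) (nat_lit 1) (nat_lit 3) true (nat_lit 3) true (nat_lit 16) true (nat_lit 5) true (nat_lit 15) true (nat_lit 18) (.s true (nat_lit 1) (nat_lit 18) (nat_lit 7) (nat_lit 2) (nat_lit 1) true (nat_lit 4) true (nat_lit 18) true (nat_lit 5) true (nat_lit 12) true (nat_lit 17) (.s true (nat_lit 1) (nat_lit 18) (nat_lit 9) (nat_lit 1) (nat_lit 1) true (nat_lit 3) true (nat_lit 18) true (nat_lit 5) true (nat_lit 10) true (nat_lit 18) (.s false (nat_lit 1) (nat_lit 21) (nat_lit 1) (nat_lit 2) (nat_lit 6) true (nat_lit 6) true (nat_lit 13) true (nat_lit 3) true (nat_lit 18) true (nat_lit 17) (.s false (nat_lit 3) (nat_lit 22) (nat_lit 1) (nat_lit 2) (nat_lit 6) true (nat_lit 6) true (nat_lit 13) true (nat_lit 3) true (nat_lit 18) true (nat_lit 17) (.s false (nat_lit 2) (nat_lit 20) (nat_lit 1) (nat_lit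 6) (nat_lit 2) true (nat_lit 14) true (nat_lit 17) true (nat_lit 3) true (nat_lit 18) true (nat_lit 13) (.s false (nat_lit 3) (nat_lit 22) (nat_lit 1) (nat_lit 6) (nat_lit 2) true (nat_lit 14) true (nat_lit 17) true (nat_lit 3) true (nat_lit 18) true (nat_lit 13) (.s true (nat_lit 2) (nat_lit 20) (nat_lit 2) (nat_lit 1) (nat_lit 6) true (nat_lit 5) true (nat_lit 13) true (nat_lit 3) true (nat_lit 17) true (nat_lit 18) (.s true (nat_lit 1) (nat_lit 21) (nat_lit 2) (nat_lit 1) (nat_lit 6) true (nat_lit 5) true (nat_lit 13) true (nat_lit 3) true (nat_lit 17) true (nat_lit 18) (.s false (nat_lit 1) (nat_lit 20) (nat_lit 2) (nat_lit 2) (nat_lit 5) true (nat_lit 6) true (nat_lit 14) true (nat_lit 3) true (nat_lit 17) true (nat_lit 17) (.s false (nat_lit 2) (nat_lit 21) (nat_lit 2) (nat_lit 2) (nat_lit 5) true (nat_lit 6) true (nat_lit 14) true (nat_lit 3) true (nat_lit 17) true (nat_lit 17) (.s false (nat_lit 1) (nat_lit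 22) (nat_lit 2) (nat_lit 2) (nat_lit 5) true (nat_lit 6) true (nat_lit 14) true (nat_lit 3) true (nat_lit 17) true (nat_lit 17) (.s true (nat_lit 2) (nat_lit 23) (nat_lit 2) (nat_lit 2) (nat_lit 5) true (nat_lit 6) true (nat_lit 14) true (nat_lit 3) true (nat_lit 17) true (nat_lit 17) dC1d_i374)))))))))))))))))))))))))

noncomputable def dC1d_i376 : IL := (.e false (nat_lit 1) (nat_lit 265) (nat_lit 2) (nat_lit 13) (.e true (nat_lit 3) (nat_lit 266) (nat_lit 2) (nat_lit 13) (.e true (nat_lit 1) (nat_lit 267) (nat_lit 2) (nat_lit 13) (.e true (nat_lit 2) (nat_lit 268) (nat_lit 2) (nat_lit 13) (.e false (nat_lit 3) (nat_lit 269) (nat_lit 2) (nat_lit 13) (.e false (nat_lit 1) (nat_lit 271) (nat_lit 2) (nat_lit 13) (.e true (nat_lit 1) (nat_lit 272) (nat_lit 2) (nat_lit 13) (.e true (nat_lit 3) (nat_lit 273) (nat_lit 2) (nat_lit 13) (.e true (nat_lit 2) (nat_lit 277) (nat_lit 2) (nat_lit 13) (.e false (nat_lit 3) (nat_lit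 278) (nat_lit 2) (nat_lit 13) (.e false (nat_lit 2) (nat_lit 279) (nat_lit 2) (nat_lit 13) (.e true (nat_lit 3) (nat_lit 286) (nat_lit 2) (nat_lit 13) (.e true (nat_lit 3) (nat_lit 287) (nat_lit 2) (nat_lit 13) (.e false (nat_lit 3) (nat_lit 288) (nat_lit 2) (nat_lit 13) (.e true (nat_lit 3) (nat_lit 132) (nat_lit 6) (nat_lit 9) (.e false (nat_lit 1) (nat_lit 142) (nat_lit 6) (nat_lit 9) (.e true (nat_lit 3) (nat_lit 149) (nat_lit 6) (nat_lit 9) (.e true (nat_lit 3) (nat_lit 150) (nat_lit 6) (nat_lit 9) (.e false (nat_lit 3) (nat_lit 151) (nat_lit 6) (nat_lit 9) (.e true (nat_lit 2) (nat_lit 264) (nat_lit 2) (nat_lit 13) (.e true (nat_lit 3) (nat_lit 270) (nat_lit 2) (nat_lit 13) (.e false (nat_lit 1) (nat_lit 345) (nat_lit 0) (nat_lit 15) (.e true (nat_lit 1) (nat_lit 340) (nat_lit 0) (nat_lit 15) (.u (nat_lit 2) (.n (nat_lit 0) (nat_lit 1) (.n (nat_lit 1) (nat_lit 2) (.p (nat_lit 2) (nat_lit 1) (.n (nat_lit 3)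 (nat_lit 1) (.p (nat_lit 4) (nat_lit 6) (.p (nat_lit 5) (nat_lit 1) (.n (nat_lit 6) (nat_lit 3) (.n (nat_lit 7) (nat_lit 3) (.n (nat_lit 8) (nat_lit 1) (.n (nat_lit 9) (nat_lit 5) (.p (nat_lit 10) (nat_lit 2) (.n (nat_lit 12) (nat_lit 1) (.n (nat_lit 13) (nat_lit 4) (.p (nat_lit 15) (nat_lit 2) (.p (nat_lit 16) (nat_lit 4) (.p (nat_lit 18) (nat_lit 2) (.n (nat_lit 19) (nat_lit 3) (.p (nat_lit 21) (nat_lit 1) (.n (nat_lit 23) (nat_lit 1) (.p (nat_lit 24) (nat_lit 1) (.n (nat_lit 25) (nat_lit 1) (.n (nat_lit 27) (nat_lit 1) (.n (nat_lit 30) (nat_lit 4) (.p (nat_lit 33) (nat_lit 2) (.p (nat_lit 38) (nat_lit 1) (.p (nat_lit 67) (nat_lit 1) (.p (nat_lit 69) (nat_lit 1) (.n (nat_lit 70) (nat_lit 1) (.p (nat_lit 71) (nat_lit 1) (.n (nat_lit 73) (nat_lit 1) (.n (nat_lit 74) (nat_lit 1) (.p (nat_lit 75) (nat_lit 1) (.n (nat_lit 127) (nat_lit 1) (.n (nat_lit 129) (nat_lit 1) (.p (nat_lit 130) (nat_lit 1) (.n (nat_lit 131)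 (nat_lit 1) (.p (nat_lit 134) (nat_lit 1) (.n (nat_lit 135) (nat_lit 1) (.n (nat_lit 165) (nat_lit 1) (.n (nat_lit 173) (nat_lit 3) (.p (nat_lit 174) (nat_lit 1) (.n (nat_lit 175) (nat_lit 4) (.p (nat_lit 177) (nat_lit 1) (.n (nat_lit 178) (nat_lit 7) (.p (nat_lit 179) (nat_lit 2) (.p (nat_lit 180) (nat_lit 2) (.n (nat_lit 181) (nat_lit 4) (.n (nat_lit 182) (nat_lit 7) (.n (nat_lit 183) (nat_lit 2) (.p (nat_lit 184) (nat_lit 4) (.n (nat_lit 185) (nat_lit 4) (.n (nat_lit 186) (nat_lit 4) (.n (nat_lit 187) (nat_lit 6) (.p (nat_lit 189) (nat_lit 2) (.p (nat_lit 190) (nat_lit 7) (.p (nat_lit 191) (nat_lit 1) (.n (nat_lit 192) (nat_lit 1) (.n (nat_lit 193) (nat_lit 9) (.p (nat_lit 199) (nat_lit 2) (.n (nat_lit 200) (nat_lit 2) .z)))))))))))))))))))))))))))))))))))))))))))))))))))))))))))) (.u (nat_lit 2) (.n (nat_lit 201) (nat_lit 3) (.p (nat_lit 223) (nat_lit 1) (.n (nat_lit 228) (nat_lit 1) .z))) .nil)))))))))))))))))))))))))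

noncomputable def dC1d_i377 : IL := (.s true (nat_lit 3) (nat_lit 11) (nat_lit 6) (nat_lit 4) (nat_lit 2) true (nat_lit 3) true (nat_lit 13) true (nat_lit 6) true (nat_lit 9) true (nat_lit 11) (.s false (nat_lit 3) (nat_lit 15) (nat_lit 2) (nat_lit 2) (nat_lit 11) true (nat_lit 0) true (nat_lit 6) true (nat_lit 5) true (nat_lit 13) true (nat_lit 13) (.s false (nat_lit 3) (nat_lit 15) (nat_lit 11) (nat_lit 2) (nat_lit 2) true (nat_lit 0) true (nat_lit 13) true (nat_lit 5) true (nat_lit 6) true (nat_lit 13) (.s true (nat_lit 3) (nat_lit 18) (nat_lit 2) (nat_lit 11) (nat_lit 0) true (nat_lit 11) true (nat_lit 15) true (nat_lit 3) true (nat_lit 13) true (nat_lit 6) (.s true (nat_lit 3) (nat_lit 21) (nat_lit 2) (nat_lit 2) (nat_lit 6) true (nat_lit 3) true (nat_lit 9) true (nat_lit 2) true (nat_lit 13) true (nat_lit 13) (.s true (nat_lit 1) (nat_lit 22) (nat_lit 2) (nat_lit 2) (nat_lit 6) true (nat_lit 3) true (nat_lit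 9) true (nat_lit 2) true (nat_lit 13) true (nat_lit 13) (.s false (nat_lit 3) (nat_lit 23) (nat_lit 2) (nat_lit 2) (nat_lit 6) true (nat_lit 3) true (nat_lit 9) true (nat_lit 2) true (nat_lit 13) true (nat_lit 13) (.s true (nat_lit 3) (nat_lit 32) (nat_lit 0) (nat_lit 2) (nat_lit 6) true (nat_lit 5) true (nat_lit 9) true (nat_lit 0) true (nat_lit 15) true (nat_lit 13) (.s true (nat_lit 3) (nat_lit 32) (nat_lit 2) (nat_lit 0) (nat_lit 6) true (nat_lit 3) true (nat_lit 9) true (nat_lit 0) true (nat_lit 13) true (nat_lit 15) (.s true (nat_lit 1) (nat_lit 32) (nat_lit 2) (nat_lit 2) (nat_lit 4) true (nat_lit 5) true (nat_lit 11) true (nat_lit 0) true (nat_lit 13) true (nat_lit 13) (.s false (nat_lit 1) (nat_lit 32) (nat_lit 2) (nat_lit 6) (nat_lit 0) true (nat_lit 11) true (nat_lit 15) true (nat_lit 0) true (nat_lit 13) true (nat_lit 9) (.s false (nat_lit 2) (nat_lit 59) (nat_lit 2) (nat_lit 2) (nat_lit 2) true (nat_lit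 9) true (nat_lit 13) false (nat_lit 3) true (nat_lit 13) true (nat_lit 13) (.s true (nat_lit 2) (nat_lit 60) (nat_lit 2) (nat_lit 2) (nat_lit 2) true (nat_lit 9) true (nat_lit 13) false (nat_lit 3) true (nat_lit 13) true (nat_lit 13) (.s false (nat_lit 2) (nat_lit 61) (nat_lit 2) (nat_lit 2) (nat_lit 2) true (nat_lit 9) true (nat_lit 13) false (nat_lit 3) true (nat_lit 13) true (nat_lit 13) (.s false (nat_lit 3) (nat_lit 62) (nat_lit 2) (nat_lit 2) (nat_lit 2) true (nat_lit 9) true (nat_lit 13) false (nat_lit 3) true (nat_lit 13) true (nat_lit 13) (.s false (nat_lit 1) (nat_lit 63) (nat_lit 2) (nat_lit 2) (nat_lit 2) true (nat_lit 9) true (nat_lit 13) false (nat_lit 3) true (nat_lit 13) true (nat_lit 13) (.s true (nat_lit 2) (nat_lit 64) (nat_lit 2) (nat_lit 2) (nat_lit 2) true (nat_lit 9) true (nat_lit 13) false (nat_lit 3) true (nat_lit 13) true (nat_lit 13) (.s false (nat_lit 1) (nat_lit 83) (nat_lit 0) (nat_lit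 2) (nat_lit 2) true (nat_lit 11) true (nat_lit 13) false (nat_lit 5) true (nat_lit 15) true (nat_lit 13) (.s true (nat_lit 3) (nat_lit 91) (nat_lit 2) (nat_lit 2) (nat_lit 0) true (nat_lit 11) true (nat_lit 15) false (nat_lit 5) true (nat_lit 13) true (nat_lit 13) (.e false (nat_lit 3) (nat_lit 55) (nat_lit 18) (nat_lit 3) (.e true (nat_lit 1) (nat_lit 65) (nat_lit 18) (nat_lit 3) (.e false (nat_lit 3) (nat_lit 260) (nat_lit 2) (nat_lit 13) (.e true (nat_lit 2) (nat_lit 261) (nat_lit 2) (nat_lit 13) (.e false (nat_lit 1) (nat_lit 262) (nat_lit 2) (nat_lit 13) (.e false (nat_lit 2) (nat_lit 263) (nat_lit 2) (nat_lit 13) dC1d_i376)))))))))))))))))))))))))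

noncomputable def dC1d_i378 : IL := (.e false (nat_lit 3) (nat_lit 326) (nat_lit 1) (nat_lit 14) (.e false (nat_lit 3) (nat_lit 327) (nat_lit 1) (nat_lit 14) (.e false (nat_lit 3) (nat_lit 281) (nat_lit 2) (nat_lit 13) (.e false (nat_lit 3) (nat_lit 260) (nat_lit 2) (nat_lit 13) (.e false (nat_lit 1) (nat_lit 262) (nat_lit 2) (nat_lit 13) (.e true (nat_lit 1) (nat_lit 263) (nat_lit 2) (nat_lit 13) (.e false (nat_lit 3) (nat_lit 264) (nat_lit 2) (nat_lit 13) (.e true (nat_lit 2) (nat_lit 266) (nat_lit 2) (nat_lit 13) (.e false (nat_lit 3) (nat_lit 271) (nat_lit 2) (nat_lit 13) (.e false (nat_lit 1) (nat_lit 272) (nat_lit 2) (nat_lit 13) (.e false (nat_lit 3) (nat_lit 273) (nat_lit 2) (nat_lit 13) (.e false (nat_lit 3) (nat_lit 277) (nat_lit 2) (nat_lit 13) (.e false (nat_lit 2) (nat_lit 278) (nat_lit 2) (nat_lit 13) (.e false (nat_lit 1) (nat_lit 280) (nat_lit 2) (nat_lit 13) (.e true (nat_lit 2) (nat_lit 286) (nat_lit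 2) (nat_lit 13) (.e true (nat_lit 3) (nat_lit 289) (nat_lit 2) (nat_lit 13) (.e false (nat_lit 1) (nat_lit 267) (nat_lit 2) (nat_lit 13) (.e true (nat_lit 3) (nat_lit 268) (nat_lit 2) (nat_lit 13) (.e true (nat_lit 3) (nat_lit 269) (nat_lit 2) (nat_lit 13) (.e true (nat_lit 3) (nat_lit 279) (nat_lit 2) (nat_lit 13) (.e false (nat_lit 3) (nat_lit 261) (nat_lit 2) (nat_lit 13) (.e false (nat_lit 1) (nat_lit 265) (nat_lit 2) (nat_lit 13) (.e true (nat_lit 1) (nat_lit 270) (nat_lit 2) (nat_lit 13) (.e false (nat_lit 2) (nat_lit 287) (nat_lit 2) (nat_lit 13) (.u (nat_lit 2) (.n (nat_lit 0) (nat_lit 4) (.n (nat_lit 1) (nat_lit 1) (.p (nat_lit 2) (nat_lit 3) (.n (nat_lit 3) (nat_lit 1) (.p (nat_lit 6) (nat_lit 1) (.p (nat_lit 7) (nat_lit 1) (.p (nat_lit 8) (nat_lit 1) (.n (nat_lit 9) (nat_lit 1) (.n (nat_lit 10) (nat_lit 7) (.n (nat_lit 12) (nat_lit 2) (.n (nat_lit 13) (nat_lit 1) (.p (nat_lit 14) (nat_lit 1) (.n (nat_lit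 15) (nat_lit 2) (.p (nat_lit 16) (nat_lit 3) (.p (nat_lit 18) (nat_lit 2) (.p (nat_lit 19) (nat_lit 3) (.n (nat_lit 22) (nat_lit 1) (.n (nat_lit 23) (nat_lit 1) (.p (nat_lit 25) (nat_lit 1) (.p (nat_lit 26) (nat_lit 1) (.p (nat_lit 27) (nat_lit 1) (.p (nat_lit 28) (nat_lit 1) (.n (nat_lit 29) (nat_lit 1) (.n (nat_lit 30) (nat_lit 4) (.n (nat_lit 174) (nat_lit 3) (.n (nat_lit 175) (nat_lit 7) (.n (nat_lit 176) (nat_lit 2) (.p (nat_lit 177) (nat_lit 6) (.n (nat_lit 178) (nat_lit 1) (.p (nat_lit 179) (nat_lit 8) (.p (nat_lit 180) (nat_lit 2) (.p (nat_lit 183) (nat_lit 1) (.n (nat_lit 184) (nat_lit 3) (.n (nat_lit 185) (nat_lit 1) (.n (nat_lit 191) (nat_lit 2) (.p (nat_lit 192) (nat_lit 3) (.p (nat_lit 193) (nat_lit 2) (.n (nat_lit 194) (nat_lit 3) (.n (nat_lit 195) (nat_lit 2) (.p (nat_lit 199) (nat_lit 2) (.p (nat_lit 200) (nat_lit 4) (.p (nat_lit 201) (nat_lit 3) (.n (nat_lit 203) (nat_lit 1) (.p (nat_lit 206) (nat_lit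 1) (.n (nat_lit 211) (nat_lit 3) (.p (nat_lit 214) (nat_lit 1) (.p (nat_lit 215) (nat_lit 2) (.n (nat_lit 216) (nat_lit 3) (.p (nat_lit 219) (nat_lit 2) (.p (nat_lit 221) (nat_lit 2) (.n (nat_lit 222) (nat_lit 1) (.n (nat_lit 223) (nat_lit 1) .z)))))))))))))))))))))))))))))))))))))))))))))))))))) .nil)))))))))))))))))))))))))

noncomputable def dC1d_i379 : IL := (.e false (nat_lit 2) (nat_lit 142) (nat_lit 6) (nat_lit 9) (.e true (nat_lit 2) (nat_lit 275) (nat_lit 2) (nat_lit 13) (.e false (nat_lit 3) (nat_lit 149) (nat_lit 6) (nat_lit 9) (.e true (nat_lit 1) (nat_lit 320) (nat_lit 1) (nat_lit 14) (.e false (nat_lit 3) (nat_lit 322) (nat_lit 1) (nat_lit 14) (.e false (nat_lit 2) (nat_lit 323) (nat_lit 1) (nat_lit 14) (.e false (nat_lit 3) (nat_lit 327) (nat_lit 1) (nat_lit 14) (.e true (nat_lit 3) (nat_lit 328) (nat_lit 0) (nat_lit 15) (.e false (nat_lit 3) (nat_lit 330) (nat_lit 0) (nat_lit 15) (.e false (nat_lit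 1) (nat_lit 332) (nat_lit 0) (nat_lit 15) (.e true (nat_lit 2) (nat_lit 333) (nat_lit 0) (nat_lit 15) (.e false (nat_lit 3) (nat_lit 334) (nat_lit 0) (nat_lit 15) (.e false (nat_lit 3) (nat_lit 335) (nat_lit 0) (nat_lit 15) (.e true (nat_lit 1) (nat_lit 337) (nat_lit 0) (nat_lit 15) (.e true (nat_lit 3) (nat_lit 338) (nat_lit 0) (nat_lit 15) (.e false (nat_lit 1) (nat_lit 340) (nat_lit 0) (nat_lit 15) (.e true (nat_lit 3) (nat_lit 341) (nat_lit 0) (nat_lit 15) (.e true (nat_lit 3) (nat_lit 331) (nat_lit 0) (nat_lit 15) (.e true (nat_lit 2) (nat_lit 336) (nat_lit 0) (nat_lit 15) (.e true (nat_lit 3) (nat_lit 329) (nat_lit 0) (nat_lit 15) (.e true (nat_lit 1) (nat_lit 324) (nat_lit 1) (nat_lit 14) (.e false (nat_lit 1) (nat_lit 345) (nat_lit 0) (nat_lit 15) (.e false (nat_lit 1) (nat_lit 342) (nat_lit 0) (nat_lit 15) (.u (nat_lit 2) (.n (nat_lit 1) (nat_lit 1) (.p (nat_lit 2) (nat_lit 1) (.n (nat_lit 5) (nat_lit 1)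 (.n (nat_lit 8) (nat_lit 1) (.n (nat_lit 10) (nat_lit 1) (.p (nat_lit 30) (nat_lit 1) (.n (nat_lit 38) (nat_lit 1) (.n (nat_lit 39) (nat_lit 1) (.p (nat_lit 49) (nat_lit 1) (.n (nat_lit 51) (nat_lit 1) (.p (nat_lit 56) (nat_lit 1) (.p (nat_lit 57) (nat_lit 1) (.n (nat_lit 65) (nat_lit 1) (.n (nat_lit 69) (nat_lit 2) (.p (nat_lit 70) (nat_lit 1) (.p (nat_lit 71) (nat_lit 1) (.p (nat_lit 73) (nat_lit 1) (.p (nat_lit 74) (nat_lit 2) (.p (nat_lit 75) (nat_lit 1) (.p (nat_lit 76) (nat_lit 1) (.n (nat_lit 87) (nat_lit 1) (.p (nat_lit 97) (nat_lit 1) (.p (nat_lit 98) (nat_lit 3) (.n (nat_lit 99) (nat_lit 2) (.p (nat_lit 100) (nat_lit 1) (.n (nat_lit 102) (nat_lit 1) (.n (nat_lit 105) (nat_lit 1) (.n (nat_lit 106) (nat_lit 1) (.n (nat_lit 109) (nat_lit 1) (.p (nat_lit 111) (nat_lit 1) (.n (nat_lit 126) (nat_lit 2) (.n (nat_lit 127) (nat_lit 4) (.n (nat_lit 128) (nat_lit 3) (.p (nat_lit 129) (nat_lit 4) (.n (nat_lit 130)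 (nat_lit 3) (.p (nat_lit 131) (nat_lit 4) (.n (nat_lit 132) (nat_lit 2) (.n (nat_lit 133) (nat_lit 1) (.n (nat_lit 134) (nat_lit 2) (.p (nat_lit 135) (nat_lit 5) (.p (nat_lit 137) (nat_lit 2) (.p (nat_lit 138) (nat_lit 1) (.n (nat_lit 141) (nat_lit 1) (.p (nat_lit 142) (nat_lit 1) (.p (nat_lit 144) (nat_lit 1) (.p (nat_lit 146) (nat_lit 1) (.p (nat_lit 148) (nat_lit 1) (.p (nat_lit 149) (nat_lit 3) (.n (nat_lit 153) (nat_lit 1) (.p (nat_lit 157) (nat_lit 1) (.n (nat_lit 160) (nat_lit 1) (.p (nat_lit 161) (nat_lit 1) (.p (nat_lit 165) (nat_lit 1) (.p (nat_lit 172) (nat_lit 2) (.p (nat_lit 173) (nat_lit 6) (.n (nat_lit 174) (nat_lit 4) (.n (nat_lit 175) (nat_lit 13) (.p (nat_lit 176) (nat_lit 16) (.n (nat_lit 177) (nat_lit 16) (.p (nat_lit 178) (nat_lit 7) .z)))))))))))))))))))))))))))))))))))))))))))))))))))))))))))) (.u (nat_lit 2) (.p (nat_lit 179) (nat_lit 8) (.p (nat_lit 180) (nat_lit 10) (.n (nat_lit 181) (nat_lit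 4) (.n (nat_lit 182) (nat_lit 3) (.p (nat_lit 183) (nat_lit 3) (.n (nat_lit 184) (nat_lit 9) (.n (nat_lit 185) (nat_lit 14) (.p (nat_lit 186) (nat_lit 13) (.p (nat_lit 187) (nat_lit 5) (.p (nat_lit 188) (nat_lit 5) (.p (nat_lit 190) (nat_lit 6) (.n (nat_lit 191) (nat_lit 1) (.n (nat_lit 192) (nat_lit 1) (.n (nat_lit 193) (nat_lit 6) (.n (nat_lit 194) (nat_lit 1) (.n (nat_lit 195) (nat_lit 3) (.n (nat_lit 196) (nat_lit 1) (.p (nat_lit 197) (nat_lit 7) (.n (nat_lit 198) (nat_lit 4) (.p (nat_lit 199) (nat_lit 7) (.p (nat_lit 200) (nat_lit 5) (.n (nat_lit 201) (nat_lit 6) (.p (nat_lit 202) (nat_lit 3) (.n (nat_lit 203) (nat_lit 5) (.n (nat_lit 207) (nat_lit 1) (.n (nat_lit 208) (nat_lit 1) (.p (nat_lit 209) (nat_lit 1) (.n (nat_lit 210) (nat_lit 3) (.n (nat_lit 211) (nat_lit 4) (.p (nat_lit 212) (nat_lit 1) (.p (nat_lit 214) (nat_lit 1) (.p (nat_lit 215) (nat_lit 1) (.n (nat_lit 216) (nat_lit 5) (.n (nat_lit 218) (nat_lit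 2) (.p (nat_lit 219) (nat_lit 9) (.n (nat_lit 220) (nat_lit 3) (.p (nat_lit 221) (nat_lit 1) (.n (nat_lit 222) (nat_lit 2) (.n (nat_lit 223) (nat_lit 5) (.p (nat_lit 224) (nat_lit 2) (.n (nat_lit 226) (nat_lit 1) (.n (nat_lit 227) (nat_lit 1) (.n (nat_lit 228) (nat_lit 1) (.n (nat_lit 229) (nat_lit 2) .z)))))))))))))))))))))))))))))))))))))))))))) .nil)))))))))))))))))))))))))

noncomputable def dC1d_i380 : IL := (.s false (nat_lit 3) (nat_lit 91) (nat_lit 0) (nat_lit 2) (nat_lit 2) true (nat_lit 11) true (nat_lit 13) false (nat_lit 5) true (nat_lit 15) true (nat_lit 13) (.s false (nat_lit 3) (nat_lit 83) (nat_lit 2) (nat_lit 0) (nat_lit 2) true (nat_lit 9) true (nat_lit 13) false (nat_lit 5) true (nat_lit 13) true (nat_lit 15) (.s true (nat_lit 3) (nat_lit 84) (nat_lit 2) (nat_lit 2) (nat_lit 0) true (nat_lit 11) true (nat_lit 15) false (nat_lit 5) true (nat_lit 13) true (nat_lit 13) (.s false (nat_lit 3) (nat_lit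 85) (nat_lit 2) (nat_lit 2) (nat_lit 0) true (nat_lit 11) true (nat_lit 15) false (nat_lit 5) true (nat_lit 13) true (nat_lit 13) (.s true (nat_lit 3) (nat_lit 86) (nat_lit 2) (nat_lit 2) (nat_lit 0) true (nat_lit 11) true (nat_lit 15) false (nat_lit 5) true (nat_lit 13) true (nat_lit 13) (.s false (nat_lit 3) (nat_lit 87) (nat_lit 2) (nat_lit 2) (nat_lit 0) true (nat_lit 11) true (nat_lit 15) false (nat_lit 5) true (nat_lit 13) true (nat_lit 13) (.s true (nat_lit 3) (nat_lit 89) (nat_lit 2) (nat_lit 2) (nat_lit 0) true (nat_lit 11) true (nat_lit 15) false (nat_lit 5) true (nat_lit 13) true (nat_lit 13) (.s true (nat_lit 3) (nat_lit 90) (nat_lit 2) (nat_lit 2) (nat_lit 0) true (nat_lit 11) true (nat_lit 15) false (nat_lit 5) true (nat_lit 13) true (nat_lit 13) (.s false (nat_lit 3) (nat_lit 92) (nat_lit 2) (nat_lit 2) (nat_lit 0) true (nat_lit 11) true (nat_lit 15) false (nat_lit 5) true (nat_lit 13) true (nat_lit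 13) (.s false (nat_lit 2) (nat_lit 99) (nat_lit 0) (nat_lit 2) (nat_lit 1) true (nat_lit 12) true (nat_lit 14) false (nat_lit 6) true (nat_lit 15) true (nat_lit 13) (.s true (nat_lit 3) (nat_lit 101) (nat_lit 0) (nat_lit 2) (nat_lit 1) true (nat_lit 12) true (nat_lit 14) false (nat_lit 6) true (nat_lit 15) true (nat_lit 13) (.s false (nat_lit 1) (nat_lit 100) (nat_lit 1) (nat_lit 0) (nat_lit 2) true (nat_lit 10) true (nat_lit 13) false (nat_lit 6) true (nat_lit 14) true (nat_lit 15) (.s false (nat_lit 1) (nat_lit 99) (nat_lit 1) (nat_lit 2) (nat_lit 0) true (nat_lit 12) true (nat_lit 15) false (nat_lit 6) true (nat_lit 14) true (nat_lit 13) (.s true (nat_lit 1) (nat_lit 100) (nat_lit 1) (nat_lit 2) (nat_lit 0) true (nat_lit 12) true (nat_lit 15) false (nat_lit 6) true (nat_lit 14) true (nat_lit 13) (.s false (nat_lit 3) (nat_lit 98) (nat_lit 2) (nat_lit 0) (nat_lit 1) true (nat_lit 10) true (nat_lit 14) false (nat_lit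 6) true (nat_lit 13) true (nat_lit 15) (.s false (nat_lit 1) (nat_lit 99) (nat_lit 2) (nat_lit 0) (nat_lit 1) true (nat_lit 10) true (nat_lit 14) false (nat_lit 6) true (nat_lit 13) true (nat_lit 15) (.s false (nat_lit 2) (nat_lit 100) (nat_lit 2) (nat_lit 0) (nat_lit 1) true (nat_lit 10) true (nat_lit 14) false (nat_lit 6) true (nat_lit 13) true (nat_lit 15) (.s false (nat_lit 3) (nat_lit 101) (nat_lit 2) (nat_lit 0) (nat_lit 1) true (nat_lit 10) true (nat_lit 14) false (nat_lit 6) true (nat_lit 13) true (nat_lit 15) (.s true (nat_lit 3) (nat_lit 98) (nat_lit 2) (nat_lit 1) (nat_lit 0) true (nat_lit 11) true (nat_lit 15) false (nat_lit 6) true (nat_lit 13) true (nat_lit 14) (.s false (nat_lit 1) (nat_lit 103) (nat_lit 0) (nat_lit 2) (nat_lit 0) false (nat_lit 16) true (nat_lit 15) false (nat_lit 7) true (nat_lit 15) true (nat_lit 13) (.s false (nat_lit 2) (nat_lit 106) (nat_lit 0) (nat_lit 0) (nat_lit 1) true (nat_lit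 12) true (nat_lit 14) false (nat_lit 8) true (nat_lit 15) true (nat_lit 15) (.s true (nat_lit 2) (nat_lit 106) (nat_lit 0) (nat_lit 1) (nat_lit 0) false (nat_lit 16) true (nat_lit 15) false (nat_lit 8) true (nat_lit 15) true (nat_lit 14) (.e true (nat_lit 1) (nat_lit 65) (nat_lit 18) (nat_lit 3) (.e false (nat_lit 1) (nat_lit 262) (nat_lit 2) (nat_lit 13) (.e false (nat_lit 2) (nat_lit 267) (nat_lit 2) (nat_lit 13) dC1d_i379)))))))))))))))))))))))))

noncomputable def dC1d_i381 : IL := (.s true (nat_lit 1) (nat_lit 44) (nat_lit 2) (nat_lit 4) (nat_lit 0) true (nat_lit 11) true (nat_lit 15) false (nat_lit 1) true (nat_lit 13) true (nat_lit 11) (.s false (nat_lit 1) (nat_lit 45) (nat_lit 6) (nat_lit 0) (nat_lit 0) true (nat_lit 5) true (nat_lit 15) false (nat_lit 1) true (nat_lit 9) true (nat_lit 15) (.s true (nat_lit 1) (nat_lit 46) (nat_lit 0) (nat_lit 0) (nat_lit 5) true (nat_lit 6) true (nat_lit 10) false (nat_lit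 2) true (nat_lit 15) true (nat_lit 15) (.s true (nat_lit 2) (nat_lit 46) (nat_lit 2) (nat_lit 3) (nat_lit 0) true (nat_lit 11) true (nat_lit 15) false (nat_lit 2) true (nat_lit 13) true (nat_lit 12) (.s false (nat_lit 3) (nat_lit 46) (nat_lit 4) (nat_lit 0) (nat_lit 1) true (nat_lit 6) true (nat_lit 14) false (nat_lit 2) true (nat_lit 11) true (nat_lit 15) (.s true (nat_lit 1) (nat_lit 46) (nat_lit 5) (nat_lit 0) (nat_lit 0) true (nat_lit 6) true (nat_lit 15) false (nat_lit 2) true (nat_lit 10) true (nat_lit 15) (.s true (nat_lit 2) (nat_lit 59) (nat_lit 2) (nat_lit 2) (nat_lit 2) true (nat_lit 9) true (nat_lit 13) false (nat_lit 3) true (nat_lit 13) true (nat_lit 13) (.s true (nat_lit 3) (nat_lit 60) (nat_lit 2) (nat_lit 2) (nat_lit 2) true (nat_lit 9) true (nat_lit 13) false (nat_lit 3) true (nat_lit 13) true (nat_lit 13) (.s true (nat_lit 2) (nat_lit 61) (nat_lit 2) (nat_lit 2) (nat_lit 2) true (nat_lit 9) true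 (nat_lit 13) false (nat_lit 3) true (nat_lit 13) true (nat_lit 13) (.s true (nat_lit 1) (nat_lit 62) (nat_lit 2) (nat_lit 2) (nat_lit 2) true (nat_lit 9) true (nat_lit 13) false (nat_lit 3) true (nat_lit 13) true (nat_lit 13) (.s true (nat_lit 2) (nat_lit 63) (nat_lit 2) (nat_lit 2) (nat_lit 2) true (nat_lit 9) true (nat_lit 13) false (nat_lit 3) true (nat_lit 13) true (nat_lit 13) (.s false (nat_lit 1) (nat_lit 77) (nat_lit 1) (nat_lit 2) (nat_lit 2) true (nat_lit 10) true (nat_lit 13) false (nat_lit 4) true (nat_lit 14) true (nat_lit 13) (.s false (nat_lit 1) (nat_lit 78) (nat_lit 1) (nat_lit 2) (nat_lit 2) true (nat_lit 10) true (nat_lit 13) false (nat_lit 4) true (nat_lit 14) true (nat_lit 13) (.s true (nat_lit 1) (nat_lit 81) (nat_lit 1) (nat_lit 2) (nat_lit 2) true (nat_lit 10) true (nat_lit 13) false (nat_lit 4) true (nat_lit 14) true (nat_lit 13) (.s true (nat_lit 2) (nat_lit 77) (nat_lit 2) (nat_lit 1)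 (nat_lit 2) true (nat_lit 9) true (nat_lit 13) false (nat_lit 4) true (nat_lit 13) true (nat_lit 14) (.s false (nat_lit 1) (nat_lit 78) (nat_lit 2) (nat_lit 1) (nat_lit 2) true (nat_lit 9) true (nat_lit 13) false (nat_lit 4) true (nat_lit 13) true (nat_lit 14) (.s true (nat_lit 3) (nat_lit 79) (nat_lit 2) (nat_lit 1) (nat_lit 2) true (nat_lit 9) true (nat_lit 13) false (nat_lit 4) true (nat_lit 13) true (nat_lit 14) (.s true (nat_lit 2) (nat_lit 80) (nat_lit 2) (nat_lit 1) (nat_lit 2) true (nat_lit 9) true (nat_lit 13) false (nat_lit 4) true (nat_lit 13) true (nat_lit 14) (.s false (nat_lit 3) (nat_lit 79) (nat_lit 2) (nat_lit 2) (nat_lit 1) true (nat_lit 10) true (nat_lit 14) false (nat_lit 4) true (nat_lit 13) true (nat_lit 13) (.s false (nat_lit 1) (nat_lit 82) (nat_lit 0) (nat_lit 2) (nat_lit 2) true (nat_lit 11) true (nat_lit 13) false (nat_lit 5) true (nat_lit 15) true (nat_lit 13) (.s true (nat_lit 3) (nat_lit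 83) (nat_lit 0) (nat_lit 2) (nat_lit 2) true (nat_lit 11) true (nat_lit 13) false (nat_lit 5) true (nat_lit 15) true (nat_lit 13) (.s true (nat_lit 3) (nat_lit 84) (nat_lit 0) (nat_lit 2) (nat_lit 2) true (nat_lit 11) true (nat_lit 13) false (nat_lit 5) true (nat_lit 15) true (nat_lit 13) (.s false (nat_lit 3) (nat_lit 85) (nat_lit 0) (nat_lit 2) (nat_lit 2) true (nat_lit 11) true (nat_lit 13) false (nat_lit 5) true (nat_lit 15) true (nat_lit 13) (.s true (nat_lit 3) (nat_lit 87) (nat_lit 0) (nat_lit 2) (nat_lit 2) true (nat_lit 11) true (nat_lit 13) false (nat_lit 5) true (nat_lit 15) true (nat_lit 13) (.s true (nat_lit 3) (nat_lit 90) (nat_lit 0) (nat_lit 2) (nat_lit 2) true (nat_lit 11) true (nat_lit 13) false (nat_lit 5) true (nat_lit 15) true (nat_lit 13) dC1d_i380)))))))))))))))))))))))))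

noncomputable def dC1d_i382 : IL := (.s false (nat_lit 1) (nat_lit 28) (nat_lit 5) (nat_lit 2) (nat_lit 2) true (nat_lit 4) true (nat_lit 13) true (nat_lit 1) true (nat_lit 10) true (nat_lit 13) (.s true (nat_lit 3) (nat_lit 30) (nat_lit 6) (nat_lit 2) (nat_lit 1) true (nat_lit 4) true (nat_lit 14) true (nat_lit 1) true (nat_lit 9) true (nat_lit 13) (.s true (nat_lit 3) (nat_lit 31) (nat_lit 0) (nat_lit 2) (nat_lit 6) true (nat_lit 5) true (nat_lit 9) true (nat_lit 0) true (nat_lit 15) true (nat_lit 13) (.s false (nat_lit 3) (nat_lit 32) (nat_lit 0) (nat_lit 2) (nat_lit 6) true (nat_lit 5) true (nat_lit 9) true (nat_lit 0) true (nat_lit 15) true (nat_lit 13) (.s true (nat_lit 3) (nat_lit 33) (nat_lit 0) (nat_lit 2) (nat_lit 6) true (nat_lit 5) true (nat_lit 9) true (nat_lit 0) true (nat_lit 15) true (nat_lit 13) (.s true (nat_lit 3) (nat_lit 31) (nat_lit 0) (nat_lit 6) (nat_lit 2) true (nat_lit 11) true (nat_lit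 13) true (nat_lit 0) true (nat_lit 15) true (nat_lit 9) (.s false (nat_lit 2) (nat_lit 32) (nat_lit 0) (nat_lit 6) (nat_lit 2) true (nat_lit 11) true (nat_lit 13) true (nat_lit 0) true (nat_lit 15) true (nat_lit 9) (.s false (nat_lit 3) (nat_lit 32) (nat_lit 2) (nat_lit 0) (nat_lit 6) true (nat_lit 3) true (nat_lit 9) true (nat_lit 0) true (nat_lit 13) true (nat_lit 15) (.s false (nat_lit 1) (nat_lit 31) (nat_lit 2) (nat_lit 2) (nat_lit 4) true (nat_lit 5) true (nat_lit 11) true (nat_lit 0) true (nat_lit 13) true (nat_lit 13) (.s false (nat_lit 3) (nat_lit 32) (nat_lit 2) (nat_lit 2) (nat_lit 4) true (nat_lit 5) true (nat_lit 11) true (nat_lit 0) true (nat_lit 13) true (nat_lit 13) (.s false (nat_lit 3) (nat_lit 33) (nat_lit 2) (nat_lit 2) (nat_lit 4) true (nat_lit 5) true (nat_lit 11) true (nat_lit 0) true (nat_lit 13) true (nat_lit 13) (.s false (nat_lit 3) (nat_lit 36) (nat_lit 2) (nat_lit 2) (nat_lit 4) true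 (nat_lit 5) true (nat_lit 11) true (nat_lit 0) true (nat_lit 13) true (nat_lit 13) (.s true (nat_lit 2) (nat_lit 31) (nat_lit 4) (nat_lit 2) (nat_lit 2) true (nat_lit 5) true (nat_lit 13) true (nat_lit 0) true (nat_lit 11) true (nat_lit 13) (.s true (nat_lit 2) (nat_lit 32) (nat_lit 4) (nat_lit 2) (nat_lit 2) true (nat_lit 5) true (nat_lit 13) true (nat_lit 0) true (nat_lit 11) true (nat_lit 13) (.s true (nat_lit 1) (nat_lit 40) (nat_lit 0) (nat_lit 2) (nat_lit 5) true (nat_lit 6) true (nat_lit 10) false (nat_lit 0) true (nat_lit 15) true (nat_lit 13) (.s false (nat_lit 1) (nat_lit 42) (nat_lit 0) (nat_lit 2) (nat_lit 5) true (nat_lit 6) true (nat_lit 10) false (nat_lit 0) true (nat_lit 15) true (nat_lit 13) (.s false (nat_lit 2) (nat_lit 40) (nat_lit 0) (nat_lit 6) (nat_lit 1) true (nat_lit 12) true (nat_lit 14) false (nat_lit 0) true (nat_lit 15) true (nat_lit 9) (.s true (nat_lit 3) (nat_lit 40) (nat_lit 1) (nat_lit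 4) (nat_lit 2) true (nat_lit 10) true (nat_lit 13) false (nat_lit 0) true (nat_lit 14) true (nat_lit 11) (.s false (nat_lit 2) (nat_lit 40) (nat_lit 2) (nat_lit 0) (nat_lit 5) true (nat_lit 4) true (nat_lit 10) false (nat_lit 0) true (nat_lit 13) true (nat_lit 15) (.s true (nat_lit 1) (nat_lit 40) (nat_lit 2) (nat_lit 1) (nat_lit 4) true (nat_lit 5) true (nat_lit 11) false (nat_lit 0) true (nat_lit 13) true (nat_lit 14) (.s true (nat_lit 3) (nat_lit 40) (nat_lit 2) (nat_lit 5) (nat_lit 0) true (nat_lit 11) true (nat_lit 15) false (nat_lit 0) true (nat_lit 13) true (nat_lit 10) (.s true (nat_lit 3) (nat_lit 42) (nat_lit 3) (nat_lit 2) (nat_lit 2) true (nat_lit 6) true (nat_lit 13) false (nat_lit 0) true (nat_lit 12) true (nat_lit 13) (.s true (nat_lit 2) (nat_lit 40) (nat_lit 4) (nat_lit 1) (nat_lit 2) true (nat_lit 5) true (nat_lit 13) false (nat_lit 0) true (nat_lit 11) true (nat_lit 14) (.s true (nat_lit 1) (nat_lit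 41) (nat_lit 5) (nat_lit 0) (nat_lit 2) true (nat_lit 4) true (nat_lit 13) false (nat_lit 0) true (nat_lit 10) true (nat_lit 15) (.s true (nat_lit 2) (nat_lit 40) (nat_lit 5) (nat_lit 2) (nat_lit 0) true (nat_lit 6) true (nat_lit 15) false (nat_lit 0) true (nat_lit 10) true (nat_lit 13) dC1d_i381)))))))))))))))))))))))))

noncomputable def dC1d_i383 : IL := (.s false (nat_lit 1) (nat_lit 18) (nat_lit 2) (nat_lit 0) (nat_lit 10) true (nat_lit 0) true (nat_lit 6) true (nat_lit 3) true (nat_lit 13) true (nat_lit 15) (.s false (nat_lit 1) (nat_lit 18) (nat_lit 2) (nat_lit 3) (nat_lit 4) true (nat_lit 5) true (nat_lit 11) true (nat_lit 3) true (nat_lit 13) true (nat_lit 12) (.s true (nat_lit 2) (nat_lit 18) (nat_lit 2) (nat_lit 4) (nat_lit 3) true (nat_lit 6) true (nat_lit 12) true (nat_lit 3) true (nat_lit 13) true (nat_lit 11) (.s false (nat_lit 2) (nat_lit 18) (nat_lit 2) (nat_lit 7) (nat_lit 2) true (nat_lit 9) true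 (nat_lit 13) true (nat_lit 3) true (nat_lit 13) true (nat_lit 8) (.s true (nat_lit 1) (nat_lit 18) (nat_lit 2) (nat_lit 9) (nat_lit 1) true (nat_lit 10) true (nat_lit 14) true (nat_lit 3) true (nat_lit 13) true (nat_lit 7) (.s true (nat_lit 3) (nat_lit 18) (nat_lit 2) (nat_lit 10) (nat_lit 0) true (nat_lit 11) true (nat_lit 15) true (nat_lit 3) true (nat_lit 13) true (nat_lit 6) (.s true (nat_lit 2) (nat_lit 18) (nat_lit 2) (nat_lit 11) (nat_lit 0) true (nat_lit 11) true (nat_lit 15) true (nat_lit 3) true (nat_lit 13) true (nat_lit 6) (.s true (nat_lit 1) (nat_lit 18) (nat_lit 4) (nat_lit 2) (nat_lit 3) true (nat_lit 2) true (nat_lit 12) true (nat_lit 3) true (nat_lit 11) true (nat_lit 13) (.s false (nat_lit 2) (nat_lit 18) (nat_lit 4) (nat_lit 3) (nat_lit 2) true (nat_lit 5) true (nat_lit 13) true (nat_lit 3) true (nat_lit 11) true (nat_lit 12) (.s true (nat_lit 3) (nat_lit 18) (nat_lit 6) (nat_lit 3) (nat_lit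 0) true (nat_lit 5) true (nat_lit 15) true (nat_lit 3) true (nat_lit 9) true (nat_lit 12) (.s false (nat_lit 1) (nat_lit 18) (nat_lit 11) (nat_lit 0) (nat_lit 2) true (nat_lit 0) true (nat_lit 13) true (nat_lit 3) true (nat_lit 6) true (nat_lit 15) (.s false (nat_lit 1) (nat_lit 18) (nat_lit 15) (nat_lit 0) (nat_lit 1) true (nat_lit 0) true (nat_lit 14) true (nat_lit 3) true (nat_lit 5) true (nat_lit 15) (.s true (nat_lit 3) (nat_lit 18) (nat_lit 14) (nat_lit 1) (nat_lit 0) true (nat_lit 1) true (nat_lit 15) true (nat_lit 3) true (nat_lit 5) true (nat_lit 14) (.s true (nat_lit 1) (nat_lit 18) (nat_lit 15) (nat_lit 1) (nat_lit 0) true (nat_lit 1) true (nat_lit 15) true (nat_lit 3) true (nat_lit 5) true (nat_lit 14) (.s false (nat_lit 2) (nat_lit 20) (nat_lit 2) (nat_lit 2) (nat_lit 6) true (nat_lit 3) true (nat_lit 9) true (nat_lit 2) true (nat_lit 13) true (nat_lit 13) (.s true (nat_lit 3) (nat_lit 21) (nat_lit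 2) (nat_lit 2) (nat_lit 6) true (nat_lit 3) true (nat_lit 9) true (nat_lit 2) true (nat_lit 13) true (nat_lit 13) (.s true (nat_lit 1) (nat_lit 22) (nat_lit 2) (nat_lit 2) (nat_lit 6) true (nat_lit 3) true (nat_lit 9) true (nat_lit 2) true (nat_lit 13) true (nat_lit 13) (.s true (nat_lit 1) (nat_lit 21) (nat_lit 2) (nat_lit 6) (nat_lit 2) true (nat_lit 9) true (nat_lit 13) true (nat_lit 2) true (nat_lit 13) true (nat_lit 9) (.s false (nat_lit 1) (nat_lit 22) (nat_lit 2) (nat_lit 6) (nat_lit 2) true (nat_lit 9) true (nat_lit 13) true (nat_lit 2) true (nat_lit 13) true (nat_lit 9) (.s false (nat_lit 1) (nat_lit 21) (nat_lit 6) (nat_lit 2) (nat_lit 2) true (nat_lit 3) true (nat_lit 13) true (nat_lit 2) true (nat_lit 9) true (nat_lit 13) (.s false (nat_lit 3) (nat_lit 22) (nat_lit 6) (nat_lit 2) (nat_lit 2) true (nat_lit 3) true (nat_lit 13) true (nat_lit 2) true (nat_lit 9) true (nat_lit 13) (.s true (nat_lit 2) (nat_lit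 29) (nat_lit 1) (nat_lit 6) (nat_lit 2) true (nat_lit 10) true (nat_lit 13) true (nat_lit 1) true (nat_lit 14) true (nat_lit 9) (.s false (nat_lit 1) (nat_lit 29) (nat_lit 2) (nat_lit 1) (nat_lit 6) true (nat_lit 3) true (nat_lit 9) true (nat_lit 1) true (nat_lit 13) true (nat_lit 14) (.s true (nat_lit 3) (nat_lit 29) (nat_lit 2) (nat_lit 2) (nat_lit 5) true (nat_lit 4) true (nat_lit 10) true (nat_lit 1) true (nat_lit 13) true (nat_lit 13) (.s true (nat_lit 1) (nat_lit 28) (nat_lit 2) (nat_lit 5) (nat_lit 2) true (nat_lit 9) true (nat_lit 13) true (nat_lit 1) true (nat_lit 13) true (nat_lit 10) dC1d_i382)))))))))))))))))))))))))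

noncomputable def dC1d_i384 : IL := (.e true (nat_lit 2) (nat_lit 344) (nat_lit 0) (nat_lit 15) (.e false (nat_lit 3) (nat_lit 261) (nat_lit 2) (nat_lit 13) (.e false (nat_lit 1) (nat_lit 265) (nat_lit 2) (nat_lit 13) (.e true (nat_lit 3) (nat_lit 266) (nat_lit 2) (nat_lit 13) (.e false (nat_lit 3) (nat_lit 267) (nat_lit 2) (nat_lit 13) (.e false (nat_lit 2) (nat_lit 268) (nat_lit 2) (nat_lit 13) (.e false (nat_lit 2) (nat_lit 269) (nat_lit 2) (nat_lit 13) (.e true (nat_lit 3) (nat_lit 271) (nat_lit 2) (nat_lit 13) (.e false (nat_lit 1) (nat_lit 272) (nat_lit 2) (nat_lit 13) (.e true (nat_lit 3) (nat_lit 273) (nat_lit 2) (nat_lit 13) (.e false (nat_lit 2) (nat_lit 277) (nat_lit 2) (nat_lit 13) (.e false (nat_lit 3) (nat_lit 278) (nat_lit 2) (nat_lit 13) (.e true (nat_lit 1) (nat_lit 280) (nat_lit 2) (nat_lit 13) (.e false (nat_lit 1) (nat_lit 283) (nat_lit 2) (nat_lit 13) (.e false (nat_lit 1) (nat_lit 286) (nat_lit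 2) (nat_lit 13) (.e false (nat_lit 3) (nat_lit 270) (nat_lit 2) (nat_lit 13) (.e true (nat_lit 3) (nat_lit 282) (nat_lit 2) (nat_lit 13) (.e true (nat_lit 3) (nat_lit 288) (nat_lit 2) (nat_lit 13) (.e false (nat_lit 1) (nat_lit 289) (nat_lit 2) (nat_lit 13) (.e true (nat_lit 1) (nat_lit 281) (nat_lit 2) (nat_lit 13) (.e true (nat_lit 3) (nat_lit 279) (nat_lit 2) (nat_lit 13) (.e false (nat_lit 3) (nat_lit 274) (nat_lit 2) (nat_lit 13) (.e true (nat_lit 2) (nat_lit 287) (nat_lit 2) (nat_lit 13) (.u (nat_lit 2) (.n (nat_lit 0) (nat_lit 1) (.p (nat_lit 1) (nat_lit 4) (.n (nat_lit 2) (nat_lit 1) (.p (nat_lit 3) (nat_lit 3) (.p (nat_lit 4) (nat_lit 4) (.n (nat_lit 5) (nat_lit 1) (.p (nat_lit 6) (nat_lit 4) (.p (nat_lit 7) (nat_lit 4) (.p (nat_lit 8) (nat_lit 3) (.n (nat_lit 9) (nat_lit 3) (.p (nat_lit 10) (nat_lit 2) (.p (nat_lit 12) (nat_lit 2) (.p (nat_lit 13) (nat_lit 1) (.p (nat_lit 15) (nat_lit 1) (.p (nat_lit 16)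 (nat_lit 3) (.n (nat_lit 17) (nat_lit 2) (.p (nat_lit 18) (nat_lit 2) (.p (nat_lit 19) (nat_lit 4) (.p (nat_lit 21) (nat_lit 1) (.n (nat_lit 22) (nat_lit 1) (.p (nat_lit 23) (nat_lit 1) (.n (nat_lit 24) (nat_lit 1) (.n (nat_lit 26) (nat_lit 1) (.n (nat_lit 27) (nat_lit 2) (.n (nat_lit 28) (nat_lit 1) (.p (nat_lit 29) (nat_lit 1) (.p (nat_lit 30) (nat_lit 1) (.p (nat_lit 173) (nat_lit 2) (.n (nat_lit 174) (nat_lit 1) (.p (nat_lit 175) (nat_lit 2) (.n (nat_lit 176) (nat_lit 4) (.p (nat_lit 177) (nat_lit 2) (.n (nat_lit 178) (nat_lit 5) (.n (nat_lit 179) (nat_lit 7) (.n (nat_lit 180) (nat_lit 1) (.p (nat_lit 182) (nat_lit 6) (.n (nat_lit 183) (nat_lit 1) (.n (nat_lit 184) (nat_lit 1) (.p (nat_lit 185) (nat_lit 1) (.p (nat_lit 186) (nat_lit 1) (.n (nat_lit 187) (nat_lit 5) (.p (nat_lit 190) (nat_lit 6) (.p (nat_lit 191) (nat_lit 3) (.p (nat_lit 192) (nat_lit 3) (.p (nat_lit 193) (nat_lit 3) (.p (nat_lit 194) (nat_lit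 1) (.n (nat_lit 195) (nat_lit 1) (.p (nat_lit 196) (nat_lit 1) (.n (nat_lit 197) (nat_lit 2) (.p (nat_lit 198) (nat_lit 1) (.n (nat_lit 199) (nat_lit 3) (.n (nat_lit 200) (nat_lit 2) (.p (nat_lit 201) (nat_lit 1) (.p (nat_lit 202) (nat_lit 1) (.n (nat_lit 214) (nat_lit 1) (.n (nat_lit 216) (nat_lit 1) (.p (nat_lit 217) (nat_lit 1) (.p (nat_lit 219) (nat_lit 1) (.n (nat_lit 220) (nat_lit 1) (.p (nat_lit 221) (nat_lit 1) .z)))))))))))))))))))))))))))))))))))))))))))))))))))))))))))) (.u (nat_lit 2) (.n (nat_lit 222) (nat_lit 1) (.n (nat_lit 223) (nat_lit 1) .z)) .nil)))))))))))))))))))))))))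

noncomputable def dC1d_i385 : IL := (.e false (nat_lit 1) (nat_lit 264) (nat_lit 1) (nat_lit 18) (.e false (nat_lit 1) (nat_lit 267) (nat_lit 1) (nat_lit 18) (.e true (nat_lit 3) (nat_lit 269) (nat_lit 1) (nat_lit 18) (.e true (nat_lit 3) (nat_lit 271) (nat_lit 1) (nat_lit 18) (.e true (nat_lit 2) (nat_lit 279) (nat_lit 1) (nat_lit 18) (.e false (nat_lit 3) (nat_lit 280) (nat_lit 1) (nat_lit 18) (.e true (nat_lit 2) (nat_lit 288) (nat_lit 1) (nat_lit 18) (.e true (nat_lit 2) (nat_lit 263) (nat_lit 1) (nat_lit 18) (.e false (nat_lit 1) (nat_lit 265) (nat_lit 1) (nat_lit 18) (.e false (nat_lit 3) (nat_lit 268) (nat_lit 1) (nat_lit 18) (.e false (nat_lit 1) (nat_lit 272) (nat_lit 1) (nat_lit 18) (.e false (nat_lit 3) (nat_lit 273) (nat_lit 1) (nat_lit 18) (.e true (nat_lit 2) (nat_lit 292) (nat_lit 0) (nat_lit 19) (.e false (nat_lit 2) (nat_lit 293) (nat_lit 0) (nat_lit 19) (.e true (nat_lit 3) (nat_lit 296) (nat_lit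 0) (nat_lit 19) (.e false (nat_lit 3) (nat_lit 297) (nat_lit 0) (nat_lit 19) (.e true (nat_lit 3) (nat_lit 299) (nat_lit 0) (nat_lit 19) (.e true (nat_lit 1) (nat_lit 300) (nat_lit 0) (nat_lit 19) (.e true (nat_lit 2) (nat_lit 304) (nat_lit 0) (nat_lit 19) (.e false (nat_lit 2) (nat_lit 317) (nat_lit 0) (nat_lit 19) (.e false (nat_lit 2) (nat_lit 310) (nat_lit 0) (nat_lit 19) (.e true (nat_lit 2) (nat_lit 308) (nat_lit 0) (nat_lit 19) (.e false (nat_lit 2) (nat_lit 291) (nat_lit 0) (nat_lit 19) (.u (nat_lit 2) (.n (nat_lit 1) (nat_lit 1) (.n (nat_lit 2) (nat_lit 2) (.n (nat_lit 3) (nat_lit 1) (.n (nat_lit 4) (nat_lit 2) (.p (nat_lit 8) (nat_lit 2) (.n (nat_lit 9) (nat_lit 1) (.n (nat_lit 10) (nat_lit 1) (.n (nat_lit 11) (nat_lit 2) (.p (nat_lit 14) (nat_lit 2) (.n (nat_lit 15) (nat_lit 1) (.p (nat_lit 17) (nat_lit 1) (.p (nat_lit 18) (nat_lit 2) (.n (nat_lit 19) (nat_lit 1) (.n (nat_lit 20) (nat_lit 1) (.n (nat_lit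 26) (nat_lit 1) (.n (nat_lit 27) (nat_lit 1) (.n (nat_lit 29) (nat_lit 2) (.n (nat_lit 30) (nat_lit 1) (.p (nat_lit 31) (nat_lit 1) (.n (nat_lit 32) (nat_lit 2) (.n (nat_lit 33) (nat_lit 1) (.p (nat_lit 34) (nat_lit 2) (.n (nat_lit 35) (nat_lit 1) (.n (nat_lit 36) (nat_lit 1) (.n (nat_lit 38) (nat_lit 2) (.p (nat_lit 39) (nat_lit 1) (.p (nat_lit 40) (nat_lit 2) (.n (nat_lit 117) (nat_lit 1) (.p (nat_lit 141) (nat_lit 1) (.n (nat_lit 171) (nat_lit 1) (.p (nat_lit 237) (nat_lit 1) (.n (nat_lit 239) (nat_lit 1) (.p (nat_lit 242) (nat_lit 1) (.n (nat_lit 290) (nat_lit 1) (.n (nat_lit 327) (nat_lit 11) (.p (nat_lit 328) (nat_lit 9) (.p (nat_lit 329) (nat_lit 2) (.n (nat_lit 330) (nat_lit 4) (.n (nat_lit 331) (nat_lit 2) (.p (nat_lit 332) (nat_lit 6) (.p (nat_lit 333) (nat_lit 4) (.n (nat_lit 334) (nat_lit 2) (.n (nat_lit 335) (nat_lit 7) (.n (nat_lit 336) (nat_lit 2) (.n (nat_lit 337) (nat_lit 1) (.p (nat_lit 338) (nat_lit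 9) (.n (nat_lit 339) (nat_lit 1) (.p (nat_lit 340) (nat_lit 1) (.p (nat_lit 341) (nat_lit 3) (.n (nat_lit 343) (nat_lit 1) (.n (nat_lit 344) (nat_lit 1) (.p (nat_lit 345) (nat_lit 2) (.n (nat_lit 346) (nat_lit 2) (.p (nat_lit 347) (nat_lit 9) (.n (nat_lit 349) (nat_lit 3) (.n (nat_lit 350) (nat_lit 7) (.n (nat_lit 352) (nat_lit 3) (.n (nat_lit 353) (nat_lit 2) (.p (nat_lit 354) (nat_lit 1) (.n (nat_lit 355) (nat_lit 2) .z)))))))))))))))))))))))))))))))))))))))))))))))))))))))))))) (.u (nat_lit 2) (.p (nat_lit 356) (nat_lit 1) (.p (nat_lit 358) (nat_lit 1) (.n (nat_lit 359) (nat_lit 2) (.n (nat_lit 361) (nat_lit 1) (.p (nat_lit 364) (nat_lit 1) (.n (nat_lit 368) (nat_lit 3) (.p (nat_lit 376) (nat_lit 1) (.p (nat_lit 377) (nat_lit 1) (.n (nat_lit 379) (nat_lit 2) (.p (nat_lit 382) (nat_lit 1) (.n (nat_lit 384) (nat_lit 2) (.n (nat_lit 385) (nat_lit 2) (.p (nat_lit 386) (nat_lit 1) (.p (nat_lit 387) (nat_lit 3) (.n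 (nat_lit 388) (nat_lit 2) (.n (nat_lit 389) (nat_lit 2) (.p (nat_lit 392) (nat_lit 1) (.n (nat_lit 395) (nat_lit 1) (.p (nat_lit 398) (nat_lit 1) (.p (nat_lit 399) (nat_lit 1) (.p (nat_lit 401) (nat_lit 1) (.p (nat_lit 403) (nat_lit 1) (.p (nat_lit 405) (nat_lit 1) (.p (nat_lit 406) (nat_lit 1) (.p (nat_lit 407) (nat_lit 1) (.n (nat_lit 408) (nat_lit 1) (.p (nat_lit 411) (nat_lit 1) (.n (nat_lit 412) (nat_lit 1) (.n (nat_lit 414) (nat_lit 1) (.n (nat_lit 416) (nat_lit 2) (.p (nat_lit 419) (nat_lit 1) (.n (nat_lit 422) (nat_lit 1) (.p (nat_lit 423) (nat_lit 1) (.n (nat_lit 425) (nat_lit 1) (.n (nat_lit 426) (nat_lit 1) (.n (nat_lit 427) (nat_lit 1) (.p (nat_lit 431) (nat_lit 1) (.n (nat_lit 432) (nat_lit 1) .z)))))))))))))))))))))))))))))))))))))) .nil)))))))))))))))))))))))))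

noncomputable def dC1d_i386 : IL := (.s false (nat_lit 3) (nat_lit 8) (nat_lit 6) (nat_lit 4) (nat_lit 2) true (nat_lit 5) true (nat_lit 17) true (nat_lit 11) true (nat_lit 13) true (nat_lit 15) (.s false (nat_lit 3) (nat_lit 15) (nat_lit 2) (nat_lit 8) (nat_lit 2) true (nat_lit 13) true (nat_lit 17) true (nat_lit 7) true (nat_lit 17) true (nat_lit 11) (.s true (nat_lit 3) (nat_lit 17) (nat_lit 2) (nat_lit 7) (nat_lit 2) true (nat_lit 13) true (nat_lit 17) true (nat_lit 6) true (nat_lit 17) true (nat_lit 12) (.s false (nat_lit 3) (nat_lit 18) (nat_lit 1) (nat_lit 7) (nat_lit 2) true (nat_lit 14) true (nat_lit 17) true (nat_lit 5) true (nat_lit 18) true (nat_lit 12) (.s false (nat_lit 3) (nat_lit 18) (nat_lit 2) (nat_lit 0) (nat_lit 8) true (nat_lit 2) true (nat_lit 11) true (nat_lit 5) true (nat_lit 17) true (nat_lit 19) (.s true (nat_lit 3) (nat_lit 18) (nat_lit 7) (nat_lit 1) (nat_lit 2) true (nat_lit 3) true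 (nat_lit 17) true (nat_lit 5) true (nat_lit 12) true (nat_lit 18) (.s true (nat_lit 1) (nat_lit 18) (nat_lit 8) (nat_lit 0) (nat_lit 2) true (nat_lit 2) true (nat_lit 17) true (nat_lit 5) true (nat_lit 11) true (nat_lit 19) (.s false (nat_lit 3) (nat_lit 20) (nat_lit 6) (nat_lit 2) (nat_lit 1) true (nat_lit 6) true (nat_lit 18) true (nat_lit 3) true (nat_lit 13) true (nat_lit 17) (.s true (nat_lit 3) (nat_lit 24) (nat_lit 0) (nat_lit 6) (nat_lit 2) true (nat_lit 15) true (nat_lit 17) true (nat_lit 2) true (nat_lit 19) true (nat_lit 13) (.s true (nat_lit 1) (nat_lit 24) (nat_lit 2) (nat_lit 2) (nat_lit 4) true (nat_lit 7) true (nat_lit 15) true (nat_lit 2) true (nat_lit 17) true (nat_lit 17) (.s true (nat_lit 3) (nat_lit 65) (nat_lit 2) (nat_lit 1) (nat_lit 2) true (nat_lit 13) true (nat_lit 17) false (nat_lit 6) true (nat_lit 17) true (nat_lit 18) (.s true (nat_lit 3) (nat_lit 66) (nat_lit 0) (nat_lit 2) (nat_lit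 2) true (nat_lit 15) true (nat_lit 17) false (nat_lit 7) true (nat_lit 19) true (nat_lit 17) (.s false (nat_lit 3) (nat_lit 74) (nat_lit 0) (nat_lit 2) (nat_lit 2) true (nat_lit 15) true (nat_lit 17) false (nat_lit 7) true (nat_lit 19) true (nat_lit 17) (.s false (nat_lit 3) (nat_lit 66) (nat_lit 2) (nat_lit 0) (nat_lit 2) true (nat_lit 13) true (nat_lit 17) false (nat_lit 7) true (nat_lit 17) true (nat_lit 19) (.s false (nat_lit 3) (nat_lit 74) (nat_lit 2) (nat_lit 0) (nat_lit 2) true (nat_lit 13) true (nat_lit 17) false (nat_lit 7) true (nat_lit 17) true (nat_lit 19) (.s true (nat_lit 3) (nat_lit 66) (nat_lit 2) (nat_lit 2) (nat_lit 0) true (nat_lit 15) true (nat_lit 19) false (nat_lit 7) true (nat_lit 17) true (nat_lit 17) (.s false (nat_lit 1) (nat_lit 100) (nat_lit 1) (nat_lit 0) (nat_lit 1) false (nat_lit 21) true (nat_lit 18) false (nat_lit 11) true (nat_lit 18) true (nat_lit 19) (.s false (nat_lit 1) (nat_lit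 104) (nat_lit 0) (nat_lit 1) (nat_lit 0) false (nat_lit 20) true (nat_lit 19) false (nat_lit 12) true (nat_lit 19) true (nat_lit 18) (.e false (nat_lit 3) (nat_lit 277) (nat_lit 1) (nat_lit 18) (.e true (nat_lit 2) (nat_lit 298) (nat_lit 0) (nat_lit 19) (.e false (nat_lit 1) (nat_lit 307) (nat_lit 0) (nat_lit 19) (.e false (nat_lit 2) (nat_lit 270) (nat_lit 1) (nat_lit 18) (.e false (nat_lit 1) (nat_lit 316) (nat_lit 0) (nat_lit 19) (.e true (nat_lit 3) (nat_lit 260) (nat_lit 1) (nat_lit 18) (.e true (nat_lit 1) (nat_lit 261) (nat_lit 1) (nat_lit 18) dC1d_i385)))))))))))))))))))))))))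

noncomputable def dC1d_i387 : IL := (.e true (nat_lit 3) (nat_lit 292) (nat_lit 0) (nat_lit 19) (.e true (nat_lit 1) (nat_lit 293) (nat_lit 0) (nat_lit 19) (.e false (nat_lit 1) (nat_lit 294) (nat_lit 0) (nat_lit 19) (.e true (nat_lit 1) (nat_lit 299) (nat_lit 0) (nat_lit 19) (.e false (nat_lit 2) (nat_lit 301) (nat_lit 0) (nat_lit 19) (.e false (nat_lit 1) (nat_lit 308) (nat_lit 0) (nat_lit 19) (.e true (nat_lit 3) (nat_lit 317) (nat_lit 0) (nat_lit 19) (.e true (nat_lit 2) (nat_lit 319) (nat_lit 0) (nat_lit 19) (.e true (nat_lit 1) (nat_lit 313) (nat_lit 0) (nat_lit 19) (.e false (nat_lit 1) (nat_lit 291) (nat_lit 0) (nat_lit 19) (.e false (nat_lit 3) (nat_lit 295) (nat_lit 0) (nat_lit 19) (.e false (nat_lit 1) (nat_lit 296) (nat_lit 0) (nat_lit 19) (.e true (nat_lit 1) (nat_lit 297) (nat_lit 0) (nat_lit 19) (.e false (nat_lit 2) (nat_lit 300) (nat_lit 0) (nat_lit 19) (.e true (nat_lit 3) (nat_lit 314) (nat_lit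 0) (nat_lit 19) (.e true (nat_lit 3) (nat_lit 310) (nat_lit 0) (nat_lit 19) (.e true (nat_lit 3) (nat_lit 315) (nat_lit 0) (nat_lit 19) (.e true (nat_lit 3) (nat_lit 290) (nat_lit 0) (nat_lit 19) (.e false (nat_lit 1) (nat_lit 304) (nat_lit 0) (nat_lit 19) (.e false (nat_lit 1) (nat_lit 285) (nat_lit 1) (nat_lit 18) (.e true (nat_lit 1) (nat_lit 283) (nat_lit 1) (nat_lit 18) (.e true (nat_lit 3) (nat_lit 318) (nat_lit 0) (nat_lit 19) (.u (nat_lit 2) (.p (nat_lit 0) (nat_lit 6) (.n (nat_lit 1) (nat_lit 1) (.n (nat_lit 2) (nat_lit 1) (.p (nat_lit 3) (nat_lit 3) (.n (nat_lit 4) (nat_lit 3) (.p (nat_lit 5) (nat_lit 4) (.p (nat_lit 6) (nat_lit 3) (.n (nat_lit 7) (nat_lit 3) (.n (nat_lit 8) (nat_lit 3) (.p (nat_lit 9) (nat_lit 1) (.n (nat_lit 10) (nat_lit 5) (.p (nat_lit 12) (nat_lit 6) (.p (nat_lit 13) (nat_lit 1) (.p (nat_lit 15) (nat_lit 4) (.n (nat_lit 19) (nat_lit 1) (.n (nat_lit 20) (nat_lit 4) (.p (nat_lit 26)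 (nat_lit 2) (.p (nat_lit 27) (nat_lit 4) (.n (nat_lit 28) (nat_lit 1) (.p (nat_lit 29) (nat_lit 1) (.n (nat_lit 30) (nat_lit 2) (.n (nat_lit 31) (nat_lit 5) (.p (nat_lit 32) (nat_lit 1) (.n (nat_lit 33) (nat_lit 4) (.p (nat_lit 34) (nat_lit 3) (.p (nat_lit 35) (nat_lit 2) (.n (nat_lit 36) (nat_lit 3) (.n (nat_lit 37) (nat_lit 1) (.n (nat_lit 38) (nat_lit 4) (.n (nat_lit 39) (nat_lit 2) (.p (nat_lit 40) (nat_lit 1) (.n (nat_lit 41) (nat_lit 2) (.n (nat_lit 50) (nat_lit 1) (.n (nat_lit 53) (nat_lit 1) (.p (nat_lit 54) (nat_lit 3) (.p (nat_lit 56) (nat_lit 1) (.p (nat_lit 57) (nat_lit 1) (.n (nat_lit 58) (nat_lit 1) (.n (nat_lit 60) (nat_lit 1) (.n (nat_lit 61) (nat_lit 1) (.p (nat_lit 62) (nat_lit 1) (.n (nat_lit 64) (nat_lit 1) (.p (nat_lit 69) (nat_lit 1) (.n (nat_lit 327) (nat_lit 1) (.n (nat_lit 328) (nat_lit 1) (.p (nat_lit 329) (nat_lit 1) (.p (nat_lit 331) (nat_lit 2) (.n (nat_lit 332) (nat_lit 1) (.n (nat_lit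 333) (nat_lit 2) (.p (nat_lit 334) (nat_lit 1) (.n (nat_lit 335) (nat_lit 1) (.n (nat_lit 336) (nat_lit 1) (.n (nat_lit 338) (nat_lit 1) (.n (nat_lit 339) (nat_lit 1) (.n (nat_lit 340) (nat_lit 1) (.p (nat_lit 343) (nat_lit 1) (.p (nat_lit 344) (nat_lit 1) (.n (nat_lit 345) (nat_lit 1) (.n (nat_lit 346) (nat_lit 1) (.n (nat_lit 347) (nat_lit 1) .z)))))))))))))))))))))))))))))))))))))))))))))))))))))))))))) (.u (nat_lit 2) (.p (nat_lit 348) (nat_lit 1) (.n (nat_lit 349) (nat_lit 1) (.n (nat_lit 351) (nat_lit 1) (.p (nat_lit 353) (nat_lit 1) (.n (nat_lit 354) (nat_lit 1) (.p (nat_lit 356) (nat_lit 2) (.n (nat_lit 357) (nat_lit 1) (.n (nat_lit 358) (nat_lit 2) (.p (nat_lit 359) (nat_lit 1) (.p (nat_lit 360) (nat_lit 1) (.n (nat_lit 361) (nat_lit 2) (.p (nat_lit 362) (nat_lit 2) (.p (nat_lit 363) (nat_lit 2) (.p (nat_lit 364) (nat_lit 1) (.n (nat_lit 365) (nat_lit 1) (.p (nat_lit 375) (nat_lit 6) (.p (nat_lit 376) (nat_lit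 3) (.n (nat_lit 377) (nat_lit 4) (.n (nat_lit 378) (nat_lit 1) (.n (nat_lit 379) (nat_lit 1) (.p (nat_lit 380) (nat_lit 2) (.n (nat_lit 381) (nat_lit 1) (.p (nat_lit 382) (nat_lit 5) (.n (nat_lit 383) (nat_lit 1) (.p (nat_lit 386) (nat_lit 3) (.n (nat_lit 387) (nat_lit 1) (.p (nat_lit 392) (nat_lit 3) (.p (nat_lit 393) (nat_lit 4) (.n (nat_lit 394) (nat_lit 5) (.p (nat_lit 395) (nat_lit 3) (.n (nat_lit 396) (nat_lit 1) (.p (nat_lit 397) (nat_lit 1) (.n (nat_lit 398) (nat_lit 3) (.p (nat_lit 400) (nat_lit 3) (.p (nat_lit 402) (nat_lit 4) (.p (nat_lit 403) (nat_lit 1) (.n (nat_lit 404) (nat_lit 1) (.p (nat_lit 405) (nat_lit 1) (.p (nat_lit 406) (nat_lit 1) (.n (nat_lit 407) (nat_lit 3) (.p (nat_lit 408) (nat_lit 9) (.n (nat_lit 409) (nat_lit 1) (.p (nat_lit 410) (nat_lit 1) (.p (nat_lit 411) (nat_lit 1) (.n (nat_lit 412) (nat_lit 1) (.p (nat_lit 413) (nat_lit 1) (.p (nat_lit 414) (nat_lit 7) (.p (nat_lit 415) (nat_lit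 2) (.p (nat_lit 416) (nat_lit 2) (.n (nat_lit 417) (nat_lit 2) (.n (nat_lit 419) (nat_lit 7) (.p (nat_lit 420) (nat_lit 2) (.p (nat_lit 422) (nat_lit 2) (.n (nat_lit 423) (nat_lit 1) (.p (nat_lit 425) (nat_lit 3) (.p (nat_lit 426) (nat_lit 3) (.n (nat_lit 428) (nat_lit 3) (.p (nat_lit 429) (nat_lit 1) (.p (nat_lit 430) (nat_lit 1) (.p (nat_lit 431) (nat_lit 1) .z)))))))))))))))))))))))))))))))))))))))))))))))))))))))))))) (.u (nat_lit 2) (.n (nat_lit 432) (nat_lit 1) (.n (nat_lit 433) (nat_lit 1) .z)) .nil)))))))))))))))))))))))))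

noncomputable def dC1d_i388 : IL := (.e true (nat_lit 2) (nat_lit 247) (nat_lit 2) (nat_lit 17) (.e true (nat_lit 1) (nat_lit 250) (nat_lit 2) (nat_lit 17) (.e false (nat_lit 1) (nat_lit 277) (nat_lit 1) (nat_lit 18) (.e true (nat_lit 1) (nat_lit 270) (nat_lit 1) (nat_lit 18) (.e true (nat_lit 2) (nat_lit 143) (nat_lit 5) (nat_lit 14) (.e true (nat_lit 3) (nat_lit 144) (nat_lit 5) (nat_lit 14) (.e true (nat_lit 3) (nat_lit 260) (nat_lit 1) (nat_lit 18) (.e true (nat_lit 1) (nat_lit 261) (nat_lit 1) (nat_lit 18) (.e false (nat_lit 3) (nat_lit 262) (nat_lit 1) (nat_lit 18) (.e true (nat_lit 2) (nat_lit 264) (nat_lit 1) (nat_lit 18) (.e false (nat_lit 2) (nat_lit 265) (nat_lit 1) (nat_lit 18) (.e false (nat_lit 1) (nat_lit 266) (nat_lit 1) (nat_lit 18) (.e false (nat_lit 3) (nat_lit 267) (nat_lit 1) (nat_lit 18) (.e false (nat_lit 2) (nat_lit 268) (nat_lit 1) (nat_lit 18) (.e false (nat_lit 1) (nat_lit 269) (nat_lit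 1) (nat_lit 18) (.e true (nat_lit 1) (nat_lit 272) (nat_lit 1) (nat_lit 18) (.e false (nat_lit 3) (nat_lit 273) (nat_lit 1) (nat_lit 18) (.e false (nat_lit 3) (nat_lit 274) (nat_lit 1) (nat_lit 18) (.e true (nat_lit 3) (nat_lit 278) (nat_lit 1) (nat_lit 18) (.e true (nat_lit 3) (nat_lit 279) (nat_lit 1) (nat_lit 18) (.e true (nat_lit 3) (nat_lit 280) (nat_lit 1) (nat_lit 18) (.e false (nat_lit 3) (nat_lit 282) (nat_lit 1) (nat_lit 18) (.e true (nat_lit 1) (nat_lit 286) (nat_lit 1) (nat_lit 18) (.e true (nat_lit 1) (nat_lit 288) (nat_lit 1) (nat_lit 18) (.e false (nat_lit 3) (nat_lit 311) (nat_lit 0) (nat_lit 19) dC1d_i387)))))))))))))))))))))))))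

noncomputable def dC1d_i389 : IL := (.e true (nat_lit 3) (nat_lit 222) (nat_lit 2) (nat_lit 17) (.e false (nat_lit 1) (nat_lit 223) (nat_lit 2) (nat_lit 17) (.e false (nat_lit 1) (nat_lit 224) (nat_lit 2) (nat_lit 17) (.e false (nat_lit 1) (nat_lit 226) (nat_lit 2) (nat_lit 17) (.e true (nat_lit 1) (nat_lit 230) (nat_lit 2) (nat_lit 17) (.e false (nat_lit 1) (nat_lit 231) (nat_lit 2) (nat_lit 17) (.e true (nat_lit 2) (nat_lit 232) (nat_lit 2) (nat_lit 17) (.e true (nat_lit 3) (nat_lit 234) (nat_lit 2) (nat_lit 17) (.e true (nat_lit 3) (nat_lit 235) (nat_lit 2) (nat_lit 17) (.e true (nat_lit 3) (nat_lit 236) (nat_lit 2) (nat_lit 17) (.e false (nat_lit 2) (nat_lit 237) (nat_lit 2) (nat_lit 17) (.e true (nat_lit 3) (nat_lit 238) (nat_lit 2) (nat_lit 17) (.e true (nat_lit 2) (nat_lit 240) (nat_lit 2) (nat_lit 17) (.e true (nat_lit 1) (nat_lit 242) (nat_lit 2) (nat_lit 17) (.e true (nat_lit 3) (nat_lit 244) (nat_lit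 2) (nat_lit 17) (.e true (nat_lit 3) (nat_lit 245) (nat_lit 2) (nat_lit 17) (.e true (nat_lit 2) (nat_lit 248) (nat_lit 2) (nat_lit 17) (.e true (nat_lit 1) (nat_lit 298) (nat_lit 0) (nat_lit 19) (.e true (nat_lit 1) (nat_lit 233) (nat_lit 2) (nat_lit 17) (.e true (nat_lit 3) (nat_lit 239) (nat_lit 2) (nat_lit 17) (.e false (nat_lit 2) (nat_lit 241) (nat_lit 2) (nat_lit 17) (.e true (nat_lit 3) (nat_lit 249) (nat_lit 2) (nat_lit 17) (.e true (nat_lit 1) (nat_lit 225) (nat_lit 2) (nat_lit 17) (.e false (nat_lit 1) (nat_lit 228) (nat_lit 2) (nat_lit 17) (.e false (nat_lit 2) (nat_lit 246) (nat_lit 2) (nat_lit 17) dC1d_i388)))))))))))))))))))))))))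

noncomputable def dC1d_i390 : IL := (.e true (nat_lit 3) (nat_lit 321) (nat_lit 1) (nat_lit 14) (.e true (nat_lit 1) (nat_lit 322) (nat_lit 1) (nat_lit 14) (.e false (nat_lit 2) (nat_lit 275) (nat_lit 2) (nat_lit 13) (.e false (nat_lit 1) (nat_lit 283) (nat_lit 2) (nat_lit 13) (.e true (nat_lit 1) (nat_lit 320) (nat_lit 1) (nat_lit 14) (.e true (nat_lit 3) (nat_lit 327) (nat_lit 1) (nat_lit 14) (.e false (nat_lit 3) (nat_lit 284) (nat_lit 2) (nat_lit 13) (.e true (nat_lit 2) (nat_lit 340) (nat_lit 0) (nat_lit 15) (.e false (nat_lit 2) (nat_lit 341) (nat_lit 0) (nat_lit 15) (.e false (nat_lit 3) (nat_lit 329) (nat_lit 0) (nat_lit 15) (.e false (nat_lit 1) (nat_lit 330) (nat_lit 0) (nat_lit 15) (.e false (nat_lit 3) (nat_lit 336) (nat_lit 0) (nat_lit 15) (.e false (nat_lit 1) (nat_lit 337) (nat_lit 0) (nat_lit 15) (.e true (nat_lit 2) (nat_lit 331) (nat_lit 0) (nat_lit 15) (.e true (nat_lit 1) (nat_lit 333) (nat_lit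 0) (nat_lit 15) (.e true (nat_lit 3) (nat_lit 149) (nat_lit 6) (nat_lit 9) (.e true (nat_lit 2) (nat_lit 328) (nat_lit 0) (nat_lit 15) (.e false (nat_lit 1) (nat_lit 332) (nat_lit 0) (nat_lit 15) (.e false (nat_lit 1) (nat_lit 334) (nat_lit 0) (nat_lit 15) (.e false (nat_lit 1) (nat_lit 335) (nat_lit 0) (nat_lit 15) (.e false (nat_lit 2) (nat_lit 345) (nat_lit 0) (nat_lit 15) (.e true (nat_lit 2) (nat_lit 189) (nat_lit 4) (nat_lit 11) (.e true (nat_lit 1) (nat_lit 342) (nat_lit 0) (nat_lit 15) (.u (nat_lit 2) (.n (nat_lit 0) (nat_lit 1) (.p (nat_lit 2) (nat_lit 1) (.p (nat_lit 3) (nat_lit 1) (.p (nat_lit 8) (nat_lit 1) (.p (nat_lit 10) (nat_lit 1) (.p (nat_lit 12) (nat_lit 1) (.n (nat_lit 13) (nat_lit 1) (.n (nat_lit 15) (nat_lit 1) (.n (nat_lit 16) (nat_lit 1) (.n (nat_lit 17) (nat_lit 1) (.n (nat_lit 19) (nat_lit 1) (.n (nat_lit 24) (nat_lit 1) (.n (nat_lit 27) (nat_lit 1) (.n (nat_lit 30) (nat_lit 1) (.p (nat_lit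 32) (nat_lit 1) (.n (nat_lit 33) (nat_lit 3) (.n (nat_lit 34) (nat_lit 1) (.p (nat_lit 35) (nat_lit 1) (.p (nat_lit 36) (nat_lit 1) (.p (nat_lit 37) (nat_lit 1) (.n (nat_lit 38) (nat_lit 1) (.n (nat_lit 65) (nat_lit 1) (.n (nat_lit 68) (nat_lit 1) (.n (nat_lit 69) (nat_lit 4) (.n (nat_lit 70) (nat_lit 3) (.n (nat_lit 71) (nat_lit 1) (.n (nat_lit 72) (nat_lit 1) (.n (nat_lit 73) (nat_lit 1) (.p (nat_lit 74) (nat_lit 3) (.p (nat_lit 75) (nat_lit 2) (.n (nat_lit 76) (nat_lit 1) (.p (nat_lit 80) (nat_lit 1) (.n (nat_lit 86) (nat_lit 1) (.p (nat_lit 87) (nat_lit 1) (.p (nat_lit 97) (nat_lit 1) (.p (nat_lit 98) (nat_lit 1) (.n (nat_lit 99) (nat_lit 2) (.p (nat_lit 100) (nat_lit 1) (.n (nat_lit 102) (nat_lit 1) (.n (nat_lit 105) (nat_lit 1) (.p (nat_lit 107) (nat_lit 1) (.n (nat_lit 109) (nat_lit 1) (.n (nat_lit 110) (nat_lit 1) (.n (nat_lit 113) (nat_lit 1) (.n (nat_lit 114) (nat_lit 1) (.n (nat_lit 122) (nat_lit 1) (.n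 (nat_lit 125) (nat_lit 2) (.n (nat_lit 127) (nat_lit 4) (.n (nat_lit 128) (nat_lit 2) (.p (nat_lit 129) (nat_lit 1) (.p (nat_lit 131) (nat_lit 3) (.n (nat_lit 132) (nat_lit 3) (.n (nat_lit 134) (nat_lit 1) (.p (nat_lit 135) (nat_lit 4) (.n (nat_lit 136) (nat_lit 1) (.n (nat_lit 140) (nat_lit 1) (.n (nat_lit 141) (nat_lit 1) (.p (nat_lit 144) (nat_lit 2) (.n (nat_lit 145) (nat_lit 1) (.n (nat_lit 146) (nat_lit 1) .z)))))))))))))))))))))))))))))))))))))))))))))))))))))))))))) (.u (nat_lit 2) (.p (nat_lit 147) (nat_lit 4) (.p (nat_lit 148) (nat_lit 2) (.n (nat_lit 149) (nat_lit 1) (.p (nat_lit 151) (nat_lit 3) (.p (nat_lit 154) (nat_lit 1) (.n (nat_lit 155) (nat_lit 1) (.p (nat_lit 157) (nat_lit 1) (.p (nat_lit 161) (nat_lit 1) (.p (nat_lit 164) (nat_lit 1) (.p (nat_lit 172) (nat_lit 2) (.p (nat_lit 173) (nat_lit 24) (.p (nat_lit 174) (nat_lit 10) (.n (nat_lit 175) (nat_lit 4) (.n (nat_lit 176) (nat_lit 7) (.n (nat_lit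 177) (nat_lit 19) (.p (nat_lit 178) (nat_lit 17) (.p (nat_lit 179) (nat_lit 2) (.p (nat_lit 180) (nat_lit 8) (.n (nat_lit 181) (nat_lit 6) (.n (nat_lit 182) (nat_lit 3) (.p (nat_lit 183) (nat_lit 21) (.p (nat_lit 184) (nat_lit 19) (.n (nat_lit 185) (nat_lit 4) (.p (nat_lit 187) (nat_lit 7) (.n (nat_lit 188) (nat_lit 1) (.p (nat_lit 189) (nat_lit 1) (.n (nat_lit 190) (nat_lit 6) (.p (nat_lit 191) (nat_lit 1) (.n (nat_lit 192) (nat_lit 13) (.n (nat_lit 193) (nat_lit 2) (.p (nat_lit 194) (nat_lit 6) (.p (nat_lit 195) (nat_lit 6) (.p (nat_lit 196) (nat_lit 2) (.p (nat_lit 197) (nat_lit 6) (.p (nat_lit 198) (nat_lit 5) (.p (nat_lit 199) (nat_lit 5) (.n (nat_lit 202) (nat_lit 3) (.p (nat_lit 203) (nat_lit 3) (.n (nat_lit 204) (nat_lit 4) (.p (nat_lit 205) (nat_lit 2) (.n (nat_lit 206) (nat_lit 2) (.n (nat_lit 207) (nat_lit 2) (.p (nat_lit 208) (nat_lit 4) (.n (nat_lit 210) (nat_lit 1) (.n (nat_lit 211) (nat_lit 4) (.n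 (nat_lit 212) (nat_lit 4) (.n (nat_lit 213) (nat_lit 5) (.p (nat_lit 214) (nat_lit 7) (.p (nat_lit 215) (nat_lit 1) (.n (nat_lit 216) (nat_lit 6) (.p (nat_lit 217) (nat_lit 3) (.p (nat_lit 219) (nat_lit 6) (.n (nat_lit 220) (nat_lit 3) (.p (nat_lit 221) (nat_lit 5) (.n (nat_lit 222) (nat_lit 2) (.n (nat_lit 223) (nat_lit 2) (.n (nat_lit 226) (nat_lit 1) (.n (nat_lit 227) (nat_lit 1) (.n (nat_lit 228) (nat_lit 2) (.n (nat_lit 229) (nat_lit 2) .z)))))))))))))))))))))))))))))))))))))))))))))))))))))))))))) .nil)))))))))))))))))))))))))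

noncomputable def dC1d_i391 : IL := (.s false (nat_lit 3) (nat_lit 98) (nat_lit 2) (nat_lit 0) (nat_lit 1) true (nat_lit 10) true (nat_lit 14) false (nat_lit 6) true (nat_lit 13) true (nat_lit 15) (.s false (nat_lit 3) (nat_lit 99) (nat_lit 2) (nat_lit 0) (nat_lit 1) true (nat_lit 10) true (nat_lit 14) false (nat_lit 6) true (nat_lit 13) true (nat_lit 15) (.s false (nat_lit 3) (nat_lit 100) (nat_lit 2) (nat_lit 0) (nat_lit 1) true (nat_lit 10) true (nat_lit 14) false (nat_lit 6) true (nat_lit 13) true (nat_lit 15) (.s true (nat_lit 1) (nat_lit 98) (nat_lit 2) (nat_lit 1) (nat_lit 0) true (nat_lit 11) true (nat_lit 15) false (nat_lit 6) true (nat_lit 13) true (nat_lit 14) (.s false (nat_lit 3) (nat_lit 103) (nat_lit 0) (nat_lit 2) (nat_lit 0) false (nat_lit 16) true (nat_lit 15) false (nat_lit 7) true (nat_lit 15) true (nat_lit 13) (.s true (nat_lit 3) (nat_lit 104) (nat_lit 0) (nat_lit 2) (nat_lit 0) false (nat_lit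 16) true (nat_lit 15) false (nat_lit 7) true (nat_lit 15) true (nat_lit 13) (.s false (nat_lit 2) (nat_lit 105) (nat_lit 0) (nat_lit 2) (nat_lit 0) false (nat_lit 16) true (nat_lit 15) false (nat_lit 7) true (nat_lit 15) true (nat_lit 13) (.s false (nat_lit 3) (nat_lit 106) (nat_lit 0) (nat_lit 0) (nat_lit 1) true (nat_lit 12) true (nat_lit 14) false (nat_lit 8) true (nat_lit 15) true (nat_lit 15) (.s false (nat_lit 2) (nat_lit 106) (nat_lit 0) (nat_lit 1) (nat_lit 0) false (nat_lit 16) true (nat_lit 15) false (nat_lit 8) true (nat_lit 15) true (nat_lit 14) (.e true (nat_lit 1) (nat_lit 65) (nat_lit 18) (nat_lit 3) (.e false (nat_lit 1) (nat_lit 261) (nat_lit 2) (nat_lit 13) (.e true (nat_lit 3) (nat_lit 264) (nat_lit 2) (nat_lit 13) (.e true (nat_lit 2) (nat_lit 265) (nat_lit 2) (nat_lit 13) (.e true (nat_lit 3) (nat_lit 266) (nat_lit 2) (nat_lit 13) (.e true (nat_lit 2) (nat_lit 267) (nat_lit 2) (nat_lit 13) (.e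 false (nat_lit 3) (nat_lit 271) (nat_lit 2) (nat_lit 13) (.e true (nat_lit 2) (nat_lit 272) (nat_lit 2) (nat_lit 13) (.e true (nat_lit 1) (nat_lit 273) (nat_lit 2) (nat_lit 13) (.e false (nat_lit 1) (nat_lit 286) (nat_lit 2) (nat_lit 13) (.e false (nat_lit 1) (nat_lit 268) (nat_lit 2) (nat_lit 13) (.e false (nat_lit 1) (nat_lit 274) (nat_lit 2) (nat_lit 13) (.e false (nat_lit 2) (nat_lit 137) (nat_lit 6) (nat_lit 9) (.e true (nat_lit 1) (nat_lit 142) (nat_lit 6) (nat_lit 9) (.e false (nat_lit 2) (nat_lit 323) (nat_lit 1) (nat_lit 14) (.e true (nat_lit 2) (nat_lit 324) (nat_lit 1) (nat_lit 14) dC1d_i390)))))))))))))))))))))))))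

noncomputable def dC1d_i392 : IL := (.s false (nat_lit 1) (nat_lit 79) (nat_lit 1) (nat_lit 2) (nat_lit 2) true (nat_lit 10) true (nat_lit 13) false (nat_lit 4) true (nat_lit 14) true (nat_lit 13) (.s false (nat_lit 3) (nat_lit 81) (nat_lit 1) (nat_lit 2) (nat_lit 2) true (nat_lit 10) true (nat_lit 13) false (nat_lit 4) true (nat_lit 14) true (nat_lit 13) (.s false (nat_lit 3) (nat_lit 77) (nat_lit 2) (nat_lit 1) (nat_lit 2) true (nat_lit 9) true (nat_lit 13) false (nat_lit 4) true (nat_lit 13) true (nat_lit 14) (.s true (nat_lit 1) (nat_lit 78) (nat_lit 2) (nat_lit 2) (nat_lit 1) true (nat_lit 10) true (nat_lit 14) false (nat_lit 4) true (nat_lit 13) true (nat_lit 13) (.s false (nat_lit 1) (nat_lit 82) (nat_lit 0) (nat_lit 2) (nat_lit 2) true (nat_lit 11) true (nat_lit 13) false (nat_lit 5) true (nat_lit 15) true (nat_lit 13) (.s true (nat_lit 2) (nat_lit 83) (nat_lit 0) (nat_lit 2) (nat_lit 2) true (nat_lit 11)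 true (nat_lit 13) false (nat_lit 5) true (nat_lit 15) true (nat_lit 13) (.s false (nat_lit 3) (nat_lit 84) (nat_lit 0) (nat_lit 2) (nat_lit 2) true (nat_lit 11) true (nat_lit 13) false (nat_lit 5) true (nat_lit 15) true (nat_lit 13) (.s true (nat_lit 2) (nat_lit 85) (nat_lit 0) (nat_lit 2) (nat_lit 2) true (nat_lit 11) true (nat_lit 13) false (nat_lit 5) true (nat_lit 15) true (nat_lit 13) (.s false (nat_lit 1) (nat_lit 86) (nat_lit 0) (nat_lit 2) (nat_lit 2) true (nat_lit 11) true (nat_lit 13) false (nat_lit 5) true (nat_lit 15) true (nat_lit 13) (.s false (nat_lit 3) (nat_lit 87) (nat_lit 0) (nat_lit 2) (nat_lit 2) true (nat_lit 11) true (nat_lit 13) false (nat_lit 5) true (nat_lit 15) true (nat_lit 13) (.s false (nat_lit 3) (nat_lit 91) (nat_lit 0) (nat_lit 2) (nat_lit 2) true (nat_lit 11) true (nat_lit 13) false (nat_lit 5) true (nat_lit 15) true (nat_lit 13) (.s false (nat_lit 1) (nat_lit 83) (nat_lit 2) (nat_lit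 0) (nat_lit 2) true (nat_lit 9) true (nat_lit 13) false (nat_lit 5) true (nat_lit 13) true (nat_lit 15) (.s true (nat_lit 2) (nat_lit 82) (nat_lit 2) (nat_lit 2) (nat_lit 0) true (nat_lit 11) true (nat_lit 15) false (nat_lit 5) true (nat_lit 13) true (nat_lit 13) (.s false (nat_lit 1) (nat_lit 84) (nat_lit 2) (nat_lit 2) (nat_lit 0) true (nat_lit 11) true (nat_lit 15) false (nat_lit 5) true (nat_lit 13) true (nat_lit 13) (.s true (nat_lit 2) (nat_lit 85) (nat_lit 2) (nat_lit 2) (nat_lit 0) true (nat_lit 11) true (nat_lit 15) false (nat_lit 5) true (nat_lit 13) true (nat_lit 13) (.s false (nat_lit 2) (nat_lit 86) (nat_lit 2) (nat_lit 2) (nat_lit 0) true (nat_lit 11) true (nat_lit 15) false (nat_lit 5) true (nat_lit 13) true (nat_lit 13) (.s true (nat_lit 2) (nat_lit 87) (nat_lit 2) (nat_lit 2) (nat_lit 0) true (nat_lit 11) true (nat_lit 15) false (nat_lit 5) true (nat_lit 13) true (nat_lit 13) (.s true (nat_lit 3)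 (nat_lit 90) (nat_lit 2) (nat_lit 2) (nat_lit 0) true (nat_lit 11) true (nat_lit 15) false (nat_lit 5) true (nat_lit 13) true (nat_lit 13) (.s true (nat_lit 1) (nat_lit 91) (nat_lit 2) (nat_lit 2) (nat_lit 0) true (nat_lit 11) true (nat_lit 15) false (nat_lit 5) true (nat_lit 13) true (nat_lit 13) (.s true (nat_lit 3) (nat_lit 92) (nat_lit 2) (nat_lit 2) (nat_lit 0) true (nat_lit 11) true (nat_lit 15) false (nat_lit 5) true (nat_lit 13) true (nat_lit 13) (.s true (nat_lit 3) (nat_lit 100) (nat_lit 0) (nat_lit 2) (nat_lit 1) true (nat_lit 12) true (nat_lit 14) false (nat_lit 6) true (nat_lit 15) true (nat_lit 13) (.s true (nat_lit 1) (nat_lit 99) (nat_lit 1) (nat_lit 0) (nat_lit 2) true (nat_lit 10) true (nat_lit 13) false (nat_lit 6) true (nat_lit 14) true (nat_lit 15) (.s false (nat_lit 2) (nat_lit 100) (nat_lit 1) (nat_lit 0) (nat_lit 2) true (nat_lit 10) true (nat_lit 13) false (nat_lit 6) true (nat_lit 14) true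 (nat_lit 15) (.s false (nat_lit 3) (nat_lit 101) (nat_lit 1) (nat_lit 0) (nat_lit 2) true (nat_lit 10) true (nat_lit 13) false (nat_lit 6) true (nat_lit 14) true (nat_lit 15) (.s false (nat_lit 3) (nat_lit 99) (nat_lit 1) (nat_lit 2) (nat_lit 0) true (nat_lit 12) true (nat_lit 15) false (nat_lit 6) true (nat_lit 14) true (nat_lit 13) dC1d_i391)))))))))))))))))))))))))

noncomputable def dC1d_i393 : IL := (.s true (nat_lit 2) (nat_lit 31) (nat_lit 0) (nat_lit 2) (nat_lit 6) true (nat_lit 5) true (nat_lit 9) true (nat_lit 0) true (nat_lit 15) true (nat_lit 13) (.s true (nat_lit 2) (nat_lit 32) (nat_lit 0) (nat_lit 2) (nat_lit 6) true (nat_lit 5) true (nat_lit 9) true (nat_lit 0) true (nat_lit 15) true (nat_lit 13) (.s false (nat_lit 1) (nat_lit 31) (nat_lit 0) (nat_lit 6) (nat_lit 2) true (nat_lit 11) true (nat_lit 13) true (nat_lit 0) true (nat_lit 15) true (nat_lit 9) (.s false (nat_lit 3) (nat_lit 32) (nat_lit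 0) (nat_lit 6) (nat_lit 2) true (nat_lit 11) true (nat_lit 13) true (nat_lit 0) true (nat_lit 15) true (nat_lit 9) (.s true (nat_lit 3) (nat_lit 32) (nat_lit 2) (nat_lit 0) (nat_lit 6) true (nat_lit 3) true (nat_lit 9) true (nat_lit 0) true (nat_lit 13) true (nat_lit 15) (.s true (nat_lit 2) (nat_lit 31) (nat_lit 2) (nat_lit 2) (nat_lit 4) true (nat_lit 5) true (nat_lit 11) true (nat_lit 0) true (nat_lit 13) true (nat_lit 13) (.s false (nat_lit 2) (nat_lit 32) (nat_lit 2) (nat_lit 2) (nat_lit 4) true (nat_lit 5) true (nat_lit 11) true (nat_lit 0) true (nat_lit 13) true (nat_lit 13) (.s true (nat_lit 3) (nat_lit 31) (nat_lit 4) (nat_lit 2) (nat_lit 2) true (nat_lit 5) true (nat_lit 13) true (nat_lit 0) true (nat_lit 11) true (nat_lit 13) (.s false (nat_lit 2) (nat_lit 32) (nat_lit 4) (nat_lit 2) (nat_lit 2) true (nat_lit 5) true (nat_lit 13) true (nat_lit 0) true (nat_lit 11) true (nat_lit 13) (.s true (nat_lit 3)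 (nat_lit 33) (nat_lit 4) (nat_lit 2) (nat_lit 2) true (nat_lit 5) true (nat_lit 13) true (nat_lit 0) true (nat_lit 11) true (nat_lit 13) (.s true (nat_lit 1) (nat_lit 35) (nat_lit 4) (nat_lit 2) (nat_lit 2) true (nat_lit 5) true (nat_lit 13) true (nat_lit 0) true (nat_lit 11) true (nat_lit 13) (.s true (nat_lit 1) (nat_lit 40) (nat_lit 2) (nat_lit 1) (nat_lit 4) true (nat_lit 5) true (nat_lit 11) false (nat_lit 0) true (nat_lit 13) true (nat_lit 14) (.s true (nat_lit 3) (nat_lit 42) (nat_lit 3) (nat_lit 2) (nat_lit 2) true (nat_lit 6) true (nat_lit 13) false (nat_lit 0) true (nat_lit 12) true (nat_lit 13) (.s true (nat_lit 1) (nat_lit 40) (nat_lit 5) (nat_lit 2) (nat_lit 0) true (nat_lit 6) true (nat_lit 15) false (nat_lit 0) true (nat_lit 10) true (nat_lit 13) (.s false (nat_lit 1) (nat_lit 45) (nat_lit 6) (nat_lit 0) (nat_lit 0) true (nat_lit 5) true (nat_lit 15) false (nat_lit 1) true (nat_lit 9) true (nat_lit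 15) (.s false (nat_lit 2) (nat_lit 46) (nat_lit 0) (nat_lit 0) (nat_lit 5) true (nat_lit 6) true (nat_lit 10) false (nat_lit 2) true (nat_lit 15) true (nat_lit 15) (.s true (nat_lit 3) (nat_lit 46) (nat_lit 2) (nat_lit 3) (nat_lit 0) true (nat_lit 11) true (nat_lit 15) false (nat_lit 2) true (nat_lit 13) true (nat_lit 12) (.s false (nat_lit 3) (nat_lit 46) (nat_lit 5) (nat_lit 0) (nat_lit 0) true (nat_lit 6) true (nat_lit 15) false (nat_lit 2) true (nat_lit 10) true (nat_lit 15) (.s false (nat_lit 3) (nat_lit 59) (nat_lit 2) (nat_lit 2) (nat_lit 2) true (nat_lit 9) true (nat_lit 13) false (nat_lit 3) true (nat_lit 13) true (nat_lit 13) (.s true (nat_lit 3) (nat_lit 60) (nat_lit 2) (nat_lit 2) (nat_lit 2) true (nat_lit 9) true (nat_lit 13) false (nat_lit 3) true (nat_lit 13) true (nat_lit 13) (.s true (nat_lit 2) (nat_lit 61) (nat_lit 2) (nat_lit 2) (nat_lit 2) true (nat_lit 9) true (nat_lit 13) false (nat_lit 3)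 true (nat_lit 13) true (nat_lit 13) (.s false (nat_lit 1) (nat_lit 62) (nat_lit 2) (nat_lit 2) (nat_lit 2) true (nat_lit 9) true (nat_lit 13) false (nat_lit 3) true (nat_lit 13) true (nat_lit 13) (.s false (nat_lit 3) (nat_lit 64) (nat_lit 2) (nat_lit 2) (nat_lit 2) true (nat_lit 9) true (nat_lit 13) false (nat_lit 3) true (nat_lit 13) true (nat_lit 13) (.s false (nat_lit 1) (nat_lit 77) (nat_lit 1) (nat_lit 2) (nat_lit 2) true (nat_lit 10) true (nat_lit 13) false (nat_lit 4) true (nat_lit 14) true (nat_lit 13) (.s false (nat_lit 1) (nat_lit 78) (nat_lit 1) (nat_lit 2) (nat_lit 2) true (nat_lit 10) true (nat_lit 13) false (nat_lit 4) true (nat_lit 14) true (nat_lit 13) dC1d_i392)))))))))))))))))))))))))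

noncomputable def dC1d_i394 : IL := (.s false (nat_lit 3) (nat_lit 18) (nat_lit 0) (nat_lit 16) (nat_lit 0) false (nat_lit 16) true (nat_lit 15) true (nat_lit 3) true (nat_lit 15) true (nat_lit 4) (.s false (nat_lit 1) (nat_lit 18) (nat_lit 1) (nat_lit 9) (nat_lit 2) true (nat_lit 10) true (nat_lit 13) true (nat_lit 3) true (nat_lit 14) true (nat_lit 7) (.s true (nat_lit 2) (nat_lit 18) (nat_lit 1) (nat_lit 15) (nat_lit 0) true (nat_lit 12) true (nat_lit 15) true (nat_lit 3) true (nat_lit 14) true (nat_lit 5) (.s true (nat_lit 2) (nat_lit 18) (nat_lit 2) (nat_lit 2) (nat_lit 7) true (nat_lit 2) true (nat_lit 8) true (nat_lit 3) true (nat_lit 13) true (nat_lit 13) (.s true (nat_lit 1) (nat_lit 18) (nat_lit 2) (nat_lit 10) (nat_lit 0) true (nat_lit 11) true (nat_lit 15) true (nat_lit 3) true (nat_lit 13) true (nat_lit 6) (.s true (nat_lit 2) (nat_lit 18) (nat_lit 2) (nat_lit 11) (nat_lit 0) true (nat_lit 11) true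 (nat_lit 15) true (nat_lit 3) true (nat_lit 13) true (nat_lit 6) (.s false (nat_lit 3) (nat_lit 18) (nat_lit 4) (nat_lit 2) (nat_lit 3) true (nat_lit 2) true (nat_lit 12) true (nat_lit 3) true (nat_lit 11) true (nat_lit 13) (.s true (nat_lit 1) (nat_lit 18) (nat_lit 6) (nat_lit 3) (nat_lit 0) true (nat_lit 5) true (nat_lit 15) true (nat_lit 3) true (nat_lit 9) true (nat_lit 12) (.s false (nat_lit 2) (nat_lit 18) (nat_lit 7) (nat_lit 2) (nat_lit 2) true (nat_lit 2) true (nat_lit 13) true (nat_lit 3) true (nat_lit 8) true (nat_lit 13) (.s false (nat_lit 1) (nat_lit 18) (nat_lit 9) (nat_lit 2) (nat_lit 1) true (nat_lit 2) true (nat_lit 14) true (nat_lit 3) true (nat_lit 7) true (nat_lit 13) (.s true (nat_lit 3) (nat_lit 18) (nat_lit 11) (nat_lit 0) (nat_lit 2) true (nat_lit 0) true (nat_lit 13) true (nat_lit 3) true (nat_lit 6) true (nat_lit 15) (.s true (nat_lit 2) (nat_lit 18) (nat_lit 15) (nat_lit 1) (nat_lit 0)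 true (nat_lit 1) true (nat_lit 15) true (nat_lit 3) true (nat_lit 5) true (nat_lit 14) (.s true (nat_lit 1) (nat_lit 21) (nat_lit 2) (nat_lit 2) (nat_lit 6) true (nat_lit 3) true (nat_lit 9) true (nat_lit 2) true (nat_lit 13) true (nat_lit 13) (.s false (nat_lit 2) (nat_lit 22) (nat_lit 2) (nat_lit 2) (nat_lit 6) true (nat_lit 3) true (nat_lit 9) true (nat_lit 2) true (nat_lit 13) true (nat_lit 13) (.s false (nat_lit 2) (nat_lit 23) (nat_lit 2) (nat_lit 2) (nat_lit 6) true (nat_lit 3) true (nat_lit 9) true (nat_lit 2) true (nat_lit 13) true (nat_lit 13) (.s true (nat_lit 1) (nat_lit 21) (nat_lit 2) (nat_lit 6) (nat_lit 2) true (nat_lit 9) true (nat_lit 13) true (nat_lit 2) true (nat_lit 13) true (nat_lit 9) (.s false (nat_lit 2) (nat_lit 22) (nat_lit 2) (nat_lit 6) (nat_lit 2) true (nat_lit 9) true (nat_lit 13) true (nat_lit 2) true (nat_lit 13) true (nat_lit 9) (.s false (nat_lit 1) (nat_lit 21) (nat_lit 6) (nat_lit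 2) (nat_lit 2) true (nat_lit 3) true (nat_lit 13) true (nat_lit 2) true (nat_lit 9) true (nat_lit 13) (.s false (nat_lit 2) (nat_lit 22) (nat_lit 6) (nat_lit 2) (nat_lit 2) true (nat_lit 3) true (nat_lit 13) true (nat_lit 2) true (nat_lit 9) true (nat_lit 13) (.s true (nat_lit 1) (nat_lit 29) (nat_lit 1) (nat_lit 2) (nat_lit 6) true (nat_lit 4) true (nat_lit 9) true (nat_lit 1) true (nat_lit 14) true (nat_lit 13) (.s true (nat_lit 2) (nat_lit 28) (nat_lit 2) (nat_lit 1) (nat_lit 6) true (nat_lit 3) true (nat_lit 9) true (nat_lit 1) true (nat_lit 13) true (nat_lit 14) (.s true (nat_lit 2) (nat_lit 28) (nat_lit 2) (nat_lit 2) (nat_lit 5) true (nat_lit 4) true (nat_lit 10) true (nat_lit 1) true (nat_lit 13) true (nat_lit 13) (.s false (nat_lit 1) (nat_lit 29) (nat_lit 2) (nat_lit 2) (nat_lit 5) true (nat_lit 4) true (nat_lit 10) true (nat_lit 1) true (nat_lit 13) true (nat_lit 13) (.s false (nat_lit 1) (nat_lit 28)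 (nat_lit 2) (nat_lit 5) (nat_lit 2) true (nat_lit 9) true (nat_lit 13) true (nat_lit 1) true (nat_lit 13) true (nat_lit 10) (.s false (nat_lit 1) (nat_lit 30) (nat_lit 2) (nat_lit 6) (nat_lit 1) true (nat_lit 10) true (nat_lit 14) true (nat_lit 1) true (nat_lit 13) true (nat_lit 9) dC1d_i393)))))))))))))))))))))))))

noncomputable def dC1d_i395 : IL := (.e false (nat_lit 3) (nat_lit 301) (nat_lit 0) (nat_lit 19) (.e false (nat_lit 3) (nat_lit 303) (nat_lit 0) (nat_lit 19) (.e false (nat_lit 1) (nat_lit 304) (nat_lit 0) (nat_lit 19) (.e false (nat_lit 2) (nat_lit 308) (nat_lit 0) (nat_lit 19) (.e false (nat_lit 2) (nat_lit 309) (nat_lit 0) (nat_lit 19) (.e false (nat_lit 1) (nat_lit 310) (nat_lit 0) (nat_lit 19) (.e false (nat_lit 3) (nat_lit 311) (nat_lit 0) (nat_lit 19) (.e true (nat_lit 2) (nat_lit 314) (nat_lit 0) (nat_lit 19) (.e true (nat_lit 2) (nat_lit 315) (nat_lit 0) (nat_lit 19) (.e false (nat_lit 3) (nat_lit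 316) (nat_lit 0) (nat_lit 19) (.e true (nat_lit 2) (nat_lit 285) (nat_lit 1) (nat_lit 18) (.e true (nat_lit 3) (nat_lit 282) (nat_lit 1) (nat_lit 18) (.e false (nat_lit 2) (nat_lit 283) (nat_lit 1) (nat_lit 18) (.e false (nat_lit 3) (nat_lit 290) (nat_lit 0) (nat_lit 19) (.e true (nat_lit 1) (nat_lit 294) (nat_lit 0) (nat_lit 19) (.e false (nat_lit 2) (nat_lit 302) (nat_lit 0) (nat_lit 19) (.e false (nat_lit 1) (nat_lit 305) (nat_lit 0) (nat_lit 19) (.e true (nat_lit 1) (nat_lit 313) (nat_lit 0) (nat_lit 19) (.e true (nat_lit 2) (nat_lit 144) (nat_lit 5) (nat_lit 14) (.e true (nat_lit 3) (nat_lit 160) (nat_lit 4) (nat_lit 15) (.u (nat_lit 2) (.n (nat_lit 0) (nat_lit 3) (.p (nat_lit 2) (nat_lit 2) (.n (nat_lit 3) (nat_lit 1) (.n (nat_lit 4) (nat_lit 4) (.n (nat_lit 5) (nat_lit 2) (.n (nat_lit 6) (nat_lit 1) (.p (nat_lit 7) (nat_lit 1) (.p (nat_lit 8) (nat_lit 2) (.n (nat_lit 9) (nat_lit 1) (.n (nat_lit 10) (nat_lit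 2) (.p (nat_lit 11) (nat_lit 3) (.n (nat_lit 12) (nat_lit 1) (.p (nat_lit 15) (nat_lit 3) (.p (nat_lit 17) (nat_lit 1) (.p (nat_lit 20) (nat_lit 5) (.n (nat_lit 23) (nat_lit 1) (.n (nat_lit 24) (nat_lit 2) (.n (nat_lit 25) (nat_lit 2) (.n (nat_lit 26) (nat_lit 1) (.n (nat_lit 27) (nat_lit 3) (.n (nat_lit 28) (nat_lit 3) (.p (nat_lit 29) (nat_lit 3) (.n (nat_lit 31) (nat_lit 1) (.p (nat_lit 32) (nat_lit 1) (.n (nat_lit 34) (nat_lit 2) (.n (nat_lit 35) (nat_lit 2) (.p (nat_lit 36) (nat_lit 5) (.n (nat_lit 37) (nat_lit 1) (.n (nat_lit 38) (nat_lit 1) (.p (nat_lit 39) (nat_lit 1) (.n (nat_lit 41) (nat_lit 2) (.p (nat_lit 45) (nat_lit 1) (.n (nat_lit 46) (nat_lit 1) (.p (nat_lit 48) (nat_lit 1) (.n (nat_lit 49) (nat_lit 2) (.n (nat_lit 51) (nat_lit 1) (.p (nat_lit 52) (nat_lit 1) (.p (nat_lit 53) (nat_lit 1) (.n (nat_lit 54) (nat_lit 2) (.p (nat_lit 55) (nat_lit 2) (.p (nat_lit 56) (nat_lit 1) (.p (nat_lit 57) (nat_lit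 1) (.n (nat_lit 58) (nat_lit 1) (.n (nat_lit 61) (nat_lit 1) (.n (nat_lit 62) (nat_lit 1) (.p (nat_lit 63) (nat_lit 1) (.n (nat_lit 64) (nat_lit 1) (.n (nat_lit 67) (nat_lit 1) (.n (nat_lit 69) (nat_lit 2) (.p (nat_lit 71) (nat_lit 2) (.p (nat_lit 72) (nat_lit 2) (.n (nat_lit 73) (nat_lit 1) (.n (nat_lit 75) (nat_lit 1) (.p (nat_lit 76) (nat_lit 1) (.p (nat_lit 77) (nat_lit 2) (.p (nat_lit 78) (nat_lit 2) (.n (nat_lit 81) (nat_lit 1) (.p (nat_lit 82) (nat_lit 1) (.n (nat_lit 83) (nat_lit 1) (.n (nat_lit 84) (nat_lit 1) .z)))))))))))))))))))))))))))))))))))))))))))))))))))))))))))) (.u (nat_lit 2) (.n (nat_lit 89) (nat_lit 1) (.p (nat_lit 93) (nat_lit 1) (.n (nat_lit 95) (nat_lit 1) (.p (nat_lit 98) (nat_lit 1) (.p (nat_lit 101) (nat_lit 1) (.n (nat_lit 123) (nat_lit 1) (.n (nat_lit 124) (nat_lit 1) (.p (nat_lit 126) (nat_lit 1) (.p (nat_lit 127) (nat_lit 1) (.n (nat_lit 133) (nat_lit 1) (.p (nat_lit 146) (nat_lit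 1) (.n (nat_lit 148) (nat_lit 1) (.n (nat_lit 150) (nat_lit 1) (.n (nat_lit 153) (nat_lit 2) (.n (nat_lit 154) (nat_lit 1) (.p (nat_lit 155) (nat_lit 1) (.p (nat_lit 157) (nat_lit 1) (.p (nat_lit 158) (nat_lit 1) (.p (nat_lit 159) (nat_lit 2) (.n (nat_lit 161) (nat_lit 1) (.p (nat_lit 162) (nat_lit 1) (.n (nat_lit 164) (nat_lit 2) (.n (nat_lit 165) (nat_lit 2) (.p (nat_lit 169) (nat_lit 3) (.n (nat_lit 171) (nat_lit 1) (.n (nat_lit 173) (nat_lit 1) (.p (nat_lit 177) (nat_lit 1) (.n (nat_lit 181) (nat_lit 1) (.p (nat_lit 185) (nat_lit 1) (.p (nat_lit 194) (nat_lit 1) (.n (nat_lit 195) (nat_lit 1) (.n (nat_lit 197) (nat_lit 1) (.n (nat_lit 198) (nat_lit 1) (.n (nat_lit 210) (nat_lit 1) (.n (nat_lit 212) (nat_lit 1) (.n (nat_lit 214) (nat_lit 1) (.p (nat_lit 231) (nat_lit 1) (.n (nat_lit 238) (nat_lit 1) (.n (nat_lit 240) (nat_lit 1) (.p (nat_lit 245) (nat_lit 1) (.n (nat_lit 247) (nat_lit 1) (.n (nat_lit 249) (nat_lit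 3) (.n (nat_lit 250) (nat_lit 1) (.p (nat_lit 251) (nat_lit 2) (.p (nat_lit 256) (nat_lit 1) (.n (nat_lit 257) (nat_lit 2) (.n (nat_lit 258) (nat_lit 1) (.p (nat_lit 260) (nat_lit 1) (.n (nat_lit 261) (nat_lit 1) (.n (nat_lit 262) (nat_lit 1) (.p (nat_lit 266) (nat_lit 1) (.n (nat_lit 270) (nat_lit 1) (.p (nat_lit 272) (nat_lit 1) (.p (nat_lit 273) (nat_lit 1) (.n (nat_lit 274) (nat_lit 1) (.n (nat_lit 275) (nat_lit 1) (.n (nat_lit 276) (nat_lit 1) (.p (nat_lit 278) (nat_lit 1) (.n (nat_lit 279) (nat_lit 1) (.p (nat_lit 280) (nat_lit 1) .z)))))))))))))))))))))))))))))))))))))))))))))))))))))))))))) (.u (nat_lit 2) (.n (nat_lit 282) (nat_lit 1) (.n (nat_lit 285) (nat_lit 1) (.p (nat_lit 287) (nat_lit 1) (.n (nat_lit 289) (nat_lit 1) (.n (nat_lit 291) (nat_lit 2) (.n (nat_lit 292) (nat_lit 1) (.n (nat_lit 294) (nat_lit 3) (.p (nat_lit 295) (nat_lit 1) (.p (nat_lit 297) (nat_lit 1) (.n (nat_lit 301) (nat_lit 1) (.p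 (nat_lit 304) (nat_lit 1) (.p (nat_lit 307) (nat_lit 1) (.n (nat_lit 310) (nat_lit 1) (.p (nat_lit 313) (nat_lit 2) (.p (nat_lit 314) (nat_lit 1) (.n (nat_lit 315) (nat_lit 2) (.p (nat_lit 317) (nat_lit 2) (.p (nat_lit 318) (nat_lit 1) (.p (nat_lit 319) (nat_lit 1) (.n (nat_lit 321) (nat_lit 2) (.n (nat_lit 323) (nat_lit 1) (.p (nat_lit 325) (nat_lit 1) (.p (nat_lit 327) (nat_lit 9) (.p (nat_lit 328) (nat_lit 9) (.n (nat_lit 329) (nat_lit 20) (.n (nat_lit 330) (nat_lit 53) (.n (nat_lit 331) (nat_lit 11) (.n (nat_lit 332) (nat_lit 29) (.n (nat_lit 333) (nat_lit 33) (.n (nat_lit 334) (nat_lit 21) (.n (nat_lit 335) (nat_lit 27) (.p (nat_lit 336) (nat_lit 29) (.p (nat_lit 337) (nat_lit 17) (.p (nat_lit 338) (nat_lit 26) (.p (nat_lit 339) (nat_lit 12) (.p (nat_lit 340) (nat_lit 1) (.n (nat_lit 341) (nat_lit 1) (.n (nat_lit 342) (nat_lit 6) (.p (nat_lit 343) (nat_lit 10) (.p (nat_lit 344) (nat_lit 4) (.n (nat_lit 345)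 (nat_lit 14) (.n (nat_lit 346) (nat_lit 6) (.n (nat_lit 347) (nat_lit 38) (.p (nat_lit 348) (nat_lit 6) (.n (nat_lit 350) (nat_lit 21) (.n (nat_lit 351) (nat_lit 32) (.p (nat_lit 352) (nat_lit 35) (.n (nat_lit 353) (nat_lit 7) (.n (nat_lit 354) (nat_lit 43) (.n (nat_lit 355) (nat_lit 42) (.n (nat_lit 356) (nat_lit 2) (.p (nat_lit 357) (nat_lit 8) (.p (nat_lit 358) (nat_lit 28) (.n (nat_lit 359) (nat_lit 20) (.n (nat_lit 360) (nat_lit 15) (.n (nat_lit 361) (nat_lit 17) (.p (nat_lit 362) (nat_lit 10) (.n (nat_lit 363) (nat_lit 9) (.n (nat_lit 364) (nat_lit 16) (.n (nat_lit 365) (nat_lit 7) .z)))))))))))))))))))))))))))))))))))))))))))))))))))))))))))) (.u (nat_lit 2) (.n (nat_lit 366) (nat_lit 10) (.n (nat_lit 367) (nat_lit 2) (.p (nat_lit 368) (nat_lit 11) (.p (nat_lit 369) (nat_lit 7) (.n (nat_lit 370) (nat_lit 2) (.n (nat_lit 371) (nat_lit 1) (.p (nat_lit 372) (nat_lit 6) (.p (nat_lit 373) (nat_lit 7) (.n (nat_lit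 374) (nat_lit 4) (.n (nat_lit 375) (nat_lit 17) (.p (nat_lit 376) (nat_lit 9) (.p (nat_lit 377) (nat_lit 5) (.p (nat_lit 378) (nat_lit 7) (.n (nat_lit 379) (nat_lit 8) (.n (nat_lit 380) (nat_lit 8) (.n (nat_lit 381) (nat_lit 8) (.n (nat_lit 382) (nat_lit 13) (.p (nat_lit 383) (nat_lit 6) (.p (nat_lit 384) (nat_lit 12) (.n (nat_lit 385) (nat_lit 8) (.n (nat_lit 386) (nat_lit 8) (.p (nat_lit 387) (nat_lit 19) (.p (nat_lit 388) (nat_lit 17) (.n (nat_lit 389) (nat_lit 25) (.p (nat_lit 390) (nat_lit 3) (.n (nat_lit 391) (nat_lit 5) (.p (nat_lit 392) (nat_lit 14) (.p (nat_lit 393) (nat_lit 16) (.n (nat_lit 394) (nat_lit 2) (.p (nat_lit 395) (nat_lit 2) (.n (nat_lit 396) (nat_lit 5) (.p (nat_lit 397) (nat_lit 10) (.n (nat_lit 398) (nat_lit 1) (.p (nat_lit 399) (nat_lit 4) (.n (nat_lit 400) (nat_lit 1) (.p (nat_lit 401) (nat_lit 5) (.p (nat_lit 402) (nat_lit 11) (.n (nat_lit 403) (nat_lit 15) (.n (nat_lit 404) (nat_lit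 5) (.n (nat_lit 405) (nat_lit 11) (.n (nat_lit 406) (nat_lit 1) (.p (nat_lit 407) (nat_lit 9) (.p (nat_lit 408) (nat_lit 14) (.n (nat_lit 409) (nat_lit 9) (.p (nat_lit 410) (nat_lit 9) (.n (nat_lit 411) (nat_lit 4) (.n (nat_lit 413) (nat_lit 1) (.n (nat_lit 414) (nat_lit 11) (.n (nat_lit 415) (nat_lit 7) (.n (nat_lit 416) (nat_lit 12) (.n (nat_lit 417) (nat_lit 31) (.n (nat_lit 418) (nat_lit 1) (.n (nat_lit 419) (nat_lit 7) (.n (nat_lit 420) (nat_lit 15) (.n (nat_lit 421) (nat_lit 4) (.n (nat_lit 422) (nat_lit 15) (.p (nat_lit 424) (nat_lit 6) (.n (nat_lit 425) (nat_lit 3) (.n (nat_lit 426) (nat_lit 17) (.n (nat_lit 427) (nat_lit 13) .z)))))))))))))))))))))))))))))))))))))))))))))))))))))))))))) (.u (nat_lit 2) (.p (nat_lit 428) (nat_lit 10) (.n (nat_lit 429) (nat_lit 6) (.p (nat_lit 430) (nat_lit 1) (.p (nat_lit 431) (nat_lit 3) (.p (nat_lit 432) (nat_lit 16) (.p (nat_lit 434) (nat_lit 20) .z)))))) .nil)))))))))))))))))))))))))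

noncomputable def dC1d_i396 : IL := (.e true (nat_lit 3) (nat_lit 261) (nat_lit 1) (nat_lit 18) (.e false (nat_lit 2) (nat_lit 264) (nat_lit 1) (nat_lit 18) (.e true (nat_lit 1) (nat_lit 267) (nat_lit 1) (nat_lit 18) (.e true (nat_lit 1) (nat_lit 269) (nat_lit 1) (nat_lit 18) (.e true (nat_lit 3) (nat_lit 271) (nat_lit 1) (nat_lit 18) (.e true (nat_lit 2) (nat_lit 272) (nat_lit 1) (nat_lit 18) (.e false (nat_lit 1) (nat_lit 278) (nat_lit 1) (nat_lit 18) (.e false (nat_lit 2) (nat_lit 279) (nat_lit 1) (nat_lit 18) (.e false (nat_lit 1) (nat_lit 260) (nat_lit 1) (nat_lit 18) (.e true (nat_lit 3) (nat_lit 274) (nat_lit 1) (nat_lit 18) (.e false (nat_lit 3) (nat_lit 265) (nat_lit 1) (nat_lit 18) (.e false (nat_lit 1) (nat_lit 263) (nat_lit 1) (nat_lit 18) (.e true (nat_lit 3) (nat_lit 281) (nat_lit 1) (nat_lit 18) (.e true (nat_lit 3) (nat_lit 251) (nat_lit 2) (nat_lit 17) (.e true (nat_lit 3) (nat_lit 252) (nat_lit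 2) (nat_lit 17) (.e false (nat_lit 3) (nat_lit 259) (nat_lit 2) (nat_lit 17) (.e false (nat_lit 3) (nat_lit 77) (nat_lit 13) (nat_lit 8) (.e true (nat_lit 2) (nat_lit 78) (nat_lit 13) (nat_lit 8) (.e false (nat_lit 2) (nat_lit 291) (nat_lit 0) (nat_lit 19) (.e true (nat_lit 1) (nat_lit 293) (nat_lit 0) (nat_lit 19) (.e false (nat_lit 2) (nat_lit 296) (nat_lit 0) (nat_lit 19) (.e false (nat_lit 1) (nat_lit 297) (nat_lit 0) (nat_lit 19) (.e false (nat_lit 3) (nat_lit 298) (nat_lit 0) (nat_lit 19) (.e false (nat_lit 2) (nat_lit 299) (nat_lit 0) (nat_lit 19) (.e true (nat_lit 1) (nat_lit 300) (nat_lit 0) (nat_lit 19) dC1d_i395)))))))))))))))))))))))))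

noncomputable def dC1d_i397 : IL := (.e true (nat_lit 1) (nat_lit 213) (nat_lit 2) (nat_lit 17) (.e true (nat_lit 2) (nat_lit 216) (nat_lit 2) (nat_lit 17) (.e false (nat_lit 3) (nat_lit 217) (nat_lit 2) (nat_lit 17) (.e false (nat_lit 3) (nat_lit 221) (nat_lit 2) (nat_lit 17) (.e false (nat_lit 1) (nat_lit 223) (nat_lit 2) (nat_lit 17) (.e false (nat_lit 2) (nat_lit 224) (nat_lit 2) (nat_lit 17) (.e true (nat_lit 1) (nat_lit 225) (nat_lit 2) (nat_lit 17) (.e false (nat_lit 1) (nat_lit 227) (nat_lit 2) (nat_lit 17) (.e true (nat_lit 3) (nat_lit 228) (nat_lit 2) (nat_lit 17) (.e true (nat_lit 1) (nat_lit 233) (nat_lit 2) (nat_lit 17) (.e false (nat_lit 3) (nat_lit 235) (nat_lit 2) (nat_lit 17) (.e false (nat_lit 1) (nat_lit 236) (nat_lit 2) (nat_lit 17) (.e true (nat_lit 3) (nat_lit 239) (nat_lit 2) (nat_lit 17) (.e true (nat_lit 3) (nat_lit 242) (nat_lit 2) (nat_lit 17) (.e false (nat_lit 3) (nat_lit 244) (nat_lit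 2) (nat_lit 17) (.e false (nat_lit 3) (nat_lit 246) (nat_lit 2) (nat_lit 17) (.e true (nat_lit 3) (nat_lit 247) (nat_lit 2) (nat_lit 17) (.e false (nat_lit 3) (nat_lit 248) (nat_lit 2) (nat_lit 17) (.e false (nat_lit 3) (nat_lit 212) (nat_lit 2) (nat_lit 17) (.e true (nat_lit 1) (nat_lit 234) (nat_lit 2) (nat_lit 17) (.e false (nat_lit 3) (nat_lit 232) (nat_lit 2) (nat_lit 17) (.e true (nat_lit 1) (nat_lit 249) (nat_lit 2) (nat_lit 17) (.e false (nat_lit 2) (nat_lit 307) (nat_lit 0) (nat_lit 19) (.e true (nat_lit 2) (nat_lit 143) (nat_lit 5) (nat_lit 14) (.e false (nat_lit 1) (nat_lit 139) (nat_lit 5) (nat_lit 14) dC1d_i396)))))))))))))))))))))))))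

noncomputable def dC1d_i398 : IL := (.s false (nat_lit 2) (nat_lit 103) (nat_lit 0) (nat_lit 0) (nat_lit 1) true (nat_lit 16) true (nat_lit 18) false (nat_lit 12) true (nat_lit 19) true (nat_lit 19) (.s true (nat_lit 2) (nat_lit 104) (nat_lit 0) (nat_lit 0) (nat_lit 1) true (nat_lit 16) true (nat_lit 18) false (nat_lit 12) true (nat_lit 19) true (nat_lit 19) (.s true (nat_lit 3) (nat_lit 105) (nat_lit 0) (nat_lit 0) (nat_lit 1) true (nat_lit 16) true (nat_lit 18) false (nat_lit 12) true (nat_lit 19) true (nat_lit 19) (.s true (nat_lit 3) (nat_lit 102) (nat_lit 0) (nat_lit 1) (nat_lit 0) false (nat_lit 20) true (nat_lit 19) false (nat_lit 12) true (nat_lit 19) true (nat_lit 18) (.s true (nat_lit 2) (nat_lit 103) (nat_lit 0) (nat_lit 1) (nat_lit 0) false (nat_lit 20) true (nat_lit 19) false (nat_lit 12) true (nat_lit 19) true (nat_lit 18) (.s true (nat_lit 2) (nat_lit 105) (nat_lit 0) (nat_lit 1) (nat_lit 0) false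 (nat_lit 20) true (nat_lit 19) false (nat_lit 12) true (nat_lit 19) true (nat_lit 18) (.a false (nat_lit 1) (nat_lit 32) (nat_lit 33) (nat_lit 0) (nat_lit 0) (.a false (nat_lit 3) (nat_lit 33) (nat_lit 33) (nat_lit 0) (nat_lit 0) (.a false (nat_lit 2) (nat_lit 34) (nat_lit 34) (nat_lit 0) (nat_lit 0) (.a true (nat_lit 1) (nat_lit 34) (nat_lit 35) (nat_lit 0) (nat_lit 0) (.a false (nat_lit 2) (nat_lit 35) (nat_lit 35) (nat_lit 0) (nat_lit 0) (.a true (nat_lit 3) (nat_lit 31) (nat_lit 32) (nat_lit 0) (nat_lit 0) (.a false (nat_lit 1) (nat_lit 31) (nat_lit 33) (nat_lit 0) (nat_lit 0) (.a false (nat_lit 1) (nat_lit 31) (nat_lit 34) (nat_lit 0) (nat_lit 0) (.a true (nat_lit 2) (nat_lit 31) (nat_lit 35) (nat_lit 0) (nat_lit 0) (.a true (nat_lit 1) (nat_lit 31) (nat_lit 36) (nat_lit 0) (nat_lit 0) (.a true (nat_lit 3) (nat_lit 32) (nat_lit 32) (nat_lit 0) (nat_lit 0) (.a true (nat_lit 3) (nat_lit 32) (nat_lit 34) (nat_lit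 0) (nat_lit 0) (.a true (nat_lit 3) (nat_lit 32) (nat_lit 35) (nat_lit 0) (nat_lit 0) (.a false (nat_lit 3) (nat_lit 32) (nat_lit 36) (nat_lit 0) (nat_lit 0) (.a false (nat_lit 3) (nat_lit 33) (nat_lit 34) (nat_lit 0) (nat_lit 0) (.a false (nat_lit 3) (nat_lit 33) (nat_lit 35) (nat_lit 0) (nat_lit 0) (.a true (nat_lit 3) (nat_lit 33) (nat_lit 36) (nat_lit 0) (nat_lit 0) (.a true (nat_lit 3) (nat_lit 34) (nat_lit 36) (nat_lit 0) (nat_lit 0) (.a true (nat_lit 3) (nat_lit 35) (nat_lit 36) (nat_lit 0) (nat_lit 0) dC1d_i397)))))))))))))))))))))))))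

noncomputable def dC1d_i399 : IL := (.s false (nat_lit 1) (nat_lit 92) (nat_lit 0) (nat_lit 2) (nat_lit 1) true (nat_lit 16) true (nat_lit 18) false (nat_lit 9) true (nat_lit 19) true (nat_lit 17) (.s true (nat_lit 3) (nat_lit 83) (nat_lit 1) (nat_lit 0) (nat_lit 2) true (nat_lit 14) true (nat_lit 17) false (nat_lit 9) true (nat_lit 18) true (nat_lit 19) (.s true (nat_lit 1) (nat_lit 82) (nat_lit 1) (nat_lit 2) (nat_lit 0) true (nat_lit 16) true (nat_lit 19) false (nat_lit 9) true (nat_lit 18) true (nat_lit 17) (.s false (nat_lit 1) (nat_lit 83) (nat_lit 1) (nat_lit 2) (nat_lit 0) true (nat_lit 16) true (nat_lit 19) false (nat_lit 9) true (nat_lit 18) true (nat_lit 17) (.s true (nat_lit 3) (nat_lit 84) (nat_lit 1) (nat_lit 2) (nat_lit 0) true (nat_lit 16) true (nat_lit 19) false (nat_lit 9) true (nat_lit 18) true (nat_lit 17) (.s true (nat_lit 3) (nat_lit 88) (nat_lit 1) (nat_lit 2) (nat_lit 0) true (nat_lit 16)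 true (nat_lit 19) false (nat_lit 9) true (nat_lit 18) true (nat_lit 17) (.s true (nat_lit 3) (nat_lit 89) (nat_lit 1) (nat_lit 2) (nat_lit 0) true (nat_lit 16) true (nat_lit 19) false (nat_lit 9) true (nat_lit 18) true (nat_lit 17) (.s false (nat_lit 3) (nat_lit 90) (nat_lit 1) (nat_lit 2) (nat_lit 0) true (nat_lit 16) true (nat_lit 19) false (nat_lit 9) true (nat_lit 18) true (nat_lit 17) (.s true (nat_lit 2) (nat_lit 91) (nat_lit 1) (nat_lit 2) (nat_lit 0) true (nat_lit 16) true (nat_lit 19) false (nat_lit 9) true (nat_lit 18) true (nat_lit 17) (.s true (nat_lit 3) (nat_lit 92) (nat_lit 1) (nat_lit 2) (nat_lit 0) true (nat_lit 16) true (nat_lit 19) false (nat_lit 9) true (nat_lit 18) true (nat_lit 17) (.s false (nat_lit 1) (nat_lit 85) (nat_lit 2) (nat_lit 0) (nat_lit 1) true (nat_lit 14) true (nat_lit 18) false (nat_lit 9) true (nat_lit 17) true (nat_lit 19) (.s false (nat_lit 1) (nat_lit 83) (nat_lit 2) (nat_lit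 1) (nat_lit 0) true (nat_lit 15) true (nat_lit 19) false (nat_lit 9) true (nat_lit 17) true (nat_lit 18) (.s false (nat_lit 3) (nat_lit 90) (nat_lit 2) (nat_lit 1) (nat_lit 0) true (nat_lit 15) true (nat_lit 19) false (nat_lit 9) true (nat_lit 17) true (nat_lit 18) (.s true (nat_lit 2) (nat_lit 91) (nat_lit 2) (nat_lit 1) (nat_lit 0) true (nat_lit 15) true (nat_lit 19) false (nat_lit 9) true (nat_lit 17) true (nat_lit 18) (.s false (nat_lit 3) (nat_lit 93) (nat_lit 0) (nat_lit 2) (nat_lit 0) false (nat_lit 20) true (nat_lit 19) false (nat_lit 10) true (nat_lit 19) true (nat_lit 17) (.s false (nat_lit 2) (nat_lit 94) (nat_lit 0) (nat_lit 2) (nat_lit 0) false (nat_lit 20) true (nat_lit 19) false (nat_lit 10) true (nat_lit 19) true (nat_lit 17) (.s true (nat_lit 2) (nat_lit 95) (nat_lit 0) (nat_lit 2) (nat_lit 0) false (nat_lit 20) true (nat_lit 19) false (nat_lit 10) true (nat_lit 19) true (nat_lit 17) (.s false (nat_lit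 1) (nat_lit 96) (nat_lit 0) (nat_lit 2) (nat_lit 0) false (nat_lit 20) true (nat_lit 19) false (nat_lit 10) true (nat_lit 19) true (nat_lit 17) (.s false (nat_lit 1) (nat_lit 97) (nat_lit 0) (nat_lit 2) (nat_lit 0) false (nat_lit 20) true (nat_lit 19) false (nat_lit 10) true (nat_lit 19) true (nat_lit 17) (.s true (nat_lit 2) (nat_lit 98) (nat_lit 0) (nat_lit 1) (nat_lit 1) true (nat_lit 16) true (nat_lit 18) false (nat_lit 11) true (nat_lit 19) true (nat_lit 18) (.s true (nat_lit 3) (nat_lit 99) (nat_lit 1) (nat_lit 0) (nat_lit 1) false (nat_lit 21) true (nat_lit 18) false (nat_lit 11) true (nat_lit 18) true (nat_lit 19) (.s false (nat_lit 1) (nat_lit 100) (nat_lit 1) (nat_lit 0) (nat_lit 1) false (nat_lit 21) true (nat_lit 18) false (nat_lit 11) true (nat_lit 18) true (nat_lit 19) (.s false (nat_lit 3) (nat_lit 101) (nat_lit 1) (nat_lit 0) (nat_lit 1) false (nat_lit 21) true (nat_lit 18) false (nat_lit 11) true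 (nat_lit 18) true (nat_lit 19) (.s true (nat_lit 2) (nat_lit 98) (nat_lit 1) (nat_lit 1) (nat_lit 0) true (nat_lit 16) true (nat_lit 19) false (nat_lit 11) true (nat_lit 18) true (nat_lit 18) (.s true (nat_lit 2) (nat_lit 101) (nat_lit 1) (nat_lit 1) (nat_lit 0) true (nat_lit 16) true (nat_lit 19) false (nat_lit 11) true (nat_lit 18) true (nat_lit 18) dC1d_i398)))))))))))))))))))))))))

noncomputable def dC1d_i400 : IL := (.s true (nat_lit 3) (nat_lit 69) (nat_lit 2) (nat_lit 2) (nat_lit 0) true (nat_lit 15) true (nat_lit 19) false (nat_lit 7) true (nat_lit 17) true (nat_lit 17) (.s true (nat_lit 3) (nat_lit 70) (nat_lit 2) (nat_lit 2) (nat_lit 0) true (nat_lit 15) true (nat_lit 19) false (nat_lit 7) true (nat_lit 17) true (nat_lit 17) (.s false (nat_lit 3) (nat_lit 72) (nat_lit 2) (nat_lit 2) (nat_lit 0) true (nat_lit 15) true (nat_lit 19) false (nat_lit 7) true (nat_lit 17) true (nat_lit 17) (.s false (nat_lit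 1) (nat_lit 73) (nat_lit 2) (nat_lit 2) (nat_lit 0) true (nat_lit 15) true (nat_lit 19) false (nat_lit 7) true (nat_lit 17) true (nat_lit 17) (.s true (nat_lit 2) (nat_lit 75) (nat_lit 2) (nat_lit 2) (nat_lit 0) true (nat_lit 15) true (nat_lit 19) false (nat_lit 7) true (nat_lit 17) true (nat_lit 17) (.s false (nat_lit 3) (nat_lit 76) (nat_lit 2) (nat_lit 2) (nat_lit 0) true (nat_lit 15) true (nat_lit 19) false (nat_lit 7) true (nat_lit 17) true (nat_lit 17) (.s false (nat_lit 3) (nat_lit 77) (nat_lit 1) (nat_lit 1) (nat_lit 2) true (nat_lit 14) true (nat_lit 17) false (nat_lit 8) true (nat_lit 18) true (nat_lit 18) (.s true (nat_lit 1) (nat_lit 78) (nat_lit 1) (nat_lit 1) (nat_lit 2) true (nat_lit 14) true (nat_lit 17) false (nat_lit 8) true (nat_lit 18) true (nat_lit 18) (.s true (nat_lit 3) (nat_lit 79) (nat_lit 1) (nat_lit 1) (nat_lit 2) true (nat_lit 14) true (nat_lit 17) false (nat_lit 8) true (nat_lit 18)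 true (nat_lit 18) (.s true (nat_lit 1) (nat_lit 80) (nat_lit 1) (nat_lit 1) (nat_lit 2) true (nat_lit 14) true (nat_lit 17) false (nat_lit 8) true (nat_lit 18) true (nat_lit 18) (.s true (nat_lit 1) (nat_lit 81) (nat_lit 1) (nat_lit 1) (nat_lit 2) true (nat_lit 14) true (nat_lit 17) false (nat_lit 8) true (nat_lit 18) true (nat_lit 18) (.s true (nat_lit 3) (nat_lit 79) (nat_lit 1) (nat_lit 2) (nat_lit 1) false (nat_lit 21) true (nat_lit 18) false (nat_lit 8) true (nat_lit 18) true (nat_lit 17) (.s true (nat_lit 3) (nat_lit 81) (nat_lit 1) (nat_lit 2) (nat_lit 1) false (nat_lit 21) true (nat_lit 18) false (nat_lit 8) true (nat_lit 18) true (nat_lit 17) (.s false (nat_lit 3) (nat_lit 80) (nat_lit 2) (nat_lit 1) (nat_lit 1) true (nat_lit 14) true (nat_lit 18) false (nat_lit 8) true (nat_lit 17) true (nat_lit 18) (.s true (nat_lit 3) (nat_lit 82) (nat_lit 0) (nat_lit 1) (nat_lit 2) true (nat_lit 15) true (nat_lit 17)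 false (nat_lit 9) true (nat_lit 19) true (nat_lit 18) (.s true (nat_lit 1) (nat_lit 83) (nat_lit 0) (nat_lit 1) (nat_lit 2) true (nat_lit 15) true (nat_lit 17) false (nat_lit 9) true (nat_lit 19) true (nat_lit 18) (.s false (nat_lit 1) (nat_lit 90) (nat_lit 0) (nat_lit 1) (nat_lit 2) true (nat_lit 15) true (nat_lit 17) false (nat_lit 9) true (nat_lit 19) true (nat_lit 18) (.s true (nat_lit 3) (nat_lit 83) (nat_lit 0) (nat_lit 2) (nat_lit 1) true (nat_lit 16) true (nat_lit 18) false (nat_lit 9) true (nat_lit 19) true (nat_lit 17) (.s false (nat_lit 1) (nat_lit 84) (nat_lit 0) (nat_lit 2) (nat_lit 1) true (nat_lit 16) true (nat_lit 18) false (nat_lit 9) true (nat_lit 19) true (nat_lit 17) (.s true (nat_lit 3) (nat_lit 85) (nat_lit 0) (nat_lit 2) (nat_lit 1) true (nat_lit 16) true (nat_lit 18) false (nat_lit 9) true (nat_lit 19) true (nat_lit 17) (.s true (nat_lit 3) (nat_lit 86) (nat_lit 0) (nat_lit 2) (nat_lit 1)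 true (nat_lit 16) true (nat_lit 18) false (nat_lit 9) true (nat_lit 19) true (nat_lit 17) (.s true (nat_lit 2) (nat_lit 87) (nat_lit 0) (nat_lit 2) (nat_lit 1) true (nat_lit 16) true (nat_lit 18) false (nat_lit 9) true (nat_lit 19) true (nat_lit 17) (.s false (nat_lit 1) (nat_lit 88) (nat_lit 0) (nat_lit 2) (nat_lit 1) true (nat_lit 16) true (nat_lit 18) false (nat_lit 9) true (nat_lit 19) true (nat_lit 17) (.s true (nat_lit 1) (nat_lit 90) (nat_lit 0) (nat_lit 2) (nat_lit 1) true (nat_lit 16) true (nat_lit 18) false (nat_lit 9) true (nat_lit 19) true (nat_lit 17) (.s true (nat_lit 2) (nat_lit 91) (nat_lit 0) (nat_lit 2) (nat_lit 1) true (nat_lit 16) true (nat_lit 18) false (nat_lit 9) true (nat_lit 19) true (nat_lit 17) dC1d_i399)))))))))))))))))))))))))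

noncomputable def dC1d_i401 : IL := (.s false (nat_lit 3) (nat_lit 57) (nat_lit 2) (nat_lit 1) (nat_lit 2) true (nat_lit 13) true (nat_lit 17) false (nat_lit 6) true (nat_lit 17) true (nat_lit 18) (.s false (nat_lit 3) (nat_lit 58) (nat_lit 2) (nat_lit 1) (nat_lit 2) true (nat_lit 13) true (nat_lit 17) false (nat_lit 6) true (nat_lit 17) true (nat_lit 18) (.s false (nat_lit 2) (nat_lit 59) (nat_lit 2) (nat_lit 1) (nat_lit 2) true (nat_lit 13) true (nat_lit 17) false (nat_lit 6) true (nat_lit 17) true (nat_lit 18) (.s false (nat_lit 2) (nat_lit 61) (nat_lit 2) (nat_lit 1) (nat_lit 2) true (nat_lit 13) true (nat_lit 17) false (nat_lit 6) true (nat_lit 17) true (nat_lit 18) (.s true (nat_lit 1) (nat_lit 63) (nat_lit 2) (nat_lit 1) (nat_lit 2) true (nat_lit 13) true (nat_lit 17) false (nat_lit 6) true (nat_lit 17) true (nat_lit 18) (.s true (nat_lit 2) (nat_lit 65) (nat_lit 2) (nat_lit 1) (nat_lit 2) true (nat_lit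 13) true (nat_lit 17) false (nat_lit 6) true (nat_lit 17) true (nat_lit 18) (.s true (nat_lit 1) (nat_lit 55) (nat_lit 2) (nat_lit 2) (nat_lit 1) true (nat_lit 14) true (nat_lit 18) false (nat_lit 6) true (nat_lit 17) true (nat_lit 17) (.s true (nat_lit 2) (nat_lit 56) (nat_lit 2) (nat_lit 2) (nat_lit 1) true (nat_lit 14) true (nat_lit 18) false (nat_lit 6) true (nat_lit 17) true (nat_lit 17) (.s false (nat_lit 2) (nat_lit 57) (nat_lit 2) (nat_lit 2) (nat_lit 1) true (nat_lit 14) true (nat_lit 18) false (nat_lit 6) true (nat_lit 17) true (nat_lit 17) (.s false (nat_lit 3) (nat_lit 58) (nat_lit 2) (nat_lit 2) (nat_lit 1) true (nat_lit 14) true (nat_lit 18) false (nat_lit 6) true (nat_lit 17) true (nat_lit 17) (.s true (nat_lit 1) (nat_lit 59) (nat_lit 2) (nat_lit 2) (nat_lit 1) true (nat_lit 14) true (nat_lit 18) false (nat_lit 6) true (nat_lit 17) true (nat_lit 17) (.s false (nat_lit 1) (nat_lit 61) (nat_lit 2)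 (nat_lit 2) (nat_lit 1) true (nat_lit 14) true (nat_lit 18) false (nat_lit 6) true (nat_lit 17) true (nat_lit 17) (.s true (nat_lit 2) (nat_lit 62) (nat_lit 2) (nat_lit 2) (nat_lit 1) true (nat_lit 14) true (nat_lit 18) false (nat_lit 6) true (nat_lit 17) true (nat_lit 17) (.s false (nat_lit 1) (nat_lit 63) (nat_lit 2) (nat_lit 2) (nat_lit 1) true (nat_lit 14) true (nat_lit 18) false (nat_lit 6) true (nat_lit 17) true (nat_lit 17) (.s true (nat_lit 1) (nat_lit 65) (nat_lit 2) (nat_lit 2) (nat_lit 1) true (nat_lit 14) true (nat_lit 18) false (nat_lit 6) true (nat_lit 17) true (nat_lit 17) (.s false (nat_lit 2) (nat_lit 67) (nat_lit 0) (nat_lit 2) (nat_lit 2) true (nat_lit 15) true (nat_lit 17) false (nat_lit 7) true (nat_lit 19) true (nat_lit 17) (.s true (nat_lit 3) (nat_lit 68) (nat_lit 0) (nat_lit 2) (nat_lit 2) true (nat_lit 15) true (nat_lit 17) false (nat_lit 7) true (nat_lit 19) true (nat_lit 17) (.s true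 (nat_lit 3) (nat_lit 70) (nat_lit 0) (nat_lit 2) (nat_lit 2) true (nat_lit 15) true (nat_lit 17) false (nat_lit 7) true (nat_lit 19) true (nat_lit 17) (.s true (nat_lit 3) (nat_lit 72) (nat_lit 0) (nat_lit 2) (nat_lit 2) true (nat_lit 15) true (nat_lit 17) false (nat_lit 7) true (nat_lit 19) true (nat_lit 17) (.s true (nat_lit 1) (nat_lit 74) (nat_lit 0) (nat_lit 2) (nat_lit 2) true (nat_lit 15) true (nat_lit 17) false (nat_lit 7) true (nat_lit 19) true (nat_lit 17) (.s true (nat_lit 1) (nat_lit 76) (nat_lit 0) (nat_lit 2) (nat_lit 2) true (nat_lit 15) true (nat_lit 17) false (nat_lit 7) true (nat_lit 19) true (nat_lit 17) (.s false (nat_lit 2) (nat_lit 74) (nat_lit 2) (nat_lit 0) (nat_lit 2) true (nat_lit 13) true (nat_lit 17) false (nat_lit 7) true (nat_lit 17) true (nat_lit 19) (.s false (nat_lit 2) (nat_lit 66) (nat_lit 2) (nat_lit 2) (nat_lit 0) true (nat_lit 15) true (nat_lit 19) false (nat_lit 7) true (nat_lit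 17) true (nat_lit 17) (.s true (nat_lit 1) (nat_lit 67) (nat_lit 2) (nat_lit 2) (nat_lit 0) true (nat_lit 15) true (nat_lit 19) false (nat_lit 7) true (nat_lit 17) true (nat_lit 17) (.s true (nat_lit 3) (nat_lit 68) (nat_lit 2) (nat_lit 2) (nat_lit 0) true (nat_lit 15) true (nat_lit 19) false (nat_lit 7) true (nat_lit 17) true (nat_lit 17) dC1d_i400)))))))))))))))))))))))))

noncomputable def dC1d_i402 : IL := (.s true (nat_lit 1) (nat_lit 31) (nat_lit 4) (nat_lit 1) (nat_lit 2) true (nat_lit 7) true (nat_lit 17) true (nat_lit 0) true (nat_lit 15) true (nat_lit 18) (.s false (nat_lit 1) (nat_lit 31) (nat_lit 4) (nat_lit 2) (nat_lit 1) true (nat_lit 9) true (nat_lit 18) true (nat_lit 0) true (nat_lit 15) true (nat_lit 17) (.s false (nat_lit 3) (nat_lit 34) (nat_lit 6) (nat_lit 0) (nat_lit 1) true (nat_lit 6) true (nat_lit 18) true (nat_lit 0) true (nat_lit 13) true (nat_lit 19) (.s false (nat_lit 3) (nat_lit 37)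 (nat_lit 0) (nat_lit 2) (nat_lit 4) true (nat_lit 10) true (nat_lit 15) false (nat_lit 1) true (nat_lit 19) true (nat_lit 17) (.s false (nat_lit 1) (nat_lit 37) (nat_lit 6) (nat_lit 0) (nat_lit 0) true (nat_lit 7) true (nat_lit 19) false (nat_lit 1) true (nat_lit 13) true (nat_lit 19) (.s false (nat_lit 3) (nat_lit 40) (nat_lit 0) (nat_lit 1) (nat_lit 5) true (nat_lit 9) true (nat_lit 14) false (nat_lit 2) true (nat_lit 19) true (nat_lit 18) (.s false (nat_lit 3) (nat_lit 40) (nat_lit 1) (nat_lit 2) (nat_lit 3) true (nat_lit 11) true (nat_lit 16) false (nat_lit 2) true (nat_lit 18) true (nat_lit 17) (.s false (nat_lit 1) (nat_lit 40) (nat_lit 4) (nat_lit 1) (nat_lit 1) true (nat_lit 9) true (nat_lit 18) false (nat_lit 2) true (nat_lit 15) true (nat_lit 18) (.s true (nat_lit 3) (nat_lit 43) (nat_lit 0) (nat_lit 2) (nat_lit 3) true (nat_lit 12) true (nat_lit 16) false (nat_lit 3) true (nat_lit 19) true (nat_lit 17)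 (.s true (nat_lit 3) (nat_lit 44) (nat_lit 0) (nat_lit 3) (nat_lit 2) true (nat_lit 15) true (nat_lit 17) false (nat_lit 3) true (nat_lit 19) true (nat_lit 16) (.s true (nat_lit 3) (nat_lit 45) (nat_lit 2) (nat_lit 3) (nat_lit 0) true (nat_lit 15) true (nat_lit 19) false (nat_lit 3) true (nat_lit 17) true (nat_lit 16) (.s false (nat_lit 2) (nat_lit 45) (nat_lit 4) (nat_lit 0) (nat_lit 1) true (nat_lit 9) true (nat_lit 18) false (nat_lit 3) true (nat_lit 15) true (nat_lit 19) (.s true (nat_lit 3) (nat_lit 44) (nat_lit 4) (nat_lit 1) (nat_lit 0) true (nat_lit 10) true (nat_lit 19) false (nat_lit 3) true (nat_lit 15) true (nat_lit 18) (.s true (nat_lit 3) (nat_lit 45) (nat_lit 4) (nat_lit 1) (nat_lit 0) true (nat_lit 10) true (nat_lit 19) false (nat_lit 3) true (nat_lit 15) true (nat_lit 18) (.s true (nat_lit 3) (nat_lit 43) (nat_lit 5) (nat_lit 0) (nat_lit 0) true (nat_lit 9) true (nat_lit 19) false (nat_lit 3) true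 (nat_lit 14) true (nat_lit 19) (.s true (nat_lit 3) (nat_lit 48) (nat_lit 2) (nat_lit 2) (nat_lit 2) true (nat_lit 13) true (nat_lit 17) false (nat_lit 5) true (nat_lit 17) true (nat_lit 17) (.s true (nat_lit 1) (nat_lit 49) (nat_lit 2) (nat_lit 2) (nat_lit 2) true (nat_lit 13) true (nat_lit 17) false (nat_lit 5) true (nat_lit 17) true (nat_lit 17) (.s true (nat_lit 2) (nat_lit 54) (nat_lit 2) (nat_lit 2) (nat_lit 2) true (nat_lit 13) true (nat_lit 17) false (nat_lit 5) true (nat_lit 17) true (nat_lit 17) (.s true (nat_lit 1) (nat_lit 56) (nat_lit 1) (nat_lit 2) (nat_lit 2) true (nat_lit 14) true (nat_lit 17) false (nat_lit 6) true (nat_lit 18) true (nat_lit 17) (.s false (nat_lit 2) (nat_lit 57) (nat_lit 1) (nat_lit 2) (nat_lit 2) true (nat_lit 14) true (nat_lit 17) false (nat_lit 6) true (nat_lit 18) true (nat_lit 17) (.s false (nat_lit 3) (nat_lit 58) (nat_lit 1) (nat_lit 2) (nat_lit 2) true (nat_lit 14) true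 (nat_lit 17) false (nat_lit 6) true (nat_lit 18) true (nat_lit 17) (.s false (nat_lit 1) (nat_lit 60) (nat_lit 1) (nat_lit 2) (nat_lit 2) true (nat_lit 14) true (nat_lit 17) false (nat_lit 6) true (nat_lit 18) true (nat_lit 17) (.s true (nat_lit 3) (nat_lit 62) (nat_lit 1) (nat_lit 2) (nat_lit 2) true (nat_lit 14) true (nat_lit 17) false (nat_lit 6) true (nat_lit 18) true (nat_lit 17) (.s true (nat_lit 2) (nat_lit 64) (nat_lit 1) (nat_lit 2) (nat_lit 2) true (nat_lit 14) true (nat_lit 17) false (nat_lit 6) true (nat_lit 18) true (nat_lit 17) (.s false (nat_lit 3) (nat_lit 55) (nat_lit 2) (nat_lit 1) (nat_lit 2) true (nat_lit 13) true (nat_lit 17) false (nat_lit 6) true (nat_lit 17) true (nat_lit 18) dC1d_i401)))))))))))))))))))))))))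

noncomputable def dC1d_i403 : IL := (.s true (nat_lit 3) (nat_lit 24) (nat_lit 6) (nat_lit 2) (nat_lit 0) true (nat_lit 7) true (nat_lit 19) true (nat_lit 2) true (nat_lit 13) true (nat_lit 17) (.s false (nat_lit 2) (nat_lit 26) (nat_lit 6) (nat_lit 2) (nat_lit 0) true (nat_lit 7) true (nat_lit 19) true (nat_lit 2) true (nat_lit 13) true (nat_lit 17) (.s false (nat_lit 1) (nat_lit 29) (nat_lit 1) (nat_lit 1) (nat_lit 6) true (nat_lit 6) true (nat_lit 13) true (nat_lit 1) true (nat_lit 18) true (nat_lit 18) (.s false (nat_lit 1) (nat_lit 30) (nat_lit 1) (nat_lit 1) (nat_lit 6) true (nat_lit 6) true (nat_lit 13) true (nat_lit 1) true (nat_lit 18) true (nat_lit 18) (.s true (nat_lit 1) (nat_lit 29) (nat_lit 1) (nat_lit 2) (nat_lit 5) true (nat_lit 8) true (nat_lit 14) true (nat_lit 1) true (nat_lit 18) true (nat_lit 17) (.s false (nat_lit 1) (nat_lit 28) (nat_lit 1) (nat_lit 5) (nat_lit 2) true (nat_lit 14) true (nat_lit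 17) true (nat_lit 1) true (nat_lit 18) true (nat_lit 14) (.s false (nat_lit 1) (nat_lit 28) (nat_lit 2) (nat_lit 1) (nat_lit 5) true (nat_lit 6) true (nat_lit 14) true (nat_lit 1) true (nat_lit 17) true (nat_lit 18) (.s true (nat_lit 1) (nat_lit 29) (nat_lit 2) (nat_lit 1) (nat_lit 5) true (nat_lit 6) true (nat_lit 14) true (nat_lit 1) true (nat_lit 17) true (nat_lit 18) (.s true (nat_lit 2) (nat_lit 28) (nat_lit 2) (nat_lit 5) (nat_lit 1) true (nat_lit 14) true (nat_lit 18) true (nat_lit 1) true (nat_lit 17) true (nat_lit 14) (.s false (nat_lit 1) (nat_lit 28) (nat_lit 5) (nat_lit 1) (nat_lit 2) true (nat_lit 6) true (nat_lit 17) true (nat_lit 1) true (nat_lit 14) true (nat_lit 18) (.s true (nat_lit 3) (nat_lit 31) (nat_lit 0) (nat_lit 1) (nat_lit 6) true (nat_lit 7) true (nat_lit 13) true (nat_lit 0) true (nat_lit 19) true (nat_lit 18) (.s true (nat_lit 2) (nat_lit 35) (nat_lit 0) (nat_lit 1) (nat_lit 6) true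 (nat_lit 7) true (nat_lit 13) true (nat_lit 0) true (nat_lit 19) true (nat_lit 18) (.s false (nat_lit 1) (nat_lit 31) (nat_lit 0) (nat_lit 2) (nat_lit 5) true (nat_lit 9) true (nat_lit 14) true (nat_lit 0) true (nat_lit 19) true (nat_lit 17) (.s false (nat_lit 3) (nat_lit 32) (nat_lit 0) (nat_lit 2) (nat_lit 5) true (nat_lit 9) true (nat_lit 14) true (nat_lit 0) true (nat_lit 19) true (nat_lit 17) (.s false (nat_lit 3) (nat_lit 31) (nat_lit 1) (nat_lit 2) (nat_lit 4) true (nat_lit 9) true (nat_lit 15) true (nat_lit 0) true (nat_lit 18) true (nat_lit 17) (.s false (nat_lit 3) (nat_lit 32) (nat_lit 1) (nat_lit 2) (nat_lit 4) true (nat_lit 9) true (nat_lit 15) true (nat_lit 0) true (nat_lit 18) true (nat_lit 17) (.s true (nat_lit 3) (nat_lit 31) (nat_lit 1) (nat_lit 6) (nat_lit 0) true (nat_lit 16) true (nat_lit 19) true (nat_lit 0) true (nat_lit 18) true (nat_lit 13) (.s true (nat_lit 2) (nat_lit 32) (nat_lit 1) (nat_lit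 6) (nat_lit 0) true (nat_lit 16) true (nat_lit 19) true (nat_lit 0) true (nat_lit 18) true (nat_lit 13) (.s true (nat_lit 3) (nat_lit 32) (nat_lit 2) (nat_lit 0) (nat_lit 5) true (nat_lit 6) true (nat_lit 14) true (nat_lit 0) true (nat_lit 17) true (nat_lit 19) (.s true (nat_lit 2) (nat_lit 31) (nat_lit 2) (nat_lit 1) (nat_lit 4) true (nat_lit 7) true (nat_lit 15) true (nat_lit 0) true (nat_lit 17) true (nat_lit 18) (.s false (nat_lit 2) (nat_lit 32) (nat_lit 2) (nat_lit 2) (nat_lit 3) true (nat_lit 9) true (nat_lit 16) true (nat_lit 0) true (nat_lit 17) true (nat_lit 17) (.s false (nat_lit 2) (nat_lit 35) (nat_lit 2) (nat_lit 2) (nat_lit 3) true (nat_lit 9) true (nat_lit 16) true (nat_lit 0) true (nat_lit 17) true (nat_lit 17) (.s false (nat_lit 3) (nat_lit 35) (nat_lit 2) (nat_lit 3) (nat_lit 2) true (nat_lit 13) true (nat_lit 17) true (nat_lit 0) true (nat_lit 17) true (nat_lit 16) (.s true (nat_lit 2) (nat_lit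 32) (nat_lit 2) (nat_lit 5) (nat_lit 0) true (nat_lit 15) true (nat_lit 19) true (nat_lit 0) true (nat_lit 17) true (nat_lit 14) (.s false (nat_lit 3) (nat_lit 31) (nat_lit 3) (nat_lit 2) (nat_lit 2) true (nat_lit 9) true (nat_lit 17) true (nat_lit 0) true (nat_lit 16) true (nat_lit 17) dC1d_i402)))))))))))))))))))))))))

noncomputable def dC1d_i404 : IL := (.s false (nat_lit 2) (nat_lit 22) (nat_lit 1) (nat_lit 2) (nat_lit 6) true (nat_lit 6) true (nat_lit 13) true (nat_lit 3) true (nat_lit 18) true (nat_lit 17) (.s false (nat_lit 1) (nat_lit 22) (nat_lit 2) (nat_lit 2) (nat_lit 5) true (nat_lit 6) true (nat_lit 14) true (nat_lit 3) true (nat_lit 17) true (nat_lit 17) (.s true (nat_lit 2) (nat_lit 20) (nat_lit 2) (nat_lit 5) (nat_lit 2) true (nat_lit 13) true (nat_lit 17) true (nat_lit 3) true (nat_lit 17) true (nat_lit 14) (.s false (nat_lit 1) (nat_lit 21) (nat_lit 2) (nat_lit 5) (nat_lit 2) true (nat_lit 13)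 true (nat_lit 17) true (nat_lit 3) true (nat_lit 17) true (nat_lit 14) (.s true (nat_lit 3) (nat_lit 20) (nat_lit 2) (nat_lit 6) (nat_lit 1) true (nat_lit 14) true (nat_lit 18) true (nat_lit 3) true (nat_lit 17) true (nat_lit 13) (.s true (nat_lit 1) (nat_lit 21) (nat_lit 2) (nat_lit 6) (nat_lit 1) true (nat_lit 14) true (nat_lit 18) true (nat_lit 3) true (nat_lit 17) true (nat_lit 13) (.s false (nat_lit 3) (nat_lit 22) (nat_lit 2) (nat_lit 6) (nat_lit 1) true (nat_lit 14) true (nat_lit 18) true (nat_lit 3) true (nat_lit 17) true (nat_lit 13) (.s false (nat_lit 3) (nat_lit 20) (nat_lit 5) (nat_lit 2) (nat_lit 2) true (nat_lit 6) true (nat_lit 17) true (nat_lit 3) true (nat_lit 14) true (nat_lit 17) (.s true (nat_lit 3) (nat_lit 22) (nat_lit 5) (nat_lit 2) (nat_lit 2) true (nat_lit 6) true (nat_lit 17) true (nat_lit 3) true (nat_lit 14) true (nat_lit 17) (.s true (nat_lit 1) (nat_lit 21) (nat_lit 6) (nat_lit 1) (nat_lit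 2) true (nat_lit 5) true (nat_lit 17) true (nat_lit 3) true (nat_lit 13) true (nat_lit 18) (.s true (nat_lit 3) (nat_lit 24) (nat_lit 0) (nat_lit 2) (nat_lit 6) true (nat_lit 7) true (nat_lit 13) true (nat_lit 2) true (nat_lit 19) true (nat_lit 17) (.s true (nat_lit 2) (nat_lit 25) (nat_lit 0) (nat_lit 2) (nat_lit 6) true (nat_lit 7) true (nat_lit 13) true (nat_lit 2) true (nat_lit 19) true (nat_lit 17) (.s true (nat_lit 1) (nat_lit 26) (nat_lit 0) (nat_lit 2) (nat_lit 6) true (nat_lit 7) true (nat_lit 13) true (nat_lit 2) true (nat_lit 19) true (nat_lit 17) (.s false (nat_lit 3) (nat_lit 27) (nat_lit 0) (nat_lit 2) (nat_lit 6) true (nat_lit 7) true (nat_lit 13) true (nat_lit 2) true (nat_lit 19) true (nat_lit 17) (.s false (nat_lit 2) (nat_lit 24) (nat_lit 0) (nat_lit 6) (nat_lit 2) true (nat_lit 15) true (nat_lit 17) true (nat_lit 2) true (nat_lit 19) true (nat_lit 13) (.s true (nat_lit 2) (nat_lit 24) (nat_lit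 2) (nat_lit 2) (nat_lit 4) true (nat_lit 7) true (nat_lit 15) true (nat_lit 2) true (nat_lit 17) true (nat_lit 17) (.s false (nat_lit 1) (nat_lit 25) (nat_lit 2) (nat_lit 2) (nat_lit 4) true (nat_lit 7) true (nat_lit 15) true (nat_lit 2) true (nat_lit 17) true (nat_lit 17) (.s true (nat_lit 3) (nat_lit 26) (nat_lit 2) (nat_lit 2) (nat_lit 4) true (nat_lit 7) true (nat_lit 15) true (nat_lit 2) true (nat_lit 17) true (nat_lit 17) (.s false (nat_lit 3) (nat_lit 27) (nat_lit 2) (nat_lit 2) (nat_lit 4) true (nat_lit 7) true (nat_lit 15) true (nat_lit 2) true (nat_lit 17) true (nat_lit 17) (.s false (nat_lit 1) (nat_lit 24) (nat_lit 2) (nat_lit 6) (nat_lit 0) true (nat_lit 15) true (nat_lit 19) true (nat_lit 2) true (nat_lit 17) true (nat_lit 13) (.s false (nat_lit 2) (nat_lit 25) (nat_lit 2) (nat_lit 6) (nat_lit 0) true (nat_lit 15) true (nat_lit 19) true (nat_lit 2) true (nat_lit 17) true (nat_lit 13) (.s true (nat_lit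 1) (nat_lit 26) (nat_lit 2) (nat_lit 6) (nat_lit 0) true (nat_lit 15) true (nat_lit 19) true (nat_lit 2) true (nat_lit 17) true (nat_lit 13) (.s true (nat_lit 1) (nat_lit 26) (nat_lit 4) (nat_lit 2) (nat_lit 2) true (nat_lit 7) true (nat_lit 17) true (nat_lit 2) true (nat_lit 15) true (nat_lit 17) (.s true (nat_lit 2) (nat_lit 24) (nat_lit 6) (nat_lit 0) (nat_lit 2) true (nat_lit 5) true (nat_lit 17) true (nat_lit 2) true (nat_lit 13) true (nat_lit 19) (.s false (nat_lit 2) (nat_lit 26) (nat_lit 6) (nat_lit 0) (nat_lit 2) true (nat_lit 5) true (nat_lit 17) true (nat_lit 2) true (nat_lit 13) true (nat_lit 19) dC1d_i403)))))))))))))))))))))))))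

noncomputable def dC1d_i405 : IL := (.s true (nat_lit 1) (nat_lit 15) (nat_lit 1) (nat_lit 2) (nat_lit 11) true (nat_lit 2) true (nat_lit 9) true (nat_lit 7) true (nat_lit 18) true (nat_lit 17) (.s true (nat_lit 3) (nat_lit 14) (nat_lit 1) (nat_lit 15) (nat_lit 1) false (nat_lit 21) true (nat_lit 18) true (nat_lit 7) true (nat_lit 18) true (nat_lit 7) (.s false (nat_lit 3) (nat_lit 14) (nat_lit 2) (nat_lit 0) (nat_lit 13) false (nat_lit 1) true (nat_lit 8) true (nat_lit 7) true (nat_lit 17) true (nat_lit 19) (.s true (nat_lit 2) (nat_lit 15) (nat_lit 2) (nat_lit 0) (nat_lit 13) false (nat_lit 1) true (nat_lit 8) true (nat_lit 7) true (nat_lit 17) true (nat_lit 19) (.s true (nat_lit 1) (nat_lit 14) (nat_lit 2) (nat_lit 8) (nat_lit 2) true (nat_lit 13) true (nat_lit 17) true (nat_lit 7) true (nat_lit 17) true (nat_lit 11) (.s false (nat_lit 2) (nat_lit 15) (nat_lit 13) (nat_lit 2) (nat_lit 0) true (nat_lit 2) true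 (nat_lit 19) true (nat_lit 7) true (nat_lit 8) true (nat_lit 17) (.s true (nat_lit 3) (nat_lit 16) (nat_lit 0) (nat_lit 0) (nat_lit 16) true (nat_lit 0) true (nat_lit 6) true (nat_lit 6) true (nat_lit 19) true (nat_lit 19) (.s false (nat_lit 3) (nat_lit 17) (nat_lit 0) (nat_lit 0) (nat_lit 17) true (nat_lit 0) true (nat_lit 6) true (nat_lit 6) true (nat_lit 19) true (nat_lit 19) (.s false (nat_lit 1) (nat_lit 17) (nat_lit 2) (nat_lit 1) (nat_lit 9) true (nat_lit 1) true (nat_lit 10) true (nat_lit 6) true (nat_lit 17) true (nat_lit 18) (.s true (nat_lit 1) (nat_lit 16) (nat_lit 2) (nat_lit 7) (nat_lit 2) true (nat_lit 13) true (nat_lit 17) true (nat_lit 6) true (nat_lit 17) true (nat_lit 12) (.s false (nat_lit 2) (nat_lit 17) (nat_lit 2) (nat_lit 7) (nat_lit 2) true (nat_lit 13) true (nat_lit 17) true (nat_lit 6) true (nat_lit 17) true (nat_lit 12) (.s false (nat_lit 1) (nat_lit 16) (nat_lit 2) (nat_lit 9) (nat_lit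 1) true (nat_lit 14) true (nat_lit 18) true (nat_lit 6) true (nat_lit 17) true (nat_lit 10) (.s true (nat_lit 1) (nat_lit 16) (nat_lit 7) (nat_lit 2) (nat_lit 2) true (nat_lit 3) true (nat_lit 17) true (nat_lit 6) true (nat_lit 12) true (nat_lit 17) (.s true (nat_lit 3) (nat_lit 16) (nat_lit 9) (nat_lit 1) (nat_lit 2) true (nat_lit 1) true (nat_lit 17) true (nat_lit 6) true (nat_lit 10) true (nat_lit 18) (.s true (nat_lit 2) (nat_lit 16) (nat_lit 9) (nat_lit 2) (nat_lit 1) true (nat_lit 3) true (nat_lit 18) true (nat_lit 6) true (nat_lit 10) true (nat_lit 17) (.s false (nat_lit 1) (nat_lit 18) (nat_lit 0) (nat_lit 0) (nat_lit 13) true (nat_lit 2) true (nat_lit 8) true (nat_lit 5) true (nat_lit 19) true (nat_lit 19) (.s true (nat_lit 1) (nat_lit 18) (nat_lit 1) (nat_lit 1) (nat_lit 9) true (nat_lit 3) true (nat_lit 10) true (nat_lit 5) true (nat_lit 18) true (nat_lit 18) (.s true (nat_lit 1) (nat_lit 18) (nat_lit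 1) (nat_lit 3) (nat_lit 4) true (nat_lit 9) true (nat_lit 15) true (nat_lit 5) true (nat_lit 18) true (nat_lit 16) (.s false (nat_lit 2) (nat_lit 18) (nat_lit 1) (nat_lit 11) (nat_lit 0) true (nat_lit 16) true (nat_lit 19) true (nat_lit 5) true (nat_lit 18) true (nat_lit 9) (.s false (nat_lit 3) (nat_lit 18) (nat_lit 2) (nat_lit 8) (nat_lit 0) true (nat_lit 15) true (nat_lit 19) true (nat_lit 5) true (nat_lit 17) true (nat_lit 11) (.s false (nat_lit 1) (nat_lit 18) (nat_lit 7) (nat_lit 2) (nat_lit 1) true (nat_lit 4) true (nat_lit 18) true (nat_lit 5) true (nat_lit 12) true (nat_lit 17) (.s false (nat_lit 2) (nat_lit 18) (nat_lit 9) (nat_lit 1) (nat_lit 1) true (nat_lit 3) true (nat_lit 18) true (nat_lit 5) true (nat_lit 10) true (nat_lit 18) (.s true (nat_lit 1) (nat_lit 19) (nat_lit 2) (nat_lit 2) (nat_lit 6) true (nat_lit 5) true (nat_lit 13) true (nat_lit 4) true (nat_lit 17) true (nat_lit 17) (.s false (nat_lit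 1) (nat_lit 19) (nat_lit 6) (nat_lit 2) (nat_lit 2) true (nat_lit 5) true (nat_lit 17) true (nat_lit 4) true (nat_lit 13) true (nat_lit 17) (.s true (nat_lit 3) (nat_lit 21) (nat_lit 1) (nat_lit 2) (nat_lit 6) true (nat_lit 6) true (nat_lit 13) true (nat_lit 3) true (nat_lit 18) true (nat_lit 17) dC1d_i404)))))))))))))))))))))))))

noncomputable def dC1d_i406 : IL := (.e false (nat_lit 3) (nat_lit 274) (nat_lit 2) (nat_lit 13) (.e true (nat_lit 3) (nat_lit 275) (nat_lit 2) (nat_lit 13) (.e true (nat_lit 1) (nat_lit 277) (nat_lit 2) (nat_lit 13) (.e false (nat_lit 2) (nat_lit 283) (nat_lit 2) (nat_lit 13) (.e false (nat_lit 2) (nat_lit 286) (nat_lit 2) (nat_lit 13) (.e true (nat_lit 3) (nat_lit 287) (nat_lit 2) (nat_lit 13) (.e false (nat_lit 1) (nat_lit 284) (nat_lit 2) (nat_lit 13) (.e true (nat_lit 3) (nat_lit 149) (nat_lit 6) (nat_lit 9) (.e true (nat_lit 3) (nat_lit 189) (nat_lit 4) (nat_lit 11) (.e false (nat_lit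 1) (nat_lit 341) (nat_lit 0) (nat_lit 15) (.e false (nat_lit 2) (nat_lit 328) (nat_lit 0) (nat_lit 15) (.e true (nat_lit 2) (nat_lit 329) (nat_lit 0) (nat_lit 15) (.e true (nat_lit 3) (nat_lit 330) (nat_lit 0) (nat_lit 15) (.e false (nat_lit 1) (nat_lit 331) (nat_lit 0) (nat_lit 15) (.e true (nat_lit 1) (nat_lit 332) (nat_lit 0) (nat_lit 15) (.e false (nat_lit 1) (nat_lit 333) (nat_lit 0) (nat_lit 15) (.e false (nat_lit 2) (nat_lit 336) (nat_lit 0) (nat_lit 15) (.e true (nat_lit 3) (nat_lit 337) (nat_lit 0) (nat_lit 15) (.e true (nat_lit 3) (nat_lit 338) (nat_lit 0) (nat_lit 15) (.e true (nat_lit 1) (nat_lit 326) (nat_lit 1) (nat_lit 14) (.e false (nat_lit 1) (nat_lit 320) (nat_lit 1) (nat_lit 14) (.e true (nat_lit 2) (nat_lit 342) (nat_lit 0) (nat_lit 15) (.e false (nat_lit 1) (nat_lit 327) (nat_lit 1) (nat_lit 14) (.u (nat_lit 2) (.n (nat_lit 0) (nat_lit 2) (.p (nat_lit 1) (nat_lit 5) (.n (nat_lit 2) (nat_lit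 1) (.p (nat_lit 3) (nat_lit 3) (.p (nat_lit 4) (nat_lit 1) (.n (nat_lit 5) (nat_lit 1) (.p (nat_lit 8) (nat_lit 3) (.n (nat_lit 10) (nat_lit 3) (.p (nat_lit 12) (nat_lit 2) (.p (nat_lit 13) (nat_lit 2) (.p (nat_lit 15) (nat_lit 3) (.n (nat_lit 16) (nat_lit 2) (.p (nat_lit 17) (nat_lit 4) (.p (nat_lit 18) (nat_lit 4) (.p (nat_lit 19) (nat_lit 4) (.p (nat_lit 20) (nat_lit 1) (.n (nat_lit 21) (nat_lit 1) (.n (nat_lit 24) (nat_lit 2) (.p (nat_lit 25) (nat_lit 1) (.n (nat_lit 26) (nat_lit 1) (.n (nat_lit 27) (nat_lit 1) (.n (nat_lit 28) (nat_lit 1) (.p (nat_lit 30) (nat_lit 2) (.p (nat_lit 32) (nat_lit 1) (.n (nat_lit 33) (nat_lit 3) (.p (nat_lit 35) (nat_lit 1) (.p (nat_lit 38) (nat_lit 1) (.p (nat_lit 53) (nat_lit 1) (.n (nat_lit 65) (nat_lit 1) (.p (nat_lit 66) (nat_lit 1) (.n (nat_lit 67) (nat_lit 1) (.n (nat_lit 68) (nat_lit 1) (.n (nat_lit 69) (nat_lit 1) (.p (nat_lit 70) (nat_lit 1) (.p (nat_lit 71) (nat_lit 1)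 (.n (nat_lit 72) (nat_lit 1) (.p (nat_lit 75) (nat_lit 2) (.n (nat_lit 77) (nat_lit 1) (.p (nat_lit 81) (nat_lit 1) (.n (nat_lit 112) (nat_lit 1) (.n (nat_lit 113) (nat_lit 1) (.n (nat_lit 114) (nat_lit 1) (.n (nat_lit 121) (nat_lit 1) (.p (nat_lit 125) (nat_lit 1) (.p (nat_lit 129) (nat_lit 2) (.p (nat_lit 130) (nat_lit 3) (.p (nat_lit 131) (nat_lit 1) (.n (nat_lit 133) (nat_lit 2) (.n (nat_lit 134) (nat_lit 2) (.p (nat_lit 136) (nat_lit 1) (.p (nat_lit 138) (nat_lit 1) (.p (nat_lit 139) (nat_lit 1) (.p (nat_lit 142) (nat_lit 2) (.n (nat_lit 143) (nat_lit 2) (.n (nat_lit 144) (nat_lit 2) (.n (nat_lit 146) (nat_lit 1) (.n (nat_lit 147) (nat_lit 1) (.n (nat_lit 148) (nat_lit 1) (.n (nat_lit 164) (nat_lit 1) (.n (nat_lit 173) (nat_lit 2) .z)))))))))))))))))))))))))))))))))))))))))))))))))))))))))))) (.u (nat_lit 2) (.n (nat_lit 174) (nat_lit 12) (.n (nat_lit 175) (nat_lit 8) (.n (nat_lit 176) (nat_lit 9) (.n (nat_lit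 177) (nat_lit 4) (.p (nat_lit 178) (nat_lit 3) (.p (nat_lit 179) (nat_lit 21) (.p (nat_lit 180) (nat_lit 5) (.n (nat_lit 181) (nat_lit 2) (.n (nat_lit 182) (nat_lit 9) (.p (nat_lit 183) (nat_lit 11) (.p (nat_lit 184) (nat_lit 12) (.n (nat_lit 185) (nat_lit 7) (.n (nat_lit 186) (nat_lit 2) (.n (nat_lit 187) (nat_lit 1) (.p (nat_lit 188) (nat_lit 2) (.n (nat_lit 189) (nat_lit 3) (.n (nat_lit 190) (nat_lit 3) (.n (nat_lit 191) (nat_lit 4) (.n (nat_lit 192) (nat_lit 2) (.n (nat_lit 193) (nat_lit 3) (.n (nat_lit 194) (nat_lit 6) (.p (nat_lit 195) (nat_lit 4) (.n (nat_lit 196) (nat_lit 2) (.p (nat_lit 197) (nat_lit 3) (.n (nat_lit 198) (nat_lit 2) (.p (nat_lit 199) (nat_lit 10) (.p (nat_lit 200) (nat_lit 11) (.p (nat_lit 201) (nat_lit 5) (.p (nat_lit 204) (nat_lit 4) (.n (nat_lit 205) (nat_lit 2) (.p (nat_lit 208) (nat_lit 1) (.n (nat_lit 209) (nat_lit 1) (.n (nat_lit 210) (nat_lit 3) (.p (nat_lit 211) (nat_lit 5) (.p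 (nat_lit 213) (nat_lit 4) (.n (nat_lit 214) (nat_lit 3) (.n (nat_lit 215) (nat_lit 5) (.p (nat_lit 216) (nat_lit 1) (.n (nat_lit 217) (nat_lit 6) (.n (nat_lit 218) (nat_lit 4) (.n (nat_lit 219) (nat_lit 5) (.p (nat_lit 220) (nat_lit 4) (.n (nat_lit 221) (nat_lit 3) (.p (nat_lit 222) (nat_lit 1) (.p (nat_lit 223) (nat_lit 2) (.p (nat_lit 226) (nat_lit 1) (.p (nat_lit 227) (nat_lit 1) (.p (nat_lit 228) (nat_lit 1) .z)))))))))))))))))))))))))))))))))))))))))))))))) .nil)))))))))))))))))))))))))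

noncomputable def dC1d_i407 : IL := (.s true (nat_lit 1) (nat_lit 102) (nat_lit 0) (nat_lit 2) (nat_lit 0) false (nat_lit 16) true (nat_lit 15) false (nat_lit 7) true (nat_lit 15) true (nat_lit 13) (.s true (nat_lit 3) (nat_lit 103) (nat_lit 0) (nat_lit 2) (nat_lit 0) false (nat_lit 16) true (nat_lit 15) false (nat_lit 7) true (nat_lit 15) true (nat_lit 13) (.s true (nat_lit 1) (nat_lit 105) (nat_lit 0) (nat_lit 2) (nat_lit 0) false (nat_lit 16) true (nat_lit 15) false (nat_lit 7) true (nat_lit 15) true (nat_lit 13) (.e false (nat_lit 3) (nat_lit 132) (nat_lit 6) (nat_lit 9) (.e true (nat_lit 2) (nat_lit 137) (nat_lit 6) (nat_lit 9) (.e false (nat_lit 3) (nat_lit 140) (nat_lit 6) (nat_lit 9) (.e true (nat_lit 1) (nat_lit 142) (nat_lit 6) (nat_lit 9) (.e false (nat_lit 3) (nat_lit 150) (nat_lit 6) (nat_lit 9) (.e false (nat_lit 2) (nat_lit 323) (nat_lit 1) (nat_lit 14) (.e false (nat_lit 1) (nat_lit 324) (nat_lit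 1) (nat_lit 14) (.e false (nat_lit 3) (nat_lit 325) (nat_lit 1) (nat_lit 14) (.e true (nat_lit 3) (nat_lit 322) (nat_lit 1) (nat_lit 14) (.e false (nat_lit 1) (nat_lit 55) (nat_lit 18) (nat_lit 3) (.e true (nat_lit 1) (nat_lit 65) (nat_lit 18) (nat_lit 3) (.e false (nat_lit 3) (nat_lit 261) (nat_lit 2) (nat_lit 13) (.e false (nat_lit 2) (nat_lit 262) (nat_lit 2) (nat_lit 13) (.e true (nat_lit 3) (nat_lit 263) (nat_lit 2) (nat_lit 13) (.e true (nat_lit 3) (nat_lit 264) (nat_lit 2) (nat_lit 13) (.e true (nat_lit 3) (nat_lit 265) (nat_lit 2) (nat_lit 13) (.e true (nat_lit 2) (nat_lit 266) (nat_lit 2) (nat_lit 13) (.e false (nat_lit 3) (nat_lit 267) (nat_lit 2) (nat_lit 13) (.e false (nat_lit 2) (nat_lit 268) (nat_lit 2) (nat_lit 13) (.e true (nat_lit 1) (nat_lit 270) (nat_lit 2) (nat_lit 13) (.e false (nat_lit 2) (nat_lit 271) (nat_lit 2) (nat_lit 13) (.e false (nat_lit 1) (nat_lit 273) (nat_lit 2) (nat_lit 13) dC1d_i406)))))))))))))))))))))))))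

noncomputable def dC1d_i408 : IL := (.s true (nat_lit 2) (nat_lit 64) (nat_lit 2) (nat_lit 2) (nat_lit 2) true (nat_lit 9) true (nat_lit 13) false (nat_lit 3) true (nat_lit 13) true (nat_lit 13) (.s false (nat_lit 3) (nat_lit 77) (nat_lit 1) (nat_lit 2) (nat_lit 2) true (nat_lit 10) true (nat_lit 13) false (nat_lit 4) true (nat_lit 14) true (nat_lit 13) (.s true (nat_lit 3) (nat_lit 78) (nat_lit 1) (nat_lit 2) (nat_lit 2) true (nat_lit 10) true (nat_lit 13) false (nat_lit 4) true (nat_lit 14) true (nat_lit 13) (.s true (nat_lit 1) (nat_lit 79) (nat_lit 1) (nat_lit 2) (nat_lit 2) true (nat_lit 10) true (nat_lit 13) false (nat_lit 4) true (nat_lit 14) true (nat_lit 13) (.s false (nat_lit 2) (nat_lit 80) (nat_lit 1) (nat_lit 2) (nat_lit 2) true (nat_lit 10) true (nat_lit 13) false (nat_lit 4) true (nat_lit 14) true (nat_lit 13) (.s true (nat_lit 1) (nat_lit 81) (nat_lit 1) (nat_lit 2) (nat_lit 2) true (nat_lit 10)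 true (nat_lit 13) false (nat_lit 4) true (nat_lit 14) true (nat_lit 13) (.s true (nat_lit 1) (nat_lit 77) (nat_lit 2) (nat_lit 1) (nat_lit 2) true (nat_lit 9) true (nat_lit 13) false (nat_lit 4) true (nat_lit 13) true (nat_lit 14) (.s false (nat_lit 2) (nat_lit 78) (nat_lit 2) (nat_lit 1) (nat_lit 2) true (nat_lit 9) true (nat_lit 13) false (nat_lit 4) true (nat_lit 13) true (nat_lit 14) (.s true (nat_lit 1) (nat_lit 79) (nat_lit 2) (nat_lit 1) (nat_lit 2) true (nat_lit 9) true (nat_lit 13) false (nat_lit 4) true (nat_lit 13) true (nat_lit 14) (.s false (nat_lit 2) (nat_lit 80) (nat_lit 2) (nat_lit 1) (nat_lit 2) true (nat_lit 9) true (nat_lit 13) false (nat_lit 4) true (nat_lit 13) true (nat_lit 14) (.s true (nat_lit 3) (nat_lit 77) (nat_lit 2) (nat_lit 2) (nat_lit 1) true (nat_lit 10) true (nat_lit 14) false (nat_lit 4) true (nat_lit 13) true (nat_lit 13) (.s false (nat_lit 1) (nat_lit 82) (nat_lit 0) (nat_lit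 2) (nat_lit 2) true (nat_lit 11) true (nat_lit 13) false (nat_lit 5) true (nat_lit 15) true (nat_lit 13) (.s false (nat_lit 1) (nat_lit 83) (nat_lit 0) (nat_lit 2) (nat_lit 2) true (nat_lit 11) true (nat_lit 13) false (nat_lit 5) true (nat_lit 15) true (nat_lit 13) (.s false (nat_lit 3) (nat_lit 87) (nat_lit 0) (nat_lit 2) (nat_lit 2) true (nat_lit 11) true (nat_lit 13) false (nat_lit 5) true (nat_lit 15) true (nat_lit 13) (.s true (nat_lit 1) (nat_lit 91) (nat_lit 0) (nat_lit 2) (nat_lit 2) true (nat_lit 11) true (nat_lit 13) false (nat_lit 5) true (nat_lit 15) true (nat_lit 13) (.s false (nat_lit 1) (nat_lit 83) (nat_lit 2) (nat_lit 0) (nat_lit 2) true (nat_lit 9) true (nat_lit 13) false (nat_lit 5) true (nat_lit 13) true (nat_lit 15) (.s false (nat_lit 3) (nat_lit 87) (nat_lit 2) (nat_lit 2) (nat_lit 0) true (nat_lit 11) true (nat_lit 15) false (nat_lit 5) true (nat_lit 13) true (nat_lit 13) (.s true (nat_lit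 3) (nat_lit 98) (nat_lit 0) (nat_lit 2) (nat_lit 1) true (nat_lit 12) true (nat_lit 14) false (nat_lit 6) true (nat_lit 15) true (nat_lit 13) (.s true (nat_lit 3) (nat_lit 98) (nat_lit 1) (nat_lit 2) (nat_lit 0) true (nat_lit 12) true (nat_lit 15) false (nat_lit 6) true (nat_lit 14) true (nat_lit 13) (.s true (nat_lit 2) (nat_lit 99) (nat_lit 1) (nat_lit 2) (nat_lit 0) true (nat_lit 12) true (nat_lit 15) false (nat_lit 6) true (nat_lit 14) true (nat_lit 13) (.s true (nat_lit 2) (nat_lit 100) (nat_lit 1) (nat_lit 2) (nat_lit 0) true (nat_lit 12) true (nat_lit 15) false (nat_lit 6) true (nat_lit 14) true (nat_lit 13) (.s false (nat_lit 2) (nat_lit 101) (nat_lit 1) (nat_lit 2) (nat_lit 0) true (nat_lit 12) true (nat_lit 15) false (nat_lit 6) true (nat_lit 14) true (nat_lit 13) (.s false (nat_lit 3) (nat_lit 98) (nat_lit 2) (nat_lit 0) (nat_lit 1) true (nat_lit 10) true (nat_lit 14) false (nat_lit 6) true (nat_lit 13)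 true (nat_lit 15) (.s true (nat_lit 2) (nat_lit 100) (nat_lit 2) (nat_lit 0) (nat_lit 1) true (nat_lit 10) true (nat_lit 14) false (nat_lit 6) true (nat_lit 13) true (nat_lit 15) (.s true (nat_lit 2) (nat_lit 101) (nat_lit 2) (nat_lit 0) (nat_lit 1) true (nat_lit 10) true (nat_lit 14) false (nat_lit 6) true (nat_lit 13) true (nat_lit 15) dC1d_i407)))))))))))))))))))))))))

noncomputable def dC1d_i409 : IL := (.s true (nat_lit 2) (nat_lit 23) (nat_lit 2) (nat_lit 2) (nat_lit 6) true (nat_lit 3) true (nat_lit 9) true (nat_lit 2) true (nat_lit 13) true (nat_lit 13) (.s false (nat_lit 2) (nat_lit 21) (nat_lit 2) (nat_lit 6) (nat_lit 2) true (nat_lit 9) true (nat_lit 13) true (nat_lit 2) true (nat_lit 13) true (nat_lit 9) (.s false (nat_lit 1) (nat_lit 28) (nat_lit 2) (nat_lit 1) (nat_lit 6) true (nat_lit 3) true (nat_lit 9) true (nat_lit 1) true (nat_lit 13) true (nat_lit 14) (.s true (nat_lit 1) (nat_lit 29) (nat_lit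 2) (nat_lit 1) (nat_lit 6) true (nat_lit 3) true (nat_lit 9) true (nat_lit 1) true (nat_lit 13) true (nat_lit 14) (.s true (nat_lit 1) (nat_lit 29) (nat_lit 2) (nat_lit 2) (nat_lit 5) true (nat_lit 4) true (nat_lit 10) true (nat_lit 1) true (nat_lit 13) true (nat_lit 13) (.s false (nat_lit 2) (nat_lit 28) (nat_lit 2) (nat_lit 5) (nat_lit 2) true (nat_lit 9) true (nat_lit 13) true (nat_lit 1) true (nat_lit 13) true (nat_lit 10) (.s false (nat_lit 3) (nat_lit 28) (nat_lit 6) (nat_lit 1) (nat_lit 2) true (nat_lit 3) true (nat_lit 13) true (nat_lit 1) true (nat_lit 9) true (nat_lit 14) (.s true (nat_lit 3) (nat_lit 31) (nat_lit 0) (nat_lit 2) (nat_lit 6) true (nat_lit 5) true (nat_lit 9) true (nat_lit 0) true (nat_lit 15) true (nat_lit 13) (.s true (nat_lit 3) (nat_lit 32) (nat_lit 0) (nat_lit 2) (nat_lit 6) true (nat_lit 5) true (nat_lit 9) true (nat_lit 0) true (nat_lit 15) true (nat_lit 13) (.s false (nat_lit 3)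 (nat_lit 36) (nat_lit 0) (nat_lit 2) (nat_lit 6) true (nat_lit 5) true (nat_lit 9) true (nat_lit 0) true (nat_lit 15) true (nat_lit 13) (.s true (nat_lit 1) (nat_lit 31) (nat_lit 0) (nat_lit 6) (nat_lit 2) true (nat_lit 11) true (nat_lit 13) true (nat_lit 0) true (nat_lit 15) true (nat_lit 9) (.s true (nat_lit 2) (nat_lit 32) (nat_lit 0) (nat_lit 6) (nat_lit 2) true (nat_lit 11) true (nat_lit 13) true (nat_lit 0) true (nat_lit 15) true (nat_lit 9) (.s true (nat_lit 1) (nat_lit 31) (nat_lit 2) (nat_lit 0) (nat_lit 6) true (nat_lit 3) true (nat_lit 9) true (nat_lit 0) true (nat_lit 13) true (nat_lit 15) (.s true (nat_lit 2) (nat_lit 32) (nat_lit 2) (nat_lit 0) (nat_lit 6) true (nat_lit 3) true (nat_lit 9) true (nat_lit 0) true (nat_lit 13) true (nat_lit 15) (.s true (nat_lit 1) (nat_lit 31) (nat_lit 2) (nat_lit 2) (nat_lit 4) true (nat_lit 5) true (nat_lit 11) true (nat_lit 0) true (nat_lit 13) true (nat_lit 13) (.s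 true (nat_lit 1) (nat_lit 32) (nat_lit 2) (nat_lit 2) (nat_lit 4) true (nat_lit 5) true (nat_lit 11) true (nat_lit 0) true (nat_lit 13) true (nat_lit 13) (.s true (nat_lit 3) (nat_lit 36) (nat_lit 2) (nat_lit 2) (nat_lit 4) true (nat_lit 5) true (nat_lit 11) true (nat_lit 0) true (nat_lit 13) true (nat_lit 13) (.s false (nat_lit 3) (nat_lit 36) (nat_lit 2) (nat_lit 4) (nat_lit 2) true (nat_lit 9) true (nat_lit 13) true (nat_lit 0) true (nat_lit 13) true (nat_lit 11) (.s false (nat_lit 2) (nat_lit 32) (nat_lit 2) (nat_lit 6) (nat_lit 0) true (nat_lit 11) true (nat_lit 15) true (nat_lit 0) true (nat_lit 13) true (nat_lit 9) (.s false (nat_lit 3) (nat_lit 31) (nat_lit 4) (nat_lit 2) (nat_lit 2) true (nat_lit 5) true (nat_lit 13) true (nat_lit 0) true (nat_lit 11) true (nat_lit 13) (.s false (nat_lit 3) (nat_lit 40) (nat_lit 5) (nat_lit 2) (nat_lit 0) true (nat_lit 6) true (nat_lit 15) false (nat_lit 0) true (nat_lit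 10) true (nat_lit 13) (.s false (nat_lit 1) (nat_lit 59) (nat_lit 2) (nat_lit 2) (nat_lit 2) true (nat_lit 9) true (nat_lit 13) false (nat_lit 3) true (nat_lit 13) true (nat_lit 13) (.s false (nat_lit 1) (nat_lit 60) (nat_lit 2) (nat_lit 2) (nat_lit 2) true (nat_lit 9) true (nat_lit 13) false (nat_lit 3) true (nat_lit 13) true (nat_lit 13) (.s false (nat_lit 1) (nat_lit 61) (nat_lit 2) (nat_lit 2) (nat_lit 2) true (nat_lit 9) true (nat_lit 13) false (nat_lit 3) true (nat_lit 13) true (nat_lit 13) (.s false (nat_lit 2) (nat_lit 62) (nat_lit 2) (nat_lit 2) (nat_lit 2) true (nat_lit 9) true (nat_lit 13) false (nat_lit 3) true (nat_lit 13) true (nat_lit 13) dC1d_i408)))))))))))))))))))))))))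

noncomputable def dC1d_i410 : IL := (.e true (nat_lit 1) (nat_lit 82) (nat_lit 10) (nat_lit 9) (.e false (nat_lit 1) (nat_lit 260) (nat_lit 1) (nat_lit 18) (.e false (nat_lit 1) (nat_lit 261) (nat_lit 1) (nat_lit 18) (.e false (nat_lit 3) (nat_lit 263) (nat_lit 1) (nat_lit 18) (.e true (nat_lit 3) (nat_lit 264) (nat_lit 1) (nat_lit 18) (.e false (nat_lit 1) (nat_lit 265) (nat_lit 1) (nat_lit 18) (.e false (nat_lit 2) (nat_lit 266) (nat_lit 1) (nat_lit 18) (.e false (nat_lit 3) (nat_lit 267) (nat_lit 1) (nat_lit 18) (.e true (nat_lit 2) (nat_lit 268) (nat_lit 1) (nat_lit 18) (.e true (nat_lit 2) (nat_lit 269) (nat_lit 1) (nat_lit 18) (.e true (nat_lit 2) (nat_lit 270) (nat_lit 1) (nat_lit 18) (.e false (nat_lit 2) (nat_lit 271) (nat_lit 1) (nat_lit 18) (.e false (nat_lit 3) (nat_lit 272) (nat_lit 1) (nat_lit 18) (.e true (nat_lit 1) (nat_lit 273) (nat_lit 1) (nat_lit 18) (.e true (nat_lit 2) (nat_lit 274) (nat_lit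 1) (nat_lit 18) (.e true (nat_lit 1) (nat_lit 275) (nat_lit 1) (nat_lit 18) (.e true (nat_lit 3) (nat_lit 277) (nat_lit 1) (nat_lit 18) (.e false (nat_lit 2) (nat_lit 279) (nat_lit 1) (nat_lit 18) (.e true (nat_lit 2) (nat_lit 280) (nat_lit 1) (nat_lit 18) (.e false (nat_lit 1) (nat_lit 281) (nat_lit 1) (nat_lit 18) (.e false (nat_lit 1) (nat_lit 283) (nat_lit 1) (nat_lit 18) (.e true (nat_lit 1) (nat_lit 286) (nat_lit 1) (nat_lit 18) (.e true (nat_lit 1) (nat_lit 287) (nat_lit 1) (nat_lit 18) (.e true (nat_lit 1) (nat_lit 311) (nat_lit 0) (nat_lit 19) (.u (nat_lit 2) (.p (nat_lit 0) (nat_lit 1) (.p (nat_lit 1) (nat_lit 2) (.p (nat_lit 2) (nat_lit 1) (.p (nat_lit 4) (nat_lit 1) (.n (nat_lit 8) (nat_lit 2) (.p (nat_lit 9) (nat_lit 3) (.p (nat_lit 10) (nat_lit 1) (.p (nat_lit 11) (nat_lit 1) (.n (nat_lit 14) (nat_lit 1) (.p (nat_lit 15) (nat_lit 1) (.n (nat_lit 17) (nat_lit 2) (.p (nat_lit 19) (nat_lit 1) (.n (nat_lit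 20) (nat_lit 1) (.p (nat_lit 26) (nat_lit 1) (.p (nat_lit 27) (nat_lit 1) (.p (nat_lit 29) (nat_lit 2) (.p (nat_lit 30) (nat_lit 1) (.p (nat_lit 31) (nat_lit 1) (.p (nat_lit 32) (nat_lit 1) (.p (nat_lit 33) (nat_lit 2) (.n (nat_lit 34) (nat_lit 1) (.p (nat_lit 36) (nat_lit 1) (.n (nat_lit 37) (nat_lit 1) (.p (nat_lit 38) (nat_lit 1) (.n (nat_lit 40) (nat_lit 2) .z))))))))))))))))))))))))) .nil)))))))))))))))))))))))))

noncomputable def dC1d_i411 : IL := (.e false (nat_lit 3) (nat_lit 340) (nat_lit 1) (nat_lit 14) (.e false (nat_lit 2) (nat_lit 347) (nat_lit 0) (nat_lit 15) (.e true (nat_lit 2) (nat_lit 348) (nat_lit 0) (nat_lit 15) (.e false (nat_lit 2) (nat_lit 349) (nat_lit 0) (nat_lit 15) (.e false (nat_lit 3) (nat_lit 350) (nat_lit 0) (nat_lit 15) (.e false (nat_lit 1) (nat_lit 352) (nat_lit 0) (nat_lit 15) (.e false (nat_lit 1) (nat_lit 354) (nat_lit 0) (nat_lit 15) (.e false (nat_lit 2) (nat_lit 302) (nat_lit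 2) (nat_lit 13) (.e false (nat_lit 3) (nat_lit 181) (nat_lit 5) (nat_lit 10) (.e true (nat_lit 3) (nat_lit 186) (nat_lit 5) (nat_lit 10) (.e true (nat_lit 2) (nat_lit 187) (nat_lit 5) (nat_lit 10) (.e false (nat_lit 1) (nat_lit 191) (nat_lit 5) (nat_lit 10) (.e false (nat_lit 3) (nat_lit 328) (nat_lit 1) (nat_lit 14) (.e false (nat_lit 3) (nat_lit 334) (nat_lit 1) (nat_lit 14) (.e false (nat_lit 2) (nat_lit 337) (nat_lit 1) (nat_lit 14) (.e true (nat_lit 1) (nat_lit 338) (nat_lit 1) (nat_lit 14) (.e false (nat_lit 1) (nat_lit 339) (nat_lit 1) (nat_lit 14) (.e true (nat_lit 1) (nat_lit 342) (nat_lit 1) (nat_lit 14) (.e true (nat_lit 2) (nat_lit 333) (nat_lit 1) (nat_lit 14) (.e true (nat_lit 1) (nat_lit 314) (nat_lit 2) (nat_lit 13) (.e false (nat_lit 2) (nat_lit 74) (nat_lit 18) (nat_lit 3) (.e true (nat_lit 1) (nat_lit 351) (nat_lit 0) (nat_lit 15) (.u (nat_lit 2) (.n (nat_lit 0) (nat_lit 1) (.n (nat_lit 1) (nat_lit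 4) (.n (nat_lit 2) (nat_lit 2) (.n (nat_lit 3) (nat_lit 1) (.p (nat_lit 4) (nat_lit 1) (.p (nat_lit 5) (nat_lit 2) (.p (nat_lit 6) (nat_lit 1) (.n (nat_lit 7) (nat_lit 1) (.n (nat_lit 8) (nat_lit 2) (.p (nat_lit 9) (nat_lit 2) (.p (nat_lit 10) (nat_lit 2) (.n (nat_lit 11) (nat_lit 1) (.p (nat_lit 12) (nat_lit 3) (.n (nat_lit 13) (nat_lit 3) (.n (nat_lit 14) (nat_lit 3) (.p (nat_lit 15) (nat_lit 1) (.p (nat_lit 16) (nat_lit 3) (.n (nat_lit 17) (nat_lit 2) (.p (nat_lit 18) (nat_lit 1) (.n (nat_lit 20) (nat_lit 1) (.p (nat_lit 21) (nat_lit 1) (.p (nat_lit 22) (nat_lit 1) (.p (nat_lit 23) (nat_lit 1) (.p (nat_lit 32) (nat_lit 1) (.p (nat_lit 33) (nat_lit 3) (.n (nat_lit 39) (nat_lit 1) (.p (nat_lit 44) (nat_lit 1) (.p (nat_lit 54) (nat_lit 1) (.p (nat_lit 63) (nat_lit 1) (.n (nat_lit 65) (nat_lit 1) (.n (nat_lit 66) (nat_lit 2) (.n (nat_lit 68) (nat_lit 1) (.n (nat_lit 69) (nat_lit 1) (.p (nat_lit 71) (nat_lit 1) (.p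 (nat_lit 73) (nat_lit 1) (.n (nat_lit 74) (nat_lit 1) (.n (nat_lit 75) (nat_lit 1) (.n (nat_lit 77) (nat_lit 1) (.n (nat_lit 79) (nat_lit 1) (.n (nat_lit 82) (nat_lit 1) (.n (nat_lit 84) (nat_lit 1) (.p (nat_lit 88) (nat_lit 1) (.n (nat_lit 115) (nat_lit 1) (.p (nat_lit 117) (nat_lit 1) (.n (nat_lit 119) (nat_lit 1) (.n (nat_lit 125) (nat_lit 1) (.p (nat_lit 126) (nat_lit 1) (.n (nat_lit 127) (nat_lit 1) (.p (nat_lit 129) (nat_lit 1) (.p (nat_lit 130) (nat_lit 1) (.p (nat_lit 133) (nat_lit 1) (.n (nat_lit 134) (nat_lit 2) (.n (nat_lit 135) (nat_lit 1) (.p (nat_lit 136) (nat_lit 1) (.n (nat_lit 138) (nat_lit 1) (.n (nat_lit 139) (nat_lit 1) (.p (nat_lit 140) (nat_lit 1) (.n (nat_lit 143) (nat_lit 1) (.p (nat_lit 145) (nat_lit 1) (.p (nat_lit 146) (nat_lit 2) .z)))))))))))))))))))))))))))))))))))))))))))))))))))))))))))) (.u (nat_lit 2) (.p (nat_lit 147) (nat_lit 1) (.n (nat_lit 149) (nat_lit 1) (.p (nat_lit 150)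 (nat_lit 2) (.p (nat_lit 151) (nat_lit 2) (.n (nat_lit 152) (nat_lit 1) (.n (nat_lit 153) (nat_lit 1) (.n (nat_lit 155) (nat_lit 2) (.n (nat_lit 156) (nat_lit 1) (.p (nat_lit 158) (nat_lit 1) (.p (nat_lit 159) (nat_lit 1) (.p (nat_lit 162) (nat_lit 2) (.p (nat_lit 163) (nat_lit 3) (.p (nat_lit 164) (nat_lit 3) (.p (nat_lit 165) (nat_lit 2) (.p (nat_lit 166) (nat_lit 1) (.p (nat_lit 167) (nat_lit 3) (.p (nat_lit 169) (nat_lit 1) (.p (nat_lit 173) (nat_lit 9) (.n (nat_lit 174) (nat_lit 6) (.n (nat_lit 175) (nat_lit 11) (.p (nat_lit 176) (nat_lit 13) (.n (nat_lit 177) (nat_lit 11) (.p (nat_lit 178) (nat_lit 9) (.n (nat_lit 179) (nat_lit 2) (.p (nat_lit 180) (nat_lit 6) (.p (nat_lit 181) (nat_lit 5) (.p (nat_lit 182) (nat_lit 17) (.p (nat_lit 183) (nat_lit 13) (.p (nat_lit 184) (nat_lit 5) (.p (nat_lit 185) (nat_lit 1) (.p (nat_lit 186) (nat_lit 2) (.n (nat_lit 187) (nat_lit 10) (.n (nat_lit 188) (nat_lit 1) (.n (nat_lit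 189) (nat_lit 2) (.n (nat_lit 190) (nat_lit 16) (.n (nat_lit 191) (nat_lit 1) (.n (nat_lit 192) (nat_lit 2) (.p (nat_lit 193) (nat_lit 8) (.p (nat_lit 195) (nat_lit 1) (.p (nat_lit 196) (nat_lit 9) (.p (nat_lit 198) (nat_lit 3) (.n (nat_lit 199) (nat_lit 9) (.n (nat_lit 200) (nat_lit 2) (.p (nat_lit 201) (nat_lit 3) (.p (nat_lit 202) (nat_lit 2) (.n (nat_lit 203) (nat_lit 1) (.p (nat_lit 204) (nat_lit 2) (.p (nat_lit 205) (nat_lit 6) (.n (nat_lit 206) (nat_lit 9) (.p (nat_lit 207) (nat_lit 1) (.p (nat_lit 208) (nat_lit 3) (.p (nat_lit 209) (nat_lit 1) (.p (nat_lit 211) (nat_lit 2) (.n (nat_lit 212) (nat_lit 8) (.n (nat_lit 213) (nat_lit 8) (.n (nat_lit 215) (nat_lit 5) (.p (nat_lit 216) (nat_lit 5) (.p (nat_lit 219) (nat_lit 1) (.p (nat_lit 220) (nat_lit 2) (.n (nat_lit 221) (nat_lit 2) .z)))))))))))))))))))))))))))))))))))))))))))))))))))))))))))) (.u (nat_lit 2) (.n (nat_lit 222) (nat_lit 1) (.p (nat_lit 223)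 (nat_lit 4) (.p (nat_lit 224) (nat_lit 2) (.n (nat_lit 227) (nat_lit 2) (.n (nat_lit 229) (nat_lit 1) .z))))) .nil)))))))))))))))))))))))))

noncomputable def dC1d_i412 : IL := (.s false (nat_lit 1) (nat_lit 93) (nat_lit 2) (nat_lit 0) (nat_lit 2) true (nat_lit 9) true (nat_lit 13) false (nat_lit 5) true (nat_lit 13) true (nat_lit 15) (.s true (nat_lit 1) (nat_lit 93) (nat_lit 2) (nat_lit 2) (nat_lit 0) true (nat_lit 11) true (nat_lit 15) false (nat_lit 5) true (nat_lit 13) true (nat_lit 13) (.s true (nat_lit 1) (nat_lit 94) (nat_lit 2) (nat_lit 2) (nat_lit 0) true (nat_lit 11) true (nat_lit 15) false (nat_lit 5) true (nat_lit 13) true (nat_lit 13) (.s false (nat_lit 1) (nat_lit 97) (nat_lit 2) (nat_lit 2) (nat_lit 0) true (nat_lit 11) true (nat_lit 15) false (nat_lit 5) true (nat_lit 13) true (nat_lit 13) (.s true (nat_lit 1) (nat_lit 101) (nat_lit 1) (nat_lit 1) (nat_lit 2) true (nat_lit 10) true (nat_lit 13)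 false (nat_lit 6) true (nat_lit 14) true (nat_lit 14) (.s true (nat_lit 2) (nat_lit 99) (nat_lit 2) (nat_lit 1) (nat_lit 1) true (nat_lit 10) true (nat_lit 14) false (nat_lit 6) true (nat_lit 13) true (nat_lit 14) (.s true (nat_lit 1) (nat_lit 100) (nat_lit 2) (nat_lit 1) (nat_lit 1) true (nat_lit 10) true (nat_lit 14) false (nat_lit 6) true (nat_lit 13) true (nat_lit 14) (.s false (nat_lit 1) (nat_lit 101) (nat_lit 2) (nat_lit 1) (nat_lit 1) true (nat_lit 10) true (nat_lit 14) false (nat_lit 6) true (nat_lit 13) true (nat_lit 14) (.s true (nat_lit 3) (nat_lit 104) (nat_lit 0) (nat_lit 2) (nat_lit 1) true (nat_lit 12) true (nat_lit 14) false (nat_lit 7) true (nat_lit 15) true (nat_lit 13) (.s false (nat_lit 3) (nat_lit 104) (nat_lit 1) (nat_lit 2) (nat_lit 0) true (nat_lit 12) true (nat_lit 15) false (nat_lit 7) true (nat_lit 14) true (nat_lit 13) (.s true (nat_lit 1) (nat_lit 106) (nat_lit 1) (nat_lit 1) (nat_lit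 0) true (nat_lit 12) true (nat_lit 15) false (nat_lit 8) true (nat_lit 14) true (nat_lit 14) (.e false (nat_lit 2) (nat_lit 161) (nat_lit 6) (nat_lit 9) (.e true (nat_lit 3) (nat_lit 170) (nat_lit 6) (nat_lit 9) (.e true (nat_lit 3) (nat_lit 172) (nat_lit 6) (nat_lit 9) (.e false (nat_lit 3) (nat_lit 291) (nat_lit 2) (nat_lit 13) (.e false (nat_lit 2) (nat_lit 301) (nat_lit 2) (nat_lit 13) (.e false (nat_lit 1) (nat_lit 307) (nat_lit 2) (nat_lit 13) (.e true (nat_lit 2) (nat_lit 292) (nat_lit 2) (nat_lit 13) (.e false (nat_lit 3) (nat_lit 294) (nat_lit 2) (nat_lit 13) (.e true (nat_lit 3) (nat_lit 310) (nat_lit 2) (nat_lit 13) (.e true (nat_lit 3) (nat_lit 316) (nat_lit 2) (nat_lit 13) (.e false (nat_lit 3) (nat_lit 318) (nat_lit 2) (nat_lit 13) (.e true (nat_lit 3) (nat_lit 312) (nat_lit 2) (nat_lit 13) (.e true (nat_lit 2) (nat_lit 193) (nat_lit 5) (nat_lit 10) (.e false (nat_lit 1) (nat_lit 336) (nat_lit 1) (nat_lit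 14) dC1d_i411)))))))))))))))))))))))))

noncomputable def dC1d_i413 : IL := (.s true (nat_lit 2) (nat_lit 46) (nat_lit 4) (nat_lit 1) (nat_lit 1) true (nat_lit 7) true (nat_lit 14) false (nat_lit 2) true (nat_lit 11) true (nat_lit 14) (.s true (nat_lit 2) (nat_lit 46) (nat_lit 5) (nat_lit 0) (nat_lit 1) true (nat_lit 6) true (nat_lit 14) false (nat_lit 2) true (nat_lit 10) true (nat_lit 15) (.s false (nat_lit 2) (nat_lit 46) (nat_lit 5) (nat_lit 1) (nat_lit 0) true (nat_lit 7) true (nat_lit 15) false (nat_lit 2) true (nat_lit 10) true (nat_lit 14) (.s false (nat_lit 2) (nat_lit 72) (nat_lit 2) (nat_lit 2) (nat_lit 2) true (nat_lit 9) true (nat_lit 13) false (nat_lit 3) true (nat_lit 13) true (nat_lit 13) (.s false (nat_lit 1) (nat_lit 75) (nat_lit 2) (nat_lit 2) (nat_lit 2) true (nat_lit 9) true (nat_lit 13) false (nat_lit 3) true (nat_lit 13) true (nat_lit 13) (.s true (nat_lit 1) (nat_lit 82) (nat_lit 1) (nat_lit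 2) (nat_lit 2) true (nat_lit 10) true (nat_lit 13) false (nat_lit 4) true (nat_lit 14) true (nat_lit 13) (.s false (nat_lit 2) (nat_lit 83) (nat_lit 1) (nat_lit 2) (nat_lit 2) true (nat_lit 10) true (nat_lit 13) false (nat_lit 4) true (nat_lit 14) true (nat_lit 13) (.s false (nat_lit 1) (nat_lit 84) (nat_lit 1) (nat_lit 2) (nat_lit 2) true (nat_lit 10) true (nat_lit 13) false (nat_lit 4) true (nat_lit 14) true (nat_lit 13) (.s false (nat_lit 3) (nat_lit 85) (nat_lit 1) (nat_lit 2) (nat_lit 2) true (nat_lit 10) true (nat_lit 13) false (nat_lit 4) true (nat_lit 14) true (nat_lit 13) (.s false (nat_lit 2) (nat_lit 86) (nat_lit 1) (nat_lit 2) (nat_lit 2) true (nat_lit 10) true (nat_lit 13) false (nat_lit 4) true (nat_lit 14) true (nat_lit 13) (.s false (nat_lit 2) (nat_lit 87) (nat_lit 1) (nat_lit 2) (nat_lit 2) true (nat_lit 10) true (nat_lit 13) false (nat_lit 4) true (nat_lit 14) true (nat_lit 13) (.s true (nat_lit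 3) (nat_lit 88) (nat_lit 1) (nat_lit 2) (nat_lit 2) true (nat_lit 10) true (nat_lit 13) false (nat_lit 4) true (nat_lit 14) true (nat_lit 13) (.s false (nat_lit 1) (nat_lit 89) (nat_lit 1) (nat_lit 2) (nat_lit 2) true (nat_lit 10) true (nat_lit 13) false (nat_lit 4) true (nat_lit 14) true (nat_lit 13) (.s true (nat_lit 2) (nat_lit 90) (nat_lit 1) (nat_lit 2) (nat_lit 2) true (nat_lit 10) true (nat_lit 13) false (nat_lit 4) true (nat_lit 14) true (nat_lit 13) (.s true (nat_lit 1) (nat_lit 82) (nat_lit 2) (nat_lit 1) (nat_lit 2) true (nat_lit 9) true (nat_lit 13) false (nat_lit 4) true (nat_lit 13) true (nat_lit 14) (.s false (nat_lit 3) (nat_lit 83) (nat_lit 2) (nat_lit 1) (nat_lit 2) true (nat_lit 9) true (nat_lit 13) false (nat_lit 4) true (nat_lit 13) true (nat_lit 14) (.s false (nat_lit 3) (nat_lit 85) (nat_lit 2) (nat_lit 1) (nat_lit 2) true (nat_lit 9) true (nat_lit 13) false (nat_lit 4) true (nat_lit 13) true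 (nat_lit 14) (.s false (nat_lit 3) (nat_lit 90) (nat_lit 2) (nat_lit 1) (nat_lit 2) true (nat_lit 9) true (nat_lit 13) false (nat_lit 4) true (nat_lit 13) true (nat_lit 14) (.s false (nat_lit 1) (nat_lit 91) (nat_lit 2) (nat_lit 1) (nat_lit 2) true (nat_lit 9) true (nat_lit 13) false (nat_lit 4) true (nat_lit 13) true (nat_lit 14) (.s false (nat_lit 2) (nat_lit 82) (nat_lit 2) (nat_lit 2) (nat_lit 1) true (nat_lit 10) true (nat_lit 14) false (nat_lit 4) true (nat_lit 13) true (nat_lit 13) (.s true (nat_lit 2) (nat_lit 83) (nat_lit 2) (nat_lit 2) (nat_lit 1) true (nat_lit 10) true (nat_lit 14) false (nat_lit 4) true (nat_lit 13) true (nat_lit 13) (.s false (nat_lit 2) (nat_lit 86) (nat_lit 2) (nat_lit 2) (nat_lit 1) true (nat_lit 10) true (nat_lit 14) false (nat_lit 4) true (nat_lit 13) true (nat_lit 13) (.s false (nat_lit 3) (nat_lit 87) (nat_lit 2) (nat_lit 2) (nat_lit 1) true (nat_lit 10) true (nat_lit 14) false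 (nat_lit 4) true (nat_lit 13) true (nat_lit 13) (.s false (nat_lit 1) (nat_lit 88) (nat_lit 2) (nat_lit 2) (nat_lit 1) true (nat_lit 10) true (nat_lit 14) false (nat_lit 4) true (nat_lit 13) true (nat_lit 13) (.s true (nat_lit 1) (nat_lit 92) (nat_lit 2) (nat_lit 2) (nat_lit 1) true (nat_lit 10) true (nat_lit 14) false (nat_lit 4) true (nat_lit 13) true (nat_lit 13) dC1d_i412)))))))))))))))))))))))))

noncomputable def dC1d_i414 : IL := (.s false (nat_lit 1) (nat_lit 31) (nat_lit 2) (nat_lit 1) (nat_lit 6) true (nat_lit 3) true (nat_lit 9) true (nat_lit 1) true (nat_lit 13) true (nat_lit 14) (.s false (nat_lit 1) (nat_lit 34) (nat_lit 2) (nat_lit 1) (nat_lit 6) true (nat_lit 3) true (nat_lit 9) true (nat_lit 1) true (nat_lit 13) true (nat_lit 14) (.s true (nat_lit 1) (nat_lit 31) (nat_lit 2) (nat_lit 2) (nat_lit 5) true (nat_lit 4) true (nat_lit 10) true (nat_lit 1) true (nat_lit 13) true (nat_lit 13) (.s true (nat_lit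 3) (nat_lit 32) (nat_lit 2) (nat_lit 2) (nat_lit 5) true (nat_lit 4) true (nat_lit 10) true (nat_lit 1) true (nat_lit 13) true (nat_lit 13) (.s true (nat_lit 1) (nat_lit 34) (nat_lit 2) (nat_lit 2) (nat_lit 5) true (nat_lit 4) true (nat_lit 10) true (nat_lit 1) true (nat_lit 13) true (nat_lit 13) (.s true (nat_lit 3) (nat_lit 35) (nat_lit 2) (nat_lit 2) (nat_lit 5) true (nat_lit 4) true (nat_lit 10) true (nat_lit 1) true (nat_lit 13) true (nat_lit 13) (.s true (nat_lit 1) (nat_lit 36) (nat_lit 2) (nat_lit 2) (nat_lit 5) true (nat_lit 4) true (nat_lit 10) true (nat_lit 1) true (nat_lit 13) true (nat_lit 13) (.s false (nat_lit 1) (nat_lit 32) (nat_lit 2) (nat_lit 5) (nat_lit 2) true (nat_lit 9) true (nat_lit 13) true (nat_lit 1) true (nat_lit 13) true (nat_lit 10) (.s true (nat_lit 3) (nat_lit 31) (nat_lit 5) (nat_lit 2) (nat_lit 2) true (nat_lit 4) true (nat_lit 13) true (nat_lit 1) true (nat_lit 10) true (nat_lit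 13) (.s true (nat_lit 3) (nat_lit 32) (nat_lit 5) (nat_lit 2) (nat_lit 2) true (nat_lit 4) true (nat_lit 13) true (nat_lit 1) true (nat_lit 10) true (nat_lit 13) (.s true (nat_lit 1) (nat_lit 36) (nat_lit 5) (nat_lit 2) (nat_lit 2) true (nat_lit 4) true (nat_lit 13) true (nat_lit 1) true (nat_lit 10) true (nat_lit 13) (.s true (nat_lit 2) (nat_lit 38) (nat_lit 0) (nat_lit 6) (nat_lit 2) true (nat_lit 11) true (nat_lit 13) true (nat_lit 0) true (nat_lit 15) true (nat_lit 9) (.s true (nat_lit 2) (nat_lit 45) (nat_lit 0) (nat_lit 5) (nat_lit 2) true (nat_lit 11) true (nat_lit 13) false (nat_lit 1) true (nat_lit 15) true (nat_lit 10) (.s false (nat_lit 1) (nat_lit 45) (nat_lit 1) (nat_lit 2) (nat_lit 4) true (nat_lit 7) true (nat_lit 11) false (nat_lit 1) true (nat_lit 14) true (nat_lit 13) (.s true (nat_lit 1) (nat_lit 44) (nat_lit 2) (nat_lit 3) (nat_lit 2) true (nat_lit 9) true (nat_lit 13) false (nat_lit 1) true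 (nat_lit 13) true (nat_lit 12) (.s true (nat_lit 3) (nat_lit 45) (nat_lit 2) (nat_lit 3) (nat_lit 2) true (nat_lit 9) true (nat_lit 13) false (nat_lit 1) true (nat_lit 13) true (nat_lit 12) (.s true (nat_lit 3) (nat_lit 44) (nat_lit 3) (nat_lit 2) (nat_lit 2) true (nat_lit 7) true (nat_lit 13) false (nat_lit 1) true (nat_lit 12) true (nat_lit 13) (.s true (nat_lit 1) (nat_lit 45) (nat_lit 3) (nat_lit 2) (nat_lit 2) true (nat_lit 7) true (nat_lit 13) false (nat_lit 1) true (nat_lit 12) true (nat_lit 13) (.s true (nat_lit 2) (nat_lit 43) (nat_lit 4) (nat_lit 2) (nat_lit 1) true (nat_lit 7) true (nat_lit 14) false (nat_lit 1) true (nat_lit 11) true (nat_lit 13) (.s true (nat_lit 1) (nat_lit 45) (nat_lit 4) (nat_lit 2) (nat_lit 1) true (nat_lit 7) true (nat_lit 14) false (nat_lit 1) true (nat_lit 11) true (nat_lit 13) (.s true (nat_lit 3) (nat_lit 45) (nat_lit 5) (nat_lit 2) (nat_lit 0) true (nat_lit 7) true (nat_lit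 15) false (nat_lit 1) true (nat_lit 10) true (nat_lit 13) (.s true (nat_lit 2) (nat_lit 45) (nat_lit 6) (nat_lit 1) (nat_lit 0) true (nat_lit 5) true (nat_lit 15) false (nat_lit 1) true (nat_lit 9) true (nat_lit 14) (.s true (nat_lit 3) (nat_lit 46) (nat_lit 1) (nat_lit 0) (nat_lit 5) true (nat_lit 6) true (nat_lit 10) false (nat_lit 2) true (nat_lit 14) true (nat_lit 15) (.s false (nat_lit 2) (nat_lit 46) (nat_lit 1) (nat_lit 4) (nat_lit 1) false (nat_lit 16) true (nat_lit 14) false (nat_lit 2) true (nat_lit 14) true (nat_lit 11) (.s false (nat_lit 3) (nat_lit 46) (nat_lit 1) (nat_lit 5) (nat_lit 0) true (nat_lit 12) true (nat_lit 15) false (nat_lit 2) true (nat_lit 14) true (nat_lit 10) dC1d_i413)))))))))))))))))))))))))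

noncomputable def dC1d_i415 : IL := (.s true (nat_lit 1) (nat_lit 18) (nat_lit 1) (nat_lit 3) (nat_lit 6) true (nat_lit 4) true (nat_lit 9) true (nat_lit 3) true (nat_lit 14) true (nat_lit 12) (.s true (nat_lit 3) (nat_lit 18) (nat_lit 1) (nat_lit 5) (nat_lit 4) true (nat_lit 7) true (nat_lit 11) true (nat_lit 3) true (nat_lit 14) true (nat_lit 10) (.s false (nat_lit 1) (nat_lit 18) (nat_lit 1) (nat_lit 11) (nat_lit 2) true (nat_lit 10) true (nat_lit 13) true (nat_lit 3) true (nat_lit 14) true (nat_lit 7) (.s false (nat_lit 2) (nat_lit 18) (nat_lit 1) (nat_lit 12) (nat_lit 2) true (nat_lit 10) true (nat_lit 13) true (nat_lit 3) true (nat_lit 14) true (nat_lit 7) (.s true (nat_lit 2) (nat_lit 18) (nat_lit 1) (nat_lit 14) (nat_lit 1) false (nat_lit 16) true (nat_lit 14) true (nat_lit 3) true (nat_lit 14) true (nat_lit 5) (.s true (nat_lit 1) (nat_lit 18) (nat_lit 1) (nat_lit 17) (nat_lit 0) true (nat_lit 12) true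 (nat_lit 15) true (nat_lit 3) true (nat_lit 14) true (nat_lit 4) (.s true (nat_lit 2) (nat_lit 18) (nat_lit 2) (nat_lit 1) (nat_lit 10) true (nat_lit 1) true (nat_lit 7) true (nat_lit 3) true (nat_lit 13) true (nat_lit 14) (.s true (nat_lit 1) (nat_lit 18) (nat_lit 2) (nat_lit 1) (nat_lit 11) true (nat_lit 1) true (nat_lit 7) true (nat_lit 3) true (nat_lit 13) true (nat_lit 14) (.s false (nat_lit 2) (nat_lit 18) (nat_lit 2) (nat_lit 3) (nat_lit 5) true (nat_lit 4) true (nat_lit 10) true (nat_lit 3) true (nat_lit 13) true (nat_lit 12) (.s false (nat_lit 2) (nat_lit 18) (nat_lit 2) (nat_lit 11) (nat_lit 1) true (nat_lit 10) true (nat_lit 14) true (nat_lit 3) true (nat_lit 13) true (nat_lit 7) (.s false (nat_lit 3) (nat_lit 18) (nat_lit 5) (nat_lit 3) (nat_lit 2) true (nat_lit 4) true (nat_lit 13) true (nat_lit 3) true (nat_lit 10) true (nat_lit 12) (.s true (nat_lit 2) (nat_lit 18) (nat_lit 8) (nat_lit 2) (nat_lit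 2) true (nat_lit 2) true (nat_lit 13) true (nat_lit 3) true (nat_lit 8) true (nat_lit 13) (.s true (nat_lit 2) (nat_lit 18) (nat_lit 14) (nat_lit 1) (nat_lit 1) true (nat_lit 1) true (nat_lit 14) true (nat_lit 3) true (nat_lit 5) true (nat_lit 14) (.s false (nat_lit 2) (nat_lit 18) (nat_lit 16) (nat_lit 0) (nat_lit 1) true (nat_lit 0) true (nat_lit 14) true (nat_lit 3) true (nat_lit 4) true (nat_lit 15) (.s true (nat_lit 3) (nat_lit 24) (nat_lit 2) (nat_lit 2) (nat_lit 6) true (nat_lit 3) true (nat_lit 9) true (nat_lit 2) true (nat_lit 13) true (nat_lit 13) (.s false (nat_lit 3) (nat_lit 25) (nat_lit 2) (nat_lit 2) (nat_lit 6) true (nat_lit 3) true (nat_lit 9) true (nat_lit 2) true (nat_lit 13) true (nat_lit 13) (.s false (nat_lit 2) (nat_lit 26) (nat_lit 2) (nat_lit 2) (nat_lit 6) true (nat_lit 3) true (nat_lit 9) true (nat_lit 2) true (nat_lit 13) true (nat_lit 13) (.s false (nat_lit 1) (nat_lit 27) (nat_lit 2)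 (nat_lit 2) (nat_lit 6) true (nat_lit 3) true (nat_lit 9) true (nat_lit 2) true (nat_lit 13) true (nat_lit 13) (.s false (nat_lit 1) (nat_lit 25) (nat_lit 2) (nat_lit 6) (nat_lit 2) true (nat_lit 9) true (nat_lit 13) true (nat_lit 2) true (nat_lit 13) true (nat_lit 9) (.s false (nat_lit 2) (nat_lit 25) (nat_lit 6) (nat_lit 2) (nat_lit 2) true (nat_lit 3) true (nat_lit 13) true (nat_lit 2) true (nat_lit 9) true (nat_lit 13) (.s false (nat_lit 3) (nat_lit 32) (nat_lit 1) (nat_lit 2) (nat_lit 6) true (nat_lit 4) true (nat_lit 9) true (nat_lit 1) true (nat_lit 14) true (nat_lit 13) (.s false (nat_lit 3) (nat_lit 35) (nat_lit 1) (nat_lit 2) (nat_lit 6) true (nat_lit 4) true (nat_lit 9) true (nat_lit 1) true (nat_lit 14) true (nat_lit 13) (.s false (nat_lit 1) (nat_lit 36) (nat_lit 1) (nat_lit 2) (nat_lit 6) true (nat_lit 4) true (nat_lit 9) true (nat_lit 1) true (nat_lit 14) true (nat_lit 13) (.s false (nat_lit 2) (nat_lit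 32) (nat_lit 1) (nat_lit 6) (nat_lit 2) true (nat_lit 10) true (nat_lit 13) true (nat_lit 1) true (nat_lit 14) true (nat_lit 9) (.s false (nat_lit 1) (nat_lit 34) (nat_lit 1) (nat_lit 6) (nat_lit 2) true (nat_lit 10) true (nat_lit 13) true (nat_lit 1) true (nat_lit 14) true (nat_lit 9) dC1d_i414)))))))))))))))))))))))))

noncomputable def dC1d_i416 : IL := (.e true (nat_lit 3) (nat_lit 331) (nat_lit 1) (nat_lit 14) (.e false (nat_lit 1) (nat_lit 333) (nat_lit 1) (nat_lit 14) (.e false (nat_lit 2) (nat_lit 334) (nat_lit 1) (nat_lit 14) (.e false (nat_lit 2) (nat_lit 335) (nat_lit 1) (nat_lit 14) (.e false (nat_lit 3) (nat_lit 340) (nat_lit 1) (nat_lit 14) (.e true (nat_lit 3) (nat_lit 345) (nat_lit 1) (nat_lit 14) (.e true (nat_lit 1) (nat_lit 338) (nat_lit 1) (nat_lit 14) (.e true (nat_lit 3) (nat_lit 170) (nat_lit 6) (nat_lit 9) (.e true (nat_lit 3) (nat_lit 74) (nat_lit 18) (nat_lit 3) (.e true (nat_lit 2) (nat_lit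 316) (nat_lit 2) (nat_lit 13) (.e false (nat_lit 3) (nat_lit 83) (nat_lit 16) (nat_lit 4) (.e false (nat_lit 2) (nat_lit 181) (nat_lit 5) (nat_lit 10) (.e false (nat_lit 1) (nat_lit 182) (nat_lit 5) (nat_lit 10) (.e true (nat_lit 1) (nat_lit 183) (nat_lit 5) (nat_lit 10) (.e false (nat_lit 1) (nat_lit 185) (nat_lit 5) (nat_lit 10) (.e false (nat_lit 1) (nat_lit 82) (nat_lit 17) (nat_lit 4) (.e true (nat_lit 2) (nat_lit 180) (nat_lit 5) (nat_lit 10) (.e true (nat_lit 2) (nat_lit 348) (nat_lit 0) (nat_lit 15) (.e false (nat_lit 2) (nat_lit 350) (nat_lit 0) (nat_lit 15) (.e true (nat_lit 1) (nat_lit 352) (nat_lit 0) (nat_lit 15) (.e false (nat_lit 3) (nat_lit 351) (nat_lit 0) (nat_lit 15) (.e true (nat_lit 1) (nat_lit 347) (nat_lit 0) (nat_lit 15) (.e false (nat_lit 3) (nat_lit 302) (nat_lit 2) (nat_lit 13) (.e false (nat_lit 3) (nat_lit 312) (nat_lit 2) (nat_lit 13) (.u (nat_lit 2) (.p (nat_lit 0) (nat_lit 1) (.p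 (nat_lit 2) (nat_lit 2) (.p (nat_lit 3) (nat_lit 2) (.n (nat_lit 4) (nat_lit 2) (.n (nat_lit 6) (nat_lit 3) (.n (nat_lit 10) (nat_lit 4) (.p (nat_lit 11) (nat_lit 4) (.p (nat_lit 12) (nat_lit 3) (.p (nat_lit 13) (nat_lit 1) (.n (nat_lit 15) (nat_lit 3) (.n (nat_lit 16) (nat_lit 3) (.n (nat_lit 17) (nat_lit 1) (.p (nat_lit 19) (nat_lit 1) (.p (nat_lit 23) (nat_lit 1) (.n (nat_lit 26) (nat_lit 2) (.n (nat_lit 65) (nat_lit 1) (.p (nat_lit 69) (nat_lit 1) (.p (nat_lit 74) (nat_lit 1) (.p (nat_lit 95) (nat_lit 1) (.n (nat_lit 113) (nat_lit 1) (.n (nat_lit 114) (nat_lit 1) (.p (nat_lit 124) (nat_lit 1) (.p (nat_lit 125) (nat_lit 1) (.p (nat_lit 136) (nat_lit 1) (.p (nat_lit 143) (nat_lit 3) (.n (nat_lit 158) (nat_lit 1) (.n (nat_lit 170) (nat_lit 1) (.p (nat_lit 173) (nat_lit 4) (.p (nat_lit 174) (nat_lit 8) (.p (nat_lit 175) (nat_lit 1) (.n (nat_lit 176) (nat_lit 1) (.n (nat_lit 177) (nat_lit 2) (.n (nat_lit 181) (nat_lit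 1) (.p (nat_lit 182) (nat_lit 5) (.n (nat_lit 184) (nat_lit 3) (.n (nat_lit 187) (nat_lit 4) (.p (nat_lit 190) (nat_lit 3) (.p (nat_lit 191) (nat_lit 3) (.n (nat_lit 193) (nat_lit 1) (.n (nat_lit 194) (nat_lit 2) (.p (nat_lit 199) (nat_lit 2) (.n (nat_lit 200) (nat_lit 6) (.n (nat_lit 202) (nat_lit 1) (.n (nat_lit 204) (nat_lit 1) (.p (nat_lit 206) (nat_lit 1) (.n (nat_lit 208) (nat_lit 1) (.p (nat_lit 211) (nat_lit 1) (.n (nat_lit 212) (nat_lit 4) (.n (nat_lit 213) (nat_lit 2) (.n (nat_lit 215) (nat_lit 1) (.p (nat_lit 216) (nat_lit 1) (.n (nat_lit 221) (nat_lit 1) (.p (nat_lit 222) (nat_lit 1) (.p (nat_lit 223) (nat_lit 1) (.n (nat_lit 224) (nat_lit 3) (.p (nat_lit 225) (nat_lit 3) (.n (nat_lit 227) (nat_lit 2) (.p (nat_lit 228) (nat_lit 1) .z)))))))))))))))))))))))))))))))))))))))))))))))))))))))))) .nil)))))))))))))))))))))))))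

noncomputable def dC1d_i417 : IL := (.s false (nat_lit 3) (nat_lit 46) (nat_lit 1) (nat_lit 2) (nat_lit 3) true (nat_lit 8) true (nat_lit 12) false (nat_lit 2) true (nat_lit 14) true (nat_lit 13) (.s false (nat_lit 3) (nat_lit 46) (nat_lit 1) (nat_lit 3) (nat_lit 2) true (nat_lit 10) true (nat_lit 13) false (nat_lit 2) true (nat_lit 14) true (nat_lit 12) (.s true (nat_lit 1) (nat_lit 46) (nat_lit 2) (nat_lit 3) (nat_lit 1) true (nat_lit 10) true (nat_lit 14) false (nat_lit 2) true (nat_lit 13) true (nat_lit 12) (.s true (nat_lit 3) (nat_lit 46) (nat_lit 5) (nat_lit 0) (nat_lit 1) true (nat_lit 6) true (nat_lit 14) false (nat_lit 2) true (nat_lit 10) true (nat_lit 15) (.s true (nat_lit 3) (nat_lit 70) (nat_lit 2) (nat_lit 2) (nat_lit 2) true (nat_lit 9) true (nat_lit 13) false (nat_lit 3) true (nat_lit 13) true (nat_lit 13) (.s false (nat_lit 2) (nat_lit 75) (nat_lit 2) (nat_lit 2) (nat_lit 2) true (nat_lit 9) true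 (nat_lit 13) false (nat_lit 3) true (nat_lit 13) true (nat_lit 13) (.s false (nat_lit 3) (nat_lit 84) (nat_lit 1) (nat_lit 2) (nat_lit 2) true (nat_lit 10) true (nat_lit 13) false (nat_lit 4) true (nat_lit 14) true (nat_lit 13) (.s true (nat_lit 3) (nat_lit 85) (nat_lit 1) (nat_lit 2) (nat_lit 2) true (nat_lit 10) true (nat_lit 13) false (nat_lit 4) true (nat_lit 14) true (nat_lit 13) (.s false (nat_lit 3) (nat_lit 87) (nat_lit 1) (nat_lit 2) (nat_lit 2) true (nat_lit 10) true (nat_lit 13) false (nat_lit 4) true (nat_lit 14) true (nat_lit 13) (.s true (nat_lit 2) (nat_lit 82) (nat_lit 2) (nat_lit 1) (nat_lit 2) true (nat_lit 9) true (nat_lit 13) false (nat_lit 4) true (nat_lit 13) true (nat_lit 14) (.s true (nat_lit 1) (nat_lit 106) (nat_lit 1) (nat_lit 0) (nat_lit 1) false (nat_lit 16) true (nat_lit 14) false (nat_lit 8) true (nat_lit 14) true (nat_lit 15) (.e false (nat_lit 2) (nat_lit 171) (nat_lit 6) (nat_lit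 9) (.e false (nat_lit 1) (nat_lit 336) (nat_lit 1) (nat_lit 14) (.e false (nat_lit 2) (nat_lit 291) (nat_lit 2) (nat_lit 13) (.e true (nat_lit 3) (nat_lit 294) (nat_lit 2) (nat_lit 13) (.e true (nat_lit 3) (nat_lit 298) (nat_lit 2) (nat_lit 13) (.e true (nat_lit 2) (nat_lit 307) (nat_lit 2) (nat_lit 13) (.e false (nat_lit 1) (nat_lit 311) (nat_lit 2) (nat_lit 13) (.e false (nat_lit 2) (nat_lit 319) (nat_lit 2) (nat_lit 13) (.e false (nat_lit 1) (nat_lit 290) (nat_lit 2) (nat_lit 13) (.e false (nat_lit 1) (nat_lit 292) (nat_lit 2) (nat_lit 13) (.e false (nat_lit 2) (nat_lit 310) (nat_lit 2) (nat_lit 13) (.e true (nat_lit 1) (nat_lit 328) (nat_lit 1) (nat_lit 14) (.e false (nat_lit 3) (nat_lit 329) (nat_lit 1) (nat_lit 14) (.e true (nat_lit 2) (nat_lit 330) (nat_lit 1) (nat_lit 14) dC1d_i416)))))))))))))))))))))))))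

noncomputable def dC1d_i418 : IL := (.e true (nat_lit 1) (nat_lit 162) (nat_lit 6) (nat_lit 9) (.e false (nat_lit 1) (nat_lit 167) (nat_lit 6) (nat_lit 9) (.e false (nat_lit 2) (nat_lit 170) (nat_lit 6) (nat_lit 9) (.e true (nat_lit 1) (nat_lit 173) (nat_lit 6) (nat_lit 9) (.e true (nat_lit 2) (nat_lit 298) (nat_lit 2) (nat_lit 13) (.e true (nat_lit 2) (nat_lit 328) (nat_lit 1) (nat_lit 14) (.e true (nat_lit 2) (nat_lit 329) (nat_lit 1) (nat_lit 14) (.e true (nat_lit 3) (nat_lit 330) (nat_lit 1) (nat_lit 14) (.e true (nat_lit 1) (nat_lit 331) (nat_lit 1) (nat_lit 14) (.e true (nat_lit 2) (nat_lit 332) (nat_lit 1) (nat_lit 14) (.e true (nat_lit 2) (nat_lit 334) (nat_lit 1) (nat_lit 14) (.e true (nat_lit 2) (nat_lit 335) (nat_lit 1) (nat_lit 14) (.e false (nat_lit 1) (nat_lit 336) (nat_lit 1) (nat_lit 14) (.e false (nat_lit 1) (nat_lit 338) (nat_lit 1) (nat_lit 14) (.e false (nat_lit 1) (nat_lit 340) (nat_lit 1)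 (nat_lit 14) (.e true (nat_lit 2) (nat_lit 341) (nat_lit 1) (nat_lit 14) (.e false (nat_lit 1) (nat_lit 83) (nat_lit 16) (nat_lit 4) (.e true (nat_lit 2) (nat_lit 347) (nat_lit 0) (nat_lit 15) (.e true (nat_lit 3) (nat_lit 348) (nat_lit 0) (nat_lit 15) (.e true (nat_lit 2) (nat_lit 349) (nat_lit 0) (nat_lit 15) (.e true (nat_lit 1) (nat_lit 350) (nat_lit 0) (nat_lit 15) (.e false (nat_lit 2) (nat_lit 352) (nat_lit 0) (nat_lit 15) (.e false (nat_lit 3) (nat_lit 353) (nat_lit 0) (nat_lit 15) (.u (nat_lit 2) (.n (nat_lit 0) (nat_lit 1) (.n (nat_lit 1) (nat_lit 2) (.n (nat_lit 2) (nat_lit 6) (.p (nat_lit 3) (nat_lit 5) (.p (nat_lit 4) (nat_lit 1) (.n (nat_lit 5) (nat_lit 9) (.p (nat_lit 6) (nat_lit 1) (.n (nat_lit 7) (nat_lit 2) (.p (nat_lit 8) (nat_lit 2) (.p (nat_lit 9) (nat_lit 1) (.p (nat_lit 10) (nat_lit 1) (.n (nat_lit 12) (nat_lit 2) (.p (nat_lit 14) (nat_lit 1) (.p (nat_lit 15) (nat_lit 2) (.n (nat_lit 16) (nat_lit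 4) (.n (nat_lit 17) (nat_lit 3) (.p (nat_lit 18) (nat_lit 1) (.p (nat_lit 19) (nat_lit 2) (.n (nat_lit 20) (nat_lit 1) (.p (nat_lit 21) (nat_lit 1) (.n (nat_lit 23) (nat_lit 2) (.p (nat_lit 26) (nat_lit 1) (.n (nat_lit 29) (nat_lit 4) (.p (nat_lit 33) (nat_lit 1) (.p (nat_lit 117) (nat_lit 1) (.p (nat_lit 118) (nat_lit 1) (.p (nat_lit 140) (nat_lit 1) (.n (nat_lit 155) (nat_lit 1) (.p (nat_lit 170) (nat_lit 1) (.n (nat_lit 173) (nat_lit 2) (.p (nat_lit 174) (nat_lit 4) (.p (nat_lit 175) (nat_lit 1) (.p (nat_lit 176) (nat_lit 5) (.p (nat_lit 178) (nat_lit 3) (.p (nat_lit 179) (nat_lit 1) (.n (nat_lit 180) (nat_lit 7) (.p (nat_lit 181) (nat_lit 3) (.n (nat_lit 182) (nat_lit 8) (.n (nat_lit 183) (nat_lit 10) (.p (nat_lit 184) (nat_lit 6) (.p (nat_lit 185) (nat_lit 2) (.n (nat_lit 186) (nat_lit 3) (.n (nat_lit 187) (nat_lit 5) (.p (nat_lit 188) (nat_lit 1) (.p (nat_lit 189) (nat_lit 3) (.p (nat_lit 190) (nat_lit 1)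 (.p (nat_lit 191) (nat_lit 5) (.n (nat_lit 192) (nat_lit 4) (.n (nat_lit 193) (nat_lit 2) (.n (nat_lit 194) (nat_lit 1) (.n (nat_lit 195) (nat_lit 2) (.n (nat_lit 196) (nat_lit 6) (.n (nat_lit 198) (nat_lit 3) (.p (nat_lit 199) (nat_lit 1) (.p (nat_lit 200) (nat_lit 3) (.n (nat_lit 201) (nat_lit 2) (.p (nat_lit 202) (nat_lit 1) (.n (nat_lit 203) (nat_lit 1) (.n (nat_lit 204) (nat_lit 1) (.p (nat_lit 207) (nat_lit 2) .z)))))))))))))))))))))))))))))))))))))))))))))))))))))))))))) (.u (nat_lit 2) (.p (nat_lit 208) (nat_lit 1) (.n (nat_lit 211) (nat_lit 1) (.n (nat_lit 212) (nat_lit 1) (.p (nat_lit 213) (nat_lit 1) (.p (nat_lit 215) (nat_lit 1) (.n (nat_lit 222) (nat_lit 1) (.n (nat_lit 224) (nat_lit 1) (.p (nat_lit 225) (nat_lit 1) (.p (nat_lit 227) (nat_lit 1) .z))))))))) .nil)))))))))))))))))))))))))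

noncomputable def dC1d_i419 : IL := (.e false (nat_lit 2) (nat_lit 309) (nat_lit 2) (nat_lit 13) (.e true (nat_lit 2) (nat_lit 310) (nat_lit 2) (nat_lit 13) (.e false (nat_lit 1) (nat_lit 311) (nat_lit 2) (nat_lit 13) (.e false (nat_lit 2) (nat_lit 316) (nat_lit 2) (nat_lit 13) (.e false (nat_lit 3) (nat_lit 317) (nat_lit 2) (nat_lit 13) (.e true (nat_lit 3) (nat_lit 318) (nat_lit 2) (nat_lit 13) (.e true (nat_lit 1) (nat_lit 319) (nat_lit 2) (nat_lit 13) (.e true (nat_lit 2) (nat_lit 189) (nat_lit 5) (nat_lit 10) (.e false (nat_lit 2) (nat_lit 193) (nat_lit 5) (nat_lit 10) (.e false (nat_lit 3) (nat_lit 345) (nat_lit 1) (nat_lit 14) (.e false (nat_lit 1) (nat_lit 46) (nat_lit 24) (nat_lit 2) (.e false (nat_lit 1) (nat_lit 181) (nat_lit 5) (nat_lit 10) (.e true (nat_lit 1) (nat_lit 182) (nat_lit 5) (nat_lit 10) (.e false (nat_lit 1) (nat_lit 183) (nat_lit 5) (nat_lit 10) (.e true (nat_lit 1) (nat_lit 185) (nat_lit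 5) (nat_lit 10) (.e true (nat_lit 1) (nat_lit 188) (nat_lit 5) (nat_lit 10) (.e false (nat_lit 1) (nat_lit 75) (nat_lit 18) (nat_lit 3) (.e true (nat_lit 3) (nat_lit 209) (nat_lit 3) (nat_lit 12) (.e true (nat_lit 1) (nat_lit 210) (nat_lit 3) (nat_lit 12) (.e false (nat_lit 1) (nat_lit 211) (nat_lit 3) (nat_lit 12) (.e false (nat_lit 3) (nat_lit 301) (nat_lit 2) (nat_lit 13) (.e true (nat_lit 3) (nat_lit 308) (nat_lit 2) (nat_lit 13) (.e true (nat_lit 2) (nat_lit 153) (nat_lit 6) (nat_lit 9) (.e true (nat_lit 2) (nat_lit 154) (nat_lit 6) (nat_lit 9) (.e true (nat_lit 1) (nat_lit 157) (nat_lit 6) (nat_lit 9) dC1d_i418)))))))))))))))))))))))))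

noncomputable def dC1d_i420 : IL := (.e true (nat_lit 3) (nat_lit 172) (nat_lit 6) (nat_lit 9) (.e true (nat_lit 1) (nat_lit 316) (nat_lit 2) (nat_lit 13) (.e true (nat_lit 1) (nat_lit 318) (nat_lit 2) (nat_lit 13) (.e true (nat_lit 2) (nat_lit 336) (nat_lit 1) (nat_lit 14) (.e false (nat_lit 2) (nat_lit 340) (nat_lit 1) (nat_lit 14) (.e true (nat_lit 3) (nat_lit 312) (nat_lit 2) (nat_lit 13) (.e true (nat_lit 2) (nat_lit 74) (nat_lit 18) (nat_lit 3) (.e true (nat_lit 2) (nat_lit 348) (nat_lit 0) (nat_lit 15) (.e true (nat_lit 1) (nat_lit 350) (nat_lit 0) (nat_lit 15) (.e true (nat_lit 2) (nat_lit 351) (nat_lit 0) (nat_lit 15) (.e true (nat_lit 2) (nat_lit 352) (nat_lit 0) (nat_lit 15) (.e true (nat_lit 3) (nat_lit 347) (nat_lit 0) (nat_lit 15) (.e true (nat_lit 1) (nat_lit 349) (nat_lit 0) (nat_lit 15) (.e false (nat_lit 1) (nat_lit 328) (nat_lit 1) (nat_lit 14) (.e false (nat_lit 1) (nat_lit 329) (nat_lit 1)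 (nat_lit 14) (.e true (nat_lit 2) (nat_lit 330) (nat_lit 1) (nat_lit 14) (.e false (nat_lit 1) (nat_lit 331) (nat_lit 1) (nat_lit 14) (.e true (nat_lit 1) (nat_lit 332) (nat_lit 1) (nat_lit 14) (.e false (nat_lit 1) (nat_lit 334) (nat_lit 1) (nat_lit 14) (.e false (nat_lit 1) (nat_lit 335) (nat_lit 1) (nat_lit 14) (.e true (nat_lit 3) (nat_lit 337) (nat_lit 1) (nat_lit 14) (.e true (nat_lit 1) (nat_lit 338) (nat_lit 1) (nat_lit 14) (.e false (nat_lit 2) (nat_lit 193) (nat_lit 5) (nat_lit 10) (.u (nat_lit 2) (.n (nat_lit 0) (nat_lit 1) (.n (nat_lit 2) (nat_lit 2) (.p (nat_lit 4) (nat_lit 2) (.n (nat_lit 5) (nat_lit 1) (.n (nat_lit 7) (nat_lit 1) (.p (nat_lit 8) (nat_lit 1) (.p (nat_lit 9) (nat_lit 1) (.p (nat_lit 11) (nat_lit 1) (.n (nat_lit 12) (nat_lit 1) (.n (nat_lit 13) (nat_lit 1) (.n (nat_lit 14) (nat_lit 1) (.n (nat_lit 19) (nat_lit 1) (.p (nat_lit 22) (nat_lit 1) (.n (nat_lit 30) (nat_lit 1) (.p (nat_lit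 33) (nat_lit 1) (.n (nat_lit 45) (nat_lit 1) (.n (nat_lit 50) (nat_lit 1) (.n (nat_lit 61) (nat_lit 1) (.p (nat_lit 62) (nat_lit 1) (.p (nat_lit 64) (nat_lit 1) (.p (nat_lit 65) (nat_lit 4) (.p (nat_lit 66) (nat_lit 1) (.n (nat_lit 67) (nat_lit 2) (.p (nat_lit 68) (nat_lit 2) (.p (nat_lit 69) (nat_lit 2) (.n (nat_lit 71) (nat_lit 1) (.p (nat_lit 72) (nat_lit 1) (.n (nat_lit 73) (nat_lit 2) (.n (nat_lit 74) (nat_lit 1) (.p (nat_lit 79) (nat_lit 1) (.n (nat_lit 81) (nat_lit 1) (.p (nat_lit 87) (nat_lit 1) (.p (nat_lit 88) (nat_lit 1) (.n (nat_lit 89) (nat_lit 1) (.n (nat_lit 92) (nat_lit 1) (.n (nat_lit 95) (nat_lit 1) (.p (nat_lit 97) (nat_lit 1) (.n (nat_lit 117) (nat_lit 1) (.p (nat_lit 119) (nat_lit 1) (.n (nat_lit 121) (nat_lit 1) (.p (nat_lit 123) (nat_lit 1) (.n (nat_lit 125) (nat_lit 3) (.n (nat_lit 126) (nat_lit 4) (.p (nat_lit 127) (nat_lit 1) (.n (nat_lit 128) (nat_lit 2) (.n (nat_lit 129) (nat_lit 3) (.n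 (nat_lit 130) (nat_lit 2) (.p (nat_lit 133) (nat_lit 1) (.p (nat_lit 135) (nat_lit 2) (.p (nat_lit 136) (nat_lit 1) (.n (nat_lit 137) (nat_lit 1) (.p (nat_lit 139) (nat_lit 2) (.p (nat_lit 140) (nat_lit 1) (.p (nat_lit 142) (nat_lit 1) (.p (nat_lit 144) (nat_lit 2) (.n (nat_lit 145) (nat_lit 1) (.p (nat_lit 146) (nat_lit 2) (.n (nat_lit 147) (nat_lit 1) (.n (nat_lit 148) (nat_lit 2) (.n (nat_lit 149) (nat_lit 1) .z)))))))))))))))))))))))))))))))))))))))))))))))))))))))))))) (.u (nat_lit 2) (.n (nat_lit 150) (nat_lit 2) (.n (nat_lit 151) (nat_lit 4) (.p (nat_lit 152) (nat_lit 1) (.p (nat_lit 153) (nat_lit 1) (.n (nat_lit 154) (nat_lit 2) (.p (nat_lit 155) (nat_lit 3) (.p (nat_lit 156) (nat_lit 3) (.n (nat_lit 158) (nat_lit 1) (.p (nat_lit 171) (nat_lit 1) (.n (nat_lit 172) (nat_lit 1) (.p (nat_lit 173) (nat_lit 2) (.n (nat_lit 174) (nat_lit 1) (.n (nat_lit 175) (nat_lit 3) (.p (nat_lit 176) (nat_lit 16) (.n (nat_lit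 177) (nat_lit 2) (.p (nat_lit 178) (nat_lit 6) (.n (nat_lit 179) (nat_lit 4) (.p (nat_lit 180) (nat_lit 4) (.p (nat_lit 181) (nat_lit 7) (.n (nat_lit 182) (nat_lit 2) (.n (nat_lit 183) (nat_lit 7) (.p (nat_lit 184) (nat_lit 11) (.n (nat_lit 185) (nat_lit 6) (.n (nat_lit 186) (nat_lit 2) (.n (nat_lit 187) (nat_lit 18) (.n (nat_lit 190) (nat_lit 7) (.n (nat_lit 192) (nat_lit 3) (.p (nat_lit 193) (nat_lit 12) (.n (nat_lit 195) (nat_lit 1) (.p (nat_lit 196) (nat_lit 1) (.n (nat_lit 199) (nat_lit 4) (.n (nat_lit 200) (nat_lit 1) (.p (nat_lit 201) (nat_lit 1) (.p (nat_lit 202) (nat_lit 2) (.n (nat_lit 203) (nat_lit 11) (.n (nat_lit 204) (nat_lit 1) (.n (nat_lit 206) (nat_lit 5) (.p (nat_lit 207) (nat_lit 8) (.p (nat_lit 208) (nat_lit 3) (.p (nat_lit 209) (nat_lit 4) (.p (nat_lit 210) (nat_lit 4) (.p (nat_lit 212) (nat_lit 7) (.n (nat_lit 213) (nat_lit 1) (.n (nat_lit 215) (nat_lit 2) (.n (nat_lit 216) (nat_lit 1) (.p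 (nat_lit 219) (nat_lit 2) (.n (nat_lit 220) (nat_lit 2) (.p (nat_lit 222) (nat_lit 2) (.n (nat_lit 224) (nat_lit 1) (.n (nat_lit 225) (nat_lit 4) (.p (nat_lit 226) (nat_lit 2) (.p (nat_lit 227) (nat_lit 1) .z)))))))))))))))))))))))))))))))))))))))))))))))))))) .nil)))))))))))))))))))))))))

noncomputable def dC1d_i421 : IL := (.s true (nat_lit 3) (nat_lit 82) (nat_lit 1) (nat_lit 2) (nat_lit 2) true (nat_lit 10) true (nat_lit 13) false (nat_lit 4) true (nat_lit 14) true (nat_lit 13) (.s false (nat_lit 2) (nat_lit 84) (nat_lit 1) (nat_lit 2) (nat_lit 2) true (nat_lit 10) true (nat_lit 13) false (nat_lit 4) true (nat_lit 14) true (nat_lit 13) (.s false (nat_lit 2) (nat_lit 85) (nat_lit 1) (nat_lit 2) (nat_lit 2) true (nat_lit 10) true (nat_lit 13) false (nat_lit 4) true (nat_lit 14) true (nat_lit 13) (.s true (nat_lit 3) (nat_lit 87) (nat_lit 1) (nat_lit 2) (nat_lit 2) true (nat_lit 10) true (nat_lit 13) false (nat_lit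 4) true (nat_lit 14) true (nat_lit 13) (.s true (nat_lit 2) (nat_lit 90) (nat_lit 1) (nat_lit 2) (nat_lit 2) true (nat_lit 10) true (nat_lit 13) false (nat_lit 4) true (nat_lit 14) true (nat_lit 13) (.s true (nat_lit 1) (nat_lit 91) (nat_lit 1) (nat_lit 2) (nat_lit 2) true (nat_lit 10) true (nat_lit 13) false (nat_lit 4) true (nat_lit 14) true (nat_lit 13) (.s false (nat_lit 1) (nat_lit 83) (nat_lit 2) (nat_lit 1) (nat_lit 2) true (nat_lit 9) true (nat_lit 13) false (nat_lit 4) true (nat_lit 13) true (nat_lit 14) (.s true (nat_lit 1) (nat_lit 85) (nat_lit 2) (nat_lit 1) (nat_lit 2) true (nat_lit 9) true (nat_lit 13) false (nat_lit 4) true (nat_lit 13) true (nat_lit 14) (.s true (nat_lit 3) (nat_lit 90) (nat_lit 2) (nat_lit 1) (nat_lit 2) true (nat_lit 9) true (nat_lit 13) false (nat_lit 4) true (nat_lit 13) true (nat_lit 14) (.s true (nat_lit 1) (nat_lit 91) (nat_lit 2) (nat_lit 1) (nat_lit 2) true (nat_lit 9) true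 (nat_lit 13) false (nat_lit 4) true (nat_lit 13) true (nat_lit 14) (.s true (nat_lit 1) (nat_lit 82) (nat_lit 2) (nat_lit 2) (nat_lit 1) true (nat_lit 10) true (nat_lit 14) false (nat_lit 4) true (nat_lit 13) true (nat_lit 13) (.s true (nat_lit 3) (nat_lit 84) (nat_lit 2) (nat_lit 2) (nat_lit 1) true (nat_lit 10) true (nat_lit 14) false (nat_lit 4) true (nat_lit 13) true (nat_lit 13) (.s false (nat_lit 3) (nat_lit 85) (nat_lit 2) (nat_lit 2) (nat_lit 1) true (nat_lit 10) true (nat_lit 14) false (nat_lit 4) true (nat_lit 13) true (nat_lit 13) (.s false (nat_lit 3) (nat_lit 87) (nat_lit 2) (nat_lit 2) (nat_lit 1) true (nat_lit 10) true (nat_lit 14) false (nat_lit 4) true (nat_lit 13) true (nat_lit 13) (.s false (nat_lit 2) (nat_lit 90) (nat_lit 2) (nat_lit 2) (nat_lit 1) true (nat_lit 10) true (nat_lit 14) false (nat_lit 4) true (nat_lit 13) true (nat_lit 13) (.s true (nat_lit 1) (nat_lit 92) (nat_lit 2) (nat_lit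 2) (nat_lit 1) true (nat_lit 10) true (nat_lit 14) false (nat_lit 4) true (nat_lit 13) true (nat_lit 13) (.s true (nat_lit 1) (nat_lit 100) (nat_lit 1) (nat_lit 2) (nat_lit 1) false (nat_lit 16) true (nat_lit 14) false (nat_lit 6) true (nat_lit 14) true (nat_lit 13) (.s false (nat_lit 2) (nat_lit 99) (nat_lit 2) (nat_lit 1) (nat_lit 1) true (nat_lit 10) true (nat_lit 14) false (nat_lit 6) true (nat_lit 13) true (nat_lit 14) (.s true (nat_lit 2) (nat_lit 101) (nat_lit 2) (nat_lit 1) (nat_lit 1) true (nat_lit 10) true (nat_lit 14) false (nat_lit 6) true (nat_lit 13) true (nat_lit 14) (.s false (nat_lit 2) (nat_lit 104) (nat_lit 1) (nat_lit 2) (nat_lit 0) true (nat_lit 12) true (nat_lit 15) false (nat_lit 7) true (nat_lit 14) true (nat_lit 13) (.s true (nat_lit 2) (nat_lit 104) (nat_lit 2) (nat_lit 0) (nat_lit 1) true (nat_lit 10) true (nat_lit 14) false (nat_lit 7) true (nat_lit 13) true (nat_lit 15) (.s false (nat_lit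 1) (nat_lit 106) (nat_lit 1) (nat_lit 0) (nat_lit 1) false (nat_lit 16) true (nat_lit 14) false (nat_lit 8) true (nat_lit 14) true (nat_lit 15) (.s true (nat_lit 3) (nat_lit 106) (nat_lit 1) (nat_lit 1) (nat_lit 0) true (nat_lit 12) true (nat_lit 15) false (nat_lit 8) true (nat_lit 14) true (nat_lit 14) (.e false (nat_lit 3) (nat_lit 161) (nat_lit 6) (nat_lit 9) (.e false (nat_lit 3) (nat_lit 307) (nat_lit 2) (nat_lit 13) dC1d_i420)))))))))))))))))))))))))

noncomputable def dC1d_i422 : IL := (.s false (nat_lit 3) (nat_lit 31) (nat_lit 2) (nat_lit 2) (nat_lit 5) true (nat_lit 4) true (nat_lit 10) true (nat_lit 1) true (nat_lit 13) true (nat_lit 13) (.s false (nat_lit 2) (nat_lit 32) (nat_lit 2) (nat_lit 2) (nat_lit 5) true (nat_lit 4) true (nat_lit 10) true (nat_lit 1) true (nat_lit 13) true (nat_lit 13) (.s false (nat_lit 2) (nat_lit 34) (nat_lit 2) (nat_lit 2) (nat_lit 5) true (nat_lit 4) true (nat_lit 10) true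 (nat_lit 1) true (nat_lit 13) true (nat_lit 13) (.s true (nat_lit 2) (nat_lit 36) (nat_lit 2) (nat_lit 2) (nat_lit 5) true (nat_lit 4) true (nat_lit 10) true (nat_lit 1) true (nat_lit 13) true (nat_lit 13) (.s false (nat_lit 3) (nat_lit 32) (nat_lit 2) (nat_lit 5) (nat_lit 2) true (nat_lit 9) true (nat_lit 13) true (nat_lit 1) true (nat_lit 13) true (nat_lit 10) (.s true (nat_lit 2) (nat_lit 36) (nat_lit 2) (nat_lit 6) (nat_lit 1) true (nat_lit 10) true (nat_lit 14) true (nat_lit 1) true (nat_lit 13) true (nat_lit 9) (.s false (nat_lit 2) (nat_lit 31) (nat_lit 5) (nat_lit 2) (nat_lit 2) true (nat_lit 4) true (nat_lit 13) true (nat_lit 1) true (nat_lit 10) true (nat_lit 13) (.s true (nat_lit 3) (nat_lit 32) (nat_lit 5) (nat_lit 2) (nat_lit 2) true (nat_lit 4) true (nat_lit 13) true (nat_lit 1) true (nat_lit 10) true (nat_lit 13) (.s false (nat_lit 1) (nat_lit 33) (nat_lit 5) (nat_lit 2) (nat_lit 2) true (nat_lit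 4) true (nat_lit 13) true (nat_lit 1) true (nat_lit 10) true (nat_lit 13) (.s false (nat_lit 2) (nat_lit 42) (nat_lit 5) (nat_lit 2) (nat_lit 1) true (nat_lit 6) true (nat_lit 14) false (nat_lit 0) true (nat_lit 10) true (nat_lit 13) (.s true (nat_lit 3) (nat_lit 42) (nat_lit 6) (nat_lit 1) (nat_lit 1) true (nat_lit 4) true (nat_lit 14) false (nat_lit 0) true (nat_lit 9) true (nat_lit 14) (.s true (nat_lit 2) (nat_lit 44) (nat_lit 2) (nat_lit 3) (nat_lit 2) true (nat_lit 9) true (nat_lit 13) false (nat_lit 1) true (nat_lit 13) true (nat_lit 12) (.s false (nat_lit 2) (nat_lit 45) (nat_lit 3) (nat_lit 2) (nat_lit 2) true (nat_lit 7) true (nat_lit 13) false (nat_lit 1) true (nat_lit 12) true (nat_lit 13) (.s true (nat_lit 1) (nat_lit 45) (nat_lit 5) (nat_lit 2) (nat_lit 0) true (nat_lit 7) true (nat_lit 15) false (nat_lit 1) true (nat_lit 10) true (nat_lit 13) (.s true (nat_lit 3) (nat_lit 45) (nat_lit 6) (nat_lit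 1) (nat_lit 0) true (nat_lit 5) true (nat_lit 15) false (nat_lit 1) true (nat_lit 9) true (nat_lit 14) (.s true (nat_lit 1) (nat_lit 46) (nat_lit 1) (nat_lit 2) (nat_lit 3) true (nat_lit 8) true (nat_lit 12) false (nat_lit 2) true (nat_lit 14) true (nat_lit 13) (.s true (nat_lit 1) (nat_lit 46) (nat_lit 1) (nat_lit 5) (nat_lit 0) true (nat_lit 12) true (nat_lit 15) false (nat_lit 2) true (nat_lit 14) true (nat_lit 10) (.s false (nat_lit 3) (nat_lit 46) (nat_lit 2) (nat_lit 3) (nat_lit 1) true (nat_lit 10) true (nat_lit 14) false (nat_lit 2) true (nat_lit 13) true (nat_lit 12) (.s false (nat_lit 1) (nat_lit 46) (nat_lit 4) (nat_lit 1) (nat_lit 1) true (nat_lit 7) true (nat_lit 14) false (nat_lit 2) true (nat_lit 11) true (nat_lit 14) (.s true (nat_lit 3) (nat_lit 46) (nat_lit 5) (nat_lit 0) (nat_lit 1) true (nat_lit 6) true (nat_lit 14) false (nat_lit 2) true (nat_lit 10) true (nat_lit 15) (.s true (nat_lit 3) (nat_lit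 70) (nat_lit 2) (nat_lit 2) (nat_lit 2) true (nat_lit 9) true (nat_lit 13) false (nat_lit 3) true (nat_lit 13) true (nat_lit 13) (.s false (nat_lit 3) (nat_lit 71) (nat_lit 2) (nat_lit 2) (nat_lit 2) true (nat_lit 9) true (nat_lit 13) false (nat_lit 3) true (nat_lit 13) true (nat_lit 13) (.s true (nat_lit 1) (nat_lit 72) (nat_lit 2) (nat_lit 2) (nat_lit 2) true (nat_lit 9) true (nat_lit 13) false (nat_lit 3) true (nat_lit 13) true (nat_lit 13) (.s false (nat_lit 2) (nat_lit 75) (nat_lit 2) (nat_lit 2) (nat_lit 2) true (nat_lit 9) true (nat_lit 13) false (nat_lit 3) true (nat_lit 13) true (nat_lit 13) (.s false (nat_lit 2) (nat_lit 76) (nat_lit 2) (nat_lit 2) (nat_lit 2) true (nat_lit 9) true (nat_lit 13) false (nat_lit 3) true (nat_lit 13) true (nat_lit 13) dC1d_i421)))))))))))))))))))))))))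

noncomputable def dC1d_i423 : IL := (.s false (nat_lit 1) (nat_lit 18) (nat_lit 1) (nat_lit 2) (nat_lit 11) true (nat_lit 2) true (nat_lit 7) true (nat_lit 3) true (nat_lit 14) true (nat_lit 13) (.s false (nat_lit 3) (nat_lit 18) (nat_lit 1) (nat_lit 2) (nat_lit 12) true (nat_lit 2) true (nat_lit 7) true (nat_lit 3) true (nat_lit 14) true (nat_lit 13) (.s true (nat_lit 2) (nat_lit 18) (nat_lit 2) (nat_lit 1) (nat_lit 10) true (nat_lit 1) true (nat_lit 7) true (nat_lit 3) true (nat_lit 13) true (nat_lit 14) (.s true (nat_lit 3) (nat_lit 18) (nat_lit 2) (nat_lit 1) (nat_lit 11) true (nat_lit 1) true (nat_lit 7) true (nat_lit 3) true (nat_lit 13) true (nat_lit 14) (.s false (nat_lit 2) (nat_lit 18) (nat_lit 2) (nat_lit 2) (nat_lit 8) true (nat_lit 2) true (nat_lit 8) true (nat_lit 3) true (nat_lit 13) true (nat_lit 13) (.s true (nat_lit 2) (nat_lit 18) (nat_lit 2) (nat_lit 3) (nat_lit 5) true (nat_lit 4) true (nat_lit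 10) true (nat_lit 3) true (nat_lit 13) true (nat_lit 12) (.s true (nat_lit 3) (nat_lit 18) (nat_lit 2) (nat_lit 5) (nat_lit 3) true (nat_lit 7) true (nat_lit 12) true (nat_lit 3) true (nat_lit 13) true (nat_lit 10) (.s false (nat_lit 1) (nat_lit 18) (nat_lit 2) (nat_lit 13) (nat_lit 0) true (nat_lit 11) true (nat_lit 15) true (nat_lit 3) true (nat_lit 13) true (nat_lit 6) (.s false (nat_lit 1) (nat_lit 18) (nat_lit 3) (nat_lit 6) (nat_lit 1) true (nat_lit 8) true (nat_lit 14) true (nat_lit 3) true (nat_lit 12) true (nat_lit 9) (.s false (nat_lit 3) (nat_lit 18) (nat_lit 8) (nat_lit 2) (nat_lit 2) true (nat_lit 2) true (nat_lit 13) true (nat_lit 3) true (nat_lit 8) true (nat_lit 13) (.s false (nat_lit 3) (nat_lit 18) (nat_lit 12) (nat_lit 2) (nat_lit 1) true (nat_lit 2) true (nat_lit 14) true (nat_lit 3) true (nat_lit 7) true (nat_lit 13) (.s false (nat_lit 2) (nat_lit 18) (nat_lit 14) (nat_lit 1) (nat_lit 1) true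 (nat_lit 1) true (nat_lit 14) true (nat_lit 3) true (nat_lit 5) true (nat_lit 14) (.s true (nat_lit 2) (nat_lit 18) (nat_lit 16) (nat_lit 0) (nat_lit 1) true (nat_lit 0) true (nat_lit 14) true (nat_lit 3) true (nat_lit 4) true (nat_lit 15) (.s true (nat_lit 1) (nat_lit 24) (nat_lit 2) (nat_lit 2) (nat_lit 6) true (nat_lit 3) true (nat_lit 9) true (nat_lit 2) true (nat_lit 13) true (nat_lit 13) (.s false (nat_lit 3) (nat_lit 25) (nat_lit 2) (nat_lit 2) (nat_lit 6) true (nat_lit 3) true (nat_lit 9) true (nat_lit 2) true (nat_lit 13) true (nat_lit 13) (.s false (nat_lit 3) (nat_lit 26) (nat_lit 2) (nat_lit 2) (nat_lit 6) true (nat_lit 3) true (nat_lit 9) true (nat_lit 2) true (nat_lit 13) true (nat_lit 13) (.s true (nat_lit 2) (nat_lit 27) (nat_lit 2) (nat_lit 2) (nat_lit 6) true (nat_lit 3) true (nat_lit 9) true (nat_lit 2) true (nat_lit 13) true (nat_lit 13) (.s true (nat_lit 2) (nat_lit 25) (nat_lit 2) (nat_lit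 6) (nat_lit 2) true (nat_lit 9) true (nat_lit 13) true (nat_lit 2) true (nat_lit 13) true (nat_lit 9) (.s false (nat_lit 1) (nat_lit 26) (nat_lit 2) (nat_lit 6) (nat_lit 2) true (nat_lit 9) true (nat_lit 13) true (nat_lit 2) true (nat_lit 13) true (nat_lit 9) (.s false (nat_lit 1) (nat_lit 25) (nat_lit 6) (nat_lit 2) (nat_lit 2) true (nat_lit 3) true (nat_lit 13) true (nat_lit 2) true (nat_lit 9) true (nat_lit 13) (.s true (nat_lit 2) (nat_lit 32) (nat_lit 1) (nat_lit 2) (nat_lit 6) true (nat_lit 4) true (nat_lit 9) true (nat_lit 1) true (nat_lit 14) true (nat_lit 13) (.s true (nat_lit 1) (nat_lit 36) (nat_lit 1) (nat_lit 2) (nat_lit 6) true (nat_lit 4) true (nat_lit 9) true (nat_lit 1) true (nat_lit 14) true (nat_lit 13) (.s true (nat_lit 3) (nat_lit 31) (nat_lit 1) (nat_lit 6) (nat_lit 2) true (nat_lit 10) true (nat_lit 13) true (nat_lit 1) true (nat_lit 14) true (nat_lit 9) (.s true (nat_lit 1) (nat_lit 34) (nat_lit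 1) (nat_lit 6) (nat_lit 2) true (nat_lit 10) true (nat_lit 13) true (nat_lit 1) true (nat_lit 14) true (nat_lit 9) (.s true (nat_lit 2) (nat_lit 34) (nat_lit 2) (nat_lit 1) (nat_lit 6) true (nat_lit 3) true (nat_lit 9) true (nat_lit 1) true (nat_lit 13) true (nat_lit 14) dC1d_i422)))))))))))))))))))))))))

noncomputable def dC1d_i424 : IL := (.e true (nat_lit 3) (nat_lit 292) (nat_lit 2) (nat_lit 13) (.e false (nat_lit 3) (nat_lit 293) (nat_lit 2) (nat_lit 13) (.e false (nat_lit 3) (nat_lit 294) (nat_lit 2) (nat_lit 13) (.e false (nat_lit 1) (nat_lit 301) (nat_lit 2) (nat_lit 13) (.e true (nat_lit 2) (nat_lit 308) (nat_lit 2) (nat_lit 13) (.e false (nat_lit 1) (nat_lit 310) (nat_lit 2) (nat_lit 13) (.e false (nat_lit 3) (nat_lit 311) (nat_lit 2) (nat_lit 13) (.e false (nat_lit 3) (nat_lit 317) (nat_lit 2) (nat_lit 13) (.e false (nat_lit 1) (nat_lit 319) (nat_lit 2) (nat_lit 13) (.e true (nat_lit 3) (nat_lit 316)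 (nat_lit 2) (nat_lit 13) (.e true (nat_lit 2) (nat_lit 298) (nat_lit 2) (nat_lit 13) (.e false (nat_lit 1) (nat_lit 82) (nat_lit 17) (nat_lit 4) (.e true (nat_lit 2) (nat_lit 328) (nat_lit 1) (nat_lit 14) (.e false (nat_lit 1) (nat_lit 331) (nat_lit 1) (nat_lit 14) (.e true (nat_lit 1) (nat_lit 333) (nat_lit 1) (nat_lit 14) (.e true (nat_lit 2) (nat_lit 336) (nat_lit 1) (nat_lit 14) (.e false (nat_lit 3) (nat_lit 337) (nat_lit 1) (nat_lit 14) (.e false (nat_lit 3) (nat_lit 161) (nat_lit 6) (nat_lit 9) (.e false (nat_lit 3) (nat_lit 74) (nat_lit 18) (nat_lit 3) (.e true (nat_lit 3) (nat_lit 338) (nat_lit 1) (nat_lit 14) (.e true (nat_lit 1) (nat_lit 181) (nat_lit 5) (nat_lit 10) (.e false (nat_lit 1) (nat_lit 182) (nat_lit 5) (nat_lit 10) (.e true (nat_lit 2) (nat_lit 180) (nat_lit 5) (nat_lit 10) (.u (nat_lit 2) (.p (nat_lit 0) (nat_lit 2) (.n (nat_lit 1) (nat_lit 1) (.n (nat_lit 2) (nat_lit 2) (.p (nat_lit 3) (nat_lit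 2) (.p (nat_lit 4) (nat_lit 1) (.n (nat_lit 5) (nat_lit 4) (.n (nat_lit 6) (nat_lit 3) (.n (nat_lit 7) (nat_lit 2) (.p (nat_lit 9) (nat_lit 5) (.n (nat_lit 11) (nat_lit 1) (.p (nat_lit 13) (nat_lit 1) (.p (nat_lit 14) (nat_lit 2) (.n (nat_lit 15) (nat_lit 3) (.n (nat_lit 16) (nat_lit 1) (.n (nat_lit 17) (nat_lit 1) (.p (nat_lit 18) (nat_lit 1) (.p (nat_lit 19) (nat_lit 1) (.n (nat_lit 20) (nat_lit 1) (.p (nat_lit 21) (nat_lit 1) (.p (nat_lit 23) (nat_lit 2) (.n (nat_lit 26) (nat_lit 2) (.n (nat_lit 29) (nat_lit 4) (.p (nat_lit 33) (nat_lit 1) (.n (nat_lit 45) (nat_lit 1) (.p (nat_lit 74) (nat_lit 1) (.p (nat_lit 95) (nat_lit 1) (.n (nat_lit 114) (nat_lit 1) (.p (nat_lit 126) (nat_lit 1) (.p (nat_lit 129) (nat_lit 2) (.n (nat_lit 133) (nat_lit 1) (.p (nat_lit 136) (nat_lit 1) (.n (nat_lit 139) (nat_lit 1) (.n (nat_lit 158) (nat_lit 1) (.n (nat_lit 173) (nat_lit 6) (.p (nat_lit 174) (nat_lit 5) (.p (nat_lit 175) (nat_lit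 3) (.p (nat_lit 176) (nat_lit 2) (.n (nat_lit 177) (nat_lit 4) (.p (nat_lit 178) (nat_lit 3) (.p (nat_lit 179) (nat_lit 4) (.n (nat_lit 180) (nat_lit 4) (.p (nat_lit 181) (nat_lit 3) (.p (nat_lit 182) (nat_lit 3) (.n (nat_lit 183) (nat_lit 1) (.p (nat_lit 184) (nat_lit 6) (.n (nat_lit 185) (nat_lit 1) (.n (nat_lit 187) (nat_lit 4) (.n (nat_lit 188) (nat_lit 2) (.p (nat_lit 190) (nat_lit 7) (.n (nat_lit 191) (nat_lit 3) (.n (nat_lit 193) (nat_lit 1) (.n (nat_lit 194) (nat_lit 3) (.n (nat_lit 195) (nat_lit 1) (.p (nat_lit 196) (nat_lit 1) (.p (nat_lit 199) (nat_lit 4) (.p (nat_lit 201) (nat_lit 1) (.n (nat_lit 203) (nat_lit 3) (.p (nat_lit 204) (nat_lit 2) (.n (nat_lit 205) (nat_lit 2) (.n (nat_lit 206) (nat_lit 2) .z)))))))))))))))))))))))))))))))))))))))))))))))))))))))))))) (.u (nat_lit 2) (.p (nat_lit 207) (nat_lit 2) (.p (nat_lit 208) (nat_lit 3) (.p (nat_lit 209) (nat_lit 1) (.p (nat_lit 210) (nat_lit 1) (.p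 (nat_lit 211) (nat_lit 1) (.n (nat_lit 212) (nat_lit 2) (.p (nat_lit 213) (nat_lit 3) (.n (nat_lit 215) (nat_lit 1) (.p (nat_lit 219) (nat_lit 1) (.n (nat_lit 220) (nat_lit 1) .z)))))))))) .nil)))))))))))))))))))))))))

noncomputable def dC1d_i425 : IL := (.s true (nat_lit 1) (nat_lit 36) (nat_lit 1) (nat_lit 2) (nat_lit 6) true (nat_lit 4) true (nat_lit 9) true (nat_lit 1) true (nat_lit 14) true (nat_lit 13) (.s true (nat_lit 2) (nat_lit 31) (nat_lit 1) (nat_lit 6) (nat_lit 2) true (nat_lit 10) true (nat_lit 13) true (nat_lit 1) true (nat_lit 14) true (nat_lit 9) (.s false (nat_lit 1) (nat_lit 34) (nat_lit 2) (nat_lit 1) (nat_lit 6) true (nat_lit 3) true (nat_lit 9) true (nat_lit 1) true (nat_lit 13) true (nat_lit 14) (.s false (nat_lit 1) (nat_lit 34) (nat_lit 2) (nat_lit 2) (nat_lit 5) true (nat_lit 4) true (nat_lit 10) true (nat_lit 1) true (nat_lit 13) true (nat_lit 13) (.s false (nat_lit 1) (nat_lit 36) (nat_lit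 2) (nat_lit 2) (nat_lit 5) true (nat_lit 4) true (nat_lit 10) true (nat_lit 1) true (nat_lit 13) true (nat_lit 13) (.s false (nat_lit 2) (nat_lit 44) (nat_lit 2) (nat_lit 3) (nat_lit 2) true (nat_lit 9) true (nat_lit 13) false (nat_lit 1) true (nat_lit 13) true (nat_lit 12) (.s false (nat_lit 2) (nat_lit 45) (nat_lit 3) (nat_lit 2) (nat_lit 2) true (nat_lit 7) true (nat_lit 13) false (nat_lit 1) true (nat_lit 12) true (nat_lit 13) (.s false (nat_lit 2) (nat_lit 46) (nat_lit 2) (nat_lit 3) (nat_lit 1) true (nat_lit 10) true (nat_lit 14) false (nat_lit 2) true (nat_lit 13) true (nat_lit 12) (.s false (nat_lit 3) (nat_lit 70) (nat_lit 2) (nat_lit 2) (nat_lit 2) true (nat_lit 9) true (nat_lit 13) false (nat_lit 3) true (nat_lit 13) true (nat_lit 13) (.s false (nat_lit 1) (nat_lit 72) (nat_lit 2) (nat_lit 2) (nat_lit 2) true (nat_lit 9) true (nat_lit 13) false (nat_lit 3) true (nat_lit 13) true (nat_lit 13) (.s false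 (nat_lit 1) (nat_lit 75) (nat_lit 2) (nat_lit 2) (nat_lit 2) true (nat_lit 9) true (nat_lit 13) false (nat_lit 3) true (nat_lit 13) true (nat_lit 13) (.s true (nat_lit 2) (nat_lit 82) (nat_lit 1) (nat_lit 2) (nat_lit 2) true (nat_lit 10) true (nat_lit 13) false (nat_lit 4) true (nat_lit 14) true (nat_lit 13) (.s true (nat_lit 1) (nat_lit 87) (nat_lit 1) (nat_lit 2) (nat_lit 2) true (nat_lit 10) true (nat_lit 13) false (nat_lit 4) true (nat_lit 14) true (nat_lit 13) (.s false (nat_lit 2) (nat_lit 90) (nat_lit 1) (nat_lit 2) (nat_lit 2) true (nat_lit 10) true (nat_lit 13) false (nat_lit 4) true (nat_lit 14) true (nat_lit 13) (.s true (nat_lit 2) (nat_lit 82) (nat_lit 2) (nat_lit 1) (nat_lit 2) true (nat_lit 9) true (nat_lit 13) false (nat_lit 4) true (nat_lit 13) true (nat_lit 14) (.s false (nat_lit 1) (nat_lit 85) (nat_lit 2) (nat_lit 1) (nat_lit 2) true (nat_lit 9) true (nat_lit 13) false (nat_lit 4) true (nat_lit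 13) true (nat_lit 14) (.s false (nat_lit 2) (nat_lit 90) (nat_lit 2) (nat_lit 1) (nat_lit 2) true (nat_lit 9) true (nat_lit 13) false (nat_lit 4) true (nat_lit 13) true (nat_lit 14) (.s true (nat_lit 3) (nat_lit 83) (nat_lit 2) (nat_lit 2) (nat_lit 1) true (nat_lit 10) true (nat_lit 14) false (nat_lit 4) true (nat_lit 13) true (nat_lit 13) (.s false (nat_lit 3) (nat_lit 84) (nat_lit 2) (nat_lit 2) (nat_lit 1) true (nat_lit 10) true (nat_lit 14) false (nat_lit 4) true (nat_lit 13) true (nat_lit 13) (.s true (nat_lit 3) (nat_lit 85) (nat_lit 2) (nat_lit 2) (nat_lit 1) true (nat_lit 10) true (nat_lit 14) false (nat_lit 4) true (nat_lit 13) true (nat_lit 13) (.s false (nat_lit 2) (nat_lit 87) (nat_lit 2) (nat_lit 2) (nat_lit 1) true (nat_lit 10) true (nat_lit 14) false (nat_lit 4) true (nat_lit 13) true (nat_lit 13) (.s true (nat_lit 2) (nat_lit 90) (nat_lit 2) (nat_lit 2) (nat_lit 1) true (nat_lit 10) true (nat_lit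 14) false (nat_lit 4) true (nat_lit 13) true (nat_lit 13) (.e true (nat_lit 1) (nat_lit 171) (nat_lit 6) (nat_lit 9) (.e false (nat_lit 3) (nat_lit 290) (nat_lit 2) (nat_lit 13) (.e true (nat_lit 1) (nat_lit 291) (nat_lit 2) (nat_lit 13) dC1d_i424)))))))))))))))))))))))))

noncomputable def dC1d_i426 : IL := (.e false (nat_lit 1) (nat_lit 45) (nat_lit 36) (nat_lit 1) (.e false (nat_lit 1) (nat_lit 347) (nat_lit 0) (nat_lit 15) (.e true (nat_lit 2) (nat_lit 349) (nat_lit 0) (nat_lit 15) (.e false (nat_lit 1) (nat_lit 350) (nat_lit 0) (nat_lit 15) (.e false (nat_lit 2) (nat_lit 351) (nat_lit 0) (nat_lit 15) (.e true (nat_lit 1) (nat_lit 352) (nat_lit 0) (nat_lit 15) (.e false (nat_lit 1) (nat_lit 353) (nat_lit 0) (nat_lit 15) (.e true (nat_lit 2) (nat_lit 290) (nat_lit 2) (nat_lit 13) (.e true (nat_lit 1) (nat_lit 294) (nat_lit 2) (nat_lit 13) (.e false (nat_lit 2) (nat_lit 296) (nat_lit 2) (nat_lit 13) (.e true (nat_lit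 2) (nat_lit 297) (nat_lit 2) (nat_lit 13) (.e false (nat_lit 2) (nat_lit 298) (nat_lit 2) (nat_lit 13) (.e true (nat_lit 1) (nat_lit 299) (nat_lit 2) (nat_lit 13) (.e true (nat_lit 1) (nat_lit 304) (nat_lit 2) (nat_lit 13) (.e true (nat_lit 3) (nat_lit 307) (nat_lit 2) (nat_lit 13) (.e true (nat_lit 1) (nat_lit 310) (nat_lit 2) (nat_lit 13) (.e true (nat_lit 3) (nat_lit 316) (nat_lit 2) (nat_lit 13) (.e false (nat_lit 3) (nat_lit 318) (nat_lit 2) (nat_lit 13) (.e true (nat_lit 3) (nat_lit 293) (nat_lit 2) (nat_lit 13) (.e true (nat_lit 1) (nat_lit 308) (nat_lit 2) (nat_lit 13) (.e true (nat_lit 3) (nat_lit 317) (nat_lit 2) (nat_lit 13) (.e true (nat_lit 2) (nat_lit 291) (nat_lit 2) (nat_lit 13) (.e true (nat_lit 3) (nat_lit 295) (nat_lit 2) (nat_lit 13) (.e true (nat_lit 3) (nat_lit 301) (nat_lit 2) (nat_lit 13) (.u (nat_lit 2) (.p (nat_lit 0) (nat_lit 1) (.n (nat_lit 1) (nat_lit 2) (.p (nat_lit 2) (nat_lit 2) (.n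 (nat_lit 3) (nat_lit 1) (.p (nat_lit 4) (nat_lit 1) (.p (nat_lit 5) (nat_lit 4) (.p (nat_lit 6) (nat_lit 2) (.p (nat_lit 7) (nat_lit 1) (.p (nat_lit 8) (nat_lit 1) (.n (nat_lit 9) (nat_lit 2) (.n (nat_lit 11) (nat_lit 1) (.n (nat_lit 13) (nat_lit 5) (.n (nat_lit 14) (nat_lit 4) (.p (nat_lit 15) (nat_lit 2) (.p (nat_lit 16) (nat_lit 4) (.p (nat_lit 17) (nat_lit 2) (.p (nat_lit 18) (nat_lit 1) (.p (nat_lit 19) (nat_lit 2) (.n (nat_lit 20) (nat_lit 1) (.n (nat_lit 22) (nat_lit 1) (.n (nat_lit 23) (nat_lit 2) (.p (nat_lit 26) (nat_lit 1) (.p (nat_lit 32) (nat_lit 1) (.n (nat_lit 33) (nat_lit 2) (.n (nat_lit 179) (nat_lit 2) (.n (nat_lit 181) (nat_lit 2) (.n (nat_lit 182) (nat_lit 1) (.p (nat_lit 185) (nat_lit 2) (.n (nat_lit 186) (nat_lit 1) (.n (nat_lit 187) (nat_lit 1) (.p (nat_lit 188) (nat_lit 2) (.p (nat_lit 189) (nat_lit 1) (.n (nat_lit 190) (nat_lit 1) (.n (nat_lit 191) (nat_lit 2) (.n (nat_lit 192) (nat_lit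 1) (.n (nat_lit 193) (nat_lit 2) (.n (nat_lit 194) (nat_lit 2) (.n (nat_lit 197) (nat_lit 1) (.n (nat_lit 198) (nat_lit 2) (.n (nat_lit 199) (nat_lit 1) (.p (nat_lit 200) (nat_lit 1) (.n (nat_lit 201) (nat_lit 4) (.p (nat_lit 202) (nat_lit 2) .z))))))))))))))))))))))))))))))))))))))))))) .nil)))))))))))))))))))))))))

noncomputable def dC1d_i427 : IL := (.s false (nat_lit 1) (nat_lit 46) (nat_lit 1) (nat_lit 5) (nat_lit 0) true (nat_lit 12) true (nat_lit 15) false (nat_lit 2) true (nat_lit 14) true (nat_lit 10) (.s false (nat_lit 1) (nat_lit 46) (nat_lit 2) (nat_lit 3) (nat_lit 1) true (nat_lit 10) true (nat_lit 14) false (nat_lit 2) true (nat_lit 13) true (nat_lit 12) (.s false (nat_lit 1) (nat_lit 46) (nat_lit 5) (nat_lit 0) (nat_lit 1) true (nat_lit 6) true (nat_lit 14) false (nat_lit 2) true (nat_lit 10) true (nat_lit 15) (.s false (nat_lit 1) (nat_lit 70) (nat_lit 2) (nat_lit 2) (nat_lit 2) true (nat_lit 9)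 true (nat_lit 13) false (nat_lit 3) true (nat_lit 13) true (nat_lit 13) (.s true (nat_lit 1) (nat_lit 75) (nat_lit 2) (nat_lit 2) (nat_lit 2) true (nat_lit 9) true (nat_lit 13) false (nat_lit 3) true (nat_lit 13) true (nat_lit 13) (.s false (nat_lit 2) (nat_lit 90) (nat_lit 2) (nat_lit 1) (nat_lit 2) true (nat_lit 9) true (nat_lit 13) false (nat_lit 4) true (nat_lit 13) true (nat_lit 14) (.s true (nat_lit 1) (nat_lit 99) (nat_lit 2) (nat_lit 1) (nat_lit 1) true (nat_lit 10) true (nat_lit 14) false (nat_lit 6) true (nat_lit 13) true (nat_lit 14) (.s false (nat_lit 1) (nat_lit 101) (nat_lit 2) (nat_lit 1) (nat_lit 1) true (nat_lit 10) true (nat_lit 14) false (nat_lit 6) true (nat_lit 13) true (nat_lit 14) (.s false (nat_lit 1) (nat_lit 106) (nat_lit 1) (nat_lit 0) (nat_lit 1) false (nat_lit 16) true (nat_lit 14) false (nat_lit 8) true (nat_lit 14) true (nat_lit 15) (.s false (nat_lit 1) (nat_lit 106) (nat_lit 1) (nat_lit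 1) (nat_lit 0) true (nat_lit 12) true (nat_lit 15) false (nat_lit 8) true (nat_lit 14) true (nat_lit 14) (.e true (nat_lit 2) (nat_lit 290) (nat_lit 2) (nat_lit 13) (.e false (nat_lit 1) (nat_lit 291) (nat_lit 2) (nat_lit 13) (.e false (nat_lit 2) (nat_lit 299) (nat_lit 2) (nat_lit 13) (.e false (nat_lit 2) (nat_lit 301) (nat_lit 2) (nat_lit 13) (.e false (nat_lit 2) (nat_lit 307) (nat_lit 2) (nat_lit 13) (.e false (nat_lit 2) (nat_lit 308) (nat_lit 2) (nat_lit 13) (.e false (nat_lit 1) (nat_lit 310) (nat_lit 2) (nat_lit 13) (.e true (nat_lit 2) (nat_lit 311) (nat_lit 2) (nat_lit 13) (.e false (nat_lit 3) (nat_lit 317) (nat_lit 2) (nat_lit 13) (.e false (nat_lit 2) (nat_lit 319) (nat_lit 2) (nat_lit 13) (.e true (nat_lit 3) (nat_lit 298) (nat_lit 2) (nat_lit 13) (.e true (nat_lit 1) (nat_lit 170) (nat_lit 6) (nat_lit 9) (.e true (nat_lit 1) (nat_lit 74) (nat_lit 18) (nat_lit 3) (.e false (nat_lit 3) (nat_lit 316)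 (nat_lit 2) (nat_lit 13) (.u (nat_lit 2) (.p (nat_lit 0) (nat_lit 1) (.p (nat_lit 1) (nat_lit 4) (.p (nat_lit 3) (nat_lit 1) (.p (nat_lit 4) (nat_lit 1) (.p (nat_lit 5) (nat_lit 1) (.p (nat_lit 7) (nat_lit 1) (.n (nat_lit 8) (nat_lit 1) (.p (nat_lit 9) (nat_lit 1) (.n (nat_lit 14) (nat_lit 2) (.p (nat_lit 15) (nat_lit 2) (.p (nat_lit 16) (nat_lit 2) (.p (nat_lit 17) (nat_lit 1) (.n (nat_lit 19) (nat_lit 1) (.p (nat_lit 21) (nat_lit 1) (.p (nat_lit 143) (nat_lit 1) (.p (nat_lit 173) (nat_lit 1) (.p (nat_lit 174) (nat_lit 2) (.n (nat_lit 177) (nat_lit 3) (.p (nat_lit 182) (nat_lit 3) (.p (nat_lit 184) (nat_lit 1) (.p (nat_lit 187) (nat_lit 1) (.n (nat_lit 191) (nat_lit 2) (.n (nat_lit 200) (nat_lit 1) (.p (nat_lit 204) (nat_lit 1) (.n (nat_lit 205) (nat_lit 1) (.p (nat_lit 208) (nat_lit 1) (.n (nat_lit 212) (nat_lit 1) (.p (nat_lit 213) (nat_lit 1) .z)))))))))))))))))))))))))))) .nil)))))))))))))))))))))))))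

noncomputable def dC1d_i428 : IL := (.s false (nat_lit 1) (nat_lit 18) (nat_lit 1) (nat_lit 2) (nat_lit 11) true (nat_lit 2) true (nat_lit 7) true (nat_lit 3) true (nat_lit 14) true (nat_lit 13) (.e false (nat_lit 1) (nat_lit 46) (nat_lit 26) (nat_lit 2) (.e false (nat_lit 1) (nat_lit 104) (nat_lit 11) (nat_lit 7) (.e true (nat_lit 1) (nat_lit 76) (nat_lit 18) (nat_lit 3) (.e true (nat_lit 1) (nat_lit 340) (nat_lit 1) (nat_lit 14) (.e false (nat_lit 1) (nat_lit 345) (nat_lit 1) (nat_lit 14) (.e true (nat_lit 2) (nat_lit 291) (nat_lit 2) (nat_lit 13) (.e true (nat_lit 1) (nat_lit 292) (nat_lit 2) (nat_lit 13) (.e true (nat_lit 1) (nat_lit 293) (nat_lit 2) (nat_lit 13) (.e true (nat_lit 1) (nat_lit 294) (nat_lit 2) (nat_lit 13) (.e false (nat_lit 1) (nat_lit 295) (nat_lit 2) (nat_lit 13) (.e false (nat_lit 1) (nat_lit 296) (nat_lit 2) (nat_lit 13) (.e true (nat_lit 1) (nat_lit 297) (nat_lit 2) (nat_lit 13) (.e true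 (nat_lit 1) (nat_lit 299) (nat_lit 2) (nat_lit 13) (.e true (nat_lit 3) (nat_lit 300) (nat_lit 2) (nat_lit 13) (.e false (nat_lit 3) (nat_lit 301) (nat_lit 2) (nat_lit 13) (.e false (nat_lit 2) (nat_lit 302) (nat_lit 2) (nat_lit 13) (.e false (nat_lit 3) (nat_lit 304) (nat_lit 2) (nat_lit 13) (.e false (nat_lit 3) (nat_lit 308) (nat_lit 2) (nat_lit 13) (.e true (nat_lit 1) (nat_lit 310) (nat_lit 2) (nat_lit 13) (.e false (nat_lit 2) (nat_lit 317) (nat_lit 2) (nat_lit 13) (.e false (nat_lit 3) (nat_lit 307) (nat_lit 2) (nat_lit 13) (.e false (nat_lit 2) (nat_lit 316) (nat_lit 2) (nat_lit 13) (.e true (nat_lit 3) (nat_lit 318) (nat_lit 2) (nat_lit 13) (.u (nat_lit 2) (.n (nat_lit 0) (nat_lit 3) (.p (nat_lit 1) (nat_lit 2) (.n (nat_lit 2) (nat_lit 1) (.p (nat_lit 3) (nat_lit 2) (.n (nat_lit 4) (nat_lit 1) (.n (nat_lit 5) (nat_lit 3) (.n (nat_lit 7) (nat_lit 2) (.n (nat_lit 8) (nat_lit 1) (.n (nat_lit 9) (nat_lit 5)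 (.p (nat_lit 10) (nat_lit 2) (.p (nat_lit 11) (nat_lit 1) (.n (nat_lit 12) (nat_lit 2) (.n (nat_lit 15) (nat_lit 3) (.n (nat_lit 16) (nat_lit 1) (.n (nat_lit 17) (nat_lit 1) (.p (nat_lit 19) (nat_lit 1) (.p (nat_lit 21) (nat_lit 2) (.n (nat_lit 22) (nat_lit 1) (.p (nat_lit 26) (nat_lit 1) (.n (nat_lit 29) (nat_lit 2) (.n (nat_lit 33) (nat_lit 2) (.p (nat_lit 174) (nat_lit 1) (.p (nat_lit 176) (nat_lit 1) (.n (nat_lit 185) (nat_lit 1) (.n (nat_lit 187) (nat_lit 1) .z))))))))))))))))))))))))) .nil)))))))))))))))))))))))))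

noncomputable def dC1d_i429 : IL := (.s false (nat_lit 3) (nat_lit 88) (nat_lit 2) (nat_lit 2) (nat_lit 1) true (nat_lit 10) true (nat_lit 14) false (nat_lit 4) true (nat_lit 13) true (nat_lit 13) (.e false (nat_lit 3) (nat_lit 186) (nat_lit 5) (nat_lit 10) (.e false (nat_lit 3) (nat_lit 334) (nat_lit 1) (nat_lit 14) (.e true (nat_lit 3) (nat_lit 88) (nat_lit 17) (nat_lit 4) (.e false (nat_lit 3) (nat_lit 290) (nat_lit 2) (nat_lit 13) (.e true (nat_lit 1) (nat_lit 291) (nat_lit 2) (nat_lit 13) (.e true (nat_lit 2) (nat_lit 292) (nat_lit 2) (nat_lit 13) (.e false (nat_lit 3) (nat_lit 294) (nat_lit 2) (nat_lit 13) (.e false (nat_lit 2) (nat_lit 295) (nat_lit 2) (nat_lit 13) (.e true (nat_lit 1) (nat_lit 297) (nat_lit 2) (nat_lit 13) (.e true (nat_lit 1) (nat_lit 298) (nat_lit 2) (nat_lit 13) (.e true (nat_lit 3) (nat_lit 299) (nat_lit 2) (nat_lit 13) (.e false (nat_lit 3) (nat_lit 300) (nat_lit 2) (nat_lit 13) (.e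 false (nat_lit 3) (nat_lit 301) (nat_lit 2) (nat_lit 13) (.e false (nat_lit 2) (nat_lit 303) (nat_lit 2) (nat_lit 13) (.e true (nat_lit 3) (nat_lit 304) (nat_lit 2) (nat_lit 13) (.e false (nat_lit 1) (nat_lit 309) (nat_lit 2) (nat_lit 13) (.e false (nat_lit 3) (nat_lit 311) (nat_lit 2) (nat_lit 13) (.e false (nat_lit 3) (nat_lit 314) (nat_lit 2) (nat_lit 13) (.e true (nat_lit 3) (nat_lit 316) (nat_lit 2) (nat_lit 13) (.e false (nat_lit 1) (nat_lit 317) (nat_lit 2) (nat_lit 13) (.e false (nat_lit 3) (nat_lit 318) (nat_lit 2) (nat_lit 13) (.e true (nat_lit 3) (nat_lit 319) (nat_lit 2) (nat_lit 13) (.e false (nat_lit 3) (nat_lit 308) (nat_lit 2) (nat_lit 13) (.u (nat_lit 2) (.n (nat_lit 0) (nat_lit 1) (.n (nat_lit 1) (nat_lit 5) (.n (nat_lit 2) (nat_lit 3) (.n (nat_lit 4) (nat_lit 2) (.n (nat_lit 5) (nat_lit 5) (.n (nat_lit 7) (nat_lit 3) (.p (nat_lit 8) (nat_lit 1) (.p (nat_lit 9) (nat_lit 3) (.p (nat_lit 10) (nat_lit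 1) (.n (nat_lit 12) (nat_lit 2) (.p (nat_lit 15) (nat_lit 1) (.p (nat_lit 16) (nat_lit 1) (.n (nat_lit 17) (nat_lit 2) (.n (nat_lit 19) (nat_lit 1) (.p (nat_lit 21) (nat_lit 1) (.p (nat_lit 22) (nat_lit 1) (.p (nat_lit 24) (nat_lit 1) (.n (nat_lit 25) (nat_lit 1) (.n (nat_lit 28) (nat_lit 1) (.p (nat_lit 29) (nat_lit 1) (.p (nat_lit 33) (nat_lit 4) (.p (nat_lit 174) (nat_lit 1) (.n (nat_lit 175) (nat_lit 1) (.p (nat_lit 178) (nat_lit 1) (.p (nat_lit 180) (nat_lit 1) (.p (nat_lit 181) (nat_lit 1) (.n (nat_lit 186) (nat_lit 2) (.p (nat_lit 189) (nat_lit 1) (.n (nat_lit 192) (nat_lit 1) (.n (nat_lit 200) (nat_lit 1) .z)))))))))))))))))))))))))))))) .nil)))))))))))))))))))))))))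

noncomputable def dC1d_i430 : IL := (.e true (nat_lit 2) (nat_lit 292) (nat_lit 2) (nat_lit 13) (.e true (nat_lit 3) (nat_lit 294) (nat_lit 2) (nat_lit 13) (.e false (nat_lit 2) (nat_lit 310) (nat_lit 2) (nat_lit 13) (.e true (nat_lit 3) (nat_lit 302) (nat_lit 2) (nat_lit 13) (.e false (nat_lit 3) (nat_lit 312) (nat_lit 2) (nat_lit 13) (.e true (nat_lit 3) (nat_lit 83) (nat_lit 16) (nat_lit 4) (.e false (nat_lit 2) (nat_lit 329) (nat_lit 1) (nat_lit 14) (.e true (nat_lit 3) (nat_lit 330) (nat_lit 1) (nat_lit 14) (.e false (nat_lit 2) (nat_lit 337) (nat_lit 1) (nat_lit 14) (.e true (nat_lit 2) (nat_lit 331) (nat_lit 1) (nat_lit 14) (.e false (nat_lit 3) (nat_lit 333) (nat_lit 1) (nat_lit 14) (.e true (nat_lit 1) (nat_lit 348) (nat_lit 0) (nat_lit 15) (.e true (nat_lit 1) (nat_lit 349) (nat_lit 0) (nat_lit 15) (.e false (nat_lit 2) (nat_lit 352) (nat_lit 0) (nat_lit 15) (.e true (nat_lit 1) (nat_lit 74) (nat_lit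 18) (nat_lit 3) (.e false (nat_lit 2) (nat_lit 181) (nat_lit 5) (nat_lit 10) (.e true (nat_lit 1) (nat_lit 183) (nat_lit 5) (nat_lit 10) (.e false (nat_lit 1) (nat_lit 185) (nat_lit 5) (nat_lit 10) (.e true (nat_lit 2) (nat_lit 328) (nat_lit 1) (nat_lit 14) (.e false (nat_lit 3) (nat_lit 332) (nat_lit 1) (nat_lit 14) (.e true (nat_lit 2) (nat_lit 350) (nat_lit 0) (nat_lit 15) (.e true (nat_lit 3) (nat_lit 161) (nat_lit 6) (nat_lit 9) (.e false (nat_lit 1) (nat_lit 347) (nat_lit 0) (nat_lit 15) (.u (nat_lit 2) (.p (nat_lit 0) (nat_lit 3) (.p (nat_lit 1) (nat_lit 4) (.p (nat_lit 2) (nat_lit 3) (.p (nat_lit 3) (nat_lit 2) (.n (nat_lit 4) (nat_lit 3) (.p (nat_lit 5) (nat_lit 1) (.n (nat_lit 8) (nat_lit 2) (.n (nat_lit 9) (nat_lit 3) (.p (nat_lit 10) (nat_lit 1) (.n (nat_lit 11) (nat_lit 4) (.p (nat_lit 12) (nat_lit 2) (.n (nat_lit 13) (nat_lit 2) (.n (nat_lit 14) (nat_lit 2) (.p (nat_lit 15) (nat_lit 3) (.n (nat_lit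 16) (nat_lit 1) (.n (nat_lit 18) (nat_lit 1) (.n (nat_lit 19) (nat_lit 3) (.p (nat_lit 20) (nat_lit 1) (.p (nat_lit 21) (nat_lit 1) (.n (nat_lit 22) (nat_lit 2) (.n (nat_lit 23) (nat_lit 1) (.p (nat_lit 26) (nat_lit 1) (.n (nat_lit 29) (nat_lit 3) (.p (nat_lit 30) (nat_lit 1) (.n (nat_lit 33) (nat_lit 4) (.n (nat_lit 61) (nat_lit 1) (.p (nat_lit 69) (nat_lit 1) (.n (nat_lit 85) (nat_lit 1) (.p (nat_lit 88) (nat_lit 1) (.n (nat_lit 96) (nat_lit 1) (.n (nat_lit 113) (nat_lit 2) (.n (nat_lit 114) (nat_lit 2) (.p (nat_lit 115) (nat_lit 1) (.p (nat_lit 117) (nat_lit 1) (.p (nat_lit 118) (nat_lit 1) (.n (nat_lit 125) (nat_lit 1) (.n (nat_lit 126) (nat_lit 1) (.p (nat_lit 127) (nat_lit 1) (.n (nat_lit 128) (nat_lit 1) (.n (nat_lit 129) (nat_lit 1) (.p (nat_lit 133) (nat_lit 1) (.n (nat_lit 134) (nat_lit 1) (.n (nat_lit 137) (nat_lit 1) (.p (nat_lit 142) (nat_lit 1) (.p (nat_lit 143) (nat_lit 1) (.n (nat_lit 144) (nat_lit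 1) (.n (nat_lit 145) (nat_lit 1) (.n (nat_lit 147) (nat_lit 1) (.p (nat_lit 159) (nat_lit 1) (.n (nat_lit 163) (nat_lit 1) (.p (nat_lit 172) (nat_lit 1) (.p (nat_lit 173) (nat_lit 2) (.n (nat_lit 176) (nat_lit 15) (.n (nat_lit 177) (nat_lit 1) (.n (nat_lit 178) (nat_lit 5) (.n (nat_lit 179) (nat_lit 6) (.p (nat_lit 180) (nat_lit 6) (.n (nat_lit 181) (nat_lit 1) (.n (nat_lit 182) (nat_lit 6) (.p (nat_lit 183) (nat_lit 5) .z)))))))))))))))))))))))))))))))))))))))))))))))))))))))))))) (.u (nat_lit 2) (.n (nat_lit 184) (nat_lit 7) (.p (nat_lit 185) (nat_lit 9) (.p (nat_lit 187) (nat_lit 2) (.p (nat_lit 191) (nat_lit 3) (.n (nat_lit 192) (nat_lit 2) (.n (nat_lit 193) (nat_lit 3) (.p (nat_lit 194) (nat_lit 1) (.p (nat_lit 195) (nat_lit 4) (.n (nat_lit 199) (nat_lit 3) (.n (nat_lit 200) (nat_lit 7) (.p (nat_lit 201) (nat_lit 2) (.n (nat_lit 202) (nat_lit 1) (.n (nat_lit 203) (nat_lit 1) (.n (nat_lit 204) (nat_lit 2) (.n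 (nat_lit 205) (nat_lit 3) (.p (nat_lit 206) (nat_lit 4) (.n (nat_lit 207) (nat_lit 1) (.n (nat_lit 208) (nat_lit 2) (.p (nat_lit 209) (nat_lit 1) (.p (nat_lit 210) (nat_lit 1) (.p (nat_lit 211) (nat_lit 1) (.n (nat_lit 212) (nat_lit 1) (.p (nat_lit 213) (nat_lit 2) (.p (nat_lit 222) (nat_lit 2) (.p (nat_lit 224) (nat_lit 1) (.n (nat_lit 225) (nat_lit 2) (.n (nat_lit 228) (nat_lit 1) .z))))))))))))))))))))))))))) .nil)))))))))))))))))))))))))

noncomputable def dC1d_i431 : IL := (.s false (nat_lit 3) (nat_lit 90) (nat_lit 2) (nat_lit 1) (nat_lit 2) true (nat_lit 9) true (nat_lit 13) false (nat_lit 4) true (nat_lit 13) true (nat_lit 14) (.s false (nat_lit 2) (nat_lit 91) (nat_lit 2) (nat_lit 1) (nat_lit 2) true (nat_lit 9) true (nat_lit 13) false (nat_lit 4) true (nat_lit 13) true (nat_lit 14) (.s true (nat_lit 2) (nat_lit 83) (nat_lit 2) (nat_lit 2) (nat_lit 1) true (nat_lit 10) true (nat_lit 14) false (nat_lit 4)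 true (nat_lit 13) true (nat_lit 13) (.s true (nat_lit 2) (nat_lit 84) (nat_lit 2) (nat_lit 2) (nat_lit 1) true (nat_lit 10) true (nat_lit 14) false (nat_lit 4) true (nat_lit 13) true (nat_lit 13) (.s false (nat_lit 3) (nat_lit 85) (nat_lit 2) (nat_lit 2) (nat_lit 1) true (nat_lit 10) true (nat_lit 14) false (nat_lit 4) true (nat_lit 13) true (nat_lit 13) (.s true (nat_lit 1) (nat_lit 87) (nat_lit 2) (nat_lit 2) (nat_lit 1) true (nat_lit 10) true (nat_lit 14) false (nat_lit 4) true (nat_lit 13) true (nat_lit 13) (.s false (nat_lit 2) (nat_lit 91) (nat_lit 2) (nat_lit 2) (nat_lit 1) true (nat_lit 10) true (nat_lit 14) false (nat_lit 4) true (nat_lit 13) true (nat_lit 13) (.s true (nat_lit 2) (nat_lit 100) (nat_lit 1) (nat_lit 2) (nat_lit 1) false (nat_lit 16) true (nat_lit 14) false (nat_lit 6) true (nat_lit 14) true (nat_lit 13) (.s false (nat_lit 1) (nat_lit 99) (nat_lit 2) (nat_lit 1) (nat_lit 1) true (nat_lit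 10) true (nat_lit 14) false (nat_lit 6) true (nat_lit 13) true (nat_lit 14) (.s true (nat_lit 1) (nat_lit 101) (nat_lit 2) (nat_lit 1) (nat_lit 1) true (nat_lit 10) true (nat_lit 14) false (nat_lit 6) true (nat_lit 13) true (nat_lit 14) (.s false (nat_lit 1) (nat_lit 106) (nat_lit 1) (nat_lit 0) (nat_lit 1) false (nat_lit 16) true (nat_lit 14) false (nat_lit 8) true (nat_lit 14) true (nat_lit 15) (.s true (nat_lit 2) (nat_lit 106) (nat_lit 1) (nat_lit 1) (nat_lit 0) true (nat_lit 12) true (nat_lit 15) false (nat_lit 8) true (nat_lit 14) true (nat_lit 14) (.e true (nat_lit 3) (nat_lit 171) (nat_lit 6) (nat_lit 9) (.e false (nat_lit 2) (nat_lit 172) (nat_lit 6) (nat_lit 9) (.e false (nat_lit 2) (nat_lit 301) (nat_lit 2) (nat_lit 13) (.e false (nat_lit 2) (nat_lit 317) (nat_lit 2) (nat_lit 13) (.e true (nat_lit 1) (nat_lit 319) (nat_lit 2) (nat_lit 13) (.e false (nat_lit 2) (nat_lit 298) (nat_lit 2) (nat_lit 13) (.e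 true (nat_lit 3) (nat_lit 290) (nat_lit 2) (nat_lit 13) (.e true (nat_lit 1) (nat_lit 316) (nat_lit 2) (nat_lit 13) (.e true (nat_lit 3) (nat_lit 318) (nat_lit 2) (nat_lit 13) (.e true (nat_lit 3) (nat_lit 193) (nat_lit 5) (nat_lit 10) (.e true (nat_lit 2) (nat_lit 336) (nat_lit 1) (nat_lit 14) (.e false (nat_lit 2) (nat_lit 340) (nat_lit 1) (nat_lit 14) (.e true (nat_lit 3) (nat_lit 170) (nat_lit 6) (nat_lit 9) dC1d_i430)))))))))))))))))))))))))

noncomputable def dC1d_i432 : IL := (.s true (nat_lit 2) (nat_lit 34) (nat_lit 2) (nat_lit 2) (nat_lit 5) true (nat_lit 4) true (nat_lit 10) true (nat_lit 1) true (nat_lit 13) true (nat_lit 13) (.s true (nat_lit 2) (nat_lit 36) (nat_lit 2) (nat_lit 2) (nat_lit 5) true (nat_lit 4) true (nat_lit 10) true (nat_lit 1) true (nat_lit 13) true (nat_lit 13) (.s false (nat_lit 1) (nat_lit 31) (nat_lit 5) (nat_lit 2) (nat_lit 2) true (nat_lit 4) true (nat_lit 13) true (nat_lit 1)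 true (nat_lit 10) true (nat_lit 13) (.s true (nat_lit 2) (nat_lit 32) (nat_lit 5) (nat_lit 2) (nat_lit 2) true (nat_lit 4) true (nat_lit 13) true (nat_lit 1) true (nat_lit 10) true (nat_lit 13) (.s false (nat_lit 1) (nat_lit 37) (nat_lit 0) (nat_lit 6) (nat_lit 2) true (nat_lit 11) true (nat_lit 13) true (nat_lit 0) true (nat_lit 15) true (nat_lit 9) (.s true (nat_lit 1) (nat_lit 44) (nat_lit 2) (nat_lit 3) (nat_lit 2) true (nat_lit 9) true (nat_lit 13) false (nat_lit 1) true (nat_lit 13) true (nat_lit 12) (.s true (nat_lit 2) (nat_lit 45) (nat_lit 2) (nat_lit 3) (nat_lit 2) true (nat_lit 9) true (nat_lit 13) false (nat_lit 1) true (nat_lit 13) true (nat_lit 12) (.s true (nat_lit 1) (nat_lit 43) (nat_lit 3) (nat_lit 2) (nat_lit 2) true (nat_lit 7) true (nat_lit 13) false (nat_lit 1) true (nat_lit 12) true (nat_lit 13) (.s true (nat_lit 1) (nat_lit 46) (nat_lit 1) (nat_lit 3) (nat_lit 2) true (nat_lit 10) true (nat_lit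 13) false (nat_lit 2) true (nat_lit 14) true (nat_lit 12) (.s true (nat_lit 1) (nat_lit 46) (nat_lit 1) (nat_lit 5) (nat_lit 0) true (nat_lit 12) true (nat_lit 15) false (nat_lit 2) true (nat_lit 14) true (nat_lit 10) (.s true (nat_lit 2) (nat_lit 46) (nat_lit 2) (nat_lit 3) (nat_lit 1) true (nat_lit 10) true (nat_lit 14) false (nat_lit 2) true (nat_lit 13) true (nat_lit 12) (.s false (nat_lit 1) (nat_lit 46) (nat_lit 3) (nat_lit 1) (nat_lit 2) true (nat_lit 7) true (nat_lit 13) false (nat_lit 2) true (nat_lit 12) true (nat_lit 14) (.s false (nat_lit 1) (nat_lit 46) (nat_lit 5) (nat_lit 0) (nat_lit 1) true (nat_lit 6) true (nat_lit 14) false (nat_lit 2) true (nat_lit 10) true (nat_lit 15) (.s true (nat_lit 1) (nat_lit 70) (nat_lit 2) (nat_lit 2) (nat_lit 2) true (nat_lit 9) true (nat_lit 13) false (nat_lit 3) true (nat_lit 13) true (nat_lit 13) (.s true (nat_lit 2) (nat_lit 71) (nat_lit 2) (nat_lit 2) (nat_lit 2)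 true (nat_lit 9) true (nat_lit 13) false (nat_lit 3) true (nat_lit 13) true (nat_lit 13) (.s true (nat_lit 1) (nat_lit 72) (nat_lit 2) (nat_lit 2) (nat_lit 2) true (nat_lit 9) true (nat_lit 13) false (nat_lit 3) true (nat_lit 13) true (nat_lit 13) (.s true (nat_lit 1) (nat_lit 73) (nat_lit 2) (nat_lit 2) (nat_lit 2) true (nat_lit 9) true (nat_lit 13) false (nat_lit 3) true (nat_lit 13) true (nat_lit 13) (.s false (nat_lit 2) (nat_lit 75) (nat_lit 2) (nat_lit 2) (nat_lit 2) true (nat_lit 9) true (nat_lit 13) false (nat_lit 3) true (nat_lit 13) true (nat_lit 13) (.s false (nat_lit 1) (nat_lit 82) (nat_lit 1) (nat_lit 2) (nat_lit 2) true (nat_lit 10) true (nat_lit 13) false (nat_lit 4) true (nat_lit 14) true (nat_lit 13) (.s false (nat_lit 2) (nat_lit 84) (nat_lit 1) (nat_lit 2) (nat_lit 2) true (nat_lit 10) true (nat_lit 13) false (nat_lit 4) true (nat_lit 14) true (nat_lit 13) (.s true (nat_lit 1) (nat_lit 85) (nat_lit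 1) (nat_lit 2) (nat_lit 2) true (nat_lit 10) true (nat_lit 13) false (nat_lit 4) true (nat_lit 14) true (nat_lit 13) (.s false (nat_lit 3) (nat_lit 87) (nat_lit 1) (nat_lit 2) (nat_lit 2) true (nat_lit 10) true (nat_lit 13) false (nat_lit 4) true (nat_lit 14) true (nat_lit 13) (.s false (nat_lit 1) (nat_lit 90) (nat_lit 1) (nat_lit 2) (nat_lit 2) true (nat_lit 10) true (nat_lit 13) false (nat_lit 4) true (nat_lit 14) true (nat_lit 13) (.s false (nat_lit 2) (nat_lit 83) (nat_lit 2) (nat_lit 1) (nat_lit 2) true (nat_lit 9) true (nat_lit 13) false (nat_lit 4) true (nat_lit 13) true (nat_lit 14) (.s true (nat_lit 2) (nat_lit 85) (nat_lit 2) (nat_lit 1) (nat_lit 2) true (nat_lit 9) true (nat_lit 13) false (nat_lit 4) true (nat_lit 13) true (nat_lit 14) dC1d_i431)))))))))))))))))))))))))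

noncomputable def dC1d_i433 : IL := (.s true (nat_lit 1) (nat_lit 18) (nat_lit 1) (nat_lit 2) (nat_lit 11) true (nat_lit 2) true (nat_lit 7) true (nat_lit 3) true (nat_lit 14) true (nat_lit 13) (.s false (nat_lit 1) (nat_lit 18) (nat_lit 1) (nat_lit 6) (nat_lit 3) true (nat_lit 8) true (nat_lit 12) true (nat_lit 3) true (nat_lit 14) true (nat_lit 9) (.s false (nat_lit 1) (nat_lit 18) (nat_lit 2) (nat_lit 0) (nat_lit 13) true (nat_lit 0) true (nat_lit 6) true (nat_lit 3) true (nat_lit 13) true (nat_lit 15) (.s false (nat_lit 1) (nat_lit 18) (nat_lit 2) (nat_lit 2) (nat_lit 8) true (nat_lit 2) true (nat_lit 8) true (nat_lit 3) true (nat_lit 13) true (nat_lit 13) (.s true (nat_lit 1) (nat_lit 18) (nat_lit 2) (nat_lit 3) (nat_lit 5) true (nat_lit 4) true (nat_lit 10) true (nat_lit 3) true (nat_lit 13) true (nat_lit 12) (.s false (nat_lit 1) (nat_lit 18) (nat_lit 2) (nat_lit 10) (nat_lit 1) true (nat_lit 10) true (nat_lit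 14) true (nat_lit 3) true (nat_lit 13) true (nat_lit 7) (.s true (nat_lit 1) (nat_lit 18) (nat_lit 2) (nat_lit 11) (nat_lit 1) true (nat_lit 10) true (nat_lit 14) true (nat_lit 3) true (nat_lit 13) true (nat_lit 7) (.s true (nat_lit 1) (nat_lit 18) (nat_lit 2) (nat_lit 13) (nat_lit 0) true (nat_lit 11) true (nat_lit 15) true (nat_lit 3) true (nat_lit 13) true (nat_lit 6) (.s false (nat_lit 3) (nat_lit 18) (nat_lit 8) (nat_lit 2) (nat_lit 2) true (nat_lit 2) true (nat_lit 13) true (nat_lit 3) true (nat_lit 8) true (nat_lit 13) (.s false (nat_lit 3) (nat_lit 18) (nat_lit 10) (nat_lit 2) (nat_lit 1) true (nat_lit 2) true (nat_lit 14) true (nat_lit 3) true (nat_lit 7) true (nat_lit 13) (.s false (nat_lit 1) (nat_lit 24) (nat_lit 2) (nat_lit 2) (nat_lit 6) true (nat_lit 3) true (nat_lit 9) true (nat_lit 2) true (nat_lit 13) true (nat_lit 13) (.s false (nat_lit 1) (nat_lit 26) (nat_lit 2) (nat_lit 2) (nat_lit 6) true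 (nat_lit 3) true (nat_lit 9) true (nat_lit 2) true (nat_lit 13) true (nat_lit 13) (.s true (nat_lit 3) (nat_lit 27) (nat_lit 2) (nat_lit 2) (nat_lit 6) true (nat_lit 3) true (nat_lit 9) true (nat_lit 2) true (nat_lit 13) true (nat_lit 13) (.s false (nat_lit 2) (nat_lit 25) (nat_lit 2) (nat_lit 6) (nat_lit 2) true (nat_lit 9) true (nat_lit 13) true (nat_lit 2) true (nat_lit 13) true (nat_lit 9) (.s true (nat_lit 1) (nat_lit 26) (nat_lit 2) (nat_lit 6) (nat_lit 2) true (nat_lit 9) true (nat_lit 13) true (nat_lit 2) true (nat_lit 13) true (nat_lit 9) (.s false (nat_lit 2) (nat_lit 27) (nat_lit 6) (nat_lit 2) (nat_lit 2) true (nat_lit 3) true (nat_lit 13) true (nat_lit 2) true (nat_lit 9) true (nat_lit 13) (.s false (nat_lit 2) (nat_lit 32) (nat_lit 1) (nat_lit 2) (nat_lit 6) true (nat_lit 4) true (nat_lit 9) true (nat_lit 1) true (nat_lit 14) true (nat_lit 13) (.s false (nat_lit 1) (nat_lit 33) (nat_lit 1) (nat_lit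 2) (nat_lit 6) true (nat_lit 4) true (nat_lit 9) true (nat_lit 1) true (nat_lit 14) true (nat_lit 13) (.s false (nat_lit 2) (nat_lit 36) (nat_lit 1) (nat_lit 2) (nat_lit 6) true (nat_lit 4) true (nat_lit 9) true (nat_lit 1) true (nat_lit 14) true (nat_lit 13) (.s false (nat_lit 1) (nat_lit 31) (nat_lit 1) (nat_lit 6) (nat_lit 2) true (nat_lit 10) true (nat_lit 13) true (nat_lit 1) true (nat_lit 14) true (nat_lit 9) (.s false (nat_lit 1) (nat_lit 31) (nat_lit 2) (nat_lit 1) (nat_lit 6) true (nat_lit 3) true (nat_lit 9) true (nat_lit 1) true (nat_lit 13) true (nat_lit 14) (.s true (nat_lit 2) (nat_lit 34) (nat_lit 2) (nat_lit 1) (nat_lit 6) true (nat_lit 3) true (nat_lit 9) true (nat_lit 1) true (nat_lit 13) true (nat_lit 14) (.s true (nat_lit 1) (nat_lit 31) (nat_lit 2) (nat_lit 2) (nat_lit 5) true (nat_lit 4) true (nat_lit 10) true (nat_lit 1) true (nat_lit 13) true (nat_lit 13) (.s true (nat_lit 2) (nat_lit 32)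 (nat_lit 2) (nat_lit 2) (nat_lit 5) true (nat_lit 4) true (nat_lit 10) true (nat_lit 1) true (nat_lit 13) true (nat_lit 13) (.s true (nat_lit 1) (nat_lit 33) (nat_lit 2) (nat_lit 2) (nat_lit 5) true (nat_lit 4) true (nat_lit 10) true (nat_lit 1) true (nat_lit 13) true (nat_lit 13) dC1d_i432)))))))))))))))))))))))))

noncomputable def dC1d_i434 : IL := (.e false (nat_lit 1) (nat_lit 314) (nat_lit 2) (nat_lit 13) (.e true (nat_lit 2) (nat_lit 181) (nat_lit 5) (nat_lit 10) (.e true (nat_lit 1) (nat_lit 185) (nat_lit 5) (nat_lit 10) (.e false (nat_lit 3) (nat_lit 187) (nat_lit 5) (nat_lit 10) (.e false (nat_lit 1) (nat_lit 191) (nat_lit 5) (nat_lit 10) (.e false (nat_lit 1) (nat_lit 328) (nat_lit 1) (nat_lit 14) (.e true (nat_lit 3) (nat_lit 331) (nat_lit 1) (nat_lit 14) (.e false (nat_lit 1) (nat_lit 332) (nat_lit 1) (nat_lit 14) (.e false (nat_lit 3) (nat_lit 335) (nat_lit 1) (nat_lit 14) (.e false (nat_lit 3) (nat_lit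 337) (nat_lit 1) (nat_lit 14) (.e false (nat_lit 2) (nat_lit 338) (nat_lit 1) (nat_lit 14) (.e true (nat_lit 2) (nat_lit 345) (nat_lit 1) (nat_lit 14) (.e false (nat_lit 2) (nat_lit 312) (nat_lit 2) (nat_lit 13) (.e false (nat_lit 1) (nat_lit 339) (nat_lit 1) (nat_lit 14) (.e true (nat_lit 1) (nat_lit 340) (nat_lit 1) (nat_lit 14) (.e false (nat_lit 2) (nat_lit 74) (nat_lit 18) (nat_lit 3) (.e true (nat_lit 3) (nat_lit 347) (nat_lit 0) (nat_lit 15) (.e false (nat_lit 3) (nat_lit 349) (nat_lit 0) (nat_lit 15) (.e true (nat_lit 1) (nat_lit 350) (nat_lit 0) (nat_lit 15) (.e true (nat_lit 3) (nat_lit 351) (nat_lit 0) (nat_lit 15) (.e true (nat_lit 1) (nat_lit 342) (nat_lit 1) (nat_lit 14) (.e true (nat_lit 3) (nat_lit 186) (nat_lit 5) (nat_lit 10) (.e true (nat_lit 1) (nat_lit 354) (nat_lit 0) (nat_lit 15) (.u (nat_lit 2) (.p (nat_lit 2) (nat_lit 1) (.n (nat_lit 3) (nat_lit 3) (.p (nat_lit 4) (nat_lit 1) (.p (nat_lit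 5) (nat_lit 4) (.n (nat_lit 6) (nat_lit 1) (.p (nat_lit 7) (nat_lit 1) (.p (nat_lit 9) (nat_lit 4) (.p (nat_lit 10) (nat_lit 2) (.n (nat_lit 11) (nat_lit 1) (.p (nat_lit 12) (nat_lit 1) (.n (nat_lit 13) (nat_lit 3) (.n (nat_lit 14) (nat_lit 2) (.p (nat_lit 15) (nat_lit 1) (.p (nat_lit 16) (nat_lit 2) (.n (nat_lit 17) (nat_lit 1) (.n (nat_lit 18) (nat_lit 1) (.p (nat_lit 19) (nat_lit 2) (.p (nat_lit 20) (nat_lit 1) (.p (nat_lit 21) (nat_lit 1) (.p (nat_lit 22) (nat_lit 2) (.p (nat_lit 23) (nat_lit 1) (.n (nat_lit 26) (nat_lit 1) (.p (nat_lit 29) (nat_lit 3) (.p (nat_lit 30) (nat_lit 1) (.p (nat_lit 31) (nat_lit 1) (.n (nat_lit 32) (nat_lit 1) (.p (nat_lit 33) (nat_lit 2) (.p (nat_lit 43) (nat_lit 1) (.p (nat_lit 54) (nat_lit 1) (.n (nat_lit 73) (nat_lit 1) (.p (nat_lit 76) (nat_lit 1) (.n (nat_lit 78) (nat_lit 1) (.n (nat_lit 79) (nat_lit 1) (.n (nat_lit 81) (nat_lit 1) (.p (nat_lit 86) (nat_lit 1) (.p (nat_lit 93)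 (nat_lit 1) (.n (nat_lit 95) (nat_lit 1) (.n (nat_lit 98) (nat_lit 2) (.n (nat_lit 99) (nat_lit 2) (.p (nat_lit 100) (nat_lit 1) (.p (nat_lit 102) (nat_lit 1) (.p (nat_lit 113) (nat_lit 1) (.p (nat_lit 114) (nat_lit 1) (.n (nat_lit 117) (nat_lit 1) (.n (nat_lit 118) (nat_lit 1) (.p (nat_lit 126) (nat_lit 1) (.p (nat_lit 127) (nat_lit 1) (.p (nat_lit 129) (nat_lit 1) (.p (nat_lit 130) (nat_lit 1) (.n (nat_lit 135) (nat_lit 1) (.n (nat_lit 140) (nat_lit 1) (.n (nat_lit 143) (nat_lit 1) (.n (nat_lit 146) (nat_lit 1) (.n (nat_lit 149) (nat_lit 1) (.n (nat_lit 151) (nat_lit 1) (.n (nat_lit 153) (nat_lit 1) (.p (nat_lit 154) (nat_lit 2) (.p (nat_lit 155) (nat_lit 1) (.p (nat_lit 156) (nat_lit 1) (.n (nat_lit 158) (nat_lit 1) .z)))))))))))))))))))))))))))))))))))))))))))))))))))))))))))) (.u (nat_lit 2) (.n (nat_lit 162) (nat_lit 1) (.p (nat_lit 163) (nat_lit 3) (.p (nat_lit 166) (nat_lit 1) (.p (nat_lit 167) (nat_lit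 1) (.p (nat_lit 171) (nat_lit 1) (.n (nat_lit 172) (nat_lit 1) (.n (nat_lit 173) (nat_lit 7) (.p (nat_lit 174) (nat_lit 13) (.n (nat_lit 175) (nat_lit 9) (.n (nat_lit 176) (nat_lit 17) (.n (nat_lit 177) (nat_lit 21) (.n (nat_lit 178) (nat_lit 18) (.n (nat_lit 179) (nat_lit 9) (.p (nat_lit 180) (nat_lit 13) (.p (nat_lit 181) (nat_lit 10) (.p (nat_lit 182) (nat_lit 6) (.p (nat_lit 183) (nat_lit 11) (.n (nat_lit 184) (nat_lit 19) (.p (nat_lit 185) (nat_lit 9) (.p (nat_lit 187) (nat_lit 24) (.p (nat_lit 188) (nat_lit 3) (.p (nat_lit 189) (nat_lit 1) (.p (nat_lit 190) (nat_lit 24) (.n (nat_lit 191) (nat_lit 12) (.n (nat_lit 192) (nat_lit 1) (.n (nat_lit 193) (nat_lit 18) (.p (nat_lit 194) (nat_lit 8) (.p (nat_lit 195) (nat_lit 6) (.p (nat_lit 196) (nat_lit 2) (.p (nat_lit 197) (nat_lit 4) (.p (nat_lit 198) (nat_lit 3) (.n (nat_lit 199) (nat_lit 1) (.p (nat_lit 200) (nat_lit 3) (.p (nat_lit 201) (nat_lit 3) (.n (nat_lit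 202) (nat_lit 10) (.n (nat_lit 203) (nat_lit 2) (.n (nat_lit 204) (nat_lit 1) (.p (nat_lit 205) (nat_lit 2) (.n (nat_lit 206) (nat_lit 4) (.p (nat_lit 207) (nat_lit 2) (.n (nat_lit 209) (nat_lit 1) (.p (nat_lit 211) (nat_lit 3) (.p (nat_lit 212) (nat_lit 2) (.p (nat_lit 213) (nat_lit 5) (.n (nat_lit 214) (nat_lit 2) (.n (nat_lit 216) (nat_lit 3) (.n (nat_lit 220) (nat_lit 1) (.n (nat_lit 222) (nat_lit 1) (.p (nat_lit 223) (nat_lit 2) (.p (nat_lit 224) (nat_lit 2) (.n (nat_lit 228) (nat_lit 1) (.p (nat_lit 229) (nat_lit 1) .z)))))))))))))))))))))))))))))))))))))))))))))))))))) .nil)))))))))))))))))))))))))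

noncomputable def dC1d_i435 : IL := (.s false (nat_lit 2) (nat_lit 105) (nat_lit 0) (nat_lit 1) (nat_lit 2) true (nat_lit 11) true (nat_lit 13) false (nat_lit 7) true (nat_lit 15) true (nat_lit 14) (.s false (nat_lit 1) (nat_lit 104) (nat_lit 0) (nat_lit 2) (nat_lit 1) true (nat_lit 12) true (nat_lit 14) false (nat_lit 7) true (nat_lit 15) true (nat_lit 13) (.s true (nat_lit 3) (nat_lit 104) (nat_lit 1) (nat_lit 2) (nat_lit 0) true (nat_lit 12) true (nat_lit 15) false (nat_lit 7) true (nat_lit 14) true (nat_lit 13) (.s true (nat_lit 1) (nat_lit 103) (nat_lit 2) (nat_lit 0) (nat_lit 1) true (nat_lit 10) true (nat_lit 14) false (nat_lit 7) true (nat_lit 13) true (nat_lit 15) (.s true (nat_lit 1) (nat_lit 102) (nat_lit 2) (nat_lit 1) (nat_lit 0) true (nat_lit 11) true (nat_lit 15) false (nat_lit 7) true (nat_lit 13) true (nat_lit 14) (.s true (nat_lit 3) (nat_lit 104) (nat_lit 2) (nat_lit 1) (nat_lit 0) true (nat_lit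 11) true (nat_lit 15) false (nat_lit 7) true (nat_lit 13) true (nat_lit 14) (.s true (nat_lit 1) (nat_lit 106) (nat_lit 1) (nat_lit 0) (nat_lit 1) false (nat_lit 16) true (nat_lit 14) false (nat_lit 8) true (nat_lit 14) true (nat_lit 15) (.s true (nat_lit 1) (nat_lit 106) (nat_lit 1) (nat_lit 1) (nat_lit 0) true (nat_lit 12) true (nat_lit 15) false (nat_lit 8) true (nat_lit 14) true (nat_lit 14) (.e false (nat_lit 1) (nat_lit 161) (nat_lit 6) (nat_lit 9) (.e true (nat_lit 1) (nat_lit 170) (nat_lit 6) (nat_lit 9) (.e true (nat_lit 2) (nat_lit 172) (nat_lit 6) (nat_lit 9) (.e true (nat_lit 3) (nat_lit 291) (nat_lit 2) (nat_lit 13) (.e true (nat_lit 1) (nat_lit 301) (nat_lit 2) (nat_lit 13) (.e true (nat_lit 2) (nat_lit 307) (nat_lit 2) (nat_lit 13) (.e false (nat_lit 3) (nat_lit 317) (nat_lit 2) (nat_lit 13) (.e true (nat_lit 2) (nat_lit 290) (nat_lit 2) (nat_lit 13) (.e true (nat_lit 2) (nat_lit 292) (nat_lit 2)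 (nat_lit 13) (.e false (nat_lit 3) (nat_lit 294) (nat_lit 2) (nat_lit 13) (.e true (nat_lit 1) (nat_lit 310) (nat_lit 2) (nat_lit 13) (.e false (nat_lit 1) (nat_lit 316) (nat_lit 2) (nat_lit 13) (.e false (nat_lit 3) (nat_lit 318) (nat_lit 2) (nat_lit 13) (.e true (nat_lit 3) (nat_lit 193) (nat_lit 5) (nat_lit 10) (.e false (nat_lit 2) (nat_lit 336) (nat_lit 1) (nat_lit 14) (.e false (nat_lit 2) (nat_lit 98) (nat_lit 13) (nat_lit 6) (.e true (nat_lit 2) (nat_lit 302) (nat_lit 2) (nat_lit 13) dC1d_i434)))))))))))))))))))))))))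

noncomputable def dC1d_i436 : IL := (.s true (nat_lit 1) (nat_lit 72) (nat_lit 2) (nat_lit 2) (nat_lit 2) true (nat_lit 9) true (nat_lit 13) false (nat_lit 3) true (nat_lit 13) true (nat_lit 13) (.s true (nat_lit 2) (nat_lit 75) (nat_lit 2) (nat_lit 2) (nat_lit 2) true (nat_lit 9) true (nat_lit 13) false (nat_lit 3) true (nat_lit 13) true (nat_lit 13) (.s true (nat_lit 2) (nat_lit 84) (nat_lit 1) (nat_lit 2) (nat_lit 2) true (nat_lit 10) true (nat_lit 13) false (nat_lit 4) true (nat_lit 14) true (nat_lit 13) (.s true (nat_lit 3) (nat_lit 85) (nat_lit 1) (nat_lit 2) (nat_lit 2) true (nat_lit 10) true (nat_lit 13) false (nat_lit 4) true (nat_lit 14) true (nat_lit 13) (.s true (nat_lit 3) (nat_lit 86) (nat_lit 1) (nat_lit 2) (nat_lit 2) true (nat_lit 10) true (nat_lit 13) false (nat_lit 4) true (nat_lit 14) true (nat_lit 13) (.s true (nat_lit 1) (nat_lit 87) (nat_lit 1) (nat_lit 2) (nat_lit 2) true (nat_lit 10) true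 (nat_lit 13) false (nat_lit 4) true (nat_lit 14) true (nat_lit 13) (.s false (nat_lit 2) (nat_lit 88) (nat_lit 1) (nat_lit 2) (nat_lit 2) true (nat_lit 10) true (nat_lit 13) false (nat_lit 4) true (nat_lit 14) true (nat_lit 13) (.s false (nat_lit 2) (nat_lit 90) (nat_lit 1) (nat_lit 2) (nat_lit 2) true (nat_lit 10) true (nat_lit 13) false (nat_lit 4) true (nat_lit 14) true (nat_lit 13) (.s false (nat_lit 3) (nat_lit 92) (nat_lit 1) (nat_lit 2) (nat_lit 2) true (nat_lit 10) true (nat_lit 13) false (nat_lit 4) true (nat_lit 14) true (nat_lit 13) (.s false (nat_lit 1) (nat_lit 83) (nat_lit 2) (nat_lit 1) (nat_lit 2) true (nat_lit 9) true (nat_lit 13) false (nat_lit 4) true (nat_lit 13) true (nat_lit 14) (.s false (nat_lit 3) (nat_lit 85) (nat_lit 2) (nat_lit 1) (nat_lit 2) true (nat_lit 9) true (nat_lit 13) false (nat_lit 4) true (nat_lit 13) true (nat_lit 14) (.s true (nat_lit 3) (nat_lit 90) (nat_lit 2) (nat_lit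 1) (nat_lit 2) true (nat_lit 9) true (nat_lit 13) false (nat_lit 4) true (nat_lit 13) true (nat_lit 14) (.s false (nat_lit 1) (nat_lit 91) (nat_lit 2) (nat_lit 1) (nat_lit 2) true (nat_lit 9) true (nat_lit 13) false (nat_lit 4) true (nat_lit 13) true (nat_lit 14) (.s true (nat_lit 3) (nat_lit 82) (nat_lit 2) (nat_lit 2) (nat_lit 1) true (nat_lit 10) true (nat_lit 14) false (nat_lit 4) true (nat_lit 13) true (nat_lit 13) (.s false (nat_lit 1) (nat_lit 83) (nat_lit 2) (nat_lit 2) (nat_lit 1) true (nat_lit 10) true (nat_lit 14) false (nat_lit 4) true (nat_lit 13) true (nat_lit 13) (.s false (nat_lit 1) (nat_lit 84) (nat_lit 2) (nat_lit 2) (nat_lit 1) true (nat_lit 10) true (nat_lit 14) false (nat_lit 4) true (nat_lit 13) true (nat_lit 13) (.s false (nat_lit 1) (nat_lit 87) (nat_lit 2) (nat_lit 2) (nat_lit 1) true (nat_lit 10) true (nat_lit 14) false (nat_lit 4) true (nat_lit 13) true (nat_lit 13) (.s true (nat_lit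 3) (nat_lit 88) (nat_lit 2) (nat_lit 2) (nat_lit 1) true (nat_lit 10) true (nat_lit 14) false (nat_lit 4) true (nat_lit 13) true (nat_lit 13) (.s false (nat_lit 2) (nat_lit 91) (nat_lit 2) (nat_lit 2) (nat_lit 1) true (nat_lit 10) true (nat_lit 14) false (nat_lit 4) true (nat_lit 13) true (nat_lit 13) (.s true (nat_lit 3) (nat_lit 95) (nat_lit 0) (nat_lit 2) (nat_lit 2) true (nat_lit 11) true (nat_lit 13) false (nat_lit 5) true (nat_lit 15) true (nat_lit 13) (.s true (nat_lit 1) (nat_lit 98) (nat_lit 1) (nat_lit 1) (nat_lit 2) true (nat_lit 10) true (nat_lit 13) false (nat_lit 6) true (nat_lit 14) true (nat_lit 14) (.s false (nat_lit 1) (nat_lit 99) (nat_lit 2) (nat_lit 1) (nat_lit 1) true (nat_lit 10) true (nat_lit 14) false (nat_lit 6) true (nat_lit 13) true (nat_lit 14) (.s true (nat_lit 1) (nat_lit 101) (nat_lit 2) (nat_lit 1) (nat_lit 1) true (nat_lit 10) true (nat_lit 14) false (nat_lit 6) true (nat_lit 13)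 true (nat_lit 14) (.s true (nat_lit 1) (nat_lit 102) (nat_lit 0) (nat_lit 1) (nat_lit 2) true (nat_lit 11) true (nat_lit 13) false (nat_lit 7) true (nat_lit 15) true (nat_lit 14) (.s true (nat_lit 2) (nat_lit 103) (nat_lit 0) (nat_lit 1) (nat_lit 2) true (nat_lit 11) true (nat_lit 13) false (nat_lit 7) true (nat_lit 15) true (nat_lit 14) dC1d_i435)))))))))))))))))))))))))

noncomputable def dC1d_i437 : IL := (.s false (nat_lit 2) (nat_lit 27) (nat_lit 2) (nat_lit 2) (nat_lit 6) true (nat_lit 3) true (nat_lit 9) true (nat_lit 2) true (nat_lit 13) true (nat_lit 13) (.s true (nat_lit 3) (nat_lit 31) (nat_lit 1) (nat_lit 2) (nat_lit 6) true (nat_lit 4) true (nat_lit 9) true (nat_lit 1) true (nat_lit 14) true (nat_lit 13) (.s true (nat_lit 2) (nat_lit 32) (nat_lit 1) (nat_lit 2) (nat_lit 6) true (nat_lit 4) true (nat_lit 9) true (nat_lit 1) true (nat_lit 14) true (nat_lit 13) (.s false (nat_lit 1) (nat_lit 33) (nat_lit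 1) (nat_lit 2) (nat_lit 6) true (nat_lit 4) true (nat_lit 9) true (nat_lit 1) true (nat_lit 14) true (nat_lit 13) (.s false (nat_lit 1) (nat_lit 36) (nat_lit 1) (nat_lit 2) (nat_lit 6) true (nat_lit 4) true (nat_lit 9) true (nat_lit 1) true (nat_lit 14) true (nat_lit 13) (.s false (nat_lit 2) (nat_lit 31) (nat_lit 1) (nat_lit 6) (nat_lit 2) true (nat_lit 10) true (nat_lit 13) true (nat_lit 1) true (nat_lit 14) true (nat_lit 9) (.s false (nat_lit 3) (nat_lit 34) (nat_lit 2) (nat_lit 1) (nat_lit 6) true (nat_lit 3) true (nat_lit 9) true (nat_lit 1) true (nat_lit 13) true (nat_lit 14) (.s false (nat_lit 1) (nat_lit 31) (nat_lit 2) (nat_lit 2) (nat_lit 5) true (nat_lit 4) true (nat_lit 10) true (nat_lit 1) true (nat_lit 13) true (nat_lit 13) (.s true (nat_lit 1) (nat_lit 32) (nat_lit 2) (nat_lit 2) (nat_lit 5) true (nat_lit 4) true (nat_lit 10) true (nat_lit 1) true (nat_lit 13) true (nat_lit 13) (.s false (nat_lit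 2) (nat_lit 33) (nat_lit 2) (nat_lit 2) (nat_lit 5) true (nat_lit 4) true (nat_lit 10) true (nat_lit 1) true (nat_lit 13) true (nat_lit 13) (.s true (nat_lit 3) (nat_lit 34) (nat_lit 2) (nat_lit 2) (nat_lit 5) true (nat_lit 4) true (nat_lit 10) true (nat_lit 1) true (nat_lit 13) true (nat_lit 13) (.s false (nat_lit 2) (nat_lit 36) (nat_lit 2) (nat_lit 2) (nat_lit 5) true (nat_lit 4) true (nat_lit 10) true (nat_lit 1) true (nat_lit 13) true (nat_lit 13) (.s false (nat_lit 3) (nat_lit 31) (nat_lit 5) (nat_lit 2) (nat_lit 2) true (nat_lit 4) true (nat_lit 13) true (nat_lit 1) true (nat_lit 10) true (nat_lit 13) (.s false (nat_lit 1) (nat_lit 33) (nat_lit 5) (nat_lit 2) (nat_lit 2) true (nat_lit 4) true (nat_lit 13) true (nat_lit 1) true (nat_lit 10) true (nat_lit 13) (.s false (nat_lit 2) (nat_lit 39) (nat_lit 4) (nat_lit 2) (nat_lit 2) true (nat_lit 5) true (nat_lit 13) true (nat_lit 0) true (nat_lit 11) true (nat_lit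 13) (.s false (nat_lit 2) (nat_lit 40) (nat_lit 5) (nat_lit 1) (nat_lit 2) true (nat_lit 4) true (nat_lit 13) false (nat_lit 0) true (nat_lit 10) true (nat_lit 14) (.s true (nat_lit 1) (nat_lit 40) (nat_lit 6) (nat_lit 1) (nat_lit 1) true (nat_lit 4) true (nat_lit 14) false (nat_lit 0) true (nat_lit 9) true (nat_lit 14) (.s true (nat_lit 3) (nat_lit 45) (nat_lit 4) (nat_lit 2) (nat_lit 1) true (nat_lit 7) true (nat_lit 14) false (nat_lit 1) true (nat_lit 11) true (nat_lit 13) (.s true (nat_lit 1) (nat_lit 46) (nat_lit 1) (nat_lit 2) (nat_lit 3) true (nat_lit 8) true (nat_lit 12) false (nat_lit 2) true (nat_lit 14) true (nat_lit 13) (.s false (nat_lit 2) (nat_lit 46) (nat_lit 1) (nat_lit 3) (nat_lit 2) true (nat_lit 10) true (nat_lit 13) false (nat_lit 2) true (nat_lit 14) true (nat_lit 12) (.s true (nat_lit 1) (nat_lit 46) (nat_lit 1) (nat_lit 4) (nat_lit 1) false (nat_lit 16) true (nat_lit 14) false (nat_lit 2)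 true (nat_lit 14) true (nat_lit 11) (.s false (nat_lit 3) (nat_lit 46) (nat_lit 2) (nat_lit 3) (nat_lit 1) true (nat_lit 10) true (nat_lit 14) false (nat_lit 2) true (nat_lit 13) true (nat_lit 12) (.s false (nat_lit 3) (nat_lit 46) (nat_lit 3) (nat_lit 2) (nat_lit 1) true (nat_lit 8) true (nat_lit 14) false (nat_lit 2) true (nat_lit 12) true (nat_lit 13) (.s true (nat_lit 1) (nat_lit 46) (nat_lit 5) (nat_lit 0) (nat_lit 1) true (nat_lit 6) true (nat_lit 14) false (nat_lit 2) true (nat_lit 10) true (nat_lit 15) (.s false (nat_lit 2) (nat_lit 70) (nat_lit 2) (nat_lit 2) (nat_lit 2) true (nat_lit 9) true (nat_lit 13) false (nat_lit 3) true (nat_lit 13) true (nat_lit 13) dC1d_i436)))))))))))))))))))))))))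

noncomputable def dC1d_i438 : IL := (.s true (nat_lit 3) (nat_lit 10) (nat_lit 1) (nat_lit 6) (nat_lit 6) true (nat_lit 4) true (nat_lit 9) true (nat_lit 7) true (nat_lit 14) true (nat_lit 9) (.s false (nat_lit 2) (nat_lit 11) (nat_lit 1) (nat_lit 6) (nat_lit 6) true (nat_lit 4) true (nat_lit 9) true (nat_lit 7) true (nat_lit 14) true (nat_lit 9) (.s false (nat_lit 1) (nat_lit 10) (nat_lit 2) (nat_lit 6) (nat_lit 5) true (nat_lit 4) true (nat_lit 10) true (nat_lit 7) true (nat_lit 13) true (nat_lit 9) (.s false (nat_lit 3) (nat_lit 10) (nat_lit 5) (nat_lit 2) (nat_lit 6) false (nat_lit 1) true (nat_lit 9) true (nat_lit 7) true (nat_lit 10) true (nat_lit 13) (.s true (nat_lit 1) (nat_lit 11) (nat_lit 5) (nat_lit 6) (nat_lit 2) true (nat_lit 4) true (nat_lit 13) true (nat_lit 7) true (nat_lit 10) true (nat_lit 9) (.s false (nat_lit 1) (nat_lit 10) (nat_lit 6) (nat_lit 6) (nat_lit 1) true (nat_lit 4) true (nat_lit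 14) true (nat_lit 7) true (nat_lit 9) true (nat_lit 9) (.s false (nat_lit 2) (nat_lit 14) (nat_lit 2) (nat_lit 2) (nat_lit 13) true (nat_lit 0) true (nat_lit 6) true (nat_lit 5) true (nat_lit 13) true (nat_lit 13) (.s true (nat_lit 3) (nat_lit 17) (nat_lit 1) (nat_lit 14) (nat_lit 2) true (nat_lit 10) true (nat_lit 13) true (nat_lit 4) true (nat_lit 14) true (nat_lit 5) (.s false (nat_lit 1) (nat_lit 16) (nat_lit 2) (nat_lit 2) (nat_lit 10) true (nat_lit 1) true (nat_lit 7) true (nat_lit 4) true (nat_lit 13) true (nat_lit 13) (.s true (nat_lit 1) (nat_lit 16) (nat_lit 2) (nat_lit 2) (nat_lit 12) true (nat_lit 1) true (nat_lit 7) true (nat_lit 4) true (nat_lit 13) true (nat_lit 13) (.s false (nat_lit 3) (nat_lit 17) (nat_lit 2) (nat_lit 2) (nat_lit 10) true (nat_lit 1) true (nat_lit 7) true (nat_lit 4) true (nat_lit 13) true (nat_lit 13) (.s false (nat_lit 3) (nat_lit 17) (nat_lit 2) (nat_lit 11) (nat_lit 2) true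 (nat_lit 9) true (nat_lit 13) true (nat_lit 4) true (nat_lit 13) true (nat_lit 7) (.s false (nat_lit 2) (nat_lit 16) (nat_lit 3) (nat_lit 6) (nat_lit 2) true (nat_lit 7) true (nat_lit 13) true (nat_lit 4) true (nat_lit 12) true (nat_lit 9) (.s false (nat_lit 3) (nat_lit 16) (nat_lit 10) (nat_lit 2) (nat_lit 2) true (nat_lit 1) true (nat_lit 13) true (nat_lit 4) true (nat_lit 7) true (nat_lit 13) (.s true (nat_lit 3) (nat_lit 17) (nat_lit 14) (nat_lit 1) (nat_lit 2) false (nat_lit 0) true (nat_lit 13) true (nat_lit 4) true (nat_lit 5) true (nat_lit 14) (.s false (nat_lit 3) (nat_lit 17) (nat_lit 14) (nat_lit 2) (nat_lit 1) true (nat_lit 1) true (nat_lit 14) true (nat_lit 4) true (nat_lit 5) true (nat_lit 13) (.s false (nat_lit 3) (nat_lit 18) (nat_lit 0) (nat_lit 16) (nat_lit 1) true (nat_lit 12) true (nat_lit 14) true (nat_lit 3) true (nat_lit 15) true (nat_lit 4) (.s true (nat_lit 1) (nat_lit 18) (nat_lit 2) (nat_lit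 1) (nat_lit 10) true (nat_lit 1) true (nat_lit 7) true (nat_lit 3) true (nat_lit 13) true (nat_lit 14) (.s false (nat_lit 3) (nat_lit 18) (nat_lit 2) (nat_lit 2) (nat_lit 8) true (nat_lit 2) true (nat_lit 8) true (nat_lit 3) true (nat_lit 13) true (nat_lit 13) (.s true (nat_lit 1) (nat_lit 18) (nat_lit 3) (nat_lit 6) (nat_lit 1) true (nat_lit 8) true (nat_lit 14) true (nat_lit 3) true (nat_lit 12) true (nat_lit 9) (.s true (nat_lit 2) (nat_lit 18) (nat_lit 8) (nat_lit 2) (nat_lit 2) true (nat_lit 2) true (nat_lit 13) true (nat_lit 3) true (nat_lit 8) true (nat_lit 13) (.s true (nat_lit 1) (nat_lit 18) (nat_lit 14) (nat_lit 1) (nat_lit 1) true (nat_lit 1) true (nat_lit 14) true (nat_lit 3) true (nat_lit 5) true (nat_lit 14) (.s false (nat_lit 2) (nat_lit 24) (nat_lit 2) (nat_lit 2) (nat_lit 6) true (nat_lit 3) true (nat_lit 9) true (nat_lit 2) true (nat_lit 13) true (nat_lit 13) (.s false (nat_lit 1) (nat_lit 25)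 (nat_lit 2) (nat_lit 2) (nat_lit 6) true (nat_lit 3) true (nat_lit 9) true (nat_lit 2) true (nat_lit 13) true (nat_lit 13) (.s true (nat_lit 2) (nat_lit 26) (nat_lit 2) (nat_lit 2) (nat_lit 6) true (nat_lit 3) true (nat_lit 9) true (nat_lit 2) true (nat_lit 13) true (nat_lit 13) dC1d_i437)))))))))))))))))))))))))

noncomputable def dC1d_i439 : IL := (.e false (nat_lit 2) (nat_lit 348) (nat_lit 0) (nat_lit 15) (.e true (nat_lit 3) (nat_lit 349) (nat_lit 0) (nat_lit 15) (.e false (nat_lit 2) (nat_lit 352) (nat_lit 0) (nat_lit 15) (.e true (nat_lit 2) (nat_lit 354) (nat_lit 0) (nat_lit 15) (.e true (nat_lit 3) (nat_lit 181) (nat_lit 5) (nat_lit 10) (.e false (nat_lit 2) (nat_lit 186) (nat_lit 5) (nat_lit 10) (.e true (nat_lit 3) (nat_lit 187) (nat_lit 5) (nat_lit 10) (.e true (nat_lit 1) (nat_lit 191) (nat_lit 5) (nat_lit 10) (.e false (nat_lit 3) (nat_lit 328) (nat_lit 1) (nat_lit 14) (.e false (nat_lit 2) (nat_lit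 330) (nat_lit 1) (nat_lit 14) (.e false (nat_lit 2) (nat_lit 331) (nat_lit 1) (nat_lit 14) (.e true (nat_lit 2) (nat_lit 333) (nat_lit 1) (nat_lit 14) (.e false (nat_lit 2) (nat_lit 334) (nat_lit 1) (nat_lit 14) (.e true (nat_lit 3) (nat_lit 335) (nat_lit 1) (nat_lit 14) (.e true (nat_lit 2) (nat_lit 336) (nat_lit 1) (nat_lit 14) (.e true (nat_lit 3) (nat_lit 337) (nat_lit 1) (nat_lit 14) (.e false (nat_lit 3) (nat_lit 338) (nat_lit 1) (nat_lit 14) (.e false (nat_lit 2) (nat_lit 340) (nat_lit 1) (nat_lit 14) (.e false (nat_lit 1) (nat_lit 342) (nat_lit 1) (nat_lit 14) (.e true (nat_lit 1) (nat_lit 339) (nat_lit 1) (nat_lit 14) (.e true (nat_lit 2) (nat_lit 351) (nat_lit 0) (nat_lit 15) (.e false (nat_lit 1) (nat_lit 98) (nat_lit 13) (nat_lit 6) (.u (nat_lit 2) (.n (nat_lit 0) (nat_lit 1) (.n (nat_lit 1) (nat_lit 3) (.n (nat_lit 2) (nat_lit 2) (.n (nat_lit 3) (nat_lit 1) (.p (nat_lit 4) (nat_lit 2) (.n (nat_lit 5)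 (nat_lit 1) (.p (nat_lit 6) (nat_lit 1) (.n (nat_lit 7) (nat_lit 1) (.p (nat_lit 9) (nat_lit 1) (.p (nat_lit 10) (nat_lit 4) (.n (nat_lit 11) (nat_lit 1) (.p (nat_lit 13) (nat_lit 2) (.p (nat_lit 14) (nat_lit 1) (.p (nat_lit 15) (nat_lit 1) (.p (nat_lit 16) (nat_lit 2) (.p (nat_lit 17) (nat_lit 3) (.p (nat_lit 18) (nat_lit 1) (.p (nat_lit 19) (nat_lit 2) (.n (nat_lit 20) (nat_lit 1) (.n (nat_lit 22) (nat_lit 1) (.p (nat_lit 26) (nat_lit 1) (.p (nat_lit 29) (nat_lit 1) (.p (nat_lit 30) (nat_lit 1) (.n (nat_lit 31) (nat_lit 1) (.p (nat_lit 32) (nat_lit 1) (.p (nat_lit 48) (nat_lit 1) (.p (nat_lit 53) (nat_lit 1) (.p (nat_lit 54) (nat_lit 1) (.n (nat_lit 57) (nat_lit 1) (.p (nat_lit 60) (nat_lit 1) (.p (nat_lit 61) (nat_lit 1) (.n (nat_lit 62) (nat_lit 1) (.n (nat_lit 63) (nat_lit 1) (.p (nat_lit 64) (nat_lit 1) (.p (nat_lit 65) (nat_lit 2) (.p (nat_lit 66) (nat_lit 1) (.n (nat_lit 67) (nat_lit 1) (.p (nat_lit 68)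 (nat_lit 1) (.p (nat_lit 69) (nat_lit 2) (.p (nat_lit 70) (nat_lit 1) (.n (nat_lit 71) (nat_lit 1) (.n (nat_lit 73) (nat_lit 1) (.n (nat_lit 82) (nat_lit 1) (.n (nat_lit 84) (nat_lit 1) (.n (nat_lit 87) (nat_lit 1) (.n (nat_lit 88) (nat_lit 1) (.p (nat_lit 89) (nat_lit 1) (.n (nat_lit 90) (nat_lit 1) (.p (nat_lit 91) (nat_lit 1) (.n (nat_lit 93) (nat_lit 1) (.p (nat_lit 98) (nat_lit 1) (.p (nat_lit 109) (nat_lit 1) (.n (nat_lit 111) (nat_lit 1) (.p (nat_lit 113) (nat_lit 1) (.n (nat_lit 115) (nat_lit 1) (.p (nat_lit 119) (nat_lit 1) (.n (nat_lit 121) (nat_lit 1) (.n (nat_lit 122) (nat_lit 2) (.p (nat_lit 123) (nat_lit 1) (.n (nat_lit 125) (nat_lit 2) .z)))))))))))))))))))))))))))))))))))))))))))))))))))))))))))) (.u (nat_lit 2) (.p (nat_lit 126) (nat_lit 1) (.p (nat_lit 127) (nat_lit 1) (.p (nat_lit 128) (nat_lit 3) (.n (nat_lit 129) (nat_lit 1) (.p (nat_lit 130) (nat_lit 1) (.n (nat_lit 131) (nat_lit 3) (.p (nat_lit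 132) (nat_lit 3) (.p (nat_lit 133) (nat_lit 5) (.n (nat_lit 134) (nat_lit 4) (.n (nat_lit 135) (nat_lit 5) (.n (nat_lit 139) (nat_lit 2) (.n (nat_lit 142) (nat_lit 1) (.n (nat_lit 144) (nat_lit 2) (.p (nat_lit 145) (nat_lit 4) (.n (nat_lit 147) (nat_lit 1) (.n (nat_lit 148) (nat_lit 1) (.n (nat_lit 149) (nat_lit 3) (.n (nat_lit 150) (nat_lit 1) (.p (nat_lit 151) (nat_lit 2) (.n (nat_lit 152) (nat_lit 1) (.n (nat_lit 153) (nat_lit 1) (.n (nat_lit 154) (nat_lit 1) (.n (nat_lit 155) (nat_lit 1) (.n (nat_lit 156) (nat_lit 4) (.p (nat_lit 157) (nat_lit 1) (.p (nat_lit 158) (nat_lit 1) (.p (nat_lit 160) (nat_lit 1) (.p (nat_lit 164) (nat_lit 1) (.n (nat_lit 165) (nat_lit 2) (.n (nat_lit 166) (nat_lit 1) (.n (nat_lit 170) (nat_lit 1) (.p (nat_lit 173) (nat_lit 4) (.n (nat_lit 174) (nat_lit 6) (.p (nat_lit 175) (nat_lit 7) (.p (nat_lit 176) (nat_lit 12) (.n (nat_lit 177) (nat_lit 8) (.p (nat_lit 178) (nat_lit 14) (.p (nat_lit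 179) (nat_lit 3) (.p (nat_lit 182) (nat_lit 2) (.p (nat_lit 183) (nat_lit 2) (.n (nat_lit 184) (nat_lit 1) (.n (nat_lit 185) (nat_lit 12) (.p (nat_lit 186) (nat_lit 4) (.n (nat_lit 187) (nat_lit 6) (.n (nat_lit 188) (nat_lit 11) (.n (nat_lit 189) (nat_lit 1) (.n (nat_lit 190) (nat_lit 13) (.p (nat_lit 191) (nat_lit 2) (.p (nat_lit 193) (nat_lit 8) (.n (nat_lit 194) (nat_lit 5) (.n (nat_lit 195) (nat_lit 14) (.p (nat_lit 196) (nat_lit 5) (.n (nat_lit 197) (nat_lit 1) (.p (nat_lit 198) (nat_lit 1) (.p (nat_lit 199) (nat_lit 6) (.p (nat_lit 200) (nat_lit 8) (.p (nat_lit 202) (nat_lit 14) (.p (nat_lit 203) (nat_lit 9) (.n (nat_lit 205) (nat_lit 1) (.n (nat_lit 206) (nat_lit 6) .z)))))))))))))))))))))))))))))))))))))))))))))))))))))))))))) (.u (nat_lit 2) (.n (nat_lit 207) (nat_lit 9) (.p (nat_lit 208) (nat_lit 1) (.p (nat_lit 209) (nat_lit 2) (.p (nat_lit 210) (nat_lit 2) (.p (nat_lit 211) (nat_lit 2) (.n (nat_lit 212)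 (nat_lit 3) (.n (nat_lit 213) (nat_lit 13) (.p (nat_lit 214) (nat_lit 1) (.n (nat_lit 215) (nat_lit 4) (.n (nat_lit 217) (nat_lit 1) (.p (nat_lit 220) (nat_lit 2) (.p (nat_lit 221) (nat_lit 2) (.n (nat_lit 222) (nat_lit 2) (.p (nat_lit 223) (nat_lit 3) (.p (nat_lit 224) (nat_lit 5) (.n (nat_lit 225) (nat_lit 1) (.n (nat_lit 226) (nat_lit 2) (.n (nat_lit 227) (nat_lit 4) (.n (nat_lit 229) (nat_lit 1) .z))))))))))))))))))) .nil)))))))))))))))))))))))))

noncomputable def dC1d_i440 : IL := (.s true (nat_lit 2) (nat_lit 87) (nat_lit 2) (nat_lit 2) (nat_lit 1) true (nat_lit 10) true (nat_lit 14) false (nat_lit 4) true (nat_lit 13) true (nat_lit 13) (.s false (nat_lit 3) (nat_lit 88) (nat_lit 2) (nat_lit 2) (nat_lit 1) true (nat_lit 10) true (nat_lit 14) false (nat_lit 4) true (nat_lit 13) true (nat_lit 13) (.s false (nat_lit 1) (nat_lit 89) (nat_lit 2) (nat_lit 2) (nat_lit 1) true (nat_lit 10) true (nat_lit 14) false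 (nat_lit 4) true (nat_lit 13) true (nat_lit 13) (.s true (nat_lit 2) (nat_lit 92) (nat_lit 2) (nat_lit 2) (nat_lit 1) true (nat_lit 10) true (nat_lit 14) false (nat_lit 4) true (nat_lit 13) true (nat_lit 13) (.s false (nat_lit 3) (nat_lit 95) (nat_lit 0) (nat_lit 2) (nat_lit 2) true (nat_lit 11) true (nat_lit 13) false (nat_lit 5) true (nat_lit 15) true (nat_lit 13) (.s true (nat_lit 2) (nat_lit 99) (nat_lit 2) (nat_lit 1) (nat_lit 1) true (nat_lit 10) true (nat_lit 14) false (nat_lit 6) true (nat_lit 13) true (nat_lit 14) (.s true (nat_lit 1) (nat_lit 101) (nat_lit 2) (nat_lit 1) (nat_lit 1) true (nat_lit 10) true (nat_lit 14) false (nat_lit 6) true (nat_lit 13) true (nat_lit 14) (.s true (nat_lit 3) (nat_lit 104) (nat_lit 0) (nat_lit 2) (nat_lit 1) true (nat_lit 12) true (nat_lit 14) false (nat_lit 7) true (nat_lit 15) true (nat_lit 13) (.s false (nat_lit 2) (nat_lit 104) (nat_lit 1) (nat_lit 2) (nat_lit 0) true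 (nat_lit 12) true (nat_lit 15) false (nat_lit 7) true (nat_lit 14) true (nat_lit 13) (.s false (nat_lit 2) (nat_lit 104) (nat_lit 2) (nat_lit 1) (nat_lit 0) true (nat_lit 11) true (nat_lit 15) false (nat_lit 7) true (nat_lit 13) true (nat_lit 14) (.s true (nat_lit 3) (nat_lit 105) (nat_lit 2) (nat_lit 1) (nat_lit 0) true (nat_lit 11) true (nat_lit 15) false (nat_lit 7) true (nat_lit 13) true (nat_lit 14) (.s true (nat_lit 2) (nat_lit 106) (nat_lit 1) (nat_lit 0) (nat_lit 1) false (nat_lit 16) true (nat_lit 14) false (nat_lit 8) true (nat_lit 14) true (nat_lit 15) (.s true (nat_lit 1) (nat_lit 106) (nat_lit 1) (nat_lit 1) (nat_lit 0) true (nat_lit 12) true (nat_lit 15) false (nat_lit 8) true (nat_lit 14) true (nat_lit 14) (.e false (nat_lit 1) (nat_lit 161) (nat_lit 6) (nat_lit 9) (.e true (nat_lit 1) (nat_lit 170) (nat_lit 6) (nat_lit 9) (.e false (nat_lit 1) (nat_lit 172) (nat_lit 6) (nat_lit 9) (.e true (nat_lit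 1) (nat_lit 292) (nat_lit 2) (nat_lit 13) (.e false (nat_lit 1) (nat_lit 294) (nat_lit 2) (nat_lit 13) (.e false (nat_lit 3) (nat_lit 302) (nat_lit 2) (nat_lit 13) (.e false (nat_lit 1) (nat_lit 312) (nat_lit 2) (nat_lit 13) (.e false (nat_lit 3) (nat_lit 318) (nat_lit 2) (nat_lit 13) (.e false (nat_lit 1) (nat_lit 291) (nat_lit 2) (nat_lit 13) (.e false (nat_lit 3) (nat_lit 301) (nat_lit 2) (nat_lit 13) (.e false (nat_lit 2) (nat_lit 307) (nat_lit 2) (nat_lit 13) (.e true (nat_lit 2) (nat_lit 314) (nat_lit 2) (nat_lit 13) dC1d_i439)))))))))))))))))))))))))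

noncomputable def dC1d_i441 : IL := (.s true (nat_lit 2) (nat_lit 46) (nat_lit 1) (nat_lit 4) (nat_lit 1) false (nat_lit 16) true (nat_lit 14) false (nat_lit 2) true (nat_lit 14) true (nat_lit 11) (.s true (nat_lit 3) (nat_lit 46) (nat_lit 2) (nat_lit 3) (nat_lit 1) true (nat_lit 10) true (nat_lit 14) false (nat_lit 2) true (nat_lit 13) true (nat_lit 12) (.s true (nat_lit 1) (nat_lit 46) (nat_lit 4) (nat_lit 1) (nat_lit 1) true (nat_lit 7) true (nat_lit 14) false (nat_lit 2) true (nat_lit 11) true (nat_lit 14) (.s true (nat_lit 2) (nat_lit 46) (nat_lit 5) (nat_lit 0) (nat_lit 1) true (nat_lit 6) true (nat_lit 14) false (nat_lit 2) true (nat_lit 10) true (nat_lit 15) (.s true (nat_lit 2) (nat_lit 70) (nat_lit 2) (nat_lit 2) (nat_lit 2) true (nat_lit 9) true (nat_lit 13) false (nat_lit 3) true (nat_lit 13) true (nat_lit 13) (.s true (nat_lit 1) (nat_lit 71) (nat_lit 2) (nat_lit 2) (nat_lit 2) true (nat_lit 9) true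 (nat_lit 13) false (nat_lit 3) true (nat_lit 13) true (nat_lit 13) (.s true (nat_lit 1) (nat_lit 72) (nat_lit 2) (nat_lit 2) (nat_lit 2) true (nat_lit 9) true (nat_lit 13) false (nat_lit 3) true (nat_lit 13) true (nat_lit 13) (.s false (nat_lit 3) (nat_lit 73) (nat_lit 2) (nat_lit 2) (nat_lit 2) true (nat_lit 9) true (nat_lit 13) false (nat_lit 3) true (nat_lit 13) true (nat_lit 13) (.s false (nat_lit 3) (nat_lit 75) (nat_lit 2) (nat_lit 2) (nat_lit 2) true (nat_lit 9) true (nat_lit 13) false (nat_lit 3) true (nat_lit 13) true (nat_lit 13) (.s false (nat_lit 3) (nat_lit 83) (nat_lit 1) (nat_lit 2) (nat_lit 2) true (nat_lit 10) true (nat_lit 13) false (nat_lit 4) true (nat_lit 14) true (nat_lit 13) (.s false (nat_lit 1) (nat_lit 84) (nat_lit 1) (nat_lit 2) (nat_lit 2) true (nat_lit 10) true (nat_lit 13) false (nat_lit 4) true (nat_lit 14) true (nat_lit 13) (.s true (nat_lit 3) (nat_lit 85) (nat_lit 1) (nat_lit 2)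 (nat_lit 2) true (nat_lit 10) true (nat_lit 13) false (nat_lit 4) true (nat_lit 14) true (nat_lit 13) (.s false (nat_lit 1) (nat_lit 86) (nat_lit 1) (nat_lit 2) (nat_lit 2) true (nat_lit 10) true (nat_lit 13) false (nat_lit 4) true (nat_lit 14) true (nat_lit 13) (.s false (nat_lit 3) (nat_lit 87) (nat_lit 1) (nat_lit 2) (nat_lit 2) true (nat_lit 10) true (nat_lit 13) false (nat_lit 4) true (nat_lit 14) true (nat_lit 13) (.s true (nat_lit 3) (nat_lit 88) (nat_lit 1) (nat_lit 2) (nat_lit 2) true (nat_lit 10) true (nat_lit 13) false (nat_lit 4) true (nat_lit 14) true (nat_lit 13) (.s true (nat_lit 2) (nat_lit 90) (nat_lit 1) (nat_lit 2) (nat_lit 2) true (nat_lit 10) true (nat_lit 13) false (nat_lit 4) true (nat_lit 14) true (nat_lit 13) (.s false (nat_lit 3) (nat_lit 82) (nat_lit 2) (nat_lit 1) (nat_lit 2) true (nat_lit 9) true (nat_lit 13) false (nat_lit 4) true (nat_lit 13) true (nat_lit 14) (.s true (nat_lit 2)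 (nat_lit 84) (nat_lit 2) (nat_lit 1) (nat_lit 2) true (nat_lit 9) true (nat_lit 13) false (nat_lit 4) true (nat_lit 13) true (nat_lit 14) (.s false (nat_lit 3) (nat_lit 90) (nat_lit 2) (nat_lit 1) (nat_lit 2) true (nat_lit 9) true (nat_lit 13) false (nat_lit 4) true (nat_lit 13) true (nat_lit 14) (.s false (nat_lit 1) (nat_lit 91) (nat_lit 2) (nat_lit 1) (nat_lit 2) true (nat_lit 9) true (nat_lit 13) false (nat_lit 4) true (nat_lit 13) true (nat_lit 14) (.s false (nat_lit 1) (nat_lit 82) (nat_lit 2) (nat_lit 2) (nat_lit 1) true (nat_lit 10) true (nat_lit 14) false (nat_lit 4) true (nat_lit 13) true (nat_lit 13) (.s true (nat_lit 1) (nat_lit 83) (nat_lit 2) (nat_lit 2) (nat_lit 1) true (nat_lit 10) true (nat_lit 14) false (nat_lit 4) true (nat_lit 13) true (nat_lit 13) (.s true (nat_lit 1) (nat_lit 84) (nat_lit 2) (nat_lit 2) (nat_lit 1) true (nat_lit 10) true (nat_lit 14) false (nat_lit 4) true (nat_lit 13) true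 (nat_lit 13) (.s true (nat_lit 1) (nat_lit 85) (nat_lit 2) (nat_lit 2) (nat_lit 1) true (nat_lit 10) true (nat_lit 14) false (nat_lit 4) true (nat_lit 13) true (nat_lit 13) (.s true (nat_lit 3) (nat_lit 86) (nat_lit 2) (nat_lit 2) (nat_lit 1) true (nat_lit 10) true (nat_lit 14) false (nat_lit 4) true (nat_lit 13) true (nat_lit 13) dC1d_i440)))))))))))))))))))))))))

noncomputable def dC1d_i442 : IL := (.s true (nat_lit 3) (nat_lit 34) (nat_lit 1) (nat_lit 2) (nat_lit 6) true (nat_lit 4) true (nat_lit 9) true (nat_lit 1) true (nat_lit 14) true (nat_lit 13) (.s false (nat_lit 1) (nat_lit 36) (nat_lit 1) (nat_lit 2) (nat_lit 6) true (nat_lit 4) true (nat_lit 9) true (nat_lit 1) true (nat_lit 14) true (nat_lit 13) (.s false (nat_lit 1) (nat_lit 32) (nat_lit 1) (nat_lit 6) (nat_lit 2) true (nat_lit 10) true (nat_lit 13) true (nat_lit 1) true (nat_lit 14) true (nat_lit 9) (.s false (nat_lit 2) (nat_lit 31) (nat_lit 2)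 (nat_lit 2) (nat_lit 5) true (nat_lit 4) true (nat_lit 10) true (nat_lit 1) true (nat_lit 13) true (nat_lit 13) (.s true (nat_lit 2) (nat_lit 32) (nat_lit 2) (nat_lit 2) (nat_lit 5) true (nat_lit 4) true (nat_lit 10) true (nat_lit 1) true (nat_lit 13) true (nat_lit 13) (.s true (nat_lit 1) (nat_lit 34) (nat_lit 2) (nat_lit 2) (nat_lit 5) true (nat_lit 4) true (nat_lit 10) true (nat_lit 1) true (nat_lit 13) true (nat_lit 13) (.s true (nat_lit 1) (nat_lit 36) (nat_lit 2) (nat_lit 2) (nat_lit 5) true (nat_lit 4) true (nat_lit 10) true (nat_lit 1) true (nat_lit 13) true (nat_lit 13) (.s false (nat_lit 3) (nat_lit 32) (nat_lit 2) (nat_lit 5) (nat_lit 2) true (nat_lit 9) true (nat_lit 13) true (nat_lit 1) true (nat_lit 13) true (nat_lit 10) (.s true (nat_lit 1) (nat_lit 31) (nat_lit 2) (nat_lit 6) (nat_lit 1) true (nat_lit 10) true (nat_lit 14) true (nat_lit 1) true (nat_lit 13) true (nat_lit 9) (.s true (nat_lit 1) (nat_lit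 31) (nat_lit 5) (nat_lit 2) (nat_lit 2) true (nat_lit 4) true (nat_lit 13) true (nat_lit 1) true (nat_lit 10) true (nat_lit 13) (.s true (nat_lit 3) (nat_lit 33) (nat_lit 6) (nat_lit 1) (nat_lit 2) true (nat_lit 3) true (nat_lit 13) true (nat_lit 1) true (nat_lit 9) true (nat_lit 14) (.s true (nat_lit 1) (nat_lit 42) (nat_lit 1) (nat_lit 1) (nat_lit 6) true (nat_lit 4) true (nat_lit 9) false (nat_lit 0) true (nat_lit 14) true (nat_lit 14) (.s false (nat_lit 1) (nat_lit 40) (nat_lit 1) (nat_lit 2) (nat_lit 5) true (nat_lit 6) true (nat_lit 10) false (nat_lit 0) true (nat_lit 14) true (nat_lit 13) (.s false (nat_lit 2) (nat_lit 40) (nat_lit 5) (nat_lit 1) (nat_lit 2) true (nat_lit 4) true (nat_lit 13) false (nat_lit 0) true (nat_lit 10) true (nat_lit 14) (.s false (nat_lit 1) (nat_lit 40) (nat_lit 6) (nat_lit 1) (nat_lit 1) true (nat_lit 4) true (nat_lit 14) false (nat_lit 0) true (nat_lit 9) true (nat_lit 14) (.s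 false (nat_lit 2) (nat_lit 42) (nat_lit 6) (nat_lit 1) (nat_lit 1) true (nat_lit 4) true (nat_lit 14) false (nat_lit 0) true (nat_lit 9) true (nat_lit 14) (.s true (nat_lit 3) (nat_lit 45) (nat_lit 1) (nat_lit 2) (nat_lit 4) true (nat_lit 7) true (nat_lit 11) false (nat_lit 1) true (nat_lit 14) true (nat_lit 13) (.s false (nat_lit 1) (nat_lit 44) (nat_lit 1) (nat_lit 4) (nat_lit 2) true (nat_lit 10) true (nat_lit 13) false (nat_lit 1) true (nat_lit 14) true (nat_lit 11) (.s false (nat_lit 1) (nat_lit 45) (nat_lit 2) (nat_lit 0) (nat_lit 5) true (nat_lit 4) true (nat_lit 10) false (nat_lit 1) true (nat_lit 13) true (nat_lit 15) (.s false (nat_lit 1) (nat_lit 45) (nat_lit 3) (nat_lit 2) (nat_lit 2) true (nat_lit 7) true (nat_lit 13) false (nat_lit 1) true (nat_lit 12) true (nat_lit 13) (.s true (nat_lit 3) (nat_lit 45) (nat_lit 5) (nat_lit 2) (nat_lit 0) true (nat_lit 7) true (nat_lit 15) false (nat_lit 1) true (nat_lit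 10) true (nat_lit 13) (.s true (nat_lit 1) (nat_lit 43) (nat_lit 6) (nat_lit 0) (nat_lit 1) true (nat_lit 4) true (nat_lit 14) false (nat_lit 1) true (nat_lit 9) true (nat_lit 15) (.s false (nat_lit 3) (nat_lit 45) (nat_lit 6) (nat_lit 0) (nat_lit 1) true (nat_lit 4) true (nat_lit 14) false (nat_lit 1) true (nat_lit 9) true (nat_lit 15) (.s true (nat_lit 1) (nat_lit 46) (nat_lit 0) (nat_lit 5) (nat_lit 1) true (nat_lit 12) true (nat_lit 14) false (nat_lit 2) true (nat_lit 15) true (nat_lit 10) (.s false (nat_lit 3) (nat_lit 46) (nat_lit 1) (nat_lit 0) (nat_lit 5) true (nat_lit 6) true (nat_lit 10) false (nat_lit 2) true (nat_lit 14) true (nat_lit 15) dC1d_i441)))))))))))))))))))))))))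

noncomputable def dC1d_i443 : IL := (.s false (nat_lit 2) (nat_lit 18) (nat_lit 1) (nat_lit 12) (nat_lit 2) true (nat_lit 10) true (nat_lit 13) true (nat_lit 3) true (nat_lit 14) true (nat_lit 7) (.s false (nat_lit 2) (nat_lit 18) (nat_lit 1) (nat_lit 14) (nat_lit 1) false (nat_lit 16) true (nat_lit 14) true (nat_lit 3) true (nat_lit 14) true (nat_lit 5) (.s false (nat_lit 2) (nat_lit 18) (nat_lit 2) (nat_lit 1) (nat_lit 10) true (nat_lit 1) true (nat_lit 7) true (nat_lit 3) true (nat_lit 13) true (nat_lit 14) (.s true (nat_lit 3) (nat_lit 18) (nat_lit 2) (nat_lit 1) (nat_lit 11) true (nat_lit 1) true (nat_lit 7) true (nat_lit 3) true (nat_lit 13) true (nat_lit 14) (.s true (nat_lit 2) (nat_lit 18) (nat_lit 2) (nat_lit 2) (nat_lit 8) true (nat_lit 2) true (nat_lit 8) true (nat_lit 3) true (nat_lit 13) true (nat_lit 13) (.s true (nat_lit 1) (nat_lit 18) (nat_lit 2) (nat_lit 3) (nat_lit 5) true (nat_lit 4) true (nat_lit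 10) true (nat_lit 3) true (nat_lit 13) true (nat_lit 12) (.s true (nat_lit 1) (nat_lit 18) (nat_lit 2) (nat_lit 10) (nat_lit 1) true (nat_lit 10) true (nat_lit 14) true (nat_lit 3) true (nat_lit 13) true (nat_lit 7) (.s true (nat_lit 3) (nat_lit 18) (nat_lit 2) (nat_lit 11) (nat_lit 1) true (nat_lit 10) true (nat_lit 14) true (nat_lit 3) true (nat_lit 13) true (nat_lit 7) (.s false (nat_lit 2) (nat_lit 18) (nat_lit 2) (nat_lit 12) (nat_lit 1) true (nat_lit 10) true (nat_lit 14) true (nat_lit 3) true (nat_lit 13) true (nat_lit 7) (.s false (nat_lit 2) (nat_lit 18) (nat_lit 3) (nat_lit 5) (nat_lit 2) true (nat_lit 7) true (nat_lit 13) true (nat_lit 3) true (nat_lit 12) true (nat_lit 10) (.s false (nat_lit 3) (nat_lit 18) (nat_lit 3) (nat_lit 6) (nat_lit 1) true (nat_lit 8) true (nat_lit 14) true (nat_lit 3) true (nat_lit 12) true (nat_lit 9) (.s false (nat_lit 1) (nat_lit 18) (nat_lit 4) (nat_lit 5) (nat_lit 1) true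 (nat_lit 7) true (nat_lit 14) true (nat_lit 3) true (nat_lit 11) true (nat_lit 10) (.s false (nat_lit 2) (nat_lit 18) (nat_lit 5) (nat_lit 3) (nat_lit 2) true (nat_lit 4) true (nat_lit 13) true (nat_lit 3) true (nat_lit 10) true (nat_lit 12) (.s true (nat_lit 3) (nat_lit 18) (nat_lit 6) (nat_lit 3) (nat_lit 1) true (nat_lit 4) true (nat_lit 14) true (nat_lit 3) true (nat_lit 9) true (nat_lit 12) (.s true (nat_lit 2) (nat_lit 18) (nat_lit 8) (nat_lit 2) (nat_lit 2) true (nat_lit 2) true (nat_lit 13) true (nat_lit 3) true (nat_lit 8) true (nat_lit 13) (.s false (nat_lit 3) (nat_lit 18) (nat_lit 12) (nat_lit 2) (nat_lit 1) true (nat_lit 2) true (nat_lit 14) true (nat_lit 3) true (nat_lit 7) true (nat_lit 13) (.s true (nat_lit 3) (nat_lit 18) (nat_lit 14) (nat_lit 1) (nat_lit 1) true (nat_lit 1) true (nat_lit 14) true (nat_lit 3) true (nat_lit 5) true (nat_lit 14) (.s false (nat_lit 2) (nat_lit 18) (nat_lit 16) (nat_lit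 0) (nat_lit 1) true (nat_lit 0) true (nat_lit 14) true (nat_lit 3) true (nat_lit 4) true (nat_lit 15) (.s true (nat_lit 3) (nat_lit 24) (nat_lit 2) (nat_lit 2) (nat_lit 6) true (nat_lit 3) true (nat_lit 9) true (nat_lit 2) true (nat_lit 13) true (nat_lit 13) (.s false (nat_lit 1) (nat_lit 25) (nat_lit 2) (nat_lit 2) (nat_lit 6) true (nat_lit 3) true (nat_lit 9) true (nat_lit 2) true (nat_lit 13) true (nat_lit 13) (.s true (nat_lit 3) (nat_lit 27) (nat_lit 2) (nat_lit 2) (nat_lit 6) true (nat_lit 3) true (nat_lit 9) true (nat_lit 2) true (nat_lit 13) true (nat_lit 13) (.s false (nat_lit 2) (nat_lit 25) (nat_lit 2) (nat_lit 6) (nat_lit 2) true (nat_lit 9) true (nat_lit 13) true (nat_lit 2) true (nat_lit 13) true (nat_lit 9) (.s false (nat_lit 3) (nat_lit 26) (nat_lit 2) (nat_lit 6) (nat_lit 2) true (nat_lit 9) true (nat_lit 13) true (nat_lit 2) true (nat_lit 13) true (nat_lit 9) (.s true (nat_lit 2) (nat_lit 25) (nat_lit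 6) (nat_lit 2) (nat_lit 2) true (nat_lit 3) true (nat_lit 13) true (nat_lit 2) true (nat_lit 9) true (nat_lit 13) (.s false (nat_lit 2) (nat_lit 32) (nat_lit 1) (nat_lit 2) (nat_lit 6) true (nat_lit 4) true (nat_lit 9) true (nat_lit 1) true (nat_lit 14) true (nat_lit 13) dC1d_i442)))))))))))))))))))))))))

noncomputable def dC1d_i444 : IL := (.s false (nat_lit 3) (nat_lit 12) (nat_lit 2) (nat_lit 5) (nat_lit 6) true (nat_lit 3) true (nat_lit 9) true (nat_lit 7) true (nat_lit 13) true (nat_lit 10) (.s true (nat_lit 1) (nat_lit 11) (nat_lit 5) (nat_lit 6) (nat_lit 2) true (nat_lit 4) true (nat_lit 13) true (nat_lit 7) true (nat_lit 10) true (nat_lit 9) (.s false (nat_lit 3) (nat_lit 12) (nat_lit 6) (nat_lit 6) (nat_lit 1) true (nat_lit 4) true (nat_lit 14) true (nat_lit 7) true (nat_lit 9) true (nat_lit 9) (.s false (nat_lit 3) (nat_lit 14) (nat_lit 13) (nat_lit 2) (nat_lit 2) true (nat_lit 0) true (nat_lit 13) true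 (nat_lit 5) true (nat_lit 6) true (nat_lit 13) (.s true (nat_lit 1) (nat_lit 16) (nat_lit 0) (nat_lit 2) (nat_lit 16) true (nat_lit 1) true (nat_lit 4) true (nat_lit 4) true (nat_lit 15) true (nat_lit 13) (.s false (nat_lit 1) (nat_lit 16) (nat_lit 0) (nat_lit 16) (nat_lit 2) true (nat_lit 11) true (nat_lit 13) true (nat_lit 4) true (nat_lit 15) true (nat_lit 4) (.s true (nat_lit 1) (nat_lit 16) (nat_lit 1) (nat_lit 14) (nat_lit 2) true (nat_lit 10) true (nat_lit 13) true (nat_lit 4) true (nat_lit 14) true (nat_lit 5) (.s true (nat_lit 1) (nat_lit 16) (nat_lit 2) (nat_lit 2) (nat_lit 11) true (nat_lit 1) true (nat_lit 7) true (nat_lit 4) true (nat_lit 13) true (nat_lit 13) (.s false (nat_lit 2) (nat_lit 17) (nat_lit 2) (nat_lit 2) (nat_lit 10) true (nat_lit 1) true (nat_lit 7) true (nat_lit 4) true (nat_lit 13) true (nat_lit 13) (.s true (nat_lit 1) (nat_lit 16) (nat_lit 2) (nat_lit 11) (nat_lit 2) true (nat_lit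 9) true (nat_lit 13) true (nat_lit 4) true (nat_lit 13) true (nat_lit 7) (.s false (nat_lit 1) (nat_lit 17) (nat_lit 2) (nat_lit 11) (nat_lit 2) true (nat_lit 9) true (nat_lit 13) true (nat_lit 4) true (nat_lit 13) true (nat_lit 7) (.s false (nat_lit 3) (nat_lit 16) (nat_lit 2) (nat_lit 14) (nat_lit 1) true (nat_lit 10) true (nat_lit 14) true (nat_lit 4) true (nat_lit 13) true (nat_lit 5) (.s true (nat_lit 1) (nat_lit 16) (nat_lit 4) (nat_lit 2) (nat_lit 5) true (nat_lit 1) true (nat_lit 10) true (nat_lit 4) true (nat_lit 11) true (nat_lit 13) (.s false (nat_lit 3) (nat_lit 17) (nat_lit 6) (nat_lit 3) (nat_lit 2) true (nat_lit 3) true (nat_lit 13) true (nat_lit 4) true (nat_lit 9) true (nat_lit 12) (.s true (nat_lit 3) (nat_lit 16) (nat_lit 11) (nat_lit 2) (nat_lit 2) true (nat_lit 1) true (nat_lit 13) true (nat_lit 4) true (nat_lit 7) true (nat_lit 13) (.s false (nat_lit 3) (nat_lit 17) (nat_lit 12) (nat_lit 2)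 (nat_lit 2) true (nat_lit 1) true (nat_lit 13) true (nat_lit 4) true (nat_lit 7) true (nat_lit 13) (.s false (nat_lit 1) (nat_lit 16) (nat_lit 14) (nat_lit 1) (nat_lit 2) false (nat_lit 0) true (nat_lit 13) true (nat_lit 4) true (nat_lit 5) true (nat_lit 14) (.s true (nat_lit 3) (nat_lit 17) (nat_lit 14) (nat_lit 2) (nat_lit 1) true (nat_lit 1) true (nat_lit 14) true (nat_lit 4) true (nat_lit 5) true (nat_lit 13) (.s false (nat_lit 2) (nat_lit 18) (nat_lit 0) (nat_lit 16) (nat_lit 1) true (nat_lit 12) true (nat_lit 14) true (nat_lit 3) true (nat_lit 15) true (nat_lit 4) (.s false (nat_lit 2) (nat_lit 18) (nat_lit 1) (nat_lit 0) (nat_lit 16) true (nat_lit 0) true (nat_lit 4) true (nat_lit 3) true (nat_lit 14) true (nat_lit 15) (.s false (nat_lit 2) (nat_lit 18) (nat_lit 1) (nat_lit 0) (nat_lit 17) true (nat_lit 0) true (nat_lit 4) true (nat_lit 3) true (nat_lit 14) true (nat_lit 15) (.s true (nat_lit 2) (nat_lit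 18) (nat_lit 1) (nat_lit 3) (nat_lit 6) true (nat_lit 4) true (nat_lit 9) true (nat_lit 3) true (nat_lit 14) true (nat_lit 12) (.s false (nat_lit 1) (nat_lit 18) (nat_lit 1) (nat_lit 5) (nat_lit 4) true (nat_lit 7) true (nat_lit 11) true (nat_lit 3) true (nat_lit 14) true (nat_lit 10) (.s true (nat_lit 3) (nat_lit 18) (nat_lit 1) (nat_lit 6) (nat_lit 3) true (nat_lit 8) true (nat_lit 12) true (nat_lit 3) true (nat_lit 14) true (nat_lit 9) (.s false (nat_lit 3) (nat_lit 18) (nat_lit 1) (nat_lit 10) (nat_lit 2) true (nat_lit 10) true (nat_lit 13) true (nat_lit 3) true (nat_lit 14) true (nat_lit 7) dC1d_i443)))))))))))))))))))))))))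

noncomputable def dC1d_i445 : IL := (.e true (nat_lit 2) (nat_lit 193) (nat_lit 5) (nat_lit 10) (.e true (nat_lit 3) (nat_lit 340) (nat_lit 1) (nat_lit 14) (.e false (nat_lit 3) (nat_lit 292) (nat_lit 2) (nat_lit 13) (.e true (nat_lit 3) (nat_lit 302) (nat_lit 2) (nat_lit 13) (.e true (nat_lit 3) (nat_lit 309) (nat_lit 2) (nat_lit 13) (.e true (nat_lit 3) (nat_lit 83) (nat_lit 16) (nat_lit 4) (.e false (nat_lit 3) (nat_lit 82) (nat_lit 17) (nat_lit 4) (.e false (nat_lit 3) (nat_lit 328) (nat_lit 1) (nat_lit 14) (.e false (nat_lit 2) (nat_lit 329) (nat_lit 1) (nat_lit 14) (.e false (nat_lit 3) (nat_lit 332) (nat_lit 1) (nat_lit 14) (.e false (nat_lit 1) (nat_lit 333) (nat_lit 1) (nat_lit 14) (.e false (nat_lit 2) (nat_lit 337) (nat_lit 1) (nat_lit 14) (.e false (nat_lit 3) (nat_lit 345) (nat_lit 1) (nat_lit 14) (.e true (nat_lit 2) (nat_lit 338) (nat_lit 1) (nat_lit 14) (.e false (nat_lit 2) (nat_lit 170) (nat_lit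 6) (nat_lit 9) (.e true (nat_lit 3) (nat_lit 74) (nat_lit 18) (nat_lit 3) (.e false (nat_lit 2) (nat_lit 161) (nat_lit 6) (nat_lit 9) (.e true (nat_lit 3) (nat_lit 180) (nat_lit 5) (nat_lit 10) (.e true (nat_lit 2) (nat_lit 181) (nat_lit 5) (nat_lit 10) (.e true (nat_lit 2) (nat_lit 183) (nat_lit 5) (nat_lit 10) (.e false (nat_lit 2) (nat_lit 185) (nat_lit 5) (nat_lit 10) (.e true (nat_lit 1) (nat_lit 351) (nat_lit 0) (nat_lit 15) (.e false (nat_lit 1) (nat_lit 348) (nat_lit 0) (nat_lit 15) (.u (nat_lit 2) (.n (nat_lit 0) (nat_lit 2) (.p (nat_lit 1) (nat_lit 3) (.p (nat_lit 2) (nat_lit 1) (.n (nat_lit 3) (nat_lit 7) (.n (nat_lit 4) (nat_lit 1) (.n (nat_lit 5) (nat_lit 1) (.n (nat_lit 6) (nat_lit 3) (.p (nat_lit 7) (nat_lit 3) (.n (nat_lit 8) (nat_lit 5) (.p (nat_lit 9) (nat_lit 2) (.p (nat_lit 10) (nat_lit 2) (.n (nat_lit 11) (nat_lit 3) (.n (nat_lit 12) (nat_lit 5) (.p (nat_lit 13) (nat_lit 2) (.n (nat_lit 14)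 (nat_lit 1) (.p (nat_lit 15) (nat_lit 1) (.p (nat_lit 17) (nat_lit 2) (.n (nat_lit 18) (nat_lit 1) (.p (nat_lit 19) (nat_lit 3) (.p (nat_lit 20) (nat_lit 1) (.p (nat_lit 21) (nat_lit 2) (.n (nat_lit 22) (nat_lit 1) (.p (nat_lit 23) (nat_lit 2) (.n (nat_lit 26) (nat_lit 4) (.p (nat_lit 29) (nat_lit 1) (.p (nat_lit 30) (nat_lit 1) (.p (nat_lit 33) (nat_lit 3) (.p (nat_lit 43) (nat_lit 1) (.p (nat_lit 47) (nat_lit 1) (.p (nat_lit 48) (nat_lit 1) (.p (nat_lit 65) (nat_lit 1) (.n (nat_lit 67) (nat_lit 1) (.p (nat_lit 68) (nat_lit 1) (.p (nat_lit 77) (nat_lit 1) (.n (nat_lit 89) (nat_lit 1) (.p (nat_lit 90) (nat_lit 1) (.p (nat_lit 112) (nat_lit 1) (.n (nat_lit 113) (nat_lit 1) (.n (nat_lit 114) (nat_lit 1) (.p (nat_lit 124) (nat_lit 1) (.n (nat_lit 125) (nat_lit 1) (.p (nat_lit 127) (nat_lit 1) (.n (nat_lit 128) (nat_lit 1) (.n (nat_lit 134) (nat_lit 1) (.p (nat_lit 136) (nat_lit 1) (.p (nat_lit 137) (nat_lit 1) (.n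 (nat_lit 143) (nat_lit 2) (.p (nat_lit 148) (nat_lit 1) (.n (nat_lit 149) (nat_lit 1) (.p (nat_lit 170) (nat_lit 1) (.n (nat_lit 171) (nat_lit 1) (.p (nat_lit 172) (nat_lit 1) (.p (nat_lit 173) (nat_lit 5) (.n (nat_lit 174) (nat_lit 3) (.n (nat_lit 175) (nat_lit 2) (.n (nat_lit 176) (nat_lit 3) (.n (nat_lit 177) (nat_lit 1) (.n (nat_lit 178) (nat_lit 5) (.p (nat_lit 179) (nat_lit 6) (.n (nat_lit 180) (nat_lit 6) .z)))))))))))))))))))))))))))))))))))))))))))))))))))))))))))) (.u (nat_lit 2) (.n (nat_lit 181) (nat_lit 3) (.p (nat_lit 182) (nat_lit 3) (.n (nat_lit 183) (nat_lit 1) (.p (nat_lit 184) (nat_lit 1) (.p (nat_lit 185) (nat_lit 3) (.p (nat_lit 186) (nat_lit 2) (.p (nat_lit 187) (nat_lit 9) (.n (nat_lit 188) (nat_lit 2) (.p (nat_lit 190) (nat_lit 2) (.p (nat_lit 191) (nat_lit 11) (.n (nat_lit 193) (nat_lit 5) (.p (nat_lit 194) (nat_lit 1) (.p (nat_lit 195) (nat_lit 3) (.n (nat_lit 196) (nat_lit 2) (.p (nat_lit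 199) (nat_lit 5) (.p (nat_lit 200) (nat_lit 2) (.n (nat_lit 201) (nat_lit 8) (.n (nat_lit 202) (nat_lit 2) (.n (nat_lit 203) (nat_lit 1) (.n (nat_lit 204) (nat_lit 1) (.p (nat_lit 205) (nat_lit 1) (.p (nat_lit 206) (nat_lit 3) (.n (nat_lit 208) (nat_lit 2) (.n (nat_lit 211) (nat_lit 1) .z)))))))))))))))))))))))) .nil)))))))))))))))))))))))))

noncomputable def dC1d_i446 : IL := (.s true (nat_lit 3) (nat_lit 83) (nat_lit 2) (nat_lit 1) (nat_lit 2) true (nat_lit 9) true (nat_lit 13) false (nat_lit 4) true (nat_lit 13) true (nat_lit 14) (.s true (nat_lit 2) (nat_lit 85) (nat_lit 2) (nat_lit 1) (nat_lit 2) true (nat_lit 9) true (nat_lit 13) false (nat_lit 4) true (nat_lit 13) true (nat_lit 14) (.s true (nat_lit 1) (nat_lit 90) (nat_lit 2) (nat_lit 1) (nat_lit 2) true (nat_lit 9) true (nat_lit 13) false (nat_lit 4) true (nat_lit 13) true (nat_lit 14) (.s true (nat_lit 3) (nat_lit 91) (nat_lit 2) (nat_lit 1) (nat_lit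 2) true (nat_lit 9) true (nat_lit 13) false (nat_lit 4) true (nat_lit 13) true (nat_lit 14) (.s false (nat_lit 2) (nat_lit 83) (nat_lit 2) (nat_lit 2) (nat_lit 1) true (nat_lit 10) true (nat_lit 14) false (nat_lit 4) true (nat_lit 13) true (nat_lit 13) (.s false (nat_lit 2) (nat_lit 84) (nat_lit 2) (nat_lit 2) (nat_lit 1) true (nat_lit 10) true (nat_lit 14) false (nat_lit 4) true (nat_lit 13) true (nat_lit 13) (.s true (nat_lit 2) (nat_lit 85) (nat_lit 2) (nat_lit 2) (nat_lit 1) true (nat_lit 10) true (nat_lit 14) false (nat_lit 4) true (nat_lit 13) true (nat_lit 13) (.s true (nat_lit 3) (nat_lit 87) (nat_lit 2) (nat_lit 2) (nat_lit 1) true (nat_lit 10) true (nat_lit 14) false (nat_lit 4) true (nat_lit 13) true (nat_lit 13) (.s false (nat_lit 2) (nat_lit 91) (nat_lit 2) (nat_lit 2) (nat_lit 1) true (nat_lit 10) true (nat_lit 14) false (nat_lit 4) true (nat_lit 13) true (nat_lit 13) (.s false (nat_lit 1) (nat_lit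 103) (nat_lit 0) (nat_lit 1) (nat_lit 2) true (nat_lit 11) true (nat_lit 13) false (nat_lit 7) true (nat_lit 15) true (nat_lit 14) (.s true (nat_lit 1) (nat_lit 105) (nat_lit 0) (nat_lit 1) (nat_lit 2) true (nat_lit 11) true (nat_lit 13) false (nat_lit 7) true (nat_lit 15) true (nat_lit 14) (.s true (nat_lit 1) (nat_lit 106) (nat_lit 1) (nat_lit 0) (nat_lit 1) false (nat_lit 16) true (nat_lit 14) false (nat_lit 8) true (nat_lit 14) true (nat_lit 15) (.s true (nat_lit 2) (nat_lit 106) (nat_lit 1) (nat_lit 1) (nat_lit 0) true (nat_lit 12) true (nat_lit 15) false (nat_lit 8) true (nat_lit 14) true (nat_lit 14) (.e true (nat_lit 3) (nat_lit 171) (nat_lit 6) (nat_lit 9) (.e false (nat_lit 2) (nat_lit 290) (nat_lit 2) (nat_lit 13) (.e true (nat_lit 2) (nat_lit 294) (nat_lit 2) (nat_lit 13) (.e false (nat_lit 3) (nat_lit 298) (nat_lit 2) (nat_lit 13) (.e true (nat_lit 3) (nat_lit 301) (nat_lit 2) (nat_lit 13) (.e false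 (nat_lit 3) (nat_lit 307) (nat_lit 2) (nat_lit 13) (.e true (nat_lit 3) (nat_lit 308) (nat_lit 2) (nat_lit 13) (.e true (nat_lit 1) (nat_lit 310) (nat_lit 2) (nat_lit 13) (.e false (nat_lit 1) (nat_lit 312) (nat_lit 2) (nat_lit 13) (.e false (nat_lit 1) (nat_lit 317) (nat_lit 2) (nat_lit 13) (.e true (nat_lit 2) (nat_lit 318) (nat_lit 2) (nat_lit 13) (.e false (nat_lit 3) (nat_lit 319) (nat_lit 2) (nat_lit 13) dC1d_i445)))))))))))))))))))))))))

noncomputable def dC1d_i447 : IL := (.s true (nat_lit 3) (nat_lit 32) (nat_lit 1) (nat_lit 2) (nat_lit 6) true (nat_lit 4) true (nat_lit 9) true (nat_lit 1) true (nat_lit 14) true (nat_lit 13) (.s false (nat_lit 2) (nat_lit 36) (nat_lit 1) (nat_lit 2) (nat_lit 6) true (nat_lit 4) true (nat_lit 9) true (nat_lit 1) true (nat_lit 14) true (nat_lit 13) (.s true (nat_lit 2) (nat_lit 31) (nat_lit 1) (nat_lit 6) (nat_lit 2) true (nat_lit 10) true (nat_lit 13) true (nat_lit 1) true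 (nat_lit 14) true (nat_lit 9) (.s true (nat_lit 2) (nat_lit 32) (nat_lit 1) (nat_lit 6) (nat_lit 2) true (nat_lit 10) true (nat_lit 13) true (nat_lit 1) true (nat_lit 14) true (nat_lit 9) (.s true (nat_lit 1) (nat_lit 31) (nat_lit 2) (nat_lit 1) (nat_lit 6) true (nat_lit 3) true (nat_lit 9) true (nat_lit 1) true (nat_lit 13) true (nat_lit 14) (.s true (nat_lit 2) (nat_lit 34) (nat_lit 2) (nat_lit 1) (nat_lit 6) true (nat_lit 3) true (nat_lit 9) true (nat_lit 1) true (nat_lit 13) true (nat_lit 14) (.s true (nat_lit 2) (nat_lit 31) (nat_lit 2) (nat_lit 2) (nat_lit 5) true (nat_lit 4) true (nat_lit 10) true (nat_lit 1) true (nat_lit 13) true (nat_lit 13) (.s true (nat_lit 2) (nat_lit 32) (nat_lit 2) (nat_lit 2) (nat_lit 5) true (nat_lit 4) true (nat_lit 10) true (nat_lit 1) true (nat_lit 13) true (nat_lit 13) (.s true (nat_lit 2) (nat_lit 34) (nat_lit 2) (nat_lit 2) (nat_lit 5) true (nat_lit 4) true (nat_lit 10) true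 (nat_lit 1) true (nat_lit 13) true (nat_lit 13) (.s true (nat_lit 2) (nat_lit 36) (nat_lit 2) (nat_lit 2) (nat_lit 5) true (nat_lit 4) true (nat_lit 10) true (nat_lit 1) true (nat_lit 13) true (nat_lit 13) (.s true (nat_lit 3) (nat_lit 32) (nat_lit 2) (nat_lit 5) (nat_lit 2) true (nat_lit 9) true (nat_lit 13) true (nat_lit 1) true (nat_lit 13) true (nat_lit 10) (.s false (nat_lit 3) (nat_lit 31) (nat_lit 5) (nat_lit 2) (nat_lit 2) true (nat_lit 4) true (nat_lit 13) true (nat_lit 1) true (nat_lit 10) true (nat_lit 13) (.s true (nat_lit 3) (nat_lit 44) (nat_lit 2) (nat_lit 3) (nat_lit 2) true (nat_lit 9) true (nat_lit 13) false (nat_lit 1) true (nat_lit 13) true (nat_lit 12) (.s true (nat_lit 3) (nat_lit 43) (nat_lit 3) (nat_lit 2) (nat_lit 2) true (nat_lit 7) true (nat_lit 13) false (nat_lit 1) true (nat_lit 12) true (nat_lit 13) (.s false (nat_lit 2) (nat_lit 44) (nat_lit 3) (nat_lit 2) (nat_lit 2) true (nat_lit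 7) true (nat_lit 13) false (nat_lit 1) true (nat_lit 12) true (nat_lit 13) (.s false (nat_lit 3) (nat_lit 46) (nat_lit 1) (nat_lit 3) (nat_lit 2) true (nat_lit 10) true (nat_lit 13) false (nat_lit 2) true (nat_lit 14) true (nat_lit 12) (.s false (nat_lit 1) (nat_lit 46) (nat_lit 1) (nat_lit 4) (nat_lit 1) false (nat_lit 16) true (nat_lit 14) false (nat_lit 2) true (nat_lit 14) true (nat_lit 11) (.s true (nat_lit 2) (nat_lit 46) (nat_lit 2) (nat_lit 3) (nat_lit 1) true (nat_lit 10) true (nat_lit 14) false (nat_lit 2) true (nat_lit 13) true (nat_lit 12) (.s true (nat_lit 3) (nat_lit 46) (nat_lit 3) (nat_lit 2) (nat_lit 1) true (nat_lit 8) true (nat_lit 14) false (nat_lit 2) true (nat_lit 12) true (nat_lit 13) (.s true (nat_lit 3) (nat_lit 70) (nat_lit 2) (nat_lit 2) (nat_lit 2) true (nat_lit 9) true (nat_lit 13) false (nat_lit 3) true (nat_lit 13) true (nat_lit 13) (.s true (nat_lit 2) (nat_lit 72) (nat_lit 2) (nat_lit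 2) (nat_lit 2) true (nat_lit 9) true (nat_lit 13) false (nat_lit 3) true (nat_lit 13) true (nat_lit 13) (.s true (nat_lit 2) (nat_lit 75) (nat_lit 2) (nat_lit 2) (nat_lit 2) true (nat_lit 9) true (nat_lit 13) false (nat_lit 3) true (nat_lit 13) true (nat_lit 13) (.s true (nat_lit 1) (nat_lit 82) (nat_lit 1) (nat_lit 2) (nat_lit 2) true (nat_lit 10) true (nat_lit 13) false (nat_lit 4) true (nat_lit 14) true (nat_lit 13) (.s false (nat_lit 2) (nat_lit 87) (nat_lit 1) (nat_lit 2) (nat_lit 2) true (nat_lit 10) true (nat_lit 13) false (nat_lit 4) true (nat_lit 14) true (nat_lit 13) (.s true (nat_lit 3) (nat_lit 82) (nat_lit 2) (nat_lit 1) (nat_lit 2) true (nat_lit 9) true (nat_lit 13) false (nat_lit 4) true (nat_lit 13) true (nat_lit 14) dC1d_i446)))))))))))))))))))))))))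

noncomputable def dC1d_i448 : IL := (.s true (nat_lit 1) (nat_lit 10) (nat_lit 1) (nat_lit 6) (nat_lit 6) true (nat_lit 4) true (nat_lit 9) true (nat_lit 7) true (nat_lit 14) true (nat_lit 9) (.s false (nat_lit 1) (nat_lit 11) (nat_lit 1) (nat_lit 6) (nat_lit 6) true (nat_lit 4) true (nat_lit 9) true (nat_lit 7) true (nat_lit 14) true (nat_lit 9) (.s true (nat_lit 2) (nat_lit 11) (nat_lit 6) (nat_lit 5) (nat_lit 2) true (nat_lit 3) true (nat_lit 13) true (nat_lit 7) true (nat_lit 9) true (nat_lit 10) (.s true (nat_lit 3) (nat_lit 10) (nat_lit 6) (nat_lit 6) (nat_lit 1) true (nat_lit 4) true (nat_lit 14) true (nat_lit 7) true (nat_lit 9) true (nat_lit 9) (.s true (nat_lit 1) (nat_lit 11) (nat_lit 6) (nat_lit 6) (nat_lit 1) true (nat_lit 4) true (nat_lit 14) true (nat_lit 7) true (nat_lit 9) true (nat_lit 9) (.s false (nat_lit 1) (nat_lit 16) (nat_lit 2) (nat_lit 2) (nat_lit 10) true (nat_lit 1) true (nat_lit 7)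 true (nat_lit 4) true (nat_lit 13) true (nat_lit 13) (.s false (nat_lit 3) (nat_lit 16) (nat_lit 2) (nat_lit 2) (nat_lit 11) true (nat_lit 1) true (nat_lit 7) true (nat_lit 4) true (nat_lit 13) true (nat_lit 13) (.s false (nat_lit 2) (nat_lit 17) (nat_lit 2) (nat_lit 2) (nat_lit 10) true (nat_lit 1) true (nat_lit 7) true (nat_lit 4) true (nat_lit 13) true (nat_lit 13) (.s true (nat_lit 3) (nat_lit 16) (nat_lit 2) (nat_lit 10) (nat_lit 2) true (nat_lit 9) true (nat_lit 13) true (nat_lit 4) true (nat_lit 13) true (nat_lit 7) (.s false (nat_lit 3) (nat_lit 16) (nat_lit 2) (nat_lit 11) (nat_lit 2) true (nat_lit 9) true (nat_lit 13) true (nat_lit 4) true (nat_lit 13) true (nat_lit 7) (.s false (nat_lit 3) (nat_lit 17) (nat_lit 2) (nat_lit 10) (nat_lit 2) true (nat_lit 9) true (nat_lit 13) true (nat_lit 4) true (nat_lit 13) true (nat_lit 7) (.s false (nat_lit 3) (nat_lit 17) (nat_lit 3) (nat_lit 6) (nat_lit 2) true (nat_lit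 7) true (nat_lit 13) true (nat_lit 4) true (nat_lit 12) true (nat_lit 9) (.s true (nat_lit 2) (nat_lit 17) (nat_lit 6) (nat_lit 3) (nat_lit 2) true (nat_lit 3) true (nat_lit 13) true (nat_lit 4) true (nat_lit 9) true (nat_lit 12) (.s true (nat_lit 1) (nat_lit 18) (nat_lit 1) (nat_lit 2) (nat_lit 10) true (nat_lit 2) true (nat_lit 7) true (nat_lit 3) true (nat_lit 14) true (nat_lit 13) (.s true (nat_lit 2) (nat_lit 18) (nat_lit 1) (nat_lit 6) (nat_lit 3) true (nat_lit 8) true (nat_lit 12) true (nat_lit 3) true (nat_lit 14) true (nat_lit 9) (.s false (nat_lit 2) (nat_lit 18) (nat_lit 1) (nat_lit 11) (nat_lit 2) true (nat_lit 10) true (nat_lit 13) true (nat_lit 3) true (nat_lit 14) true (nat_lit 7) (.s false (nat_lit 1) (nat_lit 18) (nat_lit 2) (nat_lit 1) (nat_lit 10) true (nat_lit 1) true (nat_lit 7) true (nat_lit 3) true (nat_lit 13) true (nat_lit 14) (.s true (nat_lit 2) (nat_lit 18) (nat_lit 2) (nat_lit 1) (nat_lit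 11) true (nat_lit 1) true (nat_lit 7) true (nat_lit 3) true (nat_lit 13) true (nat_lit 14) (.s false (nat_lit 3) (nat_lit 18) (nat_lit 2) (nat_lit 2) (nat_lit 8) true (nat_lit 2) true (nat_lit 8) true (nat_lit 3) true (nat_lit 13) true (nat_lit 13) (.s false (nat_lit 2) (nat_lit 18) (nat_lit 10) (nat_lit 2) (nat_lit 1) true (nat_lit 2) true (nat_lit 14) true (nat_lit 3) true (nat_lit 7) true (nat_lit 13) (.s false (nat_lit 1) (nat_lit 24) (nat_lit 2) (nat_lit 2) (nat_lit 6) true (nat_lit 3) true (nat_lit 9) true (nat_lit 2) true (nat_lit 13) true (nat_lit 13) (.s false (nat_lit 1) (nat_lit 26) (nat_lit 2) (nat_lit 2) (nat_lit 6) true (nat_lit 3) true (nat_lit 9) true (nat_lit 2) true (nat_lit 13) true (nat_lit 13) (.s true (nat_lit 3) (nat_lit 27) (nat_lit 2) (nat_lit 2) (nat_lit 6) true (nat_lit 3) true (nat_lit 9) true (nat_lit 2) true (nat_lit 13) true (nat_lit 13) (.s false (nat_lit 2) (nat_lit 25) (nat_lit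 2) (nat_lit 6) (nat_lit 2) true (nat_lit 9) true (nat_lit 13) true (nat_lit 2) true (nat_lit 13) true (nat_lit 9) (.s false (nat_lit 1) (nat_lit 26) (nat_lit 2) (nat_lit 6) (nat_lit 2) true (nat_lit 9) true (nat_lit 13) true (nat_lit 2) true (nat_lit 13) true (nat_lit 9) dC1d_i447)))))))))))))))))))))))))

noncomputable def dC1d_i449 : IL := (.e false (nat_lit 1) (nat_lit 337) (nat_lit 1) (nat_lit 14) (.e true (nat_lit 3) (nat_lit 338) (nat_lit 1) (nat_lit 14) (.e true (nat_lit 1) (nat_lit 340) (nat_lit 1) (nat_lit 14) (.e true (nat_lit 1) (nat_lit 341) (nat_lit 1) (nat_lit 14) (.e false (nat_lit 1) (nat_lit 342) (nat_lit 1) (nat_lit 14) (.e true (nat_lit 1) (nat_lit 345) (nat_lit 1) (nat_lit 14) (.e false (nat_lit 3) (nat_lit 294) (nat_lit 2) (nat_lit 13) (.e true (nat_lit 1) (nat_lit 296) (nat_lit 2) (nat_lit 13) (.e false (nat_lit 1) (nat_lit 297) (nat_lit 2) (nat_lit 13) (.e true (nat_lit 3) (nat_lit 298) (nat_lit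 2) (nat_lit 13) (.e false (nat_lit 3) (nat_lit 300) (nat_lit 2) (nat_lit 13) (.e false (nat_lit 1) (nat_lit 301) (nat_lit 2) (nat_lit 13) (.e false (nat_lit 1) (nat_lit 307) (nat_lit 2) (nat_lit 13) (.e false (nat_lit 3) (nat_lit 308) (nat_lit 2) (nat_lit 13) (.e false (nat_lit 1) (nat_lit 319) (nat_lit 2) (nat_lit 13) (.e false (nat_lit 2) (nat_lit 313) (nat_lit 2) (nat_lit 13) (.e true (nat_lit 2) (nat_lit 316) (nat_lit 2) (nat_lit 13) (.e true (nat_lit 3) (nat_lit 318) (nat_lit 2) (nat_lit 13) (.e true (nat_lit 1) (nat_lit 295) (nat_lit 2) (nat_lit 13) (.e true (nat_lit 3) (nat_lit 302) (nat_lit 2) (nat_lit 13) (.e true (nat_lit 2) (nat_lit 311) (nat_lit 2) (nat_lit 13) (.e true (nat_lit 1) (nat_lit 314) (nat_lit 2) (nat_lit 13) (.e true (nat_lit 3) (nat_lit 299) (nat_lit 2) (nat_lit 13) (.e true (nat_lit 2) (nat_lit 305) (nat_lit 2) (nat_lit 13) (.u (nat_lit 2) (.p (nat_lit 0) (nat_lit 2) (.p (nat_lit 1) (nat_lit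 2) (.p (nat_lit 2) (nat_lit 1) (.p (nat_lit 3) (nat_lit 1) (.n (nat_lit 4) (nat_lit 3) (.n (nat_lit 5) (nat_lit 2) (.n (nat_lit 7) (nat_lit 1) (.p (nat_lit 8) (nat_lit 1) (.n (nat_lit 9) (nat_lit 1) (.p (nat_lit 10) (nat_lit 1) (.p (nat_lit 11) (nat_lit 2) (.n (nat_lit 12) (nat_lit 4) (.p (nat_lit 13) (nat_lit 3) (.n (nat_lit 16) (nat_lit 2) (.n (nat_lit 17) (nat_lit 4) (.n (nat_lit 18) (nat_lit 1) (.n (nat_lit 19) (nat_lit 2) (.p (nat_lit 20) (nat_lit 1) (.p (nat_lit 21) (nat_lit 1) (.n (nat_lit 22) (nat_lit 2) (.n (nat_lit 27) (nat_lit 1) (.n (nat_lit 29) (nat_lit 4) (.p (nat_lit 32) (nat_lit 1) (.n (nat_lit 33) (nat_lit 1) (.n (nat_lit 174) (nat_lit 2) (.p (nat_lit 175) (nat_lit 2) (.p (nat_lit 176) (nat_lit 2) (.p (nat_lit 177) (nat_lit 2) (.p (nat_lit 178) (nat_lit 4) (.p (nat_lit 179) (nat_lit 3) (.n (nat_lit 180) (nat_lit 3) (.n (nat_lit 181) (nat_lit 2) (.n (nat_lit 183) (nat_lit 2) (.p (nat_lit 184) (nat_lit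 3) (.n (nat_lit 187) (nat_lit 1) (.n (nat_lit 190) (nat_lit 2) (.p (nat_lit 191) (nat_lit 1) (.p (nat_lit 193) (nat_lit 3) (.n (nat_lit 195) (nat_lit 2) (.n (nat_lit 196) (nat_lit 1) (.n (nat_lit 200) (nat_lit 1) (.p (nat_lit 201) (nat_lit 1) (.p (nat_lit 202) (nat_lit 1) .z))))))))))))))))))))))))))))))))))))))))))) .nil)))))))))))))))))))))))))

noncomputable def dC1d_i450 : IL := (.e false (nat_lit 1) (nat_lit 300) (nat_lit 0) (nat_lit 19) (.e true (nat_lit 3) (nat_lit 301) (nat_lit 0) (nat_lit 19) (.e false (nat_lit 3) (nat_lit 302) (nat_lit 0) (nat_lit 19) (.e false (nat_lit 1) (nat_lit 304) (nat_lit 0) (nat_lit 19) (.e true (nat_lit 2) (nat_lit 305) (nat_lit 0) (nat_lit 19) (.e true (nat_lit 1) (nat_lit 308) (nat_lit 0) (nat_lit 19) (.e true (nat_lit 3) (nat_lit 310) (nat_lit 0) (nat_lit 19) (.e false (nat_lit 2) (nat_lit 311) (nat_lit 0) (nat_lit 19) (.e false (nat_lit 3) (nat_lit 313) (nat_lit 0) (nat_lit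 19) (.e true (nat_lit 1) (nat_lit 292) (nat_lit 0) (nat_lit 19) (.e true (nat_lit 2) (nat_lit 309) (nat_lit 0) (nat_lit 19) (.e false (nat_lit 1) (nat_lit 295) (nat_lit 0) (nat_lit 19) (.e true (nat_lit 1) (nat_lit 282) (nat_lit 1) (nat_lit 18) (.e false (nat_lit 3) (nat_lit 78) (nat_lit 13) (nat_lit 8) (.e false (nat_lit 3) (nat_lit 144) (nat_lit 5) (nat_lit 14) (.e false (nat_lit 1) (nat_lit 285) (nat_lit 1) (nat_lit 18) (.e false (nat_lit 1) (nat_lit 154) (nat_lit 4) (nat_lit 15) (.e false (nat_lit 1) (nat_lit 303) (nat_lit 0) (nat_lit 19) (.e true (nat_lit 2) (nat_lit 314) (nat_lit 0) (nat_lit 19) (.e true (nat_lit 2) (nat_lit 315) (nat_lit 0) (nat_lit 19) (.e false (nat_lit 3) (nat_lit 143) (nat_lit 5) (nat_lit 14) (.u (nat_lit 2) (.p (nat_lit 2) (nat_lit 2) (.n (nat_lit 3) (nat_lit 3) (.n (nat_lit 4) (nat_lit 3) (.n (nat_lit 5) (nat_lit 1) (.n (nat_lit 6) (nat_lit 1) (.p (nat_lit 7) (nat_lit 1) (.p (nat_lit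 9) (nat_lit 3) (.n (nat_lit 10) (nat_lit 4) (.p (nat_lit 11) (nat_lit 1) (.p (nat_lit 12) (nat_lit 1) (.p (nat_lit 13) (nat_lit 2) (.n (nat_lit 14) (nat_lit 2) (.p (nat_lit 15) (nat_lit 4) (.n (nat_lit 17) (nat_lit 2) (.p (nat_lit 19) (nat_lit 4) (.p (nat_lit 23) (nat_lit 2) (.p (nat_lit 26) (nat_lit 2) (.p (nat_lit 27) (nat_lit 1) (.n (nat_lit 28) (nat_lit 4) (.n (nat_lit 30) (nat_lit 4) (.p (nat_lit 31) (nat_lit 1) (.n (nat_lit 32) (nat_lit 2) (.n (nat_lit 34) (nat_lit 1) (.p (nat_lit 35) (nat_lit 1) (.n (nat_lit 36) (nat_lit 2) (.n (nat_lit 37) (nat_lit 1) (.p (nat_lit 38) (nat_lit 3) (.p (nat_lit 39) (nat_lit 3) (.n (nat_lit 40) (nat_lit 1) (.p (nat_lit 41) (nat_lit 1) (.n (nat_lit 46) (nat_lit 1) (.p (nat_lit 48) (nat_lit 1) (.n (nat_lit 49) (nat_lit 1) (.n (nat_lit 50) (nat_lit 3) (.p (nat_lit 51) (nat_lit 2) (.n (nat_lit 52) (nat_lit 1) (.n (nat_lit 53) (nat_lit 2) (.n (nat_lit 54) (nat_lit 1) (.p (nat_lit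 55) (nat_lit 3) (.p (nat_lit 56) (nat_lit 1) (.n (nat_lit 58) (nat_lit 1) (.p (nat_lit 59) (nat_lit 2) (.p (nat_lit 60) (nat_lit 1) (.p (nat_lit 61) (nat_lit 2) (.n (nat_lit 62) (nat_lit 1) (.n (nat_lit 63) (nat_lit 1) (.n (nat_lit 67) (nat_lit 1) (.p (nat_lit 68) (nat_lit 2) (.p (nat_lit 69) (nat_lit 2) (.p (nat_lit 70) (nat_lit 3) (.n (nat_lit 71) (nat_lit 1) (.n (nat_lit 72) (nat_lit 1) (.p (nat_lit 73) (nat_lit 1) (.p (nat_lit 74) (nat_lit 1) (.p (nat_lit 75) (nat_lit 1) (.n (nat_lit 76) (nat_lit 1) (.p (nat_lit 78) (nat_lit 1) (.n (nat_lit 81) (nat_lit 1) (.p (nat_lit 82) (nat_lit 1) (.p (nat_lit 83) (nat_lit 1) .z)))))))))))))))))))))))))))))))))))))))))))))))))))))))))))) (.u (nat_lit 2) (.p (nat_lit 89) (nat_lit 1) (.n (nat_lit 93) (nat_lit 1) (.p (nat_lit 95) (nat_lit 1) (.n (nat_lit 98) (nat_lit 1) (.n (nat_lit 99) (nat_lit 1) (.p (nat_lit 100) (nat_lit 1) (.n (nat_lit 101) (nat_lit 1) (.p (nat_lit 105)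 (nat_lit 1) (.n (nat_lit 106) (nat_lit 1) (.n (nat_lit 116) (nat_lit 1) (.p (nat_lit 122) (nat_lit 1) (.n (nat_lit 125) (nat_lit 1) (.p (nat_lit 128) (nat_lit 1) (.n (nat_lit 129) (nat_lit 1) (.n (nat_lit 130) (nat_lit 1) (.n (nat_lit 133) (nat_lit 1) (.n (nat_lit 148) (nat_lit 1) (.n (nat_lit 149) (nat_lit 1) (.p (nat_lit 151) (nat_lit 1) (.p (nat_lit 153) (nat_lit 1) (.n (nat_lit 155) (nat_lit 1) (.n (nat_lit 158) (nat_lit 1) (.n (nat_lit 159) (nat_lit 1) (.n (nat_lit 160) (nat_lit 1) (.p (nat_lit 161) (nat_lit 1) (.n (nat_lit 162) (nat_lit 2) (.n (nat_lit 163) (nat_lit 1) (.p (nat_lit 166) (nat_lit 1) (.n (nat_lit 169) (nat_lit 1) (.n (nat_lit 170) (nat_lit 1) (.n (nat_lit 182) (nat_lit 1) (.p (nat_lit 193) (nat_lit 1) (.n (nat_lit 236) (nat_lit 1) (.p (nat_lit 237) (nat_lit 2) (.p (nat_lit 238) (nat_lit 2) (.n (nat_lit 244) (nat_lit 2) (.n (nat_lit 249) (nat_lit 3) (.p (nat_lit 251) (nat_lit 4) (.p (nat_lit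 252) (nat_lit 1) (.p (nat_lit 253) (nat_lit 1) (.n (nat_lit 254) (nat_lit 1) (.n (nat_lit 257) (nat_lit 1) (.n (nat_lit 258) (nat_lit 2) (.p (nat_lit 261) (nat_lit 1) (.n (nat_lit 262) (nat_lit 1) (.p (nat_lit 263) (nat_lit 2) (.p (nat_lit 266) (nat_lit 1) (.n (nat_lit 269) (nat_lit 1) (.n (nat_lit 275) (nat_lit 1) (.p (nat_lit 291) (nat_lit 1) (.p (nat_lit 294) (nat_lit 2) (.n (nat_lit 298) (nat_lit 1) (.p (nat_lit 301) (nat_lit 1) (.n (nat_lit 304) (nat_lit 1) (.n (nat_lit 311) (nat_lit 1) (.n (nat_lit 312) (nat_lit 1) (.p (nat_lit 314) (nat_lit 2) (.p (nat_lit 316) (nat_lit 5) (.p (nat_lit 317) (nat_lit 3) (.p (nat_lit 318) (nat_lit 3) .z)))))))))))))))))))))))))))))))))))))))))))))))))))))))))))) (.u (nat_lit 2) (.n (nat_lit 319) (nat_lit 3) (.n (nat_lit 320) (nat_lit 1) (.p (nat_lit 321) (nat_lit 1) (.p (nat_lit 323) (nat_lit 2) (.p (nat_lit 324) (nat_lit 2) (.p (nat_lit 327) (nat_lit 6) (.n (nat_lit 328) (nat_lit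 1) (.p (nat_lit 329) (nat_lit 29) (.n (nat_lit 330) (nat_lit 26) (.p (nat_lit 331) (nat_lit 14) (.n (nat_lit 332) (nat_lit 9) (.n (nat_lit 333) (nat_lit 12) (.p (nat_lit 334) (nat_lit 33) (.p (nat_lit 335) (nat_lit 1) (.p (nat_lit 336) (nat_lit 17) (.n (nat_lit 337) (nat_lit 2) (.n (nat_lit 338) (nat_lit 2) (.n (nat_lit 339) (nat_lit 20) (.n (nat_lit 340) (nat_lit 4) (.n (nat_lit 341) (nat_lit 2) (.n (nat_lit 342) (nat_lit 24) (.n (nat_lit 343) (nat_lit 4) (.n (nat_lit 344) (nat_lit 5) (.p (nat_lit 345) (nat_lit 9) (.p (nat_lit 346) (nat_lit 12) (.n (nat_lit 347) (nat_lit 1) (.p (nat_lit 348) (nat_lit 8) (.p (nat_lit 349) (nat_lit 9) (.n (nat_lit 350) (nat_lit 14) (.n (nat_lit 351) (nat_lit 4) (.n (nat_lit 352) (nat_lit 14) (.n (nat_lit 353) (nat_lit 13) (.n (nat_lit 354) (nat_lit 3) (.n (nat_lit 355) (nat_lit 12) (.p (nat_lit 356) (nat_lit 18) (.p (nat_lit 357) (nat_lit 32) (.n (nat_lit 358) (nat_lit 24) (.n (nat_lit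 359) (nat_lit 28) (.n (nat_lit 360) (nat_lit 5) (.p (nat_lit 362) (nat_lit 9) (.p (nat_lit 363) (nat_lit 25) (.p (nat_lit 364) (nat_lit 8) (.n (nat_lit 366) (nat_lit 2) (.p (nat_lit 367) (nat_lit 5) (.n (nat_lit 369) (nat_lit 1) (.p (nat_lit 370) (nat_lit 1) (.n (nat_lit 371) (nat_lit 6) (.p (nat_lit 372) (nat_lit 2) (.p (nat_lit 373) (nat_lit 10) (.n (nat_lit 374) (nat_lit 2) (.p (nat_lit 375) (nat_lit 13) (.n (nat_lit 376) (nat_lit 2) (.n (nat_lit 377) (nat_lit 7) (.p (nat_lit 378) (nat_lit 11) (.n (nat_lit 379) (nat_lit 12) (.p (nat_lit 380) (nat_lit 21) (.p (nat_lit 381) (nat_lit 9) (.p (nat_lit 382) (nat_lit 29) (.n (nat_lit 383) (nat_lit 10) (.n (nat_lit 384) (nat_lit 10) .z)))))))))))))))))))))))))))))))))))))))))))))))))))))))))))) (.u (nat_lit 2) (.p (nat_lit 385) (nat_lit 11) (.p (nat_lit 386) (nat_lit 7) (.n (nat_lit 387) (nat_lit 13) (.p (nat_lit 388) (nat_lit 13) (.p (nat_lit 389) (nat_lit 15) (.n (nat_lit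 391) (nat_lit 1) (.n (nat_lit 392) (nat_lit 9) (.n (nat_lit 393) (nat_lit 5) (.n (nat_lit 394) (nat_lit 19) (.n (nat_lit 395) (nat_lit 9) (.p (nat_lit 396) (nat_lit 1) (.p (nat_lit 397) (nat_lit 1) (.n (nat_lit 398) (nat_lit 9) (.p (nat_lit 399) (nat_lit 13) (.p (nat_lit 400) (nat_lit 4) (.p (nat_lit 401) (nat_lit 6) (.n (nat_lit 403) (nat_lit 10) (.p (nat_lit 404) (nat_lit 2) (.n (nat_lit 405) (nat_lit 9) (.n (nat_lit 406) (nat_lit 5) (.p (nat_lit 407) (nat_lit 8) (.p (nat_lit 408) (nat_lit 3) (.p (nat_lit 409) (nat_lit 13) (.p (nat_lit 410) (nat_lit 13) (.p (nat_lit 411) (nat_lit 2) (.n (nat_lit 412) (nat_lit 9) (.n (nat_lit 413) (nat_lit 9) (.n (nat_lit 414) (nat_lit 16) (.n (nat_lit 415) (nat_lit 9) (.p (nat_lit 416) (nat_lit 12) (.n (nat_lit 417) (nat_lit 1) (.n (nat_lit 418) (nat_lit 3) (.p (nat_lit 419) (nat_lit 4) (.n (nat_lit 420) (nat_lit 6) (.p (nat_lit 421) (nat_lit 2) (.n (nat_lit 422) (nat_lit 5) (.p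 (nat_lit 423) (nat_lit 6) (.n (nat_lit 424) (nat_lit 6) (.p (nat_lit 425) (nat_lit 5) (.n (nat_lit 426) (nat_lit 5) (.n (nat_lit 427) (nat_lit 5) (.n (nat_lit 428) (nat_lit 4) (.n (nat_lit 429) (nat_lit 2) (.n (nat_lit 430) (nat_lit 4) (.n (nat_lit 431) (nat_lit 4) (.p (nat_lit 432) (nat_lit 7) (.p (nat_lit 433) (nat_lit 2) (.p (nat_lit 434) (nat_lit 10) .z)))))))))))))))))))))))))))))))))))))))))))))))) .nil)))))))))))))))))))))))))

noncomputable def dC1d_i451 : IL := (.e true (nat_lit 2) (nat_lit 252) (nat_lit 2) (nat_lit 17) (.e true (nat_lit 3) (nat_lit 77) (nat_lit 13) (nat_lit 8) (.e true (nat_lit 1) (nat_lit 262) (nat_lit 1) (nat_lit 18) (.e true (nat_lit 2) (nat_lit 265) (nat_lit 1) (nat_lit 18) (.e true (nat_lit 2) (nat_lit 268) (nat_lit 1) (nat_lit 18) (.e false (nat_lit 3) (nat_lit 269) (nat_lit 1) (nat_lit 18) (.e false (nat_lit 3) (nat_lit 271) (nat_lit 1) (nat_lit 18) (.e false (nat_lit 3) (nat_lit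 274) (nat_lit 1) (nat_lit 18) (.e false (nat_lit 1) (nat_lit 279) (nat_lit 1) (nat_lit 18) (.e true (nat_lit 3) (nat_lit 288) (nat_lit 1) (nat_lit 18) (.e false (nat_lit 2) (nat_lit 263) (nat_lit 1) (nat_lit 18) (.e true (nat_lit 3) (nat_lit 264) (nat_lit 1) (nat_lit 18) (.e true (nat_lit 3) (nat_lit 273) (nat_lit 1) (nat_lit 18) (.e false (nat_lit 3) (nat_lit 281) (nat_lit 1) (nat_lit 18) (.e true (nat_lit 1) (nat_lit 283) (nat_lit 1) (nat_lit 18) (.e false (nat_lit 1) (nat_lit 280) (nat_lit 1) (nat_lit 18) (.e false (nat_lit 2) (nat_lit 266) (nat_lit 1) (nat_lit 18) (.e true (nat_lit 2) (nat_lit 270) (nat_lit 1) (nat_lit 18) (.e true (nat_lit 2) (nat_lit 260) (nat_lit 1) (nat_lit 18) (.e false (nat_lit 3) (nat_lit 291) (nat_lit 0) (nat_lit 19) (.e true (nat_lit 2) (nat_lit 293) (nat_lit 0) (nat_lit 19) (.e true (nat_lit 3) (nat_lit 294) (nat_lit 0) (nat_lit 19) (.e true (nat_lit 2) (nat_lit 296) (nat_lit 0) (nat_lit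 19) (.e true (nat_lit 3) (nat_lit 297) (nat_lit 0) (nat_lit 19) (.e true (nat_lit 3) (nat_lit 298) (nat_lit 0) (nat_lit 19) dC1d_i450)))))))))))))))))))))))))

noncomputable def dC1d_i452 : IL := (.e false (nat_lit 1) (nat_lit 217) (nat_lit 2) (nat_lit 17) (.e false (nat_lit 2) (nat_lit 221) (nat_lit 2) (nat_lit 17) (.e true (nat_lit 3) (nat_lit 223) (nat_lit 2) (nat_lit 17) (.e true (nat_lit 2) (nat_lit 224) (nat_lit 2) (nat_lit 17) (.e true (nat_lit 3) (nat_lit 225) (nat_lit 2) (nat_lit 17) (.e false (nat_lit 3) (nat_lit 226) (nat_lit 2) (nat_lit 17) (.e false (nat_lit 2) (nat_lit 228) (nat_lit 2) (nat_lit 17) (.e false (nat_lit 2) (nat_lit 233) (nat_lit 2) (nat_lit 17) (.e false (nat_lit 3) (nat_lit 235) (nat_lit 2) (nat_lit 17) (.e true (nat_lit 1) (nat_lit 236) (nat_lit 2) (nat_lit 17) (.e false (nat_lit 2) (nat_lit 242) (nat_lit 2) (nat_lit 17) (.e true (nat_lit 3) (nat_lit 244) (nat_lit 2) (nat_lit 17) (.e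 true (nat_lit 3) (nat_lit 245) (nat_lit 2) (nat_lit 17) (.e false (nat_lit 2) (nat_lit 246) (nat_lit 2) (nat_lit 17) (.e true (nat_lit 2) (nat_lit 247) (nat_lit 2) (nat_lit 17) (.e false (nat_lit 3) (nat_lit 248) (nat_lit 2) (nat_lit 17) (.e false (nat_lit 2) (nat_lit 212) (nat_lit 2) (nat_lit 17) (.e false (nat_lit 1) (nat_lit 219) (nat_lit 2) (nat_lit 17) (.e true (nat_lit 1) (nat_lit 234) (nat_lit 2) (nat_lit 17) (.e true (nat_lit 3) (nat_lit 249) (nat_lit 2) (nat_lit 17) (.e false (nat_lit 3) (nat_lit 307) (nat_lit 0) (nat_lit 19) (.e false (nat_lit 2) (nat_lit 251) (nat_lit 2) (nat_lit 17) (.e true (nat_lit 3) (nat_lit 259) (nat_lit 2) (nat_lit 17) (.e true (nat_lit 1) (nat_lit 136) (nat_lit 5) (nat_lit 14) (.e true (nat_lit 2) (nat_lit 139) (nat_lit 5) (nat_lit 14) dC1d_i451)))))))))))))))))))))))))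

noncomputable def dC1d_i453 : IL := (.s true (nat_lit 3) (nat_lit 104) (nat_lit 0) (nat_lit 1) (nat_lit 0) false (nat_lit 20) true (nat_lit 19) false (nat_lit 12) true (nat_lit 19) true (nat_lit 18) (.s true (nat_lit 1) (nat_lit 105) (nat_lit 0) (nat_lit 1) (nat_lit 0) false (nat_lit 20) true (nat_lit 19) false (nat_lit 12) true (nat_lit 19) true (nat_lit 18) (.s true (nat_lit 2) (nat_lit 104) (nat_lit 1) (nat_lit 0) (nat_lit 0) true (nat_lit 16) true (nat_lit 19) false (nat_lit 12) true (nat_lit 18) true (nat_lit 19) (.a true (nat_lit 1) (nat_lit 31) (nat_lit 31) (nat_lit 0) (nat_lit 0) (.a true (nat_lit 2) (nat_lit 32) (nat_lit 32) (nat_lit 0) (nat_lit 0) (.a true (nat_lit 3) (nat_lit 35) (nat_lit 36) (nat_lit 0) (nat_lit 0) (.a false (nat_lit 3) (nat_lit 36) (nat_lit 36) (nat_lit 0) (nat_lit 0) (.a false (nat_lit 3) (nat_lit 31) (nat_lit 32) (nat_lit 0) (nat_lit 0) (.a true (nat_lit 3) (nat_lit 31) (nat_lit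 33) (nat_lit 0) (nat_lit 0) (.a true (nat_lit 3) (nat_lit 31) (nat_lit 34) (nat_lit 0) (nat_lit 0) (.a true (nat_lit 3) (nat_lit 31) (nat_lit 35) (nat_lit 0) (nat_lit 0) (.a false (nat_lit 3) (nat_lit 31) (nat_lit 36) (nat_lit 0) (nat_lit 0) (.a false (nat_lit 2) (nat_lit 32) (nat_lit 33) (nat_lit 0) (nat_lit 0) (.a false (nat_lit 2) (nat_lit 32) (nat_lit 34) (nat_lit 0) (nat_lit 0) (.a true (nat_lit 2) (nat_lit 32) (nat_lit 36) (nat_lit 0) (nat_lit 0) (.a true (nat_lit 1) (nat_lit 33) (nat_lit 33) (nat_lit 0) (nat_lit 0) (.a true (nat_lit 2) (nat_lit 33) (nat_lit 34) (nat_lit 0) (nat_lit 0) (.a false (nat_lit 2) (nat_lit 33) (nat_lit 36) (nat_lit 0) (nat_lit 0) (.a true (nat_lit 1) (nat_lit 34) (nat_lit 34) (nat_lit 0) (nat_lit 0) (.a false (nat_lit 3) (nat_lit 34) (nat_lit 35) (nat_lit 0) (nat_lit 0) (.a false (nat_lit 2) (nat_lit 34) (nat_lit 36) (nat_lit 0) (nat_lit 0) (.a false (nat_lit 3) (nat_lit 35) (nat_lit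 35) (nat_lit 0) (nat_lit 0) (.e true (nat_lit 3) (nat_lit 213) (nat_lit 2) (nat_lit 17) (.e false (nat_lit 1) (nat_lit 214) (nat_lit 2) (nat_lit 17) (.e false (nat_lit 2) (nat_lit 216) (nat_lit 2) (nat_lit 17) dC1d_i452)))))))))))))))))))))))))

noncomputable def dC1d_i454 : IL := (.s true (nat_lit 3) (nat_lit 80) (nat_lit 1) (nat_lit 1) (nat_lit 2) true (nat_lit 14) true (nat_lit 17) false (nat_lit 8) true (nat_lit 18) true (nat_lit 18) (.s false (nat_lit 3) (nat_lit 82) (nat_lit 0) (nat_lit 1) (nat_lit 2) true (nat_lit 15) true (nat_lit 17) false (nat_lit 9) true (nat_lit 19) true (nat_lit 18) (.s false (nat_lit 3) (nat_lit 83) (nat_lit 0) (nat_lit 1) (nat_lit 2) true (nat_lit 15) true (nat_lit 17) false (nat_lit 9) true (nat_lit 19) true (nat_lit 18) (.s false (nat_lit 2) (nat_lit 90) (nat_lit 0) (nat_lit 1) (nat_lit 2) true (nat_lit 15) true (nat_lit 17) false (nat_lit 9) true (nat_lit 19) true (nat_lit 18)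 (.s true (nat_lit 2) (nat_lit 82) (nat_lit 0) (nat_lit 2) (nat_lit 1) true (nat_lit 16) true (nat_lit 18) false (nat_lit 9) true (nat_lit 19) true (nat_lit 17) (.s false (nat_lit 2) (nat_lit 83) (nat_lit 0) (nat_lit 2) (nat_lit 1) true (nat_lit 16) true (nat_lit 18) false (nat_lit 9) true (nat_lit 19) true (nat_lit 17) (.s false (nat_lit 2) (nat_lit 91) (nat_lit 0) (nat_lit 2) (nat_lit 1) true (nat_lit 16) true (nat_lit 18) false (nat_lit 9) true (nat_lit 19) true (nat_lit 17) (.s false (nat_lit 3) (nat_lit 83) (nat_lit 1) (nat_lit 0) (nat_lit 2) true (nat_lit 14) true (nat_lit 17) false (nat_lit 9) true (nat_lit 18) true (nat_lit 19) (.s true (nat_lit 1) (nat_lit 83) (nat_lit 1) (nat_lit 2) (nat_lit 0) true (nat_lit 16) true (nat_lit 19) false (nat_lit 9) true (nat_lit 18) true (nat_lit 17) (.s true (nat_lit 3) (nat_lit 88) (nat_lit 1) (nat_lit 2) (nat_lit 0) true (nat_lit 16) true (nat_lit 19) false (nat_lit 9)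 true (nat_lit 18) true (nat_lit 17) (.s false (nat_lit 3) (nat_lit 90) (nat_lit 1) (nat_lit 2) (nat_lit 0) true (nat_lit 16) true (nat_lit 19) false (nat_lit 9) true (nat_lit 18) true (nat_lit 17) (.s false (nat_lit 3) (nat_lit 83) (nat_lit 2) (nat_lit 0) (nat_lit 1) true (nat_lit 14) true (nat_lit 18) false (nat_lit 9) true (nat_lit 17) true (nat_lit 19) (.s true (nat_lit 1) (nat_lit 82) (nat_lit 2) (nat_lit 1) (nat_lit 0) true (nat_lit 15) true (nat_lit 19) false (nat_lit 9) true (nat_lit 17) true (nat_lit 18) (.s false (nat_lit 3) (nat_lit 90) (nat_lit 2) (nat_lit 1) (nat_lit 0) true (nat_lit 15) true (nat_lit 19) false (nat_lit 9) true (nat_lit 17) true (nat_lit 18) (.s false (nat_lit 3) (nat_lit 94) (nat_lit 0) (nat_lit 2) (nat_lit 0) false (nat_lit 20) true (nat_lit 19) false (nat_lit 10) true (nat_lit 19) true (nat_lit 17) (.s true (nat_lit 3) (nat_lit 97) (nat_lit 0) (nat_lit 2) (nat_lit 0) false (nat_lit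 20) true (nat_lit 19) false (nat_lit 10) true (nat_lit 19) true (nat_lit 17) (.s true (nat_lit 3) (nat_lit 98) (nat_lit 0) (nat_lit 1) (nat_lit 1) true (nat_lit 16) true (nat_lit 18) false (nat_lit 11) true (nat_lit 19) true (nat_lit 18) (.s true (nat_lit 1) (nat_lit 100) (nat_lit 1) (nat_lit 0) (nat_lit 1) false (nat_lit 21) true (nat_lit 18) false (nat_lit 11) true (nat_lit 18) true (nat_lit 19) (.s false (nat_lit 3) (nat_lit 101) (nat_lit 1) (nat_lit 0) (nat_lit 1) false (nat_lit 21) true (nat_lit 18) false (nat_lit 11) true (nat_lit 18) true (nat_lit 19) (.s false (nat_lit 2) (nat_lit 100) (nat_lit 1) (nat_lit 1) (nat_lit 0) true (nat_lit 16) true (nat_lit 19) false (nat_lit 11) true (nat_lit 18) true (nat_lit 18) (.s true (nat_lit 1) (nat_lit 101) (nat_lit 1) (nat_lit 1) (nat_lit 0) true (nat_lit 16) true (nat_lit 19) false (nat_lit 11) true (nat_lit 18) true (nat_lit 18) (.s true (nat_lit 2) (nat_lit 102)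 (nat_lit 0) (nat_lit 0) (nat_lit 1) true (nat_lit 16) true (nat_lit 18) false (nat_lit 12) true (nat_lit 19) true (nat_lit 19) (.s false (nat_lit 1) (nat_lit 103) (nat_lit 0) (nat_lit 0) (nat_lit 1) true (nat_lit 16) true (nat_lit 18) false (nat_lit 12) true (nat_lit 19) true (nat_lit 19) (.s false (nat_lit 2) (nat_lit 102) (nat_lit 0) (nat_lit 1) (nat_lit 0) false (nat_lit 20) true (nat_lit 19) false (nat_lit 12) true (nat_lit 19) true (nat_lit 18) (.s true (nat_lit 3) (nat_lit 103) (nat_lit 0) (nat_lit 1) (nat_lit 0) false (nat_lit 20) true (nat_lit 19) false (nat_lit 12) true (nat_lit 19) true (nat_lit 18) dC1d_i453)))))))))))))))))))))))))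

noncomputable def dC1d_i455 : IL := (.s true (nat_lit 2) (nat_lit 61) (nat_lit 1) (nat_lit 2) (nat_lit 2) true (nat_lit 14) true (nat_lit 17) false (nat_lit 6) true (nat_lit 18) true (nat_lit 17) (.s true (nat_lit 1) (nat_lit 62) (nat_lit 1) (nat_lit 2) (nat_lit 2) true (nat_lit 14) true (nat_lit 17) false (nat_lit 6) true (nat_lit 18) true (nat_lit 17) (.s true (nat_lit 3) (nat_lit 64) (nat_lit 1) (nat_lit 2) (nat_lit 2) true (nat_lit 14) true (nat_lit 17) false (nat_lit 6) true (nat_lit 18) true (nat_lit 17) (.s true (nat_lit 1) (nat_lit 56) (nat_lit 2) (nat_lit 1) (nat_lit 2) true (nat_lit 13) true (nat_lit 17) false (nat_lit 6) true (nat_lit 17) true (nat_lit 18) (.s true (nat_lit 3) (nat_lit 57) (nat_lit 2) (nat_lit 1) (nat_lit 2) true (nat_lit 13) true (nat_lit 17) false (nat_lit 6) true (nat_lit 17) true (nat_lit 18) (.s false (nat_lit 2) (nat_lit 58) (nat_lit 2) (nat_lit 1) (nat_lit 2) true (nat_lit 13)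 true (nat_lit 17) false (nat_lit 6) true (nat_lit 17) true (nat_lit 18) (.s true (nat_lit 1) (nat_lit 59) (nat_lit 2) (nat_lit 1) (nat_lit 2) true (nat_lit 13) true (nat_lit 17) false (nat_lit 6) true (nat_lit 17) true (nat_lit 18) (.s false (nat_lit 3) (nat_lit 60) (nat_lit 2) (nat_lit 1) (nat_lit 2) true (nat_lit 13) true (nat_lit 17) false (nat_lit 6) true (nat_lit 17) true (nat_lit 18) (.s false (nat_lit 2) (nat_lit 61) (nat_lit 2) (nat_lit 1) (nat_lit 2) true (nat_lit 13) true (nat_lit 17) false (nat_lit 6) true (nat_lit 17) true (nat_lit 18) (.s false (nat_lit 2) (nat_lit 62) (nat_lit 2) (nat_lit 1) (nat_lit 2) true (nat_lit 13) true (nat_lit 17) false (nat_lit 6) true (nat_lit 17) true (nat_lit 18) (.s false (nat_lit 1) (nat_lit 64) (nat_lit 2) (nat_lit 1) (nat_lit 2) true (nat_lit 13) true (nat_lit 17) false (nat_lit 6) true (nat_lit 17) true (nat_lit 18) (.s false (nat_lit 3) (nat_lit 65) (nat_lit 2) (nat_lit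 1) (nat_lit 2) true (nat_lit 13) true (nat_lit 17) false (nat_lit 6) true (nat_lit 17) true (nat_lit 18) (.s false (nat_lit 3) (nat_lit 57) (nat_lit 2) (nat_lit 2) (nat_lit 1) true (nat_lit 14) true (nat_lit 18) false (nat_lit 6) true (nat_lit 17) true (nat_lit 17) (.s false (nat_lit 1) (nat_lit 58) (nat_lit 2) (nat_lit 2) (nat_lit 1) true (nat_lit 14) true (nat_lit 18) false (nat_lit 6) true (nat_lit 17) true (nat_lit 17) (.s false (nat_lit 2) (nat_lit 59) (nat_lit 2) (nat_lit 2) (nat_lit 1) true (nat_lit 14) true (nat_lit 18) false (nat_lit 6) true (nat_lit 17) true (nat_lit 17) (.s true (nat_lit 2) (nat_lit 61) (nat_lit 2) (nat_lit 2) (nat_lit 1) true (nat_lit 14) true (nat_lit 18) false (nat_lit 6) true (nat_lit 17) true (nat_lit 17) (.s true (nat_lit 2) (nat_lit 62) (nat_lit 2) (nat_lit 2) (nat_lit 1) true (nat_lit 14) true (nat_lit 18) false (nat_lit 6) true (nat_lit 17) true (nat_lit 17) (.s false (nat_lit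 2) (nat_lit 70) (nat_lit 0) (nat_lit 2) (nat_lit 2) true (nat_lit 15) true (nat_lit 17) false (nat_lit 7) true (nat_lit 19) true (nat_lit 17) (.s true (nat_lit 3) (nat_lit 71) (nat_lit 0) (nat_lit 2) (nat_lit 2) true (nat_lit 15) true (nat_lit 17) false (nat_lit 7) true (nat_lit 19) true (nat_lit 17) (.s true (nat_lit 3) (nat_lit 74) (nat_lit 0) (nat_lit 2) (nat_lit 2) true (nat_lit 15) true (nat_lit 17) false (nat_lit 7) true (nat_lit 19) true (nat_lit 17) (.s false (nat_lit 1) (nat_lit 75) (nat_lit 0) (nat_lit 2) (nat_lit 2) true (nat_lit 15) true (nat_lit 17) false (nat_lit 7) true (nat_lit 19) true (nat_lit 17) (.s false (nat_lit 2) (nat_lit 66) (nat_lit 2) (nat_lit 0) (nat_lit 2) true (nat_lit 13) true (nat_lit 17) false (nat_lit 7) true (nat_lit 17) true (nat_lit 19) (.s true (nat_lit 3) (nat_lit 74) (nat_lit 2) (nat_lit 0) (nat_lit 2) true (nat_lit 13) true (nat_lit 17) false (nat_lit 7) true (nat_lit 17)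 true (nat_lit 19) (.s true (nat_lit 1) (nat_lit 66) (nat_lit 2) (nat_lit 2) (nat_lit 0) true (nat_lit 15) true (nat_lit 19) false (nat_lit 7) true (nat_lit 17) true (nat_lit 17) (.s false (nat_lit 3) (nat_lit 77) (nat_lit 1) (nat_lit 1) (nat_lit 2) true (nat_lit 14) true (nat_lit 17) false (nat_lit 8) true (nat_lit 18) true (nat_lit 18) dC1d_i454)))))))))))))))))))))))))

noncomputable def dC1d_i456 : IL := (.s false (nat_lit 3) (nat_lit 31) (nat_lit 1) (nat_lit 2) (nat_lit 4) true (nat_lit 9) true (nat_lit 15) true (nat_lit 0) true (nat_lit 18) true (nat_lit 17) (.s false (nat_lit 3) (nat_lit 32) (nat_lit 1) (nat_lit 2) (nat_lit 4) true (nat_lit 9) true (nat_lit 15) true (nat_lit 0) true (nat_lit 18) true (nat_lit 17) (.s false (nat_lit 2) (nat_lit 31) (nat_lit 2) (nat_lit 1) (nat_lit 4) true (nat_lit 7) true (nat_lit 15) true (nat_lit 0) true (nat_lit 17) true (nat_lit 18) (.s true (nat_lit 3) (nat_lit 32) (nat_lit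 2) (nat_lit 1) (nat_lit 4) true (nat_lit 7) true (nat_lit 15) true (nat_lit 0) true (nat_lit 17) true (nat_lit 18) (.s true (nat_lit 3) (nat_lit 31) (nat_lit 2) (nat_lit 5) (nat_lit 0) true (nat_lit 15) true (nat_lit 19) true (nat_lit 0) true (nat_lit 17) true (nat_lit 14) (.s false (nat_lit 1) (nat_lit 31) (nat_lit 3) (nat_lit 2) (nat_lit 2) true (nat_lit 9) true (nat_lit 17) true (nat_lit 0) true (nat_lit 16) true (nat_lit 17) (.s true (nat_lit 1) (nat_lit 31) (nat_lit 4) (nat_lit 2) (nat_lit 1) true (nat_lit 9) true (nat_lit 18) true (nat_lit 0) true (nat_lit 15) true (nat_lit 17) (.s false (nat_lit 1) (nat_lit 35) (nat_lit 6) (nat_lit 0) (nat_lit 1) true (nat_lit 6) true (nat_lit 18) true (nat_lit 0) true (nat_lit 13) true (nat_lit 19) (.s false (nat_lit 3) (nat_lit 40) (nat_lit 0) (nat_lit 1) (nat_lit 5) true (nat_lit 9) true (nat_lit 14) false (nat_lit 2) true (nat_lit 19) true (nat_lit 18) (.s true (nat_lit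 3) (nat_lit 40) (nat_lit 1) (nat_lit 2) (nat_lit 3) true (nat_lit 11) true (nat_lit 16) false (nat_lit 2) true (nat_lit 18) true (nat_lit 17) (.s false (nat_lit 1) (nat_lit 40) (nat_lit 2) (nat_lit 1) (nat_lit 3) true (nat_lit 9) true (nat_lit 16) false (nat_lit 2) true (nat_lit 17) true (nat_lit 18) (.s true (nat_lit 2) (nat_lit 42) (nat_lit 3) (nat_lit 2) (nat_lit 1) true (nat_lit 11) true (nat_lit 18) false (nat_lit 2) true (nat_lit 16) true (nat_lit 17) (.s true (nat_lit 2) (nat_lit 44) (nat_lit 0) (nat_lit 3) (nat_lit 2) true (nat_lit 15) true (nat_lit 17) false (nat_lit 3) true (nat_lit 19) true (nat_lit 16) (.s true (nat_lit 3) (nat_lit 45) (nat_lit 0) (nat_lit 3) (nat_lit 2) true (nat_lit 15) true (nat_lit 17) false (nat_lit 3) true (nat_lit 19) true (nat_lit 16) (.s true (nat_lit 1) (nat_lit 45) (nat_lit 2) (nat_lit 3) (nat_lit 0) true (nat_lit 15) true (nat_lit 19) false (nat_lit 3) true (nat_lit 17) true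 (nat_lit 16) (.s true (nat_lit 2) (nat_lit 45) (nat_lit 3) (nat_lit 2) (nat_lit 0) true (nat_lit 12) true (nat_lit 19) false (nat_lit 3) true (nat_lit 16) true (nat_lit 17) (.s false (nat_lit 3) (nat_lit 46) (nat_lit 0) (nat_lit 1) (nat_lit 3) true (nat_lit 12) true (nat_lit 16) false (nat_lit 4) true (nat_lit 19) true (nat_lit 18) (.s true (nat_lit 3) (nat_lit 46) (nat_lit 1) (nat_lit 3) (nat_lit 0) true (nat_lit 16) true (nat_lit 19) false (nat_lit 4) true (nat_lit 18) true (nat_lit 16) (.s false (nat_lit 1) (nat_lit 49) (nat_lit 2) (nat_lit 2) (nat_lit 2) true (nat_lit 13) true (nat_lit 17) false (nat_lit 5) true (nat_lit 17) true (nat_lit 17) (.s true (nat_lit 1) (nat_lit 50) (nat_lit 2) (nat_lit 2) (nat_lit 2) true (nat_lit 13) true (nat_lit 17) false (nat_lit 5) true (nat_lit 17) true (nat_lit 17) (.s true (nat_lit 1) (nat_lit 53) (nat_lit 2) (nat_lit 2) (nat_lit 2) true (nat_lit 13) true (nat_lit 17) false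 (nat_lit 5) true (nat_lit 17) true (nat_lit 17) (.s true (nat_lit 3) (nat_lit 55) (nat_lit 1) (nat_lit 2) (nat_lit 2) true (nat_lit 14) true (nat_lit 17) false (nat_lit 6) true (nat_lit 18) true (nat_lit 17) (.s false (nat_lit 1) (nat_lit 56) (nat_lit 1) (nat_lit 2) (nat_lit 2) true (nat_lit 14) true (nat_lit 17) false (nat_lit 6) true (nat_lit 18) true (nat_lit 17) (.s true (nat_lit 1) (nat_lit 57) (nat_lit 1) (nat_lit 2) (nat_lit 2) true (nat_lit 14) true (nat_lit 17) false (nat_lit 6) true (nat_lit 18) true (nat_lit 17) (.s true (nat_lit 1) (nat_lit 58) (nat_lit 1) (nat_lit 2) (nat_lit 2) true (nat_lit 14) true (nat_lit 17) false (nat_lit 6) true (nat_lit 18) true (nat_lit 17) dC1d_i455)))))))))))))))))))))))))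

noncomputable def dC1d_i457 : IL := (.s false (nat_lit 1) (nat_lit 22) (nat_lit 1) (nat_lit 2) (nat_lit 6) true (nat_lit 6) true (nat_lit 13) true (nat_lit 3) true (nat_lit 18) true (nat_lit 17) (.s true (nat_lit 1) (nat_lit 20) (nat_lit 1) (nat_lit 6) (nat_lit 2) true (nat_lit 14) true (nat_lit 17) true (nat_lit 3) true (nat_lit 18) true (nat_lit 13) (.s true (nat_lit 1) (nat_lit 21) (nat_lit 1) (nat_lit 6) (nat_lit 2) true (nat_lit 14) true (nat_lit 17) true (nat_lit 3) true (nat_lit 18) true (nat_lit 13) (.s false (nat_lit 3) (nat_lit 20) (nat_lit 2) (nat_lit 1) (nat_lit 6) true (nat_lit 5) true (nat_lit 13) true (nat_lit 3) true (nat_lit 17) true (nat_lit 18) (.s false (nat_lit 2) (nat_lit 21) (nat_lit 2) (nat_lit 1) (nat_lit 6) true (nat_lit 5) true (nat_lit 13) true (nat_lit 3) true (nat_lit 17) true (nat_lit 18) (.s true (nat_lit 3) (nat_lit 20) (nat_lit 2) (nat_lit 2) (nat_lit 5) true (nat_lit 6) true (nat_lit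 14) true (nat_lit 3) true (nat_lit 17) true (nat_lit 17) (.s true (nat_lit 1) (nat_lit 22) (nat_lit 2) (nat_lit 2) (nat_lit 5) true (nat_lit 6) true (nat_lit 14) true (nat_lit 3) true (nat_lit 17) true (nat_lit 17) (.s false (nat_lit 1) (nat_lit 21) (nat_lit 2) (nat_lit 5) (nat_lit 2) true (nat_lit 13) true (nat_lit 17) true (nat_lit 3) true (nat_lit 17) true (nat_lit 14) (.s true (nat_lit 3) (nat_lit 20) (nat_lit 5) (nat_lit 2) (nat_lit 2) true (nat_lit 6) true (nat_lit 17) true (nat_lit 3) true (nat_lit 14) true (nat_lit 17) (.s true (nat_lit 1) (nat_lit 21) (nat_lit 5) (nat_lit 2) (nat_lit 2) true (nat_lit 6) true (nat_lit 17) true (nat_lit 3) true (nat_lit 14) true (nat_lit 17) (.s true (nat_lit 2) (nat_lit 21) (nat_lit 6) (nat_lit 1) (nat_lit 2) true (nat_lit 5) true (nat_lit 17) true (nat_lit 3) true (nat_lit 13) true (nat_lit 18) (.s true (nat_lit 2) (nat_lit 24) (nat_lit 0) (nat_lit 2) (nat_lit 6) true (nat_lit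 7) true (nat_lit 13) true (nat_lit 2) true (nat_lit 19) true (nat_lit 17) (.s false (nat_lit 2) (nat_lit 24) (nat_lit 0) (nat_lit 6) (nat_lit 2) true (nat_lit 15) true (nat_lit 17) true (nat_lit 2) true (nat_lit 19) true (nat_lit 13) (.s false (nat_lit 1) (nat_lit 24) (nat_lit 2) (nat_lit 2) (nat_lit 4) true (nat_lit 7) true (nat_lit 15) true (nat_lit 2) true (nat_lit 17) true (nat_lit 17) (.s false (nat_lit 1) (nat_lit 24) (nat_lit 2) (nat_lit 6) (nat_lit 0) true (nat_lit 15) true (nat_lit 19) true (nat_lit 2) true (nat_lit 17) true (nat_lit 13) (.s true (nat_lit 1) (nat_lit 25) (nat_lit 2) (nat_lit 6) (nat_lit 0) true (nat_lit 15) true (nat_lit 19) true (nat_lit 2) true (nat_lit 17) true (nat_lit 13) (.s false (nat_lit 3) (nat_lit 24) (nat_lit 6) (nat_lit 0) (nat_lit 2) true (nat_lit 5) true (nat_lit 17) true (nat_lit 2) true (nat_lit 13) true (nat_lit 19) (.s false (nat_lit 2) (nat_lit 28) (nat_lit 1) (nat_lit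 1) (nat_lit 6) true (nat_lit 6) true (nat_lit 13) true (nat_lit 1) true (nat_lit 18) true (nat_lit 18) (.s false (nat_lit 3) (nat_lit 30) (nat_lit 1) (nat_lit 1) (nat_lit 6) true (nat_lit 6) true (nat_lit 13) true (nat_lit 1) true (nat_lit 18) true (nat_lit 18) (.s false (nat_lit 3) (nat_lit 29) (nat_lit 1) (nat_lit 2) (nat_lit 5) true (nat_lit 8) true (nat_lit 14) true (nat_lit 1) true (nat_lit 18) true (nat_lit 17) (.s false (nat_lit 3) (nat_lit 29) (nat_lit 2) (nat_lit 1) (nat_lit 5) true (nat_lit 6) true (nat_lit 14) true (nat_lit 1) true (nat_lit 17) true (nat_lit 18) (.s false (nat_lit 1) (nat_lit 28) (nat_lit 5) (nat_lit 2) (nat_lit 1) true (nat_lit 8) true (nat_lit 18) true (nat_lit 1) true (nat_lit 14) true (nat_lit 17) (.s true (nat_lit 1) (nat_lit 31) (nat_lit 0) (nat_lit 2) (nat_lit 5) true (nat_lit 9) true (nat_lit 14) true (nat_lit 0) true (nat_lit 19) true (nat_lit 17) (.s false (nat_lit 1) (nat_lit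 32) (nat_lit 0) (nat_lit 2) (nat_lit 5) true (nat_lit 9) true (nat_lit 14) true (nat_lit 0) true (nat_lit 19) true (nat_lit 17) (.s true (nat_lit 2) (nat_lit 35) (nat_lit 1) (nat_lit 0) (nat_lit 6) true (nat_lit 6) true (nat_lit 13) true (nat_lit 0) true (nat_lit 18) true (nat_lit 19) dC1d_i456)))))))))))))))))))))))))

noncomputable def dC1d_i458 : IL := (.s true (nat_lit 3) (nat_lit 13) (nat_lit 2) (nat_lit 9) (nat_lit 2) true (nat_lit 13) true (nat_lit 17) true (nat_lit 8) true (nat_lit 17) true (nat_lit 10) (.s false (nat_lit 2) (nat_lit 14) (nat_lit 1) (nat_lit 3) (nat_lit 6) true (nat_lit 6) true (nat_lit 13) true (nat_lit 7) true (nat_lit 18) true (nat_lit 16) (.s true (nat_lit 1) (nat_lit 14) (nat_lit 2) (nat_lit 1) (nat_lit 10) true (nat_lit 0) true (nat_lit 9) true (nat_lit 7) true (nat_lit 17) true (nat_lit 18) (.s false (nat_lit 1) (nat_lit 15) (nat_lit 2) (nat_lit 2) (nat_lit 8) true (nat_lit 2) true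 (nat_lit 11) true (nat_lit 7) true (nat_lit 17) true (nat_lit 17) (.s true (nat_lit 1) (nat_lit 14) (nat_lit 2) (nat_lit 8) (nat_lit 2) true (nat_lit 13) true (nat_lit 17) true (nat_lit 7) true (nat_lit 17) true (nat_lit 11) (.s false (nat_lit 3) (nat_lit 15) (nat_lit 2) (nat_lit 8) (nat_lit 2) true (nat_lit 13) true (nat_lit 17) true (nat_lit 7) true (nat_lit 17) true (nat_lit 11) (.s false (nat_lit 2) (nat_lit 15) (nat_lit 3) (nat_lit 1) (nat_lit 6) true (nat_lit 0) true (nat_lit 13) true (nat_lit 7) true (nat_lit 16) true (nat_lit 18) (.s true (nat_lit 3) (nat_lit 15) (nat_lit 8) (nat_lit 2) (nat_lit 2) true (nat_lit 2) true (nat_lit 17) true (nat_lit 7) true (nat_lit 11) true (nat_lit 17) (.s false (nat_lit 1) (nat_lit 16) (nat_lit 0) (nat_lit 0) (nat_lit 16) true (nat_lit 0) true (nat_lit 6) true (nat_lit 6) true (nat_lit 19) true (nat_lit 19) (.s true (nat_lit 2) (nat_lit 17) (nat_lit 0) (nat_lit 0) (nat_lit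 17) true (nat_lit 0) true (nat_lit 6) true (nat_lit 6) true (nat_lit 19) true (nat_lit 19) (.s false (nat_lit 3) (nat_lit 16) (nat_lit 0) (nat_lit 10) (nat_lit 2) true (nat_lit 15) true (nat_lit 17) true (nat_lit 6) true (nat_lit 19) true (nat_lit 9) (.s true (nat_lit 3) (nat_lit 16) (nat_lit 2) (nat_lit 0) (nat_lit 10) true (nat_lit 0) true (nat_lit 9) true (nat_lit 6) true (nat_lit 17) true (nat_lit 19) (.s true (nat_lit 2) (nat_lit 16) (nat_lit 2) (nat_lit 2) (nat_lit 7) true (nat_lit 3) true (nat_lit 12) true (nat_lit 6) true (nat_lit 17) true (nat_lit 17) (.s false (nat_lit 3) (nat_lit 17) (nat_lit 2) (nat_lit 7) (nat_lit 2) true (nat_lit 13) true (nat_lit 17) true (nat_lit 6) true (nat_lit 17) true (nat_lit 12) (.s true (nat_lit 2) (nat_lit 16) (nat_lit 7) (nat_lit 2) (nat_lit 2) true (nat_lit 3) true (nat_lit 17) true (nat_lit 6) true (nat_lit 12) true (nat_lit 17) (.s false (nat_lit 1) (nat_lit 16) (nat_lit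 9) (nat_lit 1) (nat_lit 2) true (nat_lit 1) true (nat_lit 17) true (nat_lit 6) true (nat_lit 10) true (nat_lit 18) (.s false (nat_lit 2) (nat_lit 18) (nat_lit 0) (nat_lit 2) (nat_lit 8) true (nat_lit 4) true (nat_lit 11) true (nat_lit 5) true (nat_lit 19) true (nat_lit 17) (.s true (nat_lit 3) (nat_lit 18) (nat_lit 1) (nat_lit 1) (nat_lit 9) true (nat_lit 3) true (nat_lit 10) true (nat_lit 5) true (nat_lit 18) true (nat_lit 18) (.s false (nat_lit 2) (nat_lit 18) (nat_lit 1) (nat_lit 2) (nat_lit 7) true (nat_lit 4) true (nat_lit 12) true (nat_lit 5) true (nat_lit 18) true (nat_lit 17) (.s false (nat_lit 1) (nat_lit 18) (nat_lit 2) (nat_lit 8) (nat_lit 0) true (nat_lit 15) true (nat_lit 19) true (nat_lit 5) true (nat_lit 17) true (nat_lit 11) (.s false (nat_lit 1) (nat_lit 18) (nat_lit 7) (nat_lit 2) (nat_lit 1) true (nat_lit 4) true (nat_lit 18) true (nat_lit 5) true (nat_lit 12) true (nat_lit 17) (.s false (nat_lit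 3) (nat_lit 18) (nat_lit 9) (nat_lit 1) (nat_lit 1) true (nat_lit 3) true (nat_lit 18) true (nat_lit 5) true (nat_lit 10) true (nat_lit 18) (.s false (nat_lit 1) (nat_lit 18) (nat_lit 10) (nat_lit 0) (nat_lit 1) true (nat_lit 2) true (nat_lit 18) true (nat_lit 5) true (nat_lit 9) true (nat_lit 19) (.s false (nat_lit 1) (nat_lit 18) (nat_lit 10) (nat_lit 1) (nat_lit 0) true (nat_lit 3) true (nat_lit 19) true (nat_lit 5) true (nat_lit 9) true (nat_lit 18) (.s false (nat_lit 1) (nat_lit 21) (nat_lit 1) (nat_lit 2) (nat_lit 6) true (nat_lit 6) true (nat_lit 13) true (nat_lit 3) true (nat_lit 18) true (nat_lit 17) dC1d_i457)))))))))))))))))))))))))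

noncomputable def dC1d_i459 : IL := (.e false (nat_lit 1) (nat_lit 340) (nat_lit 1) (nat_lit 14) (.e false (nat_lit 3) (nat_lit 292) (nat_lit 2) (nat_lit 13) (.e false (nat_lit 3) (nat_lit 302) (nat_lit 2) (nat_lit 13) (.e false (nat_lit 3) (nat_lit 314) (nat_lit 2) (nat_lit 13) (.e true (nat_lit 1) (nat_lit 328) (nat_lit 1) (nat_lit 14) (.e true (nat_lit 1) (nat_lit 329) (nat_lit 1) (nat_lit 14) (.e false (nat_lit 1) (nat_lit 332) (nat_lit 1) (nat_lit 14) (.e true (nat_lit 2) (nat_lit 335) (nat_lit 1) (nat_lit 14) (.e false (nat_lit 1) (nat_lit 338) (nat_lit 1) (nat_lit 14) (.e false (nat_lit 3) (nat_lit 330) (nat_lit 1) (nat_lit 14) (.e false (nat_lit 2) (nat_lit 334) (nat_lit 1) (nat_lit 14) (.e false (nat_lit 2) (nat_lit 337) (nat_lit 1) (nat_lit 14) (.e false (nat_lit 3) (nat_lit 83) (nat_lit 16) (nat_lit 4) (.e false (nat_lit 2) (nat_lit 181) (nat_lit 5) (nat_lit 10) (.e false (nat_lit 3) (nat_lit 186) (nat_lit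 5) (nat_lit 10) (.e true (nat_lit 3) (nat_lit 345) (nat_lit 1) (nat_lit 14) (.e true (nat_lit 1) (nat_lit 347) (nat_lit 0) (nat_lit 15) (.e true (nat_lit 2) (nat_lit 348) (nat_lit 0) (nat_lit 15) (.e true (nat_lit 3) (nat_lit 349) (nat_lit 0) (nat_lit 15) (.e false (nat_lit 2) (nat_lit 350) (nat_lit 0) (nat_lit 15) (.e false (nat_lit 3) (nat_lit 351) (nat_lit 0) (nat_lit 15) (.e false (nat_lit 2) (nat_lit 352) (nat_lit 0) (nat_lit 15) (.e false (nat_lit 2) (nat_lit 170) (nat_lit 6) (nat_lit 9) (.u (nat_lit 2) (.p (nat_lit 0) (nat_lit 1) (.n (nat_lit 1) (nat_lit 2) (.n (nat_lit 2) (nat_lit 1) (.p (nat_lit 3) (nat_lit 2) (.n (nat_lit 4) (nat_lit 3) (.n (nat_lit 5) (nat_lit 1) (.n (nat_lit 7) (nat_lit 5) (.n (nat_lit 9) (nat_lit 1) (.n (nat_lit 10) (nat_lit 2) (.p (nat_lit 11) (nat_lit 5) (.p (nat_lit 12) (nat_lit 1) (.p (nat_lit 13) (nat_lit 4) (.p (nat_lit 14) (nat_lit 3) (.p (nat_lit 15) (nat_lit 2) (.n (nat_lit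 16) (nat_lit 4) (.p (nat_lit 17) (nat_lit 2) (.p (nat_lit 19) (nat_lit 2) (.p (nat_lit 21) (nat_lit 1) (.p (nat_lit 23) (nat_lit 1) (.n (nat_lit 26) (nat_lit 1) (.p (nat_lit 29) (nat_lit 2) (.p (nat_lit 33) (nat_lit 1) (.p (nat_lit 44) (nat_lit 1) (.p (nat_lit 45) (nat_lit 1) (.n (nat_lit 51) (nat_lit 1) (.n (nat_lit 62) (nat_lit 1) (.n (nat_lit 67) (nat_lit 1) (.n (nat_lit 69) (nat_lit 1) (.n (nat_lit 74) (nat_lit 1) (.n (nat_lit 77) (nat_lit 2) (.n (nat_lit 87) (nat_lit 1) (.n (nat_lit 92) (nat_lit 1) (.n (nat_lit 96) (nat_lit 1) (.p (nat_lit 113) (nat_lit 1) (.p (nat_lit 117) (nat_lit 1) (.p (nat_lit 118) (nat_lit 1) (.p (nat_lit 121) (nat_lit 1) (.p (nat_lit 122) (nat_lit 1) (.n (nat_lit 123) (nat_lit 1) (.n (nat_lit 126) (nat_lit 1) (.p (nat_lit 127) (nat_lit 1) (.n (nat_lit 129) (nat_lit 1) (.n (nat_lit 133) (nat_lit 1) (.p (nat_lit 134) (nat_lit 3) (.p (nat_lit 136) (nat_lit 1) (.n (nat_lit 139) (nat_lit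 1) (.p (nat_lit 140) (nat_lit 1) (.p (nat_lit 142) (nat_lit 1) (.n (nat_lit 143) (nat_lit 1) (.n (nat_lit 144) (nat_lit 1) (.n (nat_lit 147) (nat_lit 2) (.n (nat_lit 149) (nat_lit 1) (.n (nat_lit 152) (nat_lit 1) (.n (nat_lit 153) (nat_lit 1) (.p (nat_lit 155) (nat_lit 1) (.p (nat_lit 156) (nat_lit 1) (.p (nat_lit 158) (nat_lit 1) (.n (nat_lit 172) (nat_lit 1) (.n (nat_lit 174) (nat_lit 3) (.n (nat_lit 175) (nat_lit 4) .z)))))))))))))))))))))))))))))))))))))))))))))))))))))))))))) (.u (nat_lit 2) (.p (nat_lit 176) (nat_lit 4) (.n (nat_lit 178) (nat_lit 5) (.n (nat_lit 179) (nat_lit 1) (.p (nat_lit 180) (nat_lit 1) (.n (nat_lit 181) (nat_lit 3) (.p (nat_lit 182) (nat_lit 5) (.p (nat_lit 183) (nat_lit 1) (.p (nat_lit 184) (nat_lit 4) (.n (nat_lit 185) (nat_lit 3) (.n (nat_lit 186) (nat_lit 2) (.n (nat_lit 187) (nat_lit 4) (.p (nat_lit 188) (nat_lit 2) (.n (nat_lit 190) (nat_lit 4) (.n (nat_lit 191) (nat_lit 9) (.p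 (nat_lit 192) (nat_lit 1) (.p (nat_lit 193) (nat_lit 6) (.p (nat_lit 194) (nat_lit 2) (.n (nat_lit 195) (nat_lit 1) (.n (nat_lit 196) (nat_lit 2) (.n (nat_lit 199) (nat_lit 9) (.p (nat_lit 200) (nat_lit 1) (.p (nat_lit 201) (nat_lit 1) (.p (nat_lit 202) (nat_lit 2) (.p (nat_lit 203) (nat_lit 3) (.p (nat_lit 204) (nat_lit 6) (.p (nat_lit 205) (nat_lit 5) (.n (nat_lit 206) (nat_lit 2) (.n (nat_lit 207) (nat_lit 2) (.p (nat_lit 208) (nat_lit 4) (.n (nat_lit 209) (nat_lit 4) (.n (nat_lit 210) (nat_lit 3) (.n (nat_lit 211) (nat_lit 5) (.p (nat_lit 212) (nat_lit 2) (.n (nat_lit 213) (nat_lit 11) (.p (nat_lit 215) (nat_lit 1) (.n (nat_lit 219) (nat_lit 1) (.p (nat_lit 220) (nat_lit 1) (.p (nat_lit 223) (nat_lit 1) (.n (nat_lit 227) (nat_lit 1) .z))))))))))))))))))))))))))))))))))))))) .nil)))))))))))))))))))))))))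

noncomputable def dC1d_i460 : IL := (.s false (nat_lit 2) (nat_lit 91) (nat_lit 2) (nat_lit 1) (nat_lit 2) true (nat_lit 9) true (nat_lit 13) false (nat_lit 4) true (nat_lit 13) true (nat_lit 14) (.s false (nat_lit 1) (nat_lit 82) (nat_lit 2) (nat_lit 2) (nat_lit 1) true (nat_lit 10) true (nat_lit 14) false (nat_lit 4) true (nat_lit 13) true (nat_lit 13) (.s false (nat_lit 1) (nat_lit 83) (nat_lit 2) (nat_lit 2) (nat_lit 1) true (nat_lit 10) true (nat_lit 14) false (nat_lit 4) true (nat_lit 13) true (nat_lit 13) (.s true (nat_lit 2) (nat_lit 84) (nat_lit 2) (nat_lit 2) (nat_lit 1) true (nat_lit 10) true (nat_lit 14) false (nat_lit 4) true (nat_lit 13) true (nat_lit 13) (.s false (nat_lit 2) (nat_lit 86) (nat_lit 2) (nat_lit 2) (nat_lit 1) true (nat_lit 10) true (nat_lit 14) false (nat_lit 4) true (nat_lit 13) true (nat_lit 13) (.s true (nat_lit 3) (nat_lit 88) (nat_lit 2) (nat_lit 2) (nat_lit 1) true (nat_lit 10)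 true (nat_lit 14) false (nat_lit 4) true (nat_lit 13) true (nat_lit 13) (.s true (nat_lit 3) (nat_lit 89) (nat_lit 2) (nat_lit 2) (nat_lit 1) true (nat_lit 10) true (nat_lit 14) false (nat_lit 4) true (nat_lit 13) true (nat_lit 13) (.s true (nat_lit 1) (nat_lit 90) (nat_lit 2) (nat_lit 2) (nat_lit 1) true (nat_lit 10) true (nat_lit 14) false (nat_lit 4) true (nat_lit 13) true (nat_lit 13) (.s false (nat_lit 1) (nat_lit 91) (nat_lit 2) (nat_lit 2) (nat_lit 1) true (nat_lit 10) true (nat_lit 14) false (nat_lit 4) true (nat_lit 13) true (nat_lit 13) (.s false (nat_lit 2) (nat_lit 92) (nat_lit 2) (nat_lit 2) (nat_lit 1) true (nat_lit 10) true (nat_lit 14) false (nat_lit 4) true (nat_lit 13) true (nat_lit 13) (.s true (nat_lit 2) (nat_lit 99) (nat_lit 2) (nat_lit 1) (nat_lit 1) true (nat_lit 10) true (nat_lit 14) false (nat_lit 6) true (nat_lit 13) true (nat_lit 14) (.s true (nat_lit 1) (nat_lit 101) (nat_lit 2) (nat_lit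 1) (nat_lit 1) true (nat_lit 10) true (nat_lit 14) false (nat_lit 6) true (nat_lit 13) true (nat_lit 14) (.s false (nat_lit 1) (nat_lit 104) (nat_lit 1) (nat_lit 2) (nat_lit 0) true (nat_lit 12) true (nat_lit 15) false (nat_lit 7) true (nat_lit 14) true (nat_lit 13) (.s false (nat_lit 2) (nat_lit 106) (nat_lit 1) (nat_lit 0) (nat_lit 1) false (nat_lit 16) true (nat_lit 14) false (nat_lit 8) true (nat_lit 14) true (nat_lit 15) (.s false (nat_lit 2) (nat_lit 106) (nat_lit 1) (nat_lit 1) (nat_lit 0) true (nat_lit 12) true (nat_lit 15) false (nat_lit 8) true (nat_lit 14) true (nat_lit 14) (.e false (nat_lit 1) (nat_lit 172) (nat_lit 6) (nat_lit 9) (.e false (nat_lit 3) (nat_lit 291) (nat_lit 2) (nat_lit 13) (.e true (nat_lit 1) (nat_lit 301) (nat_lit 2) (nat_lit 13) (.e false (nat_lit 1) (nat_lit 307) (nat_lit 2) (nat_lit 13) (.e false (nat_lit 1) (nat_lit 298) (nat_lit 2) (nat_lit 13) (.e false (nat_lit 1) (nat_lit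 290) (nat_lit 2) (nat_lit 13) (.e true (nat_lit 3) (nat_lit 310) (nat_lit 2) (nat_lit 13) (.e false (nat_lit 2) (nat_lit 312) (nat_lit 2) (nat_lit 13) (.e false (nat_lit 1) (nat_lit 294) (nat_lit 2) (nat_lit 13) (.e false (nat_lit 2) (nat_lit 336) (nat_lit 1) (nat_lit 14) dC1d_i459)))))))))))))))))))))))))

noncomputable def dC1d_i461 : IL := (.s false (nat_lit 3) (nat_lit 31) (nat_lit 5) (nat_lit 2) (nat_lit 2) true (nat_lit 4) true (nat_lit 13) true (nat_lit 1) true (nat_lit 10) true (nat_lit 13) (.s true (nat_lit 1) (nat_lit 32) (nat_lit 5) (nat_lit 2) (nat_lit 2) true (nat_lit 4) true (nat_lit 13) true (nat_lit 1) true (nat_lit 10) true (nat_lit 13) (.s true (nat_lit 3) (nat_lit 33) (nat_lit 5) (nat_lit 2) (nat_lit 2) true (nat_lit 4) true (nat_lit 13) true (nat_lit 1) true (nat_lit 10) true (nat_lit 13) (.s false (nat_lit 2) (nat_lit 36) (nat_lit 6) (nat_lit 2) (nat_lit 1) true (nat_lit 4) true (nat_lit 14)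 true (nat_lit 1) true (nat_lit 9) true (nat_lit 13) (.s false (nat_lit 3) (nat_lit 40) (nat_lit 5) (nat_lit 1) (nat_lit 2) true (nat_lit 4) true (nat_lit 13) false (nat_lit 0) true (nat_lit 10) true (nat_lit 14) (.s false (nat_lit 2) (nat_lit 40) (nat_lit 6) (nat_lit 1) (nat_lit 1) true (nat_lit 4) true (nat_lit 14) false (nat_lit 0) true (nat_lit 9) true (nat_lit 14) (.s false (nat_lit 3) (nat_lit 45) (nat_lit 2) (nat_lit 2) (nat_lit 3) true (nat_lit 7) true (nat_lit 12) false (nat_lit 1) true (nat_lit 13) true (nat_lit 13) (.s true (nat_lit 2) (nat_lit 44) (nat_lit 2) (nat_lit 3) (nat_lit 2) true (nat_lit 9) true (nat_lit 13) false (nat_lit 1) true (nat_lit 13) true (nat_lit 12) (.s true (nat_lit 1) (nat_lit 44) (nat_lit 3) (nat_lit 2) (nat_lit 2) true (nat_lit 7) true (nat_lit 13) false (nat_lit 1) true (nat_lit 12) true (nat_lit 13) (.s false (nat_lit 1) (nat_lit 45) (nat_lit 6) (nat_lit 1) (nat_lit 0) true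 (nat_lit 5) true (nat_lit 15) false (nat_lit 1) true (nat_lit 9) true (nat_lit 14) (.s false (nat_lit 2) (nat_lit 46) (nat_lit 1) (nat_lit 5) (nat_lit 0) true (nat_lit 12) true (nat_lit 15) false (nat_lit 2) true (nat_lit 14) true (nat_lit 10) (.s true (nat_lit 2) (nat_lit 46) (nat_lit 2) (nat_lit 3) (nat_lit 1) true (nat_lit 10) true (nat_lit 14) false (nat_lit 2) true (nat_lit 13) true (nat_lit 12) (.s false (nat_lit 2) (nat_lit 46) (nat_lit 4) (nat_lit 1) (nat_lit 1) true (nat_lit 7) true (nat_lit 14) false (nat_lit 2) true (nat_lit 11) true (nat_lit 14) (.s false (nat_lit 2) (nat_lit 46) (nat_lit 5) (nat_lit 0) (nat_lit 1) true (nat_lit 6) true (nat_lit 14) false (nat_lit 2) true (nat_lit 10) true (nat_lit 15) (.s true (nat_lit 2) (nat_lit 71) (nat_lit 2) (nat_lit 2) (nat_lit 2) true (nat_lit 9) true (nat_lit 13) false (nat_lit 3) true (nat_lit 13) true (nat_lit 13) (.s false (nat_lit 1) (nat_lit 72) (nat_lit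 2) (nat_lit 2) (nat_lit 2) true (nat_lit 9) true (nat_lit 13) false (nat_lit 3) true (nat_lit 13) true (nat_lit 13) (.s true (nat_lit 3) (nat_lit 73) (nat_lit 2) (nat_lit 2) (nat_lit 2) true (nat_lit 9) true (nat_lit 13) false (nat_lit 3) true (nat_lit 13) true (nat_lit 13) (.s false (nat_lit 2) (nat_lit 75) (nat_lit 2) (nat_lit 2) (nat_lit 2) true (nat_lit 9) true (nat_lit 13) false (nat_lit 3) true (nat_lit 13) true (nat_lit 13) (.s true (nat_lit 1) (nat_lit 82) (nat_lit 1) (nat_lit 2) (nat_lit 2) true (nat_lit 10) true (nat_lit 13) false (nat_lit 4) true (nat_lit 14) true (nat_lit 13) (.s true (nat_lit 3) (nat_lit 84) (nat_lit 1) (nat_lit 2) (nat_lit 2) true (nat_lit 10) true (nat_lit 13) false (nat_lit 4) true (nat_lit 14) true (nat_lit 13) (.s true (nat_lit 3) (nat_lit 87) (nat_lit 1) (nat_lit 2) (nat_lit 2) true (nat_lit 10) true (nat_lit 13) false (nat_lit 4) true (nat_lit 14) true (nat_lit 13) (.s false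 (nat_lit 3) (nat_lit 90) (nat_lit 1) (nat_lit 2) (nat_lit 2) true (nat_lit 10) true (nat_lit 13) false (nat_lit 4) true (nat_lit 14) true (nat_lit 13) (.s true (nat_lit 3) (nat_lit 82) (nat_lit 2) (nat_lit 1) (nat_lit 2) true (nat_lit 9) true (nat_lit 13) false (nat_lit 4) true (nat_lit 13) true (nat_lit 14) (.s false (nat_lit 2) (nat_lit 83) (nat_lit 2) (nat_lit 1) (nat_lit 2) true (nat_lit 9) true (nat_lit 13) false (nat_lit 4) true (nat_lit 13) true (nat_lit 14) (.s false (nat_lit 3) (nat_lit 90) (nat_lit 2) (nat_lit 1) (nat_lit 2) true (nat_lit 9) true (nat_lit 13) false (nat_lit 4) true (nat_lit 13) true (nat_lit 14) dC1d_i460)))))))))))))))))))))))))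

noncomputable def dC1d_i462 : IL := (.s true (nat_lit 3) (nat_lit 18) (nat_lit 1) (nat_lit 6) (nat_lit 3) true (nat_lit 8) true (nat_lit 12) true (nat_lit 3) true (nat_lit 14) true (nat_lit 9) (.s false (nat_lit 3) (nat_lit 18) (nat_lit 1) (nat_lit 14) (nat_lit 1) false (nat_lit 16) true (nat_lit 14) true (nat_lit 3) true (nat_lit 14) true (nat_lit 5) (.s false (nat_lit 3) (nat_lit 18) (nat_lit 2) (nat_lit 1) (nat_lit 11) true (nat_lit 1) true (nat_lit 7) true (nat_lit 3) true (nat_lit 13) true (nat_lit 14) (.s false (nat_lit 3) (nat_lit 18) (nat_lit 2) (nat_lit 1) (nat_lit 12) true (nat_lit 1) true (nat_lit 7) true (nat_lit 3) true (nat_lit 13) true (nat_lit 14) (.s false (nat_lit 2) (nat_lit 18) (nat_lit 2) (nat_lit 2) (nat_lit 8) true (nat_lit 2) true (nat_lit 8) true (nat_lit 3) true (nat_lit 13) true (nat_lit 13) (.s false (nat_lit 3) (nat_lit 18) (nat_lit 2) (nat_lit 3) (nat_lit 5) true (nat_lit 4) true (nat_lit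 10) true (nat_lit 3) true (nat_lit 13) true (nat_lit 12) (.s true (nat_lit 1) (nat_lit 18) (nat_lit 2) (nat_lit 11) (nat_lit 1) true (nat_lit 10) true (nat_lit 14) true (nat_lit 3) true (nat_lit 13) true (nat_lit 7) (.s true (nat_lit 2) (nat_lit 18) (nat_lit 2) (nat_lit 12) (nat_lit 1) true (nat_lit 10) true (nat_lit 14) true (nat_lit 3) true (nat_lit 13) true (nat_lit 7) (.s true (nat_lit 1) (nat_lit 18) (nat_lit 14) (nat_lit 1) (nat_lit 1) true (nat_lit 1) true (nat_lit 14) true (nat_lit 3) true (nat_lit 5) true (nat_lit 14) (.s false (nat_lit 3) (nat_lit 24) (nat_lit 2) (nat_lit 2) (nat_lit 6) true (nat_lit 3) true (nat_lit 9) true (nat_lit 2) true (nat_lit 13) true (nat_lit 13) (.s false (nat_lit 1) (nat_lit 25) (nat_lit 2) (nat_lit 2) (nat_lit 6) true (nat_lit 3) true (nat_lit 9) true (nat_lit 2) true (nat_lit 13) true (nat_lit 13) (.s false (nat_lit 3) (nat_lit 26) (nat_lit 2) (nat_lit 2) (nat_lit 6) true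 (nat_lit 3) true (nat_lit 9) true (nat_lit 2) true (nat_lit 13) true (nat_lit 13) (.s false (nat_lit 3) (nat_lit 27) (nat_lit 2) (nat_lit 2) (nat_lit 6) true (nat_lit 3) true (nat_lit 9) true (nat_lit 2) true (nat_lit 13) true (nat_lit 13) (.s true (nat_lit 2) (nat_lit 26) (nat_lit 2) (nat_lit 6) (nat_lit 2) true (nat_lit 9) true (nat_lit 13) true (nat_lit 2) true (nat_lit 13) true (nat_lit 9) (.s true (nat_lit 3) (nat_lit 25) (nat_lit 6) (nat_lit 2) (nat_lit 2) true (nat_lit 3) true (nat_lit 13) true (nat_lit 2) true (nat_lit 9) true (nat_lit 13) (.s true (nat_lit 3) (nat_lit 31) (nat_lit 1) (nat_lit 2) (nat_lit 6) true (nat_lit 4) true (nat_lit 9) true (nat_lit 1) true (nat_lit 14) true (nat_lit 13) (.s false (nat_lit 3) (nat_lit 32) (nat_lit 1) (nat_lit 2) (nat_lit 6) true (nat_lit 4) true (nat_lit 9) true (nat_lit 1) true (nat_lit 14) true (nat_lit 13) (.s true (nat_lit 1) (nat_lit 33) (nat_lit 1) (nat_lit 2)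 (nat_lit 6) true (nat_lit 4) true (nat_lit 9) true (nat_lit 1) true (nat_lit 14) true (nat_lit 13) (.s true (nat_lit 1) (nat_lit 32) (nat_lit 1) (nat_lit 6) (nat_lit 2) true (nat_lit 10) true (nat_lit 13) true (nat_lit 1) true (nat_lit 14) true (nat_lit 9) (.s true (nat_lit 2) (nat_lit 34) (nat_lit 1) (nat_lit 6) (nat_lit 2) true (nat_lit 10) true (nat_lit 13) true (nat_lit 1) true (nat_lit 14) true (nat_lit 9) (.s true (nat_lit 2) (nat_lit 31) (nat_lit 2) (nat_lit 2) (nat_lit 5) true (nat_lit 4) true (nat_lit 10) true (nat_lit 1) true (nat_lit 13) true (nat_lit 13) (.s true (nat_lit 3) (nat_lit 32) (nat_lit 2) (nat_lit 2) (nat_lit 5) true (nat_lit 4) true (nat_lit 10) true (nat_lit 1) true (nat_lit 13) true (nat_lit 13) (.s false (nat_lit 3) (nat_lit 34) (nat_lit 2) (nat_lit 2) (nat_lit 5) true (nat_lit 4) true (nat_lit 10) true (nat_lit 1) true (nat_lit 13) true (nat_lit 13) (.s false (nat_lit 3) (nat_lit 32)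 (nat_lit 2) (nat_lit 5) (nat_lit 2) true (nat_lit 9) true (nat_lit 13) true (nat_lit 1) true (nat_lit 13) true (nat_lit 10) (.s false (nat_lit 2) (nat_lit 33) (nat_lit 2) (nat_lit 6) (nat_lit 1) true (nat_lit 10) true (nat_lit 14) true (nat_lit 1) true (nat_lit 13) true (nat_lit 9) dC1d_i461)))))))))))))))))))))))))

noncomputable def dC1d_i463 : IL := (.e false (nat_lit 3) (nat_lit 225) (nat_lit 2) (nat_lit 17) (.e true (nat_lit 2) (nat_lit 278) (nat_lit 1) (nat_lit 18) (.e true (nat_lit 2) (nat_lit 260) (nat_lit 1) (nat_lit 18) (.e false (nat_lit 1) (nat_lit 262) (nat_lit 1) (nat_lit 18) (.e false (nat_lit 3) (nat_lit 263) (nat_lit 1) (nat_lit 18) (.e true (nat_lit 2) (nat_lit 266) (nat_lit 1) (nat_lit 18) (.e true (nat_lit 2) (nat_lit 271) (nat_lit 1) (nat_lit 18) (.e true (nat_lit 1) (nat_lit 272) (nat_lit 1) (nat_lit 18) (.e true (nat_lit 2) (nat_lit 277) (nat_lit 1) (nat_lit 18) (.e false (nat_lit 3) (nat_lit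 279) (nat_lit 1) (nat_lit 18) (.e false (nat_lit 3) (nat_lit 288) (nat_lit 1) (nat_lit 18) (.e true (nat_lit 3) (nat_lit 265) (nat_lit 1) (nat_lit 18) (.e false (nat_lit 3) (nat_lit 286) (nat_lit 1) (nat_lit 18) (.e false (nat_lit 1) (nat_lit 160) (nat_lit 4) (nat_lit 15) (.e true (nat_lit 3) (nat_lit 313) (nat_lit 0) (nat_lit 19) (.e true (nat_lit 1) (nat_lit 136) (nat_lit 5) (nat_lit 14) (.e false (nat_lit 1) (nat_lit 261) (nat_lit 1) (nat_lit 18) (.e false (nat_lit 1) (nat_lit 264) (nat_lit 1) (nat_lit 18) (.e false (nat_lit 2) (nat_lit 270) (nat_lit 1) (nat_lit 18) (.e false (nat_lit 3) (nat_lit 143) (nat_lit 5) (nat_lit 14) (.e false (nat_lit 2) (nat_lit 144) (nat_lit 5) (nat_lit 14) (.e true (nat_lit 2) (nat_lit 274) (nat_lit 1) (nat_lit 18) (.u (nat_lit 2) (.n (nat_lit 0) (nat_lit 3) (.n (nat_lit 1) (nat_lit 3) (.p (nat_lit 2) (nat_lit 3) (.p (nat_lit 3) (nat_lit 2) (.p (nat_lit 4) (nat_lit 2) (.p (nat_lit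 5) (nat_lit 3) (.n (nat_lit 6) (nat_lit 2) (.p (nat_lit 7) (nat_lit 2) (.p (nat_lit 8) (nat_lit 1) (.n (nat_lit 9) (nat_lit 1) (.n (nat_lit 10) (nat_lit 2) (.p (nat_lit 11) (nat_lit 2) (.n (nat_lit 12) (nat_lit 1) (.n (nat_lit 13) (nat_lit 2) (.n (nat_lit 14) (nat_lit 5) (.p (nat_lit 15) (nat_lit 4) (.p (nat_lit 17) (nat_lit 2) (.n (nat_lit 18) (nat_lit 1) (.p (nat_lit 19) (nat_lit 1) (.p (nat_lit 20) (nat_lit 6) (.n (nat_lit 23) (nat_lit 1) (.n (nat_lit 24) (nat_lit 1) (.p (nat_lit 26) (nat_lit 4) (.n (nat_lit 27) (nat_lit 1) (.p (nat_lit 29) (nat_lit 3) (.p (nat_lit 30) (nat_lit 6) (.n (nat_lit 31) (nat_lit 2) (.p (nat_lit 32) (nat_lit 7) (.n (nat_lit 33) (nat_lit 2) (.n (nat_lit 34) (nat_lit 1) (.p (nat_lit 35) (nat_lit 7) (.n (nat_lit 37) (nat_lit 1) (.n (nat_lit 38) (nat_lit 2) (.n (nat_lit 39) (nat_lit 1) (.p (nat_lit 40) (nat_lit 2) (.n (nat_lit 41) (nat_lit 3) (.p (nat_lit 45) (nat_lit 1) (.n (nat_lit 50)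 (nat_lit 1) (.n (nat_lit 51) (nat_lit 1) (.p (nat_lit 53) (nat_lit 2) (.n (nat_lit 54) (nat_lit 4) (.p (nat_lit 55) (nat_lit 1) (.p (nat_lit 56) (nat_lit 1) (.n (nat_lit 57) (nat_lit 1) (.p (nat_lit 58) (nat_lit 1) (.n (nat_lit 59) (nat_lit 2) (.p (nat_lit 63) (nat_lit 1) (.n (nat_lit 68) (nat_lit 1) (.n (nat_lit 244) (nat_lit 1) (.n (nat_lit 249) (nat_lit 1) (.p (nat_lit 251) (nat_lit 1) (.p (nat_lit 263) (nat_lit 1) (.p (nat_lit 266) (nat_lit 1) (.p (nat_lit 307) (nat_lit 1) (.n (nat_lit 327) (nat_lit 6) (.p (nat_lit 328) (nat_lit 7) (.n (nat_lit 329) (nat_lit 3) (.p (nat_lit 330) (nat_lit 27) (.n (nat_lit 331) (nat_lit 17) (.n (nat_lit 332) (nat_lit 2) .z)))))))))))))))))))))))))))))))))))))))))))))))))))))))))))) (.u (nat_lit 2) (.n (nat_lit 333) (nat_lit 4) (.n (nat_lit 334) (nat_lit 7) (.n (nat_lit 335) (nat_lit 8) (.n (nat_lit 337) (nat_lit 9) (.p (nat_lit 338) (nat_lit 11) (.p (nat_lit 339) (nat_lit 3) (.p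 (nat_lit 340) (nat_lit 15) (.p (nat_lit 341) (nat_lit 5) (.p (nat_lit 342) (nat_lit 8) (.p (nat_lit 343) (nat_lit 7) (.n (nat_lit 344) (nat_lit 3) (.p (nat_lit 345) (nat_lit 13) (.n (nat_lit 346) (nat_lit 5) (.p (nat_lit 347) (nat_lit 13) (.p (nat_lit 348) (nat_lit 3) (.p (nat_lit 349) (nat_lit 2) (.n (nat_lit 350) (nat_lit 3) (.p (nat_lit 351) (nat_lit 15) (.p (nat_lit 352) (nat_lit 4) (.p (nat_lit 353) (nat_lit 11) (.p (nat_lit 354) (nat_lit 11) (.p (nat_lit 355) (nat_lit 6) (.p (nat_lit 356) (nat_lit 7) (.p (nat_lit 357) (nat_lit 1) (.n (nat_lit 358) (nat_lit 6) (.p (nat_lit 359) (nat_lit 7) (.p (nat_lit 360) (nat_lit 7) (.n (nat_lit 361) (nat_lit 17) (.p (nat_lit 362) (nat_lit 6) (.n (nat_lit 363) (nat_lit 14) (.n (nat_lit 364) (nat_lit 3) (.p (nat_lit 366) (nat_lit 4) (.p (nat_lit 368) (nat_lit 4) (.p (nat_lit 370) (nat_lit 2) (.p (nat_lit 371) (nat_lit 1) (.n (nat_lit 372) (nat_lit 2) (.n (nat_lit 373) (nat_lit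 6) (.p (nat_lit 374) (nat_lit 2) (.p (nat_lit 375) (nat_lit 3) (.n (nat_lit 376) (nat_lit 1) (.n (nat_lit 378) (nat_lit 2) (.n (nat_lit 379) (nat_lit 3) (.n (nat_lit 380) (nat_lit 6) (.n (nat_lit 381) (nat_lit 8) (.n (nat_lit 382) (nat_lit 6) (.p (nat_lit 384) (nat_lit 8) (.p (nat_lit 385) (nat_lit 3) (.n (nat_lit 387) (nat_lit 6) (.p (nat_lit 388) (nat_lit 6) (.n (nat_lit 389) (nat_lit 5) (.p (nat_lit 392) (nat_lit 5) (.p (nat_lit 393) (nat_lit 3) (.p (nat_lit 394) (nat_lit 7) (.p (nat_lit 395) (nat_lit 3) (.p (nat_lit 396) (nat_lit 1) (.n (nat_lit 397) (nat_lit 2) (.p (nat_lit 398) (nat_lit 2) (.n (nat_lit 399) (nat_lit 1) (.n (nat_lit 400) (nat_lit 1) (.n (nat_lit 401) (nat_lit 5) .z)))))))))))))))))))))))))))))))))))))))))))))))))))))))))))) (.u (nat_lit 2) (.n (nat_lit 402) (nat_lit 5) (.n (nat_lit 403) (nat_lit 3) (.n (nat_lit 405) (nat_lit 4) (.p (nat_lit 406) (nat_lit 3) (.n (nat_lit 407) (nat_lit 3) (.n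 (nat_lit 408) (nat_lit 8) (.n (nat_lit 409) (nat_lit 2) (.n (nat_lit 410) (nat_lit 7) (.n (nat_lit 411) (nat_lit 4) (.p (nat_lit 412) (nat_lit 3) (.p (nat_lit 413) (nat_lit 2) (.p (nat_lit 414) (nat_lit 1) (.p (nat_lit 415) (nat_lit 2) (.n (nat_lit 416) (nat_lit 5) (.p (nat_lit 417) (nat_lit 3) (.n (nat_lit 418) (nat_lit 1) (.p (nat_lit 419) (nat_lit 7) (.n (nat_lit 420) (nat_lit 4) (.n (nat_lit 421) (nat_lit 1) (.n (nat_lit 422) (nat_lit 1) (.p (nat_lit 423) (nat_lit 1) (.n (nat_lit 425) (nat_lit 2) (.n (nat_lit 426) (nat_lit 2) (.p (nat_lit 427) (nat_lit 1) (.n (nat_lit 428) (nat_lit 2) (.n (nat_lit 429) (nat_lit 2) (.n (nat_lit 430) (nat_lit 2) (.p (nat_lit 431) (nat_lit 1) (.p (nat_lit 432) (nat_lit 3) (.p (nat_lit 433) (nat_lit 3) (.p (nat_lit 434) (nat_lit 2) .z))))))))))))))))))))))))))))))) .nil)))))))))))))))))))))))))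

noncomputable def dC1d_i464 : IL := (.e false (nat_lit 1) (nat_lit 235) (nat_lit 2) (nat_lit 17) (.e false (nat_lit 1) (nat_lit 258) (nat_lit 2) (nat_lit 17) (.e false (nat_lit 2) (nat_lit 259) (nat_lit 2) (nat_lit 17) (.e true (nat_lit 2) (nat_lit 97) (nat_lit 9) (nat_lit 10) (.e false (nat_lit 2) (nat_lit 78) (nat_lit 13) (nat_lit 8) (.e true (nat_lit 3) (nat_lit 293) (nat_lit 0) (nat_lit 19) (.e false (nat_lit 3) (nat_lit 295) (nat_lit 0) (nat_lit 19) (.e true (nat_lit 1) (nat_lit 296) (nat_lit 0) (nat_lit 19) (.e false (nat_lit 3) (nat_lit 297) (nat_lit 0) (nat_lit 19) (.e false (nat_lit 1) (nat_lit 298) (nat_lit 0) (nat_lit 19) (.e false (nat_lit 2) (nat_lit 299) (nat_lit 0) (nat_lit 19) (.e true (nat_lit 2) (nat_lit 300) (nat_lit 0) (nat_lit 19) (.e true (nat_lit 2) (nat_lit 301) (nat_lit 0) (nat_lit 19) (.e true (nat_lit 2) (nat_lit 302) (nat_lit 0) (nat_lit 19) (.e true (nat_lit 2) (nat_lit 304) (nat_lit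 0) (nat_lit 19) (.e true (nat_lit 3) (nat_lit 305) (nat_lit 0) (nat_lit 19) (.e false (nat_lit 3) (nat_lit 308) (nat_lit 0) (nat_lit 19) (.e false (nat_lit 1) (nat_lit 309) (nat_lit 0) (nat_lit 19) (.e false (nat_lit 3) (nat_lit 310) (nat_lit 0) (nat_lit 19) (.e false (nat_lit 2) (nat_lit 314) (nat_lit 0) (nat_lit 19) (.e false (nat_lit 1) (nat_lit 315) (nat_lit 0) (nat_lit 19) (.e true (nat_lit 3) (nat_lit 316) (nat_lit 0) (nat_lit 19) (.e true (nat_lit 3) (nat_lit 317) (nat_lit 0) (nat_lit 19) (.e true (nat_lit 1) (nat_lit 233) (nat_lit 2) (nat_lit 17) (.e false (nat_lit 1) (nat_lit 294) (nat_lit 0) (nat_lit 19) dC1d_i463)))))))))))))))))))))))))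

noncomputable def dC1d_i465 : IL := (.e true (nat_lit 2) (nat_lit 215) (nat_lit 2) (nat_lit 17) (.e false (nat_lit 2) (nat_lit 216) (nat_lit 2) (nat_lit 17) (.e true (nat_lit 2) (nat_lit 217) (nat_lit 2) (nat_lit 17) (.e true (nat_lit 1) (nat_lit 218) (nat_lit 2) (nat_lit 17) (.e false (nat_lit 1) (nat_lit 219) (nat_lit 2) (nat_lit 17) (.e true (nat_lit 2) (nat_lit 222) (nat_lit 2) (nat_lit 17) (.e true (nat_lit 1) (nat_lit 223) (nat_lit 2) (nat_lit 17) (.e false (nat_lit 3) (nat_lit 224) (nat_lit 2) (nat_lit 17) (.e false (nat_lit 1) (nat_lit 226) (nat_lit 2) (nat_lit 17) (.e true (nat_lit 3) (nat_lit 227) (nat_lit 2) (nat_lit 17) (.e false (nat_lit 1) (nat_lit 229) (nat_lit 2) (nat_lit 17) (.e true (nat_lit 2) (nat_lit 230) (nat_lit 2) (nat_lit 17) (.e false (nat_lit 3) (nat_lit 231) (nat_lit 2) (nat_lit 17) (.e false (nat_lit 3) (nat_lit 232) (nat_lit 2) (nat_lit 17) (.e false (nat_lit 2) (nat_lit 236) (nat_lit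 2) (nat_lit 17) (.e true (nat_lit 2) (nat_lit 237) (nat_lit 2) (nat_lit 17) (.e true (nat_lit 2) (nat_lit 242) (nat_lit 2) (nat_lit 17) (.e false (nat_lit 3) (nat_lit 244) (nat_lit 2) (nat_lit 17) (.e true (nat_lit 3) (nat_lit 245) (nat_lit 2) (nat_lit 17) (.e false (nat_lit 3) (nat_lit 248) (nat_lit 2) (nat_lit 17) (.e false (nat_lit 1) (nat_lit 307) (nat_lit 0) (nat_lit 19) (.e true (nat_lit 3) (nat_lit 228) (nat_lit 2) (nat_lit 17) (.e true (nat_lit 2) (nat_lit 256) (nat_lit 2) (nat_lit 17) (.e true (nat_lit 3) (nat_lit 213) (nat_lit 2) (nat_lit 17) (.e false (nat_lit 2) (nat_lit 234) (nat_lit 2) (nat_lit 17) dC1d_i464)))))))))))))))))))))))))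

noncomputable def dC1d_i466 : IL := (.s false (nat_lit 3) (nat_lit 52) (nat_lit 2) (nat_lit 2) (nat_lit 2) true (nat_lit 13) true (nat_lit 17) false (nat_lit 5) true (nat_lit 17) true (nat_lit 17) (.s false (nat_lit 1) (nat_lit 56) (nat_lit 1) (nat_lit 2) (nat_lit 2) true (nat_lit 14) true (nat_lit 17) false (nat_lit 6) true (nat_lit 18) true (nat_lit 17) (.s true (nat_lit 1) (nat_lit 59) (nat_lit 1) (nat_lit 2) (nat_lit 2) true (nat_lit 14) true (nat_lit 17) false (nat_lit 6) true (nat_lit 18) true (nat_lit 17) (.s false (nat_lit 1) (nat_lit 56) (nat_lit 2) (nat_lit 1) (nat_lit 2) true (nat_lit 13) true (nat_lit 17) false (nat_lit 6) true (nat_lit 17) true (nat_lit 18) (.s true (nat_lit 1) (nat_lit 59) (nat_lit 2) (nat_lit 1) (nat_lit 2) true (nat_lit 13) true (nat_lit 17) false (nat_lit 6) true (nat_lit 17) true (nat_lit 18) (.s true (nat_lit 1) (nat_lit 56) (nat_lit 2) (nat_lit 2) (nat_lit 1) true (nat_lit 14)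 true (nat_lit 18) false (nat_lit 6) true (nat_lit 17) true (nat_lit 17) (.s false (nat_lit 1) (nat_lit 73) (nat_lit 0) (nat_lit 2) (nat_lit 2) true (nat_lit 15) true (nat_lit 17) false (nat_lit 7) true (nat_lit 19) true (nat_lit 17) (.s false (nat_lit 2) (nat_lit 74) (nat_lit 0) (nat_lit 2) (nat_lit 2) true (nat_lit 15) true (nat_lit 17) false (nat_lit 7) true (nat_lit 19) true (nat_lit 17) (.s true (nat_lit 3) (nat_lit 74) (nat_lit 2) (nat_lit 0) (nat_lit 2) true (nat_lit 13) true (nat_lit 17) false (nat_lit 7) true (nat_lit 17) true (nat_lit 19) (.s true (nat_lit 3) (nat_lit 66) (nat_lit 2) (nat_lit 2) (nat_lit 0) true (nat_lit 15) true (nat_lit 19) false (nat_lit 7) true (nat_lit 17) true (nat_lit 17) (.s true (nat_lit 1) (nat_lit 73) (nat_lit 2) (nat_lit 2) (nat_lit 0) true (nat_lit 15) true (nat_lit 19) false (nat_lit 7) true (nat_lit 17) true (nat_lit 17) (.s false (nat_lit 3) (nat_lit 74) (nat_lit 2) (nat_lit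 2) (nat_lit 0) true (nat_lit 15) true (nat_lit 19) false (nat_lit 7) true (nat_lit 17) true (nat_lit 17) (.s false (nat_lit 3) (nat_lit 77) (nat_lit 1) (nat_lit 1) (nat_lit 2) true (nat_lit 14) true (nat_lit 17) false (nat_lit 8) true (nat_lit 18) true (nat_lit 18) (.s false (nat_lit 2) (nat_lit 78) (nat_lit 1) (nat_lit 1) (nat_lit 2) true (nat_lit 14) true (nat_lit 17) false (nat_lit 8) true (nat_lit 18) true (nat_lit 18) (.s false (nat_lit 2) (nat_lit 80) (nat_lit 1) (nat_lit 1) (nat_lit 2) true (nat_lit 14) true (nat_lit 17) false (nat_lit 8) true (nat_lit 18) true (nat_lit 18) (.s false (nat_lit 1) (nat_lit 81) (nat_lit 1) (nat_lit 2) (nat_lit 1) false (nat_lit 21) true (nat_lit 18) false (nat_lit 8) true (nat_lit 18) true (nat_lit 17) (.s false (nat_lit 2) (nat_lit 80) (nat_lit 2) (nat_lit 1) (nat_lit 1) true (nat_lit 14) true (nat_lit 18) false (nat_lit 8) true (nat_lit 17) true (nat_lit 18) (.s true (nat_lit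 2) (nat_lit 93) (nat_lit 0) (nat_lit 2) (nat_lit 0) false (nat_lit 20) true (nat_lit 19) false (nat_lit 10) true (nat_lit 19) true (nat_lit 17) (.s true (nat_lit 1) (nat_lit 95) (nat_lit 0) (nat_lit 2) (nat_lit 0) false (nat_lit 20) true (nat_lit 19) false (nat_lit 10) true (nat_lit 19) true (nat_lit 17) (.s true (nat_lit 3) (nat_lit 98) (nat_lit 0) (nat_lit 1) (nat_lit 1) true (nat_lit 16) true (nat_lit 18) false (nat_lit 11) true (nat_lit 19) true (nat_lit 18) (.s false (nat_lit 2) (nat_lit 99) (nat_lit 1) (nat_lit 0) (nat_lit 1) false (nat_lit 21) true (nat_lit 18) false (nat_lit 11) true (nat_lit 18) true (nat_lit 19) (.s true (nat_lit 1) (nat_lit 100) (nat_lit 1) (nat_lit 0) (nat_lit 1) false (nat_lit 21) true (nat_lit 18) false (nat_lit 11) true (nat_lit 18) true (nat_lit 19) (.s true (nat_lit 3) (nat_lit 98) (nat_lit 1) (nat_lit 1) (nat_lit 0) true (nat_lit 16) true (nat_lit 19) false (nat_lit 11) true (nat_lit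 18) true (nat_lit 18) (.e false (nat_lit 1) (nat_lit 212) (nat_lit 2) (nat_lit 17) (.e true (nat_lit 3) (nat_lit 214) (nat_lit 2) (nat_lit 17) dC1d_i465)))))))))))))))))))))))))

noncomputable def dC1d_i467 : IL := (.e true (nat_lit 3) (nat_lit 307) (nat_lit 2) (nat_lit 13) (.e false (nat_lit 1) (nat_lit 340) (nat_lit 1) (nat_lit 14) (.e false (nat_lit 1) (nat_lit 328) (nat_lit 1) (nat_lit 14) (.e false (nat_lit 3) (nat_lit 331) (nat_lit 1) (nat_lit 14) (.e true (nat_lit 1) (nat_lit 332) (nat_lit 1) (nat_lit 14) (.e false (nat_lit 1) (nat_lit 333) (nat_lit 1) (nat_lit 14) (.e true (nat_lit 2) (nat_lit 334) (nat_lit 1) (nat_lit 14) (.e true (nat_lit 3) (nat_lit 339) (nat_lit 1) (nat_lit 14) (.e true (nat_lit 2) (nat_lit 335) (nat_lit 1) (nat_lit 14) (.e false (nat_lit 3) (nat_lit 337) (nat_lit 1) (nat_lit 14) (.e true (nat_lit 3) (nat_lit 98) (nat_lit 13) (nat_lit 6) (.e false (nat_lit 2) (nat_lit 292) (nat_lit 2)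 (nat_lit 13) (.e true (nat_lit 1) (nat_lit 316) (nat_lit 2) (nat_lit 13) (.e true (nat_lit 1) (nat_lit 329) (nat_lit 1) (nat_lit 14) (.e false (nat_lit 2) (nat_lit 330) (nat_lit 1) (nat_lit 14) (.e false (nat_lit 3) (nat_lit 342) (nat_lit 1) (nat_lit 14) (.e true (nat_lit 1) (nat_lit 74) (nat_lit 18) (nat_lit 3) (.e false (nat_lit 1) (nat_lit 347) (nat_lit 0) (nat_lit 15) (.e true (nat_lit 3) (nat_lit 348) (nat_lit 0) (nat_lit 15) (.e true (nat_lit 2) (nat_lit 349) (nat_lit 0) (nat_lit 15) (.e true (nat_lit 2) (nat_lit 350) (nat_lit 0) (nat_lit 15) (.e false (nat_lit 2) (nat_lit 351) (nat_lit 0) (nat_lit 15) (.e false (nat_lit 3) (nat_lit 352) (nat_lit 0) (nat_lit 15) (.u (nat_lit 2) (.n (nat_lit 29) (nat_lit 1) (.p (nat_lit 42) (nat_lit 1) (.n (nat_lit 53) (nat_lit 1) (.n (nat_lit 60) (nat_lit 1) (.n (nat_lit 65) (nat_lit 1) (.p (nat_lit 67) (nat_lit 1) (.n (nat_lit 68) (nat_lit 1) (.p (nat_lit 69) (nat_lit 1)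 (.p (nat_lit 77) (nat_lit 1) (.n (nat_lit 87) (nat_lit 1) (.n (nat_lit 88) (nat_lit 2) (.n (nat_lit 89) (nat_lit 1) (.n (nat_lit 90) (nat_lit 1) (.p (nat_lit 91) (nat_lit 2) (.n (nat_lit 92) (nat_lit 1) (.p (nat_lit 94) (nat_lit 1) (.p (nat_lit 96) (nat_lit 1) (.p (nat_lit 107) (nat_lit 1) (.n (nat_lit 113) (nat_lit 1) (.n (nat_lit 114) (nat_lit 1) (.p (nat_lit 115) (nat_lit 1) (.p (nat_lit 125) (nat_lit 1) (.p (nat_lit 126) (nat_lit 4) (.n (nat_lit 127) (nat_lit 1) (.p (nat_lit 128) (nat_lit 4) (.n (nat_lit 129) (nat_lit 1) (.n (nat_lit 130) (nat_lit 1) (.n (nat_lit 131) (nat_lit 1) (.p (nat_lit 133) (nat_lit 3) (.n (nat_lit 134) (nat_lit 2) (.n (nat_lit 135) (nat_lit 3) (.n (nat_lit 138) (nat_lit 1) (.n (nat_lit 139) (nat_lit 2) (.p (nat_lit 140) (nat_lit 1) (.n (nat_lit 142) (nat_lit 1) (.p (nat_lit 143) (nat_lit 1) (.p (nat_lit 144) (nat_lit 2) (.p (nat_lit 145) (nat_lit 3) (.p (nat_lit 146) (nat_lit 6) (.p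 (nat_lit 147) (nat_lit 7) (.p (nat_lit 149) (nat_lit 2) (.p (nat_lit 151) (nat_lit 6) (.p (nat_lit 152) (nat_lit 1) (.p (nat_lit 154) (nat_lit 1) (.n (nat_lit 155) (nat_lit 1) (.p (nat_lit 157) (nat_lit 1) (.p (nat_lit 161) (nat_lit 1) (.p (nat_lit 162) (nat_lit 1) (.n (nat_lit 163) (nat_lit 2) (.n (nat_lit 164) (nat_lit 2) (.p (nat_lit 165) (nat_lit 3) (.p (nat_lit 167) (nat_lit 1) (.p (nat_lit 169) (nat_lit 2) (.p (nat_lit 170) (nat_lit 3) (.n (nat_lit 173) (nat_lit 5) (.p (nat_lit 174) (nat_lit 7) (.n (nat_lit 175) (nat_lit 6) (.n (nat_lit 176) (nat_lit 9) (.p (nat_lit 177) (nat_lit 3) (.n (nat_lit 178) (nat_lit 11) .z)))))))))))))))))))))))))))))))))))))))))))))))))))))))))))) (.u (nat_lit 2) (.n (nat_lit 179) (nat_lit 4) (.p (nat_lit 180) (nat_lit 6) (.p (nat_lit 181) (nat_lit 8) (.n (nat_lit 182) (nat_lit 3) (.n (nat_lit 183) (nat_lit 5) (.p (nat_lit 184) (nat_lit 3) (.p (nat_lit 185) (nat_lit 8) (.p (nat_lit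 186) (nat_lit 3) (.n (nat_lit 188) (nat_lit 4) (.p (nat_lit 189) (nat_lit 1) (.p (nat_lit 190) (nat_lit 5) (.n (nat_lit 191) (nat_lit 1) (.n (nat_lit 192) (nat_lit 1) (.n (nat_lit 193) (nat_lit 4) (.p (nat_lit 194) (nat_lit 5) (.p (nat_lit 195) (nat_lit 7) (.p (nat_lit 196) (nat_lit 1) (.p (nat_lit 198) (nat_lit 1) (.n (nat_lit 199) (nat_lit 4) (.p (nat_lit 200) (nat_lit 2) (.n (nat_lit 201) (nat_lit 6) (.n (nat_lit 202) (nat_lit 7) (.n (nat_lit 203) (nat_lit 10) (.n (nat_lit 204) (nat_lit 3) (.n (nat_lit 205) (nat_lit 12) (.n (nat_lit 206) (nat_lit 2) (.p (nat_lit 207) (nat_lit 6) (.p (nat_lit 209) (nat_lit 5) (.p (nat_lit 210) (nat_lit 13) (.n (nat_lit 211) (nat_lit 5) (.n (nat_lit 212) (nat_lit 19) (.p (nat_lit 213) (nat_lit 8) (.n (nat_lit 214) (nat_lit 1) (.n (nat_lit 215) (nat_lit 1) (.n (nat_lit 216) (nat_lit 1) (.n (nat_lit 218) (nat_lit 1) (.p (nat_lit 219) (nat_lit 1) (.n (nat_lit 220) (nat_lit 2) (.n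 (nat_lit 221) (nat_lit 1) (.p (nat_lit 222) (nat_lit 1) (.n (nat_lit 223) (nat_lit 4) (.n (nat_lit 225) (nat_lit 1) (.n (nat_lit 226) (nat_lit 2) (.n (nat_lit 227) (nat_lit 3) (.n (nat_lit 228) (nat_lit 1) .z))))))))))))))))))))))))))))))))))))))))))))) .nil)))))))))))))))))))))))))

noncomputable def dC1d_i468 : IL := (.s true (nat_lit 1) (nat_lit 85) (nat_lit 2) (nat_lit 1) (nat_lit 2) true (nat_lit 9) true (nat_lit 13) false (nat_lit 4) true (nat_lit 13) true (nat_lit 14) (.s true (nat_lit 1) (nat_lit 90) (nat_lit 2) (nat_lit 1) (nat_lit 2) true (nat_lit 9) true (nat_lit 13) false (nat_lit 4) true (nat_lit 13) true (nat_lit 14) (.s true (nat_lit 2) (nat_lit 91) (nat_lit 2) (nat_lit 1) (nat_lit 2) true (nat_lit 9) true (nat_lit 13) false (nat_lit 4) true (nat_lit 13) true (nat_lit 14) (.s false (nat_lit 1) (nat_lit 82) (nat_lit 2) (nat_lit 2) (nat_lit 1) true (nat_lit 10) true (nat_lit 14) false (nat_lit 4) true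 (nat_lit 13) true (nat_lit 13) (.s false (nat_lit 3) (nat_lit 83) (nat_lit 2) (nat_lit 2) (nat_lit 1) true (nat_lit 10) true (nat_lit 14) false (nat_lit 4) true (nat_lit 13) true (nat_lit 13) (.s true (nat_lit 3) (nat_lit 86) (nat_lit 2) (nat_lit 2) (nat_lit 1) true (nat_lit 10) true (nat_lit 14) false (nat_lit 4) true (nat_lit 13) true (nat_lit 13) (.s false (nat_lit 1) (nat_lit 87) (nat_lit 2) (nat_lit 2) (nat_lit 1) true (nat_lit 10) true (nat_lit 14) false (nat_lit 4) true (nat_lit 13) true (nat_lit 13) (.s true (nat_lit 2) (nat_lit 88) (nat_lit 2) (nat_lit 2) (nat_lit 1) true (nat_lit 10) true (nat_lit 14) false (nat_lit 4) true (nat_lit 13) true (nat_lit 13) (.s true (nat_lit 2) (nat_lit 89) (nat_lit 2) (nat_lit 2) (nat_lit 1) true (nat_lit 10) true (nat_lit 14) false (nat_lit 4) true (nat_lit 13) true (nat_lit 13) (.s false (nat_lit 3) (nat_lit 92) (nat_lit 2) (nat_lit 2) (nat_lit 1) true (nat_lit 10) true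 (nat_lit 14) false (nat_lit 4) true (nat_lit 13) true (nat_lit 13) (.s true (nat_lit 2) (nat_lit 93) (nat_lit 0) (nat_lit 2) (nat_lit 2) true (nat_lit 11) true (nat_lit 13) false (nat_lit 5) true (nat_lit 15) true (nat_lit 13) (.s false (nat_lit 1) (nat_lit 95) (nat_lit 0) (nat_lit 2) (nat_lit 2) true (nat_lit 11) true (nat_lit 13) false (nat_lit 5) true (nat_lit 15) true (nat_lit 13) (.s false (nat_lit 2) (nat_lit 96) (nat_lit 0) (nat_lit 2) (nat_lit 2) true (nat_lit 11) true (nat_lit 13) false (nat_lit 5) true (nat_lit 15) true (nat_lit 13) (.s true (nat_lit 1) (nat_lit 97) (nat_lit 0) (nat_lit 2) (nat_lit 2) true (nat_lit 11) true (nat_lit 13) false (nat_lit 5) true (nat_lit 15) true (nat_lit 13) (.s true (nat_lit 1) (nat_lit 95) (nat_lit 2) (nat_lit 2) (nat_lit 0) true (nat_lit 11) true (nat_lit 15) false (nat_lit 5) true (nat_lit 13) true (nat_lit 13) (.s true (nat_lit 3) (nat_lit 97) (nat_lit 2) (nat_lit 2)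 (nat_lit 0) true (nat_lit 11) true (nat_lit 15) false (nat_lit 5) true (nat_lit 13) true (nat_lit 13) (.s true (nat_lit 3) (nat_lit 100) (nat_lit 1) (nat_lit 2) (nat_lit 1) false (nat_lit 16) true (nat_lit 14) false (nat_lit 6) true (nat_lit 14) true (nat_lit 13) (.s false (nat_lit 1) (nat_lit 105) (nat_lit 0) (nat_lit 1) (nat_lit 2) true (nat_lit 11) true (nat_lit 13) false (nat_lit 7) true (nat_lit 15) true (nat_lit 14) (.s true (nat_lit 1) (nat_lit 105) (nat_lit 1) (nat_lit 2) (nat_lit 0) true (nat_lit 12) true (nat_lit 15) false (nat_lit 7) true (nat_lit 14) true (nat_lit 13) (.s true (nat_lit 1) (nat_lit 105) (nat_lit 2) (nat_lit 1) (nat_lit 0) true (nat_lit 11) true (nat_lit 15) false (nat_lit 7) true (nat_lit 13) true (nat_lit 14) (.s true (nat_lit 1) (nat_lit 106) (nat_lit 1) (nat_lit 0) (nat_lit 1) false (nat_lit 16) true (nat_lit 14) false (nat_lit 8) true (nat_lit 14) true (nat_lit 15) (.s true (nat_lit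 3) (nat_lit 106) (nat_lit 1) (nat_lit 1) (nat_lit 0) true (nat_lit 12) true (nat_lit 15) false (nat_lit 8) true (nat_lit 14) true (nat_lit 14) (.e false (nat_lit 3) (nat_lit 161) (nat_lit 6) (nat_lit 9) (.e true (nat_lit 1) (nat_lit 170) (nat_lit 6) (nat_lit 9) (.e true (nat_lit 3) (nat_lit 191) (nat_lit 5) (nat_lit 10) dC1d_i467)))))))))))))))))))))))))

noncomputable def dC1d_i469 : IL := (.s true (nat_lit 1) (nat_lit 39) (nat_lit 2) (nat_lit 2) (nat_lit 4) true (nat_lit 5) true (nat_lit 11) true (nat_lit 0) true (nat_lit 13) true (nat_lit 13) (.s true (nat_lit 3) (nat_lit 40) (nat_lit 5) (nat_lit 1) (nat_lit 2) true (nat_lit 4) true (nat_lit 13) false (nat_lit 0) true (nat_lit 10) true (nat_lit 14) (.s false (nat_lit 1) (nat_lit 41) (nat_lit 6) (nat_lit 1) (nat_lit 1) true (nat_lit 4) true (nat_lit 14) false (nat_lit 0) true (nat_lit 9) true (nat_lit 14) (.s true (nat_lit 3) (nat_lit 42) (nat_lit 6) (nat_lit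 1) (nat_lit 1) true (nat_lit 4) true (nat_lit 14) false (nat_lit 0) true (nat_lit 9) true (nat_lit 14) (.s true (nat_lit 3) (nat_lit 45) (nat_lit 2) (nat_lit 1) (nat_lit 4) true (nat_lit 5) true (nat_lit 11) false (nat_lit 1) true (nat_lit 13) true (nat_lit 14) (.s false (nat_lit 3) (nat_lit 45) (nat_lit 2) (nat_lit 2) (nat_lit 3) true (nat_lit 7) true (nat_lit 12) false (nat_lit 1) true (nat_lit 13) true (nat_lit 13) (.s true (nat_lit 1) (nat_lit 43) (nat_lit 3) (nat_lit 2) (nat_lit 2) true (nat_lit 7) true (nat_lit 13) false (nat_lit 1) true (nat_lit 12) true (nat_lit 13) (.s true (nat_lit 2) (nat_lit 44) (nat_lit 3) (nat_lit 2) (nat_lit 2) true (nat_lit 7) true (nat_lit 13) false (nat_lit 1) true (nat_lit 12) true (nat_lit 13) (.s true (nat_lit 2) (nat_lit 45) (nat_lit 3) (nat_lit 2) (nat_lit 2) true (nat_lit 7) true (nat_lit 13) false (nat_lit 1) true (nat_lit 12) true (nat_lit 13) (.s true (nat_lit 3) (nat_lit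 44) (nat_lit 6) (nat_lit 0) (nat_lit 1) true (nat_lit 4) true (nat_lit 14) false (nat_lit 1) true (nat_lit 9) true (nat_lit 15) (.s false (nat_lit 3) (nat_lit 45) (nat_lit 6) (nat_lit 0) (nat_lit 1) true (nat_lit 4) true (nat_lit 14) false (nat_lit 1) true (nat_lit 9) true (nat_lit 15) (.s true (nat_lit 1) (nat_lit 45) (nat_lit 6) (nat_lit 1) (nat_lit 0) true (nat_lit 5) true (nat_lit 15) false (nat_lit 1) true (nat_lit 9) true (nat_lit 14) (.s false (nat_lit 1) (nat_lit 46) (nat_lit 2) (nat_lit 3) (nat_lit 1) true (nat_lit 10) true (nat_lit 14) false (nat_lit 2) true (nat_lit 13) true (nat_lit 12) (.s false (nat_lit 1) (nat_lit 70) (nat_lit 2) (nat_lit 2) (nat_lit 2) true (nat_lit 9) true (nat_lit 13) false (nat_lit 3) true (nat_lit 13) true (nat_lit 13) (.s false (nat_lit 1) (nat_lit 72) (nat_lit 2) (nat_lit 2) (nat_lit 2) true (nat_lit 9) true (nat_lit 13) false (nat_lit 3) true (nat_lit 13) true (nat_lit 13)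 (.s true (nat_lit 3) (nat_lit 73) (nat_lit 2) (nat_lit 2) (nat_lit 2) true (nat_lit 9) true (nat_lit 13) false (nat_lit 3) true (nat_lit 13) true (nat_lit 13) (.s false (nat_lit 3) (nat_lit 75) (nat_lit 2) (nat_lit 2) (nat_lit 2) true (nat_lit 9) true (nat_lit 13) false (nat_lit 3) true (nat_lit 13) true (nat_lit 13) (.s false (nat_lit 1) (nat_lit 82) (nat_lit 1) (nat_lit 2) (nat_lit 2) true (nat_lit 10) true (nat_lit 13) false (nat_lit 4) true (nat_lit 14) true (nat_lit 13) (.s false (nat_lit 2) (nat_lit 83) (nat_lit 1) (nat_lit 2) (nat_lit 2) true (nat_lit 10) true (nat_lit 13) false (nat_lit 4) true (nat_lit 14) true (nat_lit 13) (.s false (nat_lit 1) (nat_lit 84) (nat_lit 1) (nat_lit 2) (nat_lit 2) true (nat_lit 10) true (nat_lit 13) false (nat_lit 4) true (nat_lit 14) true (nat_lit 13) (.s true (nat_lit 1) (nat_lit 85) (nat_lit 1) (nat_lit 2) (nat_lit 2) true (nat_lit 10) true (nat_lit 13) false (nat_lit 4)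 true (nat_lit 14) true (nat_lit 13) (.s false (nat_lit 2) (nat_lit 87) (nat_lit 1) (nat_lit 2) (nat_lit 2) true (nat_lit 10) true (nat_lit 13) false (nat_lit 4) true (nat_lit 14) true (nat_lit 13) (.s true (nat_lit 1) (nat_lit 88) (nat_lit 1) (nat_lit 2) (nat_lit 2) true (nat_lit 10) true (nat_lit 13) false (nat_lit 4) true (nat_lit 14) true (nat_lit 13) (.s true (nat_lit 2) (nat_lit 91) (nat_lit 1) (nat_lit 2) (nat_lit 2) true (nat_lit 10) true (nat_lit 13) false (nat_lit 4) true (nat_lit 14) true (nat_lit 13) (.s false (nat_lit 2) (nat_lit 82) (nat_lit 2) (nat_lit 1) (nat_lit 2) true (nat_lit 9) true (nat_lit 13) false (nat_lit 4) true (nat_lit 13) true (nat_lit 14) dC1d_i468)))))))))))))))))))))))))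

noncomputable def dC1d_i470 : IL := (.s true (nat_lit 2) (nat_lit 18) (nat_lit 3) (nat_lit 1) (nat_lit 6) true (nat_lit 1) true (nat_lit 9) true (nat_lit 3) true (nat_lit 12) true (nat_lit 14) (.s true (nat_lit 2) (nat_lit 18) (nat_lit 6) (nat_lit 1) (nat_lit 3) true (nat_lit 1) true (nat_lit 12) true (nat_lit 3) true (nat_lit 9) true (nat_lit 14) (.s false (nat_lit 1) (nat_lit 18) (nat_lit 8) (nat_lit 2) (nat_lit 2) true (nat_lit 2) true (nat_lit 13) true (nat_lit 3) true (nat_lit 8) true (nat_lit 13) (.s false (nat_lit 2) (nat_lit 18) (nat_lit 14) (nat_lit 1) (nat_lit 1) true (nat_lit 1) true (nat_lit 14) true (nat_lit 3) true (nat_lit 5) true (nat_lit 14) (.s false (nat_lit 1) (nat_lit 18) (nat_lit 16) (nat_lit 0) (nat_lit 1) true (nat_lit 0) true (nat_lit 14) true (nat_lit 3) true (nat_lit 4) true (nat_lit 15) (.s false (nat_lit 1) (nat_lit 25) (nat_lit 2) (nat_lit 2) (nat_lit 6) true (nat_lit 3) true (nat_lit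 9) true (nat_lit 2) true (nat_lit 13) true (nat_lit 13) (.s false (nat_lit 1) (nat_lit 26) (nat_lit 2) (nat_lit 2) (nat_lit 6) true (nat_lit 3) true (nat_lit 9) true (nat_lit 2) true (nat_lit 13) true (nat_lit 13) (.s true (nat_lit 3) (nat_lit 26) (nat_lit 2) (nat_lit 6) (nat_lit 2) true (nat_lit 9) true (nat_lit 13) true (nat_lit 2) true (nat_lit 13) true (nat_lit 9) (.s true (nat_lit 1) (nat_lit 25) (nat_lit 6) (nat_lit 2) (nat_lit 2) true (nat_lit 3) true (nat_lit 13) true (nat_lit 2) true (nat_lit 9) true (nat_lit 13) (.s true (nat_lit 3) (nat_lit 26) (nat_lit 6) (nat_lit 2) (nat_lit 2) true (nat_lit 3) true (nat_lit 13) true (nat_lit 2) true (nat_lit 9) true (nat_lit 13) (.s true (nat_lit 3) (nat_lit 32) (nat_lit 1) (nat_lit 2) (nat_lit 6) true (nat_lit 4) true (nat_lit 9) true (nat_lit 1) true (nat_lit 14) true (nat_lit 13) (.s false (nat_lit 2) (nat_lit 36) (nat_lit 1) (nat_lit 2) (nat_lit 6) true (nat_lit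 4) true (nat_lit 9) true (nat_lit 1) true (nat_lit 14) true (nat_lit 13) (.s false (nat_lit 1) (nat_lit 32) (nat_lit 1) (nat_lit 6) (nat_lit 2) true (nat_lit 10) true (nat_lit 13) true (nat_lit 1) true (nat_lit 14) true (nat_lit 9) (.s false (nat_lit 1) (nat_lit 31) (nat_lit 2) (nat_lit 1) (nat_lit 6) true (nat_lit 3) true (nat_lit 9) true (nat_lit 1) true (nat_lit 13) true (nat_lit 14) (.s true (nat_lit 1) (nat_lit 34) (nat_lit 2) (nat_lit 1) (nat_lit 6) true (nat_lit 3) true (nat_lit 9) true (nat_lit 1) true (nat_lit 13) true (nat_lit 14) (.s true (nat_lit 2) (nat_lit 36) (nat_lit 2) (nat_lit 1) (nat_lit 6) true (nat_lit 3) true (nat_lit 9) true (nat_lit 1) true (nat_lit 13) true (nat_lit 14) (.s false (nat_lit 1) (nat_lit 31) (nat_lit 2) (nat_lit 2) (nat_lit 5) true (nat_lit 4) true (nat_lit 10) true (nat_lit 1) true (nat_lit 13) true (nat_lit 13) (.s false (nat_lit 3) (nat_lit 32) (nat_lit 2) (nat_lit 2) (nat_lit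 5) true (nat_lit 4) true (nat_lit 10) true (nat_lit 1) true (nat_lit 13) true (nat_lit 13) (.s true (nat_lit 2) (nat_lit 33) (nat_lit 2) (nat_lit 2) (nat_lit 5) true (nat_lit 4) true (nat_lit 10) true (nat_lit 1) true (nat_lit 13) true (nat_lit 13) (.s false (nat_lit 3) (nat_lit 34) (nat_lit 2) (nat_lit 2) (nat_lit 5) true (nat_lit 4) true (nat_lit 10) true (nat_lit 1) true (nat_lit 13) true (nat_lit 13) (.s true (nat_lit 3) (nat_lit 36) (nat_lit 2) (nat_lit 2) (nat_lit 5) true (nat_lit 4) true (nat_lit 10) true (nat_lit 1) true (nat_lit 13) true (nat_lit 13) (.s true (nat_lit 3) (nat_lit 32) (nat_lit 2) (nat_lit 5) (nat_lit 2) true (nat_lit 9) true (nat_lit 13) true (nat_lit 1) true (nat_lit 13) true (nat_lit 10) (.s true (nat_lit 2) (nat_lit 34) (nat_lit 2) (nat_lit 6) (nat_lit 1) true (nat_lit 10) true (nat_lit 14) true (nat_lit 1) true (nat_lit 13) true (nat_lit 9) (.s false (nat_lit 3) (nat_lit 32) (nat_lit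 5) (nat_lit 2) (nat_lit 2) true (nat_lit 4) true (nat_lit 13) true (nat_lit 1) true (nat_lit 10) true (nat_lit 13) (.s false (nat_lit 2) (nat_lit 33) (nat_lit 5) (nat_lit 2) (nat_lit 2) true (nat_lit 4) true (nat_lit 13) true (nat_lit 1) true (nat_lit 10) true (nat_lit 13) dC1d_i469)))))))))))))))))))))))))

noncomputable def dC1d_i471 : IL := (.s true (nat_lit 2) (nat_lit 11) (nat_lit 6) (nat_lit 6) (nat_lit 1) true (nat_lit 4) true (nat_lit 14) true (nat_lit 7) true (nat_lit 9) true (nat_lit 9) (.s true (nat_lit 3) (nat_lit 15) (nat_lit 1) (nat_lit 5) (nat_lit 6) true (nat_lit 4) true (nat_lit 9) true (nat_lit 5) true (nat_lit 14) true (nat_lit 10) (.s true (nat_lit 3) (nat_lit 14) (nat_lit 2) (nat_lit 2) (nat_lit 13) true (nat_lit 0) true (nat_lit 6) true (nat_lit 5) true (nat_lit 13) true (nat_lit 13) (.s false (nat_lit 2) (nat_lit 16) (nat_lit 1) (nat_lit 14) (nat_lit 2) true (nat_lit 10) true (nat_lit 13)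 true (nat_lit 4) true (nat_lit 14) true (nat_lit 5) (.s true (nat_lit 1) (nat_lit 16) (nat_lit 2) (nat_lit 2) (nat_lit 10) true (nat_lit 1) true (nat_lit 7) true (nat_lit 4) true (nat_lit 13) true (nat_lit 13) (.s true (nat_lit 3) (nat_lit 17) (nat_lit 2) (nat_lit 2) (nat_lit 10) true (nat_lit 1) true (nat_lit 7) true (nat_lit 4) true (nat_lit 13) true (nat_lit 13) (.s true (nat_lit 2) (nat_lit 17) (nat_lit 2) (nat_lit 2) (nat_lit 12) true (nat_lit 1) true (nat_lit 7) true (nat_lit 4) true (nat_lit 13) true (nat_lit 13) (.s false (nat_lit 3) (nat_lit 16) (nat_lit 2) (nat_lit 3) (nat_lit 6) true (nat_lit 3) true (nat_lit 9) true (nat_lit 4) true (nat_lit 13) true (nat_lit 12) (.s false (nat_lit 3) (nat_lit 16) (nat_lit 2) (nat_lit 6) (nat_lit 3) true (nat_lit 7) true (nat_lit 12) true (nat_lit 4) true (nat_lit 13) true (nat_lit 9) (.s false (nat_lit 1) (nat_lit 17) (nat_lit 2) (nat_lit 6) (nat_lit 3) true (nat_lit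 7) true (nat_lit 12) true (nat_lit 4) true (nat_lit 13) true (nat_lit 9) (.s false (nat_lit 2) (nat_lit 16) (nat_lit 2) (nat_lit 14) (nat_lit 1) true (nat_lit 10) true (nat_lit 14) true (nat_lit 4) true (nat_lit 13) true (nat_lit 5) (.s false (nat_lit 2) (nat_lit 17) (nat_lit 6) (nat_lit 4) (nat_lit 1) true (nat_lit 4) true (nat_lit 14) true (nat_lit 4) true (nat_lit 9) true (nat_lit 11) (.s true (nat_lit 2) (nat_lit 16) (nat_lit 12) (nat_lit 2) (nat_lit 2) true (nat_lit 1) true (nat_lit 13) true (nat_lit 4) true (nat_lit 7) true (nat_lit 13) (.s false (nat_lit 3) (nat_lit 17) (nat_lit 14) (nat_lit 2) (nat_lit 1) true (nat_lit 1) true (nat_lit 14) true (nat_lit 4) true (nat_lit 5) true (nat_lit 13) (.s false (nat_lit 2) (nat_lit 17) (nat_lit 15) (nat_lit 2) (nat_lit 1) true (nat_lit 1) true (nat_lit 14) true (nat_lit 4) true (nat_lit 5) true (nat_lit 13) (.s false (nat_lit 1) (nat_lit 18) (nat_lit 0) (nat_lit 16)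 (nat_lit 1) true (nat_lit 12) true (nat_lit 14) true (nat_lit 3) true (nat_lit 15) true (nat_lit 4) (.s false (nat_lit 1) (nat_lit 18) (nat_lit 1) (nat_lit 0) (nat_lit 16) true (nat_lit 0) true (nat_lit 4) true (nat_lit 3) true (nat_lit 14) true (nat_lit 15) (.s false (nat_lit 3) (nat_lit 18) (nat_lit 1) (nat_lit 0) (nat_lit 17) true (nat_lit 0) true (nat_lit 4) true (nat_lit 3) true (nat_lit 14) true (nat_lit 15) (.s false (nat_lit 2) (nat_lit 18) (nat_lit 1) (nat_lit 12) (nat_lit 2) true (nat_lit 10) true (nat_lit 13) true (nat_lit 3) true (nat_lit 14) true (nat_lit 7) (.s true (nat_lit 2) (nat_lit 18) (nat_lit 1) (nat_lit 14) (nat_lit 1) false (nat_lit 16) true (nat_lit 14) true (nat_lit 3) true (nat_lit 14) true (nat_lit 5) (.s true (nat_lit 2) (nat_lit 18) (nat_lit 2) (nat_lit 1) (nat_lit 10) true (nat_lit 1) true (nat_lit 7) true (nat_lit 3) true (nat_lit 13) true (nat_lit 14) (.s true (nat_lit 1) (nat_lit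 18) (nat_lit 2) (nat_lit 2) (nat_lit 8) true (nat_lit 2) true (nat_lit 8) true (nat_lit 3) true (nat_lit 13) true (nat_lit 13) (.s true (nat_lit 1) (nat_lit 18) (nat_lit 2) (nat_lit 3) (nat_lit 5) true (nat_lit 4) true (nat_lit 10) true (nat_lit 3) true (nat_lit 13) true (nat_lit 12) (.s false (nat_lit 2) (nat_lit 18) (nat_lit 2) (nat_lit 10) (nat_lit 1) true (nat_lit 10) true (nat_lit 14) true (nat_lit 3) true (nat_lit 13) true (nat_lit 7) (.s true (nat_lit 3) (nat_lit 18) (nat_lit 2) (nat_lit 13) (nat_lit 0) true (nat_lit 11) true (nat_lit 15) true (nat_lit 3) true (nat_lit 13) true (nat_lit 6) dC1d_i470)))))))))))))))))))))))))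

noncomputable def dC1d_i472 : IL := (.e false (nat_lit 1) (nat_lit 266) (nat_lit 1) (nat_lit 18) (.e true (nat_lit 1) (nat_lit 267) (nat_lit 1) (nat_lit 18) (.e false (nat_lit 3) (nat_lit 268) (nat_lit 1) (nat_lit 18) (.e true (nat_lit 2) (nat_lit 269) (nat_lit 1) (nat_lit 18) (.e true (nat_lit 1) (nat_lit 270) (nat_lit 1) (nat_lit 18) (.e true (nat_lit 3) (nat_lit 274) (nat_lit 1) (nat_lit 18) (.e false (nat_lit 1) (nat_lit 278) (nat_lit 1) (nat_lit 18) (.e false (nat_lit 2) (nat_lit 280) (nat_lit 1) (nat_lit 18) (.e true (nat_lit 2) (nat_lit 282) (nat_lit 1) (nat_lit 18) (.e false (nat_lit 3) (nat_lit 288) (nat_lit 1) (nat_lit 18) (.e false (nat_lit 3) (nat_lit 271) (nat_lit 1) (nat_lit 18) (.e true (nat_lit 1) (nat_lit 273) (nat_lit 1) (nat_lit 18) (.e false (nat_lit 2) (nat_lit 139) (nat_lit 5) (nat_lit 14) (.e true (nat_lit 2) (nat_lit 279) (nat_lit 1) (nat_lit 18) (.e true (nat_lit 2) (nat_lit 283) (nat_lit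 1) (nat_lit 18) (.e true (nat_lit 3) (nat_lit 154) (nat_lit 4) (nat_lit 15) (.e false (nat_lit 2) (nat_lit 285) (nat_lit 1) (nat_lit 18) (.e true (nat_lit 3) (nat_lit 300) (nat_lit 0) (nat_lit 19) (.e false (nat_lit 2) (nat_lit 259) (nat_lit 2) (nat_lit 17) (.e false (nat_lit 2) (nat_lit 314) (nat_lit 0) (nat_lit 19) (.e false (nat_lit 2) (nat_lit 315) (nat_lit 0) (nat_lit 19) (.u (nat_lit 2) (.n (nat_lit 0) (nat_lit 4) (.n (nat_lit 1) (nat_lit 4) (.n (nat_lit 2) (nat_lit 3) (.n (nat_lit 3) (nat_lit 2) (.p (nat_lit 5) (nat_lit 2) (.n (nat_lit 7) (nat_lit 2) (.n (nat_lit 9) (nat_lit 1) (.p (nat_lit 10) (nat_lit 1) (.n (nat_lit 11) (nat_lit 3) (.n (nat_lit 12) (nat_lit 1) (.n (nat_lit 13) (nat_lit 2) (.p (nat_lit 14) (nat_lit 2) (.p (nat_lit 15) (nat_lit 1) (.p (nat_lit 17) (nat_lit 3) (.n (nat_lit 18) (nat_lit 2) (.n (nat_lit 19) (nat_lit 4) (.n (nat_lit 23) (nat_lit 2) (.p (nat_lit 24) (nat_lit 1) (.p (nat_lit 25)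 (nat_lit 1) (.n (nat_lit 26) (nat_lit 1) (.n (nat_lit 27) (nat_lit 3) (.p (nat_lit 28) (nat_lit 3) (.p (nat_lit 29) (nat_lit 5) (.p (nat_lit 30) (nat_lit 4) (.n (nat_lit 31) (nat_lit 2) (.p (nat_lit 32) (nat_lit 4) (.n (nat_lit 33) (nat_lit 4) (.p (nat_lit 34) (nat_lit 3) (.n (nat_lit 35) (nat_lit 2) (.n (nat_lit 36) (nat_lit 5) (.p (nat_lit 37) (nat_lit 4) (.n (nat_lit 39) (nat_lit 2) (.n (nat_lit 40) (nat_lit 1) (.n (nat_lit 41) (nat_lit 1) (.n (nat_lit 45) (nat_lit 1) (.p (nat_lit 46) (nat_lit 1) (.n (nat_lit 48) (nat_lit 1) (.n (nat_lit 49) (nat_lit 2) (.p (nat_lit 50) (nat_lit 1) (.p (nat_lit 52) (nat_lit 2) (.n (nat_lit 54) (nat_lit 1) (.n (nat_lit 55) (nat_lit 1) (.n (nat_lit 56) (nat_lit 2) (.n (nat_lit 59) (nat_lit 1) (.n (nat_lit 60) (nat_lit 1) (.n (nat_lit 61) (nat_lit 2) (.p (nat_lit 67) (nat_lit 1) (.n (nat_lit 68) (nat_lit 1) (.n (nat_lit 69) (nat_lit 2) (.n (nat_lit 70) (nat_lit 1) (.p (nat_lit 71)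 (nat_lit 1) (.p (nat_lit 72) (nat_lit 1) (.n (nat_lit 73) (nat_lit 1) (.n (nat_lit 74) (nat_lit 1) (.n (nat_lit 75) (nat_lit 1) (.p (nat_lit 76) (nat_lit 1) (.p (nat_lit 77) (nat_lit 1) (.n (nat_lit 83) (nat_lit 1) (.n (nat_lit 89) (nat_lit 1) (.n (nat_lit 95) (nat_lit 1) .z)))))))))))))))))))))))))))))))))))))))))))))))))))))))))))) (.u (nat_lit 2) (.p (nat_lit 99) (nat_lit 1) (.p (nat_lit 101) (nat_lit 1) (.n (nat_lit 118) (nat_lit 1) (.n (nat_lit 140) (nat_lit 1) (.n (nat_lit 149) (nat_lit 1) (.n (nat_lit 151) (nat_lit 1) (.n (nat_lit 158) (nat_lit 1) (.p (nat_lit 159) (nat_lit 1) (.n (nat_lit 161) (nat_lit 1) (.p (nat_lit 162) (nat_lit 1) (.p (nat_lit 163) (nat_lit 1) (.p (nat_lit 170) (nat_lit 1) (.p (nat_lit 220) (nat_lit 1) (.n (nat_lit 237) (nat_lit 1) (.p (nat_lit 241) (nat_lit 1) (.p (nat_lit 242) (nat_lit 1) (.p (nat_lit 243) (nat_lit 1) (.n (nat_lit 244) (nat_lit 1) (.n (nat_lit 249) (nat_lit 1) (.p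 (nat_lit 251) (nat_lit 1) (.p (nat_lit 261) (nat_lit 1) (.n (nat_lit 262) (nat_lit 1) (.p (nat_lit 266) (nat_lit 1) (.n (nat_lit 294) (nat_lit 1) (.p (nat_lit 307) (nat_lit 1) (.p (nat_lit 327) (nat_lit 7) (.p (nat_lit 328) (nat_lit 6) (.p (nat_lit 329) (nat_lit 7) (.n (nat_lit 330) (nat_lit 9) (.n (nat_lit 332) (nat_lit 11) (.p (nat_lit 333) (nat_lit 8) (.n (nat_lit 334) (nat_lit 7) (.p (nat_lit 335) (nat_lit 8) (.n (nat_lit 336) (nat_lit 8) (.n (nat_lit 337) (nat_lit 15) (.n (nat_lit 338) (nat_lit 13) (.p (nat_lit 339) (nat_lit 12) (.p (nat_lit 340) (nat_lit 7) (.p (nat_lit 341) (nat_lit 9) (.n (nat_lit 342) (nat_lit 4) (.p (nat_lit 343) (nat_lit 1) (.n (nat_lit 344) (nat_lit 4) (.n (nat_lit 345) (nat_lit 10) (.n (nat_lit 346) (nat_lit 23) (.p (nat_lit 347) (nat_lit 8) (.n (nat_lit 348) (nat_lit 2) (.n (nat_lit 349) (nat_lit 10) (.p (nat_lit 350) (nat_lit 10) (.n (nat_lit 351) (nat_lit 2) (.p (nat_lit 352) (nat_lit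 16) (.n (nat_lit 353) (nat_lit 2) (.p (nat_lit 354) (nat_lit 2) (.p (nat_lit 355) (nat_lit 1) (.p (nat_lit 356) (nat_lit 7) (.n (nat_lit 357) (nat_lit 8) (.p (nat_lit 358) (nat_lit 3) (.p (nat_lit 359) (nat_lit 17) (.p (nat_lit 360) (nat_lit 3) (.n (nat_lit 361) (nat_lit 6) (.n (nat_lit 362) (nat_lit 3) .z)))))))))))))))))))))))))))))))))))))))))))))))))))))))))))) (.u (nat_lit 2) (.n (nat_lit 363) (nat_lit 27) (.n (nat_lit 364) (nat_lit 6) (.p (nat_lit 365) (nat_lit 3) (.n (nat_lit 366) (nat_lit 1) (.n (nat_lit 367) (nat_lit 7) (.n (nat_lit 368) (nat_lit 1) (.n (nat_lit 369) (nat_lit 6) (.n (nat_lit 371) (nat_lit 3) (.p (nat_lit 372) (nat_lit 3) (.n (nat_lit 373) (nat_lit 2) (.p (nat_lit 374) (nat_lit 1) (.n (nat_lit 375) (nat_lit 3) (.n (nat_lit 376) (nat_lit 1) (.p (nat_lit 377) (nat_lit 9) (.p (nat_lit 378) (nat_lit 5) (.p (nat_lit 379) (nat_lit 10) (.n (nat_lit 380) (nat_lit 13) (.n (nat_lit 381) (nat_lit 10)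 (.n (nat_lit 382) (nat_lit 23) (.p (nat_lit 383) (nat_lit 3) (.p (nat_lit 384) (nat_lit 19) (.n (nat_lit 385) (nat_lit 1) (.n (nat_lit 386) (nat_lit 7) (.p (nat_lit 387) (nat_lit 1) (.p (nat_lit 388) (nat_lit 21) (.n (nat_lit 389) (nat_lit 24) (.p (nat_lit 390) (nat_lit 1) (.p (nat_lit 392) (nat_lit 7) (.p (nat_lit 393) (nat_lit 7) (.p (nat_lit 394) (nat_lit 22) (.n (nat_lit 395) (nat_lit 3) (.p (nat_lit 396) (nat_lit 3) (.n (nat_lit 397) (nat_lit 3) (.p (nat_lit 398) (nat_lit 10) (.n (nat_lit 399) (nat_lit 4) (.n (nat_lit 400) (nat_lit 11) (.n (nat_lit 401) (nat_lit 13) (.n (nat_lit 402) (nat_lit 15) (.n (nat_lit 403) (nat_lit 13) (.p (nat_lit 404) (nat_lit 2) (.n (nat_lit 405) (nat_lit 7) (.p (nat_lit 406) (nat_lit 2) (.p (nat_lit 407) (nat_lit 2) (.n (nat_lit 408) (nat_lit 31) (.n (nat_lit 409) (nat_lit 10) (.n (nat_lit 410) (nat_lit 12) (.n (nat_lit 411) (nat_lit 13) (.p (nat_lit 412) (nat_lit 11) (.p (nat_lit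 413) (nat_lit 8) (.n (nat_lit 414) (nat_lit 17) (.p (nat_lit 415) (nat_lit 2) (.n (nat_lit 416) (nat_lit 10) (.p (nat_lit 417) (nat_lit 7) (.p (nat_lit 419) (nat_lit 18) (.n (nat_lit 420) (nat_lit 7) (.n (nat_lit 423) (nat_lit 1) (.n (nat_lit 425) (nat_lit 15) (.n (nat_lit 426) (nat_lit 7) (.p (nat_lit 427) (nat_lit 5) (.p (nat_lit 428) (nat_lit 11) .z)))))))))))))))))))))))))))))))))))))))))))))))))))))))))))) (.u (nat_lit 2) (.n (nat_lit 429) (nat_lit 2) (.n (nat_lit 430) (nat_lit 2) (.p (nat_lit 432) (nat_lit 4) (.p (nat_lit 433) (nat_lit 6) (.n (nat_lit 434) (nat_lit 1) .z))))) .nil)))))))))))))))))))))))))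

noncomputable def dC1d_i473 : IL := (.e false (nat_lit 3) (nat_lit 252) (nat_lit 2) (nat_lit 17) (.e true (nat_lit 3) (nat_lit 258) (nat_lit 2) (nat_lit 17) (.e false (nat_lit 1) (nat_lit 294) (nat_lit 0) (nat_lit 19) (.e true (nat_lit 2) (nat_lit 299) (nat_lit 0) (nat_lit 19) (.e false (nat_lit 2) (nat_lit 301) (nat_lit 0) (nat_lit 19) (.e true (nat_lit 2) (nat_lit 311) (nat_lit 0) (nat_lit 19) (.e false (nat_lit 1) (nat_lit 290) (nat_lit 0) (nat_lit 19) (.e true (nat_lit 1) (nat_lit 292) (nat_lit 0) (nat_lit 19) (.e true (nat_lit 3) (nat_lit 293) (nat_lit 0) (nat_lit 19) (.e false (nat_lit 2) (nat_lit 296) (nat_lit 0) (nat_lit 19) (.e false (nat_lit 2) (nat_lit 297) (nat_lit 0) (nat_lit 19) (.e true (nat_lit 3) (nat_lit 317) (nat_lit 0) (nat_lit 19) (.e false (nat_lit 2) (nat_lit 298) (nat_lit 0) (nat_lit 19) (.e false (nat_lit 1) (nat_lit 313) (nat_lit 0) (nat_lit 19) (.e false (nat_lit 2) (nat_lit 309) (nat_lit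 0) (nat_lit 19) (.e true (nat_lit 3) (nat_lit 308) (nat_lit 0) (nat_lit 19) (.e false (nat_lit 1) (nat_lit 316) (nat_lit 0) (nat_lit 19) (.e false (nat_lit 2) (nat_lit 157) (nat_lit 4) (nat_lit 15) (.e false (nat_lit 2) (nat_lit 304) (nat_lit 0) (nat_lit 19) (.e false (nat_lit 3) (nat_lit 247) (nat_lit 2) (nat_lit 17) (.e false (nat_lit 2) (nat_lit 286) (nat_lit 1) (nat_lit 18) (.e false (nat_lit 3) (nat_lit 260) (nat_lit 1) (nat_lit 18) (.e true (nat_lit 1) (nat_lit 261) (nat_lit 1) (nat_lit 18) (.e false (nat_lit 3) (nat_lit 263) (nat_lit 1) (nat_lit 18) (.e false (nat_lit 1) (nat_lit 265) (nat_lit 1) (nat_lit 18) dC1d_i472)))))))))))))))))))))))))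

noncomputable def dC1d_i474 : IL := (.e false (nat_lit 1) (nat_lit 214) (nat_lit 2) (nat_lit 17) (.e false (nat_lit 1) (nat_lit 216) (nat_lit 2) (nat_lit 17) (.e true (nat_lit 3) (nat_lit 217) (nat_lit 2) (nat_lit 17) (.e false (nat_lit 3) (nat_lit 218) (nat_lit 2) (nat_lit 17) (.e true (nat_lit 3) (nat_lit 222) (nat_lit 2) (nat_lit 17) (.e true (nat_lit 2) (nat_lit 225) (nat_lit 2) (nat_lit 17) (.e true (nat_lit 3) (nat_lit 226) (nat_lit 2) (nat_lit 17) (.e false (nat_lit 3) (nat_lit 228) (nat_lit 2) (nat_lit 17) (.e true (nat_lit 1) (nat_lit 232) (nat_lit 2) (nat_lit 17) (.e true (nat_lit 2) (nat_lit 233) (nat_lit 2) (nat_lit 17) (.e false (nat_lit 1) (nat_lit 236) (nat_lit 2) (nat_lit 17) (.e false (nat_lit 2) (nat_lit 237) (nat_lit 2) (nat_lit 17) (.e true (nat_lit 1) (nat_lit 239) (nat_lit 2) (nat_lit 17) (.e true (nat_lit 3) (nat_lit 242) (nat_lit 2) (nat_lit 17) (.e true (nat_lit 3) (nat_lit 246) (nat_lit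 2) (nat_lit 17) (.e false (nat_lit 1) (nat_lit 248) (nat_lit 2) (nat_lit 17) (.e false (nat_lit 3) (nat_lit 215) (nat_lit 2) (nat_lit 17) (.e true (nat_lit 3) (nat_lit 219) (nat_lit 2) (nat_lit 17) (.e true (nat_lit 3) (nat_lit 224) (nat_lit 2) (nat_lit 17) (.e false (nat_lit 1) (nat_lit 227) (nat_lit 2) (nat_lit 17) (.e true (nat_lit 2) (nat_lit 245) (nat_lit 2) (nat_lit 17) (.e false (nat_lit 1) (nat_lit 249) (nat_lit 2) (nat_lit 17) (.e true (nat_lit 2) (nat_lit 223) (nat_lit 2) (nat_lit 17) (.e true (nat_lit 1) (nat_lit 244) (nat_lit 2) (nat_lit 17) (.e false (nat_lit 3) (nat_lit 251) (nat_lit 2) (nat_lit 17) dC1d_i473)))))))))))))))))))))))))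

noncomputable def dC1d_i475 : IL := (.s false (nat_lit 3) (nat_lit 104) (nat_lit 0) (nat_lit 1) (nat_lit 0) false (nat_lit 20) true (nat_lit 19) false (nat_lit 12) true (nat_lit 19) true (nat_lit 18) (.s false (nat_lit 2) (nat_lit 105) (nat_lit 0) (nat_lit 1) (nat_lit 0) false (nat_lit 20) true (nat_lit 19) false (nat_lit 12) true (nat_lit 19) true (nat_lit 18) (.a false (nat_lit 2) (nat_lit 31) (nat_lit 31) (nat_lit 0) (nat_lit 0) (.a true (nat_lit 3) (nat_lit 31) (nat_lit 32) (nat_lit 0) (nat_lit 0) (.a false (nat_lit 3) (nat_lit 31) (nat_lit 33) (nat_lit 0) (nat_lit 0) (.a false (nat_lit 3) (nat_lit 31) (nat_lit 34) (nat_lit 0) (nat_lit 0) (.a false (nat_lit 3) (nat_lit 31) (nat_lit 35) (nat_lit 0) (nat_lit 0) (.a true (nat_lit 3) (nat_lit 31) (nat_lit 36) (nat_lit 0) (nat_lit 0) (.a false (nat_lit 1) (nat_lit 32) (nat_lit 32) (nat_lit 0) (nat_lit 0) (.a true (nat_lit 2) (nat_lit 32) (nat_lit 33) (nat_lit 0)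 (nat_lit 0) (.a true (nat_lit 2) (nat_lit 32) (nat_lit 34) (nat_lit 0) (nat_lit 0) (.a true (nat_lit 2) (nat_lit 32) (nat_lit 35) (nat_lit 0) (nat_lit 0) (.a false (nat_lit 2) (nat_lit 32) (nat_lit 36) (nat_lit 0) (nat_lit 0) (.a false (nat_lit 1) (nat_lit 33) (nat_lit 33) (nat_lit 0) (nat_lit 0) (.a false (nat_lit 2) (nat_lit 33) (nat_lit 34) (nat_lit 0) (nat_lit 0) (.a false (nat_lit 2) (nat_lit 33) (nat_lit 35) (nat_lit 0) (nat_lit 0) (.a true (nat_lit 2) (nat_lit 33) (nat_lit 36) (nat_lit 0) (nat_lit 0) (.a false (nat_lit 1) (nat_lit 34) (nat_lit 34) (nat_lit 0) (nat_lit 0) (.a false (nat_lit 2) (nat_lit 34) (nat_lit 35) (nat_lit 0) (nat_lit 0) (.a true (nat_lit 2) (nat_lit 34) (nat_lit 36) (nat_lit 0) (nat_lit 0) (.a true (nat_lit 2) (nat_lit 35) (nat_lit 35) (nat_lit 0) (nat_lit 0) (.a true (nat_lit 2) (nat_lit 35) (nat_lit 36) (nat_lit 0) (nat_lit 0) (.a false (nat_lit 1) (nat_lit 36) (nat_lit 36) (nat_lit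 0) (nat_lit 0) (.e true (nat_lit 3) (nat_lit 212) (nat_lit 2) (nat_lit 17) (.e true (nat_lit 3) (nat_lit 213) (nat_lit 2) (nat_lit 17) dC1d_i474)))))))))))))))))))))))))

noncomputable def dC1d_i476 : IL := (.s false (nat_lit 1) (nat_lit 65) (nat_lit 1) (nat_lit 2) (nat_lit 2) true (nat_lit 14) true (nat_lit 17) false (nat_lit 6) true (nat_lit 18) true (nat_lit 17) (.s false (nat_lit 2) (nat_lit 61) (nat_lit 2) (nat_lit 1) (nat_lit 2) true (nat_lit 13) true (nat_lit 17) false (nat_lit 6) true (nat_lit 17) true (nat_lit 18) (.s false (nat_lit 1) (nat_lit 64) (nat_lit 2) (nat_lit 1) (nat_lit 2) true (nat_lit 13) true (nat_lit 17) false (nat_lit 6) true (nat_lit 17) true (nat_lit 18) (.s true (nat_lit 2) (nat_lit 65) (nat_lit 2) (nat_lit 1) (nat_lit 2) true (nat_lit 13) true (nat_lit 17) false (nat_lit 6) true (nat_lit 17) true (nat_lit 18) (.s false (nat_lit 2) (nat_lit 55) (nat_lit 2) (nat_lit 2) (nat_lit 1) true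 (nat_lit 14) true (nat_lit 18) false (nat_lit 6) true (nat_lit 17) true (nat_lit 17) (.s false (nat_lit 3) (nat_lit 56) (nat_lit 2) (nat_lit 2) (nat_lit 1) true (nat_lit 14) true (nat_lit 18) false (nat_lit 6) true (nat_lit 17) true (nat_lit 17) (.s false (nat_lit 1) (nat_lit 57) (nat_lit 2) (nat_lit 2) (nat_lit 1) true (nat_lit 14) true (nat_lit 18) false (nat_lit 6) true (nat_lit 17) true (nat_lit 17) (.s true (nat_lit 3) (nat_lit 58) (nat_lit 2) (nat_lit 2) (nat_lit 1) true (nat_lit 14) true (nat_lit 18) false (nat_lit 6) true (nat_lit 17) true (nat_lit 17) (.s false (nat_lit 1) (nat_lit 61) (nat_lit 2) (nat_lit 2) (nat_lit 1) true (nat_lit 14) true (nat_lit 18) false (nat_lit 6) true (nat_lit 17) true (nat_lit 17) (.s false (nat_lit 3) (nat_lit 64) (nat_lit 2) (nat_lit 2) (nat_lit 1) true (nat_lit 14) true (nat_lit 18) false (nat_lit 6) true (nat_lit 17) true (nat_lit 17) (.s false (nat_lit 3) (nat_lit 66) (nat_lit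 0) (nat_lit 2) (nat_lit 2) true (nat_lit 15) true (nat_lit 17) false (nat_lit 7) true (nat_lit 19) true (nat_lit 17) (.s false (nat_lit 1) (nat_lit 74) (nat_lit 0) (nat_lit 2) (nat_lit 2) true (nat_lit 15) true (nat_lit 17) false (nat_lit 7) true (nat_lit 19) true (nat_lit 17) (.s false (nat_lit 2) (nat_lit 66) (nat_lit 2) (nat_lit 0) (nat_lit 2) true (nat_lit 13) true (nat_lit 17) false (nat_lit 7) true (nat_lit 17) true (nat_lit 19) (.s true (nat_lit 2) (nat_lit 74) (nat_lit 2) (nat_lit 0) (nat_lit 2) true (nat_lit 13) true (nat_lit 17) false (nat_lit 7) true (nat_lit 17) true (nat_lit 19) (.s true (nat_lit 3) (nat_lit 82) (nat_lit 0) (nat_lit 1) (nat_lit 2) true (nat_lit 15) true (nat_lit 17) false (nat_lit 9) true (nat_lit 19) true (nat_lit 18) (.s true (nat_lit 3) (nat_lit 90) (nat_lit 0) (nat_lit 1) (nat_lit 2) true (nat_lit 15) true (nat_lit 17) false (nat_lit 9) true (nat_lit 19) true (nat_lit 18) (.s false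 (nat_lit 2) (nat_lit 82) (nat_lit 0) (nat_lit 2) (nat_lit 1) true (nat_lit 16) true (nat_lit 18) false (nat_lit 9) true (nat_lit 19) true (nat_lit 17) (.s false (nat_lit 2) (nat_lit 82) (nat_lit 1) (nat_lit 2) (nat_lit 0) true (nat_lit 16) true (nat_lit 19) false (nat_lit 9) true (nat_lit 18) true (nat_lit 17) (.s true (nat_lit 3) (nat_lit 82) (nat_lit 2) (nat_lit 1) (nat_lit 0) true (nat_lit 15) true (nat_lit 19) false (nat_lit 9) true (nat_lit 17) true (nat_lit 18) (.s false (nat_lit 2) (nat_lit 98) (nat_lit 0) (nat_lit 1) (nat_lit 1) true (nat_lit 16) true (nat_lit 18) false (nat_lit 11) true (nat_lit 19) true (nat_lit 18) (.s true (nat_lit 2) (nat_lit 100) (nat_lit 1) (nat_lit 0) (nat_lit 1) false (nat_lit 21) true (nat_lit 18) false (nat_lit 11) true (nat_lit 18) true (nat_lit 19) (.s false (nat_lit 3) (nat_lit 101) (nat_lit 1) (nat_lit 0) (nat_lit 1) false (nat_lit 21) true (nat_lit 18) false (nat_lit 11)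 true (nat_lit 18) true (nat_lit 19) (.s false (nat_lit 2) (nat_lit 98) (nat_lit 1) (nat_lit 1) (nat_lit 0) true (nat_lit 16) true (nat_lit 19) false (nat_lit 11) true (nat_lit 18) true (nat_lit 18) (.s true (nat_lit 2) (nat_lit 102) (nat_lit 0) (nat_lit 1) (nat_lit 0) false (nat_lit 20) true (nat_lit 19) false (nat_lit 12) true (nat_lit 19) true (nat_lit 18) (.s false (nat_lit 3) (nat_lit 103) (nat_lit 0) (nat_lit 1) (nat_lit 0) false (nat_lit 20) true (nat_lit 19) false (nat_lit 12) true (nat_lit 19) true (nat_lit 18) dC1d_i475)))))))))))))))))))))))))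

noncomputable def dC1d_i477 : IL := (.s false (nat_lit 2) (nat_lit 18) (nat_lit 0) (nat_lit 2) (nat_lit 8) true (nat_lit 4) true (nat_lit 11) true (nat_lit 5) true (nat_lit 19) true (nat_lit 17) (.s true (nat_lit 1) (nat_lit 18) (nat_lit 1) (nat_lit 7) (nat_lit 2) true (nat_lit 14) true (nat_lit 17) true (nat_lit 5) true (nat_lit 18) true (nat_lit 12) (.s true (nat_lit 1) (nat_lit 18) (nat_lit 2) (nat_lit 0) (nat_lit 8) true (nat_lit 2) true (nat_lit 11) true (nat_lit 5) true (nat_lit 17) true (nat_lit 19) (.s false (nat_lit 3) (nat_lit 18) (nat_lit 8) (nat_lit 0) (nat_lit 2) true (nat_lit 2) true (nat_lit 17) true (nat_lit 5) true (nat_lit 11) true (nat_lit 19) (.s true (nat_lit 1) (nat_lit 19) (nat_lit 2) (nat_lit 2) (nat_lit 6) true (nat_lit 5) true (nat_lit 13) true (nat_lit 4) true (nat_lit 17) true (nat_lit 17) (.s true (nat_lit 3) (nat_lit 19) (nat_lit 6) (nat_lit 2) (nat_lit 2) true (nat_lit 5) true (nat_lit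 17) true (nat_lit 4) true (nat_lit 13) true (nat_lit 17) (.s false (nat_lit 1) (nat_lit 20) (nat_lit 5) (nat_lit 2) (nat_lit 2) true (nat_lit 6) true (nat_lit 17) true (nat_lit 3) true (nat_lit 14) true (nat_lit 17) (.s false (nat_lit 1) (nat_lit 24) (nat_lit 0) (nat_lit 2) (nat_lit 6) true (nat_lit 7) true (nat_lit 13) true (nat_lit 2) true (nat_lit 19) true (nat_lit 17) (.s false (nat_lit 3) (nat_lit 24) (nat_lit 0) (nat_lit 6) (nat_lit 2) true (nat_lit 15) true (nat_lit 17) true (nat_lit 2) true (nat_lit 19) true (nat_lit 13) (.s true (nat_lit 3) (nat_lit 24) (nat_lit 2) (nat_lit 2) (nat_lit 4) true (nat_lit 7) true (nat_lit 15) true (nat_lit 2) true (nat_lit 17) true (nat_lit 17) (.s false (nat_lit 3) (nat_lit 30) (nat_lit 1) (nat_lit 1) (nat_lit 6) true (nat_lit 6) true (nat_lit 13) true (nat_lit 1) true (nat_lit 18) true (nat_lit 18) (.s false (nat_lit 2) (nat_lit 31) (nat_lit 0) (nat_lit 2) (nat_lit 5) true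 (nat_lit 9) true (nat_lit 14) true (nat_lit 0) true (nat_lit 19) true (nat_lit 17) (.s true (nat_lit 2) (nat_lit 31) (nat_lit 1) (nat_lit 2) (nat_lit 4) true (nat_lit 9) true (nat_lit 15) true (nat_lit 0) true (nat_lit 18) true (nat_lit 17) (.s false (nat_lit 3) (nat_lit 31) (nat_lit 2) (nat_lit 5) (nat_lit 0) true (nat_lit 15) true (nat_lit 19) true (nat_lit 0) true (nat_lit 17) true (nat_lit 14) (.s false (nat_lit 1) (nat_lit 35) (nat_lit 6) (nat_lit 0) (nat_lit 1) true (nat_lit 6) true (nat_lit 18) true (nat_lit 0) true (nat_lit 13) true (nat_lit 19) (.s false (nat_lit 3) (nat_lit 46) (nat_lit 3) (nat_lit 0) (nat_lit 1) true (nat_lit 11) true (nat_lit 18) false (nat_lit 4) true (nat_lit 16) true (nat_lit 19) (.s false (nat_lit 3) (nat_lit 46) (nat_lit 3) (nat_lit 1) (nat_lit 0) true (nat_lit 12) true (nat_lit 19) false (nat_lit 4) true (nat_lit 16) true (nat_lit 18) (.s true (nat_lit 3) (nat_lit 54) (nat_lit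 2) (nat_lit 2) (nat_lit 2) true (nat_lit 13) true (nat_lit 17) false (nat_lit 5) true (nat_lit 17) true (nat_lit 17) (.s true (nat_lit 2) (nat_lit 55) (nat_lit 1) (nat_lit 2) (nat_lit 2) true (nat_lit 14) true (nat_lit 17) false (nat_lit 6) true (nat_lit 18) true (nat_lit 17) (.s true (nat_lit 3) (nat_lit 56) (nat_lit 1) (nat_lit 2) (nat_lit 2) true (nat_lit 14) true (nat_lit 17) false (nat_lit 6) true (nat_lit 18) true (nat_lit 17) (.s true (nat_lit 1) (nat_lit 57) (nat_lit 1) (nat_lit 2) (nat_lit 2) true (nat_lit 14) true (nat_lit 17) false (nat_lit 6) true (nat_lit 18) true (nat_lit 17) (.s false (nat_lit 3) (nat_lit 58) (nat_lit 1) (nat_lit 2) (nat_lit 2) true (nat_lit 14) true (nat_lit 17) false (nat_lit 6) true (nat_lit 18) true (nat_lit 17) (.s true (nat_lit 1) (nat_lit 61) (nat_lit 1) (nat_lit 2) (nat_lit 2) true (nat_lit 14) true (nat_lit 17) false (nat_lit 6) true (nat_lit 18) true (nat_lit 17) (.s false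 (nat_lit 3) (nat_lit 62) (nat_lit 1) (nat_lit 2) (nat_lit 2) true (nat_lit 14) true (nat_lit 17) false (nat_lit 6) true (nat_lit 18) true (nat_lit 17) (.s true (nat_lit 3) (nat_lit 64) (nat_lit 1) (nat_lit 2) (nat_lit 2) true (nat_lit 14) true (nat_lit 17) false (nat_lit 6) true (nat_lit 18) true (nat_lit 17) dC1d_i476)))))))))))))))))))))))))

noncomputable def dC1d_i478 : IL := (.e true (nat_lit 2) (nat_lit 354) (nat_lit 0) (nat_lit 15) (.e true (nat_lit 3) (nat_lit 83) (nat_lit 16) (nat_lit 4) (.e false (nat_lit 2) (nat_lit 312) (nat_lit 2) (nat_lit 13) (.e false (nat_lit 1) (nat_lit 328) (nat_lit 1) (nat_lit 14) (.e false (nat_lit 2) (nat_lit 329) (nat_lit 1) (nat_lit 14) (.e false (nat_lit 3) (nat_lit 331) (nat_lit 1) (nat_lit 14) (.e true (nat_lit 2) (nat_lit 332) (nat_lit 1) (nat_lit 14) (.e true (nat_lit 3) (nat_lit 335) (nat_lit 1) (nat_lit 14) (.e false (nat_lit 2) (nat_lit 338) (nat_lit 1) (nat_lit 14)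 (.e false (nat_lit 2) (nat_lit 339) (nat_lit 1) (nat_lit 14) (.e false (nat_lit 3) (nat_lit 330) (nat_lit 1) (nat_lit 14) (.e false (nat_lit 1) (nat_lit 334) (nat_lit 1) (nat_lit 14) (.e true (nat_lit 2) (nat_lit 337) (nat_lit 1) (nat_lit 14) (.e true (nat_lit 2) (nat_lit 351) (nat_lit 0) (nat_lit 15) (.e false (nat_lit 1) (nat_lit 193) (nat_lit 5) (nat_lit 10) (.e true (nat_lit 2) (nat_lit 345) (nat_lit 1) (nat_lit 14) (.e true (nat_lit 2) (nat_lit 74) (nat_lit 18) (nat_lit 3) (.e true (nat_lit 3) (nat_lit 181) (nat_lit 5) (nat_lit 10) (.e false (nat_lit 2) (nat_lit 185) (nat_lit 5) (nat_lit 10) (.e false (nat_lit 3) (nat_lit 187) (nat_lit 5) (nat_lit 10) (.e false (nat_lit 3) (nat_lit 186) (nat_lit 5) (nat_lit 10) (.e false (nat_lit 1) (nat_lit 191) (nat_lit 5) (nat_lit 10) (.e true (nat_lit 2) (nat_lit 342) (nat_lit 1) (nat_lit 14) (.u (nat_lit 2) (.n (nat_lit 0) (nat_lit 4) (.p (nat_lit 2) (nat_lit 1) (.n (nat_lit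 3) (nat_lit 6) (.p (nat_lit 4) (nat_lit 1) (.p (nat_lit 5) (nat_lit 4) (.n (nat_lit 6) (nat_lit 2) (.p (nat_lit 8) (nat_lit 2) (.n (nat_lit 9) (nat_lit 1) (.p (nat_lit 10) (nat_lit 3) (.p (nat_lit 11) (nat_lit 4) (.n (nat_lit 12) (nat_lit 6) (.n (nat_lit 14) (nat_lit 1) (.p (nat_lit 15) (nat_lit 1) (.n (nat_lit 16) (nat_lit 1) (.p (nat_lit 17) (nat_lit 5) (.n (nat_lit 18) (nat_lit 2) (.p (nat_lit 19) (nat_lit 3) (.p (nat_lit 20) (nat_lit 2) (.n (nat_lit 21) (nat_lit 1) (.p (nat_lit 22) (nat_lit 3) (.n (nat_lit 26) (nat_lit 1) (.p (nat_lit 27) (nat_lit 1) (.p (nat_lit 29) (nat_lit 7) (.n (nat_lit 32) (nat_lit 2) (.p (nat_lit 33) (nat_lit 5) (.n (nat_lit 44) (nat_lit 1) (.n (nat_lit 45) (nat_lit 1) (.p (nat_lit 46) (nat_lit 1) (.p (nat_lit 47) (nat_lit 1) (.p (nat_lit 48) (nat_lit 1) (.p (nat_lit 62) (nat_lit 1) (.p (nat_lit 63) (nat_lit 1) (.n (nat_lit 64) (nat_lit 1) (.n (nat_lit 65) (nat_lit 1) (.n (nat_lit 66)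 (nat_lit 1) (.p (nat_lit 71) (nat_lit 1) (.p (nat_lit 73) (nat_lit 1) (.n (nat_lit 75) (nat_lit 1) (.p (nat_lit 77) (nat_lit 1) (.p (nat_lit 79) (nat_lit 1) (.n (nat_lit 81) (nat_lit 1) (.n (nat_lit 84) (nat_lit 1) (.p (nat_lit 87) (nat_lit 1) (.n (nat_lit 98) (nat_lit 1) (.n (nat_lit 99) (nat_lit 1) (.p (nat_lit 102) (nat_lit 1) (.p (nat_lit 110) (nat_lit 1) (.n (nat_lit 115) (nat_lit 1) (.p (nat_lit 118) (nat_lit 1) (.n (nat_lit 126) (nat_lit 1) (.n (nat_lit 128) (nat_lit 1) (.n (nat_lit 130) (nat_lit 1) (.n (nat_lit 131) (nat_lit 1) (.n (nat_lit 134) (nat_lit 2) (.p (nat_lit 135) (nat_lit 1) (.n (nat_lit 136) (nat_lit 1) (.p (nat_lit 140) (nat_lit 1) (.p (nat_lit 144) (nat_lit 1) (.n (nat_lit 145) (nat_lit 1) (.n (nat_lit 147) (nat_lit 1) .z)))))))))))))))))))))))))))))))))))))))))))))))))))))))))))) (.u (nat_lit 2) (.p (nat_lit 148) (nat_lit 1) (.p (nat_lit 158) (nat_lit 1) (.n (nat_lit 159) (nat_lit 1) (.p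 (nat_lit 162) (nat_lit 1) (.n (nat_lit 163) (nat_lit 1) (.n (nat_lit 165) (nat_lit 1) (.n (nat_lit 167) (nat_lit 1) (.n (nat_lit 173) (nat_lit 1) (.p (nat_lit 174) (nat_lit 12) (.p (nat_lit 176) (nat_lit 7) (.p (nat_lit 177) (nat_lit 6) (.p (nat_lit 178) (nat_lit 5) (.p (nat_lit 180) (nat_lit 1) (.n (nat_lit 181) (nat_lit 4) (.p (nat_lit 182) (nat_lit 6) (.n (nat_lit 183) (nat_lit 3) (.n (nat_lit 184) (nat_lit 8) (.p (nat_lit 185) (nat_lit 4) (.n (nat_lit 186) (nat_lit 5) (.n (nat_lit 187) (nat_lit 7) (.p (nat_lit 188) (nat_lit 7) (.p (nat_lit 189) (nat_lit 3) (.p (nat_lit 190) (nat_lit 9) (.p (nat_lit 191) (nat_lit 13) (.n (nat_lit 192) (nat_lit 2) (.p (nat_lit 193) (nat_lit 1) (.n (nat_lit 194) (nat_lit 6) (.n (nat_lit 195) (nat_lit 2) (.n (nat_lit 196) (nat_lit 4) (.n (nat_lit 197) (nat_lit 2) (.n (nat_lit 198) (nat_lit 4) (.n (nat_lit 199) (nat_lit 13) (.n (nat_lit 200) (nat_lit 14) (.p (nat_lit 201) (nat_lit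 1) (.p (nat_lit 202) (nat_lit 4) (.n (nat_lit 203) (nat_lit 7) (.p (nat_lit 204) (nat_lit 3) (.p (nat_lit 205) (nat_lit 2) (.n (nat_lit 206) (nat_lit 3) (.p (nat_lit 207) (nat_lit 9) (.p (nat_lit 208) (nat_lit 1) (.n (nat_lit 210) (nat_lit 1) (.p (nat_lit 211) (nat_lit 5) (.p (nat_lit 212) (nat_lit 8) (.p (nat_lit 213) (nat_lit 2) (.n (nat_lit 214) (nat_lit 1) (.n (nat_lit 216) (nat_lit 1) (.p (nat_lit 220) (nat_lit 1) (.n (nat_lit 221) (nat_lit 1) (.n (nat_lit 223) (nat_lit 1) (.n (nat_lit 224) (nat_lit 1) (.n (nat_lit 225) (nat_lit 1) (.p (nat_lit 226) (nat_lit 1) (.p (nat_lit 227) (nat_lit 2) (.n (nat_lit 229) (nat_lit 1) .z))))))))))))))))))))))))))))))))))))))))))))))))))))))) .nil)))))))))))))))))))))))))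

noncomputable def dC1d_i479 : IL := (.s false (nat_lit 2) (nat_lit 97) (nat_lit 0) (nat_lit 2) (nat_lit 2) true (nat_lit 11) true (nat_lit 13) false (nat_lit 5) true (nat_lit 15) true (nat_lit 13) (.s true (nat_lit 1) (nat_lit 93) (nat_lit 2) (nat_lit 0) (nat_lit 2) true (nat_lit 9) true (nat_lit 13) false (nat_lit 5) true (nat_lit 13) true (nat_lit 15) (.s false (nat_lit 1) (nat_lit 93) (nat_lit 2) (nat_lit 2) (nat_lit 0) true (nat_lit 11) true (nat_lit 15) false (nat_lit 5) true (nat_lit 13) true (nat_lit 13) (.s false (nat_lit 1) (nat_lit 98) (nat_lit 1) (nat_lit 1) (nat_lit 2) true (nat_lit 10) true (nat_lit 13) false (nat_lit 6) true (nat_lit 14) true (nat_lit 14) (.s false (nat_lit 2) (nat_lit 100) (nat_lit 1) (nat_lit 2) (nat_lit 1) false (nat_lit 16) true (nat_lit 14) false (nat_lit 6) true (nat_lit 14) true (nat_lit 13) (.s false (nat_lit 3) (nat_lit 104) (nat_lit 0) (nat_lit 2) (nat_lit 1) true (nat_lit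 12) true (nat_lit 14) false (nat_lit 7) true (nat_lit 15) true (nat_lit 13) (.s true (nat_lit 2) (nat_lit 103) (nat_lit 2) (nat_lit 1) (nat_lit 0) true (nat_lit 11) true (nat_lit 15) false (nat_lit 7) true (nat_lit 13) true (nat_lit 14) (.s false (nat_lit 2) (nat_lit 105) (nat_lit 2) (nat_lit 1) (nat_lit 0) true (nat_lit 11) true (nat_lit 15) false (nat_lit 7) true (nat_lit 13) true (nat_lit 14) (.e true (nat_lit 2) (nat_lit 172) (nat_lit 6) (nat_lit 9) (.e false (nat_lit 2) (nat_lit 290) (nat_lit 2) (nat_lit 13) (.e true (nat_lit 2) (nat_lit 291) (nat_lit 2) (nat_lit 13) (.e false (nat_lit 3) (nat_lit 298) (nat_lit 2) (nat_lit 13) (.e false (nat_lit 2) (nat_lit 307) (nat_lit 2) (nat_lit 13) (.e true (nat_lit 3) (nat_lit 309) (nat_lit 2) (nat_lit 13) (.e false (nat_lit 1) (nat_lit 316) (nat_lit 2) (nat_lit 13) (.e true (nat_lit 3) (nat_lit 317) (nat_lit 2) (nat_lit 13) (.e false (nat_lit 2) (nat_lit 318) (nat_lit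 2) (nat_lit 13) (.e false (nat_lit 3) (nat_lit 170) (nat_lit 6) (nat_lit 9) (.e false (nat_lit 1) (nat_lit 171) (nat_lit 6) (nat_lit 9) (.e false (nat_lit 2) (nat_lit 292) (nat_lit 2) (nat_lit 13) (.e true (nat_lit 3) (nat_lit 294) (nat_lit 2) (nat_lit 13) (.e true (nat_lit 1) (nat_lit 302) (nat_lit 2) (nat_lit 13) (.e true (nat_lit 1) (nat_lit 347) (nat_lit 0) (nat_lit 15) (.e false (nat_lit 3) (nat_lit 348) (nat_lit 0) (nat_lit 15) (.e false (nat_lit 2) (nat_lit 350) (nat_lit 0) (nat_lit 15) dC1d_i478)))))))))))))))))))))))))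

noncomputable def dC1d_i480 : IL := (.s false (nat_lit 1) (nat_lit 46) (nat_lit 2) (nat_lit 3) (nat_lit 1) true (nat_lit 10) true (nat_lit 14) false (nat_lit 2) true (nat_lit 13) true (nat_lit 12) (.s true (nat_lit 1) (nat_lit 46) (nat_lit 3) (nat_lit 1) (nat_lit 2) true (nat_lit 7) true (nat_lit 13) false (nat_lit 2) true (nat_lit 12) true (nat_lit 14) (.s true (nat_lit 2) (nat_lit 46) (nat_lit 3) (nat_lit 2) (nat_lit 1) true (nat_lit 8) true (nat_lit 14) false (nat_lit 2) true (nat_lit 12) true (nat_lit 13) (.s true (nat_lit 2) (nat_lit 46) (nat_lit 4) (nat_lit 1) (nat_lit 1) true (nat_lit 7) true (nat_lit 14) false (nat_lit 2) true (nat_lit 11) true (nat_lit 14) (.s false (nat_lit 3) (nat_lit 46) (nat_lit 5) (nat_lit 0) (nat_lit 1) true (nat_lit 6) true (nat_lit 14) false (nat_lit 2) true (nat_lit 10) true (nat_lit 15) (.s false (nat_lit 2) (nat_lit 46) (nat_lit 5) (nat_lit 1) (nat_lit 0) true (nat_lit 7) true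 (nat_lit 15) false (nat_lit 2) true (nat_lit 10) true (nat_lit 14) (.s true (nat_lit 3) (nat_lit 70) (nat_lit 2) (nat_lit 2) (nat_lit 2) true (nat_lit 9) true (nat_lit 13) false (nat_lit 3) true (nat_lit 13) true (nat_lit 13) (.s true (nat_lit 2) (nat_lit 71) (nat_lit 2) (nat_lit 2) (nat_lit 2) true (nat_lit 9) true (nat_lit 13) false (nat_lit 3) true (nat_lit 13) true (nat_lit 13) (.s true (nat_lit 2) (nat_lit 72) (nat_lit 2) (nat_lit 2) (nat_lit 2) true (nat_lit 9) true (nat_lit 13) false (nat_lit 3) true (nat_lit 13) true (nat_lit 13) (.s true (nat_lit 3) (nat_lit 73) (nat_lit 2) (nat_lit 2) (nat_lit 2) true (nat_lit 9) true (nat_lit 13) false (nat_lit 3) true (nat_lit 13) true (nat_lit 13) (.s true (nat_lit 2) (nat_lit 75) (nat_lit 2) (nat_lit 2) (nat_lit 2) true (nat_lit 9) true (nat_lit 13) false (nat_lit 3) true (nat_lit 13) true (nat_lit 13) (.s false (nat_lit 1) (nat_lit 76) (nat_lit 2) (nat_lit 2) (nat_lit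 2) true (nat_lit 9) true (nat_lit 13) false (nat_lit 3) true (nat_lit 13) true (nat_lit 13) (.s true (nat_lit 1) (nat_lit 82) (nat_lit 1) (nat_lit 2) (nat_lit 2) true (nat_lit 10) true (nat_lit 13) false (nat_lit 4) true (nat_lit 14) true (nat_lit 13) (.s false (nat_lit 3) (nat_lit 84) (nat_lit 1) (nat_lit 2) (nat_lit 2) true (nat_lit 10) true (nat_lit 13) false (nat_lit 4) true (nat_lit 14) true (nat_lit 13) (.s false (nat_lit 3) (nat_lit 85) (nat_lit 1) (nat_lit 2) (nat_lit 2) true (nat_lit 10) true (nat_lit 13) false (nat_lit 4) true (nat_lit 14) true (nat_lit 13) (.s true (nat_lit 2) (nat_lit 87) (nat_lit 1) (nat_lit 2) (nat_lit 2) true (nat_lit 10) true (nat_lit 13) false (nat_lit 4) true (nat_lit 14) true (nat_lit 13) (.s false (nat_lit 3) (nat_lit 89) (nat_lit 1) (nat_lit 2) (nat_lit 2) true (nat_lit 10) true (nat_lit 13) false (nat_lit 4) true (nat_lit 14) true (nat_lit 13) (.s true (nat_lit 3) (nat_lit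 90) (nat_lit 1) (nat_lit 2) (nat_lit 2) true (nat_lit 10) true (nat_lit 13) false (nat_lit 4) true (nat_lit 14) true (nat_lit 13) (.s false (nat_lit 1) (nat_lit 82) (nat_lit 2) (nat_lit 1) (nat_lit 2) true (nat_lit 9) true (nat_lit 13) false (nat_lit 4) true (nat_lit 13) true (nat_lit 14) (.s false (nat_lit 1) (nat_lit 90) (nat_lit 2) (nat_lit 1) (nat_lit 2) true (nat_lit 9) true (nat_lit 13) false (nat_lit 4) true (nat_lit 13) true (nat_lit 14) (.s true (nat_lit 1) (nat_lit 82) (nat_lit 2) (nat_lit 2) (nat_lit 1) true (nat_lit 10) true (nat_lit 14) false (nat_lit 4) true (nat_lit 13) true (nat_lit 13) (.s true (nat_lit 1) (nat_lit 87) (nat_lit 2) (nat_lit 2) (nat_lit 1) true (nat_lit 10) true (nat_lit 14) false (nat_lit 4) true (nat_lit 13) true (nat_lit 13) (.s false (nat_lit 3) (nat_lit 88) (nat_lit 2) (nat_lit 2) (nat_lit 1) true (nat_lit 10) true (nat_lit 14) false (nat_lit 4) true (nat_lit 13) true (nat_lit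 13) (.s true (nat_lit 1) (nat_lit 93) (nat_lit 0) (nat_lit 2) (nat_lit 2) true (nat_lit 11) true (nat_lit 13) false (nat_lit 5) true (nat_lit 15) true (nat_lit 13) (.s true (nat_lit 2) (nat_lit 95) (nat_lit 0) (nat_lit 2) (nat_lit 2) true (nat_lit 11) true (nat_lit 13) false (nat_lit 5) true (nat_lit 15) true (nat_lit 13) dC1d_i479)))))))))))))))))))))))))

noncomputable def dC1d_i481 : IL := (.s false (nat_lit 3) (nat_lit 24) (nat_lit 2) (nat_lit 2) (nat_lit 6) true (nat_lit 3) true (nat_lit 9) true (nat_lit 2) true (nat_lit 13) true (nat_lit 13) (.s false (nat_lit 1) (nat_lit 25) (nat_lit 2) (nat_lit 2) (nat_lit 6) true (nat_lit 3) true (nat_lit 9) true (nat_lit 2) true (nat_lit 13) true (nat_lit 13) (.s false (nat_lit 3) (nat_lit 26) (nat_lit 2) (nat_lit 2) (nat_lit 6) true (nat_lit 3) true (nat_lit 9) true (nat_lit 2) true (nat_lit 13) true (nat_lit 13) (.s true (nat_lit 3) (nat_lit 27) (nat_lit 2) (nat_lit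 2) (nat_lit 6) true (nat_lit 3) true (nat_lit 9) true (nat_lit 2) true (nat_lit 13) true (nat_lit 13) (.s true (nat_lit 3) (nat_lit 25) (nat_lit 2) (nat_lit 6) (nat_lit 2) true (nat_lit 9) true (nat_lit 13) true (nat_lit 2) true (nat_lit 13) true (nat_lit 9) (.s true (nat_lit 3) (nat_lit 26) (nat_lit 2) (nat_lit 6) (nat_lit 2) true (nat_lit 9) true (nat_lit 13) true (nat_lit 2) true (nat_lit 13) true (nat_lit 9) (.s false (nat_lit 3) (nat_lit 31) (nat_lit 1) (nat_lit 2) (nat_lit 6) true (nat_lit 4) true (nat_lit 9) true (nat_lit 1) true (nat_lit 14) true (nat_lit 13) (.s true (nat_lit 1) (nat_lit 36) (nat_lit 1) (nat_lit 2) (nat_lit 6) true (nat_lit 4) true (nat_lit 9) true (nat_lit 1) true (nat_lit 14) true (nat_lit 13) (.s false (nat_lit 3) (nat_lit 31) (nat_lit 1) (nat_lit 6) (nat_lit 2) true (nat_lit 10) true (nat_lit 13) true (nat_lit 1) true (nat_lit 14) true (nat_lit 9) (.s true (nat_lit 3) (nat_lit 32) (nat_lit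 1) (nat_lit 6) (nat_lit 2) true (nat_lit 10) true (nat_lit 13) true (nat_lit 1) true (nat_lit 14) true (nat_lit 9) (.s false (nat_lit 3) (nat_lit 34) (nat_lit 2) (nat_lit 1) (nat_lit 6) true (nat_lit 3) true (nat_lit 9) true (nat_lit 1) true (nat_lit 13) true (nat_lit 14) (.s false (nat_lit 2) (nat_lit 31) (nat_lit 2) (nat_lit 2) (nat_lit 5) true (nat_lit 4) true (nat_lit 10) true (nat_lit 1) true (nat_lit 13) true (nat_lit 13) (.s true (nat_lit 3) (nat_lit 32) (nat_lit 2) (nat_lit 2) (nat_lit 5) true (nat_lit 4) true (nat_lit 10) true (nat_lit 1) true (nat_lit 13) true (nat_lit 13) (.s false (nat_lit 1) (nat_lit 34) (nat_lit 2) (nat_lit 2) (nat_lit 5) true (nat_lit 4) true (nat_lit 10) true (nat_lit 1) true (nat_lit 13) true (nat_lit 13) (.s false (nat_lit 1) (nat_lit 36) (nat_lit 2) (nat_lit 2) (nat_lit 5) true (nat_lit 4) true (nat_lit 10) true (nat_lit 1) true (nat_lit 13) true (nat_lit 13) (.s false (nat_lit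 3) (nat_lit 32) (nat_lit 2) (nat_lit 5) (nat_lit 2) true (nat_lit 9) true (nat_lit 13) true (nat_lit 1) true (nat_lit 13) true (nat_lit 10) (.s true (nat_lit 3) (nat_lit 31) (nat_lit 5) (nat_lit 2) (nat_lit 2) true (nat_lit 4) true (nat_lit 13) true (nat_lit 1) true (nat_lit 10) true (nat_lit 13) (.s false (nat_lit 2) (nat_lit 32) (nat_lit 5) (nat_lit 2) (nat_lit 2) true (nat_lit 4) true (nat_lit 13) true (nat_lit 1) true (nat_lit 10) true (nat_lit 13) (.s false (nat_lit 1) (nat_lit 37) (nat_lit 0) (nat_lit 2) (nat_lit 6) true (nat_lit 5) true (nat_lit 9) true (nat_lit 0) true (nat_lit 15) true (nat_lit 13) (.s false (nat_lit 2) (nat_lit 37) (nat_lit 0) (nat_lit 6) (nat_lit 2) true (nat_lit 11) true (nat_lit 13) true (nat_lit 0) true (nat_lit 15) true (nat_lit 9) (.s true (nat_lit 1) (nat_lit 39) (nat_lit 2) (nat_lit 4) (nat_lit 2) true (nat_lit 9) true (nat_lit 13) true (nat_lit 0) true (nat_lit 13) true (nat_lit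 11) (.s true (nat_lit 1) (nat_lit 40) (nat_lit 6) (nat_lit 1) (nat_lit 1) true (nat_lit 4) true (nat_lit 14) false (nat_lit 0) true (nat_lit 9) true (nat_lit 14) (.s false (nat_lit 1) (nat_lit 44) (nat_lit 2) (nat_lit 3) (nat_lit 2) true (nat_lit 9) true (nat_lit 13) false (nat_lit 1) true (nat_lit 13) true (nat_lit 12) (.s false (nat_lit 3) (nat_lit 46) (nat_lit 1) (nat_lit 3) (nat_lit 2) true (nat_lit 10) true (nat_lit 13) false (nat_lit 2) true (nat_lit 14) true (nat_lit 12) (.s true (nat_lit 1) (nat_lit 46) (nat_lit 1) (nat_lit 4) (nat_lit 1) false (nat_lit 16) true (nat_lit 14) false (nat_lit 2) true (nat_lit 14) true (nat_lit 11) dC1d_i480)))))))))))))))))))))))))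

noncomputable def dC1d_i482 : IL := (.s true (nat_lit 1) (nat_lit 11) (nat_lit 1) (nat_lit 6) (nat_lit 6) true (nat_lit 4) true (nat_lit 9) true (nat_lit 7) true (nat_lit 14) true (nat_lit 9) (.s true (nat_lit 1) (nat_lit 11) (nat_lit 6) (nat_lit 2) (nat_lit 5) false (nat_lit 1) true (nat_lit 10) true (nat_lit 7) true (nat_lit 9) true (nat_lit 13) (.s true (nat_lit 1) (nat_lit 11) (nat_lit 6) (nat_lit 6) (nat_lit 1) true (nat_lit 4) true (nat_lit 14) true (nat_lit 7) true (nat_lit 9) true (nat_lit 9) (.s true (nat_lit 3) (nat_lit 13) (nat_lit 6) (nat_lit 2) (nat_lit 4) false (nat_lit 0) true (nat_lit 11) true (nat_lit 6) true (nat_lit 9) true (nat_lit 13) (.s false (nat_lit 3) (nat_lit 16) (nat_lit 0) (nat_lit 16) (nat_lit 2) true (nat_lit 11) true (nat_lit 13) true (nat_lit 4) true (nat_lit 15) true (nat_lit 4) (.s true (nat_lit 1) (nat_lit 16) (nat_lit 2) (nat_lit 6) (nat_lit 3) true (nat_lit 7) true (nat_lit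 12) true (nat_lit 4) true (nat_lit 13) true (nat_lit 9) (.s false (nat_lit 3) (nat_lit 17) (nat_lit 2) (nat_lit 10) (nat_lit 2) true (nat_lit 9) true (nat_lit 13) true (nat_lit 4) true (nat_lit 13) true (nat_lit 7) (.s false (nat_lit 3) (nat_lit 16) (nat_lit 10) (nat_lit 2) (nat_lit 2) true (nat_lit 1) true (nat_lit 13) true (nat_lit 4) true (nat_lit 7) true (nat_lit 13) (.s false (nat_lit 2) (nat_lit 16) (nat_lit 11) (nat_lit 2) (nat_lit 2) true (nat_lit 1) true (nat_lit 13) true (nat_lit 4) true (nat_lit 7) true (nat_lit 13) (.s false (nat_lit 2) (nat_lit 17) (nat_lit 14) (nat_lit 2) (nat_lit 1) true (nat_lit 1) true (nat_lit 14) true (nat_lit 4) true (nat_lit 5) true (nat_lit 13) (.s false (nat_lit 1) (nat_lit 18) (nat_lit 0) (nat_lit 2) (nat_lit 13) true (nat_lit 2) true (nat_lit 6) true (nat_lit 3) true (nat_lit 15) true (nat_lit 13) (.s true (nat_lit 2) (nat_lit 18) (nat_lit 1) (nat_lit 11) (nat_lit 2) true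 (nat_lit 10) true (nat_lit 13) true (nat_lit 3) true (nat_lit 14) true (nat_lit 7) (.s false (nat_lit 3) (nat_lit 18) (nat_lit 1) (nat_lit 14) (nat_lit 1) false (nat_lit 16) true (nat_lit 14) true (nat_lit 3) true (nat_lit 14) true (nat_lit 5) (.s false (nat_lit 2) (nat_lit 18) (nat_lit 2) (nat_lit 0) (nat_lit 13) true (nat_lit 0) true (nat_lit 6) true (nat_lit 3) true (nat_lit 13) true (nat_lit 15) (.s false (nat_lit 2) (nat_lit 18) (nat_lit 2) (nat_lit 1) (nat_lit 10) true (nat_lit 1) true (nat_lit 7) true (nat_lit 3) true (nat_lit 13) true (nat_lit 14) (.s true (nat_lit 3) (nat_lit 18) (nat_lit 2) (nat_lit 1) (nat_lit 11) true (nat_lit 1) true (nat_lit 7) true (nat_lit 3) true (nat_lit 13) true (nat_lit 14) (.s true (nat_lit 2) (nat_lit 18) (nat_lit 2) (nat_lit 2) (nat_lit 8) true (nat_lit 2) true (nat_lit 8) true (nat_lit 3) true (nat_lit 13) true (nat_lit 13) (.s true (nat_lit 2) (nat_lit 18) (nat_lit 2) (nat_lit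 3) (nat_lit 5) true (nat_lit 4) true (nat_lit 10) true (nat_lit 3) true (nat_lit 13) true (nat_lit 12) (.s true (nat_lit 1) (nat_lit 18) (nat_lit 2) (nat_lit 11) (nat_lit 1) true (nat_lit 10) true (nat_lit 14) true (nat_lit 3) true (nat_lit 13) true (nat_lit 7) (.s true (nat_lit 3) (nat_lit 18) (nat_lit 2) (nat_lit 13) (nat_lit 0) true (nat_lit 11) true (nat_lit 15) true (nat_lit 3) true (nat_lit 13) true (nat_lit 6) (.s true (nat_lit 3) (nat_lit 18) (nat_lit 3) (nat_lit 2) (nat_lit 5) true (nat_lit 2) true (nat_lit 10) true (nat_lit 3) true (nat_lit 12) true (nat_lit 13) (.s true (nat_lit 3) (nat_lit 18) (nat_lit 3) (nat_lit 6) (nat_lit 1) true (nat_lit 8) true (nat_lit 14) true (nat_lit 3) true (nat_lit 12) true (nat_lit 9) (.s false (nat_lit 2) (nat_lit 18) (nat_lit 5) (nat_lit 4) (nat_lit 1) true (nat_lit 6) true (nat_lit 14) true (nat_lit 3) true (nat_lit 10) true (nat_lit 11) (.s false (nat_lit 2) (nat_lit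 18) (nat_lit 8) (nat_lit 2) (nat_lit 2) true (nat_lit 2) true (nat_lit 13) true (nat_lit 3) true (nat_lit 8) true (nat_lit 13) (.s false (nat_lit 2) (nat_lit 18) (nat_lit 14) (nat_lit 1) (nat_lit 1) true (nat_lit 1) true (nat_lit 14) true (nat_lit 3) true (nat_lit 5) true (nat_lit 14) dC1d_i481)))))))))))))))))))))))))

noncomputable def dC1d_i483 : IL := (.e true (nat_lit 2) (nat_lit 265) (nat_lit 2) (nat_lit 13) (.e false (nat_lit 2) (nat_lit 266) (nat_lit 2) (nat_lit 13) (.e false (nat_lit 3) (nat_lit 268) (nat_lit 2) (nat_lit 13) (.e true (nat_lit 1) (nat_lit 270) (nat_lit 2) (nat_lit 13) (.e false (nat_lit 1) (nat_lit 271) (nat_lit 2) (nat_lit 13) (.e true (nat_lit 3) (nat_lit 272) (nat_lit 2) (nat_lit 13) (.e false (nat_lit 2) (nat_lit 273) (nat_lit 2) (nat_lit 13) (.e true (nat_lit 2) (nat_lit 274) (nat_lit 2) (nat_lit 13) (.e true (nat_lit 3) (nat_lit 278) (nat_lit 2) (nat_lit 13) (.e false (nat_lit 2) (nat_lit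 284) (nat_lit 2) (nat_lit 13) (.e false (nat_lit 3) (nat_lit 286) (nat_lit 2) (nat_lit 13) (.e true (nat_lit 2) (nat_lit 264) (nat_lit 2) (nat_lit 13) (.e true (nat_lit 1) (nat_lit 149) (nat_lit 6) (nat_lit 9) (.e true (nat_lit 1) (nat_lit 328) (nat_lit 0) (nat_lit 15) (.e true (nat_lit 1) (nat_lit 330) (nat_lit 0) (nat_lit 15) (.e false (nat_lit 1) (nat_lit 332) (nat_lit 0) (nat_lit 15) (.e true (nat_lit 2) (nat_lit 333) (nat_lit 0) (nat_lit 15) (.e false (nat_lit 1) (nat_lit 338) (nat_lit 0) (nat_lit 15) (.e false (nat_lit 2) (nat_lit 340) (nat_lit 0) (nat_lit 15) (.e false (nat_lit 1) (nat_lit 320) (nat_lit 1) (nat_lit 14) (.e true (nat_lit 1) (nat_lit 329) (nat_lit 0) (nat_lit 15) (.e true (nat_lit 3) (nat_lit 345) (nat_lit 0) (nat_lit 15) (.e false (nat_lit 1) (nat_lit 189) (nat_lit 4) (nat_lit 11) (.u (nat_lit 2) (.p (nat_lit 0) (nat_lit 1) (.p (nat_lit 1) (nat_lit 2) (.n (nat_lit 2) (nat_lit 4) (.n (nat_lit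 3) (nat_lit 5) (.p (nat_lit 4) (nat_lit 1) (.p (nat_lit 5) (nat_lit 3) (.p (nat_lit 6) (nat_lit 1) (.p (nat_lit 7) (nat_lit 1) (.n (nat_lit 8) (nat_lit 1) (.p (nat_lit 10) (nat_lit 3) (.n (nat_lit 15) (nat_lit 4) (.n (nat_lit 16) (nat_lit 1) (.n (nat_lit 17) (nat_lit 1) (.n (nat_lit 18) (nat_lit 2) (.p (nat_lit 21) (nat_lit 1) (.n (nat_lit 22) (nat_lit 1) (.p (nat_lit 23) (nat_lit 1) (.n (nat_lit 24) (nat_lit 1) (.p (nat_lit 26) (nat_lit 1) (.p (nat_lit 27) (nat_lit 1) (.n (nat_lit 30) (nat_lit 1) (.n (nat_lit 38) (nat_lit 1) (.n (nat_lit 39) (nat_lit 1) (.n (nat_lit 42) (nat_lit 1) (.n (nat_lit 61) (nat_lit 1) (.n (nat_lit 62) (nat_lit 1) (.p (nat_lit 63) (nat_lit 1) (.p (nat_lit 65) (nat_lit 1) (.p (nat_lit 66) (nat_lit 1) (.n (nat_lit 67) (nat_lit 2) (.p (nat_lit 68) (nat_lit 1) (.n (nat_lit 69) (nat_lit 1) (.n (nat_lit 73) (nat_lit 1) (.p (nat_lit 75) (nat_lit 2) (.p (nat_lit 113) (nat_lit 1) (.p (nat_lit 114)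 (nat_lit 1) (.n (nat_lit 115) (nat_lit 1) (.p (nat_lit 117) (nat_lit 1) (.p (nat_lit 118) (nat_lit 1) (.p (nat_lit 121) (nat_lit 1) (.p (nat_lit 122) (nat_lit 1) (.p (nat_lit 126) (nat_lit 1) (.n (nat_lit 127) (nat_lit 1) (.n (nat_lit 128) (nat_lit 1) (.n (nat_lit 129) (nat_lit 2) (.n (nat_lit 130) (nat_lit 1) (.p (nat_lit 131) (nat_lit 1) (.n (nat_lit 132) (nat_lit 1) (.n (nat_lit 133) (nat_lit 1) (.p (nat_lit 135) (nat_lit 1) (.p (nat_lit 136) (nat_lit 1) (.p (nat_lit 145) (nat_lit 1) (.p (nat_lit 162) (nat_lit 1) (.n (nat_lit 166) (nat_lit 1) (.p (nat_lit 173) (nat_lit 2) (.n (nat_lit 174) (nat_lit 6) (.p (nat_lit 175) (nat_lit 15) (.p (nat_lit 176) (nat_lit 5) (.n (nat_lit 177) (nat_lit 10) (.p (nat_lit 178) (nat_lit 7) .z)))))))))))))))))))))))))))))))))))))))))))))))))))))))))))) (.u (nat_lit 2) (.p (nat_lit 179) (nat_lit 5) (.n (nat_lit 180) (nat_lit 6) (.n (nat_lit 181) (nat_lit 5) (.p (nat_lit 182) (nat_lit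 1) (.p (nat_lit 183) (nat_lit 8) (.n (nat_lit 184) (nat_lit 1) (.p (nat_lit 185) (nat_lit 6) (.n (nat_lit 186) (nat_lit 9) (.p (nat_lit 187) (nat_lit 13) (.n (nat_lit 188) (nat_lit 4) (.p (nat_lit 189) (nat_lit 2) (.n (nat_lit 190) (nat_lit 18) (.n (nat_lit 191) (nat_lit 5) (.p (nat_lit 194) (nat_lit 3) (.p (nat_lit 195) (nat_lit 2) (.p (nat_lit 196) (nat_lit 1) (.n (nat_lit 198) (nat_lit 3) (.n (nat_lit 199) (nat_lit 3) (.n (nat_lit 200) (nat_lit 2) (.n (nat_lit 201) (nat_lit 2) (.p (nat_lit 204) (nat_lit 2) (.n (nat_lit 205) (nat_lit 1) (.p (nat_lit 207) (nat_lit 1) (.n (nat_lit 208) (nat_lit 1) (.n (nat_lit 211) (nat_lit 1) (.p (nat_lit 212) (nat_lit 4) (.n (nat_lit 214) (nat_lit 2) (.p (nat_lit 215) (nat_lit 2) (.p (nat_lit 216) (nat_lit 5) (.p (nat_lit 217) (nat_lit 2) (.p (nat_lit 218) (nat_lit 2) (.p (nat_lit 219) (nat_lit 1) (.n (nat_lit 220) (nat_lit 1) (.n (nat_lit 221) (nat_lit 2) (.n (nat_lit 223) (nat_lit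 1) (.n (nat_lit 224) (nat_lit 1) (.p (nat_lit 228) (nat_lit 1) .z))))))))))))))))))))))))))))))))))))) .nil)))))))))))))))))))))))))

noncomputable def dC1d_i484 : IL := (.s false (nat_lit 3) (nat_lit 64) (nat_lit 2) (nat_lit 2) (nat_lit 2) true (nat_lit 9) true (nat_lit 13) false (nat_lit 3) true (nat_lit 13) true (nat_lit 13) (.s true (nat_lit 2) (nat_lit 82) (nat_lit 0) (nat_lit 2) (nat_lit 2) true (nat_lit 11) true (nat_lit 13) false (nat_lit 5) true (nat_lit 15) true (nat_lit 13) (.s true (nat_lit 1) (nat_lit 84) (nat_lit 0) (nat_lit 2) (nat_lit 2) true (nat_lit 11) true (nat_lit 13) false (nat_lit 5) true (nat_lit 15) true (nat_lit 13) (.s false (nat_lit 3) (nat_lit 92) (nat_lit 0) (nat_lit 2) (nat_lit 2) true (nat_lit 11) true (nat_lit 13) false (nat_lit 5) true (nat_lit 15) true (nat_lit 13) (.s true (nat_lit 1) (nat_lit 90) (nat_lit 2) (nat_lit 2) (nat_lit 0) true (nat_lit 11) true (nat_lit 15) false (nat_lit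 5) true (nat_lit 13) true (nat_lit 13) (.s false (nat_lit 2) (nat_lit 91) (nat_lit 2) (nat_lit 2) (nat_lit 0) true (nat_lit 11) true (nat_lit 15) false (nat_lit 5) true (nat_lit 13) true (nat_lit 13) (.s true (nat_lit 3) (nat_lit 92) (nat_lit 2) (nat_lit 2) (nat_lit 0) true (nat_lit 11) true (nat_lit 15) false (nat_lit 5) true (nat_lit 13) true (nat_lit 13) (.s false (nat_lit 1) (nat_lit 99) (nat_lit 0) (nat_lit 2) (nat_lit 1) true (nat_lit 12) true (nat_lit 14) false (nat_lit 6) true (nat_lit 15) true (nat_lit 13) (.s true (nat_lit 1) (nat_lit 101) (nat_lit 0) (nat_lit 2) (nat_lit 1) true (nat_lit 12) true (nat_lit 14) false (nat_lit 6) true (nat_lit 15) true (nat_lit 13) (.s false (nat_lit 2) (nat_lit 99) (nat_lit 1) (nat_lit 2) (nat_lit 0) true (nat_lit 12) true (nat_lit 15) false (nat_lit 6) true (nat_lit 14) true (nat_lit 13) (.s false (nat_lit 1) (nat_lit 100) (nat_lit 1) (nat_lit 2) (nat_lit 0) true (nat_lit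 12) true (nat_lit 15) false (nat_lit 6) true (nat_lit 14) true (nat_lit 13) (.s true (nat_lit 2) (nat_lit 101) (nat_lit 1) (nat_lit 2) (nat_lit 0) true (nat_lit 12) true (nat_lit 15) false (nat_lit 6) true (nat_lit 14) true (nat_lit 13) (.s false (nat_lit 1) (nat_lit 103) (nat_lit 0) (nat_lit 2) (nat_lit 0) false (nat_lit 16) true (nat_lit 15) false (nat_lit 7) true (nat_lit 15) true (nat_lit 13) (.s false (nat_lit 1) (nat_lit 104) (nat_lit 0) (nat_lit 2) (nat_lit 0) false (nat_lit 16) true (nat_lit 15) false (nat_lit 7) true (nat_lit 15) true (nat_lit 13) (.s true (nat_lit 1) (nat_lit 105) (nat_lit 0) (nat_lit 2) (nat_lit 0) false (nat_lit 16) true (nat_lit 15) false (nat_lit 7) true (nat_lit 15) true (nat_lit 13) (.s true (nat_lit 1) (nat_lit 106) (nat_lit 0) (nat_lit 1) (nat_lit 0) false (nat_lit 16) true (nat_lit 15) false (nat_lit 8) true (nat_lit 15) true (nat_lit 14) (.e false (nat_lit 2) (nat_lit 142) (nat_lit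 6) (nat_lit 9) (.e true (nat_lit 3) (nat_lit 150) (nat_lit 6) (nat_lit 9) (.e true (nat_lit 2) (nat_lit 323) (nat_lit 1) (nat_lit 14) (.e false (nat_lit 1) (nat_lit 324) (nat_lit 1) (nat_lit 14) (.e true (nat_lit 2) (nat_lit 321) (nat_lit 1) (nat_lit 14) (.e false (nat_lit 2) (nat_lit 322) (nat_lit 1) (nat_lit 14) (.e true (nat_lit 2) (nat_lit 261) (nat_lit 2) (nat_lit 13) (.e false (nat_lit 2) (nat_lit 262) (nat_lit 2) (nat_lit 13) (.e false (nat_lit 3) (nat_lit 263) (nat_lit 2) (nat_lit 13) dC1d_i483)))))))))))))))))))))))))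

noncomputable def dC1d_i485 : IL := (.s true (nat_lit 1) (nat_lit 20) (nat_lit 2) (nat_lit 2) (nat_lit 6) true (nat_lit 3) true (nat_lit 9) true (nat_lit 2) true (nat_lit 13) true (nat_lit 13) (.s true (nat_lit 3) (nat_lit 21) (nat_lit 2) (nat_lit 2) (nat_lit 6) true (nat_lit 3) true (nat_lit 9) true (nat_lit 2) true (nat_lit 13) true (nat_lit 13) (.s true (nat_lit 3) (nat_lit 23) (nat_lit 2) (nat_lit 2) (nat_lit 6) true (nat_lit 3) true (nat_lit 9) true (nat_lit 2) true (nat_lit 13) true (nat_lit 13) (.s false (nat_lit 1) (nat_lit 21) (nat_lit 2) (nat_lit 6) (nat_lit 2) true (nat_lit 9) true (nat_lit 13) true (nat_lit 2) true (nat_lit 13) true (nat_lit 9) (.s true (nat_lit 2) (nat_lit 22) (nat_lit 6) (nat_lit 2) (nat_lit 2) true (nat_lit 3) true (nat_lit 13) true (nat_lit 2) true (nat_lit 9) true (nat_lit 13) (.s false (nat_lit 1) (nat_lit 28) (nat_lit 2) (nat_lit 1) (nat_lit 6) true (nat_lit 3) true (nat_lit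 9) true (nat_lit 1) true (nat_lit 13) true (nat_lit 14) (.s false (nat_lit 1) (nat_lit 28) (nat_lit 2) (nat_lit 2) (nat_lit 5) true (nat_lit 4) true (nat_lit 10) true (nat_lit 1) true (nat_lit 13) true (nat_lit 13) (.s false (nat_lit 1) (nat_lit 28) (nat_lit 2) (nat_lit 5) (nat_lit 2) true (nat_lit 9) true (nat_lit 13) true (nat_lit 1) true (nat_lit 13) true (nat_lit 10) (.s true (nat_lit 1) (nat_lit 31) (nat_lit 0) (nat_lit 2) (nat_lit 6) true (nat_lit 5) true (nat_lit 9) true (nat_lit 0) true (nat_lit 15) true (nat_lit 13) (.s false (nat_lit 3) (nat_lit 32) (nat_lit 0) (nat_lit 2) (nat_lit 6) true (nat_lit 5) true (nat_lit 9) true (nat_lit 0) true (nat_lit 15) true (nat_lit 13) (.s false (nat_lit 2) (nat_lit 31) (nat_lit 0) (nat_lit 6) (nat_lit 2) true (nat_lit 11) true (nat_lit 13) true (nat_lit 0) true (nat_lit 15) true (nat_lit 9) (.s true (nat_lit 2) (nat_lit 32) (nat_lit 0) (nat_lit 6) (nat_lit 2) true (nat_lit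 11) true (nat_lit 13) true (nat_lit 0) true (nat_lit 15) true (nat_lit 9) (.s false (nat_lit 1) (nat_lit 31) (nat_lit 2) (nat_lit 0) (nat_lit 6) true (nat_lit 3) true (nat_lit 9) true (nat_lit 0) true (nat_lit 13) true (nat_lit 15) (.s true (nat_lit 1) (nat_lit 32) (nat_lit 2) (nat_lit 0) (nat_lit 6) true (nat_lit 3) true (nat_lit 9) true (nat_lit 0) true (nat_lit 13) true (nat_lit 15) (.s false (nat_lit 2) (nat_lit 31) (nat_lit 2) (nat_lit 2) (nat_lit 4) true (nat_lit 5) true (nat_lit 11) true (nat_lit 0) true (nat_lit 13) true (nat_lit 13) (.s false (nat_lit 1) (nat_lit 33) (nat_lit 2) (nat_lit 2) (nat_lit 4) true (nat_lit 5) true (nat_lit 11) true (nat_lit 0) true (nat_lit 13) true (nat_lit 13) (.s false (nat_lit 3) (nat_lit 32) (nat_lit 2) (nat_lit 6) (nat_lit 0) true (nat_lit 11) true (nat_lit 15) true (nat_lit 0) true (nat_lit 13) true (nat_lit 9) (.s false (nat_lit 1) (nat_lit 33) (nat_lit 2) (nat_lit 6)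 (nat_lit 0) true (nat_lit 11) true (nat_lit 15) true (nat_lit 0) true (nat_lit 13) true (nat_lit 9) (.s true (nat_lit 3) (nat_lit 32) (nat_lit 4) (nat_lit 2) (nat_lit 2) true (nat_lit 5) true (nat_lit 13) true (nat_lit 0) true (nat_lit 11) true (nat_lit 13) (.s false (nat_lit 2) (nat_lit 33) (nat_lit 4) (nat_lit 2) (nat_lit 2) true (nat_lit 5) true (nat_lit 13) true (nat_lit 0) true (nat_lit 11) true (nat_lit 13) (.s false (nat_lit 1) (nat_lit 46) (nat_lit 5) (nat_lit 0) (nat_lit 0) true (nat_lit 6) true (nat_lit 15) false (nat_lit 2) true (nat_lit 10) true (nat_lit 15) (.s false (nat_lit 3) (nat_lit 59) (nat_lit 2) (nat_lit 2) (nat_lit 2) true (nat_lit 9) true (nat_lit 13) false (nat_lit 3) true (nat_lit 13) true (nat_lit 13) (.s false (nat_lit 1) (nat_lit 60) (nat_lit 2) (nat_lit 2) (nat_lit 2) true (nat_lit 9) true (nat_lit 13) false (nat_lit 3) true (nat_lit 13) true (nat_lit 13) (.s true (nat_lit 1) (nat_lit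 61) (nat_lit 2) (nat_lit 2) (nat_lit 2) true (nat_lit 9) true (nat_lit 13) false (nat_lit 3) true (nat_lit 13) true (nat_lit 13) (.s true (nat_lit 3) (nat_lit 62) (nat_lit 2) (nat_lit 2) (nat_lit 2) true (nat_lit 9) true (nat_lit 13) false (nat_lit 3) true (nat_lit 13) true (nat_lit 13) dC1d_i484)))))))))))))))))))))))))

noncomputable def dC1d_i486 : IL := (.s true (nat_lit 1) (nat_lit 10) (nat_lit 6) (nat_lit 4) (nat_lit 2) true (nat_lit 3) true (nat_lit 13) true (nat_lit 6) true (nat_lit 9) true (nat_lit 11) (.s false (nat_lit 1) (nat_lit 11) (nat_lit 6) (nat_lit 4) (nat_lit 2) true (nat_lit 3) true (nat_lit 13) true (nat_lit 6) true (nat_lit 9) true (nat_lit 11) (.s false (nat_lit 1) (nat_lit 15) (nat_lit 2) (nat_lit 2) (nat_lit 10) true (nat_lit 0) true (nat_lit 6) true (nat_lit 5) true (nat_lit 13) true (nat_lit 13) (.s true (nat_lit 2) (nat_lit 15) (nat_lit 2) (nat_lit 2) (nat_lit 11) true (nat_lit 0) true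 (nat_lit 6) true (nat_lit 5) true (nat_lit 13) true (nat_lit 13) (.s false (nat_lit 3) (nat_lit 15) (nat_lit 2) (nat_lit 2) (nat_lit 12) true (nat_lit 0) true (nat_lit 6) true (nat_lit 5) true (nat_lit 13) true (nat_lit 13) (.s false (nat_lit 3) (nat_lit 14) (nat_lit 11) (nat_lit 2) (nat_lit 2) true (nat_lit 0) true (nat_lit 13) true (nat_lit 5) true (nat_lit 6) true (nat_lit 13) (.s true (nat_lit 2) (nat_lit 14) (nat_lit 12) (nat_lit 2) (nat_lit 2) true (nat_lit 0) true (nat_lit 13) true (nat_lit 5) true (nat_lit 6) true (nat_lit 13) (.s false (nat_lit 1) (nat_lit 15) (nat_lit 10) (nat_lit 2) (nat_lit 2) true (nat_lit 0) true (nat_lit 13) true (nat_lit 5) true (nat_lit 6) true (nat_lit 13) (.s true (nat_lit 3) (nat_lit 15) (nat_lit 11) (nat_lit 2) (nat_lit 2) true (nat_lit 0) true (nat_lit 13) true (nat_lit 5) true (nat_lit 6) true (nat_lit 13) (.s true (nat_lit 1) (nat_lit 16) (nat_lit 9) (nat_lit 2) (nat_lit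 2) true (nat_lit 1) true (nat_lit 13) true (nat_lit 4) true (nat_lit 7) true (nat_lit 13) (.s false (nat_lit 2) (nat_lit 18) (nat_lit 0) (nat_lit 1) (nat_lit 15) true (nat_lit 1) true (nat_lit 5) true (nat_lit 3) true (nat_lit 15) true (nat_lit 14) (.s false (nat_lit 3) (nat_lit 18) (nat_lit 0) (nat_lit 2) (nat_lit 10) true (nat_lit 2) true (nat_lit 6) true (nat_lit 3) true (nat_lit 15) true (nat_lit 13) (.s true (nat_lit 2) (nat_lit 18) (nat_lit 0) (nat_lit 2) (nat_lit 12) true (nat_lit 2) true (nat_lit 6) true (nat_lit 3) true (nat_lit 15) true (nat_lit 13) (.s true (nat_lit 3) (nat_lit 18) (nat_lit 0) (nat_lit 12) (nat_lit 2) true (nat_lit 11) true (nat_lit 13) true (nat_lit 3) true (nat_lit 15) true (nat_lit 6) (.s false (nat_lit 2) (nat_lit 18) (nat_lit 1) (nat_lit 15) (nat_lit 0) true (nat_lit 12) true (nat_lit 15) true (nat_lit 3) true (nat_lit 14) true (nat_lit 5) (.s false (nat_lit 1) (nat_lit 18) (nat_lit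 2) (nat_lit 2) (nat_lit 7) true (nat_lit 2) true (nat_lit 8) true (nat_lit 3) true (nat_lit 13) true (nat_lit 13) (.s false (nat_lit 2) (nat_lit 18) (nat_lit 2) (nat_lit 10) (nat_lit 0) true (nat_lit 11) true (nat_lit 15) true (nat_lit 3) true (nat_lit 13) true (nat_lit 6) (.s false (nat_lit 1) (nat_lit 18) (nat_lit 2) (nat_lit 11) (nat_lit 0) true (nat_lit 11) true (nat_lit 15) true (nat_lit 3) true (nat_lit 13) true (nat_lit 6) (.s true (nat_lit 2) (nat_lit 18) (nat_lit 2) (nat_lit 12) (nat_lit 0) true (nat_lit 11) true (nat_lit 15) true (nat_lit 3) true (nat_lit 13) true (nat_lit 6) (.s false (nat_lit 3) (nat_lit 18) (nat_lit 4) (nat_lit 2) (nat_lit 3) true (nat_lit 2) true (nat_lit 12) true (nat_lit 3) true (nat_lit 11) true (nat_lit 13) (.s true (nat_lit 2) (nat_lit 18) (nat_lit 6) (nat_lit 3) (nat_lit 0) true (nat_lit 5) true (nat_lit 15) true (nat_lit 3) true (nat_lit 9) true (nat_lit 12) (.s false (nat_lit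 3) (nat_lit 18) (nat_lit 7) (nat_lit 2) (nat_lit 2) true (nat_lit 2) true (nat_lit 13) true (nat_lit 3) true (nat_lit 8) true (nat_lit 13) (.s false (nat_lit 3) (nat_lit 18) (nat_lit 12) (nat_lit 0) (nat_lit 2) true (nat_lit 0) true (nat_lit 13) true (nat_lit 3) true (nat_lit 6) true (nat_lit 15) (.s true (nat_lit 3) (nat_lit 18) (nat_lit 11) (nat_lit 2) (nat_lit 0) true (nat_lit 2) true (nat_lit 15) true (nat_lit 3) true (nat_lit 6) true (nat_lit 13) (.s false (nat_lit 2) (nat_lit 18) (nat_lit 15) (nat_lit 1) (nat_lit 0) true (nat_lit 1) true (nat_lit 15) true (nat_lit 3) true (nat_lit 5) true (nat_lit 14) dC1d_i485)))))))))))))))))))))))))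

noncomputable def dC1d_i487 : IL := (.e false (nat_lit 2) (nat_lit 340) (nat_lit 0) (nat_lit 15) (.e true (nat_lit 1) (nat_lit 344) (nat_lit 0) (nat_lit 15) (.e false (nat_lit 2) (nat_lit 262) (nat_lit 2) (nat_lit 13) (.e true (nat_lit 3) (nat_lit 264) (nat_lit 2) (nat_lit 13) (.e false (nat_lit 1) (nat_lit 266) (nat_lit 2) (nat_lit 13) (.e true (nat_lit 3) (nat_lit 267) (nat_lit 2) (nat_lit 13) (.e true (nat_lit 3) (nat_lit 268) (nat_lit 2) (nat_lit 13) (.e true (nat_lit 1) (nat_lit 273) (nat_lit 2) (nat_lit 13) (.e false (nat_lit 3) (nat_lit 277) (nat_lit 2) (nat_lit 13) (.e false (nat_lit 2) (nat_lit 280) (nat_lit 2) (nat_lit 13) (.e true (nat_lit 2) (nat_lit 286) (nat_lit 2) (nat_lit 13) (.e true (nat_lit 3) (nat_lit 287) (nat_lit 2) (nat_lit 13) (.e false (nat_lit 1) (nat_lit 288) (nat_lit 2) (nat_lit 13) (.e false (nat_lit 2) (nat_lit 289) (nat_lit 2) (nat_lit 13) (.e false (nat_lit 2) (nat_lit 270) (nat_lit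 2) (nat_lit 13) (.e true (nat_lit 1) (nat_lit 272) (nat_lit 2) (nat_lit 13) (.e true (nat_lit 2) (nat_lit 282) (nat_lit 2) (nat_lit 13) (.e false (nat_lit 3) (nat_lit 265) (nat_lit 2) (nat_lit 13) (.e true (nat_lit 1) (nat_lit 274) (nat_lit 2) (nat_lit 13) (.e false (nat_lit 2) (nat_lit 261) (nat_lit 2) (nat_lit 13) (.e false (nat_lit 2) (nat_lit 260) (nat_lit 2) (nat_lit 13) (.e true (nat_lit 2) (nat_lit 281) (nat_lit 2) (nat_lit 13) (.e true (nat_lit 2) (nat_lit 283) (nat_lit 2) (nat_lit 13) (.e true (nat_lit 3) (nat_lit 271) (nat_lit 2) (nat_lit 13) (.u (nat_lit 2) (.n (nat_lit 0) (nat_lit 2) (.n (nat_lit 1) (nat_lit 1) (.p (nat_lit 2) (nat_lit 1) (.p (nat_lit 3) (nat_lit 3) (.n (nat_lit 5) (nat_lit 3) (.n (nat_lit 6) (nat_lit 3) (.n (nat_lit 7) (nat_lit 3) (.n (nat_lit 8) (nat_lit 1) (.p (nat_lit 9) (nat_lit 1) (.p (nat_lit 10) (nat_lit 1) (.n (nat_lit 12) (nat_lit 1) (.p (nat_lit 13) (nat_lit 3) (.p (nat_lit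 15) (nat_lit 2) (.p (nat_lit 16) (nat_lit 5) (.n (nat_lit 17) (nat_lit 1) (.n (nat_lit 18) (nat_lit 1) (.p (nat_lit 19) (nat_lit 1) (.n (nat_lit 20) (nat_lit 1) (.n (nat_lit 21) (nat_lit 1) (.p (nat_lit 22) (nat_lit 1) (.n (nat_lit 23) (nat_lit 2) (.p (nat_lit 24) (nat_lit 2) (.n (nat_lit 25) (nat_lit 1) (.p (nat_lit 29) (nat_lit 1) (.p (nat_lit 30) (nat_lit 1) (.p (nat_lit 33) (nat_lit 4) (.n (nat_lit 173) (nat_lit 1) (.p (nat_lit 175) (nat_lit 1) (.n (nat_lit 176) (nat_lit 1) (.p (nat_lit 177) (nat_lit 1) (.n (nat_lit 178) (nat_lit 1) (.n (nat_lit 179) (nat_lit 1) (.p (nat_lit 181) (nat_lit 2) (.p (nat_lit 182) (nat_lit 1) (.n (nat_lit 183) (nat_lit 2) (.p (nat_lit 185) (nat_lit 2) (.n (nat_lit 186) (nat_lit 1) (.p (nat_lit 187) (nat_lit 1) (.p (nat_lit 190) (nat_lit 1) (.p (nat_lit 191) (nat_lit 1) (.n (nat_lit 192) (nat_lit 1) (.p (nat_lit 193) (nat_lit 1) (.p (nat_lit 195) (nat_lit 1) (.n (nat_lit 197) (nat_lit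 1) (.p (nat_lit 198) (nat_lit 1) (.p (nat_lit 200) (nat_lit 2) (.p (nat_lit 201) (nat_lit 1) (.n (nat_lit 202) (nat_lit 1) .z)))))))))))))))))))))))))))))))))))))))))))))))) .nil)))))))))))))))))))))))))

noncomputable def dC1d_i488 : IL := (.e true (nat_lit 1) (nat_lit 319) (nat_lit 2) (nat_lit 13) (.e false (nat_lit 1) (nat_lit 102) (nat_lit 10) (nat_lit 7) (.e false (nat_lit 2) (nat_lit 347) (nat_lit 0) (nat_lit 15) (.e false (nat_lit 3) (nat_lit 349) (nat_lit 0) (nat_lit 15) (.e true (nat_lit 1) (nat_lit 350) (nat_lit 0) (nat_lit 15) (.e false (nat_lit 1) (nat_lit 351) (nat_lit 0) (nat_lit 15) (.e false (nat_lit 3) (nat_lit 352) (nat_lit 0) (nat_lit 15) (.e false (nat_lit 1) (nat_lit 354) (nat_lit 0) (nat_lit 15) (.e false (nat_lit 1) (nat_lit 328) (nat_lit 1) (nat_lit 14) (.e false (nat_lit 3) (nat_lit 329) (nat_lit 1) (nat_lit 14) (.e false (nat_lit 1) (nat_lit 330) (nat_lit 1) (nat_lit 14) (.e true (nat_lit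 1) (nat_lit 331) (nat_lit 1) (nat_lit 14) (.e true (nat_lit 1) (nat_lit 332) (nat_lit 1) (nat_lit 14) (.e true (nat_lit 1) (nat_lit 334) (nat_lit 1) (nat_lit 14) (.e false (nat_lit 2) (nat_lit 335) (nat_lit 1) (nat_lit 14) (.e true (nat_lit 2) (nat_lit 337) (nat_lit 1) (nat_lit 14) (.e false (nat_lit 3) (nat_lit 338) (nat_lit 1) (nat_lit 14) (.e false (nat_lit 2) (nat_lit 339) (nat_lit 1) (nat_lit 14) (.e false (nat_lit 1) (nat_lit 341) (nat_lit 1) (nat_lit 14) (.e true (nat_lit 1) (nat_lit 344) (nat_lit 1) (nat_lit 14) (.e true (nat_lit 1) (nat_lit 346) (nat_lit 1) (nat_lit 14) (.e true (nat_lit 3) (nat_lit 333) (nat_lit 1) (nat_lit 14) (.e false (nat_lit 2) (nat_lit 340) (nat_lit 1) (nat_lit 14) (.e false (nat_lit 1) (nat_lit 353) (nat_lit 0) (nat_lit 15) (.u (nat_lit 2) (.p (nat_lit 0) (nat_lit 2) (.n (nat_lit 1) (nat_lit 4) (.p (nat_lit 2) (nat_lit 2) (.p (nat_lit 3) (nat_lit 1) (.n (nat_lit 5) (nat_lit 2) (.p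 (nat_lit 6) (nat_lit 1) (.p (nat_lit 7) (nat_lit 2) (.n (nat_lit 8) (nat_lit 1) (.n (nat_lit 9) (nat_lit 4) (.p (nat_lit 10) (nat_lit 1) (.n (nat_lit 11) (nat_lit 3) (.n (nat_lit 12) (nat_lit 3) (.n (nat_lit 13) (nat_lit 4) (.n (nat_lit 14) (nat_lit 3) (.p (nat_lit 15) (nat_lit 1) (.n (nat_lit 16) (nat_lit 3) (.n (nat_lit 17) (nat_lit 2) (.n (nat_lit 19) (nat_lit 6) (.p (nat_lit 21) (nat_lit 1) (.n (nat_lit 26) (nat_lit 3) (.p (nat_lit 29) (nat_lit 1) (.n (nat_lit 126) (nat_lit 2) (.n (nat_lit 128) (nat_lit 2) (.n (nat_lit 133) (nat_lit 2) (.p (nat_lit 134) (nat_lit 2) (.p (nat_lit 135) (nat_lit 2) (.p (nat_lit 142) (nat_lit 2) (.n (nat_lit 145) (nat_lit 2) (.n (nat_lit 154) (nat_lit 1) (.n (nat_lit 169) (nat_lit 1) (.n (nat_lit 170) (nat_lit 1) (.n (nat_lit 203) (nat_lit 1) (.n (nat_lit 205) (nat_lit 1) (.p (nat_lit 206) (nat_lit 1) (.p (nat_lit 207) (nat_lit 1) (.p (nat_lit 212) (nat_lit 1) (.n (nat_lit 224) (nat_lit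 1) (.n (nat_lit 229) (nat_lit 1) .z)))))))))))))))))))))))))))))))))))))) .nil)))))))))))))))))))))))))

noncomputable def dC1d_i489 : IL := (.s false (nat_lit 1) (nat_lit 102) (nat_lit 2) (nat_lit 1) (nat_lit 0) true (nat_lit 11) true (nat_lit 15) false (nat_lit 7) true (nat_lit 13) true (nat_lit 14) (.e false (nat_lit 3) (nat_lit 188) (nat_lit 5) (nat_lit 10) (.e false (nat_lit 1) (nat_lit 153) (nat_lit 6) (nat_lit 9) (.e true (nat_lit 2) (nat_lit 154) (nat_lit 6) (nat_lit 9) (.e false (nat_lit 1) (nat_lit 161) (nat_lit 6) (nat_lit 9) (.e true (nat_lit 3) (nat_lit 162) (nat_lit 6) (nat_lit 9) (.e true (nat_lit 1) (nat_lit 170) (nat_lit 6) (nat_lit 9) (.e false (nat_lit 1) (nat_lit 173) (nat_lit 6) (nat_lit 9) (.e true (nat_lit 2) (nat_lit 157) (nat_lit 6) (nat_lit 9) (.e false (nat_lit 3) (nat_lit 208) (nat_lit 3) (nat_lit 12) (.e false (nat_lit 3) (nat_lit 209) (nat_lit 3) (nat_lit 12) (.e false (nat_lit 2) (nat_lit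 167) (nat_lit 6) (nat_lit 9) (.e false (nat_lit 1) (nat_lit 164) (nat_lit 6) (nat_lit 9) (.e true (nat_lit 1) (nat_lit 171) (nat_lit 6) (nat_lit 9) (.e true (nat_lit 2) (nat_lit 290) (nat_lit 2) (nat_lit 13) (.e false (nat_lit 1) (nat_lit 292) (nat_lit 2) (nat_lit 13) (.e true (nat_lit 1) (nat_lit 293) (nat_lit 2) (nat_lit 13) (.e false (nat_lit 2) (nat_lit 294) (nat_lit 2) (nat_lit 13) (.e false (nat_lit 1) (nat_lit 298) (nat_lit 2) (nat_lit 13) (.e false (nat_lit 1) (nat_lit 301) (nat_lit 2) (nat_lit 13) (.e true (nat_lit 3) (nat_lit 304) (nat_lit 2) (nat_lit 13) (.e false (nat_lit 1) (nat_lit 307) (nat_lit 2) (nat_lit 13) (.e true (nat_lit 1) (nat_lit 310) (nat_lit 2) (nat_lit 13) (.e false (nat_lit 1) (nat_lit 43) (nat_lit 31) (nat_lit 1) (.e true (nat_lit 3) (nat_lit 299) (nat_lit 2) (nat_lit 13) dC1d_i488)))))))))))))))))))))))))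

noncomputable def dC1d_i490 : IL := (.e true (nat_lit 1) (nat_lit 278) (nat_lit 2) (nat_lit 13) (.e false (nat_lit 3) (nat_lit 57) (nat_lit 18) (nat_lit 3) (.e false (nat_lit 3) (nat_lit 328) (nat_lit 0) (nat_lit 15) (.e false (nat_lit 1) (nat_lit 329) (nat_lit 0) (nat_lit 15) (.e true (nat_lit 1) (nat_lit 330) (nat_lit 0) (nat_lit 15) (.e true (nat_lit 3) (nat_lit 331) (nat_lit 0) (nat_lit 15) (.e true (nat_lit 2) (nat_lit 332) (nat_lit 0) (nat_lit 15) (.e false (nat_lit 1) (nat_lit 333) (nat_lit 0) (nat_lit 15) (.e true (nat_lit 1) (nat_lit 334) (nat_lit 0) (nat_lit 15) (.e true (nat_lit 1) (nat_lit 335) (nat_lit 0) (nat_lit 15) (.e true (nat_lit 3) (nat_lit 336) (nat_lit 0) (nat_lit 15) (.e true (nat_lit 3) (nat_lit 340) (nat_lit 0) (nat_lit 15) (.e false (nat_lit 1) (nat_lit 345) (nat_lit 0) (nat_lit 15) (.e false (nat_lit 2) (nat_lit 46) (nat_lit 22) (nat_lit 2) (.e true (nat_lit 1) (nat_lit 62) (nat_lit 18)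 (nat_lit 3) (.e false (nat_lit 2) (nat_lit 266) (nat_lit 2) (nat_lit 13) (.e false (nat_lit 1) (nat_lit 268) (nat_lit 2) (nat_lit 13) (.e true (nat_lit 3) (nat_lit 277) (nat_lit 2) (nat_lit 13) (.e false (nat_lit 3) (nat_lit 206) (nat_lit 3) (nat_lit 12) (.e true (nat_lit 2) (nat_lit 286) (nat_lit 2) (nat_lit 13) (.e false (nat_lit 3) (nat_lit 46) (nat_lit 20) (nat_lit 2) (.e false (nat_lit 2) (nat_lit 338) (nat_lit 0) (nat_lit 15) (.e true (nat_lit 3) (nat_lit 341) (nat_lit 0) (nat_lit 15) (.e false (nat_lit 3) (nat_lit 106) (nat_lit 7) (nat_lit 8) (.u (nat_lit 2) (.p (nat_lit 0) (nat_lit 5) (.n (nat_lit 1) (nat_lit 1) (.p (nat_lit 2) (nat_lit 2) (.p (nat_lit 3) (nat_lit 1) (.n (nat_lit 4) (nat_lit 3) (.n (nat_lit 6) (nat_lit 1) (.n (nat_lit 7) (nat_lit 1) (.n (nat_lit 8) (nat_lit 2) (.p (nat_lit 9) (nat_lit 2) (.p (nat_lit 10) (nat_lit 2) (.n (nat_lit 13) (nat_lit 1) (.p (nat_lit 15) (nat_lit 3) (.n (nat_lit 16)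 (nat_lit 2) (.p (nat_lit 17) (nat_lit 6) (.p (nat_lit 19) (nat_lit 4) (.p (nat_lit 25) (nat_lit 1) (.p (nat_lit 30) (nat_lit 1) (.p (nat_lit 33) (nat_lit 4) (.p (nat_lit 109) (nat_lit 1) (.p (nat_lit 110) (nat_lit 1) (.n (nat_lit 111) (nat_lit 1) (.p (nat_lit 173) (nat_lit 1) (.n (nat_lit 174) (nat_lit 2) (.n (nat_lit 175) (nat_lit 2) (.n (nat_lit 176) (nat_lit 3) (.n (nat_lit 177) (nat_lit 2) (.n (nat_lit 178) (nat_lit 3) (.p (nat_lit 179) (nat_lit 2) (.n (nat_lit 180) (nat_lit 1) (.n (nat_lit 181) (nat_lit 1) (.n (nat_lit 183) (nat_lit 1) (.n (nat_lit 184) (nat_lit 3) (.n (nat_lit 186) (nat_lit 1) (.p (nat_lit 187) (nat_lit 5) (.n (nat_lit 190) (nat_lit 5) (.n (nat_lit 191) (nat_lit 2) (.n (nat_lit 193) (nat_lit 1) (.n (nat_lit 199) (nat_lit 1) (.n (nat_lit 201) (nat_lit 2) (.n (nat_lit 211) (nat_lit 3) (.p (nat_lit 212) (nat_lit 2) (.n (nat_lit 213) (nat_lit 2) (.p (nat_lit 215) (nat_lit 2) (.p (nat_lit 216)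 (nat_lit 2) (.p (nat_lit 217) (nat_lit 1) (.p (nat_lit 218) (nat_lit 1) (.p (nat_lit 221) (nat_lit 1) (.p (nat_lit 227) (nat_lit 1) (.n (nat_lit 228) (nat_lit 1) .z))))))))))))))))))))))))))))))))))))))))))))))))) .nil)))))))))))))))))))))))))

noncomputable def dC1d_i491 : IL := (.s true (nat_lit 3) (nat_lit 84) (nat_lit 2) (nat_lit 2) (nat_lit 0) true (nat_lit 11) true (nat_lit 15) false (nat_lit 5) true (nat_lit 13) true (nat_lit 13) (.s true (nat_lit 2) (nat_lit 85) (nat_lit 2) (nat_lit 2) (nat_lit 0) true (nat_lit 11) true (nat_lit 15) false (nat_lit 5) true (nat_lit 13) true (nat_lit 13) (.s true (nat_lit 1) (nat_lit 86) (nat_lit 2) (nat_lit 2) (nat_lit 0) true (nat_lit 11) true (nat_lit 15) false (nat_lit 5) true (nat_lit 13) true (nat_lit 13) (.s true (nat_lit 3) (nat_lit 87) (nat_lit 2) (nat_lit 2) (nat_lit 0) true (nat_lit 11) true (nat_lit 15) false (nat_lit 5) true (nat_lit 13) true (nat_lit 13) (.s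 true (nat_lit 2) (nat_lit 91) (nat_lit 2) (nat_lit 2) (nat_lit 0) true (nat_lit 11) true (nat_lit 15) false (nat_lit 5) true (nat_lit 13) true (nat_lit 13) (.s false (nat_lit 1) (nat_lit 92) (nat_lit 2) (nat_lit 2) (nat_lit 0) true (nat_lit 11) true (nat_lit 15) false (nat_lit 5) true (nat_lit 13) true (nat_lit 13) (.s true (nat_lit 2) (nat_lit 98) (nat_lit 2) (nat_lit 1) (nat_lit 0) true (nat_lit 11) true (nat_lit 15) false (nat_lit 6) true (nat_lit 13) true (nat_lit 14) (.s true (nat_lit 2) (nat_lit 106) (nat_lit 0) (nat_lit 0) (nat_lit 1) true (nat_lit 12) true (nat_lit 14) false (nat_lit 8) true (nat_lit 15) true (nat_lit 15) (.s false (nat_lit 3) (nat_lit 106) (nat_lit 0) (nat_lit 1) (nat_lit 0) false (nat_lit 16) true (nat_lit 15) false (nat_lit 8) true (nat_lit 15) true (nat_lit 14) (.e false (nat_lit 2) (nat_lit 142) (nat_lit 6) (nat_lit 9) (.e true (nat_lit 2) (nat_lit 65) (nat_lit 18) (nat_lit 3) (.e false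 (nat_lit 2) (nat_lit 286) (nat_lit 2) (nat_lit 13) (.e true (nat_lit 3) (nat_lit 149) (nat_lit 6) (nat_lit 9) (.e false (nat_lit 3) (nat_lit 328) (nat_lit 0) (nat_lit 15) (.e true (nat_lit 2) (nat_lit 329) (nat_lit 0) (nat_lit 15) (.e false (nat_lit 1) (nat_lit 330) (nat_lit 0) (nat_lit 15) (.e false (nat_lit 2) (nat_lit 331) (nat_lit 0) (nat_lit 15) (.e true (nat_lit 3) (nat_lit 332) (nat_lit 0) (nat_lit 15) (.e true (nat_lit 3) (nat_lit 333) (nat_lit 0) (nat_lit 15) (.e true (nat_lit 2) (nat_lit 336) (nat_lit 0) (nat_lit 15) (.e false (nat_lit 2) (nat_lit 337) (nat_lit 0) (nat_lit 15) (.e true (nat_lit 3) (nat_lit 338) (nat_lit 0) (nat_lit 15) (.e true (nat_lit 1) (nat_lit 340) (nat_lit 0) (nat_lit 15) (.u (nat_lit 2) (.p (nat_lit 35) (nat_lit 1) (.p (nat_lit 36) (nat_lit 1) (.p (nat_lit 38) (nat_lit 1) (.p (nat_lit 39) (nat_lit 1) (.n (nat_lit 48) (nat_lit 1) (.n (nat_lit 66) (nat_lit 1) (.n (nat_lit 67) (nat_lit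 1) (.n (nat_lit 69) (nat_lit 1) (.p (nat_lit 70) (nat_lit 1) (.p (nat_lit 71) (nat_lit 1) (.p (nat_lit 74) (nat_lit 2) (.n (nat_lit 75) (nat_lit 2) (.n (nat_lit 76) (nat_lit 1) (.n (nat_lit 77) (nat_lit 2) (.p (nat_lit 80) (nat_lit 1) (.p (nat_lit 87) (nat_lit 1) (.n (nat_lit 88) (nat_lit 1) (.p (nat_lit 99) (nat_lit 1) (.p (nat_lit 102) (nat_lit 1) (.p (nat_lit 111) (nat_lit 1) (.n (nat_lit 113) (nat_lit 1) (.n (nat_lit 114) (nat_lit 1) (.n (nat_lit 121) (nat_lit 1) (.n (nat_lit 122) (nat_lit 1) (.n (nat_lit 125) (nat_lit 1) (.p (nat_lit 127) (nat_lit 1) (.n (nat_lit 128) (nat_lit 1) (.p (nat_lit 129) (nat_lit 6) (.n (nat_lit 130) (nat_lit 2) (.p (nat_lit 131) (nat_lit 1) (.n (nat_lit 132) (nat_lit 3) (.p (nat_lit 133) (nat_lit 1) (.p (nat_lit 134) (nat_lit 3) (.p (nat_lit 135) (nat_lit 2) (.n (nat_lit 137) (nat_lit 2) (.p (nat_lit 138) (nat_lit 1) (.n (nat_lit 139) (nat_lit 1) (.p (nat_lit 140) (nat_lit 1) (.p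 (nat_lit 143) (nat_lit 1) (.n (nat_lit 144) (nat_lit 1) (.n (nat_lit 149) (nat_lit 2) (.n (nat_lit 151) (nat_lit 2) (.p (nat_lit 153) (nat_lit 1) (.n (nat_lit 154) (nat_lit 2) (.n (nat_lit 157) (nat_lit 1) (.n (nat_lit 164) (nat_lit 1) (.n (nat_lit 170) (nat_lit 1) (.n (nat_lit 172) (nat_lit 1) (.p (nat_lit 173) (nat_lit 3) (.p (nat_lit 174) (nat_lit 12) (.p (nat_lit 175) (nat_lit 1) (.p (nat_lit 176) (nat_lit 8) (.n (nat_lit 177) (nat_lit 6) (.n (nat_lit 178) (nat_lit 10) (.n (nat_lit 179) (nat_lit 6) (.n (nat_lit 180) (nat_lit 8) (.p (nat_lit 181) (nat_lit 3) (.p (nat_lit 183) (nat_lit 4) (.n (nat_lit 184) (nat_lit 6) (.n (nat_lit 185) (nat_lit 7) .z)))))))))))))))))))))))))))))))))))))))))))))))))))))))))))) (.u (nat_lit 2) (.p (nat_lit 186) (nat_lit 7) (.n (nat_lit 187) (nat_lit 5) (.p (nat_lit 188) (nat_lit 1) (.p (nat_lit 189) (nat_lit 2) (.n (nat_lit 190) (nat_lit 3) (.p (nat_lit 191) (nat_lit 4) (.p (nat_lit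 192) (nat_lit 6) (.n (nat_lit 193) (nat_lit 4) (.n (nat_lit 194) (nat_lit 1) (.p (nat_lit 195) (nat_lit 6) (.p (nat_lit 196) (nat_lit 2) (.p (nat_lit 197) (nat_lit 3) (.n (nat_lit 198) (nat_lit 2) (.n (nat_lit 199) (nat_lit 14) (.n (nat_lit 200) (nat_lit 1) (.n (nat_lit 201) (nat_lit 5) (.n (nat_lit 202) (nat_lit 5) (.p (nat_lit 203) (nat_lit 1) (.p (nat_lit 204) (nat_lit 2) (.n (nat_lit 205) (nat_lit 2) (.n (nat_lit 206) (nat_lit 3) (.p (nat_lit 207) (nat_lit 2) (.p (nat_lit 211) (nat_lit 10) (.n (nat_lit 212) (nat_lit 5) (.p (nat_lit 213) (nat_lit 5) (.n (nat_lit 214) (nat_lit 3) (.n (nat_lit 215) (nat_lit 8) (.n (nat_lit 216) (nat_lit 5) (.n (nat_lit 219) (nat_lit 5) (.n (nat_lit 220) (nat_lit 6) (.n (nat_lit 221) (nat_lit 6) (.p (nat_lit 223) (nat_lit 2) (.p (nat_lit 224) (nat_lit 3) (.n (nat_lit 227) (nat_lit 2) (.p (nat_lit 229) (nat_lit 1) .z))))))))))))))))))))))))))))))))))) .nil)))))))))))))))))))))))))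

noncomputable def dC1d_i492 : IL := (.s true (nat_lit 3) (nat_lit 59) (nat_lit 2) (nat_lit 2) (nat_lit 2) true (nat_lit 9) true (nat_lit 13) false (nat_lit 3) true (nat_lit 13) true (nat_lit 13) (.s true (nat_lit 3) (nat_lit 60) (nat_lit 2) (nat_lit 2) (nat_lit 2) true (nat_lit 9) true (nat_lit 13) false (nat_lit 3) true (nat_lit 13) true (nat_lit 13) (.s false (nat_lit 3) (nat_lit 62) (nat_lit 2) (nat_lit 2) (nat_lit 2) true (nat_lit 9) true (nat_lit 13) false (nat_lit 3) true (nat_lit 13) true (nat_lit 13) (.s false (nat_lit 3) (nat_lit 63) (nat_lit 2) (nat_lit 2) (nat_lit 2) true (nat_lit 9) true (nat_lit 13) false (nat_lit 3) true (nat_lit 13) true (nat_lit 13) (.s true (nat_lit 1) (nat_lit 64) (nat_lit 2) (nat_lit 2) (nat_lit 2) true (nat_lit 9) true (nat_lit 13) false (nat_lit 3) true (nat_lit 13) true (nat_lit 13) (.s false (nat_lit 1) (nat_lit 78) (nat_lit 1) (nat_lit 2) (nat_lit 2) true (nat_lit 10) true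 (nat_lit 13) false (nat_lit 4) true (nat_lit 14) true (nat_lit 13) (.s true (nat_lit 2) (nat_lit 79) (nat_lit 1) (nat_lit 2) (nat_lit 2) true (nat_lit 10) true (nat_lit 13) false (nat_lit 4) true (nat_lit 14) true (nat_lit 13) (.s true (nat_lit 1) (nat_lit 80) (nat_lit 1) (nat_lit 2) (nat_lit 2) true (nat_lit 10) true (nat_lit 13) false (nat_lit 4) true (nat_lit 14) true (nat_lit 13) (.s true (nat_lit 1) (nat_lit 81) (nat_lit 1) (nat_lit 2) (nat_lit 2) true (nat_lit 10) true (nat_lit 13) false (nat_lit 4) true (nat_lit 14) true (nat_lit 13) (.s true (nat_lit 2) (nat_lit 77) (nat_lit 2) (nat_lit 1) (nat_lit 2) true (nat_lit 9) true (nat_lit 13) false (nat_lit 4) true (nat_lit 13) true (nat_lit 14) (.s false (nat_lit 2) (nat_lit 78) (nat_lit 2) (nat_lit 1) (nat_lit 2) true (nat_lit 9) true (nat_lit 13) false (nat_lit 4) true (nat_lit 13) true (nat_lit 14) (.s true (nat_lit 2) (nat_lit 79) (nat_lit 2) (nat_lit 1) (nat_lit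 2) true (nat_lit 9) true (nat_lit 13) false (nat_lit 4) true (nat_lit 13) true (nat_lit 14) (.s true (nat_lit 1) (nat_lit 80) (nat_lit 2) (nat_lit 1) (nat_lit 2) true (nat_lit 9) true (nat_lit 13) false (nat_lit 4) true (nat_lit 13) true (nat_lit 14) (.s false (nat_lit 3) (nat_lit 81) (nat_lit 2) (nat_lit 1) (nat_lit 2) true (nat_lit 9) true (nat_lit 13) false (nat_lit 4) true (nat_lit 13) true (nat_lit 14) (.s false (nat_lit 3) (nat_lit 83) (nat_lit 0) (nat_lit 2) (nat_lit 2) true (nat_lit 11) true (nat_lit 13) false (nat_lit 5) true (nat_lit 15) true (nat_lit 13) (.s true (nat_lit 3) (nat_lit 84) (nat_lit 0) (nat_lit 2) (nat_lit 2) true (nat_lit 11) true (nat_lit 13) false (nat_lit 5) true (nat_lit 15) true (nat_lit 13) (.s true (nat_lit 3) (nat_lit 85) (nat_lit 0) (nat_lit 2) (nat_lit 2) true (nat_lit 11) true (nat_lit 13) false (nat_lit 5) true (nat_lit 15) true (nat_lit 13) (.s false (nat_lit 1) (nat_lit 86)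 (nat_lit 0) (nat_lit 2) (nat_lit 2) true (nat_lit 11) true (nat_lit 13) false (nat_lit 5) true (nat_lit 15) true (nat_lit 13) (.s false (nat_lit 1) (nat_lit 87) (nat_lit 0) (nat_lit 2) (nat_lit 2) true (nat_lit 11) true (nat_lit 13) false (nat_lit 5) true (nat_lit 15) true (nat_lit 13) (.s false (nat_lit 1) (nat_lit 90) (nat_lit 0) (nat_lit 2) (nat_lit 2) true (nat_lit 11) true (nat_lit 13) false (nat_lit 5) true (nat_lit 15) true (nat_lit 13) (.s true (nat_lit 1) (nat_lit 91) (nat_lit 0) (nat_lit 2) (nat_lit 2) true (nat_lit 11) true (nat_lit 13) false (nat_lit 5) true (nat_lit 15) true (nat_lit 13) (.s false (nat_lit 1) (nat_lit 92) (nat_lit 0) (nat_lit 2) (nat_lit 2) true (nat_lit 11) true (nat_lit 13) false (nat_lit 5) true (nat_lit 15) true (nat_lit 13) (.s true (nat_lit 2) (nat_lit 83) (nat_lit 2) (nat_lit 0) (nat_lit 2) true (nat_lit 9) true (nat_lit 13) false (nat_lit 5) true (nat_lit 13) true (nat_lit 15)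 (.s false (nat_lit 2) (nat_lit 88) (nat_lit 2) (nat_lit 0) (nat_lit 2) true (nat_lit 9) true (nat_lit 13) false (nat_lit 5) true (nat_lit 13) true (nat_lit 15) (.s true (nat_lit 1) (nat_lit 90) (nat_lit 2) (nat_lit 0) (nat_lit 2) true (nat_lit 9) true (nat_lit 13) false (nat_lit 5) true (nat_lit 13) true (nat_lit 15) dC1d_i491)))))))))))))))))))))))))

noncomputable def dC1d_i493 : IL := (.s false (nat_lit 3) (nat_lit 28) (nat_lit 2) (nat_lit 2) (nat_lit 5) true (nat_lit 4) true (nat_lit 10) true (nat_lit 1) true (nat_lit 13) true (nat_lit 13) (.s true (nat_lit 2) (nat_lit 29) (nat_lit 2) (nat_lit 2) (nat_lit 5) true (nat_lit 4) true (nat_lit 10) true (nat_lit 1) true (nat_lit 13) true (nat_lit 13) (.s false (nat_lit 1) (nat_lit 28) (nat_lit 2) (nat_lit 5) (nat_lit 2) true (nat_lit 9) true (nat_lit 13) true (nat_lit 1) true (nat_lit 13) true (nat_lit 10) (.s true (nat_lit 1) (nat_lit 30) (nat_lit 2) (nat_lit 6)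 (nat_lit 1) true (nat_lit 10) true (nat_lit 14) true (nat_lit 1) true (nat_lit 13) true (nat_lit 9) (.s true (nat_lit 1) (nat_lit 28) (nat_lit 5) (nat_lit 2) (nat_lit 2) true (nat_lit 4) true (nat_lit 13) true (nat_lit 1) true (nat_lit 10) true (nat_lit 13) (.s true (nat_lit 1) (nat_lit 32) (nat_lit 0) (nat_lit 2) (nat_lit 6) true (nat_lit 5) true (nat_lit 9) true (nat_lit 0) true (nat_lit 15) true (nat_lit 13) (.s false (nat_lit 1) (nat_lit 32) (nat_lit 0) (nat_lit 6) (nat_lit 2) true (nat_lit 11) true (nat_lit 13) true (nat_lit 0) true (nat_lit 15) true (nat_lit 9) (.s false (nat_lit 3) (nat_lit 31) (nat_lit 2) (nat_lit 0) (nat_lit 6) true (nat_lit 3) true (nat_lit 9) true (nat_lit 0) true (nat_lit 13) true (nat_lit 15) (.s false (nat_lit 1) (nat_lit 32) (nat_lit 2) (nat_lit 0) (nat_lit 6) true (nat_lit 3) true (nat_lit 9) true (nat_lit 0) true (nat_lit 13) true (nat_lit 15) (.s true (nat_lit 1) (nat_lit 33) (nat_lit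 2) (nat_lit 0) (nat_lit 6) true (nat_lit 3) true (nat_lit 9) true (nat_lit 0) true (nat_lit 13) true (nat_lit 15) (.s true (nat_lit 1) (nat_lit 32) (nat_lit 2) (nat_lit 2) (nat_lit 4) true (nat_lit 5) true (nat_lit 11) true (nat_lit 0) true (nat_lit 13) true (nat_lit 13) (.s true (nat_lit 3) (nat_lit 33) (nat_lit 2) (nat_lit 2) (nat_lit 4) true (nat_lit 5) true (nat_lit 11) true (nat_lit 0) true (nat_lit 13) true (nat_lit 13) (.s true (nat_lit 2) (nat_lit 31) (nat_lit 2) (nat_lit 6) (nat_lit 0) true (nat_lit 11) true (nat_lit 15) true (nat_lit 0) true (nat_lit 13) true (nat_lit 9) (.s true (nat_lit 2) (nat_lit 40) (nat_lit 0) (nat_lit 2) (nat_lit 5) true (nat_lit 6) true (nat_lit 10) false (nat_lit 0) true (nat_lit 15) true (nat_lit 13) (.s true (nat_lit 1) (nat_lit 42) (nat_lit 0) (nat_lit 2) (nat_lit 5) true (nat_lit 6) true (nat_lit 10) false (nat_lit 0) true (nat_lit 15) true (nat_lit 13) (.s false (nat_lit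 3) (nat_lit 42) (nat_lit 2) (nat_lit 0) (nat_lit 5) true (nat_lit 4) true (nat_lit 10) false (nat_lit 0) true (nat_lit 13) true (nat_lit 15) (.s true (nat_lit 2) (nat_lit 40) (nat_lit 2) (nat_lit 1) (nat_lit 4) true (nat_lit 5) true (nat_lit 11) false (nat_lit 0) true (nat_lit 13) true (nat_lit 14) (.s true (nat_lit 3) (nat_lit 42) (nat_lit 2) (nat_lit 3) (nat_lit 2) true (nat_lit 9) true (nat_lit 13) false (nat_lit 0) true (nat_lit 13) true (nat_lit 12) (.s false (nat_lit 2) (nat_lit 42) (nat_lit 5) (nat_lit 0) (nat_lit 2) true (nat_lit 4) true (nat_lit 13) false (nat_lit 0) true (nat_lit 10) true (nat_lit 15) (.s false (nat_lit 1) (nat_lit 42) (nat_lit 5) (nat_lit 2) (nat_lit 0) true (nat_lit 6) true (nat_lit 15) false (nat_lit 0) true (nat_lit 10) true (nat_lit 13) (.s false (nat_lit 1) (nat_lit 45) (nat_lit 0) (nat_lit 0) (nat_lit 6) true (nat_lit 5) true (nat_lit 9) false (nat_lit 1) true (nat_lit 15) true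 (nat_lit 15) (.s false (nat_lit 1) (nat_lit 45) (nat_lit 6) (nat_lit 0) (nat_lit 0) true (nat_lit 5) true (nat_lit 15) false (nat_lit 1) true (nat_lit 9) true (nat_lit 15) (.s false (nat_lit 2) (nat_lit 46) (nat_lit 0) (nat_lit 0) (nat_lit 5) true (nat_lit 6) true (nat_lit 10) false (nat_lit 2) true (nat_lit 15) true (nat_lit 15) (.s true (nat_lit 2) (nat_lit 46) (nat_lit 2) (nat_lit 3) (nat_lit 0) true (nat_lit 11) true (nat_lit 15) false (nat_lit 2) true (nat_lit 13) true (nat_lit 12) (.s true (nat_lit 1) (nat_lit 46) (nat_lit 4) (nat_lit 0) (nat_lit 1) true (nat_lit 6) true (nat_lit 14) false (nat_lit 2) true (nat_lit 11) true (nat_lit 15) dC1d_i492)))))))))))))))))))))))))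

noncomputable def dC1d_i494 : IL := (.s false (nat_lit 1) (nat_lit 18) (nat_lit 0) (nat_lit 6) (nat_lit 3) true (nat_lit 8) true (nat_lit 12) true (nat_lit 3) true (nat_lit 15) true (nat_lit 9) (.s true (nat_lit 1) (nat_lit 18) (nat_lit 0) (nat_lit 10) (nat_lit 2) true (nat_lit 11) true (nat_lit 13) true (nat_lit 3) true (nat_lit 15) true (nat_lit 6) (.s false (nat_lit 1) (nat_lit 18) (nat_lit 0) (nat_lit 14) (nat_lit 1) true (nat_lit 12) true (nat_lit 14) true (nat_lit 3) true (nat_lit 15) true (nat_lit 5) (.s true (nat_lit 1) (nat_lit 18) (nat_lit 0) (nat_lit 15) (nat_lit 1) true (nat_lit 12) true (nat_lit 14) true (nat_lit 3) true (nat_lit 15) true (nat_lit 5) (.s false (nat_lit 3) (nat_lit 18) (nat_lit 0) (nat_lit 16) (nat_lit 0) false (nat_lit 16) true (nat_lit 15) true (nat_lit 3) true (nat_lit 15) true (nat_lit 4) (.s false (nat_lit 2) (nat_lit 18) (nat_lit 1) (nat_lit 0) (nat_lit 14) true (nat_lit 0) true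 (nat_lit 5) true (nat_lit 3) true (nat_lit 14) true (nat_lit 15) (.s false (nat_lit 2) (nat_lit 18) (nat_lit 1) (nat_lit 15) (nat_lit 0) true (nat_lit 12) true (nat_lit 15) true (nat_lit 3) true (nat_lit 14) true (nat_lit 5) (.s true (nat_lit 3) (nat_lit 18) (nat_lit 2) (nat_lit 3) (nat_lit 4) true (nat_lit 5) true (nat_lit 11) true (nat_lit 3) true (nat_lit 13) true (nat_lit 12) (.s true (nat_lit 3) (nat_lit 18) (nat_lit 2) (nat_lit 4) (nat_lit 3) true (nat_lit 6) true (nat_lit 12) true (nat_lit 3) true (nat_lit 13) true (nat_lit 11) (.s true (nat_lit 3) (nat_lit 18) (nat_lit 2) (nat_lit 7) (nat_lit 2) true (nat_lit 9) true (nat_lit 13) true (nat_lit 3) true (nat_lit 13) true (nat_lit 8) (.s true (nat_lit 2) (nat_lit 18) (nat_lit 2) (nat_lit 10) (nat_lit 0) true (nat_lit 11) true (nat_lit 15) true (nat_lit 3) true (nat_lit 13) true (nat_lit 6) (.s true (nat_lit 3) (nat_lit 18) (nat_lit 2) (nat_lit 11) (nat_lit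 0) true (nat_lit 11) true (nat_lit 15) true (nat_lit 3) true (nat_lit 13) true (nat_lit 6) (.s false (nat_lit 3) (nat_lit 18) (nat_lit 6) (nat_lit 3) (nat_lit 0) true (nat_lit 5) true (nat_lit 15) true (nat_lit 3) true (nat_lit 9) true (nat_lit 12) (.s false (nat_lit 2) (nat_lit 18) (nat_lit 14) (nat_lit 0) (nat_lit 1) true (nat_lit 0) true (nat_lit 14) true (nat_lit 3) true (nat_lit 5) true (nat_lit 15) (.s false (nat_lit 3) (nat_lit 18) (nat_lit 15) (nat_lit 0) (nat_lit 1) true (nat_lit 0) true (nat_lit 14) true (nat_lit 3) true (nat_lit 5) true (nat_lit 15) (.s false (nat_lit 2) (nat_lit 18) (nat_lit 15) (nat_lit 1) (nat_lit 0) true (nat_lit 1) true (nat_lit 15) true (nat_lit 3) true (nat_lit 5) true (nat_lit 14) (.s true (nat_lit 3) (nat_lit 20) (nat_lit 2) (nat_lit 2) (nat_lit 6) true (nat_lit 3) true (nat_lit 9) true (nat_lit 2) true (nat_lit 13) true (nat_lit 13) (.s false (nat_lit 1) (nat_lit 21) (nat_lit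 2) (nat_lit 2) (nat_lit 6) true (nat_lit 3) true (nat_lit 9) true (nat_lit 2) true (nat_lit 13) true (nat_lit 13) (.s true (nat_lit 3) (nat_lit 22) (nat_lit 2) (nat_lit 2) (nat_lit 6) true (nat_lit 3) true (nat_lit 9) true (nat_lit 2) true (nat_lit 13) true (nat_lit 13) (.s false (nat_lit 2) (nat_lit 21) (nat_lit 2) (nat_lit 6) (nat_lit 2) true (nat_lit 9) true (nat_lit 13) true (nat_lit 2) true (nat_lit 13) true (nat_lit 9) (.s false (nat_lit 1) (nat_lit 22) (nat_lit 2) (nat_lit 6) (nat_lit 2) true (nat_lit 9) true (nat_lit 13) true (nat_lit 2) true (nat_lit 13) true (nat_lit 9) (.s false (nat_lit 1) (nat_lit 21) (nat_lit 6) (nat_lit 2) (nat_lit 2) true (nat_lit 3) true (nat_lit 13) true (nat_lit 2) true (nat_lit 9) true (nat_lit 13) (.s false (nat_lit 3) (nat_lit 22) (nat_lit 6) (nat_lit 2) (nat_lit 2) true (nat_lit 3) true (nat_lit 13) true (nat_lit 2) true (nat_lit 9) true (nat_lit 13) (.s false (nat_lit 3)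 (nat_lit 28) (nat_lit 2) (nat_lit 1) (nat_lit 6) true (nat_lit 3) true (nat_lit 9) true (nat_lit 1) true (nat_lit 13) true (nat_lit 14) (.s true (nat_lit 2) (nat_lit 29) (nat_lit 2) (nat_lit 1) (nat_lit 6) true (nat_lit 3) true (nat_lit 9) true (nat_lit 1) true (nat_lit 13) true (nat_lit 14) dC1d_i493)))))))))))))))))))))))))

noncomputable def dC1d_i495 : IL := (.e true (nat_lit 2) (nat_lit 298) (nat_lit 2) (nat_lit 13) (.e false (nat_lit 3) (nat_lit 193) (nat_lit 5) (nat_lit 10) (.e true (nat_lit 1) (nat_lit 336) (nat_lit 1) (nat_lit 14) (.e false (nat_lit 1) (nat_lit 161) (nat_lit 6) (nat_lit 9) (.e false (nat_lit 3) (nat_lit 170) (nat_lit 6) (nat_lit 9) (.e true (nat_lit 1) (nat_lit 314) (nat_lit 2) (nat_lit 13) (.e true (nat_lit 1) (nat_lit 181) (nat_lit 5) (nat_lit 10) (.e true (nat_lit 1) (nat_lit 186) (nat_lit 5) (nat_lit 10) (.e false (nat_lit 2) (nat_lit 328) (nat_lit 1) (nat_lit 14) (.e false (nat_lit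 3) (nat_lit 329) (nat_lit 1) (nat_lit 14) (.e true (nat_lit 3) (nat_lit 330) (nat_lit 1) (nat_lit 14) (.e false (nat_lit 2) (nat_lit 331) (nat_lit 1) (nat_lit 14) (.e true (nat_lit 2) (nat_lit 332) (nat_lit 1) (nat_lit 14) (.e true (nat_lit 3) (nat_lit 333) (nat_lit 1) (nat_lit 14) (.e true (nat_lit 1) (nat_lit 334) (nat_lit 1) (nat_lit 14) (.e true (nat_lit 2) (nat_lit 335) (nat_lit 1) (nat_lit 14) (.e true (nat_lit 1) (nat_lit 337) (nat_lit 1) (nat_lit 14) (.e true (nat_lit 3) (nat_lit 338) (nat_lit 1) (nat_lit 14) (.e true (nat_lit 2) (nat_lit 347) (nat_lit 0) (nat_lit 15) (.e true (nat_lit 3) (nat_lit 349) (nat_lit 0) (nat_lit 15) (.e true (nat_lit 3) (nat_lit 350) (nat_lit 0) (nat_lit 15) (.e false (nat_lit 2) (nat_lit 351) (nat_lit 0) (nat_lit 15) (.e false (nat_lit 1) (nat_lit 352) (nat_lit 0) (nat_lit 15) (.u (nat_lit 2) (.p (nat_lit 0) (nat_lit 1) (.p (nat_lit 1) (nat_lit 1) (.p (nat_lit 3) (nat_lit 3)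 (.p (nat_lit 4) (nat_lit 1) (.n (nat_lit 5) (nat_lit 2) (.p (nat_lit 7) (nat_lit 1) (.n (nat_lit 9) (nat_lit 1) (.n (nat_lit 10) (nat_lit 1) (.n (nat_lit 11) (nat_lit 1) (.p (nat_lit 12) (nat_lit 1) (.p (nat_lit 13) (nat_lit 1) (.p (nat_lit 14) (nat_lit 1) (.p (nat_lit 19) (nat_lit 1) (.n (nat_lit 22) (nat_lit 2) (.n (nat_lit 29) (nat_lit 1) (.n (nat_lit 30) (nat_lit 1) (.n (nat_lit 33) (nat_lit 2) (.p (nat_lit 45) (nat_lit 1) (.p (nat_lit 53) (nat_lit 1) (.n (nat_lit 64) (nat_lit 1) (.p (nat_lit 65) (nat_lit 1) (.p (nat_lit 68) (nat_lit 1) (.p (nat_lit 74) (nat_lit 1) (.n (nat_lit 76) (nat_lit 1) (.n (nat_lit 77) (nat_lit 1) (.n (nat_lit 79) (nat_lit 1) (.p (nat_lit 84) (nat_lit 1) (.p (nat_lit 86) (nat_lit 1) (.n (nat_lit 95) (nat_lit 1) (.n (nat_lit 115) (nat_lit 1) (.n (nat_lit 118) (nat_lit 1) (.p (nat_lit 121) (nat_lit 2) (.p (nat_lit 122) (nat_lit 1) (.n (nat_lit 123) (nat_lit 1) (.n (nat_lit 125) (nat_lit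 1) (.p (nat_lit 126) (nat_lit 2) (.n (nat_lit 128) (nat_lit 1) (.p (nat_lit 129) (nat_lit 1) (.n (nat_lit 130) (nat_lit 1) (.p (nat_lit 131) (nat_lit 1) (.n (nat_lit 132) (nat_lit 1) (.n (nat_lit 133) (nat_lit 2) (.n (nat_lit 134) (nat_lit 1) (.n (nat_lit 137) (nat_lit 1) (.p (nat_lit 139) (nat_lit 1) (.p (nat_lit 140) (nat_lit 1) (.n (nat_lit 143) (nat_lit 3) (.p (nat_lit 145) (nat_lit 2) (.p (nat_lit 146) (nat_lit 2) (.p (nat_lit 147) (nat_lit 1) (.n (nat_lit 150) (nat_lit 2) (.p (nat_lit 151) (nat_lit 3) (.p (nat_lit 152) (nat_lit 2) (.p (nat_lit 153) (nat_lit 2) (.n (nat_lit 154) (nat_lit 2) (.n (nat_lit 155) (nat_lit 2) (.p (nat_lit 158) (nat_lit 3) (.p (nat_lit 159) (nat_lit 2) (.p (nat_lit 164) (nat_lit 1) (.p (nat_lit 165) (nat_lit 1) .z)))))))))))))))))))))))))))))))))))))))))))))))))))))))))))) (.u (nat_lit 2) (.p (nat_lit 166) (nat_lit 1) (.p (nat_lit 167) (nat_lit 2) (.n (nat_lit 169) (nat_lit 1) (.n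 (nat_lit 171) (nat_lit 1) (.p (nat_lit 172) (nat_lit 1) (.n (nat_lit 173) (nat_lit 9) (.n (nat_lit 174) (nat_lit 3) (.p (nat_lit 175) (nat_lit 11) (.n (nat_lit 176) (nat_lit 18) (.p (nat_lit 177) (nat_lit 7) (.n (nat_lit 178) (nat_lit 4) (.p (nat_lit 179) (nat_lit 1) (.n (nat_lit 180) (nat_lit 1) (.n (nat_lit 181) (nat_lit 14) (.n (nat_lit 182) (nat_lit 11) (.p (nat_lit 183) (nat_lit 1) (.n (nat_lit 184) (nat_lit 15) (.p (nat_lit 185) (nat_lit 2) (.p (nat_lit 187) (nat_lit 23) (.n (nat_lit 188) (nat_lit 3) (.n (nat_lit 190) (nat_lit 8) (.n (nat_lit 191) (nat_lit 1) (.p (nat_lit 192) (nat_lit 1) (.p (nat_lit 193) (nat_lit 2) (.n (nat_lit 194) (nat_lit 2) (.p (nat_lit 196) (nat_lit 2) (.p (nat_lit 199) (nat_lit 4) (.n (nat_lit 200) (nat_lit 2) (.p (nat_lit 201) (nat_lit 7) (.p (nat_lit 202) (nat_lit 2) (.p (nat_lit 203) (nat_lit 1) (.p (nat_lit 204) (nat_lit 2) (.n (nat_lit 205) (nat_lit 2) (.p (nat_lit 206) (nat_lit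 7) (.n (nat_lit 208) (nat_lit 1) (.n (nat_lit 209) (nat_lit 2) (.n (nat_lit 210) (nat_lit 1) (.n (nat_lit 211) (nat_lit 5) (.n (nat_lit 212) (nat_lit 1) (.n (nat_lit 213) (nat_lit 2) (.p (nat_lit 215) (nat_lit 4) (.n (nat_lit 216) (nat_lit 1) (.n (nat_lit 220) (nat_lit 1) (.p (nat_lit 222) (nat_lit 2) (.n (nat_lit 224) (nat_lit 1) (.p (nat_lit 225) (nat_lit 1) (.n (nat_lit 227) (nat_lit 1) .z))))))))))))))))))))))))))))))))))))))))))))))) .nil)))))))))))))))))))))))))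

noncomputable def dC1d_i496 : IL := (.s false (nat_lit 1) (nat_lit 82) (nat_lit 2) (nat_lit 1) (nat_lit 2) true (nat_lit 9) true (nat_lit 13) false (nat_lit 4) true (nat_lit 13) true (nat_lit 14) (.s false (nat_lit 2) (nat_lit 83) (nat_lit 2) (nat_lit 1) (nat_lit 2) true (nat_lit 9) true (nat_lit 13) false (nat_lit 4) true (nat_lit 13) true (nat_lit 14) (.s false (nat_lit 2) (nat_lit 85) (nat_lit 2) (nat_lit 1) (nat_lit 2) true (nat_lit 9) true (nat_lit 13) false (nat_lit 4) true (nat_lit 13) true (nat_lit 14) (.s true (nat_lit 3) (nat_lit 90) (nat_lit 2) (nat_lit 1) (nat_lit 2) true (nat_lit 9) true (nat_lit 13) false (nat_lit 4) true (nat_lit 13) true (nat_lit 14) (.s false (nat_lit 2) (nat_lit 91) (nat_lit 2) (nat_lit 1) (nat_lit 2) true (nat_lit 9) true (nat_lit 13) false (nat_lit 4) true (nat_lit 13) true (nat_lit 14) (.s true (nat_lit 3) (nat_lit 92) (nat_lit 2) (nat_lit 1) (nat_lit 2) true (nat_lit 9) true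 (nat_lit 13) false (nat_lit 4) true (nat_lit 13) true (nat_lit 14) (.s true (nat_lit 3) (nat_lit 84) (nat_lit 2) (nat_lit 2) (nat_lit 1) true (nat_lit 10) true (nat_lit 14) false (nat_lit 4) true (nat_lit 13) true (nat_lit 13) (.s true (nat_lit 2) (nat_lit 87) (nat_lit 2) (nat_lit 2) (nat_lit 1) true (nat_lit 10) true (nat_lit 14) false (nat_lit 4) true (nat_lit 13) true (nat_lit 13) (.s true (nat_lit 1) (nat_lit 88) (nat_lit 2) (nat_lit 2) (nat_lit 1) true (nat_lit 10) true (nat_lit 14) false (nat_lit 4) true (nat_lit 13) true (nat_lit 13) (.s false (nat_lit 3) (nat_lit 90) (nat_lit 2) (nat_lit 2) (nat_lit 1) true (nat_lit 10) true (nat_lit 14) false (nat_lit 4) true (nat_lit 13) true (nat_lit 13) (.s true (nat_lit 2) (nat_lit 92) (nat_lit 2) (nat_lit 2) (nat_lit 1) true (nat_lit 10) true (nat_lit 14) false (nat_lit 4) true (nat_lit 13) true (nat_lit 13) (.s true (nat_lit 1) (nat_lit 95) (nat_lit 0) (nat_lit 2)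 (nat_lit 2) true (nat_lit 11) true (nat_lit 13) false (nat_lit 5) true (nat_lit 15) true (nat_lit 13) (.s false (nat_lit 2) (nat_lit 101) (nat_lit 1) (nat_lit 1) (nat_lit 2) true (nat_lit 10) true (nat_lit 13) false (nat_lit 6) true (nat_lit 14) true (nat_lit 14) (.s true (nat_lit 3) (nat_lit 99) (nat_lit 2) (nat_lit 1) (nat_lit 1) true (nat_lit 10) true (nat_lit 14) false (nat_lit 6) true (nat_lit 13) true (nat_lit 14) (.s false (nat_lit 2) (nat_lit 101) (nat_lit 2) (nat_lit 1) (nat_lit 1) true (nat_lit 10) true (nat_lit 14) false (nat_lit 6) true (nat_lit 13) true (nat_lit 14) (.s true (nat_lit 2) (nat_lit 105) (nat_lit 0) (nat_lit 1) (nat_lit 2) true (nat_lit 11) true (nat_lit 13) false (nat_lit 7) true (nat_lit 15) true (nat_lit 14) (.s true (nat_lit 2) (nat_lit 105) (nat_lit 0) (nat_lit 2) (nat_lit 1) true (nat_lit 12) true (nat_lit 14) false (nat_lit 7) true (nat_lit 15) true (nat_lit 13) (.s true (nat_lit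 3) (nat_lit 104) (nat_lit 1) (nat_lit 2) (nat_lit 0) true (nat_lit 12) true (nat_lit 15) false (nat_lit 7) true (nat_lit 14) true (nat_lit 13) (.s true (nat_lit 2) (nat_lit 105) (nat_lit 1) (nat_lit 2) (nat_lit 0) true (nat_lit 12) true (nat_lit 15) false (nat_lit 7) true (nat_lit 14) true (nat_lit 13) (.e false (nat_lit 3) (nat_lit 172) (nat_lit 6) (nat_lit 9) (.e true (nat_lit 3) (nat_lit 292) (nat_lit 2) (nat_lit 13) (.e true (nat_lit 1) (nat_lit 307) (nat_lit 2) (nat_lit 13) (.e true (nat_lit 2) (nat_lit 312) (nat_lit 2) (nat_lit 13) (.e false (nat_lit 2) (nat_lit 316) (nat_lit 2) (nat_lit 13) (.e true (nat_lit 1) (nat_lit 318) (nat_lit 2) (nat_lit 13) dC1d_i495)))))))))))))))))))))))))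

noncomputable def dC1d_i497 : IL := (.s false (nat_lit 3) (nat_lit 45) (nat_lit 2) (nat_lit 3) (nat_lit 2) true (nat_lit 9) true (nat_lit 13) false (nat_lit 1) true (nat_lit 13) true (nat_lit 12) (.s true (nat_lit 3) (nat_lit 43) (nat_lit 2) (nat_lit 4) (nat_lit 1) true (nat_lit 10) true (nat_lit 14) false (nat_lit 1) true (nat_lit 13) true (nat_lit 11) (.s false (nat_lit 3) (nat_lit 44) (nat_lit 3) (nat_lit 2) (nat_lit 2) true (nat_lit 7) true (nat_lit 13) false (nat_lit 1) true (nat_lit 12) true (nat_lit 13) (.s true (nat_lit 1) (nat_lit 45) (nat_lit 3) (nat_lit 2) (nat_lit 2) true (nat_lit 7) true (nat_lit 13) false (nat_lit 1) true (nat_lit 12) true (nat_lit 13) (.s false (nat_lit 3) (nat_lit 43) (nat_lit 4) (nat_lit 2) (nat_lit 1) true (nat_lit 7) true (nat_lit 14) false (nat_lit 1) true (nat_lit 11) true (nat_lit 13) (.s true (nat_lit 1) (nat_lit 45) (nat_lit 4) (nat_lit 2) (nat_lit 1) true (nat_lit 7) true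 (nat_lit 14) false (nat_lit 1) true (nat_lit 11) true (nat_lit 13) (.s false (nat_lit 2) (nat_lit 45) (nat_lit 5) (nat_lit 2) (nat_lit 0) true (nat_lit 7) true (nat_lit 15) false (nat_lit 1) true (nat_lit 10) true (nat_lit 13) (.s false (nat_lit 1) (nat_lit 45) (nat_lit 6) (nat_lit 1) (nat_lit 0) true (nat_lit 5) true (nat_lit 15) false (nat_lit 1) true (nat_lit 9) true (nat_lit 14) (.s false (nat_lit 3) (nat_lit 46) (nat_lit 0) (nat_lit 1) (nat_lit 5) true (nat_lit 7) true (nat_lit 10) false (nat_lit 2) true (nat_lit 15) true (nat_lit 14) (.s false (nat_lit 3) (nat_lit 46) (nat_lit 1) (nat_lit 3) (nat_lit 2) true (nat_lit 10) true (nat_lit 13) false (nat_lit 2) true (nat_lit 14) true (nat_lit 12) (.s false (nat_lit 3) (nat_lit 46) (nat_lit 1) (nat_lit 4) (nat_lit 1) false (nat_lit 16) true (nat_lit 14) false (nat_lit 2) true (nat_lit 14) true (nat_lit 11) (.s true (nat_lit 3) (nat_lit 46) (nat_lit 2) (nat_lit 3)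 (nat_lit 1) true (nat_lit 10) true (nat_lit 14) false (nat_lit 2) true (nat_lit 13) true (nat_lit 12) (.s false (nat_lit 3) (nat_lit 46) (nat_lit 5) (nat_lit 0) (nat_lit 1) true (nat_lit 6) true (nat_lit 14) false (nat_lit 2) true (nat_lit 10) true (nat_lit 15) (.s true (nat_lit 1) (nat_lit 70) (nat_lit 2) (nat_lit 2) (nat_lit 2) true (nat_lit 9) true (nat_lit 13) false (nat_lit 3) true (nat_lit 13) true (nat_lit 13) (.s false (nat_lit 1) (nat_lit 71) (nat_lit 2) (nat_lit 2) (nat_lit 2) true (nat_lit 9) true (nat_lit 13) false (nat_lit 3) true (nat_lit 13) true (nat_lit 13) (.s false (nat_lit 1) (nat_lit 72) (nat_lit 2) (nat_lit 2) (nat_lit 2) true (nat_lit 9) true (nat_lit 13) false (nat_lit 3) true (nat_lit 13) true (nat_lit 13) (.s true (nat_lit 1) (nat_lit 75) (nat_lit 2) (nat_lit 2) (nat_lit 2) true (nat_lit 9) true (nat_lit 13) false (nat_lit 3) true (nat_lit 13) true (nat_lit 13) (.s false (nat_lit 3) (nat_lit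 76) (nat_lit 2) (nat_lit 2) (nat_lit 2) true (nat_lit 9) true (nat_lit 13) false (nat_lit 3) true (nat_lit 13) true (nat_lit 13) (.s true (nat_lit 3) (nat_lit 82) (nat_lit 1) (nat_lit 2) (nat_lit 2) true (nat_lit 10) true (nat_lit 13) false (nat_lit 4) true (nat_lit 14) true (nat_lit 13) (.s false (nat_lit 1) (nat_lit 83) (nat_lit 1) (nat_lit 2) (nat_lit 2) true (nat_lit 10) true (nat_lit 13) false (nat_lit 4) true (nat_lit 14) true (nat_lit 13) (.s true (nat_lit 2) (nat_lit 84) (nat_lit 1) (nat_lit 2) (nat_lit 2) true (nat_lit 10) true (nat_lit 13) false (nat_lit 4) true (nat_lit 14) true (nat_lit 13) (.s true (nat_lit 2) (nat_lit 86) (nat_lit 1) (nat_lit 2) (nat_lit 2) true (nat_lit 10) true (nat_lit 13) false (nat_lit 4) true (nat_lit 14) true (nat_lit 13) (.s false (nat_lit 2) (nat_lit 89) (nat_lit 1) (nat_lit 2) (nat_lit 2) true (nat_lit 10) true (nat_lit 13) false (nat_lit 4) true (nat_lit 14) true (nat_lit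 13) (.s false (nat_lit 1) (nat_lit 91) (nat_lit 1) (nat_lit 2) (nat_lit 2) true (nat_lit 10) true (nat_lit 13) false (nat_lit 4) true (nat_lit 14) true (nat_lit 13) (.s false (nat_lit 2) (nat_lit 92) (nat_lit 1) (nat_lit 2) (nat_lit 2) true (nat_lit 10) true (nat_lit 13) false (nat_lit 4) true (nat_lit 14) true (nat_lit 13) dC1d_i496)))))))))))))))))))))))))

noncomputable def dC1d_i498 : IL := (.s true (nat_lit 1) (nat_lit 18) (nat_lit 2) (nat_lit 3) (nat_lit 5) true (nat_lit 4) true (nat_lit 10) true (nat_lit 3) true (nat_lit 13) true (nat_lit 12) (.s false (nat_lit 3) (nat_lit 18) (nat_lit 2) (nat_lit 11) (nat_lit 1) true (nat_lit 10) true (nat_lit 14) true (nat_lit 3) true (nat_lit 13) true (nat_lit 7) (.s false (nat_lit 1) (nat_lit 18) (nat_lit 3) (nat_lit 2) (nat_lit 5) true (nat_lit 2) true (nat_lit 10) true (nat_lit 3) true (nat_lit 12) true (nat_lit 13) (.s false (nat_lit 3) (nat_lit 18) (nat_lit 5) (nat_lit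 3) (nat_lit 2) true (nat_lit 4) true (nat_lit 13) true (nat_lit 3) true (nat_lit 10) true (nat_lit 12) (.s false (nat_lit 1) (nat_lit 18) (nat_lit 8) (nat_lit 2) (nat_lit 2) true (nat_lit 2) true (nat_lit 13) true (nat_lit 3) true (nat_lit 8) true (nat_lit 13) (.s true (nat_lit 2) (nat_lit 18) (nat_lit 12) (nat_lit 2) (nat_lit 1) true (nat_lit 2) true (nat_lit 14) true (nat_lit 3) true (nat_lit 7) true (nat_lit 13) (.s false (nat_lit 2) (nat_lit 18) (nat_lit 14) (nat_lit 1) (nat_lit 1) true (nat_lit 1) true (nat_lit 14) true (nat_lit 3) true (nat_lit 5) true (nat_lit 14) (.s true (nat_lit 1) (nat_lit 24) (nat_lit 2) (nat_lit 2) (nat_lit 6) true (nat_lit 3) true (nat_lit 9) true (nat_lit 2) true (nat_lit 13) true (nat_lit 13) (.s true (nat_lit 1) (nat_lit 25) (nat_lit 2) (nat_lit 2) (nat_lit 6) true (nat_lit 3) true (nat_lit 9) true (nat_lit 2) true (nat_lit 13) true (nat_lit 13) (.s true (nat_lit 2) (nat_lit 26)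 (nat_lit 2) (nat_lit 2) (nat_lit 6) true (nat_lit 3) true (nat_lit 9) true (nat_lit 2) true (nat_lit 13) true (nat_lit 13) (.s true (nat_lit 3) (nat_lit 27) (nat_lit 2) (nat_lit 2) (nat_lit 6) true (nat_lit 3) true (nat_lit 9) true (nat_lit 2) true (nat_lit 13) true (nat_lit 13) (.s false (nat_lit 2) (nat_lit 26) (nat_lit 2) (nat_lit 6) (nat_lit 2) true (nat_lit 9) true (nat_lit 13) true (nat_lit 2) true (nat_lit 13) true (nat_lit 9) (.s false (nat_lit 3) (nat_lit 25) (nat_lit 6) (nat_lit 2) (nat_lit 2) true (nat_lit 3) true (nat_lit 13) true (nat_lit 2) true (nat_lit 9) true (nat_lit 13) (.s true (nat_lit 2) (nat_lit 36) (nat_lit 1) (nat_lit 2) (nat_lit 6) true (nat_lit 4) true (nat_lit 9) true (nat_lit 1) true (nat_lit 14) true (nat_lit 13) (.s false (nat_lit 2) (nat_lit 31) (nat_lit 1) (nat_lit 6) (nat_lit 2) true (nat_lit 10) true (nat_lit 13) true (nat_lit 1) true (nat_lit 14) true (nat_lit 9) (.s false (nat_lit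 2) (nat_lit 32) (nat_lit 1) (nat_lit 6) (nat_lit 2) true (nat_lit 10) true (nat_lit 13) true (nat_lit 1) true (nat_lit 14) true (nat_lit 9) (.s true (nat_lit 3) (nat_lit 34) (nat_lit 1) (nat_lit 6) (nat_lit 2) true (nat_lit 10) true (nat_lit 13) true (nat_lit 1) true (nat_lit 14) true (nat_lit 9) (.s true (nat_lit 1) (nat_lit 31) (nat_lit 2) (nat_lit 2) (nat_lit 5) true (nat_lit 4) true (nat_lit 10) true (nat_lit 1) true (nat_lit 13) true (nat_lit 13) (.s true (nat_lit 2) (nat_lit 32) (nat_lit 2) (nat_lit 2) (nat_lit 5) true (nat_lit 4) true (nat_lit 10) true (nat_lit 1) true (nat_lit 13) true (nat_lit 13) (.s true (nat_lit 3) (nat_lit 34) (nat_lit 2) (nat_lit 2) (nat_lit 5) true (nat_lit 4) true (nat_lit 10) true (nat_lit 1) true (nat_lit 13) true (nat_lit 13) (.s false (nat_lit 2) (nat_lit 36) (nat_lit 2) (nat_lit 2) (nat_lit 5) true (nat_lit 4) true (nat_lit 10) true (nat_lit 1) true (nat_lit 13) true (nat_lit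 13) (.s true (nat_lit 1) (nat_lit 31) (nat_lit 5) (nat_lit 2) (nat_lit 2) true (nat_lit 4) true (nat_lit 13) true (nat_lit 1) true (nat_lit 10) true (nat_lit 13) (.s false (nat_lit 3) (nat_lit 43) (nat_lit 1) (nat_lit 4) (nat_lit 2) true (nat_lit 10) true (nat_lit 13) false (nat_lit 1) true (nat_lit 14) true (nat_lit 11) (.s true (nat_lit 1) (nat_lit 45) (nat_lit 2) (nat_lit 2) (nat_lit 3) true (nat_lit 7) true (nat_lit 12) false (nat_lit 1) true (nat_lit 13) true (nat_lit 13) (.s true (nat_lit 1) (nat_lit 44) (nat_lit 2) (nat_lit 3) (nat_lit 2) true (nat_lit 9) true (nat_lit 13) false (nat_lit 1) true (nat_lit 13) true (nat_lit 12) dC1d_i497)))))))))))))))))))))))))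

noncomputable def dC1d_i499 : IL := (.e true (nat_lit 2) (nat_lit 286) (nat_lit 2) (nat_lit 13) (.e true (nat_lit 2) (nat_lit 288) (nat_lit 2) (nat_lit 13) (.e true (nat_lit 1) (nat_lit 271) (nat_lit 2) (nat_lit 13) (.e true (nat_lit 3) (nat_lit 274) (nat_lit 2) (nat_lit 13) (.e true (nat_lit 2) (nat_lit 320) (nat_lit 1) (nat_lit 14) (.e true (nat_lit 1) (nat_lit 321) (nat_lit 1) (nat_lit 14) (.e true (nat_lit 3) (nat_lit 322) (nat_lit 1) (nat_lit 14) (.e true (nat_lit 3) (nat_lit 323) (nat_lit 1) (nat_lit 14) (.e false (nat_lit 3) (nat_lit 324) (nat_lit 1) (nat_lit 14) (.e false (nat_lit 1) (nat_lit 325) (nat_lit 1) (nat_lit 14) (.e false (nat_lit 3) (nat_lit 100) (nat_lit 11) (nat_lit 6) (.e false (nat_lit 2) (nat_lit 328) (nat_lit 0) (nat_lit 15) (.e true (nat_lit 2) (nat_lit 332) (nat_lit 0) (nat_lit 15) (.e false (nat_lit 2) (nat_lit 334) (nat_lit 0) (nat_lit 15) (.e false (nat_lit 2) (nat_lit 335) (nat_lit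 0) (nat_lit 15) (.e true (nat_lit 1) (nat_lit 338) (nat_lit 0) (nat_lit 15) (.e false (nat_lit 3) (nat_lit 340) (nat_lit 0) (nat_lit 15) (.e false (nat_lit 3) (nat_lit 341) (nat_lit 0) (nat_lit 15) (.e true (nat_lit 1) (nat_lit 280) (nat_lit 2) (nat_lit 13) (.e true (nat_lit 1) (nat_lit 265) (nat_lit 2) (nat_lit 13) (.e true (nat_lit 1) (nat_lit 270) (nat_lit 2) (nat_lit 13) (.e true (nat_lit 1) (nat_lit 287) (nat_lit 2) (nat_lit 13) (.e false (nat_lit 1) (nat_lit 344) (nat_lit 0) (nat_lit 15) (.e false (nat_lit 3) (nat_lit 345) (nat_lit 0) (nat_lit 15) (.u (nat_lit 2) (.n (nat_lit 0) (nat_lit 1) (.p (nat_lit 1) (nat_lit 2) (.n (nat_lit 2) (nat_lit 3) (.n (nat_lit 5) (nat_lit 2) (.p (nat_lit 6) (nat_lit 6) (.p (nat_lit 7) (nat_lit 6) (.n (nat_lit 8) (nat_lit 4) (.p (nat_lit 9) (nat_lit 2) (.n (nat_lit 10) (nat_lit 3) (.n (nat_lit 12) (nat_lit 2) (.p (nat_lit 15) (nat_lit 1) (.n (nat_lit 17) (nat_lit 1) (.p (nat_lit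 18) (nat_lit 2) (.p (nat_lit 19) (nat_lit 2) (.n (nat_lit 21) (nat_lit 1) (.p (nat_lit 23) (nat_lit 1) (.n (nat_lit 25) (nat_lit 1) (.p (nat_lit 26) (nat_lit 1) (.p (nat_lit 27) (nat_lit 2) (.n (nat_lit 30) (nat_lit 2) (.n (nat_lit 33) (nat_lit 1) (.n (nat_lit 124) (nat_lit 1) (.n (nat_lit 173) (nat_lit 8) (.n (nat_lit 174) (nat_lit 5) (.p (nat_lit 175) (nat_lit 4) (.p (nat_lit 176) (nat_lit 3) (.p (nat_lit 177) (nat_lit 6) (.n (nat_lit 178) (nat_lit 5) (.n (nat_lit 180) (nat_lit 6) (.p (nat_lit 181) (nat_lit 2) (.p (nat_lit 182) (nat_lit 7) (.n (nat_lit 183) (nat_lit 2) (.n (nat_lit 184) (nat_lit 8) (.n (nat_lit 185) (nat_lit 2) (.p (nat_lit 186) (nat_lit 3) (.p (nat_lit 190) (nat_lit 2) (.p (nat_lit 191) (nat_lit 1) (.p (nat_lit 192) (nat_lit 9) (.n (nat_lit 193) (nat_lit 2) (.n (nat_lit 197) (nat_lit 3) (.n (nat_lit 198) (nat_lit 3) (.n (nat_lit 199) (nat_lit 1) (.n (nat_lit 200) (nat_lit 2) (.n (nat_lit 201)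 (nat_lit 1) (.n (nat_lit 203) (nat_lit 1) (.p (nat_lit 204) (nat_lit 1) (.n (nat_lit 208) (nat_lit 1) (.p (nat_lit 211) (nat_lit 1) (.p (nat_lit 213) (nat_lit 1) (.n (nat_lit 214) (nat_lit 3) (.n (nat_lit 215) (nat_lit 1) (.p (nat_lit 216) (nat_lit 1) (.n (nat_lit 217) (nat_lit 2) (.n (nat_lit 218) (nat_lit 2) (.n (nat_lit 219) (nat_lit 1) (.n (nat_lit 220) (nat_lit 3) (.n (nat_lit 221) (nat_lit 2) (.n (nat_lit 227) (nat_lit 1) (.p (nat_lit 229) (nat_lit 1) .z))))))))))))))))))))))))))))))))))))))))))))))))))))))))))) .nil)))))))))))))))))))))))))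

noncomputable def dC1d_t0 : Tr := (.nd (.nd (.nd (.nd (.nd (.nd (.nd .leaf (nat_lit 175106) (nat_lit 700) (.p (nat_lit 308) (nat_lit 1) .z) .df .leaf) (nat_lit 175110) (nat_lit 1443) (.n (nat_lit 460) (nat_lit 3) (.n (nat_lit 461) (nat_lit 1) (.p (nat_lit 462) (nat_lit 3) (.n (nat_lit 463) (nat_lit 1) (.p (nat_lit 465) (nat_lit 3) (.p (nat_lit 467) (nat_lit 1) (.p (nat_lit 468) (nat_lit 1) (.n (nat_lit 469) (nat_lit 3) (.n (nat_lit 470) (nat_lit 1) (.p (nat_lit 471) (nat_lit 3) (.p (nat_lit 473) (nat_lit 2) (.p (nat_lit 474) (nat_lit 2) (.n (nat_lit 475) (nat_lit 3) (.n (nat_lit 477) (nat_lit 2) (.p (nat_lit 479) (nat_lit 2) (.n (nat_lit 481) (nat_lit 3) (.p (nat_lit 489) (nat_lit 3) (.p (nat_lit 493) (nat_lit 2) .z)))))))))))))))))) (.ct dC1d_c293 (nat_lit 1) (nat_lit 9) (.s false (nat_lit 3) (nat_lit 25) (nat_lit 2) (nat_lit 2) (nat_lit 6) true (nat_lit 3) true (nat_lit 9) true (nat_lit 2) true (nat_lit 13) true (nat_lit 13) (.s true (nat_lit 3) (nat_lit 25) (nat_lit 2) (nat_lit 6) (nat_lit 2) true (nat_lit 9) true (nat_lit 13) true (nat_lit 2) true (nat_lit 13) true (nat_lit 9) (.s true (nat_lit 3) (nat_lit 25) (nat_lit 6) (nat_lit 2) (nat_lit 2) true (nat_lit 3) true (nat_lit 13) true (nat_lit 2) true (nat_lit 9) true (nat_lit 13) (.e false (nat_lit 2) (nat_lit 317) (nat_lit 2) (nat_lit 13) (.u (nat_lit 2) (.p (nat_lit 0) (nat_lit 1) (.p (nat_lit 1) (nat_lit 1) (.n (nat_lit 2) (nat_lit 1) (.p (nat_lit 3) (nat_lit 1) (.n (nat_lit 5) (nat_lit 1) (.n (nat_lit 7) (nat_lit 1) (.n (nat_lit 8) (nat_lit 1) (.p (nat_lit 9) (nat_lit 1) (.p (nat_lit 10) (nat_lit 1) (.n (nat_lit 11) (nat_lit 1) (.p (nat_lit 15) (nat_lit 1) (.p (nat_lit 21) (nat_lit 1) (.n (nat_lit 29) (nat_lit 1) (.p (nat_lit 143) (nat_lit 1) (.n (nat_lit 200) (nat_lit 2) .z))))))))))))))) .nil)))))) (.nd .leaf (nat_lit 176128) (nat_lit 436) (.p (nat_lit 230) (nat_lit 1) .z) .df .leaf)) (nat_lit 176130) (nat_lit 701) (.p (nat_lit 309) (nat_lit 1) .z) .df (.nd (.nd .leaf (nat_lit 176134) (nat_lit 1433) (.p (nat_lit 460) (nat_lit 2) (.p (nat_lit 461) (nat_lit 1) (.p (nat_lit 462) (nat_lit 3) (.p (nat_lit 463) (nat_lit 3) (.n (nat_lit 464) (nat_lit 3) (.n (nat_lit 465) (nat_lit 1) (.p (nat_lit 467) (nat_lit 2) (.n (nat_lit 468) (nat_lit 2) (.n (nat_lit 469) (nat_lit 3) (.n (nat_lit 470) (nat_lit 1) (.n (nat_lit 471) (nat_lit 2) (.p (nat_lit 472) (nat_lit 2) (.p (nat_lit 473) (nat_lit 3) (.p (nat_lit 474) (nat_lit 3) (.n (nat_lit 476) (nat_lit 1) (.p (nat_lit 479) (nat_lit 2) (.n (nat_lit 482) (nat_lit 3) (.n (nat_lit 489) (nat_lit 1) (.n (nat_lit 493) (nat_lit 3) .z))))))))))))))))))) (.ct dC1d_c293 (nat_lit 1) (nat_lit 9) (.s false (nat_lit 3) (nat_lit 26) (nat_lit 2) (nat_lit 2) (nat_lit 6) true (nat_lit 3) true (nat_lit 9) true (nat_lit 2) true (nat_lit 13) true (nat_lit 13) (.s true (nat_lit 3) (nat_lit 26) (nat_lit 2) (nat_lit 6) (nat_lit 2) true (nat_lit 9) true (nat_lit 13) true (nat_lit 2) true (nat_lit 13) true (nat_lit 9) (.s true (nat_lit 3) (nat_lit 26) (nat_lit 6) (nat_lit 2) (nat_lit 2) true (nat_lit 3) true (nat_lit 13) true (nat_lit 2) true (nat_lit 9) true (nat_lit 13) (.e false (nat_lit 2) (nat_lit 318) (nat_lit 2) (nat_lit 13) (.u (nat_lit 2) (.n (nat_lit 1) (nat_lit 1) (.n (nat_lit 2) (nat_lit 1) (.n (nat_lit 3) (nat_lit 1) (.p (nat_lit 4) (nat_lit 1) (.p (nat_lit 5) (nat_lit 1) (.p (nat_lit 9) (nat_lit 1) (.p (nat_lit 10) (nat_lit 1) (.n (nat_lit 13) (nat_lit 1) (.n (nat_lit 14) (nat_lit 1) (.p (nat_lit 16) (nat_lit 1) (.p (nat_lit 22) (nat_lit 1) (.p (nat_lit 29) (nat_lit 1) (.p (nat_lit 33) (nat_lit 1) (.p (nat_lit 144) (nat_lit 1) (.n (nat_lit 201) (nat_lit 2) .z))))))))))))))) .nil)))))) .leaf) (nat_lit 177152) (nat_lit 437) (.p (nat_lit 231) (nat_lit 1) .z) .df .leaf)) (nat_lit 177154) (nat_lit 702) (.p (nat_lit 310) (nat_lit 1) .z) .df (.nd (.nd (.nd .leaf (nat_lit 177158) (nat_lit 1483) (.p (nat_lit 460) (nat_lit 1) (.n (nat_lit 461) (nat_lit 3) (.p (nat_lit 462) (nat_lit 2) (.n (nat_lit 463) (nat_lit 2) (.n (nat_lit 464) (nat_lit 2) (.p (nat_lit 465) (nat_lit 1) (.n (nat_lit 467) (nat_lit 2) (.n (nat_lit 468) (nat_lit 1) (.p (nat_lit 469) (nat_lit 2) (.n (nat_lit 470) (nat_lit 3) (.n (nat_lit 471) (nat_lit 1) (.n (nat_lit 472) (nat_lit 1) (.n (nat_lit 473) (nat_lit 1) (.n (nat_lit 474) (nat_lit 1) (.p (nat_lit 475) (nat_lit 2) (.n (nat_lit 476) (nat_lit 1) (.p (nat_lit 477) (nat_lit 1) (.p (nat_lit 481) (nat_lit 3) (.p (nat_lit 483) (nat_lit 3) (.n (nat_lit 486) (nat_lit 3) (.p (nat_lit 493) (nat_lit 1) .z))))))))))))))))))))) (.ct dC1d_c293 (nat_lit 1) (nat_lit 9) (.s false (nat_lit 1) (nat_lit 44) (nat_lit 2) (nat_lit 3) (nat_lit 2) true (nat_lit 9) true (nat_lit 13) false (nat_lit 1) true (nat_lit 13) true (nat_lit 12) (.e false (nat_lit 3) (nat_lit 290) (nat_lit 2) (nat_lit 13) (.e true (nat_lit 1) (nat_lit 291) (nat_lit 2) (nat_lit 13) (.e true (nat_lit 3) (nat_lit 294) (nat_lit 2) (nat_lit 13) (.e false (nat_lit 1) (nat_lit 298) (nat_lit 2) (nat_lit 13) (.e true (nat_lit 1) (nat_lit 299) (nat_lit 2) (nat_lit 13) (.e false (nat_lit 2) (nat_lit 301) (nat_lit 2) (nat_lit 13) (.e false (nat_lit 1) (nat_lit 304) (nat_lit 2) (nat_lit 13) (.e true (nat_lit 2) (nat_lit 307) (nat_lit 2) (nat_lit 13) (.e true (nat_lit 2) (nat_lit 308) (nat_lit 2) (nat_lit 13) (.e true (nat_lit 2) (nat_lit 316) (nat_lit 2) (nat_lit 13) (.e false (nat_lit 3) (nat_lit 317) (nat_lit 2) (nat_lit 13) (.e false (nat_lit 1) (nat_lit 44) (nat_lit 31) (nat_lit 1) (.e false (nat_lit 1) (nat_lit 292) (nat_lit 2) (nat_lit 13) (.e true (nat_lit 1) (nat_lit 293) (nat_lit 2) (nat_lit 13) (.e true (nat_lit 1) (nat_lit 310) (nat_lit 2) (nat_lit 13) (.e false (nat_lit 1) (nat_lit 208) (nat_lit 3) (nat_lit 12) (.u (nat_lit 2) (.n (nat_lit 1) (nat_lit 1) (.n (nat_lit 2) (nat_lit 2) (.p (nat_lit 3) (nat_lit 1) (.n (nat_lit 4) (nat_lit 1) (.n (nat_lit 5) (nat_lit 3) (.n (nat_lit 7) (nat_lit 1) (.n (nat_lit 8) (nat_lit 1) (.p (nat_lit 10) (nat_lit 2) (.n (nat_lit 11) (nat_lit 1) (.n (nat_lit 12) (nat_lit 1) (.p (nat_lit 13) (nat_lit 3) (.p (nat_lit 14) (nat_lit 2) (.n (nat_lit 16) (nat_lit 2) (.n (nat_lit 17) (nat_lit 2) (.p (nat_lit 19) (nat_lit 2) (.n (nat_lit 23) (nat_lit 1) (.p (nat_lit 26) (nat_lit 1) (.n (nat_lit 29) (nat_lit 3) (.n (nat_lit 173) (nat_lit 1) (.p (nat_lit 177) (nat_lit 1) (.n (nat_lit 184) (nat_lit 1) (.p (nat_lit 190) (nat_lit 1) (.p (nat_lit 191) (nat_lit 1) (.n (nat_lit 200) (nat_lit 1) .z)))))))))))))))))))))))) .nil))))))))))))))))))) .leaf) (nat_lit 178177) (nat_lit 594) (.p (nat_lit 281) (nat_lit 1) .z) .df .leaf) (nat_lit 178178) (nat_lit 791) (.p (nat_lit 320) (nat_lit 1) .z) .df (.nd (.nd .leaf (nat_lit 178181) (nat_lit 1334) (.n (nat_lit 426) (nat_lit 1) (.p (nat_lit 427) (nat_lit 3) (.p (nat_lit 428) (nat_lit 1) (.n (nat_lit 429) (nat_lit 1) (.p (nat_lit 430) (nat_lit 2) (.p (nat_lit 431) (nat_lit 2) (.p (nat_lit 432) (nat_lit 2) (.p (nat_lit 433) (nat_lit 2) (.n (nat_lit 434) (nat_lit 2) (.p (nat_lit 435) (nat_lit 1) (.n (nat_lit 436) (nat_lit 2) (.p (nat_lit 438) (nat_lit 1) (.n (nat_lit 439) (nat_lit 3) (.n (nat_lit 441) (nat_lit 3) (.n (nat_lit 442) (nat_lit 3) (.p (nat_lit 443) (nat_lit 2) (.p (nat_lit 444) (nat_lit 1) (.p (nat_lit 445) (nat_lit 2) (.n (nat_lit 456) (nat_lit 2) (.n (nat_lit 457) (nat_lit 1) (.p (nat_lit 459) (nat_lit 1) .z))))))))))))))))))))) (.ct dC1d_c533 (nat_lit 1) (nat_lit 10) (.s true (nat_lit 1) (nat_lit 28) (nat_lit 1) (nat_lit 2) (nat_lit 6) true (nat_lit 4) true (nat_lit 9) true (nat_lit 1) true (nat_lit 14) true (nat_lit 13) (.s true (nat_lit 1) (nat_lit 77) (nat_lit 2) (nat_lit 2) (nat_lit 1) true (nat_lit 10) true (nat_lit 14) false (nat_lit 4) true (nat_lit 13) true (nat_lit 13) (.e true (nat_lit 1) (nat_lit 136) (nat_lit 6) (nat_lit 9) (.e false (nat_lit 1) (nat_lit 44) (nat_lit 28) (nat_lit 1) (.e false (nat_lit 1) (nat_lit 45) (nat_lit 28) (nat_lit 1) (.e true (nat_lit 2) (nat_lit 321) (nat_lit 1) (nat_lit 14) (.e false (nat_lit 3) (nat_lit 322) (nat_lit 1) (nat_lit 14) (.e true (nat_lit 3) (nat_lit 323) (nat_lit 1) (nat_lit 14) dC1d_i0))))))))) .leaf) (nat_lit 179201) (nat_lit 595) (.p (nat_lit 282) (nat_lit 1) .z) .df .leaf))) (nat_lit 179202) (nat_lit 792) (.p (nat_lit 321) (nat_lit 1) .z) .df (.nd (.nd (.nd (.nd .leaf (nat_lit 179205) (nat_lit 1388) (.p (nat_lit 426) (nat_lit 1) (.p (nat_lit 427) (nat_lit 1) (.p (nat_lit 428) (nat_lit 1) (.n (nat_lit 429) (nat_lit 2) (.p (nat_lit 430) (nat_lit 3) (.p (nat_lit 432) (nat_lit 3) (.p (nat_lit 433) (nat_lit 3) (.p (nat_lit 434) (nat_lit 2) (.p (nat_lit 435) (nat_lit 1) (.n (nat_lit 436) (nat_lit 2) (.n (nat_lit 437) (nat_lit 1) (.p (nat_lit 438) (nat_lit 3) (.p (nat_lit 439) (nat_lit 2) (.p (nat_lit 440) (nat_lit 1) (.p (nat_lit 441) (nat_lit 1) (.p (nat_lit 442) (nat_lit 2) (.n (nat_lit 443) (nat_lit 1) (.n (nat_lit 444) (nat_lit 2) (.p (nat_lit 445) (nat_lit 1) (.n (nat_lit 447) (nat_lit 1) (.p (nat_lit 448) (nat_lit 2) (.n (nat_lit 454) (nat_lit 2) (.p (nat_lit 455) (nat_lit 2) (.n (nat_lit 456) (nat_lit 3) (.p (nat_lit 459) (nat_lit 3) .z))))))))))))))))))))))))) (.ct dC1d_c533 (nat_lit 1) (nat_lit 10) (.s false (nat_lit 3) (nat_lit 28) (nat_lit 5) (nat_lit 2) (nat_lit 2) true (nat_lit 4) true (nat_lit 13) true (nat_lit 1) true (nat_lit 10) true (nat_lit 13) (.e false (nat_lit 3) (nat_lit 77) (nat_lit 16) (nat_lit 4) (.e false (nat_lit 3) (nat_lit 280) (nat_lit 2) (nat_lit 13) (.e false (nat_lit 3) (nat_lit 43) (nat_lit 28) (nat_lit 1) (.e true (nat_lit 2) (nat_lit 176) (nat_lit 5) (nat_lit 10) (.e false (nat_lit 2) (nat_lit 177) (nat_lit 5) (nat_lit 10) (.e false (nat_lit 3) (nat_lit 178) (nat_lit 5) (nat_lit 10) (.e true (nat_lit 3) (nat_lit 179) (nat_lit 5) (nat_lit 10) (.e true (nat_lit 3) (nat_lit 289) (nat_lit 2) (nat_lit 13) (.u (nat_lit 2) (.p (nat_lit 0) (nat_lit 4) (.n (nat_lit 1) (nat_lit 2) (.n (nat_lit 2) (nat_lit 2) (.p (nat_lit 3) (nat_lit 2) (.n (nat_lit 6) (nat_lit 2) (.n (nat_lit 7) (nat_lit 2) (.n (nat_lit 8) (nat_lit 1) (.n (nat_lit 9) (nat_lit 3) (.p (nat_lit 10) (nat_lit 1) (.p (nat_lit 11) (nat_lit 2) (.p (nat_lit 12) (nat_lit 1) (.n (nat_lit 13) (nat_lit 1) (.n (nat_lit 14) (nat_lit 2) (.n (nat_lit 15) (nat_lit 2) (.p (nat_lit 16) (nat_lit 2) (.p (nat_lit 17) (nat_lit 3) (.n (nat_lit 18) (nat_lit 1) (.n (nat_lit 19) (nat_lit 4) (.p (nat_lit 21) (nat_lit 2) (.p (nat_lit 22) (nat_lit 3) (.n (nat_lit 28) (nat_lit 3) (.p (nat_lit 29) (nat_lit 3) (.p (nat_lit 30) (nat_lit 1) (.p (nat_lit 147) (nat_lit 1) (.n (nat_lit 148) (nat_lit 1) (.p (nat_lit 149) (nat_lit 1) .z)))))))))))))))))))))))))) .nil))))))))))) .leaf) (nat_lit 180225) (nat_lit 639) (.n (nat_lit 260) (nat_lit 3) (.p (nat_lit 262) (nat_lit 3) (.n (nat_lit 263) (nat_lit 2) (.n (nat_lit 264) (nat_lit 3) (.n (nat_lit 265) (nat_lit 1) (.n (nat_lit 266) (nat_lit 3) (.p (nat_lit 271) (nat_lit 2) (.n (nat_lit 272) (nat_lit 3) (.n (nat_lit 273) (nat_lit 2) (.n (nat_lit 277) (nat_lit 2) (.p (nat_lit 278) (nat_lit 1) (.n (nat_lit 280) (nat_lit 3) (.p (nat_lit 281) (nat_lit 1) (.p (nat_lit 282) (nat_lit 2) (.p (nat_lit 286) (nat_lit 1) (.n (nat_lit 289) (nat_lit 1) .z)))))))))))))))) (.ct dC1d_c532 (nat_lit 1) (nat_lit 11) (.s false (nat_lit 3) (nat_lit 46) (nat_lit 0) (nat_lit 1) (nat_lit 0) false (nat_lit 13) true (nat_lit 12) false (nat_lit 5) true (nat_lit 12) true (nat_lit 11) (.e false (nat_lit 3) (nat_lit 180) (nat_lit 0) (nat_lit 12) (.e true (nat_lit 1) (nat_lit 181) (nat_lit 0) (nat_lit 12) (.e true (nat_lit 1) (nat_lit 185) (nat_lit 0) (nat_lit 12) (.e true (nat_lit 1) (nat_lit 186) (nat_lit 0) (nat_lit 12) (.e true (nat_lit 1) (nat_lit 187) (nat_lit 0) (nat_lit 12) (.e true (nat_lit 3) (nat_lit 188) (nat_lit 0) (nat_lit 12) (.e false (nat_lit 2) (nat_lit 189) (nat_lit 0) (nat_lit 12) (.e false (nat_lit 1) (nat_lit 190) (nat_lit 0) (nat_lit 12) (.e false (nat_lit 3) (nat_lit 193) (nat_lit 0) (nat_lit 12) (.e false (nat_lit 2) (nat_lit 183) (nat_lit 0) (nat_lit 12) (.e false (nat_lit 3) (nat_lit 46) (nat_lit 7) (nat_lit 5) (.e true (nat_lit 3) (nat_lit 182) (nat_lit 0) (nat_lit 12) (.e true (nat_lit 3) (nat_lit 174) (nat_lit 1) (nat_lit 11) (.e true (nat_lit 1) (nat_lit 177) (nat_lit 1) (nat_lit 11) (.e false (nat_lit 3) (nat_lit 178) (nat_lit 1) (nat_lit 11) (.e true (nat_lit 2) (nat_lit 179) (nat_lit 1) (nat_lit 11) (.u (nat_lit 2) (.p (nat_lit 0) (nat_lit 1) (.n (nat_lit 1) (nat_lit 4) (.n (nat_lit 2) (nat_lit 5) (.p (nat_lit 3) (nat_lit 2) (.p (nat_lit 4) (nat_lit 1) (.n (nat_lit 5) (nat_lit 1) (.p (nat_lit 6) (nat_lit 4) (.p (nat_lit 7) (nat_lit 1) (.n (nat_lit 8) (nat_lit 2) (.n (nat_lit 9) (nat_lit 2) (.p (nat_lit 10) (nat_lit 1) (.n (nat_lit 11) (nat_lit 2) (.n (nat_lit 12) (nat_lit 4) (.p (nat_lit 14) (nat_lit 2) (.n (nat_lit 17) (nat_lit 2) (.n (nat_lit 18) (nat_lit 2) (.p (nat_lit 19) (nat_lit 3) (.n (nat_lit 20) (nat_lit 1) (.n (nat_lit 21) (nat_lit 1) (.p (nat_lit 24) (nat_lit 1) (.p (nat_lit 26) (nat_lit 1) (.n (nat_lit 27) (nat_lit 1) (.p (nat_lit 28) (nat_lit 1) (.p (nat_lit 119) (nat_lit 1) (.p (nat_lit 120) (nat_lit 1) (.p (nat_lit 122) (nat_lit 2) (.p (nat_lit 124) (nat_lit 1) (.p (nat_lit 126) (nat_lit 1) (.p (nat_lit 128) (nat_lit 1) (.p (nat_lit 129) (nat_lit 1) (.p (nat_lit 130) (nat_lit 1) (.n (nat_lit 132) (nat_lit 2) (.n (nat_lit 133) (nat_lit 1) .z))))))))))))))))))))))))))))))))) .nil))))))))))))))))))) .leaf) (nat_lit 180226) (nat_lit 793) (.p (nat_lit 322) (nat_lit 1) .z) .df (.nd (.nd .leaf (nat_lit 180229) (nat_lit 1386) (.n (nat_lit 426) (nat_lit 2) (.p (nat_lit 427) (nat_lit 2) (.p (nat_lit 428) (nat_lit 3) (.p (nat_lit 429) (nat_lit 1) (.p (nat_lit 430) (nat_lit 3) (.n (nat_lit 434) (nat_lit 1) (.p (nat_lit 435) (nat_lit 3) (.n (nat_lit 437) (nat_lit 2) (.n (nat_lit 438) (nat_lit 2) (.n (nat_lit 439) (nat_lit 1) (.p (nat_lit 440) (nat_lit 2) (.p (nat_lit 441) (nat_lit 2) (.p (nat_lit 442) (nat_lit 3) (.n (nat_lit 443) (nat_lit 2) (.p (nat_lit 444) (nat_lit 3) (.p (nat_lit 445) (nat_lit 3) (.n (nat_lit 447) (nat_lit 2) (.n (nat_lit 448) (nat_lit 3) (.p (nat_lit 454) (nat_lit 3) (.n (nat_lit 455) (nat_lit 3) (.p (nat_lit 456) (nat_lit 1) (.n (nat_lit 459) (nat_lit 1) .z)))))))))))))))))))))) (.ct dC1d_c533 (nat_lit 1) (nat_lit 10) (.s true (nat_lit 1) (nat_lit 79) (nat_lit 2) (nat_lit 2) (nat_lit 1) true (nat_lit 10) true (nat_lit 14) false (nat_lit 4) true (nat_lit 13) true (nat_lit 13) (.e true (nat_lit 1) (nat_lit 322) (nat_lit 1) (nat_lit 14) (.e false (nat_lit 1) (nat_lit 79) (nat_lit 17) (nat_lit 4) (.e false (nat_lit 2) (nat_lit 261) (nat_lit 2) (nat_lit 13) (.e false (nat_lit 1) (nat_lit 262) (nat_lit 2) (nat_lit 13) (.e true (nat_lit 1) (nat_lit 263) (nat_lit 2) (nat_lit 13) (.e false (nat_lit 2) (nat_lit 264) (nat_lit 2) (nat_lit 13) (.e false (nat_lit 1) (nat_lit 265) (nat_lit 2) (nat_lit 13) (.e false (nat_lit 3) (nat_lit 266) (nat_lit 2) (nat_lit 13) (.e false (nat_lit 3) (nat_lit 271) (nat_lit 2) (nat_lit 13) (.e false (nat_lit 3) (nat_lit 272) (nat_lit 2) (nat_lit 13) (.e true (nat_lit 1) (nat_lit 273) (nat_lit 2) (nat_lit 13) (.e true (nat_lit 1) (nat_lit 274) (nat_lit 2) (nat_lit 13) (.e true (nat_lit 3) (nat_lit 277) (nat_lit 2) (nat_lit 13) (.e true (nat_lit 2) (nat_lit 278) (nat_lit 2) (nat_lit 13) (.e true (nat_lit 1) (nat_lit 279) (nat_lit 2) (nat_lit 13) (.e false (nat_lit 2) (nat_lit 280) (nat_lit 2) (nat_lit 13) (.e true (nat_lit 1) (nat_lit 281) (nat_lit 2) (nat_lit 13) (.e true (nat_lit 2) (nat_lit 282) (nat_lit 2) (nat_lit 13) (.e true (nat_lit 2) (nat_lit 287) (nat_lit 2) (nat_lit 13) (.e false (nat_lit 3) (nat_lit 288) (nat_lit 2) (nat_lit 13) (.e false (nat_lit 1) (nat_lit 289) (nat_lit 2) (nat_lit 13) (.u (nat_lit 2) (.n (nat_lit 0) (nat_lit 1) (.n (nat_lit 2) (nat_lit 1) (.p (nat_lit 3) (nat_lit 1) (.n (nat_lit 4) (nat_lit 3) (.p (nat_lit 5) (nat_lit 1) (.n (nat_lit 6) (nat_lit 1) (.n (nat_lit 7) (nat_lit 1) (.p (nat_lit 8) (nat_lit 1) (.p (nat_lit 9) (nat_lit 2) (.p (nat_lit 10) (nat_lit 1) (.p (nat_lit 12) (nat_lit 1) (.p (nat_lit 13) (nat_lit 2) (.n (nat_lit 18) (nat_lit 2) (.n (nat_lit 19) (nat_lit 1) (.n (nat_lit 21) (nat_lit 1) (.p (nat_lit 22) (nat_lit 2) (.p (nat_lit 24) (nat_lit 1) (.p (nat_lit 26) (nat_lit 1) (.p (nat_lit 27) (nat_lit 1) (.n (nat_lit 28) (nat_lit 1) (.p (nat_lit 29) (nat_lit 1) (.p (nat_lit 30) (nat_lit 1) (.p (nat_lit 33) (nat_lit 1) .z))))))))))))))))))))))) .nil)))))))))))))))))))))))) .leaf) (nat_lit 181249) (nat_lit 638) (.n (nat_lit 260) (nat_lit 2) (.p (nat_lit 262) (nat_lit 2) (.n (nat_lit 264) (nat_lit 3) (.p (nat_lit 265) (nat_lit 1) (.n (nat_lit 266) (nat_lit 3) (.p (nat_lit 267) (nat_lit 3) (.n (nat_lit 268) (nat_lit 3) (.n (nat_lit 269) (nat_lit 2) (.p (nat_lit 271) (nat_lit 1) (.n (nat_lit 278) (nat_lit 2) (.n (nat_lit 279) (nat_lit 3) (.p (nat_lit 280) (nat_lit 2) (.p (nat_lit 281) (nat_lit 1) (.n (nat_lit 282) (nat_lit 3) (.p (nat_lit 286) (nat_lit 1) (.n (nat_lit 288) (nat_lit 3) (.p (nat_lit 289) (nat_lit 3) .z))))))))))))))))) (.ct dC1d_c532 (nat_lit 1) (nat_lit 11) (.s false (nat_lit 1) (nat_lit 12) (nat_lit 2) (nat_lit 2) (nat_lit 4) true (nat_lit 2) true (nat_lit 8) true (nat_lit 3) true (nat_lit 10) true (nat_lit 10) (.s true (nat_lit 3) (nat_lit 15) (nat_lit 3) (nat_lit 2) (nat_lit 2) true (nat_lit 3) true (nat_lit 10) true (nat_lit 2) true (nat_lit 9) true (nat_lit 10) (.s false (nat_lit 1) (nat_lit 18) (nat_lit 0) (nat_lit 2) (nat_lit 3) true (nat_lit 5) true (nat_lit 9) true (nat_lit 0) true (nat_lit 12) true (nat_lit 10) (.s false (nat_lit 1) (nat_lit 18) (nat_lit 5) (nat_lit 0) (nat_lit 0) true (nat_lit 3) true (nat_lit 12) true (nat_lit 0) true (nat_lit 7) true (nat_lit 12) (.s true (nat_lit 1) (nat_lit 33) (nat_lit 0) (nat_lit 2) (nat_lit 2) true (nat_lit 8) true (nat_lit 10) false (nat_lit 2) true (nat_lit 12) true (nat_lit 10) (.s true (nat_lit 1) (nat_lit 41) (nat_lit 1) (nat_lit 2) (nat_lit 0) true (nat_lit 9) true (nat_lit 12) false (nat_lit 3) true (nat_lit 11) true (nat_lit 10) (.e false (nat_lit 2) (nat_lit 132) (nat_lit 2) (nat_lit 10) (.e true (nat_lit 2) (nat_lit 133) (nat_lit 2) (nat_lit 10) (.e false (nat_lit 1) (nat_lit 134) (nat_lit 2) (nat_lit 10) (.e true (nat_lit 1) (nat_lit 135) (nat_lit 2) (nat_lit 10) (.e true (nat_lit 3) (nat_lit 136) (nat_lit 2) (nat_lit 10) (.e true (nat_lit 2) (nat_lit 138) (nat_lit 2) (nat_lit 10) (.e true (nat_lit 2) (nat_lit 140) (nat_lit 2) (nat_lit 10) (.e true (nat_lit 2) (nat_lit 142) (nat_lit 2) (nat_lit 10) (.e true (nat_lit 1) (nat_lit 144) (nat_lit 2) (nat_lit 10) (.e true (nat_lit 1) (nat_lit 145) (nat_lit 2) (nat_lit 10) (.e false (nat_lit 1) (nat_lit 146) (nat_lit 2) (nat_lit 10) (.e false (nat_lit 3) (nat_lit 147) (nat_lit 2) (nat_lit 10) (.e true (nat_lit 2) (nat_lit 148) (nat_lit 2) (nat_lit 10) (.e false (nat_lit 3) (nat_lit 149) (nat_lit 2) (nat_lit 10) (.e true (nat_lit 1) (nat_lit 150) (nat_lit 2) (nat_lit 10) dC1d_i1)))))))))))))))))))))) .leaf)) (nat_lit 181250) (nat_lit 794) (.p (nat_lit 323) (nat_lit 1) .z) .df (.nd (.nd (.nd .leaf (nat_lit 181253) (nat_lit 1387) (.n (nat_lit 426) (nat_lit 1) (.n (nat_lit 427) (nat_lit 3) (.p (nat_lit 428) (nat_lit 1) (.p (nat_lit 429) (nat_lit 1) (.n (nat_lit 431) (nat_lit 3) (.p (nat_lit 432) (nat_lit 2) (.p (nat_lit 433) (nat_lit 2) (.n (nat_lit 434) (nat_lit 2) (.p (nat_lit 435) (nat_lit 2) (.p (nat_lit 436) (nat_lit 1) (.p (nat_lit 437) (nat_lit 3) (.n (nat_lit 438) (nat_lit 3) (.n (nat_lit 439) (nat_lit 2) (.n (nat_lit 440) (nat_lit 3) (.n (nat_lit 441) (nat_lit 3) (.n (nat_lit 442) (nat_lit 1) (.p (nat_lit 443) (nat_lit 2) (.n (nat_lit 445) (nat_lit 3) (.p (nat_lit 447) (nat_lit 3) (.p (nat_lit 448) (nat_lit 1) (.n (nat_lit 454) (nat_lit 1) (.p (nat_lit 455) (nat_lit 1) (.p (nat_lit 457) (nat_lit 3) (.n (nat_lit 459) (nat_lit 1) .z)))))))))))))))))))))))) (.ct dC1d_c533 (nat_lit 1) (nat_lit 10) (.s false (nat_lit 3) (nat_lit 46) (nat_lit 0) (nat_lit 5) (nat_lit 0) false (nat_lit 16) true (nat_lit 15) false (nat_lit 2) true (nat_lit 15) true (nat_lit 10) (.e true (nat_lit 1) (nat_lit 328) (nat_lit 0) (nat_lit 15) (.e false (nat_lit 1) (nat_lit 330) (nat_lit 0) (nat_lit 15) (.e true (nat_lit 2) (nat_lit 331) (nat_lit 0) (nat_lit 15) (.e false (nat_lit 1) (nat_lit 332) (nat_lit 0) (nat_lit 15) (.e true (nat_lit 2) (nat_lit 336) (nat_lit 0) (nat_lit 15) (.e false (nat_lit 1) (nat_lit 337) (nat_lit 0) (nat_lit 15) (.e true (nat_lit 3) (nat_lit 338) (nat_lit 0) (nat_lit 15) (.e false (nat_lit 3) (nat_lit 340) (nat_lit 0) (nat_lit 15) (.e true (nat_lit 3) (nat_lit 329) (nat_lit 0) (nat_lit 15) (.e false (nat_lit 3) (nat_lit 46) (nat_lit 23) (nat_lit 2) (.e true (nat_lit 3) (nat_lit 174) (nat_lit 5) (nat_lit 10) (.e true (nat_lit 1) (nat_lit 176) (nat_lit 5) (nat_lit 10) (.e false (nat_lit 3) (nat_lit 178) (nat_lit 5) (nat_lit 10) (.e true (nat_lit 2) (nat_lit 179) (nat_lit 5) (nat_lit 10) (.u (nat_lit 2) (.p (nat_lit 0) (nat_lit 2) (.n (nat_lit 1) (nat_lit 2) (.n (nat_lit 2) (nat_lit 1) (.p (nat_lit 3) (nat_lit 2) (.n (nat_lit 4) (nat_lit 1) (.p (nat_lit 5) (nat_lit 1) (.n (nat_lit 6) (nat_lit 2) (.n (nat_lit 7) (nat_lit 2) (.p (nat_lit 10) (nat_lit 2) (.p (nat_lit 12) (nat_lit 2) (.p (nat_lit 13) (nat_lit 2) (.p (nat_lit 15) (nat_lit 2) (.p (nat_lit 16) (nat_lit 3) (.n (nat_lit 18) (nat_lit 2) (.n (nat_lit 19) (nat_lit 2) (.p (nat_lit 22) (nat_lit 2) (.n (nat_lit 28) (nat_lit 2) (.p (nat_lit 29) (nat_lit 2) (.n (nat_lit 30) (nat_lit 1) (.p (nat_lit 148) (nat_lit 1) (.p (nat_lit 149) (nat_lit 1) (.p (nat_lit 151) (nat_lit 2) (.p (nat_lit 211) (nat_lit 1) (.n (nat_lit 213) (nat_lit 1) (.p (nat_lit 214) (nat_lit 2) (.n (nat_lit 215) (nat_lit 1) (.n (nat_lit 219) (nat_lit 1) (.n (nat_lit 220) (nat_lit 1) (.p (nat_lit 221) (nat_lit 3) .z))))))))))))))))))))))))))))) .nil))))))))))))))))) .leaf) (nat_lit 182273) (nat_lit 637) (.n (nat_lit 261) (nat_lit 3) (.n (nat_lit 262) (nat_lit 3) (.p (nat_lit 263) (nat_lit 3) (.n (nat_lit 264) (nat_lit 3) (.n (nat_lit 265) (nat_lit 1) (.p (nat_lit 266) (nat_lit 3) (.n (nat_lit 267) (nat_lit 2) (.p (nat_lit 268) (nat_lit 1) (.n (nat_lit 269) (nat_lit 1) (.p (nat_lit 270) (nat_lit 1) (.n (nat_lit 272) (nat_lit 1) (.n (nat_lit 273) (nat_lit 3) (.n (nat_lit 277) (nat_lit 3) (.n (nat_lit 278) (nat_lit 3) (.p (nat_lit 279) (nat_lit 3) (.p (nat_lit 282) (nat_lit 1) (.p (nat_lit 286) (nat_lit 1) (.n (nat_lit 287) (nat_lit 1) (.p (nat_lit 288) (nat_lit 2) .z))))))))))))))))))) (.ct dC1d_c532 (nat_lit 1) (nat_lit 11) (.s false (nat_lit 1) (nat_lit 40) (nat_lit 0) (nat_lit 1) (nat_lit 2) true (nat_lit 8) true (nat_lit 10) false (nat_lit 3) true (nat_lit 12) true (nat_lit 11) (.e false (nat_lit 1) (nat_lit 88) (nat_lit 4) (nat_lit 8) (.e false (nat_lit 1) (nat_lit 146) (nat_lit 2) (nat_lit 10) (.e false (nat_lit 1) (nat_lit 40) (nat_lit 10) (nat_lit 3) (.e false (nat_lit 1) (nat_lit 195) (nat_lit 0) (nat_lit 12) (.u (nat_lit 2) (.p (nat_lit 1) (nat_lit 1) (.p (nat_lit 2) (nat_lit 1) (.p (nat_lit 4) (nat_lit 1) (.p (nat_lit 11) (nat_lit 1) (.p (nat_lit 13) (nat_lit 1) (.p (nat_lit 17) (nat_lit 1) (.p (nat_lit 18) (nat_lit 1) (.n (nat_lit 22) (nat_lit 1) (.n (nat_lit 28) (nat_lit 1) (.p (nat_lit 29) (nat_lit 1) .z)))))))))) .nil))))))) .leaf) (nat_lit 182274) (nat_lit 795) (.p (nat_lit 324) (nat_lit 1) .z) .df (.nd (.nd .leaf (nat_lit 182277) (nat_lit 1296) (.p (nat_lit 426) (nat_lit 2) (.p (nat_lit 427) (nat_lit 1) (.n (nat_lit 428) (nat_lit 2) (.p (nat_lit 429) (nat_lit 1) (.p (nat_lit 430) (nat_lit 2) (.p (nat_lit 431) (nat_lit 2) (.n (nat_lit 434) (nat_lit 2) (.n (nat_lit 435) (nat_lit 2) (.n (nat_lit 437) (nat_lit 1) (.p (nat_lit 439) (nat_lit 2) (.p (nat_lit 440) (nat_lit 1) (.p (nat_lit 441) (nat_lit 1) (.p (nat_lit 442) (nat_lit 3) (.n (nat_lit 443) (nat_lit 1) (.n (nat_lit 444) (nat_lit 2) (.n (nat_lit 447) (nat_lit 1) (.p (nat_lit 448) (nat_lit 2) (.n (nat_lit 454) (nat_lit 2) (.p (nat_lit 455) (nat_lit 2) (.n (nat_lit 456) (nat_lit 3) (.p (nat_lit 459) (nat_lit 3) .z))))))))))))))))))))) (.ct dC1d_c533 (nat_lit 1) (nat_lit 10) (.s false (nat_lit 1) (nat_lit 98) (nat_lit 2) (nat_lit 0) (nat_lit 1) true (nat_lit 10) true (nat_lit 14) false (nat_lit 6) true (nat_lit 13) true (nat_lit 15) (.e false (nat_lit 1) (nat_lit 320) (nat_lit 1) (nat_lit 14) (.e false (nat_lit 2) (nat_lit 321) (nat_lit 1) (nat_lit 14) (.e true (nat_lit 3) (nat_lit 322) (nat_lit 1) (nat_lit 14) dC1d_i2))))) .leaf) (nat_lit 183297) (nat_lit 632) (.p (nat_lit 260) (nat_lit 3) (.p (nat_lit 261) (nat_lit 3) (.p (nat_lit 262) (nat_lit 3) (.p (nat_lit 263) (nat_lit 2) (.p (nat_lit 265) (nat_lit 1) (.n (nat_lit 266) (nat_lit 3) (.n (nat_lit 267) (nat_lit 3) (.p (nat_lit 268) (nat_lit 2) (.p (nat_lit 269) (nat_lit 2) (.n (nat_lit 270) (nat_lit 1) (.p (nat_lit 272) (nat_lit 3) (.p (nat_lit 273) (nat_lit 2) (.p (nat_lit 277) (nat_lit 2) (.p (nat_lit 278) (nat_lit 3) (.n (nat_lit 279) (nat_lit 1) (.n (nat_lit 280) (nat_lit 1) (.p (nat_lit 281) (nat_lit 1) (.p (nat_lit 282) (nat_lit 2) (.n (nat_lit 286) (nat_lit 3) (.n (nat_lit 287) (nat_lit 3) (.n (nat_lit 288) (nat_lit 1) (.n (nat_lit 289) (nat_lit 1) .z)))))))))))))))))))))) (.ct dC1d_c532 (nat_lit 1) (nat_lit 11) (.s false (nat_lit 1) (nat_lit 9) (nat_lit 2) (nat_lit 2) (nat_lit 5) true (nat_lit 1) true (nat_lit 7) true (nat_lit 4) true (nat_lit 10) true (nat_lit 10) (.s true (nat_lit 1) (nat_lit 12) (nat_lit 2) (nat_lit 0) (nat_lit 6) true (nat_lit 0) true (nat_lit 6) true (nat_lit 3) true (nat_lit 10) true (nat_lit 12) (.s true (nat_lit 1) (nat_lit 12) (nat_lit 2) (nat_lit 2) (nat_lit 4) true (nat_lit 2) true (nat_lit 8) true (nat_lit 3) true (nat_lit 10) true (nat_lit 10) (.s true (nat_lit 3) (nat_lit 10) (nat_lit 2) (nat_lit 4) (nat_lit 2) true (nat_lit 6) true (nat_lit 10) true (nat_lit 3) true (nat_lit 10) true (nat_lit 8) (.s true (nat_lit 2) (nat_lit 11) (nat_lit 2) (nat_lit 4) (nat_lit 2) true (nat_lit 6) true (nat_lit 10) true (nat_lit 3) true (nat_lit 10) true (nat_lit 8) (.s true (nat_lit 1) (nat_lit 14) (nat_lit 1) (nat_lit 4) (nat_lit 2) true (nat_lit 7) true (nat_lit 10) true (nat_lit 2) true (nat_lit 11) true (nat_lit 8) (.s false (nat_lit 1) (nat_lit 14) (nat_lit 2) (nat_lit 3) (nat_lit 2) true (nat_lit 6) true (nat_lit 10) true (nat_lit 2) true (nat_lit 10) true (nat_lit 9) (.s false (nat_lit 3) (nat_lit 15) (nat_lit 3) (nat_lit 2) (nat_lit 2) true (nat_lit 3) true (nat_lit 10) true (nat_lit 2) true (nat_lit 9) true (nat_lit 10) (.s false (nat_lit 1) (nat_lit 14) (nat_lit 5) (nat_lit 0) (nat_lit 2) true (nat_lit 1) true (nat_lit 10) true (nat_lit 2) true (nat_lit 7) true (nat_lit 12) (.s true (nat_lit 1) (nat_lit 18) (nat_lit 0) (nat_lit 2) (nat_lit 3) true (nat_lit 5) true (nat_lit 9) true (nat_lit 0) true (nat_lit 12) true (nat_lit 10) (.s false (nat_lit 2) (nat_lit 18) (nat_lit 0) (nat_lit 5) (nat_lit 0) false (nat_lit 13) true (nat_lit 12) true (nat_lit 0) true (nat_lit 12) true (nat_lit 7) (.s false (nat_lit 1) (nat_lit 28) (nat_lit 2) (nat_lit 1) (nat_lit 2) true (nat_lit 6) true (nat_lit 10) false (nat_lit 1) true (nat_lit 10) true (nat_lit 11) (.s true (nat_lit 1) (nat_lit 29) (nat_lit 2) (nat_lit 1) (nat_lit 2) true (nat_lit 6) true (nat_lit 10) false (nat_lit 1) true (nat_lit 10) true (nat_lit 11) (.s false (nat_lit 1) (nat_lit 33) (nat_lit 0) (nat_lit 2) (nat_lit 2) true (nat_lit 8) true (nat_lit 10) false (nat_lit 2) true (nat_lit 12) true (nat_lit 10) (.s false (nat_lit 1) (nat_lit 33) (nat_lit 2) (nat_lit 0) (nat_lit 2) true (nat_lit 6) true (nat_lit 10) false (nat_lit 2) true (nat_lit 10) true (nat_lit 12) (.s false (nat_lit 1) (nat_lit 40) (nat_lit 0) (nat_lit 1) (nat_lit 2) true (nat_lit 8) true (nat_lit 10) false (nat_lit 3) true (nat_lit 12) true (nat_lit 11) (.s true (nat_lit 1) (nat_lit 40) (nat_lit 0) (nat_lit 2) (nat_lit 1) true (nat_lit 9) true (nat_lit 11) false (nat_lit 3) true (nat_lit 12) true (nat_lit 10) (.s true (nat_lit 1) (nat_lit 40) (nat_lit 1) (nat_lit 0) (nat_lit 2) true (nat_lit 7) true (nat_lit 10) false (nat_lit 3) true (nat_lit 11) true (nat_lit 12) (.s false (nat_lit 1) (nat_lit 40) (nat_lit 2) (nat_lit 0) (nat_lit 1) true (nat_lit 7) true (nat_lit 11) false (nat_lit 3) true (nat_lit 10) true (nat_lit 12) dC1d_i4)))))))))))))))))))) .leaf)))) (nat_lit 183298) (nat_lit 796) (.p (nat_lit 325) (nat_lit 1) .z) .df (.nd (.nd (.nd (.nd (.nd .leaf (nat_lit 183301) (nat_lit 1353) (.p (nat_lit 428) (nat_lit 2) (.n (nat_lit 429) (nat_lit 3) (.p (nat_lit 430) (nat_lit 1) (.p (nat_lit 431) (nat_lit 1) (.p (nat_lit 434) (nat_lit 2) (.n (nat_lit 435) (nat_lit 2) (.n (nat_lit 436) (nat_lit 3) (.n (nat_lit 437) (nat_lit 2) (.n (nat_lit 438) (nat_lit 3) (.n (nat_lit 439) (nat_lit 1) (.p (nat_lit 440) (nat_lit 2) (.p (nat_lit 441) (nat_lit 1) (.n (nat_lit 442) (nat_lit 1) (.n (nat_lit 443) (nat_lit 3) (.n (nat_lit 444) (nat_lit 2) (.p (nat_lit 445) (nat_lit 1) (.n (nat_lit 447) (nat_lit 2) (.n (nat_lit 448) (nat_lit 3) (.p (nat_lit 454) (nat_lit 3) (.n (nat_lit 455) (nat_lit 3) (.n (nat_lit 456) (nat_lit 3) (.p (nat_lit 459) (nat_lit 1) .z)))))))))))))))))))))) (.ct dC1d_c533 (nat_lit 1) (nat_lit 10) (.s true (nat_lit 1) (nat_lit 101) (nat_lit 1) (nat_lit 0) (nat_lit 2) true (nat_lit 10) true (nat_lit 13) false (nat_lit 6) true (nat_lit 14) true (nat_lit 15) (.e false (nat_lit 2) (nat_lit 262) (nat_lit 2) (nat_lit 13) (.e true (nat_lit 3) (nat_lit 264) (nat_lit 2) (nat_lit 13) dC1d_i5)))) .leaf) (nat_lit 184320) (nat_lit 596) (.p (nat_lit 283) (nat_lit 1) .z) .df .leaf) (nat_lit 184321) (nat_lit 703) (.p (nat_lit 311) (nat_lit 1) .z) .df (.nd (.nd .leaf (nat_lit 184322) (nat_lit 821) (.p (nat_lit 328) (nat_lit 1) .z) .df .leaf) (nat_lit 184323) (nat_lit 1067) (.p (nat_lit 355) (nat_lit 3) (.n (nat_lit 356) (nat_lit 2) (.p (nat_lit 358) (nat_lit 1) (.n (nat_lit 359) (nat_lit 1) (.n (nat_lit 361) (nat_lit 3) (.p (nat_lit 362) (nat_lit 3) (.n (nat_lit 363) (nat_lit 2) (.p (nat_lit 364) (nat_lit 3) (.n (nat_lit 365) (nat_lit 1) (.n (nat_lit 367) (nat_lit 2) (.n (nat_lit 369) (nat_lit 1) (.p (nat_lit 370) (nat_lit 1) (.n (nat_lit 372) (nat_lit 2) (.p (nat_lit 374) (nat_lit 3) (.p (nat_lit 375) (nat_lit 1) (.p (nat_lit 376) (nat_lit 1) (.n (nat_lit 401) (nat_lit 1) .z))))))))))))))))) (.ct dC1d_c548 (nat_lit 1) (nat_lit 16) (.s true (nat_lit 1) (nat_lit 82) (nat_lit 0) (nat_lit 2) (nat_lit 1) true (nat_lit 16) true (nat_lit 18) false (nat_lit 9) true (nat_lit 19) true (nat_lit 17) (.e true (nat_lit 1) (nat_lit 275) (nat_lit 1) (nat_lit 18) (.e true (nat_lit 1) (nat_lit 82) (nat_lit 11) (nat_lit 9) (.e false (nat_lit 1) (nat_lit 319) (nat_lit 0) (nat_lit 19) (.e false (nat_lit 1) (nat_lit 223) (nat_lit 2) (nat_lit 17) (.u (nat_lit 2) (.p (nat_lit 8) (nat_lit 1) (.p (nat_lit 17) (nat_lit 1) .z)) .nil))))))) .leaf)) (nat_lit 184324) (nat_lit 1298) (.p (nat_lit 426) (nat_lit 2) (.p (nat_lit 428) (nat_lit 2) (.p (nat_lit 429) (nat_lit 1) (.p (nat_lit 431) (nat_lit 1) (.n (nat_lit 432) (nat_lit 2) (.n (nat_lit 433) (nat_lit 2) (.p (nat_lit 435) (nat_lit 2) (.p (nat_lit 436) (nat_lit 1) (.p (nat_lit 438) (nat_lit 1) (.p (nat_lit 439) (nat_lit 3) (.n (nat_lit 440) (nat_lit 1) (.p (nat_lit 441) (nat_lit 1) (.n (nat_lit 443) (nat_lit 3) (.n (nat_lit 444) (nat_lit 2) (.p (nat_lit 445) (nat_lit 1) (.n (nat_lit 446) (nat_lit 3) (.n (nat_lit 448) (nat_lit 1) (.n (nat_lit 451) (nat_lit 2) (.p (nat_lit 454) (nat_lit 2) (.n (nat_lit 456) (nat_lit 1) (.n (nat_lit 459) (nat_lit 1) .z))))))))))))))))))))) (.ct dC1d_c533 (nat_lit 1) (nat_lit 11) (.s true (nat_lit 1) (nat_lit 31) (nat_lit 0) (nat_lit 2) (nat_lit 6) true (nat_lit 5) true (nat_lit 9) true (nat_lit 0) true (nat_lit 15) true (nat_lit 13) (.s false (nat_lit 1) (nat_lit 31) (nat_lit 2) (nat_lit 2) (nat_lit 4) true (nat_lit 5) true (nat_lit 11) true (nat_lit 0) true (nat_lit 13) true (nat_lit 13) dC1d_i6))) (.nd (.nd (.nd .leaf (nat_lit 184325) (nat_lit 1449) (.p (nat_lit 460) (nat_lit 2) (.p (nat_lit 462) (nat_lit 1) (.p (nat_lit 463) (nat_lit 3) (.p (nat_lit 464) (nat_lit 3) (.n (nat_lit 465) (nat_lit 2) (.p (nat_lit 466) (nat_lit 3) (.n (nat_lit 467) (nat_lit 3) (.p (nat_lit 468) (nat_lit 3) (.n (nat_lit 469) (nat_lit 3) (.n (nat_lit 470) (nat_lit 1) (.n (nat_lit 471) (nat_lit 2) (.p (nat_lit 472) (nat_lit 1) (.n (nat_lit 473) (nat_lit 3) (.n (nat_lit 474) (nat_lit 1) (.n (nat_lit 475) (nat_lit 2) (.p (nat_lit 476) (nat_lit 2) (.p (nat_lit 477) (nat_lit 2) (.n (nat_lit 478) (nat_lit 1) (.n (nat_lit 479) (nat_lit 3) (.p (nat_lit 480) (nat_lit 1) (.n (nat_lit 481) (nat_lit 1) (.n (nat_lit 483) (nat_lit 2) (.p (nat_lit 486) (nat_lit 2) (.n (nat_lit 489) (nat_lit 1) (.n (nat_lit 493) (nat_lit 1) .z))))))))))))))))))))))))) (.ct dC1d_c293 (nat_lit 1) (nat_lit 10) (.s true (nat_lit 1) (nat_lit 10) (nat_lit 1) (nat_lit 6) (nat_lit 6) true (nat_lit 4) true (nat_lit 9) true (nat_lit 7) true (nat_lit 14) true (nat_lit 9) (.s true (nat_lit 2) (nat_lit 11) (nat_lit 1) (nat_lit 6) (nat_lit 6) true (nat_lit 4) true (nat_lit 9) true (nat_lit 7) true (nat_lit 14) true (nat_lit 9) (.s true (nat_lit 2) (nat_lit 11) (nat_lit 5) (nat_lit 6) (nat_lit 2) true (nat_lit 4) true (nat_lit 13) true (nat_lit 7) true (nat_lit 10) true (nat_lit 9) (.s false (nat_lit 2) (nat_lit 10) (nat_lit 6) (nat_lit 6) (nat_lit 1) true (nat_lit 4) true (nat_lit 14) true (nat_lit 7) true (nat_lit 9) true (nat_lit 9) (.s true (nat_lit 2) (nat_lit 11) (nat_lit 6) (nat_lit 6) (nat_lit 1) true (nat_lit 4) true (nat_lit 14) true (nat_lit 7) true (nat_lit 9) true (nat_lit 9) (.s false (nat_lit 3) (nat_lit 17) (nat_lit 1) (nat_lit 14) (nat_lit 2) true (nat_lit 10) true (nat_lit 13) true (nat_lit 4) true (nat_lit 14) true (nat_lit 5) (.s true (nat_lit 3) (nat_lit 16) (nat_lit 2) (nat_lit 2) (nat_lit 10) true (nat_lit 1) true (nat_lit 7) true (nat_lit 4) true (nat_lit 13) true (nat_lit 13) (.s false (nat_lit 2) (nat_lit 16) (nat_lit 2) (nat_lit 2) (nat_lit 11) true (nat_lit 1) true (nat_lit 7) true (nat_lit 4) true (nat_lit 13) true (nat_lit 13) (.s true (nat_lit 3) (nat_lit 17) (nat_lit 2) (nat_lit 2) (nat_lit 10) true (nat_lit 1) true (nat_lit 7) true (nat_lit 4) true (nat_lit 13) true (nat_lit 13) (.s true (nat_lit 1) (nat_lit 16) (nat_lit 2) (nat_lit 10) (nat_lit 2) true (nat_lit 9) true (nat_lit 13) true (nat_lit 4) true (nat_lit 13) true (nat_lit 7) (.s false (nat_lit 2) (nat_lit 16) (nat_lit 2) (nat_lit 11) (nat_lit 2) true (nat_lit 9) true (nat_lit 13) true (nat_lit 4) true (nat_lit 13) true (nat_lit 7) (.s true (nat_lit 3) (nat_lit 17) (nat_lit 2) (nat_lit 10) (nat_lit 2) true (nat_lit 9) true (nat_lit 13) true (nat_lit 4) true (nat_lit 13) true (nat_lit 7) (.s false (nat_lit 3) (nat_lit 17) (nat_lit 2) (nat_lit 14) (nat_lit 1) true (nat_lit 10) true (nat_lit 14) true (nat_lit 4) true (nat_lit 13) true (nat_lit 5) (.s true (nat_lit 2) (nat_lit 17) (nat_lit 6) (nat_lit 3) (nat_lit 2) true (nat_lit 3) true (nat_lit 13) true (nat_lit 4) true (nat_lit 9) true (nat_lit 12) (.s false (nat_lit 1) (nat_lit 17) (nat_lit 11) (nat_lit 2) (nat_lit 2) true (nat_lit 1) true (nat_lit 13) true (nat_lit 4) true (nat_lit 7) true (nat_lit 13) (.s false (nat_lit 3) (nat_lit 17) (nat_lit 14) (nat_lit 1) (nat_lit 2) false (nat_lit 0) true (nat_lit 13) true (nat_lit 4) true (nat_lit 5) true (nat_lit 14) (.s true (nat_lit 1) (nat_lit 18) (nat_lit 1) (nat_lit 2) (nat_lit 10) true (nat_lit 2) true (nat_lit 7) true (nat_lit 3) true (nat_lit 14) true (nat_lit 13) (.s true (nat_lit 1) (nat_lit 18) (nat_lit 1) (nat_lit 14) (nat_lit 1) false (nat_lit 16) true (nat_lit 14) true (nat_lit 3) true (nat_lit 14) true (nat_lit 5) (.s true (nat_lit 1) (nat_lit 18) (nat_lit 2) (nat_lit 1) (nat_lit 10) true (nat_lit 1) true (nat_lit 7) true (nat_lit 3) true (nat_lit 13) true (nat_lit 14) dC1d_i10)))))))))))))))))))) .leaf) (nat_lit 185344) (nat_lit 597) (.p (nat_lit 284) (nat_lit 1) .z) .df .leaf) (nat_lit 185345) (nat_lit 704) (.p (nat_lit 312) (nat_lit 1) .z) .df (.nd (.nd .leaf (nat_lit 185346) (nat_lit 822) (.p (nat_lit 329) (nat_lit 1) .z) .df .leaf) (nat_lit 185347) (nat_lit 1040) (.p (nat_lit 355) (nat_lit 1) (.n (nat_lit 356) (nat_lit 2) (.p (nat_lit 357) (nat_lit 2) (.n (nat_lit 358) (nat_lit 3) (.n (nat_lit 359) (nat_lit 1) (.n (nat_lit 361) (nat_lit 3) (.p (nat_lit 362) (nat_lit 3) (.n (nat_lit 363) (nat_lit 1) (.n (nat_lit 364) (nat_lit 3) (.n (nat_lit 365) (nat_lit 1) (.p (nat_lit 366) (nat_lit 2) (.p (nat_lit 367) (nat_lit 2) (.p (nat_lit 369) (nat_lit 1) (.n (nat_lit 370) (nat_lit 1) (.n (nat_lit 372) (nat_lit 2) (.n (nat_lit 373) (nat_lit 1) (.n (nat_lit 374) (nat_lit 3) (.n (nat_lit 375) (nat_lit 2) (.p (nat_lit 377) (nat_lit 1) (.p (nat_lit 381) (nat_lit 3) (.p (nat_lit 382) (nat_lit 1) (.p (nat_lit 383) (nat_lit 1) (.p (nat_lit 384) (nat_lit 1) (.p (nat_lit 385) (nat_lit 2) (.p (nat_lit 386) (nat_lit 2) (.n (nat_lit 387) (nat_lit 1) (.p (nat_lit 388) (nat_lit 3) (.n (nat_lit 390) (nat_lit 3) (.n (nat_lit 402) (nat_lit 1) .z))))))))))))))))))))))))))))) (.ct dC1d_c548 (nat_lit 1) (nat_lit 16) dC1d_i11) .leaf))) (nat_lit 185348) (nat_lit 1287) (.n (nat_lit 426) (nat_lit 1) (.p (nat_lit 427) (nat_lit 1) (.n (nat_lit 428) (nat_lit 3) (.p (nat_lit 429) (nat_lit 1) (.p (nat_lit 431) (nat_lit 1) (.n (nat_lit 432) (nat_lit 2) (.n (nat_lit 433) (nat_lit 2) (.p (nat_lit 434) (nat_lit 3) (.n (nat_lit 435) (nat_lit 2) (.p (nat_lit 436) (nat_lit 1) (.n (nat_lit 458) (nat_lit 1) .z))))))))))) (.ct dC1d_c533 (nat_lit 1) (nat_lit 11) (.s true (nat_lit 1) (nat_lit 83) (nat_lit 0) (nat_lit 2) (nat_lit 2) true (nat_lit 11) true (nat_lit 13) false (nat_lit 5) true (nat_lit 15) true (nat_lit 13) (.e true (nat_lit 1) (nat_lit 276) (nat_lit 2) (nat_lit 13) (.e true (nat_lit 1) (nat_lit 83) (nat_lit 14) (nat_lit 5) (.e false (nat_lit 1) (nat_lit 345) (nat_lit 0) (nat_lit 15) (.e true (nat_lit 1) (nat_lit 284) (nat_lit 2) (nat_lit 13) (.u (nat_lit 2) (.p (nat_lit 0) (nat_lit 1) (.p (nat_lit 2) (nat_lit 1) (.n (nat_lit 5) (nat_lit 1) (.n (nat_lit 8) (nat_lit 1) (.p (nat_lit 9) (nat_lit 1) (.n (nat_lit 10) (nat_lit 1) .z)))))) .nil))))))) (.nd (.nd (.nd (.nd .leaf (nat_lit 185349) (nat_lit 1434) (.p (nat_lit 460) (nat_lit 2) (.p (nat_lit 461) (nat_lit 1) (.p (nat_lit 463) (nat_lit 3) (.n (nat_lit 464) (nat_lit 3) (.p (nat_lit 465) (nat_lit 2) (.n (nat_lit 467) (nat_lit 1) (.n (nat_lit 468) (nat_lit 2) (.n (nat_lit 469) (nat_lit 2) (.n (nat_lit 470) (nat_lit 2) (.p (nat_lit 471) (nat_lit 1) (.p (nat_lit 472) (nat_lit 2) (.n (nat_lit 473) (nat_lit 2) (.n (nat_lit 474) (nat_lit 2) (.p (nat_lit 475) (nat_lit 1) (.n (nat_lit 476) (nat_lit 2) (.n (nat_lit 477) (nat_lit 2) (.n (nat_lit 479) (nat_lit 3) (.n (nat_lit 489) (nat_lit 2) (.n (nat_lit 490) (nat_lit 1) (.p (nat_lit 493) (nat_lit 1) .z)))))))))))))))))))) (.ct dC1d_c293 (nat_lit 1) (nat_lit 10) (.s true (nat_lit 1) (nat_lit 6) (nat_lit 3) (nat_lit 6) (nat_lit 5) true (nat_lit 2) true (nat_lit 10) true (nat_lit 9) true (nat_lit 12) true (nat_lit 9) (.s true (nat_lit 3) (nat_lit 10) (nat_lit 1) (nat_lit 6) (nat_lit 6) true (nat_lit 4) true (nat_lit 9) true (nat_lit 7) true (nat_lit 14) true (nat_lit 9) (.s true (nat_lit 1) (nat_lit 11) (nat_lit 1) (nat_lit 6) (nat_lit 6) true (nat_lit 4) true (nat_lit 9) true (nat_lit 7) true (nat_lit 14) true (nat_lit 9) (.s true (nat_lit 3) (nat_lit 11) (nat_lit 5) (nat_lit 6) (nat_lit 2) true (nat_lit 4) true (nat_lit 13) true (nat_lit 7) true (nat_lit 10) true (nat_lit 9) (.s false (nat_lit 1) (nat_lit 10) (nat_lit 6) (nat_lit 6) (nat_lit 1) true (nat_lit 4) true (nat_lit 14) true (nat_lit 7) true (nat_lit 9) true (nat_lit 9) (.s true (nat_lit 1) (nat_lit 11) (nat_lit 6) (nat_lit 6) (nat_lit 1) true (nat_lit 4) true (nat_lit 14) true (nat_lit 7) true (nat_lit 9) true (nat_lit 9) (.s false (nat_lit 1) (nat_lit 16) (nat_lit 2) (nat_lit 2) (nat_lit 11) true (nat_lit 1) true (nat_lit 7) true (nat_lit 4) true (nat_lit 13) true (nat_lit 13) (.s true (nat_lit 3) (nat_lit 17) (nat_lit 2) (nat_lit 2) (nat_lit 10) true (nat_lit 1) true (nat_lit 7) true (nat_lit 4) true (nat_lit 13) true (nat_lit 13) (.s true (nat_lit 1) (nat_lit 16) (nat_lit 2) (nat_lit 3) (nat_lit 6) true (nat_lit 3) true (nat_lit 9) true (nat_lit 4) true (nat_lit 13) true (nat_lit 12) (.s false (nat_lit 2) (nat_lit 17) (nat_lit 2) (nat_lit 6) (nat_lit 3) true (nat_lit 7) true (nat_lit 12) true (nat_lit 4) true (nat_lit 13) true (nat_lit 9) (.s false (nat_lit 1) (nat_lit 16) (nat_lit 2) (nat_lit 11) (nat_lit 2) true (nat_lit 9) true (nat_lit 13) true (nat_lit 4) true (nat_lit 13) true (nat_lit 7) (.s true (nat_lit 1) (nat_lit 17) (nat_lit 2) (nat_lit 12) (nat_lit 2) true (nat_lit 9) true (nat_lit 13) true (nat_lit 4) true (nat_lit 13) true (nat_lit 7) (.s true (nat_lit 3) (nat_lit 16) (nat_lit 6) (nat_lit 3) (nat_lit 2) true (nat_lit 3) true (nat_lit 13) true (nat_lit 4) true (nat_lit 9) true (nat_lit 12) (.s true (nat_lit 2) (nat_lit 17) (nat_lit 6) (nat_lit 3) (nat_lit 2) true (nat_lit 3) true (nat_lit 13) true (nat_lit 4) true (nat_lit 9) true (nat_lit 12) (.s true (nat_lit 1) (nat_lit 16) (nat_lit 11) (nat_lit 2) (nat_lit 2) true (nat_lit 1) true (nat_lit 13) true (nat_lit 4) true (nat_lit 7) true (nat_lit 13) dC1d_i15)))))))))))))))) .leaf) (nat_lit 186368) (nat_lit 630) (.n (nat_lit 260) (nat_lit 1) (.n (nat_lit 261) (nat_lit 1) (.n (nat_lit 262) (nat_lit 1) (.p (nat_lit 264) (nat_lit 1) (.n (nat_lit 266) (nat_lit 1) (.n (nat_lit 267) (nat_lit 3) (.p (nat_lit 268) (nat_lit 3) (.p (nat_lit 269) (nat_lit 2) (.p (nat_lit 271) (nat_lit 3) (.n (nat_lit 273) (nat_lit 1) (.n (nat_lit 274) (nat_lit 3) (.p (nat_lit 277) (nat_lit 3) (.n (nat_lit 278) (nat_lit 2) (.n (nat_lit 279) (nat_lit 3) (.p (nat_lit 280) (nat_lit 3) (.n (nat_lit 281) (nat_lit 1) (.n (nat_lit 283) (nat_lit 1) (.p (nat_lit 284) (nat_lit 1) (.p (nat_lit 286) (nat_lit 1) (.p (nat_lit 287) (nat_lit 1) (.n (nat_lit 288) (nat_lit 2) (.p (nat_lit 289) (nat_lit 1) .z)))))))))))))))))))))) (.ct dC1d_c532 (nat_lit 1) (nat_lit 12) (.s false (nat_lit 3) (nat_lit 15) (nat_lit 3) (nat_lit 2) (nat_lit 2) true (nat_lit 3) true (nat_lit 10) true (nat_lit 2) true (nat_lit 9) true (nat_lit 10) (.s false (nat_lit 1) (nat_lit 18) (nat_lit 3) (nat_lit 0) (nat_lit 2) true (nat_lit 3) true (nat_lit 10) true (nat_lit 0) true (nat_lit 9) true (nat_lit 12) (.e true (nat_lit 3) (nat_lit 41) (nat_lit 10) (nat_lit 3) (.e true (nat_lit 3) (nat_lit 132) (nat_lit 2) (nat_lit 10) (.e false (nat_lit 1) (nat_lit 133) (nat_lit 2) (nat_lit 10) dC1d_i16)))))) .leaf) (nat_lit 186369) (nat_lit 741) (.n (nat_lit 290) (nat_lit 2) (.n (nat_lit 292) (nat_lit 2) (.p (nat_lit 293) (nat_lit 2) (.p (nat_lit 294) (nat_lit 2) (.n (nat_lit 296) (nat_lit 1) (.p (nat_lit 297) (nat_lit 1) (.p (nat_lit 298) (nat_lit 2) (.n (nat_lit 299) (nat_lit 2) (.p (nat_lit 300) (nat_lit 2) (.p (nat_lit 301) (nat_lit 3) (.n (nat_lit 304) (nat_lit 2) (.p (nat_lit 307) (nat_lit 2) (.p (nat_lit 308) (nat_lit 3) (.p (nat_lit 312) (nat_lit 1) (.n (nat_lit 317) (nat_lit 2) (.n (nat_lit 319) (nat_lit 1) .z)))))))))))))))) (.ct dC1d_c292 (nat_lit 1) (nat_lit 11) (.s false (nat_lit 1) (nat_lit 18) (nat_lit 3) (nat_lit 2) (nat_lit 1) true (nat_lit 5) true (nat_lit 11) true (nat_lit 0) true (nat_lit 9) true (nat_lit 10) (.e true (nat_lit 1) (nat_lit 46) (nat_lit 8) (nat_lit 5) (.e false (nat_lit 1) (nat_lit 181) (nat_lit 1) (nat_lit 11) (.e false (nat_lit 1) (nat_lit 183) (nat_lit 1) (nat_lit 11) (.e true (nat_lit 1) (nat_lit 185) (nat_lit 1) (nat_lit 11) (.e true (nat_lit 1) (nat_lit 188) (nat_lit 1) (nat_lit 11) (.e true (nat_lit 1) (nat_lit 25) (nat_lit 18) (nat_lit 0) (.e false (nat_lit 1) (nat_lit 103) (nat_lit 3) (nat_lit 9) (.e false (nat_lit 1) (nat_lit 104) (nat_lit 3) (nat_lit 9) (.e true (nat_lit 1) (nat_lit 105) (nat_lit 3) (nat_lit 9) (.e false (nat_lit 2) (nat_lit 154) (nat_lit 2) (nat_lit 10) (.e false (nat_lit 2) (nat_lit 157) (nat_lit 2) (nat_lit 10) (.e true (nat_lit 1) (nat_lit 161) (nat_lit 2) (nat_lit 10) (.e true (nat_lit 1) (nat_lit 167) (nat_lit 2) (nat_lit 10) (.e false (nat_lit 1) (nat_lit 173) (nat_lit 2) (nat_lit 10) (.u (nat_lit 2) (.p (nat_lit 1) (nat_lit 1) (.p (nat_lit 9) (nat_lit 1) (.n (nat_lit 11) (nat_lit 1) (.p (nat_lit 17) (nat_lit 1) .z)))) .nil))))))))))))))))) (.nd (.nd .leaf (nat_lit 186370) (nat_lit 823) (.p (nat_lit 330) (nat_lit 1) .z) .df .leaf) (nat_lit 186371) (nat_lit 1178) (.p (nat_lit 355) (nat_lit 1) (.n (nat_lit 358) (nat_lit 2) (.p (nat_lit 359) (nat_lit 3) (.p (nat_lit 361) (nat_lit 1) (.n (nat_lit 362) (nat_lit 1) (.n (nat_lit 363) (nat_lit 3) (.p (nat_lit 364) (nat_lit 1) (.n (nat_lit 365) (nat_lit 2) (.n (nat_lit 366) (nat_lit 3) (.n (nat_lit 367) (nat_lit 3) (.p (nat_lit 369) (nat_lit 3) (.n (nat_lit 370) (nat_lit 2) (.p (nat_lit 372) (nat_lit 3) (.n (nat_lit 373) (nat_lit 3) (.p (nat_lit 374) (nat_lit 1) (.p (nat_lit 375) (nat_lit 2) (.n (nat_lit 376) (nat_lit 1) (.p (nat_lit 377) (nat_lit 1) (.n (nat_lit 381) (nat_lit 2) (.n (nat_lit 382) (nat_lit 1) (.n (nat_lit 383) (nat_lit 2) (.n (nat_lit 384) (nat_lit 1) (.n (nat_lit 385) (nat_lit 3) (.n (nat_lit 386) (nat_lit 1) (.p (nat_lit 387) (nat_lit 2) (.n (nat_lit 389) (nat_lit 1) (.n (nat_lit 390) (nat_lit 2) (.p (nat_lit 391) (nat_lit 3) (.p (nat_lit 393) (nat_lit 2) (.p (nat_lit 395) (nat_lit 1) (.p (nat_lit 396) (nat_lit 3) (.p (nat_lit 401) (nat_lit 1) (.n (nat_lit 402) (nat_lit 1) .z))))))))))))))))))))))))))))))))) (.ct dC1d_c548 (nat_lit 1) (nat_lit 16) (.s false (nat_lit 1) (nat_lit 46) (nat_lit 3) (nat_lit 1) (nat_lit 0) true (nat_lit 12) true (nat_lit 19) false (nat_lit 4) true (nat_lit 16) true (nat_lit 18) (.e true (nat_lit 1) (nat_lit 103) (nat_lit 7) (nat_lit 12) (.e false (nat_lit 1) (nat_lit 105) (nat_lit 7) (nat_lit 12) (.e true (nat_lit 2) (nat_lit 290) (nat_lit 0) (nat_lit 19) (.e false (nat_lit 1) (nat_lit 292) (nat_lit 0) (nat_lit 19) (.e true (nat_lit 1) (nat_lit 293) (nat_lit 0) (nat_lit 19) (.e false (nat_lit 3) (nat_lit 301) (nat_lit 0) (nat_lit 19) (.e false (nat_lit 2) (nat_lit 304) (nat_lit 0) (nat_lit 19) (.e false (nat_lit 1) (nat_lit 307) (nat_lit 0) (nat_lit 19) (.e true (nat_lit 1) (nat_lit 308) (nat_lit 0) (nat_lit 19) (.e true (nat_lit 1) (nat_lit 317) (nat_lit 0) (nat_lit 19) (.e false (nat_lit 3) (nat_lit 291) (nat_lit 0) (nat_lit 19) dC1d_i17))))))))))))) .leaf)) (nat_lit 186372) (nat_lit 1364) (.n (nat_lit 426) (nat_lit 3) (.p (nat_lit 427) (nat_lit 3) (.n (nat_lit 428) (nat_lit 2) (.p (nat_lit 429) (nat_lit 3) (.n (nat_lit 430) (nat_lit 1) (.p (nat_lit 431) (nat_lit 3) (.p (nat_lit 432) (nat_lit 3) (.p (nat_lit 433) (nat_lit 3) (.n (nat_lit 434) (nat_lit 2) (.p (nat_lit 435) (nat_lit 3) (.n (nat_lit 436) (nat_lit 3) (.p (nat_lit 438) (nat_lit 1) (.p (nat_lit 439) (nat_lit 1) (.p (nat_lit 440) (nat_lit 1) (.p (nat_lit 441) (nat_lit 1) (.n (nat_lit 442) (nat_lit 3) (.n (nat_lit 443) (nat_lit 1) (.n (nat_lit 444) (nat_lit 2) (.n (nat_lit 445) (nat_lit 2) (.p (nat_lit 446) (nat_lit 3) (.p (nat_lit 448) (nat_lit 1) (.p (nat_lit 451) (nat_lit 2) (.n (nat_lit 454) (nat_lit 2) (.n (nat_lit 456) (nat_lit 2) (.n (nat_lit 458) (nat_lit 1) (.n (nat_lit 459) (nat_lit 1) .z)))))))))))))))))))))))))) (.ct dC1d_c533 (nat_lit 1) (nat_lit 11) (.s true (nat_lit 1) (nat_lit 84) (nat_lit 0) (nat_lit 2) (nat_lit 2) true (nat_lit 11) true (nat_lit 13) false (nat_lit 5) true (nat_lit 15) true (nat_lit 13) (.e true (nat_lit 3) (nat_lit 260) (nat_lit 2) (nat_lit 13) (.e true (nat_lit 3) (nat_lit 261) (nat_lit 2) (nat_lit 13) dC1d_i18)))) (.nd (.nd (.nd .leaf (nat_lit 186373) (nat_lit 1453) (.n (nat_lit 461) (nat_lit 3) (.n (nat_lit 462) (nat_lit 3) (.n (nat_lit 465) (nat_lit 2) (.n (nat_lit 466) (nat_lit 3) (.p (nat_lit 467) (nat_lit 1) (.n (nat_lit 468) (nat_lit 3) (.n (nat_lit 469) (nat_lit 2) (.n (nat_lit 470) (nat_lit 1) (.p (nat_lit 471) (nat_lit 3) (.p (nat_lit 473) (nat_lit 2) (.n (nat_lit 475) (nat_lit 2) (.p (nat_lit 476) (nat_lit 2) (.n (nat_lit 477) (nat_lit 1) (.p (nat_lit 478) (nat_lit 1) (.n (nat_lit 479) (nat_lit 2) (.n (nat_lit 480) (nat_lit 1) (.p (nat_lit 481) (nat_lit 1) (.p (nat_lit 483) (nat_lit 2) (.n (nat_lit 486) (nat_lit 2) (.p (nat_lit 489) (nat_lit 3) (.n (nat_lit 490) (nat_lit 1) .z))))))))))))))))))))) (.ct dC1d_c293 (nat_lit 1) (nat_lit 10) (.s true (nat_lit 1) (nat_lit 10) (nat_lit 1) (nat_lit 6) (nat_lit 6) true (nat_lit 4) true (nat_lit 9) true (nat_lit 7) true (nat_lit 14) true (nat_lit 9) (.s true (nat_lit 2) (nat_lit 10) (nat_lit 6) (nat_lit 6) (nat_lit 1) true (nat_lit 4) true (nat_lit 14) true (nat_lit 7) true (nat_lit 9) true (nat_lit 9) (.s false (nat_lit 3) (nat_lit 16) (nat_lit 2) (nat_lit 2) (nat_lit 10) true (nat_lit 1) true (nat_lit 7) true (nat_lit 4) true (nat_lit 13) true (nat_lit 13) (.s false (nat_lit 1) (nat_lit 17) (nat_lit 2) (nat_lit 2) (nat_lit 10) true (nat_lit 1) true (nat_lit 7) true (nat_lit 4) true (nat_lit 13) true (nat_lit 13) (.s false (nat_lit 3) (nat_lit 16) (nat_lit 2) (nat_lit 10) (nat_lit 2) true (nat_lit 9) true (nat_lit 13) true (nat_lit 4) true (nat_lit 13) true (nat_lit 7) (.s false (nat_lit 1) (nat_lit 16) (nat_lit 6) (nat_lit 3) (nat_lit 2) true (nat_lit 3) true (nat_lit 13) true (nat_lit 4) true (nat_lit 9) true (nat_lit 12) (.s true (nat_lit 2) (nat_lit 18) (nat_lit 1) (nat_lit 2) (nat_lit 10) true (nat_lit 2) true (nat_lit 7) true (nat_lit 3) true (nat_lit 14) true (nat_lit 13) dC1d_i20)))))))) .leaf) (nat_lit 187392) (nat_lit 598) (.p (nat_lit 285) (nat_lit 1) .z) .df .leaf) (nat_lit 187393) (nat_lit 705) (.p (nat_lit 313) (nat_lit 1) .z) .df (.nd (.nd .leaf (nat_lit 187394) (nat_lit 824) (.p (nat_lit 331) (nat_lit 1) .z) .df .leaf) (nat_lit 187395) (nat_lit 1176) (.p (nat_lit 355) (nat_lit 3) (.p (nat_lit 356) (nat_lit 2) (.n (nat_lit 357) (nat_lit 2) (.p (nat_lit 358) (nat_lit 1) (.n (nat_lit 359) (nat_lit 2) (.n (nat_lit 361) (nat_lit 3) (.p (nat_lit 362) (nat_lit 3) (.n (nat_lit 363) (nat_lit 2) (.n (nat_lit 364) (nat_lit 1) (.n (nat_lit 365) (nat_lit 1) (.p (nat_lit 366) (nat_lit 2) (.p (nat_lit 367) (nat_lit 2) (.n (nat_lit 369) (nat_lit 3) (.n (nat_lit 370) (nat_lit 1) (.p (nat_lit 372) (nat_lit 3) (.n (nat_lit 373) (nat_lit 3) (.n (nat_lit 374) (nat_lit 3) (.p (nat_lit 375) (nat_lit 2) (.p (nat_lit 378) (nat_lit 1) (.p (nat_lit 381) (nat_lit 1) (.n (nat_lit 383) (nat_lit 3) (.p (nat_lit 384) (nat_lit 2) (.n (nat_lit 385) (nat_lit 1) (.p (nat_lit 386) (nat_lit 2) (.n (nat_lit 388) (nat_lit 3) (.n (nat_lit 389) (nat_lit 3) (.n (nat_lit 390) (nat_lit 3) (.p (nat_lit 391) (nat_lit 2) (.n (nat_lit 393) (nat_lit 1) (.p (nat_lit 395) (nat_lit 3) (.p (nat_lit 396) (nat_lit 2) (.n (nat_lit 403) (nat_lit 1) .z)))))))))))))))))))))))))))))))) (.ct dC1d_c548 (nat_lit 1) (nat_lit 16) (.s false (nat_lit 1) (nat_lit 85) (nat_lit 1) (nat_lit 2) (nat_lit 0) true (nat_lit 16) true (nat_lit 19) false (nat_lit 9) true (nat_lit 18) true (nat_lit 17) (.e false (nat_lit 1) (nat_lit 303) (nat_lit 0) (nat_lit 19) (.e false (nat_lit 1) (nat_lit 85) (nat_lit 12) (nat_lit 9) (.e true (nat_lit 3) (nat_lit 260) (nat_lit 1) (nat_lit 18) (.e true (nat_lit 1) (nat_lit 261) (nat_lit 1) (nat_lit 18) dC1d_i22)))))) .leaf))))) (nat_lit 187396) (nat_lit 1371) (.p (nat_lit 428) (nat_lit 1) (.p (nat_lit 430) (nat_lit 1) (.p (nat_lit 431) (nat_lit 3) (.p (nat_lit 432) (nat_lit 1) (.p (nat_lit 433) (nat_lit 2) (.p (nat_lit 434) (nat_lit 2) (.n (nat_lit 435) (nat_lit 1) (.n (nat_lit 436) (nat_lit 3) (.n (nat_lit 438) (nat_lit 3) (.p (nat_lit 439) (nat_lit 2) (.p (nat_lit 441) (nat_lit 3) (.p (nat_lit 442) (nat_lit 3) (.n (nat_lit 443) (nat_lit 3) (.n (nat_lit 446) (nat_lit 3) (.n (nat_lit 447) (nat_lit 1) (.n (nat_lit 451) (nat_lit 1) (.p (nat_lit 452) (nat_lit 1) (.p (nat_lit 454) (nat_lit 1) (.p (nat_lit 455) (nat_lit 1) (.p (nat_lit 456) (nat_lit 1) (.p (nat_lit 459) (nat_lit 3) .z))))))))))))))))))))) (.ct dC1d_c533 (nat_lit 1) (nat_lit 11) (.s true (nat_lit 1) (nat_lit 85) (nat_lit 0) (nat_lit 2) (nat_lit 2) true (nat_lit 11) true (nat_lit 13) false (nat_lit 5) true (nat_lit 15) true (nat_lit 13) (.e false (nat_lit 2) (nat_lit 260) (nat_lit 2) (nat_lit 13) (.e true (nat_lit 1) (nat_lit 261) (nat_lit 2) (nat_lit 13) (.e true (nat_lit 2) (nat_lit 262) (nat_lit 2) (nat_lit 13) (.e false (nat_lit 1) (nat_lit 263) (nat_lit 2) (nat_lit 13) (.e true (nat_lit 1) (nat_lit 264) (nat_lit 2) (nat_lit 13) (.e false (nat_lit 2) (nat_lit 265) (nat_lit 2) (nat_lit 13) (.e false (nat_lit 1) (nat_lit 266) (nat_lit 2) (nat_lit 13) dC1d_i23))))))))) (.nd (.nd (.nd (.nd (.nd (.nd .leaf (nat_lit 187397) (nat_lit 1447) (.p (nat_lit 460) (nat_lit 2) (.p (nat_lit 461) (nat_lit 1) (.p (nat_lit 462) (nat_lit 2) (.p (nat_lit 463) (nat_lit 3) (.p (nat_lit 464) (nat_lit 3) (.p (nat_lit 465) (nat_lit 2) (.n (nat_lit 467) (nat_lit 1) (.p (nat_lit 468) (nat_lit 3) (.p (nat_lit 469) (nat_lit 1) (.p (nat_lit 470) (nat_lit 2) (.p (nat_lit 471) (nat_lit 2) (.p (nat_lit 472) (nat_lit 1) (.p (nat_lit 474) (nat_lit 1) (.p (nat_lit 475) (nat_lit 3) (.n (nat_lit 476) (nat_lit 2) (.p (nat_lit 477) (nat_lit 1) (.p (nat_lit 478) (nat_lit 3) (.p (nat_lit 479) (nat_lit 2) (.n (nat_lit 480) (nat_lit 3) (.p (nat_lit 482) (nat_lit 3) (.n (nat_lit 483) (nat_lit 1) (.p (nat_lit 487) (nat_lit 1) (.n (nat_lit 489) (nat_lit 3) (.n (nat_lit 492) (nat_lit 3) (.n (nat_lit 493) (nat_lit 1) .z))))))))))))))))))))))))) (.ct dC1d_c293 (nat_lit 1) (nat_lit 10) (.s true (nat_lit 2) (nat_lit 11) (nat_lit 1) (nat_lit 6) (nat_lit 6) true (nat_lit 4) true (nat_lit 9) true (nat_lit 7) true (nat_lit 14) true (nat_lit 9) (.s true (nat_lit 3) (nat_lit 10) (nat_lit 2) (nat_lit 6) (nat_lit 5) true (nat_lit 4) true (nat_lit 10) true (nat_lit 7) true (nat_lit 13) true (nat_lit 9) (.s true (nat_lit 2) (nat_lit 10) (nat_lit 6) (nat_lit 2) (nat_lit 5) false (nat_lit 1) true (nat_lit 10) true (nat_lit 7) true (nat_lit 9) true (nat_lit 13) (.s true (nat_lit 3) (nat_lit 11) (nat_lit 6) (nat_lit 2) (nat_lit 5) false (nat_lit 1) true (nat_lit 10) true (nat_lit 7) true (nat_lit 9) true (nat_lit 13) (.s false (nat_lit 1) (nat_lit 11) (nat_lit 6) (nat_lit 6) (nat_lit 1) true (nat_lit 4) true (nat_lit 14) true (nat_lit 7) true (nat_lit 9) true (nat_lit 9) (.s false (nat_lit 1) (nat_lit 16) (nat_lit 2) (nat_lit 2) (nat_lit 10) true (nat_lit 1) true (nat_lit 7) true (nat_lit 4) true (nat_lit 13) true (nat_lit 13) (.s true (nat_lit 3) (nat_lit 17) (nat_lit 2) (nat_lit 2) (nat_lit 11) true (nat_lit 1) true (nat_lit 7) true (nat_lit 4) true (nat_lit 13) true (nat_lit 13) (.s true (nat_lit 1) (nat_lit 16) (nat_lit 2) (nat_lit 10) (nat_lit 2) true (nat_lit 9) true (nat_lit 13) true (nat_lit 4) true (nat_lit 13) true (nat_lit 7) (.s false (nat_lit 1) (nat_lit 17) (nat_lit 2) (nat_lit 11) (nat_lit 2) true (nat_lit 9) true (nat_lit 13) true (nat_lit 4) true (nat_lit 13) true (nat_lit 7) (.s true (nat_lit 2) (nat_lit 16) (nat_lit 10) (nat_lit 2) (nat_lit 2) true (nat_lit 1) true (nat_lit 13) true (nat_lit 4) true (nat_lit 7) true (nat_lit 13) (.s false (nat_lit 3) (nat_lit 16) (nat_lit 11) (nat_lit 2) (nat_lit 2) true (nat_lit 1) true (nat_lit 13) true (nat_lit 4) true (nat_lit 7) true (nat_lit 13) (.s false (nat_lit 3) (nat_lit 16) (nat_lit 12) (nat_lit 2) (nat_lit 2) true (nat_lit 1) true (nat_lit 13) true (nat_lit 4) true (nat_lit 7) true (nat_lit 13) (.s true (nat_lit 3) (nat_lit 17) (nat_lit 12) (nat_lit 2) (nat_lit 2) true (nat_lit 1) true (nat_lit 13) true (nat_lit 4) true (nat_lit 7) true (nat_lit 13) (.s false (nat_lit 2) (nat_lit 18) (nat_lit 1) (nat_lit 6) (nat_lit 3) true (nat_lit 8) true (nat_lit 12) true (nat_lit 3) true (nat_lit 14) true (nat_lit 9) (.s true (nat_lit 3) (nat_lit 18) (nat_lit 1) (nat_lit 11) (nat_lit 2) true (nat_lit 10) true (nat_lit 13) true (nat_lit 3) true (nat_lit 14) true (nat_lit 7) (.s false (nat_lit 2) (nat_lit 18) (nat_lit 2) (nat_lit 1) (nat_lit 10) true (nat_lit 1) true (nat_lit 7) true (nat_lit 3) true (nat_lit 13) true (nat_lit 14) (.s true (nat_lit 3) (nat_lit 18) (nat_lit 2) (nat_lit 3) (nat_lit 5) true (nat_lit 4) true (nat_lit 10) true (nat_lit 3) true (nat_lit 13) true (nat_lit 12) (.s true (nat_lit 2) (nat_lit 18) (nat_lit 2) (nat_lit 10) (nat_lit 1) true (nat_lit 10) true (nat_lit 14) true (nat_lit 3) true (nat_lit 13) true (nat_lit 7) dC1d_i26))))))))))))))))))) .leaf) (nat_lit 188416) (nat_lit 617) (.p (nat_lit 260) (nat_lit 2) (.n (nat_lit 261) (nat_lit 1) (.n (nat_lit 263) (nat_lit 1) (.p (nat_lit 264) (nat_lit 2) (.n (nat_lit 266) (nat_lit 1) (.p (nat_lit 267) (nat_lit 2) (.p (nat_lit 269) (nat_lit 1) (.p (nat_lit 270) (nat_lit 1) (.p (nat_lit 272) (nat_lit 1) (.n (nat_lit 273) (nat_lit 3) (.p (nat_lit 274) (nat_lit 3) (.p (nat_lit 277) (nat_lit 1) (.n (nat_lit 279) (nat_lit 3) (.p (nat_lit 280) (nat_lit 2) (.p (nat_lit 285) (nat_lit 2) (.p (nat_lit 287) (nat_lit 1) (.p (nat_lit 288) (nat_lit 2) .z))))))))))))))))) (.ct dC1d_c532 (nat_lit 1) (nat_lit 12) (.s true (nat_lit 1) (nat_lit 5) (nat_lit 2) (nat_lit 4) (nat_lit 4) true (nat_lit 2) true (nat_lit 8) true (nat_lit 7) true (nat_lit 10) true (nat_lit 8) (.s false (nat_lit 3) (nat_lit 6) (nat_lit 3) (nat_lit 4) (nat_lit 2) true (nat_lit 3) true (nat_lit 10) true (nat_lit 6) true (nat_lit 9) true (nat_lit 8) (.s true (nat_lit 2) (nat_lit 6) (nat_lit 4) (nat_lit 2) (nat_lit 3) false (nat_lit 0) true (nat_lit 9) true (nat_lit 6) true (nat_lit 8) true (nat_lit 10) (.s true (nat_lit 3) (nat_lit 11) (nat_lit 0) (nat_lit 2) (nat_lit 6) true (nat_lit 2) true (nat_lit 6) true (nat_lit 3) true (nat_lit 12) true (nat_lit 10) (.s false (nat_lit 3) (nat_lit 12) (nat_lit 0) (nat_lit 2) (nat_lit 6) true (nat_lit 2) true (nat_lit 6) true (nat_lit 3) true (nat_lit 12) true (nat_lit 10) (.s false (nat_lit 1) (nat_lit 12) (nat_lit 0) (nat_lit 6) (nat_lit 2) true (nat_lit 8) true (nat_lit 10) true (nat_lit 3) true (nat_lit 12) true (nat_lit 6) (.s false (nat_lit 2) (nat_lit 10) (nat_lit 2) (nat_lit 0) (nat_lit 6) true (nat_lit 0) true (nat_lit 6) true (nat_lit 3) true (nat_lit 10) true (nat_lit 12) (.s true (nat_lit 2) (nat_lit 10) (nat_lit 2) (nat_lit 2) (nat_lit 4) true (nat_lit 2) true (nat_lit 8) true (nat_lit 3) true (nat_lit 10) true (nat_lit 10) (.s false (nat_lit 3) (nat_lit 12) (nat_lit 2) (nat_lit 2) (nat_lit 4) true (nat_lit 2) true (nat_lit 8) true (nat_lit 3) true (nat_lit 10) true (nat_lit 10) (.s false (nat_lit 1) (nat_lit 10) (nat_lit 2) (nat_lit 6) (nat_lit 0) true (nat_lit 8) true (nat_lit 12) true (nat_lit 3) true (nat_lit 10) true (nat_lit 6) (.s true (nat_lit 1) (nat_lit 11) (nat_lit 2) (nat_lit 6) (nat_lit 0) true (nat_lit 8) true (nat_lit 12) true (nat_lit 3) true (nat_lit 10) true (nat_lit 6) (.s false (nat_lit 1) (nat_lit 12) (nat_lit 2) (nat_lit 6) (nat_lit 0) true (nat_lit 8) true (nat_lit 12) true (nat_lit 3) true (nat_lit 10) true (nat_lit 6) (.s false (nat_lit 1) (nat_lit 10) (nat_lit 4) (nat_lit 2) (nat_lit 2) true (nat_lit 2) true (nat_lit 10) true (nat_lit 3) true (nat_lit 8) true (nat_lit 10) (.s true (nat_lit 2) (nat_lit 14) (nat_lit 0) (nat_lit 6) (nat_lit 1) true (nat_lit 9) true (nat_lit 11) true (nat_lit 2) true (nat_lit 12) true (nat_lit 6) (.s false (nat_lit 3) (nat_lit 15) (nat_lit 1) (nat_lit 2) (nat_lit 4) true (nat_lit 3) true (nat_lit 8) true (nat_lit 2) true (nat_lit 11) true (nat_lit 10) (.s false (nat_lit 2) (nat_lit 14) (nat_lit 1) (nat_lit 4) (nat_lit 2) true (nat_lit 7) true (nat_lit 10) true (nat_lit 2) true (nat_lit 11) true (nat_lit 8) (.s true (nat_lit 3) (nat_lit 14) (nat_lit 2) (nat_lit 1) (nat_lit 4) true (nat_lit 2) true (nat_lit 8) true (nat_lit 2) true (nat_lit 10) true (nat_lit 11) (.s false (nat_lit 1) (nat_lit 15) (nat_lit 2) (nat_lit 3) (nat_lit 2) true (nat_lit 6) true (nat_lit 10) true (nat_lit 2) true (nat_lit 10) true (nat_lit 9) (.s true (nat_lit 3) (nat_lit 14) (nat_lit 2) (nat_lit 4) (nat_lit 1) true (nat_lit 7) true (nat_lit 11) true (nat_lit 2) true (nat_lit 10) true (nat_lit 8) (.s true (nat_lit 1) (nat_lit 14) (nat_lit 3) (nat_lit 2) (nat_lit 2) true (nat_lit 3) true (nat_lit 10) true (nat_lit 2) true (nat_lit 9) true (nat_lit 10) (.s true (nat_lit 1) (nat_lit 15) (nat_lit 3) (nat_lit 2) (nat_lit 2) true (nat_lit 3) true (nat_lit 10) true (nat_lit 2) true (nat_lit 9) true (nat_lit 10) (.s true (nat_lit 2) (nat_lit 16) (nat_lit 0) (nat_lit 6) (nat_lit 0) false (nat_lit 13) true (nat_lit 12) true (nat_lit 1) true (nat_lit 12) true (nat_lit 6) dC1d_i28))))))))))))))))))))))) (.nd .leaf (nat_lit 188417) (nat_lit 732) (.n (nat_lit 290) (nat_lit 3) (.p (nat_lit 291) (nat_lit 1) (.n (nat_lit 293) (nat_lit 2) (.n (nat_lit 294) (nat_lit 3) (.n (nat_lit 296) (nat_lit 3) (.p (nat_lit 297) (nat_lit 3) (.p (nat_lit 298) (nat_lit 2) (.n (nat_lit 299) (nat_lit 3) (.n (nat_lit 300) (nat_lit 1) (.n (nat_lit 301) (nat_lit 2) (.n (nat_lit 302) (nat_lit 1) (.p (nat_lit 304) (nat_lit 1) (.n (nat_lit 305) (nat_lit 3) (.p (nat_lit 308) (nat_lit 1) (.n (nat_lit 310) (nat_lit 3) (.n (nat_lit 311) (nat_lit 1) (.p (nat_lit 313) (nat_lit 2) (.p (nat_lit 316) (nat_lit 1) (.p (nat_lit 317) (nat_lit 3) (.p (nat_lit 318) (nat_lit 1) (.p (nat_lit 319) (nat_lit 1) .z))))))))))))))))))))) (.ct dC1d_c292 (nat_lit 1) (nat_lit 11) (.s false (nat_lit 3) (nat_lit 6) (nat_lit 1) (nat_lit 6) (nat_lit 3) true (nat_lit 5) true (nat_lit 9) true (nat_lit 6) true (nat_lit 11) true (nat_lit 6) (.s true (nat_lit 3) (nat_lit 6) (nat_lit 5) (nat_lit 1) (nat_lit 4) false (nat_lit 1) true (nat_lit 8) true (nat_lit 6) true (nat_lit 7) true (nat_lit 11) (.s true (nat_lit 2) (nat_lit 12) (nat_lit 1) (nat_lit 2) (nat_lit 6) true (nat_lit 1) true (nat_lit 6) true (nat_lit 4) true (nat_lit 11) true (nat_lit 10) (.s false (nat_lit 1) (nat_lit 11) (nat_lit 1) (nat_lit 6) (nat_lit 2) true (nat_lit 7) true (nat_lit 10) true (nat_lit 4) true (nat_lit 11) true (nat_lit 6) (.s true (nat_lit 1) (nat_lit 12) (nat_lit 1) (nat_lit 6) (nat_lit 2) true (nat_lit 7) true (nat_lit 10) true (nat_lit 4) true (nat_lit 11) true (nat_lit 6) (.s false (nat_lit 3) (nat_lit 12) (nat_lit 2) (nat_lit 2) (nat_lit 5) true (nat_lit 1) true (nat_lit 7) true (nat_lit 4) true (nat_lit 10) true (nat_lit 10) (.s false (nat_lit 3) (nat_lit 11) (nat_lit 2) (nat_lit 5) (nat_lit 2) true (nat_lit 6) true (nat_lit 10) true (nat_lit 4) true (nat_lit 10) true (nat_lit 7) (.s false (nat_lit 3) (nat_lit 12) (nat_lit 2) (nat_lit 5) (nat_lit 2) true (nat_lit 6) true (nat_lit 10) true (nat_lit 4) true (nat_lit 10) true (nat_lit 7) (.s false (nat_lit 3) (nat_lit 11) (nat_lit 2) (nat_lit 6) (nat_lit 1) true (nat_lit 7) true (nat_lit 11) true (nat_lit 4) true (nat_lit 10) true (nat_lit 6) (.s true (nat_lit 1) (nat_lit 12) (nat_lit 2) (nat_lit 6) (nat_lit 1) true (nat_lit 7) true (nat_lit 11) true (nat_lit 4) true (nat_lit 10) true (nat_lit 6) (.s true (nat_lit 1) (nat_lit 11) (nat_lit 5) (nat_lit 2) (nat_lit 2) true (nat_lit 1) true (nat_lit 10) true (nat_lit 4) true (nat_lit 7) true (nat_lit 10) (.s true (nat_lit 3) (nat_lit 12) (nat_lit 5) (nat_lit 2) (nat_lit 2) true (nat_lit 1) true (nat_lit 10) true (nat_lit 4) true (nat_lit 7) true (nat_lit 10) (.s true (nat_lit 2) (nat_lit 13) (nat_lit 2) (nat_lit 2) (nat_lit 4) true (nat_lit 2) true (nat_lit 8) true (nat_lit 3) true (nat_lit 10) true (nat_lit 10) (.s true (nat_lit 1) (nat_lit 13) (nat_lit 2) (nat_lit 4) (nat_lit 2) true (nat_lit 6) true (nat_lit 10) true (nat_lit 3) true (nat_lit 10) true (nat_lit 8) (.s false (nat_lit 3) (nat_lit 14) (nat_lit 1) (nat_lit 1) (nat_lit 6) true (nat_lit 1) true (nat_lit 6) true (nat_lit 2) true (nat_lit 11) true (nat_lit 11) (.s true (nat_lit 2) (nat_lit 14) (nat_lit 5) (nat_lit 1) (nat_lit 2) true (nat_lit 1) true (nat_lit 10) true (nat_lit 2) true (nat_lit 7) true (nat_lit 11) (.s false (nat_lit 1) (nat_lit 16) (nat_lit 0) (nat_lit 5) (nat_lit 2) true (nat_lit 8) true (nat_lit 10) true (nat_lit 1) true (nat_lit 12) true (nat_lit 7) (.s false (nat_lit 3) (nat_lit 17) (nat_lit 0) (nat_lit 6) (nat_lit 1) true (nat_lit 9) true (nat_lit 11) true (nat_lit 1) true (nat_lit 12) true (nat_lit 6) dC1d_i31))))))))))))))))))) .leaf)) (nat_lit 188418) (nat_lit 825) (.p (nat_lit 332) (nat_lit 1) .z) .df (.nd (.nd .leaf (nat_lit 188419) (nat_lit 1019) (.p (nat_lit 355) (nat_lit 3) (.n (nat_lit 356) (nat_lit 2) (.n (nat_lit 357) (nat_lit 2) (.p (nat_lit 358) (nat_lit 3) (.n (nat_lit 360) (nat_lit 1) (.n (nat_lit 361) (nat_lit 3) (.p (nat_lit 362) (nat_lit 3) (.n (nat_lit 363) (nat_lit 2) (.p (nat_lit 366) (nat_lit 3) (.p (nat_lit 369) (nat_lit 2) (.p (nat_lit 372) (nat_lit 2) (.p (nat_lit 373) (nat_lit 2) (.p (nat_lit 378) (nat_lit 2) (.n (nat_lit 381) (nat_lit 3) (.n (nat_lit 382) (nat_lit 2) (.p (nat_lit 383) (nat_lit 2) (.p (nat_lit 384) (nat_lit 1) (.p (nat_lit 385) (nat_lit 3) (.p (nat_lit 386) (nat_lit 1) (.n (nat_lit 387) (nat_lit 3) (.p (nat_lit 388) (nat_lit 2) (.n (nat_lit 389) (nat_lit 2) (.p (nat_lit 390) (nat_lit 2) (.n (nat_lit 391) (nat_lit 1) (.p (nat_lit 392) (nat_lit 3) (.n (nat_lit 393) (nat_lit 3) (.p (nat_lit 395) (nat_lit 2) (.n (nat_lit 396) (nat_lit 1) (.n (nat_lit 403) (nat_lit 2) .z))))))))))))))))))))))))))))) (.ct dC1d_c548 (nat_lit 1) (nat_lit 16) (.s false (nat_lit 1) (nat_lit 7) (nat_lit 2) (nat_lit 5) (nat_lit 6) true (nat_lit 5) true (nat_lit 13) true (nat_lit 12) true (nat_lit 17) true (nat_lit 14) (.s false (nat_lit 3) (nat_lit 7) (nat_lit 5) (nat_lit 6) (nat_lit 2) true (nat_lit 6) true (nat_lit 17) true (nat_lit 12) true (nat_lit 14) true (nat_lit 13) (.s true (nat_lit 1) (nat_lit 7) (nat_lit 6) (nat_lit 1) (nat_lit 6) false (nat_lit 4) true (nat_lit 13) true (nat_lit 12) true (nat_lit 13) true (nat_lit 18) dC1d_i37)))) .leaf) (nat_lit 188420) (nat_lit 1377) (.p (nat_lit 426) (nat_lit 2) (.p (nat_lit 427) (nat_lit 3) (.n (nat_lit 428) (nat_lit 1) (.n (nat_lit 429) (nat_lit 2) (.n (nat_lit 430) (nat_lit 1) (.n (nat_lit 431) (nat_lit 2) (.n (nat_lit 432) (nat_lit 3) (.n (nat_lit 433) (nat_lit 1) (.p (nat_lit 436) (nat_lit 3) (.n (nat_lit 441) (nat_lit 2) (.n (nat_lit 442) (nat_lit 2) (.n (nat_lit 443) (nat_lit 1) (.p (nat_lit 444) (nat_lit 2) (.n (nat_lit 445) (nat_lit 3) (.p (nat_lit 446) (nat_lit 1) (.n (nat_lit 447) (nat_lit 2) (.n (nat_lit 451) (nat_lit 2) (.p (nat_lit 452) (nat_lit 2) (.p (nat_lit 454) (nat_lit 2) (.p (nat_lit 455) (nat_lit 2) (.n (nat_lit 456) (nat_lit 3) (.n (nat_lit 459) (nat_lit 2) .z)))))))))))))))))))))) (.ct dC1d_c533 (nat_lit 1) (nat_lit 11) (.s true (nat_lit 1) (nat_lit 86) (nat_lit 2) (nat_lit 2) (nat_lit 0) true (nat_lit 11) true (nat_lit 15) false (nat_lit 5) true (nat_lit 13) true (nat_lit 13) (.e true (nat_lit 1) (nat_lit 332) (nat_lit 0) (nat_lit 15) (.e false (nat_lit 1) (nat_lit 86) (nat_lit 15) (nat_lit 5) (.e true (nat_lit 1) (nat_lit 260) (nat_lit 2) (nat_lit 13) (.e true (nat_lit 3) (nat_lit 261) (nat_lit 2) (nat_lit 13) (.e true (nat_lit 3) (nat_lit 264) (nat_lit 2) (nat_lit 13) (.e true (nat_lit 2) (nat_lit 265) (nat_lit 2) (nat_lit 13) (.e false (nat_lit 2) (nat_lit 266) (nat_lit 2) (nat_lit 13) (.e true (nat_lit 3) (nat_lit 267) (nat_lit 2) (nat_lit 13) (.e false (nat_lit 2) (nat_lit 268) (nat_lit 2) (nat_lit 13) (.e true (nat_lit 3) (nat_lit 269) (nat_lit 2) (nat_lit 13) (.e false (nat_lit 3) (nat_lit 271) (nat_lit 2) (nat_lit 13) (.e true (nat_lit 3) (nat_lit 272) (nat_lit 2) (nat_lit 13) (.e true (nat_lit 1) (nat_lit 273) (nat_lit 2) (nat_lit 13) (.e true (nat_lit 3) (nat_lit 276) (nat_lit 2) (nat_lit 13) (.e true (nat_lit 2) (nat_lit 278) (nat_lit 2) (nat_lit 13) (.e false (nat_lit 2) (nat_lit 279) (nat_lit 2) (nat_lit 13) (.e false (nat_lit 3) (nat_lit 280) (nat_lit 2) (nat_lit 13) (.e true (nat_lit 2) (nat_lit 285) (nat_lit 2) (nat_lit 13) (.e true (nat_lit 1) (nat_lit 286) (nat_lit 2) (nat_lit 13) (.e true (nat_lit 3) (nat_lit 287) (nat_lit 2) (nat_lit 13) (.e false (nat_lit 1) (nat_lit 288) (nat_lit 2) (nat_lit 13) (.e true (nat_lit 1) (nat_lit 274) (nat_lit 2) (nat_lit 13) (.u (nat_lit 2) (.p (nat_lit 3) (nat_lit 1) (.n (nat_lit 4) (nat_lit 3) (.n (nat_lit 6) (nat_lit 2) (.n (nat_lit 7) (nat_lit 2) (.p (nat_lit 9) (nat_lit 4) (.p (nat_lit 13) (nat_lit 1) (.n (nat_lit 15) (nat_lit 3) (.n (nat_lit 16) (nat_lit 1) (.n (nat_lit 17) (nat_lit 1) (.n (nat_lit 18) (nat_lit 3) (.n (nat_lit 19) (nat_lit 1) (.n (nat_lit 20) (nat_lit 1) (.n (nat_lit 21) (nat_lit 2) (.p (nat_lit 22) (nat_lit 1) (.n (nat_lit 24) (nat_lit 1) (.p (nat_lit 26) (nat_lit 1) (.p (nat_lit 30) (nat_lit 4) (.p (nat_lit 33) (nat_lit 1) (.p (nat_lit 180) (nat_lit 1) (.n (nat_lit 184) (nat_lit 1) (.p (nat_lit 189) (nat_lit 1) (.p (nat_lit 191) (nat_lit 1) (.n (nat_lit 193) (nat_lit 1) .z))))))))))))))))))))))) .nil))))))))))))))))))))))))) .leaf)) (nat_lit 188421) (nat_lit 1506) (.n (nat_lit 460) (nat_lit 3) (.n (nat_lit 461) (nat_lit 2) (.p (nat_lit 462) (nat_lit 1) (.n (nat_lit 463) (nat_lit 1) (.p (nat_lit 464) (nat_lit 3) (.n (nat_lit 467) (nat_lit 1) (.n (nat_lit 468) (nat_lit 2) (.p (nat_lit 470) (nat_lit 1) (.p (nat_lit 471) (nat_lit 2) (.n (nat_lit 472) (nat_lit 2) (.n (nat_lit 473) (nat_lit 3) (.n (nat_lit 474) (nat_lit 1) (.n (nat_lit 475) (nat_lit 3) (.p (nat_lit 476) (nat_lit 3) (.n (nat_lit 477) (nat_lit 2) (.n (nat_lit 478) (nat_lit 1) (.n (nat_lit 479) (nat_lit 3) (.p (nat_lit 480) (nat_lit 1) (.n (nat_lit 482) (nat_lit 1) (.n (nat_lit 483) (nat_lit 2) (.p (nat_lit 487) (nat_lit 2) (.p (nat_lit 489) (nat_lit 3) (.p (nat_lit 492) (nat_lit 1) (.n (nat_lit 493) (nat_lit 3) .z)))))))))))))))))))))))) (.ct dC1d_c293 (nat_lit 1) (nat_lit 10) (.s true (nat_lit 2) (nat_lit 42) (nat_lit 2) (nat_lit 5) (nat_lit 1) true (nat_lit 10) true (nat_lit 14) false (nat_lit 0) true (nat_lit 13) true (nat_lit 10) (.s false (nat_lit 2) (nat_lit 42) (nat_lit 5) (nat_lit 2) (nat_lit 1) true (nat_lit 6) true (nat_lit 14) false (nat_lit 0) true (nat_lit 10) true (nat_lit 13) (.s false (nat_lit 2) (nat_lit 100) (nat_lit 2) (nat_lit 1) (nat_lit 1) true (nat_lit 10) true (nat_lit 14) false (nat_lit 6) true (nat_lit 13) true (nat_lit 14) (.e true (nat_lit 2) (nat_lit 180) (nat_lit 5) (nat_lit 10) (.e true (nat_lit 3) (nat_lit 183) (nat_lit 5) (nat_lit 10) (.e false (nat_lit 3) (nat_lit 185) (nat_lit 5) (nat_lit 10) (.e false (nat_lit 2) (nat_lit 186) (nat_lit 5) (nat_lit 10) (.e false (nat_lit 2) (nat_lit 187) (nat_lit 5) (nat_lit 10) (.e false (nat_lit 1) (nat_lit 189) (nat_lit 5) (nat_lit 10) (.e true (nat_lit 2) (nat_lit 190) (nat_lit 5) (nat_lit 10) (.e true (nat_lit 2) (nat_lit 328) (nat_lit 1) (nat_lit 14) (.e true (nat_lit 3) (nat_lit 329) (nat_lit 1) (nat_lit 14) (.e true (nat_lit 3) (nat_lit 330) (nat_lit 1) (nat_lit 14) (.e true (nat_lit 3) (nat_lit 332) (nat_lit 1) (nat_lit 14) (.e true (nat_lit 3) (nat_lit 334) (nat_lit 1) (nat_lit 14) (.e true (nat_lit 3) (nat_lit 335) (nat_lit 1) (nat_lit 14) (.e false (nat_lit 2) (nat_lit 336) (nat_lit 1) (nat_lit 14) (.e false (nat_lit 3) (nat_lit 337) (nat_lit 1) (nat_lit 14) (.e true (nat_lit 1) (nat_lit 338) (nat_lit 1) (nat_lit 14) (.e true (nat_lit 3) (nat_lit 340) (nat_lit 1) (nat_lit 14) (.e false (nat_lit 2) (nat_lit 346) (nat_lit 1) (nat_lit 14) dC1d_i38)))))))))))))))))))))) (.nd (.nd (.nd .leaf (nat_lit 189440) (nat_lit 629) (.p (nat_lit 260) (nat_lit 3) (.p (nat_lit 261) (nat_lit 3) (.n (nat_lit 262) (nat_lit 1) (.n (nat_lit 263) (nat_lit 1) (.n (nat_lit 264) (nat_lit 2) (.p (nat_lit 265) (nat_lit 1) (.n (nat_lit 266) (nat_lit 3) (.p (nat_lit 267) (nat_lit 2) (.n (nat_lit 268) (nat_lit 1) (.p (nat_lit 269) (nat_lit 1) (.p (nat_lit 271) (nat_lit 3) (.n (nat_lit 272) (nat_lit 1) (.p (nat_lit 273) (nat_lit 3) (.n (nat_lit 274) (nat_lit 3) (.p (nat_lit 277) (nat_lit 3) (.p (nat_lit 278) (nat_lit 3) (.n (nat_lit 279) (nat_lit 1) (.p (nat_lit 280) (nat_lit 2) (.n (nat_lit 283) (nat_lit 1) (.p (nat_lit 285) (nat_lit 1) (.n (nat_lit 286) (nat_lit 1) .z))))))))))))))))))))) (.ct dC1d_c532 (nat_lit 1) (nat_lit 12) (.s false (nat_lit 3) (nat_lit 5) (nat_lit 2) (nat_lit 4) (nat_lit 4) true (nat_lit 2) true (nat_lit 8) true (nat_lit 7) true (nat_lit 10) true (nat_lit 8) (.s false (nat_lit 1) (nat_lit 9) (nat_lit 2) (nat_lit 1) (nat_lit 6) true (nat_lit 0) true (nat_lit 6) true (nat_lit 4) true (nat_lit 10) true (nat_lit 11) (.s false (nat_lit 1) (nat_lit 9) (nat_lit 2) (nat_lit 2) (nat_lit 5) true (nat_lit 1) true (nat_lit 7) true (nat_lit 4) true (nat_lit 10) true (nat_lit 10) (.s false (nat_lit 3) (nat_lit 11) (nat_lit 0) (nat_lit 2) (nat_lit 6) true (nat_lit 2) true (nat_lit 6) true (nat_lit 3) true (nat_lit 12) true (nat_lit 10) (.s true (nat_lit 2) (nat_lit 12) (nat_lit 2) (nat_lit 2) (nat_lit 4) true (nat_lit 2) true (nat_lit 8) true (nat_lit 3) true (nat_lit 10) true (nat_lit 10) (.s false (nat_lit 3) (nat_lit 11) (nat_lit 4) (nat_lit 2) (nat_lit 2) true (nat_lit 2) true (nat_lit 10) true (nat_lit 3) true (nat_lit 8) true (nat_lit 10) (.s false (nat_lit 3) (nat_lit 14) (nat_lit 1) (nat_lit 2) (nat_lit 4) true (nat_lit 3) true (nat_lit 8) true (nat_lit 2) true (nat_lit 11) true (nat_lit 10) (.s false (nat_lit 1) (nat_lit 15) (nat_lit 3) (nat_lit 2) (nat_lit 2) true (nat_lit 3) true (nat_lit 10) true (nat_lit 2) true (nat_lit 9) true (nat_lit 10) (.s true (nat_lit 2) (nat_lit 18) (nat_lit 0) (nat_lit 2) (nat_lit 3) true (nat_lit 5) true (nat_lit 9) true (nat_lit 0) true (nat_lit 12) true (nat_lit 10) (.s false (nat_lit 3) (nat_lit 18) (nat_lit 3) (nat_lit 0) (nat_lit 2) true (nat_lit 3) true (nat_lit 10) true (nat_lit 0) true (nat_lit 9) true (nat_lit 12) (.s true (nat_lit 2) (nat_lit 18) (nat_lit 5) (nat_lit 0) (nat_lit 0) true (nat_lit 3) true (nat_lit 12) true (nat_lit 0) true (nat_lit 7) true (nat_lit 12) (.s false (nat_lit 1) (nat_lit 28) (nat_lit 2) (nat_lit 1) (nat_lit 2) true (nat_lit 6) true (nat_lit 10) false (nat_lit 1) true (nat_lit 10) true (nat_lit 11) (.s false (nat_lit 2) (nat_lit 33) (nat_lit 0) (nat_lit 2) (nat_lit 2) true (nat_lit 8) true (nat_lit 10) false (nat_lit 2) true (nat_lit 12) true (nat_lit 10) (.s false (nat_lit 3) (nat_lit 40) (nat_lit 0) (nat_lit 1) (nat_lit 2) true (nat_lit 8) true (nat_lit 10) false (nat_lit 3) true (nat_lit 12) true (nat_lit 11) (.s true (nat_lit 3) (nat_lit 40) (nat_lit 1) (nat_lit 0) (nat_lit 2) true (nat_lit 7) true (nat_lit 10) false (nat_lit 3) true (nat_lit 11) true (nat_lit 12) dC1d_i40)))))))))))))))) .leaf) (nat_lit 189441) (nat_lit 740) (.n (nat_lit 291) (nat_lit 1) (.p (nat_lit 292) (nat_lit 3) (.n (nat_lit 293) (nat_lit 3) (.p (nat_lit 294) (nat_lit 3) (.p (nat_lit 296) (nat_lit 1) (.n (nat_lit 297) (nat_lit 1) (.n (nat_lit 298) (nat_lit 2) (.n (nat_lit 299) (nat_lit 3) (.n (nat_lit 300) (nat_lit 2) (.p (nat_lit 301) (nat_lit 1) (.p (nat_lit 304) (nat_lit 3) (.n (nat_lit 311) (nat_lit 1) (.p (nat_lit 313) (nat_lit 1) (.n (nat_lit 316) (nat_lit 1) .z)))))))))))))) (.ct dC1d_c292 (nat_lit 1) (nat_lit 11) (.s false (nat_lit 1) (nat_lit 12) (nat_lit 2) (nat_lit 1) (nat_lit 6) true (nat_lit 0) true (nat_lit 6) true (nat_lit 4) true (nat_lit 10) true (nat_lit 11) (.s true (nat_lit 1) (nat_lit 11) (nat_lit 2) (nat_lit 2) (nat_lit 5) true (nat_lit 1) true (nat_lit 7) true (nat_lit 4) true (nat_lit 10) true (nat_lit 10) (.s false (nat_lit 1) (nat_lit 12) (nat_lit 2) (nat_lit 2) (nat_lit 5) true (nat_lit 1) true (nat_lit 7) true (nat_lit 4) true (nat_lit 10) true (nat_lit 10) (.s true (nat_lit 1) (nat_lit 11) (nat_lit 6) (nat_lit 1) (nat_lit 2) true (nat_lit 0) true (nat_lit 10) true (nat_lit 4) true (nat_lit 6) true (nat_lit 11) (.s false (nat_lit 1) (nat_lit 14) (nat_lit 1) (nat_lit 1) (nat_lit 6) true (nat_lit 1) true (nat_lit 6) true (nat_lit 2) true (nat_lit 11) true (nat_lit 11) (.s false (nat_lit 3) (nat_lit 15) (nat_lit 1) (nat_lit 1) (nat_lit 6) true (nat_lit 1) true (nat_lit 6) true (nat_lit 2) true (nat_lit 11) true (nat_lit 11) (.s true (nat_lit 2) (nat_lit 18) (nat_lit 2) (nat_lit 1) (nat_lit 3) true (nat_lit 4) true (nat_lit 9) true (nat_lit 0) true (nat_lit 10) true (nat_lit 11) dC1d_i42)))))))) .leaf) (nat_lit 189442) (nat_lit 826) (.p (nat_lit 333) (nat_lit 1) .z) .df (.nd (.nd .leaf (nat_lit 189443) (nat_lit 1163) (.n (nat_lit 355) (nat_lit 2) (.p (nat_lit 356) (nat_lit 1) (.p (nat_lit 359) (nat_lit 2) (.p (nat_lit 361) (nat_lit 2) (.n (nat_lit 362) (nat_lit 2) (.p (nat_lit 363) (nat_lit 1) (.p (nat_lit 365) (nat_lit 3) (.n (nat_lit 366) (nat_lit 3) (.n (nat_lit 369) (nat_lit 3) (.n (nat_lit 372) (nat_lit 3) (.p (nat_lit 373) (nat_lit 2) (.p (nat_lit 375) (nat_lit 1) (.n (nat_lit 376) (nat_lit 1) (.p (nat_lit 378) (nat_lit 1) (.p (nat_lit 381) (nat_lit 3) (.p (nat_lit 382) (nat_lit 3) (.n (nat_lit 383) (nat_lit 1) (.n (nat_lit 384) (nat_lit 3) (.p (nat_lit 385) (nat_lit 3) (.n (nat_lit 386) (nat_lit 1) (.p (nat_lit 387) (nat_lit 3) (.p (nat_lit 388) (nat_lit 3) (.n (nat_lit 389) (nat_lit 1) (.n (nat_lit 390) (nat_lit 2) (.p (nat_lit 391) (nat_lit 3) (.p (nat_lit 392) (nat_lit 2) (.p (nat_lit 393) (nat_lit 1) (.n (nat_lit 395) (nat_lit 3) (.n (nat_lit 396) (nat_lit 2) (.p (nat_lit 401) (nat_lit 1) (.n (nat_lit 403) (nat_lit 1) .z))))))))))))))))))))))))))))))) (.ct dC1d_c548 (nat_lit 1) (nat_lit 16) (.s true (nat_lit 1) (nat_lit 87) (nat_lit 0) (nat_lit 2) (nat_lit 1) true (nat_lit 16) true (nat_lit 18) false (nat_lit 9) true (nat_lit 19) true (nat_lit 17) (.e false (nat_lit 3) (nat_lit 260) (nat_lit 1) (nat_lit 18) (.e true (nat_lit 2) (nat_lit 261) (nat_lit 1) (nat_lit 18) (.e false (nat_lit 2) (nat_lit 262) (nat_lit 1) (nat_lit 18) (.e false (nat_lit 2) (nat_lit 263) (nat_lit 1) (nat_lit 18) (.e false (nat_lit 1) (nat_lit 264) (nat_lit 1) (nat_lit 18) (.e false (nat_lit 2) (nat_lit 265) (nat_lit 1) (nat_lit 18) (.e false (nat_lit 3) (nat_lit 267) (nat_lit 1) (nat_lit 18) dC1d_i44))))))))) .leaf) (nat_lit 189444) (nat_lit 1372) (.p (nat_lit 426) (nat_lit 1) (.p (nat_lit 427) (nat_lit 3) (.n (nat_lit 428) (nat_lit 2) (.p (nat_lit 429) (nat_lit 1) (.n (nat_lit 430) (nat_lit 3) (.n (nat_lit 431) (nat_lit 1) (.n (nat_lit 432) (nat_lit 2) (.n (nat_lit 433) (nat_lit 1) (.p (nat_lit 434) (nat_lit 3) (.p (nat_lit 435) (nat_lit 2) (.p (nat_lit 436) (nat_lit 1) (.p (nat_lit 438) (nat_lit 3) (.p (nat_lit 439) (nat_lit 1) (.p (nat_lit 440) (nat_lit 1) (.p (nat_lit 441) (nat_lit 2) (.p (nat_lit 442) (nat_lit 3) (.p (nat_lit 444) (nat_lit 2) (.n (nat_lit 445) (nat_lit 1) (.n (nat_lit 447) (nat_lit 1) (.p (nat_lit 448) (nat_lit 1) (.p (nat_lit 451) (nat_lit 1) (.p (nat_lit 452) (nat_lit 1) (.n (nat_lit 454) (nat_lit 1) (.p (nat_lit 455) (nat_lit 1) (.n (nat_lit 459) (nat_lit 2) .z))))))))))))))))))))))))) (.ct dC1d_c533 (nat_lit 1) (nat_lit 11) (.s false (nat_lit 1) (nat_lit 46) (nat_lit 2) (nat_lit 3) (nat_lit 0) true (nat_lit 11) true (nat_lit 15) false (nat_lit 2) true (nat_lit 13) true (nat_lit 12) (.e false (nat_lit 1) (nat_lit 181) (nat_lit 4) (nat_lit 11) (.e true (nat_lit 1) (nat_lit 182) (nat_lit 4) (nat_lit 11) (.e false (nat_lit 1) (nat_lit 183) (nat_lit 4) (nat_lit 11) (.e true (nat_lit 1) (nat_lit 192) (nat_lit 4) (nat_lit 11) (.e true (nat_lit 3) (nat_lit 328) (nat_lit 0) (nat_lit 15) (.e false (nat_lit 2) (nat_lit 329) (nat_lit 0) (nat_lit 15) (.e true (nat_lit 2) (nat_lit 330) (nat_lit 0) (nat_lit 15) (.e true (nat_lit 1) (nat_lit 331) (nat_lit 0) (nat_lit 15) (.e false (nat_lit 2) (nat_lit 332) (nat_lit 0) (nat_lit 15) (.e false (nat_lit 3) (nat_lit 333) (nat_lit 0) (nat_lit 15) (.e false (nat_lit 1) (nat_lit 334) (nat_lit 0) (nat_lit 15) (.e false (nat_lit 1) (nat_lit 335) (nat_lit 0) (nat_lit 15) (.e false (nat_lit 1) (nat_lit 336) (nat_lit 0) (nat_lit 15) (.e false (nat_lit 2) (nat_lit 337) (nat_lit 0) (nat_lit 15) (.e false (nat_lit 3) (nat_lit 338) (nat_lit 0) (nat_lit 15) (.e true (nat_lit 1) (nat_lit 341) (nat_lit 0) (nat_lit 15) (.e false (nat_lit 1) (nat_lit 344) (nat_lit 0) (nat_lit 15) (.e true (nat_lit 1) (nat_lit 345) (nat_lit 0) (nat_lit 15) (.e false (nat_lit 1) (nat_lit 46) (nat_lit 22) (nat_lit 2) (.e false (nat_lit 1) (nat_lit 270) (nat_lit 2) (nat_lit 13) (.e true (nat_lit 1) (nat_lit 286) (nat_lit 2) (nat_lit 13) (.e false (nat_lit 1) (nat_lit 204) (nat_lit 3) (nat_lit 12) (.u (nat_lit 2) (.n (nat_lit 0) (nat_lit 1) (.n (nat_lit 1) (nat_lit 1) (.p (nat_lit 2) (nat_lit 1) (.n (nat_lit 3) (nat_lit 1) (.p (nat_lit 4) (nat_lit 1) (.p (nat_lit 5) (nat_lit 1) (.p (nat_lit 8) (nat_lit 1) (.n (nat_lit 9) (nat_lit 1) (.p (nat_lit 10) (nat_lit 1) (.n (nat_lit 12) (nat_lit 1) (.p (nat_lit 16) (nat_lit 1) (.p (nat_lit 19) (nat_lit 1) (.n (nat_lit 20) (nat_lit 1) (.n (nat_lit 25) (nat_lit 1) (.p (nat_lit 28) (nat_lit 1) (.p (nat_lit 30) (nat_lit 1) (.p (nat_lit 33) (nat_lit 1) .z))))))))))))))))) .nil))))))))))))))))))))))))) .leaf))) (nat_lit 189445) (nat_lit 1444) (.p (nat_lit 461) (nat_lit 1) (.p (nat_lit 462) (nat_lit 1) (.n (nat_lit 465) (nat_lit 3) (.n (nat_lit 466) (nat_lit 3) (.n (nat_lit 467) (nat_lit 3) (.n (nat_lit 468) (nat_lit 3) (.n (nat_lit 469) (nat_lit 2) (.p (nat_lit 470) (nat_lit 3) (.p (nat_lit 471) (nat_lit 1) (.p (nat_lit 472) (nat_lit 1) (.p (nat_lit 473) (nat_lit 1) (.n (nat_lit 475) (nat_lit 1) (.n (nat_lit 476) (nat_lit 2) (.p (nat_lit 477) (nat_lit 1) (.n (nat_lit 478) (nat_lit 3) (.p (nat_lit 479) (nat_lit 3) (.p (nat_lit 480) (nat_lit 3) (.p (nat_lit 481) (nat_lit 1) (.p (nat_lit 482) (nat_lit 3) (.p (nat_lit 483) (nat_lit 1) (.n (nat_lit 486) (nat_lit 2) (.p (nat_lit 487) (nat_lit 1) (.p (nat_lit 489) (nat_lit 3) (.n (nat_lit 492) (nat_lit 3) (.p (nat_lit 493) (nat_lit 1) .z))))))))))))))))))))))))) (.ct dC1d_c293 (nat_lit 1) (nat_lit 10) (.s true (nat_lit 3) (nat_lit 6) (nat_lit 5) (nat_lit 3) (nat_lit 6) false (nat_lit 1) true (nat_lit 9) true (nat_lit 9) true (nat_lit 10) true (nat_lit 12) (.s true (nat_lit 3) (nat_lit 10) (nat_lit 1) (nat_lit 6) (nat_lit 6) true (nat_lit 4) true (nat_lit 9) true (nat_lit 7) true (nat_lit 14) true (nat_lit 9) (.s false (nat_lit 1) (nat_lit 11) (nat_lit 1) (nat_lit 6) (nat_lit 6) true (nat_lit 4) true (nat_lit 9) true (nat_lit 7) true (nat_lit 14) true (nat_lit 9) (.s true (nat_lit 3) (nat_lit 11) (nat_lit 2) (nat_lit 5) (nat_lit 6) true (nat_lit 3) true (nat_lit 9) true (nat_lit 7) true (nat_lit 13) true (nat_lit 10) (.s false (nat_lit 1) (nat_lit 10) (nat_lit 2) (nat_lit 6) (nat_lit 5) true (nat_lit 4) true (nat_lit 10) true (nat_lit 7) true (nat_lit 13) true (nat_lit 9) (.s true (nat_lit 2) (nat_lit 11) (nat_lit 5) (nat_lit 6) (nat_lit 2) true (nat_lit 4) true (nat_lit 13) true (nat_lit 7) true (nat_lit 10) true (nat_lit 9) (.s false (nat_lit 3) (nat_lit 10) (nat_lit 6) (nat_lit 6) (nat_lit 1) true (nat_lit 4) true (nat_lit 14) true (nat_lit 7) true (nat_lit 9) true (nat_lit 9) (.s false (nat_lit 3) (nat_lit 11) (nat_lit 6) (nat_lit 6) (nat_lit 1) true (nat_lit 4) true (nat_lit 14) true (nat_lit 7) true (nat_lit 9) true (nat_lit 9) (.s true (nat_lit 3) (nat_lit 16) (nat_lit 0) (nat_lit 16) (nat_lit 2) true (nat_lit 11) true (nat_lit 13) true (nat_lit 4) true (nat_lit 15) true (nat_lit 4) (.s true (nat_lit 2) (nat_lit 16) (nat_lit 0) (nat_lit 17) (nat_lit 2) true (nat_lit 11) true (nat_lit 13) true (nat_lit 4) true (nat_lit 15) true (nat_lit 4) (.s true (nat_lit 3) (nat_lit 16) (nat_lit 2) (nat_lit 2) (nat_lit 11) true (nat_lit 1) true (nat_lit 7) true (nat_lit 4) true (nat_lit 13) true (nat_lit 13) (.s false (nat_lit 1) (nat_lit 17) (nat_lit 2) (nat_lit 2) (nat_lit 10) true (nat_lit 1) true (nat_lit 7) true (nat_lit 4) true (nat_lit 13) true (nat_lit 13) (.s true (nat_lit 3) (nat_lit 16) (nat_lit 2) (nat_lit 11) (nat_lit 2) true (nat_lit 9) true (nat_lit 13) true (nat_lit 4) true (nat_lit 13) true (nat_lit 7) dC1d_i49)))))))))))))) (.nd (.nd (.nd (.nd .leaf (nat_lit 190464) (nat_lit 627) (.n (nat_lit 260) (nat_lit 2) (.p (nat_lit 261) (nat_lit 1) (.n (nat_lit 262) (nat_lit 1) (.p (nat_lit 263) (nat_lit 2) (.p (nat_lit 264) (nat_lit 3) (.n (nat_lit 265) (nat_lit 2) (.n (nat_lit 266) (nat_lit 2) (.n (nat_lit 267) (nat_lit 2) (.n (nat_lit 268) (nat_lit 1) (.p (nat_lit 269) (nat_lit 3) (.p (nat_lit 270) (nat_lit 3) (.n (nat_lit 271) (nat_lit 3) (.p (nat_lit 272) (nat_lit 1) (.n (nat_lit 273) (nat_lit 2) (.p (nat_lit 275) (nat_lit 1) (.n (nat_lit 276) (nat_lit 1) (.p (nat_lit 277) (nat_lit 1) (.n (nat_lit 278) (nat_lit 1) (.p (nat_lit 279) (nat_lit 1) (.p (nat_lit 280) (nat_lit 3) (.n (nat_lit 282) (nat_lit 3) (.p (nat_lit 284) (nat_lit 1) (.p (nat_lit 286) (nat_lit 1) (.n (nat_lit 288) (nat_lit 3) (.p (nat_lit 289) (nat_lit 3) .z))))))))))))))))))))))))) (.ct dC1d_c532 (nat_lit 1) (nat_lit 12) (.s false (nat_lit 3) (nat_lit 9) (nat_lit 2) (nat_lit 1) (nat_lit 6) true (nat_lit 0) true (nat_lit 6) true (nat_lit 4) true (nat_lit 10) true (nat_lit 11) (.s false (nat_lit 3) (nat_lit 9) (nat_lit 2) (nat_lit 2) (nat_lit 5) true (nat_lit 1) true (nat_lit 7) true (nat_lit 4) true (nat_lit 10) true (nat_lit 10) dC1d_i52))) .leaf) (nat_lit 190465) (nat_lit 706) (.p (nat_lit 314) (nat_lit 1) .z) .df .leaf) (nat_lit 190466) (nat_lit 827) (.p (nat_lit 334) (nat_lit 1) .z) .df (.nd (.nd .leaf (nat_lit 190467) (nat_lit 1099) (.p (nat_lit 356) (nat_lit 3) (.n (nat_lit 357) (nat_lit 3) (.n (nat_lit 358) (nat_lit 3) (.p (nat_lit 359) (nat_lit 1) (.p (nat_lit 363) (nat_lit 3) (.n (nat_lit 364) (nat_lit 2) (.n (nat_lit 366) (nat_lit 1) (.n (nat_lit 367) (nat_lit 2) (.p (nat_lit 369) (nat_lit 1) (.p (nat_lit 370) (nat_lit 1) (.n (nat_lit 372) (nat_lit 2) (.n (nat_lit 373) (nat_lit 1) (.p (nat_lit 374) (nat_lit 3) (.p (nat_lit 375) (nat_lit 3) (.p (nat_lit 379) (nat_lit 1) (.p (nat_lit 381) (nat_lit 3) (.n (nat_lit 382) (nat_lit 1) (.n (nat_lit 383) (nat_lit 2) (.n (nat_lit 384) (nat_lit 2) (.p (nat_lit 385) (nat_lit 2) (.p (nat_lit 386) (nat_lit 3) (.p (nat_lit 388) (nat_lit 3) (.n (nat_lit 389) (nat_lit 1) (.n (nat_lit 391) (nat_lit 1) (.p (nat_lit 394) (nat_lit 1) (.p (nat_lit 395) (nat_lit 3) (.n (nat_lit 396) (nat_lit 1) (.n (nat_lit 397) (nat_lit 1) (.p (nat_lit 398) (nat_lit 1) (.n (nat_lit 399) (nat_lit 3) (.p (nat_lit 400) (nat_lit 3) (.n (nat_lit 402) (nat_lit 1) .z)))))))))))))))))))))))))))))))) (.ct dC1d_c548 (nat_lit 1) (nat_lit 16) (.s false (nat_lit 3) (nat_lit 14) (nat_lit 13) (nat_lit 2) (nat_lit 0) true (nat_lit 2) true (nat_lit 19) true (nat_lit 7) true (nat_lit 8) true (nat_lit 17) (.s false (nat_lit 3) (nat_lit 40) (nat_lit 0) (nat_lit 1) (nat_lit 5) true (nat_lit 9) true (nat_lit 14) false (nat_lit 2) true (nat_lit 19) true (nat_lit 18) (.s false (nat_lit 3) (nat_lit 40) (nat_lit 4) (nat_lit 1) (nat_lit 1) true (nat_lit 9) true (nat_lit 18) false (nat_lit 2) true (nat_lit 15) true (nat_lit 18) (.s false (nat_lit 3) (nat_lit 88) (nat_lit 0) (nat_lit 2) (nat_lit 1) true (nat_lit 16) true (nat_lit 18) false (nat_lit 9) true (nat_lit 19) true (nat_lit 17) (.s true (nat_lit 3) (nat_lit 88) (nat_lit 1) (nat_lit 2) (nat_lit 0) true (nat_lit 16) true (nat_lit 19) false (nat_lit 9) true (nat_lit 18) true (nat_lit 17) (.e true (nat_lit 3) (nat_lit 40) (nat_lit 25) (nat_lit 2) (.e false (nat_lit 3) (nat_lit 290) (nat_lit 0) (nat_lit 19) (.e false (nat_lit 3) (nat_lit 291) (nat_lit 0) (nat_lit 19) (.e false (nat_lit 2) (nat_lit 293) (nat_lit 0) (nat_lit 19) (.e false (nat_lit 1) (nat_lit 294) (nat_lit 0) (nat_lit 19) (.e true (nat_lit 2) (nat_lit 295) (nat_lit 0) (nat_lit 19) (.e true (nat_lit 1) (nat_lit 296) (nat_lit 0) (nat_lit 19) (.e true (nat_lit 2) (nat_lit 297) (nat_lit 0) (nat_lit 19) (.e true (nat_lit 3) (nat_lit 299) (nat_lit 0) (nat_lit 19) (.e true (nat_lit 2) (nat_lit 300) (nat_lit 0) (nat_lit 19) (.e false (nat_lit 3) (nat_lit 304) (nat_lit 0) (nat_lit 19) (.e false (nat_lit 1) (nat_lit 306) (nat_lit 0) (nat_lit 19) (.e false (nat_lit 1) (nat_lit 307) (nat_lit 0) (nat_lit 19) (.e true (nat_lit 3) (nat_lit 308) (nat_lit 0) (nat_lit 19) (.e true (nat_lit 1) (nat_lit 309) (nat_lit 0) (nat_lit 19) (.e true (nat_lit 1) (nat_lit 310) (nat_lit 0) (nat_lit 19) (.e false (nat_lit 3) (nat_lit 73) (nat_lit 14) (nat_lit 7) (.e true (nat_lit 3) (nat_lit 78) (nat_lit 13) (nat_lit 8) (.e true (nat_lit 3) (nat_lit 80) (nat_lit 13) (nat_lit 8) dC1d_i55))))))))))))))))))))))))) .leaf) (nat_lit 190468) (nat_lit 1380) (.n (nat_lit 426) (nat_lit 2) (.n (nat_lit 427) (nat_lit 2) (.n (nat_lit 428) (nat_lit 3) (.n (nat_lit 429) (nat_lit 3) (.n (nat_lit 430) (nat_lit 2) (.n (nat_lit 431) (nat_lit 1) (.p (nat_lit 432) (nat_lit 2) (.p (nat_lit 433) (nat_lit 1) (.n (nat_lit 434) (nat_lit 1) (.n (nat_lit 435) (nat_lit 2) (.p (nat_lit 437) (nat_lit 3) (.p (nat_lit 438) (nat_lit 1) (.p (nat_lit 439) (nat_lit 1) (.n (nat_lit 440) (nat_lit 3) (.p (nat_lit 441) (nat_lit 2) (.n (nat_lit 442) (nat_lit 1) (.n (nat_lit 443) (nat_lit 2) (.p (nat_lit 444) (nat_lit 3) (.p (nat_lit 445) (nat_lit 3) (.p (nat_lit 447) (nat_lit 3) (.p (nat_lit 448) (nat_lit 2) (.p (nat_lit 449) (nat_lit 3) (.n (nat_lit 450) (nat_lit 3) (.p (nat_lit 451) (nat_lit 1) (.p (nat_lit 452) (nat_lit 3) (.p (nat_lit 453) (nat_lit 3) (.n (nat_lit 454) (nat_lit 2) (.p (nat_lit 455) (nat_lit 2) (.n (nat_lit 456) (nat_lit 2) (.n (nat_lit 457) (nat_lit 3) (.n (nat_lit 458) (nat_lit 1) (.n (nat_lit 459) (nat_lit 2) .z)))))))))))))))))))))))))))))))) (.ct dC1d_c533 (nat_lit 1) (nat_lit 11) dC1d_i56) .leaf)) (nat_lit 190469) (nat_lit 1431) (.n (nat_lit 467) (nat_lit 3) (.p (nat_lit 468) (nat_lit 2) (.n (nat_lit 469) (nat_lit 2) (.p (nat_lit 470) (nat_lit 2) (.p (nat_lit 471) (nat_lit 3) (.n (nat_lit 472) (nat_lit 3) (.p (nat_lit 473) (nat_lit 3) (.p (nat_lit 474) (nat_lit 2) (.p (nat_lit 475) (nat_lit 3) (.n (nat_lit 476) (nat_lit 3) (.p (nat_lit 477) (nat_lit 3) (.n (nat_lit 479) (nat_lit 1) (.n (nat_lit 491) (nat_lit 1) .z))))))))))))) (.ct dC1d_c293 (nat_lit 1) (nat_lit 10) (.s false (nat_lit 3) (nat_lit 40) (nat_lit 1) (nat_lit 2) (nat_lit 5) true (nat_lit 6) true (nat_lit 10) false (nat_lit 0) true (nat_lit 14) true (nat_lit 13) (.s false (nat_lit 3) (nat_lit 40) (nat_lit 2) (nat_lit 1) (nat_lit 5) true (nat_lit 4) true (nat_lit 10) false (nat_lit 0) true (nat_lit 13) true (nat_lit 14) (.s false (nat_lit 3) (nat_lit 88) (nat_lit 1) (nat_lit 2) (nat_lit 2) true (nat_lit 10) true (nat_lit 13) false (nat_lit 4) true (nat_lit 14) true (nat_lit 13) (.e false (nat_lit 3) (nat_lit 98) (nat_lit 13) (nat_lit 6) (.e true (nat_lit 3) (nat_lit 328) (nat_lit 1) (nat_lit 14) (.e false (nat_lit 2) (nat_lit 329) (nat_lit 1) (nat_lit 14) (.e true (nat_lit 2) (nat_lit 330) (nat_lit 1) (nat_lit 14) (.e false (nat_lit 2) (nat_lit 331) (nat_lit 1) (nat_lit 14) (.e false (nat_lit 3) (nat_lit 332) (nat_lit 1) (nat_lit 14) (.e true (nat_lit 3) (nat_lit 333) (nat_lit 1) (nat_lit 14) (.e false (nat_lit 3) (nat_lit 334) (nat_lit 1) (nat_lit 14) (.e false (nat_lit 2) (nat_lit 335) (nat_lit 1) (nat_lit 14) (.e false (nat_lit 3) (nat_lit 336) (nat_lit 1) (nat_lit 14) (.e true (nat_lit 3) (nat_lit 337) (nat_lit 1) (nat_lit 14) (.e false (nat_lit 3) (nat_lit 338) (nat_lit 1) (nat_lit 14) (.e true (nat_lit 1) (nat_lit 340) (nat_lit 1) (nat_lit 14) (.e true (nat_lit 3) (nat_lit 342) (nat_lit 1) (nat_lit 14) (.e false (nat_lit 3) (nat_lit 191) (nat_lit 5) (nat_lit 10) (.e true (nat_lit 1) (nat_lit 314) (nat_lit 2) (nat_lit 13) (.e false (nat_lit 3) (nat_lit 339) (nat_lit 1) (nat_lit 14) (.u (nat_lit 2) (.p (nat_lit 152) (nat_lit 1) (.p (nat_lit 197) (nat_lit 1) (.n (nat_lit 204) (nat_lit 2) (.p (nat_lit 205) (nat_lit 2) (.p (nat_lit 206) (nat_lit 1) (.p (nat_lit 210) (nat_lit 1) (.p (nat_lit 212) (nat_lit 3) (.p (nat_lit 215) (nat_lit 1) .z)))))))) .nil)))))))))))))))))))))) (.nd (.nd (.nd .leaf (nat_lit 191488) (nat_lit 628) (.p (nat_lit 261) (nat_lit 3) (.p (nat_lit 262) (nat_lit 2) (.p (nat_lit 263) (nat_lit 1) (.n (nat_lit 264) (nat_lit 3) (.n (nat_lit 265) (nat_lit 1) (.n (nat_lit 266) (nat_lit 1) (.p (nat_lit 268) (nat_lit 2) (.p (nat_lit 269) (nat_lit 3) (.n (nat_lit 270) (nat_lit 3) (.n (nat_lit 271) (nat_lit 2) (.p (nat_lit 272) (nat_lit 1) (.p (nat_lit 273) (nat_lit 3) (.n (nat_lit 274) (nat_lit 1) (.n (nat_lit 275) (nat_lit 1) (.p (nat_lit 276) (nat_lit 1) (.p (nat_lit 277) (nat_lit 1) (.p (nat_lit 278) (nat_lit 2) (.n (nat_lit 279) (nat_lit 1) (.n (nat_lit 281) (nat_lit 1) (.p (nat_lit 282) (nat_lit 3) (.n (nat_lit 283) (nat_lit 1) (.p (nat_lit 285) (nat_lit 1) (.n (nat_lit 286) (nat_lit 3) (.p (nat_lit 287) (nat_lit 2) (.n (nat_lit 288) (nat_lit 1) (.n (nat_lit 289) (nat_lit 2) .z)))))))))))))))))))))))))) (.ct dC1d_c532 (nat_lit 1) (nat_lit 12) (.s false (nat_lit 3) (nat_lit 6) (nat_lit 0) (nat_lit 3) (nat_lit 6) true (nat_lit 2) true (nat_lit 6) true (nat_lit 6) true (nat_lit 12) true (nat_lit 9) (.s false (nat_lit 1) (nat_lit 6) (nat_lit 4) (nat_lit 3) (nat_lit 2) true (nat_lit 2) true (nat_lit 10) true (nat_lit 6) true (nat_lit 8) true (nat_lit 9) (.s true (nat_lit 2) (nat_lit 12) (nat_lit 0) (nat_lit 2) (nat_lit 6) true (nat_lit 2) true (nat_lit 6) true (nat_lit 3) true (nat_lit 12) true (nat_lit 10) (.s false (nat_lit 2) (nat_lit 12) (nat_lit 2) (nat_lit 2) (nat_lit 4) true (nat_lit 2) true (nat_lit 8) true (nat_lit 3) true (nat_lit 10) true (nat_lit 10) (.s true (nat_lit 1) (nat_lit 12) (nat_lit 2) (nat_lit 6) (nat_lit 0) true (nat_lit 8) true (nat_lit 12) true (nat_lit 3) true (nat_lit 10) true (nat_lit 6) (.s false (nat_lit 1) (nat_lit 11) (nat_lit 4) (nat_lit 2) (nat_lit 2) true (nat_lit 2) true (nat_lit 10) true (nat_lit 3) true (nat_lit 8) true (nat_lit 10) (.s false (nat_lit 2) (nat_lit 14) (nat_lit 1) (nat_lit 2) (nat_lit 4) true (nat_lit 3) true (nat_lit 8) true (nat_lit 2) true (nat_lit 11) true (nat_lit 10) (.s true (nat_lit 3) (nat_lit 15) (nat_lit 1) (nat_lit 6) (nat_lit 0) true (nat_lit 9) true (nat_lit 12) true (nat_lit 2) true (nat_lit 11) true (nat_lit 6) (.s false (nat_lit 1) (nat_lit 14) (nat_lit 2) (nat_lit 0) (nat_lit 5) true (nat_lit 1) true (nat_lit 7) true (nat_lit 2) true (nat_lit 10) true (nat_lit 12) (.s false (nat_lit 3) (nat_lit 15) (nat_lit 3) (nat_lit 2) (nat_lit 2) true (nat_lit 3) true (nat_lit 10) true (nat_lit 2) true (nat_lit 9) true (nat_lit 10) (.s false (nat_lit 1) (nat_lit 16) (nat_lit 2) (nat_lit 4) (nat_lit 0) true (nat_lit 8) true (nat_lit 12) true (nat_lit 1) true (nat_lit 10) true (nat_lit 8) dC1d_i58)))))))))))) .leaf) (nat_lit 191489) (nat_lit 731) (.p (nat_lit 290) (nat_lit 2) (.n (nat_lit 291) (nat_lit 3) (.p (nat_lit 292) (nat_lit 3) (.n (nat_lit 293) (nat_lit 1) (.n (nat_lit 294) (nat_lit 1) (.p (nat_lit 295) (nat_lit 3) (.n (nat_lit 296) (nat_lit 1) (.p (nat_lit 297) (nat_lit 1) (.n (nat_lit 298) (nat_lit 1) (.p (nat_lit 299) (nat_lit 1) (.n (nat_lit 300) (nat_lit 1) (.p (nat_lit 301) (nat_lit 2) (.p (nat_lit 302) (nat_lit 3) (.n (nat_lit 304) (nat_lit 1) (.p (nat_lit 305) (nat_lit 2) (.n (nat_lit 307) (nat_lit 3) (.p (nat_lit 308) (nat_lit 1) (.n (nat_lit 311) (nat_lit 1) (.p (nat_lit 312) (nat_lit 1) (.p (nat_lit 313) (nat_lit 1) (.n (nat_lit 314) (nat_lit 1) (.n (nat_lit 316) (nat_lit 1) (.n (nat_lit 317) (nat_lit 2) (.p (nat_lit 318) (nat_lit 1) .z)))))))))))))))))))))))) (.ct dC1d_c292 (nat_lit 1) (nat_lit 11) (.s false (nat_lit 2) (nat_lit 6) (nat_lit 1) (nat_lit 3) (nat_lit 6) true (nat_lit 1) true (nat_lit 6) true (nat_lit 6) true (nat_lit 11) true (nat_lit 9) (.s false (nat_lit 1) (nat_lit 6) (nat_lit 1) (nat_lit 6) (nat_lit 3) true (nat_lit 5) true (nat_lit 9) true (nat_lit 6) true (nat_lit 11) true (nat_lit 6) dC1d_i61))) .leaf) (nat_lit 191490) (nat_lit 828) (.p (nat_lit 335) (nat_lit 1) .z) .df (.nd (.nd .leaf (nat_lit 191491) (nat_lit 1200) (.p (nat_lit 355) (nat_lit 3) (.p (nat_lit 356) (nat_lit 1) (.p (nat_lit 358) (nat_lit 2) (.p (nat_lit 359) (nat_lit 1) (.p (nat_lit 360) (nat_lit 2) (.n (nat_lit 365) (nat_lit 2) (.p (nat_lit 366) (nat_lit 2) (.p (nat_lit 367) (nat_lit 3) (.p (nat_lit 369) (nat_lit 2) (.p (nat_lit 370) (nat_lit 2) (.p (nat_lit 372) (nat_lit 3) (.p (nat_lit 373) (nat_lit 1) (.n (nat_lit 374) (nat_lit 2) (.n (nat_lit 375) (nat_lit 3) (.n (nat_lit 376) (nat_lit 1) (.p (nat_lit 377) (nat_lit 1) (.p (nat_lit 378) (nat_lit 1) (.n (nat_lit 379) (nat_lit 1) (.p (nat_lit 381) (nat_lit 2) (.p (nat_lit 382) (nat_lit 3) (.n (nat_lit 383) (nat_lit 1) (.p (nat_lit 384) (nat_lit 2) (.p (nat_lit 385) (nat_lit 2) (.p (nat_lit 387) (nat_lit 2) (.n (nat_lit 388) (nat_lit 2) (.p (nat_lit 389) (nat_lit 1) (.n (nat_lit 390) (nat_lit 1) (.p (nat_lit 391) (nat_lit 1) (.p (nat_lit 392) (nat_lit 1) (.n (nat_lit 393) (nat_lit 2) (.n (nat_lit 394) (nat_lit 2) (.n (nat_lit 396) (nat_lit 2) (.p (nat_lit 397) (nat_lit 1) (.n (nat_lit 398) (nat_lit 1) (.p (nat_lit 399) (nat_lit 3) (.n (nat_lit 400) (nat_lit 3) (.p (nat_lit 401) (nat_lit 1) (.n (nat_lit 403) (nat_lit 1) .z)))))))))))))))))))))))))))))))))))))) (.ct dC1d_c548 (nat_lit 1) (nat_lit 16) (.s true (nat_lit 1) (nat_lit 105) (nat_lit 1) (nat_lit 0) (nat_lit 0) true (nat_lit 16) true (nat_lit 19) false (nat_lit 12) true (nat_lit 18) true (nat_lit 19) (.e true (nat_lit 1) (nat_lit 183) (nat_lit 3) (nat_lit 16) (.e true (nat_lit 1) (nat_lit 185) (nat_lit 3) (nat_lit 16) dC1d_i62)))) .leaf) (nat_lit 191492) (nat_lit 1379) (.n (nat_lit 426) (nat_lit 1) (.p (nat_lit 427) (nat_lit 1) (.n (nat_lit 429) (nat_lit 1) (.p (nat_lit 430) (nat_lit 2) (.n (nat_lit 431) (nat_lit 2) (.n (nat_lit 432) (nat_lit 3) (.n (nat_lit 433) (nat_lit 1) (.n (nat_lit 434) (nat_lit 1) (.p (nat_lit 435) (nat_lit 1) (.p (nat_lit 436) (nat_lit 1) (.n (nat_lit 437) (nat_lit 3) (.p (nat_lit 438) (nat_lit 3) (.p (nat_lit 439) (nat_lit 1) (.n (nat_lit 440) (nat_lit 3) (.p (nat_lit 442) (nat_lit 2) (.p (nat_lit 443) (nat_lit 2) (.n (nat_lit 444) (nat_lit 1) (.n (nat_lit 445) (nat_lit 2) (.p (nat_lit 447) (nat_lit 3) (.n (nat_lit 448) (nat_lit 1) (.n (nat_lit 449) (nat_lit 3) (.p (nat_lit 450) (nat_lit 3) (.n (nat_lit 452) (nat_lit 2) (.n (nat_lit 453) (nat_lit 3) (.p (nat_lit 454) (nat_lit 1) (.n (nat_lit 455) (nat_lit 1) (.n (nat_lit 456) (nat_lit 1) (.p (nat_lit 457) (nat_lit 3) (.n (nat_lit 459) (nat_lit 2) .z))))))))))))))))))))))))))))) (.ct dC1d_c533 (nat_lit 1) (nat_lit 11) (.s false (nat_lit 1) (nat_lit 103) (nat_lit 2) (nat_lit 0) (nat_lit 0) true (nat_lit 11) true (nat_lit 15) false (nat_lit 7) true (nat_lit 13) true (nat_lit 15) (.e false (nat_lit 1) (nat_lit 180) (nat_lit 4) (nat_lit 11) (.e true (nat_lit 1) (nat_lit 182) (nat_lit 4) (nat_lit 11) (.e true (nat_lit 2) (nat_lit 183) (nat_lit 4) (nat_lit 11) (.e true (nat_lit 1) (nat_lit 185) (nat_lit 4) (nat_lit 11) (.e true (nat_lit 2) (nat_lit 188) (nat_lit 4) (nat_lit 11) dC1d_i63))))))) .leaf)))) (nat_lit 191493) (nat_lit 1435) (.p (nat_lit 460) (nat_lit 1) (.p (nat_lit 461) (nat_lit 3) (.p (nat_lit 462) (nat_lit 2) (.n (nat_lit 463) (nat_lit 2) (.n (nat_lit 464) (nat_lit 1) (.p (nat_lit 465) (nat_lit 3) (.n (nat_lit 466) (nat_lit 3) (.p (nat_lit 467) (nat_lit 3) (.p (nat_lit 468) (nat_lit 1) (.n (nat_lit 470) (nat_lit 2) (.p (nat_lit 471) (nat_lit 2) (.n (nat_lit 472) (nat_lit 3) (.n (nat_lit 475) (nat_lit 1) (.n (nat_lit 476) (nat_lit 3) (.n (nat_lit 477) (nat_lit 2) (.n (nat_lit 478) (nat_lit 3) (.p (nat_lit 479) (nat_lit 1) (.p (nat_lit 480) (nat_lit 3) (.p (nat_lit 481) (nat_lit 1) (.p (nat_lit 482) (nat_lit 3) (.p (nat_lit 483) (nat_lit 1) (.n (nat_lit 486) (nat_lit 2) (.p (nat_lit 487) (nat_lit 1) (.p (nat_lit 489) (nat_lit 3) (.n (nat_lit 490) (nat_lit 1) (.p (nat_lit 491) (nat_lit 1) (.n (nat_lit 492) (nat_lit 3) (.p (nat_lit 493) (nat_lit 1) .z)))))))))))))))))))))))))))) (.ct dC1d_c293 (nat_lit 1) (nat_lit 10) (.s true (nat_lit 1) (nat_lit 6) (nat_lit 3) (nat_lit 6) (nat_lit 5) true (nat_lit 2) true (nat_lit 10) true (nat_lit 9) true (nat_lit 12) true (nat_lit 9) (.s false (nat_lit 3) (nat_lit 10) (nat_lit 1) (nat_lit 6) (nat_lit 6) true (nat_lit 4) true (nat_lit 9) true (nat_lit 7) true (nat_lit 14) true (nat_lit 9) (.s false (nat_lit 2) (nat_lit 11) (nat_lit 1) (nat_lit 6) (nat_lit 6) true (nat_lit 4) true (nat_lit 9) true (nat_lit 7) true (nat_lit 14) true (nat_lit 9) (.s true (nat_lit 2) (nat_lit 10) (nat_lit 2) (nat_lit 5) (nat_lit 6) true (nat_lit 3) true (nat_lit 9) true (nat_lit 7) true (nat_lit 13) true (nat_lit 10) (.s true (nat_lit 3) (nat_lit 11) (nat_lit 2) (nat_lit 5) (nat_lit 6) true (nat_lit 3) true (nat_lit 9) true (nat_lit 7) true (nat_lit 13) true (nat_lit 10) (.s false (nat_lit 3) (nat_lit 10) (nat_lit 6) (nat_lit 6) (nat_lit 1) true (nat_lit 4) true (nat_lit 14) true (nat_lit 7) true (nat_lit 9) true (nat_lit 9) (.s false (nat_lit 3) (nat_lit 11) (nat_lit 6) (nat_lit 6) (nat_lit 1) true (nat_lit 4) true (nat_lit 14) true (nat_lit 7) true (nat_lit 9) true (nat_lit 9) (.s true (nat_lit 3) (nat_lit 14) (nat_lit 1) (nat_lit 6) (nat_lit 5) true (nat_lit 6) true (nat_lit 10) true (nat_lit 5) true (nat_lit 14) true (nat_lit 9) (.s false (nat_lit 3) (nat_lit 14) (nat_lit 2) (nat_lit 2) (nat_lit 13) true (nat_lit 0) true (nat_lit 6) true (nat_lit 5) true (nat_lit 13) true (nat_lit 13) (.s true (nat_lit 3) (nat_lit 16) (nat_lit 0) (nat_lit 2) (nat_lit 16) true (nat_lit 1) true (nat_lit 4) true (nat_lit 4) true (nat_lit 15) true (nat_lit 13) (.s true (nat_lit 2) (nat_lit 16) (nat_lit 0) (nat_lit 16) (nat_lit 2) true (nat_lit 11) true (nat_lit 13) true (nat_lit 4) true (nat_lit 15) true (nat_lit 4) (.s false (nat_lit 3) (nat_lit 17) (nat_lit 2) (nat_lit 2) (nat_lit 10) true (nat_lit 1) true (nat_lit 7) true (nat_lit 4) true (nat_lit 13) true (nat_lit 13) (.s true (nat_lit 2) (nat_lit 16) (nat_lit 2) (nat_lit 3) (nat_lit 6) true (nat_lit 3) true (nat_lit 9) true (nat_lit 4) true (nat_lit 13) true (nat_lit 12) (.s true (nat_lit 3) (nat_lit 16) (nat_lit 2) (nat_lit 14) (nat_lit 1) true (nat_lit 10) true (nat_lit 14) true (nat_lit 4) true (nat_lit 13) true (nat_lit 5) (.s false (nat_lit 2) (nat_lit 16) (nat_lit 3) (nat_lit 6) (nat_lit 2) true (nat_lit 7) true (nat_lit 13) true (nat_lit 4) true (nat_lit 12) true (nat_lit 9) dC1d_i68)))))))))))))))) (.nd (.nd (.nd (.nd (.nd .leaf (nat_lit 192512) (nat_lit 618) (.p (nat_lit 261) (nat_lit 2) (.p (nat_lit 262) (nat_lit 3) (.p (nat_lit 263) (nat_lit 2) (.n (nat_lit 264) (nat_lit 3) (.p (nat_lit 265) (nat_lit 1) (.p (nat_lit 266) (nat_lit 3) (.p (nat_lit 267) (nat_lit 1) (.n (nat_lit 268) (nat_lit 2) (.n (nat_lit 269) (nat_lit 3) (.p (nat_lit 271) (nat_lit 2) (.p (nat_lit 272) (nat_lit 3) (.n (nat_lit 273) (nat_lit 1) (.n (nat_lit 274) (nat_lit 2) (.n (nat_lit 277) (nat_lit 3) (.p (nat_lit 279) (nat_lit 2) (.n (nat_lit 280) (nat_lit 2) (.p (nat_lit 281) (nat_lit 1) (.p (nat_lit 283) (nat_lit 2) (.n (nat_lit 286) (nat_lit 1) (.n (nat_lit 287) (nat_lit 1) (.p (nat_lit 288) (nat_lit 1) (.n (nat_lit 289) (nat_lit 1) .z)))))))))))))))))))))) (.ct dC1d_c532 (nat_lit 1) (nat_lit 12) (.s false (nat_lit 2) (nat_lit 5) (nat_lit 2) (nat_lit 4) (nat_lit 4) true (nat_lit 2) true (nat_lit 8) true (nat_lit 7) true (nat_lit 10) true (nat_lit 8) (.s true (nat_lit 2) (nat_lit 6) (nat_lit 3) (nat_lit 4) (nat_lit 2) true (nat_lit 3) true (nat_lit 10) true (nat_lit 6) true (nat_lit 9) true (nat_lit 8) (.s false (nat_lit 3) (nat_lit 6) (nat_lit 4) (nat_lit 2) (nat_lit 3) false (nat_lit 0) true (nat_lit 9) true (nat_lit 6) true (nat_lit 8) true (nat_lit 10) (.s true (nat_lit 3) (nat_lit 9) (nat_lit 2) (nat_lit 1) (nat_lit 6) true (nat_lit 0) true (nat_lit 6) true (nat_lit 4) true (nat_lit 10) true (nat_lit 11) (.s true (nat_lit 3) (nat_lit 9) (nat_lit 2) (nat_lit 2) (nat_lit 5) true (nat_lit 1) true (nat_lit 7) true (nat_lit 4) true (nat_lit 10) true (nat_lit 10) (.s false (nat_lit 2) (nat_lit 11) (nat_lit 0) (nat_lit 2) (nat_lit 6) true (nat_lit 2) true (nat_lit 6) true (nat_lit 3) true (nat_lit 12) true (nat_lit 10) (.s false (nat_lit 2) (nat_lit 10) (nat_lit 2) (nat_lit 0) (nat_lit 6) true (nat_lit 0) true (nat_lit 6) true (nat_lit 3) true (nat_lit 10) true (nat_lit 12) (.s true (nat_lit 3) (nat_lit 10) (nat_lit 2) (nat_lit 6) (nat_lit 0) true (nat_lit 8) true (nat_lit 12) true (nat_lit 3) true (nat_lit 10) true (nat_lit 6) (.s true (nat_lit 1) (nat_lit 11) (nat_lit 2) (nat_lit 6) (nat_lit 0) true (nat_lit 8) true (nat_lit 12) true (nat_lit 3) true (nat_lit 10) true (nat_lit 6) (.s true (nat_lit 1) (nat_lit 12) (nat_lit 2) (nat_lit 6) (nat_lit 0) true (nat_lit 8) true (nat_lit 12) true (nat_lit 3) true (nat_lit 10) true (nat_lit 6) dC1d_i71))))))))))) .leaf) (nat_lit 192513) (nat_lit 719) (.n (nat_lit 291) (nat_lit 1) (.n (nat_lit 294) (nat_lit 1) (.p (nat_lit 299) (nat_lit 1) (.p (nat_lit 301) (nat_lit 1) (.p (nat_lit 311) (nat_lit 1) (.p (nat_lit 317) (nat_lit 1) (.p (nat_lit 319) (nat_lit 1) .z))))))) (.ct dC1d_c292 (nat_lit 1) (nat_lit 11) (.s false (nat_lit 1) (nat_lit 10) (nat_lit 1) (nat_lit 2) (nat_lit 6) true (nat_lit 1) true (nat_lit 6) true (nat_lit 4) true (nat_lit 11) true (nat_lit 10) (.s true (nat_lit 1) (nat_lit 10) (nat_lit 2) (nat_lit 2) (nat_lit 5) true (nat_lit 1) true (nat_lit 7) true (nat_lit 4) true (nat_lit 10) true (nat_lit 10) (.s false (nat_lit 1) (nat_lit 31) (nat_lit 1) (nat_lit 2) (nat_lit 2) true (nat_lit 7) true (nat_lit 10) false (nat_lit 1) true (nat_lit 11) true (nat_lit 10) (.e false (nat_lit 1) (nat_lit 31) (nat_lit 17) (nat_lit 1) (.e false (nat_lit 1) (nat_lit 67) (nat_lit 6) (nat_lit 6) (.e true (nat_lit 1) (nat_lit 167) (nat_lit 2) (nat_lit 10) (.e false (nat_lit 2) (nat_lit 157) (nat_lit 2) (nat_lit 10) (.e false (nat_lit 2) (nat_lit 164) (nat_lit 2) (nat_lit 10) (.e true (nat_lit 1) (nat_lit 171) (nat_lit 2) (nat_lit 10) .nil)))))))))) .leaf) (nat_lit 192514) (nat_lit 829) (.p (nat_lit 336) (nat_lit 1) .z) .df (.nd (.nd .leaf (nat_lit 192515) (nat_lit 1154) (.n (nat_lit 355) (nat_lit 3) (.n (nat_lit 356) (nat_lit 1) (.n (nat_lit 357) (nat_lit 2) (.n (nat_lit 358) (nat_lit 2) (.n (nat_lit 359) (nat_lit 3) (.p (nat_lit 361) (nat_lit 2) (.n (nat_lit 362) (nat_lit 2) (.n (nat_lit 363) (nat_lit 2) (.n (nat_lit 364) (nat_lit 1) (.p (nat_lit 365) (nat_lit 3) (.n (nat_lit 366) (nat_lit 2) (.p (nat_lit 367) (nat_lit 1) (.p (nat_lit 369) (nat_lit 3) (.p (nat_lit 370) (nat_lit 3) (.n (nat_lit 372) (nat_lit 2) (.p (nat_lit 373) (nat_lit 2) (.p (nat_lit 374) (nat_lit 2) (.n (nat_lit 375) (nat_lit 2) (.p (nat_lit 376) (nat_lit 2) (.n (nat_lit 381) (nat_lit 2) (.n (nat_lit 382) (nat_lit 2) (.p (nat_lit 383) (nat_lit 2) (.n (nat_lit 384) (nat_lit 1) (.p (nat_lit 385) (nat_lit 1) (.p (nat_lit 386) (nat_lit 2) (.p (nat_lit 387) (nat_lit 1) (.p (nat_lit 388) (nat_lit 2) (.n (nat_lit 390) (nat_lit 3) (.p (nat_lit 392) (nat_lit 2) (.n (nat_lit 393) (nat_lit 2) (.n (nat_lit 395) (nat_lit 1) (.n (nat_lit 396) (nat_lit 3) (.n (nat_lit 401) (nat_lit 2) .z))))))))))))))))))))))))))))))))) (.ct dC1d_c548 (nat_lit 1) (nat_lit 16) (.s false (nat_lit 1) (nat_lit 90) (nat_lit 1) (nat_lit 2) (nat_lit 0) true (nat_lit 16) true (nat_lit 19) false (nat_lit 9) true (nat_lit 18) true (nat_lit 17) (.e false (nat_lit 1) (nat_lit 304) (nat_lit 0) (nat_lit 19) (.e false (nat_lit 1) (nat_lit 90) (nat_lit 12) (nat_lit 9) (.e false (nat_lit 2) (nat_lit 260) (nat_lit 1) (nat_lit 18) (.e false (nat_lit 2) (nat_lit 261) (nat_lit 1) (nat_lit 18) dC1d_i73)))))) .leaf) (nat_lit 192516) (nat_lit 1348) (.p (nat_lit 427) (nat_lit 3) (.p (nat_lit 428) (nat_lit 1) (.p (nat_lit 429) (nat_lit 3) (.n (nat_lit 430) (nat_lit 1) (.n (nat_lit 431) (nat_lit 3) (.p (nat_lit 432) (nat_lit 2) (.p (nat_lit 433) (nat_lit 2) (.n (nat_lit 434) (nat_lit 3) (.p (nat_lit 436) (nat_lit 3) (.p (nat_lit 439) (nat_lit 1) (.n (nat_lit 440) (nat_lit 2) (.n (nat_lit 441) (nat_lit 3) (.p (nat_lit 442) (nat_lit 2) (.p (nat_lit 443) (nat_lit 2) (.n (nat_lit 444) (nat_lit 1) (.p (nat_lit 446) (nat_lit 1) (.n (nat_lit 448) (nat_lit 2) (.p (nat_lit 451) (nat_lit 3) (.n (nat_lit 454) (nat_lit 3) (.n (nat_lit 456) (nat_lit 1) (.p (nat_lit 459) (nat_lit 1) .z))))))))))))))))))))) (.ct dC1d_c533 (nat_lit 1) (nat_lit 11) (.s false (nat_lit 1) (nat_lit 18) (nat_lit 2) (nat_lit 10) (nat_lit 0) true (nat_lit 11) true (nat_lit 15) true (nat_lit 3) true (nat_lit 13) true (nat_lit 6) (.e false (nat_lit 1) (nat_lit 192) (nat_lit 4) (nat_lit 11) (.e true (nat_lit 3) (nat_lit 328) (nat_lit 0) (nat_lit 15) (.e false (nat_lit 2) (nat_lit 329) (nat_lit 0) (nat_lit 15) (.e true (nat_lit 2) (nat_lit 330) (nat_lit 0) (nat_lit 15) (.e true (nat_lit 1) (nat_lit 331) (nat_lit 0) (nat_lit 15) (.e false (nat_lit 2) (nat_lit 332) (nat_lit 0) (nat_lit 15) (.e false (nat_lit 3) (nat_lit 333) (nat_lit 0) (nat_lit 15) (.e false (nat_lit 1) (nat_lit 334) (nat_lit 0) (nat_lit 15) (.e false (nat_lit 1) (nat_lit 335) (nat_lit 0) (nat_lit 15) (.e true (nat_lit 1) (nat_lit 336) (nat_lit 0) (nat_lit 15) (.e true (nat_lit 2) (nat_lit 337) (nat_lit 0) (nat_lit 15) (.e true (nat_lit 1) (nat_lit 340) (nat_lit 0) (nat_lit 15) (.e false (nat_lit 1) (nat_lit 344) (nat_lit 0) (nat_lit 15) (.e true (nat_lit 1) (nat_lit 345) (nat_lit 0) (nat_lit 15) (.e false (nat_lit 1) (nat_lit 62) (nat_lit 18) (nat_lit 3) (.e true (nat_lit 1) (nat_lit 279) (nat_lit 2) (nat_lit 13) (.e false (nat_lit 1) (nat_lit 288) (nat_lit 2) (nat_lit 13) (.e true (nat_lit 1) (nat_lit 100) (nat_lit 10) (nat_lit 6) (.u (nat_lit 2) (.n (nat_lit 0) (nat_lit 1) (.n (nat_lit 2) (nat_lit 1) (.n (nat_lit 3) (nat_lit 2) (.p (nat_lit 5) (nat_lit 2) (.n (nat_lit 6) (nat_lit 1) (.n (nat_lit 7) (nat_lit 1) (.p (nat_lit 8) (nat_lit 2) (.p (nat_lit 12) (nat_lit 1) (.p (nat_lit 13) (nat_lit 1) (.n (nat_lit 16) (nat_lit 1) (.n (nat_lit 17) (nat_lit 1) (.n (nat_lit 19) (nat_lit 1) (.n (nat_lit 33) (nat_lit 1) .z))))))))))))) .nil))))))))))))))))))))) .leaf)) (nat_lit 192517) (nat_lit 1470) (.n (nat_lit 461) (nat_lit 2) (.p (nat_lit 464) (nat_lit 3) (.p (nat_lit 465) (nat_lit 2) (.n (nat_lit 466) (nat_lit 1) (.p (nat_lit 467) (nat_lit 1) (.p (nat_lit 468) (nat_lit 2) (.p (nat_lit 469) (nat_lit 1) (.p (nat_lit 470) (nat_lit 2) (.n (nat_lit 471) (nat_lit 2) (.n (nat_lit 472) (nat_lit 3) (.n (nat_lit 473) (nat_lit 2) (.p (nat_lit 474) (nat_lit 2) (.n (nat_lit 477) (nat_lit 2) (.n (nat_lit 478) (nat_lit 2) (.n (nat_lit 479) (nat_lit 3) (.p (nat_lit 480) (nat_lit 2) (.n (nat_lit 481) (nat_lit 2) (.p (nat_lit 483) (nat_lit 3) (.n (nat_lit 486) (nat_lit 3) (.n (nat_lit 489) (nat_lit 1) (.p (nat_lit 493) (nat_lit 1) .z))))))))))))))))))))) (.ct dC1d_c293 (nat_lit 1) (nat_lit 10) (.s true (nat_lit 1) (nat_lit 10) (nat_lit 5) (nat_lit 2) (nat_lit 6) false (nat_lit 1) true (nat_lit 9) true (nat_lit 7) true (nat_lit 10) true (nat_lit 13) (.s true (nat_lit 2) (nat_lit 17) (nat_lit 10) (nat_lit 2) (nat_lit 2) true (nat_lit 1) true (nat_lit 13) true (nat_lit 4) true (nat_lit 7) true (nat_lit 13) (.s false (nat_lit 1) (nat_lit 31) (nat_lit 2) (nat_lit 5) (nat_lit 2) true (nat_lit 9) true (nat_lit 13) true (nat_lit 1) true (nat_lit 13) true (nat_lit 10) (.s false (nat_lit 1) (nat_lit 44) (nat_lit 2) (nat_lit 3) (nat_lit 2) true (nat_lit 9) true (nat_lit 13) false (nat_lit 1) true (nat_lit 13) true (nat_lit 12) (.s false (nat_lit 1) (nat_lit 45) (nat_lit 2) (nat_lit 3) (nat_lit 2) true (nat_lit 9) true (nat_lit 13) false (nat_lit 1) true (nat_lit 13) true (nat_lit 12) (.s true (nat_lit 3) (nat_lit 44) (nat_lit 3) (nat_lit 2) (nat_lit 2) true (nat_lit 7) true (nat_lit 13) false (nat_lit 1) true (nat_lit 12) true (nat_lit 13) (.s true (nat_lit 3) (nat_lit 45) (nat_lit 3) (nat_lit 2) (nat_lit 2) true (nat_lit 7) true (nat_lit 13) false (nat_lit 1) true (nat_lit 12) true (nat_lit 13) dC1d_i74)))))))) (.nd (.nd (.nd .leaf (nat_lit 193536) (nat_lit 613) (.p (nat_lit 260) (nat_lit 3) (.p (nat_lit 261) (nat_lit 1) (.n (nat_lit 262) (nat_lit 2) (.p (nat_lit 263) (nat_lit 3) (.n (nat_lit 264) (nat_lit 2) (.p (nat_lit 265) (nat_lit 1) (.p (nat_lit 266) (nat_lit 2) (.p (nat_lit 267) (nat_lit 3) (.n (nat_lit 268) (nat_lit 2) (.n (nat_lit 269) (nat_lit 2) (.p (nat_lit 270) (nat_lit 1) (.n (nat_lit 271) (nat_lit 2) (.p (nat_lit 273) (nat_lit 2) (.n (nat_lit 274) (nat_lit 1) (.n (nat_lit 277) (nat_lit 2) (.n (nat_lit 278) (nat_lit 1) (.n (nat_lit 279) (nat_lit 3) (.n (nat_lit 280) (nat_lit 1) (.p (nat_lit 284) (nat_lit 2) (.p (nat_lit 286) (nat_lit 1) (.n (nat_lit 288) (nat_lit 1) .z))))))))))))))))))))) (.ct dC1d_c532 (nat_lit 1) (nat_lit 12) (.s false (nat_lit 1) (nat_lit 11) (nat_lit 2) (nat_lit 0) (nat_lit 6) true (nat_lit 0) true (nat_lit 6) true (nat_lit 3) true (nat_lit 10) true (nat_lit 12) (.s false (nat_lit 1) (nat_lit 11) (nat_lit 2) (nat_lit 2) (nat_lit 4) true (nat_lit 2) true (nat_lit 8) true (nat_lit 3) true (nat_lit 10) true (nat_lit 10) (.s false (nat_lit 1) (nat_lit 32) (nat_lit 2) (nat_lit 0) (nat_lit 2) true (nat_lit 6) true (nat_lit 10) false (nat_lit 2) true (nat_lit 10) true (nat_lit 12) (.e false (nat_lit 1) (nat_lit 20) (nat_lit 18) (nat_lit 0) (.e false (nat_lit 1) (nat_lit 21) (nat_lit 18) (nat_lit 0) (.e true (nat_lit 1) (nat_lit 22) (nat_lit 18) (nat_lit 0) (.e true (nat_lit 2) (nat_lit 133) (nat_lit 2) (nat_lit 10) (.e false (nat_lit 3) (nat_lit 134) (nat_lit 2) (nat_lit 10) (.e false (nat_lit 1) (nat_lit 135) (nat_lit 2) (nat_lit 10) (.e false (nat_lit 3) (nat_lit 136) (nat_lit 2) (nat_lit 10) (.e true (nat_lit 3) (nat_lit 137) (nat_lit 2) (nat_lit 10) (.e false (nat_lit 3) (nat_lit 138) (nat_lit 2) (nat_lit 10) (.e false (nat_lit 1) (nat_lit 139) (nat_lit 2) (nat_lit 10) (.e true (nat_lit 1) (nat_lit 140) (nat_lit 2) (nat_lit 10) (.e true (nat_lit 3) (nat_lit 141) (nat_lit 2) (nat_lit 10) (.e false (nat_lit 2) (nat_lit 142) (nat_lit 2) (nat_lit 10) (.e false (nat_lit 1) (nat_lit 148) (nat_lit 2) (nat_lit 10) (.e false (nat_lit 1) (nat_lit 149) (nat_lit 2) (nat_lit 10) (.e false (nat_lit 1) (nat_lit 150) (nat_lit 2) (nat_lit 10) (.e false (nat_lit 1) (nat_lit 83) (nat_lit 4) (nat_lit 8) (.e true (nat_lit 1) (nat_lit 151) (nat_lit 2) (nat_lit 10) (.e false (nat_lit 1) (nat_lit 181) (nat_lit 0) (nat_lit 12) (.u (nat_lit 2) (.p (nat_lit 2) (nat_lit 1) (.p (nat_lit 4) (nat_lit 1) (.n (nat_lit 5) (nat_lit 1) (.n (nat_lit 99) (nat_lit 1) (.p (nat_lit 101) (nat_lit 1) .z))))) .nil)))))))))))))))))))))))) .leaf) (nat_lit 193537) (nat_lit 744) (.n (nat_lit 290) (nat_lit 1) (.n (nat_lit 291) (nat_lit 2) (.n (nat_lit 292) (nat_lit 1) (.n (nat_lit 293) (nat_lit 3) (.p (nat_lit 294) (nat_lit 2) (.n (nat_lit 295) (nat_lit 3) (.n (nat_lit 296) (nat_lit 3) (.p (nat_lit 297) (nat_lit 3) (.p (nat_lit 299) (nat_lit 3) (.p (nat_lit 300) (nat_lit 2) (.n (nat_lit 301) (nat_lit 3) (.p (nat_lit 302) (nat_lit 3) (.p (nat_lit 304) (nat_lit 2) (.p (nat_lit 305) (nat_lit 2) (.n (nat_lit 308) (nat_lit 3) (.n (nat_lit 310) (nat_lit 1) (.p (nat_lit 311) (nat_lit 1) (.p (nat_lit 312) (nat_lit 2) (.n (nat_lit 317) (nat_lit 1) (.n (nat_lit 319) (nat_lit 1) .z)))))))))))))))))))) (.ct dC1d_c292 (nat_lit 1) (nat_lit 11) (.s false (nat_lit 1) (nat_lit 12) (nat_lit 1) (nat_lit 2) (nat_lit 6) true (nat_lit 1) true (nat_lit 6) true (nat_lit 4) true (nat_lit 11) true (nat_lit 10) (.s true (nat_lit 1) (nat_lit 11) (nat_lit 2) (nat_lit 1) (nat_lit 6) true (nat_lit 0) true (nat_lit 6) true (nat_lit 4) true (nat_lit 10) true (nat_lit 11) (.s false (nat_lit 1) (nat_lit 12) (nat_lit 2) (nat_lit 1) (nat_lit 6) true (nat_lit 0) true (nat_lit 6) true (nat_lit 4) true (nat_lit 10) true (nat_lit 11) (.s true (nat_lit 1) (nat_lit 11) (nat_lit 2) (nat_lit 2) (nat_lit 5) true (nat_lit 1) true (nat_lit 7) true (nat_lit 4) true (nat_lit 10) true (nat_lit 10) (.s false (nat_lit 1) (nat_lit 32) (nat_lit 1) (nat_lit 2) (nat_lit 2) true (nat_lit 7) true (nat_lit 10) false (nat_lit 1) true (nat_lit 11) true (nat_lit 10) (.s false (nat_lit 1) (nat_lit 46) (nat_lit 0) (nat_lit 1) (nat_lit 1) true (nat_lit 9) true (nat_lit 11) false (nat_lit 5) true (nat_lit 12) true (nat_lit 11) (.e false (nat_lit 1) (nat_lit 33) (nat_lit 17) (nat_lit 1) (.e false (nat_lit 1) (nat_lit 69) (nat_lit 6) (nat_lit 6) (.e false (nat_lit 2) (nat_lit 154) (nat_lit 2) (nat_lit 10) (.e false (nat_lit 1) (nat_lit 155) (nat_lit 2) (nat_lit 10) (.e true (nat_lit 1) (nat_lit 156) (nat_lit 2) (nat_lit 10) (.e true (nat_lit 1) (nat_lit 157) (nat_lit 2) (nat_lit 10) (.e false (nat_lit 2) (nat_lit 159) (nat_lit 2) (nat_lit 10) (.e true (nat_lit 2) (nat_lit 160) (nat_lit 2) (nat_lit 10) dC1d_i75))))))))))))))) .leaf) (nat_lit 193538) (nat_lit 830) (.p (nat_lit 337) (nat_lit 1) .z) .df (.nd (.nd .leaf (nat_lit 193539) (nat_lit 1195) (.p (nat_lit 355) (nat_lit 2) (.n (nat_lit 356) (nat_lit 3) (.n (nat_lit 357) (nat_lit 3) (.p (nat_lit 358) (nat_lit 3) (.n (nat_lit 359) (nat_lit 1) (.n (nat_lit 360) (nat_lit 3) (.n (nat_lit 361) (nat_lit 3) (.p (nat_lit 362) (nat_lit 3) (.n (nat_lit 363) (nat_lit 2) (.n (nat_lit 364) (nat_lit 2) (.p (nat_lit 365) (nat_lit 2) (.p (nat_lit 366) (nat_lit 3) (.p (nat_lit 367) (nat_lit 2) (.n (nat_lit 370) (nat_lit 1) (.n (nat_lit 372) (nat_lit 2) (.n (nat_lit 374) (nat_lit 2) (.p (nat_lit 375) (nat_lit 2) (.p (nat_lit 377) (nat_lit 2) (.p (nat_lit 381) (nat_lit 3) (.p (nat_lit 382) (nat_lit 2) (.p (nat_lit 383) (nat_lit 2) (.p (nat_lit 384) (nat_lit 2) (.n (nat_lit 385) (nat_lit 3) (.n (nat_lit 386) (nat_lit 3) (.n (nat_lit 387) (nat_lit 2) (.p (nat_lit 388) (nat_lit 3) (.n (nat_lit 389) (nat_lit 1) (.p (nat_lit 390) (nat_lit 1) (.p (nat_lit 391) (nat_lit 3) (.n (nat_lit 392) (nat_lit 3) (.p (nat_lit 394) (nat_lit 1) (.p (nat_lit 395) (nat_lit 3) (.n (nat_lit 402) (nat_lit 2) .z))))))))))))))))))))))))))))))))) (.ct dC1d_c548 (nat_lit 1) (nat_lit 16) (.s true (nat_lit 1) (nat_lit 91) (nat_lit 0) (nat_lit 2) (nat_lit 1) true (nat_lit 16) true (nat_lit 18) false (nat_lit 9) true (nat_lit 19) true (nat_lit 17) (.e false (nat_lit 3) (nat_lit 260) (nat_lit 1) (nat_lit 18) (.e false (nat_lit 2) (nat_lit 261) (nat_lit 1) (nat_lit 18) (.e true (nat_lit 2) (nat_lit 262) (nat_lit 1) (nat_lit 18) (.e true (nat_lit 2) (nat_lit 263) (nat_lit 1) (nat_lit 18) (.e false (nat_lit 3) (nat_lit 264) (nat_lit 1) (nat_lit 18) (.e true (nat_lit 3) (nat_lit 266) (nat_lit 1) (nat_lit 18) (.e true (nat_lit 1) (nat_lit 267) (nat_lit 1) (nat_lit 18) (.e false (nat_lit 3) (nat_lit 269) (nat_lit 1) (nat_lit 18) (.e false (nat_lit 3) (nat_lit 270) (nat_lit 1) (nat_lit 18) (.e true (nat_lit 2) (nat_lit 272) (nat_lit 1) (nat_lit 18) (.e true (nat_lit 1) (nat_lit 273) (nat_lit 1) (nat_lit 18) (.e false (nat_lit 1) (nat_lit 274) (nat_lit 1) (nat_lit 18) (.e true (nat_lit 2) (nat_lit 276) (nat_lit 1) (nat_lit 18) (.e true (nat_lit 3) (nat_lit 277) (nat_lit 1) (nat_lit 18) (.e true (nat_lit 1) (nat_lit 279) (nat_lit 1) (nat_lit 18) dC1d_i76))))))))))))))))) .leaf) (nat_lit 193540) (nat_lit 1261) (.p (nat_lit 426) (nat_lit 2) (.p (nat_lit 427) (nat_lit 3) (.n (nat_lit 428) (nat_lit 2) (.n (nat_lit 429) (nat_lit 2) (.p (nat_lit 430) (nat_lit 3) (.n (nat_lit 431) (nat_lit 1) (.n (nat_lit 432) (nat_lit 3) (.n (nat_lit 433) (nat_lit 3) (.n (nat_lit 435) (nat_lit 2) (.n (nat_lit 436) (nat_lit 3) (.p (nat_lit 441) (nat_lit 3) (.p (nat_lit 442) (nat_lit 1) (.n (nat_lit 443) (nat_lit 3) (.p (nat_lit 444) (nat_lit 1) (.p (nat_lit 445) (nat_lit 1) (.p (nat_lit 456) (nat_lit 1) (.n (nat_lit 458) (nat_lit 2) (.p (nat_lit 459) (nat_lit 3) .z)))))))))))))))))) (.ct dC1d_c533 (nat_lit 1) (nat_lit 11) (.s true (nat_lit 2) (nat_lit 9) (nat_lit 5) (nat_lit 6) (nat_lit 2) true (nat_lit 4) true (nat_lit 13) true (nat_lit 7) true (nat_lit 10) true (nat_lit 9) (.s false (nat_lit 2) (nat_lit 9) (nat_lit 6) (nat_lit 1) (nat_lit 6) false (nat_lit 2) true (nat_lit 9) true (nat_lit 7) true (nat_lit 9) true (nat_lit 14) (.s true (nat_lit 3) (nat_lit 10) (nat_lit 6) (nat_lit 4) (nat_lit 2) true (nat_lit 3) true (nat_lit 13) true (nat_lit 6) true (nat_lit 9) true (nat_lit 11) (.s false (nat_lit 3) (nat_lit 14) (nat_lit 1) (nat_lit 2) (nat_lit 14) true (nat_lit 0) true (nat_lit 5) true (nat_lit 5) true (nat_lit 14) true (nat_lit 13) (.s true (nat_lit 3) (nat_lit 14) (nat_lit 1) (nat_lit 14) (nat_lit 2) true (nat_lit 10) true (nat_lit 13) true (nat_lit 5) true (nat_lit 14) true (nat_lit 5) (.s false (nat_lit 1) (nat_lit 15) (nat_lit 2) (nat_lit 2) (nat_lit 10) true (nat_lit 0) true (nat_lit 6) true (nat_lit 5) true (nat_lit 13) true (nat_lit 13) (.s false (nat_lit 1) (nat_lit 15) (nat_lit 2) (nat_lit 2) (nat_lit 11) true (nat_lit 0) true (nat_lit 6) true (nat_lit 5) true (nat_lit 13) true (nat_lit 13) (.s false (nat_lit 3) (nat_lit 14) (nat_lit 5) (nat_lit 2) (nat_lit 4) true (nat_lit 0) true (nat_lit 11) true (nat_lit 5) true (nat_lit 10) true (nat_lit 13) (.s false (nat_lit 1) (nat_lit 14) (nat_lit 10) (nat_lit 2) (nat_lit 2) true (nat_lit 0) true (nat_lit 13) true (nat_lit 5) true (nat_lit 6) true (nat_lit 13) (.s true (nat_lit 1) (nat_lit 14) (nat_lit 11) (nat_lit 2) (nat_lit 2) true (nat_lit 0) true (nat_lit 13) true (nat_lit 5) true (nat_lit 6) true (nat_lit 13) (.s false (nat_lit 3) (nat_lit 15) (nat_lit 10) (nat_lit 2) (nat_lit 2) true (nat_lit 0) true (nat_lit 13) true (nat_lit 5) true (nat_lit 6) true (nat_lit 13) (.s true (nat_lit 1) (nat_lit 16) (nat_lit 2) (nat_lit 2) (nat_lit 9) true (nat_lit 1) true (nat_lit 7) true (nat_lit 4) true (nat_lit 13) true (nat_lit 13) (.s true (nat_lit 2) (nat_lit 16) (nat_lit 9) (nat_lit 2) (nat_lit 2) true (nat_lit 1) true (nat_lit 13) true (nat_lit 4) true (nat_lit 7) true (nat_lit 13) (.s false (nat_lit 2) (nat_lit 18) (nat_lit 0) (nat_lit 11) (nat_lit 2) true (nat_lit 11) true (nat_lit 13) true (nat_lit 3) true (nat_lit 15) true (nat_lit 6) dC1d_i81))))))))))))))) .leaf))) (nat_lit 193541) (nat_lit 1451) (.p (nat_lit 460) (nat_lit 1) (.n (nat_lit 461) (nat_lit 3) (.n (nat_lit 462) (nat_lit 2) (.n (nat_lit 463) (nat_lit 2) (.p (nat_lit 464) (nat_lit 2) (.p (nat_lit 465) (nat_lit 3) (.n (nat_lit 467) (nat_lit 3) (.p (nat_lit 468) (nat_lit 3) (.p (nat_lit 470) (nat_lit 3) (.p (nat_lit 471) (nat_lit 3) (.p (nat_lit 472) (nat_lit 1) (.n (nat_lit 473) (nat_lit 3) (.n (nat_lit 474) (nat_lit 3) (.p (nat_lit 475) (nat_lit 2) (.p (nat_lit 476) (nat_lit 2) (.n (nat_lit 477) (nat_lit 2) (.p (nat_lit 479) (nat_lit 1) (.n (nat_lit 489) (nat_lit 1) (.n (nat_lit 490) (nat_lit 2) (.n (nat_lit 493) (nat_lit 3) .z)))))))))))))))))))) (.ct dC1d_c293 (nat_lit 1) (nat_lit 10) (.s false (nat_lit 3) (nat_lit 6) (nat_lit 5) (nat_lit 5) (nat_lit 4) true (nat_lit 1) true (nat_lit 11) true (nat_lit 9) true (nat_lit 10) true (nat_lit 10) (.s true (nat_lit 1) (nat_lit 10) (nat_lit 1) (nat_lit 6) (nat_lit 6) true (nat_lit 4) true (nat_lit 9) true (nat_lit 7) true (nat_lit 14) true (nat_lit 9) (.s true (nat_lit 2) (nat_lit 11) (nat_lit 1) (nat_lit 6) (nat_lit 6) true (nat_lit 4) true (nat_lit 9) true (nat_lit 7) true (nat_lit 14) true (nat_lit 9) (.s true (nat_lit 3) (nat_lit 12) (nat_lit 5) (nat_lit 2) (nat_lit 6) false (nat_lit 1) true (nat_lit 9) true (nat_lit 7) true (nat_lit 10) true (nat_lit 13) (.s true (nat_lit 2) (nat_lit 10) (nat_lit 6) (nat_lit 6) (nat_lit 1) true (nat_lit 4) true (nat_lit 14) true (nat_lit 7) true (nat_lit 9) true (nat_lit 9) (.s true (nat_lit 2) (nat_lit 11) (nat_lit 6) (nat_lit 6) (nat_lit 1) true (nat_lit 4) true (nat_lit 14) true (nat_lit 7) true (nat_lit 9) true (nat_lit 9) (.s false (nat_lit 3) (nat_lit 16) (nat_lit 0) (nat_lit 2) (nat_lit 16) true (nat_lit 1) true (nat_lit 4) true (nat_lit 4) true (nat_lit 15) true (nat_lit 13) (.s true (nat_lit 1) (nat_lit 16) (nat_lit 0) (nat_lit 16) (nat_lit 2) true (nat_lit 11) true (nat_lit 13) true (nat_lit 4) true (nat_lit 15) true (nat_lit 4) (.s false (nat_lit 3) (nat_lit 17) (nat_lit 1) (nat_lit 2) (nat_lit 14) true (nat_lit 1) true (nat_lit 5) true (nat_lit 4) true (nat_lit 14) true (nat_lit 13) (.s true (nat_lit 2) (nat_lit 16) (nat_lit 2) (nat_lit 2) (nat_lit 10) true (nat_lit 1) true (nat_lit 7) true (nat_lit 4) true (nat_lit 13) true (nat_lit 13) (.s true (nat_lit 2) (nat_lit 16) (nat_lit 2) (nat_lit 2) (nat_lit 11) true (nat_lit 1) true (nat_lit 7) true (nat_lit 4) true (nat_lit 13) true (nat_lit 13) (.s false (nat_lit 3) (nat_lit 17) (nat_lit 2) (nat_lit 2) (nat_lit 10) true (nat_lit 1) true (nat_lit 7) true (nat_lit 4) true (nat_lit 13) true (nat_lit 13) (.s false (nat_lit 3) (nat_lit 17) (nat_lit 2) (nat_lit 2) (nat_lit 11) true (nat_lit 1) true (nat_lit 7) true (nat_lit 4) true (nat_lit 13) true (nat_lit 13) (.s false (nat_lit 3) (nat_lit 16) (nat_lit 2) (nat_lit 10) (nat_lit 2) true (nat_lit 9) true (nat_lit 13) true (nat_lit 4) true (nat_lit 13) true (nat_lit 7) (.s false (nat_lit 3) (nat_lit 16) (nat_lit 2) (nat_lit 11) (nat_lit 2) true (nat_lit 9) true (nat_lit 13) true (nat_lit 4) true (nat_lit 13) true (nat_lit 7) (.s true (nat_lit 2) (nat_lit 17) (nat_lit 2) (nat_lit 10) (nat_lit 2) true (nat_lit 9) true (nat_lit 13) true (nat_lit 4) true (nat_lit 13) true (nat_lit 7) (.s true (nat_lit 3) (nat_lit 17) (nat_lit 2) (nat_lit 11) (nat_lit 2) true (nat_lit 9) true (nat_lit 13) true (nat_lit 4) true (nat_lit 13) true (nat_lit 7) (.s true (nat_lit 3) (nat_lit 17) (nat_lit 2) (nat_lit 14) (nat_lit 1) true (nat_lit 10) true (nat_lit 14) true (nat_lit 4) true (nat_lit 13) true (nat_lit 5) (.s true (nat_lit 3) (nat_lit 16) (nat_lit 12) (nat_lit 2) (nat_lit 2) true (nat_lit 1) true (nat_lit 13) true (nat_lit 4) true (nat_lit 7) true (nat_lit 13) (.s true (nat_lit 2) (nat_lit 17) (nat_lit 11) (nat_lit 2) (nat_lit 2) true (nat_lit 1) true (nat_lit 13) true (nat_lit 4) true (nat_lit 7) true (nat_lit 13) (.s false (nat_lit 2) (nat_lit 16) (nat_lit 14) (nat_lit 2) (nat_lit 1) true (nat_lit 1) true (nat_lit 14) true (nat_lit 4) true (nat_lit 5) true (nat_lit 13) (.s false (nat_lit 2) (nat_lit 18) (nat_lit 1) (nat_lit 1) (nat_lit 15) true (nat_lit 1) true (nat_lit 5) true (nat_lit 3) true (nat_lit 14) true (nat_lit 14) (.s true (nat_lit 3) (nat_lit 18) (nat_lit 1) (nat_lit 2) (nat_lit 10) true (nat_lit 2) true (nat_lit 7) true (nat_lit 3) true (nat_lit 14) true (nat_lit 13) (.s true (nat_lit 2) (nat_lit 18) (nat_lit 1) (nat_lit 3) (nat_lit 6) true (nat_lit 4) true (nat_lit 9) true (nat_lit 3) true (nat_lit 14) true (nat_lit 12) dC1d_i86))))))))))))))))))))))))) (.nd (.nd (.nd (.nd .leaf (nat_lit 194560) (nat_lit 633) (.n (nat_lit 260) (nat_lit 3) (.p (nat_lit 261) (nat_lit 1) (.n (nat_lit 262) (nat_lit 2) (.p (nat_lit 263) (nat_lit 3) (.p (nat_lit 265) (nat_lit 3) (.p (nat_lit 266) (nat_lit 3) (.n (nat_lit 267) (nat_lit 2) (.n (nat_lit 269) (nat_lit 1) (.p (nat_lit 270) (nat_lit 3) (.p (nat_lit 271) (nat_lit 3) (.n (nat_lit 272) (nat_lit 3) (.n (nat_lit 273) (nat_lit 1) (.p (nat_lit 274) (nat_lit 3) (.n (nat_lit 277) (nat_lit 3) (.n (nat_lit 278) (nat_lit 3) (.n (nat_lit 281) (nat_lit 1) (.n (nat_lit 283) (nat_lit 2) (.p (nat_lit 284) (nat_lit 2) (.p (nat_lit 286) (nat_lit 1) (.p (nat_lit 287) (nat_lit 1) (.n (nat_lit 288) (nat_lit 3) (.p (nat_lit 289) (nat_lit 1) .z)))))))))))))))))))))) (.ct dC1d_c532 (nat_lit 1) (nat_lit 12) (.s false (nat_lit 1) (nat_lit 9) (nat_lit 2) (nat_lit 1) (nat_lit 6) true (nat_lit 0) true (nat_lit 6) true (nat_lit 4) true (nat_lit 10) true (nat_lit 11) (.s false (nat_lit 1) (nat_lit 9) (nat_lit 2) (nat_lit 2) (nat_lit 5) true (nat_lit 1) true (nat_lit 7) true (nat_lit 4) true (nat_lit 10) true (nat_lit 10) (.s false (nat_lit 1) (nat_lit 9) (nat_lit 2) (nat_lit 5) (nat_lit 2) true (nat_lit 6) true (nat_lit 10) true (nat_lit 4) true (nat_lit 10) true (nat_lit 7) (.s false (nat_lit 1) (nat_lit 9) (nat_lit 6) (nat_lit 2) (nat_lit 1) true (nat_lit 1) true (nat_lit 11) true (nat_lit 4) true (nat_lit 6) true (nat_lit 10) (.s false (nat_lit 1) (nat_lit 28) (nat_lit 2) (nat_lit 1) (nat_lit 2) true (nat_lit 6) true (nat_lit 10) false (nat_lit 1) true (nat_lit 10) true (nat_lit 11) (.s false (nat_lit 1) (nat_lit 43) (nat_lit 0) (nat_lit 2) (nat_lit 0) false (nat_lit 13) true (nat_lit 12) false (nat_lit 4) true (nat_lit 12) true (nat_lit 10) (.s false (nat_lit 1) (nat_lit 45) (nat_lit 0) (nat_lit 2) (nat_lit 0) false (nat_lit 13) true (nat_lit 12) false (nat_lit 4) true (nat_lit 12) true (nat_lit 10) (.e false (nat_lit 1) (nat_lit 21) (nat_lit 18) (nat_lit 0) (.e true (nat_lit 2) (nat_lit 132) (nat_lit 2) (nat_lit 10) (.e false (nat_lit 2) (nat_lit 134) (nat_lit 2) (nat_lit 10) (.e true (nat_lit 2) (nat_lit 136) (nat_lit 2) (nat_lit 10) (.e true (nat_lit 2) (nat_lit 137) (nat_lit 2) (nat_lit 10) (.e true (nat_lit 1) (nat_lit 138) (nat_lit 2) (nat_lit 10) (.e false (nat_lit 2) (nat_lit 139) (nat_lit 2) (nat_lit 10) (.e false (nat_lit 2) (nat_lit 140) (nat_lit 2) (nat_lit 10) dC1d_i87)))))))))))))))) .leaf) (nat_lit 194561) (nat_lit 729) (.p (nat_lit 290) (nat_lit 3) (.p (nat_lit 291) (nat_lit 3) (.n (nat_lit 292) (nat_lit 1) (.n (nat_lit 293) (nat_lit 3) (.n (nat_lit 294) (nat_lit 3) (.n (nat_lit 295) (nat_lit 3) (.p (nat_lit 298) (nat_lit 2) (.n (nat_lit 299) (nat_lit 1) (.p (nat_lit 300) (nat_lit 3) (.p (nat_lit 302) (nat_lit 3) (.p (nat_lit 304) (nat_lit 1) (.p (nat_lit 305) (nat_lit 2) (.p (nat_lit 307) (nat_lit 3) (.p (nat_lit 308) (nat_lit 1) (.n (nat_lit 310) (nat_lit 2) (.p (nat_lit 312) (nat_lit 2) (.n (nat_lit 316) (nat_lit 1) (.n (nat_lit 317) (nat_lit 3) (.n (nat_lit 319) (nat_lit 2) .z))))))))))))))))))) (.ct dC1d_c292 (nat_lit 1) (nat_lit 11) (.s false (nat_lit 2) (nat_lit 5) (nat_lit 4) (nat_lit 2) (nat_lit 5) false (nat_lit 1) true (nat_lit 7) true (nat_lit 7) true (nat_lit 8) true (nat_lit 10) (.s false (nat_lit 1) (nat_lit 6) (nat_lit 1) (nat_lit 6) (nat_lit 3) true (nat_lit 5) true (nat_lit 9) true (nat_lit 6) true (nat_lit 11) true (nat_lit 6) (.s false (nat_lit 3) (nat_lit 6) (nat_lit 3) (nat_lit 5) (nat_lit 2) true (nat_lit 4) true (nat_lit 10) true (nat_lit 6) true (nat_lit 9) true (nat_lit 7) (.s false (nat_lit 2) (nat_lit 12) (nat_lit 1) (nat_lit 2) (nat_lit 6) true (nat_lit 1) true (nat_lit 6) true (nat_lit 4) true (nat_lit 11) true (nat_lit 10) (.s true (nat_lit 1) (nat_lit 11) (nat_lit 1) (nat_lit 6) (nat_lit 2) true (nat_lit 7) true (nat_lit 10) true (nat_lit 4) true (nat_lit 11) true (nat_lit 6) (.s false (nat_lit 2) (nat_lit 12) (nat_lit 1) (nat_lit 6) (nat_lit 2) true (nat_lit 7) true (nat_lit 10) true (nat_lit 4) true (nat_lit 11) true (nat_lit 6) (.s false (nat_lit 1) (nat_lit 11) (nat_lit 2) (nat_lit 5) (nat_lit 2) true (nat_lit 6) true (nat_lit 10) true (nat_lit 4) true (nat_lit 10) true (nat_lit 7) (.s true (nat_lit 3) (nat_lit 12) (nat_lit 2) (nat_lit 5) (nat_lit 2) true (nat_lit 6) true (nat_lit 10) true (nat_lit 4) true (nat_lit 10) true (nat_lit 7) (.s true (nat_lit 3) (nat_lit 12) (nat_lit 2) (nat_lit 6) (nat_lit 1) true (nat_lit 7) true (nat_lit 11) true (nat_lit 4) true (nat_lit 10) true (nat_lit 6) (.s false (nat_lit 2) (nat_lit 11) (nat_lit 5) (nat_lit 2) (nat_lit 2) true (nat_lit 1) true (nat_lit 10) true (nat_lit 4) true (nat_lit 7) true (nat_lit 10) (.s false (nat_lit 3) (nat_lit 12) (nat_lit 5) (nat_lit 2) (nat_lit 2) true (nat_lit 1) true (nat_lit 10) true (nat_lit 4) true (nat_lit 7) true (nat_lit 10) (.s true (nat_lit 1) (nat_lit 11) (nat_lit 6) (nat_lit 1) (nat_lit 2) true (nat_lit 0) true (nat_lit 10) true (nat_lit 4) true (nat_lit 6) true (nat_lit 11) (.s false (nat_lit 3) (nat_lit 13) (nat_lit 2) (nat_lit 2) (nat_lit 4) true (nat_lit 2) true (nat_lit 8) true (nat_lit 3) true (nat_lit 10) true (nat_lit 10) dC1d_i90)))))))))))))) .leaf) (nat_lit 194562) (nat_lit 831) (.p (nat_lit 338) (nat_lit 1) .z) .df (.nd (.nd .leaf (nat_lit 194563) (nat_lit 1197) (.p (nat_lit 355) (nat_lit 1) (.p (nat_lit 356) (nat_lit 1) (.n (nat_lit 357) (nat_lit 1) (.p (nat_lit 358) (nat_lit 1) (.n (nat_lit 359) (nat_lit 1) (.n (nat_lit 360) (nat_lit 3) (.n (nat_lit 361) (nat_lit 3) (.p (nat_lit 362) (nat_lit 3) (.p (nat_lit 363) (nat_lit 1) (.p (nat_lit 364) (nat_lit 2) (.p (nat_lit 365) (nat_lit 2) (.n (nat_lit 366) (nat_lit 3) (.p (nat_lit 367) (nat_lit 2) (.p (nat_lit 369) (nat_lit 1) (.n (nat_lit 370) (nat_lit 1) (.p (nat_lit 372) (nat_lit 2) (.p (nat_lit 373) (nat_lit 1) (.n (nat_lit 374) (nat_lit 2) (.n (nat_lit 375) (nat_lit 3) (.n (nat_lit 376) (nat_lit 2) (.p (nat_lit 377) (nat_lit 2) (.n (nat_lit 381) (nat_lit 2) (.n (nat_lit 382) (nat_lit 1) (.n (nat_lit 384) (nat_lit 1) (.n (nat_lit 385) (nat_lit 1) (.n (nat_lit 386) (nat_lit 3) (.n (nat_lit 387) (nat_lit 3) (.n (nat_lit 389) (nat_lit 1) (.p (nat_lit 390) (nat_lit 1) (.p (nat_lit 391) (nat_lit 3) (.p (nat_lit 392) (nat_lit 1) (.p (nat_lit 393) (nat_lit 1) (.p (nat_lit 394) (nat_lit 1) (.n (nat_lit 396) (nat_lit 2) (.p (nat_lit 401) (nat_lit 2) (.n (nat_lit 402) (nat_lit 2) .z)))))))))))))))))))))))))))))))))))) (.ct dC1d_c548 (nat_lit 1) (nat_lit 16) (.s true (nat_lit 1) (nat_lit 92) (nat_lit 0) (nat_lit 2) (nat_lit 1) true (nat_lit 16) true (nat_lit 18) false (nat_lit 9) true (nat_lit 19) true (nat_lit 17) dC1d_i92)) .leaf) (nat_lit 194564) (nat_lit 1359) (.p (nat_lit 426) (nat_lit 1) (.p (nat_lit 427) (nat_lit 1) (.p (nat_lit 428) (nat_lit 2) (.n (nat_lit 429) (nat_lit 1) (.n (nat_lit 430) (nat_lit 2) (.p (nat_lit 431) (nat_lit 1) (.n (nat_lit 432) (nat_lit 3) (.n (nat_lit 433) (nat_lit 3) (.p (nat_lit 434) (nat_lit 3) (.n (nat_lit 435) (nat_lit 3) (.p (nat_lit 436) (nat_lit 3) (.n (nat_lit 438) (nat_lit 3) (.n (nat_lit 439) (nat_lit 3) (.p (nat_lit 440) (nat_lit 2) (.p (nat_lit 441) (nat_lit 1) (.p (nat_lit 442) (nat_lit 3) (.n (nat_lit 443) (nat_lit 3) (.n (nat_lit 444) (nat_lit 2) (.p (nat_lit 445) (nat_lit 2) (.n (nat_lit 446) (nat_lit 1) (.p (nat_lit 448) (nat_lit 2) (.n (nat_lit 451) (nat_lit 3) (.p (nat_lit 454) (nat_lit 3) (.n (nat_lit 458) (nat_lit 2) (.p (nat_lit 459) (nat_lit 3) .z))))))))))))))))))))))))) (.ct dC1d_c533 (nat_lit 1) (nat_lit 11) (.s false (nat_lit 1) (nat_lit 18) (nat_lit 0) (nat_lit 12) (nat_lit 2) true (nat_lit 11) true (nat_lit 13) true (nat_lit 3) true (nat_lit 15) true (nat_lit 6) (.e false (nat_lit 1) (nat_lit 194) (nat_lit 4) (nat_lit 11) (.e true (nat_lit 3) (nat_lit 260) (nat_lit 2) (nat_lit 13) (.e false (nat_lit 3) (nat_lit 261) (nat_lit 2) (nat_lit 13) dC1d_i93))))) .leaf)) (nat_lit 194565) (nat_lit 1497) (.p (nat_lit 460) (nat_lit 3) (.p (nat_lit 461) (nat_lit 2) (.n (nat_lit 462) (nat_lit 2) (.p (nat_lit 463) (nat_lit 1) (.p (nat_lit 464) (nat_lit 1) (.p (nat_lit 465) (nat_lit 3) (.p (nat_lit 466) (nat_lit 1) (.n (nat_lit 467) (nat_lit 1) (.p (nat_lit 468) (nat_lit 2) (.n (nat_lit 470) (nat_lit 2) (.p (nat_lit 471) (nat_lit 2) (.n (nat_lit 473) (nat_lit 2) (.p (nat_lit 474) (nat_lit 1) (.p (nat_lit 475) (nat_lit 2) (.n (nat_lit 476) (nat_lit 1) (.p (nat_lit 478) (nat_lit 2) (.p (nat_lit 479) (nat_lit 3) (.n (nat_lit 480) (nat_lit 2) (.p (nat_lit 481) (nat_lit 2) (.n (nat_lit 483) (nat_lit 3) (.p (nat_lit 486) (nat_lit 3) (.n (nat_lit 489) (nat_lit 2) (.n (nat_lit 490) (nat_lit 2) (.n (nat_lit 493) (nat_lit 3) .z)))))))))))))))))))))))) (.ct dC1d_c293 (nat_lit 1) (nat_lit 10) (.s true (nat_lit 2) (nat_lit 6) (nat_lit 3) (nat_lit 6) (nat_lit 5) true (nat_lit 2) true (nat_lit 10) true (nat_lit 9) true (nat_lit 12) true (nat_lit 9) (.s true (nat_lit 2) (nat_lit 12) (nat_lit 6) (nat_lit 2) (nat_lit 5) false (nat_lit 1) true (nat_lit 10) true (nat_lit 7) true (nat_lit 9) true (nat_lit 13) (.s true (nat_lit 2) (nat_lit 18) (nat_lit 2) (nat_lit 11) (nat_lit 1) true (nat_lit 10) true (nat_lit 14) true (nat_lit 3) true (nat_lit 13) true (nat_lit 7) (.s true (nat_lit 2) (nat_lit 18) (nat_lit 3) (nat_lit 2) (nat_lit 5) true (nat_lit 2) true (nat_lit 10) true (nat_lit 3) true (nat_lit 12) true (nat_lit 13) (.s true (nat_lit 1) (nat_lit 18) (nat_lit 13) (nat_lit 2) (nat_lit 0) true (nat_lit 2) true (nat_lit 15) true (nat_lit 3) true (nat_lit 6) true (nat_lit 13) (.s false (nat_lit 2) (nat_lit 33) (nat_lit 2) (nat_lit 2) (nat_lit 5) true (nat_lit 4) true (nat_lit 10) true (nat_lit 1) true (nat_lit 13) true (nat_lit 13) (.s true (nat_lit 2) (nat_lit 46) (nat_lit 0) (nat_lit 1) (nat_lit 5) true (nat_lit 7) true (nat_lit 10) false (nat_lit 2) true (nat_lit 15) true (nat_lit 14) (.s false (nat_lit 2) (nat_lit 46) (nat_lit 1) (nat_lit 5) (nat_lit 0) true (nat_lit 12) true (nat_lit 15) false (nat_lit 2) true (nat_lit 14) true (nat_lit 10) (.s false (nat_lit 1) (nat_lit 46) (nat_lit 5) (nat_lit 0) (nat_lit 1) true (nat_lit 6) true (nat_lit 14) false (nat_lit 2) true (nat_lit 10) true (nat_lit 15) (.s true (nat_lit 2) (nat_lit 71) (nat_lit 2) (nat_lit 2) (nat_lit 2) true (nat_lit 9) true (nat_lit 13) false (nat_lit 3) true (nat_lit 13) true (nat_lit 13) (.s false (nat_lit 1) (nat_lit 72) (nat_lit 2) (nat_lit 2) (nat_lit 2) true (nat_lit 9) true (nat_lit 13) false (nat_lit 3) true (nat_lit 13) true (nat_lit 13) (.s true (nat_lit 1) (nat_lit 73) (nat_lit 2) (nat_lit 2) (nat_lit 2) true (nat_lit 9) true (nat_lit 13) false (nat_lit 3) true (nat_lit 13) true (nat_lit 13) (.s true (nat_lit 2) (nat_lit 84) (nat_lit 1) (nat_lit 2) (nat_lit 2) true (nat_lit 10) true (nat_lit 13) false (nat_lit 4) true (nat_lit 14) true (nat_lit 13) (.s false (nat_lit 2) (nat_lit 83) (nat_lit 2) (nat_lit 1) (nat_lit 2) true (nat_lit 9) true (nat_lit 13) false (nat_lit 4) true (nat_lit 13) true (nat_lit 14) (.s true (nat_lit 1) (nat_lit 100) (nat_lit 1) (nat_lit 2) (nat_lit 1) false (nat_lit 16) true (nat_lit 14) false (nat_lit 6) true (nat_lit 14) true (nat_lit 13) (.s true (nat_lit 2) (nat_lit 104) (nat_lit 0) (nat_lit 2) (nat_lit 1) true (nat_lit 12) true (nat_lit 14) false (nat_lit 7) true (nat_lit 15) true (nat_lit 13) (.s true (nat_lit 2) (nat_lit 104) (nat_lit 1) (nat_lit 2) (nat_lit 0) true (nat_lit 12) true (nat_lit 15) false (nat_lit 7) true (nat_lit 14) true (nat_lit 13) dC1d_i96)))))))))))))))))) (.nd (.nd (.nd .leaf (nat_lit 195584) (nat_lit 643) (.p (nat_lit 260) (nat_lit 1) (.n (nat_lit 261) (nat_lit 3) (.n (nat_lit 262) (nat_lit 1) (.n (nat_lit 263) (nat_lit 2) (.n (nat_lit 264) (nat_lit 3) (.p (nat_lit 265) (nat_lit 2) (.n (nat_lit 266) (nat_lit 1) (.p (nat_lit 267) (nat_lit 2) (.n (nat_lit 268) (nat_lit 1) (.p (nat_lit 269) (nat_lit 2) (.p (nat_lit 270) (nat_lit 3) (.p (nat_lit 271) (nat_lit 3) (.n (nat_lit 272) (nat_lit 3) (.n (nat_lit 273) (nat_lit 3) (.n (nat_lit 274) (nat_lit 3) (.n (nat_lit 277) (nat_lit 2) (.n (nat_lit 278) (nat_lit 2) (.p (nat_lit 279) (nat_lit 2) (.p (nat_lit 280) (nat_lit 1) (.p (nat_lit 281) (nat_lit 1) (.p (nat_lit 282) (nat_lit 1) (.p (nat_lit 283) (nat_lit 1) (.p (nat_lit 286) (nat_lit 2) (.n (nat_lit 287) (nat_lit 2) (.p (nat_lit 288) (nat_lit 3) (.n (nat_lit 289) (nat_lit 1) .z)))))))))))))))))))))))))) (.ct dC1d_c532 (nat_lit 1) (nat_lit 12) (.s true (nat_lit 1) (nat_lit 44) (nat_lit 0) (nat_lit 2) (nat_lit 0) false (nat_lit 13) true (nat_lit 12) false (nat_lit 4) true (nat_lit 12) true (nat_lit 10) (.e false (nat_lit 1) (nat_lit 182) (nat_lit 0) (nat_lit 12) (.e false (nat_lit 2) (nat_lit 183) (nat_lit 0) (nat_lit 12) (.e true (nat_lit 3) (nat_lit 184) (nat_lit 0) (nat_lit 12) (.e true (nat_lit 3) (nat_lit 187) (nat_lit 0) (nat_lit 12) dC1d_i97)))))) .leaf) (nat_lit 195585) (nat_lit 738) (.p (nat_lit 290) (nat_lit 1) (.p (nat_lit 292) (nat_lit 1) (.p (nat_lit 293) (nat_lit 3) (.n (nat_lit 294) (nat_lit 2) (.p (nat_lit 295) (nat_lit 1) (.n (nat_lit 296) (nat_lit 2) (.p (nat_lit 297) (nat_lit 2) (.p (nat_lit 298) (nat_lit 3) (.n (nat_lit 299) (nat_lit 2) (.p (nat_lit 300) (nat_lit 3) (.p (nat_lit 301) (nat_lit 2) (.n (nat_lit 302) (nat_lit 2) (.n (nat_lit 304) (nat_lit 3) (.p (nat_lit 305) (nat_lit 1) (.p (nat_lit 307) (nat_lit 2) (.n (nat_lit 308) (nat_lit 1) (.n (nat_lit 310) (nat_lit 2) (.p (nat_lit 311) (nat_lit 1) (.p (nat_lit 314) (nat_lit 1) (.p (nat_lit 315) (nat_lit 1) (.n (nat_lit 316) (nat_lit 1) (.n (nat_lit 317) (nat_lit 2) (.p (nat_lit 318) (nat_lit 1) (.n (nat_lit 319) (nat_lit 1) .z)))))))))))))))))))))))) (.ct dC1d_c292 (nat_lit 1) (nat_lit 11) (.s false (nat_lit 1) (nat_lit 12) (nat_lit 2) (nat_lit 1) (nat_lit 6) true (nat_lit 0) true (nat_lit 6) true (nat_lit 4) true (nat_lit 10) true (nat_lit 11) (.s false (nat_lit 1) (nat_lit 12) (nat_lit 2) (nat_lit 2) (nat_lit 5) true (nat_lit 1) true (nat_lit 7) true (nat_lit 4) true (nat_lit 10) true (nat_lit 10) (.s true (nat_lit 3) (nat_lit 12) (nat_lit 2) (nat_lit 5) (nat_lit 2) true (nat_lit 6) true (nat_lit 10) true (nat_lit 4) true (nat_lit 10) true (nat_lit 7) (.s true (nat_lit 3) (nat_lit 11) (nat_lit 2) (nat_lit 6) (nat_lit 1) true (nat_lit 7) true (nat_lit 11) true (nat_lit 4) true (nat_lit 10) true (nat_lit 6) (.s false (nat_lit 3) (nat_lit 12) (nat_lit 5) (nat_lit 2) (nat_lit 2) true (nat_lit 1) true (nat_lit 10) true (nat_lit 4) true (nat_lit 7) true (nat_lit 10) (.s false (nat_lit 3) (nat_lit 15) (nat_lit 5) (nat_lit 2) (nat_lit 1) true (nat_lit 3) true (nat_lit 11) true (nat_lit 2) true (nat_lit 7) true (nat_lit 10) (.s false (nat_lit 3) (nat_lit 16) (nat_lit 0) (nat_lit 5) (nat_lit 2) true (nat_lit 8) true (nat_lit 10) true (nat_lit 1) true (nat_lit 12) true (nat_lit 7) (.s true (nat_lit 3) (nat_lit 17) (nat_lit 1) (nat_lit 4) (nat_lit 2) true (nat_lit 7) true (nat_lit 10) true (nat_lit 1) true (nat_lit 11) true (nat_lit 8) (.s false (nat_lit 3) (nat_lit 16) (nat_lit 2) (nat_lit 1) (nat_lit 4) true (nat_lit 2) true (nat_lit 8) true (nat_lit 1) true (nat_lit 10) true (nat_lit 11) (.s false (nat_lit 3) (nat_lit 18) (nat_lit 2) (nat_lit 1) (nat_lit 3) true (nat_lit 4) true (nat_lit 9) true (nat_lit 0) true (nat_lit 10) true (nat_lit 11) (.s false (nat_lit 3) (nat_lit 18) (nat_lit 2) (nat_lit 3) (nat_lit 1) true (nat_lit 7) true (nat_lit 11) true (nat_lit 0) true (nat_lit 10) true (nat_lit 9) (.s true (nat_lit 3) (nat_lit 18) (nat_lit 4) (nat_lit 1) (nat_lit 1) true (nat_lit 4) true (nat_lit 11) true (nat_lit 0) true (nat_lit 8) true (nat_lit 11) (.s false (nat_lit 3) (nat_lit 32) (nat_lit 1) (nat_lit 2) (nat_lit 2) true (nat_lit 7) true (nat_lit 10) false (nat_lit 1) true (nat_lit 11) true (nat_lit 10) (.s true (nat_lit 3) (nat_lit 33) (nat_lit 1) (nat_lit 2) (nat_lit 2) true (nat_lit 7) true (nat_lit 10) false (nat_lit 1) true (nat_lit 11) true (nat_lit 10) (.s true (nat_lit 2) (nat_lit 33) (nat_lit 2) (nat_lit 1) (nat_lit 2) true (nat_lit 6) true (nat_lit 10) false (nat_lit 1) true (nat_lit 10) true (nat_lit 11) (.s false (nat_lit 3) (nat_lit 35) (nat_lit 2) (nat_lit 1) (nat_lit 2) true (nat_lit 6) true (nat_lit 10) false (nat_lit 1) true (nat_lit 10) true (nat_lit 11) dC1d_i99))))))))))))))))) .leaf) (nat_lit 195586) (nat_lit 832) (.p (nat_lit 339) (nat_lit 1) .z) .df (.nd (.nd .leaf (nat_lit 195587) (nat_lit 1060) (.n (nat_lit 355) (nat_lit 1) (.p (nat_lit 356) (nat_lit 1) (.n (nat_lit 357) (nat_lit 2) (.n (nat_lit 358) (nat_lit 1) (.p (nat_lit 359) (nat_lit 3) (.p (nat_lit 361) (nat_lit 3) (.n (nat_lit 362) (nat_lit 3) (.n (nat_lit 363) (nat_lit 1) (.p (nat_lit 364) (nat_lit 3) (.p (nat_lit 365) (nat_lit 1) (.n (nat_lit 367) (nat_lit 2) (.n (nat_lit 369) (nat_lit 3) (.p (nat_lit 370) (nat_lit 1) (.n (nat_lit 372) (nat_lit 1) (.n (nat_lit 373) (nat_lit 3) (.n (nat_lit 374) (nat_lit 2) (.p (nat_lit 375) (nat_lit 3) (.p (nat_lit 379) (nat_lit 1) (.p (nat_lit 380) (nat_lit 1) (.p (nat_lit 381) (nat_lit 1) (.n (nat_lit 382) (nat_lit 3) (.n (nat_lit 383) (nat_lit 1) (.p (nat_lit 384) (nat_lit 1) (.n (nat_lit 386) (nat_lit 3) (.p (nat_lit 387) (nat_lit 1) (.p (nat_lit 388) (nat_lit 3) (.n (nat_lit 389) (nat_lit 2) (.p (nat_lit 390) (nat_lit 1) (.n (nat_lit 391) (nat_lit 2) (.n (nat_lit 392) (nat_lit 1) (.n (nat_lit 393) (nat_lit 1) (.p (nat_lit 395) (nat_lit 3) (.p (nat_lit 396) (nat_lit 2) (.n (nat_lit 400) (nat_lit 1) (.n (nat_lit 401) (nat_lit 1) .z))))))))))))))))))))))))))))))))))) (.ct dC1d_c548 (nat_lit 1) (nat_lit 16) dC1d_i100) .leaf) (nat_lit 195588) (nat_lit 1354) (.p (nat_lit 426) (nat_lit 3) (.p (nat_lit 428) (nat_lit 1) (.p (nat_lit 429) (nat_lit 3) (.p (nat_lit 430) (nat_lit 2) (.p (nat_lit 434) (nat_lit 1) (.p (nat_lit 435) (nat_lit 3) (.p (nat_lit 436) (nat_lit 1) (.p (nat_lit 438) (nat_lit 1) (.p (nat_lit 439) (nat_lit 1) (.n (nat_lit 441) (nat_lit 1) (.n (nat_lit 442) (nat_lit 1) (.n (nat_lit 443) (nat_lit 3) (.p (nat_lit 444) (nat_lit 2) (.n (nat_lit 445) (nat_lit 1) (.n (nat_lit 446) (nat_lit 3) (.n (nat_lit 447) (nat_lit 1) (.p (nat_lit 448) (nat_lit 1) (.p (nat_lit 455) (nat_lit 2) (.p (nat_lit 456) (nat_lit 3) .z))))))))))))))))))) (.ct dC1d_c533 (nat_lit 1) (nat_lit 11) (.s true (nat_lit 1) (nat_lit 98) (nat_lit 0) (nat_lit 1) (nat_lit 2) true (nat_lit 11) true (nat_lit 13) false (nat_lit 6) true (nat_lit 15) true (nat_lit 14) (.e false (nat_lit 3) (nat_lit 261) (nat_lit 2) (nat_lit 13) (.e false (nat_lit 3) (nat_lit 262) (nat_lit 2) (nat_lit 13) (.e true (nat_lit 3) (nat_lit 263) (nat_lit 2) (nat_lit 13) (.e false (nat_lit 3) (nat_lit 264) (nat_lit 2) (nat_lit 13) (.e false (nat_lit 1) (nat_lit 265) (nat_lit 2) (nat_lit 13) (.e true (nat_lit 3) (nat_lit 266) (nat_lit 2) (nat_lit 13) (.e false (nat_lit 2) (nat_lit 267) (nat_lit 2) (nat_lit 13) (.e true (nat_lit 1) (nat_lit 268) (nat_lit 2) (nat_lit 13) (.e false (nat_lit 1) (nat_lit 269) (nat_lit 2) (nat_lit 13) (.e true (nat_lit 1) (nat_lit 270) (nat_lit 2) (nat_lit 13) (.e false (nat_lit 1) (nat_lit 272) (nat_lit 2) (nat_lit 13) (.e false (nat_lit 3) (nat_lit 273) (nat_lit 2) (nat_lit 13) (.e false (nat_lit 3) (nat_lit 277) (nat_lit 2) (nat_lit 13) (.e false (nat_lit 3) (nat_lit 278) (nat_lit 2) (nat_lit 13) (.e true (nat_lit 3) (nat_lit 279) (nat_lit 2) (nat_lit 13) (.e true (nat_lit 1) (nat_lit 282) (nat_lit 2) (nat_lit 13) (.e true (nat_lit 1) (nat_lit 286) (nat_lit 2) (nat_lit 13) (.e false (nat_lit 1) (nat_lit 287) (nat_lit 2) (nat_lit 13) (.e true (nat_lit 2) (nat_lit 288) (nat_lit 2) (nat_lit 13) dC1d_i101))))))))))))))))))))) .leaf))))))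

noncomputable def dC1d_t1 : Tr := (.nd (.nd (.nd (.nd (.nd (.nd (.nd .leaf (nat_lit 196608) (nat_lit 620) (.p (nat_lit 260) (nat_lit 2) (.n (nat_lit 261) (nat_lit 1) (.p (nat_lit 262) (nat_lit 2) (.p (nat_lit 263) (nat_lit 3) (.p (nat_lit 265) (nat_lit 3) (.p (nat_lit 266) (nat_lit 3) (.n (nat_lit 267) (nat_lit 1) (.n (nat_lit 268) (nat_lit 2) (.p (nat_lit 269) (nat_lit 3) (.p (nat_lit 270) (nat_lit 3) (.p (nat_lit 271) (nat_lit 3) (.n (nat_lit 272) (nat_lit 2) (.n (nat_lit 274) (nat_lit 3) (.n (nat_lit 277) (nat_lit 3) (.p (nat_lit 278) (nat_lit 1) (.p (nat_lit 280) (nat_lit 1) (.p (nat_lit 281) (nat_lit 1) (.p (nat_lit 283) (nat_lit 2) (.n (nat_lit 286) (nat_lit 1) (.n (nat_lit 287) (nat_lit 1) (.p (nat_lit 288) (nat_lit 1) (.n (nat_lit 289) (nat_lit 1) .z)))))))))))))))))))))) (.ct dC1d_c532 (nat_lit 1) (nat_lit 12) (.s false (nat_lit 1) (nat_lit 31) (nat_lit 0) (nat_lit 2) (nat_lit 2) true (nat_lit 8) true (nat_lit 10) false (nat_lit 2) true (nat_lit 12) true (nat_lit 10) (.e false (nat_lit 1) (nat_lit 82) (nat_lit 4) (nat_lit 8) (.e false (nat_lit 1) (nat_lit 139) (nat_lit 2) (nat_lit 10) (.e false (nat_lit 1) (nat_lit 31) (nat_lit 14) (nat_lit 2) (.e false (nat_lit 1) (nat_lit 147) (nat_lit 2) (nat_lit 10) (.u (nat_lit 2) (.p (nat_lit 7) (nat_lit 1) (.n (nat_lit 9) (nat_lit 1) (.n (nat_lit 10) (nat_lit 1) (.p (nat_lit 12) (nat_lit 1) .z)))) .nil))))))) .leaf) (nat_lit 196609) (nat_lit 720) (.n (nat_lit 291) (nat_lit 3) (.p (nat_lit 294) (nat_lit 2) (.p (nat_lit 298) (nat_lit 1) (.n (nat_lit 299) (nat_lit 2) (.n (nat_lit 301) (nat_lit 1) (.p (nat_lit 304) (nat_lit 1) (.n (nat_lit 307) (nat_lit 1) (.p (nat_lit 308) (nat_lit 3) (.p (nat_lit 311) (nat_lit 1) (.p (nat_lit 317) (nat_lit 1) (.p (nat_lit 319) (nat_lit 1) .z))))))))))) (.ct dC1d_c292 (nat_lit 1) (nat_lit 11) (.s true (nat_lit 3) (nat_lit 6) (nat_lit 1) (nat_lit 6) (nat_lit 3) true (nat_lit 5) true (nat_lit 9) true (nat_lit 6) true (nat_lit 11) true (nat_lit 6) (.s true (nat_lit 1) (nat_lit 17) (nat_lit 2) (nat_lit 3) (nat_lit 2) true (nat_lit 6) true (nat_lit 10) true (nat_lit 1) true (nat_lit 10) true (nat_lit 9) (.s true (nat_lit 1) (nat_lit 18) (nat_lit 1) (nat_lit 2) (nat_lit 3) true (nat_lit 5) true (nat_lit 9) true (nat_lit 0) true (nat_lit 11) true (nat_lit 10) (.s true (nat_lit 1) (nat_lit 27) (nat_lit 2) (nat_lit 2) (nat_lit 2) true (nat_lit 6) true (nat_lit 10) false (nat_lit 0) true (nat_lit 10) true (nat_lit 10) (.e false (nat_lit 2) (nat_lit 66) (nat_lit 6) (nat_lit 6) (.e true (nat_lit 1) (nat_lit 68) (nat_lit 6) (nat_lit 6) (.e false (nat_lit 1) (nat_lit 67) (nat_lit 6) (nat_lit 6) (.e false (nat_lit 3) (nat_lit 74) (nat_lit 6) (nat_lit 6) (.e false (nat_lit 1) (nat_lit 31) (nat_lit 17) (nat_lit 1) (.e true (nat_lit 2) (nat_lit 154) (nat_lit 2) (nat_lit 10) (.e true (nat_lit 2) (nat_lit 157) (nat_lit 2) (nat_lit 10) (.e true (nat_lit 3) (nat_lit 162) (nat_lit 2) (nat_lit 10) (.e false (nat_lit 2) (nat_lit 171) (nat_lit 2) (nat_lit 10) (.e true (nat_lit 1) (nat_lit 46) (nat_lit 8) (nat_lit 5) (.e true (nat_lit 1) (nat_lit 24) (nat_lit 18) (nat_lit 0) (.e false (nat_lit 1) (nat_lit 26) (nat_lit 18) (nat_lit 0) (.e true (nat_lit 1) (nat_lit 170) (nat_lit 2) (nat_lit 10) (.e false (nat_lit 1) (nat_lit 172) (nat_lit 2) (nat_lit 10) (.u (nat_lit 2) (.n (nat_lit 4) (nat_lit 1) (.p (nat_lit 17) (nat_lit 1) (.n (nat_lit 66) (nat_lit 1) (.n (nat_lit 69) (nat_lit 1) (.n (nat_lit 74) (nat_lit 1) (.n (nat_lit 93) (nat_lit 1) (.n (nat_lit 94) (nat_lit 1) (.p (nat_lit 105) (nat_lit 1) (.n (nat_lit 114) (nat_lit 1) (.p (nat_lit 125) (nat_lit 1) .z)))))))))) .nil)))))))))))))))))))) (.nd .leaf (nat_lit 196610) (nat_lit 847) (.p (nat_lit 336) (nat_lit 1) .z) (.ct dC1d_c277 (nat_lit 1) (nat_lit 8) (.s false (nat_lit 2) (nat_lit 10) (nat_lit 2) (nat_lit 2) (nat_lit 6) true (nat_lit 0) true (nat_lit 4) true (nat_lit 3) true (nat_lit 8) true (nat_lit 8) (.s true (nat_lit 2) (nat_lit 10) (nat_lit 2) (nat_lit 6) (nat_lit 2) true (nat_lit 4) true (nat_lit 8) true (nat_lit 3) true (nat_lit 8) true (nat_lit 4) (.s true (nat_lit 2) (nat_lit 10) (nat_lit 6) (nat_lit 2) (nat_lit 2) true (nat_lit 0) true (nat_lit 8) true (nat_lit 3) true (nat_lit 4) true (nat_lit 8) (.e true (nat_lit 3) (nat_lit 90) (nat_lit 6) (nat_lit 4) (.u (nat_lit 2) (.n (nat_lit 8) (nat_lit 1) (.p (nat_lit 48) (nat_lit 1) (.n (nat_lit 72) (nat_lit 1) .z))) .nil)))))) .leaf)) (nat_lit 196611) (nat_lit 1147) (.n (nat_lit 356) (nat_lit 1) (.n (nat_lit 357) (nat_lit 3) (.n (nat_lit 358) (nat_lit 1) (.n (nat_lit 359) (nat_lit 2) (.n (nat_lit 361) (nat_lit 1) (.p (nat_lit 362) (nat_lit 1) (.p (nat_lit 363) (nat_lit 1) (.n (nat_lit 364) (nat_lit 1) (.p (nat_lit 365) (nat_lit 2) (.p (nat_lit 366) (nat_lit 1) (.p (nat_lit 367) (nat_lit 1) (.p (nat_lit 369) (nat_lit 1) (.p (nat_lit 370) (nat_lit 3) (.n (nat_lit 372) (nat_lit 1) (.n (nat_lit 373) (nat_lit 1) (.p (nat_lit 374) (nat_lit 2) (.p (nat_lit 375) (nat_lit 2) (.p (nat_lit 376) (nat_lit 2) (.p (nat_lit 381) (nat_lit 1) (.n (nat_lit 382) (nat_lit 2) (.p (nat_lit 383) (nat_lit 2) (.p (nat_lit 384) (nat_lit 2) (.n (nat_lit 385) (nat_lit 3) (.n (nat_lit 386) (nat_lit 3) (.n (nat_lit 387) (nat_lit 3) (.n (nat_lit 388) (nat_lit 1) (.p (nat_lit 389) (nat_lit 1) (.p (nat_lit 390) (nat_lit 1) (.n (nat_lit 391) (nat_lit 3) (.n (nat_lit 392) (nat_lit 2) (.p (nat_lit 393) (nat_lit 1) (.n (nat_lit 395) (nat_lit 3) (.n (nat_lit 396) (nat_lit 2) (.n (nat_lit 401) (nat_lit 2) .z)))))))))))))))))))))))))))))))))) (.ct dC1d_c548 (nat_lit 1) (nat_lit 16) (.s false (nat_lit 1) (nat_lit 31) (nat_lit 3) (nat_lit 2) (nat_lit 2) true (nat_lit 9) true (nat_lit 17) true (nat_lit 0) true (nat_lit 16) true (nat_lit 17) (.a true (nat_lit 3) (nat_lit 31) (nat_lit 31) (nat_lit 0) (nat_lit 0) (.e true (nat_lit 1) (nat_lit 82) (nat_lit 10) (nat_lit 9) (.e true (nat_lit 1) (nat_lit 250) (nat_lit 2) (nat_lit 17) (.e false (nat_lit 2) (nat_lit 252) (nat_lit 2) (nat_lit 17) (.e false (nat_lit 3) (nat_lit 213) (nat_lit 2) (nat_lit 17) (.e true (nat_lit 3) (nat_lit 214) (nat_lit 2) (nat_lit 17) (.e false (nat_lit 3) (nat_lit 215) (nat_lit 2) (nat_lit 17) (.e true (nat_lit 1) (nat_lit 216) (nat_lit 2) (nat_lit 17) (.e true (nat_lit 1) (nat_lit 217) (nat_lit 2) (nat_lit 17) (.e true (nat_lit 2) (nat_lit 218) (nat_lit 2) (nat_lit 17) (.e false (nat_lit 2) (nat_lit 220) (nat_lit 2) (nat_lit 17) (.e false (nat_lit 2) (nat_lit 224) (nat_lit 2) (nat_lit 17) (.e true (nat_lit 2) (nat_lit 226) (nat_lit 2) (nat_lit 17) (.e true (nat_lit 1) (nat_lit 227) (nat_lit 2) (nat_lit 17) (.e false (nat_lit 3) (nat_lit 228) (nat_lit 2) (nat_lit 17) (.e false (nat_lit 1) (nat_lit 230) (nat_lit 2) (nat_lit 17) dC1d_i102)))))))))))))))))) (.nd (.nd .leaf (nat_lit 196612) (nat_lit 1347) (.p (nat_lit 426) (nat_lit 1) (.p (nat_lit 427) (nat_lit 3) (.n (nat_lit 428) (nat_lit 3) (.n (nat_lit 429) (nat_lit 3) (.n (nat_lit 430) (nat_lit 2) (.p (nat_lit 431) (nat_lit 3) (.n (nat_lit 432) (nat_lit 3) (.n (nat_lit 433) (nat_lit 3) (.p (nat_lit 434) (nat_lit 1) (.p (nat_lit 435) (nat_lit 1) (.p (nat_lit 436) (nat_lit 2) (.p (nat_lit 438) (nat_lit 1) (.p (nat_lit 439) (nat_lit 1) (.n (nat_lit 440) (nat_lit 2) (.p (nat_lit 441) (nat_lit 3) (.n (nat_lit 442) (nat_lit 3) (.p (nat_lit 443) (nat_lit 1) (.p (nat_lit 444) (nat_lit 1) (.n (nat_lit 445) (nat_lit 1) (.p (nat_lit 446) (nat_lit 1) (.n (nat_lit 448) (nat_lit 2) (.p (nat_lit 451) (nat_lit 3) (.n (nat_lit 454) (nat_lit 3) (.n (nat_lit 456) (nat_lit 2) (.n (nat_lit 459) (nat_lit 2) .z))))))))))))))))))))))))) (.ct dC1d_c533 (nat_lit 1) (nat_lit 11) (.s true (nat_lit 1) (nat_lit 31) (nat_lit 0) (nat_lit 6) (nat_lit 2) true (nat_lit 11) true (nat_lit 13) true (nat_lit 0) true (nat_lit 15) true (nat_lit 9) (.e true (nat_lit 1) (nat_lit 260) (nat_lit 2) (nat_lit 13) (.e true (nat_lit 1) (nat_lit 261) (nat_lit 2) (nat_lit 13) (.e true (nat_lit 3) (nat_lit 262) (nat_lit 2) (nat_lit 13) (.e true (nat_lit 3) (nat_lit 263) (nat_lit 2) (nat_lit 13) (.e true (nat_lit 1) (nat_lit 264) (nat_lit 2) (nat_lit 13) (.e true (nat_lit 3) (nat_lit 265) (nat_lit 2) (nat_lit 13) (.e true (nat_lit 2) (nat_lit 266) (nat_lit 2) (nat_lit 13) (.e true (nat_lit 2) (nat_lit 267) (nat_lit 2) (nat_lit 13) (.e false (nat_lit 1) (nat_lit 270) (nat_lit 2) (nat_lit 13) dC1d_i103))))))))))) .leaf) (nat_lit 196613) (nat_lit 1460) (.p (nat_lit 460) (nat_lit 2) (.p (nat_lit 461) (nat_lit 3) (.n (nat_lit 462) (nat_lit 2) (.p (nat_lit 463) (nat_lit 3) (.p (nat_lit 464) (nat_lit 3) (.n (nat_lit 465) (nat_lit 1) (.n (nat_lit 466) (nat_lit 1) (.n (nat_lit 467) (nat_lit 3) (.p (nat_lit 468) (nat_lit 1) (.p (nat_lit 469) (nat_lit 1) (.n (nat_lit 470) (nat_lit 2) (.p (nat_lit 471) (nat_lit 2) (.n (nat_lit 473) (nat_lit 2) (.p (nat_lit 474) (nat_lit 2) (.n (nat_lit 475) (nat_lit 3) (.n (nat_lit 476) (nat_lit 1) (.p (nat_lit 477) (nat_lit 2) (.n (nat_lit 478) (nat_lit 2) (.n (nat_lit 479) (nat_lit 2) (.p (nat_lit 480) (nat_lit 2) (.n (nat_lit 481) (nat_lit 2) (.p (nat_lit 483) (nat_lit 3) (.n (nat_lit 486) (nat_lit 3) (.n (nat_lit 489) (nat_lit 2) (.n (nat_lit 493) (nat_lit 2) .z))))))))))))))))))))))))) (.ct dC1d_c293 (nat_lit 1) (nat_lit 10) (.s true (nat_lit 1) (nat_lit 31) (nat_lit 1) (nat_lit 2) (nat_lit 6) true (nat_lit 4) true (nat_lit 9) true (nat_lit 1) true (nat_lit 14) true (nat_lit 13) (.s false (nat_lit 1) (nat_lit 31) (nat_lit 2) (nat_lit 6) (nat_lit 1) true (nat_lit 10) true (nat_lit 14) true (nat_lit 1) true (nat_lit 13) true (nat_lit 9) (.e true (nat_lit 1) (nat_lit 82) (nat_lit 17) (nat_lit 4) (.e true (nat_lit 2) (nat_lit 157) (nat_lit 6) (nat_lit 9) (.e false (nat_lit 1) (nat_lit 44) (nat_lit 31) (nat_lit 1) (.e false (nat_lit 1) (nat_lit 336) (nat_lit 1) (nat_lit 14) (.e true (nat_lit 2) (nat_lit 291) (nat_lit 2) (nat_lit 13) (.e true (nat_lit 2) (nat_lit 294) (nat_lit 2) (nat_lit 13) (.e false (nat_lit 1) (nat_lit 298) (nat_lit 2) (nat_lit 13) (.e true (nat_lit 3) (nat_lit 299) (nat_lit 2) (nat_lit 13) (.e true (nat_lit 1) (nat_lit 307) (nat_lit 2) (nat_lit 13) (.e false (nat_lit 2) (nat_lit 308) (nat_lit 2) (nat_lit 13) (.e false (nat_lit 1) (nat_lit 317) (nat_lit 2) (nat_lit 13) (.u (nat_lit 2) (.n (nat_lit 1) (nat_lit 1) (.n (nat_lit 4) (nat_lit 3) (.n (nat_lit 5) (nat_lit 2) (.n (nat_lit 7) (nat_lit 1) (.n (nat_lit 8) (nat_lit 1) (.n (nat_lit 9) (nat_lit 3) (.p (nat_lit 10) (nat_lit 2) (.n (nat_lit 12) (nat_lit 1) (.n (nat_lit 13) (nat_lit 1) (.n (nat_lit 14) (nat_lit 2) (.n (nat_lit 17) (nat_lit 1) (.p (nat_lit 21) (nat_lit 1) (.n (nat_lit 23) (nat_lit 2) (.p (nat_lit 26) (nat_lit 1) (.p (nat_lit 33) (nat_lit 1) (.p (nat_lit 177) (nat_lit 1) .z)))))))))))))))) .nil))))))))))))))) .leaf)) (nat_lit 197632) (nat_lit 614) (.p (nat_lit 260) (nat_lit 1) (.n (nat_lit 261) (nat_lit 2) (.n (nat_lit 262) (nat_lit 1) (.p (nat_lit 263) (nat_lit 2) (.p (nat_lit 264) (nat_lit 2) (.n (nat_lit 265) (nat_lit 2) (.n (nat_lit 268) (nat_lit 3) (.p (nat_lit 271) (nat_lit 1) (.n (nat_lit 272) (nat_lit 3) (.p (nat_lit 273) (nat_lit 2) (.n (nat_lit 274) (nat_lit 2) (.p (nat_lit 277) (nat_lit 3) (.p (nat_lit 278) (nat_lit 1) (.p (nat_lit 279) (nat_lit 3) (.p (nat_lit 284) (nat_lit 2) (.n (nat_lit 286) (nat_lit 3) (.n (nat_lit 287) (nat_lit 3) (.n (nat_lit 288) (nat_lit 2) .z)))))))))))))))))) (.ct dC1d_c532 (nat_lit 1) (nat_lit 12) (.s false (nat_lit 1) (nat_lit 5) (nat_lit 2) (nat_lit 4) (nat_lit 4) true (nat_lit 2) true (nat_lit 8) true (nat_lit 7) true (nat_lit 10) true (nat_lit 8) (.s false (nat_lit 3) (nat_lit 6) (nat_lit 4) (nat_lit 2) (nat_lit 3) false (nat_lit 0) true (nat_lit 9) true (nat_lit 6) true (nat_lit 8) true (nat_lit 10) (.s false (nat_lit 1) (nat_lit 9) (nat_lit 1) (nat_lit 2) (nat_lit 6) true (nat_lit 1) true (nat_lit 6) true (nat_lit 4) true (nat_lit 11) true (nat_lit 10) (.s false (nat_lit 3) (nat_lit 9) (nat_lit 2) (nat_lit 1) (nat_lit 6) true (nat_lit 0) true (nat_lit 6) true (nat_lit 4) true (nat_lit 10) true (nat_lit 11) (.s false (nat_lit 2) (nat_lit 9) (nat_lit 2) (nat_lit 2) (nat_lit 5) true (nat_lit 1) true (nat_lit 7) true (nat_lit 4) true (nat_lit 10) true (nat_lit 10) (.s false (nat_lit 2) (nat_lit 9) (nat_lit 2) (nat_lit 5) (nat_lit 2) true (nat_lit 6) true (nat_lit 10) true (nat_lit 4) true (nat_lit 10) true (nat_lit 7) (.s true (nat_lit 2) (nat_lit 9) (nat_lit 5) (nat_lit 2) (nat_lit 2) true (nat_lit 1) true (nat_lit 10) true (nat_lit 4) true (nat_lit 7) true (nat_lit 10) dC1d_i106)))))))) (.nd (.nd (.nd .leaf (nat_lit 197633) (nat_lit 764) (.n (nat_lit 290) (nat_lit 1) (.p (nat_lit 291) (nat_lit 3) (.n (nat_lit 292) (nat_lit 2) (.p (nat_lit 293) (nat_lit 3) (.p (nat_lit 294) (nat_lit 1) (.n (nat_lit 295) (nat_lit 2) (.n (nat_lit 296) (nat_lit 2) (.p (nat_lit 297) (nat_lit 2) (.p (nat_lit 299) (nat_lit 2) (.n (nat_lit 300) (nat_lit 1) (.n (nat_lit 302) (nat_lit 2) (.n (nat_lit 304) (nat_lit 2) (.p (nat_lit 305) (nat_lit 1) (.p (nat_lit 307) (nat_lit 3) (.n (nat_lit 310) (nat_lit 2) (.p (nat_lit 311) (nat_lit 1) (.p (nat_lit 312) (nat_lit 2) (.p (nat_lit 316) (nat_lit 2) (.p (nat_lit 317) (nat_lit 1) (.n (nat_lit 318) (nat_lit 3) (.n (nat_lit 319) (nat_lit 1) .z))))))))))))))))))))) (.ct dC1d_c292 (nat_lit 1) (nat_lit 11) (.s false (nat_lit 1) (nat_lit 14) (nat_lit 1) (nat_lit 1) (nat_lit 6) true (nat_lit 1) true (nat_lit 6) true (nat_lit 2) true (nat_lit 11) true (nat_lit 11) (.e false (nat_lit 1) (nat_lit 34) (nat_lit 17) (nat_lit 1) (.e false (nat_lit 1) (nat_lit 72) (nat_lit 6) (nat_lit 6) (.e true (nat_lit 3) (nat_lit 180) (nat_lit 1) (nat_lit 11) (.e true (nat_lit 2) (nat_lit 181) (nat_lit 1) (nat_lit 11) (.e false (nat_lit 1) (nat_lit 183) (nat_lit 1) (nat_lit 11) (.e false (nat_lit 3) (nat_lit 184) (nat_lit 1) (nat_lit 11) (.e true (nat_lit 2) (nat_lit 185) (nat_lit 1) (nat_lit 11) (.e false (nat_lit 1) (nat_lit 182) (nat_lit 1) (nat_lit 11) (.e false (nat_lit 1) (nat_lit 188) (nat_lit 1) (nat_lit 11) (.e true (nat_lit 2) (nat_lit 189) (nat_lit 1) (nat_lit 11) (.u (nat_lit 2) (.n (nat_lit 0) (nat_lit 1) (.p (nat_lit 1) (nat_lit 1) (.n (nat_lit 2) (nat_lit 1) (.p (nat_lit 3) (nat_lit 1) (.n (nat_lit 4) (nat_lit 3) (.p (nat_lit 5) (nat_lit 1) (.p (nat_lit 8) (nat_lit 2) (.n (nat_lit 9) (nat_lit 2) (.p (nat_lit 11) (nat_lit 1) (.n (nat_lit 12) (nat_lit 1) (.n (nat_lit 14) (nat_lit 1) (.n (nat_lit 15) (nat_lit 2) (.p (nat_lit 18) (nat_lit 2) (.n (nat_lit 21) (nat_lit 1) (.n (nat_lit 22) (nat_lit 1) (.p (nat_lit 23) (nat_lit 1) (.p (nat_lit 27) (nat_lit 1) (.p (nat_lit 28) (nat_lit 1) (.p (nat_lit 29) (nat_lit 1) .z))))))))))))))))))) .nil))))))))))))) .leaf) (nat_lit 197634) (nat_lit 833) (.p (nat_lit 340) (nat_lit 1) .z) .df .leaf) (nat_lit 197635) (nat_lit 1199) (.p (nat_lit 355) (nat_lit 2) (.n (nat_lit 356) (nat_lit 3) (.n (nat_lit 357) (nat_lit 1) (.p (nat_lit 358) (nat_lit 2) (.p (nat_lit 359) (nat_lit 3) (.p (nat_lit 360) (nat_lit 1) (.p (nat_lit 361) (nat_lit 3) (.n (nat_lit 362) (nat_lit 3) (.p (nat_lit 363) (nat_lit 2) (.n (nat_lit 364) (nat_lit 1) (.n (nat_lit 367) (nat_lit 2) (.n (nat_lit 369) (nat_lit 1) (.p (nat_lit 370) (nat_lit 1) (.n (nat_lit 374) (nat_lit 1) (.p (nat_lit 375) (nat_lit 1) (.p (nat_lit 377) (nat_lit 2) (.p (nat_lit 381) (nat_lit 1) (.p (nat_lit 382) (nat_lit 2) (.n (nat_lit 383) (nat_lit 2) (.n (nat_lit 385) (nat_lit 2) (.p (nat_lit 386) (nat_lit 2) (.n (nat_lit 387) (nat_lit 3) (.p (nat_lit 389) (nat_lit 1) (.n (nat_lit 390) (nat_lit 3) (.n (nat_lit 391) (nat_lit 3) (.p (nat_lit 392) (nat_lit 1) (.p (nat_lit 393) (nat_lit 1) (.p (nat_lit 394) (nat_lit 3) (.n (nat_lit 395) (nat_lit 1) (.n (nat_lit 396) (nat_lit 2) (.n (nat_lit 402) (nat_lit 2) .z))))))))))))))))))))))))))))))) (.ct dC1d_c548 (nat_lit 1) (nat_lit 16) (.s true (nat_lit 1) (nat_lit 18) (nat_lit 0) (nat_lit 11) (nat_lit 1) true (nat_lit 16) true (nat_lit 18) true (nat_lit 5) true (nat_lit 19) true (nat_lit 9) (.e false (nat_lit 1) (nat_lit 189) (nat_lit 3) (nat_lit 16) (.e false (nat_lit 1) (nat_lit 260) (nat_lit 1) (nat_lit 18) (.e true (nat_lit 2) (nat_lit 261) (nat_lit 1) (nat_lit 18) (.e true (nat_lit 3) (nat_lit 262) (nat_lit 1) (nat_lit 18) (.e false (nat_lit 3) (nat_lit 263) (nat_lit 1) (nat_lit 18) dC1d_i107))))))) (.nd (.nd .leaf (nat_lit 197636) (nat_lit 1289) (.n (nat_lit 426) (nat_lit 2) (.p (nat_lit 427) (nat_lit 2) (.p (nat_lit 428) (nat_lit 2) (.p (nat_lit 429) (nat_lit 2) (.n (nat_lit 432) (nat_lit 2) (.n (nat_lit 433) (nat_lit 2) (.n (nat_lit 434) (nat_lit 2) (.n (nat_lit 435) (nat_lit 3) (.n (nat_lit 436) (nat_lit 1) (.n (nat_lit 438) (nat_lit 1) (.n (nat_lit 439) (nat_lit 2) (.p (nat_lit 441) (nat_lit 3) (.p (nat_lit 442) (nat_lit 1) (.n (nat_lit 443) (nat_lit 3) (.p (nat_lit 444) (nat_lit 1) (.p (nat_lit 445) (nat_lit 1) (.p (nat_lit 456) (nat_lit 3) (.n (nat_lit 458) (nat_lit 2) (.p (nat_lit 459) (nat_lit 2) .z))))))))))))))))))) (.ct dC1d_c533 (nat_lit 1) (nat_lit 11) (.s true (nat_lit 2) (nat_lit 15) (nat_lit 2) (nat_lit 2) (nat_lit 11) true (nat_lit 0) true (nat_lit 6) true (nat_lit 5) true (nat_lit 13) true (nat_lit 13) (.s true (nat_lit 1) (nat_lit 15) (nat_lit 11) (nat_lit 2) (nat_lit 2) true (nat_lit 0) true (nat_lit 13) true (nat_lit 5) true (nat_lit 6) true (nat_lit 13) (.s false (nat_lit 2) (nat_lit 18) (nat_lit 2) (nat_lit 11) (nat_lit 0) true (nat_lit 11) true (nat_lit 15) true (nat_lit 3) true (nat_lit 13) true (nat_lit 6) (.s true (nat_lit 3) (nat_lit 32) (nat_lit 0) (nat_lit 6) (nat_lit 2) true (nat_lit 11) true (nat_lit 13) true (nat_lit 0) true (nat_lit 15) true (nat_lit 9) (.e false (nat_lit 2) (nat_lit 91) (nat_lit 15) (nat_lit 5) (.e false (nat_lit 2) (nat_lit 261) (nat_lit 2) (nat_lit 13) (.e false (nat_lit 3) (nat_lit 263) (nat_lit 2) (nat_lit 13) (.e true (nat_lit 3) (nat_lit 264) (nat_lit 2) (nat_lit 13) dC1d_i108))))))))) .leaf) (nat_lit 197637) (nat_lit 1436) (.p (nat_lit 460) (nat_lit 2) (.p (nat_lit 461) (nat_lit 2) (.n (nat_lit 462) (nat_lit 3) (.p (nat_lit 463) (nat_lit 3) (.p (nat_lit 464) (nat_lit 3) (.n (nat_lit 465) (nat_lit 2) (.n (nat_lit 467) (nat_lit 1) (.n (nat_lit 468) (nat_lit 2) (.n (nat_lit 470) (nat_lit 1) (.p (nat_lit 471) (nat_lit 1) (.n (nat_lit 472) (nat_lit 1) (.p (nat_lit 475) (nat_lit 1) (.p (nat_lit 476) (nat_lit 2) (.p (nat_lit 477) (nat_lit 1) (.n (nat_lit 479) (nat_lit 1) (.n (nat_lit 489) (nat_lit 2) (.n (nat_lit 490) (nat_lit 2) (.p (nat_lit 493) (nat_lit 1) .z)))))))))))))))))) (.ct dC1d_c293 (nat_lit 1) (nat_lit 10) (.s true (nat_lit 1) (nat_lit 6) (nat_lit 3) (nat_lit 6) (nat_lit 5) true (nat_lit 2) true (nat_lit 10) true (nat_lit 9) true (nat_lit 12) true (nat_lit 9) (.s true (nat_lit 2) (nat_lit 10) (nat_lit 1) (nat_lit 6) (nat_lit 6) true (nat_lit 4) true (nat_lit 9) true (nat_lit 7) true (nat_lit 14) true (nat_lit 9) (.s false (nat_lit 3) (nat_lit 11) (nat_lit 1) (nat_lit 6) (nat_lit 6) true (nat_lit 4) true (nat_lit 9) true (nat_lit 7) true (nat_lit 14) true (nat_lit 9) (.s true (nat_lit 2) (nat_lit 12) (nat_lit 1) (nat_lit 6) (nat_lit 6) true (nat_lit 4) true (nat_lit 9) true (nat_lit 7) true (nat_lit 14) true (nat_lit 9) (.s false (nat_lit 2) (nat_lit 10) (nat_lit 2) (nat_lit 5) (nat_lit 6) true (nat_lit 3) true (nat_lit 9) true (nat_lit 7) true (nat_lit 13) true (nat_lit 10) (.s false (nat_lit 2) (nat_lit 12) (nat_lit 2) (nat_lit 6) (nat_lit 5) true (nat_lit 4) true (nat_lit 10) true (nat_lit 7) true (nat_lit 13) true (nat_lit 9) (.s true (nat_lit 1) (nat_lit 11) (nat_lit 5) (nat_lit 6) (nat_lit 2) true (nat_lit 4) true (nat_lit 13) true (nat_lit 7) true (nat_lit 10) true (nat_lit 9) (.s false (nat_lit 1) (nat_lit 12) (nat_lit 5) (nat_lit 6) (nat_lit 2) true (nat_lit 4) true (nat_lit 13) true (nat_lit 7) true (nat_lit 10) true (nat_lit 9) (.s true (nat_lit 1) (nat_lit 11) (nat_lit 6) (nat_lit 2) (nat_lit 5) false (nat_lit 1) true (nat_lit 10) true (nat_lit 7) true (nat_lit 9) true (nat_lit 13) (.s true (nat_lit 3) (nat_lit 10) (nat_lit 6) (nat_lit 6) (nat_lit 1) true (nat_lit 4) true (nat_lit 14) true (nat_lit 7) true (nat_lit 9) true (nat_lit 9) dC1d_i113))))))))))) .leaf))) (nat_lit 198656) (nat_lit 655) (.n (nat_lit 260) (nat_lit 1) (.n (nat_lit 261) (nat_lit 3) (.p (nat_lit 262) (nat_lit 1) (.n (nat_lit 263) (nat_lit 2) (.n (nat_lit 264) (nat_lit 2) (.p (nat_lit 267) (nat_lit 2) (.p (nat_lit 268) (nat_lit 3) (.p (nat_lit 269) (nat_lit 1) (.p (nat_lit 270) (nat_lit 2) (.p (nat_lit 271) (nat_lit 2) (.n (nat_lit 273) (nat_lit 3) (.n (nat_lit 274) (nat_lit 2) (.p (nat_lit 277) (nat_lit 3) (.p (nat_lit 278) (nat_lit 3) (.n (nat_lit 279) (nat_lit 1) (.n (nat_lit 281) (nat_lit 1) (.n (nat_lit 283) (nat_lit 2) (.p (nat_lit 284) (nat_lit 2) (.p (nat_lit 286) (nat_lit 1) (.n (nat_lit 287) (nat_lit 2) (.p (nat_lit 289) (nat_lit 1) .z))))))))))))))))))))) (.ct dC1d_c532 (nat_lit 1) (nat_lit 12) (.s true (nat_lit 1) (nat_lit 46) (nat_lit 1) (nat_lit 0) (nat_lit 0) true (nat_lit 9) true (nat_lit 12) false (nat_lit 5) true (nat_lit 11) true (nat_lit 12) (.e false (nat_lit 1) (nat_lit 99) (nat_lit 3) (nat_lit 9) (.e true (nat_lit 1) (nat_lit 101) (nat_lit 3) (nat_lit 9) (.e false (nat_lit 2) (nat_lit 180) (nat_lit 0) (nat_lit 12) (.e true (nat_lit 1) (nat_lit 182) (nat_lit 0) (nat_lit 12) (.e true (nat_lit 1) (nat_lit 183) (nat_lit 0) (nat_lit 12) (.e false (nat_lit 1) (nat_lit 185) (nat_lit 0) (nat_lit 12) (.e true (nat_lit 2) (nat_lit 188) (nat_lit 0) (nat_lit 12) (.e false (nat_lit 2) (nat_lit 190) (nat_lit 0) (nat_lit 12) (.e false (nat_lit 2) (nat_lit 192) (nat_lit 0) (nat_lit 12) (.e true (nat_lit 2) (nat_lit 189) (nat_lit 0) (nat_lit 12) (.e false (nat_lit 1) (nat_lit 46) (nat_lit 7) (nat_lit 5) (.e false (nat_lit 1) (nat_lit 181) (nat_lit 0) (nat_lit 12) (.e false (nat_lit 1) (nat_lit 193) (nat_lit 0) (nat_lit 12) (.u (nat_lit 2) (.n (nat_lit 2) (nat_lit 1) (.p (nat_lit 4) (nat_lit 1) (.p (nat_lit 5) (nat_lit 1) (.n (nat_lit 7) (nat_lit 2) (.n (nat_lit 8) (nat_lit 1) (.p (nat_lit 9) (nat_lit 1) (.p (nat_lit 10) (nat_lit 1) (.p (nat_lit 11) (nat_lit 2) (.n (nat_lit 12) (nat_lit 3) (.p (nat_lit 14) (nat_lit 1) (.n (nat_lit 17) (nat_lit 1) (.p (nat_lit 19) (nat_lit 1) (.p (nat_lit 20) (nat_lit 1) (.n (nat_lit 26) (nat_lit 1) (.n (nat_lit 28) (nat_lit 1) .z))))))))))))))) .nil)))))))))))))))) (.nd (.nd (.nd (.nd .leaf (nat_lit 198657) (nat_lit 771) (.p (nat_lit 290) (nat_lit 3) (.n (nat_lit 291) (nat_lit 2) (.n (nat_lit 292) (nat_lit 2) (.p (nat_lit 293) (nat_lit 3) (.p (nat_lit 294) (nat_lit 1) (.n (nat_lit 295) (nat_lit 2) (.n (nat_lit 296) (nat_lit 1) (.p (nat_lit 297) (nat_lit 1) (.p (nat_lit 298) (nat_lit 2) (.p (nat_lit 299) (nat_lit 1) (.n (nat_lit 300) (nat_lit 3) (.p (nat_lit 301) (nat_lit 2) (.n (nat_lit 302) (nat_lit 2) (.n (nat_lit 304) (nat_lit 3) (.p (nat_lit 305) (nat_lit 1) (.n (nat_lit 307) (nat_lit 3) (.p (nat_lit 308) (nat_lit 2) (.p (nat_lit 310) (nat_lit 1) (.p (nat_lit 312) (nat_lit 2) (.n (nat_lit 316) (nat_lit 2) (.p (nat_lit 317) (nat_lit 3) (.n (nat_lit 318) (nat_lit 3) (.n (nat_lit 319) (nat_lit 2) .z))))))))))))))))))))))) (.ct dC1d_c292 (nat_lit 1) (nat_lit 11) (.s false (nat_lit 1) (nat_lit 33) (nat_lit 1) (nat_lit 2) (nat_lit 2) true (nat_lit 7) true (nat_lit 10) false (nat_lit 1) true (nat_lit 11) true (nat_lit 10) (.e false (nat_lit 1) (nat_lit 84) (nat_lit 5) (nat_lit 7) (.e false (nat_lit 1) (nat_lit 158) (nat_lit 2) (nat_lit 10) (.e false (nat_lit 3) (nat_lit 162) (nat_lit 2) (nat_lit 10) (.e false (nat_lit 1) (nat_lit 33) (nat_lit 16) (nat_lit 1) (.e false (nat_lit 1) (nat_lit 153) (nat_lit 2) (nat_lit 10) (.e true (nat_lit 2) (nat_lit 155) (nat_lit 2) (nat_lit 10) (.e false (nat_lit 2) (nat_lit 156) (nat_lit 2) (nat_lit 10) (.e true (nat_lit 2) (nat_lit 157) (nat_lit 2) (nat_lit 10) (.e true (nat_lit 3) (nat_lit 159) (nat_lit 2) (nat_lit 10) (.e false (nat_lit 3) (nat_lit 160) (nat_lit 2) (nat_lit 10) (.e false (nat_lit 3) (nat_lit 161) (nat_lit 2) (nat_lit 10) (.e true (nat_lit 1) (nat_lit 163) (nat_lit 2) (nat_lit 10) (.e false (nat_lit 1) (nat_lit 164) (nat_lit 2) (nat_lit 10) (.e false (nat_lit 1) (nat_lit 165) (nat_lit 2) (nat_lit 10) (.e true (nat_lit 2) (nat_lit 167) (nat_lit 2) (nat_lit 10) (.e false (nat_lit 1) (nat_lit 170) (nat_lit 2) (nat_lit 10) (.e false (nat_lit 3) (nat_lit 171) (nat_lit 2) (nat_lit 10) (.e false (nat_lit 1) (nat_lit 173) (nat_lit 2) (nat_lit 10) (.u (nat_lit 2) (.p (nat_lit 10) (nat_lit 1) (.n (nat_lit 11) (nat_lit 1) (.p (nat_lit 12) (nat_lit 1) (.p (nat_lit 17) (nat_lit 1) (.p (nat_lit 26) (nat_lit 1) (.n (nat_lit 105) (nat_lit 1) .z)))))) .nil))))))))))))))))))))) .leaf) (nat_lit 198658) (nat_lit 834) (.p (nat_lit 341) (nat_lit 1) .z) .df .leaf) (nat_lit 198660) (nat_lit 1358) (.p (nat_lit 426) (nat_lit 1) (.n (nat_lit 427) (nat_lit 2) (.n (nat_lit 428) (nat_lit 1) (.n (nat_lit 429) (nat_lit 2) (.n (nat_lit 430) (nat_lit 2) (.n (nat_lit 432) (nat_lit 1) (.n (nat_lit 433) (nat_lit 1) (.n (nat_lit 434) (nat_lit 3) (.p (nat_lit 435) (nat_lit 1) (.n (nat_lit 436) (nat_lit 3) (.n (nat_lit 439) (nat_lit 2) (.p (nat_lit 440) (nat_lit 2) (.n (nat_lit 441) (nat_lit 2) (.p (nat_lit 442) (nat_lit 1) (.p (nat_lit 443) (nat_lit 1) (.n (nat_lit 444) (nat_lit 3) (.n (nat_lit 446) (nat_lit 1) (.p (nat_lit 448) (nat_lit 2) (.n (nat_lit 451) (nat_lit 3) (.p (nat_lit 454) (nat_lit 3) (.p (nat_lit 456) (nat_lit 1) (.n (nat_lit 458) (nat_lit 2) (.n (nat_lit 459) (nat_lit 1) .z))))))))))))))))))))))) (.ct dC1d_c533 (nat_lit 1) (nat_lit 11) (.s false (nat_lit 1) (nat_lit 33) (nat_lit 2) (nat_lit 6) (nat_lit 0) true (nat_lit 11) true (nat_lit 15) true (nat_lit 0) true (nat_lit 13) true (nat_lit 9) (.e false (nat_lit 1) (nat_lit 346) (nat_lit 0) (nat_lit 15) (.e true (nat_lit 1) (nat_lit 42) (nat_lit 33) (nat_lit 0) (.e false (nat_lit 3) (nat_lit 260) (nat_lit 2) (nat_lit 13) (.e false (nat_lit 3) (nat_lit 261) (nat_lit 2) (nat_lit 13) (.e true (nat_lit 3) (nat_lit 262) (nat_lit 2) (nat_lit 13) (.e false (nat_lit 2) (nat_lit 263) (nat_lit 2) (nat_lit 13) (.e true (nat_lit 3) (nat_lit 264) (nat_lit 2) (nat_lit 13) (.e true (nat_lit 2) (nat_lit 265) (nat_lit 2) (nat_lit 13) (.e true (nat_lit 1) (nat_lit 266) (nat_lit 2) (nat_lit 13) (.e true (nat_lit 1) (nat_lit 267) (nat_lit 2) (nat_lit 13) (.e false (nat_lit 1) (nat_lit 268) (nat_lit 2) (nat_lit 13) (.e true (nat_lit 3) (nat_lit 269) (nat_lit 2) (nat_lit 13) dC1d_i114)))))))))))))) (.nd (.nd .leaf (nat_lit 198661) (nat_lit 1504) (.n (nat_lit 460) (nat_lit 3) (.p (nat_lit 461) (nat_lit 2) (.p (nat_lit 462) (nat_lit 2) (.n (nat_lit 463) (nat_lit 1) (.p (nat_lit 466) (nat_lit 1) (.n (nat_lit 467) (nat_lit 1) (.n (nat_lit 468) (nat_lit 2) (.p (nat_lit 469) (nat_lit 2) (.n (nat_lit 470) (nat_lit 3) (.p (nat_lit 471) (nat_lit 2) (.n (nat_lit 472) (nat_lit 2) (.p (nat_lit 473) (nat_lit 1) (.n (nat_lit 474) (nat_lit 3) (.n (nat_lit 475) (nat_lit 3) (.n (nat_lit 476) (nat_lit 1) (.n (nat_lit 477) (nat_lit 3) (.p (nat_lit 478) (nat_lit 2) (.p (nat_lit 479) (nat_lit 2) (.n (nat_lit 480) (nat_lit 2) (.p (nat_lit 481) (nat_lit 2) (.n (nat_lit 483) (nat_lit 3) (.p (nat_lit 486) (nat_lit 3) (.p (nat_lit 489) (nat_lit 3) (.n (nat_lit 490) (nat_lit 2) (.n (nat_lit 493) (nat_lit 2) .z))))))))))))))))))))))))) (.ct dC1d_c293 (nat_lit 1) (nat_lit 10) (.s false (nat_lit 1) (nat_lit 46) (nat_lit 0) (nat_lit 5) (nat_lit 1) true (nat_lit 12) true (nat_lit 14) false (nat_lit 2) true (nat_lit 15) true (nat_lit 10) (.e false (nat_lit 1) (nat_lit 209) (nat_lit 3) (nat_lit 12) (.e true (nat_lit 1) (nat_lit 210) (nat_lit 3) (nat_lit 12) (.e false (nat_lit 1) (nat_lit 211) (nat_lit 3) (nat_lit 12) (.e false (nat_lit 2) (nat_lit 328) (nat_lit 1) (nat_lit 14) (.e true (nat_lit 2) (nat_lit 330) (nat_lit 1) (nat_lit 14) dC1d_i115))))))) .leaf) (nat_lit 199680) (nat_lit 631) (.p (nat_lit 260) (nat_lit 3) (.p (nat_lit 261) (nat_lit 2) (.p (nat_lit 262) (nat_lit 3) (.n (nat_lit 263) (nat_lit 1) (.n (nat_lit 265) (nat_lit 1) (.n (nat_lit 266) (nat_lit 1) (.n (nat_lit 267) (nat_lit 1) (.p (nat_lit 270) (nat_lit 3) (.p (nat_lit 271) (nat_lit 3) (.p (nat_lit 272) (nat_lit 2) (.p (nat_lit 273) (nat_lit 1) (.n (nat_lit 274) (nat_lit 2) (.n (nat_lit 275) (nat_lit 1) (.p (nat_lit 276) (nat_lit 1) (.n (nat_lit 277) (nat_lit 1) (.n (nat_lit 278) (nat_lit 1) (.n (nat_lit 280) (nat_lit 3) (.p (nat_lit 281) (nat_lit 1) (.n (nat_lit 282) (nat_lit 3) (.p (nat_lit 283) (nat_lit 1) (.n (nat_lit 284) (nat_lit 1) (.n (nat_lit 286) (nat_lit 3) (.n (nat_lit 287) (nat_lit 3) (.n (nat_lit 288) (nat_lit 2) (.p (nat_lit 289) (nat_lit 3) .z))))))))))))))))))))))))) (.ct dC1d_c532 (nat_lit 1) (nat_lit 12) (.s false (nat_lit 3) (nat_lit 6) (nat_lit 3) (nat_lit 2) (nat_lit 4) false (nat_lit 0) true (nat_lit 8) true (nat_lit 6) true (nat_lit 9) true (nat_lit 10) (.s true (nat_lit 1) (nat_lit 14) (nat_lit 1) (nat_lit 2) (nat_lit 4) true (nat_lit 3) true (nat_lit 8) true (nat_lit 2) true (nat_lit 11) true (nat_lit 10) (.s false (nat_lit 1) (nat_lit 14) (nat_lit 1) (nat_lit 4) (nat_lit 2) true (nat_lit 7) true (nat_lit 10) true (nat_lit 2) true (nat_lit 11) true (nat_lit 8) (.s false (nat_lit 3) (nat_lit 15) (nat_lit 1) (nat_lit 6) (nat_lit 0) true (nat_lit 9) true (nat_lit 12) true (nat_lit 2) true (nat_lit 11) true (nat_lit 6) (.s false (nat_lit 1) (nat_lit 15) (nat_lit 3) (nat_lit 2) (nat_lit 2) true (nat_lit 3) true (nat_lit 10) true (nat_lit 2) true (nat_lit 9) true (nat_lit 10) (.s false (nat_lit 1) (nat_lit 18) (nat_lit 0) (nat_lit 2) (nat_lit 3) true (nat_lit 5) true (nat_lit 9) true (nat_lit 0) true (nat_lit 12) true (nat_lit 10) (.s true (nat_lit 1) (nat_lit 18) (nat_lit 0) (nat_lit 5) (nat_lit 0) false (nat_lit 13) true (nat_lit 12) true (nat_lit 0) true (nat_lit 12) true (nat_lit 7) (.s false (nat_lit 3) (nat_lit 23) (nat_lit 2) (nat_lit 2) (nat_lit 2) true (nat_lit 6) true (nat_lit 10) false (nat_lit 0) true (nat_lit 10) true (nat_lit 10) (.s false (nat_lit 3) (nat_lit 35) (nat_lit 0) (nat_lit 2) (nat_lit 2) true (nat_lit 8) true (nat_lit 10) false (nat_lit 2) true (nat_lit 12) true (nat_lit 10) (.s false (nat_lit 1) (nat_lit 36) (nat_lit 0) (nat_lit 2) (nat_lit 2) true (nat_lit 8) true (nat_lit 10) false (nat_lit 2) true (nat_lit 12) true (nat_lit 10) (.s true (nat_lit 3) (nat_lit 35) (nat_lit 2) (nat_lit 0) (nat_lit 2) true (nat_lit 6) true (nat_lit 10) false (nat_lit 2) true (nat_lit 10) true (nat_lit 12) (.s true (nat_lit 3) (nat_lit 33) (nat_lit 2) (nat_lit 2) (nat_lit 0) true (nat_lit 8) true (nat_lit 12) false (nat_lit 2) true (nat_lit 10) true (nat_lit 10) (.s true (nat_lit 3) (nat_lit 34) (nat_lit 2) (nat_lit 2) (nat_lit 0) true (nat_lit 8) true (nat_lit 12) false (nat_lit 2) true (nat_lit 10) true (nat_lit 10) (.s true (nat_lit 3) (nat_lit 35) (nat_lit 2) (nat_lit 2) (nat_lit 0) true (nat_lit 8) true (nat_lit 12) false (nat_lit 2) true (nat_lit 10) true (nat_lit 10) (.s false (nat_lit 3) (nat_lit 36) (nat_lit 2) (nat_lit 2) (nat_lit 0) true (nat_lit 8) true (nat_lit 12) false (nat_lit 2) true (nat_lit 10) true (nat_lit 10) dC1d_i117)))))))))))))))) .leaf)) (nat_lit 199681) (nat_lit 707) (.p (nat_lit 315) (nat_lit 1) .z) .df (.nd (.nd (.nd .leaf (nat_lit 199682) (nat_lit 848) (.p (nat_lit 328) (nat_lit 3) (.n (nat_lit 329) (nat_lit 2) (.p (nat_lit 330) (nat_lit 2) (.n (nat_lit 331) (nat_lit 2) (.n (nat_lit 332) (nat_lit 3) (.p (nat_lit 333) (nat_lit 3) (.n (nat_lit 334) (nat_lit 3) (.n (nat_lit 335) (nat_lit 2) (.n (nat_lit 336) (nat_lit 3) (.p (nat_lit 337) (nat_lit 3) (.n (nat_lit 338) (nat_lit 3) (.p (nat_lit 339) (nat_lit 1) (.p (nat_lit 340) (nat_lit 1) .z))))))))))))) (.ct dC1d_c277 (nat_lit 1) (nat_lit 8) (.s false (nat_lit 3) (nat_lit 6) (nat_lit 4) (nat_lit 2) (nat_lit 5) false (nat_lit 0) true (nat_lit 5) true (nat_lit 4) true (nat_lit 6) true (nat_lit 8) (.s false (nat_lit 1) (nat_lit 10) (nat_lit 2) (nat_lit 2) (nat_lit 6) true (nat_lit 0) true (nat_lit 4) true (nat_lit 3) true (nat_lit 8) true (nat_lit 8) (.s false (nat_lit 2) (nat_lit 15) (nat_lit 5) (nat_lit 2) (nat_lit 2) true (nat_lit 1) true (nat_lit 8) true (nat_lit 2) true (nat_lit 5) true (nat_lit 8) (.s true (nat_lit 2) (nat_lit 16) (nat_lit 0) (nat_lit 2) (nat_lit 6) true (nat_lit 2) true (nat_lit 4) true (nat_lit 1) true (nat_lit 10) true (nat_lit 8) (.s true (nat_lit 3) (nat_lit 16) (nat_lit 2) (nat_lit 2) (nat_lit 4) true (nat_lit 2) true (nat_lit 6) true (nat_lit 1) true (nat_lit 8) true (nat_lit 8) (.s false (nat_lit 3) (nat_lit 17) (nat_lit 2) (nat_lit 2) (nat_lit 4) true (nat_lit 2) true (nat_lit 6) true (nat_lit 1) true (nat_lit 8) true (nat_lit 8) (.s true (nat_lit 3) (nat_lit 16) (nat_lit 2) (nat_lit 4) (nat_lit 2) true (nat_lit 4) true (nat_lit 8) true (nat_lit 1) true (nat_lit 8) true (nat_lit 6) (.s false (nat_lit 3) (nat_lit 16) (nat_lit 4) (nat_lit 2) (nat_lit 2) true (nat_lit 2) true (nat_lit 8) true (nat_lit 1) true (nat_lit 6) true (nat_lit 8) (.s false (nat_lit 3) (nat_lit 17) (nat_lit 6) (nat_lit 0) (nat_lit 2) true (nat_lit 0) true (nat_lit 8) true (nat_lit 1) true (nat_lit 4) true (nat_lit 10) (.s true (nat_lit 2) (nat_lit 18) (nat_lit 0) (nat_lit 2) (nat_lit 5) true (nat_lit 3) true (nat_lit 5) true (nat_lit 0) true (nat_lit 10) true (nat_lit 8) (.s false (nat_lit 2) (nat_lit 18) (nat_lit 0) (nat_lit 5) (nat_lit 2) true (nat_lit 6) true (nat_lit 8) true (nat_lit 0) true (nat_lit 10) true (nat_lit 5) (.s false (nat_lit 1) (nat_lit 18) (nat_lit 0) (nat_lit 6) (nat_lit 1) true (nat_lit 7) true (nat_lit 9) true (nat_lit 0) true (nat_lit 10) true (nat_lit 4) (.s true (nat_lit 2) (nat_lit 18) (nat_lit 1) (nat_lit 2) (nat_lit 4) true (nat_lit 3) true (nat_lit 6) true (nat_lit 0) true (nat_lit 9) true (nat_lit 8) (.s true (nat_lit 3) (nat_lit 18) (nat_lit 2) (nat_lit 0) (nat_lit 5) true (nat_lit 1) true (nat_lit 5) true (nat_lit 0) true (nat_lit 8) true (nat_lit 10) (.s false (nat_lit 1) (nat_lit 18) (nat_lit 5) (nat_lit 2) (nat_lit 0) true (nat_lit 3) true (nat_lit 10) true (nat_lit 0) true (nat_lit 5) true (nat_lit 8) (.s true (nat_lit 3) (nat_lit 34) (nat_lit 2) (nat_lit 2) (nat_lit 2) true (nat_lit 4) true (nat_lit 8) false (nat_lit 0) true (nat_lit 8) true (nat_lit 8) (.s false (nat_lit 1) (nat_lit 35) (nat_lit 2) (nat_lit 2) (nat_lit 2) true (nat_lit 4) true (nat_lit 8) false (nat_lit 0) true (nat_lit 8) true (nat_lit 8) (.s true (nat_lit 1) (nat_lit 36) (nat_lit 2) (nat_lit 2) (nat_lit 2) true (nat_lit 4) true (nat_lit 8) false (nat_lit 0) true (nat_lit 8) true (nat_lit 8) (.s true (nat_lit 1) (nat_lit 42) (nat_lit 1) (nat_lit 2) (nat_lit 2) true (nat_lit 5) true (nat_lit 8) false (nat_lit 1) true (nat_lit 9) true (nat_lit 8) (.s true (nat_lit 3) (nat_lit 42) (nat_lit 2) (nat_lit 2) (nat_lit 1) true (nat_lit 5) true (nat_lit 9) false (nat_lit 1) true (nat_lit 8) true (nat_lit 8) (.s true (nat_lit 3) (nat_lit 44) (nat_lit 0) (nat_lit 2) (nat_lit 2) true (nat_lit 6) true (nat_lit 8) false (nat_lit 2) true (nat_lit 10) true (nat_lit 8) (.s true (nat_lit 3) (nat_lit 45) (nat_lit 0) (nat_lit 2) (nat_lit 2) true (nat_lit 6) true (nat_lit 8) false (nat_lit 2) true (nat_lit 10) true (nat_lit 8) (.s true (nat_lit 3) (nat_lit 45) (nat_lit 2) (nat_lit 0) (nat_lit 2) true (nat_lit 4) true (nat_lit 8) false (nat_lit 2) true (nat_lit 8) true (nat_lit 10) (.s true (nat_lit 2) (nat_lit 46) (nat_lit 2) (nat_lit 0) (nat_lit 1) true (nat_lit 5) true (nat_lit 9) false (nat_lit 3) true (nat_lit 8) true (nat_lit 10) dC1d_i118))))))))))))))))))))))))) .leaf) (nat_lit 199683) (nat_lit 1097) (.p (nat_lit 355) (nat_lit 1) (.n (nat_lit 356) (nat_lit 3) (.n (nat_lit 357) (nat_lit 2) (.n (nat_lit 358) (nat_lit 1) (.p (nat_lit 359) (nat_lit 2) (.n (nat_lit 361) (nat_lit 3) (.p (nat_lit 362) (nat_lit 3) (.n (nat_lit 363) (nat_lit 1) (.n (nat_lit 365) (nat_lit 1) (.n (nat_lit 366) (nat_lit 3) (.n (nat_lit 367) (nat_lit 1) (.n (nat_lit 369) (nat_lit 3) (.n (nat_lit 370) (nat_lit 3) (.p (nat_lit 372) (nat_lit 1) (.n (nat_lit 373) (nat_lit 2) (.n (nat_lit 374) (nat_lit 2) (.p (nat_lit 375) (nat_lit 1) (.p (nat_lit 380) (nat_lit 1) (.n (nat_lit 381) (nat_lit 3) (.p (nat_lit 382) (nat_lit 3) (.p (nat_lit 383) (nat_lit 2) (.p (nat_lit 384) (nat_lit 3) (.n (nat_lit 385) (nat_lit 1) (.p (nat_lit 387) (nat_lit 3) (.n (nat_lit 388) (nat_lit 2) (.p (nat_lit 389) (nat_lit 2) (.n (nat_lit 390) (nat_lit 1) (.n (nat_lit 391) (nat_lit 3) (.n (nat_lit 392) (nat_lit 1) (.p (nat_lit 393) (nat_lit 3) (.n (nat_lit 394) (nat_lit 3) (.p (nat_lit 395) (nat_lit 3) (.p (nat_lit 396) (nat_lit 2) (.p (nat_lit 397) (nat_lit 1) (.n (nat_lit 398) (nat_lit 1) (.p (nat_lit 399) (nat_lit 3) (.p (nat_lit 400) (nat_lit 3) (.n (nat_lit 401) (nat_lit 1) (.p (nat_lit 402) (nat_lit 1) .z))))))))))))))))))))))))))))))))))))))) (.ct dC1d_c548 (nat_lit 1) (nat_lit 16) (.s true (nat_lit 1) (nat_lit 14) (nat_lit 13) (nat_lit 2) (nat_lit 0) true (nat_lit 2) true (nat_lit 19) true (nat_lit 7) true (nat_lit 8) true (nat_lit 17) (.s false (nat_lit 1) (nat_lit 40) (nat_lit 1) (nat_lit 5) (nat_lit 0) true (nat_lit 16) true (nat_lit 19) false (nat_lit 2) true (nat_lit 18) true (nat_lit 14) (.e true (nat_lit 1) (nat_lit 290) (nat_lit 0) (nat_lit 19) (.e true (nat_lit 1) (nat_lit 291) (nat_lit 0) (nat_lit 19) (.e true (nat_lit 3) (nat_lit 293) (nat_lit 0) (nat_lit 19) (.e false (nat_lit 2) (nat_lit 294) (nat_lit 0) (nat_lit 19) (.e false (nat_lit 3) (nat_lit 295) (nat_lit 0) (nat_lit 19) (.e true (nat_lit 2) (nat_lit 296) (nat_lit 0) (nat_lit 19) (.e false (nat_lit 3) (nat_lit 297) (nat_lit 0) (nat_lit 19) (.e false (nat_lit 1) (nat_lit 299) (nat_lit 0) (nat_lit 19) (.e false (nat_lit 3) (nat_lit 300) (nat_lit 0) (nat_lit 19) dC1d_i120)))))))))))) .leaf) (nat_lit 199684) (nat_lit 1366) (.n (nat_lit 426) (nat_lit 1) (.n (nat_lit 428) (nat_lit 3) (.n (nat_lit 429) (nat_lit 3) (.p (nat_lit 430) (nat_lit 3) (.n (nat_lit 431) (nat_lit 1) (.n (nat_lit 432) (nat_lit 3) (.n (nat_lit 433) (nat_lit 2) (.p (nat_lit 435) (nat_lit 3) (.n (nat_lit 436) (nat_lit 2) (.n (nat_lit 437) (nat_lit 3) (.p (nat_lit 439) (nat_lit 3) (.p (nat_lit 440) (nat_lit 3) (.p (nat_lit 441) (nat_lit 1) (.p (nat_lit 443) (nat_lit 2) (.n (nat_lit 444) (nat_lit 2) (.p (nat_lit 445) (nat_lit 1) (.n (nat_lit 446) (nat_lit 3) (.p (nat_lit 447) (nat_lit 3) (.n (nat_lit 448) (nat_lit 1) (.n (nat_lit 449) (nat_lit 3) (.p (nat_lit 450) (nat_lit 3) (.n (nat_lit 451) (nat_lit 1) (.n (nat_lit 452) (nat_lit 3) (.n (nat_lit 453) (nat_lit 3) (.p (nat_lit 454) (nat_lit 2) (.p (nat_lit 456) (nat_lit 2) (.p (nat_lit 457) (nat_lit 3) (.p (nat_lit 458) (nat_lit 1) .z)))))))))))))))))))))))))))) (.ct dC1d_c533 (nat_lit 1) (nat_lit 11) (.s true (nat_lit 1) (nat_lit 40) (nat_lit 0) (nat_lit 5) (nat_lit 2) true (nat_lit 11) true (nat_lit 13) false (nat_lit 0) true (nat_lit 15) true (nat_lit 10) (.e true (nat_lit 3) (nat_lit 260) (nat_lit 2) (nat_lit 13) (.e true (nat_lit 1) (nat_lit 262) (nat_lit 2) (nat_lit 13) (.e true (nat_lit 3) (nat_lit 263) (nat_lit 2) (nat_lit 13) (.e false (nat_lit 2) (nat_lit 264) (nat_lit 2) (nat_lit 13) (.e false (nat_lit 3) (nat_lit 265) (nat_lit 2) (nat_lit 13) (.e false (nat_lit 3) (nat_lit 266) (nat_lit 2) (nat_lit 13) (.e false (nat_lit 2) (nat_lit 267) (nat_lit 2) (nat_lit 13) (.e true (nat_lit 1) (nat_lit 268) (nat_lit 2) (nat_lit 13) (.e false (nat_lit 1) (nat_lit 269) (nat_lit 2) (nat_lit 13) (.e true (nat_lit 3) (nat_lit 270) (nat_lit 2) (nat_lit 13) (.e false (nat_lit 2) (nat_lit 271) (nat_lit 2) (nat_lit 13) (.e false (nat_lit 3) (nat_lit 272) (nat_lit 2) (nat_lit 13) (.e false (nat_lit 1) (nat_lit 273) (nat_lit 2) (nat_lit 13) (.e true (nat_lit 2) (nat_lit 274) (nat_lit 2) (nat_lit 13) dC1d_i121)))))))))))))))) (.nd (.nd .leaf (nat_lit 199685) (nat_lit 1543) (.p (nat_lit 460) (nat_lit 2) (.n (nat_lit 461) (nat_lit 3) (.n (nat_lit 462) (nat_lit 3) (.p (nat_lit 463) (nat_lit 3) (.p (nat_lit 464) (nat_lit 1) (.n (nat_lit 465) (nat_lit 2) (.p (nat_lit 468) (nat_lit 3) (.p (nat_lit 469) (nat_lit 1) (.n (nat_lit 470) (nat_lit 3) (.p (nat_lit 472) (nat_lit 2) (.p (nat_lit 474) (nat_lit 1) (.n (nat_lit 475) (nat_lit 3) (.p (nat_lit 476) (nat_lit 2) (.p (nat_lit 477) (nat_lit 2) (.n (nat_lit 479) (nat_lit 3) (.p (nat_lit 491) (nat_lit 1) (.p (nat_lit 492) (nat_lit 1) .z))))))))))))))))) (.ct dC1d_c293 (nat_lit 1) (nat_lit 10) (.s false (nat_lit 1) (nat_lit 101) (nat_lit 2) (nat_lit 1) (nat_lit 1) true (nat_lit 10) true (nat_lit 14) false (nat_lit 6) true (nat_lit 13) true (nat_lit 14) (.e true (nat_lit 2) (nat_lit 180) (nat_lit 5) (nat_lit 10) (.e true (nat_lit 1) (nat_lit 181) (nat_lit 5) (nat_lit 10) (.e false (nat_lit 1) (nat_lit 182) (nat_lit 5) (nat_lit 10) dC1d_i122))))) .leaf) (nat_lit 200704) (nat_lit 781) (.n (nat_lit 290) (nat_lit 3) (.p (nat_lit 291) (nat_lit 1) (.n (nat_lit 292) (nat_lit 1) (.n (nat_lit 294) (nat_lit 1) (.p (nat_lit 295) (nat_lit 2) (.n (nat_lit 296) (nat_lit 2) (.n (nat_lit 297) (nat_lit 3) (.p (nat_lit 298) (nat_lit 1) (.n (nat_lit 299) (nat_lit 3) (.n (nat_lit 300) (nat_lit 3) (.p (nat_lit 301) (nat_lit 2) (.p (nat_lit 302) (nat_lit 3) (.n (nat_lit 303) (nat_lit 2) (.n (nat_lit 304) (nat_lit 3) (.p (nat_lit 305) (nat_lit 2) (.p (nat_lit 306) (nat_lit 2) (.n (nat_lit 307) (nat_lit 1) (.n (nat_lit 309) (nat_lit 2) (.n (nat_lit 310) (nat_lit 2) (.p (nat_lit 311) (nat_lit 1) (.p (nat_lit 314) (nat_lit 1) (.n (nat_lit 315) (nat_lit 1) (.p (nat_lit 316) (nat_lit 1) (.p (nat_lit 317) (nat_lit 1) (.n (nat_lit 318) (nat_lit 3) (.n (nat_lit 319) (nat_lit 1) .z)))))))))))))))))))))))))) (.ct dC1d_c292 (nat_lit 1) (nat_lit 12) (.s true (nat_lit 1) (nat_lit 37) (nat_lit 2) (nat_lit 0) (nat_lit 2) true (nat_lit 6) true (nat_lit 10) false (nat_lit 2) true (nat_lit 10) true (nat_lit 12) (.e false (nat_lit 1) (nat_lit 73) (nat_lit 6) (nat_lit 6) (.e false (nat_lit 1) (nat_lit 37) (nat_lit 14) (nat_lit 2) (.e true (nat_lit 3) (nat_lit 153) (nat_lit 2) (nat_lit 10) (.e true (nat_lit 3) (nat_lit 154) (nat_lit 2) (nat_lit 10) (.e true (nat_lit 1) (nat_lit 156) (nat_lit 2) (nat_lit 10) (.e true (nat_lit 2) (nat_lit 157) (nat_lit 2) (nat_lit 10) (.e true (nat_lit 1) (nat_lit 158) (nat_lit 2) (nat_lit 10) (.e false (nat_lit 2) (nat_lit 159) (nat_lit 2) (nat_lit 10) (.e true (nat_lit 3) (nat_lit 160) (nat_lit 2) (nat_lit 10) (.e false (nat_lit 3) (nat_lit 161) (nat_lit 2) (nat_lit 10) (.e true (nat_lit 1) (nat_lit 162) (nat_lit 2) (nat_lit 10) (.e true (nat_lit 3) (nat_lit 163) (nat_lit 2) (nat_lit 10) (.e false (nat_lit 3) (nat_lit 164) (nat_lit 2) (nat_lit 10) (.e true (nat_lit 2) (nat_lit 165) (nat_lit 2) (nat_lit 10) (.e false (nat_lit 1) (nat_lit 168) (nat_lit 2) (nat_lit 10) (.e false (nat_lit 1) (nat_lit 170) (nat_lit 2) (nat_lit 10) (.e true (nat_lit 3) (nat_lit 171) (nat_lit 2) (nat_lit 10) (.e false (nat_lit 1) (nat_lit 172) (nat_lit 2) (nat_lit 10) (.e false (nat_lit 2) (nat_lit 173) (nat_lit 2) (nat_lit 10) (.u (nat_lit 2) (.n (nat_lit 1) (nat_lit 1) (.p (nat_lit 6) (nat_lit 1) (.p (nat_lit 9) (nat_lit 1) (.n (nat_lit 12) (nat_lit 1) (.p (nat_lit 17) (nat_lit 1) (.p (nat_lit 20) (nat_lit 1) (.n (nat_lit 26) (nat_lit 1) (.p (nat_lit 28) (nat_lit 1) .z)))))))) .nil)))))))))))))))))))))) .leaf)))) (nat_lit 200706) (nat_lit 887) (.p (nat_lit 347) (nat_lit 1) .z) .df (.nd (.nd (.nd (.nd (.nd .leaf (nat_lit 200708) (nat_lit 1552) (.n (nat_lit 460) (nat_lit 2) (.n (nat_lit 461) (nat_lit 2) (.p (nat_lit 462) (nat_lit 1) (.n (nat_lit 463) (nat_lit 3) (.n (nat_lit 464) (nat_lit 3) (.n (nat_lit 465) (nat_lit 3) (.n (nat_lit 467) (nat_lit 1) (.p (nat_lit 468) (nat_lit 3) (.n (nat_lit 469) (nat_lit 2) (.p (nat_lit 470) (nat_lit 3) (.p (nat_lit 471) (nat_lit 1) (.p (nat_lit 472) (nat_lit 3) (.n (nat_lit 473) (nat_lit 1) (.n (nat_lit 474) (nat_lit 1) (.n (nat_lit 475) (nat_lit 2) (.p (nat_lit 477) (nat_lit 1) (.n (nat_lit 479) (nat_lit 1) (.p (nat_lit 480) (nat_lit 1) (.n (nat_lit 482) (nat_lit 1) (.p (nat_lit 484) (nat_lit 2) (.n (nat_lit 485) (nat_lit 2) (.p (nat_lit 488) (nat_lit 2) (.p (nat_lit 489) (nat_lit 3) (.n (nat_lit 491) (nat_lit 2) (.n (nat_lit 492) (nat_lit 2) (.p (nat_lit 493) (nat_lit 2) .z)))))))))))))))))))))))))) (.ct dC1d_c293 (nat_lit 1) (nat_lit 11) (.s true (nat_lit 1) (nat_lit 93) (nat_lit 0) (nat_lit 2) (nat_lit 2) true (nat_lit 11) true (nat_lit 13) false (nat_lit 5) true (nat_lit 15) true (nat_lit 13) (.e true (nat_lit 3) (nat_lit 306) (nat_lit 2) (nat_lit 13) (.e true (nat_lit 1) (nat_lit 93) (nat_lit 14) (nat_lit 5) (.e false (nat_lit 1) (nat_lit 353) (nat_lit 0) (nat_lit 15) (.e false (nat_lit 3) (nat_lit 290) (nat_lit 2) (nat_lit 13) dC1d_i123)))))) .leaf) (nat_lit 201728) (nat_lit 786) (.p (nat_lit 290) (nat_lit 2) (.n (nat_lit 291) (nat_lit 1) (.n (nat_lit 292) (nat_lit 1) (.n (nat_lit 293) (nat_lit 1) (.n (nat_lit 294) (nat_lit 3) (.n (nat_lit 295) (nat_lit 1) (.n (nat_lit 296) (nat_lit 1) (.p (nat_lit 297) (nat_lit 1) (.n (nat_lit 298) (nat_lit 2) (.n (nat_lit 299) (nat_lit 1) (.p (nat_lit 300) (nat_lit 3) (.n (nat_lit 301) (nat_lit 3) (.p (nat_lit 302) (nat_lit 3) (.p (nat_lit 305) (nat_lit 2) (.n (nat_lit 307) (nat_lit 3) (.n (nat_lit 308) (nat_lit 3) (.n (nat_lit 310) (nat_lit 1) (.n (nat_lit 311) (nat_lit 2) (.p (nat_lit 313) (nat_lit 2) (.n (nat_lit 314) (nat_lit 1) (.n (nat_lit 315) (nat_lit 1) (.n (nat_lit 316) (nat_lit 2) (.n (nat_lit 317) (nat_lit 1) (.n (nat_lit 318) (nat_lit 2) (.p (nat_lit 319) (nat_lit 2) .z))))))))))))))))))))))))) (.ct dC1d_c292 (nat_lit 1) (nat_lit 12) (.s true (nat_lit 1) (nat_lit 38) (nat_lit 2) (nat_lit 0) (nat_lit 2) true (nat_lit 6) true (nat_lit 10) false (nat_lit 2) true (nat_lit 10) true (nat_lit 12) (.e true (nat_lit 2) (nat_lit 67) (nat_lit 6) (nat_lit 6) dC1d_i124))) .leaf) (nat_lit 201730) (nat_lit 888) (.p (nat_lit 348) (nat_lit 1) .z) .df (.nd (.nd .leaf (nat_lit 202752) (nat_lit 784) (.p (nat_lit 290) (nat_lit 1) (.p (nat_lit 292) (nat_lit 2) (.n (nat_lit 293) (nat_lit 1) (.p (nat_lit 294) (nat_lit 3) (.n (nat_lit 295) (nat_lit 2) (.n (nat_lit 296) (nat_lit 2) (.p (nat_lit 297) (nat_lit 2) (.n (nat_lit 298) (nat_lit 3) (.p (nat_lit 299) (nat_lit 3) (.n (nat_lit 300) (nat_lit 1) (.n (nat_lit 302) (nat_lit 2) (.p (nat_lit 305) (nat_lit 1) (.p (nat_lit 307) (nat_lit 3) (.n (nat_lit 310) (nat_lit 2) (.n (nat_lit 311) (nat_lit 3) (.n (nat_lit 313) (nat_lit 3) (.n (nat_lit 314) (nat_lit 2) (.n (nat_lit 315) (nat_lit 2) (.n (nat_lit 316) (nat_lit 2) (.p (nat_lit 317) (nat_lit 1) (.n (nat_lit 318) (nat_lit 3) (.p (nat_lit 319) (nat_lit 3) .z)))))))))))))))))))))) (.ct dC1d_c292 (nat_lit 1) (nat_lit 12) dC1d_i125) .leaf) (nat_lit 202754) (nat_lit 889) (.p (nat_lit 349) (nat_lit 1) .z) .df .leaf)) (nat_lit 202756) (nat_lit 1555) (.n (nat_lit 460) (nat_lit 1) (.p (nat_lit 461) (nat_lit 2) (.p (nat_lit 462) (nat_lit 2) (.p (nat_lit 463) (nat_lit 2) (.n (nat_lit 464) (nat_lit 1) (.n (nat_lit 465) (nat_lit 3) (.p (nat_lit 467) (nat_lit 2) (.p (nat_lit 469) (nat_lit 2) (.p (nat_lit 470) (nat_lit 2) (.n (nat_lit 471) (nat_lit 2) (.p (nat_lit 472) (nat_lit 3) (.p (nat_lit 473) (nat_lit 2) (.n (nat_lit 474) (nat_lit 1) (.p (nat_lit 475) (nat_lit 2) (.n (nat_lit 476) (nat_lit 1) (.p (nat_lit 477) (nat_lit 1) (.p (nat_lit 479) (nat_lit 3) (.p (nat_lit 480) (nat_lit 2) (.n (nat_lit 482) (nat_lit 2) (.n (nat_lit 487) (nat_lit 3) (.n (nat_lit 489) (nat_lit 2) (.p (nat_lit 493) (nat_lit 1) .z)))))))))))))))))))))) (.ct dC1d_c293 (nat_lit 1) (nat_lit 11) (.s false (nat_lit 3) (nat_lit 46) (nat_lit 1) (nat_lit 4) (nat_lit 1) false (nat_lit 16) true (nat_lit 14) false (nat_lit 2) true (nat_lit 14) true (nat_lit 11) (.e true (nat_lit 2) (nat_lit 330) (nat_lit 1) (nat_lit 14) (.e false (nat_lit 1) (nat_lit 331) (nat_lit 1) (nat_lit 14) (.e true (nat_lit 3) (nat_lit 333) (nat_lit 1) (nat_lit 14) (.e false (nat_lit 2) (nat_lit 336) (nat_lit 1) (nat_lit 14) (.e false (nat_lit 1) (nat_lit 338) (nat_lit 1) (nat_lit 14) (.e false (nat_lit 3) (nat_lit 341) (nat_lit 1) (nat_lit 14) (.e true (nat_lit 1) (nat_lit 328) (nat_lit 1) (nat_lit 14) (.e false (nat_lit 1) (nat_lit 332) (nat_lit 1) (nat_lit 14) (.e true (nat_lit 3) (nat_lit 337) (nat_lit 1) (nat_lit 14) (.e false (nat_lit 3) (nat_lit 46) (nat_lit 26) (nat_lit 2) (.e true (nat_lit 3) (nat_lit 196) (nat_lit 4) (nat_lit 11) (.e true (nat_lit 1) (nat_lit 199) (nat_lit 4) (nat_lit 11) (.e false (nat_lit 3) (nat_lit 200) (nat_lit 4) (nat_lit 11) (.e true (nat_lit 2) (nat_lit 201) (nat_lit 4) (nat_lit 11) (.u (nat_lit 2) (.p (nat_lit 0) (nat_lit 2) (.p (nat_lit 1) (nat_lit 1) (.n (nat_lit 2) (nat_lit 1) (.p (nat_lit 3) (nat_lit 3) (.p (nat_lit 5) (nat_lit 3) (.n (nat_lit 8) (nat_lit 1) (.n (nat_lit 10) (nat_lit 3) (.n (nat_lit 12) (nat_lit 2) (.p (nat_lit 13) (nat_lit 1) (.p (nat_lit 14) (nat_lit 1) (.n (nat_lit 16) (nat_lit 2) (.n (nat_lit 17) (nat_lit 1) (.n (nat_lit 20) (nat_lit 1) (.p (nat_lit 22) (nat_lit 1) (.n (nat_lit 24) (nat_lit 1) (.p (nat_lit 25) (nat_lit 1) (.p (nat_lit 27) (nat_lit 2) (.n (nat_lit 28) (nat_lit 1) (.n (nat_lit 29) (nat_lit 1) (.p (nat_lit 31) (nat_lit 1) (.p (nat_lit 32) (nat_lit 1) (.n (nat_lit 33) (nat_lit 1) (.p (nat_lit 164) (nat_lit 1) (.p (nat_lit 165) (nat_lit 1) (.p (nat_lit 167) (nat_lit 2) (.p (nat_lit 203) (nat_lit 1) (.p (nat_lit 205) (nat_lit 2) (.n (nat_lit 206) (nat_lit 1) (.n (nat_lit 207) (nat_lit 1) (.n (nat_lit 211) (nat_lit 2) (.n (nat_lit 213) (nat_lit 1) .z))))))))))))))))))))))))))))))) .nil))))))))))))))))) (.nd (.nd (.nd .leaf (nat_lit 203776) (nat_lit 757) (.n (nat_lit 291) (nat_lit 1) (.p (nat_lit 292) (nat_lit 2) (.p (nat_lit 293) (nat_lit 1) (.p (nat_lit 294) (nat_lit 1) (.p (nat_lit 295) (nat_lit 2) (.p (nat_lit 296) (nat_lit 1) (.p (nat_lit 298) (nat_lit 1) (.n (nat_lit 299) (nat_lit 1) (.n (nat_lit 300) (nat_lit 3) (.p (nat_lit 301) (nat_lit 3) (.p (nat_lit 302) (nat_lit 1) (.n (nat_lit 303) (nat_lit 1) (.n (nat_lit 304) (nat_lit 2) (.p (nat_lit 305) (nat_lit 3) (.p (nat_lit 306) (nat_lit 1) (.p (nat_lit 307) (nat_lit 2) (.n (nat_lit 308) (nat_lit 3) (.n (nat_lit 309) (nat_lit 1) (.n (nat_lit 310) (nat_lit 3) (.p (nat_lit 313) (nat_lit 1) (.n (nat_lit 315) (nat_lit 1) (.p (nat_lit 317) (nat_lit 1) (.n (nat_lit 318) (nat_lit 2) .z))))))))))))))))))))))) (.ct dC1d_c292 (nat_lit 1) (nat_lit 12) (.s true (nat_lit 1) (nat_lit 16) (nat_lit 1) (nat_lit 4) (nat_lit 2) true (nat_lit 7) true (nat_lit 10) true (nat_lit 1) true (nat_lit 11) true (nat_lit 8) (.s true (nat_lit 1) (nat_lit 32) (nat_lit 1) (nat_lit 2) (nat_lit 2) true (nat_lit 7) true (nat_lit 10) false (nat_lit 1) true (nat_lit 11) true (nat_lit 10) (.s true (nat_lit 1) (nat_lit 43) (nat_lit 1) (nat_lit 2) (nat_lit 0) true (nat_lit 9) true (nat_lit 12) false (nat_lit 4) true (nat_lit 11) true (nat_lit 10) (.s true (nat_lit 1) (nat_lit 43) (nat_lit 2) (nat_lit 1) (nat_lit 0) true (nat_lit 8) true (nat_lit 12) false (nat_lit 4) true (nat_lit 10) true (nat_lit 11) (.e false (nat_lit 1) (nat_lit 82) (nat_lit 5) (nat_lit 7) (.e false (nat_lit 1) (nat_lit 85) (nat_lit 5) (nat_lit 7) (.e true (nat_lit 1) (nat_lit 86) (nat_lit 5) (nat_lit 7) (.e false (nat_lit 1) (nat_lit 87) (nat_lit 5) (nat_lit 7) (.e false (nat_lit 1) (nat_lit 88) (nat_lit 5) (nat_lit 7) (.e true (nat_lit 1) (nat_lit 91) (nat_lit 5) (nat_lit 7) (.e true (nat_lit 2) (nat_lit 153) (nat_lit 2) (nat_lit 10) (.e true (nat_lit 1) (nat_lit 154) (nat_lit 2) (nat_lit 10) (.e true (nat_lit 1) (nat_lit 155) (nat_lit 2) (nat_lit 10) (.e false (nat_lit 1) (nat_lit 156) (nat_lit 2) (nat_lit 10) (.e true (nat_lit 2) (nat_lit 158) (nat_lit 2) (nat_lit 10) (.e false (nat_lit 2) (nat_lit 159) (nat_lit 2) (nat_lit 10) dC1d_i126))))))))))))))))) .leaf) (nat_lit 203778) (nat_lit 890) (.p (nat_lit 350) (nat_lit 1) .z) .df .leaf) (nat_lit 203780) (nat_lit 1554) (.n (nat_lit 460) (nat_lit 2) (.p (nat_lit 461) (nat_lit 1) (.n (nat_lit 462) (nat_lit 3) (.n (nat_lit 463) (nat_lit 3) (.p (nat_lit 464) (nat_lit 1) (.p (nat_lit 465) (nat_lit 1) (.n (nat_lit 467) (nat_lit 2) (.n (nat_lit 468) (nat_lit 2) (.p (nat_lit 469) (nat_lit 2) (.p (nat_lit 470) (nat_lit 1) (.p (nat_lit 471) (nat_lit 2) (.p (nat_lit 472) (nat_lit 1) (.p (nat_lit 474) (nat_lit 1) (.p (nat_lit 475) (nat_lit 2) (.p (nat_lit 476) (nat_lit 1) (.n (nat_lit 477) (nat_lit 1) (.p (nat_lit 479) (nat_lit 3) (.p (nat_lit 480) (nat_lit 1) (.n (nat_lit 482) (nat_lit 1) (.p (nat_lit 484) (nat_lit 1) (.n (nat_lit 485) (nat_lit 1) (.p (nat_lit 487) (nat_lit 1) (.p (nat_lit 488) (nat_lit 1) (.p (nat_lit 489) (nat_lit 2) (.n (nat_lit 491) (nat_lit 1) (.n (nat_lit 492) (nat_lit 1) (.n (nat_lit 493) (nat_lit 1) .z))))))))))))))))))))))))))) (.ct dC1d_c293 (nat_lit 1) (nat_lit 11) (.s true (nat_lit 1) (nat_lit 96) (nat_lit 0) (nat_lit 2) (nat_lit 2) true (nat_lit 11) true (nat_lit 13) false (nat_lit 5) true (nat_lit 15) true (nat_lit 13) (.e false (nat_lit 1) (nat_lit 290) (nat_lit 2) (nat_lit 13) (.e false (nat_lit 3) (nat_lit 293) (nat_lit 2) (nat_lit 13) (.e false (nat_lit 2) (nat_lit 294) (nat_lit 2) (nat_lit 13) (.e false (nat_lit 3) (nat_lit 295) (nat_lit 2) (nat_lit 13) (.e false (nat_lit 3) (nat_lit 296) (nat_lit 2) (nat_lit 13) (.e false (nat_lit 2) (nat_lit 297) (nat_lit 2) (nat_lit 13) (.e false (nat_lit 2) (nat_lit 299) (nat_lit 2) (nat_lit 13) dC1d_i127))))))))) (.nd (.nd .leaf (nat_lit 204800) (nat_lit 730) (.n (nat_lit 290) (nat_lit 2) (.n (nat_lit 291) (nat_lit 2) (.p (nat_lit 292) (nat_lit 1) (.n (nat_lit 293) (nat_lit 1) (.p (nat_lit 294) (nat_lit 3) (.n (nat_lit 295) (nat_lit 1) (.n (nat_lit 296) (nat_lit 1) (.p (nat_lit 297) (nat_lit 1) (.n (nat_lit 298) (nat_lit 3) (.p (nat_lit 299) (nat_lit 2) (.p (nat_lit 300) (nat_lit 3) (.n (nat_lit 302) (nat_lit 3) (.p (nat_lit 304) (nat_lit 1) (.n (nat_lit 305) (nat_lit 2) (.n (nat_lit 307) (nat_lit 3) (.n (nat_lit 308) (nat_lit 2) (.n (nat_lit 311) (nat_lit 2) (.p (nat_lit 313) (nat_lit 2) (.n (nat_lit 314) (nat_lit 1) (.n (nat_lit 315) (nat_lit 1) (.p (nat_lit 317) (nat_lit 1) (.n (nat_lit 318) (nat_lit 3) (.p (nat_lit 319) (nat_lit 2) .z))))))))))))))))))))))) (.ct dC1d_c292 (nat_lit 1) (nat_lit 12) (.s true (nat_lit 1) (nat_lit 5) (nat_lit 4) (nat_lit 2) (nat_lit 5) false (nat_lit 1) true (nat_lit 7) true (nat_lit 7) true (nat_lit 8) true (nat_lit 10) (.s true (nat_lit 1) (nat_lit 6) (nat_lit 1) (nat_lit 3) (nat_lit 6) true (nat_lit 1) true (nat_lit 6) true (nat_lit 6) true (nat_lit 11) true (nat_lit 9) (.s true (nat_lit 1) (nat_lit 6) (nat_lit 1) (nat_lit 6) (nat_lit 3) true (nat_lit 5) true (nat_lit 9) true (nat_lit 6) true (nat_lit 11) true (nat_lit 6) (.s false (nat_lit 1) (nat_lit 12) (nat_lit 1) (nat_lit 2) (nat_lit 6) true (nat_lit 1) true (nat_lit 6) true (nat_lit 4) true (nat_lit 11) true (nat_lit 10) (.s true (nat_lit 3) (nat_lit 11) (nat_lit 1) (nat_lit 6) (nat_lit 2) true (nat_lit 7) true (nat_lit 10) true (nat_lit 4) true (nat_lit 11) true (nat_lit 6) (.s true (nat_lit 1) (nat_lit 12) (nat_lit 1) (nat_lit 6) (nat_lit 2) true (nat_lit 7) true (nat_lit 10) true (nat_lit 4) true (nat_lit 11) true (nat_lit 6) (.s true (nat_lit 3) (nat_lit 11) (nat_lit 2) (nat_lit 5) (nat_lit 2) true (nat_lit 6) true (nat_lit 10) true (nat_lit 4) true (nat_lit 10) true (nat_lit 7) (.s true (nat_lit 1) (nat_lit 12) (nat_lit 2) (nat_lit 6) (nat_lit 1) true (nat_lit 7) true (nat_lit 11) true (nat_lit 4) true (nat_lit 10) true (nat_lit 6) (.s false (nat_lit 3) (nat_lit 11) (nat_lit 5) (nat_lit 2) (nat_lit 2) true (nat_lit 1) true (nat_lit 10) true (nat_lit 4) true (nat_lit 7) true (nat_lit 10) (.s false (nat_lit 1) (nat_lit 12) (nat_lit 5) (nat_lit 2) (nat_lit 2) true (nat_lit 1) true (nat_lit 10) true (nat_lit 4) true (nat_lit 7) true (nat_lit 10) (.s true (nat_lit 3) (nat_lit 11) (nat_lit 6) (nat_lit 1) (nat_lit 2) true (nat_lit 0) true (nat_lit 10) true (nat_lit 4) true (nat_lit 6) true (nat_lit 11) (.s true (nat_lit 2) (nat_lit 14) (nat_lit 1) (nat_lit 1) (nat_lit 6) true (nat_lit 1) true (nat_lit 6) true (nat_lit 2) true (nat_lit 11) true (nat_lit 11) (.s true (nat_lit 2) (nat_lit 15) (nat_lit 1) (nat_lit 1) (nat_lit 6) true (nat_lit 1) true (nat_lit 6) true (nat_lit 2) true (nat_lit 11) true (nat_lit 11) (.s false (nat_lit 1) (nat_lit 16) (nat_lit 0) (nat_lit 5) (nat_lit 2) true (nat_lit 8) true (nat_lit 10) true (nat_lit 1) true (nat_lit 12) true (nat_lit 7) (.s true (nat_lit 1) (nat_lit 16) (nat_lit 1) (nat_lit 4) (nat_lit 2) true (nat_lit 7) true (nat_lit 10) true (nat_lit 1) true (nat_lit 11) true (nat_lit 8) dC1d_i129)))))))))))))))) .leaf) (nat_lit 204802) (nat_lit 891) (.p (nat_lit 351) (nat_lit 1) .z) .df .leaf))) (nat_lit 204804) (nat_lit 1539) (.p (nat_lit 460) (nat_lit 2) (.n (nat_lit 461) (nat_lit 1) (.n (nat_lit 462) (nat_lit 3) (.p (nat_lit 463) (nat_lit 3) (.n (nat_lit 464) (nat_lit 1) (.n (nat_lit 465) (nat_lit 2) (.n (nat_lit 469) (nat_lit 1) (.n (nat_lit 470) (nat_lit 1) (.n (nat_lit 473) (nat_lit 1) (.p (nat_lit 474) (nat_lit 1) (.n (nat_lit 475) (nat_lit 1) (.n (nat_lit 476) (nat_lit 2) (.n (nat_lit 477) (nat_lit 1) (.p (nat_lit 479) (nat_lit 3) (.p (nat_lit 480) (nat_lit 1) (.n (nat_lit 482) (nat_lit 1) (.p (nat_lit 487) (nat_lit 2) (.n (nat_lit 489) (nat_lit 1) (.n (nat_lit 493) (nat_lit 3) .z))))))))))))))))))) (.ct dC1d_c293 (nat_lit 1) (nat_lit 11) (.s false (nat_lit 1) (nat_lit 102) (nat_lit 2) (nat_lit 1) (nat_lit 0) true (nat_lit 11) true (nat_lit 15) false (nat_lit 7) true (nat_lit 13) true (nat_lit 14) (.e false (nat_lit 1) (nat_lit 347) (nat_lit 0) (nat_lit 15) (.e false (nat_lit 2) (nat_lit 348) (nat_lit 0) (nat_lit 15) (.e true (nat_lit 3) (nat_lit 349) (nat_lit 0) (nat_lit 15) (.e false (nat_lit 1) (nat_lit 350) (nat_lit 0) (nat_lit 15) (.e true (nat_lit 1) (nat_lit 351) (nat_lit 0) (nat_lit 15) (.e false (nat_lit 1) (nat_lit 352) (nat_lit 0) (nat_lit 15) (.e false (nat_lit 1) (nat_lit 353) (nat_lit 0) (nat_lit 15) (.e true (nat_lit 3) (nat_lit 354) (nat_lit 0) (nat_lit 15) (.e true (nat_lit 1) (nat_lit 102) (nat_lit 12) (nat_lit 7) (.e true (nat_lit 1) (nat_lit 290) (nat_lit 2) (nat_lit 13) (.e true (nat_lit 2) (nat_lit 291) (nat_lit 2) (nat_lit 13) (.e true (nat_lit 1) (nat_lit 292) (nat_lit 2) (nat_lit 13) dC1d_i130)))))))))))))) (.nd (.nd (.nd (.nd .leaf (nat_lit 205824) (nat_lit 788) (.p (nat_lit 290) (nat_lit 1) (.p (nat_lit 291) (nat_lit 1) (.n (nat_lit 292) (nat_lit 1) (.p (nat_lit 293) (nat_lit 2) (.p (nat_lit 294) (nat_lit 1) (.n (nat_lit 295) (nat_lit 3) (.p (nat_lit 296) (nat_lit 1) (.n (nat_lit 297) (nat_lit 1) (.n (nat_lit 298) (nat_lit 1) (.n (nat_lit 299) (nat_lit 3) (.p (nat_lit 300) (nat_lit 1) (.n (nat_lit 301) (nat_lit 3) (.p (nat_lit 302) (nat_lit 2) (.p (nat_lit 304) (nat_lit 2) (.n (nat_lit 305) (nat_lit 1) (.n (nat_lit 307) (nat_lit 3) (.n (nat_lit 308) (nat_lit 1) (.p (nat_lit 310) (nat_lit 1) (.n (nat_lit 311) (nat_lit 3) (.n (nat_lit 313) (nat_lit 3) (.n (nat_lit 314) (nat_lit 2) (.n (nat_lit 315) (nat_lit 2) (.n (nat_lit 316) (nat_lit 3) (.p (nat_lit 318) (nat_lit 1) (.p (nat_lit 319) (nat_lit 3) .z))))))))))))))))))))))))) (.ct dC1d_c292 (nat_lit 1) (nat_lit 12) (.s false (nat_lit 1) (nat_lit 37) (nat_lit 0) (nat_lit 2) (nat_lit 2) true (nat_lit 8) true (nat_lit 10) false (nat_lit 2) true (nat_lit 12) true (nat_lit 10) (.e false (nat_lit 1) (nat_lit 93) (nat_lit 4) (nat_lit 8) (.e false (nat_lit 1) (nat_lit 160) (nat_lit 2) (nat_lit 10) (.e false (nat_lit 1) (nat_lit 37) (nat_lit 14) (nat_lit 2) (.e false (nat_lit 2) (nat_lit 197) (nat_lit 0) (nat_lit 12) (.e true (nat_lit 3) (nat_lit 198) (nat_lit 0) (nat_lit 12) (.e false (nat_lit 3) (nat_lit 199) (nat_lit 0) (nat_lit 12) (.e false (nat_lit 1) (nat_lit 200) (nat_lit 0) (nat_lit 12) (.e false (nat_lit 1) (nat_lit 169) (nat_lit 2) (nat_lit 10) (.u (nat_lit 2) (.n (nat_lit 1) (nat_lit 1) (.n (nat_lit 4) (nat_lit 1) (.p (nat_lit 5) (nat_lit 2) (.p (nat_lit 6) (nat_lit 1) (.p (nat_lit 8) (nat_lit 1) (.n (nat_lit 9) (nat_lit 1) (.p (nat_lit 11) (nat_lit 1) (.p (nat_lit 12) (nat_lit 1) (.n (nat_lit 13) (nat_lit 1) (.n (nat_lit 14) (nat_lit 1) (.p (nat_lit 15) (nat_lit 1) (.p (nat_lit 16) (nat_lit 1) (.n (nat_lit 17) (nat_lit 1) (.n (nat_lit 18) (nat_lit 2) (.n (nat_lit 19) (nat_lit 1) (.n (nat_lit 20) (nat_lit 1) (.p (nat_lit 21) (nat_lit 1) (.p (nat_lit 23) (nat_lit 3) (.p (nat_lit 24) (nat_lit 1) (.n (nat_lit 29) (nat_lit 1) .z)))))))))))))))))))) .nil))))))))))) .leaf) (nat_lit 205826) (nat_lit 892) (.p (nat_lit 352) (nat_lit 1) .z) .df .leaf) (nat_lit 205828) (nat_lit 1531) (.n (nat_lit 460) (nat_lit 1) (.n (nat_lit 461) (nat_lit 2) (.n (nat_lit 462) (nat_lit 2) (.p (nat_lit 463) (nat_lit 2) (.p (nat_lit 464) (nat_lit 3) (.p (nat_lit 465) (nat_lit 1) (.p (nat_lit 467) (nat_lit 1) (.n (nat_lit 468) (nat_lit 3) (.n (nat_lit 469) (nat_lit 3) (.p (nat_lit 470) (nat_lit 2) (.n (nat_lit 471) (nat_lit 1) (.n (nat_lit 472) (nat_lit 1) (.n (nat_lit 473) (nat_lit 3) (.p (nat_lit 474) (nat_lit 1) (.n (nat_lit 475) (nat_lit 1) (.p (nat_lit 476) (nat_lit 1) (.p (nat_lit 477) (nat_lit 1) (.n (nat_lit 479) (nat_lit 3) (.p (nat_lit 480) (nat_lit 2) (.n (nat_lit 482) (nat_lit 2) (.n (nat_lit 487) (nat_lit 3) (.p (nat_lit 489) (nat_lit 2) (.n (nat_lit 493) (nat_lit 1) .z))))))))))))))))))))))) (.ct dC1d_c293 (nat_lit 1) (nat_lit 11) (.s false (nat_lit 1) (nat_lit 105) (nat_lit 2) (nat_lit 1) (nat_lit 0) true (nat_lit 11) true (nat_lit 15) false (nat_lit 7) true (nat_lit 13) true (nat_lit 14) (.e true (nat_lit 1) (nat_lit 347) (nat_lit 0) (nat_lit 15) (.e false (nat_lit 1) (nat_lit 348) (nat_lit 0) (nat_lit 15) (.e true (nat_lit 1) (nat_lit 349) (nat_lit 0) (nat_lit 15) (.e false (nat_lit 2) (nat_lit 350) (nat_lit 0) (nat_lit 15) (.e false (nat_lit 1) (nat_lit 352) (nat_lit 0) (nat_lit 15) (.e false (nat_lit 1) (nat_lit 354) (nat_lit 0) (nat_lit 15) (.e true (nat_lit 1) (nat_lit 105) (nat_lit 12) (nat_lit 7) (.e false (nat_lit 3) (nat_lit 290) (nat_lit 2) (nat_lit 13) (.e false (nat_lit 2) (nat_lit 291) (nat_lit 2) (nat_lit 13) (.e false (nat_lit 2) (nat_lit 292) (nat_lit 2) (nat_lit 13) dC1d_i131)))))))))))) (.nd (.nd .leaf (nat_lit 206848) (nat_lit 819) (.p (nat_lit 320) (nat_lit 1) (.p (nat_lit 321) (nat_lit 2) (.n (nat_lit 322) (nat_lit 3) (.p (nat_lit 323) (nat_lit 1) (.n (nat_lit 324) (nat_lit 1) (.p (nat_lit 325) (nat_lit 1) (.p (nat_lit 326) (nat_lit 1) (.n (nat_lit 327) (nat_lit 3) .z)))))))) (.ct dC1d_c517 (nat_lit 1) (nat_lit 6) (.s true (nat_lit 1) (nat_lit 40) (nat_lit 2) (nat_lit 2) (nat_lit 0) true (nat_lit 4) true (nat_lit 6) false (nat_lit 1) true (nat_lit 5) true (nat_lit 5) (.e true (nat_lit 1) (nat_lit 98) (nat_lit 4) (nat_lit 4) (.e false (nat_lit 1) (nat_lit 40) (nat_lit 15) (nat_lit 1) (.e false (nat_lit 1) (nat_lit 175) (nat_lit 2) (nat_lit 5) (.e false (nat_lit 2) (nat_lit 177) (nat_lit 2) (nat_lit 5) (.e true (nat_lit 1) (nat_lit 179) (nat_lit 2) (nat_lit 5) (.u (nat_lit 2) (.p (nat_lit 2) (nat_lit 1) (.n (nat_lit 5) (nat_lit 1) (.p (nat_lit 7) (nat_lit 1) .z))) .nil)))))))) .leaf) (nat_lit 206849) (nat_lit 835) (.p (nat_lit 342) (nat_lit 1) .z) .df .leaf)) (nat_lit 207872) (nat_lit 813) (.n (nat_lit 320) (nat_lit 1) (.n (nat_lit 321) (nat_lit 3) (.p (nat_lit 322) (nat_lit 1) (.n (nat_lit 323) (nat_lit 1) (.p (nat_lit 324) (nat_lit 1) (.p (nat_lit 325) (nat_lit 3) (.n (nat_lit 326) (nat_lit 1) (.p (nat_lit 327) (nat_lit 1) .z)))))))) (.ct dC1d_c517 (nat_lit 1) (nat_lit 6) (.s true (nat_lit 1) (nat_lit 41) (nat_lit 2) (nat_lit 2) (nat_lit 0) true (nat_lit 4) true (nat_lit 6) false (nat_lit 1) true (nat_lit 5) true (nat_lit 5) (.e true (nat_lit 1) (nat_lit 99) (nat_lit 4) (nat_lit 4) (.e false (nat_lit 1) (nat_lit 41) (nat_lit 15) (nat_lit 1) (.e false (nat_lit 3) (nat_lit 174) (nat_lit 2) (nat_lit 5) (.e false (nat_lit 2) (nat_lit 175) (nat_lit 2) (nat_lit 5) (.e true (nat_lit 2) (nat_lit 177) (nat_lit 2) (nat_lit 5) (.e true (nat_lit 1) (nat_lit 178) (nat_lit 2) (nat_lit 5) (.e true (nat_lit 3) (nat_lit 179) (nat_lit 2) (nat_lit 5) (.e false (nat_lit 3) (nat_lit 176) (nat_lit 2) (nat_lit 5) (.u (nat_lit 2) (.p (nat_lit 0) (nat_lit 1) (.p (nat_lit 1) (nat_lit 1) (.n (nat_lit 5) (nat_lit 1) (.n (nat_lit 27) (nat_lit 1) (.p (nat_lit 32) (nat_lit 1) .z))))) .nil))))))))))) (.nd (.nd (.nd .leaf (nat_lit 207873) (nat_lit 836) (.p (nat_lit 343) (nat_lit 1) .z) .df .leaf) (nat_lit 207875) (nat_lit 1317) (.n (nat_lit 426) (nat_lit 3) (.n (nat_lit 427) (nat_lit 3) (.p (nat_lit 429) (nat_lit 2) (.n (nat_lit 430) (nat_lit 3) (.n (nat_lit 431) (nat_lit 3) (.n (nat_lit 436) (nat_lit 3) (.n (nat_lit 438) (nat_lit 2) (.p (nat_lit 439) (nat_lit 3) (.p (nat_lit 440) (nat_lit 2) (.n (nat_lit 441) (nat_lit 1) (.p (nat_lit 442) (nat_lit 3) (.n (nat_lit 443) (nat_lit 2) (.p (nat_lit 444) (nat_lit 2) (.n (nat_lit 445) (nat_lit 2) (.n (nat_lit 446) (nat_lit 1) (.n (nat_lit 456) (nat_lit 1) (.n (nat_lit 459) (nat_lit 3) .z))))))))))))))))) (.ct dC1d_c533 (nat_lit 1) (nat_lit 12) (.s false (nat_lit 1) (nat_lit 14) (nat_lit 2) (nat_lit 2) (nat_lit 10) true (nat_lit 0) true (nat_lit 6) true (nat_lit 5) true (nat_lit 13) true (nat_lit 13) (.s false (nat_lit 1) (nat_lit 40) (nat_lit 3) (nat_lit 2) (nat_lit 2) true (nat_lit 6) true (nat_lit 13) false (nat_lit 0) true (nat_lit 12) true (nat_lit 13) (.e true (nat_lit 1) (nat_lit 90) (nat_lit 14) (nat_lit 5) (.e true (nat_lit 2) (nat_lit 260) (nat_lit 2) (nat_lit 13) (.e true (nat_lit 3) (nat_lit 261) (nat_lit 2) (nat_lit 13) (.e false (nat_lit 1) (nat_lit 262) (nat_lit 2) (nat_lit 13) (.e true (nat_lit 2) (nat_lit 266) (nat_lit 2) (nat_lit 13) (.e false (nat_lit 2) (nat_lit 269) (nat_lit 2) (nat_lit 13) (.e true (nat_lit 2) (nat_lit 270) (nat_lit 2) (nat_lit 13) (.e false (nat_lit 2) (nat_lit 283) (nat_lit 2) (nat_lit 13) (.e true (nat_lit 2) (nat_lit 288) (nat_lit 2) (nat_lit 13) (.e false (nat_lit 3) (nat_lit 263) (nat_lit 2) (nat_lit 13) (.e false (nat_lit 2) (nat_lit 275) (nat_lit 2) (nat_lit 13) (.e false (nat_lit 1) (nat_lit 277) (nat_lit 2) (nat_lit 13) (.e true (nat_lit 2) (nat_lit 204) (nat_lit 3) (nat_lit 12) (.e false (nat_lit 1) (nat_lit 205) (nat_lit 3) (nat_lit 12) (.e true (nat_lit 1) (nat_lit 206) (nat_lit 3) (nat_lit 12) (.e false (nat_lit 3) (nat_lit 286) (nat_lit 2) (nat_lit 13) (.u (nat_lit 2) (.p (nat_lit 0) (nat_lit 1) (.n (nat_lit 2) (nat_lit 2) (.n (nat_lit 3) (nat_lit 3) (.p (nat_lit 4) (nat_lit 3) (.p (nat_lit 5) (nat_lit 1) (.p (nat_lit 6) (nat_lit 1) (.p (nat_lit 7) (nat_lit 1) (.p (nat_lit 8) (nat_lit 2) (.n (nat_lit 9) (nat_lit 3) (.p (nat_lit 10) (nat_lit 1) (.n (nat_lit 12) (nat_lit 2) (.n (nat_lit 13) (nat_lit 2) (.p (nat_lit 15) (nat_lit 1) (.p (nat_lit 16) (nat_lit 1) (.p (nat_lit 17) (nat_lit 1) (.p (nat_lit 18) (nat_lit 1) (.p (nat_lit 20) (nat_lit 1) (.n (nat_lit 22) (nat_lit 1) (.p (nat_lit 173) (nat_lit 1) (.p (nat_lit 175) (nat_lit 1) (.n (nat_lit 176) (nat_lit 1) (.p (nat_lit 186) (nat_lit 1) (.n (nat_lit 192) (nat_lit 1) .z))))))))))))))))))))))) .nil)))))))))))))))))))) .leaf) (nat_lit 208896) (nat_lit 815) (.n (nat_lit 321) (nat_lit 3) (.n (nat_lit 322) (nat_lit 2) (.p (nat_lit 323) (nat_lit 3) (.n (nat_lit 324) (nat_lit 1) (.n (nat_lit 325) (nat_lit 2) (.p (nat_lit 326) (nat_lit 1) .z)))))) (.ct dC1d_c517 (nat_lit 1) (nat_lit 6) (.s true (nat_lit 3) (nat_lit 15) (nat_lit 2) (nat_lit 0) (nat_lit 6) true (nat_lit 0) true (nat_lit 3) true (nat_lit 1) true (nat_lit 5) true (nat_lit 6) (.e true (nat_lit 3) (nat_lit 30) (nat_lit 18) (nat_lit 0) (.e true (nat_lit 3) (nat_lit 81) (nat_lit 6) (nat_lit 3) (.e true (nat_lit 3) (nat_lit 41) (nat_lit 15) (nat_lit 1) (.e true (nat_lit 3) (nat_lit 42) (nat_lit 15) (nat_lit 1) (.e true (nat_lit 1) (nat_lit 203) (nat_lit 0) (nat_lit 6) (.u (nat_lit 2) (.p (nat_lit 0) (nat_lit 1) (.p (nat_lit 1) (nat_lit 3) (.p (nat_lit 2) (nat_lit 1) (.p (nat_lit 3) (nat_lit 1) (.n (nat_lit 5) (nat_lit 1) (.n (nat_lit 7) (nat_lit 1) (.p (nat_lit 34) (nat_lit 1) (.p (nat_lit 35) (nat_lit 1) .z)))))))) .nil)))))))) (.nd (.nd .leaf (nat_lit 208897) (nat_lit 837) (.p (nat_lit 344) (nat_lit 1) .z) .df .leaf) (nat_lit 208899) (nat_lit 1313) (.n (nat_lit 426) (nat_lit 1) (.n (nat_lit 427) (nat_lit 2) (.p (nat_lit 428) (nat_lit 1) (.n (nat_lit 429) (nat_lit 3) (.n (nat_lit 431) (nat_lit 2) (.n (nat_lit 432) (nat_lit 2) (.n (nat_lit 433) (nat_lit 2) (.n (nat_lit 434) (nat_lit 2) (.p (nat_lit 435) (nat_lit 2) (.n (nat_lit 436) (nat_lit 1) (.n (nat_lit 438) (nat_lit 3) (.n (nat_lit 441) (nat_lit 1) (.p (nat_lit 442) (nat_lit 2) (.n (nat_lit 443) (nat_lit 1) (.p (nat_lit 444) (nat_lit 2) (.n (nat_lit 445) (nat_lit 1) (.n (nat_lit 456) (nat_lit 1) (.n (nat_lit 459) (nat_lit 3) .z)))))))))))))))))) (.ct dC1d_c533 (nat_lit 1) (nat_lit 12) (.s false (nat_lit 1) (nat_lit 46) (nat_lit 3) (nat_lit 2) (nat_lit 0) true (nat_lit 8) true (nat_lit 15) false (nat_lit 2) true (nat_lit 12) true (nat_lit 13) (.e true (nat_lit 1) (nat_lit 106) (nat_lit 7) (nat_lit 8) (.e true (nat_lit 1) (nat_lit 329) (nat_lit 0) (nat_lit 15) dC1d_i132)))) .leaf))))) (nat_lit 209920) (nat_lit 816) (.n (nat_lit 320) (nat_lit 3) (.n (nat_lit 321) (nat_lit 1) (.p (nat_lit 323) (nat_lit 2) (.p (nat_lit 326) (nat_lit 1) .z)))) (.ct dC1d_c517 (nat_lit 1) (nat_lit 6) (.s true (nat_lit 1) (nat_lit 46) (nat_lit 2) (nat_lit 0) (nat_lit 0) true (nat_lit 4) true (nat_lit 6) false (nat_lit 2) true (nat_lit 5) true (nat_lit 6) (.e false (nat_lit 1) (nat_lit 99) (nat_lit 4) (nat_lit 4) (.e true (nat_lit 1) (nat_lit 101) (nat_lit 4) (nat_lit 4) (.e false (nat_lit 1) (nat_lit 46) (nat_lit 9) (nat_lit 2) (.e true (nat_lit 1) (nat_lit 204) (nat_lit 0) (nat_lit 6) (.u (nat_lit 2) (.p (nat_lit 1) (nat_lit 1) .z) .nil))))))) (.nd (.nd (.nd (.nd (.nd (.nd .leaf (nat_lit 209921) (nat_lit 879) (.n (nat_lit 328) (nat_lit 2) (.n (nat_lit 329) (nat_lit 2) (.n (nat_lit 330) (nat_lit 1) (.p (nat_lit 331) (nat_lit 2) (.p (nat_lit 332) (nat_lit 2) (.n (nat_lit 333) (nat_lit 1) (.p (nat_lit 334) (nat_lit 2) (.p (nat_lit 335) (nat_lit 2) (.p (nat_lit 336) (nat_lit 3) (.p (nat_lit 337) (nat_lit 2) (.p (nat_lit 338) (nat_lit 3) (.n (nat_lit 341) (nat_lit 1) (.p (nat_lit 344) (nat_lit 1) .z))))))))))))) (.ct dC1d_c277 (nat_lit 1) (nat_lit 9) (.s true (nat_lit 1) (nat_lit 40) (nat_lit 1) (nat_lit 2) (nat_lit 2) true (nat_lit 5) true (nat_lit 8) false (nat_lit 1) true (nat_lit 9) true (nat_lit 8) (.e true (nat_lit 1) (nat_lit 98) (nat_lit 5) (nat_lit 5) (.e true (nat_lit 1) (nat_lit 186) (nat_lit 2) (nat_lit 8) (.e true (nat_lit 1) (nat_lit 40) (nat_lit 16) (nat_lit 1) (.e false (nat_lit 1) (nat_lit 203) (nat_lit 1) (nat_lit 9) (.e false (nat_lit 2) (nat_lit 204) (nat_lit 1) (nat_lit 9) (.e false (nat_lit 1) (nat_lit 206) (nat_lit 1) (nat_lit 9) (.e true (nat_lit 1) (nat_lit 191) (nat_lit 2) (nat_lit 8) .nil))))))))) .leaf) (nat_lit 209923) (nat_lit 1312) (.n (nat_lit 426) (nat_lit 3) (.p (nat_lit 427) (nat_lit 2) (.p (nat_lit 428) (nat_lit 2) (.p (nat_lit 430) (nat_lit 2) (.p (nat_lit 431) (nat_lit 1) (.p (nat_lit 432) (nat_lit 2) (.p (nat_lit 433) (nat_lit 2) (.n (nat_lit 434) (nat_lit 1) (.p (nat_lit 435) (nat_lit 1) (.p (nat_lit 436) (nat_lit 3) (.p (nat_lit 438) (nat_lit 1) (.n (nat_lit 439) (nat_lit 1) (.n (nat_lit 441) (nat_lit 2) (.n (nat_lit 442) (nat_lit 3) (.n (nat_lit 443) (nat_lit 2) (.n (nat_lit 444) (nat_lit 3) (.n (nat_lit 445) (nat_lit 2) .z))))))))))))))))) (.ct dC1d_c533 (nat_lit 1) (nat_lit 12) (.s false (nat_lit 1) (nat_lit 106) (nat_lit 1) (nat_lit 0) (nat_lit 0) true (nat_lit 12) true (nat_lit 15) false (nat_lit 8) true (nat_lit 14) true (nat_lit 15) (.e true (nat_lit 3) (nat_lit 328) (nat_lit 0) (nat_lit 15) (.e false (nat_lit 1) (nat_lit 329) (nat_lit 0) (nat_lit 15) (.e true (nat_lit 1) (nat_lit 330) (nat_lit 0) (nat_lit 15) (.e false (nat_lit 2) (nat_lit 331) (nat_lit 0) (nat_lit 15) (.e false (nat_lit 3) (nat_lit 332) (nat_lit 0) (nat_lit 15) (.e false (nat_lit 1) (nat_lit 336) (nat_lit 0) (nat_lit 15) (.e false (nat_lit 3) (nat_lit 337) (nat_lit 0) (nat_lit 15) (.e false (nat_lit 1) (nat_lit 338) (nat_lit 0) (nat_lit 15) (.e false (nat_lit 2) (nat_lit 341) (nat_lit 0) (nat_lit 15) (.e true (nat_lit 2) (nat_lit 344) (nat_lit 0) (nat_lit 15) (.e false (nat_lit 1) (nat_lit 345) (nat_lit 0) (nat_lit 15) (.e false (nat_lit 1) (nat_lit 346) (nat_lit 0) (nat_lit 15) (.e true (nat_lit 1) (nat_lit 106) (nat_lit 7) (nat_lit 8) (.e false (nat_lit 1) (nat_lit 333) (nat_lit 0) (nat_lit 15) (.e true (nat_lit 2) (nat_lit 334) (nat_lit 0) (nat_lit 15) (.e true (nat_lit 2) (nat_lit 335) (nat_lit 0) (nat_lit 15) (.u (nat_lit 2) (.p (nat_lit 1) (nat_lit 1) (.n (nat_lit 2) (nat_lit 1) (.p (nat_lit 3) (nat_lit 2) (.n (nat_lit 5) (nat_lit 1) (.n (nat_lit 6) (nat_lit 1) (.n (nat_lit 7) (nat_lit 1) (.p (nat_lit 9) (nat_lit 1) (.n (nat_lit 10) (nat_lit 1) (.p (nat_lit 13) (nat_lit 1) (.p (nat_lit 211) (nat_lit 1) (.n (nat_lit 214) (nat_lit 1) (.n (nat_lit 215) (nat_lit 1) (.n (nat_lit 219) (nat_lit 1) (.n (nat_lit 220) (nat_lit 1) (.n (nat_lit 221) (nat_lit 1) .z))))))))))))))) .nil))))))))))))))))))) .leaf) (nat_lit 210944) (nat_lit 801) (.p (nat_lit 320) (nat_lit 3) (.p (nat_lit 321) (nat_lit 1) (.n (nat_lit 322) (nat_lit 3) (.p (nat_lit 323) (nat_lit 1) (.p (nat_lit 324) (nat_lit 3) (.n (nat_lit 325) (nat_lit 1) .z)))))) (.ct dC1d_c517 (nat_lit 1) (nat_lit 6) (.s true (nat_lit 1) (nat_lit 6) (nat_lit 0) (nat_lit 6) (nat_lit 4) true (nat_lit 2) true (nat_lit 4) true (nat_lit 3) true (nat_lit 6) true (nat_lit 3) (.s true (nat_lit 2) (nat_lit 9) (nat_lit 6) (nat_lit 2) (nat_lit 2) true (nat_lit 0) true (nat_lit 5) true (nat_lit 2) true (nat_lit 3) true (nat_lit 5) (.s false (nat_lit 1) (nat_lit 14) (nat_lit 0) (nat_lit 2) (nat_lit 6) true (nat_lit 1) true (nat_lit 3) true (nat_lit 1) true (nat_lit 6) true (nat_lit 5) (.s false (nat_lit 3) (nat_lit 15) (nat_lit 0) (nat_lit 2) (nat_lit 6) true (nat_lit 1) true (nat_lit 3) true (nat_lit 1) true (nat_lit 6) true (nat_lit 5) (.s true (nat_lit 1) (nat_lit 15) (nat_lit 4) (nat_lit 2) (nat_lit 2) true (nat_lit 1) true (nat_lit 5) true (nat_lit 1) true (nat_lit 4) true (nat_lit 5) (.s false (nat_lit 3) (nat_lit 18) (nat_lit 0) (nat_lit 0) (nat_lit 6) true (nat_lit 1) true (nat_lit 3) true (nat_lit 0) true (nat_lit 6) true (nat_lit 6) (.s false (nat_lit 1) (nat_lit 18) (nat_lit 0) (nat_lit 4) (nat_lit 2) true (nat_lit 4) true (nat_lit 5) true (nat_lit 0) true (nat_lit 6) true (nat_lit 4) (.s false (nat_lit 1) (nat_lit 42) (nat_lit 0) (nat_lit 2) (nat_lit 2) true (nat_lit 4) true (nat_lit 5) false (nat_lit 1) true (nat_lit 6) true (nat_lit 5) (.s true (nat_lit 2) (nat_lit 41) (nat_lit 2) (nat_lit 0) (nat_lit 2) true (nat_lit 3) true (nat_lit 5) false (nat_lit 1) true (nat_lit 5) true (nat_lit 6) (.s false (nat_lit 2) (nat_lit 46) (nat_lit 0) (nat_lit 2) (nat_lit 0) false (nat_lit 7) true (nat_lit 6) false (nat_lit 2) true (nat_lit 6) true (nat_lit 5) (.e true (nat_lit 1) (nat_lit 77) (nat_lit 6) (nat_lit 3) (.e false (nat_lit 1) (nat_lit 28) (nat_lit 18) (nat_lit 0) (.e true (nat_lit 1) (nat_lit 175) (nat_lit 2) (nat_lit 5) (.e true (nat_lit 2) (nat_lit 177) (nat_lit 2) (nat_lit 5) (.e false (nat_lit 2) (nat_lit 178) (nat_lit 2) (nat_lit 5) (.e false (nat_lit 3) (nat_lit 174) (nat_lit 2) (nat_lit 5) (.u (nat_lit 2) (.p (nat_lit 18) (nat_lit 1) (.p (nat_lit 19) (nat_lit 1) (.p (nat_lit 27) (nat_lit 1) (.n (nat_lit 28) (nat_lit 2) (.p (nat_lit 29) (nat_lit 2) (.p (nat_lit 30) (nat_lit 5) (.p (nat_lit 31) (nat_lit 1) (.p (nat_lit 32) (nat_lit 4) .z)))))))) .nil)))))))))))))))))) (.nd (.nd .leaf (nat_lit 210945) (nat_lit 863) (.p (nat_lit 328) (nat_lit 3) (.p (nat_lit 330) (nat_lit 3) (.n (nat_lit 331) (nat_lit 2) (.n (nat_lit 332) (nat_lit 3) (.p (nat_lit 334) (nat_lit 1) (.p (nat_lit 335) (nat_lit 1) (.p (nat_lit 336) (nat_lit 2) (.p (nat_lit 337) (nat_lit 2) (.n (nat_lit 338) (nat_lit 1) (.n (nat_lit 340) (nat_lit 2) (.n (nat_lit 341) (nat_lit 1) .z))))))))))) (.ct dC1d_c277 (nat_lit 1) (nat_lit 9) (.s true (nat_lit 1) (nat_lit 18) (nat_lit 0) (nat_lit 6) (nat_lit 1) true (nat_lit 7) true (nat_lit 9) true (nat_lit 0) true (nat_lit 10) true (nat_lit 4) (.e false (nat_lit 1) (nat_lit 35) (nat_lit 18) (nat_lit 0) (.e false (nat_lit 1) (nat_lit 211) (nat_lit 0) (nat_lit 10) (.e false (nat_lit 2) (nat_lit 84) (nat_lit 6) (nat_lit 4) (.e true (nat_lit 1) (nat_lit 86) (nat_lit 6) (nat_lit 4) (.e false (nat_lit 2) (nat_lit 87) (nat_lit 6) (nat_lit 4) (.e false (nat_lit 1) (nat_lit 90) (nat_lit 6) (nat_lit 4) (.e true (nat_lit 1) (nat_lit 92) (nat_lit 6) (nat_lit 4) (.u (nat_lit 2) (.n (nat_lit 0) (nat_lit 1) (.n (nat_lit 3) (nat_lit 1) (.p (nat_lit 4) (nat_lit 1) .z))) .nil)))))))))) .leaf) (nat_lit 210947) (nat_lit 1305) (.n (nat_lit 427) (nat_lit 1) (.p (nat_lit 428) (nat_lit 1) (.n (nat_lit 429) (nat_lit 1) (.p (nat_lit 431) (nat_lit 1) (.p (nat_lit 434) (nat_lit 3) (.n (nat_lit 435) (nat_lit 3) (.p (nat_lit 436) (nat_lit 3) (.p (nat_lit 438) (nat_lit 1) (.n (nat_lit 439) (nat_lit 1) (.p (nat_lit 456) (nat_lit 2) (.n (nat_lit 459) (nat_lit 1) .z))))))))))) (.ct dC1d_c533 (nat_lit 1) (nat_lit 12) (.s true (nat_lit 1) (nat_lit 46) (nat_lit 0) (nat_lit 2) (nat_lit 3) true (nat_lit 8) true (nat_lit 12) false (nat_lit 2) true (nat_lit 15) true (nat_lit 13) (.s true (nat_lit 1) (nat_lit 46) (nat_lit 2) (nat_lit 0) (nat_lit 3) true (nat_lit 6) true (nat_lit 12) false (nat_lit 2) true (nat_lit 13) true (nat_lit 15) (.s true (nat_lit 1) (nat_lit 46) (nat_lit 3) (nat_lit 0) (nat_lit 2) true (nat_lit 6) true (nat_lit 13) false (nat_lit 2) true (nat_lit 12) true (nat_lit 15) (.e true (nat_lit 1) (nat_lit 106) (nat_lit 7) (nat_lit 8) (.e true (nat_lit 1) (nat_lit 329) (nat_lit 0) (nat_lit 15) (.e false (nat_lit 1) (nat_lit 330) (nat_lit 0) (nat_lit 15) (.e true (nat_lit 1) (nat_lit 331) (nat_lit 0) (nat_lit 15) (.e false (nat_lit 1) (nat_lit 333) (nat_lit 0) (nat_lit 15) (.e false (nat_lit 3) (nat_lit 336) (nat_lit 0) (nat_lit 15) (.e true (nat_lit 3) (nat_lit 337) (nat_lit 0) (nat_lit 15) (.e false (nat_lit 1) (nat_lit 340) (nat_lit 0) (nat_lit 15) (.e false (nat_lit 1) (nat_lit 270) (nat_lit 2) (nat_lit 13) (.e true (nat_lit 1) (nat_lit 286) (nat_lit 2) (nat_lit 13) (.e false (nat_lit 1) (nat_lit 46) (nat_lit 20) (nat_lit 2) (.e false (nat_lit 3) (nat_lit 338) (nat_lit 0) (nat_lit 15) (.e true (nat_lit 1) (nat_lit 341) (nat_lit 0) (nat_lit 15) (.u (nat_lit 2) (.p (nat_lit 0) (nat_lit 1) (.p (nat_lit 1) (nat_lit 1) (.p (nat_lit 3) (nat_lit 1) (.p (nat_lit 9) (nat_lit 1) (.p (nat_lit 12) (nat_lit 1) (.p (nat_lit 13) (nat_lit 1) (.n (nat_lit 16) (nat_lit 1) (.n (nat_lit 18) (nat_lit 1) (.p (nat_lit 33) (nat_lit 1) (.p (nat_lit 220) (nat_lit 1) .z)))))))))) .nil)))))))))))))))))) .leaf)) (nat_lit 211968) (nat_lit 874) (.p (nat_lit 328) (nat_lit 1) (.p (nat_lit 329) (nat_lit 2) (.p (nat_lit 330) (nat_lit 1) (.n (nat_lit 331) (nat_lit 2) (.n (nat_lit 332) (nat_lit 1) (.n (nat_lit 334) (nat_lit 3) (.n (nat_lit 335) (nat_lit 1) (.n (nat_lit 336) (nat_lit 3) (.n (nat_lit 337) (nat_lit 3) (.p (nat_lit 338) (nat_lit 3) (.n (nat_lit 339) (nat_lit 1) (.p (nat_lit 341) (nat_lit 1) (.n (nat_lit 342) (nat_lit 1) (.p (nat_lit 343) (nat_lit 1) (.p (nat_lit 344) (nat_lit 1) (.p (nat_lit 345) (nat_lit 1) (.p (nat_lit 346) (nat_lit 1) .z))))))))))))))))) (.ct dC1d_c277 (nat_lit 1) (nat_lit 10) (.s true (nat_lit 1) (nat_lit 43) (nat_lit 2) (nat_lit 0) (nat_lit 2) true (nat_lit 4) true (nat_lit 8) false (nat_lit 2) true (nat_lit 8) true (nat_lit 10) (.e false (nat_lit 1) (nat_lit 89) (nat_lit 6) (nat_lit 4) (.e true (nat_lit 1) (nat_lit 180) (nat_lit 2) (nat_lit 8) (.e false (nat_lit 3) (nat_lit 181) (nat_lit 2) (nat_lit 8) (.e true (nat_lit 3) (nat_lit 182) (nat_lit 2) (nat_lit 8) (.e true (nat_lit 2) (nat_lit 183) (nat_lit 2) (nat_lit 8) (.e false (nat_lit 1) (nat_lit 184) (nat_lit 2) (nat_lit 8) (.e true (nat_lit 3) (nat_lit 185) (nat_lit 2) (nat_lit 8) (.e false (nat_lit 2) (nat_lit 186) (nat_lit 2) (nat_lit 8) (.e false (nat_lit 2) (nat_lit 187) (nat_lit 2) (nat_lit 8) (.e false (nat_lit 1) (nat_lit 191) (nat_lit 2) (nat_lit 8) (.e false (nat_lit 1) (nat_lit 193) (nat_lit 2) (nat_lit 8) (.e false (nat_lit 1) (nat_lit 194) (nat_lit 2) (nat_lit 8) (.e false (nat_lit 1) (nat_lit 43) (nat_lit 14) (nat_lit 2) (.e true (nat_lit 1) (nat_lit 195) (nat_lit 2) (nat_lit 8) (.u (nat_lit 2) (.n (nat_lit 2) (nat_lit 1) (.n (nat_lit 5) (nat_lit 1) (.p (nat_lit 6) (nat_lit 1) (.p (nat_lit 7) (nat_lit 1) (.p (nat_lit 8) (nat_lit 1) (.p (nat_lit 63) (nat_lit 1) (.n (nat_lit 66) (nat_lit 1) (.n (nat_lit 67) (nat_lit 1) .z)))))))) .nil))))))))))))))))) (.nd (.nd (.nd .leaf (nat_lit 211969) (nat_lit 915) (.p (nat_lit 347) (nat_lit 1) (.p (nat_lit 348) (nat_lit 2) (.n (nat_lit 349) (nat_lit 3) (.p (nat_lit 350) (nat_lit 1) (.n (nat_lit 351) (nat_lit 1) (.p (nat_lit 352) (nat_lit 1) (.p (nat_lit 353) (nat_lit 1) (.n (nat_lit 354) (nat_lit 3) .z)))))))) (.ct dC1d_c37 (nat_lit 1) (nat_lit 6) (.s true (nat_lit 1) (nat_lit 43) (nat_lit 2) (nat_lit 2) (nat_lit 1) true (nat_lit 4) true (nat_lit 6) false (nat_lit 1) true (nat_lit 5) true (nat_lit 5) (.e true (nat_lit 1) (nat_lit 102) (nat_lit 5) (nat_lit 4) (.e false (nat_lit 1) (nat_lit 43) (nat_lit 17) (nat_lit 1) (.e false (nat_lit 1) (nat_lit 197) (nat_lit 2) (nat_lit 5) (.e false (nat_lit 2) (nat_lit 199) (nat_lit 2) (nat_lit 5) (.e true (nat_lit 1) (nat_lit 201) (nat_lit 2) (nat_lit 5) (.u (nat_lit 2) (.p (nat_lit 2) (nat_lit 1) (.n (nat_lit 5) (nat_lit 1) (.p (nat_lit 7) (nat_lit 1) .z))) .nil)))))))) .leaf) (nat_lit 211971) (nat_lit 1505) (.p (nat_lit 460) (nat_lit 3) (.n (nat_lit 461) (nat_lit 1) (.p (nat_lit 462) (nat_lit 1) (.p (nat_lit 463) (nat_lit 1) (.n (nat_lit 464) (nat_lit 3) (.p (nat_lit 465) (nat_lit 3) (.n (nat_lit 466) (nat_lit 3) (.p (nat_lit 467) (nat_lit 2) (.p (nat_lit 469) (nat_lit 3) (.p (nat_lit 470) (nat_lit 1) (.n (nat_lit 471) (nat_lit 1) (.n (nat_lit 472) (nat_lit 2) (.p (nat_lit 473) (nat_lit 3) (.p (nat_lit 474) (nat_lit 1) (.n (nat_lit 475) (nat_lit 3) (.n (nat_lit 476) (nat_lit 3) (.p (nat_lit 478) (nat_lit 1) (.n (nat_lit 479) (nat_lit 3) (.n (nat_lit 480) (nat_lit 1) .z))))))))))))))))))) (.ct dC1d_c293 (nat_lit 1) (nat_lit 12) (.s true (nat_lit 1) (nat_lit 43) (nat_lit 2) (nat_lit 3) (nat_lit 2) true (nat_lit 9) true (nat_lit 13) false (nat_lit 1) true (nat_lit 13) true (nat_lit 12) (.e false (nat_lit 3) (nat_lit 153) (nat_lit 6) (nat_lit 9) (.e false (nat_lit 2) (nat_lit 154) (nat_lit 6) (nat_lit 9) (.e true (nat_lit 2) (nat_lit 155) (nat_lit 6) (nat_lit 9) dC1d_i133))))) .leaf) (nat_lit 212992) (nat_lit 886) (.n (nat_lit 328) (nat_lit 1) (.p (nat_lit 329) (nat_lit 3) (.n (nat_lit 330) (nat_lit 3) (.p (nat_lit 331) (nat_lit 1) (.p (nat_lit 332) (nat_lit 1) (.p (nat_lit 333) (nat_lit 2) (.p (nat_lit 334) (nat_lit 2) (.n (nat_lit 335) (nat_lit 1) (.p (nat_lit 336) (nat_lit 1) (.p (nat_lit 337) (nat_lit 3) (.p (nat_lit 338) (nat_lit 1) (.n (nat_lit 339) (nat_lit 2) (.n (nat_lit 340) (nat_lit 3) (.n (nat_lit 341) (nat_lit 1) (.p (nat_lit 343) (nat_lit 1) (.p (nat_lit 344) (nat_lit 2) (.n (nat_lit 345) (nat_lit 1) (.n (nat_lit 346) (nat_lit 1) .z)))))))))))))))))) (.ct dC1d_c277 (nat_lit 1) (nat_lit 10) (.s true (nat_lit 1) (nat_lit 44) (nat_lit 2) (nat_lit 2) (nat_lit 0) true (nat_lit 6) true (nat_lit 10) false (nat_lit 2) true (nat_lit 8) true (nat_lit 8) (.e true (nat_lit 1) (nat_lit 103) (nat_lit 4) (nat_lit 6) (.e false (nat_lit 1) (nat_lit 44) (nat_lit 15) (nat_lit 2) (.e true (nat_lit 2) (nat_lit 180) (nat_lit 2) (nat_lit 8) (.e true (nat_lit 3) (nat_lit 181) (nat_lit 2) (nat_lit 8) (.e true (nat_lit 2) (nat_lit 183) (nat_lit 2) (nat_lit 8) (.e false (nat_lit 3) (nat_lit 184) (nat_lit 2) (nat_lit 8) (.e false (nat_lit 3) (nat_lit 187) (nat_lit 2) (nat_lit 8) (.e true (nat_lit 2) (nat_lit 188) (nat_lit 2) (nat_lit 8) (.e true (nat_lit 3) (nat_lit 190) (nat_lit 2) (nat_lit 8) (.e false (nat_lit 1) (nat_lit 191) (nat_lit 2) (nat_lit 8) (.e false (nat_lit 2) (nat_lit 193) (nat_lit 2) (nat_lit 8) (.e false (nat_lit 1) (nat_lit 195) (nat_lit 2) (nat_lit 8) (.e true (nat_lit 1) (nat_lit 182) (nat_lit 2) (nat_lit 8) (.u (nat_lit 2) (.n (nat_lit 1) (nat_lit 2) (.n (nat_lit 3) (nat_lit 1) (.p (nat_lit 5) (nat_lit 1) (.n (nat_lit 10) (nat_lit 1) (.p (nat_lit 11) (nat_lit 1) (.p (nat_lit 12) (nat_lit 1) .z)))))) .nil)))))))))))))))) (.nd (.nd .leaf (nat_lit 212993) (nat_lit 909) (.n (nat_lit 347) (nat_lit 1) (.n (nat_lit 348) (nat_lit 3) (.p (nat_lit 349) (nat_lit 1) (.n (nat_lit 350) (nat_lit 1) (.p (nat_lit 351) (nat_lit 1) (.p (nat_lit 352) (nat_lit 3) (.n (nat_lit 353) (nat_lit 1) (.p (nat_lit 354) (nat_lit 1) .z)))))))) (.ct dC1d_c37 (nat_lit 1) (nat_lit 6) (.s true (nat_lit 1) (nat_lit 44) (nat_lit 2) (nat_lit 2) (nat_lit 1) true (nat_lit 4) true (nat_lit 6) false (nat_lit 1) true (nat_lit 5) true (nat_lit 5) (.e true (nat_lit 1) (nat_lit 103) (nat_lit 5) (nat_lit 4) (.e false (nat_lit 1) (nat_lit 44) (nat_lit 17) (nat_lit 1) (.e false (nat_lit 3) (nat_lit 196) (nat_lit 2) (nat_lit 5) (.e false (nat_lit 2) (nat_lit 197) (nat_lit 2) (nat_lit 5) (.e true (nat_lit 2) (nat_lit 199) (nat_lit 2) (nat_lit 5) (.e true (nat_lit 1) (nat_lit 200) (nat_lit 2) (nat_lit 5) (.e true (nat_lit 3) (nat_lit 201) (nat_lit 2) (nat_lit 5) (.e false (nat_lit 3) (nat_lit 198) (nat_lit 2) (nat_lit 5) (.u (nat_lit 2) (.p (nat_lit 0) (nat_lit 1) (.p (nat_lit 1) (nat_lit 1) (.n (nat_lit 5) (nat_lit 1) (.n (nat_lit 27) (nat_lit 1) (.p (nat_lit 32) (nat_lit 1) .z))))) .nil))))))))))) .leaf) (nat_lit 212995) (nat_lit 1482) (.p (nat_lit 460) (nat_lit 2) (.n (nat_lit 461) (nat_lit 3) (.n (nat_lit 462) (nat_lit 1) (.p (nat_lit 463) (nat_lit 3) (.p (nat_lit 464) (nat_lit 1) (.n (nat_lit 465) (nat_lit 3) (.p (nat_lit 466) (nat_lit 1) (.p (nat_lit 467) (nat_lit 1) (.p (nat_lit 468) (nat_lit 1) (.n (nat_lit 469) (nat_lit 2) (.n (nat_lit 470) (nat_lit 1) (.n (nat_lit 472) (nat_lit 2) (.p (nat_lit 473) (nat_lit 3) (.n (nat_lit 474) (nat_lit 1) (.n (nat_lit 475) (nat_lit 3) (.n (nat_lit 476) (nat_lit 3) (.n (nat_lit 477) (nat_lit 1) (.p (nat_lit 478) (nat_lit 2) (.n (nat_lit 479) (nat_lit 3) (.n (nat_lit 480) (nat_lit 2) (.n (nat_lit 489) (nat_lit 1) (.n (nat_lit 493) (nat_lit 3) .z)))))))))))))))))))))) (.ct dC1d_c293 (nat_lit 1) (nat_lit 12) (.s true (nat_lit 3) (nat_lit 44) (nat_lit 3) (nat_lit 2) (nat_lit 2) true (nat_lit 7) true (nat_lit 13) false (nat_lit 1) true (nat_lit 12) true (nat_lit 13) (.e false (nat_lit 3) (nat_lit 103) (nat_lit 10) (nat_lit 7) (.e true (nat_lit 3) (nat_lit 310) (nat_lit 2) (nat_lit 13) (.e false (nat_lit 3) (nat_lit 44) (nat_lit 31) (nat_lit 1) (.e true (nat_lit 1) (nat_lit 209) (nat_lit 3) (nat_lit 12) (.e true (nat_lit 3) (nat_lit 211) (nat_lit 3) (nat_lit 12) (.e true (nat_lit 1) (nat_lit 290) (nat_lit 2) (nat_lit 13) (.e false (nat_lit 1) (nat_lit 291) (nat_lit 2) (nat_lit 13) (.e true (nat_lit 3) (nat_lit 294) (nat_lit 2) (nat_lit 13) (.e true (nat_lit 3) (nat_lit 298) (nat_lit 2) (nat_lit 13) (.e false (nat_lit 1) (nat_lit 299) (nat_lit 2) (nat_lit 13) (.e true (nat_lit 1) (nat_lit 301) (nat_lit 2) (nat_lit 13) (.e true (nat_lit 1) (nat_lit 304) (nat_lit 2) (nat_lit 13) (.e true (nat_lit 2) (nat_lit 307) (nat_lit 2) (nat_lit 13) (.e false (nat_lit 1) (nat_lit 308) (nat_lit 2) (nat_lit 13) (.e true (nat_lit 3) (nat_lit 311) (nat_lit 2) (nat_lit 13) (.e true (nat_lit 1) (nat_lit 316) (nat_lit 2) (nat_lit 13) (.e true (nat_lit 1) (nat_lit 317) (nat_lit 2) (nat_lit 13) (.e true (nat_lit 3) (nat_lit 319) (nat_lit 2) (nat_lit 13) (.u (nat_lit 2) (.n (nat_lit 0) (nat_lit 2) (.n (nat_lit 1) (nat_lit 2) (.p (nat_lit 2) (nat_lit 1) (.p (nat_lit 4) (nat_lit 1) (.n (nat_lit 5) (nat_lit 1) (.p (nat_lit 6) (nat_lit 2) (.p (nat_lit 7) (nat_lit 1) (.p (nat_lit 8) (nat_lit 2) (.p (nat_lit 9) (nat_lit 2) (.p (nat_lit 10) (nat_lit 2) (.n (nat_lit 11) (nat_lit 1) (.n (nat_lit 12) (nat_lit 1) (.n (nat_lit 13) (nat_lit 2) (.n (nat_lit 14) (nat_lit 4) (.p (nat_lit 15) (nat_lit 3) (.n (nat_lit 16) (nat_lit 2) (.n (nat_lit 18) (nat_lit 2) (.p (nat_lit 19) (nat_lit 3) (.p (nat_lit 20) (nat_lit 2) (.n (nat_lit 23) (nat_lit 2) (.p (nat_lit 26) (nat_lit 3) (.n (nat_lit 29) (nat_lit 1) (.n (nat_lit 33) (nat_lit 2) (.p (nat_lit 169) (nat_lit 1) (.p (nat_lit 170) (nat_lit 1) (.p (nat_lit 173) (nat_lit 1) (.n (nat_lit 174) (nat_lit 1) (.n (nat_lit 182) (nat_lit 1) (.p (nat_lit 184) (nat_lit 1) (.p (nat_lit 187) (nat_lit 1) (.n (nat_lit 190) (nat_lit 1) (.n (nat_lit 191) (nat_lit 1) (.p (nat_lit 199) (nat_lit 1) (.p (nat_lit 200) (nat_lit 1) .z)))))))))))))))))))))))))))))))))) .nil))))))))))))))))))))) .leaf))) (nat_lit 214016) (nat_lit 880) (.n (nat_lit 328) (nat_lit 3) (.p (nat_lit 329) (nat_lit 2) (.n (nat_lit 330) (nat_lit 2) (.p (nat_lit 331) (nat_lit 3) (.p (nat_lit 332) (nat_lit 3) (.n (nat_lit 334) (nat_lit 2) (.n (nat_lit 335) (nat_lit 2) (.p (nat_lit 337) (nat_lit 2) (.p (nat_lit 338) (nat_lit 2) (.p (nat_lit 340) (nat_lit 1) (.p (nat_lit 341) (nat_lit 1) (.n (nat_lit 344) (nat_lit 1) (.p (nat_lit 345) (nat_lit 1) (.p (nat_lit 346) (nat_lit 1) .z)))))))))))))) (.ct dC1d_c277 (nat_lit 1) (nat_lit 10) (.s true (nat_lit 1) (nat_lit 46) (nat_lit 2) (nat_lit 0) (nat_lit 1) true (nat_lit 5) true (nat_lit 9) false (nat_lit 3) true (nat_lit 8) true (nat_lit 10) (.e false (nat_lit 1) (nat_lit 99) (nat_lit 5) (nat_lit 5) (.e true (nat_lit 1) (nat_lit 101) (nat_lit 5) (nat_lit 5) (.e true (nat_lit 1) (nat_lit 205) (nat_lit 1) (nat_lit 9) (.e false (nat_lit 1) (nat_lit 46) (nat_lit 11) (nat_lit 3) (.e false (nat_lit 1) (nat_lit 181) (nat_lit 2) (nat_lit 8) (.e true (nat_lit 1) (nat_lit 182) (nat_lit 2) (nat_lit 8) (.e false (nat_lit 1) (nat_lit 183) (nat_lit 2) (nat_lit 8) (.e true (nat_lit 1) (nat_lit 185) (nat_lit 2) (nat_lit 8) (.e true (nat_lit 1) (nat_lit 192) (nat_lit 2) (nat_lit 8) (.u (nat_lit 2) (.p (nat_lit 0) (nat_lit 1) (.n (nat_lit 4) (nat_lit 1) (.n (nat_lit 8) (nat_lit 1) (.n (nat_lit 9) (nat_lit 1) .z)))) .nil)))))))))))) (.nd (.nd (.nd (.nd .leaf (nat_lit 214017) (nat_lit 911) (.n (nat_lit 348) (nat_lit 3) (.n (nat_lit 349) (nat_lit 2) (.p (nat_lit 350) (nat_lit 3) (.n (nat_lit 351) (nat_lit 1) (.n (nat_lit 352) (nat_lit 2) (.p (nat_lit 353) (nat_lit 1) .z)))))) (.ct dC1d_c37 (nat_lit 1) (nat_lit 6) (.s true (nat_lit 3) (nat_lit 17) (nat_lit 2) (nat_lit 1) (nat_lit 6) true (nat_lit 0) true (nat_lit 3) true (nat_lit 1) true (nat_lit 5) true (nat_lit 6) (.e true (nat_lit 3) (nat_lit 39) (nat_lit 18) (nat_lit 0) (.e true (nat_lit 3) (nat_lit 97) (nat_lit 6) (nat_lit 3) (.e true (nat_lit 3) (nat_lit 44) (nat_lit 17) (nat_lit 1) (.e true (nat_lit 3) (nat_lit 45) (nat_lit 17) (nat_lit 1) (.e true (nat_lit 1) (nat_lit 208) (nat_lit 1) (nat_lit 6) (.u (nat_lit 2) (.p (nat_lit 0) (nat_lit 1) (.p (nat_lit 1) (nat_lit 3) (.p (nat_lit 2) (nat_lit 1) (.p (nat_lit 3) (nat_lit 1) (.n (nat_lit 5) (nat_lit 1) (.n (nat_lit 7) (nat_lit 1) (.p (nat_lit 34) (nat_lit 1) (.p (nat_lit 35) (nat_lit 1) .z)))))))) .nil)))))))) .leaf) (nat_lit 214019) (nat_lit 1480) (.n (nat_lit 460) (nat_lit 2) (.n (nat_lit 461) (nat_lit 2) (.p (nat_lit 462) (nat_lit 3) (.n (nat_lit 463) (nat_lit 3) (.n (nat_lit 464) (nat_lit 3) (.p (nat_lit 465) (nat_lit 2) (.p (nat_lit 467) (nat_lit 1) (.n (nat_lit 468) (nat_lit 3) (.n (nat_lit 469) (nat_lit 2) (.n (nat_lit 470) (nat_lit 1) (.n (nat_lit 471) (nat_lit 2) (.p (nat_lit 472) (nat_lit 2) (.p (nat_lit 473) (nat_lit 3) (.p (nat_lit 474) (nat_lit 3) (.n (nat_lit 475) (nat_lit 2) (.n (nat_lit 477) (nat_lit 3) (.n (nat_lit 479) (nat_lit 3) (.n (nat_lit 489) (nat_lit 1) (.n (nat_lit 493) (nat_lit 3) .z))))))))))))))))))) (.ct dC1d_c293 (nat_lit 1) (nat_lit 12) (.s false (nat_lit 1) (nat_lit 18) (nat_lit 2) (nat_lit 2) (nat_lit 8) true (nat_lit 2) true (nat_lit 8) true (nat_lit 3) true (nat_lit 13) true (nat_lit 13) (.s false (nat_lit 1) (nat_lit 46) (nat_lit 1) (nat_lit 3) (nat_lit 2) true (nat_lit 10) true (nat_lit 13) false (nat_lit 2) true (nat_lit 14) true (nat_lit 12) dC1d_i134))) .leaf) (nat_lit 215040) (nat_lit 883) (.p (nat_lit 328) (nat_lit 2) (.n (nat_lit 329) (nat_lit 1) (.n (nat_lit 330) (nat_lit 2) (.n (nat_lit 331) (nat_lit 3) (.n (nat_lit 332) (nat_lit 2) (.n (nat_lit 336) (nat_lit 3) (.n (nat_lit 337) (nat_lit 2) (.n (nat_lit 338) (nat_lit 3) (.p (nat_lit 341) (nat_lit 1) (.n (nat_lit 344) (nat_lit 1) (.p (nat_lit 345) (nat_lit 1) (.p (nat_lit 346) (nat_lit 1) .z)))))))))))) (.ct dC1d_c277 (nat_lit 1) (nat_lit 10) (.s true (nat_lit 1) (nat_lit 46) (nat_lit 2) (nat_lit 1) (nat_lit 0) true (nat_lit 6) true (nat_lit 10) false (nat_lit 3) true (nat_lit 8) true (nat_lit 9) (.e false (nat_lit 1) (nat_lit 103) (nat_lit 4) (nat_lit 6) (.e true (nat_lit 1) (nat_lit 105) (nat_lit 4) (nat_lit 6) (.e false (nat_lit 1) (nat_lit 46) (nat_lit 12) (nat_lit 3) (.e true (nat_lit 1) (nat_lit 181) (nat_lit 2) (nat_lit 8) (.e false (nat_lit 1) (nat_lit 182) (nat_lit 2) (nat_lit 8) (.e true (nat_lit 1) (nat_lit 183) (nat_lit 2) (nat_lit 8) (.e false (nat_lit 1) (nat_lit 185) (nat_lit 2) (nat_lit 8) (.e false (nat_lit 1) (nat_lit 192) (nat_lit 2) (nat_lit 8) (.e true (nat_lit 1) (nat_lit 204) (nat_lit 1) (nat_lit 9) (.u (nat_lit 2) (.p (nat_lit 2) (nat_lit 1) .z) .nil)))))))))))) (.nd (.nd .leaf (nat_lit 215041) (nat_lit 912) (.n (nat_lit 347) (nat_lit 3) (.n (nat_lit 348) (nat_lit 1) (.p (nat_lit 350) (nat_lit 2) (.p (nat_lit 353) (nat_lit 1) .z)))) (.ct dC1d_c37 (nat_lit 1) (nat_lit 6) (.s true (nat_lit 1) (nat_lit 46) (nat_lit 2) (nat_lit 1) (nat_lit 1) true (nat_lit 4) true (nat_lit 6) false (nat_lit 2) true (nat_lit 5) true (nat_lit 6) (.e false (nat_lit 1) (nat_lit 103) (nat_lit 5) (nat_lit 4) (.e true (nat_lit 1) (nat_lit 105) (nat_lit 5) (nat_lit 4) (.e false (nat_lit 1) (nat_lit 46) (nat_lit 13) (nat_lit 2) (.e true (nat_lit 1) (nat_lit 209) (nat_lit 1) (nat_lit 6) (.u (nat_lit 2) (.p (nat_lit 1) (nat_lit 1) .z) .nil))))))) .leaf) (nat_lit 215043) (nat_lit 1484) (.p (nat_lit 460) (nat_lit 3) (.p (nat_lit 461) (nat_lit 3) (.n (nat_lit 462) (nat_lit 1) (.p (nat_lit 463) (nat_lit 1) (.p (nat_lit 464) (nat_lit 1) (.n (nat_lit 465) (nat_lit 3) (.n (nat_lit 467) (nat_lit 2) (.p (nat_lit 468) (nat_lit 3) (.p (nat_lit 469) (nat_lit 2) (.n (nat_lit 470) (nat_lit 2) (.p (nat_lit 471) (nat_lit 1) (.n (nat_lit 475) (nat_lit 1) (.p (nat_lit 476) (nat_lit 2) (.n (nat_lit 477) (nat_lit 3) (.p (nat_lit 479) (nat_lit 2) .z))))))))))))))) (.ct dC1d_c293 (nat_lit 1) (nat_lit 12) (.s true (nat_lit 1) (nat_lit 43) (nat_lit 3) (nat_lit 2) (nat_lit 2) true (nat_lit 7) true (nat_lit 13) false (nat_lit 1) true (nat_lit 12) true (nat_lit 13) (.e false (nat_lit 1) (nat_lit 102) (nat_lit 10) (nat_lit 7) (.e false (nat_lit 3) (nat_lit 290) (nat_lit 2) (nat_lit 13) (.e false (nat_lit 3) (nat_lit 291) (nat_lit 2) (nat_lit 13) (.e false (nat_lit 1) (nat_lit 292) (nat_lit 2) (nat_lit 13) (.e true (nat_lit 1) (nat_lit 293) (nat_lit 2) (nat_lit 13) (.e true (nat_lit 1) (nat_lit 298) (nat_lit 2) (nat_lit 13) (.e true (nat_lit 1) (nat_lit 299) (nat_lit 2) (nat_lit 13) (.e true (nat_lit 3) (nat_lit 301) (nat_lit 2) (nat_lit 13) (.e true (nat_lit 2) (nat_lit 307) (nat_lit 2) (nat_lit 13) (.e false (nat_lit 2) (nat_lit 308) (nat_lit 2) (nat_lit 13) (.e false (nat_lit 1) (nat_lit 43) (nat_lit 31) (nat_lit 1) (.e false (nat_lit 1) (nat_lit 208) (nat_lit 3) (nat_lit 12) (.e false (nat_lit 2) (nat_lit 209) (nat_lit 3) (nat_lit 12) (.e false (nat_lit 1) (nat_lit 211) (nat_lit 3) (nat_lit 12) (.e true (nat_lit 3) (nat_lit 294) (nat_lit 2) (nat_lit 13) (.e false (nat_lit 1) (nat_lit 304) (nat_lit 2) (nat_lit 13) (.e true (nat_lit 1) (nat_lit 311) (nat_lit 2) (nat_lit 13) (.e true (nat_lit 3) (nat_lit 316) (nat_lit 2) (nat_lit 13) (.e false (nat_lit 3) (nat_lit 317) (nat_lit 2) (nat_lit 13) (.u (nat_lit 2) (.n (nat_lit 0) (nat_lit 3) (.n (nat_lit 1) (nat_lit 1) (.n (nat_lit 2) (nat_lit 2) (.n (nat_lit 3) (nat_lit 1) (.n (nat_lit 4) (nat_lit 3) (.n (nat_lit 5) (nat_lit 3) (.p (nat_lit 6) (nat_lit 1) (.n (nat_lit 8) (nat_lit 1) (.n (nat_lit 9) (nat_lit 1) (.p (nat_lit 10) (nat_lit 2) (.n (nat_lit 11) (nat_lit 1) (.n (nat_lit 12) (nat_lit 2) (.p (nat_lit 13) (nat_lit 3) (.p (nat_lit 14) (nat_lit 2) (.n (nat_lit 15) (nat_lit 2) (.n (nat_lit 16) (nat_lit 2) (.n (nat_lit 17) (nat_lit 1) (.p (nat_lit 19) (nat_lit 1) (.p (nat_lit 21) (nat_lit 2) (.n (nat_lit 23) (nat_lit 1) (.n (nat_lit 29) (nat_lit 3) (.n (nat_lit 173) (nat_lit 1) (.n (nat_lit 174) (nat_lit 1) (.p (nat_lit 184) (nat_lit 1) .z)))))))))))))))))))))))) .nil)))))))))))))))))))))) .leaf)) (nat_lit 216064) (nat_lit 860) (.p (nat_lit 328) (nat_lit 3) (.n (nat_lit 329) (nat_lit 1) (.n (nat_lit 330) (nat_lit 3) (.n (nat_lit 331) (nat_lit 3) (.n (nat_lit 332) (nat_lit 3) (.p (nat_lit 333) (nat_lit 1) (.p (nat_lit 334) (nat_lit 1) (.p (nat_lit 335) (nat_lit 1) (.n (nat_lit 336) (nat_lit 2) (.n (nat_lit 337) (nat_lit 1) (.p (nat_lit 338) (nat_lit 2) (.n (nat_lit 340) (nat_lit 1) (.n (nat_lit 341) (nat_lit 2) .z))))))))))))) (.ct dC1d_c277 (nat_lit 1) (nat_lit 10) (.s false (nat_lit 1) (nat_lit 18) (nat_lit 0) (nat_lit 2) (nat_lit 5) true (nat_lit 3) true (nat_lit 5) true (nat_lit 0) true (nat_lit 10) true (nat_lit 8) (.s false (nat_lit 1) (nat_lit 18) (nat_lit 6) (nat_lit 0) (nat_lit 1) true (nat_lit 1) true (nat_lit 9) true (nat_lit 0) true (nat_lit 4) true (nat_lit 10) (.s false (nat_lit 1) (nat_lit 46) (nat_lit 0) (nat_lit 2) (nat_lit 1) true (nat_lit 7) true (nat_lit 9) false (nat_lit 3) true (nat_lit 10) true (nat_lit 8) (.e false (nat_lit 1) (nat_lit 46) (nat_lit 12) (nat_lit 3) dC1d_i135))))) (.nd (.nd (.nd .leaf (nat_lit 216065) (nat_lit 897) (.p (nat_lit 347) (nat_lit 3) (.p (nat_lit 348) (nat_lit 1) (.n (nat_lit 349) (nat_lit 3) (.p (nat_lit 350) (nat_lit 1) (.p (nat_lit 351) (nat_lit 3) (.n (nat_lit 352) (nat_lit 1) .z)))))) (.ct dC1d_c37 (nat_lit 1) (nat_lit 6) (.s true (nat_lit 1) (nat_lit 6) (nat_lit 1) (nat_lit 6) (nat_lit 5) true (nat_lit 2) true (nat_lit 4) true (nat_lit 3) true (nat_lit 6) true (nat_lit 3) (.s true (nat_lit 2) (nat_lit 13) (nat_lit 6) (nat_lit 2) (nat_lit 2) true (nat_lit 0) true (nat_lit 5) true (nat_lit 2) true (nat_lit 3) true (nat_lit 5) (.s false (nat_lit 1) (nat_lit 16) (nat_lit 1) (nat_lit 2) (nat_lit 6) true (nat_lit 1) true (nat_lit 3) true (nat_lit 1) true (nat_lit 6) true (nat_lit 5) (.s false (nat_lit 3) (nat_lit 17) (nat_lit 1) (nat_lit 2) (nat_lit 6) true (nat_lit 1) true (nat_lit 3) true (nat_lit 1) true (nat_lit 6) true (nat_lit 5) (.s true (nat_lit 1) (nat_lit 17) (nat_lit 5) (nat_lit 2) (nat_lit 2) true (nat_lit 1) true (nat_lit 5) true (nat_lit 1) true (nat_lit 4) true (nat_lit 5) (.s false (nat_lit 3) (nat_lit 18) (nat_lit 1) (nat_lit 1) (nat_lit 6) true (nat_lit 1) true (nat_lit 3) true (nat_lit 0) true (nat_lit 6) true (nat_lit 6) (.s false (nat_lit 1) (nat_lit 18) (nat_lit 1) (nat_lit 5) (nat_lit 2) true (nat_lit 4) true (nat_lit 5) true (nat_lit 0) true (nat_lit 6) true (nat_lit 4) (.s false (nat_lit 1) (nat_lit 45) (nat_lit 1) (nat_lit 2) (nat_lit 2) true (nat_lit 4) true (nat_lit 5) false (nat_lit 1) true (nat_lit 6) true (nat_lit 5) (.s true (nat_lit 2) (nat_lit 44) (nat_lit 2) (nat_lit 1) (nat_lit 2) true (nat_lit 3) true (nat_lit 5) false (nat_lit 1) true (nat_lit 5) true (nat_lit 6) (.s false (nat_lit 2) (nat_lit 46) (nat_lit 1) (nat_lit 2) (nat_lit 1) false (nat_lit 7) true (nat_lit 6) false (nat_lit 2) true (nat_lit 6) true (nat_lit 5) (.e true (nat_lit 1) (nat_lit 93) (nat_lit 6) (nat_lit 3) (.e false (nat_lit 1) (nat_lit 37) (nat_lit 18) (nat_lit 0) (.e true (nat_lit 1) (nat_lit 197) (nat_lit 2) (nat_lit 5) (.e true (nat_lit 2) (nat_lit 199) (nat_lit 2) (nat_lit 5) (.e false (nat_lit 2) (nat_lit 200) (nat_lit 2) (nat_lit 5) (.e false (nat_lit 3) (nat_lit 196) (nat_lit 2) (nat_lit 5) (.u (nat_lit 2) (.p (nat_lit 18) (nat_lit 1) (.p (nat_lit 19) (nat_lit 1) (.p (nat_lit 27) (nat_lit 1) (.n (nat_lit 28) (nat_lit 2) (.p (nat_lit 29) (nat_lit 2) (.p (nat_lit 30) (nat_lit 5) (.p (nat_lit 31) (nat_lit 1) (.p (nat_lit 32) (nat_lit 4) .z)))))))) .nil)))))))))))))))))) .leaf) (nat_lit 216067) (nat_lit 1474) (.p (nat_lit 460) (nat_lit 1) (.n (nat_lit 462) (nat_lit 3) (.n (nat_lit 463) (nat_lit 2) (.n (nat_lit 464) (nat_lit 1) (.n (nat_lit 465) (nat_lit 3) (.n (nat_lit 467) (nat_lit 3) (.p (nat_lit 468) (nat_lit 2) (.p (nat_lit 471) (nat_lit 3) (.n (nat_lit 472) (nat_lit 1) (.p (nat_lit 473) (nat_lit 2) (.p (nat_lit 474) (nat_lit 2) (.p (nat_lit 475) (nat_lit 3) (.p (nat_lit 476) (nat_lit 2) (.p (nat_lit 477) (nat_lit 1) (.p (nat_lit 479) (nat_lit 2) (.p (nat_lit 489) (nat_lit 2) (.n (nat_lit 493) (nat_lit 1) .z))))))))))))))))) (.ct dC1d_c293 (nat_lit 1) (nat_lit 12) (.s false (nat_lit 1) (nat_lit 45) (nat_lit 3) (nat_lit 2) (nat_lit 2) true (nat_lit 7) true (nat_lit 13) false (nat_lit 1) true (nat_lit 12) true (nat_lit 13) (.e true (nat_lit 1) (nat_lit 104) (nat_lit 10) (nat_lit 7) (.e true (nat_lit 3) (nat_lit 291) (nat_lit 2) (nat_lit 13) (.e true (nat_lit 3) (nat_lit 294) (nat_lit 2) (nat_lit 13) (.e false (nat_lit 2) (nat_lit 304) (nat_lit 2) (nat_lit 13) (.e true (nat_lit 1) (nat_lit 45) (nat_lit 31) (nat_lit 1) (.e true (nat_lit 3) (nat_lit 290) (nat_lit 2) (nat_lit 13) (.e true (nat_lit 1) (nat_lit 292) (nat_lit 2) (nat_lit 13) (.e false (nat_lit 1) (nat_lit 293) (nat_lit 2) (nat_lit 13) (.e false (nat_lit 3) (nat_lit 299) (nat_lit 2) (nat_lit 13) (.e false (nat_lit 3) (nat_lit 301) (nat_lit 2) (nat_lit 13) (.e false (nat_lit 3) (nat_lit 307) (nat_lit 2) (nat_lit 13) (.e true (nat_lit 3) (nat_lit 308) (nat_lit 2) (nat_lit 13) (.e false (nat_lit 2) (nat_lit 316) (nat_lit 2) (nat_lit 13) (.e false (nat_lit 3) (nat_lit 317) (nat_lit 2) (nat_lit 13) (.u (nat_lit 2) (.p (nat_lit 0) (nat_lit 2) (.p (nat_lit 1) (nat_lit 2) (.p (nat_lit 2) (nat_lit 1) (.p (nat_lit 3) (nat_lit 2) (.p (nat_lit 4) (nat_lit 4) (.p (nat_lit 5) (nat_lit 2) (.n (nat_lit 8) (nat_lit 2) (.p (nat_lit 9) (nat_lit 2) (.p (nat_lit 10) (nat_lit 1) (.n (nat_lit 11) (nat_lit 1) (.p (nat_lit 12) (nat_lit 4) (.p (nat_lit 13) (nat_lit 2) (.p (nat_lit 14) (nat_lit 2) (.p (nat_lit 15) (nat_lit 3) (.n (nat_lit 17) (nat_lit 1) (.n (nat_lit 19) (nat_lit 1) (.n (nat_lit 21) (nat_lit 1) (.p (nat_lit 26) (nat_lit 1) (.p (nat_lit 29) (nat_lit 1) (.n (nat_lit 33) (nat_lit 2) .z)))))))))))))))))))) .nil))))))))))))))))) .leaf) (nat_lit 217090) (nat_lit 966) (.p (nat_lit 404) (nat_lit 1) .z) .df (.nd (.nd .leaf (nat_lit 218114) (nat_lit 967) (.p (nat_lit 405) (nat_lit 1) .z) .df .leaf) (nat_lit 219138) (nat_lit 968) (.p (nat_lit 406) (nat_lit 1) .z) .df .leaf)))) (nat_lit 220162) (nat_lit 1013) (.n (nat_lit 355) (nat_lit 2) (.n (nat_lit 356) (nat_lit 1) (.n (nat_lit 359) (nat_lit 2) (.n (nat_lit 360) (nat_lit 1) (.n (nat_lit 363) (nat_lit 1) (.p (nat_lit 364) (nat_lit 2) (.p (nat_lit 365) (nat_lit 1) (.p (nat_lit 366) (nat_lit 1) (.n (nat_lit 367) (nat_lit 3) (.p (nat_lit 369) (nat_lit 3) (.n (nat_lit 370) (nat_lit 2) (.n (nat_lit 372) (nat_lit 3) (.n (nat_lit 373) (nat_lit 2) (.n (nat_lit 374) (nat_lit 3) (.n (nat_lit 381) (nat_lit 2) (.p (nat_lit 382) (nat_lit 2) (.p (nat_lit 383) (nat_lit 2) (.p (nat_lit 384) (nat_lit 3) (.n (nat_lit 385) (nat_lit 2) (.p (nat_lit 387) (nat_lit 3) (.n (nat_lit 388) (nat_lit 2) (.p (nat_lit 389) (nat_lit 1) (.n (nat_lit 391) (nat_lit 3) (.p (nat_lit 392) (nat_lit 3) (.n (nat_lit 393) (nat_lit 1) (.p (nat_lit 394) (nat_lit 3) (.n (nat_lit 395) (nat_lit 2) (.p (nat_lit 396) (nat_lit 2) (.n (nat_lit 405) (nat_lit 1) (.p (nat_lit 406) (nat_lit 1) .z)))))))))))))))))))))))))))))) (.ct dC1d_c548 (nat_lit 1) (nat_lit 17) (.s false (nat_lit 1) (nat_lit 7) (nat_lit 2) (nat_lit 5) (nat_lit 6) true (nat_lit 5) true (nat_lit 13) true (nat_lit 12) true (nat_lit 17) true (nat_lit 14) (.s true (nat_lit 1) (nat_lit 7) (nat_lit 5) (nat_lit 6) (nat_lit 2) true (nat_lit 6) true (nat_lit 17) true (nat_lit 12) true (nat_lit 14) true (nat_lit 13) (.s true (nat_lit 2) (nat_lit 7) (nat_lit 6) (nat_lit 1) (nat_lit 6) false (nat_lit 4) true (nat_lit 13) true (nat_lit 12) true (nat_lit 13) true (nat_lit 18) (.s false (nat_lit 2) (nat_lit 7) (nat_lit 6) (nat_lit 6) (nat_lit 1) true (nat_lit 6) true (nat_lit 18) true (nat_lit 12) true (nat_lit 13) true (nat_lit 13) (.s true (nat_lit 2) (nat_lit 8) (nat_lit 2) (nat_lit 6) (nat_lit 4) true (nat_lit 7) true (nat_lit 15) true (nat_lit 11) true (nat_lit 17) true (nat_lit 13) (.s false (nat_lit 3) (nat_lit 8) (nat_lit 4) (nat_lit 6) (nat_lit 2) true (nat_lit 7) true (nat_lit 17) true (nat_lit 11) true (nat_lit 15) true (nat_lit 13) (.s true (nat_lit 2) (nat_lit 8) (nat_lit 6) (nat_lit 0) (nat_lit 6) false (nat_lit 4) true (nat_lit 13) true (nat_lit 11) true (nat_lit 13) true (nat_lit 19) (.s false (nat_lit 1) (nat_lit 10) (nat_lit 2) (nat_lit 2) (nat_lit 10) true (nat_lit 0) true (nat_lit 9) true (nat_lit 9) true (nat_lit 17) true (nat_lit 17) (.s false (nat_lit 1) (nat_lit 13) (nat_lit 2) (nat_lit 9) (nat_lit 2) true (nat_lit 13) true (nat_lit 17) true (nat_lit 8) true (nat_lit 17) true (nat_lit 10) (.s true (nat_lit 1) (nat_lit 14) (nat_lit 1) (nat_lit 1) (nat_lit 14) true (nat_lit 0) true (nat_lit 7) true (nat_lit 7) true (nat_lit 18) true (nat_lit 18) (.s true (nat_lit 3) (nat_lit 14) (nat_lit 2) (nat_lit 8) (nat_lit 2) true (nat_lit 13) true (nat_lit 17) true (nat_lit 7) true (nat_lit 17) true (nat_lit 11) (.s true (nat_lit 3) (nat_lit 16) (nat_lit 0) (nat_lit 0) (nat_lit 16) true (nat_lit 0) true (nat_lit 6) true (nat_lit 6) true (nat_lit 19) true (nat_lit 19) (.s true (nat_lit 3) (nat_lit 17) (nat_lit 0) (nat_lit 0) (nat_lit 17) true (nat_lit 0) true (nat_lit 6) true (nat_lit 6) true (nat_lit 19) true (nat_lit 19) (.s true (nat_lit 3) (nat_lit 17) (nat_lit 0) (nat_lit 15) (nat_lit 1) true (nat_lit 16) true (nat_lit 18) true (nat_lit 6) true (nat_lit 19) true (nat_lit 7) (.s false (nat_lit 1) (nat_lit 16) (nat_lit 2) (nat_lit 7) (nat_lit 2) true (nat_lit 13) true (nat_lit 17) true (nat_lit 6) true (nat_lit 17) true (nat_lit 12) (.s false (nat_lit 2) (nat_lit 17) (nat_lit 2) (nat_lit 7) (nat_lit 2) true (nat_lit 13) true (nat_lit 17) true (nat_lit 6) true (nat_lit 17) true (nat_lit 12) (.s true (nat_lit 1) (nat_lit 16) (nat_lit 7) (nat_lit 2) (nat_lit 2) true (nat_lit 3) true (nat_lit 17) true (nat_lit 6) true (nat_lit 12) true (nat_lit 17) (.s true (nat_lit 1) (nat_lit 16) (nat_lit 9) (nat_lit 1) (nat_lit 2) true (nat_lit 1) true (nat_lit 17) true (nat_lit 6) true (nat_lit 10) true (nat_lit 18) (.s true (nat_lit 2) (nat_lit 16) (nat_lit 9) (nat_lit 2) (nat_lit 1) true (nat_lit 3) true (nat_lit 18) true (nat_lit 6) true (nat_lit 10) true (nat_lit 17) (.s false (nat_lit 1) (nat_lit 17) (nat_lit 9) (nat_lit 2) (nat_lit 1) true (nat_lit 3) true (nat_lit 18) true (nat_lit 6) true (nat_lit 10) true (nat_lit 17) (.s true (nat_lit 2) (nat_lit 18) (nat_lit 0) (nat_lit 2) (nat_lit 8) true (nat_lit 4) true (nat_lit 11) true (nat_lit 5) true (nat_lit 19) true (nat_lit 17) dC1d_i144)))))))))))))))))))))) (.nd (.nd (.nd (.nd (.nd .leaf (nat_lit 221186) (nat_lit 969) (.p (nat_lit 407) (nat_lit 1) .z) .df .leaf) (nat_lit 222210) (nat_lit 970) (.p (nat_lit 408) (nat_lit 1) .z) .df .leaf) (nat_lit 223234) (nat_lit 971) (.p (nat_lit 409) (nat_lit 1) .z) .df (.nd (.nd .leaf (nat_lit 224258) (nat_lit 972) (.p (nat_lit 410) (nat_lit 1) .z) .df .leaf) (nat_lit 225282) (nat_lit 1030) (.p (nat_lit 356) (nat_lit 1) (.n (nat_lit 357) (nat_lit 1) (.n (nat_lit 359) (nat_lit 2) (.p (nat_lit 360) (nat_lit 1) (.p (nat_lit 361) (nat_lit 3) (.n (nat_lit 362) (nat_lit 3) (.p (nat_lit 363) (nat_lit 3) (.n (nat_lit 364) (nat_lit 1) (.p (nat_lit 367) (nat_lit 2) (.n (nat_lit 369) (nat_lit 2) (.n (nat_lit 370) (nat_lit 1) (.n (nat_lit 372) (nat_lit 3) (.n (nat_lit 373) (nat_lit 2) (.p (nat_lit 375) (nat_lit 2) (.p (nat_lit 381) (nat_lit 3) (.n (nat_lit 382) (nat_lit 2) (.p (nat_lit 383) (nat_lit 3) (.p (nat_lit 384) (nat_lit 1) (.n (nat_lit 385) (nat_lit 3) (.p (nat_lit 387) (nat_lit 2) (.p (nat_lit 388) (nat_lit 2) (.p (nat_lit 389) (nat_lit 1) (.n (nat_lit 391) (nat_lit 3) (.p (nat_lit 392) (nat_lit 2) (.n (nat_lit 393) (nat_lit 3) (.p (nat_lit 394) (nat_lit 3) (.n (nat_lit 395) (nat_lit 3) (.n (nat_lit 396) (nat_lit 1) (.p (nat_lit 404) (nat_lit 2) .z))))))))))))))))))))))))))))) (.ct dC1d_c548 (nat_lit 1) (nat_lit 17) (.s true (nat_lit 1) (nat_lit 16) (nat_lit 9) (nat_lit 2) (nat_lit 1) true (nat_lit 3) true (nat_lit 18) true (nat_lit 6) true (nat_lit 10) true (nat_lit 17) (.s true (nat_lit 1) (nat_lit 17) (nat_lit 9) (nat_lit 2) (nat_lit 1) true (nat_lit 3) true (nat_lit 18) true (nat_lit 6) true (nat_lit 10) true (nat_lit 17) (.s false (nat_lit 3) (nat_lit 18) (nat_lit 1) (nat_lit 1) (nat_lit 9) true (nat_lit 3) true (nat_lit 10) true (nat_lit 5) true (nat_lit 18) true (nat_lit 18) (.s true (nat_lit 2) (nat_lit 18) (nat_lit 9) (nat_lit 1) (nat_lit 1) true (nat_lit 3) true (nat_lit 18) true (nat_lit 5) true (nat_lit 10) true (nat_lit 18) (.s true (nat_lit 1) (nat_lit 21) (nat_lit 1) (nat_lit 6) (nat_lit 2) true (nat_lit 14) true (nat_lit 17) true (nat_lit 3) true (nat_lit 18) true (nat_lit 13) (.s true (nat_lit 2) (nat_lit 21) (nat_lit 2) (nat_lit 1) (nat_lit 6) true (nat_lit 5) true (nat_lit 13) true (nat_lit 3) true (nat_lit 17) true (nat_lit 18) (.s true (nat_lit 1) (nat_lit 21) (nat_lit 5) (nat_lit 2) (nat_lit 2) true (nat_lit 6) true (nat_lit 17) true (nat_lit 3) true (nat_lit 14) true (nat_lit 17) (.s false (nat_lit 1) (nat_lit 28) (nat_lit 1) (nat_lit 1) (nat_lit 6) true (nat_lit 6) true (nat_lit 13) true (nat_lit 1) true (nat_lit 18) true (nat_lit 18) (.s false (nat_lit 2) (nat_lit 59) (nat_lit 1) (nat_lit 2) (nat_lit 2) true (nat_lit 14) true (nat_lit 17) false (nat_lit 6) true (nat_lit 18) true (nat_lit 17) (.s true (nat_lit 1) (nat_lit 56) (nat_lit 2) (nat_lit 1) (nat_lit 2) true (nat_lit 13) true (nat_lit 17) false (nat_lit 6) true (nat_lit 17) true (nat_lit 18) (.s false (nat_lit 1) (nat_lit 59) (nat_lit 2) (nat_lit 1) (nat_lit 2) true (nat_lit 13) true (nat_lit 17) false (nat_lit 6) true (nat_lit 17) true (nat_lit 18) (.s true (nat_lit 1) (nat_lit 77) (nat_lit 1) (nat_lit 1) (nat_lit 2) true (nat_lit 14) true (nat_lit 17) false (nat_lit 8) true (nat_lit 18) true (nat_lit 18) (.s true (nat_lit 1) (nat_lit 78) (nat_lit 1) (nat_lit 1) (nat_lit 2) true (nat_lit 14) true (nat_lit 17) false (nat_lit 8) true (nat_lit 18) true (nat_lit 18) (.s true (nat_lit 2) (nat_lit 94) (nat_lit 0) (nat_lit 2) (nat_lit 0) false (nat_lit 20) true (nat_lit 19) false (nat_lit 10) true (nat_lit 19) true (nat_lit 17) (.s true (nat_lit 1) (nat_lit 95) (nat_lit 0) (nat_lit 2) (nat_lit 0) false (nat_lit 20) true (nat_lit 19) false (nat_lit 10) true (nat_lit 19) true (nat_lit 17) (.s true (nat_lit 1) (nat_lit 96) (nat_lit 0) (nat_lit 2) (nat_lit 0) false (nat_lit 20) true (nat_lit 19) false (nat_lit 10) true (nat_lit 19) true (nat_lit 17) (.e true (nat_lit 2) (nat_lit 260) (nat_lit 1) (nat_lit 18) (.e true (nat_lit 1) (nat_lit 262) (nat_lit 1) (nat_lit 18) (.e false (nat_lit 2) (nat_lit 264) (nat_lit 1) (nat_lit 18) (.e true (nat_lit 3) (nat_lit 265) (nat_lit 1) (nat_lit 18) (.e true (nat_lit 2) (nat_lit 266) (nat_lit 1) (nat_lit 18) (.e true (nat_lit 2) (nat_lit 267) (nat_lit 1) (nat_lit 18) (.e true (nat_lit 3) (nat_lit 268) (nat_lit 1) (nat_lit 18) dC1d_i147)))))))))))))))))))))))) .leaf)) (nat_lit 226306) (nat_lit 993) (.p (nat_lit 355) (nat_lit 3) (.n (nat_lit 356) (nat_lit 1) (.n (nat_lit 358) (nat_lit 2) (.n (nat_lit 359) (nat_lit 2) (.p (nat_lit 360) (nat_lit 1) (.p (nat_lit 363) (nat_lit 2) (.n (nat_lit 364) (nat_lit 1) (.n (nat_lit 365) (nat_lit 1) (.p (nat_lit 366) (nat_lit 2) (.p (nat_lit 367) (nat_lit 1) (.n (nat_lit 369) (nat_lit 3) (.p (nat_lit 370) (nat_lit 3) (.p (nat_lit 372) (nat_lit 3) (.p (nat_lit 373) (nat_lit 1) (.n (nat_lit 374) (nat_lit 3) (.p (nat_lit 375) (nat_lit 2) (.p (nat_lit 381) (nat_lit 2) (.n (nat_lit 382) (nat_lit 1) (.p (nat_lit 384) (nat_lit 2) (.p (nat_lit 385) (nat_lit 2) (.n (nat_lit 386) (nat_lit 1) (.n (nat_lit 387) (nat_lit 1) (.n (nat_lit 388) (nat_lit 2) (.n (nat_lit 389) (nat_lit 1) (.n (nat_lit 390) (nat_lit 2) (.p (nat_lit 391) (nat_lit 3) (.p (nat_lit 392) (nat_lit 1) (.n (nat_lit 393) (nat_lit 2) (.p (nat_lit 394) (nat_lit 2) (.n (nat_lit 395) (nat_lit 2) (.n (nat_lit 396) (nat_lit 3) (.n (nat_lit 405) (nat_lit 1) (.p (nat_lit 407) (nat_lit 1) .z))))))))))))))))))))))))))))))))) (.ct dC1d_c548 (nat_lit 1) (nat_lit 17) (.s true (nat_lit 1) (nat_lit 7) (nat_lit 1) (nat_lit 6) (nat_lit 6) true (nat_lit 6) true (nat_lit 13) true (nat_lit 12) true (nat_lit 18) true (nat_lit 13) (.s false (nat_lit 1) (nat_lit 7) (nat_lit 6) (nat_lit 5) (nat_lit 2) true (nat_lit 5) true (nat_lit 17) true (nat_lit 12) true (nat_lit 13) true (nat_lit 14) (.s true (nat_lit 3) (nat_lit 7) (nat_lit 6) (nat_lit 6) (nat_lit 1) true (nat_lit 6) true (nat_lit 18) true (nat_lit 12) true (nat_lit 13) true (nat_lit 13) (.s false (nat_lit 1) (nat_lit 8) (nat_lit 0) (nat_lit 6) (nat_lit 6) true (nat_lit 7) true (nat_lit 13) true (nat_lit 11) true (nat_lit 19) true (nat_lit 13) (.s false (nat_lit 2) (nat_lit 8) (nat_lit 4) (nat_lit 6) (nat_lit 2) true (nat_lit 7) true (nat_lit 17) true (nat_lit 11) true (nat_lit 15) true (nat_lit 13) (.s true (nat_lit 3) (nat_lit 8) (nat_lit 6) (nat_lit 6) (nat_lit 0) true (nat_lit 7) true (nat_lit 19) true (nat_lit 11) true (nat_lit 13) true (nat_lit 13) (.s false (nat_lit 3) (nat_lit 9) (nat_lit 6) (nat_lit 1) (nat_lit 5) false (nat_lit 3) true (nat_lit 14) true (nat_lit 10) true (nat_lit 13) true (nat_lit 18) (.s true (nat_lit 2) (nat_lit 10) (nat_lit 2) (nat_lit 2) (nat_lit 10) true (nat_lit 0) true (nat_lit 9) true (nat_lit 9) true (nat_lit 17) true (nat_lit 17) (.s false (nat_lit 1) (nat_lit 11) (nat_lit 2) (nat_lit 2) (nat_lit 11) true (nat_lit 0) true (nat_lit 9) true (nat_lit 9) true (nat_lit 17) true (nat_lit 17) (.s true (nat_lit 1) (nat_lit 10) (nat_lit 2) (nat_lit 5) (nat_lit 4) true (nat_lit 7) true (nat_lit 15) true (nat_lit 9) true (nat_lit 17) true (nat_lit 14) (.s false (nat_lit 2) (nat_lit 13) (nat_lit 9) (nat_lit 2) (nat_lit 2) true (nat_lit 1) true (nat_lit 17) true (nat_lit 8) true (nat_lit 10) true (nat_lit 17) (.s false (nat_lit 1) (nat_lit 14) (nat_lit 1) (nat_lit 1) (nat_lit 14) true (nat_lit 0) true (nat_lit 7) true (nat_lit 7) true (nat_lit 18) true (nat_lit 18) (.s false (nat_lit 3) (nat_lit 14) (nat_lit 1) (nat_lit 1) (nat_lit 15) true (nat_lit 0) true (nat_lit 7) true (nat_lit 7) true (nat_lit 18) true (nat_lit 18) (.s false (nat_lit 2) (nat_lit 14) (nat_lit 1) (nat_lit 2) (nat_lit 11) true (nat_lit 2) true (nat_lit 9) true (nat_lit 7) true (nat_lit 18) true (nat_lit 17) (.s true (nat_lit 1) (nat_lit 14) (nat_lit 1) (nat_lit 3) (nat_lit 6) true (nat_lit 6) true (nat_lit 13) true (nat_lit 7) true (nat_lit 18) true (nat_lit 16) (.s false (nat_lit 3) (nat_lit 14) (nat_lit 1) (nat_lit 15) (nat_lit 1) false (nat_lit 21) true (nat_lit 18) true (nat_lit 7) true (nat_lit 18) true (nat_lit 7) (.s false (nat_lit 1) (nat_lit 14) (nat_lit 2) (nat_lit 1) (nat_lit 10) true (nat_lit 0) true (nat_lit 9) true (nat_lit 7) true (nat_lit 17) true (nat_lit 18) (.s false (nat_lit 3) (nat_lit 14) (nat_lit 2) (nat_lit 1) (nat_lit 11) true (nat_lit 0) true (nat_lit 9) true (nat_lit 7) true (nat_lit 17) true (nat_lit 18) (.s true (nat_lit 2) (nat_lit 14) (nat_lit 2) (nat_lit 2) (nat_lit 8) true (nat_lit 2) true (nat_lit 11) true (nat_lit 7) true (nat_lit 17) true (nat_lit 17) (.s true (nat_lit 3) (nat_lit 15) (nat_lit 2) (nat_lit 2) (nat_lit 8) true (nat_lit 2) true (nat_lit 11) true (nat_lit 7) true (nat_lit 17) true (nat_lit 17) (.s false (nat_lit 1) (nat_lit 14) (nat_lit 2) (nat_lit 8) (nat_lit 2) true (nat_lit 13) true (nat_lit 17) true (nat_lit 7) true (nat_lit 17) true (nat_lit 11) (.s true (nat_lit 2) (nat_lit 15) (nat_lit 2) (nat_lit 8) (nat_lit 2) true (nat_lit 13) true (nat_lit 17) true (nat_lit 7) true (nat_lit 17) true (nat_lit 11) (.s false (nat_lit 1) (nat_lit 14) (nat_lit 5) (nat_lit 2) (nat_lit 3) true (nat_lit 2) true (nat_lit 16) true (nat_lit 7) true (nat_lit 14) true (nat_lit 17) dC1d_i157)))))))))))))))))))))))) (.nd (.nd (.nd .leaf (nat_lit 227330) (nat_lit 1012) (.n (nat_lit 355) (nat_lit 3) (.n (nat_lit 356) (nat_lit 2) (.p (nat_lit 357) (nat_lit 1) (.p (nat_lit 358) (nat_lit 2) (.p (nat_lit 359) (nat_lit 2) (.n (nat_lit 360) (nat_lit 3) (.p (nat_lit 361) (nat_lit 1) (.n (nat_lit 362) (nat_lit 1) (.p (nat_lit 363) (nat_lit 1) (.n (nat_lit 364) (nat_lit 3) (.p (nat_lit 365) (nat_lit 1) (.n (nat_lit 366) (nat_lit 2) (.n (nat_lit 367) (nat_lit 1) (.n (nat_lit 369) (nat_lit 2) (.n (nat_lit 370) (nat_lit 3) (.n (nat_lit 372) (nat_lit 2) (.n (nat_lit 373) (nat_lit 1) (.p (nat_lit 375) (nat_lit 3) (.p (nat_lit 382) (nat_lit 3) (.p (nat_lit 383) (nat_lit 2) (.n (nat_lit 384) (nat_lit 3) (.n (nat_lit 385) (nat_lit 1) (.p (nat_lit 386) (nat_lit 3) (.n (nat_lit 387) (nat_lit 2) (.p (nat_lit 388) (nat_lit 1) (.n (nat_lit 389) (nat_lit 3) (.n (nat_lit 390) (nat_lit 1) (.p (nat_lit 391) (nat_lit 2) (.p (nat_lit 392) (nat_lit 1) (.p (nat_lit 393) (nat_lit 3) (.p (nat_lit 394) (nat_lit 2) (.n (nat_lit 395) (nat_lit 3) (.p (nat_lit 396) (nat_lit 1) (.n (nat_lit 404) (nat_lit 3) (.n (nat_lit 405) (nat_lit 1) (.n (nat_lit 409) (nat_lit 3) (.p (nat_lit 410) (nat_lit 3) .z))))))))))))))))))))))))))))))))))))) (.ct dC1d_c548 (nat_lit 1) (nat_lit 17) (.s false (nat_lit 1) (nat_lit 7) (nat_lit 2) (nat_lit 6) (nat_lit 5) true (nat_lit 6) true (nat_lit 14) true (nat_lit 12) true (nat_lit 17) true (nat_lit 13) (.s false (nat_lit 2) (nat_lit 7) (nat_lit 6) (nat_lit 6) (nat_lit 1) true (nat_lit 6) true (nat_lit 18) true (nat_lit 12) true (nat_lit 13) true (nat_lit 13) (.s false (nat_lit 2) (nat_lit 8) (nat_lit 2) (nat_lit 6) (nat_lit 4) true (nat_lit 7) true (nat_lit 15) true (nat_lit 11) true (nat_lit 17) true (nat_lit 13) (.s false (nat_lit 1) (nat_lit 8) (nat_lit 6) (nat_lit 0) (nat_lit 6) false (nat_lit 4) true (nat_lit 13) true (nat_lit 11) true (nat_lit 13) true (nat_lit 19) dC1d_i164))))) .leaf) (nat_lit 228354) (nat_lit 973) (.p (nat_lit 411) (nat_lit 1) .z) .df .leaf) (nat_lit 229378) (nat_lit 974) (.p (nat_lit 412) (nat_lit 1) .z) .df (.nd (.nd .leaf (nat_lit 230402) (nat_lit 975) (.p (nat_lit 413) (nat_lit 1) .z) .df .leaf) (nat_lit 231426) (nat_lit 1004) (.p (nat_lit 355) (nat_lit 1) (.p (nat_lit 356) (nat_lit 2) (.p (nat_lit 357) (nat_lit 3) (.n (nat_lit 358) (nat_lit 2) (.n (nat_lit 359) (nat_lit 3) (.n (nat_lit 361) (nat_lit 2) (.p (nat_lit 362) (nat_lit 2) (.n (nat_lit 363) (nat_lit 2) (.p (nat_lit 364) (nat_lit 2) (.n (nat_lit 365) (nat_lit 3) (.p (nat_lit 367) (nat_lit 1) (.n (nat_lit 369) (nat_lit 3) (.p (nat_lit 370) (nat_lit 3) (.p (nat_lit 372) (nat_lit 1) (.n (nat_lit 373) (nat_lit 3) (.p (nat_lit 374) (nat_lit 3) (.p (nat_lit 375) (nat_lit 3) (.p (nat_lit 382) (nat_lit 1) (.n (nat_lit 383) (nat_lit 1) (.n (nat_lit 384) (nat_lit 1) (.n (nat_lit 385) (nat_lit 2) (.n (nat_lit 386) (nat_lit 2) (.p (nat_lit 388) (nat_lit 2) (.n (nat_lit 389) (nat_lit 2) (.p (nat_lit 390) (nat_lit 3) (.n (nat_lit 391) (nat_lit 1) (.p (nat_lit 394) (nat_lit 1) (.p (nat_lit 395) (nat_lit 3) (.p (nat_lit 411) (nat_lit 2) .z))))))))))))))))))))))))))))) (.ct dC1d_c548 (nat_lit 1) (nat_lit 17) (.s true (nat_lit 2) (nat_lit 7) (nat_lit 1) (nat_lit 6) (nat_lit 6) true (nat_lit 6) true (nat_lit 13) true (nat_lit 12) true (nat_lit 18) true (nat_lit 13) (.s false (nat_lit 2) (nat_lit 7) (nat_lit 2) (nat_lit 6) (nat_lit 5) true (nat_lit 6) true (nat_lit 14) true (nat_lit 12) true (nat_lit 17) true (nat_lit 13) (.s true (nat_lit 1) (nat_lit 7) (nat_lit 6) (nat_lit 5) (nat_lit 2) true (nat_lit 5) true (nat_lit 17) true (nat_lit 12) true (nat_lit 13) true (nat_lit 14) (.s false (nat_lit 2) (nat_lit 7) (nat_lit 6) (nat_lit 6) (nat_lit 1) true (nat_lit 6) true (nat_lit 18) true (nat_lit 12) true (nat_lit 13) true (nat_lit 13) (.s false (nat_lit 3) (nat_lit 8) (nat_lit 0) (nat_lit 6) (nat_lit 6) true (nat_lit 7) true (nat_lit 13) true (nat_lit 11) true (nat_lit 19) true (nat_lit 13) (.s true (nat_lit 3) (nat_lit 8) (nat_lit 2) (nat_lit 4) (nat_lit 6) true (nat_lit 5) true (nat_lit 13) true (nat_lit 11) true (nat_lit 17) true (nat_lit 15) (.s false (nat_lit 2) (nat_lit 8) (nat_lit 6) (nat_lit 4) (nat_lit 2) true (nat_lit 5) true (nat_lit 17) true (nat_lit 11) true (nat_lit 13) true (nat_lit 15) (.s true (nat_lit 3) (nat_lit 8) (nat_lit 6) (nat_lit 6) (nat_lit 0) true (nat_lit 7) true (nat_lit 19) true (nat_lit 11) true (nat_lit 13) true (nat_lit 13) (.s false (nat_lit 2) (nat_lit 10) (nat_lit 2) (nat_lit 2) (nat_lit 10) true (nat_lit 0) true (nat_lit 9) true (nat_lit 9) true (nat_lit 17) true (nat_lit 17) (.s true (nat_lit 2) (nat_lit 13) (nat_lit 2) (nat_lit 2) (nat_lit 9) true (nat_lit 1) true (nat_lit 10) true (nat_lit 8) true (nat_lit 17) true (nat_lit 17) (.s true (nat_lit 3) (nat_lit 13) (nat_lit 2) (nat_lit 9) (nat_lit 2) true (nat_lit 13) true (nat_lit 17) true (nat_lit 8) true (nat_lit 17) true (nat_lit 10) (.s true (nat_lit 2) (nat_lit 13) (nat_lit 9) (nat_lit 2) (nat_lit 2) true (nat_lit 1) true (nat_lit 17) true (nat_lit 8) true (nat_lit 10) true (nat_lit 17) (.s true (nat_lit 1) (nat_lit 14) (nat_lit 1) (nat_lit 1) (nat_lit 14) true (nat_lit 0) true (nat_lit 7) true (nat_lit 7) true (nat_lit 18) true (nat_lit 18) (.s false (nat_lit 3) (nat_lit 15) (nat_lit 1) (nat_lit 1) (nat_lit 15) true (nat_lit 0) true (nat_lit 7) true (nat_lit 7) true (nat_lit 18) true (nat_lit 18) (.s false (nat_lit 1) (nat_lit 14) (nat_lit 1) (nat_lit 15) (nat_lit 1) false (nat_lit 21) true (nat_lit 18) true (nat_lit 7) true (nat_lit 18) true (nat_lit 7) (.s true (nat_lit 1) (nat_lit 14) (nat_lit 2) (nat_lit 0) (nat_lit 13) false (nat_lit 1) true (nat_lit 8) true (nat_lit 7) true (nat_lit 17) true (nat_lit 19) (.s true (nat_lit 1) (nat_lit 15) (nat_lit 2) (nat_lit 0) (nat_lit 13) false (nat_lit 1) true (nat_lit 8) true (nat_lit 7) true (nat_lit 17) true (nat_lit 19) (.s false (nat_lit 2) (nat_lit 14) (nat_lit 2) (nat_lit 8) (nat_lit 2) true (nat_lit 13) true (nat_lit 17) true (nat_lit 7) true (nat_lit 17) true (nat_lit 11) (.s false (nat_lit 1) (nat_lit 15) (nat_lit 2) (nat_lit 8) (nat_lit 2) true (nat_lit 13) true (nat_lit 17) true (nat_lit 7) true (nat_lit 17) true (nat_lit 11) (.s true (nat_lit 1) (nat_lit 14) (nat_lit 13) (nat_lit 0) (nat_lit 2) false (nat_lit 1) true (nat_lit 17) true (nat_lit 7) true (nat_lit 8) true (nat_lit 19) (.s true (nat_lit 1) (nat_lit 15) (nat_lit 13) (nat_lit 0) (nat_lit 2) false (nat_lit 1) true (nat_lit 17) true (nat_lit 7) true (nat_lit 8) true (nat_lit 19) (.s false (nat_lit 3) (nat_lit 16) (nat_lit 2) (nat_lit 7) (nat_lit 2) true (nat_lit 13) true (nat_lit 17) true (nat_lit 6) true (nat_lit 17) true (nat_lit 12) (.s false (nat_lit 1) (nat_lit 16) (nat_lit 7) (nat_lit 2) (nat_lit 2) true (nat_lit 3) true (nat_lit 17) true (nat_lit 6) true (nat_lit 12) true (nat_lit 17) dC1d_i171)))))))))))))))))))))))) .leaf))) (nat_lit 232450) (nat_lit 996) (.p (nat_lit 355) (nat_lit 2) (.p (nat_lit 356) (nat_lit 3) (.p (nat_lit 357) (nat_lit 2) (.p (nat_lit 358) (nat_lit 3) (.n (nat_lit 360) (nat_lit 2) (.n (nat_lit 363) (nat_lit 3) (.p (nat_lit 364) (nat_lit 1) (.p (nat_lit 365) (nat_lit 2) (.n (nat_lit 366) (nat_lit 2) (.n (nat_lit 367) (nat_lit 2) (.n (nat_lit 369) (nat_lit 3) (.p (nat_lit 370) (nat_lit 1) (.p (nat_lit 372) (nat_lit 1) (.p (nat_lit 373) (nat_lit 1) (.p (nat_lit 374) (nat_lit 2) (.n (nat_lit 375) (nat_lit 3) (.n (nat_lit 381) (nat_lit 3) (.n (nat_lit 382) (nat_lit 2) (.n (nat_lit 383) (nat_lit 3) (.p (nat_lit 384) (nat_lit 2) (.n (nat_lit 385) (nat_lit 1) (.p (nat_lit 386) (nat_lit 2) (.p (nat_lit 387) (nat_lit 1) (.p (nat_lit 388) (nat_lit 3) (.n (nat_lit 389) (nat_lit 2) (.n (nat_lit 390) (nat_lit 3) (.n (nat_lit 391) (nat_lit 1) (.n (nat_lit 392) (nat_lit 3) (.p (nat_lit 393) (nat_lit 2) (.n (nat_lit 394) (nat_lit 1) (.n (nat_lit 395) (nat_lit 2) (.p (nat_lit 396) (nat_lit 3) (.p (nat_lit 404) (nat_lit 1) (.n (nat_lit 405) (nat_lit 2) (.p (nat_lit 406) (nat_lit 2) (.n (nat_lit 408) (nat_lit 2) (.p (nat_lit 409) (nat_lit 1) (.n (nat_lit 410) (nat_lit 1) (.p (nat_lit 412) (nat_lit 2) .z))))))))))))))))))))))))))))))))))))))) (.ct dC1d_c548 (nat_lit 1) (nat_lit 17) (.s true (nat_lit 1) (nat_lit 7) (nat_lit 1) (nat_lit 6) (nat_lit 6) true (nat_lit 6) true (nat_lit 13) true (nat_lit 12) true (nat_lit 18) true (nat_lit 13) (.s true (nat_lit 2) (nat_lit 7) (nat_lit 2) (nat_lit 5) (nat_lit 6) true (nat_lit 5) true (nat_lit 13) true (nat_lit 12) true (nat_lit 17) true (nat_lit 14) (.s false (nat_lit 2) (nat_lit 7) (nat_lit 5) (nat_lit 2) (nat_lit 6) false (nat_lit 3) true (nat_lit 13) true (nat_lit 12) true (nat_lit 14) true (nat_lit 17) (.s false (nat_lit 2) (nat_lit 7) (nat_lit 6) (nat_lit 6) (nat_lit 1) true (nat_lit 6) true (nat_lit 18) true (nat_lit 12) true (nat_lit 13) true (nat_lit 13) (.s true (nat_lit 2) (nat_lit 8) (nat_lit 0) (nat_lit 6) (nat_lit 6) true (nat_lit 7) true (nat_lit 13) true (nat_lit 11) true (nat_lit 19) true (nat_lit 13) (.s false (nat_lit 3) (nat_lit 8) (nat_lit 4) (nat_lit 6) (nat_lit 2) true (nat_lit 7) true (nat_lit 17) true (nat_lit 11) true (nat_lit 15) true (nat_lit 13) (.s true (nat_lit 1) (nat_lit 8) (nat_lit 6) (nat_lit 6) (nat_lit 0) true (nat_lit 7) true (nat_lit 19) true (nat_lit 11) true (nat_lit 13) true (nat_lit 13) (.s true (nat_lit 1) (nat_lit 10) (nat_lit 2) (nat_lit 2) (nat_lit 10) true (nat_lit 0) true (nat_lit 9) true (nat_lit 9) true (nat_lit 17) true (nat_lit 17) (.s true (nat_lit 1) (nat_lit 13) (nat_lit 2) (nat_lit 9) (nat_lit 2) true (nat_lit 13) true (nat_lit 17) true (nat_lit 8) true (nat_lit 17) true (nat_lit 10) (.s true (nat_lit 3) (nat_lit 13) (nat_lit 9) (nat_lit 2) (nat_lit 2) true (nat_lit 1) true (nat_lit 17) true (nat_lit 8) true (nat_lit 10) true (nat_lit 17) (.s false (nat_lit 2) (nat_lit 14) (nat_lit 1) (nat_lit 1) (nat_lit 15) true (nat_lit 0) true (nat_lit 7) true (nat_lit 7) true (nat_lit 18) true (nat_lit 18) dC1d_i179)))))))))))) (.nd (.nd (.nd (.nd .leaf (nat_lit 233474) (nat_lit 976) (.p (nat_lit 414) (nat_lit 1) .z) .df .leaf) (nat_lit 234498) (nat_lit 1021) (.n (nat_lit 355) (nat_lit 3) (.p (nat_lit 356) (nat_lit 2) (.p (nat_lit 357) (nat_lit 1) (.n (nat_lit 358) (nat_lit 2) (.p (nat_lit 359) (nat_lit 3) (.n (nat_lit 360) (nat_lit 3) (.n (nat_lit 361) (nat_lit 3) (.p (nat_lit 362) (nat_lit 3) (.n (nat_lit 363) (nat_lit 2) (.n (nat_lit 364) (nat_lit 1) (.p (nat_lit 365) (nat_lit 2) (.p (nat_lit 366) (nat_lit 1) (.n (nat_lit 367) (nat_lit 3) (.p (nat_lit 369) (nat_lit 2) (.n (nat_lit 370) (nat_lit 2) (.n (nat_lit 373) (nat_lit 2) (.p (nat_lit 374) (nat_lit 2) (.p (nat_lit 375) (nat_lit 1) (.p (nat_lit 381) (nat_lit 1) (.n (nat_lit 382) (nat_lit 1) (.p (nat_lit 383) (nat_lit 1) (.p (nat_lit 384) (nat_lit 1) (.p (nat_lit 385) (nat_lit 2) (.p (nat_lit 386) (nat_lit 2) (.p (nat_lit 387) (nat_lit 2) (.p (nat_lit 388) (nat_lit 2) (.n (nat_lit 389) (nat_lit 1) (.n (nat_lit 390) (nat_lit 3) (.p (nat_lit 391) (nat_lit 3) (.n (nat_lit 392) (nat_lit 2) (.n (nat_lit 393) (nat_lit 3) (.p (nat_lit 394) (nat_lit 1) (.n (nat_lit 395) (nat_lit 2) (.n (nat_lit 396) (nat_lit 1) (.p (nat_lit 404) (nat_lit 2) .z))))))))))))))))))))))))))))))))))) (.ct dC1d_c548 (nat_lit 1) (nat_lit 17) (.s true (nat_lit 3) (nat_lit 7) (nat_lit 5) (nat_lit 6) (nat_lit 2) true (nat_lit 6) true (nat_lit 17) true (nat_lit 12) true (nat_lit 14) true (nat_lit 13) (.s false (nat_lit 1) (nat_lit 7) (nat_lit 6) (nat_lit 1) (nat_lit 6) false (nat_lit 4) true (nat_lit 13) true (nat_lit 12) true (nat_lit 13) true (nat_lit 18) (.s true (nat_lit 1) (nat_lit 7) (nat_lit 6) (nat_lit 5) (nat_lit 2) true (nat_lit 5) true (nat_lit 17) true (nat_lit 12) true (nat_lit 13) true (nat_lit 14) (.s true (nat_lit 3) (nat_lit 8) (nat_lit 2) (nat_lit 4) (nat_lit 6) true (nat_lit 5) true (nat_lit 13) true (nat_lit 11) true (nat_lit 17) true (nat_lit 15) (.s true (nat_lit 3) (nat_lit 8) (nat_lit 2) (nat_lit 6) (nat_lit 4) true (nat_lit 7) true (nat_lit 15) true (nat_lit 11) true (nat_lit 17) true (nat_lit 13) (.s true (nat_lit 1) (nat_lit 8) (nat_lit 6) (nat_lit 0) (nat_lit 6) false (nat_lit 4) true (nat_lit 13) true (nat_lit 11) true (nat_lit 13) true (nat_lit 19) (.s false (nat_lit 2) (nat_lit 13) (nat_lit 9) (nat_lit 2) (nat_lit 2) true (nat_lit 1) true (nat_lit 17) true (nat_lit 8) true (nat_lit 10) true (nat_lit 17) (.s true (nat_lit 2) (nat_lit 14) (nat_lit 2) (nat_lit 2) (nat_lit 8) true (nat_lit 2) true (nat_lit 11) true (nat_lit 7) true (nat_lit 17) true (nat_lit 17) (.s true (nat_lit 2) (nat_lit 14) (nat_lit 2) (nat_lit 8) (nat_lit 2) true (nat_lit 13) true (nat_lit 17) true (nat_lit 7) true (nat_lit 17) true (nat_lit 11) (.s true (nat_lit 1) (nat_lit 14) (nat_lit 13) (nat_lit 0) (nat_lit 2) false (nat_lit 1) true (nat_lit 17) true (nat_lit 7) true (nat_lit 8) true (nat_lit 19) (.s true (nat_lit 1) (nat_lit 15) (nat_lit 13) (nat_lit 0) (nat_lit 2) false (nat_lit 1) true (nat_lit 17) true (nat_lit 7) true (nat_lit 8) true (nat_lit 19) (.s true (nat_lit 3) (nat_lit 16) (nat_lit 2) (nat_lit 2) (nat_lit 7) true (nat_lit 3) true (nat_lit 12) true (nat_lit 6) true (nat_lit 17) true (nat_lit 17) (.s false (nat_lit 2) (nat_lit 16) (nat_lit 7) (nat_lit 2) (nat_lit 2) true (nat_lit 3) true (nat_lit 17) true (nat_lit 6) true (nat_lit 12) true (nat_lit 17) (.s true (nat_lit 3) (nat_lit 16) (nat_lit 9) (nat_lit 1) (nat_lit 2) true (nat_lit 1) true (nat_lit 17) true (nat_lit 6) true (nat_lit 10) true (nat_lit 18) (.s true (nat_lit 2) (nat_lit 18) (nat_lit 0) (nat_lit 2) (nat_lit 8) true (nat_lit 4) true (nat_lit 11) true (nat_lit 5) true (nat_lit 19) true (nat_lit 17) (.s false (nat_lit 2) (nat_lit 18) (nat_lit 0) (nat_lit 8) (nat_lit 2) true (nat_lit 15) true (nat_lit 17) true (nat_lit 5) true (nat_lit 19) true (nat_lit 11) (.s true (nat_lit 3) (nat_lit 18) (nat_lit 1) (nat_lit 1) (nat_lit 9) true (nat_lit 3) true (nat_lit 10) true (nat_lit 5) true (nat_lit 18) true (nat_lit 18) (.s false (nat_lit 3) (nat_lit 18) (nat_lit 2) (nat_lit 0) (nat_lit 8) true (nat_lit 2) true (nat_lit 11) true (nat_lit 5) true (nat_lit 17) true (nat_lit 19) (.s true (nat_lit 3) (nat_lit 18) (nat_lit 2) (nat_lit 7) (nat_lit 1) true (nat_lit 14) true (nat_lit 18) true (nat_lit 5) true (nat_lit 17) true (nat_lit 12) (.s false (nat_lit 1) (nat_lit 18) (nat_lit 8) (nat_lit 0) (nat_lit 2) true (nat_lit 2) true (nat_lit 17) true (nat_lit 5) true (nat_lit 11) true (nat_lit 19) (.s true (nat_lit 1) (nat_lit 18) (nat_lit 8) (nat_lit 2) (nat_lit 0) true (nat_lit 4) true (nat_lit 19) true (nat_lit 5) true (nat_lit 11) true (nat_lit 17) (.s true (nat_lit 3) (nat_lit 18) (nat_lit 9) (nat_lit 1) (nat_lit 1) true (nat_lit 3) true (nat_lit 18) true (nat_lit 5) true (nat_lit 10) true (nat_lit 18) dC1d_i184))))))))))))))))))))))) .leaf) (nat_lit 235522) (nat_lit 1020) (.p (nat_lit 355) (nat_lit 3) (.p (nat_lit 356) (nat_lit 2) (.n (nat_lit 357) (nat_lit 3) (.n (nat_lit 358) (nat_lit 1) (.p (nat_lit 359) (nat_lit 3) (.p (nat_lit 360) (nat_lit 1) (.n (nat_lit 363) (nat_lit 3) (.p (nat_lit 364) (nat_lit 2) (.n (nat_lit 365) (nat_lit 1) (.n (nat_lit 366) (nat_lit 1) (.n (nat_lit 367) (nat_lit 3) (.n (nat_lit 369) (nat_lit 2) (.n (nat_lit 370) (nat_lit 2) (.n (nat_lit 372) (nat_lit 1) (.p (nat_lit 373) (nat_lit 2) (.n (nat_lit 374) (nat_lit 2) (.n (nat_lit 375) (nat_lit 1) (.p (nat_lit 382) (nat_lit 1) (.p (nat_lit 383) (nat_lit 3) (.p (nat_lit 385) (nat_lit 3) (.n (nat_lit 386) (nat_lit 3) (.n (nat_lit 387) (nat_lit 2) (.n (nat_lit 388) (nat_lit 2) (.p (nat_lit 389) (nat_lit 2) (.p (nat_lit 390) (nat_lit 1) (.p (nat_lit 391) (nat_lit 1) (.p (nat_lit 393) (nat_lit 3) (.n (nat_lit 395) (nat_lit 2) (.p (nat_lit 396) (nat_lit 1) (.n (nat_lit 404) (nat_lit 1) (.p (nat_lit 405) (nat_lit 2) (.p (nat_lit 408) (nat_lit 2) (.n (nat_lit 409) (nat_lit 1) (.p (nat_lit 410) (nat_lit 1) .z)))))))))))))))))))))))))))))))))) (.ct dC1d_c548 (nat_lit 1) (nat_lit 17) (.s true (nat_lit 3) (nat_lit 7) (nat_lit 2) (nat_lit 5) (nat_lit 6) true (nat_lit 5) true (nat_lit 13) true (nat_lit 12) true (nat_lit 17) true (nat_lit 14) (.s false (nat_lit 2) (nat_lit 7) (nat_lit 5) (nat_lit 2) (nat_lit 6) false (nat_lit 3) true (nat_lit 13) true (nat_lit 12) true (nat_lit 14) true (nat_lit 17) (.s true (nat_lit 2) (nat_lit 7) (nat_lit 6) (nat_lit 1) (nat_lit 6) false (nat_lit 4) true (nat_lit 13) true (nat_lit 12) true (nat_lit 13) true (nat_lit 18) (.s true (nat_lit 1) (nat_lit 7) (nat_lit 6) (nat_lit 6) (nat_lit 1) true (nat_lit 6) true (nat_lit 18) true (nat_lit 12) true (nat_lit 13) true (nat_lit 13) (.s false (nat_lit 3) (nat_lit 8) (nat_lit 2) (nat_lit 4) (nat_lit 6) true (nat_lit 5) true (nat_lit 13) true (nat_lit 11) true (nat_lit 17) true (nat_lit 15) (.s true (nat_lit 3) (nat_lit 8) (nat_lit 6) (nat_lit 0) (nat_lit 6) false (nat_lit 4) true (nat_lit 13) true (nat_lit 11) true (nat_lit 13) true (nat_lit 19) (.s true (nat_lit 2) (nat_lit 8) (nat_lit 6) (nat_lit 2) (nat_lit 4) false (nat_lit 2) true (nat_lit 15) true (nat_lit 11) true (nat_lit 13) true (nat_lit 17) (.s false (nat_lit 3) (nat_lit 10) (nat_lit 2) (nat_lit 2) (nat_lit 10) true (nat_lit 0) true (nat_lit 9) true (nat_lit 9) true (nat_lit 17) true (nat_lit 17) (.s true (nat_lit 3) (nat_lit 14) (nat_lit 2) (nat_lit 8) (nat_lit 2) true (nat_lit 13) true (nat_lit 17) true (nat_lit 7) true (nat_lit 17) true (nat_lit 11) (.s false (nat_lit 3) (nat_lit 15) (nat_lit 2) (nat_lit 8) (nat_lit 2) true (nat_lit 13) true (nat_lit 17) true (nat_lit 7) true (nat_lit 17) true (nat_lit 11) (.s true (nat_lit 1) (nat_lit 14) (nat_lit 8) (nat_lit 2) (nat_lit 2) true (nat_lit 2) true (nat_lit 17) true (nat_lit 7) true (nat_lit 11) true (nat_lit 17) (.s false (nat_lit 2) (nat_lit 15) (nat_lit 8) (nat_lit 2) (nat_lit 2) true (nat_lit 2) true (nat_lit 17) true (nat_lit 7) true (nat_lit 11) true (nat_lit 17) (.s false (nat_lit 3) (nat_lit 16) (nat_lit 2) (nat_lit 2) (nat_lit 7) true (nat_lit 3) true (nat_lit 12) true (nat_lit 6) true (nat_lit 17) true (nat_lit 17) dC1d_i190)))))))))))))) (.nd (.nd .leaf (nat_lit 236546) (nat_lit 1022) (.n (nat_lit 356) (nat_lit 1) (.p (nat_lit 357) (nat_lit 3) (.p (nat_lit 358) (nat_lit 2) (.n (nat_lit 359) (nat_lit 2) (.p (nat_lit 360) (nat_lit 2) (.p (nat_lit 361) (nat_lit 3) (.n (nat_lit 362) (nat_lit 3) (.n (nat_lit 365) (nat_lit 1) (.p (nat_lit 366) (nat_lit 1) (.p (nat_lit 367) (nat_lit 1) (.n (nat_lit 369) (nat_lit 3) (.p (nat_lit 370) (nat_lit 3) (.p (nat_lit 372) (nat_lit 2) (.p (nat_lit 373) (nat_lit 1) (.n (nat_lit 375) (nat_lit 1) (.n (nat_lit 381) (nat_lit 3) (.p (nat_lit 382) (nat_lit 2) (.p (nat_lit 383) (nat_lit 2) (.p (nat_lit 384) (nat_lit 1) (.p (nat_lit 385) (nat_lit 3) (.p (nat_lit 386) (nat_lit 1) (.p (nat_lit 387) (nat_lit 3) (.n (nat_lit 388) (nat_lit 3) (.p (nat_lit 389) (nat_lit 2) (.p (nat_lit 390) (nat_lit 2) (.p (nat_lit 391) (nat_lit 1) (.n (nat_lit 392) (nat_lit 1) (.n (nat_lit 393) (nat_lit 1) (.n (nat_lit 394) (nat_lit 2) (.n (nat_lit 395) (nat_lit 3) (.p (nat_lit 396) (nat_lit 2) (.p (nat_lit 404) (nat_lit 2) (.n (nat_lit 405) (nat_lit 2) (.n (nat_lit 407) (nat_lit 2) (.p (nat_lit 411) (nat_lit 2) .z))))))))))))))))))))))))))))))))))) (.ct dC1d_c548 (nat_lit 1) (nat_lit 17) (.s true (nat_lit 3) (nat_lit 7) (nat_lit 2) (nat_lit 6) (nat_lit 5) true (nat_lit 6) true (nat_lit 14) true (nat_lit 12) true (nat_lit 17) true (nat_lit 13) (.s false (nat_lit 3) (nat_lit 7) (nat_lit 5) (nat_lit 6) (nat_lit 2) true (nat_lit 6) true (nat_lit 17) true (nat_lit 12) true (nat_lit 14) true (nat_lit 13) (.s true (nat_lit 2) (nat_lit 7) (nat_lit 6) (nat_lit 1) (nat_lit 6) false (nat_lit 4) true (nat_lit 13) true (nat_lit 12) true (nat_lit 13) true (nat_lit 18) dC1d_i196)))) .leaf) (nat_lit 237570) (nat_lit 977) (.p (nat_lit 415) (nat_lit 1) .z) .df .leaf)) (nat_lit 238594) (nat_lit 978) (.p (nat_lit 416) (nat_lit 1) .z) .df (.nd (.nd (.nd .leaf (nat_lit 239618) (nat_lit 979) (.p (nat_lit 417) (nat_lit 1) .z) .df .leaf) (nat_lit 240642) (nat_lit 997) (.n (nat_lit 355) (nat_lit 2) (.p (nat_lit 356) (nat_lit 1) (.p (nat_lit 357) (nat_lit 3) (.n (nat_lit 358) (nat_lit 1) (.n (nat_lit 360) (nat_lit 1) (.n (nat_lit 361) (nat_lit 3) (.p (nat_lit 362) (nat_lit 3) (.n (nat_lit 364) (nat_lit 3) (.n (nat_lit 366) (nat_lit 2) (.n (nat_lit 369) (nat_lit 1) (.n (nat_lit 373) (nat_lit 1) (.p (nat_lit 374) (nat_lit 3) (.p (nat_lit 375) (nat_lit 2) (.p (nat_lit 381) (nat_lit 1) (.p (nat_lit 382) (nat_lit 1) (.n (nat_lit 383) (nat_lit 1) (.n (nat_lit 384) (nat_lit 1) (.n (nat_lit 385) (nat_lit 2) (.n (nat_lit 386) (nat_lit 2) (.n (nat_lit 388) (nat_lit 2) (.n (nat_lit 389) (nat_lit 1) (.p (nat_lit 390) (nat_lit 3) (.p (nat_lit 391) (nat_lit 3) (.p (nat_lit 392) (nat_lit 3) (.p (nat_lit 393) (nat_lit 3) (.p (nat_lit 394) (nat_lit 3) (.p (nat_lit 396) (nat_lit 1) (.p (nat_lit 415) (nat_lit 1) (.p (nat_lit 416) (nat_lit 1) (.n (nat_lit 417) (nat_lit 2) .z)))))))))))))))))))))))))))))) (.ct dC1d_c548 (nat_lit 1) (nat_lit 17) (.s false (nat_lit 2) (nat_lit 7) (nat_lit 1) (nat_lit 6) (nat_lit 6) true (nat_lit 6) true (nat_lit 13) true (nat_lit 12) true (nat_lit 18) true (nat_lit 13) (.s false (nat_lit 3) (nat_lit 7) (nat_lit 2) (nat_lit 6) (nat_lit 5) true (nat_lit 6) true (nat_lit 14) true (nat_lit 12) true (nat_lit 17) true (nat_lit 13) (.s true (nat_lit 1) (nat_lit 7) (nat_lit 5) (nat_lit 6) (nat_lit 2) true (nat_lit 6) true (nat_lit 17) true (nat_lit 12) true (nat_lit 14) true (nat_lit 13) (.s true (nat_lit 2) (nat_lit 7) (nat_lit 6) (nat_lit 6) (nat_lit 1) true (nat_lit 6) true (nat_lit 18) true (nat_lit 12) true (nat_lit 13) true (nat_lit 13) (.s false (nat_lit 2) (nat_lit 8) (nat_lit 0) (nat_lit 6) (nat_lit 6) true (nat_lit 7) true (nat_lit 13) true (nat_lit 11) true (nat_lit 19) true (nat_lit 13) (.s false (nat_lit 1) (nat_lit 8) (nat_lit 2) (nat_lit 6) (nat_lit 4) true (nat_lit 7) true (nat_lit 15) true (nat_lit 11) true (nat_lit 17) true (nat_lit 13) (.s true (nat_lit 3) (nat_lit 8) (nat_lit 4) (nat_lit 6) (nat_lit 2) true (nat_lit 7) true (nat_lit 17) true (nat_lit 11) true (nat_lit 15) true (nat_lit 13) (.s true (nat_lit 1) (nat_lit 8) (nat_lit 6) (nat_lit 4) (nat_lit 2) true (nat_lit 5) true (nat_lit 17) true (nat_lit 11) true (nat_lit 13) true (nat_lit 15) (.s true (nat_lit 2) (nat_lit 8) (nat_lit 6) (nat_lit 6) (nat_lit 0) true (nat_lit 7) true (nat_lit 19) true (nat_lit 11) true (nat_lit 13) true (nat_lit 13) dC1d_i206)))))))))) .leaf) (nat_lit 241666) (nat_lit 980) (.p (nat_lit 418) (nat_lit 1) .z) .df (.nd (.nd .leaf (nat_lit 242690) (nat_lit 1010) (.n (nat_lit 355) (nat_lit 1) (.n (nat_lit 357) (nat_lit 1) (.n (nat_lit 358) (nat_lit 1) (.n (nat_lit 359) (nat_lit 3) (.n (nat_lit 360) (nat_lit 2) (.n (nat_lit 361) (nat_lit 1) (.n (nat_lit 362) (nat_lit 1) (.p (nat_lit 363) (nat_lit 2) (.p (nat_lit 364) (nat_lit 1) (.p (nat_lit 365) (nat_lit 2) (.n (nat_lit 366) (nat_lit 2) (.p (nat_lit 367) (nat_lit 2) (.p (nat_lit 368) (nat_lit 2) (.p (nat_lit 369) (nat_lit 2) (.n (nat_lit 370) (nat_lit 2) (.n (nat_lit 372) (nat_lit 1) (.n (nat_lit 373) (nat_lit 2) (.p (nat_lit 374) (nat_lit 3) (.n (nat_lit 375) (nat_lit 1) (.p (nat_lit 381) (nat_lit 1) (.n (nat_lit 382) (nat_lit 2) (.n (nat_lit 383) (nat_lit 2) (.n (nat_lit 385) (nat_lit 2) (.p (nat_lit 386) (nat_lit 1) (.n (nat_lit 387) (nat_lit 2) (.n (nat_lit 388) (nat_lit 2) (.n (nat_lit 389) (nat_lit 2) (.n (nat_lit 390) (nat_lit 3) (.n (nat_lit 391) (nat_lit 1) (.p (nat_lit 392) (nat_lit 1) (.n (nat_lit 393) (nat_lit 3) (.n (nat_lit 394) (nat_lit 3) (.n (nat_lit 396) (nat_lit 1) (.n (nat_lit 408) (nat_lit 2) (.p (nat_lit 409) (nat_lit 2) (.p (nat_lit 412) (nat_lit 2) (.n (nat_lit 413) (nat_lit 2) (.p (nat_lit 418) (nat_lit 1) (.p (nat_lit 424) (nat_lit 1) (.n (nat_lit 425) (nat_lit 1) .z)))))))))))))))))))))))))))))))))))))))) (.ct dC1d_c548 (nat_lit 1) (nat_lit 17) dC1d_i216) .leaf) (nat_lit 243714) (nat_lit 1038) (.p (nat_lit 356) (nat_lit 3) (.n (nat_lit 357) (nat_lit 1) (.n (nat_lit 358) (nat_lit 2) (.p (nat_lit 359) (nat_lit 3) (.n (nat_lit 361) (nat_lit 2) (.n (nat_lit 362) (nat_lit 2) (.p (nat_lit 363) (nat_lit 1) (.p (nat_lit 364) (nat_lit 2) (.n (nat_lit 366) (nat_lit 3) (.n (nat_lit 367) (nat_lit 3) (.n (nat_lit 368) (nat_lit 3) (.n (nat_lit 369) (nat_lit 1) (.p (nat_lit 370) (nat_lit 3) (.n (nat_lit 373) (nat_lit 1) (.n (nat_lit 375) (nat_lit 1) (.p (nat_lit 381) (nat_lit 1) (.n (nat_lit 382) (nat_lit 3) (.p (nat_lit 384) (nat_lit 1) (.p (nat_lit 385) (nat_lit 1) (.p (nat_lit 386) (nat_lit 1) (.p (nat_lit 387) (nat_lit 2) (.n (nat_lit 388) (nat_lit 1) (.n (nat_lit 389) (nat_lit 1) (.n (nat_lit 390) (nat_lit 1) (.p (nat_lit 391) (nat_lit 3) (.p (nat_lit 392) (nat_lit 2) (.n (nat_lit 393) (nat_lit 1) (.p (nat_lit 394) (nat_lit 2) (.p (nat_lit 395) (nat_lit 2) (.p (nat_lit 396) (nat_lit 2) (.p (nat_lit 404) (nat_lit 3) (.p (nat_lit 405) (nat_lit 1) (.n (nat_lit 406) (nat_lit 1) (.n (nat_lit 408) (nat_lit 3) (.n (nat_lit 410) (nat_lit 3) (.n (nat_lit 412) (nat_lit 3) (.p (nat_lit 413) (nat_lit 3) (.p (nat_lit 418) (nat_lit 2) (.p (nat_lit 424) (nat_lit 2) (.n (nat_lit 425) (nat_lit 2) .z)))))))))))))))))))))))))))))))))))))))) (.ct dC1d_c548 (nat_lit 1) (nat_lit 17) (.s false (nat_lit 3) (nat_lit 13) (nat_lit 2) (nat_lit 2) (nat_lit 9) true (nat_lit 1) true (nat_lit 10) true (nat_lit 8) true (nat_lit 17) true (nat_lit 17) (.s false (nat_lit 3) (nat_lit 13) (nat_lit 2) (nat_lit 9) (nat_lit 2) true (nat_lit 13) true (nat_lit 17) true (nat_lit 8) true (nat_lit 17) true (nat_lit 10) (.s true (nat_lit 3) (nat_lit 16) (nat_lit 9) (nat_lit 1) (nat_lit 2) true (nat_lit 1) true (nat_lit 17) true (nat_lit 6) true (nat_lit 10) true (nat_lit 18) (.s true (nat_lit 2) (nat_lit 16) (nat_lit 9) (nat_lit 2) (nat_lit 1) true (nat_lit 3) true (nat_lit 18) true (nat_lit 6) true (nat_lit 10) true (nat_lit 17) (.s false (nat_lit 2) (nat_lit 18) (nat_lit 1) (nat_lit 1) (nat_lit 9) true (nat_lit 3) true (nat_lit 10) true (nat_lit 5) true (nat_lit 18) true (nat_lit 18) (.s true (nat_lit 2) (nat_lit 21) (nat_lit 2) (nat_lit 5) (nat_lit 2) true (nat_lit 13) true (nat_lit 17) true (nat_lit 3) true (nat_lit 17) true (nat_lit 14) dC1d_i219))))))) .leaf))))))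

noncomputable def dC1d_t2 : Tr := (.nd dC1d_t0 (nat_lit 195589) (nat_lit 1425) (.p (nat_lit 492) (nat_lit 1) .z) .df dC1d_t1)

noncomputable def dC1d_t3 : Tr := (.nd (.nd (.nd (.nd (.nd (.nd (.nd .leaf (nat_lit 245762) (nat_lit 1029) (.n (nat_lit 355) (nat_lit 2) (.n (nat_lit 356) (nat_lit 1) (.p (nat_lit 357) (nat_lit 3) (.n (nat_lit 358) (nat_lit 1) (.p (nat_lit 359) (nat_lit 3) (.p (nat_lit 360) (nat_lit 3) (.p (nat_lit 361) (nat_lit 1) (.n (nat_lit 362) (nat_lit 2) (.p (nat_lit 363) (nat_lit 1) (.p (nat_lit 364) (nat_lit 2) (.p (nat_lit 365) (nat_lit 1) (.p (nat_lit 366) (nat_lit 2) (.p (nat_lit 367) (nat_lit 3) (.p (nat_lit 368) (nat_lit 1) (.n (nat_lit 370) (nat_lit 2) (.n (nat_lit 373) (nat_lit 2) (.n (nat_lit 374) (nat_lit 2) (.n (nat_lit 375) (nat_lit 1) (.p (nat_lit 381) (nat_lit 2) (.p (nat_lit 383) (nat_lit 2) (.n (nat_lit 384) (nat_lit 2) (.p (nat_lit 386) (nat_lit 2) (.n (nat_lit 387) (nat_lit 1) (.n (nat_lit 389) (nat_lit 1) (.n (nat_lit 390) (nat_lit 2) (.p (nat_lit 391) (nat_lit 3) (.n (nat_lit 392) (nat_lit 2) (.p (nat_lit 393) (nat_lit 1) (.n (nat_lit 394) (nat_lit 2) (.n (nat_lit 395) (nat_lit 2) (.n (nat_lit 396) (nat_lit 2) (.p (nat_lit 404) (nat_lit 3) (.p (nat_lit 405) (nat_lit 1) (.n (nat_lit 406) (nat_lit 1) (.n (nat_lit 409) (nat_lit 3) (.n (nat_lit 410) (nat_lit 3) (.p (nat_lit 412) (nat_lit 1) (.n (nat_lit 413) (nat_lit 1) (.p (nat_lit 415) (nat_lit 1) (.p (nat_lit 416) (nat_lit 1) (.n (nat_lit 417) (nat_lit 1) (.n (nat_lit 424) (nat_lit 3) (.p (nat_lit 425) (nat_lit 3) .z))))))))))))))))))))))))))))))))))))))))))) (.ct dC1d_c548 (nat_lit 1) (nat_lit 17) (.s true (nat_lit 1) (nat_lit 7) (nat_lit 6) (nat_lit 1) (nat_lit 6) false (nat_lit 4) true (nat_lit 13) true (nat_lit 12) true (nat_lit 13) true (nat_lit 18) (.s true (nat_lit 2) (nat_lit 7) (nat_lit 6) (nat_lit 5) (nat_lit 2) true (nat_lit 5) true (nat_lit 17) true (nat_lit 12) true (nat_lit 13) true (nat_lit 14) (.s true (nat_lit 3) (nat_lit 8) (nat_lit 0) (nat_lit 6) (nat_lit 6) true (nat_lit 7) true (nat_lit 13) true (nat_lit 11) true (nat_lit 19) true (nat_lit 13) (.s false (nat_lit 2) (nat_lit 14) (nat_lit 2) (nat_lit 8) (nat_lit 2) true (nat_lit 13) true (nat_lit 17) true (nat_lit 7) true (nat_lit 17) true (nat_lit 11) (.s false (nat_lit 1) (nat_lit 17) (nat_lit 2) (nat_lit 7) (nat_lit 2) true (nat_lit 13) true (nat_lit 17) true (nat_lit 6) true (nat_lit 17) true (nat_lit 12) (.s false (nat_lit 1) (nat_lit 16) (nat_lit 7) (nat_lit 2) (nat_lit 2) true (nat_lit 3) true (nat_lit 17) true (nat_lit 6) true (nat_lit 12) true (nat_lit 17) (.s false (nat_lit 3) (nat_lit 18) (nat_lit 0) (nat_lit 2) (nat_lit 8) true (nat_lit 4) true (nat_lit 11) true (nat_lit 5) true (nat_lit 19) true (nat_lit 17) dC1d_i223)))))))) .leaf) (nat_lit 246786) (nat_lit 1028) (.p (nat_lit 355) (nat_lit 3) (.n (nat_lit 356) (nat_lit 2) (.n (nat_lit 357) (nat_lit 2) (.p (nat_lit 359) (nat_lit 1) (.p (nat_lit 360) (nat_lit 2) (.n (nat_lit 361) (nat_lit 2) (.n (nat_lit 362) (nat_lit 2) (.n (nat_lit 363) (nat_lit 2) (.p (nat_lit 364) (nat_lit 1) (.n (nat_lit 365) (nat_lit 2) (.p (nat_lit 366) (nat_lit 3) (.p (nat_lit 367) (nat_lit 1) (.n (nat_lit 368) (nat_lit 3) (.p (nat_lit 369) (nat_lit 1) (.p (nat_lit 370) (nat_lit 1) (.n (nat_lit 372) (nat_lit 3) (.n (nat_lit 373) (nat_lit 3) (.p (nat_lit 374) (nat_lit 2) (.p (nat_lit 375) (nat_lit 1) (.n (nat_lit 382) (nat_lit 1) (.p (nat_lit 383) (nat_lit 1) (.p (nat_lit 385) (nat_lit 1) (.n (nat_lit 386) (nat_lit 3) (.p (nat_lit 387) (nat_lit 1) (.n (nat_lit 388) (nat_lit 3) (.p (nat_lit 389) (nat_lit 1) (.n (nat_lit 390) (nat_lit 2) (.n (nat_lit 391) (nat_lit 3) (.n (nat_lit 392) (nat_lit 3) (.n (nat_lit 393) (nat_lit 2) (.p (nat_lit 394) (nat_lit 3) (.p (nat_lit 395) (nat_lit 1) (.n (nat_lit 396) (nat_lit 3) (.p (nat_lit 404) (nat_lit 3) (.p (nat_lit 405) (nat_lit 1) (.n (nat_lit 406) (nat_lit 1) (.n (nat_lit 408) (nat_lit 3) (.n (nat_lit 410) (nat_lit 3) (.n (nat_lit 412) (nat_lit 3) (.p (nat_lit 413) (nat_lit 3) (.p (nat_lit 415) (nat_lit 2) (.p (nat_lit 418) (nat_lit 2) (.n (nat_lit 419) (nat_lit 2) (.p (nat_lit 424) (nat_lit 2) (.n (nat_lit 425) (nat_lit 2) .z))))))))))))))))))))))))))))))))))))))))))))) (.ct dC1d_c548 (nat_lit 1) (nat_lit 17) (.s true (nat_lit 2) (nat_lit 7) (nat_lit 2) (nat_lit 5) (nat_lit 6) true (nat_lit 5) true (nat_lit 13) true (nat_lit 12) true (nat_lit 17) true (nat_lit 14) (.s false (nat_lit 3) (nat_lit 7) (nat_lit 5) (nat_lit 6) (nat_lit 2) true (nat_lit 6) true (nat_lit 17) true (nat_lit 12) true (nat_lit 14) true (nat_lit 13) dC1d_i227))) (.nd .leaf (nat_lit 247810) (nat_lit 998) (.p (nat_lit 355) (nat_lit 1) (.n (nat_lit 356) (nat_lit 1) (.n (nat_lit 357) (nat_lit 1) (.p (nat_lit 358) (nat_lit 1) (.n (nat_lit 359) (nat_lit 3) (.p (nat_lit 360) (nat_lit 1) (.n (nat_lit 361) (nat_lit 1) (.p (nat_lit 362) (nat_lit 1) (.n (nat_lit 363) (nat_lit 1) (.n (nat_lit 364) (nat_lit 1) (.p (nat_lit 365) (nat_lit 1) (.p (nat_lit 366) (nat_lit 3) (.n (nat_lit 369) (nat_lit 3) (.n (nat_lit 372) (nat_lit 1) (.p (nat_lit 373) (nat_lit 3) (.p (nat_lit 374) (nat_lit 3) (.n (nat_lit 375) (nat_lit 2) (.p (nat_lit 381) (nat_lit 3) (.n (nat_lit 382) (nat_lit 2) (.n (nat_lit 383) (nat_lit 2) (.n (nat_lit 384) (nat_lit 2) (.p (nat_lit 385) (nat_lit 3) (.p (nat_lit 386) (nat_lit 3) (.p (nat_lit 387) (nat_lit 1) (.n (nat_lit 388) (nat_lit 1) (.n (nat_lit 389) (nat_lit 2) (.n (nat_lit 390) (nat_lit 1) (.n (nat_lit 391) (nat_lit 1) (.p (nat_lit 392) (nat_lit 1) (.p (nat_lit 394) (nat_lit 3) (.p (nat_lit 395) (nat_lit 2) (.p (nat_lit 415) (nat_lit 2) .z)))))))))))))))))))))))))))))))) (.ct dC1d_c548 (nat_lit 1) (nat_lit 17) (.s true (nat_lit 1) (nat_lit 7) (nat_lit 1) (nat_lit 6) (nat_lit 6) true (nat_lit 6) true (nat_lit 13) true (nat_lit 12) true (nat_lit 18) true (nat_lit 13) (.s false (nat_lit 3) (nat_lit 7) (nat_lit 5) (nat_lit 6) (nat_lit 2) true (nat_lit 6) true (nat_lit 17) true (nat_lit 12) true (nat_lit 14) true (nat_lit 13) (.s false (nat_lit 3) (nat_lit 7) (nat_lit 6) (nat_lit 5) (nat_lit 2) true (nat_lit 5) true (nat_lit 17) true (nat_lit 12) true (nat_lit 13) true (nat_lit 14) (.s true (nat_lit 2) (nat_lit 7) (nat_lit 6) (nat_lit 6) (nat_lit 1) true (nat_lit 6) true (nat_lit 18) true (nat_lit 12) true (nat_lit 13) true (nat_lit 13) (.s true (nat_lit 1) (nat_lit 8) (nat_lit 0) (nat_lit 6) (nat_lit 6) true (nat_lit 7) true (nat_lit 13) true (nat_lit 11) true (nat_lit 19) true (nat_lit 13) (.s true (nat_lit 2) (nat_lit 8) (nat_lit 6) (nat_lit 2) (nat_lit 4) false (nat_lit 2) true (nat_lit 15) true (nat_lit 11) true (nat_lit 13) true (nat_lit 17) (.s false (nat_lit 1) (nat_lit 8) (nat_lit 6) (nat_lit 4) (nat_lit 2) true (nat_lit 5) true (nat_lit 17) true (nat_lit 11) true (nat_lit 13) true (nat_lit 15) (.s true (nat_lit 1) (nat_lit 8) (nat_lit 6) (nat_lit 6) (nat_lit 0) true (nat_lit 7) true (nat_lit 19) true (nat_lit 11) true (nat_lit 13) true (nat_lit 13) (.s false (nat_lit 3) (nat_lit 10) (nat_lit 0) (nat_lit 6) (nat_lit 5) true (nat_lit 9) true (nat_lit 14) true (nat_lit 9) true (nat_lit 19) true (nat_lit 13) (.s true (nat_lit 1) (nat_lit 10) (nat_lit 2) (nat_lit 2) (nat_lit 10) true (nat_lit 0) true (nat_lit 9) true (nat_lit 9) true (nat_lit 17) true (nat_lit 17) (.s false (nat_lit 3) (nat_lit 11) (nat_lit 2) (nat_lit 2) (nat_lit 11) true (nat_lit 0) true (nat_lit 9) true (nat_lit 9) true (nat_lit 17) true (nat_lit 17) (.s true (nat_lit 1) (nat_lit 11) (nat_lit 4) (nat_lit 6) (nat_lit 1) true (nat_lit 9) true (nat_lit 18) true (nat_lit 9) true (nat_lit 15) true (nat_lit 13) dC1d_i237))))))))))))) .leaf)) (nat_lit 248834) (nat_lit 1052) (.p (nat_lit 355) (nat_lit 1) (.n (nat_lit 356) (nat_lit 1) (.p (nat_lit 358) (nat_lit 1) (.n (nat_lit 359) (nat_lit 2) (.n (nat_lit 363) (nat_lit 1) (.n (nat_lit 366) (nat_lit 2) (.n (nat_lit 367) (nat_lit 2) (.p (nat_lit 369) (nat_lit 2) (.p (nat_lit 370) (nat_lit 1) (.p (nat_lit 374) (nat_lit 3) (.n (nat_lit 375) (nat_lit 1) (.n (nat_lit 381) (nat_lit 2) (.n (nat_lit 382) (nat_lit 2) (.p (nat_lit 383) (nat_lit 1) (.p (nat_lit 384) (nat_lit 1) (.p (nat_lit 385) (nat_lit 2) (.p (nat_lit 386) (nat_lit 2) (.p (nat_lit 387) (nat_lit 2) (.n (nat_lit 388) (nat_lit 2) (.n (nat_lit 390) (nat_lit 3) (.n (nat_lit 392) (nat_lit 2) (.p (nat_lit 394) (nat_lit 3) (.n (nat_lit 395) (nat_lit 2) (.p (nat_lit 396) (nat_lit 2) (.n (nat_lit 424) (nat_lit 1) .z))))))))))))))))))))))))) (.ct dC1d_c548 (nat_lit 1) (nat_lit 17) (.s true (nat_lit 1) (nat_lit 77) (nat_lit 1) (nat_lit 1) (nat_lit 2) true (nat_lit 14) true (nat_lit 17) false (nat_lit 8) true (nat_lit 18) true (nat_lit 18) (.e true (nat_lit 1) (nat_lit 143) (nat_lit 5) (nat_lit 14) (.e true (nat_lit 1) (nat_lit 289) (nat_lit 1) (nat_lit 18) (.e false (nat_lit 1) (nat_lit 281) (nat_lit 1) (nat_lit 18) .nil))))) (.nd (.nd .leaf (nat_lit 249858) (nat_lit 991) (.p (nat_lit 355) (nat_lit 1) (.p (nat_lit 356) (nat_lit 1) (.p (nat_lit 358) (nat_lit 2) (.n (nat_lit 359) (nat_lit 1) (.n (nat_lit 361) (nat_lit 3) (.p (nat_lit 362) (nat_lit 3) (.n (nat_lit 365) (nat_lit 1) (.p (nat_lit 366) (nat_lit 1) (.p (nat_lit 367) (nat_lit 3) (.p (nat_lit 370) (nat_lit 2) (.p (nat_lit 372) (nat_lit 1) (.p (nat_lit 373) (nat_lit 3) (.n (nat_lit 374) (nat_lit 1) (.p (nat_lit 375) (nat_lit 3) (.p (nat_lit 381) (nat_lit 1) (.n (nat_lit 382) (nat_lit 2) (.n (nat_lit 383) (nat_lit 3) (.n (nat_lit 384) (nat_lit 1) (.p (nat_lit 385) (nat_lit 3) (.p (nat_lit 387) (nat_lit 3) (.n (nat_lit 389) (nat_lit 3) (.p (nat_lit 391) (nat_lit 2) (.p (nat_lit 392) (nat_lit 1) (.n (nat_lit 393) (nat_lit 3) (.n (nat_lit 394) (nat_lit 1) (.p (nat_lit 395) (nat_lit 3) (.n (nat_lit 396) (nat_lit 1) (.n (nat_lit 425) (nat_lit 1) .z)))))))))))))))))))))))))))) (.ct dC1d_c548 (nat_lit 1) (nat_lit 17) (.s true (nat_lit 2) (nat_lit 7) (nat_lit 2) (nat_lit 6) (nat_lit 5) true (nat_lit 6) true (nat_lit 14) true (nat_lit 12) true (nat_lit 17) true (nat_lit 13) (.s false (nat_lit 2) (nat_lit 8) (nat_lit 0) (nat_lit 6) (nat_lit 6) true (nat_lit 7) true (nat_lit 13) true (nat_lit 11) true (nat_lit 19) true (nat_lit 13) (.s true (nat_lit 1) (nat_lit 8) (nat_lit 4) (nat_lit 6) (nat_lit 2) true (nat_lit 7) true (nat_lit 17) true (nat_lit 11) true (nat_lit 15) true (nat_lit 13) (.s true (nat_lit 2) (nat_lit 8) (nat_lit 6) (nat_lit 2) (nat_lit 4) false (nat_lit 2) true (nat_lit 15) true (nat_lit 11) true (nat_lit 13) true (nat_lit 17) (.s true (nat_lit 2) (nat_lit 8) (nat_lit 6) (nat_lit 4) (nat_lit 2) true (nat_lit 5) true (nat_lit 17) true (nat_lit 11) true (nat_lit 13) true (nat_lit 15) (.s false (nat_lit 1) (nat_lit 8) (nat_lit 6) (nat_lit 6) (nat_lit 0) true (nat_lit 7) true (nat_lit 19) true (nat_lit 11) true (nat_lit 13) true (nat_lit 13) (.s true (nat_lit 2) (nat_lit 9) (nat_lit 5) (nat_lit 2) (nat_lit 5) false (nat_lit 1) true (nat_lit 14) true (nat_lit 10) true (nat_lit 14) true (nat_lit 17) (.s true (nat_lit 1) (nat_lit 9) (nat_lit 6) (nat_lit 1) (nat_lit 5) false (nat_lit 3) true (nat_lit 14) true (nat_lit 10) true (nat_lit 13) true (nat_lit 18) dC1d_i247))))))))) .leaf) (nat_lit 250882) (nat_lit 992) (.p (nat_lit 355) (nat_lit 2) (.p (nat_lit 356) (nat_lit 3) (.n (nat_lit 357) (nat_lit 2) (.n (nat_lit 358) (nat_lit 2) (.n (nat_lit 359) (nat_lit 2) (.n (nat_lit 361) (nat_lit 1) (.p (nat_lit 362) (nat_lit 1) (.p (nat_lit 363) (nat_lit 3) (.n (nat_lit 364) (nat_lit 3) (.p (nat_lit 365) (nat_lit 2) (.n (nat_lit 366) (nat_lit 2) (.n (nat_lit 367) (nat_lit 1) (.n (nat_lit 370) (nat_lit 3) (.p (nat_lit 372) (nat_lit 1) (.n (nat_lit 373) (nat_lit 2) (.p (nat_lit 374) (nat_lit 2) (.p (nat_lit 375) (nat_lit 1) (.n (nat_lit 381) (nat_lit 3) (.n (nat_lit 382) (nat_lit 3) (.p (nat_lit 383) (nat_lit 2) (.n (nat_lit 384) (nat_lit 1) (.p (nat_lit 385) (nat_lit 1) (.p (nat_lit 386) (nat_lit 2) (.n (nat_lit 387) (nat_lit 3) (.p (nat_lit 388) (nat_lit 3) (.p (nat_lit 389) (nat_lit 2) (.n (nat_lit 390) (nat_lit 3) (.p (nat_lit 391) (nat_lit 1) (.n (nat_lit 392) (nat_lit 2) (.n (nat_lit 394) (nat_lit 1) (.n (nat_lit 395) (nat_lit 2) (.p (nat_lit 404) (nat_lit 3) (.p (nat_lit 405) (nat_lit 1) (.n (nat_lit 406) (nat_lit 1) (.p (nat_lit 408) (nat_lit 1) (.p (nat_lit 409) (nat_lit 3) (.n (nat_lit 410) (nat_lit 3) (.n (nat_lit 425) (nat_lit 2) .z)))))))))))))))))))))))))))))))))))))) (.ct dC1d_c548 (nat_lit 1) (nat_lit 17) (.s true (nat_lit 3) (nat_lit 7) (nat_lit 1) (nat_lit 6) (nat_lit 6) true (nat_lit 6) true (nat_lit 13) true (nat_lit 12) true (nat_lit 18) true (nat_lit 13) (.s false (nat_lit 1) (nat_lit 7) (nat_lit 6) (nat_lit 6) (nat_lit 1) true (nat_lit 6) true (nat_lit 18) true (nat_lit 12) true (nat_lit 13) true (nat_lit 13) (.s true (nat_lit 1) (nat_lit 8) (nat_lit 0) (nat_lit 6) (nat_lit 6) true (nat_lit 7) true (nat_lit 13) true (nat_lit 11) true (nat_lit 19) true (nat_lit 13) (.s true (nat_lit 3) (nat_lit 8) (nat_lit 2) (nat_lit 6) (nat_lit 4) true (nat_lit 7) true (nat_lit 15) true (nat_lit 11) true (nat_lit 17) true (nat_lit 13) (.s false (nat_lit 1) (nat_lit 8) (nat_lit 4) (nat_lit 6) (nat_lit 2) true (nat_lit 7) true (nat_lit 17) true (nat_lit 11) true (nat_lit 15) true (nat_lit 13) (.s true (nat_lit 1) (nat_lit 8) (nat_lit 6) (nat_lit 6) (nat_lit 0) true (nat_lit 7) true (nat_lit 19) true (nat_lit 11) true (nat_lit 13) true (nat_lit 13) (.s true (nat_lit 2) (nat_lit 9) (nat_lit 6) (nat_lit 5) (nat_lit 1) true (nat_lit 6) true (nat_lit 18) true (nat_lit 10) true (nat_lit 13) true (nat_lit 14) (.s false (nat_lit 3) (nat_lit 11) (nat_lit 0) (nat_lit 6) (nat_lit 5) true (nat_lit 9) true (nat_lit 14) true (nat_lit 9) true (nat_lit 19) true (nat_lit 13) (.s true (nat_lit 3) (nat_lit 10) (nat_lit 2) (nat_lit 2) (nat_lit 10) true (nat_lit 0) true (nat_lit 9) true (nat_lit 9) true (nat_lit 17) true (nat_lit 17) (.s true (nat_lit 2) (nat_lit 12) (nat_lit 6) (nat_lit 5) (nat_lit 0) true (nat_lit 7) true (nat_lit 19) true (nat_lit 9) true (nat_lit 13) true (nat_lit 14) (.s false (nat_lit 2) (nat_lit 13) (nat_lit 2) (nat_lit 9) (nat_lit 2) true (nat_lit 13) true (nat_lit 17) true (nat_lit 8) true (nat_lit 17) true (nat_lit 10) (.s true (nat_lit 3) (nat_lit 13) (nat_lit 9) (nat_lit 2) (nat_lit 2) true (nat_lit 1) true (nat_lit 17) true (nat_lit 8) true (nat_lit 10) true (nat_lit 17) (.s false (nat_lit 2) (nat_lit 14) (nat_lit 1) (nat_lit 1) (nat_lit 14) true (nat_lit 0) true (nat_lit 7) true (nat_lit 7) true (nat_lit 18) true (nat_lit 18) (.s false (nat_lit 3) (nat_lit 14) (nat_lit 1) (nat_lit 1) (nat_lit 15) true (nat_lit 0) true (nat_lit 7) true (nat_lit 7) true (nat_lit 18) true (nat_lit 18) (.s false (nat_lit 2) (nat_lit 15) (nat_lit 1) (nat_lit 1) (nat_lit 15) true (nat_lit 0) true (nat_lit 7) true (nat_lit 7) true (nat_lit 18) true (nat_lit 18) (.s true (nat_lit 3) (nat_lit 14) (nat_lit 1) (nat_lit 2) (nat_lit 11) true (nat_lit 2) true (nat_lit 9) true (nat_lit 7) true (nat_lit 18) true (nat_lit 17) (.s false (nat_lit 1) (nat_lit 15) (nat_lit 1) (nat_lit 2) (nat_lit 11) true (nat_lit 2) true (nat_lit 9) true (nat_lit 7) true (nat_lit 18) true (nat_lit 17) dC1d_i256)))))))))))))))))) .leaf)) (nat_lit 251906) (nat_lit 982) (.p (nat_lit 420) (nat_lit 1) .z) .df (.nd (.nd (.nd .leaf (nat_lit 252930) (nat_lit 983) (.p (nat_lit 421) (nat_lit 1) .z) .df .leaf) (nat_lit 253954) (nat_lit 1000) (.n (nat_lit 356) (nat_lit 2) (.n (nat_lit 357) (nat_lit 2) (.n (nat_lit 358) (nat_lit 2) (.n (nat_lit 359) (nat_lit 2) (.p (nat_lit 363) (nat_lit 1) (.p (nat_lit 364) (nat_lit 1) (.p (nat_lit 366) (nat_lit 2) (.n (nat_lit 367) (nat_lit 2) (.p (nat_lit 369) (nat_lit 3) (.p (nat_lit 370) (nat_lit 1) (.n (nat_lit 372) (nat_lit 2) (.p (nat_lit 374) (nat_lit 2) (.p (nat_lit 375) (nat_lit 3) (.n (nat_lit 381) (nat_lit 2) (.n (nat_lit 382) (nat_lit 2) (.n (nat_lit 383) (nat_lit 1) (.p (nat_lit 384) (nat_lit 3) (.p (nat_lit 385) (nat_lit 2) (.p (nat_lit 386) (nat_lit 3) (.p (nat_lit 387) (nat_lit 2) (.p (nat_lit 388) (nat_lit 2) (.n (nat_lit 389) (nat_lit 2) (.n (nat_lit 390) (nat_lit 1) (.n (nat_lit 391) (nat_lit 1) (.n (nat_lit 392) (nat_lit 2) (.p (nat_lit 393) (nat_lit 2) (.n (nat_lit 394) (nat_lit 2) (.n (nat_lit 395) (nat_lit 2) (.n (nat_lit 396) (nat_lit 2) (.n (nat_lit 404) (nat_lit 3) (.n (nat_lit 405) (nat_lit 1) (.p (nat_lit 406) (nat_lit 1) (.n (nat_lit 408) (nat_lit 1) (.n (nat_lit 409) (nat_lit 3) (.p (nat_lit 410) (nat_lit 3) (.n (nat_lit 418) (nat_lit 1) (.n (nat_lit 424) (nat_lit 1) .z))))))))))))))))))))))))))))))))))))) (.ct dC1d_c548 (nat_lit 1) (nat_lit 17) (.s false (nat_lit 2) (nat_lit 7) (nat_lit 1) (nat_lit 6) (nat_lit 6) true (nat_lit 6) true (nat_lit 13) true (nat_lit 12) true (nat_lit 18) true (nat_lit 13) (.s true (nat_lit 1) (nat_lit 7) (nat_lit 5) (nat_lit 6) (nat_lit 2) true (nat_lit 6) true (nat_lit 17) true (nat_lit 12) true (nat_lit 14) true (nat_lit 13) (.s false (nat_lit 2) (nat_lit 7) (nat_lit 6) (nat_lit 6) (nat_lit 1) true (nat_lit 6) true (nat_lit 18) true (nat_lit 12) true (nat_lit 13) true (nat_lit 13) (.s true (nat_lit 2) (nat_lit 8) (nat_lit 2) (nat_lit 4) (nat_lit 6) true (nat_lit 5) true (nat_lit 13) true (nat_lit 11) true (nat_lit 17) true (nat_lit 15) (.s false (nat_lit 1) (nat_lit 8) (nat_lit 4) (nat_lit 6) (nat_lit 2) true (nat_lit 7) true (nat_lit 17) true (nat_lit 11) true (nat_lit 15) true (nat_lit 13) (.s true (nat_lit 2) (nat_lit 8) (nat_lit 6) (nat_lit 6) (nat_lit 0) true (nat_lit 7) true (nat_lit 19) true (nat_lit 11) true (nat_lit 13) true (nat_lit 13) (.s false (nat_lit 1) (nat_lit 9) (nat_lit 2) (nat_lit 5) (nat_lit 5) true (nat_lit 6) true (nat_lit 14) true (nat_lit 10) true (nat_lit 17) true (nat_lit 14) (.s false (nat_lit 1) (nat_lit 9) (nat_lit 5) (nat_lit 5) (nat_lit 2) true (nat_lit 6) true (nat_lit 17) true (nat_lit 10) true (nat_lit 14) true (nat_lit 14) (.s true (nat_lit 2) (nat_lit 10) (nat_lit 2) (nat_lit 2) (nat_lit 10) true (nat_lit 0) true (nat_lit 9) true (nat_lit 9) true (nat_lit 17) true (nat_lit 17) (.s false (nat_lit 3) (nat_lit 13) (nat_lit 2) (nat_lit 2) (nat_lit 9) true (nat_lit 1) true (nat_lit 10) true (nat_lit 8) true (nat_lit 17) true (nat_lit 17) (.s true (nat_lit 1) (nat_lit 14) (nat_lit 1) (nat_lit 1) (nat_lit 14) true (nat_lit 0) true (nat_lit 7) true (nat_lit 7) true (nat_lit 18) true (nat_lit 18) (.s true (nat_lit 3) (nat_lit 14) (nat_lit 1) (nat_lit 3) (nat_lit 6) true (nat_lit 6) true (nat_lit 13) true (nat_lit 7) true (nat_lit 18) true (nat_lit 16) (.s true (nat_lit 2) (nat_lit 14) (nat_lit 2) (nat_lit 8) (nat_lit 2) true (nat_lit 13) true (nat_lit 17) true (nat_lit 7) true (nat_lit 17) true (nat_lit 11) dC1d_i265)))))))))))))) .leaf) (nat_lit 254978) (nat_lit 984) (.p (nat_lit 422) (nat_lit 1) .z) .df (.nd (.nd .leaf (nat_lit 256002) (nat_lit 1043) (.n (nat_lit 355) (nat_lit 3) (.p (nat_lit 356) (nat_lit 2) (.p (nat_lit 357) (nat_lit 1) (.n (nat_lit 358) (nat_lit 3) (.p (nat_lit 359) (nat_lit 2) (.n (nat_lit 360) (nat_lit 1) (.p (nat_lit 361) (nat_lit 1) (.p (nat_lit 362) (nat_lit 1) (.p (nat_lit 363) (nat_lit 2) (.p (nat_lit 364) (nat_lit 2) (.p (nat_lit 365) (nat_lit 1) (.p (nat_lit 366) (nat_lit 1) (.n (nat_lit 368) (nat_lit 2) (.n (nat_lit 369) (nat_lit 3) (.p (nat_lit 370) (nat_lit 1) (.n (nat_lit 372) (nat_lit 2) (.p (nat_lit 373) (nat_lit 2) (.n (nat_lit 374) (nat_lit 3) (.n (nat_lit 375) (nat_lit 1) (.p (nat_lit 376) (nat_lit 1) (.n (nat_lit 378) (nat_lit 1) (.n (nat_lit 379) (nat_lit 3) (.n (nat_lit 380) (nat_lit 3) (.n (nat_lit 381) (nat_lit 3) (.p (nat_lit 383) (nat_lit 2) (.n (nat_lit 384) (nat_lit 1) (.p (nat_lit 385) (nat_lit 1) (.p (nat_lit 386) (nat_lit 3) (.n (nat_lit 387) (nat_lit 3) (.p (nat_lit 389) (nat_lit 1) (.n (nat_lit 390) (nat_lit 3) (.n (nat_lit 392) (nat_lit 3) (.n (nat_lit 393) (nat_lit 1) (.n (nat_lit 394) (nat_lit 3) (.n (nat_lit 395) (nat_lit 2) (.p (nat_lit 396) (nat_lit 2) (.p (nat_lit 400) (nat_lit 3) (.n (nat_lit 401) (nat_lit 1) (.p (nat_lit 403) (nat_lit 1) (.n (nat_lit 404) (nat_lit 2) (.p (nat_lit 405) (nat_lit 3) (.n (nat_lit 406) (nat_lit 1) (.p (nat_lit 407) (nat_lit 1) (.p (nat_lit 408) (nat_lit 2) (.n (nat_lit 409) (nat_lit 1) (.n (nat_lit 411) (nat_lit 2) (.n (nat_lit 412) (nat_lit 1) (.p (nat_lit 413) (nat_lit 1) (.p (nat_lit 414) (nat_lit 1) (.p (nat_lit 415) (nat_lit 2) (.p (nat_lit 416) (nat_lit 1) (.n (nat_lit 417) (nat_lit 2) (.n (nat_lit 418) (nat_lit 1) (.p (nat_lit 420) (nat_lit 2) (.n (nat_lit 421) (nat_lit 2) (.n (nat_lit 422) (nat_lit 3) (.n (nat_lit 424) (nat_lit 1) .z))))))))))))))))))))))))))))))))))))))))))))))))))))))))) (.ct dC1d_c548 (nat_lit 1) (nat_lit 17) (.s false (nat_lit 2) (nat_lit 16) (nat_lit 7) (nat_lit 2) (nat_lit 2) true (nat_lit 3) true (nat_lit 17) true (nat_lit 6) true (nat_lit 12) true (nat_lit 17) (.s true (nat_lit 2) (nat_lit 17) (nat_lit 7) (nat_lit 2) (nat_lit 2) true (nat_lit 3) true (nat_lit 17) true (nat_lit 6) true (nat_lit 12) true (nat_lit 17) (.s false (nat_lit 2) (nat_lit 20) (nat_lit 1) (nat_lit 2) (nat_lit 6) true (nat_lit 6) true (nat_lit 13) true (nat_lit 3) true (nat_lit 18) true (nat_lit 17) (.s false (nat_lit 3) (nat_lit 20) (nat_lit 2) (nat_lit 2) (nat_lit 5) true (nat_lit 6) true (nat_lit 14) true (nat_lit 3) true (nat_lit 17) true (nat_lit 17) (.s false (nat_lit 2) (nat_lit 20) (nat_lit 2) (nat_lit 6) (nat_lit 1) true (nat_lit 14) true (nat_lit 18) true (nat_lit 3) true (nat_lit 17) true (nat_lit 13) (.s true (nat_lit 2) (nat_lit 20) (nat_lit 5) (nat_lit 2) (nat_lit 2) true (nat_lit 6) true (nat_lit 17) true (nat_lit 3) true (nat_lit 14) true (nat_lit 17) (.s true (nat_lit 3) (nat_lit 55) (nat_lit 1) (nat_lit 2) (nat_lit 2) true (nat_lit 14) true (nat_lit 17) false (nat_lit 6) true (nat_lit 18) true (nat_lit 17) (.s true (nat_lit 2) (nat_lit 77) (nat_lit 1) (nat_lit 1) (nat_lit 2) true (nat_lit 14) true (nat_lit 17) false (nat_lit 8) true (nat_lit 18) true (nat_lit 18) (.s true (nat_lit 3) (nat_lit 78) (nat_lit 1) (nat_lit 1) (nat_lit 2) true (nat_lit 14) true (nat_lit 17) false (nat_lit 8) true (nat_lit 18) true (nat_lit 18) (.s false (nat_lit 3) (nat_lit 103) (nat_lit 0) (nat_lit 1) (nat_lit 0) false (nat_lit 20) true (nat_lit 19) false (nat_lit 12) true (nat_lit 19) true (nat_lit 18) (.s false (nat_lit 3) (nat_lit 104) (nat_lit 0) (nat_lit 1) (nat_lit 0) false (nat_lit 20) true (nat_lit 19) false (nat_lit 12) true (nat_lit 19) true (nat_lit 18) (.s false (nat_lit 2) (nat_lit 105) (nat_lit 0) (nat_lit 1) (nat_lit 0) false (nat_lit 20) true (nat_lit 19) false (nat_lit 12) true (nat_lit 19) true (nat_lit 18) (.e false (nat_lit 2) (nat_lit 212) (nat_lit 2) (nat_lit 17) (.e true (nat_lit 1) (nat_lit 214) (nat_lit 2) (nat_lit 17) (.e true (nat_lit 1) (nat_lit 218) (nat_lit 2) (nat_lit 17) (.e false (nat_lit 2) (nat_lit 219) (nat_lit 2) (nat_lit 17) (.e true (nat_lit 2) (nat_lit 221) (nat_lit 2) (nat_lit 17) (.e true (nat_lit 3) (nat_lit 224) (nat_lit 2) (nat_lit 17) dC1d_i268))))))))))))))))))) .leaf) (nat_lit 257026) (nat_lit 985) (.p (nat_lit 423) (nat_lit 1) .z) .df .leaf))) (nat_lit 258050) (nat_lit 1002) (.p (nat_lit 355) (nat_lit 1) (.p (nat_lit 356) (nat_lit 1) (.n (nat_lit 357) (nat_lit 2) (.n (nat_lit 358) (nat_lit 3) (.p (nat_lit 359) (nat_lit 2) (.p (nat_lit 360) (nat_lit 3) (.n (nat_lit 361) (nat_lit 3) (.p (nat_lit 362) (nat_lit 2) (.p (nat_lit 363) (nat_lit 2) (.p (nat_lit 364) (nat_lit 1) (.n (nat_lit 365) (nat_lit 1) (.n (nat_lit 368) (nat_lit 2) (.n (nat_lit 369) (nat_lit 2) (.p (nat_lit 370) (nat_lit 1) (.p (nat_lit 372) (nat_lit 3) (.n (nat_lit 373) (nat_lit 1) (.p (nat_lit 375) (nat_lit 2) (.p (nat_lit 376) (nat_lit 1) (.n (nat_lit 378) (nat_lit 1) (.p (nat_lit 379) (nat_lit 2) (.p (nat_lit 380) (nat_lit 2) (.p (nat_lit 381) (nat_lit 3) (.n (nat_lit 382) (nat_lit 1) (.p (nat_lit 383) (nat_lit 1) (.p (nat_lit 384) (nat_lit 2) (.p (nat_lit 385) (nat_lit 3) (.n (nat_lit 386) (nat_lit 1) (.p (nat_lit 388) (nat_lit 1) (.n (nat_lit 389) (nat_lit 1) (.p (nat_lit 390) (nat_lit 3) (.n (nat_lit 391) (nat_lit 2) (.p (nat_lit 392) (nat_lit 3) (.p (nat_lit 393) (nat_lit 3) (.n (nat_lit 394) (nat_lit 2) (.p (nat_lit 395) (nat_lit 1) (.p (nat_lit 396) (nat_lit 1) (.n (nat_lit 400) (nat_lit 2) (.p (nat_lit 401) (nat_lit 3) (.n (nat_lit 403) (nat_lit 3) (.p (nat_lit 406) (nat_lit 1) (.p (nat_lit 407) (nat_lit 1) (.n (nat_lit 409) (nat_lit 1) (.n (nat_lit 410) (nat_lit 1) (.n (nat_lit 411) (nat_lit 2) (.n (nat_lit 412) (nat_lit 1) (.p (nat_lit 413) (nat_lit 2) (.n (nat_lit 414) (nat_lit 3) (.n (nat_lit 418) (nat_lit 1) (.p (nat_lit 419) (nat_lit 1) (.p (nat_lit 420) (nat_lit 1) (.n (nat_lit 421) (nat_lit 1) (.p (nat_lit 422) (nat_lit 2) (.n (nat_lit 423) (nat_lit 3) (.n (nat_lit 424) (nat_lit 1) (.n (nat_lit 425) (nat_lit 3) .z))))))))))))))))))))))))))))))))))))))))))))))))))))))) (.ct dC1d_c548 (nat_lit 1) (nat_lit 17) (.s false (nat_lit 1) (nat_lit 7) (nat_lit 1) (nat_lit 6) (nat_lit 6) true (nat_lit 6) true (nat_lit 13) true (nat_lit 12) true (nat_lit 18) true (nat_lit 13) (.s true (nat_lit 1) (nat_lit 7) (nat_lit 5) (nat_lit 6) (nat_lit 2) true (nat_lit 6) true (nat_lit 17) true (nat_lit 12) true (nat_lit 14) true (nat_lit 13) (.s false (nat_lit 3) (nat_lit 7) (nat_lit 6) (nat_lit 5) (nat_lit 2) true (nat_lit 5) true (nat_lit 17) true (nat_lit 12) true (nat_lit 13) true (nat_lit 14) (.s false (nat_lit 2) (nat_lit 7) (nat_lit 6) (nat_lit 6) (nat_lit 1) true (nat_lit 6) true (nat_lit 18) true (nat_lit 12) true (nat_lit 13) true (nat_lit 13) (.s true (nat_lit 1) (nat_lit 8) (nat_lit 0) (nat_lit 6) (nat_lit 6) true (nat_lit 7) true (nat_lit 13) true (nat_lit 11) true (nat_lit 19) true (nat_lit 13) (.s false (nat_lit 3) (nat_lit 8) (nat_lit 2) (nat_lit 4) (nat_lit 6) true (nat_lit 5) true (nat_lit 13) true (nat_lit 11) true (nat_lit 17) true (nat_lit 15) (.s false (nat_lit 2) (nat_lit 8) (nat_lit 4) (nat_lit 6) (nat_lit 2) true (nat_lit 7) true (nat_lit 17) true (nat_lit 11) true (nat_lit 15) true (nat_lit 13) (.s true (nat_lit 2) (nat_lit 8) (nat_lit 6) (nat_lit 4) (nat_lit 2) true (nat_lit 5) true (nat_lit 17) true (nat_lit 11) true (nat_lit 13) true (nat_lit 15) (.s true (nat_lit 1) (nat_lit 8) (nat_lit 6) (nat_lit 6) (nat_lit 0) true (nat_lit 7) true (nat_lit 19) true (nat_lit 11) true (nat_lit 13) true (nat_lit 13) (.s true (nat_lit 1) (nat_lit 9) (nat_lit 5) (nat_lit 2) (nat_lit 5) false (nat_lit 1) true (nat_lit 14) true (nat_lit 10) true (nat_lit 14) true (nat_lit 17) (.s false (nat_lit 2) (nat_lit 9) (nat_lit 5) (nat_lit 5) (nat_lit 2) true (nat_lit 6) true (nat_lit 17) true (nat_lit 10) true (nat_lit 14) true (nat_lit 14) (.s false (nat_lit 2) (nat_lit 9) (nat_lit 6) (nat_lit 1) (nat_lit 5) false (nat_lit 3) true (nat_lit 14) true (nat_lit 10) true (nat_lit 13) true (nat_lit 18) (.s true (nat_lit 3) (nat_lit 10) (nat_lit 0) (nat_lit 6) (nat_lit 5) true (nat_lit 9) true (nat_lit 14) true (nat_lit 9) true (nat_lit 19) true (nat_lit 13) (.s true (nat_lit 1) (nat_lit 10) (nat_lit 2) (nat_lit 2) (nat_lit 10) true (nat_lit 0) true (nat_lit 9) true (nat_lit 9) true (nat_lit 17) true (nat_lit 17) (.s false (nat_lit 2) (nat_lit 11) (nat_lit 2) (nat_lit 2) (nat_lit 11) true (nat_lit 0) true (nat_lit 9) true (nat_lit 9) true (nat_lit 17) true (nat_lit 17) (.s true (nat_lit 3) (nat_lit 13) (nat_lit 2) (nat_lit 4) (nat_lit 4) true (nat_lit 7) true (nat_lit 15) true (nat_lit 8) true (nat_lit 17) true (nat_lit 15) (.s true (nat_lit 2) (nat_lit 13) (nat_lit 2) (nat_lit 9) (nat_lit 2) true (nat_lit 13) true (nat_lit 17) true (nat_lit 8) true (nat_lit 17) true (nat_lit 10) (.s true (nat_lit 2) (nat_lit 14) (nat_lit 1) (nat_lit 1) (nat_lit 14) true (nat_lit 0) true (nat_lit 7) true (nat_lit 7) true (nat_lit 18) true (nat_lit 18) (.s true (nat_lit 1) (nat_lit 15) (nat_lit 1) (nat_lit 1) (nat_lit 15) true (nat_lit 0) true (nat_lit 7) true (nat_lit 7) true (nat_lit 18) true (nat_lit 18) (.s true (nat_lit 1) (nat_lit 15) (nat_lit 1) (nat_lit 2) (nat_lit 10) true (nat_lit 2) true (nat_lit 9) true (nat_lit 7) true (nat_lit 18) true (nat_lit 17) (.s true (nat_lit 1) (nat_lit 14) (nat_lit 1) (nat_lit 3) (nat_lit 6) true (nat_lit 6) true (nat_lit 13) true (nat_lit 7) true (nat_lit 18) true (nat_lit 16) (.s false (nat_lit 3) (nat_lit 14) (nat_lit 1) (nat_lit 15) (nat_lit 1) false (nat_lit 21) true (nat_lit 18) true (nat_lit 7) true (nat_lit 18) true (nat_lit 7) dC1d_i278))))))))))))))))))))))) (.nd (.nd (.nd (.nd .leaf (nat_lit 259074) (nat_lit 1116) (.n (nat_lit 355) (nat_lit 2) (.n (nat_lit 356) (nat_lit 2) (.p (nat_lit 358) (nat_lit 2) (.p (nat_lit 359) (nat_lit 1) (.p (nat_lit 360) (nat_lit 3) (.p (nat_lit 363) (nat_lit 2) (.p (nat_lit 364) (nat_lit 1) (.n (nat_lit 365) (nat_lit 3) (.p (nat_lit 366) (nat_lit 2) (.p (nat_lit 367) (nat_lit 1) (.n (nat_lit 369) (nat_lit 2) (.p (nat_lit 370) (nat_lit 3) (.p (nat_lit 374) (nat_lit 1) (.p (nat_lit 375) (nat_lit 1) (.p (nat_lit 379) (nat_lit 3) (.p (nat_lit 380) (nat_lit 3) (.p (nat_lit 381) (nat_lit 3) (.n (nat_lit 383) (nat_lit 1) (.n (nat_lit 384) (nat_lit 1) (.n (nat_lit 385) (nat_lit 2) (.n (nat_lit 386) (nat_lit 2) (.p (nat_lit 388) (nat_lit 2) (.p (nat_lit 389) (nat_lit 3) (.p (nat_lit 390) (nat_lit 3) (.n (nat_lit 391) (nat_lit 1) (.p (nat_lit 392) (nat_lit 1) (.n (nat_lit 393) (nat_lit 2) (.n (nat_lit 395) (nat_lit 1) (.p (nat_lit 396) (nat_lit 3) (.n (nat_lit 400) (nat_lit 3) (.p (nat_lit 401) (nat_lit 1) (.n (nat_lit 404) (nat_lit 2) (.n (nat_lit 405) (nat_lit 1) (.p (nat_lit 408) (nat_lit 1) (.p (nat_lit 409) (nat_lit 2) (.n (nat_lit 410) (nat_lit 3) (.p (nat_lit 413) (nat_lit 2) (.n (nat_lit 414) (nat_lit 1) (.n (nat_lit 415) (nat_lit 2) (.p (nat_lit 417) (nat_lit 2) (.p (nat_lit 419) (nat_lit 2) (.n (nat_lit 420) (nat_lit 2) (.n (nat_lit 422) (nat_lit 3) (.n (nat_lit 424) (nat_lit 3) (.n (nat_lit 425) (nat_lit 3) .z))))))))))))))))))))))))))))))))))))))))))))) (.ct dC1d_c548 (nat_lit 1) (nat_lit 17) (.s false (nat_lit 1) (nat_lit 14) (nat_lit 2) (nat_lit 2) (nat_lit 8) true (nat_lit 2) true (nat_lit 11) true (nat_lit 7) true (nat_lit 17) true (nat_lit 17) (.s false (nat_lit 1) (nat_lit 74) (nat_lit 0) (nat_lit 2) (nat_lit 2) true (nat_lit 15) true (nat_lit 17) false (nat_lit 7) true (nat_lit 19) true (nat_lit 17) (.s true (nat_lit 1) (nat_lit 74) (nat_lit 2) (nat_lit 2) (nat_lit 0) true (nat_lit 15) true (nat_lit 19) false (nat_lit 7) true (nat_lit 17) true (nat_lit 17) (.e true (nat_lit 1) (nat_lit 40) (nat_lit 24) (nat_lit 2) (.e false (nat_lit 1) (nat_lit 98) (nat_lit 8) (nat_lit 11) (.e true (nat_lit 2) (nat_lit 213) (nat_lit 2) (nat_lit 17) (.e false (nat_lit 3) (nat_lit 214) (nat_lit 2) (nat_lit 17) (.e true (nat_lit 1) (nat_lit 215) (nat_lit 2) (nat_lit 17) (.e true (nat_lit 2) (nat_lit 216) (nat_lit 2) (nat_lit 17) (.e false (nat_lit 2) (nat_lit 220) (nat_lit 2) (nat_lit 17) (.e true (nat_lit 3) (nat_lit 221) (nat_lit 2) (nat_lit 17) (.e false (nat_lit 1) (nat_lit 223) (nat_lit 2) (nat_lit 17) dC1d_i279))))))))))))) .leaf) (nat_lit 260098) (nat_lit 1205) (.p (nat_lit 355) (nat_lit 1) (.n (nat_lit 356) (nat_lit 1) (.p (nat_lit 357) (nat_lit 2) (.n (nat_lit 358) (nat_lit 1) (.n (nat_lit 359) (nat_lit 2) (.p (nat_lit 360) (nat_lit 2) (.n (nat_lit 362) (nat_lit 3) (.p (nat_lit 363) (nat_lit 3) (.n (nat_lit 364) (nat_lit 2) (.n (nat_lit 365) (nat_lit 1) (.p (nat_lit 366) (nat_lit 1) (.n (nat_lit 367) (nat_lit 1) (.p (nat_lit 369) (nat_lit 2) (.n (nat_lit 370) (nat_lit 3) (.n (nat_lit 372) (nat_lit 2) (.n (nat_lit 373) (nat_lit 3) (.p (nat_lit 374) (nat_lit 2) (.n (nat_lit 375) (nat_lit 2) (.n (nat_lit 376) (nat_lit 1) (.p (nat_lit 377) (nat_lit 1) (.p (nat_lit 379) (nat_lit 1) (.p (nat_lit 380) (nat_lit 2) (.p (nat_lit 381) (nat_lit 3) (.n (nat_lit 382) (nat_lit 3) (.n (nat_lit 383) (nat_lit 2) (.n (nat_lit 385) (nat_lit 2) (.n (nat_lit 386) (nat_lit 1) (.p (nat_lit 387) (nat_lit 1) (.p (nat_lit 388) (nat_lit 1) (.n (nat_lit 389) (nat_lit 3) (.n (nat_lit 390) (nat_lit 3) (.p (nat_lit 391) (nat_lit 1) (.n (nat_lit 395) (nat_lit 2) (.p (nat_lit 396) (nat_lit 1) (.p (nat_lit 397) (nat_lit 1) (.n (nat_lit 398) (nat_lit 1) (.p (nat_lit 399) (nat_lit 3) (.p (nat_lit 400) (nat_lit 2) (.n (nat_lit 401) (nat_lit 3) (.p (nat_lit 403) (nat_lit 3) (.p (nat_lit 404) (nat_lit 1) (.n (nat_lit 405) (nat_lit 2) (.p (nat_lit 406) (nat_lit 2) (.p (nat_lit 407) (nat_lit 1) (.n (nat_lit 408) (nat_lit 2) (.n (nat_lit 410) (nat_lit 1) (.n (nat_lit 411) (nat_lit 1) (.p (nat_lit 413) (nat_lit 1) (.p (nat_lit 414) (nat_lit 3) (.n (nat_lit 415) (nat_lit 1) (.n (nat_lit 416) (nat_lit 1) (.p (nat_lit 417) (nat_lit 1) (.p (nat_lit 419) (nat_lit 1) (.n (nat_lit 420) (nat_lit 1) (.p (nat_lit 421) (nat_lit 1) (.p (nat_lit 422) (nat_lit 2) (.n (nat_lit 423) (nat_lit 3) (.n (nat_lit 425) (nat_lit 3) .z)))))))))))))))))))))))))))))))))))))))))))))))))))))))))) (.ct dC1d_c548 (nat_lit 1) (nat_lit 17) (.s true (nat_lit 3) (nat_lit 57) (nat_lit 2) (nat_lit 2) (nat_lit 1) true (nat_lit 14) true (nat_lit 18) false (nat_lit 6) true (nat_lit 17) true (nat_lit 17) (.e true (nat_lit 3) (nat_lit 134) (nat_lit 5) (nat_lit 14) (.e true (nat_lit 3) (nat_lit 262) (nat_lit 1) (nat_lit 18) (.e false (nat_lit 3) (nat_lit 57) (nat_lit 17) (nat_lit 6) (.e true (nat_lit 3) (nat_lit 213) (nat_lit 2) (nat_lit 17) (.e true (nat_lit 2) (nat_lit 214) (nat_lit 2) (nat_lit 17) (.e true (nat_lit 1) (nat_lit 215) (nat_lit 2) (nat_lit 17) (.e true (nat_lit 1) (nat_lit 216) (nat_lit 2) (nat_lit 17) dC1d_i280))))))))) .leaf) (nat_lit 262146) (nat_lit 1025) (.p (nat_lit 355) (nat_lit 2) (.p (nat_lit 356) (nat_lit 1) (.p (nat_lit 357) (nat_lit 3) (.n (nat_lit 358) (nat_lit 2) (.p (nat_lit 359) (nat_lit 3) (.p (nat_lit 360) (nat_lit 1) (.n (nat_lit 361) (nat_lit 2) (.p (nat_lit 362) (nat_lit 1) (.n (nat_lit 363) (nat_lit 1) (.p (nat_lit 364) (nat_lit 2) (.n (nat_lit 365) (nat_lit 1) (.p (nat_lit 366) (nat_lit 3) (.n (nat_lit 367) (nat_lit 1) (.p (nat_lit 368) (nat_lit 1) (.p (nat_lit 369) (nat_lit 2) (.n (nat_lit 370) (nat_lit 1) (.p (nat_lit 371) (nat_lit 2) (.p (nat_lit 372) (nat_lit 3) (.p (nat_lit 374) (nat_lit 3) (.n (nat_lit 378) (nat_lit 2) (.p (nat_lit 379) (nat_lit 2) (.n (nat_lit 381) (nat_lit 1) (.n (nat_lit 382) (nat_lit 1) (.n (nat_lit 383) (nat_lit 3) (.p (nat_lit 384) (nat_lit 1) (.n (nat_lit 385) (nat_lit 2) (.p (nat_lit 386) (nat_lit 1) (.n (nat_lit 388) (nat_lit 2) (.n (nat_lit 389) (nat_lit 2) (.n (nat_lit 390) (nat_lit 2) (.n (nat_lit 391) (nat_lit 1) (.n (nat_lit 394) (nat_lit 1) (.p (nat_lit 396) (nat_lit 2) (.n (nat_lit 404) (nat_lit 2) (.p (nat_lit 405) (nat_lit 2) (.n (nat_lit 406) (nat_lit 2) (.p (nat_lit 407) (nat_lit 2) (.n (nat_lit 408) (nat_lit 3) (.p (nat_lit 409) (nat_lit 3) (.p (nat_lit 410) (nat_lit 1) (.n (nat_lit 412) (nat_lit 2) (.p (nat_lit 413) (nat_lit 2) (.p (nat_lit 414) (nat_lit 1) (.n (nat_lit 416) (nat_lit 2) (.n (nat_lit 418) (nat_lit 2) (.p (nat_lit 423) (nat_lit 1) (.n (nat_lit 424) (nat_lit 3) .z))))))))))))))))))))))))))))))))))))))))))))))) (.ct dC1d_c548 (nat_lit 1) (nat_lit 17) (.s false (nat_lit 3) (nat_lit 7) (nat_lit 6) (nat_lit 1) (nat_lit 6) false (nat_lit 4) true (nat_lit 13) true (nat_lit 12) true (nat_lit 13) true (nat_lit 18) (.s true (nat_lit 3) (nat_lit 7) (nat_lit 6) (nat_lit 5) (nat_lit 2) true (nat_lit 5) true (nat_lit 17) true (nat_lit 12) true (nat_lit 13) true (nat_lit 14) (.s false (nat_lit 2) (nat_lit 8) (nat_lit 6) (nat_lit 0) (nat_lit 6) false (nat_lit 4) true (nat_lit 13) true (nat_lit 11) true (nat_lit 13) true (nat_lit 19) (.s true (nat_lit 3) (nat_lit 8) (nat_lit 6) (nat_lit 4) (nat_lit 2) true (nat_lit 5) true (nat_lit 17) true (nat_lit 11) true (nat_lit 13) true (nat_lit 15) (.s false (nat_lit 2) (nat_lit 9) (nat_lit 1) (nat_lit 6) (nat_lit 5) true (nat_lit 8) true (nat_lit 14) true (nat_lit 10) true (nat_lit 18) true (nat_lit 13) dC1d_i285)))))) (.nd (.nd .leaf (nat_lit 263170) (nat_lit 1082) (.p (nat_lit 355) (nat_lit 2) (.n (nat_lit 356) (nat_lit 2) (.p (nat_lit 357) (nat_lit 3) (.p (nat_lit 358) (nat_lit 3) (.n (nat_lit 359) (nat_lit 2) (.p (nat_lit 360) (nat_lit 3) (.p (nat_lit 362) (nat_lit 3) (.p (nat_lit 363) (nat_lit 2) (.n (nat_lit 364) (nat_lit 3) (.p (nat_lit 365) (nat_lit 3) (.p (nat_lit 366) (nat_lit 1) (.n (nat_lit 367) (nat_lit 1) (.n (nat_lit 368) (nat_lit 3) (.p (nat_lit 369) (nat_lit 3) (.p (nat_lit 370) (nat_lit 2) (.n (nat_lit 371) (nat_lit 2) (.p (nat_lit 373) (nat_lit 2) (.p (nat_lit 374) (nat_lit 1) (.p (nat_lit 378) (nat_lit 2) (.n (nat_lit 379) (nat_lit 1) (.n (nat_lit 380) (nat_lit 1) (.p (nat_lit 381) (nat_lit 3) (.n (nat_lit 383) (nat_lit 2) (.p (nat_lit 384) (nat_lit 2) (.n (nat_lit 386) (nat_lit 1) (.n (nat_lit 387) (nat_lit 1) (.n (nat_lit 388) (nat_lit 2) (.n (nat_lit 389) (nat_lit 3) (.p (nat_lit 390) (nat_lit 2) (.p (nat_lit 391) (nat_lit 2) (.n (nat_lit 392) (nat_lit 3) (.p (nat_lit 394) (nat_lit 1) (.n (nat_lit 396) (nat_lit 2) (.p (nat_lit 399) (nat_lit 1) (.p (nat_lit 404) (nat_lit 3) (.p (nat_lit 405) (nat_lit 3) (.n (nat_lit 406) (nat_lit 3) (.n (nat_lit 407) (nat_lit 2) (.p (nat_lit 408) (nat_lit 1) (.n (nat_lit 409) (nat_lit 2) (.n (nat_lit 410) (nat_lit 3) (.p (nat_lit 412) (nat_lit 2) (.n (nat_lit 413) (nat_lit 2) (.p (nat_lit 414) (nat_lit 1) (.p (nat_lit 416) (nat_lit 2) (.p (nat_lit 418) (nat_lit 1) (.n (nat_lit 423) (nat_lit 1) (.p (nat_lit 424) (nat_lit 1) .z)))))))))))))))))))))))))))))))))))))))))))))))) (.ct dC1d_c548 (nat_lit 1) (nat_lit 17) (.s true (nat_lit 2) (nat_lit 13) (nat_lit 2) (nat_lit 2) (nat_lit 9) true (nat_lit 1) true (nat_lit 10) true (nat_lit 8) true (nat_lit 17) true (nat_lit 17) (.s false (nat_lit 2) (nat_lit 13) (nat_lit 9) (nat_lit 2) (nat_lit 2) true (nat_lit 1) true (nat_lit 17) true (nat_lit 8) true (nat_lit 10) true (nat_lit 17) (.e false (nat_lit 3) (nat_lit 93) (nat_lit 9) (nat_lit 10) (.e false (nat_lit 3) (nat_lit 77) (nat_lit 13) (nat_lit 8) (.e true (nat_lit 2) (nat_lit 78) (nat_lit 13) (nat_lit 8) (.e false (nat_lit 2) (nat_lit 79) (nat_lit 13) (nat_lit 8) (.e true (nat_lit 2) (nat_lit 81) (nat_lit 13) (nat_lit 8) (.e true (nat_lit 2) (nat_lit 236) (nat_lit 2) (nat_lit 17) (.e false (nat_lit 3) (nat_lit 243) (nat_lit 2) (nat_lit 17) (.e true (nat_lit 2) (nat_lit 212) (nat_lit 2) (nat_lit 17) (.e false (nat_lit 2) (nat_lit 213) (nat_lit 2) (nat_lit 17) (.e true (nat_lit 3) (nat_lit 214) (nat_lit 2) (nat_lit 17) (.e false (nat_lit 3) (nat_lit 216) (nat_lit 2) (nat_lit 17) (.e true (nat_lit 1) (nat_lit 219) (nat_lit 2) (nat_lit 17) (.e true (nat_lit 1) (nat_lit 220) (nat_lit 2) (nat_lit 17) (.e false (nat_lit 3) (nat_lit 221) (nat_lit 2) (nat_lit 17) (.e true (nat_lit 2) (nat_lit 222) (nat_lit 2) (nat_lit 17) (.e false (nat_lit 3) (nat_lit 223) (nat_lit 2) (nat_lit 17) (.e false (nat_lit 1) (nat_lit 224) (nat_lit 2) (nat_lit 17) (.e true (nat_lit 1) (nat_lit 226) (nat_lit 2) (nat_lit 17) dC1d_i286))))))))))))))))))))) .leaf) (nat_lit 264194) (nat_lit 1017) (.p (nat_lit 355) (nat_lit 3) (.p (nat_lit 357) (nat_lit 3) (.p (nat_lit 358) (nat_lit 2) (.p (nat_lit 359) (nat_lit 2) (.n (nat_lit 360) (nat_lit 2) (.p (nat_lit 361) (nat_lit 1) (.p (nat_lit 362) (nat_lit 2) (.n (nat_lit 363) (nat_lit 3) (.p (nat_lit 364) (nat_lit 1) (.p (nat_lit 365) (nat_lit 1) (.p (nat_lit 366) (nat_lit 3) (.n (nat_lit 367) (nat_lit 3) (.p (nat_lit 368) (nat_lit 2) (.n (nat_lit 369) (nat_lit 2) (.n (nat_lit 370) (nat_lit 3) (.p (nat_lit 372) (nat_lit 3) (.n (nat_lit 373) (nat_lit 3) (.p (nat_lit 374) (nat_lit 3) (.n (nat_lit 375) (nat_lit 3) (.p (nat_lit 378) (nat_lit 2) (.n (nat_lit 379) (nat_lit 1) (.n (nat_lit 380) (nat_lit 1) (.p (nat_lit 382) (nat_lit 1) (.p (nat_lit 383) (nat_lit 1) (.p (nat_lit 384) (nat_lit 3) (.n (nat_lit 385) (nat_lit 3) (.p (nat_lit 388) (nat_lit 3) (.n (nat_lit 389) (nat_lit 1) (.p (nat_lit 390) (nat_lit 2) (.p (nat_lit 391) (nat_lit 3) (.n (nat_lit 392) (nat_lit 3) (.n (nat_lit 393) (nat_lit 3) (.n (nat_lit 395) (nat_lit 1) (.n (nat_lit 396) (nat_lit 3) (.p (nat_lit 400) (nat_lit 1) (.p (nat_lit 404) (nat_lit 2) (.n (nat_lit 405) (nat_lit 2) (.p (nat_lit 406) (nat_lit 2) (.n (nat_lit 407) (nat_lit 2) (.n (nat_lit 408) (nat_lit 2) (.p (nat_lit 409) (nat_lit 2) (.n (nat_lit 414) (nat_lit 1) (.p (nat_lit 416) (nat_lit 2) (.p (nat_lit 418) (nat_lit 1) (.n (nat_lit 423) (nat_lit 1) (.p (nat_lit 424) (nat_lit 2) (.n (nat_lit 425) (nat_lit 1) .z))))))))))))))))))))))))))))))))))))))))))))))) (.ct dC1d_c548 (nat_lit 1) (nat_lit 17) (.s false (nat_lit 2) (nat_lit 7) (nat_lit 2) (nat_lit 5) (nat_lit 6) true (nat_lit 5) true (nat_lit 13) true (nat_lit 12) true (nat_lit 17) true (nat_lit 14) (.s false (nat_lit 2) (nat_lit 7) (nat_lit 5) (nat_lit 6) (nat_lit 2) true (nat_lit 6) true (nat_lit 17) true (nat_lit 12) true (nat_lit 14) true (nat_lit 13) (.s false (nat_lit 1) (nat_lit 8) (nat_lit 2) (nat_lit 6) (nat_lit 4) true (nat_lit 7) true (nat_lit 15) true (nat_lit 11) true (nat_lit 17) true (nat_lit 13) (.s true (nat_lit 3) (nat_lit 8) (nat_lit 6) (nat_lit 0) (nat_lit 6) false (nat_lit 4) true (nat_lit 13) true (nat_lit 11) true (nat_lit 13) true (nat_lit 19) (.s false (nat_lit 1) (nat_lit 8) (nat_lit 6) (nat_lit 6) (nat_lit 0) true (nat_lit 7) true (nat_lit 19) true (nat_lit 11) true (nat_lit 13) true (nat_lit 13) (.s true (nat_lit 2) (nat_lit 13) (nat_lit 2) (nat_lit 2) (nat_lit 9) true (nat_lit 1) true (nat_lit 10) true (nat_lit 8) true (nat_lit 17) true (nat_lit 17) (.s false (nat_lit 2) (nat_lit 13) (nat_lit 9) (nat_lit 2) (nat_lit 2) true (nat_lit 1) true (nat_lit 17) true (nat_lit 8) true (nat_lit 10) true (nat_lit 17) (.s true (nat_lit 1) (nat_lit 14) (nat_lit 1) (nat_lit 1) (nat_lit 14) true (nat_lit 0) true (nat_lit 7) true (nat_lit 7) true (nat_lit 18) true (nat_lit 18) (.s true (nat_lit 2) (nat_lit 15) (nat_lit 1) (nat_lit 1) (nat_lit 15) true (nat_lit 0) true (nat_lit 7) true (nat_lit 7) true (nat_lit 18) true (nat_lit 18) (.s false (nat_lit 1) (nat_lit 14) (nat_lit 1) (nat_lit 15) (nat_lit 1) false (nat_lit 21) true (nat_lit 18) true (nat_lit 7) true (nat_lit 18) true (nat_lit 7) (.s true (nat_lit 1) (nat_lit 15) (nat_lit 2) (nat_lit 2) (nat_lit 8) true (nat_lit 2) true (nat_lit 11) true (nat_lit 7) true (nat_lit 17) true (nat_lit 17) (.s false (nat_lit 2) (nat_lit 14) (nat_lit 2) (nat_lit 8) (nat_lit 2) true (nat_lit 13) true (nat_lit 17) true (nat_lit 7) true (nat_lit 17) true (nat_lit 11) (.s false (nat_lit 1) (nat_lit 15) (nat_lit 13) (nat_lit 2) (nat_lit 0) true (nat_lit 2) true (nat_lit 19) true (nat_lit 7) true (nat_lit 8) true (nat_lit 17) (.s false (nat_lit 1) (nat_lit 16) (nat_lit 2) (nat_lit 2) (nat_lit 7) true (nat_lit 3) true (nat_lit 12) true (nat_lit 6) true (nat_lit 17) true (nat_lit 17) (.s false (nat_lit 1) (nat_lit 17) (nat_lit 2) (nat_lit 7) (nat_lit 2) true (nat_lit 13) true (nat_lit 17) true (nat_lit 6) true (nat_lit 17) true (nat_lit 12) (.s false (nat_lit 1) (nat_lit 16) (nat_lit 7) (nat_lit 2) (nat_lit 2) true (nat_lit 3) true (nat_lit 17) true (nat_lit 6) true (nat_lit 12) true (nat_lit 17) (.s false (nat_lit 2) (nat_lit 17) (nat_lit 9) (nat_lit 2) (nat_lit 1) true (nat_lit 3) true (nat_lit 18) true (nat_lit 6) true (nat_lit 10) true (nat_lit 17) (.s false (nat_lit 2) (nat_lit 16) (nat_lit 15) (nat_lit 1) (nat_lit 0) true (nat_lit 1) true (nat_lit 19) true (nat_lit 6) true (nat_lit 7) true (nat_lit 18) (.s false (nat_lit 2) (nat_lit 17) (nat_lit 15) (nat_lit 1) (nat_lit 0) true (nat_lit 1) true (nat_lit 19) true (nat_lit 6) true (nat_lit 7) true (nat_lit 18) (.s false (nat_lit 1) (nat_lit 18) (nat_lit 0) (nat_lit 0) (nat_lit 13) true (nat_lit 2) true (nat_lit 8) true (nat_lit 5) true (nat_lit 19) true (nat_lit 19) (.s true (nat_lit 1) (nat_lit 18) (nat_lit 0) (nat_lit 2) (nat_lit 8) true (nat_lit 4) true (nat_lit 11) true (nat_lit 5) true (nat_lit 19) true (nat_lit 17) (.s false (nat_lit 2) (nat_lit 18) (nat_lit 1) (nat_lit 1) (nat_lit 9) true (nat_lit 3) true (nat_lit 10) true (nat_lit 5) true (nat_lit 18) true (nat_lit 18) (.s true (nat_lit 2) (nat_lit 18) (nat_lit 1) (nat_lit 2) (nat_lit 7) true (nat_lit 4) true (nat_lit 12) true (nat_lit 5) true (nat_lit 18) true (nat_lit 17) dC1d_i292)))))))))))))))))))))))) .leaf)) (nat_lit 265218) (nat_lit 1001) (.n (nat_lit 355) (nat_lit 3) (.n (nat_lit 357) (nat_lit 2) (.p (nat_lit 358) (nat_lit 2) (.n (nat_lit 359) (nat_lit 3) (.p (nat_lit 360) (nat_lit 1) (.n (nat_lit 361) (nat_lit 3) (.p (nat_lit 362) (nat_lit 2) (.n (nat_lit 363) (nat_lit 2) (.n (nat_lit 364) (nat_lit 2) (.p (nat_lit 366) (nat_lit 2) (.n (nat_lit 367) (nat_lit 2) (.n (nat_lit 368) (nat_lit 3) (.n (nat_lit 370) (nat_lit 1) (.n (nat_lit 372) (nat_lit 1) (.p (nat_lit 373) (nat_lit 1) (.n (nat_lit 374) (nat_lit 2) (.n (nat_lit 375) (nat_lit 1) (.n (nat_lit 378) (nat_lit 3) (.n (nat_lit 379) (nat_lit 2) (.n (nat_lit 380) (nat_lit 2) (.n (nat_lit 382) (nat_lit 3) (.p (nat_lit 383) (nat_lit 1) (.p (nat_lit 384) (nat_lit 1) (.p (nat_lit 385) (nat_lit 2) (.p (nat_lit 387) (nat_lit 1) (.n (nat_lit 388) (nat_lit 2) (.n (nat_lit 389) (nat_lit 1) (.n (nat_lit 390) (nat_lit 3) (.p (nat_lit 391) (nat_lit 3) (.n (nat_lit 392) (nat_lit 1) (.n (nat_lit 393) (nat_lit 1) (.p (nat_lit 394) (nat_lit 2) (.p (nat_lit 395) (nat_lit 3) (.n (nat_lit 396) (nat_lit 2) (.p (nat_lit 400) (nat_lit 2) (.n (nat_lit 404) (nat_lit 3) (.p (nat_lit 405) (nat_lit 3) (.n (nat_lit 406) (nat_lit 3) (.p (nat_lit 407) (nat_lit 3) (.p (nat_lit 408) (nat_lit 3) (.n (nat_lit 409) (nat_lit 3) (.n (nat_lit 414) (nat_lit 2) (.n (nat_lit 416) (nat_lit 3) (.p (nat_lit 418) (nat_lit 2) (.n (nat_lit 423) (nat_lit 2) (.n (nat_lit 424) (nat_lit 3) (.n (nat_lit 425) (nat_lit 2) .z))))))))))))))))))))))))))))))))))))))))))))))) (.ct dC1d_c548 (nat_lit 1) (nat_lit 17) (.s true (nat_lit 2) (nat_lit 7) (nat_lit 1) (nat_lit 6) (nat_lit 6) true (nat_lit 6) true (nat_lit 13) true (nat_lit 12) true (nat_lit 18) true (nat_lit 13) (.s false (nat_lit 1) (nat_lit 7) (nat_lit 2) (nat_lit 5) (nat_lit 6) true (nat_lit 5) true (nat_lit 13) true (nat_lit 12) true (nat_lit 17) true (nat_lit 14) (.s false (nat_lit 2) (nat_lit 7) (nat_lit 6) (nat_lit 5) (nat_lit 2) true (nat_lit 5) true (nat_lit 17) true (nat_lit 12) true (nat_lit 13) true (nat_lit 14) (.s false (nat_lit 3) (nat_lit 8) (nat_lit 0) (nat_lit 6) (nat_lit 6) true (nat_lit 7) true (nat_lit 13) true (nat_lit 11) true (nat_lit 19) true (nat_lit 13) (.s false (nat_lit 3) (nat_lit 8) (nat_lit 2) (nat_lit 6) (nat_lit 4) true (nat_lit 7) true (nat_lit 15) true (nat_lit 11) true (nat_lit 17) true (nat_lit 13) dC1d_i302)))))) (.nd (.nd (.nd .leaf (nat_lit 266241) (nat_lit 944) (.p (nat_lit 382) (nat_lit 1) .z) .df .leaf) (nat_lit 266242) (nat_lit 1274) (.n (nat_lit 426) (nat_lit 1) (.p (nat_lit 427) (nat_lit 3) (.n (nat_lit 428) (nat_lit 3) (.p (nat_lit 429) (nat_lit 3) (.p (nat_lit 430) (nat_lit 2) (.p (nat_lit 431) (nat_lit 1) (.n (nat_lit 432) (nat_lit 1) (.n (nat_lit 433) (nat_lit 1) (.n (nat_lit 434) (nat_lit 3) (.n (nat_lit 435) (nat_lit 2) (.p (nat_lit 438) (nat_lit 1) (.n (nat_lit 439) (nat_lit 2) (.n (nat_lit 441) (nat_lit 3) (.p (nat_lit 442) (nat_lit 2) (.n (nat_lit 444) (nat_lit 1) (.p (nat_lit 445) (nat_lit 2) (.n (nat_lit 456) (nat_lit 2) (.p (nat_lit 459) (nat_lit 3) .z)))))))))))))))))) (.ct dC1d_c533 (nat_lit 1) (nat_lit 13) (.s true (nat_lit 1) (nat_lit 11) (nat_lit 6) (nat_lit 4) (nat_lit 2) true (nat_lit 3) true (nat_lit 13) true (nat_lit 6) true (nat_lit 9) true (nat_lit 11) (.s false (nat_lit 1) (nat_lit 14) (nat_lit 2) (nat_lit 2) (nat_lit 11) true (nat_lit 0) true (nat_lit 6) true (nat_lit 5) true (nat_lit 13) true (nat_lit 13) (.s false (nat_lit 2) (nat_lit 15) (nat_lit 2) (nat_lit 2) (nat_lit 11) true (nat_lit 0) true (nat_lit 6) true (nat_lit 5) true (nat_lit 13) true (nat_lit 13) (.s true (nat_lit 1) (nat_lit 14) (nat_lit 11) (nat_lit 2) (nat_lit 2) true (nat_lit 0) true (nat_lit 13) true (nat_lit 5) true (nat_lit 6) true (nat_lit 13) dC1d_i306))))) .leaf) (nat_lit 267265) (nat_lit 945) (.p (nat_lit 383) (nat_lit 1) .z) .df (.nd (.nd .leaf (nat_lit 267266) (nat_lit 1236) (.p (nat_lit 447) (nat_lit 1) .z) .df .leaf) (nat_lit 268289) (nat_lit 946) (.p (nat_lit 384) (nat_lit 1) .z) .df .leaf)))) (nat_lit 268290) (nat_lit 1237) (.p (nat_lit 448) (nat_lit 1) .z) .df (.nd (.nd (.nd (.nd (.nd .leaf (nat_lit 269313) (nat_lit 947) (.p (nat_lit 385) (nat_lit 1) .z) .df .leaf) (nat_lit 269314) (nat_lit 1264) (.p (nat_lit 426) (nat_lit 3) (.n (nat_lit 427) (nat_lit 3) (.n (nat_lit 428) (nat_lit 2) (.n (nat_lit 429) (nat_lit 2) (.p (nat_lit 430) (nat_lit 3) (.n (nat_lit 431) (nat_lit 1) (.n (nat_lit 432) (nat_lit 3) (.n (nat_lit 433) (nat_lit 3) (.p (nat_lit 434) (nat_lit 1) (.n (nat_lit 435) (nat_lit 2) (.p (nat_lit 436) (nat_lit 1) (.n (nat_lit 438) (nat_lit 3) (.p (nat_lit 439) (nat_lit 1) (.n (nat_lit 441) (nat_lit 3) (.p (nat_lit 442) (nat_lit 3) (.p (nat_lit 443) (nat_lit 1) (.n (nat_lit 444) (nat_lit 1) (.n (nat_lit 445) (nat_lit 1) (.p (nat_lit 447) (nat_lit 1) (.n (nat_lit 448) (nat_lit 2) (.n (nat_lit 456) (nat_lit 2) (.p (nat_lit 459) (nat_lit 3) .z)))))))))))))))))))))) (.ct dC1d_c533 (nat_lit 1) (nat_lit 13) (.s true (nat_lit 2) (nat_lit 9) (nat_lit 6) (nat_lit 1) (nat_lit 6) false (nat_lit 2) true (nat_lit 9) true (nat_lit 7) true (nat_lit 9) true (nat_lit 14) (.s true (nat_lit 1) (nat_lit 10) (nat_lit 6) (nat_lit 4) (nat_lit 2) true (nat_lit 3) true (nat_lit 13) true (nat_lit 6) true (nat_lit 9) true (nat_lit 11) (.s false (nat_lit 2) (nat_lit 14) (nat_lit 1) (nat_lit 14) (nat_lit 2) true (nat_lit 10) true (nat_lit 13) true (nat_lit 5) true (nat_lit 14) true (nat_lit 5) (.s false (nat_lit 2) (nat_lit 14) (nat_lit 2) (nat_lit 2) (nat_lit 10) true (nat_lit 0) true (nat_lit 6) true (nat_lit 5) true (nat_lit 13) true (nat_lit 13) (.s false (nat_lit 2) (nat_lit 14) (nat_lit 2) (nat_lit 2) (nat_lit 11) true (nat_lit 0) true (nat_lit 6) true (nat_lit 5) true (nat_lit 13) true (nat_lit 13) (.s true (nat_lit 1) (nat_lit 15) (nat_lit 2) (nat_lit 2) (nat_lit 10) true (nat_lit 0) true (nat_lit 6) true (nat_lit 5) true (nat_lit 13) true (nat_lit 13) (.s false (nat_lit 3) (nat_lit 15) (nat_lit 2) (nat_lit 2) (nat_lit 11) true (nat_lit 0) true (nat_lit 6) true (nat_lit 5) true (nat_lit 13) true (nat_lit 13) (.s false (nat_lit 1) (nat_lit 15) (nat_lit 2) (nat_lit 2) (nat_lit 12) true (nat_lit 0) true (nat_lit 6) true (nat_lit 5) true (nat_lit 13) true (nat_lit 13) (.s false (nat_lit 2) (nat_lit 14) (nat_lit 5) (nat_lit 4) (nat_lit 2) true (nat_lit 4) true (nat_lit 13) true (nat_lit 5) true (nat_lit 10) true (nat_lit 11) dC1d_i311)))))))))) .leaf) (nat_lit 270337) (nat_lit 948) (.p (nat_lit 386) (nat_lit 1) .z) .df (.nd (.nd .leaf (nat_lit 270338) (nat_lit 1238) (.p (nat_lit 449) (nat_lit 1) .z) .df .leaf) (nat_lit 271361) (nat_lit 949) (.p (nat_lit 387) (nat_lit 1) .z) .df .leaf)) (nat_lit 271362) (nat_lit 1239) (.p (nat_lit 450) (nat_lit 1) .z) .df (.nd (.nd (.nd .leaf (nat_lit 272385) (nat_lit 950) (.p (nat_lit 388) (nat_lit 1) .z) .df .leaf) (nat_lit 272386) (nat_lit 1255) (.p (nat_lit 426) (nat_lit 3) (.n (nat_lit 427) (nat_lit 2) (.n (nat_lit 428) (nat_lit 1) (.p (nat_lit 429) (nat_lit 2) (.n (nat_lit 430) (nat_lit 1) (.n (nat_lit 434) (nat_lit 3) (.p (nat_lit 435) (nat_lit 2) (.n (nat_lit 438) (nat_lit 3) (.n (nat_lit 439) (nat_lit 1) (.n (nat_lit 441) (nat_lit 3) (.n (nat_lit 442) (nat_lit 1) (.p (nat_lit 443) (nat_lit 3) (.n (nat_lit 444) (nat_lit 1) (.n (nat_lit 445) (nat_lit 1) (.p (nat_lit 450) (nat_lit 2) (.p (nat_lit 456) (nat_lit 3) (.p (nat_lit 459) (nat_lit 2) .z))))))))))))))))) (.ct dC1d_c533 (nat_lit 1) (nat_lit 13) (.s true (nat_lit 2) (nat_lit 11) (nat_lit 2) (nat_lit 6) (nat_lit 4) true (nat_lit 5) true (nat_lit 11) true (nat_lit 6) true (nat_lit 13) true (nat_lit 9) (.s true (nat_lit 1) (nat_lit 10) (nat_lit 4) (nat_lit 2) (nat_lit 6) false (nat_lit 0) true (nat_lit 9) true (nat_lit 6) true (nat_lit 11) true (nat_lit 13) (.s true (nat_lit 1) (nat_lit 10) (nat_lit 6) (nat_lit 2) (nat_lit 4) false (nat_lit 0) true (nat_lit 11) true (nat_lit 6) true (nat_lit 9) true (nat_lit 13) (.s false (nat_lit 3) (nat_lit 11) (nat_lit 6) (nat_lit 2) (nat_lit 4) false (nat_lit 0) true (nat_lit 11) true (nat_lit 6) true (nat_lit 9) true (nat_lit 13) (.s false (nat_lit 2) (nat_lit 11) (nat_lit 6) (nat_lit 4) (nat_lit 2) true (nat_lit 3) true (nat_lit 13) true (nat_lit 6) true (nat_lit 9) true (nat_lit 11) (.s false (nat_lit 3) (nat_lit 14) (nat_lit 1) (nat_lit 14) (nat_lit 2) true (nat_lit 10) true (nat_lit 13) true (nat_lit 5) true (nat_lit 14) true (nat_lit 5) (.s true (nat_lit 2) (nat_lit 15) (nat_lit 1) (nat_lit 15) (nat_lit 2) true (nat_lit 10) true (nat_lit 13) true (nat_lit 5) true (nat_lit 14) true (nat_lit 5) (.s true (nat_lit 1) (nat_lit 14) (nat_lit 2) (nat_lit 2) (nat_lit 10) true (nat_lit 0) true (nat_lit 6) true (nat_lit 5) true (nat_lit 13) true (nat_lit 13) (.s false (nat_lit 1) (nat_lit 14) (nat_lit 2) (nat_lit 2) (nat_lit 11) true (nat_lit 0) true (nat_lit 6) true (nat_lit 5) true (nat_lit 13) true (nat_lit 13) (.s true (nat_lit 1) (nat_lit 15) (nat_lit 2) (nat_lit 2) (nat_lit 10) true (nat_lit 0) true (nat_lit 6) true (nat_lit 5) true (nat_lit 13) true (nat_lit 13) (.s false (nat_lit 3) (nat_lit 15) (nat_lit 2) (nat_lit 2) (nat_lit 11) true (nat_lit 0) true (nat_lit 6) true (nat_lit 5) true (nat_lit 13) true (nat_lit 13) (.s false (nat_lit 1) (nat_lit 15) (nat_lit 2) (nat_lit 2) (nat_lit 12) true (nat_lit 0) true (nat_lit 6) true (nat_lit 5) true (nat_lit 13) true (nat_lit 13) (.s false (nat_lit 1) (nat_lit 14) (nat_lit 2) (nat_lit 6) (nat_lit 3) true (nat_lit 6) true (nat_lit 12) true (nat_lit 5) true (nat_lit 13) true (nat_lit 9) (.s false (nat_lit 3) (nat_lit 15) (nat_lit 10) (nat_lit 2) (nat_lit 2) true (nat_lit 0) true (nat_lit 13) true (nat_lit 5) true (nat_lit 6) true (nat_lit 13) (.s true (nat_lit 2) (nat_lit 15) (nat_lit 11) (nat_lit 2) (nat_lit 2) true (nat_lit 0) true (nat_lit 13) true (nat_lit 5) true (nat_lit 6) true (nat_lit 13) (.s true (nat_lit 2) (nat_lit 15) (nat_lit 12) (nat_lit 2) (nat_lit 2) true (nat_lit 0) true (nat_lit 13) true (nat_lit 5) true (nat_lit 6) true (nat_lit 13) (.s true (nat_lit 3) (nat_lit 16) (nat_lit 4) (nat_lit 6) (nat_lit 0) true (nat_lit 7) true (nat_lit 15) true (nat_lit 4) true (nat_lit 11) true (nat_lit 9) (.s false (nat_lit 1) (nat_lit 16) (nat_lit 14) (nat_lit 2) (nat_lit 0) true (nat_lit 1) true (nat_lit 15) true (nat_lit 4) true (nat_lit 5) true (nat_lit 13) (.s true (nat_lit 3) (nat_lit 18) (nat_lit 0) (nat_lit 1) (nat_lit 15) true (nat_lit 1) true (nat_lit 5) true (nat_lit 3) true (nat_lit 15) true (nat_lit 14) (.s false (nat_lit 3) (nat_lit 18) (nat_lit 0) (nat_lit 6) (nat_lit 3) true (nat_lit 8) true (nat_lit 12) true (nat_lit 3) true (nat_lit 15) true (nat_lit 9) (.s true (nat_lit 3) (nat_lit 18) (nat_lit 0) (nat_lit 10) (nat_lit 2) true (nat_lit 11) true (nat_lit 13) true (nat_lit 3) true (nat_lit 15) true (nat_lit 6) (.s false (nat_lit 3) (nat_lit 18) (nat_lit 0) (nat_lit 14) (nat_lit 1) true (nat_lit 12) true (nat_lit 14) true (nat_lit 3) true (nat_lit 15) true (nat_lit 5) (.s false (nat_lit 3) (nat_lit 18) (nat_lit 0) (nat_lit 15) (nat_lit 1) true (nat_lit 12) true (nat_lit 14) true (nat_lit 3) true (nat_lit 15) true (nat_lit 5) dC1d_i316)))))))))))))))))))))))) .leaf) (nat_lit 273409) (nat_lit 951) (.p (nat_lit 389) (nat_lit 1) .z) .df (.nd (.nd .leaf (nat_lit 273410) (nat_lit 1240) (.p (nat_lit 451) (nat_lit 1) .z) .df .leaf) (nat_lit 274433) (nat_lit 952) (.p (nat_lit 390) (nat_lit 1) .z) .df .leaf))) (nat_lit 274434) (nat_lit 1259) (.p (nat_lit 426) (nat_lit 1) (.p (nat_lit 427) (nat_lit 3) (.n (nat_lit 428) (nat_lit 3) (.n (nat_lit 429) (nat_lit 2) (.n (nat_lit 430) (nat_lit 1) (.p (nat_lit 431) (nat_lit 1) (.p (nat_lit 432) (nat_lit 3) (.p (nat_lit 433) (nat_lit 3) (.p (nat_lit 434) (nat_lit 1) (.p (nat_lit 435) (nat_lit 1) (.p (nat_lit 436) (nat_lit 2) (.n (nat_lit 439) (nat_lit 1) (.n (nat_lit 441) (nat_lit 3) (.n (nat_lit 442) (nat_lit 3) (.n (nat_lit 443) (nat_lit 3) (.n (nat_lit 444) (nat_lit 1) (.n (nat_lit 445) (nat_lit 1) (.p (nat_lit 447) (nat_lit 1) (.n (nat_lit 448) (nat_lit 1) (.p (nat_lit 449) (nat_lit 3) (.n (nat_lit 450) (nat_lit 3) (.p (nat_lit 456) (nat_lit 1) (.n (nat_lit 459) (nat_lit 2) .z))))))))))))))))))))))) (.ct dC1d_c533 (nat_lit 1) (nat_lit 13) (.s true (nat_lit 3) (nat_lit 10) (nat_lit 6) (nat_lit 4) (nat_lit 2) true (nat_lit 3) true (nat_lit 13) true (nat_lit 6) true (nat_lit 9) true (nat_lit 11) (.s false (nat_lit 3) (nat_lit 11) (nat_lit 6) (nat_lit 4) (nat_lit 2) true (nat_lit 3) true (nat_lit 13) true (nat_lit 6) true (nat_lit 9) true (nat_lit 11) (.s false (nat_lit 2) (nat_lit 15) (nat_lit 1) (nat_lit 2) (nat_lit 15) true (nat_lit 0) true (nat_lit 5) true (nat_lit 5) true (nat_lit 14) true (nat_lit 13) (.s true (nat_lit 1) (nat_lit 14) (nat_lit 1) (nat_lit 14) (nat_lit 2) true (nat_lit 10) true (nat_lit 13) true (nat_lit 5) true (nat_lit 14) true (nat_lit 5) (.s true (nat_lit 1) (nat_lit 14) (nat_lit 2) (nat_lit 2) (nat_lit 11) true (nat_lit 0) true (nat_lit 6) true (nat_lit 5) true (nat_lit 13) true (nat_lit 13) (.s true (nat_lit 2) (nat_lit 15) (nat_lit 2) (nat_lit 2) (nat_lit 10) true (nat_lit 0) true (nat_lit 6) true (nat_lit 5) true (nat_lit 13) true (nat_lit 13) (.s true (nat_lit 2) (nat_lit 15) (nat_lit 2) (nat_lit 2) (nat_lit 11) true (nat_lit 0) true (nat_lit 6) true (nat_lit 5) true (nat_lit 13) true (nat_lit 13) (.s true (nat_lit 2) (nat_lit 14) (nat_lit 5) (nat_lit 2) (nat_lit 4) true (nat_lit 0) true (nat_lit 11) true (nat_lit 5) true (nat_lit 10) true (nat_lit 13) (.s true (nat_lit 2) (nat_lit 14) (nat_lit 10) (nat_lit 2) (nat_lit 2) true (nat_lit 0) true (nat_lit 13) true (nat_lit 5) true (nat_lit 6) true (nat_lit 13) (.s false (nat_lit 1) (nat_lit 15) (nat_lit 11) (nat_lit 2) (nat_lit 2) true (nat_lit 0) true (nat_lit 13) true (nat_lit 5) true (nat_lit 6) true (nat_lit 13) (.s true (nat_lit 2) (nat_lit 15) (nat_lit 12) (nat_lit 2) (nat_lit 2) true (nat_lit 0) true (nat_lit 13) true (nat_lit 5) true (nat_lit 6) true (nat_lit 13) (.s true (nat_lit 1) (nat_lit 16) (nat_lit 0) (nat_lit 15) (nat_lit 2) true (nat_lit 11) true (nat_lit 13) true (nat_lit 4) true (nat_lit 15) true (nat_lit 5) (.s true (nat_lit 2) (nat_lit 18) (nat_lit 0) (nat_lit 0) (nat_lit 16) true (nat_lit 0) true (nat_lit 4) true (nat_lit 3) true (nat_lit 15) true (nat_lit 15) (.s false (nat_lit 2) (nat_lit 18) (nat_lit 0) (nat_lit 1) (nat_lit 14) true (nat_lit 1) true (nat_lit 5) true (nat_lit 3) true (nat_lit 15) true (nat_lit 14) (.s true (nat_lit 1) (nat_lit 18) (nat_lit 0) (nat_lit 1) (nat_lit 15) true (nat_lit 1) true (nat_lit 5) true (nat_lit 3) true (nat_lit 15) true (nat_lit 14) dC1d_i321)))))))))))))))) (.nd (.nd (.nd (.nd .leaf (nat_lit 275457) (nat_lit 953) (.p (nat_lit 391) (nat_lit 1) .z) .df .leaf) (nat_lit 275458) (nat_lit 1277) (.p (nat_lit 426) (nat_lit 1) (.n (nat_lit 427) (nat_lit 2) (.n (nat_lit 428) (nat_lit 3) (.n (nat_lit 429) (nat_lit 2) (.p (nat_lit 430) (nat_lit 3) (.p (nat_lit 431) (nat_lit 2) (.p (nat_lit 432) (nat_lit 1) (.p (nat_lit 433) (nat_lit 1) (.n (nat_lit 434) (nat_lit 3) (.n (nat_lit 435) (nat_lit 3) (.p (nat_lit 436) (nat_lit 3) (.n (nat_lit 438) (nat_lit 3) (.n (nat_lit 439) (nat_lit 2) (.p (nat_lit 441) (nat_lit 3) (.p (nat_lit 443) (nat_lit 1) (.p (nat_lit 444) (nat_lit 1) (.p (nat_lit 445) (nat_lit 1) (.p (nat_lit 450) (nat_lit 2) (.n (nat_lit 451) (nat_lit 2) (.p (nat_lit 456) (nat_lit 1) .z)))))))))))))))))))) (.ct dC1d_c533 (nat_lit 1) (nat_lit 13) (.s false (nat_lit 1) (nat_lit 15) (nat_lit 2) (nat_lit 2) (nat_lit 11) true (nat_lit 0) true (nat_lit 6) true (nat_lit 5) true (nat_lit 13) true (nat_lit 13) (.s true (nat_lit 1) (nat_lit 14) (nat_lit 11) (nat_lit 2) (nat_lit 2) true (nat_lit 0) true (nat_lit 13) true (nat_lit 5) true (nat_lit 6) true (nat_lit 13) (.s false (nat_lit 1) (nat_lit 15) (nat_lit 11) (nat_lit 2) (nat_lit 2) true (nat_lit 0) true (nat_lit 13) true (nat_lit 5) true (nat_lit 6) true (nat_lit 13) dC1d_i323)))) .leaf) (nat_lit 276481) (nat_lit 954) (.p (nat_lit 392) (nat_lit 1) .z) .df (.nd (.nd .leaf (nat_lit 276482) (nat_lit 1254) (.p (nat_lit 426) (nat_lit 2) (.p (nat_lit 427) (nat_lit 2) (.p (nat_lit 429) (nat_lit 3) (.n (nat_lit 430) (nat_lit 2) (.n (nat_lit 431) (nat_lit 2) (.p (nat_lit 432) (nat_lit 3) (.p (nat_lit 433) (nat_lit 3) (.p (nat_lit 435) (nat_lit 2) (.p (nat_lit 436) (nat_lit 2) (.p (nat_lit 438) (nat_lit 2) (.p (nat_lit 439) (nat_lit 2) (.p (nat_lit 441) (nat_lit 1) (.n (nat_lit 442) (nat_lit 2) (.p (nat_lit 443) (nat_lit 1) (.n (nat_lit 444) (nat_lit 2) (.p (nat_lit 445) (nat_lit 1) (.p (nat_lit 456) (nat_lit 2) (.p (nat_lit 459) (nat_lit 3) .z)))))))))))))))))) (.ct dC1d_c533 (nat_lit 1) (nat_lit 13) (.s false (nat_lit 1) (nat_lit 9) (nat_lit 6) (nat_lit 1) (nat_lit 6) false (nat_lit 2) true (nat_lit 9) true (nat_lit 7) true (nat_lit 9) true (nat_lit 14) (.s false (nat_lit 2) (nat_lit 9) (nat_lit 6) (nat_lit 5) (nat_lit 2) true (nat_lit 3) true (nat_lit 13) true (nat_lit 7) true (nat_lit 9) true (nat_lit 10) (.s true (nat_lit 2) (nat_lit 11) (nat_lit 6) (nat_lit 4) (nat_lit 2) true (nat_lit 3) true (nat_lit 13) true (nat_lit 6) true (nat_lit 9) true (nat_lit 11) (.s false (nat_lit 2) (nat_lit 14) (nat_lit 1) (nat_lit 14) (nat_lit 2) true (nat_lit 10) true (nat_lit 13) true (nat_lit 5) true (nat_lit 14) true (nat_lit 5) (.s false (nat_lit 2) (nat_lit 14) (nat_lit 2) (nat_lit 2) (nat_lit 10) true (nat_lit 0) true (nat_lit 6) true (nat_lit 5) true (nat_lit 13) true (nat_lit 13) (.s true (nat_lit 3) (nat_lit 14) (nat_lit 2) (nat_lit 2) (nat_lit 11) true (nat_lit 0) true (nat_lit 6) true (nat_lit 5) true (nat_lit 13) true (nat_lit 13) (.s true (nat_lit 2) (nat_lit 15) (nat_lit 2) (nat_lit 2) (nat_lit 10) true (nat_lit 0) true (nat_lit 6) true (nat_lit 5) true (nat_lit 13) true (nat_lit 13) (.s true (nat_lit 1) (nat_lit 15) (nat_lit 2) (nat_lit 5) (nat_lit 4) true (nat_lit 5) true (nat_lit 11) true (nat_lit 5) true (nat_lit 13) true (nat_lit 10) (.s true (nat_lit 1) (nat_lit 15) (nat_lit 2) (nat_lit 11) (nat_lit 2) true (nat_lit 9) true (nat_lit 13) true (nat_lit 5) true (nat_lit 13) true (nat_lit 6) (.s true (nat_lit 2) (nat_lit 14) (nat_lit 10) (nat_lit 2) (nat_lit 2) true (nat_lit 0) true (nat_lit 13) true (nat_lit 5) true (nat_lit 6) true (nat_lit 13) (.s true (nat_lit 3) (nat_lit 14) (nat_lit 11) (nat_lit 2) (nat_lit 2) true (nat_lit 0) true (nat_lit 13) true (nat_lit 5) true (nat_lit 6) true (nat_lit 13) (.s false (nat_lit 2) (nat_lit 15) (nat_lit 11) (nat_lit 2) (nat_lit 2) true (nat_lit 0) true (nat_lit 13) true (nat_lit 5) true (nat_lit 6) true (nat_lit 13) (.s true (nat_lit 2) (nat_lit 17) (nat_lit 0) (nat_lit 14) (nat_lit 2) true (nat_lit 11) true (nat_lit 13) true (nat_lit 4) true (nat_lit 15) true (nat_lit 5) (.s true (nat_lit 2) (nat_lit 18) (nat_lit 0) (nat_lit 6) (nat_lit 3) true (nat_lit 8) true (nat_lit 12) true (nat_lit 3) true (nat_lit 15) true (nat_lit 9) dC1d_i328))))))))))))))) .leaf) (nat_lit 277505) (nat_lit 955) (.p (nat_lit 393) (nat_lit 1) .z) .df .leaf)) (nat_lit 277506) (nat_lit 1241) (.p (nat_lit 452) (nat_lit 1) .z) .df (.nd (.nd (.nd .leaf (nat_lit 278529) (nat_lit 956) (.p (nat_lit 394) (nat_lit 1) .z) .df .leaf) (nat_lit 278530) (nat_lit 1242) (.p (nat_lit 453) (nat_lit 1) .z) .df .leaf) (nat_lit 279553) (nat_lit 957) (.p (nat_lit 395) (nat_lit 1) .z) .df (.nd (.nd .leaf (nat_lit 279554) (nat_lit 1257) (.n (nat_lit 426) (nat_lit 1) (.p (nat_lit 427) (nat_lit 1) (.n (nat_lit 429) (nat_lit 3) (.n (nat_lit 430) (nat_lit 1) (.p (nat_lit 431) (nat_lit 3) (.p (nat_lit 432) (nat_lit 2) (.p (nat_lit 433) (nat_lit 2) (.n (nat_lit 434) (nat_lit 2) (.p (nat_lit 435) (nat_lit 2) (.n (nat_lit 436) (nat_lit 1) (.n (nat_lit 438) (nat_lit 2) (.p (nat_lit 439) (nat_lit 3) (.p (nat_lit 441) (nat_lit 2) (.p (nat_lit 443) (nat_lit 3) (.p (nat_lit 444) (nat_lit 3) (.p (nat_lit 445) (nat_lit 3) (.p (nat_lit 453) (nat_lit 2) (.n (nat_lit 456) (nat_lit 2) (.p (nat_lit 459) (nat_lit 1) .z))))))))))))))))))) (.ct dC1d_c533 (nat_lit 1) (nat_lit 13) (.s false (nat_lit 2) (nat_lit 6) (nat_lit 3) (nat_lit 4) (nat_lit 6) true (nat_lit 0) true (nat_lit 9) true (nat_lit 9) true (nat_lit 12) true (nat_lit 11) (.s false (nat_lit 3) (nat_lit 9) (nat_lit 5) (nat_lit 6) (nat_lit 2) true (nat_lit 4) true (nat_lit 13) true (nat_lit 7) true (nat_lit 10) true (nat_lit 9) (.s true (nat_lit 3) (nat_lit 9) (nat_lit 6) (nat_lit 1) (nat_lit 6) false (nat_lit 2) true (nat_lit 9) true (nat_lit 7) true (nat_lit 9) true (nat_lit 14) (.s true (nat_lit 3) (nat_lit 9) (nat_lit 6) (nat_lit 5) (nat_lit 2) true (nat_lit 3) true (nat_lit 13) true (nat_lit 7) true (nat_lit 9) true (nat_lit 10) (.s true (nat_lit 3) (nat_lit 10) (nat_lit 4) (nat_lit 2) (nat_lit 6) false (nat_lit 0) true (nat_lit 9) true (nat_lit 6) true (nat_lit 11) true (nat_lit 13) (.s true (nat_lit 2) (nat_lit 11) (nat_lit 6) (nat_lit 4) (nat_lit 2) true (nat_lit 3) true (nat_lit 13) true (nat_lit 6) true (nat_lit 9) true (nat_lit 11) (.s true (nat_lit 1) (nat_lit 14) (nat_lit 1) (nat_lit 14) (nat_lit 2) true (nat_lit 10) true (nat_lit 13) true (nat_lit 5) true (nat_lit 14) true (nat_lit 5) (.s false (nat_lit 2) (nat_lit 14) (nat_lit 2) (nat_lit 2) (nat_lit 10) true (nat_lit 0) true (nat_lit 6) true (nat_lit 5) true (nat_lit 13) true (nat_lit 13) (.s false (nat_lit 3) (nat_lit 14) (nat_lit 2) (nat_lit 2) (nat_lit 11) true (nat_lit 0) true (nat_lit 6) true (nat_lit 5) true (nat_lit 13) true (nat_lit 13) (.s false (nat_lit 3) (nat_lit 15) (nat_lit 2) (nat_lit 2) (nat_lit 11) true (nat_lit 0) true (nat_lit 6) true (nat_lit 5) true (nat_lit 13) true (nat_lit 13) (.s false (nat_lit 2) (nat_lit 14) (nat_lit 2) (nat_lit 10) (nat_lit 2) true (nat_lit 9) true (nat_lit 13) true (nat_lit 5) true (nat_lit 13) true (nat_lit 6) (.s true (nat_lit 3) (nat_lit 14) (nat_lit 10) (nat_lit 2) (nat_lit 2) true (nat_lit 0) true (nat_lit 13) true (nat_lit 5) true (nat_lit 6) true (nat_lit 13) (.s false (nat_lit 2) (nat_lit 16) (nat_lit 2) (nat_lit 0) (nat_lit 15) false (nat_lit 0) true (nat_lit 5) true (nat_lit 4) true (nat_lit 13) true (nat_lit 15) (.s false (nat_lit 2) (nat_lit 17) (nat_lit 4) (nat_lit 2) (nat_lit 4) true (nat_lit 1) true (nat_lit 11) true (nat_lit 4) true (nat_lit 11) true (nat_lit 13) (.s false (nat_lit 3) (nat_lit 18) (nat_lit 0) (nat_lit 0) (nat_lit 16) true (nat_lit 0) true (nat_lit 4) true (nat_lit 3) true (nat_lit 15) true (nat_lit 15) (.s false (nat_lit 3) (nat_lit 18) (nat_lit 0) (nat_lit 1) (nat_lit 15) true (nat_lit 1) true (nat_lit 5) true (nat_lit 3) true (nat_lit 15) true (nat_lit 14) (.s false (nat_lit 2) (nat_lit 18) (nat_lit 0) (nat_lit 6) (nat_lit 3) true (nat_lit 8) true (nat_lit 12) true (nat_lit 3) true (nat_lit 15) true (nat_lit 9) (.s false (nat_lit 2) (nat_lit 18) (nat_lit 0) (nat_lit 14) (nat_lit 1) true (nat_lit 12) true (nat_lit 14) true (nat_lit 3) true (nat_lit 15) true (nat_lit 5) (.s false (nat_lit 3) (nat_lit 18) (nat_lit 0) (nat_lit 15) (nat_lit 1) true (nat_lit 12) true (nat_lit 14) true (nat_lit 3) true (nat_lit 15) true (nat_lit 5) (.s false (nat_lit 2) (nat_lit 18) (nat_lit 1) (nat_lit 0) (nat_lit 14) true (nat_lit 0) true (nat_lit 5) true (nat_lit 3) true (nat_lit 14) true (nat_lit 15) (.s false (nat_lit 3) (nat_lit 18) (nat_lit 2) (nat_lit 2) (nat_lit 7) true (nat_lit 2) true (nat_lit 8) true (nat_lit 3) true (nat_lit 13) true (nat_lit 13) (.s false (nat_lit 1) (nat_lit 18) (nat_lit 2) (nat_lit 10) (nat_lit 0) true (nat_lit 11) true (nat_lit 15) true (nat_lit 3) true (nat_lit 13) true (nat_lit 6) dC1d_i333))))))))))))))))))))))) .leaf) (nat_lit 280577) (nat_lit 958) (.p (nat_lit 396) (nat_lit 1) .z) .df .leaf))))) (nat_lit 280578) (nat_lit 1260) (.p (nat_lit 426) (nat_lit 3) (.p (nat_lit 427) (nat_lit 2) (.p (nat_lit 429) (nat_lit 3) (.p (nat_lit 430) (nat_lit 3) (.p (nat_lit 431) (nat_lit 1) (.n (nat_lit 432) (nat_lit 3) (.n (nat_lit 433) (nat_lit 3) (.n (nat_lit 434) (nat_lit 3) (.n (nat_lit 435) (nat_lit 1) (.n (nat_lit 436) (nat_lit 3) (.p (nat_lit 438) (nat_lit 2) (.n (nat_lit 439) (nat_lit 1) (.n (nat_lit 441) (nat_lit 1) (.n (nat_lit 442) (nat_lit 3) (.p (nat_lit 443) (nat_lit 3) (.p (nat_lit 444) (nat_lit 2) (.p (nat_lit 445) (nat_lit 3) (.n (nat_lit 452) (nat_lit 3) (.n (nat_lit 453) (nat_lit 3) (.n (nat_lit 456) (nat_lit 3) (.n (nat_lit 459) (nat_lit 2) .z))))))))))))))))))))) (.ct dC1d_c533 (nat_lit 1) (nat_lit 13) (.s true (nat_lit 2) (nat_lit 9) (nat_lit 2) (nat_lit 6) (nat_lit 5) true (nat_lit 4) true (nat_lit 10) true (nat_lit 7) true (nat_lit 13) true (nat_lit 9) (.s true (nat_lit 3) (nat_lit 11) (nat_lit 0) (nat_lit 6) (nat_lit 6) true (nat_lit 5) true (nat_lit 9) true (nat_lit 6) true (nat_lit 15) true (nat_lit 9) (.s false (nat_lit 2) (nat_lit 10) (nat_lit 6) (nat_lit 4) (nat_lit 2) true (nat_lit 3) true (nat_lit 13) true (nat_lit 6) true (nat_lit 9) true (nat_lit 11) (.s true (nat_lit 3) (nat_lit 11) (nat_lit 6) (nat_lit 4) (nat_lit 2) true (nat_lit 3) true (nat_lit 13) true (nat_lit 6) true (nat_lit 9) true (nat_lit 11) (.s true (nat_lit 3) (nat_lit 14) (nat_lit 1) (nat_lit 14) (nat_lit 2) true (nat_lit 10) true (nat_lit 13) true (nat_lit 5) true (nat_lit 14) true (nat_lit 5) (.s false (nat_lit 1) (nat_lit 14) (nat_lit 2) (nat_lit 2) (nat_lit 10) true (nat_lit 0) true (nat_lit 6) true (nat_lit 5) true (nat_lit 13) true (nat_lit 13) (.s true (nat_lit 3) (nat_lit 14) (nat_lit 2) (nat_lit 2) (nat_lit 11) true (nat_lit 0) true (nat_lit 6) true (nat_lit 5) true (nat_lit 13) true (nat_lit 13) (.s false (nat_lit 3) (nat_lit 15) (nat_lit 2) (nat_lit 2) (nat_lit 10) true (nat_lit 0) true (nat_lit 6) true (nat_lit 5) true (nat_lit 13) true (nat_lit 13) (.s true (nat_lit 2) (nat_lit 16) (nat_lit 0) (nat_lit 2) (nat_lit 15) true (nat_lit 1) true (nat_lit 5) true (nat_lit 4) true (nat_lit 15) true (nat_lit 13) (.s true (nat_lit 2) (nat_lit 16) (nat_lit 2) (nat_lit 0) (nat_lit 15) false (nat_lit 0) true (nat_lit 5) true (nat_lit 4) true (nat_lit 13) true (nat_lit 15) dC1d_i338))))))))))) (.nd (.nd (.nd (.nd (.nd (.nd .leaf (nat_lit 281601) (nat_lit 959) (.p (nat_lit 397) (nat_lit 1) .z) .df .leaf) (nat_lit 281602) (nat_lit 1243) (.p (nat_lit 454) (nat_lit 1) .z) .df .leaf) (nat_lit 282625) (nat_lit 960) (.p (nat_lit 398) (nat_lit 1) .z) .df (.nd (.nd .leaf (nat_lit 282626) (nat_lit 1244) (.p (nat_lit 455) (nat_lit 1) .z) .df .leaf) (nat_lit 283649) (nat_lit 1009) (.n (nat_lit 355) (nat_lit 2) (.p (nat_lit 356) (nat_lit 1) (.p (nat_lit 357) (nat_lit 1) (.n (nat_lit 358) (nat_lit 1) (.n (nat_lit 359) (nat_lit 2) (.p (nat_lit 361) (nat_lit 1) (.n (nat_lit 362) (nat_lit 1) (.p (nat_lit 363) (nat_lit 2) (.n (nat_lit 364) (nat_lit 3) (.n (nat_lit 365) (nat_lit 2) (.n (nat_lit 366) (nat_lit 1) (.p (nat_lit 369) (nat_lit 3) (.p (nat_lit 372) (nat_lit 3) (.p (nat_lit 373) (nat_lit 1) (.p (nat_lit 375) (nat_lit 1) (.n (nat_lit 381) (nat_lit 1) (.p (nat_lit 382) (nat_lit 2) (.n (nat_lit 384) (nat_lit 1) (.n (nat_lit 385) (nat_lit 1) (.n (nat_lit 386) (nat_lit 3) (.n (nat_lit 387) (nat_lit 1) (.n (nat_lit 388) (nat_lit 3) (.p (nat_lit 389) (nat_lit 3) (.p (nat_lit 390) (nat_lit 1) (.n (nat_lit 391) (nat_lit 2) (.p (nat_lit 392) (nat_lit 2) (.n (nat_lit 393) (nat_lit 1) (.p (nat_lit 395) (nat_lit 3) (.p (nat_lit 396) (nat_lit 2) .z))))))))))))))))))))))))))))) (.ct dC1d_c548 (nat_lit 1) (nat_lit 18) (.s true (nat_lit 2) (nat_lit 7) (nat_lit 6) (nat_lit 1) (nat_lit 6) false (nat_lit 4) true (nat_lit 13) true (nat_lit 12) true (nat_lit 13) true (nat_lit 18) (.s true (nat_lit 2) (nat_lit 7) (nat_lit 6) (nat_lit 5) (nat_lit 2) true (nat_lit 5) true (nat_lit 17) true (nat_lit 12) true (nat_lit 13) true (nat_lit 14) (.s true (nat_lit 2) (nat_lit 7) (nat_lit 6) (nat_lit 6) (nat_lit 1) true (nat_lit 6) true (nat_lit 18) true (nat_lit 12) true (nat_lit 13) true (nat_lit 13) (.s false (nat_lit 1) (nat_lit 8) (nat_lit 2) (nat_lit 6) (nat_lit 4) true (nat_lit 7) true (nat_lit 15) true (nat_lit 11) true (nat_lit 17) true (nat_lit 13) (.s true (nat_lit 1) (nat_lit 8) (nat_lit 4) (nat_lit 6) (nat_lit 2) true (nat_lit 7) true (nat_lit 17) true (nat_lit 11) true (nat_lit 15) true (nat_lit 13) (.s true (nat_lit 3) (nat_lit 8) (nat_lit 6) (nat_lit 2) (nat_lit 4) false (nat_lit 2) true (nat_lit 15) true (nat_lit 11) true (nat_lit 13) true (nat_lit 17) (.s false (nat_lit 1) (nat_lit 15) (nat_lit 2) (nat_lit 8) (nat_lit 2) true (nat_lit 13) true (nat_lit 17) true (nat_lit 7) true (nat_lit 17) true (nat_lit 11) (.s true (nat_lit 2) (nat_lit 16) (nat_lit 7) (nat_lit 2) (nat_lit 2) true (nat_lit 3) true (nat_lit 17) true (nat_lit 6) true (nat_lit 12) true (nat_lit 17) (.s true (nat_lit 1) (nat_lit 18) (nat_lit 0) (nat_lit 0) (nat_lit 13) true (nat_lit 2) true (nat_lit 8) true (nat_lit 5) true (nat_lit 19) true (nat_lit 19) (.s false (nat_lit 1) (nat_lit 18) (nat_lit 0) (nat_lit 1) (nat_lit 12) true (nat_lit 3) true (nat_lit 9) true (nat_lit 5) true (nat_lit 19) true (nat_lit 18) (.s false (nat_lit 3) (nat_lit 18) (nat_lit 0) (nat_lit 2) (nat_lit 8) true (nat_lit 4) true (nat_lit 11) true (nat_lit 5) true (nat_lit 19) true (nat_lit 17) (.s false (nat_lit 1) (nat_lit 18) (nat_lit 1) (nat_lit 0) (nat_lit 10) true (nat_lit 2) true (nat_lit 9) true (nat_lit 5) true (nat_lit 18) true (nat_lit 19) (.s false (nat_lit 3) (nat_lit 18) (nat_lit 2) (nat_lit 0) (nat_lit 8) true (nat_lit 2) true (nat_lit 11) true (nat_lit 5) true (nat_lit 17) true (nat_lit 19) dC1d_i341)))))))))))))) .leaf)) (nat_lit 283650) (nat_lit 1245) (.p (nat_lit 456) (nat_lit 1) .z) .df (.nd (.nd (.nd .leaf (nat_lit 284673) (nat_lit 995) (.n (nat_lit 355) (nat_lit 2) (.p (nat_lit 356) (nat_lit 1) (.p (nat_lit 357) (nat_lit 2) (.n (nat_lit 359) (nat_lit 3) (.n (nat_lit 363) (nat_lit 2) (.p (nat_lit 366) (nat_lit 3) (.p (nat_lit 367) (nat_lit 3) (.p (nat_lit 370) (nat_lit 2) (.p (nat_lit 372) (nat_lit 2) (.n (nat_lit 373) (nat_lit 2) (.n (nat_lit 374) (nat_lit 1) (.p (nat_lit 375) (nat_lit 2) (.n (nat_lit 381) (nat_lit 1) (.n (nat_lit 382) (nat_lit 2) (.n (nat_lit 383) (nat_lit 1) (.p (nat_lit 384) (nat_lit 1) (.n (nat_lit 385) (nat_lit 2) (.n (nat_lit 386) (nat_lit 1) (.n (nat_lit 387) (nat_lit 3) (.p (nat_lit 388) (nat_lit 2) (.n (nat_lit 390) (nat_lit 2) (.p (nat_lit 392) (nat_lit 3) (.p (nat_lit 393) (nat_lit 1) (.n (nat_lit 394) (nat_lit 1) (.p (nat_lit 395) (nat_lit 1) (.n (nat_lit 396) (nat_lit 2) .z)))))))))))))))))))))))))) (.ct dC1d_c548 (nat_lit 1) (nat_lit 18) (.s true (nat_lit 3) (nat_lit 7) (nat_lit 1) (nat_lit 6) (nat_lit 6) true (nat_lit 6) true (nat_lit 13) true (nat_lit 12) true (nat_lit 18) true (nat_lit 13) (.s true (nat_lit 2) (nat_lit 7) (nat_lit 2) (nat_lit 5) (nat_lit 6) true (nat_lit 5) true (nat_lit 13) true (nat_lit 12) true (nat_lit 17) true (nat_lit 14) (.s true (nat_lit 3) (nat_lit 7) (nat_lit 5) (nat_lit 6) (nat_lit 2) true (nat_lit 6) true (nat_lit 17) true (nat_lit 12) true (nat_lit 14) true (nat_lit 13) (.s false (nat_lit 2) (nat_lit 8) (nat_lit 0) (nat_lit 6) (nat_lit 6) true (nat_lit 7) true (nat_lit 13) true (nat_lit 11) true (nat_lit 19) true (nat_lit 13) (.s true (nat_lit 1) (nat_lit 8) (nat_lit 2) (nat_lit 6) (nat_lit 4) true (nat_lit 7) true (nat_lit 15) true (nat_lit 11) true (nat_lit 17) true (nat_lit 13) (.s false (nat_lit 1) (nat_lit 8) (nat_lit 4) (nat_lit 2) (nat_lit 6) false (nat_lit 2) true (nat_lit 13) true (nat_lit 11) true (nat_lit 15) true (nat_lit 17) (.s true (nat_lit 2) (nat_lit 8) (nat_lit 4) (nat_lit 6) (nat_lit 2) true (nat_lit 7) true (nat_lit 17) true (nat_lit 11) true (nat_lit 15) true (nat_lit 13) (.s false (nat_lit 1) (nat_lit 8) (nat_lit 6) (nat_lit 4) (nat_lit 2) true (nat_lit 5) true (nat_lit 17) true (nat_lit 11) true (nat_lit 13) true (nat_lit 15) dC1d_i349))))))))) .leaf) (nat_lit 284674) (nat_lit 1258) (.n (nat_lit 426) (nat_lit 1) (.n (nat_lit 427) (nat_lit 3) (.p (nat_lit 428) (nat_lit 3) (.n (nat_lit 429) (nat_lit 1) (.p (nat_lit 430) (nat_lit 3) (.p (nat_lit 431) (nat_lit 1) (.p (nat_lit 432) (nat_lit 1) (.p (nat_lit 433) (nat_lit 1) (.p (nat_lit 434) (nat_lit 2) (.n (nat_lit 438) (nat_lit 3) (.n (nat_lit 439) (nat_lit 1) (.p (nat_lit 441) (nat_lit 2) (.p (nat_lit 442) (nat_lit 3) (.p (nat_lit 443) (nat_lit 1) (.p (nat_lit 444) (nat_lit 3) (.n (nat_lit 445) (nat_lit 3) (.p (nat_lit 447) (nat_lit 2) (.p (nat_lit 456) (nat_lit 1) (.p (nat_lit 459) (nat_lit 3) .z))))))))))))))))))) (.ct dC1d_c533 (nat_lit 1) (nat_lit 13) (.s true (nat_lit 3) (nat_lit 9) (nat_lit 6) (nat_lit 1) (nat_lit 6) false (nat_lit 2) true (nat_lit 9) true (nat_lit 7) true (nat_lit 9) true (nat_lit 14) (.s false (nat_lit 1) (nat_lit 9) (nat_lit 6) (nat_lit 5) (nat_lit 2) true (nat_lit 3) true (nat_lit 13) true (nat_lit 7) true (nat_lit 9) true (nat_lit 10) (.s false (nat_lit 2) (nat_lit 12) (nat_lit 2) (nat_lit 6) (nat_lit 4) true (nat_lit 5) true (nat_lit 11) true (nat_lit 6) true (nat_lit 13) true (nat_lit 9) (.s true (nat_lit 2) (nat_lit 10) (nat_lit 6) (nat_lit 4) (nat_lit 2) true (nat_lit 3) true (nat_lit 13) true (nat_lit 6) true (nat_lit 9) true (nat_lit 11) (.s false (nat_lit 1) (nat_lit 11) (nat_lit 6) (nat_lit 4) (nat_lit 2) true (nat_lit 3) true (nat_lit 13) true (nat_lit 6) true (nat_lit 9) true (nat_lit 11) (.s true (nat_lit 3) (nat_lit 11) (nat_lit 6) (nat_lit 6) (nat_lit 0) true (nat_lit 5) true (nat_lit 15) true (nat_lit 6) true (nat_lit 9) true (nat_lit 9) (.s true (nat_lit 1) (nat_lit 14) (nat_lit 2) (nat_lit 2) (nat_lit 10) true (nat_lit 0) true (nat_lit 6) true (nat_lit 5) true (nat_lit 13) true (nat_lit 13) (.s false (nat_lit 3) (nat_lit 14) (nat_lit 2) (nat_lit 2) (nat_lit 11) true (nat_lit 0) true (nat_lit 6) true (nat_lit 5) true (nat_lit 13) true (nat_lit 13) (.s true (nat_lit 1) (nat_lit 15) (nat_lit 2) (nat_lit 2) (nat_lit 10) true (nat_lit 0) true (nat_lit 6) true (nat_lit 5) true (nat_lit 13) true (nat_lit 13) dC1d_i353)))))))))) .leaf) (nat_lit 285697) (nat_lit 994) (.n (nat_lit 355) (nat_lit 2) (.p (nat_lit 356) (nat_lit 3) (.p (nat_lit 357) (nat_lit 3) (.n (nat_lit 358) (nat_lit 2) (.p (nat_lit 359) (nat_lit 1) (.p (nat_lit 363) (nat_lit 3) (.p (nat_lit 364) (nat_lit 3) (.p (nat_lit 366) (nat_lit 2) (.n (nat_lit 367) (nat_lit 2) (.n (nat_lit 369) (nat_lit 3) (.p (nat_lit 370) (nat_lit 1) (.p (nat_lit 373) (nat_lit 1) (.p (nat_lit 374) (nat_lit 3) (.p (nat_lit 375) (nat_lit 2) (.p (nat_lit 381) (nat_lit 3) (.n (nat_lit 382) (nat_lit 1) (.n (nat_lit 383) (nat_lit 2) (.p (nat_lit 384) (nat_lit 3) (.n (nat_lit 385) (nat_lit 1) (.n (nat_lit 386) (nat_lit 2) (.n (nat_lit 387) (nat_lit 1) (.p (nat_lit 388) (nat_lit 1) (.p (nat_lit 389) (nat_lit 1) (.p (nat_lit 390) (nat_lit 3) (.n (nat_lit 391) (nat_lit 3) (.n (nat_lit 392) (nat_lit 1) (.p (nat_lit 393) (nat_lit 2) (.p (nat_lit 395) (nat_lit 1) (.p (nat_lit 396) (nat_lit 3) .z))))))))))))))))))))))))))))) (.ct dC1d_c548 (nat_lit 1) (nat_lit 18) (.s true (nat_lit 3) (nat_lit 7) (nat_lit 1) (nat_lit 6) (nat_lit 6) true (nat_lit 6) true (nat_lit 13) true (nat_lit 12) true (nat_lit 18) true (nat_lit 13) (.s false (nat_lit 3) (nat_lit 7) (nat_lit 5) (nat_lit 6) (nat_lit 2) true (nat_lit 6) true (nat_lit 17) true (nat_lit 12) true (nat_lit 14) true (nat_lit 13) (.s true (nat_lit 3) (nat_lit 7) (nat_lit 6) (nat_lit 6) (nat_lit 1) true (nat_lit 6) true (nat_lit 18) true (nat_lit 12) true (nat_lit 13) true (nat_lit 13) (.s false (nat_lit 3) (nat_lit 8) (nat_lit 0) (nat_lit 6) (nat_lit 6) true (nat_lit 7) true (nat_lit 13) true (nat_lit 11) true (nat_lit 19) true (nat_lit 13) (.s true (nat_lit 2) (nat_lit 8) (nat_lit 4) (nat_lit 2) (nat_lit 6) false (nat_lit 2) true (nat_lit 13) true (nat_lit 11) true (nat_lit 15) true (nat_lit 17) (.s true (nat_lit 2) (nat_lit 8) (nat_lit 6) (nat_lit 6) (nat_lit 0) true (nat_lit 7) true (nat_lit 19) true (nat_lit 11) true (nat_lit 13) true (nat_lit 13) (.s true (nat_lit 3) (nat_lit 9) (nat_lit 2) (nat_lit 5) (nat_lit 5) true (nat_lit 6) true (nat_lit 14) true (nat_lit 10) true (nat_lit 17) true (nat_lit 14) (.s true (nat_lit 1) (nat_lit 9) (nat_lit 5) (nat_lit 2) (nat_lit 5) false (nat_lit 1) true (nat_lit 14) true (nat_lit 10) true (nat_lit 14) true (nat_lit 17) (.s true (nat_lit 2) (nat_lit 10) (nat_lit 0) (nat_lit 6) (nat_lit 5) true (nat_lit 9) true (nat_lit 14) true (nat_lit 9) true (nat_lit 19) true (nat_lit 13) (.s true (nat_lit 2) (nat_lit 10) (nat_lit 2) (nat_lit 2) (nat_lit 10) true (nat_lit 0) true (nat_lit 9) true (nat_lit 9) true (nat_lit 17) true (nat_lit 17) (.s false (nat_lit 1) (nat_lit 10) (nat_lit 2) (nat_lit 6) (nat_lit 3) true (nat_lit 9) true (nat_lit 16) true (nat_lit 9) true (nat_lit 17) true (nat_lit 13) (.s true (nat_lit 1) (nat_lit 13) (nat_lit 2) (nat_lit 9) (nat_lit 2) true (nat_lit 13) true (nat_lit 17) true (nat_lit 8) true (nat_lit 17) true (nat_lit 10) (.s false (nat_lit 3) (nat_lit 13) (nat_lit 9) (nat_lit 2) (nat_lit 2) true (nat_lit 1) true (nat_lit 17) true (nat_lit 8) true (nat_lit 10) true (nat_lit 17) (.s true (nat_lit 3) (nat_lit 14) (nat_lit 1) (nat_lit 1) (nat_lit 14) true (nat_lit 0) true (nat_lit 7) true (nat_lit 7) true (nat_lit 18) true (nat_lit 18) (.s false (nat_lit 2) (nat_lit 14) (nat_lit 1) (nat_lit 1) (nat_lit 15) true (nat_lit 0) true (nat_lit 7) true (nat_lit 7) true (nat_lit 18) true (nat_lit 18) (.s false (nat_lit 2) (nat_lit 15) (nat_lit 1) (nat_lit 1) (nat_lit 15) true (nat_lit 0) true (nat_lit 7) true (nat_lit 7) true (nat_lit 18) true (nat_lit 18) dC1d_i363))))))))))))))))) (.nd (.nd .leaf (nat_lit 285698) (nat_lit 1275) (.p (nat_lit 426) (nat_lit 3) (.n (nat_lit 427) (nat_lit 2) (.p (nat_lit 428) (nat_lit 1) (.n (nat_lit 429) (nat_lit 1) (.n (nat_lit 430) (nat_lit 1) (.n (nat_lit 431) (nat_lit 1) (.n (nat_lit 432) (nat_lit 3) (.n (nat_lit 433) (nat_lit 3) (.n (nat_lit 434) (nat_lit 2) (.p (nat_lit 435) (nat_lit 3) (.p (nat_lit 436) (nat_lit 2) (.n (nat_lit 438) (nat_lit 2) (.n (nat_lit 439) (nat_lit 1) (.p (nat_lit 441) (nat_lit 1) (.n (nat_lit 442) (nat_lit 3) (.n (nat_lit 444) (nat_lit 2) (.n (nat_lit 445) (nat_lit 3) (.p (nat_lit 448) (nat_lit 2) (.p (nat_lit 456) (nat_lit 1) (.p (nat_lit 459) (nat_lit 3) .z)))))))))))))))))))) (.ct dC1d_c533 (nat_lit 1) (nat_lit 13) (.s true (nat_lit 3) (nat_lit 9) (nat_lit 6) (nat_lit 1) (nat_lit 6) false (nat_lit 2) true (nat_lit 9) true (nat_lit 7) true (nat_lit 9) true (nat_lit 14) (.s true (nat_lit 3) (nat_lit 11) (nat_lit 6) (nat_lit 4) (nat_lit 2) true (nat_lit 3) true (nat_lit 13) true (nat_lit 6) true (nat_lit 9) true (nat_lit 11) (.s true (nat_lit 1) (nat_lit 15) (nat_lit 2) (nat_lit 2) (nat_lit 11) true (nat_lit 0) true (nat_lit 6) true (nat_lit 5) true (nat_lit 13) true (nat_lit 13) (.s false (nat_lit 3) (nat_lit 15) (nat_lit 2) (nat_lit 2) (nat_lit 12) true (nat_lit 0) true (nat_lit 6) true (nat_lit 5) true (nat_lit 13) true (nat_lit 13) (.s true (nat_lit 2) (nat_lit 14) (nat_lit 11) (nat_lit 2) (nat_lit 2) true (nat_lit 0) true (nat_lit 13) true (nat_lit 5) true (nat_lit 6) true (nat_lit 13) (.s false (nat_lit 3) (nat_lit 14) (nat_lit 12) (nat_lit 2) (nat_lit 2) true (nat_lit 0) true (nat_lit 13) true (nat_lit 5) true (nat_lit 6) true (nat_lit 13) (.s false (nat_lit 2) (nat_lit 15) (nat_lit 11) (nat_lit 2) (nat_lit 2) true (nat_lit 0) true (nat_lit 13) true (nat_lit 5) true (nat_lit 6) true (nat_lit 13) (.s false (nat_lit 1) (nat_lit 16) (nat_lit 9) (nat_lit 2) (nat_lit 2) true (nat_lit 1) true (nat_lit 13) true (nat_lit 4) true (nat_lit 7) true (nat_lit 13) (.s true (nat_lit 3) (nat_lit 18) (nat_lit 0) (nat_lit 12) (nat_lit 2) true (nat_lit 11) true (nat_lit 13) true (nat_lit 3) true (nat_lit 15) true (nat_lit 6) (.s true (nat_lit 3) (nat_lit 18) (nat_lit 2) (nat_lit 11) (nat_lit 0) true (nat_lit 11) true (nat_lit 15) true (nat_lit 3) true (nat_lit 13) true (nat_lit 6) (.s true (nat_lit 3) (nat_lit 18) (nat_lit 12) (nat_lit 0) (nat_lit 2) true (nat_lit 0) true (nat_lit 13) true (nat_lit 3) true (nat_lit 6) true (nat_lit 15) (.s true (nat_lit 3) (nat_lit 21) (nat_lit 2) (nat_lit 2) (nat_lit 6) true (nat_lit 3) true (nat_lit 9) true (nat_lit 2) true (nat_lit 13) true (nat_lit 13) dC1d_i366))))))))))))) .leaf) (nat_lit 286721) (nat_lit 1006) (.n (nat_lit 355) (nat_lit 1) (.n (nat_lit 356) (nat_lit 3) (.n (nat_lit 357) (nat_lit 1) (.n (nat_lit 358) (nat_lit 1) (.p (nat_lit 363) (nat_lit 3) (.n (nat_lit 366) (nat_lit 3) (.n (nat_lit 367) (nat_lit 3) (.n (nat_lit 369) (nat_lit 2) (.n (nat_lit 370) (nat_lit 2) (.p (nat_lit 372) (nat_lit 1) (.p (nat_lit 373) (nat_lit 1) (.p (nat_lit 374) (nat_lit 1) (.n (nat_lit 382) (nat_lit 3) (.p (nat_lit 383) (nat_lit 1) (.n (nat_lit 384) (nat_lit 1) (.p (nat_lit 386) (nat_lit 2) (.n (nat_lit 387) (nat_lit 2) (.n (nat_lit 388) (nat_lit 1) (.p (nat_lit 389) (nat_lit 1) (.n (nat_lit 390) (nat_lit 1) (.n (nat_lit 391) (nat_lit 3) (.n (nat_lit 392) (nat_lit 2) (.n (nat_lit 393) (nat_lit 2) (.p (nat_lit 394) (nat_lit 2) (.p (nat_lit 395) (nat_lit 1) (.n (nat_lit 396) (nat_lit 1) .z)))))))))))))))))))))))))) (.ct dC1d_c548 (nat_lit 1) (nat_lit 18) (.s true (nat_lit 1) (nat_lit 7) (nat_lit 1) (nat_lit 6) (nat_lit 6) true (nat_lit 6) true (nat_lit 13) true (nat_lit 12) true (nat_lit 18) true (nat_lit 13) (.s false (nat_lit 2) (nat_lit 7) (nat_lit 2) (nat_lit 5) (nat_lit 6) true (nat_lit 5) true (nat_lit 13) true (nat_lit 12) true (nat_lit 17) true (nat_lit 14) (.s true (nat_lit 3) (nat_lit 7) (nat_lit 2) (nat_lit 6) (nat_lit 5) true (nat_lit 6) true (nat_lit 14) true (nat_lit 12) true (nat_lit 17) true (nat_lit 13) (.s false (nat_lit 2) (nat_lit 7) (nat_lit 6) (nat_lit 2) (nat_lit 5) false (nat_lit 3) true (nat_lit 14) true (nat_lit 12) true (nat_lit 13) true (nat_lit 17) (.s true (nat_lit 1) (nat_lit 7) (nat_lit 6) (nat_lit 6) (nat_lit 1) true (nat_lit 6) true (nat_lit 18) true (nat_lit 12) true (nat_lit 13) true (nat_lit 13) (.s false (nat_lit 1) (nat_lit 8) (nat_lit 0) (nat_lit 6) (nat_lit 6) true (nat_lit 7) true (nat_lit 13) true (nat_lit 11) true (nat_lit 19) true (nat_lit 13) (.s false (nat_lit 1) (nat_lit 8) (nat_lit 2) (nat_lit 4) (nat_lit 6) true (nat_lit 5) true (nat_lit 13) true (nat_lit 11) true (nat_lit 17) true (nat_lit 15) (.s true (nat_lit 1) (nat_lit 8) (nat_lit 4) (nat_lit 6) (nat_lit 2) true (nat_lit 7) true (nat_lit 17) true (nat_lit 11) true (nat_lit 15) true (nat_lit 13) (.s true (nat_lit 1) (nat_lit 8) (nat_lit 6) (nat_lit 6) (nat_lit 0) true (nat_lit 7) true (nat_lit 19) true (nat_lit 11) true (nat_lit 13) true (nat_lit 13) (.s false (nat_lit 1) (nat_lit 9) (nat_lit 5) (nat_lit 2) (nat_lit 5) false (nat_lit 1) true (nat_lit 14) true (nat_lit 10) true (nat_lit 14) true (nat_lit 17) (.s true (nat_lit 3) (nat_lit 10) (nat_lit 0) (nat_lit 6) (nat_lit 5) true (nat_lit 9) true (nat_lit 14) true (nat_lit 9) true (nat_lit 19) true (nat_lit 13) (.s false (nat_lit 3) (nat_lit 10) (nat_lit 2) (nat_lit 2) (nat_lit 10) true (nat_lit 0) true (nat_lit 9) true (nat_lit 9) true (nat_lit 17) true (nat_lit 17) (.s false (nat_lit 1) (nat_lit 11) (nat_lit 2) (nat_lit 2) (nat_lit 12) true (nat_lit 0) true (nat_lit 9) true (nat_lit 9) true (nat_lit 17) true (nat_lit 17) (.s false (nat_lit 1) (nat_lit 12) (nat_lit 2) (nat_lit 2) (nat_lit 11) true (nat_lit 0) true (nat_lit 9) true (nat_lit 9) true (nat_lit 17) true (nat_lit 17) (.s false (nat_lit 1) (nat_lit 12) (nat_lit 2) (nat_lit 2) (nat_lit 12) true (nat_lit 0) true (nat_lit 9) true (nat_lit 9) true (nat_lit 17) true (nat_lit 17) (.s false (nat_lit 3) (nat_lit 13) (nat_lit 2) (nat_lit 2) (nat_lit 9) true (nat_lit 1) true (nat_lit 10) true (nat_lit 8) true (nat_lit 17) true (nat_lit 17) (.s true (nat_lit 1) (nat_lit 13) (nat_lit 2) (nat_lit 9) (nat_lit 2) true (nat_lit 13) true (nat_lit 17) true (nat_lit 8) true (nat_lit 17) true (nat_lit 10) (.s true (nat_lit 1) (nat_lit 13) (nat_lit 9) (nat_lit 2) (nat_lit 2) true (nat_lit 1) true (nat_lit 17) true (nat_lit 8) true (nat_lit 10) true (nat_lit 17) (.s false (nat_lit 1) (nat_lit 14) (nat_lit 1) (nat_lit 1) (nat_lit 14) true (nat_lit 0) true (nat_lit 7) true (nat_lit 7) true (nat_lit 18) true (nat_lit 18) (.s false (nat_lit 1) (nat_lit 14) (nat_lit 1) (nat_lit 1) (nat_lit 15) true (nat_lit 0) true (nat_lit 7) true (nat_lit 7) true (nat_lit 18) true (nat_lit 18) (.s true (nat_lit 2) (nat_lit 14) (nat_lit 1) (nat_lit 2) (nat_lit 10) true (nat_lit 2) true (nat_lit 9) true (nat_lit 7) true (nat_lit 18) true (nat_lit 17) (.s true (nat_lit 2) (nat_lit 15) (nat_lit 1) (nat_lit 2) (nat_lit 10) true (nat_lit 2) true (nat_lit 9) true (nat_lit 7) true (nat_lit 18) true (nat_lit 17) dC1d_i375))))))))))))))))))))))) .leaf))) (nat_lit 286722) (nat_lit 1278) (.p (nat_lit 426) (nat_lit 2) (.n (nat_lit 427) (nat_lit 1) (.n (nat_lit 428) (nat_lit 2) (.p (nat_lit 429) (nat_lit 1) (.p (nat_lit 431) (nat_lit 2) (.n (nat_lit 432) (nat_lit 3) (.n (nat_lit 433) (nat_lit 3) (.n (nat_lit 434) (nat_lit 2) (.p (nat_lit 435) (nat_lit 1) (.n (nat_lit 438) (nat_lit 2) (.n (nat_lit 439) (nat_lit 3) (.p (nat_lit 442) (nat_lit 2) (.n (nat_lit 443) (nat_lit 1) (.n (nat_lit 449) (nat_lit 1) (.p (nat_lit 452) (nat_lit 1) (.p (nat_lit 456) (nat_lit 3) (.p (nat_lit 459) (nat_lit 2) .z))))))))))))))))) (.ct dC1d_c533 (nat_lit 1) (nat_lit 13) dC1d_i377) (.nd (.nd (.nd (.nd .leaf (nat_lit 287745) (nat_lit 961) (.p (nat_lit 399) (nat_lit 1) .z) .df .leaf) (nat_lit 287746) (nat_lit 1246) (.p (nat_lit 457) (nat_lit 1) .z) .df .leaf) (nat_lit 288769) (nat_lit 962) (.p (nat_lit 400) (nat_lit 1) .z) .df (.nd (.nd .leaf (nat_lit 288770) (nat_lit 1351) (.p (nat_lit 426) (nat_lit 2) (.p (nat_lit 429) (nat_lit 2) (.n (nat_lit 431) (nat_lit 1) (.n (nat_lit 432) (nat_lit 1) (.n (nat_lit 433) (nat_lit 1) (.n (nat_lit 434) (nat_lit 3) (.n (nat_lit 435) (nat_lit 2) (.n (nat_lit 436) (nat_lit 1) (.p (nat_lit 437) (nat_lit 1) (.n (nat_lit 439) (nat_lit 3) (.n (nat_lit 440) (nat_lit 1) (.n (nat_lit 441) (nat_lit 1) (.n (nat_lit 442) (nat_lit 3) (.p (nat_lit 443) (nat_lit 2) (.p (nat_lit 444) (nat_lit 2) (.n (nat_lit 445) (nat_lit 1) (.p (nat_lit 447) (nat_lit 1) (.n (nat_lit 448) (nat_lit 2) (.p (nat_lit 454) (nat_lit 2) (.n (nat_lit 455) (nat_lit 2) (.p (nat_lit 456) (nat_lit 3) (.n (nat_lit 459) (nat_lit 3) .z)))))))))))))))))))))) (.ct dC1d_c533 (nat_lit 1) (nat_lit 13) (.s true (nat_lit 3) (nat_lit 99) (nat_lit 1) (nat_lit 2) (nat_lit 0) true (nat_lit 12) true (nat_lit 15) false (nat_lit 6) true (nat_lit 14) true (nat_lit 13) (.e false (nat_lit 3) (nat_lit 203) (nat_lit 3) (nat_lit 12) (.e false (nat_lit 3) (nat_lit 328) (nat_lit 0) (nat_lit 15) (.e true (nat_lit 3) (nat_lit 330) (nat_lit 0) (nat_lit 15) (.e false (nat_lit 1) (nat_lit 332) (nat_lit 0) (nat_lit 15) (.e false (nat_lit 3) (nat_lit 333) (nat_lit 0) (nat_lit 15) (.e false (nat_lit 3) (nat_lit 334) (nat_lit 0) (nat_lit 15) (.e false (nat_lit 3) (nat_lit 335) (nat_lit 0) (nat_lit 15) (.e true (nat_lit 2) (nat_lit 336) (nat_lit 0) (nat_lit 15) (.e true (nat_lit 3) (nat_lit 337) (nat_lit 0) (nat_lit 15) (.e true (nat_lit 2) (nat_lit 338) (nat_lit 0) (nat_lit 15) (.e false (nat_lit 1) (nat_lit 339) (nat_lit 0) (nat_lit 15) (.e true (nat_lit 2) (nat_lit 340) (nat_lit 0) (nat_lit 15) (.e true (nat_lit 1) (nat_lit 331) (nat_lit 0) (nat_lit 15) (.e true (nat_lit 3) (nat_lit 99) (nat_lit 12) (nat_lit 6) (.e true (nat_lit 2) (nat_lit 320) (nat_lit 1) (nat_lit 14) (.e true (nat_lit 1) (nat_lit 323) (nat_lit 1) (nat_lit 14) (.e true (nat_lit 3) (nat_lit 324) (nat_lit 1) (nat_lit 14) dC1d_i378))))))))))))))))))) .leaf) (nat_lit 289793) (nat_lit 963) (.p (nat_lit 401) (nat_lit 1) .z) .df .leaf)) (nat_lit 289794) (nat_lit 1253) (.p (nat_lit 427) (nat_lit 2) (.n (nat_lit 428) (nat_lit 3) (.n (nat_lit 429) (nat_lit 1) (.n (nat_lit 430) (nat_lit 2) (.p (nat_lit 431) (nat_lit 2) (.p (nat_lit 432) (nat_lit 3) (.p (nat_lit 433) (nat_lit 3) (.p (nat_lit 434) (nat_lit 3) (.p (nat_lit 435) (nat_lit 1) (.p (nat_lit 436) (nat_lit 1) (.n (nat_lit 439) (nat_lit 3) (.p (nat_lit 440) (nat_lit 1) (.n (nat_lit 441) (nat_lit 1) (.p (nat_lit 443) (nat_lit 3) (.p (nat_lit 444) (nat_lit 2) (.n (nat_lit 445) (nat_lit 1) (.p (nat_lit 446) (nat_lit 3) (.p (nat_lit 448) (nat_lit 1) (.p (nat_lit 451) (nat_lit 2) (.n (nat_lit 454) (nat_lit 2) (.p (nat_lit 456) (nat_lit 1) (.p (nat_lit 459) (nat_lit 1) .z)))))))))))))))))))))) (.ct dC1d_c533 (nat_lit 1) (nat_lit 13) (.s false (nat_lit 1) (nat_lit 9) (nat_lit 6) (nat_lit 5) (nat_lit 2) true (nat_lit 3) true (nat_lit 13) true (nat_lit 7) true (nat_lit 9) true (nat_lit 10) (.s true (nat_lit 3) (nat_lit 10) (nat_lit 2) (nat_lit 6) (nat_lit 4) true (nat_lit 5) true (nat_lit 11) true (nat_lit 6) true (nat_lit 13) true (nat_lit 9) (.s false (nat_lit 2) (nat_lit 10) (nat_lit 4) (nat_lit 2) (nat_lit 6) false (nat_lit 0) true (nat_lit 9) true (nat_lit 6) true (nat_lit 11) true (nat_lit 13) (.s false (nat_lit 1) (nat_lit 10) (nat_lit 6) (nat_lit 2) (nat_lit 4) false (nat_lit 0) true (nat_lit 11) true (nat_lit 6) true (nat_lit 9) true (nat_lit 13) (.s false (nat_lit 2) (nat_lit 11) (nat_lit 6) (nat_lit 2) (nat_lit 4) false (nat_lit 0) true (nat_lit 11) true (nat_lit 6) true (nat_lit 9) true (nat_lit 13) (.s false (nat_lit 3) (nat_lit 11) (nat_lit 6) (nat_lit 4) (nat_lit 2) true (nat_lit 3) true (nat_lit 13) true (nat_lit 6) true (nat_lit 9) true (nat_lit 11) (.s false (nat_lit 3) (nat_lit 14) (nat_lit 1) (nat_lit 14) (nat_lit 2) true (nat_lit 10) true (nat_lit 13) true (nat_lit 5) true (nat_lit 14) true (nat_lit 5) (.s false (nat_lit 3) (nat_lit 14) (nat_lit 2) (nat_lit 2) (nat_lit 11) true (nat_lit 0) true (nat_lit 6) true (nat_lit 5) true (nat_lit 13) true (nat_lit 13) (.s true (nat_lit 2) (nat_lit 15) (nat_lit 2) (nat_lit 2) (nat_lit 10) true (nat_lit 0) true (nat_lit 6) true (nat_lit 5) true (nat_lit 13) true (nat_lit 13) (.s false (nat_lit 2) (nat_lit 15) (nat_lit 2) (nat_lit 2) (nat_lit 11) true (nat_lit 0) true (nat_lit 6) true (nat_lit 5) true (nat_lit 13) true (nat_lit 13) (.s true (nat_lit 1) (nat_lit 15) (nat_lit 2) (nat_lit 2) (nat_lit 12) true (nat_lit 0) true (nat_lit 6) true (nat_lit 5) true (nat_lit 13) true (nat_lit 13) (.s true (nat_lit 2) (nat_lit 14) (nat_lit 11) (nat_lit 2) (nat_lit 2) true (nat_lit 0) true (nat_lit 13) true (nat_lit 5) true (nat_lit 6) true (nat_lit 13) (.s true (nat_lit 2) (nat_lit 15) (nat_lit 11) (nat_lit 2) (nat_lit 2) true (nat_lit 0) true (nat_lit 13) true (nat_lit 5) true (nat_lit 6) true (nat_lit 13) (.s true (nat_lit 3) (nat_lit 16) (nat_lit 2) (nat_lit 0) (nat_lit 15) false (nat_lit 0) true (nat_lit 5) true (nat_lit 4) true (nat_lit 13) true (nat_lit 15) (.s true (nat_lit 3) (nat_lit 18) (nat_lit 0) (nat_lit 0) (nat_lit 16) true (nat_lit 0) true (nat_lit 4) true (nat_lit 3) true (nat_lit 15) true (nat_lit 15) (.s false (nat_lit 3) (nat_lit 18) (nat_lit 0) (nat_lit 1) (nat_lit 15) true (nat_lit 1) true (nat_lit 5) true (nat_lit 3) true (nat_lit 15) true (nat_lit 14) (.s false (nat_lit 1) (nat_lit 18) (nat_lit 0) (nat_lit 2) (nat_lit 10) true (nat_lit 2) true (nat_lit 6) true (nat_lit 3) true (nat_lit 15) true (nat_lit 13) (.s false (nat_lit 3) (nat_lit 18) (nat_lit 0) (nat_lit 6) (nat_lit 3) true (nat_lit 8) true (nat_lit 12) true (nat_lit 3) true (nat_lit 15) true (nat_lit 9) (.s false (nat_lit 1) (nat_lit 18) (nat_lit 0) (nat_lit 15) (nat_lit 1) true (nat_lit 12) true (nat_lit 14) true (nat_lit 3) true (nat_lit 15) true (nat_lit 5) (.s true (nat_lit 2) (nat_lit 18) (nat_lit 1) (nat_lit 15) (nat_lit 0) true (nat_lit 12) true (nat_lit 15) true (nat_lit 3) true (nat_lit 14) true (nat_lit 5) dC1d_i383))))))))))))))))))))) (.nd (.nd (.nd .leaf (nat_lit 290817) (nat_lit 964) (.p (nat_lit 402) (nat_lit 1) .z) .df .leaf) (nat_lit 290818) (nat_lit 1247) (.p (nat_lit 458) (nat_lit 1) .z) .df .leaf) (nat_lit 291841) (nat_lit 965) (.p (nat_lit 403) (nat_lit 1) .z) .df (.nd (.nd .leaf (nat_lit 291842) (nat_lit 1356) (.p (nat_lit 426) (nat_lit 1) (.n (nat_lit 427) (nat_lit 2) (.n (nat_lit 428) (nat_lit 1) (.p (nat_lit 429) (nat_lit 2) (.n (nat_lit 430) (nat_lit 1) (.n (nat_lit 431) (nat_lit 3) (.n (nat_lit 432) (nat_lit 2) (.n (nat_lit 433) (nat_lit 3) (.p (nat_lit 434) (nat_lit 2) (.p (nat_lit 436) (nat_lit 1) (.n (nat_lit 438) (nat_lit 3) (.n (nat_lit 439) (nat_lit 2) (.p (nat_lit 441) (nat_lit 3) (.p (nat_lit 442) (nat_lit 1) (.p (nat_lit 443) (nat_lit 2) (.p (nat_lit 444) (nat_lit 2) (.n (nat_lit 445) (nat_lit 3) (.p (nat_lit 446) (nat_lit 3) (.p (nat_lit 447) (nat_lit 1) (.p (nat_lit 451) (nat_lit 1) (.n (nat_lit 452) (nat_lit 1) (.n (nat_lit 454) (nat_lit 1) (.n (nat_lit 455) (nat_lit 1) .z))))))))))))))))))))))) (.ct dC1d_c533 (nat_lit 1) (nat_lit 13) (.s false (nat_lit 2) (nat_lit 105) (nat_lit 0) (nat_lit 2) (nat_lit 0) false (nat_lit 16) true (nat_lit 15) false (nat_lit 7) true (nat_lit 15) true (nat_lit 13) (.e false (nat_lit 3) (nat_lit 331) (nat_lit 0) (nat_lit 15) (.e false (nat_lit 3) (nat_lit 333) (nat_lit 0) (nat_lit 15) (.e true (nat_lit 1) (nat_lit 334) (nat_lit 0) (nat_lit 15) (.e true (nat_lit 2) (nat_lit 335) (nat_lit 0) (nat_lit 15) (.e true (nat_lit 1) (nat_lit 336) (nat_lit 0) (nat_lit 15) (.e false (nat_lit 1) (nat_lit 337) (nat_lit 0) (nat_lit 15) (.e false (nat_lit 3) (nat_lit 338) (nat_lit 0) (nat_lit 15) (.e false (nat_lit 3) (nat_lit 339) (nat_lit 0) (nat_lit 15) (.e false (nat_lit 3) (nat_lit 340) (nat_lit 0) (nat_lit 15) (.e true (nat_lit 2) (nat_lit 328) (nat_lit 0) (nat_lit 15) (.e true (nat_lit 2) (nat_lit 329) (nat_lit 0) (nat_lit 15) (.e false (nat_lit 2) (nat_lit 332) (nat_lit 0) (nat_lit 15) (.e false (nat_lit 2) (nat_lit 105) (nat_lit 9) (nat_lit 7) (.e true (nat_lit 2) (nat_lit 343) (nat_lit 0) (nat_lit 15) dC1d_i384)))))))))))))))) .leaf) (nat_lit 292865) (nat_lit 1016) (.p (nat_lit 355) (nat_lit 1) (.n (nat_lit 356) (nat_lit 3) (.n (nat_lit 357) (nat_lit 2) (.n (nat_lit 358) (nat_lit 1) (.p (nat_lit 363) (nat_lit 3) (.n (nat_lit 364) (nat_lit 3) (.p (nat_lit 366) (nat_lit 2) (.n (nat_lit 367) (nat_lit 1) (.n (nat_lit 369) (nat_lit 3) (.n (nat_lit 370) (nat_lit 3) (.p (nat_lit 372) (nat_lit 2) (.n (nat_lit 373) (nat_lit 2) (.n (nat_lit 374) (nat_lit 2) (.p (nat_lit 375) (nat_lit 2) (.p (nat_lit 381) (nat_lit 3) (.n (nat_lit 382) (nat_lit 3) (.p (nat_lit 384) (nat_lit 2) (.p (nat_lit 385) (nat_lit 2) (.n (nat_lit 386) (nat_lit 1) (.p (nat_lit 387) (nat_lit 2) (.n (nat_lit 388) (nat_lit 1) (.p (nat_lit 389) (nat_lit 1) (.n (nat_lit 390) (nat_lit 2) (.n (nat_lit 391) (nat_lit 3) (.p (nat_lit 392) (nat_lit 2) (.p (nat_lit 393) (nat_lit 2) (.p (nat_lit 395) (nat_lit 1) (.p (nat_lit 396) (nat_lit 3) .z)))))))))))))))))))))))))))) (.ct dC1d_c548 (nat_lit 1) (nat_lit 18) (.s false (nat_lit 3) (nat_lit 7) (nat_lit 5) (nat_lit 6) (nat_lit 2) true (nat_lit 6) true (nat_lit 17) true (nat_lit 12) true (nat_lit 14) true (nat_lit 13) (.s true (nat_lit 3) (nat_lit 8) (nat_lit 6) (nat_lit 2) (nat_lit 4) false (nat_lit 2) true (nat_lit 15) true (nat_lit 11) true (nat_lit 13) true (nat_lit 17) dC1d_i386))) .leaf)))) (nat_lit 292866) (nat_lit 1251) (.p (nat_lit 456) (nat_lit 1) .z) (.ct dC1d_c533 (nat_lit 1) (nat_lit 13) (.s false (nat_lit 3) (nat_lit 18) (nat_lit 7) (nat_lit 2) (nat_lit 2) true (nat_lit 2) true (nat_lit 13) true (nat_lit 3) true (nat_lit 8) true (nat_lit 13) (.s false (nat_lit 3) (nat_lit 20) (nat_lit 6) (nat_lit 2) (nat_lit 2) true (nat_lit 3) true (nat_lit 13) true (nat_lit 2) true (nat_lit 9) true (nat_lit 13) (.e true (nat_lit 3) (nat_lit 149) (nat_lit 6) (nat_lit 9) (.u (nat_lit 2) (.n (nat_lit 30) (nat_lit 1) (.p (nat_lit 199) (nat_lit 1) .z)) .nil))))) (.nd (.nd (.nd (.nd (.nd .leaf (nat_lit 293889) (nat_lit 1047) (.n (nat_lit 355) (nat_lit 3) (.n (nat_lit 356) (nat_lit 1) (.n (nat_lit 357) (nat_lit 1) (.p (nat_lit 358) (nat_lit 3) (.n (nat_lit 359) (nat_lit 1) (.n (nat_lit 361) (nat_lit 1) (.p (nat_lit 362) (nat_lit 1) (.p (nat_lit 363) (nat_lit 3) (.n (nat_lit 364) (nat_lit 2) (.p (nat_lit 365) (nat_lit 2) (.p (nat_lit 366) (nat_lit 2) (.p (nat_lit 367) (nat_lit 3) (.n (nat_lit 369) (nat_lit 3) (.p (nat_lit 370) (nat_lit 2) (.n (nat_lit 372) (nat_lit 1) (.n (nat_lit 373) (nat_lit 3) (.n (nat_lit 374) (nat_lit 1) (.p (nat_lit 375) (nat_lit 2) (.n (nat_lit 381) (nat_lit 3) (.n (nat_lit 382) (nat_lit 3) (.n (nat_lit 383) (nat_lit 1) (.n (nat_lit 384) (nat_lit 2) (.p (nat_lit 385) (nat_lit 2) (.n (nat_lit 386) (nat_lit 3) (.n (nat_lit 387) (nat_lit 3) (.p (nat_lit 388) (nat_lit 3) (.p (nat_lit 390) (nat_lit 1) (.p (nat_lit 393) (nat_lit 1) (.p (nat_lit 394) (nat_lit 2) (.p (nat_lit 395) (nat_lit 3) (.n (nat_lit 396) (nat_lit 2) .z))))))))))))))))))))))))))))))) (.ct dC1d_c548 (nat_lit 1) (nat_lit 18) (.s true (nat_lit 1) (nat_lit 7) (nat_lit 1) (nat_lit 6) (nat_lit 6) true (nat_lit 6) true (nat_lit 13) true (nat_lit 12) true (nat_lit 18) true (nat_lit 13) (.s false (nat_lit 1) (nat_lit 18) (nat_lit 0) (nat_lit 2) (nat_lit 8) true (nat_lit 4) true (nat_lit 11) true (nat_lit 5) true (nat_lit 19) true (nat_lit 17) (.s false (nat_lit 1) (nat_lit 18) (nat_lit 2) (nat_lit 0) (nat_lit 8) true (nat_lit 2) true (nat_lit 11) true (nat_lit 5) true (nat_lit 17) true (nat_lit 19) (.s false (nat_lit 1) (nat_lit 18) (nat_lit 8) (nat_lit 0) (nat_lit 2) true (nat_lit 2) true (nat_lit 17) true (nat_lit 5) true (nat_lit 11) true (nat_lit 19) (.s true (nat_lit 1) (nat_lit 19) (nat_lit 6) (nat_lit 2) (nat_lit 2) true (nat_lit 5) true (nat_lit 17) true (nat_lit 4) true (nat_lit 13) true (nat_lit 17) (.s false (nat_lit 1) (nat_lit 65) (nat_lit 1) (nat_lit 2) (nat_lit 2) true (nat_lit 14) true (nat_lit 17) false (nat_lit 6) true (nat_lit 18) true (nat_lit 17) (.s false (nat_lit 1) (nat_lit 65) (nat_lit 2) (nat_lit 1) (nat_lit 2) true (nat_lit 13) true (nat_lit 17) false (nat_lit 6) true (nat_lit 17) true (nat_lit 18) (.s true (nat_lit 1) (nat_lit 65) (nat_lit 2) (nat_lit 2) (nat_lit 1) true (nat_lit 14) true (nat_lit 18) false (nat_lit 6) true (nat_lit 17) true (nat_lit 17) (.s true (nat_lit 2) (nat_lit 77) (nat_lit 1) (nat_lit 1) (nat_lit 2) true (nat_lit 14) true (nat_lit 17) false (nat_lit 8) true (nat_lit 18) true (nat_lit 18) (.s true (nat_lit 3) (nat_lit 78) (nat_lit 1) (nat_lit 1) (nat_lit 2) true (nat_lit 14) true (nat_lit 17) false (nat_lit 8) true (nat_lit 18) true (nat_lit 18) (.s true (nat_lit 2) (nat_lit 103) (nat_lit 0) (nat_lit 1) (nat_lit 0) false (nat_lit 20) true (nat_lit 19) false (nat_lit 12) true (nat_lit 19) true (nat_lit 18) (.s true (nat_lit 2) (nat_lit 104) (nat_lit 0) (nat_lit 1) (nat_lit 0) false (nat_lit 20) true (nat_lit 19) false (nat_lit 12) true (nat_lit 19) true (nat_lit 18) (.e false (nat_lit 2) (nat_lit 307) (nat_lit 0) (nat_lit 19) (.e true (nat_lit 1) (nat_lit 316) (nat_lit 0) (nat_lit 19) (.e false (nat_lit 1) (nat_lit 220) (nat_lit 2) (nat_lit 17) (.e true (nat_lit 3) (nat_lit 229) (nat_lit 2) (nat_lit 17) (.e false (nat_lit 2) (nat_lit 212) (nat_lit 2) (nat_lit 17) (.e false (nat_lit 2) (nat_lit 213) (nat_lit 2) (nat_lit 17) (.e true (nat_lit 3) (nat_lit 214) (nat_lit 2) (nat_lit 17) (.e true (nat_lit 2) (nat_lit 215) (nat_lit 2) (nat_lit 17) (.e true (nat_lit 1) (nat_lit 217) (nat_lit 2) (nat_lit 17) (.e false (nat_lit 3) (nat_lit 218) (nat_lit 2) (nat_lit 17) (.e true (nat_lit 2) (nat_lit 219) (nat_lit 2) (nat_lit 17) (.e false (nat_lit 3) (nat_lit 221) (nat_lit 2) (nat_lit 17) dC1d_i389))))))))))))))))))))))))) .leaf) (nat_lit 293890) (nat_lit 1262) (.p (nat_lit 426) (nat_lit 3) (.n (nat_lit 427) (nat_lit 1) (.n (nat_lit 428) (nat_lit 1) (.n (nat_lit 429) (nat_lit 2) (.n (nat_lit 430) (nat_lit 1) (.p (nat_lit 431) (nat_lit 2) (.p (nat_lit 432) (nat_lit 2) (.p (nat_lit 433) (nat_lit 2) (.n (nat_lit 434) (nat_lit 2) (.p (nat_lit 438) (nat_lit 2) (.n (nat_lit 439) (nat_lit 2) (.n (nat_lit 441) (nat_lit 2) (.n (nat_lit 442) (nat_lit 3) (.n (nat_lit 443) (nat_lit 3) (.n (nat_lit 444) (nat_lit 3) (.p (nat_lit 447) (nat_lit 2) (.n (nat_lit 456) (nat_lit 2) (.p (nat_lit 459) (nat_lit 1) .z)))))))))))))))))) (.ct dC1d_c533 (nat_lit 1) (nat_lit 13) (.s true (nat_lit 3) (nat_lit 9) (nat_lit 2) (nat_lit 5) (nat_lit 6) true (nat_lit 3) true (nat_lit 9) true (nat_lit 7) true (nat_lit 13) true (nat_lit 10) (.s true (nat_lit 1) (nat_lit 9) (nat_lit 5) (nat_lit 6) (nat_lit 2) true (nat_lit 4) true (nat_lit 13) true (nat_lit 7) true (nat_lit 10) true (nat_lit 9) (.s true (nat_lit 2) (nat_lit 9) (nat_lit 6) (nat_lit 1) (nat_lit 6) false (nat_lit 2) true (nat_lit 9) true (nat_lit 7) true (nat_lit 9) true (nat_lit 14) (.s true (nat_lit 2) (nat_lit 9) (nat_lit 6) (nat_lit 5) (nat_lit 2) true (nat_lit 3) true (nat_lit 13) true (nat_lit 7) true (nat_lit 9) true (nat_lit 10) (.s false (nat_lit 3) (nat_lit 10) (nat_lit 6) (nat_lit 4) (nat_lit 2) true (nat_lit 3) true (nat_lit 13) true (nat_lit 6) true (nat_lit 9) true (nat_lit 11) (.s false (nat_lit 1) (nat_lit 14) (nat_lit 1) (nat_lit 14) (nat_lit 2) true (nat_lit 10) true (nat_lit 13) true (nat_lit 5) true (nat_lit 14) true (nat_lit 5) (.s false (nat_lit 3) (nat_lit 14) (nat_lit 2) (nat_lit 2) (nat_lit 11) true (nat_lit 0) true (nat_lit 6) true (nat_lit 5) true (nat_lit 13) true (nat_lit 13) (.s false (nat_lit 1) (nat_lit 15) (nat_lit 2) (nat_lit 2) (nat_lit 10) true (nat_lit 0) true (nat_lit 6) true (nat_lit 5) true (nat_lit 13) true (nat_lit 13) (.s true (nat_lit 1) (nat_lit 15) (nat_lit 2) (nat_lit 2) (nat_lit 11) true (nat_lit 0) true (nat_lit 6) true (nat_lit 5) true (nat_lit 13) true (nat_lit 13) (.s true (nat_lit 3) (nat_lit 14) (nat_lit 6) (nat_lit 3) (nat_lit 2) true (nat_lit 3) true (nat_lit 13) true (nat_lit 5) true (nat_lit 9) true (nat_lit 12) (.s true (nat_lit 3) (nat_lit 14) (nat_lit 10) (nat_lit 2) (nat_lit 2) true (nat_lit 0) true (nat_lit 13) true (nat_lit 5) true (nat_lit 6) true (nat_lit 13) (.s false (nat_lit 3) (nat_lit 14) (nat_lit 11) (nat_lit 2) (nat_lit 2) true (nat_lit 0) true (nat_lit 13) true (nat_lit 5) true (nat_lit 6) true (nat_lit 13) (.s false (nat_lit 3) (nat_lit 14) (nat_lit 12) (nat_lit 2) (nat_lit 2) true (nat_lit 0) true (nat_lit 13) true (nat_lit 5) true (nat_lit 6) true (nat_lit 13) (.s false (nat_lit 3) (nat_lit 15) (nat_lit 10) (nat_lit 2) (nat_lit 2) true (nat_lit 0) true (nat_lit 13) true (nat_lit 5) true (nat_lit 6) true (nat_lit 13) (.s true (nat_lit 1) (nat_lit 16) (nat_lit 9) (nat_lit 2) (nat_lit 2) true (nat_lit 1) true (nat_lit 13) true (nat_lit 4) true (nat_lit 7) true (nat_lit 13) (.s false (nat_lit 2) (nat_lit 18) (nat_lit 0) (nat_lit 6) (nat_lit 3) true (nat_lit 8) true (nat_lit 12) true (nat_lit 3) true (nat_lit 15) true (nat_lit 9) (.s true (nat_lit 2) (nat_lit 18) (nat_lit 0) (nat_lit 12) (nat_lit 2) true (nat_lit 11) true (nat_lit 13) true (nat_lit 3) true (nat_lit 15) true (nat_lit 6) (.s false (nat_lit 3) (nat_lit 18) (nat_lit 0) (nat_lit 15) (nat_lit 1) true (nat_lit 12) true (nat_lit 14) true (nat_lit 3) true (nat_lit 15) true (nat_lit 5) dC1d_i394))))))))))))))))))) .leaf) (nat_lit 294913) (nat_lit 1003) (.n (nat_lit 356) (nat_lit 2) (.p (nat_lit 357) (nat_lit 3) (.p (nat_lit 358) (nat_lit 2) (.p (nat_lit 359) (nat_lit 2) (.p (nat_lit 361) (nat_lit 2) (.n (nat_lit 362) (nat_lit 2) (.n (nat_lit 363) (nat_lit 2) (.n (nat_lit 364) (nat_lit 3) (.p (nat_lit 365) (nat_lit 3) (.n (nat_lit 366) (nat_lit 1) (.n (nat_lit 367) (nat_lit 3) (.p (nat_lit 369) (nat_lit 1) (.n (nat_lit 370) (nat_lit 2) (.p (nat_lit 372) (nat_lit 1) (.n (nat_lit 373) (nat_lit 2) (.p (nat_lit 374) (nat_lit 1) (.p (nat_lit 375) (nat_lit 3) (.n (nat_lit 381) (nat_lit 1) (.p (nat_lit 382) (nat_lit 3) (.p (nat_lit 383) (nat_lit 3) (.p (nat_lit 385) (nat_lit 1) (.n (nat_lit 386) (nat_lit 2) (.p (nat_lit 387) (nat_lit 3) (.n (nat_lit 388) (nat_lit 3) (.n (nat_lit 389) (nat_lit 2) (.p (nat_lit 390) (nat_lit 3) (.n (nat_lit 391) (nat_lit 1) (.p (nat_lit 392) (nat_lit 1) (.n (nat_lit 393) (nat_lit 2) (.n (nat_lit 395) (nat_lit 1) (.n (nat_lit 396) (nat_lit 3) .z))))))))))))))))))))))))))))))) (.ct dC1d_c548 (nat_lit 1) (nat_lit 18) (.s true (nat_lit 2) (nat_lit 7) (nat_lit 1) (nat_lit 6) (nat_lit 6) true (nat_lit 6) true (nat_lit 13) true (nat_lit 12) true (nat_lit 18) true (nat_lit 13) (.s true (nat_lit 2) (nat_lit 7) (nat_lit 2) (nat_lit 6) (nat_lit 5) true (nat_lit 6) true (nat_lit 14) true (nat_lit 12) true (nat_lit 17) true (nat_lit 13) (.s true (nat_lit 1) (nat_lit 7) (nat_lit 5) (nat_lit 6) (nat_lit 2) true (nat_lit 6) true (nat_lit 17) true (nat_lit 12) true (nat_lit 14) true (nat_lit 13) (.s false (nat_lit 2) (nat_lit 7) (nat_lit 6) (nat_lit 5) (nat_lit 2) true (nat_lit 5) true (nat_lit 17) true (nat_lit 12) true (nat_lit 13) true (nat_lit 14) (.s true (nat_lit 2) (nat_lit 7) (nat_lit 6) (nat_lit 6) (nat_lit 1) true (nat_lit 6) true (nat_lit 18) true (nat_lit 12) true (nat_lit 13) true (nat_lit 13) (.s false (nat_lit 3) (nat_lit 8) (nat_lit 2) (nat_lit 4) (nat_lit 6) true (nat_lit 5) true (nat_lit 13) true (nat_lit 11) true (nat_lit 17) true (nat_lit 15) (.s false (nat_lit 3) (nat_lit 8) (nat_lit 6) (nat_lit 4) (nat_lit 2) true (nat_lit 5) true (nat_lit 17) true (nat_lit 11) true (nat_lit 13) true (nat_lit 15) (.s true (nat_lit 1) (nat_lit 8) (nat_lit 6) (nat_lit 6) (nat_lit 0) true (nat_lit 7) true (nat_lit 19) true (nat_lit 11) true (nat_lit 13) true (nat_lit 13) (.s true (nat_lit 1) (nat_lit 9) (nat_lit 6) (nat_lit 1) (nat_lit 5) false (nat_lit 3) true (nat_lit 14) true (nat_lit 10) true (nat_lit 13) true (nat_lit 18) (.s true (nat_lit 1) (nat_lit 9) (nat_lit 6) (nat_lit 5) (nat_lit 1) true (nat_lit 6) true (nat_lit 18) true (nat_lit 10) true (nat_lit 13) true (nat_lit 14) (.s true (nat_lit 1) (nat_lit 10) (nat_lit 2) (nat_lit 2) (nat_lit 10) true (nat_lit 0) true (nat_lit 9) true (nat_lit 9) true (nat_lit 17) true (nat_lit 17) (.s true (nat_lit 3) (nat_lit 11) (nat_lit 2) (nat_lit 2) (nat_lit 12) true (nat_lit 0) true (nat_lit 9) true (nat_lit 9) true (nat_lit 17) true (nat_lit 17) (.s false (nat_lit 3) (nat_lit 12) (nat_lit 2) (nat_lit 2) (nat_lit 12) true (nat_lit 0) true (nat_lit 9) true (nat_lit 9) true (nat_lit 17) true (nat_lit 17) (.s false (nat_lit 1) (nat_lit 13) (nat_lit 2) (nat_lit 2) (nat_lit 9) true (nat_lit 1) true (nat_lit 10) true (nat_lit 8) true (nat_lit 17) true (nat_lit 17) (.s false (nat_lit 3) (nat_lit 13) (nat_lit 9) (nat_lit 2) (nat_lit 2) true (nat_lit 1) true (nat_lit 17) true (nat_lit 8) true (nat_lit 10) true (nat_lit 17) (.s true (nat_lit 1) (nat_lit 15) (nat_lit 0) (nat_lit 2) (nat_lit 13) true (nat_lit 2) true (nat_lit 8) true (nat_lit 7) true (nat_lit 19) true (nat_lit 17) (.s false (nat_lit 1) (nat_lit 14) (nat_lit 1) (nat_lit 1) (nat_lit 14) true (nat_lit 0) true (nat_lit 7) true (nat_lit 7) true (nat_lit 18) true (nat_lit 18) (.s false (nat_lit 3) (nat_lit 14) (nat_lit 1) (nat_lit 1) (nat_lit 15) true (nat_lit 0) true (nat_lit 7) true (nat_lit 7) true (nat_lit 18) true (nat_lit 18) (.s false (nat_lit 1) (nat_lit 15) (nat_lit 1) (nat_lit 1) (nat_lit 15) true (nat_lit 0) true (nat_lit 7) true (nat_lit 7) true (nat_lit 18) true (nat_lit 18) (.s false (nat_lit 2) (nat_lit 15) (nat_lit 1) (nat_lit 2) (nat_lit 10) true (nat_lit 2) true (nat_lit 9) true (nat_lit 7) true (nat_lit 18) true (nat_lit 17) dC1d_i405))))))))))))))))))))) (.nd (.nd .leaf (nat_lit 294914) (nat_lit 1272) (.n (nat_lit 426) (nat_lit 2) (.n (nat_lit 427) (nat_lit 2) (.p (nat_lit 428) (nat_lit 2) (.n (nat_lit 429) (nat_lit 2) (.n (nat_lit 430) (nat_lit 3) (.p (nat_lit 431) (nat_lit 3) (.n (nat_lit 432) (nat_lit 2) (.n (nat_lit 433) (nat_lit 2) (.p (nat_lit 434) (nat_lit 2) (.p (nat_lit 435) (nat_lit 2) (.p (nat_lit 436) (nat_lit 1) (.p (nat_lit 438) (nat_lit 3) (.p (nat_lit 439) (nat_lit 2) (.p (nat_lit 441) (nat_lit 1) (.n (nat_lit 442) (nat_lit 3) (.n (nat_lit 444) (nat_lit 2) (.n (nat_lit 445) (nat_lit 3) (.p (nat_lit 448) (nat_lit 2) (.n (nat_lit 456) (nat_lit 2) (.p (nat_lit 459) (nat_lit 1) .z)))))))))))))))))))) (.ct dC1d_c533 (nat_lit 1) (nat_lit 13) (.s false (nat_lit 1) (nat_lit 9) (nat_lit 6) (nat_lit 1) (nat_lit 6) false (nat_lit 2) true (nat_lit 9) true (nat_lit 7) true (nat_lit 9) true (nat_lit 14) (.s true (nat_lit 3) (nat_lit 10) (nat_lit 6) (nat_lit 4) (nat_lit 2) true (nat_lit 3) true (nat_lit 13) true (nat_lit 6) true (nat_lit 9) true (nat_lit 11) (.s false (nat_lit 2) (nat_lit 11) (nat_lit 6) (nat_lit 4) (nat_lit 2) true (nat_lit 3) true (nat_lit 13) true (nat_lit 6) true (nat_lit 9) true (nat_lit 11) (.s true (nat_lit 1) (nat_lit 14) (nat_lit 2) (nat_lit 2) (nat_lit 11) true (nat_lit 0) true (nat_lit 6) true (nat_lit 5) true (nat_lit 13) true (nat_lit 13) (.s true (nat_lit 3) (nat_lit 14) (nat_lit 10) (nat_lit 2) (nat_lit 2) true (nat_lit 0) true (nat_lit 13) true (nat_lit 5) true (nat_lit 6) true (nat_lit 13) (.s false (nat_lit 1) (nat_lit 14) (nat_lit 11) (nat_lit 2) (nat_lit 2) true (nat_lit 0) true (nat_lit 13) true (nat_lit 5) true (nat_lit 6) true (nat_lit 13) (.s false (nat_lit 3) (nat_lit 15) (nat_lit 10) (nat_lit 2) (nat_lit 2) true (nat_lit 0) true (nat_lit 13) true (nat_lit 5) true (nat_lit 6) true (nat_lit 13) (.s false (nat_lit 3) (nat_lit 15) (nat_lit 11) (nat_lit 2) (nat_lit 2) true (nat_lit 0) true (nat_lit 13) true (nat_lit 5) true (nat_lit 6) true (nat_lit 13) (.s true (nat_lit 1) (nat_lit 16) (nat_lit 2) (nat_lit 9) (nat_lit 2) true (nat_lit 9) true (nat_lit 13) true (nat_lit 4) true (nat_lit 13) true (nat_lit 7) (.s false (nat_lit 1) (nat_lit 17) (nat_lit 2) (nat_lit 9) (nat_lit 2) true (nat_lit 9) true (nat_lit 13) true (nat_lit 4) true (nat_lit 13) true (nat_lit 7) (.s true (nat_lit 2) (nat_lit 16) (nat_lit 9) (nat_lit 2) (nat_lit 2) true (nat_lit 1) true (nat_lit 13) true (nat_lit 4) true (nat_lit 7) true (nat_lit 13) (.s false (nat_lit 3) (nat_lit 17) (nat_lit 9) (nat_lit 2) (nat_lit 2) true (nat_lit 1) true (nat_lit 13) true (nat_lit 4) true (nat_lit 7) true (nat_lit 13) (.s false (nat_lit 1) (nat_lit 18) (nat_lit 0) (nat_lit 11) (nat_lit 2) true (nat_lit 11) true (nat_lit 13) true (nat_lit 3) true (nat_lit 15) true (nat_lit 6) (.s false (nat_lit 2) (nat_lit 18) (nat_lit 0) (nat_lit 12) (nat_lit 2) true (nat_lit 11) true (nat_lit 13) true (nat_lit 3) true (nat_lit 15) true (nat_lit 6) (.s false (nat_lit 1) (nat_lit 18) (nat_lit 0) (nat_lit 16) (nat_lit 0) false (nat_lit 16) true (nat_lit 15) true (nat_lit 3) true (nat_lit 15) true (nat_lit 4) (.s false (nat_lit 2) (nat_lit 18) (nat_lit 1) (nat_lit 2) (nat_lit 9) true (nat_lit 2) true (nat_lit 7) true (nat_lit 3) true (nat_lit 14) true (nat_lit 13) (.s true (nat_lit 1) (nat_lit 18) (nat_lit 2) (nat_lit 9) (nat_lit 1) true (nat_lit 10) true (nat_lit 14) true (nat_lit 3) true (nat_lit 13) true (nat_lit 7) (.s false (nat_lit 1) (nat_lit 18) (nat_lit 2) (nat_lit 11) (nat_lit 0) true (nat_lit 11) true (nat_lit 15) true (nat_lit 3) true (nat_lit 13) true (nat_lit 6) (.s true (nat_lit 2) (nat_lit 18) (nat_lit 2) (nat_lit 12) (nat_lit 0) true (nat_lit 11) true (nat_lit 15) true (nat_lit 3) true (nat_lit 13) true (nat_lit 6) (.s false (nat_lit 1) (nat_lit 18) (nat_lit 9) (nat_lit 1) (nat_lit 2) true (nat_lit 1) true (nat_lit 13) true (nat_lit 3) true (nat_lit 7) true (nat_lit 14) (.s false (nat_lit 3) (nat_lit 18) (nat_lit 10) (nat_lit 0) (nat_lit 2) true (nat_lit 0) true (nat_lit 13) true (nat_lit 3) true (nat_lit 6) true (nat_lit 15) (.s true (nat_lit 1) (nat_lit 21) (nat_lit 2) (nat_lit 2) (nat_lit 6) true (nat_lit 3) true (nat_lit 9) true (nat_lit 2) true (nat_lit 13) true (nat_lit 13) (.s true (nat_lit 3) (nat_lit 22) (nat_lit 2) (nat_lit 2) (nat_lit 6) true (nat_lit 3) true (nat_lit 9) true (nat_lit 2) true (nat_lit 13) true (nat_lit 13) dC1d_i409)))))))))))))))))))))))) .leaf) (nat_lit 295937) (nat_lit 1051) (.n (nat_lit 355) (nat_lit 1) (.p (nat_lit 356) (nat_lit 1) (.n (nat_lit 358) (nat_lit 1) (.p (nat_lit 359) (nat_lit 2) (.p (nat_lit 363) (nat_lit 1) (.p (nat_lit 366) (nat_lit 2) (.p (nat_lit 367) (nat_lit 2) (.n (nat_lit 369) (nat_lit 2) (.n (nat_lit 370) (nat_lit 1) (.n (nat_lit 374) (nat_lit 3) (.p (nat_lit 375) (nat_lit 1) (.p (nat_lit 381) (nat_lit 2) (.p (nat_lit 382) (nat_lit 2) (.n (nat_lit 383) (nat_lit 1) (.n (nat_lit 384) (nat_lit 1) (.n (nat_lit 385) (nat_lit 2) (.n (nat_lit 386) (nat_lit 2) (.n (nat_lit 387) (nat_lit 2) (.p (nat_lit 388) (nat_lit 2) (.p (nat_lit 390) (nat_lit 3) (.p (nat_lit 392) (nat_lit 2) (.n (nat_lit 394) (nat_lit 3) (.p (nat_lit 395) (nat_lit 2) (.n (nat_lit 396) (nat_lit 2) (.p (nat_lit 399) (nat_lit 1) .z))))))))))))))))))))))))) (.ct dC1d_c548 (nat_lit 1) (nat_lit 18) (.s false (nat_lit 1) (nat_lit 82) (nat_lit 1) (nat_lit 0) (nat_lit 2) true (nat_lit 14) true (nat_lit 17) false (nat_lit 9) true (nat_lit 18) true (nat_lit 19) (.e false (nat_lit 1) (nat_lit 147) (nat_lit 5) (nat_lit 14) (.e false (nat_lit 1) (nat_lit 223) (nat_lit 2) (nat_lit 17) dC1d_i410)))) .leaf)) (nat_lit 295938) (nat_lit 1337) (.n (nat_lit 426) (nat_lit 1) (.p (nat_lit 427) (nat_lit 3) (.n (nat_lit 428) (nat_lit 2) (.n (nat_lit 429) (nat_lit 1) (.n (nat_lit 430) (nat_lit 1) (.p (nat_lit 431) (nat_lit 1) (.p (nat_lit 432) (nat_lit 2) (.p (nat_lit 433) (nat_lit 2) (.p (nat_lit 435) (nat_lit 2) (.p (nat_lit 436) (nat_lit 3) (.p (nat_lit 438) (nat_lit 1) (.p (nat_lit 439) (nat_lit 3) (.p (nat_lit 441) (nat_lit 3) (.n (nat_lit 443) (nat_lit 3) (.p (nat_lit 444) (nat_lit 1) (.p (nat_lit 445) (nat_lit 2) (.n (nat_lit 452) (nat_lit 1) (.p (nat_lit 456) (nat_lit 1) (.p (nat_lit 457) (nat_lit 1) (.p (nat_lit 459) (nat_lit 3) .z)))))))))))))))))))) (.ct dC1d_c533 (nat_lit 1) (nat_lit 13) (.s false (nat_lit 1) (nat_lit 77) (nat_lit 2) (nat_lit 1) (nat_lit 2) true (nat_lit 9) true (nat_lit 13) false (nat_lit 4) true (nat_lit 13) true (nat_lit 14) (.e true (nat_lit 1) (nat_lit 143) (nat_lit 6) (nat_lit 9) (.e false (nat_lit 1) (nat_lit 281) (nat_lit 2) (nat_lit 13) (.e true (nat_lit 1) (nat_lit 77) (nat_lit 16) (nat_lit 4) (.e false (nat_lit 1) (nat_lit 320) (nat_lit 1) (nat_lit 14) (.u (nat_lit 2) (.n (nat_lit 1) (nat_lit 1) (.n (nat_lit 10) (nat_lit 1) (.n (nat_lit 12) (nat_lit 1) .z))) .nil))))))) (.nd (.nd (.nd .leaf (nat_lit 296960) (nat_lit 917) (.p (nat_lit 355) (nat_lit 1) .z) .df .leaf) (nat_lit 296962) (nat_lit 1438) (.n (nat_lit 460) (nat_lit 3) (.n (nat_lit 461) (nat_lit 2) (.n (nat_lit 462) (nat_lit 3) (.n (nat_lit 463) (nat_lit 1) (.n (nat_lit 464) (nat_lit 3) (.n (nat_lit 465) (nat_lit 3) (.p (nat_lit 468) (nat_lit 1) (.p (nat_lit 469) (nat_lit 1) (.n (nat_lit 470) (nat_lit 2) (.p (nat_lit 471) (nat_lit 1) (.n (nat_lit 472) (nat_lit 3) (.p (nat_lit 473) (nat_lit 3) (.p (nat_lit 474) (nat_lit 3) (.n (nat_lit 475) (nat_lit 3) (.n (nat_lit 476) (nat_lit 2) (.p (nat_lit 479) (nat_lit 3) (.n (nat_lit 489) (nat_lit 2) (.p (nat_lit 493) (nat_lit 3) .z)))))))))))))))))) (.ct dC1d_c293 (nat_lit 1) (nat_lit 13) (.s true (nat_lit 1) (nat_lit 6) (nat_lit 3) (nat_lit 6) (nat_lit 5) true (nat_lit 2) true (nat_lit 10) true (nat_lit 9) true (nat_lit 12) true (nat_lit 9) (.s false (nat_lit 3) (nat_lit 10) (nat_lit 1) (nat_lit 6) (nat_lit 6) true (nat_lit 4) true (nat_lit 9) true (nat_lit 7) true (nat_lit 14) true (nat_lit 9) (.s true (nat_lit 1) (nat_lit 11) (nat_lit 1) (nat_lit 6) (nat_lit 6) true (nat_lit 4) true (nat_lit 9) true (nat_lit 7) true (nat_lit 14) true (nat_lit 9) (.s false (nat_lit 3) (nat_lit 10) (nat_lit 2) (nat_lit 6) (nat_lit 5) true (nat_lit 4) true (nat_lit 10) true (nat_lit 7) true (nat_lit 13) true (nat_lit 9) (.s true (nat_lit 1) (nat_lit 10) (nat_lit 5) (nat_lit 2) (nat_lit 6) false (nat_lit 1) true (nat_lit 9) true (nat_lit 7) true (nat_lit 10) true (nat_lit 13) (.s true (nat_lit 2) (nat_lit 10) (nat_lit 6) (nat_lit 2) (nat_lit 5) false (nat_lit 1) true (nat_lit 10) true (nat_lit 7) true (nat_lit 9) true (nat_lit 13) (.s true (nat_lit 2) (nat_lit 11) (nat_lit 6) (nat_lit 2) (nat_lit 5) false (nat_lit 1) true (nat_lit 10) true (nat_lit 7) true (nat_lit 9) true (nat_lit 13) (.s false (nat_lit 2) (nat_lit 11) (nat_lit 6) (nat_lit 5) (nat_lit 2) true (nat_lit 3) true (nat_lit 13) true (nat_lit 7) true (nat_lit 9) true (nat_lit 10) (.s false (nat_lit 3) (nat_lit 10) (nat_lit 6) (nat_lit 6) (nat_lit 1) true (nat_lit 4) true (nat_lit 14) true (nat_lit 7) true (nat_lit 9) true (nat_lit 9) (.s true (nat_lit 2) (nat_lit 11) (nat_lit 6) (nat_lit 6) (nat_lit 1) true (nat_lit 4) true (nat_lit 14) true (nat_lit 7) true (nat_lit 9) true (nat_lit 9) (.s false (nat_lit 1) (nat_lit 12) (nat_lit 6) (nat_lit 6) (nat_lit 1) true (nat_lit 4) true (nat_lit 14) true (nat_lit 7) true (nat_lit 9) true (nat_lit 9) (.s true (nat_lit 1) (nat_lit 13) (nat_lit 4) (nat_lit 6) (nat_lit 2) true (nat_lit 5) true (nat_lit 13) true (nat_lit 6) true (nat_lit 11) true (nat_lit 9) (.s false (nat_lit 1) (nat_lit 16) (nat_lit 0) (nat_lit 2) (nat_lit 16) true (nat_lit 1) true (nat_lit 4) true (nat_lit 4) true (nat_lit 15) true (nat_lit 13) (.s false (nat_lit 3) (nat_lit 16) (nat_lit 0) (nat_lit 16) (nat_lit 2) true (nat_lit 11) true (nat_lit 13) true (nat_lit 4) true (nat_lit 15) true (nat_lit 4) (.s false (nat_lit 2) (nat_lit 16) (nat_lit 2) (nat_lit 2) (nat_lit 11) true (nat_lit 1) true (nat_lit 7) true (nat_lit 4) true (nat_lit 13) true (nat_lit 13) (.s false (nat_lit 2) (nat_lit 16) (nat_lit 2) (nat_lit 5) (nat_lit 4) true (nat_lit 5) true (nat_lit 11) true (nat_lit 4) true (nat_lit 13) true (nat_lit 10) (.s false (nat_lit 1) (nat_lit 16) (nat_lit 2) (nat_lit 14) (nat_lit 1) true (nat_lit 10) true (nat_lit 14) true (nat_lit 4) true (nat_lit 13) true (nat_lit 5) (.s false (nat_lit 2) (nat_lit 16) (nat_lit 6) (nat_lit 1) (nat_lit 4) false (nat_lit 0) true (nat_lit 11) true (nat_lit 4) true (nat_lit 9) true (nat_lit 14) (.s false (nat_lit 3) (nat_lit 16) (nat_lit 10) (nat_lit 2) (nat_lit 2) true (nat_lit 1) true (nat_lit 13) true (nat_lit 4) true (nat_lit 7) true (nat_lit 13) (.s false (nat_lit 2) (nat_lit 16) (nat_lit 14) (nat_lit 2) (nat_lit 1) true (nat_lit 1) true (nat_lit 14) true (nat_lit 4) true (nat_lit 5) true (nat_lit 13) (.s false (nat_lit 1) (nat_lit 17) (nat_lit 14) (nat_lit 2) (nat_lit 1) true (nat_lit 1) true (nat_lit 14) true (nat_lit 4) true (nat_lit 5) true (nat_lit 13) (.s true (nat_lit 1) (nat_lit 18) (nat_lit 0) (nat_lit 16) (nat_lit 1) true (nat_lit 12) true (nat_lit 14) true (nat_lit 3) true (nat_lit 15) true (nat_lit 4) (.s true (nat_lit 3) (nat_lit 18) (nat_lit 1) (nat_lit 0) (nat_lit 16) true (nat_lit 0) true (nat_lit 4) true (nat_lit 3) true (nat_lit 14) true (nat_lit 15) (.s true (nat_lit 3) (nat_lit 18) (nat_lit 1) (nat_lit 1) (nat_lit 15) true (nat_lit 1) true (nat_lit 5) true (nat_lit 3) true (nat_lit 14) true (nat_lit 14) dC1d_i415))))))))))))))))))))))))) .leaf) (nat_lit 297984) (nat_lit 918) (.p (nat_lit 356) (nat_lit 1) .z) .df (.nd (.nd .leaf (nat_lit 297986) (nat_lit 1414) (.p (nat_lit 481) (nat_lit 1) .z) .df .leaf) (nat_lit 299008) (nat_lit 919) (.p (nat_lit 357) (nat_lit 1) .z) .df .leaf))) (nat_lit 299010) (nat_lit 1415) (.p (nat_lit 482) (nat_lit 1) .z) .df (.nd (.nd (.nd (.nd .leaf (nat_lit 300032) (nat_lit 920) (.p (nat_lit 358) (nat_lit 1) .z) .df .leaf) (nat_lit 300034) (nat_lit 1454) (.p (nat_lit 460) (nat_lit 3) (.n (nat_lit 461) (nat_lit 1) (.n (nat_lit 462) (nat_lit 3) (.p (nat_lit 463) (nat_lit 1) (.n (nat_lit 465) (nat_lit 2) (.n (nat_lit 467) (nat_lit 3) (.p (nat_lit 468) (nat_lit 2) (.p (nat_lit 469) (nat_lit 2) (.n (nat_lit 470) (nat_lit 3) (.p (nat_lit 471) (nat_lit 1) (.p (nat_lit 473) (nat_lit 1) (.p (nat_lit 474) (nat_lit 1) (.n (nat_lit 475) (nat_lit 3) (.p (nat_lit 477) (nat_lit 1) (.n (nat_lit 481) (nat_lit 1) (.p (nat_lit 482) (nat_lit 1) .z)))))))))))))))) (.ct dC1d_c293 (nat_lit 1) (nat_lit 13) (.s false (nat_lit 2) (nat_lit 10) (nat_lit 1) (nat_lit 6) (nat_lit 6) true (nat_lit 4) true (nat_lit 9) true (nat_lit 7) true (nat_lit 14) true (nat_lit 9) (.s true (nat_lit 2) (nat_lit 10) (nat_lit 6) (nat_lit 6) (nat_lit 1) true (nat_lit 4) true (nat_lit 14) true (nat_lit 7) true (nat_lit 9) true (nat_lit 9) (.s true (nat_lit 3) (nat_lit 16) (nat_lit 2) (nat_lit 2) (nat_lit 10) true (nat_lit 1) true (nat_lit 7) true (nat_lit 4) true (nat_lit 13) true (nat_lit 13) (.s true (nat_lit 3) (nat_lit 17) (nat_lit 2) (nat_lit 2) (nat_lit 10) true (nat_lit 1) true (nat_lit 7) true (nat_lit 4) true (nat_lit 13) true (nat_lit 13) (.s true (nat_lit 3) (nat_lit 16) (nat_lit 2) (nat_lit 10) (nat_lit 2) true (nat_lit 9) true (nat_lit 13) true (nat_lit 4) true (nat_lit 13) true (nat_lit 7) (.s true (nat_lit 2) (nat_lit 18) (nat_lit 1) (nat_lit 2) (nat_lit 10) true (nat_lit 2) true (nat_lit 7) true (nat_lit 3) true (nat_lit 14) true (nat_lit 13) (.s false (nat_lit 3) (nat_lit 18) (nat_lit 1) (nat_lit 6) (nat_lit 3) true (nat_lit 8) true (nat_lit 12) true (nat_lit 3) true (nat_lit 14) true (nat_lit 9) (.s false (nat_lit 1) (nat_lit 18) (nat_lit 2) (nat_lit 1) (nat_lit 10) true (nat_lit 1) true (nat_lit 7) true (nat_lit 3) true (nat_lit 13) true (nat_lit 14) (.s false (nat_lit 3) (nat_lit 18) (nat_lit 2) (nat_lit 2) (nat_lit 8) true (nat_lit 2) true (nat_lit 8) true (nat_lit 3) true (nat_lit 13) true (nat_lit 13) (.s true (nat_lit 3) (nat_lit 18) (nat_lit 2) (nat_lit 3) (nat_lit 5) true (nat_lit 4) true (nat_lit 10) true (nat_lit 3) true (nat_lit 13) true (nat_lit 12) (.s false (nat_lit 1) (nat_lit 18) (nat_lit 10) (nat_lit 2) (nat_lit 1) true (nat_lit 2) true (nat_lit 14) true (nat_lit 3) true (nat_lit 7) true (nat_lit 13) (.s false (nat_lit 1) (nat_lit 24) (nat_lit 2) (nat_lit 2) (nat_lit 6) true (nat_lit 3) true (nat_lit 9) true (nat_lit 2) true (nat_lit 13) true (nat_lit 13) (.s false (nat_lit 3) (nat_lit 26) (nat_lit 2) (nat_lit 2) (nat_lit 6) true (nat_lit 3) true (nat_lit 9) true (nat_lit 2) true (nat_lit 13) true (nat_lit 13) (.s true (nat_lit 3) (nat_lit 27) (nat_lit 2) (nat_lit 2) (nat_lit 6) true (nat_lit 3) true (nat_lit 9) true (nat_lit 2) true (nat_lit 13) true (nat_lit 13) (.s true (nat_lit 2) (nat_lit 25) (nat_lit 2) (nat_lit 6) (nat_lit 2) true (nat_lit 9) true (nat_lit 13) true (nat_lit 2) true (nat_lit 13) true (nat_lit 9) (.s false (nat_lit 1) (nat_lit 31) (nat_lit 1) (nat_lit 2) (nat_lit 6) true (nat_lit 4) true (nat_lit 9) true (nat_lit 1) true (nat_lit 14) true (nat_lit 13) (.s true (nat_lit 2) (nat_lit 31) (nat_lit 1) (nat_lit 6) (nat_lit 2) true (nat_lit 10) true (nat_lit 13) true (nat_lit 1) true (nat_lit 14) true (nat_lit 9) (.s true (nat_lit 2) (nat_lit 31) (nat_lit 2) (nat_lit 2) (nat_lit 5) true (nat_lit 4) true (nat_lit 10) true (nat_lit 1) true (nat_lit 13) true (nat_lit 13) (.s false (nat_lit 3) (nat_lit 31) (nat_lit 5) (nat_lit 2) (nat_lit 2) true (nat_lit 4) true (nat_lit 13) true (nat_lit 1) true (nat_lit 10) true (nat_lit 13) (.s true (nat_lit 3) (nat_lit 46) (nat_lit 0) (nat_lit 5) (nat_lit 1) true (nat_lit 12) true (nat_lit 14) false (nat_lit 2) true (nat_lit 15) true (nat_lit 10) (.s true (nat_lit 3) (nat_lit 46) (nat_lit 1) (nat_lit 0) (nat_lit 5) true (nat_lit 6) true (nat_lit 10) false (nat_lit 2) true (nat_lit 14) true (nat_lit 15) dC1d_i417)))))))))))))))))))))) .leaf) (nat_lit 301056) (nat_lit 921) (.p (nat_lit 359) (nat_lit 1) .z) .df (.nd (.nd .leaf (nat_lit 301058) (nat_lit 1416) (.p (nat_lit 483) (nat_lit 1) .z) .df .leaf) (nat_lit 302080) (nat_lit 922) (.p (nat_lit 360) (nat_lit 1) .z) .df .leaf)) (nat_lit 302082) (nat_lit 1417) (.p (nat_lit 484) (nat_lit 1) .z) .df (.nd (.nd (.nd .leaf (nat_lit 303104) (nat_lit 923) (.p (nat_lit 361) (nat_lit 1) .z) .df .leaf) (nat_lit 303106) (nat_lit 1418) (.p (nat_lit 485) (nat_lit 1) .z) .df .leaf) (nat_lit 304128) (nat_lit 924) (.p (nat_lit 362) (nat_lit 1) .z) .df (.nd (.nd .leaf (nat_lit 304130) (nat_lit 1491) (.p (nat_lit 461) (nat_lit 3) (.p (nat_lit 465) (nat_lit 2) (.p (nat_lit 467) (nat_lit 3) (.n (nat_lit 468) (nat_lit 1) (.p (nat_lit 470) (nat_lit 3) (.p (nat_lit 471) (nat_lit 1) (.n (nat_lit 472) (nat_lit 1) (.p (nat_lit 473) (nat_lit 3) (.p (nat_lit 474) (nat_lit 3) (.n (nat_lit 476) (nat_lit 3) (.n (nat_lit 477) (nat_lit 3) (.n (nat_lit 479) (nat_lit 2) (.n (nat_lit 481) (nat_lit 2) (.p (nat_lit 482) (nat_lit 2) (.n (nat_lit 484) (nat_lit 2) (.p (nat_lit 485) (nat_lit 1) (.p (nat_lit 489) (nat_lit 2) (.p (nat_lit 493) (nat_lit 1) .z)))))))))))))))))) (.ct dC1d_c293 (nat_lit 1) (nat_lit 13) (.s true (nat_lit 3) (nat_lit 11) (nat_lit 1) (nat_lit 6) (nat_lit 6) true (nat_lit 4) true (nat_lit 9) true (nat_lit 7) true (nat_lit 14) true (nat_lit 9) (.s false (nat_lit 1) (nat_lit 11) (nat_lit 2) (nat_lit 5) (nat_lit 6) true (nat_lit 3) true (nat_lit 9) true (nat_lit 7) true (nat_lit 13) true (nat_lit 10) (.s false (nat_lit 2) (nat_lit 18) (nat_lit 2) (nat_lit 11) (nat_lit 1) true (nat_lit 10) true (nat_lit 14) true (nat_lit 3) true (nat_lit 13) true (nat_lit 7) (.s false (nat_lit 1) (nat_lit 18) (nat_lit 3) (nat_lit 2) (nat_lit 5) true (nat_lit 2) true (nat_lit 10) true (nat_lit 3) true (nat_lit 12) true (nat_lit 13) (.s false (nat_lit 1) (nat_lit 27) (nat_lit 2) (nat_lit 6) (nat_lit 2) true (nat_lit 9) true (nat_lit 13) true (nat_lit 2) true (nat_lit 13) true (nat_lit 9) (.s true (nat_lit 1) (nat_lit 46) (nat_lit 4) (nat_lit 1) (nat_lit 1) true (nat_lit 7) true (nat_lit 14) false (nat_lit 2) true (nat_lit 11) true (nat_lit 14) (.s false (nat_lit 2) (nat_lit 71) (nat_lit 2) (nat_lit 2) (nat_lit 2) true (nat_lit 9) true (nat_lit 13) false (nat_lit 3) true (nat_lit 13) true (nat_lit 13) (.s true (nat_lit 1) (nat_lit 76) (nat_lit 2) (nat_lit 2) (nat_lit 2) true (nat_lit 9) true (nat_lit 13) false (nat_lit 3) true (nat_lit 13) true (nat_lit 13) (.s true (nat_lit 3) (nat_lit 91) (nat_lit 1) (nat_lit 2) (nat_lit 2) true (nat_lit 10) true (nat_lit 13) false (nat_lit 4) true (nat_lit 14) true (nat_lit 13) (.s true (nat_lit 1) (nat_lit 83) (nat_lit 2) (nat_lit 1) (nat_lit 2) true (nat_lit 9) true (nat_lit 13) false (nat_lit 4) true (nat_lit 13) true (nat_lit 14) (.s true (nat_lit 3) (nat_lit 91) (nat_lit 2) (nat_lit 1) (nat_lit 2) true (nat_lit 9) true (nat_lit 13) false (nat_lit 4) true (nat_lit 13) true (nat_lit 14) (.s true (nat_lit 3) (nat_lit 91) (nat_lit 2) (nat_lit 2) (nat_lit 1) true (nat_lit 10) true (nat_lit 14) false (nat_lit 4) true (nat_lit 13) true (nat_lit 13) (.s false (nat_lit 3) (nat_lit 104) (nat_lit 0) (nat_lit 2) (nat_lit 1) true (nat_lit 12) true (nat_lit 14) false (nat_lit 7) true (nat_lit 15) true (nat_lit 13) (.e true (nat_lit 3) (nat_lit 172) (nat_lit 6) (nat_lit 9) (.e false (nat_lit 3) (nat_lit 290) (nat_lit 2) (nat_lit 13) (.e false (nat_lit 2) (nat_lit 291) (nat_lit 2) (nat_lit 13) (.e true (nat_lit 3) (nat_lit 292) (nat_lit 2) (nat_lit 13) (.e true (nat_lit 2) (nat_lit 293) (nat_lit 2) (nat_lit 13) (.e true (nat_lit 2) (nat_lit 294) (nat_lit 2) (nat_lit 13) (.e true (nat_lit 2) (nat_lit 295) (nat_lit 2) (nat_lit 13) (.e false (nat_lit 1) (nat_lit 296) (nat_lit 2) (nat_lit 13) (.e true (nat_lit 2) (nat_lit 299) (nat_lit 2) (nat_lit 13) (.e false (nat_lit 1) (nat_lit 302) (nat_lit 2) (nat_lit 13) (.e false (nat_lit 1) (nat_lit 307) (nat_lit 2) (nat_lit 13) dC1d_i419))))))))))))))))))))))))) .leaf) (nat_lit 305152) (nat_lit 925) (.p (nat_lit 363) (nat_lit 1) .z) .df .leaf))))))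

noncomputable def dC1d_t4 : Tr := (.nd (.nd (.nd (.nd (.nd (.nd (.nd .leaf (nat_lit 306176) (nat_lit 926) (.p (nat_lit 364) (nat_lit 1) .z) .df .leaf) (nat_lit 306178) (nat_lit 1455) (.n (nat_lit 460) (nat_lit 3) (.p (nat_lit 461) (nat_lit 3) (.n (nat_lit 463) (nat_lit 1) (.p (nat_lit 464) (nat_lit 2) (.p (nat_lit 465) (nat_lit 3) (.p (nat_lit 467) (nat_lit 2) (.n (nat_lit 468) (nat_lit 2) (.p (nat_lit 469) (nat_lit 3) (.n (nat_lit 470) (nat_lit 3) (.p (nat_lit 471) (nat_lit 3) (.p (nat_lit 472) (nat_lit 1) (.p (nat_lit 473) (nat_lit 3) (.p (nat_lit 474) (nat_lit 3) (.p (nat_lit 475) (nat_lit 2) (.p (nat_lit 476) (nat_lit 2) (.p (nat_lit 477) (nat_lit 3) (.n (nat_lit 481) (nat_lit 1) (.p (nat_lit 483) (nat_lit 1) (.p (nat_lit 489) (nat_lit 3) (.p (nat_lit 493) (nat_lit 2) .z)))))))))))))))))))) (.ct dC1d_c293 (nat_lit 1) (nat_lit 13) (.s false (nat_lit 3) (nat_lit 10) (nat_lit 1) (nat_lit 6) (nat_lit 6) true (nat_lit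 4) true (nat_lit 9) true (nat_lit 7) true (nat_lit 14) true (nat_lit 9) (.s true (nat_lit 3) (nat_lit 10) (nat_lit 6) (nat_lit 5) (nat_lit 2) true (nat_lit 3) true (nat_lit 13) true (nat_lit 7) true (nat_lit 9) true (nat_lit 10) (.s false (nat_lit 1) (nat_lit 17) (nat_lit 2) (nat_lit 2) (nat_lit 10) true (nat_lit 1) true (nat_lit 7) true (nat_lit 4) true (nat_lit 13) true (nat_lit 13) (.s false (nat_lit 1) (nat_lit 17) (nat_lit 3) (nat_lit 6) (nat_lit 2) true (nat_lit 7) true (nat_lit 13) true (nat_lit 4) true (nat_lit 12) true (nat_lit 9) (.s false (nat_lit 1) (nat_lit 17) (nat_lit 6) (nat_lit 3) (nat_lit 2) true (nat_lit 3) true (nat_lit 13) true (nat_lit 4) true (nat_lit 9) true (nat_lit 12) (.s true (nat_lit 2) (nat_lit 17) (nat_lit 10) (nat_lit 2) (nat_lit 2) true (nat_lit 1) true (nat_lit 13) true (nat_lit 4) true (nat_lit 7) true (nat_lit 13) (.s true (nat_lit 2) (nat_lit 18) (nat_lit 1) (nat_lit 2) (nat_lit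 10) true (nat_lit 2) true (nat_lit 7) true (nat_lit 3) true (nat_lit 14) true (nat_lit 13) (.s true (nat_lit 3) (nat_lit 18) (nat_lit 1) (nat_lit 3) (nat_lit 6) true (nat_lit 4) true (nat_lit 9) true (nat_lit 3) true (nat_lit 14) true (nat_lit 12) (.s false (nat_lit 2) (nat_lit 18) (nat_lit 2) (nat_lit 1) (nat_lit 10) true (nat_lit 1) true (nat_lit 7) true (nat_lit 3) true (nat_lit 13) true (nat_lit 14) (.s false (nat_lit 2) (nat_lit 18) (nat_lit 10) (nat_lit 2) (nat_lit 1) true (nat_lit 2) true (nat_lit 14) true (nat_lit 3) true (nat_lit 7) true (nat_lit 13) (.s true (nat_lit 2) (nat_lit 24) (nat_lit 2) (nat_lit 2) (nat_lit 6) true (nat_lit 3) true (nat_lit 9) true (nat_lit 2) true (nat_lit 13) true (nat_lit 13) (.s false (nat_lit 1) (nat_lit 26) (nat_lit 2) (nat_lit 2) (nat_lit 6) true (nat_lit 3) true (nat_lit 9) true (nat_lit 2) true (nat_lit 13) true (nat_lit 13) (.s true (nat_lit 1) (nat_lit 27) (nat_lit 2)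 (nat_lit 2) (nat_lit 6) true (nat_lit 3) true (nat_lit 9) true (nat_lit 2) true (nat_lit 13) true (nat_lit 13) (.s false (nat_lit 2) (nat_lit 25) (nat_lit 2) (nat_lit 6) (nat_lit 2) true (nat_lit 9) true (nat_lit 13) true (nat_lit 2) true (nat_lit 13) true (nat_lit 9) (.s false (nat_lit 3) (nat_lit 31) (nat_lit 1) (nat_lit 2) (nat_lit 6) true (nat_lit 4) true (nat_lit 9) true (nat_lit 1) true (nat_lit 14) true (nat_lit 13) dC1d_i425)))))))))))))))) (.nd .leaf (nat_lit 307200) (nat_lit 927) (.p (nat_lit 365) (nat_lit 1) .z) .df .leaf)) (nat_lit 307202) (nat_lit 1516) (.p (nat_lit 460) (nat_lit 1) (.n (nat_lit 463) (nat_lit 2) (.n (nat_lit 464) (nat_lit 1) (.p (nat_lit 465) (nat_lit 1) (.p (nat_lit 467) (nat_lit 1) (.n (nat_lit 468) (nat_lit 3) (.p (nat_lit 469) (nat_lit 3) (.n (nat_lit 470) (nat_lit 1) (.n (nat_lit 471) (nat_lit 1) (.p (nat_lit 473) (nat_lit 3) (.p (nat_lit 474) (nat_lit 3) (.p (nat_lit 475) (nat_lit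 3) (.p (nat_lit 476) (nat_lit 1) (.n (nat_lit 477) (nat_lit 3) (.n (nat_lit 479) (nat_lit 3) (.n (nat_lit 482) (nat_lit 1) (.p (nat_lit 484) (nat_lit 1) (.p (nat_lit 489) (nat_lit 1) (.p (nat_lit 493) (nat_lit 3) .z))))))))))))))))))) (.ct dC1d_c293 (nat_lit 1) (nat_lit 13) (.s true (nat_lit 1) (nat_lit 45) (nat_lit 0) (nat_lit 2) (nat_lit 5) true (nat_lit 7) true (nat_lit 10) false (nat_lit 1) true (nat_lit 15) true (nat_lit 13) (.e true (nat_lit 1) (nat_lit 104) (nat_lit 12) (nat_lit 7) (.e true (nat_lit 2) (nat_lit 182) (nat_lit 5) (nat_lit 10) (.e false (nat_lit 1) (nat_lit 184) (nat_lit 5) (nat_lit 10) (.e true (nat_lit 2) (nat_lit 185) (nat_lit 5) (nat_lit 10) (.e true (nat_lit 1) (nat_lit 188) (nat_lit 5) (nat_lit 10) (.e false (nat_lit 1) (nat_lit 190) (nat_lit 5) (nat_lit 10) (.e false (nat_lit 1) (nat_lit 45) (nat_lit 31) (nat_lit 1) (.e false (nat_lit 1) (nat_lit 45) (nat_lit 32) (nat_lit 1) (.e true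 (nat_lit 1) (nat_lit 45) (nat_lit 35) (nat_lit 1) dC1d_i426))))))))))) (.nd (.nd .leaf (nat_lit 308224) (nat_lit 928) (.p (nat_lit 366) (nat_lit 1) .z) .df .leaf) (nat_lit 308226) (nat_lit 1419) (.p (nat_lit 486) (nat_lit 1) .z) .df .leaf)) (nat_lit 309248) (nat_lit 929) (.p (nat_lit 367) (nat_lit 1) .z) .df (.nd (.nd (.nd .leaf (nat_lit 309250) (nat_lit 1420) (.p (nat_lit 487) (nat_lit 1) .z) .df .leaf) (nat_lit 310272) (nat_lit 930) (.p (nat_lit 368) (nat_lit 1) .z) .df .leaf) (nat_lit 310274) (nat_lit 1421) (.p (nat_lit 488) (nat_lit 1) .z) .df (.nd (.nd .leaf (nat_lit 311296) (nat_lit 931) (.p (nat_lit 369) (nat_lit 1) .z) .df .leaf) (nat_lit 311298) (nat_lit 1456) (.n (nat_lit 460) (nat_lit 3) (.n (nat_lit 462) (nat_lit 2) (.n (nat_lit 463) (nat_lit 1) (.p (nat_lit 464) (nat_lit 1) (.p (nat_lit 467) (nat_lit 2) (.n (nat_lit 468) (nat_lit 1) (.n (nat_lit 469) (nat_lit 3) (.p (nat_lit 470) (nat_lit 2) (.p (nat_lit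 472) (nat_lit 2) (.p (nat_lit 473) (nat_lit 3) (.p (nat_lit 474) (nat_lit 3) (.n (nat_lit 475) (nat_lit 3) (.n (nat_lit 476) (nat_lit 1) (.n (nat_lit 477) (nat_lit 3) (.p (nat_lit 479) (nat_lit 1) (.p (nat_lit 486) (nat_lit 2) (.n (nat_lit 489) (nat_lit 1) (.n (nat_lit 493) (nat_lit 3) .z)))))))))))))))))) (.ct dC1d_c293 (nat_lit 1) (nat_lit 13) (.s false (nat_lit 1) (nat_lit 10) (nat_lit 6) (nat_lit 1) (nat_lit 6) false (nat_lit 2) true (nat_lit 9) true (nat_lit 7) true (nat_lit 9) true (nat_lit 14) (.s false (nat_lit 2) (nat_lit 10) (nat_lit 6) (nat_lit 5) (nat_lit 2) true (nat_lit 3) true (nat_lit 13) true (nat_lit 7) true (nat_lit 9) true (nat_lit 10) (.s true (nat_lit 2) (nat_lit 16) (nat_lit 2) (nat_lit 2) (nat_lit 10) true (nat_lit 1) true (nat_lit 7) true (nat_lit 4) true (nat_lit 13) true (nat_lit 13) (.s true (nat_lit 2) (nat_lit 16) (nat_lit 2) (nat_lit 10) (nat_lit 2) true (nat_lit 9) true (nat_lit 13)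 true (nat_lit 4) true (nat_lit 13) true (nat_lit 7) (.s false (nat_lit 1) (nat_lit 18) (nat_lit 1) (nat_lit 6) (nat_lit 3) true (nat_lit 8) true (nat_lit 12) true (nat_lit 3) true (nat_lit 14) true (nat_lit 9) (.s false (nat_lit 1) (nat_lit 18) (nat_lit 2) (nat_lit 2) (nat_lit 8) true (nat_lit 2) true (nat_lit 8) true (nat_lit 3) true (nat_lit 13) true (nat_lit 13) (.s true (nat_lit 2) (nat_lit 24) (nat_lit 2) (nat_lit 2) (nat_lit 6) true (nat_lit 3) true (nat_lit 9) true (nat_lit 2) true (nat_lit 13) true (nat_lit 13) (.s false (nat_lit 1) (nat_lit 26) (nat_lit 2) (nat_lit 2) (nat_lit 6) true (nat_lit 3) true (nat_lit 9) true (nat_lit 2) true (nat_lit 13) true (nat_lit 13) (.s true (nat_lit 1) (nat_lit 27) (nat_lit 2) (nat_lit 2) (nat_lit 6) true (nat_lit 3) true (nat_lit 9) true (nat_lit 2) true (nat_lit 13) true (nat_lit 13) (.s false (nat_lit 2) (nat_lit 31) (nat_lit 5) (nat_lit 2) (nat_lit 2) true (nat_lit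 4) true (nat_lit 13) true (nat_lit 1) true (nat_lit 10) true (nat_lit 13) dC1d_i427))))))))))) .leaf))) (nat_lit 312320) (nat_lit 932) (.p (nat_lit 370) (nat_lit 1) .z) .df (.nd (.nd (.nd (.nd .leaf (nat_lit 312322) (nat_lit 1521) (.n (nat_lit 460) (nat_lit 3) (.p (nat_lit 461) (nat_lit 2) (.n (nat_lit 462) (nat_lit 3) (.n (nat_lit 463) (nat_lit 1) (.p (nat_lit 464) (nat_lit 1) (.p (nat_lit 467) (nat_lit 3) (.p (nat_lit 468) (nat_lit 3) (.p (nat_lit 469) (nat_lit 2) (.n (nat_lit 470) (nat_lit 2) (.n (nat_lit 471) (nat_lit 3) (.p (nat_lit 472) (nat_lit 3) (.n (nat_lit 473) (nat_lit 2) (.n (nat_lit 474) (nat_lit 2) (.p (nat_lit 475) (nat_lit 3) (.n (nat_lit 476) (nat_lit 1) (.p (nat_lit 477) (nat_lit 3) (.p (nat_lit 487) (nat_lit 2) (.p (nat_lit 489) (nat_lit 2) (.n (nat_lit 493) (nat_lit 1) .z))))))))))))))))))) (.ct dC1d_c293 (nat_lit 1) (nat_lit 13) dC1d_i428) .leaf) (nat_lit 313344) (nat_lit 933) (.p (nat_lit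 371) (nat_lit 1) .z) .df .leaf) (nat_lit 313346) (nat_lit 1547) (.p (nat_lit 460) (nat_lit 1) (.p (nat_lit 461) (nat_lit 2) (.n (nat_lit 462) (nat_lit 1) (.n (nat_lit 463) (nat_lit 1) (.n (nat_lit 464) (nat_lit 2) (.p (nat_lit 465) (nat_lit 3) (.n (nat_lit 467) (nat_lit 1) (.p (nat_lit 468) (nat_lit 2) (.p (nat_lit 469) (nat_lit 2) (.p (nat_lit 470) (nat_lit 3) (.p (nat_lit 471) (nat_lit 1) (.n (nat_lit 472) (nat_lit 2) (.n (nat_lit 473) (nat_lit 3) (.n (nat_lit 474) (nat_lit 3) (.p (nat_lit 475) (nat_lit 2) (.n (nat_lit 476) (nat_lit 2) (.p (nat_lit 477) (nat_lit 3) (.n (nat_lit 478) (nat_lit 3) (.p (nat_lit 479) (nat_lit 2) (.p (nat_lit 480) (nat_lit 3) (.n (nat_lit 481) (nat_lit 1) (.n (nat_lit 482) (nat_lit 3) (.n (nat_lit 489) (nat_lit 2) (.n (nat_lit 492) (nat_lit 3) (.p (nat_lit 493) (nat_lit 2) .z))))))))))))))))))))))))) (.ct dC1d_c293 (nat_lit 1) (nat_lit 13) dC1d_i429) (.nd (.nd .leaf (nat_lit 314368)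 (nat_lit 934) (.p (nat_lit 372) (nat_lit 1) .z) .df .leaf) (nat_lit 314370) (nat_lit 1422) (.p (nat_lit 489) (nat_lit 1) .z) .df .leaf)) (nat_lit 315392) (nat_lit 935) (.p (nat_lit 373) (nat_lit 1) .z) .df (.nd (.nd (.nd .leaf (nat_lit 315394) (nat_lit 1448) (.n (nat_lit 460) (nat_lit 3) (.p (nat_lit 461) (nat_lit 3) (.n (nat_lit 462) (nat_lit 1) (.n (nat_lit 463) (nat_lit 1) (.n (nat_lit 464) (nat_lit 2) (.n (nat_lit 465) (nat_lit 1) (.n (nat_lit 468) (nat_lit 1) (.n (nat_lit 469) (nat_lit 2) (.p (nat_lit 471) (nat_lit 2) (.n (nat_lit 472) (nat_lit 3) (.n (nat_lit 473) (nat_lit 1) (.n (nat_lit 474) (nat_lit 1) (.n (nat_lit 475) (nat_lit 2) (.p (nat_lit 476) (nat_lit 2) (.p (nat_lit 477) (nat_lit 1) (.n (nat_lit 479) (nat_lit 1) (.p (nat_lit 481) (nat_lit 2) (.p (nat_lit 489) (nat_lit 1) (.p (nat_lit 493) (nat_lit 3) .z))))))))))))))))))) (.ct dC1d_c293 (nat_lit 1) (nat_lit 13) (.s false (nat_lit 1) (nat_lit 10)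 (nat_lit 1) (nat_lit 6) (nat_lit 6) true (nat_lit 4) true (nat_lit 9) true (nat_lit 7) true (nat_lit 14) true (nat_lit 9) (.s true (nat_lit 2) (nat_lit 11) (nat_lit 1) (nat_lit 6) (nat_lit 6) true (nat_lit 4) true (nat_lit 9) true (nat_lit 7) true (nat_lit 14) true (nat_lit 9) (.s true (nat_lit 2) (nat_lit 10) (nat_lit 2) (nat_lit 6) (nat_lit 5) true (nat_lit 4) true (nat_lit 10) true (nat_lit 7) true (nat_lit 13) true (nat_lit 9) (.s false (nat_lit 3) (nat_lit 11) (nat_lit 5) (nat_lit 6) (nat_lit 2) true (nat_lit 4) true (nat_lit 13) true (nat_lit 7) true (nat_lit 10) true (nat_lit 9) (.s false (nat_lit 1) (nat_lit 10) (nat_lit 6) (nat_lit 6) (nat_lit 1) true (nat_lit 4) true (nat_lit 14) true (nat_lit 7) true (nat_lit 9) true (nat_lit 9) (.s false (nat_lit 3) (nat_lit 11) (nat_lit 6) (nat_lit 6) (nat_lit 1) true (nat_lit 4) true (nat_lit 14) true (nat_lit 7) true (nat_lit 9) true (nat_lit 9) (.s true (nat_lit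 1) (nat_lit 13) (nat_lit 6) (nat_lit 2) (nat_lit 4) false (nat_lit 0) true (nat_lit 11) true (nat_lit 6) true (nat_lit 9) true (nat_lit 13) (.s true (nat_lit 1) (nat_lit 16) (nat_lit 2) (nat_lit 2) (nat_lit 10) true (nat_lit 1) true (nat_lit 7) true (nat_lit 4) true (nat_lit 13) true (nat_lit 13) (.s false (nat_lit 2) (nat_lit 16) (nat_lit 2) (nat_lit 2) (nat_lit 11) true (nat_lit 1) true (nat_lit 7) true (nat_lit 4) true (nat_lit 13) true (nat_lit 13) (.s false (nat_lit 2) (nat_lit 16) (nat_lit 2) (nat_lit 11) (nat_lit 2) true (nat_lit 9) true (nat_lit 13) true (nat_lit 4) true (nat_lit 13) true (nat_lit 7) (.s false (nat_lit 3) (nat_lit 17) (nat_lit 3) (nat_lit 6) (nat_lit 2) true (nat_lit 7) true (nat_lit 13) true (nat_lit 4) true (nat_lit 12) true (nat_lit 9) (.s true (nat_lit 1) (nat_lit 16) (nat_lit 10) (nat_lit 2) (nat_lit 2) true (nat_lit 1) true (nat_lit 13) true (nat_lit 4) true (nat_lit 7) true (nat_lit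 13) dC1d_i433))))))))))))) .leaf) (nat_lit 316416) (nat_lit 936) (.p (nat_lit 374) (nat_lit 1) .z) .df .leaf) (nat_lit 316418) (nat_lit 1445) (.p (nat_lit 460) (nat_lit 2) (.n (nat_lit 461) (nat_lit 1) (.n (nat_lit 462) (nat_lit 2) (.p (nat_lit 463) (nat_lit 3) (.n (nat_lit 464) (nat_lit 1) (.n (nat_lit 465) (nat_lit 3) (.p (nat_lit 467) (nat_lit 1) (.p (nat_lit 468) (nat_lit 2) (.n (nat_lit 469) (nat_lit 2) (.n (nat_lit 470) (nat_lit 3) (.n (nat_lit 471) (nat_lit 1) (.p (nat_lit 472) (nat_lit 2) (.p (nat_lit 473) (nat_lit 3) (.p (nat_lit 474) (nat_lit 3) (.n (nat_lit 475) (nat_lit 2) (.n (nat_lit 477) (nat_lit 3) (.n (nat_lit 479) (nat_lit 2) (.p (nat_lit 482) (nat_lit 2) (.n (nat_lit 489) (nat_lit 1) (.n (nat_lit 493) (nat_lit 3) .z)))))))))))))))))))) (.ct dC1d_c293 (nat_lit 1) (nat_lit 13) (.s false (nat_lit 3) (nat_lit 6) (nat_lit 5) (nat_lit 3) (nat_lit 6) false (nat_lit 1) true (nat_lit 9) true (nat_lit 9)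 true (nat_lit 10) true (nat_lit 12) dC1d_i438)) (.nd (.nd .leaf (nat_lit 317440) (nat_lit 937) (.p (nat_lit 375) (nat_lit 1) .z) .df .leaf) (nat_lit 317442) (nat_lit 1437) (.p (nat_lit 460) (nat_lit 3) (.p (nat_lit 461) (nat_lit 3) (.p (nat_lit 462) (nat_lit 2) (.p (nat_lit 463) (nat_lit 1) (.n (nat_lit 464) (nat_lit 1) (.p (nat_lit 465) (nat_lit 2) (.p (nat_lit 467) (nat_lit 3) (.p (nat_lit 468) (nat_lit 2) (.n (nat_lit 470) (nat_lit 2) (.n (nat_lit 471) (nat_lit 1) (.n (nat_lit 473) (nat_lit 3) (.n (nat_lit 474) (nat_lit 3) (.n (nat_lit 475) (nat_lit 3) (.n (nat_lit 479) (nat_lit 3) (.n (nat_lit 481) (nat_lit 2) (.n (nat_lit 483) (nat_lit 2) (.p (nat_lit 486) (nat_lit 2) (.n (nat_lit 489) (nat_lit 2) (.n (nat_lit 493) (nat_lit 2) .z))))))))))))))))))) (.ct dC1d_c293 (nat_lit 1) (nat_lit 13) (.s true (nat_lit 3) (nat_lit 6) (nat_lit 3) (nat_lit 6) (nat_lit 5) true (nat_lit 2) true (nat_lit 10) true (nat_lit 9)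 true (nat_lit 12) true (nat_lit 9) (.s false (nat_lit 1) (nat_lit 10) (nat_lit 1) (nat_lit 6) (nat_lit 6) true (nat_lit 4) true (nat_lit 9) true (nat_lit 7) true (nat_lit 14) true (nat_lit 9) (.s true (nat_lit 3) (nat_lit 11) (nat_lit 1) (nat_lit 6) (nat_lit 6) true (nat_lit 4) true (nat_lit 9) true (nat_lit 7) true (nat_lit 14) true (nat_lit 9) dC1d_i444)))) .leaf)))) (nat_lit 318464) (nat_lit 938) (.p (nat_lit 376) (nat_lit 1) .z) .df (.nd (.nd (.nd (.nd (.nd .leaf (nat_lit 318466) (nat_lit 1452) (.n (nat_lit 460) (nat_lit 1) (.p (nat_lit 462) (nat_lit 3) (.p (nat_lit 463) (nat_lit 2) (.p (nat_lit 464) (nat_lit 3) (.n (nat_lit 465) (nat_lit 1) (.n (nat_lit 466) (nat_lit 3) (.n (nat_lit 467) (nat_lit 2) (.n (nat_lit 468) (nat_lit 1) (.p (nat_lit 469) (nat_lit 2) (.p (nat_lit 470) (nat_lit 1) (.p (nat_lit 472) (nat_lit 2) (.n (nat_lit 473) (nat_lit 3) (.p (nat_lit 474) (nat_lit 2) (.n (nat_lit 475) (nat_lit 2) (.p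 (nat_lit 476) (nat_lit 1) (.p (nat_lit 478) (nat_lit 1) (.n (nat_lit 479) (nat_lit 3) (.n (nat_lit 480) (nat_lit 1) (.p (nat_lit 481) (nat_lit 1) (.p (nat_lit 483) (nat_lit 2) (.n (nat_lit 486) (nat_lit 2) (.p (nat_lit 489) (nat_lit 1) (.p (nat_lit 493) (nat_lit 1) .z))))))))))))))))))))))) (.ct dC1d_c293 (nat_lit 1) (nat_lit 13) dC1d_i448) .leaf) (nat_lit 319488) (nat_lit 939) (.p (nat_lit 377) (nat_lit 1) .z) .df .leaf) (nat_lit 319490) (nat_lit 1423) (.p (nat_lit 490) (nat_lit 1) .z) .df (.nd (.nd .leaf (nat_lit 320512) (nat_lit 940) (.p (nat_lit 378) (nat_lit 1) .z) .df .leaf) (nat_lit 320514) (nat_lit 1525) (.p (nat_lit 460) (nat_lit 3) (.p (nat_lit 461) (nat_lit 2) (.p (nat_lit 462) (nat_lit 1) (.p (nat_lit 463) (nat_lit 1) (.p (nat_lit 464) (nat_lit 3) (.n (nat_lit 467) (nat_lit 3) (.p (nat_lit 468) (nat_lit 3) (.p (nat_lit 469) (nat_lit 1) (.p (nat_lit 471) (nat_lit 2) (.n (nat_lit 472) (nat_lit 3) (.n (nat_lit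 474) (nat_lit 1) (.n (nat_lit 476) (nat_lit 1) (.n (nat_lit 478) (nat_lit 3) (.p (nat_lit 479) (nat_lit 3) (.p (nat_lit 480) (nat_lit 3) (.n (nat_lit 482) (nat_lit 3) (.p (nat_lit 483) (nat_lit 1) (.n (nat_lit 487) (nat_lit 1) (.n (nat_lit 489) (nat_lit 3) (.p (nat_lit 492) (nat_lit 3) (.n (nat_lit 493) (nat_lit 3) .z))))))))))))))))))))) (.ct dC1d_c293 (nat_lit 1) (nat_lit 13) (.s true (nat_lit 1) (nat_lit 85) (nat_lit 1) (nat_lit 2) (nat_lit 2) true (nat_lit 10) true (nat_lit 13) false (nat_lit 4) true (nat_lit 14) true (nat_lit 13) (.e true (nat_lit 1) (nat_lit 183) (nat_lit 5) (nat_lit 10) (.e true (nat_lit 1) (nat_lit 303) (nat_lit 2) (nat_lit 13) (.e true (nat_lit 1) (nat_lit 85) (nat_lit 16) (nat_lit 4) (.e true (nat_lit 2) (nat_lit 328) (nat_lit 1) (nat_lit 14) (.e false (nat_lit 1) (nat_lit 329) (nat_lit 1) (nat_lit 14) (.e true (nat_lit 3) (nat_lit 330) (nat_lit 1) (nat_lit 14) (.e false (nat_lit 3) (nat_lit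 331) (nat_lit 1) (nat_lit 14) (.e false (nat_lit 2) (nat_lit 332) (nat_lit 1) (nat_lit 14) (.e false (nat_lit 2) (nat_lit 333) (nat_lit 1) (nat_lit 14) (.e true (nat_lit 1) (nat_lit 336) (nat_lit 1) (nat_lit 14) (.e true (nat_lit 1) (nat_lit 337) (nat_lit 1) (nat_lit 14) (.e false (nat_lit 2) (nat_lit 338) (nat_lit 1) (nat_lit 14) (.e false (nat_lit 1) (nat_lit 340) (nat_lit 1) (nat_lit 14) (.e true (nat_lit 1) (nat_lit 345) (nat_lit 1) (nat_lit 14) (.u (nat_lit 2) (.n (nat_lit 4) (nat_lit 1) (.n (nat_lit 9) (nat_lit 1) (.p (nat_lit 12) (nat_lit 1) (.p (nat_lit 17) (nat_lit 1) (.p (nat_lit 29) (nat_lit 1) (.p (nat_lit 33) (nat_lit 1) .z)))))) .nil))))))))))))))))) .leaf)) (nat_lit 321536) (nat_lit 941) (.p (nat_lit 379) (nat_lit 1) .z) .df (.nd (.nd (.nd .leaf (nat_lit 321538) (nat_lit 1424) (.p (nat_lit 491) (nat_lit 1) .z) .df .leaf) (nat_lit 322560) (nat_lit 942) (.p (nat_lit 380) (nat_lit 1) .z) .df .leaf) (nat_lit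 322562) (nat_lit 1540) (.p (nat_lit 460) (nat_lit 3) (.n (nat_lit 461) (nat_lit 3) (.p (nat_lit 462) (nat_lit 1) (.p (nat_lit 463) (nat_lit 1) (.p (nat_lit 465) (nat_lit 2) (.p (nat_lit 467) (nat_lit 2) (.n (nat_lit 468) (nat_lit 3) (.n (nat_lit 469) (nat_lit 3) (.n (nat_lit 470) (nat_lit 3) (.n (nat_lit 471) (nat_lit 2) (.p (nat_lit 472) (nat_lit 3) (.n (nat_lit 473) (nat_lit 3) (.n (nat_lit 474) (nat_lit 3) (.n (nat_lit 475) (nat_lit 1) (.n (nat_lit 477) (nat_lit 2) (.p (nat_lit 478) (nat_lit 1) (.p (nat_lit 479) (nat_lit 3) (.n (nat_lit 489) (nat_lit 2) (.n (nat_lit 491) (nat_lit 1) (.n (nat_lit 492) (nat_lit 1) (.p (nat_lit 493) (nat_lit 1) .z))))))))))))))))))))) (.ct dC1d_c293 (nat_lit 1) (nat_lit 13) (.s true (nat_lit 1) (nat_lit 102) (nat_lit 1) (nat_lit 2) (nat_lit 0) true (nat_lit 12) true (nat_lit 15) false (nat_lit 7) true (nat_lit 14) true (nat_lit 13) (.e false (nat_lit 1) (nat_lit 207) (nat_lit 3)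 (nat_lit 12) (.e true (nat_lit 1) (nat_lit 351) (nat_lit 0) (nat_lit 15) (.e true (nat_lit 1) (nat_lit 102) (nat_lit 12) (nat_lit 7) (.e false (nat_lit 2) (nat_lit 328) (nat_lit 1) (nat_lit 14) (.e true (nat_lit 3) (nat_lit 329) (nat_lit 1) (nat_lit 14) (.e false (nat_lit 3) (nat_lit 330) (nat_lit 1) (nat_lit 14) (.e true (nat_lit 2) (nat_lit 331) (nat_lit 1) (nat_lit 14) (.e true (nat_lit 2) (nat_lit 332) (nat_lit 1) (nat_lit 14) (.e false (nat_lit 2) (nat_lit 333) (nat_lit 1) (nat_lit 14) (.e false (nat_lit 2) (nat_lit 334) (nat_lit 1) (nat_lit 14) (.e true (nat_lit 3) (nat_lit 335) (nat_lit 1) (nat_lit 14) (.e false (nat_lit 3) (nat_lit 336) (nat_lit 1) (nat_lit 14) dC1d_i449)))))))))))))) (.nd (.nd .leaf (nat_lit 323584) (nat_lit 943) (.p (nat_lit 381) (nat_lit 1) .z) .df .leaf) (nat_lit 323586) (nat_lit 1430) (.p (nat_lit 489) (nat_lit 1) .z) (.ct dC1d_c293 (nat_lit 1) (nat_lit 13) (.s false (nat_lit 3) (nat_lit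 18) (nat_lit 8) (nat_lit 2) (nat_lit 2) true (nat_lit 2) true (nat_lit 13) true (nat_lit 3) true (nat_lit 8) true (nat_lit 13) (.s false (nat_lit 3) (nat_lit 24) (nat_lit 6) (nat_lit 2) (nat_lit 2) true (nat_lit 3) true (nat_lit 13) true (nat_lit 2) true (nat_lit 9) true (nat_lit 13) (.e true (nat_lit 3) (nat_lit 170) (nat_lit 6) (nat_lit 9) (.u (nat_lit 2) (.n (nat_lit 29) (nat_lit 1) (.p (nat_lit 199) (nat_lit 1) .z)) .nil))))) .leaf))) (nat_lit 324608) (nat_lit 1008) (.p (nat_lit 355) (nat_lit 3) (.n (nat_lit 356) (nat_lit 2) (.n (nat_lit 357) (nat_lit 1) (.n (nat_lit 358) (nat_lit 2) (.n (nat_lit 359) (nat_lit 1) (.p (nat_lit 361) (nat_lit 2) (.n (nat_lit 362) (nat_lit 2) (.p (nat_lit 363) (nat_lit 3) (.p (nat_lit 364) (nat_lit 1) (.p (nat_lit 365) (nat_lit 3) (.p (nat_lit 366) (nat_lit 1) (.n (nat_lit 367) (nat_lit 1) (.p (nat_lit 369) (nat_lit 3) (.n (nat_lit 370) (nat_lit 3) (.n (nat_lit 372) (nat_lit 1)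 (.p (nat_lit 373) (nat_lit 3) (.n (nat_lit 374) (nat_lit 2) (.p (nat_lit 381) (nat_lit 1) .z)))))))))))))))))) (.ct dC1d_c548 (nat_lit 1) (nat_lit 19) (.s false (nat_lit 1) (nat_lit 7) (nat_lit 1) (nat_lit 6) (nat_lit 6) true (nat_lit 6) true (nat_lit 13) true (nat_lit 12) true (nat_lit 18) true (nat_lit 13) (.s true (nat_lit 1) (nat_lit 7) (nat_lit 2) (nat_lit 6) (nat_lit 5) true (nat_lit 6) true (nat_lit 14) true (nat_lit 12) true (nat_lit 17) true (nat_lit 13) (.s false (nat_lit 1) (nat_lit 7) (nat_lit 5) (nat_lit 2) (nat_lit 6) false (nat_lit 3) true (nat_lit 13) true (nat_lit 12) true (nat_lit 14) true (nat_lit 17) (.s false (nat_lit 1) (nat_lit 7) (nat_lit 6) (nat_lit 2) (nat_lit 5) false (nat_lit 3) true (nat_lit 14) true (nat_lit 12) true (nat_lit 13) true (nat_lit 17) (.s false (nat_lit 2) (nat_lit 7) (nat_lit 6) (nat_lit 6) (nat_lit 1) true (nat_lit 6) true (nat_lit 18) true (nat_lit 12) true (nat_lit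 13) true (nat_lit 13) (.s true (nat_lit 3) (nat_lit 8) (nat_lit 0) (nat_lit 6) (nat_lit 6) true (nat_lit 7) true (nat_lit 13) true (nat_lit 11) true (nat_lit 19) true (nat_lit 13) (.s false (nat_lit 3) (nat_lit 8) (nat_lit 2) (nat_lit 4) (nat_lit 6) true (nat_lit 5) true (nat_lit 13) true (nat_lit 11) true (nat_lit 17) true (nat_lit 15) (.s true (nat_lit 2) (nat_lit 8) (nat_lit 4) (nat_lit 6) (nat_lit 2) true (nat_lit 7) true (nat_lit 17) true (nat_lit 11) true (nat_lit 15) true (nat_lit 13) (.s true (nat_lit 2) (nat_lit 8) (nat_lit 6) (nat_lit 6) (nat_lit 0) true (nat_lit 7) true (nat_lit 19) true (nat_lit 11) true (nat_lit 13) true (nat_lit 13) (.s true (nat_lit 1) (nat_lit 9) (nat_lit 2) (nat_lit 5) (nat_lit 5) true (nat_lit 6) true (nat_lit 14) true (nat_lit 10) true (nat_lit 17) true (nat_lit 14) (.s true (nat_lit 2) (nat_lit 10) (nat_lit 2) (nat_lit 2) (nat_lit 10) true (nat_lit 0) true (nat_lit 9) true (nat_lit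 9) true (nat_lit 17) true (nat_lit 17) (.s true (nat_lit 2) (nat_lit 11) (nat_lit 2) (nat_lit 2) (nat_lit 11) true (nat_lit 0) true (nat_lit 9) true (nat_lit 9) true (nat_lit 17) true (nat_lit 17) dC1d_i458))))))))))))) (.nd (.nd (.nd (.nd .leaf (nat_lit 324610) (nat_lit 1442) (.p (nat_lit 460) (nat_lit 2) (.p (nat_lit 461) (nat_lit 3) (.n (nat_lit 462) (nat_lit 2) (.p (nat_lit 463) (nat_lit 3) (.n (nat_lit 465) (nat_lit 2) (.n (nat_lit 467) (nat_lit 3) (.n (nat_lit 468) (nat_lit 3) (.p (nat_lit 469) (nat_lit 2) (.p (nat_lit 470) (nat_lit 3) (.n (nat_lit 471) (nat_lit 2) (.p (nat_lit 473) (nat_lit 1) (.p (nat_lit 474) (nat_lit 1) (.p (nat_lit 475) (nat_lit 2) (.n (nat_lit 477) (nat_lit 1) (.p (nat_lit 479) (nat_lit 1) (.p (nat_lit 481) (nat_lit 2) (.n (nat_lit 489) (nat_lit 2) (.p (nat_lit 493) (nat_lit 1) .z)))))))))))))))))) (.ct dC1d_c293 (nat_lit 1) (nat_lit 13) (.s true (nat_lit 3) (nat_lit 11) (nat_lit 1)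 (nat_lit 6) (nat_lit 6) true (nat_lit 4) true (nat_lit 9) true (nat_lit 7) true (nat_lit 14) true (nat_lit 9) (.s false (nat_lit 3) (nat_lit 10) (nat_lit 2) (nat_lit 6) (nat_lit 5) true (nat_lit 4) true (nat_lit 10) true (nat_lit 7) true (nat_lit 13) true (nat_lit 9) (.s true (nat_lit 1) (nat_lit 12) (nat_lit 5) (nat_lit 2) (nat_lit 6) false (nat_lit 1) true (nat_lit 9) true (nat_lit 7) true (nat_lit 10) true (nat_lit 13) (.s false (nat_lit 1) (nat_lit 11) (nat_lit 6) (nat_lit 2) (nat_lit 5) false (nat_lit 1) true (nat_lit 10) true (nat_lit 7) true (nat_lit 9) true (nat_lit 13) (.s true (nat_lit 1) (nat_lit 11) (nat_lit 6) (nat_lit 5) (nat_lit 2) true (nat_lit 3) true (nat_lit 13) true (nat_lit 7) true (nat_lit 9) true (nat_lit 10) (.s true (nat_lit 2) (nat_lit 10) (nat_lit 6) (nat_lit 6) (nat_lit 1) true (nat_lit 4) true (nat_lit 14) true (nat_lit 7) true (nat_lit 9) true (nat_lit 9) (.s false (nat_lit 3) (nat_lit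 11) (nat_lit 6) (nat_lit 6) (nat_lit 1) true (nat_lit 4) true (nat_lit 14) true (nat_lit 7) true (nat_lit 9) true (nat_lit 9) (.s false (nat_lit 3) (nat_lit 14) (nat_lit 13) (nat_lit 2) (nat_lit 2) true (nat_lit 0) true (nat_lit 13) true (nat_lit 5) true (nat_lit 6) true (nat_lit 13) (.s true (nat_lit 3) (nat_lit 17) (nat_lit 2) (nat_lit 1) (nat_lit 14) false (nat_lit 0) true (nat_lit 5) true (nat_lit 4) true (nat_lit 13) true (nat_lit 14) (.s true (nat_lit 2) (nat_lit 16) (nat_lit 2) (nat_lit 2) (nat_lit 11) true (nat_lit 1) true (nat_lit 7) true (nat_lit 4) true (nat_lit 13) true (nat_lit 13) (.s false (nat_lit 3) (nat_lit 17) (nat_lit 2) (nat_lit 2) (nat_lit 10) true (nat_lit 1) true (nat_lit 7) true (nat_lit 4) true (nat_lit 13) true (nat_lit 13) (.s true (nat_lit 2) (nat_lit 16) (nat_lit 2) (nat_lit 11) (nat_lit 2) true (nat_lit 9) true (nat_lit 13) true (nat_lit 4) true (nat_lit 13) true (nat_lit 7) (.s true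 (nat_lit 3) (nat_lit 16) (nat_lit 2) (nat_lit 14) (nat_lit 1) true (nat_lit 10) true (nat_lit 14) true (nat_lit 4) true (nat_lit 13) true (nat_lit 5) (.s true (nat_lit 3) (nat_lit 16) (nat_lit 10) (nat_lit 2) (nat_lit 2) true (nat_lit 1) true (nat_lit 13) true (nat_lit 4) true (nat_lit 7) true (nat_lit 13) (.s false (nat_lit 3) (nat_lit 16) (nat_lit 12) (nat_lit 2) (nat_lit 2) true (nat_lit 1) true (nat_lit 13) true (nat_lit 4) true (nat_lit 7) true (nat_lit 13) (.s true (nat_lit 2) (nat_lit 17) (nat_lit 12) (nat_lit 2) (nat_lit 2) true (nat_lit 1) true (nat_lit 13) true (nat_lit 4) true (nat_lit 7) true (nat_lit 13) (.s true (nat_lit 1) (nat_lit 17) (nat_lit 14) (nat_lit 1) (nat_lit 2) false (nat_lit 0) true (nat_lit 13) true (nat_lit 4) true (nat_lit 5) true (nat_lit 14) (.s true (nat_lit 1) (nat_lit 17) (nat_lit 14) (nat_lit 2) (nat_lit 1) true (nat_lit 1) true (nat_lit 14) true (nat_lit 4) true (nat_lit 5) true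 (nat_lit 13) (.s true (nat_lit 1) (nat_lit 18) (nat_lit 0) (nat_lit 17) (nat_lit 1) true (nat_lit 12) true (nat_lit 14) true (nat_lit 3) true (nat_lit 15) true (nat_lit 4) (.s false (nat_lit 1) (nat_lit 18) (nat_lit 1) (nat_lit 1) (nat_lit 15) true (nat_lit 1) true (nat_lit 5) true (nat_lit 3) true (nat_lit 14) true (nat_lit 14) (.s false (nat_lit 1) (nat_lit 18) (nat_lit 1) (nat_lit 3) (nat_lit 6) true (nat_lit 4) true (nat_lit 9) true (nat_lit 3) true (nat_lit 14) true (nat_lit 12) dC1d_i462)))))))))))))))))))))) .leaf) (nat_lit 325632) (nat_lit 1026) (.n (nat_lit 355) (nat_lit 1) (.n (nat_lit 357) (nat_lit 2) (.n (nat_lit 358) (nat_lit 2) (.n (nat_lit 359) (nat_lit 2) (.n (nat_lit 360) (nat_lit 1) (.p (nat_lit 361) (nat_lit 1) (.n (nat_lit 362) (nat_lit 1) (.n (nat_lit 363) (nat_lit 3) (.n (nat_lit 364) (nat_lit 2) (.n (nat_lit 365) (nat_lit 1) (.p (nat_lit 367) (nat_lit 1) (.p (nat_lit 369) (nat_lit 2) (.p (nat_lit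 370) (nat_lit 3) (.p (nat_lit 372) (nat_lit 2) (.p (nat_lit 373) (nat_lit 2) (.n (nat_lit 375) (nat_lit 2) (.n (nat_lit 381) (nat_lit 3) .z))))))))))))))))) (.ct dC1d_c548 (nat_lit 1) (nat_lit 19) (.s false (nat_lit 2) (nat_lit 8) (nat_lit 4) (nat_lit 6) (nat_lit 2) true (nat_lit 7) true (nat_lit 17) true (nat_lit 11) true (nat_lit 15) true (nat_lit 13) (.s true (nat_lit 3) (nat_lit 8) (nat_lit 6) (nat_lit 6) (nat_lit 0) true (nat_lit 7) true (nat_lit 19) true (nat_lit 11) true (nat_lit 13) true (nat_lit 13) (.s true (nat_lit 1) (nat_lit 13) (nat_lit 2) (nat_lit 9) (nat_lit 2) true (nat_lit 13) true (nat_lit 17) true (nat_lit 8) true (nat_lit 17) true (nat_lit 10) (.s false (nat_lit 1) (nat_lit 13) (nat_lit 9) (nat_lit 2) (nat_lit 2) true (nat_lit 1) true (nat_lit 17) true (nat_lit 8) true (nat_lit 10) true (nat_lit 17) (.s false (nat_lit 1) (nat_lit 14) (nat_lit 0) (nat_lit 2) (nat_lit 13) true (nat_lit 2) true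 (nat_lit 8) true (nat_lit 7) true (nat_lit 19) true (nat_lit 17) (.s false (nat_lit 1) (nat_lit 14) (nat_lit 2) (nat_lit 0) (nat_lit 13) false (nat_lit 1) true (nat_lit 8) true (nat_lit 7) true (nat_lit 17) true (nat_lit 19) (.s false (nat_lit 3) (nat_lit 14) (nat_lit 2) (nat_lit 2) (nat_lit 8) true (nat_lit 2) true (nat_lit 11) true (nat_lit 7) true (nat_lit 17) true (nat_lit 17) (.s true (nat_lit 1) (nat_lit 14) (nat_lit 13) (nat_lit 2) (nat_lit 0) true (nat_lit 2) true (nat_lit 19) true (nat_lit 7) true (nat_lit 8) true (nat_lit 17) (.s false (nat_lit 1) (nat_lit 18) (nat_lit 1) (nat_lit 1) (nat_lit 9) true (nat_lit 3) true (nat_lit 10) true (nat_lit 5) true (nat_lit 18) true (nat_lit 18) (.s false (nat_lit 3) (nat_lit 18) (nat_lit 2) (nat_lit 8) (nat_lit 0) true (nat_lit 15) true (nat_lit 19) true (nat_lit 5) true (nat_lit 17) true (nat_lit 11) (.s false (nat_lit 1) (nat_lit 21) (nat_lit 6) (nat_lit 2) (nat_lit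 1) true (nat_lit 6) true (nat_lit 18) true (nat_lit 3) true (nat_lit 13) true (nat_lit 17) (.s true (nat_lit 2) (nat_lit 24) (nat_lit 0) (nat_lit 2) (nat_lit 6) true (nat_lit 7) true (nat_lit 13) true (nat_lit 2) true (nat_lit 19) true (nat_lit 17) (.s true (nat_lit 1) (nat_lit 24) (nat_lit 0) (nat_lit 6) (nat_lit 2) true (nat_lit 15) true (nat_lit 17) true (nat_lit 2) true (nat_lit 19) true (nat_lit 13) (.s false (nat_lit 3) (nat_lit 24) (nat_lit 2) (nat_lit 2) (nat_lit 4) true (nat_lit 7) true (nat_lit 15) true (nat_lit 2) true (nat_lit 17) true (nat_lit 17) (.s true (nat_lit 3) (nat_lit 24) (nat_lit 4) (nat_lit 2) (nat_lit 2) true (nat_lit 7) true (nat_lit 17) true (nat_lit 2) true (nat_lit 15) true (nat_lit 17) (.s false (nat_lit 1) (nat_lit 24) (nat_lit 6) (nat_lit 2) (nat_lit 0) true (nat_lit 7) true (nat_lit 19) true (nat_lit 2) true (nat_lit 13) true (nat_lit 17) (.s false (nat_lit 1) (nat_lit 37) (nat_lit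 0) (nat_lit 2) (nat_lit 4) true (nat_lit 10) true (nat_lit 15) false (nat_lit 1) true (nat_lit 19) true (nat_lit 17) (.s false (nat_lit 1) (nat_lit 37) (nat_lit 6) (nat_lit 0) (nat_lit 0) true (nat_lit 7) true (nat_lit 19) false (nat_lit 1) true (nat_lit 13) true (nat_lit 19) dC1d_i466))))))))))))))))))) .leaf) (nat_lit 325634) (nat_lit 1432) (.p (nat_lit 460) (nat_lit 1) (.n (nat_lit 461) (nat_lit 3) (.n (nat_lit 462) (nat_lit 2) (.n (nat_lit 463) (nat_lit 2) (.p (nat_lit 464) (nat_lit 2) (.p (nat_lit 465) (nat_lit 3) (.p (nat_lit 467) (nat_lit 1) (.n (nat_lit 468) (nat_lit 1) (.p (nat_lit 469) (nat_lit 2) (.p (nat_lit 470) (nat_lit 3) (.n (nat_lit 471) (nat_lit 1) (.p (nat_lit 472) (nat_lit 1) (.n (nat_lit 473) (nat_lit 2) (.n (nat_lit 474) (nat_lit 2) (.p (nat_lit 476) (nat_lit 3) (.p (nat_lit 479) (nat_lit 1) (.p (nat_lit 482) (nat_lit 2) (.p (nat_lit 489) (nat_lit 3) (.p (nat_lit 493) (nat_lit 2) .z)))))))))))))))))))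 (.ct dC1d_c293 (nat_lit 1) (nat_lit 13) (.s true (nat_lit 3) (nat_lit 6) (nat_lit 3) (nat_lit 6) (nat_lit 5) true (nat_lit 2) true (nat_lit 10) true (nat_lit 9) true (nat_lit 12) true (nat_lit 9) (.s false (nat_lit 1) (nat_lit 6) (nat_lit 4) (nat_lit 5) (nat_lit 5) true (nat_lit 1) true (nat_lit 10) true (nat_lit 9) true (nat_lit 11) true (nat_lit 10) (.s false (nat_lit 3) (nat_lit 10) (nat_lit 1) (nat_lit 6) (nat_lit 6) true (nat_lit 4) true (nat_lit 9) true (nat_lit 7) true (nat_lit 14) true (nat_lit 9) (.s false (nat_lit 1) (nat_lit 10) (nat_lit 2) (nat_lit 5) (nat_lit 6) true (nat_lit 3) true (nat_lit 9) true (nat_lit 7) true (nat_lit 13) true (nat_lit 10) (.s false (nat_lit 2) (nat_lit 10) (nat_lit 6) (nat_lit 6) (nat_lit 1) true (nat_lit 4) true (nat_lit 14) true (nat_lit 7) true (nat_lit 9) true (nat_lit 9) dC1d_i471)))))) (.nd (.nd .leaf (nat_lit 326656) (nat_lit 1018) (.n (nat_lit 356) (nat_lit 3) (.n (nat_lit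 357) (nat_lit 2) (.p (nat_lit 358) (nat_lit 2) (.p (nat_lit 359) (nat_lit 1) (.p (nat_lit 363) (nat_lit 2) (.p (nat_lit 364) (nat_lit 2) (.p (nat_lit 366) (nat_lit 3) (.p (nat_lit 372) (nat_lit 3) (.n (nat_lit 373) (nat_lit 2) (.n (nat_lit 375) (nat_lit 2) (.p (nat_lit 376) (nat_lit 1) (.n (nat_lit 381) (nat_lit 3) .z)))))))))))) (.ct dC1d_c548 (nat_lit 1) (nat_lit 19) (.s false (nat_lit 2) (nat_lit 7) (nat_lit 6) (nat_lit 1) (nat_lit 6) false (nat_lit 4) true (nat_lit 13) true (nat_lit 12) true (nat_lit 13) true (nat_lit 18) (.s false (nat_lit 1) (nat_lit 7) (nat_lit 6) (nat_lit 6) (nat_lit 1) true (nat_lit 6) true (nat_lit 18) true (nat_lit 12) true (nat_lit 13) true (nat_lit 13) (.s false (nat_lit 3) (nat_lit 8) (nat_lit 2) (nat_lit 6) (nat_lit 4) true (nat_lit 7) true (nat_lit 15) true (nat_lit 11) true (nat_lit 17) true (nat_lit 13) (.s true (nat_lit 1) (nat_lit 8) (nat_lit 4) (nat_lit 2) (nat_lit 6) false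 (nat_lit 2) true (nat_lit 13) true (nat_lit 11) true (nat_lit 15) true (nat_lit 17) (.s true (nat_lit 2) (nat_lit 8) (nat_lit 6) (nat_lit 0) (nat_lit 6) false (nat_lit 4) true (nat_lit 13) true (nat_lit 11) true (nat_lit 13) true (nat_lit 19) (.s false (nat_lit 3) (nat_lit 10) (nat_lit 2) (nat_lit 2) (nat_lit 10) true (nat_lit 0) true (nat_lit 9) true (nat_lit 9) true (nat_lit 17) true (nat_lit 17) (.s true (nat_lit 2) (nat_lit 14) (nat_lit 2) (nat_lit 8) (nat_lit 2) true (nat_lit 13) true (nat_lit 17) true (nat_lit 7) true (nat_lit 17) true (nat_lit 11) (.s false (nat_lit 1) (nat_lit 15) (nat_lit 2) (nat_lit 8) (nat_lit 2) true (nat_lit 13) true (nat_lit 17) true (nat_lit 7) true (nat_lit 17) true (nat_lit 11) (.s false (nat_lit 2) (nat_lit 17) (nat_lit 0) (nat_lit 0) (nat_lit 17) true (nat_lit 0) true (nat_lit 6) true (nat_lit 6) true (nat_lit 19) true (nat_lit 19) (.s true (nat_lit 3) (nat_lit 16) (nat_lit 0)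 (nat_lit 10) (nat_lit 2) true (nat_lit 15) true (nat_lit 17) true (nat_lit 6) true (nat_lit 19) true (nat_lit 9) (.s false (nat_lit 3) (nat_lit 16) (nat_lit 2) (nat_lit 0) (nat_lit 10) true (nat_lit 0) true (nat_lit 9) true (nat_lit 6) true (nat_lit 17) true (nat_lit 19) (.s false (nat_lit 2) (nat_lit 16) (nat_lit 2) (nat_lit 2) (nat_lit 7) true (nat_lit 3) true (nat_lit 12) true (nat_lit 6) true (nat_lit 17) true (nat_lit 17) (.s false (nat_lit 2) (nat_lit 17) (nat_lit 2) (nat_lit 7) (nat_lit 2) true (nat_lit 13) true (nat_lit 17) true (nat_lit 6) true (nat_lit 17) true (nat_lit 12) (.s true (nat_lit 3) (nat_lit 16) (nat_lit 7) (nat_lit 2) (nat_lit 2) true (nat_lit 3) true (nat_lit 17) true (nat_lit 6) true (nat_lit 12) true (nat_lit 17) dC1d_i477))))))))))))))) .leaf) (nat_lit 326658) (nat_lit 1446) (.p (nat_lit 460) (nat_lit 1) (.p (nat_lit 461) (nat_lit 3) (.p (nat_lit 462) (nat_lit 2) (.n (nat_lit 463) (nat_lit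 2) (.p (nat_lit 465) (nat_lit 1) (.n (nat_lit 466) (nat_lit 3) (.p (nat_lit 467) (nat_lit 2) (.n (nat_lit 468) (nat_lit 2) (.n (nat_lit 469) (nat_lit 2) (.n (nat_lit 470) (nat_lit 2) (.p (nat_lit 471) (nat_lit 1) (.n (nat_lit 472) (nat_lit 1) (.p (nat_lit 473) (nat_lit 1) (.n (nat_lit 474) (nat_lit 1) (.n (nat_lit 475) (nat_lit 1) (.p (nat_lit 476) (nat_lit 3) (.p (nat_lit 477) (nat_lit 1) (.p (nat_lit 478) (nat_lit 1) (.n (nat_lit 479) (nat_lit 2) (.n (nat_lit 480) (nat_lit 1) (.p (nat_lit 481) (nat_lit 1) (.p (nat_lit 483) (nat_lit 2) (.n (nat_lit 486) (nat_lit 3) (.n (nat_lit 489) (nat_lit 1) (.p (nat_lit 493) (nat_lit 2) .z))))))))))))))))))))))))) (.ct dC1d_c293 (nat_lit 1) (nat_lit 13) dC1d_i482) .leaf)) (nat_lit 327681) (nat_lit 1230) (.p (nat_lit 441) (nat_lit 1) .z) .df (.nd (.nd (.nd .leaf (nat_lit 328705) (nat_lit 1231) (.p (nat_lit 442) (nat_lit 1) .z) .df .leaf) (nat_lit 329729) (nat_lit 1232) (.p (nat_lit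 443) (nat_lit 1) .z) .df .leaf) (nat_lit 330753) (nat_lit 1233) (.p (nat_lit 444) (nat_lit 1) .z) .df (.nd (.nd .leaf (nat_lit 331777) (nat_lit 1234) (.p (nat_lit 445) (nat_lit 1) .z) .df .leaf) (nat_lit 332801) (nat_lit 1265) (.n (nat_lit 426) (nat_lit 1) (.p (nat_lit 427) (nat_lit 1) (.p (nat_lit 428) (nat_lit 2) (.n (nat_lit 429) (nat_lit 2) (.p (nat_lit 430) (nat_lit 1) (.n (nat_lit 431) (nat_lit 3) (.p (nat_lit 432) (nat_lit 3) (.p (nat_lit 433) (nat_lit 3) (.n (nat_lit 435) (nat_lit 3) (.n (nat_lit 436) (nat_lit 3) (.n (nat_lit 438) (nat_lit 2) (.n (nat_lit 439) (nat_lit 2) (.n (nat_lit 441) (nat_lit 2) (.n (nat_lit 443) (nat_lit 1) (.n (nat_lit 444) (nat_lit 3) (.p (nat_lit 445) (nat_lit 2) .z)))))))))))))))) (.ct dC1d_c533 (nat_lit 1) (nat_lit 14) (.s false (nat_lit 3) (nat_lit 9) (nat_lit 6) (nat_lit 1) (nat_lit 6) false (nat_lit 2) true (nat_lit 9) true (nat_lit 7) true (nat_lit 9) true (nat_lit 14) (.s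 false (nat_lit 3) (nat_lit 12) (nat_lit 2) (nat_lit 6) (nat_lit 4) true (nat_lit 5) true (nat_lit 11) true (nat_lit 6) true (nat_lit 13) true (nat_lit 9) (.s false (nat_lit 2) (nat_lit 12) (nat_lit 4) (nat_lit 2) (nat_lit 6) false (nat_lit 0) true (nat_lit 9) true (nat_lit 6) true (nat_lit 11) true (nat_lit 13) dC1d_i486)))) .leaf))))) (nat_lit 333825) (nat_lit 1270) (.p (nat_lit 426) (nat_lit 2) (.n (nat_lit 427) (nat_lit 2) (.p (nat_lit 428) (nat_lit 3) (.n (nat_lit 429) (nat_lit 3) (.n (nat_lit 430) (nat_lit 2) (.n (nat_lit 431) (nat_lit 1) (.p (nat_lit 432) (nat_lit 1) (.p (nat_lit 433) (nat_lit 1) (.n (nat_lit 435) (nat_lit 1) (.n (nat_lit 436) (nat_lit 1) (.n (nat_lit 438) (nat_lit 3) (.n (nat_lit 439) (nat_lit 3) (.n (nat_lit 441) (nat_lit 2) (.n (nat_lit 442) (nat_lit 3) (.p (nat_lit 443) (nat_lit 2) (.p (nat_lit 444) (nat_lit 1) (.p (nat_lit 445) (nat_lit 2) .z))))))))))))))))) (.ct dC1d_c533 (nat_lit 1)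 (nat_lit 14) (.s false (nat_lit 1) (nat_lit 106) (nat_lit 0) (nat_lit 1) (nat_lit 0) false (nat_lit 16) true (nat_lit 15) false (nat_lit 8) true (nat_lit 15) true (nat_lit 14) (.e false (nat_lit 1) (nat_lit 328) (nat_lit 0) (nat_lit 15) (.e false (nat_lit 3) (nat_lit 329) (nat_lit 0) (nat_lit 15) (.e false (nat_lit 1) (nat_lit 330) (nat_lit 0) (nat_lit 15) (.e false (nat_lit 3) (nat_lit 331) (nat_lit 0) (nat_lit 15) (.e false (nat_lit 3) (nat_lit 333) (nat_lit 0) (nat_lit 15) (.e false (nat_lit 1) (nat_lit 334) (nat_lit 0) (nat_lit 15) (.e false (nat_lit 1) (nat_lit 335) (nat_lit 0) (nat_lit 15) (.e false (nat_lit 2) (nat_lit 336) (nat_lit 0) (nat_lit 15) (.e false (nat_lit 1) (nat_lit 106) (nat_lit 7) (nat_lit 8) (.e false (nat_lit 1) (nat_lit 345) (nat_lit 0) (nat_lit 15) (.e false (nat_lit 3) (nat_lit 320) (nat_lit 1) (nat_lit 14) (.e false (nat_lit 1) (nat_lit 321) (nat_lit 1) (nat_lit 14) (.e true (nat_lit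 2) (nat_lit 323) (nat_lit 1) (nat_lit 14) (.u (nat_lit 2) (.p (nat_lit 3) (nat_lit 1) (.p (nat_lit 15) (nat_lit 1) (.p (nat_lit 16) (nat_lit 1) (.n (nat_lit 212) (nat_lit 1) (.n (nat_lit 216) (nat_lit 1) .z))))) .nil)))))))))))))))) (.nd (.nd (.nd (.nd (.nd (.nd .leaf (nat_lit 334849) (nat_lit 1235) (.p (nat_lit 446) (nat_lit 1) .z) .df .leaf) (nat_lit 335872) (nat_lit 1215) (.p (nat_lit 426) (nat_lit 1) .z) .df .leaf) (nat_lit 335873) (nat_lit 1400) (.p (nat_lit 467) (nat_lit 1) .z) .df (.nd (.nd .leaf (nat_lit 336896) (nat_lit 1216) (.p (nat_lit 427) (nat_lit 1) .z) .df .leaf) (nat_lit 336897) (nat_lit 1401) (.p (nat_lit 468) (nat_lit 1) .z) .df .leaf)) (nat_lit 337920) (nat_lit 1217) (.p (nat_lit 428) (nat_lit 1) .z) .df (.nd (.nd (.nd .leaf (nat_lit 337921) (nat_lit 1402) (.p (nat_lit 469) (nat_lit 1) .z) .df .leaf) (nat_lit 338944) (nat_lit 1218) (.p (nat_lit 429) (nat_lit 1) .z) .df .leaf) (nat_lit 338945)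 (nat_lit 1403) (.p (nat_lit 470) (nat_lit 1) .z) .df (.nd (.nd .leaf (nat_lit 339968) (nat_lit 1219) (.p (nat_lit 430) (nat_lit 1) .z) .df .leaf) (nat_lit 339969) (nat_lit 1404) (.p (nat_lit 471) (nat_lit 1) .z) .df .leaf))) (nat_lit 340992) (nat_lit 1220) (.p (nat_lit 431) (nat_lit 1) .z) .df (.nd (.nd (.nd (.nd .leaf (nat_lit 340993) (nat_lit 1405) (.p (nat_lit 472) (nat_lit 1) .z) .df .leaf) (nat_lit 342016) (nat_lit 1221) (.p (nat_lit 432) (nat_lit 1) .z) .df .leaf) (nat_lit 342017) (nat_lit 1406) (.p (nat_lit 473) (nat_lit 1) .z) .df (.nd (.nd .leaf (nat_lit 343040) (nat_lit 1222) (.p (nat_lit 433) (nat_lit 1) .z) .df .leaf) (nat_lit 343041) (nat_lit 1407) (.p (nat_lit 474) (nat_lit 1) .z) .df .leaf)) (nat_lit 344064) (nat_lit 1223) (.p (nat_lit 434) (nat_lit 1) .z) .df (.nd (.nd (.nd .leaf (nat_lit 344065) (nat_lit 1408) (.p (nat_lit 475) (nat_lit 1) .z) .df .leaf) (nat_lit 345088) (nat_lit 1224) (.p (nat_lit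 435) (nat_lit 1) .z) .df .leaf) (nat_lit 345089) (nat_lit 1409) (.p (nat_lit 476) (nat_lit 1) .z) .df (.nd (.nd .leaf (nat_lit 346112) (nat_lit 1225) (.p (nat_lit 436) (nat_lit 1) .z) .df .leaf) (nat_lit 346113) (nat_lit 1410) (.p (nat_lit 477) (nat_lit 1) .z) .df .leaf)))) (nat_lit 347136) (nat_lit 1226) (.p (nat_lit 437) (nat_lit 1) .z) .df (.nd (.nd (.nd (.nd (.nd .leaf (nat_lit 347137) (nat_lit 1411) (.p (nat_lit 478) (nat_lit 1) .z) .df .leaf) (nat_lit 348160) (nat_lit 1227) (.p (nat_lit 438) (nat_lit 1) .z) .df .leaf) (nat_lit 348161) (nat_lit 1412) (.p (nat_lit 479) (nat_lit 1) .z) .df (.nd (.nd .leaf (nat_lit 349184) (nat_lit 1228) (.p (nat_lit 439) (nat_lit 1) .z) .df .leaf) (nat_lit 349185) (nat_lit 1481) (.n (nat_lit 460) (nat_lit 1) (.p (nat_lit 462) (nat_lit 3) (.p (nat_lit 463) (nat_lit 2) (.p (nat_lit 464) (nat_lit 1) (.p (nat_lit 465) (nat_lit 3) (.p (nat_lit 467) (nat_lit 3) (.n (nat_lit 468) (nat_lit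 3) (.p (nat_lit 469) (nat_lit 1) (.n (nat_lit 470) (nat_lit 1) (.n (nat_lit 471) (nat_lit 3) (.p (nat_lit 472) (nat_lit 2) (.n (nat_lit 473) (nat_lit 2) (.n (nat_lit 474) (nat_lit 2) (.p (nat_lit 476) (nat_lit 2) (.p (nat_lit 477) (nat_lit 2) (.n (nat_lit 479) (nat_lit 1) .z)))))))))))))))) (.ct dC1d_c293 (nat_lit 1) (nat_lit 14) (.s false (nat_lit 1) (nat_lit 46) (nat_lit 2) (nat_lit 3) (nat_lit 1) true (nat_lit 10) true (nat_lit 14) false (nat_lit 2) true (nat_lit 13) true (nat_lit 12) (.e false (nat_lit 1) (nat_lit 181) (nat_lit 5) (nat_lit 10) (.e true (nat_lit 1) (nat_lit 182) (nat_lit 5) (nat_lit 10) (.e false (nat_lit 1) (nat_lit 183) (nat_lit 5) (nat_lit 10) (.e true (nat_lit 1) (nat_lit 185) (nat_lit 5) (nat_lit 10) (.e true (nat_lit 1) (nat_lit 192) (nat_lit 5) (nat_lit 10) (.e true (nat_lit 3) (nat_lit 328) (nat_lit 1) (nat_lit 14) (.e false (nat_lit 2) (nat_lit 329) (nat_lit 1) (nat_lit 14) (.e true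 (nat_lit 2) (nat_lit 330) (nat_lit 1) (nat_lit 14) (.e true (nat_lit 1) (nat_lit 331) (nat_lit 1) (nat_lit 14) (.e false (nat_lit 2) (nat_lit 332) (nat_lit 1) (nat_lit 14) (.e false (nat_lit 3) (nat_lit 333) (nat_lit 1) (nat_lit 14) (.e false (nat_lit 1) (nat_lit 334) (nat_lit 1) (nat_lit 14) (.e false (nat_lit 1) (nat_lit 335) (nat_lit 1) (nat_lit 14) (.e false (nat_lit 1) (nat_lit 336) (nat_lit 1) (nat_lit 14) (.e false (nat_lit 2) (nat_lit 337) (nat_lit 1) (nat_lit 14) (.e false (nat_lit 3) (nat_lit 338) (nat_lit 1) (nat_lit 14) (.e false (nat_lit 1) (nat_lit 344) (nat_lit 1) (nat_lit 14) (.e true (nat_lit 1) (nat_lit 345) (nat_lit 1) (nat_lit 14) (.e false (nat_lit 1) (nat_lit 46) (nat_lit 25) (nat_lit 2) (.e false (nat_lit 1) (nat_lit 298) (nat_lit 2) (nat_lit 13) (.e true (nat_lit 1) (nat_lit 316) (nat_lit 2) (nat_lit 13) (.e false (nat_lit 1) (nat_lit 209) (nat_lit 3) (nat_lit 12) (.u (nat_lit 2) (.p (nat_lit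 2) (nat_lit 1) (.n (nat_lit 4) (nat_lit 2) (.p (nat_lit 5) (nat_lit 2) (.p (nat_lit 6) (nat_lit 1) (.n (nat_lit 7) (nat_lit 1) (.p (nat_lit 8) (nat_lit 1) (.n (nat_lit 9) (nat_lit 1) (.n (nat_lit 10) (nat_lit 1) (.p (nat_lit 11) (nat_lit 1) (.p (nat_lit 12) (nat_lit 1) (.p (nat_lit 13) (nat_lit 1) (.p (nat_lit 14) (nat_lit 1) (.p (nat_lit 15) (nat_lit 2) (.n (nat_lit 16) (nat_lit 1) (.p (nat_lit 18) (nat_lit 1) (.n (nat_lit 20) (nat_lit 1) (.n (nat_lit 23) (nat_lit 1) (.p (nat_lit 26) (nat_lit 1) (.n (nat_lit 29) (nat_lit 1) .z))))))))))))))))))) .nil))))))))))))))))))))))))) .leaf)) (nat_lit 350208) (nat_lit 1229) (.p (nat_lit 440) (nat_lit 1) .z) .df (.nd (.nd (.nd .leaf (nat_lit 350209) (nat_lit 1413) (.p (nat_lit 480) (nat_lit 1) .z) .df .leaf) (nat_lit 351232) (nat_lit 1352) (.n (nat_lit 426) (nat_lit 3) (.n (nat_lit 428) (nat_lit 1) (.p (nat_lit 429) (nat_lit 1) (.p (nat_lit 430) (nat_lit 2) (.n (nat_lit 431)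 (nat_lit 1) (.p (nat_lit 432) (nat_lit 3) (.p (nat_lit 433) (nat_lit 3) (.p (nat_lit 435) (nat_lit 2) (.n (nat_lit 436) (nat_lit 2) (.n (nat_lit 438) (nat_lit 1) (.p (nat_lit 440) (nat_lit 2) .z))))))))))) (.ct dC1d_c533 (nat_lit 1) (nat_lit 15) (.s false (nat_lit 1) (nat_lit 101) (nat_lit 0) (nat_lit 2) (nat_lit 1) true (nat_lit 12) true (nat_lit 14) false (nat_lit 6) true (nat_lit 15) true (nat_lit 13) (.e false (nat_lit 1) (nat_lit 203) (nat_lit 3) (nat_lit 12) (.e false (nat_lit 1) (nat_lit 204) (nat_lit 3) (nat_lit 12) (.e false (nat_lit 1) (nat_lit 325) (nat_lit 1) (nat_lit 14) (.e false (nat_lit 1) (nat_lit 101) (nat_lit 11) (nat_lit 6) (.e true (nat_lit 1) (nat_lit 328) (nat_lit 0) (nat_lit 15) (.e true (nat_lit 1) (nat_lit 329) (nat_lit 0) (nat_lit 15) (.e false (nat_lit 3) (nat_lit 331) (nat_lit 0) (nat_lit 15) (.e false (nat_lit 1) (nat_lit 332) (nat_lit 0) (nat_lit 15) (.e true (nat_lit 3) (nat_lit 333)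 (nat_lit 0) (nat_lit 15) (.e true (nat_lit 2) (nat_lit 334) (nat_lit 0) (nat_lit 15) (.e true (nat_lit 2) (nat_lit 335) (nat_lit 0) (nat_lit 15) (.e false (nat_lit 1) (nat_lit 337) (nat_lit 0) (nat_lit 15) (.e false (nat_lit 2) (nat_lit 338) (nat_lit 0) (nat_lit 15) (.e false (nat_lit 2) (nat_lit 339) (nat_lit 0) (nat_lit 15) dC1d_i487)))))))))))))))) .leaf) (nat_lit 351233) (nat_lit 1492) (.n (nat_lit 460) (nat_lit 2) (.n (nat_lit 462) (nat_lit 1) (.n (nat_lit 463) (nat_lit 3) (.p (nat_lit 464) (nat_lit 2) (.n (nat_lit 465) (nat_lit 1) (.n (nat_lit 467) (nat_lit 3) (.n (nat_lit 469) (nat_lit 1) (.p (nat_lit 470) (nat_lit 1) (.p (nat_lit 471) (nat_lit 2) (.n (nat_lit 472) (nat_lit 1) (.p (nat_lit 473) (nat_lit 3) (.p (nat_lit 474) (nat_lit 3) (.p (nat_lit 476) (nat_lit 2) (.n (nat_lit 477) (nat_lit 2) (.n (nat_lit 479) (nat_lit 1) (.p (nat_lit 480) (nat_lit 2) .z)))))))))))))))) (.ct dC1d_c293 (nat_lit 1) (nat_lit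 14) (.s false (nat_lit 2) (nat_lit 6) (nat_lit 3) (nat_lit 6) (nat_lit 5) true (nat_lit 2) true (nat_lit 10) true (nat_lit 9) true (nat_lit 12) true (nat_lit 9) (.s false (nat_lit 1) (nat_lit 43) (nat_lit 2) (nat_lit 3) (nat_lit 2) true (nat_lit 9) true (nat_lit 13) false (nat_lit 1) true (nat_lit 13) true (nat_lit 12) (.s false (nat_lit 1) (nat_lit 102) (nat_lit 0) (nat_lit 1) (nat_lit 2) true (nat_lit 11) true (nat_lit 13) false (nat_lit 7) true (nat_lit 15) true (nat_lit 14) (.s false (nat_lit 1) (nat_lit 102) (nat_lit 1) (nat_lit 2) (nat_lit 0) true (nat_lit 12) true (nat_lit 15) false (nat_lit 7) true (nat_lit 14) true (nat_lit 13) dC1d_i489))))) (.nd (.nd .leaf (nat_lit 352256) (nat_lit 1306) (.p (nat_lit 426) (nat_lit 1) (.n (nat_lit 427) (nat_lit 2) (.p (nat_lit 428) (nat_lit 2) (.n (nat_lit 429) (nat_lit 3) (.p (nat_lit 431) (nat_lit 3) (.p (nat_lit 434) (nat_lit 1) (.n (nat_lit 436) (nat_lit 1) (.p (nat_lit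 438) (nat_lit 1) .z)))))))) (.ct dC1d_c533 (nat_lit 1) (nat_lit 15) (.s false (nat_lit 3) (nat_lit 18) (nat_lit 10) (nat_lit 0) (nat_lit 2) true (nat_lit 0) true (nat_lit 13) true (nat_lit 3) true (nat_lit 6) true (nat_lit 15) (.s true (nat_lit 1) (nat_lit 18) (nat_lit 10) (nat_lit 2) (nat_lit 0) true (nat_lit 2) true (nat_lit 15) true (nat_lit 3) true (nat_lit 6) true (nat_lit 13) (.s true (nat_lit 3) (nat_lit 42) (nat_lit 3) (nat_lit 2) (nat_lit 2) true (nat_lit 6) true (nat_lit 13) false (nat_lit 0) true (nat_lit 12) true (nat_lit 13) (.s true (nat_lit 3) (nat_lit 46) (nat_lit 3) (nat_lit 0) (nat_lit 2) true (nat_lit 6) true (nat_lit 13) false (nat_lit 2) true (nat_lit 12) true (nat_lit 15) (.s true (nat_lit 3) (nat_lit 46) (nat_lit 3) (nat_lit 2) (nat_lit 0) true (nat_lit 8) true (nat_lit 15) false (nat_lit 2) true (nat_lit 12) true (nat_lit 13) (.e true (nat_lit 3) (nat_lit 262) (nat_lit 2) (nat_lit 13) (.e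 false (nat_lit 1) (nat_lit 263) (nat_lit 2) (nat_lit 13) (.e true (nat_lit 2) (nat_lit 264) (nat_lit 2) (nat_lit 13) (.e false (nat_lit 3) (nat_lit 265) (nat_lit 2) (nat_lit 13) (.e false (nat_lit 3) (nat_lit 267) (nat_lit 2) (nat_lit 13) (.e true (nat_lit 2) (nat_lit 269) (nat_lit 2) (nat_lit 13) (.e false (nat_lit 2) (nat_lit 271) (nat_lit 2) (nat_lit 13) (.e true (nat_lit 3) (nat_lit 272) (nat_lit 2) (nat_lit 13) (.e false (nat_lit 3) (nat_lit 273) (nat_lit 2) (nat_lit 13) (.e false (nat_lit 1) (nat_lit 274) (nat_lit 2) (nat_lit 13) (.e false (nat_lit 3) (nat_lit 279) (nat_lit 2) (nat_lit 13) (.e false (nat_lit 1) (nat_lit 280) (nat_lit 2) (nat_lit 13) (.e true (nat_lit 1) (nat_lit 260) (nat_lit 2) (nat_lit 13) (.e false (nat_lit 3) (nat_lit 270) (nat_lit 2) (nat_lit 13) dC1d_i490)))))))))))))))))))) .leaf) (nat_lit 352257) (nat_lit 1467) (.n (nat_lit 460) (nat_lit 1) (.p (nat_lit 462) (nat_lit 3) (.p (nat_lit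 463) (nat_lit 2) (.p (nat_lit 464) (nat_lit 1) (.p (nat_lit 465) (nat_lit 3) (.p (nat_lit 467) (nat_lit 1) (.n (nat_lit 468) (nat_lit 2) (.p (nat_lit 469) (nat_lit 2) (.n (nat_lit 470) (nat_lit 3) (.p (nat_lit 472) (nat_lit 3) (.p (nat_lit 475) (nat_lit 1) (.n (nat_lit 477) (nat_lit 1) (.p (nat_lit 479) (nat_lit 1) .z))))))))))))) (.ct dC1d_c293 (nat_lit 1) (nat_lit 14) (.s false (nat_lit 1) (nat_lit 82) (nat_lit 1) (nat_lit 2) (nat_lit 2) true (nat_lit 10) true (nat_lit 13) false (nat_lit 4) true (nat_lit 14) true (nat_lit 13) (.e false (nat_lit 1) (nat_lit 180) (nat_lit 5) (nat_lit 10) (.e false (nat_lit 1) (nat_lit 301) (nat_lit 2) (nat_lit 13) (.e false (nat_lit 1) (nat_lit 82) (nat_lit 16) (nat_lit 4) (.e false (nat_lit 3) (nat_lit 328) (nat_lit 1) (nat_lit 14) (.e true (nat_lit 2) (nat_lit 329) (nat_lit 1) (nat_lit 14) (.e false (nat_lit 2) (nat_lit 330) (nat_lit 1) (nat_lit 14) (.e false (nat_lit 1) (nat_lit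 331) (nat_lit 1) (nat_lit 14) (.e true (nat_lit 2) (nat_lit 332) (nat_lit 1) (nat_lit 14) (.e true (nat_lit 3) (nat_lit 333) (nat_lit 1) (nat_lit 14) (.e true (nat_lit 1) (nat_lit 334) (nat_lit 1) (nat_lit 14) (.e true (nat_lit 1) (nat_lit 335) (nat_lit 1) (nat_lit 14) (.e false (nat_lit 2) (nat_lit 337) (nat_lit 1) (nat_lit 14) (.e false (nat_lit 1) (nat_lit 340) (nat_lit 1) (nat_lit 14) (.e false (nat_lit 1) (nat_lit 345) (nat_lit 1) (nat_lit 14) (.e false (nat_lit 1) (nat_lit 311) (nat_lit 2) (nat_lit 13) (.u (nat_lit 2) (.p (nat_lit 4) (nat_lit 1) (.n (nat_lit 5) (nat_lit 1) (.p (nat_lit 10) (nat_lit 1) (.n (nat_lit 11) (nat_lit 1) (.n (nat_lit 12) (nat_lit 1) (.n (nat_lit 13) (nat_lit 1) (.n (nat_lit 15) (nat_lit 1) (.p (nat_lit 16) (nat_lit 1) (.n (nat_lit 19) (nat_lit 1) .z))))))))) .nil)))))))))))))))))) .leaf))) (nat_lit 353280) (nat_lit 1252) (.p (nat_lit 426) (nat_lit 3) (.n (nat_lit 427) (nat_lit 2)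 (.p (nat_lit 428) (nat_lit 1) (.p (nat_lit 429) (nat_lit 2) (.n (nat_lit 430) (nat_lit 3) (.n (nat_lit 431) (nat_lit 3) (.n (nat_lit 434) (nat_lit 2) (.p (nat_lit 435) (nat_lit 2) (.n (nat_lit 436) (nat_lit 3) (.n (nat_lit 438) (nat_lit 1) .z)))))))))) (.ct dC1d_c533 (nat_lit 1) (nat_lit 15) (.s true (nat_lit 3) (nat_lit 9) (nat_lit 6) (nat_lit 1) (nat_lit 6) false (nat_lit 2) true (nat_lit 9) true (nat_lit 7) true (nat_lit 9) true (nat_lit 14) (.s false (nat_lit 1) (nat_lit 9) (nat_lit 6) (nat_lit 5) (nat_lit 2) true (nat_lit 3) true (nat_lit 13) true (nat_lit 7) true (nat_lit 9) true (nat_lit 10) (.s false (nat_lit 2) (nat_lit 12) (nat_lit 2) (nat_lit 4) (nat_lit 6) true (nat_lit 3) true (nat_lit 9) true (nat_lit 6) true (nat_lit 13) true (nat_lit 11) (.s true (nat_lit 2) (nat_lit 10) (nat_lit 2) (nat_lit 6) (nat_lit 4) true (nat_lit 5) true (nat_lit 11) true (nat_lit 6) true (nat_lit 13) true (nat_lit 9) (.s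 true (nat_lit 1) (nat_lit 11) (nat_lit 2) (nat_lit 6) (nat_lit 4) true (nat_lit 5) true (nat_lit 11) true (nat_lit 6) true (nat_lit 13) true (nat_lit 9) (.s true (nat_lit 1) (nat_lit 10) (nat_lit 6) (nat_lit 2) (nat_lit 4) false (nat_lit 0) true (nat_lit 11) true (nat_lit 6) true (nat_lit 9) true (nat_lit 13) (.s true (nat_lit 2) (nat_lit 10) (nat_lit 6) (nat_lit 4) (nat_lit 2) true (nat_lit 3) true (nat_lit 13) true (nat_lit 6) true (nat_lit 9) true (nat_lit 11) (.s false (nat_lit 3) (nat_lit 11) (nat_lit 6) (nat_lit 4) (nat_lit 2) true (nat_lit 3) true (nat_lit 13) true (nat_lit 6) true (nat_lit 9) true (nat_lit 11) (.s false (nat_lit 3) (nat_lit 15) (nat_lit 2) (nat_lit 2) (nat_lit 10) true (nat_lit 0) true (nat_lit 6) true (nat_lit 5) true (nat_lit 13) true (nat_lit 13) (.s false (nat_lit 2) (nat_lit 15) (nat_lit 2) (nat_lit 2) (nat_lit 11) true (nat_lit 0) true (nat_lit 6) true (nat_lit 5) true (nat_lit 13)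 true (nat_lit 13) (.s true (nat_lit 2) (nat_lit 15) (nat_lit 2) (nat_lit 2) (nat_lit 12) true (nat_lit 0) true (nat_lit 6) true (nat_lit 5) true (nat_lit 13) true (nat_lit 13) (.s true (nat_lit 2) (nat_lit 14) (nat_lit 3) (nat_lit 6) (nat_lit 2) true (nat_lit 6) true (nat_lit 13) true (nat_lit 5) true (nat_lit 12) true (nat_lit 9) (.s false (nat_lit 3) (nat_lit 15) (nat_lit 11) (nat_lit 2) (nat_lit 2) true (nat_lit 0) true (nat_lit 13) true (nat_lit 5) true (nat_lit 6) true (nat_lit 13) (.s true (nat_lit 3) (nat_lit 18) (nat_lit 0) (nat_lit 0) (nat_lit 16) true (nat_lit 0) true (nat_lit 4) true (nat_lit 3) true (nat_lit 15) true (nat_lit 15) (.s false (nat_lit 2) (nat_lit 18) (nat_lit 0) (nat_lit 1) (nat_lit 15) true (nat_lit 1) true (nat_lit 5) true (nat_lit 3) true (nat_lit 15) true (nat_lit 14) dC1d_i494)))))))))))))))) (.nd (.nd (.nd (.nd .leaf (nat_lit 353281) (nat_lit 1440) (.n (nat_lit 460) (nat_lit 2) (.n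 (nat_lit 462) (nat_lit 1) (.n (nat_lit 463) (nat_lit 3) (.p (nat_lit 464) (nat_lit 2) (.n (nat_lit 465) (nat_lit 1) (.p (nat_lit 467) (nat_lit 3) (.n (nat_lit 468) (nat_lit 2) (.p (nat_lit 469) (nat_lit 1) (.p (nat_lit 470) (nat_lit 2) (.n (nat_lit 471) (nat_lit 3) (.n (nat_lit 472) (nat_lit 3) (.n (nat_lit 475) (nat_lit 2) (.p (nat_lit 476) (nat_lit 2) (.n (nat_lit 477) (nat_lit 3) (.n (nat_lit 479) (nat_lit 1) .z))))))))))))))) (.ct dC1d_c293 (nat_lit 1) (nat_lit 14) (.s false (nat_lit 1) (nat_lit 11) (nat_lit 1) (nat_lit 6) (nat_lit 6) true (nat_lit 4) true (nat_lit 9) true (nat_lit 7) true (nat_lit 14) true (nat_lit 9) (.s false (nat_lit 2) (nat_lit 11) (nat_lit 2) (nat_lit 5) (nat_lit 6) true (nat_lit 3) true (nat_lit 9) true (nat_lit 7) true (nat_lit 13) true (nat_lit 10) (.s true (nat_lit 2) (nat_lit 10) (nat_lit 2) (nat_lit 6) (nat_lit 5) true (nat_lit 4) true (nat_lit 10) true (nat_lit 7) true (nat_lit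 13) true (nat_lit 9) (.s true (nat_lit 3) (nat_lit 10) (nat_lit 5) (nat_lit 2) (nat_lit 6) false (nat_lit 1) true (nat_lit 9) true (nat_lit 7) true (nat_lit 10) true (nat_lit 13) (.s false (nat_lit 2) (nat_lit 11) (nat_lit 5) (nat_lit 6) (nat_lit 2) true (nat_lit 4) true (nat_lit 13) true (nat_lit 7) true (nat_lit 10) true (nat_lit 9) (.s false (nat_lit 2) (nat_lit 10) (nat_lit 6) (nat_lit 6) (nat_lit 1) true (nat_lit 4) true (nat_lit 14) true (nat_lit 7) true (nat_lit 9) true (nat_lit 9) (.s false (nat_lit 1) (nat_lit 11) (nat_lit 6) (nat_lit 6) (nat_lit 1) true (nat_lit 4) true (nat_lit 14) true (nat_lit 7) true (nat_lit 9) true (nat_lit 9) (.s true (nat_lit 1) (nat_lit 12) (nat_lit 6) (nat_lit 6) (nat_lit 1) true (nat_lit 4) true (nat_lit 14) true (nat_lit 7) true (nat_lit 9) true (nat_lit 9) (.s false (nat_lit 2) (nat_lit 14) (nat_lit 5) (nat_lit 5) (nat_lit 2) true (nat_lit 4) true (nat_lit 13) true (nat_lit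 5) true (nat_lit 10) true (nat_lit 10) (.s false (nat_lit 1) (nat_lit 14) (nat_lit 5) (nat_lit 6) (nat_lit 1) true (nat_lit 6) true (nat_lit 14) true (nat_lit 5) true (nat_lit 10) true (nat_lit 9) (.s true (nat_lit 3) (nat_lit 16) (nat_lit 2) (nat_lit 2) (nat_lit 11) true (nat_lit 1) true (nat_lit 7) true (nat_lit 4) true (nat_lit 13) true (nat_lit 13) (.s false (nat_lit 2) (nat_lit 17) (nat_lit 2) (nat_lit 2) (nat_lit 10) true (nat_lit 1) true (nat_lit 7) true (nat_lit 4) true (nat_lit 13) true (nat_lit 13) (.s false (nat_lit 3) (nat_lit 17) (nat_lit 2) (nat_lit 2) (nat_lit 12) true (nat_lit 1) true (nat_lit 7) true (nat_lit 4) true (nat_lit 13) true (nat_lit 13) (.s false (nat_lit 1) (nat_lit 16) (nat_lit 10) (nat_lit 2) (nat_lit 2) true (nat_lit 1) true (nat_lit 13) true (nat_lit 4) true (nat_lit 7) true (nat_lit 13) (.s true (nat_lit 3) (nat_lit 17) (nat_lit 12) (nat_lit 2) (nat_lit 2) true (nat_lit 1) true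 (nat_lit 13) true (nat_lit 4) true (nat_lit 7) true (nat_lit 13) (.s true (nat_lit 1) (nat_lit 17) (nat_lit 14) (nat_lit 2) (nat_lit 1) true (nat_lit 1) true (nat_lit 14) true (nat_lit 4) true (nat_lit 5) true (nat_lit 13) (.s false (nat_lit 1) (nat_lit 18) (nat_lit 1) (nat_lit 1) (nat_lit 15) true (nat_lit 1) true (nat_lit 5) true (nat_lit 3) true (nat_lit 14) true (nat_lit 14) (.s true (nat_lit 3) (nat_lit 18) (nat_lit 1) (nat_lit 2) (nat_lit 11) true (nat_lit 2) true (nat_lit 7) true (nat_lit 3) true (nat_lit 14) true (nat_lit 13) (.s true (nat_lit 1) (nat_lit 18) (nat_lit 1) (nat_lit 6) (nat_lit 3) true (nat_lit 8) true (nat_lit 12) true (nat_lit 3) true (nat_lit 14) true (nat_lit 9) (.s true (nat_lit 2) (nat_lit 18) (nat_lit 1) (nat_lit 11) (nat_lit 2) true (nat_lit 10) true (nat_lit 13) true (nat_lit 3) true (nat_lit 14) true (nat_lit 7) (.s false (nat_lit 1) (nat_lit 18) (nat_lit 1) (nat_lit 14) (nat_lit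 1) false (nat_lit 16) true (nat_lit 14) true (nat_lit 3) true (nat_lit 14) true (nat_lit 5) (.s false (nat_lit 3) (nat_lit 18) (nat_lit 2) (nat_lit 1) (nat_lit 10) true (nat_lit 1) true (nat_lit 7) true (nat_lit 3) true (nat_lit 13) true (nat_lit 14) (.s false (nat_lit 2) (nat_lit 18) (nat_lit 2) (nat_lit 1) (nat_lit 11) true (nat_lit 1) true (nat_lit 7) true (nat_lit 3) true (nat_lit 13) true (nat_lit 14) dC1d_i498)))))))))))))))))))))))) .leaf) (nat_lit 354304) (nat_lit 1311) (.n (nat_lit 426) (nat_lit 3) (.p (nat_lit 427) (nat_lit 3) (.p (nat_lit 429) (nat_lit 3) (.p (nat_lit 430) (nat_lit 3) (.p (nat_lit 431) (nat_lit 1) (.n (nat_lit 432) (nat_lit 3) (.n (nat_lit 433) (nat_lit 3) (.p (nat_lit 434) (nat_lit 2) (.n (nat_lit 436) (nat_lit 2) (.p (nat_lit 438) (nat_lit 2) (.p (nat_lit 439) (nat_lit 1) .z))))))))))) (.ct dC1d_c533 (nat_lit 1) (nat_lit 15) (.s false (nat_lit 3) (nat_lit 46) (nat_lit 3) (nat_lit 2)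 (nat_lit 0) true (nat_lit 8) true (nat_lit 15) false (nat_lit 2) true (nat_lit 12) true (nat_lit 13) (.s false (nat_lit 3) (nat_lit 100) (nat_lit 0) (nat_lit 2) (nat_lit 1) true (nat_lit 12) true (nat_lit 14) false (nat_lit 6) true (nat_lit 15) true (nat_lit 13) (.s false (nat_lit 3) (nat_lit 106) (nat_lit 1) (nat_lit 0) (nat_lit 0) true (nat_lit 12) true (nat_lit 15) false (nat_lit 8) true (nat_lit 14) true (nat_lit 15) (.e false (nat_lit 1) (nat_lit 106) (nat_lit 7) (nat_lit 8) (.e false (nat_lit 3) (nat_lit 329) (nat_lit 0) (nat_lit 15) (.e false (nat_lit 2) (nat_lit 330) (nat_lit 0) (nat_lit 15) (.e false (nat_lit 3) (nat_lit 331) (nat_lit 0) (nat_lit 15) (.e true (nat_lit 1) (nat_lit 333) (nat_lit 0) (nat_lit 15) (.e true (nat_lit 2) (nat_lit 336) (nat_lit 0) (nat_lit 15) (.e true (nat_lit 3) (nat_lit 46) (nat_lit 22) (nat_lit 2) (.e true (nat_lit 3) (nat_lit 206) (nat_lit 3) (nat_lit 12) (.e false (nat_lit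 2) (nat_lit 260) (nat_lit 2) (nat_lit 13) (.e true (nat_lit 1) (nat_lit 261) (nat_lit 2) (nat_lit 13) (.e true (nat_lit 1) (nat_lit 262) (nat_lit 2) (nat_lit 13) (.e true (nat_lit 3) (nat_lit 263) (nat_lit 2) (nat_lit 13) (.e false (nat_lit 3) (nat_lit 264) (nat_lit 2) (nat_lit 13) (.e true (nat_lit 3) (nat_lit 267) (nat_lit 2) (nat_lit 13) (.e false (nat_lit 1) (nat_lit 268) (nat_lit 2) (nat_lit 13) (.e false (nat_lit 2) (nat_lit 269) (nat_lit 2) (nat_lit 13) (.e true (nat_lit 1) (nat_lit 272) (nat_lit 2) (nat_lit 13) (.e false (nat_lit 3) (nat_lit 273) (nat_lit 2) (nat_lit 13) (.e false (nat_lit 1) (nat_lit 277) (nat_lit 2) (nat_lit 13) (.e true (nat_lit 1) (nat_lit 278) (nat_lit 2) (nat_lit 13) dC1d_i499)))))))))))))))))))))))) .leaf) (nat_lit 354305) (nat_lit 1490) (.p (nat_lit 460) (nat_lit 1) (.n (nat_lit 462) (nat_lit 3) (.n (nat_lit 463) (nat_lit 2) (.n (nat_lit 464) (nat_lit 1) (.n (nat_lit 465) (nat_lit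 3) (.p (nat_lit 469) (nat_lit 1) (.p (nat_lit 470) (nat_lit 2) (.p (nat_lit 472) (nat_lit 3) (.p (nat_lit 473) (nat_lit 2) (.p (nat_lit 474) (nat_lit 2) (.p (nat_lit 475) (nat_lit 2) (.p (nat_lit 476) (nat_lit 2) (.p (nat_lit 479) (nat_lit 1) .z))))))))))))) (.ct dC1d_c293 (nat_lit 1) (nat_lit 14) (.s true (nat_lit 1) (nat_lit 106) (nat_lit 1) (nat_lit 0) (nat_lit 1) false (nat_lit 16) true (nat_lit 14) false (nat_lit 8) true (nat_lit 14) true (nat_lit 15) (.e false (nat_lit 1) (nat_lit 328) (nat_lit 1) (nat_lit 14) (.e true (nat_lit 1) (nat_lit 329) (nat_lit 1) (nat_lit 14) (.e true (nat_lit 3) (nat_lit 330) (nat_lit 1) (nat_lit 14) (.e true (nat_lit 3) (nat_lit 331) (nat_lit 1) (nat_lit 14) (.e false (nat_lit 2) (nat_lit 336) (nat_lit 1) (nat_lit 14) (.e false (nat_lit 1) (nat_lit 106) (nat_lit 8) (nat_lit 8) (.e true (nat_lit 3) (nat_lit 333) (nat_lit 1) (nat_lit 14) (.e true (nat_lit 1) (nat_lit 334) (nat_lit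 1) (nat_lit 14) (.e true (nat_lit 1) (nat_lit 335) (nat_lit 1) (nat_lit 14) (.e true (nat_lit 3) (nat_lit 347) (nat_lit 0) (nat_lit 15) (.e true (nat_lit 1) (nat_lit 348) (nat_lit 0) (nat_lit 15) (.e false (nat_lit 2) (nat_lit 350) (nat_lit 0) (nat_lit 15) (.e false (nat_lit 1) (nat_lit 353) (nat_lit 0) (nat_lit 15) (.u (nat_lit 2) (.n (nat_lit 1) (nat_lit 1) (.p (nat_lit 3) (nat_lit 1) (.n (nat_lit 9) (nat_lit 1) (.n (nat_lit 10) (nat_lit 1) (.n (nat_lit 12) (nat_lit 1) (.p (nat_lit 205) (nat_lit 1) (.p (nat_lit 206) (nat_lit 1) .z))))))) .nil)))))))))))))))) (.nd (.nd .leaf (nat_lit 355328) (nat_lit 1393) (.p (nat_lit 460) (nat_lit 1) .z) .df .leaf) (nat_lit 356352) (nat_lit 1394) (.p (nat_lit 461) (nat_lit 1) .z) .df .leaf)) (nat_lit 357376) (nat_lit 1395) (.p (nat_lit 462) (nat_lit 1) .z) .df (.nd (.nd (.nd .leaf (nat_lit 358400) (nat_lit 1396) (.p (nat_lit 463) (nat_lit 1) .z) .df .leaf) (nat_lit 359424) (nat_lit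 1397) (.p (nat_lit 464) (nat_lit 1) .z) .df .leaf) (nat_lit 360448) (nat_lit 1398) (.p (nat_lit 465) (nat_lit 1) .z) .df (.nd (.nd .leaf (nat_lit 361472) (nat_lit 1485) (.p (nat_lit 460) (nat_lit 1) (.n (nat_lit 461) (nat_lit 3) (.p (nat_lit 463) (nat_lit 2) (.n (nat_lit 464) (nat_lit 1) (.n (nat_lit 465) (nat_lit 2) .z))))) (.ct dC1d_c293 (nat_lit 1) (nat_lit 15) (.s true (nat_lit 1) (nat_lit 106) (nat_lit 1) (nat_lit 1) (nat_lit 0) true (nat_lit 12) true (nat_lit 15) false (nat_lit 8) true (nat_lit 14) true (nat_lit 14) (.e false (nat_lit 1) (nat_lit 210) (nat_lit 3) (nat_lit 12) (.e false (nat_lit 3) (nat_lit 347) (nat_lit 0) (nat_lit 15) (.e false (nat_lit 1) (nat_lit 348) (nat_lit 0) (nat_lit 15) (.e true (nat_lit 2) (nat_lit 350) (nat_lit 0) (nat_lit 15) (.e false (nat_lit 2) (nat_lit 328) (nat_lit 1) (nat_lit 14) (.e true (nat_lit 3) (nat_lit 330) (nat_lit 1) (nat_lit 14) (.e false (nat_lit 1) (nat_lit 331)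 (nat_lit 1) (nat_lit 14) (.e true (nat_lit 3) (nat_lit 332) (nat_lit 1) (nat_lit 14) (.e false (nat_lit 2) (nat_lit 333) (nat_lit 1) (nat_lit 14) (.e false (nat_lit 3) (nat_lit 334) (nat_lit 1) (nat_lit 14) (.e false (nat_lit 3) (nat_lit 335) (nat_lit 1) (nat_lit 14) (.e true (nat_lit 3) (nat_lit 336) (nat_lit 1) (nat_lit 14) (.e true (nat_lit 3) (nat_lit 337) (nat_lit 1) (nat_lit 14) (.e true (nat_lit 1) (nat_lit 338) (nat_lit 1) (nat_lit 14) (.e true (nat_lit 2) (nat_lit 341) (nat_lit 1) (nat_lit 14) (.e false (nat_lit 2) (nat_lit 344) (nat_lit 1) (nat_lit 14) (.e true (nat_lit 1) (nat_lit 345) (nat_lit 1) (nat_lit 14) (.u (nat_lit 2) (.p (nat_lit 0) (nat_lit 1) (.p (nat_lit 1) (nat_lit 1) (.n (nat_lit 7) (nat_lit 1) (.p (nat_lit 8) (nat_lit 1) (.n (nat_lit 10) (nat_lit 1) (.p (nat_lit 11) (nat_lit 1) (.p (nat_lit 12) (nat_lit 1) (.p (nat_lit 13) (nat_lit 1) (.p (nat_lit 14) (nat_lit 1) (.n (nat_lit 16) (nat_lit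 1) (.n (nat_lit 17) (nat_lit 1) (.p (nat_lit 19) (nat_lit 1) (.n (nat_lit 203) (nat_lit 1) (.p (nat_lit 207) (nat_lit 1) (.p (nat_lit 211) (nat_lit 1) (.p (nat_lit 212) (nat_lit 1) (.p (nat_lit 213) (nat_lit 1) .z))))))))))))))))) .nil)))))))))))))))))))) .leaf) (nat_lit 362496) (nat_lit 1399) (.p (nat_lit 466) (nat_lit 1) .z) .df .leaf))))))

noncomputable def dC1d_t5 : Tr := (.nd dC1d_t3 (nat_lit 305154) (nat_lit 1439) (.p (nat_lit 460) (nat_lit 1) (.p (nat_lit 461) (nat_lit 2) (.n (nat_lit 463) (nat_lit 2) (.n (nat_lit 464) (nat_lit 3) (.p (nat_lit 465) (nat_lit 1) (.n (nat_lit 467) (nat_lit 1) (.n (nat_lit 468) (nat_lit 3) (.n (nat_lit 469) (nat_lit 2) (.n (nat_lit 470) (nat_lit 1) (.p (nat_lit 471) (nat_lit 1) (.n (nat_lit 472) (nat_lit 2) (.p (nat_lit 473) (nat_lit 1) (.p (nat_lit 474) (nat_lit 1) (.p (nat_lit 476) (nat_lit 1) (.p (nat_lit 477) (nat_lit 1) (.p (nat_lit 489) (nat_lit 2) (.p (nat_lit 493) (nat_lit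 3) .z))))))))))))))))) (.ct dC1d_c293 (nat_lit 1) (nat_lit 13) (.s true (nat_lit 3) (nat_lit 6) (nat_lit 5) (nat_lit 3) (nat_lit 6) false (nat_lit 1) true (nat_lit 9) true (nat_lit 9) true (nat_lit 10) true (nat_lit 12) (.s true (nat_lit 1) (nat_lit 10) (nat_lit 1) (nat_lit 6) (nat_lit 6) true (nat_lit 4) true (nat_lit 9) true (nat_lit 7) true (nat_lit 14) true (nat_lit 9) (.s false (nat_lit 3) (nat_lit 10) (nat_lit 2) (nat_lit 6) (nat_lit 5) true (nat_lit 4) true (nat_lit 10) true (nat_lit 7) true (nat_lit 13) true (nat_lit 9) (.s true (nat_lit 2) (nat_lit 10) (nat_lit 5) (nat_lit 2) (nat_lit 6) false (nat_lit 1) true (nat_lit 9) true (nat_lit 7) true (nat_lit 10) true (nat_lit 13) (.s false (nat_lit 3) (nat_lit 11) (nat_lit 6) (nat_lit 2) (nat_lit 5) false (nat_lit 1) true (nat_lit 10) true (nat_lit 7) true (nat_lit 9) true (nat_lit 13) (.s true (nat_lit 2) (nat_lit 10) (nat_lit 6) (nat_lit 6) (nat_lit 1) true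 (nat_lit 4) true (nat_lit 14) true (nat_lit 7) true (nat_lit 9) true (nat_lit 9) (.s true (nat_lit 3) (nat_lit 11) (nat_lit 6) (nat_lit 6) (nat_lit 1) true (nat_lit 4) true (nat_lit 14) true (nat_lit 7) true (nat_lit 9) true (nat_lit 9) (.s true (nat_lit 3) (nat_lit 17) (nat_lit 2) (nat_lit 2) (nat_lit 12) true (nat_lit 1) true (nat_lit 7) true (nat_lit 4) true (nat_lit 13) true (nat_lit 13) (.s true (nat_lit 2) (nat_lit 16) (nat_lit 2) (nat_lit 3) (nat_lit 6) true (nat_lit 3) true (nat_lit 9) true (nat_lit 4) true (nat_lit 13) true (nat_lit 12) (.s false (nat_lit 2) (nat_lit 16) (nat_lit 3) (nat_lit 6) (nat_lit 2) true (nat_lit 7) true (nat_lit 13) true (nat_lit 4) true (nat_lit 12) true (nat_lit 9) (.s true (nat_lit 2) (nat_lit 16) (nat_lit 10) (nat_lit 2) (nat_lit 2) true (nat_lit 1) true (nat_lit 13) true (nat_lit 4) true (nat_lit 7) true (nat_lit 13) (.s true (nat_lit 1) (nat_lit 16) (nat_lit 12) (nat_lit 2)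 (nat_lit 2) true (nat_lit 1) true (nat_lit 13) true (nat_lit 4) true (nat_lit 7) true (nat_lit 13) (.s true (nat_lit 1) (nat_lit 17) (nat_lit 12) (nat_lit 2) (nat_lit 2) true (nat_lit 1) true (nat_lit 13) true (nat_lit 4) true (nat_lit 7) true (nat_lit 13) (.s false (nat_lit 3) (nat_lit 18) (nat_lit 0) (nat_lit 5) (nat_lit 5) true (nat_lit 7) true (nat_lit 10) true (nat_lit 3) true (nat_lit 15) true (nat_lit 10) (.s true (nat_lit 1) (nat_lit 18) (nat_lit 0) (nat_lit 13) (nat_lit 2) true (nat_lit 11) true (nat_lit 13) true (nat_lit 3) true (nat_lit 15) true (nat_lit 6) (.s true (nat_lit 3) (nat_lit 18) (nat_lit 1) (nat_lit 0) (nat_lit 17) true (nat_lit 0) true (nat_lit 4) true (nat_lit 3) true (nat_lit 14) true (nat_lit 15) (.s true (nat_lit 3) (nat_lit 18) (nat_lit 1) (nat_lit 1) (nat_lit 15) true (nat_lit 1) true (nat_lit 5) true (nat_lit 3) true (nat_lit 14) true (nat_lit 14) dC1d_i423)))))))))))))))))) dC1d_t4)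

noncomputable def dC1d_t6 : Tr := (.nd dC1d_t2 (nat_lit 244738) (nat_lit 981) (.p (nat_lit 419) (nat_lit 1) .z) .df dC1d_t5)

end Pool.Agent.MalP.Chk7
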