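import Pool.Agent.MalP.AlBeEx
import Pool.Agent.MalP.CertPar

/-! # p = 7: the five certified expressions -/

set_option autoImplicit false

namespace Pool.Agent.MalP

/-- `7 x` -/
def sevEx : PEx := .ns 7 (.X 0)

/-- Malcev identities and `7 x = 0` -/
def ids7 : List PEx := [antiEx, sagleEx, sevEx]

theorem ids7_ml : ∀ e ∈ ids7, e.ml = true := by decide

namespace PEx

/-- `P(x0..x4; u, v)` for a class of five letters -/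
def P7 (x0 x1 x2 x3 x4 u v : PEx) : PEx :=
  pe x0 x1 x2 x3 x4 (u * v) - pe x0 x1 x2 x3 x4 v * u + pe x0 x1 x2 x3 x4 u * v

/-- the adjoint of `y ↦ pe x0 x1 x2 x3 x4 y` -/
def peS (x0 x1 x2 x3 x4 s : PEx) : PEx :=
  2 • (((((s * x4) * x3) * x2) * x1) * x0) - 5 • ((((s * x4) * x3) * x2) * (x0 * x1)) +
    4 • (((s * x4) * x3) * ((x0 * x1) * x2)) - 3 • (((s * (x3 * x4)) * x2) * (x0 * x1)) -
    2 • ((s * (((x0 * x1) * x2) * x3)) * x4)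

end PEx

/-- (R1), classes `[0,0,0,0,0,1,1,1]`, `par2` -/
def zR1Ex : PEx := PEx.P7 (.X 0) (.X 1) (.X 2) (.X 3) (.X 4) (.X 5) (.X 6) * .X 7

/-- (R2), classes `[0,0,0,0,1,2,1,1]`, `par1`: letters 0..3 odd, `y = X 4, X 6, X 7`, `u = X 5` -/
def zR2Ex : PEx := PEx.PP1 (.X 4) (.X 0) (.X 1) (.X 2) (.X 3) (.X 5) (.X 6) * .X 7

/-- (C1), classes `[0,0,0,0,0,1,2,1,2]`, `par1` -/
def zC1Ex : PEx := (PEx.P7 (.X 0) (.X 1) (.X 2) (.X 3) (.X 4) (.X 5) (.X 6) * .X 7) * .X 8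

/-- (C2), classes `[0,0,0,0,0,1,1,1,2]`, `par2` -/
def zC2Ex : PEx := (PEx.P7 (.X 0) (.X 1) (.X 2) (.X 3) (.X 4) (.X 5) (.X 6) * .X 8) * .X 7

/-- (D), classes `[0,0,0,0,0,2,1,1]`, `par1`: `w = X 5`, `y = X 6, X 7` -/
def zDEx : PEx := PEx.P7 (.X 0) (.X 1) (.X 2) (.X 3) (.X 4) (.X 5) (.X 6) * .X 7 -
  (PEx.peS (.X 0) (.X 1) (.X 2) (.X 3) (.X 4) (.X 5 * .X 7) * .X 6 +
    (.X 5 * .X 7) * PEx.pe (.X 0) (.X 1) (.X 2) (.X 3) (.X 4) (.X 6) +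
    PEx.peS (.X 0) (.X 1) (.X 2) (.X 3) (.X 4) ((.X 5 * .X 7) * .X 6))

theorem ex7_ml : [zR1Ex, zR2Ex, zC1Ex, zC2Ex, zDEx].all PEx.ml = true := by decide +kernel

end Pool.Agent.MalP
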