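import Pool.Agent.MalP.P7.Chk4
import Pool.Agent.MalP.P7.Ex7
import Pool.Agent.MalP.P7.CertC1a
import Pool.Agent.MalP.P7.CertC1b
import Pool.Agent.MalP.P7.CertC1c
import Pool.Agent.MalP.P7.CertC1d

/-! # Certificate of zC1Ex -/

set_option autoImplicit false
set_option maxRecDepth 100000

namespace Pool.Agent.MalP

universe u

namespace Chk7

noncomputable def dC1_c532 : Cm := .mk (nat_lit 573) (nat_lit 532) (nat_lit 260) (nat_lit 30) (.c (nat_lit 20) (nat_lit 4) (nat_lit 18) (nat_lit 1) (nat_lit 30) (.c (nat_lit 28) (nat_lit 3) (nat_lit 16) (nat_lit 2) (nat_lit 34) (.c (nat_lit 31) (nat_lit 6) (nat_lit 14) (nat_lit 2) (nat_lit 40) (.c (nat_lit 40) (nat_lit 3) (nat_lit 10) (nat_lit 3) (nat_lit 52) (.c (nat_lit 43) (nat_lit 3) (nat_lit 9) (nat_lit 1) (nat_lit 61) (.c (nat_lit 46) (nat_lit 1) (nat_lit 7) (nat_lit 1) (nat_lit 64) (.c (nat_lit 55) (nat_lit 11) (nat_lit 6) (nat_lit 1) (nat_lit 65) (.c (nat_lit 77) (nat_lit 5) (nat_lit 5) (nat_lit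 1) (nat_lit 76) (.c (nat_lit 82) (nat_lit 11) (nat_lit 4) (nat_lit 1) (nat_lit 81) (.c (nat_lit 98) (nat_lit 4) (nat_lit 3) (nat_lit 1) (nat_lit 92) (.c (nat_lit 132) (nat_lit 21) (nat_lit 2) (nat_lit 1) (nat_lit 96) (.c (nat_lit 174) (nat_lit 6) (nat_lit 1) (nat_lit 1) (nat_lit 117) (.c (nat_lit 180) (nat_lit 16) (nat_lit 0) (nat_lit 1) (nat_lit 123) (.c (nat_lit 2512) (nat_lit 0) (nat_lit 102) (nat_lit 4) (nat_lit 139) .nil))))))))))))))

noncomputable def dC1_i0 : IL := (.e false (nat_lit 3) (nat_lit 310) (nat_lit 0) (nat_lit 19) (.e true (nat_lit 1) (nat_lit 311) (nat_lit 0) (nat_lit 19) (.e false (nat_lit 2) (nat_lit 313) (nat_lit 0) (nat_lit 19) (.e true (nat_lit 1) (nat_lit 316) (nat_lit 0) (nat_lit 19) (.e true (nat_lit 1) (nat_lit 317) (nat_lit 0) (nat_lit 19) (.e false (nat_lit 3) (nat_lit 318) (nat_lit 0) (nat_lit 19) (.e false (nat_lit 1) (nat_lit 319) (nat_lit 0) (nat_lit 19) (.e false (nat_lit 3) (nat_lit 212) (nat_lit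 2) (nat_lit 17) (.e true (nat_lit 3) (nat_lit 213) (nat_lit 2) (nat_lit 17) (.e true (nat_lit 3) (nat_lit 214) (nat_lit 2) (nat_lit 17) (.e false (nat_lit 3) (nat_lit 215) (nat_lit 2) (nat_lit 17) (.e false (nat_lit 2) (nat_lit 216) (nat_lit 2) (nat_lit 17) (.e false (nat_lit 2) (nat_lit 217) (nat_lit 2) (nat_lit 17) (.e true (nat_lit 1) (nat_lit 220) (nat_lit 2) (nat_lit 17) (.e false (nat_lit 3) (nat_lit 221) (nat_lit 2) (nat_lit 17) (.e false (nat_lit 1) (nat_lit 224) (nat_lit 2) (nat_lit 17) (.e false (nat_lit 2) (nat_lit 225) (nat_lit 2) (nat_lit 17) (.e false (nat_lit 2) (nat_lit 226) (nat_lit 2) (nat_lit 17) (.e false (nat_lit 3) (nat_lit 227) (nat_lit 2) (nat_lit 17) (.e true (nat_lit 3) (nat_lit 229) (nat_lit 2) (nat_lit 17) (.e true (nat_lit 2) (nat_lit 222) (nat_lit 2) (nat_lit 17) (.e true (nat_lit 2) (nat_lit 223) (nat_lit 2) (nat_lit 17) (.e true (nat_lit 1) (nat_lit 230) (nat_lit 2) (nat_lit 17) (.e true (nat_lit 1) (nat_lit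 231) (nat_lit 2) (nat_lit 17) (.u (nat_lit 2) (.p (nat_lit 0) (nat_lit 3) (.n (nat_lit 1) (nat_lit 1) (.n (nat_lit 2) (nat_lit 1) (.n (nat_lit 4) (nat_lit 4) (.n (nat_lit 8) (nat_lit 2) (.p (nat_lit 9) (nat_lit 1) (.n (nat_lit 10) (nat_lit 1) (.n (nat_lit 11) (nat_lit 1) (.n (nat_lit 14) (nat_lit 2) (.p (nat_lit 15) (nat_lit 5) (.p (nat_lit 17) (nat_lit 2) (.n (nat_lit 19) (nat_lit 1) (.n (nat_lit 20) (nat_lit 3) (.n (nat_lit 26) (nat_lit 3) (.n (nat_lit 28) (nat_lit 2) (.p (nat_lit 29) (nat_lit 2) (.n (nat_lit 30) (nat_lit 2) (.p (nat_lit 32) (nat_lit 2) (.n (nat_lit 33) (nat_lit 1) (.n (nat_lit 34) (nat_lit 1) (.n (nat_lit 35) (nat_lit 1) (.n (nat_lit 36) (nat_lit 2) (.n (nat_lit 37) (nat_lit 1) (.p (nat_lit 39) (nat_lit 2) (.p (nat_lit 41) (nat_lit 1) (.n (nat_lit 50) (nat_lit 2) (.p (nat_lit 51) (nat_lit 1) (.p (nat_lit 52) (nat_lit 1) (.n (nat_lit 53) (nat_lit 1) (.p (nat_lit 54) (nat_lit 1) (.n (nat_lit 55) (nat_lit 1) (.p (nat_lit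 57) (nat_lit 1) (.p (nat_lit 327) (nat_lit 1) (.p (nat_lit 328) (nat_lit 1) (.p (nat_lit 329) (nat_lit 2) (.n (nat_lit 330) (nat_lit 1) (.p (nat_lit 331) (nat_lit 1) (.n (nat_lit 332) (nat_lit 1) (.p (nat_lit 335) (nat_lit 1) (.n (nat_lit 336) (nat_lit 1) (.n (nat_lit 337) (nat_lit 1) (.n (nat_lit 338) (nat_lit 1) (.p (nat_lit 339) (nat_lit 1) (.n (nat_lit 341) (nat_lit 1) (.n (nat_lit 342) (nat_lit 1) (.p (nat_lit 344) (nat_lit 1) .z)))))))))))))))))))))))))))))))))))))))))))))) .nil)))))))))))))))))))))))))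

noncomputable def dC1_i1 : IL := (.e false (nat_lit 1) (nat_lit 272) (nat_lit 1) (nat_lit 18) (.e true (nat_lit 2) (nat_lit 273) (nat_lit 1) (nat_lit 18) (.e false (nat_lit 1) (nat_lit 274) (nat_lit 1) (nat_lit 18) (.e true (nat_lit 2) (nat_lit 276) (nat_lit 1) (nat_lit 18) (.e true (nat_lit 1) (nat_lit 277) (nat_lit 1) (nat_lit 18) (.e true (nat_lit 2) (nat_lit 278) (nat_lit 1) (nat_lit 18) (.e true (nat_lit 1) (nat_lit 279) (nat_lit 1) (nat_lit 18) (.e false (nat_lit 1) (nat_lit 280) (nat_lit 1) (nat_lit 18) (.e true (nat_lit 1) (nat_lit 290) (nat_lit 0) (nat_lit 19) (.e true (nat_lit 1) (nat_lit 291) (nat_lit 0) (nat_lit 19) (.e true (nat_lit 2) (nat_lit 292) (nat_lit 0) (nat_lit 19) (.e false (nat_lit 1) (nat_lit 293) (nat_lit 0) (nat_lit 19) (.e false (nat_lit 2) (nat_lit 294) (nat_lit 0) (nat_lit 19) (.e false (nat_lit 2) (nat_lit 296) (nat_lit 0) (nat_lit 19) (.e true (nat_lit 2) (nat_lit 297) (nat_lit 0) (nat_lit 19) (.e true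 (nat_lit 2) (nat_lit 298) (nat_lit 0) (nat_lit 19) (.e true (nat_lit 3) (nat_lit 299) (nat_lit 0) (nat_lit 19) (.e false (nat_lit 3) (nat_lit 300) (nat_lit 0) (nat_lit 19) (.e false (nat_lit 2) (nat_lit 301) (nat_lit 0) (nat_lit 19) (.e false (nat_lit 1) (nat_lit 302) (nat_lit 0) (nat_lit 19) (.e true (nat_lit 2) (nat_lit 303) (nat_lit 0) (nat_lit 19) (.e false (nat_lit 3) (nat_lit 305) (nat_lit 0) (nat_lit 19) (.e true (nat_lit 2) (nat_lit 307) (nat_lit 0) (nat_lit 19) (.e true (nat_lit 2) (nat_lit 308) (nat_lit 0) (nat_lit 19) (.e false (nat_lit 1) (nat_lit 309) (nat_lit 0) (nat_lit 19) dC1_i0)))))))))))))))))))))))))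

noncomputable def dC1_c548 : Cm := .mk (nat_lit 917) (nat_lit 548) (nat_lit 355) (nat_lit 71) (.c (nat_lit 31) (nat_lit 6) (nat_lit 31) (nat_lit 6) (nat_lit 71) (.c (nat_lit 37) (nat_lit 3) (nat_lit 28) (nat_lit 3) (nat_lit 107) (.c (nat_lit 40) (nat_lit 3) (nat_lit 24) (nat_lit 4) (nat_lit 116) (.c (nat_lit 43) (nat_lit 3) (nat_lit 20) (nat_lit 4) (nat_lit 128) (.c (nat_lit 46) (nat_lit 1) (nat_lit 19) (nat_lit 1) (nat_lit 140) (.c (nat_lit 47) (nat_lit 8) (nat_lit 18) (nat_lit 1) (nat_lit 141) (.c (nat_lit 55) (nat_lit 11) (nat_lit 16) (nat_lit 2) (nat_lit 149) (.c (nat_lit 66) (nat_lit 11) (nat_lit 14) (nat_lit 2) (nat_lit 171) (.c (nat_lit 77) (nat_lit 5) (nat_lit 13) (nat_lit 1) (nat_lit 193) (.c (nat_lit 82) (nat_lit 11) (nat_lit 10) (nat_lit 3) (nat_lit 198) (.c (nat_lit 93) (nat_lit 5) (nat_lit 9) (nat_lit 1) (nat_lit 231) (.c (nat_lit 98) (nat_lit 4) (nat_lit 8) (nat_lit 1) (nat_lit 236) (.c (nat_lit 102) (nat_lit 4) (nat_lit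 7) (nat_lit 1) (nat_lit 240) (.c (nat_lit 107) (nat_lit 25) (nat_lit 6) (nat_lit 1) (nat_lit 244) (.c (nat_lit 132) (nat_lit 21) (nat_lit 5) (nat_lit 1) (nat_lit 269) (.c (nat_lit 153) (nat_lit 21) (nat_lit 4) (nat_lit 1) (nat_lit 290) (.c (nat_lit 180) (nat_lit 16) (nat_lit 3) (nat_lit 1) (nat_lit 311) (.c (nat_lit 212) (nat_lit 48) (nat_lit 2) (nat_lit 1) (nat_lit 327) (.c (nat_lit 260) (nat_lit 30) (nat_lit 1) (nat_lit 1) (nat_lit 375) (.c (nat_lit 290) (nat_lit 30) (nat_lit 0) (nat_lit 1) (nat_lit 405) (.c (nat_lit 2512) (nat_lit 0) (nat_lit 196) (nat_lit 6) (nat_lit 435) (.c (nat_lit 2032) (nat_lit 0) (nat_lit 174) (nat_lit 6) (nat_lit 435) .nil))))))))))))))))))))))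

noncomputable def dC1_i2 : IL := (.e false (nat_lit 3) (nat_lit 159) (nat_lit 0) (nat_lit 14) (.e true (nat_lit 2) (nat_lit 160) (nat_lit 0) (nat_lit 14) (.e false (nat_lit 2) (nat_lit 163) (nat_lit 0) (nat_lit 14) (.e true (nat_lit 2) (nat_lit 166) (nat_lit 0) (nat_lit 14) (.e true (nat_lit 2) (nat_lit 173) (nat_lit 0) (nat_lit 14) (.e false (nat_lit 3) (nat_lit 162) (nat_lit 0) (nat_lit 14) (.e false (nat_lit 3) (nat_lit 164) (nat_lit 0) (nat_lit 14) (.e false (nat_lit 1) (nat_lit 169) (nat_lit 0) (nat_lit 14) (.e true (nat_lit 1) (nat_lit 172) (nat_lit 0) (nat_lit 14) (.e true (nat_lit 3) (nat_lit 132) (nat_lit 1) (nat_lit 13) (.e true (nat_lit 3) (nat_lit 133) (nat_lit 1) (nat_lit 13) (.e true (nat_lit 2) (nat_lit 134) (nat_lit 1) (nat_lit 13) (.e false (nat_lit 2) (nat_lit 137) (nat_lit 1) (nat_lit 13) (.e true (nat_lit 2) (nat_lit 138) (nat_lit 1) (nat_lit 13) (.e true (nat_lit 1) (nat_lit 139) (nat_lit 1) (nat_lit 13) (.e true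 (nat_lit 3) (nat_lit 141) (nat_lit 1) (nat_lit 13) (.e true (nat_lit 3) (nat_lit 143) (nat_lit 1) (nat_lit 13) (.e false (nat_lit 1) (nat_lit 144) (nat_lit 1) (nat_lit 13) (.e false (nat_lit 2) (nat_lit 145) (nat_lit 1) (nat_lit 13) (.e false (nat_lit 2) (nat_lit 147) (nat_lit 1) (nat_lit 13) (.e false (nat_lit 1) (nat_lit 158) (nat_lit 0) (nat_lit 14) (.e true (nat_lit 2) (nat_lit 150) (nat_lit 1) (nat_lit 13) (.e true (nat_lit 1) (nat_lit 60) (nat_lit 5) (nat_lit 9) (.e true (nat_lit 1) (nat_lit 29) (nat_lit 13) (nat_lit 3) (.u (nat_lit 2) (.n (nat_lit 0) (nat_lit 2) (.n (nat_lit 2) (nat_lit 1) (.p (nat_lit 6) (nat_lit 2) (.n (nat_lit 7) (nat_lit 1) (.n (nat_lit 8) (nat_lit 1) (.p (nat_lit 10) (nat_lit 1) (.p (nat_lit 11) (nat_lit 1) (.p (nat_lit 14) (nat_lit 1) (.n (nat_lit 19) (nat_lit 2) (.n (nat_lit 20) (nat_lit 1) (.n (nat_lit 23) (nat_lit 2) (.n (nat_lit 25) (nat_lit 1) (.p (nat_lit 32) (nat_lit 1) (.n (nat_lit 36) (nat_lit 1)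 (.n (nat_lit 57) (nat_lit 1) (.n (nat_lit 93) (nat_lit 1) (.n (nat_lit 96) (nat_lit 1) (.p (nat_lit 113) (nat_lit 4) (.n (nat_lit 125) (nat_lit 1) (.n (nat_lit 126) (nat_lit 1) (.p (nat_lit 127) (nat_lit 1) (.p (nat_lit 133) (nat_lit 1) (.n (nat_lit 141) (nat_lit 1) (.p (nat_lit 158) (nat_lit 1) (.n (nat_lit 161) (nat_lit 5) (.n (nat_lit 162) (nat_lit 9) (.n (nat_lit 163) (nat_lit 6) (.n (nat_lit 164) (nat_lit 4) (.n (nat_lit 165) (nat_lit 1) (.p (nat_lit 167) (nat_lit 9) (.n (nat_lit 168) (nat_lit 2) (.n (nat_lit 169) (nat_lit 2) (.p (nat_lit 171) (nat_lit 2) (.n (nat_lit 172) (nat_lit 4) (.p (nat_lit 173) (nat_lit 5) (.p (nat_lit 174) (nat_lit 3) (.n (nat_lit 178) (nat_lit 2) (.p (nat_lit 180) (nat_lit 8) (.p (nat_lit 181) (nat_lit 1) (.n (nat_lit 183) (nat_lit 1) (.p (nat_lit 184) (nat_lit 2) (.p (nat_lit 185) (nat_lit 1) (.p (nat_lit 186) (nat_lit 4) (.n (nat_lit 187) (nat_lit 3) (.p (nat_lit 188) (nat_lit 5) (.p (nat_lit 189) (nat_lit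 1) (.p (nat_lit 191) (nat_lit 2) (.p (nat_lit 192) (nat_lit 6) (.n (nat_lit 193) (nat_lit 1) (.p (nat_lit 195) (nat_lit 3) (.n (nat_lit 197) (nat_lit 3) (.n (nat_lit 199) (nat_lit 4) (.p (nat_lit 200) (nat_lit 1) (.p (nat_lit 201) (nat_lit 3) (.n (nat_lit 202) (nat_lit 6) .z))))))))))))))))))))))))))))))))))))))))))))))))))))))) .nil)))))))))))))))))))))))))

noncomputable def dC1_i3 : IL := (.s true (nat_lit 1) (nat_lit 24) (nat_lit 0) (nat_lit 2) (nat_lit 2) true (nat_lit 10) true (nat_lit 12) false (nat_lit 2) true (nat_lit 14) true (nat_lit 12) (.s false (nat_lit 2) (nat_lit 24) (nat_lit 2) (nat_lit 0) (nat_lit 2) true (nat_lit 8) true (nat_lit 12) false (nat_lit 2) true (nat_lit 12) true (nat_lit 14) (.s false (nat_lit 2) (nat_lit 24) (nat_lit 2) (nat_lit 2) (nat_lit 0) true (nat_lit 10) true (nat_lit 14) false (nat_lit 2) true (nat_lit 12) true (nat_lit 12) (.s false (nat_lit 2) (nat_lit 40) (nat_lit 0) (nat_lit 1) (nat_lit 1)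 true (nat_lit 11) true (nat_lit 13) false (nat_lit 6) true (nat_lit 14) true (nat_lit 13) (.s false (nat_lit 1) (nat_lit 41) (nat_lit 1) (nat_lit 0) (nat_lit 1) false (nat_lit 16) true (nat_lit 13) false (nat_lit 6) true (nat_lit 13) true (nat_lit 14) (.s true (nat_lit 3) (nat_lit 42) (nat_lit 1) (nat_lit 0) (nat_lit 1) false (nat_lit 16) true (nat_lit 13) false (nat_lit 6) true (nat_lit 13) true (nat_lit 14) (.s false (nat_lit 3) (nat_lit 40) (nat_lit 1) (nat_lit 1) (nat_lit 0) true (nat_lit 11) true (nat_lit 14) false (nat_lit 6) true (nat_lit 13) true (nat_lit 13) (.s true (nat_lit 1) (nat_lit 41) (nat_lit 1) (nat_lit 1) (nat_lit 0) true (nat_lit 11) true (nat_lit 14) false (nat_lit 6) true (nat_lit 13) true (nat_lit 13) (.s false (nat_lit 2) (nat_lit 43) (nat_lit 0) (nat_lit 0) (nat_lit 1) true (nat_lit 11) true (nat_lit 13) false (nat_lit 7) true (nat_lit 14) true (nat_lit 14) (.s true (nat_lit 3) (nat_lit 44) (nat_lit 0) (nat_lit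 0) (nat_lit 1) true (nat_lit 11) true (nat_lit 13) false (nat_lit 7) true (nat_lit 14) true (nat_lit 14) (.s false (nat_lit 3) (nat_lit 45) (nat_lit 0) (nat_lit 0) (nat_lit 1) true (nat_lit 11) true (nat_lit 13) false (nat_lit 7) true (nat_lit 14) true (nat_lit 14) (.s true (nat_lit 2) (nat_lit 44) (nat_lit 0) (nat_lit 1) (nat_lit 0) false (nat_lit 15) true (nat_lit 14) false (nat_lit 7) true (nat_lit 14) true (nat_lit 13) (.s false (nat_lit 2) (nat_lit 43) (nat_lit 1) (nat_lit 0) (nat_lit 0) true (nat_lit 11) true (nat_lit 14) false (nat_lit 7) true (nat_lit 13) true (nat_lit 14) (.e false (nat_lit 1) (nat_lit 154) (nat_lit 0) (nat_lit 14) (.e true (nat_lit 1) (nat_lit 161) (nat_lit 0) (nat_lit 14) (.e true (nat_lit 3) (nat_lit 167) (nat_lit 0) (nat_lit 14) (.e true (nat_lit 1) (nat_lit 129) (nat_lit 2) (nat_lit 12) (.e false (nat_lit 2) (nat_lit 149) (nat_lit 1) (nat_lit 13) (.e false (nat_lit 2) (nat_lit 112) (nat_lit 2) (nat_lit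 12) (.e true (nat_lit 1) (nat_lit 114) (nat_lit 2) (nat_lit 12) (.e false (nat_lit 2) (nat_lit 170) (nat_lit 0) (nat_lit 14) (.e false (nat_lit 1) (nat_lit 125) (nat_lit 2) (nat_lit 12) (.e false (nat_lit 2) (nat_lit 153) (nat_lit 0) (nat_lit 14) (.e true (nat_lit 2) (nat_lit 155) (nat_lit 0) (nat_lit 14) (.e false (nat_lit 2) (nat_lit 156) (nat_lit 0) (nat_lit 14) dC1_i2)))))))))))))))))))))))))

noncomputable def dC1_c547 : Cm := .mk (nat_lit 418) (nat_lit 547) (nat_lit 212) (nat_lit 48) (.c (nat_lit 19) (nat_lit 1) (nat_lit 18) (nat_lit 1) (nat_lit 48) (.c (nat_lit 20) (nat_lit 4) (nat_lit 16) (nat_lit 2) (nat_lit 49) (.c (nat_lit 24) (nat_lit 4) (nat_lit 14) (nat_lit 2) (nat_lit 57) (.c (nat_lit 28) (nat_lit 3) (nat_lit 13) (nat_lit 1) (nat_lit 65) (.c (nat_lit 31) (nat_lit 6) (nat_lit 10) (nat_lit 3) (nat_lit 68) (.c (nat_lit 37) (nat_lit 3) (nat_lit 9) (nat_lit 1) (nat_lit 86) (.c (nat_lit 40) (nat_lit 3) (nat_lit 8) (nat_lit 1)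 (nat_lit 89) (.c (nat_lit 43) (nat_lit 3) (nat_lit 7) (nat_lit 1) (nat_lit 92) (.c (nat_lit 47) (nat_lit 8) (nat_lit 6) (nat_lit 1) (nat_lit 95) (.c (nat_lit 55) (nat_lit 11) (nat_lit 5) (nat_lit 1) (nat_lit 103) (.c (nat_lit 66) (nat_lit 11) (nat_lit 4) (nat_lit 1) (nat_lit 114) (.c (nat_lit 82) (nat_lit 11) (nat_lit 3) (nat_lit 1) (nat_lit 125) (.c (nat_lit 107) (nat_lit 25) (nat_lit 2) (nat_lit 1) (nat_lit 136) (.c (nat_lit 132) (nat_lit 21) (nat_lit 1) (nat_lit 1) (nat_lit 161) (.c (nat_lit 153) (nat_lit 21) (nat_lit 0) (nat_lit 1) (nat_lit 182) (.c (nat_lit 2512) (nat_lit 0) (nat_lit 93) (nat_lit 5) (nat_lit 203) (.c (nat_lit 2032) (nat_lit 0) (nat_lit 77) (nat_lit 5) (nat_lit 203) .nil)))))))))))))))))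

noncomputable def dC1_t0 : Tr := (.nd dC1a_t6 (nat_lit 41996) (nat_lit 661) (.n (nat_lit 260) (nat_lit 1) (.p (nat_lit 261) (nat_lit 2) (.p (nat_lit 262) (nat_lit 3) (.n (nat_lit 263) (nat_lit 3) (.p (nat_lit 265) (nat_lit 2) (.n (nat_lit 266) (nat_lit 3) (.n (nat_lit 268) (nat_lit 1) (.p (nat_lit 269) (nat_lit 1) (.p (nat_lit 270) (nat_lit 3) (.n (nat_lit 271) (nat_lit 2) (.p (nat_lit 272) (nat_lit 2) (.p (nat_lit 273) (nat_lit 1) (.n (nat_lit 274) (nat_lit 1) (.n (nat_lit 275) (nat_lit 2) (.p (nat_lit 276) (nat_lit 2) (.n (nat_lit 277) (nat_lit 1) (.n (nat_lit 278) (nat_lit 3) (.p (nat_lit 279) (nat_lit 1) (.n (nat_lit 280) (nat_lit 2) (.p (nat_lit 281) (nat_lit 1) (.p (nat_lit 283) (nat_lit 2) (.n (nat_lit 284) (nat_lit 2) (.p (nat_lit 286) (nat_lit 3) (.n (nat_lit 287) (nat_lit 3) (.p (nat_lit 288) (nat_lit 2) (.n (nat_lit 289) (nat_lit 1) .z)))))))))))))))))))))))))) (.ct dC1_c532 (nat_lit 1) (nat_lit 3) (.s true (nat_lit 1) (nat_lit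 12) (nat_lit 2) (nat_lit 2) (nat_lit 4) true (nat_lit 2) true (nat_lit 8) true (nat_lit 3) true (nat_lit 10) true (nat_lit 10) (.e true (nat_lit 1) (nat_lit 33) (nat_lit 14) (nat_lit 2) (.e true (nat_lit 1) (nat_lit 84) (nat_lit 4) (nat_lit 8) (.e true (nat_lit 1) (nat_lit 42) (nat_lit 12) (nat_lit 3) (.e true (nat_lit 3) (nat_lit 132) (nat_lit 2) (nat_lit 10) (.e true (nat_lit 1) (nat_lit 133) (nat_lit 2) (nat_lit 10) (.e false (nat_lit 3) (nat_lit 134) (nat_lit 2) (nat_lit 10) (.e false (nat_lit 2) (nat_lit 136) (nat_lit 2) (nat_lit 10) (.e true (nat_lit 2) (nat_lit 138) (nat_lit 2) (nat_lit 10) (.e true (nat_lit 3) (nat_lit 140) (nat_lit 2) (nat_lit 10) (.e true (nat_lit 2) (nat_lit 142) (nat_lit 2) (nat_lit 10) (.e true (nat_lit 1) (nat_lit 143) (nat_lit 2) (nat_lit 10) (.e true (nat_lit 2) (nat_lit 144) (nat_lit 2) (nat_lit 10) (.e true (nat_lit 1) (nat_lit 145) (nat_lit 2) (nat_lit 10) (.e false (nat_lit 1) (nat_lit 146) (nat_lit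 2) (nat_lit 10) (.e true (nat_lit 1) (nat_lit 147) (nat_lit 2) (nat_lit 10) (.e false (nat_lit 1) (nat_lit 148) (nat_lit 2) (nat_lit 10) (.e false (nat_lit 1) (nat_lit 149) (nat_lit 2) (nat_lit 10) (.e true (nat_lit 2) (nat_lit 150) (nat_lit 2) (nat_lit 10) (.e false (nat_lit 2) (nat_lit 151) (nat_lit 2) (nat_lit 10) (.e true (nat_lit 3) (nat_lit 152) (nat_lit 2) (nat_lit 10) (.e true (nat_lit 1) (nat_lit 137) (nat_lit 2) (nat_lit 10) (.e true (nat_lit 1) (nat_lit 139) (nat_lit 2) (nat_lit 10) (.u (nat_lit 2) (.p (nat_lit 0) (nat_lit 1) (.n (nat_lit 1) (nat_lit 1) (.p (nat_lit 3) (nat_lit 1) (.n (nat_lit 4) (nat_lit 1) (.n (nat_lit 8) (nat_lit 1) (.n (nat_lit 10) (nat_lit 1) (.n (nat_lit 13) (nat_lit 1) (.p (nat_lit 17) (nat_lit 1) (.p (nat_lit 19) (nat_lit 1) (.n (nat_lit 26) (nat_lit 1) (.p (nat_lit 27) (nat_lit 1) (.n (nat_lit 98) (nat_lit 1) .z)))))))))))) .nil))))))))))))))))))))))))) dC1b_t6)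

noncomputable def dC1_t1 : Tr := (.nd dC1c_t6 (nat_lit 175104) (nat_lit 487) (.p (nat_lit 212) (nat_lit 3) (.p (nat_lit 213) (nat_lit 1) (.p (nat_lit 214) (nat_lit 3) (.n (nat_lit 215) (nat_lit 1) (.p (nat_lit 216) (nat_lit 2) (.n (nat_lit 217) (nat_lit 2) (.n (nat_lit 218) (nat_lit 1) (.p (nat_lit 219) (nat_lit 1) (.p (nat_lit 220) (nat_lit 3) (.n (nat_lit 221) (nat_lit 2) (.n (nat_lit 222) (nat_lit 3) (.n (nat_lit 223) (nat_lit 3) (.p (nat_lit 224) (nat_lit 2) (.n (nat_lit 226) (nat_lit 2) (.n (nat_lit 227) (nat_lit 1) (.p (nat_lit 229) (nat_lit 2) .z)))))))))))))))) (.ct dC1_c547 (nat_lit 1) (nat_lit 14) (.s true (nat_lit 3) (nat_lit 6) (nat_lit 3) (nat_lit 0) (nat_lit 5) false (nat_lit 2) true (nat_lit 9) true (nat_lit 8) true (nat_lit 11) true (nat_lit 14) (.s false (nat_lit 3) (nat_lit 7) (nat_lit 1) (nat_lit 6) (nat_lit 2) true (nat_lit 9) true (nat_lit 12) true (nat_lit 7) true (nat_lit 13) true (nat_lit 8) (.s false (nat_lit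 3) (nat_lit 7) (nat_lit 2) (nat_lit 2) (nat_lit 5) true (nat_lit 1) true (nat_lit 9) true (nat_lit 7) true (nat_lit 12) true (nat_lit 12) (.s true (nat_lit 3) (nat_lit 7) (nat_lit 2) (nat_lit 6) (nat_lit 1) true (nat_lit 9) true (nat_lit 13) true (nat_lit 7) true (nat_lit 12) true (nat_lit 8) (.s false (nat_lit 2) (nat_lit 7) (nat_lit 5) (nat_lit 2) (nat_lit 2) true (nat_lit 1) true (nat_lit 12) true (nat_lit 7) true (nat_lit 9) true (nat_lit 12) (.s false (nat_lit 1) (nat_lit 7) (nat_lit 6) (nat_lit 1) (nat_lit 2) true (nat_lit 0) true (nat_lit 12) true (nat_lit 7) true (nat_lit 8) true (nat_lit 13) (.s false (nat_lit 2) (nat_lit 8) (nat_lit 0) (nat_lit 2) (nat_lit 6) true (nat_lit 2) true (nat_lit 8) true (nat_lit 6) true (nat_lit 14) true (nat_lit 12) (.s true (nat_lit 1) (nat_lit 8) (nat_lit 2) (nat_lit 2) (nat_lit 4) true (nat_lit 2) true (nat_lit 10) true (nat_lit 6) true (nat_lit 12) true (nat_lit 12) (.s false (nat_lit 2) (nat_lit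 8) (nat_lit 2) (nat_lit 6) (nat_lit 0) true (nat_lit 10) true (nat_lit 14) true (nat_lit 6) true (nat_lit 12) true (nat_lit 8) (.s true (nat_lit 2) (nat_lit 8) (nat_lit 4) (nat_lit 2) (nat_lit 2) true (nat_lit 2) true (nat_lit 12) true (nat_lit 6) true (nat_lit 10) true (nat_lit 12) (.s false (nat_lit 2) (nat_lit 8) (nat_lit 6) (nat_lit 0) (nat_lit 2) true (nat_lit 0) true (nat_lit 12) true (nat_lit 6) true (nat_lit 8) true (nat_lit 14) (.s true (nat_lit 3) (nat_lit 13) (nat_lit 6) (nat_lit 0) (nat_lit 0) true (nat_lit 2) true (nat_lit 14) true (nat_lit 3) true (nat_lit 8) true (nat_lit 14) (.s false (nat_lit 3) (nat_lit 15) (nat_lit 1) (nat_lit 0) (nat_lit 5) true (nat_lit 3) true (nat_lit 9) true (nat_lit 2) true (nat_lit 13) true (nat_lit 14) (.s false (nat_lit 1) (nat_lit 14) (nat_lit 1) (nat_lit 5) (nat_lit 0) true (nat_lit 11) true (nat_lit 14) true (nat_lit 2) true (nat_lit 13) true (nat_lit 9) (.s false (nat_lit 3) (nat_lit 15)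 (nat_lit 1) (nat_lit 5) (nat_lit 0) true (nat_lit 11) true (nat_lit 14) true (nat_lit 2) true (nat_lit 13) true (nat_lit 9) (.s false (nat_lit 1) (nat_lit 14) (nat_lit 2) (nat_lit 3) (nat_lit 1) true (nat_lit 9) true (nat_lit 13) true (nat_lit 2) true (nat_lit 12) true (nat_lit 11) (.s false (nat_lit 1) (nat_lit 14) (nat_lit 5) (nat_lit 0) (nat_lit 1) true (nat_lit 3) true (nat_lit 13) true (nat_lit 2) true (nat_lit 9) true (nat_lit 14) (.s true (nat_lit 3) (nat_lit 19) (nat_lit 2) (nat_lit 2) (nat_lit 2) true (nat_lit 8) true (nat_lit 12) false (nat_lit 0) true (nat_lit 12) true (nat_lit 12) (.s true (nat_lit 3) (nat_lit 20) (nat_lit 1) (nat_lit 2) (nat_lit 2) true (nat_lit 9) true (nat_lit 12) false (nat_lit 1) true (nat_lit 13) true (nat_lit 12) (.s false (nat_lit 2) (nat_lit 20) (nat_lit 2) (nat_lit 1) (nat_lit 2) true (nat_lit 8) true (nat_lit 12) false (nat_lit 1) true (nat_lit 12) true (nat_lit 13) dC1_i3)))))))))))))))))))))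 dC1d_t6)

noncomputable def dC1_t2 : Tr := (.nd dC1_t0 (nat_lit 88075) (nat_lit 1037) (.n (nat_lit 355) (nat_lit 1) (.p (nat_lit 356) (nat_lit 1) (.n (nat_lit 357) (nat_lit 1) (.n (nat_lit 358) (nat_lit 2) (.p (nat_lit 359) (nat_lit 3) (.p (nat_lit 360) (nat_lit 3) (.p (nat_lit 361) (nat_lit 2) (.n (nat_lit 362) (nat_lit 2) (.p (nat_lit 364) (nat_lit 3) (.p (nat_lit 366) (nat_lit 2) (.n (nat_lit 367) (nat_lit 1) (.n (nat_lit 368) (nat_lit 2) (.p (nat_lit 369) (nat_lit 3) (.n (nat_lit 370) (nat_lit 3) (.n (nat_lit 372) (nat_lit 3) (.p (nat_lit 373) (nat_lit 1) (.p (nat_lit 375) (nat_lit 3) (.n (nat_lit 381) (nat_lit 2) (.n (nat_lit 382) (nat_lit 1) (.n (nat_lit 383) (nat_lit 3) (.n (nat_lit 384) (nat_lit 2) (.p (nat_lit 385) (nat_lit 2) (.n (nat_lit 386) (nat_lit 2) (.n (nat_lit 388) (nat_lit 2) (.n (nat_lit 389) (nat_lit 1) (.p (nat_lit 390) (nat_lit 3) (.p (nat_lit 391) (nat_lit 2) (.p (nat_lit 392) (nat_lit 3) (.n (nat_lit 394) (nat_lit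 3) (.n (nat_lit 395) (nat_lit 1) (.n (nat_lit 396) (nat_lit 2) (.n (nat_lit 398) (nat_lit 2) (.p (nat_lit 403) (nat_lit 2) (.p (nat_lit 404) (nat_lit 3) (.p (nat_lit 405) (nat_lit 1) (.n (nat_lit 406) (nat_lit 1) (.p (nat_lit 408) (nat_lit 1) (.p (nat_lit 409) (nat_lit 3) (.n (nat_lit 410) (nat_lit 3) (.p (nat_lit 413) (nat_lit 2) .z)))))))))))))))))))))))))))))))))))))))) (.ct dC1_c548 (nat_lit 1) (nat_lit 9) (.s true (nat_lit 1) (nat_lit 86) (nat_lit 0) (nat_lit 2) (nat_lit 1) true (nat_lit 16) true (nat_lit 18) false (nat_lit 9) true (nat_lit 19) true (nat_lit 17) (.e true (nat_lit 1) (nat_lit 184) (nat_lit 3) (nat_lit 16) (.e false (nat_lit 2) (nat_lit 260) (nat_lit 1) (nat_lit 18) (.e true (nat_lit 2) (nat_lit 262) (nat_lit 1) (nat_lit 18) (.e true (nat_lit 1) (nat_lit 263) (nat_lit 1) (nat_lit 18) (.e false (nat_lit 1) (nat_lit 264) (nat_lit 1) (nat_lit 18) (.e false (nat_lit 1) (nat_lit 265) (nat_lit 1) (nat_lit 18) (.e true (nat_lit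 1) (nat_lit 267) (nat_lit 1) (nat_lit 18) (.e false (nat_lit 2) (nat_lit 269) (nat_lit 1) (nat_lit 18) (.e false (nat_lit 2) (nat_lit 270) (nat_lit 1) (nat_lit 18) (.e false (nat_lit 1) (nat_lit 271) (nat_lit 1) (nat_lit 18) dC1_i1)))))))))))) dC1_t1)

noncomputable def dC1_cl : CL := (.c (nat_lit 256) (nat_lit 0) (nat_lit 1) (.c (nat_lit 16) (nat_lit 1) (nat_lit 1) (.c (nat_lit 1) (nat_lit 2) (nat_lit 1) (.c (nat_lit 512) (nat_lit 2512) (nat_lit 0) (.c (nat_lit 272) (nat_lit 3) (nat_lit 1) (.c (nat_lit 32) (nat_lit 2032) (nat_lit 0) (.c (nat_lit 257) (nat_lit 4) (nat_lit 1) (.c (nat_lit 17) (nat_lit 5) (nat_lit 1) (.c (nat_lit 2) (nat_lit 6) (nat_lit 1) (.c (nat_lit 528) (nat_lit 7) (nat_lit 1) (.c (nat_lit 288) (nat_lit 8) (nat_lit 1) (.c (nat_lit 513) (nat_lit 9) (nat_lit 1) (.c (nat_lit 273) (nat_lit 10) (nat_lit 3) (.c (nat_lit 33) (nat_lit 13) (nat_lit 1) (.c (nat_lit 258) (nat_lit 14) (nat_lit 2) (.c (nat_lit 18) (nat_lit 16)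 (nat_lit 2) (.c (nat_lit 3) (nat_lit 18) (nat_lit 1) (.c (nat_lit 544) (nat_lit 19) (nat_lit 1) (.c (nat_lit 529) (nat_lit 20) (nat_lit 4) (.c (nat_lit 289) (nat_lit 24) (nat_lit 4) (.c (nat_lit 514) (nat_lit 28) (nat_lit 3) (.c (nat_lit 274) (nat_lit 31) (nat_lit 6) (.c (nat_lit 34) (nat_lit 37) (nat_lit 3) (.c (nat_lit 259) (nat_lit 40) (nat_lit 3) (.c (nat_lit 19) (nat_lit 43) (nat_lit 3) (.c (nat_lit 4) (nat_lit 46) (nat_lit 1) (.c (nat_lit 545) (nat_lit 47) (nat_lit 8) (.c (nat_lit 530) (nat_lit 55) (nat_lit 11) (.c (nat_lit 290) (nat_lit 66) (nat_lit 11) (.c (nat_lit 515) (nat_lit 77) (nat_lit 5) (.c (nat_lit 275) (nat_lit 82) (nat_lit 11) (.c (nat_lit 35) (nat_lit 93) (nat_lit 5) (.c (nat_lit 260) (nat_lit 98) (nat_lit 4) (.c (nat_lit 20) (nat_lit 102) (nat_lit 4) (.c (nat_lit 5) (nat_lit 106) (nat_lit 1) (.c (nat_lit 546) (nat_lit 107) (nat_lit 25) (.c (nat_lit 531) (nat_lit 132) (nat_lit 21) (.c (nat_lit 291) (nat_lit 153) (nat_lit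 21) (.c (nat_lit 516) (nat_lit 174) (nat_lit 6) (.c (nat_lit 276) (nat_lit 180) (nat_lit 16) (.c (nat_lit 36) (nat_lit 196) (nat_lit 6) (.c (nat_lit 261) (nat_lit 202) (nat_lit 5) (.c (nat_lit 21) (nat_lit 207) (nat_lit 5) (.c (nat_lit 547) (nat_lit 212) (nat_lit 48) (.c (nat_lit 532) (nat_lit 260) (nat_lit 30) (.c (nat_lit 292) (nat_lit 290) (nat_lit 30) (.c (nat_lit 517) (nat_lit 320) (nat_lit 8) (.c (nat_lit 277) (nat_lit 328) (nat_lit 19) (.c (nat_lit 37) (nat_lit 347) (nat_lit 8) (.c (nat_lit 548) (nat_lit 355) (nat_lit 71) (.c (nat_lit 533) (nat_lit 426) (nat_lit 34) (.c (nat_lit 293) (nat_lit 460) (nat_lit 34) .nil))))))))))))))))))))))))))))))))))))))))))))))))))))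

noncomputable def dC1_D : Dt := ⟨(nat_lit 16777216), (nat_lit 8388608), (nat_lit 1), (nat_lit 494), (nat_lit 20187398706416997562182263127933242673888887858910174720990718576341937540784898596164615946403518309613954768541361988816587681697007898711419828526948652259447196856784409743991861458303344085530099650790878051130164263837377052498976677260429425898075807804309903628125526555330021001005162754855295754730326729347047197741261113365693924590424993209002859165204545359529732139496093112381611657270355998421091895999749822996680021693869531395096806481262334037506264329367928119609051952760376700685115227145250826277127445928390313873800594718397543983365896463041150950557518456595316078829424351116771028572783726787441130656039337367736955151123179177603266127163574762540430143108101743134963000123680051962843717762489728949676088075364350043383917254171960436342289960336246753959683102073029901695588511388953059706249220145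02204125138577952181400293785854522044821061608427311354044533851202543799070318002701102230866884047996849991682022515206046870756980164006754780337421904741257331865856473767061264239586853968883062018826299619421070086514206709333674002048793870054559291585363668744962237100310811936131342198371125734427298946524483754894312988853259758644060255227333033448753650093095204987211414792522379755240724533230572886758024898872763966672620015337162114109221553477250805058421313552159003786733966859036591889445437110215574183249440928702561135746219662092408980271868011172987200008497270524618513475999456060381942564650971822637099553103259533702432865554553806650137111826218111720089082921798473037033557651258930048396371211367949632536237476980375275935447471252124050489382223895588874997506949398845381869670772149862769199169718112461246901305555741802345512557714879415558435225914871845643338030709094053550926741800141381188885325150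48661667013316384098258303815751610533747959631738764399937130782292086955705556669548808597292400668625500460609667659032593664241297830726008634644200728320785108728004160080956955074515135277089942447099337947825256716461429377192502256549276515664573866684121488908566841572924260744301388197515503312604600109197677477773216382327792646941706193531182889894030264889508835169508281636022512999731918455461597085345667159853910905909351100069593594263652030812627310945236390794847843020569485837378666213130556770043692194028383278417234133380985219913153226989578169101604066727645572893001265382596328108796236072648543273410602989279595376673280383672394740831999477800628691114176545578661813970482174835649905736582934520243610112646935151251707319597455227637066938165489931009693170943068533974606268633934916971802654016242981113763566338100753936778670278468595792362724285945603535301506906012539183393549264471619803634534671625487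7396907764390667605917743554814936827994403874570333612375420802623109709279177928956265331523773215505616976280261525005814174271633516600165766087383798662173030875218271147853049162754501490128590055847654196278863656112581606953420382810939149284020771649467559507985335911643768477251001440527158662659787991919506114358929070472494660585274671930081296103199904662215705889806664748251491559101881245883714081447557119400412070582289390399693640572696805564636577811759639736226453244550783071352717890824428422744918601773230519048974772727657832906514181272153960218257485309535806224566869879281172875189954344101143074155018939953267610339710339276589364813774279770365004845554805665498180545274709090336220767198879603795366894269475465762074036047791668208810998771765144641591033746903491069165781337320173243255693277921285), (nat_lit 51146728248377216718782797157048685824661454474869654150512985934649671157308712063849340492529445148520945982142323740664514407021937915271620869684),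 dC1_t2, dC1_cl⟩

noncomputable def dC1_gs : BL := (.c (nat_lit 47) (nat_lit 8) (nat_lit 46) (nat_lit 1) (nat_lit 0) (.c (nat_lit 55) (nat_lit 11) (nat_lit 43) (nat_lit 3) (nat_lit 8) (.c (nat_lit 66) (nat_lit 11) (nat_lit 40) (nat_lit 3) (nat_lit 41) (.c (nat_lit 77) (nat_lit 5) (nat_lit 37) (nat_lit 3) (nat_lit 74) (.c (nat_lit 82) (nat_lit 11) (nat_lit 31) (nat_lit 6) (nat_lit 89) (.c (nat_lit 93) (nat_lit 5) (nat_lit 28) (nat_lit 3) (nat_lit 155) (.c (nat_lit 98) (nat_lit 4) (nat_lit 24) (nat_lit 4) (nat_lit 170) (.c (nat_lit 102) (nat_lit 4) (nat_lit 20) (nat_lit 4) (nat_lit 186) (.c (nat_lit 106) (nat_lit 1) (nat_lit 19) (nat_lit 1) (nat_lit 202) (.c (nat_lit 107) (nat_lit 25) (nat_lit 18) (nat_lit 1) (nat_lit 203) (.c (nat_lit 132) (nat_lit 21) (nat_lit 16) (nat_lit 2) (nat_lit 228) (.c (nat_lit 153) (nat_lit 21) (nat_lit 14) (nat_lit 2) (nat_lit 270) (.c (nat_lit 174) (nat_lit 6) (nat_lit 13) (nat_lit 1) (nat_lit 312) (.c (nat_lit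 180) (nat_lit 16) (nat_lit 10) (nat_lit 3) (nat_lit 318) (.c (nat_lit 196) (nat_lit 6) (nat_lit 9) (nat_lit 1) (nat_lit 366) (.c (nat_lit 202) (nat_lit 5) (nat_lit 8) (nat_lit 1) (nat_lit 372) (.c (nat_lit 207) (nat_lit 5) (nat_lit 7) (nat_lit 1) (nat_lit 377) (.c (nat_lit 212) (nat_lit 48) (nat_lit 6) (nat_lit 1) (nat_lit 382) (.c (nat_lit 260) (nat_lit 30) (nat_lit 5) (nat_lit 1) (nat_lit 430) (.c (nat_lit 290) (nat_lit 30) (nat_lit 4) (nat_lit 1) (nat_lit 460) (.c (nat_lit 328) (nat_lit 19) (nat_lit 3) (nat_lit 1) (nat_lit 490) (.c (nat_lit 355) (nat_lit 71) (nat_lit 2) (nat_lit 1) (nat_lit 509) (.c (nat_lit 426) (nat_lit 34) (nat_lit 1) (nat_lit 1) (nat_lit 580) (.c (nat_lit 460) (nat_lit 34) (nat_lit 0) (nat_lit 1) (nat_lit 614) (.c (nat_lit 2512) (nat_lit 0) (nat_lit 347) (nat_lit 8) (nat_lit 648) (.c (nat_lit 2032) (nat_lit 0) (nat_lit 320) (nat_lit 8) (nat_lit 648) .nil))))))))))))))))))))))))))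

noncomputable def dC1_i4 : IL := (.s false (nat_lit 1) (nat_lit 133) (nat_lit 2) (nat_lit 1) (nat_lit 2) true (nat_lit 17) true (nat_lit 21) false (nat_lit 10) true (nat_lit 21) true (nat_lit 22) (.s true (nat_lit 3) (nat_lit 134) (nat_lit 2) (nat_lit 1) (nat_lit 2) true (nat_lit 17) true (nat_lit 21) false (nat_lit 10) true (nat_lit 21) true (nat_lit 22) (.s true (nat_lit 2) (nat_lit 137) (nat_lit 2) (nat_lit 1) (nat_lit 2) true (nat_lit 17) true (nat_lit 21) false (nat_lit 10) true (nat_lit 21) true (nat_lit 22) (.s true (nat_lit 3) (nat_lit 139) (nat_lit 2) (nat_lit 1) (nat_lit 2) true (nat_lit 17) true (nat_lit 21) false (nat_lit 10) true (nat_lit 21) true (nat_lit 22) (.s true (nat_lit 3) (nat_lit 140) (nat_lit 2) (nat_lit 1) (nat_lit 2) true (nat_lit 17) true (nat_lit 21) false (nat_lit 10) true (nat_lit 21) true (nat_lit 22) (.s false (nat_lit 2) (nat_lit 141) (nat_lit 2) (nat_lit 1) (nat_lit 2) true (nat_lit 17) true (nat_lit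 21) false (nat_lit 10) true (nat_lit 21) true (nat_lit 22) (.s false (nat_lit 1) (nat_lit 142) (nat_lit 2) (nat_lit 1) (nat_lit 2) true (nat_lit 17) true (nat_lit 21) false (nat_lit 10) true (nat_lit 21) true (nat_lit 22) (.s true (nat_lit 1) (nat_lit 152) (nat_lit 2) (nat_lit 1) (nat_lit 2) true (nat_lit 17) true (nat_lit 21) false (nat_lit 10) true (nat_lit 21) true (nat_lit 22) (.s true (nat_lit 1) (nat_lit 133) (nat_lit 2) (nat_lit 2) (nat_lit 1) true (nat_lit 18) true (nat_lit 22) false (nat_lit 10) true (nat_lit 21) true (nat_lit 21) (.s true (nat_lit 2) (nat_lit 136) (nat_lit 2) (nat_lit 2) (nat_lit 1) true (nat_lit 18) true (nat_lit 22) false (nat_lit 10) true (nat_lit 21) true (nat_lit 21) (.s true (nat_lit 2) (nat_lit 177) (nat_lit 1) (nat_lit 1) (nat_lit 2) true (nat_lit 18) true (nat_lit 21) false (nat_lit 12) true (nat_lit 22) true (nat_lit 22) (.s false (nat_lit 1) (nat_lit 178) (nat_lit 1) (nat_lit 1) (nat_lit 2) true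 (nat_lit 18) true (nat_lit 21) false (nat_lit 12) true (nat_lit 22) true (nat_lit 22) (.s true (nat_lit 3) (nat_lit 174) (nat_lit 1) (nat_lit 2) (nat_lit 1) false (nat_lit 25) true (nat_lit 22) false (nat_lit 12) true (nat_lit 22) true (nat_lit 21) (.s true (nat_lit 3) (nat_lit 175) (nat_lit 1) (nat_lit 2) (nat_lit 1) false (nat_lit 25) true (nat_lit 22) false (nat_lit 12) true (nat_lit 22) true (nat_lit 21) (.s true (nat_lit 3) (nat_lit 176) (nat_lit 1) (nat_lit 2) (nat_lit 1) false (nat_lit 25) true (nat_lit 22) false (nat_lit 12) true (nat_lit 22) true (nat_lit 21) (.s false (nat_lit 1) (nat_lit 174) (nat_lit 2) (nat_lit 1) (nat_lit 1) true (nat_lit 18) true (nat_lit 22) false (nat_lit 12) true (nat_lit 21) true (nat_lit 22) (.s true (nat_lit 1) (nat_lit 175) (nat_lit 2) (nat_lit 1) (nat_lit 1) true (nat_lit 18) true (nat_lit 22) false (nat_lit 12) true (nat_lit 21) true (nat_lit 22) (.s true (nat_lit 2) (nat_lit 176) (nat_lit 2)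 (nat_lit 1) (nat_lit 1) true (nat_lit 18) true (nat_lit 22) false (nat_lit 12) true (nat_lit 21) true (nat_lit 22) (.s true (nat_lit 2) (nat_lit 198) (nat_lit 0) (nat_lit 0) (nat_lit 2) true (nat_lit 19) true (nat_lit 21) false (nat_lit 14) true (nat_lit 23) true (nat_lit 23) (.s true (nat_lit 2) (nat_lit 201) (nat_lit 0) (nat_lit 2) (nat_lit 0) false (nat_lit 24) true (nat_lit 23) false (nat_lit 14) true (nat_lit 23) true (nat_lit 21) (.s true (nat_lit 2) (nat_lit 198) (nat_lit 2) (nat_lit 0) (nat_lit 0) true (nat_lit 19) true (nat_lit 23) false (nat_lit 14) true (nat_lit 21) true (nat_lit 23) (.u (nat_lit 2) (.n (nat_lit 9) (nat_lit 1) (.n (nat_lit 20) (nat_lit 1) (.n (nat_lit 76) (nat_lit 1) (.n (nat_lit 81) (nat_lit 1) (.p (nat_lit 86) (nat_lit 1) (.p (nat_lit 156) (nat_lit 2) (.p (nat_lit 158) (nat_lit 2) (.n (nat_lit 159) (nat_lit 1) (.p (nat_lit 193) (nat_lit 1) (.n (nat_lit 215) (nat_lit 1) (.p (nat_lit 228) (nat_lit 2) (.n (nat_lit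 231) (nat_lit 1) (.n (nat_lit 232) (nat_lit 2) (.p (nat_lit 233) (nat_lit 2) (.p (nat_lit 234) (nat_lit 2) (.p (nat_lit 235) (nat_lit 2) (.p (nat_lit 236) (nat_lit 1) (.n (nat_lit 237) (nat_lit 3) (.p (nat_lit 238) (nat_lit 2) (.p (nat_lit 239) (nat_lit 2) (.p (nat_lit 240) (nat_lit 1) (.p (nat_lit 241) (nat_lit 1) (.p (nat_lit 245) (nat_lit 1) (.n (nat_lit 246) (nat_lit 2) (.n (nat_lit 248) (nat_lit 1) (.n (nat_lit 267) (nat_lit 1) (.n (nat_lit 313) (nat_lit 2) (.n (nat_lit 314) (nat_lit 1) (.p (nat_lit 315) (nat_lit 2) (.n (nat_lit 317) (nat_lit 2) (.p (nat_lit 366) (nat_lit 4) (.p (nat_lit 368) (nat_lit 4) (.n (nat_lit 369) (nat_lit 2) (.p (nat_lit 370) (nat_lit 1) (.p (nat_lit 371) (nat_lit 2) (.p (nat_lit 382) (nat_lit 1) (.p (nat_lit 383) (nat_lit 4) (.n (nat_lit 385) (nat_lit 3) (.n (nat_lit 386) (nat_lit 1) (.n (nat_lit 387) (nat_lit 4) (.p (nat_lit 388) (nat_lit 3) (.n (nat_lit 389) (nat_lit 4) (.p (nat_lit 391) (nat_lit 4)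 (.n (nat_lit 392) (nat_lit 4) (.p (nat_lit 394) (nat_lit 1) (.n (nat_lit 396) (nat_lit 1) (.p (nat_lit 397) (nat_lit 1) (.n (nat_lit 401) (nat_lit 4) (.p (nat_lit 402) (nat_lit 1) (.p (nat_lit 403) (nat_lit 3) (.p (nat_lit 404) (nat_lit 4) (.n (nat_lit 405) (nat_lit 4) (.n (nat_lit 406) (nat_lit 5) (.n (nat_lit 407) (nat_lit 1) (.p (nat_lit 408) (nat_lit 1) (.p (nat_lit 409) (nat_lit 1) (.p (nat_lit 410) (nat_lit 3) (.n (nat_lit 411) (nat_lit 3) (.p (nat_lit 412) (nat_lit 4) (.n (nat_lit 414) (nat_lit 1) .z)))))))))))))))))))))))))))))))))))))))))))))))))))))))))))) (.u (nat_lit 2) (.p (nat_lit 418) (nat_lit 1) (.n (nat_lit 421) (nat_lit 1) (.n (nat_lit 427) (nat_lit 1) (.n (nat_lit 431) (nat_lit 1) (.n (nat_lit 432) (nat_lit 6) (.p (nat_lit 433) (nat_lit 1) (.n (nat_lit 435) (nat_lit 5) (.n (nat_lit 436) (nat_lit 1) (.p (nat_lit 437) (nat_lit 2) (.n (nat_lit 438) (nat_lit 4) (.n (nat_lit 439) (nat_lit 1) (.n (nat_lit 441) (nat_lit 4)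 (.p (nat_lit 443) (nat_lit 1) (.p (nat_lit 447) (nat_lit 2) (.n (nat_lit 448) (nat_lit 2) (.p (nat_lit 449) (nat_lit 2) (.p (nat_lit 450) (nat_lit 2) (.n (nat_lit 451) (nat_lit 1) (.n (nat_lit 452) (nat_lit 1) (.n (nat_lit 456) (nat_lit 1) (.p (nat_lit 457) (nat_lit 2) (.p (nat_lit 458) (nat_lit 1) (.n (nat_lit 509) (nat_lit 31) (.p (nat_lit 510) (nat_lit 14) (.p (nat_lit 511) (nat_lit 16) (.p (nat_lit 512) (nat_lit 18) (.p (nat_lit 513) (nat_lit 7) (.n (nat_lit 514) (nat_lit 18) (.p (nat_lit 515) (nat_lit 17) (.n (nat_lit 516) (nat_lit 8) (.n (nat_lit 517) (nat_lit 23) (.n (nat_lit 518) (nat_lit 7) (.p (nat_lit 519) (nat_lit 1) (.p (nat_lit 520) (nat_lit 16) (.n (nat_lit 521) (nat_lit 43) (.n (nat_lit 522) (nat_lit 24) (.p (nat_lit 523) (nat_lit 19) (.n (nat_lit 524) (nat_lit 4) (.n (nat_lit 525) (nat_lit 13) (.p (nat_lit 526) (nat_lit 21) (.n (nat_lit 527) (nat_lit 34) (.p (nat_lit 528) (nat_lit 25) (.p (nat_lit 529) (nat_lit 17) (.p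 (nat_lit 530) (nat_lit 6) (.p (nat_lit 532) (nat_lit 6) (.n (nat_lit 533) (nat_lit 20) (.n (nat_lit 534) (nat_lit 25) (.n (nat_lit 535) (nat_lit 8) (.p (nat_lit 536) (nat_lit 40) (.n (nat_lit 537) (nat_lit 14) (.p (nat_lit 538) (nat_lit 22) (.n (nat_lit 539) (nat_lit 37) (.n (nat_lit 540) (nat_lit 55) (.p (nat_lit 541) (nat_lit 3) (.n (nat_lit 542) (nat_lit 6) (.p (nat_lit 543) (nat_lit 5) (.p (nat_lit 544) (nat_lit 9) (.n (nat_lit 545) (nat_lit 20) (.p (nat_lit 546) (nat_lit 14) (.p (nat_lit 547) (nat_lit 24) .z)))))))))))))))))))))))))))))))))))))))))))))))))))))))))))) (.u (nat_lit 2) (.p (nat_lit 548) (nat_lit 16) (.n (nat_lit 549) (nat_lit 17) (.n (nat_lit 550) (nat_lit 3) (.p (nat_lit 553) (nat_lit 1) (.p (nat_lit 554) (nat_lit 22) (.p (nat_lit 555) (nat_lit 5) (.n (nat_lit 557) (nat_lit 5) (.n (nat_lit 558) (nat_lit 4) (.n (nat_lit 559) (nat_lit 16) (.p (nat_lit 560) (nat_lit 8) (.n (nat_lit 561) (nat_lit 17) (.p (nat_lit 562)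 (nat_lit 4) (.n (nat_lit 563) (nat_lit 7) (.p (nat_lit 564) (nat_lit 18) (.p (nat_lit 565) (nat_lit 4) (.p (nat_lit 567) (nat_lit 1) (.p (nat_lit 568) (nat_lit 5) (.p (nat_lit 569) (nat_lit 2) (.p (nat_lit 570) (nat_lit 5) (.n (nat_lit 571) (nat_lit 2) (.p (nat_lit 572) (nat_lit 7) (.n (nat_lit 573) (nat_lit 7) (.n (nat_lit 576) (nat_lit 13) (.p (nat_lit 577) (nat_lit 1) (.p (nat_lit 578) (nat_lit 20) (.n (nat_lit 579) (nat_lit 15) (.n (nat_lit 580) (nat_lit 8) (.n (nat_lit 581) (nat_lit 16) (.n (nat_lit 582) (nat_lit 1) (.p (nat_lit 583) (nat_lit 10) (.n (nat_lit 584) (nat_lit 15) (.p (nat_lit 585) (nat_lit 17) (.n (nat_lit 586) (nat_lit 37) (.n (nat_lit 587) (nat_lit 37) (.n (nat_lit 588) (nat_lit 14) (.p (nat_lit 589) (nat_lit 31) (.n (nat_lit 590) (nat_lit 13) (.n (nat_lit 591) (nat_lit 1) (.p (nat_lit 592) (nat_lit 13) (.p (nat_lit 593) (nat_lit 3) (.p (nat_lit 594) (nat_lit 1) (.n (nat_lit 595) (nat_lit 7) (.n (nat_lit 596) (nat_lit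 9) (.p (nat_lit 597) (nat_lit 7) (.n (nat_lit 598) (nat_lit 9) (.p (nat_lit 599) (nat_lit 4) (.n (nat_lit 601) (nat_lit 11) (.p (nat_lit 602) (nat_lit 18) (.n (nat_lit 603) (nat_lit 8) (.p (nat_lit 604) (nat_lit 11) (.p (nat_lit 606) (nat_lit 2) (.p (nat_lit 607) (nat_lit 1) (.n (nat_lit 608) (nat_lit 4) (.p (nat_lit 609) (nat_lit 4) (.n (nat_lit 610) (nat_lit 9) (.p (nat_lit 613) (nat_lit 9) (.n (nat_lit 614) (nat_lit 12) (.p (nat_lit 615) (nat_lit 10) (.n (nat_lit 616) (nat_lit 1) (.p (nat_lit 617) (nat_lit 1) .z)))))))))))))))))))))))))))))))))))))))))))))))))))))))))))) (.u (nat_lit 2) (.p (nat_lit 618) (nat_lit 4) (.p (nat_lit 619) (nat_lit 1) (.p (nat_lit 621) (nat_lit 3) (.n (nat_lit 622) (nat_lit 1) (.p (nat_lit 623) (nat_lit 3) (.p (nat_lit 624) (nat_lit 2) (.p (nat_lit 625) (nat_lit 7) (.n (nat_lit 626) (nat_lit 5) (.p (nat_lit 627) (nat_lit 4) (.p (nat_lit 628) (nat_lit 5) (.p (nat_lit 629) (nat_lit 13) (.p (nat_lit 630) (nat_lit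 3) (.p (nat_lit 631) (nat_lit 8) (.n (nat_lit 633) (nat_lit 2) (.p (nat_lit 637) (nat_lit 4) (.n (nat_lit 638) (nat_lit 2) (.n (nat_lit 640) (nat_lit 2) (.p (nat_lit 643) (nat_lit 8) (.p (nat_lit 647) (nat_lit 2) .z))))))))))))))))))) .nil)))))))))))))))))))))))))

noncomputable def dC1_i5 : IL := (.s true (nat_lit 3) (nat_lit 79) (nat_lit 2) (nat_lit 1) (nat_lit 5) true (nat_lit 10) true (nat_lit 18) false (nat_lit 3) true (nat_lit 21) true (nat_lit 22) (.s false (nat_lit 1) (nat_lit 77) (nat_lit 2) (nat_lit 5) (nat_lit 1) true (nat_lit 18) true (nat_lit 22) false (nat_lit 3) true (nat_lit 21) true (nat_lit 18) (.s true (nat_lit 3) (nat_lit 78) (nat_lit 2) (nat_lit 5) (nat_lit 1) true (nat_lit 18) true (nat_lit 22) false (nat_lit 3) true (nat_lit 21) true (nat_lit 18) (.s false (nat_lit 2) (nat_lit 77) (nat_lit 5) (nat_lit 1) (nat_lit 2) true (nat_lit 10) true (nat_lit 21) false (nat_lit 3) true (nat_lit 18) true (nat_lit 22) (.s true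 (nat_lit 3) (nat_lit 78) (nat_lit 5) (nat_lit 1) (nat_lit 2) true (nat_lit 10) true (nat_lit 21) false (nat_lit 3) true (nat_lit 18) true (nat_lit 22) (.s true (nat_lit 2) (nat_lit 79) (nat_lit 5) (nat_lit 1) (nat_lit 2) true (nat_lit 10) true (nat_lit 21) false (nat_lit 3) true (nat_lit 18) true (nat_lit 22) (.s true (nat_lit 1) (nat_lit 77) (nat_lit 5) (nat_lit 2) (nat_lit 1) true (nat_lit 12) true (nat_lit 22) false (nat_lit 3) true (nat_lit 18) true (nat_lit 21) (.s false (nat_lit 3) (nat_lit 78) (nat_lit 5) (nat_lit 2) (nat_lit 1) true (nat_lit 12) true (nat_lit 22) false (nat_lit 3) true (nat_lit 18) true (nat_lit 21) (.s true (nat_lit 2) (nat_lit 79) (nat_lit 5) (nat_lit 2) (nat_lit 1) true (nat_lit 12) true (nat_lit 22) false (nat_lit 3) true (nat_lit 18) true (nat_lit 21) (.s false (nat_lit 1) (nat_lit 119) (nat_lit 2) (nat_lit 2) (nat_lit 2) true (nat_lit 17) true (nat_lit 21) false (nat_lit 9) true (nat_lit 21) true (nat_lit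 21) (.s false (nat_lit 1) (nat_lit 132) (nat_lit 1) (nat_lit 2) (nat_lit 2) true (nat_lit 18) true (nat_lit 21) false (nat_lit 10) true (nat_lit 22) true (nat_lit 21) (.s false (nat_lit 3) (nat_lit 133) (nat_lit 1) (nat_lit 2) (nat_lit 2) true (nat_lit 18) true (nat_lit 21) false (nat_lit 10) true (nat_lit 22) true (nat_lit 21) (.s true (nat_lit 3) (nat_lit 134) (nat_lit 1) (nat_lit 2) (nat_lit 2) true (nat_lit 18) true (nat_lit 21) false (nat_lit 10) true (nat_lit 22) true (nat_lit 21) (.s true (nat_lit 3) (nat_lit 135) (nat_lit 1) (nat_lit 2) (nat_lit 2) true (nat_lit 18) true (nat_lit 21) false (nat_lit 10) true (nat_lit 22) true (nat_lit 21) (.s true (nat_lit 1) (nat_lit 136) (nat_lit 1) (nat_lit 2) (nat_lit 2) true (nat_lit 18) true (nat_lit 21) false (nat_lit 10) true (nat_lit 22) true (nat_lit 21) (.s true (nat_lit 2) (nat_lit 137) (nat_lit 1) (nat_lit 2) (nat_lit 2) true (nat_lit 18) true (nat_lit 21) false (nat_lit 10) true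 (nat_lit 22) true (nat_lit 21) (.s true (nat_lit 1) (nat_lit 139) (nat_lit 1) (nat_lit 2) (nat_lit 2) true (nat_lit 18) true (nat_lit 21) false (nat_lit 10) true (nat_lit 22) true (nat_lit 21) (.s false (nat_lit 3) (nat_lit 141) (nat_lit 1) (nat_lit 2) (nat_lit 2) true (nat_lit 18) true (nat_lit 21) false (nat_lit 10) true (nat_lit 22) true (nat_lit 21) (.s true (nat_lit 3) (nat_lit 142) (nat_lit 1) (nat_lit 2) (nat_lit 2) true (nat_lit 18) true (nat_lit 21) false (nat_lit 10) true (nat_lit 22) true (nat_lit 21) (.s false (nat_lit 2) (nat_lit 145) (nat_lit 1) (nat_lit 2) (nat_lit 2) true (nat_lit 18) true (nat_lit 21) false (nat_lit 10) true (nat_lit 22) true (nat_lit 21) (.s false (nat_lit 1) (nat_lit 149) (nat_lit 1) (nat_lit 2) (nat_lit 2) true (nat_lit 18) true (nat_lit 21) false (nat_lit 10) true (nat_lit 22) true (nat_lit 21) (.s true (nat_lit 1) (nat_lit 150) (nat_lit 1) (nat_lit 2) (nat_lit 2) true (nat_lit 18) true (nat_lit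 21) false (nat_lit 10) true (nat_lit 22) true (nat_lit 21) (.s false (nat_lit 2) (nat_lit 151) (nat_lit 1) (nat_lit 2) (nat_lit 2) true (nat_lit 18) true (nat_lit 21) false (nat_lit 10) true (nat_lit 22) true (nat_lit 21) (.s true (nat_lit 3) (nat_lit 152) (nat_lit 1) (nat_lit 2) (nat_lit 2) true (nat_lit 18) true (nat_lit 21) false (nat_lit 10) true (nat_lit 22) true (nat_lit 21) (.s true (nat_lit 3) (nat_lit 132) (nat_lit 2) (nat_lit 1) (nat_lit 2) true (nat_lit 17) true (nat_lit 21) false (nat_lit 10) true (nat_lit 21) true (nat_lit 22) dC1_i4)))))))))))))))))))))))))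

noncomputable def dC1_i6 : IL := (.s false (nat_lit 2) (nat_lit 28) (nat_lit 5) (nat_lit 6) (nat_lit 1) true (nat_lit 12) true (nat_lit 22) true (nat_lit 5) true (nat_lit 18) true (nat_lit 17) (.s true (nat_lit 2) (nat_lit 28) (nat_lit 6) (nat_lit 1) (nat_lit 5) true (nat_lit 1) true (nat_lit 18) true (nat_lit 5) true (nat_lit 17) true (nat_lit 22) (.s true (nat_lit 2) (nat_lit 30) (nat_lit 13) (nat_lit 2) (nat_lit 2) true (nat_lit 3) true (nat_lit 21) true (nat_lit 5) true (nat_lit 12) true (nat_lit 21) (.s true (nat_lit 1) (nat_lit 45) (nat_lit 2) (nat_lit 1) (nat_lit 9) true (nat_lit 5) true (nat_lit 14) true (nat_lit 1) true (nat_lit 21) true (nat_lit 22) (.s true (nat_lit 1) (nat_lit 45) (nat_lit 2) (nat_lit 9) (nat_lit 1) true (nat_lit 18) true (nat_lit 22) true (nat_lit 1) true (nat_lit 21) true (nat_lit 14) (.s true (nat_lit 3) (nat_lit 43) (nat_lit 9) (nat_lit 1) (nat_lit 2) true (nat_lit 5) true (nat_lit 21) true (nat_lit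 1) true (nat_lit 14) true (nat_lit 22) (.s true (nat_lit 3) (nat_lit 44) (nat_lit 9) (nat_lit 1) (nat_lit 2) true (nat_lit 5) true (nat_lit 21) true (nat_lit 1) true (nat_lit 14) true (nat_lit 22) (.s false (nat_lit 2) (nat_lit 45) (nat_lit 9) (nat_lit 1) (nat_lit 2) true (nat_lit 5) true (nat_lit 21) true (nat_lit 1) true (nat_lit 14) true (nat_lit 22) (.s true (nat_lit 3) (nat_lit 43) (nat_lit 9) (nat_lit 2) (nat_lit 1) true (nat_lit 7) true (nat_lit 22) true (nat_lit 1) true (nat_lit 14) true (nat_lit 21) (.s true (nat_lit 2) (nat_lit 46) (nat_lit 1) (nat_lit 1) (nat_lit 9) true (nat_lit 7) true (nat_lit 14) true (nat_lit 0) true (nat_lit 22) true (nat_lit 22) (.s true (nat_lit 1) (nat_lit 49) (nat_lit 2) (nat_lit 2) (nat_lit 6) true (nat_lit 9) true (nat_lit 17) false (nat_lit 0) true (nat_lit 21) true (nat_lit 21) (.s true (nat_lit 2) (nat_lit 56) (nat_lit 1) (nat_lit 6) (nat_lit 2) true (nat_lit 18) true (nat_lit 21) false (nat_lit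 1) true (nat_lit 22) true (nat_lit 17) (.s false (nat_lit 1) (nat_lit 59) (nat_lit 1) (nat_lit 6) (nat_lit 2) true (nat_lit 18) true (nat_lit 21) false (nat_lit 1) true (nat_lit 22) true (nat_lit 17) (.s true (nat_lit 2) (nat_lit 61) (nat_lit 1) (nat_lit 6) (nat_lit 2) true (nat_lit 18) true (nat_lit 21) false (nat_lit 1) true (nat_lit 22) true (nat_lit 17) (.s true (nat_lit 1) (nat_lit 59) (nat_lit 2) (nat_lit 1) (nat_lit 6) true (nat_lit 9) true (nat_lit 17) false (nat_lit 1) true (nat_lit 21) true (nat_lit 22) (.s false (nat_lit 1) (nat_lit 59) (nat_lit 2) (nat_lit 2) (nat_lit 5) true (nat_lit 10) true (nat_lit 18) false (nat_lit 1) true (nat_lit 21) true (nat_lit 21) (.s false (nat_lit 2) (nat_lit 61) (nat_lit 2) (nat_lit 2) (nat_lit 5) true (nat_lit 10) true (nat_lit 18) false (nat_lit 1) true (nat_lit 21) true (nat_lit 21) (.s true (nat_lit 1) (nat_lit 59) (nat_lit 2) (nat_lit 5) (nat_lit 2) true (nat_lit 17) true (nat_lit 21)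 false (nat_lit 1) true (nat_lit 21) true (nat_lit 18) (.s true (nat_lit 2) (nat_lit 56) (nat_lit 2) (nat_lit 6) (nat_lit 1) true (nat_lit 18) true (nat_lit 22) false (nat_lit 1) true (nat_lit 21) true (nat_lit 17) (.s false (nat_lit 1) (nat_lit 56) (nat_lit 5) (nat_lit 2) (nat_lit 2) true (nat_lit 10) true (nat_lit 21) false (nat_lit 1) true (nat_lit 18) true (nat_lit 21) (.s false (nat_lit 2) (nat_lit 56) (nat_lit 6) (nat_lit 1) (nat_lit 2) true (nat_lit 9) true (nat_lit 21) false (nat_lit 1) true (nat_lit 17) true (nat_lit 22) (.s false (nat_lit 2) (nat_lit 56) (nat_lit 6) (nat_lit 2) (nat_lit 1) true (nat_lit 10) true (nat_lit 22) false (nat_lit 1) true (nat_lit 17) true (nat_lit 21) (.s false (nat_lit 2) (nat_lit 79) (nat_lit 1) (nat_lit 2) (nat_lit 5) true (nat_lit 12) true (nat_lit 18) false (nat_lit 3) true (nat_lit 22) true (nat_lit 21) (.s false (nat_lit 3) (nat_lit 77) (nat_lit 1) (nat_lit 5) (nat_lit 2) true (nat_lit 18) true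 (nat_lit 21) false (nat_lit 3) true (nat_lit 22) true (nat_lit 18) (.s true (nat_lit 3) (nat_lit 78) (nat_lit 1) (nat_lit 5) (nat_lit 2) true (nat_lit 18) true (nat_lit 21) false (nat_lit 3) true (nat_lit 22) true (nat_lit 18) dC1_i5)))))))))))))))))))))))))

noncomputable def dC1_i7 : IL := (.s false (nat_lit 1) (nat_lit 17) (nat_lit 9) (nat_lit 6) (nat_lit 1) true (nat_lit 7) true (nat_lit 22) true (nat_lit 10) true (nat_lit 14) true (nat_lit 17) (.s false (nat_lit 1) (nat_lit 18) (nat_lit 1) (nat_lit 9) (nat_lit 5) true (nat_lit 12) true (nat_lit 18) true (nat_lit 9) true (nat_lit 22) true (nat_lit 14) (.s false (nat_lit 1) (nat_lit 18) (nat_lit 5) (nat_lit 1) (nat_lit 9) false (nat_lit 1) true (nat_lit 14) true (nat_lit 9) true (nat_lit 18) true (nat_lit 22) (.s false (nat_lit 1) (nat_lit 18) (nat_lit 5) (nat_lit 9) (nat_lit 1) true (nat_lit 12) true (nat_lit 22) true (nat_lit 9) true (nat_lit 18) true (nat_lit 14) (.s true (nat_lit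 2) (nat_lit 21) (nat_lit 1) (nat_lit 6) (nat_lit 6) true (nat_lit 10) true (nat_lit 17) true (nat_lit 7) true (nat_lit 22) true (nat_lit 17) (.s false (nat_lit 2) (nat_lit 21) (nat_lit 6) (nat_lit 2) (nat_lit 5) true (nat_lit 1) true (nat_lit 18) true (nat_lit 7) true (nat_lit 17) true (nat_lit 21) (.s false (nat_lit 3) (nat_lit 21) (nat_lit 6) (nat_lit 6) (nat_lit 1) true (nat_lit 10) true (nat_lit 22) true (nat_lit 7) true (nat_lit 17) true (nat_lit 17) (.s false (nat_lit 3) (nat_lit 21) (nat_lit 16) (nat_lit 2) (nat_lit 2) true (nat_lit 1) true (nat_lit 21) true (nat_lit 7) true (nat_lit 10) true (nat_lit 21) (.s false (nat_lit 2) (nat_lit 21) (nat_lit 17) (nat_lit 2) (nat_lit 2) true (nat_lit 1) true (nat_lit 21) true (nat_lit 7) true (nat_lit 10) true (nat_lit 21) (.s false (nat_lit 2) (nat_lit 28) (nat_lit 1) (nat_lit 1) (nat_lit 18) true (nat_lit 1) true (nat_lit 9) true (nat_lit 5) true (nat_lit 22) true (nat_lit 22) (.s true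 (nat_lit 2) (nat_lit 30) (nat_lit 1) (nat_lit 1) (nat_lit 18) true (nat_lit 1) true (nat_lit 9) true (nat_lit 5) true (nat_lit 22) true (nat_lit 22) (.s true (nat_lit 2) (nat_lit 30) (nat_lit 1) (nat_lit 2) (nat_lit 16) true (nat_lit 3) true (nat_lit 10) true (nat_lit 5) true (nat_lit 22) true (nat_lit 21) (.s true (nat_lit 1) (nat_lit 28) (nat_lit 1) (nat_lit 5) (nat_lit 6) true (nat_lit 10) true (nat_lit 17) true (nat_lit 5) true (nat_lit 22) true (nat_lit 18) (.s false (nat_lit 1) (nat_lit 28) (nat_lit 1) (nat_lit 6) (nat_lit 5) true (nat_lit 12) true (nat_lit 18) true (nat_lit 5) true (nat_lit 22) true (nat_lit 17) (.s true (nat_lit 3) (nat_lit 28) (nat_lit 1) (nat_lit 16) (nat_lit 2) true (nat_lit 18) true (nat_lit 21) true (nat_lit 5) true (nat_lit 22) true (nat_lit 10) (.s true (nat_lit 1) (nat_lit 28) (nat_lit 1) (nat_lit 18) (nat_lit 1) false (nat_lit 25) true (nat_lit 22) true (nat_lit 5) true (nat_lit 22) true (nat_lit 9)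 (.s true (nat_lit 2) (nat_lit 30) (nat_lit 1) (nat_lit 18) (nat_lit 1) false (nat_lit 25) true (nat_lit 22) true (nat_lit 5) true (nat_lit 22) true (nat_lit 9) (.s false (nat_lit 2) (nat_lit 28) (nat_lit 2) (nat_lit 1) (nat_lit 16) true (nat_lit 1) true (nat_lit 10) true (nat_lit 5) true (nat_lit 21) true (nat_lit 22) (.s true (nat_lit 1) (nat_lit 28) (nat_lit 2) (nat_lit 2) (nat_lit 13) true (nat_lit 3) true (nat_lit 12) true (nat_lit 5) true (nat_lit 21) true (nat_lit 21) (.s true (nat_lit 3) (nat_lit 28) (nat_lit 2) (nat_lit 5) (nat_lit 5) true (nat_lit 10) true (nat_lit 18) true (nat_lit 5) true (nat_lit 21) true (nat_lit 18) (.s false (nat_lit 2) (nat_lit 30) (nat_lit 2) (nat_lit 5) (nat_lit 5) true (nat_lit 10) true (nat_lit 18) true (nat_lit 5) true (nat_lit 21) true (nat_lit 18) (.s false (nat_lit 3) (nat_lit 28) (nat_lit 2) (nat_lit 17) (nat_lit 1) true (nat_lit 18) true (nat_lit 22) true (nat_lit 5) true (nat_lit 21) true (nat_lit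 10) (.s true (nat_lit 2) (nat_lit 30) (nat_lit 2) (nat_lit 16) (nat_lit 1) true (nat_lit 18) true (nat_lit 22) true (nat_lit 5) true (nat_lit 21) true (nat_lit 10) (.s false (nat_lit 1) (nat_lit 28) (nat_lit 5) (nat_lit 1) (nat_lit 6) true (nat_lit 1) true (nat_lit 17) true (nat_lit 5) true (nat_lit 18) true (nat_lit 22) (.s false (nat_lit 2) (nat_lit 30) (nat_lit 5) (nat_lit 2) (nat_lit 5) true (nat_lit 3) true (nat_lit 18) true (nat_lit 5) true (nat_lit 18) true (nat_lit 21) dC1_i6)))))))))))))))))))))))))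

noncomputable def dC1_il : IL := (.s false (nat_lit 1) (nat_lit 13) (nat_lit 2) (nat_lit 6) (nat_lit 9) true (nat_lit 5) true (nat_lit 14) true (nat_lit 12) true (nat_lit 21) true (nat_lit 17) (.s false (nat_lit 3) (nat_lit 13) (nat_lit 6) (nat_lit 9) (nat_lit 2) true (nat_lit 9) true (nat_lit 21) true (nat_lit 12) true (nat_lit 17) true (nat_lit 14) (.s false (nat_lit 3) (nat_lit 16) (nat_lit 1) (nat_lit 6) (nat_lit 9) true (nat_lit 7) true (nat_lit 14) true (nat_lit 10) true (nat_lit 22) true (nat_lit 17) (.s true (nat_lit 3) (nat_lit 16) (nat_lit 2) (nat_lit 5) (nat_lit 9) true (nat_lit 5) true (nat_lit 14) true (nat_lit 10) true (nat_lit 21) true (nat_lit 18) (.s false (nat_lit 1) (nat_lit 17) (nat_lit 2) (nat_lit 5) (nat_lit 9) true (nat_lit 5) true (nat_lit 14) true (nat_lit 10) true (nat_lit 21) true (nat_lit 18) (.s true (nat_lit 3) (nat_lit 16) (nat_lit 2) (nat_lit 9) (nat_lit 5) true (nat_lit 10) true (nat_lit 18) true (nat_lit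 10) true (nat_lit 21) true (nat_lit 14) (.s true (nat_lit 3) (nat_lit 16) (nat_lit 9) (nat_lit 5) (nat_lit 2) true (nat_lit 5) true (nat_lit 21) true (nat_lit 10) true (nat_lit 14) true (nat_lit 18) dC1_i7)))))))

theorem dC1_chk : chk 5 ids7 dC1_D par1 (clsL [0,0,0,0,0,1,2,1,2]) zC1Ex (.c (nat_lit 2) (nat_lit 1) (.c (nat_lit 2) (nat_lit 1) (.c (nat_lit 2) (nat_lit 1) (.c (nat_lit 2) (nat_lit 1) (.c (nat_lit 2) (nat_lit 1) (.c (nat_lit 1) (nat_lit 16) (.c (nat_lit 0) (nat_lit 256) (.c (nat_lit 1) (nat_lit 16) (.c (nat_lit 0) (nat_lit 256) .nil))))))))) (nat_lit 1556) (nat_lit 549) (nat_lit 1) dC1_gs dC1_il = true := by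
  decide +kernel

end Chk7

/-- certificate of `zC1Ex` -/
theorem cert_zC1Ex : Cert.{u} 5 ids7 par1 (clsL [0,0,0,0,0,1,2,1,2]) zC1Ex :=
  Chk7.chk_sound _ _ (by simp [ids7]) (by simp [ids7]) _ _ _ _ _ _ _ _ _ _ Chk7.dC1_chk

end Pool.Agent.MalP
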