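import Pool.Agent.MalP.P7.ChkDef

/-! # Data for the certificate of zC2Ex -/

set_option autoImplicit false
set_option maxRecDepth 100000

namespace Pool.Agent.MalP.Chk7

noncomputable def dC2a_c304 : Cm := .mk (nat_lit 18) (nat_lit 304) (nat_lit 21) (nat_lit 3) (.c (nat_lit 4) (nat_lit 1) (nat_lit 3) (nat_lit 1) (nat_lit 3) (.c (nat_lit 8) (nat_lit 2) (nat_lit 1) (nat_lit 1) (nat_lit 4) (.c (nat_lit 10) (nat_lit 1) (nat_lit 0) (nat_lit 1) (nat_lit 6) .nil)))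

noncomputable def dC2a_c289 : Cm := .mk (nat_lit 22) (nat_lit 289) (nat_lit 24) (nat_lit 6) (.c (nat_lit 5) (nat_lit 1) (nat_lit 4) (nat_lit 1) (nat_lit 6) (.c (nat_lit 6) (nat_lit 1) (nat_lit 3) (nat_lit 1) (nat_lit 7) (.c (nat_lit 8) (nat_lit 2) (nat_lit 2) (nat_lit 1) (nat_lit 8) (.c (nat_lit 11) (nat_lit 3) (nat_lit 1) (nat_lit 1) (nat_lit 10) (.c (nat_lit 14) (nat_lit 2) (nat_lit 0) (nat_lit 1) (nat_lit 13) .nil)))))

noncomputable def dC2a_c49 : Cm := .mk (nat_lit 31) (nat_lit 49) (nat_lit 30) (nat_lit 3) (.c (nat_lit 6) (nat_lit 1) (nat_lit 4) (nat_lit 1) (nat_lit 3) (.c (nat_lit 10) (nat_lit 1) (nat_lit 2) (nat_lit 1) (nat_lit 4) (.c (nat_lit 14) (nat_lit 2) (nat_lit 1) (nat_lit 1) (nat_lit 5) .nil)))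

noncomputable def dC2a_c274 : Cm := .mk (nat_lit 35) (nat_lit 274) (nat_lit 33) (nat_lit 6) (.c (nat_lit 6) (nat_lit 1) (nat_lit 5) (nat_lit 1) (nat_lit 6) (.c (nat_lit 7) (nat_lit 1) (nat_lit 3) (nat_lit 1) (nat_lit 7) (.c (nat_lit 11) (nat_lit 3) (nat_lit 2) (nat_lit 1) (nat_lit 8) (.c (nat_lit 16) (nat_lit 2) (nat_lit 1) (nat_lit 1) (nat_lit 11) (.c (nat_lit 18) (nat_lit 2) (nat_lit 0) (nat_lit 1) (nat_lit 13) .nil)))))

noncomputable def dC2a_c34 : Cm := .mk (nat_lit 44) (nat_lit 34) (nat_lit 39) (nat_lit 3) (.c (nat_lit 6) (nat_lit 1) (nat_lit 6) (nat_lit 1) (nat_lit 3) (.c (nat_lit 7) (nat_lit 1) (nat_lit 4) (nat_lit 1) (nat_lit 4) (.c (nat_lit 14) (nat_lit 2) (nat_lit 2) (nat_lit 1) (nat_lit 5) (.c (nat_lit 18) (nat_lit 2) (nat_lit 1) (nat_lit 1) (nat_lit 7) .nil))))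

noncomputable def dC2a_c259 : Cm := .mk (nat_lit 49) (nat_lit 259) (nat_lit 42) (nat_lit 3) (.c (nat_lit 7) (nat_lit 1) (nat_lit 5) (nat_lit 1) (nat_lit 3) (.c (nat_lit 16) (nat_lit 2) (nat_lit 2) (nat_lit 1) (nat_lit 4) (.c (nat_lit 20) (nat_lit 1) (nat_lit 0) (nat_lit 1) (nat_lit 6) .nil)))

noncomputable def dC2a_c19 : Cm := .mk (nat_lit 53) (nat_lit 19) (nat_lit 45) (nat_lit 3) (.c (nat_lit 7) (nat_lit 1) (nat_lit 6) (nat_lit 1) (nat_lit 3) (.c (nat_lit 18) (nat_lit 2) (nat_lit 2) (nat_lit 1) (nat_lit 4) (.c (nat_lit 20) (nat_lit 1) (nat_lit 1) (nat_lit 1) (nat_lit 6) .nil)))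

noncomputable def dC2a_c305 : Cm := .mk (nat_lit 58) (nat_lit 305) (nat_lit 49) (nat_lit 11) (.c (nat_lit 8) (nat_lit 2) (nat_lit 6) (nat_lit 1) (nat_lit 11) (.c (nat_lit 10) (nat_lit 1) (nat_lit 5) (nat_lit 1) (nat_lit 13) (.c (nat_lit 11) (nat_lit 3) (nat_lit 4) (nat_lit 1) (nat_lit 14) (.c (nat_lit 14) (nat_lit 2) (nat_lit 3) (nat_lit 1) (nat_lit 17) (.c (nat_lit 21) (nat_lit 3) (nat_lit 2) (nat_lit 1) (nat_lit 19) (.c (nat_lit 24) (nat_lit 6) (nat_lit 1) (nat_lit 1) (nat_lit 22) (.c (nat_lit 30) (nat_lit 3) (nat_lit 0) (nat_lit 1) (nat_lit 28) .nil)))))))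

noncomputable def dC2a_c290 : Cm := .mk (nat_lit 78) (nat_lit 290) (nat_lit 60) (nat_lit 14) (.c (nat_lit 8) (nat_lit 2) (nat_lit 7) (nat_lit 1) (nat_lit 14) (.c (nat_lit 11) (nat_lit 3) (nat_lit 6) (nat_lit 1) (nat_lit 16) (.c (nat_lit 14) (nat_lit 2) (nat_lit 5) (nat_lit 1) (nat_lit 19) (.c (nat_lit 16) (nat_lit 2) (nat_lit 4) (nat_lit 1) (nat_lit 21) (.c (nat_lit 18) (nat_lit 2) (nat_lit 3) (nat_lit 1) (nat_lit 23) (.c (nat_lit 24) (nat_lit 6) (nat_lit 2) (nat_lit 1) (nat_lit 25) (.c (nat_lit 33) (nat_lit 6) (nat_lit 1) (nat_lit 1) (nat_lit 31) (.c (nat_lit 39) (nat_lit 3) (nat_lit 0) (nat_lit 1) (nat_lit 37) .nil))))))))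

noncomputable def dC2a_c50 : Cm := .mk (nat_lit 104) (nat_lit 50) (nat_lit 74) (nat_lit 6) (.c (nat_lit 10) (nat_lit 1) (nat_lit 7) (nat_lit 1) (nat_lit 6) (.c (nat_lit 14) (nat_lit 2) (nat_lit 6) (nat_lit 1) (nat_lit 7) (.c (nat_lit 18) (nat_lit 2) (nat_lit 4) (nat_lit 1) (nat_lit 9) (.c (nat_lit 30) (nat_lit 3) (nat_lit 2) (nat_lit 1) (nat_lit 11) (.c (nat_lit 39) (nat_lit 3) (nat_lit 1) (nat_lit 1) (nat_lit 14) .nil)))))

noncomputable def dC2a_c306 : Cm := .mk (nat_lit 162) (nat_lit 306) (nat_lit 106) (nat_lit 26) (.c (nat_lit 14) (nat_lit 2) (nat_lit 11) (nat_lit 3) (nat_lit 26) (.c (nat_lit 16) (nat_lit 2) (nat_lit 10) (nat_lit 1) (nat_lit 32) (.c (nat_lit 18) (nat_lit 2) (nat_lit 8) (nat_lit 2) (nat_lit 34) (.c (nat_lit 21) (nat_lit 3) (nat_lit 7) (nat_lit 1) (nat_lit 38) (.c (nat_lit 24) (nat_lit 6) (nat_lit 6) (nat_lit 1) (nat_lit 41) (.c (nat_lit 30) (nat_lit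 3) (nat_lit 5) (nat_lit 1) (nat_lit 47) (.c (nat_lit 33) (nat_lit 6) (nat_lit 4) (nat_lit 1) (nat_lit 50) (.c (nat_lit 39) (nat_lit 3) (nat_lit 3) (nat_lit 1) (nat_lit 56) (.c (nat_lit 49) (nat_lit 11) (nat_lit 2) (nat_lit 1) (nat_lit 59) (.c (nat_lit 60) (nat_lit 14) (nat_lit 1) (nat_lit 1) (nat_lit 70) (.c (nat_lit 74) (nat_lit 6) (nat_lit 0) (nat_lit 1) (nat_lit 84) .nil)))))))))))

noncomputable def dC2a_c35 : Cm := .mk (nat_lit 135) (nat_lit 35) (nat_lit 91) (nat_lit 6) (.c (nat_lit 14) (nat_lit 2) (nat_lit 7) (nat_lit 1) (nat_lit 6) (.c (nat_lit 18) (nat_lit 2) (nat_lit 6) (nat_lit 1) (nat_lit 8) (.c (nat_lit 20) (nat_lit 1) (nat_lit 4) (nat_lit 1) (nat_lit 10) (.c (nat_lit 39) (nat_lit 3) (nat_lit 2) (nat_lit 1) (nat_lit 11) (.c (nat_lit 45) (nat_lit 3) (nat_lit 1) (nat_lit 1) (nat_lit 14) .nil)))))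

noncomputable def dC2a_c275 : Cm := .mk (nat_lit 115) (nat_lit 275) (nat_lit 80) (nat_lit 11) (.c (nat_lit 11) (nat_lit 3) (nat_lit 7) (nat_lit 1) (nat_lit 11) (.c (nat_lit 16) (nat_lit 2) (nat_lit 6) (nat_lit 1) (nat_lit 14) (.c (nat_lit 18) (nat_lit 2) (nat_lit 5) (nat_lit 1) (nat_lit 16) (.c (nat_lit 20) (nat_lit 1) (nat_lit 3) (nat_lit 1) (nat_lit 18) (.c (nat_lit 33) (nat_lit 6) (nat_lit 2) (nat_lit 1) (nat_lit 19) (.c (nat_lit 42) (nat_lit 3) (nat_lit 1) (nat_lit 1) (nat_lit 25) (.c (nat_lit 45) (nat_lit 3) (nat_lit 0) (nat_lit 1) (nat_lit 28) .nil)))))))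

noncomputable def dC2a_c291 : Cm := .mk (nat_lit 226) (nat_lit 291) (nat_lit 132) (nat_lit 26) (.c (nat_lit 16) (nat_lit 2) (nat_lit 14) (nat_lit 2) (nat_lit 26) (.c (nat_lit 18) (nat_lit 2) (nat_lit 11) (nat_lit 3) (nat_lit 30) (.c (nat_lit 20) (nat_lit 1) (nat_lit 8) (nat_lit 2) (nat_lit 36) (.c (nat_lit 24) (nat_lit 6) (nat_lit 7) (nat_lit 1) (nat_lit 38) (.c (nat_lit 33) (nat_lit 6) (nat_lit 6) (nat_lit 1) (nat_lit 44) (.c (nat_lit 39) (nat_lit 3) (nat_lit 5) (nat_lit 1) (nat_lit 50) (.c (nat_lit 42) (nat_lit 3) (nat_lit 4) (nat_lit 1) (nat_lit 53) (.c (nat_lit 45) (nat_lit 3) (nat_lit 3) (nat_lit 1) (nat_lit 56) (.c (nat_lit 60) (nat_lit 14) (nat_lit 2) (nat_lit 1) (nat_lit 59) (.c (nat_lit 80) (nat_lit 11) (nat_lit 1) (nat_lit 1) (nat_lit 73) (.c (nat_lit 91) (nat_lit 6) (nat_lit 0) (nat_lit 1) (nat_lit 84) .nil)))))))))))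

noncomputable def dC2a_c260 : Cm := .mk (nat_lit 146) (nat_lit 260) (nat_lit 97) (nat_lit 4) (.c (nat_lit 16) (nat_lit 2) (nat_lit 7) (nat_lit 1) (nat_lit 4) (.c (nat_lit 20) (nat_lit 1) (nat_lit 5) (nat_lit 1) (nat_lit 6) (.c (nat_lit 42) (nat_lit 3) (nat_lit 2) (nat_lit 1) (nat_lit 7) (.c (nat_lit 48) (nat_lit 1) (nat_lit 0) (nat_lit 1) (nat_lit 10) .nil))))

noncomputable def dC2a_c51 : Cm := .mk (nat_lit 290) (nat_lit 51) (nat_lit 158) (nat_lit 11) (.c (nat_lit 18) (nat_lit 2) (nat_lit 14) (nat_lit 2) (nat_lit 11) (.c (nat_lit 20) (nat_lit 1) (nat_lit 10) (nat_lit 1) (nat_lit 15) (.c (nat_lit 30) (nat_lit 3) (nat_lit 7) (nat_lit 1) (nat_lit 16) (.c (nat_lit 39) (nat_lit 3) (nat_lit 6) (nat_lit 1) (nat_lit 19) (.c (nat_lit 45) (nat_lit 3) (nat_lit 4) (nat_lit 1) (nat_lit 22) (.c (nat_lit 74) (nat_lit 6) (nat_lit 2) (nat_lit 1) (nat_lit 25) (.c (nat_lit 91) (nat_lit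 6) (nat_lit 1) (nat_lit 1) (nat_lit 31) .nil)))))))

noncomputable def dC2a_c276 : Cm := .mk (nat_lit 316) (nat_lit 276) (nat_lit 169) (nat_lit 16) (.c (nat_lit 18) (nat_lit 2) (nat_lit 16) (nat_lit 2) (nat_lit 16) (.c (nat_lit 20) (nat_lit 1) (nat_lit 11) (nat_lit 3) (nat_lit 20) (.c (nat_lit 33) (nat_lit 6) (nat_lit 7) (nat_lit 1) (nat_lit 23) (.c (nat_lit 42) (nat_lit 3) (nat_lit 6) (nat_lit 1) (nat_lit 29) (.c (nat_lit 45) (nat_lit 3) (nat_lit 5) (nat_lit 1) (nat_lit 32) (.c (nat_lit 48) (nat_lit 1) (nat_lit 3) (nat_lit 1) (nat_lit 35) (.c (nat_lit 80) (nat_lit 11) (nat_lit 2) (nat_lit 1) (nat_lit 36) (.c (nat_lit 97) (nat_lit 4) (nat_lit 1) (nat_lit 1) (nat_lit 47) (.c (nat_lit 101) (nat_lit 4) (nat_lit 0) (nat_lit 1) (nat_lit 51) .nil)))))))))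

noncomputable def dC2a_c36 : Cm := .mk (nat_lit 355) (nat_lit 36) (nat_lit 185) (nat_lit 10) (.c (nat_lit 18) (nat_lit 2) (nat_lit 18) (nat_lit 2) (nat_lit 10) (.c (nat_lit 20) (nat_lit 1) (nat_lit 14) (nat_lit 2) (nat_lit 14) (.c (nat_lit 39) (nat_lit 3) (nat_lit 7) (nat_lit 1) (nat_lit 16) (.c (nat_lit 45) (nat_lit 3) (nat_lit 6) (nat_lit 1) (nat_lit 19) (.c (nat_lit 48) (nat_lit 1) (nat_lit 4) (nat_lit 1) (nat_lit 22) (.c (nat_lit 91) (nat_lit 6) (nat_lit 2) (nat_lit 1) (nat_lit 23) (.c (nat_lit 101) (nat_lit 4) (nat_lit 1) (nat_lit 1) (nat_lit 29) .nil)))))))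

noncomputable def dC2a_c20 : Cm := .mk (nat_lit 153) (nat_lit 20) (nat_lit 101) (nat_lit 4) (.c (nat_lit 18) (nat_lit 2) (nat_lit 7) (nat_lit 1) (nat_lit 4) (.c (nat_lit 20) (nat_lit 1) (nat_lit 6) (nat_lit 1) (nat_lit 6) (.c (nat_lit 45) (nat_lit 3) (nat_lit 2) (nat_lit 1) (nat_lit 7) (.c (nat_lit 48) (nat_lit 1) (nat_lit 1) (nat_lit 1) (nat_lit 10) .nil))))

noncomputable def dC2a_c5 : Cm := .mk (nat_lit 160) (nat_lit 5) (nat_lit 105) (nat_lit 1) (.c (nat_lit 20) (nat_lit 1) (nat_lit 7) (nat_lit 1) (nat_lit 1) (.c (nat_lit 48) (nat_lit 1) (nat_lit 2) (nat_lit 1) (nat_lit 2) .nil))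

noncomputable def dC2a_c261 : Cm := .mk (nat_lit 377) (nat_lit 261) (nat_lit 195) (nat_lit 5) (.c (nat_lit 20) (nat_lit 1) (nat_lit 16) (nat_lit 2) (nat_lit 5) (.c (nat_lit 42) (nat_lit 3) (nat_lit 7) (nat_lit 1) (nat_lit 7) (.c (nat_lit 48) (nat_lit 1) (nat_lit 5) (nat_lit 1) (nat_lit 10) (.c (nat_lit 97) (nat_lit 4) (nat_lit 2) (nat_lit 1) (nat_lit 11) (.c (nat_lit 105) (nat_lit 1) (nat_lit 0) (nat_lit 1) (nat_lit 15) .nil)))))

noncomputable def dC2a_c21 : Cm := .mk (nat_lit 388) (nat_lit 21) (nat_lit 200) (nat_lit 5) (.c (nat_lit 20) (nat_lit 1) (nat_lit 18) (nat_lit 2) (nat_lit 5) (.c (nat_lit 45) (nat_lit 3) (nat_lit 7) (nat_lit 1) (nat_lit 7) (.c (nat_lit 48) (nat_lit 1) (nat_lit 6) (nat_lit 1) (nat_lit 10) (.c (nat_lit 101) (nat_lit 4) (nat_lit 2) (nat_lit 1) (nat_lit 11) (.c (nat_lit 105) (nat_lit 1) (nat_lit 1) (nat_lit 1) (nat_lit 15) .nil)))))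

noncomputable def dC2a_c307 : Cm := .mk (nat_lit 399) (nat_lit 307) (nat_lit 205) (nat_lit 47) (.c (nat_lit 21) (nat_lit 3) (nat_lit 20) (nat_lit 1) (nat_lit 47) (.c (nat_lit 24) (nat_lit 6) (nat_lit 18) (nat_lit 2) (nat_lit 50) (.c (nat_lit 30) (nat_lit 3) (nat_lit 16) (nat_lit 2) (nat_lit 62) (.c (nat_lit 33) (nat_lit 6) (nat_lit 14) (nat_lit 2) (nat_lit 68) (.c (nat_lit 39) (nat_lit 3) (nat_lit 11) (nat_lit 3) (nat_lit 80) (.c (nat_lit 42) (nat_lit 3) (nat_lit 10) (nat_lit 1) (nat_lit 89) (.c (nat_lit 45) (nat_lit 3) (nat_lit 8) (nat_lit 2) (nat_lit 92) (.c (nat_lit 49) (nat_lit 11) (nat_lit 7) (nat_lit 1) (nat_lit 98) (.c (nat_lit 60) (nat_lit 14) (nat_lit 6) (nat_lit 1) (nat_lit 109) (.c (nat_lit 74) (nat_lit 6) (nat_lit 5) (nat_lit 1) (nat_lit 123) (.c (nat_lit 80) (nat_lit 11) (nat_lit 4) (nat_lit 1) (nat_lit 129) (.c (nat_lit 91) (nat_lit 6) (nat_lit 3) (nat_lit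 1) (nat_lit 140) (.c (nat_lit 106) (nat_lit 26) (nat_lit 2) (nat_lit 1) (nat_lit 146) (.c (nat_lit 132) (nat_lit 26) (nat_lit 1) (nat_lit 1) (nat_lit 172) (.c (nat_lit 158) (nat_lit 11) (nat_lit 0) (nat_lit 1) (nat_lit 198) .nil)))))))))))))))

noncomputable def dC2a_c292 : Cm := .mk (nat_lit 561) (nat_lit 292) (nat_lit 252) (nat_lit 37) (.c (nat_lit 24) (nat_lit 6) (nat_lit 20) (nat_lit 1) (nat_lit 37) (.c (nat_lit 33) (nat_lit 6) (nat_lit 18) (nat_lit 2) (nat_lit 43) (.c (nat_lit 39) (nat_lit 3) (nat_lit 16) (nat_lit 2) (nat_lit 55) (.c (nat_lit 42) (nat_lit 3) (nat_lit 14) (nat_lit 2) (nat_lit 61) (.c (nat_lit 45) (nat_lit 3) (nat_lit 11) (nat_lit 3) (nat_lit 67) (.c (nat_lit 48) (nat_lit 1) (nat_lit 8) (nat_lit 2) (nat_lit 76) (.c (nat_lit 60) (nat_lit 14) (nat_lit 7) (nat_lit 1) (nat_lit 78) (.c (nat_lit 80) (nat_lit 11) (nat_lit 6) (nat_lit 1) (nat_lit 92) (.c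 (nat_lit 91) (nat_lit 6) (nat_lit 5) (nat_lit 1) (nat_lit 103) (.c (nat_lit 97) (nat_lit 4) (nat_lit 4) (nat_lit 1) (nat_lit 109) (.c (nat_lit 101) (nat_lit 4) (nat_lit 3) (nat_lit 1) (nat_lit 113) (.c (nat_lit 132) (nat_lit 26) (nat_lit 2) (nat_lit 1) (nat_lit 117) (.c (nat_lit 169) (nat_lit 16) (nat_lit 1) (nat_lit 1) (nat_lit 143) (.c (nat_lit 185) (nat_lit 10) (nat_lit 0) (nat_lit 1) (nat_lit 159) .nil))))))))))))))

noncomputable def dC2a_i0 : IL := (.s false (nat_lit 1) (nat_lit 27) (nat_lit 2) (nat_lit 1) (nat_lit 2) true (nat_lit 7) true (nat_lit 12) false (nat_lit 1) true (nat_lit 12) true (nat_lit 13) (.e false (nat_lit 1) (nat_lit 55) (nat_lit 7) (nat_lit 7) (.e true (nat_lit 3) (nat_lit 120) (nat_lit 2) (nat_lit 12) (.e true (nat_lit 2) (nat_lit 106) (nat_lit 2) (nat_lit 12) (.e false (nat_lit 3) (nat_lit 107) (nat_lit 2) (nat_lit 12) (.e false (nat_lit 3)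 (nat_lit 108) (nat_lit 2) (nat_lit 12) (.e false (nat_lit 1) (nat_lit 109) (nat_lit 2) (nat_lit 12) (.e true (nat_lit 2) (nat_lit 110) (nat_lit 2) (nat_lit 12) (.e false (nat_lit 1) (nat_lit 111) (nat_lit 2) (nat_lit 12) (.e true (nat_lit 1) (nat_lit 112) (nat_lit 2) (nat_lit 12) (.e false (nat_lit 2) (nat_lit 113) (nat_lit 2) (nat_lit 12) (.e false (nat_lit 1) (nat_lit 114) (nat_lit 2) (nat_lit 12) (.e true (nat_lit 3) (nat_lit 115) (nat_lit 2) (nat_lit 12) (.e false (nat_lit 2) (nat_lit 116) (nat_lit 2) (nat_lit 12) (.e false (nat_lit 2) (nat_lit 117) (nat_lit 2) (nat_lit 12) (.e true (nat_lit 2) (nat_lit 119) (nat_lit 2) (nat_lit 12) (.e false (nat_lit 3) (nat_lit 122) (nat_lit 2) (nat_lit 12) (.e true (nat_lit 2) (nat_lit 123) (nat_lit 2) (nat_lit 12) (.e false (nat_lit 1) (nat_lit 126) (nat_lit 2) (nat_lit 12) (.e false (nat_lit 2) (nat_lit 127) (nat_lit 2) (nat_lit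 12) (.e true (nat_lit 1) (nat_lit 128) (nat_lit 2) (nat_lit 12) (.e false (nat_lit 3) (nat_lit 130) (nat_lit 2) (nat_lit 12) (.e false (nat_lit 3) (nat_lit 131) (nat_lit 2) (nat_lit 12) (.e true (nat_lit 1) (nat_lit 135) (nat_lit 1) (nat_lit 13) (.u (nat_lit 2) (.p (nat_lit 160) (nat_lit 1) .z) .nil)))))))))))))))))))))))))

noncomputable def dC2a_i1 : IL := (.s false (nat_lit 1) (nat_lit 27) (nat_lit 2) (nat_lit 2) (nat_lit 1) true (nat_lit 8) true (nat_lit 13) false (nat_lit 1) true (nat_lit 12) true (nat_lit 12) (.e false (nat_lit 1) (nat_lit 63) (nat_lit 6) (nat_lit 8) (.e false (nat_lit 1) (nat_lit 135) (nat_lit 1) (nat_lit 13) (.e true (nat_lit 2) (nat_lit 106) (nat_lit 2) (nat_lit 12) (.e false (nat_lit 3) (nat_lit 107) (nat_lit 2) (nat_lit 12) (.e false (nat_lit 3) (nat_lit 108) (nat_lit 2) (nat_lit 12) (.e false (nat_lit 1) (nat_lit 109) (nat_lit 2) (nat_lit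 12) (.e true (nat_lit 2) (nat_lit 110) (nat_lit 2) (nat_lit 12) (.e false (nat_lit 1) (nat_lit 111) (nat_lit 2) (nat_lit 12) (.e true (nat_lit 2) (nat_lit 112) (nat_lit 2) (nat_lit 12) (.e false (nat_lit 2) (nat_lit 113) (nat_lit 2) (nat_lit 12) (.e false (nat_lit 1) (nat_lit 114) (nat_lit 2) (nat_lit 12) (.e true (nat_lit 3) (nat_lit 115) (nat_lit 2) (nat_lit 12) (.e false (nat_lit 2) (nat_lit 116) (nat_lit 2) (nat_lit 12) (.e false (nat_lit 2) (nat_lit 117) (nat_lit 2) (nat_lit 12) (.e true (nat_lit 2) (nat_lit 119) (nat_lit 2) (nat_lit 12) (.e false (nat_lit 3) (nat_lit 120) (nat_lit 2) (nat_lit 12) (.e false (nat_lit 3) (nat_lit 122) (nat_lit 2) (nat_lit 12) (.e true (nat_lit 2) (nat_lit 123) (nat_lit 2) (nat_lit 12) (.e false (nat_lit 1) (nat_lit 126) (nat_lit 2) (nat_lit 12) (.e false (nat_lit 2) (nat_lit 127) (nat_lit 2) (nat_lit 12) (.e true (nat_lit 1) (nat_lit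 128) (nat_lit 2) (nat_lit 12) (.e false (nat_lit 3) (nat_lit 130) (nat_lit 2) (nat_lit 12) (.e false (nat_lit 3) (nat_lit 131) (nat_lit 2) (nat_lit 12) (.u (nat_lit 2) (.n (nat_lit 0) (nat_lit 1) (.p (nat_lit 1) (nat_lit 1) (.p (nat_lit 2) (nat_lit 1) (.n (nat_lit 4) (nat_lit 1) (.n (nat_lit 6) (nat_lit 1) (.p (nat_lit 7) (nat_lit 1) (.n (nat_lit 9) (nat_lit 1) (.p (nat_lit 10) (nat_lit 1) (.p (nat_lit 11) (nat_lit 1) (.n (nat_lit 13) (nat_lit 1) (.p (nat_lit 16) (nat_lit 1) (.n (nat_lit 17) (nat_lit 1) (.p (nat_lit 21) (nat_lit 1) (.p (nat_lit 24) (nat_lit 1) (.p (nat_lit 25) (nat_lit 1) .z))))))))))))))) .nil)))))))))))))))))))))))))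

noncomputable def dC2a_i2 : IL := (.s true (nat_lit 1) (nat_lit 5) (nat_lit 1) (nat_lit 2) (nat_lit 4) true (nat_lit 1) true (nat_lit 6) true (nat_lit 5) true (nat_lit 9) true (nat_lit 8) (.s false (nat_lit 1) (nat_lit 5) (nat_lit 2) (nat_lit 4) (nat_lit 1) true (nat_lit 4) true (nat_lit 9) true (nat_lit 5) true (nat_lit 8) true (nat_lit 6) (.e false (nat_lit 1) (nat_lit 16) (nat_lit 10) (nat_lit 1) (.e true (nat_lit 1) (nat_lit 30) (nat_lit 5) (nat_lit 5) (.e true (nat_lit 1) (nat_lit 60) (nat_lit 1) (nat_lit 9) (.e true (nat_lit 2) (nat_lit 61) (nat_lit 1) (nat_lit 9) (.e true (nat_lit 3) (nat_lit 63) (nat_lit 1) (nat_lit 9) (.e true (nat_lit 1) (nat_lit 64) (nat_lit 1) (nat_lit 9) (.e true (nat_lit 1) (nat_lit 65) (nat_lit 1) (nat_lit 9) (.e true (nat_lit 2) (nat_lit 67) (nat_lit 1) (nat_lit 9) (.e false (nat_lit 2) (nat_lit 68) (nat_lit 1) (nat_lit 9) (.e true (nat_lit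 1) (nat_lit 52) (nat_lit 2) (nat_lit 8) (.e true (nat_lit 1) (nat_lit 54) (nat_lit 2) (nat_lit 8) (.e false (nat_lit 1) (nat_lit 56) (nat_lit 2) (nat_lit 8) (.e true (nat_lit 1) (nat_lit 24) (nat_lit 6) (nat_lit 4) (.e false (nat_lit 1) (nat_lit 26) (nat_lit 6) (nat_lit 4) (.e true (nat_lit 1) (nat_lit 29) (nat_lit 6) (nat_lit 4) (.e false (nat_lit 1) (nat_lit 62) (nat_lit 1) (nat_lit 9) (.e true (nat_lit 2) (nat_lit 66) (nat_lit 1) (nat_lit 9) (.e false (nat_lit 2) (nat_lit 72) (nat_lit 1) (nat_lit 9) (.e false (nat_lit 1) (nat_lit 49) (nat_lit 2) (nat_lit 8) (.e true (nat_lit 1) (nat_lit 50) (nat_lit 2) (nat_lit 8) (.e false (nat_lit 1) (nat_lit 55) (nat_lit 2) (nat_lit 8) (.e false (nat_lit 1) (nat_lit 59) (nat_lit 2) (nat_lit 8) (.u (nat_lit 2) (.n (nat_lit 1) (nat_lit 1) (.n (nat_lit 2) (nat_lit 1) (.n (nat_lit 3) (nat_lit 1) (.p (nat_lit 4) (nat_lit 1) (.n (nat_lit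 11) (nat_lit 1) (.p (nat_lit 13) (nat_lit 1) (.p (nat_lit 16) (nat_lit 1) (.p (nat_lit 17) (nat_lit 1) (.n (nat_lit 20) (nat_lit 1) (.n (nat_lit 21) (nat_lit 1) (.n (nat_lit 25) (nat_lit 1) (.p (nat_lit 73) (nat_lit 1) .z)))))))))))) .nil)))))))))))))))))))))))))

noncomputable def dC2a_i3 : IL := (.s false (nat_lit 1) (nat_lit 28) (nat_lit 2) (nat_lit 2) (nat_lit 1) true (nat_lit 8) true (nat_lit 13) false (nat_lit 1) true (nat_lit 12) true (nat_lit 12) (.e false (nat_lit 1) (nat_lit 64) (nat_lit 6) (nat_lit 8) (.e false (nat_lit 1) (nat_lit 136) (nat_lit 1) (nat_lit 13) (.e true (nat_lit 3) (nat_lit 106) (nat_lit 2) (nat_lit 12) (.e true (nat_lit 1) (nat_lit 107) (nat_lit 2) (nat_lit 12) (.e true (nat_lit 1) (nat_lit 108) (nat_lit 2) (nat_lit 12) (.e false (nat_lit 1) (nat_lit 110) (nat_lit 2) (nat_lit 12) (.e true (nat_lit 1) (nat_lit 111) (nat_lit 2) (nat_lit 12)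 (.e true (nat_lit 3) (nat_lit 112) (nat_lit 2) (nat_lit 12) (.e false (nat_lit 2) (nat_lit 113) (nat_lit 2) (nat_lit 12) (.e false (nat_lit 2) (nat_lit 114) (nat_lit 2) (nat_lit 12) (.e true (nat_lit 3) (nat_lit 115) (nat_lit 2) (nat_lit 12) (.e false (nat_lit 2) (nat_lit 116) (nat_lit 2) (nat_lit 12) (.e true (nat_lit 3) (nat_lit 117) (nat_lit 2) (nat_lit 12) (.e false (nat_lit 1) (nat_lit 118) (nat_lit 2) (nat_lit 12) (.e false (nat_lit 1) (nat_lit 119) (nat_lit 2) (nat_lit 12) (.e false (nat_lit 1) (nat_lit 120) (nat_lit 2) (nat_lit 12) (.e true (nat_lit 1) (nat_lit 121) (nat_lit 2) (nat_lit 12) (.e true (nat_lit 1) (nat_lit 122) (nat_lit 2) (nat_lit 12) (.e false (nat_lit 1) (nat_lit 123) (nat_lit 2) (nat_lit 12) (.e true (nat_lit 1) (nat_lit 126) (nat_lit 2) (nat_lit 12) (.e true (nat_lit 1) (nat_lit 127) (nat_lit 2) (nat_lit 12) (.e false (nat_lit 2) (nat_lit 130)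 (nat_lit 2) (nat_lit 12) (.e false (nat_lit 1) (nat_lit 131) (nat_lit 2) (nat_lit 12) (.u (nat_lit 2) (.n (nat_lit 3) (nat_lit 1) (.n (nat_lit 14) (nat_lit 1) (.p (nat_lit 23) (nat_lit 1) (.p (nat_lit 24) (nat_lit 1) (.n (nat_lit 37) (nat_lit 1) (.p (nat_lit 40) (nat_lit 1) (.n (nat_lit 41) (nat_lit 1) (.n (nat_lit 42) (nat_lit 1) (.n (nat_lit 43) (nat_lit 1) .z))))))))) .nil)))))))))))))))))))))))))

noncomputable def dC2a_i4 : IL := (.s false (nat_lit 1) (nat_lit 29) (nat_lit 2) (nat_lit 1) (nat_lit 2) true (nat_lit 7) true (nat_lit 12) false (nat_lit 1) true (nat_lit 12) true (nat_lit 13) (.e false (nat_lit 1) (nat_lit 57) (nat_lit 7) (nat_lit 7) (.e true (nat_lit 2) (nat_lit 122) (nat_lit 2) (nat_lit 12) (.e true (nat_lit 2) (nat_lit 106) (nat_lit 2) (nat_lit 12) (.e true (nat_lit 1) (nat_lit 107) (nat_lit 2) (nat_lit 12) (.e true (nat_lit 1) (nat_lit 108) (nat_lit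 2) (nat_lit 12) (.e true (nat_lit 2) (nat_lit 109) (nat_lit 2) (nat_lit 12) (.e false (nat_lit 1) (nat_lit 110) (nat_lit 2) (nat_lit 12) (.e false (nat_lit 1) (nat_lit 111) (nat_lit 2) (nat_lit 12) (.e false (nat_lit 3) (nat_lit 112) (nat_lit 2) (nat_lit 12) (.e false (nat_lit 2) (nat_lit 113) (nat_lit 2) (nat_lit 12) (.e true (nat_lit 3) (nat_lit 114) (nat_lit 2) (nat_lit 12) (.e true (nat_lit 3) (nat_lit 115) (nat_lit 2) (nat_lit 12) (.e false (nat_lit 1) (nat_lit 116) (nat_lit 2) (nat_lit 12) (.e false (nat_lit 1) (nat_lit 117) (nat_lit 2) (nat_lit 12) (.e false (nat_lit 1) (nat_lit 118) (nat_lit 2) (nat_lit 12) (.e false (nat_lit 2) (nat_lit 119) (nat_lit 2) (nat_lit 12) (.e false (nat_lit 2) (nat_lit 120) (nat_lit 2) (nat_lit 12) (.e false (nat_lit 2) (nat_lit 123) (nat_lit 2) (nat_lit 12) (.e true (nat_lit 3) (nat_lit 126) (nat_lit 2) (nat_lit 12) (.e true (nat_lit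 2) (nat_lit 127) (nat_lit 2) (nat_lit 12) (.e false (nat_lit 3) (nat_lit 130) (nat_lit 2) (nat_lit 12) (.e true (nat_lit 3) (nat_lit 131) (nat_lit 2) (nat_lit 12) (.e true (nat_lit 1) (nat_lit 137) (nat_lit 1) (nat_lit 13) (.u (nat_lit 2) (.n (nat_lit 0) (nat_lit 1) (.p (nat_lit 6) (nat_lit 1) (.n (nat_lit 8) (nat_lit 1) (.p (nat_lit 24) (nat_lit 1) .z)))) .nil)))))))))))))))))))))))))

noncomputable def dC2a_i5 : IL := (.s false (nat_lit 1) (nat_lit 29) (nat_lit 2) (nat_lit 2) (nat_lit 1) true (nat_lit 8) true (nat_lit 13) false (nat_lit 1) true (nat_lit 12) true (nat_lit 12) (.e false (nat_lit 1) (nat_lit 65) (nat_lit 6) (nat_lit 8) (.e false (nat_lit 1) (nat_lit 137) (nat_lit 1) (nat_lit 13) (.e true (nat_lit 2) (nat_lit 106) (nat_lit 2) (nat_lit 12) (.e true (nat_lit 1) (nat_lit 107) (nat_lit 2) (nat_lit 12) (.e true (nat_lit 1) (nat_lit 108) (nat_lit 2) (nat_lit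 12) (.e true (nat_lit 2) (nat_lit 109) (nat_lit 2) (nat_lit 12) (.e false (nat_lit 1) (nat_lit 110) (nat_lit 2) (nat_lit 12) (.e false (nat_lit 1) (nat_lit 111) (nat_lit 2) (nat_lit 12) (.e false (nat_lit 3) (nat_lit 112) (nat_lit 2) (nat_lit 12) (.e false (nat_lit 2) (nat_lit 113) (nat_lit 2) (nat_lit 12) (.e false (nat_lit 3) (nat_lit 114) (nat_lit 2) (nat_lit 12) (.e true (nat_lit 3) (nat_lit 115) (nat_lit 2) (nat_lit 12) (.e false (nat_lit 1) (nat_lit 116) (nat_lit 2) (nat_lit 12) (.e false (nat_lit 1) (nat_lit 117) (nat_lit 2) (nat_lit 12) (.e false (nat_lit 1) (nat_lit 118) (nat_lit 2) (nat_lit 12) (.e false (nat_lit 2) (nat_lit 119) (nat_lit 2) (nat_lit 12) (.e false (nat_lit 2) (nat_lit 120) (nat_lit 2) (nat_lit 12) (.e true (nat_lit 3) (nat_lit 122) (nat_lit 2) (nat_lit 12) (.e false (nat_lit 2) (nat_lit 123) (nat_lit 2) (nat_lit 12) (.e true (nat_lit 3) (nat_lit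 126) (nat_lit 2) (nat_lit 12) (.e true (nat_lit 2) (nat_lit 127) (nat_lit 2) (nat_lit 12) (.e false (nat_lit 3) (nat_lit 130) (nat_lit 2) (nat_lit 12) (.e true (nat_lit 3) (nat_lit 131) (nat_lit 2) (nat_lit 12) (.u (nat_lit 2) (.p (nat_lit 1) (nat_lit 1) (.p (nat_lit 2) (nat_lit 1) (.p (nat_lit 7) (nat_lit 1) (.p (nat_lit 8) (nat_lit 1) (.n (nat_lit 9) (nat_lit 1) (.p (nat_lit 10) (nat_lit 1) (.n (nat_lit 16) (nat_lit 1) (.n (nat_lit 20) (nat_lit 1) (.n (nat_lit 22) (nat_lit 1) (.n (nat_lit 46) (nat_lit 1) (.n (nat_lit 154) (nat_lit 1) .z))))))))))) .nil)))))))))))))))))))))))))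

noncomputable def dC2a_i6 : IL := (.e false (nat_lit 1) (nat_lit 73) (nat_lit 6) (nat_lit 8) (.e false (nat_lit 1) (nat_lit 31) (nat_lit 16) (nat_lit 2) (.e true (nat_lit 2) (nat_lit 132) (nat_lit 1) (nat_lit 13) (.e true (nat_lit 3) (nat_lit 133) (nat_lit 1) (nat_lit 13) (.e false (nat_lit 3) (nat_lit 134) (nat_lit 1) (nat_lit 13) (.e true (nat_lit 2) (nat_lit 135) (nat_lit 1) (nat_lit 13) (.e false (nat_lit 3) (nat_lit 136) (nat_lit 1) (nat_lit 13) (.e false (nat_lit 3) (nat_lit 138) (nat_lit 1) (nat_lit 13) (.e false (nat_lit 3) (nat_lit 143) (nat_lit 1) (nat_lit 13) (.e true (nat_lit 1) (nat_lit 145) (nat_lit 1) (nat_lit 13) (.e false (nat_lit 2) (nat_lit 149) (nat_lit 1) (nat_lit 13) (.e true (nat_lit 2) (nat_lit 151) (nat_lit 1) (nat_lit 13) (.e true (nat_lit 3) (nat_lit 152) (nat_lit 1) (nat_lit 13) (.e true (nat_lit 2) (nat_lit 153) (nat_lit 1) (nat_lit 13)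 (.e true (nat_lit 1) (nat_lit 154) (nat_lit 1) (nat_lit 13) (.e false (nat_lit 2) (nat_lit 155) (nat_lit 1) (nat_lit 13) (.e false (nat_lit 2) (nat_lit 157) (nat_lit 1) (nat_lit 13) (.e false (nat_lit 1) (nat_lit 147) (nat_lit 1) (nat_lit 13) (.e true (nat_lit 2) (nat_lit 139) (nat_lit 1) (nat_lit 13) (.e false (nat_lit 2) (nat_lit 140) (nat_lit 1) (nat_lit 13) (.e true (nat_lit 1) (nat_lit 144) (nat_lit 1) (nat_lit 13) (.e false (nat_lit 3) (nat_lit 150) (nat_lit 1) (nat_lit 13) (.e true (nat_lit 3) (nat_lit 156) (nat_lit 1) (nat_lit 13) (.e true (nat_lit 1) (nat_lit 148) (nat_lit 1) (nat_lit 13) (.u (nat_lit 2) (.p (nat_lit 0) (nat_lit 2) (.p (nat_lit 1) (nat_lit 5) (.p (nat_lit 2) (nat_lit 1) (.n (nat_lit 3) (nat_lit 1) (.p (nat_lit 4) (nat_lit 1) (.p (nat_lit 6) (nat_lit 3) (.p (nat_lit 8) (nat_lit 2) (.n (nat_lit 10) (nat_lit 1) (.p (nat_lit 11) (nat_lit 1) (.n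 (nat_lit 12) (nat_lit 1) (.p (nat_lit 13) (nat_lit 1) (.n (nat_lit 14) (nat_lit 1) (.n (nat_lit 15) (nat_lit 2) (.p (nat_lit 17) (nat_lit 1) (.n (nat_lit 21) (nat_lit 1) (.p (nat_lit 22) (nat_lit 3) (.p (nat_lit 23) (nat_lit 1) (.p (nat_lit 24) (nat_lit 4) (.p (nat_lit 25) (nat_lit 4) (.p (nat_lit 26) (nat_lit 3) (.n (nat_lit 27) (nat_lit 4) (.p (nat_lit 28) (nat_lit 1) (.n (nat_lit 29) (nat_lit 3) (.p (nat_lit 30) (nat_lit 1) (.n (nat_lit 32) (nat_lit 1) (.p (nat_lit 34) (nat_lit 1) (.n (nat_lit 36) (nat_lit 1) (.n (nat_lit 37) (nat_lit 1) (.p (nat_lit 38) (nat_lit 2) (.n (nat_lit 39) (nat_lit 2) (.n (nat_lit 40) (nat_lit 3) (.n (nat_lit 41) (nat_lit 2) (.n (nat_lit 42) (nat_lit 5) (.n (nat_lit 43) (nat_lit 1) (.n (nat_lit 44) (nat_lit 2) (.n (nat_lit 45) (nat_lit 1) (.n (nat_lit 46) (nat_lit 2) (.n (nat_lit 172) (nat_lit 1) (.n (nat_lit 176) (nat_lit 2) (.n (nat_lit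 181) (nat_lit 1) (.n (nat_lit 187) (nat_lit 1) (.p (nat_lit 189) (nat_lit 1) (.n (nat_lit 190) (nat_lit 2) (.n (nat_lit 191) (nat_lit 1) (.n (nat_lit 192) (nat_lit 1) (.n (nat_lit 193) (nat_lit 1) (.p (nat_lit 196) (nat_lit 2) (.p (nat_lit 197) (nat_lit 1) .z)))))))))))))))))))))))))))))))))))))))))))))))) .nil)))))))))))))))))))))))))

noncomputable def dC2a_c52 : Cm := .mk (nat_lit 693) (nat_lit 52) (nat_lit 289) (nat_lit 16) (.c (nat_lit 30) (nat_lit 3) (nat_lit 20) (nat_lit 1) (nat_lit 16) (.c (nat_lit 39) (nat_lit 3) (nat_lit 18) (nat_lit 2) (nat_lit 19) (.c (nat_lit 45) (nat_lit 3) (nat_lit 14) (nat_lit 2) (nat_lit 25) (.c (nat_lit 48) (nat_lit 1) (nat_lit 10) (nat_lit 1) (nat_lit 31) (.c (nat_lit 74) (nat_lit 6) (nat_lit 7) (nat_lit 1) (nat_lit 32) (.c (nat_lit 91) (nat_lit 6) (nat_lit 6) (nat_lit 1) (nat_lit 38) (.c (nat_lit 101) (nat_lit 4) (nat_lit 4) (nat_lit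 1) (nat_lit 44) (.c (nat_lit 158) (nat_lit 11) (nat_lit 2) (nat_lit 1) (nat_lit 48) (.c (nat_lit 185) (nat_lit 10) (nat_lit 1) (nat_lit 1) (nat_lit 59) .nil)))))))))

noncomputable def dC2a_i7 : IL := (.e false (nat_lit 1) (nat_lit 108) (nat_lit 2) (nat_lit 12) (.e false (nat_lit 1) (nat_lit 109) (nat_lit 2) (nat_lit 12) (.e false (nat_lit 1) (nat_lit 110) (nat_lit 2) (nat_lit 12) (.e false (nat_lit 1) (nat_lit 111) (nat_lit 2) (nat_lit 12) (.e true (nat_lit 3) (nat_lit 112) (nat_lit 2) (nat_lit 12) (.e true (nat_lit 1) (nat_lit 113) (nat_lit 2) (nat_lit 12) (.e false (nat_lit 2) (nat_lit 114) (nat_lit 2) (nat_lit 12) (.e true (nat_lit 1) (nat_lit 116) (nat_lit 2) (nat_lit 12) (.e false (nat_lit 1) (nat_lit 117) (nat_lit 2) (nat_lit 12) (.e true (nat_lit 1) (nat_lit 118) (nat_lit 2) (nat_lit 12) (.e true (nat_lit 1) (nat_lit 119) (nat_lit 2) (nat_lit 12) (.e false (nat_lit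 1) (nat_lit 121) (nat_lit 2) (nat_lit 12) (.e true (nat_lit 1) (nat_lit 122) (nat_lit 2) (nat_lit 12) (.e false (nat_lit 2) (nat_lit 124) (nat_lit 2) (nat_lit 12) (.e true (nat_lit 1) (nat_lit 128) (nat_lit 2) (nat_lit 12) (.e true (nat_lit 1) (nat_lit 132) (nat_lit 1) (nat_lit 13) (.e true (nat_lit 1) (nat_lit 133) (nat_lit 1) (nat_lit 13) (.e false (nat_lit 2) (nat_lit 135) (nat_lit 1) (nat_lit 13) (.e false (nat_lit 1) (nat_lit 136) (nat_lit 1) (nat_lit 13) (.e true (nat_lit 1) (nat_lit 137) (nat_lit 1) (nat_lit 13) (.e true (nat_lit 1) (nat_lit 139) (nat_lit 1) (nat_lit 13) (.e false (nat_lit 1) (nat_lit 140) (nat_lit 1) (nat_lit 13) (.e true (nat_lit 2) (nat_lit 143) (nat_lit 1) (nat_lit 13) (.e true (nat_lit 1) (nat_lit 145) (nat_lit 1) (nat_lit 13) (.u (nat_lit 2) (.n (nat_lit 2) (nat_lit 1) (.p (nat_lit 3) (nat_lit 1) (.p (nat_lit 5) (nat_lit 1) (.n (nat_lit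 6) (nat_lit 1) (.n (nat_lit 7) (nat_lit 2) (.n (nat_lit 10) (nat_lit 1) (.p (nat_lit 11) (nat_lit 1) (.n (nat_lit 13) (nat_lit 2) (.n (nat_lit 14) (nat_lit 1) (.n (nat_lit 15) (nat_lit 1) (.p (nat_lit 16) (nat_lit 1) (.n (nat_lit 19) (nat_lit 1) (.p (nat_lit 20) (nat_lit 1) (.p (nat_lit 21) (nat_lit 1) (.p (nat_lit 24) (nat_lit 1) (.p (nat_lit 25) (nat_lit 1) (.p (nat_lit 29) (nat_lit 1) (.n (nat_lit 35) (nat_lit 1) (.p (nat_lit 37) (nat_lit 1) (.p (nat_lit 38) (nat_lit 1) (.p (nat_lit 39) (nat_lit 1) (.p (nat_lit 40) (nat_lit 1) (.p (nat_lit 41) (nat_lit 1) (.n (nat_lit 43) (nat_lit 2) (.p (nat_lit 45) (nat_lit 1) (.n (nat_lit 46) (nat_lit 1) .z)))))))))))))))))))))))))) .nil)))))))))))))))))))))))))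

noncomputable def dC2a_i8 : IL := (.e true (nat_lit 1) (nat_lit 37) (nat_lit 15) (nat_lit 3) (.e true (nat_lit 1) (nat_lit 38) (nat_lit 15) (nat_lit 3) (.e true (nat_lit 1) (nat_lit 106) (nat_lit 2) (nat_lit 12) (.e false (nat_lit 2) (nat_lit 107) (nat_lit 2) (nat_lit 12) (.e false (nat_lit 3) (nat_lit 108) (nat_lit 2) (nat_lit 12) (.e true (nat_lit 2) (nat_lit 110) (nat_lit 2) (nat_lit 12) (.e false (nat_lit 3) (nat_lit 113) (nat_lit 2) (nat_lit 12) (.e false (nat_lit 1) (nat_lit 114) (nat_lit 2) (nat_lit 12) (.e true (nat_lit 3) (nat_lit 115) (nat_lit 2) (nat_lit 12) (.e false (nat_lit 3) (nat_lit 116) (nat_lit 2) (nat_lit 12) (.e false (nat_lit 2) (nat_lit 117) (nat_lit 2) (nat_lit 12) (.e true (nat_lit 2) (nat_lit 119) (nat_lit 2) (nat_lit 12) (.e true (nat_lit 3) (nat_lit 120) (nat_lit 2) (nat_lit 12) (.e false (nat_lit 3) (nat_lit 122) (nat_lit 2) (nat_lit 12)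 (.e true (nat_lit 2) (nat_lit 123) (nat_lit 2) (nat_lit 12) (.e true (nat_lit 1) (nat_lit 124) (nat_lit 2) (nat_lit 12) (.e false (nat_lit 1) (nat_lit 126) (nat_lit 2) (nat_lit 12) (.e false (nat_lit 2) (nat_lit 127) (nat_lit 2) (nat_lit 12) (.e true (nat_lit 1) (nat_lit 128) (nat_lit 2) (nat_lit 12) (.e false (nat_lit 3) (nat_lit 130) (nat_lit 2) (nat_lit 12) (.e false (nat_lit 3) (nat_lit 131) (nat_lit 2) (nat_lit 12) (.e true (nat_lit 1) (nat_lit 136) (nat_lit 1) (nat_lit 13) (.e true (nat_lit 1) (nat_lit 141) (nat_lit 1) (nat_lit 13) (.e false (nat_lit 1) (nat_lit 145) (nat_lit 1) (nat_lit 13) (.u (nat_lit 2) (.p (nat_lit 1) (nat_lit 1) (.p (nat_lit 5) (nat_lit 1) (.p (nat_lit 7) (nat_lit 1) (.n (nat_lit 9) (nat_lit 1) (.p (nat_lit 10) (nat_lit 1) (.p (nat_lit 13) (nat_lit 1) (.p (nat_lit 17) (nat_lit 2) (.p (nat_lit 20) (nat_lit 1) (.n (nat_lit 21) (nat_lit 1) (.n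 (nat_lit 22) (nat_lit 1) (.n (nat_lit 25) (nat_lit 1) (.n (nat_lit 26) (nat_lit 1) (.p (nat_lit 37) (nat_lit 1) (.n (nat_lit 38) (nat_lit 1) (.p (nat_lit 39) (nat_lit 1) (.n (nat_lit 40) (nat_lit 1) (.p (nat_lit 41) (nat_lit 1) (.p (nat_lit 43) (nat_lit 1) (.p (nat_lit 45) (nat_lit 1) (.p (nat_lit 46) (nat_lit 1) .z)))))))))))))))))))) .nil)))))))))))))))))))))))))

noncomputable def dC2a_i9 : IL := (.e false (nat_lit 1) (nat_lit 76) (nat_lit 5) (nat_lit 9) (.e false (nat_lit 1) (nat_lit 160) (nat_lit 0) (nat_lit 14) (.e false (nat_lit 1) (nat_lit 108) (nat_lit 2) (nat_lit 12) (.e false (nat_lit 1) (nat_lit 109) (nat_lit 2) (nat_lit 12) (.e true (nat_lit 1) (nat_lit 110) (nat_lit 2) (nat_lit 12) (.e true (nat_lit 1) (nat_lit 111) (nat_lit 2) (nat_lit 12) (.e false (nat_lit 1) (nat_lit 112) (nat_lit 2) (nat_lit 12) (.e false (nat_lit 1) (nat_lit 113) (nat_lit 2) (nat_lit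 12) (.e true (nat_lit 1) (nat_lit 114) (nat_lit 2) (nat_lit 12) (.e true (nat_lit 2) (nat_lit 116) (nat_lit 2) (nat_lit 12) (.e true (nat_lit 2) (nat_lit 117) (nat_lit 2) (nat_lit 12) (.e false (nat_lit 3) (nat_lit 118) (nat_lit 2) (nat_lit 12) (.e false (nat_lit 2) (nat_lit 119) (nat_lit 2) (nat_lit 12) (.e true (nat_lit 1) (nat_lit 120) (nat_lit 2) (nat_lit 12) (.e false (nat_lit 2) (nat_lit 122) (nat_lit 2) (nat_lit 12) (.e false (nat_lit 1) (nat_lit 123) (nat_lit 2) (nat_lit 12) (.e true (nat_lit 1) (nat_lit 124) (nat_lit 2) (nat_lit 12) (.e false (nat_lit 1) (nat_lit 125) (nat_lit 2) (nat_lit 12) (.e true (nat_lit 2) (nat_lit 126) (nat_lit 2) (nat_lit 12) (.e true (nat_lit 2) (nat_lit 127) (nat_lit 2) (nat_lit 12) (.e false (nat_lit 1) (nat_lit 128) (nat_lit 2) (nat_lit 12) (.e false (nat_lit 1) (nat_lit 130) (nat_lit 2) (nat_lit 12) (.e false (nat_lit 1) (nat_lit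 131) (nat_lit 2) (nat_lit 12) (.e true (nat_lit 1) (nat_lit 115) (nat_lit 2) (nat_lit 12) (.u (nat_lit 2) (.p (nat_lit 4) (nat_lit 1) (.p (nat_lit 6) (nat_lit 1) (.n (nat_lit 9) (nat_lit 1) (.p (nat_lit 12) (nat_lit 1) (.p (nat_lit 16) (nat_lit 1) (.p (nat_lit 17) (nat_lit 1) (.n (nat_lit 21) (nat_lit 1) .z))))))) .nil)))))))))))))))))))))))))

noncomputable def dC2a_c277 : Cm := .mk (nat_lit 746) (nat_lit 277) (nat_lit 305) (nat_lit 19) (.c (nat_lit 33) (nat_lit 6) (nat_lit 20) (nat_lit 1) (nat_lit 19) (.c (nat_lit 42) (nat_lit 3) (nat_lit 18) (nat_lit 2) (nat_lit 25) (.c (nat_lit 45) (nat_lit 3) (nat_lit 16) (nat_lit 2) (nat_lit 31) (.c (nat_lit 48) (nat_lit 1) (nat_lit 11) (nat_lit 3) (nat_lit 37) (.c (nat_lit 80) (nat_lit 11) (nat_lit 7) (nat_lit 1) (nat_lit 40) (.c (nat_lit 97) (nat_lit 4) (nat_lit 6) (nat_lit 1) (nat_lit 51) (.c (nat_lit 101) (nat_lit 4) (nat_lit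 5) (nat_lit 1) (nat_lit 55) (.c (nat_lit 105) (nat_lit 1) (nat_lit 3) (nat_lit 1) (nat_lit 59) (.c (nat_lit 169) (nat_lit 16) (nat_lit 2) (nat_lit 1) (nat_lit 60) (.c (nat_lit 195) (nat_lit 5) (nat_lit 1) (nat_lit 1) (nat_lit 76) (.c (nat_lit 200) (nat_lit 5) (nat_lit 0) (nat_lit 1) (nat_lit 81) .nil)))))))))))

noncomputable def dC2a_i10 : IL := (.e true (nat_lit 2) (nat_lit 126) (nat_lit 2) (nat_lit 12) (.e true (nat_lit 2) (nat_lit 127) (nat_lit 2) (nat_lit 12) (.e true (nat_lit 3) (nat_lit 130) (nat_lit 2) (nat_lit 12) (.e true (nat_lit 3) (nat_lit 131) (nat_lit 2) (nat_lit 12) (.e true (nat_lit 2) (nat_lit 132) (nat_lit 1) (nat_lit 13) (.e false (nat_lit 2) (nat_lit 133) (nat_lit 1) (nat_lit 13) (.e true (nat_lit 2) (nat_lit 134) (nat_lit 1) (nat_lit 13) (.e true (nat_lit 2) (nat_lit 135) (nat_lit 1) (nat_lit 13) (.e true (nat_lit 1) (nat_lit 136) (nat_lit 1) (nat_lit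 13) (.e true (nat_lit 3) (nat_lit 137) (nat_lit 1) (nat_lit 13) (.e false (nat_lit 3) (nat_lit 139) (nat_lit 1) (nat_lit 13) (.e false (nat_lit 2) (nat_lit 141) (nat_lit 1) (nat_lit 13) (.e false (nat_lit 1) (nat_lit 142) (nat_lit 1) (nat_lit 13) (.e false (nat_lit 2) (nat_lit 143) (nat_lit 1) (nat_lit 13) (.e false (nat_lit 1) (nat_lit 145) (nat_lit 1) (nat_lit 13) (.e true (nat_lit 1) (nat_lit 149) (nat_lit 1) (nat_lit 13) (.e false (nat_lit 1) (nat_lit 150) (nat_lit 1) (nat_lit 13) (.e false (nat_lit 2) (nat_lit 151) (nat_lit 1) (nat_lit 13) (.e false (nat_lit 1) (nat_lit 153) (nat_lit 1) (nat_lit 13) (.e false (nat_lit 1) (nat_lit 154) (nat_lit 1) (nat_lit 13) (.e false (nat_lit 3) (nat_lit 155) (nat_lit 1) (nat_lit 13) (.e true (nat_lit 2) (nat_lit 156) (nat_lit 1) (nat_lit 13) (.e false (nat_lit 3) (nat_lit 140) (nat_lit 1) (nat_lit 13) (.e false (nat_lit 3) (nat_lit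 147) (nat_lit 1) (nat_lit 13) (.u (nat_lit 2) (.n (nat_lit 0) (nat_lit 2) (.n (nat_lit 1) (nat_lit 2) (.n (nat_lit 2) (nat_lit 1) (.n (nat_lit 3) (nat_lit 1) (.p (nat_lit 4) (nat_lit 3) (.n (nat_lit 5) (nat_lit 2) (.p (nat_lit 6) (nat_lit 1) (.p (nat_lit 7) (nat_lit 3) (.n (nat_lit 8) (nat_lit 2) (.n (nat_lit 9) (nat_lit 1) (.n (nat_lit 10) (nat_lit 1) (.p (nat_lit 13) (nat_lit 1) (.p (nat_lit 15) (nat_lit 2) (.p (nat_lit 22) (nat_lit 1) (.p (nat_lit 24) (nat_lit 1) (.p (nat_lit 25) (nat_lit 1) (.p (nat_lit 26) (nat_lit 2) (.n (nat_lit 29) (nat_lit 1) (.p (nat_lit 31) (nat_lit 1) (.p (nat_lit 34) (nat_lit 1) (.n (nat_lit 37) (nat_lit 2) (.n (nat_lit 45) (nat_lit 3) (.p (nat_lit 46) (nat_lit 2) (.p (nat_lit 174) (nat_lit 1) (.n (nat_lit 179) (nat_lit 1) (.n (nat_lit 181) (nat_lit 1) (.n (nat_lit 191) (nat_lit 1) (.n (nat_lit 194) (nat_lit 1) (.n (nat_lit 195) (nat_lit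 1) (.p (nat_lit 196) (nat_lit 1) .z)))))))))))))))))))))))))))))) .nil)))))))))))))))))))))))))

noncomputable def dC2a_i11 : IL := (.e true (nat_lit 2) (nat_lit 156) (nat_lit 1) (nat_lit 13) (.e true (nat_lit 2) (nat_lit 157) (nat_lit 1) (nat_lit 13) (.e true (nat_lit 3) (nat_lit 106) (nat_lit 2) (nat_lit 12) (.e false (nat_lit 3) (nat_lit 107) (nat_lit 2) (nat_lit 12) (.e true (nat_lit 2) (nat_lit 108) (nat_lit 2) (nat_lit 12) (.e false (nat_lit 2) (nat_lit 109) (nat_lit 2) (nat_lit 12) (.e false (nat_lit 2) (nat_lit 110) (nat_lit 2) (nat_lit 12) (.e false (nat_lit 1) (nat_lit 112) (nat_lit 2) (nat_lit 12) (.e true (nat_lit 1) (nat_lit 113) (nat_lit 2) (nat_lit 12) (.e true (nat_lit 1) (nat_lit 114) (nat_lit 2) (nat_lit 12) (.e false (nat_lit 1) (nat_lit 115) (nat_lit 2) (nat_lit 12) (.e true (nat_lit 2) (nat_lit 116) (nat_lit 2) (nat_lit 12) (.e true (nat_lit 3) (nat_lit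 117) (nat_lit 2) (nat_lit 12) (.e false (nat_lit 3) (nat_lit 118) (nat_lit 2) (nat_lit 12) (.e true (nat_lit 2) (nat_lit 119) (nat_lit 2) (nat_lit 12) (.e true (nat_lit 2) (nat_lit 120) (nat_lit 2) (nat_lit 12) (.e true (nat_lit 1) (nat_lit 121) (nat_lit 2) (nat_lit 12) (.e false (nat_lit 3) (nat_lit 122) (nat_lit 2) (nat_lit 12) (.e false (nat_lit 2) (nat_lit 123) (nat_lit 2) (nat_lit 12) (.e true (nat_lit 2) (nat_lit 124) (nat_lit 2) (nat_lit 12) (.e false (nat_lit 2) (nat_lit 126) (nat_lit 2) (nat_lit 12) (.e false (nat_lit 3) (nat_lit 127) (nat_lit 2) (nat_lit 12) (.e true (nat_lit 1) (nat_lit 130) (nat_lit 2) (nat_lit 12) (.e true (nat_lit 2) (nat_lit 131) (nat_lit 2) (nat_lit 12) (.u (nat_lit 2) (.n (nat_lit 0) (nat_lit 1) (.p (nat_lit 1) (nat_lit 2) (.n (nat_lit 3) (nat_lit 2) (.p (nat_lit 4) (nat_lit 1) (.n (nat_lit 5) (nat_lit 1) (.n (nat_lit 6) (nat_lit 1)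 (.p (nat_lit 7) (nat_lit 1) (.n (nat_lit 10) (nat_lit 1) (.n (nat_lit 11) (nat_lit 1) (.p (nat_lit 12) (nat_lit 1) (.n (nat_lit 14) (nat_lit 3) (.p (nat_lit 15) (nat_lit 1) (.n (nat_lit 17) (nat_lit 1) (.p (nat_lit 21) (nat_lit 2) (.p (nat_lit 24) (nat_lit 3) (.p (nat_lit 25) (nat_lit 3) (.p (nat_lit 26) (nat_lit 2) (.n (nat_lit 29) (nat_lit 1) (.p (nat_lit 31) (nat_lit 1) (.n (nat_lit 37) (nat_lit 1) (.p (nat_lit 38) (nat_lit 1) (.p (nat_lit 40) (nat_lit 4) (.n (nat_lit 43) (nat_lit 4) (.n (nat_lit 45) (nat_lit 3) (.n (nat_lit 46) (nat_lit 3) (.n (nat_lit 180) (nat_lit 1) .z)))))))))))))))))))))))))) .nil)))))))))))))))))))))))))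

noncomputable def dC2a_i12 : IL := (.e true (nat_lit 1) (nat_lit 183) (nat_lit 1) (nat_lit 12) (.e true (nat_lit 3) (nat_lit 132) (nat_lit 2) (nat_lit 11) (.e false (nat_lit 1) (nat_lit 133) (nat_lit 2) (nat_lit 11) (.e false (nat_lit 2) (nat_lit 134) (nat_lit 2) (nat_lit 11) (.e true (nat_lit 1) (nat_lit 135) (nat_lit 2) (nat_lit 11) (.e true (nat_lit 3) (nat_lit 136) (nat_lit 2) (nat_lit 11) (.e true (nat_lit 1) (nat_lit 137) (nat_lit 2) (nat_lit 11) (.e false (nat_lit 1) (nat_lit 138) (nat_lit 2) (nat_lit 11) (.e true (nat_lit 3) (nat_lit 139) (nat_lit 2) (nat_lit 11) (.e true (nat_lit 3) (nat_lit 141) (nat_lit 2) (nat_lit 11) (.e true (nat_lit 1) (nat_lit 143) (nat_lit 2) (nat_lit 11) (.e true (nat_lit 1) (nat_lit 144) (nat_lit 2) (nat_lit 11) (.e false (nat_lit 3) (nat_lit 145) (nat_lit 2) (nat_lit 11) (.e false (nat_lit 1) (nat_lit 146) (nat_lit 2) (nat_lit 11)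 (.e false (nat_lit 3) (nat_lit 147) (nat_lit 2) (nat_lit 11) (.e false (nat_lit 1) (nat_lit 149) (nat_lit 2) (nat_lit 11) (.e true (nat_lit 2) (nat_lit 150) (nat_lit 2) (nat_lit 11) (.e true (nat_lit 2) (nat_lit 151) (nat_lit 2) (nat_lit 11) (.e true (nat_lit 2) (nat_lit 152) (nat_lit 2) (nat_lit 11) (.e true (nat_lit 2) (nat_lit 153) (nat_lit 2) (nat_lit 11) (.e true (nat_lit 3) (nat_lit 154) (nat_lit 2) (nat_lit 11) (.e true (nat_lit 1) (nat_lit 155) (nat_lit 2) (nat_lit 11) (.e false (nat_lit 2) (nat_lit 156) (nat_lit 2) (nat_lit 11) (.e false (nat_lit 2) (nat_lit 157) (nat_lit 2) (nat_lit 11) (.u (nat_lit 2) (.n (nat_lit 0) (nat_lit 1) (.p (nat_lit 11) (nat_lit 1) (.p (nat_lit 14) (nat_lit 1) (.p (nat_lit 15) (nat_lit 1) (.n (nat_lit 18) (nat_lit 1) (.n (nat_lit 19) (nat_lit 1) (.n (nat_lit 22) (nat_lit 1) (.n (nat_lit 23) (nat_lit 1) (.p (nat_lit 24) (nat_lit 1)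 (.p (nat_lit 31) (nat_lit 1) (.n (nat_lit 33) (nat_lit 1) (.p (nat_lit 125) (nat_lit 1) .z)))))))))))) .nil)))))))))))))))))))))))))

noncomputable def dC2a_i13 : IL := (.e false (nat_lit 1) (nat_lit 132) (nat_lit 2) (nat_lit 11) (.e false (nat_lit 1) (nat_lit 133) (nat_lit 2) (nat_lit 11) (.e false (nat_lit 3) (nat_lit 134) (nat_lit 2) (nat_lit 11) (.e true (nat_lit 1) (nat_lit 135) (nat_lit 2) (nat_lit 11) (.e false (nat_lit 2) (nat_lit 136) (nat_lit 2) (nat_lit 11) (.e true (nat_lit 2) (nat_lit 137) (nat_lit 2) (nat_lit 11) (.e true (nat_lit 1) (nat_lit 138) (nat_lit 2) (nat_lit 11) (.e true (nat_lit 1) (nat_lit 139) (nat_lit 2) (nat_lit 11) (.e true (nat_lit 2) (nat_lit 141) (nat_lit 2) (nat_lit 11) (.e false (nat_lit 1) (nat_lit 142) (nat_lit 2) (nat_lit 11) (.e false (nat_lit 3) (nat_lit 143) (nat_lit 2) (nat_lit 11) (.e false (nat_lit 1) (nat_lit 144) (nat_lit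 2) (nat_lit 11) (.e true (nat_lit 2) (nat_lit 145) (nat_lit 2) (nat_lit 11) (.e true (nat_lit 1) (nat_lit 146) (nat_lit 2) (nat_lit 11) (.e true (nat_lit 2) (nat_lit 149) (nat_lit 2) (nat_lit 11) (.e false (nat_lit 3) (nat_lit 150) (nat_lit 2) (nat_lit 11) (.e true (nat_lit 3) (nat_lit 151) (nat_lit 2) (nat_lit 11) (.e false (nat_lit 2) (nat_lit 152) (nat_lit 2) (nat_lit 11) (.e false (nat_lit 3) (nat_lit 153) (nat_lit 2) (nat_lit 11) (.e true (nat_lit 3) (nat_lit 154) (nat_lit 2) (nat_lit 11) (.e true (nat_lit 3) (nat_lit 155) (nat_lit 2) (nat_lit 11) (.e false (nat_lit 3) (nat_lit 156) (nat_lit 2) (nat_lit 11) (.e true (nat_lit 2) (nat_lit 157) (nat_lit 2) (nat_lit 11) (.e true (nat_lit 1) (nat_lit 140) (nat_lit 2) (nat_lit 11) (.u (nat_lit 2) (.p (nat_lit 2) (nat_lit 1) (.p (nat_lit 3) (nat_lit 1) (.n (nat_lit 5) (nat_lit 1) (.p (nat_lit 11) (nat_lit 1) (.p (nat_lit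 12) (nat_lit 1) (.p (nat_lit 20) (nat_lit 1) (.n (nat_lit 22) (nat_lit 1) (.n (nat_lit 23) (nat_lit 1) (.p (nat_lit 31) (nat_lit 1) (.n (nat_lit 33) (nat_lit 1) .z)))))))))) .nil)))))))))))))))))))))))))

noncomputable def dC2a_i14 : IL := (.e false (nat_lit 1) (nat_lit 83) (nat_lit 6) (nat_lit 7) (.e false (nat_lit 1) (nat_lit 132) (nat_lit 2) (nat_lit 11) (.e false (nat_lit 1) (nat_lit 133) (nat_lit 2) (nat_lit 11) (.e true (nat_lit 1) (nat_lit 134) (nat_lit 2) (nat_lit 11) (.e true (nat_lit 1) (nat_lit 135) (nat_lit 2) (nat_lit 11) (.e false (nat_lit 1) (nat_lit 137) (nat_lit 2) (nat_lit 11) (.e false (nat_lit 1) (nat_lit 138) (nat_lit 2) (nat_lit 11) (.e false (nat_lit 1) (nat_lit 139) (nat_lit 2) (nat_lit 11) (.e true (nat_lit 1) (nat_lit 140) (nat_lit 2) (nat_lit 11) (.e true (nat_lit 1) (nat_lit 141) (nat_lit 2) (nat_lit 11) (.e true (nat_lit 1) (nat_lit 144)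 (nat_lit 2) (nat_lit 11) (.e false (nat_lit 1) (nat_lit 145) (nat_lit 2) (nat_lit 11) (.e false (nat_lit 1) (nat_lit 169) (nat_lit 1) (nat_lit 12) (.e false (nat_lit 1) (nat_lit 171) (nat_lit 1) (nat_lit 12) (.e true (nat_lit 3) (nat_lit 172) (nat_lit 1) (nat_lit 12) (.e true (nat_lit 1) (nat_lit 173) (nat_lit 1) (nat_lit 12) (.e false (nat_lit 2) (nat_lit 174) (nat_lit 1) (nat_lit 12) (.e false (nat_lit 2) (nat_lit 175) (nat_lit 1) (nat_lit 12) (.e false (nat_lit 2) (nat_lit 176) (nat_lit 1) (nat_lit 12) (.e true (nat_lit 1) (nat_lit 177) (nat_lit 1) (nat_lit 12) (.e true (nat_lit 2) (nat_lit 178) (nat_lit 1) (nat_lit 12) (.e true (nat_lit 2) (nat_lit 179) (nat_lit 1) (nat_lit 12) (.e true (nat_lit 1) (nat_lit 182) (nat_lit 1) (nat_lit 12) (.e true (nat_lit 1) (nat_lit 148) (nat_lit 2) (nat_lit 11) (.u (nat_lit 2) (.n (nat_lit 0) (nat_lit 1) (.p (nat_lit 1) (nat_lit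 1) (.n (nat_lit 2) (nat_lit 1) (.p (nat_lit 3) (nat_lit 1) (.p (nat_lit 4) (nat_lit 2) (.n (nat_lit 5) (nat_lit 1) (.p (nat_lit 6) (nat_lit 1) (.p (nat_lit 7) (nat_lit 2) (.n (nat_lit 8) (nat_lit 2) (.p (nat_lit 11) (nat_lit 1) (.p (nat_lit 12) (nat_lit 1) (.p (nat_lit 14) (nat_lit 1) (.p (nat_lit 15) (nat_lit 1) (.p (nat_lit 17) (nat_lit 1) (.p (nat_lit 18) (nat_lit 3) (.p (nat_lit 20) (nat_lit 1) (.p (nat_lit 23) (nat_lit 1) (.n (nat_lit 28) (nat_lit 1) (.n (nat_lit 31) (nat_lit 1) (.p (nat_lit 33) (nat_lit 1) (.p (nat_lit 34) (nat_lit 1) (.n (nat_lit 36) (nat_lit 1) .z)))))))))))))))))))))) .nil)))))))))))))))))))))))))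

noncomputable def dC2a_i15 : IL := (.e false (nat_lit 1) (nat_lit 131) (nat_lit 2) (nat_lit 12) (.e false (nat_lit 3) (nat_lit 109) (nat_lit 2) (nat_lit 12) (.e true (nat_lit 2) (nat_lit 125) (nat_lit 2) (nat_lit 12) (.e true (nat_lit 2) (nat_lit 133) (nat_lit 1) (nat_lit 13) (.e true (nat_lit 3) (nat_lit 135) (nat_lit 1) (nat_lit 13) (.e true (nat_lit 3) (nat_lit 136) (nat_lit 1) (nat_lit 13) (.e true (nat_lit 2) (nat_lit 137) (nat_lit 1) (nat_lit 13) (.e false (nat_lit 3) (nat_lit 138) (nat_lit 1) (nat_lit 13) (.e false (nat_lit 2) (nat_lit 139) (nat_lit 1) (nat_lit 13) (.e true (nat_lit 2) (nat_lit 140) (nat_lit 1) (nat_lit 13) (.e false (nat_lit 2) (nat_lit 141) (nat_lit 1) (nat_lit 13) (.e false (nat_lit 1) (nat_lit 142) (nat_lit 1) (nat_lit 13) (.e false (nat_lit 3) (nat_lit 144) (nat_lit 1) (nat_lit 13) (.e false (nat_lit 3) (nat_lit 148) (nat_lit 1) (nat_lit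 13) (.e true (nat_lit 1) (nat_lit 149) (nat_lit 1) (nat_lit 13) (.e false (nat_lit 2) (nat_lit 151) (nat_lit 1) (nat_lit 13) (.e true (nat_lit 3) (nat_lit 152) (nat_lit 1) (nat_lit 13) (.e false (nat_lit 1) (nat_lit 153) (nat_lit 1) (nat_lit 13) (.e true (nat_lit 2) (nat_lit 156) (nat_lit 1) (nat_lit 13) (.e true (nat_lit 1) (nat_lit 157) (nat_lit 1) (nat_lit 13) (.e false (nat_lit 2) (nat_lit 134) (nat_lit 1) (nat_lit 13) (.e false (nat_lit 2) (nat_lit 145) (nat_lit 1) (nat_lit 13) (.e true (nat_lit 3) (nat_lit 154) (nat_lit 1) (nat_lit 13) (.e true (nat_lit 3) (nat_lit 155) (nat_lit 1) (nat_lit 13) (.u (nat_lit 2) (.n (nat_lit 0) (nat_lit 4) (.n (nat_lit 1) (nat_lit 1) (.n (nat_lit 2) (nat_lit 1) (.p (nat_lit 3) (nat_lit 1) (.p (nat_lit 4) (nat_lit 2) (.n (nat_lit 5) (nat_lit 1) (.p (nat_lit 7) (nat_lit 3) (.n (nat_lit 8) (nat_lit 3) (.n (nat_lit 9) (nat_lit 2) (.p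 (nat_lit 10) (nat_lit 1) (.p (nat_lit 11) (nat_lit 1) (.p (nat_lit 12) (nat_lit 1) (.p (nat_lit 13) (nat_lit 3) (.p (nat_lit 14) (nat_lit 2) (.p (nat_lit 17) (nat_lit 1) (.n (nat_lit 19) (nat_lit 1) (.p (nat_lit 20) (nat_lit 2) (.n (nat_lit 21) (nat_lit 1) (.p (nat_lit 22) (nat_lit 1) (.n (nat_lit 23) (nat_lit 2) (.n (nat_lit 24) (nat_lit 1) (.p (nat_lit 25) (nat_lit 1) (.p (nat_lit 26) (nat_lit 1) (.n (nat_lit 28) (nat_lit 1) (.n (nat_lit 29) (nat_lit 1) (.p (nat_lit 30) (nat_lit 1) (.n (nat_lit 37) (nat_lit 2) (.n (nat_lit 40) (nat_lit 2) (.p (nat_lit 41) (nat_lit 1) (.p (nat_lit 42) (nat_lit 1) (.p (nat_lit 43) (nat_lit 1) (.n (nat_lit 45) (nat_lit 1) (.p (nat_lit 46) (nat_lit 1) (.n (nat_lit 147) (nat_lit 1) (.n (nat_lit 148) (nat_lit 1) (.n (nat_lit 149) (nat_lit 1) (.p (nat_lit 150) (nat_lit 1) (.n (nat_lit 152) (nat_lit 1) (.p (nat_lit 154) (nat_lit 1) (.n (nat_lit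 156) (nat_lit 1) (.n (nat_lit 158) (nat_lit 1) (.p (nat_lit 162) (nat_lit 1) (.p (nat_lit 163) (nat_lit 1) (.p (nat_lit 173) (nat_lit 1) (.p (nat_lit 176) (nat_lit 1) (.n (nat_lit 178) (nat_lit 1) (.n (nat_lit 184) (nat_lit 1) (.n (nat_lit 188) (nat_lit 1) (.p (nat_lit 192) (nat_lit 1) .z))))))))))))))))))))))))))))))))))))))))))))))))) .nil)))))))))))))))))))))))))

noncomputable def dC2a_i16 : IL := (.s false (nat_lit 1) (nat_lit 37) (nat_lit 1) (nat_lit 1) (nat_lit 2) true (nat_lit 8) true (nat_lit 12) false (nat_lit 3) true (nat_lit 13) true (nat_lit 13) (.e true (nat_lit 1) (nat_lit 61) (nat_lit 6) (nat_lit 8) (.e false (nat_lit 1) (nat_lit 62) (nat_lit 6) (nat_lit 8) (.e false (nat_lit 1) (nat_lit 63) (nat_lit 6) (nat_lit 8) (.e true (nat_lit 1) (nat_lit 64) (nat_lit 6) (nat_lit 8) (.e true (nat_lit 1) (nat_lit 66) (nat_lit 6) (nat_lit 8) (.e true (nat_lit 1) (nat_lit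 67) (nat_lit 6) (nat_lit 8) (.e false (nat_lit 1) (nat_lit 68) (nat_lit 6) (nat_lit 8) (.e false (nat_lit 2) (nat_lit 71) (nat_lit 6) (nat_lit 8) (.e false (nat_lit 2) (nat_lit 72) (nat_lit 6) (nat_lit 8) (.e false (nat_lit 2) (nat_lit 118) (nat_lit 2) (nat_lit 12) (.e false (nat_lit 2) (nat_lit 119) (nat_lit 2) (nat_lit 12) (.e true (nat_lit 2) (nat_lit 120) (nat_lit 2) (nat_lit 12) (.e true (nat_lit 3) (nat_lit 123) (nat_lit 2) (nat_lit 12) (.e true (nat_lit 3) (nat_lit 106) (nat_lit 2) (nat_lit 12) (.e false (nat_lit 2) (nat_lit 107) (nat_lit 2) (nat_lit 12) (.e false (nat_lit 1) (nat_lit 108) (nat_lit 2) (nat_lit 12) (.e true (nat_lit 2) (nat_lit 110) (nat_lit 2) (nat_lit 12) (.e false (nat_lit 1) (nat_lit 113) (nat_lit 2) (nat_lit 12) (.e true (nat_lit 1) (nat_lit 115) (nat_lit 2) (nat_lit 12) (.e true (nat_lit 2) (nat_lit 116) (nat_lit 2) (nat_lit 12) (.e false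 (nat_lit 3) (nat_lit 117) (nat_lit 2) (nat_lit 12) (.e false (nat_lit 2) (nat_lit 122) (nat_lit 2) (nat_lit 12) (.e true (nat_lit 2) (nat_lit 127) (nat_lit 2) (nat_lit 12) (.e false (nat_lit 1) (nat_lit 130) (nat_lit 2) (nat_lit 12) dC2a_i15)))))))))))))))))))))))))

noncomputable def dC2a_i17 : IL := (.e true (nat_lit 1) (nat_lit 76) (nat_lit 5) (nat_lit 9) (.e false (nat_lit 1) (nat_lit 33) (nat_lit 15) (nat_lit 3) (.e true (nat_lit 1) (nat_lit 34) (nat_lit 15) (nat_lit 3) (.e true (nat_lit 1) (nat_lit 38) (nat_lit 15) (nat_lit 3) (.e true (nat_lit 1) (nat_lit 132) (nat_lit 1) (nat_lit 13) (.e true (nat_lit 1) (nat_lit 133) (nat_lit 1) (nat_lit 13) (.e false (nat_lit 1) (nat_lit 134) (nat_lit 1) (nat_lit 13) (.e false (nat_lit 1) (nat_lit 135) (nat_lit 1) (nat_lit 13) (.e false (nat_lit 1) (nat_lit 136) (nat_lit 1) (nat_lit 13) (.e true (nat_lit 1) (nat_lit 137) (nat_lit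 1) (nat_lit 13) (.e true (nat_lit 1) (nat_lit 138) (nat_lit 1) (nat_lit 13) (.e false (nat_lit 1) (nat_lit 141) (nat_lit 1) (nat_lit 13) (.e false (nat_lit 1) (nat_lit 143) (nat_lit 1) (nat_lit 13) (.e true (nat_lit 2) (nat_lit 145) (nat_lit 1) (nat_lit 13) (.e true (nat_lit 1) (nat_lit 149) (nat_lit 1) (nat_lit 13) (.e false (nat_lit 1) (nat_lit 151) (nat_lit 1) (nat_lit 13) (.e false (nat_lit 1) (nat_lit 152) (nat_lit 1) (nat_lit 13) (.e false (nat_lit 1) (nat_lit 153) (nat_lit 1) (nat_lit 13) (.e false (nat_lit 1) (nat_lit 154) (nat_lit 1) (nat_lit 13) (.e true (nat_lit 1) (nat_lit 155) (nat_lit 1) (nat_lit 13) (.e true (nat_lit 1) (nat_lit 157) (nat_lit 1) (nat_lit 13) (.e true (nat_lit 1) (nat_lit 121) (nat_lit 2) (nat_lit 12) (.e true (nat_lit 1) (nat_lit 125) (nat_lit 2) (nat_lit 12) (.e false (nat_lit 1) (nat_lit 127) (nat_lit 2) (nat_lit 12) (.u (nat_lit 2)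 (.n (nat_lit 0) (nat_lit 2) (.p (nat_lit 1) (nat_lit 2) (.n (nat_lit 2) (nat_lit 1) (.n (nat_lit 4) (nat_lit 1) (.n (nat_lit 5) (nat_lit 1) (.n (nat_lit 8) (nat_lit 1) (.p (nat_lit 9) (nat_lit 1) (.n (nat_lit 10) (nat_lit 2) (.n (nat_lit 11) (nat_lit 2) (.p (nat_lit 12) (nat_lit 1) (.n (nat_lit 13) (nat_lit 1) (.n (nat_lit 14) (nat_lit 2) (.n (nat_lit 15) (nat_lit 1) (.p (nat_lit 20) (nat_lit 1) (.p (nat_lit 22) (nat_lit 1) (.p (nat_lit 23) (nat_lit 1) (.p (nat_lit 24) (nat_lit 2) (.p (nat_lit 25) (nat_lit 2) (.n (nat_lit 29) (nat_lit 1) (.n (nat_lit 37) (nat_lit 1) (.n (nat_lit 38) (nat_lit 1) (.p (nat_lit 40) (nat_lit 1) (.n (nat_lit 41) (nat_lit 1) (.n (nat_lit 42) (nat_lit 1) (.n (nat_lit 43) (nat_lit 2) (.n (nat_lit 46) (nat_lit 1) .z)))))))))))))))))))))))))) .nil)))))))))))))))))))))))))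

noncomputable def dC2a_i18 : IL := (.e false (nat_lit 1) (nat_lit 132) (nat_lit 2) (nat_lit 11) (.e true (nat_lit 1) (nat_lit 133) (nat_lit 2) (nat_lit 11) (.e true (nat_lit 2) (nat_lit 134) (nat_lit 2) (nat_lit 11) (.e false (nat_lit 1) (nat_lit 135) (nat_lit 2) (nat_lit 11) (.e false (nat_lit 2) (nat_lit 136) (nat_lit 2) (nat_lit 11) (.e false (nat_lit 2) (nat_lit 138) (nat_lit 2) (nat_lit 11) (.e true (nat_lit 3) (nat_lit 139) (nat_lit 2) (nat_lit 11) (.e false (nat_lit 3) (nat_lit 140) (nat_lit 2) (nat_lit 11) (.e true (nat_lit 3) (nat_lit 143) (nat_lit 2) (nat_lit 11) (.e true (nat_lit 2) (nat_lit 144) (nat_lit 2) (nat_lit 11) (.e true (nat_lit 2) (nat_lit 145) (nat_lit 2) (nat_lit 11) (.e false (nat_lit 1) (nat_lit 147) (nat_lit 2) (nat_lit 11) (.e true (nat_lit 2) (nat_lit 149) (nat_lit 2) (nat_lit 11) (.e false (nat_lit 3) (nat_lit 150) (nat_lit 2) (nat_lit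 11) (.e false (nat_lit 3) (nat_lit 151) (nat_lit 2) (nat_lit 11) (.e false (nat_lit 2) (nat_lit 152) (nat_lit 2) (nat_lit 11) (.e false (nat_lit 2) (nat_lit 153) (nat_lit 2) (nat_lit 11) (.e false (nat_lit 3) (nat_lit 154) (nat_lit 2) (nat_lit 11) (.e false (nat_lit 3) (nat_lit 155) (nat_lit 2) (nat_lit 11) (.e true (nat_lit 3) (nat_lit 156) (nat_lit 2) (nat_lit 11) (.e true (nat_lit 2) (nat_lit 157) (nat_lit 2) (nat_lit 11) (.e true (nat_lit 2) (nat_lit 137) (nat_lit 2) (nat_lit 11) (.e false (nat_lit 1) (nat_lit 142) (nat_lit 2) (nat_lit 11) (.e true (nat_lit 1) (nat_lit 173) (nat_lit 1) (nat_lit 12) (.u (nat_lit 2) (.n (nat_lit 1) (nat_lit 1) (.n (nat_lit 2) (nat_lit 1) (.p (nat_lit 3) (nat_lit 2) (.p (nat_lit 4) (nat_lit 1) (.p (nat_lit 5) (nat_lit 1) (.p (nat_lit 10) (nat_lit 2) (.n (nat_lit 11) (nat_lit 1) (.n (nat_lit 14) (nat_lit 1) (.p (nat_lit 15) (nat_lit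 1) (.p (nat_lit 19) (nat_lit 1) (.p (nat_lit 21) (nat_lit 1) (.p (nat_lit 22) (nat_lit 1) (.n (nat_lit 24) (nat_lit 1) (.n (nat_lit 31) (nat_lit 1) (.p (nat_lit 33) (nat_lit 1) (.n (nat_lit 117) (nat_lit 1) (.p (nat_lit 124) (nat_lit 1) (.n (nat_lit 125) (nat_lit 1) (.p (nat_lit 128) (nat_lit 1) (.n (nat_lit 132) (nat_lit 1) (.p (nat_lit 134) (nat_lit 1) (.n (nat_lit 135) (nat_lit 1) (.n (nat_lit 136) (nat_lit 1) (.n (nat_lit 138) (nat_lit 1) (.p (nat_lit 141) (nat_lit 1) (.p (nat_lit 142) (nat_lit 1) .z)))))))))))))))))))))))))) .nil)))))))))))))))))))))))))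

noncomputable def dC2a_i19 : IL := (.s false (nat_lit 1) (nat_lit 38) (nat_lit 1) (nat_lit 1) (nat_lit 2) true (nat_lit 8) true (nat_lit 12) false (nat_lit 3) true (nat_lit 13) true (nat_lit 13) (.e false (nat_lit 1) (nat_lit 69) (nat_lit 6) (nat_lit 8) (.e false (nat_lit 1) (nat_lit 125) (nat_lit 2) (nat_lit 12) (.e true (nat_lit 3) (nat_lit 132) (nat_lit 1) (nat_lit 13) (.e true (nat_lit 3) (nat_lit 133) (nat_lit 1) (nat_lit 13) (.e false (nat_lit 1) (nat_lit 134) (nat_lit 1) (nat_lit 13) (.e false (nat_lit 3) (nat_lit 135) (nat_lit 1) (nat_lit 13) (.e false (nat_lit 3) (nat_lit 137) (nat_lit 1) (nat_lit 13) (.e false (nat_lit 1) (nat_lit 139) (nat_lit 1) (nat_lit 13) (.e true (nat_lit 1) (nat_lit 140) (nat_lit 1) (nat_lit 13) (.e true (nat_lit 1) (nat_lit 142) (nat_lit 1) (nat_lit 13) (.e true (nat_lit 1) (nat_lit 143) (nat_lit 1) (nat_lit 13) (.e true (nat_lit 1)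 (nat_lit 144) (nat_lit 1) (nat_lit 13) (.e true (nat_lit 2) (nat_lit 147) (nat_lit 1) (nat_lit 13) (.e false (nat_lit 2) (nat_lit 148) (nat_lit 1) (nat_lit 13) (.e false (nat_lit 1) (nat_lit 150) (nat_lit 1) (nat_lit 13) (.e false (nat_lit 1) (nat_lit 153) (nat_lit 1) (nat_lit 13) (.e true (nat_lit 1) (nat_lit 154) (nat_lit 1) (nat_lit 13) (.e true (nat_lit 1) (nat_lit 155) (nat_lit 1) (nat_lit 13) (.e true (nat_lit 1) (nat_lit 157) (nat_lit 1) (nat_lit 13) (.e false (nat_lit 3) (nat_lit 136) (nat_lit 1) (nat_lit 13) (.e true (nat_lit 2) (nat_lit 138) (nat_lit 1) (nat_lit 13) (.e true (nat_lit 2) (nat_lit 149) (nat_lit 1) (nat_lit 13) (.e false (nat_lit 3) (nat_lit 152) (nat_lit 1) (nat_lit 13) (.u (nat_lit 2) (.p (nat_lit 1) (nat_lit 3) (.n (nat_lit 3) (nat_lit 3) (.n (nat_lit 4) (nat_lit 1) (.n (nat_lit 5) (nat_lit 1) (.p (nat_lit 6) (nat_lit 1) (.n (nat_lit 7) (nat_lit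 1) (.n (nat_lit 8) (nat_lit 1) (.p (nat_lit 9) (nat_lit 1) (.n (nat_lit 10) (nat_lit 2) (.p (nat_lit 11) (nat_lit 1) (.p (nat_lit 13) (nat_lit 1) (.p (nat_lit 14) (nat_lit 1) (.n (nat_lit 20) (nat_lit 1) (.p (nat_lit 23) (nat_lit 2) (.p (nat_lit 27) (nat_lit 1) (.p (nat_lit 29) (nat_lit 1) (.p (nat_lit 39) (nat_lit 1) (.p (nat_lit 40) (nat_lit 2) (.n (nat_lit 41) (nat_lit 1) (.n (nat_lit 42) (nat_lit 1) (.n (nat_lit 43) (nat_lit 1) (.n (nat_lit 46) (nat_lit 2) (.p (nat_lit 172) (nat_lit 1) (.p (nat_lit 187) (nat_lit 1) .z)))))))))))))))))))))))) .nil)))))))))))))))))))))))))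

noncomputable def dC2a_i20 : IL := (.e true (nat_lit 2) (nat_lit 143) (nat_lit 1) (nat_lit 13) (.e true (nat_lit 2) (nat_lit 147) (nat_lit 1) (nat_lit 13) (.e false (nat_lit 2) (nat_lit 149) (nat_lit 1) (nat_lit 13) (.e true (nat_lit 2) (nat_lit 150) (nat_lit 1) (nat_lit 13) (.e true (nat_lit 2) (nat_lit 151) (nat_lit 1) (nat_lit 13) (.e true (nat_lit 2) (nat_lit 152) (nat_lit 1) (nat_lit 13) (.e true (nat_lit 1) (nat_lit 154) (nat_lit 1) (nat_lit 13) (.e true (nat_lit 2) (nat_lit 155) (nat_lit 1) (nat_lit 13) (.e false (nat_lit 2) (nat_lit 156) (nat_lit 1) (nat_lit 13) (.e false (nat_lit 1) (nat_lit 157) (nat_lit 1) (nat_lit 13) (.e true (nat_lit 3) (nat_lit 132) (nat_lit 1) (nat_lit 13) (.e true (nat_lit 2) (nat_lit 136) (nat_lit 1) (nat_lit 13) (.e false (nat_lit 2) (nat_lit 138) (nat_lit 1) (nat_lit 13) (.e true (nat_lit 2) (nat_lit 153) (nat_lit 1) (nat_lit 13)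 (.e true (nat_lit 1) (nat_lit 148) (nat_lit 1) (nat_lit 13) (.e false (nat_lit 3) (nat_lit 139) (nat_lit 1) (nat_lit 13) (.e true (nat_lit 3) (nat_lit 140) (nat_lit 1) (nat_lit 13) (.e true (nat_lit 1) (nat_lit 28) (nat_lit 18) (nat_lit 1) (.e true (nat_lit 1) (nat_lit 61) (nat_lit 6) (nat_lit 8) (.e false (nat_lit 1) (nat_lit 63) (nat_lit 6) (nat_lit 8) (.e true (nat_lit 1) (nat_lit 65) (nat_lit 6) (nat_lit 8) (.e true (nat_lit 1) (nat_lit 66) (nat_lit 6) (nat_lit 8) (.e false (nat_lit 1) (nat_lit 72) (nat_lit 6) (nat_lit 8) (.e true (nat_lit 1) (nat_lit 168) (nat_lit 0) (nat_lit 14) (.u (nat_lit 2) (.n (nat_lit 0) (nat_lit 2) (.n (nat_lit 1) (nat_lit 3) (.p (nat_lit 3) (nat_lit 2) (.n (nat_lit 5) (nat_lit 1) (.n (nat_lit 6) (nat_lit 3) (.n (nat_lit 8) (nat_lit 1) (.p (nat_lit 9) (nat_lit 1) (.n (nat_lit 11) (nat_lit 2) (.n (nat_lit 12) (nat_lit 1) (.n (nat_lit 13)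 (nat_lit 1) (.p (nat_lit 15) (nat_lit 1) (.n (nat_lit 16) (nat_lit 2) (.n (nat_lit 17) (nat_lit 2) (.p (nat_lit 20) (nat_lit 2) (.p (nat_lit 21) (nat_lit 2) (.n (nat_lit 22) (nat_lit 1) (.n (nat_lit 26) (nat_lit 2) (.p (nat_lit 27) (nat_lit 4) (.p (nat_lit 29) (nat_lit 2) (.n (nat_lit 30) (nat_lit 1) (.n (nat_lit 34) (nat_lit 1) (.p (nat_lit 37) (nat_lit 1) (.n (nat_lit 38) (nat_lit 4) (.p (nat_lit 39) (nat_lit 3) (.p (nat_lit 40) (nat_lit 1) (.p (nat_lit 41) (nat_lit 1) (.p (nat_lit 42) (nat_lit 3) (.p (nat_lit 43) (nat_lit 2) (.p (nat_lit 44) (nat_lit 2) (.p (nat_lit 45) (nat_lit 1) (.p (nat_lit 46) (nat_lit 2) (.p (nat_lit 172) (nat_lit 1) (.n (nat_lit 173) (nat_lit 1) (.p (nat_lit 174) (nat_lit 1) (.p (nat_lit 176) (nat_lit 1) (.p (nat_lit 181) (nat_lit 1) (.n (nat_lit 184) (nat_lit 1) (.n (nat_lit 189) (nat_lit 1) (.n (nat_lit 190) (nat_lit 1) (.p (nat_lit 192)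 (nat_lit 1) (.p (nat_lit 193) (nat_lit 1) (.n (nat_lit 195) (nat_lit 1) (.p (nat_lit 196) (nat_lit 1) (.n (nat_lit 197) (nat_lit 1) .z)))))))))))))))))))))))))))))))))))))))))))) .nil)))))))))))))))))))))))))

noncomputable def dC2a_i21 : IL := (.e false (nat_lit 1) (nat_lit 85) (nat_lit 6) (nat_lit 7) (.e false (nat_lit 1) (nat_lit 174) (nat_lit 1) (nat_lit 12) (.e false (nat_lit 2) (nat_lit 132) (nat_lit 2) (nat_lit 11) (.e true (nat_lit 1) (nat_lit 133) (nat_lit 2) (nat_lit 11) (.e false (nat_lit 2) (nat_lit 134) (nat_lit 2) (nat_lit 11) (.e false (nat_lit 1) (nat_lit 135) (nat_lit 2) (nat_lit 11) (.e false (nat_lit 3) (nat_lit 137) (nat_lit 2) (nat_lit 11) (.e true (nat_lit 2) (nat_lit 139) (nat_lit 2) (nat_lit 11) (.e false (nat_lit 2) (nat_lit 140) (nat_lit 2) (nat_lit 11) (.e false (nat_lit 3) (nat_lit 141) (nat_lit 2) (nat_lit 11) (.e true (nat_lit 1) (nat_lit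 142) (nat_lit 2) (nat_lit 11) (.e true (nat_lit 2) (nat_lit 143) (nat_lit 2) (nat_lit 11) (.e true (nat_lit 2) (nat_lit 144) (nat_lit 2) (nat_lit 11) (.e false (nat_lit 2) (nat_lit 145) (nat_lit 2) (nat_lit 11) (.e false (nat_lit 1) (nat_lit 146) (nat_lit 2) (nat_lit 11) (.e false (nat_lit 2) (nat_lit 147) (nat_lit 2) (nat_lit 11) (.e false (nat_lit 1) (nat_lit 148) (nat_lit 2) (nat_lit 11) (.e true (nat_lit 1) (nat_lit 150) (nat_lit 2) (nat_lit 11) (.e true (nat_lit 2) (nat_lit 151) (nat_lit 2) (nat_lit 11) (.e true (nat_lit 1) (nat_lit 153) (nat_lit 2) (nat_lit 11) (.e true (nat_lit 3) (nat_lit 154) (nat_lit 2) (nat_lit 11) (.e true (nat_lit 2) (nat_lit 155) (nat_lit 2) (nat_lit 11) (.e false (nat_lit 2) (nat_lit 156) (nat_lit 2) (nat_lit 11) (.e false (nat_lit 1) (nat_lit 157) (nat_lit 2) (nat_lit 11) (.u (nat_lit 2) (.p (nat_lit 4) (nat_lit 1) (.n (nat_lit 12) (nat_lit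 1) (.p (nat_lit 15) (nat_lit 1) (.p (nat_lit 20) (nat_lit 1) (.n (nat_lit 22) (nat_lit 1) (.n (nat_lit 23) (nat_lit 1) (.n (nat_lit 126) (nat_lit 1) .z))))))) .nil)))))))))))))))))))))))))

noncomputable def dC2a_i22 : IL := (.e true (nat_lit 1) (nat_lit 56) (nat_lit 7) (nat_lit 7) (.e true (nat_lit 1) (nat_lit 59) (nat_lit 7) (nat_lit 7) (.e false (nat_lit 3) (nat_lit 106) (nat_lit 2) (nat_lit 12) (.e false (nat_lit 2) (nat_lit 107) (nat_lit 2) (nat_lit 12) (.e false (nat_lit 1) (nat_lit 108) (nat_lit 2) (nat_lit 12) (.e true (nat_lit 3) (nat_lit 110) (nat_lit 2) (nat_lit 12) (.e false (nat_lit 2) (nat_lit 113) (nat_lit 2) (nat_lit 12) (.e true (nat_lit 1) (nat_lit 115) (nat_lit 2) (nat_lit 12) (.e false (nat_lit 2) (nat_lit 116) (nat_lit 2) (nat_lit 12) (.e false (nat_lit 3) (nat_lit 117) (nat_lit 2) (nat_lit 12) (.e true (nat_lit 3) (nat_lit 119) (nat_lit 2) (nat_lit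 12) (.e true (nat_lit 1) (nat_lit 120) (nat_lit 2) (nat_lit 12) (.e true (nat_lit 3) (nat_lit 123) (nat_lit 2) (nat_lit 12) (.e true (nat_lit 2) (nat_lit 126) (nat_lit 2) (nat_lit 12) (.e false (nat_lit 3) (nat_lit 127) (nat_lit 2) (nat_lit 12) (.e false (nat_lit 2) (nat_lit 128) (nat_lit 2) (nat_lit 12) (.e false (nat_lit 1) (nat_lit 130) (nat_lit 2) (nat_lit 12) (.e false (nat_lit 1) (nat_lit 131) (nat_lit 2) (nat_lit 12) (.e true (nat_lit 1) (nat_lit 109) (nat_lit 2) (nat_lit 12) (.e true (nat_lit 1) (nat_lit 111) (nat_lit 2) (nat_lit 12) (.e false (nat_lit 3) (nat_lit 112) (nat_lit 2) (nat_lit 12) (.e true (nat_lit 2) (nat_lit 114) (nat_lit 2) (nat_lit 12) (.e false (nat_lit 1) (nat_lit 122) (nat_lit 2) (nat_lit 12) (.e false (nat_lit 1) (nat_lit 81) (nat_lit 4) (nat_lit 10) (.u (nat_lit 2) (.p (nat_lit 1) (nat_lit 1) (.n (nat_lit 3) (nat_lit 1) (.p (nat_lit 5) (nat_lit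 1) (.p (nat_lit 6) (nat_lit 1) (.p (nat_lit 8) (nat_lit 1) (.n (nat_lit 13) (nat_lit 1) (.p (nat_lit 22) (nat_lit 1) (.p (nat_lit 25) (nat_lit 1) (.n (nat_lit 42) (nat_lit 1) (.p (nat_lit 43) (nat_lit 1) (.n (nat_lit 44) (nat_lit 1) (.n (nat_lit 147) (nat_lit 1) (.n (nat_lit 157) (nat_lit 1) (.p (nat_lit 159) (nat_lit 1) .z)))))))))))))) .nil)))))))))))))))))))))))))

noncomputable def dC2a_i23 : IL := (.e false (nat_lit 2) (nat_lit 149) (nat_lit 1) (nat_lit 13) (.e true (nat_lit 2) (nat_lit 151) (nat_lit 1) (nat_lit 13) (.e true (nat_lit 2) (nat_lit 152) (nat_lit 1) (nat_lit 13) (.e true (nat_lit 2) (nat_lit 153) (nat_lit 1) (nat_lit 13) (.e true (nat_lit 2) (nat_lit 154) (nat_lit 1) (nat_lit 13) (.e false (nat_lit 1) (nat_lit 155) (nat_lit 1) (nat_lit 13) (.e false (nat_lit 2) (nat_lit 157) (nat_lit 1) (nat_lit 13) (.e true (nat_lit 3) (nat_lit 106) (nat_lit 2) (nat_lit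 12) (.e false (nat_lit 2) (nat_lit 109) (nat_lit 2) (nat_lit 12) (.e true (nat_lit 1) (nat_lit 110) (nat_lit 2) (nat_lit 12) (.e false (nat_lit 1) (nat_lit 112) (nat_lit 2) (nat_lit 12) (.e true (nat_lit 1) (nat_lit 114) (nat_lit 2) (nat_lit 12) (.e true (nat_lit 1) (nat_lit 116) (nat_lit 2) (nat_lit 12) (.e true (nat_lit 2) (nat_lit 117) (nat_lit 2) (nat_lit 12) (.e false (nat_lit 2) (nat_lit 118) (nat_lit 2) (nat_lit 12) (.e false (nat_lit 2) (nat_lit 119) (nat_lit 2) (nat_lit 12) (.e true (nat_lit 3) (nat_lit 120) (nat_lit 2) (nat_lit 12) (.e true (nat_lit 1) (nat_lit 121) (nat_lit 2) (nat_lit 12) (.e true (nat_lit 3) (nat_lit 122) (nat_lit 2) (nat_lit 12) (.e false (nat_lit 3) (nat_lit 123) (nat_lit 2) (nat_lit 12) (.e true (nat_lit 2) (nat_lit 125) (nat_lit 2) (nat_lit 12) (.e true (nat_lit 1) (nat_lit 127) (nat_lit 2) (nat_lit 12) (.e false (nat_lit 1) (nat_lit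 129) (nat_lit 2) (nat_lit 12) (.e false (nat_lit 1) (nat_lit 130) (nat_lit 2) (nat_lit 12) (.u (nat_lit 2) (.n (nat_lit 0) (nat_lit 2) (.p (nat_lit 2) (nat_lit 2) (.p (nat_lit 4) (nat_lit 1) (.n (nat_lit 5) (nat_lit 2) (.p (nat_lit 6) (nat_lit 1) (.p (nat_lit 7) (nat_lit 3) (.n (nat_lit 8) (nat_lit 1) (.n (nat_lit 9) (nat_lit 2) (.n (nat_lit 11) (nat_lit 2) (.p (nat_lit 13) (nat_lit 2) (.p (nat_lit 14) (nat_lit 1) (.p (nat_lit 15) (nat_lit 1) (.n (nat_lit 16) (nat_lit 4) (.p (nat_lit 17) (nat_lit 2) (.p (nat_lit 20) (nat_lit 1) (.n (nat_lit 21) (nat_lit 2) (.p (nat_lit 22) (nat_lit 1) (.p (nat_lit 23) (nat_lit 1) (.n (nat_lit 24) (nat_lit 1) (.n (nat_lit 25) (nat_lit 1) (.n (nat_lit 30) (nat_lit 1) (.n (nat_lit 37) (nat_lit 1) (.n (nat_lit 38) (nat_lit 1) (.n (nat_lit 40) (nat_lit 2) (.p (nat_lit 43) (nat_lit 3) (.n (nat_lit 44) (nat_lit 1) (.n (nat_lit 45) (nat_lit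 1) (.p (nat_lit 46) (nat_lit 3) .z)))))))))))))))))))))))))))) .nil)))))))))))))))))))))))))

noncomputable def dC2a_i24 : IL := (.e true (nat_lit 1) (nat_lit 73) (nat_lit 7) (nat_lit 6) (.e true (nat_lit 1) (nat_lit 132) (nat_lit 2) (nat_lit 11) (.e false (nat_lit 3) (nat_lit 133) (nat_lit 2) (nat_lit 11) (.e false (nat_lit 2) (nat_lit 134) (nat_lit 2) (nat_lit 11) (.e false (nat_lit 1) (nat_lit 135) (nat_lit 2) (nat_lit 11) (.e true (nat_lit 1) (nat_lit 136) (nat_lit 2) (nat_lit 11) (.e false (nat_lit 2) (nat_lit 137) (nat_lit 2) (nat_lit 11) (.e false (nat_lit 2) (nat_lit 138) (nat_lit 2) (nat_lit 11) (.e false (nat_lit 1) (nat_lit 139) (nat_lit 2) (nat_lit 11) (.e true (nat_lit 1) (nat_lit 140) (nat_lit 2) (nat_lit 11) (.e false (nat_lit 2) (nat_lit 141) (nat_lit 2) (nat_lit 11) (.e false (nat_lit 3) (nat_lit 145) (nat_lit 2) (nat_lit 11) (.e false (nat_lit 2) (nat_lit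 147) (nat_lit 2) (nat_lit 11) (.e false (nat_lit 3) (nat_lit 149) (nat_lit 2) (nat_lit 11) (.e true (nat_lit 1) (nat_lit 150) (nat_lit 2) (nat_lit 11) (.e true (nat_lit 3) (nat_lit 151) (nat_lit 2) (nat_lit 11) (.e true (nat_lit 1) (nat_lit 152) (nat_lit 2) (nat_lit 11) (.e true (nat_lit 3) (nat_lit 153) (nat_lit 2) (nat_lit 11) (.e false (nat_lit 2) (nat_lit 154) (nat_lit 2) (nat_lit 11) (.e true (nat_lit 1) (nat_lit 155) (nat_lit 2) (nat_lit 11) (.e false (nat_lit 3) (nat_lit 156) (nat_lit 2) (nat_lit 11) (.e false (nat_lit 3) (nat_lit 157) (nat_lit 2) (nat_lit 11) (.e false (nat_lit 1) (nat_lit 144) (nat_lit 2) (nat_lit 11) (.e false (nat_lit 1) (nat_lit 97) (nat_lit 4) (nat_lit 9) (.u (nat_lit 2) (.p (nat_lit 1) (nat_lit 1) (.p (nat_lit 2) (nat_lit 2) (.n (nat_lit 3) (nat_lit 2) (.n (nat_lit 4) (nat_lit 1) (.n (nat_lit 5) (nat_lit 1) (.n (nat_lit 6) (nat_lit 1) (.n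 (nat_lit 7) (nat_lit 1) (.p (nat_lit 8) (nat_lit 1) (.n (nat_lit 10) (nat_lit 1) (.p (nat_lit 11) (nat_lit 1) (.n (nat_lit 12) (nat_lit 1) (.p (nat_lit 13) (nat_lit 1) (.p (nat_lit 14) (nat_lit 1) (.p (nat_lit 17) (nat_lit 1) (.n (nat_lit 19) (nat_lit 2) (.n (nat_lit 21) (nat_lit 2) (.n (nat_lit 22) (nat_lit 1) (.p (nat_lit 24) (nat_lit 2) (.p (nat_lit 25) (nat_lit 2) (.p (nat_lit 31) (nat_lit 1) (.n (nat_lit 33) (nat_lit 1) (.p (nat_lit 117) (nat_lit 1) (.n (nat_lit 118) (nat_lit 1) (.n (nat_lit 123) (nat_lit 1) (.n (nat_lit 134) (nat_lit 1) (.p (nat_lit 136) (nat_lit 1) (.p (nat_lit 137) (nat_lit 1) (.p (nat_lit 138) (nat_lit 1) (.n (nat_lit 142) (nat_lit 1) .z))))))))))))))))))))))))))))) .nil)))))))))))))))))))))))))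

noncomputable def dC2a_c37 : Cm := .mk (nat_lit 813) (nat_lit 37) (nat_lit 324) (nat_lit 11) (.c (nat_lit 39) (nat_lit 3) (nat_lit 20) (nat_lit 1) (nat_lit 11) (.c (nat_lit 45) (nat_lit 3) (nat_lit 18) (nat_lit 2) (nat_lit 14) (.c (nat_lit 48) (nat_lit 1) (nat_lit 14) (nat_lit 2) (nat_lit 20) (.c (nat_lit 91) (nat_lit 6) (nat_lit 7) (nat_lit 1) (nat_lit 22) (.c (nat_lit 101) (nat_lit 4) (nat_lit 6) (nat_lit 1) (nat_lit 28) (.c (nat_lit 105) (nat_lit 1) (nat_lit 4) (nat_lit 1) (nat_lit 32) (.c (nat_lit 185) (nat_lit 10) (nat_lit 2) (nat_lit 1) (nat_lit 33) (.c (nat_lit 200) (nat_lit 5) (nat_lit 1) (nat_lit 1) (nat_lit 43) .nil))))))))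

noncomputable def dC2a_i25 : IL := (.e true (nat_lit 1) (nat_lit 254) (nat_lit 1) (nat_lit 17) (.e false (nat_lit 3) (nat_lit 258) (nat_lit 1) (nat_lit 17) (.e true (nat_lit 1) (nat_lit 265) (nat_lit 1) (nat_lit 17) (.e true (nat_lit 3) (nat_lit 266) (nat_lit 1) (nat_lit 17) (.e false (nat_lit 1) (nat_lit 269) (nat_lit 1) (nat_lit 17) (.e false (nat_lit 1) (nat_lit 274) (nat_lit 1) (nat_lit 17) (.e false (nat_lit 1) (nat_lit 278) (nat_lit 1) (nat_lit 17) (.e false (nat_lit 1) (nat_lit 287) (nat_lit 1) (nat_lit 17) (.e false (nat_lit 1) (nat_lit 40) (nat_lit 33) (nat_lit 0) (.e false (nat_lit 1) (nat_lit 41) (nat_lit 33) (nat_lit 0) (.e false (nat_lit 1) (nat_lit 106) (nat_lit 7) (nat_lit 11) (.e true (nat_lit 2) (nat_lit 109) (nat_lit 7) (nat_lit 11) (.e false (nat_lit 1) (nat_lit 110) (nat_lit 7) (nat_lit 11) (.e true (nat_lit 1) (nat_lit 112) (nat_lit 7) (nat_lit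 11) (.e false (nat_lit 1) (nat_lit 114) (nat_lit 7) (nat_lit 11) (.e false (nat_lit 1) (nat_lit 116) (nat_lit 7) (nat_lit 11) (.e false (nat_lit 1) (nat_lit 117) (nat_lit 7) (nat_lit 11) (.e true (nat_lit 1) (nat_lit 118) (nat_lit 7) (nat_lit 11) (.e false (nat_lit 1) (nat_lit 119) (nat_lit 7) (nat_lit 11) (.e false (nat_lit 1) (nat_lit 120) (nat_lit 7) (nat_lit 11) (.e true (nat_lit 1) (nat_lit 122) (nat_lit 7) (nat_lit 11) (.e true (nat_lit 1) (nat_lit 123) (nat_lit 7) (nat_lit 11) (.e true (nat_lit 1) (nat_lit 127) (nat_lit 7) (nat_lit 11) (.e true (nat_lit 1) (nat_lit 128) (nat_lit 7) (nat_lit 11) (.u (nat_lit 2) (.p (nat_lit 0) (nat_lit 2) (.n (nat_lit 1) (nat_lit 2) (.n (nat_lit 2) (nat_lit 1) (.p (nat_lit 6) (nat_lit 2) (.p (nat_lit 7) (nat_lit 1) (.p (nat_lit 8) (nat_lit 1) (.n (nat_lit 9) (nat_lit 2) (.n (nat_lit 12) (nat_lit 2) (.p (nat_lit 15) (nat_lit 1)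 (.p (nat_lit 16) (nat_lit 1) (.p (nat_lit 19) (nat_lit 2) (.p (nat_lit 20) (nat_lit 2) (.p (nat_lit 21) (nat_lit 1) (.n (nat_lit 22) (nat_lit 1) (.p (nat_lit 25) (nat_lit 3) (.p (nat_lit 27) (nat_lit 2) (.n (nat_lit 28) (nat_lit 3) (.n (nat_lit 29) (nat_lit 1) (.p (nat_lit 34) (nat_lit 1) (.p (nat_lit 35) (nat_lit 1) (.p (nat_lit 36) (nat_lit 2) (.p (nat_lit 42) (nat_lit 1) (.p (nat_lit 45) (nat_lit 1) (.p (nat_lit 46) (nat_lit 2) (.p (nat_lit 47) (nat_lit 3) (.p (nat_lit 48) (nat_lit 1) (.p (nat_lit 351) (nat_lit 1) (.p (nat_lit 363) (nat_lit 1) (.n (nat_lit 371) (nat_lit 1) .z))))))))))))))))))))))))))))) .nil)))))))))))))))))))))))))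

noncomputable def dC2a_c308 : Cm := .mk (nat_lit 850) (nat_lit 308) (nat_lit 335) (nat_lit 62) (.c (nat_lit 39) (nat_lit 3) (nat_lit 33) (nat_lit 6) (nat_lit 62) (.c (nat_lit 42) (nat_lit 3) (nat_lit 30) (nat_lit 3) (nat_lit 80) (.c (nat_lit 45) (nat_lit 3) (nat_lit 24) (nat_lit 6) (nat_lit 89) (.c (nat_lit 48) (nat_lit 1) (nat_lit 21) (nat_lit 3) (nat_lit 107) (.c (nat_lit 49) (nat_lit 11) (nat_lit 20) (nat_lit 1) (nat_lit 110) (.c (nat_lit 60) (nat_lit 14) (nat_lit 18) (nat_lit 2) (nat_lit 121) (.c (nat_lit 74) (nat_lit 6) (nat_lit 16) (nat_lit 2) (nat_lit 149) (.c (nat_lit 80) (nat_lit 11) (nat_lit 14) (nat_lit 2) (nat_lit 161) (.c (nat_lit 91) (nat_lit 6) (nat_lit 11) (nat_lit 3) (nat_lit 183) (.c (nat_lit 97) (nat_lit 4) (nat_lit 10) (nat_lit 1) (nat_lit 201) (.c (nat_lit 101) (nat_lit 4) (nat_lit 8) (nat_lit 2) (nat_lit 205) (.c (nat_lit 106) (nat_lit 26) (nat_lit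 7) (nat_lit 1) (nat_lit 213) (.c (nat_lit 132) (nat_lit 26) (nat_lit 6) (nat_lit 1) (nat_lit 239) (.c (nat_lit 158) (nat_lit 11) (nat_lit 5) (nat_lit 1) (nat_lit 265) (.c (nat_lit 169) (nat_lit 16) (nat_lit 4) (nat_lit 1) (nat_lit 276) (.c (nat_lit 185) (nat_lit 10) (nat_lit 3) (nat_lit 1) (nat_lit 292) (.c (nat_lit 205) (nat_lit 47) (nat_lit 2) (nat_lit 1) (nat_lit 302) (.c (nat_lit 252) (nat_lit 37) (nat_lit 1) (nat_lit 1) (nat_lit 349) (.c (nat_lit 289) (nat_lit 16) (nat_lit 0) (nat_lit 1) (nat_lit 386) .nil)))))))))))))))))))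

noncomputable def dC2a_i26 : IL := (.s true (nat_lit 1) (nat_lit 34) (nat_lit 1) (nat_lit 7) (nat_lit 1) true (nat_lit 14) true (nat_lit 17) true (nat_lit 0) true (nat_lit 17) true (nat_lit 11) (.e false (nat_lit 1) (nat_lit 182) (nat_lit 4) (nat_lit 14) (.e true (nat_lit 1) (nat_lit 252) (nat_lit 1) (nat_lit 17) (.e true (nat_lit 3) (nat_lit 254) (nat_lit 1) (nat_lit 17) (.e false (nat_lit 1) (nat_lit 255) (nat_lit 1) (nat_lit 17) (.e true (nat_lit 3) (nat_lit 256) (nat_lit 1) (nat_lit 17) (.e true (nat_lit 3) (nat_lit 258) (nat_lit 1) (nat_lit 17) (.e true (nat_lit 3) (nat_lit 259) (nat_lit 1) (nat_lit 17) (.e false (nat_lit 3) (nat_lit 260) (nat_lit 1) (nat_lit 17) (.e true (nat_lit 3) (nat_lit 261) (nat_lit 1) (nat_lit 17) (.e true (nat_lit 3) (nat_lit 263) (nat_lit 1) (nat_lit 17) (.e true (nat_lit 3) (nat_lit 264) (nat_lit 1) (nat_lit 17) (.e false (nat_lit 3)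 (nat_lit 265) (nat_lit 1) (nat_lit 17) (.e false (nat_lit 3) (nat_lit 267) (nat_lit 1) (nat_lit 17) (.e true (nat_lit 1) (nat_lit 270) (nat_lit 1) (nat_lit 17) (.e false (nat_lit 2) (nat_lit 272) (nat_lit 1) (nat_lit 17) (.e true (nat_lit 2) (nat_lit 274) (nat_lit 1) (nat_lit 17) (.e false (nat_lit 2) (nat_lit 275) (nat_lit 1) (nat_lit 17) (.e true (nat_lit 1) (nat_lit 286) (nat_lit 1) (nat_lit 17) (.e false (nat_lit 1) (nat_lit 40) (nat_lit 34) (nat_lit 0) (.e false (nat_lit 1) (nat_lit 41) (nat_lit 34) (nat_lit 0) (.e true (nat_lit 1) (nat_lit 279) (nat_lit 1) (nat_lit 17) (.e true (nat_lit 1) (nat_lit 288) (nat_lit 1) (nat_lit 17) (.e true (nat_lit 1) (nat_lit 124) (nat_lit 7) (nat_lit 11) (.u (nat_lit 2) (.p (nat_lit 0) (nat_lit 1) (.n (nat_lit 2) (nat_lit 1) (.n (nat_lit 4) (nat_lit 1) (.n (nat_lit 5) (nat_lit 1) (.p (nat_lit 6) (nat_lit 1) (.n (nat_lit 10) (nat_lit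 1) (.n (nat_lit 11) (nat_lit 1) (.p (nat_lit 12) (nat_lit 1) (.n (nat_lit 16) (nat_lit 2) (.n (nat_lit 18) (nat_lit 1) (.n (nat_lit 20) (nat_lit 1) (.n (nat_lit 23) (nat_lit 1) (.n (nat_lit 25) (nat_lit 1) (.n (nat_lit 31) (nat_lit 1) (.n (nat_lit 32) (nat_lit 1) (.n (nat_lit 36) (nat_lit 2) (.p (nat_lit 37) (nat_lit 1) (.p (nat_lit 39) (nat_lit 1) (.n (nat_lit 41) (nat_lit 1) (.n (nat_lit 45) (nat_lit 1) (.n (nat_lit 47) (nat_lit 1) (.n (nat_lit 48) (nat_lit 2) (.p (nat_lit 355) (nat_lit 1) (.p (nat_lit 356) (nat_lit 1) (.n (nat_lit 357) (nat_lit 1) (.n (nat_lit 364) (nat_lit 1) .z)))))))))))))))))))))))))) .nil)))))))))))))))))))))))))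

noncomputable def dC2a_i27 : IL := (.e true (nat_lit 2) (nat_lit 215) (nat_lit 2) (nat_lit 16) (.e false (nat_lit 2) (nat_lit 217) (nat_lit 2) (nat_lit 16) (.e false (nat_lit 3) (nat_lit 218) (nat_lit 2) (nat_lit 16) (.e true (nat_lit 2) (nat_lit 219) (nat_lit 2) (nat_lit 16) (.e true (nat_lit 2) (nat_lit 220) (nat_lit 2) (nat_lit 16) (.e true (nat_lit 3) (nat_lit 221) (nat_lit 2) (nat_lit 16) (.e false (nat_lit 3) (nat_lit 229) (nat_lit 2) (nat_lit 16) (.e false (nat_lit 2) (nat_lit 231) (nat_lit 2) (nat_lit 16) (.e true (nat_lit 1) (nat_lit 232) (nat_lit 2) (nat_lit 16) (.e false (nat_lit 3) (nat_lit 242) (nat_lit 2) (nat_lit 16) (.e false (nat_lit 2) (nat_lit 243) (nat_lit 2) (nat_lit 16) (.e true (nat_lit 2) (nat_lit 245) (nat_lit 2) (nat_lit 16) (.e true (nat_lit 3) (nat_lit 246) (nat_lit 2) (nat_lit 16) (.e false (nat_lit 1) (nat_lit 248) (nat_lit 2) (nat_lit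 16) (.e false (nat_lit 1) (nat_lit 250) (nat_lit 2) (nat_lit 16) (.e false (nat_lit 1) (nat_lit 251) (nat_lit 2) (nat_lit 16) (.e false (nat_lit 3) (nat_lit 222) (nat_lit 2) (nat_lit 16) (.e false (nat_lit 2) (nat_lit 223) (nat_lit 2) (nat_lit 16) (.e true (nat_lit 1) (nat_lit 226) (nat_lit 2) (nat_lit 16) (.e false (nat_lit 1) (nat_lit 227) (nat_lit 2) (nat_lit 16) (.e true (nat_lit 2) (nat_lit 234) (nat_lit 2) (nat_lit 16) (.e false (nat_lit 1) (nat_lit 244) (nat_lit 2) (nat_lit 16) (.e true (nat_lit 2) (nat_lit 249) (nat_lit 2) (nat_lit 16) (.e false (nat_lit 1) (nat_lit 171) (nat_lit 4) (nat_lit 14) (.u (nat_lit 2) (.n (nat_lit 0) (nat_lit 3) (.p (nat_lit 1) (nat_lit 3) (.n (nat_lit 2) (nat_lit 4) (.n (nat_lit 3) (nat_lit 1) (.p (nat_lit 4) (nat_lit 1) (.p (nat_lit 5) (nat_lit 3) (.n (nat_lit 6) (nat_lit 4) (.n (nat_lit 7) (nat_lit 7) (.p (nat_lit 8) (nat_lit 4)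 (.p (nat_lit 9) (nat_lit 3) (.n (nat_lit 10) (nat_lit 5) (.n (nat_lit 11) (nat_lit 1) (.n (nat_lit 12) (nat_lit 3) (.p (nat_lit 14) (nat_lit 2) (.n (nat_lit 15) (nat_lit 4) (.n (nat_lit 16) (nat_lit 1) (.p (nat_lit 17) (nat_lit 6) (.p (nat_lit 18) (nat_lit 1) (.p (nat_lit 19) (nat_lit 2) (.p (nat_lit 20) (nat_lit 2) (.p (nat_lit 21) (nat_lit 1) (.n (nat_lit 22) (nat_lit 1) (.n (nat_lit 23) (nat_lit 3) (.n (nat_lit 24) (nat_lit 5) (.n (nat_lit 25) (nat_lit 5) (.p (nat_lit 26) (nat_lit 2) (.n (nat_lit 27) (nat_lit 3) (.p (nat_lit 28) (nat_lit 4) (.n (nat_lit 29) (nat_lit 1) (.p (nat_lit 31) (nat_lit 2) (.p (nat_lit 32) (nat_lit 2) (.n (nat_lit 33) (nat_lit 3) (.n (nat_lit 35) (nat_lit 3) (.n (nat_lit 36) (nat_lit 2) (.n (nat_lit 37) (nat_lit 2) (.p (nat_lit 38) (nat_lit 3) (.p (nat_lit 39) (nat_lit 2) (.p (nat_lit 40) (nat_lit 1) (.n (nat_lit 42) (nat_lit 2) (.p (nat_lit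 44) (nat_lit 1) (.n (nat_lit 45) (nat_lit 1) (.n (nat_lit 46) (nat_lit 2) (.n (nat_lit 47) (nat_lit 4) (.n (nat_lit 48) (nat_lit 1) (.n (nat_lit 52) (nat_lit 1) (.p (nat_lit 304) (nat_lit 1) (.n (nat_lit 306) (nat_lit 1) (.p (nat_lit 307) (nat_lit 1) (.n (nat_lit 326) (nat_lit 1) (.n (nat_lit 339) (nat_lit 1) (.n (nat_lit 345) (nat_lit 1) .z))))))))))))))))))))))))))))))))))))))))))))))))))) .nil)))))))))))))))))))))))))

noncomputable def dC2a_i28 : IL := (.e false (nat_lit 1) (nat_lit 112) (nat_lit 7) (nat_lit 11) (.e true (nat_lit 1) (nat_lit 113) (nat_lit 7) (nat_lit 11) (.e true (nat_lit 1) (nat_lit 114) (nat_lit 7) (nat_lit 11) (.e false (nat_lit 1) (nat_lit 115) (nat_lit 7) (nat_lit 11) (.e true (nat_lit 2) (nat_lit 116) (nat_lit 7) (nat_lit 11) (.e true (nat_lit 3) (nat_lit 117) (nat_lit 7) (nat_lit 11) (.e false (nat_lit 3) (nat_lit 118) (nat_lit 7) (nat_lit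 11) (.e true (nat_lit 2) (nat_lit 119) (nat_lit 7) (nat_lit 11) (.e true (nat_lit 2) (nat_lit 120) (nat_lit 7) (nat_lit 11) (.e true (nat_lit 1) (nat_lit 121) (nat_lit 7) (nat_lit 11) (.e false (nat_lit 3) (nat_lit 122) (nat_lit 7) (nat_lit 11) (.e false (nat_lit 2) (nat_lit 123) (nat_lit 7) (nat_lit 11) (.e true (nat_lit 2) (nat_lit 124) (nat_lit 7) (nat_lit 11) (.e false (nat_lit 2) (nat_lit 126) (nat_lit 7) (nat_lit 11) (.e false (nat_lit 3) (nat_lit 127) (nat_lit 7) (nat_lit 11) (.e true (nat_lit 1) (nat_lit 130) (nat_lit 7) (nat_lit 11) (.e true (nat_lit 2) (nat_lit 131) (nat_lit 7) (nat_lit 11) (.e false (nat_lit 2) (nat_lit 205) (nat_lit 2) (nat_lit 16) (.e true (nat_lit 3) (nat_lit 206) (nat_lit 2) (nat_lit 16) (.e true (nat_lit 1) (nat_lit 207) (nat_lit 2) (nat_lit 16) (.e false (nat_lit 3) (nat_lit 209) (nat_lit 2) (nat_lit 16) (.e true (nat_lit 1) (nat_lit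 210) (nat_lit 2) (nat_lit 16) (.e true (nat_lit 2) (nat_lit 212) (nat_lit 2) (nat_lit 16) (.e true (nat_lit 3) (nat_lit 213) (nat_lit 2) (nat_lit 16) (.e false (nat_lit 3) (nat_lit 214) (nat_lit 2) (nat_lit 16) dC2a_i27)))))))))))))))))))))))))

noncomputable def dC2a_i29 : IL := (.e true (nat_lit 1) (nat_lit 273) (nat_lit 1) (nat_lit 17) (.e false (nat_lit 3) (nat_lit 275) (nat_lit 1) (nat_lit 17) (.e true (nat_lit 1) (nat_lit 276) (nat_lit 1) (nat_lit 17) (.e true (nat_lit 3) (nat_lit 277) (nat_lit 1) (nat_lit 17) (.e false (nat_lit 2) (nat_lit 279) (nat_lit 1) (nat_lit 17) (.e false (nat_lit 1) (nat_lit 283) (nat_lit 1) (nat_lit 17) (.e true (nat_lit 3) (nat_lit 285) (nat_lit 1) (nat_lit 17) (.e false (nat_lit 2) (nat_lit 255) (nat_lit 1) (nat_lit 17) (.e false (nat_lit 3) (nat_lit 269) (nat_lit 1) (nat_lit 17) (.e false (nat_lit 1) (nat_lit 252) (nat_lit 1) (nat_lit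 17) (.e false (nat_lit 2) (nat_lit 254) (nat_lit 1) (nat_lit 17) (.e true (nat_lit 3) (nat_lit 257) (nat_lit 1) (nat_lit 17) (.e true (nat_lit 2) (nat_lit 263) (nat_lit 1) (nat_lit 17) (.e false (nat_lit 3) (nat_lit 280) (nat_lit 1) (nat_lit 17) (.e false (nat_lit 2) (nat_lit 286) (nat_lit 1) (nat_lit 17) (.e true (nat_lit 1) (nat_lit 258) (nat_lit 1) (nat_lit 17) (.e true (nat_lit 2) (nat_lit 288) (nat_lit 1) (nat_lit 17) (.e true (nat_lit 3) (nat_lit 265) (nat_lit 1) (nat_lit 17) (.e false (nat_lit 2) (nat_lit 253) (nat_lit 1) (nat_lit 17) (.e true (nat_lit 2) (nat_lit 256) (nat_lit 1) (nat_lit 17) (.e false (nat_lit 2) (nat_lit 278) (nat_lit 1) (nat_lit 17) (.e false (nat_lit 2) (nat_lit 287) (nat_lit 1) (nat_lit 17) (.e true (nat_lit 3) (nat_lit 274) (nat_lit 1) (nat_lit 17) (.u (nat_lit 2) (.p (nat_lit 0) (nat_lit 1) (.p (nat_lit 1) (nat_lit 3) (.n (nat_lit 2) (nat_lit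 2) (.p (nat_lit 3) (nat_lit 2) (.n (nat_lit 4) (nat_lit 4) (.n (nat_lit 5) (nat_lit 1) (.p (nat_lit 6) (nat_lit 1) (.p (nat_lit 8) (nat_lit 1) (.n (nat_lit 11) (nat_lit 2) (.p (nat_lit 12) (nat_lit 1) (.p (nat_lit 14) (nat_lit 1) (.p (nat_lit 15) (nat_lit 1) (.n (nat_lit 17) (nat_lit 1) (.n (nat_lit 18) (nat_lit 2) (.p (nat_lit 19) (nat_lit 2) (.n (nat_lit 20) (nat_lit 1) (.n (nat_lit 21) (nat_lit 2) (.p (nat_lit 22) (nat_lit 2) (.p (nat_lit 24) (nat_lit 3) (.n (nat_lit 25) (nat_lit 4) (.p (nat_lit 26) (nat_lit 1) (.n (nat_lit 27) (nat_lit 1) (.n (nat_lit 28) (nat_lit 1) (.p (nat_lit 31) (nat_lit 1) (.p (nat_lit 32) (nat_lit 2) (.n (nat_lit 33) (nat_lit 2) (.p (nat_lit 34) (nat_lit 3) (.n (nat_lit 36) (nat_lit 2) (.n (nat_lit 37) (nat_lit 1) (.p (nat_lit 38) (nat_lit 2) (.p (nat_lit 39) (nat_lit 1) (.p (nat_lit 40) (nat_lit 1) (.p (nat_lit 42) (nat_lit 1) (.n (nat_lit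 44) (nat_lit 1) (.p (nat_lit 45) (nat_lit 1) (.p (nat_lit 47) (nat_lit 2) (.n (nat_lit 48) (nat_lit 1) (.n (nat_lit 349) (nat_lit 2) (.n (nat_lit 351) (nat_lit 2) (.n (nat_lit 352) (nat_lit 2) (.n (nat_lit 354) (nat_lit 2) (.n (nat_lit 356) (nat_lit 3) (.p (nat_lit 357) (nat_lit 1) (.n (nat_lit 358) (nat_lit 2) (.n (nat_lit 359) (nat_lit 3) (.n (nat_lit 360) (nat_lit 2) (.n (nat_lit 361) (nat_lit 4) (.p (nat_lit 362) (nat_lit 2) (.n (nat_lit 363) (nat_lit 1) (.p (nat_lit 364) (nat_lit 2) (.p (nat_lit 365) (nat_lit 1) (.p (nat_lit 366) (nat_lit 2) (.n (nat_lit 368) (nat_lit 1) (.p (nat_lit 369) (nat_lit 2) (.n (nat_lit 370) (nat_lit 1) (.p (nat_lit 371) (nat_lit 1) (.n (nat_lit 374) (nat_lit 1) (.n (nat_lit 376) (nat_lit 3) (.n (nat_lit 377) (nat_lit 1) (.p (nat_lit 378) (nat_lit 1) .z)))))))))))))))))))))))))))))))))))))))))))))))))))))))))))) (.u (nat_lit 2) (.p (nat_lit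 382) (nat_lit 1) (.n (nat_lit 383) (nat_lit 1) (.p (nat_lit 385) (nat_lit 1) .z))) .nil)))))))))))))))))))))))))

noncomputable def dC2a_i30 : IL := (.e false (nat_lit 1) (nat_lit 65) (nat_lit 19) (nat_lit 5) (.e false (nat_lit 1) (nat_lit 66) (nat_lit 19) (nat_lit 5) (.e true (nat_lit 1) (nat_lit 72) (nat_lit 19) (nat_lit 5) (.e true (nat_lit 1) (nat_lit 289) (nat_lit 0) (nat_lit 18) (.e true (nat_lit 3) (nat_lit 290) (nat_lit 0) (nat_lit 18) (.e true (nat_lit 2) (nat_lit 291) (nat_lit 0) (nat_lit 18) (.e true (nat_lit 2) (nat_lit 292) (nat_lit 0) (nat_lit 18) (.e true (nat_lit 2) (nat_lit 293) (nat_lit 0) (nat_lit 18) (.e true (nat_lit 2) (nat_lit 294) (nat_lit 0) (nat_lit 18) (.e false (nat_lit 3) (nat_lit 295) (nat_lit 0) (nat_lit 18) (.e true (nat_lit 1) (nat_lit 296) (nat_lit 0) (nat_lit 18) (.e false (nat_lit 1) (nat_lit 297) (nat_lit 0) (nat_lit 18) (.e false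 (nat_lit 3) (nat_lit 298) (nat_lit 0) (nat_lit 18) (.e true (nat_lit 1) (nat_lit 299) (nat_lit 0) (nat_lit 18) (.e true (nat_lit 1) (nat_lit 300) (nat_lit 0) (nat_lit 18) (.e false (nat_lit 3) (nat_lit 301) (nat_lit 0) (nat_lit 18) (.e false (nat_lit 1) (nat_lit 304) (nat_lit 0) (nat_lit 18) (.e true (nat_lit 3) (nat_lit 259) (nat_lit 1) (nat_lit 17) (.e false (nat_lit 3) (nat_lit 260) (nat_lit 1) (nat_lit 17) (.e true (nat_lit 2) (nat_lit 261) (nat_lit 1) (nat_lit 17) (.e false (nat_lit 2) (nat_lit 262) (nat_lit 1) (nat_lit 17) (.e false (nat_lit 1) (nat_lit 264) (nat_lit 1) (nat_lit 17) (.e true (nat_lit 1) (nat_lit 267) (nat_lit 1) (nat_lit 17) (.e true (nat_lit 2) (nat_lit 270) (nat_lit 1) (nat_lit 17) (.e false (nat_lit 1) (nat_lit 271) (nat_lit 1) (nat_lit 17) dC2a_i29)))))))))))))))))))))))))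

noncomputable def dC2a_i31 : IL := (.s false (nat_lit 3) (nat_lit 16) (nat_lit 2) (nat_lit 2) (nat_lit 4) true (nat_lit 3) true (nat_lit 9) true (nat_lit 2) true (nat_lit 11) true (nat_lit 11) (.e true (nat_lit 3) (nat_lit 42) (nat_lit 14) (nat_lit 3) (.e false (nat_lit 3) (nat_lit 97) (nat_lit 4) (nat_lit 9) (.e false (nat_lit 1) (nat_lit 41) (nat_lit 16) (nat_lit 2) (.e true (nat_lit 2) (nat_lit 132) (nat_lit 2) (nat_lit 11) (.e true (nat_lit 1) (nat_lit 133) (nat_lit 2) (nat_lit 11) (.e true (nat_lit 3) (nat_lit 137) (nat_lit 2) (nat_lit 11) (.e false (nat_lit 1) (nat_lit 138) (nat_lit 2) (nat_lit 11) (.e false (nat_lit 2) (nat_lit 139) (nat_lit 2) (nat_lit 11) (.e true (nat_lit 2) (nat_lit 140) (nat_lit 2) (nat_lit 11) (.e true (nat_lit 2) (nat_lit 141) (nat_lit 2) (nat_lit 11) (.e true (nat_lit 1) (nat_lit 143) (nat_lit 2) (nat_lit 11) (.e true (nat_lit 2) (nat_lit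 144) (nat_lit 2) (nat_lit 11) (.e false (nat_lit 1) (nat_lit 145) (nat_lit 2) (nat_lit 11) (.e true (nat_lit 2) (nat_lit 147) (nat_lit 2) (nat_lit 11) (.e true (nat_lit 1) (nat_lit 149) (nat_lit 2) (nat_lit 11) (.e false (nat_lit 1) (nat_lit 150) (nat_lit 2) (nat_lit 11) (.e false (nat_lit 1) (nat_lit 151) (nat_lit 2) (nat_lit 11) (.e true (nat_lit 2) (nat_lit 152) (nat_lit 2) (nat_lit 11) (.e false (nat_lit 1) (nat_lit 153) (nat_lit 2) (nat_lit 11) (.e true (nat_lit 3) (nat_lit 154) (nat_lit 2) (nat_lit 11) (.e true (nat_lit 3) (nat_lit 155) (nat_lit 2) (nat_lit 11) (.e true (nat_lit 1) (nat_lit 157) (nat_lit 2) (nat_lit 11) (.e false (nat_lit 1) (nat_lit 135) (nat_lit 2) (nat_lit 11) (.u (nat_lit 2) (.p (nat_lit 0) (nat_lit 1) (.n (nat_lit 1) (nat_lit 2) (.p (nat_lit 2) (nat_lit 1) (.n (nat_lit 3) (nat_lit 1) (.p (nat_lit 4) (nat_lit 1) (.p (nat_lit 6) (nat_lit 1)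 (.n (nat_lit 7) (nat_lit 1) (.p (nat_lit 8) (nat_lit 1) (.p (nat_lit 9) (nat_lit 1) (.p (nat_lit 10) (nat_lit 1) (.n (nat_lit 11) (nat_lit 1) (.p (nat_lit 12) (nat_lit 1) (.p (nat_lit 13) (nat_lit 1) (.n (nat_lit 14) (nat_lit 2) (.n (nat_lit 15) (nat_lit 1) (.n (nat_lit 17) (nat_lit 1) (.n (nat_lit 18) (nat_lit 2) (.n (nat_lit 19) (nat_lit 2) (.n (nat_lit 21) (nat_lit 2) (.n (nat_lit 23) (nat_lit 3) (.p (nat_lit 24) (nat_lit 3) (.p (nat_lit 25) (nat_lit 2) (.n (nat_lit 27) (nat_lit 1) (.p (nat_lit 30) (nat_lit 2) (.n (nat_lit 31) (nat_lit 2) (.p (nat_lit 33) (nat_lit 2) (.n (nat_lit 34) (nat_lit 1) (.p (nat_lit 36) (nat_lit 1) (.p (nat_lit 56) (nat_lit 1) (.n (nat_lit 57) (nat_lit 1) (.n (nat_lit 117) (nat_lit 1) (.p (nat_lit 118) (nat_lit 1) (.n (nat_lit 120) (nat_lit 1) (.p (nat_lit 123) (nat_lit 2) (.p (nat_lit 124) (nat_lit 1) (.n (nat_lit 125) (nat_lit 1) (.n (nat_lit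 126) (nat_lit 1) (.n (nat_lit 128) (nat_lit 2) (.n (nat_lit 129) (nat_lit 1) (.n (nat_lit 130) (nat_lit 1) (.n (nat_lit 132) (nat_lit 1) (.p (nat_lit 134) (nat_lit 1) (.n (nat_lit 135) (nat_lit 1) (.n (nat_lit 136) (nat_lit 1) (.n (nat_lit 137) (nat_lit 1) (.n (nat_lit 138) (nat_lit 1) (.p (nat_lit 142) (nat_lit 1) .z))))))))))))))))))))))))))))))))))))))))))))))) .nil)))))))))))))))))))))))))

noncomputable def dC2a_i32 : IL := (.s true (nat_lit 3) (nat_lit 34) (nat_lit 1) (nat_lit 1) (nat_lit 7) true (nat_lit 5) true (nat_lit 11) true (nat_lit 0) true (nat_lit 17) true (nat_lit 17) (.e false (nat_lit 3) (nat_lit 67) (nat_lit 19) (nat_lit 5) (.e true (nat_lit 3) (nat_lit 124) (nat_lit 7) (nat_lit 11) (.e false (nat_lit 1) (nat_lit 41) (nat_lit 34) (nat_lit 0) (.e true (nat_lit 3) (nat_lit 253) (nat_lit 1) (nat_lit 17) (.e false (nat_lit 2) (nat_lit 255) (nat_lit 1)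 (nat_lit 17) (.e false (nat_lit 2) (nat_lit 258) (nat_lit 1) (nat_lit 17) (.e false (nat_lit 3) (nat_lit 259) (nat_lit 1) (nat_lit 17) (.e true (nat_lit 2) (nat_lit 260) (nat_lit 1) (nat_lit 17) (.e false (nat_lit 1) (nat_lit 264) (nat_lit 1) (nat_lit 17) (.e true (nat_lit 1) (nat_lit 267) (nat_lit 1) (nat_lit 17) (.e false (nat_lit 1) (nat_lit 270) (nat_lit 1) (nat_lit 17) (.e false (nat_lit 3) (nat_lit 275) (nat_lit 1) (nat_lit 17) (.e true (nat_lit 1) (nat_lit 279) (nat_lit 1) (nat_lit 17) (.e true (nat_lit 1) (nat_lit 288) (nat_lit 1) (nat_lit 17) (.e true (nat_lit 3) (nat_lit 252) (nat_lit 1) (nat_lit 17) (.e true (nat_lit 2) (nat_lit 254) (nat_lit 1) (nat_lit 17) (.e true (nat_lit 2) (nat_lit 256) (nat_lit 1) (nat_lit 17) (.e true (nat_lit 2) (nat_lit 261) (nat_lit 1) (nat_lit 17) (.e true (nat_lit 2) (nat_lit 263) (nat_lit 1) (nat_lit 17) (.e false (nat_lit 2)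 (nat_lit 265) (nat_lit 1) (nat_lit 17) (.e true (nat_lit 1) (nat_lit 272) (nat_lit 1) (nat_lit 17) (.e false (nat_lit 1) (nat_lit 274) (nat_lit 1) (nat_lit 17) (.e true (nat_lit 3) (nat_lit 286) (nat_lit 1) (nat_lit 17) (.u (nat_lit 2) (.n (nat_lit 1) (nat_lit 3) (.p (nat_lit 2) (nat_lit 1) (.n (nat_lit 4) (nat_lit 1) (.p (nat_lit 5) (nat_lit 1) (.p (nat_lit 7) (nat_lit 3) (.n (nat_lit 8) (nat_lit 1) (.p (nat_lit 9) (nat_lit 1) (.p (nat_lit 10) (nat_lit 2) (.n (nat_lit 11) (nat_lit 1) (.n (nat_lit 12) (nat_lit 1) (.n (nat_lit 14) (nat_lit 2) (.n (nat_lit 15) (nat_lit 2) (.n (nat_lit 16) (nat_lit 4) (.n (nat_lit 17) (nat_lit 1) (.p (nat_lit 19) (nat_lit 1) (.n (nat_lit 20) (nat_lit 1) (.p (nat_lit 21) (nat_lit 2) (.n (nat_lit 22) (nat_lit 1) (.n (nat_lit 23) (nat_lit 2) (.p (nat_lit 24) (nat_lit 2) (.p (nat_lit 26) (nat_lit 2) (.n (nat_lit 28) (nat_lit 1) (.n (nat_lit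 31) (nat_lit 1) (.n (nat_lit 32) (nat_lit 1) (.n (nat_lit 33) (nat_lit 1) (.n (nat_lit 34) (nat_lit 3) (.n (nat_lit 35) (nat_lit 1) (.n (nat_lit 36) (nat_lit 3) (.p (nat_lit 37) (nat_lit 3) (.p (nat_lit 38) (nat_lit 1) (.p (nat_lit 39) (nat_lit 1) (.n (nat_lit 45) (nat_lit 1) (.n (nat_lit 53) (nat_lit 2) (.p (nat_lit 66) (nat_lit 1) (.n (nat_lit 67) (nat_lit 1) (.n (nat_lit 351) (nat_lit 1) (.p (nat_lit 352) (nat_lit 1) (.n (nat_lit 353) (nat_lit 1) (.n (nat_lit 355) (nat_lit 2) (.n (nat_lit 356) (nat_lit 3) (.p (nat_lit 357) (nat_lit 2) (.n (nat_lit 358) (nat_lit 1) (.n (nat_lit 360) (nat_lit 1) (.n (nat_lit 361) (nat_lit 1) (.p (nat_lit 362) (nat_lit 1) (.p (nat_lit 364) (nat_lit 1) (.n (nat_lit 367) (nat_lit 1) (.p (nat_lit 369) (nat_lit 1) (.n (nat_lit 371) (nat_lit 1) (.p (nat_lit 376) (nat_lit 1) (.p (nat_lit 385) (nat_lit 1) .z)))))))))))))))))))))))))))))))))))))))))))))))))))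 .nil)))))))))))))))))))))))))

noncomputable def dC2a_i33 : IL := (.e true (nat_lit 1) (nat_lit 254) (nat_lit 1) (nat_lit 17) (.e false (nat_lit 3) (nat_lit 255) (nat_lit 1) (nat_lit 17) (.e true (nat_lit 2) (nat_lit 257) (nat_lit 1) (nat_lit 17) (.e false (nat_lit 2) (nat_lit 261) (nat_lit 1) (nat_lit 17) (.e false (nat_lit 2) (nat_lit 263) (nat_lit 1) (nat_lit 17) (.e true (nat_lit 1) (nat_lit 265) (nat_lit 1) (nat_lit 17) (.e false (nat_lit 1) (nat_lit 267) (nat_lit 1) (nat_lit 17) (.e true (nat_lit 1) (nat_lit 269) (nat_lit 1) (nat_lit 17) (.e true (nat_lit 2) (nat_lit 274) (nat_lit 1) (nat_lit 17) (.e true (nat_lit 2) (nat_lit 275) (nat_lit 1) (nat_lit 17) (.e true (nat_lit 1) (nat_lit 278) (nat_lit 1) (nat_lit 17) (.e true (nat_lit 1) (nat_lit 279) (nat_lit 1) (nat_lit 17) (.e false (nat_lit 3) (nat_lit 283) (nat_lit 1) (nat_lit 17) (.e false (nat_lit 3) (nat_lit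 284) (nat_lit 1) (nat_lit 17) (.e false (nat_lit 1) (nat_lit 285) (nat_lit 1) (nat_lit 17) (.e true (nat_lit 2) (nat_lit 286) (nat_lit 1) (nat_lit 17) (.e true (nat_lit 1) (nat_lit 287) (nat_lit 1) (nat_lit 17) (.e true (nat_lit 1) (nat_lit 288) (nat_lit 1) (nat_lit 17) (.e true (nat_lit 3) (nat_lit 253) (nat_lit 1) (nat_lit 17) (.e false (nat_lit 3) (nat_lit 258) (nat_lit 1) (nat_lit 17) (.e false (nat_lit 1) (nat_lit 260) (nat_lit 1) (nat_lit 17) (.e false (nat_lit 1) (nat_lit 272) (nat_lit 1) (nat_lit 17) (.e false (nat_lit 2) (nat_lit 277) (nat_lit 1) (nat_lit 17) (.u (nat_lit 2) (.n (nat_lit 0) (nat_lit 6) (.p (nat_lit 1) (nat_lit 1) (.p (nat_lit 2) (nat_lit 1) (.p (nat_lit 3) (nat_lit 2) (.p (nat_lit 4) (nat_lit 2) (.n (nat_lit 5) (nat_lit 2) (.p (nat_lit 6) (nat_lit 3) (.p (nat_lit 7) (nat_lit 2) (.p (nat_lit 9) (nat_lit 4) (.p (nat_lit 10) (nat_lit 3) (.n (nat_lit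 12) (nat_lit 2) (.n (nat_lit 14) (nat_lit 6) (.n (nat_lit 15) (nat_lit 2) (.n (nat_lit 17) (nat_lit 3) (.n (nat_lit 19) (nat_lit 3) (.n (nat_lit 20) (nat_lit 3) (.p (nat_lit 21) (nat_lit 3) (.n (nat_lit 22) (nat_lit 2) (.p (nat_lit 23) (nat_lit 1) (.p (nat_lit 24) (nat_lit 3) (.p (nat_lit 26) (nat_lit 1) (.p (nat_lit 27) (nat_lit 2) (.p (nat_lit 28) (nat_lit 2) (.n (nat_lit 31) (nat_lit 4) (.p (nat_lit 32) (nat_lit 2) (.n (nat_lit 33) (nat_lit 2) (.p (nat_lit 35) (nat_lit 1) (.n (nat_lit 36) (nat_lit 3) (.p (nat_lit 37) (nat_lit 2) (.p (nat_lit 38) (nat_lit 2) (.p (nat_lit 39) (nat_lit 1) (.n (nat_lit 40) (nat_lit 3) (.p (nat_lit 42) (nat_lit 1) (.n (nat_lit 44) (nat_lit 1) (.n (nat_lit 45) (nat_lit 6) (.n (nat_lit 46) (nat_lit 5) (.n (nat_lit 48) (nat_lit 3) (.n (nat_lit 51) (nat_lit 2) (.n (nat_lit 52) (nat_lit 2) (.n (nat_lit 53) (nat_lit 2) (.p (nat_lit 69) (nat_lit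 1) (.n (nat_lit 70) (nat_lit 1) (.p (nat_lit 215) (nat_lit 1) (.n (nat_lit 217) (nat_lit 1) (.p (nat_lit 220) (nat_lit 1) (.n (nat_lit 222) (nat_lit 1) (.p (nat_lit 223) (nat_lit 1) (.n (nat_lit 227) (nat_lit 1) (.n (nat_lit 229) (nat_lit 1) (.n (nat_lit 230) (nat_lit 1) (.p (nat_lit 233) (nat_lit 1) (.p (nat_lit 234) (nat_lit 1) (.p (nat_lit 237) (nat_lit 1) (.p (nat_lit 238) (nat_lit 1) (.n (nat_lit 351) (nat_lit 2) (.n (nat_lit 354) (nat_lit 1) (.n (nat_lit 357) (nat_lit 1) (.n (nat_lit 358) (nat_lit 2) (.n (nat_lit 360) (nat_lit 2) (.p (nat_lit 362) (nat_lit 1) .z)))))))))))))))))))))))))))))))))))))))))))))))))))))))))))) (.u (nat_lit 2) (.n (nat_lit 364) (nat_lit 1) (.n (nat_lit 366) (nat_lit 2) (.n (nat_lit 369) (nat_lit 1) (.p (nat_lit 371) (nat_lit 2) (.p (nat_lit 372) (nat_lit 2) (.p (nat_lit 374) (nat_lit 1) (.p (nat_lit 375) (nat_lit 1) (.p (nat_lit 376)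 (nat_lit 1) (.n (nat_lit 380) (nat_lit 3) (.p (nat_lit 382) (nat_lit 2) (.n (nat_lit 383) (nat_lit 1) (.p (nat_lit 384) (nat_lit 1) (.p (nat_lit 385) (nat_lit 1) .z))))))))))))) .nil)))))))))))))))))))))))))

noncomputable def dC2a_i34 : IL := (.e false (nat_lit 3) (nat_lit 206) (nat_lit 2) (nat_lit 16) (.e false (nat_lit 3) (nat_lit 207) (nat_lit 2) (nat_lit 16) (.e false (nat_lit 3) (nat_lit 209) (nat_lit 2) (nat_lit 16) (.e true (nat_lit 1) (nat_lit 229) (nat_lit 2) (nat_lit 16) (.e true (nat_lit 1) (nat_lit 230) (nat_lit 2) (nat_lit 16) (.e false (nat_lit 2) (nat_lit 210) (nat_lit 2) (nat_lit 16) (.e false (nat_lit 1) (nat_lit 208) (nat_lit 2) (nat_lit 16) (.e true (nat_lit 1) (nat_lit 177) (nat_lit 4) (nat_lit 14) (.e false (nat_lit 3) (nat_lit 269) (nat_lit 1) (nat_lit 17) (.e false (nat_lit 1) (nat_lit 252) (nat_lit 1) (nat_lit 17) (.e false (nat_lit 1) (nat_lit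 253) (nat_lit 1) (nat_lit 17) (.e false (nat_lit 3) (nat_lit 254) (nat_lit 1) (nat_lit 17) (.e true (nat_lit 1) (nat_lit 255) (nat_lit 1) (nat_lit 17) (.e false (nat_lit 1) (nat_lit 257) (nat_lit 1) (nat_lit 17) (.e false (nat_lit 1) (nat_lit 258) (nat_lit 1) (nat_lit 17) (.e false (nat_lit 1) (nat_lit 265) (nat_lit 1) (nat_lit 17) (.e false (nat_lit 2) (nat_lit 266) (nat_lit 1) (nat_lit 17) (.e true (nat_lit 2) (nat_lit 272) (nat_lit 1) (nat_lit 17) (.e true (nat_lit 2) (nat_lit 274) (nat_lit 1) (nat_lit 17) (.e false (nat_lit 1) (nat_lit 277) (nat_lit 1) (nat_lit 17) (.e false (nat_lit 1) (nat_lit 278) (nat_lit 1) (nat_lit 17) (.e true (nat_lit 1) (nat_lit 285) (nat_lit 1) (nat_lit 17) (.e false (nat_lit 1) (nat_lit 287) (nat_lit 1) (nat_lit 17) (.e false (nat_lit 2) (nat_lit 225) (nat_lit 2) (nat_lit 16) (.u (nat_lit 2) (.p (nat_lit 0) (nat_lit 4) (.p (nat_lit 1)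 (nat_lit 5) (.n (nat_lit 2) (nat_lit 2) (.n (nat_lit 3) (nat_lit 5) (.p (nat_lit 4) (nat_lit 2) (.p (nat_lit 6) (nat_lit 1) (.p (nat_lit 7) (nat_lit 1) (.p (nat_lit 8) (nat_lit 3) (.p (nat_lit 9) (nat_lit 3) (.p (nat_lit 11) (nat_lit 3) (.p (nat_lit 12) (nat_lit 3) (.p (nat_lit 14) (nat_lit 1) (.p (nat_lit 15) (nat_lit 7) (.p (nat_lit 17) (nat_lit 2) (.p (nat_lit 18) (nat_lit 1) (.p (nat_lit 19) (nat_lit 3) (.p (nat_lit 20) (nat_lit 1) (.n (nat_lit 21) (nat_lit 7) (.p (nat_lit 22) (nat_lit 7) (.n (nat_lit 23) (nat_lit 3) (.p (nat_lit 24) (nat_lit 2) (.p (nat_lit 25) (nat_lit 2) (.p (nat_lit 27) (nat_lit 1) (.n (nat_lit 28) (nat_lit 1) (.n (nat_lit 29) (nat_lit 2) (.p (nat_lit 31) (nat_lit 5) (.n (nat_lit 32) (nat_lit 6) (.n (nat_lit 33) (nat_lit 1) (.p (nat_lit 34) (nat_lit 2) (.n (nat_lit 35) (nat_lit 2) (.n (nat_lit 36) (nat_lit 6) (.p (nat_lit 38) (nat_lit 1) (.n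 (nat_lit 39) (nat_lit 1) (.p (nat_lit 40) (nat_lit 1) (.p (nat_lit 45) (nat_lit 3) (.p (nat_lit 46) (nat_lit 2) (.p (nat_lit 47) (nat_lit 2) (.p (nat_lit 48) (nat_lit 1) (.n (nat_lit 302) (nat_lit 2) (.n (nat_lit 304) (nat_lit 1) (.n (nat_lit 306) (nat_lit 2) (.n (nat_lit 308) (nat_lit 1) (.n (nat_lit 310) (nat_lit 1) (.p (nat_lit 312) (nat_lit 2) (.p (nat_lit 313) (nat_lit 1) (.p (nat_lit 314) (nat_lit 1) (.n (nat_lit 316) (nat_lit 2) (.p (nat_lit 318) (nat_lit 2) (.n (nat_lit 323) (nat_lit 1) (.p (nat_lit 324) (nat_lit 1) (.n (nat_lit 325) (nat_lit 2) (.n (nat_lit 327) (nat_lit 1) (.n (nat_lit 328) (nat_lit 1) (.p (nat_lit 335) (nat_lit 1) (.n (nat_lit 342) (nat_lit 1) (.p (nat_lit 343) (nat_lit 3) (.p (nat_lit 344) (nat_lit 3) (.n (nat_lit 345) (nat_lit 1) (.p (nat_lit 348) (nat_lit 1) (.n (nat_lit 366) (nat_lit 1) .z))))))))))))))))))))))))))))))))))))))))))))))))))))))))))))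 .nil)))))))))))))))))))))))))

noncomputable def dC2a_i35 : IL := (.e false (nat_lit 1) (nat_lit 109) (nat_lit 7) (nat_lit 11) (.e true (nat_lit 1) (nat_lit 111) (nat_lit 7) (nat_lit 11) (.e true (nat_lit 1) (nat_lit 116) (nat_lit 7) (nat_lit 11) (.e false (nat_lit 1) (nat_lit 185) (nat_lit 3) (nat_lit 15) (.e true (nat_lit 2) (nat_lit 186) (nat_lit 3) (nat_lit 15) (.e true (nat_lit 2) (nat_lit 190) (nat_lit 3) (nat_lit 15) (.e false (nat_lit 1) (nat_lit 193) (nat_lit 3) (nat_lit 15) (.e false (nat_lit 1) (nat_lit 194) (nat_lit 3) (nat_lit 15) (.e true (nat_lit 1) (nat_lit 205) (nat_lit 2) (nat_lit 16) (.e true (nat_lit 2) (nat_lit 211) (nat_lit 2) (nat_lit 16) (.e false (nat_lit 2) (nat_lit 213) (nat_lit 2) (nat_lit 16) (.e false (nat_lit 1) (nat_lit 215) (nat_lit 2) (nat_lit 16) (.e false (nat_lit 1) (nat_lit 216) (nat_lit 2) (nat_lit 16) (.e true (nat_lit 2) (nat_lit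 217) (nat_lit 2) (nat_lit 16) (.e true (nat_lit 2) (nat_lit 218) (nat_lit 2) (nat_lit 16) (.e false (nat_lit 1) (nat_lit 219) (nat_lit 2) (nat_lit 16) (.e true (nat_lit 1) (nat_lit 221) (nat_lit 2) (nat_lit 16) (.e false (nat_lit 2) (nat_lit 226) (nat_lit 2) (nat_lit 16) (.e false (nat_lit 3) (nat_lit 227) (nat_lit 2) (nat_lit 16) (.e false (nat_lit 3) (nat_lit 228) (nat_lit 2) (nat_lit 16) (.e false (nat_lit 1) (nat_lit 245) (nat_lit 2) (nat_lit 16) (.e true (nat_lit 3) (nat_lit 246) (nat_lit 2) (nat_lit 16) (.e true (nat_lit 3) (nat_lit 247) (nat_lit 2) (nat_lit 16) (.e true (nat_lit 1) (nat_lit 248) (nat_lit 2) (nat_lit 16) (.e true (nat_lit 1) (nat_lit 251) (nat_lit 2) (nat_lit 16) dC2a_i34)))))))))))))))))))))))))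

noncomputable def dC2a_i36 : IL := (.e true (nat_lit 3) (nat_lit 109) (nat_lit 7) (nat_lit 11) (.e false (nat_lit 3) (nat_lit 110) (nat_lit 7) (nat_lit 11) (.e true (nat_lit 3) (nat_lit 112) (nat_lit 7) (nat_lit 11) (.e false (nat_lit 3) (nat_lit 114) (nat_lit 7) (nat_lit 11) (.e true (nat_lit 1) (nat_lit 117) (nat_lit 7) (nat_lit 11) (.e true (nat_lit 3) (nat_lit 119) (nat_lit 7) (nat_lit 11) (.e false (nat_lit 3) (nat_lit 123) (nat_lit 7) (nat_lit 11) (.e true (nat_lit 3) (nat_lit 126) (nat_lit 7) (nat_lit 11) (.e false (nat_lit 3) (nat_lit 127) (nat_lit 7) (nat_lit 11) (.e false (nat_lit 1) (nat_lit 128) (nat_lit 7) (nat_lit 11) (.e true (nat_lit 2) (nat_lit 289) (nat_lit 0) (nat_lit 18) (.e true (nat_lit 1) (nat_lit 290) (nat_lit 0) (nat_lit 18) (.e false (nat_lit 3) (nat_lit 291) (nat_lit 0) (nat_lit 18) (.e false (nat_lit 2) (nat_lit 292) (nat_lit 0) (nat_lit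 18) (.e false (nat_lit 2) (nat_lit 293) (nat_lit 0) (nat_lit 18) (.e false (nat_lit 1) (nat_lit 294) (nat_lit 0) (nat_lit 18) (.e true (nat_lit 2) (nat_lit 295) (nat_lit 0) (nat_lit 18) (.e true (nat_lit 1) (nat_lit 296) (nat_lit 0) (nat_lit 18) (.e true (nat_lit 2) (nat_lit 297) (nat_lit 0) (nat_lit 18) (.e false (nat_lit 1) (nat_lit 299) (nat_lit 0) (nat_lit 18) (.e true (nat_lit 2) (nat_lit 301) (nat_lit 0) (nat_lit 18) (.e false (nat_lit 3) (nat_lit 303) (nat_lit 0) (nat_lit 18) (.e false (nat_lit 3) (nat_lit 304) (nat_lit 0) (nat_lit 18) (.u (nat_lit 2) (.n (nat_lit 0) (nat_lit 1) (.n (nat_lit 1) (nat_lit 4) (.p (nat_lit 2) (nat_lit 4) (.n (nat_lit 3) (nat_lit 1) (.p (nat_lit 4) (nat_lit 6) (.n (nat_lit 5) (nat_lit 3) (.n (nat_lit 6) (nat_lit 5) (.n (nat_lit 7) (nat_lit 1) (.n (nat_lit 8) (nat_lit 1) (.n (nat_lit 9) (nat_lit 5) (.n (nat_lit 10) (nat_lit 2) (.p (nat_lit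 11) (nat_lit 3) (.n (nat_lit 12) (nat_lit 2) (.n (nat_lit 15) (nat_lit 3) (.n (nat_lit 16) (nat_lit 6) (.p (nat_lit 17) (nat_lit 4) (.n (nat_lit 18) (nat_lit 1) (.p (nat_lit 19) (nat_lit 5) (.n (nat_lit 20) (nat_lit 1) (.n (nat_lit 21) (nat_lit 2) (.p (nat_lit 22) (nat_lit 2) (.n (nat_lit 23) (nat_lit 2) (.n (nat_lit 24) (nat_lit 4) (.p (nat_lit 25) (nat_lit 7) (.p (nat_lit 26) (nat_lit 5) (.p (nat_lit 27) (nat_lit 4) (.p (nat_lit 28) (nat_lit 2) (.p (nat_lit 29) (nat_lit 3) (.n (nat_lit 31) (nat_lit 1) (.n (nat_lit 32) (nat_lit 3) (.n (nat_lit 34) (nat_lit 4) (.n (nat_lit 35) (nat_lit 1) (.n (nat_lit 36) (nat_lit 5) (.n (nat_lit 37) (nat_lit 4) (.p (nat_lit 39) (nat_lit 2) (.p (nat_lit 40) (nat_lit 2) (.p (nat_lit 42) (nat_lit 1) (.p (nat_lit 45) (nat_lit 5) (.p (nat_lit 46) (nat_lit 4) (.n (nat_lit 48) (nat_lit 1) (.n (nat_lit 350) (nat_lit 2) (.n (nat_lit 353) (nat_lit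 1) (.p (nat_lit 355) (nat_lit 3) (.n (nat_lit 356) (nat_lit 2) (.p (nat_lit 357) (nat_lit 4) (.n (nat_lit 359) (nat_lit 3) (.p (nat_lit 361) (nat_lit 2) (.p (nat_lit 362) (nat_lit 1) (.n (nat_lit 363) (nat_lit 1) (.p (nat_lit 364) (nat_lit 1) (.p (nat_lit 366) (nat_lit 1) (.p (nat_lit 368) (nat_lit 1) (.p (nat_lit 369) (nat_lit 3) (.p (nat_lit 370) (nat_lit 1) (.p (nat_lit 371) (nat_lit 3) (.n (nat_lit 372) (nat_lit 1) (.n (nat_lit 373) (nat_lit 1) (.p (nat_lit 374) (nat_lit 1) (.p (nat_lit 379) (nat_lit 1) (.p (nat_lit 381) (nat_lit 1) .z)))))))))))))))))))))))))))))))))))))))))))))))))))))))))))) (.u (nat_lit 2) (.p (nat_lit 382) (nat_lit 1) .z) .nil)))))))))))))))))))))))))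

noncomputable def dC2a_i37 : IL := (.e false (nat_lit 3) (nat_lit 260) (nat_lit 1) (nat_lit 17) (.e false (nat_lit 3) (nat_lit 262) (nat_lit 1) (nat_lit 17) (.e true (nat_lit 3) (nat_lit 265) (nat_lit 1) (nat_lit 17) (.e true (nat_lit 1) (nat_lit 266) (nat_lit 1) (nat_lit 17) (.e false (nat_lit 1) (nat_lit 267) (nat_lit 1) (nat_lit 17) (.e true (nat_lit 2) (nat_lit 272) (nat_lit 1) (nat_lit 17) (.e false (nat_lit 3) (nat_lit 273) (nat_lit 1) (nat_lit 17) (.e true (nat_lit 2) (nat_lit 274) (nat_lit 1) (nat_lit 17) (.e false (nat_lit 1) (nat_lit 275) (nat_lit 1) (nat_lit 17) (.e false (nat_lit 2) (nat_lit 276) (nat_lit 1) (nat_lit 17) (.e true (nat_lit 2) (nat_lit 282) (nat_lit 1) (nat_lit 17) (.e true (nat_lit 2) (nat_lit 283) (nat_lit 1) (nat_lit 17) (.e false (nat_lit 2) (nat_lit 285) (nat_lit 1) (nat_lit 17) (.e true (nat_lit 1) (nat_lit 288) (nat_lit 1) (nat_lit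 17) (.e true (nat_lit 1) (nat_lit 263) (nat_lit 1) (nat_lit 17) (.e false (nat_lit 1) (nat_lit 269) (nat_lit 1) (nat_lit 17) (.e false (nat_lit 2) (nat_lit 264) (nat_lit 1) (nat_lit 17) (.e false (nat_lit 1) (nat_lit 286) (nat_lit 1) (nat_lit 17) (.e true (nat_lit 2) (nat_lit 271) (nat_lit 1) (nat_lit 17) (.e true (nat_lit 3) (nat_lit 277) (nat_lit 1) (nat_lit 17) (.e false (nat_lit 1) (nat_lit 279) (nat_lit 1) (nat_lit 17) (.e false (nat_lit 1) (nat_lit 255) (nat_lit 1) (nat_lit 17) (.e false (nat_lit 1) (nat_lit 261) (nat_lit 1) (nat_lit 17) (.e false (nat_lit 3) (nat_lit 107) (nat_lit 7) (nat_lit 11) (.e false (nat_lit 3) (nat_lit 108) (nat_lit 7) (nat_lit 11) dC2a_i36)))))))))))))))))))))))))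

noncomputable def dC2a_i38 : IL := (.e true (nat_lit 1) (nat_lit 126) (nat_lit 7) (nat_lit 11) (.e false (nat_lit 2) (nat_lit 289) (nat_lit 0) (nat_lit 18) (.e false (nat_lit 1) (nat_lit 290) (nat_lit 0) (nat_lit 18) (.e true (nat_lit 3) (nat_lit 291) (nat_lit 0) (nat_lit 18) (.e true (nat_lit 2) (nat_lit 292) (nat_lit 0) (nat_lit 18) (.e true (nat_lit 3) (nat_lit 293) (nat_lit 0) (nat_lit 18) (.e true (nat_lit 1) (nat_lit 294) (nat_lit 0) (nat_lit 18) (.e false (nat_lit 2) (nat_lit 295) (nat_lit 0) (nat_lit 18) (.e false (nat_lit 1) (nat_lit 296) (nat_lit 0) (nat_lit 18) (.e false (nat_lit 2) (nat_lit 297) (nat_lit 0) (nat_lit 18) (.e true (nat_lit 1) (nat_lit 299) (nat_lit 0) (nat_lit 18) (.e false (nat_lit 2) (nat_lit 301) (nat_lit 0) (nat_lit 18) (.e true (nat_lit 3) (nat_lit 303) (nat_lit 0) (nat_lit 18) (.e true (nat_lit 3) (nat_lit 304) (nat_lit 0) (nat_lit 18)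 (.e true (nat_lit 2) (nat_lit 113) (nat_lit 7) (nat_lit 11) (.e true (nat_lit 1) (nat_lit 120) (nat_lit 7) (nat_lit 11) (.e true (nat_lit 3) (nat_lit 130) (nat_lit 7) (nat_lit 11) (.e false (nat_lit 3) (nat_lit 131) (nat_lit 7) (nat_lit 11) (.e false (nat_lit 3) (nat_lit 208) (nat_lit 2) (nat_lit 16) (.e true (nat_lit 3) (nat_lit 214) (nat_lit 2) (nat_lit 16) (.e false (nat_lit 1) (nat_lit 224) (nat_lit 2) (nat_lit 16) (.e false (nat_lit 2) (nat_lit 247) (nat_lit 2) (nat_lit 16) (.e true (nat_lit 2) (nat_lit 250) (nat_lit 2) (nat_lit 16) (.u (nat_lit 2) (.p (nat_lit 0) (nat_lit 13) (.n (nat_lit 1) (nat_lit 2) (.n (nat_lit 2) (nat_lit 3) (.p (nat_lit 3) (nat_lit 5) (.n (nat_lit 4) (nat_lit 7) (.p (nat_lit 6) (nat_lit 6) (.n (nat_lit 7) (nat_lit 6) (.n (nat_lit 9) (nat_lit 2) (.p (nat_lit 10) (nat_lit 6) (.n (nat_lit 11) (nat_lit 8) (.n (nat_lit 12) (nat_lit 1) (.p (nat_lit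 14) (nat_lit 2) (.p (nat_lit 15) (nat_lit 6) (.n (nat_lit 16) (nat_lit 6) (.n (nat_lit 17) (nat_lit 1) (.n (nat_lit 18) (nat_lit 1) (.n (nat_lit 19) (nat_lit 5) (.p (nat_lit 21) (nat_lit 6) (.n (nat_lit 22) (nat_lit 6) (.p (nat_lit 23) (nat_lit 1) (.p (nat_lit 24) (nat_lit 11) (.p (nat_lit 25) (nat_lit 3) (.p (nat_lit 26) (nat_lit 2) (.n (nat_lit 27) (nat_lit 18) (.p (nat_lit 31) (nat_lit 3) (.n (nat_lit 32) (nat_lit 3) (.n (nat_lit 33) (nat_lit 4) (.n (nat_lit 34) (nat_lit 3) (.n (nat_lit 35) (nat_lit 4) (.p (nat_lit 36) (nat_lit 4) (.p (nat_lit 37) (nat_lit 7) (.p (nat_lit 38) (nat_lit 5) (.n (nat_lit 39) (nat_lit 4) (.n (nat_lit 44) (nat_lit 2) (.n (nat_lit 45) (nat_lit 6) (.p (nat_lit 46) (nat_lit 3) (.n (nat_lit 47) (nat_lit 2) (.p (nat_lit 48) (nat_lit 3) (.n (nat_lit 49) (nat_lit 1) (.n (nat_lit 50) (nat_lit 2) (.p (nat_lit 53) (nat_lit 1) (.n (nat_lit 55) (nat_lit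 1) (.n (nat_lit 57) (nat_lit 1) (.n (nat_lit 138) (nat_lit 1) (.p (nat_lit 146) (nat_lit 1) (.p (nat_lit 213) (nat_lit 2) (.p (nat_lit 214) (nat_lit 1) (.n (nat_lit 216) (nat_lit 1) (.n (nat_lit 217) (nat_lit 1) (.p (nat_lit 219) (nat_lit 1) (.n (nat_lit 221) (nat_lit 2) (.n (nat_lit 223) (nat_lit 1) (.n (nat_lit 224) (nat_lit 1) (.n (nat_lit 225) (nat_lit 2) (.p (nat_lit 226) (nat_lit 1) (.n (nat_lit 228) (nat_lit 1) (.p (nat_lit 231) (nat_lit 1) (.n (nat_lit 232) (nat_lit 1) (.p (nat_lit 233) (nat_lit 1) (.n (nat_lit 303) (nat_lit 1) .z)))))))))))))))))))))))))))))))))))))))))))))))))))))))))))) (.u (nat_lit 2) (.n (nat_lit 304) (nat_lit 1) (.n (nat_lit 308) (nat_lit 1) (.p (nat_lit 313) (nat_lit 1) (.n (nat_lit 314) (nat_lit 1) (.n (nat_lit 319) (nat_lit 1) (.p (nat_lit 323) (nat_lit 1) (.n (nat_lit 340) (nat_lit 1) (.p (nat_lit 343) (nat_lit 1) (.p (nat_lit 350)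 (nat_lit 1) (.n (nat_lit 352) (nat_lit 2) (.n (nat_lit 354) (nat_lit 1) (.n (nat_lit 355) (nat_lit 3) (.p (nat_lit 356) (nat_lit 2) (.n (nat_lit 357) (nat_lit 4) (.p (nat_lit 359) (nat_lit 2) (.n (nat_lit 361) (nat_lit 2) (.p (nat_lit 363) (nat_lit 2) (.n (nat_lit 364) (nat_lit 2) (.n (nat_lit 368) (nat_lit 1) (.n (nat_lit 369) (nat_lit 2) (.n (nat_lit 370) (nat_lit 1) (.n (nat_lit 371) (nat_lit 4) (.p (nat_lit 372) (nat_lit 1) (.p (nat_lit 373) (nat_lit 3) (.n (nat_lit 374) (nat_lit 1) (.p (nat_lit 376) (nat_lit 1) (.p (nat_lit 379) (nat_lit 1) (.p (nat_lit 380) (nat_lit 2) (.n (nat_lit 381) (nat_lit 1) (.n (nat_lit 382) (nat_lit 3) (.p (nat_lit 383) (nat_lit 1) (.n (nat_lit 385) (nat_lit 1) .z)))))))))))))))))))))))))))))))) .nil)))))))))))))))))))))))))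

noncomputable def dC2a_i39 : IL := (.e true (nat_lit 3) (nat_lit 210) (nat_lit 2) (nat_lit 16) (.e false (nat_lit 2) (nat_lit 211) (nat_lit 2) (nat_lit 16) (.e true (nat_lit 1) (nat_lit 212) (nat_lit 2) (nat_lit 16) (.e false (nat_lit 1) (nat_lit 216) (nat_lit 2) (nat_lit 16) (.e false (nat_lit 3) (nat_lit 217) (nat_lit 2) (nat_lit 16) (.e true (nat_lit 2) (nat_lit 218) (nat_lit 2) (nat_lit 16) (.e true (nat_lit 2) (nat_lit 219) (nat_lit 2) (nat_lit 16) (.e false (nat_lit 2) (nat_lit 220) (nat_lit 2) (nat_lit 16) (.e true (nat_lit 3) (nat_lit 225) (nat_lit 2) (nat_lit 16) (.e false (nat_lit 3) (nat_lit 227) (nat_lit 2) (nat_lit 16) (.e false (nat_lit 1) (nat_lit 228) (nat_lit 2) (nat_lit 16) (.e false (nat_lit 3) (nat_lit 231) (nat_lit 2) (nat_lit 16) (.e true (nat_lit 2) (nat_lit 232) (nat_lit 2) (nat_lit 16) (.e true (nat_lit 1) (nat_lit 234) (nat_lit 2) (nat_lit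 16) (.e true (nat_lit 1) (nat_lit 239) (nat_lit 2) (nat_lit 16) (.e false (nat_lit 2) (nat_lit 243) (nat_lit 2) (nat_lit 16) (.e true (nat_lit 3) (nat_lit 244) (nat_lit 2) (nat_lit 16) (.e false (nat_lit 1) (nat_lit 245) (nat_lit 2) (nat_lit 16) (.e true (nat_lit 1) (nat_lit 246) (nat_lit 2) (nat_lit 16) (.e false (nat_lit 2) (nat_lit 249) (nat_lit 2) (nat_lit 16) (.e false (nat_lit 2) (nat_lit 251) (nat_lit 2) (nat_lit 16) (.e true (nat_lit 3) (nat_lit 273) (nat_lit 1) (nat_lit 17) (.e false (nat_lit 1) (nat_lit 263) (nat_lit 1) (nat_lit 17) (.e true (nat_lit 2) (nat_lit 264) (nat_lit 1) (nat_lit 17) (.e true (nat_lit 2) (nat_lit 108) (nat_lit 7) (nat_lit 11) dC2a_i38)))))))))))))))))))))))))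

noncomputable def dC2a_i40 : IL := (.e false (nat_lit 2) (nat_lit 261) (nat_lit 1) (nat_lit 17) (.e false (nat_lit 1) (nat_lit 262) (nat_lit 1) (nat_lit 17) (.e true (nat_lit 1) (nat_lit 265) (nat_lit 1) (nat_lit 17) (.e true (nat_lit 3) (nat_lit 266) (nat_lit 1) (nat_lit 17) (.e true (nat_lit 3) (nat_lit 267) (nat_lit 1) (nat_lit 17) (.e true (nat_lit 2) (nat_lit 269) (nat_lit 1) (nat_lit 17) (.e true (nat_lit 3) (nat_lit 270) (nat_lit 1) (nat_lit 17) (.e true (nat_lit 1) (nat_lit 271) (nat_lit 1) (nat_lit 17) (.e true (nat_lit 2) (nat_lit 272) (nat_lit 1) (nat_lit 17) (.e false (nat_lit 3) (nat_lit 274) (nat_lit 1) (nat_lit 17) (.e false (nat_lit 2) (nat_lit 275) (nat_lit 1) (nat_lit 17) (.e true (nat_lit 3) (nat_lit 276) (nat_lit 1) (nat_lit 17) (.e true (nat_lit 2) (nat_lit 279) (nat_lit 1) (nat_lit 17) (.e true (nat_lit 3) (nat_lit 282) (nat_lit 1) (nat_lit 17)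 (.e true (nat_lit 2) (nat_lit 286) (nat_lit 1) (nat_lit 17) (.e false (nat_lit 2) (nat_lit 288) (nat_lit 1) (nat_lit 17) (.e true (nat_lit 1) (nat_lit 256) (nat_lit 1) (nat_lit 17) (.e false (nat_lit 3) (nat_lit 258) (nat_lit 1) (nat_lit 17) (.e true (nat_lit 3) (nat_lit 166) (nat_lit 5) (nat_lit 13) (.e true (nat_lit 1) (nat_lit 164) (nat_lit 5) (nat_lit 13) (.e false (nat_lit 1) (nat_lit 40) (nat_lit 33) (nat_lit 0) (.e true (nat_lit 1) (nat_lit 40) (nat_lit 34) (nat_lit 0) (.e true (nat_lit 1) (nat_lit 206) (nat_lit 2) (nat_lit 16) (.e false (nat_lit 3) (nat_lit 207) (nat_lit 2) (nat_lit 16) (.e true (nat_lit 2) (nat_lit 209) (nat_lit 2) (nat_lit 16) dC2a_i39)))))))))))))))))))))))))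

noncomputable def dC2a_i41 : IL := (.e false (nat_lit 3) (nat_lit 73) (nat_lit 19) (nat_lit 5) (.e true (nat_lit 2) (nat_lit 106) (nat_lit 7) (nat_lit 11) (.e true (nat_lit 3) (nat_lit 107) (nat_lit 7) (nat_lit 11) (.e false (nat_lit 1) (nat_lit 109) (nat_lit 7) (nat_lit 11) (.e true (nat_lit 2) (nat_lit 110) (nat_lit 7) (nat_lit 11) (.e false (nat_lit 3) (nat_lit 111) (nat_lit 7) (nat_lit 11) (.e false (nat_lit 2) (nat_lit 112) (nat_lit 7) (nat_lit 11) (.e false (nat_lit 2) (nat_lit 114) (nat_lit 7) (nat_lit 11) (.e true (nat_lit 1) (nat_lit 115) (nat_lit 7) (nat_lit 11) (.e true (nat_lit 2) (nat_lit 116) (nat_lit 7) (nat_lit 11) (.e false (nat_lit 2) (nat_lit 117) (nat_lit 7) (nat_lit 11) (.e false (nat_lit 3) (nat_lit 118) (nat_lit 7) (nat_lit 11) (.e false (nat_lit 3) (nat_lit 121) (nat_lit 7) (nat_lit 11) (.e true (nat_lit 1) (nat_lit 122) (nat_lit 7) (nat_lit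 11) (.e false (nat_lit 3) (nat_lit 123) (nat_lit 7) (nat_lit 11) (.e true (nat_lit 1) (nat_lit 124) (nat_lit 7) (nat_lit 11) (.e true (nat_lit 3) (nat_lit 127) (nat_lit 7) (nat_lit 11) (.e false (nat_lit 1) (nat_lit 128) (nat_lit 7) (nat_lit 11) (.e false (nat_lit 3) (nat_lit 89) (nat_lit 14) (nat_lit 7) (.e false (nat_lit 2) (nat_lit 253) (nat_lit 1) (nat_lit 17) (.e false (nat_lit 3) (nat_lit 254) (nat_lit 1) (nat_lit 17) (.e false (nat_lit 1) (nat_lit 255) (nat_lit 1) (nat_lit 17) (.e true (nat_lit 2) (nat_lit 257) (nat_lit 1) (nat_lit 17) (.e true (nat_lit 3) (nat_lit 259) (nat_lit 1) (nat_lit 17) (.e false (nat_lit 3) (nat_lit 260) (nat_lit 1) (nat_lit 17) dC2a_i40)))))))))))))))))))))))))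

noncomputable def dC2a_i42 : IL := (.e true (nat_lit 1) (nat_lit 66) (nat_lit 6) (nat_lit 8) (.e false (nat_lit 1) (nat_lit 68) (nat_lit 6) (nat_lit 8) (.e false (nat_lit 1) (nat_lit 72) (nat_lit 6) (nat_lit 8) (.e true (nat_lit 2) (nat_lit 106) (nat_lit 2) (nat_lit 12) (.e false (nat_lit 3) (nat_lit 107) (nat_lit 2) (nat_lit 12) (.e false (nat_lit 3) (nat_lit 108) (nat_lit 2) (nat_lit 12) (.e false (nat_lit 1) (nat_lit 109) (nat_lit 2) (nat_lit 12) (.e true (nat_lit 2) (nat_lit 110) (nat_lit 2) (nat_lit 12) (.e false (nat_lit 1) (nat_lit 111) (nat_lit 2) (nat_lit 12) (.e true (nat_lit 1) (nat_lit 112) (nat_lit 2) (nat_lit 12) (.e false (nat_lit 2) (nat_lit 113) (nat_lit 2) (nat_lit 12) (.e false (nat_lit 1) (nat_lit 114) (nat_lit 2) (nat_lit 12) (.e true (nat_lit 3) (nat_lit 115) (nat_lit 2) (nat_lit 12) (.e false (nat_lit 2) (nat_lit 116) (nat_lit 2) (nat_lit 12)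 (.e false (nat_lit 2) (nat_lit 117) (nat_lit 2) (nat_lit 12) (.e true (nat_lit 2) (nat_lit 119) (nat_lit 2) (nat_lit 12) (.e false (nat_lit 3) (nat_lit 120) (nat_lit 2) (nat_lit 12) (.e false (nat_lit 3) (nat_lit 122) (nat_lit 2) (nat_lit 12) (.e true (nat_lit 2) (nat_lit 123) (nat_lit 2) (nat_lit 12) (.e false (nat_lit 1) (nat_lit 126) (nat_lit 2) (nat_lit 12) (.e false (nat_lit 2) (nat_lit 127) (nat_lit 2) (nat_lit 12) (.e true (nat_lit 1) (nat_lit 128) (nat_lit 2) (nat_lit 12) (.e false (nat_lit 3) (nat_lit 130) (nat_lit 2) (nat_lit 12) (.e false (nat_lit 3) (nat_lit 131) (nat_lit 2) (nat_lit 12) (.u (nat_lit 2) (.n (nat_lit 0) (nat_lit 2) (.p (nat_lit 2) (nat_lit 1) (.n (nat_lit 3) (nat_lit 1) (.n (nat_lit 6) (nat_lit 1) (.p (nat_lit 7) (nat_lit 1) (.p (nat_lit 8) (nat_lit 1) (.n (nat_lit 9) (nat_lit 1) (.n (nat_lit 11) (nat_lit 1) (.n (nat_lit 13) (nat_lit 1) (.n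 (nat_lit 14) (nat_lit 1) (.p (nat_lit 15) (nat_lit 1) (.p (nat_lit 16) (nat_lit 1) (.n (nat_lit 17) (nat_lit 1) (.p (nat_lit 20) (nat_lit 1) (.p (nat_lit 21) (nat_lit 1) (.n (nat_lit 22) (nat_lit 1) (.p (nat_lit 24) (nat_lit 1) (.p (nat_lit 25) (nat_lit 1) (.p (nat_lit 27) (nat_lit 1) (.n (nat_lit 29) (nat_lit 1) (.n (nat_lit 39) (nat_lit 1) (.p (nat_lit 40) (nat_lit 1) (.p (nat_lit 41) (nat_lit 1) (.n (nat_lit 44) (nat_lit 1) (.n (nat_lit 45) (nat_lit 1) (.n (nat_lit 46) (nat_lit 1) .z)))))))))))))))))))))))))) .nil)))))))))))))))))))))))))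

noncomputable def dC2a_i43 : IL := (.e false (nat_lit 1) (nat_lit 81) (nat_lit 6) (nat_lit 7) (.e false (nat_lit 1) (nat_lit 84) (nat_lit 6) (nat_lit 7) (.e false (nat_lit 2) (nat_lit 85) (nat_lit 6) (nat_lit 7) (.e false (nat_lit 1) (nat_lit 87) (nat_lit 6) (nat_lit 7) (.e true (nat_lit 1) (nat_lit 90) (nat_lit 6) (nat_lit 7) (.e false (nat_lit 1) (nat_lit 184) (nat_lit 1) (nat_lit 12) (.e false (nat_lit 1) (nat_lit 132) (nat_lit 2) (nat_lit 11) (.e false (nat_lit 1) (nat_lit 133) (nat_lit 2) (nat_lit 11) (.e true (nat_lit 1) (nat_lit 134) (nat_lit 2) (nat_lit 11) (.e true (nat_lit 1) (nat_lit 135) (nat_lit 2) (nat_lit 11) (.e true (nat_lit 1) (nat_lit 136) (nat_lit 2) (nat_lit 11) (.e false (nat_lit 1) (nat_lit 137) (nat_lit 2) (nat_lit 11) (.e false (nat_lit 1) (nat_lit 138) (nat_lit 2) (nat_lit 11) (.e true (nat_lit 1) (nat_lit 141) (nat_lit 2) (nat_lit 11) (.e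 true (nat_lit 1) (nat_lit 143) (nat_lit 2) (nat_lit 11) (.e false (nat_lit 2) (nat_lit 145) (nat_lit 2) (nat_lit 11) (.e false (nat_lit 1) (nat_lit 149) (nat_lit 2) (nat_lit 11) (.e true (nat_lit 1) (nat_lit 151) (nat_lit 2) (nat_lit 11) (.e true (nat_lit 1) (nat_lit 152) (nat_lit 2) (nat_lit 11) (.e true (nat_lit 1) (nat_lit 153) (nat_lit 2) (nat_lit 11) (.e true (nat_lit 1) (nat_lit 154) (nat_lit 2) (nat_lit 11) (.e false (nat_lit 1) (nat_lit 155) (nat_lit 2) (nat_lit 11) (.e false (nat_lit 1) (nat_lit 157) (nat_lit 2) (nat_lit 11) (.e false (nat_lit 1) (nat_lit 83) (nat_lit 6) (nat_lit 7) (.u (nat_lit 2) (.p (nat_lit 7) (nat_lit 1) (.n (nat_lit 8) (nat_lit 1) (.p (nat_lit 9) (nat_lit 1) (.n (nat_lit 10) (nat_lit 1) (.n (nat_lit 12) (nat_lit 1) (.n (nat_lit 14) (nat_lit 1) (.p (nat_lit 15) (nat_lit 1) (.p (nat_lit 17) (nat_lit 1) (.p (nat_lit 19) (nat_lit 1) (.n (nat_lit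 20) (nat_lit 1) (.p (nat_lit 21) (nat_lit 1) (.n (nat_lit 22) (nat_lit 1) (.n (nat_lit 23) (nat_lit 1) (.n (nat_lit 24) (nat_lit 1) (.n (nat_lit 25) (nat_lit 1) .z))))))))))))))) .nil)))))))))))))))))))))))))

noncomputable def dC2a_i44 : IL := (.e true (nat_lit 2) (nat_lit 213) (nat_lit 2) (nat_lit 16) (.e false (nat_lit 2) (nat_lit 215) (nat_lit 2) (nat_lit 16) (.e false (nat_lit 1) (nat_lit 216) (nat_lit 2) (nat_lit 16) (.e false (nat_lit 3) (nat_lit 217) (nat_lit 2) (nat_lit 16) (.e false (nat_lit 3) (nat_lit 218) (nat_lit 2) (nat_lit 16) (.e false (nat_lit 1) (nat_lit 219) (nat_lit 2) (nat_lit 16) (.e true (nat_lit 1) (nat_lit 222) (nat_lit 2) (nat_lit 16) (.e true (nat_lit 3) (nat_lit 225) (nat_lit 2) (nat_lit 16) (.e true (nat_lit 2) (nat_lit 226) (nat_lit 2) (nat_lit 16) (.e false (nat_lit 1) (nat_lit 227) (nat_lit 2) (nat_lit 16) (.e true (nat_lit 2) (nat_lit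 228) (nat_lit 2) (nat_lit 16) (.e false (nat_lit 3) (nat_lit 229) (nat_lit 2) (nat_lit 16) (.e false (nat_lit 3) (nat_lit 230) (nat_lit 2) (nat_lit 16) (.e false (nat_lit 3) (nat_lit 245) (nat_lit 2) (nat_lit 16) (.e false (nat_lit 2) (nat_lit 246) (nat_lit 2) (nat_lit 16) (.e false (nat_lit 2) (nat_lit 247) (nat_lit 2) (nat_lit 16) (.e false (nat_lit 3) (nat_lit 248) (nat_lit 2) (nat_lit 16) (.e true (nat_lit 3) (nat_lit 251) (nat_lit 2) (nat_lit 16) (.e true (nat_lit 1) (nat_lit 210) (nat_lit 2) (nat_lit 16) (.e false (nat_lit 1) (nat_lit 214) (nat_lit 2) (nat_lit 16) (.e true (nat_lit 1) (nat_lit 220) (nat_lit 2) (nat_lit 16) (.e false (nat_lit 2) (nat_lit 231) (nat_lit 2) (nat_lit 16) (.e true (nat_lit 1) (nat_lit 242) (nat_lit 2) (nat_lit 16) (.u (nat_lit 2) (.n (nat_lit 0) (nat_lit 2) (.n (nat_lit 1) (nat_lit 10) (.p (nat_lit 2) (nat_lit 7) (.p (nat_lit 3) (nat_lit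 6) (.p (nat_lit 4) (nat_lit 3) (.p (nat_lit 6) (nat_lit 2) (.n (nat_lit 7) (nat_lit 1) (.p (nat_lit 8) (nat_lit 3) (.p (nat_lit 9) (nat_lit 1) (.n (nat_lit 11) (nat_lit 2) (.n (nat_lit 12) (nat_lit 5) (.p (nat_lit 14) (nat_lit 2) (.n (nat_lit 15) (nat_lit 5) (.p (nat_lit 16) (nat_lit 2) (.n (nat_lit 17) (nat_lit 4) (.n (nat_lit 18) (nat_lit 2) (.n (nat_lit 19) (nat_lit 5) (.n (nat_lit 20) (nat_lit 1) (.p (nat_lit 21) (nat_lit 3) (.n (nat_lit 22) (nat_lit 3) (.p (nat_lit 23) (nat_lit 1) (.n (nat_lit 24) (nat_lit 2) (.n (nat_lit 25) (nat_lit 1) (.n (nat_lit 27) (nat_lit 7) (.n (nat_lit 29) (nat_lit 2) (.n (nat_lit 32) (nat_lit 2) (.n (nat_lit 33) (nat_lit 1) (.p (nat_lit 34) (nat_lit 2) (.n (nat_lit 35) (nat_lit 1) (.n (nat_lit 36) (nat_lit 3) (.n (nat_lit 37) (nat_lit 1) (.p (nat_lit 38) (nat_lit 1) (.n (nat_lit 39) (nat_lit 1) (.p (nat_lit 40) (nat_lit 1) (.p (nat_lit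 42) (nat_lit 1) (.n (nat_lit 44) (nat_lit 1) (.p (nat_lit 46) (nat_lit 1) (.n (nat_lit 47) (nat_lit 5) (.n (nat_lit 48) (nat_lit 1) (.n (nat_lit 63) (nat_lit 1) (.p (nat_lit 64) (nat_lit 2) (.n (nat_lit 302) (nat_lit 1) (.p (nat_lit 303) (nat_lit 2) (.p (nat_lit 304) (nat_lit 1) (.p (nat_lit 305) (nat_lit 3) (.n (nat_lit 306) (nat_lit 2) (.p (nat_lit 307) (nat_lit 1) (.p (nat_lit 308) (nat_lit 2) (.n (nat_lit 310) (nat_lit 1) (.n (nat_lit 311) (nat_lit 1) (.n (nat_lit 312) (nat_lit 2) (.n (nat_lit 313) (nat_lit 1) (.n (nat_lit 315) (nat_lit 3) (.n (nat_lit 316) (nat_lit 1) (.p (nat_lit 317) (nat_lit 1) (.p (nat_lit 319) (nat_lit 1) (.p (nat_lit 323) (nat_lit 2) (.n (nat_lit 324) (nat_lit 1) (.n (nat_lit 325) (nat_lit 1) (.p (nat_lit 328) (nat_lit 1) .z)))))))))))))))))))))))))))))))))))))))))))))))))))))))))))) (.u (nat_lit 2) (.p (nat_lit 339) (nat_lit 1) (.p (nat_lit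 343) (nat_lit 1) (.p (nat_lit 344) (nat_lit 1) (.n (nat_lit 351) (nat_lit 3) (.p (nat_lit 355) (nat_lit 1) (.n (nat_lit 362) (nat_lit 1) (.n (nat_lit 363) (nat_lit 2) (.p (nat_lit 371) (nat_lit 3) (.n (nat_lit 375) (nat_lit 1) (.n (nat_lit 384) (nat_lit 1) .z)))))))))) .nil)))))))))))))))))))))))))

noncomputable def dC2a_i45 : IL := (.e true (nat_lit 3) (nat_lit 217) (nat_lit 2) (nat_lit 16) (.e false (nat_lit 3) (nat_lit 219) (nat_lit 2) (nat_lit 16) (.e true (nat_lit 3) (nat_lit 220) (nat_lit 2) (nat_lit 16) (.e true (nat_lit 3) (nat_lit 222) (nat_lit 2) (nat_lit 16) (.e true (nat_lit 1) (nat_lit 223) (nat_lit 2) (nat_lit 16) (.e false (nat_lit 3) (nat_lit 226) (nat_lit 2) (nat_lit 16) (.e false (nat_lit 3) (nat_lit 227) (nat_lit 2) (nat_lit 16) (.e false (nat_lit 2) (nat_lit 229) (nat_lit 2) (nat_lit 16) (.e false (nat_lit 2) (nat_lit 230) (nat_lit 2) (nat_lit 16)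 (.e false (nat_lit 2) (nat_lit 210) (nat_lit 2) (nat_lit 16) (.e true (nat_lit 1) (nat_lit 211) (nat_lit 2) (nat_lit 16) (.e false (nat_lit 2) (nat_lit 213) (nat_lit 2) (nat_lit 16) (.e false (nat_lit 2) (nat_lit 231) (nat_lit 2) (nat_lit 16) (.e false (nat_lit 1) (nat_lit 232) (nat_lit 2) (nat_lit 16) (.e true (nat_lit 1) (nat_lit 239) (nat_lit 2) (nat_lit 16) (.e true (nat_lit 1) (nat_lit 243) (nat_lit 2) (nat_lit 16) (.e false (nat_lit 3) (nat_lit 245) (nat_lit 2) (nat_lit 16) (.e false (nat_lit 3) (nat_lit 246) (nat_lit 2) (nat_lit 16) (.e false (nat_lit 1) (nat_lit 247) (nat_lit 2) (nat_lit 16) (.e false (nat_lit 3) (nat_lit 248) (nat_lit 2) (nat_lit 16) (.e true (nat_lit 2) (nat_lit 249) (nat_lit 2) (nat_lit 16) (.e true (nat_lit 3) (nat_lit 250) (nat_lit 2) (nat_lit 16) (.e false (nat_lit 3) (nat_lit 251) (nat_lit 2) (nat_lit 16) (.u (nat_lit 2) (.n (nat_lit 0)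 (nat_lit 5) (.n (nat_lit 1) (nat_lit 2) (.p (nat_lit 2) (nat_lit 3) (.p (nat_lit 3) (nat_lit 4) (.n (nat_lit 4) (nat_lit 1) (.n (nat_lit 5) (nat_lit 5) (.p (nat_lit 6) (nat_lit 1) (.p (nat_lit 7) (nat_lit 1) (.n (nat_lit 8) (nat_lit 2) (.p (nat_lit 9) (nat_lit 3) (.p (nat_lit 10) (nat_lit 4) (.n (nat_lit 11) (nat_lit 3) (.n (nat_lit 12) (nat_lit 2) (.n (nat_lit 14) (nat_lit 2) (.n (nat_lit 15) (nat_lit 1) (.n (nat_lit 16) (nat_lit 1) (.n (nat_lit 17) (nat_lit 2) (.p (nat_lit 18) (nat_lit 4) (.n (nat_lit 19) (nat_lit 6) (.n (nat_lit 20) (nat_lit 1) (.p (nat_lit 21) (nat_lit 1) (.p (nat_lit 23) (nat_lit 4) (.n (nat_lit 24) (nat_lit 1) (.p (nat_lit 25) (nat_lit 1) (.n (nat_lit 26) (nat_lit 2) (.p (nat_lit 29) (nat_lit 3) (.n (nat_lit 33) (nat_lit 2) (.p (nat_lit 34) (nat_lit 6) (.n (nat_lit 36) (nat_lit 1) (.n (nat_lit 37) (nat_lit 9) (.p (nat_lit 38) (nat_lit 2) (.n (nat_lit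 39) (nat_lit 2) (.p (nat_lit 40) (nat_lit 1) (.p (nat_lit 41) (nat_lit 1) (.p (nat_lit 44) (nat_lit 1) (.n (nat_lit 45) (nat_lit 3) (.n (nat_lit 46) (nat_lit 3) (.n (nat_lit 47) (nat_lit 2) (.n (nat_lit 50) (nat_lit 1) (.p (nat_lit 55) (nat_lit 1) (.n (nat_lit 61) (nat_lit 1) (.p (nat_lit 66) (nat_lit 1) (.n (nat_lit 231) (nat_lit 1) (.n (nat_lit 303) (nat_lit 3) (.p (nat_lit 307) (nat_lit 1) (.p (nat_lit 308) (nat_lit 1) (.p (nat_lit 310) (nat_lit 1) (.n (nat_lit 311) (nat_lit 1) (.n (nat_lit 313) (nat_lit 2) (.p (nat_lit 320) (nat_lit 1) (.p (nat_lit 326) (nat_lit 1) (.p (nat_lit 327) (nat_lit 1) (.p (nat_lit 328) (nat_lit 1) (.n (nat_lit 329) (nat_lit 1) (.p (nat_lit 336) (nat_lit 1) (.p (nat_lit 340) (nat_lit 1) (.n (nat_lit 344) (nat_lit 1) (.n (nat_lit 346) (nat_lit 1) (.n (nat_lit 349) (nat_lit 1) (.n (nat_lit 351) (nat_lit 2) .z))))))))))))))))))))))))))))))))))))))))))))))))))))))))))))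 (.u (nat_lit 2) (.p (nat_lit 352) (nat_lit 1) (.n (nat_lit 353) (nat_lit 2) (.p (nat_lit 355) (nat_lit 1) (.n (nat_lit 357) (nat_lit 1) (.n (nat_lit 358) (nat_lit 2) (.n (nat_lit 360) (nat_lit 2) (.n (nat_lit 361) (nat_lit 2) (.p (nat_lit 362) (nat_lit 2) (.n (nat_lit 364) (nat_lit 1) (.n (nat_lit 367) (nat_lit 1) (.p (nat_lit 369) (nat_lit 1) (.n (nat_lit 371) (nat_lit 1) (.p (nat_lit 372) (nat_lit 1) (.n (nat_lit 383) (nat_lit 1) .z)))))))))))))) .nil)))))))))))))))))))))))))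

noncomputable def dC2a_i46 : IL := (.e true (nat_lit 2) (nat_lit 253) (nat_lit 1) (nat_lit 17) (.e false (nat_lit 2) (nat_lit 255) (nat_lit 1) (nat_lit 17) (.e true (nat_lit 3) (nat_lit 258) (nat_lit 1) (nat_lit 17) (.e false (nat_lit 3) (nat_lit 260) (nat_lit 1) (nat_lit 17) (.e false (nat_lit 1) (nat_lit 264) (nat_lit 1) (nat_lit 17) (.e true (nat_lit 1) (nat_lit 267) (nat_lit 1) (nat_lit 17) (.e false (nat_lit 1) (nat_lit 275) (nat_lit 1) (nat_lit 17) (.e false (nat_lit 1) (nat_lit 279) (nat_lit 1) (nat_lit 17) (.e false (nat_lit 1) (nat_lit 288) (nat_lit 1) (nat_lit 17) (.e false (nat_lit 2) (nat_lit 252) (nat_lit 1) (nat_lit 17) (.e true (nat_lit 1) (nat_lit 254) (nat_lit 1) (nat_lit 17) (.e true (nat_lit 1) (nat_lit 256) (nat_lit 1) (nat_lit 17) (.e true (nat_lit 1) (nat_lit 261) (nat_lit 1) (nat_lit 17) (.e true (nat_lit 1) (nat_lit 263) (nat_lit 1) (nat_lit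 17) (.e false (nat_lit 1) (nat_lit 265) (nat_lit 1) (nat_lit 17) (.e false (nat_lit 3) (nat_lit 272) (nat_lit 1) (nat_lit 17) (.e true (nat_lit 3) (nat_lit 274) (nat_lit 1) (nat_lit 17) (.e false (nat_lit 2) (nat_lit 286) (nat_lit 1) (nat_lit 17) (.e true (nat_lit 3) (nat_lit 81) (nat_lit 14) (nat_lit 7) (.e true (nat_lit 3) (nat_lit 205) (nat_lit 2) (nat_lit 16) (.e false (nat_lit 3) (nat_lit 206) (nat_lit 2) (nat_lit 16) (.e true (nat_lit 3) (nat_lit 207) (nat_lit 2) (nat_lit 16) (.e false (nat_lit 3) (nat_lit 209) (nat_lit 2) (nat_lit 16) (.e true (nat_lit 2) (nat_lit 214) (nat_lit 2) (nat_lit 16) (.e false (nat_lit 2) (nat_lit 216) (nat_lit 2) (nat_lit 16) dC2a_i45)))))))))))))))))))))))))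

noncomputable def dC2a_i47 : IL := (.e true (nat_lit 1) (nat_lit 263) (nat_lit 1) (nat_lit 17) (.e true (nat_lit 3) (nat_lit 264) (nat_lit 1) (nat_lit 17) (.e false (nat_lit 3) (nat_lit 265) (nat_lit 1) (nat_lit 17) (.e false (nat_lit 3) (nat_lit 266) (nat_lit 1) (nat_lit 17) (.e true (nat_lit 2) (nat_lit 267) (nat_lit 1) (nat_lit 17) (.e false (nat_lit 3) (nat_lit 269) (nat_lit 1) (nat_lit 17) (.e true (nat_lit 3) (nat_lit 270) (nat_lit 1) (nat_lit 17) (.e false (nat_lit 3) (nat_lit 273) (nat_lit 1) (nat_lit 17) (.e false (nat_lit 2) (nat_lit 274) (nat_lit 1) (nat_lit 17) (.e false (nat_lit 2) (nat_lit 275) (nat_lit 1) (nat_lit 17) (.e false (nat_lit 1) (nat_lit 278) (nat_lit 1) (nat_lit 17) (.e false (nat_lit 1) (nat_lit 279) (nat_lit 1) (nat_lit 17) (.e true (nat_lit 3) (nat_lit 283) (nat_lit 1) (nat_lit 17) (.e false (nat_lit 3) (nat_lit 284) (nat_lit 1) (nat_lit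 17) (.e true (nat_lit 2) (nat_lit 285) (nat_lit 1) (nat_lit 17) (.e false (nat_lit 3) (nat_lit 286) (nat_lit 1) (nat_lit 17) (.e false (nat_lit 1) (nat_lit 287) (nat_lit 1) (nat_lit 17) (.e false (nat_lit 1) (nat_lit 288) (nat_lit 1) (nat_lit 17) (.e false (nat_lit 2) (nat_lit 253) (nat_lit 1) (nat_lit 17) (.e false (nat_lit 1) (nat_lit 260) (nat_lit 1) (nat_lit 17) (.e true (nat_lit 2) (nat_lit 277) (nat_lit 1) (nat_lit 17) (.e false (nat_lit 3) (nat_lit 183) (nat_lit 4) (nat_lit 14) (.e true (nat_lit 3) (nat_lit 39) (nat_lit 35) (nat_lit 0) (.u (nat_lit 2) (.n (nat_lit 0) (nat_lit 1) (.p (nat_lit 1) (nat_lit 4) (.n (nat_lit 2) (nat_lit 4) (.n (nat_lit 3) (nat_lit 1) (.p (nat_lit 5) (nat_lit 3) (.p (nat_lit 6) (nat_lit 3) (.n (nat_lit 7) (nat_lit 3) (.n (nat_lit 8) (nat_lit 2) (.p (nat_lit 9) (nat_lit 2) (.p (nat_lit 11) (nat_lit 3) (.n (nat_lit 12) (nat_lit 1) (.p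 (nat_lit 14) (nat_lit 2) (.p (nat_lit 16) (nat_lit 1) (.n (nat_lit 19) (nat_lit 1) (.p (nat_lit 20) (nat_lit 3) (.n (nat_lit 21) (nat_lit 2) (.p (nat_lit 22) (nat_lit 3) (.p (nat_lit 23) (nat_lit 3) (.n (nat_lit 24) (nat_lit 1) (.p (nat_lit 25) (nat_lit 3) (.p (nat_lit 27) (nat_lit 3) (.p (nat_lit 28) (nat_lit 5) (.n (nat_lit 29) (nat_lit 1) (.p (nat_lit 31) (nat_lit 1) (.n (nat_lit 32) (nat_lit 6) (.n (nat_lit 33) (nat_lit 1) (.n (nat_lit 35) (nat_lit 2) (.n (nat_lit 37) (nat_lit 6) (.p (nat_lit 38) (nat_lit 1) (.n (nat_lit 39) (nat_lit 3) (.n (nat_lit 40) (nat_lit 2) (.n (nat_lit 41) (nat_lit 2) (.n (nat_lit 42) (nat_lit 2) (.n (nat_lit 44) (nat_lit 1) (.p (nat_lit 45) (nat_lit 1) (.p (nat_lit 46) (nat_lit 4) (.n (nat_lit 47) (nat_lit 1) (.p (nat_lit 48) (nat_lit 3) (.p (nat_lit 51) (nat_lit 2) (.p (nat_lit 53) (nat_lit 1) (.p (nat_lit 69) (nat_lit 1) (.n (nat_lit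 213) (nat_lit 1) (.p (nat_lit 214) (nat_lit 1) (.p (nat_lit 215) (nat_lit 1) (.n (nat_lit 217) (nat_lit 2) (.p (nat_lit 219) (nat_lit 1) (.p (nat_lit 220) (nat_lit 2) (.n (nat_lit 221) (nat_lit 1) (.n (nat_lit 222) (nat_lit 2) (.p (nat_lit 223) (nat_lit 2) (.p (nat_lit 224) (nat_lit 1) (.n (nat_lit 226) (nat_lit 1) (.n (nat_lit 227) (nat_lit 2) (.n (nat_lit 228) (nat_lit 1) (.n (nat_lit 229) (nat_lit 2) (.n (nat_lit 230) (nat_lit 2) (.n (nat_lit 231) (nat_lit 1) (.p (nat_lit 233) (nat_lit 1) (.p (nat_lit 234) (nat_lit 1) (.p (nat_lit 237) (nat_lit 2) .z)))))))))))))))))))))))))))))))))))))))))))))))))))))))))))) (.u (nat_lit 2) (.p (nat_lit 238) (nat_lit 2) (.n (nat_lit 350) (nat_lit 1) (.p (nat_lit 351) (nat_lit 1) (.n (nat_lit 354) (nat_lit 2) (.n (nat_lit 355) (nat_lit 1) (.p (nat_lit 356) (nat_lit 1) (.n (nat_lit 357) (nat_lit 2) (.n (nat_lit 358) (nat_lit 1) (.n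 (nat_lit 359) (nat_lit 2) (.n (nat_lit 360) (nat_lit 1) (.p (nat_lit 361) (nat_lit 3) (.p (nat_lit 362) (nat_lit 1) (.n (nat_lit 363) (nat_lit 3) (.n (nat_lit 364) (nat_lit 2) (.n (nat_lit 366) (nat_lit 1) (.n (nat_lit 369) (nat_lit 1) (.n (nat_lit 370) (nat_lit 3) (.p (nat_lit 374) (nat_lit 2) (.n (nat_lit 381) (nat_lit 1) .z))))))))))))))))))) .nil)))))))))))))))))))))))))

noncomputable def dC2a_i48 : IL := (.e false (nat_lit 3) (nat_lit 108) (nat_lit 7) (nat_lit 11) (.e true (nat_lit 1) (nat_lit 110) (nat_lit 7) (nat_lit 11) (.e true (nat_lit 2) (nat_lit 112) (nat_lit 7) (nat_lit 11) (.e false (nat_lit 1) (nat_lit 113) (nat_lit 7) (nat_lit 11) (.e false (nat_lit 2) (nat_lit 114) (nat_lit 7) (nat_lit 11) (.e true (nat_lit 1) (nat_lit 115) (nat_lit 7) (nat_lit 11) (.e false (nat_lit 1) (nat_lit 116) (nat_lit 7) (nat_lit 11) (.e true (nat_lit 2) (nat_lit 117) (nat_lit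 7) (nat_lit 11) (.e false (nat_lit 2) (nat_lit 119) (nat_lit 7) (nat_lit 11) (.e true (nat_lit 1) (nat_lit 120) (nat_lit 7) (nat_lit 11) (.e false (nat_lit 2) (nat_lit 121) (nat_lit 7) (nat_lit 11) (.e true (nat_lit 1) (nat_lit 122) (nat_lit 7) (nat_lit 11) (.e true (nat_lit 1) (nat_lit 123) (nat_lit 7) (nat_lit 11) (.e false (nat_lit 2) (nat_lit 124) (nat_lit 7) (nat_lit 11) (.e false (nat_lit 3) (nat_lit 126) (nat_lit 7) (nat_lit 11) (.e false (nat_lit 3) (nat_lit 127) (nat_lit 7) (nat_lit 11) (.e false (nat_lit 1) (nat_lit 130) (nat_lit 7) (nat_lit 11) (.e false (nat_lit 1) (nat_lit 131) (nat_lit 7) (nat_lit 11) (.e true (nat_lit 1) (nat_lit 252) (nat_lit 1) (nat_lit 17) (.e false (nat_lit 1) (nat_lit 254) (nat_lit 1) (nat_lit 17) (.e false (nat_lit 2) (nat_lit 255) (nat_lit 1) (nat_lit 17) (.e false (nat_lit 2) (nat_lit 257) (nat_lit 1) (nat_lit 17) (.e false (nat_lit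 2) (nat_lit 259) (nat_lit 1) (nat_lit 17) (.e false (nat_lit 2) (nat_lit 261) (nat_lit 1) (nat_lit 17) (.e false (nat_lit 2) (nat_lit 262) (nat_lit 1) (nat_lit 17) dC2a_i47)))))))))))))))))))))))))

noncomputable def dC2a_i49 : IL := (.e false (nat_lit 1) (nat_lit 273) (nat_lit 1) (nat_lit 17) (.e true (nat_lit 3) (nat_lit 275) (nat_lit 1) (nat_lit 17) (.e false (nat_lit 1) (nat_lit 276) (nat_lit 1) (nat_lit 17) (.e false (nat_lit 3) (nat_lit 277) (nat_lit 1) (nat_lit 17) (.e true (nat_lit 2) (nat_lit 279) (nat_lit 1) (nat_lit 17) (.e true (nat_lit 1) (nat_lit 283) (nat_lit 1) (nat_lit 17) (.e false (nat_lit 3) (nat_lit 285) (nat_lit 1) (nat_lit 17) (.e true (nat_lit 2) (nat_lit 255) (nat_lit 1) (nat_lit 17) (.e true (nat_lit 3) (nat_lit 269) (nat_lit 1) (nat_lit 17) (.e true (nat_lit 1) (nat_lit 252) (nat_lit 1) (nat_lit 17) (.e true (nat_lit 2) (nat_lit 254) (nat_lit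 1) (nat_lit 17) (.e false (nat_lit 3) (nat_lit 257) (nat_lit 1) (nat_lit 17) (.e false (nat_lit 2) (nat_lit 263) (nat_lit 1) (nat_lit 17) (.e true (nat_lit 3) (nat_lit 280) (nat_lit 1) (nat_lit 17) (.e true (nat_lit 2) (nat_lit 286) (nat_lit 1) (nat_lit 17) (.e false (nat_lit 1) (nat_lit 258) (nat_lit 1) (nat_lit 17) (.e false (nat_lit 2) (nat_lit 288) (nat_lit 1) (nat_lit 17) (.e false (nat_lit 3) (nat_lit 265) (nat_lit 1) (nat_lit 17) (.e true (nat_lit 2) (nat_lit 253) (nat_lit 1) (nat_lit 17) (.e false (nat_lit 2) (nat_lit 256) (nat_lit 1) (nat_lit 17) (.e true (nat_lit 2) (nat_lit 278) (nat_lit 1) (nat_lit 17) (.e true (nat_lit 2) (nat_lit 287) (nat_lit 1) (nat_lit 17) (.e false (nat_lit 3) (nat_lit 274) (nat_lit 1) (nat_lit 17) (.u (nat_lit 2) (.p (nat_lit 0) (nat_lit 1) (.n (nat_lit 1) (nat_lit 2) (.n (nat_lit 3) (nat_lit 1) (.p (nat_lit 4) (nat_lit 1) (.p (nat_lit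 5) (nat_lit 1) (.p (nat_lit 7) (nat_lit 1) (.n (nat_lit 8) (nat_lit 2) (.p (nat_lit 9) (nat_lit 1) (.p (nat_lit 11) (nat_lit 3) (.p (nat_lit 12) (nat_lit 2) (.n (nat_lit 14) (nat_lit 1) (.n (nat_lit 15) (nat_lit 4) (.p (nat_lit 16) (nat_lit 1) (.n (nat_lit 17) (nat_lit 1) (.p (nat_lit 18) (nat_lit 1) (.p (nat_lit 19) (nat_lit 1) (.n (nat_lit 20) (nat_lit 1) (.n (nat_lit 21) (nat_lit 1) (.p (nat_lit 22) (nat_lit 1) (.n (nat_lit 24) (nat_lit 2) (.p (nat_lit 25) (nat_lit 2) (.n (nat_lit 26) (nat_lit 2) (.n (nat_lit 27) (nat_lit 1) (.n (nat_lit 29) (nat_lit 1) (.n (nat_lit 31) (nat_lit 3) (.p (nat_lit 32) (nat_lit 1) (.n (nat_lit 34) (nat_lit 2) (.p (nat_lit 35) (nat_lit 1) (.p (nat_lit 36) (nat_lit 4) (.n (nat_lit 37) (nat_lit 1) (.p (nat_lit 39) (nat_lit 1) (.n (nat_lit 40) (nat_lit 3) (.n (nat_lit 42) (nat_lit 1) (.p (nat_lit 45) (nat_lit 1) (.p (nat_lit 46) (nat_lit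 1) (.p (nat_lit 47) (nat_lit 2) (.p (nat_lit 48) (nat_lit 1) (.p (nat_lit 349) (nat_lit 2) (.p (nat_lit 351) (nat_lit 2) (.p (nat_lit 352) (nat_lit 2) (.p (nat_lit 354) (nat_lit 2) (.p (nat_lit 356) (nat_lit 3) (.n (nat_lit 357) (nat_lit 1) (.p (nat_lit 358) (nat_lit 2) (.p (nat_lit 359) (nat_lit 3) (.p (nat_lit 360) (nat_lit 2) (.p (nat_lit 361) (nat_lit 4) (.n (nat_lit 362) (nat_lit 2) (.p (nat_lit 363) (nat_lit 1) (.n (nat_lit 364) (nat_lit 2) (.n (nat_lit 365) (nat_lit 1) (.n (nat_lit 366) (nat_lit 2) (.p (nat_lit 368) (nat_lit 1) (.n (nat_lit 369) (nat_lit 2) (.p (nat_lit 370) (nat_lit 1) (.n (nat_lit 371) (nat_lit 1) (.p (nat_lit 374) (nat_lit 1) (.p (nat_lit 376) (nat_lit 3) (.p (nat_lit 377) (nat_lit 1) (.n (nat_lit 378) (nat_lit 1) .z)))))))))))))))))))))))))))))))))))))))))))))))))))))))))))) (.u (nat_lit 2) (.n (nat_lit 382) (nat_lit 1) (.p (nat_lit 383) (nat_lit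 1) (.n (nat_lit 385) (nat_lit 1) (.p (nat_lit 386) (nat_lit 1) (.p (nat_lit 387) (nat_lit 1) (.n (nat_lit 394) (nat_lit 1) .z)))))) .nil)))))))))))))))))))))))))

noncomputable def dC2a_i50 : IL := (.e true (nat_lit 1) (nat_lit 65) (nat_lit 18) (nat_lit 5) (.e false (nat_lit 1) (nat_lit 66) (nat_lit 18) (nat_lit 5) (.e false (nat_lit 1) (nat_lit 73) (nat_lit 18) (nat_lit 5) (.e true (nat_lit 1) (nat_lit 289) (nat_lit 0) (nat_lit 18) (.e true (nat_lit 2) (nat_lit 290) (nat_lit 0) (nat_lit 18) (.e true (nat_lit 2) (nat_lit 291) (nat_lit 0) (nat_lit 18) (.e false (nat_lit 2) (nat_lit 292) (nat_lit 0) (nat_lit 18) (.e false (nat_lit 2) (nat_lit 293) (nat_lit 0) (nat_lit 18) (.e true (nat_lit 1) (nat_lit 294) (nat_lit 0) (nat_lit 18) (.e false (nat_lit 2) (nat_lit 296) (nat_lit 0) (nat_lit 18) (.e false (nat_lit 3) (nat_lit 297) (nat_lit 0) (nat_lit 18) (.e true (nat_lit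 1) (nat_lit 298) (nat_lit 0) (nat_lit 18) (.e false (nat_lit 1) (nat_lit 300) (nat_lit 0) (nat_lit 18) (.e true (nat_lit 3) (nat_lit 301) (nat_lit 0) (nat_lit 18) (.e false (nat_lit 1) (nat_lit 299) (nat_lit 0) (nat_lit 18) (.e false (nat_lit 2) (nat_lit 303) (nat_lit 0) (nat_lit 18) (.e true (nat_lit 3) (nat_lit 304) (nat_lit 0) (nat_lit 18) (.e false (nat_lit 3) (nat_lit 259) (nat_lit 1) (nat_lit 17) (.e true (nat_lit 3) (nat_lit 260) (nat_lit 1) (nat_lit 17) (.e false (nat_lit 2) (nat_lit 261) (nat_lit 1) (nat_lit 17) (.e true (nat_lit 2) (nat_lit 262) (nat_lit 1) (nat_lit 17) (.e true (nat_lit 1) (nat_lit 264) (nat_lit 1) (nat_lit 17) (.e false (nat_lit 1) (nat_lit 267) (nat_lit 1) (nat_lit 17) (.e false (nat_lit 2) (nat_lit 270) (nat_lit 1) (nat_lit 17) (.e true (nat_lit 1) (nat_lit 271) (nat_lit 1) (nat_lit 17) dC2a_i49)))))))))))))))))))))))))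

noncomputable def dC2a_i51 : IL := (.e false (nat_lit 1) (nat_lit 232) (nat_lit 2) (nat_lit 16) (.e false (nat_lit 3) (nat_lit 239) (nat_lit 2) (nat_lit 16) (.e false (nat_lit 1) (nat_lit 242) (nat_lit 2) (nat_lit 16) (.e false (nat_lit 2) (nat_lit 243) (nat_lit 2) (nat_lit 16) (.e true (nat_lit 3) (nat_lit 245) (nat_lit 2) (nat_lit 16) (.e false (nat_lit 2) (nat_lit 247) (nat_lit 2) (nat_lit 16) (.e false (nat_lit 2) (nat_lit 248) (nat_lit 2) (nat_lit 16) (.e true (nat_lit 3) (nat_lit 249) (nat_lit 2) (nat_lit 16) (.e false (nat_lit 3) (nat_lit 250) (nat_lit 2) (nat_lit 16) (.e false (nat_lit 2) (nat_lit 251) (nat_lit 2) (nat_lit 16) (.e false (nat_lit 3) (nat_lit 95) (nat_lit 12) (nat_lit 8) (.e false (nat_lit 2) (nat_lit 46) (nat_lit 24) (nat_lit 2) (.e true (nat_lit 2) (nat_lit 46) (nat_lit 26) (nat_lit 2) (.e false (nat_lit 2) (nat_lit 46) (nat_lit 28) (nat_lit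 2) (.e false (nat_lit 2) (nat_lit 46) (nat_lit 29) (nat_lit 2) (.e true (nat_lit 1) (nat_lit 46) (nat_lit 27) (nat_lit 2) (.e false (nat_lit 2) (nat_lit 166) (nat_lit 5) (nat_lit 13) (.e true (nat_lit 1) (nat_lit 205) (nat_lit 2) (nat_lit 16) (.e true (nat_lit 3) (nat_lit 207) (nat_lit 2) (nat_lit 16) (.e true (nat_lit 3) (nat_lit 224) (nat_lit 2) (nat_lit 16) (.e true (nat_lit 1) (nat_lit 225) (nat_lit 2) (nat_lit 16) (.e true (nat_lit 2) (nat_lit 234) (nat_lit 2) (nat_lit 16) (.e false (nat_lit 1) (nat_lit 244) (nat_lit 2) (nat_lit 16) (.u (nat_lit 2) (.n (nat_lit 1) (nat_lit 3) (.n (nat_lit 2) (nat_lit 6) (.n (nat_lit 4) (nat_lit 4) (.n (nat_lit 5) (nat_lit 2) (.n (nat_lit 6) (nat_lit 7) (.n (nat_lit 7) (nat_lit 9) (.n (nat_lit 8) (nat_lit 11) (.p (nat_lit 9) (nat_lit 7) (.n (nat_lit 10) (nat_lit 3) (.n (nat_lit 11) (nat_lit 6) (.n (nat_lit 12) (nat_lit 3) (.p (nat_lit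 14) (nat_lit 2) (.n (nat_lit 15) (nat_lit 3) (.n (nat_lit 16) (nat_lit 5) (.n (nat_lit 17) (nat_lit 2) (.p (nat_lit 18) (nat_lit 2) (.p (nat_lit 20) (nat_lit 4) (.n (nat_lit 21) (nat_lit 8) (.p (nat_lit 22) (nat_lit 9) (.p (nat_lit 23) (nat_lit 3) (.n (nat_lit 24) (nat_lit 5) (.n (nat_lit 25) (nat_lit 4) (.n (nat_lit 26) (nat_lit 4) (.p (nat_lit 27) (nat_lit 9) (.p (nat_lit 28) (nat_lit 8) (.n (nat_lit 29) (nat_lit 1) (.p (nat_lit 31) (nat_lit 1) (.n (nat_lit 33) (nat_lit 8) (.n (nat_lit 34) (nat_lit 5) (.n (nat_lit 35) (nat_lit 4) (.p (nat_lit 36) (nat_lit 4) (.n (nat_lit 37) (nat_lit 3) (.p (nat_lit 38) (nat_lit 6) (.p (nat_lit 40) (nat_lit 1) (.p (nat_lit 42) (nat_lit 3) (.p (nat_lit 44) (nat_lit 1) (.p (nat_lit 45) (nat_lit 1) (.n (nat_lit 46) (nat_lit 1) (.n (nat_lit 47) (nat_lit 2) (.p (nat_lit 48) (nat_lit 3) (.p (nat_lit 50) (nat_lit 1) (.n (nat_lit 53) (nat_lit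 1) (.n (nat_lit 125) (nat_lit 1) (.p (nat_lit 126) (nat_lit 1) (.n (nat_lit 127) (nat_lit 1) (.p (nat_lit 132) (nat_lit 1) (.p (nat_lit 134) (nat_lit 1) (.p (nat_lit 271) (nat_lit 1) (.p (nat_lit 302) (nat_lit 1) (.p (nat_lit 303) (nat_lit 1) (.p (nat_lit 304) (nat_lit 1) (.n (nat_lit 305) (nat_lit 1) (.n (nat_lit 306) (nat_lit 1) (.p (nat_lit 307) (nat_lit 1) (.n (nat_lit 310) (nat_lit 1) (.p (nat_lit 311) (nat_lit 1) (.n (nat_lit 312) (nat_lit 1) (.n (nat_lit 313) (nat_lit 1) (.n (nat_lit 315) (nat_lit 1) (.p (nat_lit 317) (nat_lit 1) .z)))))))))))))))))))))))))))))))))))))))))))))))))))))))))))) (.u (nat_lit 2) (.n (nat_lit 318) (nat_lit 1) (.p (nat_lit 321) (nat_lit 1) (.n (nat_lit 322) (nat_lit 1) (.p (nat_lit 324) (nat_lit 1) (.n (nat_lit 326) (nat_lit 2) (.n (nat_lit 328) (nat_lit 2) (.p (nat_lit 329) (nat_lit 1) (.n (nat_lit 336) (nat_lit 1) (.p (nat_lit 339)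 (nat_lit 1) (.p (nat_lit 341) (nat_lit 1) (.n (nat_lit 342) (nat_lit 1) (.n (nat_lit 344) (nat_lit 2) (.n (nat_lit 346) (nat_lit 1) (.n (nat_lit 347) (nat_lit 1) (.n (nat_lit 352) (nat_lit 7) (.n (nat_lit 354) (nat_lit 5) (.p (nat_lit 355) (nat_lit 2) (.n (nat_lit 356) (nat_lit 9) (.p (nat_lit 357) (nat_lit 4) (.n (nat_lit 358) (nat_lit 4) (.n (nat_lit 359) (nat_lit 5) (.n (nat_lit 360) (nat_lit 5) (.n (nat_lit 361) (nat_lit 6) (.n (nat_lit 362) (nat_lit 1) (.n (nat_lit 363) (nat_lit 1) (.p (nat_lit 364) (nat_lit 4) (.p (nat_lit 365) (nat_lit 2) (.p (nat_lit 366) (nat_lit 5) (.n (nat_lit 367) (nat_lit 1) (.n (nat_lit 368) (nat_lit 2) (.p (nat_lit 369) (nat_lit 5) (.n (nat_lit 370) (nat_lit 2) (.p (nat_lit 371) (nat_lit 3) (.n (nat_lit 372) (nat_lit 2) (.p (nat_lit 373) (nat_lit 1) (.n (nat_lit 374) (nat_lit 2) (.n (nat_lit 376) (nat_lit 5) (.p (nat_lit 378) (nat_lit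 2) (.p (nat_lit 380) (nat_lit 3) (.n (nat_lit 381) (nat_lit 1) (.n (nat_lit 382) (nat_lit 2) (.n (nat_lit 383) (nat_lit 3) (.p (nat_lit 384) (nat_lit 1) (.p (nat_lit 385) (nat_lit 3) (.p (nat_lit 386) (nat_lit 5) (.n (nat_lit 387) (nat_lit 3) (.n (nat_lit 388) (nat_lit 3) (.n (nat_lit 390) (nat_lit 2) (.n (nat_lit 391) (nat_lit 2) (.n (nat_lit 392) (nat_lit 1) (.n (nat_lit 393) (nat_lit 6) (.n (nat_lit 394) (nat_lit 1) (.p (nat_lit 395) (nat_lit 6) (.n (nat_lit 397) (nat_lit 3) (.p (nat_lit 398) (nat_lit 1) (.p (nat_lit 399) (nat_lit 3) (.p (nat_lit 400) (nat_lit 1) .z))))))))))))))))))))))))))))))))))))))))))))))))))))))))) .nil)))))))))))))))))))))))))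

noncomputable def dC2a_i52 : IL := (.e true (nat_lit 3) (nat_lit 164) (nat_lit 5) (nat_lit 13) (.e true (nat_lit 1) (nat_lit 167) (nat_lit 5) (nat_lit 13) (.e true (nat_lit 2) (nat_lit 39) (nat_lit 33) (nat_lit 0) (.e false (nat_lit 2) (nat_lit 39) (nat_lit 34) (nat_lit 0) (.e true (nat_lit 1) (nat_lit 206) (nat_lit 2) (nat_lit 16) (.e true (nat_lit 1) (nat_lit 208) (nat_lit 2) (nat_lit 16) (.e false (nat_lit 3) (nat_lit 209) (nat_lit 2) (nat_lit 16) (.e false (nat_lit 1) (nat_lit 210) (nat_lit 2) (nat_lit 16) (.e true (nat_lit 2) (nat_lit 211) (nat_lit 2) (nat_lit 16) (.e false (nat_lit 2) (nat_lit 212) (nat_lit 2) (nat_lit 16) (.e false (nat_lit 1) (nat_lit 213) (nat_lit 2) (nat_lit 16) (.e true (nat_lit 3) (nat_lit 214) (nat_lit 2) (nat_lit 16) (.e true (nat_lit 3) (nat_lit 215) (nat_lit 2) (nat_lit 16) (.e false (nat_lit 1) (nat_lit 216) (nat_lit 2) (nat_lit 16)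 (.e false (nat_lit 2) (nat_lit 217) (nat_lit 2) (nat_lit 16) (.e true (nat_lit 1) (nat_lit 218) (nat_lit 2) (nat_lit 16) (.e false (nat_lit 2) (nat_lit 219) (nat_lit 2) (nat_lit 16) (.e true (nat_lit 1) (nat_lit 220) (nat_lit 2) (nat_lit 16) (.e true (nat_lit 1) (nat_lit 221) (nat_lit 2) (nat_lit 16) (.e true (nat_lit 2) (nat_lit 222) (nat_lit 2) (nat_lit 16) (.e false (nat_lit 2) (nat_lit 226) (nat_lit 2) (nat_lit 16) (.e false (nat_lit 1) (nat_lit 227) (nat_lit 2) (nat_lit 16) (.e true (nat_lit 2) (nat_lit 228) (nat_lit 2) (nat_lit 16) (.e true (nat_lit 2) (nat_lit 229) (nat_lit 2) (nat_lit 16) (.e false (nat_lit 2) (nat_lit 231) (nat_lit 2) (nat_lit 16) dC2a_i51)))))))))))))))))))))))))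

noncomputable def dC2a_i53 : IL := (.e true (nat_lit 2) (nat_lit 266) (nat_lit 1) (nat_lit 17) (.e true (nat_lit 3) (nat_lit 267) (nat_lit 1) (nat_lit 17) (.e true (nat_lit 2) (nat_lit 270) (nat_lit 1) (nat_lit 17) (.e true (nat_lit 2) (nat_lit 271) (nat_lit 1) (nat_lit 17) (.e true (nat_lit 2) (nat_lit 272) (nat_lit 1) (nat_lit 17) (.e false (nat_lit 1) (nat_lit 273) (nat_lit 1) (nat_lit 17) (.e true (nat_lit 3) (nat_lit 275) (nat_lit 1) (nat_lit 17) (.e true (nat_lit 1) (nat_lit 276) (nat_lit 1) (nat_lit 17) (.e false (nat_lit 2) (nat_lit 283) (nat_lit 1) (nat_lit 17) (.e false (nat_lit 1) (nat_lit 285) (nat_lit 1) (nat_lit 17) (.e true (nat_lit 3) (nat_lit 255) (nat_lit 1) (nat_lit 17) (.e true (nat_lit 1) (nat_lit 269) (nat_lit 1) (nat_lit 17) (.e true (nat_lit 2) (nat_lit 254) (nat_lit 1) (nat_lit 17) (.e true (nat_lit 1) (nat_lit 263) (nat_lit 1) (nat_lit 17)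 (.e false (nat_lit 2) (nat_lit 280) (nat_lit 1) (nat_lit 17) (.e true (nat_lit 2) (nat_lit 258) (nat_lit 1) (nat_lit 17) (.e true (nat_lit 1) (nat_lit 288) (nat_lit 1) (nat_lit 17) (.e false (nat_lit 2) (nat_lit 253) (nat_lit 1) (nat_lit 17) (.e false (nat_lit 3) (nat_lit 256) (nat_lit 1) (nat_lit 17) (.e false (nat_lit 1) (nat_lit 278) (nat_lit 1) (nat_lit 17) (.e true (nat_lit 3) (nat_lit 287) (nat_lit 1) (nat_lit 17) (.e false (nat_lit 2) (nat_lit 274) (nat_lit 1) (nat_lit 17) (.e false (nat_lit 2) (nat_lit 284) (nat_lit 1) (nat_lit 17) (.e true (nat_lit 2) (nat_lit 194) (nat_lit 3) (nat_lit 15) (.e true (nat_lit 1) (nat_lit 303) (nat_lit 0) (nat_lit 18) dC2a_i52)))))))))))))))))))))))))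

noncomputable def dC2a_i54 : IL := (.e true (nat_lit 2) (nat_lit 65) (nat_lit 18) (nat_lit 5) (.e false (nat_lit 2) (nat_lit 72) (nat_lit 18) (nat_lit 5) (.e true (nat_lit 2) (nat_lit 73) (nat_lit 18) (nat_lit 5) (.e false (nat_lit 2) (nat_lit 64) (nat_lit 18) (nat_lit 5) (.e false (nat_lit 2) (nat_lit 61) (nat_lit 19) (nat_lit 5) (.e true (nat_lit 2) (nat_lit 63) (nat_lit 19) (nat_lit 5) (.e false (nat_lit 2) (nat_lit 65) (nat_lit 19) (nat_lit 5) (.e false (nat_lit 2) (nat_lit 66) (nat_lit 19) (nat_lit 5) (.e true (nat_lit 2) (nat_lit 72) (nat_lit 19) (nat_lit 5) (.e true (nat_lit 2) (nat_lit 289) (nat_lit 0) (nat_lit 18) (.e true (nat_lit 1) (nat_lit 290) (nat_lit 0) (nat_lit 18) (.e true (nat_lit 3) (nat_lit 291) (nat_lit 0) (nat_lit 18) (.e false (nat_lit 2) (nat_lit 293) (nat_lit 0) (nat_lit 18) (.e false (nat_lit 3) (nat_lit 294) (nat_lit 0) (nat_lit 18) (.e true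 (nat_lit 1) (nat_lit 295) (nat_lit 0) (nat_lit 18) (.e true (nat_lit 2) (nat_lit 296) (nat_lit 0) (nat_lit 18) (.e false (nat_lit 2) (nat_lit 297) (nat_lit 0) (nat_lit 18) (.e false (nat_lit 1) (nat_lit 298) (nat_lit 0) (nat_lit 18) (.e true (nat_lit 2) (nat_lit 299) (nat_lit 0) (nat_lit 18) (.e true (nat_lit 3) (nat_lit 300) (nat_lit 0) (nat_lit 18) (.e true (nat_lit 2) (nat_lit 304) (nat_lit 0) (nat_lit 18) (.e false (nat_lit 2) (nat_lit 259) (nat_lit 1) (nat_lit 17) (.e true (nat_lit 1) (nat_lit 260) (nat_lit 1) (nat_lit 17) (.e true (nat_lit 2) (nat_lit 261) (nat_lit 1) (nat_lit 17) (.e true (nat_lit 3) (nat_lit 264) (nat_lit 1) (nat_lit 17) dC2a_i53)))))))))))))))))))))))))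

noncomputable def dC2a_i55 : IL := (.s false (nat_lit 1) (nat_lit 42) (nat_lit 1) (nat_lit 1) (nat_lit 1) true (nat_lit 10) true (nat_lit 13) false (nat_lit 5) true (nat_lit 13) true (nat_lit 13) (.e false (nat_lit 1) (nat_lit 86) (nat_lit 4) (nat_lit 10) (.e true (nat_lit 3) (nat_lit 132) (nat_lit 1) (nat_lit 13) (.e true (nat_lit 3) (nat_lit 134) (nat_lit 1) (nat_lit 13) (.e true (nat_lit 1) (nat_lit 135) (nat_lit 1) (nat_lit 13) (.e false (nat_lit 3) (nat_lit 136) (nat_lit 1) (nat_lit 13) (.e true (nat_lit 1) (nat_lit 137) (nat_lit 1) (nat_lit 13) (.e false (nat_lit 1) (nat_lit 141) (nat_lit 1) (nat_lit 13) (.e true (nat_lit 2) (nat_lit 145) (nat_lit 1) (nat_lit 13) (.e false (nat_lit 1) (nat_lit 147) (nat_lit 1) (nat_lit 13) (.e false (nat_lit 2) (nat_lit 149) (nat_lit 1) (nat_lit 13) (.e false (nat_lit 3) (nat_lit 150) (nat_lit 1) (nat_lit 13) (.e true (nat_lit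 2) (nat_lit 151) (nat_lit 1) (nat_lit 13) (.e true (nat_lit 3) (nat_lit 152) (nat_lit 1) (nat_lit 13) (.e true (nat_lit 2) (nat_lit 153) (nat_lit 1) (nat_lit 13) (.e true (nat_lit 1) (nat_lit 154) (nat_lit 1) (nat_lit 13) (.e false (nat_lit 2) (nat_lit 155) (nat_lit 1) (nat_lit 13) (.e true (nat_lit 3) (nat_lit 156) (nat_lit 1) (nat_lit 13) (.e false (nat_lit 2) (nat_lit 157) (nat_lit 1) (nat_lit 13) (.e false (nat_lit 3) (nat_lit 133) (nat_lit 1) (nat_lit 13) (.e false (nat_lit 2) (nat_lit 138) (nat_lit 1) (nat_lit 13) (.e true (nat_lit 3) (nat_lit 139) (nat_lit 1) (nat_lit 13) (.e false (nat_lit 3) (nat_lit 140) (nat_lit 1) (nat_lit 13) (.e false (nat_lit 3) (nat_lit 143) (nat_lit 1) (nat_lit 13) (.u (nat_lit 2) (.n (nat_lit 0) (nat_lit 1) (.p (nat_lit 1) (nat_lit 5) (.n (nat_lit 2) (nat_lit 1) (.p (nat_lit 4) (nat_lit 1) (.p (nat_lit 6) (nat_lit 3) (.p (nat_lit 8)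 (nat_lit 1) (.p (nat_lit 9) (nat_lit 1) (.n (nat_lit 10) (nat_lit 1) (.n (nat_lit 13) (nat_lit 1) (.n (nat_lit 14) (nat_lit 2) (.n (nat_lit 15) (nat_lit 2) (.p (nat_lit 20) (nat_lit 1) (.p (nat_lit 22) (nat_lit 4) (.p (nat_lit 23) (nat_lit 1) (.p (nat_lit 24) (nat_lit 6) (.p (nat_lit 25) (nat_lit 6) (.p (nat_lit 26) (nat_lit 3) (.n (nat_lit 27) (nat_lit 3) (.n (nat_lit 29) (nat_lit 3) (.p (nat_lit 30) (nat_lit 1) (.n (nat_lit 32) (nat_lit 1) (.p (nat_lit 34) (nat_lit 1) (.n (nat_lit 36) (nat_lit 1) (.n (nat_lit 37) (nat_lit 2) (.p (nat_lit 38) (nat_lit 3) (.n (nat_lit 39) (nat_lit 3) (.n (nat_lit 40) (nat_lit 2) (.n (nat_lit 41) (nat_lit 3) (.n (nat_lit 42) (nat_lit 5) (.n (nat_lit 43) (nat_lit 1) (.n (nat_lit 44) (nat_lit 3) (.n (nat_lit 45) (nat_lit 1) (.n (nat_lit 46) (nat_lit 2) .z))))))))))))))))))))))))))))))))) .nil)))))))))))))))))))))))))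

noncomputable def dC2a_i56 : IL := (.e false (nat_lit 1) (nat_lit 180) (nat_lit 1) (nat_lit 12) (.e true (nat_lit 3) (nat_lit 132) (nat_lit 2) (nat_lit 11) (.e false (nat_lit 3) (nat_lit 133) (nat_lit 2) (nat_lit 11) (.e true (nat_lit 3) (nat_lit 134) (nat_lit 2) (nat_lit 11) (.e true (nat_lit 1) (nat_lit 135) (nat_lit 2) (nat_lit 11) (.e false (nat_lit 3) (nat_lit 136) (nat_lit 2) (nat_lit 11) (.e true (nat_lit 1) (nat_lit 137) (nat_lit 2) (nat_lit 11) (.e false (nat_lit 2) (nat_lit 138) (nat_lit 2) (nat_lit 11) (.e true (nat_lit 3) (nat_lit 139) (nat_lit 2) (nat_lit 11) (.e false (nat_lit 3) (nat_lit 140) (nat_lit 2) (nat_lit 11) (.e false (nat_lit 1) (nat_lit 141) (nat_lit 2) (nat_lit 11) (.e false (nat_lit 3) (nat_lit 143) (nat_lit 2) (nat_lit 11) (.e true (nat_lit 2) (nat_lit 145) (nat_lit 2) (nat_lit 11) (.e false (nat_lit 1) (nat_lit 147) (nat_lit 2) (nat_lit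 11) (.e false (nat_lit 2) (nat_lit 149) (nat_lit 2) (nat_lit 11) (.e false (nat_lit 3) (nat_lit 150) (nat_lit 2) (nat_lit 11) (.e true (nat_lit 2) (nat_lit 151) (nat_lit 2) (nat_lit 11) (.e true (nat_lit 3) (nat_lit 152) (nat_lit 2) (nat_lit 11) (.e true (nat_lit 2) (nat_lit 153) (nat_lit 2) (nat_lit 11) (.e true (nat_lit 1) (nat_lit 154) (nat_lit 2) (nat_lit 11) (.e false (nat_lit 2) (nat_lit 155) (nat_lit 2) (nat_lit 11) (.e true (nat_lit 3) (nat_lit 156) (nat_lit 2) (nat_lit 11) (.e false (nat_lit 2) (nat_lit 157) (nat_lit 2) (nat_lit 11) (.e true (nat_lit 1) (nat_lit 175) (nat_lit 1) (nat_lit 12) (.u (nat_lit 2) (.n (nat_lit 2) (nat_lit 1) (.p (nat_lit 4) (nat_lit 1) (.n (nat_lit 5) (nat_lit 1) (.n (nat_lit 22) (nat_lit 1) .z)))) .nil)))))))))))))))))))))))))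

noncomputable def dC2a_i57 : IL := (.e true (nat_lit 3) (nat_lit 207) (nat_lit 2) (nat_lit 16) (.e false (nat_lit 2) (nat_lit 211) (nat_lit 2) (nat_lit 16) (.e true (nat_lit 2) (nat_lit 213) (nat_lit 2) (nat_lit 16) (.e true (nat_lit 2) (nat_lit 216) (nat_lit 2) (nat_lit 16) (.e true (nat_lit 3) (nat_lit 217) (nat_lit 2) (nat_lit 16) (.e false (nat_lit 1) (nat_lit 219) (nat_lit 2) (nat_lit 16) (.e true (nat_lit 1) (nat_lit 221) (nat_lit 2) (nat_lit 16) (.e false (nat_lit 1) (nat_lit 229) (nat_lit 2) (nat_lit 16) (.e false (nat_lit 1) (nat_lit 167) (nat_lit 5) (nat_lit 13) (.e true (nat_lit 3) (nat_lit 208) (nat_lit 2) (nat_lit 16) (.e true (nat_lit 2) (nat_lit 209) (nat_lit 2) (nat_lit 16) (.e true (nat_lit 2) (nat_lit 212) (nat_lit 2) (nat_lit 16) (.e false (nat_lit 2) (nat_lit 214) (nat_lit 2) (nat_lit 16) (.e true (nat_lit 3) (nat_lit 215) (nat_lit 2) (nat_lit 16)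 (.e false (nat_lit 2) (nat_lit 231) (nat_lit 2) (nat_lit 16) (.e false (nat_lit 1) (nat_lit 232) (nat_lit 2) (nat_lit 16) (.e false (nat_lit 3) (nat_lit 242) (nat_lit 2) (nat_lit 16) (.e false (nat_lit 1) (nat_lit 243) (nat_lit 2) (nat_lit 16) (.e true (nat_lit 2) (nat_lit 245) (nat_lit 2) (nat_lit 16) (.e false (nat_lit 1) (nat_lit 246) (nat_lit 2) (nat_lit 16) (.e true (nat_lit 1) (nat_lit 247) (nat_lit 2) (nat_lit 16) (.e false (nat_lit 1) (nat_lit 248) (nat_lit 2) (nat_lit 16) (.e true (nat_lit 2) (nat_lit 249) (nat_lit 2) (nat_lit 16) (.e false (nat_lit 1) (nat_lit 251) (nat_lit 2) (nat_lit 16) (.u (nat_lit 2) (.p (nat_lit 1) (nat_lit 4) (.n (nat_lit 2) (nat_lit 6) (.n (nat_lit 6) (nat_lit 1) (.n (nat_lit 7) (nat_lit 2) (.p (nat_lit 8) (nat_lit 1) (.n (nat_lit 10) (nat_lit 1) (.p (nat_lit 12) (nat_lit 1) (.p (nat_lit 17) (nat_lit 1) (.p (nat_lit 18) (nat_lit 1)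 (.p (nat_lit 20) (nat_lit 3) (.p (nat_lit 21) (nat_lit 1) (.n (nat_lit 22) (nat_lit 1) (.n (nat_lit 24) (nat_lit 1) (.p (nat_lit 26) (nat_lit 1) (.p (nat_lit 27) (nat_lit 2) (.n (nat_lit 28) (nat_lit 3) (.n (nat_lit 29) (nat_lit 3) (.n (nat_lit 31) (nat_lit 1) (.p (nat_lit 32) (nat_lit 1) (.p (nat_lit 34) (nat_lit 1) (.p (nat_lit 35) (nat_lit 2) (.p (nat_lit 36) (nat_lit 3) (.n (nat_lit 37) (nat_lit 1) (.p (nat_lit 39) (nat_lit 2) (.n (nat_lit 42) (nat_lit 1) (.p (nat_lit 45) (nat_lit 1) (.n (nat_lit 47) (nat_lit 1) (.p (nat_lit 48) (nat_lit 1) (.p (nat_lit 55) (nat_lit 1) (.p (nat_lit 304) (nat_lit 1) (.n (nat_lit 308) (nat_lit 1) (.p (nat_lit 310) (nat_lit 1) (.n (nat_lit 316) (nat_lit 1) (.p (nat_lit 318) (nat_lit 1) .z)))))))))))))))))))))))))))))))))) .nil)))))))))))))))))))))))))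

noncomputable def dC2a_i58 : IL := (.e false (nat_lit 2) (nat_lit 256) (nat_lit 2) (nat_lit 14) (.e true (nat_lit 3) (nat_lit 257) (nat_lit 2) (nat_lit 14) (.e false (nat_lit 2) (nat_lit 259) (nat_lit 2) (nat_lit 14) (.e true (nat_lit 2) (nat_lit 260) (nat_lit 2) (nat_lit 14) (.e false (nat_lit 1) (nat_lit 261) (nat_lit 2) (nat_lit 14) (.e false (nat_lit 3) (nat_lit 264) (nat_lit 2) (nat_lit 14) (.e false (nat_lit 3) (nat_lit 265) (nat_lit 2) (nat_lit 14) (.e false (nat_lit 2) (nat_lit 267) (nat_lit 2) (nat_lit 14) (.e true (nat_lit 1) (nat_lit 270) (nat_lit 2) (nat_lit 14) (.e true (nat_lit 1) (nat_lit 271) (nat_lit 2) (nat_lit 14) (.e false (nat_lit 2) (nat_lit 272) (nat_lit 2) (nat_lit 14) (.e true (nat_lit 1) (nat_lit 273) (nat_lit 2) (nat_lit 14) (.e false (nat_lit 3) (nat_lit 274) (nat_lit 2) (nat_lit 14) (.e false (nat_lit 1) (nat_lit 275) (nat_lit 2) (nat_lit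 14) (.e false (nat_lit 1) (nat_lit 277) (nat_lit 2) (nat_lit 14) (.e true (nat_lit 1) (nat_lit 91) (nat_lit 16) (nat_lit 5) (.e false (nat_lit 1) (nat_lit 100) (nat_lit 14) (nat_lit 6) (.e false (nat_lit 1) (nat_lit 255) (nat_lit 2) (nat_lit 14) (.e false (nat_lit 2) (nat_lit 266) (nat_lit 2) (nat_lit 14) (.e true (nat_lit 3) (nat_lit 276) (nat_lit 2) (nat_lit 14) (.e true (nat_lit 2) (nat_lit 282) (nat_lit 2) (nat_lit 14) (.e false (nat_lit 3) (nat_lit 283) (nat_lit 2) (nat_lit 14) (.e true (nat_lit 3) (nat_lit 285) (nat_lit 2) (nat_lit 14) (.e false (nat_lit 1) (nat_lit 286) (nat_lit 2) (nat_lit 14) (.u (nat_lit 2) (.n (nat_lit 2) (nat_lit 1) (.p (nat_lit 5) (nat_lit 1) (.p (nat_lit 6) (nat_lit 1) (.p (nat_lit 7) (nat_lit 3) (.p (nat_lit 8) (nat_lit 1) (.n (nat_lit 9) (nat_lit 2) (.n (nat_lit 10) (nat_lit 5) (.n (nat_lit 11) (nat_lit 1) (.n (nat_lit 12) (nat_lit 3)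 (.p (nat_lit 13) (nat_lit 3) (.p (nat_lit 14) (nat_lit 2) (.p (nat_lit 15) (nat_lit 3) (.p (nat_lit 16) (nat_lit 3) (.p (nat_lit 18) (nat_lit 5) (.n (nat_lit 21) (nat_lit 1) (.n (nat_lit 23) (nat_lit 1) (.p (nat_lit 24) (nat_lit 1) (.p (nat_lit 25) (nat_lit 1) (.p (nat_lit 26) (nat_lit 1) (.n (nat_lit 33) (nat_lit 1) (.p (nat_lit 34) (nat_lit 1) (.p (nat_lit 35) (nat_lit 1) (.n (nat_lit 38) (nat_lit 1) (.n (nat_lit 204) (nat_lit 1) (.p (nat_lit 205) (nat_lit 1) (.n (nat_lit 208) (nat_lit 1) (.n (nat_lit 213) (nat_lit 1) (.n (nat_lit 216) (nat_lit 1) (.n (nat_lit 217) (nat_lit 1) (.n (nat_lit 219) (nat_lit 1) (.n (nat_lit 224) (nat_lit 1) (.n (nat_lit 226) (nat_lit 1) .z)))))))))))))))))))))))))))))))) .nil)))))))))))))))))))))))))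

noncomputable def dC2a_c293 : Cm := .mk (nat_lit 1160) (nat_lit 293) (nat_lit 397) (nat_lit 39) (.c (nat_lit 42) (nat_lit 3) (nat_lit 39) (nat_lit 3) (nat_lit 39) (.c (nat_lit 45) (nat_lit 3) (nat_lit 33) (nat_lit 6) (nat_lit 48) (.c (nat_lit 48) (nat_lit 1) (nat_lit 24) (nat_lit 6) (nat_lit 66) (.c (nat_lit 60) (nat_lit 14) (nat_lit 20) (nat_lit 1) (nat_lit 72) (.c (nat_lit 80) (nat_lit 11) (nat_lit 18) (nat_lit 2) (nat_lit 86) (.c (nat_lit 91) (nat_lit 6) (nat_lit 16) (nat_lit 2) (nat_lit 108) (.c (nat_lit 97) (nat_lit 4) (nat_lit 14) (nat_lit 2) (nat_lit 120) (.c (nat_lit 101) (nat_lit 4) (nat_lit 11) (nat_lit 3) (nat_lit 128) (.c (nat_lit 105) (nat_lit 1) (nat_lit 8) (nat_lit 2) (nat_lit 140) (.c (nat_lit 132) (nat_lit 26) (nat_lit 7) (nat_lit 1) (nat_lit 142) (.c (nat_lit 169) (nat_lit 16) (nat_lit 6) (nat_lit 1) (nat_lit 168) (.c (nat_lit 185) (nat_lit 10) (nat_lit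 5) (nat_lit 1) (nat_lit 184) (.c (nat_lit 195) (nat_lit 5) (nat_lit 4) (nat_lit 1) (nat_lit 194) (.c (nat_lit 200) (nat_lit 5) (nat_lit 3) (nat_lit 1) (nat_lit 199) (.c (nat_lit 252) (nat_lit 37) (nat_lit 2) (nat_lit 1) (nat_lit 204) (.c (nat_lit 305) (nat_lit 19) (nat_lit 1) (nat_lit 1) (nat_lit 241) (.c (nat_lit 324) (nat_lit 11) (nat_lit 0) (nat_lit 1) (nat_lit 260) .nil)))))))))))))))))

noncomputable def dC2a_i59 : IL := (.e false (nat_lit 2) (nat_lit 257) (nat_lit 2) (nat_lit 14) (.e false (nat_lit 1) (nat_lit 258) (nat_lit 2) (nat_lit 14) (.e false (nat_lit 3) (nat_lit 261) (nat_lit 2) (nat_lit 14) (.e true (nat_lit 3) (nat_lit 263) (nat_lit 2) (nat_lit 14) (.e false (nat_lit 3) (nat_lit 265) (nat_lit 2) (nat_lit 14) (.e true (nat_lit 2) (nat_lit 269) (nat_lit 2) (nat_lit 14) (.e false (nat_lit 2) (nat_lit 271) (nat_lit 2) (nat_lit 14) (.e true (nat_lit 2) (nat_lit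 272) (nat_lit 2) (nat_lit 14) (.e false (nat_lit 2) (nat_lit 273) (nat_lit 2) (nat_lit 14) (.e true (nat_lit 3) (nat_lit 274) (nat_lit 2) (nat_lit 14) (.e true (nat_lit 2) (nat_lit 275) (nat_lit 2) (nat_lit 14) (.e true (nat_lit 2) (nat_lit 277) (nat_lit 2) (nat_lit 14) (.e true (nat_lit 1) (nat_lit 92) (nat_lit 16) (nat_lit 5) (.e false (nat_lit 1) (nat_lit 100) (nat_lit 15) (nat_lit 6) (.e true (nat_lit 3) (nat_lit 259) (nat_lit 2) (nat_lit 14) (.e false (nat_lit 3) (nat_lit 260) (nat_lit 2) (nat_lit 14) (.e false (nat_lit 1) (nat_lit 262) (nat_lit 2) (nat_lit 14) (.e true (nat_lit 1) (nat_lit 264) (nat_lit 2) (nat_lit 14) (.e true (nat_lit 1) (nat_lit 267) (nat_lit 2) (nat_lit 14) (.e true (nat_lit 1) (nat_lit 279) (nat_lit 2) (nat_lit 14) (.e false (nat_lit 1) (nat_lit 282) (nat_lit 2) (nat_lit 14) (.e true (nat_lit 3) (nat_lit 283) (nat_lit 2) (nat_lit 14) (.e false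 (nat_lit 3) (nat_lit 285) (nat_lit 2) (nat_lit 14) (.e false (nat_lit 1) (nat_lit 288) (nat_lit 2) (nat_lit 14) (.u (nat_lit 2) (.n (nat_lit 1) (nat_lit 1) (.n (nat_lit 2) (nat_lit 1) (.p (nat_lit 4) (nat_lit 3) (.n (nat_lit 5) (nat_lit 3) (.n (nat_lit 7) (nat_lit 1) (.n (nat_lit 8) (nat_lit 2) (.p (nat_lit 10) (nat_lit 3) (.p (nat_lit 12) (nat_lit 2) (.p (nat_lit 13) (nat_lit 3) (.p (nat_lit 14) (nat_lit 1) (.n (nat_lit 15) (nat_lit 2) (.n (nat_lit 16) (nat_lit 2) (.p (nat_lit 17) (nat_lit 2) (.n (nat_lit 18) (nat_lit 3) (.n (nat_lit 19) (nat_lit 5) (.p (nat_lit 21) (nat_lit 1) (.p (nat_lit 23) (nat_lit 6) (.n (nat_lit 24) (nat_lit 4) (.p (nat_lit 27) (nat_lit 1) (.p (nat_lit 29) (nat_lit 1) (.p (nat_lit 33) (nat_lit 1) (.p (nat_lit 34) (nat_lit 2) (.p (nat_lit 35) (nat_lit 3) (.p (nat_lit 38) (nat_lit 2) (.p (nat_lit 215) (nat_lit 1) (.n (nat_lit 217) (nat_lit 1) (.p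 (nat_lit 226) (nat_lit 1) .z))))))))))))))))))))))))))) .nil)))))))))))))))))))))))))

noncomputable def dC2a_i60 : IL := (.e true (nat_lit 3) (nat_lit 252) (nat_lit 2) (nat_lit 14) (.e false (nat_lit 1) (nat_lit 254) (nat_lit 2) (nat_lit 14) (.e false (nat_lit 1) (nat_lit 255) (nat_lit 2) (nat_lit 14) (.e true (nat_lit 3) (nat_lit 256) (nat_lit 2) (nat_lit 14) (.e false (nat_lit 3) (nat_lit 257) (nat_lit 2) (nat_lit 14) (.e false (nat_lit 1) (nat_lit 258) (nat_lit 2) (nat_lit 14) (.e true (nat_lit 2) (nat_lit 261) (nat_lit 2) (nat_lit 14) (.e false (nat_lit 2) (nat_lit 264) (nat_lit 2) (nat_lit 14) (.e false (nat_lit 3) (nat_lit 265) (nat_lit 2) (nat_lit 14) (.e false (nat_lit 1) (nat_lit 266) (nat_lit 2) (nat_lit 14) (.e false (nat_lit 2) (nat_lit 267) (nat_lit 2) (nat_lit 14) (.e true (nat_lit 2) (nat_lit 269) (nat_lit 2) (nat_lit 14) (.e true (nat_lit 1) (nat_lit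 270) (nat_lit 2) (nat_lit 14) (.e true (nat_lit 2) (nat_lit 271) (nat_lit 2) (nat_lit 14) (.e true (nat_lit 3) (nat_lit 272) (nat_lit 2) (nat_lit 14) (.e true (nat_lit 2) (nat_lit 273) (nat_lit 2) (nat_lit 14) (.e true (nat_lit 1) (nat_lit 274) (nat_lit 2) (nat_lit 14) (.e false (nat_lit 2) (nat_lit 277) (nat_lit 2) (nat_lit 14) (.e true (nat_lit 1) (nat_lit 282) (nat_lit 2) (nat_lit 14) (.e true (nat_lit 2) (nat_lit 283) (nat_lit 2) (nat_lit 14) (.e false (nat_lit 2) (nat_lit 285) (nat_lit 2) (nat_lit 14) (.e true (nat_lit 3) (nat_lit 286) (nat_lit 2) (nat_lit 14) (.e true (nat_lit 2) (nat_lit 259) (nat_lit 2) (nat_lit 14) (.e false (nat_lit 2) (nat_lit 260) (nat_lit 2) (nat_lit 14) (.u (nat_lit 2) (.n (nat_lit 0) (nat_lit 1) (.n (nat_lit 2) (nat_lit 3) (.n (nat_lit 3) (nat_lit 1) (.n (nat_lit 4) (nat_lit 1) (.n (nat_lit 5) (nat_lit 2) (.p (nat_lit 6) (nat_lit 3) (.n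 (nat_lit 7) (nat_lit 2) (.n (nat_lit 8) (nat_lit 1) (.p (nat_lit 10) (nat_lit 3) (.p (nat_lit 11) (nat_lit 2) (.p (nat_lit 12) (nat_lit 6) (.p (nat_lit 13) (nat_lit 5) (.n (nat_lit 15) (nat_lit 3) (.n (nat_lit 16) (nat_lit 3) (.p (nat_lit 17) (nat_lit 4) (.n (nat_lit 18) (nat_lit 2) (.n (nat_lit 19) (nat_lit 1) (.p (nat_lit 22) (nat_lit 1) (.p (nat_lit 23) (nat_lit 4) (.n (nat_lit 24) (nat_lit 3) (.p (nat_lit 25) (nat_lit 1) (.n (nat_lit 30) (nat_lit 1) (.p (nat_lit 33) (nat_lit 1) (.p (nat_lit 34) (nat_lit 4) (.n (nat_lit 35) (nat_lit 1) (.n (nat_lit 42) (nat_lit 1) (.p (nat_lit 45) (nat_lit 1) (.n (nat_lit 206) (nat_lit 1) (.n (nat_lit 207) (nat_lit 1) (.p (nat_lit 208) (nat_lit 3) (.p (nat_lit 210) (nat_lit 2) (.n (nat_lit 211) (nat_lit 1) (.p (nat_lit 212) (nat_lit 1) (.p (nat_lit 213) (nat_lit 2) (.p (nat_lit 216) (nat_lit 1) (.n (nat_lit 218) (nat_lit 1) (.p (nat_lit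 219) (nat_lit 1) (.p (nat_lit 221) (nat_lit 2) (.p (nat_lit 222) (nat_lit 1) (.n (nat_lit 223) (nat_lit 1) (.n (nat_lit 225) (nat_lit 1) (.p (nat_lit 226) (nat_lit 1) (.p (nat_lit 229) (nat_lit 1) (.p (nat_lit 234) (nat_lit 1) (.n (nat_lit 235) (nat_lit 1) (.p (nat_lit 237) (nat_lit 1) .z)))))))))))))))))))))))))))))))))))))))))))))) .nil)))))))))))))))))))))))))

noncomputable def dC2a_i61 : IL := (.e true (nat_lit 1) (nat_lit 39) (nat_lit 16) (nat_lit 2) (.e true (nat_lit 1) (nat_lit 91) (nat_lit 5) (nat_lit 8) (.e true (nat_lit 1) (nat_lit 44) (nat_lit 14) (nat_lit 3) (.e false (nat_lit 3) (nat_lit 132) (nat_lit 2) (nat_lit 11) (.e false (nat_lit 1) (nat_lit 134) (nat_lit 2) (nat_lit 11) (.e true (nat_lit 1) (nat_lit 136) (nat_lit 2) (nat_lit 11) (.e true (nat_lit 2) (nat_lit 137) (nat_lit 2) (nat_lit 11) (.e false (nat_lit 3) (nat_lit 138) (nat_lit 2) (nat_lit 11)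 (.e false (nat_lit 1) (nat_lit 139) (nat_lit 2) (nat_lit 11) (.e true (nat_lit 1) (nat_lit 140) (nat_lit 2) (nat_lit 11) (.e true (nat_lit 3) (nat_lit 141) (nat_lit 2) (nat_lit 11) (.e false (nat_lit 2) (nat_lit 143) (nat_lit 2) (nat_lit 11) (.e true (nat_lit 1) (nat_lit 144) (nat_lit 2) (nat_lit 11) (.e true (nat_lit 2) (nat_lit 145) (nat_lit 2) (nat_lit 11) (.e true (nat_lit 3) (nat_lit 147) (nat_lit 2) (nat_lit 11) (.e false (nat_lit 2) (nat_lit 149) (nat_lit 2) (nat_lit 11) (.e true (nat_lit 2) (nat_lit 150) (nat_lit 2) (nat_lit 11) (.e true (nat_lit 2) (nat_lit 151) (nat_lit 2) (nat_lit 11) (.e true (nat_lit 3) (nat_lit 152) (nat_lit 2) (nat_lit 11) (.e true (nat_lit 2) (nat_lit 153) (nat_lit 2) (nat_lit 11) (.e true (nat_lit 1) (nat_lit 154) (nat_lit 2) (nat_lit 11) (.e true (nat_lit 1) (nat_lit 155) (nat_lit 2) (nat_lit 11) (.e false (nat_lit 2) (nat_lit 157)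 (nat_lit 2) (nat_lit 11) (.e false (nat_lit 2) (nat_lit 135) (nat_lit 2) (nat_lit 11) (.u (nat_lit 2) (.p (nat_lit 3) (nat_lit 1) (.p (nat_lit 7) (nat_lit 1) (.n (nat_lit 8) (nat_lit 1) (.n (nat_lit 9) (nat_lit 1) (.p (nat_lit 10) (nat_lit 1) (.n (nat_lit 20) (nat_lit 1) (.n (nat_lit 23) (nat_lit 1) (.p (nat_lit 25) (nat_lit 1) (.n (nat_lit 30) (nat_lit 1) (.n (nat_lit 117) (nat_lit 1) (.n (nat_lit 128) (nat_lit 1) .z))))))))))) .nil)))))))))))))))))))))))))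

noncomputable def dC2a_t0 : Tr := (.nd (.nd (.nd (.nd (.nd (.nd (.nd .leaf (nat_lit 1024) (nat_lit 0) (.p (nat_lit 3) (nat_lit 1) .z) .df .leaf) (nat_lit 1025) (nat_lit 1) (.p (nat_lit 4) (nat_lit 1) .z) .df .leaf) (nat_lit 2048) (nat_lit 2) (.p (nat_lit 5) (nat_lit 1) .z) .df (.nd (.nd .leaf (nat_lit 2049) (nat_lit 3) (.p (nat_lit 6) (nat_lit 1) .z) .df .leaf) (nat_lit 2050) (nat_lit 4) (.p (nat_lit 7) (nat_lit 1) .z) .df .leaf)) (nat_lit 3073) (nat_lit 5) (.p (nat_lit 8) (nat_lit 1) .z) .df (.nd (.nd (.nd .leaf (nat_lit 3074) (nat_lit 8) (.p (nat_lit 11) (nat_lit 1) .z) .df .leaf) (nat_lit 4096) (nat_lit 6) (.p (nat_lit 9) (nat_lit 1) .z) .df .leaf) (nat_lit 4097) (nat_lit 7) (.p (nat_lit 10) (nat_lit 1) .z) .df (.nd (.nd .leaf (nat_lit 4098) (nat_lit 11) (.p (nat_lit 14) (nat_lit 1) .z) .df .leaf) (nat_lit 4099) (nat_lit 21) (.n (nat_lit 22) (nat_lit 1) (.n (nat_lit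 23) (nat_lit 1) .z)) (.ct dC2a_c304 (nat_lit 1) (nat_lit 0) (.s true (nat_lit 1) (nat_lit 1) (nat_lit 0) (nat_lit 1) (nat_lit 1) true (nat_lit 0) true (nat_lit 1) true (nat_lit 1) true (nat_lit 2) true (nat_lit 1) (.e true (nat_lit 1) (nat_lit 10) (nat_lit 0) (nat_lit 2) (.e true (nat_lit 1) (nat_lit 9) (nat_lit 1) (nat_lit 1) .nil)))) .leaf))) (nat_lit 5121) (nat_lit 9) (.p (nat_lit 12) (nat_lit 1) .z) .df (.nd (.nd (.nd (.nd .leaf (nat_lit 5122) (nat_lit 13) (.p (nat_lit 16) (nat_lit 1) .z) .df .leaf) (nat_lit 5124) (nat_lit 29) (.p (nat_lit 24) (nat_lit 1) (.n (nat_lit 26) (nat_lit 1) (.p (nat_lit 28) (nat_lit 1) (.p (nat_lit 29) (nat_lit 1) .z)))) (.ct dC2a_c289 (nat_lit 1) (nat_lit 0) (.s false (nat_lit 1) (nat_lit 2) (nat_lit 1) (nat_lit 0) (nat_lit 1) true (nat_lit 0) true (nat_lit 3) true (nat_lit 2) true (nat_lit 3) true (nat_lit 4) (.e false (nat_lit 1) (nat_lit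 13) (nat_lit 1) (nat_lit 3) (.e false (nat_lit 1) (nat_lit 8) (nat_lit 2) (nat_lit 2) (.e true (nat_lit 1) (nat_lit 11) (nat_lit 1) (nat_lit 3) (.e false (nat_lit 1) (nat_lit 15) (nat_lit 0) (nat_lit 4) .nil)))))) .leaf) (nat_lit 6144) (nat_lit 10) (.p (nat_lit 13) (nat_lit 1) .z) .df (.nd (.nd .leaf (nat_lit 6145) (nat_lit 12) (.p (nat_lit 15) (nat_lit 1) .z) .df .leaf) (nat_lit 6146) (nat_lit 15) (.p (nat_lit 18) (nat_lit 1) .z) .df .leaf)) (nat_lit 6147) (nat_lit 28) (.n (nat_lit 25) (nat_lit 1) (.n (nat_lit 26) (nat_lit 1) (.p (nat_lit 27) (nat_lit 1) (.n (nat_lit 29) (nat_lit 1) .z)))) (.ct dC2a_c289 (nat_lit 1) (nat_lit 1) (.s true (nat_lit 1) (nat_lit 2) (nat_lit 1) (nat_lit 1) (nat_lit 0) true (nat_lit 1) true (nat_lit 4) true (nat_lit 2) true (nat_lit 3) true (nat_lit 3) (.e true (nat_lit 1) (nat_lit 15) (nat_lit 0) (nat_lit 4) (.e true (nat_lit 1) (nat_lit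 9) (nat_lit 2) (nat_lit 2) (.e true (nat_lit 1) (nat_lit 11) (nat_lit 1) (nat_lit 3) (.e false (nat_lit 1) (nat_lit 12) (nat_lit 1) (nat_lit 3) .nil)))))) (.nd (.nd (.nd .leaf (nat_lit 6148) (nat_lit 34) (.p (nat_lit 30) (nat_lit 1) (.n (nat_lit 31) (nat_lit 1) .z)) (.ct dC2a_c49 (nat_lit 1) (nat_lit 0) (.s true (nat_lit 1) (nat_lit 2) (nat_lit 1) (nat_lit 1) (nat_lit 1) true (nat_lit 0) true (nat_lit 2) true (nat_lit 1) true (nat_lit 2) true (nat_lit 2) (.e false (nat_lit 1) (nat_lit 10) (nat_lit 2) (nat_lit 1) (.e true (nat_lit 1) (nat_lit 14) (nat_lit 1) (nat_lit 2) .nil)))) .leaf) (nat_lit 6149) (nat_lit 42) (.p (nat_lit 33) (nat_lit 1) (.n (nat_lit 34) (nat_lit 1) (.n (nat_lit 37) (nat_lit 1) (.n (nat_lit 38) (nat_lit 1) .z)))) (.ct dC2a_c274 (nat_lit 1) (nat_lit 0) (.s true (nat_lit 1) (nat_lit 2) (nat_lit 0) (nat_lit 1) (nat_lit 2) true (nat_lit 0) true (nat_lit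 2) true (nat_lit 2) true (nat_lit 4) true (nat_lit 3) (.e true (nat_lit 1) (nat_lit 12) (nat_lit 2) (nat_lit 2) (.e false (nat_lit 1) (nat_lit 11) (nat_lit 2) (nat_lit 2) (.e true (nat_lit 1) (nat_lit 18) (nat_lit 0) (nat_lit 4) (.e true (nat_lit 1) (nat_lit 17) (nat_lit 1) (nat_lit 3) .nil)))))) .leaf) (nat_lit 7168) (nat_lit 14) (.p (nat_lit 17) (nat_lit 1) .z) .df (.nd .leaf (nat_lit 7169) (nat_lit 16) (.p (nat_lit 19) (nat_lit 1) .z) .df .leaf)))) (nat_lit 7170) (nat_lit 17) (.p (nat_lit 20) (nat_lit 1) .z) .df (.nd (.nd (.nd (.nd (.nd .leaf (nat_lit 7171) (nat_lit 41) (.p (nat_lit 34) (nat_lit 1) (.n (nat_lit 35) (nat_lit 1) (.n (nat_lit 36) (nat_lit 1) (.n (nat_lit 38) (nat_lit 1) .z)))) (.ct dC2a_c274 (nat_lit 1) (nat_lit 1) (.s true (nat_lit 1) (nat_lit 2) (nat_lit 0) (nat_lit 2) (nat_lit 1) true (nat_lit 1) true (nat_lit 3) true (nat_lit 2) true (nat_lit 4)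 true (nat_lit 2) (.e true (nat_lit 1) (nat_lit 16) (nat_lit 1) (nat_lit 3) (.e false (nat_lit 1) (nat_lit 12) (nat_lit 2) (nat_lit 2) (.e true (nat_lit 1) (nat_lit 18) (nat_lit 0) (nat_lit 4) (.e true (nat_lit 1) (nat_lit 13) (nat_lit 2) (nat_lit 2) .nil)))))) .leaf) (nat_lit 7172) (nat_lit 47) (.p (nat_lit 40) (nat_lit 2) (.n (nat_lit 41) (nat_lit 2) .z)) (.ct dC2a_c34 (nat_lit 1) (nat_lit 1) (.s true (nat_lit 1) (nat_lit 2) (nat_lit 1) (nat_lit 2) (nat_lit 1) true (nat_lit 1) true (nat_lit 3) true (nat_lit 2) true (nat_lit 3) true (nat_lit 2) (.e true (nat_lit 2) (nat_lit 18) (nat_lit 1) (nat_lit 3) (.e false (nat_lit 2) (nat_lit 15) (nat_lit 2) (nat_lit 2) .nil)))) .leaf) (nat_lit 7173) (nat_lit 52) (.n (nat_lit 43) (nat_lit 1) (.n (nat_lit 44) (nat_lit 1) .z)) (.ct dC2a_c259 (nat_lit 1) (nat_lit 0) (.s true (nat_lit 1) (nat_lit 2) (nat_lit 0) (nat_lit 2) (nat_lit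 2) true (nat_lit 0) true (nat_lit 1) true (nat_lit 1) true (nat_lit 2) true (nat_lit 1) (.e true (nat_lit 1) (nat_lit 20) (nat_lit 0) (nat_lit 2) (.e true (nat_lit 1) (nat_lit 17) (nat_lit 2) (nat_lit 1) .nil)))) (.nd (.nd .leaf (nat_lit 7174) (nat_lit 56) (.p (nat_lit 46) (nat_lit 1) (.n (nat_lit 47) (nat_lit 1) .z)) (.ct dC2a_c19 (nat_lit 1) (nat_lit 0) (.s true (nat_lit 1) (nat_lit 2) (nat_lit 1) (nat_lit 2) (nat_lit 2) true (nat_lit 0) true (nat_lit 1) true (nat_lit 1) true (nat_lit 2) true (nat_lit 1) (.e true (nat_lit 1) (nat_lit 20) (nat_lit 1) (nat_lit 2) (.e false (nat_lit 1) (nat_lit 19) (nat_lit 2) (nat_lit 1) .nil)))) .leaf) (nat_lit 8193) (nat_lit 18) (.p (nat_lit 21) (nat_lit 1) .z) .df .leaf)) (nat_lit 8194) (nat_lit 22) (.p (nat_lit 24) (nat_lit 1) .z) .df (.nd (.nd (.nd .leaf (nat_lit 8198) (nat_lit 68) (.p (nat_lit 59) (nat_lit 1) .z) .df .leaf) (nat_lit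 8199) (nat_lit 90) (.p (nat_lit 72) (nat_lit 1) .z) .df .leaf) (nat_lit 9217) (nat_lit 19) (.p (nat_lit 22) (nat_lit 1) .z) .df (.nd (.nd .leaf (nat_lit 9218) (nat_lit 23) (.p (nat_lit 25) (nat_lit 1) .z) .df .leaf) (nat_lit 9222) (nat_lit 73) (.p (nat_lit 50) (nat_lit 1) (.p (nat_lit 51) (nat_lit 1) (.p (nat_lit 52) (nat_lit 1) (.p (nat_lit 53) (nat_lit 1) (.n (nat_lit 55) (nat_lit 1) (.p (nat_lit 56) (nat_lit 1) (.p (nat_lit 57) (nat_lit 1) (.n (nat_lit 58) (nat_lit 1) (.n (nat_lit 59) (nat_lit 1) .z))))))))) (.ct dC2a_c305 (nat_lit 1) (nat_lit 0) (.s true (nat_lit 1) (nat_lit 6) (nat_lit 1) (nat_lit 1) (nat_lit 0) true (nat_lit 3) true (nat_lit 6) true (nat_lit 0) true (nat_lit 5) true (nat_lit 5) (.e true (nat_lit 1) (nat_lit 15) (nat_lit 3) (nat_lit 3) (.e true (nat_lit 1) (nat_lit 32) (nat_lit 0) (nat_lit 6) (.e false (nat_lit 1) (nat_lit 25) (nat_lit 1) (nat_lit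 5) (.e false (nat_lit 1) (nat_lit 26) (nat_lit 1) (nat_lit 5) (.e true (nat_lit 1) (nat_lit 27) (nat_lit 1) (nat_lit 5) (.e false (nat_lit 1) (nat_lit 29) (nat_lit 1) (nat_lit 5) (.e false (nat_lit 1) (nat_lit 28) (nat_lit 1) (nat_lit 5) .nil))))))))) .leaf))) (nat_lit 9223) (nat_lit 103) (.p (nat_lit 60) (nat_lit 2) (.p (nat_lit 62) (nat_lit 1) (.n (nat_lit 64) (nat_lit 2) (.p (nat_lit 65) (nat_lit 2) (.n (nat_lit 66) (nat_lit 2) (.n (nat_lit 67) (nat_lit 1) (.p (nat_lit 68) (nat_lit 1) (.p (nat_lit 70) (nat_lit 1) (.p (nat_lit 71) (nat_lit 2) (.p (nat_lit 72) (nat_lit 2) (.p (nat_lit 73) (nat_lit 1) .z))))))))))) (.ct dC2a_c290 (nat_lit 1) (nat_lit 0) (.s false (nat_lit 1) (nat_lit 4) (nat_lit 2) (nat_lit 0) (nat_lit 2) true (nat_lit 0) true (nat_lit 5) true (nat_lit 3) true (nat_lit 5) true (nat_lit 7) (.e false (nat_lit 2) (nat_lit 24) (nat_lit 2) (nat_lit 5) (.e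 false (nat_lit 1) (nat_lit 25) (nat_lit 2) (nat_lit 5) (.e true (nat_lit 2) (nat_lit 27) (nat_lit 2) (nat_lit 5) (.e false (nat_lit 2) (nat_lit 29) (nat_lit 2) (nat_lit 5) (.e false (nat_lit 1) (nat_lit 16) (nat_lit 4) (nat_lit 3) (.e false (nat_lit 1) (nat_lit 39) (nat_lit 0) (nat_lit 7) .nil)))))))) (.nd (.nd (.nd (.nd .leaf (nat_lit 10240) (nat_lit 20) (.p (nat_lit 23) (nat_lit 1) .z) .df .leaf) (nat_lit 10242) (nat_lit 31) (.p (nat_lit 30) (nat_lit 1) .z) .df .leaf) (nat_lit 10245) (nat_lit 76) (.p (nat_lit 49) (nat_lit 1) (.n (nat_lit 50) (nat_lit 1) (.n (nat_lit 52) (nat_lit 2) (.p (nat_lit 55) (nat_lit 1) (.n (nat_lit 57) (nat_lit 1) (.p (nat_lit 59) (nat_lit 1) .z)))))) (.ct dC2a_c305 (nat_lit 1) (nat_lit 1) (.s true (nat_lit 1) (nat_lit 4) (nat_lit 2) (nat_lit 1) (nat_lit 0) true (nat_lit 1) true (nat_lit 6) true (nat_lit 2) true (nat_lit 4) true (nat_lit 5)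 (.e true (nat_lit 1) (nat_lit 31) (nat_lit 0) (nat_lit 6) (.e true (nat_lit 1) (nat_lit 13) (nat_lit 4) (nat_lit 2) (.e false (nat_lit 1) (nat_lit 22) (nat_lit 2) (nat_lit 4) (.e false (nat_lit 1) (nat_lit 23) (nat_lit 2) (nat_lit 4) (.e false (nat_lit 1) (nat_lit 25) (nat_lit 1) (nat_lit 5) .nil))))))) (.nd (.nd .leaf (nat_lit 10247) (nat_lit 109) (.p (nat_lit 79) (nat_lit 1) .z) .df .leaf) (nat_lit 11265) (nat_lit 24) (.p (nat_lit 26) (nat_lit 1) .z) .df .leaf)) (nat_lit 11266) (nat_lit 35) (.p (nat_lit 33) (nat_lit 1) .z) .df (.nd (.nd (.nd .leaf (nat_lit 11268) (nat_lit 71) (.p (nat_lit 49) (nat_lit 1) (.n (nat_lit 50) (nat_lit 1) (.n (nat_lit 51) (nat_lit 1) (.n (nat_lit 52) (nat_lit 2) (.p (nat_lit 53) (nat_lit 1) (.p (nat_lit 54) (nat_lit 2) (.n (nat_lit 55) (nat_lit 1) (.p (nat_lit 57) (nat_lit 1) (.p (nat_lit 59) (nat_lit 1) .z))))))))) (.ct dC2a_c305 (nat_lit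 1) (nat_lit 2) (.s true (nat_lit 1) (nat_lit 3) (nat_lit 1) (nat_lit 2) (nat_lit 1) true (nat_lit 2) true (nat_lit 5) true (nat_lit 3) true (nat_lit 5) true (nat_lit 4) (.e true (nat_lit 1) (nat_lit 24) (nat_lit 1) (nat_lit 5) (.e false (nat_lit 1) (nat_lit 15) (nat_lit 3) (nat_lit 3) (.e false (nat_lit 1) (nat_lit 25) (nat_lit 1) (nat_lit 5) (.e false (nat_lit 1) (nat_lit 26) (nat_lit 1) (nat_lit 5) (.e true (nat_lit 1) (nat_lit 27) (nat_lit 1) (nat_lit 5) (.e false (nat_lit 1) (nat_lit 29) (nat_lit 1) (nat_lit 5) (.e false (nat_lit 1) (nat_lit 21) (nat_lit 2) (nat_lit 4) .nil))))))))) .leaf) (nat_lit 11270) (nat_lit 91) (.p (nat_lit 73) (nat_lit 1) .z) .df .leaf) (nat_lit 11271) (nat_lit 123) (.p (nat_lit 88) (nat_lit 1) .z) .df (.nd .leaf (nat_lit 12289) (nat_lit 25) (.p (nat_lit 27) (nat_lit 1) .z) .df .leaf))))) (nat_lit 12290) (nat_lit 36) (.p (nat_lit 34) (nat_lit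 1) .z) .df (.nd (.nd (.nd (.nd (.nd (.nd .leaf (nat_lit 12292) (nat_lit 77) (.p (nat_lit 49) (nat_lit 1) (.n (nat_lit 50) (nat_lit 1) (.n (nat_lit 52) (nat_lit 1) (.n (nat_lit 54) (nat_lit 1) (.p (nat_lit 55) (nat_lit 1) (.p (nat_lit 56) (nat_lit 1) (.p (nat_lit 59) (nat_lit 1) .z))))))) (.ct dC2a_c305 (nat_lit 1) (nat_lit 2) (.s true (nat_lit 1) (nat_lit 5) (nat_lit 1) (nat_lit 1) (nat_lit 1) true (nat_lit 2) true (nat_lit 5) true (nat_lit 1) true (nat_lit 5) true (nat_lit 5) (.e false (nat_lit 1) (nat_lit 10) (nat_lit 5) (nat_lit 1) (.e false (nat_lit 1) (nat_lit 24) (nat_lit 1) (nat_lit 5) (.e true (nat_lit 1) (nat_lit 26) (nat_lit 1) (nat_lit 5) (.e false (nat_lit 1) (nat_lit 28) (nat_lit 1) (nat_lit 5) (.e false (nat_lit 1) (nat_lit 29) (nat_lit 1) (nat_lit 5) .nil))))))) .leaf) (nat_lit 12294) (nat_lit 93) (.n (nat_lit 61) (nat_lit 1) (.p (nat_lit 63) (nat_lit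 1) (.n (nat_lit 66) (nat_lit 1) (.p (nat_lit 68) (nat_lit 1) (.p (nat_lit 72) (nat_lit 1) .z))))) (.ct dC2a_c290 (nat_lit 1) (nat_lit 1) (.s false (nat_lit 1) (nat_lit 6) (nat_lit 0) (nat_lit 2) (nat_lit 1) true (nat_lit 4) true (nat_lit 6) true (nat_lit 1) true (nat_lit 7) true (nat_lit 5) (.e false (nat_lit 1) (nat_lit 18) (nat_lit 3) (nat_lit 4) (.e false (nat_lit 1) (nat_lit 35) (nat_lit 1) (nat_lit 6) (.e false (nat_lit 1) (nat_lit 29) (nat_lit 2) (nat_lit 5) .nil))))) .leaf) (nat_lit 12295) (nat_lit 124) (.p (nat_lit 89) (nat_lit 1) .z) .df (.nd (.nd .leaf (nat_lit 13313) (nat_lit 26) (.p (nat_lit 28) (nat_lit 1) .z) .df .leaf) (nat_lit 13314) (nat_lit 37) (.p (nat_lit 35) (nat_lit 1) .z) .df .leaf)) (nat_lit 13316) (nat_lit 72) (.p (nat_lit 53) (nat_lit 1) (.p (nat_lit 54) (nat_lit 1) (.n (nat_lit 55) (nat_lit 1) (.p (nat_lit 57) (nat_lit 2) (.p (nat_lit 58) (nat_lit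 1) (.p (nat_lit 59) (nat_lit 1) .z)))))) (.ct dC2a_c305 (nat_lit 1) (nat_lit 2) (.s false (nat_lit 1) (nat_lit 6) (nat_lit 1) (nat_lit 0) (nat_lit 1) true (nat_lit 2) true (nat_lit 5) true (nat_lit 0) true (nat_lit 5) true (nat_lit 6) (.e false (nat_lit 2) (nat_lit 29) (nat_lit 1) (nat_lit 5) (.e false (nat_lit 1) (nat_lit 8) (nat_lit 6) (nat_lit 0) (.e false (nat_lit 1) (nat_lit 25) (nat_lit 1) (nat_lit 5) (.e false (nat_lit 1) (nat_lit 26) (nat_lit 1) (nat_lit 5) (.e true (nat_lit 1) (nat_lit 27) (nat_lit 1) (nat_lit 5) (.e false (nat_lit 1) (nat_lit 32) (nat_lit 0) (nat_lit 6) .nil)))))))) (.nd (.nd (.nd .leaf (nat_lit 13318) (nat_lit 96) (.p (nat_lit 62) (nat_lit 1) (.p (nat_lit 65) (nat_lit 1) (.n (nat_lit 66) (nat_lit 1) (.p (nat_lit 68) (nat_lit 1) (.p (nat_lit 69) (nat_lit 1) (.p (nat_lit 71) (nat_lit 1) (.p (nat_lit 72) (nat_lit 1) .z))))))) (.ct dC2a_c290 (nat_lit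 1) (nat_lit 1) (.s false (nat_lit 1) (nat_lit 6) (nat_lit 2) (nat_lit 0) (nat_lit 1) true (nat_lit 1) true (nat_lit 6) true (nat_lit 1) true (nat_lit 5) true (nat_lit 7) (.e false (nat_lit 1) (nat_lit 38) (nat_lit 1) (nat_lit 6) (.e false (nat_lit 1) (nat_lit 12) (nat_lit 6) (nat_lit 1) (.e false (nat_lit 1) (nat_lit 25) (nat_lit 2) (nat_lit 5) (.e false (nat_lit 1) (nat_lit 26) (nat_lit 2) (nat_lit 5) (.e true (nat_lit 1) (nat_lit 27) (nat_lit 2) (nat_lit 5) (.e false (nat_lit 1) (nat_lit 29) (nat_lit 2) (nat_lit 5) (.e false (nat_lit 1) (nat_lit 40) (nat_lit 0) (nat_lit 7) .nil))))))))) .leaf) (nat_lit 13319) (nat_lit 125) (.p (nat_lit 90) (nat_lit 1) .z) .df .leaf) (nat_lit 14336) (nat_lit 30) (.p (nat_lit 24) (nat_lit 1) (.p (nat_lit 25) (nat_lit 1) (.p (nat_lit 26) (nat_lit 1) (.n (nat_lit 27) (nat_lit 2) (.n (nat_lit 28) (nat_lit 1) (.p (nat_lit 29) (nat_lit 1)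 .z)))))) (.ct dC2a_c289 (nat_lit 1) (nat_lit 4) (.s true (nat_lit 1) (nat_lit 2) (nat_lit 0) (nat_lit 1) (nat_lit 1) true (nat_lit 1) true (nat_lit 3) true (nat_lit 2) true (nat_lit 4) true (nat_lit 3) (.e true (nat_lit 1) (nat_lit 6) (nat_lit 3) (nat_lit 1) (.e true (nat_lit 1) (nat_lit 12) (nat_lit 1) (nat_lit 3) (.e false (nat_lit 1) (nat_lit 8) (nat_lit 2) (nat_lit 2) (.e true (nat_lit 1) (nat_lit 13) (nat_lit 1) (nat_lit 3) .nil)))))) (.nd (.nd .leaf (nat_lit 14337) (nat_lit 32) (.p (nat_lit 31) (nat_lit 1) .z) .df .leaf) (nat_lit 14338) (nat_lit 44) (.p (nat_lit 39) (nat_lit 1) .z) .df .leaf))) (nat_lit 14339) (nat_lit 70) (.p (nat_lit 49) (nat_lit 1) (.n (nat_lit 53) (nat_lit 1) (.n (nat_lit 54) (nat_lit 2) (.p (nat_lit 55) (nat_lit 1) (.n (nat_lit 57) (nat_lit 1) (.p (nat_lit 59) (nat_lit 1) .z)))))) (.ct dC2a_c305 (nat_lit 1) (nat_lit 3) (.s false (nat_lit 1)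 (nat_lit 3) (nat_lit 1) (nat_lit 1) (nat_lit 2) true (nat_lit 0) true (nat_lit 4) true (nat_lit 3) true (nat_lit 5) true (nat_lit 5) (.e false (nat_lit 1) (nat_lit 8) (nat_lit 6) (nat_lit 0) (.e false (nat_lit 1) (nat_lit 21) (nat_lit 2) (nat_lit 4) (.e true (nat_lit 1) (nat_lit 25) (nat_lit 1) (nat_lit 5) (.e true (nat_lit 2) (nat_lit 26) (nat_lit 1) (nat_lit 5) (.e false (nat_lit 1) (nat_lit 27) (nat_lit 1) (nat_lit 5) (.e true (nat_lit 1) (nat_lit 29) (nat_lit 1) (nat_lit 5) .nil)))))))) (.nd (.nd (.nd (.nd .leaf (nat_lit 14341) (nat_lit 101) (.n (nat_lit 60) (nat_lit 1) (.n (nat_lit 61) (nat_lit 1) (.p (nat_lit 63) (nat_lit 2) (.p (nat_lit 64) (nat_lit 1) (.n (nat_lit 65) (nat_lit 1) (.n (nat_lit 67) (nat_lit 1) (.p (nat_lit 68) (nat_lit 1) (.n (nat_lit 71) (nat_lit 2) (.n (nat_lit 73) (nat_lit 1) .z))))))))) (.ct dC2a_c290 (nat_lit 1) (nat_lit 2) (.s false (nat_lit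 1) (nat_lit 5) (nat_lit 1) (nat_lit 1) (nat_lit 2) true (nat_lit 1) true (nat_lit 5) true (nat_lit 2) true (nat_lit 6) true (nat_lit 6) (.e false (nat_lit 1) (nat_lit 12) (nat_lit 6) (nat_lit 1) (.e false (nat_lit 1) (nat_lit 27) (nat_lit 2) (nat_lit 5) (.e false (nat_lit 1) (nat_lit 33) (nat_lit 1) (nat_lit 6) (.e true (nat_lit 1) (nat_lit 34) (nat_lit 1) (nat_lit 6) (.e true (nat_lit 1) (nat_lit 37) (nat_lit 1) (nat_lit 6) (.e true (nat_lit 1) (nat_lit 38) (nat_lit 1) (nat_lit 6) (.e true (nat_lit 1) (nat_lit 36) (nat_lit 1) (nat_lit 6) .nil))))))))) .leaf) (nat_lit 14342) (nat_lit 113) (.n (nat_lit 74) (nat_lit 2) (.n (nat_lit 75) (nat_lit 1) (.p (nat_lit 76) (nat_lit 3) (.p (nat_lit 77) (nat_lit 3) (.n (nat_lit 78) (nat_lit 3) (.n (nat_lit 79) (nat_lit 3) .z)))))) (.ct dC2a_c50 (nat_lit 1) (nat_lit 1) (.s true (nat_lit 1) (nat_lit 6) (nat_lit 1) (nat_lit 1) (nat_lit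 2) true (nat_lit 1) true (nat_lit 3) true (nat_lit 1) true (nat_lit 4) true (nat_lit 4) (.e true (nat_lit 1) (nat_lit 15) (nat_lit 6) (nat_lit 1) (.e true (nat_lit 1) (nat_lit 32) (nat_lit 2) (nat_lit 3) (.e false (nat_lit 1) (nat_lit 41) (nat_lit 1) (nat_lit 4) (.u (nat_lit 2) (.n (nat_lit 2) (nat_lit 1) (.p (nat_lit 4) (nat_lit 1) .z)) .nil)))))) .leaf) (nat_lit 14343) (nat_lit 140) (.p (nat_lit 96) (nat_lit 1) .z) .df (.nd (.nd .leaf (nat_lit 14347) (nat_lit 195) (.p (nat_lit 107) (nat_lit 1) (.p (nat_lit 108) (nat_lit 1) (.n (nat_lit 111) (nat_lit 2) (.p (nat_lit 117) (nat_lit 1) (.n (nat_lit 118) (nat_lit 1) (.n (nat_lit 119) (nat_lit 1) (.p (nat_lit 120) (nat_lit 1) (.n (nat_lit 122) (nat_lit 1) (.p (nat_lit 123) (nat_lit 1) (.p (nat_lit 127) (nat_lit 1) (.n (nat_lit 128) (nat_lit 1) .z))))))))))) (.ct dC2a_c306 (nat_lit 1) (nat_lit 0) (.s true (nat_lit 1) (nat_lit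 11) (nat_lit 1) (nat_lit 1) (nat_lit 2) true (nat_lit 4) true (nat_lit 8) true (nat_lit 0) true (nat_lit 9) true (nat_lit 9) (.e true (nat_lit 1) (nat_lit 26) (nat_lit 6) (nat_lit 4) (.e true (nat_lit 1) (nat_lit 54) (nat_lit 2) (nat_lit 8) (.e false (nat_lit 1) (nat_lit 73) (nat_lit 1) (nat_lit 9) (.e false (nat_lit 1) (nat_lit 66) (nat_lit 1) (nat_lit 9) .nil)))))) .leaf) (nat_lit 14348) (nat_lit 211) (.n (nat_lit 106) (nat_lit 1) (.p (nat_lit 107) (nat_lit 2) (.p (nat_lit 108) (nat_lit 1) (.p (nat_lit 109) (nat_lit 1) (.p (nat_lit 110) (nat_lit 1) (.p (nat_lit 111) (nat_lit 1) (.n (nat_lit 112) (nat_lit 3) (.n (nat_lit 113) (nat_lit 1) (.p (nat_lit 114) (nat_lit 2) (.n (nat_lit 116) (nat_lit 1) (.p (nat_lit 117) (nat_lit 1) (.n (nat_lit 118) (nat_lit 1) (.n (nat_lit 119) (nat_lit 1) (.p (nat_lit 121) (nat_lit 1) (.n (nat_lit 122) (nat_lit 1) (.p (nat_lit 124) (nat_lit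 2) (.n (nat_lit 128) (nat_lit 1) .z))))))))))))))))) (.ct dC2a_c306 (nat_lit 1) (nat_lit 0) (.s true (nat_lit 1) (nat_lit 12) (nat_lit 1) (nat_lit 1) (nat_lit 2) true (nat_lit 4) true (nat_lit 8) true (nat_lit 0) true (nat_lit 9) true (nat_lit 9) (.e true (nat_lit 1) (nat_lit 27) (nat_lit 6) (nat_lit 4) (.e true (nat_lit 1) (nat_lit 55) (nat_lit 2) (nat_lit 8) (.e true (nat_lit 1) (nat_lit 61) (nat_lit 1) (nat_lit 9) (.e false (nat_lit 1) (nat_lit 63) (nat_lit 1) (nat_lit 9) (.e true (nat_lit 1) (nat_lit 66) (nat_lit 1) (nat_lit 9) (.e false (nat_lit 1) (nat_lit 68) (nat_lit 1) (nat_lit 9) (.e false (nat_lit 1) (nat_lit 72) (nat_lit 1) (nat_lit 9) (.e false (nat_lit 1) (nat_lit 67) (nat_lit 1) (nat_lit 9) (.u (nat_lit 2) (.p (nat_lit 14) (nat_lit 1) (.p (nat_lit 16) (nat_lit 1) .z)) .nil))))))))))) .leaf)) (nat_lit 14349) (nat_lit 218) (.n (nat_lit 106) (nat_lit 3) (.p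 (nat_lit 107) (nat_lit 2) (.n (nat_lit 109) (nat_lit 2) (.p (nat_lit 110) (nat_lit 1) (.n (nat_lit 111) (nat_lit 1) (.n (nat_lit 112) (nat_lit 1) (.n (nat_lit 113) (nat_lit 2) (.p (nat_lit 115) (nat_lit 1) (.n (nat_lit 117) (nat_lit 3) (.n (nat_lit 118) (nat_lit 1) (.n (nat_lit 119) (nat_lit 3) (.n (nat_lit 120) (nat_lit 3) (.p (nat_lit 121) (nat_lit 1) (.p (nat_lit 122) (nat_lit 2) (.p (nat_lit 124) (nat_lit 2) (.p (nat_lit 126) (nat_lit 3) (.p (nat_lit 127) (nat_lit 2) (.n (nat_lit 130) (nat_lit 2) (.n (nat_lit 131) (nat_lit 3) .z))))))))))))))))))) (.ct dC2a_c306 (nat_lit 1) (nat_lit 0) (.s true (nat_lit 1) (nat_lit 13) (nat_lit 1) (nat_lit 1) (nat_lit 2) true (nat_lit 4) true (nat_lit 8) true (nat_lit 0) true (nat_lit 9) true (nat_lit 9) (.e true (nat_lit 1) (nat_lit 28) (nat_lit 6) (nat_lit 4) (.e true (nat_lit 1) (nat_lit 56) (nat_lit 2) (nat_lit 8) (.e false (nat_lit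 1) (nat_lit 62) (nat_lit 1) (nat_lit 9) (.e false (nat_lit 1) (nat_lit 65) (nat_lit 1) (nat_lit 9) (.e true (nat_lit 1) (nat_lit 66) (nat_lit 1) (nat_lit 9) (.e false (nat_lit 2) (nat_lit 68) (nat_lit 1) (nat_lit 9) (.e false (nat_lit 1) (nat_lit 69) (nat_lit 1) (nat_lit 9) (.e false (nat_lit 1) (nat_lit 71) (nat_lit 1) (nat_lit 9) (.e false (nat_lit 1) (nat_lit 72) (nat_lit 1) (nat_lit 9) (.u (nat_lit 2) (.n (nat_lit 1) (nat_lit 1) (.n (nat_lit 2) (nat_lit 1) (.p (nat_lit 4) (nat_lit 1) (.n (nat_lit 6) (nat_lit 1) (.p (nat_lit 8) (nat_lit 1) (.n (nat_lit 10) (nat_lit 1) (.p (nat_lit 13) (nat_lit 1) (.p (nat_lit 14) (nat_lit 1) (.p (nat_lit 16) (nat_lit 1) (.p (nat_lit 17) (nat_lit 1) (.n (nat_lit 20) (nat_lit 1) (.n (nat_lit 21) (nat_lit 1) .z)))))))))))) .nil)))))))))))) (.nd (.nd (.nd .leaf (nat_lit 15360) (nat_lit 27) (.p (nat_lit 29) (nat_lit 1) .z) .df .leaf) (nat_lit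 15361) (nat_lit 33) (.p (nat_lit 32) (nat_lit 1) .z) .df .leaf) (nat_lit 15362) (nat_lit 45) (.p (nat_lit 40) (nat_lit 1) .z) .df (.nd .leaf (nat_lit 15363) (nat_lit 69) (.n (nat_lit 50) (nat_lit 1) (.n (nat_lit 51) (nat_lit 1) (.n (nat_lit 52) (nat_lit 1) (.p (nat_lit 54) (nat_lit 1) (.p (nat_lit 59) (nat_lit 1) .z))))) (.ct dC2a_c305 (nat_lit 1) (nat_lit 3) (.s false (nat_lit 1) (nat_lit 3) (nat_lit 2) (nat_lit 1) (nat_lit 1) true (nat_lit 0) true (nat_lit 5) true (nat_lit 3) true (nat_lit 4) true (nat_lit 5) (.e false (nat_lit 1) (nat_lit 8) (nat_lit 6) (nat_lit 0) (.e false (nat_lit 1) (nat_lit 26) (nat_lit 1) (nat_lit 5) (.e true (nat_lit 1) (nat_lit 22) (nat_lit 2) (nat_lit 4) (.e true (nat_lit 1) (nat_lit 23) (nat_lit 2) (nat_lit 4) (.e true (nat_lit 1) (nat_lit 24) (nat_lit 1) (nat_lit 5) .nil))))))) .leaf)))) (nat_lit 15365) (nat_lit 95) (.n (nat_lit 64) (nat_lit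 1) (.n (nat_lit 69) (nat_lit 1) (.p (nat_lit 73) (nat_lit 1) .z))) (.ct dC2a_c290 (nat_lit 1) (nat_lit 2) (.s true (nat_lit 1) (nat_lit 6) (nat_lit 0) (nat_lit 1) (nat_lit 2) true (nat_lit 2) true (nat_lit 5) true (nat_lit 1) true (nat_lit 7) true (nat_lit 6) (.e true (nat_lit 1) (nat_lit 28) (nat_lit 2) (nat_lit 5) (.e false (nat_lit 1) (nat_lit 11) (nat_lit 6) (nat_lit 1) (.e true (nat_lit 1) (nat_lit 38) (nat_lit 1) (nat_lit 6) .nil))))) (.nd (.nd (.nd (.nd (.nd .leaf (nat_lit 15366) (nat_lit 111) (.p (nat_lit 74) (nat_lit 1) (.p (nat_lit 76) (nat_lit 1) (.n (nat_lit 77) (nat_lit 1) (.n (nat_lit 78) (nat_lit 1) (.p (nat_lit 79) (nat_lit 1) .z))))) (.ct dC2a_c50 (nat_lit 1) (nat_lit 1) (.s true (nat_lit 1) (nat_lit 6) (nat_lit 1) (nat_lit 2) (nat_lit 1) true (nat_lit 2) true (nat_lit 4) true (nat_lit 1) true (nat_lit 4) true (nat_lit 3) (.e true (nat_lit 1) (nat_lit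 18) (nat_lit 4) (nat_lit 2) (.e true (nat_lit 1) (nat_lit 40) (nat_lit 1) (nat_lit 4) (.e false (nat_lit 1) (nat_lit 32) (nat_lit 2) (nat_lit 3) .nil))))) .leaf) (nat_lit 15367) (nat_lit 144) (.p (nat_lit 91) (nat_lit 1) (.n (nat_lit 92) (nat_lit 2) (.n (nat_lit 93) (nat_lit 2) (.p (nat_lit 94) (nat_lit 2) (.p (nat_lit 95) (nat_lit 1) (.n (nat_lit 96) (nat_lit 1) .z)))))) (.ct dC2a_c35 (nat_lit 1) (nat_lit 0) (.s true (nat_lit 1) (nat_lit 6) (nat_lit 2) (nat_lit 1) (nat_lit 2) true (nat_lit 0) true (nat_lit 3) true (nat_lit 1) true (nat_lit 3) true (nat_lit 4) (.e true (nat_lit 1) (nat_lit 41) (nat_lit 2) (nat_lit 3) (.e true (nat_lit 1) (nat_lit 18) (nat_lit 6) (nat_lit 1) (.e false (nat_lit 1) (nat_lit 45) (nat_lit 1) (nat_lit 4) .nil))))) .leaf) (nat_lit 15371) (nat_lit 194) (.p (nat_lit 106) (nat_lit 1) (.n (nat_lit 109) (nat_lit 2) (.p (nat_lit 110) (nat_lit 1)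 (.p (nat_lit 111) (nat_lit 1) (.n (nat_lit 112) (nat_lit 1) (.p (nat_lit 114) (nat_lit 1) (.p (nat_lit 116) (nat_lit 1) (.p (nat_lit 117) (nat_lit 1) (.n (nat_lit 118) (nat_lit 1) (.p (nat_lit 120) (nat_lit 1) (.n (nat_lit 122) (nat_lit 1) (.n (nat_lit 123) (nat_lit 1) (.n (nat_lit 128) (nat_lit 1) .z))))))))))))) (.ct dC2a_c306 (nat_lit 1) (nat_lit 0) (.s true (nat_lit 1) (nat_lit 6) (nat_lit 3) (nat_lit 1) (nat_lit 2) true (nat_lit 0) true (nat_lit 8) true (nat_lit 4) true (nat_lit 7) true (nat_lit 9) (.e false (nat_lit 1) (nat_lit 53) (nat_lit 2) (nat_lit 8) (.e false (nat_lit 1) (nat_lit 54) (nat_lit 2) (nat_lit 8) (.e true (nat_lit 1) (nat_lit 55) (nat_lit 2) (nat_lit 8) (.e false (nat_lit 1) (nat_lit 57) (nat_lit 2) (nat_lit 8) (.e true (nat_lit 1) (nat_lit 24) (nat_lit 6) (nat_lit 4) (.e true (nat_lit 1) (nat_lit 61) (nat_lit 1) (nat_lit 9) (.e false (nat_lit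 1) (nat_lit 63) (nat_lit 1) (nat_lit 9) (.e true (nat_lit 1) (nat_lit 65) (nat_lit 1) (nat_lit 9) (.e true (nat_lit 1) (nat_lit 66) (nat_lit 1) (nat_lit 9) (.e false (nat_lit 1) (nat_lit 72) (nat_lit 1) (nat_lit 9) .nil)))))))))))) (.nd (.nd .leaf (nat_lit 15372) (nat_lit 208) (.n (nat_lit 106) (nat_lit 1) (.p (nat_lit 107) (nat_lit 2) (.p (nat_lit 108) (nat_lit 3) (.n (nat_lit 110) (nat_lit 2) (.p (nat_lit 113) (nat_lit 3) (.p (nat_lit 114) (nat_lit 1) (.n (nat_lit 115) (nat_lit 3) (.p (nat_lit 116) (nat_lit 3) (.p (nat_lit 117) (nat_lit 2) (.n (nat_lit 119) (nat_lit 2) (.n (nat_lit 120) (nat_lit 3) (.p (nat_lit 122) (nat_lit 3) (.n (nat_lit 123) (nat_lit 2) (.n (nat_lit 124) (nat_lit 1) (.p (nat_lit 126) (nat_lit 1) (.p (nat_lit 127) (nat_lit 2) (.n (nat_lit 128) (nat_lit 1) (.p (nat_lit 130) (nat_lit 3) (.p (nat_lit 131) (nat_lit 3) .z))))))))))))))))))) (.ct dC2a_c306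 (nat_lit 1) (nat_lit 0) (.s true (nat_lit 1) (nat_lit 12) (nat_lit 2) (nat_lit 1) (nat_lit 1) true (nat_lit 4) true (nat_lit 9) true (nat_lit 0) true (nat_lit 8) true (nat_lit 9) (.e true (nat_lit 1) (nat_lit 27) (nat_lit 6) (nat_lit 4) (.e true (nat_lit 1) (nat_lit 67) (nat_lit 1) (nat_lit 9) (.e false (nat_lit 1) (nat_lit 49) (nat_lit 2) (nat_lit 8) (.e true (nat_lit 1) (nat_lit 50) (nat_lit 2) (nat_lit 8) (.e true (nat_lit 1) (nat_lit 52) (nat_lit 2) (nat_lit 8) (.e true (nat_lit 1) (nat_lit 54) (nat_lit 2) (nat_lit 8) (.e false (nat_lit 1) (nat_lit 55) (nat_lit 2) (nat_lit 8) (.e false (nat_lit 1) (nat_lit 56) (nat_lit 2) (nat_lit 8) (.e false (nat_lit 1) (nat_lit 59) (nat_lit 2) (nat_lit 8) (.e false (nat_lit 1) (nat_lit 63) (nat_lit 1) (nat_lit 9) (.u (nat_lit 2) (.p (nat_lit 14) (nat_lit 1) .z) .nil))))))))))))) .leaf) (nat_lit 15373) (nat_lit 213) (.p (nat_lit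 106) (nat_lit 3) (.p (nat_lit 108) (nat_lit 1) (.n (nat_lit 110) (nat_lit 1) (.n (nat_lit 112) (nat_lit 3) (.n (nat_lit 113) (nat_lit 1) (.p (nat_lit 114) (nat_lit 3) (.p (nat_lit 115) (nat_lit 2) (.n (nat_lit 116) (nat_lit 1) (.n (nat_lit 117) (nat_lit 2) (.p (nat_lit 118) (nat_lit 1) (.n (nat_lit 120) (nat_lit 2) (.n (nat_lit 121) (nat_lit 1) (.p (nat_lit 122) (nat_lit 3) (.n (nat_lit 123) (nat_lit 2) (.n (nat_lit 124) (nat_lit 1) (.p (nat_lit 126) (nat_lit 1) (.p (nat_lit 127) (nat_lit 1) (.n (nat_lit 130) (nat_lit 2) (.n (nat_lit 131) (nat_lit 3) .z))))))))))))))))))) (.ct dC2a_c306 (nat_lit 1) (nat_lit 0) (.s true (nat_lit 1) (nat_lit 13) (nat_lit 2) (nat_lit 1) (nat_lit 1) true (nat_lit 4) true (nat_lit 9) true (nat_lit 0) true (nat_lit 8) true (nat_lit 9) (.e true (nat_lit 1) (nat_lit 28) (nat_lit 6) (nat_lit 4) (.e true (nat_lit 1) (nat_lit 68) (nat_lit 1) (nat_lit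 9) (.e false (nat_lit 1) (nat_lit 53) (nat_lit 2) (nat_lit 8) (.e false (nat_lit 1) (nat_lit 54) (nat_lit 2) (nat_lit 8) (.e true (nat_lit 1) (nat_lit 55) (nat_lit 2) (nat_lit 8) (.e false (nat_lit 2) (nat_lit 57) (nat_lit 2) (nat_lit 8) (.e false (nat_lit 1) (nat_lit 58) (nat_lit 2) (nat_lit 8) (.e false (nat_lit 1) (nat_lit 59) (nat_lit 2) (nat_lit 8) (.e false (nat_lit 1) (nat_lit 64) (nat_lit 1) (nat_lit 9) (.u (nat_lit 2) (.n (nat_lit 0) (nat_lit 1) (.p (nat_lit 7) (nat_lit 1) (.n (nat_lit 9) (nat_lit 1) (.p (nat_lit 10) (nat_lit 1) (.n (nat_lit 16) (nat_lit 1) (.p (nat_lit 24) (nat_lit 1) (.p (nat_lit 25) (nat_lit 1) .z))))))) .nil)))))))))))) .leaf)) (nat_lit 16385) (nat_lit 38) (.p (nat_lit 36) (nat_lit 1) .z) .df (.nd (.nd (.nd .leaf (nat_lit 16386) (nat_lit 49) (.p (nat_lit 42) (nat_lit 1) .z) .df .leaf) (nat_lit 16388) (nat_lit 100) (.n (nat_lit 61) (nat_lit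 1) (.p (nat_lit 62) (nat_lit 1) (.p (nat_lit 63) (nat_lit 2) (.n (nat_lit 64) (nat_lit 2) (.n (nat_lit 66) (nat_lit 2) (.n (nat_lit 67) (nat_lit 1) (.p (nat_lit 68) (nat_lit 1) (.p (nat_lit 71) (nat_lit 2) (.p (nat_lit 72) (nat_lit 2) (.p (nat_lit 73) (nat_lit 1) .z)))))))))) (.ct dC2a_c290 (nat_lit 1) (nat_lit 3) (.s true (nat_lit 1) (nat_lit 5) (nat_lit 1) (nat_lit 2) (nat_lit 1) true (nat_lit 3) true (nat_lit 6) true (nat_lit 2) true (nat_lit 6) true (nat_lit 5) (.e false (nat_lit 1) (nat_lit 15) (nat_lit 5) (nat_lit 2) (.e true (nat_lit 1) (nat_lit 33) (nat_lit 1) (nat_lit 6) (.e false (nat_lit 1) (nat_lit 37) (nat_lit 1) (nat_lit 6) (.e false (nat_lit 1) (nat_lit 38) (nat_lit 1) (nat_lit 6) (.e false (nat_lit 1) (nat_lit 27) (nat_lit 2) (nat_lit 5) .nil))))))) .leaf) (nat_lit 16390) (nat_lit 129) (.p (nat_lit 80) (nat_lit 1) (.n (nat_lit 81) (nat_lit 1) (.n (nat_lit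 84) (nat_lit 1) (.n (nat_lit 85) (nat_lit 2) (.n (nat_lit 87) (nat_lit 1) (.p (nat_lit 90) (nat_lit 1) .z)))))) (.ct dC2a_c275 (nat_lit 1) (nat_lit 1) (.s true (nat_lit 1) (nat_lit 6) (nat_lit 2) (nat_lit 0) (nat_lit 2) true (nat_lit 0) true (nat_lit 4) true (nat_lit 1) true (nat_lit 4) true (nat_lit 6) (.e false (nat_lit 1) (nat_lit 13) (nat_lit 7) (nat_lit 0) (.e true (nat_lit 2) (nat_lit 38) (nat_lit 2) (nat_lit 4) (.e false (nat_lit 1) (nat_lit 33) (nat_lit 2) (nat_lit 4) (.e true (nat_lit 1) (nat_lit 34) (nat_lit 2) (nat_lit 4) (.e true (nat_lit 1) (nat_lit 37) (nat_lit 2) (nat_lit 4) (.e true (nat_lit 1) (nat_lit 45) (nat_lit 0) (nat_lit 6) .nil)))))))) (.nd .leaf (nat_lit 16391) (nat_lit 149) (.p (nat_lit 100) (nat_lit 1) .z) .df .leaf))) (nat_lit 16394) (nat_lit 202) (.p (nat_lit 106) (nat_lit 1) (.n (nat_lit 107) (nat_lit 2) (.n (nat_lit 108) (nat_lit 1) (.n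 (nat_lit 109) (nat_lit 2) (.n (nat_lit 110) (nat_lit 1) (.p (nat_lit 112) (nat_lit 3) (.n (nat_lit 114) (nat_lit 3) (.p (nat_lit 116) (nat_lit 1) (.p (nat_lit 118) (nat_lit 1) (.n (nat_lit 120) (nat_lit 2) (.p (nat_lit 122) (nat_lit 2) (.p (nat_lit 128) (nat_lit 1) .z)))))))))))) (.ct dC2a_c306 (nat_lit 1) (nat_lit 1) (.s true (nat_lit 1) (nat_lit 10) (nat_lit 2) (nat_lit 0) (nat_lit 2) true (nat_lit 3) true (nat_lit 8) true (nat_lit 1) true (nat_lit 8) true (nat_lit 10) (.e false (nat_lit 1) (nat_lit 23) (nat_lit 7) (nat_lit 3) (.e false (nat_lit 2) (nat_lit 49) (nat_lit 2) (nat_lit 8) (.e true (nat_lit 2) (nat_lit 50) (nat_lit 2) (nat_lit 8) (.e true (nat_lit 3) (nat_lit 52) (nat_lit 2) (nat_lit 8) (.e true (nat_lit 1) (nat_lit 56) (nat_lit 2) (nat_lit 8) (.e false (nat_lit 1) (nat_lit 58) (nat_lit 2) (nat_lit 8) (.e false (nat_lit 3) (nat_lit 59) (nat_lit 2) (nat_lit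 8) (.e false (nat_lit 1) (nat_lit 55) (nat_lit 2) (nat_lit 8) (.e true (nat_lit 1) (nat_lit 57) (nat_lit 2) (nat_lit 8) (.e true (nat_lit 1) (nat_lit 74) (nat_lit 0) (nat_lit 10) .nil)))))))))))) (.nd (.nd (.nd (.nd .leaf (nat_lit 16398) (nat_lit 274) (.p (nat_lit 132) (nat_lit 3) (.n (nat_lit 133) (nat_lit 1) (.n (nat_lit 134) (nat_lit 1) (.p (nat_lit 136) (nat_lit 2) (.p (nat_lit 137) (nat_lit 1) (.n (nat_lit 138) (nat_lit 3) (.n (nat_lit 139) (nat_lit 2) (.p (nat_lit 140) (nat_lit 2) (.p (nat_lit 141) (nat_lit 3) (.p (nat_lit 143) (nat_lit 3) (.p (nat_lit 144) (nat_lit 1) (.p (nat_lit 145) (nat_lit 1) (.p (nat_lit 147) (nat_lit 3) (.n (nat_lit 149) (nat_lit 2) (.p (nat_lit 150) (nat_lit 2) (.p (nat_lit 151) (nat_lit 2) (.p (nat_lit 152) (nat_lit 3) (.p (nat_lit 153) (nat_lit 2) (.p (nat_lit 154) (nat_lit 1) (.p (nat_lit 155) (nat_lit 1) (.n (nat_lit 157) (nat_lit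 2) .z))))))))))))))))))))) (.ct dC2a_c291 (nat_lit 1) (nat_lit 0) (.s false (nat_lit 1) (nat_lit 5) (nat_lit 2) (nat_lit 2) (nat_lit 4) true (nat_lit 0) true (nat_lit 6) true (nat_lit 5) true (nat_lit 8) true (nat_lit 8) (.e false (nat_lit 1) (nat_lit 42) (nat_lit 4) (nat_lit 6) (.e false (nat_lit 2) (nat_lit 40) (nat_lit 5) (nat_lit 5) (.e true (nat_lit 2) (nat_lit 41) (nat_lit 5) (nat_lit 5) (.e false (nat_lit 1) (nat_lit 61) (nat_lit 2) (nat_lit 8) (.e true (nat_lit 2) (nat_lit 63) (nat_lit 2) (nat_lit 8) (.e true (nat_lit 2) (nat_lit 64) (nat_lit 2) (nat_lit 8) (.e false (nat_lit 1) (nat_lit 67) (nat_lit 2) (nat_lit 8) (.e true (nat_lit 1) (nat_lit 68) (nat_lit 2) (nat_lit 8) (.e false (nat_lit 2) (nat_lit 71) (nat_lit 2) (nat_lit 8) (.e false (nat_lit 1) (nat_lit 73) (nat_lit 2) (nat_lit 8) (.e false (nat_lit 1) (nat_lit 62) (nat_lit 2) (nat_lit 8) (.u (nat_lit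 2) (.n (nat_lit 1) (nat_lit 1) (.p (nat_lit 2) (nat_lit 1) (.n (nat_lit 3) (nat_lit 1) (.n (nat_lit 4) (nat_lit 1) (.p (nat_lit 6) (nat_lit 1) (.n (nat_lit 12) (nat_lit 1) (.n (nat_lit 18) (nat_lit 1) (.n (nat_lit 23) (nat_lit 1) (.p (nat_lit 24) (nat_lit 1) .z))))))))) .nil)))))))))))))) .leaf) (nat_lit 16399) (nat_lit 263) (.p (nat_lit 132) (nat_lit 1) (.p (nat_lit 133) (nat_lit 1) (.n (nat_lit 134) (nat_lit 1) (.n (nat_lit 135) (nat_lit 1) (.n (nat_lit 136) (nat_lit 1) (.p (nat_lit 137) (nat_lit 1) (.p (nat_lit 138) (nat_lit 1) (.n (nat_lit 141) (nat_lit 1) (.n (nat_lit 143) (nat_lit 1) (.p (nat_lit 145) (nat_lit 2) (.p (nat_lit 149) (nat_lit 1) (.n (nat_lit 151) (nat_lit 1) (.n (nat_lit 152) (nat_lit 1) (.n (nat_lit 153) (nat_lit 1) (.n (nat_lit 154) (nat_lit 1) (.p (nat_lit 155) (nat_lit 1) (.p (nat_lit 157) (nat_lit 1) .z))))))))))))))))) (.ct dC2a_c291 (nat_lit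 1) (nat_lit 0) (.s true (nat_lit 1) (nat_lit 15) (nat_lit 2) (nat_lit 0) (nat_lit 2) true (nat_lit 3) true (nat_lit 8) true (nat_lit 0) true (nat_lit 8) true (nat_lit 10) (.e false (nat_lit 1) (nat_lit 29) (nat_lit 7) (nat_lit 3) (.e true (nat_lit 1) (nat_lit 71) (nat_lit 2) (nat_lit 8) (.e true (nat_lit 1) (nat_lit 64) (nat_lit 2) (nat_lit 8) (.e true (nat_lit 1) (nat_lit 69) (nat_lit 2) (nat_lit 8) (.e false (nat_lit 1) (nat_lit 73) (nat_lit 2) (nat_lit 8) (.e true (nat_lit 1) (nat_lit 92) (nat_lit 0) (nat_lit 10) .nil)))))))) .leaf) (nat_lit 17409) (nat_lit 39) (.p (nat_lit 37) (nat_lit 1) .z) .df (.nd (.nd .leaf (nat_lit 17410) (nat_lit 50) (.p (nat_lit 43) (nat_lit 1) .z) .df .leaf) (nat_lit 17412) (nat_lit 102) (.p (nat_lit 60) (nat_lit 2) (.p (nat_lit 61) (nat_lit 2) (.n (nat_lit 62) (nat_lit 1) (.n (nat_lit 63) (nat_lit 2) (.p (nat_lit 65) (nat_lit 2) (.p (nat_lit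 67) (nat_lit 1) (.n (nat_lit 68) (nat_lit 1) (.n (nat_lit 70) (nat_lit 1) (.p (nat_lit 71) (nat_lit 2) (.p (nat_lit 73) (nat_lit 1) .z)))))))))) (.ct dC2a_c290 (nat_lit 1) (nat_lit 3) (.s true (nat_lit 1) (nat_lit 4) (nat_lit 2) (nat_lit 2) (nat_lit 0) true (nat_lit 2) true (nat_lit 7) true (nat_lit 3) true (nat_lit 5) true (nat_lit 5) (.e true (nat_lit 1) (nat_lit 14) (nat_lit 5) (nat_lit 2) (.e true (nat_lit 1) (nat_lit 39) (nat_lit 0) (nat_lit 7) (.e false (nat_lit 1) (nat_lit 24) (nat_lit 2) (nat_lit 5) (.e true (nat_lit 1) (nat_lit 26) (nat_lit 2) (nat_lit 5) (.e false (nat_lit 1) (nat_lit 28) (nat_lit 2) (nat_lit 5) (.e false (nat_lit 1) (nat_lit 29) (nat_lit 2) (nat_lit 5) (.e false (nat_lit 1) (nat_lit 25) (nat_lit 2) (nat_lit 5) .nil))))))))) .leaf)) (nat_lit 17414) (nat_lit 128) (.n (nat_lit 80) (nat_lit 2) (.p (nat_lit 81) (nat_lit 2) (.p (nat_lit 82) (nat_lit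 1) (.n (nat_lit 83) (nat_lit 1) (.p (nat_lit 84) (nat_lit 2) (.p (nat_lit 85) (nat_lit 2) (.p (nat_lit 86) (nat_lit 1) (.n (nat_lit 87) (nat_lit 1) (.n (nat_lit 89) (nat_lit 1) .z))))))))) (.ct dC2a_c275 (nat_lit 1) (nat_lit 1) (.s true (nat_lit 1) (nat_lit 6) (nat_lit 2) (nat_lit 2) (nat_lit 0) true (nat_lit 2) true (nat_lit 6) true (nat_lit 1) true (nat_lit 4) true (nat_lit 4) (.e true (nat_lit 1) (nat_lit 18) (nat_lit 5) (nat_lit 2) (.e true (nat_lit 1) (nat_lit 45) (nat_lit 0) (nat_lit 6) (.e true (nat_lit 1) (nat_lit 33) (nat_lit 2) (nat_lit 4) (.e false (nat_lit 1) (nat_lit 34) (nat_lit 2) (nat_lit 4) (.e false (nat_lit 1) (nat_lit 37) (nat_lit 2) (nat_lit 4) (.e false (nat_lit 1) (nat_lit 38) (nat_lit 2) (nat_lit 4) (.e false (nat_lit 1) (nat_lit 35) (nat_lit 2) (nat_lit 4) .nil))))))))) (.nd (.nd (.nd .leaf (nat_lit 17415) (nat_lit 151) (.p (nat_lit 98) (nat_lit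 2) (.p (nat_lit 99) (nat_lit 2) .z)) (.ct dC2a_c260 (nat_lit 1) (nat_lit 0) (.s true (nat_lit 3) (nat_lit 7) (nat_lit 2) (nat_lit 0) (nat_lit 2) true (nat_lit 0) true (nat_lit 2) true (nat_lit 0) true (nat_lit 2) true (nat_lit 3) (.s false (nat_lit 3) (nat_lit 7) (nat_lit 2) (nat_lit 2) (nat_lit 0) true (nat_lit 1) true (nat_lit 3) true (nat_lit 0) true (nat_lit 2) true (nat_lit 2) (.e true (nat_lit 2) (nat_lit 44) (nat_lit 2) (nat_lit 2) (.e true (nat_lit 3) (nat_lit 16) (nat_lit 7) (nat_lit 0) (.e true (nat_lit 2) (nat_lit 43) (nat_lit 2) (nat_lit 2) (.e false (nat_lit 3) (nat_lit 20) (nat_lit 5) (nat_lit 1) (.u (nat_lit 2) (.n (nat_lit 1) (nat_lit 1) (.n (nat_lit 2) (nat_lit 1) (.p (nat_lit 5) (nat_lit 1) (.n (nat_lit 8) (nat_lit 1) (.n (nat_lit 9) (nat_lit 1) .z))))) .nil)))))))) .leaf) (nat_lit 17418) (nat_lit 204) (.n (nat_lit 106) (nat_lit 2) (.p (nat_lit 107)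 (nat_lit 2) (.p (nat_lit 108) (nat_lit 1) (.p (nat_lit 109) (nat_lit 3) (.n (nat_lit 110) (nat_lit 1) (.n (nat_lit 112) (nat_lit 1) (.p (nat_lit 113) (nat_lit 1) (.p (nat_lit 114) (nat_lit 1) (.n (nat_lit 115) (nat_lit 1) (.n (nat_lit 116) (nat_lit 3) (.n (nat_lit 117) (nat_lit 2) (.n (nat_lit 118) (nat_lit 1) (.p (nat_lit 120) (nat_lit 2) (.n (nat_lit 122) (nat_lit 2) (.p (nat_lit 131) (nat_lit 1) .z))))))))))))))) (.ct dC2a_c306 (nat_lit 1) (nat_lit 1) (.s true (nat_lit 1) (nat_lit 10) (nat_lit 2) (nat_lit 2) (nat_lit 0) true (nat_lit 5) true (nat_lit 10) true (nat_lit 1) true (nat_lit 8) true (nat_lit 8) (.e true (nat_lit 1) (nat_lit 30) (nat_lit 5) (nat_lit 5) (.e true (nat_lit 1) (nat_lit 74) (nat_lit 0) (nat_lit 10) (.e true (nat_lit 1) (nat_lit 49) (nat_lit 2) (nat_lit 8) (.e false (nat_lit 1) (nat_lit 50) (nat_lit 2) (nat_lit 8) (.e false (nat_lit 2) (nat_lit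 52) (nat_lit 2) (nat_lit 8) (.e true (nat_lit 1) (nat_lit 55) (nat_lit 2) (nat_lit 8) (.e false (nat_lit 1) (nat_lit 57) (nat_lit 2) (nat_lit 8) (.e true (nat_lit 1) (nat_lit 59) (nat_lit 2) (nat_lit 8) (.e false (nat_lit 1) (nat_lit 51) (nat_lit 2) (nat_lit 8) (.u (nat_lit 2) (.n (nat_lit 14) (nat_lit 1) (.p (nat_lit 16) (nat_lit 1) .z)) .nil)))))))))))) .leaf) (nat_lit 17422) (nat_lit 288) (.n (nat_lit 132) (nat_lit 2) (.p (nat_lit 133) (nat_lit 3) (.p (nat_lit 134) (nat_lit 2) (.n (nat_lit 135) (nat_lit 3) (.p (nat_lit 136) (nat_lit 1) (.n (nat_lit 137) (nat_lit 3) (.p (nat_lit 138) (nat_lit 2) (.n (nat_lit 139) (nat_lit 1) (.p (nat_lit 140) (nat_lit 1) (.n (nat_lit 141) (nat_lit 3) (.n (nat_lit 142) (nat_lit 1) (.n (nat_lit 143) (nat_lit 2) (.p (nat_lit 145) (nat_lit 1) (.p (nat_lit 147) (nat_lit 2) (.n (nat_lit 149) (nat_lit 3) (.n (nat_lit 150) (nat_lit 1) (.p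 (nat_lit 151) (nat_lit 1) (.p (nat_lit 152) (nat_lit 3) (.p (nat_lit 153) (nat_lit 2) (.p (nat_lit 154) (nat_lit 1) (.n (nat_lit 155) (nat_lit 3) (.p (nat_lit 156) (nat_lit 3) (.n (nat_lit 157) (nat_lit 3) .z))))))))))))))))))))))) (.ct dC2a_c291 (nat_lit 1) (nat_lit 0) (.s true (nat_lit 1) (nat_lit 14) (nat_lit 2) (nat_lit 2) (nat_lit 0) true (nat_lit 5) true (nat_lit 10) true (nat_lit 0) true (nat_lit 8) true (nat_lit 8) (.e true (nat_lit 1) (nat_lit 39) (nat_lit 5) (nat_lit 5) (.e true (nat_lit 1) (nat_lit 91) (nat_lit 0) (nat_lit 10) (.e false (nat_lit 2) (nat_lit 60) (nat_lit 2) (nat_lit 8) (.e false (nat_lit 2) (nat_lit 61) (nat_lit 2) (nat_lit 8) (.e false (nat_lit 3) (nat_lit 63) (nat_lit 2) (nat_lit 8) (.e true (nat_lit 2) (nat_lit 64) (nat_lit 2) (nat_lit 8) (.e false (nat_lit 2) (nat_lit 65) (nat_lit 2) (nat_lit 8) (.e false (nat_lit 1) (nat_lit 67) (nat_lit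 2) (nat_lit 8) (.e true (nat_lit 1) (nat_lit 68) (nat_lit 2) (nat_lit 8) (.e false (nat_lit 2) (nat_lit 71) (nat_lit 2) (nat_lit 8) (.e false (nat_lit 1) (nat_lit 73) (nat_lit 2) (nat_lit 8) (.e false (nat_lit 1) (nat_lit 62) (nat_lit 2) (nat_lit 8) (.u (nat_lit 2) (.p (nat_lit 0) (nat_lit 1) (.n (nat_lit 1) (nat_lit 1) (.p (nat_lit 3) (nat_lit 1) (.p (nat_lit 5) (nat_lit 1) (.p (nat_lit 9) (nat_lit 1) (.n (nat_lit 62) (nat_lit 1) .z)))))) .nil))))))))))))))) (.nd .leaf (nat_lit 17423) (nat_lit 264) (.p (nat_lit 136) (nat_lit 1) (.p (nat_lit 137) (nat_lit 1) (.p (nat_lit 141) (nat_lit 1) (.n (nat_lit 145) (nat_lit 1) (.n (nat_lit 151) (nat_lit 1) (.n (nat_lit 156) (nat_lit 1) .z)))))) (.ct dC2a_c291 (nat_lit 1) (nat_lit 0) (.s true (nat_lit 1) (nat_lit 15) (nat_lit 2) (nat_lit 2) (nat_lit 0) true (nat_lit 5) true (nat_lit 10) true (nat_lit 0) true (nat_lit 8) true (nat_lit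 8) (.e true (nat_lit 1) (nat_lit 40) (nat_lit 5) (nat_lit 5) (.e true (nat_lit 1) (nat_lit 92) (nat_lit 0) (nat_lit 10) (.e false (nat_lit 1) (nat_lit 64) (nat_lit 2) (nat_lit 8) (.e false (nat_lit 1) (nat_lit 69) (nat_lit 2) (nat_lit 8) (.e true (nat_lit 1) (nat_lit 73) (nat_lit 2) (nat_lit 8) (.e false (nat_lit 1) (nat_lit 65) (nat_lit 2) (nat_lit 8) .nil)))))))) .leaf))))))

noncomputable def dC2a_t1 : Tr := (.nd (.nd (.nd (.nd (.nd (.nd (.nd .leaf (nat_lit 18433) (nat_lit 46) (.p (nat_lit 41) (nat_lit 1) .z) .df .leaf) (nat_lit 18434) (nat_lit 53) (.p (nat_lit 45) (nat_lit 1) .z) .df .leaf) (nat_lit 18435) (nat_lit 92) (.n (nat_lit 61) (nat_lit 1) (.p (nat_lit 63) (nat_lit 1) (.n (nat_lit 65) (nat_lit 1) (.n (nat_lit 66) (nat_lit 1) (.p (nat_lit 72) (nat_lit 1) .z))))) (.ct dC2a_c290 (nat_lit 1) (nat_lit 4) (.s false (nat_lit 1) (nat_lit 3) (nat_lit 2) (nat_lit 1)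 (nat_lit 2) true (nat_lit 0) true (nat_lit 5) true (nat_lit 4) true (nat_lit 5) true (nat_lit 6) (.e false (nat_lit 1) (nat_lit 8) (nat_lit 7) (nat_lit 0) (.e true (nat_lit 1) (nat_lit 25) (nat_lit 2) (nat_lit 5) (.e false (nat_lit 1) (nat_lit 27) (nat_lit 2) (nat_lit 5) (.e true (nat_lit 1) (nat_lit 29) (nat_lit 2) (nat_lit 5) (.e true (nat_lit 1) (nat_lit 33) (nat_lit 1) (nat_lit 6) .nil))))))) (.nd (.nd .leaf (nat_lit 18436) (nat_lit 110) (.n (nat_lit 74) (nat_lit 1) (.p (nat_lit 77) (nat_lit 1) (.n (nat_lit 79) (nat_lit 1) .z))) (.ct dC2a_c50 (nat_lit 1) (nat_lit 2) (.s true (nat_lit 1) (nat_lit 4) (nat_lit 2) (nat_lit 1) (nat_lit 2) true (nat_lit 0) true (nat_lit 3) true (nat_lit 2) true (nat_lit 3) true (nat_lit 4) (.e true (nat_lit 1) (nat_lit 10) (nat_lit 7) (nat_lit 0) (.e true (nat_lit 1) (nat_lit 30) (nat_lit 2) (nat_lit 3) (.e false (nat_lit 1) (nat_lit 39)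 (nat_lit 1) (nat_lit 4) .nil))))) .leaf) (nat_lit 18437) (nat_lit 127) (.p (nat_lit 80) (nat_lit 1) (.n (nat_lit 81) (nat_lit 1) (.p (nat_lit 83) (nat_lit 1) (.n (nat_lit 84) (nat_lit 1) (.n (nat_lit 85) (nat_lit 1) (.n (nat_lit 86) (nat_lit 1) (.p (nat_lit 89) (nat_lit 1) .z))))))) (.ct dC2a_c275 (nat_lit 1) (nat_lit 2) (.s false (nat_lit 1) (nat_lit 5) (nat_lit 2) (nat_lit 1) (nat_lit 2) true (nat_lit 0) true (nat_lit 4) true (nat_lit 2) true (nat_lit 4) true (nat_lit 5) (.e false (nat_lit 1) (nat_lit 12) (nat_lit 7) (nat_lit 0) (.e false (nat_lit 1) (nat_lit 36) (nat_lit 2) (nat_lit 4) (.e false (nat_lit 1) (nat_lit 33) (nat_lit 2) (nat_lit 4) (.e true (nat_lit 1) (nat_lit 34) (nat_lit 2) (nat_lit 4) (.e true (nat_lit 1) (nat_lit 37) (nat_lit 2) (nat_lit 4) (.e true (nat_lit 1) (nat_lit 38) (nat_lit 2) (nat_lit 4) (.e true (nat_lit 1) (nat_lit 42) (nat_lit 1) (nat_lit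 5) .nil))))))))) .leaf)) (nat_lit 18438) (nat_lit 143) (.n (nat_lit 91) (nat_lit 1) (.p (nat_lit 92) (nat_lit 2) (.p (nat_lit 93) (nat_lit 1) (.n (nat_lit 94) (nat_lit 1) (.n (nat_lit 95) (nat_lit 1) (.p (nat_lit 96) (nat_lit 1) .z)))))) (.ct dC2a_c35 (nat_lit 1) (nat_lit 1) (.s true (nat_lit 1) (nat_lit 6) (nat_lit 2) (nat_lit 2) (nat_lit 1) true (nat_lit 1) true (nat_lit 4) true (nat_lit 1) true (nat_lit 3) true (nat_lit 3) (.e true (nat_lit 1) (nat_lit 45) (nat_lit 1) (nat_lit 4) (.e true (nat_lit 1) (nat_lit 19) (nat_lit 6) (nat_lit 1) (.e false (nat_lit 1) (nat_lit 40) (nat_lit 2) (nat_lit 3) .nil))))) (.nd (.nd (.nd .leaf (nat_lit 18439) (nat_lit 156) (.p (nat_lit 104) (nat_lit 1) .z) .df .leaf) (nat_lit 18440) (nat_lit 188) (.n (nat_lit 109) (nat_lit 1) (.p (nat_lit 116) (nat_lit 1) (.p (nat_lit 117) (nat_lit 1) (.n (nat_lit 128) (nat_lit 1) .z)))) (.ct dC2a_c306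 (nat_lit 1) (nat_lit 2) (.s true (nat_lit 1) (nat_lit 8) (nat_lit 2) (nat_lit 1) (nat_lit 2) true (nat_lit 3) true (nat_lit 8) true (nat_lit 2) true (nat_lit 8) true (nat_lit 9) (.e true (nat_lit 1) (nat_lit 21) (nat_lit 7) (nat_lit 3) (.e true (nat_lit 1) (nat_lit 52) (nat_lit 2) (nat_lit 8) (.e false (nat_lit 1) (nat_lit 59) (nat_lit 2) (nat_lit 8) (.e false (nat_lit 1) (nat_lit 60) (nat_lit 1) (nat_lit 9) .nil)))))) .leaf) (nat_lit 18441) (nat_lit 191) (.p (nat_lit 107) (nat_lit 1) (.p (nat_lit 108) (nat_lit 1) (.p (nat_lit 109) (nat_lit 1) (.n (nat_lit 112) (nat_lit 1) (.p (nat_lit 113) (nat_lit 1) (.p (nat_lit 114) (nat_lit 1) (.n (nat_lit 115) (nat_lit 1) (.n (nat_lit 116) (nat_lit 1) (.p (nat_lit 118) (nat_lit 1) (.n (nat_lit 129) (nat_lit 1) .z)))))))))) (.ct dC2a_c306 (nat_lit 1) (nat_lit 2) (.s true (nat_lit 1) (nat_lit 9) (nat_lit 2) (nat_lit 1) (nat_lit 2)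 true (nat_lit 3) true (nat_lit 8) true (nat_lit 2) true (nat_lit 8) true (nat_lit 9) (.e true (nat_lit 1) (nat_lit 22) (nat_lit 7) (nat_lit 3) (.e false (nat_lit 1) (nat_lit 50) (nat_lit 2) (nat_lit 8) (.e false (nat_lit 1) (nat_lit 51) (nat_lit 2) (nat_lit 8) (.e false (nat_lit 1) (nat_lit 52) (nat_lit 2) (nat_lit 8) (.e true (nat_lit 1) (nat_lit 55) (nat_lit 2) (nat_lit 8) (.e false (nat_lit 1) (nat_lit 56) (nat_lit 2) (nat_lit 8) (.e false (nat_lit 1) (nat_lit 57) (nat_lit 2) (nat_lit 8) (.e true (nat_lit 1) (nat_lit 58) (nat_lit 2) (nat_lit 8) (.e true (nat_lit 1) (nat_lit 59) (nat_lit 2) (nat_lit 8) (.e false (nat_lit 1) (nat_lit 61) (nat_lit 1) (nat_lit 9) .nil)))))))))))) (.nd (.nd .leaf (nat_lit 18443) (nat_lit 254) (.n (nat_lit 138) (nat_lit 1) (.p (nat_lit 145) (nat_lit 1) (.p (nat_lit 146) (nat_lit 1) (.n (nat_lit 154) (nat_lit 1) .z)))) (.ct dC2a_c291 (nat_lit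 1) (nat_lit 1) (.s true (nat_lit 1) (nat_lit 11) (nat_lit 2) (nat_lit 1) (nat_lit 2) true (nat_lit 3) true (nat_lit 8) true (nat_lit 1) true (nat_lit 8) true (nat_lit 9) (.e true (nat_lit 1) (nat_lit 26) (nat_lit 7) (nat_lit 3) (.e true (nat_lit 1) (nat_lit 66) (nat_lit 2) (nat_lit 8) (.e false (nat_lit 1) (nat_lit 73) (nat_lit 2) (nat_lit 8) (.e false (nat_lit 1) (nat_lit 80) (nat_lit 1) (nat_lit 9) .nil)))))) .leaf) (nat_lit 18444) (nat_lit 260) (.n (nat_lit 133) (nat_lit 1) (.p (nat_lit 135) (nat_lit 1) (.n (nat_lit 138) (nat_lit 1) (.n (nat_lit 139) (nat_lit 1) (.p (nat_lit 140) (nat_lit 1) (.p (nat_lit 144) (nat_lit 1) (.p (nat_lit 147) (nat_lit 1) (.n (nat_lit 155) (nat_lit 1) .z)))))))) (.ct dC2a_c291 (nat_lit 1) (nat_lit 1) (.s true (nat_lit 1) (nat_lit 12) (nat_lit 2) (nat_lit 1) (nat_lit 2) true (nat_lit 3) true (nat_lit 8) true (nat_lit 1) true (nat_lit 8)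 true (nat_lit 9) (.e true (nat_lit 1) (nat_lit 27) (nat_lit 7) (nat_lit 3) (.e true (nat_lit 1) (nat_lit 67) (nat_lit 2) (nat_lit 8) (.e true (nat_lit 1) (nat_lit 61) (nat_lit 2) (nat_lit 8) (.e false (nat_lit 1) (nat_lit 63) (nat_lit 2) (nat_lit 8) (.e true (nat_lit 1) (nat_lit 66) (nat_lit 2) (nat_lit 8) (.e false (nat_lit 1) (nat_lit 68) (nat_lit 2) (nat_lit 8) (.e false (nat_lit 1) (nat_lit 72) (nat_lit 2) (nat_lit 8) (.e false (nat_lit 1) (nat_lit 81) (nat_lit 1) (nat_lit 9) .nil)))))))))) .leaf))) (nat_lit 18445) (nat_lit 279) (.n (nat_lit 132) (nat_lit 1) (.p (nat_lit 133) (nat_lit 1) (.p (nat_lit 134) (nat_lit 3) (.n (nat_lit 135) (nat_lit 3) (.n (nat_lit 136) (nat_lit 3) (.p (nat_lit 137) (nat_lit 2) (.p (nat_lit 138) (nat_lit 1) (.p (nat_lit 139) (nat_lit 3) (.n (nat_lit 140) (nat_lit 3) (.n (nat_lit 141) (nat_lit 3) (.p (nat_lit 142) (nat_lit 1) (.p (nat_lit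 143) (nat_lit 1) (.n (nat_lit 144) (nat_lit 2) (.n (nat_lit 145) (nat_lit 3) (.n (nat_lit 146) (nat_lit 1) (.n (nat_lit 147) (nat_lit 2) (.n (nat_lit 149) (nat_lit 3) (.n (nat_lit 150) (nat_lit 2) (.n (nat_lit 151) (nat_lit 2) (.n (nat_lit 152) (nat_lit 3) (.n (nat_lit 153) (nat_lit 3) (.n (nat_lit 154) (nat_lit 2) (.n (nat_lit 155) (nat_lit 2) (.p (nat_lit 156) (nat_lit 2) (.p (nat_lit 157) (nat_lit 3) .z))))))))))))))))))))))))) (.ct dC2a_c291 (nat_lit 1) (nat_lit 1) (.s false (nat_lit 1) (nat_lit 6) (nat_lit 2) (nat_lit 0) (nat_lit 6) false (nat_lit 1) true (nat_lit 4) true (nat_lit 4) true (nat_lit 8) true (nat_lit 10) (.e false (nat_lit 2) (nat_lit 38) (nat_lit 6) (nat_lit 4) (.e true (nat_lit 1) (nat_lit 33) (nat_lit 6) (nat_lit 4) (.e false (nat_lit 1) (nat_lit 34) (nat_lit 6) (nat_lit 4) (.e false (nat_lit 1) (nat_lit 37) (nat_lit 6) (nat_lit 4) (.e true (nat_lit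 1) (nat_lit 62) (nat_lit 2) (nat_lit 8) (.e true (nat_lit 1) (nat_lit 65) (nat_lit 2) (nat_lit 8) (.e false (nat_lit 1) (nat_lit 66) (nat_lit 2) (nat_lit 8) (.e true (nat_lit 1) (nat_lit 68) (nat_lit 2) (nat_lit 8) (.e true (nat_lit 1) (nat_lit 69) (nat_lit 2) (nat_lit 8) (.e true (nat_lit 1) (nat_lit 71) (nat_lit 2) (nat_lit 8) (.e true (nat_lit 1) (nat_lit 72) (nat_lit 2) (nat_lit 8) (.u (nat_lit 2) (.n (nat_lit 2) (nat_lit 1) (.n (nat_lit 5) (nat_lit 1) (.p (nat_lit 9) (nat_lit 1) (.p (nat_lit 12) (nat_lit 1) (.p (nat_lit 18) (nat_lit 1) (.p (nat_lit 19) (nat_lit 1) (.p (nat_lit 21) (nat_lit 1) (.p (nat_lit 22) (nat_lit 1) (.p (nat_lit 23) (nat_lit 1) (.n (nat_lit 24) (nat_lit 1) (.n (nat_lit 25) (nat_lit 1) .z))))))))))) .nil)))))))))))))) (.nd (.nd (.nd (.nd .leaf (nat_lit 18446) (nat_lit 312) (.n (nat_lit 158) (nat_lit 1) (.n (nat_lit 160) (nat_lit 2) (.p (nat_lit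 161) (nat_lit 1) (.p (nat_lit 162) (nat_lit 3) (.n (nat_lit 163) (nat_lit 2) (.n (nat_lit 164) (nat_lit 1) (.n (nat_lit 166) (nat_lit 1) (.p (nat_lit 168) (nat_lit 1) .z)))))))) (.ct dC2a_c51 (nat_lit 1) (nat_lit 0) (.s false (nat_lit 1) (nat_lit 14) (nat_lit 1) (nat_lit 2) (nat_lit 2) true (nat_lit 3) true (nat_lit 5) true (nat_lit 0) true (nat_lit 6) true (nat_lit 5) (.e false (nat_lit 1) (nat_lit 39) (nat_lit 6) (nat_lit 3) (.e false (nat_lit 1) (nat_lit 75) (nat_lit 2) (nat_lit 5) (.e true (nat_lit 1) (nat_lit 96) (nat_lit 1) (nat_lit 6) (.e true (nat_lit 1) (nat_lit 77) (nat_lit 2) (nat_lit 5) .nil)))))) .leaf) (nat_lit 18447) (nat_lit 302) (.p (nat_lit 158) (nat_lit 1) (.p (nat_lit 160) (nat_lit 1) (.n (nat_lit 161) (nat_lit 1) (.n (nat_lit 162) (nat_lit 1) (.p (nat_lit 163) (nat_lit 1) (.p (nat_lit 168) (nat_lit 1) .z)))))) (.ct dC2a_c51 (nat_lit 1) (nat_lit 0)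 (.s false (nat_lit 1) (nat_lit 6) (nat_lit 2) (nat_lit 1) (nat_lit 6) false (nat_lit 0) true (nat_lit 3) true (nat_lit 3) true (nat_lit 5) true (nat_lit 6) (.e false (nat_lit 1) (nat_lit 41) (nat_lit 6) (nat_lit 3) (.e false (nat_lit 1) (nat_lit 74) (nat_lit 2) (nat_lit 5) (.e false (nat_lit 1) (nat_lit 76) (nat_lit 2) (nat_lit 5) (.e true (nat_lit 1) (nat_lit 77) (nat_lit 2) (nat_lit 5) (.e true (nat_lit 1) (nat_lit 78) (nat_lit 2) (nat_lit 5) (.e false (nat_lit 1) (nat_lit 79) (nat_lit 2) (nat_lit 5) .nil)))))))) .leaf) (nat_lit 18448) (nat_lit 341) (.p (nat_lit 169) (nat_lit 2) (.n (nat_lit 170) (nat_lit 1) (.p (nat_lit 171) (nat_lit 1) (.n (nat_lit 172) (nat_lit 3) (.n (nat_lit 173) (nat_lit 2) (.p (nat_lit 175) (nat_lit 1) (.p (nat_lit 176) (nat_lit 1) (.n (nat_lit 177) (nat_lit 1) (.n (nat_lit 178) (nat_lit 2) (.n (nat_lit 179) (nat_lit 1) (.p (nat_lit 180) (nat_lit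 1) (.n (nat_lit 182) (nat_lit 1) .z)))))))))))) (.ct dC2a_c276 (nat_lit 1) (nat_lit 0) (.s true (nat_lit 1) (nat_lit 16) (nat_lit 1) (nat_lit 2) (nat_lit 2) true (nat_lit 3) true (nat_lit 6) true (nat_lit 0) true (nat_lit 7) true (nat_lit 6) (.e true (nat_lit 1) (nat_lit 42) (nat_lit 6) (nat_lit 3) (.e true (nat_lit 1) (nat_lit 83) (nat_lit 2) (nat_lit 6) (.e false (nat_lit 1) (nat_lit 100) (nat_lit 1) (nat_lit 7) (.e false (nat_lit 1) (nat_lit 86) (nat_lit 2) (nat_lit 6) .nil)))))) (.nd (.nd .leaf (nat_lit 18449) (nat_lit 353) (.p (nat_lit 169) (nat_lit 3) (.n (nat_lit 170) (nat_lit 2) (.p (nat_lit 171) (nat_lit 1) (.n (nat_lit 173) (nat_lit 3) (.n (nat_lit 174) (nat_lit 3) (.n (nat_lit 175) (nat_lit 2) (.n (nat_lit 176) (nat_lit 1) (.p (nat_lit 178) (nat_lit 2) (.p (nat_lit 179) (nat_lit 1) (.p (nat_lit 180) (nat_lit 1) (.n (nat_lit 182) (nat_lit 1) (.n (nat_lit 183)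 (nat_lit 1) (.p (nat_lit 184) (nat_lit 1) .z))))))))))))) (.ct dC2a_c276 (nat_lit 1) (nat_lit 0) (.s false (nat_lit 1) (nat_lit 18) (nat_lit 2) (nat_lit 2) (nat_lit 0) true (nat_lit 4) true (nat_lit 8) false (nat_lit 0) true (nat_lit 6) true (nat_lit 6) (.e false (nat_lit 1) (nat_lit 45) (nat_lit 5) (nat_lit 4) (.e false (nat_lit 1) (nat_lit 101) (nat_lit 0) (nat_lit 8) (.e false (nat_lit 1) (nat_lit 80) (nat_lit 2) (nat_lit 6) (.e true (nat_lit 1) (nat_lit 81) (nat_lit 2) (nat_lit 6) (.e false (nat_lit 1) (nat_lit 83) (nat_lit 2) (nat_lit 6) (.e true (nat_lit 1) (nat_lit 84) (nat_lit 2) (nat_lit 6) (.e true (nat_lit 2) (nat_lit 85) (nat_lit 2) (nat_lit 6) (.e true (nat_lit 1) (nat_lit 86) (nat_lit 2) (nat_lit 6) (.e false (nat_lit 1) (nat_lit 89) (nat_lit 2) (nat_lit 6) (.u (nat_lit 2) (.n (nat_lit 0) (nat_lit 1) (.p (nat_lit 4) (nat_lit 1) (.n (nat_lit 9) (nat_lit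 1) (.n (nat_lit 10) (nat_lit 1) .z)))) .nil)))))))))))) .leaf) (nat_lit 18450) (nat_lit 371) (.p (nat_lit 185) (nat_lit 3) (.p (nat_lit 186) (nat_lit 1) (.n (nat_lit 187) (nat_lit 3) (.n (nat_lit 188) (nat_lit 3) (.p (nat_lit 189) (nat_lit 2) (.n (nat_lit 190) (nat_lit 3) (.n (nat_lit 191) (nat_lit 1) (.p (nat_lit 193) (nat_lit 1) (.p (nat_lit 194) (nat_lit 1) .z))))))))) (.ct dC2a_c36 (nat_lit 1) (nat_lit 0) (.s false (nat_lit 1) (nat_lit 6) (nat_lit 2) (nat_lit 2) (nat_lit 6) true (nat_lit 0) true (nat_lit 3) true (nat_lit 3) true (nat_lit 5) true (nat_lit 5) (.e false (nat_lit 1) (nat_lit 45) (nat_lit 6) (nat_lit 3) (.e false (nat_lit 1) (nat_lit 46) (nat_lit 6) (nat_lit 3) (.e true (nat_lit 1) (nat_lit 47) (nat_lit 6) (nat_lit 3) (.e true (nat_lit 1) (nat_lit 91) (nat_lit 2) (nat_lit 5) (.e false (nat_lit 2) (nat_lit 92) (nat_lit 2) (nat_lit 5) (.e false (nat_lit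 1) (nat_lit 93) (nat_lit 2) (nat_lit 5) (.e true (nat_lit 1) (nat_lit 94) (nat_lit 2) (nat_lit 5) (.e true (nat_lit 1) (nat_lit 95) (nat_lit 2) (nat_lit 5) (.e false (nat_lit 1) (nat_lit 96) (nat_lit 2) (nat_lit 5) (.u (nat_lit 2) (.n (nat_lit 0) (nat_lit 1) (.p (nat_lit 2) (nat_lit 1) (.p (nat_lit 5) (nat_lit 1) .z))) .nil)))))))))))) .leaf)) (nat_lit 19456) (nat_lit 43) (.n (nat_lit 33) (nat_lit 2) (.p (nat_lit 34) (nat_lit 1) (.n (nat_lit 35) (nat_lit 1) (.p (nat_lit 36) (nat_lit 1) (.p (nat_lit 37) (nat_lit 1) (.p (nat_lit 38) (nat_lit 1) .z)))))) (.ct dC2a_c274 (nat_lit 1) (nat_lit 4) (.s true (nat_lit 1) (nat_lit 2) (nat_lit 1) (nat_lit 0) (nat_lit 2) false (nat_lit 0) true (nat_lit 2) true (nat_lit 2) true (nat_lit 3) true (nat_lit 4) (.e true (nat_lit 1) (nat_lit 6) (nat_lit 5) (nat_lit 0) (.e true (nat_lit 1) (nat_lit 13) (nat_lit 2) (nat_lit 2) (.e true (nat_lit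 1) (nat_lit 11) (nat_lit 2) (nat_lit 2) (.e false (nat_lit 1) (nat_lit 16) (nat_lit 1) (nat_lit 3) .nil)))))) (.nd (.nd (.nd .leaf (nat_lit 19457) (nat_lit 48) (.n (nat_lit 39) (nat_lit 1) (.p (nat_lit 40) (nat_lit 1) (.p (nat_lit 41) (nat_lit 1) .z))) (.ct dC2a_c34 (nat_lit 1) (nat_lit 3) (.s false (nat_lit 1) (nat_lit 2) (nat_lit 1) (nat_lit 1) (nat_lit 2) true (nat_lit 0) true (nat_lit 2) true (nat_lit 2) true (nat_lit 3) true (nat_lit 3) (.a true (nat_lit 3) (nat_lit 6) (nat_lit 6) (nat_lit 0) (nat_lit 0) (.e false (nat_lit 1) (nat_lit 15) (nat_lit 2) (nat_lit 2) (.e true (nat_lit 1) (nat_lit 14) (nat_lit 2) (nat_lit 2) (.e false (nat_lit 1) (nat_lit 18) (nat_lit 1) (nat_lit 3) (.u (nat_lit 2) (.p (nat_lit 3) (nat_lit 1) .z) .nil))))))) .leaf) (nat_lit 19458) (nat_lit 54) (.p (nat_lit 46) (nat_lit 1) .z) .df .leaf) (nat_lit 19459) (nat_lit 94) (.n (nat_lit 60) (nat_lit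 1) (.n (nat_lit 61) (nat_lit 1) (.n (nat_lit 62) (nat_lit 1) (.p (nat_lit 63) (nat_lit 1) (.n (nat_lit 65) (nat_lit 1) (.p (nat_lit 66) (nat_lit 1) (.p (nat_lit 73) (nat_lit 1) .z))))))) (.ct dC2a_c290 (nat_lit 1) (nat_lit 4) (.s false (nat_lit 1) (nat_lit 3) (nat_lit 2) (nat_lit 2) (nat_lit 1) true (nat_lit 1) true (nat_lit 6) true (nat_lit 4) true (nat_lit 5) true (nat_lit 5) (.e false (nat_lit 1) (nat_lit 11) (nat_lit 6) (nat_lit 1) (.e false (nat_lit 1) (nat_lit 33) (nat_lit 1) (nat_lit 6) (.e true (nat_lit 1) (nat_lit 25) (nat_lit 2) (nat_lit 5) (.e true (nat_lit 1) (nat_lit 26) (nat_lit 2) (nat_lit 5) (.e false (nat_lit 1) (nat_lit 27) (nat_lit 2) (nat_lit 5) (.e true (nat_lit 1) (nat_lit 29) (nat_lit 2) (nat_lit 5) (.e true (nat_lit 1) (nat_lit 24) (nat_lit 2) (nat_lit 5) .nil))))))))) (.nd .leaf (nat_lit 19460) (nat_lit 114) (.p (nat_lit 74) (nat_lit 2) (.p (nat_lit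 75) (nat_lit 2) (.n (nat_lit 76) (nat_lit 3) (.p (nat_lit 77) (nat_lit 3) (.p (nat_lit 78) (nat_lit 3) (.p (nat_lit 79) (nat_lit 3) .z)))))) (.ct dC2a_c50 (nat_lit 1) (nat_lit 2) (.s true (nat_lit 1) (nat_lit 4) (nat_lit 2) (nat_lit 2) (nat_lit 1) true (nat_lit 1) true (nat_lit 4) true (nat_lit 2) true (nat_lit 3) true (nat_lit 3) (.e true (nat_lit 1) (nat_lit 14) (nat_lit 6) (nat_lit 1) (.e true (nat_lit 1) (nat_lit 39) (nat_lit 1) (nat_lit 4) (.e false (nat_lit 1) (nat_lit 31) (nat_lit 2) (nat_lit 3) (.u (nat_lit 2) (.n (nat_lit 3) (nat_lit 1) .z) .nil)))))) .leaf)))) (nat_lit 19461) (nat_lit 130) (.p (nat_lit 80) (nat_lit 2) (.n (nat_lit 81) (nat_lit 3) (.n (nat_lit 84) (nat_lit 2) (.n (nat_lit 85) (nat_lit 3) (.p (nat_lit 86) (nat_lit 1) (.n (nat_lit 87) (nat_lit 1) (.p (nat_lit 90) (nat_lit 1) .z))))))) (.ct dC2a_c275 (nat_lit 1) (nat_lit 2) (.s false (nat_lit 1)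 (nat_lit 5) (nat_lit 2) (nat_lit 2) (nat_lit 1) true (nat_lit 1) true (nat_lit 5) true (nat_lit 2) true (nat_lit 4) true (nat_lit 4) (.e false (nat_lit 1) (nat_lit 16) (nat_lit 6) (nat_lit 1) (.e false (nat_lit 1) (nat_lit 42) (nat_lit 1) (nat_lit 5) (.e false (nat_lit 1) (nat_lit 33) (nat_lit 2) (nat_lit 4) (.e true (nat_lit 2) (nat_lit 34) (nat_lit 2) (nat_lit 4) (.e true (nat_lit 1) (nat_lit 37) (nat_lit 2) (nat_lit 4) (.e true (nat_lit 1) (nat_lit 38) (nat_lit 2) (nat_lit 4) .nil)))))))) (.nd (.nd (.nd (.nd (.nd .leaf (nat_lit 19462) (nat_lit 142) (.p (nat_lit 91) (nat_lit 1) (.n (nat_lit 92) (nat_lit 1) (.n (nat_lit 93) (nat_lit 1) (.p (nat_lit 95) (nat_lit 1) (.n (nat_lit 96) (nat_lit 1) .z))))) (.ct dC2a_c35 (nat_lit 1) (nat_lit 1) (.s true (nat_lit 1) (nat_lit 7) (nat_lit 1) (nat_lit 1) (nat_lit 2) true (nat_lit 1) true (nat_lit 3) true (nat_lit 0) true (nat_lit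 4) true (nat_lit 4) (.e false (nat_lit 1) (nat_lit 39) (nat_lit 2) (nat_lit 3) (.e true (nat_lit 1) (nat_lit 40) (nat_lit 2) (nat_lit 3) (.e true (nat_lit 1) (nat_lit 41) (nat_lit 2) (nat_lit 3) (.e true (nat_lit 1) (nat_lit 14) (nat_lit 7) (nat_lit 0) (.e false (nat_lit 1) (nat_lit 46) (nat_lit 1) (nat_lit 4) .nil))))))) .leaf) (nat_lit 19463) (nat_lit 158) (.p (nat_lit 102) (nat_lit 2) (.n (nat_lit 103) (nat_lit 2) .z)) (.ct dC2a_c20 (nat_lit 1) (nat_lit 0) (.s false (nat_lit 3) (nat_lit 7) (nat_lit 2) (nat_lit 1) (nat_lit 2) true (nat_lit 0) true (nat_lit 2) true (nat_lit 0) true (nat_lit 2) true (nat_lit 3) (.s false (nat_lit 3) (nat_lit 7) (nat_lit 2) (nat_lit 2) (nat_lit 1) true (nat_lit 1) true (nat_lit 3) true (nat_lit 0) true (nat_lit 2) true (nat_lit 2) (.e false (nat_lit 2) (nat_lit 47) (nat_lit 2) (nat_lit 2) (.e false (nat_lit 3) (nat_lit 18) (nat_lit 7)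 (nat_lit 0) (.e true (nat_lit 2) (nat_lit 46) (nat_lit 2) (nat_lit 2) (.e false (nat_lit 3) (nat_lit 20) (nat_lit 6) (nat_lit 1) (.u (nat_lit 2) (.n (nat_lit 1) (nat_lit 1) (.p (nat_lit 2) (nat_lit 1) (.p (nat_lit 5) (nat_lit 1) (.n (nat_lit 8) (nat_lit 1) (.p (nat_lit 9) (nat_lit 1) .z))))) .nil)))))))) .leaf) (nat_lit 19464) (nat_lit 190) (.p (nat_lit 106) (nat_lit 2) (.n (nat_lit 109) (nat_lit 2) (.p (nat_lit 116) (nat_lit 2) (.n (nat_lit 126) (nat_lit 1) (.n (nat_lit 128) (nat_lit 1) .z))))) (.ct dC2a_c306 (nat_lit 1) (nat_lit 2) (.s true (nat_lit 1) (nat_lit 8) (nat_lit 2) (nat_lit 2) (nat_lit 1) true (nat_lit 4) true (nat_lit 9) true (nat_lit 2) true (nat_lit 8) true (nat_lit 8) (.e true (nat_lit 1) (nat_lit 24) (nat_lit 6) (nat_lit 4) (.e true (nat_lit 1) (nat_lit 60) (nat_lit 1) (nat_lit 9) (.e false (nat_lit 1) (nat_lit 59) (nat_lit 2) (nat_lit 8) (.e false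 (nat_lit 1) (nat_lit 49) (nat_lit 2) (nat_lit 8) .nil)))))) (.nd (.nd .leaf (nat_lit 19465) (nat_lit 192) (.p (nat_lit 107) (nat_lit 2) (.p (nat_lit 108) (nat_lit 1) (.p (nat_lit 109) (nat_lit 1) (.p (nat_lit 110) (nat_lit 1) (.n (nat_lit 112) (nat_lit 1) (.p (nat_lit 113) (nat_lit 1) (.p (nat_lit 114) (nat_lit 1) (.n (nat_lit 115) (nat_lit 1) (.n (nat_lit 116) (nat_lit 1) (.n (nat_lit 118) (nat_lit 1) (.n (nat_lit 131) (nat_lit 1) .z))))))))))) (.ct dC2a_c306 (nat_lit 1) (nat_lit 2) (.s true (nat_lit 1) (nat_lit 9) (nat_lit 2) (nat_lit 2) (nat_lit 1) true (nat_lit 4) true (nat_lit 9) true (nat_lit 2) true (nat_lit 8) true (nat_lit 8) (.e true (nat_lit 1) (nat_lit 25) (nat_lit 6) (nat_lit 4) (.e true (nat_lit 1) (nat_lit 61) (nat_lit 1) (nat_lit 9) (.e false (nat_lit 2) (nat_lit 50) (nat_lit 2) (nat_lit 8) (.e false (nat_lit 1) (nat_lit 51) (nat_lit 2) (nat_lit 8) (.e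 false (nat_lit 1) (nat_lit 52) (nat_lit 2) (nat_lit 8) (.e false (nat_lit 1) (nat_lit 53) (nat_lit 2) (nat_lit 8) (.e true (nat_lit 1) (nat_lit 55) (nat_lit 2) (nat_lit 8) (.e false (nat_lit 1) (nat_lit 56) (nat_lit 2) (nat_lit 8) (.e false (nat_lit 1) (nat_lit 57) (nat_lit 2) (nat_lit 8) (.e true (nat_lit 1) (nat_lit 58) (nat_lit 2) (nat_lit 8) (.e true (nat_lit 1) (nat_lit 59) (nat_lit 2) (nat_lit 8) .nil))))))))))))) .leaf) (nat_lit 19467) (nat_lit 256) (.p (nat_lit 134) (nat_lit 2) (.n (nat_lit 138) (nat_lit 2) (.p (nat_lit 145) (nat_lit 2) (.n (nat_lit 149) (nat_lit 1) (.n (nat_lit 154) (nat_lit 1) .z))))) (.ct dC2a_c291 (nat_lit 1) (nat_lit 1) (.s true (nat_lit 1) (nat_lit 11) (nat_lit 2) (nat_lit 2) (nat_lit 1) true (nat_lit 4) true (nat_lit 9) true (nat_lit 1) true (nat_lit 8) true (nat_lit 8) (.e true (nat_lit 1) (nat_lit 33) (nat_lit 6) (nat_lit 4) (.e true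 (nat_lit 1) (nat_lit 80) (nat_lit 1) (nat_lit 9) (.e false (nat_lit 1) (nat_lit 73) (nat_lit 2) (nat_lit 8) (.e false (nat_lit 1) (nat_lit 62) (nat_lit 2) (nat_lit 8) .nil)))))) .leaf)) (nat_lit 19468) (nat_lit 262) (.n (nat_lit 133) (nat_lit 2) (.n (nat_lit 135) (nat_lit 3) (.n (nat_lit 138) (nat_lit 2) (.n (nat_lit 139) (nat_lit 2) (.p (nat_lit 140) (nat_lit 2) (.p (nat_lit 144) (nat_lit 2) (.n (nat_lit 150) (nat_lit 1) (.n (nat_lit 155) (nat_lit 1) .z)))))))) (.ct dC2a_c291 (nat_lit 1) (nat_lit 1) (.s true (nat_lit 1) (nat_lit 12) (nat_lit 2) (nat_lit 2) (nat_lit 1) true (nat_lit 4) true (nat_lit 9) true (nat_lit 1) true (nat_lit 8) true (nat_lit 8) (.e true (nat_lit 1) (nat_lit 34) (nat_lit 6) (nat_lit 4) (.e true (nat_lit 1) (nat_lit 81) (nat_lit 1) (nat_lit 9) (.e true (nat_lit 1) (nat_lit 61) (nat_lit 2) (nat_lit 8) (.e false (nat_lit 2) (nat_lit 63) (nat_lit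 2) (nat_lit 8) (.e true (nat_lit 1) (nat_lit 66) (nat_lit 2) (nat_lit 8) (.e false (nat_lit 1) (nat_lit 68) (nat_lit 2) (nat_lit 8) (.e false (nat_lit 1) (nat_lit 72) (nat_lit 2) (nat_lit 8) (.u (nat_lit 2) (.p (nat_lit 3) (nat_lit 1) .z) .nil)))))))))) (.nd (.nd (.nd .leaf (nat_lit 19469) (nat_lit 282) (.n (nat_lit 132) (nat_lit 2) (.p (nat_lit 133) (nat_lit 2) (.n (nat_lit 134) (nat_lit 1) (.n (nat_lit 135) (nat_lit 2) (.n (nat_lit 137) (nat_lit 2) (.n (nat_lit 138) (nat_lit 1) (.p (nat_lit 139) (nat_lit 3) (.n (nat_lit 140) (nat_lit 3) (.p (nat_lit 141) (nat_lit 3) (.p (nat_lit 142) (nat_lit 1) (.p (nat_lit 143) (nat_lit 3) (.p (nat_lit 144) (nat_lit 1) (.p (nat_lit 145) (nat_lit 1) (.p (nat_lit 147) (nat_lit 3) (.n (nat_lit 149) (nat_lit 1) (.p (nat_lit 150) (nat_lit 1) (.p (nat_lit 151) (nat_lit 2) (.p (nat_lit 153) (nat_lit 1) (.p (nat_lit 154) (nat_lit 1) (.p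 (nat_lit 155) (nat_lit 3) (.n (nat_lit 156) (nat_lit 2) .z))))))))))))))))))))) (.ct dC2a_c291 (nat_lit 1) (nat_lit 1) (.s true (nat_lit 1) (nat_lit 13) (nat_lit 2) (nat_lit 2) (nat_lit 1) true (nat_lit 4) true (nat_lit 9) true (nat_lit 1) true (nat_lit 8) true (nat_lit 8) (.e true (nat_lit 1) (nat_lit 35) (nat_lit 6) (nat_lit 4) (.e true (nat_lit 1) (nat_lit 82) (nat_lit 1) (nat_lit 9) (.e false (nat_lit 1) (nat_lit 62) (nat_lit 2) (nat_lit 8) (.e false (nat_lit 1) (nat_lit 65) (nat_lit 2) (nat_lit 8) (.e true (nat_lit 1) (nat_lit 66) (nat_lit 2) (nat_lit 8) (.e false (nat_lit 1) (nat_lit 68) (nat_lit 2) (nat_lit 8) (.e false (nat_lit 1) (nat_lit 69) (nat_lit 2) (nat_lit 8) (.e false (nat_lit 1) (nat_lit 71) (nat_lit 2) (nat_lit 8) (.e false (nat_lit 1) (nat_lit 72) (nat_lit 2) (nat_lit 8) (.e false (nat_lit 1) (nat_lit 64) (nat_lit 2) (nat_lit 8) (.u (nat_lit 2) (.p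 (nat_lit 2) (nat_lit 1) (.n (nat_lit 7) (nat_lit 1) (.p (nat_lit 8) (nat_lit 1) (.n (nat_lit 9) (nat_lit 1) (.n (nat_lit 19) (nat_lit 1) (.n (nat_lit 22) (nat_lit 1) (.n (nat_lit 23) (nat_lit 1) (.p (nat_lit 24) (nat_lit 1) .z)))))))) .nil))))))))))))) .leaf) (nat_lit 19470) (nat_lit 310) (.p (nat_lit 158) (nat_lit 2) (.n (nat_lit 160) (nat_lit 3) (.n (nat_lit 161) (nat_lit 2) (.p (nat_lit 162) (nat_lit 3) (.p (nat_lit 163) (nat_lit 3) (.n (nat_lit 164) (nat_lit 2) (.p (nat_lit 165) (nat_lit 2) (.p (nat_lit 167) (nat_lit 1) .z)))))))) (.ct dC2a_c51 (nat_lit 1) (nat_lit 0) (.s false (nat_lit 1) (nat_lit 7) (nat_lit 2) (nat_lit 1) (nat_lit 4) true (nat_lit 0) true (nat_lit 4) true (nat_lit 2) true (nat_lit 5) true (nat_lit 6) (.e false (nat_lit 1) (nat_lit 47) (nat_lit 4) (nat_lit 4) (.e false (nat_lit 1) (nat_lit 30) (nat_lit 7) (nat_lit 2) (.e true (nat_lit 1) (nat_lit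 31) (nat_lit 7) (nat_lit 2) (.e false (nat_lit 1) (nat_lit 79) (nat_lit 2) (nat_lit 5) (.e true (nat_lit 2) (nat_lit 92) (nat_lit 1) (nat_lit 6) (.e false (nat_lit 2) (nat_lit 93) (nat_lit 1) (nat_lit 6) .nil)))))))) .leaf) (nat_lit 19471) (nat_lit 307) (.p (nat_lit 159) (nat_lit 1) (.n (nat_lit 161) (nat_lit 1) (.n (nat_lit 162) (nat_lit 1) (.p (nat_lit 165) (nat_lit 1) (.n (nat_lit 166) (nat_lit 1) (.p (nat_lit 168) (nat_lit 1) .z)))))) (.ct dC2a_c51 (nat_lit 1) (nat_lit 0) (.s false (nat_lit 1) (nat_lit 15) (nat_lit 2) (nat_lit 2) (nat_lit 1) true (nat_lit 3) true (nat_lit 6) true (nat_lit 0) true (nat_lit 5) true (nat_lit 5) (.e false (nat_lit 1) (nat_lit 40) (nat_lit 6) (nat_lit 3) (.e false (nat_lit 1) (nat_lit 92) (nat_lit 1) (nat_lit 6) (.e true (nat_lit 1) (nat_lit 74) (nat_lit 2) (nat_lit 5) (.e true (nat_lit 2) (nat_lit 76) (nat_lit 2) (nat_lit 5) (.e false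 (nat_lit 1) (nat_lit 77) (nat_lit 2) (nat_lit 5) (.e false (nat_lit 1) (nat_lit 78) (nat_lit 2) (nat_lit 5) (.e true (nat_lit 1) (nat_lit 79) (nat_lit 2) (nat_lit 5) .nil))))))))) (.nd (.nd .leaf (nat_lit 19472) (nat_lit 335) (.p (nat_lit 169) (nat_lit 1) (.n (nat_lit 170) (nat_lit 1) (.p (nat_lit 172) (nat_lit 1) (.n (nat_lit 173) (nat_lit 1) (.n (nat_lit 174) (nat_lit 2) (.n (nat_lit 176) (nat_lit 1) (.p (nat_lit 179) (nat_lit 1) (.n (nat_lit 180) (nat_lit 1) (.n (nat_lit 184) (nat_lit 1) .z))))))))) (.ct dC2a_c276 (nat_lit 1) (nat_lit 0) (.s true (nat_lit 1) (nat_lit 16) (nat_lit 2) (nat_lit 2) (nat_lit 1) true (nat_lit 3) true (nat_lit 7) true (nat_lit 0) true (nat_lit 6) true (nat_lit 6) (.e true (nat_lit 1) (nat_lit 42) (nat_lit 6) (nat_lit 3) (.e true (nat_lit 1) (nat_lit 97) (nat_lit 1) (nat_lit 7) (.e false (nat_lit 1) (nat_lit 80) (nat_lit 2) (nat_lit 6) (.e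 true (nat_lit 1) (nat_lit 81) (nat_lit 2) (nat_lit 6) (.e true (nat_lit 1) (nat_lit 84) (nat_lit 2) (nat_lit 6) (.e true (nat_lit 2) (nat_lit 85) (nat_lit 2) (nat_lit 6) (.e true (nat_lit 1) (nat_lit 87) (nat_lit 2) (nat_lit 6) (.e false (nat_lit 1) (nat_lit 90) (nat_lit 2) (nat_lit 6) (.e false (nat_lit 1) (nat_lit 83) (nat_lit 2) (nat_lit 6) .nil))))))))))) .leaf) (nat_lit 19473) (nat_lit 349) (.n (nat_lit 169) (nat_lit 2) (.p (nat_lit 172) (nat_lit 2) (.p (nat_lit 173) (nat_lit 2) (.p (nat_lit 174) (nat_lit 2) (.p (nat_lit 175) (nat_lit 2) (.p (nat_lit 177) (nat_lit 3) (.n (nat_lit 178) (nat_lit 1) (.n (nat_lit 179) (nat_lit 1) (.n (nat_lit 180) (nat_lit 2) (.n (nat_lit 181) (nat_lit 1) (.p (nat_lit 182) (nat_lit 3) (.n (nat_lit 183) (nat_lit 1) (.n (nat_lit 184) (nat_lit 2) .z))))))))))))) (.ct dC2a_c276 (nat_lit 1) (nat_lit 0) (.s true (nat_lit 1) (nat_lit 17) (nat_lit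 2) (nat_lit 2) (nat_lit 1) true (nat_lit 3) true (nat_lit 7) true (nat_lit 0) true (nat_lit 6) true (nat_lit 6) (.e true (nat_lit 1) (nat_lit 43) (nat_lit 6) (nat_lit 3) (.e true (nat_lit 1) (nat_lit 98) (nat_lit 1) (nat_lit 7) (.e true (nat_lit 2) (nat_lit 80) (nat_lit 2) (nat_lit 6) (.e false (nat_lit 2) (nat_lit 81) (nat_lit 2) (nat_lit 6) (.e false (nat_lit 1) (nat_lit 82) (nat_lit 2) (nat_lit 6) (.e true (nat_lit 1) (nat_lit 83) (nat_lit 2) (nat_lit 6) (.e false (nat_lit 3) (nat_lit 84) (nat_lit 2) (nat_lit 6) (.e false (nat_lit 2) (nat_lit 85) (nat_lit 2) (nat_lit 6) (.e false (nat_lit 1) (nat_lit 86) (nat_lit 2) (nat_lit 6) (.e true (nat_lit 1) (nat_lit 87) (nat_lit 2) (nat_lit 6) (.e true (nat_lit 1) (nat_lit 89) (nat_lit 2) (nat_lit 6) (.u (nat_lit 2) (.p (nat_lit 1) (nat_lit 1) .z) .nil)))))))))))))) .leaf))) (nat_lit 19474) (nat_lit 367) (.p (nat_lit 185)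 (nat_lit 3) (.n (nat_lit 187) (nat_lit 3) (.n (nat_lit 188) (nat_lit 3) (.p (nat_lit 189) (nat_lit 2) (.p (nat_lit 190) (nat_lit 3) (.n (nat_lit 192) (nat_lit 1) (.p (nat_lit 193) (nat_lit 2) (.p (nat_lit 194) (nat_lit 1) .z)))))))) (.ct dC2a_c36 (nat_lit 1) (nat_lit 0) (.s false (nat_lit 1) (nat_lit 7) (nat_lit 2) (nat_lit 1) (nat_lit 6) true (nat_lit 0) true (nat_lit 3) true (nat_lit 2) true (nat_lit 5) true (nat_lit 6) (.e false (nat_lit 1) (nat_lit 47) (nat_lit 6) (nat_lit 3) (.e false (nat_lit 1) (nat_lit 91) (nat_lit 2) (nat_lit 5) (.e true (nat_lit 2) (nat_lit 92) (nat_lit 2) (nat_lit 5) (.e true (nat_lit 2) (nat_lit 93) (nat_lit 2) (nat_lit 5) (.e false (nat_lit 2) (nat_lit 94) (nat_lit 2) (nat_lit 5) (.e false (nat_lit 1) (nat_lit 95) (nat_lit 2) (nat_lit 5) (.e true (nat_lit 1) (nat_lit 96) (nat_lit 2) (nat_lit 5) (.e true (nat_lit 1) (nat_lit 102) (nat_lit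 1) (nat_lit 6) (.e false (nat_lit 1) (nat_lit 103) (nat_lit 1) (nat_lit 6) (.u (nat_lit 2) (.p (nat_lit 3) (nat_lit 1) (.n (nat_lit 5) (nat_lit 1) .z)) .nil)))))))))))) (.nd (.nd (.nd (.nd .leaf (nat_lit 19475) (nat_lit 369) (.n (nat_lit 185) (nat_lit 3) (.n (nat_lit 186) (nat_lit 1) (.p (nat_lit 187) (nat_lit 3) (.n (nat_lit 188) (nat_lit 3) (.p (nat_lit 189) (nat_lit 2) (.n (nat_lit 190) (nat_lit 3) (.p (nat_lit 192) (nat_lit 2) (.p (nat_lit 194) (nat_lit 1) .z)))))))) (.ct dC2a_c36 (nat_lit 1) (nat_lit 0) (.s false (nat_lit 1) (nat_lit 19) (nat_lit 2) (nat_lit 2) (nat_lit 1) true (nat_lit 3) true (nat_lit 6) true (nat_lit 0) true (nat_lit 5) true (nat_lit 5) (.e false (nat_lit 1) (nat_lit 46) (nat_lit 6) (nat_lit 3) (.e false (nat_lit 1) (nat_lit 102) (nat_lit 1) (nat_lit 6) (.e true (nat_lit 1) (nat_lit 95) (nat_lit 2) (nat_lit 5) (.e false (nat_lit 1) (nat_lit 96)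 (nat_lit 2) (nat_lit 5) (.u (nat_lit 2) (.p (nat_lit 5) (nat_lit 1) .z) .nil))))))) .leaf) (nat_lit 20480) (nat_lit 51) (.p (nat_lit 44) (nat_lit 1) .z) .df .leaf) (nat_lit 20481) (nat_lit 55) (.p (nat_lit 47) (nat_lit 1) .z) .df (.nd (.nd .leaf (nat_lit 20482) (nat_lit 57) (.p (nat_lit 48) (nat_lit 1) .z) .df .leaf) (nat_lit 20483) (nat_lit 126) (.p (nat_lit 81) (nat_lit 1) (.n (nat_lit 82) (nat_lit 1) (.n (nat_lit 83) (nat_lit 1) (.n (nat_lit 85) (nat_lit 1) (.p (nat_lit 88) (nat_lit 1) .z))))) (.ct dC2a_c275 (nat_lit 1) (nat_lit 3) (.s false (nat_lit 1) (nat_lit 3) (nat_lit 2) (nat_lit 2) (nat_lit 2) true (nat_lit 0) true (nat_lit 4) true (nat_lit 3) true (nat_lit 4) true (nat_lit 4) (.e false (nat_lit 1) (nat_lit 11) (nat_lit 7) (nat_lit 0) (.e false (nat_lit 1) (nat_lit 34) (nat_lit 2) (nat_lit 4) (.e true (nat_lit 1) (nat_lit 35) (nat_lit 2) (nat_lit 4) (.e true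 (nat_lit 1) (nat_lit 36) (nat_lit 2) (nat_lit 4) (.e true (nat_lit 1) (nat_lit 38) (nat_lit 2) (nat_lit 4) .nil))))))) .leaf)) (nat_lit 20484) (nat_lit 141) (.n (nat_lit 92) (nat_lit 2) (.p (nat_lit 93) (nat_lit 2) (.n (nat_lit 96) (nat_lit 1) .z))) (.ct dC2a_c35 (nat_lit 1) (nat_lit 2) (.s true (nat_lit 1) (nat_lit 4) (nat_lit 2) (nat_lit 2) (nat_lit 2) true (nat_lit 0) true (nat_lit 3) true (nat_lit 2) true (nat_lit 3) true (nat_lit 3) (.e true (nat_lit 1) (nat_lit 14) (nat_lit 7) (nat_lit 0) (.e true (nat_lit 2) (nat_lit 40) (nat_lit 2) (nat_lit 3) (.e false (nat_lit 2) (nat_lit 41) (nat_lit 2) (nat_lit 3) .nil))))) (.nd (.nd (.nd .leaf (nat_lit 20485) (nat_lit 150) (.n (nat_lit 98) (nat_lit 1) (.n (nat_lit 99) (nat_lit 1) (.p (nat_lit 100) (nat_lit 1) .z))) (.ct dC2a_c260 (nat_lit 1) (nat_lit 1) (.s false (nat_lit 1) (nat_lit 5) (nat_lit 2) (nat_lit 2) (nat_lit 2)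 true (nat_lit 0) true (nat_lit 2) true (nat_lit 1) true (nat_lit 2) true (nat_lit 2) (.e false (nat_lit 1) (nat_lit 16) (nat_lit 7) (nat_lit 0) (.e true (nat_lit 1) (nat_lit 43) (nat_lit 2) (nat_lit 2) (.e true (nat_lit 1) (nat_lit 44) (nat_lit 2) (nat_lit 2) .nil))))) .leaf) (nat_lit 20486) (nat_lit 157) (.n (nat_lit 102) (nat_lit 1) (.p (nat_lit 103) (nat_lit 1) (.n (nat_lit 104) (nat_lit 1) .z))) (.ct dC2a_c20 (nat_lit 1) (nat_lit 1) (.s true (nat_lit 1) (nat_lit 6) (nat_lit 2) (nat_lit 2) (nat_lit 2) true (nat_lit 0) true (nat_lit 2) true (nat_lit 1) true (nat_lit 2) true (nat_lit 2) (.e true (nat_lit 1) (nat_lit 18) (nat_lit 7) (nat_lit 0) (.e true (nat_lit 1) (nat_lit 46) (nat_lit 2) (nat_lit 2) (.e false (nat_lit 1) (nat_lit 47) (nat_lit 2) (nat_lit 2) .nil))))) .leaf) (nat_lit 20487) (nat_lit 161) .z (.ct dC2a_c5 (nat_lit 1) (nat_lit 0) (.s false (nat_lit 3)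 (nat_lit 7) (nat_lit 2) (nat_lit 2) (nat_lit 2) true (nat_lit 0) true (nat_lit 1) true (nat_lit 0) true (nat_lit 1) true (nat_lit 1) (.u (nat_lit 2) (.p (nat_lit 1) (nat_lit 1) .z) .nil))) (.nd .leaf (nat_lit 20488) (nat_lit 252) (.p (nat_lit 144) (nat_lit 1) (.n (nat_lit 152) (nat_lit 1) .z)) (.ct dC2a_c291 (nat_lit 1) (nat_lit 2) (.s true (nat_lit 1) (nat_lit 8) (nat_lit 2) (nat_lit 2) (nat_lit 2) true (nat_lit 3) true (nat_lit 8) true (nat_lit 2) true (nat_lit 8) true (nat_lit 8) (.e true (nat_lit 1) (nat_lit 24) (nat_lit 7) (nat_lit 3) (.e false (nat_lit 1) (nat_lit 72) (nat_lit 2) (nat_lit 8) .nil)))) .leaf))))) (nat_lit 20489) (nat_lit 253) (.p (nat_lit 132) (nat_lit 2) (.p (nat_lit 134) (nat_lit 1) (.n (nat_lit 136) (nat_lit 2) (.p (nat_lit 137) (nat_lit 2) (.n (nat_lit 138) (nat_lit 2) (.n (nat_lit 139) (nat_lit 1) (.p (nat_lit 140) (nat_lit 1) (.p (nat_lit 142)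 (nat_lit 1) (.p (nat_lit 143) (nat_lit 2) (.p (nat_lit 144) (nat_lit 2) (.p (nat_lit 145) (nat_lit 1) (.n (nat_lit 153) (nat_lit 1) .z)))))))))))) (.ct dC2a_c291 (nat_lit 1) (nat_lit 2) (.s true (nat_lit 1) (nat_lit 9) (nat_lit 2) (nat_lit 2) (nat_lit 2) true (nat_lit 3) true (nat_lit 8) true (nat_lit 2) true (nat_lit 8) true (nat_lit 8) (.e true (nat_lit 1) (nat_lit 25) (nat_lit 7) (nat_lit 3) (.e false (nat_lit 2) (nat_lit 60) (nat_lit 2) (nat_lit 8) (.e false (nat_lit 1) (nat_lit 62) (nat_lit 2) (nat_lit 8) (.e true (nat_lit 2) (nat_lit 64) (nat_lit 2) (nat_lit 8) (.e false (nat_lit 2) (nat_lit 65) (nat_lit 2) (nat_lit 8) (.e true (nat_lit 2) (nat_lit 66) (nat_lit 2) (nat_lit 8) (.e true (nat_lit 1) (nat_lit 67) (nat_lit 2) (nat_lit 8) (.e false (nat_lit 1) (nat_lit 68) (nat_lit 2) (nat_lit 8) (.e false (nat_lit 1) (nat_lit 70) (nat_lit 2) (nat_lit 8) (.e false (nat_lit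 2) (nat_lit 71) (nat_lit 2) (nat_lit 8) (.e false (nat_lit 2) (nat_lit 72) (nat_lit 2) (nat_lit 8) (.e false (nat_lit 1) (nat_lit 73) (nat_lit 2) (nat_lit 8) .nil)))))))))))))) (.nd (.nd (.nd (.nd (.nd (.nd .leaf (nat_lit 20490) (nat_lit 301) (.n (nat_lit 163) (nat_lit 1) (.p (nat_lit 167) (nat_lit 1) .z)) (.ct dC2a_c51 (nat_lit 1) (nat_lit 1) (.s false (nat_lit 1) (nat_lit 10) (nat_lit 2) (nat_lit 2) (nat_lit 2) true (nat_lit 2) true (nat_lit 5) true (nat_lit 1) true (nat_lit 5) true (nat_lit 5) (.e false (nat_lit 1) (nat_lit 30) (nat_lit 7) (nat_lit 2) (.e true (nat_lit 1) (nat_lit 79) (nat_lit 2) (nat_lit 5) .nil)))) .leaf) (nat_lit 20491) (nat_lit 332) (.p (nat_lit 177) (nat_lit 1) (.n (nat_lit 181) (nat_lit 1) .z)) (.ct dC2a_c276 (nat_lit 1) (nat_lit 1) (.s true (nat_lit 1) (nat_lit 7) (nat_lit 3) (nat_lit 2) (nat_lit 2) true (nat_lit 1) true (nat_lit 6) true (nat_lit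 2) true (nat_lit 5) true (nat_lit 6) (.e true (nat_lit 1) (nat_lit 33) (nat_lit 7) (nat_lit 2) (.e false (nat_lit 1) (nat_lit 88) (nat_lit 2) (nat_lit 6) .nil)))) .leaf) (nat_lit 20492) (nat_lit 333) (.p (nat_lit 178) (nat_lit 1) (.n (nat_lit 182) (nat_lit 1) .z)) (.ct dC2a_c276 (nat_lit 1) (nat_lit 1) (.s true (nat_lit 1) (nat_lit 12) (nat_lit 2) (nat_lit 2) (nat_lit 2) true (nat_lit 2) true (nat_lit 6) true (nat_lit 1) true (nat_lit 6) true (nat_lit 6) (.e true (nat_lit 1) (nat_lit 34) (nat_lit 7) (nat_lit 2) (.e false (nat_lit 1) (nat_lit 89) (nat_lit 2) (nat_lit 6) .nil)))) (.nd (.nd .leaf (nat_lit 20493) (nat_lit 334) (.p (nat_lit 179) (nat_lit 1) (.n (nat_lit 183) (nat_lit 1) .z)) (.ct dC2a_c276 (nat_lit 1) (nat_lit 1) (.s true (nat_lit 1) (nat_lit 13) (nat_lit 2) (nat_lit 2) (nat_lit 2) true (nat_lit 2) true (nat_lit 6) true (nat_lit 1) true (nat_lit 6) true (nat_lit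 6) (.e true (nat_lit 1) (nat_lit 35) (nat_lit 7) (nat_lit 2) (.e false (nat_lit 1) (nat_lit 90) (nat_lit 2) (nat_lit 6) .nil)))) .leaf) (nat_lit 20494) (nat_lit 365) (.n (nat_lit 190) (nat_lit 1) (.p (nat_lit 194) (nat_lit 1) .z)) (.ct dC2a_c36 (nat_lit 1) (nat_lit 1) (.s false (nat_lit 1) (nat_lit 7) (nat_lit 4) (nat_lit 2) (nat_lit 2) true (nat_lit 1) true (nat_lit 5) true (nat_lit 2) true (nat_lit 4) true (nat_lit 5) (.e false (nat_lit 1) (nat_lit 39) (nat_lit 7) (nat_lit 2) (.e true (nat_lit 1) (nat_lit 96) (nat_lit 2) (nat_lit 5) .nil)))) .leaf)) (nat_lit 20495) (nat_lit 375) (.p (nat_lit 185) (nat_lit 1) (.n (nat_lit 186) (nat_lit 2) (.n (nat_lit 190) (nat_lit 2) (.p (nat_lit 193) (nat_lit 1) (.p (nat_lit 194) (nat_lit 1) .z))))) (.ct dC2a_c36 (nat_lit 1) (nat_lit 1) (.s false (nat_lit 1) (nat_lit 15) (nat_lit 2) (nat_lit 2) (nat_lit 2) true (nat_lit 2) true (nat_lit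 5) true (nat_lit 1) true (nat_lit 5) true (nat_lit 5) (.e false (nat_lit 1) (nat_lit 40) (nat_lit 7) (nat_lit 2) (.e false (nat_lit 2) (nat_lit 92) (nat_lit 2) (nat_lit 5) (.e true (nat_lit 1) (nat_lit 91) (nat_lit 2) (nat_lit 5) (.e false (nat_lit 2) (nat_lit 93) (nat_lit 2) (nat_lit 5) (.e true (nat_lit 2) (nat_lit 94) (nat_lit 2) (nat_lit 5) (.e true (nat_lit 1) (nat_lit 95) (nat_lit 2) (nat_lit 5) (.e false (nat_lit 1) (nat_lit 96) (nat_lit 2) (nat_lit 5) (.u (nat_lit 2) (.p (nat_lit 1) (nat_lit 1) .z) .nil)))))))))) (.nd (.nd (.nd .leaf (nat_lit 20496) (nat_lit 386) (.n (nat_lit 197) (nat_lit 1) (.p (nat_lit 198) (nat_lit 1) (.n (nat_lit 199) (nat_lit 1) .z))) (.ct dC2a_c261 (nat_lit 1) (nat_lit 0) (.s true (nat_lit 1) (nat_lit 20) (nat_lit 0) (nat_lit 2) (nat_lit 2) true (nat_lit 2) true (nat_lit 3) false (nat_lit 0) true (nat_lit 4) true (nat_lit 3) (.e true (nat_lit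 1) (nat_lit 48) (nat_lit 5) (nat_lit 2) (.e true (nat_lit 1) (nat_lit 99) (nat_lit 2) (nat_lit 3) (.e true (nat_lit 1) (nat_lit 98) (nat_lit 2) (nat_lit 3) (.e false (nat_lit 1) (nat_lit 100) (nat_lit 2) (nat_lit 3) .nil)))))) .leaf) (nat_lit 20497) (nat_lit 382) (.p (nat_lit 199) (nat_lit 1) .z) (.ct dC2a_c261 (nat_lit 1) (nat_lit 0) (.s true (nat_lit 1) (nat_lit 7) (nat_lit 0) (nat_lit 2) (nat_lit 7) true (nat_lit 0) true (nat_lit 1) true (nat_lit 1) true (nat_lit 4) true (nat_lit 3) (.e false (nat_lit 1) (nat_lit 44) (nat_lit 7) (nat_lit 1) .nil))) .leaf) (nat_lit 20498) (nat_lit 397) (.p (nat_lit 202) (nat_lit 1) (.n (nat_lit 203) (nat_lit 1) (.p (nat_lit 204) (nat_lit 1) .z))) (.ct dC2a_c21 (nat_lit 1) (nat_lit 0) (.s false (nat_lit 1) (nat_lit 20) (nat_lit 1) (nat_lit 2) (nat_lit 2) true (nat_lit 2) true (nat_lit 3) false (nat_lit 0) true (nat_lit 4) true (nat_lit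 3) (.e false (nat_lit 1) (nat_lit 48) (nat_lit 6) (nat_lit 2) (.e false (nat_lit 1) (nat_lit 103) (nat_lit 2) (nat_lit 3) (.e true (nat_lit 1) (nat_lit 102) (nat_lit 2) (nat_lit 3) (.e true (nat_lit 1) (nat_lit 104) (nat_lit 2) (nat_lit 3) .nil)))))) (.nd (.nd .leaf (nat_lit 20499) (nat_lit 393) (.p (nat_lit 204) (nat_lit 1) .z) (.ct dC2a_c21 (nat_lit 1) (nat_lit 0) (.s false (nat_lit 1) (nat_lit 7) (nat_lit 1) (nat_lit 2) (nat_lit 7) true (nat_lit 0) true (nat_lit 1) true (nat_lit 1) true (nat_lit 4) true (nat_lit 3) (.e false (nat_lit 1) (nat_lit 47) (nat_lit 7) (nat_lit 1) .nil))) .leaf) (nat_lit 21506) (nat_lit 58) (.p (nat_lit 49) (nat_lit 1) .z) .df .leaf))) (nat_lit 21511) (nat_lit 184) (.p (nat_lit 128) (nat_lit 1) .z) .df (.nd (.nd (.nd (.nd .leaf (nat_lit 21524) (nat_lit 446) (.n (nat_lit 227) (nat_lit 1) (.p (nat_lit 245) (nat_lit 1) .z)) (.ct dC2a_c307 (nat_lit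 1) (nat_lit 0) (.s false (nat_lit 1) (nat_lit 21) (nat_lit 2) (nat_lit 2) (nat_lit 2) true (nat_lit 7) true (nat_lit 12) false (nat_lit 0) true (nat_lit 12) true (nat_lit 12) (.e false (nat_lit 1) (nat_lit 49) (nat_lit 7) (nat_lit 7) (.e true (nat_lit 1) (nat_lit 128) (nat_lit 2) (nat_lit 12) .nil)))) .leaf) (nat_lit 22530) (nat_lit 59) (.p (nat_lit 50) (nat_lit 1) .z) .df .leaf) (nat_lit 22535) (nat_lit 185) (.p (nat_lit 129) (nat_lit 1) .z) .df (.nd (.nd .leaf (nat_lit 22548) (nat_lit 447) (.n (nat_lit 228) (nat_lit 1) (.p (nat_lit 246) (nat_lit 1) .z)) (.ct dC2a_c307 (nat_lit 1) (nat_lit 0) (.s false (nat_lit 1) (nat_lit 22) (nat_lit 2) (nat_lit 2) (nat_lit 2) true (nat_lit 7) true (nat_lit 12) false (nat_lit 0) true (nat_lit 12) true (nat_lit 12) (.e false (nat_lit 1) (nat_lit 50) (nat_lit 7) (nat_lit 7) (.e true (nat_lit 1) (nat_lit 129) (nat_lit 2) (nat_lit 12)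 .nil)))) .leaf) (nat_lit 23554) (nat_lit 60) (.p (nat_lit 51) (nat_lit 1) .z) .df .leaf)) (nat_lit 23559) (nat_lit 186) (.p (nat_lit 130) (nat_lit 1) .z) .df (.nd (.nd (.nd .leaf (nat_lit 23572) (nat_lit 448) (.n (nat_lit 229) (nat_lit 1) (.p (nat_lit 247) (nat_lit 1) .z)) (.ct dC2a_c307 (nat_lit 1) (nat_lit 0) (.s false (nat_lit 1) (nat_lit 23) (nat_lit 2) (nat_lit 2) (nat_lit 2) true (nat_lit 7) true (nat_lit 12) false (nat_lit 0) true (nat_lit 12) true (nat_lit 12) (.e false (nat_lit 1) (nat_lit 51) (nat_lit 7) (nat_lit 7) (.e true (nat_lit 1) (nat_lit 130) (nat_lit 2) (nat_lit 12) .nil)))) .leaf) (nat_lit 24577) (nat_lit 61) (.p (nat_lit 52) (nat_lit 1) .z) .df .leaf) (nat_lit 24578) (nat_lit 78) (.p (nat_lit 60) (nat_lit 1) .z) .df (.nd .leaf (nat_lit 24582) (nat_lit 189) (.n (nat_lit 106) (nat_lit 1) (.p (nat_lit 109) (nat_lit 2) (.n (nat_lit 116) (nat_lit 1) (.n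 (nat_lit 117) (nat_lit 1) (.p (nat_lit 126) (nat_lit 1) (.p (nat_lit 128) (nat_lit 1) .z)))))) (.ct dC2a_c306 (nat_lit 1) (nat_lit 4) (.s true (nat_lit 1) (nat_lit 8) (nat_lit 1) (nat_lit 2) (nat_lit 2) true (nat_lit 4) true (nat_lit 8) true (nat_lit 2) true (nat_lit 9) true (nat_lit 8) (.e true (nat_lit 1) (nat_lit 49) (nat_lit 2) (nat_lit 8) (.e true (nat_lit 1) (nat_lit 18) (nat_lit 8) (nat_lit 2) (.e false (nat_lit 1) (nat_lit 72) (nat_lit 1) (nat_lit 9) (.e false (nat_lit 1) (nat_lit 52) (nat_lit 2) (nat_lit 8) .nil)))))) .leaf)))) (nat_lit 24583) (nat_lit 246) (.p (nat_lit 152) (nat_lit 1) .z) .df (.nd (.nd (.nd (.nd (.nd .leaf (nat_lit 24594) (nat_lit 449) (.p (nat_lit 205) (nat_lit 1) (.n (nat_lit 208) (nat_lit 2) (.p (nat_lit 215) (nat_lit 1) (.p (nat_lit 216) (nat_lit 2) (.n (nat_lit 225) (nat_lit 1) (.n (nat_lit 227) (nat_lit 1) (.n (nat_lit 231) (nat_lit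 1) (.p (nat_lit 248) (nat_lit 1) .z)))))))) (.ct dC2a_c307 (nat_lit 1) (nat_lit 1) (.s false (nat_lit 1) (nat_lit 24) (nat_lit 2) (nat_lit 1) (nat_lit 2) true (nat_lit 7) true (nat_lit 12) false (nat_lit 1) true (nat_lit 12) true (nat_lit 13) (.e false (nat_lit 1) (nat_lit 52) (nat_lit 7) (nat_lit 7) (.e false (nat_lit 2) (nat_lit 117) (nat_lit 2) (nat_lit 12) (.e false (nat_lit 1) (nat_lit 106) (nat_lit 2) (nat_lit 12) (.e true (nat_lit 2) (nat_lit 109) (nat_lit 2) (nat_lit 12) (.e false (nat_lit 1) (nat_lit 116) (nat_lit 2) (nat_lit 12) (.e true (nat_lit 1) (nat_lit 126) (nat_lit 2) (nat_lit 12) (.e true (nat_lit 1) (nat_lit 128) (nat_lit 2) (nat_lit 12) (.e true (nat_lit 1) (nat_lit 132) (nat_lit 1) (nat_lit 13) .nil)))))))))) .leaf) (nat_lit 24595) (nat_lit 451) (.p (nat_lit 205) (nat_lit 2) (.p (nat_lit 208) (nat_lit 1) (.p (nat_lit 215) (nat_lit 2) (.n (nat_lit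 216) (nat_lit 3) (.n (nat_lit 225) (nat_lit 2) (.n (nat_lit 227) (nat_lit 2) (.p (nat_lit 242) (nat_lit 1) (.p (nat_lit 248) (nat_lit 1) .z)))))))) (.ct dC2a_c307 (nat_lit 1) (nat_lit 1) (.s false (nat_lit 1) (nat_lit 24) (nat_lit 2) (nat_lit 2) (nat_lit 1) true (nat_lit 8) true (nat_lit 13) false (nat_lit 1) true (nat_lit 12) true (nat_lit 12) (.e false (nat_lit 1) (nat_lit 60) (nat_lit 6) (nat_lit 8) (.e false (nat_lit 1) (nat_lit 132) (nat_lit 1) (nat_lit 13) (.e false (nat_lit 1) (nat_lit 106) (nat_lit 2) (nat_lit 12) (.e true (nat_lit 3) (nat_lit 109) (nat_lit 2) (nat_lit 12) (.e false (nat_lit 1) (nat_lit 116) (nat_lit 2) (nat_lit 12) (.e false (nat_lit 1) (nat_lit 117) (nat_lit 2) (nat_lit 12) (.e true (nat_lit 1) (nat_lit 126) (nat_lit 2) (nat_lit 12) (.e true (nat_lit 1) (nat_lit 128) (nat_lit 2) (nat_lit 12) (.u (nat_lit 2) (.n (nat_lit 3) (nat_lit 1) (.p (nat_lit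 11) (nat_lit 1) .z)) .nil))))))))))) .leaf) (nat_lit 24596) (nat_lit 598) (.n (nat_lit 272) (nat_lit 1) (.p (nat_lit 283) (nat_lit 1) .z)) (.ct dC2a_c292 (nat_lit 1) (nat_lit 0) (.s false (nat_lit 1) (nat_lit 8) (nat_lit 2) (nat_lit 2) (nat_lit 7) true (nat_lit 0) true (nat_lit 6) true (nat_lit 5) true (nat_lit 11) true (nat_lit 11) (.e false (nat_lit 1) (nat_lit 60) (nat_lit 7) (nat_lit 6) (.e true (nat_lit 1) (nat_lit 152) (nat_lit 2) (nat_lit 11) .nil)))) (.nd (.nd .leaf (nat_lit 25601) (nat_lit 62) (.p (nat_lit 53) (nat_lit 1) .z) .df .leaf) (nat_lit 25602) (nat_lit 79) (.p (nat_lit 61) (nat_lit 1) .z) .df .leaf)) (nat_lit 25606) (nat_lit 187) (.p (nat_lit 131) (nat_lit 1) .z) .df (.nd (.nd (.nd .leaf (nat_lit 25607) (nat_lit 247) (.p (nat_lit 153) (nat_lit 1) .z) .df .leaf) (nat_lit 25618) (nat_lit 457) (.p (nat_lit 217) (nat_lit 1) (.n (nat_lit 230) (nat_lit 1)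 (.n (nat_lit 232) (nat_lit 1) (.p (nat_lit 249) (nat_lit 1) .z)))) (.ct dC2a_c307 (nat_lit 1) (nat_lit 1) (.s false (nat_lit 1) (nat_lit 25) (nat_lit 2) (nat_lit 1) (nat_lit 2) true (nat_lit 7) true (nat_lit 12) false (nat_lit 1) true (nat_lit 12) true (nat_lit 13) (.e false (nat_lit 1) (nat_lit 53) (nat_lit 7) (nat_lit 7) (.e false (nat_lit 1) (nat_lit 118) (nat_lit 2) (nat_lit 12) (.e true (nat_lit 1) (nat_lit 131) (nat_lit 2) (nat_lit 12) (.e true (nat_lit 1) (nat_lit 133) (nat_lit 1) (nat_lit 13) .nil)))))) .leaf) (nat_lit 25619) (nat_lit 459) (.n (nat_lit 209) (nat_lit 2) (.p (nat_lit 217) (nat_lit 2) (.n (nat_lit 230) (nat_lit 2) (.p (nat_lit 243) (nat_lit 1) (.p (nat_lit 249) (nat_lit 1) .z))))) (.ct dC2a_c307 (nat_lit 1) (nat_lit 1) (.s false (nat_lit 1) (nat_lit 25) (nat_lit 2) (nat_lit 2) (nat_lit 1) true (nat_lit 8) true (nat_lit 13) false (nat_lit 1) true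 (nat_lit 12) true (nat_lit 12) (.e false (nat_lit 1) (nat_lit 61) (nat_lit 6) (nat_lit 8) (.e false (nat_lit 1) (nat_lit 133) (nat_lit 1) (nat_lit 13) (.e true (nat_lit 1) (nat_lit 131) (nat_lit 2) (nat_lit 12) (.e true (nat_lit 1) (nat_lit 110) (nat_lit 2) (nat_lit 12) .nil)))))) (.nd .leaf (nat_lit 25620) (nat_lit 599) (.n (nat_lit 273) (nat_lit 1) (.p (nat_lit 284) (nat_lit 1) .z)) (.ct dC2a_c292 (nat_lit 1) (nat_lit 0) (.s false (nat_lit 1) (nat_lit 9) (nat_lit 2) (nat_lit 2) (nat_lit 7) true (nat_lit 0) true (nat_lit 6) true (nat_lit 5) true (nat_lit 11) true (nat_lit 11) (.e false (nat_lit 1) (nat_lit 61) (nat_lit 7) (nat_lit 6) (.e true (nat_lit 1) (nat_lit 153) (nat_lit 2) (nat_lit 11) .nil)))) .leaf))) (nat_lit 26625) (nat_lit 63) (.p (nat_lit 54) (nat_lit 1) .z) .df (.nd (.nd (.nd (.nd .leaf (nat_lit 26626) (nat_lit 80) (.p (nat_lit 62) (nat_lit 1) .z) .df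 .leaf) (nat_lit 26630) (nat_lit 193) (.n (nat_lit 107) (nat_lit 1) (.n (nat_lit 108) (nat_lit 1) (.p (nat_lit 111) (nat_lit 1) (.n (nat_lit 117) (nat_lit 1) (.p (nat_lit 118) (nat_lit 1) (.p (nat_lit 119) (nat_lit 1) (.n (nat_lit 120) (nat_lit 1) (.p (nat_lit 122) (nat_lit 1) (.p (nat_lit 128) (nat_lit 1) .z))))))))) (.ct dC2a_c306 (nat_lit 1) (nat_lit 4) (.s true (nat_lit 1) (nat_lit 6) (nat_lit 3) (nat_lit 2) (nat_lit 1) true (nat_lit 2) true (nat_lit 9) true (nat_lit 4) true (nat_lit 7) true (nat_lit 8) (.e true (nat_lit 1) (nat_lit 18) (nat_lit 8) (nat_lit 2) (.e false (nat_lit 1) (nat_lit 61) (nat_lit 1) (nat_lit 9) (.e false (nat_lit 1) (nat_lit 62) (nat_lit 1) (nat_lit 9) (.e true (nat_lit 1) (nat_lit 63) (nat_lit 1) (nat_lit 9) (.e false (nat_lit 1) (nat_lit 65) (nat_lit 1) (nat_lit 9) (.e true (nat_lit 1) (nat_lit 50) (nat_lit 2) (nat_lit 8) (.e true (nat_lit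 1) (nat_lit 51) (nat_lit 2) (nat_lit 8) (.e true (nat_lit 1) (nat_lit 52) (nat_lit 2) (nat_lit 8) (.e false (nat_lit 1) (nat_lit 54) (nat_lit 2) (nat_lit 8) (.e false (nat_lit 1) (nat_lit 59) (nat_lit 2) (nat_lit 8) .nil)))))))))))) .leaf) (nat_lit 26631) (nat_lit 248) (.p (nat_lit 154) (nat_lit 1) .z) .df (.nd (.nd .leaf (nat_lit 26642) (nat_lit 475) (.p (nat_lit 205) (nat_lit 1) (.n (nat_lit 206) (nat_lit 3) (.n (nat_lit 207) (nat_lit 3) (.n (nat_lit 208) (nat_lit 2) (.p (nat_lit 210) (nat_lit 1) (.n (nat_lit 211) (nat_lit 1) (.p (nat_lit 213) (nat_lit 1) (.p (nat_lit 215) (nat_lit 1) (.p (nat_lit 216) (nat_lit 1) (.p (nat_lit 219) (nat_lit 1) (.n (nat_lit 221) (nat_lit 1) (.n (nat_lit 225) (nat_lit 1) (.p (nat_lit 227) (nat_lit 2) (.p (nat_lit 228) (nat_lit 3) (.n (nat_lit 233) (nat_lit 1) (.n (nat_lit 246) (nat_lit 3) (.n (nat_lit 247) (nat_lit 3) (.p (nat_lit 248)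 (nat_lit 1) .z)))))))))))))))))) (.ct dC2a_c307 (nat_lit 1) (nat_lit 1) (.s false (nat_lit 1) (nat_lit 26) (nat_lit 1) (nat_lit 2) (nat_lit 2) true (nat_lit 8) true (nat_lit 12) false (nat_lit 1) true (nat_lit 13) true (nat_lit 12) (.e false (nat_lit 1) (nat_lit 62) (nat_lit 6) (nat_lit 8) (.e false (nat_lit 1) (nat_lit 111) (nat_lit 2) (nat_lit 12) (.e true (nat_lit 1) (nat_lit 154) (nat_lit 1) (nat_lit 13) (.e true (nat_lit 1) (nat_lit 119) (nat_lit 2) (nat_lit 12) (.u (nat_lit 2) (.n (nat_lit 0) (nat_lit 1) (.p (nat_lit 1) (nat_lit 1) (.n (nat_lit 8) (nat_lit 1) (.p (nat_lit 20) (nat_lit 1) .z)))) .nil))))))) .leaf) (nat_lit 26643) (nat_lit 477) (.n (nat_lit 205) (nat_lit 3) (.p (nat_lit 206) (nat_lit 3) (.n (nat_lit 207) (nat_lit 1) (.n (nat_lit 208) (nat_lit 1) (.n (nat_lit 210) (nat_lit 1) (.n (nat_lit 211) (nat_lit 3) (.n (nat_lit 213) (nat_lit 3) (.n (nat_lit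 214) (nat_lit 1) (.p (nat_lit 215) (nat_lit 3) (.p (nat_lit 216) (nat_lit 2) (.n (nat_lit 217) (nat_lit 1) (.n (nat_lit 218) (nat_lit 1) (.p (nat_lit 220) (nat_lit 1) (.n (nat_lit 221) (nat_lit 1) (.p (nat_lit 225) (nat_lit 3) (.n (nat_lit 227) (nat_lit 2) (.n (nat_lit 231) (nat_lit 2) (.p (nat_lit 233) (nat_lit 2) (.p (nat_lit 242) (nat_lit 1) (.p (nat_lit 245) (nat_lit 3) (.n (nat_lit 248) (nat_lit 2) (.n (nat_lit 251) (nat_lit 1) .z)))))))))))))))))))))) (.ct dC2a_c307 (nat_lit 1) (nat_lit 1) (.s false (nat_lit 1) (nat_lit 26) (nat_lit 2) (nat_lit 2) (nat_lit 1) true (nat_lit 8) true (nat_lit 13) false (nat_lit 1) true (nat_lit 12) true (nat_lit 12) (.e false (nat_lit 1) (nat_lit 62) (nat_lit 6) (nat_lit 8) (.e false (nat_lit 1) (nat_lit 134) (nat_lit 1) (nat_lit 13) (.e false (nat_lit 1) (nat_lit 107) (nat_lit 2) (nat_lit 12) (.e false (nat_lit 1) (nat_lit 108) (nat_lit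 2) (nat_lit 12) (.e true (nat_lit 2) (nat_lit 111) (nat_lit 2) (nat_lit 12) (.e false (nat_lit 1) (nat_lit 117) (nat_lit 2) (nat_lit 12) (.e true (nat_lit 1) (nat_lit 118) (nat_lit 2) (nat_lit 12) (.e true (nat_lit 1) (nat_lit 119) (nat_lit 2) (nat_lit 12) (.e false (nat_lit 1) (nat_lit 120) (nat_lit 2) (nat_lit 12) (.e true (nat_lit 1) (nat_lit 122) (nat_lit 2) (nat_lit 12) (.e true (nat_lit 1) (nat_lit 128) (nat_lit 2) (nat_lit 12) .nil))))))))))))) .leaf)) (nat_lit 26644) (nat_lit 600) (.n (nat_lit 274) (nat_lit 1) (.p (nat_lit 285) (nat_lit 1) .z)) (.ct dC2a_c292 (nat_lit 1) (nat_lit 0) (.s false (nat_lit 1) (nat_lit 26) (nat_lit 2) (nat_lit 2) (nat_lit 2) true (nat_lit 6) true (nat_lit 11) false (nat_lit 0) true (nat_lit 11) true (nat_lit 11) (.e false (nat_lit 1) (nat_lit 62) (nat_lit 7) (nat_lit 6) (.e true (nat_lit 1) (nat_lit 154) (nat_lit 2) (nat_lit 11) .nil))))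 (.nd (.nd (.nd .leaf (nat_lit 27649) (nat_lit 64) (.p (nat_lit 55) (nat_lit 1) .z) .df .leaf) (nat_lit 27650) (nat_lit 81) (.p (nat_lit 63) (nat_lit 1) .z) .df .leaf) (nat_lit 27654) (nat_lit 207) (.p (nat_lit 106) (nat_lit 2) (.n (nat_lit 107) (nat_lit 3) (.n (nat_lit 108) (nat_lit 3) (.n (nat_lit 109) (nat_lit 1) (.p (nat_lit 110) (nat_lit 2) (.n (nat_lit 111) (nat_lit 1) (.p (nat_lit 112) (nat_lit 1) (.n (nat_lit 113) (nat_lit 2) (.n (nat_lit 114) (nat_lit 1) (.p (nat_lit 115) (nat_lit 3) (.n (nat_lit 116) (nat_lit 2) (.n (nat_lit 117) (nat_lit 2) (.p (nat_lit 119) (nat_lit 2) (.n (nat_lit 120) (nat_lit 3) (.n (nat_lit 122) (nat_lit 3) (.p (nat_lit 123) (nat_lit 2) (.n (nat_lit 126) (nat_lit 1) (.n (nat_lit 127) (nat_lit 2) (.p (nat_lit 128) (nat_lit 1) (.n (nat_lit 130) (nat_lit 3) (.n (nat_lit 131) (nat_lit 3) .z))))))))))))))))))))) (.ct dC2a_c306 (nat_lit 1) (nat_lit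 4) (.s true (nat_lit 1) (nat_lit 6) (nat_lit 2) (nat_lit 3) (nat_lit 1) true (nat_lit 4) true (nat_lit 9) true (nat_lit 4) true (nat_lit 8) true (nat_lit 7) (.e false (nat_lit 1) (nat_lit 25) (nat_lit 6) (nat_lit 4) (.e false (nat_lit 1) (nat_lit 29) (nat_lit 6) (nat_lit 4) (.e false (nat_lit 1) (nat_lit 61) (nat_lit 1) (nat_lit 9) (.e true (nat_lit 1) (nat_lit 63) (nat_lit 1) (nat_lit 9) (.e false (nat_lit 1) (nat_lit 65) (nat_lit 1) (nat_lit 9) (.e false (nat_lit 1) (nat_lit 66) (nat_lit 1) (nat_lit 9) (.e true (nat_lit 1) (nat_lit 72) (nat_lit 1) (nat_lit 9) (.e true (nat_lit 1) (nat_lit 59) (nat_lit 2) (nat_lit 8) (.e false (nat_lit 1) (nat_lit 40) (nat_lit 3) (nat_lit 7) (.u (nat_lit 2) (.p (nat_lit 1) (nat_lit 1) (.p (nat_lit 2) (nat_lit 1) (.n (nat_lit 6) (nat_lit 1) (.p (nat_lit 8) (nat_lit 1) (.n (nat_lit 13) (nat_lit 1) (.p (nat_lit 16) (nat_lit 1) (.p (nat_lit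 21) (nat_lit 1) (.p (nat_lit 25) (nat_lit 1) .z)))))))) .nil)))))))))))) (.nd .leaf (nat_lit 27655) (nat_lit 249) (.p (nat_lit 155) (nat_lit 1) .z) .df .leaf))))))

noncomputable def dC2a_t2 : Tr := (.nd dC2a_t0 (nat_lit 18432) (nat_lit 40) (.p (nat_lit 38) (nat_lit 1) .z) .df dC2a_t1)

noncomputable def dC2a_t3 : Tr := (.nd (.nd (.nd (.nd (.nd (.nd (.nd .leaf (nat_lit 27667) (nat_lit 462) (.p (nat_lit 205) (nat_lit 3) (.n (nat_lit 206) (nat_lit 1) (.n (nat_lit 207) (nat_lit 1) (.p (nat_lit 208) (nat_lit 2) (.p (nat_lit 209) (nat_lit 3) (.p (nat_lit 210) (nat_lit 2) (.p (nat_lit 211) (nat_lit 3) (.n (nat_lit 212) (nat_lit 3) (.p (nat_lit 213) (nat_lit 2) (.p (nat_lit 214) (nat_lit 1) (.n (nat_lit 215) (nat_lit 3) (.n (nat_lit 216) (nat_lit 3) (.p (nat_lit 218) (nat_lit 3) (.p (nat_lit 219) (nat_lit 1) (.n (nat_lit 221) (nat_lit 1) (.p (nat_lit 222) (nat_lit 3) (.p (nat_lit 225) (nat_lit 2) (.n (nat_lit 226) (nat_lit 3) (.n (nat_lit 227) (nat_lit 2) (.n (nat_lit 229) (nat_lit 1) (.n (nat_lit 230) (nat_lit 1) (.p (nat_lit 244) (nat_lit 1) (.p (nat_lit 250) (nat_lit 1) .z))))))))))))))))))))))) (.ct dC2a_c307 (nat_lit 1) (nat_lit 1) dC2a_i1) .leaf) (nat_lit 27668) (nat_lit 601) (.n (nat_lit 275) (nat_lit 1) (.p (nat_lit 286) (nat_lit 1) .z)) (.ct dC2a_c292 (nat_lit 1) (nat_lit 0) (.s false (nat_lit 1) (nat_lit 27) (nat_lit 2) (nat_lit 2) (nat_lit 2) true (nat_lit 6) true (nat_lit 11) false (nat_lit 0) true (nat_lit 11) true (nat_lit 11) (.e false (nat_lit 1) (nat_lit 63) (nat_lit 7) (nat_lit 6) (.e true (nat_lit 1) (nat_lit 155) (nat_lit 2) (nat_lit 11) .nil)))) .leaf) (nat_lit 28673) (nat_lit 65) (.p (nat_lit 56) (nat_lit 1) .z) .df (.nd (.nd .leaf (nat_lit 28674) (nat_lit 82) (.p (nat_lit 64) (nat_lit 1) .z) .df .leaf) (nat_lit 28678) (nat_lit 212) (.p (nat_lit 106) (nat_lit 3) (.p (nat_lit 107) (nat_lit 1) (.p (nat_lit 108) (nat_lit 1) (.n (nat_lit 110) (nat_lit 1) (.p (nat_lit 111) (nat_lit 1) (.p (nat_lit 112) (nat_lit 3) (.n (nat_lit 113) (nat_lit 3) (.n (nat_lit 114) (nat_lit 2) (.p (nat_lit 115) (nat_lit 3) (.n (nat_lit 116) (nat_lit 2) (.p (nat_lit 117) (nat_lit 3) (.n (nat_lit 118) (nat_lit 1) (.n (nat_lit 119) (nat_lit 1) (.n (nat_lit 120) (nat_lit 1) (.p (nat_lit 121) (nat_lit 1) (.p (nat_lit 122) (nat_lit 1) (.n (nat_lit 123) (nat_lit 1) (.p (nat_lit 126) (nat_lit 1) (.p (nat_lit 127) (nat_lit 1) (.n (nat_lit 130) (nat_lit 2) (.n (nat_lit 131) (nat_lit 1) .z))))))))))))))))))))) (.ct dC2a_c306 (nat_lit 1) (nat_lit 4) dC2a_i2) .leaf)) (nat_lit 28679) (nat_lit 281) (.n (nat_lit 132) (nat_lit 3) (.n (nat_lit 133) (nat_lit 2) (.p (nat_lit 134) (nat_lit 3) (.n (nat_lit 135) (nat_lit 3) (.n (nat_lit 136) (nat_lit 1) (.n (nat_lit 138) (nat_lit 3) (.n (nat_lit 142) (nat_lit 1) (.p (nat_lit 143) (nat_lit 1) (.n (nat_lit 144) (nat_lit 3) (.n (nat_lit 147) (nat_lit 1) (.p (nat_lit 149) (nat_lit 2) (.n (nat_lit 150) (nat_lit 3) (.n (nat_lit 151) (nat_lit 3) (.n (nat_lit 152) (nat_lit 2) (.n (nat_lit 153) (nat_lit 2) (.n (nat_lit 154) (nat_lit 2) (.p (nat_lit 155) (nat_lit 3) (.p (nat_lit 156) (nat_lit 3) (.p (nat_lit 157) (nat_lit 2) .z))))))))))))))))))) (.ct dC2a_c291 (nat_lit 1) (nat_lit 3) (.s true (nat_lit 1) (nat_lit 13) (nat_lit 2) (nat_lit 1) (nat_lit 2) true (nat_lit 3) true (nat_lit 8) true (nat_lit 1) true (nat_lit 8) true (nat_lit 9) (.e true (nat_lit 1) (nat_lit 18) (nat_lit 13) (nat_lit 1) (.e false (nat_lit 1) (nat_lit 62) (nat_lit 2) (nat_lit 8) (.e false (nat_lit 1) (nat_lit 65) (nat_lit 2) (nat_lit 8) (.e true (nat_lit 1) (nat_lit 66) (nat_lit 2) (nat_lit 8) (.e false (nat_lit 1) (nat_lit 69) (nat_lit 2) (nat_lit 8) (.e false (nat_lit 1) (nat_lit 71) (nat_lit 2) (nat_lit 8) (.e false (nat_lit 1) (nat_lit 72) (nat_lit 2) (nat_lit 8) (.e false (nat_lit 1) (nat_lit 82) (nat_lit 1) (nat_lit 9) (.u (nat_lit 2) (.p (nat_lit 0) (nat_lit 1) (.n (nat_lit 2) (nat_lit 1) (.p (nat_lit 3) (nat_lit 1) (.p (nat_lit 4) (nat_lit 1) (.p (nat_lit 9) (nat_lit 1) (.p (nat_lit 12) (nat_lit 1) (.p (nat_lit 18) (nat_lit 1) (.p (nat_lit 19) (nat_lit 1) (.p (nat_lit 20) (nat_lit 1) (.p (nat_lit 21) (nat_lit 1) (.p (nat_lit 22) (nat_lit 1) (.n (nat_lit 24) (nat_lit 1) (.n (nat_lit 25) (nat_lit 1) .z))))))))))))) .nil))))))))))) (.nd (.nd (.nd .leaf (nat_lit 28690) (nat_lit 503) (.n (nat_lit 205) (nat_lit 3) (.p (nat_lit 207) (nat_lit 1) (.n (nat_lit 208) (nat_lit 3) (.n (nat_lit 210) (nat_lit 1) (.p (nat_lit 211) (nat_lit 1) (.p (nat_lit 212) (nat_lit 2) (.n (nat_lit 215) (nat_lit 2) (.p (nat_lit 216) (nat_lit 3) (.p (nat_lit 217) (nat_lit 3) (.p (nat_lit 218) (nat_lit 3) (.n (nat_lit 219) (nat_lit 3) (.p (nat_lit 221) (nat_lit 3) (.p (nat_lit 222) (nat_lit 3) (.n (nat_lit 226) (nat_lit 3) (.n (nat_lit 227) (nat_lit 2) (.n (nat_lit 228) (nat_lit 2) (.n (nat_lit 229) (nat_lit 1) (.n (nat_lit 230) (nat_lit 3) (.n (nat_lit 232) (nat_lit 1) (.n (nat_lit 233) (nat_lit 1) (.p (nat_lit 234) (nat_lit 1) (.n (nat_lit 242) (nat_lit 1) (.p (nat_lit 243) (nat_lit 1) (.n (nat_lit 244) (nat_lit 1) (.p (nat_lit 245) (nat_lit 1) (.p (nat_lit 246) (nat_lit 2) (.p (nat_lit 247) (nat_lit 2) (.p (nat_lit 249) (nat_lit 1) (.n (nat_lit 250) (nat_lit 1) .z))))))))))))))))))))))))))))) (.ct dC2a_c307 (nat_lit 1) (nat_lit 1) (.s false (nat_lit 1) (nat_lit 28) (nat_lit 1) (nat_lit 2) (nat_lit 2) true (nat_lit 8) true (nat_lit 12) false (nat_lit 1) true (nat_lit 13) true (nat_lit 12) (.e false (nat_lit 1) (nat_lit 64) (nat_lit 6) (nat_lit 8) (.e false (nat_lit 1) (nat_lit 113) (nat_lit 2) (nat_lit 12) (.e false (nat_lit 3) (nat_lit 132) (nat_lit 1) (nat_lit 13) (.e false (nat_lit 2) (nat_lit 133) (nat_lit 1) (nat_lit 13) (.e true (nat_lit 3) (nat_lit 134) (nat_lit 1) (nat_lit 13) (.e false (nat_lit 3) (nat_lit 135) (nat_lit 1) (nat_lit 13) (.e false (nat_lit 1) (nat_lit 136) (nat_lit 1) (nat_lit 13) (.e false (nat_lit 3) (nat_lit 138) (nat_lit 1) (nat_lit 13) (.e false (nat_lit 1) (nat_lit 142) (nat_lit 1) (nat_lit 13) (.e true (nat_lit 1) (nat_lit 143) (nat_lit 1) (nat_lit 13) (.e false (nat_lit 3) (nat_lit 144) (nat_lit 1) (nat_lit 13) (.e false (nat_lit 1) (nat_lit 147) (nat_lit 1) (nat_lit 13) (.e true (nat_lit 2) (nat_lit 149) (nat_lit 1) (nat_lit 13) (.e false (nat_lit 3) (nat_lit 150) (nat_lit 1) (nat_lit 13) (.e false (nat_lit 3) (nat_lit 151) (nat_lit 1) (nat_lit 13) (.e false (nat_lit 2) (nat_lit 152) (nat_lit 1) (nat_lit 13) (.e false (nat_lit 2) (nat_lit 153) (nat_lit 1) (nat_lit 13) (.e false (nat_lit 2) (nat_lit 154) (nat_lit 1) (nat_lit 13) (.e true (nat_lit 3) (nat_lit 155) (nat_lit 1) (nat_lit 13) (.e true (nat_lit 3) (nat_lit 156) (nat_lit 1) (nat_lit 13) (.e true (nat_lit 2) (nat_lit 157) (nat_lit 1) (nat_lit 13) (.e true (nat_lit 1) (nat_lit 121) (nat_lit 2) (nat_lit 12) (.u (nat_lit 2) (.p (nat_lit 0) (nat_lit 2) (.n (nat_lit 2) (nat_lit 1) (.n (nat_lit 3) (nat_lit 1) (.p (nat_lit 4) (nat_lit 1) (.p (nat_lit 5) (nat_lit 1) (.p (nat_lit 6) (nat_lit 1) (.p (nat_lit 8) (nat_lit 1) (.n (nat_lit 9) (nat_lit 1) (.p (nat_lit 10) (nat_lit 2) (.p (nat_lit 11) (nat_lit 1) (.n (nat_lit 12) (nat_lit 1) (.p (nat_lit 16) (nat_lit 2) (.n (nat_lit 23) (nat_lit 2) (.p (nat_lit 24) (nat_lit 3) (.p (nat_lit 25) (nat_lit 3) (.p (nat_lit 26) (nat_lit 2) (.n (nat_lit 27) (nat_lit 2) (.p (nat_lit 29) (nat_lit 1) (.p (nat_lit 30) (nat_lit 1) (.p (nat_lit 34) (nat_lit 1) (.p (nat_lit 38) (nat_lit 2) (.n (nat_lit 39) (nat_lit 1) (.p (nat_lit 40) (nat_lit 1) (.n (nat_lit 42) (nat_lit 1) (.n (nat_lit 43) (nat_lit 3) (.n (nat_lit 44) (nat_lit 1) (.n (nat_lit 45) (nat_lit 1) (.n (nat_lit 46) (nat_lit 1) .z)))))))))))))))))))))))))))) .nil))))))))))))))))))))))))) .leaf) (nat_lit 28691) (nat_lit 467) (.n (nat_lit 205) (nat_lit 1) (.p (nat_lit 206) (nat_lit 2) (.p (nat_lit 207) (nat_lit 1) (.p (nat_lit 208) (nat_lit 1) (.n (nat_lit 210) (nat_lit 2) (.n (nat_lit 211) (nat_lit 3) (.n (nat_lit 212) (nat_lit 2) (.n (nat_lit 213) (nat_lit 2) (.p (nat_lit 214) (nat_lit 2) (.p (nat_lit 215) (nat_lit 1) (.n (nat_lit 216) (nat_lit 1) (.n (nat_lit 217) (nat_lit 2) (.n (nat_lit 218) (nat_lit 3) (.p (nat_lit 219) (nat_lit 3) (.p (nat_lit 220) (nat_lit 2) (.p (nat_lit 221) (nat_lit 2) (.n (nat_lit 222) (nat_lit 1) (.n (nat_lit 225) (nat_lit 3) (.p (nat_lit 226) (nat_lit 1) (.n (nat_lit 228) (nat_lit 2) (.n (nat_lit 229) (nat_lit 2) (.p (nat_lit 230) (nat_lit 3) (.p (nat_lit 231) (nat_lit 3) (.n (nat_lit 232) (nat_lit 1) (.p (nat_lit 233) (nat_lit 2) (.p (nat_lit 234) (nat_lit 2) (.p (nat_lit 242) (nat_lit 3) (.n (nat_lit 245) (nat_lit 1) (.p (nat_lit 246) (nat_lit 3) (.p (nat_lit 247) (nat_lit 3) (.p (nat_lit 248) (nat_lit 3) (.p (nat_lit 249) (nat_lit 1) (.n (nat_lit 250) (nat_lit 2) (.n (nat_lit 251) (nat_lit 2) .z)))))))))))))))))))))))))))))))))) (.ct dC2a_c307 (nat_lit 1) (nat_lit 1) dC2a_i3) .leaf) (nat_lit 28692) (nat_lit 624) (.n (nat_lit 252) (nat_lit 3) (.n (nat_lit 253) (nat_lit 3) (.n (nat_lit 254) (nat_lit 1) (.p (nat_lit 255) (nat_lit 2) (.n (nat_lit 256) (nat_lit 1) (.n (nat_lit 259) (nat_lit 2) (.p (nat_lit 260) (nat_lit 2) (.n (nat_lit 261) (nat_lit 3) (.n (nat_lit 262) (nat_lit 1) (.p (nat_lit 263) (nat_lit 1) (.p (nat_lit 265) (nat_lit 3) (.n (nat_lit 267) (nat_lit 3) (.p (nat_lit 269) (nat_lit 1) (.n (nat_lit 270) (nat_lit 2) (.p (nat_lit 271) (nat_lit 1) (.n (nat_lit 272) (nat_lit 3) (.n (nat_lit 274) (nat_lit 3) (.n (nat_lit 275) (nat_lit 3) (.n (nat_lit 276) (nat_lit 1) (.p (nat_lit 277) (nat_lit 1) (.p (nat_lit 283) (nat_lit 3) (.p (nat_lit 284) (nat_lit 1) (.n (nat_lit 285) (nat_lit 2) (.n (nat_lit 286) (nat_lit 1) .z)))))))))))))))))))))))) (.ct dC2a_c292 (nat_lit 1) (nat_lit 0) (.s false (nat_lit 1) (nat_lit 28) (nat_lit 2) (nat_lit 2) (nat_lit 2) true (nat_lit 6) true (nat_lit 11) false (nat_lit 0) true (nat_lit 11) true (nat_lit 11) (.e false (nat_lit 1) (nat_lit 64) (nat_lit 7) (nat_lit 6) (.e false (nat_lit 1) (nat_lit 136) (nat_lit 2) (nat_lit 11) (.e false (nat_lit 3) (nat_lit 132) (nat_lit 2) (nat_lit 11) (.e false (nat_lit 2) (nat_lit 133) (nat_lit 2) (nat_lit 11) (.e true (nat_lit 3) (nat_lit 134) (nat_lit 2) (nat_lit 11) (.e false (nat_lit 3) (nat_lit 135) (nat_lit 2) (nat_lit 11) (.e false (nat_lit 3) (nat_lit 138) (nat_lit 2) (nat_lit 11) (.e false (nat_lit 1) (nat_lit 142) (nat_lit 2) (nat_lit 11) (.e true (nat_lit 1) (nat_lit 143) (nat_lit 2) (nat_lit 11) (.e false (nat_lit 3) (nat_lit 144) (nat_lit 2) (nat_lit 11) (.e false (nat_lit 1) (nat_lit 147) (nat_lit 2) (nat_lit 11) (.e true (nat_lit 2) (nat_lit 149) (nat_lit 2) (nat_lit 11) (.e false (nat_lit 3) (nat_lit 150) (nat_lit 2) (nat_lit 11) (.e false (nat_lit 3) (nat_lit 151) (nat_lit 2) (nat_lit 11) (.e false (nat_lit 2) (nat_lit 152) (nat_lit 2) (nat_lit 11) (.e false (nat_lit 2) (nat_lit 153) (nat_lit 2) (nat_lit 11) (.e false (nat_lit 2) (nat_lit 154) (nat_lit 2) (nat_lit 11) (.e true (nat_lit 3) (nat_lit 155) (nat_lit 2) (nat_lit 11) (.e true (nat_lit 3) (nat_lit 156) (nat_lit 2) (nat_lit 11) (.e true (nat_lit 2) (nat_lit 157) (nat_lit 2) (nat_lit 11) (.u (nat_lit 2) (.p (nat_lit 0) (nat_lit 1) (.p (nat_lit 1) (nat_lit 1) (.p (nat_lit 15) (nat_lit 1) (.p (nat_lit 18) (nat_lit 1) (.p (nat_lit 20) (nat_lit 1) (.p (nat_lit 22) (nat_lit 1) .z)))))) .nil))))))))))))))))))))))) (.nd (.nd .leaf (nat_lit 29697) (nat_lit 66) (.p (nat_lit 57) (nat_lit 1) .z) .df .leaf) (nat_lit 29698) (nat_lit 83) (.p (nat_lit 65) (nat_lit 1) .z) .df .leaf))) (nat_lit 29702) (nat_lit 206) (.p (nat_lit 106) (nat_lit 2) (.p (nat_lit 107) (nat_lit 1) (.p (nat_lit 108) (nat_lit 1) (.p (nat_lit 109) (nat_lit 2) (.n (nat_lit 110) (nat_lit 1) (.n (nat_lit 111) (nat_lit 1) (.n (nat_lit 112) (nat_lit 3) (.n (nat_lit 113) (nat_lit 2) (.p (nat_lit 114) (nat_lit 3) (.p (nat_lit 115) (nat_lit 3) (.n (nat_lit 116) (nat_lit 1) (.n (nat_lit 117) (nat_lit 1) (.n (nat_lit 118) (nat_lit 1) (.n (nat_lit 119) (nat_lit 2) (.n (nat_lit 120) (nat_lit 2) (.p (nat_lit 122) (nat_lit 3) (.n (nat_lit 123) (nat_lit 2) (.p (nat_lit 126) (nat_lit 3) (.p (nat_lit 127) (nat_lit 2) (.n (nat_lit 130) (nat_lit 3) (.p (nat_lit 131) (nat_lit 3) .z))))))))))))))))))))) (.ct dC2a_c306 (nat_lit 1) (nat_lit 4) (.s false (nat_lit 1) (nat_lit 15) (nat_lit 1) (nat_lit 0) (nat_lit 2) true (nat_lit 4) true (nat_lit 8) false (nat_lit 0) true (nat_lit 9) true (nat_lit 10) (.e false (nat_lit 1) (nat_lit 58) (nat_lit 2) (nat_lit 8) (.e true (nat_lit 1) (nat_lit 15) (nat_lit 11) (nat_lit 0) (.e false (nat_lit 1) (nat_lit 64) (nat_lit 1) (nat_lit 9) (.e false (nat_lit 1) (nat_lit 69) (nat_lit 1) (nat_lit 9) (.e true (nat_lit 1) (nat_lit 73) (nat_lit 1) (nat_lit 9) (.e false (nat_lit 1) (nat_lit 78) (nat_lit 0) (nat_lit 10) (.u (nat_lit 2) (.p (nat_lit 6) (nat_lit 1) (.n (nat_lit 8) (nat_lit 1) .z)) .nil))))))))) (.nd (.nd (.nd (.nd .leaf (nat_lit 29703) (nat_lit 258) (.p (nat_lit 132) (nat_lit 1) (.p (nat_lit 133) (nat_lit 1) (.n (nat_lit 134) (nat_lit 1) (.n (nat_lit 135) (nat_lit 1) (.p (nat_lit 137) (nat_lit 1) (.p (nat_lit 138) (nat_lit 1) (.p (nat_lit 145) (nat_lit 1) (.p (nat_lit 149) (nat_lit 1) (.n (nat_lit 152) (nat_lit 1) (.n (nat_lit 153) (nat_lit 1) (.n (nat_lit 154) (nat_lit 1) (.p (nat_lit 155) (nat_lit 1) (.p (nat_lit 157) (nat_lit 1) .z))))))))))))) (.ct dC2a_c291 (nat_lit 1) (nat_lit 3) (.s false (nat_lit 1) (nat_lit 7) (nat_lit 1) (nat_lit 2) (nat_lit 3) true (nat_lit 2) true (nat_lit 7) true (nat_lit 3) true (nat_lit 9) true (nat_lit 8) (.e false (nat_lit 1) (nat_lit 20) (nat_lit 8) (nat_lit 2) (.e false (nat_lit 1) (nat_lit 46) (nat_lit 3) (nat_lit 7) (.e true (nat_lit 1) (nat_lit 25) (nat_lit 7) (nat_lit 3) (.e true (nat_lit 1) (nat_lit 26) (nat_lit 7) (nat_lit 3) (.e false (nat_lit 1) (nat_lit 27) (nat_lit 7) (nat_lit 3) (.e false (nat_lit 1) (nat_lit 88) (nat_lit 1) (nat_lit 9) (.e false (nat_lit 1) (nat_lit 60) (nat_lit 2) (nat_lit 8) (.e false (nat_lit 1) (nat_lit 61) (nat_lit 2) (nat_lit 8) (.e true (nat_lit 1) (nat_lit 62) (nat_lit 2) (nat_lit 8) (.e true (nat_lit 1) (nat_lit 63) (nat_lit 2) (nat_lit 8) (.e false (nat_lit 1) (nat_lit 65) (nat_lit 2) (nat_lit 8) (.e false (nat_lit 1) (nat_lit 66) (nat_lit 2) (nat_lit 8) (.e true (nat_lit 1) (nat_lit 72) (nat_lit 2) (nat_lit 8) (.e false (nat_lit 1) (nat_lit 73) (nat_lit 2) (nat_lit 8) .nil)))))))))))))))) .leaf) (nat_lit 29714) (nat_lit 488) (.p (nat_lit 205) (nat_lit 1) (.n (nat_lit 206) (nat_lit 1) (.n (nat_lit 207) (nat_lit 1) (.p (nat_lit 208) (nat_lit 1) (.p (nat_lit 209) (nat_lit 2) (.p (nat_lit 210) (nat_lit 1) (.n (nat_lit 211) (nat_lit 1) (.p (nat_lit 212) (nat_lit 2) (.p (nat_lit 213) (nat_lit 1) (.n (nat_lit 214) (nat_lit 3) (.n (nat_lit 215) (nat_lit 3) (.n (nat_lit 216) (nat_lit 1) (.n (nat_lit 219) (nat_lit 1) (.p (nat_lit 221) (nat_lit 1) (.p (nat_lit 227) (nat_lit 1) (.n (nat_lit 228) (nat_lit 2) (.n (nat_lit 229) (nat_lit 1) (.p (nat_lit 230) (nat_lit 1) (.p (nat_lit 231) (nat_lit 1) (.p (nat_lit 232) (nat_lit 1) (.n (nat_lit 234) (nat_lit 1) (.n (nat_lit 242) (nat_lit 1) (.p (nat_lit 246) (nat_lit 2) (.p (nat_lit 247) (nat_lit 2) (.n (nat_lit 248) (nat_lit 1) (.n (nat_lit 249) (nat_lit 1) (.p (nat_lit 250) (nat_lit 1) (.p (nat_lit 251) (nat_lit 3) .z)))))))))))))))))))))))))))) (.ct dC2a_c307 (nat_lit 1) (nat_lit 1) dC2a_i4) .leaf) (nat_lit 29715) (nat_lit 493) (.n (nat_lit 206) (nat_lit 2) (.n (nat_lit 207) (nat_lit 2) (.n (nat_lit 208) (nat_lit 2) (.p (nat_lit 210) (nat_lit 2) (.n (nat_lit 212) (nat_lit 3) (.n (nat_lit 213) (nat_lit 2) (.p (nat_lit 214) (nat_lit 1) (.n (nat_lit 215) (nat_lit 1) (.p (nat_lit 216) (nat_lit 3) (.n (nat_lit 217) (nat_lit 2) (.p (nat_lit 218) (nat_lit 1) (.p (nat_lit 219) (nat_lit 2) (.n (nat_lit 221) (nat_lit 2) (.p (nat_lit 222) (nat_lit 1) (.n (nat_lit 225) (nat_lit 1) (.n (nat_lit 226) (nat_lit 1) (.p (nat_lit 227) (nat_lit 2) (.n (nat_lit 228) (nat_lit 2) (.p (nat_lit 229) (nat_lit 1) (.n (nat_lit 230) (nat_lit 3) (.p (nat_lit 242) (nat_lit 1) (.n (nat_lit 243) (nat_lit 1) (.p (nat_lit 244) (nat_lit 1) (.p (nat_lit 246) (nat_lit 2) (.p (nat_lit 247) (nat_lit 2) (.n (nat_lit 248) (nat_lit 1) (.n (nat_lit 249) (nat_lit 1) (.p (nat_lit 250) (nat_lit 1) (.p (nat_lit 251) (nat_lit 1) .z))))))))))))))))))))))))))))) (.ct dC2a_c307 (nat_lit 1) (nat_lit 1) dC2a_i5) (.nd (.nd .leaf (nat_lit 29716) (nat_lit 618) (.p (nat_lit 252) (nat_lit 3) (.n (nat_lit 253) (nat_lit 1) (.n (nat_lit 254) (nat_lit 2) (.n (nat_lit 256) (nat_lit 2) (.p (nat_lit 257) (nat_lit 3) (.n (nat_lit 259) (nat_lit 2) (.p (nat_lit 260) (nat_lit 2) (.n (nat_lit 261) (nat_lit 1) (.n (nat_lit 262) (nat_lit 2) (.n (nat_lit 265) (nat_lit 2) (.p (nat_lit 266) (nat_lit 3) (.n (nat_lit 267) (nat_lit 2) (.n (nat_lit 269) (nat_lit 2) (.p (nat_lit 270) (nat_lit 1) (.p (nat_lit 271) (nat_lit 2) (.n (nat_lit 272) (nat_lit 2) (.n (nat_lit 273) (nat_lit 3) (.n (nat_lit 274) (nat_lit 2) (.p (nat_lit 275) (nat_lit 2) (.n (nat_lit 276) (nat_lit 2) (.p (nat_lit 277) (nat_lit 3) (.n (nat_lit 283) (nat_lit 3) (.n (nat_lit 284) (nat_lit 1) (.p (nat_lit 285) (nat_lit 2) (.p (nat_lit 286) (nat_lit 1) .z))))))))))))))))))))))))) (.ct dC2a_c292 (nat_lit 1) (nat_lit 0) (.s false (nat_lit 1) (nat_lit 29) (nat_lit 2) (nat_lit 2) (nat_lit 2) true (nat_lit 6) true (nat_lit 11) false (nat_lit 0) true (nat_lit 11) true (nat_lit 11) (.e false (nat_lit 1) (nat_lit 65) (nat_lit 7) (nat_lit 6) (.e true (nat_lit 1) (nat_lit 137) (nat_lit 2) (nat_lit 11) (.e true (nat_lit 1) (nat_lit 132) (nat_lit 2) (nat_lit 11) (.e true (nat_lit 1) (nat_lit 133) (nat_lit 2) (nat_lit 11) (.e false (nat_lit 1) (nat_lit 134) (nat_lit 2) (nat_lit 11) (.e false (nat_lit 1) (nat_lit 135) (nat_lit 2) (nat_lit 11) (.e true (nat_lit 1) (nat_lit 138) (nat_lit 2) (nat_lit 11) (.e true (nat_lit 1) (nat_lit 145) (nat_lit 2) (nat_lit 11) (.e true (nat_lit 1) (nat_lit 149) (nat_lit 2) (nat_lit 11) (.e false (nat_lit 1) (nat_lit 152) (nat_lit 2) (nat_lit 11) (.e false (nat_lit 1) (nat_lit 153) (nat_lit 2) (nat_lit 11) (.e false (nat_lit 1) (nat_lit 154) (nat_lit 2) (nat_lit 11) (.e true (nat_lit 1) (nat_lit 155) (nat_lit 2) (nat_lit 11) (.e true (nat_lit 1) (nat_lit 157) (nat_lit 2) (nat_lit 11) (.u (nat_lit 2) (.n (nat_lit 0) (nat_lit 1) (.n (nat_lit 5) (nat_lit 1) (.p (nat_lit 21) (nat_lit 1) (.n (nat_lit 25) (nat_lit 1) .z)))) .nil))))))))))))))))) .leaf) (nat_lit 30720) (nat_lit 74) (.n (nat_lit 49) (nat_lit 1) (.p (nat_lit 50) (nat_lit 1) (.p (nat_lit 52) (nat_lit 1) (.p (nat_lit 56) (nat_lit 1) (.n (nat_lit 58) (nat_lit 1) (.n (nat_lit 59) (nat_lit 2) .z)))))) (.ct dC2a_c305 (nat_lit 1) (nat_lit 6) (.s true (nat_lit 1) (nat_lit 4) (nat_lit 1) (nat_lit 2) (nat_lit 0) true (nat_lit 3) true (nat_lit 6) true (nat_lit 2) true (nat_lit 5) true (nat_lit 4) (.e true (nat_lit 1) (nat_lit 14) (nat_lit 3) (nat_lit 3) (.e true (nat_lit 1) (nat_lit 13) (nat_lit 4) (nat_lit 2) (.e false (nat_lit 1) (nat_lit 24) (nat_lit 1) (nat_lit 5) (.e true (nat_lit 1) (nat_lit 26) (nat_lit 1) (nat_lit 5) (.e false (nat_lit 1) (nat_lit 28) (nat_lit 1) (nat_lit 5) (.e false (nat_lit 1) (nat_lit 29) (nat_lit 1) (nat_lit 5) (.e false (nat_lit 1) (nat_lit 22) (nat_lit 2) (nat_lit 4) .nil))))))))) .leaf)) (nat_lit 30722) (nat_lit 104) (.p (nat_lit 74) (nat_lit 1) .z) .df (.nd (.nd (.nd .leaf (nat_lit 30725) (nat_lit 203) (.n (nat_lit 107) (nat_lit 1) (.n (nat_lit 108) (nat_lit 1) (.p (nat_lit 112) (nat_lit 2) (.n (nat_lit 114) (nat_lit 2) (.p (nat_lit 117) (nat_lit 2) (.p (nat_lit 118) (nat_lit 2) (.p (nat_lit 120) (nat_lit 3) (.n (nat_lit 122) (nat_lit 3) (.p (nat_lit 128) (nat_lit 1) (.n (nat_lit 130) (nat_lit 1) (.n (nat_lit 131) (nat_lit 1) .z))))))))))) (.ct dC2a_c306 (nat_lit 1) (nat_lit 5) (.s true (nat_lit 1) (nat_lit 10) (nat_lit 0) (nat_lit 2) (nat_lit 2) true (nat_lit 5) true (nat_lit 8) true (nat_lit 1) true (nat_lit 10) true (nat_lit 8) (.e true (nat_lit 1) (nat_lit 51) (nat_lit 2) (nat_lit 8) (.e false (nat_lit 1) (nat_lit 16) (nat_lit 10) (nat_lit 1) (.e false (nat_lit 1) (nat_lit 79) (nat_lit 0) (nat_lit 10) (.e false (nat_lit 1) (nat_lit 49) (nat_lit 2) (nat_lit 8) (.e true (nat_lit 1) (nat_lit 50) (nat_lit 2) (nat_lit 8) (.e true (nat_lit 1) (nat_lit 52) (nat_lit 2) (nat_lit 8) (.e true (nat_lit 1) (nat_lit 56) (nat_lit 2) (nat_lit 8) (.e false (nat_lit 1) (nat_lit 58) (nat_lit 2) (nat_lit 8) (.e false (nat_lit 2) (nat_lit 59) (nat_lit 2) (nat_lit 8) (.u (nat_lit 2) (.n (nat_lit 14) (nat_lit 1) (.p (nat_lit 16) (nat_lit 1) .z)) .nil)))))))))))) .leaf) (nat_lit 30727) (nat_lit 299) (.p (nat_lit 167) (nat_lit 1) .z) .df .leaf) (nat_lit 30736) (nat_lit 537) (.n (nat_lit 206) (nat_lit 3) (.n (nat_lit 207) (nat_lit 2) (.p (nat_lit 209) (nat_lit 2) (.n (nat_lit 212) (nat_lit 2) (.p (nat_lit 214) (nat_lit 2) (.n (nat_lit 216) (nat_lit 1) (.n (nat_lit 217) (nat_lit 3) (.p (nat_lit 219) (nat_lit 3) (.n (nat_lit 221) (nat_lit 3) (.n (nat_lit 225) (nat_lit 3) (.n (nat_lit 227) (nat_lit 2) (.p (nat_lit 228) (nat_lit 2) (.n (nat_lit 229) (nat_lit 2) (.n (nat_lit 230) (nat_lit 2) (.n (nat_lit 231) (nat_lit 2) (.n (nat_lit 232) (nat_lit 1) (.n (nat_lit 242) (nat_lit 3) (.n (nat_lit 243) (nat_lit 1) (.n (nat_lit 245) (nat_lit 2) (.p (nat_lit 246) (nat_lit 1) (.n (nat_lit 247) (nat_lit 1) (.p (nat_lit 248) (nat_lit 3) (.n (nat_lit 249) (nat_lit 2) (.p (nat_lit 251) (nat_lit 2) .z)))))))))))))))))))))))) (.ct dC2a_c307 (nat_lit 1) (nat_lit 2) (.s false (nat_lit 1) (nat_lit 16) (nat_lit 1) (nat_lit 1) (nat_lit 6) true (nat_lit 3) true (nat_lit 8) true (nat_lit 2) true (nat_lit 13) true (nat_lit 13) (.e true (nat_lit 1) (nat_lit 36) (nat_lit 15) (nat_lit 3) (.e false (nat_lit 1) (nat_lit 60) (nat_lit 6) (nat_lit 8) (.e false (nat_lit 1) (nat_lit 61) (nat_lit 6) (nat_lit 8) (.e true (nat_lit 1) (nat_lit 62) (nat_lit 6) (nat_lit 8) (.e true (nat_lit 1) (nat_lit 63) (nat_lit 6) (nat_lit 8) (.e false (nat_lit 1) (nat_lit 65) (nat_lit 6) (nat_lit 8) (.e false (nat_lit 1) (nat_lit 66) (nat_lit 6) (nat_lit 8) (.e false (nat_lit 1) (nat_lit 67) (nat_lit 6) (nat_lit 8) (.e true (nat_lit 1) (nat_lit 68) (nat_lit 6) (nat_lit 8) (.e true (nat_lit 1) (nat_lit 69) (nat_lit 6) (nat_lit 8) (.e true (nat_lit 1) (nat_lit 72) (nat_lit 6) (nat_lit 8) dC2a_i6))))))))))))) (.nd .leaf (nat_lit 30737) (nat_lit 549) (.n (nat_lit 205) (nat_lit 1) (.p (nat_lit 206) (nat_lit 3) (.p (nat_lit 207) (nat_lit 2) (.p (nat_lit 211) (nat_lit 2) (.p (nat_lit 212) (nat_lit 3) (.n (nat_lit 213) (nat_lit 2) (.n (nat_lit 214) (nat_lit 3) (.n (nat_lit 215) (nat_lit 2) (.p (nat_lit 216) (nat_lit 2) (.n (nat_lit 219) (nat_lit 3) (.p (nat_lit 221) (nat_lit 3) (.p (nat_lit 225) (nat_lit 3) (.p (nat_lit 227) (nat_lit 3) (.p (nat_lit 228) (nat_lit 2) (.p (nat_lit 229) (nat_lit 2) (.p (nat_lit 230) (nat_lit 1) (.n (nat_lit 242) (nat_lit 3) (.n (nat_lit 243) (nat_lit 2) (.p (nat_lit 245) (nat_lit 2) (.n (nat_lit 246) (nat_lit 1) (.p (nat_lit 247) (nat_lit 1) (.n (nat_lit 248) (nat_lit 2) (.p (nat_lit 249) (nat_lit 3) (.n (nat_lit 251) (nat_lit 3) .z)))))))))))))))))))))))) (.ct dC2a_c307 (nat_lit 1) (nat_lit 2) (.s false (nat_lit 1) (nat_lit 10) (nat_lit 7) (nat_lit 2) (nat_lit 0) true (nat_lit 2) true (nat_lit 14) true (nat_lit 5) true (nat_lit 7) true (nat_lit 12) (.e false (nat_lit 1) (nat_lit 163) (nat_lit 0) (nat_lit 14) (.e true (nat_lit 1) (nat_lit 44) (nat_lit 10) (nat_lit 5) (.e true (nat_lit 1) (nat_lit 49) (nat_lit 7) (nat_lit 7) (.e false (nat_lit 1) (nat_lit 50) (nat_lit 7) (nat_lit 7) (.e false (nat_lit 2) (nat_lit 52) (nat_lit 7) (nat_lit 7) (.e true (nat_lit 1) (nat_lit 55) (nat_lit 7) (nat_lit 7) (.e false (nat_lit 1) (nat_lit 57) (nat_lit 7) (nat_lit 7) (.e true (nat_lit 1) (nat_lit 59) (nat_lit 7) (nat_lit 7) (.e true (nat_lit 1) (nat_lit 130) (nat_lit 2) (nat_lit 12) (.u (nat_lit 2) (.p (nat_lit 2) (nat_lit 1) (.n (nat_lit 11) (nat_lit 1) (.n (nat_lit 12) (nat_lit 1) (.p (nat_lit 14) (nat_lit 1) (.n (nat_lit 16) (nat_lit 1) (.n (nat_lit 22) (nat_lit 1) (.n (nat_lit 24) (nat_lit 1) (.p (nat_lit 41) (nat_lit 1) (.p (nat_lit 42) (nat_lit 1) .z))))))))) .nil)))))))))))) .leaf)))) (nat_lit 30740) (nat_lit 709) (.n (nat_lit 298) (nat_lit 1) (.p (nat_lit 303) (nat_lit 1) .z)) (.ct dC2a_c52 (nat_lit 1) (nat_lit 0) (.s false (nat_lit 1) (nat_lit 10) (nat_lit 2) (nat_lit 2) (nat_lit 7) true (nat_lit 0) true (nat_lit 4) true (nat_lit 3) true (nat_lit 7) true (nat_lit 7) (.e false (nat_lit 1) (nat_lit 74) (nat_lit 7) (nat_lit 4) (.e true (nat_lit 1) (nat_lit 167) (nat_lit 2) (nat_lit 7) .nil)))) (.nd (.nd (.nd (.nd (.nd .leaf (nat_lit 31744) (nat_lit 75) (.n (nat_lit 49) (nat_lit 1) (.p (nat_lit 50) (nat_lit 2) (.p (nat_lit 51) (nat_lit 1) (.p (nat_lit 52) (nat_lit 2) (.n (nat_lit 54) (nat_lit 1) (.n (nat_lit 57) (nat_lit 1) (.n (nat_lit 58) (nat_lit 1) (.n (nat_lit 59) (nat_lit 2) .z)))))))) (.ct dC2a_c305 (nat_lit 1) (nat_lit 6) (.s true (nat_lit 1) (nat_lit 6) (nat_lit 0) (nat_lit 1) (nat_lit 1) true (nat_lit 3) true (nat_lit 5) true (nat_lit 0) true (nat_lit 6) true (nat_lit 5) (.e true (nat_lit 1) (nat_lit 15) (nat_lit 3) (nat_lit 3) (.e true (nat_lit 1) (nat_lit 28) (nat_lit 1) (nat_lit 5) (.e false (nat_lit 1) (nat_lit 8) (nat_lit 6) (nat_lit 0) (.e false (nat_lit 1) (nat_lit 30) (nat_lit 0) (nat_lit 6) (.e true (nat_lit 1) (nat_lit 29) (nat_lit 1) (nat_lit 5) .nil))))))) .leaf) (nat_lit 31746) (nat_lit 105) (.p (nat_lit 75) (nat_lit 1) .z) .df .leaf) (nat_lit 31749) (nat_lit 222) (.p (nat_lit 106) (nat_lit 3) (.p (nat_lit 107) (nat_lit 2) (.n (nat_lit 109) (nat_lit 3) (.n (nat_lit 110) (nat_lit 2) (.p (nat_lit 111) (nat_lit 1) (.p (nat_lit 112) (nat_lit 1) (.n (nat_lit 114) (nat_lit 2) (.n (nat_lit 115) (nat_lit 1) (.n (nat_lit 116) (nat_lit 3) (.n (nat_lit 117) (nat_lit 2) (.n (nat_lit 118) (nat_lit 3) (.p (nat_lit 119) (nat_lit 2) (.n (nat_lit 121) (nat_lit 1) (.n (nat_lit 122) (nat_lit 1) (.p (nat_lit 123) (nat_lit 3) (.p (nat_lit 124) (nat_lit 2) (.n (nat_lit 125) (nat_lit 2) (.n (nat_lit 127) (nat_lit 1) (.p (nat_lit 128) (nat_lit 1) .z))))))))))))))))))) (.ct dC2a_c306 (nat_lit 1) (nat_lit 5) (.s true (nat_lit 1) (nat_lit 14) (nat_lit 2) (nat_lit 1) (nat_lit 0) true (nat_lit 5) true (nat_lit 10) false (nat_lit 0) true (nat_lit 8) true (nat_lit 9) (.e true (nat_lit 1) (nat_lit 77) (nat_lit 0) (nat_lit 10) (.e false (nat_lit 1) (nat_lit 14) (nat_lit 13) (nat_lit 0) (.e true (nat_lit 1) (nat_lit 49) (nat_lit 2) (nat_lit 8) (.e false (nat_lit 1) (nat_lit 53) (nat_lit 2) (nat_lit 8) (.e false (nat_lit 2) (nat_lit 54) (nat_lit 2) (nat_lit 8) (.e true (nat_lit 1) (nat_lit 55) (nat_lit 2) (nat_lit 8) (.e false (nat_lit 1) (nat_lit 57) (nat_lit 2) (nat_lit 8) (.e true (nat_lit 1) (nat_lit 59) (nat_lit 2) (nat_lit 8) (.e false (nat_lit 1) (nat_lit 60) (nat_lit 1) (nat_lit 9) (.e false (nat_lit 1) (nat_lit 61) (nat_lit 1) (nat_lit 9) (.e false (nat_lit 1) (nat_lit 62) (nat_lit 1) (nat_lit 9) (.e true (nat_lit 2) (nat_lit 63) (nat_lit 1) (nat_lit 9) (.e true (nat_lit 1) (nat_lit 64) (nat_lit 1) (nat_lit 9) (.e false (nat_lit 1) (nat_lit 65) (nat_lit 1) (nat_lit 9) (.u (nat_lit 2) (.n (nat_lit 0) (nat_lit 1) (.p (nat_lit 4) (nat_lit 1) (.n (nat_lit 13) (nat_lit 1) (.n (nat_lit 14) (nat_lit 1) (.p (nat_lit 16) (nat_lit 1) .z))))) .nil))))))))))))))))) (.nd (.nd .leaf (nat_lit 31751) (nat_lit 309) (.n (nat_lit 158) (nat_lit 2) (.p (nat_lit 160) (nat_lit 3) (.p (nat_lit 161) (nat_lit 2) (.n (nat_lit 162) (nat_lit 3) (.n (nat_lit 163) (nat_lit 3) (.n (nat_lit 164) (nat_lit 2) (.p (nat_lit 165) (nat_lit 2) (.n (nat_lit 166) (nat_lit 1) (.p (nat_lit 167) (nat_lit 1) .z))))))))) (.ct dC2a_c51 (nat_lit 1) (nat_lit 2) (.s false (nat_lit 1) (nat_lit 7) (nat_lit 2) (nat_lit 4) (nat_lit 1) true (nat_lit 3) true (nat_lit 6) true (nat_lit 2) true (nat_lit 5) true (nat_lit 4) (.e true (nat_lit 2) (nat_lit 40) (nat_lit 6) (nat_lit 3) (.e false (nat_lit 2) (nat_lit 41) (nat_lit 6) (nat_lit 3) (.e true (nat_lit 2) (nat_lit 92) (nat_lit 1) (nat_lit 6) (.e false (nat_lit 2) (nat_lit 93) (nat_lit 1) (nat_lit 6) (.e true (nat_lit 1) (nat_lit 96) (nat_lit 1) (nat_lit 6) (.e true (nat_lit 1) (nat_lit 79) (nat_lit 2) (nat_lit 5) (.e false (nat_lit 1) (nat_lit 46) (nat_lit 4) (nat_lit 4) (.u (nat_lit 2) (.n (nat_lit 2) (nat_lit 1) (.p (nat_lit 4) (nat_lit 1) .z)) .nil)))))))))) .leaf) (nat_lit 31760) (nat_lit 535) (.p (nat_lit 205) (nat_lit 3) (.p (nat_lit 206) (nat_lit 3) (.p (nat_lit 207) (nat_lit 2) (.n (nat_lit 209) (nat_lit 2) (.n (nat_lit 212) (nat_lit 2) (.n (nat_lit 213) (nat_lit 3) (.p (nat_lit 214) (nat_lit 2) (.p (nat_lit 215) (nat_lit 1) (.n (nat_lit 216) (nat_lit 2) (.n (nat_lit 217) (nat_lit 3) (.p (nat_lit 218) (nat_lit 1) (.p (nat_lit 219) (nat_lit 3) (.n (nat_lit 220) (nat_lit 2) (.n (nat_lit 221) (nat_lit 1) (.n (nat_lit 222) (nat_lit 3) (.p (nat_lit 224) (nat_lit 2) (.p (nat_lit 225) (nat_lit 1) (.p (nat_lit 226) (nat_lit 1) (.n (nat_lit 227) (nat_lit 2) (.n (nat_lit 228) (nat_lit 1) (.n (nat_lit 229) (nat_lit 1) (.n (nat_lit 230) (nat_lit 1) (.n (nat_lit 231) (nat_lit 1) (.p (nat_lit 232) (nat_lit 2) (.n (nat_lit 234) (nat_lit 3) (.p (nat_lit 240) (nat_lit 2) (.n (nat_lit 241) (nat_lit 2) (.n (nat_lit 243) (nat_lit 3) (.n (nat_lit 244) (nat_lit 1) (.n (nat_lit 245) (nat_lit 3) (.p (nat_lit 246) (nat_lit 1) (.p (nat_lit 247) (nat_lit 2) (.n (nat_lit 248) (nat_lit 1) (.p (nat_lit 249) (nat_lit 1) (.n (nat_lit 250) (nat_lit 2) (.p (nat_lit 251) (nat_lit 1) .z)))))))))))))))))))))))))))))))))))) (.ct dC2a_c307 (nat_lit 1) (nat_lit 2) (.s true (nat_lit 1) (nat_lit 14) (nat_lit 2) (nat_lit 1) (nat_lit 5) true (nat_lit 2) true (nat_lit 9) true (nat_lit 3) true (nat_lit 12) true (nat_lit 13) (.e true (nat_lit 1) (nat_lit 77) (nat_lit 5) (nat_lit 9) (.e false (nat_lit 1) (nat_lit 33) (nat_lit 14) (nat_lit 3) (.e true (nat_lit 1) (nat_lit 34) (nat_lit 14) (nat_lit 3) (.e true (nat_lit 1) (nat_lit 37) (nat_lit 14) (nat_lit 3) (.e true (nat_lit 1) (nat_lit 38) (nat_lit 14) (nat_lit 3) (.e true (nat_lit 1) (nat_lit 106) (nat_lit 2) (nat_lit 12) (.e false (nat_lit 2) (nat_lit 107) (nat_lit 2) (nat_lit 12) dC2a_i7))))))))) .leaf)) (nat_lit 31761) (nat_lit 557) (.p (nat_lit 205) (nat_lit 1) (.n (nat_lit 206) (nat_lit 3) (.n (nat_lit 208) (nat_lit 2) (.p (nat_lit 209) (nat_lit 3) (.n (nat_lit 210) (nat_lit 1) (.p (nat_lit 211) (nat_lit 1) (.p (nat_lit 212) (nat_lit 1) (.n (nat_lit 213) (nat_lit 3) (.n (nat_lit 215) (nat_lit 3) (.p (nat_lit 216) (nat_lit 1) (.p (nat_lit 217) (nat_lit 2) (.n (nat_lit 218) (nat_lit 2) (.p (nat_lit 219) (nat_lit 1) (.n (nat_lit 221) (nat_lit 1) (.p (nat_lit 222) (nat_lit 1) (.n (nat_lit 224) (nat_lit 3) (.n (nat_lit 225) (nat_lit 2) (.p (nat_lit 226) (nat_lit 2) (.n (nat_lit 227) (nat_lit 2) (.p (nat_lit 228) (nat_lit 3) (.n (nat_lit 230) (nat_lit 1) (.n (nat_lit 231) (nat_lit 3) (.n (nat_lit 234) (nat_lit 1) (.n (nat_lit 240) (nat_lit 3) (.p (nat_lit 241) (nat_lit 3) (.p (nat_lit 242) (nat_lit 1) (.p (nat_lit 243) (nat_lit 1) (.n (nat_lit 244) (nat_lit 1) (.n (nat_lit 245) (nat_lit 3) (.p (nat_lit 246) (nat_lit 3) (.n (nat_lit 248) (nat_lit 1) (.n (nat_lit 249) (nat_lit 2) (.n (nat_lit 250) (nat_lit 3) (.n (nat_lit 251) (nat_lit 3) .z)))))))))))))))))))))))))))))))))) (.ct dC2a_c307 (nat_lit 1) (nat_lit 2) (.s false (nat_lit 1) (nat_lit 31) (nat_lit 2) (nat_lit 2) (nat_lit 0) true (nat_lit 9) true (nat_lit 14) false (nat_lit 2) true (nat_lit 12) true (nat_lit 12) (.e false (nat_lit 1) (nat_lit 75) (nat_lit 5) (nat_lit 9) (.e false (nat_lit 1) (nat_lit 159) (nat_lit 0) (nat_lit 14) (.e true (nat_lit 3) (nat_lit 106) (nat_lit 2) (nat_lit 12) (.e false (nat_lit 2) (nat_lit 109) (nat_lit 2) (nat_lit 12) (.e true (nat_lit 2) (nat_lit 110) (nat_lit 2) (nat_lit 12) (.e false (nat_lit 2) (nat_lit 111) (nat_lit 2) (nat_lit 12) (.e false (nat_lit 1) (nat_lit 112) (nat_lit 2) (nat_lit 12) (.e true (nat_lit 1) (nat_lit 114) (nat_lit 2) (nat_lit 12) (.e true (nat_lit 1) (nat_lit 116) (nat_lit 2) (nat_lit 12) (.e true (nat_lit 2) (nat_lit 117) (nat_lit 2) (nat_lit 12) (.e true (nat_lit 3) (nat_lit 118) (nat_lit 2) (nat_lit 12) (.e false (nat_lit 2) (nat_lit 119) (nat_lit 2) (nat_lit 12) (.e true (nat_lit 1) (nat_lit 121) (nat_lit 2) (nat_lit 12) (.e true (nat_lit 1) (nat_lit 122) (nat_lit 2) (nat_lit 12) (.e false (nat_lit 3) (nat_lit 123) (nat_lit 2) (nat_lit 12) (.e false (nat_lit 2) (nat_lit 124) (nat_lit 2) (nat_lit 12) (.e true (nat_lit 2) (nat_lit 125) (nat_lit 2) (nat_lit 12) (.e true (nat_lit 1) (nat_lit 127) (nat_lit 2) (nat_lit 12) (.e false (nat_lit 1) (nat_lit 128) (nat_lit 2) (nat_lit 12) (.e true (nat_lit 1) (nat_lit 108) (nat_lit 2) (nat_lit 12) (.u (nat_lit 2) (.n (nat_lit 0) (nat_lit 1) (.n (nat_lit 4) (nat_lit 1) (.p (nat_lit 10) (nat_lit 1) (.p (nat_lit 17) (nat_lit 1) (.p (nat_lit 20) (nat_lit 1) (.p (nat_lit 22) (nat_lit 1) (.n (nat_lit 23) (nat_lit 1) (.p (nat_lit 35) (nat_lit 1) (.n (nat_lit 36) (nat_lit 1) (.p (nat_lit 46) (nat_lit 1) (.p (nat_lit 146) (nat_lit 1) (.n (nat_lit 149) (nat_lit 1) .z)))))))))))) .nil))))))))))))))))))))))) (.nd (.nd (.nd .leaf (nat_lit 31764) (nat_lit 710) (.p (nat_lit 289) (nat_lit 2) (.n (nat_lit 291) (nat_lit 3) (.n (nat_lit 292) (nat_lit 2) (.p (nat_lit 293) (nat_lit 3) (.p (nat_lit 294) (nat_lit 3) (.p (nat_lit 295) (nat_lit 2) (.n (nat_lit 296) (nat_lit 2) (.p (nat_lit 297) (nat_lit 1) (.n (nat_lit 298) (nat_lit 1) (.p (nat_lit 304) (nat_lit 1) .z)))))))))) (.ct dC2a_c52 (nat_lit 1) (nat_lit 0) (.s false (nat_lit 1) (nat_lit 31) (nat_lit 2) (nat_lit 2) (nat_lit 2) true (nat_lit 4) true (nat_lit 7) false (nat_lit 0) true (nat_lit 7) true (nat_lit 7) (.e false (nat_lit 1) (nat_lit 75) (nat_lit 7) (nat_lit 4) (.e false (nat_lit 2) (nat_lit 158) (nat_lit 2) (nat_lit 7) (.e true (nat_lit 3) (nat_lit 160) (nat_lit 2) (nat_lit 7) (.e true (nat_lit 2) (nat_lit 161) (nat_lit 2) (nat_lit 7) (.e false (nat_lit 3) (nat_lit 162) (nat_lit 2) (nat_lit 7) (.e false (nat_lit 3) (nat_lit 163) (nat_lit 2) (nat_lit 7) (.e false (nat_lit 2) (nat_lit 164) (nat_lit 2) (nat_lit 7) (.e true (nat_lit 2) (nat_lit 165) (nat_lit 2) (nat_lit 7) (.e false (nat_lit 1) (nat_lit 166) (nat_lit 2) (nat_lit 7) (.e true (nat_lit 1) (nat_lit 167) (nat_lit 2) (nat_lit 7) .nil)))))))))))) .leaf) (nat_lit 32768) (nat_lit 67) (.p (nat_lit 58) (nat_lit 1) .z) .df .leaf) (nat_lit 32770) (nat_lit 106) (.p (nat_lit 76) (nat_lit 1) .z) .df (.nd (.nd .leaf (nat_lit 32773) (nat_lit 215) (.p (nat_lit 108) (nat_lit 1) (.p (nat_lit 109) (nat_lit 1) (.n (nat_lit 110) (nat_lit 1) (.n (nat_lit 111) (nat_lit 1) (.p (nat_lit 112) (nat_lit 1) (.p (nat_lit 113) (nat_lit 1) (.n (nat_lit 114) (nat_lit 1) (.n (nat_lit 116) (nat_lit 2) (.n (nat_lit 117) (nat_lit 2) (.p (nat_lit 118) (nat_lit 3) (.p (nat_lit 119) (nat_lit 2) (.n (nat_lit 120) (nat_lit 1) (.p (nat_lit 122) (nat_lit 2) (.p (nat_lit 123) (nat_lit 1) (.n (nat_lit 124) (nat_lit 1) (.p (nat_lit 125) (nat_lit 1) (.n (nat_lit 126) (nat_lit 2) (.n (nat_lit 127) (nat_lit 2) (.p (nat_lit 128) (nat_lit 1) (.p (nat_lit 130) (nat_lit 1) (.p (nat_lit 131) (nat_lit 1) .z))))))))))))))))))))) (.ct dC2a_c306 (nat_lit 1) (nat_lit 5) (.s true (nat_lit 1) (nat_lit 15) (nat_lit 2) (nat_lit 1) (nat_lit 0) true (nat_lit 5) true (nat_lit 10) false (nat_lit 0) true (nat_lit 8) true (nat_lit 9) (.e true (nat_lit 1) (nat_lit 78) (nat_lit 0) (nat_lit 10) (.e false (nat_lit 1) (nat_lit 15) (nat_lit 13) (nat_lit 0) (.e false (nat_lit 1) (nat_lit 50) (nat_lit 2) (nat_lit 8) (.e false (nat_lit 1) (nat_lit 51) (nat_lit 2) (nat_lit 8) (.e false (nat_lit 1) (nat_lit 52) (nat_lit 2) (nat_lit 8) (.e true (nat_lit 1) (nat_lit 54) (nat_lit 2) (nat_lit 8) (.e true (nat_lit 1) (nat_lit 59) (nat_lit 2) (nat_lit 8) (.e false (nat_lit 1) (nat_lit 65) (nat_lit 1) (nat_lit 9) (.u (nat_lit 2) (.n (nat_lit 6) (nat_lit 1) (.p (nat_lit 8) (nat_lit 1) (.n (nat_lit 25) (nat_lit 1) .z))) .nil))))))))))) .leaf) (nat_lit 32775) (nat_lit 303) (.p (nat_lit 158) (nat_lit 2) (.p (nat_lit 160) (nat_lit 2) (.n (nat_lit 161) (nat_lit 2) (.n (nat_lit 162) (nat_lit 3) (.p (nat_lit 163) (nat_lit 2) (.p (nat_lit 164) (nat_lit 1) (.p (nat_lit 168) (nat_lit 1) .z))))))) (.ct dC2a_c51 (nat_lit 1) (nat_lit 2) (.s true (nat_lit 1) (nat_lit 15) (nat_lit 2) (nat_lit 1) (nat_lit 2) true (nat_lit 2) true (nat_lit 5) true (nat_lit 0) true (nat_lit 5) true (nat_lit 6) (.e true (nat_lit 2) (nat_lit 78) (nat_lit 2) (nat_lit 5) (.e false (nat_lit 1) (nat_lit 18) (nat_lit 15) (nat_lit 0) (.e false (nat_lit 1) (nat_lit 74) (nat_lit 2) (nat_lit 5) (.e false (nat_lit 1) (nat_lit 76) (nat_lit 2) (nat_lit 5) (.e true (nat_lit 1) (nat_lit 77) (nat_lit 2) (nat_lit 5) (.e false (nat_lit 1) (nat_lit 79) (nat_lit 2) (nat_lit 5) (.e false (nat_lit 1) (nat_lit 92) (nat_lit 1) (nat_lit 6) .nil))))))))) .leaf))) (nat_lit 32784) (nat_lit 522) (.n (nat_lit 205) (nat_lit 2) (.p (nat_lit 206) (nat_lit 2) (.p (nat_lit 207) (nat_lit 3) (.p (nat_lit 208) (nat_lit 3) (.n (nat_lit 209) (nat_lit 3) (.n (nat_lit 210) (nat_lit 2) (.p (nat_lit 211) (nat_lit 2) (.p (nat_lit 213) (nat_lit 3) (.p (nat_lit 214) (nat_lit 2) (.p (nat_lit 215) (nat_lit 2) (.n (nat_lit 216) (nat_lit 2) (.p (nat_lit 217) (nat_lit 2) (.n (nat_lit 218) (nat_lit 2) (.n (nat_lit 220) (nat_lit 2) (.p (nat_lit 221) (nat_lit 2) (.n (nat_lit 222) (nat_lit 3) (.n (nat_lit 224) (nat_lit 1) (.n (nat_lit 225) (nat_lit 2) (.n (nat_lit 226) (nat_lit 3) (.p (nat_lit 227) (nat_lit 1) (.n (nat_lit 228) (nat_lit 1) (.p (nat_lit 229) (nat_lit 2) (.p (nat_lit 230) (nat_lit 2) (.n (nat_lit 231) (nat_lit 1) (.p (nat_lit 234) (nat_lit 1) (.n (nat_lit 240) (nat_lit 1) (.p (nat_lit 241) (nat_lit 1) (.n (nat_lit 242) (nat_lit 1) (.p (nat_lit 243) (nat_lit 1) (.n (nat_lit 244) (nat_lit 1) (.n (nat_lit 246) (nat_lit 3) (.p (nat_lit 247) (nat_lit 1) (.p (nat_lit 248) (nat_lit 1) (.n (nat_lit 249) (nat_lit 3) (.n (nat_lit 251) (nat_lit 1) .z))))))))))))))))))))))))))))))))))) (.ct dC2a_c307 (nat_lit 1) (nat_lit 2) (.s true (nat_lit 1) (nat_lit 15) (nat_lit 2) (nat_lit 1) (nat_lit 5) true (nat_lit 2) true (nat_lit 9) true (nat_lit 3) true (nat_lit 12) true (nat_lit 13) (.e true (nat_lit 1) (nat_lit 78) (nat_lit 5) (nat_lit 9) (.e false (nat_lit 1) (nat_lit 33) (nat_lit 15) (nat_lit 3) (.e true (nat_lit 1) (nat_lit 34) (nat_lit 15) (nat_lit 3) dC2a_i8))))) (.nd (.nd (.nd (.nd .leaf (nat_lit 32785) (nat_lit 555) (.n (nat_lit 205) (nat_lit 1) (.n (nat_lit 206) (nat_lit 3) (.p (nat_lit 207) (nat_lit 3) (.n (nat_lit 209) (nat_lit 2) (.n (nat_lit 210) (nat_lit 1) (.n (nat_lit 211) (nat_lit 3) (.n (nat_lit 212) (nat_lit 1) (.n (nat_lit 213) (nat_lit 2) (.p (nat_lit 214) (nat_lit 2) (.p (nat_lit 215) (nat_lit 1) (.n (nat_lit 216) (nat_lit 3) (.n (nat_lit 217) (nat_lit 3) (.n (nat_lit 218) (nat_lit 2) (.p (nat_lit 219) (nat_lit 3) (.n (nat_lit 221) (nat_lit 3) (.n (nat_lit 224) (nat_lit 2) (.n (nat_lit 225) (nat_lit 2) (.p (nat_lit 226) (nat_lit 2) (.n (nat_lit 227) (nat_lit 1) (.n (nat_lit 228) (nat_lit 1) (.n (nat_lit 229) (nat_lit 2) (.n (nat_lit 230) (nat_lit 2) (.p (nat_lit 231) (nat_lit 1) (.n (nat_lit 232) (nat_lit 2) (.p (nat_lit 234) (nat_lit 1) (.n (nat_lit 240) (nat_lit 2) (.p (nat_lit 241) (nat_lit 2) (.p (nat_lit 242) (nat_lit 1) (.n (nat_lit 243) (nat_lit 1) (.p (nat_lit 244) (nat_lit 2) (.n (nat_lit 245) (nat_lit 3) (.n (nat_lit 247) (nat_lit 3) (.p (nat_lit 248) (nat_lit 1) (.n (nat_lit 249) (nat_lit 2) (.p (nat_lit 250) (nat_lit 2) (.p (nat_lit 251) (nat_lit 3) .z)))))))))))))))))))))))))))))))))))) (.ct dC2a_c307 (nat_lit 1) (nat_lit 2) (.s false (nat_lit 1) (nat_lit 32) (nat_lit 2) (nat_lit 2) (nat_lit 0) true (nat_lit 9) true (nat_lit 14) false (nat_lit 2) true (nat_lit 12) true (nat_lit 12) dC2a_i9)) .leaf) (nat_lit 32788) (nat_lit 734) (.p (nat_lit 289) (nat_lit 3) (.p (nat_lit 290) (nat_lit 3) (.p (nat_lit 291) (nat_lit 1) (.p (nat_lit 292) (nat_lit 2) (.n (nat_lit 293) (nat_lit 3) (.n (nat_lit 295) (nat_lit 2) (.p (nat_lit 296) (nat_lit 2) (.n (nat_lit 297) (nat_lit 1) (.n (nat_lit 299) (nat_lit 1) (.p (nat_lit 301) (nat_lit 2) (.n (nat_lit 303) (nat_lit 3) (.n (nat_lit 304) (nat_lit 3) .z)))))))))))) (.ct dC2a_c52 (nat_lit 1) (nat_lit 0) (.s false (nat_lit 1) (nat_lit 32) (nat_lit 2) (nat_lit 2) (nat_lit 2) true (nat_lit 4) true (nat_lit 7) false (nat_lit 0) true (nat_lit 7) true (nat_lit 7) (.e false (nat_lit 1) (nat_lit 76) (nat_lit 7) (nat_lit 4) (.e true (nat_lit 2) (nat_lit 160) (nat_lit 2) (nat_lit 7) (.e true (nat_lit 2) (nat_lit 158) (nat_lit 2) (nat_lit 7) (.e false (nat_lit 2) (nat_lit 161) (nat_lit 2) (nat_lit 7) (.e false (nat_lit 3) (nat_lit 162) (nat_lit 2) (nat_lit 7) (.e true (nat_lit 2) (nat_lit 163) (nat_lit 2) (nat_lit 7) (.e true (nat_lit 1) (nat_lit 164) (nat_lit 2) (nat_lit 7) (.e true (nat_lit 1) (nat_lit 168) (nat_lit 2) (nat_lit 7) (.u (nat_lit 2) (.n (nat_lit 0) (nat_lit 1) (.n (nat_lit 1) (nat_lit 1) (.p (nat_lit 4) (nat_lit 1) (.p (nat_lit 14) (nat_lit 1) .z)))) .nil))))))))))) .leaf) (nat_lit 33793) (nat_lit 84) (.p (nat_lit 66) (nat_lit 1) .z) .df (.nd (.nd .leaf (nat_lit 33794) (nat_lit 115) (.p (nat_lit 80) (nat_lit 1) .z) .df .leaf) (nat_lit 33796) (nat_lit 196) (.n (nat_lit 106) (nat_lit 1) (.p (nat_lit 109) (nat_lit 2) (.n (nat_lit 110) (nat_lit 1) (.p (nat_lit 112) (nat_lit 1) (.n (nat_lit 114) (nat_lit 1) (.n (nat_lit 116) (nat_lit 1) (.n (nat_lit 117) (nat_lit 1) (.p (nat_lit 118) (nat_lit 1) (.n (nat_lit 119) (nat_lit 1) (.n (nat_lit 120) (nat_lit 1) (.p (nat_lit 122) (nat_lit 1) (.p (nat_lit 123) (nat_lit 1) (.p (nat_lit 127) (nat_lit 1) (.p (nat_lit 128) (nat_lit 1) .z)))))))))))))) (.ct dC2a_c306 (nat_lit 1) (nat_lit 6) (.s true (nat_lit 1) (nat_lit 11) (nat_lit 1) (nat_lit 2) (nat_lit 1) true (nat_lit 6) true (nat_lit 9) true (nat_lit 0) true (nat_lit 9) true (nat_lit 8) (.e true (nat_lit 1) (nat_lit 62) (nat_lit 1) (nat_lit 9) (.e true (nat_lit 1) (nat_lit 15) (nat_lit 11) (nat_lit 0) (.e false (nat_lit 1) (nat_lit 73) (nat_lit 1) (nat_lit 9) (.e false (nat_lit 1) (nat_lit 54) (nat_lit 2) (nat_lit 8) .nil)))))) .leaf)) (nat_lit 33798) (nat_lit 255) (.n (nat_lit 134) (nat_lit 1) (.p (nat_lit 138) (nat_lit 2) (.n (nat_lit 145) (nat_lit 1) (.n (nat_lit 146) (nat_lit 1) (.p (nat_lit 149) (nat_lit 1) (.p (nat_lit 154) (nat_lit 1) .z)))))) (.ct dC2a_c291 (nat_lit 1) (nat_lit 4) (.s true (nat_lit 1) (nat_lit 11) (nat_lit 1) (nat_lit 2) (nat_lit 2) true (nat_lit 4) true (nat_lit 8) true (nat_lit 1) true (nat_lit 9) true (nat_lit 8) (.e true (nat_lit 1) (nat_lit 62) (nat_lit 2) (nat_lit 8) (.e true (nat_lit 1) (nat_lit 18) (nat_lit 11) (nat_lit 1) (.e false (nat_lit 1) (nat_lit 88) (nat_lit 1) (nat_lit 9) (.e false (nat_lit 1) (nat_lit 66) (nat_lit 2) (nat_lit 8) .nil)))))) (.nd (.nd (.nd .leaf (nat_lit 33799) (nat_lit 328) (.p (nat_lit 181) (nat_lit 1) .z) .df .leaf) (nat_lit 33806) (nat_lit 481) (.p (nat_lit 205) (nat_lit 1) (.p (nat_lit 206) (nat_lit 3) (.p (nat_lit 207) (nat_lit 3) (.p (nat_lit 208) (nat_lit 2) (.n (nat_lit 209) (nat_lit 1) (.p (nat_lit 211) (nat_lit 1) (.n (nat_lit 213) (nat_lit 1) (.n (nat_lit 215) (nat_lit 1) (.p (nat_lit 216) (nat_lit 1) (.n (nat_lit 217) (nat_lit 1) (.n (nat_lit 218) (nat_lit 3) (.p (nat_lit 219) (nat_lit 1) (.n (nat_lit 221) (nat_lit 1) (.n (nat_lit 222) (nat_lit 1) (.p (nat_lit 225) (nat_lit 1) (.p (nat_lit 226) (nat_lit 3) (.n (nat_lit 227) (nat_lit 1) (.n (nat_lit 228) (nat_lit 1) (.n (nat_lit 229) (nat_lit 1) (.n (nat_lit 230) (nat_lit 1) (.n (nat_lit 238) (nat_lit 2) (.n (nat_lit 245) (nat_lit 1) (.p (nat_lit 246) (nat_lit 1) (.p (nat_lit 247) (nat_lit 1) (.p (nat_lit 248) (nat_lit 2) (.n (nat_lit 251) (nat_lit 1) .z)))))))))))))))))))))))))) (.ct dC2a_c307 (nat_lit 1) (nat_lit 3) (.s false (nat_lit 1) (nat_lit 33) (nat_lit 1) (nat_lit 1) (nat_lit 2) true (nat_lit 8) true (nat_lit 12) false (nat_lit 3) true (nat_lit 13) true (nat_lit 13) (.e false (nat_lit 1) (nat_lit 66) (nat_lit 6) (nat_lit 8) (.e false (nat_lit 1) (nat_lit 123) (nat_lit 2) (nat_lit 12) (.e false (nat_lit 1) (nat_lit 134) (nat_lit 1) (nat_lit 13) (.e true (nat_lit 2) (nat_lit 138) (nat_lit 1) (nat_lit 13) (.e false (nat_lit 1) (nat_lit 145) (nat_lit 1) (nat_lit 13) (.e true (nat_lit 1) (nat_lit 149) (nat_lit 1) (nat_lit 13) (.e true (nat_lit 1) (nat_lit 154) (nat_lit 1) (nat_lit 13) (.u (nat_lit 2) (.n (nat_lit 2) (nat_lit 1) (.n (nat_lit 3) (nat_lit 1) (.p (nat_lit 6) (nat_lit 1) (.n (nat_lit 8) (nat_lit 1) (.p (nat_lit 11) (nat_lit 1) (.p (nat_lit 13) (nat_lit 1) (.p (nat_lit 14) (nat_lit 1) (.p (nat_lit 16) (nat_lit 1) (.p (nat_lit 17) (nat_lit 1) (.n (nat_lit 21) (nat_lit 1) (.p (nat_lit 22) (nat_lit 1) (.p (nat_lit 23) (nat_lit 1) (.n (nat_lit 24) (nat_lit 1) (.n (nat_lit 25) (nat_lit 1) (.n (nat_lit 40) (nat_lit 1) (.n (nat_lit 41) (nat_lit 1) (.n (nat_lit 42) (nat_lit 1) (.p (nat_lit 46) (nat_lit 1) .z)))))))))))))))))) .nil)))))))))) .leaf) (nat_lit 33807) (nat_lit 478) (.n (nat_lit 205) (nat_lit 3) (.p (nat_lit 206) (nat_lit 2) (.n (nat_lit 207) (nat_lit 2) (.n (nat_lit 208) (nat_lit 3) (.n (nat_lit 209) (nat_lit 1) (.p (nat_lit 210) (nat_lit 1) (.p (nat_lit 211) (nat_lit 1) (.n (nat_lit 214) (nat_lit 1) (.p (nat_lit 215) (nat_lit 3) (.n (nat_lit 216) (nat_lit 3) (.n (nat_lit 217) (nat_lit 1) (.p (nat_lit 218) (nat_lit 2) (.n (nat_lit 219) (nat_lit 3) (.p (nat_lit 220) (nat_lit 1) (.p (nat_lit 221) (nat_lit 2) (.p (nat_lit 222) (nat_lit 2) (.p (nat_lit 225) (nat_lit 3) (.n (nat_lit 226) (nat_lit 3) (.p (nat_lit 227) (nat_lit 1) (.p (nat_lit 228) (nat_lit 2) (.n (nat_lit 229) (nat_lit 3) (.n (nat_lit 230) (nat_lit 3) (.n (nat_lit 231) (nat_lit 2) (.p (nat_lit 238) (nat_lit 1) (.p (nat_lit 242) (nat_lit 1) (.n (nat_lit 245) (nat_lit 3) (.n (nat_lit 246) (nat_lit 2) (.n (nat_lit 247) (nat_lit 2) (.n (nat_lit 248) (nat_lit 3) (.p (nat_lit 251) (nat_lit 3) .z)))))))))))))))))))))))))))))) (.ct dC2a_c307 (nat_lit 1) (nat_lit 3) (.s false (nat_lit 1) (nat_lit 11) (nat_lit 1) (nat_lit 2) (nat_lit 6) true (nat_lit 3) true (nat_lit 8) true (nat_lit 4) true (nat_lit 13) true (nat_lit 12) (.e false (nat_lit 1) (nat_lit 62) (nat_lit 6) (nat_lit 8) (.e true (nat_lit 1) (nat_lit 138) (nat_lit 1) (nat_lit 13) (.e false (nat_lit 1) (nat_lit 145) (nat_lit 1) (nat_lit 13) (.e false (nat_lit 1) (nat_lit 146) (nat_lit 1) (nat_lit 13) (.e true (nat_lit 1) (nat_lit 154) (nat_lit 1) (nat_lit 13) (.e true (nat_lit 1) (nat_lit 127) (nat_lit 2) (nat_lit 12) (.u (nat_lit 2) (.n (nat_lit 8) (nat_lit 1) (.p (nat_lit 11) (nat_lit 1) (.p (nat_lit 14) (nat_lit 1) (.p (nat_lit 43) (nat_lit 1) .z)))) .nil))))))))) (.nd .leaf (nat_lit 33810) (nat_lit 609) (.n (nat_lit 254) (nat_lit 3) (.n (nat_lit 258) (nat_lit 1) (.n (nat_lit 264) (nat_lit 1) (.p (nat_lit 265) (nat_lit 2) (.n (nat_lit 266) (nat_lit 2) (.p (nat_lit 269) (nat_lit 1) (.p (nat_lit 272) (nat_lit 1) (.p (nat_lit 274) (nat_lit 3) (.n (nat_lit 278) (nat_lit 1) (.p (nat_lit 285) (nat_lit 1) .z)))))))))) (.ct dC2a_c292 (nat_lit 1) (nat_lit 1) (.s false (nat_lit 1) (nat_lit 33) (nat_lit 1) (nat_lit 2) (nat_lit 2) true (nat_lit 7) true (nat_lit 11) false (nat_lit 1) true (nat_lit 12) true (nat_lit 11) (.e false (nat_lit 1) (nat_lit 80) (nat_lit 6) (nat_lit 7) (.e false (nat_lit 1) (nat_lit 138) (nat_lit 2) (nat_lit 11) (.e true (nat_lit 1) (nat_lit 181) (nat_lit 1) (nat_lit 12) (.e true (nat_lit 1) (nat_lit 146) (nat_lit 2) (nat_lit 11) .nil)))))) .leaf))))) (nat_lit 33811) (nat_lit 602) (.p (nat_lit 254) (nat_lit 1) (.n (nat_lit 258) (nat_lit 3) (.p (nat_lit 265) (nat_lit 1) (.p (nat_lit 266) (nat_lit 1) (.n (nat_lit 269) (nat_lit 1) (.n (nat_lit 274) (nat_lit 1) (.p (nat_lit 278) (nat_lit 1) (.p (nat_lit 287) (nat_lit 1) .z)))))))) (.ct dC2a_c292 (nat_lit 1) (nat_lit 1) (.s false (nat_lit 1) (nat_lit 33) (nat_lit 2) (nat_lit 2) (nat_lit 1) true (nat_lit 7) true (nat_lit 12) false (nat_lit 1) true (nat_lit 11) true (nat_lit 11) (.e false (nat_lit 1) (nat_lit 80) (nat_lit 6) (nat_lit 7) (.e false (nat_lit 1) (nat_lit 169) (nat_lit 1) (nat_lit 12) (.e false (nat_lit 1) (nat_lit 134) (nat_lit 2) (nat_lit 11) (.e true (nat_lit 3) (nat_lit 138) (nat_lit 2) (nat_lit 11) (.e false (nat_lit 1) (nat_lit 145) (nat_lit 2) (nat_lit 11) (.e false (nat_lit 1) (nat_lit 146) (nat_lit 2) (nat_lit 11) (.e true (nat_lit 1) (nat_lit 149) (nat_lit 2) (nat_lit 11) (.e true (nat_lit 1) (nat_lit 154) (nat_lit 2) (nat_lit 11) .nil)))))))))) (.nd (.nd (.nd (.nd (.nd (.nd .leaf (nat_lit 33812) (nat_lit 777) (.n (nat_lit 305) (nat_lit 3) (.n (nat_lit 306) (nat_lit 2) (.p (nat_lit 307) (nat_lit 2) (.n (nat_lit 308) (nat_lit 1) (.p (nat_lit 309) (nat_lit 2) (.n (nat_lit 310) (nat_lit 3) (.n (nat_lit 311) (nat_lit 1) (.n (nat_lit 312) (nat_lit 1) (.n (nat_lit 313) (nat_lit 1) (.p (nat_lit 314) (nat_lit 2) (.p (nat_lit 317) (nat_lit 1) (.n (nat_lit 321) (nat_lit 1) (.p (nat_lit 322) (nat_lit 1) .z))))))))))))) (.ct dC2a_c277 (nat_lit 1) (nat_lit 0) (.s false (nat_lit 1) (nat_lit 11) (nat_lit 2) (nat_lit 2) (nat_lit 7) true (nat_lit 0) true (nat_lit 4) true (nat_lit 3) true (nat_lit 8) true (nat_lit 8) (.e false (nat_lit 1) (nat_lit 80) (nat_lit 7) (nat_lit 4) (.e true (nat_lit 1) (nat_lit 181) (nat_lit 2) (nat_lit 8) .nil)))) .leaf) (nat_lit 34817) (nat_lit 85) (.p (nat_lit 67) (nat_lit 1) .z) .df .leaf) (nat_lit 34818) (nat_lit 116) (.p (nat_lit 81) (nat_lit 1) .z) .df (.nd (.nd .leaf (nat_lit 34820) (nat_lit 210) (.p (nat_lit 106) (nat_lit 2) (.n (nat_lit 107) (nat_lit 3) (.p (nat_lit 108) (nat_lit 2) (.n (nat_lit 110) (nat_lit 2) (.p (nat_lit 113) (nat_lit 1) (.n (nat_lit 115) (nat_lit 1) (.p (nat_lit 116) (nat_lit 1) (.n (nat_lit 117) (nat_lit 3) (.n (nat_lit 118) (nat_lit 1) (.p (nat_lit 119) (nat_lit 3) (.n (nat_lit 120) (nat_lit 1) (.p (nat_lit 121) (nat_lit 1) (.n (nat_lit 123) (nat_lit 3) (.p (nat_lit 124) (nat_lit 2) (.n (nat_lit 126) (nat_lit 2) (.p (nat_lit 127) (nat_lit 3) (.p (nat_lit 128) (nat_lit 1) (.p (nat_lit 130) (nat_lit 1) (.p (nat_lit 131) (nat_lit 1) .z))))))))))))))))))) (.ct dC2a_c306 (nat_lit 1) (nat_lit 6) (.s true (nat_lit 1) (nat_lit 12) (nat_lit 1) (nat_lit 2) (nat_lit 1) true (nat_lit 6) true (nat_lit 9) true (nat_lit 0) true (nat_lit 9) true (nat_lit 8) (.e true (nat_lit 1) (nat_lit 15) (nat_lit 12) (nat_lit 0) (.e true (nat_lit 1) (nat_lit 61) (nat_lit 1) (nat_lit 9) (.e true (nat_lit 1) (nat_lit 66) (nat_lit 1) (nat_lit 9) (.e false (nat_lit 1) (nat_lit 68) (nat_lit 1) (nat_lit 9) (.e false (nat_lit 1) (nat_lit 72) (nat_lit 1) (nat_lit 9) (.e false (nat_lit 1) (nat_lit 55) (nat_lit 2) (nat_lit 8) (.u (nat_lit 2) (.n (nat_lit 2) (nat_lit 1) (.p (nat_lit 4) (nat_lit 1) (.n (nat_lit 7) (nat_lit 1) (.p (nat_lit 9) (nat_lit 1) (.n (nat_lit 10) (nat_lit 1) (.p (nat_lit 14) (nat_lit 1) (.p (nat_lit 17) (nat_lit 1) (.n (nat_lit 21) (nat_lit 1) (.n (nat_lit 24) (nat_lit 1) (.n (nat_lit 25) (nat_lit 1) .z)))))))))) .nil))))))))) .leaf) (nat_lit 34822) (nat_lit 261) (.p (nat_lit 133) (nat_lit 1) (.n (nat_lit 135) (nat_lit 2) (.p (nat_lit 138) (nat_lit 1) (.p (nat_lit 139) (nat_lit 2) (.n (nat_lit 140) (nat_lit 1) (.n (nat_lit 144) (nat_lit 1) (.n (nat_lit 147) (nat_lit 1) (.p (nat_lit 150) (nat_lit 1) (.p (nat_lit 155) (nat_lit 1) .z))))))))) (.ct dC2a_c291 (nat_lit 1) (nat_lit 4) (.s true (nat_lit 1) (nat_lit 12) (nat_lit 1) (nat_lit 2) (nat_lit 2) true (nat_lit 4) true (nat_lit 8) true (nat_lit 1) true (nat_lit 9) true (nat_lit 8) (.e true (nat_lit 1) (nat_lit 63) (nat_lit 2) (nat_lit 8) (.e true (nat_lit 1) (nat_lit 18) (nat_lit 12) (nat_lit 1) (.e false (nat_lit 1) (nat_lit 89) (nat_lit 1) (nat_lit 9) (.e false (nat_lit 1) (nat_lit 67) (nat_lit 2) (nat_lit 8) .nil)))))) .leaf)) (nat_lit 34823) (nat_lit 329) (.p (nat_lit 182) (nat_lit 1) .z) .df (.nd (.nd (.nd .leaf (nat_lit 34830) (nat_lit 501) (.p (nat_lit 206) (nat_lit 3) (.n (nat_lit 207) (nat_lit 1) (.n (nat_lit 208) (nat_lit 2) (.n (nat_lit 209) (nat_lit 3) (.n (nat_lit 210) (nat_lit 2) (.n (nat_lit 211) (nat_lit 2) (.n (nat_lit 212) (nat_lit 1) (.p (nat_lit 213) (nat_lit 3) (.p (nat_lit 214) (nat_lit 3) (.n (nat_lit 215) (nat_lit 3) (.n (nat_lit 216) (nat_lit 1) (.p (nat_lit 217) (nat_lit 3) (.p (nat_lit 218) (nat_lit 3) (.n (nat_lit 219) (nat_lit 1) (.p (nat_lit 220) (nat_lit 2) (.n (nat_lit 221) (nat_lit 1) (.n (nat_lit 222) (nat_lit 2) (.p (nat_lit 223) (nat_lit 2) (.p (nat_lit 226) (nat_lit 2) (.n (nat_lit 227) (nat_lit 1) (.n (nat_lit 228) (nat_lit 2) (.n (nat_lit 229) (nat_lit 3) (.n (nat_lit 230) (nat_lit 3) (.p (nat_lit 231) (nat_lit 2) (.p (nat_lit 232) (nat_lit 1) (.n (nat_lit 234) (nat_lit 2) (.n (nat_lit 239) (nat_lit 2) (.n (nat_lit 242) (nat_lit 3) (.n (nat_lit 243) (nat_lit 3) (.p (nat_lit 244) (nat_lit 1) (.n (nat_lit 245) (nat_lit 2) (.n (nat_lit 246) (nat_lit 1) (.n (nat_lit 247) (nat_lit 2) (.p (nat_lit 248) (nat_lit 1) (.n (nat_lit 249) (nat_lit 1) (.p (nat_lit 250) (nat_lit 2) (.p (nat_lit 251) (nat_lit 2) .z))))))))))))))))))))))))))))))))))))) (.ct dC2a_c307 (nat_lit 1) (nat_lit 3) (.s false (nat_lit 1) (nat_lit 34) (nat_lit 1) (nat_lit 1) (nat_lit 2) true (nat_lit 8) true (nat_lit 12) false (nat_lit 3) true (nat_lit 13) true (nat_lit 13) (.e false (nat_lit 1) (nat_lit 67) (nat_lit 6) (nat_lit 8) (.e false (nat_lit 1) (nat_lit 124) (nat_lit 2) (nat_lit 12) (.e true (nat_lit 1) (nat_lit 133) (nat_lit 1) (nat_lit 13) (.e false (nat_lit 2) (nat_lit 135) (nat_lit 1) (nat_lit 13) (.e true (nat_lit 1) (nat_lit 138) (nat_lit 1) (nat_lit 13) (.e true (nat_lit 2) (nat_lit 139) (nat_lit 1) (nat_lit 13) (.e false (nat_lit 1) (nat_lit 140) (nat_lit 1) (nat_lit 13) (.e false (nat_lit 1) (nat_lit 144) (nat_lit 1) (nat_lit 13) (.e true (nat_lit 1) (nat_lit 150) (nat_lit 1) (nat_lit 13) (.e true (nat_lit 1) (nat_lit 155) (nat_lit 1) (nat_lit 13) (.u (nat_lit 2) (.p (nat_lit 0) (nat_lit 1) (.p (nat_lit 3) (nat_lit 1) (.p (nat_lit 5) (nat_lit 1) (.n (nat_lit 7) (nat_lit 1) (.p (nat_lit 10) (nat_lit 1) (.n (nat_lit 13) (nat_lit 1) (.n (nat_lit 15) (nat_lit 1) (.p (nat_lit 16) (nat_lit 1) (.p (nat_lit 17) (nat_lit 1) (.n (nat_lit 21) (nat_lit 1) (.n (nat_lit 26) (nat_lit 1) (.n (nat_lit 27) (nat_lit 1) (.p (nat_lit 37) (nat_lit 1) (.p (nat_lit 38) (nat_lit 1) (.n (nat_lit 39) (nat_lit 1) (.n (nat_lit 40) (nat_lit 1) (.p (nat_lit 45) (nat_lit 1) (.n (nat_lit 46) (nat_lit 1) .z)))))))))))))))))) .nil))))))))))))) .leaf) (nat_lit 34831) (nat_lit 497) (.p (nat_lit 205) (nat_lit 1) (.n (nat_lit 206) (nat_lit 2) (.n (nat_lit 207) (nat_lit 3) (.n (nat_lit 208) (nat_lit 1) (.p (nat_lit 209) (nat_lit 1) (.n (nat_lit 210) (nat_lit 3) (.p (nat_lit 212) (nat_lit 2) (.p (nat_lit 213) (nat_lit 3) (.p (nat_lit 214) (nat_lit 1) (.p (nat_lit 215) (nat_lit 1) (.n (nat_lit 216) (nat_lit 3) (.p (nat_lit 217) (nat_lit 2) (.p (nat_lit 218) (nat_lit 2) (.p (nat_lit 219) (nat_lit 1) (.p (nat_lit 220) (nat_lit 3) (.p (nat_lit 221) (nat_lit 3) (.n (nat_lit 222) (nat_lit 2) (.n (nat_lit 223) (nat_lit 1) (.p (nat_lit 225) (nat_lit 2) (.p (nat_lit 226) (nat_lit 2) (.n (nat_lit 227) (nat_lit 1) (.n (nat_lit 228) (nat_lit 1) (.n (nat_lit 229) (nat_lit 1) (.n (nat_lit 230) (nat_lit 1) (.n (nat_lit 231) (nat_lit 1) (.p (nat_lit 232) (nat_lit 3) (.n (nat_lit 234) (nat_lit 1) (.p (nat_lit 239) (nat_lit 1) (.p (nat_lit 242) (nat_lit 2) (.p (nat_lit 243) (nat_lit 3) (.n (nat_lit 244) (nat_lit 3) (.p (nat_lit 245) (nat_lit 3) (.n (nat_lit 247) (nat_lit 2) (.p (nat_lit 248) (nat_lit 1) (.n (nat_lit 249) (nat_lit 2) (.n (nat_lit 250) (nat_lit 3) (.n (nat_lit 251) (nat_lit 2) .z))))))))))))))))))))))))))))))))))))) (.ct dC2a_c307 (nat_lit 1) (nat_lit 3) (.s false (nat_lit 1) (nat_lit 34) (nat_lit 2) (nat_lit 1) (nat_lit 1) true (nat_lit 8) true (nat_lit 13) false (nat_lit 3) true (nat_lit 12) true (nat_lit 13) (.e false (nat_lit 1) (nat_lit 67) (nat_lit 6) (nat_lit 8) (.e false (nat_lit 1) (nat_lit 147) (nat_lit 1) (nat_lit 13) (.e true (nat_lit 2) (nat_lit 106) (nat_lit 2) (nat_lit 12) (.e false (nat_lit 3) (nat_lit 107) (nat_lit 2) (nat_lit 12) (.e true (nat_lit 2) (nat_lit 108) (nat_lit 2) (nat_lit 12) (.e false (nat_lit 2) (nat_lit 110) (nat_lit 2) (nat_lit 12) (.e true (nat_lit 1) (nat_lit 113) (nat_lit 2) (nat_lit 12) (.e false (nat_lit 1) (nat_lit 115) (nat_lit 2) (nat_lit 12) (.e true (nat_lit 1) (nat_lit 116) (nat_lit 2) (nat_lit 12) (.e false (nat_lit 3) (nat_lit 117) (nat_lit 2) (nat_lit 12) (.e false (nat_lit 1) (nat_lit 118) (nat_lit 2) (nat_lit 12) (.e true (nat_lit 3) (nat_lit 119) (nat_lit 2) (nat_lit 12) (.e false (nat_lit 1) (nat_lit 120) (nat_lit 2) (nat_lit 12) (.e true (nat_lit 1) (nat_lit 121) (nat_lit 2) (nat_lit 12) (.e false (nat_lit 3) (nat_lit 123) (nat_lit 2) (nat_lit 12) (.e true (nat_lit 2) (nat_lit 124) (nat_lit 2) (nat_lit 12) (.e false (nat_lit 2) (nat_lit 126) (nat_lit 2) (nat_lit 12) (.e true (nat_lit 3) (nat_lit 127) (nat_lit 2) (nat_lit 12) (.e true (nat_lit 1) (nat_lit 128) (nat_lit 2) (nat_lit 12) (.e true (nat_lit 1) (nat_lit 130) (nat_lit 2) (nat_lit 12) (.e true (nat_lit 1) (nat_lit 131) (nat_lit 2) (nat_lit 12) (.e true (nat_lit 1) (nat_lit 139) (nat_lit 1) (nat_lit 13) (.u (nat_lit 2) (.p (nat_lit 1) (nat_lit 1) (.p (nat_lit 5) (nat_lit 1) (.n (nat_lit 7) (nat_lit 1) (.p (nat_lit 11) (nat_lit 1) (.n (nat_lit 13) (nat_lit 1) (.n (nat_lit 15) (nat_lit 1) (.p (nat_lit 17) (nat_lit 1) (.n (nat_lit 21) (nat_lit 1) (.n (nat_lit 27) (nat_lit 1) (.n (nat_lit 40) (nat_lit 1) (.p (nat_lit 45) (nat_lit 1) .z))))))))))) .nil))))))))))))))))))))))))) .leaf) (nat_lit 34834) (nat_lit 632) (.p (nat_lit 252) (nat_lit 1) (.p (nat_lit 254) (nat_lit 3) (.n (nat_lit 255) (nat_lit 1) (.p (nat_lit 256) (nat_lit 3) (.p (nat_lit 258) (nat_lit 3) (.n (nat_lit 259) (nat_lit 3) (.n (nat_lit 260) (nat_lit 3) (.p (nat_lit 261) (nat_lit 3) (.p (nat_lit 263) (nat_lit 3) (.p (nat_lit 264) (nat_lit 3) (.n (nat_lit 265) (nat_lit 3) (.n (nat_lit 267) (nat_lit 2) (.p (nat_lit 270) (nat_lit 1) (.n (nat_lit 272) (nat_lit 2) (.p (nat_lit 274) (nat_lit 2) (.n (nat_lit 275) (nat_lit 2) (.n (nat_lit 279) (nat_lit 1) (.p (nat_lit 286) (nat_lit 1) .z)))))))))))))))))) (.ct dC2a_c292 (nat_lit 1) (nat_lit 1) (.s false (nat_lit 1) (nat_lit 34) (nat_lit 1) (nat_lit 2) (nat_lit 2) true (nat_lit 7) true (nat_lit 11) false (nat_lit 1) true (nat_lit 12) true (nat_lit 11) (.e false (nat_lit 1) (nat_lit 81) (nat_lit 6) (nat_lit 7) (.e false (nat_lit 1) (nat_lit 139) (nat_lit 2) (nat_lit 11) (.e true (nat_lit 1) (nat_lit 182) (nat_lit 1) (nat_lit 12) (.e true (nat_lit 1) (nat_lit 147) (nat_lit 2) (nat_lit 11) (.u (nat_lit 2) (.p (nat_lit 7) (nat_lit 1) .z) .nil))))))) (.nd (.nd .leaf (nat_lit 34835) (nat_lit 603) (.n (nat_lit 253) (nat_lit 1) (.p (nat_lit 255) (nat_lit 2) (.n (nat_lit 258) (nat_lit 1) (.n (nat_lit 259) (nat_lit 3) (.p (nat_lit 260) (nat_lit 1) (.p (nat_lit 264) (nat_lit 1) (.p (nat_lit 267) (nat_lit 1) (.n (nat_lit 270) (nat_lit 1) (.n (nat_lit 275) (nat_lit 1) (.p (nat_lit 279) (nat_lit 1) (.p (nat_lit 288) (nat_lit 1) .z))))))))))) (.ct dC2a_c292 (nat_lit 1) (nat_lit 1) (.s false (nat_lit 1) (nat_lit 34) (nat_lit 2) (nat_lit 2) (nat_lit 1) true (nat_lit 7) true (nat_lit 12) false (nat_lit 1) true (nat_lit 11) true (nat_lit 11) (.e false (nat_lit 1) (nat_lit 81) (nat_lit 6) (nat_lit 7) (.e false (nat_lit 1) (nat_lit 170) (nat_lit 1) (nat_lit 12) (.e true (nat_lit 1) (nat_lit 133) (nat_lit 2) (nat_lit 11) (.e false (nat_lit 2) (nat_lit 135) (nat_lit 2) (nat_lit 11) (.e true (nat_lit 1) (nat_lit 138) (nat_lit 2) (nat_lit 11) (.e true (nat_lit 3) (nat_lit 139) (nat_lit 2) (nat_lit 11) (.e false (nat_lit 1) (nat_lit 140) (nat_lit 2) (nat_lit 11) (.e false (nat_lit 1) (nat_lit 144) (nat_lit 2) (nat_lit 11) (.e false (nat_lit 1) (nat_lit 147) (nat_lit 2) (nat_lit 11) (.e true (nat_lit 1) (nat_lit 150) (nat_lit 2) (nat_lit 11) (.e true (nat_lit 1) (nat_lit 155) (nat_lit 2) (nat_lit 11) .nil))))))))))))) .leaf) (nat_lit 34836) (nat_lit 766) (.n (nat_lit 317) (nat_lit 1) (.p (nat_lit 322) (nat_lit 1) .z)) (.ct dC2a_c277 (nat_lit 1) (nat_lit 0) (.s false (nat_lit 1) (nat_lit 12) (nat_lit 2) (nat_lit 2) (nat_lit 7) true (nat_lit 0) true (nat_lit 4) true (nat_lit 3) true (nat_lit 8) true (nat_lit 8) (.e false (nat_lit 1) (nat_lit 81) (nat_lit 7) (nat_lit 4) (.e true (nat_lit 1) (nat_lit 182) (nat_lit 2) (nat_lit 8) .nil)))) .leaf))) (nat_lit 35841) (nat_lit 86) (.p (nat_lit 68) (nat_lit 1) .z) .df (.nd (.nd (.nd (.nd .leaf (nat_lit 35842) (nat_lit 117) (.p (nat_lit 82) (nat_lit 1) .z) .df .leaf) (nat_lit 35844) (nat_lit 219) (.p (nat_lit 106) (nat_lit 3) (.n (nat_lit 107) (nat_lit 3) (.p (nat_lit 108) (nat_lit 2) (.n (nat_lit 109) (nat_lit 2) (.n (nat_lit 110) (nat_lit 2) (.n (nat_lit 112) (nat_lit 1) (.p (nat_lit 113) (nat_lit 1) (.p (nat_lit 114) (nat_lit 1) (.n (nat_lit 115) (nat_lit 1) (.p (nat_lit 116) (nat_lit 2) (.p (nat_lit 117) (nat_lit 3) (.n (nat_lit 118) (nat_lit 3) (.p (nat_lit 119) (nat_lit 2) (.p (nat_lit 120) (nat_lit 2) (.p (nat_lit 121) (nat_lit 1) (.n (nat_lit 122) (nat_lit 3) (.n (nat_lit 123) (nat_lit 2) (.p (nat_lit 124) (nat_lit 2) (.n (nat_lit 126) (nat_lit 2) (.n (nat_lit 127) (nat_lit 3) (.p (nat_lit 130) (nat_lit 1) (.p (nat_lit 131) (nat_lit 2) .z)))))))))))))))))))))) (.ct dC2a_c306 (nat_lit 1) (nat_lit 6) (.s true (nat_lit 1) (nat_lit 13) (nat_lit 1) (nat_lit 2) (nat_lit 1) true (nat_lit 6) true (nat_lit 9) true (nat_lit 0) true (nat_lit 9) true (nat_lit 8) (.e true (nat_lit 1) (nat_lit 64) (nat_lit 1) (nat_lit 9) (.e true (nat_lit 1) (nat_lit 15) (nat_lit 13) (nat_lit 0) (.e false (nat_lit 1) (nat_lit 62) (nat_lit 1) (nat_lit 9) (.e false (nat_lit 1) (nat_lit 65) (nat_lit 1) (nat_lit 9) (.e true (nat_lit 1) (nat_lit 66) (nat_lit 1) (nat_lit 9) (.e false (nat_lit 1) (nat_lit 68) (nat_lit 1) (nat_lit 9) (.e false (nat_lit 1) (nat_lit 69) (nat_lit 1) (nat_lit 9) (.e false (nat_lit 1) (nat_lit 71) (nat_lit 1) (nat_lit 9) (.e false (nat_lit 1) (nat_lit 72) (nat_lit 1) (nat_lit 9) (.e false (nat_lit 1) (nat_lit 56) (nat_lit 2) (nat_lit 8) (.u (nat_lit 2) (.n (nat_lit 0) (nat_lit 1) (.n (nat_lit 2) (nat_lit 1) (.p (nat_lit 4) (nat_lit 1) (.n (nat_lit 10) (nat_lit 1) (.p (nat_lit 16) (nat_lit 1) (.p (nat_lit 17) (nat_lit 1) .z)))))) .nil))))))))))))) .leaf) (nat_lit 35846) (nat_lit 280) (.n (nat_lit 132) (nat_lit 1) (.n (nat_lit 133) (nat_lit 1) (.n (nat_lit 134) (nat_lit 3) (.p (nat_lit 135) (nat_lit 1) (.n (nat_lit 136) (nat_lit 2) (.p (nat_lit 137) (nat_lit 2) (.p (nat_lit 138) (nat_lit 1) (.p (nat_lit 139) (nat_lit 1) (.p (nat_lit 141) (nat_lit 2) (.n (nat_lit 142) (nat_lit 1) (.n (nat_lit 143) (nat_lit 3) (.n (nat_lit 144) (nat_lit 1) (.p (nat_lit 145) (nat_lit 2) (.p (nat_lit 146) (nat_lit 1) (.p (nat_lit 149) (nat_lit 2) (.n (nat_lit 150) (nat_lit 3) (.p (nat_lit 151) (nat_lit 3) (.n (nat_lit 152) (nat_lit 2) (.n (nat_lit 153) (nat_lit 3) (.p (nat_lit 154) (nat_lit 3) (.p (nat_lit 155) (nat_lit 3) (.n (nat_lit 156) (nat_lit 3) (.p (nat_lit 157) (nat_lit 2) .z))))))))))))))))))))))) (.ct dC2a_c291 (nat_lit 1) (nat_lit 4) (.s true (nat_lit 1) (nat_lit 13) (nat_lit 1) (nat_lit 2) (nat_lit 2) true (nat_lit 4) true (nat_lit 8) true (nat_lit 1) true (nat_lit 9) true (nat_lit 8) (.e true (nat_lit 1) (nat_lit 64) (nat_lit 2) (nat_lit 8) (.e true (nat_lit 1) (nat_lit 18) (nat_lit 13) (nat_lit 1) (.e false (nat_lit 1) (nat_lit 90) (nat_lit 1) (nat_lit 9) (.e false (nat_lit 1) (nat_lit 68) (nat_lit 2) (nat_lit 8) (.u (nat_lit 2) (.p (nat_lit 4) (nat_lit 1) (.n (nat_lit 5) (nat_lit 1) (.n (nat_lit 7) (nat_lit 1) (.p (nat_lit 8) (nat_lit 1) (.p (nat_lit 18) (nat_lit 1) (.p (nat_lit 20) (nat_lit 1) (.p (nat_lit 21) (nat_lit 1) (.n (nat_lit 25) (nat_lit 1) .z)))))))) .nil))))))) (.nd (.nd .leaf (nat_lit 35847) (nat_lit 330) (.p (nat_lit 183) (nat_lit 1) .z) .df .leaf) (nat_lit 35854) (nat_lit 512) (.p (nat_lit 207) (nat_lit 3) (.n (nat_lit 208) (nat_lit 2) (.n (nat_lit 209) (nat_lit 2) (.p (nat_lit 210) (nat_lit 3) (.n (nat_lit 212) (nat_lit 3) (.n (nat_lit 213) (nat_lit 1) (.p (nat_lit 215) (nat_lit 1) (.n (nat_lit 217) (nat_lit 1) (.p (nat_lit 218) (nat_lit 1) (.p (nat_lit 222) (nat_lit 3) (.p (nat_lit 223) (nat_lit 2) (.n (nat_lit 225) (nat_lit 3) (.n (nat_lit 226) (nat_lit 1) (.p (nat_lit 227) (nat_lit 1) (.n (nat_lit 228) (nat_lit 2) (.n (nat_lit 229) (nat_lit 1) (.n (nat_lit 230) (nat_lit 3) (.n (nat_lit 231) (nat_lit 1) (.p (nat_lit 232) (nat_lit 1) (.n (nat_lit 234) (nat_lit 2) (.n (nat_lit 238) (nat_lit 2) (.n (nat_lit 239) (nat_lit 2) (.n (nat_lit 242) (nat_lit 2) (.n (nat_lit 243) (nat_lit 1) (.p (nat_lit 244) (nat_lit 1) (.p (nat_lit 245) (nat_lit 1) (.n (nat_lit 247) (nat_lit 3) (.n (nat_lit 248) (nat_lit 3) (.n (nat_lit 249) (nat_lit 2) (.p (nat_lit 250) (nat_lit 2) (.n (nat_lit 251) (nat_lit 2) .z))))))))))))))))))))))))))))))) (.ct dC2a_c307 (nat_lit 1) (nat_lit 3) (.s false (nat_lit 1) (nat_lit 35) (nat_lit 1) (nat_lit 1) (nat_lit 2) true (nat_lit 8) true (nat_lit 12) false (nat_lit 3) true (nat_lit 13) true (nat_lit 13) (.e false (nat_lit 1) (nat_lit 68) (nat_lit 6) (nat_lit 8) (.e false (nat_lit 1) (nat_lit 106) (nat_lit 2) (nat_lit 12) (.e true (nat_lit 1) (nat_lit 107) (nat_lit 2) (nat_lit 12) (.e true (nat_lit 2) (nat_lit 108) (nat_lit 2) (nat_lit 12) (.e false (nat_lit 3) (nat_lit 110) (nat_lit 2) (nat_lit 12) (.e true (nat_lit 1) (nat_lit 112) (nat_lit 2) (nat_lit 12) (.e true (nat_lit 3) (nat_lit 113) (nat_lit 2) (nat_lit 12) (.e false (nat_lit 1) (nat_lit 114) (nat_lit 2) (nat_lit 12) (.e false (nat_lit 3) (nat_lit 115) (nat_lit 2) (nat_lit 12) (.e true (nat_lit 3) (nat_lit 116) (nat_lit 2) (nat_lit 12) (.e true (nat_lit 1) (nat_lit 117) (nat_lit 2) (nat_lit 12) (.e false (nat_lit 1) (nat_lit 119) (nat_lit 2) (nat_lit 12) (.e false (nat_lit 3) (nat_lit 120) (nat_lit 2) (nat_lit 12) (.e false (nat_lit 1) (nat_lit 121) (nat_lit 2) (nat_lit 12) (.e false (nat_lit 3) (nat_lit 122) (nat_lit 2) (nat_lit 12) (.e false (nat_lit 3) (nat_lit 123) (nat_lit 2) (nat_lit 12) (.e false (nat_lit 1) (nat_lit 124) (nat_lit 2) (nat_lit 12) dC2a_i10))))))))))))))))))) .leaf)) (nat_lit 35855) (nat_lit 511) (.n (nat_lit 205) (nat_lit 1) (.n (nat_lit 206) (nat_lit 1) (.n (nat_lit 207) (nat_lit 1) (.p (nat_lit 209) (nat_lit 2) (.n (nat_lit 210) (nat_lit 1) (.p (nat_lit 211) (nat_lit 3) (.p (nat_lit 213) (nat_lit 1) (.p (nat_lit 214) (nat_lit 1) (.p (nat_lit 215) (nat_lit 1) (.p (nat_lit 216) (nat_lit 1) (.p (nat_lit 217) (nat_lit 2) (.n (nat_lit 218) (nat_lit 3) (.p (nat_lit 219) (nat_lit 3) (.p (nat_lit 220) (nat_lit 3) (.p (nat_lit 221) (nat_lit 1) (.n (nat_lit 222) (nat_lit 1) (.n (nat_lit 223) (nat_lit 1) (.n (nat_lit 225) (nat_lit 3) (.n (nat_lit 227) (nat_lit 2) (.p (nat_lit 229) (nat_lit 3) (.p (nat_lit 230) (nat_lit 1) (.p (nat_lit 231) (nat_lit 2) (.p (nat_lit 232) (nat_lit 1) (.p (nat_lit 234) (nat_lit 3) (.p (nat_lit 238) (nat_lit 1) (.p (nat_lit 239) (nat_lit 1) (.n (nat_lit 242) (nat_lit 3) (.n (nat_lit 243) (nat_lit 3) (.p (nat_lit 244) (nat_lit 2) (.p (nat_lit 245) (nat_lit 2) (.p (nat_lit 246) (nat_lit 1) (.n (nat_lit 247) (nat_lit 3) (.n (nat_lit 248) (nat_lit 3) (.n (nat_lit 249) (nat_lit 3) (.p (nat_lit 250) (nat_lit 1) (.p (nat_lit 251) (nat_lit 3) .z)))))))))))))))))))))))))))))))))))) (.ct dC2a_c307 (nat_lit 1) (nat_lit 3) (.s false (nat_lit 1) (nat_lit 35) (nat_lit 2) (nat_lit 1) (nat_lit 1) true (nat_lit 8) true (nat_lit 13) false (nat_lit 3) true (nat_lit 12) true (nat_lit 13) (.e false (nat_lit 1) (nat_lit 68) (nat_lit 6) (nat_lit 8) (.e false (nat_lit 3) (nat_lit 132) (nat_lit 1) (nat_lit 13) (.e true (nat_lit 1) (nat_lit 133) (nat_lit 1) (nat_lit 13) (.e true (nat_lit 2) (nat_lit 134) (nat_lit 1) (nat_lit 13) (.e false (nat_lit 1) (nat_lit 135) (nat_lit 1) (nat_lit 13) (.e false (nat_lit 3) (nat_lit 136) (nat_lit 1) (nat_lit 13) (.e false (nat_lit 1) (nat_lit 137) (nat_lit 1) (nat_lit 13) (.e true (nat_lit 1) (nat_lit 138) (nat_lit 1) (nat_lit 13) (.e false (nat_lit 3) (nat_lit 139) (nat_lit 1) (nat_lit 13) (.e false (nat_lit 3) (nat_lit 140) (nat_lit 1) (nat_lit 13) (.e false (nat_lit 3) (nat_lit 141) (nat_lit 1) (nat_lit 13) (.e false (nat_lit 1) (nat_lit 143) (nat_lit 1) (nat_lit 13) (.e false (nat_lit 1) (nat_lit 144) (nat_lit 1) (nat_lit 13) (.e true (nat_lit 3) (nat_lit 145) (nat_lit 1) (nat_lit 13) (.e true (nat_lit 1) (nat_lit 146) (nat_lit 1) (nat_lit 13) (.e true (nat_lit 3) (nat_lit 147) (nat_lit 1) (nat_lit 13) (.e true (nat_lit 1) (nat_lit 149) (nat_lit 1) (nat_lit 13) (.e false (nat_lit 2) (nat_lit 150) (nat_lit 1) (nat_lit 13) (.e false (nat_lit 2) (nat_lit 151) (nat_lit 1) (nat_lit 13) (.e false (nat_lit 2) (nat_lit 152) (nat_lit 1) (nat_lit 13) (.e false (nat_lit 2) (nat_lit 153) (nat_lit 1) (nat_lit 13) (.e false (nat_lit 3) (nat_lit 154) (nat_lit 1) (nat_lit 13) (.e false (nat_lit 1) (nat_lit 155) (nat_lit 1) (nat_lit 13) dC2a_i11))))))))))))))))))))))))) (.nd (.nd (.nd .leaf (nat_lit 35858) (nat_lit 645) (.p (nat_lit 252) (nat_lit 3) (.p (nat_lit 253) (nat_lit 3) (.p (nat_lit 254) (nat_lit 2) (.n (nat_lit 255) (nat_lit 1) (.n (nat_lit 256) (nat_lit 1) (.n (nat_lit 257) (nat_lit 2) (.n (nat_lit 259) (nat_lit 3) (.n (nat_lit 260) (nat_lit 3) (.n (nat_lit 261) (nat_lit 2) (.p (nat_lit 262) (nat_lit 1) (.n (nat_lit 263) (nat_lit 2) (.n (nat_lit 264) (nat_lit 3) (.p (nat_lit 265) (nat_lit 1) (.n (nat_lit 266) (nat_lit 1) (.p (nat_lit 267) (nat_lit 1) (.p (nat_lit 269) (nat_lit 2) (.p (nat_lit 270) (nat_lit 3) (.p (nat_lit 271) (nat_lit 2) (.p (nat_lit 272) (nat_lit 3) (.p (nat_lit 273) (nat_lit 1) (.p (nat_lit 274) (nat_lit 3) (.p (nat_lit 275) (nat_lit 2) (.n (nat_lit 276) (nat_lit 2) (.p (nat_lit 277) (nat_lit 1) (.n (nat_lit 279) (nat_lit 1) (.n (nat_lit 283) (nat_lit 1) (.p (nat_lit 284) (nat_lit 1) (.p (nat_lit 285) (nat_lit 2) (.n (nat_lit 287) (nat_lit 1) .z))))))))))))))))))))))))))))) (.ct dC2a_c292 (nat_lit 1) (nat_lit 1) (.s false (nat_lit 1) (nat_lit 35) (nat_lit 1) (nat_lit 2) (nat_lit 2) true (nat_lit 7) true (nat_lit 11) false (nat_lit 1) true (nat_lit 12) true (nat_lit 11) (.e false (nat_lit 1) (nat_lit 82) (nat_lit 6) (nat_lit 7) (.e true (nat_lit 3) (nat_lit 140) (nat_lit 2) (nat_lit 11) dC2a_i12)))) .leaf) (nat_lit 35859) (nat_lit 629) (.p (nat_lit 252) (nat_lit 1) (.n (nat_lit 254) (nat_lit 3) (.n (nat_lit 255) (nat_lit 2) (.p (nat_lit 256) (nat_lit 1) (.n (nat_lit 257) (nat_lit 1) (.n (nat_lit 259) (nat_lit 2) (.n (nat_lit 261) (nat_lit 1) (.p (nat_lit 262) (nat_lit 2) (.n (nat_lit 263) (nat_lit 1) (.n (nat_lit 264) (nat_lit 3) (.n (nat_lit 265) (nat_lit 1) (.p (nat_lit 266) (nat_lit 3) (.p (nat_lit 267) (nat_lit 1) (.n (nat_lit 269) (nat_lit 2) (.n (nat_lit 270) (nat_lit 1) (.n (nat_lit 271) (nat_lit 3) (.p (nat_lit 273) (nat_lit 3) (.p (nat_lit 274) (nat_lit 2) (.p (nat_lit 275) (nat_lit 3) (.p (nat_lit 276) (nat_lit 3) (.p (nat_lit 278) (nat_lit 1) (.p (nat_lit 279) (nat_lit 1) (.n (nat_lit 283) (nat_lit 3) (.p (nat_lit 284) (nat_lit 1) (.p (nat_lit 285) (nat_lit 3) (.n (nat_lit 286) (nat_lit 2) (.p (nat_lit 287) (nat_lit 1) (.p (nat_lit 288) (nat_lit 1) .z)))))))))))))))))))))))))))) (.ct dC2a_c292 (nat_lit 1) (nat_lit 1) (.s false (nat_lit 1) (nat_lit 35) (nat_lit 2) (nat_lit 2) (nat_lit 1) true (nat_lit 7) true (nat_lit 12) false (nat_lit 1) true (nat_lit 11) true (nat_lit 11) (.e false (nat_lit 1) (nat_lit 82) (nat_lit 6) (nat_lit 7) (.e false (nat_lit 1) (nat_lit 171) (nat_lit 1) (nat_lit 12) dC2a_i13)))) .leaf) (nat_lit 35860) (nat_lit 767) (.n (nat_lit 318) (nat_lit 1) (.p (nat_lit 323) (nat_lit 1) .z)) (.ct dC2a_c277 (nat_lit 1) (nat_lit 0) (.s false (nat_lit 1) (nat_lit 13) (nat_lit 2) (nat_lit 2) (nat_lit 7) true (nat_lit 0) true (nat_lit 4) true (nat_lit 3) true (nat_lit 8) true (nat_lit 8) (.e false (nat_lit 1) (nat_lit 82) (nat_lit 7) (nat_lit 4) (.e true (nat_lit 1) (nat_lit 183) (nat_lit 2) (nat_lit 8) .nil)))) (.nd .leaf (nat_lit 36865) (nat_lit 98) (.p (nat_lit 60) (nat_lit 1) (.p (nat_lit 61) (nat_lit 1) (.n (nat_lit 62) (nat_lit 1) (.n (nat_lit 63) (nat_lit 1) (.p (nat_lit 65) (nat_lit 1) (.p (nat_lit 66) (nat_lit 1) (.p (nat_lit 67) (nat_lit 1) (.n (nat_lit 68) (nat_lit 1) (.n (nat_lit 69) (nat_lit 1) (.n (nat_lit 72) (nat_lit 1) (.p (nat_lit 73) (nat_lit 1) .z))))))))))) (.ct dC2a_c290 (nat_lit 1) (nat_lit 6) (.s false (nat_lit 1) (nat_lit 3) (nat_lit 1) (nat_lit 2) (nat_lit 2) true (nat_lit 1) true (nat_lit 5) true (nat_lit 4) true (nat_lit 6) true (nat_lit 5) (.e false (nat_lit 1) (nat_lit 11) (nat_lit 6) (nat_lit 1) (.e false (nat_lit 1) (nat_lit 24) (nat_lit 2) (nat_lit 5) (.e true (nat_lit 1) (nat_lit 18) (nat_lit 3) (nat_lit 4) (.e false (nat_lit 1) (nat_lit 34) (nat_lit 1) (nat_lit 6) (.e true (nat_lit 1) (nat_lit 35) (nat_lit 1) (nat_lit 6) (.e true (nat_lit 1) (nat_lit 38) (nat_lit 1) (nat_lit 6) (.e true (nat_lit 1) (nat_lit 26) (nat_lit 2) (nat_lit 5) .nil))))))))) .leaf)))) (nat_lit 36866) (nat_lit 118) (.p (nat_lit 83) (nat_lit 1) .z) .df (.nd (.nd (.nd (.nd (.nd .leaf (nat_lit 36868) (nat_lit 223) (.n (nat_lit 106) (nat_lit 2) (.p (nat_lit 109) (nat_lit 1) (.n (nat_lit 110) (nat_lit 3) (.p (nat_lit 112) (nat_lit 3) (.p (nat_lit 113) (nat_lit 1) (.n (nat_lit 114) (nat_lit 3) (.n (nat_lit 115) (nat_lit 1) (.n (nat_lit 116) (nat_lit 1) (.p (nat_lit 117) (nat_lit 3) (.p (nat_lit 118) (nat_lit 3) (.p (nat_lit 119) (nat_lit 2) (.n (nat_lit 120) (nat_lit 3) (.n (nat_lit 121) (nat_lit 1) (.n (nat_lit 122) (nat_lit 3) (.p (nat_lit 123) (nat_lit 3) (.n (nat_lit 125) (nat_lit 2) (.n (nat_lit 127) (nat_lit 1) (.p (nat_lit 128) (nat_lit 1) (.p (nat_lit 130) (nat_lit 1) (.p (nat_lit 131) (nat_lit 1) .z)))))))))))))))))))) (.ct dC2a_c306 (nat_lit 1) (nat_lit 6) (.s true (nat_lit 1) (nat_lit 5) (nat_lit 2) (nat_lit 1) (nat_lit 4) false (nat_lit 0) true (nat_lit 6) true (nat_lit 5) true (nat_lit 8) true (nat_lit 9) (.e true (nat_lit 1) (nat_lit 14) (nat_lit 12) (nat_lit 0) (.e true (nat_lit 1) (nat_lit 30) (nat_lit 5) (nat_lit 5) (.e false (nat_lit 1) (nat_lit 31) (nat_lit 5) (nat_lit 5) (.e false (nat_lit 1) (nat_lit 49) (nat_lit 2) (nat_lit 8) (.e true (nat_lit 1) (nat_lit 50) (nat_lit 2) (nat_lit 8) (.e true (nat_lit 2) (nat_lit 52) (nat_lit 2) (nat_lit 8) (.e false (nat_lit 1) (nat_lit 55) (nat_lit 2) (nat_lit 8) (.e true (nat_lit 1) (nat_lit 57) (nat_lit 2) (nat_lit 8) (.e false (nat_lit 1) (nat_lit 59) (nat_lit 2) (nat_lit 8) (.e false (nat_lit 1) (nat_lit 60) (nat_lit 1) (nat_lit 9) (.e true (nat_lit 1) (nat_lit 62) (nat_lit 1) (nat_lit 9) (.e false (nat_lit 1) (nat_lit 64) (nat_lit 1) (nat_lit 9) (.e false (nat_lit 1) (nat_lit 65) (nat_lit 1) (nat_lit 9) (.u (nat_lit 2) (.p (nat_lit 0) (nat_lit 1) (.n (nat_lit 3) (nat_lit 1) (.n (nat_lit 11) (nat_lit 1) (.n (nat_lit 12) (nat_lit 1) (.p (nat_lit 16) (nat_lit 1) .z))))) .nil)))))))))))))))) .leaf) (nat_lit 36870) (nat_lit 269) (.p (nat_lit 132) (nat_lit 2) (.n (nat_lit 134) (nat_lit 1) (.n (nat_lit 135) (nat_lit 1) (.p (nat_lit 136) (nat_lit 2) (.n (nat_lit 138) (nat_lit 1) (.n (nat_lit 139) (nat_lit 1) (.p (nat_lit 140) (nat_lit 1) (.p (nat_lit 141) (nat_lit 2) (.p (nat_lit 143) (nat_lit 1) (.n (nat_lit 144) (nat_lit 1) (.p (nat_lit 145) (nat_lit 1) (.p (nat_lit 147) (nat_lit 1) (.p (nat_lit 148) (nat_lit 1) (.n (nat_lit 149) (nat_lit 2) (.p (nat_lit 150) (nat_lit 3) (.p (nat_lit 151) (nat_lit 2) (.p (nat_lit 152) (nat_lit 3) (.p (nat_lit 153) (nat_lit 2) (.p (nat_lit 154) (nat_lit 1) (.p (nat_lit 155) (nat_lit 3) (.n (nat_lit 156) (nat_lit 2) (.n (nat_lit 157) (nat_lit 2) .z)))))))))))))))))))))) (.ct dC2a_c291 (nat_lit 1) (nat_lit 4) (.s true (nat_lit 1) (nat_lit 6) (nat_lit 5) (nat_lit 2) (nat_lit 1) true (nat_lit 1) true (nat_lit 9) true (nat_lit 4) true (nat_lit 5) true (nat_lit 8) (.e true (nat_lit 1) (nat_lit 18) (nat_lit 12) (nat_lit 1) (.e true (nat_lit 1) (nat_lit 80) (nat_lit 1) (nat_lit 9) (.e false (nat_lit 1) (nat_lit 81) (nat_lit 1) (nat_lit 9) (.e false (nat_lit 1) (nat_lit 84) (nat_lit 1) (nat_lit 9) (.e false (nat_lit 1) (nat_lit 85) (nat_lit 1) (nat_lit 9) (.e true (nat_lit 1) (nat_lit 64) (nat_lit 2) (nat_lit 8) (.e true (nat_lit 1) (nat_lit 69) (nat_lit 2) (nat_lit 8) (.e false (nat_lit 1) (nat_lit 73) (nat_lit 2) (nat_lit 8) (.u (nat_lit 2) (.n (nat_lit 0) (nat_lit 1) (.n (nat_lit 4) (nat_lit 1) (.p (nat_lit 6) (nat_lit 1) (.n (nat_lit 9) (nat_lit 1) (.n (nat_lit 15) (nat_lit 1) (.p (nat_lit 17) (nat_lit 1) (.n (nat_lit 18) (nat_lit 1) (.n (nat_lit 19) (nat_lit 1) (.n (nat_lit 20) (nat_lit 1) (.n (nat_lit 21) (nat_lit 1) (.p (nat_lit 24) (nat_lit 1) (.p (nat_lit 25) (nat_lit 1) .z)))))))))))) .nil))))))))))) .leaf) (nat_lit 36871) (nat_lit 342) (.n (nat_lit 169) (nat_lit 1) (.n (nat_lit 171) (nat_lit 1) (.p (nat_lit 172) (nat_lit 3) (.p (nat_lit 173) (nat_lit 1) (.n (nat_lit 174) (nat_lit 2) (.n (nat_lit 175) (nat_lit 2) (.n (nat_lit 176) (nat_lit 2) (.p (nat_lit 177) (nat_lit 1) (.p (nat_lit 178) (nat_lit 2) (.p (nat_lit 179) (nat_lit 2) (.p (nat_lit 182) (nat_lit 1) .z))))))))))) (.ct dC2a_c276 (nat_lit 1) (nat_lit 2) (.s true (nat_lit 1) (nat_lit 16) (nat_lit 2) (nat_lit 1) (nat_lit 2) true (nat_lit 2) true (nat_lit 6) true (nat_lit 0) true (nat_lit 6) true (nat_lit 7) (.e true (nat_lit 1) (nat_lit 86) (nat_lit 2) (nat_lit 6) (.e true (nat_lit 1) (nat_lit 18) (nat_lit 16) (nat_lit 0) (.e false (nat_lit 1) (nat_lit 80) (nat_lit 2) (nat_lit 6) (.e true (nat_lit 1) (nat_lit 81) (nat_lit 2) (nat_lit 6) (.e true (nat_lit 1) (nat_lit 84) (nat_lit 2) (nat_lit 6) (.e true (nat_lit 2) (nat_lit 85) (nat_lit 2) (nat_lit 6) (.e true (nat_lit 1) (nat_lit 87) (nat_lit 2) (nat_lit 6) (.e false (nat_lit 1) (nat_lit 90) (nat_lit 2) (nat_lit 6) (.e false (nat_lit 1) (nat_lit 97) (nat_lit 1) (nat_lit 7) .nil))))))))))) (.nd (.nd .leaf (nat_lit 36878) (nat_lit 519) (.n (nat_lit 205) (nat_lit 2) (.p (nat_lit 206) (nat_lit 2) (.p (nat_lit 207) (nat_lit 2) (.p (nat_lit 208) (nat_lit 3) (.n (nat_lit 210) (nat_lit 2) (.p (nat_lit 213) (nat_lit 1) (.p (nat_lit 214) (nat_lit 2) (.p (nat_lit 215) (nat_lit 3) (.p (nat_lit 216) (nat_lit 2) (.p (nat_lit 217) (nat_lit 1) (.p (nat_lit 218) (nat_lit 2) (.p (nat_lit 219) (nat_lit 2) (.n (nat_lit 221) (nat_lit 2) (.n (nat_lit 222) (nat_lit 3) (.n (nat_lit 224) (nat_lit 2) (.n (nat_lit 226) (nat_lit 2) (.p (nat_lit 228) (nat_lit 3) (.n (nat_lit 229) (nat_lit 3) (.n (nat_lit 230) (nat_lit 3) (.p (nat_lit 231) (nat_lit 2) (.p (nat_lit 232) (nat_lit 1) (.n (nat_lit 234) (nat_lit 2) (.n (nat_lit 240) (nat_lit 2) (.n (nat_lit 242) (nat_lit 3) (.n (nat_lit 243) (nat_lit 3) (.p (nat_lit 244) (nat_lit 1) (.p (nat_lit 246) (nat_lit 1) (.n (nat_lit 248) (nat_lit 1) (.n (nat_lit 249) (nat_lit 1) (.p (nat_lit 250) (nat_lit 2) (.p (nat_lit 251) (nat_lit 1) .z))))))))))))))))))))))))))))))) (.ct dC2a_c307 (nat_lit 1) (nat_lit 3) (.s true (nat_lit 1) (nat_lit 14) (nat_lit 2) (nat_lit 2) (nat_lit 3) true (nat_lit 4) true (nat_lit 11) true (nat_lit 3) true (nat_lit 12) true (nat_lit 12) (.e true (nat_lit 1) (nat_lit 39) (nat_lit 11) (nat_lit 4) (.e true (nat_lit 1) (nat_lit 91) (nat_lit 3) (nat_lit 11) (.e false (nat_lit 1) (nat_lit 34) (nat_lit 14) (nat_lit 3) (.e true (nat_lit 1) (nat_lit 35) (nat_lit 14) (nat_lit 3) (.e true (nat_lit 1) (nat_lit 38) (nat_lit 14) (nat_lit 3) (.e false (nat_lit 1) (nat_lit 107) (nat_lit 2) (nat_lit 12) (.e false (nat_lit 1) (nat_lit 108) (nat_lit 2) (nat_lit 12) (.e false (nat_lit 3) (nat_lit 111) (nat_lit 2) (nat_lit 12) (.e false (nat_lit 1) (nat_lit 117) (nat_lit 2) (nat_lit 12) (.e true (nat_lit 1) (nat_lit 118) (nat_lit 2) (nat_lit 12) (.e true (nat_lit 1) (nat_lit 119) (nat_lit 2) (nat_lit 12) (.e false (nat_lit 1) (nat_lit 120) (nat_lit 2) (nat_lit 12) (.e true (nat_lit 1) (nat_lit 122) (nat_lit 2) (nat_lit 12) (.e false (nat_lit 1) (nat_lit 123) (nat_lit 2) (nat_lit 12) (.e false (nat_lit 1) (nat_lit 127) (nat_lit 2) (nat_lit 12) (.e true (nat_lit 1) (nat_lit 128) (nat_lit 2) (nat_lit 12) (.e false (nat_lit 1) (nat_lit 106) (nat_lit 2) (nat_lit 12) (.e true (nat_lit 1) (nat_lit 110) (nat_lit 2) (nat_lit 12) (.e false (nat_lit 1) (nat_lit 112) (nat_lit 2) (nat_lit 12) (.e true (nat_lit 1) (nat_lit 114) (nat_lit 2) (nat_lit 12) (.e false (nat_lit 1) (nat_lit 116) (nat_lit 2) (nat_lit 12) (.u (nat_lit 2) (.p (nat_lit 0) (nat_lit 1) (.p (nat_lit 1) (nat_lit 1) (.p (nat_lit 8) (nat_lit 1) (.n (nat_lit 10) (nat_lit 1) (.p (nat_lit 14) (nat_lit 1) (.n (nat_lit 16) (nat_lit 1) (.p (nat_lit 20) (nat_lit 1) (.p (nat_lit 21) (nat_lit 1) (.n (nat_lit 22) (nat_lit 1) (.n (nat_lit 40) (nat_lit 1) (.p (nat_lit 43) (nat_lit 1) (.n (nat_lit 151) (nat_lit 1) .z)))))))))))) .nil)))))))))))))))))))))))) .leaf) (nat_lit 36879) (nat_lit 514) (.p (nat_lit 206) (nat_lit 1) (.n (nat_lit 207) (nat_lit 3) (.n (nat_lit 208) (nat_lit 2) (.n (nat_lit 209) (nat_lit 3) (.n (nat_lit 210) (nat_lit 3) (.p (nat_lit 211) (nat_lit 3) (.p (nat_lit 212) (nat_lit 1) (.n (nat_lit 213) (nat_lit 2) (.p (nat_lit 214) (nat_lit 2) (.p (nat_lit 215) (nat_lit 1) (.p (nat_lit 216) (nat_lit 1) (.p (nat_lit 217) (nat_lit 1) (.n (nat_lit 218) (nat_lit 3) (.p (nat_lit 220) (nat_lit 2) (.n (nat_lit 221) (nat_lit 2) (.n (nat_lit 222) (nat_lit 2) (.p (nat_lit 224) (nat_lit 1) (.p (nat_lit 226) (nat_lit 1) (.p (nat_lit 227) (nat_lit 3) (.p (nat_lit 228) (nat_lit 2) (.p (nat_lit 229) (nat_lit 1) (.p (nat_lit 230) (nat_lit 1) (.p (nat_lit 231) (nat_lit 1) (.n (nat_lit 232) (nat_lit 3) (.n (nat_lit 234) (nat_lit 3) (.p (nat_lit 240) (nat_lit 1) (.p (nat_lit 243) (nat_lit 3) (.n (nat_lit 244) (nat_lit 2) (.p (nat_lit 245) (nat_lit 1) (.n (nat_lit 246) (nat_lit 3) (.p (nat_lit 247) (nat_lit 2) (.p (nat_lit 248) (nat_lit 2) (.n (nat_lit 249) (nat_lit 2) (.n (nat_lit 250) (nat_lit 2) (.p (nat_lit 251) (nat_lit 1) .z))))))))))))))))))))))))))))))))))) (.ct dC2a_c307 (nat_lit 1) (nat_lit 3) (.s true (nat_lit 1) (nat_lit 15) (nat_lit 2) (nat_lit 2) (nat_lit 3) true (nat_lit 4) true (nat_lit 11) true (nat_lit 3) true (nat_lit 12) true (nat_lit 12) (.e true (nat_lit 1) (nat_lit 40) (nat_lit 11) (nat_lit 4) (.e true (nat_lit 1) (nat_lit 92) (nat_lit 3) (nat_lit 11) (.e false (nat_lit 1) (nat_lit 34) (nat_lit 15) (nat_lit 3) (.e true (nat_lit 1) (nat_lit 35) (nat_lit 15) (nat_lit 3) (.e true (nat_lit 1) (nat_lit 38) (nat_lit 15) (nat_lit 3) (.e false (nat_lit 1) (nat_lit 106) (nat_lit 2) (nat_lit 12) (.e true (nat_lit 3) (nat_lit 109) (nat_lit 2) (nat_lit 12) (.e false (nat_lit 1) (nat_lit 110) (nat_lit 2) (nat_lit 12) (.e false (nat_lit 2) (nat_lit 111) (nat_lit 2) (nat_lit 12) (.e true (nat_lit 1) (nat_lit 112) (nat_lit 2) (nat_lit 12) (.e false (nat_lit 1) (nat_lit 114) (nat_lit 2) (nat_lit 12) (.e false (nat_lit 2) (nat_lit 116) (nat_lit 2) (nat_lit 12) (.e false (nat_lit 1) (nat_lit 117) (nat_lit 2) (nat_lit 12) (.e true (nat_lit 1) (nat_lit 118) (nat_lit 2) (nat_lit 12) (.e false (nat_lit 1) (nat_lit 120) (nat_lit 2) (nat_lit 12) (.e true (nat_lit 1) (nat_lit 122) (nat_lit 2) (nat_lit 12) (.e true (nat_lit 1) (nat_lit 123) (nat_lit 2) (nat_lit 12) (.e true (nat_lit 1) (nat_lit 128) (nat_lit 2) (nat_lit 12) (.e true (nat_lit 1) (nat_lit 107) (nat_lit 2) (nat_lit 12) (.e true (nat_lit 1) (nat_lit 108) (nat_lit 2) (nat_lit 12) (.u (nat_lit 2) (.n (nat_lit 2) (nat_lit 1) (.n (nat_lit 6) (nat_lit 1) (.p (nat_lit 10) (nat_lit 1) (.n (nat_lit 11) (nat_lit 1) (.p (nat_lit 13) (nat_lit 1) (.p (nat_lit 20) (nat_lit 1) (.n (nat_lit 23) (nat_lit 1) (.n (nat_lit 24) (nat_lit 1) (.n (nat_lit 25) (nat_lit 1) (.n (nat_lit 26) (nat_lit 1) (.p (nat_lit 27) (nat_lit 1) (.p (nat_lit 37) (nat_lit 1) (.p (nat_lit 41) (nat_lit 1) (.n (nat_lit 46) (nat_lit 1) .z)))))))))))))) .nil))))))))))))))))))))))) .leaf)) (nat_lit 36882) (nat_lit 641) (.p (nat_lit 252) (nat_lit 1) (.p (nat_lit 253) (nat_lit 2) (.p (nat_lit 254) (nat_lit 2) (.p (nat_lit 255) (nat_lit 2) (.n (nat_lit 256) (nat_lit 1) (.n (nat_lit 257) (nat_lit 1) (.n (nat_lit 258) (nat_lit 3) (.p (nat_lit 259) (nat_lit 1) (.n (nat_lit 260) (nat_lit 1) (.n (nat_lit 261) (nat_lit 3) (.n (nat_lit 262) (nat_lit 3) (.n (nat_lit 263) (nat_lit 1) (.n (nat_lit 264) (nat_lit 3) (.n (nat_lit 266) (nat_lit 1) (.n (nat_lit 267) (nat_lit 1) (.n (nat_lit 269) (nat_lit 3) (.n (nat_lit 270) (nat_lit 3) (.n (nat_lit 272) (nat_lit 3) (.n (nat_lit 274) (nat_lit 2) (.n (nat_lit 275) (nat_lit 1) (.n (nat_lit 280) (nat_lit 1) (.p (nat_lit 283) (nat_lit 2) (.n (nat_lit 285) (nat_lit 2) (.p (nat_lit 286) (nat_lit 1) .z)))))))))))))))))))))))) (.ct dC2a_c292 (nat_lit 1) (nat_lit 1) (.s false (nat_lit 1) (nat_lit 36) (nat_lit 1) (nat_lit 2) (nat_lit 2) true (nat_lit 7) true (nat_lit 11) false (nat_lit 1) true (nat_lit 12) true (nat_lit 11) dC2a_i14)) (.nd (.nd (.nd .leaf (nat_lit 36883) (nat_lit 639) (.n (nat_lit 252) (nat_lit 3) (.n (nat_lit 255) (nat_lit 1) (.n (nat_lit 257) (nat_lit 2) (.n (nat_lit 258) (nat_lit 3) (.p (nat_lit 259) (nat_lit 2) (.n (nat_lit 260) (nat_lit 2) (.n (nat_lit 261) (nat_lit 2) (.n (nat_lit 262) (nat_lit 1) (.n (nat_lit 264) (nat_lit 3) (.n (nat_lit 265) (nat_lit 2) (.n (nat_lit 266) (nat_lit 2) (.n (nat_lit 267) (nat_lit 1) (.p (nat_lit 271) (nat_lit 1) (.p (nat_lit 272) (nat_lit 3) (.p (nat_lit 273) (nat_lit 1) (.p (nat_lit 274) (nat_lit 3) (.n (nat_lit 275) (nat_lit 2) (.n (nat_lit 276) (nat_lit 1) (.n (nat_lit 277) (nat_lit 1) (.n (nat_lit 279) (nat_lit 1) (.p (nat_lit 280) (nat_lit 2) (.p (nat_lit 283) (nat_lit 1) (.n (nat_lit 285) (nat_lit 1) (.p (nat_lit 288) (nat_lit 1) .z)))))))))))))))))))))))) (.ct dC2a_c292 (nat_lit 1) (nat_lit 1) (.s true (nat_lit 1) (nat_lit 7) (nat_lit 1) (nat_lit 3) (nat_lit 7) true (nat_lit 1) true (nat_lit 6) true (nat_lit 6) true (nat_lit 12) true (nat_lit 10) (.e false (nat_lit 1) (nat_lit 34) (nat_lit 19) (nat_lit 1) (.e true (nat_lit 1) (nat_lit 35) (nat_lit 19) (nat_lit 1) (.e true (nat_lit 1) (nat_lit 38) (nat_lit 19) (nat_lit 1) (.e false (nat_lit 1) (nat_lit 60) (nat_lit 7) (nat_lit 6) (.e false (nat_lit 1) (nat_lit 61) (nat_lit 7) (nat_lit 6) (.e false (nat_lit 1) (nat_lit 62) (nat_lit 7) (nat_lit 6) (.e true (nat_lit 1) (nat_lit 63) (nat_lit 7) (nat_lit 6) (.e false (nat_lit 1) (nat_lit 65) (nat_lit 7) (nat_lit 6) (.e true (nat_lit 1) (nat_lit 66) (nat_lit 7) (nat_lit 6) (.e true (nat_lit 1) (nat_lit 73) (nat_lit 7) (nat_lit 6) (.e true (nat_lit 1) (nat_lit 72) (nat_lit 7) (nat_lit 6) (.e false (nat_lit 2) (nat_lit 177) (nat_lit 1) (nat_lit 12) (.u (nat_lit 2) (.n (nat_lit 7) (nat_lit 1) (.p (nat_lit 8) (nat_lit 1) (.p (nat_lit 12) (nat_lit 1) (.p (nat_lit 19) (nat_lit 1) (.n (nat_lit 20) (nat_lit 1) (.n (nat_lit 22) (nat_lit 1) (.n (nat_lit 24) (nat_lit 1) .z))))))) .nil))))))))))))))) .leaf) (nat_lit 36884) (nat_lit 783) (.n (nat_lit 305) (nat_lit 1) (.n (nat_lit 306) (nat_lit 1) (.n (nat_lit 307) (nat_lit 3) (.p (nat_lit 309) (nat_lit 1) (.p (nat_lit 311) (nat_lit 2) (.p (nat_lit 312) (nat_lit 2) (.n (nat_lit 313) (nat_lit 2) (.n (nat_lit 314) (nat_lit 1) (.p (nat_lit 315) (nat_lit 3) (.n (nat_lit 317) (nat_lit 2) (.p (nat_lit 322) (nat_lit 1) .z))))))))))) (.ct dC2a_c277 (nat_lit 1) (nat_lit 0) (.s false (nat_lit 1) (nat_lit 36) (nat_lit 2) (nat_lit 2) (nat_lit 2) true (nat_lit 4) true (nat_lit 8) false (nat_lit 0) true (nat_lit 8) true (nat_lit 8) (.e false (nat_lit 1) (nat_lit 83) (nat_lit 7) (nat_lit 4) (.e true (nat_lit 3) (nat_lit 172) (nat_lit 2) (nat_lit 8) (.e false (nat_lit 1) (nat_lit 169) (nat_lit 2) (nat_lit 8) (.e false (nat_lit 1) (nat_lit 171) (nat_lit 2) (nat_lit 8) (.e true (nat_lit 1) (nat_lit 173) (nat_lit 2) (nat_lit 8) (.e false (nat_lit 2) (nat_lit 174) (nat_lit 2) (nat_lit 8) (.e false (nat_lit 2) (nat_lit 175) (nat_lit 2) (nat_lit 8) (.e false (nat_lit 2) (nat_lit 176) (nat_lit 2) (nat_lit 8) (.e true (nat_lit 1) (nat_lit 177) (nat_lit 2) (nat_lit 8) (.e true (nat_lit 2) (nat_lit 178) (nat_lit 2) (nat_lit 8) (.e true (nat_lit 2) (nat_lit 179) (nat_lit 2) (nat_lit 8) (.e true (nat_lit 1) (nat_lit 182) (nat_lit 2) (nat_lit 8) (.u (nat_lit 2) (.p (nat_lit 2) (nat_lit 1) (.n (nat_lit 10) (nat_lit 1) .z)) .nil))))))))))))))) .leaf) (nat_lit 37889) (nat_lit 99) (.n (nat_lit 61) (nat_lit 1) (.p (nat_lit 62) (nat_lit 1) (.p (nat_lit 63) (nat_lit 1) (.n (nat_lit 64) (nat_lit 1) (.n (nat_lit 66) (nat_lit 1) (.n (nat_lit 67) (nat_lit 1) (.p (nat_lit 68) (nat_lit 1) (.p (nat_lit 71) (nat_lit 2) (.p (nat_lit 72) (nat_lit 2) .z))))))))) (.ct dC2a_c290 (nat_lit 1) (nat_lit 6) (.s false (nat_lit 1) (nat_lit 6) (nat_lit 1) (nat_lit 2) (nat_lit 0) true (nat_lit 4) true (nat_lit 7) true (nat_lit 1) true (nat_lit 6) true (nat_lit 5) (.e false (nat_lit 1) (nat_lit 18) (nat_lit 3) (nat_lit 4) (.e false (nat_lit 1) (nat_lit 40) (nat_lit 0) (nat_lit 7) (.e false (nat_lit 1) (nat_lit 13) (nat_lit 6) (nat_lit 1) (.e false (nat_lit 1) (nat_lit 33) (nat_lit 1) (nat_lit 6) (.e true (nat_lit 1) (nat_lit 34) (nat_lit 1) (nat_lit 6) (.e true (nat_lit 1) (nat_lit 38) (nat_lit 1) (nat_lit 6) (.e true (nat_lit 1) (nat_lit 28) (nat_lit 2) (nat_lit 5) .nil))))))))) (.nd .leaf (nat_lit 37890) (nat_lit 119) (.p (nat_lit 84) (nat_lit 1) .z) .df .leaf))) (nat_lit 37892) (nat_lit 217) (.n (nat_lit 106) (nat_lit 3) (.n (nat_lit 107) (nat_lit 1) (.n (nat_lit 108) (nat_lit 1) (.p (nat_lit 109) (nat_lit 1) (.n (nat_lit 110) (nat_lit 3) (.p (nat_lit 112) (nat_lit 2) (.p (nat_lit 113) (nat_lit 1) (.n (nat_lit 114) (nat_lit 2) (.n (nat_lit 115) (nat_lit 1) (.p (nat_lit 117) (nat_lit 3) (.n (nat_lit 118) (nat_lit 1) (.p (nat_lit 120) (nat_lit 2) (.n (nat_lit 121) (nat_lit 2) (.p (nat_lit 123) (nat_lit 2) (.p (nat_lit 125) (nat_lit 3) (.p (nat_lit 126) (nat_lit 2) (.p (nat_lit 127) (nat_lit 2) (.p (nat_lit 129) (nat_lit 1) (.p (nat_lit 130) (nat_lit 1) (.p (nat_lit 131) (nat_lit 1) .z)))))))))))))))))))) (.ct dC2a_c306 (nat_lit 1) (nat_lit 6) (.s true (nat_lit 1) (nat_lit 7) (nat_lit 0) (nat_lit 1) (nat_lit 4) true (nat_lit 2) true (nat_lit 6) true (nat_lit 3) true (nat_lit 10) true (nat_lit 9) (.e true (nat_lit 1) (nat_lit 19) (nat_lit 9) (nat_lit 2) (.e false (nat_lit 1) (nat_lit 22) (nat_lit 7) (nat_lit 3) (.e false (nat_lit 1) (nat_lit 23) (nat_lit 7) (nat_lit 3) (.e false (nat_lit 1) (nat_lit 79) (nat_lit 0) (nat_lit 10) (.e true (nat_lit 3) (nat_lit 71) (nat_lit 1) (nat_lit 9) (.e true (nat_lit 2) (nat_lit 61) (nat_lit 1) (nat_lit 9) (.e false (nat_lit 2) (nat_lit 63) (nat_lit 1) (nat_lit 9) (.e true (nat_lit 2) (nat_lit 64) (nat_lit 1) (nat_lit 9) (.e true (nat_lit 2) (nat_lit 66) (nat_lit 1) (nat_lit 9) (.e false (nat_lit 2) (nat_lit 72) (nat_lit 1) (nat_lit 9) (.e false (nat_lit 2) (nat_lit 73) (nat_lit 1) (nat_lit 9) (.u (nat_lit 2) (.p (nat_lit 0) (nat_lit 1) (.p (nat_lit 1) (nat_lit 1) (.p (nat_lit 2) (nat_lit 1) (.p (nat_lit 3) (nat_lit 1) (.p (nat_lit 6) (nat_lit 1) (.n (nat_lit 7) (nat_lit 1) (.n (nat_lit 8) (nat_lit 1) (.p (nat_lit 9) (nat_lit 1) (.p (nat_lit 10) (nat_lit 1) (.n (nat_lit 11) (nat_lit 1) (.p (nat_lit 12) (nat_lit 1) (.p (nat_lit 14) (nat_lit 1) (.n (nat_lit 16) (nat_lit 1) (.n (nat_lit 17) (nat_lit 1) (.n (nat_lit 24) (nat_lit 1) (.n (nat_lit 25) (nat_lit 1) (.p (nat_lit 81) (nat_lit 1) .z))))))))))))))))) .nil)))))))))))))) (.nd (.nd (.nd (.nd .leaf (nat_lit 37894) (nat_lit 276) (.p (nat_lit 132) (nat_lit 3) (.n (nat_lit 133) (nat_lit 2) (.p (nat_lit 135) (nat_lit 1) (.n (nat_lit 136) (nat_lit 3) (.p (nat_lit 137) (nat_lit 2) (.p (nat_lit 138) (nat_lit 1) (.n (nat_lit 139) (nat_lit 3) (.p (nat_lit 140) (nat_lit 3) (.n (nat_lit 141) (nat_lit 1) (.n (nat_lit 142) (nat_lit 1) (.n (nat_lit 143) (nat_lit 2) (.p (nat_lit 144) (nat_lit 3) (.p (nat_lit 147) (nat_lit 3) (.p (nat_lit 148) (nat_lit 2) (.n (nat_lit 149) (nat_lit 2) (.p (nat_lit 150) (nat_lit 2) (.p (nat_lit 151) (nat_lit 1) (.n (nat_lit 152) (nat_lit 3) (.p (nat_lit 153) (nat_lit 2) (.n (nat_lit 156) (nat_lit 1) (.n (nat_lit 157) (nat_lit 2) .z))))))))))))))))))))) (.ct dC2a_c291 (nat_lit 1) (nat_lit 4) (.s true (nat_lit 1) (nat_lit 17) (nat_lit 2) (nat_lit 1) (nat_lit 1) true (nat_lit 4) true (nat_lit 9) false (nat_lit 0) true (nat_lit 8) true (nat_lit 9) (.e true (nat_lit 2) (nat_lit 80) (nat_lit 1) (nat_lit 9) (.e false (nat_lit 2) (nat_lit 81) (nat_lit 1) (nat_lit 9) (.e true (nat_lit 1) (nat_lit 82) (nat_lit 1) (nat_lit 9) (.e false (nat_lit 1) (nat_lit 83) (nat_lit 1) (nat_lit 9) (.e false (nat_lit 2) (nat_lit 84) (nat_lit 1) (nat_lit 9) (.e false (nat_lit 2) (nat_lit 85) (nat_lit 1) (nat_lit 9) (.e true (nat_lit 1) (nat_lit 86) (nat_lit 1) (nat_lit 9) (.e false (nat_lit 1) (nat_lit 87) (nat_lit 1) (nat_lit 9) (.e false (nat_lit 1) (nat_lit 88) (nat_lit 1) (nat_lit 9) (.e true (nat_lit 1) (nat_lit 90) (nat_lit 1) (nat_lit 9) (.e false (nat_lit 1) (nat_lit 17) (nat_lit 15) (nat_lit 0) (.e false (nat_lit 2) (nat_lit 60) (nat_lit 2) (nat_lit 8) (.e false (nat_lit 2) (nat_lit 61) (nat_lit 2) (nat_lit 8) (.e true (nat_lit 1) (nat_lit 62) (nat_lit 2) (nat_lit 8) (.e true (nat_lit 2) (nat_lit 63) (nat_lit 2) (nat_lit 8) (.e false (nat_lit 2) (nat_lit 65) (nat_lit 2) (nat_lit 8) (.e false (nat_lit 1) (nat_lit 67) (nat_lit 2) (nat_lit 8) (.e true (nat_lit 1) (nat_lit 68) (nat_lit 2) (nat_lit 8) (.e true (nat_lit 1) (nat_lit 70) (nat_lit 2) (nat_lit 8) (.e false (nat_lit 2) (nat_lit 71) (nat_lit 2) (nat_lit 8) (.e false (nat_lit 1) (nat_lit 73) (nat_lit 2) (nat_lit 8) (.u (nat_lit 2) (.n (nat_lit 0) (nat_lit 2) (.n (nat_lit 3) (nat_lit 1) (.n (nat_lit 4) (nat_lit 2) (.p (nat_lit 6) (nat_lit 1) (.n (nat_lit 9) (nat_lit 1) (.p (nat_lit 11) (nat_lit 1) (.n (nat_lit 12) (nat_lit 1) (.n (nat_lit 15) (nat_lit 1) (.p (nat_lit 17) (nat_lit 2) (.n (nat_lit 18) (nat_lit 2) (.n (nat_lit 19) (nat_lit 2) (.n (nat_lit 20) (nat_lit 2) (.n (nat_lit 21) (nat_lit 2) (.p (nat_lit 23) (nat_lit 1) (.p (nat_lit 24) (nat_lit 2) (.p (nat_lit 25) (nat_lit 2) .z)))))))))))))))) .nil)))))))))))))))))))))))) .leaf) (nat_lit 37895) (nat_lit 354) (.p (nat_lit 169) (nat_lit 3) (.n (nat_lit 170) (nat_lit 3) (.n (nat_lit 173) (nat_lit 3) (.n (nat_lit 174) (nat_lit 3) (.n (nat_lit 177) (nat_lit 1) (.n (nat_lit 178) (nat_lit 1) (.n (nat_lit 179) (nat_lit 1) (.p (nat_lit 181) (nat_lit 1) (.n (nat_lit 182) (nat_lit 1) (.p (nat_lit 183) (nat_lit 1) .z)))))))))) (.ct dC2a_c276 (nat_lit 1) (nat_lit 2) (.s true (nat_lit 1) (nat_lit 17) (nat_lit 2) (nat_lit 1) (nat_lit 2) true (nat_lit 2) true (nat_lit 6) true (nat_lit 0) true (nat_lit 6) true (nat_lit 7) (.e false (nat_lit 3) (nat_lit 80) (nat_lit 2) (nat_lit 6) (.e true (nat_lit 3) (nat_lit 81) (nat_lit 2) (nat_lit 6) (.e false (nat_lit 3) (nat_lit 84) (nat_lit 2) (nat_lit 6) (.e true (nat_lit 3) (nat_lit 85) (nat_lit 2) (nat_lit 6) (.e false (nat_lit 1) (nat_lit 88) (nat_lit 2) (nat_lit 6) (.e true (nat_lit 1) (nat_lit 90) (nat_lit 2) (nat_lit 6) (.e true (nat_lit 1) (nat_lit 18) (nat_lit 17) (nat_lit 0) (.e true (nat_lit 1) (nat_lit 89) (nat_lit 2) (nat_lit 6) (.e false (nat_lit 1) (nat_lit 98) (nat_lit 1) (nat_lit 7) (.u (nat_lit 2) (.p (nat_lit 4) (nat_lit 1) (.n (nat_lit 36) (nat_lit 1) (.p (nat_lit 37) (nat_lit 1) (.p (nat_lit 41) (nat_lit 1) .z)))) .nil)))))))))))) .leaf) (nat_lit 37902) (nat_lit 532) (.n (nat_lit 205) (nat_lit 2) (.p (nat_lit 207) (nat_lit 1) (.p (nat_lit 208) (nat_lit 1) (.p (nat_lit 209) (nat_lit 2) (.p (nat_lit 210) (nat_lit 2) (.p (nat_lit 211) (nat_lit 1) (.n (nat_lit 212) (nat_lit 1) (.p (nat_lit 213) (nat_lit 3) (.n (nat_lit 214) (nat_lit 1) (.n (nat_lit 215) (nat_lit 2) (.n (nat_lit 216) (nat_lit 3) (.n (nat_lit 218) (nat_lit 1) (.n (nat_lit 219) (nat_lit 3) (.p (nat_lit 220) (nat_lit 2) (.p (nat_lit 221) (nat_lit 1) (.n (nat_lit 222) (nat_lit 2) (.p (nat_lit 224) (nat_lit 3) (.p (nat_lit 225) (nat_lit 1) (.n (nat_lit 226) (nat_lit 1) (.n (nat_lit 227) (nat_lit 2) (.p (nat_lit 228) (nat_lit 1) (.p (nat_lit 229) (nat_lit 3) (.p (nat_lit 230) (nat_lit 1) (.n (nat_lit 231) (nat_lit 2) (.n (nat_lit 232) (nat_lit 1) (.n (nat_lit 234) (nat_lit 1) (.p (nat_lit 240) (nat_lit 3) (.p (nat_lit 242) (nat_lit 3) (.p (nat_lit 243) (nat_lit 3) (.n (nat_lit 244) (nat_lit 3) (.n (nat_lit 245) (nat_lit 1) (.n (nat_lit 246) (nat_lit 3) (.n (nat_lit 247) (nat_lit 3) (.p (nat_lit 248) (nat_lit 2) (.p (nat_lit 249) (nat_lit 1) (.n (nat_lit 250) (nat_lit 1) (.n (nat_lit 251) (nat_lit 2) .z))))))))))))))))))))))))))))))))))))) (.ct dC2a_c307 (nat_lit 1) (nat_lit 3) dC2a_i16) (.nd (.nd .leaf (nat_lit 37903) (nat_lit 520) (.n (nat_lit 206) (nat_lit 2) (.p (nat_lit 207) (nat_lit 2) (.n (nat_lit 208) (nat_lit 1) (.p (nat_lit 209) (nat_lit 3) (.p (nat_lit 210) (nat_lit 1) (.p (nat_lit 211) (nat_lit 3) (.n (nat_lit 212) (nat_lit 2) (.n (nat_lit 213) (nat_lit 2) (.p (nat_lit 214) (nat_lit 1) (.p (nat_lit 215) (nat_lit 3) (.p (nat_lit 216) (nat_lit 1) (.n (nat_lit 217) (nat_lit 2) (.n (nat_lit 218) (nat_lit 2) (.p (nat_lit 219) (nat_lit 1) (.p (nat_lit 220) (nat_lit 1) (.n (nat_lit 221) (nat_lit 2) (.n (nat_lit 222) (nat_lit 3) (.p (nat_lit 224) (nat_lit 2) (.p (nat_lit 226) (nat_lit 1) (.p (nat_lit 227) (nat_lit 3) (.n (nat_lit 228) (nat_lit 3) (.n (nat_lit 229) (nat_lit 2) (.n (nat_lit 230) (nat_lit 3) (.p (nat_lit 231) (nat_lit 2) (.p (nat_lit 232) (nat_lit 1) (.p (nat_lit 234) (nat_lit 3) (.p (nat_lit 240) (nat_lit 2) (.n (nat_lit 242) (nat_lit 1) (.p (nat_lit 243) (nat_lit 3) (.p (nat_lit 244) (nat_lit 2) (.p (nat_lit 246) (nat_lit 1) (.p (nat_lit 251) (nat_lit 2) .z)))))))))))))))))))))))))))))))) (.ct dC2a_c307 (nat_lit 1) (nat_lit 3) (.s true (nat_lit 1) (nat_lit 15) (nat_lit 1) (nat_lit 2) (nat_lit 5) true (nat_lit 4) true (nat_lit 9) true (nat_lit 3) true (nat_lit 13) true (nat_lit 12) (.e true (nat_lit 1) (nat_lit 40) (nat_lit 12) (nat_lit 4) dC2a_i17))) .leaf) (nat_lit 37906) (nat_lit 658) (.n (nat_lit 253) (nat_lit 3) (.p (nat_lit 254) (nat_lit 3) (.p (nat_lit 255) (nat_lit 2) (.n (nat_lit 256) (nat_lit 1) (.n (nat_lit 257) (nat_lit 1) (.p (nat_lit 258) (nat_lit 3) (.p (nat_lit 259) (nat_lit 1) (.n (nat_lit 260) (nat_lit 1) (.n (nat_lit 261) (nat_lit 3) (.n (nat_lit 262) (nat_lit 3) (.p (nat_lit 263) (nat_lit 2) (.p (nat_lit 264) (nat_lit 3) (.n (nat_lit 265) (nat_lit 3) (.p (nat_lit 266) (nat_lit 2) (.n (nat_lit 267) (nat_lit 3) (.n (nat_lit 269) (nat_lit 3) (.p (nat_lit 270) (nat_lit 2) (.n (nat_lit 271) (nat_lit 2) (.n (nat_lit 272) (nat_lit 3) (.n (nat_lit 273) (nat_lit 3) (.n (nat_lit 274) (nat_lit 1) (.p (nat_lit 276) (nat_lit 2) (.n (nat_lit 277) (nat_lit 2) (.p (nat_lit 279) (nat_lit 1) (.n (nat_lit 280) (nat_lit 2) (.p (nat_lit 283) (nat_lit 1) (.p (nat_lit 284) (nat_lit 1) (.n (nat_lit 288) (nat_lit 1) .z)))))))))))))))))))))))))))) (.ct dC2a_c292 (nat_lit 1) (nat_lit 1) (.s false (nat_lit 1) (nat_lit 37) (nat_lit 2) (nat_lit 1) (nat_lit 2) true (nat_lit 6) true (nat_lit 11) false (nat_lit 1) true (nat_lit 11) true (nat_lit 12) (.e true (nat_lit 1) (nat_lit 61) (nat_lit 7) (nat_lit 6) (.e false (nat_lit 1) (nat_lit 62) (nat_lit 7) (nat_lit 6) (.e false (nat_lit 1) (nat_lit 63) (nat_lit 7) (nat_lit 6) (.e true (nat_lit 1) (nat_lit 64) (nat_lit 7) (nat_lit 6) (.e true (nat_lit 1) (nat_lit 66) (nat_lit 7) (nat_lit 6) (.e true (nat_lit 1) (nat_lit 67) (nat_lit 7) (nat_lit 6) (.e false (nat_lit 1) (nat_lit 68) (nat_lit 7) (nat_lit 6) (.e false (nat_lit 2) (nat_lit 71) (nat_lit 7) (nat_lit 6) (.e false (nat_lit 2) (nat_lit 72) (nat_lit 7) (nat_lit 6) dC2a_i18))))))))))) .leaf)) (nat_lit 37907) (nat_lit 636) (.n (nat_lit 253) (nat_lit 1) (.p (nat_lit 254) (nat_lit 1) (.n (nat_lit 255) (nat_lit 1) (.n (nat_lit 256) (nat_lit 3) (.p (nat_lit 257) (nat_lit 1) (.p (nat_lit 258) (nat_lit 2) (.n (nat_lit 259) (nat_lit 1) (.p (nat_lit 260) (nat_lit 1) (.p (nat_lit 261) (nat_lit 2) (.n (nat_lit 262) (nat_lit 1) (.n (nat_lit 263) (nat_lit 2) (.p (nat_lit 264) (nat_lit 3) (.p (nat_lit 265) (nat_lit 3) (.p (nat_lit 266) (nat_lit 2) (.p (nat_lit 267) (nat_lit 2) (.p (nat_lit 269) (nat_lit 3) (.n (nat_lit 270) (nat_lit 2) (.n (nat_lit 271) (nat_lit 2) (.n (nat_lit 272) (nat_lit 1) (.n (nat_lit 273) (nat_lit 3) (.n (nat_lit 274) (nat_lit 1) (.p (nat_lit 275) (nat_lit 2) (.p (nat_lit 276) (nat_lit 2) (.n (nat_lit 277) (nat_lit 3) (.n (nat_lit 279) (nat_lit 2) (.n (nat_lit 280) (nat_lit 3) (.p (nat_lit 283) (nat_lit 2) (.p (nat_lit 284) (nat_lit 1) (.p (nat_lit 286) (nat_lit 3) (.p (nat_lit 288) (nat_lit 2) .z)))))))))))))))))))))))))))))) (.ct dC2a_c292 (nat_lit 1) (nat_lit 1) (.s false (nat_lit 1) (nat_lit 37) (nat_lit 2) (nat_lit 2) (nat_lit 1) true (nat_lit 7) true (nat_lit 12) false (nat_lit 1) true (nat_lit 11) true (nat_lit 11) (.e false (nat_lit 1) (nat_lit 84) (nat_lit 6) (nat_lit 7) (.e false (nat_lit 1) (nat_lit 173) (nat_lit 1) (nat_lit 12) (.e true (nat_lit 3) (nat_lit 132) (nat_lit 2) (nat_lit 11) (.e false (nat_lit 3) (nat_lit 133) (nat_lit 2) (nat_lit 11) (.e true (nat_lit 2) (nat_lit 135) (nat_lit 2) (nat_lit 11) (.e true (nat_lit 3) (nat_lit 136) (nat_lit 2) (nat_lit 11) (.e true (nat_lit 2) (nat_lit 137) (nat_lit 2) (nat_lit 11) (.e true (nat_lit 3) (nat_lit 139) (nat_lit 2) (nat_lit 11) (.e false (nat_lit 3) (nat_lit 140) (nat_lit 2) (nat_lit 11) (.e false (nat_lit 1) (nat_lit 141) (nat_lit 2) (nat_lit 11) (.e false (nat_lit 1) (nat_lit 142) (nat_lit 2) (nat_lit 11) (.e false (nat_lit 2) (nat_lit 144) (nat_lit 2) (nat_lit 11) (.e true (nat_lit 3) (nat_lit 147) (nat_lit 2) (nat_lit 11) (.e true (nat_lit 2) (nat_lit 148) (nat_lit 2) (nat_lit 11) (.e false (nat_lit 2) (nat_lit 149) (nat_lit 2) (nat_lit 11) (.e true (nat_lit 2) (nat_lit 150) (nat_lit 2) (nat_lit 11) (.e true (nat_lit 1) (nat_lit 151) (nat_lit 2) (nat_lit 11) (.e false (nat_lit 3) (nat_lit 152) (nat_lit 2) (nat_lit 11) (.e true (nat_lit 2) (nat_lit 153) (nat_lit 2) (nat_lit 11) (.e false (nat_lit 1) (nat_lit 156) (nat_lit 2) (nat_lit 11) (.e false (nat_lit 2) (nat_lit 157) (nat_lit 2) (nat_lit 11) (.e true (nat_lit 1) (nat_lit 134) (nat_lit 2) (nat_lit 11) (.u (nat_lit 2) (.p (nat_lit 1) (nat_lit 1) (.n (nat_lit 2) (nat_lit 1) (.n (nat_lit 3) (nat_lit 1) (.n (nat_lit 13) (nat_lit 1) (.n (nat_lit 15) (nat_lit 1) (.p (nat_lit 19) (nat_lit 1) (.p (nat_lit 20) (nat_lit 1) (.p (nat_lit 21) (nat_lit 1) (.n (nat_lit 23) (nat_lit 1) (.n (nat_lit 24) (nat_lit 1) (.p (nat_lit 28) (nat_lit 1) (.n (nat_lit 34) (nat_lit 1) (.p (nat_lit 121) (nat_lit 1) (.p (nat_lit 124) (nat_lit 1) (.n (nat_lit 125) (nat_lit 1) (.n (nat_lit 129) (nat_lit 1) .z)))))))))))))))) .nil))))))))))))))))))))))))) (.nd (.nd (.nd .leaf (nat_lit 37908) (nat_lit 786) (.n (nat_lit 305) (nat_lit 2) (.n (nat_lit 307) (nat_lit 1) (.p (nat_lit 308) (nat_lit 1) (.p (nat_lit 309) (nat_lit 1) (.p (nat_lit 310) (nat_lit 2) (.p (nat_lit 311) (nat_lit 1) (.p (nat_lit 312) (nat_lit 1) (.p (nat_lit 313) (nat_lit 1) (.n (nat_lit 314) (nat_lit 2) (.n (nat_lit 315) (nat_lit 1) (.p (nat_lit 317) (nat_lit 3) (.n (nat_lit 318) (nat_lit 1) (.n (nat_lit 321) (nat_lit 1) (.p (nat_lit 323) (nat_lit 1) .z)))))))))))))) (.ct dC2a_c277 (nat_lit 1) (nat_lit 0) (.s false (nat_lit 1) (nat_lit 20) (nat_lit 7) (nat_lit 0) (nat_lit 1) true (nat_lit 1) true (nat_lit 9) true (nat_lit 0) true (nat_lit 4) true (nat_lit 10) (.e true (nat_lit 1) (nat_lit 44) (nat_lit 19) (nat_lit 1) (.e false (nat_lit 1) (nat_lit 81) (nat_lit 7) (nat_lit 4) (.e true (nat_lit 1) (nat_lit 82) (nat_lit 7) (nat_lit 4) (.e true (nat_lit 1) (nat_lit 83) (nat_lit 7) (nat_lit 4) (.e true (nat_lit 1) (nat_lit 85) (nat_lit 7) (nat_lit 4) (.e false (nat_lit 1) (nat_lit 88) (nat_lit 7) (nat_lit 4) (.e true (nat_lit 1) (nat_lit 204) (nat_lit 0) (nat_lit 10) (.u (nat_lit 2) (.p (nat_lit 0) (nat_lit 1) (.n (nat_lit 3) (nat_lit 1) (.n (nat_lit 4) (nat_lit 1) .z))) .nil)))))))))) .leaf) (nat_lit 38913) (nat_lit 87) (.p (nat_lit 69) (nat_lit 1) .z) .df .leaf) (nat_lit 38914) (nat_lit 120) (.p (nat_lit 85) (nat_lit 1) .z) .df (.nd .leaf (nat_lit 38916) (nat_lit 224) (.p (nat_lit 106) (nat_lit 3) (.n (nat_lit 109) (nat_lit 1) (.p (nat_lit 110) (nat_lit 3) (.n (nat_lit 112) (nat_lit 2) (.n (nat_lit 113) (nat_lit 1) (.p (nat_lit 114) (nat_lit 2) (.p (nat_lit 115) (nat_lit 1) (.p (nat_lit 116) (nat_lit 2) (.n (nat_lit 117) (nat_lit 2) (.n (nat_lit 118) (nat_lit 1) (.n (nat_lit 119) (nat_lit 3) (.p (nat_lit 121) (nat_lit 1) (.n (nat_lit 122) (nat_lit 1) (.n (nat_lit 123) (nat_lit 2) (.p (nat_lit 125) (nat_lit 2) (.p (nat_lit 127) (nat_lit 2) (.n (nat_lit 129) (nat_lit 1) (.n (nat_lit 130) (nat_lit 2) (.n (nat_lit 131) (nat_lit 2) .z))))))))))))))))))) (.ct dC2a_c306 (nat_lit 1) (nat_lit 6) (.s false (nat_lit 1) (nat_lit 4) (nat_lit 2) (nat_lit 2) (nat_lit 3) true (nat_lit 0) true (nat_lit 7) true (nat_lit 6) true (nat_lit 8) true (nat_lit 8) (.e false (nat_lit 1) (nat_lit 14) (nat_lit 11) (nat_lit 0) (.e false (nat_lit 1) (nat_lit 39) (nat_lit 3) (nat_lit 7) (.e false (nat_lit 1) (nat_lit 34) (nat_lit 4) (nat_lit 6) (.e true (nat_lit 1) (nat_lit 35) (nat_lit 4) (nat_lit 6) (.e true (nat_lit 1) (nat_lit 36) (nat_lit 4) (nat_lit 6) (.e false (nat_lit 1) (nat_lit 49) (nat_lit 2) (nat_lit 8) (.e true (nat_lit 2) (nat_lit 52) (nat_lit 2) (nat_lit 8) (.e false (nat_lit 1) (nat_lit 53) (nat_lit 2) (nat_lit 8) (.e false (nat_lit 2) (nat_lit 54) (nat_lit 2) (nat_lit 8) (.e true (nat_lit 1) (nat_lit 55) (nat_lit 2) (nat_lit 8) (.e false (nat_lit 1) (nat_lit 57) (nat_lit 2) (nat_lit 8) (.e false (nat_lit 1) (nat_lit 59) (nat_lit 2) (nat_lit 8) (.u (nat_lit 2) (.n (nat_lit 11) (nat_lit 1) (.p (nat_lit 16) (nat_lit 1) (.p (nat_lit 21) (nat_lit 1) .z))) .nil))))))))))))))) .leaf))))))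

noncomputable def dC2a_t4 : Tr := (.nd (.nd (.nd (.nd (.nd (.nd (.nd .leaf (nat_lit 38919) (nat_lit 351) (.p (nat_lit 169) (nat_lit 1) (.p (nat_lit 171) (nat_lit 1) (.n (nat_lit 172) (nat_lit 3) (.n (nat_lit 173) (nat_lit 1) (.p (nat_lit 174) (nat_lit 2) (.p (nat_lit 175) (nat_lit 2) (.p (nat_lit 176) (nat_lit 2) (.p (nat_lit 177) (nat_lit 1) (.n (nat_lit 178) (nat_lit 2) (.n (nat_lit 179) (nat_lit 2) (.n (nat_lit 183) (nat_lit 1) .z))))))))))) (.ct dC2a_c276 (nat_lit 1) (nat_lit 2) (.s false (nat_lit 1) (nat_lit 7) (nat_lit 2) (nat_lit 3) (nat_lit 2) true (nat_lit 2) true (nat_lit 6) true (nat_lit 2) true (nat_lit 6) true (nat_lit 5) (.e false (nat_lit 1) (nat_lit 34) (nat_lit 7) (nat_lit 2) (.e true (nat_lit 1) (nat_lit 35) (nat_lit 7) (nat_lit 2) (.e true (nat_lit 1) (nat_lit 36) (nat_lit 7) (nat_lit 2) (.e false (nat_lit 1) (nat_lit 81) (nat_lit 2) (nat_lit 6) (.e true (nat_lit 1) (nat_lit 82) (nat_lit 2) (nat_lit 6) (.e true (nat_lit 1) (nat_lit 83) (nat_lit 2) (nat_lit 6) (.e true (nat_lit 1) (nat_lit 85) (nat_lit 2) (nat_lit 6) (.e false (nat_lit 2) (nat_lit 88) (nat_lit 2) (nat_lit 6) (.e false (nat_lit 1) (nat_lit 33) (nat_lit 7) (nat_lit 2) (.e true (nat_lit 1) (nat_lit 48) (nat_lit 3) (nat_lit 5) .nil)))))))))))) .leaf) (nat_lit 38926) (nat_lit 518) (.n (nat_lit 206) (nat_lit 3) (.n (nat_lit 207) (nat_lit 2) (.n (nat_lit 208) (nat_lit 1) (.p (nat_lit 209) (nat_lit 1) (.p (nat_lit 210) (nat_lit 2) (.p (nat_lit 211) (nat_lit 1) (.p (nat_lit 212) (nat_lit 2) (.n (nat_lit 213) (nat_lit 2) (.p (nat_lit 214) (nat_lit 3) (.p (nat_lit 215) (nat_lit 3) (.n (nat_lit 217) (nat_lit 1) (.n (nat_lit 218) (nat_lit 3) (.n (nat_lit 219) (nat_lit 3) (.p (nat_lit 221) (nat_lit 3) (.n (nat_lit 222) (nat_lit 3) (.p (nat_lit 224) (nat_lit 2) (.n (nat_lit 225) (nat_lit 3) (.p (nat_lit 226) (nat_lit 3) (.p (nat_lit 227) (nat_lit 3) (.n (nat_lit 228) (nat_lit 2) (.n (nat_lit 229) (nat_lit 1) (.p (nat_lit 230) (nat_lit 2) (.n (nat_lit 231) (nat_lit 2) (.n (nat_lit 232) (nat_lit 1) (.p (nat_lit 234) (nat_lit 2) (.n (nat_lit 238) (nat_lit 2) (.p (nat_lit 240) (nat_lit 2) (.p (nat_lit 243) (nat_lit 1) (.n (nat_lit 244) (nat_lit 1) (.p (nat_lit 245) (nat_lit 1) (.n (nat_lit 246) (nat_lit 3) (.p (nat_lit 248) (nat_lit 1) (.p (nat_lit 249) (nat_lit 2) (.n (nat_lit 250) (nat_lit 2) (.p (nat_lit 251) (nat_lit 2) .z))))))))))))))))))))))))))))))))))) (.ct dC2a_c307 (nat_lit 1) (nat_lit 3) dC2a_i19) .leaf) (nat_lit 38927) (nat_lit 513) (.n (nat_lit 205) (nat_lit 1) (.n (nat_lit 206) (nat_lit 3) (.p (nat_lit 207) (nat_lit 3) (.n (nat_lit 208) (nat_lit 3) (.p (nat_lit 210) (nat_lit 2) (.n (nat_lit 211) (nat_lit 1) (.p (nat_lit 212) (nat_lit 1) (.n (nat_lit 214) (nat_lit 3) (.n (nat_lit 215) (nat_lit 3) (.p (nat_lit 216) (nat_lit 3) (.n (nat_lit 217) (nat_lit 2) (.p (nat_lit 218) (nat_lit 1) (.n (nat_lit 219) (nat_lit 1) (.n (nat_lit 220) (nat_lit 1) (.p (nat_lit 221) (nat_lit 2) (.n (nat_lit 224) (nat_lit 1) (.n (nat_lit 225) (nat_lit 2) (.p (nat_lit 228) (nat_lit 3) (.n (nat_lit 229) (nat_lit 2) (.p (nat_lit 231) (nat_lit 1) (.n (nat_lit 232) (nat_lit 2) (.n (nat_lit 234) (nat_lit 1) (.p (nat_lit 238) (nat_lit 1) (.n (nat_lit 240) (nat_lit 1) (.n (nat_lit 242) (nat_lit 1) (.p (nat_lit 243) (nat_lit 3) (.n (nat_lit 244) (nat_lit 3) (.n (nat_lit 245) (nat_lit 2) (.n (nat_lit 246) (nat_lit 3) (.p (nat_lit 247) (nat_lit 1) (.n (nat_lit 248) (nat_lit 3) (.p (nat_lit 249) (nat_lit 3) (.n (nat_lit 250) (nat_lit 2) (.p (nat_lit 251) (nat_lit 2) .z)))))))))))))))))))))))))))))))))) (.ct dC2a_c307 (nat_lit 1) (nat_lit 3) (.s false (nat_lit 1) (nat_lit 18) (nat_lit 6) (nat_lit 0) (nat_lit 1) true (nat_lit 3) true (nat_lit 13) true (nat_lit 1) true (nat_lit 8) true (nat_lit 14) (.e false (nat_lit 1) (nat_lit 134) (nat_lit 1) (nat_lit 13) (.e true (nat_lit 2) (nat_lit 137) (nat_lit 1) (nat_lit 13) (.e true (nat_lit 3) (nat_lit 141) (nat_lit 1) (nat_lit 13) dC2a_i20))))) (.nd (.nd .leaf (nat_lit 38930) (nat_lit 646) (.p (nat_lit 252) (nat_lit 1) (.p (nat_lit 253) (nat_lit 2) (.p (nat_lit 254) (nat_lit 2) (.n (nat_lit 255) (nat_lit 3) (.p (nat_lit 256) (nat_lit 3) (.n (nat_lit 258) (nat_lit 1) (.n (nat_lit 259) (nat_lit 3) (.p (nat_lit 260) (nat_lit 3) (.n (nat_lit 263) (nat_lit 1) (.p (nat_lit 264) (nat_lit 1) (.n (nat_lit 265) (nat_lit 2) (.p (nat_lit 266) (nat_lit 1) (.p (nat_lit 267) (nat_lit 3) (.n (nat_lit 269) (nat_lit 1) (.p (nat_lit 270) (nat_lit 2) (.p (nat_lit 272) (nat_lit 2) (.p (nat_lit 273) (nat_lit 2) (.p (nat_lit 274) (nat_lit 2) (.p (nat_lit 277) (nat_lit 3) (.n (nat_lit 278) (nat_lit 1) (.p (nat_lit 280) (nat_lit 1) (.p (nat_lit 283) (nat_lit 3) (.n (nat_lit 284) (nat_lit 1) (.n (nat_lit 285) (nat_lit 3) .z)))))))))))))))))))))))) (.ct dC2a_c292 (nat_lit 1) (nat_lit 1) (.s true (nat_lit 1) (nat_lit 18) (nat_lit 2) (nat_lit 2) (nat_lit 3) true (nat_lit 4) true (nat_lit 10) true (nat_lit 1) true (nat_lit 11) true (nat_lit 11) (.e true (nat_lit 1) (nat_lit 45) (nat_lit 11) (nat_lit 4) (.e true (nat_lit 1) (nat_lit 101) (nat_lit 3) (nat_lit 10) (.e false (nat_lit 1) (nat_lit 34) (nat_lit 18) (nat_lit 1) (.e true (nat_lit 1) (nat_lit 35) (nat_lit 18) (nat_lit 1) (.e true (nat_lit 1) (nat_lit 36) (nat_lit 18) (nat_lit 1) (.e true (nat_lit 2) (nat_lit 138) (nat_lit 2) (nat_lit 11) (.e false (nat_lit 1) (nat_lit 145) (nat_lit 2) (nat_lit 11) (.e false (nat_lit 1) (nat_lit 146) (nat_lit 2) (nat_lit 11) (.e true (nat_lit 1) (nat_lit 154) (nat_lit 2) (nat_lit 11) (.e true (nat_lit 1) (nat_lit 133) (nat_lit 2) (nat_lit 11) (.e false (nat_lit 1) (nat_lit 135) (nat_lit 2) (nat_lit 11) (.e true (nat_lit 1) (nat_lit 137) (nat_lit 2) (nat_lit 11) (.e false (nat_lit 1) (nat_lit 144) (nat_lit 2) (nat_lit 11) (.u (nat_lit 2) (.n (nat_lit 0) (nat_lit 1) (.n (nat_lit 1) (nat_lit 1) (.n (nat_lit 2) (nat_lit 1) (.p (nat_lit 6) (nat_lit 1) (.p (nat_lit 9) (nat_lit 1) (.p (nat_lit 11) (nat_lit 1) (.p (nat_lit 12) (nat_lit 1) (.n (nat_lit 13) (nat_lit 1) (.n (nat_lit 15) (nat_lit 1) (.p (nat_lit 17) (nat_lit 1) (.n (nat_lit 25) (nat_lit 1) (.n (nat_lit 31) (nat_lit 1) .z)))))))))))) .nil)))))))))))))))) .leaf) (nat_lit 38931) (nat_lit 638) (.p (nat_lit 254) (nat_lit 1) (.p (nat_lit 255) (nat_lit 3) (.n (nat_lit 256) (nat_lit 3) (.p (nat_lit 257) (nat_lit 1) (.p (nat_lit 258) (nat_lit 2) (.p (nat_lit 259) (nat_lit 2) (.n (nat_lit 260) (nat_lit 2) (.p (nat_lit 261) (nat_lit 2) (.n (nat_lit 262) (nat_lit 3) (.p (nat_lit 263) (nat_lit 1) (.p (nat_lit 265) (nat_lit 1) (.n (nat_lit 267) (nat_lit 1) (.p (nat_lit 269) (nat_lit 2) (.p (nat_lit 270) (nat_lit 1) (.n (nat_lit 271) (nat_lit 3) (.n (nat_lit 272) (nat_lit 3) (.n (nat_lit 273) (nat_lit 1) (.p (nat_lit 275) (nat_lit 1) (.p (nat_lit 276) (nat_lit 3) (.n (nat_lit 277) (nat_lit 1) (.p (nat_lit 278) (nat_lit 1) (.p (nat_lit 279) (nat_lit 1) (.n (nat_lit 280) (nat_lit 2) (.n (nat_lit 284) (nat_lit 1) (.n (nat_lit 285) (nat_lit 2) (.p (nat_lit 286) (nat_lit 2) (.p (nat_lit 287) (nat_lit 1) (.n (nat_lit 288) (nat_lit 1) .z)))))))))))))))))))))))))))) (.ct dC2a_c292 (nat_lit 1) (nat_lit 1) (.s false (nat_lit 1) (nat_lit 38) (nat_lit 2) (nat_lit 2) (nat_lit 1) true (nat_lit 7) true (nat_lit 12) false (nat_lit 1) true (nat_lit 11) true (nat_lit 11) dC2a_i21)) .leaf)) (nat_lit 38932) (nat_lit 780) (.p (nat_lit 305) (nat_lit 1) (.p (nat_lit 306) (nat_lit 2) (.p (nat_lit 307) (nat_lit 2) (.n (nat_lit 308) (nat_lit 1) (.n (nat_lit 309) (nat_lit 1) (.n (nat_lit 310) (nat_lit 1) (.n (nat_lit 311) (nat_lit 2) (.n (nat_lit 312) (nat_lit 2) (.n (nat_lit 313) (nat_lit 2) (.n (nat_lit 314) (nat_lit 3) (.p (nat_lit 315) (nat_lit 1) (.p (nat_lit 318) (nat_lit 2) (.n (nat_lit 323) (nat_lit 1) .z))))))))))))) (.ct dC2a_c277 (nat_lit 1) (nat_lit 0) (.s false (nat_lit 1) (nat_lit 38) (nat_lit 2) (nat_lit 2) (nat_lit 2) true (nat_lit 4) true (nat_lit 8) false (nat_lit 0) true (nat_lit 8) true (nat_lit 8) (.e false (nat_lit 1) (nat_lit 85) (nat_lit 7) (nat_lit 4) (.e true (nat_lit 2) (nat_lit 174) (nat_lit 2) (nat_lit 8) (.e true (nat_lit 1) (nat_lit 169) (nat_lit 2) (nat_lit 8) (.e true (nat_lit 1) (nat_lit 171) (nat_lit 2) (nat_lit 8) (.e false (nat_lit 3) (nat_lit 172) (nat_lit 2) (nat_lit 8) (.e false (nat_lit 1) (nat_lit 173) (nat_lit 2) (nat_lit 8) (.e true (nat_lit 2) (nat_lit 175) (nat_lit 2) (nat_lit 8) (.e true (nat_lit 2) (nat_lit 176) (nat_lit 2) (nat_lit 8) (.e true (nat_lit 1) (nat_lit 177) (nat_lit 2) (nat_lit 8) (.e false (nat_lit 2) (nat_lit 178) (nat_lit 2) (nat_lit 8) (.e false (nat_lit 2) (nat_lit 179) (nat_lit 2) (nat_lit 8) (.e false (nat_lit 1) (nat_lit 183) (nat_lit 2) (nat_lit 8) (.u (nat_lit 2) (.p (nat_lit 3) (nat_lit 1) (.p (nat_lit 9) (nat_lit 1) .z)) .nil))))))))))))))) (.nd (.nd (.nd .leaf (nat_lit 39936) (nat_lit 88) (.p (nat_lit 70) (nat_lit 1) .z) .df .leaf) (nat_lit 39937) (nat_lit 107) (.p (nat_lit 77) (nat_lit 1) .z) .df .leaf) (nat_lit 39938) (nat_lit 135) (.p (nat_lit 91) (nat_lit 1) .z) .df (.nd (.nd .leaf (nat_lit 39939) (nat_lit 197) (.p (nat_lit 106) (nat_lit 1) (.n (nat_lit 107) (nat_lit 1) (.n (nat_lit 108) (nat_lit 1) (.n (nat_lit 110) (nat_lit 1) (.p (nat_lit 112) (nat_lit 1) (.n (nat_lit 114) (nat_lit 1) (.p (nat_lit 116) (nat_lit 1) (.n (nat_lit 117) (nat_lit 1) (.p (nat_lit 118) (nat_lit 1) (.n (nat_lit 119) (nat_lit 1) (.n (nat_lit 120) (nat_lit 1) (.p (nat_lit 122) (nat_lit 1) (.p (nat_lit 123) (nat_lit 1) (.p (nat_lit 127) (nat_lit 1) (.p (nat_lit 128) (nat_lit 1) (.n (nat_lit 129) (nat_lit 1) (.n (nat_lit 130) (nat_lit 1) .z))))))))))))))))) (.ct dC2a_c306 (nat_lit 1) (nat_lit 7) (.s false (nat_lit 1) (nat_lit 4) (nat_lit 2) (nat_lit 3) (nat_lit 2) true (nat_lit 3) true (nat_lit 8) true (nat_lit 6) true (nat_lit 8) true (nat_lit 7) (.e true (nat_lit 1) (nat_lit 22) (nat_lit 7) (nat_lit 3) (.e true (nat_lit 1) (nat_lit 23) (nat_lit 7) (nat_lit 3) (.e false (nat_lit 2) (nat_lit 49) (nat_lit 2) (nat_lit 8) (.e false (nat_lit 2) (nat_lit 59) (nat_lit 2) (nat_lit 8) (.e false (nat_lit 1) (nat_lit 33) (nat_lit 4) (nat_lit 6) (.e true (nat_lit 1) (nat_lit 50) (nat_lit 2) (nat_lit 8) (.e true (nat_lit 1) (nat_lit 51) (nat_lit 2) (nat_lit 8) (.e true (nat_lit 2) (nat_lit 52) (nat_lit 2) (nat_lit 8) .nil)))))))))) .leaf) (nat_lit 39941) (nat_lit 285) (.n (nat_lit 132) (nat_lit 3) (.p (nat_lit 133) (nat_lit 3) (.p (nat_lit 134) (nat_lit 2) (.p (nat_lit 135) (nat_lit 2) (.n (nat_lit 136) (nat_lit 3) (.n (nat_lit 137) (nat_lit 1) (.n (nat_lit 138) (nat_lit 2) (.p (nat_lit 139) (nat_lit 1) (.n (nat_lit 140) (nat_lit 1) (.n (nat_lit 141) (nat_lit 1) (.p (nat_lit 142) (nat_lit 1) (.p (nat_lit 143) (nat_lit 3) (.n (nat_lit 144) (nat_lit 2) (.p (nat_lit 145) (nat_lit 1) (.p (nat_lit 149) (nat_lit 2) (.n (nat_lit 151) (nat_lit 2) (.n (nat_lit 152) (nat_lit 2) (.n (nat_lit 153) (nat_lit 2) (.n (nat_lit 154) (nat_lit 2) (.p (nat_lit 155) (nat_lit 1) (.p (nat_lit 157) (nat_lit 2) .z))))))))))))))))))))) (.ct dC2a_c291 (nat_lit 1) (nat_lit 5) (.s true (nat_lit 1) (nat_lit 14) (nat_lit 0) (nat_lit 2) (nat_lit 2) true (nat_lit 5) true (nat_lit 8) true (nat_lit 0) true (nat_lit 10) true (nat_lit 8) (.e true (nat_lit 1) (nat_lit 60) (nat_lit 2) (nat_lit 8) (.e true (nat_lit 1) (nat_lit 61) (nat_lit 2) (nat_lit 8) (.e true (nat_lit 1) (nat_lit 62) (nat_lit 2) (nat_lit 8) (.e false (nat_lit 2) (nat_lit 63) (nat_lit 2) (nat_lit 8) (.e false (nat_lit 1) (nat_lit 64) (nat_lit 2) (nat_lit 8) (.e true (nat_lit 1) (nat_lit 65) (nat_lit 2) (nat_lit 8) (.e false (nat_lit 1) (nat_lit 16) (nat_lit 14) (nat_lit 0) (.e false (nat_lit 1) (nat_lit 96) (nat_lit 0) (nat_lit 10) (.e true (nat_lit 1) (nat_lit 70) (nat_lit 2) (nat_lit 8) (.u (nat_lit 2) (.p (nat_lit 0) (nat_lit 1) (.n (nat_lit 1) (nat_lit 1) (.n (nat_lit 2) (nat_lit 1) (.p (nat_lit 4) (nat_lit 1) (.p (nat_lit 9) (nat_lit 1) (.n (nat_lit 17) (nat_lit 1) (.p (nat_lit 19) (nat_lit 1) (.p (nat_lit 20) (nat_lit 1) (.p (nat_lit 21) (nat_lit 1) (.n (nat_lit 25) (nat_lit 1) .z)))))))))) .nil)))))))))))) .leaf))) (nat_lit 39942) (nat_lit 311) (.n (nat_lit 158) (nat_lit 1) (.n (nat_lit 159) (nat_lit 1) (.n (nat_lit 160) (nat_lit 2) (.p (nat_lit 161) (nat_lit 2) (.p (nat_lit 162) (nat_lit 3) (.n (nat_lit 163) (nat_lit 2) (.n (nat_lit 164) (nat_lit 1) (.p (nat_lit 168) (nat_lit 1) .z)))))))) (.ct dC2a_c51 (nat_lit 1) (nat_lit 3) (.s false (nat_lit 1) (nat_lit 7) (nat_lit 1) (nat_lit 6) (nat_lit 1) true (nat_lit 4) true (nat_lit 6) true (nat_lit 2) true (nat_lit 6) true (nat_lit 3) (.e true (nat_lit 1) (nat_lit 46) (nat_lit 4) (nat_lit 4) (.e false (nat_lit 1) (nat_lit 47) (nat_lit 4) (nat_lit 4) (.e false (nat_lit 1) (nat_lit 92) (nat_lit 1) (nat_lit 6) (.e false (nat_lit 1) (nat_lit 93) (nat_lit 1) (nat_lit 6) (.e true (nat_lit 1) (nat_lit 32) (nat_lit 7) (nat_lit 2) (.e true (nat_lit 2) (nat_lit 94) (nat_lit 1) (nat_lit 6) (.e false (nat_lit 1) (nat_lit 40) (nat_lit 6) (nat_lit 3) (.e false (nat_lit 1) (nat_lit 41) (nat_lit 6) (nat_lit 3) .nil)))))))))) (.nd (.nd (.nd (.nd .leaf (nat_lit 39943) (nat_lit 364) (.p (nat_lit 194) (nat_lit 1) .z) .df .leaf) (nat_lit 39947) (nat_lit 485) (.n (nat_lit 205) (nat_lit 3) (.n (nat_lit 206) (nat_lit 2) (.n (nat_lit 207) (nat_lit 3) (.n (nat_lit 208) (nat_lit 2) (.n (nat_lit 209) (nat_lit 3) (.n (nat_lit 211) (nat_lit 3) (.n (nat_lit 213) (nat_lit 2) (.n (nat_lit 214) (nat_lit 2) (.n (nat_lit 215) (nat_lit 3) (.n (nat_lit 216) (nat_lit 1) (.p (nat_lit 217) (nat_lit 1) (.n (nat_lit 218) (nat_lit 1) (.n (nat_lit 219) (nat_lit 3) (.p (nat_lit 220) (nat_lit 2) (.p (nat_lit 221) (nat_lit 1) (.p (nat_lit 222) (nat_lit 1) (.n (nat_lit 225) (nat_lit 1) (.n (nat_lit 226) (nat_lit 1) (.p (nat_lit 227) (nat_lit 2) (.p (nat_lit 228) (nat_lit 2) (.p (nat_lit 229) (nat_lit 2) (.p (nat_lit 230) (nat_lit 1) (.p (nat_lit 231) (nat_lit 3) (.p (nat_lit 238) (nat_lit 2) (.p (nat_lit 242) (nat_lit 2) (.p (nat_lit 245) (nat_lit 1) (.n (nat_lit 246) (nat_lit 1) (.n (nat_lit 247) (nat_lit 1) (.n (nat_lit 251) (nat_lit 1) .z))))))))))))))))))))))))))))) (.ct dC2a_c307 (nat_lit 1) (nat_lit 4) (.s true (nat_lit 1) (nat_lit 11) (nat_lit 4) (nat_lit 2) (nat_lit 2) true (nat_lit 3) true (nat_lit 12) true (nat_lit 4) true (nat_lit 10) true (nat_lit 12) (.e false (nat_lit 1) (nat_lit 33) (nat_lit 14) (nat_lit 3) (.e false (nat_lit 1) (nat_lit 107) (nat_lit 2) (nat_lit 12) (.e false (nat_lit 1) (nat_lit 108) (nat_lit 2) (nat_lit 12) (.e true (nat_lit 2) (nat_lit 111) (nat_lit 2) (nat_lit 12) (.e false (nat_lit 1) (nat_lit 88) (nat_lit 4) (nat_lit 10) (.e false (nat_lit 1) (nat_lit 117) (nat_lit 2) (nat_lit 12) (.e true (nat_lit 1) (nat_lit 118) (nat_lit 2) (nat_lit 12) (.e false (nat_lit 1) (nat_lit 119) (nat_lit 2) (nat_lit 12) (.e false (nat_lit 1) (nat_lit 120) (nat_lit 2) (nat_lit 12) (.e true (nat_lit 1) (nat_lit 122) (nat_lit 2) (nat_lit 12) (.e true (nat_lit 1) (nat_lit 123) (nat_lit 2) (nat_lit 12) (.e true (nat_lit 1) (nat_lit 127) (nat_lit 2) (nat_lit 12) (.e true (nat_lit 1) (nat_lit 128) (nat_lit 2) (nat_lit 12) (.u (nat_lit 2) (.p (nat_lit 0) (nat_lit 1) (.p (nat_lit 1) (nat_lit 1) (.p (nat_lit 2) (nat_lit 1) (.p (nat_lit 3) (nat_lit 1) (.p (nat_lit 6) (nat_lit 1) (.p (nat_lit 14) (nat_lit 1) (.n (nat_lit 22) (nat_lit 1) (.n (nat_lit 33) (nat_lit 1) .z)))))))) .nil)))))))))))))))) .leaf) (nat_lit 39948) (nat_lit 505) (.n (nat_lit 206) (nat_lit 2) (.p (nat_lit 208) (nat_lit 3) (.p (nat_lit 209) (nat_lit 3) (.n (nat_lit 210) (nat_lit 3) (.n (nat_lit 211) (nat_lit 1) (.n (nat_lit 212) (nat_lit 2) (.n (nat_lit 213) (nat_lit 2) (.n (nat_lit 214) (nat_lit 2) (.p (nat_lit 215) (nat_lit 2) (.p (nat_lit 216) (nat_lit 2) (.n (nat_lit 217) (nat_lit 1) (.p (nat_lit 218) (nat_lit 1) (.p (nat_lit 219) (nat_lit 1) (.n (nat_lit 220) (nat_lit 2) (.p (nat_lit 221) (nat_lit 1) (.n (nat_lit 222) (nat_lit 1) (.p (nat_lit 226) (nat_lit 1) (.n (nat_lit 227) (nat_lit 1) (.p (nat_lit 228) (nat_lit 2) (.p (nat_lit 229) (nat_lit 3) (.n (nat_lit 230) (nat_lit 3) (.p (nat_lit 231) (nat_lit 3) (.n (nat_lit 232) (nat_lit 2) (.p (nat_lit 239) (nat_lit 2) (.p (nat_lit 242) (nat_lit 2) (.p (nat_lit 243) (nat_lit 1) (.p (nat_lit 245) (nat_lit 3) (.p (nat_lit 247) (nat_lit 3) (.n (nat_lit 248) (nat_lit 1) (.p (nat_lit 249) (nat_lit 3) (.n (nat_lit 250) (nat_lit 1) (.p (nat_lit 251) (nat_lit 1) .z)))))))))))))))))))))))))))))))) (.ct dC2a_c307 (nat_lit 1) (nat_lit 4) (.s false (nat_lit 1) (nat_lit 12) (nat_lit 2) (nat_lit 4) (nat_lit 2) true (nat_lit 7) true (nat_lit 12) true (nat_lit 4) true (nat_lit 12) true (nat_lit 10) (.e true (nat_lit 1) (nat_lit 49) (nat_lit 7) (nat_lit 7) (.e false (nat_lit 1) (nat_lit 50) (nat_lit 7) (nat_lit 7) (.e false (nat_lit 1) (nat_lit 52) (nat_lit 7) (nat_lit 7) (.e false (nat_lit 1) (nat_lit 54) (nat_lit 7) (nat_lit 7) (.e true (nat_lit 1) (nat_lit 55) (nat_lit 7) (nat_lit 7) dC2a_i22))))))) (.nd (.nd .leaf (nat_lit 39949) (nat_lit 545) (.n (nat_lit 206) (nat_lit 2) (.n (nat_lit 207) (nat_lit 1) (.p (nat_lit 208) (nat_lit 2) (.n (nat_lit 209) (nat_lit 1) (.p (nat_lit 210) (nat_lit 2) (.p (nat_lit 212) (nat_lit 1) (.n (nat_lit 213) (nat_lit 3) (.p (nat_lit 214) (nat_lit 2) (.p (nat_lit 215) (nat_lit 1) (.p (nat_lit 216) (nat_lit 2) (.n (nat_lit 217) (nat_lit 1) (.p (nat_lit 219) (nat_lit 3) (.n (nat_lit 220) (nat_lit 2) (.n (nat_lit 221) (nat_lit 1) (.n (nat_lit 222) (nat_lit 2) (.n (nat_lit 225) (nat_lit 3) (.p (nat_lit 226) (nat_lit 2) (.p (nat_lit 227) (nat_lit 3) (.n (nat_lit 228) (nat_lit 3) (.n (nat_lit 230) (nat_lit 1) (.p (nat_lit 231) (nat_lit 3) (.n (nat_lit 232) (nat_lit 2) (.p (nat_lit 238) (nat_lit 2) (.p (nat_lit 239) (nat_lit 2) (.n (nat_lit 242) (nat_lit 3) (.n (nat_lit 246) (nat_lit 2) (.n (nat_lit 247) (nat_lit 3) (.p (nat_lit 248) (nat_lit 1) (.n (nat_lit 250) (nat_lit 1) (.n (nat_lit 251) (nat_lit 1) .z)))))))))))))))))))))))))))))) (.ct dC2a_c307 (nat_lit 1) (nat_lit 4) (.s false (nat_lit 1) (nat_lit 39) (nat_lit 1) (nat_lit 2) (nat_lit 0) true (nat_lit 11) true (nat_lit 14) false (nat_lit 4) true (nat_lit 13) true (nat_lit 12) (.e false (nat_lit 1) (nat_lit 91) (nat_lit 3) (nat_lit 11) (.e false (nat_lit 1) (nat_lit 161) (nat_lit 0) (nat_lit 14) (.e true (nat_lit 3) (nat_lit 132) (nat_lit 1) (nat_lit 13) (.e false (nat_lit 3) (nat_lit 133) (nat_lit 1) (nat_lit 13) (.e false (nat_lit 2) (nat_lit 134) (nat_lit 1) (nat_lit 13) (.e false (nat_lit 2) (nat_lit 135) (nat_lit 1) (nat_lit 13) (.e true (nat_lit 3) (nat_lit 136) (nat_lit 1) (nat_lit 13) (.e true (nat_lit 1) (nat_lit 137) (nat_lit 1) (nat_lit 13) (.e true (nat_lit 2) (nat_lit 138) (nat_lit 1) (nat_lit 13) (.e false (nat_lit 1) (nat_lit 139) (nat_lit 1) (nat_lit 13) (.e true (nat_lit 1) (nat_lit 140) (nat_lit 1) (nat_lit 13) (.e true (nat_lit 1) (nat_lit 141) (nat_lit 1) (nat_lit 13) (.e false (nat_lit 1) (nat_lit 142) (nat_lit 1) (nat_lit 13) (.e false (nat_lit 3) (nat_lit 143) (nat_lit 1) (nat_lit 13) (.e true (nat_lit 2) (nat_lit 144) (nat_lit 1) (nat_lit 13) (.e false (nat_lit 1) (nat_lit 145) (nat_lit 1) (nat_lit 13) dC2a_i23)))))))))))))))))) .leaf) (nat_lit 39952) (nat_lit 672) (.p (nat_lit 253) (nat_lit 3) (.p (nat_lit 254) (nat_lit 3) (.n (nat_lit 257) (nat_lit 2) (.p (nat_lit 258) (nat_lit 3) (.n (nat_lit 259) (nat_lit 1) (.p (nat_lit 260) (nat_lit 1) (.p (nat_lit 261) (nat_lit 1) (.n (nat_lit 262) (nat_lit 3) (.n (nat_lit 263) (nat_lit 1) (.n (nat_lit 264) (nat_lit 2) (.p (nat_lit 266) (nat_lit 1) (.p (nat_lit 267) (nat_lit 1) (.p (nat_lit 269) (nat_lit 2) (.p (nat_lit 270) (nat_lit 2) (.p (nat_lit 271) (nat_lit 1) (.p (nat_lit 272) (nat_lit 1) (.p (nat_lit 273) (nat_lit 1) (.p (nat_lit 274) (nat_lit 2) (.p (nat_lit 275) (nat_lit 2) (.n (nat_lit 276) (nat_lit 1) (.n (nat_lit 277) (nat_lit 1) (.n (nat_lit 279) (nat_lit 2) (.p (nat_lit 282) (nat_lit 2) (.n (nat_lit 283) (nat_lit 1) (.p (nat_lit 285) (nat_lit 1) (.n (nat_lit 286) (nat_lit 1) (.p (nat_lit 288) (nat_lit 2) .z))))))))))))))))))))))))))) (.ct dC2a_c292 (nat_lit 1) (nat_lit 2) (.s false (nat_lit 1) (nat_lit 16) (nat_lit 2) (nat_lit 4) (nat_lit 2) true (nat_lit 6) true (nat_lit 11) true (nat_lit 2) true (nat_lit 11) true (nat_lit 9) (.e false (nat_lit 1) (nat_lit 61) (nat_lit 7) (nat_lit 6) (.e true (nat_lit 1) (nat_lit 62) (nat_lit 7) (nat_lit 6) (.e true (nat_lit 2) (nat_lit 63) (nat_lit 7) (nat_lit 6) (.e false (nat_lit 2) (nat_lit 64) (nat_lit 7) (nat_lit 6) (.e false (nat_lit 2) (nat_lit 66) (nat_lit 7) (nat_lit 6) (.e false (nat_lit 1) (nat_lit 67) (nat_lit 7) (nat_lit 6) (.e true (nat_lit 1) (nat_lit 68) (nat_lit 7) (nat_lit 6) (.e true (nat_lit 2) (nat_lit 71) (nat_lit 7) (nat_lit 6) (.e true (nat_lit 2) (nat_lit 72) (nat_lit 7) (nat_lit 6) dC2a_i24))))))))))) .leaf)) (nat_lit 39953) (nat_lit 686) (.p (nat_lit 252) (nat_lit 2) (.n (nat_lit 254) (nat_lit 3) (.p (nat_lit 255) (nat_lit 1) (.p (nat_lit 256) (nat_lit 2) (.n (nat_lit 257) (nat_lit 2) (.n (nat_lit 258) (nat_lit 1) (.p (nat_lit 259) (nat_lit 2) (.n (nat_lit 260) (nat_lit 2) (.n (nat_lit 261) (nat_lit 2) (.p (nat_lit 262) (nat_lit 1) (.n (nat_lit 263) (nat_lit 1) (.n (nat_lit 264) (nat_lit 3) (.p (nat_lit 265) (nat_lit 1) (.p (nat_lit 266) (nat_lit 3) (.p (nat_lit 267) (nat_lit 1) (.p (nat_lit 270) (nat_lit 2) (.n (nat_lit 271) (nat_lit 3) (.p (nat_lit 272) (nat_lit 3) (.n (nat_lit 273) (nat_lit 3) (.p (nat_lit 274) (nat_lit 3) (.n (nat_lit 275) (nat_lit 2) (.p (nat_lit 276) (nat_lit 3) (.n (nat_lit 277) (nat_lit 2) (.n (nat_lit 279) (nat_lit 2) (.n (nat_lit 282) (nat_lit 3) (.p (nat_lit 283) (nat_lit 1) (.p (nat_lit 284) (nat_lit 1) (.n (nat_lit 285) (nat_lit 1) (.n (nat_lit 286) (nat_lit 2) (.p (nat_lit 288) (nat_lit 2) .z)))))))))))))))))))))))))))))) (.ct dC2a_c292 (nat_lit 1) (nat_lit 2) (.s false (nat_lit 1) (nat_lit 39) (nat_lit 2) (nat_lit 2) (nat_lit 0) true (nat_lit 8) true (nat_lit 13) false (nat_lit 2) true (nat_lit 11) true (nat_lit 11) (.e false (nat_lit 1) (nat_lit 91) (nat_lit 5) (nat_lit 8) (.e false (nat_lit 1) (nat_lit 185) (nat_lit 0) (nat_lit 13) (.e true (nat_lit 3) (nat_lit 132) (nat_lit 2) (nat_lit 11) (.e false (nat_lit 3) (nat_lit 133) (nat_lit 2) (nat_lit 11) (.e false (nat_lit 2) (nat_lit 134) (nat_lit 2) (nat_lit 11) (.e false (nat_lit 2) (nat_lit 135) (nat_lit 2) (nat_lit 11) (.e true (nat_lit 3) (nat_lit 136) (nat_lit 2) (nat_lit 11) (.e true (nat_lit 1) (nat_lit 137) (nat_lit 2) (nat_lit 11) (.e true (nat_lit 2) (nat_lit 138) (nat_lit 2) (nat_lit 11) (.e false (nat_lit 1) (nat_lit 139) (nat_lit 2) (nat_lit 11) (.e true (nat_lit 1) (nat_lit 140) (nat_lit 2) (nat_lit 11) (.e true (nat_lit 1) (nat_lit 141) (nat_lit 2) (nat_lit 11) (.e false (nat_lit 3) (nat_lit 143) (nat_lit 2) (nat_lit 11) (.e true (nat_lit 2) (nat_lit 144) (nat_lit 2) (nat_lit 11) (.e false (nat_lit 1) (nat_lit 145) (nat_lit 2) (nat_lit 11) (.e false (nat_lit 2) (nat_lit 149) (nat_lit 2) (nat_lit 11) (.e true (nat_lit 2) (nat_lit 151) (nat_lit 2) (nat_lit 11) (.e true (nat_lit 2) (nat_lit 152) (nat_lit 2) (nat_lit 11) (.e true (nat_lit 2) (nat_lit 153) (nat_lit 2) (nat_lit 11) (.e true (nat_lit 2) (nat_lit 154) (nat_lit 2) (nat_lit 11) (.e false (nat_lit 1) (nat_lit 155) (nat_lit 2) (nat_lit 11) (.e false (nat_lit 2) (nat_lit 157) (nat_lit 2) (nat_lit 11) (.u (nat_lit 2) (.n (nat_lit 4) (nat_lit 1) (.p (nat_lit 5) (nat_lit 1) (.n (nat_lit 7) (nat_lit 1) (.p (nat_lit 8) (nat_lit 1) (.n (nat_lit 10) (nat_lit 1) (.p (nat_lit 11) (nat_lit 1) (.n (nat_lit 14) (nat_lit 1) (.n (nat_lit 18) (nat_lit 1) (.n (nat_lit 22) (nat_lit 1) (.p (nat_lit 23) (nat_lit 1) (.n (nat_lit 24) (nat_lit 1) (.p (nat_lit 30) (nat_lit 1) (.n (nat_lit 31) (nat_lit 1) (.p (nat_lit 33) (nat_lit 1) .z)))))))))))))) .nil))))))))))))))))))))))))) (.nd (.nd (.nd .leaf (nat_lit 39954) (nat_lit 737) (.p (nat_lit 289) (nat_lit 1) (.p (nat_lit 290) (nat_lit 2) (.p (nat_lit 291) (nat_lit 2) (.n (nat_lit 292) (nat_lit 2) (.p (nat_lit 293) (nat_lit 1) (.n (nat_lit 294) (nat_lit 3) (.p (nat_lit 295) (nat_lit 2) (.p (nat_lit 296) (nat_lit 2) (.n (nat_lit 299) (nat_lit 1) (.n (nat_lit 303) (nat_lit 2) (.p (nat_lit 304) (nat_lit 3) .z))))))))))) (.ct dC2a_c52 (nat_lit 1) (nat_lit 1) (.s false (nat_lit 1) (nat_lit 39) (nat_lit 2) (nat_lit 1) (nat_lit 2) true (nat_lit 4) true (nat_lit 7) false (nat_lit 1) true (nat_lit 7) true (nat_lit 8) (.e false (nat_lit 1) (nat_lit 77) (nat_lit 7) (nat_lit 4) (.e false (nat_lit 2) (nat_lit 158) (nat_lit 2) (nat_lit 7) (.e false (nat_lit 2) (nat_lit 159) (nat_lit 2) (nat_lit 7) (.e true (nat_lit 3) (nat_lit 160) (nat_lit 2) (nat_lit 7) (.e true (nat_lit 3) (nat_lit 161) (nat_lit 2) (nat_lit 7) (.e false (nat_lit 1) (nat_lit 162) (nat_lit 2) (nat_lit 7) (.e true (nat_lit 3) (nat_lit 163) (nat_lit 2) (nat_lit 7) (.e false (nat_lit 2) (nat_lit 165) (nat_lit 2) (nat_lit 7) (.e false (nat_lit 1) (nat_lit 167) (nat_lit 2) (nat_lit 7) (.e true (nat_lit 2) (nat_lit 168) (nat_lit 2) (nat_lit 7) (.e true (nat_lit 1) (nat_lit 185) (nat_lit 1) (nat_lit 8) (.u (nat_lit 2) (.n (nat_lit 0) (nat_lit 1) (.n (nat_lit 3) (nat_lit 1) (.p (nat_lit 4) (nat_lit 1) (.p (nat_lit 5) (nat_lit 1) (.n (nat_lit 6) (nat_lit 1) (.p (nat_lit 14) (nat_lit 1) (.n (nat_lit 15) (nat_lit 1) (.p (nat_lit 50) (nat_lit 1) (.n (nat_lit 52) (nat_lit 1) (.p (nat_lit 53) (nat_lit 1) .z)))))))))) .nil)))))))))))))) .leaf) (nat_lit 39955) (nat_lit 726) (.p (nat_lit 289) (nat_lit 1) (.n (nat_lit 290) (nat_lit 2) (.p (nat_lit 291) (nat_lit 2) (.p (nat_lit 292) (nat_lit 1) (.n (nat_lit 293) (nat_lit 1) (.n (nat_lit 294) (nat_lit 2) (.n (nat_lit 295) (nat_lit 1) (.n (nat_lit 297) (nat_lit 2) (.n (nat_lit 298) (nat_lit 1) (.n (nat_lit 300) (nat_lit 2) (.p (nat_lit 301) (nat_lit 2) (.p (nat_lit 303) (nat_lit 3) (.n (nat_lit 304) (nat_lit 2) .z))))))))))))) (.ct dC2a_c52 (nat_lit 1) (nat_lit 1) (.s false (nat_lit 1) (nat_lit 14) (nat_lit 1) (nat_lit 2) (nat_lit 7) true (nat_lit 1) true (nat_lit 4) true (nat_lit 2) true (nat_lit 8) true (nat_lit 7) (.e false (nat_lit 1) (nat_lit 75) (nat_lit 7) (nat_lit 4) (.e true (nat_lit 1) (nat_lit 46) (nat_lit 14) (nat_lit 2) (.e false (nat_lit 1) (nat_lit 47) (nat_lit 14) (nat_lit 2) (.e false (nat_lit 1) (nat_lit 190) (nat_lit 1) (nat_lit 8) (.e true (nat_lit 1) (nat_lit 194) (nat_lit 1) (nat_lit 8) (.e true (nat_lit 1) (nat_lit 166) (nat_lit 2) (nat_lit 7) (.u (nat_lit 2) (.n (nat_lit 6) (nat_lit 1) (.n (nat_lit 14) (nat_lit 1) (.p (nat_lit 15) (nat_lit 1) .z))) .nil))))))))) .leaf) (nat_lit 39956) (nat_lit 826) (.n (nat_lit 329) (nat_lit 1) (.p (nat_lit 334) (nat_lit 1) .z)) (.ct dC2a_c37 (nat_lit 1) (nat_lit 0) (.s false (nat_lit 1) (nat_lit 14) (nat_lit 2) (nat_lit 2) (nat_lit 7) true (nat_lit 0) true (nat_lit 3) true (nat_lit 2) true (nat_lit 6) true (nat_lit 6) (.e false (nat_lit 1) (nat_lit 91) (nat_lit 7) (nat_lit 3) (.e true (nat_lit 1) (nat_lit 194) (nat_lit 2) (nat_lit 6) .nil)))) (.nd .leaf (nat_lit 39969) (nat_lit 1047) (.p (nat_lit 335) (nat_lit 3) (.p (nat_lit 336) (nat_lit 1) (.p (nat_lit 337) (nat_lit 2) (.p (nat_lit 338) (nat_lit 3) (.n (nat_lit 339) (nat_lit 1) (.p (nat_lit 340) (nat_lit 1) (.p (nat_lit 341) (nat_lit 1) (.p (nat_lit 342) (nat_lit 3) (.p (nat_lit 343) (nat_lit 3) (.n (nat_lit 345) (nat_lit 1) (.n (nat_lit 346) (nat_lit 2) (.n (nat_lit 347) (nat_lit 1) (.p (nat_lit 349) (nat_lit 1) (.p (nat_lit 351) (nat_lit 3) (.n (nat_lit 352) (nat_lit 3) (.n (nat_lit 353) (nat_lit 3) (.n (nat_lit 355) (nat_lit 3) (.n (nat_lit 356) (nat_lit 3) (.p (nat_lit 357) (nat_lit 3) (.n (nat_lit 358) (nat_lit 2) (.p (nat_lit 359) (nat_lit 3) (.n (nat_lit 360) (nat_lit 2) (.n (nat_lit 361) (nat_lit 2) (.n (nat_lit 362) (nat_lit 3) (.p (nat_lit 363) (nat_lit 2) (.n (nat_lit 364) (nat_lit 1) (.n (nat_lit 367) (nat_lit 3) (.n (nat_lit 368) (nat_lit 3) (.n (nat_lit 369) (nat_lit 2) (.n (nat_lit 370) (nat_lit 3) (.n (nat_lit 371) (nat_lit 3) (.p (nat_lit 372) (nat_lit 3) (.p (nat_lit 373) (nat_lit 3) (.p (nat_lit 374) (nat_lit 1) (.p (nat_lit 375) (nat_lit 1) (.p (nat_lit 379) (nat_lit 1) (.n (nat_lit 380) (nat_lit 3) (.p (nat_lit 381) (nat_lit 1) (.n (nat_lit 382) (nat_lit 2) (.p (nat_lit 383) (nat_lit 1) .z)))))))))))))))))))))))))))))))))))))))) (.ct dC2a_c308 (nat_lit 1) (nat_lit 0) (.s false (nat_lit 1) (nat_lit 33) (nat_lit 7) (nat_lit 1) (nat_lit 1) true (nat_lit 5) true (nat_lit 17) true (nat_lit 0) true (nat_lit 11) true (nat_lit 17) (.e true (nat_lit 1) (nat_lit 66) (nat_lit 19) (nat_lit 5) dC2a_i25))) .leaf)))) (nat_lit 39970) (nat_lit 1005) (.n (nat_lit 336) (nat_lit 2) (.p (nat_lit 337) (nat_lit 3) (.p (nat_lit 338) (nat_lit 1) (.p (nat_lit 339) (nat_lit 2) (.p (nat_lit 340) (nat_lit 3) (.n (nat_lit 341) (nat_lit 2) (.p (nat_lit 342) (nat_lit 2) (.n (nat_lit 343) (nat_lit 1) (.p (nat_lit 344) (nat_lit 1) (.p (nat_lit 345) (nat_lit 2) (.p (nat_lit 346) (nat_lit 3) (.n (nat_lit 347) (nat_lit 1) (.p (nat_lit 349) (nat_lit 3) (.p (nat_lit 350) (nat_lit 2) (.n (nat_lit 351) (nat_lit 1) (.n (nat_lit 352) (nat_lit 2) (.p (nat_lit 354) (nat_lit 3) (.n (nat_lit 356) (nat_lit 3) (.p (nat_lit 357) (nat_lit 3) (.n (nat_lit 358) (nat_lit 1) (.n (nat_lit 360) (nat_lit 1) (.p (nat_lit 361) (nat_lit 2) (.p (nat_lit 363) (nat_lit 3) (.n (nat_lit 364) (nat_lit 2) (.p (nat_lit 366) (nat_lit 3) (.p (nat_lit 367) (nat_lit 1) (.n (nat_lit 369) (nat_lit 2) (.p (nat_lit 371) (nat_lit 3) (.p (nat_lit 372) (nat_lit 3) (.p (nat_lit 374) (nat_lit 1) (.p (nat_lit 376) (nat_lit 2) (.p (nat_lit 380) (nat_lit 1) (.p (nat_lit 381) (nat_lit 3) (.p (nat_lit 382) (nat_lit 1) (.p (nat_lit 383) (nat_lit 3) (.n (nat_lit 388) (nat_lit 2) .z)))))))))))))))))))))))))))))))))))) (.ct dC2a_c308 (nat_lit 1) (nat_lit 0) dC2a_i26) (.nd (.nd (.nd (.nd (.nd .leaf (nat_lit 39971) (nat_lit 1098) (.n (nat_lit 335) (nat_lit 1) (.p (nat_lit 336) (nat_lit 1) (.p (nat_lit 337) (nat_lit 2) (.p (nat_lit 338) (nat_lit 1) (.p (nat_lit 339) (nat_lit 2) (.p (nat_lit 340) (nat_lit 2) (.n (nat_lit 341) (nat_lit 2) (.n (nat_lit 342) (nat_lit 1) (.n (nat_lit 343) (nat_lit 2) (.p (nat_lit 345) (nat_lit 3) (.p (nat_lit 346) (nat_lit 1) (.p (nat_lit 347) (nat_lit 1) (.p (nat_lit 349) (nat_lit 1) (.p (nat_lit 350) (nat_lit 3) (.p (nat_lit 352) (nat_lit 2) (.p (nat_lit 353) (nat_lit 1) (.n (nat_lit 354) (nat_lit 3) (.p (nat_lit 355) (nat_lit 1) (.n (nat_lit 356) (nat_lit 2) (.p (nat_lit 357) (nat_lit 2) (.p (nat_lit 358) (nat_lit 3) (.p (nat_lit 359) (nat_lit 3) (.n (nat_lit 360) (nat_lit 3) (.p (nat_lit 361) (nat_lit 1) (.n (nat_lit 363) (nat_lit 2) (.n (nat_lit 366) (nat_lit 3) (.p (nat_lit 368) (nat_lit 3) (.p (nat_lit 369) (nat_lit 2) (.p (nat_lit 370) (nat_lit 2) (.n (nat_lit 373) (nat_lit 3) (.p (nat_lit 374) (nat_lit 3) (.p (nat_lit 375) (nat_lit 1) (.p (nat_lit 376) (nat_lit 2) (.p (nat_lit 379) (nat_lit 1) (.p (nat_lit 380) (nat_lit 3) (.n (nat_lit 381) (nat_lit 2) (.p (nat_lit 382) (nat_lit 2) (.n (nat_lit 383) (nat_lit 1) (.n (nat_lit 388) (nat_lit 2) .z))))))))))))))))))))))))))))))))))))))) (.ct dC2a_c308 (nat_lit 1) (nat_lit 0) (.s false (nat_lit 1) (nat_lit 35) (nat_lit 2) (nat_lit 4) (nat_lit 2) true (nat_lit 11) true (nat_lit 16) true (nat_lit 0) true (nat_lit 16) true (nat_lit 14) (.e true (nat_lit 3) (nat_lit 106) (nat_lit 7) (nat_lit 11) (.e false (nat_lit 3) (nat_lit 107) (nat_lit 7) (nat_lit 11) (.e true (nat_lit 2) (nat_lit 108) (nat_lit 7) (nat_lit 11) (.e false (nat_lit 2) (nat_lit 109) (nat_lit 7) (nat_lit 11) (.e false (nat_lit 2) (nat_lit 110) (nat_lit 7) (nat_lit 11) dC2a_i28))))))) .leaf) (nat_lit 39974) (nat_lit 1118) (.p (nat_lit 335) (nat_lit 2) (.p (nat_lit 336) (nat_lit 1) (.p (nat_lit 337) (nat_lit 2) (.n (nat_lit 338) (nat_lit 2) (.p (nat_lit 339) (nat_lit 3) (.p (nat_lit 340) (nat_lit 2) (.p (nat_lit 341) (nat_lit 2) (.n (nat_lit 343) (nat_lit 3) (.p (nat_lit 344) (nat_lit 1) (.n (nat_lit 345) (nat_lit 3) (.n (nat_lit 346) (nat_lit 2) (.n (nat_lit 347) (nat_lit 3) (.p (nat_lit 349) (nat_lit 2) (.n (nat_lit 351) (nat_lit 2) (.p (nat_lit 352) (nat_lit 2) (.p (nat_lit 354) (nat_lit 3) (.p (nat_lit 355) (nat_lit 2) (.n (nat_lit 356) (nat_lit 1) (.p (nat_lit 357) (nat_lit 1) (.p (nat_lit 359) (nat_lit 2) (.n (nat_lit 360) (nat_lit 2) (.p (nat_lit 361) (nat_lit 2) (.n (nat_lit 363) (nat_lit 3) (.n (nat_lit 364) (nat_lit 2) (.p (nat_lit 366) (nat_lit 3) (.p (nat_lit 367) (nat_lit 1) (.n (nat_lit 368) (nat_lit 1) (.p (nat_lit 369) (nat_lit 2) (.p (nat_lit 370) (nat_lit 1) (.p (nat_lit 371) (nat_lit 3) (.p (nat_lit 372) (nat_lit 1) (.p (nat_lit 373) (nat_lit 1) (.n (nat_lit 374) (nat_lit 2) (.p (nat_lit 375) (nat_lit 2) (.n (nat_lit 377) (nat_lit 2) (.n (nat_lit 380) (nat_lit 2) (.p (nat_lit 381) (nat_lit 1) (.n (nat_lit 382) (nat_lit 3) (.n (nat_lit 383) (nat_lit 2) (.n (nat_lit 389) (nat_lit 2) .z)))))))))))))))))))))))))))))))))))))))) (.ct dC2a_c308 (nat_lit 1) (nat_lit 0) (.s false (nat_lit 1) (nat_lit 19) (nat_lit 0) (nat_lit 1) (nat_lit 18) true (nat_lit 0) true (nat_lit 5) true (nat_lit 5) true (nat_lit 18) true (nat_lit 17) (.e false (nat_lit 1) (nat_lit 40) (nat_lit 38) (nat_lit 0) (.e false (nat_lit 1) (nat_lit 41) (nat_lit 38) (nat_lit 0) (.e true (nat_lit 2) (nat_lit 66) (nat_lit 18) (nat_lit 5) (.e false (nat_lit 1) (nat_lit 67) (nat_lit 18) (nat_lit 5) (.e true (nat_lit 1) (nat_lit 68) (nat_lit 18) (nat_lit 5) (.e false (nat_lit 1) (nat_lit 60) (nat_lit 18) (nat_lit 5) (.e false (nat_lit 1) (nat_lit 65) (nat_lit 18) (nat_lit 5) (.e false (nat_lit 1) (nat_lit 72) (nat_lit 18) (nat_lit 5) (.e false (nat_lit 1) (nat_lit 73) (nat_lit 18) (nat_lit 5) (.e true (nat_lit 1) (nat_lit 64) (nat_lit 18) (nat_lit 5) (.e false (nat_lit 2) (nat_lit 71) (nat_lit 18) (nat_lit 5) (.e false (nat_lit 1) (nat_lit 61) (nat_lit 19) (nat_lit 5) (.e true (nat_lit 1) (nat_lit 63) (nat_lit 19) (nat_lit 5) dC2a_i30))))))))))))))) .leaf) (nat_lit 40960) (nat_lit 89) (.p (nat_lit 71) (nat_lit 1) .z) .df (.nd (.nd .leaf (nat_lit 40961) (nat_lit 108) (.p (nat_lit 78) (nat_lit 1) .z) .df .leaf) (nat_lit 40962) (nat_lit 136) (.p (nat_lit 92) (nat_lit 1) .z) .df .leaf)) (nat_lit 40963) (nat_lit 199) (.p (nat_lit 107) (nat_lit 3) (.p (nat_lit 108) (nat_lit 3) (.n (nat_lit 109) (nat_lit 3) (.p (nat_lit 110) (nat_lit 3) (.n (nat_lit 112) (nat_lit 3) (.p (nat_lit 114) (nat_lit 3) (.n (nat_lit 117) (nat_lit 1) (.n (nat_lit 119) (nat_lit 3) (.p (nat_lit 123) (nat_lit 3) (.n (nat_lit 126) (nat_lit 3) (.p (nat_lit 127) (nat_lit 3) (.p (nat_lit 128) (nat_lit 1) .z)))))))))))) (.ct dC2a_c306 (nat_lit 1) (nat_lit 7) (.s true (nat_lit 3) (nat_lit 7) (nat_lit 3) (nat_lit 1) (nat_lit 1) true (nat_lit 2) true (nat_lit 9) true (nat_lit 3) true (nat_lit 7) true (nat_lit 9) (.e true (nat_lit 3) (nat_lit 19) (nat_lit 8) (nat_lit 2) (.e false (nat_lit 1) (nat_lit 62) (nat_lit 1) (nat_lit 9) (.e true (nat_lit 1) (nat_lit 66) (nat_lit 1) (nat_lit 9) (.e true (nat_lit 3) (nat_lit 72) (nat_lit 1) (nat_lit 9) (.e true (nat_lit 1) (nat_lit 73) (nat_lit 1) (nat_lit 9) (.e true (nat_lit 3) (nat_lit 21) (nat_lit 7) (nat_lit 3) (.e false (nat_lit 1) (nat_lit 41) (nat_lit 3) (nat_lit 7) (.u (nat_lit 2) (.n (nat_lit 0) (nat_lit 1) (.p (nat_lit 3) (nat_lit 1) (.n (nat_lit 10) (nat_lit 1) (.p (nat_lit 13) (nat_lit 1) (.n (nat_lit 17) (nat_lit 1) (.n (nat_lit 21) (nat_lit 1) (.p (nat_lit 57) (nat_lit 1) (.n (nat_lit 58) (nat_lit 1) (.n (nat_lit 72) (nat_lit 1) (.p (nat_lit 76) (nat_lit 1) (.p (nat_lit 83) (nat_lit 1) .z))))))))))) .nil)))))))))) (.nd (.nd (.nd .leaf (nat_lit 40965) (nat_lit 250) (.p (nat_lit 156) (nat_lit 1) .z) .df .leaf) (nat_lit 40966) (nat_lit 306) (.p (nat_lit 158) (nat_lit 1) (.p (nat_lit 159) (nat_lit 1) (.p (nat_lit 160) (nat_lit 2) (.n (nat_lit 161) (nat_lit 2) (.n (nat_lit 162) (nat_lit 2) (.p (nat_lit 163) (nat_lit 1) (.n (nat_lit 164) (nat_lit 1) (.p (nat_lit 165) (nat_lit 1) (.n (nat_lit 166) (nat_lit 1) (.p (nat_lit 168) (nat_lit 1) .z)))))))))) (.ct dC2a_c51 (nat_lit 1) (nat_lit 3) (.s true (nat_lit 3) (nat_lit 7) (nat_lit 1) (nat_lit 4) (nat_lit 2) true (nat_lit 3) true (nat_lit 5) true (nat_lit 2) true (nat_lit 6) true (nat_lit 4) (.e false (nat_lit 1) (nat_lit 41) (nat_lit 6) (nat_lit 3) (.e false (nat_lit 1) (nat_lit 74) (nat_lit 2) (nat_lit 5) (.e false (nat_lit 1) (nat_lit 75) (nat_lit 2) (nat_lit 5) (.e false (nat_lit 2) (nat_lit 76) (nat_lit 2) (nat_lit 5) (.e true (nat_lit 2) (nat_lit 77) (nat_lit 2) (nat_lit 5) (.e true (nat_lit 2) (nat_lit 78) (nat_lit 2) (nat_lit 5) (.e true (nat_lit 2) (nat_lit 79) (nat_lit 2) (nat_lit 5) (.e false (nat_lit 3) (nat_lit 30) (nat_lit 7) (nat_lit 2) (.e false (nat_lit 3) (nat_lit 96) (nat_lit 1) (nat_lit 6) (.e true (nat_lit 3) (nat_lit 47) (nat_lit 4) (nat_lit 4) (.u (nat_lit 2) (.p (nat_lit 6) (nat_lit 1) (.n (nat_lit 7) (nat_lit 1) (.p (nat_lit 8) (nat_lit 1) (.p (nat_lit 20) (nat_lit 1) (.n (nat_lit 21) (nat_lit 1) (.n (nat_lit 25) (nat_lit 1) (.n (nat_lit 26) (nat_lit 1) (.p (nat_lit 27) (nat_lit 1) (.n (nat_lit 28) (nat_lit 1) (.n (nat_lit 29) (nat_lit 1) (.n (nat_lit 30) (nat_lit 1) .z))))))))))) .nil))))))))))))) .leaf) (nat_lit 40967) (nat_lit 374) (.p (nat_lit 185) (nat_lit 2) (.p (nat_lit 186) (nat_lit 3) (.n (nat_lit 187) (nat_lit 2) (.p (nat_lit 188) (nat_lit 2) (.p (nat_lit 189) (nat_lit 1) (.n (nat_lit 190) (nat_lit 3) (.p (nat_lit 193) (nat_lit 1) (.p (nat_lit 194) (nat_lit 1) .z)))))))) (.ct dC2a_c36 (nat_lit 1) (nat_lit 2) (.s false (nat_lit 1) (nat_lit 7) (nat_lit 1) (nat_lit 1) (nat_lit 7) true (nat_lit 0) true (nat_lit 2) true (nat_lit 2) true (nat_lit 6) true (nat_lit 6) (.e true (nat_lit 1) (nat_lit 19) (nat_lit 19) (nat_lit 0) (.e true (nat_lit 1) (nat_lit 39) (nat_lit 7) (nat_lit 2) (.e false (nat_lit 3) (nat_lit 41) (nat_lit 7) (nat_lit 2) (.e false (nat_lit 2) (nat_lit 102) (nat_lit 1) (nat_lit 6) (.e true (nat_lit 2) (nat_lit 103) (nat_lit 1) (nat_lit 6) (.u (nat_lit 2) (.p (nat_lit 0) (nat_lit 1) (.p (nat_lit 1) (nat_lit 1) (.n (nat_lit 2) (nat_lit 1) (.p (nat_lit 3) (nat_lit 1) .z)))) .nil)))))))) (.nd (.nd .leaf (nat_lit 40971) (nat_lit 483) (.p (nat_lit 205) (nat_lit 1) (.p (nat_lit 206) (nat_lit 3) (.p (nat_lit 207) (nat_lit 3) (.p (nat_lit 208) (nat_lit 1) (.p (nat_lit 210) (nat_lit 1) (.n (nat_lit 211) (nat_lit 2) (.p (nat_lit 213) (nat_lit 2) (.n (nat_lit 216) (nat_lit 1) (.n (nat_lit 217) (nat_lit 3) (.n (nat_lit 218) (nat_lit 2) (.n (nat_lit 219) (nat_lit 2) (.p (nat_lit 221) (nat_lit 2) (.n (nat_lit 222) (nat_lit 2) (.p (nat_lit 226) (nat_lit 2) (.p (nat_lit 229) (nat_lit 1) (.p (nat_lit 230) (nat_lit 1) (.n (nat_lit 238) (nat_lit 1) (.n (nat_lit 245) (nat_lit 1) (.p (nat_lit 248) (nat_lit 2) (.p (nat_lit 251) (nat_lit 1) .z)))))))))))))))))))) (.ct dC2a_c307 (nat_lit 1) (nat_lit 4) (.s true (nat_lit 1) (nat_lit 11) (nat_lit 6) (nat_lit 1) (nat_lit 2) true (nat_lit 1) true (nat_lit 12) true (nat_lit 4) true (nat_lit 8) true (nat_lit 13) (.e false (nat_lit 1) (nat_lit 26) (nat_lit 18) (nat_lit 1) (.e true (nat_lit 1) (nat_lit 127) (nat_lit 2) (nat_lit 12) (.e false (nat_lit 1) (nat_lit 73) (nat_lit 6) (nat_lit 8) (.e false (nat_lit 1) (nat_lit 134) (nat_lit 1) (nat_lit 13) (.e true (nat_lit 2) (nat_lit 138) (nat_lit 1) (nat_lit 13) (.e false (nat_lit 1) (nat_lit 145) (nat_lit 1) (nat_lit 13) (.e false (nat_lit 1) (nat_lit 146) (nat_lit 1) (nat_lit 13) (.e true (nat_lit 1) (nat_lit 149) (nat_lit 1) (nat_lit 13) (.e true (nat_lit 1) (nat_lit 154) (nat_lit 1) (nat_lit 13) (.u (nat_lit 2) (.n (nat_lit 1) (nat_lit 1) (.n (nat_lit 2) (nat_lit 1) (.n (nat_lit 3) (nat_lit 1) (.p (nat_lit 6) (nat_lit 1) (.n (nat_lit 8) (nat_lit 1) (.p (nat_lit 11) (nat_lit 1) (.p (nat_lit 13) (nat_lit 1) (.p (nat_lit 14) (nat_lit 1) (.p (nat_lit 17) (nat_lit 1) (.n (nat_lit 21) (nat_lit 1) (.p (nat_lit 22) (nat_lit 1) (.p (nat_lit 23) (nat_lit 1) (.n (nat_lit 24) (nat_lit 1) (.n (nat_lit 25) (nat_lit 1) (.n (nat_lit 40) (nat_lit 1) (.n (nat_lit 41) (nat_lit 1) (.n (nat_lit 42) (nat_lit 1) (.p (nat_lit 43) (nat_lit 1) .z)))))))))))))))))) .nil)))))))))))) .leaf) (nat_lit 40972) (nat_lit 509) (.p (nat_lit 205) (nat_lit 1) (.n (nat_lit 206) (nat_lit 2) (.p (nat_lit 207) (nat_lit 1) (.p (nat_lit 209) (nat_lit 1) (.p (nat_lit 210) (nat_lit 1) (.n (nat_lit 211) (nat_lit 1) (.n (nat_lit 212) (nat_lit 1) (.p (nat_lit 213) (nat_lit 3) (.p (nat_lit 215) (nat_lit 2) (.p (nat_lit 216) (nat_lit 3) (.n (nat_lit 217) (nat_lit 2) (.p (nat_lit 218) (nat_lit 2) (.n (nat_lit 219) (nat_lit 2) (.p (nat_lit 220) (nat_lit 2) (.n (nat_lit 222) (nat_lit 3) (.n (nat_lit 225) (nat_lit 3) (.p (nat_lit 226) (nat_lit 3) (.p (nat_lit 227) (nat_lit 3) (.p (nat_lit 228) (nat_lit 3) (.n (nat_lit 231) (nat_lit 2) (.n (nat_lit 232) (nat_lit 1) (.p (nat_lit 234) (nat_lit 2) (.n (nat_lit 239) (nat_lit 1) (.p (nat_lit 242) (nat_lit 1) (.n (nat_lit 243) (nat_lit 3) (.n (nat_lit 244) (nat_lit 1) (.p (nat_lit 245) (nat_lit 1) (.p (nat_lit 246) (nat_lit 3) (.n (nat_lit 249) (nat_lit 3) (.p (nat_lit 251) (nat_lit 2) .z)))))))))))))))))))))))))))))) (.ct dC2a_c307 (nat_lit 1) (nat_lit 4) (.s true (nat_lit 3) (nat_lit 12) (nat_lit 1) (nat_lit 1) (nat_lit 7) true (nat_lit 1) true (nat_lit 7) true (nat_lit 4) true (nat_lit 13) true (nat_lit 13) (.e false (nat_lit 3) (nat_lit 27) (nat_lit 19) (nat_lit 1) (.e true (nat_lit 3) (nat_lit 55) (nat_lit 7) (nat_lit 7) (.e false (nat_lit 1) (nat_lit 41) (nat_lit 12) (nat_lit 4) (.e true (nat_lit 1) (nat_lit 133) (nat_lit 1) (nat_lit 13) (.e false (nat_lit 2) (nat_lit 135) (nat_lit 1) (nat_lit 13) (.e true (nat_lit 1) (nat_lit 138) (nat_lit 1) (nat_lit 13) (.e true (nat_lit 1) (nat_lit 139) (nat_lit 1) (nat_lit 13) (.e false (nat_lit 1) (nat_lit 140) (nat_lit 1) (nat_lit 13) (.e false (nat_lit 1) (nat_lit 144) (nat_lit 1) (nat_lit 13) (.e true (nat_lit 1) (nat_lit 150) (nat_lit 1) (nat_lit 13) (.e false (nat_lit 3) (nat_lit 155) (nat_lit 1) (nat_lit 13) (.u (nat_lit 2) (.p (nat_lit 0) (nat_lit 2) (.n (nat_lit 2) (nat_lit 1) (.p (nat_lit 3) (nat_lit 2) (.p (nat_lit 4) (nat_lit 1) (.p (nat_lit 5) (nat_lit 1) (.p (nat_lit 6) (nat_lit 1) (.n (nat_lit 7) (nat_lit 2) (.p (nat_lit 9) (nat_lit 1) (.n (nat_lit 10) (nat_lit 1) (.n (nat_lit 11) (nat_lit 2) (.p (nat_lit 12) (nat_lit 1) (.p (nat_lit 13) (nat_lit 1) (.p (nat_lit 14) (nat_lit 1) (.n (nat_lit 15) (nat_lit 1) (.p (nat_lit 17) (nat_lit 2) (.p (nat_lit 20) (nat_lit 1) (.n (nat_lit 21) (nat_lit 2) (.n (nat_lit 22) (nat_lit 1) (.n (nat_lit 23) (nat_lit 1) (.n (nat_lit 24) (nat_lit 1) (.n (nat_lit 25) (nat_lit 1) (.p (nat_lit 38) (nat_lit 1) (.p (nat_lit 39) (nat_lit 1) (.n (nat_lit 40) (nat_lit 1) (.n (nat_lit 41) (nat_lit 1) (.p (nat_lit 44) (nat_lit 1) (.p (nat_lit 45) (nat_lit 1) (.n (nat_lit 46) (nat_lit 1) (.p (nat_lit 84) (nat_lit 1) (.n (nat_lit 85) (nat_lit 1) (.p (nat_lit 173) (nat_lit 1) (.p (nat_lit 175) (nat_lit 1) (.p (nat_lit 178) (nat_lit 1) (.p (nat_lit 179) (nat_lit 1) (.n (nat_lit 180) (nat_lit 1) (.n (nat_lit 184) (nat_lit 1) (.p (nat_lit 190) (nat_lit 1) .z))))))))))))))))))))))))))))))))))))) .nil)))))))))))))) .leaf))) (nat_lit 40973) (nat_lit 529) (.p (nat_lit 208) (nat_lit 1) (.n (nat_lit 209) (nat_lit 1) (.p (nat_lit 210) (nat_lit 3) (.p (nat_lit 212) (nat_lit 1) (.p (nat_lit 213) (nat_lit 1) (.n (nat_lit 214) (nat_lit 3) (.p (nat_lit 215) (nat_lit 3) (.n (nat_lit 216) (nat_lit 2) (.n (nat_lit 217) (nat_lit 2) (.n (nat_lit 219) (nat_lit 2) (.p (nat_lit 221) (nat_lit 2) (.p (nat_lit 225) (nat_lit 3) (.n (nat_lit 227) (nat_lit 3) (.n (nat_lit 228) (nat_lit 1) (.p (nat_lit 229) (nat_lit 2) (.p (nat_lit 230) (nat_lit 1) (.n (nat_lit 231) (nat_lit 3) (.p (nat_lit 232) (nat_lit 1) (.n (nat_lit 234) (nat_lit 2) (.n (nat_lit 238) (nat_lit 1) (.n (nat_lit 239) (nat_lit 1) (.n (nat_lit 242) (nat_lit 2) (.p (nat_lit 243) (nat_lit 3) (.p (nat_lit 244) (nat_lit 1) (.p (nat_lit 245) (nat_lit 3) (.p (nat_lit 246) (nat_lit 3) (.n (nat_lit 247) (nat_lit 1) (.p (nat_lit 248) (nat_lit 3) (.n (nat_lit 249) (nat_lit 3) (.p (nat_lit 250) (nat_lit 1) .z)))))))))))))))))))))))))))))) (.ct dC2a_c307 (nat_lit 1) (nat_lit 4) (.s false (nat_lit 1) (nat_lit 40) (nat_lit 2) (nat_lit 1) (nat_lit 0) true (nat_lit 9) true (nat_lit 14) false (nat_lit 4) true (nat_lit 12) true (nat_lit 13) (.e false (nat_lit 1) (nat_lit 78) (nat_lit 5) (nat_lit 9) (.e false (nat_lit 1) (nat_lit 164) (nat_lit 0) (nat_lit 14) (.e false (nat_lit 3) (nat_lit 107) (nat_lit 2) (nat_lit 12) (.e false (nat_lit 3) (nat_lit 108) (nat_lit 2) (nat_lit 12) (.e true (nat_lit 3) (nat_lit 109) (nat_lit 2) (nat_lit 12) (.e false (nat_lit 3) (nat_lit 110) (nat_lit 2) (nat_lit 12) (.e true (nat_lit 3) (nat_lit 112) (nat_lit 2) (nat_lit 12) (.e false (nat_lit 3) (nat_lit 114) (nat_lit 2) (nat_lit 12) (.e true (nat_lit 1) (nat_lit 117) (nat_lit 2) (nat_lit 12) (.e true (nat_lit 3) (nat_lit 119) (nat_lit 2) (nat_lit 12) (.e false (nat_lit 3) (nat_lit 123) (nat_lit 2) (nat_lit 12) (.e true (nat_lit 3) (nat_lit 126) (nat_lit 2) (nat_lit 12) (.e false (nat_lit 3) (nat_lit 127) (nat_lit 2) (nat_lit 12) (.e false (nat_lit 1) (nat_lit 128) (nat_lit 2) (nat_lit 12) (.e true (nat_lit 1) (nat_lit 143) (nat_lit 1) (nat_lit 13) (.u (nat_lit 2) (.n (nat_lit 6) (nat_lit 1) (.n (nat_lit 7) (nat_lit 1) (.p (nat_lit 11) (nat_lit 1) (.n (nat_lit 13) (nat_lit 1) (.n (nat_lit 20) (nat_lit 1) (.p (nat_lit 21) (nat_lit 1) (.n (nat_lit 24) (nat_lit 1) (.p (nat_lit 29) (nat_lit 1) (.n (nat_lit 38) (nat_lit 1) (.n (nat_lit 40) (nat_lit 1) (.p (nat_lit 42) (nat_lit 1) (.n (nat_lit 43) (nat_lit 1) (.p (nat_lit 44) (nat_lit 1) .z))))))))))))) .nil)))))))))))))))))) (.nd (.nd (.nd (.nd .leaf (nat_lit 40976) (nat_lit 665) (.n (nat_lit 252) (nat_lit 3) (.p (nat_lit 254) (nat_lit 3) (.p (nat_lit 255) (nat_lit 2) (.n (nat_lit 256) (nat_lit 1) (.n (nat_lit 257) (nat_lit 3) (.n (nat_lit 258) (nat_lit 2) (.n (nat_lit 259) (nat_lit 3) (.p (nat_lit 260) (nat_lit 3) (.n (nat_lit 261) (nat_lit 3) (.p (nat_lit 262) (nat_lit 1) (.n (nat_lit 263) (nat_lit 1) (.n (nat_lit 264) (nat_lit 1) (.p (nat_lit 266) (nat_lit 3) (.p (nat_lit 267) (nat_lit 1) (.p (nat_lit 269) (nat_lit 1) (.p (nat_lit 270) (nat_lit 3) (.p (nat_lit 271) (nat_lit 1) (.n (nat_lit 272) (nat_lit 2) (.p (nat_lit 273) (nat_lit 1) (.p (nat_lit 274) (nat_lit 1) (.n (nat_lit 276) (nat_lit 1) (.n (nat_lit 277) (nat_lit 1) (.n (nat_lit 282) (nat_lit 1) (.p (nat_lit 283) (nat_lit 1) (.n (nat_lit 285) (nat_lit 1) (.p (nat_lit 286) (nat_lit 1) .z)))))))))))))))))))))))))) (.ct dC2a_c292 (nat_lit 1) (nat_lit 2) dC2a_i31) .leaf) (nat_lit 40977) (nat_lit 667) (.n (nat_lit 252) (nat_lit 2) (.n (nat_lit 253) (nat_lit 3) (.p (nat_lit 254) (nat_lit 3) (.n (nat_lit 255) (nat_lit 3) (.n (nat_lit 256) (nat_lit 3) (.p (nat_lit 257) (nat_lit 3) (.n (nat_lit 258) (nat_lit 2) (.n (nat_lit 259) (nat_lit 2) (.p (nat_lit 260) (nat_lit 2) (.n (nat_lit 262) (nat_lit 1) (.n (nat_lit 263) (nat_lit 3) (.n (nat_lit 264) (nat_lit 2) (.p (nat_lit 265) (nat_lit 3) (.n (nat_lit 266) (nat_lit 3) (.p (nat_lit 267) (nat_lit 3) (.p (nat_lit 269) (nat_lit 3) (.n (nat_lit 270) (nat_lit 1) (.p (nat_lit 271) (nat_lit 3) (.p (nat_lit 272) (nat_lit 2) (.p (nat_lit 273) (nat_lit 3) (.n (nat_lit 275) (nat_lit 2) (.n (nat_lit 276) (nat_lit 3) (.n (nat_lit 277) (nat_lit 2) (.p (nat_lit 279) (nat_lit 1) (.n (nat_lit 282) (nat_lit 2) (.n (nat_lit 283) (nat_lit 3) (.p (nat_lit 284) (nat_lit 1) (.n (nat_lit 285) (nat_lit 3) (.n (nat_lit 288) (nat_lit 1) .z))))))))))))))))))))))))))))) (.ct dC2a_c292 (nat_lit 1) (nat_lit 2) (.s false (nat_lit 1) (nat_lit 40) (nat_lit 2) (nat_lit 2) (nat_lit 0) true (nat_lit 8) true (nat_lit 13) false (nat_lit 2) true (nat_lit 11) true (nat_lit 11) (.e false (nat_lit 1) (nat_lit 92) (nat_lit 5) (nat_lit 8) (.e false (nat_lit 1) (nat_lit 186) (nat_lit 0) (nat_lit 13) (.e false (nat_lit 1) (nat_lit 156) (nat_lit 2) (nat_lit 11) (.e true (nat_lit 1) (nat_lit 143) (nat_lit 2) (nat_lit 11) (.u (nat_lit 2) (.n (nat_lit 2) (nat_lit 1) (.p (nat_lit 4) (nat_lit 1) (.p (nat_lit 6) (nat_lit 1) (.p (nat_lit 12) (nat_lit 1) (.n (nat_lit 13) (nat_lit 1) (.p (nat_lit 14) (nat_lit 1) (.p (nat_lit 24) (nat_lit 1) (.p (nat_lit 33) (nat_lit 1) .z)))))))) .nil))))))) .leaf) (nat_lit 40978) (nat_lit 736) (.n (nat_lit 289) (nat_lit 2) (.n (nat_lit 290) (nat_lit 1) (.p (nat_lit 291) (nat_lit 3) (.n (nat_lit 292) (nat_lit 3) (.p (nat_lit 293) (nat_lit 2) (.p (nat_lit 295) (nat_lit 1) (.p (nat_lit 297) (nat_lit 2) (.p (nat_lit 298) (nat_lit 1) (.n (nat_lit 299) (nat_lit 1) (.n (nat_lit 300) (nat_lit 1) (.p (nat_lit 301) (nat_lit 2) (.n (nat_lit 303) (nat_lit 2) (.p (nat_lit 304) (nat_lit 3) .z))))))))))))) (.ct dC2a_c52 (nat_lit 1) (nat_lit 1) (.s false (nat_lit 1) (nat_lit 40) (nat_lit 2) (nat_lit 1) (nat_lit 2) true (nat_lit 4) true (nat_lit 7) false (nat_lit 1) true (nat_lit 7) true (nat_lit 8) (.e false (nat_lit 1) (nat_lit 78) (nat_lit 7) (nat_lit 4) (.e false (nat_lit 2) (nat_lit 164) (nat_lit 2) (nat_lit 7) (.e true (nat_lit 1) (nat_lit 158) (nat_lit 2) (nat_lit 7) (.e true (nat_lit 1) (nat_lit 159) (nat_lit 2) (nat_lit 7) (.e true (nat_lit 2) (nat_lit 160) (nat_lit 2) (nat_lit 7) (.e false (nat_lit 2) (nat_lit 161) (nat_lit 2) (nat_lit 7) (.e false (nat_lit 2) (nat_lit 162) (nat_lit 2) (nat_lit 7) (.e true (nat_lit 1) (nat_lit 163) (nat_lit 2) (nat_lit 7) (.e true (nat_lit 1) (nat_lit 165) (nat_lit 2) (nat_lit 7) (.e false (nat_lit 1) (nat_lit 166) (nat_lit 2) (nat_lit 7) (.e true (nat_lit 1) (nat_lit 168) (nat_lit 2) (nat_lit 7) (.e true (nat_lit 1) (nat_lit 186) (nat_lit 1) (nat_lit 8) (.u (nat_lit 2) (.n (nat_lit 2) (nat_lit 1) (.n (nat_lit 15) (nat_lit 1) .z)) .nil))))))))))))))) (.nd (.nd .leaf (nat_lit 40979) (nat_lit 731) (.p (nat_lit 289) (nat_lit 1) (.n (nat_lit 290) (nat_lit 3) (.p (nat_lit 291) (nat_lit 2) (.p (nat_lit 292) (nat_lit 3) (.n (nat_lit 293) (nat_lit 3) (.p (nat_lit 294) (nat_lit 1) (.n (nat_lit 296) (nat_lit 1) (.p (nat_lit 297) (nat_lit 2) (.p (nat_lit 298) (nat_lit 1) (.n (nat_lit 299) (nat_lit 1) (.p (nat_lit 300) (nat_lit 1) (.p (nat_lit 301) (nat_lit 1) (.n (nat_lit 303) (nat_lit 1) (.p (nat_lit 304) (nat_lit 2) .z)))))))))))))) (.ct dC2a_c52 (nat_lit 1) (nat_lit 1) (.s false (nat_lit 3) (nat_lit 7) (nat_lit 1) (nat_lit 4) (nat_lit 7) true (nat_lit 1) true (nat_lit 4) true (nat_lit 4) true (nat_lit 8) true (nat_lit 6) (.e false (nat_lit 1) (nat_lit 41) (nat_lit 19) (nat_lit 1) (.e true (nat_lit 1) (nat_lit 74) (nat_lit 7) (nat_lit 4) (.e true (nat_lit 1) (nat_lit 75) (nat_lit 7) (nat_lit 4) (.e true (nat_lit 2) (nat_lit 76) (nat_lit 7) (nat_lit 4) (.e false (nat_lit 2) (nat_lit 77) (nat_lit 7) (nat_lit 4) (.e false (nat_lit 2) (nat_lit 78) (nat_lit 7) (nat_lit 4) (.e true (nat_lit 1) (nat_lit 79) (nat_lit 7) (nat_lit 4) (.e true (nat_lit 1) (nat_lit 190) (nat_lit 1) (nat_lit 8) (.u (nat_lit 2) (.n (nat_lit 0) (nat_lit 1) (.p (nat_lit 1) (nat_lit 2) (.n (nat_lit 2) (nat_lit 1) (.n (nat_lit 3) (nat_lit 2) (.p (nat_lit 4) (nat_lit 1) (.p (nat_lit 6) (nat_lit 1) (.p (nat_lit 8) (nat_lit 1) (.n (nat_lit 9) (nat_lit 1) (.n (nat_lit 14) (nat_lit 1) (.n (nat_lit 15) (nat_lit 1) (.p (nat_lit 23) (nat_lit 1) (.n (nat_lit 24) (nat_lit 1) (.p (nat_lit 32) (nat_lit 1) (.p (nat_lit 33) (nat_lit 1) (.n (nat_lit 34) (nat_lit 1) (.p (nat_lit 35) (nat_lit 1) (.p (nat_lit 36) (nat_lit 1) (.p (nat_lit 37) (nat_lit 1) (.p (nat_lit 64) (nat_lit 1) .z))))))))))))))))))) .nil))))))))))) .leaf) (nat_lit 40980) (nat_lit 847) (.n (nat_lit 324) (nat_lit 3) (.p (nat_lit 325) (nat_lit 2) (.n (nat_lit 326) (nat_lit 3) (.n (nat_lit 327) (nat_lit 3) (.p (nat_lit 328) (nat_lit 1) (.p (nat_lit 329) (nat_lit 2) (.p (nat_lit 330) (nat_lit 3) (.p (nat_lit 331) (nat_lit 2) (.p (nat_lit 333) (nat_lit 1) (.p (nat_lit 334) (nat_lit 1) .z)))))))))) (.ct dC2a_c37 (nat_lit 1) (nat_lit 0) (.s false (nat_lit 3) (nat_lit 20) (nat_lit 2) (nat_lit 2) (nat_lit 4) true (nat_lit 2) true (nat_lit 5) true (nat_lit 0) true (nat_lit 6) true (nat_lit 6) (.e true (nat_lit 3) (nat_lit 48) (nat_lit 14) (nat_lit 2) (.e false (nat_lit 3) (nat_lit 105) (nat_lit 4) (nat_lit 5) (.e false (nat_lit 1) (nat_lit 41) (nat_lit 20) (nat_lit 0) (.e true (nat_lit 1) (nat_lit 190) (nat_lit 2) (nat_lit 6) (.e true (nat_lit 3) (nat_lit 194) (nat_lit 2) (nat_lit 6) (.e true (nat_lit 1) (nat_lit 186) (nat_lit 2) (nat_lit 6) (.e false (nat_lit 1) (nat_lit 187) (nat_lit 2) (nat_lit 6) (.u (nat_lit 2) (.n (nat_lit 0) (nat_lit 1) (.p (nat_lit 1) (nat_lit 1) (.p (nat_lit 2) (nat_lit 1) (.n (nat_lit 5) (nat_lit 1) (.n (nat_lit 7) (nat_lit 2) (.p (nat_lit 12) (nat_lit 1) (.n (nat_lit 13) (nat_lit 1) (.p (nat_lit 34) (nat_lit 1) (.n (nat_lit 35) (nat_lit 1) (.p (nat_lit 38) (nat_lit 1) .z)))))))))) .nil)))))))))) .leaf)) (nat_lit 40993) (nat_lit 988) (.n (nat_lit 336) (nat_lit 1) (.n (nat_lit 337) (nat_lit 2) (.n (nat_lit 338) (nat_lit 3) (.p (nat_lit 339) (nat_lit 1) (.p (nat_lit 341) (nat_lit 1) (.p (nat_lit 342) (nat_lit 1) (.n (nat_lit 344) (nat_lit 3) (.p (nat_lit 345) (nat_lit 1) (.n (nat_lit 346) (nat_lit 3) (.n (nat_lit 347) (nat_lit 1) (.p (nat_lit 349) (nat_lit 1) (.n (nat_lit 351) (nat_lit 3) (.p (nat_lit 352) (nat_lit 1) (.p (nat_lit 353) (nat_lit 1) (.p (nat_lit 355) (nat_lit 3) (.p (nat_lit 356) (nat_lit 1) (.n (nat_lit 357) (nat_lit 1) (.p (nat_lit 358) (nat_lit 3) (.n (nat_lit 359) (nat_lit 3) (.n (nat_lit 360) (nat_lit 3) (.p (nat_lit 361) (nat_lit 3) (.n (nat_lit 362) (nat_lit 1) (.n (nat_lit 363) (nat_lit 3) (.n (nat_lit 364) (nat_lit 2) (.p (nat_lit 367) (nat_lit 1) (.p (nat_lit 368) (nat_lit 1) (.p (nat_lit 369) (nat_lit 3) (.p (nat_lit 370) (nat_lit 1) (.p (nat_lit 371) (nat_lit 3) (.n (nat_lit 372) (nat_lit 1) (.n (nat_lit 373) (nat_lit 1) (.p (nat_lit 374) (nat_lit 2) (.p (nat_lit 375) (nat_lit 3) (.p (nat_lit 379) (nat_lit 3) (.p (nat_lit 381) (nat_lit 2) (.p (nat_lit 382) (nat_lit 3) (.p (nat_lit 383) (nat_lit 2) .z))))))))))))))))))))))))))))))))))))) (.ct dC2a_c308 (nat_lit 1) (nat_lit 0) (.s true (nat_lit 3) (nat_lit 33) (nat_lit 1) (nat_lit 1) (nat_lit 7) true (nat_lit 5) true (nat_lit 11) true (nat_lit 0) true (nat_lit 17) true (nat_lit 17) (.e false (nat_lit 3) (nat_lit 66) (nat_lit 19) (nat_lit 5) (.e true (nat_lit 3) (nat_lit 123) (nat_lit 7) (nat_lit 11) (.e false (nat_lit 1) (nat_lit 41) (nat_lit 33) (nat_lit 0) (.e true (nat_lit 2) (nat_lit 254) (nat_lit 1) (nat_lit 17) (.e true (nat_lit 3) (nat_lit 258) (nat_lit 1) (nat_lit 17) (.e true (nat_lit 3) (nat_lit 265) (nat_lit 1) (nat_lit 17) (.e true (nat_lit 1) (nat_lit 266) (nat_lit 1) (nat_lit 17) (.e false (nat_lit 1) (nat_lit 269) (nat_lit 1) (nat_lit 17) (.e false (nat_lit 2) (nat_lit 274) (nat_lit 1) (nat_lit 17) (.e true (nat_lit 1) (nat_lit 278) (nat_lit 1) (nat_lit 17) (.e true (nat_lit 1) (nat_lit 287) (nat_lit 1) (nat_lit 17) (.e false (nat_lit 3) (nat_lit 264) (nat_lit 1) (nat_lit 17) (.e true (nat_lit 3) (nat_lit 272) (nat_lit 1) (nat_lit 17) (.e true (nat_lit 3) (nat_lit 285) (nat_lit 1) (nat_lit 17) (.u (nat_lit 2) (.n (nat_lit 0) (nat_lit 3) (.p (nat_lit 1) (nat_lit 2) (.p (nat_lit 2) (nat_lit 1) (.p (nat_lit 3) (nat_lit 2) (.n (nat_lit 4) (nat_lit 3) (.p (nat_lit 5) (nat_lit 1) (.n (nat_lit 6) (nat_lit 1) (.n (nat_lit 8) (nat_lit 1) (.p (nat_lit 9) (nat_lit 2) (.p (nat_lit 10) (nat_lit 1) (.p (nat_lit 14) (nat_lit 1) (.n (nat_lit 15) (nat_lit 1) (.n (nat_lit 17) (nat_lit 1) (.p (nat_lit 18) (nat_lit 1) (.n (nat_lit 19) (nat_lit 1) (.n (nat_lit 20) (nat_lit 1) (.n (nat_lit 21) (nat_lit 2) (.p (nat_lit 22) (nat_lit 2) (.n (nat_lit 23) (nat_lit 2) (.p (nat_lit 24) (nat_lit 1) (.n (nat_lit 25) (nat_lit 2) (.n (nat_lit 26) (nat_lit 1) (.p (nat_lit 27) (nat_lit 1) (.n (nat_lit 28) (nat_lit 1) (.p (nat_lit 29) (nat_lit 1) (.p (nat_lit 31) (nat_lit 1) (.n (nat_lit 33) (nat_lit 2) (.p (nat_lit 34) (nat_lit 1) (.n (nat_lit 35) (nat_lit 2) (.p (nat_lit 36) (nat_lit 2) (.p (nat_lit 37) (nat_lit 1) (.p (nat_lit 38) (nat_lit 2) (.p (nat_lit 39) (nat_lit 1) (.n (nat_lit 40) (nat_lit 2) (.p (nat_lit 45) (nat_lit 1) (.n (nat_lit 46) (nat_lit 1) (.n (nat_lit 48) (nat_lit 1) (.p (nat_lit 63) (nat_lit 1) (.n (nat_lit 64) (nat_lit 1) (.p (nat_lit 351) (nat_lit 2) (.p (nat_lit 363) (nat_lit 1) (.n (nat_lit 366) (nat_lit 1) (.n (nat_lit 371) (nat_lit 2) (.p (nat_lit 375) (nat_lit 1) (.p (nat_lit 384) (nat_lit 1) .z))))))))))))))))))))))))))))))))))))))))))))) .nil))))))))))))))))) (.nd (.nd (.nd .leaf (nat_lit 40994) (nat_lit 994) (.p (nat_lit 335) (nat_lit 3) (.p (nat_lit 336) (nat_lit 3) (.n (nat_lit 337) (nat_lit 1) (.n (nat_lit 338) (nat_lit 1) (.n (nat_lit 339) (nat_lit 2) (.n (nat_lit 340) (nat_lit 3) (.p (nat_lit 341) (nat_lit 1) (.n (nat_lit 342) (nat_lit 2) (.n (nat_lit 343) (nat_lit 1) (.p (nat_lit 344) (nat_lit 2) (.n (nat_lit 345) (nat_lit 3) (.p (nat_lit 346) (nat_lit 2) (.p (nat_lit 347) (nat_lit 1) (.p (nat_lit 349) (nat_lit 1) (.p (nat_lit 350) (nat_lit 3) (.p (nat_lit 351) (nat_lit 2) (.p (nat_lit 358) (nat_lit 2) (.n (nat_lit 359) (nat_lit 3) (.n (nat_lit 360) (nat_lit 3) (.n (nat_lit 361) (nat_lit 2) (.n (nat_lit 362) (nat_lit 3) (.p (nat_lit 363) (nat_lit 3) (.n (nat_lit 364) (nat_lit 3) (.n (nat_lit 366) (nat_lit 2) (.n (nat_lit 367) (nat_lit 2) (.n (nat_lit 368) (nat_lit 1) (.p (nat_lit 369) (nat_lit 2) (.n (nat_lit 370) (nat_lit 1) (.p (nat_lit 371) (nat_lit 1) (.p (nat_lit 373) (nat_lit 1) (.p (nat_lit 374) (nat_lit 3) (.n (nat_lit 376) (nat_lit 1) (.n (nat_lit 380) (nat_lit 2) (.p (nat_lit 381) (nat_lit 1) (.n (nat_lit 382) (nat_lit 1) (.n (nat_lit 383) (nat_lit 3) (.p (nat_lit 388) (nat_lit 1) .z))))))))))))))))))))))))))))))))))))) (.ct dC2a_c308 (nat_lit 1) (nat_lit 0) dC2a_i32) .leaf) (nat_lit 40995) (nat_lit 1100) (.n (nat_lit 335) (nat_lit 1) (.n (nat_lit 336) (nat_lit 3) (.p (nat_lit 337) (nat_lit 1) (.p (nat_lit 338) (nat_lit 2) (.n (nat_lit 339) (nat_lit 3) (.n (nat_lit 340) (nat_lit 1) (.p (nat_lit 341) (nat_lit 3) (.n (nat_lit 343) (nat_lit 1) (.n (nat_lit 344) (nat_lit 2) (.n (nat_lit 345) (nat_lit 2) (.p (nat_lit 346) (nat_lit 1) (.p (nat_lit 347) (nat_lit 2) (.p (nat_lit 349) (nat_lit 3) (.p (nat_lit 350) (nat_lit 2) (.p (nat_lit 351) (nat_lit 3) (.p (nat_lit 352) (nat_lit 2) (.p (nat_lit 353) (nat_lit 3) (.n (nat_lit 354) (nat_lit 2) (.p (nat_lit 355) (nat_lit 3) (.p (nat_lit 356) (nat_lit 1) (.n (nat_lit 357) (nat_lit 1) (.n (nat_lit 360) (nat_lit 1) (.p (nat_lit 362) (nat_lit 1) (.p (nat_lit 363) (nat_lit 2) (.n (nat_lit 364) (nat_lit 2) (.n (nat_lit 366) (nat_lit 3) (.p (nat_lit 367) (nat_lit 1) (.p (nat_lit 368) (nat_lit 2) (.p (nat_lit 369) (nat_lit 1) (.p (nat_lit 370) (nat_lit 1) (.p (nat_lit 371) (nat_lit 2) (.p (nat_lit 372) (nat_lit 2) (.n (nat_lit 373) (nat_lit 2) (.n (nat_lit 374) (nat_lit 2) (.p (nat_lit 375) (nat_lit 3) (.n (nat_lit 376) (nat_lit 1) (.p (nat_lit 379) (nat_lit 3) (.p (nat_lit 381) (nat_lit 2) (.p (nat_lit 382) (nat_lit 3) (.p (nat_lit 383) (nat_lit 2) (.p (nat_lit 388) (nat_lit 1) .z))))))))))))))))))))))))))))))))))))))))) (.ct dC2a_c308 (nat_lit 1) (nat_lit 0) (.s true (nat_lit 3) (nat_lit 35) (nat_lit 1) (nat_lit 1) (nat_lit 7) true (nat_lit 5) true (nat_lit 11) true (nat_lit 0) true (nat_lit 17) true (nat_lit 17) (.e false (nat_lit 3) (nat_lit 68) (nat_lit 19) (nat_lit 5) (.e true (nat_lit 3) (nat_lit 106) (nat_lit 7) (nat_lit 11) (.e false (nat_lit 3) (nat_lit 107) (nat_lit 7) (nat_lit 11) (.e true (nat_lit 1) (nat_lit 108) (nat_lit 7) (nat_lit 11) (.e true (nat_lit 2) (nat_lit 110) (nat_lit 7) (nat_lit 11) (.e false (nat_lit 3) (nat_lit 112) (nat_lit 7) (nat_lit 11) (.e false (nat_lit 2) (nat_lit 113) (nat_lit 7) (nat_lit 11) (.e true (nat_lit 3) (nat_lit 114) (nat_lit 7) (nat_lit 11) (.e true (nat_lit 2) (nat_lit 115) (nat_lit 7) (nat_lit 11) (.e false (nat_lit 2) (nat_lit 116) (nat_lit 7) (nat_lit 11) (.e false (nat_lit 3) (nat_lit 117) (nat_lit 7) (nat_lit 11) (.e true (nat_lit 3) (nat_lit 119) (nat_lit 7) (nat_lit 11) (.e true (nat_lit 2) (nat_lit 120) (nat_lit 7) (nat_lit 11) (.e true (nat_lit 3) (nat_lit 121) (nat_lit 7) (nat_lit 11) (.e true (nat_lit 2) (nat_lit 122) (nat_lit 7) (nat_lit 11) (.e true (nat_lit 2) (nat_lit 123) (nat_lit 7) (nat_lit 11) (.e true (nat_lit 3) (nat_lit 124) (nat_lit 7) (nat_lit 11) (.e true (nat_lit 1) (nat_lit 126) (nat_lit 7) (nat_lit 11) (.e true (nat_lit 1) (nat_lit 127) (nat_lit 7) (nat_lit 11) (.e false (nat_lit 2) (nat_lit 130) (nat_lit 7) (nat_lit 11) (.e false (nat_lit 2) (nat_lit 131) (nat_lit 7) (nat_lit 11) (.e false (nat_lit 1) (nat_lit 41) (nat_lit 35) (nat_lit 0) (.e false (nat_lit 3) (nat_lit 252) (nat_lit 1) (nat_lit 17) dC2a_i33))))))))))))))))))))))))) .leaf) (nat_lit 40996) (nat_lit 1106) (.p (nat_lit 336) (nat_lit 2) (.n (nat_lit 337) (nat_lit 3) (.p (nat_lit 338) (nat_lit 3) (.n (nat_lit 339) (nat_lit 1) (.n (nat_lit 341) (nat_lit 3) (.p (nat_lit 342) (nat_lit 1) (.n (nat_lit 343) (nat_lit 1) (.n (nat_lit 344) (nat_lit 1) (.n (nat_lit 346) (nat_lit 1) (.p (nat_lit 347) (nat_lit 3) (.p (nat_lit 349) (nat_lit 2) (.n (nat_lit 350) (nat_lit 1) (.p (nat_lit 351) (nat_lit 2) (.p (nat_lit 352) (nat_lit 3) (.n (nat_lit 353) (nat_lit 2) (.p (nat_lit 354) (nat_lit 2) (.n (nat_lit 355) (nat_lit 3) (.p (nat_lit 358) (nat_lit 1) (.n (nat_lit 359) (nat_lit 1) (.p (nat_lit 360) (nat_lit 3) (.p (nat_lit 361) (nat_lit 1) (.p (nat_lit 362) (nat_lit 3) (.p (nat_lit 363) (nat_lit 1) (.p (nat_lit 364) (nat_lit 1) (.p (nat_lit 367) (nat_lit 3) (.n (nat_lit 368) (nat_lit 3) (.p (nat_lit 369) (nat_lit 1) (.n (nat_lit 370) (nat_lit 3) (.n (nat_lit 371) (nat_lit 2) (.p (nat_lit 372) (nat_lit 2) (.p (nat_lit 373) (nat_lit 3) (.n (nat_lit 374) (nat_lit 3) (.n (nat_lit 375) (nat_lit 3) (.n (nat_lit 377) (nat_lit 1) (.p (nat_lit 379) (nat_lit 3) (.p (nat_lit 380) (nat_lit 2) (.p (nat_lit 381) (nat_lit 1) (.n (nat_lit 389) (nat_lit 1) .z)))))))))))))))))))))))))))))))))))))) (.ct dC2a_c308 (nat_lit 1) (nat_lit 0) (.s true (nat_lit 1) (nat_lit 15) (nat_lit 3) (nat_lit 2) (nat_lit 7) true (nat_lit 0) true (nat_lit 11) true (nat_lit 7) true (nat_lit 15) true (nat_lit 16) (.s true (nat_lit 1) (nat_lit 88) (nat_lit 1) (nat_lit 2) (nat_lit 1) true (nat_lit 14) true (nat_lit 17) false (nat_lit 7) true (nat_lit 17) true (nat_lit 16) (.e false (nat_lit 1) (nat_lit 40) (nat_lit 34) (nat_lit 0) (.e true (nat_lit 1) (nat_lit 40) (nat_lit 35) (nat_lit 0) (.e true (nat_lit 1) (nat_lit 40) (nat_lit 38) (nat_lit 0) (.e false (nat_lit 1) (nat_lit 107) (nat_lit 7) (nat_lit 11) (.e false (nat_lit 1) (nat_lit 108) (nat_lit 7) (nat_lit 11) dC2a_i35)))))))) (.nd .leaf (nat_lit 40997) (nat_lit 1120) (.p (nat_lit 335) (nat_lit 2) (.n (nat_lit 336) (nat_lit 1) (.n (nat_lit 337) (nat_lit 2) (.n (nat_lit 338) (nat_lit 3) (.p (nat_lit 339) (nat_lit 1) (.n (nat_lit 340) (nat_lit 3) (.p (nat_lit 341) (nat_lit 3) (.n (nat_lit 343) (nat_lit 1) (.p (nat_lit 344) (nat_lit 3) (.p (nat_lit 345) (nat_lit 1) (.n (nat_lit 347) (nat_lit 1) (.p (nat_lit 349) (nat_lit 1) (.p (nat_lit 350) (nat_lit 3) (.n (nat_lit 351) (nat_lit 1) (.n (nat_lit 352) (nat_lit 3) (.p (nat_lit 353) (nat_lit 1) (.p (nat_lit 354) (nat_lit 2) (.p (nat_lit 355) (nat_lit 3) (.p (nat_lit 356) (nat_lit 2) (.n (nat_lit 357) (nat_lit 2) (.p (nat_lit 358) (nat_lit 1) (.p (nat_lit 360) (nat_lit 1) (.n (nat_lit 361) (nat_lit 3) (.n (nat_lit 362) (nat_lit 3) (.n (nat_lit 363) (nat_lit 1) (.p (nat_lit 368) (nat_lit 2) (.p (nat_lit 370) (nat_lit 1) (.p (nat_lit 371) (nat_lit 2) (.n (nat_lit 373) (nat_lit 2) (.p (nat_lit 374) (nat_lit 3) (.p (nat_lit 375) (nat_lit 1) (.n (nat_lit 377) (nat_lit 2) (.n (nat_lit 379) (nat_lit 1) (.n (nat_lit 380) (nat_lit 1) (.p (nat_lit 381) (nat_lit 1) (.p (nat_lit 382) (nat_lit 2) (.n (nat_lit 383) (nat_lit 1) (.n (nat_lit 389) (nat_lit 2) .z)))))))))))))))))))))))))))))))))))))) (.ct dC2a_c308 (nat_lit 1) (nat_lit 0) (.s false (nat_lit 1) (nat_lit 40) (nat_lit 7) (nat_lit 0) (nat_lit 1) true (nat_lit 5) true (nat_lit 17) false (nat_lit 0) true (nat_lit 11) true (nat_lit 18) (.e true (nat_lit 1) (nat_lit 71) (nat_lit 19) (nat_lit 5) (.e false (nat_lit 3) (nat_lit 252) (nat_lit 1) (nat_lit 17) (.e true (nat_lit 1) (nat_lit 253) (nat_lit 1) (nat_lit 17) (.e false (nat_lit 2) (nat_lit 256) (nat_lit 1) (nat_lit 17) (.e true (nat_lit 3) (nat_lit 259) (nat_lit 1) (nat_lit 17) dC2a_i37))))))) .leaf))))) (nat_lit 40998) (nat_lit 1105) (.p (nat_lit 336) (nat_lit 2) (.n (nat_lit 337) (nat_lit 3) (.n (nat_lit 338) (nat_lit 1) (.n (nat_lit 339) (nat_lit 2) (.n (nat_lit 341) (nat_lit 2) (.p (nat_lit 342) (nat_lit 3) (.n (nat_lit 343) (nat_lit 3) (.p (nat_lit 345) (nat_lit 2) (.n (nat_lit 346) (nat_lit 1) (.p (nat_lit 347) (nat_lit 2) (.p (nat_lit 349) (nat_lit 2) (.n (nat_lit 350) (nat_lit 2) (.n (nat_lit 351) (nat_lit 1) (.n (nat_lit 352) (nat_lit 3) (.p (nat_lit 353) (nat_lit 3) (.n (nat_lit 354) (nat_lit 1) (.n (nat_lit 355) (nat_lit 3) (.n (nat_lit 356) (nat_lit 3) (.p (nat_lit 357) (nat_lit 3) (.p (nat_lit 358) (nat_lit 3) (.n (nat_lit 359) (nat_lit 3) (.n (nat_lit 360) (nat_lit 3) (.n (nat_lit 361) (nat_lit 2) (.n (nat_lit 362) (nat_lit 1) (.p (nat_lit 363) (nat_lit 3) (.p (nat_lit 364) (nat_lit 1) (.p (nat_lit 366) (nat_lit 3) (.p (nat_lit 367) (nat_lit 3) (.n (nat_lit 369) (nat_lit 1) (.p (nat_lit 370) (nat_lit 2) (.p (nat_lit 371) (nat_lit 2) (.n (nat_lit 372) (nat_lit 3) (.p (nat_lit 374) (nat_lit 1) (.n (nat_lit 375) (nat_lit 1) (.p (nat_lit 377) (nat_lit 1) (.p (nat_lit 380) (nat_lit 1) (.p (nat_lit 381) (nat_lit 3) (.p (nat_lit 382) (nat_lit 3) (.p (nat_lit 383) (nat_lit 2) (.p (nat_lit 389) (nat_lit 1) .z)))))))))))))))))))))))))))))))))))))))) (.ct dC2a_c308 (nat_lit 1) (nat_lit 0) (.s false (nat_lit 3) (nat_lit 14) (nat_lit 1) (nat_lit 5) (nat_lit 7) true (nat_lit 5) true (nat_lit 11) true (nat_lit 7) true (nat_lit 17) true (nat_lit 13) (.s true (nat_lit 1) (nat_lit 40) (nat_lit 2) (nat_lit 1) (nat_lit 5) true (nat_lit 6) true (nat_lit 13) false (nat_lit 0) true (nat_lit 16) true (nat_lit 17) (.s true (nat_lit 1) (nat_lit 40) (nat_lit 7) (nat_lit 0) (nat_lit 1) true (nat_lit 5) true (nat_lit 17) false (nat_lit 0) true (nat_lit 11) true (nat_lit 18) (.s true (nat_lit 1) (nat_lit 78) (nat_lit 2) (nat_lit 0) (nat_lit 2) true (nat_lit 11) true (nat_lit 16) false (nat_lit 6) true (nat_lit 16) true (nat_lit 18) (.e false (nat_lit 3) (nat_lit 60) (nat_lit 19) (nat_lit 5) (.e false (nat_lit 3) (nat_lit 61) (nat_lit 19) (nat_lit 5) (.e false (nat_lit 1) (nat_lit 63) (nat_lit 19) (nat_lit 5) (.e true (nat_lit 3) (nat_lit 64) (nat_lit 19) (nat_lit 5) (.e false (nat_lit 3) (nat_lit 65) (nat_lit 19) (nat_lit 5) (.e false (nat_lit 3) (nat_lit 67) (nat_lit 19) (nat_lit 5) (.e true (nat_lit 3) (nat_lit 68) (nat_lit 19) (nat_lit 5) dC2a_i41)))))))))))) (.nd (.nd (.nd (.nd (.nd (.nd .leaf (nat_lit 41984) (nat_lit 97) (.p (nat_lit 61) (nat_lit 1) (.n (nat_lit 63) (nat_lit 1) (.p (nat_lit 64) (nat_lit 1) (.p (nat_lit 66) (nat_lit 1) (.n (nat_lit 71) (nat_lit 1) (.n (nat_lit 72) (nat_lit 1) (.n (nat_lit 73) (nat_lit 1) .z))))))) (.ct dC2a_c290 (nat_lit 1) (nat_lit 7) (.s true (nat_lit 1) (nat_lit 6) (nat_lit 2) (nat_lit 1) (nat_lit 0) true (nat_lit 2) true (nat_lit 7) true (nat_lit 1) true (nat_lit 5) true (nat_lit 6) (.e true (nat_lit 1) (nat_lit 15) (nat_lit 5) (nat_lit 2) (.e true (nat_lit 1) (nat_lit 13) (nat_lit 6) (nat_lit 1) (.e false (nat_lit 1) (nat_lit 25) (nat_lit 2) (nat_lit 5) (.e false (nat_lit 1) (nat_lit 26) (nat_lit 2) (nat_lit 5) (.e true (nat_lit 1) (nat_lit 27) (nat_lit 2) (nat_lit 5) (.e false (nat_lit 1) (nat_lit 29) (nat_lit 2) (nat_lit 5) (.e false (nat_lit 1) (nat_lit 35) (nat_lit 1) (nat_lit 6) .nil))))))))) .leaf) (nat_lit 41985) (nat_lit 112) (.n (nat_lit 74) (nat_lit 1) (.n (nat_lit 75) (nat_lit 1) (.n (nat_lit 76) (nat_lit 2) (.p (nat_lit 77) (nat_lit 2) (.p (nat_lit 78) (nat_lit 3) (.n (nat_lit 79) (nat_lit 2) .z)))))) (.ct dC2a_c50 (nat_lit 1) (nat_lit 4) (.s true (nat_lit 1) (nat_lit 6) (nat_lit 2) (nat_lit 1) (nat_lit 1) true (nat_lit 1) true (nat_lit 4) true (nat_lit 1) true (nat_lit 3) true (nat_lit 4) (.e true (nat_lit 2) (nat_lit 15) (nat_lit 6) (nat_lit 1) (.e false (nat_lit 1) (nat_lit 30) (nat_lit 2) (nat_lit 3) (.e true (nat_lit 1) (nat_lit 31) (nat_lit 2) (nat_lit 3) (.e false (nat_lit 1) (nat_lit 40) (nat_lit 1) (nat_lit 4) .nil)))))) .leaf) (nat_lit 41986) (nat_lit 137) (.p (nat_lit 93) (nat_lit 1) .z) .df (.nd (.nd .leaf (nat_lit 41987) (nat_lit 198) (.n (nat_lit 106) (nat_lit 1) (.p (nat_lit 107) (nat_lit 3) (.p (nat_lit 108) (nat_lit 3) (.n (nat_lit 109) (nat_lit 2) (.p (nat_lit 110) (nat_lit 3) (.n (nat_lit 112) (nat_lit 3) (.p (nat_lit 114) (nat_lit 3) (.n (nat_lit 116) (nat_lit 1) (.n (nat_lit 117) (nat_lit 1) (.p (nat_lit 119) (nat_lit 3) (.n (nat_lit 123) (nat_lit 3) (.n (nat_lit 126) (nat_lit 3) (.n (nat_lit 127) (nat_lit 3) (.p (nat_lit 128) (nat_lit 1) .z)))))))))))))) (.ct dC2a_c306 (nat_lit 1) (nat_lit 7) (.s false (nat_lit 2) (nat_lit 4) (nat_lit 3) (nat_lit 2) (nat_lit 2) true (nat_lit 0) true (nat_lit 8) true (nat_lit 6) true (nat_lit 7) true (nat_lit 8) (.s false (nat_lit 3) (nat_lit 7) (nat_lit 1) (nat_lit 1) (nat_lit 3) true (nat_lit 2) true (nat_lit 7) true (nat_lit 3) true (nat_lit 9) true (nat_lit 9) (.e false (nat_lit 2) (nat_lit 14) (nat_lit 11) (nat_lit 0) (.e true (nat_lit 2) (nat_lit 50) (nat_lit 2) (nat_lit 8) (.e true (nat_lit 2) (nat_lit 51) (nat_lit 2) (nat_lit 8) (.e false (nat_lit 2) (nat_lit 33) (nat_lit 4) (nat_lit 6) (.e true (nat_lit 2) (nat_lit 49) (nat_lit 2) (nat_lit 8) (.e false (nat_lit 2) (nat_lit 53) (nat_lit 2) (nat_lit 8) (.e true (nat_lit 3) (nat_lit 54) (nat_lit 2) (nat_lit 8) (.e true (nat_lit 2) (nat_lit 55) (nat_lit 2) (nat_lit 8) (.e false (nat_lit 2) (nat_lit 57) (nat_lit 2) (nat_lit 8) (.e true (nat_lit 2) (nat_lit 59) (nat_lit 2) (nat_lit 8) (.e false (nat_lit 3) (nat_lit 19) (nat_lit 8) (nat_lit 2) (.e true (nat_lit 3) (nat_lit 39) (nat_lit 3) (nat_lit 7) (.e true (nat_lit 3) (nat_lit 22) (nat_lit 7) (nat_lit 3) (.e true (nat_lit 3) (nat_lit 23) (nat_lit 7) (nat_lit 3) (.e false (nat_lit 3) (nat_lit 60) (nat_lit 1) (nat_lit 9) (.e false (nat_lit 3) (nat_lit 61) (nat_lit 1) (nat_lit 9) (.e true (nat_lit 3) (nat_lit 62) (nat_lit 1) (nat_lit 9) (.e true (nat_lit 3) (nat_lit 63) (nat_lit 1) (nat_lit 9) (.e false (nat_lit 3) (nat_lit 65) (nat_lit 1) (nat_lit 9) (.e false (nat_lit 3) (nat_lit 66) (nat_lit 1) (nat_lit 9) (.e false (nat_lit 3) (nat_lit 73) (nat_lit 1) (nat_lit 9) (.u (nat_lit 2) (.n (nat_lit 5) (nat_lit 1) (.p (nat_lit 11) (nat_lit 1) (.n (nat_lit 13) (nat_lit 1) (.p (nat_lit 17) (nat_lit 1) (.p (nat_lit 21) (nat_lit 1) (.n (nat_lit 22) (nat_lit 1) (.p (nat_lit 57) (nat_lit 1) (.p (nat_lit 64) (nat_lit 1) .z)))))))) .nil))))))))))))))))))))))))) .leaf) (nat_lit 41989) (nat_lit 271) (.p (nat_lit 133) (nat_lit 3) (.n (nat_lit 134) (nat_lit 1) (.p (nat_lit 135) (nat_lit 3) (.n (nat_lit 138) (nat_lit 3) (.p (nat_lit 139) (nat_lit 3) (.n (nat_lit 140) (nat_lit 3) (.n (nat_lit 141) (nat_lit 2) (.n (nat_lit 143) (nat_lit 2) (.p (nat_lit 144) (nat_lit 3) (.p (nat_lit 145) (nat_lit 1) (.n (nat_lit 147) (nat_lit 2) (.p (nat_lit 150) (nat_lit 1) (.p (nat_lit 155) (nat_lit 2) (.n (nat_lit 156) (nat_lit 1) .z)))))))))))))) (.ct dC2a_c291 (nat_lit 1) (nat_lit 5) (.s true (nat_lit 1) (nat_lit 5) (nat_lit 4) (nat_lit 2) (nat_lit 2) true (nat_lit 0) true (nat_lit 8) true (nat_lit 5) true (nat_lit 6) true (nat_lit 8) (.s false (nat_lit 1) (nat_lit 7) (nat_lit 1) (nat_lit 5) (nat_lit 1) true (nat_lit 6) true (nat_lit 9) true (nat_lit 3) true (nat_lit 9) true (nat_lit 5) (.s false (nat_lit 1) (nat_lit 16) (nat_lit 1) (nat_lit 1) (nat_lit 2) true (nat_lit 4) true (nat_lit 8) false (nat_lit 0) true (nat_lit 9) true (nat_lit 9) (.e true (nat_lit 1) (nat_lit 62) (nat_lit 2) (nat_lit 8) (.e false (nat_lit 1) (nat_lit 64) (nat_lit 2) (nat_lit 8) (.e false (nat_lit 2) (nat_lit 61) (nat_lit 2) (nat_lit 8) (.e true (nat_lit 3) (nat_lit 63) (nat_lit 2) (nat_lit 8) (.e false (nat_lit 3) (nat_lit 66) (nat_lit 2) (nat_lit 8) (.e false (nat_lit 2) (nat_lit 67) (nat_lit 2) (nat_lit 8) (.e true (nat_lit 2) (nat_lit 68) (nat_lit 2) (nat_lit 8) (.e true (nat_lit 2) (nat_lit 71) (nat_lit 2) (nat_lit 8) (.e true (nat_lit 3) (nat_lit 72) (nat_lit 2) (nat_lit 8) (.e false (nat_lit 1) (nat_lit 80) (nat_lit 1) (nat_lit 9) (.e true (nat_lit 2) (nat_lit 81) (nat_lit 1) (nat_lit 9) (.e true (nat_lit 1) (nat_lit 84) (nat_lit 1) (nat_lit 9) (.e true (nat_lit 1) (nat_lit 85) (nat_lit 1) (nat_lit 9) (.e false (nat_lit 1) (nat_lit 27) (nat_lit 7) (nat_lit 3) (.e false (nat_lit 1) (nat_lit 89) (nat_lit 1) (nat_lit 9) (.e true (nat_lit 1) (nat_lit 40) (nat_lit 5) (nat_lit 5) (.e false (nat_lit 1) (nat_lit 36) (nat_lit 6) (nat_lit 4) (.e true (nat_lit 1) (nat_lit 69) (nat_lit 2) (nat_lit 8) (.u (nat_lit 2) (.p (nat_lit 0) (nat_lit 1) (.n (nat_lit 3) (nat_lit 1) (.p (nat_lit 4) (nat_lit 1) (.p (nat_lit 9) (nat_lit 1) (.n (nat_lit 12) (nat_lit 1) (.p (nat_lit 15) (nat_lit 1) (.n (nat_lit 17) (nat_lit 1) (.p (nat_lit 18) (nat_lit 1) (.p (nat_lit 19) (nat_lit 1) (.p (nat_lit 20) (nat_lit 1) (.p (nat_lit 21) (nat_lit 1) (.n (nat_lit 24) (nat_lit 1) (.n (nat_lit 25) (nat_lit 1) .z))))))))))))) .nil))))))))))))))))))))))) .leaf)) (nat_lit 41990) (nat_lit 300) (.p (nat_lit 168) (nat_lit 1) .z) .df (.nd (.nd (.nd .leaf (nat_lit 41991) (nat_lit 373) (.p (nat_lit 185) (nat_lit 2) (.p (nat_lit 186) (nat_lit 3) (.n (nat_lit 187) (nat_lit 2) (.p (nat_lit 188) (nat_lit 2) (.p (nat_lit 189) (nat_lit 1) (.n (nat_lit 190) (nat_lit 2) (.p (nat_lit 193) (nat_lit 1) (.p (nat_lit 194) (nat_lit 1) .z)))))))) (.ct dC2a_c36 (nat_lit 1) (nat_lit 2) (.s true (nat_lit 1) (nat_lit 18) (nat_lit 2) (nat_lit 1) (nat_lit 2) true (nat_lit 2) true (nat_lit 5) true (nat_lit 0) true (nat_lit 5) true (nat_lit 6) (.e true (nat_lit 2) (nat_lit 94) (nat_lit 2) (nat_lit 5) (.e false (nat_lit 1) (nat_lit 18) (nat_lit 18) (nat_lit 0) (.e true (nat_lit 1) (nat_lit 91) (nat_lit 2) (nat_lit 5) (.e false (nat_lit 2) (nat_lit 92) (nat_lit 2) (nat_lit 5) (.e false (nat_lit 1) (nat_lit 93) (nat_lit 2) (nat_lit 5) (.e true (nat_lit 1) (nat_lit 95) (nat_lit 2) (nat_lit 5) (.e false (nat_lit 1) (nat_lit 96) (nat_lit 2) (nat_lit 5) (.e false (nat_lit 1) (nat_lit 101) (nat_lit 1) (nat_lit 6) (.u (nat_lit 2) (.n (nat_lit 3) (nat_lit 1) .z) .nil))))))))))) .leaf) (nat_lit 41995) (nat_lit 480) (.p (nat_lit 205) (nat_lit 3) (.p (nat_lit 206) (nat_lit 3) (.n (nat_lit 207) (nat_lit 1) (.n (nat_lit 208) (nat_lit 2) (.n (nat_lit 209) (nat_lit 1) (.n (nat_lit 211) (nat_lit 1) (.p (nat_lit 213) (nat_lit 2) (.n (nat_lit 214) (nat_lit 1) (.p (nat_lit 215) (nat_lit 3) (.p (nat_lit 216) (nat_lit 2) (.n (nat_lit 217) (nat_lit 3) (.p (nat_lit 218) (nat_lit 2) (.p (nat_lit 219) (nat_lit 1) (.p (nat_lit 220) (nat_lit 1) (.n (nat_lit 221) (nat_lit 2) (.p (nat_lit 222) (nat_lit 3) (.p (nat_lit 225) (nat_lit 2) (.n (nat_lit 226) (nat_lit 3) (.p (nat_lit 227) (nat_lit 2) (.p (nat_lit 228) (nat_lit 3) (.n (nat_lit 229) (nat_lit 1) (.n (nat_lit 230) (nat_lit 1) (.n (nat_lit 231) (nat_lit 2) (.p (nat_lit 238) (nat_lit 1) (.p (nat_lit 242) (nat_lit 1) (.n (nat_lit 245) (nat_lit 3) (.n (nat_lit 246) (nat_lit 3) (.n (nat_lit 247) (nat_lit 3) (.n (nat_lit 248) (nat_lit 3) (.n (nat_lit 251) (nat_lit 2) .z)))))))))))))))))))))))))))))) (.ct dC2a_c307 (nat_lit 1) (nat_lit 4) (.s true (nat_lit 1) (nat_lit 11) (nat_lit 6) (nat_lit 2) (nat_lit 1) true (nat_lit 3) true (nat_lit 13) true (nat_lit 4) true (nat_lit 8) true (nat_lit 12) (.e false (nat_lit 1) (nat_lit 33) (nat_lit 15) (nat_lit 3) (.e true (nat_lit 1) (nat_lit 145) (nat_lit 1) (nat_lit 13) (.e false (nat_lit 1) (nat_lit 73) (nat_lit 6) (nat_lit 8) (.e false (nat_lit 1) (nat_lit 107) (nat_lit 2) (nat_lit 12) (.e false (nat_lit 1) (nat_lit 108) (nat_lit 2) (nat_lit 12) (.e true (nat_lit 1) (nat_lit 111) (nat_lit 2) (nat_lit 12) (.e false (nat_lit 1) (nat_lit 117) (nat_lit 2) (nat_lit 12) (.e true (nat_lit 1) (nat_lit 118) (nat_lit 2) (nat_lit 12) (.e true (nat_lit 1) (nat_lit 119) (nat_lit 2) (nat_lit 12) (.e false (nat_lit 1) (nat_lit 120) (nat_lit 2) (nat_lit 12) (.e true (nat_lit 1) (nat_lit 122) (nat_lit 2) (nat_lit 12) (.e true (nat_lit 1) (nat_lit 128) (nat_lit 2) (nat_lit 12) (.u (nat_lit 2) (.n (nat_lit 0) (nat_lit 1) (.n (nat_lit 11) (nat_lit 1) (.n (nat_lit 14) (nat_lit 1) (.p (nat_lit 20) (nat_lit 1) .z)))) .nil))))))))))))))) .leaf) (nat_lit 41996) (nat_lit 508) (.p (nat_lit 205) (nat_lit 2) (.n (nat_lit 207) (nat_lit 3) (.p (nat_lit 208) (nat_lit 2) (.p (nat_lit 209) (nat_lit 1) (.p (nat_lit 210) (nat_lit 1) (.n (nat_lit 211) (nat_lit 1) (.n (nat_lit 212) (nat_lit 2) (.n (nat_lit 213) (nat_lit 3) (.p (nat_lit 214) (nat_lit 1) (.p (nat_lit 215) (nat_lit 2) (.p (nat_lit 217) (nat_lit 3) (.p (nat_lit 218) (nat_lit 2) (.p (nat_lit 219) (nat_lit 3) (.n (nat_lit 220) (nat_lit 3) (.n (nat_lit 222) (nat_lit 1) (.n (nat_lit 225) (nat_lit 2) (.p (nat_lit 226) (nat_lit 1) (.p (nat_lit 227) (nat_lit 3) (.n (nat_lit 228) (nat_lit 3) (.n (nat_lit 229) (nat_lit 1) (.n (nat_lit 230) (nat_lit 1) (.p (nat_lit 231) (nat_lit 2) (.p (nat_lit 232) (nat_lit 1) (.p (nat_lit 234) (nat_lit 3) (.p (nat_lit 239) (nat_lit 1) (.n (nat_lit 242) (nat_lit 1) (.p (nat_lit 243) (nat_lit 3) (.p (nat_lit 244) (nat_lit 2) (.n (nat_lit 245) (nat_lit 1) (.n (nat_lit 246) (nat_lit 3) (.p (nat_lit 249) (nat_lit 3) (.p (nat_lit 250) (nat_lit 2) (.n (nat_lit 251) (nat_lit 2) .z))))))))))))))))))))))))))))))))) (.ct dC2a_c307 (nat_lit 1) (nat_lit 4) (.s true (nat_lit 1) (nat_lit 12) (nat_lit 6) (nat_lit 2) (nat_lit 1) true (nat_lit 3) true (nat_lit 13) true (nat_lit 4) true (nat_lit 8) true (nat_lit 12) (.e false (nat_lit 1) (nat_lit 34) (nat_lit 15) (nat_lit 3) (.e false (nat_lit 1) (nat_lit 133) (nat_lit 1) (nat_lit 13) (.e true (nat_lit 1) (nat_lit 135) (nat_lit 1) (nat_lit 13) (.e false (nat_lit 1) (nat_lit 138) (nat_lit 1) (nat_lit 13) (.e true (nat_lit 1) (nat_lit 140) (nat_lit 1) (nat_lit 13) (.e true (nat_lit 1) (nat_lit 144) (nat_lit 1) (nat_lit 13) (.e true (nat_lit 1) (nat_lit 61) (nat_lit 6) (nat_lit 8) (.e false (nat_lit 1) (nat_lit 63) (nat_lit 6) (nat_lit 8) dC2a_i42)))))))))) (.nd (.nd .leaf (nat_lit 41997) (nat_lit 530) (.p (nat_lit 205) (nat_lit 3) (.p (nat_lit 206) (nat_lit 3) (.p (nat_lit 208) (nat_lit 2) (.n (nat_lit 209) (nat_lit 1) (.p (nat_lit 210) (nat_lit 2) (.p (nat_lit 212) (nat_lit 2) (.p (nat_lit 213) (nat_lit 3) (.p (nat_lit 214) (nat_lit 2) (.n (nat_lit 215) (nat_lit 3) (.p (nat_lit 217) (nat_lit 3) (.n (nat_lit 218) (nat_lit 1) (.n (nat_lit 219) (nat_lit 1) (.p (nat_lit 220) (nat_lit 3) (.n (nat_lit 221) (nat_lit 2) (.p (nat_lit 222) (nat_lit 2) (.n (nat_lit 225) (nat_lit 3) (.n (nat_lit 226) (nat_lit 2) (.p (nat_lit 228) (nat_lit 1) (.n (nat_lit 230) (nat_lit 1) (.n (nat_lit 231) (nat_lit 1) (.p (nat_lit 232) (nat_lit 3) (.n (nat_lit 234) (nat_lit 1) (.p (nat_lit 238) (nat_lit 1) (.p (nat_lit 239) (nat_lit 1) (.n (nat_lit 242) (nat_lit 2) (.n (nat_lit 243) (nat_lit 2) (.n (nat_lit 244) (nat_lit 3) (.p (nat_lit 245) (nat_lit 1) (.n (nat_lit 246) (nat_lit 2) (.p (nat_lit 247) (nat_lit 2) (.p (nat_lit 248) (nat_lit 3) (.n (nat_lit 249) (nat_lit 2) (.p (nat_lit 250) (nat_lit 3) (.n (nat_lit 251) (nat_lit 1) .z)))))))))))))))))))))))))))))))))) (.ct dC2a_c307 (nat_lit 1) (nat_lit 4) (.s true (nat_lit 3) (nat_lit 13) (nat_lit 2) (nat_lit 2) (nat_lit 4) true (nat_lit 3) true (nat_lit 10) true (nat_lit 4) true (nat_lit 12) true (nat_lit 12) (.e false (nat_lit 3) (nat_lit 35) (nat_lit 14) (nat_lit 3) (.e true (nat_lit 3) (nat_lit 82) (nat_lit 4) (nat_lit 10) (.e false (nat_lit 1) (nat_lit 40) (nat_lit 13) (nat_lit 4) (.e false (nat_lit 2) (nat_lit 106) (nat_lit 2) (nat_lit 12) (.e false (nat_lit 1) (nat_lit 107) (nat_lit 2) (nat_lit 12) (.e true (nat_lit 1) (nat_lit 109) (nat_lit 2) (nat_lit 12) (.e true (nat_lit 1) (nat_lit 111) (nat_lit 2) (nat_lit 12) (.e true (nat_lit 1) (nat_lit 113) (nat_lit 2) (nat_lit 12) (.e false (nat_lit 2) (nat_lit 117) (nat_lit 2) (nat_lit 12) (.e false (nat_lit 3) (nat_lit 118) (nat_lit 2) (nat_lit 12) (.e false (nat_lit 2) (nat_lit 119) (nat_lit 2) (nat_lit 12) (.e false (nat_lit 2) (nat_lit 120) (nat_lit 2) (nat_lit 12) (.e true (nat_lit 3) (nat_lit 121) (nat_lit 2) (nat_lit 12) (.e false (nat_lit 1) (nat_lit 122) (nat_lit 2) (nat_lit 12) (.e false (nat_lit 1) (nat_lit 124) (nat_lit 2) (nat_lit 12) (.e true (nat_lit 2) (nat_lit 126) (nat_lit 2) (nat_lit 12) (.e false (nat_lit 1) (nat_lit 127) (nat_lit 2) (nat_lit 12) (.e true (nat_lit 1) (nat_lit 130) (nat_lit 2) (nat_lit 12) (.e false (nat_lit 2) (nat_lit 131) (nat_lit 2) (nat_lit 12) (.e true (nat_lit 1) (nat_lit 114) (nat_lit 2) (nat_lit 12) (.e false (nat_lit 3) (nat_lit 116) (nat_lit 2) (nat_lit 12) (.u (nat_lit 2) (.n (nat_lit 0) (nat_lit 1) (.p (nat_lit 1) (nat_lit 1) (.n (nat_lit 3) (nat_lit 2) (.n (nat_lit 7) (nat_lit 2) (.n (nat_lit 9) (nat_lit 2) (.p (nat_lit 10) (nat_lit 3) (.n (nat_lit 12) (nat_lit 2) (.p (nat_lit 14) (nat_lit 1) (.p (nat_lit 16) (nat_lit 2) (.p (nat_lit 17) (nat_lit 1) (.p (nat_lit 18) (nat_lit 1) (.n (nat_lit 20) (nat_lit 2) (.n (nat_lit 23) (nat_lit 2) (.p (nat_lit 24) (nat_lit 1) (.n (nat_lit 25) (nat_lit 2) (.n (nat_lit 26) (nat_lit 2) (.p (nat_lit 27) (nat_lit 1) (.n (nat_lit 29) (nat_lit 1) (.n (nat_lit 33) (nat_lit 2) (.n (nat_lit 34) (nat_lit 2) (.n (nat_lit 38) (nat_lit 1) (.p (nat_lit 39) (nat_lit 1) (.p (nat_lit 40) (nat_lit 2) (.p (nat_lit 41) (nat_lit 2) (.n (nat_lit 42) (nat_lit 3) (.n (nat_lit 44) (nat_lit 1) (.p (nat_lit 45) (nat_lit 1) (.n (nat_lit 46) (nat_lit 2) (.n (nat_lit 87) (nat_lit 1) (.p (nat_lit 88) (nat_lit 1) (.p (nat_lit 146) (nat_lit 1) (.n (nat_lit 147) (nat_lit 1) (.p (nat_lit 149) (nat_lit 1) (.p (nat_lit 151) (nat_lit 1) (.p (nat_lit 153) (nat_lit 1) (.p (nat_lit 154) (nat_lit 1) (.p (nat_lit 157) (nat_lit 1) (.p (nat_lit 159) (nat_lit 1) (.p (nat_lit 160) (nat_lit 1) (.n (nat_lit 162) (nat_lit 1) (.n (nat_lit 164) (nat_lit 1) (.n (nat_lit 166) (nat_lit 1) (.n (nat_lit 167) (nat_lit 1) (.p (nat_lit 170) (nat_lit 1) (.p (nat_lit 171) (nat_lit 1) .z))))))))))))))))))))))))))))))))))))))))))))) .nil)))))))))))))))))))))))) .leaf) (nat_lit 42000) (nat_lit 664) (.n (nat_lit 252) (nat_lit 3) (.p (nat_lit 253) (nat_lit 2) (.n (nat_lit 254) (nat_lit 2) (.p (nat_lit 256) (nat_lit 3) (.p (nat_lit 257) (nat_lit 3) (.p (nat_lit 258) (nat_lit 1) (.n (nat_lit 259) (nat_lit 3) (.p (nat_lit 260) (nat_lit 3) (.n (nat_lit 261) (nat_lit 3) (.p (nat_lit 262) (nat_lit 2) (.p (nat_lit 263) (nat_lit 2) (.n (nat_lit 264) (nat_lit 1) (.p (nat_lit 265) (nat_lit 3) (.p (nat_lit 266) (nat_lit 1) (.n (nat_lit 267) (nat_lit 1) (.n (nat_lit 269) (nat_lit 2) (.n (nat_lit 271) (nat_lit 2) (.n (nat_lit 273) (nat_lit 2) (.n (nat_lit 274) (nat_lit 2) (.n (nat_lit 275) (nat_lit 3) (.p (nat_lit 276) (nat_lit 2) (.p (nat_lit 277) (nat_lit 2) (.n (nat_lit 279) (nat_lit 1) (.p (nat_lit 282) (nat_lit 1) (.p (nat_lit 283) (nat_lit 2) (.n (nat_lit 285) (nat_lit 2) (.p (nat_lit 288) (nat_lit 1) .z))))))))))))))))))))))))))) (.ct dC2a_c292 (nat_lit 1) (nat_lit 2) (.s false (nat_lit 1) (nat_lit 16) (nat_lit 2) (nat_lit 6) (nat_lit 1) true (nat_lit 7) true (nat_lit 12) true (nat_lit 2) true (nat_lit 11) true (nat_lit 7) (.e true (nat_lit 1) (nat_lit 80) (nat_lit 6) (nat_lit 7) dC2a_i43))) .leaf))) (nat_lit 42001) (nat_lit 679) (.p (nat_lit 254) (nat_lit 3) (.p (nat_lit 255) (nat_lit 3) (.n (nat_lit 256) (nat_lit 1) (.p (nat_lit 257) (nat_lit 2) (.p (nat_lit 258) (nat_lit 1) (.n (nat_lit 259) (nat_lit 1) (.p (nat_lit 260) (nat_lit 1) (.n (nat_lit 261) (nat_lit 3) (.p (nat_lit 262) (nat_lit 3) (.p (nat_lit 263) (nat_lit 2) (.n (nat_lit 264) (nat_lit 1) (.n (nat_lit 265) (nat_lit 2) (.n (nat_lit 266) (nat_lit 1) (.p (nat_lit 267) (nat_lit 1) (.n (nat_lit 269) (nat_lit 1) (.n (nat_lit 270) (nat_lit 1) (.n (nat_lit 271) (nat_lit 1) (.p (nat_lit 272) (nat_lit 3) (.n (nat_lit 273) (nat_lit 1) (.p (nat_lit 274) (nat_lit 2) (.p (nat_lit 276) (nat_lit 1) (.p (nat_lit 277) (nat_lit 2) (.n (nat_lit 279) (nat_lit 1) (.p (nat_lit 282) (nat_lit 2) (.n (nat_lit 283) (nat_lit 2) (.p (nat_lit 284) (nat_lit 1) (.p (nat_lit 285) (nat_lit 3) (.n (nat_lit 286) (nat_lit 2) (.p (nat_lit 288) (nat_lit 1) .z))))))))))))))))))))))))))))) (.ct dC2a_c292 (nat_lit 1) (nat_lit 2) (.s false (nat_lit 1) (nat_lit 41) (nat_lit 2) (nat_lit 2) (nat_lit 0) true (nat_lit 8) true (nat_lit 13) false (nat_lit 2) true (nat_lit 11) true (nat_lit 11) (.e false (nat_lit 1) (nat_lit 93) (nat_lit 5) (nat_lit 8) (.e false (nat_lit 1) (nat_lit 187) (nat_lit 0) (nat_lit 13) (.e false (nat_lit 2) (nat_lit 133) (nat_lit 2) (nat_lit 11) (.e true (nat_lit 1) (nat_lit 134) (nat_lit 2) (nat_lit 11) (.e true (nat_lit 3) (nat_lit 135) (nat_lit 2) (nat_lit 11) (.e false (nat_lit 3) (nat_lit 138) (nat_lit 2) (nat_lit 11) (.e false (nat_lit 3) (nat_lit 139) (nat_lit 2) (nat_lit 11) (.e true (nat_lit 3) (nat_lit 140) (nat_lit 2) (nat_lit 11) (.e true (nat_lit 2) (nat_lit 141) (nat_lit 2) (nat_lit 11) (.e true (nat_lit 1) (nat_lit 143) (nat_lit 2) (nat_lit 11) (.e true (nat_lit 3) (nat_lit 144) (nat_lit 2) (nat_lit 11) (.e false (nat_lit 2) (nat_lit 145) (nat_lit 2) (nat_lit 11) (.e true (nat_lit 2) (nat_lit 147) (nat_lit 2) (nat_lit 11) (.e false (nat_lit 1) (nat_lit 150) (nat_lit 2) (nat_lit 11) (.e false (nat_lit 2) (nat_lit 155) (nat_lit 2) (nat_lit 11) (.e true (nat_lit 1) (nat_lit 156) (nat_lit 2) (nat_lit 11) (.e true (nat_lit 1) (nat_lit 136) (nat_lit 2) (nat_lit 11) (.u (nat_lit 2) (.n (nat_lit 2) (nat_lit 1) (.n (nat_lit 3) (nat_lit 1) (.p (nat_lit 7) (nat_lit 1) (.n (nat_lit 8) (nat_lit 1) (.p (nat_lit 13) (nat_lit 1) (.n (nat_lit 15) (nat_lit 1) (.n (nat_lit 22) (nat_lit 1) (.p (nat_lit 120) (nat_lit 1) (.n (nat_lit 123) (nat_lit 1) (.p (nat_lit 129) (nat_lit 1) .z)))))))))) .nil)))))))))))))))))))) (.nd (.nd (.nd (.nd .leaf (nat_lit 42002) (nat_lit 739) (.n (nat_lit 289) (nat_lit 3) (.n (nat_lit 290) (nat_lit 2) (.p (nat_lit 291) (nat_lit 1) (.n (nat_lit 292) (nat_lit 1) (.n (nat_lit 293) (nat_lit 3) (.n (nat_lit 294) (nat_lit 2) (.p (nat_lit 295) (nat_lit 1) (.p (nat_lit 297) (nat_lit 2) (.n (nat_lit 299) (nat_lit 1) (.p (nat_lit 301) (nat_lit 1) (.n (nat_lit 303) (nat_lit 2) (.p (nat_lit 304) (nat_lit 3) .z)))))))))))) (.ct dC2a_c52 (nat_lit 1) (nat_lit 1) (.s false (nat_lit 1) (nat_lit 41) (nat_lit 2) (nat_lit 1) (nat_lit 2) true (nat_lit 4) true (nat_lit 7) false (nat_lit 1) true (nat_lit 7) true (nat_lit 8) (.e true (nat_lit 1) (nat_lit 74) (nat_lit 7) (nat_lit 4) (.e true (nat_lit 1) (nat_lit 75) (nat_lit 7) (nat_lit 4) (.e true (nat_lit 2) (nat_lit 76) (nat_lit 7) (nat_lit 4) (.e false (nat_lit 2) (nat_lit 77) (nat_lit 7) (nat_lit 4) (.e false (nat_lit 3) (nat_lit 78) (nat_lit 7) (nat_lit 4) (.e true (nat_lit 2) (nat_lit 79) (nat_lit 7) (nat_lit 4) (.e false (nat_lit 1) (nat_lit 165) (nat_lit 2) (nat_lit 7) (.e true (nat_lit 1) (nat_lit 168) (nat_lit 2) (nat_lit 7) (.e true (nat_lit 1) (nat_lit 187) (nat_lit 1) (nat_lit 8) (.u (nat_lit 2) (.p (nat_lit 1) (nat_lit 2) (.n (nat_lit 2) (nat_lit 1) (.n (nat_lit 3) (nat_lit 2) (.p (nat_lit 4) (nat_lit 1) (.p (nat_lit 5) (nat_lit 1) (.p (nat_lit 8) (nat_lit 1) (.n (nat_lit 9) (nat_lit 1) (.n (nat_lit 14) (nat_lit 1) (.n (nat_lit 15) (nat_lit 2) .z))))))))) .nil)))))))))))) .leaf) (nat_lit 42003) (nat_lit 730) (.n (nat_lit 289) (nat_lit 1) (.n (nat_lit 290) (nat_lit 3) (.n (nat_lit 291) (nat_lit 2) (.n (nat_lit 292) (nat_lit 2) (.n (nat_lit 293) (nat_lit 2) (.n (nat_lit 294) (nat_lit 2) (.p (nat_lit 295) (nat_lit 3) (.n (nat_lit 296) (nat_lit 1) (.p (nat_lit 297) (nat_lit 1) (.p (nat_lit 298) (nat_lit 3) (.n (nat_lit 299) (nat_lit 1) (.n (nat_lit 300) (nat_lit 1) (.p (nat_lit 301) (nat_lit 3) (.p (nat_lit 304) (nat_lit 1) .z)))))))))))))) (.ct dC2a_c52 (nat_lit 1) (nat_lit 1) (.s true (nat_lit 1) (nat_lit 7) (nat_lit 1) (nat_lit 4) (nat_lit 7) true (nat_lit 1) true (nat_lit 4) true (nat_lit 4) true (nat_lit 8) true (nat_lit 6) (.s true (nat_lit 3) (nat_lit 19) (nat_lit 1) (nat_lit 1) (nat_lit 7) true (nat_lit 1) true (nat_lit 4) true (nat_lit 1) true (nat_lit 8) true (nat_lit 8) (.e false (nat_lit 1) (nat_lit 74) (nat_lit 7) (nat_lit 4) (.e false (nat_lit 1) (nat_lit 75) (nat_lit 7) (nat_lit 4) (.e false (nat_lit 2) (nat_lit 76) (nat_lit 7) (nat_lit 4) (.e false (nat_lit 1) (nat_lit 77) (nat_lit 7) (nat_lit 4) (.e true (nat_lit 1) (nat_lit 78) (nat_lit 7) (nat_lit 4) (.e true (nat_lit 3) (nat_lit 79) (nat_lit 7) (nat_lit 4) (.e false (nat_lit 3) (nat_lit 190) (nat_lit 1) (nat_lit 8) (.e true (nat_lit 3) (nat_lit 39) (nat_lit 19) (nat_lit 1) (.e true (nat_lit 2) (nat_lit 185) (nat_lit 1) (nat_lit 8) (.e true (nat_lit 3) (nat_lit 186) (nat_lit 1) (nat_lit 8) (.e false (nat_lit 2) (nat_lit 187) (nat_lit 1) (nat_lit 8) (.e true (nat_lit 2) (nat_lit 188) (nat_lit 1) (nat_lit 8) (.e true (nat_lit 1) (nat_lit 189) (nat_lit 1) (nat_lit 8) (.e true (nat_lit 2) (nat_lit 192) (nat_lit 1) (nat_lit 8) (.e false (nat_lit 3) (nat_lit 194) (nat_lit 1) (nat_lit 8) (.e false (nat_lit 1) (nat_lit 193) (nat_lit 1) (nat_lit 8) (.u (nat_lit 2) (.n (nat_lit 0) (nat_lit 2) (.p (nat_lit 1) (nat_lit 1) (.p (nat_lit 2) (nat_lit 1) (.p (nat_lit 3) (nat_lit 1) (.p (nat_lit 4) (nat_lit 1) (.p (nat_lit 5) (nat_lit 2) (.p (nat_lit 6) (nat_lit 2) (.p (nat_lit 8) (nat_lit 1) (.p (nat_lit 9) (nat_lit 1) (.n (nat_lit 11) (nat_lit 1) (.p (nat_lit 14) (nat_lit 2) (.n (nat_lit 15) (nat_lit 1) (.p (nat_lit 23) (nat_lit 1) (.p (nat_lit 34) (nat_lit 1) (.n (nat_lit 35) (nat_lit 1) (.n (nat_lit 36) (nat_lit 2) (.p (nat_lit 37) (nat_lit 1) (.n (nat_lit 59) (nat_lit 1) (.p (nat_lit 61) (nat_lit 1) (.n (nat_lit 62) (nat_lit 1) (.p (nat_lit 63) (nat_lit 1) (.n (nat_lit 64) (nat_lit 2) (.p (nat_lit 66) (nat_lit 2) (.n (nat_lit 67) (nat_lit 1) .z)))))))))))))))))))))))) .nil)))))))))))))))))))) .leaf) (nat_lit 42004) (nat_lit 846) (.n (nat_lit 324) (nat_lit 1) (.p (nat_lit 325) (nat_lit 1) (.n (nat_lit 326) (nat_lit 3) (.n (nat_lit 327) (nat_lit 3) (.p (nat_lit 328) (nat_lit 1) (.n (nat_lit 329) (nat_lit 1) (.n (nat_lit 331) (nat_lit 3) (.p (nat_lit 333) (nat_lit 1) (.p (nat_lit 334) (nat_lit 1) .z))))))))) (.ct dC2a_c37 (nat_lit 1) (nat_lit 0) (.s false (nat_lit 1) (nat_lit 20) (nat_lit 2) (nat_lit 6) (nat_lit 1) true (nat_lit 4) true (nat_lit 7) true (nat_lit 0) true (nat_lit 6) true (nat_lit 4) (.e false (nat_lit 1) (nat_lit 102) (nat_lit 6) (nat_lit 4) (.e false (nat_lit 1) (nat_lit 104) (nat_lit 6) (nat_lit 4) (.e false (nat_lit 1) (nat_lit 202) (nat_lit 1) (nat_lit 7) (.e true (nat_lit 1) (nat_lit 203) (nat_lit 1) (nat_lit 7) (.e false (nat_lit 1) (nat_lit 204) (nat_lit 1) (nat_lit 7) (.e false (nat_lit 1) (nat_lit 185) (nat_lit 2) (nat_lit 6) (.e true (nat_lit 2) (nat_lit 186) (nat_lit 2) (nat_lit 6) (.e true (nat_lit 2) (nat_lit 190) (nat_lit 2) (nat_lit 6) (.e false (nat_lit 1) (nat_lit 193) (nat_lit 2) (nat_lit 6) (.e false (nat_lit 1) (nat_lit 194) (nat_lit 2) (nat_lit 6) (.u (nat_lit 2) (.n (nat_lit 1) (nat_lit 1) .z) .nil))))))))))))) (.nd (.nd .leaf (nat_lit 42017) (nat_lit 987) (.p (nat_lit 335) (nat_lit 3) (.p (nat_lit 341) (nat_lit 3) (.p (nat_lit 342) (nat_lit 1) (.n (nat_lit 343) (nat_lit 3) (.n (nat_lit 344) (nat_lit 2) (.n (nat_lit 345) (nat_lit 1) (.p (nat_lit 346) (nat_lit 2) (.p (nat_lit 349) (nat_lit 1) (.n (nat_lit 350) (nat_lit 1) (.p (nat_lit 351) (nat_lit 3) (.n (nat_lit 352) (nat_lit 3) (.p (nat_lit 353) (nat_lit 2) (.p (nat_lit 354) (nat_lit 1) (.n (nat_lit 355) (nat_lit 1) (.n (nat_lit 356) (nat_lit 1) (.p (nat_lit 357) (nat_lit 1) (.n (nat_lit 358) (nat_lit 3) (.n (nat_lit 359) (nat_lit 1) (.n (nat_lit 361) (nat_lit 3) (.p (nat_lit 362) (nat_lit 3) (.n (nat_lit 363) (nat_lit 3) (.n (nat_lit 364) (nat_lit 2) (.n (nat_lit 366) (nat_lit 2) (.p (nat_lit 367) (nat_lit 1) (.p (nat_lit 368) (nat_lit 1) (.p (nat_lit 369) (nat_lit 2) (.p (nat_lit 370) (nat_lit 1) (.p (nat_lit 371) (nat_lit 3) (.n (nat_lit 373) (nat_lit 1) (.n (nat_lit 375) (nat_lit 3) (.n (nat_lit 379) (nat_lit 3) (.p (nat_lit 380) (nat_lit 1) (.p (nat_lit 381) (nat_lit 1) (.n (nat_lit 382) (nat_lit 3) (.n (nat_lit 383) (nat_lit 2) .z))))))))))))))))))))))))))))))))))) (.ct dC2a_c308 (nat_lit 1) (nat_lit 0) (.s false (nat_lit 2) (nat_lit 33) (nat_lit 1) (nat_lit 1) (nat_lit 7) true (nat_lit 5) true (nat_lit 11) true (nat_lit 0) true (nat_lit 17) true (nat_lit 17) (.s true (nat_lit 3) (nat_lit 33) (nat_lit 1) (nat_lit 7) (nat_lit 1) true (nat_lit 14) true (nat_lit 17) true (nat_lit 0) true (nat_lit 17) true (nat_lit 11) (.s true (nat_lit 3) (nat_lit 33) (nat_lit 2) (nat_lit 2) (nat_lit 4) true (nat_lit 7) true (nat_lit 14) true (nat_lit 0) true (nat_lit 16) true (nat_lit 16) (.s false (nat_lit 3) (nat_lit 33) (nat_lit 4) (nat_lit 2) (nat_lit 2) true (nat_lit 7) true (nat_lit 16) true (nat_lit 0) true (nat_lit 14) true (nat_lit 16) (.e true (nat_lit 2) (nat_lit 66) (nat_lit 19) (nat_lit 5) (.e true (nat_lit 1) (nat_lit 123) (nat_lit 7) (nat_lit 11) (.e false (nat_lit 1) (nat_lit 254) (nat_lit 1) (nat_lit 17) (.e false (nat_lit 1) (nat_lit 258) (nat_lit 1) (nat_lit 17) (.e false (nat_lit 3) (nat_lit 265) (nat_lit 1) (nat_lit 17) (.e true (nat_lit 2) (nat_lit 266) (nat_lit 1) (nat_lit 17) (.e false (nat_lit 1) (nat_lit 269) (nat_lit 1) (nat_lit 17) (.e true (nat_lit 1) (nat_lit 274) (nat_lit 1) (nat_lit 17) (.e false (nat_lit 1) (nat_lit 264) (nat_lit 1) (nat_lit 17) (.e true (nat_lit 1) (nat_lit 272) (nat_lit 1) (nat_lit 17) (.e true (nat_lit 1) (nat_lit 285) (nat_lit 1) (nat_lit 17) (.e true (nat_lit 3) (nat_lit 169) (nat_lit 4) (nat_lit 14) (.e false (nat_lit 1) (nat_lit 205) (nat_lit 2) (nat_lit 16) (.e true (nat_lit 2) (nat_lit 206) (nat_lit 2) (nat_lit 16) (.e false (nat_lit 2) (nat_lit 207) (nat_lit 2) (nat_lit 16) (.e true (nat_lit 1) (nat_lit 209) (nat_lit 2) (nat_lit 16) (.e false (nat_lit 1) (nat_lit 211) (nat_lit 2) (nat_lit 16) dC2a_i44)))))))))))))))))))))) .leaf) (nat_lit 42018) (nat_lit 993) (.n (nat_lit 335) (nat_lit 2) (.p (nat_lit 336) (nat_lit 2) (.n (nat_lit 337) (nat_lit 3) (.n (nat_lit 338) (nat_lit 1) (.n (nat_lit 339) (nat_lit 2) (.p (nat_lit 340) (nat_lit 1) (.p (nat_lit 341) (nat_lit 3) (.p (nat_lit 342) (nat_lit 1) (.n (nat_lit 343) (nat_lit 3) (.n (nat_lit 344) (nat_lit 2) (.n (nat_lit 345) (nat_lit 1) (.p (nat_lit 346) (nat_lit 1) (.p (nat_lit 347) (nat_lit 3) (.p (nat_lit 349) (nat_lit 3) (.p (nat_lit 350) (nat_lit 1) (.n (nat_lit 351) (nat_lit 3) (.n (nat_lit 352) (nat_lit 3) (.n (nat_lit 353) (nat_lit 1) (.n (nat_lit 354) (nat_lit 3) (.p (nat_lit 355) (nat_lit 2) (.p (nat_lit 356) (nat_lit 2) (.n (nat_lit 357) (nat_lit 2) (.p (nat_lit 358) (nat_lit 1) (.p (nat_lit 359) (nat_lit 1) (.n (nat_lit 360) (nat_lit 3) (.n (nat_lit 361) (nat_lit 3) (.p (nat_lit 362) (nat_lit 1) (.p (nat_lit 363) (nat_lit 1) (.p (nat_lit 364) (nat_lit 2) (.n (nat_lit 366) (nat_lit 3) (.n (nat_lit 367) (nat_lit 1) (.n (nat_lit 368) (nat_lit 1) (.n (nat_lit 369) (nat_lit 3) (.n (nat_lit 370) (nat_lit 1) (.n (nat_lit 371) (nat_lit 3) (.p (nat_lit 373) (nat_lit 1) (.p (nat_lit 374) (nat_lit 1) (.p (nat_lit 376) (nat_lit 1) (.n (nat_lit 380) (nat_lit 3) (.n (nat_lit 381) (nat_lit 2) (.n (nat_lit 382) (nat_lit 1) (.n (nat_lit 383) (nat_lit 3) (.n (nat_lit 388) (nat_lit 1) .z))))))))))))))))))))))))))))))))))))))))))) (.ct dC2a_c308 (nat_lit 1) (nat_lit 0) (.s true (nat_lit 2) (nat_lit 34) (nat_lit 1) (nat_lit 1) (nat_lit 7) true (nat_lit 5) true (nat_lit 11) true (nat_lit 0) true (nat_lit 17) true (nat_lit 17) (.s true (nat_lit 3) (nat_lit 34) (nat_lit 1) (nat_lit 7) (nat_lit 1) true (nat_lit 14) true (nat_lit 17) true (nat_lit 0) true (nat_lit 17) true (nat_lit 11) (.s false (nat_lit 3) (nat_lit 34) (nat_lit 4) (nat_lit 2) (nat_lit 2) true (nat_lit 7) true (nat_lit 16) true (nat_lit 0) true (nat_lit 14) true (nat_lit 16) (.e false (nat_lit 2) (nat_lit 67) (nat_lit 19) (nat_lit 5) (.e false (nat_lit 2) (nat_lit 124) (nat_lit 7) (nat_lit 11) dC2a_i46)))))) .leaf)) (nat_lit 42019) (nat_lit 1099) (.p (nat_lit 336) (nat_lit 1) (.p (nat_lit 337) (nat_lit 2) (.p (nat_lit 338) (nat_lit 1) (.p (nat_lit 339) (nat_lit 2) (.n (nat_lit 341) (nat_lit 2) (.p (nat_lit 342) (nat_lit 2) (.n (nat_lit 343) (nat_lit 1) (.n (nat_lit 344) (nat_lit 3) (.p (nat_lit 345) (nat_lit 2) (.n (nat_lit 347) (nat_lit 1) (.n (nat_lit 349) (nat_lit 3) (.n (nat_lit 350) (nat_lit 3) (.p (nat_lit 351) (nat_lit 1) (.n (nat_lit 352) (nat_lit 1) (.n (nat_lit 353) (nat_lit 3) (.n (nat_lit 354) (nat_lit 2) (.p (nat_lit 356) (nat_lit 2) (.n (nat_lit 357) (nat_lit 2) (.p (nat_lit 358) (nat_lit 3) (.p (nat_lit 359) (nat_lit 2) (.n (nat_lit 360) (nat_lit 2) (.p (nat_lit 361) (nat_lit 1) (.p (nat_lit 362) (nat_lit 1) (.n (nat_lit 363) (nat_lit 1) (.n (nat_lit 364) (nat_lit 3) (.n (nat_lit 366) (nat_lit 2) (.n (nat_lit 367) (nat_lit 2) (.p (nat_lit 368) (nat_lit 1) (.p (nat_lit 369) (nat_lit 1) (.p (nat_lit 371) (nat_lit 3) (.p (nat_lit 372) (nat_lit 3) (.n (nat_lit 373) (nat_lit 1) (.p (nat_lit 374) (nat_lit 1) (.n (nat_lit 375) (nat_lit 3) (.p (nat_lit 376) (nat_lit 1) (.n (nat_lit 379) (nat_lit 3) (.p (nat_lit 380) (nat_lit 1) (.p (nat_lit 381) (nat_lit 1) (.p (nat_lit 382) (nat_lit 3) (.p (nat_lit 383) (nat_lit 2) (.n (nat_lit 388) (nat_lit 1) .z))))))))))))))))))))))))))))))))))))))))) (.ct dC2a_c308 (nat_lit 1) (nat_lit 0) (.s true (nat_lit 2) (nat_lit 35) (nat_lit 1) (nat_lit 1) (nat_lit 7) true (nat_lit 5) true (nat_lit 11) true (nat_lit 0) true (nat_lit 17) true (nat_lit 17) (.s true (nat_lit 3) (nat_lit 35) (nat_lit 1) (nat_lit 7) (nat_lit 1) true (nat_lit 14) true (nat_lit 17) true (nat_lit 0) true (nat_lit 17) true (nat_lit 11) (.e false (nat_lit 2) (nat_lit 68) (nat_lit 19) (nat_lit 5) (.e false (nat_lit 2) (nat_lit 106) (nat_lit 7) (nat_lit 11) (.e true (nat_lit 2) (nat_lit 107) (nat_lit 7) (nat_lit 11) dC2a_i48)))))) (.nd (.nd (.nd .leaf (nat_lit 42020) (nat_lit 1112) (.p (nat_lit 335) (nat_lit 1) (.p (nat_lit 336) (nat_lit 1) (.p (nat_lit 337) (nat_lit 2) (.n (nat_lit 338) (nat_lit 3) (.p (nat_lit 339) (nat_lit 1) (.p (nat_lit 340) (nat_lit 3) (.p (nat_lit 341) (nat_lit 2) (.n (nat_lit 342) (nat_lit 3) (.p (nat_lit 343) (nat_lit 3) (.n (nat_lit 344) (nat_lit 1) (.p (nat_lit 345) (nat_lit 3) (.n (nat_lit 347) (nat_lit 3) (.p (nat_lit 349) (nat_lit 3) (.n (nat_lit 351) (nat_lit 2) (.n (nat_lit 352) (nat_lit 1) (.p (nat_lit 354) (nat_lit 2) (.p (nat_lit 355) (nat_lit 1) (.p (nat_lit 356) (nat_lit 1) (.n (nat_lit 357) (nat_lit 1) (.p (nat_lit 358) (nat_lit 2) (.n (nat_lit 359) (nat_lit 1) (.n (nat_lit 360) (nat_lit 3) (.p (nat_lit 361) (nat_lit 3) (.p (nat_lit 362) (nat_lit 3) (.n (nat_lit 364) (nat_lit 1) (.n (nat_lit 366) (nat_lit 1) (.n (nat_lit 367) (nat_lit 3) (.p (nat_lit 368) (nat_lit 2) (.p (nat_lit 369) (nat_lit 3) (.p (nat_lit 370) (nat_lit 2) (.n (nat_lit 371) (nat_lit 3) (.p (nat_lit 372) (nat_lit 3) (.n (nat_lit 373) (nat_lit 2) (.n (nat_lit 374) (nat_lit 1) (.p (nat_lit 375) (nat_lit 3) (.p (nat_lit 377) (nat_lit 1) (.n (nat_lit 379) (nat_lit 3) (.p (nat_lit 380) (nat_lit 1) (.p (nat_lit 381) (nat_lit 1) (.n (nat_lit 382) (nat_lit 3) (.n (nat_lit 383) (nat_lit 2) (.p (nat_lit 389) (nat_lit 1) .z)))))))))))))))))))))))))))))))))))))))))) (.ct dC2a_c308 (nat_lit 1) (nat_lit 0) (.s true (nat_lit 3) (nat_lit 7) (nat_lit 4) (nat_lit 3) (nat_lit 7) false (nat_lit 0) true (nat_lit 11) true (nat_lit 11) true (nat_lit 14) true (nat_lit 15) (.e true (nat_lit 1) (nat_lit 40) (nat_lit 34) (nat_lit 0) (.e false (nat_lit 1) (nat_lit 41) (nat_lit 34) (nat_lit 0) (.e false (nat_lit 1) (nat_lit 40) (nat_lit 35) (nat_lit 0) (.e true (nat_lit 1) (nat_lit 41) (nat_lit 35) (nat_lit 0) (.e false (nat_lit 1) (nat_lit 40) (nat_lit 36) (nat_lit 0) (.e false (nat_lit 1) (nat_lit 40) (nat_lit 38) (nat_lit 0) (.e true (nat_lit 1) (nat_lit 41) (nat_lit 38) (nat_lit 0) (.e true (nat_lit 1) (nat_lit 109) (nat_lit 7) (nat_lit 11) (.e false (nat_lit 1) (nat_lit 119) (nat_lit 7) (nat_lit 11) (.e true (nat_lit 1) (nat_lit 123) (nat_lit 7) (nat_lit 11) (.e true (nat_lit 1) (nat_lit 127) (nat_lit 7) (nat_lit 11) (.e false (nat_lit 1) (nat_lit 106) (nat_lit 7) (nat_lit 11) (.e false (nat_lit 1) (nat_lit 116) (nat_lit 7) (nat_lit 11) (.e false (nat_lit 3) (nat_lit 129) (nat_lit 7) (nat_lit 11) (.e false (nat_lit 3) (nat_lit 130) (nat_lit 7) (nat_lit 11) (.e false (nat_lit 1) (nat_lit 177) (nat_lit 4) (nat_lit 14) (.u (nat_lit 2) (.n (nat_lit 4) (nat_lit 2) (.p (nat_lit 5) (nat_lit 2) (.n (nat_lit 6) (nat_lit 1) (.p (nat_lit 7) (nat_lit 4) (.n (nat_lit 8) (nat_lit 4) (.p (nat_lit 12) (nat_lit 2) (.p (nat_lit 14) (nat_lit 2) (.p (nat_lit 15) (nat_lit 1) (.p (nat_lit 16) (nat_lit 3) (.p (nat_lit 18) (nat_lit 2) (.p (nat_lit 20) (nat_lit 1) (.p (nat_lit 21) (nat_lit 2) (.n (nat_lit 22) (nat_lit 2) (.p (nat_lit 24) (nat_lit 1) (.p (nat_lit 25) (nat_lit 2) (.p (nat_lit 27) (nat_lit 3) (.p (nat_lit 28) (nat_lit 1) (.n (nat_lit 31) (nat_lit 1) (.p (nat_lit 32) (nat_lit 2) (.n (nat_lit 33) (nat_lit 1) (.n (nat_lit 35) (nat_lit 3) (.p (nat_lit 38) (nat_lit 1) (.p (nat_lit 39) (nat_lit 2) (.n (nat_lit 40) (nat_lit 1) (.p (nat_lit 44) (nat_lit 2) (.n (nat_lit 45) (nat_lit 1) (.p (nat_lit 46) (nat_lit 2) (.p (nat_lit 47) (nat_lit 2) (.p (nat_lit 48) (nat_lit 2) (.p (nat_lit 66) (nat_lit 1) (.n (nat_lit 67) (nat_lit 1) (.n (nat_lit 69) (nat_lit 1) (.p (nat_lit 70) (nat_lit 1) (.n (nat_lit 72) (nat_lit 1) (.p (nat_lit 73) (nat_lit 1) (.n (nat_lit 78) (nat_lit 1) (.p (nat_lit 79) (nat_lit 1) (.n (nat_lit 213) (nat_lit 1) (.p (nat_lit 216) (nat_lit 1) (.n (nat_lit 223) (nat_lit 1) (.p (nat_lit 226) (nat_lit 5) (.n (nat_lit 230) (nat_lit 5) (.n (nat_lit 234) (nat_lit 5) (.n (nat_lit 284) (nat_lit 1) .z)))))))))))))))))))))))))))))))))))))))))))) .nil))))))))))))))))))) .leaf) (nat_lit 42021) (nat_lit 1116) (.n (nat_lit 335) (nat_lit 3) (.n (nat_lit 336) (nat_lit 1) (.n (nat_lit 337) (nat_lit 2) (.p (nat_lit 338) (nat_lit 2) (.n (nat_lit 339) (nat_lit 3) (.n (nat_lit 340) (nat_lit 2) (.n (nat_lit 341) (nat_lit 3) (.p (nat_lit 343) (nat_lit 1) (.n (nat_lit 344) (nat_lit 3) (.p (nat_lit 345) (nat_lit 2) (.p (nat_lit 346) (nat_lit 3) (.n (nat_lit 347) (nat_lit 2) (.p (nat_lit 349) (nat_lit 1) (.p (nat_lit 350) (nat_lit 3) (.p (nat_lit 351) (nat_lit 1) (.n (nat_lit 352) (nat_lit 1) (.p (nat_lit 353) (nat_lit 2) (.n (nat_lit 354) (nat_lit 2) (.p (nat_lit 355) (nat_lit 1) (.n (nat_lit 356) (nat_lit 3) (.p (nat_lit 357) (nat_lit 3) (.n (nat_lit 358) (nat_lit 1) (.p (nat_lit 360) (nat_lit 3) (.p (nat_lit 361) (nat_lit 1) (.n (nat_lit 363) (nat_lit 3) (.p (nat_lit 364) (nat_lit 2) (.p (nat_lit 366) (nat_lit 3) (.n (nat_lit 367) (nat_lit 1) (.p (nat_lit 368) (nat_lit 1) (.n (nat_lit 369) (nat_lit 1) (.n (nat_lit 371) (nat_lit 3) (.n (nat_lit 372) (nat_lit 3) (.n (nat_lit 373) (nat_lit 1) (.n (nat_lit 374) (nat_lit 2) (.n (nat_lit 375) (nat_lit 1) (.p (nat_lit 377) (nat_lit 2) (.p (nat_lit 379) (nat_lit 1) (.p (nat_lit 380) (nat_lit 2) (.p (nat_lit 381) (nat_lit 2) (.n (nat_lit 382) (nat_lit 2) (.p (nat_lit 383) (nat_lit 1) (.p (nat_lit 389) (nat_lit 2) .z)))))))))))))))))))))))))))))))))))))))))) (.ct dC2a_c308 (nat_lit 1) (nat_lit 0) (.s true (nat_lit 1) (nat_lit 18) (nat_lit 0) (nat_lit 1) (nat_lit 19) true (nat_lit 0) true (nat_lit 5) true (nat_lit 5) true (nat_lit 18) true (nat_lit 17) (.e false (nat_lit 2) (nat_lit 41) (nat_lit 33) (nat_lit 0) (.e true (nat_lit 1) (nat_lit 41) (nat_lit 34) (nat_lit 0) (.e false (nat_lit 1) (nat_lit 41) (nat_lit 35) (nat_lit 0) (.e true (nat_lit 1) (nat_lit 41) (nat_lit 36) (nat_lit 0) (.e true (nat_lit 1) (nat_lit 41) (nat_lit 38) (nat_lit 0) (.e true (nat_lit 1) (nat_lit 69) (nat_lit 19) (nat_lit 5) (.e true (nat_lit 1) (nat_lit 60) (nat_lit 18) (nat_lit 5) (.e true (nat_lit 1) (nat_lit 61) (nat_lit 18) (nat_lit 5) (.e true (nat_lit 1) (nat_lit 62) (nat_lit 18) (nat_lit 5) (.e false (nat_lit 1) (nat_lit 63) (nat_lit 18) (nat_lit 5) dC2a_i50)))))))))))) .leaf) (nat_lit 42022) (nat_lit 1108) (.n (nat_lit 336) (nat_lit 1) (.n (nat_lit 337) (nat_lit 2) (.p (nat_lit 338) (nat_lit 3) (.n (nat_lit 339) (nat_lit 1) (.p (nat_lit 342) (nat_lit 2) (.p (nat_lit 343) (nat_lit 3) (.n (nat_lit 344) (nat_lit 1) (.p (nat_lit 345) (nat_lit 2) (.n (nat_lit 346) (nat_lit 3) (.n (nat_lit 349) (nat_lit 3) (.n (nat_lit 350) (nat_lit 3) (.p (nat_lit 351) (nat_lit 2) (.n (nat_lit 352) (nat_lit 3) (.n (nat_lit 353) (nat_lit 3) (.p (nat_lit 354) (nat_lit 2) (.n (nat_lit 355) (nat_lit 3) (.n (nat_lit 356) (nat_lit 2) (.p (nat_lit 357) (nat_lit 2) (.n (nat_lit 358) (nat_lit 1) (.n (nat_lit 359) (nat_lit 3) (.n (nat_lit 360) (nat_lit 1) (.p (nat_lit 361) (nat_lit 1) (.p (nat_lit 362) (nat_lit 1) (.n (nat_lit 363) (nat_lit 1) (.p (nat_lit 368) (nat_lit 1) (.p (nat_lit 369) (nat_lit 2) (.p (nat_lit 370) (nat_lit 3) (.n (nat_lit 371) (nat_lit 3) (.p (nat_lit 372) (nat_lit 2) (.n (nat_lit 373) (nat_lit 1) (.p (nat_lit 374) (nat_lit 3) (.p (nat_lit 375) (nat_lit 1) (.n (nat_lit 377) (nat_lit 1) (.n (nat_lit 380) (nat_lit 1) (.n (nat_lit 381) (nat_lit 3) (.n (nat_lit 382) (nat_lit 3) (.n (nat_lit 383) (nat_lit 2) (.n (nat_lit 389) (nat_lit 1) .z)))))))))))))))))))))))))))))))))))))) (.ct dC2a_c308 (nat_lit 1) (nat_lit 0) (.s false (nat_lit 2) (nat_lit 19) (nat_lit 0) (nat_lit 1) (nat_lit 18) true (nat_lit 0) true (nat_lit 5) true (nat_lit 5) true (nat_lit 18) true (nat_lit 17) (.s true (nat_lit 3) (nat_lit 18) (nat_lit 1) (nat_lit 0) (nat_lit 18) false (nat_lit 0) true (nat_lit 5) true (nat_lit 5) true (nat_lit 17) true (nat_lit 18) (.s true (nat_lit 2) (nat_lit 39) (nat_lit 0) (nat_lit 7) (nat_lit 1) true (nat_lit 15) true (nat_lit 17) false (nat_lit 0) true (nat_lit 18) true (nat_lit 11) (.s false (nat_lit 2) (nat_lit 39) (nat_lit 2) (nat_lit 1) (nat_lit 5) true (nat_lit 6) true (nat_lit 13) false (nat_lit 0) true (nat_lit 16) true (nat_lit 17) (.s false (nat_lit 2) (nat_lit 46) (nat_lit 1) (nat_lit 1) (nat_lit 5) true (nat_lit 8) true (nat_lit 13) false (nat_lit 2) true (nat_lit 17) true (nat_lit 17) (.s false (nat_lit 1) (nat_lit 46) (nat_lit 5) (nat_lit 1) (nat_lit 1) true (nat_lit 8) true (nat_lit 17) false (nat_lit 2) true (nat_lit 13) true (nat_lit 17) (.s false (nat_lit 2) (nat_lit 77) (nat_lit 2) (nat_lit 0) (nat_lit 2) true (nat_lit 11) true (nat_lit 16) false (nat_lit 6) true (nat_lit 16) true (nat_lit 18) (.e false (nat_lit 2) (nat_lit 40) (nat_lit 38) (nat_lit 0) (.e false (nat_lit 3) (nat_lit 66) (nat_lit 18) (nat_lit 5) (.e false (nat_lit 2) (nat_lit 67) (nat_lit 18) (nat_lit 5) (.e true (nat_lit 2) (nat_lit 68) (nat_lit 18) (nat_lit 5) (.e false (nat_lit 2) (nat_lit 60) (nat_lit 18) (nat_lit 5) dC2a_i54))))))))))))) (.nd .leaf (nat_lit 43009) (nat_lit 121) (.p (nat_lit 86) (nat_lit 1) .z) .df .leaf)))) (nat_lit 43010) (nat_lit 146) (.p (nat_lit 97) (nat_lit 1) .z) .df (.nd (.nd (.nd (.nd (.nd .leaf (nat_lit 43012) (nat_lit 273) (.p (nat_lit 132) (nat_lit 3) (.n (nat_lit 133) (nat_lit 3) (.p (nat_lit 134) (nat_lit 3) (.p (nat_lit 135) (nat_lit 1) (.n (nat_lit 136) (nat_lit 3) (.p (nat_lit 137) (nat_lit 1) (.n (nat_lit 138) (nat_lit 2) (.p (nat_lit 139) (nat_lit 3) (.n (nat_lit 140) (nat_lit 3) (.n (nat_lit 141) (nat_lit 1) (.n (nat_lit 143) (nat_lit 3) (.p (nat_lit 145) (nat_lit 2) (.n (nat_lit 147) (nat_lit 1) (.n (nat_lit 149) (nat_lit 2) (.n (nat_lit 150) (nat_lit 3) (.p (nat_lit 151) (nat_lit 2) (.p (nat_lit 152) (nat_lit 3) (.p (nat_lit 153) (nat_lit 2) (.p (nat_lit 154) (nat_lit 1) (.n (nat_lit 155) (nat_lit 2) (.p (nat_lit 156) (nat_lit 3) (.n (nat_lit 157) (nat_lit 2) .z)))))))))))))))))))))) (.ct dC2a_c291 (nat_lit 1) (nat_lit 6) (.s true (nat_lit 1) (nat_lit 16) (nat_lit 1) (nat_lit 2) (nat_lit 1) true (nat_lit 6) true (nat_lit 9) false (nat_lit 0) true (nat_lit 9) true (nat_lit 8) (.e true (nat_lit 1) (nat_lit 83) (nat_lit 1) (nat_lit 9) (.e false (nat_lit 1) (nat_lit 16) (nat_lit 15) (nat_lit 0) (.e false (nat_lit 1) (nat_lit 80) (nat_lit 1) (nat_lit 9) (.e true (nat_lit 1) (nat_lit 81) (nat_lit 1) (nat_lit 9) (.e true (nat_lit 1) (nat_lit 84) (nat_lit 1) (nat_lit 9) (.e true (nat_lit 2) (nat_lit 85) (nat_lit 1) (nat_lit 9) (.e true (nat_lit 1) (nat_lit 87) (nat_lit 1) (nat_lit 9) (.e false (nat_lit 1) (nat_lit 90) (nat_lit 1) (nat_lit 9) (.e false (nat_lit 1) (nat_lit 60) (nat_lit 2) (nat_lit 8) (.e false (nat_lit 1) (nat_lit 61) (nat_lit 2) (nat_lit 8) (.e true (nat_lit 1) (nat_lit 62) (nat_lit 2) (nat_lit 8) (.e true (nat_lit 1) (nat_lit 63) (nat_lit 2) (nat_lit 8) (.e false (nat_lit 1) (nat_lit 65) (nat_lit 2) (nat_lit 8) (.e false (nat_lit 1) (nat_lit 66) (nat_lit 2) (nat_lit 8) (.e false (nat_lit 1) (nat_lit 67) (nat_lit 2) (nat_lit 8) (.e true (nat_lit 1) (nat_lit 68) (nat_lit 2) (nat_lit 8) (.e true (nat_lit 1) (nat_lit 69) (nat_lit 2) (nat_lit 8) (.e true (nat_lit 1) (nat_lit 72) (nat_lit 2) (nat_lit 8) (.e false (nat_lit 1) (nat_lit 73) (nat_lit 2) (nat_lit 8) (.u (nat_lit 2) (.p (nat_lit 0) (nat_lit 1) (.p (nat_lit 1) (nat_lit 1) (.n (nat_lit 2) (nat_lit 1) (.p (nat_lit 4) (nat_lit 2) (.p (nat_lit 9) (nat_lit 1) (.p (nat_lit 15) (nat_lit 1) (.n (nat_lit 17) (nat_lit 1) (.p (nat_lit 18) (nat_lit 2) (.p (nat_lit 19) (nat_lit 1) (.p (nat_lit 20) (nat_lit 1) (.p (nat_lit 21) (nat_lit 1) (.n (nat_lit 24) (nat_lit 2) (.n (nat_lit 25) (nat_lit 1) .z))))))))))))) .nil)))))))))))))))))))))) .leaf) (nat_lit 43014) (nat_lit 331) (.p (nat_lit 184) (nat_lit 1) .z) .df .leaf) (nat_lit 43015) (nat_lit 387) (.p (nat_lit 196) (nat_lit 1) (.p (nat_lit 197) (nat_lit 2) (.n (nat_lit 198) (nat_lit 1) (.p (nat_lit 199) (nat_lit 1) .z)))) (.ct dC2a_c261 (nat_lit 1) (nat_lit 1) (.s true (nat_lit 1) (nat_lit 7) (nat_lit 5) (nat_lit 2) (nat_lit 2) true (nat_lit 0) true (nat_lit 3) true (nat_lit 1) true (nat_lit 2) true (nat_lit 3) (.e true (nat_lit 1) (nat_lit 20) (nat_lit 16) (nat_lit 0) (.e false (nat_lit 1) (nat_lit 100) (nat_lit 2) (nat_lit 3) .nil)))) (.nd (.nd .leaf (nat_lit 43018) (nat_lit 539) (.p (nat_lit 205) (nat_lit 2) (.n (nat_lit 206) (nat_lit 3) (.n (nat_lit 207) (nat_lit 1) (.n (nat_lit 208) (nat_lit 1) (.p (nat_lit 209) (nat_lit 1) (.p (nat_lit 212) (nat_lit 2) (.n (nat_lit 214) (nat_lit 2) (.n (nat_lit 215) (nat_lit 2) (.n (nat_lit 216) (nat_lit 3) (.n (nat_lit 217) (nat_lit 2) (.n (nat_lit 219) (nat_lit 3) (.p (nat_lit 221) (nat_lit 3) (.n (nat_lit 225) (nat_lit 1) (.p (nat_lit 227) (nat_lit 3) (.p (nat_lit 228) (nat_lit 3) (.n (nat_lit 229) (nat_lit 1) (.n (nat_lit 230) (nat_lit 1) (.n (nat_lit 231) (nat_lit 2) (.n (nat_lit 232) (nat_lit 1) (.n (nat_lit 242) (nat_lit 3) (.n (nat_lit 243) (nat_lit 1) (.p (nat_lit 245) (nat_lit 3) (.p (nat_lit 246) (nat_lit 2) (.n (nat_lit 247) (nat_lit 2) (.n (nat_lit 248) (nat_lit 2) (.p (nat_lit 249) (nat_lit 3) .z)))))))))))))))))))))))))) (.ct dC2a_c307 (nat_lit 1) (nat_lit 5) dC2a_i55) .leaf) (nat_lit 43022) (nat_lit 662) (.n (nat_lit 252) (nat_lit 2) (.p (nat_lit 253) (nat_lit 3) (.n (nat_lit 254) (nat_lit 1) (.p (nat_lit 255) (nat_lit 1) (.n (nat_lit 256) (nat_lit 3) (.n (nat_lit 257) (nat_lit 2) (.n (nat_lit 258) (nat_lit 3) (.n (nat_lit 261) (nat_lit 3) (.p (nat_lit 263) (nat_lit 3) (.n (nat_lit 264) (nat_lit 3) (.n (nat_lit 265) (nat_lit 3) (.p (nat_lit 266) (nat_lit 2) (.n (nat_lit 267) (nat_lit 2) (.n (nat_lit 269) (nat_lit 2) (.p (nat_lit 270) (nat_lit 1) (.p (nat_lit 271) (nat_lit 1) (.n (nat_lit 272) (nat_lit 2) (.p (nat_lit 273) (nat_lit 1) (.n (nat_lit 274) (nat_lit 3) (.p (nat_lit 275) (nat_lit 2) (.n (nat_lit 276) (nat_lit 3) (.n (nat_lit 277) (nat_lit 1) (.n (nat_lit 282) (nat_lit 2) (.p (nat_lit 283) (nat_lit 3) (.n (nat_lit 285) (nat_lit 3) (.p (nat_lit 286) (nat_lit 1) .z)))))))))))))))))))))))))) (.ct dC2a_c292 (nat_lit 1) (nat_lit 3) (.s false (nat_lit 1) (nat_lit 42) (nat_lit 1) (nat_lit 1) (nat_lit 2) true (nat_lit 7) true (nat_lit 11) false (nat_lit 3) true (nat_lit 12) true (nat_lit 12) (.e false (nat_lit 1) (nat_lit 86) (nat_lit 6) (nat_lit 7) (.e true (nat_lit 1) (nat_lit 132) (nat_lit 2) (nat_lit 11) (.e false (nat_lit 1) (nat_lit 134) (nat_lit 2) (nat_lit 11) (.e false (nat_lit 2) (nat_lit 135) (nat_lit 2) (nat_lit 11) (.e false (nat_lit 2) (nat_lit 136) (nat_lit 2) (nat_lit 11) (.e false (nat_lit 1) (nat_lit 137) (nat_lit 2) (nat_lit 11) (.e true (nat_lit 3) (nat_lit 141) (nat_lit 2) (nat_lit 11) (.e false (nat_lit 3) (nat_lit 144) (nat_lit 2) (nat_lit 11) (.e false (nat_lit 2) (nat_lit 145) (nat_lit 2) (nat_lit 11) (.e true (nat_lit 1) (nat_lit 147) (nat_lit 2) (nat_lit 11) (.e false (nat_lit 3) (nat_lit 149) (nat_lit 2) (nat_lit 11) (.e true (nat_lit 3) (nat_lit 150) (nat_lit 2) (nat_lit 11) (.e true (nat_lit 3) (nat_lit 151) (nat_lit 2) (nat_lit 11) (.e false (nat_lit 3) (nat_lit 152) (nat_lit 2) (nat_lit 11) (.e true (nat_lit 3) (nat_lit 153) (nat_lit 2) (nat_lit 11) (.e true (nat_lit 2) (nat_lit 154) (nat_lit 2) (nat_lit 11) (.e true (nat_lit 2) (nat_lit 155) (nat_lit 2) (nat_lit 11) (.e false (nat_lit 2) (nat_lit 156) (nat_lit 2) (nat_lit 11) (.e false (nat_lit 3) (nat_lit 157) (nat_lit 2) (nat_lit 11) (.e true (nat_lit 1) (nat_lit 184) (nat_lit 1) (nat_lit 12) (.e true (nat_lit 1) (nat_lit 180) (nat_lit 1) (nat_lit 12) (.u (nat_lit 2) (.n (nat_lit 1) (nat_lit 1) (.p (nat_lit 4) (nat_lit 1) (.p (nat_lit 12) (nat_lit 1) (.p (nat_lit 13) (nat_lit 1) (.n (nat_lit 18) (nat_lit 1) (.p (nat_lit 20) (nat_lit 1) (.n (nat_lit 23) (nat_lit 1) (.p (nat_lit 24) (nat_lit 1) (.n (nat_lit 31) (nat_lit 1) (.p (nat_lit 33) (nat_lit 1) .z)))))))))) .nil)))))))))))))))))))))))) .leaf)) (nat_lit 43023) (nat_lit 643) (.n (nat_lit 252) (nat_lit 1) (.p (nat_lit 253) (nat_lit 2) (.p (nat_lit 254) (nat_lit 2) (.p (nat_lit 255) (nat_lit 1) (.n (nat_lit 256) (nat_lit 3) (.p (nat_lit 257) (nat_lit 3) (.p (nat_lit 258) (nat_lit 2) (.n (nat_lit 259) (nat_lit 3) (.p (nat_lit 260) (nat_lit 3) (.p (nat_lit 261) (nat_lit 2) (.p (nat_lit 262) (nat_lit 1) (.p (nat_lit 263) (nat_lit 3) (.n (nat_lit 264) (nat_lit 1) (.n (nat_lit 265) (nat_lit 2) (.n (nat_lit 267) (nat_lit 1) (.n (nat_lit 269) (nat_lit 1) (.p (nat_lit 271) (nat_lit 1) (.n (nat_lit 272) (nat_lit 3) (.p (nat_lit 273) (nat_lit 1) (.p (nat_lit 274) (nat_lit 3) (.n (nat_lit 275) (nat_lit 1) (.n (nat_lit 277) (nat_lit 1) (.n (nat_lit 279) (nat_lit 1) (.p (nat_lit 282) (nat_lit 1) (.n (nat_lit 283) (nat_lit 3) (.p (nat_lit 285) (nat_lit 3) (.p (nat_lit 288) (nat_lit 1) .z))))))))))))))))))))))))))) (.ct dC2a_c292 (nat_lit 1) (nat_lit 3) (.s false (nat_lit 1) (nat_lit 42) (nat_lit 2) (nat_lit 1) (nat_lit 1) true (nat_lit 7) true (nat_lit 12) false (nat_lit 3) true (nat_lit 11) true (nat_lit 12) (.e false (nat_lit 1) (nat_lit 86) (nat_lit 6) (nat_lit 7) dC2a_i56))) (.nd (.nd (.nd .leaf (nat_lit 43026) (nat_lit 796) (.p (nat_lit 305) (nat_lit 2) (.n (nat_lit 306) (nat_lit 2) (.n (nat_lit 307) (nat_lit 1) (.n (nat_lit 308) (nat_lit 2) (.n (nat_lit 309) (nat_lit 2) (.n (nat_lit 310) (nat_lit 1) (.p (nat_lit 311) (nat_lit 3) (.p (nat_lit 312) (nat_lit 2) (.n (nat_lit 313) (nat_lit 2) (.p (nat_lit 314) (nat_lit 1) (.p (nat_lit 315) (nat_lit 1) (.p (nat_lit 317) (nat_lit 1) (.n (nat_lit 319) (nat_lit 1) (.p (nat_lit 322) (nat_lit 1) .z)))))))))))))) (.ct dC2a_c277 (nat_lit 1) (nat_lit 1) (.s false (nat_lit 1) (nat_lit 42) (nat_lit 2) (nat_lit 1) (nat_lit 2) true (nat_lit 4) true (nat_lit 8) false (nat_lit 1) true (nat_lit 8) true (nat_lit 9) (.e false (nat_lit 1) (nat_lit 86) (nat_lit 7) (nat_lit 4) (.e false (nat_lit 1) (nat_lit 180) (nat_lit 2) (nat_lit 8) (.e true (nat_lit 1) (nat_lit 184) (nat_lit 2) (nat_lit 8) (.e true (nat_lit 1) (nat_lit 195) (nat_lit 1) (nat_lit 9) (.u (nat_lit 2) (.n (nat_lit 0) (nat_lit 1) (.p (nat_lit 3) (nat_lit 1) (.p (nat_lit 4) (nat_lit 1) (.p (nat_lit 5) (nat_lit 1) (.n (nat_lit 6) (nat_lit 1) (.n (nat_lit 7) (nat_lit 1) (.p (nat_lit 8) (nat_lit 1) (.n (nat_lit 10) (nat_lit 1) .z)))))))) .nil))))))) .leaf) (nat_lit 43027) (nat_lit 804) (.p (nat_lit 305) (nat_lit 1) (.n (nat_lit 306) (nat_lit 2) (.n (nat_lit 307) (nat_lit 2) (.n (nat_lit 308) (nat_lit 3) (.n (nat_lit 309) (nat_lit 1) (.p (nat_lit 310) (nat_lit 3) (.n (nat_lit 311) (nat_lit 3) (.n (nat_lit 312) (nat_lit 1) (.p (nat_lit 313) (nat_lit 2) (.n (nat_lit 314) (nat_lit 3) (.p (nat_lit 315) (nat_lit 1) (.p (nat_lit 320) (nat_lit 1) (.p (nat_lit 321) (nat_lit 1) (.p (nat_lit 322) (nat_lit 1) .z)))))))))))))) (.ct dC2a_c277 (nat_lit 1) (nat_lit 1) (.s false (nat_lit 1) (nat_lit 42) (nat_lit 2) (nat_lit 2) (nat_lit 1) true (nat_lit 5) true (nat_lit 9) false (nat_lit 1) true (nat_lit 8) true (nat_lit 8) (.e false (nat_lit 1) (nat_lit 97) (nat_lit 6) (nat_lit 5) (.e false (nat_lit 1) (nat_lit 195) (nat_lit 1) (nat_lit 9) (.e true (nat_lit 1) (nat_lit 184) (nat_lit 2) (nat_lit 8) (.e true (nat_lit 1) (nat_lit 175) (nat_lit 2) (nat_lit 8) (.u (nat_lit 2) (.n (nat_lit 0) (nat_lit 1) (.p (nat_lit 2) (nat_lit 1) (.p (nat_lit 3) (nat_lit 1) (.p (nat_lit 4) (nat_lit 1) (.p (nat_lit 9) (nat_lit 1) (.n (nat_lit 10) (nat_lit 1) .z)))))) .nil))))))) .leaf) (nat_lit 43038) (nat_lit 1069) (.n (nat_lit 335) (nat_lit 3) (.p (nat_lit 336) (nat_lit 3) (.n (nat_lit 337) (nat_lit 1) (.p (nat_lit 340) (nat_lit 1) (.n (nat_lit 341) (nat_lit 1) (.n (nat_lit 342) (nat_lit 2) (.p (nat_lit 343) (nat_lit 2) (.p (nat_lit 344) (nat_lit 1) (.p (nat_lit 345) (nat_lit 2) (.n (nat_lit 346) (nat_lit 1) (.p (nat_lit 347) (nat_lit 2) (.p (nat_lit 349) (nat_lit 1) (.n (nat_lit 350) (nat_lit 3) (.n (nat_lit 351) (nat_lit 3) (.p (nat_lit 352) (nat_lit 2) (.p (nat_lit 353) (nat_lit 2) (.n (nat_lit 354) (nat_lit 1) (.n (nat_lit 355) (nat_lit 2) (.p (nat_lit 356) (nat_lit 1) (.n (nat_lit 357) (nat_lit 1) (.p (nat_lit 358) (nat_lit 3) (.n (nat_lit 359) (nat_lit 1) (.p (nat_lit 361) (nat_lit 3) (.n (nat_lit 362) (nat_lit 3) (.n (nat_lit 363) (nat_lit 1) (.n (nat_lit 364) (nat_lit 2) (.n (nat_lit 366) (nat_lit 1) (.p (nat_lit 367) (nat_lit 1) (.p (nat_lit 368) (nat_lit 1) (.p (nat_lit 370) (nat_lit 1) (.p (nat_lit 372) (nat_lit 2) (.n (nat_lit 373) (nat_lit 1) (.p (nat_lit 374) (nat_lit 2) (.p (nat_lit 380) (nat_lit 3) (.p (nat_lit 381) (nat_lit 2) (.p (nat_lit 382) (nat_lit 1) (.p (nat_lit 383) (nat_lit 3) .z))))))))))))))))))))))))))))))))))))) (.ct dC2a_c308 (nat_lit 1) (nat_lit 1) (.s true (nat_lit 1) (nat_lit 30) (nat_lit 5) (nat_lit 2) (nat_lit 2) true (nat_lit 6) true (nat_lit 16) true (nat_lit 1) true (nat_lit 13) true (nat_lit 16) (.e true (nat_lit 1) (nat_lit 74) (nat_lit 16) (nat_lit 6) (.e true (nat_lit 2) (nat_lit 206) (nat_lit 2) (nat_lit 16) dC2a_i57)))) (.nd .leaf (nat_lit 43047) (nat_lit 1335) (.n (nat_lit 397) (nat_lit 1) (.p (nat_lit 398) (nat_lit 1) (.n (nat_lit 399) (nat_lit 3) (.n (nat_lit 400) (nat_lit 3) (.p (nat_lit 401) (nat_lit 3) (.p (nat_lit 402) (nat_lit 3) (.n (nat_lit 403) (nat_lit 2) (.p (nat_lit 404) (nat_lit 2) (.p (nat_lit 405) (nat_lit 2) (.p (nat_lit 406) (nat_lit 1) (.p (nat_lit 407) (nat_lit 2) (.p (nat_lit 408) (nat_lit 1) (.p (nat_lit 409) (nat_lit 2) (.n (nat_lit 410) (nat_lit 3) (.n (nat_lit 411) (nat_lit 3) (.n (nat_lit 412) (nat_lit 1) (.n (nat_lit 413) (nat_lit 1) (.n (nat_lit 415) (nat_lit 2) (.n (nat_lit 416) (nat_lit 2) (.p (nat_lit 418) (nat_lit 3) (.n (nat_lit 419) (nat_lit 2) (.p (nat_lit 420) (nat_lit 1) (.p (nat_lit 421) (nat_lit 2) (.p (nat_lit 423) (nat_lit 2) (.p (nat_lit 424) (nat_lit 2) (.n (nat_lit 426) (nat_lit 2) (.n (nat_lit 430) (nat_lit 2) (.p (nat_lit 431) (nat_lit 3) (.n (nat_lit 432) (nat_lit 2) (.n (nat_lit 435) (nat_lit 3) .z)))))))))))))))))))))))))))))) (.ct dC2a_c293 (nat_lit 1) (nat_lit 0) (.s true (nat_lit 1) (nat_lit 16) (nat_lit 14) (nat_lit 2) (nat_lit 2) true (nat_lit 0) true (nat_lit 14) true (nat_lit 5) true (nat_lit 6) true (nat_lit 14) (.e false (nat_lit 2) (nat_lit 252) (nat_lit 2) (nat_lit 14) (.e true (nat_lit 3) (nat_lit 253) (nat_lit 2) (nat_lit 14) dC2a_i58)))) .leaf))) (nat_lit 43048) (nat_lit 1322) (.n (nat_lit 397) (nat_lit 1) (.n (nat_lit 398) (nat_lit 3) (.n (nat_lit 399) (nat_lit 2) (.n (nat_lit 400) (nat_lit 1) (.p (nat_lit 401) (nat_lit 2) (.n (nat_lit 402) (nat_lit 3) (.n (nat_lit 403) (nat_lit 1) (.n (nat_lit 405) (nat_lit 2) (.n (nat_lit 406) (nat_lit 1) (.p (nat_lit 407) (nat_lit 1) (.p (nat_lit 408) (nat_lit 1) (.p (nat_lit 409) (nat_lit 2) (.n (nat_lit 410) (nat_lit 2) (.n (nat_lit 411) (nat_lit 3) (.p (nat_lit 412) (nat_lit 1) (.p (nat_lit 413) (nat_lit 1) (.n (nat_lit 414) (nat_lit 3) (.n (nat_lit 415) (nat_lit 2) (.n (nat_lit 416) (nat_lit 3) (.p (nat_lit 419) (nat_lit 1) (.n (nat_lit 420) (nat_lit 2) (.n (nat_lit 421) (nat_lit 2) (.n (nat_lit 423) (nat_lit 1) (.n (nat_lit 424) (nat_lit 1) (.p (nat_lit 426) (nat_lit 1) (.p (nat_lit 430) (nat_lit 1) (.n (nat_lit 431) (nat_lit 2) (.n (nat_lit 432) (nat_lit 3) (.n (nat_lit 435) (nat_lit 3) .z))))))))))))))))))))))))))))) (.ct dC2a_c293 (nat_lit 1) (nat_lit 0) (.s true (nat_lit 1) (nat_lit 16) (nat_lit 15) (nat_lit 2) (nat_lit 2) true (nat_lit 0) true (nat_lit 14) true (nat_lit 5) true (nat_lit 6) true (nat_lit 14) (.e true (nat_lit 2) (nat_lit 252) (nat_lit 2) (nat_lit 14) (.e false (nat_lit 1) (nat_lit 253) (nat_lit 2) (nat_lit 14) (.e false (nat_lit 3) (nat_lit 254) (nat_lit 2) (nat_lit 14) (.e false (nat_lit 2) (nat_lit 255) (nat_lit 2) (nat_lit 14) (.e true (nat_lit 2) (nat_lit 256) (nat_lit 2) (nat_lit 14) dC2a_i59))))))) (.nd (.nd (.nd (.nd .leaf (nat_lit 43049) (nat_lit 1343) (.p (nat_lit 397) (nat_lit 1) (.n (nat_lit 398) (nat_lit 2) (.n (nat_lit 401) (nat_lit 3) (.n (nat_lit 402) (nat_lit 2) (.n (nat_lit 403) (nat_lit 2) (.n (nat_lit 404) (nat_lit 3) (.p (nat_lit 405) (nat_lit 1) (.p (nat_lit 406) (nat_lit 1) (.n (nat_lit 407) (nat_lit 3) (.p (nat_lit 408) (nat_lit 3) (.n (nat_lit 409) (nat_lit 3) (.n (nat_lit 410) (nat_lit 2) (.p (nat_lit 411) (nat_lit 1) (.n (nat_lit 412) (nat_lit 1) (.n (nat_lit 413) (nat_lit 1) (.n (nat_lit 414) (nat_lit 1) (.n (nat_lit 415) (nat_lit 2) (.n (nat_lit 418) (nat_lit 1) (.n (nat_lit 419) (nat_lit 1) (.n (nat_lit 420) (nat_lit 2) (.n (nat_lit 421) (nat_lit 2) (.p (nat_lit 423) (nat_lit 1) (.p (nat_lit 424) (nat_lit 1) (.n (nat_lit 426) (nat_lit 1) (.n (nat_lit 430) (nat_lit 1) (.n (nat_lit 431) (nat_lit 1) (.p (nat_lit 432) (nat_lit 3) (.n (nat_lit 435) (nat_lit 3) .z)))))))))))))))))))))))))))) (.ct dC2a_c293 (nat_lit 1) (nat_lit 0) (.s false (nat_lit 3) (nat_lit 42) (nat_lit 2) (nat_lit 2) (nat_lit 4) true (nat_lit 6) true (nat_lit 12) false (nat_lit 0) true (nat_lit 14) true (nat_lit 14) (.e true (nat_lit 3) (nat_lit 97) (nat_lit 14) (nat_lit 6) (.e false (nat_lit 3) (nat_lit 195) (nat_lit 4) (nat_lit 12) (.e false (nat_lit 1) (nat_lit 42) (nat_lit 40) (nat_lit 0) dC2a_i60))))) .leaf) (nat_lit 44033) (nat_lit 134) (.p (nat_lit 80) (nat_lit 2) (.n (nat_lit 81) (nat_lit 2) (.p (nat_lit 82) (nat_lit 1) (.n (nat_lit 83) (nat_lit 1) (.n (nat_lit 84) (nat_lit 1) (.n (nat_lit 85) (nat_lit 2) (.p (nat_lit 86) (nat_lit 1) (.n (nat_lit 87) (nat_lit 1) (.n (nat_lit 88) (nat_lit 1) (.p (nat_lit 90) (nat_lit 1) .z)))))))))) (.ct dC2a_c275 (nat_lit 1) (nat_lit 5) (.s false (nat_lit 1) (nat_lit 7) (nat_lit 1) (nat_lit 2) (nat_lit 0) true (nat_lit 3) true (nat_lit 6) true (nat_lit 0) true (nat_lit 5) true (nat_lit 4) (.e false (nat_lit 1) (nat_lit 20) (nat_lit 3) (nat_lit 3) (.e false (nat_lit 1) (nat_lit 46) (nat_lit 0) (nat_lit 6) (.e false (nat_lit 1) (nat_lit 13) (nat_lit 7) (nat_lit 0) (.e true (nat_lit 1) (nat_lit 44) (nat_lit 1) (nat_lit 5) (.e true (nat_lit 1) (nat_lit 37) (nat_lit 2) (nat_lit 4) .nil))))))) .leaf) (nat_lit 44034) (nat_lit 147) (.p (nat_lit 98) (nat_lit 1) .z) .df (.nd (.nd .leaf (nat_lit 44036) (nat_lit 275) (.n (nat_lit 132) (nat_lit 2) (.p (nat_lit 133) (nat_lit 2) (.n (nat_lit 134) (nat_lit 2) (.n (nat_lit 135) (nat_lit 2) (.n (nat_lit 137) (nat_lit 2) (.n (nat_lit 138) (nat_lit 1) (.n (nat_lit 139) (nat_lit 3) (.p (nat_lit 140) (nat_lit 3) (.p (nat_lit 141) (nat_lit 3) (.p (nat_lit 143) (nat_lit 3) (.p (nat_lit 144) (nat_lit 1) (.p (nat_lit 145) (nat_lit 2) (.p (nat_lit 147) (nat_lit 3) (.p (nat_lit 150) (nat_lit 2) (.p (nat_lit 153) (nat_lit 1) (.n (nat_lit 155) (nat_lit 3) (.p (nat_lit 156) (nat_lit 3) .z))))))))))))))))) (.ct dC2a_c291 (nat_lit 1) (nat_lit 6) (.s true (nat_lit 1) (nat_lit 17) (nat_lit 1) (nat_lit 2) (nat_lit 1) true (nat_lit 6) true (nat_lit 9) false (nat_lit 0) true (nat_lit 9) true (nat_lit 8) (.e false (nat_lit 1) (nat_lit 84) (nat_lit 1) (nat_lit 9) (.e false (nat_lit 1) (nat_lit 17) (nat_lit 15) (nat_lit 0) (.e true (nat_lit 2) (nat_lit 80) (nat_lit 1) (nat_lit 9) (.e false (nat_lit 2) (nat_lit 81) (nat_lit 1) (nat_lit 9) (.e false (nat_lit 1) (nat_lit 82) (nat_lit 1) (nat_lit 9) (.e true (nat_lit 1) (nat_lit 83) (nat_lit 1) (nat_lit 9) (.e false (nat_lit 2) (nat_lit 85) (nat_lit 1) (nat_lit 9) (.e false (nat_lit 1) (nat_lit 86) (nat_lit 1) (nat_lit 9) (.e true (nat_lit 1) (nat_lit 87) (nat_lit 1) (nat_lit 9) (.e true (nat_lit 1) (nat_lit 89) (nat_lit 1) (nat_lit 9) (.e true (nat_lit 1) (nat_lit 61) (nat_lit 2) (nat_lit 8) (.e false (nat_lit 1) (nat_lit 62) (nat_lit 2) (nat_lit 8) (.e false (nat_lit 1) (nat_lit 63) (nat_lit 2) (nat_lit 8) (.e true (nat_lit 1) (nat_lit 64) (nat_lit 2) (nat_lit 8) (.e true (nat_lit 1) (nat_lit 66) (nat_lit 2) (nat_lit 8) (.e true (nat_lit 1) (nat_lit 67) (nat_lit 2) (nat_lit 8) (.e false (nat_lit 1) (nat_lit 68) (nat_lit 2) (nat_lit 8) (.e false (nat_lit 2) (nat_lit 71) (nat_lit 2) (nat_lit 8) (.e false (nat_lit 2) (nat_lit 72) (nat_lit 2) (nat_lit 8) (.u (nat_lit 2) (.p (nat_lit 3) (nat_lit 1) (.p (nat_lit 5) (nat_lit 1) (.p (nat_lit 6) (nat_lit 1) (.n (nat_lit 9) (nat_lit 1) (.p (nat_lit 12) (nat_lit 1) (.n (nat_lit 15) (nat_lit 2) (.p (nat_lit 17) (nat_lit 1) (.n (nat_lit 18) (nat_lit 1) (.n (nat_lit 19) (nat_lit 1) (.n (nat_lit 21) (nat_lit 1) (.p (nat_lit 25) (nat_lit 1) .z))))))))))) .nil)))))))))))))))))))))) .leaf) (nat_lit 44038) (nat_lit 345) (.n (nat_lit 169) (nat_lit 3) (.n (nat_lit 170) (nat_lit 3) (.n (nat_lit 172) (nat_lit 3) (.p (nat_lit 173) (nat_lit 3) (.p (nat_lit 174) (nat_lit 3) (.p (nat_lit 175) (nat_lit 1) (.n (nat_lit 177) (nat_lit 1) (.n (nat_lit 178) (nat_lit 2) (.p (nat_lit 180) (nat_lit 1) (.n (nat_lit 182) (nat_lit 1) (.p (nat_lit 183) (nat_lit 1) (.p (nat_lit 184) (nat_lit 1) .z)))))))))))) (.ct dC2a_c276 (nat_lit 1) (nat_lit 3) (.s false (nat_lit 1) (nat_lit 7) (nat_lit 1) (nat_lit 5) (nat_lit 2) true (nat_lit 3) true (nat_lit 6) true (nat_lit 2) true (nat_lit 7) true (nat_lit 4) (.e true (nat_lit 1) (nat_lit 44) (nat_lit 6) (nat_lit 3) (.e false (nat_lit 2) (nat_lit 80) (nat_lit 2) (nat_lit 6) (.e true (nat_lit 3) (nat_lit 81) (nat_lit 2) (nat_lit 6) (.e true (nat_lit 2) (nat_lit 84) (nat_lit 2) (nat_lit 6) (.e true (nat_lit 3) (nat_lit 85) (nat_lit 2) (nat_lit 6) (.e false (nat_lit 1) (nat_lit 86) (nat_lit 2) (nat_lit 6) (.e true (nat_lit 1) (nat_lit 87) (nat_lit 2) (nat_lit 6) (.e false (nat_lit 1) (nat_lit 90) (nat_lit 2) (nat_lit 6) (.e false (nat_lit 1) (nat_lit 34) (nat_lit 7) (nat_lit 2) (.e false (nat_lit 1) (nat_lit 100) (nat_lit 1) (nat_lit 7) (.e true (nat_lit 1) (nat_lit 47) (nat_lit 5) (nat_lit 4) (.u (nat_lit 2) (.p (nat_lit 0) (nat_lit 1) (.n (nat_lit 1) (nat_lit 1) (.p (nat_lit 3) (nat_lit 1) (.n (nat_lit 4) (nat_lit 1) (.n (nat_lit 5) (nat_lit 1) .z))))) .nil)))))))))))))) .leaf)) (nat_lit 44039) (nat_lit 383) (.p (nat_lit 196) (nat_lit 2) (.p (nat_lit 197) (nat_lit 2) (.n (nat_lit 199) (nat_lit 1) .z))) (.ct dC2a_c261 (nat_lit 1) (nat_lit 1) (.s false (nat_lit 1) (nat_lit 7) (nat_lit 0) (nat_lit 7) (nat_lit 2) true (nat_lit 2) true (nat_lit 3) true (nat_lit 1) true (nat_lit 4) true (nat_lit 1) (.e false (nat_lit 2) (nat_lit 98) (nat_lit 2) (nat_lit 3) (.e false (nat_lit 2) (nat_lit 99) (nat_lit 2) (nat_lit 3) (.e true (nat_lit 1) (nat_lit 44) (nat_lit 7) (nat_lit 1) .nil))))) (.nd (.nd (.nd .leaf (nat_lit 44042) (nat_lit 543) (.n (nat_lit 205) (nat_lit 1) (.n (nat_lit 206) (nat_lit 3) (.p (nat_lit 207) (nat_lit 3) (.n (nat_lit 208) (nat_lit 3) (.p (nat_lit 211) (nat_lit 3) (.n (nat_lit 212) (nat_lit 2) (.n (nat_lit 213) (nat_lit 3) (.p (nat_lit 214) (nat_lit 2) (.p (nat_lit 215) (nat_lit 1) (.n (nat_lit 216) (nat_lit 2) (.p (nat_lit 219) (nat_lit 3) (.n (nat_lit 221) (nat_lit 3) (.p (nat_lit 225) (nat_lit 2) (.n (nat_lit 227) (nat_lit 3) (.p (nat_lit 228) (nat_lit 1) (.p (nat_lit 229) (nat_lit 1) (.p (nat_lit 230) (nat_lit 1) (.n (nat_lit 245) (nat_lit 2) (.p (nat_lit 246) (nat_lit 1) (.n (nat_lit 247) (nat_lit 2) (.p (nat_lit 248) (nat_lit 2) (.n (nat_lit 249) (nat_lit 2) (.n (nat_lit 251) (nat_lit 2) .z))))))))))))))))))))))) (.ct dC2a_c307 (nat_lit 1) (nat_lit 5) (.s true (nat_lit 1) (nat_lit 10) (nat_lit 2) (nat_lit 2) (nat_lit 5) true (nat_lit 2) true (nat_lit 9) true (nat_lit 5) true (nat_lit 12) true (nat_lit 12) (.e true (nat_lit 1) (nat_lit 30) (nat_lit 16) (nat_lit 2) (.e true (nat_lit 1) (nat_lit 74) (nat_lit 5) (nat_lit 9) (.e true (nat_lit 1) (nat_lit 44) (nat_lit 10) (nat_lit 5) (.e false (nat_lit 1) (nat_lit 107) (nat_lit 2) (nat_lit 12) (.e false (nat_lit 1) (nat_lit 108) (nat_lit 2) (nat_lit 12) (.e false (nat_lit 1) (nat_lit 110) (nat_lit 2) (nat_lit 12) (.e true (nat_lit 2) (nat_lit 112) (nat_lit 2) (nat_lit 12) (.e false (nat_lit 2) (nat_lit 114) (nat_lit 2) (nat_lit 12) (.e true (nat_lit 1) (nat_lit 118) (nat_lit 2) (nat_lit 12) (.e false (nat_lit 2) (nat_lit 120) (nat_lit 2) (nat_lit 12) (.e true (nat_lit 2) (nat_lit 122) (nat_lit 2) (nat_lit 12) (.e true (nat_lit 1) (nat_lit 128) (nat_lit 2) (nat_lit 12) (.u (nat_lit 2) (.p (nat_lit 1) (nat_lit 1) (.p (nat_lit 3) (nat_lit 1) (.p (nat_lit 7) (nat_lit 1) (.n (nat_lit 9) (nat_lit 1) (.p (nat_lit 40) (nat_lit 1) (.p (nat_lit 42) (nat_lit 1) (.n (nat_lit 43) (nat_lit 1) (.p (nat_lit 44) (nat_lit 1) .z)))))))) .nil))))))))))))))) .leaf) (nat_lit 44046) (nat_lit 677) (.p (nat_lit 252) (nat_lit 1) (.n (nat_lit 253) (nat_lit 2) (.p (nat_lit 254) (nat_lit 3) (.n (nat_lit 255) (nat_lit 3) (.n (nat_lit 257) (nat_lit 3) (.n (nat_lit 259) (nat_lit 3) (.p (nat_lit 260) (nat_lit 3) (.n (nat_lit 261) (nat_lit 2) (.n (nat_lit 262) (nat_lit 3) (.n (nat_lit 263) (nat_lit 2) (.p (nat_lit 264) (nat_lit 2) (.p (nat_lit 265) (nat_lit 1) (.n (nat_lit 266) (nat_lit 2) (.n (nat_lit 267) (nat_lit 1) (.p (nat_lit 269) (nat_lit 2) (.n (nat_lit 270) (nat_lit 2) (.p (nat_lit 271) (nat_lit 1) (.n (nat_lit 272) (nat_lit 1) (.n (nat_lit 274) (nat_lit 1) (.p (nat_lit 275) (nat_lit 3) (.p (nat_lit 276) (nat_lit 2) (.p (nat_lit 277) (nat_lit 1) (.p (nat_lit 279) (nat_lit 2) (.p (nat_lit 282) (nat_lit 3) (.p (nat_lit 283) (nat_lit 2) (.p (nat_lit 284) (nat_lit 1) (.n (nat_lit 285) (nat_lit 2) (.p (nat_lit 286) (nat_lit 2) (.n (nat_lit 288) (nat_lit 2) .z))))))))))))))))))))))))))))) (.ct dC2a_c292 (nat_lit 1) (nat_lit 3) (.s true (nat_lit 1) (nat_lit 14) (nat_lit 2) (nat_lit 2) (nat_lit 5) true (nat_lit 2) true (nat_lit 8) true (nat_lit 3) true (nat_lit 11) true (nat_lit 11) dC2a_i61)) .leaf) (nat_lit 44047) (nat_lit 690) (.n (nat_lit 252) (nat_lit 3) (.p (nat_lit 253) (nat_lit 1) (.p (nat_lit 254) (nat_lit 3) (.p (nat_lit 255) (nat_lit 1) (.p (nat_lit 256) (nat_lit 2) (.p (nat_lit 257) (nat_lit 2) (.p (nat_lit 258) (nat_lit 2) (.p (nat_lit 259) (nat_lit 2) (.n (nat_lit 260) (nat_lit 2) (.p (nat_lit 261) (nat_lit 1) (.p (nat_lit 262) (nat_lit 2) (.n (nat_lit 263) (nat_lit 1) (.p (nat_lit 265) (nat_lit 3) (.p (nat_lit 266) (nat_lit 1) (.n (nat_lit 269) (nat_lit 2) (.p (nat_lit 270) (nat_lit 3) (.n (nat_lit 271) (nat_lit 1) (.p (nat_lit 272) (nat_lit 3) (.n (nat_lit 273) (nat_lit 2) (.n (nat_lit 274) (nat_lit 1) (.p (nat_lit 275) (nat_lit 2) (.p (nat_lit 276) (nat_lit 3) (.p (nat_lit 277) (nat_lit 2) (.n (nat_lit 279) (nat_lit 1) (.p (nat_lit 282) (nat_lit 2) (.n (nat_lit 283) (nat_lit 1) (.p (nat_lit 284) (nat_lit 1) (.p (nat_lit 285) (nat_lit 2) (.n (nat_lit 286) (nat_lit 2) (.p (nat_lit 288) (nat_lit 1) .z)))))))))))))))))))))))))))))) (.ct dC2a_c292 (nat_lit 1) (nat_lit 3) (.s true (nat_lit 1) (nat_lit 15) (nat_lit 2) (nat_lit 2) (nat_lit 5) true (nat_lit 2) true (nat_lit 8) true (nat_lit 3) true (nat_lit 11) true (nat_lit 11) (.e true (nat_lit 1) (nat_lit 40) (nat_lit 16) (nat_lit 2) (.e true (nat_lit 1) (nat_lit 92) (nat_lit 5) (nat_lit 8) (.e true (nat_lit 1) (nat_lit 44) (nat_lit 15) (nat_lit 3) (.e true (nat_lit 1) (nat_lit 132) (nat_lit 2) (nat_lit 11) (.e true (nat_lit 1) (nat_lit 133) (nat_lit 2) (nat_lit 11) (.e false (nat_lit 1) (nat_lit 134) (nat_lit 2) (nat_lit 11) (.e false (nat_lit 1) (nat_lit 135) (nat_lit 2) (nat_lit 11) (.e true (nat_lit 1) (nat_lit 137) (nat_lit 2) (nat_lit 11) (.e true (nat_lit 1) (nat_lit 138) (nat_lit 2) (nat_lit 11) (.e false (nat_lit 1) (nat_lit 143) (nat_lit 2) (nat_lit 11) (.e true (nat_lit 1) (nat_lit 145) (nat_lit 2) (nat_lit 11) (.e true (nat_lit 1) (nat_lit 149) (nat_lit 2) (nat_lit 11) (.e false (nat_lit 1) (nat_lit 151) (nat_lit 2) (nat_lit 11) (.e false (nat_lit 1) (nat_lit 152) (nat_lit 2) (nat_lit 11) (.e false (nat_lit 1) (nat_lit 153) (nat_lit 2) (nat_lit 11) (.e false (nat_lit 1) (nat_lit 154) (nat_lit 2) (nat_lit 11) (.e true (nat_lit 1) (nat_lit 155) (nat_lit 2) (nat_lit 11) (.e true (nat_lit 1) (nat_lit 157) (nat_lit 2) (nat_lit 11) (.u (nat_lit 2) (.p (nat_lit 0) (nat_lit 1) (.n (nat_lit 4) (nat_lit 1) (.p (nat_lit 9) (nat_lit 1) (.n (nat_lit 10) (nat_lit 1) (.p (nat_lit 11) (nat_lit 1) (.n (nat_lit 14) (nat_lit 1) (.p (nat_lit 22) (nat_lit 1) (.n (nat_lit 23) (nat_lit 1) (.n (nat_lit 24) (nat_lit 1) (.n (nat_lit 33) (nat_lit 1) .z)))))))))) .nil))))))))))))))))))))) (.nd .leaf (nat_lit 44050) (nat_lit 800) (.n (nat_lit 305) (nat_lit 3) (.n (nat_lit 306) (nat_lit 2) (.p (nat_lit 307) (nat_lit 3) (.p (nat_lit 308) (nat_lit 2) (.p (nat_lit 309) (nat_lit 3) (.p (nat_lit 311) (nat_lit 3) (.p (nat_lit 312) (nat_lit 1) (.n (nat_lit 313) (nat_lit 3) (.n (nat_lit 315) (nat_lit 1) (.n (nat_lit 318) (nat_lit 1) (.n (nat_lit 320) (nat_lit 1) (.n (nat_lit 321) (nat_lit 1) (.p (nat_lit 323) (nat_lit 1) .z))))))))))))) (.ct dC2a_c277 (nat_lit 1) (nat_lit 1) (.s false (nat_lit 1) (nat_lit 43) (nat_lit 1) (nat_lit 2) (nat_lit 2) true (nat_lit 5) true (nat_lit 8) false (nat_lit 1) true (nat_lit 9) true (nat_lit 8) (.e false (nat_lit 1) (nat_lit 98) (nat_lit 6) (nat_lit 5) (.e true (nat_lit 1) (nat_lit 169) (nat_lit 2) (nat_lit 8) (.e true (nat_lit 1) (nat_lit 172) (nat_lit 2) (nat_lit 8) (.e false (nat_lit 1) (nat_lit 173) (nat_lit 2) (nat_lit 8) (.e false (nat_lit 1) (nat_lit 174) (nat_lit 2) (nat_lit 8) (.e false (nat_lit 3) (nat_lit 175) (nat_lit 2) (nat_lit 8) (.e false (nat_lit 1) (nat_lit 177) (nat_lit 2) (nat_lit 8) (.e true (nat_lit 2) (nat_lit 196) (nat_lit 1) (nat_lit 9) (.e true (nat_lit 2) (nat_lit 197) (nat_lit 1) (nat_lit 9) (.e false (nat_lit 1) (nat_lit 199) (nat_lit 1) (nat_lit 9) (.e true (nat_lit 2) (nat_lit 178) (nat_lit 2) (nat_lit 8) (.e true (nat_lit 1) (nat_lit 180) (nat_lit 2) (nat_lit 8) (.e true (nat_lit 1) (nat_lit 181) (nat_lit 2) (nat_lit 8) (.e false (nat_lit 2) (nat_lit 182) (nat_lit 2) (nat_lit 8) (.e true (nat_lit 1) (nat_lit 184) (nat_lit 2) (nat_lit 8) (.u (nat_lit 2) (.n (nat_lit 0) (nat_lit 1) (.p (nat_lit 4) (nat_lit 1) (.p (nat_lit 5) (nat_lit 1) (.p (nat_lit 8) (nat_lit 1) .z)))) .nil)))))))))))))))))) .leaf))))))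

noncomputable def dC2a_t5 : Tr := (.nd dC2a_t3 (nat_lit 38918) (nat_lit 277) (.n (nat_lit 132) (nat_lit 2) (.p (nat_lit 133) (nat_lit 1) (.n (nat_lit 134) (nat_lit 2) (.n (nat_lit 135) (nat_lit 1) (.n (nat_lit 137) (nat_lit 3) (.p (nat_lit 139) (nat_lit 2) (.n (nat_lit 140) (nat_lit 2) (.p (nat_lit 141) (nat_lit 3) (.p (nat_lit 142) (nat_lit 1) (.p (nat_lit 143) (nat_lit 2) (.p (nat_lit 144) (nat_lit 2) (.n (nat_lit 145) (nat_lit 2) (.n (nat_lit 146) (nat_lit 1) (.n (nat_lit 147) (nat_lit 2) (.n (nat_lit 148) (nat_lit 1) (.p (nat_lit 150) (nat_lit 1) (.p (nat_lit 151) (nat_lit 2) (.p (nat_lit 153) (nat_lit 1) (.p (nat_lit 154) (nat_lit 3) (.p (nat_lit 155) (nat_lit 2) (.n (nat_lit 156) (nat_lit 2) (.n (nat_lit 157) (nat_lit 1) .z)))))))))))))))))))))) (.ct dC2a_c291 (nat_lit 1) (nat_lit 4) (.s false (nat_lit 1) (nat_lit 6) (nat_lit 2) (nat_lit 1) (nat_lit 5) false (nat_lit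 0) true (nat_lit 5) true (nat_lit 4) true (nat_lit 8) true (nat_lit 9) (.e true (nat_lit 1) (nat_lit 16) (nat_lit 15) (nat_lit 0) (.e false (nat_lit 1) (nat_lit 41) (nat_lit 5) (nat_lit 5) (.e false (nat_lit 1) (nat_lit 33) (nat_lit 6) (nat_lit 4) (.e true (nat_lit 1) (nat_lit 34) (nat_lit 6) (nat_lit 4) (.e true (nat_lit 1) (nat_lit 37) (nat_lit 6) (nat_lit 4) (.e true (nat_lit 1) (nat_lit 61) (nat_lit 2) (nat_lit 8) (.e false (nat_lit 1) (nat_lit 63) (nat_lit 2) (nat_lit 8) (.e true (nat_lit 1) (nat_lit 66) (nat_lit 2) (nat_lit 8) (.e false (nat_lit 1) (nat_lit 68) (nat_lit 2) (nat_lit 8) (.e false (nat_lit 1) (nat_lit 72) (nat_lit 2) (nat_lit 8) (.e true (nat_lit 1) (nat_lit 80) (nat_lit 1) (nat_lit 9) (.e false (nat_lit 1) (nat_lit 81) (nat_lit 1) (nat_lit 9) (.e false (nat_lit 1) (nat_lit 84) (nat_lit 1) (nat_lit 9) (.e false (nat_lit 1) (nat_lit 85) (nat_lit 1)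 (nat_lit 9) (.u (nat_lit 2) (.n (nat_lit 0) (nat_lit 1) (.p (nat_lit 3) (nat_lit 1) (.n (nat_lit 9) (nat_lit 1) (.n (nat_lit 15) (nat_lit 1) (.p (nat_lit 17) (nat_lit 1) (.n (nat_lit 18) (nat_lit 1) (.n (nat_lit 19) (nat_lit 1) (.n (nat_lit 21) (nat_lit 1) (.p (nat_lit 24) (nat_lit 1) (.p (nat_lit 25) (nat_lit 1) .z)))))))))) .nil))))))))))))))))) dC2a_t4)

noncomputable def dC2a_t6 : Tr := (.nd dC2a_t2 (nat_lit 27666) (nat_lit 460) (.n (nat_lit 205) (nat_lit 2) (.p (nat_lit 206) (nat_lit 3) (.p (nat_lit 207) (nat_lit 3) (.p (nat_lit 208) (nat_lit 1) (.n (nat_lit 209) (nat_lit 2) (.p (nat_lit 210) (nat_lit 1) (.n (nat_lit 211) (nat_lit 1) (.p (nat_lit 212) (nat_lit 2) (.p (nat_lit 213) (nat_lit 1) (.n (nat_lit 214) (nat_lit 3) (.p (nat_lit 215) (nat_lit 2) (.p (nat_lit 216) (nat_lit 2) (.n (nat_lit 218) (nat_lit 2) (.n (nat_lit 219) (nat_lit 3) (.p (nat_lit 221) (nat_lit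 3) (.n (nat_lit 222) (nat_lit 2) (.p (nat_lit 225) (nat_lit 1) (.p (nat_lit 226) (nat_lit 2) (.n (nat_lit 227) (nat_lit 1) (.p (nat_lit 229) (nat_lit 3) (.p (nat_lit 230) (nat_lit 3) (.n (nat_lit 234) (nat_lit 1) (.p (nat_lit 250) (nat_lit 1) .z))))))))))))))))))))))) (.ct dC2a_c307 (nat_lit 1) (nat_lit 1) dC2a_i0) dC2a_t5)

end Pool.Agent.MalP.Chk7
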