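import Pool.Agent.MalP.P7.ChkDef

/-! # Data for the certificate of zC2Ex -/

set_option autoImplicit false
set_option maxRecDepth 100000

namespace Pool.Agent.MalP.Chk7

noncomputable def dC2b_i0 : IL := (.e true (nat_lit 1) (nat_lit 207) (nat_lit 2) (nat_lit 16) (.e true (nat_lit 3) (nat_lit 211) (nat_lit 2) (nat_lit 16) (.e true (nat_lit 2) (nat_lit 212) (nat_lit 2) (nat_lit 16) (.e false (nat_lit 3) (nat_lit 213) (nat_lit 2) (nat_lit 16) (.e false (nat_lit 2) (nat_lit 214) (nat_lit 2) (nat_lit 16) (.e true (nat_lit 1) (nat_lit 215) (nat_lit 2) (nat_lit 16) (.e false (nat_lit 3) (nat_lit 216) (nat_lit 2) (nat_lit 16) (.e true (nat_lit 2) (nat_lit 219) (nat_lit 2) (nat_lit 16) (.e false (nat_lit 2) (nat_lit 221) (nat_lit 2) (nat_lit 16) (.e true (nat_lit 3) (nat_lit 225) (nat_lit 2) (nat_lit 16) (.e true (nat_lit 3) (nat_lit 227) (nat_lit 2) (nat_lit 16) (.e true (nat_lit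 2) (nat_lit 228) (nat_lit 2) (nat_lit 16) (.e true (nat_lit 2) (nat_lit 229) (nat_lit 2) (nat_lit 16) (.e false (nat_lit 3) (nat_lit 242) (nat_lit 2) (nat_lit 16) (.e false (nat_lit 2) (nat_lit 243) (nat_lit 2) (nat_lit 16) (.e true (nat_lit 2) (nat_lit 245) (nat_lit 2) (nat_lit 16) (.e false (nat_lit 1) (nat_lit 246) (nat_lit 2) (nat_lit 16) (.e true (nat_lit 1) (nat_lit 247) (nat_lit 2) (nat_lit 16) (.e false (nat_lit 2) (nat_lit 248) (nat_lit 2) (nat_lit 16) (.e true (nat_lit 3) (nat_lit 249) (nat_lit 2) (nat_lit 16) (.e false (nat_lit 3) (nat_lit 251) (nat_lit 2) (nat_lit 16) (.e false (nat_lit 3) (nat_lit 208) (nat_lit 2) (nat_lit 16) (.e true (nat_lit 1) (nat_lit 209) (nat_lit 2) (nat_lit 16) (.e true (nat_lit 1) (nat_lit 217) (nat_lit 2) (nat_lit 16) (.u (nat_lit 2) (.p (nat_lit 0) (nat_lit 2) (.p (nat_lit 2) (nat_lit 1) (.n (nat_lit 4) (nat_lit 1) (.n (nat_lit 5)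 (nat_lit 2) (.p (nat_lit 6) (nat_lit 1) (.p (nat_lit 7) (nat_lit 1) (.n (nat_lit 8) (nat_lit 3) (.p (nat_lit 9) (nat_lit 5) (.n (nat_lit 11) (nat_lit 2) (.p (nat_lit 12) (nat_lit 3) (.n (nat_lit 14) (nat_lit 2) (.n (nat_lit 15) (nat_lit 1) (.p (nat_lit 17) (nat_lit 4) (.n (nat_lit 18) (nat_lit 4) (.n (nat_lit 19) (nat_lit 4) (.p (nat_lit 20) (nat_lit 2) (.p (nat_lit 21) (nat_lit 3) (.n (nat_lit 22) (nat_lit 3) (.n (nat_lit 23) (nat_lit 4) (.n (nat_lit 24) (nat_lit 1) (.p (nat_lit 25) (nat_lit 1) (.n (nat_lit 26) (nat_lit 2) (.n (nat_lit 27) (nat_lit 4) (.n (nat_lit 29) (nat_lit 4) (.n (nat_lit 31) (nat_lit 2) (.p (nat_lit 32) (nat_lit 2) (.p (nat_lit 34) (nat_lit 3) (.p (nat_lit 35) (nat_lit 3) (.p (nat_lit 36) (nat_lit 2) (.n (nat_lit 37) (nat_lit 1) (.p (nat_lit 39) (nat_lit 4) (.p (nat_lit 40) (nat_lit 1) (.n (nat_lit 42) (nat_lit 1) (.p (nat_lit 44) (nat_lit 1) (.n (nat_lit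 45) (nat_lit 4) (.p (nat_lit 46) (nat_lit 1) (.p (nat_lit 47) (nat_lit 1) (.n (nat_lit 48) (nat_lit 1) (.n (nat_lit 313) (nat_lit 1) (.p (nat_lit 316) (nat_lit 1) (.n (nat_lit 318) (nat_lit 1) .z))))))))))))))))))))))))))))))))))))))))) .nil)))))))))))))))))))))))))

noncomputable def dC2b_c308 : Cm := .mk (nat_lit 850) (nat_lit 308) (nat_lit 335) (nat_lit 62) (.c (nat_lit 39) (nat_lit 3) (nat_lit 33) (nat_lit 6) (nat_lit 62) (.c (nat_lit 42) (nat_lit 3) (nat_lit 30) (nat_lit 3) (nat_lit 80) (.c (nat_lit 45) (nat_lit 3) (nat_lit 24) (nat_lit 6) (nat_lit 89) (.c (nat_lit 48) (nat_lit 1) (nat_lit 21) (nat_lit 3) (nat_lit 107) (.c (nat_lit 49) (nat_lit 11) (nat_lit 20) (nat_lit 1) (nat_lit 110) (.c (nat_lit 60) (nat_lit 14) (nat_lit 18) (nat_lit 2) (nat_lit 121) (.c (nat_lit 74) (nat_lit 6) (nat_lit 16) (nat_lit 2) (nat_lit 149) (.c (nat_lit 80) (nat_lit 11) (nat_lit 14) (nat_lit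 2) (nat_lit 161) (.c (nat_lit 91) (nat_lit 6) (nat_lit 11) (nat_lit 3) (nat_lit 183) (.c (nat_lit 97) (nat_lit 4) (nat_lit 10) (nat_lit 1) (nat_lit 201) (.c (nat_lit 101) (nat_lit 4) (nat_lit 8) (nat_lit 2) (nat_lit 205) (.c (nat_lit 106) (nat_lit 26) (nat_lit 7) (nat_lit 1) (nat_lit 213) (.c (nat_lit 132) (nat_lit 26) (nat_lit 6) (nat_lit 1) (nat_lit 239) (.c (nat_lit 158) (nat_lit 11) (nat_lit 5) (nat_lit 1) (nat_lit 265) (.c (nat_lit 169) (nat_lit 16) (nat_lit 4) (nat_lit 1) (nat_lit 276) (.c (nat_lit 185) (nat_lit 10) (nat_lit 3) (nat_lit 1) (nat_lit 292) (.c (nat_lit 205) (nat_lit 47) (nat_lit 2) (nat_lit 1) (nat_lit 302) (.c (nat_lit 252) (nat_lit 37) (nat_lit 1) (nat_lit 1) (nat_lit 349) (.c (nat_lit 289) (nat_lit 16) (nat_lit 0) (nat_lit 1) (nat_lit 386) .nil)))))))))))))))))))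

noncomputable def dC2b_i1 : IL := (.e false (nat_lit 3) (nat_lit 258) (nat_lit 2) (nat_lit 14) (.e true (nat_lit 3) (nat_lit 259) (nat_lit 2) (nat_lit 14) (.e false (nat_lit 3) (nat_lit 260) (nat_lit 2) (nat_lit 14) (.e true (nat_lit 1) (nat_lit 261) (nat_lit 2) (nat_lit 14) (.e true (nat_lit 2) (nat_lit 262) (nat_lit 2) (nat_lit 14) (.e true (nat_lit 1) (nat_lit 263) (nat_lit 2) (nat_lit 14) (.e false (nat_lit 3) (nat_lit 264) (nat_lit 2) (nat_lit 14) (.e true (nat_lit 3) (nat_lit 266) (nat_lit 2) (nat_lit 14) (.e false (nat_lit 1) (nat_lit 267) (nat_lit 2) (nat_lit 14) (.e true (nat_lit 3) (nat_lit 270) (nat_lit 2) (nat_lit 14) (.e true (nat_lit 3) (nat_lit 271) (nat_lit 2) (nat_lit 14) (.e true (nat_lit 2) (nat_lit 273) (nat_lit 2) (nat_lit 14) (.e true (nat_lit 2) (nat_lit 274) (nat_lit 2) (nat_lit 14) (.e true (nat_lit 1) (nat_lit 275) (nat_lit 2) (nat_lit 14) (.e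 true (nat_lit 1) (nat_lit 277) (nat_lit 2) (nat_lit 14) (.e false (nat_lit 2) (nat_lit 279) (nat_lit 2) (nat_lit 14) (.e false (nat_lit 3) (nat_lit 282) (nat_lit 2) (nat_lit 14) (.e true (nat_lit 1) (nat_lit 283) (nat_lit 2) (nat_lit 14) (.e true (nat_lit 1) (nat_lit 284) (nat_lit 2) (nat_lit 14) (.e false (nat_lit 1) (nat_lit 285) (nat_lit 2) (nat_lit 14) (.e false (nat_lit 2) (nat_lit 286) (nat_lit 2) (nat_lit 14) (.e true (nat_lit 2) (nat_lit 288) (nat_lit 2) (nat_lit 14) (.e false (nat_lit 3) (nat_lit 253) (nat_lit 2) (nat_lit 14) (.e true (nat_lit 3) (nat_lit 269) (nat_lit 2) (nat_lit 14) (.u (nat_lit 2) (.n (nat_lit 0) (nat_lit 2) (.p (nat_lit 1) (nat_lit 1) (.p (nat_lit 3) (nat_lit 1) (.p (nat_lit 4) (nat_lit 2) (.n (nat_lit 5) (nat_lit 5) (.p (nat_lit 6) (nat_lit 2) (.n (nat_lit 9) (nat_lit 1) (.p (nat_lit 10) (nat_lit 1) (.n (nat_lit 11) (nat_lit 1) (.p (nat_lit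 12) (nat_lit 4) (.p (nat_lit 13) (nat_lit 2) (.n (nat_lit 14) (nat_lit 1) (.n (nat_lit 15) (nat_lit 1) (.n (nat_lit 16) (nat_lit 1) (.p (nat_lit 17) (nat_lit 1) (.n (nat_lit 18) (nat_lit 1) (.n (nat_lit 19) (nat_lit 2) (.p (nat_lit 21) (nat_lit 4) (.p (nat_lit 23) (nat_lit 3) (.n (nat_lit 24) (nat_lit 1) (.n (nat_lit 25) (nat_lit 1) (.p (nat_lit 27) (nat_lit 2) (.n (nat_lit 29) (nat_lit 1) (.n (nat_lit 30) (nat_lit 1) (.n (nat_lit 31) (nat_lit 1) (.n (nat_lit 34) (nat_lit 2) (.p (nat_lit 35) (nat_lit 3) (.p (nat_lit 38) (nat_lit 2) (.n (nat_lit 204) (nat_lit 1) (.p (nat_lit 206) (nat_lit 1) (.n (nat_lit 207) (nat_lit 1) (.p (nat_lit 223) (nat_lit 1) (.p (nat_lit 225) (nat_lit 1) .z))))))))))))))))))))))))))))))))) .nil)))))))))))))))))))))))))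

noncomputable def dC2b_c293 : Cm := .mk (nat_lit 1160) (nat_lit 293) (nat_lit 397) (nat_lit 39) (.c (nat_lit 42) (nat_lit 3) (nat_lit 39) (nat_lit 3) (nat_lit 39) (.c (nat_lit 45) (nat_lit 3) (nat_lit 33) (nat_lit 6) (nat_lit 48) (.c (nat_lit 48) (nat_lit 1) (nat_lit 24) (nat_lit 6) (nat_lit 66) (.c (nat_lit 60) (nat_lit 14) (nat_lit 20) (nat_lit 1) (nat_lit 72) (.c (nat_lit 80) (nat_lit 11) (nat_lit 18) (nat_lit 2) (nat_lit 86) (.c (nat_lit 91) (nat_lit 6) (nat_lit 16) (nat_lit 2) (nat_lit 108) (.c (nat_lit 97) (nat_lit 4) (nat_lit 14) (nat_lit 2) (nat_lit 120) (.c (nat_lit 101) (nat_lit 4) (nat_lit 11) (nat_lit 3) (nat_lit 128) (.c (nat_lit 105) (nat_lit 1) (nat_lit 8) (nat_lit 2) (nat_lit 140) (.c (nat_lit 132) (nat_lit 26) (nat_lit 7) (nat_lit 1) (nat_lit 142) (.c (nat_lit 169) (nat_lit 16) (nat_lit 6) (nat_lit 1) (nat_lit 168) (.c (nat_lit 185) (nat_lit 10) (nat_lit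 5) (nat_lit 1) (nat_lit 184) (.c (nat_lit 195) (nat_lit 5) (nat_lit 4) (nat_lit 1) (nat_lit 194) (.c (nat_lit 200) (nat_lit 5) (nat_lit 3) (nat_lit 1) (nat_lit 199) (.c (nat_lit 252) (nat_lit 37) (nat_lit 2) (nat_lit 1) (nat_lit 204) (.c (nat_lit 305) (nat_lit 19) (nat_lit 1) (nat_lit 1) (nat_lit 241) (.c (nat_lit 324) (nat_lit 11) (nat_lit 0) (nat_lit 1) (nat_lit 260) .nil)))))))))))))))))

noncomputable def dC2b_i2 : IL := (.e true (nat_lit 3) (nat_lit 254) (nat_lit 2) (nat_lit 14) (.e true (nat_lit 2) (nat_lit 255) (nat_lit 2) (nat_lit 14) (.e false (nat_lit 1) (nat_lit 256) (nat_lit 2) (nat_lit 14) (.e false (nat_lit 3) (nat_lit 257) (nat_lit 2) (nat_lit 14) (.e false (nat_lit 2) (nat_lit 258) (nat_lit 2) (nat_lit 14) (.e false (nat_lit 3) (nat_lit 259) (nat_lit 2) (nat_lit 14) (.e true (nat_lit 3) (nat_lit 260) (nat_lit 2) (nat_lit 14) (.e false (nat_lit 3) (nat_lit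 261) (nat_lit 2) (nat_lit 14) (.e true (nat_lit 1) (nat_lit 262) (nat_lit 2) (nat_lit 14) (.e false (nat_lit 1) (nat_lit 263) (nat_lit 2) (nat_lit 14) (.e false (nat_lit 1) (nat_lit 264) (nat_lit 2) (nat_lit 14) (.e true (nat_lit 3) (nat_lit 266) (nat_lit 2) (nat_lit 14) (.e true (nat_lit 1) (nat_lit 267) (nat_lit 2) (nat_lit 14) (.e true (nat_lit 1) (nat_lit 269) (nat_lit 2) (nat_lit 14) (.e true (nat_lit 3) (nat_lit 270) (nat_lit 2) (nat_lit 14) (.e true (nat_lit 1) (nat_lit 271) (nat_lit 2) (nat_lit 14) (.e false (nat_lit 2) (nat_lit 272) (nat_lit 2) (nat_lit 14) (.e true (nat_lit 1) (nat_lit 273) (nat_lit 2) (nat_lit 14) (.e true (nat_lit 1) (nat_lit 274) (nat_lit 2) (nat_lit 14) (.e false (nat_lit 1) (nat_lit 277) (nat_lit 2) (nat_lit 14) (.e false (nat_lit 1) (nat_lit 282) (nat_lit 2) (nat_lit 14) (.e true (nat_lit 1) (nat_lit 283) (nat_lit 2) (nat_lit 14) (.e false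 (nat_lit 1) (nat_lit 285) (nat_lit 2) (nat_lit 14) (.e true (nat_lit 1) (nat_lit 286) (nat_lit 2) (nat_lit 14) (.u (nat_lit 2) (.p (nat_lit 0) (nat_lit 1) (.p (nat_lit 2) (nat_lit 1) (.p (nat_lit 3) (nat_lit 2) (.n (nat_lit 4) (nat_lit 3) (.p (nat_lit 6) (nat_lit 4) (.n (nat_lit 7) (nat_lit 1) (.p (nat_lit 8) (nat_lit 2) (.p (nat_lit 9) (nat_lit 5) (.n (nat_lit 10) (nat_lit 2) (.p (nat_lit 11) (nat_lit 1) (.p (nat_lit 12) (nat_lit 1) (.n (nat_lit 14) (nat_lit 3) (.n (nat_lit 15) (nat_lit 2) (.n (nat_lit 16) (nat_lit 2) (.p (nat_lit 18) (nat_lit 1) (.n (nat_lit 21) (nat_lit 3) (.p (nat_lit 23) (nat_lit 1) (.p (nat_lit 24) (nat_lit 1) (.n (nat_lit 30) (nat_lit 1) (.n (nat_lit 31) (nat_lit 1) (.n (nat_lit 34) (nat_lit 1) (.n (nat_lit 35) (nat_lit 1) (.n (nat_lit 38) (nat_lit 1) .z))))))))))))))))))))))) .nil)))))))))))))))))))))))))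

noncomputable def dC2b_i3 : IL := (.e false (nat_lit 3) (nat_lit 254) (nat_lit 2) (nat_lit 14) (.e true (nat_lit 3) (nat_lit 256) (nat_lit 2) (nat_lit 14) (.e true (nat_lit 3) (nat_lit 257) (nat_lit 2) (nat_lit 14) (.e false (nat_lit 2) (nat_lit 258) (nat_lit 2) (nat_lit 14) (.e true (nat_lit 2) (nat_lit 261) (nat_lit 2) (nat_lit 14) (.e true (nat_lit 2) (nat_lit 262) (nat_lit 2) (nat_lit 14) (.e true (nat_lit 2) (nat_lit 264) (nat_lit 2) (nat_lit 14) (.e false (nat_lit 3) (nat_lit 265) (nat_lit 2) (nat_lit 14) (.e true (nat_lit 1) (nat_lit 266) (nat_lit 2) (nat_lit 14) (.e false (nat_lit 3) (nat_lit 267) (nat_lit 2) (nat_lit 14) (.e false (nat_lit 2) (nat_lit 269) (nat_lit 2) (nat_lit 14) (.e false (nat_lit 2) (nat_lit 271) (nat_lit 2) (nat_lit 14) (.e false (nat_lit 2) (nat_lit 273) (nat_lit 2) (nat_lit 14) (.e false (nat_lit 2) (nat_lit 274) (nat_lit 2) (nat_lit 14)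 (.e false (nat_lit 1) (nat_lit 275) (nat_lit 2) (nat_lit 14) (.e true (nat_lit 1) (nat_lit 276) (nat_lit 2) (nat_lit 14) (.e true (nat_lit 2) (nat_lit 277) (nat_lit 2) (nat_lit 14) (.e false (nat_lit 1) (nat_lit 279) (nat_lit 2) (nat_lit 14) (.e true (nat_lit 1) (nat_lit 282) (nat_lit 2) (nat_lit 14) (.e true (nat_lit 2) (nat_lit 283) (nat_lit 2) (nat_lit 14) (.e false (nat_lit 2) (nat_lit 285) (nat_lit 2) (nat_lit 14) (.e true (nat_lit 1) (nat_lit 288) (nat_lit 2) (nat_lit 14) (.e true (nat_lit 3) (nat_lit 255) (nat_lit 2) (nat_lit 14) (.e true (nat_lit 1) (nat_lit 270) (nat_lit 2) (nat_lit 14) (.u (nat_lit 2) (.n (nat_lit 3) (nat_lit 2) (.p (nat_lit 4) (nat_lit 3) (.n (nat_lit 5) (nat_lit 3) (.n (nat_lit 7) (nat_lit 2) (.n (nat_lit 8) (nat_lit 1) (.p (nat_lit 9) (nat_lit 1) (.n (nat_lit 11) (nat_lit 2) (.n (nat_lit 12) (nat_lit 1) (.n (nat_lit 13) (nat_lit 1) (.n (nat_lit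 15) (nat_lit 4) (.n (nat_lit 16) (nat_lit 4) (.p (nat_lit 17) (nat_lit 1) (.p (nat_lit 18) (nat_lit 1) (.n (nat_lit 19) (nat_lit 2) (.p (nat_lit 21) (nat_lit 2) (.p (nat_lit 23) (nat_lit 1) (.n (nat_lit 24) (nat_lit 5) (.p (nat_lit 25) (nat_lit 1) (.n (nat_lit 26) (nat_lit 1) (.p (nat_lit 27) (nat_lit 2) (.n (nat_lit 29) (nat_lit 1) (.p (nat_lit 30) (nat_lit 1) (.p (nat_lit 34) (nat_lit 1) (.p (nat_lit 35) (nat_lit 2) (.n (nat_lit 38) (nat_lit 2) (.n (nat_lit 205) (nat_lit 1) (.p (nat_lit 213) (nat_lit 1) (.n (nat_lit 217) (nat_lit 1) .z)))))))))))))))))))))))))))) .nil)))))))))))))))))))))))))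

noncomputable def dC2b_c275 : Cm := .mk (nat_lit 115) (nat_lit 275) (nat_lit 80) (nat_lit 11) (.c (nat_lit 11) (nat_lit 3) (nat_lit 7) (nat_lit 1) (nat_lit 11) (.c (nat_lit 16) (nat_lit 2) (nat_lit 6) (nat_lit 1) (nat_lit 14) (.c (nat_lit 18) (nat_lit 2) (nat_lit 5) (nat_lit 1) (nat_lit 16) (.c (nat_lit 20) (nat_lit 1) (nat_lit 3) (nat_lit 1) (nat_lit 18) (.c (nat_lit 33) (nat_lit 6) (nat_lit 2) (nat_lit 1) (nat_lit 19) (.c (nat_lit 42) (nat_lit 3) (nat_lit 1) (nat_lit 1) (nat_lit 25) (.c (nat_lit 45) (nat_lit 3) (nat_lit 0) (nat_lit 1) (nat_lit 28) .nil)))))))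

noncomputable def dC2b_c291 : Cm := .mk (nat_lit 226) (nat_lit 291) (nat_lit 132) (nat_lit 26) (.c (nat_lit 16) (nat_lit 2) (nat_lit 14) (nat_lit 2) (nat_lit 26) (.c (nat_lit 18) (nat_lit 2) (nat_lit 11) (nat_lit 3) (nat_lit 30) (.c (nat_lit 20) (nat_lit 1) (nat_lit 8) (nat_lit 2) (nat_lit 36) (.c (nat_lit 24) (nat_lit 6) (nat_lit 7) (nat_lit 1) (nat_lit 38) (.c (nat_lit 33) (nat_lit 6) (nat_lit 6) (nat_lit 1) (nat_lit 44) (.c (nat_lit 39) (nat_lit 3) (nat_lit 5) (nat_lit 1) (nat_lit 50) (.c (nat_lit 42) (nat_lit 3) (nat_lit 4) (nat_lit 1) (nat_lit 53) (.c (nat_lit 45) (nat_lit 3) (nat_lit 3) (nat_lit 1) (nat_lit 56) (.c (nat_lit 60) (nat_lit 14) (nat_lit 2) (nat_lit 1) (nat_lit 59) (.c (nat_lit 80) (nat_lit 11) (nat_lit 1) (nat_lit 1) (nat_lit 73) (.c (nat_lit 91) (nat_lit 6) (nat_lit 0) (nat_lit 1) (nat_lit 84) .nil)))))))))))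

noncomputable def dC2b_c276 : Cm := .mk (nat_lit 316) (nat_lit 276) (nat_lit 169) (nat_lit 16) (.c (nat_lit 18) (nat_lit 2) (nat_lit 16) (nat_lit 2) (nat_lit 16) (.c (nat_lit 20) (nat_lit 1) (nat_lit 11) (nat_lit 3) (nat_lit 20) (.c (nat_lit 33) (nat_lit 6) (nat_lit 7) (nat_lit 1) (nat_lit 23) (.c (nat_lit 42) (nat_lit 3) (nat_lit 6) (nat_lit 1) (nat_lit 29) (.c (nat_lit 45) (nat_lit 3) (nat_lit 5) (nat_lit 1) (nat_lit 32) (.c (nat_lit 48) (nat_lit 1) (nat_lit 3) (nat_lit 1) (nat_lit 35) (.c (nat_lit 80) (nat_lit 11) (nat_lit 2) (nat_lit 1) (nat_lit 36) (.c (nat_lit 97) (nat_lit 4) (nat_lit 1) (nat_lit 1) (nat_lit 47) (.c (nat_lit 101) (nat_lit 4) (nat_lit 0) (nat_lit 1) (nat_lit 51) .nil)))))))))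

noncomputable def dC2b_i4 : IL := (.e false (nat_lit 1) (nat_lit 88) (nat_lit 4) (nat_lit 10) (.e true (nat_lit 1) (nat_lit 89) (nat_lit 4) (nat_lit 10) (.e false (nat_lit 3) (nat_lit 132) (nat_lit 1) (nat_lit 13) (.e false (nat_lit 1) (nat_lit 135) (nat_lit 1) (nat_lit 13) (.e true (nat_lit 1) (nat_lit 136) (nat_lit 1) (nat_lit 13) (.e true (nat_lit 1) (nat_lit 137) (nat_lit 1) (nat_lit 13) (.e false (nat_lit 2) (nat_lit 139) (nat_lit 1) (nat_lit 13) (.e true (nat_lit 2) (nat_lit 140) (nat_lit 1) (nat_lit 13) (.e false (nat_lit 1) (nat_lit 145) (nat_lit 1) (nat_lit 13) (.e false (nat_lit 3) (nat_lit 149) (nat_lit 1) (nat_lit 13) (.e true (nat_lit 3) (nat_lit 150) (nat_lit 1) (nat_lit 13) (.e true (nat_lit 3) (nat_lit 151) (nat_lit 1) (nat_lit 13) (.e true (nat_lit 2) (nat_lit 152) (nat_lit 1) (nat_lit 13) (.e true (nat_lit 2) (nat_lit 153) (nat_lit 1) (nat_lit 13) (.e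 true (nat_lit 3) (nat_lit 155) (nat_lit 1) (nat_lit 13) (.e false (nat_lit 3) (nat_lit 156) (nat_lit 1) (nat_lit 13) (.e false (nat_lit 3) (nat_lit 157) (nat_lit 1) (nat_lit 13) (.e false (nat_lit 2) (nat_lit 134) (nat_lit 1) (nat_lit 13) (.e false (nat_lit 2) (nat_lit 144) (nat_lit 1) (nat_lit 13) (.e false (nat_lit 3) (nat_lit 154) (nat_lit 1) (nat_lit 13) (.e true (nat_lit 1) (nat_lit 133) (nat_lit 1) (nat_lit 13) (.e true (nat_lit 1) (nat_lit 142) (nat_lit 1) (nat_lit 13) (.e false (nat_lit 1) (nat_lit 143) (nat_lit 1) (nat_lit 13) (.e true (nat_lit 1) (nat_lit 147) (nat_lit 1) (nat_lit 13) (.u (nat_lit 2) (.p (nat_lit 0) (nat_lit 1) (.n (nat_lit 1) (nat_lit 3) (.p (nat_lit 3) (nat_lit 4) (.p (nat_lit 4) (nat_lit 1) (.n (nat_lit 5) (nat_lit 1) (.n (nat_lit 6) (nat_lit 2) (.p (nat_lit 8) (nat_lit 1) (.n (nat_lit 9) (nat_lit 1) (.p (nat_lit 10) (nat_lit 2) (.n (nat_lit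 12) (nat_lit 1) (.n (nat_lit 13) (nat_lit 2) (.p (nat_lit 15) (nat_lit 2) (.n (nat_lit 16) (nat_lit 1) (.p (nat_lit 17) (nat_lit 1) (.n (nat_lit 20) (nat_lit 3) (.n (nat_lit 21) (nat_lit 1) (.n (nat_lit 22) (nat_lit 3) (.p (nat_lit 23) (nat_lit 3) (.n (nat_lit 24) (nat_lit 1) (.n (nat_lit 25) (nat_lit 3) (.n (nat_lit 26) (nat_lit 1) (.p (nat_lit 27) (nat_lit 3) (.p (nat_lit 28) (nat_lit 2) (.n (nat_lit 29) (nat_lit 1) (.n (nat_lit 30) (nat_lit 1) (.n (nat_lit 33) (nat_lit 1) (.n (nat_lit 35) (nat_lit 1) (.p (nat_lit 37) (nat_lit 1) (.n (nat_lit 38) (nat_lit 3) (.p (nat_lit 39) (nat_lit 1) (.p (nat_lit 40) (nat_lit 1) (.p (nat_lit 41) (nat_lit 2) (.p (nat_lit 42) (nat_lit 2) (.p (nat_lit 43) (nat_lit 4) (.p (nat_lit 44) (nat_lit 1) (.p (nat_lit 46) (nat_lit 1) .z)))))))))))))))))))))))))))))))))))) .nil)))))))))))))))))))))))))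

noncomputable def dC2b_c307 : Cm := .mk (nat_lit 399) (nat_lit 307) (nat_lit 205) (nat_lit 47) (.c (nat_lit 21) (nat_lit 3) (nat_lit 20) (nat_lit 1) (nat_lit 47) (.c (nat_lit 24) (nat_lit 6) (nat_lit 18) (nat_lit 2) (nat_lit 50) (.c (nat_lit 30) (nat_lit 3) (nat_lit 16) (nat_lit 2) (nat_lit 62) (.c (nat_lit 33) (nat_lit 6) (nat_lit 14) (nat_lit 2) (nat_lit 68) (.c (nat_lit 39) (nat_lit 3) (nat_lit 11) (nat_lit 3) (nat_lit 80) (.c (nat_lit 42) (nat_lit 3) (nat_lit 10) (nat_lit 1) (nat_lit 89) (.c (nat_lit 45) (nat_lit 3) (nat_lit 8) (nat_lit 2) (nat_lit 92) (.c (nat_lit 49) (nat_lit 11) (nat_lit 7) (nat_lit 1) (nat_lit 98) (.c (nat_lit 60) (nat_lit 14) (nat_lit 6) (nat_lit 1) (nat_lit 109) (.c (nat_lit 74) (nat_lit 6) (nat_lit 5) (nat_lit 1) (nat_lit 123) (.c (nat_lit 80) (nat_lit 11) (nat_lit 4) (nat_lit 1) (nat_lit 129) (.c (nat_lit 91) (nat_lit 6) (nat_lit 3) (nat_lit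 1) (nat_lit 140) (.c (nat_lit 106) (nat_lit 26) (nat_lit 2) (nat_lit 1) (nat_lit 146) (.c (nat_lit 132) (nat_lit 26) (nat_lit 1) (nat_lit 1) (nat_lit 172) (.c (nat_lit 158) (nat_lit 11) (nat_lit 0) (nat_lit 1) (nat_lit 198) .nil)))))))))))))))

noncomputable def dC2b_i5 : IL := (.e false (nat_lit 3) (nat_lit 137) (nat_lit 2) (nat_lit 11) (.e true (nat_lit 2) (nat_lit 138) (nat_lit 2) (nat_lit 11) (.e false (nat_lit 1) (nat_lit 139) (nat_lit 2) (nat_lit 11) (.e true (nat_lit 1) (nat_lit 140) (nat_lit 2) (nat_lit 11) (.e false (nat_lit 3) (nat_lit 141) (nat_lit 2) (nat_lit 11) (.e false (nat_lit 1) (nat_lit 142) (nat_lit 2) (nat_lit 11) (.e false (nat_lit 2) (nat_lit 143) (nat_lit 2) (nat_lit 11) (.e true (nat_lit 1) (nat_lit 145) (nat_lit 2) (nat_lit 11) (.e true (nat_lit 2) (nat_lit 147) (nat_lit 2) (nat_lit 11) (.e false (nat_lit 3) (nat_lit 149) (nat_lit 2) (nat_lit 11)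 (.e false (nat_lit 1) (nat_lit 150) (nat_lit 2) (nat_lit 11) (.e true (nat_lit 1) (nat_lit 151) (nat_lit 2) (nat_lit 11) (.e true (nat_lit 3) (nat_lit 152) (nat_lit 2) (nat_lit 11) (.e true (nat_lit 2) (nat_lit 153) (nat_lit 2) (nat_lit 11) (.e true (nat_lit 1) (nat_lit 154) (nat_lit 2) (nat_lit 11) (.e false (nat_lit 3) (nat_lit 155) (nat_lit 2) (nat_lit 11) (.e true (nat_lit 3) (nat_lit 156) (nat_lit 2) (nat_lit 11) (.e false (nat_lit 3) (nat_lit 157) (nat_lit 2) (nat_lit 11) (.e false (nat_lit 1) (nat_lit 60) (nat_lit 7) (nat_lit 6) (.e false (nat_lit 1) (nat_lit 61) (nat_lit 7) (nat_lit 6) (.e false (nat_lit 1) (nat_lit 62) (nat_lit 7) (nat_lit 6) (.e true (nat_lit 2) (nat_lit 63) (nat_lit 7) (nat_lit 6) (.e true (nat_lit 1) (nat_lit 64) (nat_lit 7) (nat_lit 6) (.e false (nat_lit 1) (nat_lit 65) (nat_lit 7) (nat_lit 6) (.u (nat_lit 2) (.n (nat_lit 0) (nat_lit 1) (.n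 (nat_lit 11) (nat_lit 1) (.p (nat_lit 12) (nat_lit 1) (.n (nat_lit 13) (nat_lit 1) (.p (nat_lit 19) (nat_lit 1) (.n (nat_lit 20) (nat_lit 2) (.p (nat_lit 21) (nat_lit 1) (.n (nat_lit 22) (nat_lit 1) (.p (nat_lit 23) (nat_lit 1) (.n (nat_lit 24) (nat_lit 1) (.n (nat_lit 31) (nat_lit 1) (.p (nat_lit 33) (nat_lit 1) .z)))))))))))) .nil)))))))))))))))))))))))))

noncomputable def dC2b_c292 : Cm := .mk (nat_lit 561) (nat_lit 292) (nat_lit 252) (nat_lit 37) (.c (nat_lit 24) (nat_lit 6) (nat_lit 20) (nat_lit 1) (nat_lit 37) (.c (nat_lit 33) (nat_lit 6) (nat_lit 18) (nat_lit 2) (nat_lit 43) (.c (nat_lit 39) (nat_lit 3) (nat_lit 16) (nat_lit 2) (nat_lit 55) (.c (nat_lit 42) (nat_lit 3) (nat_lit 14) (nat_lit 2) (nat_lit 61) (.c (nat_lit 45) (nat_lit 3) (nat_lit 11) (nat_lit 3) (nat_lit 67) (.c (nat_lit 48) (nat_lit 1) (nat_lit 8) (nat_lit 2) (nat_lit 76) (.c (nat_lit 60) (nat_lit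 14) (nat_lit 7) (nat_lit 1) (nat_lit 78) (.c (nat_lit 80) (nat_lit 11) (nat_lit 6) (nat_lit 1) (nat_lit 92) (.c (nat_lit 91) (nat_lit 6) (nat_lit 5) (nat_lit 1) (nat_lit 103) (.c (nat_lit 97) (nat_lit 4) (nat_lit 4) (nat_lit 1) (nat_lit 109) (.c (nat_lit 101) (nat_lit 4) (nat_lit 3) (nat_lit 1) (nat_lit 113) (.c (nat_lit 132) (nat_lit 26) (nat_lit 2) (nat_lit 1) (nat_lit 117) (.c (nat_lit 169) (nat_lit 16) (nat_lit 1) (nat_lit 1) (nat_lit 143) (.c (nat_lit 185) (nat_lit 10) (nat_lit 0) (nat_lit 1) (nat_lit 159) .nil))))))))))))))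

noncomputable def dC2b_i6 : IL := (.s false (nat_lit 1) (nat_lit 44) (nat_lit 1) (nat_lit 2) (nat_lit 1) true (nat_lit 9) true (nat_lit 12) false (nat_lit 3) true (nat_lit 12) true (nat_lit 11) (.e false (nat_lit 1) (nat_lit 99) (nat_lit 4) (nat_lit 9) (.e false (nat_lit 2) (nat_lit 169) (nat_lit 1) (nat_lit 12) (.e true (nat_lit 1) (nat_lit 171) (nat_lit 1) (nat_lit 12) (.e false (nat_lit 2) (nat_lit 172) (nat_lit 1) (nat_lit 12) (.e true (nat_lit 3) (nat_lit 173) (nat_lit 1) (nat_lit 12) (.e false (nat_lit 1) (nat_lit 177) (nat_lit 1) (nat_lit 12) (.e false (nat_lit 2) (nat_lit 178) (nat_lit 1) (nat_lit 12) (.e false (nat_lit 3) (nat_lit 175) (nat_lit 1) (nat_lit 12) (.e false (nat_lit 3) (nat_lit 176) (nat_lit 1) (nat_lit 12) (.e false (nat_lit 3) (nat_lit 179) (nat_lit 1) (nat_lit 12) (.e false (nat_lit 1) (nat_lit 183) (nat_lit 1) (nat_lit 12) (.e false (nat_lit 1)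 (nat_lit 132) (nat_lit 2) (nat_lit 11) (.e false (nat_lit 1) (nat_lit 135) (nat_lit 2) (nat_lit 11) (.e false (nat_lit 1) (nat_lit 137) (nat_lit 2) (nat_lit 11) (.e false (nat_lit 1) (nat_lit 138) (nat_lit 2) (nat_lit 11) (.e true (nat_lit 2) (nat_lit 139) (nat_lit 2) (nat_lit 11) (.e false (nat_lit 2) (nat_lit 140) (nat_lit 2) (nat_lit 11) (.e true (nat_lit 3) (nat_lit 145) (nat_lit 2) (nat_lit 11) (.e true (nat_lit 1) (nat_lit 152) (nat_lit 2) (nat_lit 11) (.e true (nat_lit 1) (nat_lit 155) (nat_lit 2) (nat_lit 11) (.e true (nat_lit 1) (nat_lit 134) (nat_lit 2) (nat_lit 11) (.e false (nat_lit 1) (nat_lit 144) (nat_lit 2) (nat_lit 11) (.e false (nat_lit 2) (nat_lit 154) (nat_lit 2) (nat_lit 11) (.u (nat_lit 2) (.n (nat_lit 1) (nat_lit 2) (.p (nat_lit 2) (nat_lit 2) (.p (nat_lit 3) (nat_lit 3) (.p (nat_lit 4) (nat_lit 1) (.p (nat_lit 5) (nat_lit 2) (.n (nat_lit 6) (nat_lit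 4) (.n (nat_lit 7) (nat_lit 1) (.p (nat_lit 8) (nat_lit 1) (.p (nat_lit 9) (nat_lit 1) (.p (nat_lit 10) (nat_lit 2) (.p (nat_lit 11) (nat_lit 2) (.p (nat_lit 12) (nat_lit 1) (.p (nat_lit 13) (nat_lit 3) (.n (nat_lit 14) (nat_lit 3) (.p (nat_lit 15) (nat_lit 2) (.n (nat_lit 17) (nat_lit 1) (.p (nat_lit 18) (nat_lit 3) (.n (nat_lit 19) (nat_lit 1) (.n (nat_lit 20) (nat_lit 1) (.n (nat_lit 21) (nat_lit 2) (.p (nat_lit 22) (nat_lit 2) (.p (nat_lit 24) (nat_lit 1) (.p (nat_lit 25) (nat_lit 3) (.p (nat_lit 26) (nat_lit 1) (.p (nat_lit 27) (nat_lit 2) (.n (nat_lit 28) (nat_lit 1) (.n (nat_lit 31) (nat_lit 2) (.p (nat_lit 35) (nat_lit 1) (.p (nat_lit 117) (nat_lit 1) (.p (nat_lit 121) (nat_lit 1) (.n (nat_lit 123) (nat_lit 1) (.p (nat_lit 124) (nat_lit 1) (.n (nat_lit 125) (nat_lit 1) (.p (nat_lit 126) (nat_lit 1) (.n (nat_lit 134) (nat_lit 1) (.p (nat_lit 135) (nat_lit 1) (.p (nat_lit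 136) (nat_lit 1) (.p (nat_lit 137) (nat_lit 1) (.p (nat_lit 138) (nat_lit 1) (.n (nat_lit 141) (nat_lit 1) (.n (nat_lit 142) (nat_lit 1) (.n (nat_lit 143) (nat_lit 1) (.p (nat_lit 147) (nat_lit 1) .z))))))))))))))))))))))))))))))))))))))))))) .nil)))))))))))))))))))))))))

noncomputable def dC2b_c277 : Cm := .mk (nat_lit 746) (nat_lit 277) (nat_lit 305) (nat_lit 19) (.c (nat_lit 33) (nat_lit 6) (nat_lit 20) (nat_lit 1) (nat_lit 19) (.c (nat_lit 42) (nat_lit 3) (nat_lit 18) (nat_lit 2) (nat_lit 25) (.c (nat_lit 45) (nat_lit 3) (nat_lit 16) (nat_lit 2) (nat_lit 31) (.c (nat_lit 48) (nat_lit 1) (nat_lit 11) (nat_lit 3) (nat_lit 37) (.c (nat_lit 80) (nat_lit 11) (nat_lit 7) (nat_lit 1) (nat_lit 40) (.c (nat_lit 97) (nat_lit 4) (nat_lit 6) (nat_lit 1) (nat_lit 51) (.c (nat_lit 101) (nat_lit 4) (nat_lit 5) (nat_lit 1) (nat_lit 55) (.c (nat_lit 105) (nat_lit 1) (nat_lit 3) (nat_lit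 1) (nat_lit 59) (.c (nat_lit 169) (nat_lit 16) (nat_lit 2) (nat_lit 1) (nat_lit 60) (.c (nat_lit 195) (nat_lit 5) (nat_lit 1) (nat_lit 1) (nat_lit 76) (.c (nat_lit 200) (nat_lit 5) (nat_lit 0) (nat_lit 1) (nat_lit 81) .nil)))))))))))

noncomputable def dC2b_i7 : IL := (.e true (nat_lit 3) (nat_lit 277) (nat_lit 1) (nat_lit 17) (.e false (nat_lit 2) (nat_lit 285) (nat_lit 1) (nat_lit 17) (.e false (nat_lit 3) (nat_lit 258) (nat_lit 1) (nat_lit 17) (.e false (nat_lit 1) (nat_lit 255) (nat_lit 1) (nat_lit 17) (.e true (nat_lit 2) (nat_lit 275) (nat_lit 1) (nat_lit 17) (.e false (nat_lit 2) (nat_lit 284) (nat_lit 1) (nat_lit 17) (.e false (nat_lit 3) (nat_lit 262) (nat_lit 1) (nat_lit 17) (.e true (nat_lit 1) (nat_lit 265) (nat_lit 1) (nat_lit 17) (.e false (nat_lit 2) (nat_lit 270) (nat_lit 1) (nat_lit 17) (.e true (nat_lit 3) (nat_lit 273) (nat_lit 1) (nat_lit 17) (.e true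 (nat_lit 2) (nat_lit 286) (nat_lit 1) (nat_lit 17) (.e false (nat_lit 1) (nat_lit 132) (nat_lit 6) (nat_lit 12) (.e false (nat_lit 1) (nat_lit 135) (nat_lit 6) (nat_lit 12) (.e false (nat_lit 1) (nat_lit 137) (nat_lit 6) (nat_lit 12) (.e false (nat_lit 1) (nat_lit 138) (nat_lit 6) (nat_lit 12) (.e true (nat_lit 2) (nat_lit 139) (nat_lit 6) (nat_lit 12) (.e false (nat_lit 2) (nat_lit 140) (nat_lit 6) (nat_lit 12) (.e true (nat_lit 3) (nat_lit 145) (nat_lit 6) (nat_lit 12) (.e true (nat_lit 1) (nat_lit 152) (nat_lit 6) (nat_lit 12) (.e true (nat_lit 1) (nat_lit 155) (nat_lit 6) (nat_lit 12) (.e true (nat_lit 1) (nat_lit 134) (nat_lit 6) (nat_lit 12) (.e false (nat_lit 1) (nat_lit 144) (nat_lit 6) (nat_lit 12) (.e false (nat_lit 2) (nat_lit 154) (nat_lit 6) (nat_lit 12) (.u (nat_lit 2) (.n (nat_lit 1) (nat_lit 2) (.p (nat_lit 2) (nat_lit 5) (.n (nat_lit 3) (nat_lit 2) (.p (nat_lit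 4) (nat_lit 6) (.p (nat_lit 5) (nat_lit 8) (.n (nat_lit 6) (nat_lit 1) (.n (nat_lit 7) (nat_lit 3) (.n (nat_lit 8) (nat_lit 2) (.p (nat_lit 9) (nat_lit 3) (.p (nat_lit 10) (nat_lit 1) (.p (nat_lit 11) (nat_lit 4) (.p (nat_lit 12) (nat_lit 2) (.n (nat_lit 14) (nat_lit 1) (.n (nat_lit 16) (nat_lit 3) (.p (nat_lit 17) (nat_lit 1) (.p (nat_lit 18) (nat_lit 1) (.n (nat_lit 19) (nat_lit 1) (.p (nat_lit 20) (nat_lit 1) (.n (nat_lit 21) (nat_lit 1) (.p (nat_lit 22) (nat_lit 1) (.p (nat_lit 23) (nat_lit 3) (.p (nat_lit 24) (nat_lit 7) (.p (nat_lit 25) (nat_lit 3) (.n (nat_lit 26) (nat_lit 2) (.n (nat_lit 27) (nat_lit 3) (.p (nat_lit 28) (nat_lit 2) (.n (nat_lit 29) (nat_lit 5) (.n (nat_lit 31) (nat_lit 1) (.n (nat_lit 32) (nat_lit 1) (.n (nat_lit 34) (nat_lit 5) (.p (nat_lit 35) (nat_lit 1) (.p (nat_lit 36) (nat_lit 3) (.p (nat_lit 37) (nat_lit 3) (.p (nat_lit 39) (nat_lit 2) (.p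 (nat_lit 40) (nat_lit 2) (.p (nat_lit 41) (nat_lit 3) (.p (nat_lit 42) (nat_lit 1) (.n (nat_lit 45) (nat_lit 2) (.n (nat_lit 46) (nat_lit 4) (.n (nat_lit 47) (nat_lit 1) (.n (nat_lit 48) (nat_lit 1) (.p (nat_lit 239) (nat_lit 1) (.p (nat_lit 243) (nat_lit 1) (.n (nat_lit 245) (nat_lit 1) (.p (nat_lit 246) (nat_lit 1) (.n (nat_lit 247) (nat_lit 1) (.p (nat_lit 248) (nat_lit 1) (.n (nat_lit 256) (nat_lit 1) (.p (nat_lit 257) (nat_lit 1) (.p (nat_lit 258) (nat_lit 1) (.p (nat_lit 259) (nat_lit 1) (.p (nat_lit 260) (nat_lit 1) (.n (nat_lit 263) (nat_lit 1) (.n (nat_lit 264) (nat_lit 1) (.p (nat_lit 350) (nat_lit 1) (.p (nat_lit 352) (nat_lit 1) (.n (nat_lit 353) (nat_lit 1) (.n (nat_lit 354) (nat_lit 1) (.n (nat_lit 355) (nat_lit 1) (.n (nat_lit 358) (nat_lit 1) .z)))))))))))))))))))))))))))))))))))))))))))))))))))))))))))) (.u (nat_lit 2) (.n (nat_lit 359) (nat_lit 1) (.p (nat_lit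 360) (nat_lit 1) (.p (nat_lit 361) (nat_lit 1) (.p (nat_lit 371) (nat_lit 1) (.p (nat_lit 374) (nat_lit 1) (.n (nat_lit 382) (nat_lit 1) .z)))))) .nil)))))))))))))))))))))))))

noncomputable def dC2b_i8 : IL := (.e true (nat_lit 1) (nat_lit 99) (nat_lit 14) (nat_lit 6) (.e false (nat_lit 3) (nat_lit 252) (nat_lit 2) (nat_lit 14) (.e false (nat_lit 2) (nat_lit 253) (nat_lit 2) (nat_lit 14) (.e false (nat_lit 2) (nat_lit 255) (nat_lit 2) (nat_lit 14) (.e true (nat_lit 3) (nat_lit 256) (nat_lit 2) (nat_lit 14) (.e true (nat_lit 3) (nat_lit 257) (nat_lit 2) (nat_lit 14) (.e true (nat_lit 3) (nat_lit 259) (nat_lit 2) (nat_lit 14) (.e false (nat_lit 3) (nat_lit 260) (nat_lit 2) (nat_lit 14) (.e false (nat_lit 3) (nat_lit 262) (nat_lit 2) (nat_lit 14) (.e false (nat_lit 1) (nat_lit 263) (nat_lit 2) (nat_lit 14) (.e true (nat_lit 1) (nat_lit 264) (nat_lit 2) (nat_lit 14) (.e true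 (nat_lit 3) (nat_lit 265) (nat_lit 2) (nat_lit 14) (.e false (nat_lit 3) (nat_lit 267) (nat_lit 2) (nat_lit 14) (.e true (nat_lit 2) (nat_lit 269) (nat_lit 2) (nat_lit 14) (.e false (nat_lit 2) (nat_lit 270) (nat_lit 2) (nat_lit 14) (.e false (nat_lit 2) (nat_lit 274) (nat_lit 2) (nat_lit 14) (.e false (nat_lit 2) (nat_lit 275) (nat_lit 2) (nat_lit 14) (.e true (nat_lit 1) (nat_lit 199) (nat_lit 4) (nat_lit 12) (.e true (nat_lit 2) (nat_lit 258) (nat_lit 2) (nat_lit 14) (.e false (nat_lit 2) (nat_lit 261) (nat_lit 2) (nat_lit 14) (.e true (nat_lit 3) (nat_lit 266) (nat_lit 2) (nat_lit 14) (.e true (nat_lit 1) (nat_lit 283) (nat_lit 2) (nat_lit 14) (.e true (nat_lit 1) (nat_lit 284) (nat_lit 2) (nat_lit 14) (.e false (nat_lit 1) (nat_lit 285) (nat_lit 2) (nat_lit 14) (.u (nat_lit 2) (.n (nat_lit 0) (nat_lit 2) (.p (nat_lit 1) (nat_lit 2) (.n (nat_lit 2) (nat_lit 2) (.n (nat_lit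 3) (nat_lit 3) (.n (nat_lit 4) (nat_lit 3) (.n (nat_lit 5) (nat_lit 1) (.n (nat_lit 6) (nat_lit 3) (.n (nat_lit 7) (nat_lit 1) (.n (nat_lit 8) (nat_lit 1) (.n (nat_lit 9) (nat_lit 6) (.p (nat_lit 10) (nat_lit 4) (.p (nat_lit 11) (nat_lit 2) (.n (nat_lit 12) (nat_lit 1) (.p (nat_lit 13) (nat_lit 1) (.p (nat_lit 14) (nat_lit 1) (.p (nat_lit 15) (nat_lit 2) (.p (nat_lit 16) (nat_lit 2) (.n (nat_lit 17) (nat_lit 1) (.n (nat_lit 18) (nat_lit 4) (.n (nat_lit 19) (nat_lit 1) (.p (nat_lit 21) (nat_lit 2) (.n (nat_lit 23) (nat_lit 1) (.n (nat_lit 24) (nat_lit 1) (.n (nat_lit 27) (nat_lit 1) (.p (nat_lit 29) (nat_lit 1) (.n (nat_lit 30) (nat_lit 1) (.p (nat_lit 31) (nat_lit 1) (.p (nat_lit 34) (nat_lit 1) (.n (nat_lit 35) (nat_lit 1) (.p (nat_lit 38) (nat_lit 1) (.n (nat_lit 204) (nat_lit 1) (.p (nat_lit 208) (nat_lit 1) (.p (nat_lit 209) (nat_lit 1) (.n (nat_lit 226) (nat_lit 1)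 .z)))))))))))))))))))))))))))))))))) .nil)))))))))))))))))))))))))

noncomputable def dC2b_i9 : IL := (.e true (nat_lit 2) (nat_lit 253) (nat_lit 2) (nat_lit 14) (.e false (nat_lit 3) (nat_lit 254) (nat_lit 2) (nat_lit 14) (.e false (nat_lit 3) (nat_lit 255) (nat_lit 2) (nat_lit 14) (.e false (nat_lit 2) (nat_lit 256) (nat_lit 2) (nat_lit 14) (.e false (nat_lit 3) (nat_lit 257) (nat_lit 2) (nat_lit 14) (.e true (nat_lit 2) (nat_lit 258) (nat_lit 2) (nat_lit 14) (.e false (nat_lit 1) (nat_lit 259) (nat_lit 2) (nat_lit 14) (.e true (nat_lit 1) (nat_lit 260) (nat_lit 2) (nat_lit 14) (.e true (nat_lit 1) (nat_lit 261) (nat_lit 2) (nat_lit 14) (.e false (nat_lit 3) (nat_lit 262) (nat_lit 2) (nat_lit 14) (.e false (nat_lit 3) (nat_lit 264) (nat_lit 2) (nat_lit 14) (.e true (nat_lit 1) (nat_lit 265) (nat_lit 2) (nat_lit 14) (.e true (nat_lit 2) (nat_lit 266) (nat_lit 2) (nat_lit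 14) (.e false (nat_lit 2) (nat_lit 267) (nat_lit 2) (nat_lit 14) (.e false (nat_lit 2) (nat_lit 269) (nat_lit 2) (nat_lit 14) (.e true (nat_lit 1) (nat_lit 270) (nat_lit 2) (nat_lit 14) (.e true (nat_lit 3) (nat_lit 272) (nat_lit 2) (nat_lit 14) (.e false (nat_lit 2) (nat_lit 274) (nat_lit 2) (nat_lit 14) (.e true (nat_lit 3) (nat_lit 275) (nat_lit 2) (nat_lit 14) (.e false (nat_lit 1) (nat_lit 277) (nat_lit 2) (nat_lit 14) (.e true (nat_lit 1) (nat_lit 283) (nat_lit 2) (nat_lit 14) (.e false (nat_lit 1) (nat_lit 284) (nat_lit 2) (nat_lit 14) (.e false (nat_lit 2) (nat_lit 285) (nat_lit 2) (nat_lit 14) (.e true (nat_lit 1) (nat_lit 286) (nat_lit 2) (nat_lit 14) (.u (nat_lit 2) (.p (nat_lit 0) (nat_lit 2) (.p (nat_lit 1) (nat_lit 1) (.p (nat_lit 2) (nat_lit 3) (.n (nat_lit 4) (nat_lit 4) (.p (nat_lit 5) (nat_lit 1) (.p (nat_lit 6) (nat_lit 2) (.n (nat_lit 7) (nat_lit 1) (.n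 (nat_lit 8) (nat_lit 2) (.p (nat_lit 9) (nat_lit 2) (.n (nat_lit 10) (nat_lit 1) (.p (nat_lit 11) (nat_lit 4) (.n (nat_lit 12) (nat_lit 3) (.p (nat_lit 13) (nat_lit 2) (.p (nat_lit 14) (nat_lit 1) (.n (nat_lit 18) (nat_lit 6) (.n (nat_lit 19) (nat_lit 2) (.p (nat_lit 23) (nat_lit 1) (.p (nat_lit 24) (nat_lit 2) (.p (nat_lit 25) (nat_lit 2) (.n (nat_lit 27) (nat_lit 2) (.p (nat_lit 29) (nat_lit 1) (.n (nat_lit 34) (nat_lit 1) (.n (nat_lit 38) (nat_lit 1) .z))))))))))))))))))))))) .nil)))))))))))))))))))))))))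

noncomputable def dC2b_i10 : IL := (.e false (nat_lit 1) (nat_lit 310) (nat_lit 1) (nat_lit 15) (.e true (nat_lit 1) (nat_lit 311) (nat_lit 1) (nat_lit 15) (.e true (nat_lit 1) (nat_lit 312) (nat_lit 1) (nat_lit 15) (.e true (nat_lit 1) (nat_lit 314) (nat_lit 1) (nat_lit 15) (.e false (nat_lit 2) (nat_lit 317) (nat_lit 1) (nat_lit 15) (.e true (nat_lit 2) (nat_lit 321) (nat_lit 1) (nat_lit 15) (.e false (nat_lit 3) (nat_lit 313) (nat_lit 1) (nat_lit 15) (.e true (nat_lit 1) (nat_lit 315) (nat_lit 1) (nat_lit 15) (.e true (nat_lit 3) (nat_lit 318) (nat_lit 1) (nat_lit 15) (.e false (nat_lit 2) (nat_lit 323) (nat_lit 1) (nat_lit 15) (.e false (nat_lit 1) (nat_lit 44) (nat_lit 39) (nat_lit 0) (.e true (nat_lit 1) (nat_lit 44) (nat_lit 40) (nat_lit 0) (.e false (nat_lit 1) (nat_lit 132) (nat_lit 7) (nat_lit 9) (.e false (nat_lit 1) (nat_lit 135) (nat_lit 7) (nat_lit 9) (.e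 false (nat_lit 1) (nat_lit 137) (nat_lit 7) (nat_lit 9) (.e false (nat_lit 1) (nat_lit 138) (nat_lit 7) (nat_lit 9) (.e true (nat_lit 2) (nat_lit 139) (nat_lit 7) (nat_lit 9) (.e false (nat_lit 2) (nat_lit 140) (nat_lit 7) (nat_lit 9) (.e true (nat_lit 3) (nat_lit 145) (nat_lit 7) (nat_lit 9) (.e true (nat_lit 1) (nat_lit 152) (nat_lit 7) (nat_lit 9) (.e true (nat_lit 1) (nat_lit 155) (nat_lit 7) (nat_lit 9) (.e true (nat_lit 1) (nat_lit 134) (nat_lit 7) (nat_lit 9) (.e false (nat_lit 1) (nat_lit 144) (nat_lit 7) (nat_lit 9) (.e false (nat_lit 2) (nat_lit 154) (nat_lit 7) (nat_lit 9) (.u (nat_lit 2) (.n (nat_lit 0) (nat_lit 2) (.p (nat_lit 1) (nat_lit 2) (.p (nat_lit 2) (nat_lit 1) (.p (nat_lit 3) (nat_lit 1) (.p (nat_lit 4) (nat_lit 1) (.p (nat_lit 5) (nat_lit 2) (.p (nat_lit 6) (nat_lit 2) (.n (nat_lit 8) (nat_lit 2) (.n (nat_lit 9) (nat_lit 1) (.n (nat_lit 10) (nat_lit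 1) (.n (nat_lit 11) (nat_lit 1) (.n (nat_lit 12) (nat_lit 1) (.n (nat_lit 13) (nat_lit 1) (.n (nat_lit 15) (nat_lit 2) (.n (nat_lit 16) (nat_lit 2) (.n (nat_lit 17) (nat_lit 2) (.p (nat_lit 18) (nat_lit 3) (.p (nat_lit 19) (nat_lit 1) (.p (nat_lit 23) (nat_lit 2) (.p (nat_lit 24) (nat_lit 1) (.n (nat_lit 25) (nat_lit 2) (.p (nat_lit 26) (nat_lit 1) (.n (nat_lit 34) (nat_lit 1) (.p (nat_lit 35) (nat_lit 1) (.p (nat_lit 38) (nat_lit 1) (.p (nat_lit 142) (nat_lit 1) (.p (nat_lit 146) (nat_lit 1) (.n (nat_lit 148) (nat_lit 1) (.p (nat_lit 149) (nat_lit 1) (.n (nat_lit 150) (nat_lit 1) (.p (nat_lit 151) (nat_lit 1) (.n (nat_lit 159) (nat_lit 1) (.p (nat_lit 160) (nat_lit 1) (.p (nat_lit 161) (nat_lit 1) (.p (nat_lit 162) (nat_lit 1) (.p (nat_lit 163) (nat_lit 1) (.n (nat_lit 166) (nat_lit 1) (.n (nat_lit 167) (nat_lit 1) (.n (nat_lit 241) (nat_lit 1) (.n (nat_lit 242) (nat_lit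 1) (.p (nat_lit 243) (nat_lit 1) (.p (nat_lit 245) (nat_lit 1) (.n (nat_lit 246) (nat_lit 1) (.n (nat_lit 249) (nat_lit 1) (.p (nat_lit 250) (nat_lit 1) .z))))))))))))))))))))))))))))))))))))))))))))) .nil)))))))))))))))))))))))))

noncomputable def dC2b_c51 : Cm := .mk (nat_lit 290) (nat_lit 51) (nat_lit 158) (nat_lit 11) (.c (nat_lit 18) (nat_lit 2) (nat_lit 14) (nat_lit 2) (nat_lit 11) (.c (nat_lit 20) (nat_lit 1) (nat_lit 10) (nat_lit 1) (nat_lit 15) (.c (nat_lit 30) (nat_lit 3) (nat_lit 7) (nat_lit 1) (nat_lit 16) (.c (nat_lit 39) (nat_lit 3) (nat_lit 6) (nat_lit 1) (nat_lit 19) (.c (nat_lit 45) (nat_lit 3) (nat_lit 4) (nat_lit 1) (nat_lit 22) (.c (nat_lit 74) (nat_lit 6) (nat_lit 2) (nat_lit 1) (nat_lit 25) (.c (nat_lit 91) (nat_lit 6) (nat_lit 1) (nat_lit 1) (nat_lit 31) .nil)))))))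

noncomputable def dC2b_c36 : Cm := .mk (nat_lit 355) (nat_lit 36) (nat_lit 185) (nat_lit 10) (.c (nat_lit 18) (nat_lit 2) (nat_lit 18) (nat_lit 2) (nat_lit 10) (.c (nat_lit 20) (nat_lit 1) (nat_lit 14) (nat_lit 2) (nat_lit 14) (.c (nat_lit 39) (nat_lit 3) (nat_lit 7) (nat_lit 1) (nat_lit 16) (.c (nat_lit 45) (nat_lit 3) (nat_lit 6) (nat_lit 1) (nat_lit 19) (.c (nat_lit 48) (nat_lit 1) (nat_lit 4) (nat_lit 1) (nat_lit 22) (.c (nat_lit 91) (nat_lit 6) (nat_lit 2) (nat_lit 1) (nat_lit 23) (.c (nat_lit 101) (nat_lit 4) (nat_lit 1) (nat_lit 1) (nat_lit 29) .nil)))))))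

noncomputable def dC2b_c21 : Cm := .mk (nat_lit 388) (nat_lit 21) (nat_lit 200) (nat_lit 5) (.c (nat_lit 20) (nat_lit 1) (nat_lit 18) (nat_lit 2) (nat_lit 5) (.c (nat_lit 45) (nat_lit 3) (nat_lit 7) (nat_lit 1) (nat_lit 7) (.c (nat_lit 48) (nat_lit 1) (nat_lit 6) (nat_lit 1) (nat_lit 10) (.c (nat_lit 101) (nat_lit 4) (nat_lit 2) (nat_lit 1) (nat_lit 11) (.c (nat_lit 105) (nat_lit 1) (nat_lit 1) (nat_lit 1) (nat_lit 15) .nil)))))

noncomputable def dC2b_i11 : IL := (.e false (nat_lit 1) (nat_lit 35) (nat_lit 18) (nat_lit 1) (.e false (nat_lit 2) (nat_lit 134) (nat_lit 2) (nat_lit 11) (.e true (nat_lit 3) (nat_lit 137) (nat_lit 2) (nat_lit 11) (.e true (nat_lit 1) (nat_lit 140) (nat_lit 2) (nat_lit 11) (.e true (nat_lit 3) (nat_lit 141) (nat_lit 2) (nat_lit 11) (.e false (nat_lit 2) (nat_lit 143) (nat_lit 2) (nat_lit 11) (.e false (nat_lit 1) (nat_lit 90) (nat_lit 6) (nat_lit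 7) (.e false (nat_lit 1) (nat_lit 132) (nat_lit 2) (nat_lit 11) (.e false (nat_lit 1) (nat_lit 133) (nat_lit 2) (nat_lit 11) (.e true (nat_lit 1) (nat_lit 135) (nat_lit 2) (nat_lit 11) (.e false (nat_lit 2) (nat_lit 136) (nat_lit 2) (nat_lit 11) (.e true (nat_lit 1) (nat_lit 139) (nat_lit 2) (nat_lit 11) (.e false (nat_lit 1) (nat_lit 142) (nat_lit 2) (nat_lit 11) (.e true (nat_lit 2) (nat_lit 145) (nat_lit 2) (nat_lit 11) (.e true (nat_lit 1) (nat_lit 146) (nat_lit 2) (nat_lit 11) (.e true (nat_lit 2) (nat_lit 149) (nat_lit 2) (nat_lit 11) (.e false (nat_lit 3) (nat_lit 150) (nat_lit 2) (nat_lit 11) (.e true (nat_lit 3) (nat_lit 151) (nat_lit 2) (nat_lit 11) (.e false (nat_lit 2) (nat_lit 152) (nat_lit 2) (nat_lit 11) (.e false (nat_lit 3) (nat_lit 153) (nat_lit 2) (nat_lit 11) (.e true (nat_lit 3) (nat_lit 154) (nat_lit 2) (nat_lit 11) (.e true (nat_lit 3) (nat_lit 155)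 (nat_lit 2) (nat_lit 11) (.e false (nat_lit 3) (nat_lit 156) (nat_lit 2) (nat_lit 11) (.e true (nat_lit 2) (nat_lit 157) (nat_lit 2) (nat_lit 11) (.u (nat_lit 2) (.p (nat_lit 0) (nat_lit 1) (.n (nat_lit 3) (nat_lit 1) (.n (nat_lit 5) (nat_lit 1) (.n (nat_lit 8) (nat_lit 1) (.n (nat_lit 9) (nat_lit 1) (.n (nat_lit 14) (nat_lit 1) (.p (nat_lit 18) (nat_lit 1) (.n (nat_lit 19) (nat_lit 1) (.p (nat_lit 20) (nat_lit 1) (.p (nat_lit 24) (nat_lit 1) .z)))))))))) .nil)))))))))))))))))))))))))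

noncomputable def dC2b_c52 : Cm := .mk (nat_lit 693) (nat_lit 52) (nat_lit 289) (nat_lit 16) (.c (nat_lit 30) (nat_lit 3) (nat_lit 20) (nat_lit 1) (nat_lit 16) (.c (nat_lit 39) (nat_lit 3) (nat_lit 18) (nat_lit 2) (nat_lit 19) (.c (nat_lit 45) (nat_lit 3) (nat_lit 14) (nat_lit 2) (nat_lit 25) (.c (nat_lit 48) (nat_lit 1) (nat_lit 10) (nat_lit 1) (nat_lit 31) (.c (nat_lit 74) (nat_lit 6) (nat_lit 7) (nat_lit 1) (nat_lit 32) (.c (nat_lit 91) (nat_lit 6) (nat_lit 6) (nat_lit 1) (nat_lit 38) (.c (nat_lit 101) (nat_lit 4) (nat_lit 4) (nat_lit 1) (nat_lit 44) (.c (nat_lit 158) (nat_lit 11) (nat_lit 2) (nat_lit 1) (nat_lit 48) (.c (nat_lit 185) (nat_lit 10) (nat_lit 1) (nat_lit 1) (nat_lit 59) .nil)))))))))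

noncomputable def dC2b_c37 : Cm := .mk (nat_lit 813) (nat_lit 37) (nat_lit 324) (nat_lit 11) (.c (nat_lit 39) (nat_lit 3) (nat_lit 20) (nat_lit 1) (nat_lit 11) (.c (nat_lit 45) (nat_lit 3) (nat_lit 18) (nat_lit 2) (nat_lit 14) (.c (nat_lit 48) (nat_lit 1) (nat_lit 14) (nat_lit 2) (nat_lit 20) (.c (nat_lit 91) (nat_lit 6) (nat_lit 7) (nat_lit 1) (nat_lit 22) (.c (nat_lit 101) (nat_lit 4) (nat_lit 6) (nat_lit 1) (nat_lit 28) (.c (nat_lit 105) (nat_lit 1) (nat_lit 4) (nat_lit 1) (nat_lit 32) (.c (nat_lit 185) (nat_lit 10) (nat_lit 2) (nat_lit 1) (nat_lit 33) (.c (nat_lit 200) (nat_lit 5) (nat_lit 1) (nat_lit 1) (nat_lit 43) .nil))))))))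

noncomputable def dC2b_i12 : IL := (.s true (nat_lit 1) (nat_lit 26) (nat_lit 6) (nat_lit 2) (nat_lit 2) true (nat_lit 5) true (nat_lit 16) true (nat_lit 2) true (nat_lit 12) true (nat_lit 16) (.e false (nat_lit 1) (nat_lit 62) (nat_lit 18) (nat_lit 5) (.e true (nat_lit 1) (nat_lit 206) (nat_lit 2) (nat_lit 16) (.e false (nat_lit 3) (nat_lit 207) (nat_lit 2) (nat_lit 16) (.e true (nat_lit 2) (nat_lit 210) (nat_lit 2) (nat_lit 16) (.e true (nat_lit 1) (nat_lit 217) (nat_lit 2) (nat_lit 16) (.e true (nat_lit 1) (nat_lit 218) (nat_lit 2) (nat_lit 16) (.e false (nat_lit 2) (nat_lit 219) (nat_lit 2) (nat_lit 16) (.e true (nat_lit 1) (nat_lit 221) (nat_lit 2) (nat_lit 16) (.e false (nat_lit 1) (nat_lit 154) (nat_lit 6) (nat_lit 12) (.e false (nat_lit 3) (nat_lit 205) (nat_lit 2) (nat_lit 16) (.e false (nat_lit 1) (nat_lit 208) (nat_lit 2) (nat_lit 16) (.e false (nat_lit 3) (nat_lit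 211) (nat_lit 2) (nat_lit 16) (.e false (nat_lit 3) (nat_lit 213) (nat_lit 2) (nat_lit 16) (.e false (nat_lit 1) (nat_lit 214) (nat_lit 2) (nat_lit 16) (.e true (nat_lit 3) (nat_lit 215) (nat_lit 2) (nat_lit 16) (.e true (nat_lit 1) (nat_lit 220) (nat_lit 2) (nat_lit 16) (.e true (nat_lit 3) (nat_lit 225) (nat_lit 2) (nat_lit 16) (.e false (nat_lit 2) (nat_lit 231) (nat_lit 2) (nat_lit 16) (.e true (nat_lit 1) (nat_lit 233) (nat_lit 2) (nat_lit 16) (.e true (nat_lit 1) (nat_lit 242) (nat_lit 2) (nat_lit 16) (.e true (nat_lit 3) (nat_lit 245) (nat_lit 2) (nat_lit 16) (.e false (nat_lit 2) (nat_lit 248) (nat_lit 2) (nat_lit 16) (.e false (nat_lit 1) (nat_lit 251) (nat_lit 2) (nat_lit 16) (.u (nat_lit 2) (.p (nat_lit 0) (nat_lit 2) (.n (nat_lit 1) (nat_lit 2) (.p (nat_lit 2) (nat_lit 2) (.p (nat_lit 3) (nat_lit 1) (.p (nat_lit 6) (nat_lit 2) (.n (nat_lit 7) (nat_lit 2) (.n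 (nat_lit 8) (nat_lit 3) (.p (nat_lit 9) (nat_lit 3) (.n (nat_lit 11) (nat_lit 1) (.p (nat_lit 12) (nat_lit 1) (.p (nat_lit 14) (nat_lit 1) (.p (nat_lit 16) (nat_lit 1) (.p (nat_lit 17) (nat_lit 1) (.p (nat_lit 18) (nat_lit 1) (.n (nat_lit 19) (nat_lit 4) (.p (nat_lit 20) (nat_lit 3) (.n (nat_lit 21) (nat_lit 2) (.p (nat_lit 22) (nat_lit 2) (.n (nat_lit 23) (nat_lit 2) (.n (nat_lit 24) (nat_lit 2) (.n (nat_lit 27) (nat_lit 1) (.n (nat_lit 28) (nat_lit 1) (.n (nat_lit 29) (nat_lit 1) (.p (nat_lit 32) (nat_lit 1) (.n (nat_lit 33) (nat_lit 1) (.n (nat_lit 34) (nat_lit 2) (.n (nat_lit 35) (nat_lit 1) (.n (nat_lit 36) (nat_lit 1) (.n (nat_lit 37) (nat_lit 3) (.p (nat_lit 38) (nat_lit 1) (.n (nat_lit 39) (nat_lit 1) (.p (nat_lit 40) (nat_lit 1) (.n (nat_lit 42) (nat_lit 1) (.p (nat_lit 44) (nat_lit 1) (.n (nat_lit 45) (nat_lit 1) (.n (nat_lit 46) (nat_lit 1) (.n (nat_lit 47) (nat_lit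 1) (.p (nat_lit 50) (nat_lit 1) .z)))))))))))))))))))))))))))))))))))))) .nil)))))))))))))))))))))))))

noncomputable def dC2b_i13 : IL := (.e true (nat_lit 3) (nat_lit 216) (nat_lit 2) (nat_lit 16) (.e false (nat_lit 1) (nat_lit 218) (nat_lit 2) (nat_lit 16) (.e false (nat_lit 2) (nat_lit 219) (nat_lit 2) (nat_lit 16) (.e false (nat_lit 3) (nat_lit 220) (nat_lit 2) (nat_lit 16) (.e true (nat_lit 3) (nat_lit 227) (nat_lit 2) (nat_lit 16) (.e false (nat_lit 3) (nat_lit 230) (nat_lit 2) (nat_lit 16) (.e false (nat_lit 3) (nat_lit 231) (nat_lit 2) (nat_lit 16) (.e true (nat_lit 3) (nat_lit 232) (nat_lit 2) (nat_lit 16) (.e true (nat_lit 3) (nat_lit 234) (nat_lit 2) (nat_lit 16) (.e false (nat_lit 3) (nat_lit 242) (nat_lit 2) (nat_lit 16) (.e true (nat_lit 2) (nat_lit 244) (nat_lit 2) (nat_lit 16) (.e true (nat_lit 3) (nat_lit 245) (nat_lit 2) (nat_lit 16) (.e false (nat_lit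 1) (nat_lit 246) (nat_lit 2) (nat_lit 16) (.e false (nat_lit 1) (nat_lit 247) (nat_lit 2) (nat_lit 16) (.e true (nat_lit 1) (nat_lit 248) (nat_lit 2) (nat_lit 16) (.e false (nat_lit 2) (nat_lit 249) (nat_lit 2) (nat_lit 16) (.e true (nat_lit 3) (nat_lit 250) (nat_lit 2) (nat_lit 16) (.e true (nat_lit 1) (nat_lit 251) (nat_lit 2) (nat_lit 16) (.e false (nat_lit 3) (nat_lit 221) (nat_lit 2) (nat_lit 16) (.e false (nat_lit 3) (nat_lit 222) (nat_lit 2) (nat_lit 16) (.e true (nat_lit 3) (nat_lit 226) (nat_lit 2) (nat_lit 16) (.e true (nat_lit 1) (nat_lit 229) (nat_lit 2) (nat_lit 16) (.e false (nat_lit 1) (nat_lit 243) (nat_lit 2) (nat_lit 16) (.e false (nat_lit 1) (nat_lit 136) (nat_lit 6) (nat_lit 12) (.u (nat_lit 2) (.p (nat_lit 0) (nat_lit 3) (.p (nat_lit 1) (nat_lit 2) (.n (nat_lit 2) (nat_lit 4) (.p (nat_lit 3) (nat_lit 2) (.n (nat_lit 4) (nat_lit 7) (.p (nat_lit 5) (nat_lit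 7) (.n (nat_lit 6) (nat_lit 5) (.n (nat_lit 8) (nat_lit 1) (.n (nat_lit 9) (nat_lit 10) (.n (nat_lit 10) (nat_lit 2) (.p (nat_lit 11) (nat_lit 4) (.p (nat_lit 12) (nat_lit 4) (.p (nat_lit 15) (nat_lit 8) (.n (nat_lit 16) (nat_lit 1) (.p (nat_lit 17) (nat_lit 4) (.n (nat_lit 18) (nat_lit 9) (.p (nat_lit 19) (nat_lit 3) (.n (nat_lit 20) (nat_lit 4) (.p (nat_lit 21) (nat_lit 11) (.n (nat_lit 22) (nat_lit 11) (.p (nat_lit 24) (nat_lit 5) (.n (nat_lit 25) (nat_lit 2) (.p (nat_lit 26) (nat_lit 3) (.n (nat_lit 28) (nat_lit 4) (.n (nat_lit 29) (nat_lit 3) (.n (nat_lit 31) (nat_lit 5) (.p (nat_lit 32) (nat_lit 2) (.n (nat_lit 33) (nat_lit 5) (.p (nat_lit 34) (nat_lit 4) (.n (nat_lit 35) (nat_lit 3) (.p (nat_lit 36) (nat_lit 1) (.p (nat_lit 37) (nat_lit 6) (.p (nat_lit 38) (nat_lit 5) (.p (nat_lit 39) (nat_lit 4) (.n (nat_lit 40) (nat_lit 3) (.n (nat_lit 42) (nat_lit 1) (.n (nat_lit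 44) (nat_lit 3) (.p (nat_lit 45) (nat_lit 2) (.p (nat_lit 46) (nat_lit 7) (.p (nat_lit 47) (nat_lit 6) (.p (nat_lit 48) (nat_lit 5) (.n (nat_lit 50) (nat_lit 1) (.p (nat_lit 52) (nat_lit 1) (.n (nat_lit 57) (nat_lit 1) (.p (nat_lit 304) (nat_lit 1) (.n (nat_lit 305) (nat_lit 1) (.p (nat_lit 313) (nat_lit 1) (.n (nat_lit 316) (nat_lit 1) (.n (nat_lit 327) (nat_lit 1) (.p (nat_lit 331) (nat_lit 1) (.n (nat_lit 339) (nat_lit 1) (.p (nat_lit 342) (nat_lit 1) .z)))))))))))))))))))))))))))))))))))))))))))))))))))) .nil)))))))))))))))))))))))))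

noncomputable def dC2b_i14 : IL := (.e true (nat_lit 1) (nat_lit 111) (nat_lit 7) (nat_lit 11) (.e true (nat_lit 3) (nat_lit 112) (nat_lit 7) (nat_lit 11) (.e false (nat_lit 3) (nat_lit 113) (nat_lit 7) (nat_lit 11) (.e false (nat_lit 2) (nat_lit 114) (nat_lit 7) (nat_lit 11) (.e true (nat_lit 3) (nat_lit 115) (nat_lit 7) (nat_lit 11) (.e false (nat_lit 2) (nat_lit 116) (nat_lit 7) (nat_lit 11) (.e true (nat_lit 3) (nat_lit 117) (nat_lit 7) (nat_lit 11) (.e false (nat_lit 1) (nat_lit 118) (nat_lit 7) (nat_lit 11) (.e false (nat_lit 1) (nat_lit 119) (nat_lit 7) (nat_lit 11) (.e false (nat_lit 1) (nat_lit 120) (nat_lit 7) (nat_lit 11) (.e true (nat_lit 1) (nat_lit 121) (nat_lit 7) (nat_lit 11) (.e true (nat_lit 1) (nat_lit 122) (nat_lit 7) (nat_lit 11) (.e false (nat_lit 1) (nat_lit 123) (nat_lit 7) (nat_lit 11) (.e true (nat_lit 1) (nat_lit 126) (nat_lit 7) (nat_lit 11)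 (.e true (nat_lit 1) (nat_lit 127) (nat_lit 7) (nat_lit 11) (.e false (nat_lit 2) (nat_lit 130) (nat_lit 7) (nat_lit 11) (.e false (nat_lit 1) (nat_lit 131) (nat_lit 7) (nat_lit 11) (.e true (nat_lit 2) (nat_lit 205) (nat_lit 2) (nat_lit 16) (.e true (nat_lit 3) (nat_lit 207) (nat_lit 2) (nat_lit 16) (.e false (nat_lit 1) (nat_lit 208) (nat_lit 2) (nat_lit 16) (.e false (nat_lit 1) (nat_lit 209) (nat_lit 2) (nat_lit 16) (.e true (nat_lit 2) (nat_lit 210) (nat_lit 2) (nat_lit 16) (.e false (nat_lit 1) (nat_lit 212) (nat_lit 2) (nat_lit 16) (.e true (nat_lit 3) (nat_lit 213) (nat_lit 2) (nat_lit 16) (.e false (nat_lit 2) (nat_lit 214) (nat_lit 2) (nat_lit 16) dC2b_i13)))))))))))))))))))))))))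

noncomputable def dC2b_i15 : IL := (.e true (nat_lit 2) (nat_lit 254) (nat_lit 2) (nat_lit 14) (.e true (nat_lit 3) (nat_lit 257) (nat_lit 2) (nat_lit 14) (.e true (nat_lit 1) (nat_lit 258) (nat_lit 2) (nat_lit 14) (.e false (nat_lit 3) (nat_lit 259) (nat_lit 2) (nat_lit 14) (.e true (nat_lit 3) (nat_lit 260) (nat_lit 2) (nat_lit 14) (.e false (nat_lit 3) (nat_lit 261) (nat_lit 2) (nat_lit 14) (.e true (nat_lit 2) (nat_lit 262) (nat_lit 2) (nat_lit 14) (.e false (nat_lit 2) (nat_lit 264) (nat_lit 2) (nat_lit 14) (.e false (nat_lit 2) (nat_lit 267) (nat_lit 2) (nat_lit 14) (.e false (nat_lit 2) (nat_lit 269) (nat_lit 2) (nat_lit 14) (.e true (nat_lit 1) (nat_lit 270) (nat_lit 2) (nat_lit 14) (.e true (nat_lit 2) (nat_lit 272) (nat_lit 2) (nat_lit 14) (.e true (nat_lit 1) (nat_lit 274) (nat_lit 2) (nat_lit 14) (.e true (nat_lit 2) (nat_lit 275) (nat_lit 2) (nat_lit 14) (.e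 true (nat_lit 3) (nat_lit 283) (nat_lit 2) (nat_lit 14) (.e false (nat_lit 3) (nat_lit 285) (nat_lit 2) (nat_lit 14) (.e false (nat_lit 1) (nat_lit 280) (nat_lit 2) (nat_lit 14) (.e false (nat_lit 3) (nat_lit 265) (nat_lit 2) (nat_lit 14) (.e true (nat_lit 1) (nat_lit 271) (nat_lit 2) (nat_lit 14) (.e true (nat_lit 1) (nat_lit 273) (nat_lit 2) (nat_lit 14) (.e false (nat_lit 1) (nat_lit 276) (nat_lit 2) (nat_lit 14) (.e false (nat_lit 1) (nat_lit 277) (nat_lit 2) (nat_lit 14) (.e true (nat_lit 2) (nat_lit 266) (nat_lit 2) (nat_lit 14) (.e true (nat_lit 1) (nat_lit 282) (nat_lit 2) (nat_lit 14) (.u (nat_lit 2) (.p (nat_lit 0) (nat_lit 2) (.p (nat_lit 1) (nat_lit 2) (.p (nat_lit 2) (nat_lit 4) (.n (nat_lit 3) (nat_lit 1) (.p (nat_lit 4) (nat_lit 5) (.n (nat_lit 5) (nat_lit 4) (.p (nat_lit 6) (nat_lit 2) (.n (nat_lit 7) (nat_lit 3) (.p (nat_lit 9) (nat_lit 3) (.n (nat_lit 10)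 (nat_lit 4) (.n (nat_lit 11) (nat_lit 2) (.p (nat_lit 14) (nat_lit 4) (.n (nat_lit 15) (nat_lit 5) (.n (nat_lit 16) (nat_lit 5) (.p (nat_lit 17) (nat_lit 1) (.p (nat_lit 18) (nat_lit 4) (.n (nat_lit 19) (nat_lit 3) (.n (nat_lit 21) (nat_lit 1) (.n (nat_lit 24) (nat_lit 1) (.p (nat_lit 25) (nat_lit 1) (.n (nat_lit 26) (nat_lit 1) (.n (nat_lit 34) (nat_lit 1) (.p (nat_lit 35) (nat_lit 1) (.n (nat_lit 38) (nat_lit 3) (.p (nat_lit 204) (nat_lit 1) (.p (nat_lit 205) (nat_lit 1) (.n (nat_lit 206) (nat_lit 1) (.n (nat_lit 207) (nat_lit 1) (.n (nat_lit 208) (nat_lit 1) (.p (nat_lit 209) (nat_lit 1) (.n (nat_lit 211) (nat_lit 1) (.p (nat_lit 212) (nat_lit 1) (.n (nat_lit 213) (nat_lit 1) (.n (nat_lit 215) (nat_lit 1) (.n (nat_lit 216) (nat_lit 1) (.n (nat_lit 217) (nat_lit 1) (.n (nat_lit 219) (nat_lit 1) (.n (nat_lit 221) (nat_lit 1) (.n (nat_lit 222) (nat_lit 1) (.p (nat_lit 223)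 (nat_lit 1) (.p (nat_lit 224) (nat_lit 1) (.p (nat_lit 225) (nat_lit 1) (.n (nat_lit 227) (nat_lit 1) (.n (nat_lit 228) (nat_lit 1) (.n (nat_lit 229) (nat_lit 1) (.p (nat_lit 232) (nat_lit 1) (.p (nat_lit 235) (nat_lit 1) (.n (nat_lit 237) (nat_lit 1) (.n (nat_lit 238) (nat_lit 1) (.p (nat_lit 240) (nat_lit 1) .z)))))))))))))))))))))))))))))))))))))))))))))))))) .nil)))))))))))))))))))))))))

noncomputable def dC2b_c53 : Cm := .mk (nat_lit 1382) (nat_lit 53) (nat_lit 436) (nat_lit 15) (.c (nat_lit 45) (nat_lit 3) (nat_lit 39) (nat_lit 3) (nat_lit 15) (.c (nat_lit 48) (nat_lit 1) (nat_lit 30) (nat_lit 3) (nat_lit 24) (.c (nat_lit 74) (nat_lit 6) (nat_lit 20) (nat_lit 1) (nat_lit 27) (.c (nat_lit 91) (nat_lit 6) (nat_lit 18) (nat_lit 2) (nat_lit 33) (.c (nat_lit 101) (nat_lit 4) (nat_lit 14) (nat_lit 2) (nat_lit 45) (.c (nat_lit 105) (nat_lit 1) (nat_lit 10) (nat_lit 1) (nat_lit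 53) (.c (nat_lit 158) (nat_lit 11) (nat_lit 7) (nat_lit 1) (nat_lit 54) (.c (nat_lit 185) (nat_lit 10) (nat_lit 6) (nat_lit 1) (nat_lit 65) (.c (nat_lit 200) (nat_lit 5) (nat_lit 4) (nat_lit 1) (nat_lit 75) (.c (nat_lit 289) (nat_lit 16) (nat_lit 2) (nat_lit 1) (nat_lit 80) (.c (nat_lit 324) (nat_lit 11) (nat_lit 1) (nat_lit 1) (nat_lit 96) .nil)))))))))))

noncomputable def dC2b_i16 : IL := (.s true (nat_lit 1) (nat_lit 9) (nat_lit 7) (nat_lit 1) (nat_lit 2) true (nat_lit 0) true (nat_lit 12) true (nat_lit 6) true (nat_lit 7) true (nat_lit 13) (.e false (nat_lit 1) (nat_lit 22) (nat_lit 20) (nat_lit 0) (.e true (nat_lit 2) (nat_lit 107) (nat_lit 2) (nat_lit 12) (.e true (nat_lit 1) (nat_lit 108) (nat_lit 2) (nat_lit 12) (.e false (nat_lit 1) (nat_lit 110) (nat_lit 2) (nat_lit 12) (.e false (nat_lit 1) (nat_lit 112) (nat_lit 2) (nat_lit 12) (.e true (nat_lit 1) (nat_lit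 113) (nat_lit 2) (nat_lit 12) (.e true (nat_lit 1) (nat_lit 114) (nat_lit 2) (nat_lit 12) (.e false (nat_lit 1) (nat_lit 115) (nat_lit 2) (nat_lit 12) (.e false (nat_lit 1) (nat_lit 116) (nat_lit 2) (nat_lit 12) (.e true (nat_lit 1) (nat_lit 131) (nat_lit 2) (nat_lit 12) (.e true (nat_lit 1) (nat_lit 109) (nat_lit 2) (nat_lit 12) (.e true (nat_lit 1) (nat_lit 118) (nat_lit 2) (nat_lit 12) (.e false (nat_lit 1) (nat_lit 129) (nat_lit 2) (nat_lit 12) (.e false (nat_lit 1) (nat_lit 50) (nat_lit 7) (nat_lit 7) (.e false (nat_lit 1) (nat_lit 51) (nat_lit 7) (nat_lit 7) (.e false (nat_lit 1) (nat_lit 52) (nat_lit 7) (nat_lit 7) (.e false (nat_lit 1) (nat_lit 53) (nat_lit 7) (nat_lit 7) (.e true (nat_lit 1) (nat_lit 55) (nat_lit 7) (nat_lit 7) (.e false (nat_lit 1) (nat_lit 56) (nat_lit 7) (nat_lit 7) (.e false (nat_lit 1) (nat_lit 57) (nat_lit 7) (nat_lit 7) (.e true (nat_lit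 1) (nat_lit 58) (nat_lit 7) (nat_lit 7) (.e true (nat_lit 1) (nat_lit 59) (nat_lit 7) (nat_lit 7) (.e true (nat_lit 1) (nat_lit 153) (nat_lit 1) (nat_lit 13) (.u (nat_lit 2) (.p (nat_lit 2) (nat_lit 1) (.p (nat_lit 3) (nat_lit 1) (.n (nat_lit 4) (nat_lit 1) (.n (nat_lit 8) (nat_lit 1) (.n (nat_lit 46) (nat_lit 1) (.p (nat_lit 147) (nat_lit 1) (.p (nat_lit 148) (nat_lit 1) (.p (nat_lit 149) (nat_lit 1) (.n (nat_lit 150) (nat_lit 1) (.p (nat_lit 152) (nat_lit 1) (.n (nat_lit 154) (nat_lit 1) (.p (nat_lit 156) (nat_lit 1) (.n (nat_lit 157) (nat_lit 1) (.p (nat_lit 158) (nat_lit 1) (.n (nat_lit 162) (nat_lit 2) .z))))))))))))))) .nil)))))))))))))))))))))))))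

noncomputable def dC2b_i17 : IL := (.e false (nat_lit 1) (nat_lit 68) (nat_lit 7) (nat_lit 6) (.e false (nat_lit 1) (nat_lit 47) (nat_lit 13) (nat_lit 4) (.e true (nat_lit 2) (nat_lit 132) (nat_lit 2) (nat_lit 11) (.e false (nat_lit 2) (nat_lit 133) (nat_lit 2) (nat_lit 11) (.e true (nat_lit 1) (nat_lit 134) (nat_lit 2) (nat_lit 11) (.e true (nat_lit 2) (nat_lit 135) (nat_lit 2) (nat_lit 11) (.e true (nat_lit 2) (nat_lit 137) (nat_lit 2) (nat_lit 11) (.e true (nat_lit 1) (nat_lit 138) (nat_lit 2) (nat_lit 11) (.e false (nat_lit 3) (nat_lit 139) (nat_lit 2) (nat_lit 11) (.e true (nat_lit 3) (nat_lit 140) (nat_lit 2) (nat_lit 11) (.e false (nat_lit 3) (nat_lit 141) (nat_lit 2) (nat_lit 11) (.e false (nat_lit 1) (nat_lit 142) (nat_lit 2) (nat_lit 11) (.e false (nat_lit 3) (nat_lit 143) (nat_lit 2) (nat_lit 11) (.e false (nat_lit 1) (nat_lit 144) (nat_lit 2) (nat_lit 11) (.e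 false (nat_lit 1) (nat_lit 145) (nat_lit 2) (nat_lit 11) (.e false (nat_lit 3) (nat_lit 147) (nat_lit 2) (nat_lit 11) (.e true (nat_lit 1) (nat_lit 149) (nat_lit 2) (nat_lit 11) (.e false (nat_lit 1) (nat_lit 150) (nat_lit 2) (nat_lit 11) (.e false (nat_lit 2) (nat_lit 151) (nat_lit 2) (nat_lit 11) (.e false (nat_lit 1) (nat_lit 153) (nat_lit 2) (nat_lit 11) (.e false (nat_lit 1) (nat_lit 154) (nat_lit 2) (nat_lit 11) (.e false (nat_lit 3) (nat_lit 155) (nat_lit 2) (nat_lit 11) (.e true (nat_lit 2) (nat_lit 156) (nat_lit 2) (nat_lit 11) (.e true (nat_lit 1) (nat_lit 179) (nat_lit 1) (nat_lit 12) (.u (nat_lit 2) (.p (nat_lit 1) (nat_lit 1) (.p (nat_lit 4) (nat_lit 1) (.p (nat_lit 7) (nat_lit 1) (.n (nat_lit 8) (nat_lit 1) (.n (nat_lit 12) (nat_lit 1) (.n (nat_lit 13) (nat_lit 1) (.p (nat_lit 14) (nat_lit 1) (.p (nat_lit 15) (nat_lit 1) (.p (nat_lit 18) (nat_lit 1) (.p (nat_lit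 19) (nat_lit 1) (.p (nat_lit 21) (nat_lit 1) (.p (nat_lit 23) (nat_lit 1) (.n (nat_lit 24) (nat_lit 1) (.n (nat_lit 25) (nat_lit 1) (.p (nat_lit 33) (nat_lit 1) .z))))))))))))))) .nil)))))))))))))))))))))))))

noncomputable def dC2b_i18 : IL := (.e true (nat_lit 3) (nat_lit 221) (nat_lit 2) (nat_lit 16) (.e false (nat_lit 2) (nat_lit 222) (nat_lit 2) (nat_lit 16) (.e true (nat_lit 2) (nat_lit 226) (nat_lit 2) (nat_lit 16) (.e true (nat_lit 2) (nat_lit 227) (nat_lit 2) (nat_lit 16) (.e true (nat_lit 2) (nat_lit 228) (nat_lit 2) (nat_lit 16) (.e true (nat_lit 3) (nat_lit 229) (nat_lit 2) (nat_lit 16) (.e false (nat_lit 3) (nat_lit 230) (nat_lit 2) (nat_lit 16) (.e true (nat_lit 1) (nat_lit 232) (nat_lit 2) (nat_lit 16) (.e true (nat_lit 1) (nat_lit 233) (nat_lit 2) (nat_lit 16) (.e false (nat_lit 1) (nat_lit 234) (nat_lit 2) (nat_lit 16) (.e true (nat_lit 1) (nat_lit 242)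 (nat_lit 2) (nat_lit 16) (.e false (nat_lit 1) (nat_lit 243) (nat_lit 2) (nat_lit 16) (.e true (nat_lit 1) (nat_lit 244) (nat_lit 2) (nat_lit 16) (.e false (nat_lit 1) (nat_lit 245) (nat_lit 2) (nat_lit 16) (.e false (nat_lit 2) (nat_lit 246) (nat_lit 2) (nat_lit 16) (.e false (nat_lit 2) (nat_lit 247) (nat_lit 2) (nat_lit 16) (.e false (nat_lit 1) (nat_lit 249) (nat_lit 2) (nat_lit 16) (.e true (nat_lit 1) (nat_lit 250) (nat_lit 2) (nat_lit 16) (.e false (nat_lit 1) (nat_lit 206) (nat_lit 2) (nat_lit 16) (.e true (nat_lit 1) (nat_lit 209) (nat_lit 2) (nat_lit 16) (.e true (nat_lit 2) (nat_lit 213) (nat_lit 2) (nat_lit 16) (.e false (nat_lit 3) (nat_lit 214) (nat_lit 2) (nat_lit 16) (.e false (nat_lit 1) (nat_lit 220) (nat_lit 2) (nat_lit 16) (.e false (nat_lit 1) (nat_lit 225) (nat_lit 2) (nat_lit 16) (.u (nat_lit 2) (.n (nat_lit 0) (nat_lit 2) (.n (nat_lit 1) (nat_lit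 2) (.p (nat_lit 3) (nat_lit 1) (.n (nat_lit 4) (nat_lit 1) (.p (nat_lit 5) (nat_lit 1) (.p (nat_lit 8) (nat_lit 2) (.n (nat_lit 9) (nat_lit 3) (.p (nat_lit 10) (nat_lit 4) (.p (nat_lit 11) (nat_lit 3) (.n (nat_lit 12) (nat_lit 2) (.p (nat_lit 14) (nat_lit 2) (.n (nat_lit 16) (nat_lit 1) (.n (nat_lit 17) (nat_lit 3) (.n (nat_lit 18) (nat_lit 4) (.n (nat_lit 19) (nat_lit 2) (.n (nat_lit 20) (nat_lit 4) (.p (nat_lit 21) (nat_lit 6) (.n (nat_lit 22) (nat_lit 6) (.p (nat_lit 23) (nat_lit 2) (.n (nat_lit 25) (nat_lit 1) (.n (nat_lit 26) (nat_lit 1) (.n (nat_lit 27) (nat_lit 5) (.n (nat_lit 28) (nat_lit 2) (.p (nat_lit 29) (nat_lit 3) (.n (nat_lit 31) (nat_lit 2) (.p (nat_lit 32) (nat_lit 6) (.n (nat_lit 34) (nat_lit 1) (.p (nat_lit 36) (nat_lit 2) (.p (nat_lit 37) (nat_lit 4) (.n (nat_lit 39) (nat_lit 3) (.p (nat_lit 42) (nat_lit 2) (.p (nat_lit 45) (nat_lit 4) (.p (nat_lit 46)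 (nat_lit 3) (.n (nat_lit 50) (nat_lit 1) (.n (nat_lit 55) (nat_lit 1) (.p (nat_lit 308) (nat_lit 1) (.n (nat_lit 312) (nat_lit 1) (.p (nat_lit 313) (nat_lit 1) (.n (nat_lit 316) (nat_lit 1) (.p (nat_lit 318) (nat_lit 1) (.n (nat_lit 327) (nat_lit 1) .z))))))))))))))))))))))))))))))))))))))))) .nil)))))))))))))))))))))))))

noncomputable def dC2b_i19 : IL := (.e true (nat_lit 1) (nat_lit 181) (nat_lit 6) (nat_lit 10) (.e false (nat_lit 3) (nat_lit 254) (nat_lit 2) (nat_lit 14) (.e false (nat_lit 1) (nat_lit 258) (nat_lit 2) (nat_lit 14) (.e true (nat_lit 1) (nat_lit 264) (nat_lit 2) (nat_lit 14) (.e false (nat_lit 1) (nat_lit 265) (nat_lit 2) (nat_lit 14) (.e false (nat_lit 3) (nat_lit 266) (nat_lit 2) (nat_lit 14) (.e false (nat_lit 2) (nat_lit 269) (nat_lit 2) (nat_lit 14) (.e false (nat_lit 1) (nat_lit 272) (nat_lit 2) (nat_lit 14) (.e true (nat_lit 3) (nat_lit 274) (nat_lit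 2) (nat_lit 14) (.e false (nat_lit 1) (nat_lit 285) (nat_lit 2) (nat_lit 14) (.e true (nat_lit 3) (nat_lit 305) (nat_lit 1) (nat_lit 15) (.e true (nat_lit 2) (nat_lit 306) (nat_lit 1) (nat_lit 15) (.e false (nat_lit 2) (nat_lit 307) (nat_lit 1) (nat_lit 15) (.e true (nat_lit 1) (nat_lit 308) (nat_lit 1) (nat_lit 15) (.e false (nat_lit 2) (nat_lit 309) (nat_lit 1) (nat_lit 15) (.e true (nat_lit 3) (nat_lit 310) (nat_lit 1) (nat_lit 15) (.e true (nat_lit 1) (nat_lit 311) (nat_lit 1) (nat_lit 15) (.e true (nat_lit 1) (nat_lit 312) (nat_lit 1) (nat_lit 15) (.e true (nat_lit 1) (nat_lit 313) (nat_lit 1) (nat_lit 15) (.e false (nat_lit 2) (nat_lit 314) (nat_lit 1) (nat_lit 15) (.e false (nat_lit 1) (nat_lit 317) (nat_lit 1) (nat_lit 15) (.e true (nat_lit 1) (nat_lit 321) (nat_lit 1) (nat_lit 15) (.e false (nat_lit 1) (nat_lit 322) (nat_lit 1) (nat_lit 15) (.e false (nat_lit 1)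 (nat_lit 146) (nat_lit 7) (nat_lit 9) (.u (nat_lit 2) (.n (nat_lit 1) (nat_lit 1) (.p (nat_lit 4) (nat_lit 2) (.n (nat_lit 5) (nat_lit 1) (.p (nat_lit 6) (nat_lit 2) (.n (nat_lit 8) (nat_lit 1) (.p (nat_lit 9) (nat_lit 2) (.n (nat_lit 11) (nat_lit 1) (.n (nat_lit 12) (nat_lit 1) (.n (nat_lit 13) (nat_lit 1) (.n (nat_lit 14) (nat_lit 1) (.n (nat_lit 15) (nat_lit 2) (.n (nat_lit 16) (nat_lit 2) (.p (nat_lit 18) (nat_lit 2) (.p (nat_lit 19) (nat_lit 2) (.n (nat_lit 24) (nat_lit 2) (.p (nat_lit 27) (nat_lit 1) (.p (nat_lit 30) (nat_lit 2) (.n (nat_lit 34) (nat_lit 1) .z)))))))))))))))))) .nil)))))))))))))))))))))))))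

noncomputable def dC2b_i20 : IL := (.e true (nat_lit 3) (nat_lit 328) (nat_lit 0) (nat_lit 16) (.e false (nat_lit 2) (nat_lit 329) (nat_lit 0) (nat_lit 16) (.e false (nat_lit 1) (nat_lit 331) (nat_lit 0) (nat_lit 16) (.e true (nat_lit 2) (nat_lit 324) (nat_lit 0) (nat_lit 16) (.e true (nat_lit 2) (nat_lit 46) (nat_lit 33) (nat_lit 1) (.e false (nat_lit 1) (nat_lit 46) (nat_lit 34) (nat_lit 1) (.e false (nat_lit 1) (nat_lit 46) (nat_lit 36) (nat_lit 1) (.e false (nat_lit 1) (nat_lit 46) (nat_lit 37) (nat_lit 1) (.e false (nat_lit 1) (nat_lit 46) (nat_lit 38) (nat_lit 1) (.e false (nat_lit 1) (nat_lit 157) (nat_lit 7) (nat_lit 9) (.e false (nat_lit 1) (nat_lit 323) (nat_lit 1) (nat_lit 15) (.e false (nat_lit 3) (nat_lit 305) (nat_lit 1) (nat_lit 15) (.e true (nat_lit 1) (nat_lit 306) (nat_lit 1) (nat_lit 15) (.e false (nat_lit 2) (nat_lit 307) (nat_lit 1) (nat_lit 15) (.e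 false (nat_lit 2) (nat_lit 308) (nat_lit 1) (nat_lit 15) (.e false (nat_lit 3) (nat_lit 309) (nat_lit 1) (nat_lit 15) (.e true (nat_lit 2) (nat_lit 310) (nat_lit 1) (nat_lit 15) (.e true (nat_lit 3) (nat_lit 313) (nat_lit 1) (nat_lit 15) (.e true (nat_lit 3) (nat_lit 314) (nat_lit 1) (nat_lit 15) (.e false (nat_lit 1) (nat_lit 317) (nat_lit 1) (nat_lit 15) (.e true (nat_lit 1) (nat_lit 312) (nat_lit 1) (nat_lit 15) (.e true (nat_lit 1) (nat_lit 321) (nat_lit 1) (nat_lit 15) (.e true (nat_lit 1) (nat_lit 315) (nat_lit 1) (nat_lit 15) (.e false (nat_lit 3) (nat_lit 311) (nat_lit 1) (nat_lit 15) (.u (nat_lit 2) (.n (nat_lit 2) (nat_lit 1) (.n (nat_lit 3) (nat_lit 1) (.n (nat_lit 4) (nat_lit 2) (.p (nat_lit 6) (nat_lit 2) (.n (nat_lit 8) (nat_lit 1) (.p (nat_lit 9) (nat_lit 1) (.n (nat_lit 10) (nat_lit 1) (.p (nat_lit 13) (nat_lit 1) (.p (nat_lit 15) (nat_lit 1) (.p (nat_lit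 16) (nat_lit 1) (.p (nat_lit 17) (nat_lit 1) (.p (nat_lit 19) (nat_lit 2) (.p (nat_lit 20) (nat_lit 1) (.n (nat_lit 21) (nat_lit 1) (.p (nat_lit 22) (nat_lit 1) (.p (nat_lit 23) (nat_lit 1) (.p (nat_lit 24) (nat_lit 2) (.n (nat_lit 25) (nat_lit 1) (.p (nat_lit 27) (nat_lit 1) (.p (nat_lit 30) (nat_lit 2) (.n (nat_lit 38) (nat_lit 1) (.n (nat_lit 243) (nat_lit 1) (.n (nat_lit 245) (nat_lit 1) (.p (nat_lit 246) (nat_lit 1) (.p (nat_lit 249) (nat_lit 1) (.p (nat_lit 264) (nat_lit 1) (.p (nat_lit 265) (nat_lit 1) (.p (nat_lit 266) (nat_lit 1) (.n (nat_lit 267) (nat_lit 1) .z))))))))))))))))))))))))))))) .nil)))))))))))))))))))))))))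

noncomputable def dC2b_i21 : IL := (.e false (nat_lit 3) (nat_lit 252) (nat_lit 2) (nat_lit 14) (.e false (nat_lit 2) (nat_lit 253) (nat_lit 2) (nat_lit 14) (.e false (nat_lit 1) (nat_lit 254) (nat_lit 2) (nat_lit 14) (.e false (nat_lit 1) (nat_lit 255) (nat_lit 2) (nat_lit 14) (.e false (nat_lit 1) (nat_lit 256) (nat_lit 2) (nat_lit 14) (.e true (nat_lit 1) (nat_lit 257) (nat_lit 2) (nat_lit 14) (.e false (nat_lit 3) (nat_lit 258) (nat_lit 2) (nat_lit 14) (.e true (nat_lit 1) (nat_lit 261) (nat_lit 2) (nat_lit 14) (.e true (nat_lit 3) (nat_lit 262) (nat_lit 2) (nat_lit 14) (.e false (nat_lit 3) (nat_lit 264) (nat_lit 2) (nat_lit 14) (.e true (nat_lit 1) (nat_lit 266) (nat_lit 2) (nat_lit 14) (.e false (nat_lit 2) (nat_lit 269) (nat_lit 2) (nat_lit 14) (.e true (nat_lit 1) (nat_lit 274) (nat_lit 2) (nat_lit 14) (.e false (nat_lit 2) (nat_lit 275) (nat_lit 2) (nat_lit 14)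 (.e true (nat_lit 1) (nat_lit 280) (nat_lit 2) (nat_lit 14) (.e false (nat_lit 2) (nat_lit 283) (nat_lit 2) (nat_lit 14) (.e true (nat_lit 2) (nat_lit 285) (nat_lit 2) (nat_lit 14) (.e false (nat_lit 1) (nat_lit 286) (nat_lit 2) (nat_lit 14) (.e false (nat_lit 1) (nat_lit 265) (nat_lit 2) (nat_lit 14) (.e false (nat_lit 1) (nat_lit 268) (nat_lit 2) (nat_lit 14) (.e false (nat_lit 2) (nat_lit 271) (nat_lit 2) (nat_lit 14) (.e false (nat_lit 2) (nat_lit 273) (nat_lit 2) (nat_lit 14) (.e true (nat_lit 2) (nat_lit 276) (nat_lit 2) (nat_lit 14) (.e true (nat_lit 2) (nat_lit 277) (nat_lit 2) (nat_lit 14) (.u (nat_lit 2) (.n (nat_lit 1) (nat_lit 1) (.n (nat_lit 2) (nat_lit 1) (.p (nat_lit 3) (nat_lit 3) (.p (nat_lit 4) (nat_lit 3) (.n (nat_lit 5) (nat_lit 1) (.p (nat_lit 6) (nat_lit 1) (.p (nat_lit 7) (nat_lit 4) (.n (nat_lit 8) (nat_lit 2) (.p (nat_lit 9) (nat_lit 1) (.n (nat_lit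 10) (nat_lit 2) (.n (nat_lit 11) (nat_lit 2) (.p (nat_lit 12) (nat_lit 1) (.n (nat_lit 13) (nat_lit 1) (.n (nat_lit 14) (nat_lit 2) (.p (nat_lit 15) (nat_lit 1) (.p (nat_lit 16) (nat_lit 1) (.n (nat_lit 17) (nat_lit 2) (.p (nat_lit 18) (nat_lit 3) (.p (nat_lit 19) (nat_lit 4) (.p (nat_lit 21) (nat_lit 1) (.p (nat_lit 23) (nat_lit 2) (.p (nat_lit 24) (nat_lit 1) (.n (nat_lit 25) (nat_lit 1) (.p (nat_lit 26) (nat_lit 1) (.p (nat_lit 27) (nat_lit 2) (.n (nat_lit 29) (nat_lit 1) (.p (nat_lit 34) (nat_lit 1) (.p (nat_lit 35) (nat_lit 1) (.n (nat_lit 38) (nat_lit 1) (.n (nat_lit 210) (nat_lit 1) (.n (nat_lit 216) (nat_lit 1) (.n (nat_lit 221) (nat_lit 1) .z)))))))))))))))))))))))))))))))) .nil)))))))))))))))))))))))))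

noncomputable def dC2b_i22 : IL := (.e false (nat_lit 1) (nat_lit 89) (nat_lit 19) (nat_lit 4) (.e false (nat_lit 3) (nat_lit 305) (nat_lit 1) (nat_lit 15) (.e false (nat_lit 3) (nat_lit 306) (nat_lit 1) (nat_lit 15) (.e true (nat_lit 3) (nat_lit 308) (nat_lit 1) (nat_lit 15) (.e true (nat_lit 3) (nat_lit 309) (nat_lit 1) (nat_lit 15) (.e true (nat_lit 3) (nat_lit 310) (nat_lit 1) (nat_lit 15) (.e true (nat_lit 3) (nat_lit 313) (nat_lit 1) (nat_lit 15) (.e false (nat_lit 3) (nat_lit 314) (nat_lit 1) (nat_lit 15) (.e false (nat_lit 3) (nat_lit 315) (nat_lit 1) (nat_lit 15) (.e false (nat_lit 3) (nat_lit 316) (nat_lit 1) (nat_lit 15) (.e false (nat_lit 3) (nat_lit 317) (nat_lit 1) (nat_lit 15) (.e true (nat_lit 2) (nat_lit 320) (nat_lit 1) (nat_lit 15) (.e true (nat_lit 2) (nat_lit 321) (nat_lit 1) (nat_lit 15) (.e false (nat_lit 1) (nat_lit 311) (nat_lit 1) (nat_lit 15)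 (.e true (nat_lit 2) (nat_lit 318) (nat_lit 1) (nat_lit 15) (.e false (nat_lit 1) (nat_lit 157) (nat_lit 7) (nat_lit 9) (.e true (nat_lit 2) (nat_lit 325) (nat_lit 0) (nat_lit 16) (.e false (nat_lit 3) (nat_lit 326) (nat_lit 0) (nat_lit 16) (.e true (nat_lit 3) (nat_lit 327) (nat_lit 0) (nat_lit 16) (.e false (nat_lit 2) (nat_lit 328) (nat_lit 0) (nat_lit 16) (.e false (nat_lit 1) (nat_lit 329) (nat_lit 0) (nat_lit 16) (.e false (nat_lit 2) (nat_lit 330) (nat_lit 0) (nat_lit 16) (.e true (nat_lit 2) (nat_lit 333) (nat_lit 0) (nat_lit 16) (.e true (nat_lit 1) (nat_lit 334) (nat_lit 0) (nat_lit 16) (.u (nat_lit 2) (.p (nat_lit 2) (nat_lit 2) (.n (nat_lit 3) (nat_lit 1) (.p (nat_lit 4) (nat_lit 1) (.n (nat_lit 5) (nat_lit 4) (.n (nat_lit 8) (nat_lit 1) (.p (nat_lit 10) (nat_lit 2) (.n (nat_lit 13) (nat_lit 2) (.n (nat_lit 14) (nat_lit 3) (.p (nat_lit 15) (nat_lit 1) (.p (nat_lit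 16) (nat_lit 2) (.p (nat_lit 18) (nat_lit 1) (.n (nat_lit 21) (nat_lit 1) (.n (nat_lit 22) (nat_lit 1) (.n (nat_lit 23) (nat_lit 2) (.p (nat_lit 24) (nat_lit 1) (.p (nat_lit 26) (nat_lit 1) (.p (nat_lit 27) (nat_lit 1) (.n (nat_lit 29) (nat_lit 1) (.p (nat_lit 30) (nat_lit 1) (.n (nat_lit 33) (nat_lit 1) (.n (nat_lit 34) (nat_lit 1) (.p (nat_lit 35) (nat_lit 2) (.p (nat_lit 38) (nat_lit 1) (.n (nat_lit 241) (nat_lit 2) (.n (nat_lit 242) (nat_lit 2) (.p (nat_lit 243) (nat_lit 1) (.p (nat_lit 244) (nat_lit 2) (.p (nat_lit 245) (nat_lit 2) (.p (nat_lit 248) (nat_lit 1) (.p (nat_lit 249) (nat_lit 1) (.n (nat_lit 250) (nat_lit 2) (.n (nat_lit 251) (nat_lit 1) (.n (nat_lit 252) (nat_lit 1) .z))))))))))))))))))))))))))))))))) .nil)))))))))))))))))))))))))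

noncomputable def dC2b_i23 : IL := (.e false (nat_lit 2) (nat_lit 267) (nat_lit 2) (nat_lit 14) (.e true (nat_lit 2) (nat_lit 269) (nat_lit 2) (nat_lit 14) (.e false (nat_lit 2) (nat_lit 270) (nat_lit 2) (nat_lit 14) (.e false (nat_lit 3) (nat_lit 271) (nat_lit 2) (nat_lit 14) (.e false (nat_lit 3) (nat_lit 273) (nat_lit 2) (nat_lit 14) (.e true (nat_lit 2) (nat_lit 274) (nat_lit 2) (nat_lit 14) (.e false (nat_lit 3) (nat_lit 275) (nat_lit 2) (nat_lit 14) (.e true (nat_lit 3) (nat_lit 276) (nat_lit 2) (nat_lit 14) (.e true (nat_lit 2) (nat_lit 277) (nat_lit 2) (nat_lit 14) (.e true (nat_lit 1) (nat_lit 279) (nat_lit 2) (nat_lit 14) (.e false (nat_lit 2) (nat_lit 286) (nat_lit 2) (nat_lit 14) (.e true (nat_lit 1) (nat_lit 288) (nat_lit 2) (nat_lit 14) (.e true (nat_lit 1) (nat_lit 305) (nat_lit 1) (nat_lit 15) (.e false (nat_lit 2) (nat_lit 306) (nat_lit 1) (nat_lit 15)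 (.e false (nat_lit 3) (nat_lit 308) (nat_lit 1) (nat_lit 15) (.e false (nat_lit 1) (nat_lit 309) (nat_lit 1) (nat_lit 15) (.e true (nat_lit 2) (nat_lit 311) (nat_lit 1) (nat_lit 15) (.e true (nat_lit 3) (nat_lit 313) (nat_lit 1) (nat_lit 15) (.e false (nat_lit 2) (nat_lit 314) (nat_lit 1) (nat_lit 15) (.e false (nat_lit 1) (nat_lit 315) (nat_lit 1) (nat_lit 15) (.e true (nat_lit 2) (nat_lit 316) (nat_lit 1) (nat_lit 15) (.e false (nat_lit 3) (nat_lit 317) (nat_lit 1) (nat_lit 15) (.e false (nat_lit 2) (nat_lit 307) (nat_lit 1) (nat_lit 15) (.e false (nat_lit 3) (nat_lit 310) (nat_lit 1) (nat_lit 15) (.u (nat_lit 2) (.n (nat_lit 0) (nat_lit 1) (.n (nat_lit 1) (nat_lit 6) (.n (nat_lit 2) (nat_lit 4) (.p (nat_lit 3) (nat_lit 3) (.p (nat_lit 4) (nat_lit 1) (.n (nat_lit 6) (nat_lit 1) (.p (nat_lit 7) (nat_lit 3) (.n (nat_lit 8) (nat_lit 3) (.n (nat_lit 9) (nat_lit 2) (.p (nat_lit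 10) (nat_lit 3) (.p (nat_lit 11) (nat_lit 3) (.p (nat_lit 12) (nat_lit 2) (.p (nat_lit 13) (nat_lit 4) (.p (nat_lit 15) (nat_lit 3) (.p (nat_lit 16) (nat_lit 3) (.n (nat_lit 17) (nat_lit 2) (.n (nat_lit 18) (nat_lit 1) (.n (nat_lit 20) (nat_lit 1) (.p (nat_lit 21) (nat_lit 1) (.n (nat_lit 22) (nat_lit 1) (.p (nat_lit 23) (nat_lit 2) (.p (nat_lit 24) (nat_lit 2) (.p (nat_lit 26) (nat_lit 3) (.n (nat_lit 31) (nat_lit 1) (.p (nat_lit 32) (nat_lit 1) (.n (nat_lit 33) (nat_lit 1) (.p (nat_lit 34) (nat_lit 1) (.p (nat_lit 38) (nat_lit 5) (.n (nat_lit 242) (nat_lit 1) (.p (nat_lit 249) (nat_lit 1) (.n (nat_lit 251) (nat_lit 1) .z))))))))))))))))))))))))))))))) .nil)))))))))))))))))))))))))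

noncomputable def dC2b_c35 : Cm := .mk (nat_lit 135) (nat_lit 35) (nat_lit 91) (nat_lit 6) (.c (nat_lit 14) (nat_lit 2) (nat_lit 7) (nat_lit 1) (nat_lit 6) (.c (nat_lit 18) (nat_lit 2) (nat_lit 6) (nat_lit 1) (nat_lit 8) (.c (nat_lit 20) (nat_lit 1) (nat_lit 4) (nat_lit 1) (nat_lit 10) (.c (nat_lit 39) (nat_lit 3) (nat_lit 2) (nat_lit 1) (nat_lit 11) (.c (nat_lit 45) (nat_lit 3) (nat_lit 1) (nat_lit 1) (nat_lit 14) .nil)))))

noncomputable def dC2b_i24 : IL := (.e true (nat_lit 1) (nat_lit 66) (nat_lit 7) (nat_lit 6) (.e false (nat_lit 1) (nat_lit 68) (nat_lit 7) (nat_lit 6) (.e false (nat_lit 1) (nat_lit 69) (nat_lit 7) (nat_lit 6) (.e false (nat_lit 1) (nat_lit 71) (nat_lit 7) (nat_lit 6) (.e false (nat_lit 1) (nat_lit 72) (nat_lit 7) (nat_lit 6) (.e false (nat_lit 3) (nat_lit 132) (nat_lit 2) (nat_lit 11) (.e false (nat_lit 2) (nat_lit 133) (nat_lit 2) (nat_lit 11) (.e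 true (nat_lit 3) (nat_lit 134) (nat_lit 2) (nat_lit 11) (.e false (nat_lit 3) (nat_lit 135) (nat_lit 2) (nat_lit 11) (.e false (nat_lit 1) (nat_lit 136) (nat_lit 2) (nat_lit 11) (.e false (nat_lit 3) (nat_lit 138) (nat_lit 2) (nat_lit 11) (.e false (nat_lit 1) (nat_lit 142) (nat_lit 2) (nat_lit 11) (.e true (nat_lit 1) (nat_lit 143) (nat_lit 2) (nat_lit 11) (.e false (nat_lit 3) (nat_lit 144) (nat_lit 2) (nat_lit 11) (.e false (nat_lit 1) (nat_lit 147) (nat_lit 2) (nat_lit 11) (.e true (nat_lit 2) (nat_lit 149) (nat_lit 2) (nat_lit 11) (.e false (nat_lit 3) (nat_lit 150) (nat_lit 2) (nat_lit 11) (.e false (nat_lit 3) (nat_lit 151) (nat_lit 2) (nat_lit 11) (.e false (nat_lit 2) (nat_lit 152) (nat_lit 2) (nat_lit 11) (.e false (nat_lit 2) (nat_lit 153) (nat_lit 2) (nat_lit 11) (.e false (nat_lit 2) (nat_lit 154) (nat_lit 2) (nat_lit 11) (.e true (nat_lit 3) (nat_lit 155) (nat_lit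 2) (nat_lit 11) (.e true (nat_lit 3) (nat_lit 156) (nat_lit 2) (nat_lit 11) (.e true (nat_lit 2) (nat_lit 157) (nat_lit 2) (nat_lit 11) (.u (nat_lit 2) (.n (nat_lit 2) (nat_lit 2) (.p (nat_lit 3) (nat_lit 1) (.p (nat_lit 6) (nat_lit 1) (.n (nat_lit 7) (nat_lit 1) (.p (nat_lit 8) (nat_lit 1) (.p (nat_lit 12) (nat_lit 1) (.n (nat_lit 13) (nat_lit 1) (.p (nat_lit 14) (nat_lit 1) (.p (nat_lit 18) (nat_lit 1) (.p (nat_lit 21) (nat_lit 1) (.p (nat_lit 22) (nat_lit 1) (.n (nat_lit 25) (nat_lit 1) (.n (nat_lit 31) (nat_lit 1) (.p (nat_lit 33) (nat_lit 2) .z)))))))))))))) .nil)))))))))))))))))))))))))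

noncomputable def dC2b_i25 : IL := (.e true (nat_lit 1) (nat_lit 131) (nat_lit 7) (nat_lit 11) (.e true (nat_lit 1) (nat_lit 205) (nat_lit 2) (nat_lit 16) (.e false (nat_lit 3) (nat_lit 206) (nat_lit 2) (nat_lit 16) (.e true (nat_lit 1) (nat_lit 207) (nat_lit 2) (nat_lit 16) (.e true (nat_lit 1) (nat_lit 208) (nat_lit 2) (nat_lit 16) (.e false (nat_lit 3) (nat_lit 209) (nat_lit 2) (nat_lit 16) (.e false (nat_lit 2) (nat_lit 211) (nat_lit 2) (nat_lit 16) (.e true (nat_lit 3) (nat_lit 212) (nat_lit 2) (nat_lit 16) (.e false (nat_lit 3) (nat_lit 213) (nat_lit 2) (nat_lit 16) (.e false (nat_lit 1) (nat_lit 214) (nat_lit 2) (nat_lit 16) (.e true (nat_lit 2) (nat_lit 217) (nat_lit 2) (nat_lit 16) (.e false (nat_lit 1) (nat_lit 225) (nat_lit 2) (nat_lit 16) (.e false (nat_lit 1) (nat_lit 227) (nat_lit 2) (nat_lit 16) (.e true (nat_lit 1) (nat_lit 228) (nat_lit 2) (nat_lit 16)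 (.e false (nat_lit 1) (nat_lit 230) (nat_lit 2) (nat_lit 16) (.e false (nat_lit 2) (nat_lit 242) (nat_lit 2) (nat_lit 16) (.e true (nat_lit 1) (nat_lit 243) (nat_lit 2) (nat_lit 16) (.e false (nat_lit 3) (nat_lit 245) (nat_lit 2) (nat_lit 16) (.e false (nat_lit 1) (nat_lit 246) (nat_lit 2) (nat_lit 16) (.e false (nat_lit 1) (nat_lit 247) (nat_lit 2) (nat_lit 16) (.e false (nat_lit 3) (nat_lit 248) (nat_lit 2) (nat_lit 16) (.e true (nat_lit 1) (nat_lit 249) (nat_lit 2) (nat_lit 16) (.e false (nat_lit 1) (nat_lit 250) (nat_lit 2) (nat_lit 16) (.e false (nat_lit 1) (nat_lit 251) (nat_lit 2) (nat_lit 16) (.u (nat_lit 2) (.n (nat_lit 0) (nat_lit 1) (.p (nat_lit 3) (nat_lit 1) (.p (nat_lit 4) (nat_lit 2) (.n (nat_lit 5) (nat_lit 4) (.p (nat_lit 6) (nat_lit 6) (.n (nat_lit 7) (nat_lit 1) (.p (nat_lit 8) (nat_lit 5) (.p (nat_lit 9) (nat_lit 4) (.p (nat_lit 10) (nat_lit 2) (.n (nat_lit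 11) (nat_lit 1) (.n (nat_lit 12) (nat_lit 3) (.n (nat_lit 14) (nat_lit 3) (.n (nat_lit 15) (nat_lit 8) (.n (nat_lit 16) (nat_lit 3) (.p (nat_lit 18) (nat_lit 1) (.n (nat_lit 19) (nat_lit 3) (.n (nat_lit 20) (nat_lit 2) (.n (nat_lit 21) (nat_lit 1) (.p (nat_lit 22) (nat_lit 1) (.p (nat_lit 23) (nat_lit 1) (.n (nat_lit 24) (nat_lit 5) (.p (nat_lit 25) (nat_lit 3) (.n (nat_lit 26) (nat_lit 1) (.n (nat_lit 27) (nat_lit 3) (.p (nat_lit 31) (nat_lit 4) (.p (nat_lit 32) (nat_lit 4) (.p (nat_lit 33) (nat_lit 6) (.p (nat_lit 35) (nat_lit 5) (.n (nat_lit 37) (nat_lit 3) (.n (nat_lit 38) (nat_lit 6) (.p (nat_lit 39) (nat_lit 1) (.p (nat_lit 42) (nat_lit 1) (.n (nat_lit 45) (nat_lit 3) (.n (nat_lit 46) (nat_lit 6) (.n (nat_lit 48) (nat_lit 2) (.p (nat_lit 50) (nat_lit 1) (.p (nat_lit 55) (nat_lit 1) .z))))))))))))))))))))))))))))))))))))) .nil)))))))))))))))))))))))))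

noncomputable def dC2b_i26 : IL := (.e false (nat_lit 2) (nat_lit 273) (nat_lit 1) (nat_lit 17) (.e false (nat_lit 2) (nat_lit 274) (nat_lit 1) (nat_lit 17) (.e true (nat_lit 3) (nat_lit 275) (nat_lit 1) (nat_lit 17) (.e true (nat_lit 3) (nat_lit 276) (nat_lit 1) (nat_lit 17) (.e true (nat_lit 2) (nat_lit 277) (nat_lit 1) (nat_lit 17) (.e false (nat_lit 3) (nat_lit 106) (nat_lit 7) (nat_lit 11) (.e false (nat_lit 1) (nat_lit 107) (nat_lit 7) (nat_lit 11) (.e false (nat_lit 1) (nat_lit 108) (nat_lit 7) (nat_lit 11) (.e true (nat_lit 1) (nat_lit 110) (nat_lit 7) (nat_lit 11) (.e false (nat_lit 1) (nat_lit 111) (nat_lit 7) (nat_lit 11) (.e false (nat_lit 3) (nat_lit 112) (nat_lit 7) (nat_lit 11) (.e true (nat_lit 3) (nat_lit 113) (nat_lit 7) (nat_lit 11) (.e true (nat_lit 2) (nat_lit 114) (nat_lit 7) (nat_lit 11) (.e false (nat_lit 3) (nat_lit 115) (nat_lit 7) (nat_lit 11)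 (.e true (nat_lit 2) (nat_lit 116) (nat_lit 7) (nat_lit 11) (.e false (nat_lit 3) (nat_lit 117) (nat_lit 7) (nat_lit 11) (.e true (nat_lit 1) (nat_lit 118) (nat_lit 7) (nat_lit 11) (.e true (nat_lit 1) (nat_lit 119) (nat_lit 7) (nat_lit 11) (.e true (nat_lit 1) (nat_lit 120) (nat_lit 7) (nat_lit 11) (.e false (nat_lit 1) (nat_lit 121) (nat_lit 7) (nat_lit 11) (.e false (nat_lit 1) (nat_lit 122) (nat_lit 7) (nat_lit 11) (.e true (nat_lit 1) (nat_lit 123) (nat_lit 7) (nat_lit 11) (.e false (nat_lit 1) (nat_lit 126) (nat_lit 7) (nat_lit 11) (.e false (nat_lit 1) (nat_lit 127) (nat_lit 7) (nat_lit 11) (.e true (nat_lit 2) (nat_lit 130) (nat_lit 7) (nat_lit 11) dC2b_i25)))))))))))))))))))))))))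

noncomputable def dC2b_i27 : IL := (.e false (nat_lit 3) (nat_lit 213) (nat_lit 2) (nat_lit 16) (.e true (nat_lit 3) (nat_lit 215) (nat_lit 2) (nat_lit 16) (.e false (nat_lit 2) (nat_lit 216) (nat_lit 2) (nat_lit 16) (.e false (nat_lit 3) (nat_lit 219) (nat_lit 2) (nat_lit 16) (.e false (nat_lit 3) (nat_lit 221) (nat_lit 2) (nat_lit 16) (.e true (nat_lit 1) (nat_lit 227) (nat_lit 2) (nat_lit 16) (.e false (nat_lit 2) (nat_lit 228) (nat_lit 2) (nat_lit 16) (.e true (nat_lit 3) (nat_lit 229) (nat_lit 2) (nat_lit 16) (.e false (nat_lit 3) (nat_lit 230) (nat_lit 2) (nat_lit 16) (.e true (nat_lit 1) (nat_lit 231) (nat_lit 2) (nat_lit 16) (.e true (nat_lit 1) (nat_lit 232) (nat_lit 2) (nat_lit 16) (.e false (nat_lit 1) (nat_lit 234) (nat_lit 2) (nat_lit 16) (.e false (nat_lit 1) (nat_lit 242) (nat_lit 2) (nat_lit 16) (.e true (nat_lit 2) (nat_lit 246) (nat_lit 2) (nat_lit 16)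 (.e true (nat_lit 2) (nat_lit 247) (nat_lit 2) (nat_lit 16) (.e false (nat_lit 1) (nat_lit 248) (nat_lit 2) (nat_lit 16) (.e false (nat_lit 1) (nat_lit 249) (nat_lit 2) (nat_lit 16) (.e true (nat_lit 1) (nat_lit 250) (nat_lit 2) (nat_lit 16) (.e true (nat_lit 3) (nat_lit 251) (nat_lit 2) (nat_lit 16) (.e false (nat_lit 1) (nat_lit 217) (nat_lit 2) (nat_lit 16) (.e false (nat_lit 2) (nat_lit 218) (nat_lit 2) (nat_lit 16) (.e false (nat_lit 2) (nat_lit 222) (nat_lit 2) (nat_lit 16) (.e true (nat_lit 3) (nat_lit 225) (nat_lit 2) (nat_lit 16) (.e true (nat_lit 2) (nat_lit 226) (nat_lit 2) (nat_lit 16) (.u (nat_lit 2) (.p (nat_lit 0) (nat_lit 5) (.n (nat_lit 1) (nat_lit 2) (.p (nat_lit 2) (nat_lit 4) (.p (nat_lit 3) (nat_lit 1) (.n (nat_lit 4) (nat_lit 4) (.n (nat_lit 5) (nat_lit 2) (.p (nat_lit 6) (nat_lit 4) (.p (nat_lit 7) (nat_lit 1) (.n (nat_lit 8) (nat_lit 3) (.n (nat_lit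 9) (nat_lit 1) (.n (nat_lit 10) (nat_lit 3) (.p (nat_lit 11) (nat_lit 3) (.p (nat_lit 12) (nat_lit 3) (.n (nat_lit 14) (nat_lit 2) (.p (nat_lit 16) (nat_lit 2) (.p (nat_lit 17) (nat_lit 8) (.n (nat_lit 18) (nat_lit 2) (.n (nat_lit 19) (nat_lit 3) (.p (nat_lit 20) (nat_lit 1) (.n (nat_lit 21) (nat_lit 1) (.p (nat_lit 22) (nat_lit 1) (.n (nat_lit 23) (nat_lit 2) (.p (nat_lit 24) (nat_lit 1) (.n (nat_lit 25) (nat_lit 1) (.n (nat_lit 27) (nat_lit 2) (.p (nat_lit 28) (nat_lit 1) (.n (nat_lit 29) (nat_lit 1) (.p (nat_lit 31) (nat_lit 2) (.p (nat_lit 32) (nat_lit 2) (.n (nat_lit 33) (nat_lit 1) (.p (nat_lit 34) (nat_lit 1) (.n (nat_lit 35) (nat_lit 1) (.n (nat_lit 36) (nat_lit 4) (.p (nat_lit 37) (nat_lit 1) (.p (nat_lit 38) (nat_lit 1) (.p (nat_lit 39) (nat_lit 2) (.n (nat_lit 45) (nat_lit 3) (.n (nat_lit 46) (nat_lit 3) (.p (nat_lit 47) (nat_lit 2) (.p (nat_lit 48) (nat_lit 1)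 (.p (nat_lit 52) (nat_lit 1) (.p (nat_lit 308) (nat_lit 1) (.n (nat_lit 310) (nat_lit 1) (.p (nat_lit 312) (nat_lit 1) (.n (nat_lit 318) (nat_lit 1) (.p (nat_lit 326) (nat_lit 1) (.n (nat_lit 327) (nat_lit 1) .z))))))))))))))))))))))))))))))))))))))))))))))) .nil)))))))))))))))))))))))))

noncomputable def dC2b_i28 : IL := (.e true (nat_lit 2) (nat_lit 269) (nat_lit 2) (nat_lit 14) (.e false (nat_lit 3) (nat_lit 274) (nat_lit 2) (nat_lit 14) (.e false (nat_lit 1) (nat_lit 62) (nat_lit 20) (nat_lit 3) (.e true (nat_lit 3) (nat_lit 305) (nat_lit 1) (nat_lit 15) (.e true (nat_lit 2) (nat_lit 306) (nat_lit 1) (nat_lit 15) (.e false (nat_lit 2) (nat_lit 307) (nat_lit 1) (nat_lit 15) (.e true (nat_lit 1) (nat_lit 308) (nat_lit 1) (nat_lit 15) (.e false (nat_lit 2) (nat_lit 309) (nat_lit 1) (nat_lit 15) (.e true (nat_lit 3) (nat_lit 310) (nat_lit 1) (nat_lit 15) (.e true (nat_lit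 1) (nat_lit 311) (nat_lit 1) (nat_lit 15) (.e true (nat_lit 1) (nat_lit 312) (nat_lit 1) (nat_lit 15) (.e true (nat_lit 1) (nat_lit 313) (nat_lit 1) (nat_lit 15) (.e false (nat_lit 2) (nat_lit 314) (nat_lit 1) (nat_lit 15) (.e false (nat_lit 1) (nat_lit 317) (nat_lit 1) (nat_lit 15) (.e true (nat_lit 1) (nat_lit 321) (nat_lit 1) (nat_lit 15) (.e false (nat_lit 1) (nat_lit 322) (nat_lit 1) (nat_lit 15) (.e false (nat_lit 1) (nat_lit 48) (nat_lit 26) (nat_lit 2) (.e true (nat_lit 1) (nat_lit 66) (nat_lit 20) (nat_lit 3) (.e false (nat_lit 1) (nat_lit 252) (nat_lit 2) (nat_lit 14) (.e false (nat_lit 1) (nat_lit 253) (nat_lit 2) (nat_lit 14) (.e true (nat_lit 1) (nat_lit 255) (nat_lit 2) (nat_lit 14) (.e false (nat_lit 1) (nat_lit 257) (nat_lit 2) (nat_lit 14) (.e false (nat_lit 1) (nat_lit 277) (nat_lit 2) (nat_lit 14) (.e true (nat_lit 1) (nat_lit 285) (nat_lit 2) (nat_lit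 14) (.u (nat_lit 2) (.n (nat_lit 0) (nat_lit 2) (.p (nat_lit 1) (nat_lit 1) (.n (nat_lit 2) (nat_lit 1) (.n (nat_lit 3) (nat_lit 2) (.n (nat_lit 4) (nat_lit 2) (.p (nat_lit 5) (nat_lit 1) (.n (nat_lit 6) (nat_lit 1) (.n (nat_lit 7) (nat_lit 1) (.p (nat_lit 8) (nat_lit 3) (.p (nat_lit 11) (nat_lit 1) (.n (nat_lit 12) (nat_lit 1) (.p (nat_lit 13) (nat_lit 2) (.p (nat_lit 17) (nat_lit 3) (.p (nat_lit 18) (nat_lit 1) (.n (nat_lit 19) (nat_lit 2) (.p (nat_lit 24) (nat_lit 1) (.p (nat_lit 25) (nat_lit 1) (.n (nat_lit 30) (nat_lit 1) (.p (nat_lit 34) (nat_lit 1) (.n (nat_lit 210) (nat_lit 1) .z)))))))))))))))))))) .nil)))))))))))))))))))))))))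

noncomputable def dC2b_i29 : IL := (.e true (nat_lit 1) (nat_lit 264) (nat_lit 2) (nat_lit 14) (.e false (nat_lit 1) (nat_lit 252) (nat_lit 2) (nat_lit 14) (.e false (nat_lit 2) (nat_lit 254) (nat_lit 2) (nat_lit 14) (.e true (nat_lit 3) (nat_lit 256) (nat_lit 2) (nat_lit 14) (.e false (nat_lit 3) (nat_lit 261) (nat_lit 2) (nat_lit 14) (.e false (nat_lit 2) (nat_lit 263) (nat_lit 2) (nat_lit 14) (.e true (nat_lit 1) (nat_lit 265) (nat_lit 2) (nat_lit 14) (.e false (nat_lit 3) (nat_lit 272) (nat_lit 2) (nat_lit 14) (.e true (nat_lit 1) (nat_lit 274) (nat_lit 2) (nat_lit 14) (.e false (nat_lit 1) (nat_lit 275) (nat_lit 2) (nat_lit 14) (.e false (nat_lit 1) (nat_lit 63) (nat_lit 20) (nat_lit 3) (.e true (nat_lit 2) (nat_lit 314) (nat_lit 1) (nat_lit 15) (.e false (nat_lit 1) (nat_lit 322) (nat_lit 1) (nat_lit 15) (.e false (nat_lit 1) (nat_lit 48) (nat_lit 27) (nat_lit 2)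 (.e false (nat_lit 1) (nat_lit 317) (nat_lit 1) (nat_lit 15) (.e true (nat_lit 1) (nat_lit 67) (nat_lit 20) (nat_lit 3) (.e true (nat_lit 3) (nat_lit 257) (nat_lit 2) (nat_lit 14) (.e true (nat_lit 2) (nat_lit 262) (nat_lit 2) (nat_lit 14) (.e false (nat_lit 2) (nat_lit 269) (nat_lit 2) (nat_lit 14) (.e true (nat_lit 3) (nat_lit 271) (nat_lit 2) (nat_lit 14) (.e true (nat_lit 3) (nat_lit 273) (nat_lit 2) (nat_lit 14) (.e false (nat_lit 3) (nat_lit 276) (nat_lit 2) (nat_lit 14) (.e false (nat_lit 2) (nat_lit 277) (nat_lit 2) (nat_lit 14) (.e true (nat_lit 1) (nat_lit 286) (nat_lit 2) (nat_lit 14) (.u (nat_lit 2) (.n (nat_lit 0) (nat_lit 2) (.p (nat_lit 1) (nat_lit 3) (.p (nat_lit 2) (nat_lit 3) (.n (nat_lit 3) (nat_lit 1) (.p (nat_lit 4) (nat_lit 1) (.n (nat_lit 5) (nat_lit 2) (.p (nat_lit 6) (nat_lit 1) (.n (nat_lit 7) (nat_lit 1) (.p (nat_lit 8) (nat_lit 1) (.n (nat_lit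 11) (nat_lit 3) (.p (nat_lit 12) (nat_lit 2) (.n (nat_lit 13) (nat_lit 3) (.n (nat_lit 14) (nat_lit 1) (.n (nat_lit 15) (nat_lit 5) (.n (nat_lit 16) (nat_lit 5) (.p (nat_lit 17) (nat_lit 1) (.n (nat_lit 18) (nat_lit 1) (.p (nat_lit 19) (nat_lit 1) (.p (nat_lit 21) (nat_lit 1) (.n (nat_lit 23) (nat_lit 3) (.n (nat_lit 24) (nat_lit 2) (.n (nat_lit 26) (nat_lit 1) (.n (nat_lit 34) (nat_lit 1) (.n (nat_lit 35) (nat_lit 1) (.n (nat_lit 38) (nat_lit 1) (.p (nat_lit 208) (nat_lit 1) (.p (nat_lit 211) (nat_lit 1) (.n (nat_lit 212) (nat_lit 1) (.p (nat_lit 216) (nat_lit 1) (.n (nat_lit 224) (nat_lit 1) .z)))))))))))))))))))))))))))))) .nil)))))))))))))))))))))))))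

noncomputable def dC2b_i30 : IL := (.e true (nat_lit 2) (nat_lit 261) (nat_lit 2) (nat_lit 14) (.e true (nat_lit 2) (nat_lit 262) (nat_lit 2) (nat_lit 14) (.e true (nat_lit 3) (nat_lit 263) (nat_lit 2) (nat_lit 14) (.e false (nat_lit 3) (nat_lit 264) (nat_lit 2) (nat_lit 14) (.e true (nat_lit 2) (nat_lit 265) (nat_lit 2) (nat_lit 14) (.e false (nat_lit 1) (nat_lit 266) (nat_lit 2) (nat_lit 14) (.e true (nat_lit 3) (nat_lit 267) (nat_lit 2) (nat_lit 14) (.e false (nat_lit 1) (nat_lit 269) (nat_lit 2) (nat_lit 14) (.e true (nat_lit 2) (nat_lit 270) (nat_lit 2) (nat_lit 14) (.e false (nat_lit 3) (nat_lit 272) (nat_lit 2) (nat_lit 14) (.e true (nat_lit 3) (nat_lit 275) (nat_lit 2) (nat_lit 14) (.e true (nat_lit 2) (nat_lit 277) (nat_lit 2) (nat_lit 14) (.e true (nat_lit 3) (nat_lit 283) (nat_lit 2) (nat_lit 14) (.e false (nat_lit 3) (nat_lit 285) (nat_lit 2) (nat_lit 14) (.e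 true (nat_lit 3) (nat_lit 271) (nat_lit 2) (nat_lit 14) (.e false (nat_lit 3) (nat_lit 273) (nat_lit 2) (nat_lit 14) (.e true (nat_lit 2) (nat_lit 274) (nat_lit 2) (nat_lit 14) (.e false (nat_lit 3) (nat_lit 276) (nat_lit 2) (nat_lit 14) (.e false (nat_lit 1) (nat_lit 64) (nat_lit 20) (nat_lit 3) (.e false (nat_lit 1) (nat_lit 102) (nat_lit 13) (nat_lit 7) (.e true (nat_lit 1) (nat_lit 103) (nat_lit 13) (nat_lit 7) (.e false (nat_lit 1) (nat_lit 104) (nat_lit 13) (nat_lit 7) (.e true (nat_lit 1) (nat_lit 315) (nat_lit 1) (nat_lit 15) (.e false (nat_lit 1) (nat_lit 323) (nat_lit 1) (nat_lit 15) (.u (nat_lit 2) (.p (nat_lit 0) (nat_lit 6) (.p (nat_lit 2) (nat_lit 2) (.p (nat_lit 3) (nat_lit 6) (.p (nat_lit 4) (nat_lit 3) (.n (nat_lit 5) (nat_lit 1) (.p (nat_lit 6) (nat_lit 4) (.n (nat_lit 7) (nat_lit 1) (.n (nat_lit 8) (nat_lit 1) (.p (nat_lit 9) (nat_lit 5) (.n (nat_lit 13)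 (nat_lit 1) (.n (nat_lit 14) (nat_lit 2) (.n (nat_lit 17) (nat_lit 1) (.n (nat_lit 18) (nat_lit 3) (.p (nat_lit 23) (nat_lit 5) (.p (nat_lit 24) (nat_lit 1) (.n (nat_lit 25) (nat_lit 1) (.p (nat_lit 30) (nat_lit 1) (.n (nat_lit 31) (nat_lit 1) (.n (nat_lit 34) (nat_lit 1) (.p (nat_lit 35) (nat_lit 2) (.n (nat_lit 38) (nat_lit 1) (.p (nat_lit 206) (nat_lit 1) (.n (nat_lit 207) (nat_lit 1) (.n (nat_lit 210) (nat_lit 1) (.n (nat_lit 211) (nat_lit 1) (.p (nat_lit 212) (nat_lit 1) (.p (nat_lit 213) (nat_lit 1) (.p (nat_lit 214) (nat_lit 1) (.p (nat_lit 215) (nat_lit 1) (.n (nat_lit 216) (nat_lit 1) (.p (nat_lit 219) (nat_lit 1) (.p (nat_lit 235) (nat_lit 1) (.n (nat_lit 237) (nat_lit 1) .z))))))))))))))))))))))))))))))))) .nil)))))))))))))))))))))))))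

noncomputable def dC2b_i31 : IL := (.e false (nat_lit 2) (nat_lit 328) (nat_lit 0) (nat_lit 16) (.e true (nat_lit 2) (nat_lit 329) (nat_lit 0) (nat_lit 16) (.e true (nat_lit 1) (nat_lit 330) (nat_lit 0) (nat_lit 16) (.e true (nat_lit 3) (nat_lit 331) (nat_lit 0) (nat_lit 16) (.e false (nat_lit 2) (nat_lit 333) (nat_lit 0) (nat_lit 16) (.e false (nat_lit 1) (nat_lit 334) (nat_lit 0) (nat_lit 16) (.e false (nat_lit 1) (nat_lit 133) (nat_lit 7) (nat_lit 9) (.e false (nat_lit 3) (nat_lit 134) (nat_lit 7) (nat_lit 9) (.e true (nat_lit 2) (nat_lit 135) (nat_lit 7) (nat_lit 9) (.e false (nat_lit 1) (nat_lit 139) (nat_lit 7) (nat_lit 9) (.e true (nat_lit 1) (nat_lit 140) (nat_lit 7) (nat_lit 9) (.e false (nat_lit 2) (nat_lit 144) (nat_lit 7) (nat_lit 9) (.e false (nat_lit 3) (nat_lit 145) (nat_lit 7) (nat_lit 9) (.e true (nat_lit 1) (nat_lit 149) (nat_lit 7) (nat_lit 9) (.e true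 (nat_lit 1) (nat_lit 154) (nat_lit 7) (nat_lit 9) (.e false (nat_lit 1) (nat_lit 155) (nat_lit 7) (nat_lit 9) (.e false (nat_lit 2) (nat_lit 132) (nat_lit 7) (nat_lit 9) (.e false (nat_lit 3) (nat_lit 138) (nat_lit 7) (nat_lit 9) (.e false (nat_lit 1) (nat_lit 142) (nat_lit 7) (nat_lit 9) (.e false (nat_lit 2) (nat_lit 137) (nat_lit 7) (nat_lit 9) (.e false (nat_lit 2) (nat_lit 143) (nat_lit 7) (nat_lit 9) (.e true (nat_lit 2) (nat_lit 136) (nat_lit 7) (nat_lit 9) (.e true (nat_lit 1) (nat_lit 157) (nat_lit 7) (nat_lit 9) (.e true (nat_lit 1) (nat_lit 153) (nat_lit 7) (nat_lit 9) (.u (nat_lit 2) (.p (nat_lit 1) (nat_lit 2) (.n (nat_lit 3) (nat_lit 1) (.p (nat_lit 4) (nat_lit 3) (.n (nat_lit 5) (nat_lit 1) (.n (nat_lit 6) (nat_lit 1) (.n (nat_lit 7) (nat_lit 1) (.p (nat_lit 8) (nat_lit 2) (.p (nat_lit 9) (nat_lit 3) (.p (nat_lit 10) (nat_lit 1) (.p (nat_lit 11) (nat_lit 4)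 (.p (nat_lit 12) (nat_lit 3) (.p (nat_lit 15) (nat_lit 4) (.p (nat_lit 16) (nat_lit 4) (.n (nat_lit 17) (nat_lit 2) (.n (nat_lit 18) (nat_lit 5) (.n (nat_lit 19) (nat_lit 3) (.p (nat_lit 23) (nat_lit 1) (.n (nat_lit 24) (nat_lit 2) (.p (nat_lit 25) (nat_lit 2) (.n (nat_lit 26) (nat_lit 1) (.p (nat_lit 27) (nat_lit 2) (.n (nat_lit 29) (nat_lit 1) (.p (nat_lit 142) (nat_lit 1) (.n (nat_lit 143) (nat_lit 2) (.p (nat_lit 144) (nat_lit 1) (.p (nat_lit 145) (nat_lit 1) (.p (nat_lit 146) (nat_lit 1) (.n (nat_lit 147) (nat_lit 1) (.p (nat_lit 149) (nat_lit 1) (.n (nat_lit 150) (nat_lit 1) (.p (nat_lit 151) (nat_lit 1) (.n (nat_lit 153) (nat_lit 1) (.n (nat_lit 154) (nat_lit 2) (.n (nat_lit 159) (nat_lit 1) (.n (nat_lit 160) (nat_lit 2) (.n (nat_lit 161) (nat_lit 1) (.p (nat_lit 162) (nat_lit 1) (.p (nat_lit 163) (nat_lit 1) (.n (nat_lit 164) (nat_lit 1) (.n (nat_lit 165) (nat_lit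 2) (.p (nat_lit 166) (nat_lit 2) (.n (nat_lit 167) (nat_lit 1) (.n (nat_lit 241) (nat_lit 1) (.n (nat_lit 243) (nat_lit 1) (.n (nat_lit 244) (nat_lit 1) (.p (nat_lit 245) (nat_lit 1) (.p (nat_lit 251) (nat_lit 1) .z))))))))))))))))))))))))))))))))))))))))))))))) .nil)))))))))))))))))))))))))

noncomputable def dC2b_i32 : IL := (.e true (nat_lit 2) (nat_lit 324) (nat_lit 0) (nat_lit 16) (.e true (nat_lit 1) (nat_lit 61) (nat_lit 20) (nat_lit 3) (.e false (nat_lit 1) (nat_lit 63) (nat_lit 20) (nat_lit 3) (.e true (nat_lit 1) (nat_lit 64) (nat_lit 20) (nat_lit 3) (.e true (nat_lit 1) (nat_lit 66) (nat_lit 20) (nat_lit 3) (.e false (nat_lit 1) (nat_lit 71) (nat_lit 20) (nat_lit 3) (.e false (nat_lit 1) (nat_lit 72) (nat_lit 20) (nat_lit 3) (.e false (nat_lit 1) (nat_lit 73) (nat_lit 20) (nat_lit 3) (.e true (nat_lit 1) (nat_lit 81) (nat_lit 18) (nat_lit 4) (.e false (nat_lit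 1) (nat_lit 82) (nat_lit 18) (nat_lit 4) (.e false (nat_lit 1) (nat_lit 83) (nat_lit 18) (nat_lit 4) (.e false (nat_lit 1) (nat_lit 85) (nat_lit 18) (nat_lit 4) (.e true (nat_lit 1) (nat_lit 88) (nat_lit 18) (nat_lit 4) (.e true (nat_lit 3) (nat_lit 305) (nat_lit 1) (nat_lit 15) (.e true (nat_lit 2) (nat_lit 306) (nat_lit 1) (nat_lit 15) (.e false (nat_lit 1) (nat_lit 307) (nat_lit 1) (nat_lit 15) (.e true (nat_lit 2) (nat_lit 308) (nat_lit 1) (nat_lit 15) (.e false (nat_lit 3) (nat_lit 309) (nat_lit 1) (nat_lit 15) (.e true (nat_lit 3) (nat_lit 310) (nat_lit 1) (nat_lit 15) (.e true (nat_lit 3) (nat_lit 313) (nat_lit 1) (nat_lit 15) (.e false (nat_lit 2) (nat_lit 314) (nat_lit 1) (nat_lit 15) (.e false (nat_lit 1) (nat_lit 315) (nat_lit 1) (nat_lit 15) (.e false (nat_lit 2) (nat_lit 318) (nat_lit 1) (nat_lit 15) (.e true (nat_lit 1) (nat_lit 323) (nat_lit 1) (nat_lit 15)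 (.u (nat_lit 2) (.n (nat_lit 0) (nat_lit 3) (.n (nat_lit 1) (nat_lit 2) (.p (nat_lit 2) (nat_lit 1) (.n (nat_lit 3) (nat_lit 1) (.n (nat_lit 4) (nat_lit 1) (.p (nat_lit 9) (nat_lit 1) (.n (nat_lit 11) (nat_lit 1) (.p (nat_lit 12) (nat_lit 2) (.n (nat_lit 13) (nat_lit 2) (.p (nat_lit 19) (nat_lit 1) (.p (nat_lit 21) (nat_lit 2) (.p (nat_lit 24) (nat_lit 2) (.n (nat_lit 35) (nat_lit 1) (.p (nat_lit 263) (nat_lit 1) (.n (nat_lit 264) (nat_lit 1) .z))))))))))))))) .nil)))))))))))))))))))))))))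

noncomputable def dC2b_c260 : Cm := .mk (nat_lit 146) (nat_lit 260) (nat_lit 97) (nat_lit 4) (.c (nat_lit 16) (nat_lit 2) (nat_lit 7) (nat_lit 1) (nat_lit 4) (.c (nat_lit 20) (nat_lit 1) (nat_lit 5) (nat_lit 1) (nat_lit 6) (.c (nat_lit 42) (nat_lit 3) (nat_lit 2) (nat_lit 1) (nat_lit 7) (.c (nat_lit 48) (nat_lit 1) (nat_lit 0) (nat_lit 1) (nat_lit 10) .nil))))

noncomputable def dC2b_c20 : Cm := .mk (nat_lit 153) (nat_lit 20) (nat_lit 101) (nat_lit 4) (.c (nat_lit 18) (nat_lit 2) (nat_lit 7) (nat_lit 1) (nat_lit 4) (.c (nat_lit 20) (nat_lit 1) (nat_lit 6) (nat_lit 1) (nat_lit 6) (.c (nat_lit 45) (nat_lit 3) (nat_lit 2) (nat_lit 1) (nat_lit 7) (.c (nat_lit 48) (nat_lit 1) (nat_lit 1) (nat_lit 1) (nat_lit 10) .nil))))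

noncomputable def dC2b_c261 : Cm := .mk (nat_lit 377) (nat_lit 261) (nat_lit 195) (nat_lit 5) (.c (nat_lit 20) (nat_lit 1) (nat_lit 16) (nat_lit 2) (nat_lit 5) (.c (nat_lit 42) (nat_lit 3) (nat_lit 7) (nat_lit 1) (nat_lit 7) (.c (nat_lit 48) (nat_lit 1) (nat_lit 5) (nat_lit 1) (nat_lit 10) (.c (nat_lit 97) (nat_lit 4) (nat_lit 2) (nat_lit 1) (nat_lit 11) (.c (nat_lit 105) (nat_lit 1) (nat_lit 0) (nat_lit 1) (nat_lit 15) .nil)))))

noncomputable def dC2b_i33 : IL := (.e true (nat_lit 1) (nat_lit 28) (nat_lit 20) (nat_lit 0) (.e true (nat_lit 1) (nat_lit 29) (nat_lit 20) (nat_lit 0) (.e false (nat_lit 1) (nat_lit 190) (nat_lit 0) (nat_lit 13) (.e true (nat_lit 1) (nat_lit 194) (nat_lit 0) (nat_lit 13) (.e false (nat_lit 3) (nat_lit 151) (nat_lit 2) (nat_lit 11) (.e true (nat_lit 1) (nat_lit 133) (nat_lit 2) (nat_lit 11) (.e false (nat_lit 2) (nat_lit 134) (nat_lit 2) (nat_lit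 11) (.e false (nat_lit 1) (nat_lit 135) (nat_lit 2) (nat_lit 11) (.e false (nat_lit 3) (nat_lit 136) (nat_lit 2) (nat_lit 11) (.e true (nat_lit 3) (nat_lit 137) (nat_lit 2) (nat_lit 11) (.e true (nat_lit 3) (nat_lit 138) (nat_lit 2) (nat_lit 11) (.e true (nat_lit 1) (nat_lit 139) (nat_lit 2) (nat_lit 11) (.e false (nat_lit 1) (nat_lit 140) (nat_lit 2) (nat_lit 11) (.e true (nat_lit 3) (nat_lit 143) (nat_lit 2) (nat_lit 11) (.e false (nat_lit 1) (nat_lit 147) (nat_lit 2) (nat_lit 11) (.e true (nat_lit 1) (nat_lit 149) (nat_lit 2) (nat_lit 11) (.e false (nat_lit 3) (nat_lit 150) (nat_lit 2) (nat_lit 11) (.e false (nat_lit 2) (nat_lit 152) (nat_lit 2) (nat_lit 11) (.e false (nat_lit 3) (nat_lit 153) (nat_lit 2) (nat_lit 11) (.e false (nat_lit 2) (nat_lit 154) (nat_lit 2) (nat_lit 11) (.e false (nat_lit 3) (nat_lit 155) (nat_lit 2) (nat_lit 11) (.e true (nat_lit 3) (nat_lit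 156) (nat_lit 2) (nat_lit 11) (.e true (nat_lit 1) (nat_lit 157) (nat_lit 2) (nat_lit 11) (.e false (nat_lit 3) (nat_lit 144) (nat_lit 2) (nat_lit 11) (.u (nat_lit 2) (.p (nat_lit 1) (nat_lit 1) (.p (nat_lit 2) (nat_lit 1) (.n (nat_lit 3) (nat_lit 1) (.n (nat_lit 5) (nat_lit 1) (.n (nat_lit 6) (nat_lit 1) (.p (nat_lit 7) (nat_lit 1) (.n (nat_lit 8) (nat_lit 1) (.n (nat_lit 11) (nat_lit 1) (.p (nat_lit 15) (nat_lit 1) (.p (nat_lit 18) (nat_lit 1) (.p (nat_lit 20) (nat_lit 1) (.p (nat_lit 21) (nat_lit 1) (.p (nat_lit 22) (nat_lit 1) (.p (nat_lit 23) (nat_lit 1) (.n (nat_lit 25) (nat_lit 1) (.p (nat_lit 118) (nat_lit 1) (.p (nat_lit 119) (nat_lit 1) (.n (nat_lit 120) (nat_lit 1) (.n (nat_lit 126) (nat_lit 1) (.p (nat_lit 128) (nat_lit 1) (.n (nat_lit 135) (nat_lit 1) (.n (nat_lit 136) (nat_lit 2) (.p (nat_lit 139) (nat_lit 1) (.n (nat_lit 140) (nat_lit 1) (.p (nat_lit 141)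 (nat_lit 1) .z))))))))))))))))))))))))) .nil)))))))))))))))))))))))))

noncomputable def dC2b_i34 : IL := (.e false (nat_lit 1) (nat_lit 252) (nat_lit 2) (nat_lit 14) (.e true (nat_lit 1) (nat_lit 253) (nat_lit 2) (nat_lit 14) (.e true (nat_lit 1) (nat_lit 254) (nat_lit 2) (nat_lit 14) (.e true (nat_lit 3) (nat_lit 255) (nat_lit 2) (nat_lit 14) (.e false (nat_lit 2) (nat_lit 256) (nat_lit 2) (nat_lit 14) (.e true (nat_lit 1) (nat_lit 258) (nat_lit 2) (nat_lit 14) (.e false (nat_lit 1) (nat_lit 259) (nat_lit 2) (nat_lit 14) (.e true (nat_lit 1) (nat_lit 260) (nat_lit 2) (nat_lit 14) (.e false (nat_lit 2) (nat_lit 261) (nat_lit 2) (nat_lit 14) (.e true (nat_lit 3) (nat_lit 262) (nat_lit 2) (nat_lit 14) (.e false (nat_lit 1) (nat_lit 263) (nat_lit 2) (nat_lit 14) (.e false (nat_lit 3) (nat_lit 264) (nat_lit 2) (nat_lit 14) (.e false (nat_lit 1) (nat_lit 265) (nat_lit 2) (nat_lit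 14) (.e true (nat_lit 3) (nat_lit 266) (nat_lit 2) (nat_lit 14) (.e true (nat_lit 1) (nat_lit 267) (nat_lit 2) (nat_lit 14) (.e false (nat_lit 2) (nat_lit 269) (nat_lit 2) (nat_lit 14) (.e true (nat_lit 3) (nat_lit 270) (nat_lit 2) (nat_lit 14) (.e true (nat_lit 3) (nat_lit 272) (nat_lit 2) (nat_lit 14) (.e false (nat_lit 2) (nat_lit 285) (nat_lit 2) (nat_lit 14) (.e false (nat_lit 1) (nat_lit 257) (nat_lit 2) (nat_lit 14) (.e false (nat_lit 2) (nat_lit 271) (nat_lit 2) (nat_lit 14) (.e true (nat_lit 2) (nat_lit 276) (nat_lit 2) (nat_lit 14) (.e true (nat_lit 2) (nat_lit 283) (nat_lit 2) (nat_lit 14) (.e true (nat_lit 3) (nat_lit 277) (nat_lit 2) (nat_lit 14) (.u (nat_lit 2) (.p (nat_lit 0) (nat_lit 2) (.p (nat_lit 2) (nat_lit 3) (.p (nat_lit 3) (nat_lit 5) (.n (nat_lit 5) (nat_lit 3) (.p (nat_lit 6) (nat_lit 2) (.p (nat_lit 7) (nat_lit 1) (.p (nat_lit 8) (nat_lit 1) (.p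 (nat_lit 9) (nat_lit 5) (.n (nat_lit 10) (nat_lit 2) (.n (nat_lit 11) (nat_lit 1) (.n (nat_lit 12) (nat_lit 1) (.p (nat_lit 13) (nat_lit 1) (.n (nat_lit 14) (nat_lit 4) (.n (nat_lit 15) (nat_lit 1) (.n (nat_lit 16) (nat_lit 1) (.n (nat_lit 17) (nat_lit 1) (.p (nat_lit 18) (nat_lit 1) (.p (nat_lit 19) (nat_lit 1) (.n (nat_lit 21) (nat_lit 1) (.p (nat_lit 23) (nat_lit 1) (.n (nat_lit 24) (nat_lit 1) (.p (nat_lit 27) (nat_lit 2) (.n (nat_lit 29) (nat_lit 1) (.p (nat_lit 30) (nat_lit 1) (.n (nat_lit 31) (nat_lit 1) (.n (nat_lit 34) (nat_lit 3) (.p (nat_lit 35) (nat_lit 1) (.n (nat_lit 38) (nat_lit 3) (.n (nat_lit 204) (nat_lit 1) (.n (nat_lit 205) (nat_lit 1) (.p (nat_lit 208) (nat_lit 1) (.n (nat_lit 209) (nat_lit 1) (.p (nat_lit 210) (nat_lit 1) (.n (nat_lit 211) (nat_lit 2) (.p (nat_lit 212) (nat_lit 2) (.n (nat_lit 214) (nat_lit 1) (.p (nat_lit 219) (nat_lit 1) (.p (nat_lit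 221) (nat_lit 1) (.p (nat_lit 222) (nat_lit 1) (.p (nat_lit 224) (nat_lit 1) (.p (nat_lit 226) (nat_lit 2) (.n (nat_lit 234) (nat_lit 1) (.p (nat_lit 235) (nat_lit 1) (.n (nat_lit 237) (nat_lit 1) .z)))))))))))))))))))))))))))))))))))))))))))) .nil)))))))))))))))))))))))))

noncomputable def dC2b_i35 : IL := (.e true (nat_lit 1) (nat_lit 213) (nat_lit 2) (nat_lit 16) (.e false (nat_lit 1) (nat_lit 214) (nat_lit 2) (nat_lit 16) (.e false (nat_lit 1) (nat_lit 215) (nat_lit 2) (nat_lit 16) (.e false (nat_lit 1) (nat_lit 230) (nat_lit 2) (nat_lit 16) (.e false (nat_lit 1) (nat_lit 246) (nat_lit 2) (nat_lit 16) (.e true (nat_lit 1) (nat_lit 249) (nat_lit 2) (nat_lit 16) (.e true (nat_lit 2) (nat_lit 206) (nat_lit 2) (nat_lit 16) (.e true (nat_lit 1) (nat_lit 217) (nat_lit 2) (nat_lit 16) (.e false (nat_lit 1) (nat_lit 209) (nat_lit 2) (nat_lit 16) (.e true (nat_lit 1) (nat_lit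 102) (nat_lit 9) (nat_lit 10) (.e false (nat_lit 1) (nat_lit 103) (nat_lit 9) (nat_lit 10) (.e true (nat_lit 1) (nat_lit 104) (nat_lit 9) (nat_lit 10) (.e false (nat_lit 2) (nat_lit 252) (nat_lit 1) (nat_lit 17) (.e false (nat_lit 1) (nat_lit 254) (nat_lit 1) (nat_lit 17) (.e true (nat_lit 2) (nat_lit 256) (nat_lit 1) (nat_lit 17) (.e false (nat_lit 2) (nat_lit 257) (nat_lit 1) (nat_lit 17) (.e true (nat_lit 2) (nat_lit 258) (nat_lit 1) (nat_lit 17) (.e true (nat_lit 1) (nat_lit 259) (nat_lit 1) (nat_lit 17) (.e false (nat_lit 1) (nat_lit 260) (nat_lit 1) (nat_lit 17) (.e false (nat_lit 1) (nat_lit 262) (nat_lit 1) (nat_lit 17) (.e false (nat_lit 2) (nat_lit 263) (nat_lit 1) (nat_lit 17) (.e false (nat_lit 2) (nat_lit 264) (nat_lit 1) (nat_lit 17) (.e false (nat_lit 1) (nat_lit 265) (nat_lit 1) (nat_lit 17) (.e true (nat_lit 1) (nat_lit 284) (nat_lit 1) (nat_lit 17) (.u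 (nat_lit 2) (.n (nat_lit 2) (nat_lit 1) (.p (nat_lit 3) (nat_lit 2) (.n (nat_lit 5) (nat_lit 1) (.p (nat_lit 7) (nat_lit 2) (.p (nat_lit 8) (nat_lit 2) (.n (nat_lit 10) (nat_lit 1) (.n (nat_lit 11) (nat_lit 1) (.n (nat_lit 12) (nat_lit 1) (.p (nat_lit 14) (nat_lit 1) (.n (nat_lit 15) (nat_lit 1) (.n (nat_lit 16) (nat_lit 1) (.p (nat_lit 17) (nat_lit 1) (.p (nat_lit 19) (nat_lit 1) (.n (nat_lit 20) (nat_lit 1) (.p (nat_lit 21) (nat_lit 1) (.n (nat_lit 22) (nat_lit 1) (.p (nat_lit 23) (nat_lit 1) (.p (nat_lit 24) (nat_lit 2) (.n (nat_lit 28) (nat_lit 1) (.n (nat_lit 31) (nat_lit 3) (.p (nat_lit 32) (nat_lit 2) (.p (nat_lit 35) (nat_lit 1) (.p (nat_lit 36) (nat_lit 2) (.n (nat_lit 39) (nat_lit 1) (.p (nat_lit 45) (nat_lit 1) (.p (nat_lit 46) (nat_lit 1) (.p (nat_lit 48) (nat_lit 1) (.n (nat_lit 302) (nat_lit 2) (.n (nat_lit 304) (nat_lit 2) (.n (nat_lit 305) (nat_lit 1) (.n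 (nat_lit 309) (nat_lit 1) (.n (nat_lit 310) (nat_lit 1) (.p (nat_lit 311) (nat_lit 1) (.n (nat_lit 312) (nat_lit 3) (.n (nat_lit 315) (nat_lit 1) (.n (nat_lit 316) (nat_lit 3) (.p (nat_lit 318) (nat_lit 2) (.n (nat_lit 319) (nat_lit 2) (.p (nat_lit 322) (nat_lit 1) (.p (nat_lit 323) (nat_lit 2) (.p (nat_lit 324) (nat_lit 1) (.p (nat_lit 325) (nat_lit 1) (.p (nat_lit 326) (nat_lit 2) (.p (nat_lit 327) (nat_lit 2) (.p (nat_lit 329) (nat_lit 2) (.p (nat_lit 341) (nat_lit 1) (.p (nat_lit 342) (nat_lit 2) (.n (nat_lit 343) (nat_lit 1) (.n (nat_lit 345) (nat_lit 2) (.p (nat_lit 346) (nat_lit 1) .z)))))))))))))))))))))))))))))))))))))))))))))))))) .nil)))))))))))))))))))))))))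

noncomputable def dC2b_i36 : IL := (.e true (nat_lit 1) (nat_lit 49) (nat_lit 7) (nat_lit 7) (.e false (nat_lit 1) (nat_lit 50) (nat_lit 7) (nat_lit 7) (.e false (nat_lit 1) (nat_lit 51) (nat_lit 7) (nat_lit 7) (.e false (nat_lit 2) (nat_lit 52) (nat_lit 7) (nat_lit 7) (.e true (nat_lit 1) (nat_lit 53) (nat_lit 7) (nat_lit 7) (.e true (nat_lit 2) (nat_lit 54) (nat_lit 7) (nat_lit 7) (.e false (nat_lit 1) (nat_lit 55) (nat_lit 7) (nat_lit 7) (.e true (nat_lit 1) (nat_lit 59) (nat_lit 7) (nat_lit 7) (.e true (nat_lit 1) (nat_lit 106) (nat_lit 2) (nat_lit 12) (.e false (nat_lit 2) (nat_lit 109) (nat_lit 2) (nat_lit 12) (.e true (nat_lit 1) (nat_lit 110) (nat_lit 2) (nat_lit 12) (.e false (nat_lit 1) (nat_lit 112) (nat_lit 2) (nat_lit 12) (.e true (nat_lit 1) (nat_lit 114) (nat_lit 2) (nat_lit 12) (.e true (nat_lit 1) (nat_lit 116) (nat_lit 2) (nat_lit 12) (.e true (nat_lit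 2) (nat_lit 117) (nat_lit 2) (nat_lit 12) (.e false (nat_lit 2) (nat_lit 118) (nat_lit 2) (nat_lit 12) (.e true (nat_lit 2) (nat_lit 120) (nat_lit 2) (nat_lit 12) (.e false (nat_lit 2) (nat_lit 122) (nat_lit 2) (nat_lit 12) (.e false (nat_lit 2) (nat_lit 128) (nat_lit 2) (nat_lit 12) (.e true (nat_lit 1) (nat_lit 39) (nat_lit 11) (nat_lit 4) (.e true (nat_lit 1) (nat_lit 107) (nat_lit 2) (nat_lit 12) (.e true (nat_lit 1) (nat_lit 108) (nat_lit 2) (nat_lit 12) (.e false (nat_lit 2) (nat_lit 111) (nat_lit 2) (nat_lit 12) (.e false (nat_lit 1) (nat_lit 80) (nat_lit 4) (nat_lit 10) (.u (nat_lit 2) (.n (nat_lit 1) (nat_lit 1) (.n (nat_lit 2) (nat_lit 1) (.p (nat_lit 3) (nat_lit 1) (.p (nat_lit 6) (nat_lit 1) (.n (nat_lit 22) (nat_lit 1) (.n (nat_lit 23) (nat_lit 1) (.p (nat_lit 41) (nat_lit 1) (.p (nat_lit 42) (nat_lit 1) .z)))))))) .nil)))))))))))))))))))))))))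

noncomputable def dC2b_i37 : IL := (.e false (nat_lit 2) (nat_lit 249) (nat_lit 2) (nat_lit 16) (.e true (nat_lit 2) (nat_lit 250) (nat_lit 2) (nat_lit 16) (.e false (nat_lit 3) (nat_lit 251) (nat_lit 2) (nat_lit 16) (.e true (nat_lit 1) (nat_lit 252) (nat_lit 1) (nat_lit 17) (.e true (nat_lit 1) (nat_lit 253) (nat_lit 1) (nat_lit 17) (.e false (nat_lit 1) (nat_lit 254) (nat_lit 1) (nat_lit 17) (.e false (nat_lit 1) (nat_lit 255) (nat_lit 1) (nat_lit 17) (.e true (nat_lit 1) (nat_lit 257) (nat_lit 1) (nat_lit 17) (.e true (nat_lit 1) (nat_lit 258) (nat_lit 1) (nat_lit 17) (.e true (nat_lit 1) (nat_lit 265) (nat_lit 1) (nat_lit 17) (.e true (nat_lit 1) (nat_lit 269) (nat_lit 1) (nat_lit 17) (.e false (nat_lit 1) (nat_lit 272) (nat_lit 1) (nat_lit 17) (.e false (nat_lit 1) (nat_lit 273) (nat_lit 1) (nat_lit 17) (.e false (nat_lit 1) (nat_lit 274) (nat_lit 1) (nat_lit 17)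 (.e true (nat_lit 1) (nat_lit 275) (nat_lit 1) (nat_lit 17) (.e true (nat_lit 1) (nat_lit 277) (nat_lit 1) (nat_lit 17) (.e true (nat_lit 1) (nat_lit 65) (nat_lit 18) (nat_lit 5) (.e false (nat_lit 1) (nat_lit 137) (nat_lit 6) (nat_lit 12) (.e true (nat_lit 3) (nat_lit 205) (nat_lit 2) (nat_lit 16) (.e true (nat_lit 1) (nat_lit 209) (nat_lit 2) (nat_lit 16) (.e true (nat_lit 3) (nat_lit 211) (nat_lit 2) (nat_lit 16) (.e true (nat_lit 1) (nat_lit 231) (nat_lit 2) (nat_lit 16) (.e true (nat_lit 1) (nat_lit 232) (nat_lit 2) (nat_lit 16) (.e false (nat_lit 1) (nat_lit 234) (nat_lit 2) (nat_lit 16) (.u (nat_lit 2) (.n (nat_lit 0) (nat_lit 6) (.n (nat_lit 1) (nat_lit 7) (.p (nat_lit 2) (nat_lit 6) (.n (nat_lit 3) (nat_lit 2) (.p (nat_lit 4) (nat_lit 4) (.p (nat_lit 5) (nat_lit 2) (.n (nat_lit 6) (nat_lit 6) (.n (nat_lit 7) (nat_lit 5) (.n (nat_lit 8) (nat_lit 3) (.n (nat_lit 10)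 (nat_lit 2) (.n (nat_lit 12) (nat_lit 4) (.n (nat_lit 15) (nat_lit 1) (.n (nat_lit 16) (nat_lit 3) (.n (nat_lit 17) (nat_lit 8) (.n (nat_lit 18) (nat_lit 2) (.n (nat_lit 19) (nat_lit 6) (.p (nat_lit 20) (nat_lit 3) (.p (nat_lit 21) (nat_lit 4) (.n (nat_lit 22) (nat_lit 4) (.p (nat_lit 23) (nat_lit 1) (.n (nat_lit 24) (nat_lit 3) (.n (nat_lit 25) (nat_lit 2) (.p (nat_lit 26) (nat_lit 1) (.n (nat_lit 27) (nat_lit 4) (.p (nat_lit 28) (nat_lit 2) (.p (nat_lit 29) (nat_lit 5) (.n (nat_lit 31) (nat_lit 5) (.p (nat_lit 32) (nat_lit 3) (.p (nat_lit 33) (nat_lit 4) (.n (nat_lit 34) (nat_lit 3) (.p (nat_lit 35) (nat_lit 1) (.p (nat_lit 36) (nat_lit 2) (.n (nat_lit 37) (nat_lit 4) (.n (nat_lit 38) (nat_lit 4) (.n (nat_lit 39) (nat_lit 2) (.p (nat_lit 40) (nat_lit 1) (.p (nat_lit 44) (nat_lit 1) (.n (nat_lit 45) (nat_lit 2) (.p (nat_lit 46) (nat_lit 2) (.n (nat_lit 47) (nat_lit 5) (.n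 (nat_lit 48) (nat_lit 2) (.n (nat_lit 50) (nat_lit 1) (.n (nat_lit 55) (nat_lit 1) (.p (nat_lit 308) (nat_lit 1) (.p (nat_lit 312) (nat_lit 1) (.p (nat_lit 325) (nat_lit 1) (.n (nat_lit 343) (nat_lit 1) (.n (nat_lit 344) (nat_lit 1) (.n (nat_lit 348) (nat_lit 1) .z))))))))))))))))))))))))))))))))))))))))))))))))) .nil)))))))))))))))))))))))))

noncomputable def dC2b_i38 : IL := (.e false (nat_lit 2) (nat_lit 206) (nat_lit 2) (nat_lit 16) (.e false (nat_lit 2) (nat_lit 207) (nat_lit 2) (nat_lit 16) (.e true (nat_lit 1) (nat_lit 208) (nat_lit 2) (nat_lit 16) (.e true (nat_lit 2) (nat_lit 210) (nat_lit 2) (nat_lit 16) (.e false (nat_lit 3) (nat_lit 212) (nat_lit 2) (nat_lit 16) (.e true (nat_lit 2) (nat_lit 213) (nat_lit 2) (nat_lit 16) (.e true (nat_lit 1) (nat_lit 214) (nat_lit 2) (nat_lit 16) (.e true (nat_lit 2) (nat_lit 215) (nat_lit 2) (nat_lit 16) (.e true (nat_lit 1)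 (nat_lit 216) (nat_lit 2) (nat_lit 16) (.e false (nat_lit 3) (nat_lit 217) (nat_lit 2) (nat_lit 16) (.e false (nat_lit 1) (nat_lit 218) (nat_lit 2) (nat_lit 16) (.e false (nat_lit 1) (nat_lit 219) (nat_lit 2) (nat_lit 16) (.e true (nat_lit 2) (nat_lit 221) (nat_lit 2) (nat_lit 16) (.e false (nat_lit 1) (nat_lit 222) (nat_lit 2) (nat_lit 16) (.e true (nat_lit 2) (nat_lit 225) (nat_lit 2) (nat_lit 16) (.e true (nat_lit 1) (nat_lit 226) (nat_lit 2) (nat_lit 16) (.e true (nat_lit 3) (nat_lit 227) (nat_lit 2) (nat_lit 16) (.e true (nat_lit 3) (nat_lit 228) (nat_lit 2) (nat_lit 16) (.e false (nat_lit 3) (nat_lit 229) (nat_lit 2) (nat_lit 16) (.e true (nat_lit 1) (nat_lit 230) (nat_lit 2) (nat_lit 16) (.e false (nat_lit 1) (nat_lit 243) (nat_lit 2) (nat_lit 16) (.e true (nat_lit 1) (nat_lit 244) (nat_lit 2) (nat_lit 16) (.e false (nat_lit 3) (nat_lit 246) (nat_lit 2) (nat_lit 16)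 (.e false (nat_lit 3) (nat_lit 247) (nat_lit 2) (nat_lit 16) (.e false (nat_lit 2) (nat_lit 248) (nat_lit 2) (nat_lit 16) dC2b_i37)))))))))))))))))))))))))

noncomputable def dC2b_i39 : IL := (.e false (nat_lit 1) (nat_lit 55) (nat_lit 7) (nat_lit 7) (.e true (nat_lit 2) (nat_lit 57) (nat_lit 7) (nat_lit 7) (.e true (nat_lit 1) (nat_lit 59) (nat_lit 7) (nat_lit 7) (.e true (nat_lit 1) (nat_lit 106) (nat_lit 2) (nat_lit 12) (.e false (nat_lit 2) (nat_lit 107) (nat_lit 2) (nat_lit 12) (.e false (nat_lit 2) (nat_lit 108) (nat_lit 2) (nat_lit 12) (.e true (nat_lit 3) (nat_lit 110) (nat_lit 2) (nat_lit 12) (.e false (nat_lit 3) (nat_lit 113) (nat_lit 2) (nat_lit 12) (.e false (nat_lit 1) (nat_lit 114) (nat_lit 2) (nat_lit 12) (.e true (nat_lit 2) (nat_lit 115) (nat_lit 2) (nat_lit 12) (.e false (nat_lit 2) (nat_lit 116) (nat_lit 2) (nat_lit 12) (.e true (nat_lit 1) (nat_lit 117)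 (nat_lit 2) (nat_lit 12) (.e true (nat_lit 2) (nat_lit 118) (nat_lit 2) (nat_lit 12) (.e true (nat_lit 2) (nat_lit 119) (nat_lit 2) (nat_lit 12) (.e true (nat_lit 2) (nat_lit 120) (nat_lit 2) (nat_lit 12) (.e false (nat_lit 2) (nat_lit 122) (nat_lit 2) (nat_lit 12) (.e true (nat_lit 2) (nat_lit 123) (nat_lit 2) (nat_lit 12) (.e false (nat_lit 2) (nat_lit 126) (nat_lit 2) (nat_lit 12) (.e false (nat_lit 2) (nat_lit 127) (nat_lit 2) (nat_lit 12) (.e false (nat_lit 3) (nat_lit 130) (nat_lit 2) (nat_lit 12) (.e true (nat_lit 2) (nat_lit 131) (nat_lit 2) (nat_lit 12) (.e true (nat_lit 1) (nat_lit 39) (nat_lit 13) (nat_lit 4) (.e false (nat_lit 1) (nat_lit 111) (nat_lit 2) (nat_lit 12) (.e false (nat_lit 1) (nat_lit 82) (nat_lit 4) (nat_lit 10) (.u (nat_lit 2) (.n (nat_lit 1) (nat_lit 1) (.n (nat_lit 4) (nat_lit 1) (.n (nat_lit 14) (nat_lit 1) (.p (nat_lit 20) (nat_lit 1) (.p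 (nat_lit 23) (nat_lit 1) (.n (nat_lit 41) (nat_lit 1) (.p (nat_lit 146) (nat_lit 1) (.n (nat_lit 147) (nat_lit 1) (.p (nat_lit 157) (nat_lit 1) (.p (nat_lit 159) (nat_lit 1) (.p (nat_lit 160) (nat_lit 1) (.n (nat_lit 162) (nat_lit 1) (.n (nat_lit 166) (nat_lit 1) (.n (nat_lit 167) (nat_lit 1) (.p (nat_lit 171) (nat_lit 1) .z))))))))))))))) .nil)))))))))))))))))))))))))

noncomputable def dC2b_i40 : IL := (.e false (nat_lit 1) (nat_lit 115) (nat_lit 7) (nat_lit 11) (.e false (nat_lit 1) (nat_lit 214) (nat_lit 2) (nat_lit 16) (.e true (nat_lit 2) (nat_lit 205) (nat_lit 2) (nat_lit 16) (.e false (nat_lit 1) (nat_lit 206) (nat_lit 2) (nat_lit 16) (.e false (nat_lit 3) (nat_lit 207) (nat_lit 2) (nat_lit 16) (.e false (nat_lit 2) (nat_lit 208) (nat_lit 2) (nat_lit 16) (.e true (nat_lit 3) (nat_lit 209) (nat_lit 2) (nat_lit 16) (.e false (nat_lit 1) (nat_lit 211) (nat_lit 2) (nat_lit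 16) (.e true (nat_lit 3) (nat_lit 212) (nat_lit 2) (nat_lit 16) (.e true (nat_lit 3) (nat_lit 213) (nat_lit 2) (nat_lit 16) (.e false (nat_lit 1) (nat_lit 215) (nat_lit 2) (nat_lit 16) (.e true (nat_lit 1) (nat_lit 216) (nat_lit 2) (nat_lit 16) (.e true (nat_lit 3) (nat_lit 217) (nat_lit 2) (nat_lit 16) (.e false (nat_lit 2) (nat_lit 227) (nat_lit 2) (nat_lit 16) (.e true (nat_lit 1) (nat_lit 228) (nat_lit 2) (nat_lit 16) (.e true (nat_lit 1) (nat_lit 242) (nat_lit 2) (nat_lit 16) (.e true (nat_lit 3) (nat_lit 243) (nat_lit 2) (nat_lit 16) (.e false (nat_lit 3) (nat_lit 245) (nat_lit 2) (nat_lit 16) (.e true (nat_lit 3) (nat_lit 246) (nat_lit 2) (nat_lit 16) (.e true (nat_lit 3) (nat_lit 247) (nat_lit 2) (nat_lit 16) (.e false (nat_lit 3) (nat_lit 248) (nat_lit 2) (nat_lit 16) (.e true (nat_lit 1) (nat_lit 249) (nat_lit 2) (nat_lit 16) (.e false (nat_lit 1) (nat_lit 250)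 (nat_lit 2) (nat_lit 16) (.e true (nat_lit 3) (nat_lit 251) (nat_lit 2) (nat_lit 16) (.u (nat_lit 2) (.p (nat_lit 0) (nat_lit 2) (.p (nat_lit 1) (nat_lit 1) (.n (nat_lit 2) (nat_lit 4) (.n (nat_lit 3) (nat_lit 1) (.p (nat_lit 4) (nat_lit 5) (.n (nat_lit 5) (nat_lit 1) (.p (nat_lit 6) (nat_lit 1) (.p (nat_lit 7) (nat_lit 4) (.p (nat_lit 8) (nat_lit 2) (.p (nat_lit 9) (nat_lit 2) (.p (nat_lit 10) (nat_lit 1) (.p (nat_lit 11) (nat_lit 1) (.p (nat_lit 12) (nat_lit 2) (.p (nat_lit 14) (nat_lit 3) (.n (nat_lit 15) (nat_lit 1) (.n (nat_lit 17) (nat_lit 3) (.p (nat_lit 18) (nat_lit 5) (.n (nat_lit 20) (nat_lit 1) (.p (nat_lit 24) (nat_lit 1) (.p (nat_lit 25) (nat_lit 2) (.p (nat_lit 26) (nat_lit 2) (.n (nat_lit 27) (nat_lit 3) (.n (nat_lit 28) (nat_lit 1) (.n (nat_lit 29) (nat_lit 4) (.p (nat_lit 31) (nat_lit 6) (.p (nat_lit 32) (nat_lit 1) (.p (nat_lit 33) (nat_lit 1) (.p (nat_lit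 34) (nat_lit 2) (.p (nat_lit 35) (nat_lit 1) (.n (nat_lit 36) (nat_lit 4) (.p (nat_lit 37) (nat_lit 2) (.n (nat_lit 38) (nat_lit 1) (.n (nat_lit 39) (nat_lit 2) (.n (nat_lit 42) (nat_lit 1) (.p (nat_lit 45) (nat_lit 2) (.n (nat_lit 46) (nat_lit 2) (.p (nat_lit 48) (nat_lit 1) (.p (nat_lit 55) (nat_lit 1) .z)))))))))))))))))))))))))))))))))))))) .nil)))))))))))))))))))))))))

noncomputable def dC2b_i41 : IL := (.e false (nat_lit 3) (nat_lit 123) (nat_lit 2) (nat_lit 12) (.e true (nat_lit 2) (nat_lit 128) (nat_lit 2) (nat_lit 12) (.e true (nat_lit 3) (nat_lit 145) (nat_lit 1) (nat_lit 13) (.e false (nat_lit 1) (nat_lit 73) (nat_lit 6) (nat_lit 8) (.e true (nat_lit 3) (nat_lit 138) (nat_lit 1) (nat_lit 13) (.e false (nat_lit 2) (nat_lit 146) (nat_lit 1) (nat_lit 13) (.e true (nat_lit 3) (nat_lit 154) (nat_lit 1) (nat_lit 13) (.e false (nat_lit 1) (nat_lit 61) (nat_lit 6) (nat_lit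 8) (.e true (nat_lit 1) (nat_lit 63) (nat_lit 6) (nat_lit 8) (.e true (nat_lit 1) (nat_lit 72) (nat_lit 6) (nat_lit 8) (.e true (nat_lit 3) (nat_lit 107) (nat_lit 2) (nat_lit 12) (.e true (nat_lit 3) (nat_lit 108) (nat_lit 2) (nat_lit 12) (.e true (nat_lit 3) (nat_lit 119) (nat_lit 2) (nat_lit 12) (.e false (nat_lit 3) (nat_lit 126) (nat_lit 2) (nat_lit 12) (.e false (nat_lit 3) (nat_lit 127) (nat_lit 2) (nat_lit 12) (.e false (nat_lit 1) (nat_lit 24) (nat_lit 18) (nat_lit 1) (.e true (nat_lit 1) (nat_lit 25) (nat_lit 18) (nat_lit 1) (.e false (nat_lit 1) (nat_lit 27) (nat_lit 18) (nat_lit 1) (.e false (nat_lit 1) (nat_lit 144) (nat_lit 1) (nat_lit 13) (.e false (nat_lit 1) (nat_lit 132) (nat_lit 1) (nat_lit 13) (.e true (nat_lit 1) (nat_lit 152) (nat_lit 1) (nat_lit 13) (.e true (nat_lit 1) (nat_lit 153) (nat_lit 1) (nat_lit 13) (.e false (nat_lit 1) (nat_lit 155) (nat_lit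 1) (nat_lit 13) (.e false (nat_lit 1) (nat_lit 157) (nat_lit 1) (nat_lit 13) (.u (nat_lit 2) (.n (nat_lit 0) (nat_lit 1) (.p (nat_lit 1) (nat_lit 1) (.n (nat_lit 2) (nat_lit 1) (.p (nat_lit 3) (nat_lit 1) (.n (nat_lit 5) (nat_lit 1) (.p (nat_lit 6) (nat_lit 1) (.p (nat_lit 9) (nat_lit 1) (.n (nat_lit 10) (nat_lit 1) (.n (nat_lit 14) (nat_lit 1) (.n (nat_lit 15) (nat_lit 1) (.n (nat_lit 16) (nat_lit 2) (.p (nat_lit 20) (nat_lit 2) (.p (nat_lit 21) (nat_lit 1) (.p (nat_lit 22) (nat_lit 1) (.p (nat_lit 23) (nat_lit 2) (.p (nat_lit 24) (nat_lit 1) (.p (nat_lit 25) (nat_lit 1) (.p (nat_lit 26) (nat_lit 2) (.n (nat_lit 28) (nat_lit 1) (.n (nat_lit 30) (nat_lit 1) (.n (nat_lit 37) (nat_lit 1) (.n (nat_lit 40) (nat_lit 1) (.n (nat_lit 41) (nat_lit 2) (.n (nat_lit 42) (nat_lit 2) (.p (nat_lit 43) (nat_lit 1) (.n (nat_lit 46) (nat_lit 1) (.n (nat_lit 154) (nat_lit 1) (.p (nat_lit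 185) (nat_lit 1) .z)))))))))))))))))))))))))))) .nil)))))))))))))))))))))))))

noncomputable def dC2b_i42 : IL := (.s false (nat_lit 1) (nat_lit 62) (nat_lit 2) (nat_lit 2) (nat_lit 1) true (nat_lit 12) true (nat_lit 17) false (nat_lit 5) true (nat_lit 16) true (nat_lit 16) (.e false (nat_lit 1) (nat_lit 134) (nat_lit 6) (nat_lit 12) (.e false (nat_lit 1) (nat_lit 254) (nat_lit 1) (nat_lit 17) (.e false (nat_lit 3) (nat_lit 205) (nat_lit 2) (nat_lit 16) (.e true (nat_lit 2) (nat_lit 206) (nat_lit 2) (nat_lit 16) (.e false (nat_lit 2) (nat_lit 207) (nat_lit 2) (nat_lit 16) (.e false (nat_lit 1) (nat_lit 208) (nat_lit 2) (nat_lit 16) (.e true (nat_lit 1) (nat_lit 210) (nat_lit 2) (nat_lit 16) (.e false (nat_lit 3) (nat_lit 211) (nat_lit 2) (nat_lit 16) (.e false (nat_lit 3) (nat_lit 213) (nat_lit 2) (nat_lit 16) (.e false (nat_lit 1) (nat_lit 214) (nat_lit 2) (nat_lit 16)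 (.e true (nat_lit 3) (nat_lit 215) (nat_lit 2) (nat_lit 16) (.e true (nat_lit 1) (nat_lit 216) (nat_lit 2) (nat_lit 16) (.e false (nat_lit 1) (nat_lit 219) (nat_lit 2) (nat_lit 16) (.e true (nat_lit 1) (nat_lit 220) (nat_lit 2) (nat_lit 16) (.e true (nat_lit 3) (nat_lit 225) (nat_lit 2) (nat_lit 16) (.e false (nat_lit 1) (nat_lit 227) (nat_lit 2) (nat_lit 16) (.e false (nat_lit 2) (nat_lit 231) (nat_lit 2) (nat_lit 16) (.e true (nat_lit 1) (nat_lit 233) (nat_lit 2) (nat_lit 16) (.e true (nat_lit 1) (nat_lit 242) (nat_lit 2) (nat_lit 16) (.e true (nat_lit 3) (nat_lit 245) (nat_lit 2) (nat_lit 16) (.e false (nat_lit 2) (nat_lit 248) (nat_lit 2) (nat_lit 16) (.e false (nat_lit 1) (nat_lit 251) (nat_lit 2) (nat_lit 16) (.e true (nat_lit 1) (nat_lit 218) (nat_lit 2) (nat_lit 16) (.u (nat_lit 2) (.p (nat_lit 0) (nat_lit 2) (.p (nat_lit 3) (nat_lit 2) (.n (nat_lit 5) (nat_lit 1)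 (.p (nat_lit 6) (nat_lit 2) (.n (nat_lit 7) (nat_lit 3) (.n (nat_lit 8) (nat_lit 4) (.p (nat_lit 9) (nat_lit 3) (.n (nat_lit 11) (nat_lit 2) (.p (nat_lit 12) (nat_lit 1) (.n (nat_lit 15) (nat_lit 1) (.p (nat_lit 16) (nat_lit 2) (.p (nat_lit 17) (nat_lit 2) (.n (nat_lit 19) (nat_lit 2) (.p (nat_lit 20) (nat_lit 2) (.n (nat_lit 21) (nat_lit 3) (.p (nat_lit 22) (nat_lit 3) (.n (nat_lit 24) (nat_lit 2) (.n (nat_lit 25) (nat_lit 1) (.n (nat_lit 28) (nat_lit 1) (.n (nat_lit 29) (nat_lit 1) (.p (nat_lit 32) (nat_lit 1) (.n (nat_lit 33) (nat_lit 1) (.n (nat_lit 34) (nat_lit 2) (.n (nat_lit 35) (nat_lit 1) (.n (nat_lit 37) (nat_lit 3) (.p (nat_lit 38) (nat_lit 1) (.n (nat_lit 42) (nat_lit 1) (.n (nat_lit 45) (nat_lit 2) (.n (nat_lit 46) (nat_lit 2) (.n (nat_lit 47) (nat_lit 1) (.p (nat_lit 50) (nat_lit 1) .z))))))))))))))))))))))))))))))) .nil)))))))))))))))))))))))))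

noncomputable def dC2b_i43 : IL := (.e false (nat_lit 2) (nat_lit 205) (nat_lit 2) (nat_lit 16) (.e true (nat_lit 3) (nat_lit 206) (nat_lit 2) (nat_lit 16) (.e true (nat_lit 3) (nat_lit 207) (nat_lit 2) (nat_lit 16) (.e true (nat_lit 1) (nat_lit 208) (nat_lit 2) (nat_lit 16) (.e false (nat_lit 2) (nat_lit 209) (nat_lit 2) (nat_lit 16) (.e true (nat_lit 1) (nat_lit 210) (nat_lit 2) (nat_lit 16) (.e false (nat_lit 2) (nat_lit 211) (nat_lit 2) (nat_lit 16) (.e true (nat_lit 2) (nat_lit 212) (nat_lit 2) (nat_lit 16) (.e true (nat_lit 1) (nat_lit 213) (nat_lit 2) (nat_lit 16) (.e false (nat_lit 3) (nat_lit 214) (nat_lit 2) (nat_lit 16) (.e true (nat_lit 2) (nat_lit 215) (nat_lit 2) (nat_lit 16) (.e true (nat_lit 2) (nat_lit 216) (nat_lit 2) (nat_lit 16) (.e false (nat_lit 2) (nat_lit 218) (nat_lit 2) (nat_lit 16) (.e false (nat_lit 1) (nat_lit 219) (nat_lit 2) (nat_lit 16) (.e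 true (nat_lit 3) (nat_lit 221) (nat_lit 2) (nat_lit 16) (.e false (nat_lit 2) (nat_lit 222) (nat_lit 2) (nat_lit 16) (.e true (nat_lit 1) (nat_lit 225) (nat_lit 2) (nat_lit 16) (.e true (nat_lit 2) (nat_lit 226) (nat_lit 2) (nat_lit 16) (.e false (nat_lit 1) (nat_lit 227) (nat_lit 2) (nat_lit 16) (.e true (nat_lit 3) (nat_lit 229) (nat_lit 2) (nat_lit 16) (.e true (nat_lit 3) (nat_lit 230) (nat_lit 2) (nat_lit 16) (.e false (nat_lit 1) (nat_lit 234) (nat_lit 2) (nat_lit 16) (.e true (nat_lit 1) (nat_lit 244) (nat_lit 2) (nat_lit 16) (.e true (nat_lit 1) (nat_lit 250) (nat_lit 2) (nat_lit 16) (.u (nat_lit 2) (.n (nat_lit 0) (nat_lit 1) (.p (nat_lit 1) (nat_lit 6) (.n (nat_lit 2) (nat_lit 6) (.p (nat_lit 3) (nat_lit 1) (.n (nat_lit 4) (nat_lit 2) (.p (nat_lit 6) (nat_lit 1) (.n (nat_lit 7) (nat_lit 5) (.p (nat_lit 8) (nat_lit 4) (.p (nat_lit 9) (nat_lit 2) (.p (nat_lit 10)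 (nat_lit 3) (.p (nat_lit 12) (nat_lit 2) (.p (nat_lit 15) (nat_lit 2) (.n (nat_lit 16) (nat_lit 1) (.p (nat_lit 17) (nat_lit 3) (.n (nat_lit 18) (nat_lit 1) (.n (nat_lit 19) (nat_lit 2) (.n (nat_lit 20) (nat_lit 1) (.p (nat_lit 21) (nat_lit 1) (.n (nat_lit 22) (nat_lit 1) (.p (nat_lit 25) (nat_lit 3) (.n (nat_lit 26) (nat_lit 2) (.p (nat_lit 27) (nat_lit 1) (.n (nat_lit 28) (nat_lit 4) (.p (nat_lit 31) (nat_lit 3) (.p (nat_lit 32) (nat_lit 3) (.n (nat_lit 34) (nat_lit 2) (.p (nat_lit 36) (nat_lit 4) (.p (nat_lit 37) (nat_lit 3) (.n (nat_lit 39) (nat_lit 4) (.p (nat_lit 40) (nat_lit 1) (.n (nat_lit 42) (nat_lit 1) (.p (nat_lit 44) (nat_lit 1) (.n (nat_lit 45) (nat_lit 1) (.n (nat_lit 46) (nat_lit 2) (.p (nat_lit 47) (nat_lit 1) (.p (nat_lit 48) (nat_lit 1) .z)))))))))))))))))))))))))))))))))))) .nil)))))))))))))))))))))))))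

noncomputable def dC2b_i44 : IL := (.e true (nat_lit 1) (nat_lit 50) (nat_lit 7) (nat_lit 7) (.e true (nat_lit 3) (nat_lit 51) (nat_lit 7) (nat_lit 7) (.e true (nat_lit 1) (nat_lit 25) (nat_lit 19) (nat_lit 1) (.e false (nat_lit 3) (nat_lit 138) (nat_lit 1) (nat_lit 13) (.e true (nat_lit 3) (nat_lit 140) (nat_lit 1) (nat_lit 13) (.e true (nat_lit 3) (nat_lit 113) (nat_lit 2) (nat_lit 12) (.e false (nat_lit 3) (nat_lit 115) (nat_lit 2) (nat_lit 12) (.e true (nat_lit 3) (nat_lit 118) (nat_lit 2) (nat_lit 12) (.e true (nat_lit 1) (nat_lit 52) (nat_lit 7) (nat_lit 7) (.e false (nat_lit 1) (nat_lit 55) (nat_lit 7) (nat_lit 7) (.e true (nat_lit 2) (nat_lit 22) (nat_lit 20) (nat_lit 0) (.e true (nat_lit 1) (nat_lit 49) (nat_lit 7) (nat_lit 7) (.e true (nat_lit 1) (nat_lit 120) (nat_lit 2) (nat_lit 12) (.e true (nat_lit 1) (nat_lit 128) (nat_lit 2) (nat_lit 12) (.e true (nat_lit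 3) (nat_lit 133) (nat_lit 1) (nat_lit 13) (.e false (nat_lit 1) (nat_lit 121) (nat_lit 2) (nat_lit 12) (.e true (nat_lit 3) (nat_lit 124) (nat_lit 2) (nat_lit 12) (.e false (nat_lit 3) (nat_lit 67) (nat_lit 6) (nat_lit 8) (.e false (nat_lit 1) (nat_lit 60) (nat_lit 6) (nat_lit 8) (.e true (nat_lit 2) (nat_lit 45) (nat_lit 8) (nat_lit 6) (.e true (nat_lit 2) (nat_lit 24) (nat_lit 18) (nat_lit 1) (.e false (nat_lit 1) (nat_lit 47) (nat_lit 8) (nat_lit 6) (.e true (nat_lit 1) (nat_lit 21) (nat_lit 20) (nat_lit 0) (.u (nat_lit 2) (.p (nat_lit 0) (nat_lit 1) (.p (nat_lit 5) (nat_lit 1) (.n (nat_lit 6) (nat_lit 2) (.p (nat_lit 8) (nat_lit 2) (.n (nat_lit 9) (nat_lit 1) (.p (nat_lit 10) (nat_lit 2) (.p (nat_lit 11) (nat_lit 1) (.n (nat_lit 22) (nat_lit 1) (.n (nat_lit 23) (nat_lit 1) (.n (nat_lit 26) (nat_lit 1) (.n (nat_lit 27) (nat_lit 1) (.p (nat_lit 37) (nat_lit 2) (.n (nat_lit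 40) (nat_lit 1) (.p (nat_lit 41) (nat_lit 1) (.p (nat_lit 42) (nat_lit 1) (.p (nat_lit 45) (nat_lit 1) (.n (nat_lit 51) (nat_lit 1) (.n (nat_lit 52) (nat_lit 1) (.p (nat_lit 53) (nat_lit 1) (.n (nat_lit 55) (nat_lit 1) (.n (nat_lit 88) (nat_lit 1) (.p (nat_lit 105) (nat_lit 1) (.n (nat_lit 112) (nat_lit 1) (.p (nat_lit 113) (nat_lit 1) (.n (nat_lit 120) (nat_lit 1) (.n (nat_lit 121) (nat_lit 1) (.n (nat_lit 122) (nat_lit 2) (.n (nat_lit 142) (nat_lit 1) (.n (nat_lit 146) (nat_lit 11) (.p (nat_lit 147) (nat_lit 6) (.p (nat_lit 148) (nat_lit 1) (.p (nat_lit 149) (nat_lit 8) (.p (nat_lit 150) (nat_lit 5) (.n (nat_lit 151) (nat_lit 1) (.n (nat_lit 152) (nat_lit 2) (.p (nat_lit 153) (nat_lit 2) (.p (nat_lit 154) (nat_lit 1) (.n (nat_lit 155) (nat_lit 4) (.n (nat_lit 156) (nat_lit 3) (.n (nat_lit 157) (nat_lit 4) (.p (nat_lit 158) (nat_lit 7) (.n (nat_lit 159) (nat_lit 5) (.p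 (nat_lit 160) (nat_lit 2) (.p (nat_lit 162) (nat_lit 6) (.p (nat_lit 163) (nat_lit 6) (.p (nat_lit 165) (nat_lit 2) (.n (nat_lit 166) (nat_lit 4) (.n (nat_lit 167) (nat_lit 1) (.p (nat_lit 168) (nat_lit 3) (.p (nat_lit 170) (nat_lit 2) (.n (nat_lit 171) (nat_lit 3) (.p (nat_lit 172) (nat_lit 1) (.n (nat_lit 173) (nat_lit 1) (.p (nat_lit 174) (nat_lit 2) (.p (nat_lit 175) (nat_lit 3) (.n (nat_lit 177) (nat_lit 1) (.n (nat_lit 178) (nat_lit 3) (.p (nat_lit 181) (nat_lit 1) (.n (nat_lit 182) (nat_lit 1) (.p (nat_lit 184) (nat_lit 4) .z)))))))))))))))))))))))))))))))))))))))))))))))))))))))))))) (.u (nat_lit 2) (.n (nat_lit 185) (nat_lit 2) (.n (nat_lit 186) (nat_lit 2) (.n (nat_lit 187) (nat_lit 1) (.p (nat_lit 193) (nat_lit 1) (.p (nat_lit 194) (nat_lit 4) (.n (nat_lit 196) (nat_lit 2) (.n (nat_lit 197) (nat_lit 2) .z))))))) .nil)))))))))))))))))))))))))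

noncomputable def dC2b_i45 : IL := (.e false (nat_lit 3) (nat_lit 63) (nat_lit 6) (nat_lit 8) (.e false (nat_lit 3) (nat_lit 72) (nat_lit 6) (nat_lit 8) (.e true (nat_lit 2) (nat_lit 134) (nat_lit 1) (nat_lit 13) (.e false (nat_lit 2) (nat_lit 154) (nat_lit 1) (nat_lit 13) (.e false (nat_lit 3) (nat_lit 135) (nat_lit 1) (nat_lit 13) (.e false (nat_lit 3) (nat_lit 144) (nat_lit 1) (nat_lit 13) (.e true (nat_lit 3) (nat_lit 155) (nat_lit 1) (nat_lit 13) (.e true (nat_lit 3) (nat_lit 132) (nat_lit 1) (nat_lit 13) (.e true (nat_lit 1) (nat_lit 136) (nat_lit 1) (nat_lit 13) (.e false (nat_lit 1) (nat_lit 153) (nat_lit 1) (nat_lit 13) (.e false (nat_lit 2) (nat_lit 25) (nat_lit 18) (nat_lit 1) (.e true (nat_lit 2) (nat_lit 27) (nat_lit 18) (nat_lit 1) (.e true (nat_lit 1) (nat_lit 131) (nat_lit 2) (nat_lit 12) (.e false (nat_lit 1) (nat_lit 107) (nat_lit 2) (nat_lit 12) (.e true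 (nat_lit 3) (nat_lit 108) (nat_lit 2) (nat_lit 12) (.e true (nat_lit 2) (nat_lit 122) (nat_lit 2) (nat_lit 12) (.e false (nat_lit 1) (nat_lit 109) (nat_lit 2) (nat_lit 12) (.e true (nat_lit 1) (nat_lit 110) (nat_lit 2) (nat_lit 12) (.e true (nat_lit 3) (nat_lit 112) (nat_lit 2) (nat_lit 12) (.e false (nat_lit 3) (nat_lit 114) (nat_lit 2) (nat_lit 12) (.e false (nat_lit 3) (nat_lit 116) (nat_lit 2) (nat_lit 12) (.e false (nat_lit 3) (nat_lit 126) (nat_lit 2) (nat_lit 12) (.e false (nat_lit 3) (nat_lit 106) (nat_lit 2) (nat_lit 12) (.e false (nat_lit 2) (nat_lit 117) (nat_lit 2) (nat_lit 12) (.e false (nat_lit 2) (nat_lit 129) (nat_lit 2) (nat_lit 12) dC2b_i44)))))))))))))))))))))))))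

noncomputable def dC2b_i46 : IL := (.s false (nat_lit 3) (nat_lit 18) (nat_lit 2) (nat_lit 3) (nat_lit 1) true (nat_lit 8) true (nat_lit 13) true (nat_lit 1) true (nat_lit 12) true (nat_lit 11) (.s true (nat_lit 1) (nat_lit 20) (nat_lit 0) (nat_lit 1) (nat_lit 4) true (nat_lit 6) true (nat_lit 10) true (nat_lit 0) true (nat_lit 14) true (nat_lit 13) (.s false (nat_lit 1) (nat_lit 20) (nat_lit 3) (nat_lit 1) (nat_lit 1) true (nat_lit 6) true (nat_lit 13) true (nat_lit 0) true (nat_lit 11) true (nat_lit 13) (.s false (nat_lit 1) (nat_lit 29) (nat_lit 1) (nat_lit 2) (nat_lit 2) true (nat_lit 8) true (nat_lit 12) false (nat_lit 1) true (nat_lit 13) true (nat_lit 12) (.s true (nat_lit 1) (nat_lit 26) (nat_lit 2) (nat_lit 1) (nat_lit 2) true (nat_lit 7) true (nat_lit 12) false (nat_lit 1) true (nat_lit 12) true (nat_lit 13) (.s false (nat_lit 2) (nat_lit 28) (nat_lit 2) (nat_lit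 1) (nat_lit 2) true (nat_lit 7) true (nat_lit 12) false (nat_lit 1) true (nat_lit 12) true (nat_lit 13) (.s false (nat_lit 1) (nat_lit 29) (nat_lit 2) (nat_lit 1) (nat_lit 2) true (nat_lit 7) true (nat_lit 12) false (nat_lit 1) true (nat_lit 12) true (nat_lit 13) (.s false (nat_lit 2) (nat_lit 30) (nat_lit 0) (nat_lit 2) (nat_lit 2) true (nat_lit 9) true (nat_lit 12) false (nat_lit 2) true (nat_lit 14) true (nat_lit 12) (.s true (nat_lit 2) (nat_lit 32) (nat_lit 2) (nat_lit 0) (nat_lit 2) true (nat_lit 7) true (nat_lit 12) false (nat_lit 2) true (nat_lit 12) true (nat_lit 14) (.s false (nat_lit 1) (nat_lit 35) (nat_lit 1) (nat_lit 1) (nat_lit 2) true (nat_lit 8) true (nat_lit 12) false (nat_lit 3) true (nat_lit 13) true (nat_lit 13) (.s true (nat_lit 1) (nat_lit 37) (nat_lit 1) (nat_lit 1) (nat_lit 2) true (nat_lit 8) true (nat_lit 12) false (nat_lit 3) true (nat_lit 13)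 true (nat_lit 13) (.s true (nat_lit 1) (nat_lit 38) (nat_lit 1) (nat_lit 1) (nat_lit 2) true (nat_lit 8) true (nat_lit 12) false (nat_lit 3) true (nat_lit 13) true (nat_lit 13) (.s true (nat_lit 1) (nat_lit 33) (nat_lit 1) (nat_lit 2) (nat_lit 1) true (nat_lit 10) true (nat_lit 13) false (nat_lit 3) true (nat_lit 13) true (nat_lit 12) (.s false (nat_lit 1) (nat_lit 34) (nat_lit 1) (nat_lit 2) (nat_lit 1) true (nat_lit 10) true (nat_lit 13) false (nat_lit 3) true (nat_lit 13) true (nat_lit 12) (.s true (nat_lit 3) (nat_lit 35) (nat_lit 1) (nat_lit 2) (nat_lit 1) true (nat_lit 10) true (nat_lit 13) false (nat_lit 3) true (nat_lit 13) true (nat_lit 12) (.s true (nat_lit 1) (nat_lit 38) (nat_lit 1) (nat_lit 2) (nat_lit 1) true (nat_lit 10) true (nat_lit 13) false (nat_lit 3) true (nat_lit 13) true (nat_lit 12) (.s true (nat_lit 2) (nat_lit 33) (nat_lit 2) (nat_lit 1) (nat_lit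 1) true (nat_lit 8) true (nat_lit 13) false (nat_lit 3) true (nat_lit 12) true (nat_lit 13) (.s false (nat_lit 3) (nat_lit 35) (nat_lit 2) (nat_lit 1) (nat_lit 1) true (nat_lit 8) true (nat_lit 13) false (nat_lit 3) true (nat_lit 12) true (nat_lit 13) (.s true (nat_lit 3) (nat_lit 37) (nat_lit 2) (nat_lit 1) (nat_lit 1) true (nat_lit 8) true (nat_lit 13) false (nat_lit 3) true (nat_lit 12) true (nat_lit 13) (.s true (nat_lit 2) (nat_lit 38) (nat_lit 2) (nat_lit 1) (nat_lit 1) true (nat_lit 8) true (nat_lit 13) false (nat_lit 3) true (nat_lit 12) true (nat_lit 13) (.s true (nat_lit 2) (nat_lit 41) (nat_lit 1) (nat_lit 0) (nat_lit 2) true (nat_lit 8) true (nat_lit 12) false (nat_lit 4) true (nat_lit 13) true (nat_lit 14) (.s false (nat_lit 1) (nat_lit 40) (nat_lit 1) (nat_lit 2) (nat_lit 0) true (nat_lit 11) true (nat_lit 14) false (nat_lit 4) true (nat_lit 13) true (nat_lit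 12) (.s false (nat_lit 1) (nat_lit 40) (nat_lit 2) (nat_lit 0) (nat_lit 1) true (nat_lit 8) true (nat_lit 13) false (nat_lit 4) true (nat_lit 12) true (nat_lit 14) (.s false (nat_lit 1) (nat_lit 44) (nat_lit 1) (nat_lit 1) (nat_lit 1) true (nat_lit 10) true (nat_lit 13) false (nat_lit 5) true (nat_lit 13) true (nat_lit 13) (.s false (nat_lit 2) (nat_lit 45) (nat_lit 1) (nat_lit 1) (nat_lit 0) true (nat_lit 11) true (nat_lit 14) false (nat_lit 6) true (nat_lit 13) true (nat_lit 13) dC2b_i45)))))))))))))))))))))))))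

noncomputable def dC2b_i47 : IL := (.s false (nat_lit 1) (nat_lit 10) (nat_lit 2) (nat_lit 7) (nat_lit 0) true (nat_lit 9) true (nat_lit 14) true (nat_lit 5) true (nat_lit 12) true (nat_lit 7) (.s true (nat_lit 2) (nat_lit 10) (nat_lit 5) (nat_lit 2) (nat_lit 2) true (nat_lit 2) true (nat_lit 12) true (nat_lit 5) true (nat_lit 9) true (nat_lit 12) (.s true (nat_lit 1) (nat_lit 10) (nat_lit 7) (nat_lit 0) (nat_lit 2) true (nat_lit 0) true (nat_lit 12) true (nat_lit 5) true (nat_lit 7) true (nat_lit 14) (.s true (nat_lit 1) (nat_lit 12) (nat_lit 1) (nat_lit 2) (nat_lit 6) true (nat_lit 3) true (nat_lit 8) true (nat_lit 4) true (nat_lit 13) true (nat_lit 12) (.s false (nat_lit 2) (nat_lit 11) (nat_lit 1) (nat_lit 6) (nat_lit 2) true (nat_lit 8) true (nat_lit 12) true (nat_lit 4) true (nat_lit 13) true (nat_lit 8) (.s true (nat_lit 1) (nat_lit 12) (nat_lit 1) (nat_lit 6) (nat_lit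 2) true (nat_lit 8) true (nat_lit 12) true (nat_lit 4) true (nat_lit 13) true (nat_lit 8) (.s false (nat_lit 3) (nat_lit 13) (nat_lit 1) (nat_lit 7) (nat_lit 1) true (nat_lit 10) true (nat_lit 13) true (nat_lit 4) true (nat_lit 13) true (nat_lit 7) (.s true (nat_lit 2) (nat_lit 13) (nat_lit 2) (nat_lit 1) (nat_lit 6) true (nat_lit 1) true (nat_lit 8) true (nat_lit 4) true (nat_lit 12) true (nat_lit 13) (.s false (nat_lit 2) (nat_lit 13) (nat_lit 2) (nat_lit 2) (nat_lit 4) true (nat_lit 3) true (nat_lit 10) true (nat_lit 4) true (nat_lit 12) true (nat_lit 12) (.s false (nat_lit 1) (nat_lit 11) (nat_lit 2) (nat_lit 4) (nat_lit 2) true (nat_lit 7) true (nat_lit 12) true (nat_lit 4) true (nat_lit 12) true (nat_lit 10) (.s false (nat_lit 3) (nat_lit 11) (nat_lit 2) (nat_lit 6) (nat_lit 1) true (nat_lit 8) true (nat_lit 13) true (nat_lit 4) true (nat_lit 12) true (nat_lit 8) (.s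 true (nat_lit 1) (nat_lit 12) (nat_lit 2) (nat_lit 6) (nat_lit 1) true (nat_lit 8) true (nat_lit 13) true (nat_lit 4) true (nat_lit 12) true (nat_lit 8) (.s true (nat_lit 1) (nat_lit 11) (nat_lit 4) (nat_lit 2) (nat_lit 2) true (nat_lit 3) true (nat_lit 12) true (nat_lit 4) true (nat_lit 10) true (nat_lit 12) (.s true (nat_lit 3) (nat_lit 13) (nat_lit 4) (nat_lit 2) (nat_lit 2) true (nat_lit 3) true (nat_lit 12) true (nat_lit 4) true (nat_lit 10) true (nat_lit 12) (.s false (nat_lit 3) (nat_lit 11) (nat_lit 6) (nat_lit 2) (nat_lit 1) true (nat_lit 3) true (nat_lit 13) true (nat_lit 4) true (nat_lit 8) true (nat_lit 12) (.s true (nat_lit 1) (nat_lit 12) (nat_lit 6) (nat_lit 2) (nat_lit 1) true (nat_lit 3) true (nat_lit 13) true (nat_lit 4) true (nat_lit 8) true (nat_lit 12) (.s true (nat_lit 1) (nat_lit 14) (nat_lit 1) (nat_lit 5) (nat_lit 2) true (nat_lit 8) true (nat_lit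 12) true (nat_lit 3) true (nat_lit 13) true (nat_lit 9) (.s true (nat_lit 2) (nat_lit 15) (nat_lit 1) (nat_lit 5) (nat_lit 2) true (nat_lit 8) true (nat_lit 12) true (nat_lit 3) true (nat_lit 13) true (nat_lit 9) (.s true (nat_lit 1) (nat_lit 14) (nat_lit 2) (nat_lit 1) (nat_lit 5) true (nat_lit 2) true (nat_lit 9) true (nat_lit 3) true (nat_lit 12) true (nat_lit 13) (.s true (nat_lit 2) (nat_lit 15) (nat_lit 2) (nat_lit 1) (nat_lit 5) true (nat_lit 2) true (nat_lit 9) true (nat_lit 3) true (nat_lit 12) true (nat_lit 13) (.s false (nat_lit 3) (nat_lit 15) (nat_lit 2) (nat_lit 3) (nat_lit 2) true (nat_lit 7) true (nat_lit 12) true (nat_lit 3) true (nat_lit 12) true (nat_lit 11) (.s false (nat_lit 2) (nat_lit 14) (nat_lit 3) (nat_lit 2) (nat_lit 2) true (nat_lit 4) true (nat_lit 12) true (nat_lit 3) true (nat_lit 11) true (nat_lit 12) (.s true (nat_lit 1) (nat_lit 16) (nat_lit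 2) (nat_lit 4) (nat_lit 1) true (nat_lit 8) true (nat_lit 13) true (nat_lit 2) true (nat_lit 12) true (nat_lit 10) (.s true (nat_lit 2) (nat_lit 18) (nat_lit 1) (nat_lit 2) (nat_lit 3) true (nat_lit 6) true (nat_lit 11) true (nat_lit 1) true (nat_lit 13) true (nat_lit 12) (.s false (nat_lit 2) (nat_lit 18) (nat_lit 1) (nat_lit 3) (nat_lit 2) true (nat_lit 8) true (nat_lit 12) true (nat_lit 1) true (nat_lit 13) true (nat_lit 11) dC2b_i46)))))))))))))))))))))))))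

noncomputable def dC2b_i48 : IL := (.e true (nat_lit 1) (nat_lit 139) (nat_lit 2) (nat_lit 11) (.e false (nat_lit 1) (nat_lit 140) (nat_lit 2) (nat_lit 11) (.e false (nat_lit 2) (nat_lit 141) (nat_lit 2) (nat_lit 11) (.e false (nat_lit 3) (nat_lit 143) (nat_lit 2) (nat_lit 11) (.e false (nat_lit 1) (nat_lit 144) (nat_lit 2) (nat_lit 11) (.e true (nat_lit 2) (nat_lit 150) (nat_lit 2) (nat_lit 11) (.e false (nat_lit 3) (nat_lit 155) (nat_lit 2) (nat_lit 11) (.e true (nat_lit 3) (nat_lit 153) (nat_lit 2) (nat_lit 11) (.e false (nat_lit 3) (nat_lit 136) (nat_lit 2) (nat_lit 11) (.e true (nat_lit 1) (nat_lit 25) (nat_lit 20) (nat_lit 0) (.e true (nat_lit 1) (nat_lit 151) (nat_lit 2) (nat_lit 11) (.e true (nat_lit 1) (nat_lit 154) (nat_lit 2) (nat_lit 11) (.e true (nat_lit 1) (nat_lit 179) (nat_lit 1) (nat_lit 12) (.e true (nat_lit 2) (nat_lit 29) (nat_lit 20) (nat_lit 0) (.e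 true (nat_lit 2) (nat_lit 169) (nat_lit 1) (nat_lit 12) (.e false (nat_lit 2) (nat_lit 177) (nat_lit 1) (nat_lit 12) (.e true (nat_lit 3) (nat_lit 178) (nat_lit 1) (nat_lit 12) (.e true (nat_lit 3) (nat_lit 170) (nat_lit 1) (nat_lit 12) (.e false (nat_lit 2) (nat_lit 24) (nat_lit 20) (nat_lit 0) (.e false (nat_lit 3) (nat_lit 26) (nat_lit 20) (nat_lit 0) (.e false (nat_lit 2) (nat_lit 27) (nat_lit 20) (nat_lit 0) (.e false (nat_lit 2) (nat_lit 88) (nat_lit 6) (nat_lit 7) (.e true (nat_lit 1) (nat_lit 181) (nat_lit 1) (nat_lit 12) (.u (nat_lit 2) (.n (nat_lit 0) (nat_lit 3) (.p (nat_lit 1) (nat_lit 1) (.n (nat_lit 3) (nat_lit 2) (.n (nat_lit 5) (nat_lit 3) (.p (nat_lit 6) (nat_lit 1) (.n (nat_lit 10) (nat_lit 1) (.p (nat_lit 14) (nat_lit 1) (.n (nat_lit 15) (nat_lit 1) (.n (nat_lit 17) (nat_lit 3) (.p (nat_lit 19) (nat_lit 1) (.p (nat_lit 21) (nat_lit 3) (.n (nat_lit 22)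 (nat_lit 2) (.p (nat_lit 23) (nat_lit 2) (.n (nat_lit 24) (nat_lit 1) (.n (nat_lit 25) (nat_lit 4) (.n (nat_lit 27) (nat_lit 1) (.n (nat_lit 31) (nat_lit 1) (.p (nat_lit 33) (nat_lit 2) (.p (nat_lit 34) (nat_lit 1) (.n (nat_lit 36) (nat_lit 1) (.n (nat_lit 39) (nat_lit 1) (.n (nat_lit 45) (nat_lit 1) (.n (nat_lit 55) (nat_lit 1) (.p (nat_lit 61) (nat_lit 1) (.n (nat_lit 62) (nat_lit 1) (.n (nat_lit 63) (nat_lit 1) (.n (nat_lit 69) (nat_lit 1) (.p (nat_lit 77) (nat_lit 1) (.n (nat_lit 78) (nat_lit 1) (.n (nat_lit 79) (nat_lit 2) (.p (nat_lit 81) (nat_lit 2) (.p (nat_lit 82) (nat_lit 1) (.n (nat_lit 83) (nat_lit 2) (.n (nat_lit 85) (nat_lit 1) (.p (nat_lit 86) (nat_lit 1) (.n (nat_lit 87) (nat_lit 1) (.p (nat_lit 88) (nat_lit 1) (.n (nat_lit 89) (nat_lit 2) (.n (nat_lit 91) (nat_lit 1) (.n (nat_lit 92) (nat_lit 1) (.p (nat_lit 93) (nat_lit 2) (.p (nat_lit 94) (nat_lit 1) (.p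 (nat_lit 96) (nat_lit 1) (.p (nat_lit 97) (nat_lit 2) (.n (nat_lit 101) (nat_lit 1) (.n (nat_lit 102) (nat_lit 1) (.p (nat_lit 104) (nat_lit 1) (.n (nat_lit 105) (nat_lit 1) (.p (nat_lit 106) (nat_lit 1) (.p (nat_lit 110) (nat_lit 1) (.p (nat_lit 111) (nat_lit 1) (.n (nat_lit 118) (nat_lit 8) (.p (nat_lit 119) (nat_lit 2) (.p (nat_lit 120) (nat_lit 12) (.p (nat_lit 121) (nat_lit 4) (.n (nat_lit 122) (nat_lit 6) (.p (nat_lit 123) (nat_lit 1) (.p (nat_lit 124) (nat_lit 9) (.n (nat_lit 125) (nat_lit 7) (.p (nat_lit 126) (nat_lit 11) .z)))))))))))))))))))))))))))))))))))))))))))))))))))))))))))) (.u (nat_lit 2) (.p (nat_lit 127) (nat_lit 1) (.n (nat_lit 128) (nat_lit 6) (.n (nat_lit 129) (nat_lit 9) (.p (nat_lit 130) (nat_lit 4) (.p (nat_lit 132) (nat_lit 3) (.n (nat_lit 134) (nat_lit 1) (.n (nat_lit 135) (nat_lit 6) (.p (nat_lit 136) (nat_lit 1) (.p (nat_lit 137) (nat_lit 5)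 (.p (nat_lit 138) (nat_lit 2) (.n (nat_lit 139) (nat_lit 6) (.n (nat_lit 140) (nat_lit 3) (.p (nat_lit 141) (nat_lit 4) (.n (nat_lit 142) (nat_lit 5) (.p (nat_lit 143) (nat_lit 3) (.n (nat_lit 144) (nat_lit 1) (.p (nat_lit 145) (nat_lit 2) (.n (nat_lit 146) (nat_lit 1) (.p (nat_lit 147) (nat_lit 2) (.n (nat_lit 148) (nat_lit 3) (.n (nat_lit 150) (nat_lit 1) (.n (nat_lit 151) (nat_lit 2) (.n (nat_lit 153) (nat_lit 2) (.n (nat_lit 159) (nat_lit 1) (.n (nat_lit 160) (nat_lit 1) (.n (nat_lit 161) (nat_lit 1) (.p (nat_lit 162) (nat_lit 3) (.n (nat_lit 164) (nat_lit 3) (.n (nat_lit 167) (nat_lit 1) .z))))))))))))))))))))))))))))) .nil)))))))))))))))))))))))))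

noncomputable def dC2b_i49 : IL := (.s true (nat_lit 3) (nat_lit 46) (nat_lit 2) (nat_lit 1) (nat_lit 0) true (nat_lit 8) true (nat_lit 13) false (nat_lit 4) true (nat_lit 11) true (nat_lit 12) (.s true (nat_lit 3) (nat_lit 48) (nat_lit 1) (nat_lit 1) (nat_lit 0) true (nat_lit 10) true (nat_lit 13) false (nat_lit 5) true (nat_lit 12) true (nat_lit 12) (.e true (nat_lit 2) (nat_lit 80) (nat_lit 6) (nat_lit 7) (.e true (nat_lit 3) (nat_lit 81) (nat_lit 6) (nat_lit 7) (.e true (nat_lit 2) (nat_lit 62) (nat_lit 7) (nat_lit 6) (.e false (nat_lit 3) (nat_lit 65) (nat_lit 7) (nat_lit 6) (.e false (nat_lit 2) (nat_lit 66) (nat_lit 7) (nat_lit 6) (.e false (nat_lit 2) (nat_lit 60) (nat_lit 7) (nat_lit 6) (.e false (nat_lit 3) (nat_lit 61) (nat_lit 7) (nat_lit 6) (.e true (nat_lit 1) (nat_lit 63) (nat_lit 7) (nat_lit 6) (.e false (nat_lit 2) (nat_lit 73) (nat_lit 7) (nat_lit 6) (.e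 false (nat_lit 3) (nat_lit 46) (nat_lit 11) (nat_lit 4) (.e true (nat_lit 1) (nat_lit 47) (nat_lit 11) (nat_lit 4) (.e true (nat_lit 2) (nat_lit 102) (nat_lit 3) (nat_lit 10) (.e false (nat_lit 1) (nat_lit 104) (nat_lit 3) (nat_lit 10) (.e false (nat_lit 2) (nat_lit 132) (nat_lit 2) (nat_lit 11) (.e true (nat_lit 1) (nat_lit 134) (nat_lit 2) (nat_lit 11) (.e true (nat_lit 3) (nat_lit 135) (nat_lit 2) (nat_lit 11) (.e true (nat_lit 1) (nat_lit 137) (nat_lit 2) (nat_lit 11) (.e false (nat_lit 1) (nat_lit 138) (nat_lit 2) (nat_lit 11) (.e false (nat_lit 2) (nat_lit 145) (nat_lit 2) (nat_lit 11) (.e true (nat_lit 1) (nat_lit 149) (nat_lit 2) (nat_lit 11) (.e false (nat_lit 3) (nat_lit 152) (nat_lit 2) (nat_lit 11) (.e true (nat_lit 3) (nat_lit 157) (nat_lit 2) (nat_lit 11) (.e false (nat_lit 1) (nat_lit 156) (nat_lit 2) (nat_lit 11) dC2b_i48)))))))))))))))))))))))))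

noncomputable def dC2b_i50 : IL := (.s true (nat_lit 1) (nat_lit 18) (nat_lit 1) (nat_lit 5) (nat_lit 2) true (nat_lit 7) true (nat_lit 11) true (nat_lit 1) true (nat_lit 12) true (nat_lit 8) (.s false (nat_lit 2) (nat_lit 20) (nat_lit 0) (nat_lit 2) (nat_lit 4) true (nat_lit 5) true (nat_lit 9) true (nat_lit 0) true (nat_lit 13) true (nat_lit 11) (.s false (nat_lit 1) (nat_lit 20) (nat_lit 0) (nat_lit 4) (nat_lit 2) true (nat_lit 8) true (nat_lit 11) true (nat_lit 0) true (nat_lit 13) true (nat_lit 9) (.s true (nat_lit 2) (nat_lit 20) (nat_lit 2) (nat_lit 1) (nat_lit 3) true (nat_lit 4) true (nat_lit 10) true (nat_lit 0) true (nat_lit 11) true (nat_lit 12) (.s true (nat_lit 1) (nat_lit 20) (nat_lit 4) (nat_lit 0) (nat_lit 2) true (nat_lit 3) true (nat_lit 11) true (nat_lit 0) true (nat_lit 9) true (nat_lit 13) (.s true (nat_lit 1) (nat_lit 20) (nat_lit 6) (nat_lit 0) (nat_lit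 1) true (nat_lit 3) true (nat_lit 12) true (nat_lit 0) true (nat_lit 7) true (nat_lit 13) (.s false (nat_lit 3) (nat_lit 28) (nat_lit 2) (nat_lit 2) (nat_lit 2) true (nat_lit 6) true (nat_lit 11) false (nat_lit 0) true (nat_lit 11) true (nat_lit 11) (.s false (nat_lit 3) (nat_lit 34) (nat_lit 1) (nat_lit 2) (nat_lit 2) true (nat_lit 7) true (nat_lit 11) false (nat_lit 1) true (nat_lit 12) true (nat_lit 11) (.s false (nat_lit 2) (nat_lit 35) (nat_lit 1) (nat_lit 2) (nat_lit 2) true (nat_lit 7) true (nat_lit 11) false (nat_lit 1) true (nat_lit 12) true (nat_lit 11) (.s false (nat_lit 1) (nat_lit 37) (nat_lit 1) (nat_lit 2) (nat_lit 2) true (nat_lit 7) true (nat_lit 11) false (nat_lit 1) true (nat_lit 12) true (nat_lit 11) (.s false (nat_lit 2) (nat_lit 38) (nat_lit 1) (nat_lit 2) (nat_lit 2) true (nat_lit 7) true (nat_lit 11) false (nat_lit 1) true (nat_lit 12) true (nat_lit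 11) (.s true (nat_lit 2) (nat_lit 34) (nat_lit 2) (nat_lit 1) (nat_lit 2) true (nat_lit 6) true (nat_lit 11) false (nat_lit 1) true (nat_lit 11) true (nat_lit 12) (.s false (nat_lit 3) (nat_lit 35) (nat_lit 2) (nat_lit 1) (nat_lit 2) true (nat_lit 6) true (nat_lit 11) false (nat_lit 1) true (nat_lit 11) true (nat_lit 12) (.s false (nat_lit 2) (nat_lit 37) (nat_lit 2) (nat_lit 1) (nat_lit 2) true (nat_lit 6) true (nat_lit 11) false (nat_lit 1) true (nat_lit 11) true (nat_lit 12) (.s true (nat_lit 2) (nat_lit 38) (nat_lit 2) (nat_lit 1) (nat_lit 2) true (nat_lit 6) true (nat_lit 11) false (nat_lit 1) true (nat_lit 11) true (nat_lit 12) (.s true (nat_lit 2) (nat_lit 39) (nat_lit 0) (nat_lit 2) (nat_lit 2) true (nat_lit 8) true (nat_lit 11) false (nat_lit 2) true (nat_lit 13) true (nat_lit 11) (.s true (nat_lit 3) (nat_lit 39) (nat_lit 2) (nat_lit 0) (nat_lit 2) true (nat_lit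 6) true (nat_lit 11) false (nat_lit 2) true (nat_lit 11) true (nat_lit 13) (.s true (nat_lit 3) (nat_lit 40) (nat_lit 2) (nat_lit 0) (nat_lit 2) true (nat_lit 6) true (nat_lit 11) false (nat_lit 2) true (nat_lit 11) true (nat_lit 13) (.s true (nat_lit 3) (nat_lit 39) (nat_lit 2) (nat_lit 2) (nat_lit 0) true (nat_lit 8) true (nat_lit 13) false (nat_lit 2) true (nat_lit 11) true (nat_lit 11) (.s false (nat_lit 1) (nat_lit 40) (nat_lit 2) (nat_lit 2) (nat_lit 0) true (nat_lit 8) true (nat_lit 13) false (nat_lit 2) true (nat_lit 11) true (nat_lit 11) (.s true (nat_lit 2) (nat_lit 44) (nat_lit 1) (nat_lit 2) (nat_lit 1) true (nat_lit 9) true (nat_lit 12) false (nat_lit 3) true (nat_lit 12) true (nat_lit 11) (.s true (nat_lit 1) (nat_lit 42) (nat_lit 2) (nat_lit 1) (nat_lit 1) true (nat_lit 7) true (nat_lit 12) false (nat_lit 3) true (nat_lit 11) true (nat_lit 12) (.s false (nat_lit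 3) (nat_lit 44) (nat_lit 2) (nat_lit 1) (nat_lit 1) true (nat_lit 7) true (nat_lit 12) false (nat_lit 3) true (nat_lit 11) true (nat_lit 12) (.s true (nat_lit 3) (nat_lit 47) (nat_lit 0) (nat_lit 1) (nat_lit 2) true (nat_lit 8) true (nat_lit 11) false (nat_lit 4) true (nat_lit 13) true (nat_lit 12) (.s false (nat_lit 3) (nat_lit 47) (nat_lit 0) (nat_lit 2) (nat_lit 1) true (nat_lit 10) true (nat_lit 12) false (nat_lit 4) true (nat_lit 13) true (nat_lit 11) dC2b_i49)))))))))))))))))))))))))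

noncomputable def dC2b_i51 : IL := (.e false (nat_lit 2) (nat_lit 215) (nat_lit 2) (nat_lit 16) (.e true (nat_lit 1) (nat_lit 219) (nat_lit 2) (nat_lit 16) (.e false (nat_lit 3) (nat_lit 221) (nat_lit 2) (nat_lit 16) (.e true (nat_lit 2) (nat_lit 222) (nat_lit 2) (nat_lit 16) (.e true (nat_lit 2) (nat_lit 225) (nat_lit 2) (nat_lit 16) (.e false (nat_lit 2) (nat_lit 226) (nat_lit 2) (nat_lit 16) (.e false (nat_lit 2) (nat_lit 227) (nat_lit 2) (nat_lit 16) (.e false (nat_lit 1) (nat_lit 228) (nat_lit 2) (nat_lit 16) (.e false (nat_lit 3) (nat_lit 229) (nat_lit 2) (nat_lit 16) (.e true (nat_lit 3) (nat_lit 230) (nat_lit 2) (nat_lit 16) (.e false (nat_lit 3) (nat_lit 232) (nat_lit 2) (nat_lit 16) (.e false (nat_lit 3) (nat_lit 234) (nat_lit 2) (nat_lit 16) (.e false (nat_lit 2) (nat_lit 242) (nat_lit 2) (nat_lit 16) (.e false (nat_lit 2) (nat_lit 244) (nat_lit 2) (nat_lit 16)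 (.e true (nat_lit 2) (nat_lit 246) (nat_lit 2) (nat_lit 16) (.e true (nat_lit 2) (nat_lit 247) (nat_lit 2) (nat_lit 16) (.e true (nat_lit 2) (nat_lit 248) (nat_lit 2) (nat_lit 16) (.e false (nat_lit 1) (nat_lit 210) (nat_lit 2) (nat_lit 16) (.e false (nat_lit 3) (nat_lit 217) (nat_lit 2) (nat_lit 16) (.e true (nat_lit 3) (nat_lit 220) (nat_lit 2) (nat_lit 16) (.e true (nat_lit 3) (nat_lit 231) (nat_lit 2) (nat_lit 16) (.e true (nat_lit 1) (nat_lit 249) (nat_lit 2) (nat_lit 16) (.e false (nat_lit 2) (nat_lit 250) (nat_lit 2) (nat_lit 16) (.e true (nat_lit 1) (nat_lit 256) (nat_lit 1) (nat_lit 17) (.u (nat_lit 2) (.p (nat_lit 0) (nat_lit 3) (.p (nat_lit 1) (nat_lit 2) (.p (nat_lit 2) (nat_lit 3) (.p (nat_lit 3) (nat_lit 1) (.p (nat_lit 4) (nat_lit 2) (.p (nat_lit 5) (nat_lit 1) (.p (nat_lit 6) (nat_lit 4) (.p (nat_lit 7) (nat_lit 1) (.p (nat_lit 9) (nat_lit 3) (.n (nat_lit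 10) (nat_lit 1) (.n (nat_lit 11) (nat_lit 2) (.p (nat_lit 12) (nat_lit 1) (.p (nat_lit 14) (nat_lit 2) (.n (nat_lit 15) (nat_lit 3) (.p (nat_lit 16) (nat_lit 6) (.p (nat_lit 17) (nat_lit 2) (.p (nat_lit 18) (nat_lit 3) (.n (nat_lit 19) (nat_lit 1) (.n (nat_lit 21) (nat_lit 7) (.p (nat_lit 22) (nat_lit 7) (.n (nat_lit 23) (nat_lit 3) (.n (nat_lit 25) (nat_lit 1) (.n (nat_lit 26) (nat_lit 3) (.p (nat_lit 27) (nat_lit 1) (.n (nat_lit 28) (nat_lit 1) (.n (nat_lit 29) (nat_lit 5) (.n (nat_lit 32) (nat_lit 11) (.n (nat_lit 36) (nat_lit 2) (.p (nat_lit 37) (nat_lit 3) (.p (nat_lit 39) (nat_lit 3) (.n (nat_lit 40) (nat_lit 1) (.n (nat_lit 42) (nat_lit 1) (.n (nat_lit 44) (nat_lit 1) (.n (nat_lit 46) (nat_lit 1) (.p (nat_lit 47) (nat_lit 1) (.n (nat_lit 48) (nat_lit 1) (.p (nat_lit 50) (nat_lit 1) (.p (nat_lit 55) (nat_lit 1) (.p (nat_lit 57) (nat_lit 1) (.n (nat_lit 304) (nat_lit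 1) (.n (nat_lit 312) (nat_lit 1) (.p (nat_lit 327) (nat_lit 1) (.n (nat_lit 331) (nat_lit 1) .z))))))))))))))))))))))))))))))))))))))))))) .nil)))))))))))))))))))))))))

noncomputable def dC2b_i52 : IL := (.e false (nat_lit 3) (nat_lit 213) (nat_lit 2) (nat_lit 16) (.e true (nat_lit 2) (nat_lit 214) (nat_lit 2) (nat_lit 16) (.e true (nat_lit 2) (nat_lit 215) (nat_lit 2) (nat_lit 16) (.e true (nat_lit 1) (nat_lit 216) (nat_lit 2) (nat_lit 16) (.e false (nat_lit 3) (nat_lit 217) (nat_lit 2) (nat_lit 16) (.e false (nat_lit 2) (nat_lit 218) (nat_lit 2) (nat_lit 16) (.e false (nat_lit 2) (nat_lit 219) (nat_lit 2) (nat_lit 16) (.e false (nat_lit 3) (nat_lit 220) (nat_lit 2) (nat_lit 16) (.e false (nat_lit 1) (nat_lit 227) (nat_lit 2) (nat_lit 16) (.e true (nat_lit 2) (nat_lit 228) (nat_lit 2) (nat_lit 16) (.e false (nat_lit 1) (nat_lit 230) (nat_lit 2) (nat_lit 16) (.e true (nat_lit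 3) (nat_lit 231) (nat_lit 2) (nat_lit 16) (.e false (nat_lit 2) (nat_lit 232) (nat_lit 2) (nat_lit 16) (.e true (nat_lit 1) (nat_lit 233) (nat_lit 2) (nat_lit 16) (.e true (nat_lit 3) (nat_lit 234) (nat_lit 2) (nat_lit 16) (.e false (nat_lit 3) (nat_lit 242) (nat_lit 2) (nat_lit 16) (.e false (nat_lit 1) (nat_lit 244) (nat_lit 2) (nat_lit 16) (.e true (nat_lit 3) (nat_lit 245) (nat_lit 2) (nat_lit 16) (.e false (nat_lit 1) (nat_lit 246) (nat_lit 2) (nat_lit 16) (.e false (nat_lit 1) (nat_lit 247) (nat_lit 2) (nat_lit 16) (.e false (nat_lit 1) (nat_lit 248) (nat_lit 2) (nat_lit 16) (.e true (nat_lit 1) (nat_lit 249) (nat_lit 2) (nat_lit 16) (.e false (nat_lit 2) (nat_lit 250) (nat_lit 2) (nat_lit 16) (.e false (nat_lit 1) (nat_lit 251) (nat_lit 2) (nat_lit 16) (.u (nat_lit 2) (.p (nat_lit 0) (nat_lit 1) (.n (nat_lit 1) (nat_lit 1) (.n (nat_lit 2) (nat_lit 1) (.p (nat_lit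 3) (nat_lit 5) (.n (nat_lit 4) (nat_lit 4) (.p (nat_lit 5) (nat_lit 2) (.n (nat_lit 7) (nat_lit 4) (.n (nat_lit 8) (nat_lit 3) (.n (nat_lit 9) (nat_lit 1) (.n (nat_lit 11) (nat_lit 4) (.n (nat_lit 12) (nat_lit 3) (.n (nat_lit 14) (nat_lit 5) (.n (nat_lit 15) (nat_lit 3) (.p (nat_lit 17) (nat_lit 2) (.n (nat_lit 18) (nat_lit 2) (.p (nat_lit 19) (nat_lit 3) (.p (nat_lit 20) (nat_lit 2) (.n (nat_lit 21) (nat_lit 1) (.p (nat_lit 22) (nat_lit 1) (.p (nat_lit 23) (nat_lit 2) (.n (nat_lit 24) (nat_lit 3) (.n (nat_lit 26) (nat_lit 2) (.p (nat_lit 27) (nat_lit 4) (.p (nat_lit 28) (nat_lit 2) (.p (nat_lit 31) (nat_lit 2) (.n (nat_lit 33) (nat_lit 1) (.n (nat_lit 35) (nat_lit 1) (.p (nat_lit 36) (nat_lit 4) (.n (nat_lit 37) (nat_lit 5) (.p (nat_lit 38) (nat_lit 1) (.p (nat_lit 39) (nat_lit 5) (.n (nat_lit 40) (nat_lit 1) (.p (nat_lit 42) (nat_lit 1) (.n (nat_lit 44) (nat_lit 1) (.n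 (nat_lit 45) (nat_lit 5) (.n (nat_lit 46) (nat_lit 1) (.n (nat_lit 47) (nat_lit 4) (.n (nat_lit 48) (nat_lit 3) (.p (nat_lit 50) (nat_lit 1) (.p (nat_lit 51) (nat_lit 1) (.p (nat_lit 52) (nat_lit 1) (.p (nat_lit 55) (nat_lit 1) (.n (nat_lit 317) (nat_lit 1) .z))))))))))))))))))))))))))))))))))))))))))) .nil)))))))))))))))))))))))))

noncomputable def dC2b_i53 : IL := (.e true (nat_lit 2) (nat_lit 254) (nat_lit 2) (nat_lit 14) (.e false (nat_lit 1) (nat_lit 255) (nat_lit 2) (nat_lit 14) (.e false (nat_lit 2) (nat_lit 256) (nat_lit 2) (nat_lit 14) (.e false (nat_lit 2) (nat_lit 259) (nat_lit 2) (nat_lit 14) (.e true (nat_lit 2) (nat_lit 260) (nat_lit 2) (nat_lit 14) (.e false (nat_lit 3) (nat_lit 261) (nat_lit 2) (nat_lit 14) (.e false (nat_lit 2) (nat_lit 262) (nat_lit 2) (nat_lit 14) (.e true (nat_lit 2) (nat_lit 263) (nat_lit 2) (nat_lit 14) (.e true (nat_lit 3) (nat_lit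 265) (nat_lit 2) (nat_lit 14) (.e true (nat_lit 3) (nat_lit 267) (nat_lit 2) (nat_lit 14) (.e true (nat_lit 3) (nat_lit 269) (nat_lit 2) (nat_lit 14) (.e true (nat_lit 2) (nat_lit 270) (nat_lit 2) (nat_lit 14) (.e false (nat_lit 2) (nat_lit 271) (nat_lit 2) (nat_lit 14) (.e true (nat_lit 2) (nat_lit 272) (nat_lit 2) (nat_lit 14) (.e true (nat_lit 2) (nat_lit 274) (nat_lit 2) (nat_lit 14) (.e true (nat_lit 2) (nat_lit 276) (nat_lit 2) (nat_lit 14) (.e true (nat_lit 3) (nat_lit 277) (nat_lit 2) (nat_lit 14) (.e true (nat_lit 3) (nat_lit 283) (nat_lit 2) (nat_lit 14) (.e true (nat_lit 1) (nat_lit 284) (nat_lit 2) (nat_lit 14) (.e false (nat_lit 2) (nat_lit 285) (nat_lit 2) (nat_lit 14) (.e false (nat_lit 1) (nat_lit 286) (nat_lit 2) (nat_lit 14) (.e false (nat_lit 3) (nat_lit 258) (nat_lit 2) (nat_lit 14) (.e false (nat_lit 3) (nat_lit 264) (nat_lit 2) (nat_lit 14) (.e false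 (nat_lit 2) (nat_lit 273) (nat_lit 2) (nat_lit 14) (.u (nat_lit 2) (.p (nat_lit 0) (nat_lit 1) (.n (nat_lit 1) (nat_lit 4) (.p (nat_lit 3) (nat_lit 5) (.n (nat_lit 4) (nat_lit 2) (.p (nat_lit 5) (nat_lit 1) (.p (nat_lit 7) (nat_lit 1) (.n (nat_lit 8) (nat_lit 4) (.p (nat_lit 10) (nat_lit 2) (.p (nat_lit 11) (nat_lit 3) (.n (nat_lit 12) (nat_lit 1) (.p (nat_lit 13) (nat_lit 1) (.n (nat_lit 14) (nat_lit 2) (.p (nat_lit 15) (nat_lit 6) (.p (nat_lit 16) (nat_lit 6) (.n (nat_lit 17) (nat_lit 5) (.n (nat_lit 18) (nat_lit 1) (.n (nat_lit 21) (nat_lit 1) (.p (nat_lit 23) (nat_lit 3) (.p (nat_lit 24) (nat_lit 1) (.n (nat_lit 25) (nat_lit 1) (.p (nat_lit 26) (nat_lit 1) (.p (nat_lit 29) (nat_lit 1) (.n (nat_lit 31) (nat_lit 1) (.n (nat_lit 34) (nat_lit 2) (.p (nat_lit 38) (nat_lit 2) (.p (nat_lit 204) (nat_lit 1) (.p (nat_lit 205) (nat_lit 1) (.p (nat_lit 219) (nat_lit 1) (.p (nat_lit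 222) (nat_lit 1) (.p (nat_lit 224) (nat_lit 1) (.p (nat_lit 226) (nat_lit 1) .z))))))))))))))))))))))))))))))) .nil)))))))))))))))))))))))))

noncomputable def dC2b_i54 : IL := (.e true (nat_lit 2) (nat_lit 156) (nat_lit 2) (nat_lit 11) (.e true (nat_lit 2) (nat_lit 62) (nat_lit 7) (nat_lit 6) (.e false (nat_lit 1) (nat_lit 66) (nat_lit 7) (nat_lit 6) (.e true (nat_lit 3) (nat_lit 72) (nat_lit 7) (nat_lit 6) (.e true (nat_lit 1) (nat_lit 61) (nat_lit 7) (nat_lit 6) (.e true (nat_lit 2) (nat_lit 63) (nat_lit 7) (nat_lit 6) (.e true (nat_lit 3) (nat_lit 73) (nat_lit 7) (nat_lit 6) (.e true (nat_lit 2) (nat_lit 133) (nat_lit 2) (nat_lit 11) (.e true (nat_lit 2) (nat_lit 142) (nat_lit 2) (nat_lit 11) (.e false (nat_lit 3) (nat_lit 147) (nat_lit 2) (nat_lit 11) (.e true (nat_lit 3) (nat_lit 46) (nat_lit 11) (nat_lit 4) (.e true (nat_lit 2) (nat_lit 47) (nat_lit 11) (nat_lit 4)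 (.e false (nat_lit 2) (nat_lit 104) (nat_lit 3) (nat_lit 10) (.e true (nat_lit 1) (nat_lit 88) (nat_lit 6) (nat_lit 7) (.e false (nat_lit 2) (nat_lit 60) (nat_lit 7) (nat_lit 6) (.e true (nat_lit 2) (nat_lit 146) (nat_lit 2) (nat_lit 11) (.e false (nat_lit 2) (nat_lit 34) (nat_lit 19) (nat_lit 1) (.e true (nat_lit 1) (nat_lit 169) (nat_lit 1) (nat_lit 12) (.e true (nat_lit 2) (nat_lit 170) (nat_lit 1) (nat_lit 12) (.e true (nat_lit 3) (nat_lit 177) (nat_lit 1) (nat_lit 12) (.e false (nat_lit 2) (nat_lit 33) (nat_lit 19) (nat_lit 1) (.e false (nat_lit 2) (nat_lit 24) (nat_lit 20) (nat_lit 0) (.e false (nat_lit 3) (nat_lit 27) (nat_lit 20) (nat_lit 0) (.u (nat_lit 2) (.p (nat_lit 0) (nat_lit 2) (.p (nat_lit 1) (nat_lit 1) (.n (nat_lit 2) (nat_lit 1) (.n (nat_lit 3) (nat_lit 1) (.p (nat_lit 5) (nat_lit 2) (.n (nat_lit 6) (nat_lit 3) (.n (nat_lit 7) (nat_lit 1) (.n (nat_lit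 12) (nat_lit 1) (.p (nat_lit 13) (nat_lit 1) (.n (nat_lit 14) (nat_lit 1) (.p (nat_lit 15) (nat_lit 1) (.p (nat_lit 17) (nat_lit 3) (.n (nat_lit 20) (nat_lit 2) (.p (nat_lit 22) (nat_lit 2) (.n (nat_lit 23) (nat_lit 1) (.p (nat_lit 25) (nat_lit 2) (.p (nat_lit 31) (nat_lit 1) (.n (nat_lit 33) (nat_lit 1) (.n (nat_lit 37) (nat_lit 1) (.n (nat_lit 41) (nat_lit 1) (.n (nat_lit 42) (nat_lit 1) (.p (nat_lit 45) (nat_lit 1) (.n (nat_lit 56) (nat_lit 2) (.p (nat_lit 57) (nat_lit 1) (.p (nat_lit 58) (nat_lit 1) (.n (nat_lit 61) (nat_lit 1) (.p (nat_lit 69) (nat_lit 1) (.n (nat_lit 72) (nat_lit 1) (.p (nat_lit 78) (nat_lit 2) (.p (nat_lit 79) (nat_lit 1) (.p (nat_lit 80) (nat_lit 1) (.n (nat_lit 81) (nat_lit 1) (.n (nat_lit 82) (nat_lit 1) (.p (nat_lit 83) (nat_lit 3) (.n (nat_lit 84) (nat_lit 1) (.n (nat_lit 87) (nat_lit 1) (.p (nat_lit 90) (nat_lit 1) (.p (nat_lit 91) (nat_lit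 1) (.n (nat_lit 92) (nat_lit 1) (.p (nat_lit 93) (nat_lit 2) (.p (nat_lit 94) (nat_lit 1) (.n (nat_lit 95) (nat_lit 1) (.p (nat_lit 96) (nat_lit 2) (.p (nat_lit 97) (nat_lit 3) (.n (nat_lit 101) (nat_lit 1) (.n (nat_lit 102) (nat_lit 1) (.n (nat_lit 103) (nat_lit 1) (.n (nat_lit 104) (nat_lit 1) (.n (nat_lit 108) (nat_lit 1) (.n (nat_lit 110) (nat_lit 1) (.n (nat_lit 111) (nat_lit 1) (.p (nat_lit 114) (nat_lit 1) (.n (nat_lit 115) (nat_lit 1) (.p (nat_lit 117) (nat_lit 8) (.n (nat_lit 118) (nat_lit 4) (.p (nat_lit 119) (nat_lit 8) (.n (nat_lit 121) (nat_lit 2) (.p (nat_lit 122) (nat_lit 2) (.n (nat_lit 123) (nat_lit 1) (.p (nat_lit 124) (nat_lit 2) .z)))))))))))))))))))))))))))))))))))))))))))))))))))))))))))) (.u (nat_lit 2) (.n (nat_lit 125) (nat_lit 2) (.n (nat_lit 126) (nat_lit 6) (.n (nat_lit 127) (nat_lit 2) (.n (nat_lit 128) (nat_lit 5) (.p (nat_lit 129) (nat_lit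 10) (.n (nat_lit 130) (nat_lit 1) (.p (nat_lit 132) (nat_lit 1) (.n (nat_lit 135) (nat_lit 4) (.n (nat_lit 136) (nat_lit 2) (.n (nat_lit 137) (nat_lit 1) (.p (nat_lit 138) (nat_lit 2) (.p (nat_lit 139) (nat_lit 8) (.n (nat_lit 140) (nat_lit 5) (.p (nat_lit 141) (nat_lit 3) (.n (nat_lit 142) (nat_lit 2) (.p (nat_lit 143) (nat_lit 1) (.n (nat_lit 144) (nat_lit 4) (.p (nat_lit 146) (nat_lit 1) (.p (nat_lit 147) (nat_lit 1) (.n (nat_lit 148) (nat_lit 3) (.p (nat_lit 149) (nat_lit 2) (.p (nat_lit 150) (nat_lit 2) (.p (nat_lit 152) (nat_lit 1) (.p (nat_lit 153) (nat_lit 2) (.p (nat_lit 157) (nat_lit 1) (.p (nat_lit 159) (nat_lit 1) (.n (nat_lit 164) (nat_lit 2) (.p (nat_lit 167) (nat_lit 1) (.p (nat_lit 168) (nat_lit 1) .z))))))))))))))))))))))))))))) .nil)))))))))))))))))))))))))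

noncomputable def dC2b_i55 : IL := (.s true (nat_lit 1) (nat_lit 41) (nat_lit 2) (nat_lit 0) (nat_lit 2) true (nat_lit 6) true (nat_lit 11) false (nat_lit 2) true (nat_lit 11) true (nat_lit 13) (.s true (nat_lit 3) (nat_lit 39) (nat_lit 2) (nat_lit 2) (nat_lit 0) true (nat_lit 8) true (nat_lit 13) false (nat_lit 2) true (nat_lit 11) true (nat_lit 11) (.s true (nat_lit 2) (nat_lit 41) (nat_lit 2) (nat_lit 2) (nat_lit 0) true (nat_lit 8) true (nat_lit 13) false (nat_lit 2) true (nat_lit 11) true (nat_lit 11) (.s false (nat_lit 1) (nat_lit 42) (nat_lit 1) (nat_lit 1) (nat_lit 2) true (nat_lit 7) true (nat_lit 11) false (nat_lit 3) true (nat_lit 12) true (nat_lit 12) (.s false (nat_lit 1) (nat_lit 42) (nat_lit 1) (nat_lit 2) (nat_lit 1) true (nat_lit 9) true (nat_lit 12) false (nat_lit 3) true (nat_lit 12) true (nat_lit 11) (.s false (nat_lit 1) (nat_lit 44) (nat_lit 1) (nat_lit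 2) (nat_lit 1) true (nat_lit 9) true (nat_lit 12) false (nat_lit 3) true (nat_lit 12) true (nat_lit 11) (.s true (nat_lit 3) (nat_lit 42) (nat_lit 2) (nat_lit 1) (nat_lit 1) true (nat_lit 7) true (nat_lit 12) false (nat_lit 3) true (nat_lit 11) true (nat_lit 12) (.s false (nat_lit 2) (nat_lit 44) (nat_lit 2) (nat_lit 1) (nat_lit 1) true (nat_lit 7) true (nat_lit 12) false (nat_lit 3) true (nat_lit 11) true (nat_lit 12) (.s true (nat_lit 2) (nat_lit 47) (nat_lit 0) (nat_lit 2) (nat_lit 1) true (nat_lit 10) true (nat_lit 12) false (nat_lit 4) true (nat_lit 13) true (nat_lit 11) (.e false (nat_lit 2) (nat_lit 33) (nat_lit 18) (nat_lit 1) (.e true (nat_lit 3) (nat_lit 80) (nat_lit 6) (nat_lit 7) (.e true (nat_lit 2) (nat_lit 81) (nat_lit 6) (nat_lit 7) (.e true (nat_lit 1) (nat_lit 134) (nat_lit 2) (nat_lit 11) (.e true (nat_lit 3) (nat_lit 149) (nat_lit 2) (nat_lit 11) (.e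 true (nat_lit 1) (nat_lit 154) (nat_lit 2) (nat_lit 11) (.e true (nat_lit 1) (nat_lit 135) (nat_lit 2) (nat_lit 11) (.e true (nat_lit 3) (nat_lit 139) (nat_lit 2) (nat_lit 11) (.e true (nat_lit 1) (nat_lit 144) (nat_lit 2) (nat_lit 11) (.e false (nat_lit 3) (nat_lit 150) (nat_lit 2) (nat_lit 11) (.e false (nat_lit 1) (nat_lit 155) (nat_lit 2) (nat_lit 11) (.e true (nat_lit 2) (nat_lit 136) (nat_lit 2) (nat_lit 11) (.e true (nat_lit 1) (nat_lit 141) (nat_lit 2) (nat_lit 11) (.e false (nat_lit 2) (nat_lit 151) (nat_lit 2) (nat_lit 11) (.e false (nat_lit 3) (nat_lit 152) (nat_lit 2) (nat_lit 11) (.e false (nat_lit 3) (nat_lit 153) (nat_lit 2) (nat_lit 11) dC2b_i54)))))))))))))))))))))))))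

noncomputable def dC2b_i56 : IL := (.s true (nat_lit 1) (nat_lit 14) (nat_lit 2) (nat_lit 7) (nat_lit 0) true (nat_lit 8) true (nat_lit 13) true (nat_lit 3) true (nat_lit 11) true (nat_lit 6) (.s false (nat_lit 3) (nat_lit 14) (nat_lit 5) (nat_lit 2) (nat_lit 2) true (nat_lit 2) true (nat_lit 11) true (nat_lit 3) true (nat_lit 8) true (nat_lit 11) (.s false (nat_lit 2) (nat_lit 17) (nat_lit 1) (nat_lit 7) (nat_lit 1) true (nat_lit 9) true (nat_lit 12) true (nat_lit 2) true (nat_lit 12) true (nat_lit 6) (.s true (nat_lit 1) (nat_lit 16) (nat_lit 2) (nat_lit 4) (nat_lit 2) true (nat_lit 6) true (nat_lit 11) true (nat_lit 2) true (nat_lit 11) true (nat_lit 9) (.s false (nat_lit 3) (nat_lit 16) (nat_lit 4) (nat_lit 2) (nat_lit 2) true (nat_lit 3) true (nat_lit 11) true (nat_lit 2) true (nat_lit 9) true (nat_lit 11) (.s true (nat_lit 2) (nat_lit 16) (nat_lit 6) (nat_lit 1) (nat_lit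 2) true (nat_lit 1) true (nat_lit 11) true (nat_lit 2) true (nat_lit 7) true (nat_lit 12) (.s true (nat_lit 2) (nat_lit 19) (nat_lit 2) (nat_lit 3) (nat_lit 2) true (nat_lit 6) true (nat_lit 11) true (nat_lit 1) true (nat_lit 11) true (nat_lit 10) (.s true (nat_lit 3) (nat_lit 20) (nat_lit 0) (nat_lit 2) (nat_lit 4) true (nat_lit 5) true (nat_lit 9) true (nat_lit 0) true (nat_lit 13) true (nat_lit 11) (.s false (nat_lit 2) (nat_lit 20) (nat_lit 0) (nat_lit 4) (nat_lit 2) true (nat_lit 8) true (nat_lit 11) true (nat_lit 0) true (nat_lit 13) true (nat_lit 9) (.s true (nat_lit 3) (nat_lit 20) (nat_lit 0) (nat_lit 6) (nat_lit 1) true (nat_lit 10) true (nat_lit 12) true (nat_lit 0) true (nat_lit 13) true (nat_lit 7) (.s false (nat_lit 3) (nat_lit 20) (nat_lit 1) (nat_lit 0) (nat_lit 6) true (nat_lit 3) true (nat_lit 7) true (nat_lit 0) true (nat_lit 12) true (nat_lit 13) (.s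 false (nat_lit 2) (nat_lit 20) (nat_lit 3) (nat_lit 1) (nat_lit 2) true (nat_lit 4) true (nat_lit 11) true (nat_lit 0) true (nat_lit 10) true (nat_lit 12) (.s true (nat_lit 1) (nat_lit 20) (nat_lit 4) (nat_lit 0) (nat_lit 2) true (nat_lit 3) true (nat_lit 11) true (nat_lit 0) true (nat_lit 9) true (nat_lit 13) (.s false (nat_lit 1) (nat_lit 28) (nat_lit 2) (nat_lit 2) (nat_lit 2) true (nat_lit 6) true (nat_lit 11) false (nat_lit 0) true (nat_lit 11) true (nat_lit 11) (.s true (nat_lit 3) (nat_lit 34) (nat_lit 1) (nat_lit 2) (nat_lit 2) true (nat_lit 7) true (nat_lit 11) false (nat_lit 1) true (nat_lit 12) true (nat_lit 11) (.s true (nat_lit 3) (nat_lit 35) (nat_lit 1) (nat_lit 2) (nat_lit 2) true (nat_lit 7) true (nat_lit 11) false (nat_lit 1) true (nat_lit 12) true (nat_lit 11) (.s false (nat_lit 1) (nat_lit 34) (nat_lit 2) (nat_lit 1) (nat_lit 2) true (nat_lit 6) true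 (nat_lit 11) false (nat_lit 1) true (nat_lit 11) true (nat_lit 12) (.s true (nat_lit 2) (nat_lit 35) (nat_lit 2) (nat_lit 1) (nat_lit 2) true (nat_lit 6) true (nat_lit 11) false (nat_lit 1) true (nat_lit 11) true (nat_lit 12) (.s false (nat_lit 2) (nat_lit 36) (nat_lit 2) (nat_lit 1) (nat_lit 2) true (nat_lit 6) true (nat_lit 11) false (nat_lit 1) true (nat_lit 11) true (nat_lit 12) (.s true (nat_lit 2) (nat_lit 37) (nat_lit 2) (nat_lit 1) (nat_lit 2) true (nat_lit 6) true (nat_lit 11) false (nat_lit 1) true (nat_lit 11) true (nat_lit 12) (.s true (nat_lit 2) (nat_lit 38) (nat_lit 2) (nat_lit 1) (nat_lit 2) true (nat_lit 6) true (nat_lit 11) false (nat_lit 1) true (nat_lit 11) true (nat_lit 12) (.s false (nat_lit 1) (nat_lit 35) (nat_lit 2) (nat_lit 2) (nat_lit 1) true (nat_lit 7) true (nat_lit 12) false (nat_lit 1) true (nat_lit 11) true (nat_lit 11) (.s true (nat_lit 3)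 (nat_lit 39) (nat_lit 0) (nat_lit 2) (nat_lit 2) true (nat_lit 8) true (nat_lit 11) false (nat_lit 2) true (nat_lit 13) true (nat_lit 11) (.s false (nat_lit 3) (nat_lit 39) (nat_lit 2) (nat_lit 0) (nat_lit 2) true (nat_lit 6) true (nat_lit 11) false (nat_lit 2) true (nat_lit 11) true (nat_lit 13) (.s false (nat_lit 3) (nat_lit 40) (nat_lit 2) (nat_lit 0) (nat_lit 2) true (nat_lit 6) true (nat_lit 11) false (nat_lit 2) true (nat_lit 11) true (nat_lit 13) dC2b_i55)))))))))))))))))))))))))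

noncomputable def dC2b_i57 : IL := (.e false (nat_lit 1) (nat_lit 215) (nat_lit 2) (nat_lit 16) (.e true (nat_lit 2) (nat_lit 218) (nat_lit 2) (nat_lit 16) (.e true (nat_lit 1) (nat_lit 219) (nat_lit 2) (nat_lit 16) (.e true (nat_lit 2) (nat_lit 222) (nat_lit 2) (nat_lit 16) (.e false (nat_lit 1) (nat_lit 225) (nat_lit 2) (nat_lit 16) (.e false (nat_lit 2) (nat_lit 226) (nat_lit 2) (nat_lit 16) (.e true (nat_lit 1) (nat_lit 227) (nat_lit 2) (nat_lit 16) (.e false (nat_lit 3) (nat_lit 229) (nat_lit 2) (nat_lit 16) (.e false (nat_lit 1) (nat_lit 230) (nat_lit 2) (nat_lit 16) (.e true (nat_lit 2) (nat_lit 231) (nat_lit 2) (nat_lit 16) (.e true (nat_lit 2) (nat_lit 232) (nat_lit 2) (nat_lit 16) (.e false (nat_lit 2) (nat_lit 234) (nat_lit 2) (nat_lit 16) (.e false (nat_lit 1) (nat_lit 242) (nat_lit 2) (nat_lit 16) (.e true (nat_lit 1) (nat_lit 210) (nat_lit 2) (nat_lit 16)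 (.e true (nat_lit 2) (nat_lit 212) (nat_lit 2) (nat_lit 16) (.e false (nat_lit 3) (nat_lit 214) (nat_lit 2) (nat_lit 16) (.e true (nat_lit 2) (nat_lit 216) (nat_lit 2) (nat_lit 16) (.e false (nat_lit 3) (nat_lit 217) (nat_lit 2) (nat_lit 16) (.e false (nat_lit 1) (nat_lit 243) (nat_lit 2) (nat_lit 16) (.e true (nat_lit 1) (nat_lit 244) (nat_lit 2) (nat_lit 16) (.e false (nat_lit 1) (nat_lit 248) (nat_lit 2) (nat_lit 16) (.e false (nat_lit 1) (nat_lit 249) (nat_lit 2) (nat_lit 16) (.e true (nat_lit 1) (nat_lit 250) (nat_lit 2) (nat_lit 16) (.e true (nat_lit 1) (nat_lit 257) (nat_lit 1) (nat_lit 17) (.u (nat_lit 2) (.n (nat_lit 1) (nat_lit 2) (.p (nat_lit 2) (nat_lit 3) (.p (nat_lit 3) (nat_lit 1) (.n (nat_lit 4) (nat_lit 1) (.p (nat_lit 5) (nat_lit 3) (.p (nat_lit 6) (nat_lit 3) (.n (nat_lit 8) (nat_lit 2) (.n (nat_lit 9) (nat_lit 3) (.n (nat_lit 10) (nat_lit 1) (.n (nat_lit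 11) (nat_lit 2) (.n (nat_lit 12) (nat_lit 1) (.p (nat_lit 14) (nat_lit 2) (.n (nat_lit 15) (nat_lit 1) (.p (nat_lit 16) (nat_lit 1) (.n (nat_lit 17) (nat_lit 3) (.n (nat_lit 18) (nat_lit 3) (.n (nat_lit 19) (nat_lit 2) (.n (nat_lit 20) (nat_lit 1) (.n (nat_lit 23) (nat_lit 2) (.n (nat_lit 24) (nat_lit 3) (.p (nat_lit 25) (nat_lit 2) (.n (nat_lit 26) (nat_lit 3) (.n (nat_lit 27) (nat_lit 2) (.p (nat_lit 28) (nat_lit 1) (.n (nat_lit 29) (nat_lit 3) (.p (nat_lit 31) (nat_lit 2) (.n (nat_lit 32) (nat_lit 2) (.p (nat_lit 34) (nat_lit 2) (.n (nat_lit 35) (nat_lit 2) (.n (nat_lit 36) (nat_lit 2) (.p (nat_lit 37) (nat_lit 1) (.p (nat_lit 39) (nat_lit 6) (.n (nat_lit 40) (nat_lit 1) (.p (nat_lit 42) (nat_lit 1) (.n (nat_lit 44) (nat_lit 1) (.n (nat_lit 46) (nat_lit 4) (.p (nat_lit 47) (nat_lit 1) (.n (nat_lit 48) (nat_lit 1) (.n (nat_lit 55) (nat_lit 1) (.p (nat_lit 302) (nat_lit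 1) (.p (nat_lit 315) (nat_lit 1) (.p (nat_lit 316) (nat_lit 1) (.p (nat_lit 319) (nat_lit 1) (.n (nat_lit 323) (nat_lit 1) (.n (nat_lit 326) (nat_lit 1) (.n (nat_lit 327) (nat_lit 1) .z)))))))))))))))))))))))))))))))))))))))))))))) .nil)))))))))))))))))))))))))

noncomputable def dC2b_i58 : IL := (.e true (nat_lit 2) (nat_lit 215) (nat_lit 2) (nat_lit 16) (.e true (nat_lit 2) (nat_lit 216) (nat_lit 2) (nat_lit 16) (.e false (nat_lit 3) (nat_lit 217) (nat_lit 2) (nat_lit 16) (.e false (nat_lit 3) (nat_lit 218) (nat_lit 2) (nat_lit 16) (.e false (nat_lit 3) (nat_lit 219) (nat_lit 2) (nat_lit 16) (.e false (nat_lit 2) (nat_lit 221) (nat_lit 2) (nat_lit 16) (.e false (nat_lit 3) (nat_lit 222) (nat_lit 2) (nat_lit 16) (.e false (nat_lit 3) (nat_lit 225) (nat_lit 2) (nat_lit 16) (.e true (nat_lit 3) (nat_lit 226) (nat_lit 2) (nat_lit 16) (.e false (nat_lit 2) (nat_lit 227) (nat_lit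 2) (nat_lit 16) (.e false (nat_lit 1) (nat_lit 228) (nat_lit 2) (nat_lit 16) (.e true (nat_lit 1) (nat_lit 229) (nat_lit 2) (nat_lit 16) (.e true (nat_lit 3) (nat_lit 230) (nat_lit 2) (nat_lit 16) (.e true (nat_lit 1) (nat_lit 231) (nat_lit 2) (nat_lit 16) (.e true (nat_lit 1) (nat_lit 232) (nat_lit 2) (nat_lit 16) (.e false (nat_lit 1) (nat_lit 234) (nat_lit 2) (nat_lit 16) (.e false (nat_lit 1) (nat_lit 243) (nat_lit 2) (nat_lit 16) (.e true (nat_lit 1) (nat_lit 244) (nat_lit 2) (nat_lit 16) (.e true (nat_lit 1) (nat_lit 246) (nat_lit 2) (nat_lit 16) (.e true (nat_lit 1) (nat_lit 247) (nat_lit 2) (nat_lit 16) (.e false (nat_lit 1) (nat_lit 248) (nat_lit 2) (nat_lit 16) (.e false (nat_lit 1) (nat_lit 249) (nat_lit 2) (nat_lit 16) (.e true (nat_lit 1) (nat_lit 250) (nat_lit 2) (nat_lit 16) (.e false (nat_lit 3) (nat_lit 251) (nat_lit 2) (nat_lit 16) (.u (nat_lit 2) (.n (nat_lit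 0) (nat_lit 1) (.p (nat_lit 1) (nat_lit 5) (.n (nat_lit 2) (nat_lit 5) (.p (nat_lit 3) (nat_lit 1) (.n (nat_lit 4) (nat_lit 5) (.p (nat_lit 5) (nat_lit 4) (.p (nat_lit 6) (nat_lit 3) (.n (nat_lit 7) (nat_lit 7) (.p (nat_lit 8) (nat_lit 4) (.p (nat_lit 9) (nat_lit 1) (.p (nat_lit 10) (nat_lit 2) (.n (nat_lit 11) (nat_lit 4) (.p (nat_lit 12) (nat_lit 1) (.p (nat_lit 14) (nat_lit 3) (.p (nat_lit 15) (nat_lit 3) (.p (nat_lit 16) (nat_lit 1) (.p (nat_lit 17) (nat_lit 1) (.n (nat_lit 18) (nat_lit 3) (.n (nat_lit 19) (nat_lit 2) (.n (nat_lit 20) (nat_lit 3) (.p (nat_lit 21) (nat_lit 1) (.n (nat_lit 22) (nat_lit 1) (.p (nat_lit 23) (nat_lit 1) (.p (nat_lit 24) (nat_lit 1) (.p (nat_lit 25) (nat_lit 5) (.p (nat_lit 27) (nat_lit 4) (.n (nat_lit 28) (nat_lit 4) (.p (nat_lit 29) (nat_lit 2) (.p (nat_lit 31) (nat_lit 4) (.p (nat_lit 32) (nat_lit 1) (.p (nat_lit 33) (nat_lit 1) (.n (nat_lit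 34) (nat_lit 3) (.p (nat_lit 36) (nat_lit 4) (.p (nat_lit 37) (nat_lit 2) (.n (nat_lit 38) (nat_lit 1) (.p (nat_lit 39) (nat_lit 3) (.n (nat_lit 40) (nat_lit 2) (.n (nat_lit 44) (nat_lit 2) (.n (nat_lit 45) (nat_lit 3) (.n (nat_lit 46) (nat_lit 5) (.p (nat_lit 47) (nat_lit 5) (.p (nat_lit 48) (nat_lit 2) (.p (nat_lit 52) (nat_lit 1) (.n (nat_lit 55) (nat_lit 1) .z)))))))))))))))))))))))))))))))))))))))))))) .nil)))))))))))))))))))))))))

noncomputable def dC2b_i59 : IL := (.e true (nat_lit 2) (nat_lit 211) (nat_lit 2) (nat_lit 16) (.e false (nat_lit 1) (nat_lit 213) (nat_lit 2) (nat_lit 16) (.e false (nat_lit 1) (nat_lit 214) (nat_lit 2) (nat_lit 16) (.e true (nat_lit 2) (nat_lit 215) (nat_lit 2) (nat_lit 16) (.e true (nat_lit 3) (nat_lit 216) (nat_lit 2) (nat_lit 16) (.e true (nat_lit 1) (nat_lit 218) (nat_lit 2) (nat_lit 16) (.e true (nat_lit 3) (nat_lit 219) (nat_lit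 2) (nat_lit 16) (.e true (nat_lit 1) (nat_lit 220) (nat_lit 2) (nat_lit 16) (.e true (nat_lit 3) (nat_lit 221) (nat_lit 2) (nat_lit 16) (.e false (nat_lit 3) (nat_lit 222) (nat_lit 2) (nat_lit 16) (.e true (nat_lit 3) (nat_lit 225) (nat_lit 2) (nat_lit 16) (.e false (nat_lit 2) (nat_lit 226) (nat_lit 2) (nat_lit 16) (.e true (nat_lit 2) (nat_lit 227) (nat_lit 2) (nat_lit 16) (.e true (nat_lit 2) (nat_lit 228) (nat_lit 2) (nat_lit 16) (.e false (nat_lit 3) (nat_lit 229) (nat_lit 2) (nat_lit 16) (.e false (nat_lit 3) (nat_lit 230) (nat_lit 2) (nat_lit 16) (.e false (nat_lit 2) (nat_lit 231) (nat_lit 2) (nat_lit 16) (.e true (nat_lit 1) (nat_lit 235) (nat_lit 2) (nat_lit 16) (.e true (nat_lit 1) (nat_lit 242) (nat_lit 2) (nat_lit 16) (.e false (nat_lit 3) (nat_lit 245) (nat_lit 2) (nat_lit 16) (.e false (nat_lit 2) (nat_lit 246) (nat_lit 2) (nat_lit 16) (.e false (nat_lit 2)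 (nat_lit 247) (nat_lit 2) (nat_lit 16) (.e false (nat_lit 3) (nat_lit 248) (nat_lit 2) (nat_lit 16) (.e true (nat_lit 3) (nat_lit 251) (nat_lit 2) (nat_lit 16) (.u (nat_lit 2) (.n (nat_lit 0) (nat_lit 4) (.n (nat_lit 1) (nat_lit 6) (.p (nat_lit 2) (nat_lit 5) (.p (nat_lit 3) (nat_lit 5) (.p (nat_lit 4) (nat_lit 3) (.n (nat_lit 5) (nat_lit 5) (.n (nat_lit 6) (nat_lit 2) (.p (nat_lit 7) (nat_lit 2) (.n (nat_lit 8) (nat_lit 3) (.p (nat_lit 10) (nat_lit 1) (.p (nat_lit 11) (nat_lit 2) (.n (nat_lit 14) (nat_lit 6) (.n (nat_lit 15) (nat_lit 2) (.n (nat_lit 16) (nat_lit 2) (.n (nat_lit 17) (nat_lit 4) (.p (nat_lit 18) (nat_lit 3) (.n (nat_lit 19) (nat_lit 1) (.p (nat_lit 21) (nat_lit 3) (.n (nat_lit 22) (nat_lit 3) (.p (nat_lit 23) (nat_lit 4) (.n (nat_lit 24) (nat_lit 4) (.n (nat_lit 26) (nat_lit 1) (.n (nat_lit 27) (nat_lit 4) (.p (nat_lit 28) (nat_lit 1) (.p (nat_lit 29) (nat_lit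 1) (.n (nat_lit 31) (nat_lit 1) (.p (nat_lit 32) (nat_lit 2) (.p (nat_lit 33) (nat_lit 1) (.p (nat_lit 34) (nat_lit 2) (.p (nat_lit 35) (nat_lit 1) (.n (nat_lit 36) (nat_lit 5) (.n (nat_lit 37) (nat_lit 2) (.n (nat_lit 38) (nat_lit 1) (.n (nat_lit 39) (nat_lit 4) (.n (nat_lit 40) (nat_lit 2) (.p (nat_lit 44) (nat_lit 2) (.p (nat_lit 45) (nat_lit 2) (.n (nat_lit 46) (nat_lit 3) (.n (nat_lit 47) (nat_lit 3) (.n (nat_lit 48) (nat_lit 3) (.n (nat_lit 52) (nat_lit 1) (.n (nat_lit 319) (nat_lit 1) .z)))))))))))))))))))))))))))))))))))))))))) .nil)))))))))))))))))))))))))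

noncomputable def dC2b_i60 : IL := (.e false (nat_lit 1) (nat_lit 106) (nat_lit 2) (nat_lit 12) (.e true (nat_lit 2) (nat_lit 107) (nat_lit 2) (nat_lit 12) (.e true (nat_lit 3) (nat_lit 108) (nat_lit 2) (nat_lit 12) (.e false (nat_lit 2) (nat_lit 110) (nat_lit 2) (nat_lit 12) (.e true (nat_lit 3) (nat_lit 113) (nat_lit 2) (nat_lit 12) (.e true (nat_lit 1) (nat_lit 114) (nat_lit 2) (nat_lit 12) (.e false (nat_lit 3) (nat_lit 115) (nat_lit 2) (nat_lit 12) (.e true (nat_lit 3) (nat_lit 116) (nat_lit 2) (nat_lit 12) (.e true (nat_lit 2) (nat_lit 117) (nat_lit 2) (nat_lit 12) (.e false (nat_lit 2) (nat_lit 119) (nat_lit 2) (nat_lit 12) (.e false (nat_lit 3) (nat_lit 120) (nat_lit 2) (nat_lit 12) (.e true (nat_lit 3) (nat_lit 122) (nat_lit 2) (nat_lit 12) (.e false (nat_lit 2) (nat_lit 123) (nat_lit 2) (nat_lit 12) (.e false (nat_lit 1) (nat_lit 124) (nat_lit 2) (nat_lit 12)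 (.e true (nat_lit 1) (nat_lit 126) (nat_lit 2) (nat_lit 12) (.e true (nat_lit 2) (nat_lit 127) (nat_lit 2) (nat_lit 12) (.e false (nat_lit 1) (nat_lit 128) (nat_lit 2) (nat_lit 12) (.e true (nat_lit 3) (nat_lit 130) (nat_lit 2) (nat_lit 12) (.e true (nat_lit 3) (nat_lit 131) (nat_lit 2) (nat_lit 12) (.e true (nat_lit 1) (nat_lit 133) (nat_lit 1) (nat_lit 13) (.e false (nat_lit 1) (nat_lit 135) (nat_lit 1) (nat_lit 13) (.e true (nat_lit 1) (nat_lit 138) (nat_lit 1) (nat_lit 13) (.e false (nat_lit 1) (nat_lit 140) (nat_lit 1) (nat_lit 13) (.e false (nat_lit 1) (nat_lit 144) (nat_lit 1) (nat_lit 13) (.u (nat_lit 2) (.p (nat_lit 3) (nat_lit 1) .z) .nil)))))))))))))))))))))))))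

noncomputable def dC2b_i61 : IL := (.e false (nat_lit 1) (nat_lit 215) (nat_lit 2) (nat_lit 16) (.e true (nat_lit 1) (nat_lit 216) (nat_lit 2) (nat_lit 16) (.e false (nat_lit 1) (nat_lit 217) (nat_lit 2) (nat_lit 16) (.e true (nat_lit 2) (nat_lit 218) (nat_lit 2) (nat_lit 16) (.e true (nat_lit 3) (nat_lit 220) (nat_lit 2) (nat_lit 16) (.e false (nat_lit 3) (nat_lit 221) (nat_lit 2) (nat_lit 16) (.e false (nat_lit 2) (nat_lit 222) (nat_lit 2) (nat_lit 16) (.e false (nat_lit 1) (nat_lit 225) (nat_lit 2) (nat_lit 16) (.e true (nat_lit 2) (nat_lit 226) (nat_lit 2) (nat_lit 16) (.e false (nat_lit 1) (nat_lit 227) (nat_lit 2) (nat_lit 16) (.e true (nat_lit 1) (nat_lit 228) (nat_lit 2) (nat_lit 16) (.e true (nat_lit 1) (nat_lit 231) (nat_lit 2) (nat_lit 16) (.e true (nat_lit 3) (nat_lit 232) (nat_lit 2) (nat_lit 16) (.e true (nat_lit 1) (nat_lit 234) (nat_lit 2) (nat_lit 16) (.e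 false (nat_lit 1) (nat_lit 235) (nat_lit 2) (nat_lit 16) (.e true (nat_lit 1) (nat_lit 236) (nat_lit 2) (nat_lit 16) (.e false (nat_lit 1) (nat_lit 242) (nat_lit 2) (nat_lit 16) (.e false (nat_lit 3) (nat_lit 243) (nat_lit 2) (nat_lit 16) (.e true (nat_lit 3) (nat_lit 244) (nat_lit 2) (nat_lit 16) (.e true (nat_lit 3) (nat_lit 245) (nat_lit 2) (nat_lit 16) (.e true (nat_lit 2) (nat_lit 247) (nat_lit 2) (nat_lit 16) (.e true (nat_lit 2) (nat_lit 249) (nat_lit 2) (nat_lit 16) (.e false (nat_lit 3) (nat_lit 250) (nat_lit 2) (nat_lit 16) (.e true (nat_lit 2) (nat_lit 251) (nat_lit 2) (nat_lit 16) (.u (nat_lit 2) (.p (nat_lit 0) (nat_lit 4) (.n (nat_lit 1) (nat_lit 1) (.n (nat_lit 2) (nat_lit 1) (.p (nat_lit 3) (nat_lit 4) (.p (nat_lit 4) (nat_lit 1) (.p (nat_lit 5) (nat_lit 3) (.p (nat_lit 6) (nat_lit 4) (.p (nat_lit 7) (nat_lit 4) (.n (nat_lit 8) (nat_lit 1) (.n (nat_lit 9)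 (nat_lit 2) (.p (nat_lit 10) (nat_lit 1) (.n (nat_lit 11) (nat_lit 7) (.p (nat_lit 12) (nat_lit 1) (.p (nat_lit 14) (nat_lit 3) (.n (nat_lit 15) (nat_lit 4) (.p (nat_lit 16) (nat_lit 1) (.p (nat_lit 17) (nat_lit 6) (.n (nat_lit 18) (nat_lit 4) (.p (nat_lit 19) (nat_lit 3) (.n (nat_lit 20) (nat_lit 3) (.n (nat_lit 21) (nat_lit 3) (.p (nat_lit 22) (nat_lit 3) (.n (nat_lit 23) (nat_lit 5) (.n (nat_lit 24) (nat_lit 3) (.p (nat_lit 25) (nat_lit 6) (.p (nat_lit 27) (nat_lit 2) (.n (nat_lit 28) (nat_lit 4) (.n (nat_lit 29) (nat_lit 3) (.p (nat_lit 31) (nat_lit 3) (.n (nat_lit 32) (nat_lit 1) (.n (nat_lit 33) (nat_lit 7) (.p (nat_lit 34) (nat_lit 4) (.n (nat_lit 35) (nat_lit 5) (.n (nat_lit 36) (nat_lit 3) (.p (nat_lit 37) (nat_lit 3) (.p (nat_lit 38) (nat_lit 7) (.p (nat_lit 39) (nat_lit 10) (.n (nat_lit 40) (nat_lit 2) (.n (nat_lit 44) (nat_lit 2) (.p (nat_lit 45) (nat_lit 2)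 (.p (nat_lit 46) (nat_lit 2) (.p (nat_lit 47) (nat_lit 3) (.p (nat_lit 48) (nat_lit 1) (.p (nat_lit 50) (nat_lit 1) (.n (nat_lit 51) (nat_lit 1) (.n (nat_lit 55) (nat_lit 2) (.n (nat_lit 57) (nat_lit 1) .z))))))))))))))))))))))))))))))))))))))))))))))) .nil)))))))))))))))))))))))))

noncomputable def dC2b_i62 : IL := (.e true (nat_lit 3) (nat_lit 254) (nat_lit 1) (nat_lit 17) (.e false (nat_lit 3) (nat_lit 255) (nat_lit 1) (nat_lit 17) (.e true (nat_lit 3) (nat_lit 256) (nat_lit 1) (nat_lit 17) (.e false (nat_lit 3) (nat_lit 258) (nat_lit 1) (nat_lit 17) (.e false (nat_lit 1) (nat_lit 259) (nat_lit 1) (nat_lit 17) (.e true (nat_lit 3) (nat_lit 260) (nat_lit 1) (nat_lit 17) (.e true (nat_lit 3) (nat_lit 261) (nat_lit 1) (nat_lit 17) (.e true (nat_lit 3) (nat_lit 263) (nat_lit 1) (nat_lit 17) (.e true (nat_lit 2) (nat_lit 264) (nat_lit 1) (nat_lit 17) (.e false (nat_lit 3)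 (nat_lit 265) (nat_lit 1) (nat_lit 17) (.e true (nat_lit 3) (nat_lit 267) (nat_lit 1) (nat_lit 17) (.e true (nat_lit 2) (nat_lit 270) (nat_lit 1) (nat_lit 17) (.e false (nat_lit 2) (nat_lit 272) (nat_lit 1) (nat_lit 17) (.e true (nat_lit 2) (nat_lit 274) (nat_lit 1) (nat_lit 17) (.e false (nat_lit 1) (nat_lit 275) (nat_lit 1) (nat_lit 17) (.e true (nat_lit 1) (nat_lit 286) (nat_lit 1) (nat_lit 17) (.e false (nat_lit 2) (nat_lit 205) (nat_lit 2) (nat_lit 16) (.e false (nat_lit 1) (nat_lit 206) (nat_lit 2) (nat_lit 16) (.e true (nat_lit 1) (nat_lit 207) (nat_lit 2) (nat_lit 16) (.e false (nat_lit 2) (nat_lit 208) (nat_lit 2) (nat_lit 16) (.e true (nat_lit 1) (nat_lit 209) (nat_lit 2) (nat_lit 16) (.e false (nat_lit 3) (nat_lit 210) (nat_lit 2) (nat_lit 16) (.e false (nat_lit 1) (nat_lit 211) (nat_lit 2) (nat_lit 16) (.e true (nat_lit 3) (nat_lit 212) (nat_lit 2) (nat_lit 16)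 (.e false (nat_lit 3) (nat_lit 213) (nat_lit 2) (nat_lit 16) dC2b_i61)))))))))))))))))))))))))

noncomputable def dC2b_c306 : Cm := .mk (nat_lit 162) (nat_lit 306) (nat_lit 106) (nat_lit 26) (.c (nat_lit 14) (nat_lit 2) (nat_lit 11) (nat_lit 3) (nat_lit 26) (.c (nat_lit 16) (nat_lit 2) (nat_lit 10) (nat_lit 1) (nat_lit 32) (.c (nat_lit 18) (nat_lit 2) (nat_lit 8) (nat_lit 2) (nat_lit 34) (.c (nat_lit 21) (nat_lit 3) (nat_lit 7) (nat_lit 1) (nat_lit 38) (.c (nat_lit 24) (nat_lit 6) (nat_lit 6) (nat_lit 1) (nat_lit 41) (.c (nat_lit 30) (nat_lit 3) (nat_lit 5) (nat_lit 1) (nat_lit 47) (.c (nat_lit 33) (nat_lit 6) (nat_lit 4) (nat_lit 1) (nat_lit 50) (.c (nat_lit 39) (nat_lit 3) (nat_lit 3) (nat_lit 1) (nat_lit 56) (.c (nat_lit 49) (nat_lit 11) (nat_lit 2) (nat_lit 1) (nat_lit 59) (.c (nat_lit 60) (nat_lit 14) (nat_lit 1) (nat_lit 1) (nat_lit 70) (.c (nat_lit 74) (nat_lit 6)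 (nat_lit 0) (nat_lit 1) (nat_lit 84) .nil)))))))))))

noncomputable def dC2b_i63 : IL := (.e false (nat_lit 1) (nat_lit 110) (nat_lit 2) (nat_lit 12) (.e false (nat_lit 3) (nat_lit 112) (nat_lit 2) (nat_lit 12) (.e false (nat_lit 1) (nat_lit 113) (nat_lit 2) (nat_lit 12) (.e true (nat_lit 3) (nat_lit 114) (nat_lit 2) (nat_lit 12) (.e true (nat_lit 2) (nat_lit 115) (nat_lit 2) (nat_lit 12) (.e false (nat_lit 1) (nat_lit 116) (nat_lit 2) (nat_lit 12) (.e false (nat_lit 2) (nat_lit 117) (nat_lit 2) (nat_lit 12) (.e true (nat_lit 1) (nat_lit 118) (nat_lit 2) (nat_lit 12) (.e false (nat_lit 2) (nat_lit 120) (nat_lit 2) (nat_lit 12) (.e false (nat_lit 1) (nat_lit 121) (nat_lit 2) (nat_lit 12) (.e true (nat_lit 3) (nat_lit 122) (nat_lit 2) (nat_lit 12) (.e false (nat_lit 2) (nat_lit 123) (nat_lit 2) (nat_lit 12) (.e false (nat_lit 1) (nat_lit 124) (nat_lit 2) (nat_lit 12) (.e true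 (nat_lit 1) (nat_lit 126) (nat_lit 2) (nat_lit 12) (.e true (nat_lit 1) (nat_lit 127) (nat_lit 2) (nat_lit 12) (.e false (nat_lit 2) (nat_lit 130) (nat_lit 2) (nat_lit 12) (.e false (nat_lit 3) (nat_lit 131) (nat_lit 2) (nat_lit 12) (.e false (nat_lit 1) (nat_lit 134) (nat_lit 1) (nat_lit 13) (.e false (nat_lit 1) (nat_lit 137) (nat_lit 1) (nat_lit 13) (.e true (nat_lit 1) (nat_lit 138) (nat_lit 1) (nat_lit 13) (.e false (nat_lit 1) (nat_lit 140) (nat_lit 1) (nat_lit 13) (.e false (nat_lit 1) (nat_lit 141) (nat_lit 1) (nat_lit 13) (.e false (nat_lit 1) (nat_lit 143) (nat_lit 1) (nat_lit 13) (.e false (nat_lit 1) (nat_lit 144) (nat_lit 1) (nat_lit 13) (.u (nat_lit 2) (.p (nat_lit 1) (nat_lit 1) (.p (nat_lit 2) (nat_lit 1) (.n (nat_lit 5) (nat_lit 1) (.p (nat_lit 6) (nat_lit 1) (.p (nat_lit 7) (nat_lit 1) (.p (nat_lit 11) (nat_lit 1) (.p (nat_lit 13) (nat_lit 1) (.p (nat_lit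 14) (nat_lit 1) (.n (nat_lit 16) (nat_lit 1) (.p (nat_lit 17) (nat_lit 1) (.n (nat_lit 20) (nat_lit 1) (.n (nat_lit 21) (nat_lit 1) (.n (nat_lit 27) (nat_lit 1) (.p (nat_lit 43) (nat_lit 1) .z)))))))))))))) .nil)))))))))))))))))))))))))

noncomputable def dC2b_i64 : IL := (.e false (nat_lit 3) (nat_lit 132) (nat_lit 2) (nat_lit 11) (.e true (nat_lit 1) (nat_lit 134) (nat_lit 2) (nat_lit 11) (.e false (nat_lit 2) (nat_lit 136) (nat_lit 2) (nat_lit 11) (.e false (nat_lit 1) (nat_lit 137) (nat_lit 2) (nat_lit 11) (.e false (nat_lit 2) (nat_lit 138) (nat_lit 2) (nat_lit 11) (.e true (nat_lit 2) (nat_lit 139) (nat_lit 2) (nat_lit 11) (.e false (nat_lit 3) (nat_lit 140) (nat_lit 2) (nat_lit 11) (.e true (nat_lit 1) (nat_lit 141) (nat_lit 2) (nat_lit 11) (.e false (nat_lit 3) (nat_lit 143) (nat_lit 2) (nat_lit 11) (.e true (nat_lit 2) (nat_lit 144) (nat_lit 2) (nat_lit 11) (.e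 true (nat_lit 2) (nat_lit 145) (nat_lit 2) (nat_lit 11) (.e false (nat_lit 2) (nat_lit 146) (nat_lit 2) (nat_lit 11) (.e false (nat_lit 3) (nat_lit 147) (nat_lit 2) (nat_lit 11) (.e false (nat_lit 3) (nat_lit 149) (nat_lit 2) (nat_lit 11) (.e false (nat_lit 2) (nat_lit 150) (nat_lit 2) (nat_lit 11) (.e false (nat_lit 1) (nat_lit 151) (nat_lit 2) (nat_lit 11) (.e false (nat_lit 3) (nat_lit 152) (nat_lit 2) (nat_lit 11) (.e false (nat_lit 2) (nat_lit 153) (nat_lit 2) (nat_lit 11) (.e false (nat_lit 2) (nat_lit 155) (nat_lit 2) (nat_lit 11) (.e true (nat_lit 1) (nat_lit 156) (nat_lit 2) (nat_lit 11) (.e true (nat_lit 3) (nat_lit 157) (nat_lit 2) (nat_lit 11) (.e false (nat_lit 1) (nat_lit 35) (nat_lit 18) (nat_lit 1) (.e true (nat_lit 1) (nat_lit 142) (nat_lit 2) (nat_lit 11) (.e false (nat_lit 1) (nat_lit 171) (nat_lit 1) (nat_lit 12) (.u (nat_lit 2) (.p (nat_lit 0) (nat_lit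 1) (.p (nat_lit 2) (nat_lit 1) (.n (nat_lit 5) (nat_lit 1) (.n (nat_lit 7) (nat_lit 1) (.p (nat_lit 17) (nat_lit 1) (.p (nat_lit 20) (nat_lit 1) (.p (nat_lit 23) (nat_lit 1) (.n (nat_lit 117) (nat_lit 1) (.n (nat_lit 121) (nat_lit 1) (.n (nat_lit 128) (nat_lit 1) (.p (nat_lit 130) (nat_lit 1) (.n (nat_lit 135) (nat_lit 1) (.n (nat_lit 137) (nat_lit 1) (.n (nat_lit 138) (nat_lit 1) (.p (nat_lit 142) (nat_lit 1) .z))))))))))))))) .nil)))))))))))))))))))))))))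

noncomputable def dC2b_i65 : IL := (.e false (nat_lit 3) (nat_lit 254) (nat_lit 1) (nat_lit 17) (.e true (nat_lit 2) (nat_lit 255) (nat_lit 1) (nat_lit 17) (.e false (nat_lit 1) (nat_lit 256) (nat_lit 1) (nat_lit 17) (.e true (nat_lit 3) (nat_lit 257) (nat_lit 1) (nat_lit 17) (.e true (nat_lit 3) (nat_lit 258) (nat_lit 1) (nat_lit 17) (.e false (nat_lit 1) (nat_lit 259) (nat_lit 1) (nat_lit 17) (.e true (nat_lit 3) (nat_lit 260) (nat_lit 1) (nat_lit 17) (.e true (nat_lit 2) (nat_lit 262) (nat_lit 1) (nat_lit 17) (.e true (nat_lit 1) (nat_lit 263) (nat_lit 1) (nat_lit 17) (.e false (nat_lit 3) (nat_lit 264) (nat_lit 1) (nat_lit 17) (.e false (nat_lit 1) (nat_lit 265) (nat_lit 1) (nat_lit 17) (.e true (nat_lit 3) (nat_lit 266) (nat_lit 1) (nat_lit 17) (.e true (nat_lit 3) (nat_lit 267) (nat_lit 1) (nat_lit 17) (.e true (nat_lit 2) (nat_lit 270) (nat_lit 1) (nat_lit 17) (.e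 true (nat_lit 3) (nat_lit 271) (nat_lit 1) (nat_lit 17) (.e true (nat_lit 1) (nat_lit 272) (nat_lit 1) (nat_lit 17) (.e true (nat_lit 3) (nat_lit 273) (nat_lit 1) (nat_lit 17) (.e false (nat_lit 1) (nat_lit 275) (nat_lit 1) (nat_lit 17) (.e false (nat_lit 3) (nat_lit 276) (nat_lit 1) (nat_lit 17) (.e false (nat_lit 2) (nat_lit 277) (nat_lit 1) (nat_lit 17) (.e true (nat_lit 1) (nat_lit 284) (nat_lit 1) (nat_lit 17) (.e true (nat_lit 1) (nat_lit 285) (nat_lit 1) (nat_lit 17) (.e false (nat_lit 1) (nat_lit 286) (nat_lit 1) (nat_lit 17) (.e true (nat_lit 1) (nat_lit 236) (nat_lit 2) (nat_lit 16) (.u (nat_lit 2) (.p (nat_lit 0) (nat_lit 4) (.p (nat_lit 1) (nat_lit 7) (.n (nat_lit 2) (nat_lit 5) (.p (nat_lit 3) (nat_lit 4) (.n (nat_lit 4) (nat_lit 5) (.n (nat_lit 5) (nat_lit 3) (.p (nat_lit 6) (nat_lit 2) (.n (nat_lit 7) (nat_lit 3) (.p (nat_lit 8) (nat_lit 4) (.p (nat_lit 9)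 (nat_lit 2) (.p (nat_lit 10) (nat_lit 3) (.p (nat_lit 12) (nat_lit 6) (.n (nat_lit 14) (nat_lit 1) (.p (nat_lit 16) (nat_lit 1) (.p (nat_lit 17) (nat_lit 5) (.n (nat_lit 18) (nat_lit 2) (.n (nat_lit 19) (nat_lit 3) (.n (nat_lit 20) (nat_lit 3) (.p (nat_lit 21) (nat_lit 1) (.n (nat_lit 22) (nat_lit 1) (.p (nat_lit 24) (nat_lit 3) (.p (nat_lit 25) (nat_lit 1) (.n (nat_lit 26) (nat_lit 1) (.n (nat_lit 28) (nat_lit 3) (.n (nat_lit 29) (nat_lit 1) (.p (nat_lit 31) (nat_lit 2) (.p (nat_lit 32) (nat_lit 1) (.p (nat_lit 33) (nat_lit 1) (.n (nat_lit 34) (nat_lit 3) (.p (nat_lit 35) (nat_lit 1) (.p (nat_lit 36) (nat_lit 5) (.p (nat_lit 37) (nat_lit 3) (.n (nat_lit 38) (nat_lit 1) (.p (nat_lit 39) (nat_lit 1) (.n (nat_lit 40) (nat_lit 1) (.n (nat_lit 42) (nat_lit 2) (.n (nat_lit 44) (nat_lit 1) (.n (nat_lit 45) (nat_lit 4) (.n (nat_lit 46) (nat_lit 4) (.p (nat_lit 47) (nat_lit 4) (.p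 (nat_lit 48) (nat_lit 1) (.p (nat_lit 52) (nat_lit 1) .z)))))))))))))))))))))))))))))))))))))))))) .nil)))))))))))))))))))))))))

noncomputable def dC2b_i66 : IL := (.e true (nat_lit 3) (nat_lit 217) (nat_lit 2) (nat_lit 16) (.e false (nat_lit 1) (nat_lit 218) (nat_lit 2) (nat_lit 16) (.e true (nat_lit 3) (nat_lit 220) (nat_lit 2) (nat_lit 16) (.e false (nat_lit 3) (nat_lit 221) (nat_lit 2) (nat_lit 16) (.e false (nat_lit 3) (nat_lit 222) (nat_lit 2) (nat_lit 16) (.e true (nat_lit 2) (nat_lit 223) (nat_lit 2) (nat_lit 16) (.e false (nat_lit 1) (nat_lit 225) (nat_lit 2) (nat_lit 16) (.e false (nat_lit 3) (nat_lit 227) (nat_lit 2) (nat_lit 16) (.e true (nat_lit 2) (nat_lit 229) (nat_lit 2) (nat_lit 16) (.e true (nat_lit 1) (nat_lit 230) (nat_lit 2) (nat_lit 16) (.e true (nat_lit 1) (nat_lit 231) (nat_lit 2) (nat_lit 16) (.e true (nat_lit 3) (nat_lit 232) (nat_lit 2) (nat_lit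 16) (.e false (nat_lit 1) (nat_lit 234) (nat_lit 2) (nat_lit 16) (.e true (nat_lit 1) (nat_lit 236) (nat_lit 2) (nat_lit 16) (.e false (nat_lit 2) (nat_lit 242) (nat_lit 2) (nat_lit 16) (.e true (nat_lit 1) (nat_lit 243) (nat_lit 2) (nat_lit 16) (.e false (nat_lit 3) (nat_lit 244) (nat_lit 2) (nat_lit 16) (.e false (nat_lit 1) (nat_lit 245) (nat_lit 2) (nat_lit 16) (.e true (nat_lit 2) (nat_lit 246) (nat_lit 2) (nat_lit 16) (.e false (nat_lit 3) (nat_lit 248) (nat_lit 2) (nat_lit 16) (.e false (nat_lit 1) (nat_lit 249) (nat_lit 2) (nat_lit 16) (.e false (nat_lit 3) (nat_lit 250) (nat_lit 2) (nat_lit 16) (.e false (nat_lit 3) (nat_lit 251) (nat_lit 2) (nat_lit 16) (.e false (nat_lit 2) (nat_lit 226) (nat_lit 2) (nat_lit 16) (.u (nat_lit 2) (.p (nat_lit 0) (nat_lit 5) (.p (nat_lit 1) (nat_lit 2) (.n (nat_lit 2) (nat_lit 4) (.n (nat_lit 3) (nat_lit 2) (.p (nat_lit 4) (nat_lit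 3) (.n (nat_lit 5) (nat_lit 1) (.n (nat_lit 6) (nat_lit 1) (.p (nat_lit 7) (nat_lit 5) (.p (nat_lit 8) (nat_lit 3) (.p (nat_lit 9) (nat_lit 4) (.p (nat_lit 10) (nat_lit 2) (.n (nat_lit 11) (nat_lit 1) (.p (nat_lit 12) (nat_lit 3) (.n (nat_lit 15) (nat_lit 3) (.n (nat_lit 16) (nat_lit 3) (.p (nat_lit 17) (nat_lit 2) (.p (nat_lit 18) (nat_lit 5) (.p (nat_lit 19) (nat_lit 1) (.n (nat_lit 20) (nat_lit 1) (.n (nat_lit 21) (nat_lit 2) (.p (nat_lit 22) (nat_lit 2) (.n (nat_lit 23) (nat_lit 2) (.p (nat_lit 24) (nat_lit 3) (.p (nat_lit 25) (nat_lit 1) (.p (nat_lit 26) (nat_lit 5) (.p (nat_lit 27) (nat_lit 4) (.n (nat_lit 28) (nat_lit 4) (.p (nat_lit 31) (nat_lit 2) (.n (nat_lit 32) (nat_lit 2) (.n (nat_lit 33) (nat_lit 2) (.p (nat_lit 34) (nat_lit 3) (.n (nat_lit 35) (nat_lit 3) (.n (nat_lit 36) (nat_lit 4) (.p (nat_lit 37) (nat_lit 3) (.p (nat_lit 38) (nat_lit 2) (.p (nat_lit 39)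 (nat_lit 1) (.n (nat_lit 40) (nat_lit 2) (.n (nat_lit 42) (nat_lit 1) (.p (nat_lit 44) (nat_lit 2) (.n (nat_lit 45) (nat_lit 2) (.n (nat_lit 46) (nat_lit 2) (.p (nat_lit 47) (nat_lit 5) (.n (nat_lit 48) (nat_lit 1) (.n (nat_lit 49) (nat_lit 1) (.p (nat_lit 57) (nat_lit 1) (.n (nat_lit 306) (nat_lit 1) (.p (nat_lit 308) (nat_lit 1) (.p (nat_lit 309) (nat_lit 1) (.n (nat_lit 318) (nat_lit 1) (.n (nat_lit 319) (nat_lit 1) (.p (nat_lit 326) (nat_lit 1) (.p (nat_lit 327) (nat_lit 1) .z)))))))))))))))))))))))))))))))))))))))))))))))))))) .nil)))))))))))))))))))))))))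

noncomputable def dC2b_i67 : IL := (.e true (nat_lit 3) (nat_lit 260) (nat_lit 2) (nat_lit 14) (.e true (nat_lit 1) (nat_lit 253) (nat_lit 2) (nat_lit 14) (.e false (nat_lit 3) (nat_lit 254) (nat_lit 2) (nat_lit 14) (.e true (nat_lit 2) (nat_lit 255) (nat_lit 2) (nat_lit 14) (.e false (nat_lit 1) (nat_lit 256) (nat_lit 2) (nat_lit 14) (.e true (nat_lit 3) (nat_lit 257) (nat_lit 2) (nat_lit 14) (.e true (nat_lit 3) (nat_lit 258) (nat_lit 2) (nat_lit 14) (.e false (nat_lit 1) (nat_lit 259) (nat_lit 2) (nat_lit 14) (.e true (nat_lit 2) (nat_lit 262) (nat_lit 2) (nat_lit 14) (.e true (nat_lit 1) (nat_lit 263) (nat_lit 2) (nat_lit 14) (.e false (nat_lit 3) (nat_lit 264) (nat_lit 2) (nat_lit 14) (.e false (nat_lit 1) (nat_lit 265) (nat_lit 2) (nat_lit 14) (.e true (nat_lit 3) (nat_lit 266) (nat_lit 2) (nat_lit 14) (.e true (nat_lit 3) (nat_lit 267) (nat_lit 2) (nat_lit 14) (.e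 true (nat_lit 2) (nat_lit 270) (nat_lit 2) (nat_lit 14) (.e true (nat_lit 3) (nat_lit 271) (nat_lit 2) (nat_lit 14) (.e true (nat_lit 1) (nat_lit 272) (nat_lit 2) (nat_lit 14) (.e true (nat_lit 3) (nat_lit 273) (nat_lit 2) (nat_lit 14) (.e false (nat_lit 1) (nat_lit 275) (nat_lit 2) (nat_lit 14) (.e false (nat_lit 3) (nat_lit 276) (nat_lit 2) (nat_lit 14) (.e false (nat_lit 2) (nat_lit 277) (nat_lit 2) (nat_lit 14) (.e true (nat_lit 1) (nat_lit 284) (nat_lit 2) (nat_lit 14) (.e true (nat_lit 1) (nat_lit 285) (nat_lit 2) (nat_lit 14) (.e false (nat_lit 1) (nat_lit 286) (nat_lit 2) (nat_lit 14) (.u (nat_lit 2) (.p (nat_lit 1) (nat_lit 1) (.p (nat_lit 2) (nat_lit 1) (.p (nat_lit 3) (nat_lit 1) (.p (nat_lit 4) (nat_lit 3) (.n (nat_lit 5) (nat_lit 1) (.p (nat_lit 6) (nat_lit 3) (.p (nat_lit 8) (nat_lit 3) (.p (nat_lit 9) (nat_lit 2) (.n (nat_lit 10) (nat_lit 4) (.n (nat_lit 11)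 (nat_lit 2) (.p (nat_lit 12) (nat_lit 1) (.p (nat_lit 13) (nat_lit 1) (.p (nat_lit 14) (nat_lit 1) (.n (nat_lit 15) (nat_lit 1) (.n (nat_lit 16) (nat_lit 1) (.p (nat_lit 18) (nat_lit 4) (.n (nat_lit 23) (nat_lit 1) (.p (nat_lit 24) (nat_lit 2) (.p (nat_lit 25) (nat_lit 1) (.n (nat_lit 27) (nat_lit 1) (.n (nat_lit 30) (nat_lit 1) (.n (nat_lit 31) (nat_lit 1) (.n (nat_lit 34) (nat_lit 2) (.n (nat_lit 35) (nat_lit 1) .z)))))))))))))))))))))))) .nil)))))))))))))))))))))))))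

noncomputable def dC2b_i68 : IL := (.e false (nat_lit 2) (nat_lit 154) (nat_lit 1) (nat_lit 13) (.e false (nat_lit 1) (nat_lit 155) (nat_lit 1) (nat_lit 13) (.e true (nat_lit 2) (nat_lit 156) (nat_lit 1) (nat_lit 13) (.e true (nat_lit 2) (nat_lit 157) (nat_lit 1) (nat_lit 13) (.e false (nat_lit 1) (nat_lit 38) (nat_lit 15) (nat_lit 3) (.e false (nat_lit 3) (nat_lit 106) (nat_lit 2) (nat_lit 12) (.e true (nat_lit 1) (nat_lit 109) (nat_lit 2) (nat_lit 12) (.e false (nat_lit 3) (nat_lit 110) (nat_lit 2) (nat_lit 12) (.e true (nat_lit 2) (nat_lit 112) (nat_lit 2) (nat_lit 12) (.e true (nat_lit 1) (nat_lit 113) (nat_lit 2) (nat_lit 12) (.e false (nat_lit 2) (nat_lit 114) (nat_lit 2) (nat_lit 12) (.e false (nat_lit 1) (nat_lit 115) (nat_lit 2) (nat_lit 12) (.e false (nat_lit 2) (nat_lit 116) (nat_lit 2) (nat_lit 12) (.e true (nat_lit 2) (nat_lit 117) (nat_lit 2) (nat_lit 12)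 (.e true (nat_lit 1) (nat_lit 118) (nat_lit 2) (nat_lit 12) (.e true (nat_lit 3) (nat_lit 119) (nat_lit 2) (nat_lit 12) (.e false (nat_lit 1) (nat_lit 121) (nat_lit 2) (nat_lit 12) (.e true (nat_lit 1) (nat_lit 122) (nat_lit 2) (nat_lit 12) (.e true (nat_lit 2) (nat_lit 123) (nat_lit 2) (nat_lit 12) (.e false (nat_lit 2) (nat_lit 125) (nat_lit 2) (nat_lit 12) (.e false (nat_lit 2) (nat_lit 127) (nat_lit 2) (nat_lit 12) (.e true (nat_lit 1) (nat_lit 129) (nat_lit 2) (nat_lit 12) (.e true (nat_lit 2) (nat_lit 130) (nat_lit 2) (nat_lit 12) (.e true (nat_lit 2) (nat_lit 131) (nat_lit 2) (nat_lit 12) (.u (nat_lit 2) (.n (nat_lit 0) (nat_lit 1) (.p (nat_lit 1) (nat_lit 1) (.n (nat_lit 3) (nat_lit 3) (.p (nat_lit 4) (nat_lit 2) (.n (nat_lit 5) (nat_lit 1) (.p (nat_lit 7) (nat_lit 1) (.n (nat_lit 10) (nat_lit 2) (.p (nat_lit 11) (nat_lit 1) (.n (nat_lit 14) (nat_lit 2) (.p (nat_lit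 15) (nat_lit 1) (.p (nat_lit 16) (nat_lit 1) (.n (nat_lit 17) (nat_lit 2) (.n (nat_lit 20) (nat_lit 1) (.p (nat_lit 21) (nat_lit 2) (.p (nat_lit 22) (nat_lit 1) (.p (nat_lit 23) (nat_lit 1) (.p (nat_lit 24) (nat_lit 3) (.p (nat_lit 25) (nat_lit 3) (.p (nat_lit 26) (nat_lit 3) (.n (nat_lit 27) (nat_lit 1) (.n (nat_lit 29) (nat_lit 1) (.n (nat_lit 32) (nat_lit 1) (.p (nat_lit 34) (nat_lit 1) (.n (nat_lit 37) (nat_lit 1) (.p (nat_lit 38) (nat_lit 1) (.p (nat_lit 40) (nat_lit 3) (.n (nat_lit 41) (nat_lit 1) (.n (nat_lit 42) (nat_lit 1) (.n (nat_lit 43) (nat_lit 4) (.n (nat_lit 45) (nat_lit 3) (.n (nat_lit 46) (nat_lit 1) (.p (nat_lit 181) (nat_lit 1) .z)))))))))))))))))))))))))))))))) .nil)))))))))))))))))))))))))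

noncomputable def dC2b_i69 : IL := (.e false (nat_lit 1) (nat_lit 135) (nat_lit 2) (nat_lit 11) (.e false (nat_lit 3) (nat_lit 136) (nat_lit 2) (nat_lit 11) (.e true (nat_lit 2) (nat_lit 138) (nat_lit 2) (nat_lit 11) (.e true (nat_lit 2) (nat_lit 139) (nat_lit 2) (nat_lit 11) (.e false (nat_lit 2) (nat_lit 140) (nat_lit 2) (nat_lit 11) (.e true (nat_lit 1) (nat_lit 141) (nat_lit 2) (nat_lit 11) (.e false (nat_lit 3) (nat_lit 143) (nat_lit 2) (nat_lit 11) (.e false (nat_lit 3) (nat_lit 144) (nat_lit 2) (nat_lit 11) (.e false (nat_lit 3) (nat_lit 145) (nat_lit 2) (nat_lit 11) (.e true (nat_lit 2) (nat_lit 146) (nat_lit 2) (nat_lit 11) (.e false (nat_lit 1) (nat_lit 147) (nat_lit 2) (nat_lit 11) (.e true (nat_lit 2) (nat_lit 149) (nat_lit 2) (nat_lit 11) (.e false (nat_lit 3) (nat_lit 150) (nat_lit 2) (nat_lit 11) (.e true (nat_lit 3) (nat_lit 151) (nat_lit 2) (nat_lit 11)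 (.e false (nat_lit 3) (nat_lit 152) (nat_lit 2) (nat_lit 11) (.e false (nat_lit 3) (nat_lit 153) (nat_lit 2) (nat_lit 11) (.e true (nat_lit 2) (nat_lit 154) (nat_lit 2) (nat_lit 11) (.e false (nat_lit 3) (nat_lit 155) (nat_lit 2) (nat_lit 11) (.e false (nat_lit 3) (nat_lit 156) (nat_lit 2) (nat_lit 11) (.e true (nat_lit 3) (nat_lit 157) (nat_lit 2) (nat_lit 11) (.e false (nat_lit 1) (nat_lit 38) (nat_lit 18) (nat_lit 1) (.e true (nat_lit 3) (nat_lit 137) (nat_lit 2) (nat_lit 11) (.e false (nat_lit 1) (nat_lit 142) (nat_lit 2) (nat_lit 11) (.e false (nat_lit 1) (nat_lit 174) (nat_lit 1) (nat_lit 12) (.u (nat_lit 2) (.p (nat_lit 1) (nat_lit 1) (.n (nat_lit 2) (nat_lit 1) (.p (nat_lit 4) (nat_lit 1) (.n (nat_lit 5) (nat_lit 1) (.n (nat_lit 9) (nat_lit 1) (.p (nat_lit 15) (nat_lit 1) (.n (nat_lit 17) (nat_lit 1) (.p (nat_lit 18) (nat_lit 1) (.p (nat_lit 20) (nat_lit 1) (.p (nat_lit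 21) (nat_lit 1) (.n (nat_lit 33) (nat_lit 1) (.p (nat_lit 124) (nat_lit 1) (.n (nat_lit 125) (nat_lit 1) (.p (nat_lit 126) (nat_lit 1) (.n (nat_lit 130) (nat_lit 1) (.p (nat_lit 136) (nat_lit 1) (.p (nat_lit 139) (nat_lit 1) (.n (nat_lit 141) (nat_lit 1) .z)))))))))))))))))) .nil)))))))))))))))))))))))))

noncomputable def dC2b_i70 : IL := (.e true (nat_lit 1) (nat_lit 262) (nat_lit 1) (nat_lit 17) (.e true (nat_lit 3) (nat_lit 264) (nat_lit 1) (nat_lit 17) (.e false (nat_lit 2) (nat_lit 265) (nat_lit 1) (nat_lit 17) (.e true (nat_lit 3) (nat_lit 266) (nat_lit 1) (nat_lit 17) (.e true (nat_lit 1) (nat_lit 267) (nat_lit 1) (nat_lit 17) (.e false (nat_lit 1) (nat_lit 270) (nat_lit 1) (nat_lit 17) (.e false (nat_lit 2) (nat_lit 271) (nat_lit 1) (nat_lit 17) (.e true (nat_lit 1) (nat_lit 272) (nat_lit 1) (nat_lit 17) (.e true (nat_lit 3) (nat_lit 273) (nat_lit 1) (nat_lit 17)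 (.e true (nat_lit 2) (nat_lit 276) (nat_lit 1) (nat_lit 17) (.e false (nat_lit 1) (nat_lit 279) (nat_lit 1) (nat_lit 17) (.e false (nat_lit 1) (nat_lit 283) (nat_lit 1) (nat_lit 17) (.e true (nat_lit 2) (nat_lit 285) (nat_lit 1) (nat_lit 17) (.e true (nat_lit 1) (nat_lit 255) (nat_lit 1) (nat_lit 17) (.e true (nat_lit 2) (nat_lit 263) (nat_lit 1) (nat_lit 17) (.e true (nat_lit 3) (nat_lit 269) (nat_lit 1) (nat_lit 17) (.e false (nat_lit 2) (nat_lit 257) (nat_lit 1) (nat_lit 17) (.e true (nat_lit 2) (nat_lit 280) (nat_lit 1) (nat_lit 17) (.e false (nat_lit 1) (nat_lit 286) (nat_lit 1) (nat_lit 17) (.e true (nat_lit 1) (nat_lit 288) (nat_lit 1) (nat_lit 17) (.e false (nat_lit 3) (nat_lit 274) (nat_lit 1) (nat_lit 17) (.e false (nat_lit 1) (nat_lit 278) (nat_lit 1) (nat_lit 17) (.e false (nat_lit 1) (nat_lit 287) (nat_lit 1) (nat_lit 17) (.e false (nat_lit 3) (nat_lit 277)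 (nat_lit 1) (nat_lit 17) (.u (nat_lit 2) (.p (nat_lit 1) (nat_lit 2) (.n (nat_lit 2) (nat_lit 3) (.p (nat_lit 3) (nat_lit 1) (.n (nat_lit 5) (nat_lit 2) (.p (nat_lit 7) (nat_lit 1) (.n (nat_lit 8) (nat_lit 2) (.n (nat_lit 10) (nat_lit 1) (.p (nat_lit 15) (nat_lit 1) (.p (nat_lit 19) (nat_lit 1) (.n (nat_lit 20) (nat_lit 1) (.n (nat_lit 23) (nat_lit 1) (.p (nat_lit 24) (nat_lit 2) (.n (nat_lit 25) (nat_lit 3) (.n (nat_lit 28) (nat_lit 1) (.n (nat_lit 29) (nat_lit 2) (.p (nat_lit 32) (nat_lit 1) (.n (nat_lit 33) (nat_lit 1) (.p (nat_lit 34) (nat_lit 1) (.n (nat_lit 35) (nat_lit 1) (.p (nat_lit 36) (nat_lit 1) (.p (nat_lit 38) (nat_lit 1) (.p (nat_lit 39) (nat_lit 1) (.p (nat_lit 40) (nat_lit 1) (.n (nat_lit 46) (nat_lit 1) (.p (nat_lit 349) (nat_lit 1) (.p (nat_lit 350) (nat_lit 3) (.p (nat_lit 351) (nat_lit 2) (.p (nat_lit 352) (nat_lit 1) (.p (nat_lit 354) (nat_lit 1) (.n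 (nat_lit 355) (nat_lit 2) (.p (nat_lit 356) (nat_lit 5) (.n (nat_lit 357) (nat_lit 3) (.p (nat_lit 359) (nat_lit 4) (.p (nat_lit 360) (nat_lit 2) (.p (nat_lit 361) (nat_lit 2) (.n (nat_lit 364) (nat_lit 1) (.n (nat_lit 365) (nat_lit 1) (.p (nat_lit 367) (nat_lit 2) (.n (nat_lit 368) (nat_lit 2) (.n (nat_lit 369) (nat_lit 2) (.n (nat_lit 370) (nat_lit 1) (.p (nat_lit 372) (nat_lit 1) (.p (nat_lit 373) (nat_lit 3) (.p (nat_lit 376) (nat_lit 1) (.p (nat_lit 377) (nat_lit 1) (.n (nat_lit 378) (nat_lit 1) (.n (nat_lit 379) (nat_lit 2) (.p (nat_lit 380) (nat_lit 3) (.n (nat_lit 382) (nat_lit 3) (.n (nat_lit 383) (nat_lit 1) (.p (nat_lit 385) (nat_lit 1) .z))))))))))))))))))))))))))))))))))))))))))))))))))) .nil)))))))))))))))))))))))))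

noncomputable def dC2b_i71 : IL := (.e true (nat_lit 1) (nat_lit 214) (nat_lit 2) (nat_lit 16) (.e false (nat_lit 3) (nat_lit 216) (nat_lit 2) (nat_lit 16) (.e false (nat_lit 1) (nat_lit 217) (nat_lit 2) (nat_lit 16) (.e true (nat_lit 2) (nat_lit 219) (nat_lit 2) (nat_lit 16) (.e true (nat_lit 1) (nat_lit 220) (nat_lit 2) (nat_lit 16) (.e false (nat_lit 3) (nat_lit 221) (nat_lit 2) (nat_lit 16) (.e true (nat_lit 1) (nat_lit 222) (nat_lit 2) (nat_lit 16) (.e true (nat_lit 2) (nat_lit 224) (nat_lit 2) (nat_lit 16) (.e false (nat_lit 1) (nat_lit 225) (nat_lit 2) (nat_lit 16) (.e false (nat_lit 1) (nat_lit 226) (nat_lit 2) (nat_lit 16) (.e true (nat_lit 1) (nat_lit 227) (nat_lit 2) (nat_lit 16) (.e true (nat_lit 2) (nat_lit 230) (nat_lit 2) (nat_lit 16) (.e false (nat_lit 3) (nat_lit 231) (nat_lit 2) (nat_lit 16) (.e true (nat_lit 3) (nat_lit 232) (nat_lit 2) (nat_lit 16) (.e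 true (nat_lit 3) (nat_lit 234) (nat_lit 2) (nat_lit 16) (.e true (nat_lit 1) (nat_lit 237) (nat_lit 2) (nat_lit 16) (.e false (nat_lit 3) (nat_lit 242) (nat_lit 2) (nat_lit 16) (.e false (nat_lit 1) (nat_lit 243) (nat_lit 2) (nat_lit 16) (.e true (nat_lit 2) (nat_lit 244) (nat_lit 2) (nat_lit 16) (.e true (nat_lit 3) (nat_lit 245) (nat_lit 2) (nat_lit 16) (.e false (nat_lit 2) (nat_lit 246) (nat_lit 2) (nat_lit 16) (.e true (nat_lit 2) (nat_lit 248) (nat_lit 2) (nat_lit 16) (.e true (nat_lit 1) (nat_lit 249) (nat_lit 2) (nat_lit 16) (.e true (nat_lit 2) (nat_lit 250) (nat_lit 2) (nat_lit 16) (.u (nat_lit 2) (.p (nat_lit 0) (nat_lit 1) (.n (nat_lit 1) (nat_lit 1) (.p (nat_lit 2) (nat_lit 3) (.n (nat_lit 3) (nat_lit 1) (.n (nat_lit 4) (nat_lit 2) (.p (nat_lit 5) (nat_lit 1) (.p (nat_lit 6) (nat_lit 5) (.p (nat_lit 7) (nat_lit 3) (.n (nat_lit 8) (nat_lit 1) (.n (nat_lit 9)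 (nat_lit 4) (.n (nat_lit 11) (nat_lit 5) (.p (nat_lit 12) (nat_lit 4) (.p (nat_lit 14) (nat_lit 3) (.n (nat_lit 15) (nat_lit 3) (.p (nat_lit 17) (nat_lit 1) (.n (nat_lit 18) (nat_lit 3) (.n (nat_lit 19) (nat_lit 2) (.n (nat_lit 21) (nat_lit 4) (.p (nat_lit 22) (nat_lit 4) (.n (nat_lit 23) (nat_lit 5) (.p (nat_lit 25) (nat_lit 1) (.p (nat_lit 28) (nat_lit 1) (.n (nat_lit 29) (nat_lit 2) (.n (nat_lit 31) (nat_lit 1) (.n (nat_lit 33) (nat_lit 3) (.p (nat_lit 34) (nat_lit 2) (.n (nat_lit 35) (nat_lit 1) (.p (nat_lit 37) (nat_lit 1) (.p (nat_lit 38) (nat_lit 3) (.p (nat_lit 39) (nat_lit 7) (.n (nat_lit 45) (nat_lit 1) (.p (nat_lit 46) (nat_lit 4) (.p (nat_lit 47) (nat_lit 2) (.p (nat_lit 48) (nat_lit 1) (.n (nat_lit 50) (nat_lit 1) (.n (nat_lit 57) (nat_lit 1) .z)))))))))))))))))))))))))))))))))))) .nil)))))))))))))))))))))))))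

noncomputable def dC2b_i72 : IL := (.e true (nat_lit 1) (nat_lit 255) (nat_lit 2) (nat_lit 14) (.e true (nat_lit 1) (nat_lit 256) (nat_lit 2) (nat_lit 14) (.e true (nat_lit 1) (nat_lit 257) (nat_lit 2) (nat_lit 14) (.e false (nat_lit 2) (nat_lit 258) (nat_lit 2) (nat_lit 14) (.e false (nat_lit 2) (nat_lit 259) (nat_lit 2) (nat_lit 14) (.e true (nat_lit 2) (nat_lit 260) (nat_lit 2) (nat_lit 14) (.e false (nat_lit 1) (nat_lit 262) (nat_lit 2) (nat_lit 14) (.e true (nat_lit 2) (nat_lit 263) (nat_lit 2) (nat_lit 14) (.e true (nat_lit 2) (nat_lit 264) (nat_lit 2) (nat_lit 14) (.e false (nat_lit 1) (nat_lit 265) (nat_lit 2) (nat_lit 14) (.e true (nat_lit 1) (nat_lit 266) (nat_lit 2) (nat_lit 14) (.e false (nat_lit 2) (nat_lit 267) (nat_lit 2) (nat_lit 14) (.e true (nat_lit 3) (nat_lit 269) (nat_lit 2) (nat_lit 14) (.e true (nat_lit 1) (nat_lit 270) (nat_lit 2) (nat_lit 14) (.e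 false (nat_lit 3) (nat_lit 271) (nat_lit 2) (nat_lit 14) (.e true (nat_lit 1) (nat_lit 272) (nat_lit 2) (nat_lit 14) (.e false (nat_lit 2) (nat_lit 273) (nat_lit 2) (nat_lit 14) (.e false (nat_lit 1) (nat_lit 274) (nat_lit 2) (nat_lit 14) (.e true (nat_lit 1) (nat_lit 275) (nat_lit 2) (nat_lit 14) (.e true (nat_lit 3) (nat_lit 276) (nat_lit 2) (nat_lit 14) (.e true (nat_lit 3) (nat_lit 283) (nat_lit 2) (nat_lit 14) (.e false (nat_lit 1) (nat_lit 284) (nat_lit 2) (nat_lit 14) (.e true (nat_lit 3) (nat_lit 285) (nat_lit 2) (nat_lit 14) (.e true (nat_lit 1) (nat_lit 286) (nat_lit 2) (nat_lit 14) (.u (nat_lit 2) (.n (nat_lit 1) (nat_lit 2) (.n (nat_lit 2) (nat_lit 3) (.n (nat_lit 3) (nat_lit 1) (.p (nat_lit 5) (nat_lit 1) (.p (nat_lit 6) (nat_lit 1) (.n (nat_lit 9) (nat_lit 1) (.n (nat_lit 12) (nat_lit 2) (.p (nat_lit 15) (nat_lit 3) (.p (nat_lit 16) (nat_lit 3) (.p (nat_lit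 17) (nat_lit 1) (.p (nat_lit 18) (nat_lit 3) (.n (nat_lit 19) (nat_lit 3) (.n (nat_lit 21) (nat_lit 1) (.n (nat_lit 23) (nat_lit 1) (.n (nat_lit 25) (nat_lit 1) (.n (nat_lit 26) (nat_lit 1) (.n (nat_lit 30) (nat_lit 1) (.p (nat_lit 34) (nat_lit 2) (.p (nat_lit 35) (nat_lit 1) (.n (nat_lit 38) (nat_lit 1) .z)))))))))))))))))))) .nil)))))))))))))))))))))))))

noncomputable def dC2b_i73 : IL := (.e true (nat_lit 2) (nat_lit 60) (nat_lit 6) (nat_lit 8) (.e true (nat_lit 1) (nat_lit 62) (nat_lit 6) (nat_lit 8) (.e false (nat_lit 2) (nat_lit 64) (nat_lit 6) (nat_lit 8) (.e true (nat_lit 2) (nat_lit 65) (nat_lit 6) (nat_lit 8) (.e false (nat_lit 2) (nat_lit 66) (nat_lit 6) (nat_lit 8) (.e false (nat_lit 1) (nat_lit 67) (nat_lit 6) (nat_lit 8) (.e true (nat_lit 1) (nat_lit 68) (nat_lit 6) (nat_lit 8) (.e true (nat_lit 2) (nat_lit 71) (nat_lit 6) (nat_lit 8) (.e true (nat_lit 2)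 (nat_lit 72) (nat_lit 6) (nat_lit 8) (.e true (nat_lit 1) (nat_lit 73) (nat_lit 6) (nat_lit 8) (.e false (nat_lit 1) (nat_lit 153) (nat_lit 1) (nat_lit 13) (.e true (nat_lit 1) (nat_lit 47) (nat_lit 9) (nat_lit 6) (.e true (nat_lit 2) (nat_lit 107) (nat_lit 2) (nat_lit 12) (.e true (nat_lit 1) (nat_lit 108) (nat_lit 2) (nat_lit 12) (.e true (nat_lit 1) (nat_lit 109) (nat_lit 2) (nat_lit 12) (.e true (nat_lit 1) (nat_lit 110) (nat_lit 2) (nat_lit 12) (.e false (nat_lit 1) (nat_lit 112) (nat_lit 2) (nat_lit 12) (.e true (nat_lit 1) (nat_lit 113) (nat_lit 2) (nat_lit 12) (.e true (nat_lit 1) (nat_lit 114) (nat_lit 2) (nat_lit 12) (.e false (nat_lit 1) (nat_lit 115) (nat_lit 2) (nat_lit 12) (.e false (nat_lit 1) (nat_lit 116) (nat_lit 2) (nat_lit 12) (.e false (nat_lit 1) (nat_lit 118) (nat_lit 2) (nat_lit 12) (.e false (nat_lit 1) (nat_lit 131) (nat_lit 2) (nat_lit 12) (.e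 false (nat_lit 1) (nat_lit 50) (nat_lit 7) (nat_lit 7) (.u (nat_lit 2) (.p (nat_lit 0) (nat_lit 3) (.n (nat_lit 1) (nat_lit 1) (.n (nat_lit 4) (nat_lit 1) (.n (nat_lit 5) (nat_lit 1) (.p (nat_lit 6) (nat_lit 2) (.n (nat_lit 7) (nat_lit 1) (.n (nat_lit 8) (nat_lit 1) (.p (nat_lit 9) (nat_lit 1) (.p (nat_lit 14) (nat_lit 2) (.p (nat_lit 15) (nat_lit 1) (.p (nat_lit 16) (nat_lit 2) (.p (nat_lit 17) (nat_lit 1) (.p (nat_lit 20) (nat_lit 1) (.n (nat_lit 21) (nat_lit 1) (.p (nat_lit 22) (nat_lit 1) (.p (nat_lit 23) (nat_lit 1) (.n (nat_lit 25) (nat_lit 2) (.p (nat_lit 26) (nat_lit 1) (.n (nat_lit 27) (nat_lit 1) (.p (nat_lit 29) (nat_lit 1) (.n (nat_lit 40) (nat_lit 1) (.n (nat_lit 41) (nat_lit 2) (.n (nat_lit 42) (nat_lit 1) (.p (nat_lit 44) (nat_lit 1) (.p (nat_lit 46) (nat_lit 3) .z))))))))))))))))))))))))) .nil)))))))))))))))))))))))))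

noncomputable def dC2b_i74 : IL := (.e false (nat_lit 2) (nat_lit 152) (nat_lit 2) (nat_lit 11) (.e false (nat_lit 2) (nat_lit 153) (nat_lit 2) (nat_lit 11) (.e false (nat_lit 2) (nat_lit 154) (nat_lit 2) (nat_lit 11) (.e false (nat_lit 3) (nat_lit 155) (nat_lit 2) (nat_lit 11) (.e true (nat_lit 3) (nat_lit 132) (nat_lit 2) (nat_lit 11) (.e false (nat_lit 3) (nat_lit 133) (nat_lit 2) (nat_lit 11) (.e false (nat_lit 3) (nat_lit 134) (nat_lit 2) (nat_lit 11) (.e false (nat_lit 2) (nat_lit 135) (nat_lit 2) (nat_lit 11) (.e false (nat_lit 1) (nat_lit 136) (nat_lit 2) (nat_lit 11) (.e true (nat_lit 3) (nat_lit 138) (nat_lit 2) (nat_lit 11) (.e false (nat_lit 1) (nat_lit 142) (nat_lit 2) (nat_lit 11) (.e true (nat_lit 1) (nat_lit 143) (nat_lit 2) (nat_lit 11) (.e false (nat_lit 3) (nat_lit 144) (nat_lit 2) (nat_lit 11) (.e false (nat_lit 1) (nat_lit 147) (nat_lit 2) (nat_lit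 11) (.e true (nat_lit 1) (nat_lit 149) (nat_lit 2) (nat_lit 11) (.e false (nat_lit 3) (nat_lit 150) (nat_lit 2) (nat_lit 11) (.e false (nat_lit 3) (nat_lit 151) (nat_lit 2) (nat_lit 11) (.e true (nat_lit 3) (nat_lit 156) (nat_lit 2) (nat_lit 11) (.e true (nat_lit 1) (nat_lit 157) (nat_lit 2) (nat_lit 11) (.e false (nat_lit 1) (nat_lit 137) (nat_lit 2) (nat_lit 11) (.e false (nat_lit 1) (nat_lit 145) (nat_lit 2) (nat_lit 11) (.e false (nat_lit 1) (nat_lit 43) (nat_lit 14) (nat_lit 3) (.e false (nat_lit 1) (nat_lit 190) (nat_lit 0) (nat_lit 13) (.e true (nat_lit 1) (nat_lit 194) (nat_lit 0) (nat_lit 13) (.u (nat_lit 2) (.n (nat_lit 0) (nat_lit 1) (.p (nat_lit 1) (nat_lit 1) (.p (nat_lit 2) (nat_lit 2) (.n (nat_lit 3) (nat_lit 1) (.n (nat_lit 6) (nat_lit 1) (.n (nat_lit 9) (nat_lit 1) (.n (nat_lit 11) (nat_lit 1) (.p (nat_lit 12) (nat_lit 1) (.p (nat_lit 15) (nat_lit 1) (.p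 (nat_lit 17) (nat_lit 1) (.p (nat_lit 18) (nat_lit 1) (.n (nat_lit 20) (nat_lit 1) (.p (nat_lit 23) (nat_lit 1) (.p (nat_lit 24) (nat_lit 1) (.p (nat_lit 31) (nat_lit 1) (.n (nat_lit 33) (nat_lit 1) (.p (nat_lit 117) (nat_lit 1) (.n (nat_lit 119) (nat_lit 1) (.p (nat_lit 123) (nat_lit 1) (.n (nat_lit 140) (nat_lit 1) .z)))))))))))))))))))) .nil)))))))))))))))))))))))))

noncomputable def dC2b_i75 : IL := (.e false (nat_lit 1) (nat_lit 101) (nat_lit 9) (nat_lit 10) (.e true (nat_lit 2) (nat_lit 60) (nat_lit 18) (nat_lit 5) (.e true (nat_lit 1) (nat_lit 62) (nat_lit 18) (nat_lit 5) (.e false (nat_lit 2) (nat_lit 64) (nat_lit 18) (nat_lit 5) (.e true (nat_lit 2) (nat_lit 65) (nat_lit 18) (nat_lit 5) (.e false (nat_lit 2) (nat_lit 66) (nat_lit 18) (nat_lit 5) (.e false (nat_lit 1) (nat_lit 67) (nat_lit 18) (nat_lit 5) (.e true (nat_lit 1) (nat_lit 68) (nat_lit 18) (nat_lit 5)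 (.e true (nat_lit 2) (nat_lit 71) (nat_lit 18) (nat_lit 5) (.e true (nat_lit 2) (nat_lit 72) (nat_lit 18) (nat_lit 5) (.e true (nat_lit 1) (nat_lit 73) (nat_lit 18) (nat_lit 5) (.e true (nat_lit 2) (nat_lit 217) (nat_lit 2) (nat_lit 16) (.e false (nat_lit 1) (nat_lit 230) (nat_lit 2) (nat_lit 16) (.e false (nat_lit 1) (nat_lit 232) (nat_lit 2) (nat_lit 16) (.e true (nat_lit 1) (nat_lit 249) (nat_lit 2) (nat_lit 16) (.e true (nat_lit 1) (nat_lit 206) (nat_lit 2) (nat_lit 16) (.e true (nat_lit 1) (nat_lit 207) (nat_lit 2) (nat_lit 16) (.e true (nat_lit 1) (nat_lit 208) (nat_lit 2) (nat_lit 16) (.e false (nat_lit 1) (nat_lit 211) (nat_lit 2) (nat_lit 16) (.e true (nat_lit 1) (nat_lit 212) (nat_lit 2) (nat_lit 16) (.e true (nat_lit 1) (nat_lit 213) (nat_lit 2) (nat_lit 16) (.e false (nat_lit 1) (nat_lit 214) (nat_lit 2) (nat_lit 16) (.e false (nat_lit 1) (nat_lit 215) (nat_lit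 2) (nat_lit 16) (.e false (nat_lit 1) (nat_lit 228) (nat_lit 2) (nat_lit 16) (.u (nat_lit 2) (.p (nat_lit 0) (nat_lit 1) (.n (nat_lit 2) (nat_lit 1) (.n (nat_lit 5) (nat_lit 1) (.n (nat_lit 6) (nat_lit 3) (.n (nat_lit 7) (nat_lit 1) (.p (nat_lit 8) (nat_lit 3) (.n (nat_lit 10) (nat_lit 1) (.p (nat_lit 11) (nat_lit 1) (.p (nat_lit 15) (nat_lit 1) (.p (nat_lit 17) (nat_lit 3) (.p (nat_lit 18) (nat_lit 3) (.p (nat_lit 19) (nat_lit 1) (.p (nat_lit 20) (nat_lit 1) (.n (nat_lit 24) (nat_lit 4) (.n (nat_lit 25) (nat_lit 1) (.n (nat_lit 26) (nat_lit 1) (.p (nat_lit 27) (nat_lit 1) (.n (nat_lit 28) (nat_lit 1) (.n (nat_lit 29) (nat_lit 2) (.n (nat_lit 31) (nat_lit 2) (.n (nat_lit 32) (nat_lit 2) (.p (nat_lit 34) (nat_lit 2) (.n (nat_lit 36) (nat_lit 1) (.p (nat_lit 37) (nat_lit 3) (.n (nat_lit 42) (nat_lit 1) (.p (nat_lit 45) (nat_lit 3) (.p (nat_lit 46) (nat_lit 1) (.p (nat_lit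 47) (nat_lit 1) (.p (nat_lit 48) (nat_lit 1) .z))))))))))))))))))))))))))))) .nil)))))))))))))))))))))))))

noncomputable def dC2b_i76 : IL := (.e false (nat_lit 1) (nat_lit 102) (nat_lit 9) (nat_lit 10) (.e true (nat_lit 2) (nat_lit 60) (nat_lit 19) (nat_lit 5) (.e true (nat_lit 1) (nat_lit 62) (nat_lit 19) (nat_lit 5) (.e false (nat_lit 2) (nat_lit 64) (nat_lit 19) (nat_lit 5) (.e true (nat_lit 2) (nat_lit 65) (nat_lit 19) (nat_lit 5) (.e false (nat_lit 2) (nat_lit 66) (nat_lit 19) (nat_lit 5) (.e false (nat_lit 1) (nat_lit 67) (nat_lit 19) (nat_lit 5) (.e true (nat_lit 1) (nat_lit 68) (nat_lit 19) (nat_lit 5) (.e true (nat_lit 2) (nat_lit 71) (nat_lit 19) (nat_lit 5) (.e true (nat_lit 2) (nat_lit 72) (nat_lit 19) (nat_lit 5) (.e true (nat_lit 1) (nat_lit 73) (nat_lit 19) (nat_lit 5) (.e false (nat_lit 1) (nat_lit 209) (nat_lit 2) (nat_lit 16) (.e true (nat_lit 1) (nat_lit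 217) (nat_lit 2) (nat_lit 16) (.e false (nat_lit 3) (nat_lit 230) (nat_lit 2) (nat_lit 16) (.e true (nat_lit 1) (nat_lit 243) (nat_lit 2) (nat_lit 16) (.e true (nat_lit 1) (nat_lit 249) (nat_lit 2) (nat_lit 16) (.e true (nat_lit 2) (nat_lit 206) (nat_lit 2) (nat_lit 16) (.e true (nat_lit 1) (nat_lit 207) (nat_lit 2) (nat_lit 16) (.e true (nat_lit 1) (nat_lit 208) (nat_lit 2) (nat_lit 16) (.e false (nat_lit 1) (nat_lit 211) (nat_lit 2) (nat_lit 16) (.e true (nat_lit 1) (nat_lit 212) (nat_lit 2) (nat_lit 16) (.e true (nat_lit 1) (nat_lit 213) (nat_lit 2) (nat_lit 16) (.e false (nat_lit 1) (nat_lit 214) (nat_lit 2) (nat_lit 16) (.e false (nat_lit 1) (nat_lit 215) (nat_lit 2) (nat_lit 16) (.u (nat_lit 2) (.n (nat_lit 0) (nat_lit 5) (.p (nat_lit 1) (nat_lit 3) (.n (nat_lit 2) (nat_lit 1) (.n (nat_lit 4) (nat_lit 2) (.p (nat_lit 5) (nat_lit 3) (.p (nat_lit 6) (nat_lit 1) (.p (nat_lit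 7) (nat_lit 1) (.p (nat_lit 9) (nat_lit 1) (.p (nat_lit 11) (nat_lit 3) (.n (nat_lit 12) (nat_lit 2) (.n (nat_lit 14) (nat_lit 1) (.n (nat_lit 15) (nat_lit 3) (.p (nat_lit 19) (nat_lit 2) (.n (nat_lit 20) (nat_lit 2) (.n (nat_lit 21) (nat_lit 1) (.p (nat_lit 22) (nat_lit 1) (.n (nat_lit 24) (nat_lit 1) (.n (nat_lit 25) (nat_lit 3) (.p (nat_lit 26) (nat_lit 2) (.n (nat_lit 27) (nat_lit 2) (.n (nat_lit 28) (nat_lit 1) (.n (nat_lit 29) (nat_lit 1) (.n (nat_lit 31) (nat_lit 1) (.p (nat_lit 32) (nat_lit 2) (.p (nat_lit 34) (nat_lit 2) (.p (nat_lit 35) (nat_lit 4) (.n (nat_lit 36) (nat_lit 2) (.n (nat_lit 42) (nat_lit 1) (.n (nat_lit 44) (nat_lit 1) (.p (nat_lit 45) (nat_lit 3) (.p (nat_lit 46) (nat_lit 1) (.p (nat_lit 48) (nat_lit 1) (.n (nat_lit 54) (nat_lit 1) .z))))))))))))))))))))))))))))))))) .nil)))))))))))))))))))))))))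

noncomputable def dC2b_i77 : IL := (.e false (nat_lit 1) (nat_lit 105) (nat_lit 9) (nat_lit 8) (.e true (nat_lit 2) (nat_lit 60) (nat_lit 20) (nat_lit 3) (.e true (nat_lit 1) (nat_lit 62) (nat_lit 20) (nat_lit 3) (.e false (nat_lit 2) (nat_lit 64) (nat_lit 20) (nat_lit 3) (.e true (nat_lit 2) (nat_lit 65) (nat_lit 20) (nat_lit 3) (.e false (nat_lit 2) (nat_lit 66) (nat_lit 20) (nat_lit 3) (.e false (nat_lit 1) (nat_lit 67) (nat_lit 20) (nat_lit 3) (.e true (nat_lit 1) (nat_lit 68) (nat_lit 20) (nat_lit 3) (.e true (nat_lit 2) (nat_lit 71) (nat_lit 20) (nat_lit 3) (.e true (nat_lit 2) (nat_lit 72) (nat_lit 20) (nat_lit 3) (.e true (nat_lit 1) (nat_lit 73) (nat_lit 20) (nat_lit 3) (.e false (nat_lit 2) (nat_lit 273) (nat_lit 2) (nat_lit 14) (.e true (nat_lit 1) (nat_lit 284) (nat_lit 2) (nat_lit 14) (.e true (nat_lit 2) (nat_lit 252) (nat_lit 2) (nat_lit 14) (.e true (nat_lit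 1) (nat_lit 254) (nat_lit 2) (nat_lit 14) (.e false (nat_lit 2) (nat_lit 256) (nat_lit 2) (nat_lit 14) (.e true (nat_lit 2) (nat_lit 257) (nat_lit 2) (nat_lit 14) (.e false (nat_lit 2) (nat_lit 258) (nat_lit 2) (nat_lit 14) (.e false (nat_lit 1) (nat_lit 259) (nat_lit 2) (nat_lit 14) (.e true (nat_lit 1) (nat_lit 260) (nat_lit 2) (nat_lit 14) (.e true (nat_lit 1) (nat_lit 262) (nat_lit 2) (nat_lit 14) (.e true (nat_lit 2) (nat_lit 263) (nat_lit 2) (nat_lit 14) (.e true (nat_lit 2) (nat_lit 264) (nat_lit 2) (nat_lit 14) (.e true (nat_lit 1) (nat_lit 265) (nat_lit 2) (nat_lit 14) (.u (nat_lit 2) (.p (nat_lit 0) (nat_lit 3) (.n (nat_lit 1) (nat_lit 3) (.n (nat_lit 2) (nat_lit 1) (.p (nat_lit 3) (nat_lit 1) (.n (nat_lit 5) (nat_lit 2) (.n (nat_lit 6) (nat_lit 2) (.p (nat_lit 8) (nat_lit 2) (.n (nat_lit 9) (nat_lit 1) (.n (nat_lit 11) (nat_lit 1) (.n (nat_lit 12) (nat_lit 2)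 (.p (nat_lit 13) (nat_lit 1) (.p (nat_lit 15) (nat_lit 2) (.p (nat_lit 16) (nat_lit 2) (.p (nat_lit 18) (nat_lit 2) (.n (nat_lit 19) (nat_lit 1) (.n (nat_lit 21) (nat_lit 2) (.p (nat_lit 24) (nat_lit 2) (.n (nat_lit 34) (nat_lit 1) (.p (nat_lit 35) (nat_lit 1) (.p (nat_lit 38) (nat_lit 2) .z)))))))))))))))))))) .nil)))))))))))))))))))))))))

noncomputable def dC2b_i78 : IL := (.e true (nat_lit 3) (nat_lit 139) (nat_lit 1) (nat_lit 13) (.e false (nat_lit 3) (nat_lit 140) (nat_lit 1) (nat_lit 13) (.e true (nat_lit 2) (nat_lit 141) (nat_lit 1) (nat_lit 13) (.e false (nat_lit 1) (nat_lit 149) (nat_lit 1) (nat_lit 13) (.e true (nat_lit 1) (nat_lit 151) (nat_lit 1) (nat_lit 13) (.e true (nat_lit 1) (nat_lit 153) (nat_lit 1) (nat_lit 13) (.e true (nat_lit 2) (nat_lit 154) (nat_lit 1) (nat_lit 13) (.e true (nat_lit 3) (nat_lit 156) (nat_lit 1) (nat_lit 13) (.e false (nat_lit 1)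 (nat_lit 157) (nat_lit 1) (nat_lit 13) (.e false (nat_lit 2) (nat_lit 134) (nat_lit 1) (nat_lit 13) (.e false (nat_lit 3) (nat_lit 137) (nat_lit 1) (nat_lit 13) (.e false (nat_lit 1) (nat_lit 148) (nat_lit 1) (nat_lit 13) (.e false (nat_lit 3) (nat_lit 143) (nat_lit 1) (nat_lit 13) (.e true (nat_lit 3) (nat_lit 32) (nat_lit 16) (nat_lit 2) (.e true (nat_lit 3) (nat_lit 61) (nat_lit 6) (nat_lit 8) (.e false (nat_lit 3) (nat_lit 62) (nat_lit 6) (nat_lit 8) (.e true (nat_lit 1) (nat_lit 63) (nat_lit 6) (nat_lit 8) (.e false (nat_lit 1) (nat_lit 64) (nat_lit 6) (nat_lit 8) (.e false (nat_lit 1) (nat_lit 66) (nat_lit 6) (nat_lit 8) (.e true (nat_lit 3) (nat_lit 67) (nat_lit 6) (nat_lit 8) (.e false (nat_lit 3) (nat_lit 68) (nat_lit 6) (nat_lit 8) (.e true (nat_lit 1) (nat_lit 72) (nat_lit 6) (nat_lit 8) (.e false (nat_lit 3) (nat_lit 73) (nat_lit 6) (nat_lit 8) (.u (nat_lit 2)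 (.p (nat_lit 0) (nat_lit 1) (.p (nat_lit 1) (nat_lit 2) (.n (nat_lit 2) (nat_lit 2) (.n (nat_lit 3) (nat_lit 2) (.p (nat_lit 4) (nat_lit 1) (.p (nat_lit 7) (nat_lit 1) (.n (nat_lit 8) (nat_lit 4) (.n (nat_lit 9) (nat_lit 1) (.p (nat_lit 10) (nat_lit 4) (.n (nat_lit 11) (nat_lit 1) (.n (nat_lit 12) (nat_lit 1) (.p (nat_lit 13) (nat_lit 1) (.p (nat_lit 15) (nat_lit 3) (.n (nat_lit 16) (nat_lit 3) (.p (nat_lit 17) (nat_lit 6) (.p (nat_lit 19) (nat_lit 1) (.p (nat_lit 20) (nat_lit 5) (.n (nat_lit 21) (nat_lit 3) (.p (nat_lit 22) (nat_lit 2) (.p (nat_lit 23) (nat_lit 2) (.n (nat_lit 24) (nat_lit 2) (.n (nat_lit 25) (nat_lit 3) (.p (nat_lit 26) (nat_lit 1) (.n (nat_lit 27) (nat_lit 3) (.p (nat_lit 28) (nat_lit 1) (.n (nat_lit 29) (nat_lit 4) (.p (nat_lit 30) (nat_lit 2) (.n (nat_lit 32) (nat_lit 1) (.p (nat_lit 35) (nat_lit 1) (.n (nat_lit 36) (nat_lit 1) (.n (nat_lit 37) (nat_lit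 1) (.p (nat_lit 38) (nat_lit 3) (.n (nat_lit 39) (nat_lit 5) (.n (nat_lit 40) (nat_lit 4) (.n (nat_lit 41) (nat_lit 1) (.n (nat_lit 42) (nat_lit 3) (.n (nat_lit 44) (nat_lit 2) (.n (nat_lit 45) (nat_lit 3) (.n (nat_lit 46) (nat_lit 4) (.p (nat_lit 112) (nat_lit 1) (.n (nat_lit 113) (nat_lit 1) (.n (nat_lit 115) (nat_lit 1) (.p (nat_lit 120) (nat_lit 1) (.p (nat_lit 121) (nat_lit 1) (.n (nat_lit 172) (nat_lit 4) (.n (nat_lit 173) (nat_lit 1) (.p (nat_lit 174) (nat_lit 1) (.n (nat_lit 175) (nat_lit 1) (.n (nat_lit 176) (nat_lit 6) (.p (nat_lit 178) (nat_lit 2) (.n (nat_lit 181) (nat_lit 4) (.n (nat_lit 187) (nat_lit 3) (.n (nat_lit 188) (nat_lit 1) (.p (nat_lit 189) (nat_lit 5) (.n (nat_lit 190) (nat_lit 6) (.n (nat_lit 191) (nat_lit 5) (.n (nat_lit 192) (nat_lit 6) (.n (nat_lit 193) (nat_lit 5) (.n (nat_lit 194) (nat_lit 1) (.p (nat_lit 196) (nat_lit 6) .z))))))))))))))))))))))))))))))))))))))))))))))))))))))))))))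 (.u (nat_lit 2) (.p (nat_lit 197) (nat_lit 5) .z) .nil)))))))))))))))))))))))))

noncomputable def dC2b_i79 : IL := (.e true (nat_lit 1) (nat_lit 140) (nat_lit 2) (nat_lit 11) (.e true (nat_lit 1) (nat_lit 143) (nat_lit 2) (nat_lit 11) (.e false (nat_lit 2) (nat_lit 144) (nat_lit 2) (nat_lit 11) (.e false (nat_lit 1) (nat_lit 145) (nat_lit 2) (nat_lit 11) (.e false (nat_lit 3) (nat_lit 147) (nat_lit 2) (nat_lit 11) (.e false (nat_lit 2) (nat_lit 150) (nat_lit 2) (nat_lit 11) (.e true (nat_lit 3) (nat_lit 153) (nat_lit 2) (nat_lit 11) (.e false (nat_lit 2) (nat_lit 136) (nat_lit 2) (nat_lit 11) (.e false (nat_lit 3) (nat_lit 142) (nat_lit 2) (nat_lit 11) (.e false (nat_lit 1) (nat_lit 149) (nat_lit 2) (nat_lit 11) (.e false (nat_lit 2) (nat_lit 151) (nat_lit 2) (nat_lit 11) (.e true (nat_lit 1) (nat_lit 152) (nat_lit 2) (nat_lit 11) (.e false (nat_lit 2) (nat_lit 154) (nat_lit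 2) (nat_lit 11) (.e false (nat_lit 1) (nat_lit 157) (nat_lit 2) (nat_lit 11) (.e false (nat_lit 3) (nat_lit 60) (nat_lit 7) (nat_lit 6) (.e true (nat_lit 3) (nat_lit 64) (nat_lit 7) (nat_lit 6) (.e false (nat_lit 3) (nat_lit 65) (nat_lit 7) (nat_lit 6) (.e false (nat_lit 2) (nat_lit 155) (nat_lit 2) (nat_lit 11) (.e true (nat_lit 2) (nat_lit 156) (nat_lit 2) (nat_lit 11) (.e false (nat_lit 2) (nat_lit 61) (nat_lit 7) (nat_lit 6) (.e true (nat_lit 2) (nat_lit 25) (nat_lit 20) (nat_lit 0) (.e true (nat_lit 3) (nat_lit 66) (nat_lit 7) (nat_lit 6) (.e false (nat_lit 3) (nat_lit 72) (nat_lit 7) (nat_lit 6) (.e false (nat_lit 3) (nat_lit 73) (nat_lit 7) (nat_lit 6) (.u (nat_lit 2) (.n (nat_lit 0) (nat_lit 2) (.n (nat_lit 1) (nat_lit 1) (.n (nat_lit 2) (nat_lit 5) (.n (nat_lit 5) (nat_lit 2) (.p (nat_lit 6) (nat_lit 1) (.p (nat_lit 9) (nat_lit 1) (.n (nat_lit 11) (nat_lit 1) (.p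 (nat_lit 12) (nat_lit 2) (.n (nat_lit 13) (nat_lit 1) (.n (nat_lit 14) (nat_lit 1) (.n (nat_lit 15) (nat_lit 2) (.n (nat_lit 17) (nat_lit 4) (.p (nat_lit 19) (nat_lit 2) (.n (nat_lit 20) (nat_lit 1) (.p (nat_lit 21) (nat_lit 2) (.p (nat_lit 23) (nat_lit 2) (.n (nat_lit 24) (nat_lit 2) (.n (nat_lit 25) (nat_lit 3) (.n (nat_lit 31) (nat_lit 2) (.n (nat_lit 32) (nat_lit 1) (.p (nat_lit 33) (nat_lit 1) (.p (nat_lit 34) (nat_lit 1) (.p (nat_lit 56) (nat_lit 1) (.n (nat_lit 57) (nat_lit 1) (.n (nat_lit 78) (nat_lit 1) (.n (nat_lit 79) (nat_lit 1) (.p (nat_lit 81) (nat_lit 1) (.n (nat_lit 83) (nat_lit 1) (.p (nat_lit 89) (nat_lit 1) (.n (nat_lit 117) (nat_lit 2) (.p (nat_lit 118) (nat_lit 3) (.p (nat_lit 119) (nat_lit 4) (.n (nat_lit 120) (nat_lit 6) (.p (nat_lit 121) (nat_lit 2) (.n (nat_lit 122) (nat_lit 3) (.n (nat_lit 124) (nat_lit 3) (.p (nat_lit 125) (nat_lit 3) (.n (nat_lit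 126) (nat_lit 2) (.p (nat_lit 128) (nat_lit 3) (.n (nat_lit 129) (nat_lit 1) (.p (nat_lit 132) (nat_lit 2) (.n (nat_lit 134) (nat_lit 3) (.n (nat_lit 135) (nat_lit 2) (.n (nat_lit 136) (nat_lit 4) (.p (nat_lit 137) (nat_lit 3) (.p (nat_lit 138) (nat_lit 4) (.p (nat_lit 139) (nat_lit 3) (.n (nat_lit 140) (nat_lit 4) (.p (nat_lit 141) (nat_lit 4) (.n (nat_lit 142) (nat_lit 3) (.n (nat_lit 160) (nat_lit 1) (.p (nat_lit 161) (nat_lit 1) .z)))))))))))))))))))))))))))))))))))))))))))))))))))) .nil)))))))))))))))))))))))))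

noncomputable def dC2b_i80 : IL := (.e false (nat_lit 2) (nat_lit 265) (nat_lit 1) (nat_lit 17) (.e true (nat_lit 1) (nat_lit 266) (nat_lit 1) (nat_lit 17) (.e true (nat_lit 3) (nat_lit 267) (nat_lit 1) (nat_lit 17) (.e false (nat_lit 1) (nat_lit 269) (nat_lit 1) (nat_lit 17) (.e true (nat_lit 2) (nat_lit 270) (nat_lit 1) (nat_lit 17) (.e true (nat_lit 2) (nat_lit 272) (nat_lit 1) (nat_lit 17) (.e true (nat_lit 2) (nat_lit 273) (nat_lit 1) (nat_lit 17) (.e true (nat_lit 2) (nat_lit 274) (nat_lit 1) (nat_lit 17) (.e true (nat_lit 3) (nat_lit 277) (nat_lit 1) (nat_lit 17) (.e false (nat_lit 1) (nat_lit 278) (nat_lit 1) (nat_lit 17) (.e true (nat_lit 1) (nat_lit 280) (nat_lit 1) (nat_lit 17) (.e true (nat_lit 3) (nat_lit 283) (nat_lit 1) (nat_lit 17) (.e false (nat_lit 1) (nat_lit 284) (nat_lit 1) (nat_lit 17) (.e false (nat_lit 3) (nat_lit 285) (nat_lit 1) (nat_lit 17) (.e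 true (nat_lit 1) (nat_lit 300) (nat_lit 0) (nat_lit 18) (.e false (nat_lit 1) (nat_lit 301) (nat_lit 0) (nat_lit 18) (.e false (nat_lit 3) (nat_lit 289) (nat_lit 0) (nat_lit 18) (.e false (nat_lit 1) (nat_lit 291) (nat_lit 0) (nat_lit 18) (.e false (nat_lit 2) (nat_lit 293) (nat_lit 0) (nat_lit 18) (.e false (nat_lit 1) (nat_lit 297) (nat_lit 0) (nat_lit 18) (.e false (nat_lit 1) (nat_lit 298) (nat_lit 0) (nat_lit 18) (.e true (nat_lit 3) (nat_lit 290) (nat_lit 0) (nat_lit 18) (.e false (nat_lit 1) (nat_lit 294) (nat_lit 0) (nat_lit 18) (.e true (nat_lit 3) (nat_lit 295) (nat_lit 0) (nat_lit 18) (.u (nat_lit 2) (.p (nat_lit 0) (nat_lit 1) (.n (nat_lit 1) (nat_lit 3) (.p (nat_lit 2) (nat_lit 1) (.n (nat_lit 3) (nat_lit 2) (.p (nat_lit 4) (nat_lit 4) (.p (nat_lit 5) (nat_lit 1) (.p (nat_lit 6) (nat_lit 1) (.n (nat_lit 7) (nat_lit 1) (.p (nat_lit 11) (nat_lit 2) (.p (nat_lit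 12) (nat_lit 1) (.n (nat_lit 14) (nat_lit 2) (.n (nat_lit 15) (nat_lit 2) (.n (nat_lit 18) (nat_lit 1) (.n (nat_lit 19) (nat_lit 1) (.p (nat_lit 20) (nat_lit 1) (.n (nat_lit 21) (nat_lit 1) (.p (nat_lit 22) (nat_lit 1) (.p (nat_lit 23) (nat_lit 2) (.n (nat_lit 24) (nat_lit 3) (.p (nat_lit 25) (nat_lit 2) (.p (nat_lit 28) (nat_lit 2) (.p (nat_lit 29) (nat_lit 1) (.n (nat_lit 31) (nat_lit 1) (.n (nat_lit 32) (nat_lit 2) (.p (nat_lit 33) (nat_lit 3) (.n (nat_lit 34) (nat_lit 3) (.p (nat_lit 35) (nat_lit 2) (.n (nat_lit 38) (nat_lit 3) (.p (nat_lit 40) (nat_lit 1) (.n (nat_lit 46) (nat_lit 1) (.n (nat_lit 47) (nat_lit 1) (.n (nat_lit 386) (nat_lit 2) (.p (nat_lit 387) (nat_lit 1) (.p (nat_lit 388) (nat_lit 1) (.p (nat_lit 392) (nat_lit 1) (.p (nat_lit 393) (nat_lit 2) (.n (nat_lit 395) (nat_lit 2) (.p (nat_lit 397) (nat_lit 1) (.n (nat_lit 399) (nat_lit 1) .z)))))))))))))))))))))))))))))))))))))))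 .nil)))))))))))))))))))))))))

noncomputable def dC2b_i81 : IL := (.e false (nat_lit 2) (nat_lit 273) (nat_lit 1) (nat_lit 17) (.e false (nat_lit 3) (nat_lit 276) (nat_lit 1) (nat_lit 17) (.e true (nat_lit 1) (nat_lit 287) (nat_lit 1) (nat_lit 17) (.e true (nat_lit 1) (nat_lit 255) (nat_lit 1) (nat_lit 17) (.e false (nat_lit 1) (nat_lit 259) (nat_lit 1) (nat_lit 17) (.e true (nat_lit 1) (nat_lit 260) (nat_lit 1) (nat_lit 17) (.e false (nat_lit 2) (nat_lit 280) (nat_lit 1) (nat_lit 17) (.e true (nat_lit 1) (nat_lit 279) (nat_lit 1) (nat_lit 17) (.e false (nat_lit 1) (nat_lit 288) (nat_lit 1) (nat_lit 17) (.e false (nat_lit 1) (nat_lit 284) (nat_lit 1) (nat_lit 17) (.e true (nat_lit 2) (nat_lit 301) (nat_lit 0) (nat_lit 18) (.e true (nat_lit 1) (nat_lit 289) (nat_lit 0) (nat_lit 18) (.e true (nat_lit 2) (nat_lit 291) (nat_lit 0) (nat_lit 18) (.e false (nat_lit 3) (nat_lit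 293) (nat_lit 0) (nat_lit 18) (.e false (nat_lit 2) (nat_lit 294) (nat_lit 0) (nat_lit 18) (.e false (nat_lit 2) (nat_lit 295) (nat_lit 0) (nat_lit 18) (.e false (nat_lit 3) (nat_lit 297) (nat_lit 0) (nat_lit 18) (.e true (nat_lit 1) (nat_lit 298) (nat_lit 0) (nat_lit 18) (.e false (nat_lit 2) (nat_lit 300) (nat_lit 0) (nat_lit 18) (.e false (nat_lit 1) (nat_lit 303) (nat_lit 0) (nat_lit 18) (.e true (nat_lit 1) (nat_lit 304) (nat_lit 0) (nat_lit 18) (.e false (nat_lit 1) (nat_lit 290) (nat_lit 0) (nat_lit 18) (.e true (nat_lit 3) (nat_lit 296) (nat_lit 0) (nat_lit 18) (.u (nat_lit 2) (.n (nat_lit 0) (nat_lit 2) (.n (nat_lit 2) (nat_lit 2) (.n (nat_lit 3) (nat_lit 1) (.n (nat_lit 4) (nat_lit 1) (.p (nat_lit 5) (nat_lit 2) (.n (nat_lit 6) (nat_lit 1) (.n (nat_lit 7) (nat_lit 1) (.p (nat_lit 8) (nat_lit 1) (.p (nat_lit 9) (nat_lit 2) (.p (nat_lit 10) (nat_lit 1) (.p (nat_lit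 11) (nat_lit 2) (.p (nat_lit 12) (nat_lit 1) (.n (nat_lit 14) (nat_lit 1) (.n (nat_lit 15) (nat_lit 2) (.n (nat_lit 16) (nat_lit 1) (.n (nat_lit 17) (nat_lit 2) (.n (nat_lit 20) (nat_lit 1) (.n (nat_lit 21) (nat_lit 3) (.p (nat_lit 22) (nat_lit 3) (.n (nat_lit 23) (nat_lit 1) (.n (nat_lit 24) (nat_lit 3) (.n (nat_lit 26) (nat_lit 1) (.n (nat_lit 27) (nat_lit 2) (.p (nat_lit 28) (nat_lit 1) (.n (nat_lit 31) (nat_lit 1) (.n (nat_lit 34) (nat_lit 2) (.p (nat_lit 35) (nat_lit 2) (.n (nat_lit 36) (nat_lit 1) (.n (nat_lit 37) (nat_lit 1) (.n (nat_lit 40) (nat_lit 1) (.p (nat_lit 44) (nat_lit 1) (.p (nat_lit 45) (nat_lit 2) (.p (nat_lit 47) (nat_lit 2) (.n (nat_lit 351) (nat_lit 2) (.n (nat_lit 353) (nat_lit 1) (.n (nat_lit 355) (nat_lit 1) (.p (nat_lit 359) (nat_lit 1) (.n (nat_lit 360) (nat_lit 1) (.n (nat_lit 361) (nat_lit 1) (.p (nat_lit 362) (nat_lit 2) (.n (nat_lit 363) (nat_lit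 1) (.p (nat_lit 364) (nat_lit 1) (.p (nat_lit 366) (nat_lit 2) (.p (nat_lit 368) (nat_lit 1) (.p (nat_lit 369) (nat_lit 2) (.p (nat_lit 371) (nat_lit 1) (.p (nat_lit 372) (nat_lit 1) (.n (nat_lit 373) (nat_lit 1) (.n (nat_lit 380) (nat_lit 1) (.p (nat_lit 382) (nat_lit 1) (.n (nat_lit 387) (nat_lit 1) (.p (nat_lit 388) (nat_lit 1) (.n (nat_lit 389) (nat_lit 1) (.n (nat_lit 390) (nat_lit 1) (.p (nat_lit 391) (nat_lit 1) (.n (nat_lit 392) (nat_lit 1) (.p (nat_lit 393) (nat_lit 1) (.p (nat_lit 395) (nat_lit 1) (.n (nat_lit 397) (nat_lit 1) (.p (nat_lit 398) (nat_lit 2) .z)))))))))))))))))))))))))))))))))))))))))))))))))))))))))))) (.u (nat_lit 2) (.n (nat_lit 399) (nat_lit 1) (.p (nat_lit 400) (nat_lit 1) (.n (nat_lit 401) (nat_lit 1) .z))) .nil)))))))))))))))))))))))))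

noncomputable def dC2b_i82 : IL := (.e true (nat_lit 1) (nat_lit 73) (nat_lit 19) (nat_lit 5) (.e true (nat_lit 1) (nat_lit 60) (nat_lit 18) (nat_lit 5) (.e true (nat_lit 1) (nat_lit 61) (nat_lit 18) (nat_lit 5) (.e true (nat_lit 1) (nat_lit 62) (nat_lit 18) (nat_lit 5) (.e false (nat_lit 1) (nat_lit 63) (nat_lit 18) (nat_lit 5) (.e true (nat_lit 1) (nat_lit 65) (nat_lit 18) (nat_lit 5) (.e false (nat_lit 1) (nat_lit 66) (nat_lit 18) (nat_lit 5) (.e false (nat_lit 1) (nat_lit 73) (nat_lit 18) (nat_lit 5) (.e false (nat_lit 3) (nat_lit 258) (nat_lit 1) (nat_lit 17) (.e true (nat_lit 2) (nat_lit 264) (nat_lit 1) (nat_lit 17) (.e true (nat_lit 1) (nat_lit 265) (nat_lit 1) (nat_lit 17) (.e true (nat_lit 3) (nat_lit 269) (nat_lit 1) (nat_lit 17) (.e true (nat_lit 3) (nat_lit 272) (nat_lit 1) (nat_lit 17) (.e false (nat_lit 1) (nat_lit 274) (nat_lit 1) (nat_lit 17) (.e true (nat_lit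 1) (nat_lit 278) (nat_lit 1) (nat_lit 17) (.e false (nat_lit 2) (nat_lit 285) (nat_lit 1) (nat_lit 17) (.e false (nat_lit 2) (nat_lit 256) (nat_lit 1) (nat_lit 17) (.e false (nat_lit 1) (nat_lit 261) (nat_lit 1) (nat_lit 17) (.e false (nat_lit 2) (nat_lit 263) (nat_lit 1) (nat_lit 17) (.e true (nat_lit 3) (nat_lit 267) (nat_lit 1) (nat_lit 17) (.e false (nat_lit 1) (nat_lit 270) (nat_lit 1) (nat_lit 17) (.e true (nat_lit 2) (nat_lit 275) (nat_lit 1) (nat_lit 17) (.e true (nat_lit 2) (nat_lit 286) (nat_lit 1) (nat_lit 17) (.e false (nat_lit 2) (nat_lit 253) (nat_lit 1) (nat_lit 17) (.e true (nat_lit 3) (nat_lit 271) (nat_lit 1) (nat_lit 17) dC2b_i81)))))))))))))))))))))))))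

noncomputable def dC2b_i83 : IL := (.e false (nat_lit 3) (nat_lit 254) (nat_lit 2) (nat_lit 14) (.e true (nat_lit 3) (nat_lit 255) (nat_lit 2) (nat_lit 14) (.e true (nat_lit 3) (nat_lit 257) (nat_lit 2) (nat_lit 14) (.e true (nat_lit 3) (nat_lit 258) (nat_lit 2) (nat_lit 14) (.e true (nat_lit 3) (nat_lit 259) (nat_lit 2) (nat_lit 14) (.e false (nat_lit 3) (nat_lit 260) (nat_lit 2) (nat_lit 14) (.e false (nat_lit 2) (nat_lit 261) (nat_lit 2) (nat_lit 14) (.e false (nat_lit 2) (nat_lit 262) (nat_lit 2) (nat_lit 14) (.e false (nat_lit 3) (nat_lit 263) (nat_lit 2) (nat_lit 14) (.e true (nat_lit 3) (nat_lit 264) (nat_lit 2) (nat_lit 14) (.e false (nat_lit 2) (nat_lit 265) (nat_lit 2) (nat_lit 14) (.e true (nat_lit 1) (nat_lit 266) (nat_lit 2) (nat_lit 14) (.e false (nat_lit 3) (nat_lit 267) (nat_lit 2) (nat_lit 14) (.e true (nat_lit 1) (nat_lit 269) (nat_lit 2) (nat_lit 14)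 (.e false (nat_lit 2) (nat_lit 270) (nat_lit 2) (nat_lit 14) (.e true (nat_lit 3) (nat_lit 272) (nat_lit 2) (nat_lit 14) (.e false (nat_lit 3) (nat_lit 275) (nat_lit 2) (nat_lit 14) (.e false (nat_lit 2) (nat_lit 277) (nat_lit 2) (nat_lit 14) (.e false (nat_lit 3) (nat_lit 283) (nat_lit 2) (nat_lit 14) (.e true (nat_lit 3) (nat_lit 285) (nat_lit 2) (nat_lit 14) (.e false (nat_lit 3) (nat_lit 271) (nat_lit 2) (nat_lit 14) (.e true (nat_lit 3) (nat_lit 273) (nat_lit 2) (nat_lit 14) (.e false (nat_lit 2) (nat_lit 274) (nat_lit 2) (nat_lit 14) (.e true (nat_lit 3) (nat_lit 276) (nat_lit 2) (nat_lit 14) (.u (nat_lit 2) (.n (nat_lit 0) (nat_lit 3) (.n (nat_lit 1) (nat_lit 1) (.n (nat_lit 2) (nat_lit 3) (.n (nat_lit 3) (nat_lit 6) (.n (nat_lit 4) (nat_lit 3) (.n (nat_lit 6) (nat_lit 4) (.p (nat_lit 7) (nat_lit 2) (.p (nat_lit 8) (nat_lit 2) (.n (nat_lit 9) (nat_lit 6) (.p (nat_lit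 10) (nat_lit 1) (.n (nat_lit 11) (nat_lit 1) (.p (nat_lit 13) (nat_lit 2) (.p (nat_lit 14) (nat_lit 1) (.p (nat_lit 17) (nat_lit 1) (.p (nat_lit 18) (nat_lit 2) (.n (nat_lit 19) (nat_lit 1) (.n (nat_lit 21) (nat_lit 1) (.n (nat_lit 23) (nat_lit 5) (.n (nat_lit 24) (nat_lit 2) (.p (nat_lit 25) (nat_lit 1) (.n (nat_lit 30) (nat_lit 1) (.p (nat_lit 31) (nat_lit 1) (.p (nat_lit 34) (nat_lit 2) (.n (nat_lit 35) (nat_lit 1) (.p (nat_lit 38) (nat_lit 1) (.n (nat_lit 206) (nat_lit 1) (.p (nat_lit 207) (nat_lit 1) (.p (nat_lit 210) (nat_lit 1) (.p (nat_lit 211) (nat_lit 1) (.n (nat_lit 212) (nat_lit 1) (.n (nat_lit 213) (nat_lit 1) (.n (nat_lit 214) (nat_lit 1) (.n (nat_lit 215) (nat_lit 1) (.p (nat_lit 216) (nat_lit 1) (.n (nat_lit 219) (nat_lit 1) (.n (nat_lit 235) (nat_lit 1) (.p (nat_lit 237) (nat_lit 1) .z))))))))))))))))))))))))))))))))))))) .nil)))))))))))))))))))))))))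

noncomputable def dC2b_i84 : IL := (.e false (nat_lit 3) (nat_lit 110) (nat_lit 2) (nat_lit 12) (.e true (nat_lit 3) (nat_lit 112) (nat_lit 2) (nat_lit 12) (.e false (nat_lit 2) (nat_lit 114) (nat_lit 2) (nat_lit 12) (.e true (nat_lit 3) (nat_lit 123) (nat_lit 2) (nat_lit 12) (.e true (nat_lit 3) (nat_lit 126) (nat_lit 2) (nat_lit 12) (.e true (nat_lit 3) (nat_lit 127) (nat_lit 2) (nat_lit 12) (.e true (nat_lit 1) (nat_lit 106) (nat_lit 2) (nat_lit 12) (.e true (nat_lit 1) (nat_lit 117) (nat_lit 2) (nat_lit 12) (.e false (nat_lit 1) (nat_lit 118) (nat_lit 2) (nat_lit 12) (.e true (nat_lit 1) (nat_lit 120) (nat_lit 2) (nat_lit 12) (.e false (nat_lit 1) (nat_lit 128) (nat_lit 2) (nat_lit 12) (.e false (nat_lit 2) (nat_lit 145) (nat_lit 1) (nat_lit 13) (.e false (nat_lit 1) (nat_lit 132) (nat_lit 1) (nat_lit 13) (.e false (nat_lit 1) (nat_lit 133) (nat_lit 1) (nat_lit 13)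 (.e true (nat_lit 1) (nat_lit 134) (nat_lit 1) (nat_lit 13) (.e true (nat_lit 1) (nat_lit 135) (nat_lit 1) (nat_lit 13) (.e false (nat_lit 1) (nat_lit 137) (nat_lit 1) (nat_lit 13) (.e false (nat_lit 1) (nat_lit 138) (nat_lit 1) (nat_lit 13) (.e false (nat_lit 1) (nat_lit 149) (nat_lit 1) (nat_lit 13) (.e true (nat_lit 1) (nat_lit 152) (nat_lit 1) (nat_lit 13) (.e true (nat_lit 1) (nat_lit 153) (nat_lit 1) (nat_lit 13) (.e true (nat_lit 1) (nat_lit 154) (nat_lit 1) (nat_lit 13) (.e false (nat_lit 1) (nat_lit 155) (nat_lit 1) (nat_lit 13) (.e false (nat_lit 1) (nat_lit 157) (nat_lit 1) (nat_lit 13) (.u (nat_lit 2) (.p (nat_lit 0) (nat_lit 1) (.p (nat_lit 1) (nat_lit 1) (.p (nat_lit 2) (nat_lit 1) (.p (nat_lit 10) (nat_lit 1) (.p (nat_lit 11) (nat_lit 1) (.p (nat_lit 14) (nat_lit 1) (.n (nat_lit 20) (nat_lit 2) (.n (nat_lit 21) (nat_lit 1) (.n (nat_lit 22) (nat_lit 1) (.n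 (nat_lit 24) (nat_lit 1) (.n (nat_lit 25) (nat_lit 1) (.n (nat_lit 40) (nat_lit 1) (.p (nat_lit 43) (nat_lit 1) (.p (nat_lit 46) (nat_lit 1) (.p (nat_lit 149) (nat_lit 1) (.n (nat_lit 150) (nat_lit 1) (.p (nat_lit 162) (nat_lit 1) (.p (nat_lit 166) (nat_lit 1) (.p (nat_lit 167) (nat_lit 1) (.p (nat_lit 171) (nat_lit 1) .z)))))))))))))))))))) .nil)))))))))))))))))))))))))

noncomputable def dC2b_i85 : IL := (.e true (nat_lit 2) (nat_lit 181) (nat_lit 1) (nat_lit 12) (.e true (nat_lit 2) (nat_lit 149) (nat_lit 2) (nat_lit 11) (.e false (nat_lit 3) (nat_lit 134) (nat_lit 2) (nat_lit 11) (.e false (nat_lit 1) (nat_lit 138) (nat_lit 2) (nat_lit 11) (.e false (nat_lit 2) (nat_lit 145) (nat_lit 2) (nat_lit 11) (.e false (nat_lit 3) (nat_lit 146) (nat_lit 2) (nat_lit 11) (.e true (nat_lit 1) (nat_lit 154) (nat_lit 2) (nat_lit 11) (.e true (nat_lit 1) (nat_lit 80) (nat_lit 6) (nat_lit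 7) (.e false (nat_lit 1) (nat_lit 33) (nat_lit 18) (nat_lit 1) (.e false (nat_lit 2) (nat_lit 60) (nat_lit 7) (nat_lit 6) (.e false (nat_lit 2) (nat_lit 61) (nat_lit 7) (nat_lit 6) (.e true (nat_lit 2) (nat_lit 63) (nat_lit 7) (nat_lit 6) (.e true (nat_lit 2) (nat_lit 66) (nat_lit 7) (nat_lit 6) (.e true (nat_lit 1) (nat_lit 157) (nat_lit 2) (nat_lit 11) (.e true (nat_lit 1) (nat_lit 132) (nat_lit 2) (nat_lit 11) (.e true (nat_lit 1) (nat_lit 133) (nat_lit 2) (nat_lit 11) (.e false (nat_lit 1) (nat_lit 135) (nat_lit 2) (nat_lit 11) (.e true (nat_lit 1) (nat_lit 137) (nat_lit 2) (nat_lit 11) (.e true (nat_lit 2) (nat_lit 48) (nat_lit 8) (nat_lit 5) (.e true (nat_lit 2) (nat_lit 25) (nat_lit 20) (nat_lit 0) (.e true (nat_lit 2) (nat_lit 26) (nat_lit 20) (nat_lit 0) (.e false (nat_lit 2) (nat_lit 27) (nat_lit 20) (nat_lit 0) (.e true (nat_lit 2) (nat_lit 153) (nat_lit 2) (nat_lit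 11) (.e false (nat_lit 2) (nat_lit 155) (nat_lit 2) (nat_lit 11) (.u (nat_lit 2) (.n (nat_lit 2) (nat_lit 1) (.n (nat_lit 6) (nat_lit 1) (.p (nat_lit 13) (nat_lit 1) (.n (nat_lit 14) (nat_lit 1) (.p (nat_lit 22) (nat_lit 2) (.n (nat_lit 33) (nat_lit 1) (.p (nat_lit 80) (nat_lit 1) (.n (nat_lit 123) (nat_lit 1) (.p (nat_lit 130) (nat_lit 1) (.p (nat_lit 132) (nat_lit 2) (.n (nat_lit 139) (nat_lit 1) .z))))))))))) .nil)))))))))))))))))))))))))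

noncomputable def dC2b_i86 : IL := (.e false (nat_lit 1) (nat_lit 213) (nat_lit 2) (nat_lit 16) (.e false (nat_lit 1) (nat_lit 214) (nat_lit 2) (nat_lit 16) (.e true (nat_lit 2) (nat_lit 215) (nat_lit 2) (nat_lit 16) (.e true (nat_lit 3) (nat_lit 216) (nat_lit 2) (nat_lit 16) (.e false (nat_lit 1) (nat_lit 217) (nat_lit 2) (nat_lit 16) (.e true (nat_lit 1) (nat_lit 218) (nat_lit 2) (nat_lit 16) (.e true (nat_lit 3) (nat_lit 219) (nat_lit 2) (nat_lit 16) (.e true (nat_lit 1) (nat_lit 220) (nat_lit 2) (nat_lit 16) (.e true (nat_lit 3) (nat_lit 221) (nat_lit 2) (nat_lit 16) (.e true (nat_lit 2) (nat_lit 222) (nat_lit 2) (nat_lit 16) (.e false (nat_lit 3) (nat_lit 225) (nat_lit 2) (nat_lit 16) (.e false (nat_lit 1) (nat_lit 227) (nat_lit 2) (nat_lit 16) (.e false (nat_lit 1) (nat_lit 228) (nat_lit 2) (nat_lit 16) (.e false (nat_lit 3) (nat_lit 229) (nat_lit 2) (nat_lit 16)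 (.e false (nat_lit 3) (nat_lit 230) (nat_lit 2) (nat_lit 16) (.e false (nat_lit 2) (nat_lit 231) (nat_lit 2) (nat_lit 16) (.e true (nat_lit 1) (nat_lit 233) (nat_lit 2) (nat_lit 16) (.e true (nat_lit 1) (nat_lit 235) (nat_lit 2) (nat_lit 16) (.e true (nat_lit 1) (nat_lit 242) (nat_lit 2) (nat_lit 16) (.e false (nat_lit 3) (nat_lit 245) (nat_lit 2) (nat_lit 16) (.e true (nat_lit 1) (nat_lit 246) (nat_lit 2) (nat_lit 16) (.e true (nat_lit 1) (nat_lit 247) (nat_lit 2) (nat_lit 16) (.e true (nat_lit 3) (nat_lit 248) (nat_lit 2) (nat_lit 16) (.e true (nat_lit 3) (nat_lit 251) (nat_lit 2) (nat_lit 16) (.u (nat_lit 2) (.n (nat_lit 0) (nat_lit 4) (.n (nat_lit 1) (nat_lit 1) (.p (nat_lit 3) (nat_lit 1) (.n (nat_lit 4) (nat_lit 2) (.n (nat_lit 5) (nat_lit 3) (.p (nat_lit 6) (nat_lit 3) (.p (nat_lit 7) (nat_lit 3) (.n (nat_lit 8) (nat_lit 2) (.n (nat_lit 9) (nat_lit 4) (.p (nat_lit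 11) (nat_lit 1) (.n (nat_lit 12) (nat_lit 2) (.n (nat_lit 14) (nat_lit 2) (.p (nat_lit 15) (nat_lit 1) (.p (nat_lit 16) (nat_lit 3) (.n (nat_lit 17) (nat_lit 2) (.p (nat_lit 18) (nat_lit 4) (.p (nat_lit 19) (nat_lit 4) (.n (nat_lit 20) (nat_lit 1) (.n (nat_lit 21) (nat_lit 4) (.p (nat_lit 22) (nat_lit 4) (.p (nat_lit 23) (nat_lit 3) (.n (nat_lit 24) (nat_lit 2) (.n (nat_lit 26) (nat_lit 2) (.p (nat_lit 27) (nat_lit 3) (.p (nat_lit 28) (nat_lit 4) (.p (nat_lit 29) (nat_lit 2) (.p (nat_lit 31) (nat_lit 4) (.n (nat_lit 32) (nat_lit 2) (.n (nat_lit 33) (nat_lit 1) (.p (nat_lit 34) (nat_lit 1) (.n (nat_lit 35) (nat_lit 1) (.n (nat_lit 36) (nat_lit 3) (.p (nat_lit 38) (nat_lit 1) (.p (nat_lit 39) (nat_lit 2) (.n (nat_lit 40) (nat_lit 1) (.p (nat_lit 42) (nat_lit 2) (.n (nat_lit 44) (nat_lit 1) (.p (nat_lit 45) (nat_lit 3) (.n (nat_lit 46) (nat_lit 5) (.n (nat_lit 48) (nat_lit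 1) (.n (nat_lit 52) (nat_lit 1) .z))))))))))))))))))))))))))))))))))))))))) .nil)))))))))))))))))))))))))

noncomputable def dC2b_i87 : IL := (.e false (nat_lit 2) (nat_lit 206) (nat_lit 2) (nat_lit 16) (.e true (nat_lit 1) (nat_lit 207) (nat_lit 2) (nat_lit 16) (.e false (nat_lit 1) (nat_lit 209) (nat_lit 2) (nat_lit 16) (.e true (nat_lit 1) (nat_lit 210) (nat_lit 2) (nat_lit 16) (.e true (nat_lit 1) (nat_lit 213) (nat_lit 2) (nat_lit 16) (.e false (nat_lit 1) (nat_lit 214) (nat_lit 2) (nat_lit 16) (.e true (nat_lit 2) (nat_lit 215) (nat_lit 2) (nat_lit 16) (.e false (nat_lit 2) (nat_lit 217) (nat_lit 2) (nat_lit 16) (.e true (nat_lit 2) (nat_lit 218) (nat_lit 2) (nat_lit 16) (.e false (nat_lit 1) (nat_lit 219) (nat_lit 2) (nat_lit 16) (.e true (nat_lit 1) (nat_lit 220) (nat_lit 2) (nat_lit 16) (.e true (nat_lit 3) (nat_lit 222) (nat_lit 2) (nat_lit 16) (.e true (nat_lit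 3) (nat_lit 225) (nat_lit 2) (nat_lit 16) (.e false (nat_lit 1) (nat_lit 226) (nat_lit 2) (nat_lit 16) (.e true (nat_lit 1) (nat_lit 227) (nat_lit 2) (nat_lit 16) (.e false (nat_lit 1) (nat_lit 229) (nat_lit 2) (nat_lit 16) (.e false (nat_lit 1) (nat_lit 230) (nat_lit 2) (nat_lit 16) (.e false (nat_lit 2) (nat_lit 231) (nat_lit 2) (nat_lit 16) (.e true (nat_lit 1) (nat_lit 233) (nat_lit 2) (nat_lit 16) (.e true (nat_lit 1) (nat_lit 235) (nat_lit 2) (nat_lit 16) (.e true (nat_lit 1) (nat_lit 242) (nat_lit 2) (nat_lit 16) (.e false (nat_lit 3) (nat_lit 245) (nat_lit 2) (nat_lit 16) (.e true (nat_lit 3) (nat_lit 248) (nat_lit 2) (nat_lit 16) (.e false (nat_lit 2) (nat_lit 251) (nat_lit 2) (nat_lit 16) (.u (nat_lit 2) (.n (nat_lit 0) (nat_lit 2) (.n (nat_lit 1) (nat_lit 1) (.p (nat_lit 2) (nat_lit 1) (.n (nat_lit 4) (nat_lit 2) (.n (nat_lit 5) (nat_lit 2) (.n (nat_lit 8) (nat_lit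 1) (.p (nat_lit 9) (nat_lit 2) (.n (nat_lit 10) (nat_lit 2) (.p (nat_lit 11) (nat_lit 1) (.n (nat_lit 12) (nat_lit 3) (.p (nat_lit 15) (nat_lit 1) (.p (nat_lit 16) (nat_lit 4) (.n (nat_lit 17) (nat_lit 1) (.n (nat_lit 19) (nat_lit 4) (.p (nat_lit 20) (nat_lit 1) (.n (nat_lit 23) (nat_lit 1) (.p (nat_lit 24) (nat_lit 1) (.n (nat_lit 25) (nat_lit 2) (.n (nat_lit 26) (nat_lit 2) (.n (nat_lit 27) (nat_lit 1) (.p (nat_lit 28) (nat_lit 4) (.p (nat_lit 29) (nat_lit 2) (.n (nat_lit 31) (nat_lit 3) (.n (nat_lit 32) (nat_lit 2) (.p (nat_lit 33) (nat_lit 3) (.n (nat_lit 34) (nat_lit 3) (.p (nat_lit 35) (nat_lit 3) (.p (nat_lit 36) (nat_lit 2) (.n (nat_lit 38) (nat_lit 3) (.n (nat_lit 39) (nat_lit 1) (.p (nat_lit 40) (nat_lit 1) (.n (nat_lit 44) (nat_lit 1) (.n (nat_lit 45) (nat_lit 3) (.n (nat_lit 46) (nat_lit 3) (.n (nat_lit 47) (nat_lit 1) .z))))))))))))))))))))))))))))))))))) .nil)))))))))))))))))))))))))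

noncomputable def dC2b_i88 : IL := (.e true (nat_lit 1) (nat_lit 211) (nat_lit 2) (nat_lit 16) (.e false (nat_lit 2) (nat_lit 212) (nat_lit 2) (nat_lit 16) (.e false (nat_lit 1) (nat_lit 213) (nat_lit 2) (nat_lit 16) (.e true (nat_lit 2) (nat_lit 214) (nat_lit 2) (nat_lit 16) (.e true (nat_lit 1) (nat_lit 215) (nat_lit 2) (nat_lit 16) (.e false (nat_lit 2) (nat_lit 217) (nat_lit 2) (nat_lit 16) (.e false (nat_lit 1) (nat_lit 219) (nat_lit 2) (nat_lit 16) (.e true (nat_lit 1) (nat_lit 221) (nat_lit 2) (nat_lit 16) (.e false (nat_lit 3) (nat_lit 229) (nat_lit 2) (nat_lit 16) (.e false (nat_lit 1) (nat_lit 303) (nat_lit 0) (nat_lit 18) (.e true (nat_lit 1) (nat_lit 206) (nat_lit 2) (nat_lit 16) (.e true (nat_lit 3) (nat_lit 225) (nat_lit 2) (nat_lit 16) (.e true (nat_lit 2) (nat_lit 228) (nat_lit 2) (nat_lit 16) (.e true (nat_lit 3) (nat_lit 230) (nat_lit 2) (nat_lit 16) (.e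 false (nat_lit 2) (nat_lit 231) (nat_lit 2) (nat_lit 16) (.e false (nat_lit 1) (nat_lit 232) (nat_lit 2) (nat_lit 16) (.e true (nat_lit 1) (nat_lit 242) (nat_lit 2) (nat_lit 16) (.e false (nat_lit 3) (nat_lit 243) (nat_lit 2) (nat_lit 16) (.e false (nat_lit 3) (nat_lit 245) (nat_lit 2) (nat_lit 16) (.e false (nat_lit 2) (nat_lit 246) (nat_lit 2) (nat_lit 16) (.e true (nat_lit 2) (nat_lit 247) (nat_lit 2) (nat_lit 16) (.e false (nat_lit 3) (nat_lit 248) (nat_lit 2) (nat_lit 16) (.e false (nat_lit 2) (nat_lit 249) (nat_lit 2) (nat_lit 16) (.e true (nat_lit 3) (nat_lit 251) (nat_lit 2) (nat_lit 16) (.u (nat_lit 2) (.n (nat_lit 0) (nat_lit 1) (.n (nat_lit 1) (nat_lit 8) (.p (nat_lit 2) (nat_lit 9) (.p (nat_lit 3) (nat_lit 3) (.p (nat_lit 4) (nat_lit 5) (.n (nat_lit 5) (nat_lit 2) (.n (nat_lit 6) (nat_lit 2) (.n (nat_lit 7) (nat_lit 2) (.n (nat_lit 8) (nat_lit 3) (.p (nat_lit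 9) (nat_lit 3) (.n (nat_lit 10) (nat_lit 2) (.n (nat_lit 11) (nat_lit 2) (.n (nat_lit 14) (nat_lit 1) (.p (nat_lit 15) (nat_lit 2) (.n (nat_lit 16) (nat_lit 4) (.n (nat_lit 17) (nat_lit 4) (.p (nat_lit 18) (nat_lit 1) (.n (nat_lit 19) (nat_lit 4) (.p (nat_lit 20) (nat_lit 3) (.p (nat_lit 21) (nat_lit 2) (.n (nat_lit 22) (nat_lit 2) (.n (nat_lit 23) (nat_lit 2) (.p (nat_lit 25) (nat_lit 6) (.n (nat_lit 26) (nat_lit 3) (.p (nat_lit 28) (nat_lit 1) (.p (nat_lit 29) (nat_lit 1) (.p (nat_lit 31) (nat_lit 5) (.n (nat_lit 32) (nat_lit 3) (.p (nat_lit 33) (nat_lit 2) (.p (nat_lit 34) (nat_lit 2) (.n (nat_lit 36) (nat_lit 3) (.n (nat_lit 37) (nat_lit 5) (.n (nat_lit 38) (nat_lit 2) (.n (nat_lit 39) (nat_lit 2) (.p (nat_lit 40) (nat_lit 1) (.n (nat_lit 42) (nat_lit 1) (.p (nat_lit 44) (nat_lit 1) (.n (nat_lit 45) (nat_lit 2) (.n (nat_lit 46) (nat_lit 1) (.n (nat_lit 47) (nat_lit 5)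 (.n (nat_lit 48) (nat_lit 2) (.n (nat_lit 55) (nat_lit 1) (.p (nat_lit 305) (nat_lit 1) (.n (nat_lit 326) (nat_lit 1) .z)))))))))))))))))))))))))))))))))))))))))))) .nil)))))))))))))))))))))))))

noncomputable def dC2b_i89 : IL := (.e false (nat_lit 2) (nat_lit 206) (nat_lit 2) (nat_lit 16) (.e false (nat_lit 2) (nat_lit 207) (nat_lit 2) (nat_lit 16) (.e false (nat_lit 1) (nat_lit 208) (nat_lit 2) (nat_lit 16) (.e false (nat_lit 1) (nat_lit 209) (nat_lit 2) (nat_lit 16) (.e true (nat_lit 3) (nat_lit 211) (nat_lit 2) (nat_lit 16) (.e true (nat_lit 3) (nat_lit 212) (nat_lit 2) (nat_lit 16) (.e false (nat_lit 3) (nat_lit 213) (nat_lit 2) (nat_lit 16) (.e false (nat_lit 3) (nat_lit 214) (nat_lit 2) (nat_lit 16) (.e true (nat_lit 3) (nat_lit 215) (nat_lit 2) (nat_lit 16) (.e false (nat_lit 1) (nat_lit 217) (nat_lit 2) (nat_lit 16) (.e false (nat_lit 1) (nat_lit 219) (nat_lit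 2) (nat_lit 16) (.e true (nat_lit 1) (nat_lit 221) (nat_lit 2) (nat_lit 16) (.e false (nat_lit 2) (nat_lit 98) (nat_lit 10) (nat_lit 9) (.e false (nat_lit 2) (nat_lit 99) (nat_lit 10) (nat_lit 9) (.e false (nat_lit 2) (nat_lit 225) (nat_lit 2) (nat_lit 16) (.e true (nat_lit 3) (nat_lit 227) (nat_lit 2) (nat_lit 16) (.e false (nat_lit 1) (nat_lit 228) (nat_lit 2) (nat_lit 16) (.e false (nat_lit 1) (nat_lit 229) (nat_lit 2) (nat_lit 16) (.e true (nat_lit 2) (nat_lit 245) (nat_lit 2) (nat_lit 16) (.e false (nat_lit 1) (nat_lit 246) (nat_lit 2) (nat_lit 16) (.e true (nat_lit 2) (nat_lit 247) (nat_lit 2) (nat_lit 16) (.e false (nat_lit 2) (nat_lit 248) (nat_lit 2) (nat_lit 16) (.e true (nat_lit 2) (nat_lit 249) (nat_lit 2) (nat_lit 16) (.e true (nat_lit 2) (nat_lit 251) (nat_lit 2) (nat_lit 16) (.u (nat_lit 2) (.n (nat_lit 0) (nat_lit 1) (.n (nat_lit 1) (nat_lit 1) (.p (nat_lit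 2) (nat_lit 2) (.n (nat_lit 4) (nat_lit 2) (.p (nat_lit 6) (nat_lit 5) (.n (nat_lit 8) (nat_lit 3) (.n (nat_lit 9) (nat_lit 3) (.n (nat_lit 11) (nat_lit 3) (.p (nat_lit 12) (nat_lit 5) (.p (nat_lit 14) (nat_lit 2) (.n (nat_lit 15) (nat_lit 3) (.p (nat_lit 16) (nat_lit 1) (.n (nat_lit 17) (nat_lit 1) (.n (nat_lit 19) (nat_lit 3) (.p (nat_lit 20) (nat_lit 1) (.n (nat_lit 21) (nat_lit 2) (.p (nat_lit 22) (nat_lit 2) (.n (nat_lit 24) (nat_lit 5) (.p (nat_lit 25) (nat_lit 1) (.n (nat_lit 26) (nat_lit 3) (.n (nat_lit 27) (nat_lit 3) (.n (nat_lit 28) (nat_lit 1) (.p (nat_lit 31) (nat_lit 3) (.p (nat_lit 32) (nat_lit 3) (.n (nat_lit 33) (nat_lit 1) (.n (nat_lit 34) (nat_lit 1) (.p (nat_lit 35) (nat_lit 1) (.n (nat_lit 36) (nat_lit 2) (.p (nat_lit 37) (nat_lit 1) (.p (nat_lit 38) (nat_lit 1) (.p (nat_lit 39) (nat_lit 5) (.p (nat_lit 42) (nat_lit 1) (.p (nat_lit 45) (nat_lit 5) (.n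 (nat_lit 46) (nat_lit 3) (.n (nat_lit 47) (nat_lit 1) (.n (nat_lit 48) (nat_lit 2) (.n (nat_lit 303) (nat_lit 1) (.n (nat_lit 305) (nat_lit 1) (.p (nat_lit 308) (nat_lit 1) (.n (nat_lit 310) (nat_lit 1) (.p (nat_lit 312) (nat_lit 1) .z))))))))))))))))))))))))))))))))))))))))) .nil)))))))))))))))))))))))))

noncomputable def dC2b_i90 : IL := (.e true (nat_lit 2) (nat_lit 151) (nat_lit 1) (nat_lit 13) (.e true (nat_lit 3) (nat_lit 152) (nat_lit 1) (nat_lit 13) (.e true (nat_lit 2) (nat_lit 153) (nat_lit 1) (nat_lit 13) (.e true (nat_lit 1) (nat_lit 154) (nat_lit 1) (nat_lit 13) (.e true (nat_lit 1) (nat_lit 155) (nat_lit 1) (nat_lit 13) (.e false (nat_lit 2) (nat_lit 157) (nat_lit 1) (nat_lit 13) (.e false (nat_lit 1) (nat_lit 117) (nat_lit 2) (nat_lit 12) (.e false (nat_lit 3) (nat_lit 118) (nat_lit 2) (nat_lit 12) (.e true (nat_lit 3) (nat_lit 120) (nat_lit 2) (nat_lit 12)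 (.e false (nat_lit 2) (nat_lit 121) (nat_lit 2) (nat_lit 12) (.e false (nat_lit 3) (nat_lit 122) (nat_lit 2) (nat_lit 12) (.e true (nat_lit 2) (nat_lit 106) (nat_lit 2) (nat_lit 12) (.e false (nat_lit 3) (nat_lit 107) (nat_lit 2) (nat_lit 12) (.e false (nat_lit 2) (nat_lit 108) (nat_lit 2) (nat_lit 12) (.e false (nat_lit 1) (nat_lit 110) (nat_lit 2) (nat_lit 12) (.e true (nat_lit 2) (nat_lit 112) (nat_lit 2) (nat_lit 12) (.e false (nat_lit 2) (nat_lit 114) (nat_lit 2) (nat_lit 12) (.e false (nat_lit 3) (nat_lit 116) (nat_lit 2) (nat_lit 12) (.e false (nat_lit 1) (nat_lit 119) (nat_lit 2) (nat_lit 12) (.e false (nat_lit 1) (nat_lit 123) (nat_lit 2) (nat_lit 12) (.e true (nat_lit 2) (nat_lit 126) (nat_lit 2) (nat_lit 12) (.e true (nat_lit 3) (nat_lit 127) (nat_lit 2) (nat_lit 12) (.e true (nat_lit 3) (nat_lit 109) (nat_lit 2) (nat_lit 12) (.e false (nat_lit 2) (nat_lit 125)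 (nat_lit 2) (nat_lit 12) (.u (nat_lit 2) (.n (nat_lit 0) (nat_lit 1) (.p (nat_lit 3) (nat_lit 1) (.n (nat_lit 6) (nat_lit 3) (.n (nat_lit 8) (nat_lit 1) (.n (nat_lit 11) (nat_lit 1) (.n (nat_lit 12) (nat_lit 1) (.p (nat_lit 13) (nat_lit 1) (.n (nat_lit 14) (nat_lit 1) (.n (nat_lit 16) (nat_lit 2) (.p (nat_lit 20) (nat_lit 2) (.n (nat_lit 22) (nat_lit 2) (.n (nat_lit 23) (nat_lit 1) (.n (nat_lit 24) (nat_lit 1) (.n (nat_lit 26) (nat_lit 1) (.p (nat_lit 27) (nat_lit 3) (.p (nat_lit 29) (nat_lit 1) (.n (nat_lit 30) (nat_lit 1) (.n (nat_lit 34) (nat_lit 1) (.n (nat_lit 35) (nat_lit 1) (.n (nat_lit 38) (nat_lit 2) (.p (nat_lit 39) (nat_lit 2) (.p (nat_lit 41) (nat_lit 1) (.p (nat_lit 42) (nat_lit 3) (.n (nat_lit 43) (nat_lit 1) (.p (nat_lit 44) (nat_lit 2) (.p (nat_lit 45) (nat_lit 1) (.p (nat_lit 146) (nat_lit 1) (.p (nat_lit 149) (nat_lit 1) (.p (nat_lit 152) (nat_lit 1) (.n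 (nat_lit 153) (nat_lit 1) (.n (nat_lit 154) (nat_lit 1) (.p (nat_lit 155) (nat_lit 1) (.n (nat_lit 157) (nat_lit 1) (.p (nat_lit 160) (nat_lit 2) (.n (nat_lit 162) (nat_lit 1) (.n (nat_lit 170) (nat_lit 1) (.n (nat_lit 171) (nat_lit 1) .z))))))))))))))))))))))))))))))))))))) .nil)))))))))))))))))))))))))

noncomputable def dC2b_i91 : IL := (.e true (nat_lit 1) (nat_lit 64) (nat_lit 6) (nat_lit 8) (.e true (nat_lit 1) (nat_lit 69) (nat_lit 6) (nat_lit 8) (.e false (nat_lit 1) (nat_lit 73) (nat_lit 6) (nat_lit 8) (.e false (nat_lit 1) (nat_lit 156) (nat_lit 1) (nat_lit 13) (.e true (nat_lit 1) (nat_lit 36) (nat_lit 15) (nat_lit 3) (.e false (nat_lit 1) (nat_lit 106) (nat_lit 2) (nat_lit 12) (.e true (nat_lit 2) (nat_lit 107) (nat_lit 2) (nat_lit 12) (.e true (nat_lit 3) (nat_lit 108) (nat_lit 2) (nat_lit 12) (.e false (nat_lit 2) (nat_lit 110) (nat_lit 2) (nat_lit 12) (.e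 true (nat_lit 3) (nat_lit 113) (nat_lit 2) (nat_lit 12) (.e true (nat_lit 1) (nat_lit 114) (nat_lit 2) (nat_lit 12) (.e false (nat_lit 3) (nat_lit 115) (nat_lit 2) (nat_lit 12) (.e true (nat_lit 3) (nat_lit 116) (nat_lit 2) (nat_lit 12) (.e true (nat_lit 2) (nat_lit 117) (nat_lit 2) (nat_lit 12) (.e false (nat_lit 2) (nat_lit 119) (nat_lit 2) (nat_lit 12) (.e false (nat_lit 3) (nat_lit 120) (nat_lit 2) (nat_lit 12) (.e true (nat_lit 3) (nat_lit 122) (nat_lit 2) (nat_lit 12) (.e false (nat_lit 2) (nat_lit 123) (nat_lit 2) (nat_lit 12) (.e false (nat_lit 1) (nat_lit 124) (nat_lit 2) (nat_lit 12) (.e true (nat_lit 1) (nat_lit 126) (nat_lit 2) (nat_lit 12) (.e true (nat_lit 2) (nat_lit 127) (nat_lit 2) (nat_lit 12) (.e false (nat_lit 1) (nat_lit 128) (nat_lit 2) (nat_lit 12) (.e true (nat_lit 3) (nat_lit 130) (nat_lit 2) (nat_lit 12) (.e true (nat_lit 3) (nat_lit 131) (nat_lit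 2) (nat_lit 12) (.u (nat_lit 2) (.n (nat_lit 1) (nat_lit 1) (.p (nat_lit 3) (nat_lit 1) (.p (nat_lit 5) (nat_lit 1) (.n (nat_lit 6) (nat_lit 1) (.n (nat_lit 7) (nat_lit 1) (.p (nat_lit 8) (nat_lit 1) (.n (nat_lit 10) (nat_lit 1) (.p (nat_lit 13) (nat_lit 1) (.n (nat_lit 15) (nat_lit 1) (.n (nat_lit 24) (nat_lit 1) (.n (nat_lit 25) (nat_lit 1) (.n (nat_lit 26) (nat_lit 1) (.p (nat_lit 27) (nat_lit 1) (.p (nat_lit 37) (nat_lit 1) (.n (nat_lit 38) (nat_lit 1) (.n (nat_lit 40) (nat_lit 1) (.p (nat_lit 41) (nat_lit 1) .z))))))))))))))))) .nil)))))))))))))))))))))))))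

noncomputable def dC2b_i92 : IL := (.s true (nat_lit 1) (nat_lit 40) (nat_lit 2) (nat_lit 1) (nat_lit 2) true (nat_lit 4) true (nat_lit 7) false (nat_lit 1) true (nat_lit 7) true (nat_lit 8) (.s false (nat_lit 1) (nat_lit 40) (nat_lit 2) (nat_lit 2) (nat_lit 1) true (nat_lit 5) true (nat_lit 8) false (nat_lit 1) true (nat_lit 7) true (nat_lit 7) (.s true (nat_lit 1) (nat_lit 41) (nat_lit 2) (nat_lit 2) (nat_lit 1) true (nat_lit 5) true (nat_lit 8) false (nat_lit 1) true (nat_lit 7) true (nat_lit 7) (.s true (nat_lit 1) (nat_lit 46) (nat_lit 1) (nat_lit 2) (nat_lit 1) true (nat_lit 6) true (nat_lit 8) false (nat_lit 2) true (nat_lit 8) true (nat_lit 7) (.s false (nat_lit 1) (nat_lit 47) (nat_lit 1) (nat_lit 2) (nat_lit 1) true (nat_lit 6) true (nat_lit 8) false (nat_lit 2) true (nat_lit 8) true (nat_lit 7) (.s true (nat_lit 3) (nat_lit 48) (nat_lit 1) (nat_lit 1) (nat_lit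 1) true (nat_lit 6) true (nat_lit 8) false (nat_lit 3) true (nat_lit 8) true (nat_lit 8) (.e true (nat_lit 3) (nat_lit 158) (nat_lit 2) (nat_lit 7) (.e true (nat_lit 1) (nat_lit 159) (nat_lit 2) (nat_lit 7) (.e false (nat_lit 2) (nat_lit 160) (nat_lit 2) (nat_lit 7) (.e true (nat_lit 3) (nat_lit 161) (nat_lit 2) (nat_lit 7) (.e true (nat_lit 2) (nat_lit 162) (nat_lit 2) (nat_lit 7) (.e false (nat_lit 2) (nat_lit 163) (nat_lit 2) (nat_lit 7) (.e true (nat_lit 2) (nat_lit 164) (nat_lit 2) (nat_lit 7) (.e false (nat_lit 1) (nat_lit 165) (nat_lit 2) (nat_lit 7) (.e true (nat_lit 1) (nat_lit 166) (nat_lit 2) (nat_lit 7) (.e false (nat_lit 1) (nat_lit 74) (nat_lit 7) (nat_lit 4) (.e true (nat_lit 1) (nat_lit 75) (nat_lit 7) (nat_lit 4) (.e false (nat_lit 2) (nat_lit 186) (nat_lit 1) (nat_lit 8) (.e true (nat_lit 1) (nat_lit 188) (nat_lit 1) (nat_lit 8) (.e false (nat_lit 1) (nat_lit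 94) (nat_lit 6) (nat_lit 5) (.e true (nat_lit 1) (nat_lit 30) (nat_lit 20) (nat_lit 0) (.e false (nat_lit 1) (nat_lit 31) (nat_lit 20) (nat_lit 0) (.e false (nat_lit 1) (nat_lit 192) (nat_lit 1) (nat_lit 8) (.e true (nat_lit 1) (nat_lit 193) (nat_lit 1) (nat_lit 8) (.u (nat_lit 2) (.p (nat_lit 0) (nat_lit 1) (.n (nat_lit 2) (nat_lit 1) (.n (nat_lit 3) (nat_lit 1) (.p (nat_lit 5) (nat_lit 1) (.n (nat_lit 6) (nat_lit 1) (.p (nat_lit 16) (nat_lit 1) (.n (nat_lit 17) (nat_lit 1) (.p (nat_lit 20) (nat_lit 1) (.n (nat_lit 21) (nat_lit 1) (.n (nat_lit 23) (nat_lit 1) (.p (nat_lit 24) (nat_lit 1) (.n (nat_lit 32) (nat_lit 1) (.p (nat_lit 33) (nat_lit 1) (.p (nat_lit 39) (nat_lit 1) (.n (nat_lit 40) (nat_lit 1) (.n (nat_lit 45) (nat_lit 1) (.p (nat_lit 46) (nat_lit 1) (.p (nat_lit 48) (nat_lit 3) (.p (nat_lit 49) (nat_lit 1) (.n (nat_lit 50) (nat_lit 1) (.p (nat_lit 52) (nat_lit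 1) (.p (nat_lit 53) (nat_lit 3) (.p (nat_lit 55) (nat_lit 1) (.n (nat_lit 59) (nat_lit 1) (.p (nat_lit 60) (nat_lit 1) (.n (nat_lit 61) (nat_lit 1) (.n (nat_lit 62) (nat_lit 1) (.p (nat_lit 64) (nat_lit 2) .z)))))))))))))))))))))))))))) .nil)))))))))))))))))))))))))

noncomputable def dC2b_i93 : IL := (.e false (nat_lit 3) (nat_lit 265) (nat_lit 1) (nat_lit 17) (.e false (nat_lit 2) (nat_lit 272) (nat_lit 1) (nat_lit 17) (.e false (nat_lit 3) (nat_lit 274) (nat_lit 1) (nat_lit 17) (.e false (nat_lit 3) (nat_lit 275) (nat_lit 1) (nat_lit 17) (.e true (nat_lit 2) (nat_lit 277) (nat_lit 1) (nat_lit 17) (.e true (nat_lit 3) (nat_lit 283) (nat_lit 1) (nat_lit 17) (.e false (nat_lit 3) (nat_lit 285) (nat_lit 1) (nat_lit 17) (.e true (nat_lit 2) (nat_lit 286) (nat_lit 1) (nat_lit 17) (.e true (nat_lit 1) (nat_lit 258) (nat_lit 1) (nat_lit 17) (.e false (nat_lit 2) (nat_lit 268)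 (nat_lit 1) (nat_lit 17) (.e false (nat_lit 2) (nat_lit 273) (nat_lit 1) (nat_lit 17) (.e true (nat_lit 2) (nat_lit 276) (nat_lit 1) (nat_lit 17) (.e false (nat_lit 2) (nat_lit 280) (nat_lit 1) (nat_lit 17) (.e true (nat_lit 2) (nat_lit 259) (nat_lit 1) (nat_lit 17) (.e false (nat_lit 2) (nat_lit 260) (nat_lit 1) (nat_lit 17) (.e true (nat_lit 2) (nat_lit 269) (nat_lit 1) (nat_lit 17) (.e false (nat_lit 1) (nat_lit 253) (nat_lit 1) (nat_lit 17) (.e true (nat_lit 2) (nat_lit 254) (nat_lit 1) (nat_lit 17) (.e true (nat_lit 1) (nat_lit 270) (nat_lit 1) (nat_lit 17) (.e false (nat_lit 2) (nat_lit 281) (nat_lit 1) (nat_lit 17) (.e false (nat_lit 2) (nat_lit 255) (nat_lit 1) (nat_lit 17) (.e true (nat_lit 2) (nat_lit 279) (nat_lit 1) (nat_lit 17) (.e false (nat_lit 2) (nat_lit 262) (nat_lit 1) (nat_lit 17) (.u (nat_lit 2) (.n (nat_lit 0) (nat_lit 3) (.n (nat_lit 1) (nat_lit 1)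 (.n (nat_lit 3) (nat_lit 3) (.p (nat_lit 4) (nat_lit 2) (.p (nat_lit 5) (nat_lit 1) (.n (nat_lit 6) (nat_lit 6) (.n (nat_lit 7) (nat_lit 1) (.n (nat_lit 8) (nat_lit 5) (.n (nat_lit 9) (nat_lit 2) (.n (nat_lit 10) (nat_lit 2) (.p (nat_lit 11) (nat_lit 13) (.p (nat_lit 12) (nat_lit 1) (.n (nat_lit 14) (nat_lit 7) (.n (nat_lit 15) (nat_lit 7) (.p (nat_lit 16) (nat_lit 6) (.n (nat_lit 17) (nat_lit 1) (.n (nat_lit 18) (nat_lit 4) (.n (nat_lit 19) (nat_lit 4) (.n (nat_lit 20) (nat_lit 1) (.n (nat_lit 21) (nat_lit 1) (.p (nat_lit 22) (nat_lit 1) (.n (nat_lit 23) (nat_lit 1) (.n (nat_lit 24) (nat_lit 1) (.p (nat_lit 25) (nat_lit 6) (.p (nat_lit 26) (nat_lit 3) (.n (nat_lit 27) (nat_lit 5) (.p (nat_lit 28) (nat_lit 1) (.n (nat_lit 31) (nat_lit 4) (.n (nat_lit 32) (nat_lit 2) (.p (nat_lit 33) (nat_lit 2) (.p (nat_lit 34) (nat_lit 1) (.p (nat_lit 35) (nat_lit 3) (.p (nat_lit 36) (nat_lit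 2) (.n (nat_lit 38) (nat_lit 7) (.p (nat_lit 39) (nat_lit 4) (.n (nat_lit 40) (nat_lit 2) (.n (nat_lit 41) (nat_lit 2) (.p (nat_lit 42) (nat_lit 1) (.n (nat_lit 45) (nat_lit 1) (.n (nat_lit 47) (nat_lit 2) (.p (nat_lit 48) (nat_lit 4) (.n (nat_lit 50) (nat_lit 1) (.p (nat_lit 54) (nat_lit 1) (.p (nat_lit 55) (nat_lit 3) (.p (nat_lit 56) (nat_lit 3) (.p (nat_lit 57) (nat_lit 1) (.p (nat_lit 239) (nat_lit 1) (.p (nat_lit 241) (nat_lit 1) (.n (nat_lit 242) (nat_lit 1) (.n (nat_lit 244) (nat_lit 1) (.n (nat_lit 245) (nat_lit 1) (.p (nat_lit 248) (nat_lit 1) (.n (nat_lit 251) (nat_lit 1) (.p (nat_lit 254) (nat_lit 2) (.n (nat_lit 256) (nat_lit 1) (.p (nat_lit 257) (nat_lit 1) (.p (nat_lit 258) (nat_lit 1) (.p (nat_lit 260) (nat_lit 1) (.n (nat_lit 263) (nat_lit 1) (.n (nat_lit 264) (nat_lit 1) .z)))))))))))))))))))))))))))))))))))))))))))))))))))))))))))) (.u (nat_lit 2) (.n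 (nat_lit 350) (nat_lit 1) (.n (nat_lit 352) (nat_lit 1) (.p (nat_lit 353) (nat_lit 2) (.p (nat_lit 354) (nat_lit 1) (.p (nat_lit 355) (nat_lit 1) (.p (nat_lit 356) (nat_lit 1) (.n (nat_lit 357) (nat_lit 1) (.p (nat_lit 358) (nat_lit 1) (.p (nat_lit 366) (nat_lit 1) (.p (nat_lit 368) (nat_lit 1) (.p (nat_lit 369) (nat_lit 1) (.p (nat_lit 370) (nat_lit 1) (.n (nat_lit 371) (nat_lit 2) (.n (nat_lit 372) (nat_lit 2) (.n (nat_lit 374) (nat_lit 1) (.p (nat_lit 380) (nat_lit 1) (.n (nat_lit 382) (nat_lit 1) .z))))))))))))))))) .nil)))))))))))))))))))))))))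

noncomputable def dC2b_i94 : IL := (.e false (nat_lit 1) (nat_lit 135) (nat_lit 6) (nat_lit 12) (.e false (nat_lit 2) (nat_lit 137) (nat_lit 6) (nat_lit 12) (.e true (nat_lit 3) (nat_lit 138) (nat_lit 6) (nat_lit 12) (.e false (nat_lit 1) (nat_lit 139) (nat_lit 6) (nat_lit 12) (.e true (nat_lit 1) (nat_lit 140) (nat_lit 6) (nat_lit 12) (.e true (nat_lit 2) (nat_lit 141) (nat_lit 6) (nat_lit 12) (.e true (nat_lit 3) (nat_lit 143) (nat_lit 6) (nat_lit 12) (.e true (nat_lit 3) (nat_lit 149) (nat_lit 6) (nat_lit 12) (.e false (nat_lit 3) (nat_lit 151) (nat_lit 6) (nat_lit 12) (.e false (nat_lit 2) (nat_lit 153) (nat_lit 6) (nat_lit 12) (.e true (nat_lit 3) (nat_lit 154) (nat_lit 6) (nat_lit 12) (.e false (nat_lit 1) (nat_lit 156) (nat_lit 6) (nat_lit 12) (.e true (nat_lit 3) (nat_lit 157) (nat_lit 6) (nat_lit 12) (.e true (nat_lit 2) (nat_lit 148) (nat_lit 6) (nat_lit 12) (.e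 false (nat_lit 1) (nat_lit 152) (nat_lit 6) (nat_lit 12) (.e true (nat_lit 1) (nat_lit 74) (nat_lit 17) (nat_lit 6) (.e false (nat_lit 1) (nat_lit 77) (nat_lit 17) (nat_lit 6) (.e false (nat_lit 1) (nat_lit 78) (nat_lit 17) (nat_lit 6) (.e true (nat_lit 1) (nat_lit 79) (nat_lit 17) (nat_lit 6) (.e false (nat_lit 2) (nat_lit 288) (nat_lit 1) (nat_lit 17) (.e true (nat_lit 1) (nat_lit 252) (nat_lit 1) (nat_lit 17) (.e true (nat_lit 2) (nat_lit 256) (nat_lit 1) (nat_lit 17) (.e true (nat_lit 1) (nat_lit 261) (nat_lit 1) (nat_lit 17) (.e false (nat_lit 3) (nat_lit 263) (nat_lit 1) (nat_lit 17) (.e true (nat_lit 2) (nat_lit 264) (nat_lit 1) (nat_lit 17) dC2b_i93)))))))))))))))))))))))))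

noncomputable def dC2b_i95 : IL := (.e true (nat_lit 1) (nat_lit 127) (nat_lit 2) (nat_lit 12) (.e false (nat_lit 1) (nat_lit 128) (nat_lit 2) (nat_lit 12) (.e true (nat_lit 1) (nat_lit 34) (nat_lit 14) (nat_lit 3) (.e false (nat_lit 3) (nat_lit 132) (nat_lit 1) (nat_lit 13) (.e true (nat_lit 1) (nat_lit 133) (nat_lit 1) (nat_lit 13) (.e true (nat_lit 1) (nat_lit 134) (nat_lit 1) (nat_lit 13) (.e false (nat_lit 2) (nat_lit 136) (nat_lit 1) (nat_lit 13) (.e false (nat_lit 1) (nat_lit 137) (nat_lit 1) (nat_lit 13) (.e true (nat_lit 3) (nat_lit 138) (nat_lit 1) (nat_lit 13) (.e true (nat_lit 2) (nat_lit 139) (nat_lit 1) (nat_lit 13) (.e false (nat_lit 2) (nat_lit 140) (nat_lit 1) (nat_lit 13) (.e false (nat_lit 3) (nat_lit 141) (nat_lit 1) (nat_lit 13) (.e false (nat_lit 3) (nat_lit 143) (nat_lit 1) (nat_lit 13) (.e false (nat_lit 1) (nat_lit 144) (nat_lit 1) (nat_lit 13)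 (.e false (nat_lit 1) (nat_lit 145) (nat_lit 1) (nat_lit 13) (.e false (nat_lit 3) (nat_lit 147) (nat_lit 1) (nat_lit 13) (.e true (nat_lit 2) (nat_lit 149) (nat_lit 1) (nat_lit 13) (.e false (nat_lit 2) (nat_lit 150) (nat_lit 1) (nat_lit 13) (.e false (nat_lit 2) (nat_lit 151) (nat_lit 1) (nat_lit 13) (.e false (nat_lit 3) (nat_lit 152) (nat_lit 1) (nat_lit 13) (.e false (nat_lit 2) (nat_lit 153) (nat_lit 1) (nat_lit 13) (.e false (nat_lit 1) (nat_lit 154) (nat_lit 1) (nat_lit 13) (.e false (nat_lit 1) (nat_lit 155) (nat_lit 1) (nat_lit 13) (.e true (nat_lit 2) (nat_lit 157) (nat_lit 1) (nat_lit 13) (.u (nat_lit 2) (.p (nat_lit 0) (nat_lit 1) (.p (nat_lit 1) (nat_lit 1) (.p (nat_lit 2) (nat_lit 2) (.n (nat_lit 3) (nat_lit 1) (.n (nat_lit 4) (nat_lit 1) (.p (nat_lit 5) (nat_lit 1) (.p (nat_lit 6) (nat_lit 2) (.n (nat_lit 8) (nat_lit 1) (.n (nat_lit 9) (nat_lit 1) (.n (nat_lit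 13) (nat_lit 3) (.p (nat_lit 14) (nat_lit 1) (.p (nat_lit 16) (nat_lit 3) (.n (nat_lit 20) (nat_lit 1) (.p (nat_lit 22) (nat_lit 2) (.p (nat_lit 23) (nat_lit 2) (.p (nat_lit 24) (nat_lit 2) (.p (nat_lit 26) (nat_lit 2) (.n (nat_lit 27) (nat_lit 2) (.n (nat_lit 29) (nat_lit 1) (.p (nat_lit 30) (nat_lit 1) (.p (nat_lit 34) (nat_lit 1) (.p (nat_lit 38) (nat_lit 2) (.n (nat_lit 39) (nat_lit 2) (.n (nat_lit 42) (nat_lit 3) (.n (nat_lit 44) (nat_lit 2) (.n (nat_lit 45) (nat_lit 2) .z)))))))))))))))))))))))))) .nil)))))))))))))))))))))))))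

noncomputable def dC2b_i96 : IL := (.e true (nat_lit 1) (nat_lit 61) (nat_lit 6) (nat_lit 8) (.e false (nat_lit 2) (nat_lit 63) (nat_lit 6) (nat_lit 8) (.e false (nat_lit 1) (nat_lit 64) (nat_lit 6) (nat_lit 8) (.e true (nat_lit 1) (nat_lit 65) (nat_lit 6) (nat_lit 8) (.e true (nat_lit 1) (nat_lit 67) (nat_lit 6) (nat_lit 8) (.e false (nat_lit 1) (nat_lit 68) (nat_lit 6) (nat_lit 8) (.e true (nat_lit 2) (nat_lit 71) (nat_lit 6) (nat_lit 8) (.e true (nat_lit 1) (nat_lit 73) (nat_lit 6) (nat_lit 8) (.e false (nat_lit 3) (nat_lit 106) (nat_lit 2) (nat_lit 12) (.e false (nat_lit 2) (nat_lit 107) (nat_lit 2) (nat_lit 12) (.e true (nat_lit 3) (nat_lit 109) (nat_lit 2) (nat_lit 12) (.e true (nat_lit 2) (nat_lit 110) (nat_lit 2) (nat_lit 12) (.e false (nat_lit 1) (nat_lit 111) (nat_lit 2) (nat_lit 12) (.e false (nat_lit 1) (nat_lit 112) (nat_lit 2) (nat_lit 12) (.e true (nat_lit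 2) (nat_lit 114) (nat_lit 2) (nat_lit 12) (.e true (nat_lit 1) (nat_lit 115) (nat_lit 2) (nat_lit 12) (.e true (nat_lit 3) (nat_lit 116) (nat_lit 2) (nat_lit 12) (.e true (nat_lit 2) (nat_lit 117) (nat_lit 2) (nat_lit 12) (.e true (nat_lit 3) (nat_lit 118) (nat_lit 2) (nat_lit 12) (.e false (nat_lit 2) (nat_lit 119) (nat_lit 2) (nat_lit 12) (.e true (nat_lit 1) (nat_lit 121) (nat_lit 2) (nat_lit 12) (.e true (nat_lit 1) (nat_lit 122) (nat_lit 2) (nat_lit 12) (.e false (nat_lit 3) (nat_lit 123) (nat_lit 2) (nat_lit 12) (.e false (nat_lit 2) (nat_lit 124) (nat_lit 2) (nat_lit 12) (.e true (nat_lit 2) (nat_lit 125) (nat_lit 2) (nat_lit 12) dC2b_i95)))))))))))))))))))))))))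

noncomputable def dC2b_i97 : IL := (.e false (nat_lit 2) (nat_lit 285) (nat_lit 1) (nat_lit 17) (.e true (nat_lit 1) (nat_lit 280) (nat_lit 1) (nat_lit 17) (.e false (nat_lit 2) (nat_lit 263) (nat_lit 1) (nat_lit 17) (.e true (nat_lit 1) (nat_lit 271) (nat_lit 1) (nat_lit 17) (.e true (nat_lit 1) (nat_lit 273) (nat_lit 1) (nat_lit 17) (.e false (nat_lit 1) (nat_lit 276) (nat_lit 1) (nat_lit 17) (.e false (nat_lit 1) (nat_lit 277) (nat_lit 1) (nat_lit 17) (.e false (nat_lit 1) (nat_lit 288) (nat_lit 1) (nat_lit 17) (.e false (nat_lit 3) (nat_lit 266) (nat_lit 1) (nat_lit 17) (.e false (nat_lit 2) (nat_lit 282) (nat_lit 1) (nat_lit 17) (.e false (nat_lit 1) (nat_lit 60) (nat_lit 18) (nat_lit 5) (.e false (nat_lit 1) (nat_lit 61) (nat_lit 18) (nat_lit 5) (.e true (nat_lit 1) (nat_lit 62) (nat_lit 18) (nat_lit 5) (.e true (nat_lit 1) (nat_lit 63) (nat_lit 18) (nat_lit 5) (.e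 false (nat_lit 1) (nat_lit 65) (nat_lit 18) (nat_lit 5) (.e false (nat_lit 1) (nat_lit 66) (nat_lit 18) (nat_lit 5) (.e false (nat_lit 1) (nat_lit 67) (nat_lit 18) (nat_lit 5) (.e true (nat_lit 1) (nat_lit 68) (nat_lit 18) (nat_lit 5) (.e true (nat_lit 1) (nat_lit 69) (nat_lit 18) (nat_lit 5) (.e true (nat_lit 1) (nat_lit 72) (nat_lit 18) (nat_lit 5) (.e false (nat_lit 1) (nat_lit 73) (nat_lit 18) (nat_lit 5) (.e false (nat_lit 1) (nat_lit 74) (nat_lit 16) (nat_lit 6) (.e false (nat_lit 1) (nat_lit 79) (nat_lit 16) (nat_lit 6) (.e true (nat_lit 1) (nat_lit 279) (nat_lit 1) (nat_lit 17) (.u (nat_lit 2) (.p (nat_lit 0) (nat_lit 2) (.n (nat_lit 1) (nat_lit 1) (.p (nat_lit 2) (nat_lit 1) (.n (nat_lit 3) (nat_lit 1) (.p (nat_lit 4) (nat_lit 2) (.p (nat_lit 5) (nat_lit 2) (.n (nat_lit 7) (nat_lit 1) (.p (nat_lit 9) (nat_lit 1) (.p (nat_lit 11) (nat_lit 1) (.p (nat_lit 12) (nat_lit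 2) (.n (nat_lit 15) (nat_lit 2) (.p (nat_lit 16) (nat_lit 1) (.p (nat_lit 17) (nat_lit 2) (.p (nat_lit 18) (nat_lit 1) (.p (nat_lit 19) (nat_lit 1) (.p (nat_lit 20) (nat_lit 2) (.p (nat_lit 21) (nat_lit 1) (.n (nat_lit 22) (nat_lit 1) (.p (nat_lit 23) (nat_lit 2) (.n (nat_lit 24) (nat_lit 1) (.p (nat_lit 25) (nat_lit 3) (.n (nat_lit 26) (nat_lit 3) (.n (nat_lit 27) (nat_lit 2) (.p (nat_lit 28) (nat_lit 1) (.p (nat_lit 29) (nat_lit 2) (.p (nat_lit 32) (nat_lit 1) (.n (nat_lit 34) (nat_lit 1) (.p (nat_lit 35) (nat_lit 1) (.n (nat_lit 36) (nat_lit 3) (.n (nat_lit 37) (nat_lit 2) (.n (nat_lit 40) (nat_lit 1) (.p (nat_lit 44) (nat_lit 1) (.n (nat_lit 45) (nat_lit 1) (.p (nat_lit 46) (nat_lit 1) (.p (nat_lit 47) (nat_lit 1) (.p (nat_lit 48) (nat_lit 1) (.n (nat_lit 349) (nat_lit 1) (.p (nat_lit 351) (nat_lit 1) (.p (nat_lit 352) (nat_lit 1) (.p (nat_lit 353) (nat_lit 1) (.p (nat_lit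 359) (nat_lit 1) (.p (nat_lit 360) (nat_lit 1) (.p (nat_lit 361) (nat_lit 1) (.p (nat_lit 362) (nat_lit 1) (.p (nat_lit 364) (nat_lit 1) (.p (nat_lit 367) (nat_lit 1) (.n (nat_lit 368) (nat_lit 1) (.n (nat_lit 369) (nat_lit 1) (.n (nat_lit 370) (nat_lit 1) (.p (nat_lit 372) (nat_lit 1) (.p (nat_lit 373) (nat_lit 1) (.p (nat_lit 374) (nat_lit 1) (.n (nat_lit 377) (nat_lit 1) (.p (nat_lit 383) (nat_lit 1) (.n (nat_lit 385) (nat_lit 1) .z))))))))))))))))))))))))))))))))))))))))))))))))))))))) .nil)))))))))))))))))))))))))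

noncomputable def dC2b_i98 : IL := (.e true (nat_lit 2) (nat_lit 280) (nat_lit 1) (nat_lit 17) (.e true (nat_lit 1) (nat_lit 261) (nat_lit 1) (nat_lit 17) (.e false (nat_lit 3) (nat_lit 283) (nat_lit 1) (nat_lit 17) (.e true (nat_lit 2) (nat_lit 285) (nat_lit 1) (nat_lit 17) (.e true (nat_lit 3) (nat_lit 282) (nat_lit 1) (nat_lit 17) (.e true (nat_lit 2) (nat_lit 274) (nat_lit 1) (nat_lit 17) (.e true (nat_lit 1) (nat_lit 255) (nat_lit 1) (nat_lit 17) (.e true (nat_lit 2) (nat_lit 256) (nat_lit 1) (nat_lit 17) (.e true (nat_lit 1) (nat_lit 61) (nat_lit 18) (nat_lit 5) (.e false (nat_lit 1) (nat_lit 62) (nat_lit 18) (nat_lit 5) (.e false (nat_lit 1) (nat_lit 63) (nat_lit 18) (nat_lit 5) (.e true (nat_lit 1) (nat_lit 64) (nat_lit 18) (nat_lit 5) (.e true (nat_lit 1) (nat_lit 66) (nat_lit 18) (nat_lit 5) (.e true (nat_lit 1) (nat_lit 67) (nat_lit 18) (nat_lit 5) (.e false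 (nat_lit 1) (nat_lit 68) (nat_lit 18) (nat_lit 5) (.e false (nat_lit 2) (nat_lit 71) (nat_lit 18) (nat_lit 5) (.e false (nat_lit 2) (nat_lit 72) (nat_lit 18) (nat_lit 5) (.e false (nat_lit 1) (nat_lit 74) (nat_lit 17) (nat_lit 6) (.e false (nat_lit 1) (nat_lit 79) (nat_lit 17) (nat_lit 6) (.e false (nat_lit 1) (nat_lit 267) (nat_lit 1) (nat_lit 17) (.e true (nat_lit 1) (nat_lit 279) (nat_lit 1) (nat_lit 17) (.e false (nat_lit 1) (nat_lit 284) (nat_lit 1) (nat_lit 17) (.e true (nat_lit 2) (nat_lit 286) (nat_lit 1) (nat_lit 17) (.e false (nat_lit 1) (nat_lit 288) (nat_lit 1) (nat_lit 17) (.u (nat_lit 2) (.n (nat_lit 0) (nat_lit 2) (.p (nat_lit 1) (nat_lit 3) (.n (nat_lit 2) (nat_lit 2) (.n (nat_lit 4) (nat_lit 2) (.n (nat_lit 6) (nat_lit 1) (.p (nat_lit 7) (nat_lit 2) (.p (nat_lit 9) (nat_lit 1) (.p (nat_lit 10) (nat_lit 3) (.n (nat_lit 11) (nat_lit 1) (.n (nat_lit 12) (nat_lit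 2) (.n (nat_lit 14) (nat_lit 3) (.p (nat_lit 15) (nat_lit 2) (.n (nat_lit 17) (nat_lit 3) (.p (nat_lit 19) (nat_lit 1) (.n (nat_lit 20) (nat_lit 1) (.n (nat_lit 21) (nat_lit 1) (.p (nat_lit 22) (nat_lit 1) (.n (nat_lit 23) (nat_lit 2) (.p (nat_lit 24) (nat_lit 2) (.n (nat_lit 25) (nat_lit 2) (.p (nat_lit 26) (nat_lit 1) (.n (nat_lit 27) (nat_lit 2) (.n (nat_lit 29) (nat_lit 3) (.p (nat_lit 31) (nat_lit 2) (.n (nat_lit 33) (nat_lit 2) (.p (nat_lit 34) (nat_lit 1) (.n (nat_lit 35) (nat_lit 1) (.p (nat_lit 36) (nat_lit 2) (.p (nat_lit 37) (nat_lit 1) (.p (nat_lit 38) (nat_lit 2) (.n (nat_lit 39) (nat_lit 2) (.n (nat_lit 42) (nat_lit 1) (.n (nat_lit 44) (nat_lit 1) (.n (nat_lit 45) (nat_lit 1) (.n (nat_lit 46) (nat_lit 2) (.p (nat_lit 47) (nat_lit 1) (.n (nat_lit 54) (nat_lit 1) (.n (nat_lit 350) (nat_lit 3) (.p (nat_lit 351) (nat_lit 4) (.p (nat_lit 352) (nat_lit 1) (.p (nat_lit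 354) (nat_lit 1) (.n (nat_lit 355) (nat_lit 1) (.n (nat_lit 356) (nat_lit 2) (.p (nat_lit 357) (nat_lit 2) (.p (nat_lit 358) (nat_lit 2) (.p (nat_lit 359) (nat_lit 2) (.p (nat_lit 360) (nat_lit 2) (.p (nat_lit 361) (nat_lit 1) (.n (nat_lit 363) (nat_lit 1) (.p (nat_lit 366) (nat_lit 1) (.n (nat_lit 367) (nat_lit 1) (.n (nat_lit 368) (nat_lit 2) (.n (nat_lit 369) (nat_lit 2) (.n (nat_lit 370) (nat_lit 1) (.p (nat_lit 372) (nat_lit 2) (.p (nat_lit 373) (nat_lit 2) (.p (nat_lit 374) (nat_lit 1) (.p (nat_lit 379) (nat_lit 1) .z)))))))))))))))))))))))))))))))))))))))))))))))))))))))))) .nil)))))))))))))))))))))))))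

noncomputable def dC2b_i99 : IL := (.e false (nat_lit 2) (nat_lit 55) (nat_lit 2) (nat_lit 8) (.e true (nat_lit 2) (nat_lit 56) (nat_lit 2) (nat_lit 8) (.e false (nat_lit 3) (nat_lit 30) (nat_lit 5) (nat_lit 5) (.e true (nat_lit 2) (nat_lit 60) (nat_lit 1) (nat_lit 9) (.e false (nat_lit 3) (nat_lit 61) (nat_lit 1) (nat_lit 9) (.e true (nat_lit 3) (nat_lit 63) (nat_lit 1) (nat_lit 9) (.e true (nat_lit 1) (nat_lit 64) (nat_lit 1) (nat_lit 9) (.e true (nat_lit 3) (nat_lit 65) (nat_lit 1) (nat_lit 9) (.e false (nat_lit 1) (nat_lit 25) (nat_lit 6) (nat_lit 4) (.e false (nat_lit 3) (nat_lit 62) (nat_lit 1) (nat_lit 9) (.e false (nat_lit 2) (nat_lit 66) (nat_lit 1) (nat_lit 9) (.e true (nat_lit 1) (nat_lit 69) (nat_lit 1) (nat_lit 9) (.e true (nat_lit 2) (nat_lit 72) (nat_lit 1) (nat_lit 9) (.e true (nat_lit 1) (nat_lit 40) (nat_lit 3) (nat_lit 7) (.e false (nat_lit 3) (nat_lit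 53) (nat_lit 2) (nat_lit 8) (.e true (nat_lit 2) (nat_lit 57) (nat_lit 2) (nat_lit 8) (.e false (nat_lit 2) (nat_lit 58) (nat_lit 2) (nat_lit 8) (.e false (nat_lit 1) (nat_lit 51) (nat_lit 2) (nat_lit 8) (.e true (nat_lit 2) (nat_lit 14) (nat_lit 11) (nat_lit 0) (.e false (nat_lit 1) (nat_lit 15) (nat_lit 11) (nat_lit 0) (.e true (nat_lit 3) (nat_lit 16) (nat_lit 10) (nat_lit 1) (.e false (nat_lit 2) (nat_lit 41) (nat_lit 3) (nat_lit 7) (.e false (nat_lit 2) (nat_lit 74) (nat_lit 0) (nat_lit 10) (.e false (nat_lit 2) (nat_lit 79) (nat_lit 0) (nat_lit 10) (.u (nat_lit 2) (.n (nat_lit 0) (nat_lit 1) (.p (nat_lit 1) (nat_lit 1) (.p (nat_lit 2) (nat_lit 1) (.p (nat_lit 3) (nat_lit 1) (.p (nat_lit 4) (nat_lit 2) (.n (nat_lit 6) (nat_lit 2) (.p (nat_lit 8) (nat_lit 2) (.n (nat_lit 10) (nat_lit 1) (.p (nat_lit 11) (nat_lit 1) (.p (nat_lit 12) (nat_lit 1) (.p (nat_lit 13) (nat_lit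 2) (.p (nat_lit 14) (nat_lit 2) (.n (nat_lit 16) (nat_lit 3) (.n (nat_lit 17) (nat_lit 1) (.n (nat_lit 20) (nat_lit 1) (.n (nat_lit 21) (nat_lit 2) (.n (nat_lit 25) (nat_lit 1) (.p (nat_lit 45) (nat_lit 1) (.p (nat_lit 46) (nat_lit 1) (.n (nat_lit 59) (nat_lit 1) (.p (nat_lit 60) (nat_lit 1) (.p (nat_lit 62) (nat_lit 1) (.n (nat_lit 63) (nat_lit 1) (.n (nat_lit 67) (nat_lit 1) (.n (nat_lit 68) (nat_lit 1) (.n (nat_lit 69) (nat_lit 1) (.p (nat_lit 70) (nat_lit 1) (.p (nat_lit 71) (nat_lit 1) (.n (nat_lit 72) (nat_lit 1) (.n (nat_lit 73) (nat_lit 2) (.p (nat_lit 75) (nat_lit 1) (.p (nat_lit 76) (nat_lit 1) (.p (nat_lit 77) (nat_lit 1) (.n (nat_lit 78) (nat_lit 1) (.n (nat_lit 82) (nat_lit 1) .z))))))))))))))))))))))))))))))))))) .nil)))))))))))))))))))))))))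

noncomputable def dC2b_i100 : IL := (.e false (nat_lit 1) (nat_lit 125) (nat_lit 2) (nat_lit 12) (.e true (nat_lit 2) (nat_lit 126) (nat_lit 2) (nat_lit 12) (.e true (nat_lit 2) (nat_lit 127) (nat_lit 2) (nat_lit 12) (.e false (nat_lit 1) (nat_lit 128) (nat_lit 2) (nat_lit 12) (.e false (nat_lit 1) (nat_lit 130) (nat_lit 2) (nat_lit 12) (.e false (nat_lit 1) (nat_lit 131) (nat_lit 2) (nat_lit 12) (.e true (nat_lit 1) (nat_lit 34) (nat_lit 15) (nat_lit 3) (.e false (nat_lit 1) (nat_lit 132) (nat_lit 1) (nat_lit 13) (.e false (nat_lit 1) (nat_lit 133) (nat_lit 1) (nat_lit 13) (.e true (nat_lit 1) (nat_lit 134) (nat_lit 1) (nat_lit 13) (.e true (nat_lit 1) (nat_lit 135) (nat_lit 1) (nat_lit 13) (.e true (nat_lit 1) (nat_lit 136) (nat_lit 1) (nat_lit 13) (.e false (nat_lit 1) (nat_lit 137) (nat_lit 1) (nat_lit 13) (.e false (nat_lit 1) (nat_lit 138) (nat_lit 1) (nat_lit 13)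 (.e true (nat_lit 1) (nat_lit 141) (nat_lit 1) (nat_lit 13) (.e true (nat_lit 1) (nat_lit 143) (nat_lit 1) (nat_lit 13) (.e false (nat_lit 2) (nat_lit 145) (nat_lit 1) (nat_lit 13) (.e false (nat_lit 1) (nat_lit 149) (nat_lit 1) (nat_lit 13) (.e true (nat_lit 1) (nat_lit 151) (nat_lit 1) (nat_lit 13) (.e true (nat_lit 1) (nat_lit 152) (nat_lit 1) (nat_lit 13) (.e true (nat_lit 1) (nat_lit 153) (nat_lit 1) (nat_lit 13) (.e true (nat_lit 1) (nat_lit 154) (nat_lit 1) (nat_lit 13) (.e false (nat_lit 1) (nat_lit 155) (nat_lit 1) (nat_lit 13) (.e false (nat_lit 1) (nat_lit 157) (nat_lit 1) (nat_lit 13) (.u (nat_lit 2) (.p (nat_lit 0) (nat_lit 1) (.p (nat_lit 2) (nat_lit 1) (.p (nat_lit 3) (nat_lit 1) (.p (nat_lit 5) (nat_lit 2) (.p (nat_lit 8) (nat_lit 1) (.n (nat_lit 9) (nat_lit 1) (.p (nat_lit 10) (nat_lit 1) (.p (nat_lit 11) (nat_lit 1) (.p (nat_lit 13) (nat_lit 2) (.p (nat_lit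 14) (nat_lit 1) (.n (nat_lit 15) (nat_lit 1) (.p (nat_lit 17) (nat_lit 2) (.n (nat_lit 21) (nat_lit 2) (.n (nat_lit 22) (nat_lit 1) (.n (nat_lit 23) (nat_lit 1) (.n (nat_lit 24) (nat_lit 1) (.n (nat_lit 25) (nat_lit 2) (.n (nat_lit 26) (nat_lit 1) (.p (nat_lit 37) (nat_lit 2) (.p (nat_lit 39) (nat_lit 1) (.n (nat_lit 40) (nat_lit 3) (.p (nat_lit 41) (nat_lit 1) (.p (nat_lit 42) (nat_lit 1) (.p (nat_lit 43) (nat_lit 2) (.p (nat_lit 45) (nat_lit 1) (.p (nat_lit 46) (nat_lit 1) .z)))))))))))))))))))))))))) .nil)))))))))))))))))))))))))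

noncomputable def dC2b_i101 : IL := (.e false (nat_lit 2) (nat_lit 253) (nat_lit 1) (nat_lit 17) (.e true (nat_lit 3) (nat_lit 254) (nat_lit 1) (nat_lit 17) (.e true (nat_lit 3) (nat_lit 255) (nat_lit 1) (nat_lit 17) (.e true (nat_lit 2) (nat_lit 256) (nat_lit 1) (nat_lit 17) (.e true (nat_lit 3) (nat_lit 257) (nat_lit 1) (nat_lit 17) (.e false (nat_lit 2) (nat_lit 258) (nat_lit 1) (nat_lit 17) (.e true (nat_lit 1) (nat_lit 259) (nat_lit 1) (nat_lit 17) (.e false (nat_lit 1) (nat_lit 260) (nat_lit 1) (nat_lit 17) (.e false (nat_lit 1) (nat_lit 261) (nat_lit 1) (nat_lit 17) (.e true (nat_lit 3) (nat_lit 262) (nat_lit 1) (nat_lit 17) (.e true (nat_lit 3) (nat_lit 264) (nat_lit 1) (nat_lit 17) (.e false (nat_lit 1) (nat_lit 265) (nat_lit 1) (nat_lit 17) (.e false (nat_lit 2) (nat_lit 266) (nat_lit 1) (nat_lit 17) (.e true (nat_lit 2) (nat_lit 267) (nat_lit 1) (nat_lit 17)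 (.e true (nat_lit 2) (nat_lit 269) (nat_lit 1) (nat_lit 17) (.e false (nat_lit 1) (nat_lit 270) (nat_lit 1) (nat_lit 17) (.e false (nat_lit 3) (nat_lit 272) (nat_lit 1) (nat_lit 17) (.e true (nat_lit 2) (nat_lit 274) (nat_lit 1) (nat_lit 17) (.e false (nat_lit 3) (nat_lit 275) (nat_lit 1) (nat_lit 17) (.e true (nat_lit 1) (nat_lit 277) (nat_lit 1) (nat_lit 17) (.e false (nat_lit 1) (nat_lit 283) (nat_lit 1) (nat_lit 17) (.e true (nat_lit 1) (nat_lit 284) (nat_lit 1) (nat_lit 17) (.e true (nat_lit 2) (nat_lit 285) (nat_lit 1) (nat_lit 17) (.e false (nat_lit 1) (nat_lit 286) (nat_lit 1) (nat_lit 17) (.u (nat_lit 2) (.p (nat_lit 0) (nat_lit 2) (.p (nat_lit 1) (nat_lit 2) (.n (nat_lit 4) (nat_lit 3) (.p (nat_lit 5) (nat_lit 3) (.p (nat_lit 6) (nat_lit 5) (.p (nat_lit 8) (nat_lit 3) (.p (nat_lit 9) (nat_lit 2) (.p (nat_lit 10) (nat_lit 2) (.n (nat_lit 11) (nat_lit 4) (.p (nat_lit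 12) (nat_lit 2) (.p (nat_lit 14) (nat_lit 1) (.p (nat_lit 15) (nat_lit 1) (.p (nat_lit 16) (nat_lit 5) (.n (nat_lit 17) (nat_lit 2) (.p (nat_lit 18) (nat_lit 1) (.n (nat_lit 19) (nat_lit 7) (.p (nat_lit 20) (nat_lit 3) (.p (nat_lit 21) (nat_lit 2) (.n (nat_lit 22) (nat_lit 2) (.p (nat_lit 23) (nat_lit 3) (.p (nat_lit 24) (nat_lit 4) (.n (nat_lit 25) (nat_lit 8) (.n (nat_lit 26) (nat_lit 3) (.n (nat_lit 27) (nat_lit 3) (.n (nat_lit 28) (nat_lit 3) (.n (nat_lit 29) (nat_lit 2) (.p (nat_lit 32) (nat_lit 4) (.p (nat_lit 33) (nat_lit 1) (.p (nat_lit 34) (nat_lit 5) (.p (nat_lit 35) (nat_lit 3) (.p (nat_lit 36) (nat_lit 6) (.p (nat_lit 37) (nat_lit 5) (.n (nat_lit 38) (nat_lit 1) (.n (nat_lit 39) (nat_lit 2) (.n (nat_lit 42) (nat_lit 1) (.p (nat_lit 44) (nat_lit 1) (.n (nat_lit 45) (nat_lit 4) (.n (nat_lit 46) (nat_lit 4) (.p (nat_lit 48) (nat_lit 2) (.n (nat_lit 386) (nat_lit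 2) (.p (nat_lit 387) (nat_lit 1) (.p (nat_lit 388) (nat_lit 1) (.p (nat_lit 390) (nat_lit 1) (.p (nat_lit 392) (nat_lit 1) (.p (nat_lit 393) (nat_lit 2) (.n (nat_lit 395) (nat_lit 1) (.p (nat_lit 397) (nat_lit 1) .z))))))))))))))))))))))))))))))))))))))))))))))) .nil)))))))))))))))))))))))))

noncomputable def dC2b_i102 : IL := (.s false (nat_lit 3) (nat_lit 9) (nat_lit 1) (nat_lit 2) (nat_lit 2) true (nat_lit 4) true (nat_lit 8) true (nat_lit 2) true (nat_lit 9) true (nat_lit 8) (.s true (nat_lit 3) (nat_lit 10) (nat_lit 0) (nat_lit 2) (nat_lit 2) true (nat_lit 5) true (nat_lit 8) true (nat_lit 1) true (nat_lit 10) true (nat_lit 8) (.s true (nat_lit 3) (nat_lit 10) (nat_lit 2) (nat_lit 0) (nat_lit 2) true (nat_lit 3) true (nat_lit 8) true (nat_lit 1) true (nat_lit 8) true (nat_lit 10) (.s false (nat_lit 3) (nat_lit 10) (nat_lit 2) (nat_lit 2) (nat_lit 0) true (nat_lit 5)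 true (nat_lit 10) true (nat_lit 1) true (nat_lit 8) true (nat_lit 8) (.s false (nat_lit 3) (nat_lit 17) (nat_lit 1) (nat_lit 1) (nat_lit 1) true (nat_lit 6) true (nat_lit 9) false (nat_lit 1) true (nat_lit 9) true (nat_lit 9) (.e true (nat_lit 3) (nat_lit 19) (nat_lit 9) (nat_lit 2) (.e false (nat_lit 3) (nat_lit 22) (nat_lit 7) (nat_lit 3) (.e true (nat_lit 1) (nat_lit 23) (nat_lit 7) (nat_lit 3) (.e false (nat_lit 2) (nat_lit 61) (nat_lit 1) (nat_lit 9) (.e true (nat_lit 2) (nat_lit 63) (nat_lit 1) (nat_lit 9) (.e false (nat_lit 3) (nat_lit 25) (nat_lit 6) (nat_lit 4) (.e true (nat_lit 2) (nat_lit 50) (nat_lit 2) (nat_lit 8) (.e false (nat_lit 3) (nat_lit 18) (nat_lit 9) (nat_lit 2) (.e false (nat_lit 2) (nat_lit 60) (nat_lit 1) (nat_lit 9) (.e false (nat_lit 2) (nat_lit 65) (nat_lit 1) (nat_lit 9) (.e true (nat_lit 3) (nat_lit 53) (nat_lit 2) (nat_lit 8) (.e false (nat_lit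 1) (nat_lit 51) (nat_lit 2) (nat_lit 8) (.e true (nat_lit 2) (nat_lit 49) (nat_lit 2) (nat_lit 8) (.e false (nat_lit 3) (nat_lit 52) (nat_lit 2) (nat_lit 8) (.e false (nat_lit 1) (nat_lit 56) (nat_lit 2) (nat_lit 8) (.e true (nat_lit 1) (nat_lit 58) (nat_lit 2) (nat_lit 8) (.e true (nat_lit 3) (nat_lit 59) (nat_lit 2) (nat_lit 8) (.e true (nat_lit 1) (nat_lit 55) (nat_lit 2) (nat_lit 8) (.e false (nat_lit 1) (nat_lit 57) (nat_lit 2) (nat_lit 8) (.u (nat_lit 2) (.n (nat_lit 1) (nat_lit 1) (.n (nat_lit 4) (nat_lit 1) (.p (nat_lit 12) (nat_lit 1) (.p (nat_lit 25) (nat_lit 1) (.p (nat_lit 40) (nat_lit 1) (.p (nat_lit 59) (nat_lit 2) (.n (nat_lit 60) (nat_lit 1) (.n (nat_lit 61) (nat_lit 1) (.n (nat_lit 62) (nat_lit 3) (.p (nat_lit 65) (nat_lit 1) (.n (nat_lit 66) (nat_lit 1) (.n (nat_lit 67) (nat_lit 1) (.p (nat_lit 68) (nat_lit 1) (.p (nat_lit 69) (nat_lit 3) (.n (nat_lit 70)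 (nat_lit 2) (.n (nat_lit 71) (nat_lit 2) (.p (nat_lit 73) (nat_lit 2) (.n (nat_lit 75) (nat_lit 2) (.p (nat_lit 89) (nat_lit 1) .z))))))))))))))))))) .nil)))))))))))))))))))))))))

noncomputable def dC2b_i103 : IL := (.e true (nat_lit 2) (nat_lit 209) (nat_lit 2) (nat_lit 16) (.e false (nat_lit 2) (nat_lit 211) (nat_lit 2) (nat_lit 16) (.e true (nat_lit 3) (nat_lit 212) (nat_lit 2) (nat_lit 16) (.e true (nat_lit 2) (nat_lit 213) (nat_lit 2) (nat_lit 16) (.e false (nat_lit 3) (nat_lit 214) (nat_lit 2) (nat_lit 16) (.e false (nat_lit 2) (nat_lit 215) (nat_lit 2) (nat_lit 16) (.e true (nat_lit 2) (nat_lit 216) (nat_lit 2) (nat_lit 16) (.e false (nat_lit 2) (nat_lit 217) (nat_lit 2) (nat_lit 16) (.e true (nat_lit 1) (nat_lit 219) (nat_lit 2) (nat_lit 16) (.e false (nat_lit 1) (nat_lit 221) (nat_lit 2) (nat_lit 16) (.e true (nat_lit 3) (nat_lit 229) (nat_lit 2) (nat_lit 16) (.e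 true (nat_lit 1) (nat_lit 230) (nat_lit 2) (nat_lit 16) (.e false (nat_lit 2) (nat_lit 298) (nat_lit 0) (nat_lit 18) (.e true (nat_lit 3) (nat_lit 225) (nat_lit 2) (nat_lit 16) (.e true (nat_lit 1) (nat_lit 227) (nat_lit 2) (nat_lit 16) (.e true (nat_lit 2) (nat_lit 228) (nat_lit 2) (nat_lit 16) (.e false (nat_lit 3) (nat_lit 242) (nat_lit 2) (nat_lit 16) (.e false (nat_lit 2) (nat_lit 243) (nat_lit 2) (nat_lit 16) (.e true (nat_lit 2) (nat_lit 245) (nat_lit 2) (nat_lit 16) (.e false (nat_lit 1) (nat_lit 246) (nat_lit 2) (nat_lit 16) (.e true (nat_lit 2) (nat_lit 247) (nat_lit 2) (nat_lit 16) (.e false (nat_lit 2) (nat_lit 248) (nat_lit 2) (nat_lit 16) (.e true (nat_lit 3) (nat_lit 249) (nat_lit 2) (nat_lit 16) (.e false (nat_lit 3) (nat_lit 251) (nat_lit 2) (nat_lit 16) (.u (nat_lit 2) (.p (nat_lit 0) (nat_lit 4) (.p (nat_lit 1) (nat_lit 3) (.n (nat_lit 2) (nat_lit 3) (.p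 (nat_lit 3) (nat_lit 2) (.p (nat_lit 4) (nat_lit 1) (.p (nat_lit 5) (nat_lit 3) (.n (nat_lit 6) (nat_lit 1) (.n (nat_lit 7) (nat_lit 2) (.n (nat_lit 8) (nat_lit 1) (.p (nat_lit 9) (nat_lit 4) (.p (nat_lit 10) (nat_lit 2) (.n (nat_lit 11) (nat_lit 1) (.p (nat_lit 12) (nat_lit 2) (.p (nat_lit 14) (nat_lit 4) (.n (nat_lit 15) (nat_lit 2) (.p (nat_lit 16) (nat_lit 4) (.n (nat_lit 17) (nat_lit 1) (.n (nat_lit 18) (nat_lit 4) (.n (nat_lit 19) (nat_lit 5) (.p (nat_lit 21) (nat_lit 2) (.n (nat_lit 22) (nat_lit 2) (.n (nat_lit 23) (nat_lit 3) (.p (nat_lit 24) (nat_lit 1) (.n (nat_lit 26) (nat_lit 2) (.n (nat_lit 27) (nat_lit 2) (.n (nat_lit 28) (nat_lit 5) (.n (nat_lit 29) (nat_lit 4) (.n (nat_lit 31) (nat_lit 3) (.p (nat_lit 32) (nat_lit 1) (.n (nat_lit 33) (nat_lit 1) (.n (nat_lit 34) (nat_lit 3) (.p (nat_lit 35) (nat_lit 2) (.p (nat_lit 36) (nat_lit 3) (.p (nat_lit 37) (nat_lit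 4) (.p (nat_lit 38) (nat_lit 1) (.p (nat_lit 39) (nat_lit 2) (.n (nat_lit 40) (nat_lit 1) (.n (nat_lit 42) (nat_lit 1) (.n (nat_lit 44) (nat_lit 1) (.p (nat_lit 45) (nat_lit 1) (.p (nat_lit 46) (nat_lit 4) (.n (nat_lit 47) (nat_lit 2) (.n (nat_lit 303) (nat_lit 1) (.n (nat_lit 304) (nat_lit 1) (.p (nat_lit 326) (nat_lit 1) .z))))))))))))))))))))))))))))))))))))))))))))) .nil)))))))))))))))))))))))))

noncomputable def dC2b_i104 : IL := (.e false (nat_lit 1) (nat_lit 163) (nat_lit 5) (nat_lit 13) (.e false (nat_lit 1) (nat_lit 294) (nat_lit 0) (nat_lit 18) (.e false (nat_lit 1) (nat_lit 205) (nat_lit 2) (nat_lit 16) (.e false (nat_lit 3) (nat_lit 208) (nat_lit 2) (nat_lit 16) (.e false (nat_lit 2) (nat_lit 212) (nat_lit 2) (nat_lit 16) (.e true (nat_lit 2) (nat_lit 214) (nat_lit 2) (nat_lit 16) (.e true (nat_lit 1) (nat_lit 215) (nat_lit 2) (nat_lit 16) (.e false (nat_lit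 3) (nat_lit 217) (nat_lit 2) (nat_lit 16) (.e true (nat_lit 2) (nat_lit 219) (nat_lit 2) (nat_lit 16) (.e false (nat_lit 2) (nat_lit 221) (nat_lit 2) (nat_lit 16) (.e true (nat_lit 2) (nat_lit 225) (nat_lit 2) (nat_lit 16) (.e false (nat_lit 1) (nat_lit 227) (nat_lit 2) (nat_lit 16) (.e true (nat_lit 1) (nat_lit 228) (nat_lit 2) (nat_lit 16) (.e false (nat_lit 2) (nat_lit 245) (nat_lit 2) (nat_lit 16) (.e true (nat_lit 1) (nat_lit 246) (nat_lit 2) (nat_lit 16) (.e false (nat_lit 1) (nat_lit 247) (nat_lit 2) (nat_lit 16) (.e true (nat_lit 2) (nat_lit 248) (nat_lit 2) (nat_lit 16) (.e false (nat_lit 2) (nat_lit 249) (nat_lit 2) (nat_lit 16) (.e false (nat_lit 2) (nat_lit 251) (nat_lit 2) (nat_lit 16) (.e true (nat_lit 2) (nat_lit 206) (nat_lit 2) (nat_lit 16) (.e true (nat_lit 1) (nat_lit 207) (nat_lit 2) (nat_lit 16) (.e true (nat_lit 2) (nat_lit 216) (nat_lit 2) (nat_lit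 16) (.e false (nat_lit 1) (nat_lit 229) (nat_lit 2) (nat_lit 16) (.e false (nat_lit 1) (nat_lit 230) (nat_lit 2) (nat_lit 16) (.u (nat_lit 2) (.n (nat_lit 1) (nat_lit 1) (.p (nat_lit 2) (nat_lit 1) (.p (nat_lit 3) (nat_lit 3) (.n (nat_lit 4) (nat_lit 2) (.n (nat_lit 6) (nat_lit 2) (.n (nat_lit 7) (nat_lit 2) (.n (nat_lit 8) (nat_lit 3) (.n (nat_lit 10) (nat_lit 1) (.n (nat_lit 12) (nat_lit 4) (.n (nat_lit 14) (nat_lit 2) (.p (nat_lit 15) (nat_lit 2) (.p (nat_lit 16) (nat_lit 3) (.n (nat_lit 18) (nat_lit 1) (.n (nat_lit 20) (nat_lit 2) (.p (nat_lit 21) (nat_lit 2) (.n (nat_lit 22) (nat_lit 2) (.p (nat_lit 23) (nat_lit 2) (.p (nat_lit 24) (nat_lit 3) (.n (nat_lit 25) (nat_lit 1) (.p (nat_lit 27) (nat_lit 2) (.p (nat_lit 28) (nat_lit 3) (.p (nat_lit 29) (nat_lit 3) (.n (nat_lit 31) (nat_lit 2) (.n (nat_lit 32) (nat_lit 3) (.p (nat_lit 33) (nat_lit 2) (.n (nat_lit 34) (nat_lit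 3) (.p (nat_lit 36) (nat_lit 1) (.n (nat_lit 37) (nat_lit 1) (.n (nat_lit 38) (nat_lit 2) (.n (nat_lit 40) (nat_lit 2) (.n (nat_lit 44) (nat_lit 2) (.n (nat_lit 45) (nat_lit 4) (.n (nat_lit 46) (nat_lit 2) (.p (nat_lit 47) (nat_lit 1) (.p (nat_lit 48) (nat_lit 1) (.n (nat_lit 305) (nat_lit 1) (.p (nat_lit 312) (nat_lit 1) (.n (nat_lit 314) (nat_lit 1) (.p (nat_lit 316) (nat_lit 1) (.n (nat_lit 318) (nat_lit 1) .z)))))))))))))))))))))))))))))))))))))))) .nil)))))))))))))))))))))))))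

noncomputable def dC2b_i105 : IL := (.s true (nat_lit 3) (nat_lit 44) (nat_lit 2) (nat_lit 1) (nat_lit 2) true (nat_lit 4) true (nat_lit 8) false (nat_lit 1) true (nat_lit 8) true (nat_lit 9) (.e false (nat_lit 3) (nat_lit 44) (nat_lit 19) (nat_lit 1) (.e false (nat_lit 2) (nat_lit 82) (nat_lit 7) (nat_lit 4) (.e false (nat_lit 1) (nat_lit 88) (nat_lit 7) (nat_lit 4) (.e true (nat_lit 3) (nat_lit 90) (nat_lit 7) (nat_lit 4) (.e false (nat_lit 3) (nat_lit 34) (nat_lit 20) (nat_lit 0) (.e true (nat_lit 3) (nat_lit 35) (nat_lit 20) (nat_lit 0) (.e false (nat_lit 1) (nat_lit 172) (nat_lit 2) (nat_lit 8) (.e true (nat_lit 1) (nat_lit 169) (nat_lit 2) (nat_lit 8) (.e false (nat_lit 3) (nat_lit 171) (nat_lit 2) (nat_lit 8) (.e true (nat_lit 3) (nat_lit 173) (nat_lit 2) (nat_lit 8) (.e false (nat_lit 3) (nat_lit 174) (nat_lit 2) (nat_lit 8) (.e true (nat_lit 1) (nat_lit 175) (nat_lit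 2) (nat_lit 8) (.e true (nat_lit 1) (nat_lit 176) (nat_lit 2) (nat_lit 8) (.e true (nat_lit 3) (nat_lit 177) (nat_lit 2) (nat_lit 8) (.e true (nat_lit 3) (nat_lit 179) (nat_lit 2) (nat_lit 8) (.e true (nat_lit 3) (nat_lit 182) (nat_lit 2) (nat_lit 8) (.e false (nat_lit 1) (nat_lit 183) (nat_lit 2) (nat_lit 8) (.e false (nat_lit 3) (nat_lit 99) (nat_lit 6) (nat_lit 5) (.e false (nat_lit 1) (nat_lit 170) (nat_lit 2) (nat_lit 8) (.e true (nat_lit 1) (nat_lit 181) (nat_lit 2) (nat_lit 8) (.e true (nat_lit 2) (nat_lit 81) (nat_lit 7) (nat_lit 4) (.e false (nat_lit 3) (nat_lit 89) (nat_lit 7) (nat_lit 4) (.e false (nat_lit 3) (nat_lit 197) (nat_lit 1) (nat_lit 9) (.u (nat_lit 2) (.n (nat_lit 0) (nat_lit 1) (.n (nat_lit 2) (nat_lit 2) (.n (nat_lit 3) (nat_lit 1) (.p (nat_lit 4) (nat_lit 1) (.p (nat_lit 8) (nat_lit 1) (.p (nat_lit 9) (nat_lit 1) (.n (nat_lit 12) (nat_lit 1) (.p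 (nat_lit 13) (nat_lit 1) (.p (nat_lit 16) (nat_lit 1) (.n (nat_lit 18) (nat_lit 1) (.p (nat_lit 40) (nat_lit 1) (.n (nat_lit 41) (nat_lit 1) (.p (nat_lit 42) (nat_lit 1) (.n (nat_lit 48) (nat_lit 1) (.n (nat_lit 60) (nat_lit 2) (.p (nat_lit 61) (nat_lit 5) (.n (nat_lit 63) (nat_lit 1) (.n (nat_lit 64) (nat_lit 3) (.p (nat_lit 65) (nat_lit 3) (.n (nat_lit 66) (nat_lit 2) (.n (nat_lit 67) (nat_lit 2) (.p (nat_lit 72) (nat_lit 1) (.n (nat_lit 74) (nat_lit 1) .z))))))))))))))))))))))) .nil)))))))))))))))))))))))))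

noncomputable def dC2b_i106 : IL := (.e false (nat_lit 3) (nat_lit 63) (nat_lit 20) (nat_lit 3) (.e true (nat_lit 3) (nat_lit 65) (nat_lit 20) (nat_lit 3) (.e true (nat_lit 3) (nat_lit 66) (nat_lit 20) (nat_lit 3) (.e false (nat_lit 3) (nat_lit 72) (nat_lit 20) (nat_lit 3) (.e false (nat_lit 3) (nat_lit 324) (nat_lit 0) (nat_lit 16) (.e true (nat_lit 3) (nat_lit 325) (nat_lit 0) (nat_lit 16) (.e false (nat_lit 2) (nat_lit 326) (nat_lit 0) (nat_lit 16) (.e false (nat_lit 2) (nat_lit 327) (nat_lit 0) (nat_lit 16) (.e true (nat_lit 3) (nat_lit 328) (nat_lit 0) (nat_lit 16) (.e false (nat_lit 3) (nat_lit 329) (nat_lit 0) (nat_lit 16) (.e false (nat_lit 2) (nat_lit 331) (nat_lit 0) (nat_lit 16) (.e true (nat_lit 3) (nat_lit 333) (nat_lit 0) (nat_lit 16) (.e true (nat_lit 3) (nat_lit 334) (nat_lit 0) (nat_lit 16) (.e false (nat_lit 1) (nat_lit 305) (nat_lit 1) (nat_lit 15) (.e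 false (nat_lit 1) (nat_lit 306) (nat_lit 1) (nat_lit 15) (.e false (nat_lit 2) (nat_lit 308) (nat_lit 1) (nat_lit 15) (.e true (nat_lit 1) (nat_lit 309) (nat_lit 1) (nat_lit 15) (.e false (nat_lit 3) (nat_lit 311) (nat_lit 1) (nat_lit 15) (.e false (nat_lit 3) (nat_lit 312) (nat_lit 1) (nat_lit 15) (.e true (nat_lit 2) (nat_lit 314) (nat_lit 1) (nat_lit 15) (.e false (nat_lit 3) (nat_lit 313) (nat_lit 1) (nat_lit 15) (.e false (nat_lit 2) (nat_lit 307) (nat_lit 1) (nat_lit 15) (.e true (nat_lit 3) (nat_lit 310) (nat_lit 1) (nat_lit 15) (.e true (nat_lit 1) (nat_lit 318) (nat_lit 1) (nat_lit 15) (.u (nat_lit 2) (.n (nat_lit 0) (nat_lit 4) (.n (nat_lit 1) (nat_lit 5) (.n (nat_lit 2) (nat_lit 1) (.n (nat_lit 3) (nat_lit 4) (.n (nat_lit 4) (nat_lit 2) (.p (nat_lit 5) (nat_lit 3) (.p (nat_lit 6) (nat_lit 1) (.p (nat_lit 7) (nat_lit 2) (.p (nat_lit 8) (nat_lit 5) (.p (nat_lit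 9) (nat_lit 1) (.n (nat_lit 10) (nat_lit 1) (.n (nat_lit 11) (nat_lit 2) (.p (nat_lit 12) (nat_lit 5) (.n (nat_lit 13) (nat_lit 2) (.p (nat_lit 15) (nat_lit 1) (.p (nat_lit 16) (nat_lit 1) (.n (nat_lit 17) (nat_lit 1) (.n (nat_lit 18) (nat_lit 3) (.p (nat_lit 19) (nat_lit 5) (.p (nat_lit 21) (nat_lit 3) (.n (nat_lit 23) (nat_lit 1) (.p (nat_lit 24) (nat_lit 1) (.n (nat_lit 30) (nat_lit 1) (.p (nat_lit 31) (nat_lit 1) (.n (nat_lit 34) (nat_lit 1) (.n (nat_lit 35) (nat_lit 3) (.n (nat_lit 38) (nat_lit 1) (.p (nat_lit 86) (nat_lit 1) (.n (nat_lit 87) (nat_lit 1) (.n (nat_lit 241) (nat_lit 1) (.n (nat_lit 242) (nat_lit 1) (.p (nat_lit 243) (nat_lit 1) (.p (nat_lit 244) (nat_lit 1) (.p (nat_lit 245) (nat_lit 1) (.n (nat_lit 250) (nat_lit 1) (.n (nat_lit 251) (nat_lit 3) (.p (nat_lit 254) (nat_lit 1) (.p (nat_lit 262) (nat_lit 1) (.p (nat_lit 263) (nat_lit 1) (.p (nat_lit 267)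 (nat_lit 1) .z)))))))))))))))))))))))))))))))))))))))) .nil)))))))))))))))))))))))))

noncomputable def dC2b_i107 : IL := (.e true (nat_lit 1) (nat_lit 134) (nat_lit 7) (nat_lit 9) (.e false (nat_lit 1) (nat_lit 138) (nat_lit 7) (nat_lit 9) (.e true (nat_lit 3) (nat_lit 154) (nat_lit 7) (nat_lit 9) (.e false (nat_lit 3) (nat_lit 254) (nat_lit 2) (nat_lit 14) (.e true (nat_lit 1) (nat_lit 258) (nat_lit 2) (nat_lit 14) (.e true (nat_lit 1) (nat_lit 265) (nat_lit 2) (nat_lit 14) (.e true (nat_lit 2) (nat_lit 266) (nat_lit 2) (nat_lit 14) (.e false (nat_lit 2) (nat_lit 272) (nat_lit 2) (nat_lit 14) (.e true (nat_lit 3) (nat_lit 274) (nat_lit 2) (nat_lit 14) (.e false (nat_lit 2) (nat_lit 285) (nat_lit 2) (nat_lit 14) (.e false (nat_lit 1) (nat_lit 48) (nat_lit 26) (nat_lit 2) (.e true (nat_lit 3) (nat_lit 305) (nat_lit 1) (nat_lit 15) (.e true (nat_lit 2) (nat_lit 306) (nat_lit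 1) (nat_lit 15) (.e false (nat_lit 2) (nat_lit 307) (nat_lit 1) (nat_lit 15) (.e true (nat_lit 1) (nat_lit 308) (nat_lit 1) (nat_lit 15) (.e false (nat_lit 2) (nat_lit 309) (nat_lit 1) (nat_lit 15) (.e true (nat_lit 3) (nat_lit 310) (nat_lit 1) (nat_lit 15) (.e true (nat_lit 1) (nat_lit 311) (nat_lit 1) (nat_lit 15) (.e true (nat_lit 1) (nat_lit 312) (nat_lit 1) (nat_lit 15) (.e false (nat_lit 2) (nat_lit 314) (nat_lit 1) (nat_lit 15) (.e false (nat_lit 1) (nat_lit 317) (nat_lit 1) (nat_lit 15) (.e true (nat_lit 1) (nat_lit 321) (nat_lit 1) (nat_lit 15) (.e false (nat_lit 1) (nat_lit 322) (nat_lit 1) (nat_lit 15) (.e true (nat_lit 2) (nat_lit 264) (nat_lit 2) (nat_lit 14) (.u (nat_lit 2) (.n (nat_lit 0) (nat_lit 2) (.p (nat_lit 2) (nat_lit 2) (.p (nat_lit 4) (nat_lit 1) (.n (nat_lit 5) (nat_lit 1) (.n (nat_lit 6) (nat_lit 1) (.p (nat_lit 7) (nat_lit 2) (.p (nat_lit 9) (nat_lit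 2) (.p (nat_lit 10) (nat_lit 3) (.n (nat_lit 12) (nat_lit 1) (.n (nat_lit 14) (nat_lit 3) (.n (nat_lit 15) (nat_lit 2) (.n (nat_lit 16) (nat_lit 2) (.n (nat_lit 17) (nat_lit 1) (.p (nat_lit 18) (nat_lit 1) (.p (nat_lit 19) (nat_lit 1) (.n (nat_lit 21) (nat_lit 3) (.p (nat_lit 23) (nat_lit 1) (.n (nat_lit 24) (nat_lit 2) (.p (nat_lit 25) (nat_lit 1) (.p (nat_lit 38) (nat_lit 3) (.p (nat_lit 129) (nat_lit 1) (.n (nat_lit 130) (nat_lit 1) (.n (nat_lit 144) (nat_lit 1) (.p (nat_lit 148) (nat_lit 1) (.n (nat_lit 155) (nat_lit 1) (.p (nat_lit 159) (nat_lit 1) (.p (nat_lit 164) (nat_lit 1) (.p (nat_lit 218) (nat_lit 1) (.n (nat_lit 249) (nat_lit 1) .z))))))))))))))))))))))))))))) .nil)))))))))))))))))))))))))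

noncomputable def dC2b_i108 : IL := (.s true (nat_lit 1) (nat_lit 13) (nat_lit 2) (nat_lit 2) (nat_lit 6) true (nat_lit 1) true (nat_lit 7) true (nat_lit 4) true (nat_lit 11) true (nat_lit 11) (.s false (nat_lit 1) (nat_lit 35) (nat_lit 2) (nat_lit 1) (nat_lit 2) true (nat_lit 6) true (nat_lit 11) false (nat_lit 1) true (nat_lit 11) true (nat_lit 12) (.e false (nat_lit 1) (nat_lit 28) (nat_lit 20) (nat_lit 0) (.e true (nat_lit 3) (nat_lit 133) (nat_lit 2) (nat_lit 11) (.e true (nat_lit 2) (nat_lit 135) (nat_lit 2) (nat_lit 11) (.e true (nat_lit 3) (nat_lit 138) (nat_lit 2) (nat_lit 11) (.e false (nat_lit 3) (nat_lit 139) (nat_lit 2) (nat_lit 11) (.e true (nat_lit 3) (nat_lit 140) (nat_lit 2) (nat_lit 11) (.e false (nat_lit 2) (nat_lit 141) (nat_lit 2) (nat_lit 11) (.e true (nat_lit 1) (nat_lit 142) (nat_lit 2) (nat_lit 11) (.e false (nat_lit 1) (nat_lit 143) (nat_lit 2)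 (nat_lit 11) (.e true (nat_lit 3) (nat_lit 144) (nat_lit 2) (nat_lit 11) (.e true (nat_lit 3) (nat_lit 145) (nat_lit 2) (nat_lit 11) (.e false (nat_lit 3) (nat_lit 147) (nat_lit 2) (nat_lit 11) (.e false (nat_lit 1) (nat_lit 149) (nat_lit 2) (nat_lit 11) (.e true (nat_lit 1) (nat_lit 150) (nat_lit 2) (nat_lit 11) (.e true (nat_lit 1) (nat_lit 151) (nat_lit 2) (nat_lit 11) (.e false (nat_lit 1) (nat_lit 154) (nat_lit 2) (nat_lit 11) (.e true (nat_lit 3) (nat_lit 155) (nat_lit 2) (nat_lit 11) (.e false (nat_lit 1) (nat_lit 156) (nat_lit 2) (nat_lit 11) (.e false (nat_lit 1) (nat_lit 179) (nat_lit 1) (nat_lit 12) (.e false (nat_lit 1) (nat_lit 136) (nat_lit 2) (nat_lit 11) (.e true (nat_lit 1) (nat_lit 146) (nat_lit 2) (nat_lit 11) (.e true (nat_lit 1) (nat_lit 171) (nat_lit 1) (nat_lit 12) (.u (nat_lit 2) (.n (nat_lit 1) (nat_lit 1) (.n (nat_lit 3) (nat_lit 1) (.p (nat_lit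 5) (nat_lit 1) (.n (nat_lit 6) (nat_lit 1) (.n (nat_lit 12) (nat_lit 1) (.n (nat_lit 14) (nat_lit 1) (.n (nat_lit 20) (nat_lit 1) (.n (nat_lit 23) (nat_lit 1) (.p (nat_lit 117) (nat_lit 1) (.p (nat_lit 120) (nat_lit 1) (.p (nat_lit 121) (nat_lit 1) (.n (nat_lit 124) (nat_lit 1) (.p (nat_lit 125) (nat_lit 1) (.p (nat_lit 129) (nat_lit 1) (.n (nat_lit 132) (nat_lit 1) (.p (nat_lit 135) (nat_lit 1) (.p (nat_lit 137) (nat_lit 1) (.p (nat_lit 138) (nat_lit 1) (.n (nat_lit 142) (nat_lit 1) .z))))))))))))))))))) .nil)))))))))))))))))))))))))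

noncomputable def dC2b_i109 : IL := (.e true (nat_lit 3) (nat_lit 285) (nat_lit 1) (nat_lit 17) (.e false (nat_lit 2) (nat_lit 255) (nat_lit 1) (nat_lit 17) (.e true (nat_lit 2) (nat_lit 263) (nat_lit 1) (nat_lit 17) (.e false (nat_lit 1) (nat_lit 269) (nat_lit 1) (nat_lit 17) (.e false (nat_lit 3) (nat_lit 273) (nat_lit 1) (nat_lit 17) (.e true (nat_lit 1) (nat_lit 258) (nat_lit 1) (nat_lit 17) (.e false (nat_lit 3) (nat_lit 264) (nat_lit 1) (nat_lit 17) (.e false (nat_lit 1) (nat_lit 266) (nat_lit 1) (nat_lit 17) (.e true (nat_lit 1) (nat_lit 57) (nat_lit 20) (nat_lit 4) (.e false (nat_lit 1) (nat_lit 81) (nat_lit 15) (nat_lit 7) (.e true (nat_lit 1) (nat_lit 83) (nat_lit 15) (nat_lit 7) (.e true (nat_lit 1) (nat_lit 85) (nat_lit 15) (nat_lit 7) (.e false (nat_lit 1) (nat_lit 88) (nat_lit 15) (nat_lit 7) (.e false (nat_lit 1) (nat_lit 289) (nat_lit 0) (nat_lit 18) (.e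 true (nat_lit 2) (nat_lit 290) (nat_lit 0) (nat_lit 18) (.e false (nat_lit 2) (nat_lit 294) (nat_lit 0) (nat_lit 18) (.e true (nat_lit 3) (nat_lit 295) (nat_lit 0) (nat_lit 18) (.e true (nat_lit 2) (nat_lit 296) (nat_lit 0) (nat_lit 18) (.e true (nat_lit 2) (nat_lit 297) (nat_lit 0) (nat_lit 18) (.e false (nat_lit 2) (nat_lit 298) (nat_lit 0) (nat_lit 18) (.e false (nat_lit 1) (nat_lit 299) (nat_lit 0) (nat_lit 18) (.e true (nat_lit 2) (nat_lit 301) (nat_lit 0) (nat_lit 18) (.e true (nat_lit 2) (nat_lit 303) (nat_lit 0) (nat_lit 18) (.e false (nat_lit 1) (nat_lit 304) (nat_lit 0) (nat_lit 18) (.u (nat_lit 2) (.n (nat_lit 0) (nat_lit 1) (.p (nat_lit 1) (nat_lit 2) (.n (nat_lit 2) (nat_lit 1) (.n (nat_lit 4) (nat_lit 2) (.n (nat_lit 5) (nat_lit 2) (.n (nat_lit 6) (nat_lit 4) (.p (nat_lit 7) (nat_lit 1) (.p (nat_lit 8) (nat_lit 1) (.n (nat_lit 9) (nat_lit 1) (.n (nat_lit 10)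 (nat_lit 1) (.n (nat_lit 11) (nat_lit 2) (.n (nat_lit 12) (nat_lit 2) (.p (nat_lit 15) (nat_lit 2) (.p (nat_lit 18) (nat_lit 1) (.n (nat_lit 20) (nat_lit 2) (.n (nat_lit 23) (nat_lit 4) (.p (nat_lit 24) (nat_lit 2) (.n (nat_lit 25) (nat_lit 2) (.p (nat_lit 27) (nat_lit 1) (.n (nat_lit 28) (nat_lit 1) (.n (nat_lit 29) (nat_lit 2) (.p (nat_lit 31) (nat_lit 3) (.p (nat_lit 32) (nat_lit 1) (.n (nat_lit 33) (nat_lit 4) (.p (nat_lit 34) (nat_lit 2) (.n (nat_lit 35) (nat_lit 2) (.n (nat_lit 36) (nat_lit 1) (.p (nat_lit 38) (nat_lit 3) (.n (nat_lit 39) (nat_lit 2) (.n (nat_lit 41) (nat_lit 1) (.n (nat_lit 45) (nat_lit 1) (.n (nat_lit 46) (nat_lit 1) (.p (nat_lit 55) (nat_lit 1) (.n (nat_lit 349) (nat_lit 1) (.p (nat_lit 350) (nat_lit 1) (.n (nat_lit 352) (nat_lit 1) (.p (nat_lit 353) (nat_lit 1) (.p (nat_lit 356) (nat_lit 1) (.n (nat_lit 357) (nat_lit 1) (.p (nat_lit 358) (nat_lit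 1) (.n (nat_lit 359) (nat_lit 1) (.n (nat_lit 361) (nat_lit 1) (.n (nat_lit 362) (nat_lit 1) (.p (nat_lit 364) (nat_lit 1) (.p (nat_lit 366) (nat_lit 1) (.p (nat_lit 367) (nat_lit 1) (.n (nat_lit 368) (nat_lit 1) (.n (nat_lit 369) (nat_lit 1) (.n (nat_lit 370) (nat_lit 1) (.p (nat_lit 371) (nat_lit 1) (.p (nat_lit 373) (nat_lit 1) (.n (nat_lit 379) (nat_lit 1) .z)))))))))))))))))))))))))))))))))))))))))))))))))))) .nil)))))))))))))))))))))))))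

noncomputable def dC2b_i110 : IL := (.e false (nat_lit 1) (nat_lit 140) (nat_lit 7) (nat_lit 9) (.e false (nat_lit 1) (nat_lit 318) (nat_lit 1) (nat_lit 15) (.e true (nat_lit 1) (nat_lit 323) (nat_lit 1) (nat_lit 15) (.e true (nat_lit 1) (nat_lit 253) (nat_lit 2) (nat_lit 14) (.e true (nat_lit 1) (nat_lit 254) (nat_lit 2) (nat_lit 14) (.e false (nat_lit 1) (nat_lit 255) (nat_lit 2) (nat_lit 14) (.e false (nat_lit 1) (nat_lit 256) (nat_lit 2) (nat_lit 14) (.e true (nat_lit 3) (nat_lit 258) (nat_lit 2) (nat_lit 14) (.e true (nat_lit 2) (nat_lit 259) (nat_lit 2) (nat_lit 14) (.e true (nat_lit 3) (nat_lit 261) (nat_lit 2) (nat_lit 14) (.e false (nat_lit 1) (nat_lit 262) (nat_lit 2) (nat_lit 14) (.e true (nat_lit 2) (nat_lit 263) (nat_lit 2) (nat_lit 14) (.e false (nat_lit 3) (nat_lit 264) (nat_lit 2) (nat_lit 14) (.e true (nat_lit 1) (nat_lit 265) (nat_lit 2) (nat_lit 14) (.e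 true (nat_lit 3) (nat_lit 266) (nat_lit 2) (nat_lit 14) (.e false (nat_lit 1) (nat_lit 267) (nat_lit 2) (nat_lit 14) (.e false (nat_lit 3) (nat_lit 269) (nat_lit 2) (nat_lit 14) (.e false (nat_lit 1) (nat_lit 271) (nat_lit 2) (nat_lit 14) (.e true (nat_lit 1) (nat_lit 272) (nat_lit 2) (nat_lit 14) (.e false (nat_lit 3) (nat_lit 274) (nat_lit 2) (nat_lit 14) (.e true (nat_lit 1) (nat_lit 275) (nat_lit 2) (nat_lit 14) (.e true (nat_lit 1) (nat_lit 276) (nat_lit 2) (nat_lit 14) (.e false (nat_lit 1) (nat_lit 277) (nat_lit 2) (nat_lit 14) (.e true (nat_lit 1) (nat_lit 307) (nat_lit 1) (nat_lit 15) (.u (nat_lit 2) (.p (nat_lit 0) (nat_lit 2) (.p (nat_lit 1) (nat_lit 1) (.p (nat_lit 2) (nat_lit 1) (.p (nat_lit 3) (nat_lit 1) (.n (nat_lit 4) (nat_lit 1) (.n (nat_lit 5) (nat_lit 1) (.p (nat_lit 6) (nat_lit 2) (.p (nat_lit 7) (nat_lit 1) (.n (nat_lit 8) (nat_lit 2) (.n (nat_lit 10)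 (nat_lit 2) (.p (nat_lit 11) (nat_lit 3) (.n (nat_lit 12) (nat_lit 2) (.p (nat_lit 13) (nat_lit 2) (.p (nat_lit 14) (nat_lit 1) (.p (nat_lit 15) (nat_lit 1) (.p (nat_lit 16) (nat_lit 1) (.p (nat_lit 17) (nat_lit 1) (.n (nat_lit 18) (nat_lit 4) (.n (nat_lit 19) (nat_lit 2) (.p (nat_lit 21) (nat_lit 2) (.p (nat_lit 24) (nat_lit 2) (.p (nat_lit 25) (nat_lit 1) (.n (nat_lit 27) (nat_lit 1) (.n (nat_lit 34) (nat_lit 1) (.p (nat_lit 35) (nat_lit 1) (.n (nat_lit 38) (nat_lit 1) (.p (nat_lit 208) (nat_lit 1) (.p (nat_lit 211) (nat_lit 1) (.p (nat_lit 213) (nat_lit 1) (.p (nat_lit 215) (nat_lit 2) (.n (nat_lit 217) (nat_lit 1) (.p (nat_lit 218) (nat_lit 1) (.n (nat_lit 221) (nat_lit 1) (.n (nat_lit 223) (nat_lit 1) (.p (nat_lit 224) (nat_lit 1) (.p (nat_lit 225) (nat_lit 1) (.n (nat_lit 226) (nat_lit 1) (.n (nat_lit 227) (nat_lit 1) (.p (nat_lit 228) (nat_lit 1) (.n (nat_lit 229)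 (nat_lit 1) (.p (nat_lit 235) (nat_lit 1) (.n (nat_lit 237) (nat_lit 1) .z)))))))))))))))))))))))))))))))))))))))))) .nil)))))))))))))))))))))))))

noncomputable def dC2b_i111 : IL := (.e false (nat_lit 2) (nat_lit 254) (nat_lit 2) (nat_lit 14) (.e true (nat_lit 3) (nat_lit 255) (nat_lit 2) (nat_lit 14) (.e true (nat_lit 2) (nat_lit 256) (nat_lit 2) (nat_lit 14) (.e false (nat_lit 1) (nat_lit 257) (nat_lit 2) (nat_lit 14) (.e false (nat_lit 3) (nat_lit 258) (nat_lit 2) (nat_lit 14) (.e false (nat_lit 1) (nat_lit 261) (nat_lit 2) (nat_lit 14) (.e true (nat_lit 2) (nat_lit 262) (nat_lit 2) (nat_lit 14) (.e false (nat_lit 1) (nat_lit 263) (nat_lit 2) (nat_lit 14) (.e false (nat_lit 2) (nat_lit 265) (nat_lit 2) (nat_lit 14) (.e false (nat_lit 1) (nat_lit 266) (nat_lit 2) (nat_lit 14) (.e true (nat_lit 3) (nat_lit 267) (nat_lit 2) (nat_lit 14) (.e true (nat_lit 3) (nat_lit 270)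 (nat_lit 2) (nat_lit 14) (.e false (nat_lit 3) (nat_lit 271) (nat_lit 2) (nat_lit 14) (.e false (nat_lit 1) (nat_lit 272) (nat_lit 2) (nat_lit 14) (.e false (nat_lit 2) (nat_lit 273) (nat_lit 2) (nat_lit 14) (.e true (nat_lit 3) (nat_lit 274) (nat_lit 2) (nat_lit 14) (.e true (nat_lit 2) (nat_lit 275) (nat_lit 2) (nat_lit 14) (.e true (nat_lit 3) (nat_lit 276) (nat_lit 2) (nat_lit 14) (.e false (nat_lit 3) (nat_lit 277) (nat_lit 2) (nat_lit 14) (.e false (nat_lit 2) (nat_lit 283) (nat_lit 2) (nat_lit 14) (.e false (nat_lit 2) (nat_lit 284) (nat_lit 2) (nat_lit 14) (.e true (nat_lit 2) (nat_lit 269) (nat_lit 2) (nat_lit 14) (.e true (nat_lit 2) (nat_lit 286) (nat_lit 2) (nat_lit 14) (.e false (nat_lit 1) (nat_lit 102) (nat_lit 13) (nat_lit 7) (.u (nat_lit 2) (.n (nat_lit 0) (nat_lit 4) (.n (nat_lit 1) (nat_lit 1) (.n (nat_lit 2) (nat_lit 2) (.n (nat_lit 3) (nat_lit 2) (.n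 (nat_lit 4) (nat_lit 1) (.n (nat_lit 5) (nat_lit 2) (.p (nat_lit 6) (nat_lit 7) (.p (nat_lit 8) (nat_lit 6) (.p (nat_lit 9) (nat_lit 2) (.n (nat_lit 11) (nat_lit 1) (.p (nat_lit 12) (nat_lit 3) (.n (nat_lit 14) (nat_lit 7) (.n (nat_lit 15) (nat_lit 10) (.n (nat_lit 16) (nat_lit 10) (.n (nat_lit 17) (nat_lit 1) (.p (nat_lit 18) (nat_lit 3) (.n (nat_lit 19) (nat_lit 2) (.n (nat_lit 21) (nat_lit 6) (.p (nat_lit 23) (nat_lit 4) (.n (nat_lit 24) (nat_lit 6) (.p (nat_lit 25) (nat_lit 1) (.p (nat_lit 26) (nat_lit 1) (.n (nat_lit 30) (nat_lit 1) (.n (nat_lit 31) (nat_lit 1) (.p (nat_lit 34) (nat_lit 1) (.p (nat_lit 35) (nat_lit 7) (.p (nat_lit 38) (nat_lit 8) (.n (nat_lit 206) (nat_lit 1) (.p (nat_lit 214) (nat_lit 1) (.p (nat_lit 219) (nat_lit 1) (.n (nat_lit 223) (nat_lit 1) (.p (nat_lit 226) (nat_lit 1) (.p (nat_lit 227) (nat_lit 1) (.p (nat_lit 228) (nat_lit 1) (.n (nat_lit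 235) (nat_lit 1) .z))))))))))))))))))))))))))))))))))) .nil)))))))))))))))))))))))))

noncomputable def dC2b_i112 : IL := (.e false (nat_lit 3) (nat_lit 155) (nat_lit 1) (nat_lit 13) (.e true (nat_lit 2) (nat_lit 156) (nat_lit 1) (nat_lit 13) (.e true (nat_lit 2) (nat_lit 157) (nat_lit 1) (nat_lit 13) (.e false (nat_lit 2) (nat_lit 117) (nat_lit 2) (nat_lit 12) (.e false (nat_lit 1) (nat_lit 118) (nat_lit 2) (nat_lit 12) (.e true (nat_lit 2) (nat_lit 119) (nat_lit 2) (nat_lit 12) (.e false (nat_lit 3) (nat_lit 120) (nat_lit 2) (nat_lit 12) (.e true (nat_lit 2) (nat_lit 122) (nat_lit 2) (nat_lit 12) (.e true (nat_lit 2) (nat_lit 123) (nat_lit 2) (nat_lit 12) (.e true (nat_lit 1) (nat_lit 106) (nat_lit 2) (nat_lit 12) (.e false (nat_lit 1) (nat_lit 107) (nat_lit 2) (nat_lit 12) (.e false (nat_lit 2) (nat_lit 108) (nat_lit 2) (nat_lit 12) (.e true (nat_lit 3) (nat_lit 110)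 (nat_lit 2) (nat_lit 12) (.e false (nat_lit 1) (nat_lit 112) (nat_lit 2) (nat_lit 12) (.e false (nat_lit 3) (nat_lit 113) (nat_lit 2) (nat_lit 12) (.e true (nat_lit 1) (nat_lit 114) (nat_lit 2) (nat_lit 12) (.e true (nat_lit 3) (nat_lit 115) (nat_lit 2) (nat_lit 12) (.e false (nat_lit 3) (nat_lit 116) (nat_lit 2) (nat_lit 12) (.e true (nat_lit 1) (nat_lit 121) (nat_lit 2) (nat_lit 12) (.e false (nat_lit 1) (nat_lit 126) (nat_lit 2) (nat_lit 12) (.e false (nat_lit 3) (nat_lit 127) (nat_lit 2) (nat_lit 12) (.e false (nat_lit 3) (nat_lit 130) (nat_lit 2) (nat_lit 12) (.e false (nat_lit 3) (nat_lit 131) (nat_lit 2) (nat_lit 12) (.e true (nat_lit 1) (nat_lit 125) (nat_lit 2) (nat_lit 12) (.u (nat_lit 2) (.p (nat_lit 1) (nat_lit 1) (.n (nat_lit 2) (nat_lit 2) (.n (nat_lit 3) (nat_lit 2) (.p (nat_lit 6) (nat_lit 4) (.p (nat_lit 8) (nat_lit 1) (.n (nat_lit 9) (nat_lit 1) (.p (nat_lit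 11) (nat_lit 1) (.p (nat_lit 12) (nat_lit 1) (.n (nat_lit 13) (nat_lit 1) (.n (nat_lit 15) (nat_lit 1) (.p (nat_lit 16) (nat_lit 3) (.p (nat_lit 22) (nat_lit 3) (.p (nat_lit 24) (nat_lit 4) (.p (nat_lit 25) (nat_lit 4) (.p (nat_lit 26) (nat_lit 2) (.n (nat_lit 27) (nat_lit 3) (.n (nat_lit 29) (nat_lit 2) (.p (nat_lit 30) (nat_lit 1) (.p (nat_lit 34) (nat_lit 1) (.n (nat_lit 37) (nat_lit 1) (.p (nat_lit 38) (nat_lit 3) (.n (nat_lit 39) (nat_lit 2) (.n (nat_lit 41) (nat_lit 1) (.n (nat_lit 42) (nat_lit 2) (.n (nat_lit 43) (nat_lit 1) (.n (nat_lit 44) (nat_lit 2) (.n (nat_lit 45) (nat_lit 1) (.n (nat_lit 46) (nat_lit 1) (.n (nat_lit 160) (nat_lit 1) .z))))))))))))))))))))))))))))) .nil)))))))))))))))))))))))))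

noncomputable def dC2b_i113 : IL := (.s true (nat_lit 1) (nat_lit 36) (nat_lit 2) (nat_lit 2) (nat_lit 1) true (nat_lit 7) true (nat_lit 12) false (nat_lit 1) true (nat_lit 11) true (nat_lit 11) (.e true (nat_lit 1) (nat_lit 172) (nat_lit 1) (nat_lit 12) (.e false (nat_lit 1) (nat_lit 36) (nat_lit 19) (nat_lit 1) (.e false (nat_lit 3) (nat_lit 132) (nat_lit 2) (nat_lit 11) (.e true (nat_lit 2) (nat_lit 134) (nat_lit 2) (nat_lit 11) (.e true (nat_lit 2) (nat_lit 135) (nat_lit 2) (nat_lit 11) (.e false (nat_lit 2) (nat_lit 136) (nat_lit 2) (nat_lit 11) (.e false (nat_lit 1) (nat_lit 141) (nat_lit 2) (nat_lit 11) (.e false (nat_lit 1) (nat_lit 143) (nat_lit 2) (nat_lit 11) (.e true (nat_lit 2) (nat_lit 144) (nat_lit 2) (nat_lit 11) (.e false (nat_lit 2) (nat_lit 145) (nat_lit 2) (nat_lit 11) (.e false (nat_lit 1) (nat_lit 147) (nat_lit 2) (nat_lit 11) (.e false (nat_lit 1)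 (nat_lit 148) (nat_lit 2) (nat_lit 11) (.e true (nat_lit 2) (nat_lit 149) (nat_lit 2) (nat_lit 11) (.e false (nat_lit 3) (nat_lit 150) (nat_lit 2) (nat_lit 11) (.e false (nat_lit 2) (nat_lit 151) (nat_lit 2) (nat_lit 11) (.e false (nat_lit 3) (nat_lit 152) (nat_lit 2) (nat_lit 11) (.e false (nat_lit 2) (nat_lit 153) (nat_lit 2) (nat_lit 11) (.e false (nat_lit 1) (nat_lit 154) (nat_lit 2) (nat_lit 11) (.e false (nat_lit 3) (nat_lit 155) (nat_lit 2) (nat_lit 11) (.e true (nat_lit 2) (nat_lit 156) (nat_lit 2) (nat_lit 11) (.e true (nat_lit 2) (nat_lit 157) (nat_lit 2) (nat_lit 11) (.e false (nat_lit 1) (nat_lit 133) (nat_lit 2) (nat_lit 11) (.e false (nat_lit 1) (nat_lit 137) (nat_lit 2) (nat_lit 11) (.u (nat_lit 2) (.n (nat_lit 12) (nat_lit 1) (.p (nat_lit 20) (nat_lit 1) (.p (nat_lit 22) (nat_lit 1) .z))) .nil)))))))))))))))))))))))))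

noncomputable def dC2b_i114 : IL := (.e false (nat_lit 3) (nat_lit 215) (nat_lit 2) (nat_lit 16) (.e false (nat_lit 1) (nat_lit 217) (nat_lit 2) (nat_lit 16) (.e false (nat_lit 3) (nat_lit 218) (nat_lit 2) (nat_lit 16) (.e true (nat_lit 1) (nat_lit 219) (nat_lit 2) (nat_lit 16) (.e true (nat_lit 1) (nat_lit 220) (nat_lit 2) (nat_lit 16) (.e false (nat_lit 2) (nat_lit 221) (nat_lit 2) (nat_lit 16) (.e false (nat_lit 2) (nat_lit 222) (nat_lit 2) (nat_lit 16) (.e true (nat_lit 2) (nat_lit 225) (nat_lit 2) (nat_lit 16) (.e true (nat_lit 2) (nat_lit 226) (nat_lit 2) (nat_lit 16) (.e true (nat_lit 1) (nat_lit 228) (nat_lit 2) (nat_lit 16) (.e false (nat_lit 2) (nat_lit 229) (nat_lit 2) (nat_lit 16) (.e false (nat_lit 2) (nat_lit 230) (nat_lit 2) (nat_lit 16) (.e true (nat_lit 3) (nat_lit 234) (nat_lit 2) (nat_lit 16) (.e true (nat_lit 2) (nat_lit 240) (nat_lit 2) (nat_lit 16)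 (.e true (nat_lit 3) (nat_lit 242) (nat_lit 2) (nat_lit 16) (.e true (nat_lit 2) (nat_lit 243) (nat_lit 2) (nat_lit 16) (.e true (nat_lit 2) (nat_lit 244) (nat_lit 2) (nat_lit 16) (.e true (nat_lit 2) (nat_lit 245) (nat_lit 2) (nat_lit 16) (.e false (nat_lit 3) (nat_lit 247) (nat_lit 2) (nat_lit 16) (.e false (nat_lit 2) (nat_lit 248) (nat_lit 2) (nat_lit 16) (.e false (nat_lit 3) (nat_lit 249) (nat_lit 2) (nat_lit 16) (.e true (nat_lit 1) (nat_lit 250) (nat_lit 2) (nat_lit 16) (.e true (nat_lit 1) (nat_lit 251) (nat_lit 2) (nat_lit 16) (.e true (nat_lit 1) (nat_lit 268) (nat_lit 1) (nat_lit 17) (.u (nat_lit 2) (.n (nat_lit 0) (nat_lit 3) (.n (nat_lit 1) (nat_lit 2) (.p (nat_lit 2) (nat_lit 4) (.p (nat_lit 3) (nat_lit 7) (.n (nat_lit 4) (nat_lit 3) (.p (nat_lit 6) (nat_lit 2) (.p (nat_lit 7) (nat_lit 1) (.n (nat_lit 8) (nat_lit 3) (.n (nat_lit 9) (nat_lit 2) (.p (nat_lit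 10) (nat_lit 1) (.n (nat_lit 11) (nat_lit 5) (.n (nat_lit 12) (nat_lit 4) (.p (nat_lit 14) (nat_lit 2) (.n (nat_lit 15) (nat_lit 1) (.n (nat_lit 18) (nat_lit 3) (.p (nat_lit 19) (nat_lit 2) (.n (nat_lit 20) (nat_lit 3) (.p (nat_lit 21) (nat_lit 5) (.n (nat_lit 22) (nat_lit 3) (.p (nat_lit 23) (nat_lit 1) (.n (nat_lit 24) (nat_lit 4) (.p (nat_lit 25) (nat_lit 2) (.p (nat_lit 26) (nat_lit 2) (.n (nat_lit 27) (nat_lit 3) (.p (nat_lit 32) (nat_lit 2) (.n (nat_lit 33) (nat_lit 1) (.p (nat_lit 34) (nat_lit 4) (.n (nat_lit 35) (nat_lit 4) (.n (nat_lit 36) (nat_lit 2) (.n (nat_lit 37) (nat_lit 4) (.p (nat_lit 38) (nat_lit 3) (.n (nat_lit 40) (nat_lit 1) (.n (nat_lit 44) (nat_lit 1) (.n (nat_lit 45) (nat_lit 4) (.n (nat_lit 46) (nat_lit 3) (.p (nat_lit 47) (nat_lit 2) (.p (nat_lit 48) (nat_lit 1) (.n (nat_lit 49) (nat_lit 1) (.n (nat_lit 57) (nat_lit 1) .z)))))))))))))))))))))))))))))))))))))))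 .nil)))))))))))))))))))))))))

noncomputable def dC2b_i115 : IL := (.e false (nat_lit 1) (nat_lit 44) (nat_lit 41) (nat_lit 0) (.e true (nat_lit 2) (nat_lit 305) (nat_lit 1) (nat_lit 15) (.e true (nat_lit 2) (nat_lit 306) (nat_lit 1) (nat_lit 15) (.e false (nat_lit 3) (nat_lit 308) (nat_lit 1) (nat_lit 15) (.e false (nat_lit 2) (nat_lit 309) (nat_lit 1) (nat_lit 15) (.e false (nat_lit 1) (nat_lit 311) (nat_lit 1) (nat_lit 15) (.e false (nat_lit 1) (nat_lit 312) (nat_lit 1) (nat_lit 15) (.e true (nat_lit 3) (nat_lit 314) (nat_lit 1) (nat_lit 15) (.e false (nat_lit 1) (nat_lit 313) (nat_lit 1) (nat_lit 15) (.e false (nat_lit 3) (nat_lit 307) (nat_lit 1) (nat_lit 15) (.e true (nat_lit 1) (nat_lit 310) (nat_lit 1) (nat_lit 15) (.e false (nat_lit 2) (nat_lit 318) (nat_lit 1) (nat_lit 15) (.e true (nat_lit 1) (nat_lit 69) (nat_lit 20) (nat_lit 3) (.e false (nat_lit 1) (nat_lit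 81) (nat_lit 18) (nat_lit 4) (.e true (nat_lit 1) (nat_lit 82) (nat_lit 18) (nat_lit 4) (.e true (nat_lit 1) (nat_lit 85) (nat_lit 18) (nat_lit 4) (.e false (nat_lit 1) (nat_lit 88) (nat_lit 18) (nat_lit 4) (.e false (nat_lit 3) (nat_lit 324) (nat_lit 0) (nat_lit 16) (.e false (nat_lit 2) (nat_lit 325) (nat_lit 0) (nat_lit 16) (.e true (nat_lit 1) (nat_lit 326) (nat_lit 0) (nat_lit 16) (.e false (nat_lit 1) (nat_lit 328) (nat_lit 0) (nat_lit 16) (.e false (nat_lit 3) (nat_lit 331) (nat_lit 0) (nat_lit 16) (.e true (nat_lit 1) (nat_lit 333) (nat_lit 0) (nat_lit 16) (.e true (nat_lit 1) (nat_lit 334) (nat_lit 0) (nat_lit 16) (.u (nat_lit 2) (.p (nat_lit 0) (nat_lit 2) (.p (nat_lit 1) (nat_lit 1) (.p (nat_lit 7) (nat_lit 1) (.p (nat_lit 8) (nat_lit 1) (.p (nat_lit 11) (nat_lit 2) (.n (nat_lit 12) (nat_lit 1) (.p (nat_lit 13) (nat_lit 2) (.n (nat_lit 19) (nat_lit 1) (.n (nat_lit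 24) (nat_lit 1) (.n (nat_lit 251) (nat_lit 1) .z)))))))))) .nil)))))))))))))))))))))))))

noncomputable def dC2b_i116 : IL := (.e false (nat_lit 2) (nat_lit 156) (nat_lit 7) (nat_lit 9) (.e false (nat_lit 2) (nat_lit 157) (nat_lit 7) (nat_lit 9) (.e false (nat_lit 2) (nat_lit 283) (nat_lit 2) (nat_lit 14) (.e true (nat_lit 2) (nat_lit 285) (nat_lit 2) (nat_lit 14) (.e false (nat_lit 3) (nat_lit 252) (nat_lit 2) (nat_lit 14) (.e false (nat_lit 1) (nat_lit 255) (nat_lit 2) (nat_lit 14) (.e false (nat_lit 1) (nat_lit 256) (nat_lit 2) (nat_lit 14) (.e true (nat_lit 1) (nat_lit 257) (nat_lit 2) (nat_lit 14) (.e false (nat_lit 3) (nat_lit 258) (nat_lit 2) (nat_lit 14) (.e true (nat_lit 1) (nat_lit 261) (nat_lit 2) (nat_lit 14) (.e true (nat_lit 3) (nat_lit 262) (nat_lit 2) (nat_lit 14) (.e true (nat_lit 1) (nat_lit 266) (nat_lit 2) (nat_lit 14) (.e false (nat_lit 2) (nat_lit 269)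 (nat_lit 2) (nat_lit 14) (.e false (nat_lit 2) (nat_lit 271) (nat_lit 2) (nat_lit 14) (.e true (nat_lit 1) (nat_lit 274) (nat_lit 2) (nat_lit 14) (.e false (nat_lit 2) (nat_lit 275) (nat_lit 2) (nat_lit 14) (.e true (nat_lit 2) (nat_lit 276) (nat_lit 2) (nat_lit 14) (.e true (nat_lit 2) (nat_lit 277) (nat_lit 2) (nat_lit 14) (.e false (nat_lit 3) (nat_lit 264) (nat_lit 2) (nat_lit 14) (.e false (nat_lit 1) (nat_lit 254) (nat_lit 2) (nat_lit 14) (.e false (nat_lit 1) (nat_lit 265) (nat_lit 2) (nat_lit 14) (.e false (nat_lit 1) (nat_lit 286) (nat_lit 2) (nat_lit 14) (.e false (nat_lit 2) (nat_lit 253) (nat_lit 2) (nat_lit 14) (.e false (nat_lit 2) (nat_lit 273) (nat_lit 2) (nat_lit 14) (.u (nat_lit 2) (.p (nat_lit 0) (nat_lit 1) (.n (nat_lit 1) (nat_lit 6) (.n (nat_lit 2) (nat_lit 2) (.p (nat_lit 3) (nat_lit 4) (.n (nat_lit 4) (nat_lit 1) (.n (nat_lit 5) (nat_lit 1) (.p (nat_lit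 6) (nat_lit 2) (.p (nat_lit 7) (nat_lit 2) (.n (nat_lit 8) (nat_lit 2) (.p (nat_lit 9) (nat_lit 1) (.n (nat_lit 10) (nat_lit 1) (.n (nat_lit 11) (nat_lit 2) (.p (nat_lit 12) (nat_lit 2) (.n (nat_lit 13) (nat_lit 1) (.n (nat_lit 14) (nat_lit 7) (.n (nat_lit 15) (nat_lit 1) (.n (nat_lit 16) (nat_lit 1) (.n (nat_lit 17) (nat_lit 1) (.p (nat_lit 18) (nat_lit 4) (.p (nat_lit 19) (nat_lit 4) (.p (nat_lit 21) (nat_lit 1) (.p (nat_lit 23) (nat_lit 1) (.p (nat_lit 24) (nat_lit 3) (.n (nat_lit 25) (nat_lit 2) (.p (nat_lit 26) (nat_lit 2) (.p (nat_lit 27) (nat_lit 2) (.n (nat_lit 29) (nat_lit 1) (.p (nat_lit 30) (nat_lit 1) (.p (nat_lit 31) (nat_lit 1) (.p (nat_lit 34) (nat_lit 1) (.p (nat_lit 35) (nat_lit 3) (.p (nat_lit 38) (nat_lit 3) (.n (nat_lit 204) (nat_lit 1) (.n (nat_lit 207) (nat_lit 1) (.n (nat_lit 209) (nat_lit 1) (.n (nat_lit 210) (nat_lit 1) (.n (nat_lit 221) (nat_lit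 1) (.n (nat_lit 224) (nat_lit 1) (.n (nat_lit 235) (nat_lit 1) .z))))))))))))))))))))))))))))))))))))))) .nil)))))))))))))))))))))))))

noncomputable def dC2b_i117 : IL := (.e false (nat_lit 1) (nat_lit 313) (nat_lit 1) (nat_lit 15) (.e false (nat_lit 2) (nat_lit 314) (nat_lit 1) (nat_lit 15) (.e false (nat_lit 2) (nat_lit 315) (nat_lit 1) (nat_lit 15) (.e false (nat_lit 1) (nat_lit 317) (nat_lit 1) (nat_lit 15) (.e false (nat_lit 1) (nat_lit 47) (nat_lit 36) (nat_lit 1) (.e true (nat_lit 2) (nat_lit 132) (nat_lit 7) (nat_lit 9) (.e false (nat_lit 1) (nat_lit 134) (nat_lit 7) (nat_lit 9) (.e false (nat_lit 1) (nat_lit 135) (nat_lit 7) (nat_lit 9) (.e true (nat_lit 2) (nat_lit 136) (nat_lit 7) (nat_lit 9) (.e false (nat_lit 1) (nat_lit 138) (nat_lit 7) (nat_lit 9) (.e false (nat_lit 1) (nat_lit 139) (nat_lit 7) (nat_lit 9) (.e true (nat_lit 1) (nat_lit 140) (nat_lit 7) (nat_lit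 9) (.e true (nat_lit 2) (nat_lit 141) (nat_lit 7) (nat_lit 9) (.e true (nat_lit 1) (nat_lit 143) (nat_lit 7) (nat_lit 9) (.e false (nat_lit 1) (nat_lit 144) (nat_lit 7) (nat_lit 9) (.e true (nat_lit 1) (nat_lit 145) (nat_lit 7) (nat_lit 9) (.e true (nat_lit 1) (nat_lit 147) (nat_lit 7) (nat_lit 9) (.e true (nat_lit 1) (nat_lit 148) (nat_lit 7) (nat_lit 9) (.e false (nat_lit 2) (nat_lit 149) (nat_lit 7) (nat_lit 9) (.e true (nat_lit 3) (nat_lit 150) (nat_lit 7) (nat_lit 9) (.e true (nat_lit 2) (nat_lit 151) (nat_lit 7) (nat_lit 9) (.e true (nat_lit 3) (nat_lit 152) (nat_lit 7) (nat_lit 9) (.e true (nat_lit 2) (nat_lit 153) (nat_lit 7) (nat_lit 9) (.e true (nat_lit 1) (nat_lit 154) (nat_lit 7) (nat_lit 9) (.e true (nat_lit 3) (nat_lit 155) (nat_lit 7) (nat_lit 9) dC2b_i116)))))))))))))))))))))))))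

noncomputable def dC2b_i118 : IL := (.e false (nat_lit 2) (nat_lit 150) (nat_lit 1) (nat_lit 13) (.e false (nat_lit 1) (nat_lit 151) (nat_lit 1) (nat_lit 13) (.e true (nat_lit 3) (nat_lit 152) (nat_lit 1) (nat_lit 13) (.e false (nat_lit 2) (nat_lit 153) (nat_lit 1) (nat_lit 13) (.e true (nat_lit 1) (nat_lit 156) (nat_lit 1) (nat_lit 13) (.e true (nat_lit 2) (nat_lit 157) (nat_lit 1) (nat_lit 13) (.e false (nat_lit 2) (nat_lit 118) (nat_lit 2) (nat_lit 12) (.e false (nat_lit 2) (nat_lit 119) (nat_lit 2) (nat_lit 12) (.e true (nat_lit 2) (nat_lit 120) (nat_lit 2) (nat_lit 12) (.e true (nat_lit 3) (nat_lit 123) (nat_lit 2) (nat_lit 12) (.e true (nat_lit 3) (nat_lit 106) (nat_lit 2) (nat_lit 12) (.e false (nat_lit 2) (nat_lit 107) (nat_lit 2) (nat_lit 12) (.e false (nat_lit 1) (nat_lit 108) (nat_lit 2) (nat_lit 12) (.e true (nat_lit 2) (nat_lit 110) (nat_lit 2) (nat_lit 12)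 (.e false (nat_lit 1) (nat_lit 113) (nat_lit 2) (nat_lit 12) (.e true (nat_lit 1) (nat_lit 115) (nat_lit 2) (nat_lit 12) (.e true (nat_lit 2) (nat_lit 116) (nat_lit 2) (nat_lit 12) (.e false (nat_lit 3) (nat_lit 117) (nat_lit 2) (nat_lit 12) (.e false (nat_lit 2) (nat_lit 122) (nat_lit 2) (nat_lit 12) (.e true (nat_lit 2) (nat_lit 127) (nat_lit 2) (nat_lit 12) (.e false (nat_lit 1) (nat_lit 130) (nat_lit 2) (nat_lit 12) (.e false (nat_lit 1) (nat_lit 131) (nat_lit 2) (nat_lit 12) (.e false (nat_lit 3) (nat_lit 109) (nat_lit 2) (nat_lit 12) (.e true (nat_lit 2) (nat_lit 125) (nat_lit 2) (nat_lit 12) (.u (nat_lit 2) (.n (nat_lit 0) (nat_lit 1) (.p (nat_lit 1) (nat_lit 1) (.p (nat_lit 2) (nat_lit 2) (.p (nat_lit 3) (nat_lit 1) (.p (nat_lit 4) (nat_lit 2) (.p (nat_lit 6) (nat_lit 3) (.p (nat_lit 7) (nat_lit 2) (.p (nat_lit 8) (nat_lit 1) (.n (nat_lit 9) (nat_lit 2) (.p (nat_lit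 10) (nat_lit 1) (.p (nat_lit 11) (nat_lit 1) (.p (nat_lit 12) (nat_lit 1) (.p (nat_lit 13) (nat_lit 1) (.p (nat_lit 14) (nat_lit 3) (.n (nat_lit 15) (nat_lit 1) (.n (nat_lit 16) (nat_lit 1) (.p (nat_lit 17) (nat_lit 1) (.n (nat_lit 21) (nat_lit 2) (.p (nat_lit 22) (nat_lit 2) (.n (nat_lit 23) (nat_lit 1) (.n (nat_lit 24) (nat_lit 1) (.n (nat_lit 25) (nat_lit 1) (.p (nat_lit 26) (nat_lit 2) (.n (nat_lit 27) (nat_lit 3) (.n (nat_lit 28) (nat_lit 1) (.n (nat_lit 29) (nat_lit 1) (.p (nat_lit 30) (nat_lit 2) (.n (nat_lit 32) (nat_lit 1) (.p (nat_lit 34) (nat_lit 1) (.p (nat_lit 35) (nat_lit 1) (.n (nat_lit 37) (nat_lit 1) (.p (nat_lit 38) (nat_lit 3) (.n (nat_lit 39) (nat_lit 3) (.n (nat_lit 40) (nat_lit 2) (.p (nat_lit 41) (nat_lit 1) (.n (nat_lit 42) (nat_lit 1) (.p (nat_lit 43) (nat_lit 2) (.n (nat_lit 44) (nat_lit 2) (.n (nat_lit 45) (nat_lit 1) (.n (nat_lit 46) (nat_lit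 1) (.n (nat_lit 147) (nat_lit 1) (.n (nat_lit 148) (nat_lit 1) (.n (nat_lit 149) (nat_lit 1) (.p (nat_lit 150) (nat_lit 1) (.n (nat_lit 152) (nat_lit 1) (.p (nat_lit 154) (nat_lit 1) (.n (nat_lit 156) (nat_lit 1) (.n (nat_lit 158) (nat_lit 1) (.p (nat_lit 162) (nat_lit 1) (.p (nat_lit 163) (nat_lit 1) (.n (nat_lit 183) (nat_lit 1) .z))))))))))))))))))))))))))))))))))))))))))))))))))) .nil)))))))))))))))))))))))))

noncomputable def dC2b_i119 : IL := (.e true (nat_lit 3) (nat_lit 153) (nat_lit 2) (nat_lit 11) (.e true (nat_lit 3) (nat_lit 154) (nat_lit 2) (nat_lit 11) (.e false (nat_lit 2) (nat_lit 155) (nat_lit 2) (nat_lit 11) (.e false (nat_lit 3) (nat_lit 156) (nat_lit 2) (nat_lit 11) (.e false (nat_lit 3) (nat_lit 157) (nat_lit 2) (nat_lit 11) (.e false (nat_lit 1) (nat_lit 28) (nat_lit 20) (nat_lit 0) (.e false (nat_lit 2) (nat_lit 133) (nat_lit 2) (nat_lit 11) (.e false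 (nat_lit 3) (nat_lit 134) (nat_lit 2) (nat_lit 11) (.e false (nat_lit 3) (nat_lit 169) (nat_lit 1) (nat_lit 12) (.e true (nat_lit 3) (nat_lit 170) (nat_lit 1) (nat_lit 12) (.e false (nat_lit 3) (nat_lit 173) (nat_lit 1) (nat_lit 12) (.e true (nat_lit 3) (nat_lit 174) (nat_lit 1) (nat_lit 12) (.e true (nat_lit 1) (nat_lit 177) (nat_lit 1) (nat_lit 12) (.e true (nat_lit 1) (nat_lit 178) (nat_lit 1) (nat_lit 12) (.e false (nat_lit 1) (nat_lit 181) (nat_lit 1) (nat_lit 12) (.e true (nat_lit 1) (nat_lit 182) (nat_lit 1) (nat_lit 12) (.e false (nat_lit 2) (nat_lit 148) (nat_lit 2) (nat_lit 11) (.e true (nat_lit 1) (nat_lit 61) (nat_lit 7) (nat_lit 6) (.e false (nat_lit 1) (nat_lit 62) (nat_lit 7) (nat_lit 6) (.e false (nat_lit 1) (nat_lit 63) (nat_lit 7) (nat_lit 6) (.e true (nat_lit 1) (nat_lit 66) (nat_lit 7) (nat_lit 6) (.e true (nat_lit 1) (nat_lit 67) (nat_lit 7) (nat_lit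 6) (.e false (nat_lit 2) (nat_lit 71) (nat_lit 7) (nat_lit 6) (.e false (nat_lit 2) (nat_lit 72) (nat_lit 7) (nat_lit 6) (.u (nat_lit 2) (.p (nat_lit 0) (nat_lit 2) (.n (nat_lit 1) (nat_lit 1) (.p (nat_lit 2) (nat_lit 2) (.n (nat_lit 3) (nat_lit 1) (.n (nat_lit 4) (nat_lit 2) (.p (nat_lit 5) (nat_lit 3) (.p (nat_lit 6) (nat_lit 1) (.n (nat_lit 7) (nat_lit 1) (.p (nat_lit 8) (nat_lit 1) (.p (nat_lit 9) (nat_lit 1) (.p (nat_lit 10) (nat_lit 2) (.p (nat_lit 12) (nat_lit 2) (.n (nat_lit 14) (nat_lit 2) (.n (nat_lit 15) (nat_lit 2) (.p (nat_lit 17) (nat_lit 1) (.n (nat_lit 18) (nat_lit 4) (.p (nat_lit 19) (nat_lit 1) (.n (nat_lit 20) (nat_lit 1) (.n (nat_lit 23) (nat_lit 2) (.n (nat_lit 24) (nat_lit 1) (.n (nat_lit 27) (nat_lit 1) (.p (nat_lit 28) (nat_lit 1) (.p (nat_lit 31) (nat_lit 1) (.n (nat_lit 34) (nat_lit 1) (.n (nat_lit 117) (nat_lit 1) (.n (nat_lit 118) (nat_lit 1)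 (.n (nat_lit 119) (nat_lit 1) (.p (nat_lit 120) (nat_lit 1) (.p (nat_lit 123) (nat_lit 1) (.p (nat_lit 124) (nat_lit 1) (.n (nat_lit 125) (nat_lit 1) (.n (nat_lit 130) (nat_lit 1) (.n (nat_lit 132) (nat_lit 1) (.p (nat_lit 134) (nat_lit 1) (.n (nat_lit 135) (nat_lit 1) (.n (nat_lit 136) (nat_lit 1) (.n (nat_lit 138) (nat_lit 1) (.p (nat_lit 139) (nat_lit 1) (.p (nat_lit 141) (nat_lit 1) (.p (nat_lit 142) (nat_lit 1) (.n (nat_lit 147) (nat_lit 1) .z))))))))))))))))))))))))))))))))))))))))) .nil)))))))))))))))))))))))))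

noncomputable def dC2b_i120 : IL := (.e false (nat_lit 3) (nat_lit 157) (nat_lit 7) (nat_lit 9) (.e false (nat_lit 3) (nat_lit 252) (nat_lit 2) (nat_lit 14) (.e false (nat_lit 3) (nat_lit 253) (nat_lit 2) (nat_lit 14) (.e true (nat_lit 1) (nat_lit 254) (nat_lit 2) (nat_lit 14) (.e false (nat_lit 3) (nat_lit 256) (nat_lit 2) (nat_lit 14) (.e true (nat_lit 1) (nat_lit 257) (nat_lit 2) (nat_lit 14) (.e true (nat_lit 3) (nat_lit 258) (nat_lit 2) (nat_lit 14) (.e false (nat_lit 1) (nat_lit 261) (nat_lit 2) (nat_lit 14) (.e true (nat_lit 2) (nat_lit 263) (nat_lit 2) (nat_lit 14) (.e true (nat_lit 2) (nat_lit 265) (nat_lit 2) (nat_lit 14) (.e true (nat_lit 2) (nat_lit 267) (nat_lit 2) (nat_lit 14) (.e false (nat_lit 1) (nat_lit 270) (nat_lit 2) (nat_lit 14) (.e false (nat_lit 3) (nat_lit 272) (nat_lit 2) (nat_lit 14) (.e true (nat_lit 1) (nat_lit 275) (nat_lit 2) (nat_lit 14)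 (.e true (nat_lit 1) (nat_lit 277) (nat_lit 2) (nat_lit 14) (.e true (nat_lit 2) (nat_lit 259) (nat_lit 2) (nat_lit 14) (.e false (nat_lit 2) (nat_lit 260) (nat_lit 2) (nat_lit 14) (.e false (nat_lit 2) (nat_lit 262) (nat_lit 2) (nat_lit 14) (.e true (nat_lit 1) (nat_lit 264) (nat_lit 2) (nat_lit 14) (.e true (nat_lit 2) (nat_lit 268) (nat_lit 2) (nat_lit 14) (.e true (nat_lit 1) (nat_lit 269) (nat_lit 2) (nat_lit 14) (.e false (nat_lit 1) (nat_lit 274) (nat_lit 2) (nat_lit 14) (.e true (nat_lit 1) (nat_lit 284) (nat_lit 2) (nat_lit 14) (.e true (nat_lit 1) (nat_lit 309) (nat_lit 1) (nat_lit 15) (.u (nat_lit 2) (.n (nat_lit 0) (nat_lit 1) (.n (nat_lit 1) (nat_lit 9) (.n (nat_lit 2) (nat_lit 1) (.n (nat_lit 3) (nat_lit 1) (.n (nat_lit 4) (nat_lit 5) (.p (nat_lit 5) (nat_lit 4) (.n (nat_lit 6) (nat_lit 6) (.n (nat_lit 7) (nat_lit 6) (.p (nat_lit 8) (nat_lit 1) (.n (nat_lit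 9) (nat_lit 1) (.p (nat_lit 10) (nat_lit 4) (.n (nat_lit 11) (nat_lit 1) (.n (nat_lit 12) (nat_lit 5) (.n (nat_lit 14) (nat_lit 2) (.p (nat_lit 15) (nat_lit 2) (.p (nat_lit 16) (nat_lit 2) (.n (nat_lit 17) (nat_lit 1) (.p (nat_lit 18) (nat_lit 2) (.p (nat_lit 21) (nat_lit 4) (.p (nat_lit 24) (nat_lit 5) (.n (nat_lit 25) (nat_lit 4) (.n (nat_lit 26) (nat_lit 1) (.p (nat_lit 29) (nat_lit 1) (.p (nat_lit 34) (nat_lit 2) (.p (nat_lit 35) (nat_lit 1) (.p (nat_lit 38) (nat_lit 4) (.n (nat_lit 208) (nat_lit 1) (.p (nat_lit 210) (nat_lit 1) (.n (nat_lit 222) (nat_lit 1) .z))))))))))))))))))))))))))))) .nil)))))))))))))))))))))))))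

noncomputable def dC2b_i121 : IL := (.e false (nat_lit 1) (nat_lit 310) (nat_lit 1) (nat_lit 15) (.e false (nat_lit 1) (nat_lit 311) (nat_lit 1) (nat_lit 15) (.e false (nat_lit 1) (nat_lit 312) (nat_lit 1) (nat_lit 15) (.e false (nat_lit 2) (nat_lit 313) (nat_lit 1) (nat_lit 15) (.e true (nat_lit 1) (nat_lit 314) (nat_lit 1) (nat_lit 15) (.e false (nat_lit 2) (nat_lit 315) (nat_lit 1) (nat_lit 15) (.e true (nat_lit 1) (nat_lit 317) (nat_lit 1) (nat_lit 15) (.e true (nat_lit 2) (nat_lit 318) (nat_lit 1) (nat_lit 15) (.e true (nat_lit 1) (nat_lit 47) (nat_lit 37) (nat_lit 1) (.e true (nat_lit 2) (nat_lit 134) (nat_lit 7) (nat_lit 9) (.e false (nat_lit 2) (nat_lit 138) (nat_lit 7) (nat_lit 9) (.e true (nat_lit 1) (nat_lit 144) (nat_lit 7) (nat_lit 9) (.e false (nat_lit 1) (nat_lit 149) (nat_lit 7) (nat_lit 9) (.e false (nat_lit 1) (nat_lit 157) (nat_lit 7) (nat_lit 9) (.e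 true (nat_lit 1) (nat_lit 334) (nat_lit 0) (nat_lit 16) (.e false (nat_lit 1) (nat_lit 324) (nat_lit 0) (nat_lit 16) (.e false (nat_lit 2) (nat_lit 325) (nat_lit 0) (nat_lit 16) (.e true (nat_lit 1) (nat_lit 326) (nat_lit 0) (nat_lit 16) (.e true (nat_lit 1) (nat_lit 327) (nat_lit 0) (nat_lit 16) (.e true (nat_lit 2) (nat_lit 328) (nat_lit 0) (nat_lit 16) (.e true (nat_lit 2) (nat_lit 330) (nat_lit 0) (nat_lit 16) (.e true (nat_lit 2) (nat_lit 333) (nat_lit 0) (nat_lit 16) (.e true (nat_lit 1) (nat_lit 329) (nat_lit 0) (nat_lit 16) (.e true (nat_lit 2) (nat_lit 331) (nat_lit 0) (nat_lit 16) (.u (nat_lit 2) (.p (nat_lit 0) (nat_lit 1) (.n (nat_lit 1) (nat_lit 1) (.n (nat_lit 2) (nat_lit 1) (.n (nat_lit 3) (nat_lit 1) (.n (nat_lit 5) (nat_lit 1) (.n (nat_lit 6) (nat_lit 2) (.p (nat_lit 8) (nat_lit 2) (.n (nat_lit 9) (nat_lit 3) (.p (nat_lit 10) (nat_lit 3) (.n (nat_lit 11)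 (nat_lit 1) (.p (nat_lit 13) (nat_lit 1) (.n (nat_lit 17) (nat_lit 2) (.p (nat_lit 18) (nat_lit 1) (.p (nat_lit 19) (nat_lit 2) (.n (nat_lit 21) (nat_lit 1) (.n (nat_lit 23) (nat_lit 1) (.p (nat_lit 24) (nat_lit 3) (.n (nat_lit 25) (nat_lit 1) (.p (nat_lit 27) (nat_lit 1) (.p (nat_lit 30) (nat_lit 2) (.p (nat_lit 31) (nat_lit 1) (.n (nat_lit 32) (nat_lit 1) (.p (nat_lit 35) (nat_lit 1) (.n (nat_lit 260) (nat_lit 1) (.n (nat_lit 261) (nat_lit 1) (.n (nat_lit 262) (nat_lit 1) (.p (nat_lit 263) (nat_lit 1) (.n (nat_lit 264) (nat_lit 1) (.n (nat_lit 266) (nat_lit 1) (.p (nat_lit 269) (nat_lit 1) (.p (nat_lit 270) (nat_lit 1) .z))))))))))))))))))))))))))))))) .nil)))))))))))))))))))))))))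

noncomputable def dC2b_i122 : IL := (.e true (nat_lit 3) (nat_lit 63) (nat_lit 2) (nat_lit 8) (.e true (nat_lit 1) (nat_lit 64) (nat_lit 2) (nat_lit 8) (.e false (nat_lit 2) (nat_lit 65) (nat_lit 2) (nat_lit 8) (.e true (nat_lit 1) (nat_lit 67) (nat_lit 2) (nat_lit 8) (.e false (nat_lit 3) (nat_lit 68) (nat_lit 2) (nat_lit 8) (.e true (nat_lit 1) (nat_lit 71) (nat_lit 2) (nat_lit 8) (.e false (nat_lit 3) (nat_lit 73) (nat_lit 2) (nat_lit 8) (.e true (nat_lit 1) (nat_lit 62) (nat_lit 2) (nat_lit 8) (.e false (nat_lit 1) (nat_lit 29) (nat_lit 7) (nat_lit 3) (.e true (nat_lit 3) (nat_lit 66) (nat_lit 2) (nat_lit 8) (.e false (nat_lit 2) (nat_lit 72) (nat_lit 2) (nat_lit 8) (.e false (nat_lit 1) (nat_lit 18) (nat_lit 12) (nat_lit 1) (.e true (nat_lit 2) (nat_lit 34) (nat_lit 6) (nat_lit 4) (.e false (nat_lit 1) (nat_lit 81) (nat_lit 1) (nat_lit 9) (.e true (nat_lit 2) (nat_lit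 69) (nat_lit 2) (nat_lit 8) (.e false (nat_lit 1) (nat_lit 16) (nat_lit 15) (nat_lit 0) (.e true (nat_lit 1) (nat_lit 83) (nat_lit 1) (nat_lit 9) (.e true (nat_lit 3) (nat_lit 20) (nat_lit 9) (nat_lit 2) (.e true (nat_lit 1) (nat_lit 19) (nat_lit 11) (nat_lit 1) (.e true (nat_lit 1) (nat_lit 47) (nat_lit 3) (nat_lit 7) (.e true (nat_lit 3) (nat_lit 25) (nat_lit 7) (nat_lit 3) (.e true (nat_lit 1) (nat_lit 92) (nat_lit 0) (nat_lit 10) (.e false (nat_lit 3) (nat_lit 70) (nat_lit 2) (nat_lit 8) (.e true (nat_lit 1) (nat_lit 45) (nat_lit 3) (nat_lit 7) (.u (nat_lit 2) (.n (nat_lit 2) (nat_lit 1) (.p (nat_lit 4) (nat_lit 1) (.n (nat_lit 11) (nat_lit 1) (.p (nat_lit 15) (nat_lit 1) (.p (nat_lit 38) (nat_lit 1) (.p (nat_lit 39) (nat_lit 1) (.n (nat_lit 41) (nat_lit 1) (.p (nat_lit 43) (nat_lit 1) (.p (nat_lit 51) (nat_lit 1) (.n (nat_lit 52) (nat_lit 1) (.n (nat_lit 59) (nat_lit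 1) (.n (nat_lit 60) (nat_lit 1) (.p (nat_lit 62) (nat_lit 1) (.n (nat_lit 64) (nat_lit 1) (.p (nat_lit 66) (nat_lit 1) (.n (nat_lit 67) (nat_lit 1) (.p (nat_lit 68) (nat_lit 1) (.n (nat_lit 69) (nat_lit 1) (.p (nat_lit 70) (nat_lit 2) (.p (nat_lit 85) (nat_lit 1) (.n (nat_lit 86) (nat_lit 1) (.p (nat_lit 89) (nat_lit 1) .z)))))))))))))))))))))) .nil)))))))))))))))))))))))))

noncomputable def dC2b_i123 : IL := (.e false (nat_lit 2) (nat_lit 141) (nat_lit 1) (nat_lit 13) (.e false (nat_lit 1) (nat_lit 38) (nat_lit 15) (nat_lit 3) (.e true (nat_lit 2) (nat_lit 132) (nat_lit 1) (nat_lit 13) (.e false (nat_lit 1) (nat_lit 133) (nat_lit 1) (nat_lit 13) (.e true (nat_lit 2) (nat_lit 134) (nat_lit 1) (nat_lit 13) (.e true (nat_lit 1) (nat_lit 135) (nat_lit 1) (nat_lit 13) (.e true (nat_lit 3) (nat_lit 137) (nat_lit 1) (nat_lit 13) (.e false (nat_lit 2) (nat_lit 139) (nat_lit 1)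 (nat_lit 13) (.e true (nat_lit 2) (nat_lit 140) (nat_lit 1) (nat_lit 13) (.e false (nat_lit 1) (nat_lit 142) (nat_lit 1) (nat_lit 13) (.e false (nat_lit 2) (nat_lit 143) (nat_lit 1) (nat_lit 13) (.e false (nat_lit 2) (nat_lit 144) (nat_lit 1) (nat_lit 13) (.e true (nat_lit 2) (nat_lit 145) (nat_lit 1) (nat_lit 13) (.e true (nat_lit 1) (nat_lit 146) (nat_lit 1) (nat_lit 13) (.e true (nat_lit 2) (nat_lit 147) (nat_lit 1) (nat_lit 13) (.e true (nat_lit 1) (nat_lit 148) (nat_lit 1) (nat_lit 13) (.e false (nat_lit 1) (nat_lit 150) (nat_lit 1) (nat_lit 13) (.e false (nat_lit 2) (nat_lit 151) (nat_lit 1) (nat_lit 13) (.e false (nat_lit 1) (nat_lit 153) (nat_lit 1) (nat_lit 13) (.e false (nat_lit 3) (nat_lit 154) (nat_lit 1) (nat_lit 13) (.e false (nat_lit 2) (nat_lit 155) (nat_lit 1) (nat_lit 13) (.e true (nat_lit 2) (nat_lit 156) (nat_lit 1) (nat_lit 13) (.e true (nat_lit 1) (nat_lit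 157) (nat_lit 1) (nat_lit 13) (.e false (nat_lit 1) (nat_lit 125) (nat_lit 2) (nat_lit 12) (.u (nat_lit 2) (.n (nat_lit 0) (nat_lit 1) (.n (nat_lit 1) (nat_lit 2) (.p (nat_lit 4) (nat_lit 2) (.n (nat_lit 5) (nat_lit 1) (.p (nat_lit 7) (nat_lit 2) (.n (nat_lit 9) (nat_lit 1) (.n (nat_lit 10) (nat_lit 1) (.n (nat_lit 11) (nat_lit 1) (.n (nat_lit 14) (nat_lit 2) (.p (nat_lit 15) (nat_lit 1) (.n (nat_lit 17) (nat_lit 1) (.p (nat_lit 21) (nat_lit 1) (.p (nat_lit 22) (nat_lit 1) (.n (nat_lit 23) (nat_lit 1) (.p (nat_lit 24) (nat_lit 3) (.p (nat_lit 25) (nat_lit 4) (.p (nat_lit 26) (nat_lit 1) (.n (nat_lit 27) (nat_lit 1) (.n (nat_lit 29) (nat_lit 1) (.n (nat_lit 37) (nat_lit 2) (.p (nat_lit 38) (nat_lit 1) (.p (nat_lit 40) (nat_lit 2) (.n (nat_lit 43) (nat_lit 3) (.n (nat_lit 45) (nat_lit 2) (.p (nat_lit 46) (nat_lit 1) .z))))))))))))))))))))))))) .nil)))))))))))))))))))))))))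

noncomputable def dC2b_i124 : IL := (.e true (nat_lit 1) (nat_lit 145) (nat_lit 2) (nat_lit 11) (.e true (nat_lit 1) (nat_lit 147) (nat_lit 2) (nat_lit 11) (.e false (nat_lit 1) (nat_lit 149) (nat_lit 2) (nat_lit 11) (.e false (nat_lit 1) (nat_lit 150) (nat_lit 2) (nat_lit 11) (.e true (nat_lit 2) (nat_lit 151) (nat_lit 2) (nat_lit 11) (.e true (nat_lit 3) (nat_lit 152) (nat_lit 2) (nat_lit 11) (.e false (nat_lit 1) (nat_lit 153) (nat_lit 2) (nat_lit 11) (.e true (nat_lit 1) (nat_lit 154) (nat_lit 2) (nat_lit 11) (.e false (nat_lit 2) (nat_lit 156) (nat_lit 2) (nat_lit 11) (.e false (nat_lit 3) (nat_lit 157) (nat_lit 2) (nat_lit 11) (.e false (nat_lit 3) (nat_lit 133) (nat_lit 2) (nat_lit 11) (.e true (nat_lit 3) (nat_lit 142) (nat_lit 2) (nat_lit 11) (.e true (nat_lit 3) (nat_lit 34) (nat_lit 18) (nat_lit 1) (.e true (nat_lit 2) (nat_lit 174) (nat_lit 1) (nat_lit 12) (.e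 false (nat_lit 2) (nat_lit 176) (nat_lit 1) (nat_lit 12) (.e true (nat_lit 2) (nat_lit 172) (nat_lit 1) (nat_lit 12) (.e false (nat_lit 2) (nat_lit 175) (nat_lit 1) (nat_lit 12) (.e false (nat_lit 3) (nat_lit 177) (nat_lit 1) (nat_lit 12) (.e true (nat_lit 2) (nat_lit 178) (nat_lit 1) (nat_lit 12) (.e true (nat_lit 2) (nat_lit 182) (nat_lit 1) (nat_lit 12) (.e true (nat_lit 2) (nat_lit 148) (nat_lit 2) (nat_lit 11) (.e true (nat_lit 2) (nat_lit 45) (nat_lit 11) (nat_lit 4) (.e false (nat_lit 2) (nat_lit 101) (nat_lit 3) (nat_lit 10) (.e false (nat_lit 2) (nat_lit 146) (nat_lit 2) (nat_lit 11) (.u (nat_lit 2) (.p (nat_lit 0) (nat_lit 1) (.n (nat_lit 1) (nat_lit 1) (.p (nat_lit 2) (nat_lit 2) (.p (nat_lit 3) (nat_lit 2) (.n (nat_lit 4) (nat_lit 1) (.n (nat_lit 6) (nat_lit 2) (.p (nat_lit 7) (nat_lit 1) (.p (nat_lit 8) (nat_lit 1) (.p (nat_lit 9) (nat_lit 1) (.p (nat_lit 10)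 (nat_lit 3) (.p (nat_lit 11) (nat_lit 1) (.p (nat_lit 12) (nat_lit 1) (.p (nat_lit 13) (nat_lit 3) (.n (nat_lit 14) (nat_lit 1) (.p (nat_lit 15) (nat_lit 2) (.n (nat_lit 16) (nat_lit 1) (.n (nat_lit 17) (nat_lit 1) (.n (nat_lit 18) (nat_lit 2) (.n (nat_lit 19) (nat_lit 2) (.n (nat_lit 21) (nat_lit 2) (.p (nat_lit 22) (nat_lit 1) (.p (nat_lit 24) (nat_lit 2) (.p (nat_lit 25) (nat_lit 3) (.p (nat_lit 26) (nat_lit 1) (.p (nat_lit 27) (nat_lit 1) (.n (nat_lit 28) (nat_lit 1) (.p (nat_lit 31) (nat_lit 1) (.p (nat_lit 35) (nat_lit 1) (.n (nat_lit 36) (nat_lit 1) (.p (nat_lit 44) (nat_lit 1) (.n (nat_lit 92) (nat_lit 1) (.p (nat_lit 93) (nat_lit 1) (.p (nat_lit 96) (nat_lit 1) (.p (nat_lit 97) (nat_lit 1) (.p (nat_lit 117) (nat_lit 1) (.p (nat_lit 118) (nat_lit 1) (.n (nat_lit 119) (nat_lit 2) (.p (nat_lit 122) (nat_lit 2) (.p (nat_lit 123) (nat_lit 2) (.n (nat_lit 124) (nat_lit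 1) (.p (nat_lit 125) (nat_lit 1) (.p (nat_lit 126) (nat_lit 2) (.p (nat_lit 127) (nat_lit 1) (.p (nat_lit 128) (nat_lit 1) (.p (nat_lit 129) (nat_lit 1) (.p (nat_lit 130) (nat_lit 1) (.p (nat_lit 132) (nat_lit 1) (.n (nat_lit 134) (nat_lit 1) (.p (nat_lit 135) (nat_lit 1) (.p (nat_lit 136) (nat_lit 2) (.p (nat_lit 137) (nat_lit 1) (.p (nat_lit 138) (nat_lit 1) (.p (nat_lit 139) (nat_lit 1) (.n (nat_lit 140) (nat_lit 1) (.n (nat_lit 141) (nat_lit 2) (.n (nat_lit 142) (nat_lit 1) (.p (nat_lit 143) (nat_lit 2) (.n (nat_lit 146) (nat_lit 2) (.n (nat_lit 147) (nat_lit 2) (.n (nat_lit 151) (nat_lit 1) .z)))))))))))))))))))))))))))))))))))))))))))))))))))))))))))) .nil)))))))))))))))))))))))))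

noncomputable def dC2b_i125 : IL := (.s false (nat_lit 1) (nat_lit 7) (nat_lit 0) (nat_lit 6) (nat_lit 6) true (nat_lit 4) true (nat_lit 7) true (nat_lit 6) true (nat_lit 13) true (nat_lit 7) (.s false (nat_lit 1) (nat_lit 13) (nat_lit 1) (nat_lit 2) (nat_lit 7) true (nat_lit 1) true (nat_lit 6) true (nat_lit 4) true (nat_lit 12) true (nat_lit 11) (.s true (nat_lit 1) (nat_lit 13) (nat_lit 2) (nat_lit 7) (nat_lit 1) true (nat_lit 7) true (nat_lit 12) true (nat_lit 4) true (nat_lit 11) true (nat_lit 6) (.s true (nat_lit 2) (nat_lit 12) (nat_lit 6) (nat_lit 2) (nat_lit 2) true (nat_lit 1) true (nat_lit 11) true (nat_lit 4) true (nat_lit 7) true (nat_lit 11) (.s true (nat_lit 1) (nat_lit 13) (nat_lit 7) (nat_lit 2) (nat_lit 1) true (nat_lit 1) true (nat_lit 12) true (nat_lit 4) true (nat_lit 6) true (nat_lit 11) (.s true (nat_lit 2) (nat_lit 16) (nat_lit 2) (nat_lit 1) (nat_lit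 6) true (nat_lit 1) true (nat_lit 7) true (nat_lit 2) true (nat_lit 11) true (nat_lit 12) (.s true (nat_lit 2) (nat_lit 18) (nat_lit 1) (nat_lit 5) (nat_lit 2) true (nat_lit 7) true (nat_lit 11) true (nat_lit 1) true (nat_lit 12) true (nat_lit 8) (.s false (nat_lit 2) (nat_lit 36) (nat_lit 1) (nat_lit 2) (nat_lit 2) true (nat_lit 7) true (nat_lit 11) false (nat_lit 1) true (nat_lit 12) true (nat_lit 11) (.s false (nat_lit 2) (nat_lit 45) (nat_lit 1) (nat_lit 0) (nat_lit 2) true (nat_lit 7) true (nat_lit 11) false (nat_lit 4) true (nat_lit 12) true (nat_lit 13) (.s false (nat_lit 2) (nat_lit 45) (nat_lit 1) (nat_lit 2) (nat_lit 0) true (nat_lit 10) true (nat_lit 13) false (nat_lit 4) true (nat_lit 12) true (nat_lit 11) (.s true (nat_lit 2) (nat_lit 45) (nat_lit 2) (nat_lit 0) (nat_lit 1) true (nat_lit 7) true (nat_lit 12) false (nat_lit 4) true (nat_lit 11) true (nat_lit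 13) (.s true (nat_lit 2) (nat_lit 45) (nat_lit 2) (nat_lit 1) (nat_lit 0) true (nat_lit 8) true (nat_lit 13) false (nat_lit 4) true (nat_lit 11) true (nat_lit 12) (.e false (nat_lit 3) (nat_lit 80) (nat_lit 6) (nat_lit 7) (.e true (nat_lit 3) (nat_lit 81) (nat_lit 6) (nat_lit 7) (.e false (nat_lit 2) (nat_lit 82) (nat_lit 6) (nat_lit 7) (.e true (nat_lit 3) (nat_lit 84) (nat_lit 6) (nat_lit 7) (.e false (nat_lit 2) (nat_lit 179) (nat_lit 1) (nat_lit 12) (.e true (nat_lit 3) (nat_lit 135) (nat_lit 2) (nat_lit 11) (.e false (nat_lit 2) (nat_lit 136) (nat_lit 2) (nat_lit 11) (.e false (nat_lit 1) (nat_lit 137) (nat_lit 2) (nat_lit 11) (.e true (nat_lit 2) (nat_lit 138) (nat_lit 2) (nat_lit 11) (.e true (nat_lit 1) (nat_lit 139) (nat_lit 2) (nat_lit 11) (.e true (nat_lit 3) (nat_lit 140) (nat_lit 2) (nat_lit 11) (.e false (nat_lit 3) (nat_lit 143) (nat_lit 2) (nat_lit 11) (.e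 true (nat_lit 2) (nat_lit 144) (nat_lit 2) (nat_lit 11) dC2b_i124)))))))))))))))))))))))))

noncomputable def dC2b_i126 : IL := (.s true (nat_lit 3) (nat_lit 36) (nat_lit 2) (nat_lit 2) (nat_lit 2) true (nat_lit 4) true (nat_lit 8) false (nat_lit 0) true (nat_lit 8) true (nat_lit 8) (.s true (nat_lit 3) (nat_lit 37) (nat_lit 2) (nat_lit 2) (nat_lit 2) true (nat_lit 4) true (nat_lit 8) false (nat_lit 0) true (nat_lit 8) true (nat_lit 8) (.s true (nat_lit 3) (nat_lit 38) (nat_lit 2) (nat_lit 2) (nat_lit 2) true (nat_lit 4) true (nat_lit 8) false (nat_lit 0) true (nat_lit 8) true (nat_lit 8) (.e false (nat_lit 1) (nat_lit 80) (nat_lit 7) (nat_lit 4) (.e false (nat_lit 3) (nat_lit 81) (nat_lit 7) (nat_lit 4) (.e true (nat_lit 3) (nat_lit 89) (nat_lit 7) (nat_lit 4) (.e true (nat_lit 1) (nat_lit 33) (nat_lit 20) (nat_lit 0) (.e true (nat_lit 3) (nat_lit 34) (nat_lit 20) (nat_lit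 0) (.e true (nat_lit 1) (nat_lit 169) (nat_lit 2) (nat_lit 8) (.e true (nat_lit 2) (nat_lit 172) (nat_lit 2) (nat_lit 8) (.e false (nat_lit 1) (nat_lit 173) (nat_lit 2) (nat_lit 8) (.e true (nat_lit 3) (nat_lit 175) (nat_lit 2) (nat_lit 8) (.e true (nat_lit 2) (nat_lit 176) (nat_lit 2) (nat_lit 8) (.e true (nat_lit 2) (nat_lit 178) (nat_lit 2) (nat_lit 8) (.e false (nat_lit 3) (nat_lit 179) (nat_lit 2) (nat_lit 8) (.e true (nat_lit 1) (nat_lit 180) (nat_lit 2) (nat_lit 8) (.e true (nat_lit 3) (nat_lit 182) (nat_lit 2) (nat_lit 8) (.e false (nat_lit 1) (nat_lit 184) (nat_lit 2) (nat_lit 8) (.e true (nat_lit 2) (nat_lit 171) (nat_lit 2) (nat_lit 8) (.e true (nat_lit 3) (nat_lit 174) (nat_lit 2) (nat_lit 8) (.e true (nat_lit 3) (nat_lit 183) (nat_lit 2) (nat_lit 8) (.e false (nat_lit 3) (nat_lit 35) (nat_lit 20) (nat_lit 0) (.e false (nat_lit 3) (nat_lit 82) (nat_lit 7) (nat_lit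 4) (.e true (nat_lit 3) (nat_lit 88) (nat_lit 7) (nat_lit 4) (.u (nat_lit 2) (.n (nat_lit 2) (nat_lit 1) (.n (nat_lit 3) (nat_lit 1) (.n (nat_lit 5) (nat_lit 1) (.n (nat_lit 8) (nat_lit 1) (.n (nat_lit 9) (nat_lit 1) (.p (nat_lit 10) (nat_lit 1) (.n (nat_lit 12) (nat_lit 1) (.n (nat_lit 13) (nat_lit 1) (.p (nat_lit 18) (nat_lit 1) (.p (nat_lit 19) (nat_lit 1) (.n (nat_lit 40) (nat_lit 1) (.p (nat_lit 43) (nat_lit 1) (.p (nat_lit 45) (nat_lit 2) (.n (nat_lit 46) (nat_lit 1) (.p (nat_lit 47) (nat_lit 1) (.p (nat_lit 49) (nat_lit 1) (.n (nat_lit 50) (nat_lit 1) (.p (nat_lit 52) (nat_lit 1) (.p (nat_lit 53) (nat_lit 1) (.p (nat_lit 56) (nat_lit 1) (.n (nat_lit 57) (nat_lit 1) (.p (nat_lit 60) (nat_lit 1) (.n (nat_lit 61) (nat_lit 2) (.p (nat_lit 63) (nat_lit 2) (.n (nat_lit 64) (nat_lit 1) (.n (nat_lit 65) (nat_lit 1) (.p (nat_lit 66) (nat_lit 1) (.p (nat_lit 68) (nat_lit 2)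 (.n (nat_lit 69) (nat_lit 1) (.n (nat_lit 70) (nat_lit 2) (.n (nat_lit 71) (nat_lit 1) (.p (nat_lit 73) (nat_lit 2) (.n (nat_lit 75) (nat_lit 1) .z))))))))))))))))))))))))))))))))) .nil)))))))))))))))))))))))))

noncomputable def dC2b_i127 : IL := (.e false (nat_lit 2) (nat_lit 209) (nat_lit 2) (nat_lit 16) (.e false (nat_lit 1) (nat_lit 210) (nat_lit 2) (nat_lit 16) (.e true (nat_lit 1) (nat_lit 211) (nat_lit 2) (nat_lit 16) (.e false (nat_lit 2) (nat_lit 212) (nat_lit 2) (nat_lit 16) (.e false (nat_lit 1) (nat_lit 213) (nat_lit 2) (nat_lit 16) (.e true (nat_lit 3) (nat_lit 214) (nat_lit 2) (nat_lit 16) (.e true (nat_lit 3) (nat_lit 215) (nat_lit 2) (nat_lit 16) (.e true (nat_lit 1) (nat_lit 216) (nat_lit 2) (nat_lit 16) (.e true (nat_lit 1) (nat_lit 219) (nat_lit 2) (nat_lit 16) (.e false (nat_lit 1) (nat_lit 221) (nat_lit 2) (nat_lit 16) (.e false (nat_lit 1) (nat_lit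 227) (nat_lit 2) (nat_lit 16) (.e true (nat_lit 2) (nat_lit 228) (nat_lit 2) (nat_lit 16) (.e true (nat_lit 1) (nat_lit 229) (nat_lit 2) (nat_lit 16) (.e false (nat_lit 1) (nat_lit 230) (nat_lit 2) (nat_lit 16) (.e false (nat_lit 1) (nat_lit 231) (nat_lit 2) (nat_lit 16) (.e false (nat_lit 1) (nat_lit 232) (nat_lit 2) (nat_lit 16) (.e true (nat_lit 1) (nat_lit 234) (nat_lit 2) (nat_lit 16) (.e true (nat_lit 1) (nat_lit 242) (nat_lit 2) (nat_lit 16) (.e false (nat_lit 2) (nat_lit 246) (nat_lit 2) (nat_lit 16) (.e false (nat_lit 2) (nat_lit 247) (nat_lit 2) (nat_lit 16) (.e true (nat_lit 1) (nat_lit 248) (nat_lit 2) (nat_lit 16) (.e true (nat_lit 1) (nat_lit 249) (nat_lit 2) (nat_lit 16) (.e false (nat_lit 1) (nat_lit 250) (nat_lit 2) (nat_lit 16) (.e false (nat_lit 3) (nat_lit 251) (nat_lit 2) (nat_lit 16) (.u (nat_lit 2) (.n (nat_lit 0) (nat_lit 2) (.n (nat_lit 1) (nat_lit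 1) (.n (nat_lit 2) (nat_lit 2) (.p (nat_lit 3) (nat_lit 2) (.n (nat_lit 4) (nat_lit 1) (.n (nat_lit 5) (nat_lit 2) (.n (nat_lit 6) (nat_lit 3) (.n (nat_lit 7) (nat_lit 1) (.n (nat_lit 8) (nat_lit 2) (.p (nat_lit 9) (nat_lit 1) (.p (nat_lit 10) (nat_lit 4) (.n (nat_lit 11) (nat_lit 3) (.n (nat_lit 12) (nat_lit 3) (.n (nat_lit 14) (nat_lit 4) (.p (nat_lit 15) (nat_lit 1) (.n (nat_lit 17) (nat_lit 1) (.p (nat_lit 18) (nat_lit 1) (.p (nat_lit 19) (nat_lit 2) (.n (nat_lit 20) (nat_lit 1) (.n (nat_lit 21) (nat_lit 2) (.p (nat_lit 22) (nat_lit 1) (.p (nat_lit 23) (nat_lit 4) (.n (nat_lit 25) (nat_lit 2) (.p (nat_lit 26) (nat_lit 1) (.p (nat_lit 27) (nat_lit 2) (.p (nat_lit 28) (nat_lit 2) (.p (nat_lit 29) (nat_lit 4) (.n (nat_lit 31) (nat_lit 2) (.p (nat_lit 32) (nat_lit 1) (.n (nat_lit 34) (nat_lit 3) (.p (nat_lit 35) (nat_lit 2) (.p (nat_lit 36) (nat_lit 4) (.n (nat_lit 37) (nat_lit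 4) (.n (nat_lit 40) (nat_lit 1) (.n (nat_lit 44) (nat_lit 1) (.n (nat_lit 45) (nat_lit 2) (.n (nat_lit 46) (nat_lit 1) (.n (nat_lit 47) (nat_lit 1) (.n (nat_lit 48) (nat_lit 1) (.p (nat_lit 49) (nat_lit 1) (.p (nat_lit 50) (nat_lit 1) (.n (nat_lit 56) (nat_lit 1) (.p (nat_lit 58) (nat_lit 1) (.n (nat_lit 61) (nat_lit 1) .z)))))))))))))))))))))))))))))))))))))))))))) .nil)))))))))))))))))))))))))

noncomputable def dC2b_i128 : IL := (.e false (nat_lit 3) (nat_lit 253) (nat_lit 2) (nat_lit 14) (.e true (nat_lit 3) (nat_lit 255) (nat_lit 2) (nat_lit 14) (.e false (nat_lit 3) (nat_lit 257) (nat_lit 2) (nat_lit 14) (.e true (nat_lit 1) (nat_lit 259) (nat_lit 2) (nat_lit 14) (.e false (nat_lit 1) (nat_lit 260) (nat_lit 2) (nat_lit 14) (.e false (nat_lit 3) (nat_lit 266) (nat_lit 2) (nat_lit 14) (.e false (nat_lit 3) (nat_lit 267) (nat_lit 2) (nat_lit 14) (.e false (nat_lit 1)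 (nat_lit 272) (nat_lit 2) (nat_lit 14) (.e false (nat_lit 3) (nat_lit 275) (nat_lit 2) (nat_lit 14) (.e false (nat_lit 3) (nat_lit 263) (nat_lit 2) (nat_lit 14) (.e true (nat_lit 1) (nat_lit 265) (nat_lit 2) (nat_lit 14) (.e false (nat_lit 1) (nat_lit 271) (nat_lit 2) (nat_lit 14) (.e true (nat_lit 1) (nat_lit 276) (nat_lit 2) (nat_lit 14) (.e false (nat_lit 1) (nat_lit 256) (nat_lit 2) (nat_lit 14) (.e false (nat_lit 2) (nat_lit 270) (nat_lit 2) (nat_lit 14) (.e true (nat_lit 3) (nat_lit 269) (nat_lit 2) (nat_lit 14) (.e true (nat_lit 3) (nat_lit 254) (nat_lit 2) (nat_lit 14) (.e true (nat_lit 3) (nat_lit 261) (nat_lit 2) (nat_lit 14) (.e false (nat_lit 3) (nat_lit 264) (nat_lit 2) (nat_lit 14) (.e true (nat_lit 3) (nat_lit 258) (nat_lit 2) (nat_lit 14) (.e false (nat_lit 2) (nat_lit 273) (nat_lit 2) (nat_lit 14) (.e true (nat_lit 2) (nat_lit 277) (nat_lit 2) (nat_lit 14)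 (.e true (nat_lit 1) (nat_lit 262) (nat_lit 2) (nat_lit 14) (.e true (nat_lit 1) (nat_lit 268) (nat_lit 2) (nat_lit 14) (.u (nat_lit 2) (.n (nat_lit 0) (nat_lit 2) (.p (nat_lit 1) (nat_lit 1) (.n (nat_lit 2) (nat_lit 3) (.p (nat_lit 3) (nat_lit 3) (.n (nat_lit 4) (nat_lit 3) (.p (nat_lit 5) (nat_lit 3) (.n (nat_lit 6) (nat_lit 4) (.p (nat_lit 7) (nat_lit 3) (.n (nat_lit 9) (nat_lit 1) (.p (nat_lit 10) (nat_lit 2) (.p (nat_lit 11) (nat_lit 2) (.p (nat_lit 12) (nat_lit 3) (.p (nat_lit 13) (nat_lit 3) (.n (nat_lit 14) (nat_lit 3) (.p (nat_lit 15) (nat_lit 2) (.p (nat_lit 16) (nat_lit 2) (.n (nat_lit 17) (nat_lit 1) (.p (nat_lit 19) (nat_lit 5) (.n (nat_lit 21) (nat_lit 2) (.p (nat_lit 23) (nat_lit 2) (.p (nat_lit 24) (nat_lit 3) (.n (nat_lit 25) (nat_lit 1) (.p (nat_lit 26) (nat_lit 1) (.p (nat_lit 27) (nat_lit 1) (.n (nat_lit 29) (nat_lit 1) (.p (nat_lit 31) (nat_lit 1) (.n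 (nat_lit 35) (nat_lit 1) (.p (nat_lit 38) (nat_lit 1) (.p (nat_lit 204) (nat_lit 1) (.n (nat_lit 205) (nat_lit 2) (.p (nat_lit 206) (nat_lit 1) (.n (nat_lit 207) (nat_lit 1) (.n (nat_lit 208) (nat_lit 2) (.p (nat_lit 209) (nat_lit 1) (.p (nat_lit 210) (nat_lit 1) (.n (nat_lit 211) (nat_lit 1) (.p (nat_lit 212) (nat_lit 1) (.n (nat_lit 215) (nat_lit 1) (.n (nat_lit 216) (nat_lit 1) (.p (nat_lit 217) (nat_lit 1) (.n (nat_lit 218) (nat_lit 2) (.n (nat_lit 219) (nat_lit 2) (.n (nat_lit 222) (nat_lit 3) (.n (nat_lit 224) (nat_lit 2) (.n (nat_lit 225) (nat_lit 1) (.n (nat_lit 226) (nat_lit 1) (.n (nat_lit 227) (nat_lit 2) (.p (nat_lit 232) (nat_lit 1) (.n (nat_lit 238) (nat_lit 1) (.p (nat_lit 240) (nat_lit 1) .z)))))))))))))))))))))))))))))))))))))))))))))))))) .nil)))))))))))))))))))))))))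

noncomputable def dC2b_i129 : IL := (.e true (nat_lit 1) (nat_lit 30) (nat_lit 16) (nat_lit 2) (.e false (nat_lit 1) (nat_lit 31) (nat_lit 16) (nat_lit 2) (.e false (nat_lit 1) (nat_lit 106) (nat_lit 2) (nat_lit 12) (.e true (nat_lit 2) (nat_lit 107) (nat_lit 2) (nat_lit 12) (.e true (nat_lit 1) (nat_lit 108) (nat_lit 2) (nat_lit 12) (.e true (nat_lit 2) (nat_lit 109) (nat_lit 2) (nat_lit 12) (.e true (nat_lit 1) (nat_lit 110) (nat_lit 2) (nat_lit 12) (.e false (nat_lit 3) (nat_lit 112) (nat_lit 2) (nat_lit 12) (.e true (nat_lit 3) (nat_lit 114) (nat_lit 2) (nat_lit 12) (.e false (nat_lit 1) (nat_lit 116) (nat_lit 2) (nat_lit 12) (.e false (nat_lit 1) (nat_lit 118) (nat_lit 2) (nat_lit 12) (.e true (nat_lit 2) (nat_lit 120) (nat_lit 2) (nat_lit 12) (.e false (nat_lit 2) (nat_lit 122) (nat_lit 2) (nat_lit 12) (.e false (nat_lit 1) (nat_lit 128) (nat_lit 2) (nat_lit 12) (.e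 true (nat_lit 1) (nat_lit 133) (nat_lit 1) (nat_lit 13) (.e false (nat_lit 1) (nat_lit 134) (nat_lit 1) (nat_lit 13) (.e false (nat_lit 2) (nat_lit 135) (nat_lit 1) (nat_lit 13) (.e true (nat_lit 2) (nat_lit 136) (nat_lit 1) (nat_lit 13) (.e true (nat_lit 2) (nat_lit 138) (nat_lit 1) (nat_lit 13) (.e true (nat_lit 1) (nat_lit 139) (nat_lit 1) (nat_lit 13) (.e false (nat_lit 1) (nat_lit 140) (nat_lit 1) (nat_lit 13) (.e false (nat_lit 2) (nat_lit 143) (nat_lit 1) (nat_lit 13) (.e false (nat_lit 2) (nat_lit 144) (nat_lit 1) (nat_lit 13) (.e false (nat_lit 1) (nat_lit 145) (nat_lit 1) (nat_lit 13) (.u (nat_lit 2) (.p (nat_lit 0) (nat_lit 1) (.p (nat_lit 2) (nat_lit 2) (.p (nat_lit 3) (nat_lit 2) (.n (nat_lit 5) (nat_lit 1) (.p (nat_lit 6) (nat_lit 1) (.p (nat_lit 7) (nat_lit 1) (.n (nat_lit 9) (nat_lit 1) (.p (nat_lit 10) (nat_lit 2) (.p (nat_lit 12) (nat_lit 1) (.p (nat_lit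 13) (nat_lit 1) (.p (nat_lit 14) (nat_lit 2) (.n (nat_lit 16) (nat_lit 1) (.p (nat_lit 17) (nat_lit 1) (.n (nat_lit 21) (nat_lit 2) (.n (nat_lit 24) (nat_lit 2) (.n (nat_lit 25) (nat_lit 2) (.p (nat_lit 26) (nat_lit 1) (.n (nat_lit 27) (nat_lit 1) (.n (nat_lit 29) (nat_lit 1) (.n (nat_lit 39) (nat_lit 1) (.n (nat_lit 40) (nat_lit 2) (.p (nat_lit 41) (nat_lit 1) (.p (nat_lit 43) (nat_lit 2) (.n (nat_lit 44) (nat_lit 1) .z)))))))))))))))))))))))) .nil)))))))))))))))))))))))))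

noncomputable def dC2b_i130 : IL := (.e false (nat_lit 1) (nat_lit 36) (nat_lit 18) (nat_lit 1) (.e false (nat_lit 1) (nat_lit 132) (nat_lit 2) (nat_lit 11) (.e false (nat_lit 1) (nat_lit 133) (nat_lit 2) (nat_lit 11) (.e true (nat_lit 1) (nat_lit 134) (nat_lit 2) (nat_lit 11) (.e true (nat_lit 1) (nat_lit 135) (nat_lit 2) (nat_lit 11) (.e true (nat_lit 1) (nat_lit 136) (nat_lit 2) (nat_lit 11) (.e false (nat_lit 1) (nat_lit 137) (nat_lit 2) (nat_lit 11) (.e false (nat_lit 1) (nat_lit 138) (nat_lit 2) (nat_lit 11) (.e true (nat_lit 1) (nat_lit 141) (nat_lit 2) (nat_lit 11) (.e true (nat_lit 1) (nat_lit 143) (nat_lit 2) (nat_lit 11) (.e false (nat_lit 2) (nat_lit 145) (nat_lit 2) (nat_lit 11) (.e false (nat_lit 1) (nat_lit 149) (nat_lit 2) (nat_lit 11) (.e true (nat_lit 1) (nat_lit 151) (nat_lit 2) (nat_lit 11) (.e true (nat_lit 1) (nat_lit 152) (nat_lit 2) (nat_lit 11)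 (.e true (nat_lit 1) (nat_lit 153) (nat_lit 2) (nat_lit 11) (.e true (nat_lit 1) (nat_lit 154) (nat_lit 2) (nat_lit 11) (.e false (nat_lit 1) (nat_lit 155) (nat_lit 2) (nat_lit 11) (.e false (nat_lit 1) (nat_lit 157) (nat_lit 2) (nat_lit 11) (.e false (nat_lit 1) (nat_lit 169) (nat_lit 1) (nat_lit 12) (.e true (nat_lit 1) (nat_lit 170) (nat_lit 1) (nat_lit 12) (.e true (nat_lit 1) (nat_lit 173) (nat_lit 1) (nat_lit 12) (.e true (nat_lit 2) (nat_lit 174) (nat_lit 1) (nat_lit 12) (.e true (nat_lit 1) (nat_lit 176) (nat_lit 1) (nat_lit 12) (.e false (nat_lit 1) (nat_lit 179) (nat_lit 1) (nat_lit 12) (.u (nat_lit 2) (.n (nat_lit 1) (nat_lit 1) (.p (nat_lit 2) (nat_lit 2) (.n (nat_lit 3) (nat_lit 1) (.n (nat_lit 4) (nat_lit 1) (.p (nat_lit 5) (nat_lit 1) (.n (nat_lit 6) (nat_lit 1) (.n (nat_lit 7) (nat_lit 1) (.p (nat_lit 8) (nat_lit 1) (.p (nat_lit 13) (nat_lit 1) (.n (nat_lit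 14) (nat_lit 1) (.n (nat_lit 18) (nat_lit 1) (.n (nat_lit 19) (nat_lit 1) (.n (nat_lit 20) (nat_lit 2) (.n (nat_lit 21) (nat_lit 1) (.p (nat_lit 23) (nat_lit 1) (.p (nat_lit 25) (nat_lit 1) (.p (nat_lit 31) (nat_lit 1) (.n (nat_lit 33) (nat_lit 1) .z)))))))))))))))))) .nil)))))))))))))))))))))))))

noncomputable def dC2b_t0 : Tr := (.nd (.nd (.nd (.nd (.nd (.nd (.nd .leaf (nat_lit 44062) (nat_lit 1065) (.p (nat_lit 335) (nat_lit 3) (.n (nat_lit 336) (nat_lit 1) (.n (nat_lit 337) (nat_lit 2) (.p (nat_lit 338) (nat_lit 2) (.n (nat_lit 339) (nat_lit 3) (.p (nat_lit 340) (nat_lit 3) (.n (nat_lit 341) (nat_lit 3) (.n (nat_lit 342) (nat_lit 1) (.p (nat_lit 343) (nat_lit 3) (.p (nat_lit 344) (nat_lit 2) (.n (nat_lit 345) (nat_lit 3) (.p (nat_lit 346) (nat_lit 1) (.p (nat_lit 351) (nat_lit 2) (.n (nat_lit 352) (nat_lit 2) (.p (nat_lit 353) (nat_lit 1) (.n (nat_lit 354) (nat_lit 1) (.p (nat_lit 355) (nat_lit 3) (.n (nat_lit 356) (nat_lit 3) (.p (nat_lit 357) (nat_lit 3) (.n (nat_lit 358) (nat_lit 3) (.p (nat_lit 359) (nat_lit 1) (.p (nat_lit 361) (nat_lit 3) (.p (nat_lit 362) (nat_lit 3) (.p (nat_lit 364) (nat_lit 1) (.p (nat_lit 366) (nat_lit 3) (.p (nat_lit 367) (nat_lit 3) (.n (nat_lit 368) (nat_lit 1) (.n (nat_lit 369) (nat_lit 1) (.p (nat_lit 371) (nat_lit 1) (.p (nat_lit 372) (nat_lit 1) (.p (nat_lit 373) (nat_lit 1) (.p (nat_lit 374) (nat_lit 3) (.n (nat_lit 380) (nat_lit 1) (.n (nat_lit 381) (nat_lit 3) .z)))))))))))))))))))))))))))))))))) (.ct dC2b_c308 (nat_lit 1) (nat_lit 1) (.s true (nat_lit 1) (nat_lit 17) (nat_lit 2) (nat_lit 2) (nat_lit 10) true (nat_lit 1) true (nat_lit 9) true (nat_lit 6) true (nat_lit 16) true (nat_lit 16) (.e true (nat_lit 1) (nat_lit 98) (nat_lit 10) (nat_lit 9) (.e false (nat_lit 1) (nat_lit 79) (nat_lit 17) (nat_lit 6) (.e true (nat_lit 1) (nat_lit 205) (nat_lit 2) (nat_lit 16) (.e true (nat_lit 1) (nat_lit 206) (nat_lit 2) (nat_lit 16) dC2b_i0)))))) .leaf) (nat_lit 44071) (nat_lit 1331) (.n (nat_lit 397) (nat_lit 1) (.n (nat_lit 398) (nat_lit 3) (.p (nat_lit 399) (nat_lit 1) (.n (nat_lit 400) (nat_lit 3) (.n (nat_lit 401) (nat_lit 1) (.p (nat_lit 402) (nat_lit 2) (.p (nat_lit 403) (nat_lit 3) (.p (nat_lit 404) (nat_lit 3) (.p (nat_lit 405) (nat_lit 1) (.p (nat_lit 406) (nat_lit 2) (.p (nat_lit 407) (nat_lit 1) (.p (nat_lit 408) (nat_lit 3) (.n (nat_lit 409) (nat_lit 3) (.p (nat_lit 410) (nat_lit 2) (.p (nat_lit 412) (nat_lit 1) (.p (nat_lit 413) (nat_lit 1) (.n (nat_lit 414) (nat_lit 3) (.p (nat_lit 415) (nat_lit 1) (.p (nat_lit 416) (nat_lit 2) (.n (nat_lit 418) (nat_lit 2) (.p (nat_lit 419) (nat_lit 3) (.p (nat_lit 420) (nat_lit 2) (.n (nat_lit 423) (nat_lit 3) (.n (nat_lit 424) (nat_lit 3) (.p (nat_lit 426) (nat_lit 3) (.p (nat_lit 430) (nat_lit 3) (.n (nat_lit 431) (nat_lit 1) (.n (nat_lit 432) (nat_lit 2) (.p (nat_lit 435) (nat_lit 1) .z))))))))))))))))))))))))))))) (.ct dC2b_c293 (nat_lit 1) (nat_lit 0) (.s true (nat_lit 1) (nat_lit 17) (nat_lit 2) (nat_lit 2) (nat_lit 14) true (nat_lit 0) true (nat_lit 6) true (nat_lit 5) true (nat_lit 14) true (nat_lit 14) (.e true (nat_lit 1) (nat_lit 98) (nat_lit 14) (nat_lit 6) (.e false (nat_lit 1) (nat_lit 96) (nat_lit 17) (nat_lit 5) (.e false (nat_lit 3) (nat_lit 252) (nat_lit 2) (nat_lit 14) (.e true (nat_lit 2) (nat_lit 254) (nat_lit 2) (nat_lit 14) (.e false (nat_lit 3) (nat_lit 255) (nat_lit 2) (nat_lit 14) (.e true (nat_lit 1) (nat_lit 256) (nat_lit 2) (nat_lit 14) (.e true (nat_lit 1) (nat_lit 257) (nat_lit 2) (nat_lit 14) dC2b_i1))))))))) .leaf) (nat_lit 44072) (nat_lit 1316) (.p (nat_lit 397) (nat_lit 3) (.p (nat_lit 398) (nat_lit 1) (.n (nat_lit 399) (nat_lit 1) (.n (nat_lit 400) (nat_lit 2) (.p (nat_lit 401) (nat_lit 3) (.n (nat_lit 402) (nat_lit 2) (.n (nat_lit 403) (nat_lit 2) (.n (nat_lit 404) (nat_lit 3) (.p (nat_lit 405) (nat_lit 1) (.p (nat_lit 406) (nat_lit 2) (.p (nat_lit 407) (nat_lit 2) (.p (nat_lit 408) (nat_lit 1) (.p (nat_lit 409) (nat_lit 3) (.p (nat_lit 410) (nat_lit 3) (.p (nat_lit 411) (nat_lit 1) (.p (nat_lit 412) (nat_lit 1) (.p (nat_lit 413) (nat_lit 1) (.p (nat_lit 414) (nat_lit 2) (.n (nat_lit 415) (nat_lit 1) (.p (nat_lit 416) (nat_lit 3) (.p (nat_lit 418) (nat_lit 3) (.p (nat_lit 419) (nat_lit 2) (.p (nat_lit 420) (nat_lit 1) (.n (nat_lit 423) (nat_lit 2) (.n (nat_lit 424) (nat_lit 2) (.p (nat_lit 426) (nat_lit 2) (.p (nat_lit 430) (nat_lit 2) (.n (nat_lit 431) (nat_lit 3) (.n (nat_lit 432) (nat_lit 3) (.p (nat_lit 435) (nat_lit 3) .z)))))))))))))))))))))))))))))) (.ct dC2b_c293 (nat_lit 1) (nat_lit 0) (.s false (nat_lit 1) (nat_lit 40) (nat_lit 2) (nat_lit 2) (nat_lit 5) true (nat_lit 5) true (nat_lit 11) true (nat_lit 0) true (nat_lit 14) true (nat_lit 14) (.e false (nat_lit 1) (nat_lit 92) (nat_lit 16) (nat_lit 5) (.e false (nat_lit 1) (nat_lit 186) (nat_lit 5) (nat_lit 11) (.e true (nat_lit 1) (nat_lit 44) (nat_lit 40) (nat_lit 0) (.e false (nat_lit 3) (nat_lit 252) (nat_lit 2) (nat_lit 14) dC2b_i2)))))) (.nd (.nd .leaf (nat_lit 44073) (nat_lit 1328) (.p (nat_lit 398) (nat_lit 3) (.p (nat_lit 399) (nat_lit 3) (.p (nat_lit 400) (nat_lit 1) (.p (nat_lit 401) (nat_lit 2) (.n (nat_lit 402) (nat_lit 3) (.p (nat_lit 403) (nat_lit 3) (.n (nat_lit 404) (nat_lit 1) (.p (nat_lit 405) (nat_lit 3) (.n (nat_lit 406) (nat_lit 3) (.n (nat_lit 407) (nat_lit 2) (.p (nat_lit 408) (nat_lit 1) (.n (nat_lit 409) (nat_lit 3) (.p (nat_lit 410) (nat_lit 1) (.n (nat_lit 411) (nat_lit 3) (.p (nat_lit 412) (nat_lit 2) (.p (nat_lit 413) (nat_lit 2) (.p (nat_lit 414) (nat_lit 1) (.n (nat_lit 415) (nat_lit 1) (.p (nat_lit 416) (nat_lit 2) (.p (nat_lit 418) (nat_lit 2) (.n (nat_lit 419) (nat_lit 2) (.n (nat_lit 420) (nat_lit 3) (.p (nat_lit 421) (nat_lit 3) (.p (nat_lit 423) (nat_lit 2) (.p (nat_lit 424) (nat_lit 2) (.n (nat_lit 426) (nat_lit 2) (.n (nat_lit 430) (nat_lit 2) (.n (nat_lit 432) (nat_lit 1) (.n (nat_lit 435) (nat_lit 2) .z))))))))))))))))))))))))))))) (.ct dC2b_c293 (nat_lit 1) (nat_lit 0) (.s false (nat_lit 1) (nat_lit 41) (nat_lit 2) (nat_lit 2) (nat_lit 5) true (nat_lit 5) true (nat_lit 11) true (nat_lit 0) true (nat_lit 14) true (nat_lit 14) (.e false (nat_lit 1) (nat_lit 93) (nat_lit 16) (nat_lit 5) (.e false (nat_lit 1) (nat_lit 187) (nat_lit 5) (nat_lit 11) (.e true (nat_lit 1) (nat_lit 44) (nat_lit 41) (nat_lit 0) (.e false (nat_lit 3) (nat_lit 252) (nat_lit 2) (nat_lit 14) (.e false (nat_lit 2) (nat_lit 253) (nat_lit 2) (nat_lit 14) dC2b_i3))))))) .leaf) (nat_lit 45057) (nat_lit 133) (.n (nat_lit 80) (nat_lit 2) (.p (nat_lit 81) (nat_lit 3) (.n (nat_lit 82) (nat_lit 1) (.n (nat_lit 83) (nat_lit 1) (.p (nat_lit 84) (nat_lit 1) (.p (nat_lit 85) (nat_lit 1) (.p (nat_lit 88) (nat_lit 1) (.n (nat_lit 89) (nat_lit 1) .z)))))))) (.ct dC2b_c275 (nat_lit 1) (nat_lit 5) (.s true (nat_lit 1) (nat_lit 7) (nat_lit 0) (nat_lit 1) (nat_lit 2) true (nat_lit 2) true (nat_lit 4) true (nat_lit 0) true (nat_lit 6) true (nat_lit 5) (.e true (nat_lit 1) (nat_lit 19) (nat_lit 5) (nat_lit 2) (.e true (nat_lit 1) (nat_lit 37) (nat_lit 2) (nat_lit 4) (.e false (nat_lit 1) (nat_lit 11) (nat_lit 7) (nat_lit 0) (.e false (nat_lit 1) (nat_lit 46) (nat_lit 0) (nat_lit 6) (.e true (nat_lit 1) (nat_lit 47) (nat_lit 0) (nat_lit 6) .nil))))))) .leaf)) (nat_lit 45058) (nat_lit 148) (.p (nat_lit 99) (nat_lit 1) .z) .df (.nd (.nd (.nd .leaf (nat_lit 45060) (nat_lit 286) (.n (nat_lit 132) (nat_lit 3) (.p (nat_lit 133) (nat_lit 1) (.n (nat_lit 134) (nat_lit 2) (.n (nat_lit 135) (nat_lit 1) (.p (nat_lit 136) (nat_lit 1) (.p (nat_lit 137) (nat_lit 1) (.n (nat_lit 139) (nat_lit 2) (.p (nat_lit 140) (nat_lit 2) (.p (nat_lit 142) (nat_lit 1) (.n (nat_lit 143) (nat_lit 1) (.n (nat_lit 144) (nat_lit 2) (.n (nat_lit 145) (nat_lit 1) (.p (nat_lit 147) (nat_lit 1) (.n (nat_lit 149) (nat_lit 3) (.p (nat_lit 150) (nat_lit 3) (.p (nat_lit 151) (nat_lit 3) (.p (nat_lit 152) (nat_lit 2) (.p (nat_lit 153) (nat_lit 2) (.n (nat_lit 154) (nat_lit 3) (.p (nat_lit 155) (nat_lit 3) (.n (nat_lit 156) (nat_lit 3) (.n (nat_lit 157) (nat_lit 3) .z)))))))))))))))))))))) (.ct dC2b_c291 (nat_lit 1) (nat_lit 6) (.s false (nat_lit 1) (nat_lit 7) (nat_lit 0) (nat_lit 4) (nat_lit 2) true (nat_lit 5) true (nat_lit 8) true (nat_lit 3) true (nat_lit 10) true (nat_lit 6) (.e false (nat_lit 2) (nat_lit 40) (nat_lit 5) (nat_lit 5) (.e true (nat_lit 2) (nat_lit 41) (nat_lit 5) (nat_lit 5) (.e false (nat_lit 2) (nat_lit 60) (nat_lit 2) (nat_lit 8) (.e false (nat_lit 2) (nat_lit 61) (nat_lit 2) (nat_lit 8) (.e true (nat_lit 1) (nat_lit 62) (nat_lit 2) (nat_lit 8) (.e true (nat_lit 2) (nat_lit 63) (nat_lit 2) (nat_lit 8) (.e false (nat_lit 2) (nat_lit 65) (nat_lit 2) (nat_lit 8) (.e false (nat_lit 1) (nat_lit 67) (nat_lit 2) (nat_lit 8) (.e true (nat_lit 1) (nat_lit 68) (nat_lit 2) (nat_lit 8) (.e true (nat_lit 1) (nat_lit 70) (nat_lit 2) (nat_lit 8) (.e false (nat_lit 2) (nat_lit 71) (nat_lit 2) (nat_lit 8) (.e false (nat_lit 1) (nat_lit 73) (nat_lit 2) (nat_lit 8) (.e true (nat_lit 1) (nat_lit 25) (nat_lit 7) (nat_lit 3) (.e false (nat_lit 1) (nat_lit 96) (nat_lit 0) (nat_lit 10) (.u (nat_lit 2) (.p (nat_lit 0) (nat_lit 1) (.n (nat_lit 1) (nat_lit 1) (.n (nat_lit 3) (nat_lit 1) (.p (nat_lit 6) (nat_lit 1) (.p (nat_lit 9) (nat_lit 1) (.p (nat_lit 11) (nat_lit 1) (.n (nat_lit 12) (nat_lit 1) (.n (nat_lit 18) (nat_lit 1) (.n (nat_lit 23) (nat_lit 1) (.p (nat_lit 24) (nat_lit 1) .z)))))))))) .nil))))))))))))))))) .leaf) (nat_lit 45062) (nat_lit 344) (.p (nat_lit 169) (nat_lit 3) (.p (nat_lit 170) (nat_lit 3) (.n (nat_lit 172) (nat_lit 3) (.n (nat_lit 173) (nat_lit 3) (.p (nat_lit 174) (nat_lit 1) (.n (nat_lit 175) (nat_lit 3) (.n (nat_lit 176) (nat_lit 3) (.n (nat_lit 178) (nat_lit 3) (.n (nat_lit 179) (nat_lit 3) (.n (nat_lit 183) (nat_lit 1) .z)))))))))) (.ct dC2b_c276 (nat_lit 1) (nat_lit 3) (.s false (nat_lit 1) (nat_lit 20) (nat_lit 2) (nat_lit 0) (nat_lit 1) true (nat_lit 3) true (nat_lit 7) false (nat_lit 1) true (nat_lit 6) true (nat_lit 8) (.e false (nat_lit 1) (nat_lit 98) (nat_lit 1) (nat_lit 7) (.e true (nat_lit 1) (nat_lit 100) (nat_lit 1) (nat_lit 7) (.e true (nat_lit 1) (nat_lit 20) (nat_lit 12) (nat_lit 1) (.e true (nat_lit 1) (nat_lit 81) (nat_lit 2) (nat_lit 6) (.e false (nat_lit 1) (nat_lit 82) (nat_lit 2) (nat_lit 6) (.e false (nat_lit 1) (nat_lit 83) (nat_lit 2) (nat_lit 6) (.e false (nat_lit 1) (nat_lit 85) (nat_lit 2) (nat_lit 6) (.e true (nat_lit 1) (nat_lit 88) (nat_lit 2) (nat_lit 6) (.e false (nat_lit 1) (nat_lit 103) (nat_lit 0) (nat_lit 8) (.u (nat_lit 2) (.n (nat_lit 1) (nat_lit 1) (.p (nat_lit 3) (nat_lit 1) (.p (nat_lit 9) (nat_lit 1) (.p (nat_lit 10) (nat_lit 1) .z)))) .nil)))))))))))) .leaf) (nat_lit 45063) (nat_lit 381) (.p (nat_lit 199) (nat_lit 1) .z) .df (.nd (.nd .leaf (nat_lit 45066) (nat_lit 536) (.p (nat_lit 205) (nat_lit 1) (.p (nat_lit 206) (nat_lit 3) (.n (nat_lit 207) (nat_lit 3) (.n (nat_lit 208) (nat_lit 1) (.p (nat_lit 209) (nat_lit 1) (.n (nat_lit 211) (nat_lit 2) (.n (nat_lit 212) (nat_lit 1) (.p (nat_lit 213) (nat_lit 2) (.p (nat_lit 214) (nat_lit 1) (.p (nat_lit 215) (nat_lit 2) (.p (nat_lit 216) (nat_lit 3) (.p (nat_lit 217) (nat_lit 3) (.n (nat_lit 219) (nat_lit 1) (.p (nat_lit 221) (nat_lit 1) (.p (nat_lit 225) (nat_lit 1) (.p (nat_lit 227) (nat_lit 3) (.n (nat_lit 228) (nat_lit 3) (.p (nat_lit 229) (nat_lit 1) (.p (nat_lit 230) (nat_lit 2) (.n (nat_lit 245) (nat_lit 1) (.n (nat_lit 246) (nat_lit 3) (.n (nat_lit 247) (nat_lit 3) (.p (nat_lit 248) (nat_lit 1) (.n (nat_lit 249) (nat_lit 1) (.n (nat_lit 251) (nat_lit 1) .z))))))))))))))))))))))))) (.ct dC2b_c307 (nat_lit 1) (nat_lit 5) (.s false (nat_lit 1) (nat_lit 44) (nat_lit 1) (nat_lit 1) (nat_lit 1) true (nat_lit 10) true (nat_lit 13) false (nat_lit 5) true (nat_lit 13) true (nat_lit 13) (.e true (nat_lit 2) (nat_lit 80) (nat_lit 4) (nat_lit 10) (.e false (nat_lit 3) (nat_lit 81) (nat_lit 4) (nat_lit 10) (.e true (nat_lit 1) (nat_lit 82) (nat_lit 4) (nat_lit 10) (.e true (nat_lit 1) (nat_lit 83) (nat_lit 4) (nat_lit 10) (.e false (nat_lit 1) (nat_lit 84) (nat_lit 4) (nat_lit 10) (.e false (nat_lit 1) (nat_lit 85) (nat_lit 4) (nat_lit 10) dC2b_i4)))))))) .leaf) (nat_lit 45070) (nat_lit 676) (.n (nat_lit 254) (nat_lit 2) (.n (nat_lit 255) (nat_lit 1) (.n (nat_lit 256) (nat_lit 2) (.p (nat_lit 258) (nat_lit 1) (.p (nat_lit 259) (nat_lit 1) (.n (nat_lit 260) (nat_lit 1) (.p (nat_lit 261) (nat_lit 3) (.p (nat_lit 262) (nat_lit 2) (.p (nat_lit 263) (nat_lit 2) (.n (nat_lit 264) (nat_lit 2) (.p (nat_lit 266) (nat_lit 3) (.n (nat_lit 267) (nat_lit 2) (.p (nat_lit 270) (nat_lit 1) (.n (nat_lit 271) (nat_lit 2) (.p (nat_lit 272) (nat_lit 2) (.n (nat_lit 274) (nat_lit 1) (.n (nat_lit 275) (nat_lit 2) (.p (nat_lit 276) (nat_lit 2) (.n (nat_lit 277) (nat_lit 2) (.p (nat_lit 283) (nat_lit 2) (.n (nat_lit 284) (nat_lit 1) (.n (nat_lit 285) (nat_lit 2) .z)))))))))))))))))))))) (.ct dC2b_c292 (nat_lit 1) (nat_lit 3) (.s true (nat_lit 1) (nat_lit 14) (nat_lit 2) (nat_lit 7) (nat_lit 0) true (nat_lit 8) true (nat_lit 13) true (nat_lit 3) true (nat_lit 11) true (nat_lit 6) (.e false (nat_lit 1) (nat_lit 96) (nat_lit 5) (nat_lit 8) (.e true (nat_lit 1) (nat_lit 194) (nat_lit 0) (nat_lit 13) (.e false (nat_lit 2) (nat_lit 132) (nat_lit 2) (nat_lit 11) (.e true (nat_lit 3) (nat_lit 133) (nat_lit 2) (nat_lit 11) (.e true (nat_lit 2) (nat_lit 134) (nat_lit 2) (nat_lit 11) (.e false (nat_lit 3) (nat_lit 135) (nat_lit 2) (nat_lit 11) (.e true (nat_lit 1) (nat_lit 136) (nat_lit 2) (nat_lit 11) dC2b_i5))))))))) .leaf))) (nat_lit 45071) (nat_lit 689) (.n (nat_lit 252) (nat_lit 1) (.n (nat_lit 253) (nat_lit 1) (.n (nat_lit 254) (nat_lit 2) (.n (nat_lit 255) (nat_lit 1) (.p (nat_lit 256) (nat_lit 3) (.n (nat_lit 257) (nat_lit 3) (.n (nat_lit 258) (nat_lit 3) (.p (nat_lit 259) (nat_lit 1) (.n (nat_lit 260) (nat_lit 1) (.n (nat_lit 261) (nat_lit 2) (.p (nat_lit 262) (nat_lit 2) (.n (nat_lit 263) (nat_lit 3) (.n (nat_lit 264) (nat_lit 2) (.n (nat_lit 265) (nat_lit 1) (.n (nat_lit 267) (nat_lit 1) (.n (nat_lit 270) (nat_lit 3) (.n (nat_lit 271) (nat_lit 2) (.n (nat_lit 274) (nat_lit 3) (.p (nat_lit 275) (nat_lit 3) (.p (nat_lit 276) (nat_lit 2) (.p (nat_lit 283) (nat_lit 3) (.n (nat_lit 284) (nat_lit 1) (.p (nat_lit 285) (nat_lit 3) (.p (nat_lit 286) (nat_lit 1) .z)))))))))))))))))))))))) (.ct dC2b_c292 (nat_lit 1) (nat_lit 3) dC2b_i6) (.nd (.nd (.nd (.nd .leaf (nat_lit 45074) (nat_lit 789) (.n (nat_lit 305) (nat_lit 3) (.n (nat_lit 306) (nat_lit 2) (.p (nat_lit 307) (nat_lit 1) (.n (nat_lit 308) (nat_lit 2) (.p (nat_lit 309) (nat_lit 3) (.n (nat_lit 310) (nat_lit 3) (.n (nat_lit 313) (nat_lit 3) (.p (nat_lit 314) (nat_lit 2) (.p (nat_lit 315) (nat_lit 1) (.p (nat_lit 318) (nat_lit 2) (.n (nat_lit 323) (nat_lit 1) .z))))))))))) (.ct dC2b_c277 (nat_lit 1) (nat_lit 1) (.s false (nat_lit 1) (nat_lit 44) (nat_lit 1) (nat_lit 2) (nat_lit 2) true (nat_lit 5) true (nat_lit 8) false (nat_lit 1) true (nat_lit 9) true (nat_lit 8) (.e false (nat_lit 1) (nat_lit 99) (nat_lit 6) (nat_lit 5) (.e false (nat_lit 2) (nat_lit 169) (nat_lit 2) (nat_lit 8) (.e true (nat_lit 1) (nat_lit 170) (nat_lit 2) (nat_lit 8) (.e true (nat_lit 2) (nat_lit 173) (nat_lit 2) (nat_lit 8) (.e true (nat_lit 3) (nat_lit 174) (nat_lit 2) (nat_lit 8) (.e true (nat_lit 1) (nat_lit 177) (nat_lit 2) (nat_lit 8) (.e false (nat_lit 1) (nat_lit 178) (nat_lit 2) (nat_lit 8) (.e true (nat_lit 1) (nat_lit 199) (nat_lit 1) (nat_lit 9) (.e true (nat_lit 1) (nat_lit 175) (nat_lit 2) (nat_lit 8) (.e true (nat_lit 1) (nat_lit 176) (nat_lit 2) (nat_lit 8) (.e false (nat_lit 1) (nat_lit 179) (nat_lit 2) (nat_lit 8) (.e false (nat_lit 1) (nat_lit 181) (nat_lit 2) (nat_lit 8) (.e true (nat_lit 1) (nat_lit 182) (nat_lit 2) (nat_lit 8) (.u (nat_lit 2) (.p (nat_lit 0) (nat_lit 1) (.n (nat_lit 2) (nat_lit 1) (.n (nat_lit 4) (nat_lit 1) (.p (nat_lit 8) (nat_lit 1) (.n (nat_lit 60) (nat_lit 1) (.p (nat_lit 61) (nat_lit 1) (.p (nat_lit 65) (nat_lit 1) .z))))))) .nil)))))))))))))))) .leaf) (nat_lit 45075) (nat_lit 775) (.n (nat_lit 305) (nat_lit 2) (.n (nat_lit 307) (nat_lit 2) (.n (nat_lit 308) (nat_lit 3) (.p (nat_lit 309) (nat_lit 3) (.n (nat_lit 310) (nat_lit 2) (.n (nat_lit 311) (nat_lit 2) (.n (nat_lit 312) (nat_lit 2) (.p (nat_lit 313) (nat_lit 1) (.p (nat_lit 315) (nat_lit 2) (.n (nat_lit 317) (nat_lit 1) (.p (nat_lit 318) (nat_lit 2) (.p (nat_lit 321) (nat_lit 1) (.n (nat_lit 323) (nat_lit 1) .z))))))))))))) (.ct dC2b_c277 (nat_lit 1) (nat_lit 1) (.s false (nat_lit 1) (nat_lit 44) (nat_lit 2) (nat_lit 2) (nat_lit 1) true (nat_lit 5) true (nat_lit 9) false (nat_lit 1) true (nat_lit 8) true (nat_lit 8) (.e false (nat_lit 1) (nat_lit 99) (nat_lit 6) (nat_lit 5) (.e false (nat_lit 1) (nat_lit 197) (nat_lit 1) (nat_lit 9) (.e true (nat_lit 1) (nat_lit 169) (nat_lit 2) (nat_lit 8) (.e false (nat_lit 1) (nat_lit 170) (nat_lit 2) (nat_lit 8) (.e true (nat_lit 3) (nat_lit 172) (nat_lit 2) (nat_lit 8) (.e false (nat_lit 2) (nat_lit 173) (nat_lit 2) (nat_lit 8) (.e true (nat_lit 2) (nat_lit 174) (nat_lit 2) (nat_lit 8) (.e false (nat_lit 3) (nat_lit 175) (nat_lit 2) (nat_lit 8) (.e false (nat_lit 3) (nat_lit 176) (nat_lit 2) (nat_lit 8) (.e true (nat_lit 3) (nat_lit 178) (nat_lit 2) (nat_lit 8) (.e false (nat_lit 3) (nat_lit 179) (nat_lit 2) (nat_lit 8) (.e false (nat_lit 1) (nat_lit 183) (nat_lit 2) (nat_lit 8) (.e false (nat_lit 1) (nat_lit 171) (nat_lit 2) (nat_lit 8) (.e true (nat_lit 1) (nat_lit 177) (nat_lit 2) (nat_lit 8) (.u (nat_lit 2) (.p (nat_lit 6) (nat_lit 1) (.p (nat_lit 7) (nat_lit 1) (.n (nat_lit 61) (nat_lit 1) (.p (nat_lit 63) (nat_lit 1) (.p (nat_lit 69) (nat_lit 1) .z))))) .nil))))))))))))))))) .leaf) (nat_lit 45086) (nat_lit 1071) (.p (nat_lit 335) (nat_lit 1) (.p (nat_lit 336) (nat_lit 1) (.p (nat_lit 337) (nat_lit 2) (.n (nat_lit 338) (nat_lit 3) (.p (nat_lit 339) (nat_lit 1) (.p (nat_lit 340) (nat_lit 3) (.p (nat_lit 341) (nat_lit 3) (.n (nat_lit 343) (nat_lit 1) (.n (nat_lit 344) (nat_lit 3) (.p (nat_lit 346) (nat_lit 1) (.p (nat_lit 347) (nat_lit 1) (.p (nat_lit 349) (nat_lit 3) (.p (nat_lit 350) (nat_lit 2) (.n (nat_lit 351) (nat_lit 3) (.p (nat_lit 352) (nat_lit 2) (.n (nat_lit 353) (nat_lit 3) (.n (nat_lit 354) (nat_lit 3) (.p (nat_lit 355) (nat_lit 2) (.p (nat_lit 356) (nat_lit 1) (.n (nat_lit 357) (nat_lit 1) (.n (nat_lit 358) (nat_lit 3) (.n (nat_lit 359) (nat_lit 3) (.n (nat_lit 360) (nat_lit 3) (.n (nat_lit 361) (nat_lit 1) (.n (nat_lit 362) (nat_lit 1) (.p (nat_lit 364) (nat_lit 1) (.p (nat_lit 366) (nat_lit 2) (.p (nat_lit 367) (nat_lit 3) (.p (nat_lit 368) (nat_lit 1) (.n (nat_lit 369) (nat_lit 2) (.n (nat_lit 370) (nat_lit 1) (.n (nat_lit 371) (nat_lit 2) (.p (nat_lit 372) (nat_lit 2) (.n (nat_lit 373) (nat_lit 1) (.p (nat_lit 374) (nat_lit 2) (.n (nat_lit 380) (nat_lit 2) (.p (nat_lit 381) (nat_lit 1) (.p (nat_lit 382) (nat_lit 3) (.p (nat_lit 383) (nat_lit 2) .z))))))))))))))))))))))))))))))))))))))) (.ct dC2b_c308 (nat_lit 1) (nat_lit 1) (.s false (nat_lit 1) (nat_lit 20) (nat_lit 2) (nat_lit 0) (nat_lit 10) true (nat_lit 1) true (nat_lit 9) true (nat_lit 4) true (nat_lit 16) true (nat_lit 18) (.e false (nat_lit 1) (nat_lit 98) (nat_lit 10) (nat_lit 9) (.e true (nat_lit 1) (nat_lit 100) (nat_lit 10) (nat_lit 9) (.e false (nat_lit 1) (nat_lit 49) (nat_lit 20) (nat_lit 4) (.e true (nat_lit 1) (nat_lit 50) (nat_lit 20) (nat_lit 4) (.e true (nat_lit 2) (nat_lit 52) (nat_lit 20) (nat_lit 4) (.e false (nat_lit 1) (nat_lit 55) (nat_lit 20) (nat_lit 4) (.e true (nat_lit 1) (nat_lit 57) (nat_lit 20) (nat_lit 4) (.e false (nat_lit 1) (nat_lit 59) (nat_lit 20) (nat_lit 4) (.e false (nat_lit 1) (nat_lit 229) (nat_lit 2) (nat_lit 16) (.e true (nat_lit 1) (nat_lit 247) (nat_lit 2) (nat_lit 16) (.e true (nat_lit 1) (nat_lit 294) (nat_lit 0) (nat_lit 18) (.e false (nat_lit 1) (nat_lit 298) (nat_lit 0) (nat_lit 18) (.u (nat_lit 2) (.n (nat_lit 0) (nat_lit 1) (.p (nat_lit 3) (nat_lit 2) (.p (nat_lit 6) (nat_lit 1) (.n (nat_lit 7) (nat_lit 1) (.n (nat_lit 11) (nat_lit 2) (.n (nat_lit 12) (nat_lit 1) (.n (nat_lit 14) (nat_lit 2) (.p (nat_lit 15) (nat_lit 1) (.p (nat_lit 17) (nat_lit 1) (.p (nat_lit 18) (nat_lit 3) (.p (nat_lit 19) (nat_lit 1) (.n (nat_lit 21) (nat_lit 1) (.p (nat_lit 22) (nat_lit 1) (.p (nat_lit 23) (nat_lit 2) (.p (nat_lit 24) (nat_lit 2) (.n (nat_lit 27) (nat_lit 1) (.p (nat_lit 29) (nat_lit 2) (.p (nat_lit 32) (nat_lit 1) (.p (nat_lit 36) (nat_lit 1) (.p (nat_lit 39) (nat_lit 1) .z)))))))))))))))))))) .nil))))))))))))))) (.nd (.nd .leaf (nat_lit 45088) (nat_lit 1157) (.p (nat_lit 336) (nat_lit 2) (.n (nat_lit 337) (nat_lit 3) (.n (nat_lit 338) (nat_lit 3) (.p (nat_lit 339) (nat_lit 1) (.n (nat_lit 340) (nat_lit 2) (.p (nat_lit 342) (nat_lit 1) (.n (nat_lit 343) (nat_lit 2) (.n (nat_lit 344) (nat_lit 2) (.n (nat_lit 345) (nat_lit 3) (.p (nat_lit 346) (nat_lit 3) (.p (nat_lit 347) (nat_lit 2) (.p (nat_lit 349) (nat_lit 2) (.p (nat_lit 350) (nat_lit 3) (.p (nat_lit 351) (nat_lit 2) (.p (nat_lit 352) (nat_lit 1) (.n (nat_lit 353) (nat_lit 3) (.n (nat_lit 354) (nat_lit 1) (.p (nat_lit 356) (nat_lit 1) (.n (nat_lit 357) (nat_lit 1) (.n (nat_lit 358) (nat_lit 3) (.p (nat_lit 359) (nat_lit 1) (.p (nat_lit 360) (nat_lit 2) (.n (nat_lit 361) (nat_lit 3) (.p (nat_lit 362) (nat_lit 1) (.n (nat_lit 363) (nat_lit 2) (.n (nat_lit 364) (nat_lit 1) (.p (nat_lit 366) (nat_lit 3) (.n (nat_lit 367) (nat_lit 3) (.n (nat_lit 368) (nat_lit 3) (.n (nat_lit 369) (nat_lit 2) (.p (nat_lit 370) (nat_lit 2) (.n (nat_lit 371) (nat_lit 2) (.n (nat_lit 372) (nat_lit 2) (.p (nat_lit 373) (nat_lit 3) (.p (nat_lit 374) (nat_lit 2) (.n (nat_lit 380) (nat_lit 3) (.n (nat_lit 381) (nat_lit 2) .z))))))))))))))))))))))))))))))))))))) (.ct dC2b_c308 (nat_lit 1) (nat_lit 1) (.s true (nat_lit 1) (nat_lit 44) (nat_lit 1) (nat_lit 6) (nat_lit 1) true (nat_lit 14) true (nat_lit 17) false (nat_lit 1) true (nat_lit 17) true (nat_lit 12) (.e false (nat_lit 3) (nat_lit 169) (nat_lit 4) (nat_lit 14) (.e false (nat_lit 3) (nat_lit 170) (nat_lit 4) (nat_lit 14) (.e true (nat_lit 3) (nat_lit 172) (nat_lit 4) (nat_lit 14) (.e true (nat_lit 3) (nat_lit 173) (nat_lit 4) (nat_lit 14) (.e false (nat_lit 1) (nat_lit 174) (nat_lit 4) (nat_lit 14) (.e true (nat_lit 3) (nat_lit 175) (nat_lit 4) (nat_lit 14) (.e true (nat_lit 3) (nat_lit 176) (nat_lit 4) (nat_lit 14) (.e true (nat_lit 3) (nat_lit 178) (nat_lit 4) (nat_lit 14) (.e true (nat_lit 3) (nat_lit 179) (nat_lit 4) (nat_lit 14) (.e true (nat_lit 1) (nat_lit 183) (nat_lit 4) (nat_lit 14) (.e true (nat_lit 2) (nat_lit 253) (nat_lit 1) (nat_lit 17) (.e true (nat_lit 2) (nat_lit 254) (nat_lit 1) (nat_lit 17) (.e false (nat_lit 1) (nat_lit 256) (nat_lit 1) (nat_lit 17) (.e true (nat_lit 1) (nat_lit 257) (nat_lit 1) (nat_lit 17) (.e false (nat_lit 2) (nat_lit 259) (nat_lit 1) (nat_lit 17) (.e true (nat_lit 2) (nat_lit 260) (nat_lit 1) (nat_lit 17) (.e false (nat_lit 1) (nat_lit 261) (nat_lit 1) (nat_lit 17) (.e true (nat_lit 3) (nat_lit 264) (nat_lit 1) (nat_lit 17) (.e false (nat_lit 3) (nat_lit 267) (nat_lit 1) (nat_lit 17) (.e true (nat_lit 3) (nat_lit 269) (nat_lit 1) (nat_lit 17) (.e false (nat_lit 3) (nat_lit 272) (nat_lit 1) (nat_lit 17) (.e false (nat_lit 2) (nat_lit 274) (nat_lit 1) (nat_lit 17) dC2b_i7)))))))))))))))))))))))) .leaf) (nat_lit 45095) (nat_lit 1302) (.n (nat_lit 397) (nat_lit 2) (.p (nat_lit 398) (nat_lit 1) (.p (nat_lit 399) (nat_lit 3) (.p (nat_lit 400) (nat_lit 1) (.n (nat_lit 401) (nat_lit 1) (.n (nat_lit 403) (nat_lit 1) (.p (nat_lit 404) (nat_lit 2) (.n (nat_lit 405) (nat_lit 3) (.p (nat_lit 406) (nat_lit 1) (.n (nat_lit 407) (nat_lit 1) (.n (nat_lit 408) (nat_lit 2) (.n (nat_lit 410) (nat_lit 3) (.n (nat_lit 411) (nat_lit 3) (.n (nat_lit 412) (nat_lit 3) (.n (nat_lit 413) (nat_lit 3) (.p (nat_lit 414) (nat_lit 1) (.n (nat_lit 415) (nat_lit 3) (.p (nat_lit 416) (nat_lit 1) (.n (nat_lit 418) (nat_lit 2) (.p (nat_lit 420) (nat_lit 3) (.n (nat_lit 421) (nat_lit 2) (.n (nat_lit 431) (nat_lit 3) (.n (nat_lit 432) (nat_lit 1) (.p (nat_lit 435) (nat_lit 1) .z)))))))))))))))))))))))) (.ct dC2b_c293 (nat_lit 1) (nat_lit 0) (.s false (nat_lit 1) (nat_lit 44) (nat_lit 4) (nat_lit 2) (nat_lit 2) true (nat_lit 6) true (nat_lit 14) false (nat_lit 0) true (nat_lit 12) true (nat_lit 14) dC2b_i8)) .leaf)) (nat_lit 45096) (nat_lit 1315) (.p (nat_lit 397) (nat_lit 2) (.n (nat_lit 398) (nat_lit 2) (.n (nat_lit 399) (nat_lit 2) (.p (nat_lit 400) (nat_lit 3) (.p (nat_lit 401) (nat_lit 3) (.p (nat_lit 402) (nat_lit 3) (.n (nat_lit 403) (nat_lit 3) (.p (nat_lit 404) (nat_lit 3) (.p (nat_lit 405) (nat_lit 3) (.n (nat_lit 406) (nat_lit 3) (.p (nat_lit 407) (nat_lit 3) (.n (nat_lit 408) (nat_lit 3) (.p (nat_lit 410) (nat_lit 1) (.n (nat_lit 411) (nat_lit 1) (.p (nat_lit 412) (nat_lit 3) (.p (nat_lit 413) (nat_lit 3) (.n (nat_lit 414) (nat_lit 2) (.n (nat_lit 415) (nat_lit 2) (.n (nat_lit 416) (nat_lit 1) (.n (nat_lit 418) (nat_lit 2) (.n (nat_lit 420) (nat_lit 3) (.n (nat_lit 421) (nat_lit 2) .z)))))))))))))))))))))) (.ct dC2b_c293 (nat_lit 1) (nat_lit 0) (.s true (nat_lit 1) (nat_lit 40) (nat_lit 7) (nat_lit 2) (nat_lit 0) true (nat_lit 5) true (nat_lit 16) true (nat_lit 0) true (nat_lit 9) true (nat_lit 14) (.e false (nat_lit 1) (nat_lit 92) (nat_lit 17) (nat_lit 5) (.e true (nat_lit 1) (nat_lit 324) (nat_lit 0) (nat_lit 16) (.e true (nat_lit 3) (nat_lit 325) (nat_lit 0) (nat_lit 16) (.e false (nat_lit 1) (nat_lit 327) (nat_lit 0) (nat_lit 16) (.e true (nat_lit 3) (nat_lit 328) (nat_lit 0) (nat_lit 16) (.e false (nat_lit 2) (nat_lit 329) (nat_lit 0) (nat_lit 16) (.e true (nat_lit 3) (nat_lit 330) (nat_lit 0) (nat_lit 16) (.e false (nat_lit 2) (nat_lit 331) (nat_lit 0) (nat_lit 16) (.e false (nat_lit 1) (nat_lit 156) (nat_lit 7) (nat_lit 9) (.e false (nat_lit 2) (nat_lit 252) (nat_lit 2) (nat_lit 14) dC2b_i9)))))))))))) (.nd (.nd (.nd .leaf (nat_lit 45097) (nat_lit 1317) (.n (nat_lit 397) (nat_lit 1) (.p (nat_lit 398) (nat_lit 2) (.n (nat_lit 399) (nat_lit 2) (.p (nat_lit 400) (nat_lit 2) (.n (nat_lit 401) (nat_lit 1) (.p (nat_lit 402) (nat_lit 2) (.p (nat_lit 403) (nat_lit 2) (.p (nat_lit 404) (nat_lit 2) (.p (nat_lit 405) (nat_lit 3) (.p (nat_lit 406) (nat_lit 2) (.p (nat_lit 407) (nat_lit 3) (.p (nat_lit 408) (nat_lit 3) (.n (nat_lit 409) (nat_lit 3) (.p (nat_lit 410) (nat_lit 1) (.p (nat_lit 411) (nat_lit 3) (.p (nat_lit 412) (nat_lit 3) (.p (nat_lit 413) (nat_lit 3) (.p (nat_lit 414) (nat_lit 1) (.p (nat_lit 415) (nat_lit 2) (.n (nat_lit 416) (nat_lit 1) (.n (nat_lit 418) (nat_lit 2) (.p (nat_lit 420) (nat_lit 2) (.p (nat_lit 421) (nat_lit 3) (.p (nat_lit 431) (nat_lit 3) (.p (nat_lit 432) (nat_lit 1) (.n (nat_lit 435) (nat_lit 1) .z)))))))))))))))))))))))))) (.ct dC2b_c293 (nat_lit 1) (nat_lit 0) (.s true (nat_lit 1) (nat_lit 44) (nat_lit 1) (nat_lit 7) (nat_lit 1) true (nat_lit 12) true (nat_lit 15) false (nat_lit 0) true (nat_lit 15) true (nat_lit 9) (.e false (nat_lit 1) (nat_lit 199) (nat_lit 4) (nat_lit 12) (.e true (nat_lit 2) (nat_lit 305) (nat_lit 1) (nat_lit 15) (.e false (nat_lit 3) (nat_lit 306) (nat_lit 1) (nat_lit 15) dC2b_i10))))) .leaf) (nat_lit 46080) (nat_lit 122) (.p (nat_lit 87) (nat_lit 1) .z) .df .leaf) (nat_lit 46081) (nat_lit 138) (.p (nat_lit 94) (nat_lit 1) .z) .df (.nd .leaf (nat_lit 46082) (nat_lit 153) (.p (nat_lit 101) (nat_lit 1) .z) .df .leaf)))) (nat_lit 46083) (nat_lit 259) (.n (nat_lit 132) (nat_lit 1) (.n (nat_lit 133) (nat_lit 2) (.p (nat_lit 135) (nat_lit 2) (.n (nat_lit 137) (nat_lit 2) (.p (nat_lit 144) (nat_lit 1) (.n (nat_lit 145) (nat_lit 1) (.n (nat_lit 146) (nat_lit 1) (.p (nat_lit 152) (nat_lit 1) (.p (nat_lit 154) (nat_lit 1) (.n (nat_lit 157) (nat_lit 1) .z)))))))))) (.ct dC2b_c291 (nat_lit 1) (nat_lit 7) (.s false (nat_lit 1) (nat_lit 6) (nat_lit 2) (nat_lit 3) (nat_lit 2) true (nat_lit 3) true (nat_lit 8) true (nat_lit 4) true (nat_lit 8) true (nat_lit 7) (.e true (nat_lit 1) (nat_lit 25) (nat_lit 7) (nat_lit 3) (.e true (nat_lit 1) (nat_lit 26) (nat_lit 7) (nat_lit 3) (.e false (nat_lit 1) (nat_lit 27) (nat_lit 7) (nat_lit 3) (.e true (nat_lit 1) (nat_lit 29) (nat_lit 7) (nat_lit 3) (.e true (nat_lit 1) (nat_lit 61) (nat_lit 2) (nat_lit 8) (.e false (nat_lit 1) (nat_lit 63) (nat_lit 2) (nat_lit 8) (.e true (nat_lit 1) (nat_lit 65) (nat_lit 2) (nat_lit 8) (.e true (nat_lit 1) (nat_lit 66) (nat_lit 2) (nat_lit 8) (.e false (nat_lit 1) (nat_lit 72) (nat_lit 2) (nat_lit 8) (.e false (nat_lit 1) (nat_lit 33) (nat_lit 6) (nat_lit 4) (.e false (nat_lit 1) (nat_lit 73) (nat_lit 2) (nat_lit 8) .nil))))))))))))) (.nd (.nd (.nd (.nd (.nd .leaf (nat_lit 46084) (nat_lit 315) (.n (nat_lit 159) (nat_lit 2) (.n (nat_lit 160) (nat_lit 2) (.p (nat_lit 161) (nat_lit 2) (.p (nat_lit 162) (nat_lit 3) (.n (nat_lit 163) (nat_lit 1) (.p (nat_lit 164) (nat_lit 1) (.n (nat_lit 165) (nat_lit 2) (.p (nat_lit 166) (nat_lit 1) (.p (nat_lit 168) (nat_lit 1) .z))))))))) (.ct dC2b_c51 (nat_lit 1) (nat_lit 4) (.s true (nat_lit 1) (nat_lit 6) (nat_lit 2) (nat_lit 2) (nat_lit 4) true (nat_lit 0) true (nat_lit 4) true (nat_lit 3) true (nat_lit 5) true (nat_lit 5) (.e false (nat_lit 1) (nat_lit 18) (nat_lit 14) (nat_lit 0) (.e true (nat_lit 2) (nat_lit 40) (nat_lit 6) (nat_lit 3) (.e false (nat_lit 2) (nat_lit 41) (nat_lit 6) (nat_lit 3) (.e false (nat_lit 3) (nat_lit 74) (nat_lit 2) (nat_lit 5) (.e true (nat_lit 3) (nat_lit 76) (nat_lit 2) (nat_lit 5) (.e true (nat_lit 3) (nat_lit 77) (nat_lit 2) (nat_lit 5) (.e false (nat_lit 3) (nat_lit 78) (nat_lit 2) (nat_lit 5) (.e false (nat_lit 3) (nat_lit 79) (nat_lit 2) (nat_lit 5) (.u (nat_lit 2) (.n (nat_lit 2) (nat_lit 1) (.p (nat_lit 4) (nat_lit 1) .z)) .nil))))))))))) .leaf) (nat_lit 46085) (nat_lit 346) (.n (nat_lit 169) (nat_lit 2) (.p (nat_lit 170) (nat_lit 1) (.n (nat_lit 171) (nat_lit 1) (.n (nat_lit 172) (nat_lit 3) (.p (nat_lit 173) (nat_lit 2) (.n (nat_lit 174) (nat_lit 2) (.n (nat_lit 175) (nat_lit 3) (.n (nat_lit 176) (nat_lit 3) (.n (nat_lit 178) (nat_lit 3) (.n (nat_lit 179) (nat_lit 3) (.p (nat_lit 184) (nat_lit 1) .z))))))))))) (.ct dC2b_c276 (nat_lit 1) (nat_lit 4) (.s true (nat_lit 1) (nat_lit 6) (nat_lit 2) (nat_lit 2) (nat_lit 5) true (nat_lit 0) true (nat_lit 4) true (nat_lit 3) true (nat_lit 6) true (nat_lit 6) (.e true (nat_lit 1) (nat_lit 18) (nat_lit 16) (nat_lit 0) (.e false (nat_lit 1) (nat_lit 43) (nat_lit 6) (nat_lit 3) (.e false (nat_lit 1) (nat_lit 44) (nat_lit 6) (nat_lit 3) (.e false (nat_lit 1) (nat_lit 85) (nat_lit 2) (nat_lit 6) (.e false (nat_lit 1) (nat_lit 87) (nat_lit 2) (nat_lit 6) (.e true (nat_lit 1) (nat_lit 90) (nat_lit 2) (nat_lit 6) (.u (nat_lit 2) (.p (nat_lit 5) (nat_lit 1) .z) .nil))))))))) .leaf) (nat_lit 46086) (nat_lit 370) (.p (nat_lit 185) (nat_lit 2) (.p (nat_lit 186) (nat_lit 2) (.n (nat_lit 187) (nat_lit 1) (.p (nat_lit 188) (nat_lit 3) (.p (nat_lit 189) (nat_lit 1) (.n (nat_lit 190) (nat_lit 3) (.n (nat_lit 191) (nat_lit 1) (.n (nat_lit 192) (nat_lit 1) (.p (nat_lit 193) (nat_lit 2) (.p (nat_lit 194) (nat_lit 1) .z)))))))))) (.ct dC2b_c36 (nat_lit 1) (nat_lit 3) (.s true (nat_lit 1) (nat_lit 18) (nat_lit 2) (nat_lit 2) (nat_lit 1) true (nat_lit 3) true (nat_lit 6) true (nat_lit 0) true (nat_lit 5) true (nat_lit 5) (.e true (nat_lit 1) (nat_lit 101) (nat_lit 1) (nat_lit 6) (.e false (nat_lit 1) (nat_lit 19) (nat_lit 18) (nat_lit 0) (.e true (nat_lit 1) (nat_lit 91) (nat_lit 2) (nat_lit 5) (.e false (nat_lit 2) (nat_lit 92) (nat_lit 2) (nat_lit 5) (.e false (nat_lit 2) (nat_lit 93) (nat_lit 2) (nat_lit 5) (.e true (nat_lit 1) (nat_lit 94) (nat_lit 2) (nat_lit 5) (.e true (nat_lit 1) (nat_lit 95) (nat_lit 2) (nat_lit 5) (.e false (nat_lit 1) (nat_lit 96) (nat_lit 2) (nat_lit 5) (.u (nat_lit 2) (.n (nat_lit 3) (nat_lit 1) (.p (nat_lit 5) (nat_lit 1) .z)) .nil))))))))))) (.nd (.nd .leaf (nat_lit 46087) (nat_lit 398) (.n (nat_lit 201) (nat_lit 1) (.p (nat_lit 202) (nat_lit 2) (.n (nat_lit 203) (nat_lit 1) (.p (nat_lit 204) (nat_lit 1) .z)))) (.ct dC2b_c21 (nat_lit 1) (nat_lit 1) (.s true (nat_lit 1) (nat_lit 7) (nat_lit 6) (nat_lit 2) (nat_lit 2) true (nat_lit 0) true (nat_lit 3) true (nat_lit 1) true (nat_lit 2) true (nat_lit 3) (.e false (nat_lit 1) (nat_lit 20) (nat_lit 18) (nat_lit 0) (.e false (nat_lit 1) (nat_lit 104) (nat_lit 2) (nat_lit 3) .nil)))) .leaf) (nat_lit 46088) (nat_lit 453) (.n (nat_lit 215) (nat_lit 1) (.p (nat_lit 216) (nat_lit 1) (.p (nat_lit 227) (nat_lit 1) (.n (nat_lit 231) (nat_lit 1) (.p (nat_lit 242) (nat_lit 1) (.p (nat_lit 248) (nat_lit 1) (.n (nat_lit 251) (nat_lit 1) .z))))))) (.ct dC2b_c307 (nat_lit 1) (nat_lit 6) (.s false (nat_lit 1) (nat_lit 8) (nat_lit 2) (nat_lit 6) (nat_lit 2) true (nat_lit 7) true (nat_lit 12) true (nat_lit 6) true (nat_lit 12) true (nat_lit 8) (.e true (nat_lit 1) (nat_lit 59) (nat_lit 7) (nat_lit 7) (.e true (nat_lit 1) (nat_lit 106) (nat_lit 2) (nat_lit 12) (.e false (nat_lit 3) (nat_lit 109) (nat_lit 2) (nat_lit 12) (.e true (nat_lit 2) (nat_lit 116) (nat_lit 2) (nat_lit 12) (.e true (nat_lit 2) (nat_lit 117) (nat_lit 2) (nat_lit 12) (.e false (nat_lit 1) (nat_lit 126) (nat_lit 2) (nat_lit 12) (.e false (nat_lit 2) (nat_lit 128) (nat_lit 2) (nat_lit 12) (.e false (nat_lit 1) (nat_lit 60) (nat_lit 6) (nat_lit 8) .nil)))))))))) .leaf)) (nat_lit 46089) (nat_lit 551) (.p (nat_lit 205) (nat_lit 2) (.n (nat_lit 206) (nat_lit 2) (.n (nat_lit 207) (nat_lit 1) (.p (nat_lit 208) (nat_lit 1) (.n (nat_lit 209) (nat_lit 2) (.p (nat_lit 211) (nat_lit 1) (.n (nat_lit 212) (nat_lit 1) (.n (nat_lit 213) (nat_lit 1) (.p (nat_lit 214) (nat_lit 1) (.p (nat_lit 215) (nat_lit 1) (.p (nat_lit 216) (nat_lit 3) (.p (nat_lit 217) (nat_lit 3) (.p (nat_lit 227) (nat_lit 1) (.n (nat_lit 228) (nat_lit 3) (.n (nat_lit 232) (nat_lit 1) (.p (nat_lit 242) (nat_lit 3) (.p (nat_lit 243) (nat_lit 3) (.p (nat_lit 249) (nat_lit 1) (.n (nat_lit 251) (nat_lit 2) .z))))))))))))))))))) (.ct dC2b_c307 (nat_lit 1) (nat_lit 6) (.s false (nat_lit 1) (nat_lit 9) (nat_lit 2) (nat_lit 6) (nat_lit 2) true (nat_lit 7) true (nat_lit 12) true (nat_lit 6) true (nat_lit 12) true (nat_lit 8) (.e true (nat_lit 1) (nat_lit 50) (nat_lit 7) (nat_lit 7) (.e true (nat_lit 1) (nat_lit 51) (nat_lit 7) (nat_lit 7) (.e true (nat_lit 1) (nat_lit 52) (nat_lit 7) (nat_lit 7) (.e true (nat_lit 1) (nat_lit 53) (nat_lit 7) (nat_lit 7) (.e false (nat_lit 1) (nat_lit 55) (nat_lit 7) (nat_lit 7) (.e true (nat_lit 1) (nat_lit 56) (nat_lit 7) (nat_lit 7) (.e true (nat_lit 1) (nat_lit 57) (nat_lit 7) (nat_lit 7) (.e false (nat_lit 1) (nat_lit 58) (nat_lit 7) (nat_lit 7) (.e false (nat_lit 1) (nat_lit 59) (nat_lit 7) (nat_lit 7) (.e false (nat_lit 1) (nat_lit 131) (nat_lit 2) (nat_lit 12) (.e true (nat_lit 1) (nat_lit 107) (nat_lit 2) (nat_lit 12) (.e true (nat_lit 1) (nat_lit 108) (nat_lit 2) (nat_lit 12) (.e true (nat_lit 1) (nat_lit 109) (nat_lit 2) (nat_lit 12) (.e false (nat_lit 1) (nat_lit 112) (nat_lit 2) (nat_lit 12) (.e true (nat_lit 1) (nat_lit 113) (nat_lit 2) (nat_lit 12) (.e true (nat_lit 1) (nat_lit 114) (nat_lit 2) (nat_lit 12) (.e false (nat_lit 1) (nat_lit 115) (nat_lit 2) (nat_lit 12) (.e false (nat_lit 1) (nat_lit 116) (nat_lit 2) (nat_lit 12) (.e true (nat_lit 1) (nat_lit 118) (nat_lit 2) (nat_lit 12) (.e false (nat_lit 1) (nat_lit 129) (nat_lit 2) (nat_lit 12) (.e false (nat_lit 1) (nat_lit 61) (nat_lit 6) (nat_lit 8) (.u (nat_lit 2) (.n (nat_lit 2) (nat_lit 1) (.n (nat_lit 3) (nat_lit 1) (.p (nat_lit 4) (nat_lit 1) (.p (nat_lit 8) (nat_lit 1) (.p (nat_lit 23) (nat_lit 1) (.p (nat_lit 46) (nat_lit 1) .z)))))) .nil)))))))))))))))))))))))) (.nd (.nd (.nd .leaf (nat_lit 46091) (nat_lit 614) (.p (nat_lit 252) (nat_lit 1) (.p (nat_lit 253) (nat_lit 1) (.p (nat_lit 254) (nat_lit 1) (.n (nat_lit 255) (nat_lit 1) (.p (nat_lit 257) (nat_lit 1) (.n (nat_lit 258) (nat_lit 2) (.n (nat_lit 264) (nat_lit 1) (.p (nat_lit 265) (nat_lit 3) (.p (nat_lit 266) (nat_lit 1) (.n (nat_lit 269) (nat_lit 3) (.n (nat_lit 272) (nat_lit 1) (.p (nat_lit 277) (nat_lit 1) (.p (nat_lit 287) (nat_lit 1) .z))))))))))))) (.ct dC2b_c292 (nat_lit 1) (nat_lit 4) (.s false (nat_lit 1) (nat_lit 11) (nat_lit 2) (nat_lit 6) (nat_lit 2) true (nat_lit 6) true (nat_lit 11) true (nat_lit 4) true (nat_lit 11) true (nat_lit 7) (.e true (nat_lit 1) (nat_lit 73) (nat_lit 7) (nat_lit 6) (.e true (nat_lit 1) (nat_lit 134) (nat_lit 2) (nat_lit 11) (.e false (nat_lit 3) (nat_lit 138) (nat_lit 2) (nat_lit 11) (.e true (nat_lit 2) (nat_lit 145) (nat_lit 2) (nat_lit 11) (.e true (nat_lit 2) (nat_lit 146) (nat_lit 2) (nat_lit 11) (.e false (nat_lit 1) (nat_lit 149) (nat_lit 2) (nat_lit 11) (.e false (nat_lit 2) (nat_lit 154) (nat_lit 2) (nat_lit 11) (.e false (nat_lit 1) (nat_lit 80) (nat_lit 6) (nat_lit 7) (.u (nat_lit 2) (.p (nat_lit 6) (nat_lit 1) (.n (nat_lit 13) (nat_lit 1) (.p (nat_lit 17) (nat_lit 1) .z))) .nil))))))))))) .leaf) (nat_lit 46092) (nat_lit 652) (.p (nat_lit 253) (nat_lit 1) (.n (nat_lit 254) (nat_lit 1) (.p (nat_lit 255) (nat_lit 2) (.p (nat_lit 256) (nat_lit 1) (.n (nat_lit 257) (nat_lit 3) (.n (nat_lit 259) (nat_lit 3) (.p (nat_lit 260) (nat_lit 2) (.n (nat_lit 262) (nat_lit 2) (.n (nat_lit 263) (nat_lit 1) (.p (nat_lit 265) (nat_lit 2) (.p (nat_lit 267) (nat_lit 2) (.p (nat_lit 269) (nat_lit 2) (.n (nat_lit 270) (nat_lit 1) (.n (nat_lit 271) (nat_lit 3) (.n (nat_lit 272) (nat_lit 2) (.n (nat_lit 273) (nat_lit 3) (.n (nat_lit 274) (nat_lit 3) (.p (nat_lit 275) (nat_lit 3) (.p (nat_lit 276) (nat_lit 3) (.p (nat_lit 277) (nat_lit 2) (.p (nat_lit 288) (nat_lit 1) .z))))))))))))))))))))) (.ct dC2b_c292 (nat_lit 1) (nat_lit 4) (.s true (nat_lit 1) (nat_lit 12) (nat_lit 6) (nat_lit 2) (nat_lit 2) true (nat_lit 1) true (nat_lit 11) true (nat_lit 4) true (nat_lit 7) true (nat_lit 11) (.e false (nat_lit 1) (nat_lit 34) (nat_lit 18) (nat_lit 1) (.e false (nat_lit 1) (nat_lit 135) (nat_lit 2) (nat_lit 11) (.e false (nat_lit 1) (nat_lit 89) (nat_lit 6) (nat_lit 7) (.e true (nat_lit 2) (nat_lit 139) (nat_lit 2) (nat_lit 11) (.e false (nat_lit 1) (nat_lit 147) (nat_lit 2) (nat_lit 11) (.e true (nat_lit 1) (nat_lit 150) (nat_lit 2) (nat_lit 11) (.e true (nat_lit 1) (nat_lit 155) (nat_lit 2) (nat_lit 11) (.u (nat_lit 2) (.p (nat_lit 2) (nat_lit 1) (.n (nat_lit 8) (nat_lit 1) (.p (nat_lit 11) (nat_lit 1) (.n (nat_lit 13) (nat_lit 1) (.p (nat_lit 22) (nat_lit 1) (.n (nat_lit 23) (nat_lit 1) .z)))))) .nil)))))))))) .leaf) (nat_lit 46093) (nat_lit 656) (.n (nat_lit 252) (nat_lit 1) (.p (nat_lit 253) (nat_lit 3) (.p (nat_lit 254) (nat_lit 2) (.p (nat_lit 255) (nat_lit 2) (.p (nat_lit 256) (nat_lit 2) (.p (nat_lit 258) (nat_lit 1) (.n (nat_lit 259) (nat_lit 3) (.p (nat_lit 260) (nat_lit 2) (.p (nat_lit 261) (nat_lit 2) (.p (nat_lit 262) (nat_lit 2) (.p (nat_lit 263) (nat_lit 3) (.n (nat_lit 264) (nat_lit 1) (.n (nat_lit 265) (nat_lit 3) (.p (nat_lit 266) (nat_lit 2) (.p (nat_lit 267) (nat_lit 3) (.p (nat_lit 269) (nat_lit 1) (.p (nat_lit 270) (nat_lit 2) (.p (nat_lit 271) (nat_lit 3) (.p (nat_lit 273) (nat_lit 3) (.n (nat_lit 274) (nat_lit 2) (.p (nat_lit 275) (nat_lit 2) (.n (nat_lit 276) (nat_lit 3) (.n (nat_lit 277) (nat_lit 2) (.p (nat_lit 278) (nat_lit 1) (.n (nat_lit 283) (nat_lit 3) (.p (nat_lit 284) (nat_lit 1) (.p (nat_lit 285) (nat_lit 3) (.n (nat_lit 286) (nat_lit 1) (.p (nat_lit 288) (nat_lit 1) .z))))))))))))))))))))))))))))) (.ct dC2b_c292 (nat_lit 1) (nat_lit 4) (.s true (nat_lit 1) (nat_lit 13) (nat_lit 6) (nat_lit 2) (nat_lit 2) true (nat_lit 1) true (nat_lit 11) true (nat_lit 4) true (nat_lit 7) true (nat_lit 11) dC2b_i11)) (.nd (.nd .leaf (nat_lit 46094) (nat_lit 729) (.p (nat_lit 289) (nat_lit 2) (.n (nat_lit 290) (nat_lit 2) (.n (nat_lit 291) (nat_lit 3) (.p (nat_lit 292) (nat_lit 1) (.n (nat_lit 293) (nat_lit 3) (.p (nat_lit 294) (nat_lit 2) (.p (nat_lit 295) (nat_lit 2) (.n (nat_lit 296) (nat_lit 3) (.n (nat_lit 299) (nat_lit 1) (.n (nat_lit 300) (nat_lit 2) (.p (nat_lit 301) (nat_lit 2) (.p (nat_lit 303) (nat_lit 3) (.n (nat_lit 304) (nat_lit 2) .z))))))))))))) (.ct dC2b_c52 (nat_lit 1) (nat_lit 2) (.s false (nat_lit 1) (nat_lit 45) (nat_lit 1) (nat_lit 1) (nat_lit 2) true (nat_lit 5) true (nat_lit 7) false (nat_lit 2) true (nat_lit 8) true (nat_lit 8) (.e false (nat_lit 1) (nat_lit 94) (nat_lit 6) (nat_lit 5) (.e false (nat_lit 1) (nat_lit 160) (nat_lit 2) (nat_lit 7) (.e true (nat_lit 1) (nat_lit 162) (nat_lit 2) (nat_lit 7) (.e false (nat_lit 1) (nat_lit 165) (nat_lit 2) (nat_lit 7) (.e true (nat_lit 2) (nat_lit 185) (nat_lit 1) (nat_lit 8) (.e true (nat_lit 2) (nat_lit 186) (nat_lit 1) (nat_lit 8) (.e false (nat_lit 1) (nat_lit 187) (nat_lit 1) (nat_lit 8) (.e true (nat_lit 3) (nat_lit 188) (nat_lit 1) (nat_lit 8) (.e true (nat_lit 1) (nat_lit 189) (nat_lit 1) (nat_lit 8) (.e false (nat_lit 3) (nat_lit 190) (nat_lit 1) (nat_lit 8) (.e false (nat_lit 1) (nat_lit 192) (nat_lit 1) (nat_lit 8) (.e true (nat_lit 2) (nat_lit 193) (nat_lit 1) (nat_lit 8) (.e true (nat_lit 1) (nat_lit 194) (nat_lit 1) (nat_lit 8) (.u (nat_lit 2) (.p (nat_lit 0) (nat_lit 3) (.n (nat_lit 1) (nat_lit 1) (.n (nat_lit 2) (nat_lit 1) (.n (nat_lit 4) (nat_lit 1) (.n (nat_lit 6) (nat_lit 2) (.n (nat_lit 7) (nat_lit 1) (.p (nat_lit 9) (nat_lit 1) (.n (nat_lit 11) (nat_lit 1) .z)))))))) .nil)))))))))))))))) .leaf) (nat_lit 46095) (nat_lit 741) (.n (nat_lit 289) (nat_lit 2) (.p (nat_lit 290) (nat_lit 1) (.p (nat_lit 291) (nat_lit 2) (.p (nat_lit 292) (nat_lit 2) (.p (nat_lit 293) (nat_lit 3) (.p (nat_lit 295) (nat_lit 1) (.p (nat_lit 298) (nat_lit 1) (.n (nat_lit 299) (nat_lit 1) (.p (nat_lit 301) (nat_lit 1) (.n (nat_lit 303) (nat_lit 1) (.p (nat_lit 304) (nat_lit 2) .z))))))))))) (.ct dC2b_c52 (nat_lit 1) (nat_lit 2) (.s false (nat_lit 1) (nat_lit 15) (nat_lit 2) (nat_lit 6) (nat_lit 2) true (nat_lit 4) true (nat_lit 7) true (nat_lit 2) true (nat_lit 7) true (nat_lit 5) (.e true (nat_lit 1) (nat_lit 74) (nat_lit 7) (nat_lit 4) (.e true (nat_lit 1) (nat_lit 76) (nat_lit 7) (nat_lit 4) (.e false (nat_lit 1) (nat_lit 77) (nat_lit 7) (nat_lit 4) (.e false (nat_lit 1) (nat_lit 78) (nat_lit 7) (nat_lit 4) (.e true (nat_lit 1) (nat_lit 79) (nat_lit 7) (nat_lit 4) (.e false (nat_lit 2) (nat_lit 158) (nat_lit 2) (nat_lit 7) (.e false (nat_lit 1) (nat_lit 159) (nat_lit 2) (nat_lit 7) (.e false (nat_lit 3) (nat_lit 160) (nat_lit 2) (nat_lit 7) (.e true (nat_lit 3) (nat_lit 161) (nat_lit 2) (nat_lit 7) (.e true (nat_lit 3) (nat_lit 162) (nat_lit 2) (nat_lit 7) (.e false (nat_lit 2) (nat_lit 163) (nat_lit 2) (nat_lit 7) (.e true (nat_lit 1) (nat_lit 164) (nat_lit 2) (nat_lit 7) (.e false (nat_lit 1) (nat_lit 165) (nat_lit 2) (nat_lit 7) (.e true (nat_lit 1) (nat_lit 166) (nat_lit 2) (nat_lit 7) (.e false (nat_lit 2) (nat_lit 168) (nat_lit 2) (nat_lit 7) (.e false (nat_lit 1) (nat_lit 92) (nat_lit 6) (nat_lit 5) (.u (nat_lit 2) (.p (nat_lit 0) (nat_lit 1) (.p (nat_lit 1) (nat_lit 1) (.n (nat_lit 3) (nat_lit 1) (.n (nat_lit 4) (nat_lit 1) (.p (nat_lit 6) (nat_lit 1) (.p (nat_lit 8) (nat_lit 1) (.n (nat_lit 9) (nat_lit 1) (.n (nat_lit 14) (nat_lit 1) .z)))))))) .nil))))))))))))))))))) .leaf))) (nat_lit 46096) (nat_lit 797) (.n (nat_lit 305) (nat_lit 3) (.n (nat_lit 306) (nat_lit 2) (.p (nat_lit 307) (nat_lit 1) (.p (nat_lit 308) (nat_lit 3) (.p (nat_lit 309) (nat_lit 3) (.p (nat_lit 311) (nat_lit 2) (.p (nat_lit 312) (nat_lit 3) (.p (nat_lit 313) (nat_lit 1) (.p (nat_lit 314) (nat_lit 3) (.p (nat_lit 315) (nat_lit 2) (.p (nat_lit 316) (nat_lit 1) (.n (nat_lit 319) (nat_lit 1) (.p (nat_lit 320) (nat_lit 1) (.p (nat_lit 321) (nat_lit 1) (.p (nat_lit 322) (nat_lit 1) .z))))))))))))))) (.ct dC2b_c277 (nat_lit 1) (nat_lit 2) (.s true (nat_lit 1) (nat_lit 16) (nat_lit 6) (nat_lit 2) (nat_lit 2) true (nat_lit 1) true (nat_lit 8) true (nat_lit 2) true (nat_lit 5) true (nat_lit 8) (.e false (nat_lit 1) (nat_lit 42) (nat_lit 18) (nat_lit 1) (.e true (nat_lit 1) (nat_lit 169) (nat_lit 2) (nat_lit 8) (.e false (nat_lit 1) (nat_lit 170) (nat_lit 2) (nat_lit 8) (.e false (nat_lit 1) (nat_lit 173) (nat_lit 2) (nat_lit 8) (.e false (nat_lit 2) (nat_lit 174) (nat_lit 2) (nat_lit 8) (.e false (nat_lit 1) (nat_lit 176) (nat_lit 2) (nat_lit 8) (.e true (nat_lit 1) (nat_lit 179) (nat_lit 2) (nat_lit 8) (.e false (nat_lit 1) (nat_lit 100) (nat_lit 6) (nat_lit 5) (.e true (nat_lit 1) (nat_lit 184) (nat_lit 2) (nat_lit 8) (.u (nat_lit 2) (.p (nat_lit 5) (nat_lit 1) (.n (nat_lit 10) (nat_lit 1) .z)) .nil)))))))))))) (.nd (.nd (.nd (.nd .leaf (nat_lit 46097) (nat_lit 802) (.n (nat_lit 305) (nat_lit 2) (.p (nat_lit 306) (nat_lit 2) (.p (nat_lit 307) (nat_lit 1) (.n (nat_lit 308) (nat_lit 1) (.p (nat_lit 309) (nat_lit 2) (.n (nat_lit 310) (nat_lit 3) (.n (nat_lit 311) (nat_lit 1) (.p (nat_lit 312) (nat_lit 1) (.n (nat_lit 313) (nat_lit 3) (.n (nat_lit 314) (nat_lit 1) (.p (nat_lit 316) (nat_lit 2) (.n (nat_lit 317) (nat_lit 2) (.p (nat_lit 320) (nat_lit 1) (.p (nat_lit 321) (nat_lit 1) (.p (nat_lit 323) (nat_lit 1) .z))))))))))))))) (.ct dC2b_c277 (nat_lit 1) (nat_lit 2) (.s false (nat_lit 1) (nat_lit 45) (nat_lit 2) (nat_lit 2) (nat_lit 0) true (nat_lit 6) true (nat_lit 10) false (nat_lit 2) true (nat_lit 8) true (nat_lit 8) (.e false (nat_lit 1) (nat_lit 101) (nat_lit 5) (nat_lit 6) (.e false (nat_lit 1) (nat_lit 200) (nat_lit 0) (nat_lit 10) (.e true (nat_lit 2) (nat_lit 169) (nat_lit 2) (nat_lit 8) (.e false (nat_lit 1) (nat_lit 170) (nat_lit 2) (nat_lit 8) (.e true (nat_lit 1) (nat_lit 171) (nat_lit 2) (nat_lit 8) (.e true (nat_lit 3) (nat_lit 172) (nat_lit 2) (nat_lit 8) (.e false (nat_lit 2) (nat_lit 173) (nat_lit 2) (nat_lit 8) (.e true (nat_lit 2) (nat_lit 174) (nat_lit 2) (nat_lit 8) (.e true (nat_lit 3) (nat_lit 175) (nat_lit 2) (nat_lit 8) (.e false (nat_lit 3) (nat_lit 176) (nat_lit 2) (nat_lit 8) (.e true (nat_lit 3) (nat_lit 178) (nat_lit 2) (nat_lit 8) (.e true (nat_lit 3) (nat_lit 179) (nat_lit 2) (nat_lit 8) (.e false (nat_lit 1) (nat_lit 184) (nat_lit 2) (nat_lit 8) (.u (nat_lit 2) (.n (nat_lit 9) (nat_lit 1) (.n (nat_lit 67) (nat_lit 1) .z)) .nil)))))))))))))))) .leaf) (nat_lit 46098) (nat_lit 841) (.n (nat_lit 324) (nat_lit 1) (.p (nat_lit 325) (nat_lit 2) (.p (nat_lit 326) (nat_lit 3) (.p (nat_lit 327) (nat_lit 3) (.p (nat_lit 329) (nat_lit 3) (.p (nat_lit 330) (nat_lit 2) (.n (nat_lit 331) (nat_lit 2) (.n (nat_lit 332) (nat_lit 1) (.p (nat_lit 333) (nat_lit 1) (.p (nat_lit 334) (nat_lit 1) .z)))))))))) (.ct dC2b_c37 (nat_lit 1) (nat_lit 1) (.s false (nat_lit 1) (nat_lit 18) (nat_lit 2) (nat_lit 2) (nat_lit 6) true (nat_lit 1) true (nat_lit 4) true (nat_lit 1) true (nat_lit 6) true (nat_lit 6) (.e false (nat_lit 1) (nat_lit 101) (nat_lit 6) (nat_lit 4) (.e false (nat_lit 1) (nat_lit 46) (nat_lit 18) (nat_lit 1) (.e true (nat_lit 1) (nat_lit 47) (nat_lit 18) (nat_lit 1) (.e true (nat_lit 2) (nat_lit 185) (nat_lit 2) (nat_lit 6) (.e true (nat_lit 3) (nat_lit 186) (nat_lit 2) (nat_lit 6) (.e false (nat_lit 2) (nat_lit 187) (nat_lit 2) (nat_lit 6) (.e true (nat_lit 3) (nat_lit 188) (nat_lit 2) (nat_lit 6) (.e true (nat_lit 1) (nat_lit 189) (nat_lit 2) (nat_lit 6) (.e false (nat_lit 2) (nat_lit 190) (nat_lit 2) (nat_lit 6) (.e false (nat_lit 1) (nat_lit 191) (nat_lit 2) (nat_lit 6) (.e true (nat_lit 1) (nat_lit 193) (nat_lit 2) (nat_lit 6) (.e true (nat_lit 1) (nat_lit 194) (nat_lit 2) (nat_lit 6) (.u (nat_lit 2) (.p (nat_lit 0) (nat_lit 1) (.n (nat_lit 3) (nat_lit 1) (.n (nat_lit 6) (nat_lit 1) (.p (nat_lit 7) (nat_lit 1) (.p (nat_lit 36) (nat_lit 1) .z))))) .nil))))))))))))))) .leaf) (nat_lit 46099) (nat_lit 839) (.p (nat_lit 324) (nat_lit 1) (.n (nat_lit 325) (nat_lit 2) (.n (nat_lit 327) (nat_lit 1) (.p (nat_lit 328) (nat_lit 2) (.p (nat_lit 329) (nat_lit 2) (.p (nat_lit 330) (nat_lit 1) (.n (nat_lit 331) (nat_lit 2) (.p (nat_lit 333) (nat_lit 1) (.p (nat_lit 334) (nat_lit 1) .z))))))))) (.ct dC2b_c37 (nat_lit 1) (nat_lit 1) (.s true (nat_lit 1) (nat_lit 19) (nat_lit 6) (nat_lit 2) (nat_lit 2) true (nat_lit 1) true (nat_lit 6) true (nat_lit 1) true (nat_lit 4) true (nat_lit 6) (.e false (nat_lit 1) (nat_lit 46) (nat_lit 18) (nat_lit 1) (.e false (nat_lit 2) (nat_lit 185) (nat_lit 2) (nat_lit 6) (.e false (nat_lit 2) (nat_lit 186) (nat_lit 2) (nat_lit 6) (.e true (nat_lit 2) (nat_lit 187) (nat_lit 2) (nat_lit 6) (.e false (nat_lit 3) (nat_lit 189) (nat_lit 2) (nat_lit 6) (.e true (nat_lit 2) (nat_lit 190) (nat_lit 2) (nat_lit 6) (.e false (nat_lit 2) (nat_lit 102) (nat_lit 6) (nat_lit 4) (.e true (nat_lit 2) (nat_lit 103) (nat_lit 6) (nat_lit 4) (.e false (nat_lit 3) (nat_lit 188) (nat_lit 2) (nat_lit 6) (.e true (nat_lit 1) (nat_lit 192) (nat_lit 2) (nat_lit 6) (.e true (nat_lit 1) (nat_lit 194) (nat_lit 2) (nat_lit 6) (.u (nat_lit 2) (.p (nat_lit 1) (nat_lit 1) (.n (nat_lit 2) (nat_lit 1) (.p (nat_lit 3) (nat_lit 1) (.n (nat_lit 4) (nat_lit 1) (.n (nat_lit 5) (nat_lit 1) (.n (nat_lit 6) (nat_lit 1) (.p (nat_lit 7) (nat_lit 1) (.n (nat_lit 37) (nat_lit 1) .z)))))))) .nil)))))))))))))) (.nd (.nd .leaf (nat_lit 46104) (nat_lit 1015) (.n (nat_lit 335) (nat_lit 1) (.p (nat_lit 336) (nat_lit 2) (.n (nat_lit 337) (nat_lit 3) (.p (nat_lit 339) (nat_lit 1) (.n (nat_lit 340) (nat_lit 3) (.p (nat_lit 341) (nat_lit 1) (.n (nat_lit 342) (nat_lit 2) (.n (nat_lit 343) (nat_lit 1) (.p (nat_lit 345) (nat_lit 1) (.p (nat_lit 347) (nat_lit 2) (.n (nat_lit 350) (nat_lit 1) (.n (nat_lit 351) (nat_lit 1) (.p (nat_lit 352) (nat_lit 3) (.p (nat_lit 353) (nat_lit 3) (.p (nat_lit 354) (nat_lit 1) (.n (nat_lit 356) (nat_lit 2) (.p (nat_lit 357) (nat_lit 2) (.n (nat_lit 358) (nat_lit 1) (.p (nat_lit 359) (nat_lit 3) (.p (nat_lit 361) (nat_lit 2) (.p (nat_lit 362) (nat_lit 2) (.n (nat_lit 363) (nat_lit 2) (.n (nat_lit 364) (nat_lit 3) (.n (nat_lit 366) (nat_lit 1) (.n (nat_lit 367) (nat_lit 2) (.n (nat_lit 368) (nat_lit 2) (.n (nat_lit 370) (nat_lit 2) (.p (nat_lit 373) (nat_lit 2) (.n (nat_lit 374) (nat_lit 2) (.n (nat_lit 375) (nat_lit 3) (.n (nat_lit 377) (nat_lit 1) (.n (nat_lit 379) (nat_lit 3) (.n (nat_lit 380) (nat_lit 2) (.n (nat_lit 381) (nat_lit 1) (.n (nat_lit 382) (nat_lit 1) (.p (nat_lit 390) (nat_lit 1) .z)))))))))))))))))))))))))))))))))))) (.ct dC2b_c308 (nat_lit 1) (nat_lit 2) (.s true (nat_lit 1) (nat_lit 24) (nat_lit 6) (nat_lit 2) (nat_lit 2) true (nat_lit 5) true (nat_lit 16) true (nat_lit 2) true (nat_lit 12) true (nat_lit 16) (.e false (nat_lit 1) (nat_lit 60) (nat_lit 18) (nat_lit 5) (.e false (nat_lit 1) (nat_lit 208) (nat_lit 2) (nat_lit 16) (.e true (nat_lit 2) (nat_lit 216) (nat_lit 2) (nat_lit 16) (.e false (nat_lit 1) (nat_lit 152) (nat_lit 6) (nat_lit 12) (.e false (nat_lit 1) (nat_lit 231) (nat_lit 2) (nat_lit 16) (.e true (nat_lit 1) (nat_lit 242) (nat_lit 2) (nat_lit 16) (.e true (nat_lit 1) (nat_lit 248) (nat_lit 2) (nat_lit 16) (.u (nat_lit 2) (.p (nat_lit 1) (nat_lit 1) (.n (nat_lit 2) (nat_lit 1) (.p (nat_lit 3) (nat_lit 1) (.n (nat_lit 5) (nat_lit 1) (.n (nat_lit 6) (nat_lit 1) (.n (nat_lit 8) (nat_lit 1) (.n (nat_lit 9) (nat_lit 1) (.p (nat_lit 10) (nat_lit 1) (.p (nat_lit 16) (nat_lit 1) (.n (nat_lit 17) (nat_lit 1) (.p (nat_lit 19) (nat_lit 1) (.n (nat_lit 20) (nat_lit 1) (.p (nat_lit 23) (nat_lit 2) (.p (nat_lit 27) (nat_lit 1) (.p (nat_lit 29) (nat_lit 1) (.p (nat_lit 32) (nat_lit 1) (.p (nat_lit 33) (nat_lit 1) (.n (nat_lit 34) (nat_lit 2) (.p (nat_lit 35) (nat_lit 1) (.n (nat_lit 38) (nat_lit 1) (.p (nat_lit 45) (nat_lit 1) (.n (nat_lit 46) (nat_lit 1) (.p (nat_lit 47) (nat_lit 2) (.p (nat_lit 48) (nat_lit 1) .z)))))))))))))))))))))))) .nil)))))))))) .leaf) (nat_lit 46105) (nat_lit 1036) (.p (nat_lit 335) (nat_lit 3) (.p (nat_lit 339) (nat_lit 2) (.n (nat_lit 340) (nat_lit 2) (.p (nat_lit 341) (nat_lit 2) (.n (nat_lit 342) (nat_lit 3) (.p (nat_lit 343) (nat_lit 3) (.n (nat_lit 344) (nat_lit 1) (.n (nat_lit 345) (nat_lit 1) (.n (nat_lit 346) (nat_lit 3) (.p (nat_lit 349) (nat_lit 1) (.p (nat_lit 350) (nat_lit 1) (.n (nat_lit 351) (nat_lit 2) (.n (nat_lit 352) (nat_lit 1) (.n (nat_lit 353) (nat_lit 2) (.n (nat_lit 355) (nat_lit 3) (.p (nat_lit 356) (nat_lit 2) (.n (nat_lit 357) (nat_lit 2) (.n (nat_lit 358) (nat_lit 1) (.p (nat_lit 359) (nat_lit 3) (.n (nat_lit 361) (nat_lit 3) (.n (nat_lit 363) (nat_lit 3) (.p (nat_lit 364) (nat_lit 1) (.p (nat_lit 366) (nat_lit 2) (.p (nat_lit 367) (nat_lit 3) (.n (nat_lit 368) (nat_lit 2) (.n (nat_lit 370) (nat_lit 3) (.n (nat_lit 371) (nat_lit 2) (.n (nat_lit 372) (nat_lit 2) (.p (nat_lit 373) (nat_lit 2) (.n (nat_lit 374) (nat_lit 3) (.p (nat_lit 375) (nat_lit 1) (.n (nat_lit 377) (nat_lit 2) (.p (nat_lit 379) (nat_lit 1) (.n (nat_lit 380) (nat_lit 3) (.p (nat_lit 381) (nat_lit 1) (.n (nat_lit 382) (nat_lit 1) (.p (nat_lit 383) (nat_lit 3) (.p (nat_lit 390) (nat_lit 2) .z)))))))))))))))))))))))))))))))))))))) (.ct dC2b_c308 (nat_lit 1) (nat_lit 2) (.s true (nat_lit 1) (nat_lit 25) (nat_lit 6) (nat_lit 2) (nat_lit 2) true (nat_lit 5) true (nat_lit 16) true (nat_lit 2) true (nat_lit 12) true (nat_lit 16) (.e false (nat_lit 1) (nat_lit 61) (nat_lit 18) (nat_lit 5) (.e false (nat_lit 1) (nat_lit 153) (nat_lit 6) (nat_lit 12) (.e false (nat_lit 1) (nat_lit 209) (nat_lit 2) (nat_lit 16) (.e true (nat_lit 2) (nat_lit 217) (nat_lit 2) (nat_lit 16) (.e false (nat_lit 1) (nat_lit 232) (nat_lit 2) (nat_lit 16) (.e true (nat_lit 1) (nat_lit 243) (nat_lit 2) (nat_lit 16) (.e true (nat_lit 1) (nat_lit 249) (nat_lit 2) (nat_lit 16) (.u (nat_lit 2) (.p (nat_lit 1) (nat_lit 1) (.n (nat_lit 2) (nat_lit 1) (.n (nat_lit 3) (nat_lit 1) (.n (nat_lit 5) (nat_lit 1) (.n (nat_lit 6) (nat_lit 1) (.p (nat_lit 7) (nat_lit 1) (.p (nat_lit 9) (nat_lit 1) (.p (nat_lit 10) (nat_lit 1) (.p (nat_lit 11) (nat_lit 2) (.p (nat_lit 12) (nat_lit 1) (.n (nat_lit 14) (nat_lit 1) (.p (nat_lit 17) (nat_lit 1) (.p (nat_lit 18) (nat_lit 2) (.p (nat_lit 19) (nat_lit 1) (.p (nat_lit 20) (nat_lit 1) (.p (nat_lit 23) (nat_lit 1) (.n (nat_lit 24) (nat_lit 1) (.n (nat_lit 25) (nat_lit 1) (.p (nat_lit 26) (nat_lit 1) (.n (nat_lit 27) (nat_lit 1) (.p (nat_lit 28) (nat_lit 1) (.n (nat_lit 29) (nat_lit 1) (.n (nat_lit 31) (nat_lit 1) (.p (nat_lit 33) (nat_lit 1) (.p (nat_lit 34) (nat_lit 1) (.p (nat_lit 35) (nat_lit 1) (.n (nat_lit 38) (nat_lit 1) (.n (nat_lit 39) (nat_lit 1) (.p (nat_lit 45) (nat_lit 1) (.p (nat_lit 46) (nat_lit 1) .z)))))))))))))))))))))))))))))) .nil)))))))))) .leaf)) (nat_lit 46106) (nat_lit 992) (.p (nat_lit 336) (nat_lit 2) (.n (nat_lit 337) (nat_lit 3) (.n (nat_lit 338) (nat_lit 2) (.p (nat_lit 339) (nat_lit 3) (.p (nat_lit 340) (nat_lit 3) (.p (nat_lit 341) (nat_lit 1) (.p (nat_lit 342) (nat_lit 2) (.n (nat_lit 343) (nat_lit 2) (.p (nat_lit 345) (nat_lit 1) (.p (nat_lit 346) (nat_lit 3) (.p (nat_lit 347) (nat_lit 1) (.n (nat_lit 349) (nat_lit 2) (.n (nat_lit 350) (nat_lit 1) (.p (nat_lit 351) (nat_lit 1) (.n (nat_lit 352) (nat_lit 2) (.n (nat_lit 353) (nat_lit 3) (.p (nat_lit 354) (nat_lit 3) (.n (nat_lit 355) (nat_lit 1) (.p (nat_lit 356) (nat_lit 1) (.n (nat_lit 357) (nat_lit 1) (.p (nat_lit 358) (nat_lit 1) (.n (nat_lit 359) (nat_lit 1) (.n (nat_lit 360) (nat_lit 2) (.n (nat_lit 361) (nat_lit 2) (.n (nat_lit 362) (nat_lit 1) (.n (nat_lit 364) (nat_lit 3) (.n (nat_lit 366) (nat_lit 1) (.n (nat_lit 367) (nat_lit 2) (.p (nat_lit 368) (nat_lit 1) (.n (nat_lit 369) (nat_lit 2) (.p (nat_lit 370) (nat_lit 1) (.p (nat_lit 371) (nat_lit 3) (.p (nat_lit 372) (nat_lit 1) (.n (nat_lit 373) (nat_lit 1) (.n (nat_lit 374) (nat_lit 1) (.n (nat_lit 380) (nat_lit 1) (.n (nat_lit 381) (nat_lit 3) (.p (nat_lit 382) (nat_lit 1) (.p (nat_lit 383) (nat_lit 3) (.n (nat_lit 384) (nat_lit 1) (.n (nat_lit 386) (nat_lit 1) (.p (nat_lit 391) (nat_lit 1) .z)))))))))))))))))))))))))))))))))))))))))) (.ct dC2b_c308 (nat_lit 1) (nat_lit 2) dC2b_i12) (.nd (.nd (.nd .leaf (nat_lit 46107) (nat_lit 997) (.n (nat_lit 335) (nat_lit 2) (.n (nat_lit 336) (nat_lit 1) (.n (nat_lit 337) (nat_lit 2) (.p (nat_lit 338) (nat_lit 1) (.p (nat_lit 339) (nat_lit 2) (.n (nat_lit 340) (nat_lit 1) (.p (nat_lit 342) (nat_lit 1) (.n (nat_lit 343) (nat_lit 2) (.p (nat_lit 346) (nat_lit 1) (.p (nat_lit 347) (nat_lit 1) (.p (nat_lit 349) (nat_lit 3) (.n (nat_lit 350) (nat_lit 2) (.n (nat_lit 352) (nat_lit 2) (.p (nat_lit 353) (nat_lit 3) (.n (nat_lit 355) (nat_lit 1) (.p (nat_lit 356) (nat_lit 1) (.n (nat_lit 357) (nat_lit 1) (.p (nat_lit 360) (nat_lit 3) (.n (nat_lit 361) (nat_lit 3) (.n (nat_lit 362) (nat_lit 3) (.n (nat_lit 363) (nat_lit 3) (.n (nat_lit 366) (nat_lit 1) (.n (nat_lit 368) (nat_lit 3) (.n (nat_lit 369) (nat_lit 2) (.n (nat_lit 370) (nat_lit 3) (.n (nat_lit 371) (nat_lit 1) (.p (nat_lit 373) (nat_lit 3) (.p (nat_lit 374) (nat_lit 1) (.p (nat_lit 380) (nat_lit 2) (.n (nat_lit 381) (nat_lit 1) (.p (nat_lit 382) (nat_lit 1) (.p (nat_lit 383) (nat_lit 3) (.n (nat_lit 385) (nat_lit 1) (.n (nat_lit 387) (nat_lit 1) (.p (nat_lit 392) (nat_lit 1) .z))))))))))))))))))))))))))))))))))) (.ct dC2b_c308 (nat_lit 1) (nat_lit 2) (.s true (nat_lit 1) (nat_lit 27) (nat_lit 6) (nat_lit 2) (nat_lit 2) true (nat_lit 5) true (nat_lit 16) true (nat_lit 2) true (nat_lit 12) true (nat_lit 16) (.e false (nat_lit 1) (nat_lit 63) (nat_lit 18) (nat_lit 5) (.e false (nat_lit 1) (nat_lit 211) (nat_lit 2) (nat_lit 16) (.e true (nat_lit 2) (nat_lit 219) (nat_lit 2) (nat_lit 16) (.e false (nat_lit 1) (nat_lit 155) (nat_lit 6) (nat_lit 12) (.e false (nat_lit 1) (nat_lit 234) (nat_lit 2) (nat_lit 16) (.e true (nat_lit 1) (nat_lit 244) (nat_lit 2) (nat_lit 16) (.e true (nat_lit 1) (nat_lit 250) (nat_lit 2) (nat_lit 16) (.u (nat_lit 2) (.p (nat_lit 1) (nat_lit 1) (.n (nat_lit 4) (nat_lit 1) (.p (nat_lit 6) (nat_lit 1) (.n (nat_lit 7) (nat_lit 1) (.p (nat_lit 15) (nat_lit 1) (.n (nat_lit 16) (nat_lit 1) (.n (nat_lit 18) (nat_lit 1) (.p (nat_lit 21) (nat_lit 1) (.n (nat_lit 22) (nat_lit 1) (.n (nat_lit 25) (nat_lit 1) (.n (nat_lit 27) (nat_lit 1) (.p (nat_lit 28) (nat_lit 1) (.p (nat_lit 32) (nat_lit 1) (.p (nat_lit 33) (nat_lit 1) (.p (nat_lit 34) (nat_lit 1) (.p (nat_lit 35) (nat_lit 1) (.n (nat_lit 38) (nat_lit 1) (.n (nat_lit 39) (nat_lit 1) (.n (nat_lit 45) (nat_lit 1) (.p (nat_lit 316) (nat_lit 1) .z)))))))))))))))))))) .nil)))))))))) .leaf) (nat_lit 46108) (nat_lit 1095) (.n (nat_lit 335) (nat_lit 3) (.n (nat_lit 336) (nat_lit 3) (.p (nat_lit 337) (nat_lit 1) (.p (nat_lit 338) (nat_lit 3) (.n (nat_lit 339) (nat_lit 1) (.n (nat_lit 340) (nat_lit 3) (.p (nat_lit 341) (nat_lit 2) (.p (nat_lit 342) (nat_lit 1) (.p (nat_lit 343) (nat_lit 2) (.n (nat_lit 344) (nat_lit 3) (.n (nat_lit 345) (nat_lit 1) (.p (nat_lit 346) (nat_lit 3) (.n (nat_lit 347) (nat_lit 2) (.p (nat_lit 349) (nat_lit 2) (.n (nat_lit 350) (nat_lit 1) (.p (nat_lit 351) (nat_lit 3) (.n (nat_lit 352) (nat_lit 1) (.n (nat_lit 353) (nat_lit 3) (.p (nat_lit 354) (nat_lit 3) (.p (nat_lit 355) (nat_lit 3) (.n (nat_lit 356) (nat_lit 2) (.p (nat_lit 357) (nat_lit 2) (.p (nat_lit 359) (nat_lit 2) (.n (nat_lit 360) (nat_lit 2) (.p (nat_lit 361) (nat_lit 2) (.n (nat_lit 362) (nat_lit 1) (.p (nat_lit 363) (nat_lit 3) (.p (nat_lit 364) (nat_lit 2) (.n (nat_lit 366) (nat_lit 3) (.n (nat_lit 367) (nat_lit 1) (.n (nat_lit 368) (nat_lit 1) (.n (nat_lit 369) (nat_lit 2) (.n (nat_lit 370) (nat_lit 2) (.n (nat_lit 371) (nat_lit 1) (.p (nat_lit 372) (nat_lit 1) (.p (nat_lit 373) (nat_lit 1) (.p (nat_lit 374) (nat_lit 2) (.n (nat_lit 382) (nat_lit 1) (.n (nat_lit 383) (nat_lit 3) (.n (nat_lit 384) (nat_lit 1) (.n (nat_lit 385) (nat_lit 1) (.n (nat_lit 386) (nat_lit 1) (.n (nat_lit 387) (nat_lit 1) (.p (nat_lit 391) (nat_lit 1) (.p (nat_lit 392) (nat_lit 1) .z))))))))))))))))))))))))))))))))))))))))))))) (.ct dC2b_c308 (nat_lit 1) (nat_lit 2) (.s false (nat_lit 1) (nat_lit 28) (nat_lit 2) (nat_lit 6) (nat_lit 2) true (nat_lit 11) true (nat_lit 16) true (nat_lit 2) true (nat_lit 16) true (nat_lit 12) (.e true (nat_lit 3) (nat_lit 106) (nat_lit 7) (nat_lit 11) (.e true (nat_lit 1) (nat_lit 107) (nat_lit 7) (nat_lit 11) (.e true (nat_lit 1) (nat_lit 108) (nat_lit 7) (nat_lit 11) (.e false (nat_lit 1) (nat_lit 110) (nat_lit 7) (nat_lit 11) dC2b_i14)))))) .leaf) (nat_lit 46109) (nat_lit 1043) (.n (nat_lit 335) (nat_lit 1) (.n (nat_lit 336) (nat_lit 1) (.n (nat_lit 337) (nat_lit 2) (.n (nat_lit 338) (nat_lit 1) (.n (nat_lit 339) (nat_lit 3) (.n (nat_lit 341) (nat_lit 1) (.p (nat_lit 342) (nat_lit 1) (.p (nat_lit 343) (nat_lit 3) (.n (nat_lit 344) (nat_lit 2) (.p (nat_lit 345) (nat_lit 2) (.n (nat_lit 347) (nat_lit 1) (.p (nat_lit 351) (nat_lit 1) (.n (nat_lit 352) (nat_lit 1) (.n (nat_lit 353) (nat_lit 2) (.p (nat_lit 354) (nat_lit 1) (.p (nat_lit 355) (nat_lit 2) (.n (nat_lit 356) (nat_lit 1) (.p (nat_lit 357) (nat_lit 1) (.n (nat_lit 359) (nat_lit 1) (.n (nat_lit 364) (nat_lit 2) (.n (nat_lit 366) (nat_lit 2) (.p (nat_lit 367) (nat_lit 1) (.n (nat_lit 368) (nat_lit 2) (.n (nat_lit 369) (nat_lit 3) (.n (nat_lit 371) (nat_lit 1) (.n (nat_lit 372) (nat_lit 2) (.p (nat_lit 373) (nat_lit 2) (.n (nat_lit 374) (nat_lit 2) (.p (nat_lit 375) (nat_lit 3) (.p (nat_lit 377) (nat_lit 1) (.p (nat_lit 379) (nat_lit 3) (.n (nat_lit 380) (nat_lit 3) (.n (nat_lit 382) (nat_lit 1) (.p (nat_lit 383) (nat_lit 1) (.n (nat_lit 385) (nat_lit 1) (.n (nat_lit 387) (nat_lit 1) (.n (nat_lit 390) (nat_lit 1) (.p (nat_lit 392) (nat_lit 1) .z)))))))))))))))))))))))))))))))))))))) (.ct dC2b_c308 (nat_lit 1) (nat_lit 2) (.s true (nat_lit 1) (nat_lit 45) (nat_lit 2) (nat_lit 1) (nat_lit 3) true (nat_lit 8) true (nat_lit 15) false (nat_lit 2) true (nat_lit 16) true (nat_lit 17) (.e true (nat_lit 1) (nat_lit 94) (nat_lit 11) (nat_lit 8) (.e true (nat_lit 1) (nat_lit 191) (nat_lit 3) (nat_lit 15) (.e true (nat_lit 1) (nat_lit 45) (nat_lit 25) (nat_lit 2) (.e true (nat_lit 1) (nat_lit 45) (nat_lit 26) (nat_lit 2) (.e false (nat_lit 1) (nat_lit 45) (nat_lit 27) (nat_lit 2) (.e true (nat_lit 1) (nat_lit 215) (nat_lit 2) (nat_lit 16) (.e false (nat_lit 1) (nat_lit 216) (nat_lit 2) (nat_lit 16) (.e false (nat_lit 1) (nat_lit 227) (nat_lit 2) (nat_lit 16) (.e true (nat_lit 1) (nat_lit 231) (nat_lit 2) (nat_lit 16) (.e false (nat_lit 1) (nat_lit 242) (nat_lit 2) (nat_lit 16) (.e false (nat_lit 1) (nat_lit 248) (nat_lit 2) (nat_lit 16) (.e true (nat_lit 1) (nat_lit 251) (nat_lit 2) (nat_lit 16) (.e true (nat_lit 1) (nat_lit 252) (nat_lit 1) (nat_lit 17) (.e true (nat_lit 2) (nat_lit 253) (nat_lit 1) (nat_lit 17) (.e false (nat_lit 2) (nat_lit 255) (nat_lit 1) (nat_lit 17) (.e true (nat_lit 2) (nat_lit 257) (nat_lit 1) (nat_lit 17) (.e false (nat_lit 1) (nat_lit 264) (nat_lit 1) (nat_lit 17) (.e true (nat_lit 1) (nat_lit 265) (nat_lit 1) (nat_lit 17) (.e true (nat_lit 1) (nat_lit 266) (nat_lit 1) (nat_lit 17) (.e false (nat_lit 1) (nat_lit 272) (nat_lit 1) (nat_lit 17) (.e false (nat_lit 1) (nat_lit 274) (nat_lit 1) (nat_lit 17) (.e true (nat_lit 1) (nat_lit 277) (nat_lit 1) (nat_lit 17) (.u (nat_lit 2) (.n (nat_lit 1) (nat_lit 1) (.p (nat_lit 6) (nat_lit 1) (.n (nat_lit 7) (nat_lit 1) (.p (nat_lit 9) (nat_lit 1) (.n (nat_lit 10) (nat_lit 1) (.n (nat_lit 15) (nat_lit 1) (.p (nat_lit 17) (nat_lit 1) (.p (nat_lit 18) (nat_lit 2) (.n (nat_lit 19) (nat_lit 2) (.p (nat_lit 20) (nat_lit 1) (.n (nat_lit 21) (nat_lit 1) (.p (nat_lit 22) (nat_lit 1) (.p (nat_lit 26) (nat_lit 1) (.p (nat_lit 31) (nat_lit 1) (.n (nat_lit 32) (nat_lit 1) (.n (nat_lit 33) (nat_lit 1) (.p (nat_lit 34) (nat_lit 2) (.n (nat_lit 35) (nat_lit 1) (.n (nat_lit 37) (nat_lit 1) (.p (nat_lit 38) (nat_lit 1) (.p (nat_lit 39) (nat_lit 1) (.n (nat_lit 47) (nat_lit 1) (.n (nat_lit 48) (nat_lit 1) .z))))))))))))))))))))))) .nil))))))))))))))))))))))))) (.nd .leaf (nat_lit 46113) (nat_lit 1378) (.n (nat_lit 397) (nat_lit 3) (.p (nat_lit 399) (nat_lit 3) (.p (nat_lit 400) (nat_lit 1) (.p (nat_lit 401) (nat_lit 3) (.p (nat_lit 402) (nat_lit 1) (.p (nat_lit 403) (nat_lit 2) (.n (nat_lit 404) (nat_lit 2) (.n (nat_lit 405) (nat_lit 3) (.n (nat_lit 406) (nat_lit 2) (.p (nat_lit 407) (nat_lit 1) (.p (nat_lit 408) (nat_lit 3) (.p (nat_lit 409) (nat_lit 2) (.p (nat_lit 411) (nat_lit 2) (.p (nat_lit 413) (nat_lit 2) (.p (nat_lit 414) (nat_lit 2) (.n (nat_lit 415) (nat_lit 2) (.p (nat_lit 416) (nat_lit 1) (.p (nat_lit 417) (nat_lit 1) (.p (nat_lit 418) (nat_lit 2) (.p (nat_lit 419) (nat_lit 1) (.p (nat_lit 420) (nat_lit 3) (.n (nat_lit 421) (nat_lit 2) (.n (nat_lit 422) (nat_lit 1) (.p (nat_lit 424) (nat_lit 1) (.p (nat_lit 427) (nat_lit 1) (.n (nat_lit 431) (nat_lit 3) (.n (nat_lit 435) (nat_lit 2) .z))))))))))))))))))))))))))) (.ct dC2b_c293 (nat_lit 1) (nat_lit 1) (.s true (nat_lit 1) (nat_lit 33) (nat_lit 6) (nat_lit 2) (nat_lit 2) true (nat_lit 4) true (nat_lit 14) true (nat_lit 1) true (nat_lit 10) true (nat_lit 14) (.e false (nat_lit 1) (nat_lit 80) (nat_lit 18) (nat_lit 4) (.e false (nat_lit 1) (nat_lit 254) (nat_lit 2) (nat_lit 14) (.e true (nat_lit 2) (nat_lit 258) (nat_lit 2) (nat_lit 14) (.e false (nat_lit 1) (nat_lit 265) (nat_lit 2) (nat_lit 14) (.e false (nat_lit 1) (nat_lit 266) (nat_lit 2) (nat_lit 14) (.e true (nat_lit 1) (nat_lit 269) (nat_lit 2) (nat_lit 14) (.e true (nat_lit 1) (nat_lit 274) (nat_lit 2) (nat_lit 14) (.e false (nat_lit 1) (nat_lit 181) (nat_lit 6) (nat_lit 10) (.e true (nat_lit 1) (nat_lit 287) (nat_lit 2) (nat_lit 14) (.u (nat_lit 2) (.n (nat_lit 0) (nat_lit 1) (.n (nat_lit 2) (nat_lit 1) (.n (nat_lit 3) (nat_lit 1) (.p (nat_lit 4) (nat_lit 1) (.p (nat_lit 7) (nat_lit 1) (.p (nat_lit 8) (nat_lit 1) (.n (nat_lit 11) (nat_lit 2) (.p (nat_lit 12) (nat_lit 1) (.n (nat_lit 15) (nat_lit 1) (.n (nat_lit 17) (nat_lit 1) (.p (nat_lit 18) (nat_lit 1) (.n (nat_lit 19) (nat_lit 1) (.n (nat_lit 21) (nat_lit 1) (.p (nat_lit 23) (nat_lit 1) (.n (nat_lit 27) (nat_lit 1) (.n (nat_lit 30) (nat_lit 1) (.p (nat_lit 34) (nat_lit 1) (.p (nat_lit 38) (nat_lit 1) .z)))))))))))))))))) .nil)))))))))))) .leaf))))) (nat_lit 46114) (nat_lit 1268) (.n (nat_lit 398) (nat_lit 3) (.n (nat_lit 400) (nat_lit 3) (.p (nat_lit 401) (nat_lit 3) (.n (nat_lit 402) (nat_lit 1) (.n (nat_lit 403) (nat_lit 3) (.n (nat_lit 404) (nat_lit 2) (.p (nat_lit 405) (nat_lit 2) (.p (nat_lit 406) (nat_lit 1) (.n (nat_lit 407) (nat_lit 2) (.n (nat_lit 408) (nat_lit 2) (.p (nat_lit 409) (nat_lit 2) (.n (nat_lit 410) (nat_lit 1) (.p (nat_lit 411) (nat_lit 2) (.n (nat_lit 412) (nat_lit 2) (.n (nat_lit 413) (nat_lit 2) (.p (nat_lit 415) (nat_lit 3) (.n (nat_lit 418) (nat_lit 3) (.p (nat_lit 420) (nat_lit 2) (.p (nat_lit 421) (nat_lit 1) (.n (nat_lit 425) (nat_lit 1) (.n (nat_lit 428) (nat_lit 1) (.n (nat_lit 431) (nat_lit 1) (.p (nat_lit 432) (nat_lit 3) (.p (nat_lit 433) (nat_lit 1) .z)))))))))))))))))))))))) (.ct dC2b_c293 (nat_lit 1) (nat_lit 1) (.s true (nat_lit 1) (nat_lit 34) (nat_lit 6) (nat_lit 2) (nat_lit 2) true (nat_lit 4) true (nat_lit 14) true (nat_lit 1) true (nat_lit 10) true (nat_lit 14) (.e false (nat_lit 1) (nat_lit 81) (nat_lit 18) (nat_lit 4) (.e true (nat_lit 1) (nat_lit 253) (nat_lit 2) (nat_lit 14) (.e false (nat_lit 2) (nat_lit 255) (nat_lit 2) (nat_lit 14) (.e true (nat_lit 1) (nat_lit 258) (nat_lit 2) (nat_lit 14) (.e true (nat_lit 2) (nat_lit 259) (nat_lit 2) (nat_lit 14) (.e false (nat_lit 1) (nat_lit 260) (nat_lit 2) (nat_lit 14) (.e false (nat_lit 1) (nat_lit 264) (nat_lit 2) (nat_lit 14) (.e false (nat_lit 1) (nat_lit 267) (nat_lit 2) (nat_lit 14) (.e true (nat_lit 1) (nat_lit 270) (nat_lit 2) (nat_lit 14) (.e true (nat_lit 1) (nat_lit 275) (nat_lit 2) (nat_lit 14) (.e false (nat_lit 1) (nat_lit 182) (nat_lit 6) (nat_lit 10) (.e true (nat_lit 1) (nat_lit 288) (nat_lit 2) (nat_lit 14) (.u (nat_lit 2) (.p (nat_lit 2) (nat_lit 1) (.n (nat_lit 5) (nat_lit 1) (.p (nat_lit 6) (nat_lit 2) (.n (nat_lit 9) (nat_lit 1) (.p (nat_lit 11) (nat_lit 1) (.n (nat_lit 12) (nat_lit 1) (.p (nat_lit 13) (nat_lit 1) (.n (nat_lit 18) (nat_lit 1) (.n (nat_lit 19) (nat_lit 1) (.p (nat_lit 21) (nat_lit 2) (.n (nat_lit 23) (nat_lit 1) (.n (nat_lit 24) (nat_lit 1) (.p (nat_lit 35) (nat_lit 1) (.n (nat_lit 38) (nat_lit 1) .z)))))))))))))) .nil))))))))))))))) (.nd (.nd (.nd (.nd (.nd (.nd .leaf (nat_lit 46116) (nat_lit 1373) (.n (nat_lit 397) (nat_lit 2) (.n (nat_lit 398) (nat_lit 3) (.p (nat_lit 399) (nat_lit 3) (.n (nat_lit 400) (nat_lit 1) (.n (nat_lit 401) (nat_lit 3) (.p (nat_lit 402) (nat_lit 2) (.p (nat_lit 403) (nat_lit 3) (.p (nat_lit 404) (nat_lit 3) (.p (nat_lit 405) (nat_lit 1) (.n (nat_lit 406) (nat_lit 3) (.n (nat_lit 409) (nat_lit 2) (.n (nat_lit 410) (nat_lit 1) (.p (nat_lit 411) (nat_lit 2) (.p (nat_lit 412) (nat_lit 1) (.p (nat_lit 413) (nat_lit 2) (.p (nat_lit 414) (nat_lit 3) (.n (nat_lit 415) (nat_lit 1) (.p (nat_lit 416) (nat_lit 2) (.p (nat_lit 417) (nat_lit 1) (.n (nat_lit 418) (nat_lit 2) (.p (nat_lit 419) (nat_lit 1) (.p (nat_lit 420) (nat_lit 2) (.n (nat_lit 421) (nat_lit 3) (.n (nat_lit 422) (nat_lit 1) (.n (nat_lit 423) (nat_lit 1) (.p (nat_lit 426) (nat_lit 1) (.p (nat_lit 427) (nat_lit 2) (.p (nat_lit 428) (nat_lit 1) (.n (nat_lit 429) (nat_lit 1) (.p (nat_lit 430) (nat_lit 1) (.p (nat_lit 431) (nat_lit 3) (.p (nat_lit 435) (nat_lit 3) .z)))))))))))))))))))))))))))))))) (.ct dC2b_c293 (nat_lit 1) (nat_lit 1) (.s false (nat_lit 1) (nat_lit 18) (nat_lit 1) (nat_lit 2) (nat_lit 16) true (nat_lit 1) true (nat_lit 5) true (nat_lit 4) true (nat_lit 15) true (nat_lit 14) (.e false (nat_lit 1) (nat_lit 93) (nat_lit 16) (nat_lit 5) (.e true (nat_lit 1) (nat_lit 80) (nat_lit 18) (nat_lit 4) (.e false (nat_lit 1) (nat_lit 81) (nat_lit 18) (nat_lit 4) (.e false (nat_lit 1) (nat_lit 84) (nat_lit 18) (nat_lit 4) (.e false (nat_lit 2) (nat_lit 85) (nat_lit 18) (nat_lit 4) (.e false (nat_lit 1) (nat_lit 87) (nat_lit 18) (nat_lit 4) (.e true (nat_lit 1) (nat_lit 90) (nat_lit 18) (nat_lit 4) (.e true (nat_lit 2) (nat_lit 305) (nat_lit 1) (nat_lit 15) (.e false (nat_lit 2) (nat_lit 306) (nat_lit 1) (nat_lit 15) (.e false (nat_lit 1) (nat_lit 307) (nat_lit 1) (nat_lit 15) (.e false (nat_lit 2) (nat_lit 308) (nat_lit 1) (nat_lit 15) (.e false (nat_lit 2) (nat_lit 309) (nat_lit 1) (nat_lit 15) (.e false (nat_lit 1) (nat_lit 310) (nat_lit 1) (nat_lit 15) (.e true (nat_lit 3) (nat_lit 311) (nat_lit 1) (nat_lit 15) (.e true (nat_lit 2) (nat_lit 312) (nat_lit 1) (nat_lit 15) (.e false (nat_lit 2) (nat_lit 313) (nat_lit 1) (nat_lit 15) (.e true (nat_lit 1) (nat_lit 314) (nat_lit 1) (nat_lit 15) (.e true (nat_lit 1) (nat_lit 315) (nat_lit 1) (nat_lit 15) (.e true (nat_lit 1) (nat_lit 317) (nat_lit 1) (nat_lit 15) (.e false (nat_lit 1) (nat_lit 319) (nat_lit 1) (nat_lit 15) (.e true (nat_lit 1) (nat_lit 322) (nat_lit 1) (nat_lit 15) (.e true (nat_lit 3) (nat_lit 253) (nat_lit 2) (nat_lit 14) dC2b_i15)))))))))))))))))))))))) .leaf) (nat_lit 46119) (nat_lit 1441) (.n (nat_lit 436) (nat_lit 3) (.p (nat_lit 437) (nat_lit 3) (.n (nat_lit 438) (nat_lit 1) (.n (nat_lit 439) (nat_lit 2) (.n (nat_lit 440) (nat_lit 2) (.n (nat_lit 441) (nat_lit 1) (.n (nat_lit 442) (nat_lit 3) (.p (nat_lit 444) (nat_lit 2) (.p (nat_lit 445) (nat_lit 1) (.p (nat_lit 447) (nat_lit 1) (.n (nat_lit 450) (nat_lit 3) .z))))))))))) (.ct dC2b_c53 (nat_lit 1) (nat_lit 0) (.s true (nat_lit 1) (nat_lit 39) (nat_lit 6) (nat_lit 2) (nat_lit 2) true (nat_lit 3) true (nat_lit 9) true (nat_lit 0) true (nat_lit 7) true (nat_lit 9) (.e false (nat_lit 1) (nat_lit 91) (nat_lit 18) (nat_lit 3) (.e false (nat_lit 2) (nat_lit 289) (nat_lit 2) (nat_lit 9) (.e true (nat_lit 3) (nat_lit 291) (nat_lit 2) (nat_lit 9) (.e false (nat_lit 2) (nat_lit 292) (nat_lit 2) (nat_lit 9) (.e true (nat_lit 1) (nat_lit 293) (nat_lit 2) (nat_lit 9) (.e false (nat_lit 3) (nat_lit 294) (nat_lit 2) (nat_lit 9) (.e true (nat_lit 3) (nat_lit 295) (nat_lit 2) (nat_lit 9) (.e false (nat_lit 3) (nat_lit 298) (nat_lit 2) (nat_lit 9) (.e true (nat_lit 1) (nat_lit 303) (nat_lit 2) (nat_lit 9) (.e false (nat_lit 1) (nat_lit 194) (nat_lit 6) (nat_lit 7) (.e false (nat_lit 2) (nat_lit 290) (nat_lit 2) (nat_lit 9) (.e false (nat_lit 1) (nat_lit 299) (nat_lit 2) (nat_lit 9) (.e false (nat_lit 2) (nat_lit 300) (nat_lit 2) (nat_lit 9) (.e true (nat_lit 2) (nat_lit 301) (nat_lit 2) (nat_lit 9) (.u (nat_lit 2) (.n (nat_lit 1) (nat_lit 1) (.p (nat_lit 3) (nat_lit 1) (.p (nat_lit 4) (nat_lit 1) (.n (nat_lit 5) (nat_lit 2) (.n (nat_lit 8) (nat_lit 1) (.p (nat_lit 9) (nat_lit 2) (.n (nat_lit 14) (nat_lit 1) (.n (nat_lit 80) (nat_lit 1) (.p (nat_lit 82) (nat_lit 1) (.n (nat_lit 83) (nat_lit 1) .z)))))))))) .nil))))))))))))))))) .leaf) (nat_lit 47104) (nat_lit 131) (.p (nat_lit 82) (nat_lit 1) (.n (nat_lit 83) (nat_lit 1) (.p (nat_lit 84) (nat_lit 1) (.p (nat_lit 86) (nat_lit 1) (.n (nat_lit 87) (nat_lit 1) (.n (nat_lit 88) (nat_lit 1) (.n (nat_lit 89) (nat_lit 1) .z))))))) (.ct dC2b_c275 (nat_lit 1) (nat_lit 6) (.s false (nat_lit 1) (nat_lit 5) (nat_lit 1) (nat_lit 2) (nat_lit 2) true (nat_lit 1) true (nat_lit 4) true (nat_lit 2) true (nat_lit 5) true (nat_lit 4) (.s true (nat_lit 1) (nat_lit 7) (nat_lit 1) (nat_lit 2) (nat_lit 0) true (nat_lit 3) true (nat_lit 6) true (nat_lit 0) true (nat_lit 5) true (nat_lit 4) (.e false (nat_lit 1) (nat_lit 16) (nat_lit 6) (nat_lit 1) (.e false (nat_lit 1) (nat_lit 34) (nat_lit 2) (nat_lit 4) (.e true (nat_lit 1) (nat_lit 18) (nat_lit 5) (nat_lit 2) (.e true (nat_lit 1) (nat_lit 36) (nat_lit 2) (nat_lit 4) (.e true (nat_lit 1) (nat_lit 20) (nat_lit 3) (nat_lit 3) (.e true (nat_lit 1) (nat_lit 13) (nat_lit 7) (nat_lit 0) (.e false (nat_lit 1) (nat_lit 37) (nat_lit 2) (nat_lit 4) .nil)))))))))) (.nd (.nd .leaf (nat_lit 47105) (nat_lit 139) (.p (nat_lit 95) (nat_lit 1) .z) .df .leaf) (nat_lit 47106) (nat_lit 154) (.p (nat_lit 102) (nat_lit 1) .z) .df .leaf)) (nat_lit 47107) (nat_lit 251) (.p (nat_lit 157) (nat_lit 1) .z) .df (.nd (.nd (.nd .leaf (nat_lit 47108) (nat_lit 308) (.p (nat_lit 159) (nat_lit 2) (.n (nat_lit 161) (nat_lit 2) (.n (nat_lit 164) (nat_lit 2) (.p (nat_lit 165) (nat_lit 2) (.n (nat_lit 166) (nat_lit 2) (.p (nat_lit 167) (nat_lit 1) .z)))))) (.ct dC2b_c51 (nat_lit 1) (nat_lit 4) (.s true (nat_lit 1) (nat_lit 6) (nat_lit 4) (nat_lit 2) (nat_lit 2) true (nat_lit 0) true (nat_lit 5) true (nat_lit 3) true (nat_lit 4) true (nat_lit 5) (.s false (nat_lit 1) (nat_lit 14) (nat_lit 1) (nat_lit 2) (nat_lit 2) true (nat_lit 3) true (nat_lit 5) true (nat_lit 0) true (nat_lit 6) true (nat_lit 5) (.e false (nat_lit 2) (nat_lit 75) (nat_lit 2) (nat_lit 5) (.e false (nat_lit 1) (nat_lit 47) (nat_lit 4) (nat_lit 4) (.e true (nat_lit 2) (nat_lit 77) (nat_lit 2) (nat_lit 5) (.e false (nat_lit 1) (nat_lit 79) (nat_lit 2) (nat_lit 5) (.e true (nat_lit 1) (nat_lit 96) (nat_lit 1) (nat_lit 6) .nil)))))))) .leaf) (nat_lit 47109) (nat_lit 343) (.p (nat_lit 169) (nat_lit 2) (.n (nat_lit 170) (nat_lit 3) (.p (nat_lit 172) (nat_lit 1) (.n (nat_lit 173) (nat_lit 2) (.p (nat_lit 175) (nat_lit 1) (.p (nat_lit 176) (nat_lit 2) (.p (nat_lit 177) (nat_lit 1) (.n (nat_lit 178) (nat_lit 1) (.n (nat_lit 179) (nat_lit 3) (.n (nat_lit 180) (nat_lit 1) (.p (nat_lit 182) (nat_lit 2) (.n (nat_lit 184) (nat_lit 1) .z)))))))))))) (.ct dC2b_c276 (nat_lit 1) (nat_lit 4) (.s true (nat_lit 1) (nat_lit 6) (nat_lit 5) (nat_lit 2) (nat_lit 2) true (nat_lit 0) true (nat_lit 6) true (nat_lit 3) true (nat_lit 4) true (nat_lit 6) (.e true (nat_lit 1) (nat_lit 18) (nat_lit 16) (nat_lit 0) (.e true (nat_lit 1) (nat_lit 42) (nat_lit 6) (nat_lit 3) (.e false (nat_lit 1) (nat_lit 47) (nat_lit 5) (nat_lit 4) (.e false (nat_lit 1) (nat_lit 83) (nat_lit 2) (nat_lit 6) (.e true (nat_lit 1) (nat_lit 86) (nat_lit 2) (nat_lit 6) (.e false (nat_lit 1) (nat_lit 89) (nat_lit 2) (nat_lit 6) (.u (nat_lit 2) (.n (nat_lit 0) (nat_lit 1) (.p (nat_lit 1) (nat_lit 1) (.p (nat_lit 4) (nat_lit 1) (.p (nat_lit 9) (nat_lit 1) (.p (nat_lit 10) (nat_lit 1) .z))))) .nil))))))))) .leaf) (nat_lit 47110) (nat_lit 368) (.n (nat_lit 185) (nat_lit 3) (.n (nat_lit 186) (nat_lit 1) (.p (nat_lit 187) (nat_lit 3) (.n (nat_lit 188) (nat_lit 3) (.p (nat_lit 189) (nat_lit 3) (.p (nat_lit 190) (nat_lit 3) (.p (nat_lit 192) (nat_lit 1) (.p (nat_lit 194) (nat_lit 1) .z)))))))) (.ct dC2b_c36 (nat_lit 1) (nat_lit 3) (.s true (nat_lit 1) (nat_lit 19) (nat_lit 1) (nat_lit 2) (nat_lit 2) true (nat_lit 3) true (nat_lit 5) true (nat_lit 0) true (nat_lit 6) true (nat_lit 5) (.a false (nat_lit 1) (nat_lit 18) (nat_lit 19) (nat_lit 0) (nat_lit 0) (.e false (nat_lit 1) (nat_lit 91) (nat_lit 2) (nat_lit 5) (.e true (nat_lit 1) (nat_lit 92) (nat_lit 2) (nat_lit 5) (.e true (nat_lit 1) (nat_lit 93) (nat_lit 2) (nat_lit 5) (.e false (nat_lit 2) (nat_lit 102) (nat_lit 1) (nat_lit 6) (.e true (nat_lit 2) (nat_lit 103) (nat_lit 1) (nat_lit 6) (.e false (nat_lit 1) (nat_lit 95) (nat_lit 2) (nat_lit 5) (.e false (nat_lit 1) (nat_lit 19) (nat_lit 18) (nat_lit 0) (.u (nat_lit 2) (.p (nat_lit 0) (nat_lit 1) (.n (nat_lit 2) (nat_lit 1) .z)) .nil))))))))))) (.nd (.nd .leaf (nat_lit 47111) (nat_lit 394) (.p (nat_lit 201) (nat_lit 2) (.n (nat_lit 202) (nat_lit 2) (.p (nat_lit 204) (nat_lit 1) .z))) (.ct dC2b_c21 (nat_lit 1) (nat_lit 1) (.s false (nat_lit 1) (nat_lit 7) (nat_lit 1) (nat_lit 7) (nat_lit 2) true (nat_lit 2) true (nat_lit 3) true (nat_lit 1) true (nat_lit 4) true (nat_lit 1) (.e false (nat_lit 2) (nat_lit 102) (nat_lit 2) (nat_lit 3) (.e true (nat_lit 2) (nat_lit 103) (nat_lit 2) (nat_lit 3) (.e false (nat_lit 1) (nat_lit 47) (nat_lit 7) (nat_lit 1) .nil))))) .leaf) (nat_lit 47112) (nat_lit 452) (.n (nat_lit 225) (nat_lit 1) (.n (nat_lit 227) (nat_lit 1) (.n (nat_lit 242) (nat_lit 1) (.p (nat_lit 245) (nat_lit 1) (.p (nat_lit 251) (nat_lit 1) .z))))) (.ct dC2b_c307 (nat_lit 1) (nat_lit 6) (.s true (nat_lit 1) (nat_lit 8) (nat_lit 7) (nat_lit 1) (nat_lit 2) true (nat_lit 0) true (nat_lit 12) true (nat_lit 6) true (nat_lit 7) true (nat_lit 13) (.e false (nat_lit 1) (nat_lit 21) (nat_lit 20) (nat_lit 0) (.e true (nat_lit 1) (nat_lit 126) (nat_lit 2) (nat_lit 12) (.e false (nat_lit 1) (nat_lit 59) (nat_lit 7) (nat_lit 7) (.e true (nat_lit 1) (nat_lit 152) (nat_lit 1) (nat_lit 13) .nil)))))) .leaf))) (nat_lit 47113) (nat_lit 552) (.n (nat_lit 205) (nat_lit 2) (.n (nat_lit 206) (nat_lit 1) (.n (nat_lit 207) (nat_lit 1) (.n (nat_lit 208) (nat_lit 3) (.p (nat_lit 209) (nat_lit 2) (.p (nat_lit 211) (nat_lit 1) (.n (nat_lit 212) (nat_lit 1) (.n (nat_lit 213) (nat_lit 1) (.p (nat_lit 214) (nat_lit 1) (.p (nat_lit 215) (nat_lit 1) (.n (nat_lit 216) (nat_lit 3) (.n (nat_lit 217) (nat_lit 3) (.n (nat_lit 227) (nat_lit 1) (.n (nat_lit 228) (nat_lit 3) (.n (nat_lit 230) (nat_lit 1) (.n (nat_lit 242) (nat_lit 3) (.n (nat_lit 243) (nat_lit 3) (.p (nat_lit 246) (nat_lit 1) (.p (nat_lit 251) (nat_lit 2) .z))))))))))))))))))) (.ct dC2b_c307 (nat_lit 1) (nat_lit 6) dC2b_i16) (.nd (.nd (.nd (.nd .leaf (nat_lit 47115) (nat_lit 612) (.n (nat_lit 252) (nat_lit 1) (.n (nat_lit 253) (nat_lit 1) (.p (nat_lit 254) (nat_lit 2) (.p (nat_lit 255) (nat_lit 1) (.n (nat_lit 257) (nat_lit 1) (.p (nat_lit 258) (nat_lit 3) (.n (nat_lit 265) (nat_lit 3) (.p (nat_lit 266) (nat_lit 3) (.n (nat_lit 269) (nat_lit 3) (.p (nat_lit 272) (nat_lit 2) (.n (nat_lit 274) (nat_lit 3) (.n (nat_lit 277) (nat_lit 1) (.n (nat_lit 278) (nat_lit 1) (.p (nat_lit 285) (nat_lit 2) (.n (nat_lit 287) (nat_lit 1) .z))))))))))))))) (.ct dC2b_c292 (nat_lit 1) (nat_lit 4) (.s true (nat_lit 1) (nat_lit 11) (nat_lit 7) (nat_lit 1) (nat_lit 2) true (nat_lit 0) true (nat_lit 11) true (nat_lit 4) true (nat_lit 6) true (nat_lit 12) (.e false (nat_lit 1) (nat_lit 26) (nat_lit 20) (nat_lit 0) (.e true (nat_lit 1) (nat_lit 149) (nat_lit 2) (nat_lit 11) (.e false (nat_lit 1) (nat_lit 73) (nat_lit 7) (nat_lit 6) (.e true (nat_lit 1) (nat_lit 181) (nat_lit 1) (nat_lit 12) (.u (nat_lit 2) (.n (nat_lit 2) (nat_lit 1) (.n (nat_lit 6) (nat_lit 1) (.p (nat_lit 13) (nat_lit 1) (.n (nat_lit 14) (nat_lit 1) (.p (nat_lit 22) (nat_lit 1) .z))))) .nil))))))) .leaf) (nat_lit 47116) (nat_lit 649) (.p (nat_lit 252) (nat_lit 1) (.p (nat_lit 253) (nat_lit 1) (.n (nat_lit 254) (nat_lit 3) (.p (nat_lit 255) (nat_lit 1) (.p (nat_lit 256) (nat_lit 2) (.p (nat_lit 257) (nat_lit 3) (.n (nat_lit 258) (nat_lit 2) (.p (nat_lit 259) (nat_lit 2) (.p (nat_lit 261) (nat_lit 3) (.p (nat_lit 262) (nat_lit 2) (.n (nat_lit 263) (nat_lit 3) (.p (nat_lit 264) (nat_lit 1) (.p (nat_lit 265) (nat_lit 2) (.p (nat_lit 267) (nat_lit 2) (.n (nat_lit 269) (nat_lit 2) (.p (nat_lit 270) (nat_lit 2) (.p (nat_lit 271) (nat_lit 3) (.p (nat_lit 273) (nat_lit 3) (.n (nat_lit 274) (nat_lit 2) (.p (nat_lit 275) (nat_lit 3) (.n (nat_lit 276) (nat_lit 3) (.n (nat_lit 277) (nat_lit 2) (.n (nat_lit 279) (nat_lit 1) (.p (nat_lit 286) (nat_lit 2) (.n (nat_lit 288) (nat_lit 1) .z))))))))))))))))))))))))) (.ct dC2b_c292 (nat_lit 1) (nat_lit 4) (.s true (nat_lit 1) (nat_lit 12) (nat_lit 7) (nat_lit 1) (nat_lit 2) true (nat_lit 0) true (nat_lit 11) true (nat_lit 4) true (nat_lit 6) true (nat_lit 12) (.e false (nat_lit 1) (nat_lit 27) (nat_lit 20) (nat_lit 0) (.e true (nat_lit 1) (nat_lit 150) (nat_lit 2) (nat_lit 11) (.e true (nat_lit 1) (nat_lit 61) (nat_lit 7) (nat_lit 6) (.e false (nat_lit 1) (nat_lit 63) (nat_lit 7) (nat_lit 6) (.e true (nat_lit 1) (nat_lit 66) (nat_lit 7) (nat_lit 6) (.e false (nat_lit 1) (nat_lit 68) (nat_lit 7) (nat_lit 6) (.e false (nat_lit 1) (nat_lit 72) (nat_lit 7) (nat_lit 6) (.e true (nat_lit 1) (nat_lit 182) (nat_lit 1) (nat_lit 12) (.u (nat_lit 2) (.p (nat_lit 6) (nat_lit 1) (.p (nat_lit 11) (nat_lit 1) (.n (nat_lit 13) (nat_lit 1) (.p (nat_lit 22) (nat_lit 1) (.n (nat_lit 23) (nat_lit 1) .z))))) .nil))))))))))) .leaf) (nat_lit 47117) (nat_lit 657) (.n (nat_lit 252) (nat_lit 1) (.p (nat_lit 253) (nat_lit 1) (.n (nat_lit 254) (nat_lit 2) (.n (nat_lit 255) (nat_lit 1) (.n (nat_lit 256) (nat_lit 3) (.p (nat_lit 257) (nat_lit 2) (.p (nat_lit 258) (nat_lit 3) (.p (nat_lit 259) (nat_lit 2) (.p (nat_lit 261) (nat_lit 2) (.p (nat_lit 262) (nat_lit 3) (.p (nat_lit 263) (nat_lit 2) (.p (nat_lit 264) (nat_lit 3) (.p (nat_lit 265) (nat_lit 3) (.n (nat_lit 266) (nat_lit 2) (.p (nat_lit 267) (nat_lit 3) (.n (nat_lit 270) (nat_lit 2) (.n (nat_lit 271) (nat_lit 1) (.p (nat_lit 272) (nat_lit 1) (.n (nat_lit 273) (nat_lit 1) (.p (nat_lit 274) (nat_lit 2) (.p (nat_lit 275) (nat_lit 2) (.p (nat_lit 276) (nat_lit 1) (.p (nat_lit 277) (nat_lit 3) (.n (nat_lit 278) (nat_lit 1) (.n (nat_lit 279) (nat_lit 1) (.n (nat_lit 283) (nat_lit 2) (.p (nat_lit 284) (nat_lit 1) (.n (nat_lit 285) (nat_lit 3) (.n (nat_lit 287) (nat_lit 1) (.n (nat_lit 288) (nat_lit 1) .z)))))))))))))))))))))))))))))) (.ct dC2b_c292 (nat_lit 1) (nat_lit 4) (.s false (nat_lit 1) (nat_lit 13) (nat_lit 2) (nat_lit 1) (nat_lit 7) true (nat_lit 0) true (nat_lit 6) true (nat_lit 4) true (nat_lit 11) true (nat_lit 12) (.e true (nat_lit 1) (nat_lit 28) (nat_lit 20) (nat_lit 0) dC2b_i17))) (.nd (.nd .leaf (nat_lit 47118) (nat_lit 725) (.p (nat_lit 289) (nat_lit 3) (.n (nat_lit 290) (nat_lit 2) (.n (nat_lit 291) (nat_lit 1) (.n (nat_lit 292) (nat_lit 1) (.p (nat_lit 293) (nat_lit 1) (.p (nat_lit 294) (nat_lit 1) (.p (nat_lit 295) (nat_lit 2) (.n (nat_lit 296) (nat_lit 2) (.n (nat_lit 298) (nat_lit 1) (.p (nat_lit 300) (nat_lit 2) (.n (nat_lit 301) (nat_lit 2) (.p (nat_lit 303) (nat_lit 1) .z)))))))))))) (.ct dC2b_c52 (nat_lit 1) (nat_lit 2) (.s true (nat_lit 1) (nat_lit 14) (nat_lit 7) (nat_lit 1) (nat_lit 2) true (nat_lit 0) true (nat_lit 7) true (nat_lit 2) true (nat_lit 4) true (nat_lit 8) (.e false (nat_lit 1) (nat_lit 31) (nat_lit 20) (nat_lit 0) (.e true (nat_lit 1) (nat_lit 166) (nat_lit 2) (nat_lit 7) (.e true (nat_lit 2) (nat_lit 74) (nat_lit 7) (nat_lit 4) (.e true (nat_lit 1) (nat_lit 75) (nat_lit 7) (nat_lit 4) (.e false (nat_lit 3) (nat_lit 76) (nat_lit 7) (nat_lit 4) (.e false (nat_lit 3) (nat_lit 77) (nat_lit 7) (nat_lit 4) (.e true (nat_lit 3) (nat_lit 78) (nat_lit 7) (nat_lit 4) (.e true (nat_lit 3) (nat_lit 79) (nat_lit 7) (nat_lit 4) (.e true (nat_lit 1) (nat_lit 194) (nat_lit 1) (nat_lit 8) (.u (nat_lit 2) (.n (nat_lit 0) (nat_lit 1) (.n (nat_lit 1) (nat_lit 1) (.p (nat_lit 2) (nat_lit 3) (.p (nat_lit 3) (nat_lit 2) (.p (nat_lit 4) (nat_lit 2) (.p (nat_lit 5) (nat_lit 2) (.n (nat_lit 9) (nat_lit 3) (.p (nat_lit 14) (nat_lit 3) .z)))))))) .nil)))))))))))) .leaf) (nat_lit 47119) (nat_lit 744) (.n (nat_lit 289) (nat_lit 3) (.p (nat_lit 290) (nat_lit 3) (.p (nat_lit 291) (nat_lit 1) (.p (nat_lit 292) (nat_lit 1) (.n (nat_lit 293) (nat_lit 3) (.n (nat_lit 294) (nat_lit 2) (.n (nat_lit 295) (nat_lit 2) (.p (nat_lit 296) (nat_lit 2) (.p (nat_lit 297) (nat_lit 3) (.n (nat_lit 298) (nat_lit 2) (.n (nat_lit 299) (nat_lit 1) (.n (nat_lit 300) (nat_lit 1) (.p (nat_lit 301) (nat_lit 3) (.p (nat_lit 303) (nat_lit 1) .z)))))))))))))) (.ct dC2b_c52 (nat_lit 1) (nat_lit 2) (.s false (nat_lit 1) (nat_lit 46) (nat_lit 2) (nat_lit 1) (nat_lit 1) true (nat_lit 5) true (nat_lit 8) false (nat_lit 2) true (nat_lit 7) true (nat_lit 8) (.e false (nat_lit 1) (nat_lit 95) (nat_lit 6) (nat_lit 5) (.e false (nat_lit 1) (nat_lit 192) (nat_lit 1) (nat_lit 8) (.e true (nat_lit 2) (nat_lit 159) (nat_lit 2) (nat_lit 7) (.e false (nat_lit 2) (nat_lit 161) (nat_lit 2) (nat_lit 7) (.e false (nat_lit 2) (nat_lit 164) (nat_lit 2) (nat_lit 7) (.e true (nat_lit 2) (nat_lit 165) (nat_lit 2) (nat_lit 7) (.e false (nat_lit 2) (nat_lit 166) (nat_lit 2) (nat_lit 7) (.e true (nat_lit 1) (nat_lit 167) (nat_lit 2) (nat_lit 7) (.e true (nat_lit 1) (nat_lit 189) (nat_lit 1) (nat_lit 8) (.u (nat_lit 2) (.p (nat_lit 0) (nat_lit 1) (.n (nat_lit 1) (nat_lit 1) (.n (nat_lit 2) (nat_lit 1) (.p (nat_lit 4) (nat_lit 1) (.p (nat_lit 6) (nat_lit 1) (.n (nat_lit 7) (nat_lit 1) (.n (nat_lit 8) (nat_lit 1) (.p (nat_lit 9) (nat_lit 1) (.n (nat_lit 14) (nat_lit 1) (.p (nat_lit 15) (nat_lit 1) .z)))))))))) .nil)))))))))))) .leaf)) (nat_lit 47120) (nat_lit 811) (.p (nat_lit 306) (nat_lit 1) (.n (nat_lit 310) (nat_lit 1) (.p (nat_lit 311) (nat_lit 1) (.n (nat_lit 312) (nat_lit 1) (.n (nat_lit 313) (nat_lit 3) (.p (nat_lit 314) (nat_lit 1) (.n (nat_lit 315) (nat_lit 3) (.n (nat_lit 316) (nat_lit 2) (.p (nat_lit 317) (nat_lit 1) (.n (nat_lit 320) (nat_lit 1) (.n (nat_lit 321) (nat_lit 1) (.p (nat_lit 322) (nat_lit 1) .z)))))))))))) (.ct dC2b_c277 (nat_lit 1) (nat_lit 2) (.s false (nat_lit 1) (nat_lit 16) (nat_lit 2) (nat_lit 1) (nat_lit 7) true (nat_lit 0) true (nat_lit 4) true (nat_lit 2) true (nat_lit 8) true (nat_lit 9) (.e true (nat_lit 1) (nat_lit 36) (nat_lit 20) (nat_lit 0) (.e false (nat_lit 1) (nat_lit 86) (nat_lit 7) (nat_lit 4) (.e false (nat_lit 1) (nat_lit 47) (nat_lit 16) (nat_lit 2) (.e false (nat_lit 1) (nat_lit 169) (nat_lit 2) (nat_lit 8) (.e true (nat_lit 1) (nat_lit 170) (nat_lit 2) (nat_lit 8) (.e false (nat_lit 1) (nat_lit 172) (nat_lit 2) (nat_lit 8) (.e true (nat_lit 1) (nat_lit 173) (nat_lit 2) (nat_lit 8) (.e true (nat_lit 2) (nat_lit 174) (nat_lit 2) (nat_lit 8) (.e true (nat_lit 1) (nat_lit 176) (nat_lit 2) (nat_lit 8) (.e false (nat_lit 1) (nat_lit 179) (nat_lit 2) (nat_lit 8) (.e true (nat_lit 1) (nat_lit 180) (nat_lit 2) (nat_lit 8) (.e true (nat_lit 1) (nat_lit 184) (nat_lit 2) (nat_lit 8) (.e true (nat_lit 1) (nat_lit 196) (nat_lit 1) (nat_lit 9) (.e true (nat_lit 1) (nat_lit 197) (nat_lit 1) (nat_lit 9) (.u (nat_lit 2) (.p (nat_lit 3) (nat_lit 1) (.p (nat_lit 5) (nat_lit 1) (.n (nat_lit 6) (nat_lit 1) (.n (nat_lit 7) (nat_lit 1) (.p (nat_lit 8) (nat_lit 1) (.n (nat_lit 10) (nat_lit 1) .z)))))) .nil))))))))))))))))) (.nd (.nd (.nd .leaf (nat_lit 47121) (nat_lit 794) (.n (nat_lit 305) (nat_lit 2) (.p (nat_lit 306) (nat_lit 3) (.p (nat_lit 307) (nat_lit 2) (.n (nat_lit 308) (nat_lit 1) (.p (nat_lit 309) (nat_lit 1) (.n (nat_lit 310) (nat_lit 3) (.n (nat_lit 311) (nat_lit 3) (.p (nat_lit 313) (nat_lit 3) (.p (nat_lit 315) (nat_lit 1) (.p (nat_lit 316) (nat_lit 3) (.n (nat_lit 317) (nat_lit 1) (.n (nat_lit 320) (nat_lit 2) (.n (nat_lit 321) (nat_lit 3) (.p (nat_lit 323) (nat_lit 1) .z)))))))))))))) (.ct dC2b_c277 (nat_lit 1) (nat_lit 2) (.s false (nat_lit 1) (nat_lit 17) (nat_lit 1) (nat_lit 2) (nat_lit 7) true (nat_lit 1) true (nat_lit 4) true (nat_lit 2) true (nat_lit 9) true (nat_lit 8) (.e true (nat_lit 1) (nat_lit 43) (nat_lit 19) (nat_lit 1) (.e false (nat_lit 1) (nat_lit 84) (nat_lit 7) (nat_lit 4) (.e false (nat_lit 1) (nat_lit 47) (nat_lit 17) (nat_lit 2) (.e false (nat_lit 1) (nat_lit 199) (nat_lit 1) (nat_lit 9) (.e false (nat_lit 2) (nat_lit 169) (nat_lit 2) (nat_lit 8) (.e false (nat_lit 3) (nat_lit 170) (nat_lit 2) (nat_lit 8) (.e true (nat_lit 2) (nat_lit 173) (nat_lit 2) (nat_lit 8) (.e true (nat_lit 2) (nat_lit 174) (nat_lit 2) (nat_lit 8) (.e false (nat_lit 2) (nat_lit 175) (nat_lit 2) (nat_lit 8) (.e true (nat_lit 2) (nat_lit 180) (nat_lit 2) (nat_lit 8) (.e false (nat_lit 2) (nat_lit 182) (nat_lit 2) (nat_lit 8) (.e true (nat_lit 2) (nat_lit 184) (nat_lit 2) (nat_lit 8) (.e false (nat_lit 2) (nat_lit 172) (nat_lit 2) (nat_lit 8) (.u (nat_lit 2) (.n (nat_lit 0) (nat_lit 1) (.n (nat_lit 1) (nat_lit 1) (.p (nat_lit 2) (nat_lit 1) (.p (nat_lit 3) (nat_lit 2) (.p (nat_lit 4) (nat_lit 1) (.p (nat_lit 5) (nat_lit 1) (.p (nat_lit 6) (nat_lit 1) (.n (nat_lit 10) (nat_lit 1) (.n (nat_lit 11) (nat_lit 1) (.p (nat_lit 12) (nat_lit 1) (.n (nat_lit 60) (nat_lit 2) (.p (nat_lit 61) (nat_lit 1) (.p (nat_lit 65) (nat_lit 2) .z))))))))))))) .nil)))))))))))))))) .leaf) (nat_lit 47122) (nat_lit 829) (.p (nat_lit 324) (nat_lit 3) (.p (nat_lit 325) (nat_lit 3) (.p (nat_lit 326) (nat_lit 1) (.n (nat_lit 327) (nat_lit 1) (.p (nat_lit 328) (nat_lit 2) (.p (nat_lit 329) (nat_lit 2) (.n (nat_lit 330) (nat_lit 2) (.p (nat_lit 333) (nat_lit 1) (.p (nat_lit 334) (nat_lit 1) .z))))))))) (.ct dC2b_c37 (nat_lit 1) (nat_lit 1) (.s false (nat_lit 1) (nat_lit 46) (nat_lit 2) (nat_lit 1) (nat_lit 2) true (nat_lit 3) true (nat_lit 6) false (nat_lit 1) true (nat_lit 6) true (nat_lit 7) (.e false (nat_lit 1) (nat_lit 95) (nat_lit 7) (nat_lit 3) (.e false (nat_lit 3) (nat_lit 185) (nat_lit 2) (nat_lit 6) (.e false (nat_lit 1) (nat_lit 186) (nat_lit 2) (nat_lit 6) (.e true (nat_lit 3) (nat_lit 187) (nat_lit 2) (nat_lit 6) (.e false (nat_lit 3) (nat_lit 188) (nat_lit 2) (nat_lit 6) (.e true (nat_lit 3) (nat_lit 189) (nat_lit 2) (nat_lit 6) (.e true (nat_lit 3) (nat_lit 190) (nat_lit 2) (nat_lit 6) (.e true (nat_lit 1) (nat_lit 194) (nat_lit 2) (nat_lit 6) (.e true (nat_lit 1) (nat_lit 201) (nat_lit 1) (nat_lit 7) (.u (nat_lit 2) (.n (nat_lit 2) (nat_lit 1) (.p (nat_lit 3) (nat_lit 1) (.n (nat_lit 4) (nat_lit 1) (.n (nat_lit 5) (nat_lit 1) .z)))) .nil)))))))))))) .leaf) (nat_lit 47123) (nat_lit 831) (.p (nat_lit 324) (nat_lit 1) (.p (nat_lit 326) (nat_lit 3) (.n (nat_lit 327) (nat_lit 3) (.p (nat_lit 329) (nat_lit 3) (.n (nat_lit 330) (nat_lit 2) (.n (nat_lit 331) (nat_lit 1) (.p (nat_lit 333) (nat_lit 2) (.p (nat_lit 334) (nat_lit 1) .z)))))))) (.ct dC2b_c37 (nat_lit 1) (nat_lit 1) (.s false (nat_lit 1) (nat_lit 46) (nat_lit 2) (nat_lit 2) (nat_lit 1) true (nat_lit 4) true (nat_lit 7) false (nat_lit 1) true (nat_lit 6) true (nat_lit 6) (.e false (nat_lit 1) (nat_lit 102) (nat_lit 6) (nat_lit 4) (.e false (nat_lit 1) (nat_lit 201) (nat_lit 1) (nat_lit 7) (.e false (nat_lit 3) (nat_lit 185) (nat_lit 2) (nat_lit 6) (.e false (nat_lit 1) (nat_lit 186) (nat_lit 2) (nat_lit 6) (.e true (nat_lit 3) (nat_lit 187) (nat_lit 2) (nat_lit 6) (.e false (nat_lit 3) (nat_lit 188) (nat_lit 2) (nat_lit 6) (.e false (nat_lit 3) (nat_lit 189) (nat_lit 2) (nat_lit 6) (.e true (nat_lit 3) (nat_lit 190) (nat_lit 2) (nat_lit 6) (.e true (nat_lit 1) (nat_lit 192) (nat_lit 2) (nat_lit 6) (.e true (nat_lit 1) (nat_lit 194) (nat_lit 2) (nat_lit 6) (.u (nat_lit 2) (.n (nat_lit 2) (nat_lit 1) (.p (nat_lit 3) (nat_lit 1) (.n (nat_lit 5) (nat_lit 1) (.n (nat_lit 37) (nat_lit 1) .z)))) .nil))))))))))))) (.nd .leaf (nat_lit 47128) (nat_lit 1019) (.p (nat_lit 335) (nat_lit 2) (.n (nat_lit 336) (nat_lit 1) (.n (nat_lit 337) (nat_lit 2) (.n (nat_lit 338) (nat_lit 2) (.p (nat_lit 339) (nat_lit 1) (.n (nat_lit 341) (nat_lit 1) (.n (nat_lit 342) (nat_lit 3) (.n (nat_lit 343) (nat_lit 3) (.p (nat_lit 344) (nat_lit 3) (.p (nat_lit 345) (nat_lit 1) (.p (nat_lit 346) (nat_lit 1) (.n (nat_lit 347) (nat_lit 2) (.p (nat_lit 349) (nat_lit 2) (.n (nat_lit 350) (nat_lit 3) (.n (nat_lit 351) (nat_lit 3) (.p (nat_lit 352) (nat_lit 1) (.p (nat_lit 353) (nat_lit 1) (.p (nat_lit 354) (nat_lit 1) (.n (nat_lit 355) (nat_lit 3) (.p (nat_lit 356) (nat_lit 3) (.n (nat_lit 357) (nat_lit 3) (.p (nat_lit 358) (nat_lit 1) (.p (nat_lit 359) (nat_lit 1) (.p (nat_lit 360) (nat_lit 1) (.n (nat_lit 362) (nat_lit 1) (.n (nat_lit 363) (nat_lit 2) (.p (nat_lit 364) (nat_lit 3) (.n (nat_lit 366) (nat_lit 2) (.p (nat_lit 367) (nat_lit 2) (.p (nat_lit 368) (nat_lit 2) (.n (nat_lit 369) (nat_lit 2) (.p (nat_lit 370) (nat_lit 2) (.p (nat_lit 371) (nat_lit 1) (.p (nat_lit 372) (nat_lit 2) (.n (nat_lit 373) (nat_lit 2) (.n (nat_lit 374) (nat_lit 3) (.n (nat_lit 375) (nat_lit 1) (.p (nat_lit 377) (nat_lit 2) (.n (nat_lit 379) (nat_lit 1) (.n (nat_lit 380) (nat_lit 2) (.n (nat_lit 381) (nat_lit 2) (.p (nat_lit 382) (nat_lit 3) (.p (nat_lit 383) (nat_lit 3) (.n (nat_lit 390) (nat_lit 2) .z)))))))))))))))))))))))))))))))))))))))))))) (.ct dC2b_c308 (nat_lit 1) (nat_lit 2) (.s false (nat_lit 1) (nat_lit 24) (nat_lit 1) (nat_lit 7) (nat_lit 2) true (nat_lit 12) true (nat_lit 16) true (nat_lit 2) true (nat_lit 17) true (nat_lit 11) (.e true (nat_lit 1) (nat_lit 152) (nat_lit 6) (nat_lit 12) (.e false (nat_lit 1) (nat_lit 248) (nat_lit 2) (nat_lit 16) (.e true (nat_lit 1) (nat_lit 272) (nat_lit 1) (nat_lit 17) (.e false (nat_lit 1) (nat_lit 283) (nat_lit 1) (nat_lit 17) (.e false (nat_lit 1) (nat_lit 117) (nat_lit 7) (nat_lit 11) (.u (nat_lit 2) (.p (nat_lit 3) (nat_lit 1) (.p (nat_lit 8) (nat_lit 1) (.n (nat_lit 10) (nat_lit 1) (.n (nat_lit 11) (nat_lit 1) (.n (nat_lit 12) (nat_lit 1) (.p (nat_lit 15) (nat_lit 1) (.n (nat_lit 17) (nat_lit 1) (.n (nat_lit 18) (nat_lit 1) (.n (nat_lit 23) (nat_lit 1) (.n (nat_lit 26) (nat_lit 1) (.n (nat_lit 29) (nat_lit 1) (.p (nat_lit 31) (nat_lit 1) (.n (nat_lit 33) (nat_lit 1) (.p (nat_lit 34) (nat_lit 1) (.n (nat_lit 35) (nat_lit 1) (.n (nat_lit 36) (nat_lit 1) (.p (nat_lit 38) (nat_lit 1) (.n (nat_lit 47) (nat_lit 1) .z)))))))))))))))))) .nil)))))))) .leaf)))) (nat_lit 47129) (nat_lit 1039) (.p (nat_lit 335) (nat_lit 3) (.n (nat_lit 338) (nat_lit 1) (.p (nat_lit 339) (nat_lit 1) (.p (nat_lit 340) (nat_lit 2) (.p (nat_lit 341) (nat_lit 1) (.n (nat_lit 342) (nat_lit 3) (.p (nat_lit 343) (nat_lit 1) (.p (nat_lit 345) (nat_lit 3) (.p (nat_lit 346) (nat_lit 2) (.p (nat_lit 347) (nat_lit 1) (.n (nat_lit 349) (nat_lit 1) (.n (nat_lit 350) (nat_lit 1) (.p (nat_lit 352) (nat_lit 3) (.p (nat_lit 355) (nat_lit 2) (.p (nat_lit 356) (nat_lit 3) (.n (nat_lit 357) (nat_lit 3) (.n (nat_lit 358) (nat_lit 3) (.p (nat_lit 359) (nat_lit 1) (.p (nat_lit 360) (nat_lit 3) (.p (nat_lit 361) (nat_lit 3) (.p (nat_lit 362) (nat_lit 1) (.p (nat_lit 363) (nat_lit 1) (.n (nat_lit 364) (nat_lit 3) (.n (nat_lit 366) (nat_lit 2) (.n (nat_lit 367) (nat_lit 2) (.p (nat_lit 368) (nat_lit 3) (.n (nat_lit 369) (nat_lit 3) (.p (nat_lit 370) (nat_lit 2) (.p (nat_lit 371) (nat_lit 1) (.p (nat_lit 372) (nat_lit 2) (.n (nat_lit 373) (nat_lit 3) (.p (nat_lit 374) (nat_lit 2) (.n (nat_lit 375) (nat_lit 2) (.n (nat_lit 377) (nat_lit 3) (.n (nat_lit 379) (nat_lit 2) (.p (nat_lit 381) (nat_lit 1) (.n (nat_lit 382) (nat_lit 1) (.n (nat_lit 383) (nat_lit 1) (.p (nat_lit 390) (nat_lit 3) .z))))))))))))))))))))))))))))))))))))))) (.ct dC2b_c308 (nat_lit 1) (nat_lit 2) (.s true (nat_lit 1) (nat_lit 25) (nat_lit 2) (nat_lit 2) (nat_lit 6) true (nat_lit 5) true (nat_lit 12) true (nat_lit 2) true (nat_lit 16) true (nat_lit 16) (.e false (nat_lit 1) (nat_lit 61) (nat_lit 18) (nat_lit 5) (.e true (nat_lit 1) (nat_lit 133) (nat_lit 6) (nat_lit 12) (.e false (nat_lit 1) (nat_lit 47) (nat_lit 25) (nat_lit 2) (.e false (nat_lit 1) (nat_lit 217) (nat_lit 2) (nat_lit 16) (.e true (nat_lit 1) (nat_lit 232) (nat_lit 2) (nat_lit 16) (.e false (nat_lit 1) (nat_lit 249) (nat_lit 2) (nat_lit 16) (.u (nat_lit 2) (.n (nat_lit 1) (nat_lit 1) (.p (nat_lit 2) (nat_lit 1) (.n (nat_lit 4) (nat_lit 1) (.p (nat_lit 5) (nat_lit 1) (.p (nat_lit 6) (nat_lit 1) (.p (nat_lit 7) (nat_lit 1) (.n (nat_lit 10) (nat_lit 1) (.n (nat_lit 12) (nat_lit 1) (.p (nat_lit 14) (nat_lit 1) (.n (nat_lit 16) (nat_lit 1) (.n (nat_lit 18) (nat_lit 1) (.n (nat_lit 19) (nat_lit 1) (.p (nat_lit 28) (nat_lit 1) (.p (nat_lit 29) (nat_lit 2) (.n (nat_lit 33) (nat_lit 1) (.n (nat_lit 35) (nat_lit 1) (.p (nat_lit 38) (nat_lit 1) (.p (nat_lit 42) (nat_lit 1) (.n (nat_lit 45) (nat_lit 1) (.n (nat_lit 48) (nat_lit 1) (.n (nat_lit 55) (nat_lit 1) .z))))))))))))))))))))) .nil))))))))) (.nd (.nd (.nd (.nd (.nd .leaf (nat_lit 47130) (nat_lit 990) (.n (nat_lit 335) (nat_lit 3) (.p (nat_lit 336) (nat_lit 3) (.n (nat_lit 337) (nat_lit 1) (.p (nat_lit 338) (nat_lit 2) (.n (nat_lit 339) (nat_lit 3) (.n (nat_lit 340) (nat_lit 2) (.n (nat_lit 346) (nat_lit 2) (.n (nat_lit 347) (nat_lit 2) (.n (nat_lit 349) (nat_lit 1) (.p (nat_lit 350) (nat_lit 3) (.n (nat_lit 351) (nat_lit 1) (.p (nat_lit 352) (nat_lit 1) (.p (nat_lit 353) (nat_lit 1) (.n (nat_lit 354) (nat_lit 2) (.p (nat_lit 355) (nat_lit 2) (.p (nat_lit 356) (nat_lit 2) (.n (nat_lit 357) (nat_lit 2) (.n (nat_lit 358) (nat_lit 3) (.n (nat_lit 359) (nat_lit 2) (.p (nat_lit 360) (nat_lit 2) (.n (nat_lit 361) (nat_lit 3) (.n (nat_lit 362) (nat_lit 1) (.p (nat_lit 363) (nat_lit 1) (.n (nat_lit 364) (nat_lit 1) (.p (nat_lit 366) (nat_lit 1) (.n (nat_lit 367) (nat_lit 3) (.n (nat_lit 368) (nat_lit 2) (.n (nat_lit 369) (nat_lit 3) (.n (nat_lit 370) (nat_lit 2) (.n (nat_lit 371) (nat_lit 2) (.p (nat_lit 373) (nat_lit 2) (.n (nat_lit 374) (nat_lit 2) (.p (nat_lit 380) (nat_lit 3) (.p (nat_lit 381) (nat_lit 2) (.n (nat_lit 382) (nat_lit 1) (.n (nat_lit 383) (nat_lit 3) (.p (nat_lit 384) (nat_lit 2) (.p (nat_lit 386) (nat_lit 2) (.n (nat_lit 391) (nat_lit 2) .z))))))))))))))))))))))))))))))))))))))) (.ct dC2b_c308 (nat_lit 1) (nat_lit 2) (.s false (nat_lit 1) (nat_lit 26) (nat_lit 1) (nat_lit 7) (nat_lit 2) true (nat_lit 12) true (nat_lit 16) true (nat_lit 2) true (nat_lit 17) true (nat_lit 11) (.e true (nat_lit 1) (nat_lit 154) (nat_lit 6) (nat_lit 12) (.e false (nat_lit 1) (nat_lit 205) (nat_lit 2) (nat_lit 16) (.e false (nat_lit 3) (nat_lit 206) (nat_lit 2) (nat_lit 16) (.e false (nat_lit 3) (nat_lit 207) (nat_lit 2) (nat_lit 16) (.e true (nat_lit 2) (nat_lit 208) (nat_lit 2) (nat_lit 16) (.e false (nat_lit 2) (nat_lit 210) (nat_lit 2) (nat_lit 16) (.e true (nat_lit 1) (nat_lit 211) (nat_lit 2) (nat_lit 16) (.e false (nat_lit 1) (nat_lit 213) (nat_lit 2) (nat_lit 16) (.e false (nat_lit 1) (nat_lit 215) (nat_lit 2) (nat_lit 16) (.e false (nat_lit 1) (nat_lit 217) (nat_lit 2) (nat_lit 16) (.e true (nat_lit 1) (nat_lit 225) (nat_lit 2) (nat_lit 16) (.e false (nat_lit 3) (nat_lit 227) (nat_lit 2) (nat_lit 16) (.e false (nat_lit 3) (nat_lit 228) (nat_lit 2) (nat_lit 16) (.e true (nat_lit 3) (nat_lit 246) (nat_lit 2) (nat_lit 16) (.e true (nat_lit 3) (nat_lit 247) (nat_lit 2) (nat_lit 16) (.e false (nat_lit 1) (nat_lit 248) (nat_lit 2) (nat_lit 16) (.e true (nat_lit 1) (nat_lit 274) (nat_lit 1) (nat_lit 17) (.e false (nat_lit 1) (nat_lit 285) (nat_lit 1) (nat_lit 17) (.e false (nat_lit 1) (nat_lit 119) (nat_lit 7) (nat_lit 11) (.u (nat_lit 2) (.p (nat_lit 0) (nat_lit 5) (.p (nat_lit 1) (nat_lit 1) (.n (nat_lit 3) (nat_lit 1) (.p (nat_lit 4) (nat_lit 1) (.p (nat_lit 5) (nat_lit 4) (.p (nat_lit 6) (nat_lit 2) (.n (nat_lit 7) (nat_lit 2) (.p (nat_lit 9) (nat_lit 1) (.n (nat_lit 10) (nat_lit 2) (.p (nat_lit 11) (nat_lit 2) (.p (nat_lit 12) (nat_lit 1) (.p (nat_lit 14) (nat_lit 4) (.p (nat_lit 15) (nat_lit 2) (.p (nat_lit 16) (nat_lit 2) (.p (nat_lit 17) (nat_lit 3) (.p (nat_lit 18) (nat_lit 2) (.n (nat_lit 19) (nat_lit 1) (.p (nat_lit 20) (nat_lit 1) (.n (nat_lit 21) (nat_lit 3) (.p (nat_lit 22) (nat_lit 3) (.n (nat_lit 23) (nat_lit 2) (.p (nat_lit 24) (nat_lit 2) (.p (nat_lit 25) (nat_lit 2) (.n (nat_lit 26) (nat_lit 1) (.p (nat_lit 27) (nat_lit 1) (.n (nat_lit 28) (nat_lit 1) (.n (nat_lit 29) (nat_lit 2) (.p (nat_lit 31) (nat_lit 2) (.n (nat_lit 32) (nat_lit 2) (.n (nat_lit 36) (nat_lit 3) (.p (nat_lit 37) (nat_lit 1) (.p (nat_lit 47) (nat_lit 1) (.p (nat_lit 48) (nat_lit 2) .z))))))))))))))))))))))))))))))))) .nil)))))))))))))))))))))) .leaf) (nat_lit 47131) (nat_lit 1000) (.p (nat_lit 335) (nat_lit 2) (.n (nat_lit 338) (nat_lit 2) (.p (nat_lit 339) (nat_lit 3) (.n (nat_lit 341) (nat_lit 2) (.p (nat_lit 342) (nat_lit 3) (.n (nat_lit 343) (nat_lit 3) (.n (nat_lit 344) (nat_lit 1) (.n (nat_lit 345) (nat_lit 1) (.n (nat_lit 346) (nat_lit 2) (.p (nat_lit 349) (nat_lit 2) (.n (nat_lit 350) (nat_lit 2) (.n (nat_lit 352) (nat_lit 1) (.n (nat_lit 353) (nat_lit 3) (.n (nat_lit 354) (nat_lit 1) (.p (nat_lit 355) (nat_lit 1) (.n (nat_lit 356) (nat_lit 2) (.p (nat_lit 357) (nat_lit 2) (.p (nat_lit 358) (nat_lit 2) (.p (nat_lit 359) (nat_lit 3) (.p (nat_lit 360) (nat_lit 1) (.n (nat_lit 361) (nat_lit 3) (.n (nat_lit 362) (nat_lit 3) (.p (nat_lit 363) (nat_lit 2) (.n (nat_lit 364) (nat_lit 2) (.p (nat_lit 367) (nat_lit 1) (.p (nat_lit 371) (nat_lit 2) (.n (nat_lit 372) (nat_lit 2) (.p (nat_lit 374) (nat_lit 1) (.n (nat_lit 380) (nat_lit 1) (.n (nat_lit 381) (nat_lit 3) (.n (nat_lit 382) (nat_lit 1) (.n (nat_lit 383) (nat_lit 3) (.p (nat_lit 385) (nat_lit 2) (.p (nat_lit 387) (nat_lit 2) (.n (nat_lit 392) (nat_lit 2) .z))))))))))))))))))))))))))))))))))) (.ct dC2b_c308 (nat_lit 1) (nat_lit 2) (.s false (nat_lit 1) (nat_lit 27) (nat_lit 1) (nat_lit 7) (nat_lit 2) true (nat_lit 12) true (nat_lit 16) true (nat_lit 2) true (nat_lit 17) true (nat_lit 11) (.e true (nat_lit 1) (nat_lit 155) (nat_lit 6) (nat_lit 12) (.e false (nat_lit 1) (nat_lit 250) (nat_lit 2) (nat_lit 16) (.e true (nat_lit 1) (nat_lit 275) (nat_lit 1) (nat_lit 17) (.e false (nat_lit 1) (nat_lit 286) (nat_lit 1) (nat_lit 17) (.e false (nat_lit 1) (nat_lit 120) (nat_lit 7) (nat_lit 11) (.u (nat_lit 2) (.p (nat_lit 5) (nat_lit 1) (.p (nat_lit 8) (nat_lit 1) (.n (nat_lit 10) (nat_lit 1) (.n (nat_lit 12) (nat_lit 1) (.p (nat_lit 16) (nat_lit 1) (.p (nat_lit 17) (nat_lit 1) (.n (nat_lit 24) (nat_lit 1) (.p (nat_lit 27) (nat_lit 1) (.p (nat_lit 31) (nat_lit 1) (.n (nat_lit 32) (nat_lit 1) (.n (nat_lit 33) (nat_lit 1) (.n (nat_lit 35) (nat_lit 1) (.p (nat_lit 36) (nat_lit 1) (.p (nat_lit 38) (nat_lit 1) (.p (nat_lit 39) (nat_lit 1) (.p (nat_lit 45) (nat_lit 1) (.p (nat_lit 46) (nat_lit 1) .z))))))))))))))))) .nil)))))))) .leaf) (nat_lit 47132) (nat_lit 1094) (.p (nat_lit 335) (nat_lit 3) (.n (nat_lit 336) (nat_lit 2) (.p (nat_lit 337) (nat_lit 3) (.n (nat_lit 340) (nat_lit 2) (.n (nat_lit 341) (nat_lit 3) (.p (nat_lit 342) (nat_lit 2) (.n (nat_lit 343) (nat_lit 3) (.p (nat_lit 344) (nat_lit 1) (.n (nat_lit 345) (nat_lit 3) (.n (nat_lit 346) (nat_lit 3) (.p (nat_lit 347) (nat_lit 3) (.n (nat_lit 349) (nat_lit 3) (.n (nat_lit 350) (nat_lit 2) (.n (nat_lit 351) (nat_lit 2) (.n (nat_lit 352) (nat_lit 3) (.p (nat_lit 353) (nat_lit 3) (.n (nat_lit 354) (nat_lit 1) (.n (nat_lit 355) (nat_lit 1) (.p (nat_lit 358) (nat_lit 3) (.p (nat_lit 359) (nat_lit 3) (.p (nat_lit 360) (nat_lit 3) (.n (nat_lit 361) (nat_lit 2) (.n (nat_lit 362) (nat_lit 3) (.p (nat_lit 363) (nat_lit 3) (.n (nat_lit 364) (nat_lit 3) (.n (nat_lit 366) (nat_lit 2) (.n (nat_lit 367) (nat_lit 2) (.n (nat_lit 368) (nat_lit 1) (.n (nat_lit 369) (nat_lit 3) (.n (nat_lit 370) (nat_lit 2) (.n (nat_lit 371) (nat_lit 3) (.p (nat_lit 372) (nat_lit 3) (.p (nat_lit 373) (nat_lit 1) (.p (nat_lit 374) (nat_lit 3) (.p (nat_lit 380) (nat_lit 2) (.n (nat_lit 381) (nat_lit 1) (.p (nat_lit 382) (nat_lit 3) (.p (nat_lit 383) (nat_lit 2) (.p (nat_lit 384) (nat_lit 2) (.p (nat_lit 385) (nat_lit 2) (.p (nat_lit 386) (nat_lit 2) (.p (nat_lit 387) (nat_lit 2) (.n (nat_lit 391) (nat_lit 2) (.n (nat_lit 392) (nat_lit 2) .z)))))))))))))))))))))))))))))))))))))))))))) (.ct dC2b_c308 (nat_lit 1) (nat_lit 2) (.s true (nat_lit 1) (nat_lit 28) (nat_lit 2) (nat_lit 2) (nat_lit 6) true (nat_lit 5) true (nat_lit 12) true (nat_lit 2) true (nat_lit 16) true (nat_lit 16) (.e false (nat_lit 1) (nat_lit 64) (nat_lit 18) (nat_lit 5) (.e true (nat_lit 1) (nat_lit 136) (nat_lit 6) (nat_lit 12) (.e false (nat_lit 1) (nat_lit 47) (nat_lit 28) (nat_lit 2) (.e false (nat_lit 2) (nat_lit 207) (nat_lit 2) (nat_lit 16) (.e true (nat_lit 3) (nat_lit 208) (nat_lit 2) (nat_lit 16) (.e true (nat_lit 3) (nat_lit 211) (nat_lit 2) (nat_lit 16) (.e true (nat_lit 1) (nat_lit 212) (nat_lit 2) (nat_lit 16) (.e false (nat_lit 3) (nat_lit 215) (nat_lit 2) (nat_lit 16) (.e true (nat_lit 1) (nat_lit 216) (nat_lit 2) (nat_lit 16) (.e false (nat_lit 2) (nat_lit 217) (nat_lit 2) (nat_lit 16) (.e false (nat_lit 2) (nat_lit 218) (nat_lit 2) (nat_lit 16) (.e false (nat_lit 3) (nat_lit 219) (nat_lit 2) (nat_lit 16) dC2b_i18)))))))))))))) (.nd (.nd .leaf (nat_lit 47133) (nat_lit 1050) (.n (nat_lit 335) (nat_lit 2) (.p (nat_lit 336) (nat_lit 2) (.n (nat_lit 337) (nat_lit 3) (.n (nat_lit 338) (nat_lit 2) (.n (nat_lit 339) (nat_lit 2) (.p (nat_lit 340) (nat_lit 3) (.p (nat_lit 341) (nat_lit 1) (.p (nat_lit 342) (nat_lit 2) (.n (nat_lit 343) (nat_lit 2) (.n (nat_lit 344) (nat_lit 3) (.n (nat_lit 346) (nat_lit 2) (.n (nat_lit 347) (nat_lit 1) (.p (nat_lit 349) (nat_lit 1) (.n (nat_lit 350) (nat_lit 3) (.p (nat_lit 351) (nat_lit 1) (.n (nat_lit 352) (nat_lit 2) (.n (nat_lit 354) (nat_lit 2) (.p (nat_lit 355) (nat_lit 3) (.n (nat_lit 356) (nat_lit 3) (.p (nat_lit 357) (nat_lit 3) (.p (nat_lit 358) (nat_lit 2) (.n (nat_lit 359) (nat_lit 2) (.p (nat_lit 360) (nat_lit 2) (.n (nat_lit 361) (nat_lit 1) (.p (nat_lit 362) (nat_lit 1) (.p (nat_lit 363) (nat_lit 1) (.n (nat_lit 364) (nat_lit 3) (.n (nat_lit 366) (nat_lit 3) (.n (nat_lit 367) (nat_lit 2) (.p (nat_lit 368) (nat_lit 3) (.n (nat_lit 370) (nat_lit 2) (.n (nat_lit 371) (nat_lit 2) (.p (nat_lit 372) (nat_lit 1) (.n (nat_lit 373) (nat_lit 3) (.p (nat_lit 374) (nat_lit 1) (.p (nat_lit 375) (nat_lit 1) (.n (nat_lit 377) (nat_lit 2) (.p (nat_lit 379) (nat_lit 1) (.n (nat_lit 380) (nat_lit 2) (.n (nat_lit 381) (nat_lit 3) (.n (nat_lit 383) (nat_lit 1) (.p (nat_lit 385) (nat_lit 2) (.p (nat_lit 387) (nat_lit 2) (.p (nat_lit 390) (nat_lit 2) (.n (nat_lit 392) (nat_lit 2) .z))))))))))))))))))))))))))))))))))))))))))))) (.ct dC2b_c308 (nat_lit 1) (nat_lit 2) (.s true (nat_lit 1) (nat_lit 46) (nat_lit 2) (nat_lit 1) (nat_lit 3) true (nat_lit 8) true (nat_lit 15) false (nat_lit 2) true (nat_lit 16) true (nat_lit 17) (.e true (nat_lit 1) (nat_lit 95) (nat_lit 11) (nat_lit 8) (.e true (nat_lit 1) (nat_lit 192) (nat_lit 3) (nat_lit 15) (.e true (nat_lit 1) (nat_lit 46) (nat_lit 25) (nat_lit 2) (.e true (nat_lit 1) (nat_lit 46) (nat_lit 26) (nat_lit 2) (.e false (nat_lit 1) (nat_lit 46) (nat_lit 27) (nat_lit 2) (.e true (nat_lit 1) (nat_lit 225) (nat_lit 2) (nat_lit 16) (.e true (nat_lit 1) (nat_lit 227) (nat_lit 2) (nat_lit 16) (.e true (nat_lit 1) (nat_lit 242) (nat_lit 2) (nat_lit 16) (.e false (nat_lit 1) (nat_lit 245) (nat_lit 2) (nat_lit 16) (.e false (nat_lit 1) (nat_lit 251) (nat_lit 2) (nat_lit 16) (.e false (nat_lit 1) (nat_lit 277) (nat_lit 1) (nat_lit 17) (.u (nat_lit 2) (.n (nat_lit 1) (nat_lit 1) (.p (nat_lit 2) (nat_lit 1) (.p (nat_lit 4) (nat_lit 1) (.n (nat_lit 5) (nat_lit 1) (.n (nat_lit 6) (nat_lit 2) (.n (nat_lit 8) (nat_lit 1) (.p (nat_lit 9) (nat_lit 1) (.p (nat_lit 15) (nat_lit 1) (.n (nat_lit 17) (nat_lit 1) (.n (nat_lit 18) (nat_lit 1) (.p (nat_lit 24) (nat_lit 1) (.n (nat_lit 25) (nat_lit 1) (.n (nat_lit 27) (nat_lit 2) (.p (nat_lit 29) (nat_lit 1) (.p (nat_lit 32) (nat_lit 1) (.p (nat_lit 33) (nat_lit 1) (.p (nat_lit 35) (nat_lit 1) (.p (nat_lit 36) (nat_lit 1) (.n (nat_lit 38) (nat_lit 1) (.p (nat_lit 40) (nat_lit 1) (.n (nat_lit 45) (nat_lit 1) (.n (nat_lit 46) (nat_lit 1) (.p (nat_lit 47) (nat_lit 1) (.n (nat_lit 55) (nat_lit 1) .z)))))))))))))))))))))))) .nil)))))))))))))) .leaf) (nat_lit 47137) (nat_lit 1360) (.n (nat_lit 397) (nat_lit 1) (.p (nat_lit 398) (nat_lit 1) (.p (nat_lit 399) (nat_lit 2) (.n (nat_lit 400) (nat_lit 1) (.p (nat_lit 401) (nat_lit 1) (.n (nat_lit 402) (nat_lit 1) (.p (nat_lit 404) (nat_lit 1) (.n (nat_lit 405) (nat_lit 2) (.p (nat_lit 407) (nat_lit 2) (.n (nat_lit 409) (nat_lit 2) (.n (nat_lit 410) (nat_lit 2) (.n (nat_lit 411) (nat_lit 1) (.p (nat_lit 412) (nat_lit 2) (.n (nat_lit 413) (nat_lit 2) (.n (nat_lit 414) (nat_lit 3) (.n (nat_lit 415) (nat_lit 1) (.n (nat_lit 416) (nat_lit 3) (.n (nat_lit 417) (nat_lit 2) (.p (nat_lit 418) (nat_lit 3) (.n (nat_lit 419) (nat_lit 2) (.n (nat_lit 420) (nat_lit 3) (.n (nat_lit 421) (nat_lit 3) (.p (nat_lit 422) (nat_lit 2) (.n (nat_lit 424) (nat_lit 2) (.n (nat_lit 427) (nat_lit 2) (.p (nat_lit 431) (nat_lit 1) (.n (nat_lit 435) (nat_lit 3) .z))))))))))))))))))))))))))) (.ct dC2b_c293 (nat_lit 1) (nat_lit 1) (.s false (nat_lit 1) (nat_lit 33) (nat_lit 1) (nat_lit 7) (nat_lit 2) true (nat_lit 10) true (nat_lit 14) true (nat_lit 1) true (nat_lit 15) true (nat_lit 9) dC2b_i19)) .leaf)) (nat_lit 47138) (nat_lit 1269) (.n (nat_lit 397) (nat_lit 2) (.p (nat_lit 398) (nat_lit 3) (.n (nat_lit 399) (nat_lit 2) (.n (nat_lit 400) (nat_lit 2) (.n (nat_lit 401) (nat_lit 1) (.n (nat_lit 402) (nat_lit 3) (.p (nat_lit 403) (nat_lit 1) (.n (nat_lit 404) (nat_lit 3) (.p (nat_lit 406) (nat_lit 2) (.n (nat_lit 407) (nat_lit 1) (.p (nat_lit 408) (nat_lit 2) (.n (nat_lit 409) (nat_lit 1) (.n (nat_lit 410) (nat_lit 1) (.p (nat_lit 411) (nat_lit 1) (.p (nat_lit 412) (nat_lit 3) (.p (nat_lit 413) (nat_lit 3) (.p (nat_lit 414) (nat_lit 1) (.p (nat_lit 415) (nat_lit 2) (.p (nat_lit 416) (nat_lit 3) (.n (nat_lit 418) (nat_lit 1) (.p (nat_lit 420) (nat_lit 2) (.n (nat_lit 421) (nat_lit 2) (.p (nat_lit 425) (nat_lit 2) (.p (nat_lit 428) (nat_lit 2) (.n (nat_lit 431) (nat_lit 1) (.p (nat_lit 432) (nat_lit 3) (.n (nat_lit 433) (nat_lit 2) (.n (nat_lit 435) (nat_lit 2) .z)))))))))))))))))))))))))))) (.ct dC2b_c293 (nat_lit 1) (nat_lit 1) (.s false (nat_lit 1) (nat_lit 34) (nat_lit 2) (nat_lit 1) (nat_lit 7) true (nat_lit 3) true (nat_lit 9) true (nat_lit 1) true (nat_lit 14) true (nat_lit 15) (.e true (nat_lit 1) (nat_lit 67) (nat_lit 20) (nat_lit 3) (.e false (nat_lit 1) (nat_lit 147) (nat_lit 7) (nat_lit 9) (.e false (nat_lit 1) (nat_lit 47) (nat_lit 34) (nat_lit 1) (.e false (nat_lit 1) (nat_lit 253) (nat_lit 2) (nat_lit 14) (.e true (nat_lit 2) (nat_lit 255) (nat_lit 2) (nat_lit 14) (.e false (nat_lit 1) (nat_lit 258) (nat_lit 2) (nat_lit 14) (.e false (nat_lit 3) (nat_lit 259) (nat_lit 2) (nat_lit 14) (.e true (nat_lit 1) (nat_lit 260) (nat_lit 2) (nat_lit 14) (.e true (nat_lit 1) (nat_lit 264) (nat_lit 2) (nat_lit 14) (.e true (nat_lit 1) (nat_lit 267) (nat_lit 2) (nat_lit 14) (.e false (nat_lit 1) (nat_lit 270) (nat_lit 2) (nat_lit 14) (.e false (nat_lit 1) (nat_lit 275) (nat_lit 2) (nat_lit 14) (.e true (nat_lit 1) (nat_lit 279) (nat_lit 2) (nat_lit 14) (.e true (nat_lit 1) (nat_lit 288) (nat_lit 2) (nat_lit 14) (.e true (nat_lit 1) (nat_lit 317) (nat_lit 1) (nat_lit 15) (.u (nat_lit 2) (.n (nat_lit 0) (nat_lit 1) (.n (nat_lit 1) (nat_lit 2) (.n (nat_lit 2) (nat_lit 2) (.p (nat_lit 4) (nat_lit 1) (.p (nat_lit 5) (nat_lit 2) (.n (nat_lit 6) (nat_lit 1) (.n (nat_lit 9) (nat_lit 1) (.p (nat_lit 10) (nat_lit 1) (.p (nat_lit 14) (nat_lit 1) (.n (nat_lit 17) (nat_lit 1) (.p (nat_lit 18) (nat_lit 1) (.p (nat_lit 19) (nat_lit 1) (.n (nat_lit 23) (nat_lit 1) (.p (nat_lit 24) (nat_lit 1) (.n (nat_lit 35) (nat_lit 2) (.p (nat_lit 38) (nat_lit 1) .z)))))))))))))))) .nil)))))))))))))))))) (.nd (.nd (.nd .leaf (nat_lit 47139) (nat_lit 1372) (.n (nat_lit 397) (nat_lit 2) (.p (nat_lit 400) (nat_lit 3) (.p (nat_lit 401) (nat_lit 1) (.p (nat_lit 402) (nat_lit 2) (.n (nat_lit 403) (nat_lit 1) (.n (nat_lit 404) (nat_lit 2) (.p (nat_lit 405) (nat_lit 1) (.n (nat_lit 407) (nat_lit 2) (.p (nat_lit 408) (nat_lit 1) (.n (nat_lit 409) (nat_lit 3) (.p (nat_lit 410) (nat_lit 2) (.p (nat_lit 412) (nat_lit 1) (.n (nat_lit 413) (nat_lit 3) (.n (nat_lit 414) (nat_lit 3) (.n (nat_lit 415) (nat_lit 3) (.p (nat_lit 416) (nat_lit 2) (.n (nat_lit 417) (nat_lit 2) (.p (nat_lit 418) (nat_lit 1) (.n (nat_lit 419) (nat_lit 2) (.p (nat_lit 420) (nat_lit 1) (.p (nat_lit 422) (nat_lit 2) (.n (nat_lit 424) (nat_lit 2) (.p (nat_lit 425) (nat_lit 2) (.n (nat_lit 427) (nat_lit 2) (.p (nat_lit 428) (nat_lit 2) (.p (nat_lit 431) (nat_lit 1) (.p (nat_lit 432) (nat_lit 3) (.n (nat_lit 433) (nat_lit 2) (.p (nat_lit 435) (nat_lit 2) .z))))))))))))))))))))))))))))) (.ct dC2b_c293 (nat_lit 1) (nat_lit 1) (.s true (nat_lit 1) (nat_lit 46) (nat_lit 7) (nat_lit 1) (nat_lit 0) true (nat_lit 5) true (nat_lit 16) false (nat_lit 1) true (nat_lit 9) true (nat_lit 15) (.e false (nat_lit 1) (nat_lit 95) (nat_lit 17) (nat_lit 5) (.e true (nat_lit 3) (nat_lit 325) (nat_lit 0) (nat_lit 16) (.e false (nat_lit 2) (nat_lit 326) (nat_lit 0) (nat_lit 16) (.e true (nat_lit 2) (nat_lit 327) (nat_lit 0) (nat_lit 16) dC2b_i20)))))) .leaf) (nat_lit 47140) (nat_lit 1367) (.n (nat_lit 397) (nat_lit 2) (.n (nat_lit 398) (nat_lit 2) (.p (nat_lit 399) (nat_lit 1) (.p (nat_lit 400) (nat_lit 1) (.n (nat_lit 401) (nat_lit 3) (.p (nat_lit 403) (nat_lit 3) (.p (nat_lit 404) (nat_lit 1) (.p (nat_lit 405) (nat_lit 2) (.n (nat_lit 406) (nat_lit 3) (.n (nat_lit 407) (nat_lit 3) (.n (nat_lit 408) (nat_lit 1) (.p (nat_lit 409) (nat_lit 3) (.p (nat_lit 410) (nat_lit 2) (.n (nat_lit 411) (nat_lit 1) (.p (nat_lit 412) (nat_lit 1) (.n (nat_lit 413) (nat_lit 1) (.p (nat_lit 414) (nat_lit 2) (.n (nat_lit 415) (nat_lit 2) (.n (nat_lit 416) (nat_lit 2) (.n (nat_lit 417) (nat_lit 2) (.p (nat_lit 418) (nat_lit 3) (.n (nat_lit 419) (nat_lit 2) (.n (nat_lit 420) (nat_lit 1) (.p (nat_lit 421) (nat_lit 3) (.p (nat_lit 422) (nat_lit 2) (.p (nat_lit 423) (nat_lit 2) (.n (nat_lit 426) (nat_lit 2) (.p (nat_lit 427) (nat_lit 3) (.n (nat_lit 428) (nat_lit 2) (.p (nat_lit 429) (nat_lit 2) (.n (nat_lit 430) (nat_lit 2) (.n (nat_lit 431) (nat_lit 3) (.n (nat_lit 432) (nat_lit 2) (.n (nat_lit 435) (nat_lit 3) .z)))))))))))))))))))))))))))))))))) (.ct dC2b_c293 (nat_lit 1) (nat_lit 1) (.s true (nat_lit 1) (nat_lit 36) (nat_lit 2) (nat_lit 2) (nat_lit 6) true (nat_lit 4) true (nat_lit 10) true (nat_lit 1) true (nat_lit 14) true (nat_lit 14) (.e false (nat_lit 1) (nat_lit 83) (nat_lit 18) (nat_lit 4) (.e true (nat_lit 1) (nat_lit 172) (nat_lit 6) (nat_lit 10) (.e false (nat_lit 1) (nat_lit 47) (nat_lit 36) (nat_lit 1) dC2b_i21))))) .leaf) (nat_lit 47141) (nat_lit 1355) (.p (nat_lit 397) (nat_lit 3) (.n (nat_lit 399) (nat_lit 3) (.n (nat_lit 401) (nat_lit 3) (.p (nat_lit 402) (nat_lit 3) (.p (nat_lit 403) (nat_lit 3) (.p (nat_lit 404) (nat_lit 2) (.n (nat_lit 405) (nat_lit 2) (.n (nat_lit 407) (nat_lit 2) (.p (nat_lit 408) (nat_lit 1) (.n (nat_lit 409) (nat_lit 2) (.n (nat_lit 410) (nat_lit 1) (.p (nat_lit 411) (nat_lit 1) (.p (nat_lit 412) (nat_lit 2) (.n (nat_lit 413) (nat_lit 2) (.p (nat_lit 414) (nat_lit 2) (.p (nat_lit 416) (nat_lit 2) (.p (nat_lit 417) (nat_lit 3) (.p (nat_lit 418) (nat_lit 3) (.p (nat_lit 419) (nat_lit 3) (.p (nat_lit 420) (nat_lit 3) (.p (nat_lit 421) (nat_lit 2) (.n (nat_lit 422) (nat_lit 3) (.n (nat_lit 423) (nat_lit 3) (.p (nat_lit 426) (nat_lit 3) (.n (nat_lit 427) (nat_lit 1) (.p (nat_lit 428) (nat_lit 3) (.n (nat_lit 429) (nat_lit 3) (.p (nat_lit 430) (nat_lit 3) (.p (nat_lit 431) (nat_lit 2) (.p (nat_lit 432) (nat_lit 2) (.n (nat_lit 435) (nat_lit 3) .z))))))))))))))))))))))))))))))) (.ct dC2b_c293 (nat_lit 1) (nat_lit 1) (.s false (nat_lit 1) (nat_lit 46) (nat_lit 7) (nat_lit 0) (nat_lit 1) true (nat_lit 4) true (nat_lit 15) false (nat_lit 1) true (nat_lit 9) true (nat_lit 16) (.e true (nat_lit 1) (nat_lit 82) (nat_lit 19) (nat_lit 4) (.e false (nat_lit 1) (nat_lit 83) (nat_lit 19) (nat_lit 4) (.e true (nat_lit 1) (nat_lit 84) (nat_lit 19) (nat_lit 4) (.e true (nat_lit 1) (nat_lit 86) (nat_lit 19) (nat_lit 4) (.e false (nat_lit 1) (nat_lit 87) (nat_lit 19) (nat_lit 4) (.e false (nat_lit 1) (nat_lit 88) (nat_lit 19) (nat_lit 4) dC2b_i22)))))))) (.nd .leaf (nat_lit 47142) (nat_lit 1371) (.n (nat_lit 397) (nat_lit 2) (.p (nat_lit 398) (nat_lit 1) (.p (nat_lit 399) (nat_lit 1) (.n (nat_lit 400) (nat_lit 2) (.p (nat_lit 401) (nat_lit 1) (.n (nat_lit 402) (nat_lit 1) (.p (nat_lit 403) (nat_lit 3) (.p (nat_lit 404) (nat_lit 1) (.n (nat_lit 405) (nat_lit 3) (.p (nat_lit 406) (nat_lit 2) (.n (nat_lit 407) (nat_lit 3) (.n (nat_lit 408) (nat_lit 1) (.n (nat_lit 409) (nat_lit 3) (.n (nat_lit 410) (nat_lit 2) (.n (nat_lit 413) (nat_lit 2) (.n (nat_lit 414) (nat_lit 2) (.n (nat_lit 415) (nat_lit 3) (.p (nat_lit 416) (nat_lit 1) (.n (nat_lit 418) (nat_lit 3) (.n (nat_lit 420) (nat_lit 1) (.p (nat_lit 421) (nat_lit 2) (.n (nat_lit 423) (nat_lit 2) (.n (nat_lit 424) (nat_lit 2) (.p (nat_lit 426) (nat_lit 2) (.p (nat_lit 427) (nat_lit 2) (.p (nat_lit 428) (nat_lit 2) (.n (nat_lit 429) (nat_lit 2) (.p (nat_lit 430) (nat_lit 2) (.p (nat_lit 431) (nat_lit 3) (.p (nat_lit 432) (nat_lit 2) (.n (nat_lit 435) (nat_lit 2) .z))))))))))))))))))))))))))))))) (.ct dC2b_c293 (nat_lit 1) (nat_lit 1) (.s true (nat_lit 1) (nat_lit 46) (nat_lit 2) (nat_lit 1) (nat_lit 5) true (nat_lit 5) true (nat_lit 11) false (nat_lit 1) true (nat_lit 14) true (nat_lit 15) (.e true (nat_lit 1) (nat_lit 95) (nat_lit 16) (nat_lit 5) (.e true (nat_lit 1) (nat_lit 192) (nat_lit 5) (nat_lit 11) (.e false (nat_lit 1) (nat_lit 46) (nat_lit 33) (nat_lit 1) (.e true (nat_lit 1) (nat_lit 46) (nat_lit 34) (nat_lit 1) (.e true (nat_lit 1) (nat_lit 46) (nat_lit 37) (nat_lit 1) (.e false (nat_lit 1) (nat_lit 252) (nat_lit 2) (nat_lit 14) (.e false (nat_lit 1) (nat_lit 253) (nat_lit 2) (nat_lit 14) (.e true (nat_lit 3) (nat_lit 254) (nat_lit 2) (nat_lit 14) (.e false (nat_lit 1) (nat_lit 255) (nat_lit 2) (nat_lit 14) (.e false (nat_lit 2) (nat_lit 256) (nat_lit 2) (nat_lit 14) (.e false (nat_lit 3) (nat_lit 257) (nat_lit 2) (nat_lit 14) (.e true (nat_lit 2) (nat_lit 258) (nat_lit 2) (nat_lit 14) (.e false (nat_lit 2) (nat_lit 259) (nat_lit 2) (nat_lit 14) (.e false (nat_lit 3) (nat_lit 261) (nat_lit 2) (nat_lit 14) (.e false (nat_lit 2) (nat_lit 262) (nat_lit 2) (nat_lit 14) (.e true (nat_lit 3) (nat_lit 263) (nat_lit 2) (nat_lit 14) (.e false (nat_lit 1) (nat_lit 264) (nat_lit 2) (nat_lit 14) (.e false (nat_lit 2) (nat_lit 265) (nat_lit 2) (nat_lit 14) dC2b_i23)))))))))))))))))))) .leaf))) (nat_lit 47143) (nat_lit 1437) (.p (nat_lit 436) (nat_lit 3) (.n (nat_lit 437) (nat_lit 3) (.p (nat_lit 438) (nat_lit 1) (.n (nat_lit 439) (nat_lit 2) (.n (nat_lit 440) (nat_lit 1) (.n (nat_lit 441) (nat_lit 3) (.n (nat_lit 442) (nat_lit 2) (.n (nat_lit 443) (nat_lit 1) (.p (nat_lit 444) (nat_lit 3) (.n (nat_lit 445) (nat_lit 2) (.n (nat_lit 447) (nat_lit 3) (.n (nat_lit 448) (nat_lit 2) (.n (nat_lit 450) (nat_lit 1) .z))))))))))))) (.ct dC2b_c53 (nat_lit 1) (nat_lit 0) (.s true (nat_lit 1) (nat_lit 19) (nat_lit 2) (nat_lit 2) (nat_lit 14) true (nat_lit 0) true (nat_lit 4) true (nat_lit 3) true (nat_lit 9) true (nat_lit 9) (.e true (nat_lit 1) (nat_lit 102) (nat_lit 14) (nat_lit 4) (.e true (nat_lit 1) (nat_lit 96) (nat_lit 19) (nat_lit 3) (.e false (nat_lit 1) (nat_lit 289) (nat_lit 2) (nat_lit 9) (.e false (nat_lit 2) (nat_lit 290) (nat_lit 2) (nat_lit 9) (.e false (nat_lit 2) (nat_lit 291) (nat_lit 2) (nat_lit 9) (.e true (nat_lit 3) (nat_lit 292) (nat_lit 2) (nat_lit 9) (.e true (nat_lit 3) (nat_lit 293) (nat_lit 2) (nat_lit 9) (.e true (nat_lit 2) (nat_lit 294) (nat_lit 2) (nat_lit 9) (.e true (nat_lit 1) (nat_lit 295) (nat_lit 2) (nat_lit 9) (.e false (nat_lit 2) (nat_lit 297) (nat_lit 2) (nat_lit 9) (.e false (nat_lit 2) (nat_lit 298) (nat_lit 2) (nat_lit 9) (.e false (nat_lit 2) (nat_lit 300) (nat_lit 2) (nat_lit 9) (.e true (nat_lit 2) (nat_lit 301) (nat_lit 2) (nat_lit 9) (.e true (nat_lit 3) (nat_lit 303) (nat_lit 2) (nat_lit 9) (.e false (nat_lit 2) (nat_lit 304) (nat_lit 2) (nat_lit 9) (.e false (nat_lit 2) (nat_lit 296) (nat_lit 2) (nat_lit 9) (.u (nat_lit 2) (.n (nat_lit 1) (nat_lit 1) (.p (nat_lit 4) (nat_lit 1) (.n (nat_lit 5) (nat_lit 2) (.p (nat_lit 6) (nat_lit 1) (.p (nat_lit 7) (nat_lit 1) (.n (nat_lit 8) (nat_lit 1) (.p (nat_lit 9) (nat_lit 2) (.p (nat_lit 11) (nat_lit 1) (.p (nat_lit 14) (nat_lit 1) (.n (nat_lit 82) (nat_lit 1) (.p (nat_lit 84) (nat_lit 1) (.p (nat_lit 85) (nat_lit 1) .z)))))))))))) .nil))))))))))))))))))) (.nd (.nd (.nd (.nd .leaf (nat_lit 48128) (nat_lit 132) (.p (nat_lit 82) (nat_lit 2) (.p (nat_lit 84) (nat_lit 1) (.p (nat_lit 85) (nat_lit 2) (.n (nat_lit 88) (nat_lit 1) (.n (nat_lit 90) (nat_lit 1) .z))))) (.ct dC2b_c275 (nat_lit 1) (nat_lit 6) (.s false (nat_lit 1) (nat_lit 6) (nat_lit 0) (nat_lit 2) (nat_lit 2) true (nat_lit 2) true (nat_lit 4) true (nat_lit 1) true (nat_lit 6) true (nat_lit 4) (.e false (nat_lit 1) (nat_lit 18) (nat_lit 5) (nat_lit 2) (.e false (nat_lit 1) (nat_lit 35) (nat_lit 2) (nat_lit 4) (.e true (nat_lit 1) (nat_lit 16) (nat_lit 6) (nat_lit 1) (.e false (nat_lit 1) (nat_lit 46) (nat_lit 0) (nat_lit 6) (.e false (nat_lit 1) (nat_lit 38) (nat_lit 2) (nat_lit 4) .nil))))))) .leaf) (nat_lit 48129) (nat_lit 145) (.n (nat_lit 91) (nat_lit 2) (.n (nat_lit 92) (nat_lit 2) (.p (nat_lit 93) (nat_lit 1) (.n (nat_lit 94) (nat_lit 2) (.n (nat_lit 95) (nat_lit 1) (.p (nat_lit 96) (nat_lit 2) .z)))))) (.ct dC2b_c35 (nat_lit 1) (nat_lit 4) (.s false (nat_lit 1) (nat_lit 6) (nat_lit 1) (nat_lit 2) (nat_lit 2) true (nat_lit 1) true (nat_lit 3) true (nat_lit 1) true (nat_lit 4) true (nat_lit 3) (.e false (nat_lit 2) (nat_lit 18) (nat_lit 6) (nat_lit 1) (.e false (nat_lit 1) (nat_lit 40) (nat_lit 2) (nat_lit 3) (.e false (nat_lit 1) (nat_lit 46) (nat_lit 1) (nat_lit 4) (.e true (nat_lit 1) (nat_lit 41) (nat_lit 2) (nat_lit 3) (.u (nat_lit 2) (.p (nat_lit 1) (nat_lit 1) .z) .nil))))))) .leaf) (nat_lit 48130) (nat_lit 155) (.p (nat_lit 103) (nat_lit 1) .z) .df (.nd (.nd .leaf (nat_lit 48131) (nat_lit 257) (.n (nat_lit 134) (nat_lit 2) (.p (nat_lit 138) (nat_lit 2) (.n (nat_lit 144) (nat_lit 1) (.p (nat_lit 149) (nat_lit 1) (.p (nat_lit 157) (nat_lit 1) .z))))) (.ct dC2b_c291 (nat_lit 1) (nat_lit 7) (.s false (nat_lit 1) (nat_lit 6) (nat_lit 3) (nat_lit 2) (nat_lit 2) true (nat_lit 1) true (nat_lit 8) true (nat_lit 4) true (nat_lit 7) true (nat_lit 8) (.e false (nat_lit 1) (nat_lit 18) (nat_lit 11) (nat_lit 1) (.e true (nat_lit 1) (nat_lit 62) (nat_lit 2) (nat_lit 8) (.e false (nat_lit 1) (nat_lit 33) (nat_lit 6) (nat_lit 4) (.e false (nat_lit 1) (nat_lit 46) (nat_lit 3) (nat_lit 7) (.e false (nat_lit 1) (nat_lit 66) (nat_lit 2) (nat_lit 8) (.e true (nat_lit 1) (nat_lit 72) (nat_lit 2) (nat_lit 8) .nil)))))))) .leaf) (nat_lit 48132) (nat_lit 305) (.n (nat_lit 163) (nat_lit 1) (.n (nat_lit 164) (nat_lit 2) (.p (nat_lit 165) (nat_lit 2) (.n (nat_lit 166) (nat_lit 1) (.p (nat_lit 167) (nat_lit 1) .z))))) (.ct dC2b_c51 (nat_lit 1) (nat_lit 4) (.s true (nat_lit 1) (nat_lit 20) (nat_lit 1) (nat_lit 1) (nat_lit 1) true (nat_lit 4) true (nat_lit 6) false (nat_lit 1) true (nat_lit 6) true (nat_lit 6) (.e true (nat_lit 2) (nat_lit 92) (nat_lit 1) (nat_lit 6) (.e false (nat_lit 2) (nat_lit 93) (nat_lit 1) (nat_lit 6) (.e true (nat_lit 1) (nat_lit 96) (nat_lit 1) (nat_lit 6) (.e false (nat_lit 1) (nat_lit 20) (nat_lit 10) (nat_lit 1) .nil)))))) .leaf)) (nat_lit 48133) (nat_lit 337) (.n (nat_lit 169) (nat_lit 3) (.p (nat_lit 170) (nat_lit 3) (.p (nat_lit 171) (nat_lit 1) (.n (nat_lit 172) (nat_lit 3) (.p (nat_lit 173) (nat_lit 3) (.p (nat_lit 175) (nat_lit 3) (.p (nat_lit 176) (nat_lit 3) (.p (nat_lit 178) (nat_lit 3) (.p (nat_lit 179) (nat_lit 3) (.p (nat_lit 182) (nat_lit 1) .z)))))))))) (.ct dC2b_c276 (nat_lit 1) (nat_lit 4) (.s true (nat_lit 1) (nat_lit 6) (nat_lit 2) (nat_lit 5) (nat_lit 2) true (nat_lit 2) true (nat_lit 6) true (nat_lit 3) true (nat_lit 6) true (nat_lit 4) (.s false (nat_lit 1) (nat_lit 16) (nat_lit 2) (nat_lit 1) (nat_lit 2) true (nat_lit 2) true (nat_lit 6) true (nat_lit 0) true (nat_lit 6) true (nat_lit 7) (.s true (nat_lit 1) (nat_lit 18) (nat_lit 0) (nat_lit 2) (nat_lit 2) true (nat_lit 4) true (nat_lit 6) false (nat_lit 0) true (nat_lit 8) true (nat_lit 6) (.s false (nat_lit 1) (nat_lit 19) (nat_lit 2) (nat_lit 0) (nat_lit 2) true (nat_lit 2) true (nat_lit 6) false (nat_lit 0) true (nat_lit 6) true (nat_lit 8) (.s true (nat_lit 1) (nat_lit 20) (nat_lit 2) (nat_lit 1) (nat_lit 0) true (nat_lit 4) true (nat_lit 8) false (nat_lit 1) true (nat_lit 6) true (nat_lit 7) (.e false (nat_lit 1) (nat_lit 33) (nat_lit 7) (nat_lit 2) (.e false (nat_lit 2) (nat_lit 80) (nat_lit 2) (nat_lit 6) (.e true (nat_lit 2) (nat_lit 81) (nat_lit 2) (nat_lit 6) (.e true (nat_lit 1) (nat_lit 83) (nat_lit 2) (nat_lit 6) (.e true (nat_lit 1) (nat_lit 84) (nat_lit 2) (nat_lit 6) (.e false (nat_lit 1) (nat_lit 85) (nat_lit 2) (nat_lit 6) (.e false (nat_lit 2) (nat_lit 86) (nat_lit 2) (nat_lit 6) (.e true (nat_lit 2) (nat_lit 89) (nat_lit 2) (nat_lit 6) (.e true (nat_lit 1) (nat_lit 42) (nat_lit 6) (nat_lit 3) (.e false (nat_lit 1) (nat_lit 87) (nat_lit 2) (nat_lit 6) (.e true (nat_lit 3) (nat_lit 90) (nat_lit 2) (nat_lit 6) (.e true (nat_lit 1) (nat_lit 97) (nat_lit 1) (nat_lit 7) (.e false (nat_lit 1) (nat_lit 35) (nat_lit 7) (nat_lit 2) (.e false (nat_lit 2) (nat_lit 82) (nat_lit 2) (nat_lit 6) (.e true (nat_lit 2) (nat_lit 88) (nat_lit 2) (nat_lit 6) (.e true (nat_lit 1) (nat_lit 19) (nat_lit 16) (nat_lit 0) (.e false (nat_lit 1) (nat_lit 20) (nat_lit 13) (nat_lit 1) (.e false (nat_lit 1) (nat_lit 99) (nat_lit 1) (nat_lit 7) (.u (nat_lit 2) (.p (nat_lit 0) (nat_lit 1) (.n (nat_lit 1) (nat_lit 1) (.n (nat_lit 9) (nat_lit 1) (.n (nat_lit 10) (nat_lit 1) (.n (nat_lit 36) (nat_lit 1) (.p (nat_lit 37) (nat_lit 1) (.p (nat_lit 40) (nat_lit 1) (.p (nat_lit 41) (nat_lit 1) .z)))))))) .nil))))))))))))))))))))))))) (.nd (.nd (.nd .leaf (nat_lit 48134) (nat_lit 366) (.p (nat_lit 185) (nat_lit 2) (.p (nat_lit 186) (nat_lit 2) (.n (nat_lit 187) (nat_lit 1) (.p (nat_lit 188) (nat_lit 2) (.p (nat_lit 189) (nat_lit 1) (.n (nat_lit 190) (nat_lit 3) (.p (nat_lit 193) (nat_lit 1) (.p (nat_lit 194) (nat_lit 1) .z)))))))) (.ct dC2b_c36 (nat_lit 1) (nat_lit 3) (.s true (nat_lit 1) (nat_lit 20) (nat_lit 1) (nat_lit 1) (nat_lit 2) true (nat_lit 3) true (nat_lit 5) false (nat_lit 1) true (nat_lit 6) true (nat_lit 6) (.e false (nat_lit 2) (nat_lit 91) (nat_lit 2) (nat_lit 5) (.e false (nat_lit 2) (nat_lit 92) (nat_lit 2) (nat_lit 5) (.e true (nat_lit 1) (nat_lit 93) (nat_lit 2) (nat_lit 5) (.e false (nat_lit 2) (nat_lit 94) (nat_lit 2) (nat_lit 5) (.e false (nat_lit 1) (nat_lit 95) (nat_lit 2) (nat_lit 5) (.e true (nat_lit 2) (nat_lit 96) (nat_lit 2) (nat_lit 5) (.e false (nat_lit 1) (nat_lit 20) (nat_lit 14) (nat_lit 1) (.e false (nat_lit 1) (nat_lit 103) (nat_lit 1) (nat_lit 6) .nil)))))))))) .leaf) (nat_lit 48135) (nat_lit 392) (.p (nat_lit 204) (nat_lit 1) .z) .df .leaf) (nat_lit 48136) (nat_lit 456) (.n (nat_lit 208) (nat_lit 2) (.p (nat_lit 216) (nat_lit 2) (.n (nat_lit 225) (nat_lit 1) (.n (nat_lit 227) (nat_lit 2) (.p (nat_lit 245) (nat_lit 1) (.p (nat_lit 251) (nat_lit 1) .z)))))) (.ct dC2b_c307 (nat_lit 1) (nat_lit 6) (.s true (nat_lit 1) (nat_lit 8) (nat_lit 7) (nat_lit 2) (nat_lit 1) true (nat_lit 1) true (nat_lit 13) true (nat_lit 6) true (nat_lit 7) true (nat_lit 12) (.e false (nat_lit 1) (nat_lit 24) (nat_lit 19) (nat_lit 1) (.e true (nat_lit 1) (nat_lit 144) (nat_lit 1) (nat_lit 13) (.e false (nat_lit 1) (nat_lit 59) (nat_lit 7) (nat_lit 7) (.e true (nat_lit 1) (nat_lit 128) (nat_lit 2) (nat_lit 12) (.u (nat_lit 2) (.n (nat_lit 11) (nat_lit 1) .z) .nil))))))) (.nd .leaf (nat_lit 48137) (nat_lit 553) (.n (nat_lit 205) (nat_lit 2) (.n (nat_lit 206) (nat_lit 1) (.n (nat_lit 207) (nat_lit 1) (.n (nat_lit 208) (nat_lit 3) (.p (nat_lit 211) (nat_lit 1) (.n (nat_lit 212) (nat_lit 1) (.n (nat_lit 213) (nat_lit 1) (.p (nat_lit 214) (nat_lit 1) (.p (nat_lit 215) (nat_lit 1) (.n (nat_lit 216) (nat_lit 3) (.n (nat_lit 217) (nat_lit 1) (.n (nat_lit 227) (nat_lit 1) (.p (nat_lit 228) (nat_lit 3) (.n (nat_lit 230) (nat_lit 1) (.n (nat_lit 242) (nat_lit 3) (.n (nat_lit 243) (nat_lit 2) (.p (nat_lit 246) (nat_lit 1) (.p (nat_lit 251) (nat_lit 2) .z)))))))))))))))))) (.ct dC2b_c307 (nat_lit 1) (nat_lit 6) (.s false (nat_lit 1) (nat_lit 9) (nat_lit 2) (nat_lit 2) (nat_lit 6) true (nat_lit 1) true (nat_lit 8) true (nat_lit 6) true (nat_lit 12) true (nat_lit 12) (.e true (nat_lit 1) (nat_lit 25) (nat_lit 18) (nat_lit 1) (.e false (nat_lit 1) (nat_lit 61) (nat_lit 6) (nat_lit 8) (.e false (nat_lit 1) (nat_lit 46) (nat_lit 9) (nat_lit 6) (.e false (nat_lit 1) (nat_lit 118) (nat_lit 2) (nat_lit 12) (.e true (nat_lit 1) (nat_lit 129) (nat_lit 2) (nat_lit 12) (.e true (nat_lit 1) (nat_lit 110) (nat_lit 2) (nat_lit 12) (.u (nat_lit 2) (.n (nat_lit 23) (nat_lit 1) .z) .nil))))))))) .leaf))))))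

noncomputable def dC2b_t1 : Tr := (.nd (.nd (.nd (.nd (.nd (.nd (.nd .leaf (nat_lit 48140) (nat_lit 650) (.p (nat_lit 253) (nat_lit 1) (.p (nat_lit 254) (nat_lit 1) (.p (nat_lit 255) (nat_lit 2) (.n (nat_lit 256) (nat_lit 1) (.p (nat_lit 257) (nat_lit 3) (.p (nat_lit 258) (nat_lit 2) (.n (nat_lit 259) (nat_lit 3) (.p (nat_lit 260) (nat_lit 3) (.p (nat_lit 262) (nat_lit 2) (.p (nat_lit 263) (nat_lit 1) (.n (nat_lit 264) (nat_lit 2) (.n (nat_lit 265) (nat_lit 2) (.n (nat_lit 267) (nat_lit 2) (.n (nat_lit 269) (nat_lit 2) (.p (nat_lit 270) (nat_lit 1) (.p (nat_lit 271) (nat_lit 3) (.p (nat_lit 272) (nat_lit 2) (.p (nat_lit 273) (nat_lit 3) (.p (nat_lit 274) (nat_lit 3) (.n (nat_lit 275) (nat_lit 3) (.n (nat_lit 276) (nat_lit 3) (.n (nat_lit 277) (nat_lit 2) (.p (nat_lit 286) (nat_lit 1) .z))))))))))))))))))))))) (.ct dC2b_c292 (nat_lit 1) (nat_lit 4) (.s false (nat_lit 1) (nat_lit 12) (nat_lit 2) (nat_lit 2) (nat_lit 6) true (nat_lit 1) true (nat_lit 7) true (nat_lit 4) true (nat_lit 11) true (nat_lit 11) (.e true (nat_lit 1) (nat_lit 34) (nat_lit 18) (nat_lit 1) (.e false (nat_lit 1) (nat_lit 81) (nat_lit 6) (nat_lit 7) (.e false (nat_lit 1) (nat_lit 46) (nat_lit 12) (nat_lit 4) (.e true (nat_lit 1) (nat_lit 139) (nat_lit 2) (nat_lit 11) (.e false (nat_lit 1) (nat_lit 147) (nat_lit 2) (nat_lit 11) (.e true (nat_lit 1) (nat_lit 155) (nat_lit 2) (nat_lit 11) (.u (nat_lit 2) (.n (nat_lit 2) (nat_lit 1) (.n (nat_lit 6) (nat_lit 1) (.p (nat_lit 7) (nat_lit 1) (.n (nat_lit 11) (nat_lit 1) (.p (nat_lit 13) (nat_lit 1) (.p (nat_lit 15) (nat_lit 1) (.n (nat_lit 22) (nat_lit 1) (.p (nat_lit 23) (nat_lit 1) .z)))))))) .nil))))))))) .leaf) (nat_lit 48141) (nat_lit 654) (.p (nat_lit 252) (nat_lit 1) (.p (nat_lit 254) (nat_lit 3) (.p (nat_lit 256) (nat_lit 3) (.p (nat_lit 257) (nat_lit 2) (.n (nat_lit 258) (nat_lit 2) (.p (nat_lit 259) (nat_lit 3) (.n (nat_lit 260) (nat_lit 3) (.n (nat_lit 261) (nat_lit 2) (.p (nat_lit 262) (nat_lit 2) (.n (nat_lit 264) (nat_lit 3) (.p (nat_lit 267) (nat_lit 2) (.n (nat_lit 270) (nat_lit 1) (.p (nat_lit 271) (nat_lit 2) (.n (nat_lit 272) (nat_lit 2) (.p (nat_lit 273) (nat_lit 2) (.n (nat_lit 274) (nat_lit 2) (.p (nat_lit 275) (nat_lit 2) (.n (nat_lit 276) (nat_lit 2) (.p (nat_lit 283) (nat_lit 2) (.p (nat_lit 284) (nat_lit 1) (.n (nat_lit 285) (nat_lit 1) (.n (nat_lit 286) (nat_lit 1) .z)))))))))))))))))))))) (.ct dC2b_c292 (nat_lit 1) (nat_lit 4) (.s true (nat_lit 1) (nat_lit 13) (nat_lit 7) (nat_lit 2) (nat_lit 1) true (nat_lit 1) true (nat_lit 12) true (nat_lit 4) true (nat_lit 6) true (nat_lit 11) (.e false (nat_lit 1) (nat_lit 35) (nat_lit 19) (nat_lit 1) (.e true (nat_lit 1) (nat_lit 179) (nat_lit 1) (nat_lit 12) (.e false (nat_lit 1) (nat_lit 62) (nat_lit 7) (nat_lit 6) (.e false (nat_lit 1) (nat_lit 65) (nat_lit 7) (nat_lit 6) dC2b_i24)))))) .leaf) (nat_lit 48142) (nat_lit 723) (.n (nat_lit 289) (nat_lit 2) (.p (nat_lit 290) (nat_lit 1) (.p (nat_lit 291) (nat_lit 3) (.p (nat_lit 292) (nat_lit 1) (.p (nat_lit 293) (nat_lit 2) (.n (nat_lit 294) (nat_lit 2) (.n (nat_lit 295) (nat_lit 1) (.p (nat_lit 296) (nat_lit 3) (.n (nat_lit 297) (nat_lit 1) (.n (nat_lit 298) (nat_lit 2) (.n (nat_lit 303) (nat_lit 1) (.p (nat_lit 304) (nat_lit 2) .z)))))))))))) (.ct dC2b_c52 (nat_lit 1) (nat_lit 2) (.s false (nat_lit 1) (nat_lit 14) (nat_lit 2) (nat_lit 7) (nat_lit 1) true (nat_lit 5) true (nat_lit 8) true (nat_lit 2) true (nat_lit 7) true (nat_lit 4) (.e true (nat_lit 1) (nat_lit 96) (nat_lit 6) (nat_lit 5) (.e false (nat_lit 1) (nat_lit 194) (nat_lit 1) (nat_lit 8) (.e false (nat_lit 2) (nat_lit 158) (nat_lit 2) (nat_lit 7) (.e true (nat_lit 3) (nat_lit 160) (nat_lit 2) (nat_lit 7) (.e true (nat_lit 2) (nat_lit 161) (nat_lit 2) (nat_lit 7) (.e false (nat_lit 3) (nat_lit 162) (nat_lit 2) (nat_lit 7) (.e false (nat_lit 3) (nat_lit 163) (nat_lit 2) (nat_lit 7) (.e true (nat_lit 2) (nat_lit 164) (nat_lit 2) (nat_lit 7) (.e false (nat_lit 2) (nat_lit 165) (nat_lit 2) (nat_lit 7) (.e false (nat_lit 1) (nat_lit 167) (nat_lit 2) (nat_lit 7) (.e false (nat_lit 1) (nat_lit 75) (nat_lit 7) (nat_lit 4) (.u (nat_lit 2) (.n (nat_lit 2) (nat_lit 1) (.p (nat_lit 5) (nat_lit 1) (.p (nat_lit 9) (nat_lit 1) (.p (nat_lit 14) (nat_lit 1) (.n (nat_lit 15) (nat_lit 1) .z))))) .nil)))))))))))))) (.nd (.nd .leaf (nat_lit 48143) (nat_lit 745) (.n (nat_lit 289) (nat_lit 1) (.p (nat_lit 290) (nat_lit 2) (.n (nat_lit 294) (nat_lit 2) (.p (nat_lit 295) (nat_lit 3) (.p (nat_lit 296) (nat_lit 2) (.p (nat_lit 297) (nat_lit 2) (.n (nat_lit 298) (nat_lit 2) (.n (nat_lit 299) (nat_lit 1) (.p (nat_lit 301) (nat_lit 2) (.p (nat_lit 303) (nat_lit 2) (.n (nat_lit 304) (nat_lit 1) .z))))))))))) (.ct dC2b_c52 (nat_lit 1) (nat_lit 2) (.s false (nat_lit 1) (nat_lit 15) (nat_lit 2) (nat_lit 2) (nat_lit 6) true (nat_lit 1) true (nat_lit 5) true (nat_lit 2) true (nat_lit 7) true (nat_lit 7) (.e true (nat_lit 1) (nat_lit 40) (nat_lit 18) (nat_lit 1) (.e false (nat_lit 1) (nat_lit 92) (nat_lit 6) (nat_lit 5) (.e false (nat_lit 1) (nat_lit 46) (nat_lit 15) (nat_lit 2) (.e true (nat_lit 2) (nat_lit 158) (nat_lit 2) (nat_lit 7) (.e true (nat_lit 2) (nat_lit 160) (nat_lit 2) (nat_lit 7) (.e false (nat_lit 2) (nat_lit 161) (nat_lit 2) (nat_lit 7) (.e false (nat_lit 2) (nat_lit 162) (nat_lit 2) (nat_lit 7) (.e true (nat_lit 2) (nat_lit 163) (nat_lit 2) (nat_lit 7) (.e true (nat_lit 1) (nat_lit 168) (nat_lit 2) (nat_lit 7) (.u (nat_lit 2) (.n (nat_lit 0) (nat_lit 1) (.n (nat_lit 6) (nat_lit 1) .z)) .nil)))))))))))) .leaf) (nat_lit 48144) (nat_lit 810) (.p (nat_lit 305) (nat_lit 3) (.p (nat_lit 306) (nat_lit 3) (.n (nat_lit 307) (nat_lit 2) (.p (nat_lit 308) (nat_lit 1) (.n (nat_lit 309) (nat_lit 3) (.p (nat_lit 310) (nat_lit 2) (.n (nat_lit 313) (nat_lit 3) (.n (nat_lit 314) (nat_lit 1) (.n (nat_lit 315) (nat_lit 2) (.n (nat_lit 317) (nat_lit 2) (.p (nat_lit 322) (nat_lit 1) .z))))))))))) (.ct dC2b_c277 (nat_lit 1) (nat_lit 2) (.s true (nat_lit 1) (nat_lit 47) (nat_lit 0) (nat_lit 2) (nat_lit 2) true (nat_lit 6) true (nat_lit 8) false (nat_lit 2) true (nat_lit 10) true (nat_lit 8) (.e true (nat_lit 1) (nat_lit 103) (nat_lit 5) (nat_lit 6) (.e true (nat_lit 1) (nat_lit 171) (nat_lit 2) (nat_lit 8) (.e false (nat_lit 2) (nat_lit 173) (nat_lit 2) (nat_lit 8) (.e false (nat_lit 2) (nat_lit 174) (nat_lit 2) (nat_lit 8) (.e true (nat_lit 1) (nat_lit 177) (nat_lit 2) (nat_lit 8) (.e true (nat_lit 1) (nat_lit 179) (nat_lit 2) (nat_lit 8) (.e false (nat_lit 1) (nat_lit 204) (nat_lit 0) (nat_lit 10) (.e true (nat_lit 2) (nat_lit 169) (nat_lit 2) (nat_lit 8) (.e false (nat_lit 2) (nat_lit 170) (nat_lit 2) (nat_lit 8) (.e true (nat_lit 1) (nat_lit 172) (nat_lit 2) (nat_lit 8) (.e false (nat_lit 1) (nat_lit 175) (nat_lit 2) (nat_lit 8) (.e false (nat_lit 1) (nat_lit 176) (nat_lit 2) (nat_lit 8) (.e true (nat_lit 1) (nat_lit 178) (nat_lit 2) (nat_lit 8) (.e false (nat_lit 1) (nat_lit 181) (nat_lit 2) (nat_lit 8) (.e false (nat_lit 1) (nat_lit 183) (nat_lit 2) (nat_lit 8) (.u (nat_lit 2) (.n (nat_lit 0) (nat_lit 1) (.p (nat_lit 4) (nat_lit 1) (.p (nat_lit 8) (nat_lit 1) (.n (nat_lit 65) (nat_lit 1) .z)))) .nil)))))))))))))))))) .leaf)) (nat_lit 48145) (nat_lit 790) (.n (nat_lit 305) (nat_lit 1) (.p (nat_lit 306) (nat_lit 3) (.p (nat_lit 307) (nat_lit 2) (.p (nat_lit 308) (nat_lit 2) (.n (nat_lit 310) (nat_lit 1) (.p (nat_lit 311) (nat_lit 3) (.p (nat_lit 312) (nat_lit 3) (.n (nat_lit 313) (nat_lit 1) (.n (nat_lit 314) (nat_lit 3) (.p (nat_lit 315) (nat_lit 2) (.p (nat_lit 317) (nat_lit 3) (.n (nat_lit 321) (nat_lit 1) (.p (nat_lit 323) (nat_lit 1) .z))))))))))))) (.ct dC2b_c277 (nat_lit 1) (nat_lit 2) (.s false (nat_lit 1) (nat_lit 20) (nat_lit 7) (nat_lit 1) (nat_lit 0) true (nat_lit 2) true (nat_lit 10) true (nat_lit 0) true (nat_lit 4) true (nat_lit 9) (.e false (nat_lit 2) (nat_lit 33) (nat_lit 20) (nat_lit 0) (.e true (nat_lit 1) (nat_lit 34) (nat_lit 20) (nat_lit 0) (.e false (nat_lit 1) (nat_lit 35) (nat_lit 20) (nat_lit 0) (.e true (nat_lit 1) (nat_lit 36) (nat_lit 20) (nat_lit 0) (.e true (nat_lit 1) (nat_lit 37) (nat_lit 20) (nat_lit 0) (.e true (nat_lit 1) (nat_lit 38) (nat_lit 20) (nat_lit 0) (.e true (nat_lit 1) (nat_lit 81) (nat_lit 7) (nat_lit 4) (.e false (nat_lit 1) (nat_lit 82) (nat_lit 7) (nat_lit 4) (.e false (nat_lit 1) (nat_lit 83) (nat_lit 7) (nat_lit 4) (.e false (nat_lit 1) (nat_lit 85) (nat_lit 7) (nat_lit 4) (.e true (nat_lit 1) (nat_lit 88) (nat_lit 7) (nat_lit 4) (.e true (nat_lit 1) (nat_lit 199) (nat_lit 1) (nat_lit 9) (.u (nat_lit 2) (.n (nat_lit 1) (nat_lit 1) (.p (nat_lit 2) (nat_lit 1) (.n (nat_lit 5) (nat_lit 1) (.n (nat_lit 6) (nat_lit 1) (.n (nat_lit 7) (nat_lit 1) (.p (nat_lit 9) (nat_lit 2) (.n (nat_lit 10) (nat_lit 1) .z))))))) .nil))))))))))))))) (.nd (.nd (.nd .leaf (nat_lit 48146) (nat_lit 834) (.n (nat_lit 324) (nat_lit 3) (.n (nat_lit 325) (nat_lit 2) (.p (nat_lit 326) (nat_lit 1) (.n (nat_lit 328) (nat_lit 1) (.n (nat_lit 331) (nat_lit 3) (.p (nat_lit 333) (nat_lit 1) (.p (nat_lit 334) (nat_lit 1) .z))))))) (.ct dC2b_c37 (nat_lit 1) (nat_lit 1) (.s false (nat_lit 1) (nat_lit 20) (nat_lit 2) (nat_lit 1) (nat_lit 6) true (nat_lit 1) true (nat_lit 4) true (nat_lit 0) true (nat_lit 6) true (nat_lit 7) (.e false (nat_lit 1) (nat_lit 102) (nat_lit 6) (nat_lit 4) (.e false (nat_lit 1) (nat_lit 104) (nat_lit 6) (nat_lit 4) (.e true (nat_lit 1) (nat_lit 185) (nat_lit 2) (nat_lit 6) (.e false (nat_lit 2) (nat_lit 186) (nat_lit 2) (nat_lit 6) (.e false (nat_lit 2) (nat_lit 190) (nat_lit 2) (nat_lit 6) (.e true (nat_lit 1) (nat_lit 193) (nat_lit 2) (nat_lit 6) (.e true (nat_lit 1) (nat_lit 194) (nat_lit 2) (nat_lit 6) (.u (nat_lit 2) (.n (nat_lit 2) (nat_lit 1) (.p (nat_lit 3) (nat_lit 1) (.n (nat_lit 4) (nat_lit 1) (.n (nat_lit 6) (nat_lit 1) (.p (nat_lit 7) (nat_lit 1) .z))))) .nil)))))))))) .leaf) (nat_lit 48147) (nat_lit 838) (.p (nat_lit 324) (nat_lit 1) (.n (nat_lit 325) (nat_lit 3) (.p (nat_lit 326) (nat_lit 1) (.p (nat_lit 327) (nat_lit 1) (.p (nat_lit 328) (nat_lit 2) (.n (nat_lit 329) (nat_lit 2) (.n (nat_lit 330) (nat_lit 1) (.n (nat_lit 331) (nat_lit 3) (.p (nat_lit 333) (nat_lit 2) (.p (nat_lit 334) (nat_lit 1) .z)))))))))) (.ct dC2b_c37 (nat_lit 1) (nat_lit 1) (.s false (nat_lit 1) (nat_lit 47) (nat_lit 2) (nat_lit 2) (nat_lit 1) true (nat_lit 4) true (nat_lit 7) false (nat_lit 1) true (nat_lit 6) true (nat_lit 6) (.e false (nat_lit 1) (nat_lit 103) (nat_lit 6) (nat_lit 4) (.e false (nat_lit 1) (nat_lit 202) (nat_lit 1) (nat_lit 7) (.e false (nat_lit 1) (nat_lit 190) (nat_lit 2) (nat_lit 6) (.e true (nat_lit 1) (nat_lit 193) (nat_lit 2) (nat_lit 6) (.e true (nat_lit 1) (nat_lit 194) (nat_lit 2) (nat_lit 6) (.u (nat_lit 2) (.p (nat_lit 5) (nat_lit 1) .z) .nil)))))))) .leaf) (nat_lit 48152) (nat_lit 1020) (.p (nat_lit 335) (nat_lit 3) (.p (nat_lit 336) (nat_lit 1) (.p (nat_lit 337) (nat_lit 2) (.n (nat_lit 338) (nat_lit 2) (.p (nat_lit 339) (nat_lit 3) (.p (nat_lit 340) (nat_lit 3) (.n (nat_lit 341) (nat_lit 1) (.n (nat_lit 342) (nat_lit 2) (.p (nat_lit 343) (nat_lit 2) (.p (nat_lit 345) (nat_lit 3) (.p (nat_lit 347) (nat_lit 1) (.p (nat_lit 349) (nat_lit 1) (.p (nat_lit 350) (nat_lit 2) (.p (nat_lit 351) (nat_lit 3) (.n (nat_lit 352) (nat_lit 3) (.n (nat_lit 353) (nat_lit 3) (.p (nat_lit 354) (nat_lit 3) (.p (nat_lit 356) (nat_lit 3) (.n (nat_lit 357) (nat_lit 3) (.n (nat_lit 358) (nat_lit 3) (.n (nat_lit 359) (nat_lit 3) (.n (nat_lit 360) (nat_lit 2) (.n (nat_lit 361) (nat_lit 3) (.p (nat_lit 362) (nat_lit 2) (.n (nat_lit 363) (nat_lit 1) (.p (nat_lit 364) (nat_lit 3) (.p (nat_lit 366) (nat_lit 2) (.p (nat_lit 367) (nat_lit 2) (.n (nat_lit 369) (nat_lit 1) (.p (nat_lit 371) (nat_lit 1) (.n (nat_lit 372) (nat_lit 2) (.n (nat_lit 374) (nat_lit 2) (.p (nat_lit 380) (nat_lit 3) (.p (nat_lit 381) (nat_lit 2) (.n (nat_lit 382) (nat_lit 2) (.p (nat_lit 383) (nat_lit 1) .z)))))))))))))))))))))))))))))))))))) (.ct dC2b_c308 (nat_lit 1) (nat_lit 2) (.s false (nat_lit 1) (nat_lit 24) (nat_lit 2) (nat_lit 2) (nat_lit 6) true (nat_lit 5) true (nat_lit 12) true (nat_lit 2) true (nat_lit 16) true (nat_lit 16) (.e true (nat_lit 1) (nat_lit 60) (nat_lit 18) (nat_lit 5) (.e false (nat_lit 1) (nat_lit 132) (nat_lit 6) (nat_lit 12) (.e false (nat_lit 1) (nat_lit 46) (nat_lit 24) (nat_lit 2) (.e true (nat_lit 1) (nat_lit 216) (nat_lit 2) (nat_lit 16) (.e false (nat_lit 1) (nat_lit 231) (nat_lit 2) (nat_lit 16) (.e true (nat_lit 1) (nat_lit 248) (nat_lit 2) (nat_lit 16) (.u (nat_lit 2) (.n (nat_lit 2) (nat_lit 1) (.n (nat_lit 4) (nat_lit 1) (.p (nat_lit 7) (nat_lit 1) (.n (nat_lit 8) (nat_lit 1) (.p (nat_lit 17) (nat_lit 1) (.p (nat_lit 18) (nat_lit 1) (.n (nat_lit 20) (nat_lit 1) (.n (nat_lit 21) (nat_lit 1) (.p (nat_lit 22) (nat_lit 1) (.p (nat_lit 23) (nat_lit 1) (.p (nat_lit 24) (nat_lit 1) (.p (nat_lit 25) (nat_lit 1) (.n (nat_lit 28) (nat_lit 1) (.n (nat_lit 31) (nat_lit 2) (.n (nat_lit 32) (nat_lit 1) (.n (nat_lit 34) (nat_lit 1) (.p (nat_lit 36) (nat_lit 1) (.p (nat_lit 37) (nat_lit 2) (.p (nat_lit 39) (nat_lit 1) (.n (nat_lit 40) (nat_lit 1) (.n (nat_lit 44) (nat_lit 1) (.n (nat_lit 45) (nat_lit 1) (.n (nat_lit 46) (nat_lit 1) (.p (nat_lit 47) (nat_lit 1) .z)))))))))))))))))))))))) .nil))))))))) (.nd (.nd .leaf (nat_lit 48153) (nat_lit 1038) (.p (nat_lit 335) (nat_lit 1) (.p (nat_lit 336) (nat_lit 2) (.n (nat_lit 337) (nat_lit 3) (.p (nat_lit 341) (nat_lit 3) (.p (nat_lit 342) (nat_lit 2) (.p (nat_lit 343) (nat_lit 2) (.p (nat_lit 344) (nat_lit 3) (.n (nat_lit 345) (nat_lit 2) (.n (nat_lit 347) (nat_lit 3) (.p (nat_lit 349) (nat_lit 1) (.n (nat_lit 350) (nat_lit 2) (.n (nat_lit 351) (nat_lit 3) (.p (nat_lit 352) (nat_lit 3) (.n (nat_lit 353) (nat_lit 1) (.n (nat_lit 354) (nat_lit 3) (.n (nat_lit 355) (nat_lit 2) (.n (nat_lit 356) (nat_lit 2) (.p (nat_lit 357) (nat_lit 2) (.p (nat_lit 358) (nat_lit 1) (.p (nat_lit 359) (nat_lit 3) (.p (nat_lit 360) (nat_lit 3) (.p (nat_lit 361) (nat_lit 2) (.p (nat_lit 362) (nat_lit 2) (.p (nat_lit 363) (nat_lit 2) (.p (nat_lit 364) (nat_lit 2) (.n (nat_lit 366) (nat_lit 3) (.n (nat_lit 367) (nat_lit 1) (.n (nat_lit 368) (nat_lit 3) (.n (nat_lit 369) (nat_lit 2) (.p (nat_lit 370) (nat_lit 3) (.p (nat_lit 371) (nat_lit 3) (.n (nat_lit 372) (nat_lit 3) (.p (nat_lit 373) (nat_lit 3) (.n (nat_lit 374) (nat_lit 2) (.n (nat_lit 382) (nat_lit 1) (.n (nat_lit 383) (nat_lit 3) .z)))))))))))))))))))))))))))))))))))) (.ct dC2b_c308 (nat_lit 1) (nat_lit 2) (.s true (nat_lit 1) (nat_lit 25) (nat_lit 7) (nat_lit 2) (nat_lit 1) true (nat_lit 5) true (nat_lit 17) true (nat_lit 2) true (nat_lit 11) true (nat_lit 16) (.e false (nat_lit 1) (nat_lit 61) (nat_lit 19) (nat_lit 5) (.e true (nat_lit 1) (nat_lit 273) (nat_lit 1) (nat_lit 17) (.e false (nat_lit 1) (nat_lit 131) (nat_lit 7) (nat_lit 11) (.e true (nat_lit 1) (nat_lit 249) (nat_lit 2) (nat_lit 16) (.u (nat_lit 2) (.p (nat_lit 3) (nat_lit 1) (.n (nat_lit 8) (nat_lit 1) (.p (nat_lit 16) (nat_lit 1) (.n (nat_lit 17) (nat_lit 1) (.n (nat_lit 24) (nat_lit 1) (.n (nat_lit 27) (nat_lit 1) (.n (nat_lit 29) (nat_lit 1) (.p (nat_lit 37) (nat_lit 1) (.p (nat_lit 39) (nat_lit 1) (.p (nat_lit 45) (nat_lit 1) (.p (nat_lit 46) (nat_lit 1) .z))))))))))) .nil))))))) .leaf) (nat_lit 48154) (nat_lit 991) (.p (nat_lit 335) (nat_lit 2) (.n (nat_lit 336) (nat_lit 3) (.p (nat_lit 337) (nat_lit 1) (.n (nat_lit 338) (nat_lit 1) (.n (nat_lit 339) (nat_lit 2) (.n (nat_lit 340) (nat_lit 3) (.n (nat_lit 341) (nat_lit 2) (.n (nat_lit 342) (nat_lit 3) (.p (nat_lit 343) (nat_lit 2) (.p (nat_lit 346) (nat_lit 1) (.p (nat_lit 347) (nat_lit 1) (.p (nat_lit 349) (nat_lit 3) (.p (nat_lit 350) (nat_lit 2) (.n (nat_lit 351) (nat_lit 1) (.p (nat_lit 353) (nat_lit 1) (.n (nat_lit 354) (nat_lit 2) (.n (nat_lit 355) (nat_lit 1) (.n (nat_lit 358) (nat_lit 2) (.p (nat_lit 359) (nat_lit 2) (.n (nat_lit 360) (nat_lit 1) (.n (nat_lit 361) (nat_lit 3) (.p (nat_lit 362) (nat_lit 2) (.n (nat_lit 364) (nat_lit 2) (.p (nat_lit 366) (nat_lit 3) (.p (nat_lit 367) (nat_lit 1) (.p (nat_lit 368) (nat_lit 3) (.n (nat_lit 369) (nat_lit 1) (.p (nat_lit 370) (nat_lit 3) (.p (nat_lit 371) (nat_lit 3) (.n (nat_lit 372) (nat_lit 3) (.n (nat_lit 373) (nat_lit 3) (.p (nat_lit 374) (nat_lit 3) (.p (nat_lit 380) (nat_lit 1) (.p (nat_lit 381) (nat_lit 3) .z)))))))))))))))))))))))))))))))))) (.ct dC2b_c308 (nat_lit 1) (nat_lit 2) (.s false (nat_lit 1) (nat_lit 26) (nat_lit 2) (nat_lit 2) (nat_lit 6) true (nat_lit 5) true (nat_lit 12) true (nat_lit 2) true (nat_lit 16) true (nat_lit 16) (.e true (nat_lit 1) (nat_lit 62) (nat_lit 18) (nat_lit 5) (.e false (nat_lit 1) (nat_lit 134) (nat_lit 6) (nat_lit 12) (.e false (nat_lit 1) (nat_lit 46) (nat_lit 26) (nat_lit 2) (.e true (nat_lit 1) (nat_lit 205) (nat_lit 2) (nat_lit 16) (.e true (nat_lit 3) (nat_lit 206) (nat_lit 2) (nat_lit 16) (.e true (nat_lit 3) (nat_lit 207) (nat_lit 2) (nat_lit 16) (.e false (nat_lit 2) (nat_lit 208) (nat_lit 2) (nat_lit 16) (.e true (nat_lit 2) (nat_lit 210) (nat_lit 2) (nat_lit 16) (.e false (nat_lit 1) (nat_lit 211) (nat_lit 2) (nat_lit 16) (.e true (nat_lit 1) (nat_lit 213) (nat_lit 2) (nat_lit 16) (.e true (nat_lit 1) (nat_lit 215) (nat_lit 2) (nat_lit 16) (.e false (nat_lit 1) (nat_lit 225) (nat_lit 2) (nat_lit 16) (.e true (nat_lit 3) (nat_lit 227) (nat_lit 2) (nat_lit 16) (.e true (nat_lit 3) (nat_lit 228) (nat_lit 2) (nat_lit 16) (.e false (nat_lit 1) (nat_lit 233) (nat_lit 2) (nat_lit 16) (.e false (nat_lit 3) (nat_lit 246) (nat_lit 2) (nat_lit 16) (.e false (nat_lit 3) (nat_lit 247) (nat_lit 2) (nat_lit 16) (.e true (nat_lit 1) (nat_lit 248) (nat_lit 2) (nat_lit 16) (.e true (nat_lit 1) (nat_lit 217) (nat_lit 2) (nat_lit 16) (.e true (nat_lit 1) (nat_lit 218) (nat_lit 2) (nat_lit 16) (.u (nat_lit 2) (.n (nat_lit 0) (nat_lit 5) (.n (nat_lit 2) (nat_lit 1) (.n (nat_lit 5) (nat_lit 4) (.n (nat_lit 6) (nat_lit 3) (.p (nat_lit 7) (nat_lit 2) (.n (nat_lit 9) (nat_lit 1) (.p (nat_lit 10) (nat_lit 1) (.n (nat_lit 11) (nat_lit 2) (.n (nat_lit 12) (nat_lit 1) (.n (nat_lit 14) (nat_lit 4) (.n (nat_lit 15) (nat_lit 3) (.n (nat_lit 16) (nat_lit 2) (.n (nat_lit 17) (nat_lit 2) (.n (nat_lit 18) (nat_lit 2) (.p (nat_lit 19) (nat_lit 2) (.n (nat_lit 20) (nat_lit 1) (.p (nat_lit 21) (nat_lit 2) (.n (nat_lit 22) (nat_lit 2) (.p (nat_lit 23) (nat_lit 3) (.n (nat_lit 24) (nat_lit 3) (.n (nat_lit 25) (nat_lit 2) (.p (nat_lit 26) (nat_lit 1) (.n (nat_lit 27) (nat_lit 1) (.p (nat_lit 28) (nat_lit 2) (.p (nat_lit 29) (nat_lit 3) (.n (nat_lit 31) (nat_lit 3) (.p (nat_lit 32) (nat_lit 3) (.p (nat_lit 34) (nat_lit 1) (.p (nat_lit 36) (nat_lit 3) (.n (nat_lit 39) (nat_lit 1) (.n (nat_lit 47) (nat_lit 1) (.n (nat_lit 48) (nat_lit 2) (.p (nat_lit 303) (nat_lit 1) (.p (nat_lit 304) (nat_lit 1) .z)))))))))))))))))))))))))))))))))) .nil))))))))))))))))))))))) .leaf))) (nat_lit 48155) (nat_lit 1001) (.n (nat_lit 335) (nat_lit 1) (.n (nat_lit 336) (nat_lit 3) (.p (nat_lit 337) (nat_lit 1) (.n (nat_lit 340) (nat_lit 2) (.p (nat_lit 341) (nat_lit 2) (.p (nat_lit 342) (nat_lit 1) (.p (nat_lit 343) (nat_lit 2) (.n (nat_lit 344) (nat_lit 2) (.n (nat_lit 345) (nat_lit 1) (.p (nat_lit 347) (nat_lit 2) (.n (nat_lit 349) (nat_lit 2) (.p (nat_lit 350) (nat_lit 1) (.n (nat_lit 351) (nat_lit 3) (.n (nat_lit 352) (nat_lit 2) (.n (nat_lit 353) (nat_lit 2) (.p (nat_lit 355) (nat_lit 1) (.p (nat_lit 356) (nat_lit 3) (.n (nat_lit 357) (nat_lit 3) (.p (nat_lit 361) (nat_lit 3) (.n (nat_lit 362) (nat_lit 3) (.n (nat_lit 363) (nat_lit 3) (.p (nat_lit 364) (nat_lit 2) (.n (nat_lit 366) (nat_lit 1) (.n (nat_lit 367) (nat_lit 1) (.p (nat_lit 369) (nat_lit 3) (.p (nat_lit 371) (nat_lit 3) (.p (nat_lit 372) (nat_lit 2) (.p (nat_lit 374) (nat_lit 1) (.n (nat_lit 380) (nat_lit 3) (.n (nat_lit 381) (nat_lit 2) .z)))))))))))))))))))))))))))))) (.ct dC2b_c308 (nat_lit 1) (nat_lit 2) (.s false (nat_lit 1) (nat_lit 27) (nat_lit 2) (nat_lit 2) (nat_lit 6) true (nat_lit 5) true (nat_lit 12) true (nat_lit 2) true (nat_lit 16) true (nat_lit 16) (.e true (nat_lit 1) (nat_lit 63) (nat_lit 18) (nat_lit 5) (.e false (nat_lit 1) (nat_lit 135) (nat_lit 6) (nat_lit 12) (.e false (nat_lit 1) (nat_lit 46) (nat_lit 27) (nat_lit 2) (.e true (nat_lit 1) (nat_lit 219) (nat_lit 2) (nat_lit 16) (.e false (nat_lit 1) (nat_lit 234) (nat_lit 2) (nat_lit 16) (.e true (nat_lit 1) (nat_lit 250) (nat_lit 2) (nat_lit 16) (.u (nat_lit 2) (.n (nat_lit 6) (nat_lit 1) (.n (nat_lit 8) (nat_lit 1) (.p (nat_lit 10) (nat_lit 1) (.p (nat_lit 16) (nat_lit 1) (.n (nat_lit 19) (nat_lit 1) (.n (nat_lit 21) (nat_lit 1) (.p (nat_lit 22) (nat_lit 1) (.p (nat_lit 24) (nat_lit 1) (.p (nat_lit 25) (nat_lit 1) (.p (nat_lit 32) (nat_lit 1) (.n (nat_lit 36) (nat_lit 1) (.n (nat_lit 37) (nat_lit 1) (.p (nat_lit 316) (nat_lit 1) .z))))))))))))) .nil))))))))) (.nd (.nd (.nd (.nd .leaf (nat_lit 48156) (nat_lit 1093) (.n (nat_lit 335) (nat_lit 2) (.p (nat_lit 336) (nat_lit 3) (.n (nat_lit 337) (nat_lit 1) (.n (nat_lit 340) (nat_lit 2) (.n (nat_lit 341) (nat_lit 1) (.p (nat_lit 342) (nat_lit 3) (.n (nat_lit 343) (nat_lit 1) (.n (nat_lit 344) (nat_lit 3) (.p (nat_lit 345) (nat_lit 3) (.n (nat_lit 346) (nat_lit 3) (.n (nat_lit 347) (nat_lit 2) (.p (nat_lit 351) (nat_lit 2) (.n (nat_lit 352) (nat_lit 3) (.p (nat_lit 353) (nat_lit 2) (.p (nat_lit 355) (nat_lit 3) (.p (nat_lit 356) (nat_lit 1) (.n (nat_lit 357) (nat_lit 1) (.n (nat_lit 358) (nat_lit 2) (.p (nat_lit 359) (nat_lit 3) (.n (nat_lit 360) (nat_lit 2) (.p (nat_lit 361) (nat_lit 1) (.n (nat_lit 362) (nat_lit 2) (.p (nat_lit 364) (nat_lit 1) (.n (nat_lit 366) (nat_lit 1) (.p (nat_lit 367) (nat_lit 3) (.n (nat_lit 368) (nat_lit 1) (.p (nat_lit 369) (nat_lit 3) (.n (nat_lit 370) (nat_lit 2) (.n (nat_lit 372) (nat_lit 3) (.p (nat_lit 373) (nat_lit 1) (.n (nat_lit 374) (nat_lit 1) (.p (nat_lit 380) (nat_lit 2) (.n (nat_lit 381) (nat_lit 1) (.p (nat_lit 382) (nat_lit 1) (.p (nat_lit 383) (nat_lit 3) .z))))))))))))))))))))))))))))))))))) (.ct dC2b_c308 (nat_lit 1) (nat_lit 2) (.s true (nat_lit 1) (nat_lit 28) (nat_lit 7) (nat_lit 2) (nat_lit 1) true (nat_lit 5) true (nat_lit 17) true (nat_lit 2) true (nat_lit 11) true (nat_lit 16) (.e false (nat_lit 1) (nat_lit 64) (nat_lit 19) (nat_lit 5) (.e false (nat_lit 3) (nat_lit 252) (nat_lit 1) (nat_lit 17) (.e false (nat_lit 2) (nat_lit 253) (nat_lit 1) (nat_lit 17) (.e true (nat_lit 3) (nat_lit 254) (nat_lit 1) (nat_lit 17) (.e false (nat_lit 3) (nat_lit 255) (nat_lit 1) (nat_lit 17) (.e false (nat_lit 1) (nat_lit 256) (nat_lit 1) (nat_lit 17) (.e false (nat_lit 3) (nat_lit 258) (nat_lit 1) (nat_lit 17) (.e false (nat_lit 1) (nat_lit 262) (nat_lit 1) (nat_lit 17) (.e true (nat_lit 1) (nat_lit 263) (nat_lit 1) (nat_lit 17) (.e false (nat_lit 3) (nat_lit 264) (nat_lit 1) (nat_lit 17) (.e false (nat_lit 1) (nat_lit 267) (nat_lit 1) (nat_lit 17) (.e true (nat_lit 2) (nat_lit 269) (nat_lit 1) (nat_lit 17) (.e false (nat_lit 3) (nat_lit 270) (nat_lit 1) (nat_lit 17) (.e false (nat_lit 3) (nat_lit 271) (nat_lit 1) (nat_lit 17) (.e false (nat_lit 2) (nat_lit 272) (nat_lit 1) (nat_lit 17) dC2b_i26))))))))))))))))) .leaf) (nat_lit 48157) (nat_lit 1054) (.n (nat_lit 335) (nat_lit 3) (.n (nat_lit 336) (nat_lit 1) (.n (nat_lit 337) (nat_lit 2) (.p (nat_lit 338) (nat_lit 2) (.n (nat_lit 339) (nat_lit 3) (.n (nat_lit 342) (nat_lit 1) (.p (nat_lit 343) (nat_lit 2) (.n (nat_lit 344) (nat_lit 2) (.n (nat_lit 345) (nat_lit 2) (.p (nat_lit 346) (nat_lit 3) (.n (nat_lit 349) (nat_lit 3) (.p (nat_lit 350) (nat_lit 3) (.n (nat_lit 351) (nat_lit 1) (.n (nat_lit 352) (nat_lit 2) (.n (nat_lit 353) (nat_lit 1) (.p (nat_lit 354) (nat_lit 1) (.p (nat_lit 356) (nat_lit 2) (.n (nat_lit 357) (nat_lit 2) (.n (nat_lit 358) (nat_lit 3) (.p (nat_lit 359) (nat_lit 3) (.p (nat_lit 361) (nat_lit 2) (.p (nat_lit 363) (nat_lit 1) (.n (nat_lit 364) (nat_lit 1) (.n (nat_lit 366) (nat_lit 3) (.n (nat_lit 367) (nat_lit 3) (.p (nat_lit 368) (nat_lit 3) (.p (nat_lit 369) (nat_lit 2) (.n (nat_lit 370) (nat_lit 2) (.p (nat_lit 372) (nat_lit 1) (.n (nat_lit 373) (nat_lit 3) (.p (nat_lit 374) (nat_lit 1) (.p (nat_lit 380) (nat_lit 3) (.p (nat_lit 381) (nat_lit 2) (.p (nat_lit 382) (nat_lit 1) (.p (nat_lit 383) (nat_lit 3) .z))))))))))))))))))))))))))))))))))) (.ct dC2b_c308 (nat_lit 1) (nat_lit 2) (.s false (nat_lit 1) (nat_lit 29) (nat_lit 2) (nat_lit 2) (nat_lit 6) true (nat_lit 5) true (nat_lit 12) true (nat_lit 2) true (nat_lit 16) true (nat_lit 16) (.e true (nat_lit 1) (nat_lit 65) (nat_lit 18) (nat_lit 5) (.e false (nat_lit 1) (nat_lit 137) (nat_lit 6) (nat_lit 12) (.e false (nat_lit 1) (nat_lit 46) (nat_lit 29) (nat_lit 2) (.e true (nat_lit 3) (nat_lit 205) (nat_lit 2) (nat_lit 16) (.e true (nat_lit 3) (nat_lit 208) (nat_lit 2) (nat_lit 16) (.e true (nat_lit 1) (nat_lit 209) (nat_lit 2) (nat_lit 16) (.e true (nat_lit 3) (nat_lit 211) (nat_lit 2) (nat_lit 16) dC2b_i27))))))))) .leaf) (nat_lit 48161) (nat_lit 1228) (.p (nat_lit 397) (nat_lit 1) (.p (nat_lit 398) (nat_lit 3) (.n (nat_lit 399) (nat_lit 1) (.p (nat_lit 400) (nat_lit 1) (.n (nat_lit 402) (nat_lit 2) (.p (nat_lit 403) (nat_lit 2) (.p (nat_lit 404) (nat_lit 3) (.n (nat_lit 405) (nat_lit 1) (.p (nat_lit 406) (nat_lit 3) (.n (nat_lit 407) (nat_lit 2) (.p (nat_lit 408) (nat_lit 2) (.p (nat_lit 409) (nat_lit 2) (.p (nat_lit 410) (nat_lit 1) (.p (nat_lit 411) (nat_lit 1) (.p (nat_lit 412) (nat_lit 3) (.p (nat_lit 413) (nat_lit 3) (.n (nat_lit 414) (nat_lit 2) (.p (nat_lit 415) (nat_lit 1) (.p (nat_lit 416) (nat_lit 2) (.n (nat_lit 418) (nat_lit 1) (.p (nat_lit 420) (nat_lit 1) (.p (nat_lit 421) (nat_lit 3) (.n (nat_lit 431) (nat_lit 2) (.p (nat_lit 435) (nat_lit 1) .z)))))))))))))))))))))))) (.ct dC2b_c293 (nat_lit 1) (nat_lit 1) (.s false (nat_lit 1) (nat_lit 20) (nat_lit 11) (nat_lit 1) (nat_lit 2) true (nat_lit 1) true (nat_lit 14) true (nat_lit 3) true (nat_lit 7) true (nat_lit 15) (.s true (nat_lit 1) (nat_lit 20) (nat_lit 11) (nat_lit 2) (nat_lit 1) true (nat_lit 2) true (nat_lit 15) true (nat_lit 3) true (nat_lit 7) true (nat_lit 14) (.e false (nat_lit 1) (nat_lit 258) (nat_lit 2) (nat_lit 14) (.e false (nat_lit 1) (nat_lit 265) (nat_lit 2) (nat_lit 14) (.e true (nat_lit 1) (nat_lit 266) (nat_lit 2) (nat_lit 14) (.e true (nat_lit 2) (nat_lit 264) (nat_lit 2) (nat_lit 14) dC2b_i28))))))) (.nd (.nd .leaf (nat_lit 48162) (nat_lit 1262) (.n (nat_lit 397) (nat_lit 3) (.n (nat_lit 398) (nat_lit 3) (.n (nat_lit 399) (nat_lit 3) (.n (nat_lit 400) (nat_lit 3) (.p (nat_lit 401) (nat_lit 2) (.n (nat_lit 402) (nat_lit 2) (.n (nat_lit 403) (nat_lit 2) (.n (nat_lit 404) (nat_lit 1) (.n (nat_lit 407) (nat_lit 3) (.p (nat_lit 408) (nat_lit 2) (.n (nat_lit 410) (nat_lit 2) (.p (nat_lit 411) (nat_lit 3) (.n (nat_lit 414) (nat_lit 1) (.p (nat_lit 415) (nat_lit 2) (.n (nat_lit 416) (nat_lit 1) (.p (nat_lit 418) (nat_lit 3) (.p (nat_lit 420) (nat_lit 3) (.n (nat_lit 421) (nat_lit 3) (.n (nat_lit 431) (nat_lit 3) (.n (nat_lit 432) (nat_lit 3) .z)))))))))))))))))))) (.ct dC2b_c293 (nat_lit 1) (nat_lit 1) (.s false (nat_lit 1) (nat_lit 20) (nat_lit 12) (nat_lit 1) (nat_lit 2) true (nat_lit 1) true (nat_lit 14) true (nat_lit 3) true (nat_lit 7) true (nat_lit 15) (.s true (nat_lit 1) (nat_lit 20) (nat_lit 12) (nat_lit 2) (nat_lit 1) true (nat_lit 2) true (nat_lit 15) true (nat_lit 3) true (nat_lit 7) true (nat_lit 14) (.e true (nat_lit 2) (nat_lit 253) (nat_lit 2) (nat_lit 14) (.e true (nat_lit 1) (nat_lit 255) (nat_lit 2) (nat_lit 14) (.e true (nat_lit 2) (nat_lit 259) (nat_lit 2) (nat_lit 14) (.e false (nat_lit 2) (nat_lit 260) (nat_lit 2) (nat_lit 14) dC2b_i29))))))) .leaf) (nat_lit 48163) (nat_lit 1325) (.n (nat_lit 397) (nat_lit 3) (.p (nat_lit 398) (nat_lit 1) (.p (nat_lit 399) (nat_lit 3) (.p (nat_lit 401) (nat_lit 2) (.n (nat_lit 402) (nat_lit 3) (.p (nat_lit 403) (nat_lit 3) (.n (nat_lit 404) (nat_lit 3) (.n (nat_lit 405) (nat_lit 3) (.n (nat_lit 407) (nat_lit 3) (.p (nat_lit 408) (nat_lit 3) (.n (nat_lit 409) (nat_lit 3) (.p (nat_lit 410) (nat_lit 1) (.p (nat_lit 411) (nat_lit 2) (.n (nat_lit 412) (nat_lit 3) (.n (nat_lit 413) (nat_lit 3) (.n (nat_lit 414) (nat_lit 3) (.p (nat_lit 415) (nat_lit 3) (.p (nat_lit 418) (nat_lit 2) (.p (nat_lit 420) (nat_lit 2) (.p (nat_lit 421) (nat_lit 1) (.n (nat_lit 431) (nat_lit 3) (.n (nat_lit 432) (nat_lit 3) .z)))))))))))))))))))))) (.ct dC2b_c293 (nat_lit 1) (nat_lit 1) (.s false (nat_lit 1) (nat_lit 20) (nat_lit 13) (nat_lit 1) (nat_lit 2) true (nat_lit 1) true (nat_lit 14) true (nat_lit 3) true (nat_lit 7) true (nat_lit 15) (.e false (nat_lit 3) (nat_lit 252) (nat_lit 2) (nat_lit 14) (.e true (nat_lit 1) (nat_lit 253) (nat_lit 2) (nat_lit 14) (.e true (nat_lit 3) (nat_lit 254) (nat_lit 2) (nat_lit 14) (.e false (nat_lit 3) (nat_lit 255) (nat_lit 2) (nat_lit 14) (.e false (nat_lit 3) (nat_lit 257) (nat_lit 2) (nat_lit 14) (.e false (nat_lit 3) (nat_lit 258) (nat_lit 2) (nat_lit 14) (.e false (nat_lit 3) (nat_lit 259) (nat_lit 2) (nat_lit 14) (.e true (nat_lit 3) (nat_lit 260) (nat_lit 2) (nat_lit 14) dC2b_i30)))))))))) .leaf)) (nat_lit 48164) (nat_lit 1326) (.n (nat_lit 397) (nat_lit 1) (.p (nat_lit 398) (nat_lit 3) (.p (nat_lit 399) (nat_lit 1) (.n (nat_lit 400) (nat_lit 3) (.p (nat_lit 401) (nat_lit 1) (.p (nat_lit 402) (nat_lit 3) (.p (nat_lit 403) (nat_lit 1) (.p (nat_lit 404) (nat_lit 1) (.n (nat_lit 405) (nat_lit 2) (.n (nat_lit 406) (nat_lit 3) (.p (nat_lit 408) (nat_lit 2) (.p (nat_lit 409) (nat_lit 2) (.p (nat_lit 411) (nat_lit 3) (.n (nat_lit 412) (nat_lit 1) (.n (nat_lit 413) (nat_lit 1) (.p (nat_lit 414) (nat_lit 2) (.p (nat_lit 415) (nat_lit 2) (.p (nat_lit 416) (nat_lit 1) (.p (nat_lit 420) (nat_lit 2) (.p (nat_lit 421) (nat_lit 3) (.p (nat_lit 431) (nat_lit 3) (.p (nat_lit 432) (nat_lit 1) (.n (nat_lit 435) (nat_lit 1) .z))))))))))))))))))))))) (.ct dC2b_c293 (nat_lit 1) (nat_lit 1) (.s true (nat_lit 1) (nat_lit 47) (nat_lit 2) (nat_lit 2) (nat_lit 3) true (nat_lit 7) true (nat_lit 13) false (nat_lit 1) true (nat_lit 14) true (nat_lit 14) (.e true (nat_lit 1) (nat_lit 103) (nat_lit 11) (nat_lit 7) (.e true (nat_lit 1) (nat_lit 202) (nat_lit 3) (nat_lit 13) (.e false (nat_lit 1) (nat_lit 47) (nat_lit 34) (nat_lit 1) (.e true (nat_lit 1) (nat_lit 47) (nat_lit 35) (nat_lit 1) (.e true (nat_lit 1) (nat_lit 47) (nat_lit 38) (nat_lit 1) (.e true (nat_lit 1) (nat_lit 252) (nat_lit 2) (nat_lit 14) (.e true (nat_lit 1) (nat_lit 253) (nat_lit 2) (nat_lit 14) (.e false (nat_lit 3) (nat_lit 254) (nat_lit 2) (nat_lit 14) (.e false (nat_lit 1) (nat_lit 255) (nat_lit 2) (nat_lit 14) (.e true (nat_lit 1) (nat_lit 257) (nat_lit 2) (nat_lit 14) (.e true (nat_lit 2) (nat_lit 258) (nat_lit 2) (nat_lit 14) (.e false (nat_lit 2) (nat_lit 265) (nat_lit 2) (nat_lit 14) (.e true (nat_lit 1) (nat_lit 266) (nat_lit 2) (nat_lit 14) (.e true (nat_lit 3) (nat_lit 269) (nat_lit 2) (nat_lit 14) (.e false (nat_lit 1) (nat_lit 272) (nat_lit 2) (nat_lit 14) (.e false (nat_lit 1) (nat_lit 285) (nat_lit 2) (nat_lit 14) (.u (nat_lit 2) (.n (nat_lit 0) (nat_lit 2) (.n (nat_lit 1) (nat_lit 1) (.n (nat_lit 2) (nat_lit 2) (.n (nat_lit 3) (nat_lit 1) (.n (nat_lit 6) (nat_lit 2) (.p (nat_lit 8) (nat_lit 2) (.p (nat_lit 10) (nat_lit 1) (.n (nat_lit 11) (nat_lit 1) (.p (nat_lit 12) (nat_lit 2) (.p (nat_lit 13) (nat_lit 1) (.p (nat_lit 14) (nat_lit 1) (.p (nat_lit 15) (nat_lit 1) (.p (nat_lit 16) (nat_lit 1) (.p (nat_lit 17) (nat_lit 1) (.p (nat_lit 18) (nat_lit 1) (.n (nat_lit 19) (nat_lit 3) (.n (nat_lit 21) (nat_lit 1) (.p (nat_lit 23) (nat_lit 2) (.n (nat_lit 24) (nat_lit 3) (.p (nat_lit 25) (nat_lit 1) (.n (nat_lit 30) (nat_lit 1) (.p (nat_lit 34) (nat_lit 1) (.p (nat_lit 38) (nat_lit 2) (.n (nat_lit 206) (nat_lit 1) (.p (nat_lit 210) (nat_lit 1) (.p (nat_lit 221) (nat_lit 1) .z)))))))))))))))))))))))))) .nil))))))))))))))))))) (.nd (.nd (.nd .leaf (nat_lit 48165) (nat_lit 1300) (.n (nat_lit 397) (nat_lit 1) (.n (nat_lit 398) (nat_lit 1) (.p (nat_lit 399) (nat_lit 1) (.p (nat_lit 400) (nat_lit 2) (.p (nat_lit 402) (nat_lit 2) (.n (nat_lit 403) (nat_lit 2) (.p (nat_lit 404) (nat_lit 3) (.n (nat_lit 405) (nat_lit 2) (.p (nat_lit 406) (nat_lit 3) (.n (nat_lit 407) (nat_lit 3) (.n (nat_lit 408) (nat_lit 1) (.n (nat_lit 409) (nat_lit 2) (.p (nat_lit 410) (nat_lit 1) (.p (nat_lit 411) (nat_lit 2) (.n (nat_lit 412) (nat_lit 2) (.n (nat_lit 413) (nat_lit 2) (.p (nat_lit 414) (nat_lit 3) (.n (nat_lit 416) (nat_lit 3) (.n (nat_lit 418) (nat_lit 1) (.n (nat_lit 420) (nat_lit 3) (.n (nat_lit 421) (nat_lit 3) (.p (nat_lit 431) (nat_lit 1) (.n (nat_lit 432) (nat_lit 2) (.p (nat_lit 435) (nat_lit 2) .z)))))))))))))))))))))))) (.ct dC2b_c293 (nat_lit 1) (nat_lit 1) (.s true (nat_lit 1) (nat_lit 47) (nat_lit 0) (nat_lit 7) (nat_lit 1) true (nat_lit 13) true (nat_lit 15) false (nat_lit 1) true (nat_lit 16) true (nat_lit 9) (.e true (nat_lit 1) (nat_lit 204) (nat_lit 3) (nat_lit 13) (.e true (nat_lit 1) (nat_lit 323) (nat_lit 1) (nat_lit 15) (.e false (nat_lit 2) (nat_lit 305) (nat_lit 1) (nat_lit 15) (.e true (nat_lit 1) (nat_lit 306) (nat_lit 1) (nat_lit 15) (.e false (nat_lit 2) (nat_lit 307) (nat_lit 1) (nat_lit 15) (.e true (nat_lit 1) (nat_lit 309) (nat_lit 1) (nat_lit 15) (.e true (nat_lit 1) (nat_lit 310) (nat_lit 1) (nat_lit 15) (.e true (nat_lit 1) (nat_lit 311) (nat_lit 1) (nat_lit 15) (.e true (nat_lit 1) (nat_lit 312) (nat_lit 1) (nat_lit 15) (.e false (nat_lit 3) (nat_lit 313) (nat_lit 1) (nat_lit 15) (.e true (nat_lit 1) (nat_lit 314) (nat_lit 1) (nat_lit 15) (.e true (nat_lit 3) (nat_lit 315) (nat_lit 1) (nat_lit 15) (.e true (nat_lit 2) (nat_lit 317) (nat_lit 1) (nat_lit 15) (.e false (nat_lit 1) (nat_lit 321) (nat_lit 1) (nat_lit 15) (.e false (nat_lit 1) (nat_lit 324) (nat_lit 0) (nat_lit 16) (.e true (nat_lit 3) (nat_lit 325) (nat_lit 0) (nat_lit 16) (.e false (nat_lit 1) (nat_lit 326) (nat_lit 0) (nat_lit 16) (.e false (nat_lit 1) (nat_lit 327) (nat_lit 0) (nat_lit 16) dC2b_i31)))))))))))))))))))) .leaf) (nat_lit 48166) (nat_lit 1319) (.p (nat_lit 397) (nat_lit 3) (.p (nat_lit 398) (nat_lit 3) (.p (nat_lit 399) (nat_lit 1) (.n (nat_lit 400) (nat_lit 3) (.p (nat_lit 401) (nat_lit 3) (.n (nat_lit 402) (nat_lit 3) (.n (nat_lit 403) (nat_lit 1) (.n (nat_lit 404) (nat_lit 1) (.p (nat_lit 405) (nat_lit 2) (.n (nat_lit 406) (nat_lit 3) (.n (nat_lit 407) (nat_lit 1) (.p (nat_lit 408) (nat_lit 1) (.n (nat_lit 409) (nat_lit 2) (.p (nat_lit 410) (nat_lit 3) (.n (nat_lit 411) (nat_lit 3) (.p (nat_lit 415) (nat_lit 1) (.p (nat_lit 416) (nat_lit 2) (.n (nat_lit 418) (nat_lit 3) (.n (nat_lit 420) (nat_lit 1) (.p (nat_lit 431) (nat_lit 1) (.n (nat_lit 432) (nat_lit 1) (.n (nat_lit 435) (nat_lit 1) .z)))))))))))))))))))))) (.ct dC2b_c293 (nat_lit 1) (nat_lit 1) (.s true (nat_lit 1) (nat_lit 20) (nat_lit 18) (nat_lit 1) (nat_lit 0) true (nat_lit 1) true (nat_lit 16) true (nat_lit 3) true (nat_lit 4) true (nat_lit 15) (.e false (nat_lit 1) (nat_lit 326) (nat_lit 0) (nat_lit 16) (.e true (nat_lit 3) (nat_lit 327) (nat_lit 0) (nat_lit 16) (.e false (nat_lit 2) (nat_lit 328) (nat_lit 0) (nat_lit 16) (.e true (nat_lit 1) (nat_lit 329) (nat_lit 0) (nat_lit 16) (.e true (nat_lit 1) (nat_lit 330) (nat_lit 0) (nat_lit 16) (.e false (nat_lit 3) (nat_lit 331) (nat_lit 0) (nat_lit 16) dC2b_i32)))))))) .leaf) (nat_lit 48167) (nat_lit 1432) (.p (nat_lit 436) (nat_lit 2) (.p (nat_lit 437) (nat_lit 2) (.n (nat_lit 438) (nat_lit 3) (.p (nat_lit 441) (nat_lit 3) (.p (nat_lit 442) (nat_lit 1) (.n (nat_lit 443) (nat_lit 3) (.n (nat_lit 444) (nat_lit 2) (.p (nat_lit 447) (nat_lit 3) (.n (nat_lit 448) (nat_lit 1) (.p (nat_lit 450) (nat_lit 1) .z)))))))))) (.ct dC2b_c53 (nat_lit 1) (nat_lit 0) (.s false (nat_lit 1) (nat_lit 39) (nat_lit 2) (nat_lit 7) (nat_lit 1) true (nat_lit 7) true (nat_lit 10) true (nat_lit 0) true (nat_lit 9) true (nat_lit 6) (.e true (nat_lit 1) (nat_lit 194) (nat_lit 6) (nat_lit 7) (.e false (nat_lit 1) (nat_lit 334) (nat_lit 1) (nat_lit 10) (.e false (nat_lit 1) (nat_lit 289) (nat_lit 2) (nat_lit 9) (.e true (nat_lit 2) (nat_lit 290) (nat_lit 2) (nat_lit 9) (.e false (nat_lit 2) (nat_lit 291) (nat_lit 2) (nat_lit 9) (.e false (nat_lit 1) (nat_lit 292) (nat_lit 2) (nat_lit 9) (.e true (nat_lit 1) (nat_lit 293) (nat_lit 2) (nat_lit 9) (.e true (nat_lit 2) (nat_lit 294) (nat_lit 2) (nat_lit 9) (.e true (nat_lit 1) (nat_lit 295) (nat_lit 2) (nat_lit 9) (.e true (nat_lit 2) (nat_lit 297) (nat_lit 2) (nat_lit 9) (.e true (nat_lit 1) (nat_lit 298) (nat_lit 2) (nat_lit 9) (.e true (nat_lit 2) (nat_lit 300) (nat_lit 2) (nat_lit 9) (.e false (nat_lit 2) (nat_lit 301) (nat_lit 2) (nat_lit 9) (.e false (nat_lit 3) (nat_lit 303) (nat_lit 2) (nat_lit 9) (.e true (nat_lit 2) (nat_lit 304) (nat_lit 2) (nat_lit 9) (.e false (nat_lit 1) (nat_lit 161) (nat_lit 7) (nat_lit 6) (.u (nat_lit 2) (.p (nat_lit 0) (nat_lit 1) (.p (nat_lit 1) (nat_lit 1) (.p (nat_lit 2) (nat_lit 1) (.p (nat_lit 3) (nat_lit 1) (.n (nat_lit 4) (nat_lit 2) (.p (nat_lit 5) (nat_lit 1) (.p (nat_lit 8) (nat_lit 1) (.n (nat_lit 9) (nat_lit 2) (.p (nat_lit 14) (nat_lit 1) .z))))))))) .nil))))))))))))))))))) (.nd .leaf (nat_lit 48168) (nat_lit 1452) (.n (nat_lit 436) (nat_lit 1) (.p (nat_lit 437) (nat_lit 1) (.p (nat_lit 438) (nat_lit 2) (.p (nat_lit 439) (nat_lit 2) (.n (nat_lit 440) (nat_lit 3) (.n (nat_lit 441) (nat_lit 2) (.p (nat_lit 443) (nat_lit 3) (.p (nat_lit 444) (nat_lit 3) (.n (nat_lit 447) (nat_lit 2) (.p (nat_lit 448) (nat_lit 3) (.p (nat_lit 450) (nat_lit 3) .z))))))))))) (.ct dC2b_c53 (nat_lit 1) (nat_lit 0) (.s false (nat_lit 3) (nat_lit 20) (nat_lit 4) (nat_lit 1) (nat_lit 7) true (nat_lit 0) true (nat_lit 6) true (nat_lit 2) true (nat_lit 8) true (nat_lit 10) (.e false (nat_lit 1) (nat_lit 47) (nat_lit 41) (nat_lit 0) (.e false (nat_lit 1) (nat_lit 164) (nat_lit 7) (nat_lit 6) (.e true (nat_lit 1) (nat_lit 165) (nat_lit 7) (nat_lit 6) (.e true (nat_lit 3) (nat_lit 166) (nat_lit 7) (nat_lit 6) (.e true (nat_lit 3) (nat_lit 79) (nat_lit 20) (nat_lit 2) (.e false (nat_lit 3) (nat_lit 204) (nat_lit 4) (nat_lit 8) (.u (nat_lit 2) (.n (nat_lit 1) (nat_lit 1) (.n (nat_lit 3) (nat_lit 2) (.p (nat_lit 4) (nat_lit 1) (.n (nat_lit 5) (nat_lit 2) (.n (nat_lit 6) (nat_lit 2) (.n (nat_lit 14) (nat_lit 2) (.p (nat_lit 20) (nat_lit 1) (.n (nat_lit 23) (nat_lit 1) (.n (nat_lit 60) (nat_lit 1) (.p (nat_lit 61) (nat_lit 1) .z)))))))))) .nil))))))))) .leaf)))) (nat_lit 48169) (nat_lit 1451) (.p (nat_lit 437) (nat_lit 1) (.p (nat_lit 438) (nat_lit 2) (.p (nat_lit 439) (nat_lit 1) (.p (nat_lit 440) (nat_lit 2) (.n (nat_lit 441) (nat_lit 2) (.p (nat_lit 442) (nat_lit 2) (.n (nat_lit 443) (nat_lit 1) (.n (nat_lit 447) (nat_lit 2) (.p (nat_lit 448) (nat_lit 3) (.n (nat_lit 450) (nat_lit 3) .z)))))))))) (.ct dC2b_c53 (nat_lit 1) (nat_lit 0) (.s true (nat_lit 1) (nat_lit 41) (nat_lit 7) (nat_lit 2) (nat_lit 1) true (nat_lit 3) true (nat_lit 10) true (nat_lit 0) true (nat_lit 6) true (nat_lit 9) (.e false (nat_lit 1) (nat_lit 93) (nat_lit 19) (nat_lit 3) (.e true (nat_lit 1) (nat_lit 324) (nat_lit 1) (nat_lit 10) (.e true (nat_lit 3) (nat_lit 325) (nat_lit 1) (nat_lit 10) (.e false (nat_lit 1) (nat_lit 327) (nat_lit 1) (nat_lit 10) (.e true (nat_lit 3) (nat_lit 328) (nat_lit 1) (nat_lit 10) (.e false (nat_lit 1) (nat_lit 329) (nat_lit 1) (nat_lit 10) (.e true (nat_lit 3) (nat_lit 330) (nat_lit 1) (nat_lit 10) (.e false (nat_lit 2) (nat_lit 331) (nat_lit 1) (nat_lit 10) (.e false (nat_lit 1) (nat_lit 168) (nat_lit 7) (nat_lit 6) (.e false (nat_lit 3) (nat_lit 303) (nat_lit 2) (nat_lit 9) (.e false (nat_lit 3) (nat_lit 304) (nat_lit 2) (nat_lit 9) (.e false (nat_lit 1) (nat_lit 290) (nat_lit 2) (nat_lit 9) (.e true (nat_lit 2) (nat_lit 292) (nat_lit 2) (nat_lit 9) (.e true (nat_lit 2) (nat_lit 293) (nat_lit 2) (nat_lit 9) (.e false (nat_lit 3) (nat_lit 295) (nat_lit 2) (nat_lit 9) (.e false (nat_lit 1) (nat_lit 296) (nat_lit 2) (nat_lit 9) (.e false (nat_lit 1) (nat_lit 298) (nat_lit 2) (nat_lit 9) (.e false (nat_lit 1) (nat_lit 299) (nat_lit 2) (nat_lit 9) (.e true (nat_lit 2) (nat_lit 301) (nat_lit 2) (nat_lit 9) (.e true (nat_lit 3) (nat_lit 294) (nat_lit 2) (nat_lit 9) (.e true (nat_lit 3) (nat_lit 297) (nat_lit 2) (nat_lit 9) (.u (nat_lit 2) (.p (nat_lit 1) (nat_lit 1) (.n (nat_lit 2) (nat_lit 2) (.n (nat_lit 3) (nat_lit 2) (.n (nat_lit 4) (nat_lit 1) (.n (nat_lit 5) (nat_lit 2) (.p (nat_lit 6) (nat_lit 3) (.p (nat_lit 8) (nat_lit 2) (.n (nat_lit 11) (nat_lit 1) (.n (nat_lit 12) (nat_lit 2) (.p (nat_lit 13) (nat_lit 1) (.p (nat_lit 14) (nat_lit 2) (.n (nat_lit 81) (nat_lit 2) (.p (nat_lit 82) (nat_lit 1) (.p (nat_lit 83) (nat_lit 2) (.n (nat_lit 86) (nat_lit 1) (.n (nat_lit 88) (nat_lit 1) (.p (nat_lit 89) (nat_lit 1) (.p (nat_lit 94) (nat_lit 1) (.p (nat_lit 95) (nat_lit 1) .z))))))))))))))))))) .nil)))))))))))))))))))))))) (.nd (.nd (.nd (.nd (.nd .leaf (nat_lit 49152) (nat_lit 152) (.p (nat_lit 98) (nat_lit 1) (.n (nat_lit 100) (nat_lit 1) .z)) (.ct dC2b_c260 (nat_lit 1) (nat_lit 3) (.s true (nat_lit 1) (nat_lit 7) (nat_lit 2) (nat_lit 0) (nat_lit 2) true (nat_lit 0) true (nat_lit 2) true (nat_lit 0) true (nat_lit 2) true (nat_lit 3) (.e false (nat_lit 1) (nat_lit 17) (nat_lit 7) (nat_lit 0) (.e true (nat_lit 2) (nat_lit 44) (nat_lit 2) (nat_lit 2) (.e true (nat_lit 1) (nat_lit 16) (nat_lit 7) (nat_lit 0) (.e true (nat_lit 1) (nat_lit 43) (nat_lit 2) (nat_lit 2) .nil)))))) .leaf) (nat_lit 49153) (nat_lit 159) (.p (nat_lit 102) (nat_lit 1) (.p (nat_lit 104) (nat_lit 1) .z)) (.ct dC2b_c20 (nat_lit 1) (nat_lit 3) (.s false (nat_lit 1) (nat_lit 7) (nat_lit 2) (nat_lit 1) (nat_lit 2) true (nat_lit 0) true (nat_lit 2) true (nat_lit 0) true (nat_lit 2) true (nat_lit 3) (.e false (nat_lit 1) (nat_lit 19) (nat_lit 7) (nat_lit 0) (.e false (nat_lit 2) (nat_lit 47) (nat_lit 2) (nat_lit 2) (.e false (nat_lit 1) (nat_lit 18) (nat_lit 7) (nat_lit 0) (.e true (nat_lit 1) (nat_lit 46) (nat_lit 2) (nat_lit 2) .nil)))))) .leaf) (nat_lit 49154) (nat_lit 160) (.p (nat_lit 105) (nat_lit 1) .z) .df (.nd (.nd .leaf (nat_lit 49155) (nat_lit 350) (.p (nat_lit 170) (nat_lit 1) (.n (nat_lit 171) (nat_lit 1) (.n (nat_lit 172) (nat_lit 1) (.n (nat_lit 174) (nat_lit 1) (.p (nat_lit 181) (nat_lit 1) .z))))) (.ct dC2b_c276 (nat_lit 1) (nat_lit 5) (.s true (nat_lit 1) (nat_lit 20) (nat_lit 0) (nat_lit 2) (nat_lit 1) true (nat_lit 5) true (nat_lit 7) false (nat_lit 1) true (nat_lit 8) true (nat_lit 6) (.e true (nat_lit 1) (nat_lit 99) (nat_lit 1) (nat_lit 7) (.e true (nat_lit 1) (nat_lit 20) (nat_lit 12) (nat_lit 1) (.e true (nat_lit 1) (nat_lit 102) (nat_lit 0) (nat_lit 8) (.e false (nat_lit 1) (nat_lit 103) (nat_lit 0) (nat_lit 8) (.e true (nat_lit 1) (nat_lit 104) (nat_lit 0) (nat_lit 8) (.e true (nat_lit 2) (nat_lit 82) (nat_lit 2) (nat_lit 6) (.e true (nat_lit 1) (nat_lit 84) (nat_lit 2) (nat_lit 6) (.e true (nat_lit 2) (nat_lit 85) (nat_lit 2) (nat_lit 6) (.e false (nat_lit 1) (nat_lit 88) (nat_lit 2) (nat_lit 6) (.e false (nat_lit 1) (nat_lit 90) (nat_lit 2) (nat_lit 6) (.u (nat_lit 2) (.n (nat_lit 4) (nat_lit 1) (.p (nat_lit 5) (nat_lit 1) .z)) .nil))))))))))))) .leaf) (nat_lit 49156) (nat_lit 376) (.p (nat_lit 186) (nat_lit 2) (.n (nat_lit 187) (nat_lit 2) (.p (nat_lit 194) (nat_lit 1) .z))) (.ct dC2b_c36 (nat_lit 1) (nat_lit 4) (.s true (nat_lit 1) (nat_lit 7) (nat_lit 2) (nat_lit 4) (nat_lit 2) true (nat_lit 2) true (nat_lit 5) true (nat_lit 2) true (nat_lit 5) true (nat_lit 4) (.e false (nat_lit 2) (nat_lit 40) (nat_lit 7) (nat_lit 2) (.e true (nat_lit 2) (nat_lit 41) (nat_lit 7) (nat_lit 2) (.e false (nat_lit 2) (nat_lit 92) (nat_lit 2) (nat_lit 5) (.e true (nat_lit 2) (nat_lit 93) (nat_lit 2) (nat_lit 5) (.e false (nat_lit 2) (nat_lit 96) (nat_lit 2) (nat_lit 5) (.e false (nat_lit 1) (nat_lit 39) (nat_lit 7) (nat_lit 2) .nil)))))))) .leaf)) (nat_lit 49157) (nat_lit 384) (.p (nat_lit 197) (nat_lit 1) (.n (nat_lit 198) (nat_lit 1) (.p (nat_lit 199) (nat_lit 1) .z))) (.ct dC2b_c261 (nat_lit 1) (nat_lit 2) (.s true (nat_lit 2) (nat_lit 20) (nat_lit 0) (nat_lit 2) (nat_lit 2) true (nat_lit 2) true (nat_lit 3) false (nat_lit 0) true (nat_lit 4) true (nat_lit 3) (.s true (nat_lit 2) (nat_lit 20) (nat_lit 2) (nat_lit 0) (nat_lit 2) true (nat_lit 1) true (nat_lit 3) false (nat_lit 0) true (nat_lit 3) true (nat_lit 4) (.s false (nat_lit 1) (nat_lit 20) (nat_lit 2) (nat_lit 2) (nat_lit 0) true (nat_lit 2) true (nat_lit 4) false (nat_lit 0) true (nat_lit 3) true (nat_lit 3) (.e false (nat_lit 1) (nat_lit 99) (nat_lit 2) (nat_lit 3) (.e false (nat_lit 2) (nat_lit 44) (nat_lit 7) (nat_lit 1) (.e true (nat_lit 1) (nat_lit 105) (nat_lit 0) (nat_lit 4) (.e true (nat_lit 1) (nat_lit 20) (nat_lit 17) (nat_lit 0) (.u (nat_lit 2) (.n (nat_lit 12) (nat_lit 1) (.n (nat_lit 13) (nat_lit 1) (.p (nat_lit 14) (nat_lit 1) .z))) .nil))))))))) (.nd (.nd (.nd .leaf (nat_lit 49158) (nat_lit 395) (.p (nat_lit 202) (nat_lit 1) (.n (nat_lit 203) (nat_lit 1) (.p (nat_lit 204) (nat_lit 1) .z))) (.ct dC2b_c21 (nat_lit 1) (nat_lit 2) (.s true (nat_lit 2) (nat_lit 20) (nat_lit 1) (nat_lit 2) (nat_lit 2) true (nat_lit 2) true (nat_lit 3) false (nat_lit 0) true (nat_lit 4) true (nat_lit 3) (.s false (nat_lit 2) (nat_lit 20) (nat_lit 2) (nat_lit 1) (nat_lit 2) true (nat_lit 1) true (nat_lit 3) false (nat_lit 0) true (nat_lit 3) true (nat_lit 4) (.s false (nat_lit 1) (nat_lit 20) (nat_lit 2) (nat_lit 2) (nat_lit 1) true (nat_lit 2) true (nat_lit 4) false (nat_lit 0) true (nat_lit 3) true (nat_lit 3) (.e false (nat_lit 1) (nat_lit 103) (nat_lit 2) (nat_lit 3) (.e false (nat_lit 2) (nat_lit 47) (nat_lit 7) (nat_lit 1) (.e true (nat_lit 1) (nat_lit 105) (nat_lit 1) (nat_lit 4) (.e true (nat_lit 1) (nat_lit 20) (nat_lit 19) (nat_lit 0) (.u (nat_lit 2) (.p (nat_lit 12) (nat_lit 1) (.n (nat_lit 13) (nat_lit 1) (.p (nat_lit 14) (nat_lit 1) .z))) .nil))))))))) .leaf) (nat_lit 49160) (nat_lit 605) (.n (nat_lit 264) (nat_lit 1) (.p (nat_lit 283) (nat_lit 1) .z)) (.ct dC2b_c292 (nat_lit 1) (nat_lit 5) (.s false (nat_lit 1) (nat_lit 8) (nat_lit 2) (nat_lit 7) (nat_lit 2) true (nat_lit 6) true (nat_lit 11) true (nat_lit 5) true (nat_lit 11) true (nat_lit 6) (.e true (nat_lit 1) (nat_lit 72) (nat_lit 7) (nat_lit 6) (.e false (nat_lit 2) (nat_lit 152) (nat_lit 2) (nat_lit 11) (.e true (nat_lit 1) (nat_lit 144) (nat_lit 2) (nat_lit 11) (.e false (nat_lit 1) (nat_lit 60) (nat_lit 7) (nat_lit 6) .nil)))))) .leaf) (nat_lit 49161) (nat_lit 688) (.n (nat_lit 252) (nat_lit 2) (.n (nat_lit 254) (nat_lit 1) (.p (nat_lit 256) (nat_lit 2) (.n (nat_lit 257) (nat_lit 2) (.p (nat_lit 258) (nat_lit 2) (.p (nat_lit 259) (nat_lit 1) (.n (nat_lit 260) (nat_lit 1) (.n (nat_lit 262) (nat_lit 1) (.n (nat_lit 263) (nat_lit 2) (.n (nat_lit 264) (nat_lit 2) (.n (nat_lit 265) (nat_lit 1) (.p (nat_lit 284) (nat_lit 1) .z)))))))))))) (.ct dC2b_c292 (nat_lit 1) (nat_lit 5) (.s true (nat_lit 1) (nat_lit 20) (nat_lit 0) (nat_lit 2) (nat_lit 4) true (nat_lit 5) true (nat_lit 9) true (nat_lit 0) true (nat_lit 13) true (nat_lit 11) (.e true (nat_lit 1) (nat_lit 99) (nat_lit 4) (nat_lit 9) (.e true (nat_lit 1) (nat_lit 24) (nat_lit 20) (nat_lit 0) (.e false (nat_lit 1) (nat_lit 26) (nat_lit 20) (nat_lit 0) dC2b_i33))))) (.nd (.nd .leaf (nat_lit 49162) (nat_lit 712) (.n (nat_lit 294) (nat_lit 1) (.p (nat_lit 303) (nat_lit 1) .z)) (.ct dC2b_c52 (nat_lit 1) (nat_lit 3) (.s false (nat_lit 1) (nat_lit 10) (nat_lit 2) (nat_lit 7) (nat_lit 2) true (nat_lit 4) true (nat_lit 7) true (nat_lit 3) true (nat_lit 7) true (nat_lit 4) (.e true (nat_lit 1) (nat_lit 79) (nat_lit 7) (nat_lit 4) (.e false (nat_lit 2) (nat_lit 167) (nat_lit 2) (nat_lit 7) (.e true (nat_lit 1) (nat_lit 163) (nat_lit 2) (nat_lit 7) (.e false (nat_lit 1) (nat_lit 74) (nat_lit 7) (nat_lit 4) .nil)))))) .leaf) (nat_lit 49163) (nat_lit 778) (.n (nat_lit 305) (nat_lit 3) (.n (nat_lit 306) (nat_lit 2) (.p (nat_lit 307) (nat_lit 2) (.n (nat_lit 308) (nat_lit 1) (.p (nat_lit 309) (nat_lit 2) (.n (nat_lit 310) (nat_lit 3) (.n (nat_lit 311) (nat_lit 1) (.n (nat_lit 312) (nat_lit 1) (.n (nat_lit 313) (nat_lit 1) (.p (nat_lit 314) (nat_lit 2) (.p (nat_lit 317) (nat_lit 1) (.n (nat_lit 321) (nat_lit 1) (.p (nat_lit 322) (nat_lit 1) .z))))))))))))) (.ct dC2b_c277 (nat_lit 1) (nat_lit 3) (.s false (nat_lit 1) (nat_lit 11) (nat_lit 2) (nat_lit 7) (nat_lit 2) true (nat_lit 4) true (nat_lit 8) true (nat_lit 3) true (nat_lit 8) true (nat_lit 4) (.e true (nat_lit 1) (nat_lit 88) (nat_lit 7) (nat_lit 4) (.e false (nat_lit 2) (nat_lit 181) (nat_lit 2) (nat_lit 8) (.e true (nat_lit 1) (nat_lit 177) (nat_lit 2) (nat_lit 8) (.e false (nat_lit 1) (nat_lit 80) (nat_lit 7) (nat_lit 4) .nil)))))) .leaf))) (nat_lit 49164) (nat_lit 769) (.n (nat_lit 314) (nat_lit 1) (.p (nat_lit 322) (nat_lit 1) .z)) (.ct dC2b_c277 (nat_lit 1) (nat_lit 3) (.s false (nat_lit 1) (nat_lit 12) (nat_lit 2) (nat_lit 7) (nat_lit 2) true (nat_lit 4) true (nat_lit 8) true (nat_lit 3) true (nat_lit 8) true (nat_lit 4) (.e true (nat_lit 1) (nat_lit 89) (nat_lit 7) (nat_lit 4) (.e false (nat_lit 2) (nat_lit 182) (nat_lit 2) (nat_lit 8) (.e true (nat_lit 1) (nat_lit 178) (nat_lit 2) (nat_lit 8) (.e false (nat_lit 1) (nat_lit 81) (nat_lit 7) (nat_lit 4) .nil)))))) (.nd (.nd (.nd (.nd .leaf (nat_lit 49165) (nat_lit 771) (.n (nat_lit 315) (nat_lit 1) (.p (nat_lit 323) (nat_lit 1) .z)) (.ct dC2b_c277 (nat_lit 1) (nat_lit 3) (.s false (nat_lit 1) (nat_lit 13) (nat_lit 2) (nat_lit 7) (nat_lit 2) true (nat_lit 4) true (nat_lit 8) true (nat_lit 3) true (nat_lit 8) true (nat_lit 4) (.e true (nat_lit 1) (nat_lit 90) (nat_lit 7) (nat_lit 4) (.e false (nat_lit 2) (nat_lit 183) (nat_lit 2) (nat_lit 8) (.e true (nat_lit 1) (nat_lit 179) (nat_lit 2) (nat_lit 8) (.e false (nat_lit 1) (nat_lit 82) (nat_lit 7) (nat_lit 4) .nil)))))) .leaf) (nat_lit 49166) (nat_lit 827) (.n (nat_lit 329) (nat_lit 1) (.p (nat_lit 334) (nat_lit 1) .z)) (.ct dC2b_c37 (nat_lit 1) (nat_lit 2) (.s false (nat_lit 1) (nat_lit 14) (nat_lit 2) (nat_lit 7) (nat_lit 2) true (nat_lit 3) true (nat_lit 6) true (nat_lit 2) true (nat_lit 6) true (nat_lit 3) (.e true (nat_lit 1) (nat_lit 96) (nat_lit 7) (nat_lit 3) (.e false (nat_lit 2) (nat_lit 194) (nat_lit 2) (nat_lit 6) (.e true (nat_lit 1) (nat_lit 190) (nat_lit 2) (nat_lit 6) (.e false (nat_lit 1) (nat_lit 91) (nat_lit 7) (nat_lit 3) .nil)))))) .leaf) (nat_lit 49167) (nat_lit 843) (.n (nat_lit 324) (nat_lit 3) (.n (nat_lit 326) (nat_lit 1) (.p (nat_lit 327) (nat_lit 1) (.p (nat_lit 328) (nat_lit 3) (.p (nat_lit 329) (nat_lit 1) (.n (nat_lit 330) (nat_lit 1) (.p (nat_lit 333) (nat_lit 1) (.p (nat_lit 334) (nat_lit 1) .z)))))))) (.ct dC2b_c37 (nat_lit 1) (nat_lit 2) (.s false (nat_lit 1) (nat_lit 48) (nat_lit 2) (nat_lit 1) (nat_lit 1) true (nat_lit 4) true (nat_lit 7) false (nat_lit 2) true (nat_lit 6) true (nat_lit 7) (.e false (nat_lit 1) (nat_lit 102) (nat_lit 6) (nat_lit 4) (.e false (nat_lit 1) (nat_lit 104) (nat_lit 6) (nat_lit 4) (.e false (nat_lit 1) (nat_lit 203) (nat_lit 1) (nat_lit 7) (.e true (nat_lit 2) (nat_lit 186) (nat_lit 2) (nat_lit 6) (.e false (nat_lit 2) (nat_lit 187) (nat_lit 2) (nat_lit 6) (.e true (nat_lit 1) (nat_lit 194) (nat_lit 2) (nat_lit 6) (.e true (nat_lit 1) (nat_lit 202) (nat_lit 1) (nat_lit 7) (.u (nat_lit 2) (.n (nat_lit 1) (nat_lit 1) (.p (nat_lit 3) (nat_lit 1) (.n (nat_lit 4) (nat_lit 2) (.n (nat_lit 5) (nat_lit 1) (.n (nat_lit 6) (nat_lit 1) (.p (nat_lit 7) (nat_lit 1) .z)))))) .nil)))))))))) (.nd (.nd .leaf (nat_lit 49173) (nat_lit 1025) (.n (nat_lit 335) (nat_lit 3) (.p (nat_lit 336) (nat_lit 1) (.p (nat_lit 337) (nat_lit 2) (.p (nat_lit 338) (nat_lit 2) (.n (nat_lit 339) (nat_lit 3) (.p (nat_lit 340) (nat_lit 1) (.n (nat_lit 341) (nat_lit 2) (.p (nat_lit 342) (nat_lit 1) (.p (nat_lit 343) (nat_lit 1) (.p (nat_lit 344) (nat_lit 1) (.n (nat_lit 345) (nat_lit 2) (.n (nat_lit 346) (nat_lit 3) (.p (nat_lit 347) (nat_lit 1) (.n (nat_lit 350) (nat_lit 2) (.p (nat_lit 352) (nat_lit 3) (.n (nat_lit 353) (nat_lit 1) (.n (nat_lit 354) (nat_lit 3) (.n (nat_lit 355) (nat_lit 2) (.p (nat_lit 356) (nat_lit 3) (.n (nat_lit 357) (nat_lit 3) (.p (nat_lit 358) (nat_lit 1) (.n (nat_lit 359) (nat_lit 3) (.n (nat_lit 362) (nat_lit 1) (.p (nat_lit 363) (nat_lit 1) (.p (nat_lit 364) (nat_lit 1) (.n (nat_lit 366) (nat_lit 3) (.p (nat_lit 367) (nat_lit 3) (.p (nat_lit 368) (nat_lit 2) (.p (nat_lit 369) (nat_lit 3) (.p (nat_lit 370) (nat_lit 2) (.n (nat_lit 372) (nat_lit 3) (.n (nat_lit 373) (nat_lit 2) (.p (nat_lit 374) (nat_lit 1) (.p (nat_lit 380) (nat_lit 1) (.p (nat_lit 381) (nat_lit 3) .z))))))))))))))))))))))))))))))))))) (.ct dC2b_c308 (nat_lit 1) (nat_lit 3) (.s false (nat_lit 1) (nat_lit 21) (nat_lit 2) (nat_lit 7) (nat_lit 2) true (nat_lit 11) true (nat_lit 16) true (nat_lit 3) true (nat_lit 16) true (nat_lit 11) (.e true (nat_lit 1) (nat_lit 128) (nat_lit 7) (nat_lit 11) (.e false (nat_lit 2) (nat_lit 245) (nat_lit 2) (nat_lit 16) (.e true (nat_lit 1) (nat_lit 227) (nat_lit 2) (nat_lit 16) (.e false (nat_lit 1) (nat_lit 106) (nat_lit 7) (nat_lit 11) (.u (nat_lit 2) (.n (nat_lit 1) (nat_lit 1) (.n (nat_lit 3) (nat_lit 1) (.p (nat_lit 4) (nat_lit 1) (.n (nat_lit 5) (nat_lit 1) (.p (nat_lit 11) (nat_lit 2) (.n (nat_lit 14) (nat_lit 1) (.p (nat_lit 15) (nat_lit 1) (.n (nat_lit 16) (nat_lit 1) (.n (nat_lit 17) (nat_lit 2) (.n (nat_lit 19) (nat_lit 1) (.p (nat_lit 21) (nat_lit 1) (.n (nat_lit 22) (nat_lit 1) (.p (nat_lit 24) (nat_lit 1) (.p (nat_lit 25) (nat_lit 1) (.n (nat_lit 26) (nat_lit 1) (.n (nat_lit 27) (nat_lit 1) (.p (nat_lit 28) (nat_lit 1) (.p (nat_lit 29) (nat_lit 1) (.p (nat_lit 31) (nat_lit 1) (.p (nat_lit 33) (nat_lit 1) (.n (nat_lit 34) (nat_lit 1) (.p (nat_lit 35) (nat_lit 1) (.n (nat_lit 36) (nat_lit 1) (.p (nat_lit 37) (nat_lit 2) (.n (nat_lit 38) (nat_lit 1) (.n (nat_lit 39) (nat_lit 1) (.n (nat_lit 46) (nat_lit 2) (.p (nat_lit 47) (nat_lit 1) .z)))))))))))))))))))))))))))) .nil))))))) .leaf) (nat_lit 49174) (nat_lit 1046) (.p (nat_lit 335) (nat_lit 3) (.n (nat_lit 336) (nat_lit 2) (.p (nat_lit 337) (nat_lit 3) (.p (nat_lit 338) (nat_lit 2) (.n (nat_lit 339) (nat_lit 3) (.p (nat_lit 340) (nat_lit 3) (.p (nat_lit 341) (nat_lit 2) (.p (nat_lit 342) (nat_lit 2) (.p (nat_lit 344) (nat_lit 1) (.n (nat_lit 345) (nat_lit 2) (.n (nat_lit 346) (nat_lit 1) (.p (nat_lit 347) (nat_lit 3) (.n (nat_lit 349) (nat_lit 1) (.n (nat_lit 350) (nat_lit 1) (.p (nat_lit 351) (nat_lit 2) (.n (nat_lit 352) (nat_lit 1) (.n (nat_lit 353) (nat_lit 2) (.p (nat_lit 354) (nat_lit 2) (.p (nat_lit 355) (nat_lit 3) (.n (nat_lit 356) (nat_lit 1) (.p (nat_lit 357) (nat_lit 1) (.p (nat_lit 358) (nat_lit 1) (.n (nat_lit 359) (nat_lit 1) (.n (nat_lit 360) (nat_lit 3) (.n (nat_lit 361) (nat_lit 3) (.n (nat_lit 362) (nat_lit 1) (.n (nat_lit 363) (nat_lit 2) (.p (nat_lit 364) (nat_lit 1) (.p (nat_lit 366) (nat_lit 3) (.p (nat_lit 367) (nat_lit 3) (.p (nat_lit 368) (nat_lit 2) (.p (nat_lit 369) (nat_lit 2) (.p (nat_lit 370) (nat_lit 1) (.p (nat_lit 371) (nat_lit 2) (.n (nat_lit 372) (nat_lit 3) (.n (nat_lit 373) (nat_lit 2) (.p (nat_lit 374) (nat_lit 2) (.n (nat_lit 380) (nat_lit 1) (.n (nat_lit 381) (nat_lit 3) .z))))))))))))))))))))))))))))))))))))))) (.ct dC2b_c308 (nat_lit 1) (nat_lit 3) (.s true (nat_lit 1) (nat_lit 22) (nat_lit 7) (nat_lit 2) (nat_lit 2) true (nat_lit 4) true (nat_lit 16) true (nat_lit 3) true (nat_lit 11) true (nat_lit 16) (.e false (nat_lit 1) (nat_lit 50) (nat_lit 20) (nat_lit 4) (.e true (nat_lit 1) (nat_lit 228) (nat_lit 2) (nat_lit 16) (.e false (nat_lit 1) (nat_lit 129) (nat_lit 7) (nat_lit 11) (.e true (nat_lit 1) (nat_lit 246) (nat_lit 2) (nat_lit 16) (.u (nat_lit 2) (.p (nat_lit 1) (nat_lit 1) (.n (nat_lit 2) (nat_lit 1) (.n (nat_lit 3) (nat_lit 1) (.p (nat_lit 4) (nat_lit 1) (.n (nat_lit 6) (nat_lit 1) (.n (nat_lit 8) (nat_lit 1) (.p (nat_lit 9) (nat_lit 1) (.n (nat_lit 12) (nat_lit 1) (.p (nat_lit 16) (nat_lit 1) (.n (nat_lit 18) (nat_lit 1) (.p (nat_lit 19) (nat_lit 1) (.n (nat_lit 20) (nat_lit 1) (.p (nat_lit 21) (nat_lit 1) (.n (nat_lit 22) (nat_lit 1) (.p (nat_lit 25) (nat_lit 1) (.p (nat_lit 26) (nat_lit 1) (.p (nat_lit 28) (nat_lit 1) (.n (nat_lit 29) (nat_lit 1) (.n (nat_lit 32) (nat_lit 1) (.p (nat_lit 34) (nat_lit 1) (.n (nat_lit 35) (nat_lit 1) (.n (nat_lit 36) (nat_lit 1) (.p (nat_lit 37) (nat_lit 1) (.p (nat_lit 39) (nat_lit 1) (.n (nat_lit 45) (nat_lit 1) (.p (nat_lit 46) (nat_lit 1) .z)))))))))))))))))))))))))) .nil))))))) .leaf)) (nat_lit 49175) (nat_lit 1053) (.p (nat_lit 336) (nat_lit 1) (.p (nat_lit 337) (nat_lit 2) (.n (nat_lit 338) (nat_lit 3) (.p (nat_lit 339) (nat_lit 1) (.p (nat_lit 340) (nat_lit 2) (.p (nat_lit 342) (nat_lit 1) (.n (nat_lit 343) (nat_lit 2) (.p (nat_lit 344) (nat_lit 1) (.p (nat_lit 345) (nat_lit 1) (.p (nat_lit 346) (nat_lit 3) (.p (nat_lit 347) (nat_lit 1) (.n (nat_lit 349) (nat_lit 1) (.n (nat_lit 350) (nat_lit 1) (.n (nat_lit 351) (nat_lit 2) (.n (nat_lit 353) (nat_lit 3) (.p (nat_lit 354) (nat_lit 1) (.p (nat_lit 355) (nat_lit 2) (.n (nat_lit 356) (nat_lit 2) (.p (nat_lit 357) (nat_lit 2) (.n (nat_lit 358) (nat_lit 2) (.n (nat_lit 359) (nat_lit 1) (.p (nat_lit 360) (nat_lit 1) (.p (nat_lit 361) (nat_lit 1) (.n (nat_lit 362) (nat_lit 2) (.p (nat_lit 363) (nat_lit 2) (.n (nat_lit 366) (nat_lit 1) (.p (nat_lit 368) (nat_lit 2) (.n (nat_lit 369) (nat_lit 1) (.n (nat_lit 370) (nat_lit 3) (.p (nat_lit 372) (nat_lit 1) (.n (nat_lit 373) (nat_lit 2) (.p (nat_lit 380) (nat_lit 1) (.p (nat_lit 381) (nat_lit 3) .z))))))))))))))))))))))))))))))))) (.ct dC2b_c308 (nat_lit 1) (nat_lit 3) (.s true (nat_lit 1) (nat_lit 23) (nat_lit 7) (nat_lit 2) (nat_lit 2) true (nat_lit 4) true (nat_lit 16) true (nat_lit 3) true (nat_lit 11) true (nat_lit 16) (.e false (nat_lit 1) (nat_lit 51) (nat_lit 20) (nat_lit 4) (.e true (nat_lit 1) (nat_lit 229) (nat_lit 2) (nat_lit 16) (.e false (nat_lit 1) (nat_lit 130) (nat_lit 7) (nat_lit 11) (.e true (nat_lit 1) (nat_lit 247) (nat_lit 2) (nat_lit 16) (.u (nat_lit 2) (.n (nat_lit 5) (nat_lit 1) (.p (nat_lit 7) (nat_lit 1) (.p (nat_lit 12) (nat_lit 1) (.p (nat_lit 14) (nat_lit 1) (.p (nat_lit 15) (nat_lit 1) (.p (nat_lit 16) (nat_lit 1) (.p (nat_lit 18) (nat_lit 1) (.p (nat_lit 24) (nat_lit 1) (.p (nat_lit 27) (nat_lit 1) (.n (nat_lit 28) (nat_lit 1) (.p (nat_lit 31) (nat_lit 1) (.p (nat_lit 32) (nat_lit 1) (.n (nat_lit 33) (nat_lit 1) (.p (nat_lit 38) (nat_lit 1) .z)))))))))))))) .nil))))))) (.nd (.nd (.nd .leaf (nat_lit 49176) (nat_lit 1242) (.p (nat_lit 398) (nat_lit 2) (.p (nat_lit 399) (nat_lit 3) (.n (nat_lit 400) (nat_lit 3) (.p (nat_lit 401) (nat_lit 3) (.p (nat_lit 402) (nat_lit 3) (.p (nat_lit 403) (nat_lit 1) (.p (nat_lit 405) (nat_lit 2) (.n (nat_lit 406) (nat_lit 1) (.n (nat_lit 407) (nat_lit 1) (.p (nat_lit 408) (nat_lit 2) (.p (nat_lit 409) (nat_lit 2) (.n (nat_lit 410) (nat_lit 1) (.p (nat_lit 411) (nat_lit 2) (.n (nat_lit 412) (nat_lit 2) (.n (nat_lit 413) (nat_lit 2) (.n (nat_lit 414) (nat_lit 1) (.n (nat_lit 416) (nat_lit 2) (.n (nat_lit 418) (nat_lit 1) (.p (nat_lit 420) (nat_lit 2) (.n (nat_lit 421) (nat_lit 3) (.p (nat_lit 435) (nat_lit 1) .z))))))))))))))))))))) (.ct dC2b_c293 (nat_lit 1) (nat_lit 2) (.s false (nat_lit 1) (nat_lit 20) (nat_lit 8) (nat_lit 2) (nat_lit 2) true (nat_lit 2) true (nat_lit 14) true (nat_lit 3) true (nat_lit 8) true (nat_lit 14) (.e true (nat_lit 1) (nat_lit 272) (nat_lit 2) (nat_lit 14) (.e false (nat_lit 1) (nat_lit 60) (nat_lit 20) (nat_lit 3) (.e false (nat_lit 1) (nat_lit 283) (nat_lit 2) (nat_lit 14) .nil))))) .leaf) (nat_lit 49177) (nat_lit 1288) (.p (nat_lit 397) (nat_lit 3) (.p (nat_lit 398) (nat_lit 3) (.p (nat_lit 400) (nat_lit 1) (.n (nat_lit 401) (nat_lit 1) (.n (nat_lit 402) (nat_lit 3) (.p (nat_lit 403) (nat_lit 1) (.p (nat_lit 404) (nat_lit 3) (.n (nat_lit 405) (nat_lit 3) (.p (nat_lit 406) (nat_lit 1) (.p (nat_lit 407) (nat_lit 1) (.n (nat_lit 408) (nat_lit 1) (.n (nat_lit 409) (nat_lit 3) (.p (nat_lit 410) (nat_lit 3) (.p (nat_lit 411) (nat_lit 1) (.p (nat_lit 412) (nat_lit 2) (.p (nat_lit 413) (nat_lit 2) (.p (nat_lit 414) (nat_lit 1) (.n (nat_lit 415) (nat_lit 2) (.n (nat_lit 416) (nat_lit 3) (.n (nat_lit 418) (nat_lit 3) (.n (nat_lit 420) (nat_lit 1) (.n (nat_lit 421) (nat_lit 3) (.p (nat_lit 431) (nat_lit 3) (.p (nat_lit 432) (nat_lit 3) (.n (nat_lit 435) (nat_lit 1) .z))))))))))))))))))))))))) (.ct dC2b_c293 (nat_lit 1) (nat_lit 2) (.s true (nat_lit 1) (nat_lit 25) (nat_lit 7) (nat_lit 2) (nat_lit 2) true (nat_lit 3) true (nat_lit 14) true (nat_lit 2) true (nat_lit 9) true (nat_lit 14) (.e false (nat_lit 1) (nat_lit 61) (nat_lit 20) (nat_lit 3) (.e true (nat_lit 1) (nat_lit 273) (nat_lit 2) (nat_lit 14) (.e false (nat_lit 1) (nat_lit 153) (nat_lit 7) (nat_lit 9) (.e true (nat_lit 1) (nat_lit 284) (nat_lit 2) (nat_lit 14) .nil)))))) .leaf) (nat_lit 49178) (nat_lit 1217) (.n (nat_lit 397) (nat_lit 1) (.p (nat_lit 398) (nat_lit 3) (.n (nat_lit 399) (nat_lit 1) (.p (nat_lit 400) (nat_lit 1) (.p (nat_lit 401) (nat_lit 1) (.n (nat_lit 402) (nat_lit 3) (.n (nat_lit 403) (nat_lit 3) (.p (nat_lit 405) (nat_lit 1) (.p (nat_lit 406) (nat_lit 2) (.n (nat_lit 407) (nat_lit 2) (.n (nat_lit 409) (nat_lit 3) (.p (nat_lit 410) (nat_lit 2) (.n (nat_lit 411) (nat_lit 1) (.p (nat_lit 412) (nat_lit 2) (.p (nat_lit 413) (nat_lit 2) (.p (nat_lit 414) (nat_lit 3) (.p (nat_lit 415) (nat_lit 1) (.n (nat_lit 418) (nat_lit 1) (.p (nat_lit 420) (nat_lit 1) (.p (nat_lit 421) (nat_lit 3) (.n (nat_lit 431) (nat_lit 2) (.p (nat_lit 435) (nat_lit 1) .z)))))))))))))))))))))) (.ct dC2b_c293 (nat_lit 1) (nat_lit 2) (.s true (nat_lit 1) (nat_lit 26) (nat_lit 7) (nat_lit 2) (nat_lit 2) true (nat_lit 3) true (nat_lit 14) true (nat_lit 2) true (nat_lit 9) true (nat_lit 14) (.e false (nat_lit 1) (nat_lit 62) (nat_lit 20) (nat_lit 3) (.e true (nat_lit 1) (nat_lit 274) (nat_lit 2) (nat_lit 14) (.e false (nat_lit 1) (nat_lit 154) (nat_lit 7) (nat_lit 9) (.e true (nat_lit 1) (nat_lit 285) (nat_lit 2) (nat_lit 14) (.u (nat_lit 2) (.n (nat_lit 1) (nat_lit 1) (.p (nat_lit 5) (nat_lit 1) (.p (nat_lit 6) (nat_lit 1) (.n (nat_lit 8) (nat_lit 1) (.n (nat_lit 9) (nat_lit 1) (.n (nat_lit 11) (nat_lit 1) (.p (nat_lit 12) (nat_lit 1) (.n (nat_lit 13) (nat_lit 1) (.n (nat_lit 17) (nat_lit 1) (.p (nat_lit 18) (nat_lit 1) (.p (nat_lit 19) (nat_lit 1) (.p (nat_lit 21) (nat_lit 1) (.n (nat_lit 23) (nat_lit 1) (.n (nat_lit 25) (nat_lit 1) (.n (nat_lit 38) (nat_lit 1) .z))))))))))))))) .nil))))))) (.nd .leaf (nat_lit 49179) (nat_lit 1251) (.p (nat_lit 397) (nat_lit 3) (.n (nat_lit 398) (nat_lit 2) (.p (nat_lit 399) (nat_lit 3) (.p (nat_lit 400) (nat_lit 1) (.n (nat_lit 401) (nat_lit 3) (.n (nat_lit 402) (nat_lit 1) (.n (nat_lit 403) (nat_lit 3) (.p (nat_lit 404) (nat_lit 2) (.n (nat_lit 406) (nat_lit 2) (.n (nat_lit 407) (nat_lit 2) (.p (nat_lit 408) (nat_lit 2) (.p (nat_lit 409) (nat_lit 3) (.n (nat_lit 410) (nat_lit 1) (.p (nat_lit 411) (nat_lit 2) (.n (nat_lit 412) (nat_lit 1) (.n (nat_lit 413) (nat_lit 1) (.p (nat_lit 415) (nat_lit 1) (.n (nat_lit 416) (nat_lit 1) (.n (nat_lit 418) (nat_lit 3) (.p (nat_lit 420) (nat_lit 2) (.p (nat_lit 421) (nat_lit 3) (.n (nat_lit 431) (nat_lit 3) (.p (nat_lit 432) (nat_lit 2) (.p (nat_lit 435) (nat_lit 1) .z)))))))))))))))))))))))) (.ct dC2b_c293 (nat_lit 1) (nat_lit 2) (.s true (nat_lit 1) (nat_lit 27) (nat_lit 7) (nat_lit 2) (nat_lit 2) true (nat_lit 3) true (nat_lit 14) true (nat_lit 2) true (nat_lit 9) true (nat_lit 14) (.e false (nat_lit 1) (nat_lit 63) (nat_lit 20) (nat_lit 3) (.e true (nat_lit 1) (nat_lit 275) (nat_lit 2) (nat_lit 14) (.e false (nat_lit 1) (nat_lit 155) (nat_lit 7) (nat_lit 9) (.e true (nat_lit 1) (nat_lit 286) (nat_lit 2) (nat_lit 14) (.u (nat_lit 2) (.n (nat_lit 0) (nat_lit 1) (.p (nat_lit 1) (nat_lit 1) (.n (nat_lit 3) (nat_lit 1) (.n (nat_lit 7) (nat_lit 1) (.p (nat_lit 9) (nat_lit 1) (.p (nat_lit 10) (nat_lit 1) (.n (nat_lit 12) (nat_lit 1) (.n (nat_lit 15) (nat_lit 1) (.n (nat_lit 16) (nat_lit 1) (.p (nat_lit 17) (nat_lit 1) (.n (nat_lit 18) (nat_lit 1) (.n (nat_lit 19) (nat_lit 1) (.n (nat_lit 24) (nat_lit 1) (.n (nat_lit 26) (nat_lit 1) (.p (nat_lit 34) (nat_lit 1) (.n (nat_lit 35) (nat_lit 1) (.n (nat_lit 38) (nat_lit 1) .z))))))))))))))))) .nil))))))) .leaf))))) (nat_lit 49180) (nat_lit 1294) (.n (nat_lit 397) (nat_lit 3) (.p (nat_lit 398) (nat_lit 1) (.n (nat_lit 399) (nat_lit 2) (.n (nat_lit 400) (nat_lit 1) (.p (nat_lit 402) (nat_lit 3) (.n (nat_lit 403) (nat_lit 3) (.p (nat_lit 405) (nat_lit 1) (.p (nat_lit 406) (nat_lit 2) (.p (nat_lit 407) (nat_lit 2) (.p (nat_lit 408) (nat_lit 3) (.n (nat_lit 409) (nat_lit 3) (.p (nat_lit 411) (nat_lit 1) (.p (nat_lit 412) (nat_lit 3) (.p (nat_lit 413) (nat_lit 3) (.n (nat_lit 415) (nat_lit 3) (.n (nat_lit 416) (nat_lit 2) (.p (nat_lit 418) (nat_lit 1) (.p (nat_lit 420) (nat_lit 3) (.p (nat_lit 421) (nat_lit 2) (.n (nat_lit 431) (nat_lit 3) (.n (nat_lit 432) (nat_lit 1) (.n (nat_lit 435) (nat_lit 1) .z)))))))))))))))))))))) (.ct dC2b_c293 (nat_lit 1) (nat_lit 2) (.s true (nat_lit 1) (nat_lit 48) (nat_lit 0) (nat_lit 2) (nat_lit 4) true (nat_lit 8) true (nat_lit 12) false (nat_lit 2) true (nat_lit 16) true (nat_lit 14) (.e true (nat_lit 1) (nat_lit 105) (nat_lit 9) (nat_lit 8) (.e false (nat_lit 1) (nat_lit 197) (nat_lit 4) (nat_lit 12) (.e true (nat_lit 1) (nat_lit 48) (nat_lit 24) (nat_lit 2) (.e false (nat_lit 1) (nat_lit 48) (nat_lit 26) (nat_lit 2) (.e true (nat_lit 1) (nat_lit 48) (nat_lit 29) (nat_lit 2) (.e false (nat_lit 1) (nat_lit 329) (nat_lit 0) (nat_lit 16) (.e true (nat_lit 1) (nat_lit 334) (nat_lit 0) (nat_lit 16) dC2b_i34))))))))) (.nd (.nd (.nd (.nd (.nd (.nd .leaf (nat_lit 49181) (nat_lit 1289) (.n (nat_lit 397) (nat_lit 1) (.n (nat_lit 398) (nat_lit 1) (.p (nat_lit 399) (nat_lit 3) (.p (nat_lit 400) (nat_lit 3) (.n (nat_lit 401) (nat_lit 3) (.n (nat_lit 402) (nat_lit 2) (.n (nat_lit 403) (nat_lit 2) (.p (nat_lit 404) (nat_lit 3) (.n (nat_lit 405) (nat_lit 2) (.n (nat_lit 406) (nat_lit 2) (.n (nat_lit 408) (nat_lit 3) (.n (nat_lit 409) (nat_lit 1) (.n (nat_lit 410) (nat_lit 3) (.n (nat_lit 411) (nat_lit 2) (.p (nat_lit 412) (nat_lit 2) (.p (nat_lit 413) (nat_lit 2) (.n (nat_lit 414) (nat_lit 3) (.p (nat_lit 415) (nat_lit 2) (.p (nat_lit 418) (nat_lit 2) (.p (nat_lit 420) (nat_lit 1) (.p (nat_lit 421) (nat_lit 2) (.p (nat_lit 431) (nat_lit 1) (.n (nat_lit 432) (nat_lit 1) (.p (nat_lit 435) (nat_lit 1) .z)))))))))))))))))))))))) (.ct dC2b_c293 (nat_lit 1) (nat_lit 2) (.s true (nat_lit 1) (nat_lit 48) (nat_lit 2) (nat_lit 1) (nat_lit 3) true (nat_lit 7) true (nat_lit 13) false (nat_lit 2) true (nat_lit 14) true (nat_lit 15) (.e true (nat_lit 1) (nat_lit 102) (nat_lit 11) (nat_lit 7) (.e true (nat_lit 1) (nat_lit 104) (nat_lit 11) (nat_lit 7) (.e true (nat_lit 1) (nat_lit 203) (nat_lit 3) (nat_lit 13) (.e true (nat_lit 1) (nat_lit 48) (nat_lit 25) (nat_lit 2) (.e true (nat_lit 1) (nat_lit 48) (nat_lit 26) (nat_lit 2) (.e false (nat_lit 1) (nat_lit 48) (nat_lit 27) (nat_lit 2) (.e true (nat_lit 1) (nat_lit 264) (nat_lit 2) (nat_lit 14) (.e false (nat_lit 1) (nat_lit 283) (nat_lit 2) (nat_lit 14) (.e false (nat_lit 1) (nat_lit 306) (nat_lit 1) (nat_lit 15) (.e true (nat_lit 1) (nat_lit 307) (nat_lit 1) (nat_lit 15) (.e true (nat_lit 1) (nat_lit 308) (nat_lit 1) (nat_lit 15) (.e true (nat_lit 1) (nat_lit 310) (nat_lit 1) (nat_lit 15) (.e false (nat_lit 1) (nat_lit 313) (nat_lit 1) (nat_lit 15) (.u (nat_lit 2) (.n (nat_lit 1) (nat_lit 1) (.n (nat_lit 2) (nat_lit 1) (.p (nat_lit 5) (nat_lit 1) (.n (nat_lit 6) (nat_lit 1) (.n (nat_lit 7) (nat_lit 1) (.p (nat_lit 8) (nat_lit 1) (.p (nat_lit 11) (nat_lit 1) (.p (nat_lit 12) (nat_lit 1) (.n (nat_lit 13) (nat_lit 1) (.p (nat_lit 14) (nat_lit 1) (.n (nat_lit 15) (nat_lit 1) (.n (nat_lit 16) (nat_lit 1) (.p (nat_lit 18) (nat_lit 1) (.n (nat_lit 34) (nat_lit 1) .z)))))))))))))) .nil)))))))))))))))) .leaf) (nat_lit 49182) (nat_lit 1445) (.n (nat_lit 437) (nat_lit 3) (.p (nat_lit 438) (nat_lit 1) (.n (nat_lit 444) (nat_lit 1) (.p (nat_lit 447) (nat_lit 3) (.n (nat_lit 448) (nat_lit 1) (.n (nat_lit 450) (nat_lit 1) .z)))))) (.ct dC2b_c53 (nat_lit 1) (nat_lit 1) (.s true (nat_lit 1) (nat_lit 20) (nat_lit 10) (nat_lit 2) (nat_lit 2) true (nat_lit 1) true (nat_lit 9) true (nat_lit 2) true (nat_lit 5) true (nat_lit 9) (.e true (nat_lit 1) (nat_lit 298) (nat_lit 2) (nat_lit 9) (.e false (nat_lit 1) (nat_lit 74) (nat_lit 20) (nat_lit 2) (.e false (nat_lit 1) (nat_lit 303) (nat_lit 2) (nat_lit 9) .nil))))) .leaf) (nat_lit 49183) (nat_lit 1435) (.p (nat_lit 436) (nat_lit 1) (.n (nat_lit 437) (nat_lit 3) (.p (nat_lit 438) (nat_lit 1) (.n (nat_lit 439) (nat_lit 1) (.n (nat_lit 440) (nat_lit 2) (.p (nat_lit 441) (nat_lit 2) (.n (nat_lit 443) (nat_lit 3) (.p (nat_lit 444) (nat_lit 3) (.p (nat_lit 447) (nat_lit 3) (.n (nat_lit 448) (nat_lit 1) .z)))))))))) (.ct dC2b_c53 (nat_lit 1) (nat_lit 1) (.s true (nat_lit 1) (nat_lit 20) (nat_lit 2) (nat_lit 2) (nat_lit 10) true (nat_lit 1) true (nat_lit 5) true (nat_lit 2) true (nat_lit 9) true (nat_lit 9) (.s true (nat_lit 1) (nat_lit 48) (nat_lit 1) (nat_lit 2) (nat_lit 4) true (nat_lit 5) true (nat_lit 8) false (nat_lit 1) true (nat_lit 10) true (nat_lit 9) (.e true (nat_lit 1) (nat_lit 79) (nat_lit 20) (nat_lit 2) (.e true (nat_lit 2) (nat_lit 298) (nat_lit 2) (nat_lit 9) (.e false (nat_lit 2) (nat_lit 303) (nat_lit 2) (nat_lit 9) (.e true (nat_lit 1) (nat_lit 294) (nat_lit 2) (nat_lit 9) (.e true (nat_lit 1) (nat_lit 202) (nat_lit 4) (nat_lit 8) (.e true (nat_lit 1) (nat_lit 329) (nat_lit 1) (nat_lit 10) (.e false (nat_lit 1) (nat_lit 334) (nat_lit 1) (nat_lit 10) (.e true (nat_lit 3) (nat_lit 289) (nat_lit 2) (nat_lit 9) (.e false (nat_lit 3) (nat_lit 290) (nat_lit 2) (nat_lit 9) (.e false (nat_lit 1) (nat_lit 291) (nat_lit 2) (nat_lit 9) (.e false (nat_lit 3) (nat_lit 295) (nat_lit 2) (nat_lit 9) (.e false (nat_lit 3) (nat_lit 296) (nat_lit 2) (nat_lit 9) (.e true (nat_lit 3) (nat_lit 304) (nat_lit 2) (nat_lit 9) (.u (nat_lit 2) (.n (nat_lit 0) (nat_lit 1) (.p (nat_lit 1) (nat_lit 1) (.p (nat_lit 3) (nat_lit 1) (.n (nat_lit 4) (nat_lit 1) (.p (nat_lit 5) (nat_lit 1) (.n (nat_lit 8) (nat_lit 1) (.p (nat_lit 89) (nat_lit 1) .z))))))) .nil))))))))))))))))) (.nd (.nd .leaf (nat_lit 50178) (nat_lit 162) (.p (nat_lit 106) (nat_lit 1) .z) .df .leaf) (nat_lit 50183) (nat_lit 439) (.p (nat_lit 245) (nat_lit 1) .z) .df .leaf)) (nat_lit 50196) (nat_lit 1024) (.p (nat_lit 335) (nat_lit 1) (.n (nat_lit 336) (nat_lit 1) (.n (nat_lit 337) (nat_lit 2) (.n (nat_lit 338) (nat_lit 2) (.p (nat_lit 339) (nat_lit 3) (.n (nat_lit 340) (nat_lit 2) (.p (nat_lit 341) (nat_lit 2) (.n (nat_lit 342) (nat_lit 2) (.p (nat_lit 343) (nat_lit 1) (.p (nat_lit 344) (nat_lit 2) (.p (nat_lit 346) (nat_lit 1) (.p (nat_lit 347) (nat_lit 1) (.n (nat_lit 349) (nat_lit 3) (.p (nat_lit 350) (nat_lit 2) (.n (nat_lit 351) (nat_lit 3) (.p (nat_lit 353) (nat_lit 1) (.p (nat_lit 354) (nat_lit 1) (.n (nat_lit 355) (nat_lit 2) (.n (nat_lit 356) (nat_lit 3) (.p (nat_lit 357) (nat_lit 3) (.p (nat_lit 358) (nat_lit 1) (.n (nat_lit 359) (nat_lit 2) (.n (nat_lit 361) (nat_lit 3) (.n (nat_lit 362) (nat_lit 3) (.n (nat_lit 363) (nat_lit 2) (.n (nat_lit 364) (nat_lit 2) (.n (nat_lit 366) (nat_lit 3) (.p (nat_lit 367) (nat_lit 1) (.n (nat_lit 368) (nat_lit 3) (.p (nat_lit 369) (nat_lit 3) (.n (nat_lit 370) (nat_lit 3) (.p (nat_lit 371) (nat_lit 3) (.n (nat_lit 372) (nat_lit 1) (.p (nat_lit 373) (nat_lit 3) (.p (nat_lit 374) (nat_lit 3) (.n (nat_lit 380) (nat_lit 2) (.p (nat_lit 381) (nat_lit 1) (.p (nat_lit 382) (nat_lit 3) (.p (nat_lit 383) (nat_lit 2) .z))))))))))))))))))))))))))))))))))))))) (.ct dC2b_c308 (nat_lit 1) (nat_lit 4) (.s false (nat_lit 1) (nat_lit 21) (nat_lit 2) (nat_lit 2) (nat_lit 7) true (nat_lit 4) true (nat_lit 11) true (nat_lit 3) true (nat_lit 16) true (nat_lit 16) (.e false (nat_lit 1) (nat_lit 106) (nat_lit 7) (nat_lit 11) (.e true (nat_lit 1) (nat_lit 245) (nat_lit 2) (nat_lit 16) (.u (nat_lit 2) (.p (nat_lit 1) (nat_lit 1) (.p (nat_lit 5) (nat_lit 1) (.n (nat_lit 8) (nat_lit 1) (.p (nat_lit 14) (nat_lit 1) (.n (nat_lit 15) (nat_lit 1) (.p (nat_lit 16) (nat_lit 1) (.p (nat_lit 20) (nat_lit 1) (.p (nat_lit 26) (nat_lit 1) (.p (nat_lit 27) (nat_lit 1) (.n (nat_lit 34) (nat_lit 1) (.n (nat_lit 47) (nat_lit 1) .z))))))))))) .nil))))) (.nd (.nd (.nd .leaf (nat_lit 51202) (nat_lit 163) (.p (nat_lit 107) (nat_lit 1) .z) .df .leaf) (nat_lit 51207) (nat_lit 440) (.p (nat_lit 246) (nat_lit 1) .z) .df .leaf) (nat_lit 51220) (nat_lit 1044) (.p (nat_lit 336) (nat_lit 3) (.n (nat_lit 337) (nat_lit 1) (.n (nat_lit 338) (nat_lit 2) (.p (nat_lit 339) (nat_lit 3) (.p (nat_lit 341) (nat_lit 2) (.n (nat_lit 342) (nat_lit 2) (.p (nat_lit 343) (nat_lit 1) (.p (nat_lit 344) (nat_lit 1) (.p (nat_lit 346) (nat_lit 2) (.p (nat_lit 347) (nat_lit 2) (.p (nat_lit 349) (nat_lit 1) (.n (nat_lit 350) (nat_lit 3) (.p (nat_lit 351) (nat_lit 3) (.n (nat_lit 352) (nat_lit 2) (.n (nat_lit 353) (nat_lit 3) (.p (nat_lit 354) (nat_lit 3) (.n (nat_lit 355) (nat_lit 2) (.n (nat_lit 356) (nat_lit 1) (.p (nat_lit 357) (nat_lit 1) (.n (nat_lit 358) (nat_lit 2) (.n (nat_lit 359) (nat_lit 1) (.p (nat_lit 360) (nat_lit 3) (.p (nat_lit 361) (nat_lit 1) (.n (nat_lit 363) (nat_lit 2) (.n (nat_lit 364) (nat_lit 3) (.p (nat_lit 366) (nat_lit 3) (.n (nat_lit 367) (nat_lit 2) (.p (nat_lit 369) (nat_lit 2) (.n (nat_lit 370) (nat_lit 1) (.n (nat_lit 371) (nat_lit 2) (.p (nat_lit 372) (nat_lit 1) (.p (nat_lit 374) (nat_lit 2) (.n (nat_lit 382) (nat_lit 1) (.n (nat_lit 383) (nat_lit 3) .z)))))))))))))))))))))))))))))))))) (.ct dC2b_c308 (nat_lit 1) (nat_lit 4) (.s true (nat_lit 1) (nat_lit 20) (nat_lit 9) (nat_lit 1) (nat_lit 2) true (nat_lit 2) true (nat_lit 16) true (nat_lit 4) true (nat_lit 10) true (nat_lit 17) (.e false (nat_lit 1) (nat_lit 47) (nat_lit 25) (nat_lit 2) (.e true (nat_lit 1) (nat_lit 207) (nat_lit 2) (nat_lit 16) (.e true (nat_lit 1) (nat_lit 208) (nat_lit 2) (nat_lit 16) (.e false (nat_lit 1) (nat_lit 211) (nat_lit 2) (nat_lit 16) (.e true (nat_lit 1) (nat_lit 212) (nat_lit 2) (nat_lit 16) dC2b_i35))))))) (.nd (.nd .leaf (nat_lit 52226) (nat_lit 164) (.p (nat_lit 108) (nat_lit 1) .z) .df .leaf) (nat_lit 52231) (nat_lit 441) (.p (nat_lit 247) (nat_lit 1) .z) .df .leaf))) (nat_lit 52244) (nat_lit 1052) (.n (nat_lit 335) (nat_lit 3) (.n (nat_lit 338) (nat_lit 2) (.p (nat_lit 339) (nat_lit 3) (.n (nat_lit 340) (nat_lit 3) (.p (nat_lit 342) (nat_lit 2) (.p (nat_lit 343) (nat_lit 3) (.p (nat_lit 344) (nat_lit 1) (.n (nat_lit 345) (nat_lit 3) (.p (nat_lit 346) (nat_lit 2) (.p (nat_lit 347) (nat_lit 1) (.p (nat_lit 349) (nat_lit 3) (.p (nat_lit 350) (nat_lit 1) (.n (nat_lit 352) (nat_lit 2) (.p (nat_lit 353) (nat_lit 2) (.p (nat_lit 354) (nat_lit 1) (.n (nat_lit 356) (nat_lit 3) (.p (nat_lit 357) (nat_lit 3) (.p (nat_lit 358) (nat_lit 2) (.n (nat_lit 360) (nat_lit 2) (.n (nat_lit 361) (nat_lit 2) (.n (nat_lit 362) (nat_lit 2) (.p (nat_lit 363) (nat_lit 1) (.p (nat_lit 366) (nat_lit 1) (.n (nat_lit 368) (nat_lit 3) (.n (nat_lit 370) (nat_lit 2) (.p (nat_lit 371) (nat_lit 2) (.p (nat_lit 372) (nat_lit 3) (.p (nat_lit 373) (nat_lit 3) (.n (nat_lit 374) (nat_lit 2) (.p (nat_lit 380) (nat_lit 1) (.p (nat_lit 381) (nat_lit 3) .z))))))))))))))))))))))))))))))) (.ct dC2b_c308 (nat_lit 1) (nat_lit 4) (.s false (nat_lit 1) (nat_lit 23) (nat_lit 2) (nat_lit 2) (nat_lit 7) true (nat_lit 4) true (nat_lit 11) true (nat_lit 3) true (nat_lit 16) true (nat_lit 16) (.e false (nat_lit 1) (nat_lit 108) (nat_lit 7) (nat_lit 11) (.e true (nat_lit 1) (nat_lit 247) (nat_lit 2) (nat_lit 16) (.u (nat_lit 2) (.n (nat_lit 8) (nat_lit 1) (.n (nat_lit 23) (nat_lit 1) (.p (nat_lit 25) (nat_lit 1) (.p (nat_lit 26) (nat_lit 1) (.p (nat_lit 27) (nat_lit 1) (.p (nat_lit 33) (nat_lit 1) (.n (nat_lit 36) (nat_lit 1) (.n (nat_lit 37) (nat_lit 1) (.n (nat_lit 38) (nat_lit 1) (.p (nat_lit 39) (nat_lit 1) .z)))))))))) .nil))))) (.nd (.nd (.nd (.nd .leaf (nat_lit 53250) (nat_lit 165) (.p (nat_lit 109) (nat_lit 1) .z) .df .leaf) (nat_lit 53255) (nat_lit 442) (.p (nat_lit 248) (nat_lit 1) .z) .df .leaf) (nat_lit 53268) (nat_lit 1022) (.p (nat_lit 335) (nat_lit 2) (.n (nat_lit 336) (nat_lit 1) (.n (nat_lit 337) (nat_lit 2) (.n (nat_lit 338) (nat_lit 3) (.p (nat_lit 339) (nat_lit 1) (.n (nat_lit 341) (nat_lit 3) (.p (nat_lit 342) (nat_lit 1) (.n (nat_lit 343) (nat_lit 1) (.p (nat_lit 346) (nat_lit 3) (.p (nat_lit 347) (nat_lit 3) (.p (nat_lit 349) (nat_lit 1) (.n (nat_lit 350) (nat_lit 3) (.n (nat_lit 351) (nat_lit 3) (.n (nat_lit 353) (nat_lit 1) (.n (nat_lit 355) (nat_lit 2) (.p (nat_lit 356) (nat_lit 2) (.n (nat_lit 357) (nat_lit 2) (.n (nat_lit 358) (nat_lit 1) (.n (nat_lit 359) (nat_lit 3) (.p (nat_lit 360) (nat_lit 3) (.n (nat_lit 361) (nat_lit 1) (.p (nat_lit 363) (nat_lit 2) (.n (nat_lit 364) (nat_lit 1) (.n (nat_lit 367) (nat_lit 3) (.n (nat_lit 368) (nat_lit 3) (.p (nat_lit 369) (nat_lit 1) (.n (nat_lit 370) (nat_lit 3) (.p (nat_lit 371) (nat_lit 1) (.n (nat_lit 372) (nat_lit 3) (.p (nat_lit 373) (nat_lit 3) (.p (nat_lit 374) (nat_lit 1) (.p (nat_lit 382) (nat_lit 1) (.p (nat_lit 383) (nat_lit 3) .z))))))))))))))))))))))))))))))))) (.ct dC2b_c308 (nat_lit 1) (nat_lit 4) (.s false (nat_lit 1) (nat_lit 52) (nat_lit 2) (nat_lit 2) (nat_lit 2) true (nat_lit 11) true (nat_lit 16) false (nat_lit 4) true (nat_lit 16) true (nat_lit 16) (.e false (nat_lit 1) (nat_lit 109) (nat_lit 7) (nat_lit 11) (.e true (nat_lit 1) (nat_lit 248) (nat_lit 2) (nat_lit 16) (.u (nat_lit 2) (.p (nat_lit 1) (nat_lit 1) (.p (nat_lit 15) (nat_lit 1) (.p (nat_lit 16) (nat_lit 1) (.n (nat_lit 21) (nat_lit 1) (.p (nat_lit 22) (nat_lit 1) (.p (nat_lit 24) (nat_lit 1) (.n (nat_lit 25) (nat_lit 1) (.p (nat_lit 33) (nat_lit 1) (.n (nat_lit 34) (nat_lit 1) (.p (nat_lit 35) (nat_lit 1) (.p (nat_lit 37) (nat_lit 1) (.n (nat_lit 38) (nat_lit 1) .z)))))))))))) .nil))))) (.nd (.nd .leaf (nat_lit 54274) (nat_lit 166) (.p (nat_lit 110) (nat_lit 1) .z) .df .leaf) (nat_lit 54279) (nat_lit 443) (.p (nat_lit 249) (nat_lit 1) .z) .df .leaf)) (nat_lit 54292) (nat_lit 1041) (.n (nat_lit 335) (nat_lit 2) (.n (nat_lit 336) (nat_lit 3) (.p (nat_lit 337) (nat_lit 1) (.p (nat_lit 338) (nat_lit 1) (.p (nat_lit 339) (nat_lit 2) (.p (nat_lit 340) (nat_lit 3) (.p (nat_lit 341) (nat_lit 3) (.n (nat_lit 343) (nat_lit 1) (.n (nat_lit 345) (nat_lit 2) (.n (nat_lit 346) (nat_lit 2) (.p (nat_lit 347) (nat_lit 2) (.p (nat_lit 349) (nat_lit 1) (.n (nat_lit 350) (nat_lit 2) (.n (nat_lit 351) (nat_lit 3) (.p (nat_lit 352) (nat_lit 2) (.n (nat_lit 353) (nat_lit 1) (.p (nat_lit 354) (nat_lit 1) (.n (nat_lit 355) (nat_lit 3) (.n (nat_lit 356) (nat_lit 2) (.p (nat_lit 357) (nat_lit 2) (.n (nat_lit 358) (nat_lit 2) (.p (nat_lit 359) (nat_lit 3) (.p (nat_lit 360) (nat_lit 2) (.n (nat_lit 361) (nat_lit 2) (.p (nat_lit 363) (nat_lit 3) (.p (nat_lit 364) (nat_lit 3) (.n (nat_lit 366) (nat_lit 3) (.p (nat_lit 367) (nat_lit 2) (.p (nat_lit 368) (nat_lit 2) (.n (nat_lit 369) (nat_lit 1) (.p (nat_lit 370) (nat_lit 1) (.n (nat_lit 372) (nat_lit 1) (.n (nat_lit 373) (nat_lit 2) (.p (nat_lit 374) (nat_lit 2) (.n (nat_lit 380) (nat_lit 2) (.p (nat_lit 381) (nat_lit 1) (.p (nat_lit 382) (nat_lit 1) (.p (nat_lit 383) (nat_lit 3) .z)))))))))))))))))))))))))))))))))))))) (.ct dC2b_c308 (nat_lit 1) (nat_lit 4) (.s false (nat_lit 1) (nat_lit 25) (nat_lit 7) (nat_lit 1) (nat_lit 2) true (nat_lit 4) true (nat_lit 16) true (nat_lit 2) true (nat_lit 11) true (nat_lit 17) (.e false (nat_lit 1) (nat_lit 243) (nat_lit 2) (nat_lit 16) (.e false (nat_lit 1) (nat_lit 46) (nat_lit 25) (nat_lit 2) (.e true (nat_lit 1) (nat_lit 131) (nat_lit 7) (nat_lit 11) (.e false (nat_lit 1) (nat_lit 284) (nat_lit 1) (nat_lit 17) (.u (nat_lit 2) (.p (nat_lit 0) (nat_lit 1) (.n (nat_lit 3) (nat_lit 1) (.n (nat_lit 6) (nat_lit 1) (.n (nat_lit 7) (nat_lit 1) (.p (nat_lit 9) (nat_lit 1) (.p (nat_lit 10) (nat_lit 1) (.p (nat_lit 11) (nat_lit 1) (.n (nat_lit 14) (nat_lit 1) (.p (nat_lit 15) (nat_lit 1) (.p (nat_lit 17) (nat_lit 1) (.p (nat_lit 20) (nat_lit 1) (.p (nat_lit 21) (nat_lit 1) (.n (nat_lit 22) (nat_lit 1) (.n (nat_lit 23) (nat_lit 1) (.n (nat_lit 29) (nat_lit 1) (.p (nat_lit 31) (nat_lit 1) (.n (nat_lit 32) (nat_lit 1) .z))))))))))))))))) .nil))))))) (.nd (.nd (.nd .leaf (nat_lit 55298) (nat_lit 167) (.p (nat_lit 111) (nat_lit 1) .z) .df .leaf) (nat_lit 55303) (nat_lit 476) (.p (nat_lit 205) (nat_lit 1) (.p (nat_lit 206) (nat_lit 3) (.p (nat_lit 207) (nat_lit 3) (.n (nat_lit 208) (nat_lit 2) (.p (nat_lit 210) (nat_lit 2) (.n (nat_lit 211) (nat_lit 1) (.p (nat_lit 213) (nat_lit 1) (.p (nat_lit 215) (nat_lit 1) (.p (nat_lit 217) (nat_lit 1) (.n (nat_lit 225) (nat_lit 1) (.p (nat_lit 227) (nat_lit 3) (.p (nat_lit 228) (nat_lit 3) (.n (nat_lit 246) (nat_lit 3) (.n (nat_lit 247) (nat_lit 3) (.p (nat_lit 248) (nat_lit 1) .z))))))))))))))) (.ct dC2b_c307 (nat_lit 1) (nat_lit 7) (.s true (nat_lit 1) (nat_lit 26) (nat_lit 2) (nat_lit 1) (nat_lit 2) true (nat_lit 7) true (nat_lit 12) false (nat_lit 1) true (nat_lit 12) true (nat_lit 13) (.e false (nat_lit 1) (nat_lit 26) (nat_lit 18) (nat_lit 1) (.e true (nat_lit 1) (nat_lit 107) (nat_lit 2) (nat_lit 12) (.e true (nat_lit 1) (nat_lit 108) (nat_lit 2) (nat_lit 12) (.e false (nat_lit 1) (nat_lit 111) (nat_lit 2) (nat_lit 12) (.e true (nat_lit 1) (nat_lit 117) (nat_lit 2) (nat_lit 12) (.e false (nat_lit 1) (nat_lit 118) (nat_lit 2) (nat_lit 12) (.e true (nat_lit 1) (nat_lit 120) (nat_lit 2) (nat_lit 12) (.e false (nat_lit 1) (nat_lit 122) (nat_lit 2) (nat_lit 12) (.e false (nat_lit 1) (nat_lit 128) (nat_lit 2) (nat_lit 12) (.e false (nat_lit 1) (nat_lit 134) (nat_lit 1) (nat_lit 13) (.u (nat_lit 2) (.n (nat_lit 1) (nat_lit 1) (.n (nat_lit 2) (nat_lit 1) .z)) .nil))))))))))))) .leaf) (nat_lit 55316) (nat_lit 965) (.n (nat_lit 335) (nat_lit 1) (.n (nat_lit 336) (nat_lit 3) (.p (nat_lit 337) (nat_lit 1) (.p (nat_lit 338) (nat_lit 3) (.n (nat_lit 339) (nat_lit 1) (.p (nat_lit 340) (nat_lit 2) (.n (nat_lit 341) (nat_lit 2) (.p (nat_lit 343) (nat_lit 3) (.p (nat_lit 344) (nat_lit 3) (.n (nat_lit 345) (nat_lit 1) (.n (nat_lit 346) (nat_lit 2) (.p (nat_lit 349) (nat_lit 2) (.p (nat_lit 350) (nat_lit 1) (.p (nat_lit 351) (nat_lit 1) (.n (nat_lit 352) (nat_lit 1) (.p (nat_lit 353) (nat_lit 1) (.p (nat_lit 354) (nat_lit 2) (.n (nat_lit 355) (nat_lit 2) (.p (nat_lit 356) (nat_lit 2) (.n (nat_lit 357) (nat_lit 2) (.p (nat_lit 358) (nat_lit 1) (.p (nat_lit 359) (nat_lit 2) (.p (nat_lit 360) (nat_lit 2) (.n (nat_lit 361) (nat_lit 2) (.n (nat_lit 363) (nat_lit 1) (.n (nat_lit 364) (nat_lit 2) (.n (nat_lit 366) (nat_lit 1) (.p (nat_lit 367) (nat_lit 1) (.p (nat_lit 368) (nat_lit 3) (.n (nat_lit 369) (nat_lit 3) (.p (nat_lit 370) (nat_lit 3) (.n (nat_lit 371) (nat_lit 3) (.n (nat_lit 372) (nat_lit 1) (.n (nat_lit 373) (nat_lit 3) (.p (nat_lit 374) (nat_lit 2) (.n (nat_lit 380) (nat_lit 2) (.p (nat_lit 381) (nat_lit 1) (.p (nat_lit 382) (nat_lit 3) (.p (nat_lit 383) (nat_lit 2) .z))))))))))))))))))))))))))))))))))))))) (.ct dC2b_c308 (nat_lit 1) (nat_lit 4) (.s false (nat_lit 1) (nat_lit 54) (nat_lit 2) (nat_lit 2) (nat_lit 2) true (nat_lit 11) true (nat_lit 16) false (nat_lit 4) true (nat_lit 16) true (nat_lit 16) (.e false (nat_lit 1) (nat_lit 111) (nat_lit 7) (nat_lit 11) (.e true (nat_lit 2) (nat_lit 210) (nat_lit 2) (nat_lit 16) (.e true (nat_lit 1) (nat_lit 205) (nat_lit 2) (nat_lit 16) (.e true (nat_lit 3) (nat_lit 206) (nat_lit 2) (nat_lit 16) (.e true (nat_lit 3) (nat_lit 207) (nat_lit 2) (nat_lit 16) (.e false (nat_lit 2) (nat_lit 208) (nat_lit 2) (nat_lit 16) (.e false (nat_lit 1) (nat_lit 211) (nat_lit 2) (nat_lit 16) (.e true (nat_lit 1) (nat_lit 213) (nat_lit 2) (nat_lit 16) (.e true (nat_lit 1) (nat_lit 215) (nat_lit 2) (nat_lit 16) (.e true (nat_lit 1) (nat_lit 217) (nat_lit 2) (nat_lit 16) (.e false (nat_lit 1) (nat_lit 225) (nat_lit 2) (nat_lit 16) (.e true (nat_lit 3) (nat_lit 227) (nat_lit 2) (nat_lit 16) (.e true (nat_lit 3) (nat_lit 228) (nat_lit 2) (nat_lit 16) (.e false (nat_lit 3) (nat_lit 246) (nat_lit 2) (nat_lit 16) (.e false (nat_lit 3) (nat_lit 247) (nat_lit 2) (nat_lit 16) (.e true (nat_lit 1) (nat_lit 248) (nat_lit 2) (nat_lit 16) (.u (nat_lit 2) (.n (nat_lit 0) (nat_lit 4) (.n (nat_lit 1) (nat_lit 1) (.n (nat_lit 3) (nat_lit 1) (.n (nat_lit 5) (nat_lit 4) (.n (nat_lit 6) (nat_lit 2) (.p (nat_lit 7) (nat_lit 2) (.n (nat_lit 9) (nat_lit 2) (.p (nat_lit 10) (nat_lit 2) (.n (nat_lit 11) (nat_lit 1) (.n (nat_lit 12) (nat_lit 1) (.n (nat_lit 14) (nat_lit 4) (.n (nat_lit 15) (nat_lit 3) (.n (nat_lit 16) (nat_lit 2) (.n (nat_lit 17) (nat_lit 3) (.n (nat_lit 18) (nat_lit 2) (.p (nat_lit 19) (nat_lit 1) (.n (nat_lit 20) (nat_lit 1) (.p (nat_lit 21) (nat_lit 2) (.n (nat_lit 22) (nat_lit 2) (.p (nat_lit 23) (nat_lit 3) (.n (nat_lit 24) (nat_lit 2) (.n (nat_lit 25) (nat_lit 2) (.p (nat_lit 26) (nat_lit 2) (.n (nat_lit 27) (nat_lit 1) (.p (nat_lit 28) (nat_lit 2) (.p (nat_lit 29) (nat_lit 3) (.n (nat_lit 31) (nat_lit 2) (.p (nat_lit 32) (nat_lit 3) (.p (nat_lit 33) (nat_lit 1) (.p (nat_lit 34) (nat_lit 1) (.p (nat_lit 35) (nat_lit 1) (.p (nat_lit 36) (nat_lit 4) (.n (nat_lit 38) (nat_lit 1) (.n (nat_lit 47) (nat_lit 1) (.n (nat_lit 48) (nat_lit 2) .z))))))))))))))))))))))))))))))))))) .nil))))))))))))))))))) (.nd .leaf (nat_lit 56322) (nat_lit 168) (.p (nat_lit 112) (nat_lit 1) .z) .df .leaf)))) (nat_lit 56327) (nat_lit 444) (.p (nat_lit 250) (nat_lit 1) .z) .df (.nd (.nd (.nd (.nd (.nd .leaf (nat_lit 56340) (nat_lit 1003) (.p (nat_lit 335) (nat_lit 1) (.p (nat_lit 336) (nat_lit 2) (.n (nat_lit 337) (nat_lit 3) (.p (nat_lit 338) (nat_lit 3) (.n (nat_lit 339) (nat_lit 1) (.n (nat_lit 340) (nat_lit 3) (.p (nat_lit 341) (nat_lit 3) (.n (nat_lit 342) (nat_lit 2) (.p (nat_lit 343) (nat_lit 3) (.p (nat_lit 344) (nat_lit 1) (.p (nat_lit 345) (nat_lit 3) (.n (nat_lit 346) (nat_lit 3) (.n (nat_lit 347) (nat_lit 2) (.n (nat_lit 349) (nat_lit 2) (.p (nat_lit 350) (nat_lit 2) (.n (nat_lit 351) (nat_lit 3) (.p (nat_lit 353) (nat_lit 3) (.p (nat_lit 354) (nat_lit 1) (.n (nat_lit 355) (nat_lit 1) (.p (nat_lit 358) (nat_lit 3) (.n (nat_lit 360) (nat_lit 1) (.n (nat_lit 361) (nat_lit 2) (.n (nat_lit 362) (nat_lit 3) (.p (nat_lit 364) (nat_lit 2) (.p (nat_lit 366) (nat_lit 3) (.n (nat_lit 367) (nat_lit 1) (.n (nat_lit 368) (nat_lit 3) (.n (nat_lit 369) (nat_lit 1) (.n (nat_lit 370) (nat_lit 3) (.p (nat_lit 371) (nat_lit 2) (.n (nat_lit 372) (nat_lit 2) (.p (nat_lit 373) (nat_lit 3) (.p (nat_lit 374) (nat_lit 3) (.n (nat_lit 380) (nat_lit 3) (.n (nat_lit 381) (nat_lit 2) .z))))))))))))))))))))))))))))))))))) (.ct dC2b_c308 (nat_lit 1) (nat_lit 4) (.s false (nat_lit 1) (nat_lit 55) (nat_lit 2) (nat_lit 2) (nat_lit 2) true (nat_lit 11) true (nat_lit 16) false (nat_lit 4) true (nat_lit 16) true (nat_lit 16) (.e false (nat_lit 1) (nat_lit 112) (nat_lit 7) (nat_lit 11) (.e true (nat_lit 1) (nat_lit 250) (nat_lit 2) (nat_lit 16) (.u (nat_lit 2) (.n (nat_lit 0) (nat_lit 1) (.p (nat_lit 2) (nat_lit 1) (.n (nat_lit 8) (nat_lit 1) (.p (nat_lit 11) (nat_lit 1) (.p (nat_lit 12) (nat_lit 1) (.p (nat_lit 16) (nat_lit 1) (.n (nat_lit 19) (nat_lit 1) (.p (nat_lit 26) (nat_lit 1) (.n (nat_lit 31) (nat_lit 1) (.p (nat_lit 32) (nat_lit 1) (.p (nat_lit 33) (nat_lit 1) (.p (nat_lit 35) (nat_lit 1) (.n (nat_lit 38) (nat_lit 1) (.n (nat_lit 39) (nat_lit 1) .z)))))))))))))) .nil))))) .leaf) (nat_lit 57346) (nat_lit 169) (.p (nat_lit 113) (nat_lit 1) .z) .df .leaf) (nat_lit 57351) (nat_lit 504) (.p (nat_lit 205) (nat_lit 1) (.n (nat_lit 206) (nat_lit 3) (.p (nat_lit 207) (nat_lit 1) (.p (nat_lit 208) (nat_lit 1) (.n (nat_lit 209) (nat_lit 3) (.n (nat_lit 211) (nat_lit 2) (.p (nat_lit 212) (nat_lit 3) (.n (nat_lit 213) (nat_lit 3) (.n (nat_lit 214) (nat_lit 1) (.p (nat_lit 217) (nat_lit 2) (.n (nat_lit 225) (nat_lit 1) (.n (nat_lit 227) (nat_lit 1) (.p (nat_lit 228) (nat_lit 1) (.n (nat_lit 230) (nat_lit 1) (.n (nat_lit 242) (nat_lit 2) (.p (nat_lit 243) (nat_lit 1) (.n (nat_lit 245) (nat_lit 3) (.n (nat_lit 246) (nat_lit 1) (.n (nat_lit 247) (nat_lit 1) (.n (nat_lit 248) (nat_lit 3) (.p (nat_lit 249) (nat_lit 1) (.n (nat_lit 250) (nat_lit 1) (.n (nat_lit 251) (nat_lit 1) .z))))))))))))))))))))))) (.ct dC2b_c307 (nat_lit 1) (nat_lit 7) (.s true (nat_lit 1) (nat_lit 28) (nat_lit 2) (nat_lit 1) (nat_lit 2) true (nat_lit 7) true (nat_lit 12) false (nat_lit 1) true (nat_lit 12) true (nat_lit 13) (.e false (nat_lit 1) (nat_lit 28) (nat_lit 18) (nat_lit 1) (.e false (nat_lit 3) (nat_lit 106) (nat_lit 2) (nat_lit 12) (.e false (nat_lit 1) (nat_lit 107) (nat_lit 2) (nat_lit 12) (.e false (nat_lit 1) (nat_lit 108) (nat_lit 2) (nat_lit 12) (.e true (nat_lit 1) (nat_lit 110) (nat_lit 2) (nat_lit 12) (.e false (nat_lit 1) (nat_lit 111) (nat_lit 2) (nat_lit 12) (.e false (nat_lit 3) (nat_lit 112) (nat_lit 2) (nat_lit 12) (.e true (nat_lit 3) (nat_lit 113) (nat_lit 2) (nat_lit 12) (.e true (nat_lit 2) (nat_lit 114) (nat_lit 2) (nat_lit 12) (.e false (nat_lit 3) (nat_lit 115) (nat_lit 2) (nat_lit 12) (.e true (nat_lit 2) (nat_lit 116) (nat_lit 2) (nat_lit 12) (.e false (nat_lit 3) (nat_lit 117) (nat_lit 2) (nat_lit 12) (.e true (nat_lit 1) (nat_lit 118) (nat_lit 2) (nat_lit 12) (.e true (nat_lit 1) (nat_lit 119) (nat_lit 2) (nat_lit 12) (.e true (nat_lit 1) (nat_lit 120) (nat_lit 2) (nat_lit 12) (.e false (nat_lit 1) (nat_lit 122) (nat_lit 2) (nat_lit 12) (.e true (nat_lit 1) (nat_lit 123) (nat_lit 2) (nat_lit 12) (.e false (nat_lit 1) (nat_lit 126) (nat_lit 2) (nat_lit 12) (.e false (nat_lit 1) (nat_lit 127) (nat_lit 2) (nat_lit 12) (.e true (nat_lit 2) (nat_lit 130) (nat_lit 2) (nat_lit 12) (.e true (nat_lit 1) (nat_lit 131) (nat_lit 2) (nat_lit 12) (.e false (nat_lit 1) (nat_lit 136) (nat_lit 1) (nat_lit 13) (.u (nat_lit 2) (.p (nat_lit 1) (nat_lit 1) (.n (nat_lit 3) (nat_lit 1) (.p (nat_lit 6) (nat_lit 1) (.n (nat_lit 7) (nat_lit 1) (.p (nat_lit 9) (nat_lit 1) (.n (nat_lit 10) (nat_lit 1) (.p (nat_lit 11) (nat_lit 1) (.n (nat_lit 14) (nat_lit 1) (.p (nat_lit 16) (nat_lit 1) (.p (nat_lit 40) (nat_lit 1) .z)))))))))) .nil))))))))))))))))))))))))) (.nd (.nd .leaf (nat_lit 57364) (nat_lit 1076) (.p (nat_lit 335) (nat_lit 2) (.n (nat_lit 336) (nat_lit 1) (.n (nat_lit 337) (nat_lit 2) (.p (nat_lit 338) (nat_lit 3) (.n (nat_lit 339) (nat_lit 1) (.n (nat_lit 341) (nat_lit 1) (.n (nat_lit 342) (nat_lit 2) (.p (nat_lit 343) (nat_lit 2) (.p (nat_lit 344) (nat_lit 3) (.p (nat_lit 346) (nat_lit 1) (.p (nat_lit 347) (nat_lit 1) (.p (nat_lit 349) (nat_lit 2) (.n (nat_lit 350) (nat_lit 2) (.n (nat_lit 351) (nat_lit 2) (.n (nat_lit 353) (nat_lit 3) (.n (nat_lit 354) (nat_lit 3) (.p (nat_lit 355) (nat_lit 3) (.n (nat_lit 356) (nat_lit 2) (.p (nat_lit 357) (nat_lit 2) (.p (nat_lit 358) (nat_lit 2) (.p (nat_lit 359) (nat_lit 2) (.p (nat_lit 360) (nat_lit 2) (.p (nat_lit 361) (nat_lit 2) (.p (nat_lit 362) (nat_lit 1) (.n (nat_lit 363) (nat_lit 1) (.n (nat_lit 364) (nat_lit 3) (.p (nat_lit 366) (nat_lit 1) (.n (nat_lit 367) (nat_lit 2) (.n (nat_lit 368) (nat_lit 3) (.n (nat_lit 369) (nat_lit 1) (.p (nat_lit 370) (nat_lit 3) (.n (nat_lit 371) (nat_lit 2) (.p (nat_lit 372) (nat_lit 3) (.p (nat_lit 373) (nat_lit 3) (.n (nat_lit 374) (nat_lit 3) (.p (nat_lit 380) (nat_lit 1) (.p (nat_lit 381) (nat_lit 3) (.p (nat_lit 382) (nat_lit 2) (.n (nat_lit 383) (nat_lit 1) .z))))))))))))))))))))))))))))))))))))))) (.ct dC2b_c308 (nat_lit 1) (nat_lit 4) (.s true (nat_lit 1) (nat_lit 20) (nat_lit 2) (nat_lit 10) (nat_lit 0) true (nat_lit 13) true (nat_lit 18) true (nat_lit 4) true (nat_lit 16) true (nat_lit 9) (.e false (nat_lit 1) (nat_lit 163) (nat_lit 5) (nat_lit 13) (.e true (nat_lit 1) (nat_lit 167) (nat_lit 5) (nat_lit 13) (.e false (nat_lit 1) (nat_lit 294) (nat_lit 0) (nat_lit 18) (.e true (nat_lit 1) (nat_lit 303) (nat_lit 0) (nat_lit 18) (.e false (nat_lit 1) (nat_lit 49) (nat_lit 20) (nat_lit 4) (.e true (nat_lit 1) (nat_lit 50) (nat_lit 20) (nat_lit 4) (.e true (nat_lit 1) (nat_lit 52) (nat_lit 20) (nat_lit 4) (.e false (nat_lit 1) (nat_lit 58) (nat_lit 20) (nat_lit 4) (.e false (nat_lit 2) (nat_lit 59) (nat_lit 20) (nat_lit 4) (.e false (nat_lit 1) (nat_lit 229) (nat_lit 2) (nat_lit 16) (.e true (nat_lit 1) (nat_lit 247) (nat_lit 2) (nat_lit 16) (.e false (nat_lit 1) (nat_lit 99) (nat_lit 10) (nat_lit 9) (.u (nat_lit 2) (.n (nat_lit 0) (nat_lit 2) (.p (nat_lit 1) (nat_lit 1) (.p (nat_lit 2) (nat_lit 1) (.p (nat_lit 3) (nat_lit 1) (.p (nat_lit 5) (nat_lit 1) (.p (nat_lit 6) (nat_lit 2) (.n (nat_lit 7) (nat_lit 1) (.n (nat_lit 8) (nat_lit 1) (.p (nat_lit 9) (nat_lit 1) (.n (nat_lit 10) (nat_lit 1) (.n (nat_lit 11) (nat_lit 2) (.n (nat_lit 12) (nat_lit 2) (.n (nat_lit 14) (nat_lit 2) (.p (nat_lit 15) (nat_lit 2) (.p (nat_lit 16) (nat_lit 1) (.p (nat_lit 17) (nat_lit 1) (.p (nat_lit 18) (nat_lit 3) (.p (nat_lit 19) (nat_lit 2) (.n (nat_lit 20) (nat_lit 1) (.n (nat_lit 26) (nat_lit 1) (.p (nat_lit 28) (nat_lit 1) (.p (nat_lit 29) (nat_lit 1) (.n (nat_lit 31) (nat_lit 1) (.p (nat_lit 33) (nat_lit 1) (.p (nat_lit 34) (nat_lit 1) (.p (nat_lit 36) (nat_lit 1) (.n (nat_lit 38) (nat_lit 1) (.p (nat_lit 39) (nat_lit 2) (.n (nat_lit 46) (nat_lit 1) (.p (nat_lit 48) (nat_lit 1) .z)))))))))))))))))))))))))))))) .nil))))))))))))))) .leaf) (nat_lit 58370) (nat_lit 170) (.p (nat_lit 114) (nat_lit 1) .z) .df .leaf)) (nat_lit 58375) (nat_lit 487) (.n (nat_lit 205) (nat_lit 1) (.p (nat_lit 206) (nat_lit 3) (.p (nat_lit 207) (nat_lit 3) (.p (nat_lit 208) (nat_lit 2) (.p (nat_lit 211) (nat_lit 1) (.n (nat_lit 213) (nat_lit 1) (.n (nat_lit 215) (nat_lit 1) (.n (nat_lit 216) (nat_lit 2) (.n (nat_lit 217) (nat_lit 1) (.p (nat_lit 225) (nat_lit 1) (.n (nat_lit 227) (nat_lit 2) (.n (nat_lit 228) (nat_lit 3) (.p (nat_lit 230) (nat_lit 1) (.p (nat_lit 246) (nat_lit 3) (.p (nat_lit 247) (nat_lit 3) (.n (nat_lit 248) (nat_lit 1) (.n (nat_lit 249) (nat_lit 1) (.p (nat_lit 250) (nat_lit 1) .z)))))))))))))))))) (.ct dC2b_c307 (nat_lit 1) (nat_lit 7) (.s false (nat_lit 1) (nat_lit 11) (nat_lit 2) (nat_lit 4) (nat_lit 2) true (nat_lit 7) true (nat_lit 12) true (nat_lit 4) true (nat_lit 12) true (nat_lit 10) dC2b_i36)) (.nd (.nd (.nd .leaf (nat_lit 58388) (nat_lit 984) (.p (nat_lit 338) (nat_lit 3) (.n (nat_lit 339) (nat_lit 1) (.p (nat_lit 341) (nat_lit 1) (.p (nat_lit 342) (nat_lit 1) (.p (nat_lit 344) (nat_lit 3) (.n (nat_lit 346) (nat_lit 2) (.n (nat_lit 347) (nat_lit 2) (.p (nat_lit 349) (nat_lit 2) (.p (nat_lit 350) (nat_lit 3) (.p (nat_lit 351) (nat_lit 2) (.n (nat_lit 352) (nat_lit 1) (.n (nat_lit 353) (nat_lit 2) (.n (nat_lit 354) (nat_lit 1) (.p (nat_lit 355) (nat_lit 3) (.p (nat_lit 356) (nat_lit 1) (.n (nat_lit 357) (nat_lit 1) (.n (nat_lit 358) (nat_lit 2) (.n (nat_lit 359) (nat_lit 3) (.n (nat_lit 360) (nat_lit 3) (.p (nat_lit 361) (nat_lit 1) (.p (nat_lit 362) (nat_lit 3) (.n (nat_lit 363) (nat_lit 2) (.n (nat_lit 364) (nat_lit 2) (.n (nat_lit 366) (nat_lit 1) (.p (nat_lit 367) (nat_lit 1) (.p (nat_lit 368) (nat_lit 2) (.p (nat_lit 370) (nat_lit 3) (.n (nat_lit 371) (nat_lit 3) (.p (nat_lit 372) (nat_lit 2) (.n (nat_lit 373) (nat_lit 2) (.n (nat_lit 374) (nat_lit 2) (.n (nat_lit 382) (nat_lit 3) (.n (nat_lit 383) (nat_lit 2) .z))))))))))))))))))))))))))))))))) (.ct dC2b_c308 (nat_lit 1) (nat_lit 4) (.s false (nat_lit 1) (nat_lit 29) (nat_lit 2) (nat_lit 1) (nat_lit 7) true (nat_lit 4) true (nat_lit 11) true (nat_lit 2) true (nat_lit 16) true (nat_lit 17) (.s false (nat_lit 1) (nat_lit 29) (nat_lit 2) (nat_lit 2) (nat_lit 6) true (nat_lit 5) true (nat_lit 12) true (nat_lit 2) true (nat_lit 16) true (nat_lit 16) (.e false (nat_lit 1) (nat_lit 122) (nat_lit 7) (nat_lit 11) dC2b_i38)))) .leaf) (nat_lit 59394) (nat_lit 171) (.p (nat_lit 115) (nat_lit 1) .z) .df .leaf) (nat_lit 59399) (nat_lit 547) (.p (nat_lit 205) (nat_lit 2) (.n (nat_lit 206) (nat_lit 1) (.n (nat_lit 207) (nat_lit 3) (.n (nat_lit 208) (nat_lit 2) (.p (nat_lit 209) (nat_lit 3) (.n (nat_lit 211) (nat_lit 1) (.p (nat_lit 212) (nat_lit 3) (.p (nat_lit 213) (nat_lit 3) (.n (nat_lit 214) (nat_lit 1) (.n (nat_lit 215) (nat_lit 1) (.p (nat_lit 216) (nat_lit 1) (.p (nat_lit 217) (nat_lit 3) (.n (nat_lit 227) (nat_lit 2) (.p (nat_lit 228) (nat_lit 1) (.p (nat_lit 242) (nat_lit 1) (.p (nat_lit 243) (nat_lit 3) (.n (nat_lit 245) (nat_lit 3) (.p (nat_lit 246) (nat_lit 3) (.p (nat_lit 247) (nat_lit 3) (.n (nat_lit 248) (nat_lit 3) (.p (nat_lit 249) (nat_lit 1) (.n (nat_lit 250) (nat_lit 1) (.p (nat_lit 251) (nat_lit 3) .z))))))))))))))))))))))) (.ct dC2b_c307 (nat_lit 1) (nat_lit 7) (.s false (nat_lit 1) (nat_lit 13) (nat_lit 2) (nat_lit 4) (nat_lit 2) true (nat_lit 7) true (nat_lit 12) true (nat_lit 4) true (nat_lit 12) true (nat_lit 10) (.e true (nat_lit 1) (nat_lit 53) (nat_lit 7) (nat_lit 7) (.e true (nat_lit 1) (nat_lit 54) (nat_lit 7) (nat_lit 7) dC2b_i39)))) (.nd .leaf (nat_lit 59412) (nat_lit 1075) (.n (nat_lit 335) (nat_lit 3) (.p (nat_lit 336) (nat_lit 1) (.p (nat_lit 337) (nat_lit 2) (.p (nat_lit 338) (nat_lit 2) (.n (nat_lit 339) (nat_lit 3) (.n (nat_lit 341) (nat_lit 3) (.n (nat_lit 342) (nat_lit 1) (.p (nat_lit 343) (nat_lit 3) (.n (nat_lit 344) (nat_lit 1) (.n (nat_lit 345) (nat_lit 3) (.p (nat_lit 346) (nat_lit 1) (.n (nat_lit 349) (nat_lit 3) (.n (nat_lit 350) (nat_lit 3) (.p (nat_lit 351) (nat_lit 3) (.p (nat_lit 352) (nat_lit 1) (.p (nat_lit 355) (nat_lit 2) (.n (nat_lit 358) (nat_lit 3) (.n (nat_lit 359) (nat_lit 3) (.p (nat_lit 360) (nat_lit 3) (.p (nat_lit 362) (nat_lit 3) (.p (nat_lit 363) (nat_lit 1) (.n (nat_lit 366) (nat_lit 3) (.p (nat_lit 368) (nat_lit 2) (.p (nat_lit 369) (nat_lit 2) (.p (nat_lit 371) (nat_lit 3) (.p (nat_lit 372) (nat_lit 3) (.n (nat_lit 373) (nat_lit 2) (.p (nat_lit 374) (nat_lit 1) (.p (nat_lit 380) (nat_lit 1) (.p (nat_lit 381) (nat_lit 3) (.p (nat_lit 382) (nat_lit 2) (.n (nat_lit 383) (nat_lit 1) .z)))))))))))))))))))))))))))))))) (.ct dC2b_c308 (nat_lit 1) (nat_lit 4) (.s false (nat_lit 1) (nat_lit 58) (nat_lit 2) (nat_lit 2) (nat_lit 2) true (nat_lit 11) true (nat_lit 16) false (nat_lit 4) true (nat_lit 16) true (nat_lit 16) dC2b_i40)) .leaf))) (nat_lit 60418) (nat_lit 172) (.p (nat_lit 116) (nat_lit 1) .z) .df (.nd (.nd (.nd (.nd .leaf (nat_lit 60423) (nat_lit 445) (.p (nat_lit 251) (nat_lit 1) .z) .df .leaf) (nat_lit 60436) (nat_lit 969) (.n (nat_lit 335) (nat_lit 3) (.p (nat_lit 336) (nat_lit 2) (.n (nat_lit 337) (nat_lit 3) (.p (nat_lit 338) (nat_lit 1) (.p (nat_lit 339) (nat_lit 2) (.p (nat_lit 340) (nat_lit 3) (.p (nat_lit 341) (nat_lit 3) (.n (nat_lit 342) (nat_lit 3) (.n (nat_lit 343) (nat_lit 2) (.p (nat_lit 344) (nat_lit 3) (.n (nat_lit 346) (nat_lit 3) (.n (nat_lit 347) (nat_lit 3) (.n (nat_lit 349) (nat_lit 3) (.n (nat_lit 351) (nat_lit 1) (.p (nat_lit 352) (nat_lit 3) (.p (nat_lit 353) (nat_lit 2) (.p (nat_lit 354) (nat_lit 3) (.n (nat_lit 355) (nat_lit 3) (.p (nat_lit 358) (nat_lit 2) (.p (nat_lit 359) (nat_lit 2) (.n (nat_lit 361) (nat_lit 1) (.p (nat_lit 363) (nat_lit 2) (.p (nat_lit 364) (nat_lit 2) (.p (nat_lit 366) (nat_lit 2) (.n (nat_lit 367) (nat_lit 1) (.n (nat_lit 368) (nat_lit 1) (.p (nat_lit 369) (nat_lit 2) (.p (nat_lit 372) (nat_lit 3) (.p (nat_lit 373) (nat_lit 1) (.p (nat_lit 374) (nat_lit 3) (.p (nat_lit 380) (nat_lit 2) (.n (nat_lit 381) (nat_lit 1) (.n (nat_lit 382) (nat_lit 2) (.p (nat_lit 383) (nat_lit 1) .z)))))))))))))))))))))))))))))))))) (.ct dC2b_c308 (nat_lit 1) (nat_lit 4) (.s false (nat_lit 1) (nat_lit 59) (nat_lit 2) (nat_lit 2) (nat_lit 2) true (nat_lit 11) true (nat_lit 16) false (nat_lit 4) true (nat_lit 16) true (nat_lit 16) (.e false (nat_lit 1) (nat_lit 116) (nat_lit 7) (nat_lit 11) (.e true (nat_lit 1) (nat_lit 251) (nat_lit 2) (nat_lit 16) (.u (nat_lit 2) (.p (nat_lit 0) (nat_lit 1) (.n (nat_lit 1) (nat_lit 1) (.p (nat_lit 2) (nat_lit 1) (.n (nat_lit 5) (nat_lit 1) (.p (nat_lit 7) (nat_lit 1) (.n (nat_lit 9) (nat_lit 1) (.p (nat_lit 11) (nat_lit 1) (.p (nat_lit 12) (nat_lit 1) (.n (nat_lit 29) (nat_lit 1) .z))))))))) .nil))))) .leaf) (nat_lit 61441) (nat_lit 173) (.p (nat_lit 117) (nat_lit 1) .z) .df (.nd (.nd .leaf (nat_lit 61442) (nat_lit 226) (.p (nat_lit 132) (nat_lit 1) .z) .df .leaf) (nat_lit 61446) (nat_lit 450) (.p (nat_lit 205) (nat_lit 1) (.n (nat_lit 208) (nat_lit 3) (.p (nat_lit 215) (nat_lit 1) (.p (nat_lit 216) (nat_lit 3) (.n (nat_lit 225) (nat_lit 1) (.n (nat_lit 227) (nat_lit 1) (.n (nat_lit 231) (nat_lit 1) (.p (nat_lit 242) (nat_lit 1) (.p (nat_lit 248) (nat_lit 1) .z))))))))) (.ct dC2b_c307 (nat_lit 1) (nat_lit 8) (.s true (nat_lit 1) (nat_lit 24) (nat_lit 1) (nat_lit 2) (nat_lit 2) true (nat_lit 8) true (nat_lit 12) false (nat_lit 1) true (nat_lit 13) true (nat_lit 12) (.e true (nat_lit 1) (nat_lit 109) (nat_lit 2) (nat_lit 12) (.e false (nat_lit 1) (nat_lit 24) (nat_lit 18) (nat_lit 1) (.e false (nat_lit 1) (nat_lit 152) (nat_lit 1) (nat_lit 13) (.e false (nat_lit 1) (nat_lit 117) (nat_lit 2) (nat_lit 12) .nil)))))) .leaf)) (nat_lit 61447) (nat_lit 592) (.p (nat_lit 283) (nat_lit 1) .z) .df (.nd (.nd (.nd .leaf (nat_lit 61458) (nat_lit 1014) (.p (nat_lit 335) (nat_lit 1) (.p (nat_lit 336) (nat_lit 2) (.n (nat_lit 337) (nat_lit 3) (.p (nat_lit 338) (nat_lit 2) (.p (nat_lit 339) (nat_lit 3) (.n (nat_lit 340) (nat_lit 2) (.n (nat_lit 342) (nat_lit 3) (.n (nat_lit 343) (nat_lit 1) (.n (nat_lit 344) (nat_lit 1) (.n (nat_lit 345) (nat_lit 1) (.p (nat_lit 346) (nat_lit 1) (.n (nat_lit 347) (nat_lit 1) (.p (nat_lit 349) (nat_lit 2) (.n (nat_lit 350) (nat_lit 2) (.n (nat_lit 351) (nat_lit 3) (.n (nat_lit 353) (nat_lit 2) (.p (nat_lit 354) (nat_lit 1) (.p (nat_lit 356) (nat_lit 2) (.n (nat_lit 357) (nat_lit 2) (.p (nat_lit 358) (nat_lit 2) (.p (nat_lit 359) (nat_lit 2) (.n (nat_lit 360) (nat_lit 2) (.p (nat_lit 362) (nat_lit 1) (.p (nat_lit 363) (nat_lit 2) (.p (nat_lit 364) (nat_lit 1) (.p (nat_lit 366) (nat_lit 3) (.p (nat_lit 367) (nat_lit 3) (.p (nat_lit 368) (nat_lit 1) (.n (nat_lit 369) (nat_lit 2) (.p (nat_lit 370) (nat_lit 1) (.n (nat_lit 371) (nat_lit 2) (.n (nat_lit 372) (nat_lit 3) (.n (nat_lit 373) (nat_lit 1) (.n (nat_lit 374) (nat_lit 3) (.p (nat_lit 375) (nat_lit 3) (.p (nat_lit 377) (nat_lit 1) (.p (nat_lit 379) (nat_lit 3) (.p (nat_lit 380) (nat_lit 2) (.p (nat_lit 381) (nat_lit 1) (.p (nat_lit 382) (nat_lit 1) (.p (nat_lit 383) (nat_lit 3) .z))))))))))))))))))))))))))))))))))))))))) (.ct dC2b_c308 (nat_lit 1) (nat_lit 5) (.s false (nat_lit 1) (nat_lit 60) (nat_lit 1) (nat_lit 2) (nat_lit 2) true (nat_lit 12) true (nat_lit 16) false (nat_lit 5) true (nat_lit 17) true (nat_lit 16) (.e false (nat_lit 1) (nat_lit 132) (nat_lit 6) (nat_lit 12) (.e false (nat_lit 1) (nat_lit 216) (nat_lit 2) (nat_lit 16) (.e true (nat_lit 1) (nat_lit 283) (nat_lit 1) (nat_lit 17) (.e true (nat_lit 1) (nat_lit 231) (nat_lit 2) (nat_lit 16) (.u (nat_lit 2) (.n (nat_lit 1) (nat_lit 1) (.p (nat_lit 2) (nat_lit 1) (.n (nat_lit 3) (nat_lit 1) (.p (nat_lit 5) (nat_lit 1) (.p (nat_lit 6) (nat_lit 1) (.p (nat_lit 7) (nat_lit 1) (.p (nat_lit 9) (nat_lit 1) (.p (nat_lit 12) (nat_lit 1) (.p (nat_lit 17) (nat_lit 1) (.n (nat_lit 19) (nat_lit 1) (.p (nat_lit 20) (nat_lit 1) (.n (nat_lit 21) (nat_lit 1) (.p (nat_lit 22) (nat_lit 1) (.p (nat_lit 25) (nat_lit 1) (.n (nat_lit 27) (nat_lit 1) (.n (nat_lit 31) (nat_lit 1) (.n (nat_lit 32) (nat_lit 1) (.p (nat_lit 36) (nat_lit 1) (.p (nat_lit 39) (nat_lit 1) (.n (nat_lit 45) (nat_lit 1) (.n (nat_lit 47) (nat_lit 1) (.n (nat_lit 48) (nat_lit 1) .z)))))))))))))))))))))) .nil))))))) .leaf) (nat_lit 61459) (nat_lit 1016) (.p (nat_lit 335) (nat_lit 2) (.p (nat_lit 336) (nat_lit 3) (.n (nat_lit 337) (nat_lit 1) (.n (nat_lit 338) (nat_lit 1) (.n (nat_lit 340) (nat_lit 3) (.n (nat_lit 341) (nat_lit 1) (.n (nat_lit 342) (nat_lit 1) (.n (nat_lit 344) (nat_lit 3) (.n (nat_lit 345) (nat_lit 1) (.n (nat_lit 346) (nat_lit 1) (.p (nat_lit 347) (nat_lit 2) (.p (nat_lit 349) (nat_lit 1) (.p (nat_lit 351) (nat_lit 3) (.n (nat_lit 355) (nat_lit 1) (.p (nat_lit 356) (nat_lit 2) (.n (nat_lit 357) (nat_lit 2) (.p (nat_lit 359) (nat_lit 2) (.n (nat_lit 361) (nat_lit 2) (.n (nat_lit 362) (nat_lit 2) (.n (nat_lit 363) (nat_lit 3) (.p (nat_lit 364) (nat_lit 2) (.n (nat_lit 366) (nat_lit 1) (.n (nat_lit 367) (nat_lit 1) (.n (nat_lit 368) (nat_lit 3) (.n (nat_lit 370) (nat_lit 3) (.p (nat_lit 371) (nat_lit 2) (.p (nat_lit 373) (nat_lit 3) (.p (nat_lit 374) (nat_lit 1) (.p (nat_lit 375) (nat_lit 1) (.n (nat_lit 377) (nat_lit 2) (.p (nat_lit 379) (nat_lit 1) (.p (nat_lit 380) (nat_lit 3) (.n (nat_lit 381) (nat_lit 2) .z))))))))))))))))))))))))))))))))) (.ct dC2b_c308 (nat_lit 1) (nat_lit 5) (.s false (nat_lit 1) (nat_lit 60) (nat_lit 2) (nat_lit 2) (nat_lit 1) true (nat_lit 12) true (nat_lit 17) false (nat_lit 5) true (nat_lit 16) true (nat_lit 16) (.e false (nat_lit 1) (nat_lit 132) (nat_lit 6) (nat_lit 12) (.e false (nat_lit 1) (nat_lit 252) (nat_lit 1) (nat_lit 17) (.e true (nat_lit 1) (nat_lit 205) (nat_lit 2) (nat_lit 16) (.e false (nat_lit 3) (nat_lit 208) (nat_lit 2) (nat_lit 16) (.e true (nat_lit 1) (nat_lit 215) (nat_lit 2) (nat_lit 16) (.e false (nat_lit 3) (nat_lit 216) (nat_lit 2) (nat_lit 16) (.e false (nat_lit 1) (nat_lit 225) (nat_lit 2) (nat_lit 16) (.e false (nat_lit 1) (nat_lit 227) (nat_lit 2) (nat_lit 16) (.e false (nat_lit 1) (nat_lit 231) (nat_lit 2) (nat_lit 16) (.e true (nat_lit 1) (nat_lit 242) (nat_lit 2) (nat_lit 16) (.e true (nat_lit 1) (nat_lit 248) (nat_lit 2) (nat_lit 16) (.u (nat_lit 2) (.n (nat_lit 0) (nat_lit 1) (.n (nat_lit 1) (nat_lit 1) (.n (nat_lit 3) (nat_lit 1) (.n (nat_lit 4) (nat_lit 1) (.p (nat_lit 6) (nat_lit 2) (.p (nat_lit 7) (nat_lit 1) (.p (nat_lit 8) (nat_lit 1) (.p (nat_lit 9) (nat_lit 2) (.p (nat_lit 12) (nat_lit 1) (.p (nat_lit 14) (nat_lit 1) (.n (nat_lit 16) (nat_lit 1) (.p (nat_lit 17) (nat_lit 1) (.p (nat_lit 18) (nat_lit 1) (.n (nat_lit 19) (nat_lit 1) (.p (nat_lit 20) (nat_lit 1) (.n (nat_lit 21) (nat_lit 3) (.p (nat_lit 22) (nat_lit 3) (.p (nat_lit 24) (nat_lit 1) (.p (nat_lit 26) (nat_lit 1) (.p (nat_lit 28) (nat_lit 2) (.p (nat_lit 29) (nat_lit 1) (.p (nat_lit 31) (nat_lit 1) (.p (nat_lit 36) (nat_lit 1) (.n (nat_lit 37) (nat_lit 2) (.p (nat_lit 40) (nat_lit 1) (.p (nat_lit 42) (nat_lit 1) (.p (nat_lit 44) (nat_lit 1) (.n (nat_lit 45) (nat_lit 2) (.p (nat_lit 46) (nat_lit 1) (.n (nat_lit 47) (nat_lit 1) (.n (nat_lit 48) (nat_lit 1) (.n (nat_lit 313) (nat_lit 1) .z)))))))))))))))))))))))))))))))) .nil)))))))))))))) .leaf) (nat_lit 61460) (nat_lit 1241) (.p (nat_lit 398) (nat_lit 2) (.p (nat_lit 399) (nat_lit 3) (.n (nat_lit 400) (nat_lit 3) (.p (nat_lit 401) (nat_lit 3) (.p (nat_lit 402) (nat_lit 3) (.p (nat_lit 403) (nat_lit 1) (.p (nat_lit 405) (nat_lit 2) (.n (nat_lit 406) (nat_lit 1) (.n (nat_lit 407) (nat_lit 1) (.p (nat_lit 408) (nat_lit 2) (.p (nat_lit 409) (nat_lit 2) (.n (nat_lit 410) (nat_lit 1) (.p (nat_lit 411) (nat_lit 2) (.n (nat_lit 412) (nat_lit 2) (.n (nat_lit 413) (nat_lit 2) (.n (nat_lit 414) (nat_lit 1) (.n (nat_lit 416) (nat_lit 2) (.n (nat_lit 418) (nat_lit 1) (.p (nat_lit 420) (nat_lit 2) (.n (nat_lit 421) (nat_lit 3) (.p (nat_lit 435) (nat_lit 1) .z))))))))))))))))))))) (.ct dC2b_c293 (nat_lit 1) (nat_lit 3) (.s false (nat_lit 1) (nat_lit 24) (nat_lit 2) (nat_lit 2) (nat_lit 7) true (nat_lit 3) true (nat_lit 9) true (nat_lit 2) true (nat_lit 14) true (nat_lit 14) (.e false (nat_lit 1) (nat_lit 132) (nat_lit 7) (nat_lit 9) (.e true (nat_lit 1) (nat_lit 283) (nat_lit 2) (nat_lit 14) .nil)))) (.nd .leaf (nat_lit 62465) (nat_lit 174) (.p (nat_lit 118) (nat_lit 1) .z) .df .leaf))))))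

noncomputable def dC2b_t2 : Tr := (.nd dC2b_t0 (nat_lit 48139) (nat_lit 613) (.n (nat_lit 252) (nat_lit 1) (.n (nat_lit 253) (nat_lit 1) (.n (nat_lit 254) (nat_lit 2) (.p (nat_lit 255) (nat_lit 1) (.n (nat_lit 257) (nat_lit 1) (.p (nat_lit 258) (nat_lit 3) (.p (nat_lit 264) (nat_lit 1) (.p (nat_lit 265) (nat_lit 2) (.n (nat_lit 266) (nat_lit 1) (.p (nat_lit 269) (nat_lit 3) (.p (nat_lit 272) (nat_lit 1) (.n (nat_lit 277) (nat_lit 1) (.p (nat_lit 285) (nat_lit 1) .z))))))))))))) (.ct dC2b_c292 (nat_lit 1) (nat_lit 4) (.s true (nat_lit 1) (nat_lit 11) (nat_lit 7) (nat_lit 2) (nat_lit 1) true (nat_lit 1) true (nat_lit 12) true (nat_lit 4) true (nat_lit 6) true (nat_lit 11) (.e false (nat_lit 1) (nat_lit 33) (nat_lit 19) (nat_lit 1) (.e true (nat_lit 1) (nat_lit 177) (nat_lit 1) (nat_lit 12) (.e false (nat_lit 1) (nat_lit 73) (nat_lit 7) (nat_lit 6) (.e true (nat_lit 1) (nat_lit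 154) (nat_lit 2) (nat_lit 11) (.u (nat_lit 2) (.n (nat_lit 6) (nat_lit 1) (.n (nat_lit 17) (nat_lit 1) .z)) .nil))))))) dC2b_t1)

noncomputable def dC2b_t3 : Tr := (.nd (.nd (.nd (.nd (.nd (.nd (.nd .leaf (nat_lit 62470) (nat_lit 458) (.n (nat_lit 209) (nat_lit 1) (.p (nat_lit 217) (nat_lit 2) (.n (nat_lit 230) (nat_lit 1) (.n (nat_lit 232) (nat_lit 1) (.p (nat_lit 243) (nat_lit 1) (.p (nat_lit 249) (nat_lit 1) .z)))))) (.ct dC2b_c307 (nat_lit 1) (nat_lit 8) (.s true (nat_lit 1) (nat_lit 25) (nat_lit 1) (nat_lit 2) (nat_lit 2) true (nat_lit 8) true (nat_lit 12) false (nat_lit 1) true (nat_lit 13) true (nat_lit 12) (.e true (nat_lit 1) (nat_lit 110) (nat_lit 2) (nat_lit 12) (.e false (nat_lit 1) (nat_lit 25) (nat_lit 18) (nat_lit 1) (.e false (nat_lit 1) (nat_lit 153) (nat_lit 1) (nat_lit 13) (.e false (nat_lit 1) (nat_lit 118) (nat_lit 2) (nat_lit 12) .nil)))))) .leaf) (nat_lit 62471) (nat_lit 593) (.p (nat_lit 284) (nat_lit 1) .z) .df .leaf) (nat_lit 62482) (nat_lit 1035) (.p (nat_lit 335) (nat_lit 3) (.n (nat_lit 336) (nat_lit 2) (.p (nat_lit 337) (nat_lit 3) (.n (nat_lit 338) (nat_lit 3) (.n (nat_lit 339) (nat_lit 1) (.p (nat_lit 341) (nat_lit 2) (.p (nat_lit 342) (nat_lit 1) (.p (nat_lit 343) (nat_lit 2) (.p (nat_lit 344) (nat_lit 3) (.p (nat_lit 345) (nat_lit 1) (.p (nat_lit 346) (nat_lit 3) (.p (nat_lit 349) (nat_lit 3) (.p (nat_lit 350) (nat_lit 1) (.n (nat_lit 351) (nat_lit 2) (.p (nat_lit 352) (nat_lit 2) (.n (nat_lit 353) (nat_lit 1) (.p (nat_lit 354) (nat_lit 2) (.p (nat_lit 355) (nat_lit 2) (.p (nat_lit 356) (nat_lit 3) (.n (nat_lit 357) (nat_lit 3) (.n (nat_lit 358) (nat_lit 2) (.n (nat_lit 359) (nat_lit 3) (.n (nat_lit 360) (nat_lit 1) (.n (nat_lit 361) (nat_lit 2) (.n (nat_lit 362) (nat_lit 1) (.p (nat_lit 363) (nat_lit 3) (.p (nat_lit 364) (nat_lit 2) (.n (nat_lit 367) (nat_lit 1) (.p (nat_lit 369) (nat_lit 3) (.n (nat_lit 370) (nat_lit 1) (.n (nat_lit 371) (nat_lit 3) (.p (nat_lit 372) (nat_lit 2) (.n (nat_lit 374) (nat_lit 2) (.n (nat_lit 375) (nat_lit 1) (.p (nat_lit 377) (nat_lit 2) (.n (nat_lit 379) (nat_lit 1) (.n (nat_lit 380) (nat_lit 3) (.p (nat_lit 381) (nat_lit 2) (.n (nat_lit 382) (nat_lit 3) (.n (nat_lit 383) (nat_lit 2) .z)))))))))))))))))))))))))))))))))))))))) (.ct dC2b_c308 (nat_lit 1) (nat_lit 5) (.s false (nat_lit 1) (nat_lit 61) (nat_lit 1) (nat_lit 2) (nat_lit 2) true (nat_lit 12) true (nat_lit 16) false (nat_lit 5) true (nat_lit 17) true (nat_lit 16) (.e false (nat_lit 1) (nat_lit 133) (nat_lit 6) (nat_lit 12) (.e false (nat_lit 1) (nat_lit 217) (nat_lit 2) (nat_lit 16) (.e true (nat_lit 1) (nat_lit 284) (nat_lit 1) (nat_lit 17) (.e true (nat_lit 1) (nat_lit 232) (nat_lit 2) (nat_lit 16) (.u (nat_lit 2) (.p (nat_lit 3) (nat_lit 1) (.n (nat_lit 9) (nat_lit 1) (.n (nat_lit 10) (nat_lit 1) (.n (nat_lit 11) (nat_lit 2) (.p (nat_lit 14) (nat_lit 1) (.n (nat_lit 15) (nat_lit 1) (.p (nat_lit 16) (nat_lit 1) (.n (nat_lit 17) (nat_lit 1) (.n (nat_lit 18) (nat_lit 1) (.n (nat_lit 20) (nat_lit 1) (.n (nat_lit 21) (nat_lit 1) (.p (nat_lit 22) (nat_lit 1) (.p (nat_lit 24) (nat_lit 1) (.p (nat_lit 25) (nat_lit 1) (.p (nat_lit 27) (nat_lit 1) (.n (nat_lit 28) (nat_lit 1) (.p (nat_lit 32) (nat_lit 1) (.n (nat_lit 34) (nat_lit 1) (.p (nat_lit 39) (nat_lit 1) (.n (nat_lit 46) (nat_lit 1) .z)))))))))))))))))))) .nil))))))) (.nd (.nd .leaf (nat_lit 62483) (nat_lit 1037) (.p (nat_lit 335) (nat_lit 2) (.n (nat_lit 336) (nat_lit 3) (.p (nat_lit 337) (nat_lit 1) (.p (nat_lit 338) (nat_lit 1) (.n (nat_lit 339) (nat_lit 1) (.n (nat_lit 340) (nat_lit 2) (.p (nat_lit 341) (nat_lit 1) (.p (nat_lit 342) (nat_lit 2) (.n (nat_lit 343) (nat_lit 2) (.p (nat_lit 344) (nat_lit 2) (.n (nat_lit 345) (nat_lit 3) (.p (nat_lit 346) (nat_lit 3) (.n (nat_lit 347) (nat_lit 3) (.p (nat_lit 350) (nat_lit 1) (.n (nat_lit 351) (nat_lit 1) (.n (nat_lit 352) (nat_lit 1) (.n (nat_lit 353) (nat_lit 1) (.n (nat_lit 354) (nat_lit 2) (.n (nat_lit 355) (nat_lit 2) (.p (nat_lit 356) (nat_lit 1) (.n (nat_lit 357) (nat_lit 1) (.n (nat_lit 358) (nat_lit 2) (.n (nat_lit 359) (nat_lit 1) (.p (nat_lit 361) (nat_lit 1) (.n (nat_lit 362) (nat_lit 3) (.p (nat_lit 363) (nat_lit 2) (.n (nat_lit 364) (nat_lit 2) (.p (nat_lit 366) (nat_lit 2) (.p (nat_lit 367) (nat_lit 1) (.p (nat_lit 368) (nat_lit 3) (.n (nat_lit 369) (nat_lit 3) (.p (nat_lit 370) (nat_lit 2) (.p (nat_lit 371) (nat_lit 3) (.p (nat_lit 372) (nat_lit 2) (.n (nat_lit 373) (nat_lit 3) (.p (nat_lit 374) (nat_lit 3) (.p (nat_lit 375) (nat_lit 2) (.p (nat_lit 377) (nat_lit 3) (.p (nat_lit 379) (nat_lit 2) (.p (nat_lit 380) (nat_lit 1) (.p (nat_lit 381) (nat_lit 2) (.p (nat_lit 382) (nat_lit 2) (.n (nat_lit 383) (nat_lit 1) .z))))))))))))))))))))))))))))))))))))))))))) (.ct dC2b_c308 (nat_lit 1) (nat_lit 5) (.s false (nat_lit 1) (nat_lit 61) (nat_lit 2) (nat_lit 2) (nat_lit 1) true (nat_lit 12) true (nat_lit 17) false (nat_lit 5) true (nat_lit 16) true (nat_lit 16) (.e false (nat_lit 1) (nat_lit 133) (nat_lit 6) (nat_lit 12) (.e false (nat_lit 1) (nat_lit 253) (nat_lit 1) (nat_lit 17) (.e false (nat_lit 1) (nat_lit 209) (nat_lit 2) (nat_lit 16) (.e true (nat_lit 3) (nat_lit 217) (nat_lit 2) (nat_lit 16) (.e false (nat_lit 1) (nat_lit 230) (nat_lit 2) (nat_lit 16) (.e false (nat_lit 1) (nat_lit 232) (nat_lit 2) (nat_lit 16) (.e true (nat_lit 1) (nat_lit 243) (nat_lit 2) (nat_lit 16) (.e true (nat_lit 1) (nat_lit 249) (nat_lit 2) (nat_lit 16) (.u (nat_lit 2) (.p (nat_lit 1) (nat_lit 2) (.n (nat_lit 2) (nat_lit 2) (.n (nat_lit 3) (nat_lit 1) (.p (nat_lit 4) (nat_lit 1) (.n (nat_lit 5) (nat_lit 2) (.n (nat_lit 6) (nat_lit 1) (.p (nat_lit 7) (nat_lit 1) (.p (nat_lit 8) (nat_lit 1) (.p (nat_lit 10) (nat_lit 1) (.p (nat_lit 11) (nat_lit 1) (.p (nat_lit 12) (nat_lit 1) (.n (nat_lit 14) (nat_lit 1) (.p (nat_lit 17) (nat_lit 1) (.p (nat_lit 18) (nat_lit 2) (.p (nat_lit 19) (nat_lit 2) (.p (nat_lit 23) (nat_lit 1) (.n (nat_lit 25) (nat_lit 1) (.p (nat_lit 26) (nat_lit 1) (.n (nat_lit 28) (nat_lit 1) (.n (nat_lit 29) (nat_lit 1) (.n (nat_lit 31) (nat_lit 1) (.p (nat_lit 32) (nat_lit 1) (.p (nat_lit 34) (nat_lit 2) (.p (nat_lit 35) (nat_lit 1) (.n (nat_lit 36) (nat_lit 1) (.n (nat_lit 37) (nat_lit 1) (.n (nat_lit 39) (nat_lit 2) (.n (nat_lit 42) (nat_lit 1) (.p (nat_lit 45) (nat_lit 1) (.p (nat_lit 48) (nat_lit 1) (.p (nat_lit 55) (nat_lit 1) .z))))))))))))))))))))))))))))))) .nil))))))))))) .leaf) (nat_lit 62484) (nat_lit 1287) (.p (nat_lit 397) (nat_lit 3) (.p (nat_lit 398) (nat_lit 3) (.p (nat_lit 400) (nat_lit 1) (.n (nat_lit 401) (nat_lit 1) (.n (nat_lit 402) (nat_lit 3) (.p (nat_lit 403) (nat_lit 1) (.p (nat_lit 404) (nat_lit 3) (.n (nat_lit 405) (nat_lit 3) (.p (nat_lit 406) (nat_lit 1) (.p (nat_lit 407) (nat_lit 1) (.n (nat_lit 408) (nat_lit 1) (.n (nat_lit 409) (nat_lit 3) (.p (nat_lit 410) (nat_lit 3) (.p (nat_lit 411) (nat_lit 1) (.p (nat_lit 412) (nat_lit 2) (.p (nat_lit 413) (nat_lit 2) (.p (nat_lit 414) (nat_lit 1) (.n (nat_lit 415) (nat_lit 2) (.n (nat_lit 416) (nat_lit 3) (.n (nat_lit 418) (nat_lit 3) (.n (nat_lit 420) (nat_lit 1) (.n (nat_lit 421) (nat_lit 3) (.p (nat_lit 431) (nat_lit 3) (.p (nat_lit 432) (nat_lit 3) (.n (nat_lit 435) (nat_lit 1) .z))))))))))))))))))))))))) (.ct dC2b_c293 (nat_lit 1) (nat_lit 3) (.s false (nat_lit 1) (nat_lit 25) (nat_lit 2) (nat_lit 2) (nat_lit 7) true (nat_lit 3) true (nat_lit 9) true (nat_lit 2) true (nat_lit 14) true (nat_lit 14) (.e false (nat_lit 1) (nat_lit 133) (nat_lit 7) (nat_lit 9) (.e true (nat_lit 1) (nat_lit 284) (nat_lit 2) (nat_lit 14) (.u (nat_lit 2) (.n (nat_lit 35) (nat_lit 1) .z) .nil))))) .leaf)) (nat_lit 63489) (nat_lit 175) (.p (nat_lit 119) (nat_lit 1) .z) .df (.nd (.nd (.nd .leaf (nat_lit 63490) (nat_lit 228) (.p (nat_lit 134) (nat_lit 1) .z) .df .leaf) (nat_lit 63494) (nat_lit 474) (.n (nat_lit 205) (nat_lit 3) (.p (nat_lit 206) (nat_lit 2) (.n (nat_lit 207) (nat_lit 2) (.n (nat_lit 208) (nat_lit 1) (.p (nat_lit 210) (nat_lit 1) (.n (nat_lit 211) (nat_lit 3) (.n (nat_lit 213) (nat_lit 3) (.n (nat_lit 214) (nat_lit 1) (.p (nat_lit 215) (nat_lit 3) (.p (nat_lit 216) (nat_lit 1) (.n (nat_lit 219) (nat_lit 1) (.p (nat_lit 220) (nat_lit 1) (.p (nat_lit 225) (nat_lit 3) (.n (nat_lit 227) (nat_lit 1) (.n (nat_lit 231) (nat_lit 2) (.p (nat_lit 233) (nat_lit 1) (.p (nat_lit 242) (nat_lit 1) (.p (nat_lit 245) (nat_lit 3) (.n (nat_lit 248) (nat_lit 2) (.n (nat_lit 251) (nat_lit 1) .z)))))))))))))))))))) (.ct dC2b_c307 (nat_lit 1) (nat_lit 8) (.s true (nat_lit 1) (nat_lit 11) (nat_lit 2) (nat_lit 1) (nat_lit 6) true (nat_lit 1) true (nat_lit 8) true (nat_lit 4) true (nat_lit 12) true (nat_lit 13) (.s true (nat_lit 1) (nat_lit 11) (nat_lit 2) (nat_lit 6) (nat_lit 1) true (nat_lit 8) true (nat_lit 13) true (nat_lit 4) true (nat_lit 12) true (nat_lit 8) (.s true (nat_lit 1) (nat_lit 18) (nat_lit 1) (nat_lit 3) (nat_lit 2) true (nat_lit 8) true (nat_lit 12) true (nat_lit 1) true (nat_lit 13) true (nat_lit 11) (.s true (nat_lit 1) (nat_lit 18) (nat_lit 2) (nat_lit 1) (nat_lit 3) true (nat_lit 4) true (nat_lit 11) true (nat_lit 1) true (nat_lit 12) true (nat_lit 13) (.s true (nat_lit 1) (nat_lit 29) (nat_lit 1) (nat_lit 2) (nat_lit 2) true (nat_lit 8) true (nat_lit 12) false (nat_lit 1) true (nat_lit 13) true (nat_lit 12) (.e false (nat_lit 1) (nat_lit 106) (nat_lit 2) (nat_lit 12) (.e false (nat_lit 1) (nat_lit 109) (nat_lit 2) (nat_lit 12) (.e true (nat_lit 3) (nat_lit 110) (nat_lit 2) (nat_lit 12) (.e false (nat_lit 3) (nat_lit 112) (nat_lit 2) (nat_lit 12) (.e false (nat_lit 3) (nat_lit 114) (nat_lit 2) (nat_lit 12) (.e false (nat_lit 2) (nat_lit 116) (nat_lit 2) (nat_lit 12) (.e false (nat_lit 2) (nat_lit 117) (nat_lit 2) (nat_lit 12) (.e false (nat_lit 1) (nat_lit 122) (nat_lit 2) (nat_lit 12) dC2b_i41)))))))))))))) .leaf) (nat_lit 63495) (nat_lit 594) (.p (nat_lit 285) (nat_lit 1) .z) .df (.nd (.nd .leaf (nat_lit 63506) (nat_lit 932) (.n (nat_lit 335) (nat_lit 2) (.n (nat_lit 336) (nat_lit 2) (.p (nat_lit 337) (nat_lit 3) (.p (nat_lit 340) (nat_lit 2) (.p (nat_lit 341) (nat_lit 3) (.p (nat_lit 342) (nat_lit 2) (.p (nat_lit 343) (nat_lit 2) (.n (nat_lit 344) (nat_lit 3) (.p (nat_lit 345) (nat_lit 2) (.p (nat_lit 346) (nat_lit 3) (.n (nat_lit 347) (nat_lit 1) (.n (nat_lit 349) (nat_lit 1) (.p (nat_lit 350) (nat_lit 3) (.n (nat_lit 351) (nat_lit 2) (.n (nat_lit 352) (nat_lit 1) (.n (nat_lit 353) (nat_lit 2) (.n (nat_lit 354) (nat_lit 3) (.p (nat_lit 355) (nat_lit 2) (.p (nat_lit 359) (nat_lit 1) (.p (nat_lit 360) (nat_lit 1) (.n (nat_lit 361) (nat_lit 1) (.p (nat_lit 362) (nat_lit 1) (.p (nat_lit 363) (nat_lit 1) (.n (nat_lit 364) (nat_lit 1) (.p (nat_lit 366) (nat_lit 1) (.n (nat_lit 367) (nat_lit 3) (.p (nat_lit 368) (nat_lit 1) (.n (nat_lit 369) (nat_lit 3) (.p (nat_lit 370) (nat_lit 1) (.p (nat_lit 371) (nat_lit 3) (.p (nat_lit 372) (nat_lit 3) (.n (nat_lit 373) (nat_lit 1) (.n (nat_lit 374) (nat_lit 2) (.p (nat_lit 382) (nat_lit 1) (.p (nat_lit 383) (nat_lit 3) (.p (nat_lit 386) (nat_lit 1) .z)))))))))))))))))))))))))))))))))))) (.ct dC2b_c308 (nat_lit 1) (nat_lit 5) (.s false (nat_lit 1) (nat_lit 62) (nat_lit 1) (nat_lit 2) (nat_lit 2) true (nat_lit 12) true (nat_lit 16) false (nat_lit 5) true (nat_lit 17) true (nat_lit 16) (.e false (nat_lit 1) (nat_lit 134) (nat_lit 6) (nat_lit 12) (.e false (nat_lit 1) (nat_lit 218) (nat_lit 2) (nat_lit 16) (.e true (nat_lit 1) (nat_lit 285) (nat_lit 1) (nat_lit 17) (.e true (nat_lit 1) (nat_lit 233) (nat_lit 2) (nat_lit 16) (.u (nat_lit 2) (.p (nat_lit 1) (nat_lit 1) (.n (nat_lit 2) (nat_lit 1) (.n (nat_lit 5) (nat_lit 1) (.n (nat_lit 6) (nat_lit 1) (.p (nat_lit 9) (nat_lit 1) (.n (nat_lit 11) (nat_lit 1) (.p (nat_lit 17) (nat_lit 1) (.p (nat_lit 19) (nat_lit 1) (.n (nat_lit 25) (nat_lit 1) (.p (nat_lit 32) (nat_lit 1) (.n (nat_lit 33) (nat_lit 1) (.p (nat_lit 34) (nat_lit 1) (.n (nat_lit 35) (nat_lit 1) (.p (nat_lit 38) (nat_lit 1) .z)))))))))))))) .nil))))))) .leaf) (nat_lit 63507) (nat_lit 967) (.p (nat_lit 335) (nat_lit 3) (.n (nat_lit 338) (nat_lit 1) (.n (nat_lit 339) (nat_lit 2) (.p (nat_lit 340) (nat_lit 3) (.n (nat_lit 341) (nat_lit 3) (.p (nat_lit 342) (nat_lit 3) (.p (nat_lit 343) (nat_lit 2) (.p (nat_lit 344) (nat_lit 2) (.n (nat_lit 345) (nat_lit 1) (.p (nat_lit 347) (nat_lit 2) (.p (nat_lit 349) (nat_lit 3) (.p (nat_lit 351) (nat_lit 1) (.n (nat_lit 352) (nat_lit 1) (.n (nat_lit 354) (nat_lit 3) (.p (nat_lit 356) (nat_lit 2) (.n (nat_lit 357) (nat_lit 2) (.n (nat_lit 358) (nat_lit 3) (.n (nat_lit 359) (nat_lit 2) (.p (nat_lit 360) (nat_lit 3) (.n (nat_lit 361) (nat_lit 2) (.p (nat_lit 362) (nat_lit 1) (.p (nat_lit 363) (nat_lit 2) (.p (nat_lit 364) (nat_lit 2) (.n (nat_lit 366) (nat_lit 3) (.n (nat_lit 367) (nat_lit 1) (.n (nat_lit 368) (nat_lit 3) (.p (nat_lit 369) (nat_lit 2) (.n (nat_lit 370) (nat_lit 3) (.p (nat_lit 371) (nat_lit 2) (.p (nat_lit 372) (nat_lit 2) (.p (nat_lit 373) (nat_lit 3) (.n (nat_lit 374) (nat_lit 2) (.n (nat_lit 380) (nat_lit 1) (.n (nat_lit 381) (nat_lit 3) (.p (nat_lit 382) (nat_lit 1) (.p (nat_lit 383) (nat_lit 3) (.n (nat_lit 386) (nat_lit 2) .z))))))))))))))))))))))))))))))))))))) (.ct dC2b_c308 (nat_lit 1) (nat_lit 5) dC2b_i42) .leaf))) (nat_lit 63508) (nat_lit 1216) (.n (nat_lit 397) (nat_lit 1) (.p (nat_lit 398) (nat_lit 3) (.p (nat_lit 399) (nat_lit 3) (.n (nat_lit 400) (nat_lit 1) (.n (nat_lit 401) (nat_lit 2) (.p (nat_lit 403) (nat_lit 2) (.n (nat_lit 405) (nat_lit 3) (.p (nat_lit 407) (nat_lit 2) (.p (nat_lit 408) (nat_lit 1) (.p (nat_lit 409) (nat_lit 2) (.p (nat_lit 410) (nat_lit 1) (.n (nat_lit 411) (nat_lit 1) (.n (nat_lit 412) (nat_lit 2) (.n (nat_lit 413) (nat_lit 2) (.n (nat_lit 414) (nat_lit 1) (.p (nat_lit 415) (nat_lit 1) (.p (nat_lit 418) (nat_lit 2) (.n (nat_lit 420) (nat_lit 2) (.n (nat_lit 431) (nat_lit 2) (.n (nat_lit 435) (nat_lit 2) .z)))))))))))))))))))) (.ct dC2b_c293 (nat_lit 1) (nat_lit 3) (.s false (nat_lit 1) (nat_lit 26) (nat_lit 2) (nat_lit 2) (nat_lit 7) true (nat_lit 3) true (nat_lit 9) true (nat_lit 2) true (nat_lit 14) true (nat_lit 14) (.e false (nat_lit 1) (nat_lit 134) (nat_lit 7) (nat_lit 9) (.e true (nat_lit 1) (nat_lit 285) (nat_lit 2) (nat_lit 14) (.u (nat_lit 2) (.n (nat_lit 1) (nat_lit 1) (.n (nat_lit 2) (nat_lit 1) (.p (nat_lit 8) (nat_lit 1) (.n (nat_lit 10) (nat_lit 1) (.n (nat_lit 13) (nat_lit 1) (.p (nat_lit 15) (nat_lit 1) (.p (nat_lit 16) (nat_lit 1) .z))))))) .nil))))) (.nd (.nd (.nd (.nd .leaf (nat_lit 64513) (nat_lit 176) (.p (nat_lit 120) (nat_lit 1) .z) .df .leaf) (nat_lit 64514) (nat_lit 229) (.p (nat_lit 135) (nat_lit 1) .z) .df .leaf) (nat_lit 64518) (nat_lit 461) (.n (nat_lit 205) (nat_lit 2) (.p (nat_lit 206) (nat_lit 3) (.p (nat_lit 207) (nat_lit 3) (.p (nat_lit 208) (nat_lit 1) (.n (nat_lit 209) (nat_lit 2) (.p (nat_lit 210) (nat_lit 1) (.n (nat_lit 211) (nat_lit 2) (.p (nat_lit 212) (nat_lit 2) (.p (nat_lit 213) (nat_lit 1) (.n (nat_lit 214) (nat_lit 3) (.p (nat_lit 215) (nat_lit 2) (.p (nat_lit 216) (nat_lit 2) (.n (nat_lit 218) (nat_lit 2) (.n (nat_lit 219) (nat_lit 2) (.p (nat_lit 221) (nat_lit 3) (.n (nat_lit 222) (nat_lit 2) (.p (nat_lit 225) (nat_lit 1) (.p (nat_lit 226) (nat_lit 2) (.n (nat_lit 227) (nat_lit 1) (.p (nat_lit 229) (nat_lit 3) (.p (nat_lit 230) (nat_lit 3) (.n (nat_lit 234) (nat_lit 1) (.p (nat_lit 244) (nat_lit 1) (.p (nat_lit 250) (nat_lit 1) .z)))))))))))))))))))))))) (.ct dC2b_c307 (nat_lit 1) (nat_lit 8) (.s true (nat_lit 1) (nat_lit 27) (nat_lit 1) (nat_lit 2) (nat_lit 2) true (nat_lit 8) true (nat_lit 12) false (nat_lit 1) true (nat_lit 13) true (nat_lit 12) (.e true (nat_lit 1) (nat_lit 112) (nat_lit 2) (nat_lit 12) (.e false (nat_lit 1) (nat_lit 27) (nat_lit 18) (nat_lit 1) (.e false (nat_lit 1) (nat_lit 155) (nat_lit 1) (nat_lit 13) (.e false (nat_lit 1) (nat_lit 120) (nat_lit 2) (nat_lit 12) .nil)))))) (.nd (.nd .leaf (nat_lit 64519) (nat_lit 595) (.p (nat_lit 286) (nat_lit 1) .z) .df .leaf) (nat_lit 64530) (nat_lit 996) (.n (nat_lit 335) (nat_lit 2) (.p (nat_lit 336) (nat_lit 3) (.n (nat_lit 337) (nat_lit 1) (.p (nat_lit 338) (nat_lit 3) (.n (nat_lit 339) (nat_lit 1) (.p (nat_lit 340) (nat_lit 1) (.p (nat_lit 341) (nat_lit 3) (.n (nat_lit 342) (nat_lit 1) (.p (nat_lit 343) (nat_lit 1) (.p (nat_lit 344) (nat_lit 3) (.n (nat_lit 345) (nat_lit 2) (.p (nat_lit 346) (nat_lit 1) (.n (nat_lit 347) (nat_lit 2) (.p (nat_lit 349) (nat_lit 2) (.n (nat_lit 350) (nat_lit 3) (.n (nat_lit 351) (nat_lit 3) (.n (nat_lit 353) (nat_lit 2) (.p (nat_lit 354) (nat_lit 2) (.n (nat_lit 355) (nat_lit 1) (.p (nat_lit 356) (nat_lit 3) (.n (nat_lit 357) (nat_lit 3) (.p (nat_lit 358) (nat_lit 2) (.n (nat_lit 359) (nat_lit 2) (.n (nat_lit 360) (nat_lit 3) (.n (nat_lit 361) (nat_lit 3) (.n (nat_lit 362) (nat_lit 2) (.p (nat_lit 363) (nat_lit 3) (.n (nat_lit 364) (nat_lit 2) (.p (nat_lit 367) (nat_lit 1) (.p (nat_lit 368) (nat_lit 1) (.p (nat_lit 370) (nat_lit 1) (.p (nat_lit 371) (nat_lit 2) (.p (nat_lit 372) (nat_lit 3) (.n (nat_lit 373) (nat_lit 1) (.n (nat_lit 374) (nat_lit 2) (.n (nat_lit 380) (nat_lit 3) (.n (nat_lit 381) (nat_lit 2) (.p (nat_lit 387) (nat_lit 1) .z)))))))))))))))))))))))))))))))))))))) (.ct dC2b_c308 (nat_lit 1) (nat_lit 5) (.s false (nat_lit 1) (nat_lit 63) (nat_lit 1) (nat_lit 2) (nat_lit 2) true (nat_lit 12) true (nat_lit 16) false (nat_lit 5) true (nat_lit 17) true (nat_lit 16) (.e false (nat_lit 1) (nat_lit 135) (nat_lit 6) (nat_lit 12) (.e false (nat_lit 1) (nat_lit 219) (nat_lit 2) (nat_lit 16) (.e true (nat_lit 1) (nat_lit 286) (nat_lit 1) (nat_lit 17) (.e true (nat_lit 1) (nat_lit 234) (nat_lit 2) (nat_lit 16) (.u (nat_lit 2) (.n (nat_lit 1) (nat_lit 1) (.n (nat_lit 6) (nat_lit 1) (.p (nat_lit 10) (nat_lit 1) (.n (nat_lit 14) (nat_lit 1) (.n (nat_lit 21) (nat_lit 1) (.p (nat_lit 22) (nat_lit 1) (.n (nat_lit 23) (nat_lit 1) (.p (nat_lit 25) (nat_lit 1) (.p (nat_lit 26) (nat_lit 1) (.n (nat_lit 28) (nat_lit 1) (.n (nat_lit 36) (nat_lit 1) .z))))))))))) .nil))))))) .leaf)) (nat_lit 64531) (nat_lit 998) (.p (nat_lit 335) (nat_lit 1) (.p (nat_lit 336) (nat_lit 1) (.p (nat_lit 337) (nat_lit 2) (.n (nat_lit 341) (nat_lit 2) (.p (nat_lit 342) (nat_lit 3) (.n (nat_lit 343) (nat_lit 3) (.n (nat_lit 344) (nat_lit 1) (.p (nat_lit 345) (nat_lit 3) (.p (nat_lit 346) (nat_lit 3) (.n (nat_lit 347) (nat_lit 3) (.p (nat_lit 349) (nat_lit 1) (.n (nat_lit 350) (nat_lit 2) (.p (nat_lit 351) (nat_lit 1) (.n (nat_lit 354) (nat_lit 1) (.n (nat_lit 355) (nat_lit 1) (.p (nat_lit 356) (nat_lit 2) (.n (nat_lit 357) (nat_lit 2) (.p (nat_lit 358) (nat_lit 1) (.n (nat_lit 359) (nat_lit 2) (.p (nat_lit 360) (nat_lit 1) (.p (nat_lit 361) (nat_lit 2) (.p (nat_lit 362) (nat_lit 1) (.p (nat_lit 363) (nat_lit 3) (.n (nat_lit 366) (nat_lit 2) (.p (nat_lit 368) (nat_lit 3) (.p (nat_lit 369) (nat_lit 1) (.p (nat_lit 370) (nat_lit 3) (.p (nat_lit 371) (nat_lit 3) (.n (nat_lit 372) (nat_lit 2) (.n (nat_lit 373) (nat_lit 3) (.p (nat_lit 374) (nat_lit 3) (.n (nat_lit 380) (nat_lit 2) (.p (nat_lit 381) (nat_lit 1) (.n (nat_lit 382) (nat_lit 2) (.p (nat_lit 383) (nat_lit 1) (.n (nat_lit 387) (nat_lit 2) .z)))))))))))))))))))))))))))))))))))) (.ct dC2b_c308 (nat_lit 1) (nat_lit 5) (.s false (nat_lit 1) (nat_lit 63) (nat_lit 2) (nat_lit 2) (nat_lit 1) true (nat_lit 12) true (nat_lit 17) false (nat_lit 5) true (nat_lit 16) true (nat_lit 16) (.e false (nat_lit 1) (nat_lit 135) (nat_lit 6) (nat_lit 12) (.e false (nat_lit 1) (nat_lit 255) (nat_lit 1) (nat_lit 17) dC2b_i43)))) (.nd (.nd (.nd .leaf (nat_lit 64532) (nat_lit 1249) (.n (nat_lit 397) (nat_lit 2) (.p (nat_lit 398) (nat_lit 1) (.p (nat_lit 400) (nat_lit 1) (.n (nat_lit 401) (nat_lit 1) (.n (nat_lit 402) (nat_lit 1) (.n (nat_lit 403) (nat_lit 3) (.p (nat_lit 404) (nat_lit 1) (.n (nat_lit 405) (nat_lit 3) (.p (nat_lit 406) (nat_lit 1) (.p (nat_lit 407) (nat_lit 1) (.p (nat_lit 410) (nat_lit 2) (.n (nat_lit 412) (nat_lit 3) (.n (nat_lit 413) (nat_lit 3) (.n (nat_lit 416) (nat_lit 1) (.p (nat_lit 418) (nat_lit 2) (.p (nat_lit 420) (nat_lit 1) (.p (nat_lit 421) (nat_lit 2) (.n (nat_lit 431) (nat_lit 2) (.n (nat_lit 432) (nat_lit 3) (.p (nat_lit 435) (nat_lit 1) .z)))))))))))))))))))) (.ct dC2b_c293 (nat_lit 1) (nat_lit 3) (.s false (nat_lit 1) (nat_lit 27) (nat_lit 2) (nat_lit 2) (nat_lit 7) true (nat_lit 3) true (nat_lit 9) true (nat_lit 2) true (nat_lit 14) true (nat_lit 14) (.e false (nat_lit 1) (nat_lit 135) (nat_lit 7) (nat_lit 9) (.e true (nat_lit 1) (nat_lit 286) (nat_lit 2) (nat_lit 14) (.u (nat_lit 2) (.p (nat_lit 6) (nat_lit 1) (.p (nat_lit 8) (nat_lit 1) (.n (nat_lit 21) (nat_lit 1) (.n (nat_lit 24) (nat_lit 1) (.p (nat_lit 34) (nat_lit 1) .z))))) .nil))))) .leaf) (nat_lit 65537) (nat_lit 177) (.p (nat_lit 121) (nat_lit 1) .z) .df .leaf) (nat_lit 65538) (nat_lit 230) (.p (nat_lit 136) (nat_lit 1) .z) .df (.nd .leaf (nat_lit 65542) (nat_lit 466) (.p (nat_lit 205) (nat_lit 1) (.p (nat_lit 207) (nat_lit 3) (.n (nat_lit 208) (nat_lit 3) (.p (nat_lit 209) (nat_lit 1) (.n (nat_lit 210) (nat_lit 1) (.n (nat_lit 211) (nat_lit 1) (.n (nat_lit 212) (nat_lit 1) (.n (nat_lit 213) (nat_lit 3) (.p (nat_lit 214) (nat_lit 2) (.p (nat_lit 215) (nat_lit 2) (.p (nat_lit 216) (nat_lit 1) (.n (nat_lit 217) (nat_lit 3) (.n (nat_lit 218) (nat_lit 2) (.n (nat_lit 219) (nat_lit 2) (.p (nat_lit 220) (nat_lit 3) (.n (nat_lit 227) (nat_lit 1) (.p (nat_lit 228) (nat_lit 2) (.n (nat_lit 230) (nat_lit 1) (.p (nat_lit 231) (nat_lit 3) (.n (nat_lit 232) (nat_lit 2) (.p (nat_lit 233) (nat_lit 1) (.p (nat_lit 234) (nat_lit 3) (.n (nat_lit 242) (nat_lit 3) (.n (nat_lit 244) (nat_lit 1) (.p (nat_lit 245) (nat_lit 3) (.n (nat_lit 246) (nat_lit 1) (.n (nat_lit 247) (nat_lit 1) (.n (nat_lit 248) (nat_lit 1) (.p (nat_lit 249) (nat_lit 1) (.n (nat_lit 250) (nat_lit 2) (.n (nat_lit 251) (nat_lit 1) .z))))))))))))))))))))))))))))))) (.ct dC2b_c307 (nat_lit 1) (nat_lit 8) (.s true (nat_lit 1) (nat_lit 6) (nat_lit 1) (nat_lit 5) (nat_lit 6) true (nat_lit 3) true (nat_lit 8) true (nat_lit 8) true (nat_lit 13) true (nat_lit 9) (.s true (nat_lit 3) (nat_lit 6) (nat_lit 2) (nat_lit 3) (nat_lit 6) true (nat_lit 1) true (nat_lit 8) true (nat_lit 8) true (nat_lit 12) true (nat_lit 11) (.s true (nat_lit 1) (nat_lit 7) (nat_lit 3) (nat_lit 4) (nat_lit 2) true (nat_lit 4) true (nat_lit 12) true (nat_lit 7) true (nat_lit 11) true (nat_lit 10) (.s false (nat_lit 1) (nat_lit 9) (nat_lit 1) (nat_lit 2) (nat_lit 7) true (nat_lit 1) true (nat_lit 7) true (nat_lit 6) true (nat_lit 13) true (nat_lit 12) (.s true (nat_lit 2) (nat_lit 9) (nat_lit 2) (nat_lit 6) (nat_lit 2) true (nat_lit 7) true (nat_lit 12) true (nat_lit 6) true (nat_lit 12) true (nat_lit 8) (.s false (nat_lit 1) (nat_lit 9) (nat_lit 7) (nat_lit 1) (nat_lit 2) true (nat_lit 0) true (nat_lit 12) true (nat_lit 6) true (nat_lit 7) true (nat_lit 13) (.s true (nat_lit 1) (nat_lit 10) (nat_lit 0) (nat_lit 7) (nat_lit 2) true (nat_lit 9) true (nat_lit 12) true (nat_lit 5) true (nat_lit 14) true (nat_lit 7) (.s false (nat_lit 2) (nat_lit 10) (nat_lit 2) (nat_lit 5) (nat_lit 2) true (nat_lit 7) true (nat_lit 12) true (nat_lit 5) true (nat_lit 12) true (nat_lit 9) dC2b_i47))))))))) .leaf)))) (nat_lit 65543) (nat_lit 623) (.p (nat_lit 252) (nat_lit 1) (.p (nat_lit 253) (nat_lit 2) (.p (nat_lit 254) (nat_lit 2) (.n (nat_lit 255) (nat_lit 1) (.n (nat_lit 256) (nat_lit 2) (.n (nat_lit 258) (nat_lit 3) (.n (nat_lit 259) (nat_lit 2) (.p (nat_lit 260) (nat_lit 2) (.n (nat_lit 261) (nat_lit 3) (.n (nat_lit 262) (nat_lit 2) (.p (nat_lit 263) (nat_lit 2) (.n (nat_lit 264) (nat_lit 3) (.p (nat_lit 265) (nat_lit 3) (.p (nat_lit 267) (nat_lit 3) (.p (nat_lit 269) (nat_lit 3) (.p (nat_lit 270) (nat_lit 2) (.n (nat_lit 271) (nat_lit 2) (.p (nat_lit 272) (nat_lit 2) (.n (nat_lit 273) (nat_lit 2) (.p (nat_lit 274) (nat_lit 2) (.p (nat_lit 276) (nat_lit 2) (.p (nat_lit 277) (nat_lit 3) (.p (nat_lit 283) (nat_lit 3) (.p (nat_lit 284) (nat_lit 1) (.n (nat_lit 285) (nat_lit 2) (.n (nat_lit 286) (nat_lit 1) .z)))))))))))))))))))))))))) (.ct dC2b_c292 (nat_lit 1) (nat_lit 6) (.s false (nat_lit 1) (nat_lit 7) (nat_lit 0) (nat_lit 6) (nat_lit 6) true (nat_lit 4) true (nat_lit 7) true (nat_lit 6) true (nat_lit 13) true (nat_lit 7) (.s false (nat_lit 3) (nat_lit 7) (nat_lit 0) (nat_lit 7) (nat_lit 4) true (nat_lit 5) true (nat_lit 9) true (nat_lit 6) true (nat_lit 13) true (nat_lit 6) (.s true (nat_lit 3) (nat_lit 7) (nat_lit 2) (nat_lit 6) (nat_lit 3) true (nat_lit 4) true (nat_lit 10) true (nat_lit 6) true (nat_lit 11) true (nat_lit 7) (.s true (nat_lit 3) (nat_lit 7) (nat_lit 4) (nat_lit 5) (nat_lit 2) true (nat_lit 3) true (nat_lit 11) true (nat_lit 6) true (nat_lit 9) true (nat_lit 8) (.s true (nat_lit 1) (nat_lit 9) (nat_lit 2) (nat_lit 7) (nat_lit 2) true (nat_lit 6) true (nat_lit 11) true (nat_lit 5) true (nat_lit 11) true (nat_lit 6) (.s false (nat_lit 1) (nat_lit 9) (nat_lit 7) (nat_lit 2) (nat_lit 2) true (nat_lit 0) true (nat_lit 11) true (nat_lit 5) true (nat_lit 6) true (nat_lit 11) (.s false (nat_lit 3) (nat_lit 13) (nat_lit 1) (nat_lit 7) (nat_lit 2) true (nat_lit 7) true (nat_lit 11) true (nat_lit 4) true (nat_lit 12) true (nat_lit 6) (.s true (nat_lit 1) (nat_lit 13) (nat_lit 2) (nat_lit 2) (nat_lit 6) true (nat_lit 1) true (nat_lit 7) true (nat_lit 4) true (nat_lit 11) true (nat_lit 11) (.s false (nat_lit 3) (nat_lit 13) (nat_lit 2) (nat_lit 6) (nat_lit 2) true (nat_lit 6) true (nat_lit 11) true (nat_lit 4) true (nat_lit 11) true (nat_lit 7) (.s false (nat_lit 3) (nat_lit 12) (nat_lit 2) (nat_lit 7) (nat_lit 1) true (nat_lit 7) true (nat_lit 12) true (nat_lit 4) true (nat_lit 11) true (nat_lit 6) (.s false (nat_lit 3) (nat_lit 13) (nat_lit 6) (nat_lit 2) (nat_lit 2) true (nat_lit 1) true (nat_lit 11) true (nat_lit 4) true (nat_lit 7) true (nat_lit 11) (.s true (nat_lit 2) (nat_lit 14) (nat_lit 0) (nat_lit 2) (nat_lit 7) true (nat_lit 2) true (nat_lit 6) true (nat_lit 3) true (nat_lit 13) true (nat_lit 11) (.s false (nat_lit 1) (nat_lit 15) (nat_lit 0) (nat_lit 2) (nat_lit 7) true (nat_lit 2) true (nat_lit 6) true (nat_lit 3) true (nat_lit 13) true (nat_lit 11) (.s true (nat_lit 2) (nat_lit 15) (nat_lit 2) (nat_lit 0) (nat_lit 7) true (nat_lit 0) true (nat_lit 6) true (nat_lit 3) true (nat_lit 11) true (nat_lit 13) (.s true (nat_lit 2) (nat_lit 14) (nat_lit 2) (nat_lit 2) (nat_lit 5) true (nat_lit 2) true (nat_lit 8) true (nat_lit 3) true (nat_lit 11) true (nat_lit 11) (.s true (nat_lit 3) (nat_lit 15) (nat_lit 2) (nat_lit 2) (nat_lit 5) true (nat_lit 2) true (nat_lit 8) true (nat_lit 3) true (nat_lit 11) true (nat_lit 11) (.s true (nat_lit 1) (nat_lit 14) (nat_lit 2) (nat_lit 5) (nat_lit 2) true (nat_lit 6) true (nat_lit 11) true (nat_lit 3) true (nat_lit 11) true (nat_lit 8) (.s false (nat_lit 1) (nat_lit 15) (nat_lit 2) (nat_lit 5) (nat_lit 2) true (nat_lit 6) true (nat_lit 11) true (nat_lit 3) true (nat_lit 11) true (nat_lit 8) (.s true (nat_lit 1) (nat_lit 14) (nat_lit 2) (nat_lit 7) (nat_lit 0) true (nat_lit 8) true (nat_lit 13) true (nat_lit 3) true (nat_lit 11) true (nat_lit 6) (.s true (nat_lit 3) (nat_lit 14) (nat_lit 5) (nat_lit 2) (nat_lit 2) true (nat_lit 2) true (nat_lit 11) true (nat_lit 3) true (nat_lit 8) true (nat_lit 11) (.s false (nat_lit 1) (nat_lit 17) (nat_lit 2) (nat_lit 4) (nat_lit 2) true (nat_lit 6) true (nat_lit 11) true (nat_lit 2) true (nat_lit 11) true (nat_lit 9) (.s true (nat_lit 3) (nat_lit 16) (nat_lit 4) (nat_lit 2) (nat_lit 2) true (nat_lit 3) true (nat_lit 11) true (nat_lit 2) true (nat_lit 9) true (nat_lit 11) (.s false (nat_lit 3) (nat_lit 18) (nat_lit 0) (nat_lit 7) (nat_lit 1) true (nat_lit 10) true (nat_lit 12) true (nat_lit 1) true (nat_lit 13) true (nat_lit 6) dC2b_i50)))))))))))))))))))))))) (.nd (.nd (.nd (.nd (.nd .leaf (nat_lit 65554) (nat_lit 1078) (.p (nat_lit 335) (nat_lit 2) (.n (nat_lit 336) (nat_lit 1) (.n (nat_lit 337) (nat_lit 2) (.n (nat_lit 338) (nat_lit 3) (.p (nat_lit 339) (nat_lit 1) (.n (nat_lit 340) (nat_lit 1) (.n (nat_lit 341) (nat_lit 1) (.n (nat_lit 343) (nat_lit 2) (.n (nat_lit 344) (nat_lit 1) (.n (nat_lit 345) (nat_lit 1) (.n (nat_lit 346) (nat_lit 2) (.p (nat_lit 350) (nat_lit 2) (.p (nat_lit 351) (nat_lit 1) (.p (nat_lit 353) (nat_lit 3) (.n (nat_lit 354) (nat_lit 3) (.n (nat_lit 355) (nat_lit 3) (.n (nat_lit 356) (nat_lit 1) (.p (nat_lit 357) (nat_lit 1) (.p (nat_lit 358) (nat_lit 2) (.p (nat_lit 360) (nat_lit 3) (.n (nat_lit 361) (nat_lit 2) (.p (nat_lit 362) (nat_lit 2) (.p (nat_lit 363) (nat_lit 1) (.n (nat_lit 364) (nat_lit 1) (.n (nat_lit 366) (nat_lit 3) (.n (nat_lit 367) (nat_lit 3) (.n (nat_lit 368) (nat_lit 1) (.n (nat_lit 369) (nat_lit 1) (.n (nat_lit 370) (nat_lit 2) (.n (nat_lit 371) (nat_lit 1) (.p (nat_lit 372) (nat_lit 3) (.p (nat_lit 373) (nat_lit 1) (.p (nat_lit 374) (nat_lit 1) (.p (nat_lit 382) (nat_lit 1) (.p (nat_lit 383) (nat_lit 3) (.p (nat_lit 386) (nat_lit 1) (.p (nat_lit 387) (nat_lit 1) .z))))))))))))))))))))))))))))))))))))) (.ct dC2b_c308 (nat_lit 1) (nat_lit 5) (.s false (nat_lit 1) (nat_lit 64) (nat_lit 2) (nat_lit 1) (nat_lit 2) true (nat_lit 11) true (nat_lit 16) false (nat_lit 5) true (nat_lit 16) true (nat_lit 17) (.e false (nat_lit 1) (nat_lit 121) (nat_lit 7) (nat_lit 11) (.e false (nat_lit 3) (nat_lit 206) (nat_lit 2) (nat_lit 16) (.e false (nat_lit 3) (nat_lit 207) (nat_lit 2) (nat_lit 16) (.e true (nat_lit 3) (nat_lit 209) (nat_lit 2) (nat_lit 16) (.e false (nat_lit 2) (nat_lit 211) (nat_lit 2) (nat_lit 16) (.e true (nat_lit 2) (nat_lit 212) (nat_lit 2) (nat_lit 16) (.e false (nat_lit 2) (nat_lit 213) (nat_lit 2) (nat_lit 16) (.e false (nat_lit 1) (nat_lit 214) (nat_lit 2) (nat_lit 16) dC2b_i51)))))))))) .leaf) (nat_lit 65555) (nat_lit 1080) (.n (nat_lit 335) (nat_lit 3) (.p (nat_lit 336) (nat_lit 3) (.n (nat_lit 337) (nat_lit 1) (.n (nat_lit 338) (nat_lit 3) (.p (nat_lit 339) (nat_lit 1) (.p (nat_lit 340) (nat_lit 2) (.p (nat_lit 341) (nat_lit 3) (.p (nat_lit 342) (nat_lit 2) (.p (nat_lit 343) (nat_lit 2) (.p (nat_lit 344) (nat_lit 2) (.n (nat_lit 345) (nat_lit 1) (.p (nat_lit 346) (nat_lit 2) (.n (nat_lit 347) (nat_lit 3) (.p (nat_lit 349) (nat_lit 2) (.p (nat_lit 351) (nat_lit 2) (.p (nat_lit 352) (nat_lit 3) (.n (nat_lit 353) (nat_lit 3) (.p (nat_lit 354) (nat_lit 1) (.n (nat_lit 355) (nat_lit 2) (.p (nat_lit 356) (nat_lit 2) (.n (nat_lit 357) (nat_lit 2) (.n (nat_lit 358) (nat_lit 3) (.n (nat_lit 359) (nat_lit 1) (.n (nat_lit 360) (nat_lit 2) (.n (nat_lit 361) (nat_lit 2) (.n (nat_lit 362) (nat_lit 1) (.n (nat_lit 363) (nat_lit 2) (.n (nat_lit 364) (nat_lit 2) (.n (nat_lit 366) (nat_lit 3) (.p (nat_lit 367) (nat_lit 1) (.n (nat_lit 368) (nat_lit 3) (.n (nat_lit 369) (nat_lit 2) (.p (nat_lit 370) (nat_lit 3) (.n (nat_lit 371) (nat_lit 1) (.n (nat_lit 372) (nat_lit 3) (.p (nat_lit 373) (nat_lit 3) (.p (nat_lit 374) (nat_lit 3) (.p (nat_lit 380) (nat_lit 1) (.p (nat_lit 381) (nat_lit 3) (.n (nat_lit 386) (nat_lit 2) (.n (nat_lit 387) (nat_lit 2) .z))))))))))))))))))))))))))))))))))))))))) (.ct dC2b_c308 (nat_lit 1) (nat_lit 5) (.s false (nat_lit 1) (nat_lit 64) (nat_lit 2) (nat_lit 2) (nat_lit 1) true (nat_lit 12) true (nat_lit 17) false (nat_lit 5) true (nat_lit 16) true (nat_lit 16) (.e false (nat_lit 1) (nat_lit 136) (nat_lit 6) (nat_lit 12) (.e false (nat_lit 1) (nat_lit 256) (nat_lit 1) (nat_lit 17) (.e true (nat_lit 1) (nat_lit 205) (nat_lit 2) (nat_lit 16) (.e true (nat_lit 3) (nat_lit 207) (nat_lit 2) (nat_lit 16) (.e false (nat_lit 3) (nat_lit 208) (nat_lit 2) (nat_lit 16) (.e true (nat_lit 1) (nat_lit 209) (nat_lit 2) (nat_lit 16) (.e false (nat_lit 1) (nat_lit 210) (nat_lit 2) (nat_lit 16) (.e false (nat_lit 1) (nat_lit 211) (nat_lit 2) (nat_lit 16) (.e false (nat_lit 1) (nat_lit 212) (nat_lit 2) (nat_lit 16) dC2b_i52))))))))))) .leaf) (nat_lit 65556) (nat_lit 1258) (.p (nat_lit 397) (nat_lit 3) (.p (nat_lit 398) (nat_lit 2) (.p (nat_lit 400) (nat_lit 1) (.p (nat_lit 401) (nat_lit 1) (.n (nat_lit 402) (nat_lit 2) (.p (nat_lit 403) (nat_lit 3) (.p (nat_lit 404) (nat_lit 3) (.p (nat_lit 405) (nat_lit 1) (.n (nat_lit 406) (nat_lit 3) (.n (nat_lit 407) (nat_lit 1) (.n (nat_lit 408) (nat_lit 2) (.n (nat_lit 409) (nat_lit 2) (.p (nat_lit 410) (nat_lit 3) (.n (nat_lit 411) (nat_lit 1) (.n (nat_lit 412) (nat_lit 2) (.n (nat_lit 413) (nat_lit 2) (.p (nat_lit 414) (nat_lit 1) (.p (nat_lit 415) (nat_lit 3) (.n (nat_lit 416) (nat_lit 2) (.n (nat_lit 418) (nat_lit 2) (.p (nat_lit 420) (nat_lit 1) (.p (nat_lit 431) (nat_lit 1) (.p (nat_lit 432) (nat_lit 2) (.n (nat_lit 435) (nat_lit 1) .z)))))))))))))))))))))))) (.ct dC2b_c293 (nat_lit 1) (nat_lit 3) (.s false (nat_lit 1) (nat_lit 28) (nat_lit 2) (nat_lit 2) (nat_lit 7) true (nat_lit 3) true (nat_lit 9) true (nat_lit 2) true (nat_lit 14) true (nat_lit 14) (.e false (nat_lit 1) (nat_lit 136) (nat_lit 7) (nat_lit 9) (.e true (nat_lit 1) (nat_lit 252) (nat_lit 2) (nat_lit 14) (.e true (nat_lit 2) (nat_lit 253) (nat_lit 2) (nat_lit 14) dC2b_i53))))) (.nd (.nd .leaf (nat_lit 66561) (nat_lit 178) (.p (nat_lit 122) (nat_lit 1) .z) .df .leaf) (nat_lit 66562) (nat_lit 231) (.p (nat_lit 137) (nat_lit 1) .z) .df .leaf)) (nat_lit 66566) (nat_lit 492) (.n (nat_lit 205) (nat_lit 1) (.p (nat_lit 206) (nat_lit 3) (.p (nat_lit 207) (nat_lit 3) (.p (nat_lit 208) (nat_lit 1) (.p (nat_lit 210) (nat_lit 1) (.n (nat_lit 211) (nat_lit 1) (.p (nat_lit 212) (nat_lit 2) (.n (nat_lit 214) (nat_lit 3) (.p (nat_lit 215) (nat_lit 2) (.p (nat_lit 216) (nat_lit 2) (.n (nat_lit 217) (nat_lit 3) (.n (nat_lit 218) (nat_lit 3) (.n (nat_lit 219) (nat_lit 3) (.n (nat_lit 221) (nat_lit 3) (.n (nat_lit 222) (nat_lit 3) (.n (nat_lit 225) (nat_lit 3) (.p (nat_lit 226) (nat_lit 3) (.n (nat_lit 227) (nat_lit 2) (.n (nat_lit 228) (nat_lit 1) (.p (nat_lit 229) (nat_lit 1) (.p (nat_lit 230) (nat_lit 3) (.p (nat_lit 231) (nat_lit 1) (.p (nat_lit 232) (nat_lit 1) (.n (nat_lit 234) (nat_lit 1) (.n (nat_lit 243) (nat_lit 1) (.p (nat_lit 244) (nat_lit 1) (.p (nat_lit 246) (nat_lit 1) (.p (nat_lit 247) (nat_lit 1) (.n (nat_lit 248) (nat_lit 1) (.n (nat_lit 249) (nat_lit 1) (.p (nat_lit 250) (nat_lit 1) (.n (nat_lit 251) (nat_lit 3) .z)))))))))))))))))))))))))))))))) (.ct dC2b_c307 (nat_lit 1) (nat_lit 8) (.s true (nat_lit 1) (nat_lit 29) (nat_lit 1) (nat_lit 2) (nat_lit 2) true (nat_lit 8) true (nat_lit 12) false (nat_lit 1) true (nat_lit 13) true (nat_lit 12) (.e true (nat_lit 1) (nat_lit 114) (nat_lit 2) (nat_lit 12) (.e false (nat_lit 1) (nat_lit 29) (nat_lit 18) (nat_lit 1) (.e false (nat_lit 1) (nat_lit 132) (nat_lit 1) (nat_lit 13) (.e false (nat_lit 1) (nat_lit 133) (nat_lit 1) (nat_lit 13) (.e true (nat_lit 1) (nat_lit 134) (nat_lit 1) (nat_lit 13) (.e true (nat_lit 1) (nat_lit 135) (nat_lit 1) (nat_lit 13) (.e false (nat_lit 1) (nat_lit 137) (nat_lit 1) (nat_lit 13) (.e false (nat_lit 1) (nat_lit 138) (nat_lit 1) (nat_lit 13) (.e false (nat_lit 1) (nat_lit 145) (nat_lit 1) (nat_lit 13) (.e false (nat_lit 1) (nat_lit 149) (nat_lit 1) (nat_lit 13) (.e true (nat_lit 1) (nat_lit 152) (nat_lit 1) (nat_lit 13) (.e true (nat_lit 1) (nat_lit 153) (nat_lit 1) (nat_lit 13) (.e true (nat_lit 1) (nat_lit 154) (nat_lit 1) (nat_lit 13) (.e false (nat_lit 1) (nat_lit 155) (nat_lit 1) (nat_lit 13) (.e false (nat_lit 1) (nat_lit 157) (nat_lit 1) (nat_lit 13) (.e false (nat_lit 1) (nat_lit 122) (nat_lit 2) (nat_lit 12) (.u (nat_lit 2) (.p (nat_lit 0) (nat_lit 1) (.p (nat_lit 13) (nat_lit 1) (.p (nat_lit 14) (nat_lit 1) (.p (nat_lit 17) (nat_lit 1) (.n (nat_lit 21) (nat_lit 1) (.n (nat_lit 24) (nat_lit 1) (.n (nat_lit 25) (nat_lit 1) (.n (nat_lit 40) (nat_lit 1) (.p (nat_lit 43) (nat_lit 1) (.p (nat_lit 46) (nat_lit 1) .z)))))))))) .nil))))))))))))))))))) (.nd (.nd (.nd .leaf (nat_lit 66567) (nat_lit 617) (.n (nat_lit 252) (nat_lit 3) (.n (nat_lit 254) (nat_lit 3) (.n (nat_lit 255) (nat_lit 1) (.n (nat_lit 256) (nat_lit 2) (.n (nat_lit 257) (nat_lit 3) (.p (nat_lit 258) (nat_lit 1) (.n (nat_lit 259) (nat_lit 2) (.p (nat_lit 260) (nat_lit 2) (.n (nat_lit 261) (nat_lit 1) (.n (nat_lit 262) (nat_lit 2) (.n (nat_lit 265) (nat_lit 1) (.p (nat_lit 266) (nat_lit 3) (.n (nat_lit 267) (nat_lit 2) (.n (nat_lit 269) (nat_lit 1) (.p (nat_lit 270) (nat_lit 1) (.p (nat_lit 271) (nat_lit 2) (.n (nat_lit 272) (nat_lit 3) (.p (nat_lit 273) (nat_lit 3) (.n (nat_lit 274) (nat_lit 3) (.p (nat_lit 275) (nat_lit 3) (.n (nat_lit 276) (nat_lit 2) (.n (nat_lit 277) (nat_lit 3) (.n (nat_lit 283) (nat_lit 3) (.n (nat_lit 284) (nat_lit 1) (.p (nat_lit 285) (nat_lit 2) (.p (nat_lit 286) (nat_lit 1) .z)))))))))))))))))))))))))) (.ct dC2b_c292 (nat_lit 1) (nat_lit 6) (.s true (nat_lit 2) (nat_lit 6) (nat_lit 2) (nat_lit 5) (nat_lit 6) true (nat_lit 1) true (nat_lit 7) true (nat_lit 7) true (nat_lit 11) true (nat_lit 8) (.s false (nat_lit 2) (nat_lit 7) (nat_lit 0) (nat_lit 6) (nat_lit 6) true (nat_lit 4) true (nat_lit 7) true (nat_lit 6) true (nat_lit 13) true (nat_lit 7) (.s true (nat_lit 1) (nat_lit 7) (nat_lit 2) (nat_lit 5) (nat_lit 4) true (nat_lit 3) true (nat_lit 9) true (nat_lit 6) true (nat_lit 11) true (nat_lit 8) (.s false (nat_lit 3) (nat_lit 7) (nat_lit 3) (nat_lit 6) (nat_lit 2) true (nat_lit 4) true (nat_lit 11) true (nat_lit 6) true (nat_lit 10) true (nat_lit 7) (.s false (nat_lit 3) (nat_lit 7) (nat_lit 5) (nat_lit 4) (nat_lit 2) true (nat_lit 2) true (nat_lit 11) true (nat_lit 6) true (nat_lit 8) true (nat_lit 9) (.s true (nat_lit 3) (nat_lit 9) (nat_lit 2) (nat_lit 7) (nat_lit 2) true (nat_lit 6) true (nat_lit 11) true (nat_lit 5) true (nat_lit 11) true (nat_lit 6) (.s true (nat_lit 2) (nat_lit 13) (nat_lit 2) (nat_lit 2) (nat_lit 6) true (nat_lit 1) true (nat_lit 7) true (nat_lit 4) true (nat_lit 11) true (nat_lit 11) (.s false (nat_lit 3) (nat_lit 12) (nat_lit 2) (nat_lit 7) (nat_lit 1) true (nat_lit 7) true (nat_lit 12) true (nat_lit 4) true (nat_lit 11) true (nat_lit 6) (.s true (nat_lit 1) (nat_lit 13) (nat_lit 2) (nat_lit 7) (nat_lit 1) true (nat_lit 7) true (nat_lit 12) true (nat_lit 4) true (nat_lit 11) true (nat_lit 6) (.s true (nat_lit 2) (nat_lit 12) (nat_lit 7) (nat_lit 2) (nat_lit 1) true (nat_lit 1) true (nat_lit 12) true (nat_lit 4) true (nat_lit 6) true (nat_lit 11) (.s true (nat_lit 1) (nat_lit 13) (nat_lit 7) (nat_lit 2) (nat_lit 1) true (nat_lit 1) true (nat_lit 12) true (nat_lit 4) true (nat_lit 6) true (nat_lit 11) (.s false (nat_lit 2) (nat_lit 14) (nat_lit 0) (nat_lit 2) (nat_lit 7) true (nat_lit 2) true (nat_lit 6) true (nat_lit 3) true (nat_lit 13) true (nat_lit 11) (.s false (nat_lit 2) (nat_lit 15) (nat_lit 0) (nat_lit 2) (nat_lit 7) true (nat_lit 2) true (nat_lit 6) true (nat_lit 3) true (nat_lit 13) true (nat_lit 11) (.s true (nat_lit 1) (nat_lit 15) (nat_lit 2) (nat_lit 0) (nat_lit 7) true (nat_lit 0) true (nat_lit 6) true (nat_lit 3) true (nat_lit 11) true (nat_lit 13) (.s true (nat_lit 1) (nat_lit 14) (nat_lit 2) (nat_lit 2) (nat_lit 5) true (nat_lit 2) true (nat_lit 8) true (nat_lit 3) true (nat_lit 11) true (nat_lit 11) (.s true (nat_lit 3) (nat_lit 15) (nat_lit 2) (nat_lit 2) (nat_lit 5) true (nat_lit 2) true (nat_lit 8) true (nat_lit 3) true (nat_lit 11) true (nat_lit 11) (.s false (nat_lit 2) (nat_lit 15) (nat_lit 2) (nat_lit 5) (nat_lit 2) true (nat_lit 6) true (nat_lit 11) true (nat_lit 3) true (nat_lit 11) true (nat_lit 8) dC2b_i56)))))))))))))))))) .leaf) (nat_lit 66578) (nat_lit 975) (.n (nat_lit 335) (nat_lit 3) (.p (nat_lit 336) (nat_lit 3) (.n (nat_lit 337) (nat_lit 1) (.p (nat_lit 338) (nat_lit 2) (.n (nat_lit 339) (nat_lit 2) (.p (nat_lit 340) (nat_lit 2) (.p (nat_lit 341) (nat_lit 2) (.n (nat_lit 343) (nat_lit 3) (.p (nat_lit 344) (nat_lit 2) (.n (nat_lit 345) (nat_lit 1) (.n (nat_lit 346) (nat_lit 3) (.p (nat_lit 347) (nat_lit 3) (.p (nat_lit 349) (nat_lit 1) (.n (nat_lit 350) (nat_lit 1) (.p (nat_lit 351) (nat_lit 1) (.n (nat_lit 353) (nat_lit 1) (.n (nat_lit 354) (nat_lit 2) (.n (nat_lit 355) (nat_lit 2) (.p (nat_lit 356) (nat_lit 3) (.n (nat_lit 357) (nat_lit 3) (.p (nat_lit 358) (nat_lit 3) (.p (nat_lit 359) (nat_lit 3) (.p (nat_lit 360) (nat_lit 3) (.n (nat_lit 361) (nat_lit 2) (.n (nat_lit 363) (nat_lit 2) (.n (nat_lit 368) (nat_lit 1) (.n (nat_lit 369) (nat_lit 1) (.p (nat_lit 371) (nat_lit 1) (.p (nat_lit 372) (nat_lit 1) (.p (nat_lit 373) (nat_lit 1) (.n (nat_lit 374) (nat_lit 1) (.n (nat_lit 375) (nat_lit 3) (.n (nat_lit 377) (nat_lit 1) (.n (nat_lit 379) (nat_lit 3) (.n (nat_lit 380) (nat_lit 2) (.n (nat_lit 381) (nat_lit 1) (.p (nat_lit 387) (nat_lit 1) .z))))))))))))))))))))))))))))))))))))) (.ct dC2b_c308 (nat_lit 1) (nat_lit 5) (.s false (nat_lit 1) (nat_lit 65) (nat_lit 2) (nat_lit 1) (nat_lit 2) true (nat_lit 11) true (nat_lit 16) false (nat_lit 5) true (nat_lit 16) true (nat_lit 17) (.e false (nat_lit 1) (nat_lit 122) (nat_lit 7) (nat_lit 11) (.e true (nat_lit 3) (nat_lit 205) (nat_lit 2) (nat_lit 16) (.e true (nat_lit 2) (nat_lit 208) (nat_lit 2) (nat_lit 16) (.e true (nat_lit 1) (nat_lit 209) (nat_lit 2) (nat_lit 16) (.e true (nat_lit 1) (nat_lit 211) (nat_lit 2) (nat_lit 16) (.e false (nat_lit 2) (nat_lit 213) (nat_lit 2) (nat_lit 16) dC2b_i57)))))))) .leaf) (nat_lit 66579) (nat_lit 979) (.p (nat_lit 335) (nat_lit 2) (.p (nat_lit 338) (nat_lit 3) (.n (nat_lit 339) (nat_lit 3) (.n (nat_lit 340) (nat_lit 3) (.n (nat_lit 341) (nat_lit 1) (.n (nat_lit 342) (nat_lit 1) (.p (nat_lit 345) (nat_lit 3) (.p (nat_lit 346) (nat_lit 2) (.p (nat_lit 347) (nat_lit 2) (.p (nat_lit 349) (nat_lit 3) (.p (nat_lit 350) (nat_lit 1) (.n (nat_lit 351) (nat_lit 1) (.n (nat_lit 353) (nat_lit 1) (.p (nat_lit 355) (nat_lit 3) (.n (nat_lit 356) (nat_lit 1) (.p (nat_lit 357) (nat_lit 1) (.p (nat_lit 358) (nat_lit 2) (.n (nat_lit 360) (nat_lit 2) (.n (nat_lit 361) (nat_lit 1) (.n (nat_lit 362) (nat_lit 2) (.p (nat_lit 363) (nat_lit 2) (.p (nat_lit 364) (nat_lit 2) (.p (nat_lit 366) (nat_lit 1) (.n (nat_lit 367) (nat_lit 1) (.n (nat_lit 368) (nat_lit 3) (.p (nat_lit 369) (nat_lit 1) (.n (nat_lit 370) (nat_lit 2) (.n (nat_lit 372) (nat_lit 2) (.p (nat_lit 373) (nat_lit 3) (.p (nat_lit 374) (nat_lit 2) (.n (nat_lit 375) (nat_lit 1) (.p (nat_lit 377) (nat_lit 2) (.n (nat_lit 379) (nat_lit 1) (.n (nat_lit 380) (nat_lit 1) (.p (nat_lit 381) (nat_lit 1) (.p (nat_lit 382) (nat_lit 2) (.n (nat_lit 383) (nat_lit 1) (.n (nat_lit 387) (nat_lit 2) .z)))))))))))))))))))))))))))))))))))))) (.ct dC2b_c308 (nat_lit 1) (nat_lit 5) (.s false (nat_lit 1) (nat_lit 65) (nat_lit 2) (nat_lit 2) (nat_lit 1) true (nat_lit 12) true (nat_lit 17) false (nat_lit 5) true (nat_lit 16) true (nat_lit 16) (.e false (nat_lit 1) (nat_lit 137) (nat_lit 6) (nat_lit 12) (.e false (nat_lit 1) (nat_lit 257) (nat_lit 1) (nat_lit 17) (.e false (nat_lit 1) (nat_lit 205) (nat_lit 2) (nat_lit 16) (.e true (nat_lit 3) (nat_lit 206) (nat_lit 2) (nat_lit 16) (.e true (nat_lit 3) (nat_lit 207) (nat_lit 2) (nat_lit 16) (.e true (nat_lit 1) (nat_lit 208) (nat_lit 2) (nat_lit 16) (.e true (nat_lit 1) (nat_lit 210) (nat_lit 2) (nat_lit 16) (.e false (nat_lit 1) (nat_lit 211) (nat_lit 2) (nat_lit 16) (.e true (nat_lit 2) (nat_lit 212) (nat_lit 2) (nat_lit 16) (.e false (nat_lit 3) (nat_lit 214) (nat_lit 2) (nat_lit 16) dC2b_i58)))))))))))) (.nd (.nd .leaf (nat_lit 66580) (nat_lit 1290) (.n (nat_lit 397) (nat_lit 3) (.p (nat_lit 398) (nat_lit 2) (.p (nat_lit 400) (nat_lit 3) (.p (nat_lit 401) (nat_lit 1) (.p (nat_lit 402) (nat_lit 3) (.p (nat_lit 403) (nat_lit 2) (.p (nat_lit 404) (nat_lit 3) (.n (nat_lit 405) (nat_lit 1) (.p (nat_lit 406) (nat_lit 1) (.p (nat_lit 407) (nat_lit 1) (.n (nat_lit 408) (nat_lit 1) (.p (nat_lit 409) (nat_lit 1) (.n (nat_lit 411) (nat_lit 3) (.n (nat_lit 412) (nat_lit 3) (.n (nat_lit 413) (nat_lit 3) (.p (nat_lit 415) (nat_lit 2) (.n (nat_lit 416) (nat_lit 3) (.n (nat_lit 418) (nat_lit 1) (.p (nat_lit 421) (nat_lit 1) (.p (nat_lit 431) (nat_lit 2) (.p (nat_lit 432) (nat_lit 1) (.p (nat_lit 435) (nat_lit 1) .z)))))))))))))))))))))) (.ct dC2b_c293 (nat_lit 1) (nat_lit 3) (.s true (nat_lit 1) (nat_lit 20) (nat_lit 3) (nat_lit 7) (nat_lit 1) true (nat_lit 8) true (nat_lit 15) true (nat_lit 3) true (nat_lit 13) true (nat_lit 9) (.e false (nat_lit 1) (nat_lit 306) (nat_lit 1) (nat_lit 15) (.e true (nat_lit 1) (nat_lit 307) (nat_lit 1) (nat_lit 15) (.e true (nat_lit 1) (nat_lit 308) (nat_lit 1) (nat_lit 15) (.e true (nat_lit 1) (nat_lit 310) (nat_lit 1) (nat_lit 15) (.e false (nat_lit 3) (nat_lit 313) (nat_lit 1) (nat_lit 15) (.e false (nat_lit 3) (nat_lit 314) (nat_lit 1) (nat_lit 15) (.e true (nat_lit 3) (nat_lit 315) (nat_lit 1) (nat_lit 15) (.e true (nat_lit 1) (nat_lit 317) (nat_lit 1) (nat_lit 15) (.e false (nat_lit 1) (nat_lit 318) (nat_lit 1) (nat_lit 15) (.e true (nat_lit 1) (nat_lit 60) (nat_lit 20) (nat_lit 3) (.e true (nat_lit 1) (nat_lit 61) (nat_lit 20) (nat_lit 3) (.e false (nat_lit 1) (nat_lit 62) (nat_lit 20) (nat_lit 3) (.e false (nat_lit 1) (nat_lit 63) (nat_lit 20) (nat_lit 3) (.e true (nat_lit 1) (nat_lit 66) (nat_lit 20) (nat_lit 3) (.e false (nat_lit 1) (nat_lit 72) (nat_lit 20) (nat_lit 3) (.e true (nat_lit 1) (nat_lit 73) (nat_lit 20) (nat_lit 3) (.e true (nat_lit 1) (nat_lit 204) (nat_lit 3) (nat_lit 13) (.e false (nat_lit 2) (nat_lit 134) (nat_lit 7) (nat_lit 9) (.e true (nat_lit 2) (nat_lit 138) (nat_lit 7) (nat_lit 9) (.e false (nat_lit 1) (nat_lit 144) (nat_lit 7) (nat_lit 9) (.e true (nat_lit 1) (nat_lit 149) (nat_lit 7) (nat_lit 9) (.e true (nat_lit 1) (nat_lit 157) (nat_lit 7) (nat_lit 9) (.u (nat_lit 2) (.n (nat_lit 0) (nat_lit 1) (.n (nat_lit 1) (nat_lit 1) (.n (nat_lit 4) (nat_lit 1) (.n (nat_lit 5) (nat_lit 1) (.n (nat_lit 7) (nat_lit 1) (.p (nat_lit 8) (nat_lit 1) (.p (nat_lit 9) (nat_lit 2) (.n (nat_lit 10) (nat_lit 2) (.p (nat_lit 11) (nat_lit 1) (.n (nat_lit 13) (nat_lit 1) (.p (nat_lit 14) (nat_lit 2) (.p (nat_lit 17) (nat_lit 1) (.p (nat_lit 18) (nat_lit 1) (.p (nat_lit 21) (nat_lit 2) (.p (nat_lit 25) (nat_lit 1) (.n (nat_lit 27) (nat_lit 1) (.n (nat_lit 34) (nat_lit 3) (.n (nat_lit 35) (nat_lit 1) (.n (nat_lit 38) (nat_lit 1) (.p (nat_lit 243) (nat_lit 1) (.p (nat_lit 244) (nat_lit 1) (.n (nat_lit 249) (nat_lit 1) .z)))))))))))))))))))))) .nil))))))))))))))))))))))))) .leaf) (nat_lit 67585) (nat_lit 179) (.p (nat_lit 123) (nat_lit 1) .z) .df .leaf))) (nat_lit 67586) (nat_lit 232) (.p (nat_lit 138) (nat_lit 1) .z) .df (.nd (.nd (.nd (.nd .leaf (nat_lit 67590) (nat_lit 479) (.p (nat_lit 205) (nat_lit 3) (.p (nat_lit 206) (nat_lit 2) (.n (nat_lit 207) (nat_lit 2) (.n (nat_lit 208) (nat_lit 1) (.n (nat_lit 209) (nat_lit 2) (.p (nat_lit 210) (nat_lit 1) (.p (nat_lit 211) (nat_lit 2) (.n (nat_lit 213) (nat_lit 1) (.n (nat_lit 214) (nat_lit 1) (.p (nat_lit 215) (nat_lit 2) (.p (nat_lit 216) (nat_lit 3) (.p (nat_lit 218) (nat_lit 1) (.p (nat_lit 219) (nat_lit 3) (.p (nat_lit 220) (nat_lit 1) (.p (nat_lit 221) (nat_lit 3) (.p (nat_lit 222) (nat_lit 3) (.p (nat_lit 225) (nat_lit 3) (.n (nat_lit 226) (nat_lit 2) (.p (nat_lit 227) (nat_lit 2) (.p (nat_lit 228) (nat_lit 2) (.n (nat_lit 229) (nat_lit 3) (.n (nat_lit 230) (nat_lit 3) (.n (nat_lit 231) (nat_lit 2) (.p (nat_lit 235) (nat_lit 1) (.p (nat_lit 242) (nat_lit 1) (.n (nat_lit 245) (nat_lit 3) (.n (nat_lit 246) (nat_lit 2) (.n (nat_lit 247) (nat_lit 2) (.n (nat_lit 248) (nat_lit 3) (.p (nat_lit 251) (nat_lit 3) .z)))))))))))))))))))))))))))))) (.ct dC2b_c307 (nat_lit 1) (nat_lit 8) (.s true (nat_lit 1) (nat_lit 33) (nat_lit 2) (nat_lit 1) (nat_lit 1) true (nat_lit 8) true (nat_lit 13) false (nat_lit 3) true (nat_lit 12) true (nat_lit 13) (.e true (nat_lit 1) (nat_lit 146) (nat_lit 1) (nat_lit 13) (.e false (nat_lit 1) (nat_lit 33) (nat_lit 15) (nat_lit 3) (.e true (nat_lit 1) (nat_lit 106) (nat_lit 2) (nat_lit 12) (.e false (nat_lit 2) (nat_lit 109) (nat_lit 2) (nat_lit 12) (.e true (nat_lit 1) (nat_lit 110) (nat_lit 2) (nat_lit 12) (.e false (nat_lit 1) (nat_lit 112) (nat_lit 2) (nat_lit 12) (.e true (nat_lit 1) (nat_lit 114) (nat_lit 2) (nat_lit 12) (.e true (nat_lit 1) (nat_lit 116) (nat_lit 2) (nat_lit 12) (.e true (nat_lit 1) (nat_lit 117) (nat_lit 2) (nat_lit 12) (.e false (nat_lit 1) (nat_lit 118) (nat_lit 2) (nat_lit 12) (.e true (nat_lit 1) (nat_lit 119) (nat_lit 2) (nat_lit 12) (.e true (nat_lit 1) (nat_lit 120) (nat_lit 2) (nat_lit 12) (.e false (nat_lit 1) (nat_lit 122) (nat_lit 2) (nat_lit 12) (.e false (nat_lit 1) (nat_lit 123) (nat_lit 2) (nat_lit 12) (.e false (nat_lit 1) (nat_lit 127) (nat_lit 2) (nat_lit 12) (.e false (nat_lit 1) (nat_lit 128) (nat_lit 2) (nat_lit 12) (.e false (nat_lit 1) (nat_lit 138) (nat_lit 1) (nat_lit 13) (.u (nat_lit 2) (.n (nat_lit 0) (nat_lit 1) (.n (nat_lit 11) (nat_lit 1) (.n (nat_lit 14) (nat_lit 1) .z))) .nil)))))))))))))))))))) .leaf) (nat_lit 67591) (nat_lit 610) (.p (nat_lit 254) (nat_lit 3) (.p (nat_lit 258) (nat_lit 1) (.n (nat_lit 264) (nat_lit 1) (.p (nat_lit 265) (nat_lit 1) (.p (nat_lit 266) (nat_lit 3) (.p (nat_lit 269) (nat_lit 2) (.p (nat_lit 272) (nat_lit 1) (.n (nat_lit 274) (nat_lit 3) (.p (nat_lit 285) (nat_lit 1) .z))))))))) (.ct dC2b_c292 (nat_lit 1) (nat_lit 6) (.s true (nat_lit 1) (nat_lit 33) (nat_lit 2) (nat_lit 1) (nat_lit 2) true (nat_lit 6) true (nat_lit 11) false (nat_lit 1) true (nat_lit 11) true (nat_lit 12) (.e true (nat_lit 2) (nat_lit 146) (nat_lit 2) (nat_lit 11) (.e false (nat_lit 1) (nat_lit 33) (nat_lit 18) (nat_lit 1) (.e true (nat_lit 1) (nat_lit 134) (nat_lit 2) (nat_lit 11) (.e false (nat_lit 2) (nat_lit 138) (nat_lit 2) (nat_lit 11) (.e true (nat_lit 1) (nat_lit 145) (nat_lit 2) (nat_lit 11) (.e false (nat_lit 1) (nat_lit 149) (nat_lit 2) (nat_lit 11) (.e false (nat_lit 1) (nat_lit 154) (nat_lit 2) (nat_lit 11) (.e false (nat_lit 1) (nat_lit 169) (nat_lit 1) (nat_lit 12) (.u (nat_lit 2) (.n (nat_lit 2) (nat_lit 1) (.n (nat_lit 14) (nat_lit 1) (.p (nat_lit 22) (nat_lit 1) .z))) .nil))))))))))) .leaf) (nat_lit 67602) (nat_lit 973) (.p (nat_lit 335) (nat_lit 1) (.p (nat_lit 338) (nat_lit 2) (.n (nat_lit 339) (nat_lit 3) (.n (nat_lit 340) (nat_lit 2) (.n (nat_lit 341) (nat_lit 2) (.n (nat_lit 342) (nat_lit 3) (.p (nat_lit 343) (nat_lit 2) (.p (nat_lit 345) (nat_lit 1) (.n (nat_lit 346) (nat_lit 2) (.p (nat_lit 349) (nat_lit 3) (.n (nat_lit 350) (nat_lit 1) (.p (nat_lit 351) (nat_lit 2) (.p (nat_lit 352) (nat_lit 1) (.n (nat_lit 353) (nat_lit 1) (.n (nat_lit 354) (nat_lit 3) (.p (nat_lit 355) (nat_lit 3) (.n (nat_lit 356) (nat_lit 2) (.p (nat_lit 357) (nat_lit 2) (.n (nat_lit 359) (nat_lit 3) (.p (nat_lit 360) (nat_lit 3) (.n (nat_lit 361) (nat_lit 2) (.p (nat_lit 362) (nat_lit 2) (.p (nat_lit 363) (nat_lit 2) (.p (nat_lit 364) (nat_lit 2) (.p (nat_lit 366) (nat_lit 3) (.n (nat_lit 367) (nat_lit 1) (.n (nat_lit 368) (nat_lit 1) (.n (nat_lit 370) (nat_lit 1) (.n (nat_lit 371) (nat_lit 2) (.n (nat_lit 372) (nat_lit 2) (.p (nat_lit 373) (nat_lit 1) (.n (nat_lit 374) (nat_lit 3) (.n (nat_lit 375) (nat_lit 3) (.p (nat_lit 379) (nat_lit 3) (.p (nat_lit 380) (nat_lit 2) (.p (nat_lit 381) (nat_lit 1) (.p (nat_lit 382) (nat_lit 1) (.p (nat_lit 383) (nat_lit 3) .z)))))))))))))))))))))))))))))))))))))) (.ct dC2b_c308 (nat_lit 1) (nat_lit 5) (.s false (nat_lit 1) (nat_lit 66) (nat_lit 1) (nat_lit 2) (nat_lit 2) true (nat_lit 12) true (nat_lit 16) false (nat_lit 5) true (nat_lit 17) true (nat_lit 16) (.e false (nat_lit 1) (nat_lit 138) (nat_lit 6) (nat_lit 12) (.e false (nat_lit 1) (nat_lit 222) (nat_lit 2) (nat_lit 16) (.e true (nat_lit 3) (nat_lit 254) (nat_lit 1) (nat_lit 17) (.e true (nat_lit 1) (nat_lit 258) (nat_lit 1) (nat_lit 17) (.e false (nat_lit 1) (nat_lit 264) (nat_lit 1) (nat_lit 17) (.e true (nat_lit 1) (nat_lit 265) (nat_lit 1) (nat_lit 17) (.e true (nat_lit 3) (nat_lit 266) (nat_lit 1) (nat_lit 17) (.e true (nat_lit 2) (nat_lit 269) (nat_lit 1) (nat_lit 17) (.e true (nat_lit 1) (nat_lit 272) (nat_lit 1) (nat_lit 17) (.e false (nat_lit 3) (nat_lit 274) (nat_lit 1) (nat_lit 17) (.e true (nat_lit 1) (nat_lit 285) (nat_lit 1) (nat_lit 17) (.e true (nat_lit 1) (nat_lit 235) (nat_lit 2) (nat_lit 16) (.u (nat_lit 2) (.n (nat_lit 0) (nat_lit 1) (.p (nat_lit 1) (nat_lit 1) (.p (nat_lit 7) (nat_lit 1) (.p (nat_lit 10) (nat_lit 1) (.n (nat_lit 14) (nat_lit 1) (.p (nat_lit 15) (nat_lit 1) (.n (nat_lit 16) (nat_lit 1) (.p (nat_lit 17) (nat_lit 1) (.p (nat_lit 18) (nat_lit 1) (.p (nat_lit 19) (nat_lit 1) (.n (nat_lit 20) (nat_lit 1) (.p (nat_lit 21) (nat_lit 1) (.n (nat_lit 22) (nat_lit 1) (.p (nat_lit 24) (nat_lit 1) (.n (nat_lit 25) (nat_lit 1) (.p (nat_lit 26) (nat_lit 1) (.n (nat_lit 28) (nat_lit 1) (.n (nat_lit 31) (nat_lit 1) (.p (nat_lit 32) (nat_lit 1) (.p (nat_lit 36) (nat_lit 1) (.n (nat_lit 48) (nat_lit 1) .z))))))))))))))))))))) .nil))))))))))))))) (.nd (.nd .leaf (nat_lit 67603) (nat_lit 976) (.n (nat_lit 335) (nat_lit 3) (.p (nat_lit 336) (nat_lit 3) (.n (nat_lit 337) (nat_lit 1) (.n (nat_lit 338) (nat_lit 1) (.n (nat_lit 339) (nat_lit 2) (.p (nat_lit 340) (nat_lit 3) (.n (nat_lit 341) (nat_lit 2) (.n (nat_lit 342) (nat_lit 1) (.n (nat_lit 343) (nat_lit 2) (.n (nat_lit 345) (nat_lit 3) (.p (nat_lit 346) (nat_lit 3) (.p (nat_lit 347) (nat_lit 1) (.p (nat_lit 349) (nat_lit 1) (.n (nat_lit 350) (nat_lit 2) (.n (nat_lit 351) (nat_lit 3) (.n (nat_lit 352) (nat_lit 1) (.n (nat_lit 354) (nat_lit 1) (.n (nat_lit 355) (nat_lit 2) (.n (nat_lit 356) (nat_lit 3) (.p (nat_lit 357) (nat_lit 3) (.n (nat_lit 358) (nat_lit 1) (.p (nat_lit 359) (nat_lit 1) (.n (nat_lit 360) (nat_lit 1) (.n (nat_lit 361) (nat_lit 1) (.p (nat_lit 363) (nat_lit 3) (.p (nat_lit 364) (nat_lit 2) (.p (nat_lit 366) (nat_lit 1) (.n (nat_lit 367) (nat_lit 1) (.p (nat_lit 369) (nat_lit 2) (.n (nat_lit 371) (nat_lit 1) (.p (nat_lit 372) (nat_lit 1) (.n (nat_lit 374) (nat_lit 1) (.n (nat_lit 375) (nat_lit 1) (.p (nat_lit 379) (nat_lit 1) (.p (nat_lit 380) (nat_lit 3) (.n (nat_lit 381) (nat_lit 2) .z)))))))))))))))))))))))))))))))))))) (.ct dC2b_c308 (nat_lit 1) (nat_lit 5) (.s false (nat_lit 1) (nat_lit 66) (nat_lit 2) (nat_lit 2) (nat_lit 1) true (nat_lit 12) true (nat_lit 17) false (nat_lit 5) true (nat_lit 16) true (nat_lit 16) (.e false (nat_lit 1) (nat_lit 138) (nat_lit 6) (nat_lit 12) (.e false (nat_lit 1) (nat_lit 258) (nat_lit 1) (nat_lit 17) (.e true (nat_lit 3) (nat_lit 205) (nat_lit 2) (nat_lit 16) (.e true (nat_lit 2) (nat_lit 206) (nat_lit 2) (nat_lit 16) (.e false (nat_lit 2) (nat_lit 207) (nat_lit 2) (nat_lit 16) (.e false (nat_lit 1) (nat_lit 208) (nat_lit 2) (nat_lit 16) (.e false (nat_lit 2) (nat_lit 209) (nat_lit 2) (nat_lit 16) (.e true (nat_lit 1) (nat_lit 210) (nat_lit 2) (nat_lit 16) dC2b_i59)))))))))) .leaf) (nat_lit 67604) (nat_lit 1225) (.p (nat_lit 397) (nat_lit 3) (.p (nat_lit 398) (nat_lit 2) (.n (nat_lit 399) (nat_lit 1) (.p (nat_lit 400) (nat_lit 3) (.n (nat_lit 402) (nat_lit 3) (.p (nat_lit 403) (nat_lit 1) (.p (nat_lit 404) (nat_lit 3) (.n (nat_lit 405) (nat_lit 3) (.n (nat_lit 406) (nat_lit 3) (.p (nat_lit 407) (nat_lit 3) (.n (nat_lit 408) (nat_lit 1) (.p (nat_lit 409) (nat_lit 1) (.n (nat_lit 410) (nat_lit 2) (.n (nat_lit 411) (nat_lit 3) (.n (nat_lit 414) (nat_lit 1) (.n (nat_lit 415) (nat_lit 2) (.n (nat_lit 416) (nat_lit 3) (.n (nat_lit 418) (nat_lit 3) (.n (nat_lit 420) (nat_lit 1) (.p (nat_lit 421) (nat_lit 1) (.n (nat_lit 431) (nat_lit 3) (.p (nat_lit 435) (nat_lit 3) .z)))))))))))))))))))))) (.ct dC2b_c293 (nat_lit 1) (nat_lit 3) (.s false (nat_lit 1) (nat_lit 66) (nat_lit 2) (nat_lit 2) (nat_lit 2) true (nat_lit 9) true (nat_lit 14) false (nat_lit 3) true (nat_lit 14) true (nat_lit 14) (.e false (nat_lit 1) (nat_lit 138) (nat_lit 7) (nat_lit 9) (.e true (nat_lit 1) (nat_lit 258) (nat_lit 2) (nat_lit 14) (.e true (nat_lit 3) (nat_lit 254) (nat_lit 2) (nat_lit 14) (.e false (nat_lit 1) (nat_lit 264) (nat_lit 2) (nat_lit 14) (.e true (nat_lit 1) (nat_lit 265) (nat_lit 2) (nat_lit 14) (.e true (nat_lit 3) (nat_lit 266) (nat_lit 2) (nat_lit 14) (.e true (nat_lit 2) (nat_lit 269) (nat_lit 2) (nat_lit 14) (.e true (nat_lit 1) (nat_lit 272) (nat_lit 2) (nat_lit 14) (.e false (nat_lit 3) (nat_lit 274) (nat_lit 2) (nat_lit 14) (.e true (nat_lit 1) (nat_lit 285) (nat_lit 2) (nat_lit 14) (.u (nat_lit 2) (.n (nat_lit 0) (nat_lit 1) (.p (nat_lit 1) (nat_lit 1) (.n (nat_lit 2) (nat_lit 1) (.n (nat_lit 4) (nat_lit 2) (.p (nat_lit 5) (nat_lit 1) (.n (nat_lit 6) (nat_lit 1) (.p (nat_lit 8) (nat_lit 2) (.n (nat_lit 9) (nat_lit 1) (.p (nat_lit 11) (nat_lit 2) (.p (nat_lit 13) (nat_lit 2) (.p (nat_lit 15) (nat_lit 2) (.p (nat_lit 16) (nat_lit 2) (.p (nat_lit 17) (nat_lit 1) (.n (nat_lit 18) (nat_lit 1) (.p (nat_lit 23) (nat_lit 1) (.p (nat_lit 24) (nat_lit 2) (.n (nat_lit 30) (nat_lit 1) (.p (nat_lit 34) (nat_lit 1) .z)))))))))))))))))) .nil))))))))))))) .leaf)) (nat_lit 68609) (nat_lit 180) (.p (nat_lit 124) (nat_lit 1) .z) .df (.nd (.nd (.nd .leaf (nat_lit 68610) (nat_lit 233) (.p (nat_lit 139) (nat_lit 1) .z) .df .leaf) (nat_lit 68614) (nat_lit 463) (.p (nat_lit 205) (nat_lit 1) (.p (nat_lit 206) (nat_lit 1) (.n (nat_lit 208) (nat_lit 3) (.p (nat_lit 210) (nat_lit 1) (.n (nat_lit 211) (nat_lit 1) (.n (nat_lit 212) (nat_lit 1) (.p (nat_lit 215) (nat_lit 1) (.p (nat_lit 216) (nat_lit 2) (.p (nat_lit 223) (nat_lit 1) (.n (nat_lit 225) (nat_lit 1) (.n (nat_lit 227) (nat_lit 1) (.n (nat_lit 232) (nat_lit 1) (.n (nat_lit 235) (nat_lit 1) (.p (nat_lit 236) (nat_lit 1) (.p (nat_lit 242) (nat_lit 1) (.n (nat_lit 245) (nat_lit 1) (.p (nat_lit 248) (nat_lit 1) (.p (nat_lit 250) (nat_lit 1) .z)))))))))))))))))) (.ct dC2b_c307 (nat_lit 1) (nat_lit 8) (.s true (nat_lit 1) (nat_lit 12) (nat_lit 2) (nat_lit 1) (nat_lit 6) true (nat_lit 1) true (nat_lit 8) true (nat_lit 4) true (nat_lit 12) true (nat_lit 13) (.e false (nat_lit 1) (nat_lit 27) (nat_lit 18) (nat_lit 1) dC2b_i60))) .leaf) (nat_lit 68615) (nat_lit 633) (.p (nat_lit 252) (nat_lit 1) (.p (nat_lit 253) (nat_lit 1) (.p (nat_lit 254) (nat_lit 3) (.n (nat_lit 255) (nat_lit 3) (.p (nat_lit 256) (nat_lit 3) (.n (nat_lit 258) (nat_lit 3) (.n (nat_lit 259) (nat_lit 1) (.p (nat_lit 260) (nat_lit 3) (.p (nat_lit 261) (nat_lit 3) (.p (nat_lit 263) (nat_lit 3) (.p (nat_lit 264) (nat_lit 2) (.n (nat_lit 265) (nat_lit 3) (.p (nat_lit 267) (nat_lit 3) (.p (nat_lit 270) (nat_lit 2) (.n (nat_lit 272) (nat_lit 2) (.p (nat_lit 274) (nat_lit 2) (.n (nat_lit 275) (nat_lit 1) (.p (nat_lit 286) (nat_lit 1) .z)))))))))))))))))) (.ct dC2b_c292 (nat_lit 1) (nat_lit 6) (.s true (nat_lit 1) (nat_lit 34) (nat_lit 2) (nat_lit 1) (nat_lit 2) true (nat_lit 6) true (nat_lit 11) false (nat_lit 1) true (nat_lit 11) true (nat_lit 12) (.e true (nat_lit 2) (nat_lit 147) (nat_lit 2) (nat_lit 11) (.e false (nat_lit 1) (nat_lit 34) (nat_lit 18) (nat_lit 1) (.e false (nat_lit 1) (nat_lit 133) (nat_lit 2) (nat_lit 11) (.e true (nat_lit 2) (nat_lit 135) (nat_lit 2) (nat_lit 11) (.e false (nat_lit 1) (nat_lit 138) (nat_lit 2) (nat_lit 11) (.e false (nat_lit 2) (nat_lit 139) (nat_lit 2) (nat_lit 11) (.e true (nat_lit 1) (nat_lit 140) (nat_lit 2) (nat_lit 11) (.e true (nat_lit 1) (nat_lit 144) (nat_lit 2) (nat_lit 11) (.e false (nat_lit 1) (nat_lit 150) (nat_lit 2) (nat_lit 11) (.e false (nat_lit 1) (nat_lit 155) (nat_lit 2) (nat_lit 11) (.e false (nat_lit 1) (nat_lit 170) (nat_lit 1) (nat_lit 12) (.u (nat_lit 2) (.p (nat_lit 6) (nat_lit 1) (.n (nat_lit 8) (nat_lit 1) (.n (nat_lit 15) (nat_lit 1) .z))) .nil)))))))))))))) (.nd .leaf (nat_lit 68626) (nat_lit 982) (.p (nat_lit 335) (nat_lit 2) (.n (nat_lit 336) (nat_lit 2) (.p (nat_lit 337) (nat_lit 3) (.n (nat_lit 338) (nat_lit 3) (.p (nat_lit 339) (nat_lit 1) (.p (nat_lit 340) (nat_lit 1) (.n (nat_lit 342) (nat_lit 3) (.n (nat_lit 343) (nat_lit 1) (.n (nat_lit 344) (nat_lit 1) (.n (nat_lit 345) (nat_lit 2) (.n (nat_lit 346) (nat_lit 3) (.p (nat_lit 347) (nat_lit 1) (.n (nat_lit 349) (nat_lit 1) (.p (nat_lit 350) (nat_lit 3) (.p (nat_lit 351) (nat_lit 2) (.n (nat_lit 352) (nat_lit 2) (.n (nat_lit 353) (nat_lit 2) (.p (nat_lit 354) (nat_lit 2) (.n (nat_lit 356) (nat_lit 2) (.p (nat_lit 357) (nat_lit 1) (.n (nat_lit 358) (nat_lit 1) (.n (nat_lit 359) (nat_lit 1) (.n (nat_lit 361) (nat_lit 2) (.n (nat_lit 364) (nat_lit 2) (.p (nat_lit 367) (nat_lit 1) (.n (nat_lit 368) (nat_lit 3) (.n (nat_lit 369) (nat_lit 1) (.n (nat_lit 370) (nat_lit 3) (.p (nat_lit 372) (nat_lit 1) (.p (nat_lit 373) (nat_lit 3) (.p (nat_lit 380) (nat_lit 1) (.p (nat_lit 381) (nat_lit 3) (.p (nat_lit 382) (nat_lit 3) (.p (nat_lit 383) (nat_lit 2) (.p (nat_lit 388) (nat_lit 1) .z))))))))))))))))))))))))))))))))))) (.ct dC2b_c308 (nat_lit 1) (nat_lit 5) (.s false (nat_lit 1) (nat_lit 67) (nat_lit 1) (nat_lit 2) (nat_lit 2) true (nat_lit 12) true (nat_lit 16) false (nat_lit 5) true (nat_lit 17) true (nat_lit 16) (.e false (nat_lit 1) (nat_lit 139) (nat_lit 6) (nat_lit 12) (.e false (nat_lit 1) (nat_lit 223) (nat_lit 2) (nat_lit 16) (.e true (nat_lit 1) (nat_lit 252) (nat_lit 1) (nat_lit 17) (.e true (nat_lit 1) (nat_lit 253) (nat_lit 1) (nat_lit 17) dC2b_i62)))))) .leaf))))) (nat_lit 68627) (nat_lit 981) (.n (nat_lit 335) (nat_lit 1) (.n (nat_lit 336) (nat_lit 2) (.p (nat_lit 337) (nat_lit 3) (.p (nat_lit 340) (nat_lit 2) (.n (nat_lit 341) (nat_lit 1) (.p (nat_lit 342) (nat_lit 3) (.n (nat_lit 343) (nat_lit 1) (.p (nat_lit 345) (nat_lit 1) (.n (nat_lit 347) (nat_lit 2) (.n (nat_lit 349) (nat_lit 1) (.n (nat_lit 350) (nat_lit 1) (.p (nat_lit 353) (nat_lit 1) (.n (nat_lit 354) (nat_lit 3) (.n (nat_lit 355) (nat_lit 2) (.p (nat_lit 356) (nat_lit 2) (.p (nat_lit 358) (nat_lit 2) (.p (nat_lit 359) (nat_lit 2) (.p (nat_lit 360) (nat_lit 1) (.n (nat_lit 361) (nat_lit 2) (.n (nat_lit 362) (nat_lit 1) (.n (nat_lit 363) (nat_lit 2) (.p (nat_lit 364) (nat_lit 2) (.n (nat_lit 366) (nat_lit 3) (.n (nat_lit 367) (nat_lit 1) (.n (nat_lit 368) (nat_lit 2) (.n (nat_lit 369) (nat_lit 3) (.n (nat_lit 370) (nat_lit 2) (.n (nat_lit 371) (nat_lit 3) (.p (nat_lit 372) (nat_lit 1) (.p (nat_lit 373) (nat_lit 2) (.p (nat_lit 374) (nat_lit 3) (.p (nat_lit 382) (nat_lit 3) (.p (nat_lit 383) (nat_lit 2) (.n (nat_lit 388) (nat_lit 2) .z)))))))))))))))))))))))))))))))))) (.ct dC2b_c308 (nat_lit 1) (nat_lit 5) (.s false (nat_lit 1) (nat_lit 67) (nat_lit 2) (nat_lit 2) (nat_lit 1) true (nat_lit 12) true (nat_lit 17) false (nat_lit 5) true (nat_lit 16) true (nat_lit 16) (.e false (nat_lit 1) (nat_lit 139) (nat_lit 6) (nat_lit 12) (.e false (nat_lit 1) (nat_lit 259) (nat_lit 1) (nat_lit 17) (.e true (nat_lit 1) (nat_lit 205) (nat_lit 2) (nat_lit 16) (.e true (nat_lit 1) (nat_lit 206) (nat_lit 2) (nat_lit 16) (.e false (nat_lit 3) (nat_lit 208) (nat_lit 2) (nat_lit 16) (.e true (nat_lit 1) (nat_lit 210) (nat_lit 2) (nat_lit 16) (.e false (nat_lit 1) (nat_lit 211) (nat_lit 2) (nat_lit 16) (.e false (nat_lit 1) (nat_lit 212) (nat_lit 2) (nat_lit 16) (.e true (nat_lit 1) (nat_lit 215) (nat_lit 2) (nat_lit 16) (.e true (nat_lit 2) (nat_lit 216) (nat_lit 2) (nat_lit 16) (.e true (nat_lit 2) (nat_lit 223) (nat_lit 2) (nat_lit 16) (.e false (nat_lit 1) (nat_lit 225) (nat_lit 2) (nat_lit 16) (.e false (nat_lit 1) (nat_lit 227) (nat_lit 2) (nat_lit 16) (.e false (nat_lit 1) (nat_lit 232) (nat_lit 2) (nat_lit 16) (.e false (nat_lit 1) (nat_lit 235) (nat_lit 2) (nat_lit 16) (.e true (nat_lit 1) (nat_lit 236) (nat_lit 2) (nat_lit 16) (.e true (nat_lit 1) (nat_lit 242) (nat_lit 2) (nat_lit 16) (.e false (nat_lit 1) (nat_lit 245) (nat_lit 2) (nat_lit 16) (.e true (nat_lit 1) (nat_lit 248) (nat_lit 2) (nat_lit 16) (.e true (nat_lit 1) (nat_lit 250) (nat_lit 2) (nat_lit 16) (.u (nat_lit 2) (.n (nat_lit 0) (nat_lit 1) (.p (nat_lit 1) (nat_lit 1) (.n (nat_lit 2) (nat_lit 2) (.p (nat_lit 3) (nat_lit 1) (.n (nat_lit 4) (nat_lit 1) (.n (nat_lit 5) (nat_lit 2) (.n (nat_lit 7) (nat_lit 1) (.p (nat_lit 10) (nat_lit 2) (.p (nat_lit 11) (nat_lit 1) (.p (nat_lit 12) (nat_lit 1) (.n (nat_lit 14) (nat_lit 1) (.p (nat_lit 15) (nat_lit 2) (.p (nat_lit 16) (nat_lit 1) (.n (nat_lit 17) (nat_lit 1) (.p (nat_lit 18) (nat_lit 1) (.p (nat_lit 19) (nat_lit 1) (.n (nat_lit 20) (nat_lit 1) (.n (nat_lit 21) (nat_lit 1) (.p (nat_lit 22) (nat_lit 1) (.p (nat_lit 23) (nat_lit 3) (.p (nat_lit 27) (nat_lit 2) (.p (nat_lit 29) (nat_lit 2) (.p (nat_lit 31) (nat_lit 1) (.p (nat_lit 33) (nat_lit 1) (.n (nat_lit 34) (nat_lit 1) (.p (nat_lit 35) (nat_lit 1) (.p (nat_lit 36) (nat_lit 1) (.n (nat_lit 37) (nat_lit 1) (.n (nat_lit 38) (nat_lit 1) (.n (nat_lit 39) (nat_lit 2) (.n (nat_lit 40) (nat_lit 1) (.n (nat_lit 44) (nat_lit 1) (.n (nat_lit 46) (nat_lit 1) (.p (nat_lit 47) (nat_lit 1) (.p (nat_lit 48) (nat_lit 1) .z))))))))))))))))))))))))))))))))))) .nil))))))))))))))))))))))) (.nd (.nd (.nd (.nd (.nd (.nd .leaf (nat_lit 68628) (nat_lit 1261) (.p (nat_lit 397) (nat_lit 2) (.p (nat_lit 398) (nat_lit 2) (.p (nat_lit 399) (nat_lit 1) (.n (nat_lit 400) (nat_lit 2) (.n (nat_lit 401) (nat_lit 3) (.n (nat_lit 402) (nat_lit 2) (.n (nat_lit 403) (nat_lit 2) (.p (nat_lit 405) (nat_lit 3) (.p (nat_lit 406) (nat_lit 2) (.n (nat_lit 407) (nat_lit 1) (.p (nat_lit 408) (nat_lit 1) (.n (nat_lit 409) (nat_lit 1) (.p (nat_lit 410) (nat_lit 1) (.p (nat_lit 411) (nat_lit 2) (.n (nat_lit 412) (nat_lit 1) (.n (nat_lit 413) (nat_lit 1) (.p (nat_lit 414) (nat_lit 2) (.p (nat_lit 415) (nat_lit 1) (.p (nat_lit 416) (nat_lit 3) (.p (nat_lit 420) (nat_lit 1) (.p (nat_lit 421) (nat_lit 2) (.p (nat_lit 431) (nat_lit 1) (.p (nat_lit 432) (nat_lit 1) (.n (nat_lit 435) (nat_lit 1) .z)))))))))))))))))))))))) (.ct dC2b_c293 (nat_lit 1) (nat_lit 3) (.s false (nat_lit 1) (nat_lit 67) (nat_lit 2) (nat_lit 2) (nat_lit 2) true (nat_lit 9) true (nat_lit 14) false (nat_lit 3) true (nat_lit 14) true (nat_lit 14) (.e false (nat_lit 1) (nat_lit 139) (nat_lit 7) (nat_lit 9) (.e false (nat_lit 1) (nat_lit 259) (nat_lit 2) (nat_lit 14) (.e true (nat_lit 1) (nat_lit 252) (nat_lit 2) (nat_lit 14) (.e true (nat_lit 1) (nat_lit 253) (nat_lit 2) (nat_lit 14) (.e true (nat_lit 3) (nat_lit 254) (nat_lit 2) (nat_lit 14) (.e false (nat_lit 3) (nat_lit 255) (nat_lit 2) (nat_lit 14) (.e true (nat_lit 3) (nat_lit 256) (nat_lit 2) (nat_lit 14) (.e false (nat_lit 3) (nat_lit 258) (nat_lit 2) (nat_lit 14) (.e true (nat_lit 3) (nat_lit 260) (nat_lit 2) (nat_lit 14) (.e true (nat_lit 3) (nat_lit 261) (nat_lit 2) (nat_lit 14) (.e true (nat_lit 3) (nat_lit 263) (nat_lit 2) (nat_lit 14) (.e true (nat_lit 2) (nat_lit 264) (nat_lit 2) (nat_lit 14) (.e false (nat_lit 3) (nat_lit 265) (nat_lit 2) (nat_lit 14) (.e true (nat_lit 3) (nat_lit 267) (nat_lit 2) (nat_lit 14) (.e true (nat_lit 2) (nat_lit 270) (nat_lit 2) (nat_lit 14) (.e false (nat_lit 2) (nat_lit 272) (nat_lit 2) (nat_lit 14) (.e true (nat_lit 2) (nat_lit 274) (nat_lit 2) (nat_lit 14) (.e false (nat_lit 1) (nat_lit 275) (nat_lit 2) (nat_lit 14) (.e true (nat_lit 1) (nat_lit 286) (nat_lit 2) (nat_lit 14) (.u (nat_lit 2) (.p (nat_lit 0) (nat_lit 1) (.n (nat_lit 1) (nat_lit 3) (.n (nat_lit 2) (nat_lit 3) (.p (nat_lit 3) (nat_lit 1) (.p (nat_lit 4) (nat_lit 4) (.n (nat_lit 5) (nat_lit 2) (.p (nat_lit 6) (nat_lit 4) (.n (nat_lit 7) (nat_lit 3) (.n (nat_lit 8) (nat_lit 1) (.p (nat_lit 9) (nat_lit 2) (.n (nat_lit 10) (nat_lit 1) (.n (nat_lit 11) (nat_lit 1) (.p (nat_lit 12) (nat_lit 1) (.n (nat_lit 13) (nat_lit 1) (.n (nat_lit 15) (nat_lit 1) (.n (nat_lit 16) (nat_lit 1) (.p (nat_lit 17) (nat_lit 1) (.p (nat_lit 18) (nat_lit 2) (.n (nat_lit 19) (nat_lit 2) (.p (nat_lit 21) (nat_lit 1) (.n (nat_lit 24) (nat_lit 3) (.n (nat_lit 25) (nat_lit 1) (.n (nat_lit 31) (nat_lit 1) (.p (nat_lit 34) (nat_lit 2) (.n (nat_lit 35) (nat_lit 1) (.n (nat_lit 38) (nat_lit 1) .z)))))))))))))))))))))))))) .nil)))))))))))))))))))))) .leaf) (nat_lit 69633) (nat_lit 209) (.p (nat_lit 106) (nat_lit 1) (.n (nat_lit 107) (nat_lit 1) (.n (nat_lit 108) (nat_lit 2) (.p (nat_lit 110) (nat_lit 3) (.n (nat_lit 112) (nat_lit 1) (.n (nat_lit 113) (nat_lit 3) (.p (nat_lit 114) (nat_lit 1) (.p (nat_lit 115) (nat_lit 3) (.n (nat_lit 116) (nat_lit 3) (.n (nat_lit 117) (nat_lit 1) (.p (nat_lit 119) (nat_lit 1) (.p (nat_lit 120) (nat_lit 3) (.p (nat_lit 121) (nat_lit 1) (.p (nat_lit 122) (nat_lit 3) (.p (nat_lit 123) (nat_lit 3) (.p (nat_lit 124) (nat_lit 1) (.n (nat_lit 126) (nat_lit 2) (.n (nat_lit 127) (nat_lit 2) (.n (nat_lit 130) (nat_lit 3) (.n (nat_lit 131) (nat_lit 3) .z)))))))))))))))))))) (.ct dC2b_c306 (nat_lit 1) (nat_lit 9) (.s false (nat_lit 1) (nat_lit 5) (nat_lit 1) (nat_lit 2) (nat_lit 4) true (nat_lit 1) true (nat_lit 6) true (nat_lit 5) true (nat_lit 9) true (nat_lit 8) (.s false (nat_lit 1) (nat_lit 6) (nat_lit 5) (nat_lit 1) (nat_lit 1) true (nat_lit 0) true (nat_lit 9) true (nat_lit 4) true (nat_lit 5) true (nat_lit 9) (.s true (nat_lit 1) (nat_lit 12) (nat_lit 1) (nat_lit 2) (nat_lit 1) true (nat_lit 6) true (nat_lit 9) true (nat_lit 0) true (nat_lit 9) true (nat_lit 8) (.e true (nat_lit 1) (nat_lit 16) (nat_lit 10) (nat_lit 1) (.e false (nat_lit 1) (nat_lit 60) (nat_lit 1) (nat_lit 9) (.e false (nat_lit 1) (nat_lit 61) (nat_lit 1) (nat_lit 9) (.e true (nat_lit 3) (nat_lit 63) (nat_lit 1) (nat_lit 9) (.e false (nat_lit 1) (nat_lit 64) (nat_lit 1) (nat_lit 9) (.e false (nat_lit 1) (nat_lit 65) (nat_lit 1) (nat_lit 9) (.e false (nat_lit 1) (nat_lit 67) (nat_lit 1) (nat_lit 9) (.e true (nat_lit 1) (nat_lit 52) (nat_lit 2) (nat_lit 8) (.e false (nat_lit 1) (nat_lit 54) (nat_lit 2) (nat_lit 8) (.e true (nat_lit 1) (nat_lit 56) (nat_lit 2) (nat_lit 8) (.e true (nat_lit 1) (nat_lit 57) (nat_lit 2) (nat_lit 8) (.e false (nat_lit 1) (nat_lit 66) (nat_lit 1) (nat_lit 9) (.e true (nat_lit 1) (nat_lit 62) (nat_lit 1) (nat_lit 9) (.e true (nat_lit 1) (nat_lit 72) (nat_lit 1) (nat_lit 9) (.e false (nat_lit 1) (nat_lit 27) (nat_lit 6) (nat_lit 4) (.e false (nat_lit 1) (nat_lit 55) (nat_lit 2) (nat_lit 8) (.u (nat_lit 2) (.n (nat_lit 14) (nat_lit 1) (.n (nat_lit 16) (nat_lit 1) .z)) .nil))))))))))))))))))))) .leaf) (nat_lit 69634) (nat_lit 234) (.p (nat_lit 140) (nat_lit 1) .z) .df (.nd (.nd .leaf (nat_lit 69638) (nat_lit 507) (.n (nat_lit 205) (nat_lit 2) (.n (nat_lit 206) (nat_lit 2) (.n (nat_lit 207) (nat_lit 1) (.n (nat_lit 208) (nat_lit 1) (.p (nat_lit 209) (nat_lit 1) (.p (nat_lit 210) (nat_lit 3) (.n (nat_lit 211) (nat_lit 3) (.n (nat_lit 212) (nat_lit 1) (.n (nat_lit 213) (nat_lit 2) (.n (nat_lit 214) (nat_lit 2) (.p (nat_lit 215) (nat_lit 3) (.n (nat_lit 216) (nat_lit 1) (.p (nat_lit 217) (nat_lit 3) (.n (nat_lit 218) (nat_lit 2) (.n (nat_lit 219) (nat_lit 3) (.p (nat_lit 220) (nat_lit 2) (.p (nat_lit 221) (nat_lit 1) (.p (nat_lit 222) (nat_lit 1) (.p (nat_lit 223) (nat_lit 1) (.p (nat_lit 225) (nat_lit 1) (.n (nat_lit 227) (nat_lit 3) (.n (nat_lit 229) (nat_lit 2) (.n (nat_lit 230) (nat_lit 3) (.p (nat_lit 231) (nat_lit 1) (.p (nat_lit 232) (nat_lit 3) (.n (nat_lit 234) (nat_lit 1) (.p (nat_lit 236) (nat_lit 1) (.n (nat_lit 242) (nat_lit 2) (.p (nat_lit 243) (nat_lit 1) (.n (nat_lit 244) (nat_lit 3) (.n (nat_lit 245) (nat_lit 1) (.p (nat_lit 246) (nat_lit 2) (.n (nat_lit 248) (nat_lit 3) (.n (nat_lit 249) (nat_lit 1) (.n (nat_lit 250) (nat_lit 3) (.n (nat_lit 251) (nat_lit 3) .z)))))))))))))))))))))))))))))))))))) (.ct dC2b_c307 (nat_lit 1) (nat_lit 8) (.s true (nat_lit 1) (nat_lit 13) (nat_lit 2) (nat_lit 1) (nat_lit 6) true (nat_lit 1) true (nat_lit 8) true (nat_lit 4) true (nat_lit 12) true (nat_lit 13) (.e false (nat_lit 1) (nat_lit 28) (nat_lit 18) (nat_lit 1) (.e true (nat_lit 3) (nat_lit 106) (nat_lit 2) (nat_lit 12) (.e true (nat_lit 1) (nat_lit 108) (nat_lit 2) (nat_lit 12) dC2b_i63))))) .leaf) (nat_lit 69639) (nat_lit 648) (.p (nat_lit 253) (nat_lit 1) (.n (nat_lit 254) (nat_lit 3) (.p (nat_lit 255) (nat_lit 2) (.n (nat_lit 256) (nat_lit 1) (.p (nat_lit 257) (nat_lit 3) (.p (nat_lit 258) (nat_lit 3) (.n (nat_lit 259) (nat_lit 1) (.p (nat_lit 260) (nat_lit 3) (.p (nat_lit 262) (nat_lit 2) (.p (nat_lit 263) (nat_lit 1) (.n (nat_lit 264) (nat_lit 3) (.n (nat_lit 265) (nat_lit 1) (.p (nat_lit 266) (nat_lit 3) (.p (nat_lit 267) (nat_lit 3) (.p (nat_lit 270) (nat_lit 2) (.p (nat_lit 271) (nat_lit 3) (.p (nat_lit 272) (nat_lit 1) (.p (nat_lit 273) (nat_lit 3) (.n (nat_lit 275) (nat_lit 1) (.n (nat_lit 276) (nat_lit 3) (.n (nat_lit 277) (nat_lit 2) (.p (nat_lit 284) (nat_lit 1) (.p (nat_lit 285) (nat_lit 1) (.n (nat_lit 286) (nat_lit 1) .z)))))))))))))))))))))))) (.ct dC2b_c292 (nat_lit 1) (nat_lit 6) (.s true (nat_lit 1) (nat_lit 35) (nat_lit 2) (nat_lit 1) (nat_lit 2) true (nat_lit 6) true (nat_lit 11) false (nat_lit 1) true (nat_lit 11) true (nat_lit 12) dC2b_i64)) .leaf)) (nat_lit 69650) (nat_lit 1085) (.n (nat_lit 335) (nat_lit 3) (.n (nat_lit 336) (nat_lit 3) (.p (nat_lit 337) (nat_lit 1) (.n (nat_lit 338) (nat_lit 2) (.p (nat_lit 339) (nat_lit 3) (.n (nat_lit 340) (nat_lit 3) (.n (nat_lit 341) (nat_lit 2) (.p (nat_lit 342) (nat_lit 3) (.n (nat_lit 343) (nat_lit 3) (.n (nat_lit 345) (nat_lit 3) (.n (nat_lit 346) (nat_lit 2) (.p (nat_lit 347) (nat_lit 1) (.n (nat_lit 349) (nat_lit 3) (.p (nat_lit 351) (nat_lit 3) (.n (nat_lit 352) (nat_lit 3) (.n (nat_lit 354) (nat_lit 3) (.n (nat_lit 355) (nat_lit 2) (.p (nat_lit 356) (nat_lit 2) (.n (nat_lit 357) (nat_lit 3) (.n (nat_lit 358) (nat_lit 3) (.n (nat_lit 359) (nat_lit 1) (.p (nat_lit 360) (nat_lit 2) (.n (nat_lit 362) (nat_lit 1) (.p (nat_lit 363) (nat_lit 2) (.n (nat_lit 364) (nat_lit 3) (.p (nat_lit 366) (nat_lit 2) (.n (nat_lit 367) (nat_lit 2) (.p (nat_lit 368) (nat_lit 1) (.p (nat_lit 369) (nat_lit 1) (.p (nat_lit 371) (nat_lit 3) (.p (nat_lit 372) (nat_lit 3) (.n (nat_lit 373) (nat_lit 1) (.p (nat_lit 374) (nat_lit 3) (.n (nat_lit 375) (nat_lit 3) (.p (nat_lit 379) (nat_lit 3) (.p (nat_lit 381) (nat_lit 2) (.p (nat_lit 382) (nat_lit 3) (.p (nat_lit 383) (nat_lit 2) (.p (nat_lit 388) (nat_lit 1) .z))))))))))))))))))))))))))))))))))))))) (.ct dC2b_c308 (nat_lit 1) (nat_lit 5) (.s false (nat_lit 1) (nat_lit 68) (nat_lit 1) (nat_lit 2) (nat_lit 2) true (nat_lit 12) true (nat_lit 16) false (nat_lit 5) true (nat_lit 17) true (nat_lit 16) (.e false (nat_lit 1) (nat_lit 140) (nat_lit 6) (nat_lit 12) (.e false (nat_lit 1) (nat_lit 205) (nat_lit 2) (nat_lit 16) (.e true (nat_lit 1) (nat_lit 206) (nat_lit 2) (nat_lit 16) (.e true (nat_lit 2) (nat_lit 207) (nat_lit 2) (nat_lit 16) (.e false (nat_lit 3) (nat_lit 209) (nat_lit 2) (nat_lit 16) (.e true (nat_lit 1) (nat_lit 211) (nat_lit 2) (nat_lit 16) (.e true (nat_lit 3) (nat_lit 212) (nat_lit 2) (nat_lit 16) (.e false (nat_lit 1) (nat_lit 213) (nat_lit 2) (nat_lit 16) (.e false (nat_lit 3) (nat_lit 214) (nat_lit 2) (nat_lit 16) (.e true (nat_lit 3) (nat_lit 215) (nat_lit 2) (nat_lit 16) (.e true (nat_lit 1) (nat_lit 216) (nat_lit 2) (nat_lit 16) (.e false (nat_lit 1) (nat_lit 218) (nat_lit 2) (nat_lit 16) (.e false (nat_lit 3) (nat_lit 219) (nat_lit 2) (nat_lit 16) (.e false (nat_lit 1) (nat_lit 220) (nat_lit 2) (nat_lit 16) (.e false (nat_lit 3) (nat_lit 221) (nat_lit 2) (nat_lit 16) (.e false (nat_lit 3) (nat_lit 222) (nat_lit 2) (nat_lit 16) (.e false (nat_lit 1) (nat_lit 223) (nat_lit 2) (nat_lit 16) (.e true (nat_lit 2) (nat_lit 225) (nat_lit 2) (nat_lit 16) (.e true (nat_lit 2) (nat_lit 226) (nat_lit 2) (nat_lit 16) (.e true (nat_lit 3) (nat_lit 229) (nat_lit 2) (nat_lit 16) (.e true (nat_lit 3) (nat_lit 230) (nat_lit 2) (nat_lit 16) (.e true (nat_lit 1) (nat_lit 253) (nat_lit 1) (nat_lit 17) dC2b_i65)))))))))))))))))))))))) (.nd (.nd (.nd .leaf (nat_lit 69651) (nat_lit 1089) (.n (nat_lit 335) (nat_lit 2) (.p (nat_lit 336) (nat_lit 3) (.n (nat_lit 337) (nat_lit 1) (.p (nat_lit 344) (nat_lit 3) (.n (nat_lit 345) (nat_lit 3) (.n (nat_lit 346) (nat_lit 1) (.n (nat_lit 347) (nat_lit 3) (.n (nat_lit 349) (nat_lit 3) (.n (nat_lit 350) (nat_lit 1) (.p (nat_lit 351) (nat_lit 2) (.p (nat_lit 352) (nat_lit 3) (.n (nat_lit 353) (nat_lit 2) (.n (nat_lit 354) (nat_lit 2) (.p (nat_lit 357) (nat_lit 2) (.p (nat_lit 358) (nat_lit 1) (.p (nat_lit 359) (nat_lit 2) (.n (nat_lit 361) (nat_lit 2) (.p (nat_lit 362) (nat_lit 2) (.p (nat_lit 363) (nat_lit 2) (.p (nat_lit 364) (nat_lit 1) (.n (nat_lit 366) (nat_lit 3) (.p (nat_lit 367) (nat_lit 3) (.p (nat_lit 368) (nat_lit 3) (.n (nat_lit 369) (nat_lit 2) (.p (nat_lit 370) (nat_lit 2) (.p (nat_lit 371) (nat_lit 1) (.n (nat_lit 372) (nat_lit 3) (.n (nat_lit 373) (nat_lit 3) (.n (nat_lit 374) (nat_lit 2) (.n (nat_lit 375) (nat_lit 1) (.p (nat_lit 379) (nat_lit 1) (.n (nat_lit 380) (nat_lit 2) (.n (nat_lit 381) (nat_lit 3) (.n (nat_lit 382) (nat_lit 1) (.n (nat_lit 383) (nat_lit 3) (.n (nat_lit 388) (nat_lit 2) .z)))))))))))))))))))))))))))))))))))) (.ct dC2b_c308 (nat_lit 1) (nat_lit 5) (.s false (nat_lit 1) (nat_lit 68) (nat_lit 2) (nat_lit 2) (nat_lit 1) true (nat_lit 12) true (nat_lit 17) false (nat_lit 5) true (nat_lit 16) true (nat_lit 16) (.e false (nat_lit 1) (nat_lit 140) (nat_lit 6) (nat_lit 12) (.e false (nat_lit 1) (nat_lit 260) (nat_lit 1) (nat_lit 17) (.e false (nat_lit 1) (nat_lit 205) (nat_lit 2) (nat_lit 16) (.e false (nat_lit 3) (nat_lit 206) (nat_lit 2) (nat_lit 16) (.e false (nat_lit 3) (nat_lit 207) (nat_lit 2) (nat_lit 16) (.e false (nat_lit 1) (nat_lit 208) (nat_lit 2) (nat_lit 16) (.e false (nat_lit 3) (nat_lit 209) (nat_lit 2) (nat_lit 16) (.e true (nat_lit 3) (nat_lit 210) (nat_lit 2) (nat_lit 16) (.e true (nat_lit 3) (nat_lit 211) (nat_lit 2) (nat_lit 16) (.e true (nat_lit 3) (nat_lit 212) (nat_lit 2) (nat_lit 16) (.e false (nat_lit 1) (nat_lit 213) (nat_lit 2) (nat_lit 16) (.e true (nat_lit 1) (nat_lit 214) (nat_lit 2) (nat_lit 16) (.e false (nat_lit 2) (nat_lit 216) (nat_lit 2) (nat_lit 16) dC2b_i66))))))))))))))) .leaf) (nat_lit 69652) (nat_lit 1255) (.n (nat_lit 397) (nat_lit 3) (.p (nat_lit 399) (nat_lit 2) (.p (nat_lit 400) (nat_lit 1) (.n (nat_lit 401) (nat_lit 3) (.p (nat_lit 402) (nat_lit 1) (.p (nat_lit 403) (nat_lit 2) (.p (nat_lit 404) (nat_lit 1) (.p (nat_lit 406) (nat_lit 3) (.n (nat_lit 407) (nat_lit 3) (.p (nat_lit 408) (nat_lit 1) (.p (nat_lit 409) (nat_lit 3) (.n (nat_lit 410) (nat_lit 3) (.p (nat_lit 411) (nat_lit 1) (.p (nat_lit 412) (nat_lit 3) (.p (nat_lit 413) (nat_lit 3) (.p (nat_lit 414) (nat_lit 1) (.p (nat_lit 415) (nat_lit 1) (.p (nat_lit 416) (nat_lit 2) (.p (nat_lit 420) (nat_lit 1) (.n (nat_lit 431) (nat_lit 2) (.n (nat_lit 432) (nat_lit 2) (.p (nat_lit 435) (nat_lit 1) .z)))))))))))))))))))))) (.ct dC2b_c293 (nat_lit 1) (nat_lit 3) (.s false (nat_lit 1) (nat_lit 68) (nat_lit 2) (nat_lit 2) (nat_lit 2) true (nat_lit 9) true (nat_lit 14) false (nat_lit 3) true (nat_lit 14) true (nat_lit 14) (.e false (nat_lit 1) (nat_lit 140) (nat_lit 7) (nat_lit 9) dC2b_i67))) .leaf) (nat_lit 70657) (nat_lit 181) (.p (nat_lit 125) (nat_lit 1) .z) .df (.nd (.nd .leaf (nat_lit 70658) (nat_lit 235) (.p (nat_lit 141) (nat_lit 1) .z) .df .leaf) (nat_lit 70662) (nat_lit 516) (.p (nat_lit 205) (nat_lit 1) (.n (nat_lit 208) (nat_lit 1) (.n (nat_lit 209) (nat_lit 3) (.n (nat_lit 210) (nat_lit 3) (.p (nat_lit 211) (nat_lit 3) (.p (nat_lit 212) (nat_lit 2) (.n (nat_lit 213) (nat_lit 3) (.p (nat_lit 214) (nat_lit 1) (.n (nat_lit 216) (nat_lit 3) (.n (nat_lit 217) (nat_lit 1) (.p (nat_lit 219) (nat_lit 2) (.p (nat_lit 220) (nat_lit 1) (.n (nat_lit 221) (nat_lit 3) (.p (nat_lit 222) (nat_lit 1) (.p (nat_lit 224) (nat_lit 1) (.n (nat_lit 225) (nat_lit 1) (.n (nat_lit 226) (nat_lit 1) (.p (nat_lit 227) (nat_lit 1) (.p (nat_lit 230) (nat_lit 2) (.n (nat_lit 231) (nat_lit 3) (.p (nat_lit 232) (nat_lit 3) (.p (nat_lit 234) (nat_lit 3) (.p (nat_lit 237) (nat_lit 1) (.n (nat_lit 242) (nat_lit 3) (.n (nat_lit 243) (nat_lit 1) (.p (nat_lit 244) (nat_lit 2) (.p (nat_lit 245) (nat_lit 3) (.n (nat_lit 246) (nat_lit 2) (.p (nat_lit 248) (nat_lit 2) (.p (nat_lit 249) (nat_lit 1) (.p (nat_lit 250) (nat_lit 2) .z))))))))))))))))))))))))))))))) (.ct dC2b_c307 (nat_lit 1) (nat_lit 8) (.s true (nat_lit 1) (nat_lit 38) (nat_lit 2) (nat_lit 1) (nat_lit 1) true (nat_lit 8) true (nat_lit 13) false (nat_lit 3) true (nat_lit 12) true (nat_lit 13) (.e false (nat_lit 2) (nat_lit 132) (nat_lit 1) (nat_lit 13) (.e true (nat_lit 2) (nat_lit 133) (nat_lit 1) (nat_lit 13) (.e true (nat_lit 1) (nat_lit 134) (nat_lit 1) (nat_lit 13) (.e false (nat_lit 2) (nat_lit 135) (nat_lit 1) (nat_lit 13) (.e false (nat_lit 3) (nat_lit 136) (nat_lit 1) (nat_lit 13) (.e true (nat_lit 2) (nat_lit 138) (nat_lit 1) (nat_lit 13) (.e false (nat_lit 3) (nat_lit 139) (nat_lit 1) (nat_lit 13) (.e true (nat_lit 3) (nat_lit 140) (nat_lit 1) (nat_lit 13) (.e true (nat_lit 3) (nat_lit 141) (nat_lit 1) (nat_lit 13) (.e false (nat_lit 1) (nat_lit 143) (nat_lit 1) (nat_lit 13) (.e false (nat_lit 1) (nat_lit 144) (nat_lit 1) (nat_lit 13) (.e true (nat_lit 2) (nat_lit 145) (nat_lit 1) (nat_lit 13) (.e true (nat_lit 1) (nat_lit 146) (nat_lit 1) (nat_lit 13) (.e false (nat_lit 3) (nat_lit 147) (nat_lit 1) (nat_lit 13) (.e false (nat_lit 1) (nat_lit 148) (nat_lit 1) (nat_lit 13) (.e true (nat_lit 2) (nat_lit 149) (nat_lit 1) (nat_lit 13) (.e false (nat_lit 2) (nat_lit 150) (nat_lit 1) (nat_lit 13) (.e false (nat_lit 2) (nat_lit 151) (nat_lit 1) (nat_lit 13) (.e false (nat_lit 3) (nat_lit 152) (nat_lit 1) (nat_lit 13) (.e false (nat_lit 2) (nat_lit 153) (nat_lit 1) (nat_lit 13) dC2b_i68)))))))))))))))))))))) .leaf))) (nat_lit 70663) (nat_lit 647) (.p (nat_lit 252) (nat_lit 1) (.n (nat_lit 253) (nat_lit 3) (.p (nat_lit 254) (nat_lit 3) (.p (nat_lit 255) (nat_lit 1) (.p (nat_lit 256) (nat_lit 1) (.p (nat_lit 257) (nat_lit 1) (.n (nat_lit 258) (nat_lit 2) (.n (nat_lit 259) (nat_lit 2) (.p (nat_lit 260) (nat_lit 2) (.p (nat_lit 261) (nat_lit 3) (.n (nat_lit 262) (nat_lit 1) (.p (nat_lit 263) (nat_lit 2) (.p (nat_lit 264) (nat_lit 2) (.n (nat_lit 265) (nat_lit 1) (.p (nat_lit 266) (nat_lit 1) (.n (nat_lit 267) (nat_lit 2) (.p (nat_lit 269) (nat_lit 3) (.p (nat_lit 270) (nat_lit 1) (.n (nat_lit 271) (nat_lit 3) (.p (nat_lit 272) (nat_lit 1) (.n (nat_lit 273) (nat_lit 2) (.n (nat_lit 274) (nat_lit 1) (.p (nat_lit 275) (nat_lit 1) (.p (nat_lit 276) (nat_lit 3) (.p (nat_lit 283) (nat_lit 3) (.n (nat_lit 284) (nat_lit 1) (.p (nat_lit 285) (nat_lit 3) (.p (nat_lit 286) (nat_lit 1) .z)))))))))))))))))))))))))))) (.ct dC2b_c292 (nat_lit 1) (nat_lit 6) (.s true (nat_lit 1) (nat_lit 38) (nat_lit 2) (nat_lit 1) (nat_lit 2) true (nat_lit 6) true (nat_lit 11) false (nat_lit 1) true (nat_lit 11) true (nat_lit 12) (.e true (nat_lit 1) (nat_lit 133) (nat_lit 2) (nat_lit 11) (.e true (nat_lit 3) (nat_lit 134) (nat_lit 2) (nat_lit 11) dC2b_i69)))) (.nd (.nd (.nd (.nd .leaf (nat_lit 70674) (nat_lit 1110) (.p (nat_lit 335) (nat_lit 3) (.p (nat_lit 336) (nat_lit 1) (.p (nat_lit 337) (nat_lit 2) (.p (nat_lit 338) (nat_lit 2) (.n (nat_lit 339) (nat_lit 3) (.p (nat_lit 340) (nat_lit 1) (.p (nat_lit 341) (nat_lit 3) (.p (nat_lit 342) (nat_lit 3) (.p (nat_lit 344) (nat_lit 1) (.n (nat_lit 345) (nat_lit 3) (.n (nat_lit 347) (nat_lit 1) (.p (nat_lit 349) (nat_lit 1) (.p (nat_lit 350) (nat_lit 1) (.n (nat_lit 351) (nat_lit 1) (.n (nat_lit 354) (nat_lit 3) (.p (nat_lit 355) (nat_lit 1) (.n (nat_lit 356) (nat_lit 3) (.p (nat_lit 357) (nat_lit 3) (.p (nat_lit 358) (nat_lit 2) (.n (nat_lit 359) (nat_lit 2) (.p (nat_lit 360) (nat_lit 3) (.p (nat_lit 361) (nat_lit 3) (.p (nat_lit 362) (nat_lit 1) (.p (nat_lit 363) (nat_lit 3) (.p (nat_lit 364) (nat_lit 2) (.n (nat_lit 366) (nat_lit 1) (.n (nat_lit 367) (nat_lit 1) (.p (nat_lit 368) (nat_lit 3) (.p (nat_lit 369) (nat_lit 1) (.n (nat_lit 370) (nat_lit 3) (.p (nat_lit 371) (nat_lit 3) (.n (nat_lit 372) (nat_lit 2) (.n (nat_lit 373) (nat_lit 3) (.n (nat_lit 374) (nat_lit 3) (.p (nat_lit 380) (nat_lit 1) (.p (nat_lit 381) (nat_lit 3) (.p (nat_lit 382) (nat_lit 3) (.p (nat_lit 383) (nat_lit 2) (.p (nat_lit 389) (nat_lit 1) .z))))))))))))))))))))))))))))))))))))))) (.ct dC2b_c308 (nat_lit 1) (nat_lit 5) (.s true (nat_lit 1) (nat_lit 18) (nat_lit 0) (nat_lit 1) (nat_lit 18) true (nat_lit 0) true (nat_lit 5) true (nat_lit 5) true (nat_lit 18) true (nat_lit 17) (.e true (nat_lit 1) (nat_lit 41) (nat_lit 38) (nat_lit 0) (.e true (nat_lit 1) (nat_lit 61) (nat_lit 18) (nat_lit 5) (.e false (nat_lit 1) (nat_lit 63) (nat_lit 18) (nat_lit 5) (.e true (nat_lit 1) (nat_lit 65) (nat_lit 18) (nat_lit 5) (.e true (nat_lit 1) (nat_lit 66) (nat_lit 18) (nat_lit 5) (.e false (nat_lit 1) (nat_lit 72) (nat_lit 18) (nat_lit 5) (.e false (nat_lit 3) (nat_lit 289) (nat_lit 0) (nat_lit 18) (.e false (nat_lit 2) (nat_lit 290) (nat_lit 0) (nat_lit 18) (.e true (nat_lit 1) (nat_lit 291) (nat_lit 0) (nat_lit 18) (.e false (nat_lit 1) (nat_lit 292) (nat_lit 0) (nat_lit 18) (.e false (nat_lit 3) (nat_lit 293) (nat_lit 0) (nat_lit 18) (.e false (nat_lit 2) (nat_lit 294) (nat_lit 0) (nat_lit 18) (.e true (nat_lit 1) (nat_lit 295) (nat_lit 0) (nat_lit 18) (.e true (nat_lit 2) (nat_lit 297) (nat_lit 0) (nat_lit 18) (.e false (nat_lit 1) (nat_lit 299) (nat_lit 0) (nat_lit 18) (.e true (nat_lit 1) (nat_lit 301) (nat_lit 0) (nat_lit 18) (.e false (nat_lit 2) (nat_lit 303) (nat_lit 0) (nat_lit 18) (.e true (nat_lit 3) (nat_lit 304) (nat_lit 0) (nat_lit 18) (.e false (nat_lit 2) (nat_lit 252) (nat_lit 1) (nat_lit 17) (.e true (nat_lit 3) (nat_lit 256) (nat_lit 1) (nat_lit 17) (.e true (nat_lit 1) (nat_lit 258) (nat_lit 1) (nat_lit 17) (.e true (nat_lit 3) (nat_lit 259) (nat_lit 1) (nat_lit 17) (.e false (nat_lit 3) (nat_lit 260) (nat_lit 1) (nat_lit 17) dC2b_i70))))))))))))))))))))))))) .leaf) (nat_lit 70675) (nat_lit 1115) (.p (nat_lit 336) (nat_lit 3) (.n (nat_lit 337) (nat_lit 1) (.n (nat_lit 338) (nat_lit 2) (.p (nat_lit 339) (nat_lit 3) (.p (nat_lit 340) (nat_lit 2) (.p (nat_lit 341) (nat_lit 2) (.n (nat_lit 343) (nat_lit 3) (.p (nat_lit 344) (nat_lit 2) (.p (nat_lit 345) (nat_lit 3) (.n (nat_lit 346) (nat_lit 1) (.n (nat_lit 349) (nat_lit 2) (.p (nat_lit 350) (nat_lit 3) (.n (nat_lit 351) (nat_lit 2) (.p (nat_lit 353) (nat_lit 2) (.n (nat_lit 354) (nat_lit 2) (.p (nat_lit 355) (nat_lit 2) (.p (nat_lit 356) (nat_lit 2) (.n (nat_lit 357) (nat_lit 2) (.p (nat_lit 358) (nat_lit 3) (.p (nat_lit 359) (nat_lit 2) (.p (nat_lit 360) (nat_lit 2) (.p (nat_lit 361) (nat_lit 3) (.p (nat_lit 363) (nat_lit 2) (.p (nat_lit 364) (nat_lit 2) (.p (nat_lit 366) (nat_lit 3) (.n (nat_lit 367) (nat_lit 1) (.p (nat_lit 368) (nat_lit 3) (.n (nat_lit 370) (nat_lit 3) (.p (nat_lit 371) (nat_lit 3) (.n (nat_lit 373) (nat_lit 3) (.n (nat_lit 374) (nat_lit 3) (.n (nat_lit 380) (nat_lit 1) (.n (nat_lit 381) (nat_lit 3) (.n (nat_lit 382) (nat_lit 3) (.n (nat_lit 383) (nat_lit 2) (.n (nat_lit 389) (nat_lit 2) .z)))))))))))))))))))))))))))))))))))) (.ct dC2b_c308 (nat_lit 1) (nat_lit 5) (.s false (nat_lit 1) (nat_lit 69) (nat_lit 2) (nat_lit 2) (nat_lit 1) true (nat_lit 12) true (nat_lit 17) false (nat_lit 5) true (nat_lit 16) true (nat_lit 16) (.e false (nat_lit 1) (nat_lit 141) (nat_lit 6) (nat_lit 12) (.e false (nat_lit 1) (nat_lit 261) (nat_lit 1) (nat_lit 17) (.e true (nat_lit 1) (nat_lit 205) (nat_lit 2) (nat_lit 16) (.e false (nat_lit 1) (nat_lit 208) (nat_lit 2) (nat_lit 16) (.e false (nat_lit 3) (nat_lit 209) (nat_lit 2) (nat_lit 16) (.e false (nat_lit 3) (nat_lit 210) (nat_lit 2) (nat_lit 16) (.e true (nat_lit 3) (nat_lit 211) (nat_lit 2) (nat_lit 16) (.e true (nat_lit 2) (nat_lit 212) (nat_lit 2) (nat_lit 16) (.e false (nat_lit 3) (nat_lit 213) (nat_lit 2) (nat_lit 16) dC2b_i71))))))))))) .leaf) (nat_lit 70676) (nat_lit 1257) (.n (nat_lit 397) (nat_lit 2) (.n (nat_lit 398) (nat_lit 1) (.n (nat_lit 399) (nat_lit 2) (.p (nat_lit 401) (nat_lit 1) (.p (nat_lit 402) (nat_lit 1) (.n (nat_lit 403) (nat_lit 3) (.n (nat_lit 404) (nat_lit 2) (.p (nat_lit 405) (nat_lit 2) (.n (nat_lit 406) (nat_lit 3) (.n (nat_lit 407) (nat_lit 1) (.p (nat_lit 409) (nat_lit 1) (.n (nat_lit 410) (nat_lit 2) (.p (nat_lit 411) (nat_lit 2) (.p (nat_lit 412) (nat_lit 2) (.p (nat_lit 413) (nat_lit 2) (.p (nat_lit 416) (nat_lit 3) (.p (nat_lit 420) (nat_lit 1) (.p (nat_lit 421) (nat_lit 2) (.n (nat_lit 431) (nat_lit 1) (.p (nat_lit 432) (nat_lit 1) .z)))))))))))))))))))) (.ct dC2b_c293 (nat_lit 1) (nat_lit 3) (.s false (nat_lit 1) (nat_lit 69) (nat_lit 2) (nat_lit 2) (nat_lit 2) true (nat_lit 9) true (nat_lit 14) false (nat_lit 3) true (nat_lit 14) true (nat_lit 14) (.e false (nat_lit 1) (nat_lit 141) (nat_lit 7) (nat_lit 9) (.e true (nat_lit 3) (nat_lit 261) (nat_lit 2) (nat_lit 14) (.e true (nat_lit 1) (nat_lit 252) (nat_lit 2) (nat_lit 14) (.e false (nat_lit 3) (nat_lit 253) (nat_lit 2) (nat_lit 14) (.e true (nat_lit 3) (nat_lit 254) (nat_lit 2) (nat_lit 14) dC2b_i72))))))) (.nd (.nd .leaf (nat_lit 71681) (nat_lit 220) (.p (nat_lit 106) (nat_lit 3) (.n (nat_lit 109) (nat_lit 2) (.p (nat_lit 110) (nat_lit 1) (.n (nat_lit 112) (nat_lit 1) (.p (nat_lit 114) (nat_lit 1) (.p (nat_lit 116) (nat_lit 1) (.p (nat_lit 117) (nat_lit 2) (.n (nat_lit 118) (nat_lit 2) (.n (nat_lit 119) (nat_lit 2) (.p (nat_lit 120) (nat_lit 3) (.p (nat_lit 121) (nat_lit 1) (.p (nat_lit 122) (nat_lit 3) (.n (nat_lit 123) (nat_lit 3) (.p (nat_lit 125) (nat_lit 2) (.p (nat_lit 127) (nat_lit 1) (.n (nat_lit 129) (nat_lit 1) (.n (nat_lit 130) (nat_lit 1) .z))))))))))))))))) (.ct dC2b_c306 (nat_lit 1) (nat_lit 9) (.s false (nat_lit 1) (nat_lit 9) (nat_lit 1) (nat_lit 2) (nat_lit 2) true (nat_lit 4) true (nat_lit 8) true (nat_lit 2) true (nat_lit 9) true (nat_lit 8) (.e false (nat_lit 1) (nat_lit 25) (nat_lit 6) (nat_lit 4) (.e false (nat_lit 1) (nat_lit 50) (nat_lit 2) (nat_lit 8) (.e false (nat_lit 1) (nat_lit 18) (nat_lit 9) (nat_lit 2) (.e true (nat_lit 2) (nat_lit 60) (nat_lit 1) (nat_lit 9) (.e true (nat_lit 1) (nat_lit 62) (nat_lit 1) (nat_lit 9) (.e false (nat_lit 2) (nat_lit 64) (nat_lit 1) (nat_lit 9) (.e true (nat_lit 2) (nat_lit 65) (nat_lit 1) (nat_lit 9) (.e false (nat_lit 2) (nat_lit 66) (nat_lit 1) (nat_lit 9) (.e false (nat_lit 1) (nat_lit 67) (nat_lit 1) (nat_lit 9) (.e true (nat_lit 1) (nat_lit 68) (nat_lit 1) (nat_lit 9) (.e true (nat_lit 2) (nat_lit 71) (nat_lit 1) (nat_lit 9) (.e true (nat_lit 2) (nat_lit 72) (nat_lit 1) (nat_lit 9) (.e true (nat_lit 1) (nat_lit 73) (nat_lit 1) (nat_lit 9) (.e true (nat_lit 1) (nat_lit 53) (nat_lit 2) (nat_lit 8) (.u (nat_lit 2) (.p (nat_lit 1) (nat_lit 1) (.p (nat_lit 2) (nat_lit 1) (.p (nat_lit 3) (nat_lit 1) (.n (nat_lit 4) (nat_lit 1) (.p (nat_lit 6) (nat_lit 1) (.n (nat_lit 8) (nat_lit 1) (.p (nat_lit 10) (nat_lit 1) (.n (nat_lit 11) (nat_lit 1) (.p (nat_lit 12) (nat_lit 1) (.n (nat_lit 16) (nat_lit 2) .z)))))))))) .nil))))))))))))))))) .leaf) (nat_lit 71682) (nat_lit 236) (.p (nat_lit 142) (nat_lit 1) .z) .df .leaf)) (nat_lit 71686) (nat_lit 559) (.n (nat_lit 205) (nat_lit 3) (.p (nat_lit 206) (nat_lit 3) (.p (nat_lit 208) (nat_lit 1) (.n (nat_lit 209) (nat_lit 2) (.p (nat_lit 210) (nat_lit 1) (.n (nat_lit 211) (nat_lit 3) (.p (nat_lit 212) (nat_lit 3) (.p (nat_lit 213) (nat_lit 1) (.p (nat_lit 214) (nat_lit 3) (.n (nat_lit 215) (nat_lit 3) (.p (nat_lit 216) (nat_lit 3) (.n (nat_lit 217) (nat_lit 3) (.n (nat_lit 219) (nat_lit 3) (.n (nat_lit 220) (nat_lit 1) (.n (nat_lit 221) (nat_lit 3) (.n (nat_lit 222) (nat_lit 3) (.p (nat_lit 224) (nat_lit 2) (.p (nat_lit 225) (nat_lit 1) (.p (nat_lit 226) (nat_lit 1) (.p (nat_lit 227) (nat_lit 2) (.p (nat_lit 228) (nat_lit 2) (.p (nat_lit 229) (nat_lit 1) (.n (nat_lit 232) (nat_lit 1) (.p (nat_lit 234) (nat_lit 2) (.n (nat_lit 235) (nat_lit 2) (.p (nat_lit 237) (nat_lit 2) (.p (nat_lit 242) (nat_lit 2) (.n (nat_lit 244) (nat_lit 1) (.p (nat_lit 245) (nat_lit 1) (.p (nat_lit 246) (nat_lit 2) (.n (nat_lit 247) (nat_lit 1) (.p (nat_lit 248) (nat_lit 1) (.n (nat_lit 249) (nat_lit 2) (.n (nat_lit 250) (nat_lit 2) (.p (nat_lit 251) (nat_lit 1) .z))))))))))))))))))))))))))))))))))) (.ct dC2b_c307 (nat_lit 1) (nat_lit 8) (.s false (nat_lit 1) (nat_lit 9) (nat_lit 2) (nat_lit 7) (nat_lit 1) true (nat_lit 8) true (nat_lit 13) true (nat_lit 6) true (nat_lit 12) true (nat_lit 7) dC2b_i73)) (.nd (.nd (.nd .leaf (nat_lit 71687) (nat_lit 684) (.n (nat_lit 252) (nat_lit 1) (.p (nat_lit 253) (nat_lit 2) (.n (nat_lit 254) (nat_lit 3) (.p (nat_lit 255) (nat_lit 2) (.n (nat_lit 257) (nat_lit 2) (.p (nat_lit 258) (nat_lit 1) (.n (nat_lit 259) (nat_lit 2) (.p (nat_lit 260) (nat_lit 2) (.p (nat_lit 261) (nat_lit 1) (.n (nat_lit 262) (nat_lit 1) (.n (nat_lit 263) (nat_lit 1) (.n (nat_lit 264) (nat_lit 3) (.p (nat_lit 265) (nat_lit 1) (.n (nat_lit 266) (nat_lit 3) (.n (nat_lit 267) (nat_lit 1) (.n (nat_lit 269) (nat_lit 3) (.n (nat_lit 270) (nat_lit 3) (.p (nat_lit 271) (nat_lit 3) (.p (nat_lit 272) (nat_lit 3) (.p (nat_lit 273) (nat_lit 3) (.n (nat_lit 276) (nat_lit 3) (.n (nat_lit 277) (nat_lit 1) (.n (nat_lit 283) (nat_lit 2) (.p (nat_lit 284) (nat_lit 1) (.p (nat_lit 285) (nat_lit 2) .z))))))))))))))))))))))))) (.ct dC2b_c292 (nat_lit 1) (nat_lit 6) (.s false (nat_lit 1) (nat_lit 14) (nat_lit 0) (nat_lit 7) (nat_lit 2) true (nat_lit 8) true (nat_lit 11) true (nat_lit 3) true (nat_lit 13) true (nat_lit 6) (.e false (nat_lit 1) (nat_lit 96) (nat_lit 5) (nat_lit 8) dC2b_i74))) .leaf) (nat_lit 71698) (nat_lit 1114) (.n (nat_lit 336) (nat_lit 1) (.n (nat_lit 337) (nat_lit 2) (.p (nat_lit 338) (nat_lit 3) (.n (nat_lit 339) (nat_lit 3) (.n (nat_lit 340) (nat_lit 3) (.p (nat_lit 341) (nat_lit 2) (.n (nat_lit 343) (nat_lit 3) (.n (nat_lit 344) (nat_lit 1) (.p (nat_lit 345) (nat_lit 1) (.p (nat_lit 346) (nat_lit 2) (.n (nat_lit 347) (nat_lit 2) (.p (nat_lit 350) (nat_lit 1) (.p (nat_lit 351) (nat_lit 2) (.n (nat_lit 352) (nat_lit 2) (.p (nat_lit 353) (nat_lit 3) (.n (nat_lit 354) (nat_lit 2) (.n (nat_lit 355) (nat_lit 2) (.p (nat_lit 359) (nat_lit 1) (.p (nat_lit 360) (nat_lit 3) (.p (nat_lit 361) (nat_lit 1) (.n (nat_lit 362) (nat_lit 3) (.p (nat_lit 363) (nat_lit 2) (.p (nat_lit 364) (nat_lit 3) (.p (nat_lit 367) (nat_lit 2) (.n (nat_lit 368) (nat_lit 1) (.p (nat_lit 369) (nat_lit 2) (.n (nat_lit 370) (nat_lit 3) (.n (nat_lit 371) (nat_lit 2) (.n (nat_lit 372) (nat_lit 3) (.p (nat_lit 373) (nat_lit 1) (.p (nat_lit 374) (nat_lit 1) (.n (nat_lit 375) (nat_lit 2) (.p (nat_lit 377) (nat_lit 2) (.n (nat_lit 380) (nat_lit 1) (.n (nat_lit 381) (nat_lit 3) (.n (nat_lit 382) (nat_lit 2) (.p (nat_lit 383) (nat_lit 1) (.p (nat_lit 389) (nat_lit 2) .z)))))))))))))))))))))))))))))))))))))) (.ct dC2b_c308 (nat_lit 1) (nat_lit 5) (.s false (nat_lit 1) (nat_lit 18) (nat_lit 2) (nat_lit 2) (nat_lit 9) true (nat_lit 2) true (nat_lit 10) true (nat_lit 5) true (nat_lit 16) true (nat_lit 16) (.e true (nat_lit 1) (nat_lit 45) (nat_lit 25) (nat_lit 2) dC2b_i75))) .leaf) (nat_lit 71699) (nat_lit 1121) (.n (nat_lit 335) (nat_lit 3) (.n (nat_lit 336) (nat_lit 3) (.p (nat_lit 337) (nat_lit 1) (.p (nat_lit 338) (nat_lit 1) (.n (nat_lit 339) (nat_lit 1) (.n (nat_lit 342) (nat_lit 1) (.p (nat_lit 343) (nat_lit 2) (.n (nat_lit 344) (nat_lit 2) (.p (nat_lit 345) (nat_lit 1) (.n (nat_lit 346) (nat_lit 2) (.p (nat_lit 349) (nat_lit 1) (.n (nat_lit 351) (nat_lit 1) (.p (nat_lit 352) (nat_lit 1) (.n (nat_lit 353) (nat_lit 3) (.n (nat_lit 354) (nat_lit 2) (.p (nat_lit 355) (nat_lit 3) (.p (nat_lit 358) (nat_lit 3) (.n (nat_lit 359) (nat_lit 1) (.p (nat_lit 360) (nat_lit 2) (.n (nat_lit 361) (nat_lit 1) (.p (nat_lit 362) (nat_lit 3) (.n (nat_lit 363) (nat_lit 3) (.p (nat_lit 364) (nat_lit 2) (.n (nat_lit 366) (nat_lit 1) (.n (nat_lit 367) (nat_lit 1) (.n (nat_lit 368) (nat_lit 1) (.n (nat_lit 369) (nat_lit 1) (.n (nat_lit 370) (nat_lit 3) (.p (nat_lit 371) (nat_lit 3) (.p (nat_lit 372) (nat_lit 2) (.p (nat_lit 373) (nat_lit 1) (.p (nat_lit 374) (nat_lit 1) (.n (nat_lit 375) (nat_lit 3) (.p (nat_lit 377) (nat_lit 3) (.p (nat_lit 380) (nat_lit 2) (.n (nat_lit 381) (nat_lit 1) (.p (nat_lit 382) (nat_lit 2) (.n (nat_lit 383) (nat_lit 1) (.p (nat_lit 389) (nat_lit 3) .z))))))))))))))))))))))))))))))))))))))) (.ct dC2b_c308 (nat_lit 1) (nat_lit 5) (.s false (nat_lit 1) (nat_lit 19) (nat_lit 2) (nat_lit 2) (nat_lit 9) true (nat_lit 2) true (nat_lit 10) true (nat_lit 5) true (nat_lit 16) true (nat_lit 16) (.e true (nat_lit 1) (nat_lit 46) (nat_lit 25) (nat_lit 2) dC2b_i76))) (.nd .leaf (nat_lit 71700) (nat_lit 1297) (.n (nat_lit 397) (nat_lit 2) (.p (nat_lit 398) (nat_lit 2) (.n (nat_lit 399) (nat_lit 2) (.n (nat_lit 401) (nat_lit 1) (.n (nat_lit 402) (nat_lit 3) (.p (nat_lit 403) (nat_lit 3) (.p (nat_lit 404) (nat_lit 2) (.n (nat_lit 405) (nat_lit 2) (.p (nat_lit 406) (nat_lit 3) (.p (nat_lit 407) (nat_lit 2) (.n (nat_lit 409) (nat_lit 2) (.n (nat_lit 410) (nat_lit 2) (.p (nat_lit 412) (nat_lit 1) (.p (nat_lit 413) (nat_lit 1) (.p (nat_lit 414) (nat_lit 2) (.n (nat_lit 415) (nat_lit 1) (.p (nat_lit 416) (nat_lit 1) (.p (nat_lit 418) (nat_lit 2) (.p (nat_lit 420) (nat_lit 3) (.p (nat_lit 421) (nat_lit 1) (.p (nat_lit 431) (nat_lit 2) (.n (nat_lit 432) (nat_lit 1) (.n (nat_lit 435) (nat_lit 3) .z))))))))))))))))))))))) (.ct dC2b_c293 (nat_lit 1) (nat_lit 3) (.s false (nat_lit 1) (nat_lit 20) (nat_lit 2) (nat_lit 2) (nat_lit 9) true (nat_lit 2) true (nat_lit 8) true (nat_lit 3) true (nat_lit 14) true (nat_lit 14) (.e true (nat_lit 1) (nat_lit 48) (nat_lit 25) (nat_lit 2) dC2b_i77))) .leaf)))) (nat_lit 72705) (nat_lit 216) (.n (nat_lit 106) (nat_lit 2) (.n (nat_lit 107) (nat_lit 2) (.n (nat_lit 108) (nat_lit 2) (.n (nat_lit 109) (nat_lit 2) (.p (nat_lit 110) (nat_lit 1) (.n (nat_lit 112) (nat_lit 3) (.p (nat_lit 113) (nat_lit 2) (.p (nat_lit 114) (nat_lit 3) (.n (nat_lit 115) (nat_lit 2) (.n (nat_lit 116) (nat_lit 3) (.p (nat_lit 117) (nat_lit 2) (.n (nat_lit 118) (nat_lit 2) (.n (nat_lit 120) (nat_lit 3) (.p (nat_lit 122) (nat_lit 3) (.p (nat_lit 123) (nat_lit 1) (.n (nat_lit 125) (nat_lit 1) (.p (nat_lit 130) (nat_lit 2) (.p (nat_lit 131) (nat_lit 2) .z)))))))))))))))))) (.ct dC2b_c306 (nat_lit 1) (nat_lit 9) (.s true (nat_lit 1) (nat_lit 15) (nat_lit 2) (nat_lit 0) (nat_lit 1) true (nat_lit 4) true (nat_lit 9) false (nat_lit 0) true (nat_lit 8) true (nat_lit 10) (.e false (nat_lit 1) (nat_lit 29) (nat_lit 6) (nat_lit 4) (.e false (nat_lit 1) (nat_lit 15) (nat_lit 12) (nat_lit 0) (.e true (nat_lit 1) (nat_lit 50) (nat_lit 2) (nat_lit 8) (.e true (nat_lit 1) (nat_lit 51) (nat_lit 2) (nat_lit 8) (.e true (nat_lit 1) (nat_lit 52) (nat_lit 2) (nat_lit 8) (.e false (nat_lit 1) (nat_lit 54) (nat_lit 2) (nat_lit 8) (.e false (nat_lit 1) (nat_lit 59) (nat_lit 2) (nat_lit 8) (.e true (nat_lit 1) (nat_lit 76) (nat_lit 0) (nat_lit 10) (.u (nat_lit 2) (.p (nat_lit 1) (nat_lit 1) (.p (nat_lit 2) (nat_lit 1) (.n (nat_lit 4) (nat_lit 1) (.p (nat_lit 10) (nat_lit 1) (.n (nat_lit 13) (nat_lit 1) (.n (nat_lit 17) (nat_lit 1) (.p (nat_lit 20) (nat_lit 1) (.p (nat_lit 21) (nat_lit 1) (.p (nat_lit 25) (nat_lit 1) .z))))))))) .nil))))))))))) (.nd (.nd (.nd (.nd (.nd .leaf (nat_lit 72706) (nat_lit 237) (.p (nat_lit 143) (nat_lit 1) .z) .df .leaf) (nat_lit 72710) (nat_lit 526) (.p (nat_lit 206) (nat_lit 2) (.n (nat_lit 207) (nat_lit 1) (.p (nat_lit 208) (nat_lit 1) (.p (nat_lit 209) (nat_lit 3) (.n (nat_lit 211) (nat_lit 1) (.n (nat_lit 212) (nat_lit 1) (.p (nat_lit 213) (nat_lit 1) (.p (nat_lit 214) (nat_lit 1) (.p (nat_lit 215) (nat_lit 1) (.p (nat_lit 216) (nat_lit 2) (.p (nat_lit 217) (nat_lit 2) (.p (nat_lit 218) (nat_lit 2) (.p (nat_lit 219) (nat_lit 1) (.n (nat_lit 220) (nat_lit 1) (.p (nat_lit 222) (nat_lit 2) (.n (nat_lit 224) (nat_lit 1) (.n (nat_lit 225) (nat_lit 3) (.n (nat_lit 226) (nat_lit 1) (.n (nat_lit 227) (nat_lit 2) (.n (nat_lit 228) (nat_lit 1) (.n (nat_lit 229) (nat_lit 3) (.p (nat_lit 230) (nat_lit 3) (.n (nat_lit 231) (nat_lit 1) (.n (nat_lit 232) (nat_lit 1) (.p (nat_lit 235) (nat_lit 1) (.n (nat_lit 237) (nat_lit 1) (.n (nat_lit 242) (nat_lit 3) (.p (nat_lit 243) (nat_lit 2) (.p (nat_lit 245) (nat_lit 3) (.p (nat_lit 246) (nat_lit 1) (.n (nat_lit 248) (nat_lit 3) (.n (nat_lit 251) (nat_lit 3) .z)))))))))))))))))))))))))))))))) (.ct dC2b_c307 (nat_lit 1) (nat_lit 8) (.s true (nat_lit 3) (nat_lit 16) (nat_lit 6) (nat_lit 1) (nat_lit 1) true (nat_lit 3) true (nat_lit 13) true (nat_lit 2) true (nat_lit 8) true (nat_lit 13) (.e false (nat_lit 3) (nat_lit 36) (nat_lit 15) (nat_lit 3) (.e true (nat_lit 2) (nat_lit 132) (nat_lit 1) (nat_lit 13) (.e false (nat_lit 1) (nat_lit 133) (nat_lit 1) (nat_lit 13) (.e false (nat_lit 1) (nat_lit 135) (nat_lit 1) (nat_lit 13) (.e false (nat_lit 1) (nat_lit 138) (nat_lit 1) (nat_lit 13) dC2b_i78))))))) .leaf) (nat_lit 72711) (nat_lit 625) (.p (nat_lit 252) (nat_lit 2) (.n (nat_lit 253) (nat_lit 2) (.p (nat_lit 254) (nat_lit 3) (.p (nat_lit 255) (nat_lit 3) (.p (nat_lit 256) (nat_lit 2) (.p (nat_lit 257) (nat_lit 3) (.n (nat_lit 258) (nat_lit 2) (.p (nat_lit 259) (nat_lit 1) (.n (nat_lit 260) (nat_lit 1) (.n (nat_lit 261) (nat_lit 1) (.p (nat_lit 262) (nat_lit 3) (.p (nat_lit 264) (nat_lit 3) (.n (nat_lit 265) (nat_lit 1) (.n (nat_lit 266) (nat_lit 2) (.p (nat_lit 267) (nat_lit 2) (.p (nat_lit 269) (nat_lit 2) (.n (nat_lit 270) (nat_lit 1) (.n (nat_lit 272) (nat_lit 3) (.p (nat_lit 274) (nat_lit 2) (.n (nat_lit 275) (nat_lit 3) (.p (nat_lit 277) (nat_lit 1) (.n (nat_lit 283) (nat_lit 1) (.p (nat_lit 284) (nat_lit 1) (.p (nat_lit 285) (nat_lit 2) (.n (nat_lit 286) (nat_lit 1) .z))))))))))))))))))))))))) (.ct dC2b_c292 (nat_lit 1) (nat_lit 6) (.s true (nat_lit 2) (nat_lit 7) (nat_lit 5) (nat_lit 4) (nat_lit 2) true (nat_lit 2) true (nat_lit 11) true (nat_lit 6) true (nat_lit 8) true (nat_lit 9) (.s false (nat_lit 2) (nat_lit 14) (nat_lit 2) (nat_lit 7) (nat_lit 0) true (nat_lit 8) true (nat_lit 13) true (nat_lit 3) true (nat_lit 11) true (nat_lit 6) (.s false (nat_lit 2) (nat_lit 20) (nat_lit 4) (nat_lit 0) (nat_lit 2) true (nat_lit 3) true (nat_lit 11) true (nat_lit 0) true (nat_lit 9) true (nat_lit 13) (.s true (nat_lit 3) (nat_lit 40) (nat_lit 2) (nat_lit 0) (nat_lit 2) true (nat_lit 6) true (nat_lit 11) false (nat_lit 2) true (nat_lit 11) true (nat_lit 13) (.s false (nat_lit 3) (nat_lit 41) (nat_lit 2) (nat_lit 0) (nat_lit 2) true (nat_lit 6) true (nat_lit 11) false (nat_lit 2) true (nat_lit 11) true (nat_lit 13) (.e false (nat_lit 3) (nat_lit 132) (nat_lit 2) (nat_lit 11) (.e true (nat_lit 2) (nat_lit 134) (nat_lit 2) (nat_lit 11) (.e false (nat_lit 1) (nat_lit 137) (nat_lit 2) (nat_lit 11) (.e false (nat_lit 2) (nat_lit 138) (nat_lit 2) (nat_lit 11) (.e false (nat_lit 1) (nat_lit 139) (nat_lit 2) (nat_lit 11) dC2b_i79))))))))))) (.nd (.nd .leaf (nat_lit 72722) (nat_lit 1109) (.p (nat_lit 335) (nat_lit 2) (.p (nat_lit 336) (nat_lit 1) (.p (nat_lit 337) (nat_lit 2) (.n (nat_lit 338) (nat_lit 2) (.n (nat_lit 339) (nat_lit 3) (.p (nat_lit 340) (nat_lit 3) (.p (nat_lit 341) (nat_lit 2) (.n (nat_lit 342) (nat_lit 1) (.n (nat_lit 343) (nat_lit 1) (.n (nat_lit 344) (nat_lit 1) (.p (nat_lit 345) (nat_lit 3) (.n (nat_lit 346) (nat_lit 3) (.n (nat_lit 347) (nat_lit 1) (.p (nat_lit 349) (nat_lit 1) (.p (nat_lit 351) (nat_lit 3) (.n (nat_lit 352) (nat_lit 1) (.p (nat_lit 354) (nat_lit 1) (.p (nat_lit 355) (nat_lit 3) (.n (nat_lit 356) (nat_lit 2) (.p (nat_lit 357) (nat_lit 2) (.p (nat_lit 358) (nat_lit 1) (.n (nat_lit 359) (nat_lit 1) (.p (nat_lit 360) (nat_lit 2) (.n (nat_lit 362) (nat_lit 1) (.n (nat_lit 366) (nat_lit 1) (.n (nat_lit 368) (nat_lit 3) (.p (nat_lit 369) (nat_lit 1) (.p (nat_lit 370) (nat_lit 2) (.p (nat_lit 373) (nat_lit 3) (.n (nat_lit 374) (nat_lit 1) (.p (nat_lit 375) (nat_lit 1) (.n (nat_lit 377) (nat_lit 1) (.p (nat_lit 380) (nat_lit 1) (.p (nat_lit 381) (nat_lit 3) (.p (nat_lit 382) (nat_lit 2) (.n (nat_lit 383) (nat_lit 1) (.n (nat_lit 389) (nat_lit 1) .z))))))))))))))))))))))))))))))))))))) (.ct dC2b_c308 (nat_lit 1) (nat_lit 5) (.s false (nat_lit 1) (nat_lit 18) (nat_lit 1) (nat_lit 0) (nat_lit 18) false (nat_lit 0) true (nat_lit 5) true (nat_lit 5) true (nat_lit 17) true (nat_lit 18) (.e false (nat_lit 1) (nat_lit 41) (nat_lit 38) (nat_lit 0) (.e false (nat_lit 1) (nat_lit 64) (nat_lit 18) (nat_lit 5) (.e true (nat_lit 1) (nat_lit 73) (nat_lit 18) (nat_lit 5) (.e true (nat_lit 1) (nat_lit 65) (nat_lit 18) (nat_lit 5) (.e true (nat_lit 1) (nat_lit 252) (nat_lit 1) (nat_lit 17) (.e true (nat_lit 2) (nat_lit 253) (nat_lit 1) (nat_lit 17) (.e true (nat_lit 2) (nat_lit 254) (nat_lit 1) (nat_lit 17) (.e false (nat_lit 3) (nat_lit 255) (nat_lit 1) (nat_lit 17) (.e true (nat_lit 3) (nat_lit 256) (nat_lit 1) (nat_lit 17) (.e false (nat_lit 1) (nat_lit 258) (nat_lit 1) (nat_lit 17) (.e false (nat_lit 3) (nat_lit 259) (nat_lit 1) (nat_lit 17) (.e true (nat_lit 3) (nat_lit 260) (nat_lit 1) (nat_lit 17) (.e false (nat_lit 1) (nat_lit 263) (nat_lit 1) (nat_lit 17) (.e true (nat_lit 1) (nat_lit 264) (nat_lit 1) (nat_lit 17) dC2b_i80)))))))))))))))) .leaf) (nat_lit 72723) (nat_lit 1119) (.n (nat_lit 336) (nat_lit 1) (.n (nat_lit 337) (nat_lit 2) (.n (nat_lit 338) (nat_lit 1) (.p (nat_lit 339) (nat_lit 3) (.n (nat_lit 340) (nat_lit 2) (.n (nat_lit 341) (nat_lit 1) (.p (nat_lit 342) (nat_lit 3) (.n (nat_lit 343) (nat_lit 1) (.n (nat_lit 344) (nat_lit 2) (.n (nat_lit 345) (nat_lit 2) (.p (nat_lit 346) (nat_lit 3) (.n (nat_lit 347) (nat_lit 2) (.p (nat_lit 349) (nat_lit 1) (.p (nat_lit 350) (nat_lit 3) (.p (nat_lit 351) (nat_lit 1) (.n (nat_lit 352) (nat_lit 2) (.n (nat_lit 353) (nat_lit 2) (.p (nat_lit 354) (nat_lit 1) (.n (nat_lit 355) (nat_lit 2) (.p (nat_lit 356) (nat_lit 2) (.n (nat_lit 357) (nat_lit 2) (.p (nat_lit 358) (nat_lit 2) (.p (nat_lit 359) (nat_lit 2) (.n (nat_lit 360) (nat_lit 1) (.n (nat_lit 361) (nat_lit 1) (.p (nat_lit 362) (nat_lit 1) (.n (nat_lit 363) (nat_lit 2) (.n (nat_lit 364) (nat_lit 2) (.n (nat_lit 366) (nat_lit 3) (.p (nat_lit 367) (nat_lit 1) (.n (nat_lit 370) (nat_lit 2) (.n (nat_lit 371) (nat_lit 3) (.n (nat_lit 372) (nat_lit 2) (.p (nat_lit 374) (nat_lit 3) (.n (nat_lit 375) (nat_lit 2) (.p (nat_lit 377) (nat_lit 2) (.n (nat_lit 380) (nat_lit 3) (.n (nat_lit 381) (nat_lit 2) (.p (nat_lit 389) (nat_lit 2) .z))))))))))))))))))))))))))))))))))))))) (.ct dC2b_c308 (nat_lit 1) (nat_lit 5) (.s false (nat_lit 1) (nat_lit 18) (nat_lit 1) (nat_lit 0) (nat_lit 19) false (nat_lit 0) true (nat_lit 5) true (nat_lit 5) true (nat_lit 17) true (nat_lit 18) (.e true (nat_lit 1) (nat_lit 39) (nat_lit 38) (nat_lit 0) (.e false (nat_lit 1) (nat_lit 40) (nat_lit 38) (nat_lit 0) (.e false (nat_lit 1) (nat_lit 41) (nat_lit 38) (nat_lit 0) (.e false (nat_lit 1) (nat_lit 61) (nat_lit 19) (nat_lit 5) (.e true (nat_lit 1) (nat_lit 63) (nat_lit 19) (nat_lit 5) (.e false (nat_lit 1) (nat_lit 64) (nat_lit 19) (nat_lit 5) (.e false (nat_lit 1) (nat_lit 66) (nat_lit 19) (nat_lit 5) (.e true (nat_lit 1) (nat_lit 72) (nat_lit 19) (nat_lit 5) dC2b_i82)))))))))) .leaf)) (nat_lit 72724) (nat_lit 1295) (.p (nat_lit 397) (nat_lit 1) (.p (nat_lit 399) (nat_lit 2) (.p (nat_lit 401) (nat_lit 3) (.p (nat_lit 404) (nat_lit 2) (.n (nat_lit 405) (nat_lit 1) (.n (nat_lit 406) (nat_lit 2) (.n (nat_lit 409) (nat_lit 2) (.n (nat_lit 410) (nat_lit 2) (.p (nat_lit 411) (nat_lit 1) (.n (nat_lit 414) (nat_lit 1) (.p (nat_lit 415) (nat_lit 2) (.p (nat_lit 416) (nat_lit 1) (.n (nat_lit 418) (nat_lit 3) (.n (nat_lit 420) (nat_lit 3) (.p (nat_lit 421) (nat_lit 3) (.p (nat_lit 435) (nat_lit 1) .z)))))))))))))))) (.ct dC2b_c293 (nat_lit 1) (nat_lit 3) (.s false (nat_lit 1) (nat_lit 20) (nat_lit 1) (nat_lit 2) (nat_lit 13) true (nat_lit 2) true (nat_lit 7) true (nat_lit 3) true (nat_lit 15) true (nat_lit 14) (.e true (nat_lit 1) (nat_lit 48) (nat_lit 28) (nat_lit 2) (.e false (nat_lit 1) (nat_lit 103) (nat_lit 13) (nat_lit 7) (.e true (nat_lit 1) (nat_lit 62) (nat_lit 20) (nat_lit 3) (.e true (nat_lit 1) (nat_lit 65) (nat_lit 20) (nat_lit 3) (.e false (nat_lit 1) (nat_lit 66) (nat_lit 20) (nat_lit 3) (.e true (nat_lit 1) (nat_lit 68) (nat_lit 20) (nat_lit 3) (.e true (nat_lit 1) (nat_lit 69) (nat_lit 20) (nat_lit 3) (.e true (nat_lit 1) (nat_lit 72) (nat_lit 20) (nat_lit 3) (.e false (nat_lit 1) (nat_lit 318) (nat_lit 1) (nat_lit 15) (.e true (nat_lit 1) (nat_lit 323) (nat_lit 1) (nat_lit 15) (.e true (nat_lit 3) (nat_lit 252) (nat_lit 2) (nat_lit 14) (.e false (nat_lit 1) (nat_lit 253) (nat_lit 2) (nat_lit 14) dC2b_i83)))))))))))))) (.nd (.nd (.nd .leaf (nat_lit 73729) (nat_lit 182) (.p (nat_lit 126) (nat_lit 1) .z) .df .leaf) (nat_lit 73730) (nat_lit 238) (.p (nat_lit 144) (nat_lit 1) .z) .df .leaf) (nat_lit 73734) (nat_lit 454) (.n (nat_lit 205) (nat_lit 2) (.n (nat_lit 208) (nat_lit 3) (.n (nat_lit 215) (nat_lit 2) (.n (nat_lit 216) (nat_lit 2) (.p (nat_lit 225) (nat_lit 2) (.p (nat_lit 227) (nat_lit 3) (.p (nat_lit 242) (nat_lit 1) (.n (nat_lit 251) (nat_lit 1) .z)))))))) (.ct dC2b_c307 (nat_lit 1) (nat_lit 8) (.s false (nat_lit 1) (nat_lit 8) (nat_lit 6) (nat_lit 2) (nat_lit 2) true (nat_lit 1) true (nat_lit 12) true (nat_lit 6) true (nat_lit 8) true (nat_lit 12) (.e true (nat_lit 1) (nat_lit 24) (nat_lit 18) (nat_lit 1) (.e false (nat_lit 1) (nat_lit 45) (nat_lit 8) (nat_lit 6) (.e true (nat_lit 1) (nat_lit 106) (nat_lit 2) (nat_lit 12) (.e false (nat_lit 2) (nat_lit 109) (nat_lit 2) (nat_lit 12) (.e true (nat_lit 1) (nat_lit 117) (nat_lit 2) (nat_lit 12) (.e false (nat_lit 1) (nat_lit 126) (nat_lit 2) (nat_lit 12) (.e false (nat_lit 1) (nat_lit 128) (nat_lit 2) (nat_lit 12) (.u (nat_lit 2) (.p (nat_lit 3) (nat_lit 1) .z) .nil)))))))))) (.nd .leaf (nat_lit 73735) (nat_lit 604) (.p (nat_lit 272) (nat_lit 2) .z) (.ct dC2b_c292 (nat_lit 1) (nat_lit 6) (.s true (nat_lit 3) (nat_lit 8) (nat_lit 2) (nat_lit 7) (nat_lit 2) true (nat_lit 6) true (nat_lit 11) true (nat_lit 5) true (nat_lit 11) true (nat_lit 6) (.s true (nat_lit 3) (nat_lit 8) (nat_lit 7) (nat_lit 2) (nat_lit 2) true (nat_lit 0) true (nat_lit 11) true (nat_lit 5) true (nat_lit 6) true (nat_lit 11) (.e true (nat_lit 2) (nat_lit 152) (nat_lit 2) (nat_lit 11) (.e true (nat_lit 3) (nat_lit 60) (nat_lit 7) (nat_lit 6) (.e false (nat_lit 3) (nat_lit 24) (nat_lit 20) (nat_lit 0) (.u (nat_lit 2) (.n (nat_lit 20) (nat_lit 1) (.p (nat_lit 90) (nat_lit 1) (.n (nat_lit 137) (nat_lit 1) .z))) .nil))))))) .leaf))) (nat_lit 73746) (nat_lit 963) (.p (nat_lit 336) (nat_lit 2) (.n (nat_lit 337) (nat_lit 3) (.n (nat_lit 338) (nat_lit 3) (.n (nat_lit 339) (nat_lit 1) (.n (nat_lit 340) (nat_lit 2) (.p (nat_lit 341) (nat_lit 1) (.p (nat_lit 342) (nat_lit 1) (.p (nat_lit 344) (nat_lit 1) (.p (nat_lit 345) (nat_lit 3) (.n (nat_lit 349) (nat_lit 2) (.n (nat_lit 350) (nat_lit 1) (.p (nat_lit 351) (nat_lit 3) (.n (nat_lit 352) (nat_lit 3) (.n (nat_lit 353) (nat_lit 2) (.n (nat_lit 354) (nat_lit 3) (.n (nat_lit 355) (nat_lit 3) (.n (nat_lit 356) (nat_lit 3) (.p (nat_lit 357) (nat_lit 3) (.n (nat_lit 358) (nat_lit 1) (.p (nat_lit 359) (nat_lit 3) (.p (nat_lit 361) (nat_lit 2) (.n (nat_lit 362) (nat_lit 3) (.p (nat_lit 363) (nat_lit 3) (.n (nat_lit 368) (nat_lit 2) (.n (nat_lit 369) (nat_lit 2) (.n (nat_lit 370) (nat_lit 1) (.p (nat_lit 371) (nat_lit 3) (.n (nat_lit 372) (nat_lit 3) (.p (nat_lit 373) (nat_lit 2) (.n (nat_lit 374) (nat_lit 2) (.n (nat_lit 375) (nat_lit 1) (.p (nat_lit 377) (nat_lit 2) (.n (nat_lit 379) (nat_lit 1) (.n (nat_lit 381) (nat_lit 3) (.n (nat_lit 382) (nat_lit 2) (.p (nat_lit 383) (nat_lit 1) .z)))))))))))))))))))))))))))))))))))) (.ct dC2b_c308 (nat_lit 1) (nat_lit 5) (.s false (nat_lit 1) (nat_lit 72) (nat_lit 1) (nat_lit 2) (nat_lit 2) true (nat_lit 12) true (nat_lit 16) false (nat_lit 5) true (nat_lit 17) true (nat_lit 16) (.e false (nat_lit 1) (nat_lit 144) (nat_lit 6) (nat_lit 12) (.e false (nat_lit 2) (nat_lit 225) (nat_lit 2) (nat_lit 16) (.e true (nat_lit 2) (nat_lit 272) (nat_lit 1) (nat_lit 17) (.e true (nat_lit 2) (nat_lit 205) (nat_lit 2) (nat_lit 16) (.e true (nat_lit 3) (nat_lit 208) (nat_lit 2) (nat_lit 16) (.e true (nat_lit 2) (nat_lit 215) (nat_lit 2) (nat_lit 16) (.e true (nat_lit 2) (nat_lit 216) (nat_lit 2) (nat_lit 16) (.e false (nat_lit 1) (nat_lit 227) (nat_lit 2) (nat_lit 16) (.e true (nat_lit 1) (nat_lit 242) (nat_lit 2) (nat_lit 16) (.e false (nat_lit 1) (nat_lit 245) (nat_lit 2) (nat_lit 16) (.e true (nat_lit 1) (nat_lit 248) (nat_lit 2) (nat_lit 16) (.u (nat_lit 2) (.n (nat_lit 0) (nat_lit 1) (.n (nat_lit 2) (nat_lit 2) (.p (nat_lit 3) (nat_lit 1) (.n (nat_lit 4) (nat_lit 1) (.n (nat_lit 5) (nat_lit 1) (.n (nat_lit 9) (nat_lit 1) (.p (nat_lit 10) (nat_lit 1) (.n (nat_lit 11) (nat_lit 1) (.p (nat_lit 12) (nat_lit 1) (.p (nat_lit 15) (nat_lit 1) (.n (nat_lit 17) (nat_lit 1) (.p (nat_lit 18) (nat_lit 2) (.p (nat_lit 19) (nat_lit 2) (.n (nat_lit 20) (nat_lit 1) (.n (nat_lit 21) (nat_lit 1) (.p (nat_lit 22) (nat_lit 1) (.p (nat_lit 23) (nat_lit 3) (.p (nat_lit 27) (nat_lit 3) (.p (nat_lit 29) (nat_lit 3) (.p (nat_lit 31) (nat_lit 2) (.p (nat_lit 32) (nat_lit 1) (.p (nat_lit 33) (nat_lit 1) (.n (nat_lit 34) (nat_lit 2) (.p (nat_lit 36) (nat_lit 1) (.n (nat_lit 38) (nat_lit 1) (.p (nat_lit 39) (nat_lit 1) (.n (nat_lit 40) (nat_lit 1) (.n (nat_lit 44) (nat_lit 1) (.n (nat_lit 46) (nat_lit 2) (.p (nat_lit 47) (nat_lit 1) .z)))))))))))))))))))))))))))))) .nil)))))))))))))) (.nd (.nd (.nd (.nd .leaf (nat_lit 73747) (nat_lit 962) (.p (nat_lit 335) (nat_lit 3) (.n (nat_lit 336) (nat_lit 3) (.p (nat_lit 337) (nat_lit 1) (.n (nat_lit 338) (nat_lit 1) (.p (nat_lit 339) (nat_lit 2) (.p (nat_lit 340) (nat_lit 1) (.p (nat_lit 341) (nat_lit 2) (.p (nat_lit 342) (nat_lit 2) (.n (nat_lit 345) (nat_lit 3) (.n (nat_lit 346) (nat_lit 2) (.n (nat_lit 347) (nat_lit 1) (.p (nat_lit 350) (nat_lit 1) (.p (nat_lit 351) (nat_lit 1) (.p (nat_lit 352) (nat_lit 3) (.p (nat_lit 353) (nat_lit 3) (.n (nat_lit 354) (nat_lit 3) (.n (nat_lit 355) (nat_lit 3) (.p (nat_lit 356) (nat_lit 2) (.n (nat_lit 357) (nat_lit 2) (.n (nat_lit 358) (nat_lit 2) (.n (nat_lit 359) (nat_lit 2) (.p (nat_lit 360) (nat_lit 3) (.n (nat_lit 361) (nat_lit 3) (.n (nat_lit 362) (nat_lit 2) (.p (nat_lit 363) (nat_lit 3) (.n (nat_lit 364) (nat_lit 3) (.p (nat_lit 366) (nat_lit 1) (.n (nat_lit 367) (nat_lit 2) (.n (nat_lit 368) (nat_lit 2) (.n (nat_lit 370) (nat_lit 1) (.p (nat_lit 372) (nat_lit 2) (.p (nat_lit 373) (nat_lit 2) (.n (nat_lit 374) (nat_lit 1) (.p (nat_lit 375) (nat_lit 2) (.p (nat_lit 377) (nat_lit 3) (.p (nat_lit 379) (nat_lit 2) (.n (nat_lit 380) (nat_lit 1) (.p (nat_lit 381) (nat_lit 3) (.n (nat_lit 382) (nat_lit 2) (.p (nat_lit 383) (nat_lit 1) .z)))))))))))))))))))))))))))))))))))))))) (.ct dC2b_c308 (nat_lit 1) (nat_lit 5) (.s false (nat_lit 1) (nat_lit 72) (nat_lit 2) (nat_lit 2) (nat_lit 1) true (nat_lit 12) true (nat_lit 17) false (nat_lit 5) true (nat_lit 16) true (nat_lit 16) (.e false (nat_lit 1) (nat_lit 144) (nat_lit 6) (nat_lit 12) (.e false (nat_lit 1) (nat_lit 264) (nat_lit 1) (nat_lit 17) (.e false (nat_lit 2) (nat_lit 205) (nat_lit 2) (nat_lit 16) (.e false (nat_lit 3) (nat_lit 208) (nat_lit 2) (nat_lit 16) (.e false (nat_lit 2) (nat_lit 215) (nat_lit 2) (nat_lit 16) (.e false (nat_lit 2) (nat_lit 216) (nat_lit 2) (nat_lit 16) (.e true (nat_lit 3) (nat_lit 225) (nat_lit 2) (nat_lit 16) (.e true (nat_lit 3) (nat_lit 227) (nat_lit 2) (nat_lit 16) (.e true (nat_lit 1) (nat_lit 242) (nat_lit 2) (nat_lit 16) (.e false (nat_lit 1) (nat_lit 251) (nat_lit 2) (nat_lit 16) (.u (nat_lit 2) (.n (nat_lit 0) (nat_lit 1) (.p (nat_lit 2) (nat_lit 3) (.p (nat_lit 4) (nat_lit 1) (.n (nat_lit 6) (nat_lit 3) (.p (nat_lit 7) (nat_lit 1) (.n (nat_lit 8) (nat_lit 2) (.p (nat_lit 9) (nat_lit 2) (.n (nat_lit 10) (nat_lit 2) (.p (nat_lit 11) (nat_lit 1) (.p (nat_lit 14) (nat_lit 1) (.n (nat_lit 18) (nat_lit 2) (.n (nat_lit 19) (nat_lit 1) (.p (nat_lit 20) (nat_lit 3) (.p (nat_lit 21) (nat_lit 3) (.n (nat_lit 22) (nat_lit 3) (.n (nat_lit 23) (nat_lit 2) (.p (nat_lit 24) (nat_lit 1) (.n (nat_lit 25) (nat_lit 1) (.n (nat_lit 27) (nat_lit 3) (.n (nat_lit 31) (nat_lit 3) (.p (nat_lit 32) (nat_lit 1) (.p (nat_lit 33) (nat_lit 2) (.p (nat_lit 35) (nat_lit 1) (.n (nat_lit 38) (nat_lit 2) (.n (nat_lit 39) (nat_lit 1) (.p (nat_lit 40) (nat_lit 1) (.n (nat_lit 42) (nat_lit 1) (.p (nat_lit 44) (nat_lit 1) (.n (nat_lit 45) (nat_lit 1) (.n (nat_lit 48) (nat_lit 1) .z)))))))))))))))))))))))))))))) .nil))))))))))))) .leaf) (nat_lit 73748) (nat_lit 1201) (.n (nat_lit 431) (nat_lit 2) (.p (nat_lit 435) (nat_lit 1) .z)) (.ct dC2b_c293 (nat_lit 1) (nat_lit 3) (.s true (nat_lit 1) (nat_lit 8) (nat_lit 2) (nat_lit 7) (nat_lit 7) true (nat_lit 3) true (nat_lit 9) true (nat_lit 8) true (nat_lit 14) true (nat_lit 9) (.e true (nat_lit 1) (nat_lit 152) (nat_lit 7) (nat_lit 9) (.e false (nat_lit 1) (nat_lit 144) (nat_lit 7) (nat_lit 9) .nil)))) .leaf) (nat_lit 74753) (nat_lit 183) (.p (nat_lit 127) (nat_lit 1) .z) .df (.nd (.nd .leaf (nat_lit 74754) (nat_lit 239) (.p (nat_lit 145) (nat_lit 1) .z) .df .leaf) (nat_lit 74758) (nat_lit 473) (.p (nat_lit 205) (nat_lit 2) (.n (nat_lit 206) (nat_lit 2) (.p (nat_lit 207) (nat_lit 1) (.n (nat_lit 209) (nat_lit 1) (.p (nat_lit 210) (nat_lit 1) (.p (nat_lit 213) (nat_lit 1) (.n (nat_lit 214) (nat_lit 1) (.p (nat_lit 215) (nat_lit 2) (.n (nat_lit 217) (nat_lit 2) (.p (nat_lit 218) (nat_lit 2) (.n (nat_lit 219) (nat_lit 1) (.p (nat_lit 220) (nat_lit 1) (.p (nat_lit 222) (nat_lit 3) (.p (nat_lit 225) (nat_lit 3) (.n (nat_lit 226) (nat_lit 2) (.p (nat_lit 227) (nat_lit 1) (.n (nat_lit 229) (nat_lit 1) (.n (nat_lit 230) (nat_lit 1) (.n (nat_lit 231) (nat_lit 2) (.p (nat_lit 233) (nat_lit 1) (.p (nat_lit 235) (nat_lit 1) (.p (nat_lit 242) (nat_lit 1) (.n (nat_lit 245) (nat_lit 3) (.p (nat_lit 248) (nat_lit 3) (.n (nat_lit 251) (nat_lit 2) .z))))))))))))))))))))))))) (.ct dC2b_c307 (nat_lit 1) (nat_lit 8) (.s true (nat_lit 1) (nat_lit 6) (nat_lit 2) (nat_lit 3) (nat_lit 6) true (nat_lit 1) true (nat_lit 8) true (nat_lit 8) true (nat_lit 12) true (nat_lit 11) (.s true (nat_lit 1) (nat_lit 11) (nat_lit 2) (nat_lit 1) (nat_lit 6) true (nat_lit 1) true (nat_lit 8) true (nat_lit 4) true (nat_lit 12) true (nat_lit 13) (.s true (nat_lit 1) (nat_lit 29) (nat_lit 1) (nat_lit 2) (nat_lit 2) true (nat_lit 8) true (nat_lit 12) false (nat_lit 1) true (nat_lit 13) true (nat_lit 12) (.e true (nat_lit 1) (nat_lit 25) (nat_lit 18) (nat_lit 1) (.e false (nat_lit 1) (nat_lit 27) (nat_lit 18) (nat_lit 1) (.e false (nat_lit 1) (nat_lit 61) (nat_lit 6) (nat_lit 8) (.e true (nat_lit 1) (nat_lit 63) (nat_lit 6) (nat_lit 8) (.e true (nat_lit 1) (nat_lit 72) (nat_lit 6) (nat_lit 8) (.e false (nat_lit 3) (nat_lit 107) (nat_lit 2) (nat_lit 12) (.e false (nat_lit 3) (nat_lit 108) (nat_lit 2) (nat_lit 12) (.e true (nat_lit 3) (nat_lit 119) (nat_lit 2) (nat_lit 12) (.e false (nat_lit 2) (nat_lit 122) (nat_lit 2) (nat_lit 12) (.e true (nat_lit 2) (nat_lit 109) (nat_lit 2) (nat_lit 12) dC2b_i84)))))))))))))) .leaf)) (nat_lit 74759) (nat_lit 611) (.n (nat_lit 252) (nat_lit 1) (.n (nat_lit 253) (nat_lit 1) (.n (nat_lit 254) (nat_lit 2) (.p (nat_lit 255) (nat_lit 1) (.n (nat_lit 257) (nat_lit 1) (.n (nat_lit 258) (nat_lit 2) (.p (nat_lit 264) (nat_lit 1) (.p (nat_lit 265) (nat_lit 2) (.n (nat_lit 266) (nat_lit 3) (.n (nat_lit 269) (nat_lit 3) (.p (nat_lit 272) (nat_lit 1) (.p (nat_lit 274) (nat_lit 2) (.n (nat_lit 277) (nat_lit 1) .z))))))))))))) (.ct dC2b_c292 (nat_lit 1) (nat_lit 6) (.s false (nat_lit 1) (nat_lit 11) (nat_lit 1) (nat_lit 2) (nat_lit 7) true (nat_lit 1) true (nat_lit 6) true (nat_lit 4) true (nat_lit 12) true (nat_lit 11) (.s true (nat_lit 1) (nat_lit 11) (nat_lit 2) (nat_lit 6) (nat_lit 2) true (nat_lit 6) true (nat_lit 11) true (nat_lit 4) true (nat_lit 11) true (nat_lit 7) (.s false (nat_lit 1) (nat_lit 11) (nat_lit 2) (nat_lit 7) (nat_lit 1) true (nat_lit 7) true (nat_lit 12) true (nat_lit 4) true (nat_lit 11) true (nat_lit 6) (.s true (nat_lit 1) (nat_lit 11) (nat_lit 6) (nat_lit 2) (nat_lit 2) true (nat_lit 1) true (nat_lit 11) true (nat_lit 4) true (nat_lit 7) true (nat_lit 11) (.s true (nat_lit 2) (nat_lit 19) (nat_lit 2) (nat_lit 3) (nat_lit 2) true (nat_lit 6) true (nat_lit 11) true (nat_lit 1) true (nat_lit 11) true (nat_lit 10) (.s false (nat_lit 1) (nat_lit 19) (nat_lit 3) (nat_lit 2) (nat_lit 2) true (nat_lit 4) true (nat_lit 11) true (nat_lit 1) true (nat_lit 10) true (nat_lit 11) (.s true (nat_lit 2) (nat_lit 20) (nat_lit 1) (nat_lit 2) (nat_lit 3) true (nat_lit 5) true (nat_lit 10) true (nat_lit 0) true (nat_lit 12) true (nat_lit 11) (.s true (nat_lit 2) (nat_lit 29) (nat_lit 2) (nat_lit 2) (nat_lit 2) true (nat_lit 6) true (nat_lit 11) false (nat_lit 0) true (nat_lit 11) true (nat_lit 11) (.e true (nat_lit 3) (nat_lit 62) (nat_lit 7) (nat_lit 6) (.e false (nat_lit 3) (nat_lit 177) (nat_lit 1) (nat_lit 12) dC2b_i85))))))))))) (.nd (.nd (.nd .leaf (nat_lit 74770) (nat_lit 1009) (.p (nat_lit 335) (nat_lit 3) (.n (nat_lit 338) (nat_lit 1) (.n (nat_lit 339) (nat_lit 2) (.p (nat_lit 340) (nat_lit 3) (.p (nat_lit 342) (nat_lit 2) (.p (nat_lit 343) (nat_lit 3) (.p (nat_lit 344) (nat_lit 1) (.p (nat_lit 345) (nat_lit 1) (.p (nat_lit 346) (nat_lit 1) (.p (nat_lit 347) (nat_lit 3) (.p (nat_lit 349) (nat_lit 2) (.n (nat_lit 350) (nat_lit 1) (.n (nat_lit 351) (nat_lit 3) (.p (nat_lit 352) (nat_lit 2) (.p (nat_lit 353) (nat_lit 1) (.p (nat_lit 354) (nat_lit 3) (.n (nat_lit 355) (nat_lit 2) (.n (nat_lit 356) (nat_lit 1) (.p (nat_lit 357) (nat_lit 1) (.p (nat_lit 359) (nat_lit 3) (.p (nat_lit 360) (nat_lit 1) (.p (nat_lit 361) (nat_lit 1) (.n (nat_lit 362) (nat_lit 1) (.n (nat_lit 363) (nat_lit 2) (.n (nat_lit 366) (nat_lit 3) (.n (nat_lit 368) (nat_lit 1) (.p (nat_lit 369) (nat_lit 3) (.n (nat_lit 371) (nat_lit 2) (.n (nat_lit 372) (nat_lit 3) (.p (nat_lit 373) (nat_lit 1) (.p (nat_lit 374) (nat_lit 3) (.n (nat_lit 375) (nat_lit 3) (.p (nat_lit 379) (nat_lit 3) (.p (nat_lit 381) (nat_lit 2) (.p (nat_lit 382) (nat_lit 3) (.p (nat_lit 383) (nat_lit 2) (.p (nat_lit 386) (nat_lit 1) .z))))))))))))))))))))))))))))))))))))) (.ct dC2b_c308 (nat_lit 1) (nat_lit 5) (.s false (nat_lit 1) (nat_lit 73) (nat_lit 1) (nat_lit 2) (nat_lit 2) true (nat_lit 12) true (nat_lit 16) false (nat_lit 5) true (nat_lit 17) true (nat_lit 16) (.e false (nat_lit 1) (nat_lit 145) (nat_lit 6) (nat_lit 12) (.e false (nat_lit 3) (nat_lit 226) (nat_lit 2) (nat_lit 16) (.e false (nat_lit 1) (nat_lit 252) (nat_lit 1) (nat_lit 17) (.e false (nat_lit 1) (nat_lit 253) (nat_lit 1) (nat_lit 17) (.e false (nat_lit 2) (nat_lit 254) (nat_lit 1) (nat_lit 17) (.e true (nat_lit 1) (nat_lit 255) (nat_lit 1) (nat_lit 17) (.e false (nat_lit 1) (nat_lit 257) (nat_lit 1) (nat_lit 17) (.e false (nat_lit 2) (nat_lit 258) (nat_lit 1) (nat_lit 17) (.e true (nat_lit 1) (nat_lit 264) (nat_lit 1) (nat_lit 17) (.e true (nat_lit 2) (nat_lit 265) (nat_lit 1) (nat_lit 17) (.e false (nat_lit 3) (nat_lit 266) (nat_lit 1) (nat_lit 17) (.e false (nat_lit 3) (nat_lit 269) (nat_lit 1) (nat_lit 17) (.e true (nat_lit 1) (nat_lit 272) (nat_lit 1) (nat_lit 17) (.e true (nat_lit 2) (nat_lit 274) (nat_lit 1) (nat_lit 17) (.e false (nat_lit 1) (nat_lit 277) (nat_lit 1) (nat_lit 17) (.e true (nat_lit 3) (nat_lit 205) (nat_lit 2) (nat_lit 16) (.e false (nat_lit 2) (nat_lit 206) (nat_lit 2) (nat_lit 16) (.e true (nat_lit 1) (nat_lit 207) (nat_lit 2) (nat_lit 16) (.e false (nat_lit 1) (nat_lit 208) (nat_lit 2) (nat_lit 16) (.e false (nat_lit 1) (nat_lit 209) (nat_lit 2) (nat_lit 16) (.e true (nat_lit 1) (nat_lit 210) (nat_lit 2) (nat_lit 16) (.e true (nat_lit 2) (nat_lit 211) (nat_lit 2) (nat_lit 16) dC2b_i86)))))))))))))))))))))))) .leaf) (nat_lit 74771) (nat_lit 1008) (.p (nat_lit 335) (nat_lit 2) (.p (nat_lit 336) (nat_lit 3) (.n (nat_lit 337) (nat_lit 1) (.p (nat_lit 338) (nat_lit 2) (.n (nat_lit 339) (nat_lit 3) (.n (nat_lit 340) (nat_lit 1) (.p (nat_lit 342) (nat_lit 1) (.n (nat_lit 343) (nat_lit 2) (.n (nat_lit 344) (nat_lit 1) (.p (nat_lit 345) (nat_lit 1) (.n (nat_lit 346) (nat_lit 1) (.p (nat_lit 347) (nat_lit 3) (.p (nat_lit 349) (nat_lit 1) (.n (nat_lit 350) (nat_lit 2) (.p (nat_lit 351) (nat_lit 1) (.p (nat_lit 353) (nat_lit 2) (.p (nat_lit 354) (nat_lit 3) (.n (nat_lit 355) (nat_lit 1) (.p (nat_lit 358) (nat_lit 1) (.p (nat_lit 359) (nat_lit 3) (.p (nat_lit 361) (nat_lit 3) (.p (nat_lit 362) (nat_lit 1) (.p (nat_lit 366) (nat_lit 3) (.n (nat_lit 368) (nat_lit 2) (.n (nat_lit 369) (nat_lit 1) (.n (nat_lit 370) (nat_lit 1) (.p (nat_lit 371) (nat_lit 3) (.p (nat_lit 372) (nat_lit 1) (.p (nat_lit 373) (nat_lit 2) (.p (nat_lit 374) (nat_lit 3) (.n (nat_lit 375) (nat_lit 1) (.p (nat_lit 379) (nat_lit 1) (.p (nat_lit 380) (nat_lit 1) (.n (nat_lit 381) (nat_lit 1) (.n (nat_lit 386) (nat_lit 2) .z))))))))))))))))))))))))))))))))))) (.ct dC2b_c308 (nat_lit 1) (nat_lit 5) (.s false (nat_lit 1) (nat_lit 73) (nat_lit 2) (nat_lit 2) (nat_lit 1) true (nat_lit 12) true (nat_lit 17) false (nat_lit 5) true (nat_lit 16) true (nat_lit 16) (.e false (nat_lit 1) (nat_lit 145) (nat_lit 6) (nat_lit 12) (.e false (nat_lit 1) (nat_lit 265) (nat_lit 1) (nat_lit 17) (.e true (nat_lit 2) (nat_lit 205) (nat_lit 2) (nat_lit 16) dC2b_i87))))) .leaf) (nat_lit 74772) (nat_lit 1232) (.p (nat_lit 397) (nat_lit 3) (.p (nat_lit 398) (nat_lit 3) (.p (nat_lit 399) (nat_lit 3) (.n (nat_lit 400) (nat_lit 2) (.n (nat_lit 401) (nat_lit 2) (.n (nat_lit 402) (nat_lit 3) (.n (nat_lit 404) (nat_lit 3) (.n (nat_lit 405) (nat_lit 2) (.p (nat_lit 407) (nat_lit 2) (.n (nat_lit 408) (nat_lit 3) (.p (nat_lit 409) (nat_lit 3) (.n (nat_lit 410) (nat_lit 1) (.n (nat_lit 411) (nat_lit 2) (.p (nat_lit 412) (nat_lit 3) (.p (nat_lit 413) (nat_lit 3) (.n (nat_lit 415) (nat_lit 2) (.n (nat_lit 416) (nat_lit 2) (.p (nat_lit 418) (nat_lit 3) (.n (nat_lit 420) (nat_lit 1) (.n (nat_lit 421) (nat_lit 1) (.p (nat_lit 431) (nat_lit 2) (.n (nat_lit 435) (nat_lit 2) .z)))))))))))))))))))))) (.ct dC2b_c293 (nat_lit 1) (nat_lit 3) (.s false (nat_lit 1) (nat_lit 73) (nat_lit 2) (nat_lit 2) (nat_lit 2) true (nat_lit 9) true (nat_lit 14) false (nat_lit 3) true (nat_lit 14) true (nat_lit 14) (.e false (nat_lit 1) (nat_lit 145) (nat_lit 7) (nat_lit 9) (.e true (nat_lit 2) (nat_lit 265) (nat_lit 2) (nat_lit 14) (.e false (nat_lit 1) (nat_lit 252) (nat_lit 2) (nat_lit 14) (.e false (nat_lit 1) (nat_lit 253) (nat_lit 2) (nat_lit 14) (.e false (nat_lit 2) (nat_lit 254) (nat_lit 2) (nat_lit 14) (.e true (nat_lit 1) (nat_lit 255) (nat_lit 2) (nat_lit 14) (.e false (nat_lit 1) (nat_lit 257) (nat_lit 2) (nat_lit 14) (.e false (nat_lit 2) (nat_lit 258) (nat_lit 2) (nat_lit 14) (.e true (nat_lit 1) (nat_lit 264) (nat_lit 2) (nat_lit 14) (.e false (nat_lit 3) (nat_lit 266) (nat_lit 2) (nat_lit 14) (.e false (nat_lit 3) (nat_lit 269) (nat_lit 2) (nat_lit 14) (.e true (nat_lit 1) (nat_lit 272) (nat_lit 2) (nat_lit 14) (.e true (nat_lit 2) (nat_lit 274) (nat_lit 2) (nat_lit 14) (.e false (nat_lit 1) (nat_lit 277) (nat_lit 2) (nat_lit 14) (.u (nat_lit 2) (.p (nat_lit 0) (nat_lit 1) (.n (nat_lit 1) (nat_lit 1) (.p (nat_lit 2) (nat_lit 1) (.p (nat_lit 3) (nat_lit 1) (.p (nat_lit 4) (nat_lit 1) (.p (nat_lit 6) (nat_lit 1) (.p (nat_lit 7) (nat_lit 1) (.n (nat_lit 8) (nat_lit 2) (.p (nat_lit 9) (nat_lit 1) (.n (nat_lit 11) (nat_lit 1) (.n (nat_lit 12) (nat_lit 1) (.n (nat_lit 13) (nat_lit 2) (.n (nat_lit 14) (nat_lit 1) (.n (nat_lit 15) (nat_lit 1) (.n (nat_lit 16) (nat_lit 1) (.n (nat_lit 17) (nat_lit 2) (.n (nat_lit 18) (nat_lit 1) (.p (nat_lit 19) (nat_lit 3) (.n (nat_lit 23) (nat_lit 2) (.p (nat_lit 30) (nat_lit 1) (.n (nat_lit 34) (nat_lit 2) .z))))))))))))))))))))) .nil))))))))))))))))) (.nd .leaf (nat_lit 75776) (nat_lit 201) (.p (nat_lit 106) (nat_lit 1) (.p (nat_lit 108) (nat_lit 1) (.n (nat_lit 109) (nat_lit 1) (.p (nat_lit 110) (nat_lit 1) (.n (nat_lit 112) (nat_lit 2) (.n (nat_lit 113) (nat_lit 1) (.p (nat_lit 114) (nat_lit 2) (.p (nat_lit 115) (nat_lit 1) (.p (nat_lit 116) (nat_lit 2) (.n (nat_lit 118) (nat_lit 1) (.p (nat_lit 120) (nat_lit 2) (.n (nat_lit 122) (nat_lit 2) (.n (nat_lit 128) (nat_lit 1) (.p (nat_lit 130) (nat_lit 1) .z)))))))))))))) (.ct dC2b_c306 (nat_lit 1) (nat_lit 10) (.s true (nat_lit 1) (nat_lit 5) (nat_lit 1) (nat_lit 2) (nat_lit 4) true (nat_lit 1) true (nat_lit 6) true (nat_lit 5) true (nat_lit 9) true (nat_lit 8) (.s false (nat_lit 1) (nat_lit 6) (nat_lit 1) (nat_lit 0) (nat_lit 6) false (nat_lit 0) true (nat_lit 4) true (nat_lit 4) true (nat_lit 9) true (nat_lit 10) (.s false (nat_lit 1) (nat_lit 6) (nat_lit 1) (nat_lit 2) (nat_lit 3) true (nat_lit 2) true (nat_lit 7) true (nat_lit 4) true (nat_lit 9) true (nat_lit 8) (.s true (nat_lit 1) (nat_lit 6) (nat_lit 5) (nat_lit 1) (nat_lit 1) true (nat_lit 0) true (nat_lit 9) true (nat_lit 4) true (nat_lit 5) true (nat_lit 9) (.s true (nat_lit 1) (nat_lit 10) (nat_lit 2) (nat_lit 0) (nat_lit 2) true (nat_lit 3) true (nat_lit 8) true (nat_lit 1) true (nat_lit 8) true (nat_lit 10) (.s false (nat_lit 1) (nat_lit 12) (nat_lit 1) (nat_lit 2) (nat_lit 1) true (nat_lit 6) true (nat_lit 9) true (nat_lit 0) true (nat_lit 9) true (nat_lit 8) (.s false (nat_lit 1) (nat_lit 12) (nat_lit 2) (nat_lit 1) (nat_lit 1) true (nat_lit 4) true (nat_lit 9) true (nat_lit 0) true (nat_lit 8) true (nat_lit 9) (.s true (nat_lit 1) (nat_lit 15) (nat_lit 1) (nat_lit 2) (nat_lit 0) true (nat_lit 7) true (nat_lit 10) false (nat_lit 0) true (nat_lit 9) true (nat_lit 8) (.s false (nat_lit 1) (nat_lit 15) (nat_lit 2) (nat_lit 0) (nat_lit 1) true (nat_lit 4) true (nat_lit 9) false (nat_lit 0) true (nat_lit 8) true (nat_lit 10) (.e true (nat_lit 1) (nat_lit 60) (nat_lit 1) (nat_lit 9) (.e true (nat_lit 1) (nat_lit 61) (nat_lit 1) (nat_lit 9) (.e false (nat_lit 2) (nat_lit 63) (nat_lit 1) (nat_lit 9) (.e true (nat_lit 2) (nat_lit 65) (nat_lit 1) (nat_lit 9) (.e true (nat_lit 1) (nat_lit 56) (nat_lit 2) (nat_lit 8) (.e false (nat_lit 2) (nat_lit 57) (nat_lit 2) (nat_lit 8) (.e false (nat_lit 1) (nat_lit 18) (nat_lit 8) (nat_lit 2) (.e false (nat_lit 1) (nat_lit 53) (nat_lit 2) (nat_lit 8) (.e true (nat_lit 2) (nat_lit 55) (nat_lit 2) (nat_lit 8) (.e false (nat_lit 1) (nat_lit 23) (nat_lit 7) (nat_lit 3) (.e false (nat_lit 1) (nat_lit 49) (nat_lit 2) (nat_lit 8) (.e false (nat_lit 1) (nat_lit 58) (nat_lit 2) (nat_lit 8) (.e false (nat_lit 1) (nat_lit 59) (nat_lit 2) (nat_lit 8) (.e false (nat_lit 1) (nat_lit 51) (nat_lit 2) (nat_lit 8) .nil)))))))))))))))))))))))) .leaf))))))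

noncomputable def dC2b_t4 : Tr := (.nd (.nd (.nd (.nd (.nd (.nd (.nd .leaf (nat_lit 75781) (nat_lit 542) (.n (nat_lit 206) (nat_lit 3) (.p (nat_lit 207) (nat_lit 3) (.n (nat_lit 208) (nat_lit 3) (.n (nat_lit 209) (nat_lit 2) (.n (nat_lit 211) (nat_lit 3) (.n (nat_lit 212) (nat_lit 2) (.p (nat_lit 213) (nat_lit 3) (.p (nat_lit 214) (nat_lit 2) (.n (nat_lit 215) (nat_lit 3) (.n (nat_lit 217) (nat_lit 1) (.n (nat_lit 219) (nat_lit 3) (.p (nat_lit 221) (nat_lit 3) (.p (nat_lit 227) (nat_lit 1) (.n (nat_lit 230) (nat_lit 1) (.p (nat_lit 231) (nat_lit 2) (.p (nat_lit 232) (nat_lit 1) (.p (nat_lit 242) (nat_lit 3) (.p (nat_lit 243) (nat_lit 1) (.n (nat_lit 245) (nat_lit 2) (.p (nat_lit 246) (nat_lit 1) (.n (nat_lit 247) (nat_lit 1) (.p (nat_lit 248) (nat_lit 1) (.n (nat_lit 249) (nat_lit 2) (.p (nat_lit 251) (nat_lit 1) .z)))))))))))))))))))))))) (.ct dC2b_c307 (nat_lit 1) (nat_lit 9) (.s true (nat_lit 1) (nat_lit 30) (nat_lit 0) (nat_lit 2) (nat_lit 2) true (nat_lit 9) true (nat_lit 12) false (nat_lit 2) true (nat_lit 14) true (nat_lit 12) (.e true (nat_lit 1) (nat_lit 107) (nat_lit 2) (nat_lit 12) (.e true (nat_lit 1) (nat_lit 30) (nat_lit 16) (nat_lit 2) (.e false (nat_lit 1) (nat_lit 167) (nat_lit 0) (nat_lit 14) (.e true (nat_lit 1) (nat_lit 108) (nat_lit 2) (nat_lit 12) (.e true (nat_lit 1) (nat_lit 110) (nat_lit 2) (nat_lit 12) (.e false (nat_lit 2) (nat_lit 112) (nat_lit 2) (nat_lit 12) (.e true (nat_lit 2) (nat_lit 114) (nat_lit 2) (nat_lit 12) (.e false (nat_lit 1) (nat_lit 118) (nat_lit 2) (nat_lit 12) (.e true (nat_lit 2) (nat_lit 120) (nat_lit 2) (nat_lit 12) (.e false (nat_lit 2) (nat_lit 122) (nat_lit 2) (nat_lit 12) (.e false (nat_lit 1) (nat_lit 128) (nat_lit 2) (nat_lit 12) (.e true (nat_lit 1) (nat_lit 130) (nat_lit 2) (nat_lit 12) (.u (nat_lit 2) (.p (nat_lit 1) (nat_lit 1) (.p (nat_lit 6) (nat_lit 1) (.p (nat_lit 7) (nat_lit 1) (.n (nat_lit 8) (nat_lit 1) (.n (nat_lit 9) (nat_lit 1) (.p (nat_lit 12) (nat_lit 1) (.p (nat_lit 40) (nat_lit 1) (.n (nat_lit 43) (nat_lit 1) (.p (nat_lit 44) (nat_lit 1) .z))))))))) .nil))))))))))))))) .leaf) (nat_lit 75783) (nat_lit 707) (.p (nat_lit 303) (nat_lit 1) .z) .df .leaf) (nat_lit 75792) (nat_lit 1068) (.n (nat_lit 335) (nat_lit 2) (.p (nat_lit 336) (nat_lit 1) (.p (nat_lit 337) (nat_lit 2) (.n (nat_lit 338) (nat_lit 2) (.p (nat_lit 339) (nat_lit 3) (.n (nat_lit 341) (nat_lit 1) (.p (nat_lit 342) (nat_lit 1) (.p (nat_lit 343) (nat_lit 3) (.p (nat_lit 345) (nat_lit 1) (.n (nat_lit 347) (nat_lit 2) (.n (nat_lit 349) (nat_lit 3) (.n (nat_lit 350) (nat_lit 3) (.p (nat_lit 351) (nat_lit 2) (.p (nat_lit 352) (nat_lit 3) (.p (nat_lit 353) (nat_lit 2) (.n (nat_lit 355) (nat_lit 3) (.p (nat_lit 356) (nat_lit 1) (.n (nat_lit 357) (nat_lit 1) (.n (nat_lit 358) (nat_lit 2) (.n (nat_lit 359) (nat_lit 1) (.n (nat_lit 360) (nat_lit 2) (.n (nat_lit 361) (nat_lit 3) (.n (nat_lit 362) (nat_lit 3) (.p (nat_lit 363) (nat_lit 1) (.p (nat_lit 364) (nat_lit 3) (.p (nat_lit 366) (nat_lit 2) (.p (nat_lit 367) (nat_lit 2) (.n (nat_lit 368) (nat_lit 2) (.n (nat_lit 369) (nat_lit 1) (.n (nat_lit 370) (nat_lit 1) (.n (nat_lit 371) (nat_lit 3) (.p (nat_lit 372) (nat_lit 1) (.p (nat_lit 373) (nat_lit 2) (.n (nat_lit 374) (nat_lit 1) (.n (nat_lit 380) (nat_lit 2) (.p (nat_lit 381) (nat_lit 1) (.n (nat_lit 382) (nat_lit 2) (.p (nat_lit 383) (nat_lit 1) .z)))))))))))))))))))))))))))))))))))))) (.ct dC2b_c308 (nat_lit 1) (nat_lit 6) (.s true (nat_lit 1) (nat_lit 74) (nat_lit 0) (nat_lit 2) (nat_lit 2) true (nat_lit 13) true (nat_lit 16) false (nat_lit 6) true (nat_lit 18) true (nat_lit 16) (.e true (nat_lit 1) (nat_lit 158) (nat_lit 5) (nat_lit 13) (.e false (nat_lit 1) (nat_lit 205) (nat_lit 2) (nat_lit 16) (.e true (nat_lit 1) (nat_lit 207) (nat_lit 2) (nat_lit 16) (.e true (nat_lit 3) (nat_lit 208) (nat_lit 2) (nat_lit 16) (.e true (nat_lit 3) (nat_lit 209) (nat_lit 2) (nat_lit 16) dC2b_i88))))))) (.nd (.nd .leaf (nat_lit 75793) (nat_lit 1066) (.p (nat_lit 335) (nat_lit 3) (.p (nat_lit 336) (nat_lit 1) (.p (nat_lit 337) (nat_lit 2) (.p (nat_lit 340) (nat_lit 3) (.p (nat_lit 341) (nat_lit 2) (.n (nat_lit 342) (nat_lit 3) (.p (nat_lit 343) (nat_lit 3) (.p (nat_lit 344) (nat_lit 1) (.p (nat_lit 345) (nat_lit 2) (.p (nat_lit 346) (nat_lit 2) (.n (nat_lit 347) (nat_lit 2) (.n (nat_lit 349) (nat_lit 3) (.p (nat_lit 350) (nat_lit 2) (.n (nat_lit 351) (nat_lit 2) (.p (nat_lit 353) (nat_lit 1) (.p (nat_lit 354) (nat_lit 3) (.p (nat_lit 355) (nat_lit 3) (.n (nat_lit 356) (nat_lit 3) (.p (nat_lit 357) (nat_lit 3) (.p (nat_lit 358) (nat_lit 2) (.n (nat_lit 359) (nat_lit 3) (.p (nat_lit 360) (nat_lit 1) (.n (nat_lit 361) (nat_lit 1) (.n (nat_lit 362) (nat_lit 1) (.n (nat_lit 363) (nat_lit 3) (.n (nat_lit 366) (nat_lit 2) (.p (nat_lit 368) (nat_lit 2) (.p (nat_lit 369) (nat_lit 3) (.p (nat_lit 371) (nat_lit 1) (.n (nat_lit 372) (nat_lit 2) (.n (nat_lit 373) (nat_lit 2) (.n (nat_lit 380) (nat_lit 1) (.n (nat_lit 381) (nat_lit 3) (.p (nat_lit 382) (nat_lit 2) (.n (nat_lit 383) (nat_lit 1) .z))))))))))))))))))))))))))))))))))) (.ct dC2b_c308 (nat_lit 1) (nat_lit 6) (.s true (nat_lit 1) (nat_lit 17) (nat_lit 10) (nat_lit 2) (nat_lit 2) true (nat_lit 1) true (nat_lit 16) true (nat_lit 6) true (nat_lit 9) true (nat_lit 16) (.e true (nat_lit 1) (nat_lit 43) (nat_lit 30) (nat_lit 1) (.e false (nat_lit 1) (nat_lit 205) (nat_lit 2) (nat_lit 16) dC2b_i89)))) .leaf) (nat_lit 75796) (nat_lit 1444) (.n (nat_lit 437) (nat_lit 3) (.p (nat_lit 438) (nat_lit 1) (.n (nat_lit 444) (nat_lit 1) (.p (nat_lit 447) (nat_lit 3) (.n (nat_lit 448) (nat_lit 1) (.n (nat_lit 450) (nat_lit 1) .z)))))) (.ct dC2b_c53 (nat_lit 1) (nat_lit 2) (.s false (nat_lit 1) (nat_lit 30) (nat_lit 2) (nat_lit 2) (nat_lit 7) true (nat_lit 2) true (nat_lit 6) true (nat_lit 1) true (nat_lit 9) true (nat_lit 9) (.e false (nat_lit 1) (nat_lit 158) (nat_lit 7) (nat_lit 6) (.e true (nat_lit 1) (nat_lit 303) (nat_lit 2) (nat_lit 9) .nil)))) .leaf)) (nat_lit 76800) (nat_lit 225) (.n (nat_lit 106) (nat_lit 2) (.n (nat_lit 108) (nat_lit 1) (.p (nat_lit 109) (nat_lit 2) (.p (nat_lit 110) (nat_lit 2) (.n (nat_lit 112) (nat_lit 2) (.n (nat_lit 113) (nat_lit 3) (.p (nat_lit 115) (nat_lit 1) (.p (nat_lit 116) (nat_lit 3) (.n (nat_lit 117) (nat_lit 3) (.p (nat_lit 118) (nat_lit 2) (.n (nat_lit 119) (nat_lit 3) (.p (nat_lit 120) (nat_lit 1) (.n (nat_lit 121) (nat_lit 1) (.n (nat_lit 122) (nat_lit 2) (.n (nat_lit 123) (nat_lit 2) (.p (nat_lit 124) (nat_lit 2) (.n (nat_lit 125) (nat_lit 2) (.n (nat_lit 126) (nat_lit 2) (.n (nat_lit 127) (nat_lit 3) (.n (nat_lit 128) (nat_lit 1) (.p (nat_lit 129) (nat_lit 1) (.n (nat_lit 130) (nat_lit 1) (.n (nat_lit 131) (nat_lit 3) .z))))))))))))))))))))))) (.ct dC2b_c306 (nat_lit 1) (nat_lit 10) (.s true (nat_lit 1) (nat_lit 14) (nat_lit 1) (nat_lit 2) (nat_lit 0) true (nat_lit 7) true (nat_lit 10) false (nat_lit 0) true (nat_lit 9) true (nat_lit 8) (.e true (nat_lit 1) (nat_lit 39) (nat_lit 3) (nat_lit 7) (.e false (nat_lit 1) (nat_lit 14) (nat_lit 13) (nat_lit 0) (.e false (nat_lit 1) (nat_lit 60) (nat_lit 1) (nat_lit 9) (.e false (nat_lit 1) (nat_lit 61) (nat_lit 1) (nat_lit 9) (.e true (nat_lit 2) (nat_lit 63) (nat_lit 1) (nat_lit 9) (.e true (nat_lit 1) (nat_lit 64) (nat_lit 1) (nat_lit 9) (.e false (nat_lit 1) (nat_lit 65) (nat_lit 1) (nat_lit 9) (.e false (nat_lit 1) (nat_lit 67) (nat_lit 1) (nat_lit 9) (.e true (nat_lit 1) (nat_lit 68) (nat_lit 1) (nat_lit 9) (.e false (nat_lit 2) (nat_lit 71) (nat_lit 1) (nat_lit 9) (.e false (nat_lit 1) (nat_lit 73) (nat_lit 1) (nat_lit 9) (.e false (nat_lit 1) (nat_lit 52) (nat_lit 2) (nat_lit 8) (.e false (nat_lit 1) (nat_lit 53) (nat_lit 2) (nat_lit 8) (.e false (nat_lit 1) (nat_lit 54) (nat_lit 2) (nat_lit 8) (.e true (nat_lit 2) (nat_lit 55) (nat_lit 2) (nat_lit 8) (.e true (nat_lit 1) (nat_lit 56) (nat_lit 2) (nat_lit 8) (.e false (nat_lit 1) (nat_lit 57) (nat_lit 2) (nat_lit 8) (.u (nat_lit 2) (.n (nat_lit 0) (nat_lit 1) (.n (nat_lit 3) (nat_lit 1) (.n (nat_lit 6) (nat_lit 1) (.p (nat_lit 7) (nat_lit 1) (.p (nat_lit 8) (nat_lit 1) (.n (nat_lit 9) (nat_lit 1) (.n (nat_lit 10) (nat_lit 1) (.p (nat_lit 11) (nat_lit 1) (.n (nat_lit 12) (nat_lit 1) (.n (nat_lit 14) (nat_lit 2) (.p (nat_lit 16) (nat_lit 1) (.p (nat_lit 20) (nat_lit 1) (.p (nat_lit 21) (nat_lit 1) (.p (nat_lit 24) (nat_lit 1) (.p (nat_lit 25) (nat_lit 1) .z))))))))))))))) .nil)))))))))))))))))))) (.nd (.nd (.nd .leaf (nat_lit 76802) (nat_lit 291) (.p (nat_lit 159) (nat_lit 1) .z) .df .leaf) (nat_lit 76805) (nat_lit 533) (.n (nat_lit 205) (nat_lit 2) (.n (nat_lit 206) (nat_lit 3) (.p (nat_lit 207) (nat_lit 1) (.n (nat_lit 208) (nat_lit 1) (.n (nat_lit 210) (nat_lit 2) (.p (nat_lit 211) (nat_lit 3) (.p (nat_lit 212) (nat_lit 3) (.n (nat_lit 213) (nat_lit 1) (.n (nat_lit 214) (nat_lit 1) (.p (nat_lit 215) (nat_lit 2) (.p (nat_lit 216) (nat_lit 3) (.p (nat_lit 217) (nat_lit 2) (.n (nat_lit 218) (nat_lit 3) (.n (nat_lit 219) (nat_lit 1) (.p (nat_lit 220) (nat_lit 3) (.p (nat_lit 222) (nat_lit 3) (.n (nat_lit 223) (nat_lit 2) (.n (nat_lit 224) (nat_lit 3) (.p (nat_lit 225) (nat_lit 2) (.p (nat_lit 227) (nat_lit 3) (.n (nat_lit 228) (nat_lit 1) (.n (nat_lit 230) (nat_lit 2) (.n (nat_lit 231) (nat_lit 2) (.n (nat_lit 232) (nat_lit 2) (.p (nat_lit 234) (nat_lit 2) (.p (nat_lit 240) (nat_lit 2) (.n (nat_lit 241) (nat_lit 2) (.p (nat_lit 242) (nat_lit 2) (.n (nat_lit 245) (nat_lit 2) (.p (nat_lit 246) (nat_lit 3) (.p (nat_lit 248) (nat_lit 2) (.n (nat_lit 249) (nat_lit 3) (.n (nat_lit 250) (nat_lit 1) (.p (nat_lit 251) (nat_lit 1) .z)))))))))))))))))))))))))))))))))) (.ct dC2b_c307 (nat_lit 1) (nat_lit 9) (.s true (nat_lit 1) (nat_lit 14) (nat_lit 1) (nat_lit 2) (nat_lit 5) true (nat_lit 4) true (nat_lit 9) true (nat_lit 3) true (nat_lit 13) true (nat_lit 12) (.e true (nat_lit 1) (nat_lit 39) (nat_lit 12) (nat_lit 4) (.e false (nat_lit 1) (nat_lit 33) (nat_lit 14) (nat_lit 3) (.e true (nat_lit 1) (nat_lit 34) (nat_lit 14) (nat_lit 3) (.e true (nat_lit 1) (nat_lit 37) (nat_lit 14) (nat_lit 3) (.e true (nat_lit 1) (nat_lit 38) (nat_lit 14) (nat_lit 3) (.e true (nat_lit 3) (nat_lit 132) (nat_lit 1) (nat_lit 13) (.e false (nat_lit 1) (nat_lit 133) (nat_lit 1) (nat_lit 13) (.e false (nat_lit 1) (nat_lit 134) (nat_lit 1) (nat_lit 13) (.e true (nat_lit 2) (nat_lit 136) (nat_lit 1) (nat_lit 13) (.e true (nat_lit 1) (nat_lit 137) (nat_lit 1) (nat_lit 13) (.e false (nat_lit 3) (nat_lit 138) (nat_lit 1) (nat_lit 13) (.e false (nat_lit 2) (nat_lit 139) (nat_lit 1) (nat_lit 13) (.e true (nat_lit 2) (nat_lit 140) (nat_lit 1) (nat_lit 13) (.e true (nat_lit 3) (nat_lit 141) (nat_lit 1) (nat_lit 13) (.e true (nat_lit 3) (nat_lit 143) (nat_lit 1) (nat_lit 13) (.e true (nat_lit 1) (nat_lit 144) (nat_lit 1) (nat_lit 13) (.e true (nat_lit 1) (nat_lit 145) (nat_lit 1) (nat_lit 13) (.e true (nat_lit 3) (nat_lit 147) (nat_lit 1) (nat_lit 13) (.e false (nat_lit 2) (nat_lit 149) (nat_lit 1) (nat_lit 13) (.e true (nat_lit 2) (nat_lit 150) (nat_lit 1) (nat_lit 13) dC2b_i90)))))))))))))))))))))) .leaf) (nat_lit 76807) (nat_lit 708) (.p (nat_lit 304) (nat_lit 1) .z) .df (.nd (.nd .leaf (nat_lit 76820) (nat_lit 1446) (.n (nat_lit 436) (nat_lit 2) (.p (nat_lit 437) (nat_lit 3) (.n (nat_lit 438) (nat_lit 1) (.p (nat_lit 439) (nat_lit 3) (.n (nat_lit 440) (nat_lit 1) (.p (nat_lit 441) (nat_lit 2) (.p (nat_lit 442) (nat_lit 1) (.p (nat_lit 443) (nat_lit 2) (.p (nat_lit 444) (nat_lit 3) (.p (nat_lit 447) (nat_lit 3) (.n (nat_lit 448) (nat_lit 1) (.p (nat_lit 450) (nat_lit 3) .z)))))))))))) (.ct dC2b_c53 (nat_lit 1) (nat_lit 2) (.s false (nat_lit 1) (nat_lit 20) (nat_lit 14) (nat_lit 1) (nat_lit 2) true (nat_lit 0) true (nat_lit 9) true (nat_lit 2) true (nat_lit 4) true (nat_lit 10) (.e false (nat_lit 1) (nat_lit 47) (nat_lit 39) (nat_lit 0) (.e false (nat_lit 1) (nat_lit 289) (nat_lit 2) (nat_lit 9) (.e true (nat_lit 2) (nat_lit 290) (nat_lit 2) (nat_lit 9) (.e false (nat_lit 2) (nat_lit 291) (nat_lit 2) (nat_lit 9) (.e false (nat_lit 1) (nat_lit 292) (nat_lit 2) (nat_lit 9) (.e false (nat_lit 2) (nat_lit 293) (nat_lit 2) (nat_lit 9) (.e true (nat_lit 1) (nat_lit 294) (nat_lit 2) (nat_lit 9) (.e true (nat_lit 2) (nat_lit 295) (nat_lit 2) (nat_lit 9) (.e true (nat_lit 2) (nat_lit 296) (nat_lit 2) (nat_lit 9) (.e false (nat_lit 2) (nat_lit 303) (nat_lit 2) (nat_lit 9) (.e true (nat_lit 2) (nat_lit 304) (nat_lit 2) (nat_lit 9) (.e false (nat_lit 1) (nat_lit 102) (nat_lit 14) (nat_lit 4) (.e true (nat_lit 1) (nat_lit 103) (nat_lit 14) (nat_lit 4) (.e false (nat_lit 1) (nat_lit 104) (nat_lit 14) (nat_lit 4) (.e false (nat_lit 1) (nat_lit 329) (nat_lit 1) (nat_lit 10) (.e true (nat_lit 1) (nat_lit 334) (nat_lit 1) (nat_lit 10) (.u (nat_lit 2) (.n (nat_lit 1) (nat_lit 1) (.p (nat_lit 2) (nat_lit 1) (.n (nat_lit 6) (nat_lit 1) (.n (nat_lit 80) (nat_lit 1) (.p (nat_lit 81) (nat_lit 1) (.p (nat_lit 86) (nat_lit 1) (.p (nat_lit 87) (nat_lit 1) .z))))))) .nil))))))))))))))))))) .leaf) (nat_lit 77824) (nat_lit 214) (.p (nat_lit 106) (nat_lit 3) (.n (nat_lit 107) (nat_lit 3) (.n (nat_lit 108) (nat_lit 2) (.p (nat_lit 109) (nat_lit 3) (.p (nat_lit 110) (nat_lit 3) (.n (nat_lit 113) (nat_lit 1) (.p (nat_lit 114) (nat_lit 1) (.p (nat_lit 115) (nat_lit 2) (.n (nat_lit 116) (nat_lit 1) (.n (nat_lit 117) (nat_lit 1) (.p (nat_lit 118) (nat_lit 1) (.p (nat_lit 119) (nat_lit 3) (.n (nat_lit 120) (nat_lit 2) (.p (nat_lit 122) (nat_lit 3) (.p (nat_lit 123) (nat_lit 2) (.n (nat_lit 124) (nat_lit 1) (.p (nat_lit 125) (nat_lit 1) (.n (nat_lit 126) (nat_lit 3) (.n (nat_lit 127) (nat_lit 3) (.n (nat_lit 128) (nat_lit 1) (.n (nat_lit 130) (nat_lit 2) (.n (nat_lit 131) (nat_lit 3) .z)))))))))))))))))))))) (.ct dC2b_c306 (nat_lit 1) (nat_lit 10) (.s true (nat_lit 1) (nat_lit 15) (nat_lit 1) (nat_lit 2) (nat_lit 0) true (nat_lit 7) true (nat_lit 10) false (nat_lit 0) true (nat_lit 9) true (nat_lit 8) (.e true (nat_lit 1) (nat_lit 40) (nat_lit 3) (nat_lit 7) (.e false (nat_lit 1) (nat_lit 15) (nat_lit 13) (nat_lit 0) (.e false (nat_lit 1) (nat_lit 64) (nat_lit 1) (nat_lit 9) (.e false (nat_lit 1) (nat_lit 69) (nat_lit 1) (nat_lit 9) (.e true (nat_lit 1) (nat_lit 73) (nat_lit 1) (nat_lit 9) (.e false (nat_lit 1) (nat_lit 57) (nat_lit 2) (nat_lit 8) (.u (nat_lit 2) (.n (nat_lit 4) (nat_lit 1) (.n (nat_lit 17) (nat_lit 1) (.p (nat_lit 20) (nat_lit 1) .z))) .nil))))))))) .leaf))) (nat_lit 77826) (nat_lit 292) (.p (nat_lit 160) (nat_lit 1) .z) .df (.nd (.nd (.nd (.nd .leaf (nat_lit 77829) (nat_lit 517) (.p (nat_lit 205) (nat_lit 2) (.n (nat_lit 207) (nat_lit 1) (.p (nat_lit 209) (nat_lit 3) (.p (nat_lit 210) (nat_lit 3) (.p (nat_lit 211) (nat_lit 1) (.p (nat_lit 213) (nat_lit 2) (.n (nat_lit 214) (nat_lit 3) (.p (nat_lit 215) (nat_lit 3) (.p (nat_lit 216) (nat_lit 1) (.p (nat_lit 217) (nat_lit 1) (.n (nat_lit 218) (nat_lit 1) (.p (nat_lit 219) (nat_lit 3) (.p (nat_lit 220) (nat_lit 2) (.p (nat_lit 221) (nat_lit 1) (.p (nat_lit 222) (nat_lit 3) (.p (nat_lit 223) (nat_lit 1) (.n (nat_lit 224) (nat_lit 2) (.p (nat_lit 225) (nat_lit 1) (.n (nat_lit 226) (nat_lit 1) (.n (nat_lit 227) (nat_lit 3) (.n (nat_lit 228) (nat_lit 1) (.n (nat_lit 229) (nat_lit 1) (.n (nat_lit 230) (nat_lit 2) (.p (nat_lit 231) (nat_lit 2) (.n (nat_lit 232) (nat_lit 2) (.n (nat_lit 240) (nat_lit 1) (.p (nat_lit 241) (nat_lit 1) (.p (nat_lit 242) (nat_lit 1) (.p (nat_lit 243) (nat_lit 2) (.p (nat_lit 244) (nat_lit 3) (.p (nat_lit 248) (nat_lit 3) (.p (nat_lit 250) (nat_lit 3) (.p (nat_lit 251) (nat_lit 1) .z))))))))))))))))))))))))))))))))) (.ct dC2b_c307 (nat_lit 1) (nat_lit 9) (.s false (nat_lit 1) (nat_lit 15) (nat_lit 2) (nat_lit 5) (nat_lit 1) true (nat_lit 8) true (nat_lit 13) true (nat_lit 3) true (nat_lit 12) true (nat_lit 9) dC2b_i91)) .leaf) (nat_lit 77831) (nat_lit 717) (.p (nat_lit 289) (nat_lit 1) (.n (nat_lit 290) (nat_lit 3) (.p (nat_lit 291) (nat_lit 2) (.p (nat_lit 292) (nat_lit 3) (.n (nat_lit 293) (nat_lit 1) (.p (nat_lit 295) (nat_lit 2) (.p (nat_lit 296) (nat_lit 2) (.n (nat_lit 298) (nat_lit 1) (.n (nat_lit 299) (nat_lit 1) (.p (nat_lit 301) (nat_lit 2) (.p (nat_lit 303) (nat_lit 3) (.n (nat_lit 304) (nat_lit 2) .z)))))))))))) (.ct dC2b_c52 (nat_lit 1) (nat_lit 4) (.s false (nat_lit 3) (nat_lit 7) (nat_lit 4) (nat_lit 6) (nat_lit 2) true (nat_lit 2) true (nat_lit 7) true (nat_lit 4) true (nat_lit 6) true (nat_lit 5) (.s true (nat_lit 3) (nat_lit 7) (nat_lit 6) (nat_lit 4) (nat_lit 2) true (nat_lit 1) true (nat_lit 7) true (nat_lit 4) true (nat_lit 5) true (nat_lit 6) (.s false (nat_lit 1) (nat_lit 15) (nat_lit 2) (nat_lit 1) (nat_lit 7) true (nat_lit 0) true (nat_lit 4) true (nat_lit 2) true (nat_lit 7) true (nat_lit 8) (.s false (nat_lit 1) (nat_lit 18) (nat_lit 2) (nat_lit 1) (nat_lit 6) true (nat_lit 1) true (nat_lit 5) true (nat_lit 1) true (nat_lit 7) true (nat_lit 8) (.s true (nat_lit 3) (nat_lit 19) (nat_lit 2) (nat_lit 2) (nat_lit 4) true (nat_lit 2) true (nat_lit 6) true (nat_lit 1) true (nat_lit 7) true (nat_lit 7) (.s false (nat_lit 3) (nat_lit 20) (nat_lit 1) (nat_lit 2) (nat_lit 4) true (nat_lit 3) true (nat_lit 6) true (nat_lit 0) true (nat_lit 8) true (nat_lit 7) (.s false (nat_lit 3) (nat_lit 20) (nat_lit 2) (nat_lit 1) (nat_lit 4) true (nat_lit 2) true (nat_lit 6) true (nat_lit 0) true (nat_lit 7) true (nat_lit 8) (.s true (nat_lit 1) (nat_lit 32) (nat_lit 2) (nat_lit 2) (nat_lit 2) true (nat_lit 4) true (nat_lit 7) false (nat_lit 0) true (nat_lit 7) true (nat_lit 7) dC2b_i92))))))))) .leaf) (nat_lit 77841) (nat_lit 1150) (.p (nat_lit 335) (nat_lit 2) (.n (nat_lit 336) (nat_lit 2) (.n (nat_lit 337) (nat_lit 2) (.p (nat_lit 338) (nat_lit 2) (.n (nat_lit 339) (nat_lit 3) (.p (nat_lit 340) (nat_lit 2) (.p (nat_lit 341) (nat_lit 3) (.n (nat_lit 342) (nat_lit 2) (.p (nat_lit 343) (nat_lit 3) (.n (nat_lit 344) (nat_lit 1) (.n (nat_lit 346) (nat_lit 3) (.n (nat_lit 347) (nat_lit 2) (.p (nat_lit 349) (nat_lit 1) (.p (nat_lit 350) (nat_lit 1) (.n (nat_lit 351) (nat_lit 3) (.p (nat_lit 352) (nat_lit 2) (.p (nat_lit 353) (nat_lit 2) (.n (nat_lit 354) (nat_lit 3) (.p (nat_lit 356) (nat_lit 3) (.n (nat_lit 357) (nat_lit 3) (.p (nat_lit 358) (nat_lit 2) (.n (nat_lit 359) (nat_lit 3) (.n (nat_lit 360) (nat_lit 3) (.p (nat_lit 361) (nat_lit 3) (.p (nat_lit 362) (nat_lit 2) (.n (nat_lit 363) (nat_lit 1) (.p (nat_lit 366) (nat_lit 1) (.p (nat_lit 368) (nat_lit 1) (.n (nat_lit 369) (nat_lit 3) (.n (nat_lit 370) (nat_lit 1) (.n (nat_lit 371) (nat_lit 1) (.p (nat_lit 372) (nat_lit 3) (.n (nat_lit 373) (nat_lit 1) (.n (nat_lit 374) (nat_lit 3) (.p (nat_lit 375) (nat_lit 1) (.n (nat_lit 379) (nat_lit 1) (.p (nat_lit 380) (nat_lit 3) (.p (nat_lit 382) (nat_lit 1) (.n (nat_lit 383) (nat_lit 3) (.n (nat_lit 384) (nat_lit 2) (.p (nat_lit 385) (nat_lit 3) (.n (nat_lit 387) (nat_lit 2) (.p (nat_lit 388) (nat_lit 2) (.n (nat_lit 389) (nat_lit 2) .z)))))))))))))))))))))))))))))))))))))))))))) (.ct dC2b_c308 (nat_lit 1) (nat_lit 6) (.s true (nat_lit 1) (nat_lit 17) (nat_lit 6) (nat_lit 1) (nat_lit 6) false (nat_lit 0) true (nat_lit 12) true (nat_lit 6) true (nat_lit 12) true (nat_lit 17) (.e true (nat_lit 2) (nat_lit 132) (nat_lit 6) (nat_lit 12) (.e true (nat_lit 2) (nat_lit 134) (nat_lit 6) (nat_lit 12) dC2b_i94)))) (.nd (.nd .leaf (nat_lit 77844) (nat_lit 1425) (.n (nat_lit 436) (nat_lit 1) (.n (nat_lit 437) (nat_lit 2) (.p (nat_lit 438) (nat_lit 3) (.n (nat_lit 439) (nat_lit 2) (.p (nat_lit 440) (nat_lit 3) (.p (nat_lit 441) (nat_lit 1) (.n (nat_lit 442) (nat_lit 3) (.p (nat_lit 443) (nat_lit 1) (.n (nat_lit 447) (nat_lit 2) (.p (nat_lit 448) (nat_lit 3) .z)))))))))) (.ct dC2b_c53 (nat_lit 1) (nat_lit 2) (.s false (nat_lit 1) (nat_lit 32) (nat_lit 2) (nat_lit 2) (nat_lit 7) true (nat_lit 2) true (nat_lit 6) true (nat_lit 1) true (nat_lit 9) true (nat_lit 9) (.e false (nat_lit 1) (nat_lit 160) (nat_lit 7) (nat_lit 6) (.e true (nat_lit 1) (nat_lit 289) (nat_lit 2) (nat_lit 9) (.e false (nat_lit 3) (nat_lit 290) (nat_lit 2) (nat_lit 9) (.e true (nat_lit 2) (nat_lit 291) (nat_lit 2) (nat_lit 9) (.e true (nat_lit 3) (nat_lit 292) (nat_lit 2) (nat_lit 9) (.e false (nat_lit 1) (nat_lit 293) (nat_lit 2) (nat_lit 9) (.e true (nat_lit 2) (nat_lit 295) (nat_lit 2) (nat_lit 9) (.e true (nat_lit 2) (nat_lit 296) (nat_lit 2) (nat_lit 9) (.e false (nat_lit 1) (nat_lit 299) (nat_lit 2) (nat_lit 9) (.e true (nat_lit 2) (nat_lit 301) (nat_lit 2) (nat_lit 9) (.e true (nat_lit 3) (nat_lit 303) (nat_lit 2) (nat_lit 9) (.e false (nat_lit 2) (nat_lit 304) (nat_lit 2) (nat_lit 9) (.e false (nat_lit 1) (nat_lit 298) (nat_lit 2) (nat_lit 9) (.u (nat_lit 2) (.n (nat_lit 2) (nat_lit 1) (.n (nat_lit 3) (nat_lit 1) (.p (nat_lit 4) (nat_lit 1) (.n (nat_lit 5) (nat_lit 2) (.p (nat_lit 6) (nat_lit 1) (.p (nat_lit 9) (nat_lit 1) (.n (nat_lit 80) (nat_lit 1) (.n (nat_lit 81) (nat_lit 1) (.p (nat_lit 84) (nat_lit 1) (.p (nat_lit 94) (nat_lit 1) .z)))))))))) .nil)))))))))))))))) .leaf) (nat_lit 78848) (nat_lit 221) (.p (nat_lit 109) (nat_lit 1) (.n (nat_lit 110) (nat_lit 3) (.n (nat_lit 112) (nat_lit 3) (.n (nat_lit 113) (nat_lit 2) (.p (nat_lit 114) (nat_lit 3) (.p (nat_lit 115) (nat_lit 2) (.p (nat_lit 116) (nat_lit 2) (.p (nat_lit 118) (nat_lit 3) (.p (nat_lit 119) (nat_lit 3) (.p (nat_lit 120) (nat_lit 2) (.p (nat_lit 121) (nat_lit 1) (.n (nat_lit 122) (nat_lit 3) (.n (nat_lit 123) (nat_lit 3) (.p (nat_lit 125) (nat_lit 2) (.p (nat_lit 126) (nat_lit 3) (.p (nat_lit 127) (nat_lit 3) (.n (nat_lit 128) (nat_lit 1) (.n (nat_lit 130) (nat_lit 2) (.n (nat_lit 131) (nat_lit 3) .z))))))))))))))))))) (.ct dC2b_c306 (nat_lit 1) (nat_lit 10) (.s false (nat_lit 1) (nat_lit 18) (nat_lit 0) (nat_lit 1) (nat_lit 1) true (nat_lit 7) true (nat_lit 9) false (nat_lit 2) true (nat_lit 10) true (nat_lit 9) (.e false (nat_lit 1) (nat_lit 41) (nat_lit 3) (nat_lit 7) (.e false (nat_lit 1) (nat_lit 69) (nat_lit 1) (nat_lit 9) (.e false (nat_lit 1) (nat_lit 18) (nat_lit 8) (nat_lit 2) (.e false (nat_lit 1) (nat_lit 74) (nat_lit 0) (nat_lit 10) (.e false (nat_lit 1) (nat_lit 79) (nat_lit 0) (nat_lit 10) (.e false (nat_lit 1) (nat_lit 61) (nat_lit 1) (nat_lit 9) (.e true (nat_lit 1) (nat_lit 63) (nat_lit 1) (nat_lit 9) (.e false (nat_lit 1) (nat_lit 64) (nat_lit 1) (nat_lit 9) (.e false (nat_lit 1) (nat_lit 66) (nat_lit 1) (nat_lit 9) (.e true (nat_lit 1) (nat_lit 71) (nat_lit 1) (nat_lit 9) (.e true (nat_lit 1) (nat_lit 72) (nat_lit 1) (nat_lit 9) (.e true (nat_lit 1) (nat_lit 73) (nat_lit 1) (nat_lit 9) (.u (nat_lit 2) (.p (nat_lit 1) (nat_lit 1) (.p (nat_lit 2) (nat_lit 1) (.p (nat_lit 4) (nat_lit 1) (.n (nat_lit 20) (nat_lit 1) (.n (nat_lit 21) (nat_lit 1) .z))))) .nil))))))))))))))) .leaf)) (nat_lit 78850) (nat_lit 293) (.p (nat_lit 161) (nat_lit 1) .z) .df (.nd (.nd (.nd .leaf (nat_lit 78853) (nat_lit 534) (.n (nat_lit 205) (nat_lit 2) (.p (nat_lit 206) (nat_lit 1) (.n (nat_lit 207) (nat_lit 1) (.n (nat_lit 208) (nat_lit 1) (.n (nat_lit 209) (nat_lit 1) (.p (nat_lit 211) (nat_lit 3) (.p (nat_lit 212) (nat_lit 3) (.p (nat_lit 213) (nat_lit 3) (.n (nat_lit 214) (nat_lit 3) (.p (nat_lit 215) (nat_lit 1) (.n (nat_lit 217) (nat_lit 1) (.p (nat_lit 218) (nat_lit 3) (.n (nat_lit 219) (nat_lit 1) (.p (nat_lit 221) (nat_lit 1) (.p (nat_lit 222) (nat_lit 3) (.p (nat_lit 225) (nat_lit 3) (.n (nat_lit 226) (nat_lit 3) (.p (nat_lit 228) (nat_lit 1) (.p (nat_lit 229) (nat_lit 3) (.p (nat_lit 230) (nat_lit 2) (.p (nat_lit 232) (nat_lit 1) (.p (nat_lit 234) (nat_lit 2) (.n (nat_lit 235) (nat_lit 2) (.p (nat_lit 237) (nat_lit 2) (.p (nat_lit 239) (nat_lit 2) (.p (nat_lit 241) (nat_lit 2) (.n (nat_lit 242) (nat_lit 3) (.n (nat_lit 243) (nat_lit 2) (.n (nat_lit 244) (nat_lit 1) (.p (nat_lit 245) (nat_lit 2) (.n (nat_lit 246) (nat_lit 3) (.p (nat_lit 247) (nat_lit 3) (.p (nat_lit 248) (nat_lit 1) (.n (nat_lit 249) (nat_lit 1) (.p (nat_lit 250) (nat_lit 3) .z))))))))))))))))))))))))))))))))))) (.ct dC2b_c307 (nat_lit 1) (nat_lit 9) (.s false (nat_lit 1) (nat_lit 14) (nat_lit 1) (nat_lit 5) (nat_lit 2) true (nat_lit 8) true (nat_lit 12) true (nat_lit 3) true (nat_lit 13) true (nat_lit 9) (.e true (nat_lit 1) (nat_lit 60) (nat_lit 6) (nat_lit 8) dC2b_i96))) .leaf) (nat_lit 78855) (nat_lit 721) (.n (nat_lit 289) (nat_lit 2) (.p (nat_lit 290) (nat_lit 2) (.p (nat_lit 291) (nat_lit 3) (.p (nat_lit 293) (nat_lit 3) (.p (nat_lit 294) (nat_lit 3) (.p (nat_lit 295) (nat_lit 1) (.p (nat_lit 297) (nat_lit 2) (.n (nat_lit 298) (nat_lit 3) (.p (nat_lit 303) (nat_lit 3) (.n (nat_lit 304) (nat_lit 2) .z)))))))))) (.ct dC2b_c52 (nat_lit 1) (nat_lit 4) (.s true (nat_lit 3) (nat_lit 18) (nat_lit 2) (nat_lit 1) (nat_lit 6) true (nat_lit 1) true (nat_lit 5) true (nat_lit 1) true (nat_lit 7) true (nat_lit 8) (.s false (nat_lit 3) (nat_lit 41) (nat_lit 2) (nat_lit 1) (nat_lit 2) true (nat_lit 4) true (nat_lit 7) false (nat_lit 1) true (nat_lit 7) true (nat_lit 8) (.e true (nat_lit 3) (nat_lit 94) (nat_lit 6) (nat_lit 5) (.e false (nat_lit 3) (nat_lit 158) (nat_lit 2) (nat_lit 7) (.e false (nat_lit 3) (nat_lit 160) (nat_lit 2) (nat_lit 7) (.e true (nat_lit 3) (nat_lit 161) (nat_lit 2) (nat_lit 7) (.e true (nat_lit 3) (nat_lit 162) (nat_lit 2) (nat_lit 7) (.e false (nat_lit 3) (nat_lit 163) (nat_lit 2) (nat_lit 7) (.e true (nat_lit 3) (nat_lit 185) (nat_lit 1) (nat_lit 8) (.e true (nat_lit 1) (nat_lit 186) (nat_lit 1) (nat_lit 8) (.e true (nat_lit 3) (nat_lit 188) (nat_lit 1) (nat_lit 8) (.e true (nat_lit 3) (nat_lit 189) (nat_lit 1) (nat_lit 8) (.e false (nat_lit 3) (nat_lit 190) (nat_lit 1) (nat_lit 8) (.e true (nat_lit 3) (nat_lit 74) (nat_lit 7) (nat_lit 4) (.e true (nat_lit 3) (nat_lit 75) (nat_lit 7) (nat_lit 4) (.e false (nat_lit 1) (nat_lit 76) (nat_lit 7) (nat_lit 4) (.e false (nat_lit 2) (nat_lit 78) (nat_lit 7) (nat_lit 4) (.e false (nat_lit 1) (nat_lit 79) (nat_lit 7) (nat_lit 4) (.e false (nat_lit 3) (nat_lit 165) (nat_lit 2) (nat_lit 7) (.u (nat_lit 2) (.p (nat_lit 0) (nat_lit 1) (.n (nat_lit 2) (nat_lit 1) (.n (nat_lit 3) (nat_lit 1) (.n (nat_lit 4) (nat_lit 2) (.n (nat_lit 5) (nat_lit 2) (.p (nat_lit 6) (nat_lit 2) (.n (nat_lit 7) (nat_lit 2) (.n (nat_lit 8) (nat_lit 1) (.p (nat_lit 9) (nat_lit 4) (.n (nat_lit 11) (nat_lit 1) (.n (nat_lit 14) (nat_lit 3) (.n (nat_lit 34) (nat_lit 1) (.p (nat_lit 35) (nat_lit 1) (.p (nat_lit 36) (nat_lit 1) (.n (nat_lit 37) (nat_lit 1) (.p (nat_lit 60) (nat_lit 1) .z)))))))))))))))) .nil))))))))))))))))))))) .leaf) (nat_lit 78864) (nat_lit 1113) (.n (nat_lit 335) (nat_lit 2) (.n (nat_lit 336) (nat_lit 3) (.p (nat_lit 337) (nat_lit 1) (.n (nat_lit 338) (nat_lit 1) (.n (nat_lit 339) (nat_lit 2) (.p (nat_lit 341) (nat_lit 2) (.n (nat_lit 342) (nat_lit 3) (.p (nat_lit 343) (nat_lit 3) (.n (nat_lit 344) (nat_lit 2) (.n (nat_lit 346) (nat_lit 3) (.n (nat_lit 347) (nat_lit 2) (.n (nat_lit 349) (nat_lit 1) (.n (nat_lit 350) (nat_lit 1) (.n (nat_lit 351) (nat_lit 3) (.p (nat_lit 352) (nat_lit 2) (.n (nat_lit 353) (nat_lit 3) (.p (nat_lit 354) (nat_lit 3) (.n (nat_lit 355) (nat_lit 2) (.n (nat_lit 356) (nat_lit 3) (.p (nat_lit 357) (nat_lit 3) (.n (nat_lit 359) (nat_lit 1) (.n (nat_lit 360) (nat_lit 1) (.n (nat_lit 361) (nat_lit 1) (.p (nat_lit 362) (nat_lit 3) (.n (nat_lit 363) (nat_lit 1) (.p (nat_lit 364) (nat_lit 1) (.n (nat_lit 366) (nat_lit 1) (.p (nat_lit 367) (nat_lit 3) (.n (nat_lit 368) (nat_lit 1) (.n (nat_lit 369) (nat_lit 2) (.p (nat_lit 371) (nat_lit 3) (.n (nat_lit 372) (nat_lit 1) (.p (nat_lit 373) (nat_lit 1) (.p (nat_lit 374) (nat_lit 2) (.p (nat_lit 375) (nat_lit 1) (.n (nat_lit 377) (nat_lit 2) (.p (nat_lit 379) (nat_lit 1) (.p (nat_lit 380) (nat_lit 3) (.n (nat_lit 381) (nat_lit 1) (.n (nat_lit 382) (nat_lit 3) (.n (nat_lit 383) (nat_lit 2) (.n (nat_lit 389) (nat_lit 2) .z)))))))))))))))))))))))))))))))))))))))))) (.ct dC2b_c308 (nat_lit 1) (nat_lit 6) (.s false (nat_lit 1) (nat_lit 18) (nat_lit 16) (nat_lit 1) (nat_lit 1) true (nat_lit 0) true (nat_lit 17) true (nat_lit 5) true (nat_lit 6) true (nat_lit 17) (.e true (nat_lit 1) (nat_lit 41) (nat_lit 36) (nat_lit 0) (.e true (nat_lit 3) (nat_lit 252) (nat_lit 1) (nat_lit 17) (.e true (nat_lit 2) (nat_lit 253) (nat_lit 1) (nat_lit 17) (.e false (nat_lit 3) (nat_lit 256) (nat_lit 1) (nat_lit 17) (.e true (nat_lit 1) (nat_lit 257) (nat_lit 1) (nat_lit 17) (.e false (nat_lit 2) (nat_lit 258) (nat_lit 1) (nat_lit 17) (.e false (nat_lit 1) (nat_lit 259) (nat_lit 1) (nat_lit 17) (.e true (nat_lit 1) (nat_lit 260) (nat_lit 1) (nat_lit 17) (.e false (nat_lit 1) (nat_lit 261) (nat_lit 1) (nat_lit 17) (.e true (nat_lit 3) (nat_lit 262) (nat_lit 1) (nat_lit 17) (.e true (nat_lit 3) (nat_lit 264) (nat_lit 1) (nat_lit 17) (.e true (nat_lit 3) (nat_lit 267) (nat_lit 1) (nat_lit 17) (.e false (nat_lit 3) (nat_lit 269) (nat_lit 1) (nat_lit 17) (.e false (nat_lit 1) (nat_lit 270) (nat_lit 1) (nat_lit 17) (.e false (nat_lit 2) (nat_lit 272) (nat_lit 1) (nat_lit 17) (.e true (nat_lit 1) (nat_lit 274) (nat_lit 1) (nat_lit 17) (.e true (nat_lit 1) (nat_lit 275) (nat_lit 1) (nat_lit 17) (.e true (nat_lit 2) (nat_lit 283) (nat_lit 1) (nat_lit 17) dC2b_i97)))))))))))))))))))) (.nd .leaf (nat_lit 78865) (nat_lit 1117) (.n (nat_lit 335) (nat_lit 3) (.n (nat_lit 336) (nat_lit 2) (.p (nat_lit 337) (nat_lit 3) (.n (nat_lit 338) (nat_lit 3) (.p (nat_lit 339) (nat_lit 1) (.p (nat_lit 340) (nat_lit 2) (.p (nat_lit 341) (nat_lit 3) (.p (nat_lit 342) (nat_lit 1) (.n (nat_lit 343) (nat_lit 3) (.p (nat_lit 344) (nat_lit 1) (.n (nat_lit 345) (nat_lit 1) (.p (nat_lit 346) (nat_lit 2) (.n (nat_lit 347) (nat_lit 1) (.n (nat_lit 350) (nat_lit 3) (.p (nat_lit 352) (nat_lit 1) (.n (nat_lit 353) (nat_lit 2) (.n (nat_lit 355) (nat_lit 1) (.p (nat_lit 356) (nat_lit 2) (.n (nat_lit 357) (nat_lit 2) (.n (nat_lit 358) (nat_lit 1) (.p (nat_lit 359) (nat_lit 2) (.n (nat_lit 360) (nat_lit 2) (.p (nat_lit 361) (nat_lit 3) (.p (nat_lit 362) (nat_lit 3) (.n (nat_lit 363) (nat_lit 2) (.n (nat_lit 364) (nat_lit 2) (.n (nat_lit 366) (nat_lit 3) (.p (nat_lit 367) (nat_lit 1) (.n (nat_lit 368) (nat_lit 2) (.p (nat_lit 370) (nat_lit 3) (.n (nat_lit 372) (nat_lit 3) (.p (nat_lit 373) (nat_lit 2) (.p (nat_lit 374) (nat_lit 3) (.p (nat_lit 375) (nat_lit 2) (.p (nat_lit 377) (nat_lit 3) (.p (nat_lit 379) (nat_lit 2) (.p (nat_lit 381) (nat_lit 1) (.p (nat_lit 382) (nat_lit 2) (.n (nat_lit 383) (nat_lit 1) (.p (nat_lit 389) (nat_lit 3) .z)))))))))))))))))))))))))))))))))))))))) (.ct dC2b_c308 (nat_lit 1) (nat_lit 6) (.s false (nat_lit 1) (nat_lit 18) (nat_lit 17) (nat_lit 1) (nat_lit 1) true (nat_lit 0) true (nat_lit 17) true (nat_lit 5) true (nat_lit 6) true (nat_lit 17) (.e true (nat_lit 1) (nat_lit 41) (nat_lit 37) (nat_lit 0) (.e true (nat_lit 1) (nat_lit 252) (nat_lit 1) (nat_lit 17) (.e false (nat_lit 1) (nat_lit 253) (nat_lit 1) (nat_lit 17) (.e false (nat_lit 3) (nat_lit 254) (nat_lit 1) (nat_lit 17) (.e true (nat_lit 1) (nat_lit 257) (nat_lit 1) (nat_lit 17) (.e true (nat_lit 2) (nat_lit 259) (nat_lit 1) (nat_lit 17) (.e false (nat_lit 2) (nat_lit 260) (nat_lit 1) (nat_lit 17) (.e true (nat_lit 2) (nat_lit 264) (nat_lit 1) (nat_lit 17) (.e true (nat_lit 1) (nat_lit 266) (nat_lit 1) (nat_lit 17) (.e true (nat_lit 1) (nat_lit 269) (nat_lit 1) (nat_lit 17) (.e true (nat_lit 1) (nat_lit 270) (nat_lit 1) (nat_lit 17) (.e true (nat_lit 2) (nat_lit 272) (nat_lit 1) (nat_lit 17) (.e true (nat_lit 3) (nat_lit 275) (nat_lit 1) (nat_lit 17) (.e true (nat_lit 3) (nat_lit 263) (nat_lit 1) (nat_lit 17) (.e false (nat_lit 3) (nat_lit 265) (nat_lit 1) (nat_lit 17) (.e true (nat_lit 1) (nat_lit 273) (nat_lit 1) (nat_lit 17) (.e false (nat_lit 2) (nat_lit 277) (nat_lit 1) (nat_lit 17) dC2b_i98))))))))))))))))))) .leaf)))) (nat_lit 78868) (nat_lit 1431) (.p (nat_lit 437) (nat_lit 1) (.p (nat_lit 438) (nat_lit 2) (.p (nat_lit 439) (nat_lit 3) (.n (nat_lit 440) (nat_lit 1) (.n (nat_lit 441) (nat_lit 1) (.p (nat_lit 442) (nat_lit 1) (.p (nat_lit 443) (nat_lit 3) (.n (nat_lit 444) (nat_lit 2) (.p (nat_lit 447) (nat_lit 3) (.n (nat_lit 448) (nat_lit 1) (.n (nat_lit 450) (nat_lit 1) .z))))))))))) (.ct dC2b_c53 (nat_lit 1) (nat_lit 2) (.s false (nat_lit 1) (nat_lit 77) (nat_lit 2) (nat_lit 2) (nat_lit 2) true (nat_lit 6) true (nat_lit 9) false (nat_lit 2) true (nat_lit 9) true (nat_lit 9) (.e false (nat_lit 1) (nat_lit 161) (nat_lit 7) (nat_lit 6) (.e false (nat_lit 2) (nat_lit 289) (nat_lit 2) (nat_lit 9) (.e true (nat_lit 2) (nat_lit 290) (nat_lit 2) (nat_lit 9) (.e true (nat_lit 3) (nat_lit 291) (nat_lit 2) (nat_lit 9) (.e true (nat_lit 3) (nat_lit 293) (nat_lit 2) (nat_lit 9) (.e true (nat_lit 3) (nat_lit 294) (nat_lit 2) (nat_lit 9) (.e true (nat_lit 1) (nat_lit 295) (nat_lit 2) (nat_lit 9) (.e true (nat_lit 2) (nat_lit 297) (nat_lit 2) (nat_lit 9) (.e false (nat_lit 3) (nat_lit 298) (nat_lit 2) (nat_lit 9) (.e true (nat_lit 3) (nat_lit 303) (nat_lit 2) (nat_lit 9) (.e false (nat_lit 2) (nat_lit 304) (nat_lit 2) (nat_lit 9) (.u (nat_lit 2) (.p (nat_lit 0) (nat_lit 1) (.n (nat_lit 2) (nat_lit 1) (.n (nat_lit 3) (nat_lit 1) (.p (nat_lit 4) (nat_lit 1) (.n (nat_lit 5) (nat_lit 1) (.p (nat_lit 8) (nat_lit 1) (.p (nat_lit 14) (nat_lit 1) .z))))))) .nil)))))))))))))) (.nd (.nd (.nd (.nd (.nd .leaf (nat_lit 79872) (nat_lit 205) (.p (nat_lit 106) (nat_lit 3) (.p (nat_lit 107) (nat_lit 1) (.p (nat_lit 108) (nat_lit 1) (.p (nat_lit 112) (nat_lit 3) (.n (nat_lit 113) (nat_lit 2) (.n (nat_lit 114) (nat_lit 3) (.p (nat_lit 115) (nat_lit 2) (.n (nat_lit 118) (nat_lit 2) (.n (nat_lit 119) (nat_lit 2) (.n (nat_lit 120) (nat_lit 1) (.n (nat_lit 121) (nat_lit 1) (.p (nat_lit 122) (nat_lit 2) (.n (nat_lit 123) (nat_lit 3) (.n (nat_lit 125) (nat_lit 1) (.p (nat_lit 126) (nat_lit 3) (.p (nat_lit 127) (nat_lit 3) (.n (nat_lit 128) (nat_lit 1) (.n (nat_lit 130) (nat_lit 3) (.p (nat_lit 131) (nat_lit 3) .z))))))))))))))))))) (.ct dC2b_c306 (nat_lit 1) (nat_lit 10) (.s true (nat_lit 3) (nat_lit 5) (nat_lit 1) (nat_lit 4) (nat_lit 2) true (nat_lit 4) true (nat_lit 8) true (nat_lit 5) true (nat_lit 9) true (nat_lit 6) (.s false (nat_lit 1) (nat_lit 6) (nat_lit 1) (nat_lit 0) (nat_lit 6) false (nat_lit 0) true (nat_lit 4) true (nat_lit 4) true (nat_lit 9) true (nat_lit 10) (.s true (nat_lit 2) (nat_lit 6) (nat_lit 1) (nat_lit 2) (nat_lit 3) true (nat_lit 2) true (nat_lit 7) true (nat_lit 4) true (nat_lit 9) true (nat_lit 8) (.s true (nat_lit 1) (nat_lit 12) (nat_lit 2) (nat_lit 1) (nat_lit 1) true (nat_lit 4) true (nat_lit 9) true (nat_lit 0) true (nat_lit 8) true (nat_lit 9) (.s false (nat_lit 2) (nat_lit 13) (nat_lit 2) (nat_lit 1) (nat_lit 1) true (nat_lit 4) true (nat_lit 9) true (nat_lit 0) true (nat_lit 8) true (nat_lit 9) (.s false (nat_lit 2) (nat_lit 14) (nat_lit 1) (nat_lit 0) (nat_lit 2) true (nat_lit 4) true (nat_lit 8) false (nat_lit 0) true (nat_lit 9) true (nat_lit 10) (.s true (nat_lit 1) (nat_lit 15) (nat_lit 1) (nat_lit 0) (nat_lit 2) true (nat_lit 4) true (nat_lit 8) false (nat_lit 0) true (nat_lit 9) true (nat_lit 10) (.s false (nat_lit 1) (nat_lit 15) (nat_lit 1) (nat_lit 2) (nat_lit 0) true (nat_lit 7) true (nat_lit 10) false (nat_lit 0) true (nat_lit 9) true (nat_lit 8) (.s true (nat_lit 1) (nat_lit 15) (nat_lit 2) (nat_lit 0) (nat_lit 1) true (nat_lit 4) true (nat_lit 9) false (nat_lit 0) true (nat_lit 8) true (nat_lit 10) (.s false (nat_lit 3) (nat_lit 16) (nat_lit 1) (nat_lit 1) (nat_lit 1) true (nat_lit 6) true (nat_lit 9) false (nat_lit 1) true (nat_lit 9) true (nat_lit 9) (.s false (nat_lit 2) (nat_lit 18) (nat_lit 0) (nat_lit 1) (nat_lit 1) true (nat_lit 7) true (nat_lit 9) false (nat_lit 2) true (nat_lit 10) true (nat_lit 9) (.e false (nat_lit 1) (nat_lit 24) (nat_lit 6) (nat_lit 4) (.e true (nat_lit 2) (nat_lit 26) (nat_lit 6) (nat_lit 4) (.e false (nat_lit 3) (nat_lit 49) (nat_lit 2) (nat_lit 8) (.e true (nat_lit 2) (nat_lit 50) (nat_lit 2) (nat_lit 8) (.e true (nat_lit 2) (nat_lit 52) (nat_lit 2) (nat_lit 8) (.e true (nat_lit 3) (nat_lit 54) (nat_lit 2) (nat_lit 8) dC2b_i99)))))))))))))))))) .leaf) (nat_lit 79874) (nat_lit 294) (.p (nat_lit 162) (nat_lit 1) .z) .df .leaf) (nat_lit 79877) (nat_lit 521) (.n (nat_lit 206) (nat_lit 3) (.n (nat_lit 207) (nat_lit 2) (.p (nat_lit 208) (nat_lit 1) (.n (nat_lit 209) (nat_lit 3) (.n (nat_lit 210) (nat_lit 3) (.n (nat_lit 211) (nat_lit 2) (.n (nat_lit 212) (nat_lit 2) (.n (nat_lit 213) (nat_lit 3) (.n (nat_lit 214) (nat_lit 2) (.p (nat_lit 215) (nat_lit 1) (.p (nat_lit 216) (nat_lit 2) (.n (nat_lit 217) (nat_lit 2) (.n (nat_lit 218) (nat_lit 3) (.n (nat_lit 219) (nat_lit 1) (.p (nat_lit 220) (nat_lit 1) (.n (nat_lit 222) (nat_lit 2) (.n (nat_lit 225) (nat_lit 2) (.p (nat_lit 226) (nat_lit 2) (.p (nat_lit 227) (nat_lit 2) (.n (nat_lit 229) (nat_lit 3) (.p (nat_lit 230) (nat_lit 3) (.p (nat_lit 231) (nat_lit 2) (.n (nat_lit 232) (nat_lit 3) (.n (nat_lit 234) (nat_lit 1) (.p (nat_lit 235) (nat_lit 1) (.n (nat_lit 237) (nat_lit 1) (.n (nat_lit 239) (nat_lit 1) (.n (nat_lit 241) (nat_lit 1) (.n (nat_lit 242) (nat_lit 3) (.n (nat_lit 243) (nat_lit 3) (.n (nat_lit 244) (nat_lit 3) (.n (nat_lit 245) (nat_lit 3) (.p (nat_lit 247) (nat_lit 2) (.n (nat_lit 248) (nat_lit 3) (.p (nat_lit 249) (nat_lit 2) (.n (nat_lit 250) (nat_lit 2) (.n (nat_lit 251) (nat_lit 1) .z))))))))))))))))))))))))))))))))))))) (.ct dC2b_c307 (nat_lit 1) (nat_lit 9) (.s false (nat_lit 1) (nat_lit 15) (nat_lit 1) (nat_lit 5) (nat_lit 2) true (nat_lit 8) true (nat_lit 12) true (nat_lit 3) true (nat_lit 13) true (nat_lit 9) (.e true (nat_lit 1) (nat_lit 64) (nat_lit 6) (nat_lit 8) (.e true (nat_lit 1) (nat_lit 69) (nat_lit 6) (nat_lit 8) (.e false (nat_lit 1) (nat_lit 73) (nat_lit 6) (nat_lit 8) (.e false (nat_lit 1) (nat_lit 108) (nat_lit 2) (nat_lit 12) (.e false (nat_lit 1) (nat_lit 109) (nat_lit 2) (nat_lit 12) (.e true (nat_lit 1) (nat_lit 110) (nat_lit 2) (nat_lit 12) (.e true (nat_lit 1) (nat_lit 111) (nat_lit 2) (nat_lit 12) (.e false (nat_lit 1) (nat_lit 112) (nat_lit 2) (nat_lit 12) (.e false (nat_lit 1) (nat_lit 113) (nat_lit 2) (nat_lit 12) (.e true (nat_lit 1) (nat_lit 114) (nat_lit 2) (nat_lit 12) (.e true (nat_lit 2) (nat_lit 116) (nat_lit 2) (nat_lit 12) (.e true (nat_lit 2) (nat_lit 117) (nat_lit 2) (nat_lit 12) (.e false (nat_lit 3) (nat_lit 118) (nat_lit 2) (nat_lit 12) (.e false (nat_lit 2) (nat_lit 119) (nat_lit 2) (nat_lit 12) (.e true (nat_lit 1) (nat_lit 120) (nat_lit 2) (nat_lit 12) (.e false (nat_lit 2) (nat_lit 122) (nat_lit 2) (nat_lit 12) (.e false (nat_lit 1) (nat_lit 123) (nat_lit 2) (nat_lit 12) (.e true (nat_lit 1) (nat_lit 124) (nat_lit 2) (nat_lit 12) dC2b_i100)))))))))))))))))))) (.nd (.nd .leaf (nat_lit 79879) (nat_lit 720) (.p (nat_lit 289) (nat_lit 2) (.p (nat_lit 290) (nat_lit 1) (.n (nat_lit 291) (nat_lit 3) (.n (nat_lit 292) (nat_lit 2) (.n (nat_lit 293) (nat_lit 2) (.n (nat_lit 294) (nat_lit 1) (.p (nat_lit 295) (nat_lit 2) (.p (nat_lit 296) (nat_lit 1) (.p (nat_lit 297) (nat_lit 2) (.n (nat_lit 299) (nat_lit 1) (.p (nat_lit 301) (nat_lit 2) (.n (nat_lit 303) (nat_lit 3) (.n (nat_lit 304) (nat_lit 3) .z))))))))))))) (.ct dC2b_c52 (nat_lit 1) (nat_lit 4) (.s true (nat_lit 3) (nat_lit 7) (nat_lit 6) (nat_lit 4) (nat_lit 2) true (nat_lit 1) true (nat_lit 7) true (nat_lit 4) true (nat_lit 5) true (nat_lit 6) (.s false (nat_lit 1) (nat_lit 18) (nat_lit 2) (nat_lit 1) (nat_lit 6) true (nat_lit 1) true (nat_lit 5) true (nat_lit 1) true (nat_lit 7) true (nat_lit 8) (.s true (nat_lit 3) (nat_lit 20) (nat_lit 1) (nat_lit 2) (nat_lit 4) true (nat_lit 3) true (nat_lit 6) true (nat_lit 0) true (nat_lit 8) true (nat_lit 7) (.s true (nat_lit 1) (nat_lit 40) (nat_lit 2) (nat_lit 1) (nat_lit 2) true (nat_lit 4) true (nat_lit 7) false (nat_lit 1) true (nat_lit 7) true (nat_lit 8) (.s false (nat_lit 3) (nat_lit 48) (nat_lit 1) (nat_lit 1) (nat_lit 1) true (nat_lit 6) true (nat_lit 8) false (nat_lit 3) true (nat_lit 8) true (nat_lit 8) (.e false (nat_lit 2) (nat_lit 159) (nat_lit 2) (nat_lit 7) (.e true (nat_lit 2) (nat_lit 161) (nat_lit 2) (nat_lit 7) (.e true (nat_lit 1) (nat_lit 166) (nat_lit 2) (nat_lit 7) (.e true (nat_lit 3) (nat_lit 163) (nat_lit 2) (nat_lit 7) (.e true (nat_lit 3) (nat_lit 74) (nat_lit 7) (nat_lit 4) (.e false (nat_lit 3) (nat_lit 75) (nat_lit 7) (nat_lit 4) (.e true (nat_lit 3) (nat_lit 96) (nat_lit 6) (nat_lit 5) (.e false (nat_lit 1) (nat_lit 94) (nat_lit 6) (nat_lit 5) (.e false (nat_lit 1) (nat_lit 160) (nat_lit 2) (nat_lit 7) (.e true (nat_lit 1) (nat_lit 162) (nat_lit 2) (nat_lit 7) (.e false (nat_lit 1) (nat_lit 185) (nat_lit 1) (nat_lit 8) (.e true (nat_lit 2) (nat_lit 187) (nat_lit 1) (nat_lit 8) (.e false (nat_lit 1) (nat_lit 188) (nat_lit 1) (nat_lit 8) (.e false (nat_lit 1) (nat_lit 189) (nat_lit 1) (nat_lit 8) (.e false (nat_lit 3) (nat_lit 190) (nat_lit 1) (nat_lit 8) (.e true (nat_lit 3) (nat_lit 30) (nat_lit 20) (nat_lit 0) (.e false (nat_lit 3) (nat_lit 31) (nat_lit 20) (nat_lit 0) (.e true (nat_lit 1) (nat_lit 164) (nat_lit 2) (nat_lit 7) (.u (nat_lit 2) (.p (nat_lit 0) (nat_lit 2) (.n (nat_lit 1) (nat_lit 2) (.n (nat_lit 2) (nat_lit 2) (.p (nat_lit 5) (nat_lit 3) (.n (nat_lit 6) (nat_lit 2) (.n (nat_lit 7) (nat_lit 2) (.p (nat_lit 9) (nat_lit 1) (.p (nat_lit 14) (nat_lit 2) (.n (nat_lit 15) (nat_lit 1) (.p (nat_lit 20) (nat_lit 1) (.n (nat_lit 21) (nat_lit 1) (.n (nat_lit 49) (nat_lit 1) (.p (nat_lit 51) (nat_lit 1) (.n (nat_lit 54) (nat_lit 1) (.p (nat_lit 55) (nat_lit 1) (.n (nat_lit 60) (nat_lit 1) (.p (nat_lit 61) (nat_lit 1) (.n (nat_lit 64) (nat_lit 1) .z)))))))))))))))))) .nil))))))))))))))))))))))))) .leaf) (nat_lit 79889) (nat_lit 1124) (.n (nat_lit 335) (nat_lit 3) (.p (nat_lit 336) (nat_lit 3) (.n (nat_lit 337) (nat_lit 1) (.p (nat_lit 338) (nat_lit 3) (.n (nat_lit 339) (nat_lit 1) (.p (nat_lit 340) (nat_lit 1) (.n (nat_lit 341) (nat_lit 3) (.p (nat_lit 342) (nat_lit 3) (.p (nat_lit 343) (nat_lit 2) (.n (nat_lit 344) (nat_lit 1) (.n (nat_lit 345) (nat_lit 3) (.p (nat_lit 346) (nat_lit 2) (.n (nat_lit 349) (nat_lit 2) (.p (nat_lit 350) (nat_lit 1) (.p (nat_lit 351) (nat_lit 3) (.p (nat_lit 353) (nat_lit 3) (.n (nat_lit 354) (nat_lit 1) (.n (nat_lit 358) (nat_lit 1) (.n (nat_lit 359) (nat_lit 2) (.p (nat_lit 360) (nat_lit 2) (.n (nat_lit 361) (nat_lit 2) (.p (nat_lit 362) (nat_lit 1) (.p (nat_lit 363) (nat_lit 2) (.n (nat_lit 364) (nat_lit 3) (.n (nat_lit 366) (nat_lit 1) (.n (nat_lit 367) (nat_lit 2) (.p (nat_lit 369) (nat_lit 2) (.n (nat_lit 370) (nat_lit 2) (.n (nat_lit 372) (nat_lit 1) (.n (nat_lit 375) (nat_lit 1) (.p (nat_lit 377) (nat_lit 2) (.n (nat_lit 379) (nat_lit 1) (.n (nat_lit 380) (nat_lit 3) (.p (nat_lit 381) (nat_lit 1) (.p (nat_lit 382) (nat_lit 3) (.p (nat_lit 383) (nat_lit 2) (.p (nat_lit 389) (nat_lit 2) .z))))))))))))))))))))))))))))))))))))) (.ct dC2b_c308 (nat_lit 1) (nat_lit 6) (.s false (nat_lit 1) (nat_lit 40) (nat_lit 7) (nat_lit 1) (nat_lit 0) true (nat_lit 6) true (nat_lit 18) false (nat_lit 0) true (nat_lit 11) true (nat_lit 17) (.e false (nat_lit 1) (nat_lit 300) (nat_lit 0) (nat_lit 18) (.e true (nat_lit 1) (nat_lit 301) (nat_lit 0) (nat_lit 18) (.e true (nat_lit 1) (nat_lit 298) (nat_lit 0) (nat_lit 18) (.e false (nat_lit 2) (nat_lit 40) (nat_lit 33) (nat_lit 0) (.e true (nat_lit 1) (nat_lit 40) (nat_lit 34) (nat_lit 0) (.e false (nat_lit 1) (nat_lit 40) (nat_lit 35) (nat_lit 0) (.e true (nat_lit 1) (nat_lit 40) (nat_lit 36) (nat_lit 0) (.e true (nat_lit 1) (nat_lit 40) (nat_lit 37) (nat_lit 0) (.e true (nat_lit 1) (nat_lit 40) (nat_lit 38) (nat_lit 0) (.e true (nat_lit 3) (nat_lit 107) (nat_lit 7) (nat_lit 11) (.e true (nat_lit 3) (nat_lit 108) (nat_lit 7) (nat_lit 11) (.e false (nat_lit 3) (nat_lit 109) (nat_lit 7) (nat_lit 11) (.e true (nat_lit 3) (nat_lit 110) (nat_lit 7) (nat_lit 11) (.e false (nat_lit 3) (nat_lit 112) (nat_lit 7) (nat_lit 11) (.e true (nat_lit 3) (nat_lit 114) (nat_lit 7) (nat_lit 11) (.e false (nat_lit 1) (nat_lit 117) (nat_lit 7) (nat_lit 11) (.e false (nat_lit 3) (nat_lit 119) (nat_lit 7) (nat_lit 11) (.e true (nat_lit 3) (nat_lit 123) (nat_lit 7) (nat_lit 11) (.e false (nat_lit 3) (nat_lit 126) (nat_lit 7) (nat_lit 11) (.e true (nat_lit 3) (nat_lit 127) (nat_lit 7) (nat_lit 11) (.e true (nat_lit 1) (nat_lit 128) (nat_lit 7) (nat_lit 11) (.e true (nat_lit 2) (nat_lit 252) (nat_lit 1) (nat_lit 17) dC2b_i101)))))))))))))))))))))))) .leaf)) (nat_lit 79892) (nat_lit 1419) (.n (nat_lit 437) (nat_lit 3) (.p (nat_lit 438) (nat_lit 1) (.n (nat_lit 439) (nat_lit 2) (.p (nat_lit 440) (nat_lit 3) (.p (nat_lit 441) (nat_lit 3) (.n (nat_lit 442) (nat_lit 3) (.n (nat_lit 443) (nat_lit 2) (.n (nat_lit 444) (nat_lit 3) (.n (nat_lit 447) (nat_lit 2) (.p (nat_lit 448) (nat_lit 3) (.n (nat_lit 450) (nat_lit 3) .z))))))))))) (.ct dC2b_c53 (nat_lit 1) (nat_lit 2) (.s false (nat_lit 1) (nat_lit 78) (nat_lit 2) (nat_lit 2) (nat_lit 2) true (nat_lit 6) true (nat_lit 9) false (nat_lit 2) true (nat_lit 9) true (nat_lit 9) (.e false (nat_lit 1) (nat_lit 162) (nat_lit 7) (nat_lit 6) (.e false (nat_lit 2) (nat_lit 293) (nat_lit 2) (nat_lit 9) (.e true (nat_lit 2) (nat_lit 289) (nat_lit 2) (nat_lit 9) (.e true (nat_lit 1) (nat_lit 290) (nat_lit 2) (nat_lit 9) (.e false (nat_lit 3) (nat_lit 291) (nat_lit 2) (nat_lit 9) (.e false (nat_lit 2) (nat_lit 292) (nat_lit 2) (nat_lit 9) (.e false (nat_lit 1) (nat_lit 294) (nat_lit 2) (nat_lit 9) (.e true (nat_lit 2) (nat_lit 295) (nat_lit 2) (nat_lit 9) (.e true (nat_lit 1) (nat_lit 296) (nat_lit 2) (nat_lit 9) (.e true (nat_lit 2) (nat_lit 297) (nat_lit 2) (nat_lit 9) (.e false (nat_lit 1) (nat_lit 299) (nat_lit 2) (nat_lit 9) (.e true (nat_lit 2) (nat_lit 301) (nat_lit 2) (nat_lit 9) (.e false (nat_lit 3) (nat_lit 303) (nat_lit 2) (nat_lit 9) (.e false (nat_lit 3) (nat_lit 304) (nat_lit 2) (nat_lit 9) (.u (nat_lit 2) (.p (nat_lit 4) (nat_lit 1) (.n (nat_lit 5) (nat_lit 2) (.p (nat_lit 6) (nat_lit 1) (.p (nat_lit 8) (nat_lit 2) (.p (nat_lit 9) (nat_lit 1) .z))))) .nil))))))))))))))))) (.nd (.nd (.nd .leaf (nat_lit 80896) (nat_lit 200) (.n (nat_lit 106) (nat_lit 2) (.p (nat_lit 107) (nat_lit 2) (.p (nat_lit 108) (nat_lit 1) (.p (nat_lit 109) (nat_lit 3) (.p (nat_lit 110) (nat_lit 1) (.n (nat_lit 112) (nat_lit 1) (.p (nat_lit 113) (nat_lit 1) (.p (nat_lit 114) (nat_lit 1) (.n (nat_lit 115) (nat_lit 1) (.n (nat_lit 116) (nat_lit 3) (.p (nat_lit 117) (nat_lit 2) (.p (nat_lit 118) (nat_lit 1) (.n (nat_lit 120) (nat_lit 2) (.p (nat_lit 122) (nat_lit 2) (.n (nat_lit 130) (nat_lit 1) (.n (nat_lit 131) (nat_lit 1) .z)))))))))))))))) (.ct dC2b_c306 (nat_lit 1) (nat_lit 10) (.s true (nat_lit 3) (nat_lit 7) (nat_lit 0) (nat_lit 1) (nat_lit 4) true (nat_lit 2) true (nat_lit 6) true (nat_lit 3) true (nat_lit 10) true (nat_lit 9) dC2b_i102)) .leaf) (nat_lit 80898) (nat_lit 295) (.p (nat_lit 163) (nat_lit 1) .z) .df .leaf) (nat_lit 80901) (nat_lit 540) (.n (nat_lit 205) (nat_lit 1) (.n (nat_lit 208) (nat_lit 1) (.p (nat_lit 209) (nat_lit 1) (.n (nat_lit 211) (nat_lit 1) (.p (nat_lit 212) (nat_lit 3) (.p (nat_lit 213) (nat_lit 1) (.n (nat_lit 214) (nat_lit 3) (.p (nat_lit 215) (nat_lit 3) (.n (nat_lit 217) (nat_lit 3) (.p (nat_lit 219) (nat_lit 3) (.n (nat_lit 221) (nat_lit 3) (.n (nat_lit 225) (nat_lit 2) (.p (nat_lit 227) (nat_lit 1) (.n (nat_lit 228) (nat_lit 1) (.p (nat_lit 245) (nat_lit 2) (.n (nat_lit 246) (nat_lit 1) (.p (nat_lit 247) (nat_lit 1) (.n (nat_lit 248) (nat_lit 2) (.p (nat_lit 249) (nat_lit 2) (.p (nat_lit 251) (nat_lit 2) .z)))))))))))))))))))) (.ct dC2b_c307 (nat_lit 1) (nat_lit 9) (.s false (nat_lit 1) (nat_lit 10) (nat_lit 5) (nat_lit 2) (nat_lit 2) true (nat_lit 2) true (nat_lit 12) true (nat_lit 5) true (nat_lit 9) true (nat_lit 12) (.e false (nat_lit 1) (nat_lit 30) (nat_lit 16) (nat_lit 2) (.e false (nat_lit 1) (nat_lit 106) (nat_lit 2) (nat_lit 12) (.e true (nat_lit 2) (nat_lit 109) (nat_lit 2) (nat_lit 12) (.e true (nat_lit 1) (nat_lit 112) (nat_lit 2) (nat_lit 12) (.e false (nat_lit 1) (nat_lit 114) (nat_lit 2) (nat_lit 12) (.e false (nat_lit 1) (nat_lit 116) (nat_lit 2) (nat_lit 12) (.e true (nat_lit 1) (nat_lit 42) (nat_lit 10) (nat_lit 5) (.e false (nat_lit 1) (nat_lit 108) (nat_lit 2) (nat_lit 12) (.e true (nat_lit 2) (nat_lit 117) (nat_lit 2) (nat_lit 12) (.e true (nat_lit 2) (nat_lit 118) (nat_lit 2) (nat_lit 12) (.e true (nat_lit 3) (nat_lit 120) (nat_lit 2) (nat_lit 12) (.e false (nat_lit 3) (nat_lit 122) (nat_lit 2) (nat_lit 12) (.e true (nat_lit 1) (nat_lit 128) (nat_lit 2) (nat_lit 12) (.e false (nat_lit 1) (nat_lit 130) (nat_lit 2) (nat_lit 12) (.e false (nat_lit 1) (nat_lit 131) (nat_lit 2) (nat_lit 12) (.u (nat_lit 2) (.n (nat_lit 7) (nat_lit 1) (.p (nat_lit 9) (nat_lit 1) (.n (nat_lit 22) (nat_lit 1) (.n (nat_lit 40) (nat_lit 1) (.p (nat_lit 43) (nat_lit 1) (.n (nat_lit 44) (nat_lit 1) .z)))))) .nil)))))))))))))))))) (.nd .leaf (nat_lit 80903) (nat_lit 711) (.p (nat_lit 298) (nat_lit 2) .z) (.ct dC2b_c52 (nat_lit 1) (nat_lit 4) (.s true (nat_lit 3) (nat_lit 10) (nat_lit 2) (nat_lit 7) (nat_lit 2) true (nat_lit 4) true (nat_lit 7) true (nat_lit 3) true (nat_lit 7) true (nat_lit 4) (.s true (nat_lit 3) (nat_lit 10) (nat_lit 7) (nat_lit 2) (nat_lit 2) true (nat_lit 0) true (nat_lit 7) true (nat_lit 3) true (nat_lit 4) true (nat_lit 7) (.e true (nat_lit 2) (nat_lit 167) (nat_lit 2) (nat_lit 7) (.e true (nat_lit 3) (nat_lit 74) (nat_lit 7) (nat_lit 4) (.e false (nat_lit 3) (nat_lit 30) (nat_lit 20) (nat_lit 0) (.u (nat_lit 2) (.n (nat_lit 9) (nat_lit 1) (.p (nat_lit 37) (nat_lit 1) (.n (nat_lit 57) (nat_lit 1) .z))) .nil))))))) .leaf))) (nat_lit 80912) (nat_lit 1072) (.p (nat_lit 335) (nat_lit 2) (.n (nat_lit 336) (nat_lit 2) (.p (nat_lit 337) (nat_lit 3) (.p (nat_lit 338) (nat_lit 3) (.n (nat_lit 339) (nat_lit 1) (.p (nat_lit 340) (nat_lit 3) (.p (nat_lit 341) (nat_lit 2) (.p (nat_lit 342) (nat_lit 1) (.p (nat_lit 343) (nat_lit 2) (.p (nat_lit 344) (nat_lit 1) (.n (nat_lit 345) (nat_lit 3) (.n (nat_lit 346) (nat_lit 2) (.n (nat_lit 347) (nat_lit 3) (.n (nat_lit 349) (nat_lit 1) (.n (nat_lit 350) (nat_lit 2) (.p (nat_lit 352) (nat_lit 2) (.p (nat_lit 353) (nat_lit 3) (.p (nat_lit 354) (nat_lit 3) (.p (nat_lit 355) (nat_lit 2) (.p (nat_lit 356) (nat_lit 3) (.n (nat_lit 357) (nat_lit 3) (.p (nat_lit 358) (nat_lit 1) (.n (nat_lit 359) (nat_lit 1) (.p (nat_lit 360) (nat_lit 3) (.n (nat_lit 361) (nat_lit 3) (.n (nat_lit 362) (nat_lit 3) (.p (nat_lit 363) (nat_lit 3) (.n (nat_lit 364) (nat_lit 2) (.n (nat_lit 366) (nat_lit 3) (.p (nat_lit 367) (nat_lit 1) (.p (nat_lit 368) (nat_lit 3) (.p (nat_lit 369) (nat_lit 3) (.p (nat_lit 370) (nat_lit 3) (.n (nat_lit 371) (nat_lit 2) (.p (nat_lit 372) (nat_lit 3) (.n (nat_lit 373) (nat_lit 3) (.p (nat_lit 374) (nat_lit 2) (.n (nat_lit 380) (nat_lit 3) (.n (nat_lit 381) (nat_lit 2) (.p (nat_lit 382) (nat_lit 3) (.p (nat_lit 383) (nat_lit 2) .z))))))))))))))))))))))))))))))))))))))))) (.ct dC2b_c308 (nat_lit 1) (nat_lit 6) (.s true (nat_lit 1) (nat_lit 79) (nat_lit 0) (nat_lit 2) (nat_lit 2) true (nat_lit 13) true (nat_lit 16) false (nat_lit 6) true (nat_lit 18) true (nat_lit 16) (.e true (nat_lit 1) (nat_lit 163) (nat_lit 5) (nat_lit 13) (.e false (nat_lit 1) (nat_lit 205) (nat_lit 2) (nat_lit 16) (.e false (nat_lit 2) (nat_lit 206) (nat_lit 2) (nat_lit 16) (.e false (nat_lit 3) (nat_lit 207) (nat_lit 2) (nat_lit 16) dC2b_i103)))))) (.nd (.nd (.nd (.nd .leaf (nat_lit 80913) (nat_lit 1064) (.n (nat_lit 335) (nat_lit 3) (.n (nat_lit 336) (nat_lit 3) (.p (nat_lit 337) (nat_lit 1) (.n (nat_lit 338) (nat_lit 3) (.p (nat_lit 339) (nat_lit 1) (.n (nat_lit 340) (nat_lit 3) (.p (nat_lit 342) (nat_lit 2) (.p (nat_lit 343) (nat_lit 3) (.p (nat_lit 345) (nat_lit 2) (.p (nat_lit 347) (nat_lit 3) (.n (nat_lit 349) (nat_lit 2) (.p (nat_lit 350) (nat_lit 1) (.n (nat_lit 351) (nat_lit 3) (.n (nat_lit 352) (nat_lit 3) (.p (nat_lit 353) (nat_lit 3) (.p (nat_lit 354) (nat_lit 3) (.p (nat_lit 358) (nat_lit 3) (.p (nat_lit 359) (nat_lit 1) (.p (nat_lit 360) (nat_lit 3) (.p (nat_lit 361) (nat_lit 3) (.p (nat_lit 362) (nat_lit 1) (.p (nat_lit 364) (nat_lit 1) (.p (nat_lit 366) (nat_lit 2) (.p (nat_lit 367) (nat_lit 3) (.p (nat_lit 368) (nat_lit 2) (.p (nat_lit 369) (nat_lit 1) (.p (nat_lit 370) (nat_lit 2) (.p (nat_lit 371) (nat_lit 1) (.p (nat_lit 372) (nat_lit 2) (.n (nat_lit 373) (nat_lit 2) (.p (nat_lit 374) (nat_lit 2) (.n (nat_lit 380) (nat_lit 3) (.n (nat_lit 381) (nat_lit 2) (.p (nat_lit 382) (nat_lit 3) (.p (nat_lit 383) (nat_lit 2) .z))))))))))))))))))))))))))))))))))) (.ct dC2b_c308 (nat_lit 1) (nat_lit 6) (.s false (nat_lit 1) (nat_lit 79) (nat_lit 2) (nat_lit 2) (nat_lit 0) true (nat_lit 13) true (nat_lit 18) false (nat_lit 6) true (nat_lit 16) true (nat_lit 16) dC2b_i104)) .leaf) (nat_lit 80916) (nat_lit 1398) (.n (nat_lit 444) (nat_lit 2) (.p (nat_lit 450) (nat_lit 1) .z)) (.ct dC2b_c53 (nat_lit 1) (nat_lit 2) (.s true (nat_lit 1) (nat_lit 10) (nat_lit 2) (nat_lit 7) (nat_lit 7) true (nat_lit 2) true (nat_lit 6) true (nat_lit 5) true (nat_lit 9) true (nat_lit 6) (.e true (nat_lit 1) (nat_lit 167) (nat_lit 7) (nat_lit 6) (.e false (nat_lit 1) (nat_lit 163) (nat_lit 7) (nat_lit 6) .nil)))) .leaf) (nat_lit 81921) (nat_lit 240) (.p (nat_lit 146) (nat_lit 1) .z) .df (.nd (.nd .leaf (nat_lit 81922) (nat_lit 316) (.p (nat_lit 169) (nat_lit 1) .z) .df .leaf) (nat_lit 81924) (nat_lit 482) (.n (nat_lit 205) (nat_lit 1) (.p (nat_lit 206) (nat_lit 1) (.p (nat_lit 208) (nat_lit 1) (.n (nat_lit 209) (nat_lit 2) (.p (nat_lit 210) (nat_lit 2) (.p (nat_lit 211) (nat_lit 2) (.n (nat_lit 214) (nat_lit 2) (.n (nat_lit 215) (nat_lit 1) (.n (nat_lit 216) (nat_lit 1) (.n (nat_lit 218) (nat_lit 1) (.n (nat_lit 219) (nat_lit 1) (.p (nat_lit 220) (nat_lit 2) (.n (nat_lit 221) (nat_lit 1) (.p (nat_lit 222) (nat_lit 1) (.n (nat_lit 225) (nat_lit 2) (.n (nat_lit 226) (nat_lit 1) (.n (nat_lit 227) (nat_lit 3) (.n (nat_lit 228) (nat_lit 2) (.p (nat_lit 229) (nat_lit 2) (.p (nat_lit 230) (nat_lit 2) (.p (nat_lit 231) (nat_lit 3) (.p (nat_lit 238) (nat_lit 2) (.p (nat_lit 242) (nat_lit 2) (.p (nat_lit 245) (nat_lit 2) (.p (nat_lit 246) (nat_lit 2) (.p (nat_lit 247) (nat_lit 2) (.n (nat_lit 248) (nat_lit 1) .z))))))))))))))))))))))))))) (.ct dC2b_c307 (nat_lit 1) (nat_lit 10) (.s true (nat_lit 1) (nat_lit 33) (nat_lit 1) (nat_lit 2) (nat_lit 1) true (nat_lit 10) true (nat_lit 13) false (nat_lit 3) true (nat_lit 13) true (nat_lit 12) (.e false (nat_lit 1) (nat_lit 138) (nat_lit 1) (nat_lit 13) (.e false (nat_lit 1) (nat_lit 33) (nat_lit 15) (nat_lit 3) (.e true (nat_lit 1) (nat_lit 134) (nat_lit 1) (nat_lit 13) (.e true (nat_lit 1) (nat_lit 145) (nat_lit 1) (nat_lit 13) (.e true (nat_lit 1) (nat_lit 146) (nat_lit 1) (nat_lit 13) (.e false (nat_lit 1) (nat_lit 149) (nat_lit 1) (nat_lit 13) (.e false (nat_lit 1) (nat_lit 154) (nat_lit 1) (nat_lit 13) (.e false (nat_lit 1) (nat_lit 123) (nat_lit 2) (nat_lit 12) (.u (nat_lit 2) (.n (nat_lit 6) (nat_lit 1) (.p (nat_lit 8) (nat_lit 1) (.p (nat_lit 10) (nat_lit 1) (.n (nat_lit 11) (nat_lit 1) (.n (nat_lit 14) (nat_lit 1) (.p (nat_lit 20) (nat_lit 1) (.n (nat_lit 26) (nat_lit 1) (.n (nat_lit 43) (nat_lit 1) .z)))))))) .nil))))))))))) .leaf)) (nat_lit 81926) (nat_lit 596) (.p (nat_lit 287) (nat_lit 1) .z) .df (.nd (.nd (.nd .leaf (nat_lit 81927) (nat_lit 776) (.n (nat_lit 305) (nat_lit 3) (.n (nat_lit 306) (nat_lit 2) (.p (nat_lit 307) (nat_lit 2) (.n (nat_lit 308) (nat_lit 1) (.p (nat_lit 309) (nat_lit 2) (.n (nat_lit 310) (nat_lit 3) (.n (nat_lit 311) (nat_lit 1) (.n (nat_lit 312) (nat_lit 1) (.p (nat_lit 314) (nat_lit 2) (.p (nat_lit 317) (nat_lit 1) (.n (nat_lit 321) (nat_lit 1) (.p (nat_lit 322) (nat_lit 1) .z)))))))))))) (.ct dC2b_c277 (nat_lit 1) (nat_lit 4) (.s false (nat_lit 3) (nat_lit 20) (nat_lit 1) (nat_lit 0) (nat_lit 7) true (nat_lit 1) true (nat_lit 4) true (nat_lit 0) true (nat_lit 9) true (nat_lit 10) (.s true (nat_lit 3) (nat_lit 36) (nat_lit 2) (nat_lit 2) (nat_lit 2) true (nat_lit 4) true (nat_lit 8) false (nat_lit 0) true (nat_lit 8) true (nat_lit 8) (.s true (nat_lit 3) (nat_lit 38) (nat_lit 2) (nat_lit 2) (nat_lit 2) true (nat_lit 4) true (nat_lit 8) false (nat_lit 0) true (nat_lit 8) true (nat_lit 8) (.s false (nat_lit 3) (nat_lit 44) (nat_lit 1) (nat_lit 2) (nat_lit 2) true (nat_lit 5) true (nat_lit 8) false (nat_lit 1) true (nat_lit 9) true (nat_lit 8) dC2b_i105))))) .leaf) (nat_lit 81934) (nat_lit 1133) (.n (nat_lit 335) (nat_lit 3) (.p (nat_lit 336) (nat_lit 3) (.n (nat_lit 337) (nat_lit 1) (.n (nat_lit 338) (nat_lit 2) (.p (nat_lit 339) (nat_lit 1) (.n (nat_lit 340) (nat_lit 2) (.p (nat_lit 341) (nat_lit 1) (.p (nat_lit 342) (nat_lit 2) (.n (nat_lit 343) (nat_lit 2) (.p (nat_lit 344) (nat_lit 2) (.p (nat_lit 345) (nat_lit 1) (.n (nat_lit 347) (nat_lit 3) (.p (nat_lit 348) (nat_lit 2) (.n (nat_lit 349) (nat_lit 2) (.n (nat_lit 350) (nat_lit 2) (.n (nat_lit 352) (nat_lit 2) (.p (nat_lit 354) (nat_lit 2) (.n (nat_lit 355) (nat_lit 3) (.n (nat_lit 356) (nat_lit 1) (.p (nat_lit 357) (nat_lit 3) (.n (nat_lit 359) (nat_lit 3) (.p (nat_lit 360) (nat_lit 2) (.p (nat_lit 361) (nat_lit 2) (.p (nat_lit 362) (nat_lit 1) (.n (nat_lit 363) (nat_lit 1) (.n (nat_lit 364) (nat_lit 3) (.p (nat_lit 365) (nat_lit 2) (.n (nat_lit 366) (nat_lit 2) (.p (nat_lit 367) (nat_lit 3) (.n (nat_lit 368) (nat_lit 1) (.n (nat_lit 369) (nat_lit 2) (.n (nat_lit 370) (nat_lit 1) (.p (nat_lit 371) (nat_lit 2) (.p (nat_lit 372) (nat_lit 2) (.n (nat_lit 373) (nat_lit 1) (.n (nat_lit 374) (nat_lit 3) (.p (nat_lit 375) (nat_lit 2) (.p (nat_lit 376) (nat_lit 3) (.p (nat_lit 378) (nat_lit 2) (.p (nat_lit 379) (nat_lit 1) (.p (nat_lit 381) (nat_lit 3) (.n (nat_lit 383) (nat_lit 1) (.n (nat_lit 384) (nat_lit 2) (.n (nat_lit 386) (nat_lit 2) (.n (nat_lit 390) (nat_lit 3) (.n (nat_lit 391) (nat_lit 3) (.n (nat_lit 393) (nat_lit 2) .z))))))))))))))))))))))))))))))))))))))))))))))) (.ct dC2b_c308 (nat_lit 1) (nat_lit 7) (.s false (nat_lit 1) (nat_lit 80) (nat_lit 1) (nat_lit 1) (nat_lit 2) true (nat_lit 12) true (nat_lit 16) false (nat_lit 7) true (nat_lit 17) true (nat_lit 17) (.e false (nat_lit 1) (nat_lit 146) (nat_lit 6) (nat_lit 12) (.e false (nat_lit 1) (nat_lit 238) (nat_lit 2) (nat_lit 16) (.e true (nat_lit 1) (nat_lit 287) (nat_lit 1) (nat_lit 17) (.e true (nat_lit 1) (nat_lit 278) (nat_lit 1) (nat_lit 17) (.u (nat_lit 2) (.p (nat_lit 2) (nat_lit 1) (.p (nat_lit 3) (nat_lit 1) (.n (nat_lit 4) (nat_lit 1) (.n (nat_lit 7) (nat_lit 1) (.n (nat_lit 9) (nat_lit 1) (.p (nat_lit 10) (nat_lit 1) (.p (nat_lit 14) (nat_lit 1) (.p (nat_lit 17) (nat_lit 1) (.n (nat_lit 19) (nat_lit 1) (.n (nat_lit 22) (nat_lit 1) (.n (nat_lit 23) (nat_lit 1) (.p (nat_lit 24) (nat_lit 1) (.n (nat_lit 25) (nat_lit 1) (.n (nat_lit 41) (nat_lit 1) (.n (nat_lit 44) (nat_lit 1) (.p (nat_lit 48) (nat_lit 1) (.p (nat_lit 55) (nat_lit 1) (.p (nat_lit 56) (nat_lit 1) .z)))))))))))))))))) .nil))))))) .leaf) (nat_lit 81935) (nat_lit 1132) (.p (nat_lit 336) (nat_lit 1) (.p (nat_lit 337) (nat_lit 2) (.p (nat_lit 338) (nat_lit 3) (.p (nat_lit 340) (nat_lit 1) (.p (nat_lit 341) (nat_lit 1) (.n (nat_lit 342) (nat_lit 1) (.n (nat_lit 343) (nat_lit 3) (.n (nat_lit 344) (nat_lit 1) (.p (nat_lit 346) (nat_lit 3) (.n (nat_lit 348) (nat_lit 1) (.n (nat_lit 349) (nat_lit 2) (.p (nat_lit 350) (nat_lit 3) (.n (nat_lit 351) (nat_lit 3) (.n (nat_lit 352) (nat_lit 2) (.n (nat_lit 353) (nat_lit 2) (.n (nat_lit 354) (nat_lit 2) (.p (nat_lit 355) (nat_lit 1) (.n (nat_lit 356) (nat_lit 3) (.p (nat_lit 357) (nat_lit 2) (.p (nat_lit 359) (nat_lit 3) (.p (nat_lit 360) (nat_lit 1) (.p (nat_lit 361) (nat_lit 3) (.p (nat_lit 362) (nat_lit 2) (.p (nat_lit 363) (nat_lit 1) (.p (nat_lit 364) (nat_lit 3) (.n (nat_lit 365) (nat_lit 1) (.p (nat_lit 367) (nat_lit 3) (.n (nat_lit 368) (nat_lit 2) (.n (nat_lit 370) (nat_lit 2) (.p (nat_lit 371) (nat_lit 1) (.p (nat_lit 372) (nat_lit 2) (.p (nat_lit 373) (nat_lit 3) (.n (nat_lit 374) (nat_lit 1) (.n (nat_lit 375) (nat_lit 1) (.p (nat_lit 376) (nat_lit 2) (.n (nat_lit 378) (nat_lit 1) (.p (nat_lit 379) (nat_lit 3) (.n (nat_lit 380) (nat_lit 3) (.n (nat_lit 383) (nat_lit 3) (.p (nat_lit 384) (nat_lit 1) (.p (nat_lit 386) (nat_lit 1) (.n (nat_lit 390) (nat_lit 2) (.n (nat_lit 391) (nat_lit 2) (.p (nat_lit 393) (nat_lit 1) .z)))))))))))))))))))))))))))))))))))))))))))) (.ct dC2b_c308 (nat_lit 1) (nat_lit 7) (.s false (nat_lit 1) (nat_lit 80) (nat_lit 1) (nat_lit 2) (nat_lit 1) true (nat_lit 14) true (nat_lit 17) false (nat_lit 7) true (nat_lit 17) true (nat_lit 16) (.e false (nat_lit 1) (nat_lit 169) (nat_lit 4) (nat_lit 14) (.e false (nat_lit 1) (nat_lit 266) (nat_lit 1) (nat_lit 17) (.e true (nat_lit 1) (nat_lit 287) (nat_lit 1) (nat_lit 17) (.e true (nat_lit 1) (nat_lit 238) (nat_lit 2) (nat_lit 16) (.u (nat_lit 2) (.n (nat_lit 3) (nat_lit 1) (.p (nat_lit 9) (nat_lit 1) (.p (nat_lit 12) (nat_lit 1) (.n (nat_lit 15) (nat_lit 1) (.p (nat_lit 18) (nat_lit 1) (.n (nat_lit 20) (nat_lit 1) (.p (nat_lit 21) (nat_lit 1) (.n (nat_lit 22) (nat_lit 1) (.n (nat_lit 24) (nat_lit 1) (.n (nat_lit 26) (nat_lit 1) (.p (nat_lit 39) (nat_lit 1) .z))))))))))) .nil))))))) (.nd .leaf (nat_lit 81938) (nat_lit 1349) (.n (nat_lit 397) (nat_lit 2) (.p (nat_lit 398) (nat_lit 3) (.p (nat_lit 406) (nat_lit 3) (.p (nat_lit 407) (nat_lit 3) (.n (nat_lit 408) (nat_lit 3) (.n (nat_lit 409) (nat_lit 1) (.n (nat_lit 411) (nat_lit 1) (.p (nat_lit 420) (nat_lit 1) (.p (nat_lit 421) (nat_lit 3) (.p (nat_lit 427) (nat_lit 1) .z)))))))))) (.ct dC2b_c293 (nat_lit 1) (nat_lit 4) (.s true (nat_lit 3) (nat_lit 20) (nat_lit 0) (nat_lit 1) (nat_lit 18) true (nat_lit 1) true (nat_lit 4) true (nat_lit 3) true (nat_lit 16) true (nat_lit 15) (.e true (nat_lit 3) (nat_lit 47) (nat_lit 38) (nat_lit 1) (.e true (nat_lit 2) (nat_lit 81) (nat_lit 18) (nat_lit 4) (.e false (nat_lit 3) (nat_lit 82) (nat_lit 18) (nat_lit 4) (.e false (nat_lit 3) (nat_lit 83) (nat_lit 18) (nat_lit 4) (.e true (nat_lit 3) (nat_lit 84) (nat_lit 18) (nat_lit 4) (.e true (nat_lit 3) (nat_lit 85) (nat_lit 18) (nat_lit 4) (.e true (nat_lit 3) (nat_lit 88) (nat_lit 18) (nat_lit 4) (.e false (nat_lit 3) (nat_lit 89) (nat_lit 18) (nat_lit 4) (.e true (nat_lit 3) (nat_lit 61) (nat_lit 20) (nat_lit 3) dC2b_i106))))))))))) .leaf))))) (nat_lit 81939) (nat_lit 1229) (.p (nat_lit 397) (nat_lit 2) (.p (nat_lit 398) (nat_lit 3) (.n (nat_lit 399) (nat_lit 3) (.p (nat_lit 400) (nat_lit 1) (.p (nat_lit 401) (nat_lit 3) (.n (nat_lit 402) (nat_lit 1) (.n (nat_lit 404) (nat_lit 3) (.n (nat_lit 405) (nat_lit 2) (.n (nat_lit 406) (nat_lit 2) (.p (nat_lit 407) (nat_lit 3) (.p (nat_lit 410) (nat_lit 2) (.p (nat_lit 411) (nat_lit 2) (.p (nat_lit 412) (nat_lit 2) (.p (nat_lit 413) (nat_lit 2) (.n (nat_lit 414) (nat_lit 3) (.n (nat_lit 415) (nat_lit 2) (.n (nat_lit 416) (nat_lit 3) (.n (nat_lit 418) (nat_lit 1) (.n (nat_lit 420) (nat_lit 1) (.n (nat_lit 421) (nat_lit 1) (.n (nat_lit 427) (nat_lit 2) (.p (nat_lit 431) (nat_lit 3) (.p (nat_lit 435) (nat_lit 1) .z))))))))))))))))))))))) (.ct dC2b_c293 (nat_lit 1) (nat_lit 4) (.s false (nat_lit 3) (nat_lit 11) (nat_lit 7) (nat_lit 1) (nat_lit 7) false (nat_lit 2) true (nat_lit 9) true (nat_lit 7) true (nat_lit 9) true (nat_lit 15) (.s false (nat_lit 1) (nat_lit 19) (nat_lit 2) (nat_lit 11) (nat_lit 2) true (nat_lit 9) true (nat_lit 14) true (nat_lit 4) true (nat_lit 14) true (nat_lit 7) (.s true (nat_lit 1) (nat_lit 20) (nat_lit 1) (nat_lit 2) (nat_lit 11) true (nat_lit 2) true (nat_lit 7) true (nat_lit 3) true (nat_lit 15) true (nat_lit 14) (.s false (nat_lit 1) (nat_lit 73) (nat_lit 2) (nat_lit 2) (nat_lit 2) true (nat_lit 9) true (nat_lit 14) false (nat_lit 3) true (nat_lit 14) true (nat_lit 14) dC2b_i107))))) (.nd (.nd (.nd (.nd (.nd (.nd .leaf (nat_lit 82945) (nat_lit 241) (.p (nat_lit 147) (nat_lit 1) .z) .df .leaf) (nat_lit 82946) (nat_lit 317) (.p (nat_lit 170) (nat_lit 1) .z) .df .leaf) (nat_lit 82948) (nat_lit 502) (.n (nat_lit 205) (nat_lit 3) (.n (nat_lit 206) (nat_lit 3) (.n (nat_lit 207) (nat_lit 3) (.p (nat_lit 209) (nat_lit 3) (.p (nat_lit 210) (nat_lit 3) (.p (nat_lit 211) (nat_lit 2) (.n (nat_lit 212) (nat_lit 1) (.p (nat_lit 213) (nat_lit 3) (.n (nat_lit 214) (nat_lit 2) (.n (nat_lit 215) (nat_lit 1) (.n (nat_lit 216) (nat_lit 1) (.n (nat_lit 218) (nat_lit 3) (.p (nat_lit 219) (nat_lit 2) (.n (nat_lit 220) (nat_lit 2) (.p (nat_lit 222) (nat_lit 2) (.p (nat_lit 225) (nat_lit 2) (.n (nat_lit 226) (nat_lit 2) (.p (nat_lit 229) (nat_lit 2) (.p (nat_lit 230) (nat_lit 2) (.p (nat_lit 231) (nat_lit 3) (.n (nat_lit 232) (nat_lit 2) (.p (nat_lit 239) (nat_lit 2) (.p (nat_lit 243) (nat_lit 2) (.p (nat_lit 245) (nat_lit 1) (.p (nat_lit 246) (nat_lit 1) (.n (nat_lit 247) (nat_lit 2) (.p (nat_lit 248) (nat_lit 1) (.n (nat_lit 249) (nat_lit 3) (.n (nat_lit 250) (nat_lit 1) (.p (nat_lit 251) (nat_lit 1) .z)))))))))))))))))))))))))))))) (.ct dC2b_c307 (nat_lit 1) (nat_lit 10) (.s true (nat_lit 1) (nat_lit 34) (nat_lit 1) (nat_lit 2) (nat_lit 1) true (nat_lit 10) true (nat_lit 13) false (nat_lit 3) true (nat_lit 13) true (nat_lit 12) (.e false (nat_lit 1) (nat_lit 139) (nat_lit 1) (nat_lit 13) (.e false (nat_lit 1) (nat_lit 34) (nat_lit 15) (nat_lit 3) (.e false (nat_lit 1) (nat_lit 133) (nat_lit 1) (nat_lit 13) (.e true (nat_lit 2) (nat_lit 135) (nat_lit 1) (nat_lit 13) (.e false (nat_lit 1) (nat_lit 138) (nat_lit 1) (nat_lit 13) (.e true (nat_lit 1) (nat_lit 140) (nat_lit 1) (nat_lit 13) (.e true (nat_lit 1) (nat_lit 144) (nat_lit 1) (nat_lit 13) (.e true (nat_lit 1) (nat_lit 147) (nat_lit 1) (nat_lit 13) (.e false (nat_lit 1) (nat_lit 150) (nat_lit 1) (nat_lit 13) (.e false (nat_lit 1) (nat_lit 155) (nat_lit 1) (nat_lit 13) (.e false (nat_lit 1) (nat_lit 124) (nat_lit 2) (nat_lit 12) (.u (nat_lit 2) (.n (nat_lit 3) (nat_lit 1) (.n (nat_lit 5) (nat_lit 1) (.p (nat_lit 7) (nat_lit 1) (.p (nat_lit 13) (nat_lit 1) (.p (nat_lit 15) (nat_lit 1) (.n (nat_lit 17) (nat_lit 1) (.p (nat_lit 21) (nat_lit 1) (.p (nat_lit 27) (nat_lit 1) (.p (nat_lit 40) (nat_lit 1) (.n (nat_lit 45) (nat_lit 1) .z)))))))))) .nil)))))))))))))) (.nd (.nd .leaf (nat_lit 82950) (nat_lit 597) (.p (nat_lit 288) (nat_lit 1) .z) .df .leaf) (nat_lit 82951) (nat_lit 763) (.p (nat_lit 322) (nat_lit 1) .z) .df .leaf)) (nat_lit 82958) (nat_lit 978) (.n (nat_lit 338) (nat_lit 3) (.p (nat_lit 339) (nat_lit 1) (.p (nat_lit 340) (nat_lit 3) (.n (nat_lit 341) (nat_lit 2) (.p (nat_lit 342) (nat_lit 1) (.p (nat_lit 343) (nat_lit 1) (.n (nat_lit 345) (nat_lit 2) (.p (nat_lit 346) (nat_lit 1) (.n (nat_lit 347) (nat_lit 2) (.p (nat_lit 349) (nat_lit 2) (.p (nat_lit 350) (nat_lit 3) (.p (nat_lit 351) (nat_lit 3) (.p (nat_lit 352) (nat_lit 2) (.p (nat_lit 353) (nat_lit 2) (.p (nat_lit 354) (nat_lit 3) (.p (nat_lit 355) (nat_lit 3) (.p (nat_lit 358) (nat_lit 1) (.p (nat_lit 359) (nat_lit 1) (.p (nat_lit 360) (nat_lit 2) (.p (nat_lit 361) (nat_lit 1) (.p (nat_lit 362) (nat_lit 1) (.p (nat_lit 363) (nat_lit 2) (.n (nat_lit 364) (nat_lit 2) (.n (nat_lit 366) (nat_lit 2) (.p (nat_lit 367) (nat_lit 1) (.p (nat_lit 368) (nat_lit 1) (.p (nat_lit 369) (nat_lit 3) (.p (nat_lit 370) (nat_lit 1) (.n (nat_lit 371) (nat_lit 2) (.n (nat_lit 373) (nat_lit 1) (.n (nat_lit 374) (nat_lit 1) (.n (nat_lit 376) (nat_lit 2) (.p (nat_lit 380) (nat_lit 3) (.p (nat_lit 381) (nat_lit 2) (.p (nat_lit 382) (nat_lit 1) (.p (nat_lit 383) (nat_lit 3) (.p (nat_lit 396) (nat_lit 2) .z))))))))))))))))))))))))))))))))))))) (.ct dC2b_c308 (nat_lit 1) (nat_lit 7) (.s false (nat_lit 1) (nat_lit 81) (nat_lit 1) (nat_lit 1) (nat_lit 2) true (nat_lit 12) true (nat_lit 16) false (nat_lit 7) true (nat_lit 17) true (nat_lit 17) (.e false (nat_lit 1) (nat_lit 147) (nat_lit 6) (nat_lit 12) (.e false (nat_lit 1) (nat_lit 239) (nat_lit 2) (nat_lit 16) (.e true (nat_lit 1) (nat_lit 288) (nat_lit 1) (nat_lit 17) (.e true (nat_lit 1) (nat_lit 279) (nat_lit 1) (nat_lit 17) (.u (nat_lit 2) (.p (nat_lit 3) (nat_lit 1) (.n (nat_lit 5) (nat_lit 1) (.n (nat_lit 7) (nat_lit 1) (.n (nat_lit 11) (nat_lit 1) (.p (nat_lit 12) (nat_lit 1) (.n (nat_lit 15) (nat_lit 1) (.n (nat_lit 16) (nat_lit 1) (.n (nat_lit 20) (nat_lit 1) (.n (nat_lit 28) (nat_lit 1) (.p (nat_lit 39) (nat_lit 1) .z)))))))))) .nil))))))) (.nd (.nd (.nd .leaf (nat_lit 82959) (nat_lit 945) (.p (nat_lit 335) (nat_lit 3) (.n (nat_lit 338) (nat_lit 3) (.p (nat_lit 339) (nat_lit 1) (.n (nat_lit 340) (nat_lit 1) (.n (nat_lit 341) (nat_lit 3) (.p (nat_lit 342) (nat_lit 3) (.p (nat_lit 343) (nat_lit 2) (.n (nat_lit 345) (nat_lit 2) (.n (nat_lit 346) (nat_lit 1) (.p (nat_lit 347) (nat_lit 3) (.p (nat_lit 349) (nat_lit 1) (.n (nat_lit 350) (nat_lit 1) (.p (nat_lit 351) (nat_lit 1) (.n (nat_lit 354) (nat_lit 2) (.p (nat_lit 355) (nat_lit 1) (.n (nat_lit 356) (nat_lit 2) (.p (nat_lit 357) (nat_lit 2) (.p (nat_lit 358) (nat_lit 1) (.p (nat_lit 359) (nat_lit 1) (.p (nat_lit 360) (nat_lit 3) (.p (nat_lit 361) (nat_lit 2) (.p (nat_lit 362) (nat_lit 1) (.n (nat_lit 363) (nat_lit 2) (.n (nat_lit 364) (nat_lit 2) (.p (nat_lit 367) (nat_lit 1) (.n (nat_lit 369) (nat_lit 1) (.p (nat_lit 372) (nat_lit 1) (.n (nat_lit 374) (nat_lit 1) (.p (nat_lit 376) (nat_lit 1) (.n (nat_lit 380) (nat_lit 1) (.n (nat_lit 381) (nat_lit 3) (.n (nat_lit 382) (nat_lit 3) (.n (nat_lit 383) (nat_lit 2) (.n (nat_lit 396) (nat_lit 1) .z)))))))))))))))))))))))))))))))))) (.ct dC2b_c308 (nat_lit 1) (nat_lit 7) (.s false (nat_lit 1) (nat_lit 81) (nat_lit 1) (nat_lit 2) (nat_lit 1) true (nat_lit 14) true (nat_lit 17) false (nat_lit 7) true (nat_lit 17) true (nat_lit 16) (.e false (nat_lit 1) (nat_lit 170) (nat_lit 4) (nat_lit 14) (.e false (nat_lit 1) (nat_lit 267) (nat_lit 1) (nat_lit 17) (.e true (nat_lit 1) (nat_lit 288) (nat_lit 1) (nat_lit 17) (.e true (nat_lit 1) (nat_lit 239) (nat_lit 2) (nat_lit 16) (.u (nat_lit 2) (.p (nat_lit 3) (nat_lit 1) (.p (nat_lit 6) (nat_lit 1) (.n (nat_lit 7) (nat_lit 1) (.n (nat_lit 16) (nat_lit 1) (.n (nat_lit 25) (nat_lit 1) (.p (nat_lit 34) (nat_lit 1) (.p (nat_lit 39) (nat_lit 1) .z))))))) .nil))))))) .leaf) (nat_lit 82962) (nat_lit 1265) (.p (nat_lit 397) (nat_lit 3) (.n (nat_lit 398) (nat_lit 2) (.p (nat_lit 399) (nat_lit 3) (.p (nat_lit 401) (nat_lit 1) (.n (nat_lit 402) (nat_lit 3) (.p (nat_lit 403) (nat_lit 1) (.p (nat_lit 405) (nat_lit 2) (.n (nat_lit 406) (nat_lit 3) (.n (nat_lit 407) (nat_lit 2) (.p (nat_lit 408) (nat_lit 2) (.n (nat_lit 409) (nat_lit 1) (.p (nat_lit 410) (nat_lit 2) (.p (nat_lit 411) (nat_lit 2) (.p (nat_lit 412) (nat_lit 1) (.p (nat_lit 413) (nat_lit 1) (.n (nat_lit 414) (nat_lit 1) (.n (nat_lit 415) (nat_lit 1) (.n (nat_lit 416) (nat_lit 1) (.p (nat_lit 418) (nat_lit 1) (.n (nat_lit 420) (nat_lit 3) (.n (nat_lit 421) (nat_lit 2) (.p (nat_lit 428) (nat_lit 1) (.p (nat_lit 431) (nat_lit 2) (.n (nat_lit 435) (nat_lit 1) .z)))))))))))))))))))))))) (.ct dC2b_c293 (nat_lit 1) (nat_lit 4) (.s false (nat_lit 1) (nat_lit 81) (nat_lit 2) (nat_lit 1) (nat_lit 2) true (nat_lit 9) true (nat_lit 14) false (nat_lit 4) true (nat_lit 14) true (nat_lit 15) (.e false (nat_lit 1) (nat_lit 147) (nat_lit 7) (nat_lit 9) (.e false (nat_lit 1) (nat_lit 279) (nat_lit 2) (nat_lit 14) (.e true (nat_lit 1) (nat_lit 288) (nat_lit 2) (nat_lit 14) (.e true (nat_lit 1) (nat_lit 306) (nat_lit 1) (nat_lit 15) (.u (nat_lit 2) (.n (nat_lit 0) (nat_lit 1) (.n (nat_lit 2) (nat_lit 1) (.p (nat_lit 5) (nat_lit 1) (.p (nat_lit 10) (nat_lit 1) (.p (nat_lit 19) (nat_lit 1) (.p (nat_lit 24) (nat_lit 1) .z)))))) .nil))))))) .leaf) (nat_lit 82963) (nat_lit 1267) (.n (nat_lit 397) (nat_lit 1) (.n (nat_lit 399) (nat_lit 2) (.n (nat_lit 400) (nat_lit 2) (.n (nat_lit 401) (nat_lit 1) (.p (nat_lit 402) (nat_lit 1) (.n (nat_lit 406) (nat_lit 2) (.p (nat_lit 407) (nat_lit 1) (.n (nat_lit 408) (nat_lit 3) (.p (nat_lit 409) (nat_lit 2) (.p (nat_lit 410) (nat_lit 1) (.n (nat_lit 411) (nat_lit 3) (.n (nat_lit 415) (nat_lit 2) (.p (nat_lit 416) (nat_lit 1) (.p (nat_lit 418) (nat_lit 3) (.p (nat_lit 420) (nat_lit 1) (.n (nat_lit 428) (nat_lit 2) (.p (nat_lit 431) (nat_lit 2) (.p (nat_lit 432) (nat_lit 3) (.p (nat_lit 435) (nat_lit 1) .z))))))))))))))))))) (.ct dC2b_c293 (nat_lit 1) (nat_lit 4) (.s false (nat_lit 1) (nat_lit 81) (nat_lit 2) (nat_lit 2) (nat_lit 1) true (nat_lit 10) true (nat_lit 15) false (nat_lit 4) true (nat_lit 14) true (nat_lit 14) (.e false (nat_lit 1) (nat_lit 170) (nat_lit 6) (nat_lit 10) (.e false (nat_lit 1) (nat_lit 306) (nat_lit 1) (nat_lit 15) (.e true (nat_lit 1) (nat_lit 288) (nat_lit 2) (nat_lit 14) (.e true (nat_lit 1) (nat_lit 267) (nat_lit 2) (nat_lit 14) (.u (nat_lit 2) (.p (nat_lit 11) (nat_lit 1) (.n (nat_lit 12) (nat_lit 1) (.p (nat_lit 14) (nat_lit 1) (.n (nat_lit 23) (nat_lit 1) .z)))) .nil))))))) (.nd (.nd .leaf (nat_lit 83969) (nat_lit 267) (.p (nat_lit 132) (nat_lit 3) (.n (nat_lit 133) (nat_lit 1) (.n (nat_lit 134) (nat_lit 2) (.p (nat_lit 135) (nat_lit 1) (.p (nat_lit 136) (nat_lit 3) (.p (nat_lit 137) (nat_lit 1) (.n (nat_lit 138) (nat_lit 1) (.p (nat_lit 139) (nat_lit 3) (.n (nat_lit 140) (nat_lit 3) (.p (nat_lit 141) (nat_lit 3) (.p (nat_lit 143) (nat_lit 1) (.p (nat_lit 144) (nat_lit 1) (.n (nat_lit 145) (nat_lit 3) (.n (nat_lit 146) (nat_lit 1) (.n (nat_lit 147) (nat_lit 3) (.n (nat_lit 149) (nat_lit 1) (.p (nat_lit 150) (nat_lit 2) (.p (nat_lit 151) (nat_lit 2) (.p (nat_lit 152) (nat_lit 2) (.p (nat_lit 153) (nat_lit 2) (.p (nat_lit 154) (nat_lit 3) (.p (nat_lit 155) (nat_lit 1) (.n (nat_lit 156) (nat_lit 2) (.n (nat_lit 157) (nat_lit 2) .z)))))))))))))))))))))))) (.ct dC2b_c291 (nat_lit 1) (nat_lit 9) (.s true (nat_lit 1) (nat_lit 7) (nat_lit 2) (nat_lit 1) (nat_lit 3) true (nat_lit 1) true (nat_lit 7) true (nat_lit 3) true (nat_lit 8) true (nat_lit 9) (.e true (nat_lit 1) (nat_lit 19) (nat_lit 11) (nat_lit 1) (.e true (nat_lit 1) (nat_lit 47) (nat_lit 3) (nat_lit 7) (.e false (nat_lit 1) (nat_lit 25) (nat_lit 7) (nat_lit 3) (.e false (nat_lit 1) (nat_lit 26) (nat_lit 7) (nat_lit 3) (.e true (nat_lit 1) (nat_lit 27) (nat_lit 7) (nat_lit 3) (.e false (nat_lit 1) (nat_lit 29) (nat_lit 7) (nat_lit 3) (.e true (nat_lit 1) (nat_lit 72) (nat_lit 2) (nat_lit 8) (.e false (nat_lit 1) (nat_lit 81) (nat_lit 1) (nat_lit 9) (.e true (nat_lit 1) (nat_lit 83) (nat_lit 1) (nat_lit 9) (.e true (nat_lit 1) (nat_lit 85) (nat_lit 1) (nat_lit 9) (.u (nat_lit 2) (.p (nat_lit 15) (nat_lit 1) .z) .nil))))))))))))) .leaf) (nat_lit 83970) (nat_lit 318) (.p (nat_lit 171) (nat_lit 1) .z) .df .leaf))) (nat_lit 83972) (nat_lit 525) (.p (nat_lit 205) (nat_lit 2) (.n (nat_lit 206) (nat_lit 3) (.p (nat_lit 207) (nat_lit 3) (.p (nat_lit 208) (nat_lit 2) (.n (nat_lit 209) (nat_lit 2) (.p (nat_lit 210) (nat_lit 3) (.p (nat_lit 212) (nat_lit 1) (.n (nat_lit 213) (nat_lit 2) (.p (nat_lit 214) (nat_lit 3) (.n (nat_lit 215) (nat_lit 3) (.p (nat_lit 217) (nat_lit 3) (.p (nat_lit 218) (nat_lit 2) (.n (nat_lit 219) (nat_lit 2) (.n (nat_lit 220) (nat_lit 2) (.n (nat_lit 221) (nat_lit 3) (.p (nat_lit 225) (nat_lit 3) (.p (nat_lit 228) (nat_lit 2) (.n (nat_lit 229) (nat_lit 3) (.p (nat_lit 230) (nat_lit 3) (.p (nat_lit 231) (nat_lit 3) (.n (nat_lit 232) (nat_lit 2) (.p (nat_lit 238) (nat_lit 2) (.p (nat_lit 239) (nat_lit 2) (.n (nat_lit 242) (nat_lit 2) (.p (nat_lit 243) (nat_lit 3) (.n (nat_lit 245) (nat_lit 3) (.n (nat_lit 246) (nat_lit 3) (.p (nat_lit 247) (nat_lit 3) (.n (nat_lit 248) (nat_lit 3) (.n (nat_lit 250) (nat_lit 1) (.p (nat_lit 251) (nat_lit 3) .z))))))))))))))))))))))))))))))) (.ct dC2b_c307 (nat_lit 1) (nat_lit 10) (.s false (nat_lit 1) (nat_lit 7) (nat_lit 3) (nat_lit 2) (nat_lit 4) false (nat_lit 0) true (nat_lit 10) true (nat_lit 7) true (nat_lit 11) true (nat_lit 12) (.e false (nat_lit 1) (nat_lit 22) (nat_lit 20) (nat_lit 0) (.e false (nat_lit 1) (nat_lit 23) (nat_lit 20) (nat_lit 0) (.e false (nat_lit 1) (nat_lit 81) (nat_lit 4) (nat_lit 10) (.e true (nat_lit 1) (nat_lit 83) (nat_lit 4) (nat_lit 10) (.e true (nat_lit 1) (nat_lit 85) (nat_lit 4) (nat_lit 10) (.e false (nat_lit 1) (nat_lit 49) (nat_lit 7) (nat_lit 7) (.e true (nat_lit 1) (nat_lit 50) (nat_lit 7) (nat_lit 7) (.e true (nat_lit 1) (nat_lit 51) (nat_lit 7) (nat_lit 7) (.e true (nat_lit 2) (nat_lit 52) (nat_lit 7) (nat_lit 7) (.e false (nat_lit 1) (nat_lit 53) (nat_lit 7) (nat_lit 7) (.e false (nat_lit 2) (nat_lit 54) (nat_lit 7) (nat_lit 7) (.e true (nat_lit 1) (nat_lit 55) (nat_lit 7) (nat_lit 7) (.e false (nat_lit 1) (nat_lit 57) (nat_lit 7) (nat_lit 7) (.e false (nat_lit 1) (nat_lit 59) (nat_lit 7) (nat_lit 7) (.e false (nat_lit 1) (nat_lit 96) (nat_lit 3) (nat_lit 11) (.e false (nat_lit 2) (nat_lit 109) (nat_lit 2) (nat_lit 12) (.e true (nat_lit 2) (nat_lit 119) (nat_lit 2) (nat_lit 12) (.e false (nat_lit 2) (nat_lit 123) (nat_lit 2) (nat_lit 12) (.e false (nat_lit 2) (nat_lit 127) (nat_lit 2) (nat_lit 12) (.e true (nat_lit 2) (nat_lit 106) (nat_lit 2) (nat_lit 12) (.e true (nat_lit 2) (nat_lit 116) (nat_lit 2) (nat_lit 12) (.u (nat_lit 2) (.p (nat_lit 1) (nat_lit 1) (.p (nat_lit 4) (nat_lit 1) (.p (nat_lit 6) (nat_lit 1) (.n (nat_lit 7) (nat_lit 1) (.p (nat_lit 8) (nat_lit 1) (.n (nat_lit 9) (nat_lit 1) (.n (nat_lit 11) (nat_lit 1) (.p (nat_lit 16) (nat_lit 1) (.p (nat_lit 17) (nat_lit 1) (.n (nat_lit 20) (nat_lit 1) (.p (nat_lit 22) (nat_lit 1) (.n (nat_lit 23) (nat_lit 1) (.p (nat_lit 25) (nat_lit 1) (.n (nat_lit 33) (nat_lit 1) (.p (nat_lit 40) (nat_lit 1) (.n (nat_lit 42) (nat_lit 1) (.p (nat_lit 159) (nat_lit 2) (.n (nat_lit 163) (nat_lit 2) (.n (nat_lit 167) (nat_lit 2) .z))))))))))))))))))) .nil)))))))))))))))))))))))) (.nd (.nd (.nd (.nd .leaf (nat_lit 83974) (nat_lit 628) (.n (nat_lit 252) (nat_lit 1) (.p (nat_lit 253) (nat_lit 1) (.n (nat_lit 254) (nat_lit 2) (.p (nat_lit 255) (nat_lit 3) (.p (nat_lit 256) (nat_lit 1) (.n (nat_lit 257) (nat_lit 3) (.p (nat_lit 259) (nat_lit 2) (.n (nat_lit 260) (nat_lit 2) (.n (nat_lit 261) (nat_lit 2) (.n (nat_lit 262) (nat_lit 1) (.p (nat_lit 263) (nat_lit 3) (.p (nat_lit 264) (nat_lit 1) (.p (nat_lit 265) (nat_lit 1) (.p (nat_lit 266) (nat_lit 2) (.p (nat_lit 267) (nat_lit 2) (.n (nat_lit 269) (nat_lit 2) (.n (nat_lit 270) (nat_lit 1) (.p (nat_lit 272) (nat_lit 3) (.p (nat_lit 274) (nat_lit 1) (.n (nat_lit 275) (nat_lit 3) (.p (nat_lit 277) (nat_lit 2) (.p (nat_lit 278) (nat_lit 1) (.p (nat_lit 283) (nat_lit 3) (.p (nat_lit 284) (nat_lit 1) (.n (nat_lit 285) (nat_lit 3) (.n (nat_lit 286) (nat_lit 1) (.p (nat_lit 288) (nat_lit 1) .z))))))))))))))))))))))))))) (.ct dC2b_c292 (nat_lit 1) (nat_lit 7) (.s true (nat_lit 1) (nat_lit 13) (nat_lit 2) (nat_lit 1) (nat_lit 7) true (nat_lit 0) true (nat_lit 6) true (nat_lit 4) true (nat_lit 11) true (nat_lit 12) dC2b_i108)) .leaf) (nat_lit 83975) (nat_lit 764) (.p (nat_lit 323) (nat_lit 1) .z) .df .leaf) (nat_lit 83983) (nat_lit 1159) (.p (nat_lit 335) (nat_lit 1) (.p (nat_lit 338) (nat_lit 3) (.p (nat_lit 340) (nat_lit 2) (.p (nat_lit 341) (nat_lit 3) (.n (nat_lit 342) (nat_lit 3) (.n (nat_lit 343) (nat_lit 2) (.p (nat_lit 344) (nat_lit 3) (.p (nat_lit 345) (nat_lit 2) (.p (nat_lit 346) (nat_lit 1) (.p (nat_lit 347) (nat_lit 1) (.n (nat_lit 348) (nat_lit 1) (.n (nat_lit 349) (nat_lit 1) (.p (nat_lit 350) (nat_lit 2) (.p (nat_lit 351) (nat_lit 3) (.p (nat_lit 352) (nat_lit 3) (.n (nat_lit 353) (nat_lit 2) (.n (nat_lit 354) (nat_lit 1) (.p (nat_lit 356) (nat_lit 2) (.n (nat_lit 357) (nat_lit 3) (.p (nat_lit 358) (nat_lit 2) (.n (nat_lit 360) (nat_lit 1) (.n (nat_lit 361) (nat_lit 3) (.p (nat_lit 363) (nat_lit 1) (.p (nat_lit 364) (nat_lit 2) (.n (nat_lit 365) (nat_lit 1) (.n (nat_lit 366) (nat_lit 3) (.p (nat_lit 368) (nat_lit 3) (.p (nat_lit 369) (nat_lit 3) (.p (nat_lit 370) (nat_lit 2) (.p (nat_lit 371) (nat_lit 2) (.n (nat_lit 372) (nat_lit 1) (.n (nat_lit 373) (nat_lit 2) (.p (nat_lit 374) (nat_lit 3) (.n (nat_lit 375) (nat_lit 1) (.p (nat_lit 376) (nat_lit 3) (.n (nat_lit 378) (nat_lit 1) (.p (nat_lit 379) (nat_lit 3) (.p (nat_lit 380) (nat_lit 3) (.n (nat_lit 381) (nat_lit 3) (.n (nat_lit 383) (nat_lit 3) (.p (nat_lit 384) (nat_lit 1) (.p (nat_lit 386) (nat_lit 1) (.n (nat_lit 390) (nat_lit 2) (.n (nat_lit 391) (nat_lit 2) (.p (nat_lit 393) (nat_lit 1) (.n (nat_lit 396) (nat_lit 1) .z)))))))))))))))))))))))))))))))))))))))))))))) (.ct dC2b_c308 (nat_lit 1) (nat_lit 7) (.s true (nat_lit 1) (nat_lit 20) (nat_lit 15) (nat_lit 0) (nat_lit 1) true (nat_lit 1) true (nat_lit 17) true (nat_lit 4) true (nat_lit 7) true (nat_lit 18) (.e false (nat_lit 1) (nat_lit 44) (nat_lit 32) (nat_lit 1) (.e true (nat_lit 1) (nat_lit 252) (nat_lit 1) (nat_lit 17) (.e true (nat_lit 2) (nat_lit 253) (nat_lit 1) (nat_lit 17) (.e true (nat_lit 1) (nat_lit 256) (nat_lit 1) (nat_lit 17) (.e true (nat_lit 1) (nat_lit 257) (nat_lit 1) (nat_lit 17) (.e true (nat_lit 1) (nat_lit 259) (nat_lit 1) (nat_lit 17) (.e false (nat_lit 1) (nat_lit 260) (nat_lit 1) (nat_lit 17) (.e true (nat_lit 3) (nat_lit 261) (nat_lit 1) (nat_lit 17) (.e false (nat_lit 1) (nat_lit 262) (nat_lit 1) (nat_lit 17) (.e true (nat_lit 1) (nat_lit 265) (nat_lit 1) (nat_lit 17) (.e false (nat_lit 1) (nat_lit 271) (nat_lit 1) (nat_lit 17) (.e false (nat_lit 1) (nat_lit 272) (nat_lit 1) (nat_lit 17) (.e true (nat_lit 1) (nat_lit 274) (nat_lit 1) (nat_lit 17) (.e true (nat_lit 1) (nat_lit 276) (nat_lit 1) (nat_lit 17) (.e true (nat_lit 2) (nat_lit 277) (nat_lit 1) (nat_lit 17) (.e false (nat_lit 3) (nat_lit 283) (nat_lit 1) (nat_lit 17) dC2b_i109)))))))))))))))))) (.nd (.nd .leaf (nat_lit 83986) (nat_lit 1271) (.n (nat_lit 397) (nat_lit 1) (.n (nat_lit 398) (nat_lit 1) (.p (nat_lit 399) (nat_lit 3) (.n (nat_lit 400) (nat_lit 3) (.n (nat_lit 401) (nat_lit 2) (.n (nat_lit 402) (nat_lit 3) (.p (nat_lit 403) (nat_lit 2) (.p (nat_lit 404) (nat_lit 3) (.n (nat_lit 405) (nat_lit 1) (.n (nat_lit 406) (nat_lit 2) (.n (nat_lit 407) (nat_lit 2) (.n (nat_lit 408) (nat_lit 2) (.p (nat_lit 409) (nat_lit 2) (.n (nat_lit 410) (nat_lit 2) (.n (nat_lit 411) (nat_lit 2) (.n (nat_lit 414) (nat_lit 2) (.n (nat_lit 415) (nat_lit 3) (.p (nat_lit 416) (nat_lit 3) (.n (nat_lit 418) (nat_lit 2) (.p (nat_lit 421) (nat_lit 2) (.p (nat_lit 427) (nat_lit 1) (.p (nat_lit 428) (nat_lit 1) (.p (nat_lit 431) (nat_lit 3) (.p (nat_lit 432) (nat_lit 3) (.n (nat_lit 435) (nat_lit 2) .z))))))))))))))))))))))))) (.ct dC2b_c293 (nat_lit 1) (nat_lit 4) (.s false (nat_lit 1) (nat_lit 35) (nat_lit 1) (nat_lit 2) (nat_lit 7) true (nat_lit 4) true (nat_lit 9) true (nat_lit 1) true (nat_lit 15) true (nat_lit 14) (.s false (nat_lit 1) (nat_lit 35) (nat_lit 2) (nat_lit 2) (nat_lit 6) true (nat_lit 4) true (nat_lit 10) true (nat_lit 1) true (nat_lit 14) true (nat_lit 14) (.s true (nat_lit 1) (nat_lit 82) (nat_lit 2) (nat_lit 2) (nat_lit 1) true (nat_lit 10) true (nat_lit 15) false (nat_lit 4) true (nat_lit 14) true (nat_lit 14) dC2b_i110)))) .leaf) (nat_lit 83987) (nat_lit 1350) (.n (nat_lit 400) (nat_lit 1) (.n (nat_lit 401) (nat_lit 1) (.p (nat_lit 402) (nat_lit 1) (.p (nat_lit 403) (nat_lit 3) (.n (nat_lit 405) (nat_lit 1) (.p (nat_lit 406) (nat_lit 2) (.n (nat_lit 407) (nat_lit 3) (.n (nat_lit 408) (nat_lit 1) (.p (nat_lit 410) (nat_lit 1) (.p (nat_lit 412) (nat_lit 2) (.p (nat_lit 413) (nat_lit 2) (.p (nat_lit 414) (nat_lit 3) (.p (nat_lit 415) (nat_lit 2) (.n (nat_lit 416) (nat_lit 2) (.p (nat_lit 418) (nat_lit 2) (.p (nat_lit 420) (nat_lit 3) (.n (nat_lit 421) (nat_lit 2) (.n (nat_lit 427) (nat_lit 2) (.n (nat_lit 428) (nat_lit 2) (.p (nat_lit 431) (nat_lit 3) (.n (nat_lit 432) (nat_lit 1) (.n (nat_lit 435) (nat_lit 2) .z)))))))))))))))))))))) (.ct dC2b_c293 (nat_lit 1) (nat_lit 4) (.s false (nat_lit 1) (nat_lit 19) (nat_lit 2) (nat_lit 13) (nat_lit 2) true (nat_lit 9) true (nat_lit 14) true (nat_lit 4) true (nat_lit 14) true (nat_lit 7) (.e false (nat_lit 2) (nat_lit 132) (nat_lit 7) (nat_lit 9) (.e true (nat_lit 2) (nat_lit 133) (nat_lit 7) (nat_lit 9) (.e false (nat_lit 1) (nat_lit 134) (nat_lit 7) (nat_lit 9) (.e false (nat_lit 2) (nat_lit 135) (nat_lit 7) (nat_lit 9) (.e false (nat_lit 2) (nat_lit 137) (nat_lit 7) (nat_lit 9) (.e false (nat_lit 1) (nat_lit 138) (nat_lit 7) (nat_lit 9) (.e true (nat_lit 3) (nat_lit 139) (nat_lit 7) (nat_lit 9) (.e false (nat_lit 3) (nat_lit 140) (nat_lit 7) (nat_lit 9) (.e true (nat_lit 3) (nat_lit 141) (nat_lit 7) (nat_lit 9) (.e true (nat_lit 1) (nat_lit 142) (nat_lit 7) (nat_lit 9) (.e true (nat_lit 3) (nat_lit 143) (nat_lit 7) (nat_lit 9) (.e true (nat_lit 1) (nat_lit 144) (nat_lit 7) (nat_lit 9) (.e true (nat_lit 1) (nat_lit 145) (nat_lit 7) (nat_lit 9) (.e true (nat_lit 3) (nat_lit 147) (nat_lit 7) (nat_lit 9) (.e false (nat_lit 1) (nat_lit 149) (nat_lit 7) (nat_lit 9) (.e true (nat_lit 1) (nat_lit 150) (nat_lit 7) (nat_lit 9) (.e true (nat_lit 2) (nat_lit 151) (nat_lit 7) (nat_lit 9) (.e true (nat_lit 1) (nat_lit 153) (nat_lit 7) (nat_lit 9) (.e true (nat_lit 1) (nat_lit 154) (nat_lit 7) (nat_lit 9) (.e true (nat_lit 3) (nat_lit 155) (nat_lit 7) (nat_lit 9) (.e false (nat_lit 2) (nat_lit 156) (nat_lit 7) (nat_lit 9) (.e false (nat_lit 1) (nat_lit 253) (nat_lit 2) (nat_lit 14) dC2b_i111)))))))))))))))))))))))) .leaf)) (nat_lit 84993) (nat_lit 242) (.p (nat_lit 148) (nat_lit 1) .z) .df (.nd (.nd (.nd .leaf (nat_lit 84994) (nat_lit 319) (.p (nat_lit 172) (nat_lit 1) .z) .df .leaf) (nat_lit 84996) (nat_lit 524) (.n (nat_lit 205) (nat_lit 2) (.p (nat_lit 206) (nat_lit 2) (.p (nat_lit 207) (nat_lit 3) (.p (nat_lit 208) (nat_lit 1) (.n (nat_lit 209) (nat_lit 1) (.p (nat_lit 210) (nat_lit 3) (.n (nat_lit 211) (nat_lit 3) (.p (nat_lit 212) (nat_lit 2) (.n (nat_lit 213) (nat_lit 3) (.p (nat_lit 214) (nat_lit 2) (.n (nat_lit 215) (nat_lit 3) (.n (nat_lit 217) (nat_lit 1) (.n (nat_lit 218) (nat_lit 3) (.p (nat_lit 219) (nat_lit 1) (.p (nat_lit 220) (nat_lit 1) (.n (nat_lit 221) (nat_lit 2) (.n (nat_lit 222) (nat_lit 2) (.p (nat_lit 225) (nat_lit 2) (.p (nat_lit 226) (nat_lit 2) (.p (nat_lit 228) (nat_lit 1) (.n (nat_lit 229) (nat_lit 2) (.n (nat_lit 230) (nat_lit 2) (.p (nat_lit 234) (nat_lit 3) (.p (nat_lit 240) (nat_lit 2) (.p (nat_lit 242) (nat_lit 3) (.p (nat_lit 243) (nat_lit 2) (.p (nat_lit 244) (nat_lit 2) (.p (nat_lit 245) (nat_lit 2) (.n (nat_lit 247) (nat_lit 3) (.n (nat_lit 248) (nat_lit 2) (.n (nat_lit 249) (nat_lit 3) (.p (nat_lit 250) (nat_lit 1) (.p (nat_lit 251) (nat_lit 1) .z))))))))))))))))))))))))))))))))) (.ct dC2b_c307 (nat_lit 1) (nat_lit 10) (.s true (nat_lit 1) (nat_lit 36) (nat_lit 1) (nat_lit 2) (nat_lit 1) true (nat_lit 10) true (nat_lit 13) false (nat_lit 3) true (nat_lit 13) true (nat_lit 12) (.e false (nat_lit 1) (nat_lit 132) (nat_lit 1) (nat_lit 13) (.e true (nat_lit 1) (nat_lit 133) (nat_lit 1) (nat_lit 13) (.e true (nat_lit 1) (nat_lit 137) (nat_lit 1) (nat_lit 13) (.e true (nat_lit 2) (nat_lit 138) (nat_lit 1) (nat_lit 13) (.e true (nat_lit 2) (nat_lit 139) (nat_lit 1) (nat_lit 13) (.e false (nat_lit 2) (nat_lit 140) (nat_lit 1) (nat_lit 13) (.e false (nat_lit 3) (nat_lit 141) (nat_lit 1) (nat_lit 13) (.e false (nat_lit 1) (nat_lit 36) (nat_lit 15) (nat_lit 3) (.e false (nat_lit 2) (nat_lit 136) (nat_lit 1) (nat_lit 13) (.e false (nat_lit 1) (nat_lit 143) (nat_lit 1) (nat_lit 13) (.e false (nat_lit 1) (nat_lit 147) (nat_lit 1) (nat_lit 13) (.e false (nat_lit 1) (nat_lit 148) (nat_lit 1) (nat_lit 13) (.e true (nat_lit 2) (nat_lit 149) (nat_lit 1) (nat_lit 13) (.e false (nat_lit 3) (nat_lit 150) (nat_lit 1) (nat_lit 13) (.e false (nat_lit 2) (nat_lit 151) (nat_lit 1) (nat_lit 13) (.e false (nat_lit 3) (nat_lit 152) (nat_lit 1) (nat_lit 13) (.e false (nat_lit 2) (nat_lit 153) (nat_lit 1) (nat_lit 13) (.e false (nat_lit 1) (nat_lit 154) (nat_lit 1) (nat_lit 13) dC2b_i112)))))))))))))))))))) .leaf) (nat_lit 84998) (nat_lit 640) (.p (nat_lit 253) (nat_lit 1) (.n (nat_lit 254) (nat_lit 2) (.n (nat_lit 255) (nat_lit 3) (.p (nat_lit 256) (nat_lit 2) (.n (nat_lit 257) (nat_lit 1) (.n (nat_lit 258) (nat_lit 3) (.p (nat_lit 259) (nat_lit 2) (.n (nat_lit 260) (nat_lit 2) (.n (nat_lit 261) (nat_lit 1) (.n (nat_lit 262) (nat_lit 1) (.p (nat_lit 263) (nat_lit 1) (.p (nat_lit 264) (nat_lit 2) (.n (nat_lit 266) (nat_lit 2) (.p (nat_lit 268) (nat_lit 1) (.n (nat_lit 269) (nat_lit 2) (.p (nat_lit 270) (nat_lit 3) (.p (nat_lit 271) (nat_lit 3) (.n (nat_lit 272) (nat_lit 1) (.p (nat_lit 273) (nat_lit 3) (.n (nat_lit 274) (nat_lit 3) (.p (nat_lit 275) (nat_lit 1) (.n (nat_lit 276) (nat_lit 3) (.n (nat_lit 277) (nat_lit 3) (.n (nat_lit 279) (nat_lit 1) (.p (nat_lit 280) (nat_lit 1) (.p (nat_lit 283) (nat_lit 1) (.n (nat_lit 285) (nat_lit 1) (.p (nat_lit 288) (nat_lit 1) .z)))))))))))))))))))))))))))) (.ct dC2b_c292 (nat_lit 1) (nat_lit 7) dC2b_i113) (.nd .leaf (nat_lit 84999) (nat_lit 782) (.n (nat_lit 305) (nat_lit 2) (.n (nat_lit 306) (nat_lit 1) (.p (nat_lit 307) (nat_lit 3) (.p (nat_lit 308) (nat_lit 3) (.p (nat_lit 309) (nat_lit 2) (.n (nat_lit 310) (nat_lit 2) (.n (nat_lit 313) (nat_lit 1) (.p (nat_lit 314) (nat_lit 1) (.n (nat_lit 315) (nat_lit 2) (.n (nat_lit 317) (nat_lit 1) (.p (nat_lit 322) (nat_lit 1) .z))))))))))) (.ct dC2b_c277 (nat_lit 1) (nat_lit 4) (.s true (nat_lit 3) (nat_lit 7) (nat_lit 2) (nat_lit 3) (nat_lit 7) true (nat_lit 0) true (nat_lit 4) true (nat_lit 4) true (nat_lit 8) true (nat_lit 7) (.s false (nat_lit 3) (nat_lit 20) (nat_lit 0) (nat_lit 7) (nat_lit 1) true (nat_lit 7) true (nat_lit 9) true (nat_lit 0) true (nat_lit 10) true (nat_lit 4) (.s false (nat_lit 3) (nat_lit 20) (nat_lit 1) (nat_lit 7) (nat_lit 0) true (nat_lit 7) true (nat_lit 10) true (nat_lit 0) true (nat_lit 9) true (nat_lit 4) (.s true (nat_lit 1) (nat_lit 37) (nat_lit 2) (nat_lit 2) (nat_lit 2) true (nat_lit 4) true (nat_lit 8) false (nat_lit 0) true (nat_lit 8) true (nat_lit 8) (.e true (nat_lit 1) (nat_lit 34) (nat_lit 20) (nat_lit 0) (.e false (nat_lit 1) (nat_lit 35) (nat_lit 20) (nat_lit 0) (.e false (nat_lit 2) (nat_lit 81) (nat_lit 7) (nat_lit 4) (.e false (nat_lit 1) (nat_lit 85) (nat_lit 7) (nat_lit 4) (.e false (nat_lit 1) (nat_lit 88) (nat_lit 7) (nat_lit 4) (.e true (nat_lit 2) (nat_lit 177) (nat_lit 2) (nat_lit 8) (.e false (nat_lit 3) (nat_lit 90) (nat_lit 7) (nat_lit 4) (.e false (nat_lit 1) (nat_lit 33) (nat_lit 20) (nat_lit 0) (.e true (nat_lit 1) (nat_lit 80) (nat_lit 7) (nat_lit 4) (.e false (nat_lit 3) (nat_lit 89) (nat_lit 7) (nat_lit 4) (.e true (nat_lit 3) (nat_lit 173) (nat_lit 2) (nat_lit 8) (.e false (nat_lit 3) (nat_lit 169) (nat_lit 2) (nat_lit 8) (.e true (nat_lit 3) (nat_lit 170) (nat_lit 2) (nat_lit 8) (.e true (nat_lit 3) (nat_lit 174) (nat_lit 2) (nat_lit 8) (.e true (nat_lit 1) (nat_lit 178) (nat_lit 2) (nat_lit 8) (.e true (nat_lit 1) (nat_lit 179) (nat_lit 2) (nat_lit 8) (.e false (nat_lit 1) (nat_lit 181) (nat_lit 2) (nat_lit 8) (.e true (nat_lit 1) (nat_lit 182) (nat_lit 2) (nat_lit 8) (.e false (nat_lit 1) (nat_lit 183) (nat_lit 2) (nat_lit 8) (.u (nat_lit 2) (.p (nat_lit 0) (nat_lit 1) (.n (nat_lit 4) (nat_lit 1) (.p (nat_lit 12) (nat_lit 1) (.p (nat_lit 13) (nat_lit 1) (.n (nat_lit 19) (nat_lit 1) (.p (nat_lit 20) (nat_lit 1) (.n (nat_lit 21) (nat_lit 1) (.p (nat_lit 23) (nat_lit 1) (.p (nat_lit 40) (nat_lit 1) (.n (nat_lit 41) (nat_lit 2) (.p (nat_lit 43) (nat_lit 1) (.n (nat_lit 44) (nat_lit 1) (.n (nat_lit 45) (nat_lit 1) (.n (nat_lit 48) (nat_lit 1) (.p (nat_lit 68) (nat_lit 1) .z))))))))))))))) .nil))))))))))))))))))))))))) .leaf)))) (nat_lit 85007) (nat_lit 1152) (.p (nat_lit 335) (nat_lit 3) (.n (nat_lit 336) (nat_lit 1) (.n (nat_lit 337) (nat_lit 1) (.n (nat_lit 338) (nat_lit 1) (.n (nat_lit 340) (nat_lit 2) (.n (nat_lit 341) (nat_lit 1) (.p (nat_lit 342) (nat_lit 1) (.n (nat_lit 344) (nat_lit 1) (.p (nat_lit 345) (nat_lit 3) (.p (nat_lit 346) (nat_lit 2) (.n (nat_lit 347) (nat_lit 2) (.n (nat_lit 348) (nat_lit 2) (.p (nat_lit 349) (nat_lit 1) (.n (nat_lit 350) (nat_lit 2) (.n (nat_lit 351) (nat_lit 3) (.p (nat_lit 352) (nat_lit 2) (.p (nat_lit 354) (nat_lit 3) (.p (nat_lit 355) (nat_lit 2) (.p (nat_lit 356) (nat_lit 1) (.n (nat_lit 357) (nat_lit 3) (.p (nat_lit 359) (nat_lit 3) (.p (nat_lit 360) (nat_lit 1) (.p (nat_lit 361) (nat_lit 3) (.n (nat_lit 363) (nat_lit 3) (.n (nat_lit 364) (nat_lit 1) (.n (nat_lit 365) (nat_lit 2) (.n (nat_lit 366) (nat_lit 3) (.n (nat_lit 367) (nat_lit 1) (.n (nat_lit 368) (nat_lit 2) (.n (nat_lit 369) (nat_lit 1) (.n (nat_lit 370) (nat_lit 2) (.n (nat_lit 371) (nat_lit 1) (.p (nat_lit 372) (nat_lit 3) (.n (nat_lit 373) (nat_lit 2) (.p (nat_lit 374) (nat_lit 3) (.n (nat_lit 375) (nat_lit 3) (.n (nat_lit 376) (nat_lit 1) (.p (nat_lit 377) (nat_lit 1) (.n (nat_lit 378) (nat_lit 3) (.n (nat_lit 379) (nat_lit 1) (.n (nat_lit 380) (nat_lit 1) (.p (nat_lit 381) (nat_lit 1) (.p (nat_lit 382) (nat_lit 1) (.p (nat_lit 383) (nat_lit 1) (.p (nat_lit 384) (nat_lit 3) (.p (nat_lit 386) (nat_lit 2) (.n (nat_lit 387) (nat_lit 1) (.n (nat_lit 388) (nat_lit 1) (.p (nat_lit 390) (nat_lit 1) (.p (nat_lit 391) (nat_lit 3) (.p (nat_lit 392) (nat_lit 2) (.p (nat_lit 393) (nat_lit 3) (.n (nat_lit 395) (nat_lit 1) (.n (nat_lit 396) (nat_lit 2) .z)))))))))))))))))))))))))))))))))))))))))))))))))))))) (.ct dC2b_c308 (nat_lit 1) (nat_lit 7) (.s false (nat_lit 1) (nat_lit 83) (nat_lit 2) (nat_lit 1) (nat_lit 1) true (nat_lit 12) true (nat_lit 17) false (nat_lit 7) true (nat_lit 16) true (nat_lit 17) (.e false (nat_lit 1) (nat_lit 148) (nat_lit 6) (nat_lit 12) (.e false (nat_lit 1) (nat_lit 280) (nat_lit 1) (nat_lit 17) (.e false (nat_lit 2) (nat_lit 205) (nat_lit 2) (nat_lit 16) (.e true (nat_lit 2) (nat_lit 206) (nat_lit 2) (nat_lit 16) (.e true (nat_lit 3) (nat_lit 207) (nat_lit 2) (nat_lit 16) (.e true (nat_lit 1) (nat_lit 208) (nat_lit 2) (nat_lit 16) (.e false (nat_lit 1) (nat_lit 209) (nat_lit 2) (nat_lit 16) (.e true (nat_lit 3) (nat_lit 210) (nat_lit 2) (nat_lit 16) (.e false (nat_lit 3) (nat_lit 211) (nat_lit 2) (nat_lit 16) (.e true (nat_lit 2) (nat_lit 212) (nat_lit 2) (nat_lit 16) (.e false (nat_lit 3) (nat_lit 213) (nat_lit 2) (nat_lit 16) (.e true (nat_lit 2) (nat_lit 214) (nat_lit 2) (nat_lit 16) dC2b_i114)))))))))))))) (.nd (.nd (.nd (.nd (.nd .leaf (nat_lit 85010) (nat_lit 1318) (.n (nat_lit 397) (nat_lit 3) (.n (nat_lit 398) (nat_lit 2) (.n (nat_lit 399) (nat_lit 2) (.p (nat_lit 400) (nat_lit 3) (.p (nat_lit 401) (nat_lit 1) (.n (nat_lit 402) (nat_lit 1) (.p (nat_lit 403) (nat_lit 2) (.p (nat_lit 404) (nat_lit 3) (.n (nat_lit 405) (nat_lit 1) (.p (nat_lit 406) (nat_lit 2) (.n (nat_lit 407) (nat_lit 1) (.n (nat_lit 408) (nat_lit 2) (.p (nat_lit 409) (nat_lit 3) (.n (nat_lit 410) (nat_lit 1) (.n (nat_lit 411) (nat_lit 1) (.p (nat_lit 412) (nat_lit 3) (.p (nat_lit 413) (nat_lit 3) (.n (nat_lit 414) (nat_lit 2) (.n (nat_lit 415) (nat_lit 1) (.n (nat_lit 416) (nat_lit 2) (.p (nat_lit 418) (nat_lit 3) (.n (nat_lit 420) (nat_lit 1) (.p (nat_lit 429) (nat_lit 1) (.p (nat_lit 431) (nat_lit 3) (.n (nat_lit 432) (nat_lit 3) .z))))))))))))))))))))))))) (.ct dC2b_c293 (nat_lit 1) (nat_lit 4) (.s true (nat_lit 1) (nat_lit 20) (nat_lit 18) (nat_lit 0) (nat_lit 1) true (nat_lit 0) true (nat_lit 15) true (nat_lit 3) true (nat_lit 4) true (nat_lit 16) dC2b_i115)) .leaf) (nat_lit 85011) (nat_lit 1351) (.p (nat_lit 397) (nat_lit 1) (.p (nat_lit 398) (nat_lit 2) (.p (nat_lit 399) (nat_lit 2) (.p (nat_lit 400) (nat_lit 1) (.p (nat_lit 401) (nat_lit 3) (.n (nat_lit 402) (nat_lit 2) (.n (nat_lit 403) (nat_lit 2) (.p (nat_lit 404) (nat_lit 3) (.n (nat_lit 405) (nat_lit 2) (.p (nat_lit 407) (nat_lit 3) (.p (nat_lit 408) (nat_lit 3) (.n (nat_lit 409) (nat_lit 3) (.n (nat_lit 410) (nat_lit 3) (.p (nat_lit 412) (nat_lit 3) (.p (nat_lit 413) (nat_lit 3) (.p (nat_lit 415) (nat_lit 2) (.p (nat_lit 416) (nat_lit 1) (.p (nat_lit 418) (nat_lit 3) (.n (nat_lit 420) (nat_lit 1) (.n (nat_lit 421) (nat_lit 2) (.n (nat_lit 429) (nat_lit 2) (.n (nat_lit 431) (nat_lit 2) (.p (nat_lit 432) (nat_lit 3) (.p (nat_lit 435) (nat_lit 1) .z)))))))))))))))))))))))) (.ct dC2b_c293 (nat_lit 1) (nat_lit 4) (.s false (nat_lit 1) (nat_lit 36) (nat_lit 7) (nat_lit 2) (nat_lit 1) true (nat_lit 4) true (nat_lit 15) true (nat_lit 1) true (nat_lit 9) true (nat_lit 14) (.e true (nat_lit 1) (nat_lit 305) (nat_lit 1) (nat_lit 15) (.e true (nat_lit 1) (nat_lit 307) (nat_lit 1) (nat_lit 15) (.e false (nat_lit 3) (nat_lit 308) (nat_lit 1) (nat_lit 15) (.e false (nat_lit 1) (nat_lit 309) (nat_lit 1) (nat_lit 15) (.e true (nat_lit 2) (nat_lit 310) (nat_lit 1) (nat_lit 15) (.e true (nat_lit 2) (nat_lit 311) (nat_lit 1) (nat_lit 15) (.e true (nat_lit 2) (nat_lit 312) (nat_lit 1) (nat_lit 15) dC2b_i117))))))))) .leaf) (nat_lit 86017) (nat_lit 268) (.n (nat_lit 132) (nat_lit 3) (.n (nat_lit 133) (nat_lit 3) (.n (nat_lit 134) (nat_lit 2) (.p (nat_lit 135) (nat_lit 2) (.n (nat_lit 136) (nat_lit 1) (.p (nat_lit 138) (nat_lit 3) (.p (nat_lit 139) (nat_lit 1) (.n (nat_lit 140) (nat_lit 1) (.n (nat_lit 141) (nat_lit 1) (.p (nat_lit 143) (nat_lit 2) (.p (nat_lit 144) (nat_lit 1) (.n (nat_lit 145) (nat_lit 2) (.n (nat_lit 147) (nat_lit 3) (.p (nat_lit 148) (nat_lit 2) (.p (nat_lit 149) (nat_lit 3) (.n (nat_lit 150) (nat_lit 2) (.n (nat_lit 151) (nat_lit 3) (.n (nat_lit 152) (nat_lit 1) (.n (nat_lit 153) (nat_lit 3) (.p (nat_lit 154) (nat_lit 3) (.p (nat_lit 155) (nat_lit 3) (.p (nat_lit 156) (nat_lit 3) (.p (nat_lit 157) (nat_lit 3) .z))))))))))))))))))))))) (.ct dC2b_c291 (nat_lit 1) (nat_lit 9) (.s false (nat_lit 1) (nat_lit 6) (nat_lit 1) (nat_lit 2) (nat_lit 5) true (nat_lit 1) true (nat_lit 5) true (nat_lit 4) true (nat_lit 9) true (nat_lit 8) (.s false (nat_lit 1) (nat_lit 6) (nat_lit 2) (nat_lit 0) (nat_lit 6) false (nat_lit 1) true (nat_lit 4) true (nat_lit 4) true (nat_lit 8) true (nat_lit 10) (.s true (nat_lit 1) (nat_lit 6) (nat_lit 5) (nat_lit 1) (nat_lit 2) false (nat_lit 0) true (nat_lit 8) true (nat_lit 4) true (nat_lit 5) true (nat_lit 9) (.s true (nat_lit 1) (nat_lit 18) (nat_lit 1) (nat_lit 2) (nat_lit 0) true (nat_lit 7) true (nat_lit 10) false (nat_lit 1) true (nat_lit 9) true (nat_lit 8) (.s false (nat_lit 1) (nat_lit 18) (nat_lit 2) (nat_lit 0) (nat_lit 1) true (nat_lit 4) true (nat_lit 9) false (nat_lit 1) true (nat_lit 8) true (nat_lit 10) (.e false (nat_lit 1) (nat_lit 40) (nat_lit 5) (nat_lit 5) (.e true (nat_lit 1) (nat_lit 34) (nat_lit 6) (nat_lit 4) (.e false (nat_lit 1) (nat_lit 80) (nat_lit 1) (nat_lit 9) (.e true (nat_lit 1) (nat_lit 81) (nat_lit 1) (nat_lit 9) (.e true (nat_lit 2) (nat_lit 85) (nat_lit 1) (nat_lit 9) (.e false (nat_lit 1) (nat_lit 90) (nat_lit 1) (nat_lit 9) (.e true (nat_lit 2) (nat_lit 66) (nat_lit 2) (nat_lit 8) (.e true (nat_lit 1) (nat_lit 61) (nat_lit 2) (nat_lit 8) (.e false (nat_lit 1) (nat_lit 62) (nat_lit 2) (nat_lit 8) (.e false (nat_lit 1) (nat_lit 63) (nat_lit 2) (nat_lit 8) (.e true (nat_lit 2) (nat_lit 64) (nat_lit 2) (nat_lit 8) (.e false (nat_lit 1) (nat_lit 68) (nat_lit 2) (nat_lit 8) (.e false (nat_lit 3) (nat_lit 71) (nat_lit 2) (nat_lit 8) (.e false (nat_lit 2) (nat_lit 72) (nat_lit 2) (nat_lit 8) (.e false (nat_lit 2) (nat_lit 69) (nat_lit 2) (nat_lit 8) (.e false (nat_lit 1) (nat_lit 16) (nat_lit 15) (nat_lit 0) (.e true (nat_lit 1) (nat_lit 45) (nat_lit 3) (nat_lit 7) (.u (nat_lit 2) (.p (nat_lit 0) (nat_lit 1) (.p (nat_lit 4) (nat_lit 1) (.n (nat_lit 6) (nat_lit 1) (.p (nat_lit 9) (nat_lit 1) (.p (nat_lit 15) (nat_lit 1) (.n (nat_lit 17) (nat_lit 1) (.p (nat_lit 18) (nat_lit 1) (.p (nat_lit 19) (nat_lit 1) (.p (nat_lit 20) (nat_lit 1) (.p (nat_lit 21) (nat_lit 1) (.n (nat_lit 24) (nat_lit 1) (.n (nat_lit 25) (nat_lit 1) .z)))))))))))) .nil)))))))))))))))))))))))) (.nd (.nd .leaf (nat_lit 86018) (nat_lit 320) (.p (nat_lit 173) (nat_lit 1) .z) .df .leaf) (nat_lit 86020) (nat_lit 523) (.p (nat_lit 205) (nat_lit 3) (.p (nat_lit 206) (nat_lit 2) (.n (nat_lit 207) (nat_lit 2) (.n (nat_lit 209) (nat_lit 2) (.n (nat_lit 210) (nat_lit 2) (.n (nat_lit 211) (nat_lit 3) (.n (nat_lit 212) (nat_lit 1) (.n (nat_lit 213) (nat_lit 1) (.p (nat_lit 214) (nat_lit 3) (.p (nat_lit 215) (nat_lit 2) (.n (nat_lit 216) (nat_lit 2) (.p (nat_lit 217) (nat_lit 1) (.p (nat_lit 219) (nat_lit 1) (.p (nat_lit 220) (nat_lit 3) (.p (nat_lit 221) (nat_lit 3) (.p (nat_lit 222) (nat_lit 3) (.n (nat_lit 225) (nat_lit 2) (.n (nat_lit 226) (nat_lit 3) (.p (nat_lit 227) (nat_lit 2) (.p (nat_lit 228) (nat_lit 3) (.p (nat_lit 231) (nat_lit 2) (.p (nat_lit 232) (nat_lit 1) (.p (nat_lit 234) (nat_lit 1) (.n (nat_lit 240) (nat_lit 3) (.n (nat_lit 243) (nat_lit 1) (.p (nat_lit 244) (nat_lit 3) (.n (nat_lit 245) (nat_lit 3) (.p (nat_lit 246) (nat_lit 1) (.n (nat_lit 247) (nat_lit 2) (.p (nat_lit 248) (nat_lit 2) (.n (nat_lit 249) (nat_lit 2) (.p (nat_lit 250) (nat_lit 1) (.n (nat_lit 251) (nat_lit 3) .z))))))))))))))))))))))))))))))))) (.ct dC2b_c307 (nat_lit 1) (nat_lit 10) (.s true (nat_lit 1) (nat_lit 37) (nat_lit 1) (nat_lit 2) (nat_lit 1) true (nat_lit 10) true (nat_lit 13) false (nat_lit 3) true (nat_lit 13) true (nat_lit 12) (.e true (nat_lit 1) (nat_lit 133) (nat_lit 1) (nat_lit 13) (.e true (nat_lit 1) (nat_lit 134) (nat_lit 1) (nat_lit 13) (.e true (nat_lit 2) (nat_lit 136) (nat_lit 1) (nat_lit 13) (.e false (nat_lit 2) (nat_lit 138) (nat_lit 1) (nat_lit 13) (.e true (nat_lit 2) (nat_lit 139) (nat_lit 1) (nat_lit 13) (.e false (nat_lit 2) (nat_lit 140) (nat_lit 1) (nat_lit 13) (.e false (nat_lit 3) (nat_lit 143) (nat_lit 1) (nat_lit 13) (.e false (nat_lit 1) (nat_lit 144) (nat_lit 1) (nat_lit 13) (.e false (nat_lit 1) (nat_lit 37) (nat_lit 15) (nat_lit 3) (.e false (nat_lit 3) (nat_lit 132) (nat_lit 1) (nat_lit 13) (.e false (nat_lit 2) (nat_lit 137) (nat_lit 1) (nat_lit 13) (.e true (nat_lit 1) (nat_lit 141) (nat_lit 1) (nat_lit 13) (.e true (nat_lit 1) (nat_lit 142) (nat_lit 1) (nat_lit 13) (.e false (nat_lit 3) (nat_lit 147) (nat_lit 1) (nat_lit 13) (.e false (nat_lit 2) (nat_lit 148) (nat_lit 1) (nat_lit 13) (.e true (nat_lit 2) (nat_lit 149) (nat_lit 1) (nat_lit 13) dC2b_i118)))))))))))))))))) .leaf)) (nat_lit 86022) (nat_lit 635) (.n (nat_lit 254) (nat_lit 2) (.n (nat_lit 255) (nat_lit 3) (.p (nat_lit 256) (nat_lit 2) (.p (nat_lit 257) (nat_lit 2) (.n (nat_lit 258) (nat_lit 1) (.p (nat_lit 259) (nat_lit 2) (.n (nat_lit 260) (nat_lit 2) (.n (nat_lit 262) (nat_lit 2) (.p (nat_lit 264) (nat_lit 1) (.n (nat_lit 265) (nat_lit 1) (.p (nat_lit 266) (nat_lit 1) (.p (nat_lit 268) (nat_lit 2) (.p (nat_lit 269) (nat_lit 1) (.p (nat_lit 270) (nat_lit 3) (.p (nat_lit 271) (nat_lit 3) (.p (nat_lit 273) (nat_lit 3) (.n (nat_lit 274) (nat_lit 1) (.n (nat_lit 275) (nat_lit 2) (.n (nat_lit 276) (nat_lit 3) (.n (nat_lit 277) (nat_lit 2) (.n (nat_lit 279) (nat_lit 1) (.p (nat_lit 280) (nat_lit 2) (.p (nat_lit 283) (nat_lit 1) (.p (nat_lit 284) (nat_lit 1) (.n (nat_lit 286) (nat_lit 2) (.p (nat_lit 288) (nat_lit 1) .z)))))))))))))))))))))))))) (.ct dC2b_c292 (nat_lit 1) (nat_lit 7) (.s false (nat_lit 1) (nat_lit 13) (nat_lit 1) (nat_lit 2) (nat_lit 7) true (nat_lit 1) true (nat_lit 6) true (nat_lit 4) true (nat_lit 12) true (nat_lit 11) (.s true (nat_lit 1) (nat_lit 13) (nat_lit 2) (nat_lit 1) (nat_lit 7) true (nat_lit 0) true (nat_lit 6) true (nat_lit 4) true (nat_lit 11) true (nat_lit 12) (.s true (nat_lit 1) (nat_lit 37) (nat_lit 1) (nat_lit 2) (nat_lit 2) true (nat_lit 7) true (nat_lit 11) false (nat_lit 1) true (nat_lit 12) true (nat_lit 11) (.s false (nat_lit 1) (nat_lit 37) (nat_lit 2) (nat_lit 1) (nat_lit 2) true (nat_lit 6) true (nat_lit 11) false (nat_lit 1) true (nat_lit 11) true (nat_lit 12) (.e true (nat_lit 1) (nat_lit 35) (nat_lit 19) (nat_lit 1) (.e false (nat_lit 1) (nat_lit 179) (nat_lit 1) (nat_lit 12) (.e false (nat_lit 2) (nat_lit 132) (nat_lit 2) (nat_lit 11) (.e true (nat_lit 1) (nat_lit 135) (nat_lit 2) (nat_lit 11) (.e true (nat_lit 1) (nat_lit 136) (nat_lit 2) (nat_lit 11) (.e false (nat_lit 3) (nat_lit 137) (nat_lit 2) (nat_lit 11) (.e true (nat_lit 2) (nat_lit 138) (nat_lit 2) (nat_lit 11) (.e true (nat_lit 1) (nat_lit 139) (nat_lit 2) (nat_lit 11) (.e false (nat_lit 1) (nat_lit 140) (nat_lit 2) (nat_lit 11) (.e true (nat_lit 3) (nat_lit 141) (nat_lit 2) (nat_lit 11) (.e false (nat_lit 3) (nat_lit 143) (nat_lit 2) (nat_lit 11) (.e true (nat_lit 1) (nat_lit 144) (nat_lit 2) (nat_lit 11) (.e false (nat_lit 3) (nat_lit 145) (nat_lit 2) (nat_lit 11) (.e true (nat_lit 3) (nat_lit 147) (nat_lit 2) (nat_lit 11) (.e false (nat_lit 3) (nat_lit 149) (nat_lit 2) (nat_lit 11) (.e true (nat_lit 2) (nat_lit 150) (nat_lit 2) (nat_lit 11) (.e true (nat_lit 3) (nat_lit 151) (nat_lit 2) (nat_lit 11) (.e true (nat_lit 1) (nat_lit 152) (nat_lit 2) (nat_lit 11) dC2b_i119))))))))))))))))))))))) (.nd (.nd (.nd .leaf (nat_lit 86023) (nat_lit 787) (.p (nat_lit 305) (nat_lit 1) (.n (nat_lit 306) (nat_lit 3) (.n (nat_lit 307) (nat_lit 1) (.p (nat_lit 308) (nat_lit 1) (.n (nat_lit 309) (nat_lit 2) (.n (nat_lit 310) (nat_lit 1) (.p (nat_lit 311) (nat_lit 1) (.p (nat_lit 312) (nat_lit 1) (.p (nat_lit 313) (nat_lit 1) (.n (nat_lit 314) (nat_lit 3) (.n (nat_lit 315) (nat_lit 2) (.p (nat_lit 317) (nat_lit 2) (.n (nat_lit 321) (nat_lit 1) (.p (nat_lit 323) (nat_lit 1) .z)))))))))))))) (.ct dC2b_c277 (nat_lit 1) (nat_lit 4) (.s true (nat_lit 1) (nat_lit 37) (nat_lit 2) (nat_lit 2) (nat_lit 2) true (nat_lit 4) true (nat_lit 8) false (nat_lit 0) true (nat_lit 8) true (nat_lit 8) (.e true (nat_lit 3) (nat_lit 173) (nat_lit 2) (nat_lit 8) (.e false (nat_lit 1) (nat_lit 37) (nat_lit 20) (nat_lit 0) (.e false (nat_lit 3) (nat_lit 169) (nat_lit 2) (nat_lit 8) (.e true (nat_lit 3) (nat_lit 170) (nat_lit 2) (nat_lit 8) (.e true (nat_lit 3) (nat_lit 174) (nat_lit 2) (nat_lit 8) (.e true (nat_lit 1) (nat_lit 177) (nat_lit 2) (nat_lit 8) (.e true (nat_lit 1) (nat_lit 178) (nat_lit 2) (nat_lit 8) (.e true (nat_lit 1) (nat_lit 179) (nat_lit 2) (nat_lit 8) (.e false (nat_lit 1) (nat_lit 181) (nat_lit 2) (nat_lit 8) (.e true (nat_lit 1) (nat_lit 182) (nat_lit 2) (nat_lit 8) (.e false (nat_lit 1) (nat_lit 183) (nat_lit 2) (nat_lit 8) .nil))))))))))))) .leaf) (nat_lit 86034) (nat_lit 1347) (.n (nat_lit 397) (nat_lit 1) (.n (nat_lit 398) (nat_lit 1) (.p (nat_lit 401) (nat_lit 2) (.n (nat_lit 402) (nat_lit 2) (.n (nat_lit 403) (nat_lit 2) (.n (nat_lit 404) (nat_lit 2) (.n (nat_lit 405) (nat_lit 3) (.p (nat_lit 408) (nat_lit 1) (.p (nat_lit 409) (nat_lit 3) (.n (nat_lit 410) (nat_lit 3) (.p (nat_lit 411) (nat_lit 3) (.p (nat_lit 412) (nat_lit 3) (.p (nat_lit 413) (nat_lit 3) (.p (nat_lit 414) (nat_lit 1) (.n (nat_lit 415) (nat_lit 1) (.p (nat_lit 416) (nat_lit 1) (.n (nat_lit 418) (nat_lit 2) (.n (nat_lit 420) (nat_lit 1) (.p (nat_lit 421) (nat_lit 2) (.p (nat_lit 429) (nat_lit 2) (.p (nat_lit 435) (nat_lit 1) .z))))))))))))))))))))) (.ct dC2b_c293 (nat_lit 1) (nat_lit 4) (.s false (nat_lit 1) (nat_lit 84) (nat_lit 2) (nat_lit 1) (nat_lit 2) true (nat_lit 9) true (nat_lit 14) false (nat_lit 4) true (nat_lit 14) true (nat_lit 15) (.e true (nat_lit 3) (nat_lit 132) (nat_lit 7) (nat_lit 9) (.e true (nat_lit 3) (nat_lit 133) (nat_lit 7) (nat_lit 9) (.e true (nat_lit 2) (nat_lit 134) (nat_lit 7) (nat_lit 9) (.e false (nat_lit 2) (nat_lit 135) (nat_lit 7) (nat_lit 9) (.e true (nat_lit 1) (nat_lit 136) (nat_lit 7) (nat_lit 9) (.e false (nat_lit 3) (nat_lit 138) (nat_lit 7) (nat_lit 9) (.e false (nat_lit 1) (nat_lit 139) (nat_lit 7) (nat_lit 9) (.e true (nat_lit 1) (nat_lit 140) (nat_lit 7) (nat_lit 9) (.e true (nat_lit 1) (nat_lit 141) (nat_lit 7) (nat_lit 9) (.e false (nat_lit 2) (nat_lit 143) (nat_lit 7) (nat_lit 9) (.e false (nat_lit 1) (nat_lit 144) (nat_lit 7) (nat_lit 9) (.e true (nat_lit 2) (nat_lit 145) (nat_lit 7) (nat_lit 9) (.e true (nat_lit 3) (nat_lit 147) (nat_lit 7) (nat_lit 9) (.e false (nat_lit 2) (nat_lit 148) (nat_lit 7) (nat_lit 9) (.e false (nat_lit 3) (nat_lit 149) (nat_lit 7) (nat_lit 9) (.e true (nat_lit 2) (nat_lit 150) (nat_lit 7) (nat_lit 9) (.e true (nat_lit 3) (nat_lit 151) (nat_lit 7) (nat_lit 9) (.e true (nat_lit 1) (nat_lit 152) (nat_lit 7) (nat_lit 9) (.e true (nat_lit 3) (nat_lit 153) (nat_lit 7) (nat_lit 9) (.e false (nat_lit 3) (nat_lit 154) (nat_lit 7) (nat_lit 9) (.e false (nat_lit 3) (nat_lit 155) (nat_lit 7) (nat_lit 9) (.e false (nat_lit 3) (nat_lit 156) (nat_lit 7) (nat_lit 9) dC2b_i120)))))))))))))))))))))))) .leaf) (nat_lit 86035) (nat_lit 1353) (.n (nat_lit 397) (nat_lit 1) (.p (nat_lit 398) (nat_lit 3) (.n (nat_lit 399) (nat_lit 1) (.n (nat_lit 400) (nat_lit 2) (.n (nat_lit 401) (nat_lit 3) (.p (nat_lit 402) (nat_lit 2) (.p (nat_lit 404) (nat_lit 1) (.p (nat_lit 405) (nat_lit 3) (.n (nat_lit 407) (nat_lit 3) (.n (nat_lit 408) (nat_lit 1) (.n (nat_lit 409) (nat_lit 2) (.p (nat_lit 410) (nat_lit 2) (.n (nat_lit 411) (nat_lit 1) (.n (nat_lit 412) (nat_lit 1) (.n (nat_lit 413) (nat_lit 1) (.n (nat_lit 414) (nat_lit 1) (.p (nat_lit 416) (nat_lit 3) (.p (nat_lit 418) (nat_lit 3) (.p (nat_lit 420) (nat_lit 3) (.n (nat_lit 421) (nat_lit 1) (.p (nat_lit 429) (nat_lit 3) (.n (nat_lit 431) (nat_lit 3) (.n (nat_lit 432) (nat_lit 3) (.n (nat_lit 435) (nat_lit 1) .z)))))))))))))))))))))))) (.ct dC2b_c293 (nat_lit 1) (nat_lit 4) (.s false (nat_lit 1) (nat_lit 47) (nat_lit 7) (nat_lit 0) (nat_lit 1) true (nat_lit 4) true (nat_lit 15) false (nat_lit 1) true (nat_lit 9) true (nat_lit 16) (.e true (nat_lit 2) (nat_lit 82) (nat_lit 19) (nat_lit 4) (.e true (nat_lit 2) (nat_lit 85) (nat_lit 19) (nat_lit 4) (.e false (nat_lit 1) (nat_lit 88) (nat_lit 19) (nat_lit 4) (.e false (nat_lit 1) (nat_lit 90) (nat_lit 19) (nat_lit 4) (.e true (nat_lit 3) (nat_lit 305) (nat_lit 1) (nat_lit 15) (.e true (nat_lit 1) (nat_lit 306) (nat_lit 1) (nat_lit 15) (.e true (nat_lit 3) (nat_lit 307) (nat_lit 1) (nat_lit 15) (.e false (nat_lit 3) (nat_lit 308) (nat_lit 1) (nat_lit 15) (.e false (nat_lit 3) (nat_lit 309) (nat_lit 1) (nat_lit 15) dC2b_i121))))))))))) (.nd .leaf (nat_lit 87041) (nat_lit 266) (.n (nat_lit 132) (nat_lit 2) (.p (nat_lit 133) (nat_lit 2) (.p (nat_lit 134) (nat_lit 1) (.n (nat_lit 135) (nat_lit 2) (.n (nat_lit 136) (nat_lit 3) (.p (nat_lit 138) (nat_lit 2) (.n (nat_lit 139) (nat_lit 3) (.p (nat_lit 140) (nat_lit 3) (.n (nat_lit 141) (nat_lit 3) (.n (nat_lit 143) (nat_lit 1) (.n (nat_lit 144) (nat_lit 1) (.p (nat_lit 145) (nat_lit 2) (.p (nat_lit 146) (nat_lit 1) (.n (nat_lit 147) (nat_lit 3) (.n (nat_lit 148) (nat_lit 1) (.p (nat_lit 149) (nat_lit 2) (.n (nat_lit 150) (nat_lit 2) (.n (nat_lit 151) (nat_lit 2) (.n (nat_lit 152) (nat_lit 3) (.n (nat_lit 153) (nat_lit 2) (.n (nat_lit 154) (nat_lit 2) (.n (nat_lit 155) (nat_lit 1) (.p (nat_lit 156) (nat_lit 2) (.p (nat_lit 157) (nat_lit 2) .z)))))))))))))))))))))))) (.ct dC2b_c291 (nat_lit 1) (nat_lit 9) (.s false (nat_lit 1) (nat_lit 5) (nat_lit 2) (nat_lit 2) (nat_lit 4) true (nat_lit 0) true (nat_lit 6) true (nat_lit 5) true (nat_lit 8) true (nat_lit 8) (.s true (nat_lit 1) (nat_lit 5) (nat_lit 2) (nat_lit 4) (nat_lit 2) true (nat_lit 3) true (nat_lit 8) true (nat_lit 5) true (nat_lit 8) true (nat_lit 6) (.s false (nat_lit 1) (nat_lit 6) (nat_lit 1) (nat_lit 2) (nat_lit 5) true (nat_lit 1) true (nat_lit 5) true (nat_lit 4) true (nat_lit 9) true (nat_lit 8) (.s true (nat_lit 1) (nat_lit 6) (nat_lit 1) (nat_lit 5) (nat_lit 2) true (nat_lit 4) true (nat_lit 8) true (nat_lit 4) true (nat_lit 9) true (nat_lit 5) (.s true (nat_lit 1) (nat_lit 6) (nat_lit 5) (nat_lit 1) (nat_lit 2) false (nat_lit 0) true (nat_lit 8) true (nat_lit 4) true (nat_lit 5) true (nat_lit 9) (.s true (nat_lit 3) (nat_lit 7) (nat_lit 0) (nat_lit 2) (nat_lit 4) true (nat_lit 2) true (nat_lit 6) true (nat_lit 3) true (nat_lit 10) true (nat_lit 8) (.s true (nat_lit 1) (nat_lit 7) (nat_lit 2) (nat_lit 1) (nat_lit 3) true (nat_lit 1) true (nat_lit 7) true (nat_lit 3) true (nat_lit 8) true (nat_lit 9) (.s true (nat_lit 3) (nat_lit 7) (nat_lit 2) (nat_lit 4) (nat_lit 0) true (nat_lit 5) true (nat_lit 10) true (nat_lit 3) true (nat_lit 8) true (nat_lit 6) (.s true (nat_lit 1) (nat_lit 13) (nat_lit 2) (nat_lit 1) (nat_lit 2) true (nat_lit 3) true (nat_lit 8) true (nat_lit 1) true (nat_lit 8) true (nat_lit 9) (.s true (nat_lit 1) (nat_lit 14) (nat_lit 0) (nat_lit 2) (nat_lit 2) true (nat_lit 5) true (nat_lit 8) true (nat_lit 0) true (nat_lit 10) true (nat_lit 8) (.s true (nat_lit 1) (nat_lit 18) (nat_lit 1) (nat_lit 2) (nat_lit 0) true (nat_lit 7) true (nat_lit 10) false (nat_lit 1) true (nat_lit 9) true (nat_lit 8) (.e false (nat_lit 2) (nat_lit 40) (nat_lit 5) (nat_lit 5) (.e false (nat_lit 1) (nat_lit 60) (nat_lit 2) (nat_lit 8) (.e false (nat_lit 1) (nat_lit 61) (nat_lit 2) (nat_lit 8) dC2b_i122))))))))))))))) .leaf))) (nat_lit 87042) (nat_lit 321) (.p (nat_lit 174) (nat_lit 1) .z) .df (.nd (.nd (.nd (.nd .leaf (nat_lit 87044) (nat_lit 515) (.n (nat_lit 205) (nat_lit 1) (.p (nat_lit 206) (nat_lit 3) (.p (nat_lit 207) (nat_lit 2) (.n (nat_lit 209) (nat_lit 3) (.n (nat_lit 210) (nat_lit 1) (.p (nat_lit 212) (nat_lit 3) (.p (nat_lit 213) (nat_lit 1) (.n (nat_lit 214) (nat_lit 2) (.p (nat_lit 215) (nat_lit 2) (.p (nat_lit 216) (nat_lit 3) (.n (nat_lit 218) (nat_lit 1) (.p (nat_lit 220) (nat_lit 1) (.n (nat_lit 221) (nat_lit 1) (.p (nat_lit 225) (nat_lit 1) (.n (nat_lit 227) (nat_lit 1) (.p (nat_lit 228) (nat_lit 3) (.p (nat_lit 229) (nat_lit 3) (.n (nat_lit 230) (nat_lit 3) (.p (nat_lit 231) (nat_lit 3) (.n (nat_lit 234) (nat_lit 3) (.p (nat_lit 238) (nat_lit 2) (.n (nat_lit 240) (nat_lit 2) (.p (nat_lit 242) (nat_lit 1) (.n (nat_lit 243) (nat_lit 3) (.n (nat_lit 244) (nat_lit 2) (.n (nat_lit 245) (nat_lit 2) (.n (nat_lit 246) (nat_lit 1) (.p (nat_lit 248) (nat_lit 3) (.n (nat_lit 250) (nat_lit 1) (.n (nat_lit 251) (nat_lit 2) .z)))))))))))))))))))))))))))))) (.ct dC2b_c307 (nat_lit 1) (nat_lit 10) (.s true (nat_lit 1) (nat_lit 38) (nat_lit 1) (nat_lit 2) (nat_lit 1) true (nat_lit 10) true (nat_lit 13) false (nat_lit 3) true (nat_lit 13) true (nat_lit 12) dC2b_i123)) .leaf) (nat_lit 87046) (nat_lit 637) (.n (nat_lit 252) (nat_lit 2) (.n (nat_lit 253) (nat_lit 2) (.p (nat_lit 254) (nat_lit 2) (.n (nat_lit 255) (nat_lit 1) (.p (nat_lit 256) (nat_lit 2) (.p (nat_lit 257) (nat_lit 1) (.p (nat_lit 258) (nat_lit 1) (.p (nat_lit 259) (nat_lit 1) (.n (nat_lit 260) (nat_lit 1) (.p (nat_lit 261) (nat_lit 2) (.p (nat_lit 263) (nat_lit 3) (.n (nat_lit 264) (nat_lit 3) (.p (nat_lit 265) (nat_lit 1) (.n (nat_lit 266) (nat_lit 3) (.p (nat_lit 267) (nat_lit 3) (.n (nat_lit 268) (nat_lit 1) (.p (nat_lit 269) (nat_lit 3) (.n (nat_lit 270) (nat_lit 1) (.n (nat_lit 271) (nat_lit 1) (.p (nat_lit 272) (nat_lit 1) (.n (nat_lit 274) (nat_lit 3) (.n (nat_lit 275) (nat_lit 2) (.p (nat_lit 276) (nat_lit 1) (.n (nat_lit 277) (nat_lit 2) (.p (nat_lit 279) (nat_lit 1) (.n (nat_lit 280) (nat_lit 1) (.n (nat_lit 284) (nat_lit 1) (.n (nat_lit 285) (nat_lit 1) (.p (nat_lit 286) (nat_lit 1) (.p (nat_lit 287) (nat_lit 1) (.n (nat_lit 288) (nat_lit 1) .z))))))))))))))))))))))))))))))) (.ct dC2b_c292 (nat_lit 1) (nat_lit 7) dC2b_i125) .leaf) (nat_lit 87047) (nat_lit 779) (.p (nat_lit 305) (nat_lit 2) (.p (nat_lit 306) (nat_lit 2) (.p (nat_lit 307) (nat_lit 3) (.p (nat_lit 308) (nat_lit 3) (.n (nat_lit 309) (nat_lit 2) (.p (nat_lit 310) (nat_lit 1) (.n (nat_lit 313) (nat_lit 1) (.p (nat_lit 314) (nat_lit 2) (.n (nat_lit 315) (nat_lit 1) (.p (nat_lit 318) (nat_lit 1) (.n (nat_lit 323) (nat_lit 1) .z))))))))))) (.ct dC2b_c277 (nat_lit 1) (nat_lit 4) (.s false (nat_lit 3) (nat_lit 7) (nat_lit 1) (nat_lit 7) (nat_lit 5) true (nat_lit 3) true (nat_lit 6) true (nat_lit 4) true (nat_lit 9) true (nat_lit 4) (.s true (nat_lit 1) (nat_lit 7) (nat_lit 5) (nat_lit 2) (nat_lit 6) false (nat_lit 0) true (nat_lit 5) true (nat_lit 4) true (nat_lit 6) true (nat_lit 8) (.s false (nat_lit 1) (nat_lit 7) (nat_lit 6) (nat_lit 2) (nat_lit 5) false (nat_lit 0) true (nat_lit 6) true (nat_lit 4) true (nat_lit 5) true (nat_lit 8) (.s true (nat_lit 3) (nat_lit 17) (nat_lit 2) (nat_lit 7) (nat_lit 1) true (nat_lit 5) true (nat_lit 9) true (nat_lit 2) true (nat_lit 8) true (nat_lit 4) (.s false (nat_lit 1) (nat_lit 16) (nat_lit 6) (nat_lit 2) (nat_lit 2) true (nat_lit 1) true (nat_lit 8) true (nat_lit 2) true (nat_lit 5) true (nat_lit 8) (.s true (nat_lit 1) (nat_lit 18) (nat_lit 5) (nat_lit 2) (nat_lit 2) true (nat_lit 2) true (nat_lit 8) true (nat_lit 1) true (nat_lit 6) true (nat_lit 8) (.s false (nat_lit 3) (nat_lit 20) (nat_lit 7) (nat_lit 1) (nat_lit 0) true (nat_lit 2) true (nat_lit 10) true (nat_lit 0) true (nat_lit 4) true (nat_lit 9) dC2b_i126)))))))) (.nd (.nd .leaf (nat_lit 87055) (nat_lit 1158) (.p (nat_lit 335) (nat_lit 1) (.p (nat_lit 336) (nat_lit 3) (.n (nat_lit 337) (nat_lit 2) (.p (nat_lit 338) (nat_lit 3) (.n (nat_lit 339) (nat_lit 2) (.p (nat_lit 340) (nat_lit 2) (.p (nat_lit 341) (nat_lit 3) (.n (nat_lit 342) (nat_lit 3) (.p (nat_lit 343) (nat_lit 1) (.p (nat_lit 344) (nat_lit 1) (.n (nat_lit 345) (nat_lit 3) (.n (nat_lit 346) (nat_lit 1) (.p (nat_lit 348) (nat_lit 1) (.p (nat_lit 350) (nat_lit 1) (.p (nat_lit 351) (nat_lit 3) (.n (nat_lit 352) (nat_lit 2) (.n (nat_lit 353) (nat_lit 1) (.n (nat_lit 354) (nat_lit 2) (.n (nat_lit 355) (nat_lit 1) (.p (nat_lit 356) (nat_lit 1) (.p (nat_lit 358) (nat_lit 2) (.n (nat_lit 359) (nat_lit 2) (.p (nat_lit 360) (nat_lit 2) (.n (nat_lit 361) (nat_lit 2) (.n (nat_lit 362) (nat_lit 2) (.p (nat_lit 363) (nat_lit 1) (.n (nat_lit 364) (nat_lit 2) (.p (nat_lit 365) (nat_lit 1) (.p (nat_lit 366) (nat_lit 1) (.p (nat_lit 368) (nat_lit 3) (.n (nat_lit 370) (nat_lit 3) (.p (nat_lit 371) (nat_lit 2) (.p (nat_lit 372) (nat_lit 3) (.p (nat_lit 373) (nat_lit 2) (.p (nat_lit 374) (nat_lit 3) (.p (nat_lit 375) (nat_lit 2) (.p (nat_lit 376) (nat_lit 3) (.n (nat_lit 377) (nat_lit 1) (.p (nat_lit 378) (nat_lit 2) (.n (nat_lit 379) (nat_lit 3) (.n (nat_lit 380) (nat_lit 1) (.p (nat_lit 381) (nat_lit 2) (.p (nat_lit 382) (nat_lit 1) (.p (nat_lit 383) (nat_lit 2) (.n (nat_lit 384) (nat_lit 2) (.n (nat_lit 386) (nat_lit 1) (.p (nat_lit 387) (nat_lit 1) (.p (nat_lit 388) (nat_lit 1) (.n (nat_lit 390) (nat_lit 3) (.p (nat_lit 391) (nat_lit 2) (.n (nat_lit 392) (nat_lit 2) (.n (nat_lit 393) (nat_lit 2) (.p (nat_lit 395) (nat_lit 1) (.p (nat_lit 396) (nat_lit 2) .z)))))))))))))))))))))))))))))))))))))))))))))))))))))) (.ct dC2b_c308 (nat_lit 1) (nat_lit 7) (.s false (nat_lit 1) (nat_lit 18) (nat_lit 2) (nat_lit 15) (nat_lit 0) true (nat_lit 13) true (nat_lit 18) true (nat_lit 5) true (nat_lit 16) true (nat_lit 7) (.e false (nat_lit 1) (nat_lit 158) (nat_lit 5) (nat_lit 13) (.e false (nat_lit 1) (nat_lit 160) (nat_lit 5) (nat_lit 13) (.e true (nat_lit 1) (nat_lit 161) (nat_lit 5) (nat_lit 13) (.e true (nat_lit 1) (nat_lit 162) (nat_lit 5) (nat_lit 13) (.e false (nat_lit 1) (nat_lit 163) (nat_lit 5) (nat_lit 13) (.e false (nat_lit 1) (nat_lit 168) (nat_lit 5) (nat_lit 13) (.e true (nat_lit 2) (nat_lit 289) (nat_lit 0) (nat_lit 18) (.e false (nat_lit 1) (nat_lit 290) (nat_lit 0) (nat_lit 18) (.e false (nat_lit 2) (nat_lit 291) (nat_lit 0) (nat_lit 18) (.e false (nat_lit 2) (nat_lit 292) (nat_lit 0) (nat_lit 18) (.e false (nat_lit 3) (nat_lit 293) (nat_lit 0) (nat_lit 18) (.e false (nat_lit 1) (nat_lit 295) (nat_lit 0) (nat_lit 18) (.e false (nat_lit 1) (nat_lit 298) (nat_lit 0) (nat_lit 18) (.e true (nat_lit 1) (nat_lit 299) (nat_lit 0) (nat_lit 18) (.e false (nat_lit 1) (nat_lit 301) (nat_lit 0) (nat_lit 18) (.e true (nat_lit 1) (nat_lit 303) (nat_lit 0) (nat_lit 18) (.e false (nat_lit 2) (nat_lit 304) (nat_lit 0) (nat_lit 18) (.e false (nat_lit 1) (nat_lit 71) (nat_lit 18) (nat_lit 5) (.e false (nat_lit 1) (nat_lit 205) (nat_lit 2) (nat_lit 16) (.e true (nat_lit 1) (nat_lit 206) (nat_lit 2) (nat_lit 16) (.e true (nat_lit 1) (nat_lit 207) (nat_lit 2) (nat_lit 16) (.e false (nat_lit 1) (nat_lit 208) (nat_lit 2) (nat_lit 16) dC2b_i127)))))))))))))))))))))))) .leaf) (nat_lit 87058) (nat_lit 1259) (.p (nat_lit 397) (nat_lit 1) (.n (nat_lit 398) (nat_lit 3) (.p (nat_lit 399) (nat_lit 3) (.n (nat_lit 401) (nat_lit 3) (.n (nat_lit 402) (nat_lit 3) (.p (nat_lit 403) (nat_lit 2) (.n (nat_lit 404) (nat_lit 1) (.p (nat_lit 405) (nat_lit 1) (.p (nat_lit 406) (nat_lit 3) (.n (nat_lit 408) (nat_lit 1) (.n (nat_lit 409) (nat_lit 2) (.n (nat_lit 410) (nat_lit 2) (.p (nat_lit 411) (nat_lit 3) (.n (nat_lit 412) (nat_lit 3) (.n (nat_lit 413) (nat_lit 3) (.p (nat_lit 414) (nat_lit 2) (.p (nat_lit 415) (nat_lit 2) (.n (nat_lit 416) (nat_lit 2) (.p (nat_lit 418) (nat_lit 2) (.p (nat_lit 420) (nat_lit 2) (.p (nat_lit 421) (nat_lit 2) (.p (nat_lit 427) (nat_lit 1) (.n (nat_lit 429) (nat_lit 1) (.n (nat_lit 431) (nat_lit 1) (.n (nat_lit 435) (nat_lit 1) .z))))))))))))))))))))))))) (.ct dC2b_c293 (nat_lit 1) (nat_lit 4) (.s false (nat_lit 1) (nat_lit 38) (nat_lit 1) (nat_lit 2) (nat_lit 7) true (nat_lit 4) true (nat_lit 9) true (nat_lit 1) true (nat_lit 15) true (nat_lit 14) (.s false (nat_lit 1) (nat_lit 38) (nat_lit 2) (nat_lit 2) (nat_lit 6) true (nat_lit 4) true (nat_lit 10) true (nat_lit 1) true (nat_lit 14) true (nat_lit 14) (.s true (nat_lit 1) (nat_lit 85) (nat_lit 2) (nat_lit 2) (nat_lit 1) true (nat_lit 10) true (nat_lit 15) false (nat_lit 4) true (nat_lit 14) true (nat_lit 14) (.e false (nat_lit 1) (nat_lit 141) (nat_lit 7) (nat_lit 9) (.e true (nat_lit 1) (nat_lit 305) (nat_lit 1) (nat_lit 15) (.e true (nat_lit 2) (nat_lit 306) (nat_lit 1) (nat_lit 15) (.e true (nat_lit 2) (nat_lit 307) (nat_lit 1) (nat_lit 15) (.e false (nat_lit 1) (nat_lit 308) (nat_lit 1) (nat_lit 15) (.e false (nat_lit 1) (nat_lit 309) (nat_lit 1) (nat_lit 15) (.e false (nat_lit 2) (nat_lit 311) (nat_lit 1) (nat_lit 15) (.e false (nat_lit 2) (nat_lit 312) (nat_lit 1) (nat_lit 15) (.e false (nat_lit 2) (nat_lit 313) (nat_lit 1) (nat_lit 15) (.e false (nat_lit 3) (nat_lit 314) (nat_lit 1) (nat_lit 15) (.e true (nat_lit 1) (nat_lit 315) (nat_lit 1) (nat_lit 15) (.e true (nat_lit 2) (nat_lit 318) (nat_lit 1) (nat_lit 15) (.e false (nat_lit 1) (nat_lit 323) (nat_lit 1) (nat_lit 15) (.e true (nat_lit 2) (nat_lit 252) (nat_lit 2) (nat_lit 14) dC2b_i128)))))))))))))))))) .leaf)) (nat_lit 87059) (nat_lit 1352) (.n (nat_lit 397) (nat_lit 1) (.n (nat_lit 398) (nat_lit 2) (.n (nat_lit 400) (nat_lit 1) (.n (nat_lit 401) (nat_lit 2) (.p (nat_lit 402) (nat_lit 3) (.p (nat_lit 403) (nat_lit 2) (.n (nat_lit 405) (nat_lit 3) (.n (nat_lit 406) (nat_lit 1) (.p (nat_lit 407) (nat_lit 1) (.p (nat_lit 408) (nat_lit 2) (.p (nat_lit 409) (nat_lit 2) (.p (nat_lit 410) (nat_lit 3) (.n (nat_lit 411) (nat_lit 3) (.n (nat_lit 412) (nat_lit 1) (.n (nat_lit 413) (nat_lit 1) (.n (nat_lit 414) (nat_lit 1) (.n (nat_lit 415) (nat_lit 1) (.p (nat_lit 416) (nat_lit 3) (.n (nat_lit 418) (nat_lit 3) (.n (nat_lit 420) (nat_lit 1) (.n (nat_lit 427) (nat_lit 2) (.p (nat_lit 429) (nat_lit 2) (.p (nat_lit 431) (nat_lit 3) (.p (nat_lit 432) (nat_lit 1) (.p (nat_lit 435) (nat_lit 3) .z))))))))))))))))))))))))) (.ct dC2b_c293 (nat_lit 1) (nat_lit 4) (.s true (nat_lit 1) (nat_lit 20) (nat_lit 1) (nat_lit 3) (nat_lit 7) true (nat_lit 4) true (nat_lit 9) true (nat_lit 3) true (nat_lit 15) true (nat_lit 13) (.e false (nat_lit 1) (nat_lit 81) (nat_lit 19) (nat_lit 4) (.e true (nat_lit 1) (nat_lit 82) (nat_lit 19) (nat_lit 4) (.e true (nat_lit 1) (nat_lit 83) (nat_lit 19) (nat_lit 4) (.e false (nat_lit 1) (nat_lit 88) (nat_lit 19) (nat_lit 4) (.e false (nat_lit 2) (nat_lit 134) (nat_lit 7) (nat_lit 9) (.e true (nat_lit 2) (nat_lit 138) (nat_lit 7) (nat_lit 9) (.e false (nat_lit 1) (nat_lit 144) (nat_lit 7) (nat_lit 9) (.e true (nat_lit 1) (nat_lit 149) (nat_lit 7) (nat_lit 9) (.e true (nat_lit 1) (nat_lit 157) (nat_lit 7) (nat_lit 9) (.e true (nat_lit 1) (nat_lit 72) (nat_lit 20) (nat_lit 3) (.e false (nat_lit 1) (nat_lit 317) (nat_lit 1) (nat_lit 15) (.e true (nat_lit 1) (nat_lit 318) (nat_lit 1) (nat_lit 15) (.e true (nat_lit 1) (nat_lit 306) (nat_lit 1) (nat_lit 15) (.e false (nat_lit 1) (nat_lit 307) (nat_lit 1) (nat_lit 15) (.e true (nat_lit 3) (nat_lit 313) (nat_lit 1) (nat_lit 15) (.e true (nat_lit 3) (nat_lit 314) (nat_lit 1) (nat_lit 15) (.e false (nat_lit 3) (nat_lit 315) (nat_lit 1) (nat_lit 15) (.e false (nat_lit 1) (nat_lit 308) (nat_lit 1) (nat_lit 15) (.e false (nat_lit 1) (nat_lit 310) (nat_lit 1) (nat_lit 15) (.u (nat_lit 2) (.n (nat_lit 4) (nat_lit 1) (.n (nat_lit 5) (nat_lit 2) (.p (nat_lit 6) (nat_lit 1) (.n (nat_lit 7) (nat_lit 1) (.p (nat_lit 8) (nat_lit 2) (.p (nat_lit 9) (nat_lit 1) (.n (nat_lit 10) (nat_lit 2) (.n (nat_lit 11) (nat_lit 1) (.p (nat_lit 12) (nat_lit 1) (.n (nat_lit 13) (nat_lit 2) (.p (nat_lit 14) (nat_lit 1) (.p (nat_lit 17) (nat_lit 1) (.n (nat_lit 18) (nat_lit 2) (.n (nat_lit 19) (nat_lit 2) (.p (nat_lit 21) (nat_lit 1) (.p (nat_lit 25) (nat_lit 1) (.n (nat_lit 27) (nat_lit 1) (.p (nat_lit 30) (nat_lit 1) (.n (nat_lit 34) (nat_lit 2) (.n (nat_lit 38) (nat_lit 1) (.p (nat_lit 249) (nat_lit 1) (.p (nat_lit 250) (nat_lit 1) (.n (nat_lit 251) (nat_lit 1) .z))))))))))))))))))))))) .nil)))))))))))))))))))))) (.nd (.nd (.nd .leaf (nat_lit 88065) (nat_lit 270) (.n (nat_lit 132) (nat_lit 1) (.p (nat_lit 134) (nat_lit 1) (.p (nat_lit 135) (nat_lit 2) (.p (nat_lit 136) (nat_lit 2) (.p (nat_lit 137) (nat_lit 1) (.n (nat_lit 141) (nat_lit 3) (.p (nat_lit 144) (nat_lit 3) (.p (nat_lit 145) (nat_lit 2) (.n (nat_lit 147) (nat_lit 1) (.p (nat_lit 149) (nat_lit 3) (.n (nat_lit 150) (nat_lit 3) (.n (nat_lit 151) (nat_lit 3) (.p (nat_lit 152) (nat_lit 3) (.n (nat_lit 153) (nat_lit 3) (.n (nat_lit 154) (nat_lit 2) (.n (nat_lit 155) (nat_lit 2) (.p (nat_lit 156) (nat_lit 2) (.p (nat_lit 157) (nat_lit 3) .z)))))))))))))))))) (.ct dC2b_c291 (nat_lit 1) (nat_lit 9) (.s true (nat_lit 1) (nat_lit 16) (nat_lit 2) (nat_lit 1) (nat_lit 1) true (nat_lit 4) true (nat_lit 9) false (nat_lit 0) true (nat_lit 8) true (nat_lit 9) (.e true (nat_lit 1) (nat_lit 36) (nat_lit 6) (nat_lit 4) (.e false (nat_lit 1) (nat_lit 16) (nat_lit 15) (nat_lit 0) (.e true (nat_lit 1) (nat_lit 61) (nat_lit 2) (nat_lit 8) (.e false (nat_lit 1) (nat_lit 62) (nat_lit 2) (nat_lit 8) (.e false (nat_lit 2) (nat_lit 63) (nat_lit 2) (nat_lit 8) (.e true (nat_lit 2) (nat_lit 64) (nat_lit 2) (nat_lit 8) (.e true (nat_lit 2) (nat_lit 66) (nat_lit 2) (nat_lit 8) (.e true (nat_lit 1) (nat_lit 67) (nat_lit 2) (nat_lit 8) (.e false (nat_lit 1) (nat_lit 68) (nat_lit 2) (nat_lit 8) (.e false (nat_lit 2) (nat_lit 71) (nat_lit 2) (nat_lit 8) (.e false (nat_lit 2) (nat_lit 72) (nat_lit 2) (nat_lit 8) (.e false (nat_lit 1) (nat_lit 73) (nat_lit 2) (nat_lit 8) (.e false (nat_lit 1) (nat_lit 83) (nat_lit 1) (nat_lit 9) (.u (nat_lit 2) (.n (nat_lit 4) (nat_lit 1) (.n (nat_lit 20) (nat_lit 1) .z)) .nil)))))))))))))))) .leaf) (nat_lit 88066) (nat_lit 322) (.p (nat_lit 175) (nat_lit 1) .z) .df .leaf) (nat_lit 88068) (nat_lit 538) (.p (nat_lit 206) (nat_lit 3) (.n (nat_lit 207) (nat_lit 1) (.n (nat_lit 209) (nat_lit 1) (.p (nat_lit 210) (nat_lit 3) (.p (nat_lit 211) (nat_lit 1) (.p (nat_lit 212) (nat_lit 2) (.n (nat_lit 213) (nat_lit 3) (.p (nat_lit 214) (nat_lit 2) (.p (nat_lit 215) (nat_lit 2) (.p (nat_lit 216) (nat_lit 3) (.n (nat_lit 217) (nat_lit 3) (.n (nat_lit 218) (nat_lit 1) (.n (nat_lit 219) (nat_lit 1) (.n (nat_lit 220) (nat_lit 2) (.p (nat_lit 221) (nat_lit 3) (.n (nat_lit 222) (nat_lit 3) (.p (nat_lit 226) (nat_lit 3) (.p (nat_lit 227) (nat_lit 3) (.n (nat_lit 228) (nat_lit 2) (.p (nat_lit 229) (nat_lit 3) (.p (nat_lit 230) (nat_lit 3) (.n (nat_lit 231) (nat_lit 3) (.p (nat_lit 232) (nat_lit 1) (.n (nat_lit 234) (nat_lit 1) (.p (nat_lit 235) (nat_lit 2) (.n (nat_lit 237) (nat_lit 2) (.n (nat_lit 241) (nat_lit 2) (.n (nat_lit 243) (nat_lit 2) (.n (nat_lit 244) (nat_lit 2) (.n (nat_lit 245) (nat_lit 3) (.n (nat_lit 246) (nat_lit 1) (.p (nat_lit 247) (nat_lit 2) (.n (nat_lit 248) (nat_lit 2) (.p (nat_lit 249) (nat_lit 3) (.n (nat_lit 250) (nat_lit 1) (.p (nat_lit 251) (nat_lit 3) .z)))))))))))))))))))))))))))))))))))) (.ct dC2b_c307 (nat_lit 1) (nat_lit 10) (.s true (nat_lit 1) (nat_lit 16) (nat_lit 2) (nat_lit 1) (nat_lit 4) true (nat_lit 3) true (nat_lit 10) true (nat_lit 2) true (nat_lit 12) true (nat_lit 13) (.e false (nat_lit 1) (nat_lit 36) (nat_lit 14) (nat_lit 3) dC2b_i129))) (.nd .leaf (nat_lit 88070) (nat_lit 642) (.p (nat_lit 252) (nat_lit 2) (.n (nat_lit 253) (nat_lit 1) (.n (nat_lit 254) (nat_lit 2) (.p (nat_lit 255) (nat_lit 2) (.p (nat_lit 256) (nat_lit 1) (.n (nat_lit 257) (nat_lit 3) (.p (nat_lit 261) (nat_lit 1) (.p (nat_lit 262) (nat_lit 1) (.n (nat_lit 264) (nat_lit 1) (.n (nat_lit 267) (nat_lit 2) (.n (nat_lit 269) (nat_lit 3) (.n (nat_lit 270) (nat_lit 3) (.p (nat_lit 271) (nat_lit 3) (.p (nat_lit 273) (nat_lit 3) (.n (nat_lit 274) (nat_lit 3) (.n (nat_lit 275) (nat_lit 3) (.p (nat_lit 276) (nat_lit 3) (.n (nat_lit 277) (nat_lit 3) (.n (nat_lit 279) (nat_lit 1) (.p (nat_lit 281) (nat_lit 1) (.n (nat_lit 283) (nat_lit 3) (.p (nat_lit 285) (nat_lit 3) (.p (nat_lit 288) (nat_lit 1) .z))))))))))))))))))))))) (.ct dC2b_c292 (nat_lit 1) (nat_lit 7) (.s true (nat_lit 1) (nat_lit 16) (nat_lit 2) (nat_lit 1) (nat_lit 6) true (nat_lit 1) true (nat_lit 7) true (nat_lit 2) true (nat_lit 11) true (nat_lit 12) dC2b_i130)) .leaf))))))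

noncomputable def dC2b_t5 : Tr := (.nd dC2b_t3 (nat_lit 75778) (nat_lit 290) (.p (nat_lit 158) (nat_lit 1) .z) .df dC2b_t4)

noncomputable def dC2b_t6 : Tr := (.nd dC2b_t2 (nat_lit 62466) (nat_lit 227) (.p (nat_lit 133) (nat_lit 1) .z) .df dC2b_t5)

end Pool.Agent.MalP.Chk7
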