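import Pool.Agent.MalP.P7.ChkDef

/-! # Data for the certificate of zC2Ex -/

set_option autoImplicit false
set_option maxRecDepth 100000

namespace Pool.Agent.MalP.Chk7

noncomputable def dC2c_i0 : IL := (.e true (nat_lit 1) (nat_lit 271) (nat_lit 2) (nat_lit 14) (.e false (nat_lit 3) (nat_lit 272) (nat_lit 2) (nat_lit 14) (.e true (nat_lit 1) (nat_lit 273) (nat_lit 2) (nat_lit 14) (.e true (nat_lit 3) (nat_lit 274) (nat_lit 2) (nat_lit 14) (.e false (nat_lit 1) (nat_lit 275) (nat_lit 2) (nat_lit 14) (.e false (nat_lit 1) (nat_lit 277) (nat_lit 2) (nat_lit 14) (.e false (nat_lit 1) (nat_lit 279) (nat_lit 2) (nat_lit 14) (.e true (nat_lit 1) (nat_lit 282) (nat_lit 2) (nat_lit 14) (.e false (nat_lit 3) (nat_lit 283) (nat_lit 2) (nat_lit 14) (.e true (nat_lit 3) (nat_lit 285) (nat_lit 2) (nat_lit 14) (.e true (nat_lit 1) (nat_lit 288) (nat_lit 2) (nat_lit 14) (.e true (nat_lit 3) (nat_lit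 305) (nat_lit 1) (nat_lit 15) (.e true (nat_lit 2) (nat_lit 306) (nat_lit 1) (nat_lit 15) (.e false (nat_lit 2) (nat_lit 307) (nat_lit 1) (nat_lit 15) (.e false (nat_lit 2) (nat_lit 308) (nat_lit 1) (nat_lit 15) (.e false (nat_lit 3) (nat_lit 309) (nat_lit 1) (nat_lit 15) (.e false (nat_lit 3) (nat_lit 310) (nat_lit 1) (nat_lit 15) (.e true (nat_lit 3) (nat_lit 311) (nat_lit 1) (nat_lit 15) (.e true (nat_lit 2) (nat_lit 312) (nat_lit 1) (nat_lit 15) (.e false (nat_lit 3) (nat_lit 313) (nat_lit 1) (nat_lit 15) (.e false (nat_lit 3) (nat_lit 314) (nat_lit 1) (nat_lit 15) (.e true (nat_lit 3) (nat_lit 315) (nat_lit 1) (nat_lit 15) (.e true (nat_lit 1) (nat_lit 316) (nat_lit 1) (nat_lit 15) (.e false (nat_lit 1) (nat_lit 317) (nat_lit 1) (nat_lit 15) (.u (nat_lit 2) (.n (nat_lit 0) (nat_lit 1) (.n (nat_lit 1) (nat_lit 5) (.n (nat_lit 2) (nat_lit 1) (.p (nat_lit 4) (nat_lit 4) (.p (nat_lit 5)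 (nat_lit 1) (.p (nat_lit 6) (nat_lit 2) (.p (nat_lit 7) (nat_lit 2) (.p (nat_lit 9) (nat_lit 1) (.n (nat_lit 10) (nat_lit 3) (.n (nat_lit 11) (nat_lit 2) (.n (nat_lit 13) (nat_lit 1) (.p (nat_lit 14) (nat_lit 2) (.p (nat_lit 15) (nat_lit 1) (.p (nat_lit 16) (nat_lit 1) (.p (nat_lit 18) (nat_lit 7) (.p (nat_lit 19) (nat_lit 1) (.n (nat_lit 21) (nat_lit 1) (.n (nat_lit 23) (nat_lit 2) (.p (nat_lit 24) (nat_lit 2) (.n (nat_lit 25) (nat_lit 1) (.n (nat_lit 27) (nat_lit 1) (.p (nat_lit 34) (nat_lit 1) (.p (nat_lit 38) (nat_lit 2) .z))))))))))))))))))))))) .nil)))))))))))))))))))))))))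

noncomputable def dC2c_c293 : Cm := .mk (nat_lit 1160) (nat_lit 293) (nat_lit 397) (nat_lit 39) (.c (nat_lit 42) (nat_lit 3) (nat_lit 39) (nat_lit 3) (nat_lit 39) (.c (nat_lit 45) (nat_lit 3) (nat_lit 33) (nat_lit 6) (nat_lit 48) (.c (nat_lit 48) (nat_lit 1) (nat_lit 24) (nat_lit 6) (nat_lit 66) (.c (nat_lit 60) (nat_lit 14) (nat_lit 20) (nat_lit 1) (nat_lit 72) (.c (nat_lit 80) (nat_lit 11) (nat_lit 18) (nat_lit 2) (nat_lit 86) (.c (nat_lit 91) (nat_lit 6) (nat_lit 16) (nat_lit 2) (nat_lit 108) (.c (nat_lit 97) (nat_lit 4) (nat_lit 14) (nat_lit 2) (nat_lit 120) (.c (nat_lit 101) (nat_lit 4) (nat_lit 11) (nat_lit 3) (nat_lit 128) (.c (nat_lit 105) (nat_lit 1) (nat_lit 8) (nat_lit 2) (nat_lit 140) (.c (nat_lit 132) (nat_lit 26) (nat_lit 7) (nat_lit 1) (nat_lit 142) (.c (nat_lit 169) (nat_lit 16) (nat_lit 6) (nat_lit 1) (nat_lit 168) (.c (nat_lit 185) (nat_lit 10) (nat_lit 5) (nat_lit 1)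 (nat_lit 184) (.c (nat_lit 195) (nat_lit 5) (nat_lit 4) (nat_lit 1) (nat_lit 194) (.c (nat_lit 200) (nat_lit 5) (nat_lit 3) (nat_lit 1) (nat_lit 199) (.c (nat_lit 252) (nat_lit 37) (nat_lit 2) (nat_lit 1) (nat_lit 204) (.c (nat_lit 305) (nat_lit 19) (nat_lit 1) (nat_lit 1) (nat_lit 241) (.c (nat_lit 324) (nat_lit 11) (nat_lit 0) (nat_lit 1) (nat_lit 260) .nil)))))))))))))))))

noncomputable def dC2c_i1 : IL := (.s false (nat_lit 1) (nat_lit 86) (nat_lit 2) (nat_lit 2) (nat_lit 1) true (nat_lit 10) true (nat_lit 15) false (nat_lit 4) true (nat_lit 14) true (nat_lit 14) (.e false (nat_lit 1) (nat_lit 175) (nat_lit 6) (nat_lit 10) (.e false (nat_lit 1) (nat_lit 311) (nat_lit 1) (nat_lit 15) (.e true (nat_lit 1) (nat_lit 252) (nat_lit 2) (nat_lit 14) (.e false (nat_lit 1) (nat_lit 253) (nat_lit 2) (nat_lit 14) (.e false (nat_lit 1) (nat_lit 254) (nat_lit 2) (nat_lit 14) (.e false (nat_lit 3)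 (nat_lit 255) (nat_lit 2) (nat_lit 14) (.e true (nat_lit 3) (nat_lit 256) (nat_lit 2) (nat_lit 14) (.e false (nat_lit 2) (nat_lit 257) (nat_lit 2) (nat_lit 14) (.e false (nat_lit 2) (nat_lit 261) (nat_lit 2) (nat_lit 14) (.e true (nat_lit 1) (nat_lit 262) (nat_lit 2) (nat_lit 14) (.e true (nat_lit 2) (nat_lit 264) (nat_lit 2) (nat_lit 14) (.e false (nat_lit 3) (nat_lit 267) (nat_lit 2) (nat_lit 14) (.e true (nat_lit 1) (nat_lit 270) (nat_lit 2) (nat_lit 14) (.e true (nat_lit 2) (nat_lit 274) (nat_lit 2) (nat_lit 14) (.e true (nat_lit 2) (nat_lit 275) (nat_lit 2) (nat_lit 14) (.e false (nat_lit 2) (nat_lit 276) (nat_lit 2) (nat_lit 14) (.e false (nat_lit 1) (nat_lit 279) (nat_lit 2) (nat_lit 14) (.e true (nat_lit 1) (nat_lit 281) (nat_lit 2) (nat_lit 14) (.e false (nat_lit 3) (nat_lit 283) (nat_lit 2) (nat_lit 14) (.e true (nat_lit 3) (nat_lit 285) (nat_lit 2) (nat_lit 14) (.e true (nat_lit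 1) (nat_lit 288) (nat_lit 2) (nat_lit 14) (.e true (nat_lit 2) (nat_lit 265) (nat_lit 2) (nat_lit 14) (.e true (nat_lit 3) (nat_lit 272) (nat_lit 2) (nat_lit 14) (.u (nat_lit 2) (.n (nat_lit 1) (nat_lit 1) (.n (nat_lit 2) (nat_lit 1) (.p (nat_lit 3) (nat_lit 1) (.p (nat_lit 4) (nat_lit 1) (.p (nat_lit 5) (nat_lit 1) (.p (nat_lit 6) (nat_lit 1) (.n (nat_lit 7) (nat_lit 3) (.p (nat_lit 10) (nat_lit 1) (.n (nat_lit 11) (nat_lit 3) (.p (nat_lit 12) (nat_lit 1) (.n (nat_lit 13) (nat_lit 5) (.n (nat_lit 14) (nat_lit 2) (.n (nat_lit 15) (nat_lit 1) (.n (nat_lit 16) (nat_lit 1) (.p (nat_lit 18) (nat_lit 1) (.p (nat_lit 19) (nat_lit 4) (.p (nat_lit 21) (nat_lit 3) (.n (nat_lit 23) (nat_lit 2) (.n (nat_lit 25) (nat_lit 2) (.n (nat_lit 34) (nat_lit 1) (.p (nat_lit 35) (nat_lit 2) (.n (nat_lit 38) (nat_lit 2) (.n (nat_lit 207) (nat_lit 1) (.p (nat_lit 222) (nat_lit 1) (.p (nat_lit 226) (nat_lit 1)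 (.p (nat_lit 227) (nat_lit 1) (.n (nat_lit 228) (nat_lit 1) .z))))))))))))))))))))))))))) .nil)))))))))))))))))))))))))

noncomputable def dC2c_c291 : Cm := .mk (nat_lit 226) (nat_lit 291) (nat_lit 132) (nat_lit 26) (.c (nat_lit 16) (nat_lit 2) (nat_lit 14) (nat_lit 2) (nat_lit 26) (.c (nat_lit 18) (nat_lit 2) (nat_lit 11) (nat_lit 3) (nat_lit 30) (.c (nat_lit 20) (nat_lit 1) (nat_lit 8) (nat_lit 2) (nat_lit 36) (.c (nat_lit 24) (nat_lit 6) (nat_lit 7) (nat_lit 1) (nat_lit 38) (.c (nat_lit 33) (nat_lit 6) (nat_lit 6) (nat_lit 1) (nat_lit 44) (.c (nat_lit 39) (nat_lit 3) (nat_lit 5) (nat_lit 1) (nat_lit 50) (.c (nat_lit 42) (nat_lit 3) (nat_lit 4) (nat_lit 1) (nat_lit 53) (.c (nat_lit 45) (nat_lit 3) (nat_lit 3) (nat_lit 1) (nat_lit 56) (.c (nat_lit 60) (nat_lit 14) (nat_lit 2) (nat_lit 1) (nat_lit 59) (.c (nat_lit 80) (nat_lit 11) (nat_lit 1) (nat_lit 1) (nat_lit 73) (.c (nat_lit 91) (nat_lit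 6) (nat_lit 0) (nat_lit 1) (nat_lit 84) .nil)))))))))))

noncomputable def dC2c_c307 : Cm := .mk (nat_lit 399) (nat_lit 307) (nat_lit 205) (nat_lit 47) (.c (nat_lit 21) (nat_lit 3) (nat_lit 20) (nat_lit 1) (nat_lit 47) (.c (nat_lit 24) (nat_lit 6) (nat_lit 18) (nat_lit 2) (nat_lit 50) (.c (nat_lit 30) (nat_lit 3) (nat_lit 16) (nat_lit 2) (nat_lit 62) (.c (nat_lit 33) (nat_lit 6) (nat_lit 14) (nat_lit 2) (nat_lit 68) (.c (nat_lit 39) (nat_lit 3) (nat_lit 11) (nat_lit 3) (nat_lit 80) (.c (nat_lit 42) (nat_lit 3) (nat_lit 10) (nat_lit 1) (nat_lit 89) (.c (nat_lit 45) (nat_lit 3) (nat_lit 8) (nat_lit 2) (nat_lit 92) (.c (nat_lit 49) (nat_lit 11) (nat_lit 7) (nat_lit 1) (nat_lit 98) (.c (nat_lit 60) (nat_lit 14) (nat_lit 6) (nat_lit 1) (nat_lit 109) (.c (nat_lit 74) (nat_lit 6) (nat_lit 5) (nat_lit 1) (nat_lit 123) (.c (nat_lit 80) (nat_lit 11) (nat_lit 4) (nat_lit 1) (nat_lit 129) (.c (nat_lit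 91) (nat_lit 6) (nat_lit 3) (nat_lit 1) (nat_lit 140) (.c (nat_lit 106) (nat_lit 26) (nat_lit 2) (nat_lit 1) (nat_lit 146) (.c (nat_lit 132) (nat_lit 26) (nat_lit 1) (nat_lit 1) (nat_lit 172) (.c (nat_lit 158) (nat_lit 11) (nat_lit 0) (nat_lit 1) (nat_lit 198) .nil)))))))))))))))

noncomputable def dC2c_i2 : IL := (.e true (nat_lit 2) (nat_lit 84) (nat_lit 6) (nat_lit 7) (.e true (nat_lit 3) (nat_lit 85) (nat_lit 6) (nat_lit 7) (.e true (nat_lit 1) (nat_lit 86) (nat_lit 6) (nat_lit 7) (.e false (nat_lit 1) (nat_lit 89) (nat_lit 6) (nat_lit 7) (.e false (nat_lit 1) (nat_lit 90) (nat_lit 6) (nat_lit 7) (.e false (nat_lit 1) (nat_lit 134) (nat_lit 2) (nat_lit 11) (.e false (nat_lit 1) (nat_lit 145) (nat_lit 2) (nat_lit 11) (.e false (nat_lit 3) (nat_lit 149) (nat_lit 2) (nat_lit 11) (.e true (nat_lit 2) (nat_lit 154) (nat_lit 2) (nat_lit 11) (.e false (nat_lit 2) (nat_lit 135) (nat_lit 2)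 (nat_lit 11) (.e true (nat_lit 1) (nat_lit 139) (nat_lit 2) (nat_lit 11) (.e false (nat_lit 3) (nat_lit 144) (nat_lit 2) (nat_lit 11) (.e false (nat_lit 3) (nat_lit 150) (nat_lit 2) (nat_lit 11) (.e true (nat_lit 3) (nat_lit 155) (nat_lit 2) (nat_lit 11) (.e true (nat_lit 1) (nat_lit 132) (nat_lit 2) (nat_lit 11) (.e false (nat_lit 3) (nat_lit 136) (nat_lit 2) (nat_lit 11) (.e false (nat_lit 1) (nat_lit 137) (nat_lit 2) (nat_lit 11) (.e true (nat_lit 2) (nat_lit 141) (nat_lit 2) (nat_lit 11) (.e true (nat_lit 1) (nat_lit 148) (nat_lit 2) (nat_lit 11) (.e true (nat_lit 3) (nat_lit 151) (nat_lit 2) (nat_lit 11) (.e false (nat_lit 3) (nat_lit 152) (nat_lit 2) (nat_lit 11) (.e true (nat_lit 3) (nat_lit 153) (nat_lit 2) (nat_lit 11) (.e false (nat_lit 3) (nat_lit 156) (nat_lit 2) (nat_lit 11) (.e false (nat_lit 3) (nat_lit 157) (nat_lit 2) (nat_lit 11) (.u (nat_lit 2) (.p (nat_lit 0) (nat_lit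 1) (.p (nat_lit 1) (nat_lit 1) (.p (nat_lit 2) (nat_lit 2) (.n (nat_lit 5) (nat_lit 1) (.n (nat_lit 7) (nat_lit 1) (.n (nat_lit 9) (nat_lit 2) (.p (nat_lit 12) (nat_lit 3) (.n (nat_lit 13) (nat_lit 2) (.p (nat_lit 14) (nat_lit 1) (.n (nat_lit 15) (nat_lit 1) (.n (nat_lit 17) (nat_lit 1) (.p (nat_lit 18) (nat_lit 2) (.n (nat_lit 19) (nat_lit 2) (.n (nat_lit 21) (nat_lit 2) (.p (nat_lit 22) (nat_lit 1) (.p (nat_lit 23) (nat_lit 2) (.p (nat_lit 24) (nat_lit 1) (.p (nat_lit 25) (nat_lit 2) (.p (nat_lit 31) (nat_lit 1) (.n (nat_lit 33) (nat_lit 1) (.n (nat_lit 129) (nat_lit 1) (.n (nat_lit 135) (nat_lit 1) .z)))))))))))))))))))))) .nil)))))))))))))))))))))))))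

noncomputable def dC2c_c292 : Cm := .mk (nat_lit 561) (nat_lit 292) (nat_lit 252) (nat_lit 37) (.c (nat_lit 24) (nat_lit 6) (nat_lit 20) (nat_lit 1) (nat_lit 37) (.c (nat_lit 33) (nat_lit 6) (nat_lit 18) (nat_lit 2) (nat_lit 43) (.c (nat_lit 39) (nat_lit 3) (nat_lit 16) (nat_lit 2) (nat_lit 55) (.c (nat_lit 42) (nat_lit 3) (nat_lit 14) (nat_lit 2) (nat_lit 61) (.c (nat_lit 45) (nat_lit 3) (nat_lit 11) (nat_lit 3) (nat_lit 67) (.c (nat_lit 48) (nat_lit 1) (nat_lit 8) (nat_lit 2) (nat_lit 76) (.c (nat_lit 60) (nat_lit 14) (nat_lit 7) (nat_lit 1) (nat_lit 78) (.c (nat_lit 80) (nat_lit 11) (nat_lit 6) (nat_lit 1) (nat_lit 92) (.c (nat_lit 91) (nat_lit 6) (nat_lit 5) (nat_lit 1) (nat_lit 103) (.c (nat_lit 97) (nat_lit 4) (nat_lit 4) (nat_lit 1) (nat_lit 109) (.c (nat_lit 101) (nat_lit 4) (nat_lit 3) (nat_lit 1) (nat_lit 113) (.c (nat_lit 132) (nat_lit 26) (nat_lit 2) (nat_lit 1) (nat_lit 117)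 (.c (nat_lit 169) (nat_lit 16) (nat_lit 1) (nat_lit 1) (nat_lit 143) (.c (nat_lit 185) (nat_lit 10) (nat_lit 0) (nat_lit 1) (nat_lit 159) .nil))))))))))))))

noncomputable def dC2c_i3 : IL := (.s false (nat_lit 1) (nat_lit 7) (nat_lit 5) (nat_lit 2) (nat_lit 6) false (nat_lit 0) true (nat_lit 5) true (nat_lit 4) true (nat_lit 6) true (nat_lit 8) (.s true (nat_lit 1) (nat_lit 16) (nat_lit 6) (nat_lit 2) (nat_lit 2) true (nat_lit 1) true (nat_lit 8) true (nat_lit 2) true (nat_lit 5) true (nat_lit 8) (.s false (nat_lit 1) (nat_lit 18) (nat_lit 5) (nat_lit 2) (nat_lit 2) true (nat_lit 2) true (nat_lit 8) true (nat_lit 1) true (nat_lit 6) true (nat_lit 8) (.s false (nat_lit 1) (nat_lit 20) (nat_lit 6) (nat_lit 2) (nat_lit 0) true (nat_lit 3) true (nat_lit 10) true (nat_lit 0) true (nat_lit 5) true (nat_lit 8) (.s false (nat_lit 1) (nat_lit 37) (nat_lit 2) (nat_lit 2) (nat_lit 2) true (nat_lit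 4) true (nat_lit 8) false (nat_lit 0) true (nat_lit 8) true (nat_lit 8) (.e true (nat_lit 1) (nat_lit 33) (nat_lit 20) (nat_lit 0) (.e false (nat_lit 1) (nat_lit 34) (nat_lit 20) (nat_lit 0) (.e false (nat_lit 1) (nat_lit 80) (nat_lit 7) (nat_lit 4) (.e true (nat_lit 1) (nat_lit 81) (nat_lit 7) (nat_lit 4) (.e true (nat_lit 2) (nat_lit 85) (nat_lit 7) (nat_lit 4) (.e false (nat_lit 1) (nat_lit 90) (nat_lit 7) (nat_lit 4) (.e true (nat_lit 2) (nat_lit 169) (nat_lit 2) (nat_lit 8) (.e true (nat_lit 2) (nat_lit 170) (nat_lit 2) (nat_lit 8) (.e false (nat_lit 3) (nat_lit 172) (nat_lit 2) (nat_lit 8) (.e false (nat_lit 2) (nat_lit 173) (nat_lit 2) (nat_lit 8) (.e false (nat_lit 1) (nat_lit 176) (nat_lit 2) (nat_lit 8) (.e true (nat_lit 2) (nat_lit 178) (nat_lit 2) (nat_lit 8) (.e true (nat_lit 2) (nat_lit 179) (nat_lit 2) (nat_lit 8) (.e false (nat_lit 1) (nat_lit 180) (nat_lit 2) (nat_lit 8)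 (.e true (nat_lit 1) (nat_lit 184) (nat_lit 2) (nat_lit 8) (.e false (nat_lit 2) (nat_lit 171) (nat_lit 2) (nat_lit 8) (.e true (nat_lit 2) (nat_lit 174) (nat_lit 2) (nat_lit 8) (.e true (nat_lit 1) (nat_lit 48) (nat_lit 13) (nat_lit 3) (.e true (nat_lit 1) (nat_lit 181) (nat_lit 2) (nat_lit 8) (.u (nat_lit 2) (.n (nat_lit 0) (nat_lit 1) (.n (nat_lit 1) (nat_lit 1) (.p (nat_lit 4) (nat_lit 1) (.p (nat_lit 8) (nat_lit 1) (.n (nat_lit 60) (nat_lit 1) (.p (nat_lit 61) (nat_lit 1) (.p (nat_lit 64) (nat_lit 1) (.p (nat_lit 65) (nat_lit 1) (.p (nat_lit 66) (nat_lit 1) (.p (nat_lit 67) (nat_lit 1) (.p (nat_lit 69) (nat_lit 2) (.p (nat_lit 70) (nat_lit 2) .z)))))))))))) .nil)))))))))))))))))))))))))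

noncomputable def dC2c_c277 : Cm := .mk (nat_lit 746) (nat_lit 277) (nat_lit 305) (nat_lit 19) (.c (nat_lit 33) (nat_lit 6) (nat_lit 20) (nat_lit 1) (nat_lit 19) (.c (nat_lit 42) (nat_lit 3) (nat_lit 18) (nat_lit 2) (nat_lit 25) (.c (nat_lit 45) (nat_lit 3) (nat_lit 16) (nat_lit 2) (nat_lit 31) (.c (nat_lit 48) (nat_lit 1) (nat_lit 11) (nat_lit 3) (nat_lit 37) (.c (nat_lit 80) (nat_lit 11) (nat_lit 7) (nat_lit 1) (nat_lit 40) (.c (nat_lit 97) (nat_lit 4) (nat_lit 6) (nat_lit 1) (nat_lit 51) (.c (nat_lit 101) (nat_lit 4) (nat_lit 5) (nat_lit 1) (nat_lit 55) (.c (nat_lit 105) (nat_lit 1) (nat_lit 3) (nat_lit 1) (nat_lit 59) (.c (nat_lit 169) (nat_lit 16) (nat_lit 2) (nat_lit 1) (nat_lit 60) (.c (nat_lit 195) (nat_lit 5) (nat_lit 1) (nat_lit 1) (nat_lit 76) (.c (nat_lit 200) (nat_lit 5) (nat_lit 0) (nat_lit 1) (nat_lit 81) .nil)))))))))))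

noncomputable def dC2c_i4 : IL := (.e true (nat_lit 3) (nat_lit 264) (nat_lit 2) (nat_lit 14) (.e true (nat_lit 1) (nat_lit 266) (nat_lit 2) (nat_lit 14) (.e true (nat_lit 1) (nat_lit 267) (nat_lit 2) (nat_lit 14) (.e true (nat_lit 3) (nat_lit 269) (nat_lit 2) (nat_lit 14) (.e true (nat_lit 3) (nat_lit 270) (nat_lit 2) (nat_lit 14) (.e true (nat_lit 3) (nat_lit 272) (nat_lit 2) (nat_lit 14) (.e true (nat_lit 2) (nat_lit 274) (nat_lit 2) (nat_lit 14) (.e true (nat_lit 1) (nat_lit 275) (nat_lit 2) (nat_lit 14) (.e true (nat_lit 1) (nat_lit 280) (nat_lit 2) (nat_lit 14) (.e false (nat_lit 2) (nat_lit 283) (nat_lit 2) (nat_lit 14) (.e true (nat_lit 2) (nat_lit 285) (nat_lit 2) (nat_lit 14) (.e false (nat_lit 1) (nat_lit 286) (nat_lit 2) (nat_lit 14) (.e false (nat_lit 2) (nat_lit 305) (nat_lit 1) (nat_lit 15) (.e true (nat_lit 1) (nat_lit 306) (nat_lit 1) (nat_lit 15) (.e false (nat_lit 1)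 (nat_lit 307) (nat_lit 1) (nat_lit 15) (.e true (nat_lit 3) (nat_lit 308) (nat_lit 1) (nat_lit 15) (.e true (nat_lit 2) (nat_lit 309) (nat_lit 1) (nat_lit 15) (.e false (nat_lit 1) (nat_lit 311) (nat_lit 1) (nat_lit 15) (.e false (nat_lit 1) (nat_lit 312) (nat_lit 1) (nat_lit 15) (.e true (nat_lit 1) (nat_lit 313) (nat_lit 1) (nat_lit 15) (.e true (nat_lit 2) (nat_lit 314) (nat_lit 1) (nat_lit 15) (.e true (nat_lit 1) (nat_lit 315) (nat_lit 1) (nat_lit 15) (.e false (nat_lit 1) (nat_lit 316) (nat_lit 1) (nat_lit 15) (.e true (nat_lit 1) (nat_lit 317) (nat_lit 1) (nat_lit 15) (.u (nat_lit 2) (.n (nat_lit 0) (nat_lit 1) (.n (nat_lit 2) (nat_lit 2) (.p (nat_lit 3) (nat_lit 2) (.p (nat_lit 4) (nat_lit 4) (.p (nat_lit 5) (nat_lit 2) (.p (nat_lit 6) (nat_lit 1) (.p (nat_lit 7) (nat_lit 1) (.p (nat_lit 8) (nat_lit 3) (.p (nat_lit 10) (nat_lit 2) (.n (nat_lit 11) (nat_lit 5) (.p (nat_lit 12) (nat_lit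 1) (.n (nat_lit 13) (nat_lit 2) (.n (nat_lit 14) (nat_lit 4) (.p (nat_lit 15) (nat_lit 2) (.p (nat_lit 16) (nat_lit 2) (.n (nat_lit 17) (nat_lit 1) (.p (nat_lit 18) (nat_lit 6) (.p (nat_lit 19) (nat_lit 1) (.n (nat_lit 21) (nat_lit 1) (.p (nat_lit 23) (nat_lit 1) (.n (nat_lit 24) (nat_lit 1) (.n (nat_lit 25) (nat_lit 1) (.n (nat_lit 29) (nat_lit 1) (.n (nat_lit 30) (nat_lit 1) (.n (nat_lit 31) (nat_lit 1) (.p (nat_lit 34) (nat_lit 1) (.p (nat_lit 35) (nat_lit 1) (.p (nat_lit 38) (nat_lit 1) .z)))))))))))))))))))))))))))) .nil)))))))))))))))))))))))))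

noncomputable def dC2c_i5 : IL := (.e true (nat_lit 1) (nat_lit 318) (nat_lit 1) (nat_lit 15) (.e true (nat_lit 1) (nat_lit 43) (nat_lit 39) (nat_lit 0) (.e false (nat_lit 1) (nat_lit 43) (nat_lit 40) (nat_lit 0) (.e false (nat_lit 1) (nat_lit 43) (nat_lit 41) (nat_lit 0) (.e true (nat_lit 2) (nat_lit 132) (nat_lit 7) (nat_lit 9) (.e false (nat_lit 2) (nat_lit 133) (nat_lit 7) (nat_lit 9) (.e true (nat_lit 2) (nat_lit 134) (nat_lit 7) (nat_lit 9) (.e true (nat_lit 2) (nat_lit 135) (nat_lit 7) (nat_lit 9) (.e true (nat_lit 2) (nat_lit 137) (nat_lit 7) (nat_lit 9) (.e true (nat_lit 1) (nat_lit 138) (nat_lit 7) (nat_lit 9) (.e true (nat_lit 3) (nat_lit 139) (nat_lit 7) (nat_lit 9) (.e false (nat_lit 3) (nat_lit 140) (nat_lit 7) (nat_lit 9) (.e false (nat_lit 3) (nat_lit 141) (nat_lit 7) (nat_lit 9) (.e false (nat_lit 3) (nat_lit 143) (nat_lit 7) (nat_lit 9) (.e false (nat_lit 1) (nat_lit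 144) (nat_lit 7) (nat_lit 9) (.e false (nat_lit 2) (nat_lit 145) (nat_lit 7) (nat_lit 9) (.e false (nat_lit 3) (nat_lit 147) (nat_lit 7) (nat_lit 9) (.e false (nat_lit 2) (nat_lit 150) (nat_lit 7) (nat_lit 9) (.e false (nat_lit 1) (nat_lit 153) (nat_lit 7) (nat_lit 9) (.e true (nat_lit 3) (nat_lit 155) (nat_lit 7) (nat_lit 9) (.e false (nat_lit 3) (nat_lit 156) (nat_lit 7) (nat_lit 9) (.e false (nat_lit 1) (nat_lit 310) (nat_lit 1) (nat_lit 15) (.e false (nat_lit 3) (nat_lit 306) (nat_lit 1) (nat_lit 15) (.e true (nat_lit 1) (nat_lit 323) (nat_lit 1) (nat_lit 15) (.u (nat_lit 2) (.p (nat_lit 1) (nat_lit 1) (.n (nat_lit 2) (nat_lit 3) (.p (nat_lit 3) (nat_lit 5) (.p (nat_lit 4) (nat_lit 6) (.n (nat_lit 5) (nat_lit 1) (.n (nat_lit 6) (nat_lit 4) (.p (nat_lit 7) (nat_lit 2) (.n (nat_lit 8) (nat_lit 1) (.n (nat_lit 11) (nat_lit 3) (.n (nat_lit 12) (nat_lit 3) (.p (nat_lit 13) (nat_lit 4) (.p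 (nat_lit 14) (nat_lit 1) (.p (nat_lit 15) (nat_lit 5) (.p (nat_lit 16) (nat_lit 4) (.n (nat_lit 17) (nat_lit 2) (.p (nat_lit 18) (nat_lit 4) (.p (nat_lit 19) (nat_lit 1) (.n (nat_lit 21) (nat_lit 2) (.n (nat_lit 22) (nat_lit 1) (.n (nat_lit 23) (nat_lit 3) (.p (nat_lit 24) (nat_lit 1) (.p (nat_lit 27) (nat_lit 1) (.p (nat_lit 29) (nat_lit 1) (.p (nat_lit 31) (nat_lit 1) (.n (nat_lit 32) (nat_lit 1) (.p (nat_lit 33) (nat_lit 1) (.n (nat_lit 34) (nat_lit 2) (.n (nat_lit 35) (nat_lit 3) (.n (nat_lit 38) (nat_lit 4) (.p (nat_lit 241) (nat_lit 1) (.p (nat_lit 243) (nat_lit 1) (.p (nat_lit 244) (nat_lit 1) (.n (nat_lit 245) (nat_lit 1) (.p (nat_lit 248) (nat_lit 1) (.n (nat_lit 249) (nat_lit 1) (.n (nat_lit 251) (nat_lit 1) .z)))))))))))))))))))))))))))))))))))) .nil)))))))))))))))))))))))))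

noncomputable def dC2c_i6 : IL := (.e false (nat_lit 3) (nat_lit 114) (nat_lit 2) (nat_lit 12) (.e true (nat_lit 3) (nat_lit 116) (nat_lit 2) (nat_lit 12) (.e false (nat_lit 3) (nat_lit 119) (nat_lit 2) (nat_lit 12) (.e false (nat_lit 3) (nat_lit 120) (nat_lit 2) (nat_lit 12) (.e false (nat_lit 3) (nat_lit 122) (nat_lit 2) (nat_lit 12) (.e false (nat_lit 1) (nat_lit 123) (nat_lit 2) (nat_lit 12) (.e true (nat_lit 3) (nat_lit 127) (nat_lit 2) (nat_lit 12) (.e false (nat_lit 1) (nat_lit 129) (nat_lit 2) (nat_lit 12) (.e true (nat_lit 3) (nat_lit 130) (nat_lit 2) (nat_lit 12) (.e false (nat_lit 2) (nat_lit 109) (nat_lit 2) (nat_lit 12) (.e true (nat_lit 1) (nat_lit 126) (nat_lit 2) (nat_lit 12) (.e false (nat_lit 2) (nat_lit 128) (nat_lit 2) (nat_lit 12) (.e true (nat_lit 1) (nat_lit 24) (nat_lit 19) (nat_lit 1) (.e false (nat_lit 1) (nat_lit 25) (nat_lit 19) (nat_lit 1) (.e false (nat_lit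 1) (nat_lit 26) (nat_lit 19) (nat_lit 1) (.e true (nat_lit 1) (nat_lit 27) (nat_lit 19) (nat_lit 1) (.e false (nat_lit 1) (nat_lit 132) (nat_lit 1) (nat_lit 13) (.e false (nat_lit 1) (nat_lit 133) (nat_lit 1) (nat_lit 13) (.e true (nat_lit 1) (nat_lit 135) (nat_lit 1) (nat_lit 13) (.e false (nat_lit 2) (nat_lit 137) (nat_lit 1) (nat_lit 13) (.e false (nat_lit 1) (nat_lit 111) (nat_lit 2) (nat_lit 12) (.e false (nat_lit 2) (nat_lit 113) (nat_lit 2) (nat_lit 12) (.e true (nat_lit 3) (nat_lit 115) (nat_lit 2) (nat_lit 12) (.e true (nat_lit 3) (nat_lit 131) (nat_lit 2) (nat_lit 12) (.u (nat_lit 2) (.p (nat_lit 0) (nat_lit 3) (.p (nat_lit 2) (nat_lit 3) (.n (nat_lit 4) (nat_lit 2) (.p (nat_lit 5) (nat_lit 1) (.n (nat_lit 6) (nat_lit 2) (.p (nat_lit 7) (nat_lit 1) (.p (nat_lit 8) (nat_lit 3) (.n (nat_lit 9) (nat_lit 2) (.p (nat_lit 10) (nat_lit 4) (.p (nat_lit 11) (nat_lit 2) (.n (nat_lit 12)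 (nat_lit 1) (.p (nat_lit 14) (nat_lit 1) (.p (nat_lit 15) (nat_lit 1) (.p (nat_lit 16) (nat_lit 1) (.p (nat_lit 17) (nat_lit 1) (.n (nat_lit 20) (nat_lit 1) (.n (nat_lit 21) (nat_lit 1) (.n (nat_lit 22) (nat_lit 1) (.n (nat_lit 23) (nat_lit 2) (.n (nat_lit 24) (nat_lit 2) (.n (nat_lit 25) (nat_lit 2) (.n (nat_lit 26) (nat_lit 3) (.p (nat_lit 28) (nat_lit 1) (.p (nat_lit 30) (nat_lit 1) (.p (nat_lit 33) (nat_lit 1) (.p (nat_lit 37) (nat_lit 1) (.n (nat_lit 40) (nat_lit 1) (.p (nat_lit 41) (nat_lit 2) (.p (nat_lit 42) (nat_lit 2) (.n (nat_lit 146) (nat_lit 1) (.p (nat_lit 147) (nat_lit 1) (.p (nat_lit 148) (nat_lit 1) (.n (nat_lit 149) (nat_lit 1) (.p (nat_lit 150) (nat_lit 1) (.n (nat_lit 152) (nat_lit 1) (.n (nat_lit 162) (nat_lit 1) (.n (nat_lit 166) (nat_lit 1) (.p (nat_lit 170) (nat_lit 1) (.n (nat_lit 185) (nat_lit 1) .z))))))))))))))))))))))))))))))))))))))) .nil)))))))))))))))))))))))))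

noncomputable def dC2c_c308 : Cm := .mk (nat_lit 850) (nat_lit 308) (nat_lit 335) (nat_lit 62) (.c (nat_lit 39) (nat_lit 3) (nat_lit 33) (nat_lit 6) (nat_lit 62) (.c (nat_lit 42) (nat_lit 3) (nat_lit 30) (nat_lit 3) (nat_lit 80) (.c (nat_lit 45) (nat_lit 3) (nat_lit 24) (nat_lit 6) (nat_lit 89) (.c (nat_lit 48) (nat_lit 1) (nat_lit 21) (nat_lit 3) (nat_lit 107) (.c (nat_lit 49) (nat_lit 11) (nat_lit 20) (nat_lit 1) (nat_lit 110) (.c (nat_lit 60) (nat_lit 14) (nat_lit 18) (nat_lit 2) (nat_lit 121) (.c (nat_lit 74) (nat_lit 6) (nat_lit 16) (nat_lit 2) (nat_lit 149) (.c (nat_lit 80) (nat_lit 11) (nat_lit 14) (nat_lit 2) (nat_lit 161) (.c (nat_lit 91) (nat_lit 6) (nat_lit 11) (nat_lit 3) (nat_lit 183) (.c (nat_lit 97) (nat_lit 4) (nat_lit 10) (nat_lit 1) (nat_lit 201) (.c (nat_lit 101) (nat_lit 4) (nat_lit 8) (nat_lit 2) (nat_lit 205) (.c (nat_lit 106) (nat_lit 26) (nat_lit 7) (nat_lit 1)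 (nat_lit 213) (.c (nat_lit 132) (nat_lit 26) (nat_lit 6) (nat_lit 1) (nat_lit 239) (.c (nat_lit 158) (nat_lit 11) (nat_lit 5) (nat_lit 1) (nat_lit 265) (.c (nat_lit 169) (nat_lit 16) (nat_lit 4) (nat_lit 1) (nat_lit 276) (.c (nat_lit 185) (nat_lit 10) (nat_lit 3) (nat_lit 1) (nat_lit 292) (.c (nat_lit 205) (nat_lit 47) (nat_lit 2) (nat_lit 1) (nat_lit 302) (.c (nat_lit 252) (nat_lit 37) (nat_lit 1) (nat_lit 1) (nat_lit 349) (.c (nat_lit 289) (nat_lit 16) (nat_lit 0) (nat_lit 1) (nat_lit 386) .nil)))))))))))))))))))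

noncomputable def dC2c_i7 : IL := (.e true (nat_lit 1) (nat_lit 34) (nat_lit 14) (nat_lit 3) (.e false (nat_lit 3) (nat_lit 106) (nat_lit 2) (nat_lit 12) (.e false (nat_lit 3) (nat_lit 107) (nat_lit 2) (nat_lit 12) (.e true (nat_lit 1) (nat_lit 109) (nat_lit 2) (nat_lit 12) (.e true (nat_lit 1) (nat_lit 111) (nat_lit 2) (nat_lit 12) (.e false (nat_lit 1) (nat_lit 112) (nat_lit 2) (nat_lit 12) (.e false (nat_lit 2) (nat_lit 113) (nat_lit 2) (nat_lit 12) (.e false (nat_lit 2) (nat_lit 116) (nat_lit 2) (nat_lit 12) (.e false (nat_lit 1) (nat_lit 39) (nat_lit 12) (nat_lit 4) (.e false (nat_lit 2) (nat_lit 108) (nat_lit 2) (nat_lit 12) (.e true (nat_lit 2) (nat_lit 110) (nat_lit 2) (nat_lit 12) (.e true (nat_lit 1) (nat_lit 115) (nat_lit 2) (nat_lit 12) (.e true (nat_lit 3) (nat_lit 117) (nat_lit 2) (nat_lit 12) (.e true (nat_lit 1) (nat_lit 118) (nat_lit 2) (nat_lit 12) (.e false (nat_lit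 3) (nat_lit 119) (nat_lit 2) (nat_lit 12) (.e true (nat_lit 1) (nat_lit 120) (nat_lit 2) (nat_lit 12) (.e false (nat_lit 1) (nat_lit 121) (nat_lit 2) (nat_lit 12) (.e true (nat_lit 3) (nat_lit 123) (nat_lit 2) (nat_lit 12) (.e false (nat_lit 2) (nat_lit 124) (nat_lit 2) (nat_lit 12) (.e true (nat_lit 2) (nat_lit 126) (nat_lit 2) (nat_lit 12) (.e false (nat_lit 3) (nat_lit 127) (nat_lit 2) (nat_lit 12) (.e false (nat_lit 1) (nat_lit 128) (nat_lit 2) (nat_lit 12) (.e false (nat_lit 1) (nat_lit 130) (nat_lit 2) (nat_lit 12) (.e false (nat_lit 1) (nat_lit 131) (nat_lit 2) (nat_lit 12) (.u (nat_lit 2) (.p (nat_lit 3) (nat_lit 1) (.p (nat_lit 4) (nat_lit 1) (.n (nat_lit 8) (nat_lit 1) (.n (nat_lit 9) (nat_lit 1) (.p (nat_lit 10) (nat_lit 1) (.n (nat_lit 12) (nat_lit 1) (.p (nat_lit 23) (nat_lit 1) (.p (nat_lit 24) (nat_lit 1) (.p (nat_lit 34) (nat_lit 1) (.p (nat_lit 37) (nat_lit 1) (.p (nat_lit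 38) (nat_lit 1) (.p (nat_lit 40) (nat_lit 1) (.p (nat_lit 42) (nat_lit 1) (.p (nat_lit 44) (nat_lit 1) (.n (nat_lit 147) (nat_lit 1) .z))))))))))))))) .nil)))))))))))))))))))))))))

noncomputable def dC2c_i8 : IL := (.e true (nat_lit 3) (nat_lit 220) (nat_lit 2) (nat_lit 16) (.e false (nat_lit 2) (nat_lit 221) (nat_lit 2) (nat_lit 16) (.e false (nat_lit 2) (nat_lit 222) (nat_lit 2) (nat_lit 16) (.e false (nat_lit 3) (nat_lit 223) (nat_lit 2) (nat_lit 16) (.e true (nat_lit 2) (nat_lit 226) (nat_lit 2) (nat_lit 16) (.e false (nat_lit 2) (nat_lit 227) (nat_lit 2) (nat_lit 16) (.e false (nat_lit 2) (nat_lit 228) (nat_lit 2) (nat_lit 16) (.e false (nat_lit 3) (nat_lit 229) (nat_lit 2) (nat_lit 16) (.e false (nat_lit 3) (nat_lit 230) (nat_lit 2) (nat_lit 16) (.e true (nat_lit 2) (nat_lit 231) (nat_lit 2) (nat_lit 16) (.e true (nat_lit 1) (nat_lit 232) (nat_lit 2) (nat_lit 16) (.e false (nat_lit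 2) (nat_lit 234) (nat_lit 2) (nat_lit 16) (.e false (nat_lit 2) (nat_lit 239) (nat_lit 2) (nat_lit 16) (.e false (nat_lit 3) (nat_lit 242) (nat_lit 2) (nat_lit 16) (.e false (nat_lit 3) (nat_lit 243) (nat_lit 2) (nat_lit 16) (.e true (nat_lit 1) (nat_lit 244) (nat_lit 2) (nat_lit 16) (.e false (nat_lit 2) (nat_lit 245) (nat_lit 2) (nat_lit 16) (.e false (nat_lit 1) (nat_lit 246) (nat_lit 2) (nat_lit 16) (.e false (nat_lit 2) (nat_lit 247) (nat_lit 2) (nat_lit 16) (.e true (nat_lit 1) (nat_lit 248) (nat_lit 2) (nat_lit 16) (.e false (nat_lit 1) (nat_lit 249) (nat_lit 2) (nat_lit 16) (.e true (nat_lit 2) (nat_lit 250) (nat_lit 2) (nat_lit 16) (.e true (nat_lit 2) (nat_lit 251) (nat_lit 2) (nat_lit 16) (.e false (nat_lit 1) (nat_lit 205) (nat_lit 2) (nat_lit 16) (.u (nat_lit 2) (.p (nat_lit 0) (nat_lit 1) (.n (nat_lit 1) (nat_lit 7) (.p (nat_lit 2) (nat_lit 4) (.p (nat_lit 3) (nat_lit 1) (.n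 (nat_lit 5) (nat_lit 3) (.p (nat_lit 6) (nat_lit 1) (.p (nat_lit 8) (nat_lit 1) (.n (nat_lit 9) (nat_lit 4) (.n (nat_lit 10) (nat_lit 2) (.p (nat_lit 11) (nat_lit 3) (.n (nat_lit 14) (nat_lit 4) (.p (nat_lit 15) (nat_lit 2) (.n (nat_lit 16) (nat_lit 3) (.p (nat_lit 17) (nat_lit 5) (.p (nat_lit 18) (nat_lit 1) (.n (nat_lit 19) (nat_lit 1) (.n (nat_lit 20) (nat_lit 3) (.p (nat_lit 21) (nat_lit 1) (.n (nat_lit 22) (nat_lit 1) (.p (nat_lit 24) (nat_lit 1) (.n (nat_lit 25) (nat_lit 2) (.p (nat_lit 26) (nat_lit 2) (.n (nat_lit 28) (nat_lit 1) (.p (nat_lit 29) (nat_lit 3) (.n (nat_lit 31) (nat_lit 3) (.n (nat_lit 32) (nat_lit 3) (.n (nat_lit 33) (nat_lit 2) (.p (nat_lit 34) (nat_lit 5) (.n (nat_lit 35) (nat_lit 2) (.n (nat_lit 36) (nat_lit 7) (.n (nat_lit 37) (nat_lit 2) (.p (nat_lit 38) (nat_lit 2) (.p (nat_lit 39) (nat_lit 2) (.n (nat_lit 40) (nat_lit 1) (.n (nat_lit 41) (nat_lit 1) (.n (nat_lit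 44) (nat_lit 1) (.p (nat_lit 45) (nat_lit 3) (.p (nat_lit 46) (nat_lit 3) (.p (nat_lit 47) (nat_lit 4) (.p (nat_lit 48) (nat_lit 4) (.n (nat_lit 50) (nat_lit 1) (.n (nat_lit 51) (nat_lit 1) (.p (nat_lit 53) (nat_lit 1) (.n (nat_lit 55) (nat_lit 1) (.p (nat_lit 61) (nat_lit 1) (.n (nat_lit 303) (nat_lit 1) (.p (nat_lit 308) (nat_lit 1) (.n (nat_lit 310) (nat_lit 1) (.p (nat_lit 312) (nat_lit 1) (.n (nat_lit 320) (nat_lit 1) .z)))))))))))))))))))))))))))))))))))))))))))))))))) .nil)))))))))))))))))))))))))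

noncomputable def dC2c_i9 : IL := (.e false (nat_lit 3) (nat_lit 214) (nat_lit 2) (nat_lit 16) (.e true (nat_lit 1) (nat_lit 215) (nat_lit 2) (nat_lit 16) (.e true (nat_lit 3) (nat_lit 216) (nat_lit 2) (nat_lit 16) (.e false (nat_lit 1) (nat_lit 217) (nat_lit 2) (nat_lit 16) (.e true (nat_lit 1) (nat_lit 219) (nat_lit 2) (nat_lit 16) (.e false (nat_lit 1) (nat_lit 220) (nat_lit 2) (nat_lit 16) (.e false (nat_lit 1) (nat_lit 222) (nat_lit 2) (nat_lit 16) (.e true (nat_lit 1) (nat_lit 226) (nat_lit 2) (nat_lit 16) (.e true (nat_lit 1) (nat_lit 227) (nat_lit 2) (nat_lit 16) (.e true (nat_lit 3) (nat_lit 229) (nat_lit 2) (nat_lit 16) (.e true (nat_lit 3) (nat_lit 230) (nat_lit 2) (nat_lit 16) (.e true (nat_lit 3) (nat_lit 231) (nat_lit 2) (nat_lit 16) (.e false (nat_lit 2) (nat_lit 232) (nat_lit 2) (nat_lit 16) (.e true (nat_lit 2) (nat_lit 234) (nat_lit 2) (nat_lit 16) (.e true (nat_lit 2)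 (nat_lit 239) (nat_lit 2) (nat_lit 16) (.e true (nat_lit 2) (nat_lit 243) (nat_lit 2) (nat_lit 16) (.e false (nat_lit 1) (nat_lit 244) (nat_lit 2) (nat_lit 16) (.e true (nat_lit 1) (nat_lit 245) (nat_lit 2) (nat_lit 16) (.e true (nat_lit 1) (nat_lit 246) (nat_lit 2) (nat_lit 16) (.e false (nat_lit 2) (nat_lit 247) (nat_lit 2) (nat_lit 16) (.e true (nat_lit 1) (nat_lit 248) (nat_lit 2) (nat_lit 16) (.e false (nat_lit 3) (nat_lit 249) (nat_lit 2) (nat_lit 16) (.e false (nat_lit 2) (nat_lit 250) (nat_lit 2) (nat_lit 16) (.e true (nat_lit 1) (nat_lit 251) (nat_lit 2) (nat_lit 16) (.u (nat_lit 2) (.p (nat_lit 0) (nat_lit 1) (.p (nat_lit 1) (nat_lit 5) (.n (nat_lit 2) (nat_lit 5) (.n (nat_lit 3) (nat_lit 3) (.p (nat_lit 4) (nat_lit 1) (.n (nat_lit 5) (nat_lit 1) (.n (nat_lit 7) (nat_lit 3) (.p (nat_lit 8) (nat_lit 5) (.n (nat_lit 9) (nat_lit 2) (.p (nat_lit 11) (nat_lit 3) (.p (nat_lit 12) (nat_lit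 2) (.n (nat_lit 15) (nat_lit 2) (.p (nat_lit 16) (nat_lit 1) (.n (nat_lit 17) (nat_lit 1) (.p (nat_lit 19) (nat_lit 1) (.n (nat_lit 20) (nat_lit 2) (.n (nat_lit 21) (nat_lit 1) (.p (nat_lit 22) (nat_lit 1) (.p (nat_lit 23) (nat_lit 3) (.n (nat_lit 24) (nat_lit 1) (.n (nat_lit 25) (nat_lit 5) (.n (nat_lit 26) (nat_lit 1) (.p (nat_lit 27) (nat_lit 3) (.n (nat_lit 28) (nat_lit 1) (.n (nat_lit 32) (nat_lit 1) (.p (nat_lit 33) (nat_lit 4) (.n (nat_lit 34) (nat_lit 5) (.p (nat_lit 35) (nat_lit 2) (.p (nat_lit 36) (nat_lit 5) (.p (nat_lit 37) (nat_lit 7) (.n (nat_lit 38) (nat_lit 4) (.n (nat_lit 39) (nat_lit 4) (.n (nat_lit 40) (nat_lit 1) (.n (nat_lit 41) (nat_lit 1) (.n (nat_lit 42) (nat_lit 1) (.n (nat_lit 44) (nat_lit 1) (.n (nat_lit 46) (nat_lit 2) (.p (nat_lit 47) (nat_lit 2) (.p (nat_lit 55) (nat_lit 1) .z))))))))))))))))))))))))))))))))))))))) .nil)))))))))))))))))))))))))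

noncomputable def dC2c_i10 : IL := (.e true (nat_lit 2) (nat_lit 259) (nat_lit 1) (nat_lit 17) (.e false (nat_lit 2) (nat_lit 260) (nat_lit 1) (nat_lit 17) (.e false (nat_lit 3) (nat_lit 261) (nat_lit 1) (nat_lit 17) (.e false (nat_lit 2) (nat_lit 262) (nat_lit 1) (nat_lit 17) (.e true (nat_lit 3) (nat_lit 263) (nat_lit 1) (nat_lit 17) (.e false (nat_lit 3) (nat_lit 264) (nat_lit 1) (nat_lit 17) (.e false (nat_lit 2) (nat_lit 265) (nat_lit 1) (nat_lit 17) (.e true (nat_lit 3) (nat_lit 267) (nat_lit 1) (nat_lit 17) (.e true (nat_lit 2) (nat_lit 269) (nat_lit 1) (nat_lit 17) (.e false (nat_lit 3) (nat_lit 271) (nat_lit 1) (nat_lit 17) (.e false (nat_lit 3) (nat_lit 273) (nat_lit 1) (nat_lit 17) (.e true (nat_lit 2) (nat_lit 274) (nat_lit 1) (nat_lit 17) (.e false (nat_lit 1) (nat_lit 275) (nat_lit 1) (nat_lit 17) (.e true (nat_lit 3) (nat_lit 276) (nat_lit 1) (nat_lit 17) (.e true (nat_lit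 2) (nat_lit 277) (nat_lit 1) (nat_lit 17) (.e true (nat_lit 1) (nat_lit 279) (nat_lit 1) (nat_lit 17) (.e false (nat_lit 1) (nat_lit 286) (nat_lit 1) (nat_lit 17) (.e true (nat_lit 1) (nat_lit 288) (nat_lit 1) (nat_lit 17) (.e false (nat_lit 1) (nat_lit 207) (nat_lit 2) (nat_lit 16) (.e false (nat_lit 1) (nat_lit 208) (nat_lit 2) (nat_lit 16) (.e true (nat_lit 1) (nat_lit 209) (nat_lit 2) (nat_lit 16) (.e true (nat_lit 2) (nat_lit 210) (nat_lit 2) (nat_lit 16) (.e true (nat_lit 3) (nat_lit 211) (nat_lit 2) (nat_lit 16) (.e true (nat_lit 1) (nat_lit 212) (nat_lit 2) (nat_lit 16) (.e true (nat_lit 3) (nat_lit 213) (nat_lit 2) (nat_lit 16) dC2c_i9)))))))))))))))))))))))))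

noncomputable def dC2c_i11 : IL := (.s false (nat_lit 1) (nat_lit 6) (nat_lit 0) (nat_lit 6) (nat_lit 2) true (nat_lit 5) true (nat_lit 8) true (nat_lit 4) true (nat_lit 10) true (nat_lit 4) (.s true (nat_lit 2) (nat_lit 6) (nat_lit 5) (nat_lit 2) (nat_lit 1) true (nat_lit 1) true (nat_lit 9) true (nat_lit 4) true (nat_lit 5) true (nat_lit 8) (.s false (nat_lit 1) (nat_lit 13) (nat_lit 1) (nat_lit 2) (nat_lit 2) true (nat_lit 4) true (nat_lit 8) true (nat_lit 1) true (nat_lit 9) true (nat_lit 8) (.s true (nat_lit 1) (nat_lit 15) (nat_lit 0) (nat_lit 2) (nat_lit 2) true (nat_lit 5) true (nat_lit 8) true (nat_lit 0) true (nat_lit 10) true (nat_lit 8) (.s false (nat_lit 2) (nat_lit 16) (nat_lit 2) (nat_lit 1) (nat_lit 1) true (nat_lit 4) true (nat_lit 9) false (nat_lit 0) true (nat_lit 8) true (nat_lit 9) (.s true (nat_lit 1) (nat_lit 18) (nat_lit 1) (nat_lit 0) (nat_lit 2) true (nat_lit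 4) true (nat_lit 8) false (nat_lit 1) true (nat_lit 9) true (nat_lit 10) (.s false (nat_lit 1) (nat_lit 18) (nat_lit 1) (nat_lit 2) (nat_lit 0) true (nat_lit 7) true (nat_lit 10) false (nat_lit 1) true (nat_lit 9) true (nat_lit 8) (.e true (nat_lit 1) (nat_lit 62) (nat_lit 2) (nat_lit 8) (.e false (nat_lit 2) (nat_lit 66) (nat_lit 2) (nat_lit 8) (.e true (nat_lit 2) (nat_lit 68) (nat_lit 2) (nat_lit 8) (.e true (nat_lit 2) (nat_lit 69) (nat_lit 2) (nat_lit 8) (.e true (nat_lit 3) (nat_lit 71) (nat_lit 2) (nat_lit 8) (.e true (nat_lit 2) (nat_lit 72) (nat_lit 2) (nat_lit 8) (.e true (nat_lit 2) (nat_lit 18) (nat_lit 12) (nat_lit 1) (.e false (nat_lit 2) (nat_lit 64) (nat_lit 2) (nat_lit 8) (.e false (nat_lit 1) (nat_lit 73) (nat_lit 2) (nat_lit 8) (.e true (nat_lit 1) (nat_lit 40) (nat_lit 5) (nat_lit 5) (.e true (nat_lit 1) (nat_lit 16) (nat_lit 15) (nat_lit 0) (.e false (nat_lit 1) (nat_lit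 61) (nat_lit 2) (nat_lit 8) (.e true (nat_lit 3) (nat_lit 63) (nat_lit 2) (nat_lit 8) (.e false (nat_lit 2) (nat_lit 67) (nat_lit 2) (nat_lit 8) (.e false (nat_lit 1) (nat_lit 18) (nat_lit 11) (nat_lit 1) (.e false (nat_lit 2) (nat_lit 89) (nat_lit 1) (nat_lit 9) (.e false (nat_lit 1) (nat_lit 45) (nat_lit 3) (nat_lit 7) (.u (nat_lit 2) (.p (nat_lit 7) (nat_lit 1) (.n (nat_lit 8) (nat_lit 1) .z)) .nil)))))))))))))))))))))))))

noncomputable def dC2c_i12 : IL := (.e true (nat_lit 1) (nat_lit 35) (nat_lit 14) (nat_lit 3) (.e true (nat_lit 1) (nat_lit 110) (nat_lit 2) (nat_lit 12) (.e false (nat_lit 1) (nat_lit 111) (nat_lit 2) (nat_lit 12) (.e true (nat_lit 2) (nat_lit 112) (nat_lit 2) (nat_lit 12) (.e false (nat_lit 3) (nat_lit 114) (nat_lit 2) (nat_lit 12) (.e false (nat_lit 3) (nat_lit 116) (nat_lit 2) (nat_lit 12) (.e false (nat_lit 1) (nat_lit 39) (nat_lit 13) (nat_lit 4) (.e false (nat_lit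 3) (nat_lit 106) (nat_lit 2) (nat_lit 12) (.e true (nat_lit 3) (nat_lit 107) (nat_lit 2) (nat_lit 12) (.e false (nat_lit 2) (nat_lit 108) (nat_lit 2) (nat_lit 12) (.e true (nat_lit 2) (nat_lit 109) (nat_lit 2) (nat_lit 12) (.e false (nat_lit 1) (nat_lit 113) (nat_lit 2) (nat_lit 12) (.e false (nat_lit 3) (nat_lit 117) (nat_lit 2) (nat_lit 12) (.e true (nat_lit 3) (nat_lit 118) (nat_lit 2) (nat_lit 12) (.e false (nat_lit 2) (nat_lit 119) (nat_lit 2) (nat_lit 12) (.e false (nat_lit 2) (nat_lit 120) (nat_lit 2) (nat_lit 12) (.e false (nat_lit 1) (nat_lit 121) (nat_lit 2) (nat_lit 12) (.e true (nat_lit 3) (nat_lit 122) (nat_lit 2) (nat_lit 12) (.e true (nat_lit 2) (nat_lit 123) (nat_lit 2) (nat_lit 12) (.e false (nat_lit 2) (nat_lit 124) (nat_lit 2) (nat_lit 12) (.e true (nat_lit 2) (nat_lit 126) (nat_lit 2) (nat_lit 12) (.e true (nat_lit 3) (nat_lit 127) (nat_lit 2) (nat_lit 12) (.e false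 (nat_lit 1) (nat_lit 130) (nat_lit 2) (nat_lit 12) (.e false (nat_lit 2) (nat_lit 131) (nat_lit 2) (nat_lit 12) (.u (nat_lit 2) (.n (nat_lit 1) (nat_lit 1) (.p (nat_lit 7) (nat_lit 1) (.p (nat_lit 11) (nat_lit 1) (.p (nat_lit 14) (nat_lit 1) (.n (nat_lit 16) (nat_lit 1) (.n (nat_lit 17) (nat_lit 1) (.p (nat_lit 25) (nat_lit 1) (.p (nat_lit 26) (nat_lit 1) (.p (nat_lit 33) (nat_lit 1) (.p (nat_lit 34) (nat_lit 1) (.p (nat_lit 43) (nat_lit 1) .z))))))))))) .nil)))))))))))))))))))))))))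

noncomputable def dC2c_i13 : IL := (.e false (nat_lit 1) (nat_lit 183) (nat_lit 1) (nat_lit 12) (.e true (nat_lit 1) (nat_lit 47) (nat_lit 13) (nat_lit 4) (.e false (nat_lit 2) (nat_lit 132) (nat_lit 2) (nat_lit 11) (.e true (nat_lit 2) (nat_lit 133) (nat_lit 2) (nat_lit 11) (.e false (nat_lit 1) (nat_lit 134) (nat_lit 2) (nat_lit 11) (.e false (nat_lit 2) (nat_lit 135) (nat_lit 2) (nat_lit 11) (.e false (nat_lit 2) (nat_lit 137) (nat_lit 2) (nat_lit 11) (.e false (nat_lit 1) (nat_lit 138) (nat_lit 2) (nat_lit 11) (.e true (nat_lit 3) (nat_lit 139) (nat_lit 2) (nat_lit 11) (.e false (nat_lit 3) (nat_lit 140) (nat_lit 2) (nat_lit 11) (.e true (nat_lit 3) (nat_lit 141) (nat_lit 2) (nat_lit 11) (.e true (nat_lit 1) (nat_lit 142) (nat_lit 2) (nat_lit 11) (.e true (nat_lit 3) (nat_lit 143) (nat_lit 2) (nat_lit 11) (.e true (nat_lit 1) (nat_lit 144) (nat_lit 2) (nat_lit 11) (.e true (nat_lit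 1) (nat_lit 145) (nat_lit 2) (nat_lit 11) (.e true (nat_lit 3) (nat_lit 147) (nat_lit 2) (nat_lit 11) (.e false (nat_lit 1) (nat_lit 149) (nat_lit 2) (nat_lit 11) (.e true (nat_lit 1) (nat_lit 150) (nat_lit 2) (nat_lit 11) (.e true (nat_lit 2) (nat_lit 151) (nat_lit 2) (nat_lit 11) (.e true (nat_lit 1) (nat_lit 153) (nat_lit 2) (nat_lit 11) (.e true (nat_lit 1) (nat_lit 154) (nat_lit 2) (nat_lit 11) (.e true (nat_lit 3) (nat_lit 155) (nat_lit 2) (nat_lit 11) (.e false (nat_lit 2) (nat_lit 156) (nat_lit 2) (nat_lit 11) (.e false (nat_lit 1) (nat_lit 64) (nat_lit 7) (nat_lit 6) (.u (nat_lit 2) (.p (nat_lit 3) (nat_lit 1) (.n (nat_lit 4) (nat_lit 1) (.n (nat_lit 7) (nat_lit 1) (.p (nat_lit 8) (nat_lit 1) (.n (nat_lit 9) (nat_lit 1) (.n (nat_lit 10) (nat_lit 1) (.n (nat_lit 11) (nat_lit 1) (.p (nat_lit 13) (nat_lit 1) (.n (nat_lit 15) (nat_lit 1) (.n (nat_lit 21) (nat_lit 1) (.p (nat_lit 22)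 (nat_lit 1) (.n (nat_lit 23) (nat_lit 1) (.p (nat_lit 25) (nat_lit 1) .z))))))))))))) .nil)))))))))))))))))))))))))

noncomputable def dC2c_i14 : IL := (.e true (nat_lit 2) (nat_lit 306) (nat_lit 1) (nat_lit 15) (.e false (nat_lit 1) (nat_lit 307) (nat_lit 1) (nat_lit 15) (.e true (nat_lit 2) (nat_lit 308) (nat_lit 1) (nat_lit 15) (.e false (nat_lit 3) (nat_lit 309) (nat_lit 1) (nat_lit 15) (.e true (nat_lit 3) (nat_lit 310) (nat_lit 1) (nat_lit 15) (.e true (nat_lit 3) (nat_lit 313) (nat_lit 1) (nat_lit 15) (.e false (nat_lit 2) (nat_lit 314) (nat_lit 1) (nat_lit 15) (.e false (nat_lit 1) (nat_lit 315) (nat_lit 1) (nat_lit 15) (.e false (nat_lit 2) (nat_lit 318) (nat_lit 1) (nat_lit 15) (.e true (nat_lit 1) (nat_lit 323) (nat_lit 1) (nat_lit 15) (.e true (nat_lit 1) (nat_lit 69) (nat_lit 20) (nat_lit 3) (.e true (nat_lit 1) (nat_lit 324) (nat_lit 0) (nat_lit 16) (.e false (nat_lit 1) (nat_lit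 325) (nat_lit 0) (nat_lit 16) (.e true (nat_lit 3) (nat_lit 326) (nat_lit 0) (nat_lit 16) (.e true (nat_lit 3) (nat_lit 327) (nat_lit 0) (nat_lit 16) (.e false (nat_lit 1) (nat_lit 328) (nat_lit 0) (nat_lit 16) (.e true (nat_lit 1) (nat_lit 329) (nat_lit 0) (nat_lit 16) (.e true (nat_lit 3) (nat_lit 331) (nat_lit 0) (nat_lit 16) (.e false (nat_lit 1) (nat_lit 333) (nat_lit 0) (nat_lit 16) (.e false (nat_lit 1) (nat_lit 334) (nat_lit 0) (nat_lit 16) (.e false (nat_lit 2) (nat_lit 82) (nat_lit 18) (nat_lit 4) (.e false (nat_lit 1) (nat_lit 84) (nat_lit 18) (nat_lit 4) (.e false (nat_lit 2) (nat_lit 85) (nat_lit 18) (nat_lit 4) (.e true (nat_lit 1) (nat_lit 88) (nat_lit 18) (nat_lit 4) (.u (nat_lit 2) (.n (nat_lit 0) (nat_lit 1) (.n (nat_lit 1) (nat_lit 1) (.n (nat_lit 3) (nat_lit 1) (.n (nat_lit 4) (nat_lit 1) (.n (nat_lit 5) (nat_lit 2) (.p (nat_lit 6) (nat_lit 1) (.n (nat_lit 7) (nat_lit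 1) (.n (nat_lit 13) (nat_lit 1) (.p (nat_lit 14) (nat_lit 1) (.p (nat_lit 17) (nat_lit 1) (.n (nat_lit 23) (nat_lit 1) (.p (nat_lit 24) (nat_lit 2) (.p (nat_lit 35) (nat_lit 1) (.n (nat_lit 38) (nat_lit 1) .z)))))))))))))) .nil)))))))))))))))))))))))))

noncomputable def dC2c_i15 : IL := (.e false (nat_lit 2) (nat_lit 318) (nat_lit 1) (nat_lit 15) (.e false (nat_lit 1) (nat_lit 132) (nat_lit 7) (nat_lit 9) (.e true (nat_lit 3) (nat_lit 133) (nat_lit 7) (nat_lit 9) (.e false (nat_lit 3) (nat_lit 134) (nat_lit 7) (nat_lit 9) (.e false (nat_lit 1) (nat_lit 135) (nat_lit 7) (nat_lit 9) (.e true (nat_lit 2) (nat_lit 137) (nat_lit 7) (nat_lit 9) (.e false (nat_lit 2) (nat_lit 138) (nat_lit 7) (nat_lit 9) (.e false (nat_lit 3) (nat_lit 139) (nat_lit 7) (nat_lit 9) (.e true (nat_lit 3) (nat_lit 140) (nat_lit 7) (nat_lit 9) (.e false (nat_lit 3) (nat_lit 141) (nat_lit 7) (nat_lit 9) (.e false (nat_lit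 2) (nat_lit 142) (nat_lit 7) (nat_lit 9) (.e false (nat_lit 2) (nat_lit 143) (nat_lit 7) (nat_lit 9) (.e true (nat_lit 3) (nat_lit 144) (nat_lit 7) (nat_lit 9) (.e false (nat_lit 1) (nat_lit 145) (nat_lit 7) (nat_lit 9) (.e true (nat_lit 3) (nat_lit 147) (nat_lit 7) (nat_lit 9) (.e true (nat_lit 3) (nat_lit 149) (nat_lit 7) (nat_lit 9) (.e true (nat_lit 3) (nat_lit 150) (nat_lit 7) (nat_lit 9) (.e true (nat_lit 2) (nat_lit 151) (nat_lit 7) (nat_lit 9) (.e false (nat_lit 3) (nat_lit 153) (nat_lit 7) (nat_lit 9) (.e false (nat_lit 3) (nat_lit 154) (nat_lit 7) (nat_lit 9) (.e false (nat_lit 2) (nat_lit 156) (nat_lit 7) (nat_lit 9) (.e false (nat_lit 1) (nat_lit 136) (nat_lit 7) (nat_lit 9) (.e false (nat_lit 2) (nat_lit 152) (nat_lit 7) (nat_lit 9) (.e true (nat_lit 2) (nat_lit 157) (nat_lit 7) (nat_lit 9) (.u (nat_lit 2) (.p (nat_lit 0) (nat_lit 3) (.n (nat_lit 1) (nat_lit 3) (.p (nat_lit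 2) (nat_lit 2) (.p (nat_lit 3) (nat_lit 5) (.p (nat_lit 4) (nat_lit 4) (.n (nat_lit 5) (nat_lit 3) (.p (nat_lit 7) (nat_lit 1) (.p (nat_lit 8) (nat_lit 2) (.p (nat_lit 9) (nat_lit 2) (.n (nat_lit 10) (nat_lit 6) (.n (nat_lit 11) (nat_lit 3) (.p (nat_lit 12) (nat_lit 1) (.n (nat_lit 13) (nat_lit 2) (.p (nat_lit 14) (nat_lit 3) (.p (nat_lit 15) (nat_lit 4) (.p (nat_lit 16) (nat_lit 4) (.p (nat_lit 17) (nat_lit 5) (.p (nat_lit 18) (nat_lit 3) (.p (nat_lit 21) (nat_lit 4) (.p (nat_lit 23) (nat_lit 3) (.n (nat_lit 24) (nat_lit 1) (.p (nat_lit 25) (nat_lit 1) (.n (nat_lit 34) (nat_lit 2) (.p (nat_lit 35) (nat_lit 3) (.p (nat_lit 38) (nat_lit 1) (.p (nat_lit 143) (nat_lit 1) (.n (nat_lit 144) (nat_lit 1) (.p (nat_lit 154) (nat_lit 1) (.p (nat_lit 157) (nat_lit 1) (.p (nat_lit 160) (nat_lit 1) (.p (nat_lit 161) (nat_lit 1) (.n (nat_lit 166) (nat_lit 1) .z)))))))))))))))))))))))))))))))) .nil)))))))))))))))))))))))))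

noncomputable def dC2c_c51 : Cm := .mk (nat_lit 290) (nat_lit 51) (nat_lit 158) (nat_lit 11) (.c (nat_lit 18) (nat_lit 2) (nat_lit 14) (nat_lit 2) (nat_lit 11) (.c (nat_lit 20) (nat_lit 1) (nat_lit 10) (nat_lit 1) (nat_lit 15) (.c (nat_lit 30) (nat_lit 3) (nat_lit 7) (nat_lit 1) (nat_lit 16) (.c (nat_lit 39) (nat_lit 3) (nat_lit 6) (nat_lit 1) (nat_lit 19) (.c (nat_lit 45) (nat_lit 3) (nat_lit 4) (nat_lit 1) (nat_lit 22) (.c (nat_lit 74) (nat_lit 6) (nat_lit 2) (nat_lit 1) (nat_lit 25) (.c (nat_lit 91) (nat_lit 6) (nat_lit 1) (nat_lit 1) (nat_lit 31) .nil)))))))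

noncomputable def dC2c_i16 : IL := (.e false (nat_lit 1) (nat_lit 64) (nat_lit 7) (nat_lit 6) (.e true (nat_lit 1) (nat_lit 65) (nat_lit 7) (nat_lit 6) (.e true (nat_lit 1) (nat_lit 67) (nat_lit 7) (nat_lit 6) (.e false (nat_lit 1) (nat_lit 68) (nat_lit 7) (nat_lit 6) (.e true (nat_lit 2) (nat_lit 71) (nat_lit 7) (nat_lit 6) (.e true (nat_lit 1) (nat_lit 73) (nat_lit 7) (nat_lit 6) (.e false (nat_lit 2) (nat_lit 133) (nat_lit 2) (nat_lit 11) (.e false (nat_lit 1) (nat_lit 134) (nat_lit 2) (nat_lit 11) (.e false (nat_lit 2) (nat_lit 135) (nat_lit 2) (nat_lit 11) (.e true (nat_lit 1) (nat_lit 136) (nat_lit 2) (nat_lit 11) (.e false (nat_lit 2) (nat_lit 138) (nat_lit 2) (nat_lit 11) (.e true (nat_lit 1) (nat_lit 139) (nat_lit 2) (nat_lit 11) (.e false (nat_lit 1) (nat_lit 140) (nat_lit 2) (nat_lit 11) (.e false (nat_lit 2) (nat_lit 141) (nat_lit 2) (nat_lit 11) (.e false (nat_lit 1) (nat_lit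 142) (nat_lit 2) (nat_lit 11) (.e true (nat_lit 1) (nat_lit 143) (nat_lit 2) (nat_lit 11) (.e true (nat_lit 1) (nat_lit 144) (nat_lit 2) (nat_lit 11) (.e false (nat_lit 2) (nat_lit 145) (nat_lit 2) (nat_lit 11) (.e false (nat_lit 1) (nat_lit 152) (nat_lit 2) (nat_lit 11) (.e true (nat_lit 1) (nat_lit 154) (nat_lit 2) (nat_lit 11) (.e false (nat_lit 2) (nat_lit 155) (nat_lit 2) (nat_lit 11) (.e true (nat_lit 1) (nat_lit 42) (nat_lit 14) (nat_lit 3) (.e false (nat_lit 3) (nat_lit 147) (nat_lit 2) (nat_lit 11) (.e false (nat_lit 2) (nat_lit 150) (nat_lit 2) (nat_lit 11) (.u (nat_lit 2) (.p (nat_lit 1) (nat_lit 1) (.n (nat_lit 4) (nat_lit 1) (.p (nat_lit 6) (nat_lit 2) (.n (nat_lit 11) (nat_lit 1) (.n (nat_lit 12) (nat_lit 2) (.p (nat_lit 13) (nat_lit 2) (.p (nat_lit 14) (nat_lit 1) (.p (nat_lit 15) (nat_lit 1) (.p (nat_lit 17) (nat_lit 1) (.p (nat_lit 18) (nat_lit 1) (.p (nat_lit 20) (nat_lit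 2) (.p (nat_lit 24) (nat_lit 1) (.p (nat_lit 25) (nat_lit 1) (.p (nat_lit 31) (nat_lit 1) (.n (nat_lit 33) (nat_lit 1) (.n (nat_lit 123) (nat_lit 1) (.p (nat_lit 128) (nat_lit 1) .z))))))))))))))))) .nil)))))))))))))))))))))))))

noncomputable def dC2c_c52 : Cm := .mk (nat_lit 693) (nat_lit 52) (nat_lit 289) (nat_lit 16) (.c (nat_lit 30) (nat_lit 3) (nat_lit 20) (nat_lit 1) (nat_lit 16) (.c (nat_lit 39) (nat_lit 3) (nat_lit 18) (nat_lit 2) (nat_lit 19) (.c (nat_lit 45) (nat_lit 3) (nat_lit 14) (nat_lit 2) (nat_lit 25) (.c (nat_lit 48) (nat_lit 1) (nat_lit 10) (nat_lit 1) (nat_lit 31) (.c (nat_lit 74) (nat_lit 6) (nat_lit 7) (nat_lit 1) (nat_lit 32) (.c (nat_lit 91) (nat_lit 6) (nat_lit 6) (nat_lit 1) (nat_lit 38) (.c (nat_lit 101) (nat_lit 4) (nat_lit 4) (nat_lit 1) (nat_lit 44) (.c (nat_lit 158) (nat_lit 11) (nat_lit 2) (nat_lit 1) (nat_lit 48) (.c (nat_lit 185) (nat_lit 10) (nat_lit 1)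 (nat_lit 1) (nat_lit 59) .nil)))))))))

noncomputable def dC2c_i17 : IL := (.e false (nat_lit 1) (nat_lit 258) (nat_lit 1) (nat_lit 17) (.e false (nat_lit 2) (nat_lit 259) (nat_lit 1) (nat_lit 17) (.e true (nat_lit 2) (nat_lit 260) (nat_lit 1) (nat_lit 17) (.e false (nat_lit 1) (nat_lit 262) (nat_lit 1) (nat_lit 17) (.e true (nat_lit 3) (nat_lit 263) (nat_lit 1) (nat_lit 17) (.e true (nat_lit 1) (nat_lit 264) (nat_lit 1) (nat_lit 17) (.e true (nat_lit 1) (nat_lit 265) (nat_lit 1) (nat_lit 17) (.e true (nat_lit 1) (nat_lit 267) (nat_lit 1) (nat_lit 17) (.e true (nat_lit 1) (nat_lit 269) (nat_lit 1) (nat_lit 17) (.e true (nat_lit 3) (nat_lit 270) (nat_lit 1) (nat_lit 17) (.e true (nat_lit 2) (nat_lit 271) (nat_lit 1) (nat_lit 17) (.e false (nat_lit 1) (nat_lit 272) (nat_lit 1) (nat_lit 17) (.e true (nat_lit 2) (nat_lit 273) (nat_lit 1) (nat_lit 17) (.e true (nat_lit 2) (nat_lit 274) (nat_lit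 1) (nat_lit 17) (.e true (nat_lit 2) (nat_lit 275) (nat_lit 1) (nat_lit 17) (.e false (nat_lit 2) (nat_lit 276) (nat_lit 1) (nat_lit 17) (.e true (nat_lit 1) (nat_lit 277) (nat_lit 1) (nat_lit 17) (.e false (nat_lit 1) (nat_lit 286) (nat_lit 1) (nat_lit 17) (.e false (nat_lit 3) (nat_lit 55) (nat_lit 20) (nat_lit 4) (.e true (nat_lit 1) (nat_lit 92) (nat_lit 12) (nat_lit 8) (.e true (nat_lit 3) (nat_lit 93) (nat_lit 12) (nat_lit 8) (.e true (nat_lit 1) (nat_lit 94) (nat_lit 12) (nat_lit 8) (.e false (nat_lit 3) (nat_lit 95) (nat_lit 12) (nat_lit 8) (.e false (nat_lit 1) (nat_lit 96) (nat_lit 12) (nat_lit 8) (.u (nat_lit 2) (.p (nat_lit 0) (nat_lit 1) (.n (nat_lit 2) (nat_lit 2) (.n (nat_lit 5) (nat_lit 4) (.n (nat_lit 6) (nat_lit 1) (.n (nat_lit 7) (nat_lit 1) (.p (nat_lit 10) (nat_lit 1) (.n (nat_lit 11) (nat_lit 2) (.n (nat_lit 14) (nat_lit 3) (.p (nat_lit 15) (nat_lit 1) (.n (nat_lit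 16) (nat_lit 2) (.n (nat_lit 17) (nat_lit 1) (.p (nat_lit 18) (nat_lit 7) (.p (nat_lit 19) (nat_lit 1) (.p (nat_lit 20) (nat_lit 4) (.p (nat_lit 21) (nat_lit 1) (.p (nat_lit 23) (nat_lit 2) (.n (nat_lit 24) (nat_lit 2) (.n (nat_lit 25) (nat_lit 2) (.p (nat_lit 27) (nat_lit 1) (.p (nat_lit 28) (nat_lit 1) (.p (nat_lit 29) (nat_lit 3) (.p (nat_lit 32) (nat_lit 2) (.n (nat_lit 33) (nat_lit 3) (.n (nat_lit 35) (nat_lit 2) (.p (nat_lit 36) (nat_lit 3) (.n (nat_lit 37) (nat_lit 2) (.p (nat_lit 38) (nat_lit 3) (.n (nat_lit 39) (nat_lit 1) (.p (nat_lit 45) (nat_lit 1) (.p (nat_lit 46) (nat_lit 1) (.n (nat_lit 52) (nat_lit 1) (.n (nat_lit 53) (nat_lit 1) (.p (nat_lit 57) (nat_lit 1) (.n (nat_lit 61) (nat_lit 1) (.p (nat_lit 189) (nat_lit 1) (.p (nat_lit 190) (nat_lit 1) (.p (nat_lit 192) (nat_lit 1) (.n (nat_lit 194) (nat_lit 1) (.n (nat_lit 352) (nat_lit 1) (.n (nat_lit 354) (nat_lit 1) (.n (nat_lit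 355) (nat_lit 1) (.p (nat_lit 356) (nat_lit 1) (.n (nat_lit 357) (nat_lit 1) (.n (nat_lit 359) (nat_lit 1) (.p (nat_lit 361) (nat_lit 1) (.p (nat_lit 362) (nat_lit 1) (.p (nat_lit 364) (nat_lit 1) (.p (nat_lit 366) (nat_lit 1) (.n (nat_lit 368) (nat_lit 1) (.n (nat_lit 369) (nat_lit 1) (.n (nat_lit 370) (nat_lit 1) (.n (nat_lit 371) (nat_lit 1) (.p (nat_lit 372) (nat_lit 2) (.p (nat_lit 373) (nat_lit 1) (.p (nat_lit 374) (nat_lit 1) (.n (nat_lit 383) (nat_lit 1) .z)))))))))))))))))))))))))))))))))))))))))))))))))))))))) .nil)))))))))))))))))))))))))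

noncomputable def dC2c_i18 : IL := (.e false (nat_lit 2) (nat_lit 270) (nat_lit 1) (nat_lit 17) (.e true (nat_lit 2) (nat_lit 271) (nat_lit 1) (nat_lit 17) (.e false (nat_lit 1) (nat_lit 272) (nat_lit 1) (nat_lit 17) (.e false (nat_lit 1) (nat_lit 273) (nat_lit 1) (nat_lit 17) (.e false (nat_lit 1) (nat_lit 274) (nat_lit 1) (nat_lit 17) (.e false (nat_lit 3) (nat_lit 275) (nat_lit 1) (nat_lit 17) (.e false (nat_lit 2) (nat_lit 276) (nat_lit 1) (nat_lit 17) (.e true (nat_lit 1) (nat_lit 283) (nat_lit 1) (nat_lit 17) (.e false (nat_lit 1) (nat_lit 284) (nat_lit 1) (nat_lit 17) (.e false (nat_lit 2) (nat_lit 285) (nat_lit 1) (nat_lit 17) (.e true (nat_lit 1) (nat_lit 286) (nat_lit 1) (nat_lit 17) (.e false (nat_lit 3) (nat_lit 56) (nat_lit 20) (nat_lit 4) (.e false (nat_lit 2) (nat_lit 253) (nat_lit 1) (nat_lit 17) (.e false (nat_lit 1) (nat_lit 255) (nat_lit 1) (nat_lit 17) (.e true (nat_lit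 3) (nat_lit 263) (nat_lit 1) (nat_lit 17) (.e true (nat_lit 2) (nat_lit 265) (nat_lit 1) (nat_lit 17) (.e true (nat_lit 3) (nat_lit 269) (nat_lit 1) (nat_lit 17) (.e true (nat_lit 3) (nat_lit 277) (nat_lit 1) (nat_lit 17) (.e true (nat_lit 1) (nat_lit 92) (nat_lit 13) (nat_lit 8) (.e true (nat_lit 3) (nat_lit 93) (nat_lit 13) (nat_lit 8) (.e true (nat_lit 1) (nat_lit 94) (nat_lit 13) (nat_lit 8) (.e false (nat_lit 3) (nat_lit 95) (nat_lit 13) (nat_lit 8) (.e false (nat_lit 1) (nat_lit 96) (nat_lit 13) (nat_lit 8) (.u (nat_lit 2) (.p (nat_lit 0) (nat_lit 3) (.n (nat_lit 1) (nat_lit 4) (.p (nat_lit 2) (nat_lit 1) (.p (nat_lit 3) (nat_lit 3) (.p (nat_lit 4) (nat_lit 1) (.p (nat_lit 5) (nat_lit 2) (.n (nat_lit 7) (nat_lit 4) (.p (nat_lit 8) (nat_lit 3) (.p (nat_lit 9) (nat_lit 4) (.p (nat_lit 11) (nat_lit 1) (.n (nat_lit 12) (nat_lit 1) (.n (nat_lit 13) (nat_lit 1) (.n (nat_lit 14) (nat_lit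 3) (.n (nat_lit 15) (nat_lit 1) (.p (nat_lit 16) (nat_lit 2) (.n (nat_lit 17) (nat_lit 1) (.p (nat_lit 18) (nat_lit 1) (.n (nat_lit 19) (nat_lit 4) (.p (nat_lit 20) (nat_lit 3) (.n (nat_lit 21) (nat_lit 1) (.n (nat_lit 22) (nat_lit 2) (.p (nat_lit 23) (nat_lit 1) (.n (nat_lit 24) (nat_lit 1) (.n (nat_lit 26) (nat_lit 1) (.n (nat_lit 28) (nat_lit 3) (.n (nat_lit 30) (nat_lit 1) (.p (nat_lit 31) (nat_lit 2) (.p (nat_lit 32) (nat_lit 2) (.n (nat_lit 33) (nat_lit 3) (.n (nat_lit 34) (nat_lit 1) (.p (nat_lit 35) (nat_lit 3) (.n (nat_lit 36) (nat_lit 1) (.p (nat_lit 37) (nat_lit 1) (.p (nat_lit 38) (nat_lit 1) (.n (nat_lit 40) (nat_lit 1) (.n (nat_lit 43) (nat_lit 1) (.p (nat_lit 45) (nat_lit 2) (.p (nat_lit 46) (nat_lit 2) (.n (nat_lit 48) (nat_lit 3) (.n (nat_lit 49) (nat_lit 1) (.n (nat_lit 52) (nat_lit 1) (.n (nat_lit 53) (nat_lit 1) (.p (nat_lit 56) (nat_lit 1) (.p (nat_lit 57) (nat_lit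 1) (.p (nat_lit 58) (nat_lit 1) (.n (nat_lit 61) (nat_lit 1) (.p (nat_lit 195) (nat_lit 1) (.p (nat_lit 196) (nat_lit 1) (.p (nat_lit 198) (nat_lit 1) (.n (nat_lit 200) (nat_lit 1) (.p (nat_lit 349) (nat_lit 1) (.p (nat_lit 350) (nat_lit 1) (.n (nat_lit 351) (nat_lit 1) (.n (nat_lit 352) (nat_lit 1) (.n (nat_lit 353) (nat_lit 1) (.n (nat_lit 354) (nat_lit 1) (.p (nat_lit 355) (nat_lit 1) (.p (nat_lit 358) (nat_lit 2) (.p (nat_lit 361) (nat_lit 1) (.n (nat_lit 362) (nat_lit 1) .z)))))))))))))))))))))))))))))))))))))))))))))))))))))))))))) (.u (nat_lit 2) (.p (nat_lit 367) (nat_lit 1) (.n (nat_lit 368) (nat_lit 1) (.p (nat_lit 369) (nat_lit 2) (.n (nat_lit 370) (nat_lit 1) (.p (nat_lit 371) (nat_lit 2) (.p (nat_lit 373) (nat_lit 1) (.n (nat_lit 380) (nat_lit 2) (.n (nat_lit 381) (nat_lit 1) (.p (nat_lit 382) (nat_lit 1) (.p (nat_lit 383) (nat_lit 1) .z)))))))))) .nil)))))))))))))))))))))))))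

noncomputable def dC2c_i19 : IL := (.e true (nat_lit 2) (nat_lit 260) (nat_lit 2) (nat_lit 14) (.e true (nat_lit 1) (nat_lit 261) (nat_lit 2) (nat_lit 14) (.e true (nat_lit 1) (nat_lit 263) (nat_lit 2) (nat_lit 14) (.e true (nat_lit 2) (nat_lit 265) (nat_lit 2) (nat_lit 14) (.e true (nat_lit 1) (nat_lit 269) (nat_lit 2) (nat_lit 14) (.e false (nat_lit 1) (nat_lit 270) (nat_lit 2) (nat_lit 14) (.e true (nat_lit 2) (nat_lit 271) (nat_lit 2) (nat_lit 14) (.e true (nat_lit 2) (nat_lit 272) (nat_lit 2) (nat_lit 14) (.e true (nat_lit 3) (nat_lit 275) (nat_lit 2) (nat_lit 14) (.e true (nat_lit 3) (nat_lit 276) (nat_lit 2) (nat_lit 14) (.e false (nat_lit 1) (nat_lit 334) (nat_lit 0) (nat_lit 16) (.e true (nat_lit 3) (nat_lit 252) (nat_lit 2) (nat_lit 14) (.e false (nat_lit 3) (nat_lit 256) (nat_lit 2) (nat_lit 14) (.e true (nat_lit 2) (nat_lit 258) (nat_lit 2) (nat_lit 14) (.e false (nat_lit 3)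 (nat_lit 262) (nat_lit 2) (nat_lit 14) (.e false (nat_lit 2) (nat_lit 266) (nat_lit 2) (nat_lit 14) (.e true (nat_lit 2) (nat_lit 273) (nat_lit 2) (nat_lit 14) (.e false (nat_lit 2) (nat_lit 279) (nat_lit 2) (nat_lit 14) (.e true (nat_lit 2) (nat_lit 282) (nat_lit 2) (nat_lit 14) (.e false (nat_lit 3) (nat_lit 283) (nat_lit 2) (nat_lit 14) (.e true (nat_lit 1) (nat_lit 284) (nat_lit 2) (nat_lit 14) (.e true (nat_lit 3) (nat_lit 285) (nat_lit 2) (nat_lit 14) (.e false (nat_lit 1) (nat_lit 286) (nat_lit 2) (nat_lit 14) (.e true (nat_lit 2) (nat_lit 288) (nat_lit 2) (nat_lit 14) (.u (nat_lit 2) (.p (nat_lit 0) (nat_lit 1) (.n (nat_lit 1) (nat_lit 3) (.n (nat_lit 2) (nat_lit 2) (.n (nat_lit 3) (nat_lit 2) (.n (nat_lit 4) (nat_lit 1) (.p (nat_lit 5) (nat_lit 5) (.n (nat_lit 6) (nat_lit 1) (.p (nat_lit 7) (nat_lit 2) (.n (nat_lit 8) (nat_lit 2) (.n (nat_lit 9) (nat_lit 4) (.n (nat_lit 11) (nat_lit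 1) (.n (nat_lit 12) (nat_lit 6) (.n (nat_lit 13) (nat_lit 2) (.p (nat_lit 14) (nat_lit 2) (.p (nat_lit 15) (nat_lit 6) (.p (nat_lit 16) (nat_lit 6) (.n (nat_lit 17) (nat_lit 2) (.p (nat_lit 18) (nat_lit 3) (.p (nat_lit 19) (nat_lit 1) (.n (nat_lit 21) (nat_lit 2) (.n (nat_lit 23) (nat_lit 3) (.p (nat_lit 24) (nat_lit 4) (.n (nat_lit 25) (nat_lit 1) (.n (nat_lit 27) (nat_lit 1) (.n (nat_lit 33) (nat_lit 2) (.p (nat_lit 34) (nat_lit 2) (.p (nat_lit 35) (nat_lit 2) (.p (nat_lit 38) (nat_lit 1) (.p (nat_lit 206) (nat_lit 1) (.p (nat_lit 213) (nat_lit 1) (.p (nat_lit 228) (nat_lit 1) .z))))))))))))))))))))))))))))))) .nil)))))))))))))))))))))))))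

noncomputable def dC2c_i20 : IL := (.e true (nat_lit 2) (nat_lit 253) (nat_lit 2) (nat_lit 14) (.e true (nat_lit 3) (nat_lit 254) (nat_lit 2) (nat_lit 14) (.e false (nat_lit 3) (nat_lit 255) (nat_lit 2) (nat_lit 14) (.e false (nat_lit 1) (nat_lit 256) (nat_lit 2) (nat_lit 14) (.e false (nat_lit 2) (nat_lit 258) (nat_lit 2) (nat_lit 14) (.e true (nat_lit 3) (nat_lit 259) (nat_lit 2) (nat_lit 14) (.e false (nat_lit 3) (nat_lit 260) (nat_lit 2) (nat_lit 14) (.e false (nat_lit 2) (nat_lit 262) (nat_lit 2) (nat_lit 14) (.e false (nat_lit 3) (nat_lit 263) (nat_lit 2) (nat_lit 14) (.e false (nat_lit 1) (nat_lit 264) (nat_lit 2) (nat_lit 14) (.e false (nat_lit 3) (nat_lit 265) (nat_lit 2) (nat_lit 14) (.e true (nat_lit 1) (nat_lit 266) (nat_lit 2) (nat_lit 14) (.e true (nat_lit 2) (nat_lit 267) (nat_lit 2) (nat_lit 14) (.e false (nat_lit 1) (nat_lit 269) (nat_lit 2) (nat_lit 14) (.e false (nat_lit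 2) (nat_lit 272) (nat_lit 2) (nat_lit 14) (.e true (nat_lit 2) (nat_lit 273) (nat_lit 2) (nat_lit 14) (.e false (nat_lit 2) (nat_lit 274) (nat_lit 2) (nat_lit 14) (.e true (nat_lit 3) (nat_lit 277) (nat_lit 2) (nat_lit 14) (.e true (nat_lit 2) (nat_lit 279) (nat_lit 2) (nat_lit 14) (.e true (nat_lit 3) (nat_lit 282) (nat_lit 2) (nat_lit 14) (.e false (nat_lit 3) (nat_lit 283) (nat_lit 2) (nat_lit 14) (.e true (nat_lit 3) (nat_lit 285) (nat_lit 2) (nat_lit 14) (.e true (nat_lit 2) (nat_lit 286) (nat_lit 2) (nat_lit 14) (.e false (nat_lit 2) (nat_lit 288) (nat_lit 2) (nat_lit 14) (.u (nat_lit 2) (.n (nat_lit 0) (nat_lit 2) (.n (nat_lit 1) (nat_lit 1) (.n (nat_lit 2) (nat_lit 1) (.n (nat_lit 3) (nat_lit 2) (.n (nat_lit 4) (nat_lit 3) (.p (nat_lit 5) (nat_lit 4) (.n (nat_lit 6) (nat_lit 5) (.p (nat_lit 7) (nat_lit 3) (.p (nat_lit 8) (nat_lit 2) (.n (nat_lit 9) (nat_lit 2) (.n (nat_lit 10) (nat_lit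 2) (.n (nat_lit 12) (nat_lit 2) (.n (nat_lit 13) (nat_lit 1) (.n (nat_lit 14) (nat_lit 1) (.p (nat_lit 15) (nat_lit 1) (.p (nat_lit 16) (nat_lit 1) (.n (nat_lit 17) (nat_lit 2) (.p (nat_lit 23) (nat_lit 2) (.n (nat_lit 24) (nat_lit 4) (.n (nat_lit 25) (nat_lit 1) (.p (nat_lit 27) (nat_lit 1) (.p (nat_lit 29) (nat_lit 1) (.p (nat_lit 30) (nat_lit 1) (.p (nat_lit 34) (nat_lit 2) (.n (nat_lit 35) (nat_lit 1) (.n (nat_lit 38) (nat_lit 5) .z)))))))))))))))))))))))))) .nil)))))))))))))))))))))))))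

noncomputable def dC2c_c53 : Cm := .mk (nat_lit 1382) (nat_lit 53) (nat_lit 436) (nat_lit 15) (.c (nat_lit 45) (nat_lit 3) (nat_lit 39) (nat_lit 3) (nat_lit 15) (.c (nat_lit 48) (nat_lit 1) (nat_lit 30) (nat_lit 3) (nat_lit 24) (.c (nat_lit 74) (nat_lit 6) (nat_lit 20) (nat_lit 1) (nat_lit 27) (.c (nat_lit 91) (nat_lit 6) (nat_lit 18) (nat_lit 2) (nat_lit 33) (.c (nat_lit 101) (nat_lit 4) (nat_lit 14) (nat_lit 2) (nat_lit 45) (.c (nat_lit 105) (nat_lit 1) (nat_lit 10) (nat_lit 1) (nat_lit 53) (.c (nat_lit 158) (nat_lit 11) (nat_lit 7) (nat_lit 1) (nat_lit 54) (.c (nat_lit 185) (nat_lit 10) (nat_lit 6) (nat_lit 1) (nat_lit 65) (.c (nat_lit 200) (nat_lit 5) (nat_lit 4) (nat_lit 1) (nat_lit 75) (.c (nat_lit 289) (nat_lit 16) (nat_lit 2) (nat_lit 1) (nat_lit 80) (.c (nat_lit 324) (nat_lit 11) (nat_lit 1) (nat_lit 1) (nat_lit 96) .nil)))))))))))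

noncomputable def dC2c_i21 : IL := (.e true (nat_lit 1) (nat_lit 146) (nat_lit 1) (nat_lit 13) (.e true (nat_lit 3) (nat_lit 127) (nat_lit 2) (nat_lit 12) (.e true (nat_lit 1) (nat_lit 50) (nat_lit 7) (nat_lit 7) (.e true (nat_lit 1) (nat_lit 51) (nat_lit 7) (nat_lit 7) (.e true (nat_lit 1) (nat_lit 52) (nat_lit 7) (nat_lit 7) (.e false (nat_lit 1) (nat_lit 59) (nat_lit 7) (nat_lit 7) (.e false (nat_lit 2) (nat_lit 107) (nat_lit 2) (nat_lit 12) (.e false (nat_lit 2) (nat_lit 108) (nat_lit 2) (nat_lit 12) (.e true (nat_lit 1) (nat_lit 109) (nat_lit 2) (nat_lit 12) (.e false (nat_lit 2) (nat_lit 110) (nat_lit 2) (nat_lit 12) (.e true (nat_lit 2) (nat_lit 112) (nat_lit 2) (nat_lit 12) (.e false (nat_lit 2) (nat_lit 114) (nat_lit 2) (nat_lit 12) (.e true (nat_lit 3) (nat_lit 117) (nat_lit 2) (nat_lit 12) (.e false (nat_lit 3) (nat_lit 119) (nat_lit 2) (nat_lit 12) (.e true (nat_lit 3) (nat_lit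 123) (nat_lit 2) (nat_lit 12) (.e true (nat_lit 3) (nat_lit 126) (nat_lit 2) (nat_lit 12) (.e false (nat_lit 3) (nat_lit 128) (nat_lit 2) (nat_lit 12) (.e true (nat_lit 1) (nat_lit 106) (nat_lit 2) (nat_lit 12) (.e false (nat_lit 1) (nat_lit 111) (nat_lit 2) (nat_lit 12) (.e true (nat_lit 1) (nat_lit 116) (nat_lit 2) (nat_lit 12) (.e false (nat_lit 2) (nat_lit 118) (nat_lit 2) (nat_lit 12) (.e true (nat_lit 2) (nat_lit 120) (nat_lit 2) (nat_lit 12) (.e false (nat_lit 2) (nat_lit 122) (nat_lit 2) (nat_lit 12) (.e false (nat_lit 1) (nat_lit 134) (nat_lit 1) (nat_lit 13) (.u (nat_lit 2) (.n (nat_lit 0) (nat_lit 1) (.p (nat_lit 1) (nat_lit 1) (.n (nat_lit 6) (nat_lit 1) (.n (nat_lit 11) (nat_lit 1) (.n (nat_lit 14) (nat_lit 1) (.n (nat_lit 17) (nat_lit 1) (.p (nat_lit 22) (nat_lit 1) (.n (nat_lit 43) (nat_lit 1) (.n (nat_lit 159) (nat_lit 1) (.p (nat_lit 163) (nat_lit 1) (.p (nat_lit 167) (nat_lit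 1) .z))))))))))) .nil)))))))))))))))))))))))))

noncomputable def dC2c_c37 : Cm := .mk (nat_lit 813) (nat_lit 37) (nat_lit 324) (nat_lit 11) (.c (nat_lit 39) (nat_lit 3) (nat_lit 20) (nat_lit 1) (nat_lit 11) (.c (nat_lit 45) (nat_lit 3) (nat_lit 18) (nat_lit 2) (nat_lit 14) (.c (nat_lit 48) (nat_lit 1) (nat_lit 14) (nat_lit 2) (nat_lit 20) (.c (nat_lit 91) (nat_lit 6) (nat_lit 7) (nat_lit 1) (nat_lit 22) (.c (nat_lit 101) (nat_lit 4) (nat_lit 6) (nat_lit 1) (nat_lit 28) (.c (nat_lit 105) (nat_lit 1) (nat_lit 4) (nat_lit 1) (nat_lit 32) (.c (nat_lit 185) (nat_lit 10) (nat_lit 2) (nat_lit 1) (nat_lit 33) (.c (nat_lit 200) (nat_lit 5) (nat_lit 1) (nat_lit 1) (nat_lit 43) .nil))))))))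

noncomputable def dC2c_i22 : IL := (.e true (nat_lit 3) (nat_lit 259) (nat_lit 1) (nat_lit 17) (.e false (nat_lit 3) (nat_lit 260) (nat_lit 1) (nat_lit 17) (.e true (nat_lit 1) (nat_lit 264) (nat_lit 1) (nat_lit 17) (.e false (nat_lit 2) (nat_lit 267) (nat_lit 1) (nat_lit 17) (.e false (nat_lit 3) (nat_lit 252) (nat_lit 1) (nat_lit 17) (.e true (nat_lit 2) (nat_lit 254) (nat_lit 1) (nat_lit 17) (.e true (nat_lit 1) (nat_lit 256) (nat_lit 1) (nat_lit 17) (.e false (nat_lit 2) (nat_lit 261) (nat_lit 1) (nat_lit 17) (.e true (nat_lit 2) (nat_lit 263) (nat_lit 1) (nat_lit 17) (.e true (nat_lit 1) (nat_lit 265) (nat_lit 1) (nat_lit 17) (.e true (nat_lit 1) (nat_lit 270) (nat_lit 1) (nat_lit 17) (.e false (nat_lit 1) (nat_lit 274) (nat_lit 1) (nat_lit 17) (.e true (nat_lit 1) (nat_lit 275) (nat_lit 1) (nat_lit 17) (.e false (nat_lit 3) (nat_lit 55) (nat_lit 20) (nat_lit 4) (.e false (nat_lit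 1) (nat_lit 93) (nat_lit 12) (nat_lit 8) (.e false (nat_lit 3) (nat_lit 96) (nat_lit 12) (nat_lit 8) (.e false (nat_lit 2) (nat_lit 257) (nat_lit 1) (nat_lit 17) (.e true (nat_lit 1) (nat_lit 262) (nat_lit 1) (nat_lit 17) (.e false (nat_lit 1) (nat_lit 269) (nat_lit 1) (nat_lit 17) (.e false (nat_lit 2) (nat_lit 271) (nat_lit 1) (nat_lit 17) (.e false (nat_lit 2) (nat_lit 273) (nat_lit 1) (nat_lit 17) (.e true (nat_lit 2) (nat_lit 276) (nat_lit 1) (nat_lit 17) (.e false (nat_lit 1) (nat_lit 277) (nat_lit 1) (nat_lit 17) (.e false (nat_lit 3) (nat_lit 286) (nat_lit 1) (nat_lit 17) (.u (nat_lit 2) (.p (nat_lit 1) (nat_lit 4) (.n (nat_lit 2) (nat_lit 2) (.p (nat_lit 3) (nat_lit 1) (.p (nat_lit 5) (nat_lit 1) (.p (nat_lit 6) (nat_lit 1) (.n (nat_lit 7) (nat_lit 1) (.p (nat_lit 9) (nat_lit 2) (.p (nat_lit 10) (nat_lit 1) (.n (nat_lit 11) (nat_lit 3) (.n (nat_lit 12) (nat_lit 1) (.p (nat_lit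 14) (nat_lit 2) (.p (nat_lit 16) (nat_lit 2) (.p (nat_lit 18) (nat_lit 3) (.p (nat_lit 19) (nat_lit 1) (.n (nat_lit 20) (nat_lit 1) (.n (nat_lit 21) (nat_lit 1) (.p (nat_lit 22) (nat_lit 1) (.p (nat_lit 23) (nat_lit 2) (.n (nat_lit 25) (nat_lit 2) (.n (nat_lit 26) (nat_lit 4) (.n (nat_lit 27) (nat_lit 1) (.p (nat_lit 28) (nat_lit 3) (.p (nat_lit 29) (nat_lit 2) (.p (nat_lit 31) (nat_lit 1) (.n (nat_lit 37) (nat_lit 3) (.p (nat_lit 39) (nat_lit 2) (.p (nat_lit 41) (nat_lit 1) (.p (nat_lit 47) (nat_lit 1) (.p (nat_lit 50) (nat_lit 1) (.n (nat_lit 53) (nat_lit 1) (.n (nat_lit 61) (nat_lit 1) (.p (nat_lit 190) (nat_lit 1) (.n (nat_lit 191) (nat_lit 1) (.p (nat_lit 351) (nat_lit 2) (.p (nat_lit 352) (nat_lit 1) (.p (nat_lit 353) (nat_lit 1) (.p (nat_lit 354) (nat_lit 1) (.p (nat_lit 355) (nat_lit 2) (.p (nat_lit 358) (nat_lit 1) (.p (nat_lit 359) (nat_lit 1) (.p (nat_lit 360) (nat_lit 2) (.p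 (nat_lit 361) (nat_lit 1) (.n (nat_lit 362) (nat_lit 2) (.n (nat_lit 364) (nat_lit 2) (.n (nat_lit 366) (nat_lit 1) (.p (nat_lit 367) (nat_lit 1) (.p (nat_lit 368) (nat_lit 1) (.p (nat_lit 370) (nat_lit 1) (.p (nat_lit 371) (nat_lit 2) (.n (nat_lit 372) (nat_lit 2) (.n (nat_lit 373) (nat_lit 1) (.n (nat_lit 374) (nat_lit 1) .z)))))))))))))))))))))))))))))))))))))))))))))))))))) .nil)))))))))))))))))))))))))

noncomputable def dC2c_i23 : IL := (.e true (nat_lit 3) (nat_lit 254) (nat_lit 1) (nat_lit 17) (.e true (nat_lit 1) (nat_lit 255) (nat_lit 1) (nat_lit 17) (.e false (nat_lit 3) (nat_lit 256) (nat_lit 1) (nat_lit 17) (.e false (nat_lit 3) (nat_lit 257) (nat_lit 1) (nat_lit 17) (.e false (nat_lit 2) (nat_lit 258) (nat_lit 1) (nat_lit 17) (.e true (nat_lit 3) (nat_lit 261) (nat_lit 1) (nat_lit 17) (.e false (nat_lit 2) (nat_lit 262) (nat_lit 1) (nat_lit 17) (.e true (nat_lit 1) (nat_lit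 263) (nat_lit 1) (nat_lit 17) (.e false (nat_lit 3) (nat_lit 264) (nat_lit 1) (nat_lit 17) (.e true (nat_lit 3) (nat_lit 265) (nat_lit 1) (nat_lit 17) (.e false (nat_lit 3) (nat_lit 266) (nat_lit 1) (nat_lit 17) (.e true (nat_lit 3) (nat_lit 270) (nat_lit 1) (nat_lit 17) (.e false (nat_lit 3) (nat_lit 271) (nat_lit 1) (nat_lit 17) (.e false (nat_lit 2) (nat_lit 273) (nat_lit 1) (nat_lit 17) (.e true (nat_lit 3) (nat_lit 274) (nat_lit 1) (nat_lit 17) (.e false (nat_lit 1) (nat_lit 275) (nat_lit 1) (nat_lit 17) (.e false (nat_lit 3) (nat_lit 276) (nat_lit 1) (nat_lit 17) (.e true (nat_lit 2) (nat_lit 277) (nat_lit 1) (nat_lit 17) (.e false (nat_lit 1) (nat_lit 279) (nat_lit 1) (nat_lit 17) (.e true (nat_lit 1) (nat_lit 282) (nat_lit 1) (nat_lit 17) (.e true (nat_lit 3) (nat_lit 283) (nat_lit 1) (nat_lit 17) (.e false (nat_lit 3) (nat_lit 285) (nat_lit 1) (nat_lit 17) (.e true (nat_lit 1)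 (nat_lit 288) (nat_lit 1) (nat_lit 17) (.e true (nat_lit 1) (nat_lit 241) (nat_lit 2) (nat_lit 16) (.u (nat_lit 2) (.p (nat_lit 0) (nat_lit 1) (.n (nat_lit 1) (nat_lit 2) (.p (nat_lit 2) (nat_lit 2) (.n (nat_lit 3) (nat_lit 1) (.p (nat_lit 4) (nat_lit 3) (.p (nat_lit 5) (nat_lit 2) (.p (nat_lit 6) (nat_lit 3) (.n (nat_lit 7) (nat_lit 2) (.n (nat_lit 9) (nat_lit 1) (.n (nat_lit 10) (nat_lit 1) (.p (nat_lit 11) (nat_lit 2) (.p (nat_lit 12) (nat_lit 2) (.n (nat_lit 15) (nat_lit 3) (.n (nat_lit 16) (nat_lit 1) (.p (nat_lit 20) (nat_lit 2) (.p (nat_lit 22) (nat_lit 1) (.p (nat_lit 23) (nat_lit 2) (.n (nat_lit 24) (nat_lit 2) (.p (nat_lit 25) (nat_lit 2) (.n (nat_lit 27) (nat_lit 1) (.p (nat_lit 28) (nat_lit 2) (.p (nat_lit 29) (nat_lit 1) (.n (nat_lit 31) (nat_lit 2) (.n (nat_lit 32) (nat_lit 1) (.p (nat_lit 33) (nat_lit 4) (.n (nat_lit 34) (nat_lit 2) (.p (nat_lit 35) (nat_lit 4) (.n (nat_lit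 37) (nat_lit 1) (.n (nat_lit 38) (nat_lit 3) (.p (nat_lit 39) (nat_lit 1) (.n (nat_lit 46) (nat_lit 1) (.n (nat_lit 47) (nat_lit 1) .z)))))))))))))))))))))))))))))))) .nil)))))))))))))))))))))))))

noncomputable def dC2c_i24 : IL := (.e true (nat_lit 2) (nat_lit 259) (nat_lit 2) (nat_lit 14) (.e false (nat_lit 2) (nat_lit 260) (nat_lit 2) (nat_lit 14) (.e true (nat_lit 1) (nat_lit 261) (nat_lit 2) (nat_lit 14) (.e false (nat_lit 2) (nat_lit 262) (nat_lit 2) (nat_lit 14) (.e true (nat_lit 1) (nat_lit 264) (nat_lit 2) (nat_lit 14) (.e false (nat_lit 2) (nat_lit 265) (nat_lit 2) (nat_lit 14) (.e true (nat_lit 2) (nat_lit 266) (nat_lit 2) (nat_lit 14) (.e false (nat_lit 3) (nat_lit 267) (nat_lit 2) (nat_lit 14) (.e false (nat_lit 3) (nat_lit 269) (nat_lit 2) (nat_lit 14) (.e true (nat_lit 2) (nat_lit 270) (nat_lit 2) (nat_lit 14) (.e false (nat_lit 2) (nat_lit 272) (nat_lit 2) (nat_lit 14)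 (.e true (nat_lit 1) (nat_lit 273) (nat_lit 2) (nat_lit 14) (.e true (nat_lit 1) (nat_lit 274) (nat_lit 2) (nat_lit 14) (.e false (nat_lit 3) (nat_lit 275) (nat_lit 2) (nat_lit 14) (.e false (nat_lit 1) (nat_lit 284) (nat_lit 2) (nat_lit 14) (.e true (nat_lit 2) (nat_lit 285) (nat_lit 2) (nat_lit 14) (.e true (nat_lit 3) (nat_lit 257) (nat_lit 2) (nat_lit 14) (.e true (nat_lit 3) (nat_lit 271) (nat_lit 2) (nat_lit 14) (.e true (nat_lit 3) (nat_lit 276) (nat_lit 2) (nat_lit 14) (.e false (nat_lit 2) (nat_lit 277) (nat_lit 2) (nat_lit 14) (.e true (nat_lit 1) (nat_lit 279) (nat_lit 2) (nat_lit 14) (.e false (nat_lit 3) (nat_lit 283) (nat_lit 2) (nat_lit 14) (.e false (nat_lit 1) (nat_lit 288) (nat_lit 2) (nat_lit 14) (.e false (nat_lit 1) (nat_lit 325) (nat_lit 0) (nat_lit 16) (.u (nat_lit 2) (.n (nat_lit 0) (nat_lit 1) (.n (nat_lit 1) (nat_lit 2) (.n (nat_lit 2) (nat_lit 1) (.n (nat_lit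 3) (nat_lit 2) (.p (nat_lit 4) (nat_lit 1) (.n (nat_lit 5) (nat_lit 2) (.p (nat_lit 6) (nat_lit 2) (.p (nat_lit 7) (nat_lit 1) (.n (nat_lit 8) (nat_lit 2) (.n (nat_lit 9) (nat_lit 2) (.n (nat_lit 10) (nat_lit 2) (.n (nat_lit 11) (nat_lit 1) (.n (nat_lit 12) (nat_lit 1) (.n (nat_lit 17) (nat_lit 2) (.p (nat_lit 18) (nat_lit 1) (.n (nat_lit 19) (nat_lit 1) (.p (nat_lit 21) (nat_lit 3) (.n (nat_lit 23) (nat_lit 4) (.n (nat_lit 24) (nat_lit 5) (.n (nat_lit 33) (nat_lit 1) (.n (nat_lit 38) (nat_lit 2) (.p (nat_lit 213) (nat_lit 1) (.n (nat_lit 214) (nat_lit 1) (.p (nat_lit 222) (nat_lit 1) (.p (nat_lit 226) (nat_lit 1) (.n (nat_lit 227) (nat_lit 1) .z)))))))))))))))))))))))))) .nil)))))))))))))))))))))))))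

noncomputable def dC2c_i25 : IL := (.e true (nat_lit 1) (nat_lit 253) (nat_lit 2) (nat_lit 14) (.e true (nat_lit 3) (nat_lit 254) (nat_lit 2) (nat_lit 14) (.e true (nat_lit 1) (nat_lit 255) (nat_lit 2) (nat_lit 14) (.e false (nat_lit 3) (nat_lit 256) (nat_lit 2) (nat_lit 14) (.e false (nat_lit 3) (nat_lit 257) (nat_lit 2) (nat_lit 14) (.e false (nat_lit 2) (nat_lit 258) (nat_lit 2) (nat_lit 14) (.e true (nat_lit 3) (nat_lit 261) (nat_lit 2) (nat_lit 14) (.e false (nat_lit 2) (nat_lit 262) (nat_lit 2) (nat_lit 14) (.e true (nat_lit 1) (nat_lit 263) (nat_lit 2) (nat_lit 14) (.e false (nat_lit 3) (nat_lit 264) (nat_lit 2) (nat_lit 14) (.e true (nat_lit 3) (nat_lit 265) (nat_lit 2) (nat_lit 14) (.e false (nat_lit 3) (nat_lit 266) (nat_lit 2) (nat_lit 14) (.e true (nat_lit 3) (nat_lit 270) (nat_lit 2) (nat_lit 14) (.e false (nat_lit 2) (nat_lit 271) (nat_lit 2) (nat_lit 14) (.e false (nat_lit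 2) (nat_lit 273) (nat_lit 2) (nat_lit 14) (.e true (nat_lit 3) (nat_lit 274) (nat_lit 2) (nat_lit 14) (.e false (nat_lit 1) (nat_lit 275) (nat_lit 2) (nat_lit 14) (.e false (nat_lit 3) (nat_lit 276) (nat_lit 2) (nat_lit 14) (.e true (nat_lit 2) (nat_lit 277) (nat_lit 2) (nat_lit 14) (.e false (nat_lit 1) (nat_lit 279) (nat_lit 2) (nat_lit 14) (.e true (nat_lit 1) (nat_lit 282) (nat_lit 2) (nat_lit 14) (.e true (nat_lit 3) (nat_lit 283) (nat_lit 2) (nat_lit 14) (.e false (nat_lit 3) (nat_lit 285) (nat_lit 2) (nat_lit 14) (.e true (nat_lit 1) (nat_lit 288) (nat_lit 2) (nat_lit 14) (.u (nat_lit 2) (.p (nat_lit 0) (nat_lit 1) (.n (nat_lit 1) (nat_lit 4) (.p (nat_lit 2) (nat_lit 1) (.p (nat_lit 3) (nat_lit 5) (.n (nat_lit 4) (nat_lit 2) (.p (nat_lit 5) (nat_lit 2) (.p (nat_lit 6) (nat_lit 1) (.p (nat_lit 9) (nat_lit 3) (.p (nat_lit 10) (nat_lit 2) (.p (nat_lit 11) (nat_lit 3) (.p (nat_lit 12)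 (nat_lit 1) (.n (nat_lit 14) (nat_lit 2) (.p (nat_lit 15) (nat_lit 2) (.p (nat_lit 16) (nat_lit 2) (.n (nat_lit 17) (nat_lit 5) (.n (nat_lit 18) (nat_lit 3) (.p (nat_lit 19) (nat_lit 1) (.p (nat_lit 21) (nat_lit 1) (.p (nat_lit 23) (nat_lit 1) (.p (nat_lit 24) (nat_lit 1) (.n (nat_lit 25) (nat_lit 1) (.p (nat_lit 26) (nat_lit 1) (.n (nat_lit 27) (nat_lit 1) (.p (nat_lit 29) (nat_lit 1) (.p (nat_lit 30) (nat_lit 1) (.n (nat_lit 31) (nat_lit 1) (.p (nat_lit 33) (nat_lit 1) (.n (nat_lit 34) (nat_lit 4) (.p (nat_lit 38) (nat_lit 1) .z))))))))))))))))))))))))))))) .nil)))))))))))))))))))))))))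

noncomputable def dC2c_i26 : IL := (.e true (nat_lit 1) (nat_lit 266) (nat_lit 1) (nat_lit 17) (.e false (nat_lit 3) (nat_lit 269) (nat_lit 1) (nat_lit 17) (.e false (nat_lit 1) (nat_lit 272) (nat_lit 1) (nat_lit 17) (.e true (nat_lit 1) (nat_lit 277) (nat_lit 1) (nat_lit 17) (.e true (nat_lit 1) (nat_lit 287) (nat_lit 1) (nat_lit 17) (.e false (nat_lit 1) (nat_lit 66) (nat_lit 18) (nat_lit 5) (.e true (nat_lit 1) (nat_lit 205) (nat_lit 2) (nat_lit 16) (.e false (nat_lit 3) (nat_lit 206) (nat_lit 2) (nat_lit 16) (.e false (nat_lit 3) (nat_lit 207) (nat_lit 2) (nat_lit 16) (.e false (nat_lit 2) (nat_lit 208) (nat_lit 2) (nat_lit 16) (.e true (nat_lit 1) (nat_lit 210) (nat_lit 2) (nat_lit 16) (.e false (nat_lit 1) (nat_lit 211) (nat_lit 2) (nat_lit 16) (.e true (nat_lit 1) (nat_lit 213) (nat_lit 2) (nat_lit 16) (.e true (nat_lit 1) (nat_lit 215) (nat_lit 2) (nat_lit 16) (.e true (nat_lit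 1) (nat_lit 216) (nat_lit 2) (nat_lit 16) (.e true (nat_lit 1) (nat_lit 219) (nat_lit 2) (nat_lit 16) (.e false (nat_lit 1) (nat_lit 221) (nat_lit 2) (nat_lit 16) (.e false (nat_lit 1) (nat_lit 225) (nat_lit 2) (nat_lit 16) (.e true (nat_lit 2) (nat_lit 227) (nat_lit 2) (nat_lit 16) (.e true (nat_lit 3) (nat_lit 228) (nat_lit 2) (nat_lit 16) (.e false (nat_lit 1) (nat_lit 233) (nat_lit 2) (nat_lit 16) (.e false (nat_lit 3) (nat_lit 246) (nat_lit 2) (nat_lit 16) (.e false (nat_lit 3) (nat_lit 247) (nat_lit 2) (nat_lit 16) (.e true (nat_lit 1) (nat_lit 248) (nat_lit 2) (nat_lit 16) (.u (nat_lit 2) (.n (nat_lit 0) (nat_lit 2) (.n (nat_lit 1) (nat_lit 3) (.p (nat_lit 3) (nat_lit 1) (.n (nat_lit 5) (nat_lit 4) (.n (nat_lit 6) (nat_lit 2) (.p (nat_lit 7) (nat_lit 1) (.n (nat_lit 8) (nat_lit 1) (.n (nat_lit 9) (nat_lit 2) (.p (nat_lit 10) (nat_lit 2) (.p (nat_lit 11) (nat_lit 1) (.p (nat_lit 12)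 (nat_lit 1) (.n (nat_lit 14) (nat_lit 1) (.n (nat_lit 15) (nat_lit 6) (.n (nat_lit 16) (nat_lit 1) (.n (nat_lit 17) (nat_lit 5) (.n (nat_lit 18) (nat_lit 1) (.n (nat_lit 19) (nat_lit 3) (.n (nat_lit 20) (nat_lit 2) (.n (nat_lit 21) (nat_lit 1) (.p (nat_lit 23) (nat_lit 2) (.n (nat_lit 24) (nat_lit 2) (.n (nat_lit 25) (nat_lit 3) (.p (nat_lit 26) (nat_lit 2) (.n (nat_lit 27) (nat_lit 2) (.p (nat_lit 28) (nat_lit 2) (.p (nat_lit 29) (nat_lit 3) (.n (nat_lit 31) (nat_lit 3) (.p (nat_lit 32) (nat_lit 2) (.p (nat_lit 33) (nat_lit 2) (.n (nat_lit 34) (nat_lit 2) (.p (nat_lit 35) (nat_lit 2) (.p (nat_lit 36) (nat_lit 2) (.p (nat_lit 37) (nat_lit 2) (.n (nat_lit 38) (nat_lit 2) (.n (nat_lit 40) (nat_lit 1) (.n (nat_lit 44) (nat_lit 1) (.p (nat_lit 45) (nat_lit 1) (.p (nat_lit 46) (nat_lit 3) (.n (nat_lit 47) (nat_lit 1) (.n (nat_lit 48) (nat_lit 1) .z)))))))))))))))))))))))))))))))))))))))) .nil)))))))))))))))))))))))))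

noncomputable def dC2c_i27 : IL := (.e false (nat_lit 1) (nat_lit 67) (nat_lit 18) (nat_lit 5) (.e false (nat_lit 2) (nat_lit 205) (nat_lit 2) (nat_lit 16) (.e true (nat_lit 3) (nat_lit 206) (nat_lit 2) (nat_lit 16) (.e true (nat_lit 3) (nat_lit 207) (nat_lit 2) (nat_lit 16) (.e true (nat_lit 1) (nat_lit 208) (nat_lit 2) (nat_lit 16) (.e false (nat_lit 2) (nat_lit 209) (nat_lit 2) (nat_lit 16) (.e true (nat_lit 1) (nat_lit 210) (nat_lit 2) (nat_lit 16) (.e false (nat_lit 1) (nat_lit 211) (nat_lit 2) (nat_lit 16) (.e true (nat_lit 2) (nat_lit 212) (nat_lit 2) (nat_lit 16) (.e true (nat_lit 1) (nat_lit 213) (nat_lit 2) (nat_lit 16) (.e false (nat_lit 3) (nat_lit 214) (nat_lit 2) (nat_lit 16) (.e true (nat_lit 2) (nat_lit 215) (nat_lit 2) (nat_lit 16) (.e true (nat_lit 2) (nat_lit 216) (nat_lit 2) (nat_lit 16) (.e false (nat_lit 2) (nat_lit 218) (nat_lit 2) (nat_lit 16) (.e false (nat_lit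 3) (nat_lit 219) (nat_lit 2) (nat_lit 16) (.e true (nat_lit 3) (nat_lit 221) (nat_lit 2) (nat_lit 16) (.e false (nat_lit 2) (nat_lit 222) (nat_lit 2) (nat_lit 16) (.e true (nat_lit 1) (nat_lit 225) (nat_lit 2) (nat_lit 16) (.e true (nat_lit 2) (nat_lit 226) (nat_lit 2) (nat_lit 16) (.e false (nat_lit 1) (nat_lit 227) (nat_lit 2) (nat_lit 16) (.e true (nat_lit 3) (nat_lit 229) (nat_lit 2) (nat_lit 16) (.e true (nat_lit 3) (nat_lit 230) (nat_lit 2) (nat_lit 16) (.e false (nat_lit 1) (nat_lit 234) (nat_lit 2) (nat_lit 16) (.e true (nat_lit 1) (nat_lit 250) (nat_lit 2) (nat_lit 16) (.u (nat_lit 2) (.p (nat_lit 1) (nat_lit 5) (.n (nat_lit 2) (nat_lit 5) (.p (nat_lit 3) (nat_lit 2) (.n (nat_lit 4) (nat_lit 2) (.n (nat_lit 6) (nat_lit 1) (.n (nat_lit 7) (nat_lit 6) (.p (nat_lit 8) (nat_lit 3) (.p (nat_lit 9) (nat_lit 2) (.p (nat_lit 10) (nat_lit 2) (.p (nat_lit 12) (nat_lit 3) (.n (nat_lit 16)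 (nat_lit 1) (.p (nat_lit 17) (nat_lit 3) (.n (nat_lit 18) (nat_lit 1) (.n (nat_lit 19) (nat_lit 1) (.n (nat_lit 20) (nat_lit 1) (.p (nat_lit 21) (nat_lit 2) (.n (nat_lit 22) (nat_lit 2) (.p (nat_lit 23) (nat_lit 1) (.p (nat_lit 24) (nat_lit 1) (.p (nat_lit 25) (nat_lit 3) (.n (nat_lit 26) (nat_lit 1) (.p (nat_lit 27) (nat_lit 1) (.n (nat_lit 28) (nat_lit 4) (.n (nat_lit 29) (nat_lit 1) (.p (nat_lit 31) (nat_lit 2) (.p (nat_lit 32) (nat_lit 3) (.n (nat_lit 34) (nat_lit 2) (.n (nat_lit 35) (nat_lit 1) (.p (nat_lit 36) (nat_lit 6) (.p (nat_lit 37) (nat_lit 3) (.n (nat_lit 39) (nat_lit 1) (.p (nat_lit 40) (nat_lit 1) (.n (nat_lit 42) (nat_lit 1) (.p (nat_lit 44) (nat_lit 1) (.n (nat_lit 45) (nat_lit 1) (.n (nat_lit 46) (nat_lit 1) (.p (nat_lit 47) (nat_lit 1) (.p (nat_lit 48) (nat_lit 1) .z)))))))))))))))))))))))))))))))))))))) .nil)))))))))))))))))))))))))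

noncomputable def dC2c_i28 : IL := (.e false (nat_lit 1) (nat_lit 140) (nat_lit 6) (nat_lit 12) (.e false (nat_lit 1) (nat_lit 144) (nat_lit 6) (nat_lit 12) (.e false (nat_lit 1) (nat_lit 147) (nat_lit 6) (nat_lit 12) (.e true (nat_lit 1) (nat_lit 155) (nat_lit 6) (nat_lit 12) (.e true (nat_lit 1) (nat_lit 253) (nat_lit 1) (nat_lit 17) (.e false (nat_lit 1) (nat_lit 254) (nat_lit 1) (nat_lit 17) (.e true (nat_lit 2) (nat_lit 255) (nat_lit 1) (nat_lit 17) (.e true (nat_lit 1) (nat_lit 256) (nat_lit 1) (nat_lit 17) (.e false (nat_lit 3) (nat_lit 257) (nat_lit 1) (nat_lit 17) (.e false (nat_lit 3) (nat_lit 259) (nat_lit 1) (nat_lit 17) (.e true (nat_lit 2) (nat_lit 260) (nat_lit 1) (nat_lit 17) (.e false (nat_lit 2) (nat_lit 262) (nat_lit 1) (nat_lit 17) (.e false (nat_lit 1) (nat_lit 263) (nat_lit 1) (nat_lit 17) (.e true (nat_lit 2) (nat_lit 265) (nat_lit 1) (nat_lit 17) (.e true (nat_lit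 2) (nat_lit 267) (nat_lit 1) (nat_lit 17) (.e true (nat_lit 2) (nat_lit 269) (nat_lit 1) (nat_lit 17) (.e false (nat_lit 1) (nat_lit 270) (nat_lit 1) (nat_lit 17) (.e false (nat_lit 3) (nat_lit 271) (nat_lit 1) (nat_lit 17) (.e false (nat_lit 2) (nat_lit 272) (nat_lit 1) (nat_lit 17) (.e false (nat_lit 3) (nat_lit 273) (nat_lit 1) (nat_lit 17) (.e false (nat_lit 3) (nat_lit 274) (nat_lit 1) (nat_lit 17) (.e true (nat_lit 3) (nat_lit 275) (nat_lit 1) (nat_lit 17) (.e true (nat_lit 3) (nat_lit 276) (nat_lit 1) (nat_lit 17) (.e true (nat_lit 2) (nat_lit 277) (nat_lit 1) (nat_lit 17) (.e true (nat_lit 1) (nat_lit 288) (nat_lit 1) (nat_lit 17) dC2c_i27)))))))))))))))))))))))))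

noncomputable def dC2c_i29 : IL := (.e true (nat_lit 2) (nat_lit 248) (nat_lit 2) (nat_lit 16) (.e false (nat_lit 2) (nat_lit 251) (nat_lit 2) (nat_lit 16) (.e true (nat_lit 1) (nat_lit 252) (nat_lit 1) (nat_lit 17) (.e true (nat_lit 2) (nat_lit 253) (nat_lit 1) (nat_lit 17) (.e true (nat_lit 3) (nat_lit 254) (nat_lit 1) (nat_lit 17) (.e false (nat_lit 3) (nat_lit 255) (nat_lit 1) (nat_lit 17) (.e true (nat_lit 2) (nat_lit 256) (nat_lit 1) (nat_lit 17) (.e false (nat_lit 2) (nat_lit 257) (nat_lit 1) (nat_lit 17) (.e false (nat_lit 1) (nat_lit 258) (nat_lit 1) (nat_lit 17) (.e true (nat_lit 1) (nat_lit 259) (nat_lit 1) (nat_lit 17) (.e false (nat_lit 1) (nat_lit 260) (nat_lit 1) (nat_lit 17) (.e false (nat_lit 2) (nat_lit 261) (nat_lit 1) (nat_lit 17) (.e true (nat_lit 1) (nat_lit 262) (nat_lit 1) (nat_lit 17) (.e true (nat_lit 2) (nat_lit 263) (nat_lit 1) (nat_lit 17) (.e false (nat_lit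 1) (nat_lit 267) (nat_lit 1) (nat_lit 17) (.e false (nat_lit 2) (nat_lit 269) (nat_lit 1) (nat_lit 17) (.e false (nat_lit 3) (nat_lit 270) (nat_lit 1) (nat_lit 17) (.e false (nat_lit 3) (nat_lit 271) (nat_lit 1) (nat_lit 17) (.e true (nat_lit 2) (nat_lit 272) (nat_lit 1) (nat_lit 17) (.e true (nat_lit 3) (nat_lit 273) (nat_lit 1) (nat_lit 17) (.e true (nat_lit 3) (nat_lit 274) (nat_lit 1) (nat_lit 17) (.e false (nat_lit 2) (nat_lit 275) (nat_lit 1) (nat_lit 17) (.e true (nat_lit 2) (nat_lit 276) (nat_lit 1) (nat_lit 17) (.e false (nat_lit 2) (nat_lit 277) (nat_lit 1) (nat_lit 17) (.u (nat_lit 2) (.n (nat_lit 0) (nat_lit 3) (.p (nat_lit 1) (nat_lit 1) (.n (nat_lit 2) (nat_lit 3) (.n (nat_lit 3) (nat_lit 4) (.n (nat_lit 5) (nat_lit 1) (.n (nat_lit 6) (nat_lit 2) (.p (nat_lit 7) (nat_lit 1) (.n (nat_lit 8) (nat_lit 1) (.n (nat_lit 9) (nat_lit 4) (.p (nat_lit 10) (nat_lit 1) (.p (nat_lit 11)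 (nat_lit 1) (.n (nat_lit 12) (nat_lit 2) (.n (nat_lit 14) (nat_lit 2) (.p (nat_lit 15) (nat_lit 4) (.n (nat_lit 16) (nat_lit 2) (.p (nat_lit 18) (nat_lit 2) (.p (nat_lit 19) (nat_lit 2) (.p (nat_lit 20) (nat_lit 2) (.p (nat_lit 21) (nat_lit 1) (.n (nat_lit 22) (nat_lit 1) (.n (nat_lit 24) (nat_lit 2) (.n (nat_lit 25) (nat_lit 1) (.n (nat_lit 26) (nat_lit 1) (.p (nat_lit 27) (nat_lit 1) (.n (nat_lit 28) (nat_lit 1) (.p (nat_lit 29) (nat_lit 3) (.p (nat_lit 32) (nat_lit 4) (.p (nat_lit 33) (nat_lit 2) (.n (nat_lit 34) (nat_lit 3) (.p (nat_lit 35) (nat_lit 1) (.p (nat_lit 37) (nat_lit 2) (.n (nat_lit 38) (nat_lit 3) (.p (nat_lit 39) (nat_lit 2) (.p (nat_lit 40) (nat_lit 1) (.n (nat_lit 44) (nat_lit 1) (.p (nat_lit 45) (nat_lit 4) (.n (nat_lit 46) (nat_lit 4) (.p (nat_lit 47) (nat_lit 6) (.p (nat_lit 48) (nat_lit 1) .z))))))))))))))))))))))))))))))))))))))) .nil)))))))))))))))))))))))))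

noncomputable def dC2c_i30 : IL := (.e true (nat_lit 3) (nat_lit 306) (nat_lit 1) (nat_lit 15) (.e true (nat_lit 3) (nat_lit 307) (nat_lit 1) (nat_lit 15) (.e false (nat_lit 2) (nat_lit 308) (nat_lit 1) (nat_lit 15) (.e false (nat_lit 3) (nat_lit 309) (nat_lit 1) (nat_lit 15) (.e true (nat_lit 3) (nat_lit 310) (nat_lit 1) (nat_lit 15) (.e true (nat_lit 3) (nat_lit 311) (nat_lit 1) (nat_lit 15) (.e true (nat_lit 3) (nat_lit 312) (nat_lit 1) (nat_lit 15) (.e true (nat_lit 2) (nat_lit 313) (nat_lit 1) (nat_lit 15) (.e false (nat_lit 1) (nat_lit 315) (nat_lit 1) (nat_lit 15) (.e true (nat_lit 3) (nat_lit 60) (nat_lit 20) (nat_lit 3) (.e true (nat_lit 3) (nat_lit 61) (nat_lit 20) (nat_lit 3) (.e false (nat_lit 3) (nat_lit 62) (nat_lit 20) (nat_lit 3) (.e false (nat_lit 3) (nat_lit 63) (nat_lit 20) (nat_lit 3) (.e true (nat_lit 3) (nat_lit 65) (nat_lit 20) (nat_lit 3) (.e true (nat_lit 3) (nat_lit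 66) (nat_lit 20) (nat_lit 3) (.e true (nat_lit 3) (nat_lit 67) (nat_lit 20) (nat_lit 3) (.e false (nat_lit 3) (nat_lit 68) (nat_lit 20) (nat_lit 3) (.e false (nat_lit 3) (nat_lit 69) (nat_lit 20) (nat_lit 3) (.e false (nat_lit 3) (nat_lit 72) (nat_lit 20) (nat_lit 3) (.e true (nat_lit 3) (nat_lit 73) (nat_lit 20) (nat_lit 3) (.e false (nat_lit 1) (nat_lit 92) (nat_lit 16) (nat_lit 5) (.e true (nat_lit 3) (nat_lit 96) (nat_lit 16) (nat_lit 5) (.e false (nat_lit 3) (nat_lit 314) (nat_lit 1) (nat_lit 15) (.e true (nat_lit 3) (nat_lit 322) (nat_lit 1) (nat_lit 15) (.u (nat_lit 2) (.n (nat_lit 0) (nat_lit 6) (.n (nat_lit 1) (nat_lit 1) (.n (nat_lit 3) (nat_lit 1) (.n (nat_lit 4) (nat_lit 2) (.p (nat_lit 5) (nat_lit 3) (.n (nat_lit 6) (nat_lit 4) (.n (nat_lit 7) (nat_lit 1) (.n (nat_lit 8) (nat_lit 2) (.n (nat_lit 9) (nat_lit 3) (.n (nat_lit 10) (nat_lit 3) (.p (nat_lit 11) (nat_lit 2) (.p (nat_lit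 12) (nat_lit 2) (.n (nat_lit 13) (nat_lit 1) (.p (nat_lit 14) (nat_lit 3) (.n (nat_lit 15) (nat_lit 1) (.n (nat_lit 16) (nat_lit 1) (.n (nat_lit 17) (nat_lit 1) (.p (nat_lit 18) (nat_lit 4) (.p (nat_lit 19) (nat_lit 9) (.p (nat_lit 21) (nat_lit 3) (.p (nat_lit 23) (nat_lit 1) (.p (nat_lit 24) (nat_lit 5) (.p (nat_lit 33) (nat_lit 1) (.n (nat_lit 34) (nat_lit 5) (.n (nat_lit 35) (nat_lit 4) (.n (nat_lit 38) (nat_lit 1) (.n (nat_lit 109) (nat_lit 1) (.p (nat_lit 110) (nat_lit 1) (.n (nat_lit 241) (nat_lit 3) (.p (nat_lit 243) (nat_lit 3) (.p (nat_lit 244) (nat_lit 1) (.p (nat_lit 245) (nat_lit 3) (.p (nat_lit 249) (nat_lit 2) (.n (nat_lit 251) (nat_lit 1) .z)))))))))))))))))))))))))))))))))) .nil)))))))))))))))))))))))))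

noncomputable def dC2c_i31 : IL := (.e false (nat_lit 2) (nat_lit 308) (nat_lit 1) (nat_lit 15) (.e true (nat_lit 2) (nat_lit 309) (nat_lit 1) (nat_lit 15) (.e false (nat_lit 2) (nat_lit 311) (nat_lit 1) (nat_lit 15) (.e false (nat_lit 2) (nat_lit 312) (nat_lit 1) (nat_lit 15) (.e false (nat_lit 2) (nat_lit 313) (nat_lit 1) (nat_lit 15) (.e false (nat_lit 3) (nat_lit 314) (nat_lit 1) (nat_lit 15) (.e true (nat_lit 3) (nat_lit 315) (nat_lit 1) (nat_lit 15) (.e true (nat_lit 3) (nat_lit 317) (nat_lit 1) (nat_lit 15) (.e false (nat_lit 3) (nat_lit 318) (nat_lit 1) (nat_lit 15) (.e false (nat_lit 3) (nat_lit 61) (nat_lit 20) (nat_lit 3) (.e true (nat_lit 3) (nat_lit 62) (nat_lit 20) (nat_lit 3) (.e true (nat_lit 3) (nat_lit 63) (nat_lit 20) (nat_lit 3) (.e false (nat_lit 3) (nat_lit 64) (nat_lit 20) (nat_lit 3) (.e false (nat_lit 3) (nat_lit 66) (nat_lit 20) (nat_lit 3) (.e false (nat_lit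 3) (nat_lit 67) (nat_lit 20) (nat_lit 3) (.e true (nat_lit 3) (nat_lit 68) (nat_lit 20) (nat_lit 3) (.e false (nat_lit 1) (nat_lit 71) (nat_lit 20) (nat_lit 3) (.e false (nat_lit 1) (nat_lit 72) (nat_lit 20) (nat_lit 3) (.e false (nat_lit 1) (nat_lit 92) (nat_lit 17) (nat_lit 5) (.e true (nat_lit 3) (nat_lit 96) (nat_lit 17) (nat_lit 5) (.e true (nat_lit 2) (nat_lit 306) (nat_lit 1) (nat_lit 15) (.e false (nat_lit 3) (nat_lit 310) (nat_lit 1) (nat_lit 15) (.e false (nat_lit 3) (nat_lit 321) (nat_lit 1) (nat_lit 15) (.e true (nat_lit 3) (nat_lit 323) (nat_lit 1) (nat_lit 15) (.u (nat_lit 2) (.p (nat_lit 0) (nat_lit 8) (.n (nat_lit 1) (nat_lit 3) (.n (nat_lit 2) (nat_lit 2) (.p (nat_lit 3) (nat_lit 3) (.n (nat_lit 5) (nat_lit 2) (.n (nat_lit 6) (nat_lit 1) (.p (nat_lit 7) (nat_lit 2) (.p (nat_lit 8) (nat_lit 4) (.n (nat_lit 9) (nat_lit 3) (.n (nat_lit 11) (nat_lit 1) (.n (nat_lit 12) (nat_lit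 2) (.p (nat_lit 13) (nat_lit 3) (.p (nat_lit 14) (nat_lit 1) (.p (nat_lit 17) (nat_lit 3) (.n (nat_lit 19) (nat_lit 5) (.n (nat_lit 21) (nat_lit 6) (.n (nat_lit 24) (nat_lit 1) (.n (nat_lit 33) (nat_lit 1) (.p (nat_lit 34) (nat_lit 4) (.p (nat_lit 35) (nat_lit 4) (.p (nat_lit 38) (nat_lit 1) (.n (nat_lit 83) (nat_lit 1) (.n (nat_lit 84) (nat_lit 1) (.n (nat_lit 115) (nat_lit 1) (.p (nat_lit 116) (nat_lit 1) (.p (nat_lit 241) (nat_lit 2) (.n (nat_lit 242) (nat_lit 1) (.n (nat_lit 243) (nat_lit 2) (.n (nat_lit 244) (nat_lit 2) (.n (nat_lit 245) (nat_lit 1) (.n (nat_lit 247) (nat_lit 2) (.n (nat_lit 248) (nat_lit 2) (.p (nat_lit 249) (nat_lit 1) .z))))))))))))))))))))))))))))))))) .nil)))))))))))))))))))))))))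

noncomputable def dC2c_i32 : IL := (.s true (nat_lit 3) (nat_lit 40) (nat_lit 2) (nat_lit 2) (nat_lit 1) true (nat_lit 5) true (nat_lit 8) false (nat_lit 1) true (nat_lit 7) true (nat_lit 7) (.s false (nat_lit 3) (nat_lit 41) (nat_lit 2) (nat_lit 2) (nat_lit 1) true (nat_lit 5) true (nat_lit 8) false (nat_lit 1) true (nat_lit 7) true (nat_lit 7) (.s true (nat_lit 3) (nat_lit 46) (nat_lit 1) (nat_lit 2) (nat_lit 1) true (nat_lit 6) true (nat_lit 8) false (nat_lit 2) true (nat_lit 8) true (nat_lit 7) (.s false (nat_lit 3) (nat_lit 46) (nat_lit 2) (nat_lit 1) (nat_lit 1) true (nat_lit 5) true (nat_lit 8) false (nat_lit 2) true (nat_lit 7) true (nat_lit 8) (.s false (nat_lit 3) (nat_lit 48) (nat_lit 1) (nat_lit 1) (nat_lit 1) true (nat_lit 6) true (nat_lit 8) false (nat_lit 3) true (nat_lit 8) true (nat_lit 8) (.e false (nat_lit 1) (nat_lit 74) (nat_lit 7) (nat_lit 4) (.e true (nat_lit 2)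 (nat_lit 75) (nat_lit 7) (nat_lit 4) (.e false (nat_lit 3) (nat_lit 79) (nat_lit 7) (nat_lit 4) (.e false (nat_lit 1) (nat_lit 158) (nat_lit 2) (nat_lit 7) (.e true (nat_lit 3) (nat_lit 159) (nat_lit 2) (nat_lit 7) (.e false (nat_lit 1) (nat_lit 160) (nat_lit 2) (nat_lit 7) (.e false (nat_lit 3) (nat_lit 161) (nat_lit 2) (nat_lit 7) (.e true (nat_lit 2) (nat_lit 162) (nat_lit 2) (nat_lit 7) (.e true (nat_lit 3) (nat_lit 163) (nat_lit 2) (nat_lit 7) (.e false (nat_lit 3) (nat_lit 164) (nat_lit 2) (nat_lit 7) (.e true (nat_lit 3) (nat_lit 165) (nat_lit 2) (nat_lit 7) (.e true (nat_lit 3) (nat_lit 167) (nat_lit 2) (nat_lit 7) (.e true (nat_lit 1) (nat_lit 185) (nat_lit 1) (nat_lit 8) (.e true (nat_lit 1) (nat_lit 186) (nat_lit 1) (nat_lit 8) (.e false (nat_lit 1) (nat_lit 187) (nat_lit 1) (nat_lit 8) (.e false (nat_lit 1) (nat_lit 188) (nat_lit 1) (nat_lit 8) (.e true (nat_lit 3) (nat_lit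 30) (nat_lit 20) (nat_lit 0) (.e false (nat_lit 1) (nat_lit 31) (nat_lit 20) (nat_lit 0) (.e true (nat_lit 3) (nat_lit 48) (nat_lit 10) (nat_lit 3) (.u (nat_lit 2) (.p (nat_lit 6) (nat_lit 1) (.n (nat_lit 7) (nat_lit 1) (.p (nat_lit 9) (nat_lit 1) (.n (nat_lit 14) (nat_lit 1) (.n (nat_lit 20) (nat_lit 1) (.p (nat_lit 21) (nat_lit 1) (.p (nat_lit 23) (nat_lit 1) (.n (nat_lit 24) (nat_lit 1) (.p (nat_lit 32) (nat_lit 1) (.n (nat_lit 34) (nat_lit 3) (.p (nat_lit 35) (nat_lit 3) (.p (nat_lit 36) (nat_lit 3) (.p (nat_lit 40) (nat_lit 1) (.p (nat_lit 43) (nat_lit 1) (.p (nat_lit 45) (nat_lit 1) (.n (nat_lit 46) (nat_lit 1) (.p (nat_lit 47) (nat_lit 1) (.p (nat_lit 49) (nat_lit 2) (.p (nat_lit 50) (nat_lit 6) (.n (nat_lit 51) (nat_lit 5) (.n (nat_lit 52) (nat_lit 7) (.p (nat_lit 53) (nat_lit 1) (.p (nat_lit 54) (nat_lit 3) (.n (nat_lit 55) (nat_lit 1) (.n (nat_lit 57) (nat_lit 1) (.n (nat_lit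 59) (nat_lit 2) (.n (nat_lit 60) (nat_lit 5) (.p (nat_lit 61) (nat_lit 4) (.n (nat_lit 62) (nat_lit 3) (.p (nat_lit 64) (nat_lit 2) .z)))))))))))))))))))))))))))))) .nil)))))))))))))))))))))))))

noncomputable def dC2c_i33 : IL := (.e false (nat_lit 1) (nat_lit 41) (nat_lit 33) (nat_lit 0) (.e false (nat_lit 1) (nat_lit 73) (nat_lit 18) (nat_lit 5) (.e false (nat_lit 1) (nat_lit 205) (nat_lit 2) (nat_lit 16) (.e true (nat_lit 3) (nat_lit 206) (nat_lit 2) (nat_lit 16) (.e true (nat_lit 3) (nat_lit 207) (nat_lit 2) (nat_lit 16) (.e true (nat_lit 2) (nat_lit 208) (nat_lit 2) (nat_lit 16) (.e false (nat_lit 1) (nat_lit 210) (nat_lit 2) (nat_lit 16) (.e true (nat_lit 1) (nat_lit 211) (nat_lit 2) (nat_lit 16) (.e false (nat_lit 1) (nat_lit 213) (nat_lit 2) (nat_lit 16) (.e false (nat_lit 1) (nat_lit 215) (nat_lit 2) (nat_lit 16) (.e false (nat_lit 1) (nat_lit 216) (nat_lit 2) (nat_lit 16) (.e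 false (nat_lit 1) (nat_lit 219) (nat_lit 2) (nat_lit 16) (.e true (nat_lit 1) (nat_lit 221) (nat_lit 2) (nat_lit 16) (.e true (nat_lit 1) (nat_lit 225) (nat_lit 2) (nat_lit 16) (.e false (nat_lit 2) (nat_lit 227) (nat_lit 2) (nat_lit 16) (.e false (nat_lit 3) (nat_lit 228) (nat_lit 2) (nat_lit 16) (.e true (nat_lit 1) (nat_lit 233) (nat_lit 2) (nat_lit 16) (.e true (nat_lit 3) (nat_lit 246) (nat_lit 2) (nat_lit 16) (.e true (nat_lit 3) (nat_lit 247) (nat_lit 2) (nat_lit 16) (.e false (nat_lit 1) (nat_lit 248) (nat_lit 2) (nat_lit 16) (.e true (nat_lit 1) (nat_lit 258) (nat_lit 1) (nat_lit 17) (.e false (nat_lit 1) (nat_lit 265) (nat_lit 1) (nat_lit 17) (.e false (nat_lit 1) (nat_lit 266) (nat_lit 1) (nat_lit 17) (.e true (nat_lit 1) (nat_lit 274) (nat_lit 1) (nat_lit 17) (.u (nat_lit 2) (.p (nat_lit 0) (nat_lit 3) (.p (nat_lit 1) (nat_lit 4) (.n (nat_lit 2) (nat_lit 1) (.n (nat_lit 4) (nat_lit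 2) (.p (nat_lit 5) (nat_lit 3) (.p (nat_lit 6) (nat_lit 1) (.n (nat_lit 7) (nat_lit 2) (.p (nat_lit 9) (nat_lit 2) (.n (nat_lit 10) (nat_lit 2) (.n (nat_lit 12) (nat_lit 1) (.p (nat_lit 14) (nat_lit 2) (.p (nat_lit 15) (nat_lit 4) (.p (nat_lit 16) (nat_lit 1) (.p (nat_lit 17) (nat_lit 5) (.p (nat_lit 18) (nat_lit 1) (.p (nat_lit 19) (nat_lit 2) (.p (nat_lit 20) (nat_lit 2) (.n (nat_lit 23) (nat_lit 3) (.p (nat_lit 24) (nat_lit 2) (.p (nat_lit 25) (nat_lit 3) (.n (nat_lit 26) (nat_lit 1) (.p (nat_lit 27) (nat_lit 3) (.n (nat_lit 28) (nat_lit 2) (.n (nat_lit 29) (nat_lit 3) (.p (nat_lit 31) (nat_lit 2) (.n (nat_lit 32) (nat_lit 2) (.n (nat_lit 33) (nat_lit 2) (.p (nat_lit 34) (nat_lit 3) (.n (nat_lit 35) (nat_lit 2) (.n (nat_lit 36) (nat_lit 2) (.n (nat_lit 37) (nat_lit 2) (.p (nat_lit 38) (nat_lit 2) (.p (nat_lit 39) (nat_lit 1) (.p (nat_lit 44) (nat_lit 1) (.n (nat_lit 45) (nat_lit 2) (.n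 (nat_lit 46) (nat_lit 2) (.p (nat_lit 47) (nat_lit 1) (.p (nat_lit 48) (nat_lit 1) .z)))))))))))))))))))))))))))))))))))))) .nil)))))))))))))))))))))))))

noncomputable def dC2c_i34 : IL := (.e false (nat_lit 2) (nat_lit 212) (nat_lit 2) (nat_lit 16) (.e false (nat_lit 1) (nat_lit 213) (nat_lit 2) (nat_lit 16) (.e true (nat_lit 3) (nat_lit 214) (nat_lit 2) (nat_lit 16) (.e false (nat_lit 2) (nat_lit 215) (nat_lit 2) (nat_lit 16) (.e false (nat_lit 2) (nat_lit 216) (nat_lit 2) (nat_lit 16) (.e true (nat_lit 2) (nat_lit 218) (nat_lit 2) (nat_lit 16) (.e true (nat_lit 3) (nat_lit 219) (nat_lit 2) (nat_lit 16) (.e false (nat_lit 3) (nat_lit 221) (nat_lit 2) (nat_lit 16) (.e true (nat_lit 2) (nat_lit 222) (nat_lit 2) (nat_lit 16) (.e false (nat_lit 1) (nat_lit 225) (nat_lit 2) (nat_lit 16) (.e false (nat_lit 2) (nat_lit 226) (nat_lit 2) (nat_lit 16) (.e true (nat_lit 1) (nat_lit 227) (nat_lit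 2) (nat_lit 16) (.e false (nat_lit 3) (nat_lit 229) (nat_lit 2) (nat_lit 16) (.e false (nat_lit 3) (nat_lit 230) (nat_lit 2) (nat_lit 16) (.e true (nat_lit 1) (nat_lit 234) (nat_lit 2) (nat_lit 16) (.e false (nat_lit 1) (nat_lit 250) (nat_lit 2) (nat_lit 16) (.e true (nat_lit 1) (nat_lit 253) (nat_lit 1) (nat_lit 17) (.e false (nat_lit 1) (nat_lit 255) (nat_lit 1) (nat_lit 17) (.e true (nat_lit 1) (nat_lit 258) (nat_lit 1) (nat_lit 17) (.e true (nat_lit 1) (nat_lit 259) (nat_lit 1) (nat_lit 17) (.e false (nat_lit 1) (nat_lit 260) (nat_lit 1) (nat_lit 17) (.e false (nat_lit 1) (nat_lit 264) (nat_lit 1) (nat_lit 17) (.e false (nat_lit 1) (nat_lit 267) (nat_lit 1) (nat_lit 17) (.e true (nat_lit 1) (nat_lit 275) (nat_lit 1) (nat_lit 17) (.u (nat_lit 2) (.n (nat_lit 0) (nat_lit 1) (.n (nat_lit 1) (nat_lit 6) (.p (nat_lit 2) (nat_lit 4) (.n (nat_lit 3) (nat_lit 1) (.p (nat_lit 4) (nat_lit 2)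 (.p (nat_lit 7) (nat_lit 5) (.n (nat_lit 8) (nat_lit 4) (.n (nat_lit 9) (nat_lit 2) (.n (nat_lit 10) (nat_lit 4) (.n (nat_lit 11) (nat_lit 1) (.n (nat_lit 12) (nat_lit 2) (.n (nat_lit 14) (nat_lit 1) (.n (nat_lit 15) (nat_lit 2) (.n (nat_lit 17) (nat_lit 4) (.p (nat_lit 19) (nat_lit 1) (.n (nat_lit 21) (nat_lit 1) (.p (nat_lit 22) (nat_lit 1) (.n (nat_lit 23) (nat_lit 1) (.p (nat_lit 24) (nat_lit 1) (.n (nat_lit 25) (nat_lit 3) (.p (nat_lit 26) (nat_lit 2) (.n (nat_lit 27) (nat_lit 2) (.p (nat_lit 28) (nat_lit 4) (.n (nat_lit 29) (nat_lit 1) (.n (nat_lit 31) (nat_lit 3) (.n (nat_lit 32) (nat_lit 2) (.n (nat_lit 33) (nat_lit 1) (.p (nat_lit 34) (nat_lit 1) (.n (nat_lit 36) (nat_lit 3) (.n (nat_lit 37) (nat_lit 2) (.p (nat_lit 38) (nat_lit 1) (.p (nat_lit 39) (nat_lit 4) (.n (nat_lit 40) (nat_lit 1) (.p (nat_lit 42) (nat_lit 1) (.n (nat_lit 44) (nat_lit 1) (.p (nat_lit 46) (nat_lit 1) (.n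 (nat_lit 47) (nat_lit 1) (.n (nat_lit 48) (nat_lit 1) .z)))))))))))))))))))))))))))))))))))))) .nil)))))))))))))))))))))))))

noncomputable def dC2c_i35 : IL := (.e false (nat_lit 1) (nat_lit 253) (nat_lit 1) (nat_lit 17) (.e false (nat_lit 3) (nat_lit 254) (nat_lit 1) (nat_lit 17) (.e true (nat_lit 3) (nat_lit 255) (nat_lit 1) (nat_lit 17) (.e true (nat_lit 3) (nat_lit 256) (nat_lit 1) (nat_lit 17) (.e false (nat_lit 2) (nat_lit 257) (nat_lit 1) (nat_lit 17) (.e false (nat_lit 1) (nat_lit 258) (nat_lit 1) (nat_lit 17) (.e false (nat_lit 3) (nat_lit 259) (nat_lit 1) (nat_lit 17) (.e true (nat_lit 3) (nat_lit 260) (nat_lit 1) (nat_lit 17) (.e true (nat_lit 3) (nat_lit 261) (nat_lit 1) (nat_lit 17) (.e false (nat_lit 1) (nat_lit 262) (nat_lit 1) (nat_lit 17) (.e false (nat_lit 1) (nat_lit 263) (nat_lit 1) (nat_lit 17) (.e true (nat_lit 2) (nat_lit 264) (nat_lit 1) (nat_lit 17) (.e true (nat_lit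 3) (nat_lit 265) (nat_lit 1) (nat_lit 17) (.e true (nat_lit 1) (nat_lit 266) (nat_lit 1) (nat_lit 17) (.e true (nat_lit 2) (nat_lit 267) (nat_lit 1) (nat_lit 17) (.e true (nat_lit 3) (nat_lit 269) (nat_lit 1) (nat_lit 17) (.e true (nat_lit 2) (nat_lit 270) (nat_lit 1) (nat_lit 17) (.e true (nat_lit 2) (nat_lit 271) (nat_lit 1) (nat_lit 17) (.e true (nat_lit 3) (nat_lit 272) (nat_lit 1) (nat_lit 17) (.e true (nat_lit 3) (nat_lit 273) (nat_lit 1) (nat_lit 17) (.e true (nat_lit 2) (nat_lit 274) (nat_lit 1) (nat_lit 17) (.e true (nat_lit 2) (nat_lit 275) (nat_lit 1) (nat_lit 17) (.e false (nat_lit 2) (nat_lit 276) (nat_lit 1) (nat_lit 17) (.e false (nat_lit 3) (nat_lit 277) (nat_lit 1) (nat_lit 17) (.u (nat_lit 2) (.n (nat_lit 0) (nat_lit 3) (.n (nat_lit 1) (nat_lit 4) (.p (nat_lit 2) (nat_lit 5) (.n (nat_lit 3) (nat_lit 1) (.n (nat_lit 4) (nat_lit 1) (.p (nat_lit 6) (nat_lit 1) (.n (nat_lit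 7) (nat_lit 1) (.p (nat_lit 9) (nat_lit 1) (.p (nat_lit 10) (nat_lit 1) (.n (nat_lit 11) (nat_lit 2) (.p (nat_lit 12) (nat_lit 3) (.n (nat_lit 14) (nat_lit 2) (.n (nat_lit 16) (nat_lit 1) (.n (nat_lit 17) (nat_lit 4) (.n (nat_lit 18) (nat_lit 6) (.n (nat_lit 19) (nat_lit 7) (.n (nat_lit 20) (nat_lit 2) (.p (nat_lit 21) (nat_lit 1) (.n (nat_lit 22) (nat_lit 1) (.p (nat_lit 23) (nat_lit 1) (.p (nat_lit 24) (nat_lit 2) (.p (nat_lit 25) (nat_lit 1) (.p (nat_lit 26) (nat_lit 1) (.n (nat_lit 27) (nat_lit 4) (.p (nat_lit 28) (nat_lit 2) (.p (nat_lit 29) (nat_lit 4) (.n (nat_lit 31) (nat_lit 1) (.p (nat_lit 32) (nat_lit 1) (.p (nat_lit 33) (nat_lit 2) (.n (nat_lit 34) (nat_lit 3) (.p (nat_lit 35) (nat_lit 1) (.p (nat_lit 36) (nat_lit 4) (.p (nat_lit 37) (nat_lit 1) (.n (nat_lit 38) (nat_lit 2) (.n (nat_lit 39) (nat_lit 1) (.n (nat_lit 40) (nat_lit 1) (.n (nat_lit 44) (nat_lit 1) (.n (nat_lit 45)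 (nat_lit 3) (.p (nat_lit 46) (nat_lit 3) (.n (nat_lit 48) (nat_lit 1) (.n (nat_lit 55) (nat_lit 1) .z))))))))))))))))))))))))))))))))))))))))) .nil)))))))))))))))))))))))))

noncomputable def dC2c_i36 : IL := (.e false (nat_lit 2) (nat_lit 212) (nat_lit 2) (nat_lit 16) (.e true (nat_lit 2) (nat_lit 215) (nat_lit 2) (nat_lit 16) (.e false (nat_lit 3) (nat_lit 216) (nat_lit 2) (nat_lit 16) (.e false (nat_lit 3) (nat_lit 217) (nat_lit 2) (nat_lit 16) (.e false (nat_lit 3) (nat_lit 218) (nat_lit 2) (nat_lit 16) (.e true (nat_lit 3) (nat_lit 219) (nat_lit 2) (nat_lit 16) (.e false (nat_lit 3) (nat_lit 221) (nat_lit 2) (nat_lit 16) (.e false (nat_lit 3) (nat_lit 222) (nat_lit 2) (nat_lit 16) (.e true (nat_lit 3) (nat_lit 226) (nat_lit 2) (nat_lit 16) (.e true (nat_lit 2) (nat_lit 227) (nat_lit 2) (nat_lit 16) (.e true (nat_lit 2) (nat_lit 228) (nat_lit 2) (nat_lit 16) (.e true (nat_lit 1) (nat_lit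 229) (nat_lit 2) (nat_lit 16) (.e true (nat_lit 3) (nat_lit 230) (nat_lit 2) (nat_lit 16) (.e true (nat_lit 1) (nat_lit 232) (nat_lit 2) (nat_lit 16) (.e true (nat_lit 1) (nat_lit 233) (nat_lit 2) (nat_lit 16) (.e false (nat_lit 1) (nat_lit 234) (nat_lit 2) (nat_lit 16) (.e true (nat_lit 1) (nat_lit 242) (nat_lit 2) (nat_lit 16) (.e false (nat_lit 1) (nat_lit 243) (nat_lit 2) (nat_lit 16) (.e true (nat_lit 1) (nat_lit 244) (nat_lit 2) (nat_lit 16) (.e false (nat_lit 1) (nat_lit 245) (nat_lit 2) (nat_lit 16) (.e false (nat_lit 2) (nat_lit 246) (nat_lit 2) (nat_lit 16) (.e false (nat_lit 2) (nat_lit 247) (nat_lit 2) (nat_lit 16) (.e false (nat_lit 1) (nat_lit 249) (nat_lit 2) (nat_lit 16) (.e true (nat_lit 1) (nat_lit 250) (nat_lit 2) (nat_lit 16) (.e true (nat_lit 1) (nat_lit 252) (nat_lit 1) (nat_lit 17) dC2c_i35)))))))))))))))))))))))))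

noncomputable def dC2c_i37 : IL := (.e true (nat_lit 1) (nat_lit 92) (nat_lit 16) (nat_lit 5) (.e true (nat_lit 3) (nat_lit 93) (nat_lit 16) (nat_lit 5) (.e false (nat_lit 3) (nat_lit 95) (nat_lit 16) (nat_lit 5) (.e false (nat_lit 1) (nat_lit 96) (nat_lit 16) (nat_lit 5) (.e true (nat_lit 3) (nat_lit 61) (nat_lit 20) (nat_lit 3) (.e false (nat_lit 3) (nat_lit 62) (nat_lit 20) (nat_lit 3) (.e true (nat_lit 1) (nat_lit 63) (nat_lit 20) (nat_lit 3) (.e false (nat_lit 1) (nat_lit 64) (nat_lit 20) (nat_lit 3) (.e false (nat_lit 1) (nat_lit 66) (nat_lit 20) (nat_lit 3) (.e true (nat_lit 3) (nat_lit 67) (nat_lit 20) (nat_lit 3) (.e false (nat_lit 3) (nat_lit 68) (nat_lit 20) (nat_lit 3) (.e true (nat_lit 1) (nat_lit 71) (nat_lit 20) (nat_lit 3) (.e true (nat_lit 1) (nat_lit 72) (nat_lit 20) (nat_lit 3) (.e false (nat_lit 3) (nat_lit 73) (nat_lit 20) (nat_lit 3) (.e true (nat_lit 2) (nat_lit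 305) (nat_lit 1) (nat_lit 15) (.e true (nat_lit 2) (nat_lit 306) (nat_lit 1) (nat_lit 15) (.e false (nat_lit 2) (nat_lit 309) (nat_lit 1) (nat_lit 15) (.e false (nat_lit 2) (nat_lit 311) (nat_lit 1) (nat_lit 15) (.e false (nat_lit 2) (nat_lit 312) (nat_lit 1) (nat_lit 15) (.e true (nat_lit 2) (nat_lit 313) (nat_lit 1) (nat_lit 15) (.e true (nat_lit 3) (nat_lit 314) (nat_lit 1) (nat_lit 15) (.e false (nat_lit 3) (nat_lit 322) (nat_lit 1) (nat_lit 15) (.e false (nat_lit 2) (nat_lit 308) (nat_lit 1) (nat_lit 15) (.e true (nat_lit 3) (nat_lit 310) (nat_lit 1) (nat_lit 15) (.u (nat_lit 2) (.n (nat_lit 0) (nat_lit 1) (.p (nat_lit 1) (nat_lit 3) (.p (nat_lit 2) (nat_lit 2) (.n (nat_lit 4) (nat_lit 3) (.p (nat_lit 5) (nat_lit 3) (.p (nat_lit 6) (nat_lit 8) (.n (nat_lit 8) (nat_lit 2) (.n (nat_lit 9) (nat_lit 2) (.n (nat_lit 10) (nat_lit 1) (.p (nat_lit 11) (nat_lit 2) (.p (nat_lit 12) (nat_lit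 5) (.n (nat_lit 13) (nat_lit 4) (.n (nat_lit 14) (nat_lit 2) (.p (nat_lit 15) (nat_lit 3) (.p (nat_lit 16) (nat_lit 3) (.p (nat_lit 18) (nat_lit 1) (.n (nat_lit 19) (nat_lit 2) (.p (nat_lit 21) (nat_lit 2) (.p (nat_lit 23) (nat_lit 1) (.n (nat_lit 25) (nat_lit 1) (.n (nat_lit 26) (nat_lit 1) (.p (nat_lit 29) (nat_lit 1) (.n (nat_lit 30) (nat_lit 1) (.p (nat_lit 31) (nat_lit 1) (.n (nat_lit 32) (nat_lit 1) (.n (nat_lit 34) (nat_lit 2) (.n (nat_lit 35) (nat_lit 1) (.p (nat_lit 38) (nat_lit 1) (.p (nat_lit 75) (nat_lit 1) (.n (nat_lit 76) (nat_lit 1) (.n (nat_lit 78) (nat_lit 1) (.p (nat_lit 83) (nat_lit 1) (.p (nat_lit 84) (nat_lit 1) (.p (nat_lit 108) (nat_lit 1) (.p (nat_lit 109) (nat_lit 1) (.p (nat_lit 111) (nat_lit 1) (.n (nat_lit 113) (nat_lit 1) (.p (nat_lit 241) (nat_lit 2) (.n (nat_lit 242) (nat_lit 1) (.n (nat_lit 243) (nat_lit 3) (.n (nat_lit 244) (nat_lit 2) (.n (nat_lit 245)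 (nat_lit 2) (.p (nat_lit 247) (nat_lit 1) (.p (nat_lit 248) (nat_lit 1) (.n (nat_lit 249) (nat_lit 1) (.p (nat_lit 251) (nat_lit 3) .z)))))))))))))))))))))))))))))))))))))))))))))) .nil)))))))))))))))))))))))))

noncomputable def dC2c_i38 : IL := (.e true (nat_lit 3) (nat_lit 310) (nat_lit 1) (nat_lit 15) (.e false (nat_lit 2) (nat_lit 311) (nat_lit 1) (nat_lit 15) (.e false (nat_lit 2) (nat_lit 312) (nat_lit 1) (nat_lit 15) (.e false (nat_lit 1) (nat_lit 314) (nat_lit 1) (nat_lit 15) (.e true (nat_lit 3) (nat_lit 315) (nat_lit 1) (nat_lit 15) (.e false (nat_lit 3) (nat_lit 317) (nat_lit 1) (nat_lit 15) (.e true (nat_lit 1) (nat_lit 321) (nat_lit 1) (nat_lit 15) (.e false (nat_lit 1) (nat_lit 323) (nat_lit 1) (nat_lit 15) (.e true (nat_lit 3) (nat_lit 61) (nat_lit 20) (nat_lit 3) (.e false (nat_lit 3) (nat_lit 62) (nat_lit 20) (nat_lit 3) (.e false (nat_lit 3) (nat_lit 63) (nat_lit 20)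 (nat_lit 3) (.e true (nat_lit 3) (nat_lit 64) (nat_lit 20) (nat_lit 3) (.e true (nat_lit 3) (nat_lit 66) (nat_lit 20) (nat_lit 3) (.e true (nat_lit 3) (nat_lit 67) (nat_lit 20) (nat_lit 3) (.e false (nat_lit 3) (nat_lit 68) (nat_lit 20) (nat_lit 3) (.e true (nat_lit 1) (nat_lit 71) (nat_lit 20) (nat_lit 3) (.e true (nat_lit 1) (nat_lit 72) (nat_lit 20) (nat_lit 3) (.e true (nat_lit 3) (nat_lit 309) (nat_lit 1) (nat_lit 15) (.e false (nat_lit 3) (nat_lit 318) (nat_lit 1) (nat_lit 15) (.e true (nat_lit 1) (nat_lit 91) (nat_lit 17) (nat_lit 5) (.e true (nat_lit 1) (nat_lit 92) (nat_lit 17) (nat_lit 5) (.e true (nat_lit 3) (nat_lit 93) (nat_lit 17) (nat_lit 5) (.e false (nat_lit 3) (nat_lit 95) (nat_lit 17) (nat_lit 5) (.e false (nat_lit 1) (nat_lit 96) (nat_lit 17) (nat_lit 5) (.u (nat_lit 2) (.n (nat_lit 0) (nat_lit 9) (.n (nat_lit 1) (nat_lit 2) (.p (nat_lit 2) (nat_lit 1) (.p (nat_lit 3)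 (nat_lit 1) (.n (nat_lit 4) (nat_lit 1) (.p (nat_lit 5) (nat_lit 5) (.p (nat_lit 6) (nat_lit 3) (.n (nat_lit 7) (nat_lit 3) (.n (nat_lit 8) (nat_lit 3) (.p (nat_lit 9) (nat_lit 6) (.n (nat_lit 10) (nat_lit 1) (.p (nat_lit 11) (nat_lit 2) (.p (nat_lit 12) (nat_lit 6) (.n (nat_lit 13) (nat_lit 2) (.p (nat_lit 14) (nat_lit 1) (.p (nat_lit 17) (nat_lit 1) (.p (nat_lit 18) (nat_lit 2) (.p (nat_lit 19) (nat_lit 4) (.p (nat_lit 21) (nat_lit 6) (.p (nat_lit 23) (nat_lit 2) (.p (nat_lit 24) (nat_lit 2) (.p (nat_lit 25) (nat_lit 1) (.p (nat_lit 26) (nat_lit 1) (.n (nat_lit 29) (nat_lit 1) (.n (nat_lit 31) (nat_lit 1) (.p (nat_lit 32) (nat_lit 1) (.n (nat_lit 33) (nat_lit 1) (.n (nat_lit 34) (nat_lit 3) (.n (nat_lit 35) (nat_lit 7) (.n (nat_lit 38) (nat_lit 1) (.p (nat_lit 83) (nat_lit 1) (.p (nat_lit 84) (nat_lit 1) (.p (nat_lit 114) (nat_lit 1) (.p (nat_lit 115) (nat_lit 1) (.p (nat_lit 117) (nat_lit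 1) (.n (nat_lit 119) (nat_lit 1) (.p (nat_lit 241) (nat_lit 1) (.n (nat_lit 242) (nat_lit 1) (.n (nat_lit 244) (nat_lit 1) (.n (nat_lit 247) (nat_lit 2) (.n (nat_lit 248) (nat_lit 2) (.p (nat_lit 250) (nat_lit 2) (.n (nat_lit 253) (nat_lit 3) (.p (nat_lit 257) (nat_lit 1) (.n (nat_lit 259) (nat_lit 1) .z))))))))))))))))))))))))))))))))))))))))))))) .nil)))))))))))))))))))))))))

noncomputable def dC2c_i39 : IL := (.e true (nat_lit 1) (nat_lit 208) (nat_lit 2) (nat_lit 16) (.e true (nat_lit 1) (nat_lit 210) (nat_lit 2) (nat_lit 16) (.e true (nat_lit 3) (nat_lit 211) (nat_lit 2) (nat_lit 16) (.e true (nat_lit 3) (nat_lit 213) (nat_lit 2) (nat_lit 16) (.e true (nat_lit 1) (nat_lit 214) (nat_lit 2) (nat_lit 16) (.e false (nat_lit 3) (nat_lit 215) (nat_lit 2) (nat_lit 16) (.e false (nat_lit 2) (nat_lit 216) (nat_lit 2) (nat_lit 16) (.e true (nat_lit 1) (nat_lit 217) (nat_lit 2) (nat_lit 16)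 (.e true (nat_lit 1) (nat_lit 218) (nat_lit 2) (nat_lit 16) (.e false (nat_lit 1) (nat_lit 220) (nat_lit 2) (nat_lit 16) (.e true (nat_lit 1) (nat_lit 221) (nat_lit 2) (nat_lit 16) (.e false (nat_lit 3) (nat_lit 225) (nat_lit 2) (nat_lit 16) (.e true (nat_lit 2) (nat_lit 227) (nat_lit 2) (nat_lit 16) (.e true (nat_lit 2) (nat_lit 231) (nat_lit 2) (nat_lit 16) (.e false (nat_lit 2) (nat_lit 233) (nat_lit 2) (nat_lit 16) (.e false (nat_lit 1) (nat_lit 242) (nat_lit 2) (nat_lit 16) (.e false (nat_lit 3) (nat_lit 245) (nat_lit 2) (nat_lit 16) (.e true (nat_lit 2) (nat_lit 248) (nat_lit 2) (nat_lit 16) (.e true (nat_lit 1) (nat_lit 251) (nat_lit 2) (nat_lit 16) (.e false (nat_lit 2) (nat_lit 254) (nat_lit 1) (nat_lit 17) (.e true (nat_lit 2) (nat_lit 258) (nat_lit 1) (nat_lit 17) (.e false (nat_lit 2) (nat_lit 265) (nat_lit 1) (nat_lit 17) (.e true (nat_lit 1) (nat_lit 269) (nat_lit 1) (nat_lit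 17) (.e true (nat_lit 1) (nat_lit 274) (nat_lit 1) (nat_lit 17) (.u (nat_lit 2) (.n (nat_lit 0) (nat_lit 3) (.n (nat_lit 2) (nat_lit 1) (.n (nat_lit 3) (nat_lit 5) (.p (nat_lit 4) (nat_lit 2) (.n (nat_lit 6) (nat_lit 2) (.p (nat_lit 7) (nat_lit 3) (.p (nat_lit 8) (nat_lit 3) (.n (nat_lit 9) (nat_lit 4) (.p (nat_lit 11) (nat_lit 3) (.n (nat_lit 12) (nat_lit 1) (.p (nat_lit 15) (nat_lit 1) (.n (nat_lit 16) (nat_lit 4) (.n (nat_lit 17) (nat_lit 1) (.p (nat_lit 18) (nat_lit 1) (.p (nat_lit 19) (nat_lit 3) (.p (nat_lit 21) (nat_lit 3) (.n (nat_lit 22) (nat_lit 3) (.p (nat_lit 24) (nat_lit 1) (.n (nat_lit 25) (nat_lit 1) (.p (nat_lit 26) (nat_lit 1) (.p (nat_lit 32) (nat_lit 1) (.p (nat_lit 33) (nat_lit 2) (.p (nat_lit 34) (nat_lit 3) (.p (nat_lit 35) (nat_lit 2) (.p (nat_lit 36) (nat_lit 1) (.p (nat_lit 37) (nat_lit 3) (.n (nat_lit 38) (nat_lit 2) (.p (nat_lit 40) (nat_lit 1) (.p (nat_lit 42)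 (nat_lit 1) (.p (nat_lit 44) (nat_lit 1) (.p (nat_lit 45) (nat_lit 4) (.p (nat_lit 46) (nat_lit 4) (.p (nat_lit 47) (nat_lit 1) (.n (nat_lit 48) (nat_lit 1) (.n (nat_lit 50) (nat_lit 1) .z))))))))))))))))))))))))))))))))))) .nil)))))))))))))))))))))))))

noncomputable def dC2c_i40 : IL := (.e true (nat_lit 3) (nat_lit 212) (nat_lit 2) (nat_lit 16) (.e false (nat_lit 2) (nat_lit 213) (nat_lit 2) (nat_lit 16) (.e false (nat_lit 1) (nat_lit 214) (nat_lit 2) (nat_lit 16) (.e true (nat_lit 3) (nat_lit 215) (nat_lit 2) (nat_lit 16) (.e true (nat_lit 3) (nat_lit 216) (nat_lit 2) (nat_lit 16) (.e false (nat_lit 3) (nat_lit 218) (nat_lit 2) (nat_lit 16) (.e false (nat_lit 1) (nat_lit 219) (nat_lit 2) (nat_lit 16) (.e true (nat_lit 1) (nat_lit 221) (nat_lit 2) (nat_lit 16) (.e false (nat_lit 3) (nat_lit 222) (nat_lit 2) (nat_lit 16) (.e false (nat_lit 2) (nat_lit 225) (nat_lit 2) (nat_lit 16) (.e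 true (nat_lit 3) (nat_lit 226) (nat_lit 2) (nat_lit 16) (.e true (nat_lit 2) (nat_lit 227) (nat_lit 2) (nat_lit 16) (.e true (nat_lit 1) (nat_lit 229) (nat_lit 2) (nat_lit 16) (.e true (nat_lit 1) (nat_lit 230) (nat_lit 2) (nat_lit 16) (.e false (nat_lit 1) (nat_lit 244) (nat_lit 2) (nat_lit 16) (.e false (nat_lit 1) (nat_lit 250) (nat_lit 2) (nat_lit 16) (.e true (nat_lit 2) (nat_lit 253) (nat_lit 1) (nat_lit 17) (.e true (nat_lit 3) (nat_lit 255) (nat_lit 1) (nat_lit 17) (.e true (nat_lit 2) (nat_lit 258) (nat_lit 1) (nat_lit 17) (.e true (nat_lit 2) (nat_lit 259) (nat_lit 1) (nat_lit 17) (.e false (nat_lit 2) (nat_lit 260) (nat_lit 1) (nat_lit 17) (.e false (nat_lit 2) (nat_lit 264) (nat_lit 1) (nat_lit 17) (.e true (nat_lit 1) (nat_lit 270) (nat_lit 1) (nat_lit 17) (.e true (nat_lit 1) (nat_lit 275) (nat_lit 1) (nat_lit 17) (.u (nat_lit 2) (.n (nat_lit 0) (nat_lit 1) (.p (nat_lit 1)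 (nat_lit 3) (.n (nat_lit 2) (nat_lit 4) (.p (nat_lit 3) (nat_lit 1) (.n (nat_lit 4) (nat_lit 3) (.n (nat_lit 5) (nat_lit 2) (.p (nat_lit 6) (nat_lit 2) (.n (nat_lit 7) (nat_lit 1) (.p (nat_lit 8) (nat_lit 1) (.n (nat_lit 9) (nat_lit 3) (.p (nat_lit 10) (nat_lit 2) (.n (nat_lit 11) (nat_lit 2) (.p (nat_lit 12) (nat_lit 1) (.n (nat_lit 14) (nat_lit 2) (.n (nat_lit 15) (nat_lit 1) (.p (nat_lit 17) (nat_lit 2) (.n (nat_lit 19) (nat_lit 1) (.n (nat_lit 20) (nat_lit 2) (.p (nat_lit 21) (nat_lit 2) (.n (nat_lit 22) (nat_lit 2) (.p (nat_lit 23) (nat_lit 2) (.n (nat_lit 24) (nat_lit 4) (.p (nat_lit 25) (nat_lit 2) (.n (nat_lit 26) (nat_lit 2) (.p (nat_lit 27) (nat_lit 1) (.n (nat_lit 28) (nat_lit 2) (.p (nat_lit 29) (nat_lit 3) (.p (nat_lit 31) (nat_lit 1) (.p (nat_lit 32) (nat_lit 4) (.n (nat_lit 34) (nat_lit 3) (.p (nat_lit 36) (nat_lit 1) (.p (nat_lit 37) (nat_lit 2) (.p (nat_lit 39) (nat_lit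 3) (.n (nat_lit 40) (nat_lit 1) (.n (nat_lit 44) (nat_lit 1) (.n (nat_lit 45) (nat_lit 1) (.n (nat_lit 46) (nat_lit 6) (.p (nat_lit 47) (nat_lit 5) (.n (nat_lit 48) (nat_lit 1) (.p (nat_lit 50) (nat_lit 1) .z)))))))))))))))))))))))))))))))))))))))) .nil)))))))))))))))))))))))))

noncomputable def dC2c_i41 : IL := (.e false (nat_lit 1) (nat_lit 249) (nat_lit 2) (nat_lit 16) (.e true (nat_lit 2) (nat_lit 250) (nat_lit 2) (nat_lit 16) (.e true (nat_lit 2) (nat_lit 251) (nat_lit 2) (nat_lit 16) (.e true (nat_lit 2) (nat_lit 252) (nat_lit 1) (nat_lit 17) (.e false (nat_lit 2) (nat_lit 253) (nat_lit 1) (nat_lit 17) (.e true (nat_lit 1) (nat_lit 254) (nat_lit 1) (nat_lit 17) (.e true (nat_lit 2) (nat_lit 255) (nat_lit 1) (nat_lit 17) (.e true (nat_lit 2) (nat_lit 257) (nat_lit 1) (nat_lit 17) (.e true (nat_lit 1) (nat_lit 258) (nat_lit 1) (nat_lit 17) (.e false (nat_lit 3) (nat_lit 259) (nat_lit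 1) (nat_lit 17) (.e true (nat_lit 3) (nat_lit 260) (nat_lit 1) (nat_lit 17) (.e false (nat_lit 3) (nat_lit 261) (nat_lit 1) (nat_lit 17) (.e false (nat_lit 1) (nat_lit 262) (nat_lit 1) (nat_lit 17) (.e false (nat_lit 3) (nat_lit 263) (nat_lit 1) (nat_lit 17) (.e false (nat_lit 1) (nat_lit 264) (nat_lit 1) (nat_lit 17) (.e false (nat_lit 1) (nat_lit 265) (nat_lit 1) (nat_lit 17) (.e false (nat_lit 3) (nat_lit 267) (nat_lit 1) (nat_lit 17) (.e true (nat_lit 1) (nat_lit 269) (nat_lit 1) (nat_lit 17) (.e false (nat_lit 1) (nat_lit 270) (nat_lit 1) (nat_lit 17) (.e false (nat_lit 2) (nat_lit 271) (nat_lit 1) (nat_lit 17) (.e false (nat_lit 1) (nat_lit 273) (nat_lit 1) (nat_lit 17) (.e false (nat_lit 1) (nat_lit 274) (nat_lit 1) (nat_lit 17) (.e false (nat_lit 3) (nat_lit 275) (nat_lit 1) (nat_lit 17) (.e true (nat_lit 2) (nat_lit 276) (nat_lit 1) (nat_lit 17) (.u (nat_lit 2) (.p (nat_lit 0)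 (nat_lit 5) (.n (nat_lit 1) (nat_lit 1) (.n (nat_lit 2) (nat_lit 1) (.p (nat_lit 3) (nat_lit 4) (.n (nat_lit 5) (nat_lit 2) (.p (nat_lit 6) (nat_lit 2) (.p (nat_lit 7) (nat_lit 3) (.p (nat_lit 8) (nat_lit 1) (.n (nat_lit 9) (nat_lit 2) (.p (nat_lit 10) (nat_lit 1) (.p (nat_lit 11) (nat_lit 3) (.p (nat_lit 12) (nat_lit 2) (.n (nat_lit 14) (nat_lit 2) (.n (nat_lit 15) (nat_lit 4) (.n (nat_lit 17) (nat_lit 1) (.n (nat_lit 18) (nat_lit 3) (.n (nat_lit 19) (nat_lit 4) (.n (nat_lit 20) (nat_lit 3) (.p (nat_lit 21) (nat_lit 8) (.n (nat_lit 22) (nat_lit 7) (.p (nat_lit 23) (nat_lit 1) (.p (nat_lit 24) (nat_lit 2) (.n (nat_lit 25) (nat_lit 1) (.n (nat_lit 27) (nat_lit 5) (.p (nat_lit 28) (nat_lit 1) (.n (nat_lit 29) (nat_lit 6) (.n (nat_lit 31) (nat_lit 4) (.p (nat_lit 33) (nat_lit 1) (.p (nat_lit 34) (nat_lit 2) (.n (nat_lit 35) (nat_lit 1) (.p (nat_lit 36) (nat_lit 2) (.p (nat_lit 37) (nat_lit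 3) (.n (nat_lit 38) (nat_lit 1) (.n (nat_lit 39) (nat_lit 3) (.n (nat_lit 40) (nat_lit 1) (.n (nat_lit 44) (nat_lit 1) (.n (nat_lit 45) (nat_lit 3) (.p (nat_lit 46) (nat_lit 3) (.n (nat_lit 47) (nat_lit 2) (.p (nat_lit 48) (nat_lit 3) (.n (nat_lit 50) (nat_lit 1) (.p (nat_lit 52) (nat_lit 1) (.p (nat_lit 55) (nat_lit 1) .z))))))))))))))))))))))))))))))))))))))))))) .nil)))))))))))))))))))))))))

noncomputable def dC2c_i42 : IL := (.e true (nat_lit 2) (nat_lit 212) (nat_lit 2) (nat_lit 16) (.e true (nat_lit 2) (nat_lit 213) (nat_lit 2) (nat_lit 16) (.e false (nat_lit 2) (nat_lit 214) (nat_lit 2) (nat_lit 16) (.e false (nat_lit 1) (nat_lit 215) (nat_lit 2) (nat_lit 16) (.e true (nat_lit 1) (nat_lit 216) (nat_lit 2) (nat_lit 16) (.e true (nat_lit 2) (nat_lit 217) (nat_lit 2) (nat_lit 16) (.e true (nat_lit 3) (nat_lit 218) (nat_lit 2) (nat_lit 16) (.e false (nat_lit 3) (nat_lit 219) (nat_lit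 2) (nat_lit 16) (.e false (nat_lit 2) (nat_lit 220) (nat_lit 2) (nat_lit 16) (.e false (nat_lit 2) (nat_lit 221) (nat_lit 2) (nat_lit 16) (.e true (nat_lit 1) (nat_lit 222) (nat_lit 2) (nat_lit 16) (.e true (nat_lit 3) (nat_lit 225) (nat_lit 2) (nat_lit 16) (.e false (nat_lit 1) (nat_lit 226) (nat_lit 2) (nat_lit 16) (.e true (nat_lit 2) (nat_lit 228) (nat_lit 2) (nat_lit 16) (.e true (nat_lit 2) (nat_lit 229) (nat_lit 2) (nat_lit 16) (.e false (nat_lit 3) (nat_lit 230) (nat_lit 2) (nat_lit 16) (.e false (nat_lit 3) (nat_lit 231) (nat_lit 2) (nat_lit 16) (.e true (nat_lit 1) (nat_lit 232) (nat_lit 2) (nat_lit 16) (.e false (nat_lit 2) (nat_lit 233) (nat_lit 2) (nat_lit 16) (.e false (nat_lit 2) (nat_lit 234) (nat_lit 2) (nat_lit 16) (.e false (nat_lit 3) (nat_lit 242) (nat_lit 2) (nat_lit 16) (.e true (nat_lit 1) (nat_lit 245) (nat_lit 2) (nat_lit 16) (.e false (nat_lit 3) (nat_lit 246)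 (nat_lit 2) (nat_lit 16) (.e false (nat_lit 3) (nat_lit 247) (nat_lit 2) (nat_lit 16) (.e false (nat_lit 3) (nat_lit 248) (nat_lit 2) (nat_lit 16) dC2c_i41)))))))))))))))))))))))))

noncomputable def dC2c_i43 : IL := (.e false (nat_lit 3) (nat_lit 273) (nat_lit 2) (nat_lit 14) (.e false (nat_lit 3) (nat_lit 274) (nat_lit 2) (nat_lit 14) (.e true (nat_lit 3) (nat_lit 275) (nat_lit 2) (nat_lit 14) (.e false (nat_lit 1) (nat_lit 276) (nat_lit 2) (nat_lit 14) (.e true (nat_lit 1) (nat_lit 277) (nat_lit 2) (nat_lit 14) (.e false (nat_lit 2) (nat_lit 325) (nat_lit 0) (nat_lit 16) (.e true (nat_lit 3) (nat_lit 326) (nat_lit 0) (nat_lit 16) (.e false (nat_lit 3) (nat_lit 327) (nat_lit 0) (nat_lit 16) (.e true (nat_lit 2) (nat_lit 328) (nat_lit 0) (nat_lit 16) (.e true (nat_lit 1) (nat_lit 329) (nat_lit 0) (nat_lit 16) (.e true (nat_lit 2) (nat_lit 330) (nat_lit 0) (nat_lit 16) (.e false (nat_lit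 2) (nat_lit 333) (nat_lit 0) (nat_lit 16) (.e false (nat_lit 1) (nat_lit 334) (nat_lit 0) (nat_lit 16) (.e false (nat_lit 1) (nat_lit 266) (nat_lit 2) (nat_lit 14) (.e true (nat_lit 1) (nat_lit 269) (nat_lit 2) (nat_lit 14) (.e false (nat_lit 3) (nat_lit 271) (nat_lit 2) (nat_lit 14) (.e false (nat_lit 3) (nat_lit 279) (nat_lit 2) (nat_lit 14) (.e false (nat_lit 2) (nat_lit 280) (nat_lit 2) (nat_lit 14) (.e true (nat_lit 2) (nat_lit 281) (nat_lit 2) (nat_lit 14) (.e true (nat_lit 2) (nat_lit 282) (nat_lit 2) (nat_lit 14) (.e false (nat_lit 1) (nat_lit 283) (nat_lit 2) (nat_lit 14) (.e true (nat_lit 1) (nat_lit 284) (nat_lit 2) (nat_lit 14) (.e true (nat_lit 3) (nat_lit 285) (nat_lit 2) (nat_lit 14) (.e false (nat_lit 1) (nat_lit 288) (nat_lit 2) (nat_lit 14) (.u (nat_lit 2) (.p (nat_lit 0) (nat_lit 1) (.p (nat_lit 1) (nat_lit 3) (.p (nat_lit 3) (nat_lit 1) (.p (nat_lit 5) (nat_lit 3) (.n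 (nat_lit 6) (nat_lit 3) (.n (nat_lit 7) (nat_lit 3) (.n (nat_lit 9) (nat_lit 2) (.n (nat_lit 10) (nat_lit 4) (.n (nat_lit 11) (nat_lit 2) (.n (nat_lit 12) (nat_lit 3) (.n (nat_lit 13) (nat_lit 4) (.p (nat_lit 15) (nat_lit 1) (.p (nat_lit 16) (nat_lit 2) (.p (nat_lit 17) (nat_lit 1) (.p (nat_lit 18) (nat_lit 3) (.n (nat_lit 21) (nat_lit 1) (.n (nat_lit 23) (nat_lit 2) (.p (nat_lit 24) (nat_lit 1) (.n (nat_lit 25) (nat_lit 1) (.n (nat_lit 26) (nat_lit 1) (.n (nat_lit 29) (nat_lit 1) (.p (nat_lit 30) (nat_lit 1) (.p (nat_lit 32) (nat_lit 1) (.p (nat_lit 34) (nat_lit 1) (.p (nat_lit 35) (nat_lit 1) (.p (nat_lit 36) (nat_lit 1) (.n (nat_lit 38) (nat_lit 5) (.n (nat_lit 205) (nat_lit 1) (.p (nat_lit 206) (nat_lit 1) (.n (nat_lit 207) (nat_lit 1) (.p (nat_lit 208) (nat_lit 1) (.p (nat_lit 209) (nat_lit 1) (.n (nat_lit 211) (nat_lit 1) (.p (nat_lit 212) (nat_lit 1) (.p (nat_lit 213) (nat_lit 1)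 (.n (nat_lit 220) (nat_lit 1) .z)))))))))))))))))))))))))))))))))))) .nil)))))))))))))))))))))))))

noncomputable def dC2c_i44 : IL := (.e false (nat_lit 3) (nat_lit 252) (nat_lit 2) (nat_lit 14) (.e false (nat_lit 2) (nat_lit 254) (nat_lit 2) (nat_lit 14) (.e true (nat_lit 1) (nat_lit 255) (nat_lit 2) (nat_lit 14) (.e false (nat_lit 1) (nat_lit 256) (nat_lit 2) (nat_lit 14) (.e false (nat_lit 2) (nat_lit 259) (nat_lit 2) (nat_lit 14) (.e true (nat_lit 2) (nat_lit 260) (nat_lit 2) (nat_lit 14) (.e true (nat_lit 1) (nat_lit 261) (nat_lit 2) (nat_lit 14) (.e false (nat_lit 1) (nat_lit 262) (nat_lit 2) (nat_lit 14) (.e false (nat_lit 3) (nat_lit 267) (nat_lit 2) (nat_lit 14) (.e false (nat_lit 3) (nat_lit 270) (nat_lit 2) (nat_lit 14) (.e true (nat_lit 2) (nat_lit 271) (nat_lit 2) (nat_lit 14) (.e false (nat_lit 2) (nat_lit 272) (nat_lit 2) (nat_lit 14) (.e true (nat_lit 2) (nat_lit 273) (nat_lit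 2) (nat_lit 14) (.e true (nat_lit 1) (nat_lit 274) (nat_lit 2) (nat_lit 14) (.e false (nat_lit 2) (nat_lit 276) (nat_lit 2) (nat_lit 14) (.e false (nat_lit 2) (nat_lit 279) (nat_lit 2) (nat_lit 14) (.e false (nat_lit 3) (nat_lit 282) (nat_lit 2) (nat_lit 14) (.e false (nat_lit 1) (nat_lit 283) (nat_lit 2) (nat_lit 14) (.e false (nat_lit 1) (nat_lit 285) (nat_lit 2) (nat_lit 14) (.e true (nat_lit 2) (nat_lit 288) (nat_lit 2) (nat_lit 14) (.e true (nat_lit 3) (nat_lit 253) (nat_lit 2) (nat_lit 14) (.e false (nat_lit 2) (nat_lit 269) (nat_lit 2) (nat_lit 14) (.e false (nat_lit 2) (nat_lit 277) (nat_lit 2) (nat_lit 14) (.e false (nat_lit 1) (nat_lit 284) (nat_lit 2) (nat_lit 14) (.u (nat_lit 2) (.p (nat_lit 1) (nat_lit 2) (.p (nat_lit 2) (nat_lit 1) (.n (nat_lit 3) (nat_lit 3) (.p (nat_lit 4) (nat_lit 3) (.p (nat_lit 6) (nat_lit 1) (.n (nat_lit 7) (nat_lit 2) (.p (nat_lit 9) (nat_lit 2) (.n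 (nat_lit 12) (nat_lit 3) (.p (nat_lit 13) (nat_lit 3) (.p (nat_lit 14) (nat_lit 7) (.n (nat_lit 15) (nat_lit 2) (.n (nat_lit 16) (nat_lit 2) (.p (nat_lit 17) (nat_lit 1) (.n (nat_lit 19) (nat_lit 1) (.n (nat_lit 21) (nat_lit 2) (.n (nat_lit 23) (nat_lit 3) (.p (nat_lit 24) (nat_lit 1) (.p (nat_lit 25) (nat_lit 1) (.n (nat_lit 26) (nat_lit 1) (.n (nat_lit 27) (nat_lit 2) (.p (nat_lit 29) (nat_lit 1) (.p (nat_lit 31) (nat_lit 2) (.n (nat_lit 32) (nat_lit 1) (.p (nat_lit 33) (nat_lit 2) (.n (nat_lit 34) (nat_lit 1) (.n (nat_lit 35) (nat_lit 4) (.p (nat_lit 38) (nat_lit 3) (.n (nat_lit 204) (nat_lit 1) (.p (nat_lit 206) (nat_lit 1) (.n (nat_lit 208) (nat_lit 1) (.p (nat_lit 209) (nat_lit 1) (.n (nat_lit 211) (nat_lit 1) (.p (nat_lit 212) (nat_lit 1) (.n (nat_lit 218) (nat_lit 1) (.n (nat_lit 222) (nat_lit 1) (.p (nat_lit 223) (nat_lit 1) (.p (nat_lit 225) (nat_lit 1) (.n (nat_lit 228) (nat_lit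 1) (.n (nat_lit 235) (nat_lit 1) (.n (nat_lit 241) (nat_lit 1) (.n (nat_lit 242) (nat_lit 1) (.p (nat_lit 243) (nat_lit 1) (.p (nat_lit 244) (nat_lit 1) (.p (nat_lit 245) (nat_lit 1) (.p (nat_lit 246) (nat_lit 1) (.n (nat_lit 247) (nat_lit 1) (.n (nat_lit 248) (nat_lit 1) (.p (nat_lit 249) (nat_lit 1) (.p (nat_lit 250) (nat_lit 1) (.n (nat_lit 251) (nat_lit 1) (.n (nat_lit 252) (nat_lit 1) (.p (nat_lit 253) (nat_lit 1) .z)))))))))))))))))))))))))))))))))))))))))))))))))))) .nil)))))))))))))))))))))))))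

noncomputable def dC2c_i45 : IL := (.e false (nat_lit 1) (nat_lit 309) (nat_lit 1) (nat_lit 15) (.e false (nat_lit 1) (nat_lit 310) (nat_lit 1) (nat_lit 15) (.e false (nat_lit 3) (nat_lit 311) (nat_lit 1) (nat_lit 15) (.e false (nat_lit 1) (nat_lit 313) (nat_lit 1) (nat_lit 15) (.e true (nat_lit 2) (nat_lit 314) (nat_lit 1) (nat_lit 15) (.e false (nat_lit 3) (nat_lit 316) (nat_lit 1) (nat_lit 15) (.e true (nat_lit 2) (nat_lit 317) (nat_lit 1) (nat_lit 15) (.e true (nat_lit 1) (nat_lit 318) (nat_lit 1) (nat_lit 15) (.e false (nat_lit 3) (nat_lit 306) (nat_lit 1) (nat_lit 15) (.e true (nat_lit 3) (nat_lit 307) (nat_lit 1) (nat_lit 15) (.e false (nat_lit 3) (nat_lit 312) (nat_lit 1) (nat_lit 15) (.e false (nat_lit 2) (nat_lit 80) (nat_lit 19) (nat_lit 4) (.e true (nat_lit 2) (nat_lit 81) (nat_lit 19) (nat_lit 4) (.e false (nat_lit 1) (nat_lit 82) (nat_lit 19) (nat_lit 4) (.e true (nat_lit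 1) (nat_lit 83) (nat_lit 19) (nat_lit 4) (.e true (nat_lit 1) (nat_lit 84) (nat_lit 19) (nat_lit 4) (.e true (nat_lit 2) (nat_lit 85) (nat_lit 19) (nat_lit 4) (.e false (nat_lit 1) (nat_lit 86) (nat_lit 19) (nat_lit 4) (.e true (nat_lit 1) (nat_lit 87) (nat_lit 19) (nat_lit 4) (.e true (nat_lit 1) (nat_lit 88) (nat_lit 19) (nat_lit 4) (.e false (nat_lit 1) (nat_lit 90) (nat_lit 19) (nat_lit 4) (.e true (nat_lit 1) (nat_lit 91) (nat_lit 17) (nat_lit 5) (.e false (nat_lit 1) (nat_lit 92) (nat_lit 17) (nat_lit 5) (.e false (nat_lit 1) (nat_lit 93) (nat_lit 17) (nat_lit 5) (.e false (nat_lit 1) (nat_lit 96) (nat_lit 17) (nat_lit 5) dC2c_i44)))))))))))))))))))))))))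

noncomputable def dC2c_i46 : IL := (.e true (nat_lit 2) (nat_lit 218) (nat_lit 2) (nat_lit 16) (.e true (nat_lit 2) (nat_lit 219) (nat_lit 2) (nat_lit 16) (.e false (nat_lit 2) (nat_lit 222) (nat_lit 2) (nat_lit 16) (.e false (nat_lit 1) (nat_lit 227) (nat_lit 2) (nat_lit 16) (.e false (nat_lit 1) (nat_lit 80) (nat_lit 14) (nat_lit 7) (.e true (nat_lit 3) (nat_lit 205) (nat_lit 2) (nat_lit 16) (.e true (nat_lit 2) (nat_lit 208) (nat_lit 2) (nat_lit 16) (.e true (nat_lit 3) (nat_lit 209) (nat_lit 2) (nat_lit 16) (.e true (nat_lit 3) (nat_lit 211) (nat_lit 2) (nat_lit 16) (.e true (nat_lit 2) (nat_lit 213) (nat_lit 2) (nat_lit 16) (.e true (nat_lit 2) (nat_lit 214) (nat_lit 2) (nat_lit 16) (.e true (nat_lit 3) (nat_lit 215) (nat_lit 2) (nat_lit 16) (.e false (nat_lit 2) (nat_lit 220) (nat_lit 2) (nat_lit 16) (.e true (nat_lit 1) (nat_lit 225) (nat_lit 2) (nat_lit 16) (.e false (nat_lit 2)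 (nat_lit 228) (nat_lit 2) (nat_lit 16) (.e false (nat_lit 2) (nat_lit 229) (nat_lit 2) (nat_lit 16) (.e false (nat_lit 1) (nat_lit 230) (nat_lit 2) (nat_lit 16) (.e false (nat_lit 3) (nat_lit 231) (nat_lit 2) (nat_lit 16) (.e false (nat_lit 2) (nat_lit 238) (nat_lit 2) (nat_lit 16) (.e false (nat_lit 2) (nat_lit 242) (nat_lit 2) (nat_lit 16) (.e false (nat_lit 1) (nat_lit 245) (nat_lit 2) (nat_lit 16) (.e true (nat_lit 1) (nat_lit 246) (nat_lit 2) (nat_lit 16) (.e true (nat_lit 1) (nat_lit 247) (nat_lit 2) (nat_lit 16) (.e true (nat_lit 1) (nat_lit 251) (nat_lit 2) (nat_lit 16) (.u (nat_lit 2) (.n (nat_lit 0) (nat_lit 2) (.p (nat_lit 1) (nat_lit 2) (.n (nat_lit 2) (nat_lit 2) (.p (nat_lit 3) (nat_lit 2) (.n (nat_lit 4) (nat_lit 1) (.n (nat_lit 5) (nat_lit 1) (.n (nat_lit 6) (nat_lit 2) (.n (nat_lit 7) (nat_lit 2) (.p (nat_lit 8) (nat_lit 1) (.n (nat_lit 9) (nat_lit 2) (.n (nat_lit 10) (nat_lit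 2) (.p (nat_lit 11) (nat_lit 2) (.n (nat_lit 12) (nat_lit 1) (.p (nat_lit 13) (nat_lit 1) (.n (nat_lit 14) (nat_lit 2) (.p (nat_lit 15) (nat_lit 2) (.n (nat_lit 16) (nat_lit 2) (.p (nat_lit 17) (nat_lit 3) (.p (nat_lit 18) (nat_lit 3) (.p (nat_lit 19) (nat_lit 1) (.p (nat_lit 20) (nat_lit 4) (.p (nat_lit 21) (nat_lit 1) (.n (nat_lit 22) (nat_lit 1) (.n (nat_lit 23) (nat_lit 1) (.p (nat_lit 24) (nat_lit 2) (.p (nat_lit 26) (nat_lit 3) (.p (nat_lit 27) (nat_lit 1) (.p (nat_lit 28) (nat_lit 2) (.n (nat_lit 29) (nat_lit 1) (.p (nat_lit 30) (nat_lit 1) (.p (nat_lit 31) (nat_lit 1) (.p (nat_lit 33) (nat_lit 1) (.p (nat_lit 35) (nat_lit 1) (.n (nat_lit 37) (nat_lit 2) (.n (nat_lit 38) (nat_lit 1) (.n (nat_lit 39) (nat_lit 1) (.p (nat_lit 43) (nat_lit 1) (.n (nat_lit 45) (nat_lit 1) (.p (nat_lit 48) (nat_lit 2) (.n (nat_lit 49) (nat_lit 1) (.n (nat_lit 50) (nat_lit 1) (.n (nat_lit 51) (nat_lit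 1) (.p (nat_lit 55) (nat_lit 1) (.n (nat_lit 58) (nat_lit 1) .z)))))))))))))))))))))))))))))))))))))))))))) .nil)))))))))))))))))))))))))

noncomputable def dC2c_i47 : IL := (.e false (nat_lit 3) (nat_lit 216) (nat_lit 2) (nat_lit 16) (.e true (nat_lit 2) (nat_lit 217) (nat_lit 2) (nat_lit 16) (.e true (nat_lit 1) (nat_lit 220) (nat_lit 2) (nat_lit 16) (.e false (nat_lit 2) (nat_lit 223) (nat_lit 2) (nat_lit 16) (.e true (nat_lit 2) (nat_lit 227) (nat_lit 2) (nat_lit 16) (.e false (nat_lit 1) (nat_lit 81) (nat_lit 14) (nat_lit 7) (.e true (nat_lit 2) (nat_lit 214) (nat_lit 2) (nat_lit 16) (.e false (nat_lit 1) (nat_lit 219) (nat_lit 2) (nat_lit 16) (.e true (nat_lit 1) (nat_lit 222) (nat_lit 2) (nat_lit 16) (.e false (nat_lit 1) (nat_lit 226) (nat_lit 2) (nat_lit 16) (.e false (nat_lit 2) (nat_lit 228) (nat_lit 2) (nat_lit 16) (.e false (nat_lit 3) (nat_lit 229) (nat_lit 2) (nat_lit 16)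 (.e true (nat_lit 3) (nat_lit 230) (nat_lit 2) (nat_lit 16) (.e false (nat_lit 3) (nat_lit 231) (nat_lit 2) (nat_lit 16) (.e true (nat_lit 2) (nat_lit 232) (nat_lit 2) (nat_lit 16) (.e false (nat_lit 2) (nat_lit 239) (nat_lit 2) (nat_lit 16) (.e false (nat_lit 2) (nat_lit 242) (nat_lit 2) (nat_lit 16) (.e false (nat_lit 1) (nat_lit 243) (nat_lit 2) (nat_lit 16) (.e false (nat_lit 3) (nat_lit 245) (nat_lit 2) (nat_lit 16) (.e false (nat_lit 3) (nat_lit 247) (nat_lit 2) (nat_lit 16) (.e true (nat_lit 1) (nat_lit 248) (nat_lit 2) (nat_lit 16) (.e false (nat_lit 3) (nat_lit 249) (nat_lit 2) (nat_lit 16) (.e true (nat_lit 1) (nat_lit 250) (nat_lit 2) (nat_lit 16) (.e false (nat_lit 1) (nat_lit 251) (nat_lit 2) (nat_lit 16) (.u (nat_lit 2) (.n (nat_lit 0) (nat_lit 1) (.n (nat_lit 1) (nat_lit 2) (.p (nat_lit 2) (nat_lit 2) (.n (nat_lit 3) (nat_lit 6) (.p (nat_lit 4) (nat_lit 4) (.n (nat_lit 6)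 (nat_lit 1) (.p (nat_lit 7) (nat_lit 2) (.p (nat_lit 8) (nat_lit 5) (.n (nat_lit 9) (nat_lit 3) (.n (nat_lit 10) (nat_lit 3) (.p (nat_lit 11) (nat_lit 1) (.n (nat_lit 12) (nat_lit 1) (.p (nat_lit 14) (nat_lit 1) (.p (nat_lit 15) (nat_lit 1) (.n (nat_lit 16) (nat_lit 7) (.n (nat_lit 17) (nat_lit 1) (.p (nat_lit 18) (nat_lit 2) (.n (nat_lit 19) (nat_lit 5) (.p (nat_lit 20) (nat_lit 1) (.p (nat_lit 21) (nat_lit 4) (.n (nat_lit 22) (nat_lit 4) (.n (nat_lit 23) (nat_lit 6) (.p (nat_lit 24) (nat_lit 1) (.p (nat_lit 25) (nat_lit 2) (.n (nat_lit 26) (nat_lit 1) (.n (nat_lit 27) (nat_lit 3) (.p (nat_lit 28) (nat_lit 1) (.n (nat_lit 29) (nat_lit 1) (.n (nat_lit 31) (nat_lit 1) (.n (nat_lit 32) (nat_lit 4) (.p (nat_lit 33) (nat_lit 2) (.p (nat_lit 34) (nat_lit 2) (.n (nat_lit 35) (nat_lit 1) (.n (nat_lit 36) (nat_lit 4) (.p (nat_lit 37) (nat_lit 4) (.n (nat_lit 38) (nat_lit 2) (.n (nat_lit 39) (nat_lit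 1) (.p (nat_lit 40) (nat_lit 2) (.n (nat_lit 41) (nat_lit 1) (.n (nat_lit 42) (nat_lit 1) (.p (nat_lit 44) (nat_lit 2) (.n (nat_lit 46) (nat_lit 1) (.p (nat_lit 47) (nat_lit 4) (.p (nat_lit 48) (nat_lit 1) (.n (nat_lit 49) (nat_lit 1) (.n (nat_lit 50) (nat_lit 1) (.p (nat_lit 53) (nat_lit 1) (.p (nat_lit 61) (nat_lit 1) (.p (nat_lit 305) (nat_lit 1) (.p (nat_lit 306) (nat_lit 1) (.n (nat_lit 308) (nat_lit 1) .z))))))))))))))))))))))))))))))))))))))))))))))))))) .nil)))))))))))))))))))))))))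

noncomputable def dC2c_i48 : IL := (.e false (nat_lit 1) (nat_lit 259) (nat_lit 1) (nat_lit 17) (.e true (nat_lit 1) (nat_lit 260) (nat_lit 1) (nat_lit 17) (.e true (nat_lit 3) (nat_lit 261) (nat_lit 1) (nat_lit 17) (.e false (nat_lit 3) (nat_lit 263) (nat_lit 1) (nat_lit 17) (.e false (nat_lit 2) (nat_lit 265) (nat_lit 1) (nat_lit 17) (.e true (nat_lit 1) (nat_lit 266) (nat_lit 1) (nat_lit 17) (.e false (nat_lit 1) (nat_lit 267) (nat_lit 1) (nat_lit 17) (.e true (nat_lit 1) (nat_lit 269) (nat_lit 1) (nat_lit 17) (.e false (nat_lit 3) (nat_lit 270) (nat_lit 1) (nat_lit 17) (.e true (nat_lit 1) (nat_lit 272) (nat_lit 1) (nat_lit 17) (.e false (nat_lit 1) (nat_lit 275) (nat_lit 1) (nat_lit 17) (.e false (nat_lit 2) (nat_lit 277) (nat_lit 1) (nat_lit 17) (.e false (nat_lit 1) (nat_lit 283) (nat_lit 1) (nat_lit 17) (.e true (nat_lit 2) (nat_lit 285) (nat_lit 1) (nat_lit 17) (.e false (nat_lit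 1) (nat_lit 271) (nat_lit 1) (nat_lit 17) (.e false (nat_lit 2) (nat_lit 273) (nat_lit 1) (nat_lit 17) (.e true (nat_lit 3) (nat_lit 274) (nat_lit 1) (nat_lit 17) (.e true (nat_lit 1) (nat_lit 276) (nat_lit 1) (nat_lit 17) (.e true (nat_lit 1) (nat_lit 56) (nat_lit 20) (nat_lit 4) (.e true (nat_lit 2) (nat_lit 92) (nat_lit 13) (nat_lit 8) (.e false (nat_lit 2) (nat_lit 93) (nat_lit 13) (nat_lit 8) (.e true (nat_lit 3) (nat_lit 256) (nat_lit 1) (nat_lit 17) (.e true (nat_lit 1) (nat_lit 284) (nat_lit 1) (nat_lit 17) (.e false (nat_lit 1) (nat_lit 286) (nat_lit 1) (nat_lit 17) (.u (nat_lit 2) (.n (nat_lit 0) (nat_lit 1) (.p (nat_lit 1) (nat_lit 2) (.n (nat_lit 2) (nat_lit 1) (.n (nat_lit 3) (nat_lit 1) (.n (nat_lit 4) (nat_lit 1) (.n (nat_lit 5) (nat_lit 1) (.n (nat_lit 6) (nat_lit 1) (.p (nat_lit 7) (nat_lit 2) (.n (nat_lit 8) (nat_lit 1) (.n (nat_lit 9) (nat_lit 2) (.n (nat_lit 11) (nat_lit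 1) (.p (nat_lit 12) (nat_lit 1) (.p (nat_lit 13) (nat_lit 1) (.p (nat_lit 14) (nat_lit 1) (.p (nat_lit 15) (nat_lit 2) (.p (nat_lit 19) (nat_lit 1) (.n (nat_lit 20) (nat_lit 1) (.p (nat_lit 21) (nat_lit 1) (.n (nat_lit 23) (nat_lit 1) (.p (nat_lit 24) (nat_lit 1) (.n (nat_lit 25) (nat_lit 1) (.p (nat_lit 30) (nat_lit 1) (.p (nat_lit 32) (nat_lit 3) (.p (nat_lit 34) (nat_lit 3) (.n (nat_lit 35) (nat_lit 1) (.n (nat_lit 36) (nat_lit 1) (.n (nat_lit 37) (nat_lit 2) (.p (nat_lit 38) (nat_lit 1) (.p (nat_lit 39) (nat_lit 1) (.n (nat_lit 40) (nat_lit 1) (.n (nat_lit 41) (nat_lit 2) (.p (nat_lit 43) (nat_lit 1) (.p (nat_lit 45) (nat_lit 1) (.n (nat_lit 46) (nat_lit 1) (.n (nat_lit 47) (nat_lit 2) (.p (nat_lit 48) (nat_lit 1) (.n (nat_lit 49) (nat_lit 1) (.n (nat_lit 50) (nat_lit 1) (.n (nat_lit 51) (nat_lit 1) (.p (nat_lit 53) (nat_lit 1) (.p (nat_lit 55) (nat_lit 1) (.p (nat_lit 56) (nat_lit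 1) (.n (nat_lit 58) (nat_lit 1) (.p (nat_lit 61) (nat_lit 1) (.n (nat_lit 349) (nat_lit 1) (.n (nat_lit 351) (nat_lit 1) (.p (nat_lit 352) (nat_lit 1) (.n (nat_lit 354) (nat_lit 1) (.p (nat_lit 355) (nat_lit 1) (.n (nat_lit 359) (nat_lit 1) (.n (nat_lit 360) (nat_lit 1) (.p (nat_lit 361) (nat_lit 1) (.n (nat_lit 364) (nat_lit 1) (.n (nat_lit 370) (nat_lit 1) (.p (nat_lit 371) (nat_lit 1) (.n (nat_lit 380) (nat_lit 1) (.p (nat_lit 382) (nat_lit 1) .z))))))))))))))))))))))))))))))))))))))))))))))))))))))))) .nil)))))))))))))))))))))))))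

noncomputable def dC2c_i49 : IL := (.e true (nat_lit 1) (nat_lit 256) (nat_lit 2) (nat_lit 14) (.e false (nat_lit 1) (nat_lit 257) (nat_lit 2) (nat_lit 14) (.e false (nat_lit 1) (nat_lit 258) (nat_lit 2) (nat_lit 14) (.e false (nat_lit 3) (nat_lit 259) (nat_lit 2) (nat_lit 14) (.e true (nat_lit 3) (nat_lit 260) (nat_lit 2) (nat_lit 14) (.e true (nat_lit 1) (nat_lit 261) (nat_lit 2) (nat_lit 14) (.e true (nat_lit 2) (nat_lit 262) (nat_lit 2) (nat_lit 14) (.e true (nat_lit 1) (nat_lit 264) (nat_lit 2) (nat_lit 14) (.e false (nat_lit 2) (nat_lit 267) (nat_lit 2) (nat_lit 14) (.e false (nat_lit 1) (nat_lit 269) (nat_lit 2) (nat_lit 14) (.e true (nat_lit 1) (nat_lit 272) (nat_lit 2) (nat_lit 14) (.e false (nat_lit 2) (nat_lit 274) (nat_lit 2) (nat_lit 14) (.e true (nat_lit 2) (nat_lit 277) (nat_lit 2) (nat_lit 14) (.e false (nat_lit 2) (nat_lit 329) (nat_lit 0) (nat_lit 16) (.e true (nat_lit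 1) (nat_lit 265) (nat_lit 2) (nat_lit 14) (.e false (nat_lit 1) (nat_lit 266) (nat_lit 2) (nat_lit 14) (.e true (nat_lit 2) (nat_lit 275) (nat_lit 2) (nat_lit 14) (.e true (nat_lit 3) (nat_lit 276) (nat_lit 2) (nat_lit 14) (.e false (nat_lit 2) (nat_lit 279) (nat_lit 2) (nat_lit 14) (.e false (nat_lit 3) (nat_lit 282) (nat_lit 2) (nat_lit 14) (.e true (nat_lit 3) (nat_lit 283) (nat_lit 2) (nat_lit 14) (.e false (nat_lit 3) (nat_lit 285) (nat_lit 2) (nat_lit 14) (.e false (nat_lit 2) (nat_lit 286) (nat_lit 2) (nat_lit 14) (.e true (nat_lit 2) (nat_lit 288) (nat_lit 2) (nat_lit 14) (.u (nat_lit 2) (.p (nat_lit 0) (nat_lit 4) (.p (nat_lit 1) (nat_lit 2) (.p (nat_lit 2) (nat_lit 2) (.p (nat_lit 3) (nat_lit 2) (.n (nat_lit 5) (nat_lit 2) (.p (nat_lit 6) (nat_lit 3) (.n (nat_lit 7) (nat_lit 2) (.n (nat_lit 8) (nat_lit 2) (.p (nat_lit 9) (nat_lit 3) (.n (nat_lit 12) (nat_lit 5) (.n (nat_lit 13)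 (nat_lit 1) (.n (nat_lit 14) (nat_lit 2) (.n (nat_lit 15) (nat_lit 2) (.n (nat_lit 16) (nat_lit 2) (.p (nat_lit 17) (nat_lit 2) (.n (nat_lit 18) (nat_lit 2) (.p (nat_lit 24) (nat_lit 1) (.p (nat_lit 25) (nat_lit 1) (.p (nat_lit 27) (nat_lit 1) (.n (nat_lit 29) (nat_lit 1) (.p (nat_lit 30) (nat_lit 1) (.p (nat_lit 33) (nat_lit 1) (.n (nat_lit 34) (nat_lit 1) (.p (nat_lit 35) (nat_lit 1) (.n (nat_lit 211) (nat_lit 1) (.p (nat_lit 212) (nat_lit 1) (.p (nat_lit 216) (nat_lit 1) (.p (nat_lit 229) (nat_lit 1) .z)))))))))))))))))))))))))))) .nil)))))))))))))))))))))))))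

noncomputable def dC2c_i50 : IL := (.e false (nat_lit 2) (nat_lit 261) (nat_lit 2) (nat_lit 14) (.e false (nat_lit 1) (nat_lit 262) (nat_lit 2) (nat_lit 14) (.e true (nat_lit 2) (nat_lit 263) (nat_lit 2) (nat_lit 14) (.e true (nat_lit 1) (nat_lit 264) (nat_lit 2) (nat_lit 14) (.e false (nat_lit 1) (nat_lit 265) (nat_lit 2) (nat_lit 14) (.e true (nat_lit 1) (nat_lit 266) (nat_lit 2) (nat_lit 14) (.e true (nat_lit 1) (nat_lit 267) (nat_lit 2) (nat_lit 14) (.e true (nat_lit 2) (nat_lit 269) (nat_lit 2) (nat_lit 14) (.e false (nat_lit 3) (nat_lit 270) (nat_lit 2) (nat_lit 14) (.e true (nat_lit 1) (nat_lit 271) (nat_lit 2) (nat_lit 14) (.e false (nat_lit 3) (nat_lit 272) (nat_lit 2) (nat_lit 14) (.e true (nat_lit 1) (nat_lit 273) (nat_lit 2) (nat_lit 14) (.e true (nat_lit 1) (nat_lit 275) (nat_lit 2) (nat_lit 14) (.e false (nat_lit 2) (nat_lit 276) (nat_lit 2) (nat_lit 14) (.e false (nat_lit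 1) (nat_lit 277) (nat_lit 2) (nat_lit 14) (.e true (nat_lit 2) (nat_lit 279) (nat_lit 2) (nat_lit 14) (.e true (nat_lit 3) (nat_lit 282) (nat_lit 2) (nat_lit 14) (.e false (nat_lit 3) (nat_lit 283) (nat_lit 2) (nat_lit 14) (.e true (nat_lit 3) (nat_lit 285) (nat_lit 2) (nat_lit 14) (.e true (nat_lit 2) (nat_lit 286) (nat_lit 2) (nat_lit 14) (.e false (nat_lit 2) (nat_lit 288) (nat_lit 2) (nat_lit 14) (.e true (nat_lit 1) (nat_lit 256) (nat_lit 2) (nat_lit 14) (.e false (nat_lit 1) (nat_lit 257) (nat_lit 2) (nat_lit 14) (.e false (nat_lit 3) (nat_lit 274) (nat_lit 2) (nat_lit 14) (.u (nat_lit 2) (.p (nat_lit 1) (nat_lit 1) (.n (nat_lit 2) (nat_lit 4) (.n (nat_lit 3) (nat_lit 1) (.p (nat_lit 5) (nat_lit 3) (.n (nat_lit 6) (nat_lit 3) (.n (nat_lit 7) (nat_lit 1) (.p (nat_lit 8) (nat_lit 1) (.n (nat_lit 9) (nat_lit 3) (.p (nat_lit 11) (nat_lit 1) (.p (nat_lit 12) (nat_lit 1) (.p (nat_lit 14)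 (nat_lit 3) (.p (nat_lit 15) (nat_lit 2) (.p (nat_lit 16) (nat_lit 2) (.p (nat_lit 17) (nat_lit 3) (.n (nat_lit 19) (nat_lit 1) (.n (nat_lit 21) (nat_lit 2) (.p (nat_lit 23) (nat_lit 2) (.p (nat_lit 24) (nat_lit 2) (.n (nat_lit 26) (nat_lit 1) (.n (nat_lit 27) (nat_lit 1) (.p (nat_lit 29) (nat_lit 1) (.n (nat_lit 30) (nat_lit 1) (.p (nat_lit 31) (nat_lit 1) (.n (nat_lit 33) (nat_lit 1) (.p (nat_lit 34) (nat_lit 5) (.n (nat_lit 35) (nat_lit 1) (.n (nat_lit 38) (nat_lit 1) (.n (nat_lit 204) (nat_lit 1) (.p (nat_lit 205) (nat_lit 1) (.p (nat_lit 206) (nat_lit 1) (.n (nat_lit 211) (nat_lit 1) (.p (nat_lit 212) (nat_lit 1) (.n (nat_lit 213) (nat_lit 1) (.p (nat_lit 216) (nat_lit 1) (.p (nat_lit 219) (nat_lit 1) (.p (nat_lit 221) (nat_lit 1) (.n (nat_lit 224) (nat_lit 1) .z))))))))))))))))))))))))))))))))))))) .nil)))))))))))))))))))))))))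

noncomputable def dC2c_i51 : IL := (.e false (nat_lit 1) (nat_lit 260) (nat_lit 2) (nat_lit 14) (.e false (nat_lit 2) (nat_lit 261) (nat_lit 2) (nat_lit 14) (.e false (nat_lit 3) (nat_lit 262) (nat_lit 2) (nat_lit 14) (.e true (nat_lit 3) (nat_lit 263) (nat_lit 2) (nat_lit 14) (.e false (nat_lit 3) (nat_lit 264) (nat_lit 2) (nat_lit 14) (.e true (nat_lit 1) (nat_lit 266) (nat_lit 2) (nat_lit 14) (.e false (nat_lit 2) (nat_lit 267) (nat_lit 2) (nat_lit 14) (.e false (nat_lit 3) (nat_lit 269) (nat_lit 2) (nat_lit 14) (.e false (nat_lit 1) (nat_lit 271) (nat_lit 2) (nat_lit 14) (.e false (nat_lit 2) (nat_lit 272) (nat_lit 2) (nat_lit 14) (.e false (nat_lit 1) (nat_lit 273) (nat_lit 2) (nat_lit 14) (.e true (nat_lit 1) (nat_lit 274) (nat_lit 2) (nat_lit 14) (.e true (nat_lit 1) (nat_lit 275) (nat_lit 2) (nat_lit 14) (.e false (nat_lit 1) (nat_lit 276) (nat_lit 2) (nat_lit 14) (.e true (nat_lit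 1) (nat_lit 277) (nat_lit 2) (nat_lit 14) (.e false (nat_lit 2) (nat_lit 279) (nat_lit 2) (nat_lit 14) (.e true (nat_lit 2) (nat_lit 282) (nat_lit 2) (nat_lit 14) (.e false (nat_lit 1) (nat_lit 283) (nat_lit 2) (nat_lit 14) (.e true (nat_lit 1) (nat_lit 285) (nat_lit 2) (nat_lit 14) (.e false (nat_lit 1) (nat_lit 286) (nat_lit 2) (nat_lit 14) (.e true (nat_lit 2) (nat_lit 288) (nat_lit 2) (nat_lit 14) (.e false (nat_lit 3) (nat_lit 252) (nat_lit 2) (nat_lit 14) (.e false (nat_lit 2) (nat_lit 256) (nat_lit 2) (nat_lit 14) (.e false (nat_lit 1) (nat_lit 265) (nat_lit 2) (nat_lit 14) (.u (nat_lit 2) (.p (nat_lit 0) (nat_lit 2) (.n (nat_lit 1) (nat_lit 5) (.n (nat_lit 2) (nat_lit 2) (.p (nat_lit 3) (nat_lit 1) (.p (nat_lit 4) (nat_lit 1) (.p (nat_lit 5) (nat_lit 2) (.p (nat_lit 6) (nat_lit 2) (.p (nat_lit 7) (nat_lit 1) (.n (nat_lit 8) (nat_lit 4) (.n (nat_lit 9) (nat_lit 1) (.n (nat_lit 10)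 (nat_lit 1) (.p (nat_lit 11) (nat_lit 2) (.n (nat_lit 12) (nat_lit 1) (.p (nat_lit 13) (nat_lit 2) (.p (nat_lit 14) (nat_lit 3) (.p (nat_lit 15) (nat_lit 3) (.p (nat_lit 16) (nat_lit 3) (.n (nat_lit 17) (nat_lit 1) (.n (nat_lit 18) (nat_lit 2) (.p (nat_lit 19) (nat_lit 2) (.p (nat_lit 21) (nat_lit 4) (.p (nat_lit 23) (nat_lit 1) (.p (nat_lit 24) (nat_lit 2) (.p (nat_lit 26) (nat_lit 1) (.n (nat_lit 27) (nat_lit 1) (.p (nat_lit 29) (nat_lit 2) (.p (nat_lit 30) (nat_lit 1) (.p (nat_lit 35) (nat_lit 3) (.p (nat_lit 38) (nat_lit 1) (.n (nat_lit 205) (nat_lit 1) (.n (nat_lit 206) (nat_lit 1) (.n (nat_lit 210) (nat_lit 1) (.p (nat_lit 215) (nat_lit 1) (.n (nat_lit 221) (nat_lit 1) .z)))))))))))))))))))))))))))))))))) .nil)))))))))))))))))))))))))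

noncomputable def dC2c_i52 : IL := (.e false (nat_lit 3) (nat_lit 257) (nat_lit 2) (nat_lit 14) (.e false (nat_lit 2) (nat_lit 258) (nat_lit 2) (nat_lit 14) (.e false (nat_lit 3) (nat_lit 259) (nat_lit 2) (nat_lit 14) (.e true (nat_lit 3) (nat_lit 260) (nat_lit 2) (nat_lit 14) (.e true (nat_lit 2) (nat_lit 262) (nat_lit 2) (nat_lit 14) (.e false (nat_lit 2) (nat_lit 265) (nat_lit 2) (nat_lit 14) (.e false (nat_lit 2) (nat_lit 266) (nat_lit 2) (nat_lit 14) (.e false (nat_lit 3) (nat_lit 267) (nat_lit 2) (nat_lit 14) (.e false (nat_lit 3) (nat_lit 269) (nat_lit 2) (nat_lit 14) (.e false (nat_lit 3) (nat_lit 270) (nat_lit 2) (nat_lit 14) (.e false (nat_lit 3) (nat_lit 271) (nat_lit 2) (nat_lit 14) (.e false (nat_lit 2) (nat_lit 272) (nat_lit 2) (nat_lit 14) (.e false (nat_lit 3) (nat_lit 273) (nat_lit 2) (nat_lit 14) (.e false (nat_lit 1) (nat_lit 274) (nat_lit 2) (nat_lit 14) (.e false (nat_lit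 3) (nat_lit 275) (nat_lit 2) (nat_lit 14) (.e true (nat_lit 3) (nat_lit 276) (nat_lit 2) (nat_lit 14) (.e true (nat_lit 3) (nat_lit 277) (nat_lit 2) (nat_lit 14) (.e false (nat_lit 2) (nat_lit 279) (nat_lit 2) (nat_lit 14) (.e true (nat_lit 2) (nat_lit 282) (nat_lit 2) (nat_lit 14) (.e false (nat_lit 2) (nat_lit 283) (nat_lit 2) (nat_lit 14) (.e true (nat_lit 2) (nat_lit 285) (nat_lit 2) (nat_lit 14) (.e false (nat_lit 1) (nat_lit 286) (nat_lit 2) (nat_lit 14) (.e true (nat_lit 2) (nat_lit 288) (nat_lit 2) (nat_lit 14) (.e true (nat_lit 1) (nat_lit 316) (nat_lit 1) (nat_lit 15) (.u (nat_lit 2) (.p (nat_lit 0) (nat_lit 2) (.n (nat_lit 1) (nat_lit 4) (.n (nat_lit 2) (nat_lit 4) (.p (nat_lit 3) (nat_lit 3) (.p (nat_lit 4) (nat_lit 1) (.p (nat_lit 5) (nat_lit 3) (.n (nat_lit 6) (nat_lit 2) (.p (nat_lit 7) (nat_lit 3) (.n (nat_lit 8) (nat_lit 1) (.p (nat_lit 9) (nat_lit 2) (.n (nat_lit 10) (nat_lit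 1) (.n (nat_lit 12) (nat_lit 2) (.n (nat_lit 13) (nat_lit 1) (.n (nat_lit 14) (nat_lit 2) (.p (nat_lit 18) (nat_lit 4) (.p (nat_lit 19) (nat_lit 7) (.n (nat_lit 23) (nat_lit 1) (.p (nat_lit 24) (nat_lit 4) (.n (nat_lit 25) (nat_lit 1) (.p (nat_lit 26) (nat_lit 2) (.p (nat_lit 27) (nat_lit 2) (.n (nat_lit 29) (nat_lit 1) (.p (nat_lit 30) (nat_lit 2) (.p (nat_lit 31) (nat_lit 1) (.p (nat_lit 34) (nat_lit 1) .z))))))))))))))))))))))))) .nil)))))))))))))))))))))))))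

noncomputable def dC2c_c276 : Cm := .mk (nat_lit 316) (nat_lit 276) (nat_lit 169) (nat_lit 16) (.c (nat_lit 18) (nat_lit 2) (nat_lit 16) (nat_lit 2) (nat_lit 16) (.c (nat_lit 20) (nat_lit 1) (nat_lit 11) (nat_lit 3) (nat_lit 20) (.c (nat_lit 33) (nat_lit 6) (nat_lit 7) (nat_lit 1) (nat_lit 23) (.c (nat_lit 42) (nat_lit 3) (nat_lit 6) (nat_lit 1) (nat_lit 29) (.c (nat_lit 45) (nat_lit 3) (nat_lit 5) (nat_lit 1) (nat_lit 32) (.c (nat_lit 48) (nat_lit 1) (nat_lit 3) (nat_lit 1) (nat_lit 35) (.c (nat_lit 80) (nat_lit 11) (nat_lit 2) (nat_lit 1) (nat_lit 36) (.c (nat_lit 97) (nat_lit 4) (nat_lit 1) (nat_lit 1) (nat_lit 47) (.c (nat_lit 101) (nat_lit 4) (nat_lit 0) (nat_lit 1) (nat_lit 51) .nil)))))))))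

noncomputable def dC2c_i53 : IL := (.s false (nat_lit 3) (nat_lit 14) (nat_lit 7) (nat_lit 0) (nat_lit 7) false (nat_lit 2) true (nat_lit 9) true (nat_lit 6) true (nat_lit 9) true (nat_lit 16) (.e true (nat_lit 2) (nat_lit 132) (nat_lit 7) (nat_lit 9) (.e true (nat_lit 1) (nat_lit 133) (nat_lit 7) (nat_lit 9) (.e true (nat_lit 1) (nat_lit 134) (nat_lit 7) (nat_lit 9) (.e true (nat_lit 1) (nat_lit 137) (nat_lit 7) (nat_lit 9) (.e true (nat_lit 3) (nat_lit 138) (nat_lit 7) (nat_lit 9) (.e true (nat_lit 2) (nat_lit 139) (nat_lit 7) (nat_lit 9) (.e false (nat_lit 2) (nat_lit 140) (nat_lit 7) (nat_lit 9) (.e true (nat_lit 3) (nat_lit 141) (nat_lit 7) (nat_lit 9) (.e false (nat_lit 2) (nat_lit 142) (nat_lit 7) (nat_lit 9) (.e true (nat_lit 2) (nat_lit 144) (nat_lit 7) (nat_lit 9) (.e true (nat_lit 1) (nat_lit 147) (nat_lit 7) (nat_lit 9) (.e true (nat_lit 3) (nat_lit 150) (nat_lit 7) (nat_lit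 9) (.e true (nat_lit 1) (nat_lit 151) (nat_lit 7) (nat_lit 9) (.e true (nat_lit 3) (nat_lit 152) (nat_lit 7) (nat_lit 9) (.e false (nat_lit 3) (nat_lit 153) (nat_lit 7) (nat_lit 9) (.e false (nat_lit 2) (nat_lit 154) (nat_lit 7) (nat_lit 9) (.e true (nat_lit 1) (nat_lit 99) (nat_lit 14) (nat_lit 6) (.e false (nat_lit 2) (nat_lit 135) (nat_lit 7) (nat_lit 9) (.e true (nat_lit 1) (nat_lit 143) (nat_lit 7) (nat_lit 9) (.e true (nat_lit 3) (nat_lit 145) (nat_lit 7) (nat_lit 9) (.e false (nat_lit 2) (nat_lit 155) (nat_lit 7) (nat_lit 9) (.e true (nat_lit 2) (nat_lit 156) (nat_lit 7) (nat_lit 9) (.e false (nat_lit 1) (nat_lit 329) (nat_lit 0) (nat_lit 16) (.u (nat_lit 2) (.p (nat_lit 0) (nat_lit 2) (.n (nat_lit 1) (nat_lit 3) (.n (nat_lit 2) (nat_lit 1) (.p (nat_lit 3) (nat_lit 1) (.n (nat_lit 4) (nat_lit 6) (.n (nat_lit 5) (nat_lit 1) (.p (nat_lit 6) (nat_lit 2) (.n (nat_lit 7) (nat_lit 4) (.n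 (nat_lit 11) (nat_lit 4) (.n (nat_lit 13) (nat_lit 2) (.n (nat_lit 15) (nat_lit 6) (.n (nat_lit 16) (nat_lit 6) (.p (nat_lit 17) (nat_lit 2) (.p (nat_lit 18) (nat_lit 4) (.n (nat_lit 19) (nat_lit 3) (.p (nat_lit 21) (nat_lit 1) (.p (nat_lit 23) (nat_lit 1) (.n (nat_lit 24) (nat_lit 1) (.n (nat_lit 25) (nat_lit 2) (.n (nat_lit 26) (nat_lit 1) (.n (nat_lit 29) (nat_lit 2) (.p (nat_lit 31) (nat_lit 1) (.n (nat_lit 33) (nat_lit 1) (.p (nat_lit 35) (nat_lit 3) (.n (nat_lit 38) (nat_lit 3) (.p (nat_lit 121) (nat_lit 1) (.p (nat_lit 122) (nat_lit 1) (.p (nat_lit 142) (nat_lit 2) (.n (nat_lit 143) (nat_lit 2) (.n (nat_lit 144) (nat_lit 2) (.p (nat_lit 145) (nat_lit 1) (.p (nat_lit 147) (nat_lit 1) (.p (nat_lit 149) (nat_lit 2) (.n (nat_lit 150) (nat_lit 2) (.p (nat_lit 151) (nat_lit 3) (.p (nat_lit 152) (nat_lit 1) (.p (nat_lit 153) (nat_lit 1) (.n (nat_lit 154) (nat_lit 1) (.n (nat_lit 157) (nat_lit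 2) (.p (nat_lit 161) (nat_lit 1) (.n (nat_lit 164) (nat_lit 2) (.p (nat_lit 165) (nat_lit 1) (.n (nat_lit 166) (nat_lit 1) (.n (nat_lit 265) (nat_lit 1) .z)))))))))))))))))))))))))))))))))))))))))))) .nil)))))))))))))))))))))))))

noncomputable def dC2c_i54 : IL := (.e true (nat_lit 3) (nat_lit 133) (nat_lit 7) (nat_lit 9) (.e false (nat_lit 3) (nat_lit 134) (nat_lit 7) (nat_lit 9) (.e false (nat_lit 3) (nat_lit 135) (nat_lit 7) (nat_lit 9) (.e true (nat_lit 3) (nat_lit 137) (nat_lit 7) (nat_lit 9) (.e true (nat_lit 1) (nat_lit 143) (nat_lit 7) (nat_lit 9) (.e true (nat_lit 3) (nat_lit 145) (nat_lit 7) (nat_lit 9) (.e true (nat_lit 3) (nat_lit 149) (nat_lit 7) (nat_lit 9) (.e true (nat_lit 1) (nat_lit 151) (nat_lit 7) (nat_lit 9) (.e false (nat_lit 3) (nat_lit 152) (nat_lit 7) (nat_lit 9) (.e false (nat_lit 3) (nat_lit 154) (nat_lit 7) (nat_lit 9) (.e true (nat_lit 3) (nat_lit 155) (nat_lit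 7) (nat_lit 9) (.e true (nat_lit 1) (nat_lit 156) (nat_lit 7) (nat_lit 9) (.e true (nat_lit 3) (nat_lit 157) (nat_lit 7) (nat_lit 9) (.e true (nat_lit 3) (nat_lit 132) (nat_lit 7) (nat_lit 9) (.e false (nat_lit 3) (nat_lit 153) (nat_lit 7) (nat_lit 9) (.e true (nat_lit 3) (nat_lit 138) (nat_lit 7) (nat_lit 9) (.e true (nat_lit 1) (nat_lit 99) (nat_lit 15) (nat_lit 6) (.e false (nat_lit 1) (nat_lit 324) (nat_lit 0) (nat_lit 16) (.e false (nat_lit 3) (nat_lit 325) (nat_lit 0) (nat_lit 16) (.e true (nat_lit 1) (nat_lit 327) (nat_lit 0) (nat_lit 16) (.e false (nat_lit 3) (nat_lit 328) (nat_lit 0) (nat_lit 16) (.e false (nat_lit 3) (nat_lit 330) (nat_lit 0) (nat_lit 16) (.e true (nat_lit 2) (nat_lit 329) (nat_lit 0) (nat_lit 16) (.e true (nat_lit 2) (nat_lit 331) (nat_lit 0) (nat_lit 16) (.u (nat_lit 2) (.p (nat_lit 0) (nat_lit 2) (.n (nat_lit 1) (nat_lit 2) (.p (nat_lit 3) (nat_lit 7) (.n (nat_lit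 4) (nat_lit 1) (.n (nat_lit 5) (nat_lit 3) (.p (nat_lit 6) (nat_lit 5) (.p (nat_lit 7) (nat_lit 1) (.p (nat_lit 8) (nat_lit 2) (.n (nat_lit 9) (nat_lit 1) (.n (nat_lit 10) (nat_lit 8) (.n (nat_lit 11) (nat_lit 3) (.p (nat_lit 12) (nat_lit 2) (.n (nat_lit 13) (nat_lit 3) (.p (nat_lit 14) (nat_lit 3) (.p (nat_lit 15) (nat_lit 2) (.p (nat_lit 16) (nat_lit 2) (.p (nat_lit 17) (nat_lit 4) (.p (nat_lit 18) (nat_lit 4) (.p (nat_lit 21) (nat_lit 2) (.p (nat_lit 23) (nat_lit 2) (.p (nat_lit 24) (nat_lit 2) (.p (nat_lit 26) (nat_lit 1) (.n (nat_lit 27) (nat_lit 3) (.n (nat_lit 33) (nat_lit 1) (.n (nat_lit 34) (nat_lit 3) (.p (nat_lit 35) (nat_lit 3) (.n (nat_lit 38) (nat_lit 1) (.p (nat_lit 125) (nat_lit 1) (.p (nat_lit 126) (nat_lit 1) (.n (nat_lit 142) (nat_lit 3) (.p (nat_lit 143) (nat_lit 3) (.n (nat_lit 144) (nat_lit 6) (.n (nat_lit 146) (nat_lit 3) (.p (nat_lit 147) (nat_lit 3) (.n (nat_lit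 149) (nat_lit 3) (.p (nat_lit 150) (nat_lit 3) (.p (nat_lit 153) (nat_lit 1) (.p (nat_lit 154) (nat_lit 3) (.p (nat_lit 159) (nat_lit 3) (.p (nat_lit 160) (nat_lit 6) (.p (nat_lit 161) (nat_lit 4) (.n (nat_lit 162) (nat_lit 3) (.n (nat_lit 163) (nat_lit 3) (.p (nat_lit 165) (nat_lit 6) (.n (nat_lit 166) (nat_lit 5) (.p (nat_lit 167) (nat_lit 3) (.n (nat_lit 260) (nat_lit 1) (.n (nat_lit 261) (nat_lit 3) (.n (nat_lit 262) (nat_lit 3) (.p (nat_lit 263) (nat_lit 4) (.n (nat_lit 264) (nat_lit 3) (.n (nat_lit 265) (nat_lit 1) (.p (nat_lit 266) (nat_lit 3) (.p (nat_lit 267) (nat_lit 2) .z)))))))))))))))))))))))))))))))))))))))))))))))))))))) .nil)))))))))))))))))))))))))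

noncomputable def dC2c_i55 : IL := (.s true (nat_lit 1) (nat_lit 6) (nat_lit 2) (nat_lit 5) (nat_lit 2) true (nat_lit 2) true (nat_lit 6) true (nat_lit 3) true (nat_lit 6) true (nat_lit 4) (.s true (nat_lit 3) (nat_lit 7) (nat_lit 0) (nat_lit 2) (nat_lit 6) true (nat_lit 1) true (nat_lit 3) true (nat_lit 2) true (nat_lit 8) true (nat_lit 6) (.s true (nat_lit 3) (nat_lit 7) (nat_lit 1) (nat_lit 5) (nat_lit 2) true (nat_lit 3) true (nat_lit 6) true (nat_lit 2) true (nat_lit 7) true (nat_lit 4) (.s false (nat_lit 1) (nat_lit 16) (nat_lit 1) (nat_lit 2) (nat_lit 2) true (nat_lit 3) true (nat_lit 6) true (nat_lit 0) true (nat_lit 7) true (nat_lit 6) (.s false (nat_lit 3) (nat_lit 17) (nat_lit 2) (nat_lit 1) (nat_lit 2) true (nat_lit 2) true (nat_lit 6) true (nat_lit 0) true (nat_lit 6) true (nat_lit 7) (.s false (nat_lit 3) (nat_lit 18) (nat_lit 0) (nat_lit 2) (nat_lit 2) true (nat_lit 4) true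 (nat_lit 6) false (nat_lit 0) true (nat_lit 8) true (nat_lit 6) (.s true (nat_lit 3) (nat_lit 18) (nat_lit 2) (nat_lit 0) (nat_lit 2) true (nat_lit 2) true (nat_lit 6) false (nat_lit 0) true (nat_lit 6) true (nat_lit 8) (.s false (nat_lit 3) (nat_lit 18) (nat_lit 2) (nat_lit 2) (nat_lit 0) true (nat_lit 4) true (nat_lit 8) false (nat_lit 0) true (nat_lit 6) true (nat_lit 6) (.s false (nat_lit 3) (nat_lit 20) (nat_lit 1) (nat_lit 0) (nat_lit 2) true (nat_lit 3) true (nat_lit 6) false (nat_lit 1) true (nat_lit 7) true (nat_lit 8) (.s true (nat_lit 3) (nat_lit 20) (nat_lit 2) (nat_lit 1) (nat_lit 0) true (nat_lit 4) true (nat_lit 8) false (nat_lit 1) true (nat_lit 6) true (nat_lit 7) (.e false (nat_lit 3) (nat_lit 33) (nat_lit 7) (nat_lit 2) (.e false (nat_lit 1) (nat_lit 34) (nat_lit 7) (nat_lit 2) (.e false (nat_lit 3) (nat_lit 80) (nat_lit 2) (nat_lit 6) (.e true (nat_lit 3) (nat_lit 81)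 (nat_lit 2) (nat_lit 6) (.e true (nat_lit 1) (nat_lit 83) (nat_lit 2) (nat_lit 6) (.e false (nat_lit 3) (nat_lit 84) (nat_lit 2) (nat_lit 6) (.e true (nat_lit 3) (nat_lit 85) (nat_lit 2) (nat_lit 6) (.e false (nat_lit 1) (nat_lit 86) (nat_lit 2) (nat_lit 6) (.e true (nat_lit 2) (nat_lit 89) (nat_lit 2) (nat_lit 6) (.e false (nat_lit 1) (nat_lit 87) (nat_lit 2) (nat_lit 6) (.e true (nat_lit 1) (nat_lit 90) (nat_lit 2) (nat_lit 6) (.e true (nat_lit 1) (nat_lit 82) (nat_lit 2) (nat_lit 6) (.e true (nat_lit 2) (nat_lit 88) (nat_lit 2) (nat_lit 6) (.e true (nat_lit 3) (nat_lit 20) (nat_lit 11) (nat_lit 1) (.u (nat_lit 2) (.n (nat_lit 8) (nat_lit 1) (.p (nat_lit 12) (nat_lit 1) (.p (nat_lit 16) (nat_lit 1) (.n (nat_lit 23) (nat_lit 1) (.p (nat_lit 27) (nat_lit 1) (.p (nat_lit 28) (nat_lit 1) (.p (nat_lit 32) (nat_lit 1) (.p (nat_lit 36) (nat_lit 1) (.n (nat_lit 37) (nat_lit 1) (.p (nat_lit 38)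 (nat_lit 1) (.p (nat_lit 39) (nat_lit 1) (.n (nat_lit 40) (nat_lit 1) (.n (nat_lit 42) (nat_lit 1) (.n (nat_lit 44) (nat_lit 1) (.p (nat_lit 45) (nat_lit 1) (.p (nat_lit 49) (nat_lit 1) (.n (nat_lit 50) (nat_lit 1) .z))))))))))))))))) .nil)))))))))))))))))))))))))

noncomputable def dC2c_i56 : IL := (.s false (nat_lit 3) (nat_lit 43) (nat_lit 2) (nat_lit 2) (nat_lit 1) true (nat_lit 5) true (nat_lit 9) false (nat_lit 1) true (nat_lit 8) true (nat_lit 8) (.s false (nat_lit 3) (nat_lit 44) (nat_lit 2) (nat_lit 2) (nat_lit 1) true (nat_lit 5) true (nat_lit 9) false (nat_lit 1) true (nat_lit 8) true (nat_lit 8) (.s true (nat_lit 3) (nat_lit 47) (nat_lit 0) (nat_lit 2) (nat_lit 2) true (nat_lit 6) true (nat_lit 8) false (nat_lit 2) true (nat_lit 10) true (nat_lit 8) (.s false (nat_lit 3) (nat_lit 48) (nat_lit 2) (nat_lit 0) (nat_lit 1) true (nat_lit 5) true (nat_lit 9) false (nat_lit 3) true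 (nat_lit 8) true (nat_lit 10) (.s true (nat_lit 3) (nat_lit 48) (nat_lit 2) (nat_lit 1) (nat_lit 0) true (nat_lit 6) true (nat_lit 10) false (nat_lit 3) true (nat_lit 8) true (nat_lit 9) (.e false (nat_lit 3) (nat_lit 34) (nat_lit 20) (nat_lit 0) (.e true (nat_lit 3) (nat_lit 81) (nat_lit 7) (nat_lit 4) (.e false (nat_lit 3) (nat_lit 89) (nat_lit 7) (nat_lit 4) (.e true (nat_lit 2) (nat_lit 172) (nat_lit 2) (nat_lit 8) (.e true (nat_lit 3) (nat_lit 174) (nat_lit 2) (nat_lit 8) (.e true (nat_lit 2) (nat_lit 175) (nat_lit 2) (nat_lit 8) (.e true (nat_lit 1) (nat_lit 177) (nat_lit 2) (nat_lit 8) (.e false (nat_lit 1) (nat_lit 180) (nat_lit 2) (nat_lit 8) (.e false (nat_lit 2) (nat_lit 182) (nat_lit 2) (nat_lit 8) (.e true (nat_lit 1) (nat_lit 184) (nat_lit 2) (nat_lit 8) (.e true (nat_lit 3) (nat_lit 176) (nat_lit 2) (nat_lit 8) (.e true (nat_lit 2) (nat_lit 179) (nat_lit 2) (nat_lit 8) (.e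 false (nat_lit 2) (nat_lit 169) (nat_lit 2) (nat_lit 8) (.e false (nat_lit 1) (nat_lit 170) (nat_lit 2) (nat_lit 8) (.e true (nat_lit 2) (nat_lit 173) (nat_lit 2) (nat_lit 8) (.e false (nat_lit 2) (nat_lit 171) (nat_lit 2) (nat_lit 8) (.e true (nat_lit 3) (nat_lit 183) (nat_lit 2) (nat_lit 8) (.e false (nat_lit 3) (nat_lit 35) (nat_lit 20) (nat_lit 0) (.e false (nat_lit 3) (nat_lit 48) (nat_lit 13) (nat_lit 3) (.u (nat_lit 2) (.p (nat_lit 2) (nat_lit 1) (.n (nat_lit 6) (nat_lit 1) (.n (nat_lit 7) (nat_lit 1) (.n (nat_lit 10) (nat_lit 1) (.p (nat_lit 12) (nat_lit 1) (.n (nat_lit 13) (nat_lit 1) (.p (nat_lit 18) (nat_lit 1) (.p (nat_lit 53) (nat_lit 1) (.p (nat_lit 54) (nat_lit 1) (.n (nat_lit 58) (nat_lit 1) (.n (nat_lit 60) (nat_lit 3) (.p (nat_lit 61) (nat_lit 4) (.n (nat_lit 62) (nat_lit 1) (.p (nat_lit 63) (nat_lit 9) (.p (nat_lit 64) (nat_lit 3) (.n (nat_lit 65) (nat_lit 3) (.n (nat_lit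 66) (nat_lit 2) (.p (nat_lit 67) (nat_lit 1) (.p (nat_lit 68) (nat_lit 1) (.p (nat_lit 69) (nat_lit 7) (.p (nat_lit 70) (nat_lit 4) (.n (nat_lit 71) (nat_lit 1) (.p (nat_lit 73) (nat_lit 1) (.n (nat_lit 75) (nat_lit 1) .z)))))))))))))))))))))))) .nil)))))))))))))))))))))))))

noncomputable def dC2c_i57 : IL := (.e true (nat_lit 1) (nat_lit 303) (nat_lit 0) (nat_lit 18) (.e false (nat_lit 1) (nat_lit 205) (nat_lit 2) (nat_lit 16) (.e false (nat_lit 1) (nat_lit 206) (nat_lit 2) (nat_lit 16) (.e false (nat_lit 1) (nat_lit 207) (nat_lit 2) (nat_lit 16) (.e true (nat_lit 3) (nat_lit 211) (nat_lit 2) (nat_lit 16) (.e true (nat_lit 1) (nat_lit 212) (nat_lit 2) (nat_lit 16) (.e false (nat_lit 3) (nat_lit 213) (nat_lit 2) (nat_lit 16) (.e false (nat_lit 1) (nat_lit 214) (nat_lit 2) (nat_lit 16) (.e true (nat_lit 3) (nat_lit 215) (nat_lit 2) (nat_lit 16) (.e false (nat_lit 2) (nat_lit 217) (nat_lit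 2) (nat_lit 16) (.e false (nat_lit 1) (nat_lit 219) (nat_lit 2) (nat_lit 16) (.e true (nat_lit 1) (nat_lit 221) (nat_lit 2) (nat_lit 16) (.e true (nat_lit 1) (nat_lit 225) (nat_lit 2) (nat_lit 16) (.e false (nat_lit 3) (nat_lit 227) (nat_lit 2) (nat_lit 16) (.e true (nat_lit 2) (nat_lit 229) (nat_lit 2) (nat_lit 16) (.e true (nat_lit 2) (nat_lit 230) (nat_lit 2) (nat_lit 16) (.e true (nat_lit 3) (nat_lit 242) (nat_lit 2) (nat_lit 16) (.e true (nat_lit 2) (nat_lit 243) (nat_lit 2) (nat_lit 16) (.e true (nat_lit 1) (nat_lit 245) (nat_lit 2) (nat_lit 16) (.e true (nat_lit 3) (nat_lit 246) (nat_lit 2) (nat_lit 16) (.e true (nat_lit 3) (nat_lit 247) (nat_lit 2) (nat_lit 16) (.e false (nat_lit 1) (nat_lit 248) (nat_lit 2) (nat_lit 16) (.e false (nat_lit 1) (nat_lit 251) (nat_lit 2) (nat_lit 16) (.e false (nat_lit 1) (nat_lit 216) (nat_lit 2) (nat_lit 16) (.u (nat_lit 2) (.p (nat_lit 1) (nat_lit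 3) (.n (nat_lit 2) (nat_lit 3) (.p (nat_lit 3) (nat_lit 3) (.n (nat_lit 4) (nat_lit 4) (.p (nat_lit 6) (nat_lit 6) (.n (nat_lit 7) (nat_lit 4) (.n (nat_lit 8) (nat_lit 2) (.p (nat_lit 9) (nat_lit 6) (.p (nat_lit 10) (nat_lit 2) (.n (nat_lit 11) (nat_lit 5) (.p (nat_lit 12) (nat_lit 1) (.p (nat_lit 14) (nat_lit 1) (.p (nat_lit 15) (nat_lit 3) (.p (nat_lit 16) (nat_lit 2) (.p (nat_lit 17) (nat_lit 3) (.p (nat_lit 18) (nat_lit 4) (.n (nat_lit 19) (nat_lit 3) (.p (nat_lit 20) (nat_lit 2) (.n (nat_lit 21) (nat_lit 6) (.p (nat_lit 22) (nat_lit 6) (.p (nat_lit 23) (nat_lit 1) (.p (nat_lit 24) (nat_lit 2) (.p (nat_lit 25) (nat_lit 2) (.n (nat_lit 26) (nat_lit 1) (.p (nat_lit 27) (nat_lit 1) (.p (nat_lit 28) (nat_lit 1) (.p (nat_lit 29) (nat_lit 2) (.p (nat_lit 31) (nat_lit 7) (.p (nat_lit 32) (nat_lit 3) (.n (nat_lit 33) (nat_lit 1) (.n (nat_lit 34) (nat_lit 3) (.n (nat_lit 35) (nat_lit 1) (.p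 (nat_lit 36) (nat_lit 3) (.n (nat_lit 37) (nat_lit 3) (.p (nat_lit 38) (nat_lit 1) (.p (nat_lit 40) (nat_lit 1) (.p (nat_lit 44) (nat_lit 1) (.n (nat_lit 45) (nat_lit 6) (.n (nat_lit 46) (nat_lit 5) (.n (nat_lit 48) (nat_lit 1) (.p (nat_lit 312) (nat_lit 1) (.n (nat_lit 314) (nat_lit 1) (.p (nat_lit 322) (nat_lit 1) (.p (nat_lit 327) (nat_lit 1) (.p (nat_lit 344) (nat_lit 1) (.n (nat_lit 348) (nat_lit 1) .z)))))))))))))))))))))))))))))))))))))))))))))) .nil)))))))))))))))))))))))))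

noncomputable def dC2c_i58 : IL := (.e true (nat_lit 1) (nat_lit 334) (nat_lit 0) (nat_lit 16) (.e true (nat_lit 3) (nat_lit 252) (nat_lit 2) (nat_lit 14) (.e true (nat_lit 2) (nat_lit 253) (nat_lit 2) (nat_lit 14) (.e false (nat_lit 3) (nat_lit 258) (nat_lit 2) (nat_lit 14) (.e true (nat_lit 3) (nat_lit 259) (nat_lit 2) (nat_lit 14) (.e false (nat_lit 3) (nat_lit 260) (nat_lit 2) (nat_lit 14) (.e true (nat_lit 2) (nat_lit 261) (nat_lit 2) (nat_lit 14) (.e false (nat_lit 3) (nat_lit 264) (nat_lit 2) (nat_lit 14) (.e true (nat_lit 2) (nat_lit 265) (nat_lit 2) (nat_lit 14) (.e false (nat_lit 3) (nat_lit 267) (nat_lit 2) (nat_lit 14) (.e false (nat_lit 1) (nat_lit 269) (nat_lit 2) (nat_lit 14) (.e false (nat_lit 2) (nat_lit 270) (nat_lit 2) (nat_lit 14) (.e true (nat_lit 3) (nat_lit 271) (nat_lit 2) (nat_lit 14) (.e true (nat_lit 3) (nat_lit 272) (nat_lit 2) (nat_lit 14) (.e true (nat_lit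 1) (nat_lit 273) (nat_lit 2) (nat_lit 14) (.e true (nat_lit 1) (nat_lit 274) (nat_lit 2) (nat_lit 14) (.e false (nat_lit 2) (nat_lit 275) (nat_lit 2) (nat_lit 14) (.e false (nat_lit 3) (nat_lit 276) (nat_lit 2) (nat_lit 14) (.e false (nat_lit 1) (nat_lit 277) (nat_lit 2) (nat_lit 14) (.e false (nat_lit 3) (nat_lit 254) (nat_lit 2) (nat_lit 14) (.e true (nat_lit 3) (nat_lit 255) (nat_lit 2) (nat_lit 14) (.e true (nat_lit 1) (nat_lit 256) (nat_lit 2) (nat_lit 14) (.e true (nat_lit 2) (nat_lit 262) (nat_lit 2) (nat_lit 14) (.e true (nat_lit 3) (nat_lit 263) (nat_lit 2) (nat_lit 14) (.u (nat_lit 2) (.n (nat_lit 0) (nat_lit 3) (.n (nat_lit 1) (nat_lit 2) (.n (nat_lit 2) (nat_lit 2) (.p (nat_lit 3) (nat_lit 3) (.n (nat_lit 5) (nat_lit 3) (.n (nat_lit 6) (nat_lit 1) (.p (nat_lit 7) (nat_lit 1) (.n (nat_lit 8) (nat_lit 1) (.n (nat_lit 9) (nat_lit 1) (.p (nat_lit 10) (nat_lit 1) (.p (nat_lit 11)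 (nat_lit 2) (.p (nat_lit 12) (nat_lit 6) (.p (nat_lit 13) (nat_lit 2) (.p (nat_lit 14) (nat_lit 1) (.n (nat_lit 15) (nat_lit 2) (.n (nat_lit 16) (nat_lit 2) (.p (nat_lit 17) (nat_lit 1) (.n (nat_lit 18) (nat_lit 4) (.p (nat_lit 19) (nat_lit 3) (.p (nat_lit 21) (nat_lit 4) (.p (nat_lit 23) (nat_lit 4) (.p (nat_lit 24) (nat_lit 4) (.p (nat_lit 31) (nat_lit 1) (.n (nat_lit 34) (nat_lit 5) (.n (nat_lit 35) (nat_lit 1) (.p (nat_lit 38) (nat_lit 3) (.p (nat_lit 205) (nat_lit 1) (.n (nat_lit 210) (nat_lit 1) (.p (nat_lit 211) (nat_lit 1) (.n (nat_lit 212) (nat_lit 1) (.n (nat_lit 216) (nat_lit 1) .z))))))))))))))))))))))))))))))) .nil)))))))))))))))))))))))))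

noncomputable def dC2c_i59 : IL := (.e true (nat_lit 1) (nat_lit 334) (nat_lit 0) (nat_lit 16) (.e true (nat_lit 1) (nat_lit 252) (nat_lit 2) (nat_lit 14) (.e true (nat_lit 2) (nat_lit 253) (nat_lit 2) (nat_lit 14) (.e true (nat_lit 1) (nat_lit 256) (nat_lit 2) (nat_lit 14) (.e true (nat_lit 1) (nat_lit 257) (nat_lit 2) (nat_lit 14) (.e true (nat_lit 1) (nat_lit 259) (nat_lit 2) (nat_lit 14) (.e false (nat_lit 1) (nat_lit 260) (nat_lit 2) (nat_lit 14) (.e true (nat_lit 3) (nat_lit 261) (nat_lit 2) (nat_lit 14) (.e false (nat_lit 1) (nat_lit 262) (nat_lit 2) (nat_lit 14) (.e true (nat_lit 1) (nat_lit 265) (nat_lit 2) (nat_lit 14) (.e false (nat_lit 1) (nat_lit 271) (nat_lit 2) (nat_lit 14) (.e false (nat_lit 1) (nat_lit 272) (nat_lit 2) (nat_lit 14) (.e true (nat_lit 1) (nat_lit 274) (nat_lit 2) (nat_lit 14) (.e true (nat_lit 1) (nat_lit 276) (nat_lit 2) (nat_lit 14) (.e true (nat_lit 2)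 (nat_lit 277) (nat_lit 2) (nat_lit 14) (.e false (nat_lit 3) (nat_lit 283) (nat_lit 2) (nat_lit 14) (.e true (nat_lit 3) (nat_lit 285) (nat_lit 2) (nat_lit 14) (.e false (nat_lit 2) (nat_lit 255) (nat_lit 2) (nat_lit 14) (.e true (nat_lit 2) (nat_lit 263) (nat_lit 2) (nat_lit 14) (.e false (nat_lit 1) (nat_lit 269) (nat_lit 2) (nat_lit 14) (.e false (nat_lit 3) (nat_lit 273) (nat_lit 2) (nat_lit 14) (.e true (nat_lit 1) (nat_lit 258) (nat_lit 2) (nat_lit 14) (.e false (nat_lit 3) (nat_lit 264) (nat_lit 2) (nat_lit 14) (.e false (nat_lit 1) (nat_lit 266) (nat_lit 2) (nat_lit 14) (.u (nat_lit 2) (.p (nat_lit 0) (nat_lit 1) (.n (nat_lit 1) (nat_lit 3) (.n (nat_lit 2) (nat_lit 1) (.n (nat_lit 5) (nat_lit 1) (.p (nat_lit 6) (nat_lit 1) (.p (nat_lit 7) (nat_lit 1) (.n (nat_lit 8) (nat_lit 4) (.n (nat_lit 9) (nat_lit 1) (.p (nat_lit 11) (nat_lit 1) (.n (nat_lit 13) (nat_lit 1) (.n (nat_lit 14)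 (nat_lit 1) (.p (nat_lit 15) (nat_lit 3) (.p (nat_lit 16) (nat_lit 3) (.n (nat_lit 17) (nat_lit 1) (.n (nat_lit 18) (nat_lit 3) (.p (nat_lit 19) (nat_lit 1) (.p (nat_lit 21) (nat_lit 4) (.n (nat_lit 24) (nat_lit 1) (.n (nat_lit 25) (nat_lit 2) (.p (nat_lit 30) (nat_lit 1) (.p (nat_lit 34) (nat_lit 1) (.p (nat_lit 35) (nat_lit 1) (.n (nat_lit 38) (nat_lit 2) (.n (nat_lit 204) (nat_lit 1) (.p (nat_lit 205) (nat_lit 1) (.n (nat_lit 207) (nat_lit 1) (.p (nat_lit 208) (nat_lit 1) (.p (nat_lit 211) (nat_lit 1) (.n (nat_lit 212) (nat_lit 1) (.p (nat_lit 213) (nat_lit 1) (.n (nat_lit 214) (nat_lit 1) (.n (nat_lit 216) (nat_lit 1) (.n (nat_lit 217) (nat_lit 1) (.p (nat_lit 219) (nat_lit 1) (.p (nat_lit 221) (nat_lit 1) (.p (nat_lit 222) (nat_lit 1) (.n (nat_lit 223) (nat_lit 1) (.n (nat_lit 224) (nat_lit 1) (.n (nat_lit 225) (nat_lit 1) (.p (nat_lit 226) (nat_lit 1) (.p (nat_lit 228) (nat_lit 1)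 (.n (nat_lit 234) (nat_lit 1) .z)))))))))))))))))))))))))))))))))))))))))) .nil)))))))))))))))))))))))))

noncomputable def dC2c_c261 : Cm := .mk (nat_lit 377) (nat_lit 261) (nat_lit 195) (nat_lit 5) (.c (nat_lit 20) (nat_lit 1) (nat_lit 16) (nat_lit 2) (nat_lit 5) (.c (nat_lit 42) (nat_lit 3) (nat_lit 7) (nat_lit 1) (nat_lit 7) (.c (nat_lit 48) (nat_lit 1) (nat_lit 5) (nat_lit 1) (nat_lit 10) (.c (nat_lit 97) (nat_lit 4) (nat_lit 2) (nat_lit 1) (nat_lit 11) (.c (nat_lit 105) (nat_lit 1) (nat_lit 0) (nat_lit 1) (nat_lit 15) .nil)))))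

noncomputable def dC2c_i60 : IL := (.e false (nat_lit 3) (nat_lit 133) (nat_lit 2) (nat_lit 11) (.e true (nat_lit 3) (nat_lit 134) (nat_lit 2) (nat_lit 11) (.e false (nat_lit 3) (nat_lit 135) (nat_lit 2) (nat_lit 11) (.e false (nat_lit 2) (nat_lit 136) (nat_lit 2) (nat_lit 11) (.e false (nat_lit 3) (nat_lit 138) (nat_lit 2) (nat_lit 11) (.e false (nat_lit 2) (nat_lit 139) (nat_lit 2) (nat_lit 11) (.e true (nat_lit 2) (nat_lit 140) (nat_lit 2) (nat_lit 11) (.e true (nat_lit 1) (nat_lit 143) (nat_lit 2) (nat_lit 11) (.e false (nat_lit 2) (nat_lit 144) (nat_lit 2) (nat_lit 11) (.e false (nat_lit 3) (nat_lit 145) (nat_lit 2) (nat_lit 11) (.e false (nat_lit 1) (nat_lit 39) (nat_lit 16) (nat_lit 2) (.e false (nat_lit 3) (nat_lit 132) (nat_lit 2) (nat_lit 11) (.e false (nat_lit 1) (nat_lit 137) (nat_lit 2) (nat_lit 11) (.e true (nat_lit 1) (nat_lit 141) (nat_lit 2) (nat_lit 11) (.e true (nat_lit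 1) (nat_lit 147) (nat_lit 2) (nat_lit 11) (.e true (nat_lit 2) (nat_lit 149) (nat_lit 2) (nat_lit 11) (.e true (nat_lit 3) (nat_lit 150) (nat_lit 2) (nat_lit 11) (.e false (nat_lit 2) (nat_lit 151) (nat_lit 2) (nat_lit 11) (.e false (nat_lit 3) (nat_lit 152) (nat_lit 2) (nat_lit 11) (.e false (nat_lit 2) (nat_lit 153) (nat_lit 2) (nat_lit 11) (.e false (nat_lit 1) (nat_lit 154) (nat_lit 2) (nat_lit 11) (.e true (nat_lit 2) (nat_lit 155) (nat_lit 2) (nat_lit 11) (.e false (nat_lit 3) (nat_lit 156) (nat_lit 2) (nat_lit 11) (.e true (nat_lit 2) (nat_lit 157) (nat_lit 2) (nat_lit 11) (.u (nat_lit 2) (.p (nat_lit 0) (nat_lit 1) (.p (nat_lit 4) (nat_lit 1) (.p (nat_lit 6) (nat_lit 1) (.n (nat_lit 11) (nat_lit 1) (.p (nat_lit 13) (nat_lit 1) (.p (nat_lit 20) (nat_lit 1) (.p (nat_lit 22) (nat_lit 1) (.p (nat_lit 24) (nat_lit 1) (.p (nat_lit 30) (nat_lit 1) (.n (nat_lit 31) (nat_lit 1) (.p (nat_lit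 33) (nat_lit 1) (.n (nat_lit 118) (nat_lit 1) (.p (nat_lit 119) (nat_lit 1) (.n (nat_lit 121) (nat_lit 1) (.n (nat_lit 123) (nat_lit 1) .z))))))))))))))) .nil)))))))))))))))))))))))))

noncomputable def dC2c_i61 : IL := (.e false (nat_lit 3) (nat_lit 211) (nat_lit 2) (nat_lit 16) (.e true (nat_lit 3) (nat_lit 213) (nat_lit 2) (nat_lit 16) (.e false (nat_lit 3) (nat_lit 215) (nat_lit 2) (nat_lit 16) (.e false (nat_lit 3) (nat_lit 217) (nat_lit 2) (nat_lit 16) (.e false (nat_lit 1) (nat_lit 219) (nat_lit 2) (nat_lit 16) (.e true (nat_lit 1) (nat_lit 221) (nat_lit 2) (nat_lit 16) (.e true (nat_lit 2) (nat_lit 227) (nat_lit 2) (nat_lit 16) (.e false (nat_lit 1) (nat_lit 74) (nat_lit 16) (nat_lit 6) (.e true (nat_lit 2) (nat_lit 212) (nat_lit 2) (nat_lit 16) (.e false (nat_lit 2) (nat_lit 214) (nat_lit 2) (nat_lit 16) (.e false (nat_lit 3) (nat_lit 216) (nat_lit 2) (nat_lit 16) (.e false (nat_lit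 1) (nat_lit 225) (nat_lit 2) (nat_lit 16) (.e true (nat_lit 3) (nat_lit 228) (nat_lit 2) (nat_lit 16) (.e false (nat_lit 1) (nat_lit 229) (nat_lit 2) (nat_lit 16) (.e false (nat_lit 1) (nat_lit 230) (nat_lit 2) (nat_lit 16) (.e false (nat_lit 2) (nat_lit 231) (nat_lit 2) (nat_lit 16) (.e false (nat_lit 1) (nat_lit 232) (nat_lit 2) (nat_lit 16) (.e false (nat_lit 3) (nat_lit 242) (nat_lit 2) (nat_lit 16) (.e false (nat_lit 1) (nat_lit 243) (nat_lit 2) (nat_lit 16) (.e true (nat_lit 3) (nat_lit 245) (nat_lit 2) (nat_lit 16) (.e true (nat_lit 2) (nat_lit 246) (nat_lit 2) (nat_lit 16) (.e false (nat_lit 2) (nat_lit 247) (nat_lit 2) (nat_lit 16) (.e false (nat_lit 2) (nat_lit 248) (nat_lit 2) (nat_lit 16) (.e true (nat_lit 3) (nat_lit 249) (nat_lit 2) (nat_lit 16) (.u (nat_lit 2) (.n (nat_lit 0) (nat_lit 3) (.n (nat_lit 3) (nat_lit 1) (.p (nat_lit 4) (nat_lit 3) (.p (nat_lit 5) (nat_lit 6) (.n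 (nat_lit 7) (nat_lit 1) (.p (nat_lit 9) (nat_lit 2) (.n (nat_lit 10) (nat_lit 2) (.n (nat_lit 11) (nat_lit 2) (.n (nat_lit 12) (nat_lit 3) (.p (nat_lit 14) (nat_lit 2) (.n (nat_lit 15) (nat_lit 7) (.p (nat_lit 16) (nat_lit 2) (.n (nat_lit 18) (nat_lit 5) (.p (nat_lit 21) (nat_lit 3) (.n (nat_lit 22) (nat_lit 3) (.n (nat_lit 23) (nat_lit 1) (.n (nat_lit 24) (nat_lit 5) (.n (nat_lit 25) (nat_lit 3) (.n (nat_lit 26) (nat_lit 1) (.n (nat_lit 27) (nat_lit 5) (.p (nat_lit 28) (nat_lit 2) (.n (nat_lit 29) (nat_lit 5) (.n (nat_lit 31) (nat_lit 3) (.n (nat_lit 33) (nat_lit 3) (.p (nat_lit 34) (nat_lit 5) (.n (nat_lit 35) (nat_lit 1) (.p (nat_lit 36) (nat_lit 1) (.p (nat_lit 37) (nat_lit 2) (.p (nat_lit 38) (nat_lit 3) (.p (nat_lit 39) (nat_lit 4) (.p (nat_lit 40) (nat_lit 1) (.p (nat_lit 42) (nat_lit 2) (.p (nat_lit 44) (nat_lit 1) (.p (nat_lit 46) (nat_lit 6) (.n (nat_lit 47) (nat_lit 5) (.n (nat_lit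 48) (nat_lit 1) (.p (nat_lit 55) (nat_lit 1) .z))))))))))))))))))))))))))))))))))))) .nil)))))))))))))))))))))))))

noncomputable def dC2c_i62 : IL := (.e true (nat_lit 1) (nat_lit 272) (nat_lit 2) (nat_lit 14) (.e false (nat_lit 1) (nat_lit 274) (nat_lit 2) (nat_lit 14) (.e false (nat_lit 1) (nat_lit 276) (nat_lit 2) (nat_lit 14) (.e false (nat_lit 2) (nat_lit 277) (nat_lit 2) (nat_lit 14) (.e true (nat_lit 3) (nat_lit 283) (nat_lit 2) (nat_lit 14) (.e false (nat_lit 3) (nat_lit 285) (nat_lit 2) (nat_lit 14) (.e true (nat_lit 2) (nat_lit 255) (nat_lit 2) (nat_lit 14) (.e false (nat_lit 2) (nat_lit 263) (nat_lit 2) (nat_lit 14) (.e true (nat_lit 1) (nat_lit 269) (nat_lit 2) (nat_lit 14) (.e true (nat_lit 3) (nat_lit 273) (nat_lit 2) (nat_lit 14) (.e false (nat_lit 1) (nat_lit 258) (nat_lit 2) (nat_lit 14) (.e true (nat_lit 3) (nat_lit 264) (nat_lit 2) (nat_lit 14) (.e true (nat_lit 1) (nat_lit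 266) (nat_lit 2) (nat_lit 14) (.e false (nat_lit 1) (nat_lit 65) (nat_lit 20) (nat_lit 3) (.e false (nat_lit 1) (nat_lit 98) (nat_lit 15) (nat_lit 6) (.e false (nat_lit 1) (nat_lit 99) (nat_lit 15) (nat_lit 6) (.e true (nat_lit 3) (nat_lit 324) (nat_lit 0) (nat_lit 16) (.e true (nat_lit 1) (nat_lit 326) (nat_lit 0) (nat_lit 16) (.e false (nat_lit 1) (nat_lit 327) (nat_lit 0) (nat_lit 16) (.e false (nat_lit 3) (nat_lit 328) (nat_lit 0) (nat_lit 16) (.e false (nat_lit 1) (nat_lit 329) (nat_lit 0) (nat_lit 16) (.e true (nat_lit 1) (nat_lit 330) (nat_lit 0) (nat_lit 16) (.e false (nat_lit 1) (nat_lit 333) (nat_lit 0) (nat_lit 16) (.e false (nat_lit 1) (nat_lit 334) (nat_lit 0) (nat_lit 16) (.u (nat_lit 2) (.n (nat_lit 0) (nat_lit 2) (.p (nat_lit 1) (nat_lit 4) (.p (nat_lit 2) (nat_lit 2) (.n (nat_lit 7) (nat_lit 3) (.p (nat_lit 8) (nat_lit 3) (.p (nat_lit 9) (nat_lit 2) (.p (nat_lit 12) (nat_lit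 1) (.p (nat_lit 13) (nat_lit 1) (.p (nat_lit 14) (nat_lit 1) (.n (nat_lit 15) (nat_lit 3) (.n (nat_lit 16) (nat_lit 3) (.p (nat_lit 17) (nat_lit 1) (.p (nat_lit 18) (nat_lit 3) (.n (nat_lit 19) (nat_lit 2) (.n (nat_lit 21) (nat_lit 3) (.p (nat_lit 25) (nat_lit 2) (.n (nat_lit 30) (nat_lit 1) (.n (nat_lit 35) (nat_lit 2) (.p (nat_lit 38) (nat_lit 2) (.p (nat_lit 204) (nat_lit 1) (.n (nat_lit 205) (nat_lit 1) (.p (nat_lit 207) (nat_lit 1) (.n (nat_lit 208) (nat_lit 1) (.n (nat_lit 211) (nat_lit 1) (.p (nat_lit 212) (nat_lit 1) (.n (nat_lit 213) (nat_lit 1) (.p (nat_lit 214) (nat_lit 1) (.p (nat_lit 216) (nat_lit 1) (.p (nat_lit 217) (nat_lit 1) (.n (nat_lit 219) (nat_lit 1) (.n (nat_lit 221) (nat_lit 1) (.n (nat_lit 222) (nat_lit 1) (.p (nat_lit 223) (nat_lit 1) (.p (nat_lit 224) (nat_lit 1) (.p (nat_lit 225) (nat_lit 1) (.n (nat_lit 226) (nat_lit 1) (.n (nat_lit 228) (nat_lit 1) (.p (nat_lit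 234) (nat_lit 1) .z)))))))))))))))))))))))))))))))))))))) .nil)))))))))))))))))))))))))

noncomputable def dC2c_i63 : IL := (.e false (nat_lit 2) (nat_lit 259) (nat_lit 1) (nat_lit 17) (.e true (nat_lit 2) (nat_lit 260) (nat_lit 1) (nat_lit 17) (.e true (nat_lit 2) (nat_lit 261) (nat_lit 1) (nat_lit 17) (.e false (nat_lit 1) (nat_lit 262) (nat_lit 1) (nat_lit 17) (.e true (nat_lit 1) (nat_lit 264) (nat_lit 1) (nat_lit 17) (.e false (nat_lit 3) (nat_lit 265) (nat_lit 1) (nat_lit 17) (.e true (nat_lit 1) (nat_lit 266) (nat_lit 1) (nat_lit 17) (.e false (nat_lit 3) (nat_lit 267) (nat_lit 1) (nat_lit 17) (.e true (nat_lit 2) (nat_lit 269) (nat_lit 1) (nat_lit 17) (.e false (nat_lit 2) (nat_lit 270) (nat_lit 1) (nat_lit 17) (.e true (nat_lit 1) (nat_lit 271) (nat_lit 1) (nat_lit 17) (.e false (nat_lit 1) (nat_lit 272) (nat_lit 1) (nat_lit 17) (.e true (nat_lit 1) (nat_lit 273) (nat_lit 1) (nat_lit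 17) (.e false (nat_lit 1) (nat_lit 274) (nat_lit 1) (nat_lit 17) (.e true (nat_lit 1) (nat_lit 275) (nat_lit 1) (nat_lit 17) (.e false (nat_lit 1) (nat_lit 276) (nat_lit 1) (nat_lit 17) (.e false (nat_lit 1) (nat_lit 277) (nat_lit 1) (nat_lit 17) (.e false (nat_lit 2) (nat_lit 283) (nat_lit 1) (nat_lit 17) (.e true (nat_lit 2) (nat_lit 285) (nat_lit 1) (nat_lit 17) (.e false (nat_lit 1) (nat_lit 258) (nat_lit 1) (nat_lit 17) (.e false (nat_lit 2) (nat_lit 280) (nat_lit 1) (nat_lit 17) (.e false (nat_lit 1) (nat_lit 263) (nat_lit 1) (nat_lit 17) (.e true (nat_lit 1) (nat_lit 282) (nat_lit 1) (nat_lit 17) (.e true (nat_lit 1) (nat_lit 286) (nat_lit 1) (nat_lit 17) (.u (nat_lit 2) (.p (nat_lit 1) (nat_lit 2) (.n (nat_lit 2) (nat_lit 2) (.p (nat_lit 3) (nat_lit 1) (.n (nat_lit 4) (nat_lit 1) (.n (nat_lit 5) (nat_lit 2) (.n (nat_lit 6) (nat_lit 2) (.p (nat_lit 7) (nat_lit 3) (.n (nat_lit 8)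 (nat_lit 2) (.p (nat_lit 9) (nat_lit 1) (.p (nat_lit 12) (nat_lit 1) (.p (nat_lit 15) (nat_lit 2) (.p (nat_lit 19) (nat_lit 1) (.n (nat_lit 20) (nat_lit 1) (.n (nat_lit 23) (nat_lit 3) (.p (nat_lit 24) (nat_lit 1) (.n (nat_lit 25) (nat_lit 1) (.p (nat_lit 27) (nat_lit 1) (.n (nat_lit 28) (nat_lit 1) (.n (nat_lit 29) (nat_lit 2) (.p (nat_lit 31) (nat_lit 1) (.n (nat_lit 33) (nat_lit 1) (.p (nat_lit 34) (nat_lit 1) (.n (nat_lit 35) (nat_lit 2) (.n (nat_lit 36) (nat_lit 1) (.p (nat_lit 37) (nat_lit 1) (.p (nat_lit 38) (nat_lit 1) (.p (nat_lit 42) (nat_lit 1) (.n (nat_lit 350) (nat_lit 3) (.p (nat_lit 351) (nat_lit 1) (.p (nat_lit 352) (nat_lit 1) (.p (nat_lit 354) (nat_lit 1) (.n (nat_lit 355) (nat_lit 3) (.n (nat_lit 356) (nat_lit 1) (.p (nat_lit 357) (nat_lit 1) (.n (nat_lit 358) (nat_lit 1) (.p (nat_lit 362) (nat_lit 2) (.n (nat_lit 363) (nat_lit 2) (.n (nat_lit 366) (nat_lit 2) (.n (nat_lit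 368) (nat_lit 1) (.n (nat_lit 369) (nat_lit 3) (.n (nat_lit 370) (nat_lit 2) (.p (nat_lit 373) (nat_lit 1) (.p (nat_lit 374) (nat_lit 2) (.p (nat_lit 375) (nat_lit 1) (.p (nat_lit 376) (nat_lit 1) (.n (nat_lit 377) (nat_lit 1) (.p (nat_lit 385) (nat_lit 1) .z))))))))))))))))))))))))))))))))))))))))))))))) .nil)))))))))))))))))))))))))

noncomputable def dC2c_i64 : IL := (.e false (nat_lit 1) (nat_lit 254) (nat_lit 1) (nat_lit 17) (.e false (nat_lit 2) (nat_lit 255) (nat_lit 1) (nat_lit 17) (.e true (nat_lit 2) (nat_lit 256) (nat_lit 1) (nat_lit 17) (.e false (nat_lit 2) (nat_lit 257) (nat_lit 1) (nat_lit 17) (.e false (nat_lit 2) (nat_lit 258) (nat_lit 1) (nat_lit 17) (.e false (nat_lit 2) (nat_lit 259) (nat_lit 1) (nat_lit 17) (.e true (nat_lit 2) (nat_lit 260) (nat_lit 1) (nat_lit 17) (.e false (nat_lit 2) (nat_lit 261) (nat_lit 1) (nat_lit 17) (.e false (nat_lit 1) (nat_lit 262) (nat_lit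 1) (nat_lit 17) (.e false (nat_lit 2) (nat_lit 265) (nat_lit 1) (nat_lit 17) (.e true (nat_lit 1) (nat_lit 266) (nat_lit 1) (nat_lit 17) (.e true (nat_lit 2) (nat_lit 267) (nat_lit 1) (nat_lit 17) (.e true (nat_lit 3) (nat_lit 269) (nat_lit 1) (nat_lit 17) (.e true (nat_lit 2) (nat_lit 270) (nat_lit 1) (nat_lit 17) (.e true (nat_lit 3) (nat_lit 272) (nat_lit 1) (nat_lit 17) (.e false (nat_lit 1) (nat_lit 274) (nat_lit 1) (nat_lit 17) (.e true (nat_lit 1) (nat_lit 275) (nat_lit 1) (nat_lit 17) (.e true (nat_lit 2) (nat_lit 283) (nat_lit 1) (nat_lit 17) (.e false (nat_lit 2) (nat_lit 285) (nat_lit 1) (nat_lit 17) (.e false (nat_lit 1) (nat_lit 279) (nat_lit 1) (nat_lit 17) (.e false (nat_lit 3) (nat_lit 280) (nat_lit 1) (nat_lit 17) (.e true (nat_lit 1) (nat_lit 288) (nat_lit 1) (nat_lit 17) (.e false (nat_lit 2) (nat_lit 282) (nat_lit 1) (nat_lit 17) (.e true (nat_lit 3) (nat_lit 263) (nat_lit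 1) (nat_lit 17) (.u (nat_lit 2) (.p (nat_lit 0) (nat_lit 1) (.n (nat_lit 1) (nat_lit 2) (.p (nat_lit 2) (nat_lit 2) (.n (nat_lit 3) (nat_lit 1) (.p (nat_lit 4) (nat_lit 2) (.p (nat_lit 5) (nat_lit 1) (.p (nat_lit 6) (nat_lit 1) (.n (nat_lit 7) (nat_lit 1) (.p (nat_lit 8) (nat_lit 1) (.n (nat_lit 10) (nat_lit 1) (.n (nat_lit 15) (nat_lit 2) (.n (nat_lit 16) (nat_lit 1) (.p (nat_lit 17) (nat_lit 1) (.n (nat_lit 18) (nat_lit 1) (.p (nat_lit 20) (nat_lit 1) (.p (nat_lit 23) (nat_lit 2) (.n (nat_lit 24) (nat_lit 1) (.p (nat_lit 25) (nat_lit 1) (.p (nat_lit 27) (nat_lit 1) (.p (nat_lit 28) (nat_lit 1) (.p (nat_lit 29) (nat_lit 1) (.n (nat_lit 31) (nat_lit 2) (.p (nat_lit 33) (nat_lit 2) (.n (nat_lit 34) (nat_lit 2) (.p (nat_lit 35) (nat_lit 2) (.n (nat_lit 37) (nat_lit 1) (.n (nat_lit 38) (nat_lit 2) (.p (nat_lit 42) (nat_lit 1) (.p (nat_lit 44) (nat_lit 1) (.p (nat_lit 349) (nat_lit 1) (.p (nat_lit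 350) (nat_lit 1) (.p (nat_lit 352) (nat_lit 2) (.p (nat_lit 353) (nat_lit 1) (.n (nat_lit 354) (nat_lit 1) (.p (nat_lit 355) (nat_lit 2) (.p (nat_lit 356) (nat_lit 1) (.n (nat_lit 357) (nat_lit 1) (.p (nat_lit 361) (nat_lit 1) (.n (nat_lit 362) (nat_lit 1) (.p (nat_lit 363) (nat_lit 1) (.p (nat_lit 366) (nat_lit 1) (.p (nat_lit 367) (nat_lit 1) (.n (nat_lit 370) (nat_lit 1) (.n (nat_lit 371) (nat_lit 1) (.p (nat_lit 374) (nat_lit 1) (.n (nat_lit 377) (nat_lit 1) .z)))))))))))))))))))))))))))))))))))))))))))))) .nil)))))))))))))))))))))))))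

noncomputable def dC2c_i65 : IL := (.s true (nat_lit 1) (nat_lit 20) (nat_lit 12) (nat_lit 1) (nat_lit 2) true (nat_lit 1) true (nat_lit 14) true (nat_lit 3) true (nat_lit 7) true (nat_lit 15) (.e false (nat_lit 1) (nat_lit 47) (nat_lit 34) (nat_lit 1) (.e false (nat_lit 1) (nat_lit 253) (nat_lit 2) (nat_lit 14) (.e true (nat_lit 1) (nat_lit 255) (nat_lit 2) (nat_lit 14) (.e true (nat_lit 2) (nat_lit 258) (nat_lit 2) (nat_lit 14) (.e true (nat_lit 2) (nat_lit 259) (nat_lit 2) (nat_lit 14) (.e false (nat_lit 2) (nat_lit 260) (nat_lit 2) (nat_lit 14) (.e false (nat_lit 3) (nat_lit 264) (nat_lit 2) (nat_lit 14) (.e false (nat_lit 2) (nat_lit 267) (nat_lit 2) (nat_lit 14) (.e true (nat_lit 1) (nat_lit 252) (nat_lit 2) (nat_lit 14) (.e true (nat_lit 3) (nat_lit 254) (nat_lit 2) (nat_lit 14) (.e true (nat_lit 3) (nat_lit 256) (nat_lit 2) (nat_lit 14) (.e true (nat_lit 3) (nat_lit 261) (nat_lit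 2) (nat_lit 14) (.e true (nat_lit 3) (nat_lit 263) (nat_lit 2) (nat_lit 14) (.e false (nat_lit 3) (nat_lit 265) (nat_lit 2) (nat_lit 14) (.e true (nat_lit 1) (nat_lit 270) (nat_lit 2) (nat_lit 14) (.e false (nat_lit 2) (nat_lit 272) (nat_lit 2) (nat_lit 14) (.e true (nat_lit 2) (nat_lit 274) (nat_lit 2) (nat_lit 14) (.e false (nat_lit 2) (nat_lit 275) (nat_lit 2) (nat_lit 14) (.e true (nat_lit 1) (nat_lit 63) (nat_lit 20) (nat_lit 3) (.e false (nat_lit 1) (nat_lit 103) (nat_lit 12) (nat_lit 7) (.e true (nat_lit 1) (nat_lit 104) (nat_lit 12) (nat_lit 7) (.e false (nat_lit 1) (nat_lit 314) (nat_lit 1) (nat_lit 15) (.e true (nat_lit 1) (nat_lit 322) (nat_lit 1) (nat_lit 15) (.u (nat_lit 2) (.n (nat_lit 0) (nat_lit 1) (.n (nat_lit 1) (nat_lit 1) (.n (nat_lit 2) (nat_lit 4) (.p (nat_lit 3) (nat_lit 1) (.p (nat_lit 4) (nat_lit 4) (.n (nat_lit 5) (nat_lit 5) (.p (nat_lit 6) (nat_lit 3) (.p (nat_lit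 7) (nat_lit 1) (.n (nat_lit 8) (nat_lit 2) (.n (nat_lit 9) (nat_lit 1) (.n (nat_lit 10) (nat_lit 1) (.p (nat_lit 11) (nat_lit 1) (.p (nat_lit 12) (nat_lit 4) (.p (nat_lit 13) (nat_lit 2) (.p (nat_lit 14) (nat_lit 2) (.n (nat_lit 15) (nat_lit 1) (.n (nat_lit 16) (nat_lit 1) (.n (nat_lit 18) (nat_lit 1) (.p (nat_lit 21) (nat_lit 4) (.p (nat_lit 23) (nat_lit 3) (.n (nat_lit 24) (nat_lit 2) (.n (nat_lit 25) (nat_lit 1) (.p (nat_lit 34) (nat_lit 1) (.p (nat_lit 35) (nat_lit 1) (.n (nat_lit 216) (nat_lit 1) .z))))))))))))))))))))))))) .nil)))))))))))))))))))))))))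

noncomputable def dC2c_i66 : IL := (.e true (nat_lit 3) (nat_lit 256) (nat_lit 1) (nat_lit 17) (.e false (nat_lit 3) (nat_lit 257) (nat_lit 1) (nat_lit 17) (.e true (nat_lit 2) (nat_lit 258) (nat_lit 1) (nat_lit 17) (.e true (nat_lit 3) (nat_lit 259) (nat_lit 1) (nat_lit 17) (.e false (nat_lit 3) (nat_lit 260) (nat_lit 1) (nat_lit 17) (.e true (nat_lit 3) (nat_lit 261) (nat_lit 1) (nat_lit 17) (.e true (nat_lit 2) (nat_lit 262) (nat_lit 1) (nat_lit 17) (.e false (nat_lit 3) (nat_lit 265) (nat_lit 1) (nat_lit 17) (.e true (nat_lit 3) (nat_lit 266) (nat_lit 1) (nat_lit 17) (.e true (nat_lit 3) (nat_lit 267) (nat_lit 1) (nat_lit 17) (.e false (nat_lit 2) (nat_lit 269) (nat_lit 1) (nat_lit 17) (.e true (nat_lit 2) (nat_lit 270) (nat_lit 1) (nat_lit 17) (.e false (nat_lit 3) (nat_lit 271) (nat_lit 1) (nat_lit 17) (.e false (nat_lit 3) (nat_lit 272) (nat_lit 1) (nat_lit 17) (.e false (nat_lit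 3) (nat_lit 273) (nat_lit 1) (nat_lit 17) (.e true (nat_lit 1) (nat_lit 274) (nat_lit 1) (nat_lit 17) (.e false (nat_lit 2) (nat_lit 275) (nat_lit 1) (nat_lit 17) (.e true (nat_lit 3) (nat_lit 276) (nat_lit 1) (nat_lit 17) (.e true (nat_lit 3) (nat_lit 277) (nat_lit 1) (nat_lit 17) (.e true (nat_lit 1) (nat_lit 283) (nat_lit 1) (nat_lit 17) (.e false (nat_lit 1) (nat_lit 285) (nat_lit 1) (nat_lit 17) (.e false (nat_lit 2) (nat_lit 253) (nat_lit 1) (nat_lit 17) (.e true (nat_lit 1) (nat_lit 286) (nat_lit 1) (nat_lit 17) (.e true (nat_lit 3) (nat_lit 263) (nat_lit 1) (nat_lit 17) (.u (nat_lit 2) (.n (nat_lit 0) (nat_lit 1) (.n (nat_lit 1) (nat_lit 1) (.p (nat_lit 2) (nat_lit 2) (.n (nat_lit 3) (nat_lit 1) (.p (nat_lit 4) (nat_lit 1) (.p (nat_lit 5) (nat_lit 1) (.n (nat_lit 7) (nat_lit 1) (.p (nat_lit 8) (nat_lit 1) (.p (nat_lit 10) (nat_lit 1) (.n (nat_lit 15) (nat_lit 1) (.n (nat_lit 18)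 (nat_lit 1) (.p (nat_lit 19) (nat_lit 1) (.n (nat_lit 21) (nat_lit 1) (.p (nat_lit 22) (nat_lit 1) (.n (nat_lit 24) (nat_lit 1) (.p (nat_lit 25) (nat_lit 1) (.p (nat_lit 26) (nat_lit 1) (.n (nat_lit 32) (nat_lit 1) (.p (nat_lit 33) (nat_lit 1) (.n (nat_lit 34) (nat_lit 1) (.p (nat_lit 35) (nat_lit 2) (.n (nat_lit 38) (nat_lit 1) (.p (nat_lit 349) (nat_lit 1) (.n (nat_lit 352) (nat_lit 1) (.n (nat_lit 353) (nat_lit 1) (.p (nat_lit 354) (nat_lit 1) (.p (nat_lit 355) (nat_lit 3) (.p (nat_lit 358) (nat_lit 2) (.p (nat_lit 359) (nat_lit 1) (.n (nat_lit 360) (nat_lit 1) (.p (nat_lit 361) (nat_lit 2) (.n (nat_lit 362) (nat_lit 1) (.p (nat_lit 363) (nat_lit 1) (.n (nat_lit 364) (nat_lit 1) (.p (nat_lit 366) (nat_lit 1) (.n (nat_lit 367) (nat_lit 2) (.p (nat_lit 368) (nat_lit 1) (.n (nat_lit 369) (nat_lit 1) (.n (nat_lit 373) (nat_lit 1) (.n (nat_lit 374) (nat_lit 1) (.n (nat_lit 375) (nat_lit 1)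 (.p (nat_lit 377) (nat_lit 1) (.p (nat_lit 382) (nat_lit 1) (.n (nat_lit 383) (nat_lit 1) .z)))))))))))))))))))))))))))))))))))))))))))) .nil)))))))))))))))))))))))))

noncomputable def dC2c_i67 : IL := (.s true (nat_lit 1) (nat_lit 20) (nat_lit 1) (nat_lit 2) (nat_lit 11) true (nat_lit 2) true (nat_lit 7) true (nat_lit 3) true (nat_lit 15) true (nat_lit 14) (.e false (nat_lit 1) (nat_lit 48) (nat_lit 26) (nat_lit 2) (.e false (nat_lit 1) (nat_lit 73) (nat_lit 20) (nat_lit 3) (.e true (nat_lit 3) (nat_lit 305) (nat_lit 1) (nat_lit 15) (.e true (nat_lit 2) (nat_lit 306) (nat_lit 1) (nat_lit 15) (.e false (nat_lit 2) (nat_lit 307) (nat_lit 1) (nat_lit 15) (.e true (nat_lit 1) (nat_lit 308) (nat_lit 1) (nat_lit 15) (.e false (nat_lit 2) (nat_lit 309) (nat_lit 1) (nat_lit 15) (.e true (nat_lit 3) (nat_lit 310) (nat_lit 1) (nat_lit 15) (.e true (nat_lit 1) (nat_lit 311) (nat_lit 1) (nat_lit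 15) (.e true (nat_lit 1) (nat_lit 312) (nat_lit 1) (nat_lit 15) (.e true (nat_lit 1) (nat_lit 313) (nat_lit 1) (nat_lit 15) (.e false (nat_lit 2) (nat_lit 314) (nat_lit 1) (nat_lit 15) (.e false (nat_lit 1) (nat_lit 317) (nat_lit 1) (nat_lit 15) (.e true (nat_lit 1) (nat_lit 321) (nat_lit 1) (nat_lit 15) (.e false (nat_lit 1) (nat_lit 322) (nat_lit 1) (nat_lit 15) (.e true (nat_lit 2) (nat_lit 254) (nat_lit 2) (nat_lit 14) (.e true (nat_lit 3) (nat_lit 258) (nat_lit 2) (nat_lit 14) (.e false (nat_lit 3) (nat_lit 265) (nat_lit 2) (nat_lit 14) (.e true (nat_lit 2) (nat_lit 266) (nat_lit 2) (nat_lit 14) (.e true (nat_lit 1) (nat_lit 264) (nat_lit 2) (nat_lit 14) (.e false (nat_lit 1) (nat_lit 269) (nat_lit 2) (nat_lit 14) (.e false (nat_lit 1) (nat_lit 272) (nat_lit 2) (nat_lit 14) (.e false (nat_lit 3) (nat_lit 274) (nat_lit 2) (nat_lit 14) (.u (nat_lit 2) (.p (nat_lit 1) (nat_lit 2) (.n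 (nat_lit 3) (nat_lit 2) (.n (nat_lit 5) (nat_lit 1) (.n (nat_lit 7) (nat_lit 1) (.p (nat_lit 8) (nat_lit 1) (.p (nat_lit 9) (nat_lit 1) (.n (nat_lit 10) (nat_lit 2) (.n (nat_lit 12) (nat_lit 2) (.p (nat_lit 13) (nat_lit 1) (.p (nat_lit 17) (nat_lit 3) (.n (nat_lit 19) (nat_lit 3) (.p (nat_lit 21) (nat_lit 1) (.n (nat_lit 24) (nat_lit 1) (.p (nat_lit 25) (nat_lit 1) (.p (nat_lit 34) (nat_lit 1) (.n (nat_lit 38) (nat_lit 1) .z)))))))))))))))) .nil)))))))))))))))))))))))))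

noncomputable def dC2c_i68 : IL := (.e false (nat_lit 2) (nat_lit 256) (nat_lit 2) (nat_lit 14) (.e false (nat_lit 2) (nat_lit 257) (nat_lit 2) (nat_lit 14) (.e false (nat_lit 1) (nat_lit 258) (nat_lit 2) (nat_lit 14) (.e false (nat_lit 2) (nat_lit 259) (nat_lit 2) (nat_lit 14) (.e true (nat_lit 2) (nat_lit 260) (nat_lit 2) (nat_lit 14) (.e true (nat_lit 1) (nat_lit 261) (nat_lit 2) (nat_lit 14) (.e true (nat_lit 1) (nat_lit 262) (nat_lit 2) (nat_lit 14) (.e false (nat_lit 3) (nat_lit 263) (nat_lit 2) (nat_lit 14) (.e true (nat_lit 3) (nat_lit 264) (nat_lit 2) (nat_lit 14) (.e true (nat_lit 2) (nat_lit 265) (nat_lit 2) (nat_lit 14) (.e true (nat_lit 2) (nat_lit 266) (nat_lit 2) (nat_lit 14) (.e true (nat_lit 1) (nat_lit 267) (nat_lit 2) (nat_lit 14) (.e true (nat_lit 1) (nat_lit 269) (nat_lit 2) (nat_lit 14) (.e true (nat_lit 3) (nat_lit 270) (nat_lit 2) (nat_lit 14) (.e false (nat_lit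 1) (nat_lit 271) (nat_lit 2) (nat_lit 14) (.e true (nat_lit 3) (nat_lit 272) (nat_lit 2) (nat_lit 14) (.e true (nat_lit 1) (nat_lit 274) (nat_lit 2) (nat_lit 14) (.e false (nat_lit 3) (nat_lit 275) (nat_lit 2) (nat_lit 14) (.e true (nat_lit 1) (nat_lit 276) (nat_lit 2) (nat_lit 14) (.e true (nat_lit 2) (nat_lit 277) (nat_lit 2) (nat_lit 14) (.e true (nat_lit 3) (nat_lit 283) (nat_lit 2) (nat_lit 14) (.e true (nat_lit 1) (nat_lit 284) (nat_lit 2) (nat_lit 14) (.e false (nat_lit 1) (nat_lit 285) (nat_lit 2) (nat_lit 14) (.e false (nat_lit 1) (nat_lit 286) (nat_lit 2) (nat_lit 14) (.u (nat_lit 2) (.p (nat_lit 0) (nat_lit 1) (.n (nat_lit 1) (nat_lit 3) (.p (nat_lit 2) (nat_lit 2) (.p (nat_lit 3) (nat_lit 4) (.n (nat_lit 4) (nat_lit 2) (.p (nat_lit 5) (nat_lit 4) (.n (nat_lit 6) (nat_lit 3) (.n (nat_lit 7) (nat_lit 1) (.p (nat_lit 8) (nat_lit 2) (.p (nat_lit 9) (nat_lit 4) (.p (nat_lit 10) (nat_lit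 2) (.n (nat_lit 11) (nat_lit 1) (.n (nat_lit 13) (nat_lit 2) (.n (nat_lit 14) (nat_lit 6) (.p (nat_lit 15) (nat_lit 2) (.p (nat_lit 16) (nat_lit 2) (.n (nat_lit 17) (nat_lit 5) (.p (nat_lit 18) (nat_lit 4) (.p (nat_lit 19) (nat_lit 2) (.n (nat_lit 21) (nat_lit 2) (.n (nat_lit 23) (nat_lit 1) (.n (nat_lit 24) (nat_lit 1) (.n (nat_lit 25) (nat_lit 1) (.p (nat_lit 26) (nat_lit 2) (.p (nat_lit 27) (nat_lit 1) (.n (nat_lit 29) (nat_lit 1) (.n (nat_lit 31) (nat_lit 1) (.n (nat_lit 34) (nat_lit 5) (.n (nat_lit 35) (nat_lit 2) .z))))))))))))))))))))))))))))) .nil)))))))))))))))))))))))))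

noncomputable def dC2c_i69 : IL := (.e true (nat_lit 1) (nat_lit 202) (nat_lit 3) (nat_lit 13) (.e true (nat_lit 2) (nat_lit 305) (nat_lit 1) (nat_lit 15) (.e false (nat_lit 2) (nat_lit 306) (nat_lit 1) (nat_lit 15) (.e false (nat_lit 1) (nat_lit 307) (nat_lit 1) (nat_lit 15) (.e true (nat_lit 1) (nat_lit 308) (nat_lit 1) (nat_lit 15) (.e false (nat_lit 3) (nat_lit 309) (nat_lit 1) (nat_lit 15) (.e true (nat_lit 3) (nat_lit 310) (nat_lit 1) (nat_lit 15) (.e false (nat_lit 1) (nat_lit 311) (nat_lit 1) (nat_lit 15) (.e false (nat_lit 1) (nat_lit 312) (nat_lit 1) (nat_lit 15) (.e true (nat_lit 1) (nat_lit 313) (nat_lit 1) (nat_lit 15) (.e true (nat_lit 1) (nat_lit 314) (nat_lit 1) (nat_lit 15) (.e true (nat_lit 2) (nat_lit 315) (nat_lit 1) (nat_lit 15) (.e false (nat_lit 1) (nat_lit 318) (nat_lit 1) (nat_lit 15) (.e true (nat_lit 1) (nat_lit 325) (nat_lit 0) (nat_lit 16) (.e false (nat_lit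 2) (nat_lit 326) (nat_lit 0) (nat_lit 16) (.e true (nat_lit 1) (nat_lit 327) (nat_lit 0) (nat_lit 16) (.e false (nat_lit 2) (nat_lit 328) (nat_lit 0) (nat_lit 16) (.e false (nat_lit 2) (nat_lit 329) (nat_lit 0) (nat_lit 16) (.e true (nat_lit 3) (nat_lit 331) (nat_lit 0) (nat_lit 16) (.e false (nat_lit 1) (nat_lit 333) (nat_lit 0) (nat_lit 16) (.e false (nat_lit 1) (nat_lit 334) (nat_lit 0) (nat_lit 16) (.e false (nat_lit 1) (nat_lit 252) (nat_lit 2) (nat_lit 14) (.e true (nat_lit 1) (nat_lit 253) (nat_lit 2) (nat_lit 14) (.e true (nat_lit 3) (nat_lit 254) (nat_lit 2) (nat_lit 14) (.e false (nat_lit 2) (nat_lit 255) (nat_lit 2) (nat_lit 14) dC2c_i68)))))))))))))))))))))))))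

noncomputable def dC2c_i70 : IL := (.e false (nat_lit 2) (nat_lit 253) (nat_lit 2) (nat_lit 14) (.e true (nat_lit 3) (nat_lit 255) (nat_lit 2) (nat_lit 14) (.e false (nat_lit 2) (nat_lit 256) (nat_lit 2) (nat_lit 14) (.e false (nat_lit 2) (nat_lit 258) (nat_lit 2) (nat_lit 14) (.e false (nat_lit 2) (nat_lit 259) (nat_lit 2) (nat_lit 14) (.e true (nat_lit 2) (nat_lit 260) (nat_lit 2) (nat_lit 14) (.e false (nat_lit 3) (nat_lit 261) (nat_lit 2) (nat_lit 14) (.e false (nat_lit 3) (nat_lit 262) (nat_lit 2) (nat_lit 14) (.e false (nat_lit 2) (nat_lit 267) (nat_lit 2) (nat_lit 14) (.e true (nat_lit 1) (nat_lit 269) (nat_lit 2) (nat_lit 14) (.e true (nat_lit 1) (nat_lit 270) (nat_lit 2) (nat_lit 14) (.e true (nat_lit 1) (nat_lit 272) (nat_lit 2) (nat_lit 14) (.e true (nat_lit 3) (nat_lit 285) (nat_lit 2) (nat_lit 14) (.e true (nat_lit 1) (nat_lit 286) (nat_lit 2) (nat_lit 14) (.e true (nat_lit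 3) (nat_lit 263) (nat_lit 2) (nat_lit 14) (.e true (nat_lit 2) (nat_lit 271) (nat_lit 2) (nat_lit 14) (.e true (nat_lit 1) (nat_lit 273) (nat_lit 2) (nat_lit 14) (.e false (nat_lit 2) (nat_lit 276) (nat_lit 2) (nat_lit 14) (.e false (nat_lit 1) (nat_lit 274) (nat_lit 2) (nat_lit 14) (.e true (nat_lit 3) (nat_lit 265) (nat_lit 2) (nat_lit 14) (.e false (nat_lit 2) (nat_lit 266) (nat_lit 2) (nat_lit 14) (.e true (nat_lit 2) (nat_lit 275) (nat_lit 2) (nat_lit 14) (.e true (nat_lit 2) (nat_lit 254) (nat_lit 2) (nat_lit 14) (.e true (nat_lit 3) (nat_lit 283) (nat_lit 2) (nat_lit 14) (.u (nat_lit 2) (.p (nat_lit 0) (nat_lit 1) (.n (nat_lit 1) (nat_lit 3) (.n (nat_lit 4) (nat_lit 2) (.p (nat_lit 5) (nat_lit 3) (.p (nat_lit 6) (nat_lit 1) (.n (nat_lit 7) (nat_lit 2) (.n (nat_lit 10) (nat_lit 1) (.p (nat_lit 11) (nat_lit 2) (.n (nat_lit 12) (nat_lit 2) (.n (nat_lit 13) (nat_lit 1) (.p (nat_lit 14)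 (nat_lit 1) (.p (nat_lit 15) (nat_lit 5) (.p (nat_lit 16) (nat_lit 5) (.n (nat_lit 17) (nat_lit 1) (.n (nat_lit 18) (nat_lit 1) (.n (nat_lit 19) (nat_lit 2) (.p (nat_lit 21) (nat_lit 1) (.n (nat_lit 23) (nat_lit 2) (.p (nat_lit 24) (nat_lit 4) (.n (nat_lit 25) (nat_lit 1) (.n (nat_lit 26) (nat_lit 1) (.n (nat_lit 27) (nat_lit 2) (.p (nat_lit 29) (nat_lit 2) (.n (nat_lit 34) (nat_lit 1) (.n (nat_lit 35) (nat_lit 1) (.p (nat_lit 204) (nat_lit 1) (.n (nat_lit 207) (nat_lit 1) (.n (nat_lit 208) (nat_lit 2) (.p (nat_lit 209) (nat_lit 1) (.p (nat_lit 210) (nat_lit 2) (.n (nat_lit 211) (nat_lit 1) (.p (nat_lit 212) (nat_lit 1) (.p (nat_lit 213) (nat_lit 1) (.n (nat_lit 215) (nat_lit 1) (.p (nat_lit 216) (nat_lit 2) (.n (nat_lit 219) (nat_lit 2) (.p (nat_lit 221) (nat_lit 1) (.n (nat_lit 222) (nat_lit 2) (.p (nat_lit 223) (nat_lit 2) (.p (nat_lit 225) (nat_lit 1) (.p (nat_lit 227) (nat_lit 1) (.n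 (nat_lit 228) (nat_lit 2) (.n (nat_lit 229) (nat_lit 1) (.n (nat_lit 230) (nat_lit 1) (.p (nat_lit 232) (nat_lit 1) (.p (nat_lit 237) (nat_lit 2) (.n (nat_lit 238) (nat_lit 1) .z))))))))))))))))))))))))))))))))))))))))))))))) .nil)))))))))))))))))))))))))

noncomputable def dC2c_c36 : Cm := .mk (nat_lit 355) (nat_lit 36) (nat_lit 185) (nat_lit 10) (.c (nat_lit 18) (nat_lit 2) (nat_lit 18) (nat_lit 2) (nat_lit 10) (.c (nat_lit 20) (nat_lit 1) (nat_lit 14) (nat_lit 2) (nat_lit 14) (.c (nat_lit 39) (nat_lit 3) (nat_lit 7) (nat_lit 1) (nat_lit 16) (.c (nat_lit 45) (nat_lit 3) (nat_lit 6) (nat_lit 1) (nat_lit 19) (.c (nat_lit 48) (nat_lit 1) (nat_lit 4) (nat_lit 1) (nat_lit 22) (.c (nat_lit 91) (nat_lit 6) (nat_lit 2) (nat_lit 1) (nat_lit 23) (.c (nat_lit 101) (nat_lit 4) (nat_lit 1) (nat_lit 1) (nat_lit 29) .nil)))))))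

noncomputable def dC2c_c21 : Cm := .mk (nat_lit 388) (nat_lit 21) (nat_lit 200) (nat_lit 5) (.c (nat_lit 20) (nat_lit 1) (nat_lit 18) (nat_lit 2) (nat_lit 5) (.c (nat_lit 45) (nat_lit 3) (nat_lit 7) (nat_lit 1) (nat_lit 7) (.c (nat_lit 48) (nat_lit 1) (nat_lit 6) (nat_lit 1) (nat_lit 10) (.c (nat_lit 101) (nat_lit 4) (nat_lit 2) (nat_lit 1) (nat_lit 11) (.c (nat_lit 105) (nat_lit 1) (nat_lit 1) (nat_lit 1) (nat_lit 15) .nil)))))

noncomputable def dC2c_i71 : IL := (.e true (nat_lit 1) (nat_lit 45) (nat_lit 34) (nat_lit 1) (.e false (nat_lit 3) (nat_lit 255) (nat_lit 2) (nat_lit 14) (.e true (nat_lit 1) (nat_lit 258) (nat_lit 2) (nat_lit 14) (.e false (nat_lit 3) (nat_lit 259) (nat_lit 2) (nat_lit 14) (.e false (nat_lit 3) (nat_lit 260) (nat_lit 2) (nat_lit 14) (.e false (nat_lit 1) (nat_lit 264) (nat_lit 2) (nat_lit 14) (.e false (nat_lit 3) (nat_lit 267) (nat_lit 2) (nat_lit 14) (.e false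 (nat_lit 2) (nat_lit 275) (nat_lit 2) (nat_lit 14) (.e false (nat_lit 1) (nat_lit 81) (nat_lit 18) (nat_lit 4) (.e true (nat_lit 1) (nat_lit 254) (nat_lit 2) (nat_lit 14) (.e false (nat_lit 1) (nat_lit 256) (nat_lit 2) (nat_lit 14) (.e true (nat_lit 3) (nat_lit 257) (nat_lit 2) (nat_lit 14) (.e true (nat_lit 2) (nat_lit 262) (nat_lit 2) (nat_lit 14) (.e true (nat_lit 1) (nat_lit 263) (nat_lit 2) (nat_lit 14) (.e false (nat_lit 2) (nat_lit 265) (nat_lit 2) (nat_lit 14) (.e false (nat_lit 2) (nat_lit 269) (nat_lit 2) (nat_lit 14) (.e true (nat_lit 1) (nat_lit 270) (nat_lit 2) (nat_lit 14) (.e true (nat_lit 3) (nat_lit 271) (nat_lit 2) (nat_lit 14) (.e true (nat_lit 2) (nat_lit 272) (nat_lit 2) (nat_lit 14) (.e true (nat_lit 3) (nat_lit 273) (nat_lit 2) (nat_lit 14) (.e true (nat_lit 3) (nat_lit 274) (nat_lit 2) (nat_lit 14) (.e false (nat_lit 3) (nat_lit 276) (nat_lit 2) (nat_lit 14) (.e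 false (nat_lit 2) (nat_lit 277) (nat_lit 2) (nat_lit 14) (.e false (nat_lit 1) (nat_lit 288) (nat_lit 2) (nat_lit 14) (.u (nat_lit 2) (.n (nat_lit 0) (nat_lit 2) (.p (nat_lit 2) (nat_lit 3) (.p (nat_lit 4) (nat_lit 4) (.n (nat_lit 5) (nat_lit 3) (.p (nat_lit 6) (nat_lit 1) (.p (nat_lit 7) (nat_lit 2) (.p (nat_lit 8) (nat_lit 2) (.p (nat_lit 9) (nat_lit 1) (.n (nat_lit 10) (nat_lit 2) (.n (nat_lit 11) (nat_lit 2) (.p (nat_lit 12) (nat_lit 4) (.p (nat_lit 13) (nat_lit 1) (.p (nat_lit 14) (nat_lit 2) (.n (nat_lit 15) (nat_lit 2) (.n (nat_lit 16) (nat_lit 2) (.n (nat_lit 17) (nat_lit 1) (.p (nat_lit 18) (nat_lit 2) (.n (nat_lit 19) (nat_lit 1) (.p (nat_lit 21) (nat_lit 2) (.n (nat_lit 23) (nat_lit 1) (.n (nat_lit 24) (nat_lit 2) (.p (nat_lit 26) (nat_lit 1) (.p (nat_lit 28) (nat_lit 1) (.p (nat_lit 31) (nat_lit 1) (.n (nat_lit 34) (nat_lit 2) (.n (nat_lit 35) (nat_lit 1) (.p (nat_lit 38) (nat_lit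 1) (.n (nat_lit 211) (nat_lit 1) .z)))))))))))))))))))))))))))) .nil)))))))))))))))))))))))))

noncomputable def dC2c_i72 : IL := (.e true (nat_lit 1) (nat_lit 102) (nat_lit 13) (nat_lit 7) (.e false (nat_lit 1) (nat_lit 103) (nat_lit 13) (nat_lit 7) (.e true (nat_lit 1) (nat_lit 252) (nat_lit 2) (nat_lit 14) (.e true (nat_lit 3) (nat_lit 254) (nat_lit 2) (nat_lit 14) (.e true (nat_lit 3) (nat_lit 256) (nat_lit 2) (nat_lit 14) (.e true (nat_lit 2) (nat_lit 257) (nat_lit 2) (nat_lit 14) (.e false (nat_lit 2) (nat_lit 258) (nat_lit 2) (nat_lit 14) (.e true (nat_lit 3) (nat_lit 259) (nat_lit 2) (nat_lit 14) (.e false (nat_lit 3) (nat_lit 260) (nat_lit 2) (nat_lit 14) (.e false (nat_lit 2) (nat_lit 261) (nat_lit 2) (nat_lit 14) (.e true (nat_lit 2) (nat_lit 262) (nat_lit 2) (nat_lit 14) (.e false (nat_lit 3) (nat_lit 264) (nat_lit 2) (nat_lit 14) (.e true (nat_lit 2) (nat_lit 267) (nat_lit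 2) (nat_lit 14) (.e false (nat_lit 1) (nat_lit 270) (nat_lit 2) (nat_lit 14) (.e true (nat_lit 2) (nat_lit 271) (nat_lit 2) (nat_lit 14) (.e false (nat_lit 2) (nat_lit 272) (nat_lit 2) (nat_lit 14) (.e true (nat_lit 2) (nat_lit 273) (nat_lit 2) (nat_lit 14) (.e false (nat_lit 2) (nat_lit 274) (nat_lit 2) (nat_lit 14) (.e true (nat_lit 2) (nat_lit 275) (nat_lit 2) (nat_lit 14) (.e false (nat_lit 2) (nat_lit 276) (nat_lit 2) (nat_lit 14) (.e true (nat_lit 2) (nat_lit 283) (nat_lit 2) (nat_lit 14) (.e true (nat_lit 1) (nat_lit 284) (nat_lit 2) (nat_lit 14) (.e false (nat_lit 1) (nat_lit 285) (nat_lit 2) (nat_lit 14) (.e false (nat_lit 1) (nat_lit 286) (nat_lit 2) (nat_lit 14) (.u (nat_lit 2) (.n (nat_lit 0) (nat_lit 1) (.p (nat_lit 1) (nat_lit 7) (.p (nat_lit 2) (nat_lit 1) (.n (nat_lit 3) (nat_lit 1) (.p (nat_lit 4) (nat_lit 3) (.n (nat_lit 5) (nat_lit 4) (.n (nat_lit 7) (nat_lit 1) (.n (nat_lit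 8) (nat_lit 2) (.n (nat_lit 9) (nat_lit 3) (.n (nat_lit 11) (nat_lit 1) (.p (nat_lit 13) (nat_lit 1) (.p (nat_lit 14) (nat_lit 1) (.n (nat_lit 15) (nat_lit 3) (.n (nat_lit 16) (nat_lit 3) (.p (nat_lit 17) (nat_lit 4) (.n (nat_lit 18) (nat_lit 4) (.n (nat_lit 19) (nat_lit 1) (.p (nat_lit 21) (nat_lit 3) (.p (nat_lit 23) (nat_lit 2) (.n (nat_lit 26) (nat_lit 1) (.p (nat_lit 27) (nat_lit 1) (.p (nat_lit 34) (nat_lit 1) (.p (nat_lit 35) (nat_lit 2) (.n (nat_lit 38) (nat_lit 1) .z)))))))))))))))))))))))) .nil)))))))))))))))))))))))))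

noncomputable def dC2c_i73 : IL := (.s false (nat_lit 3) (nat_lit 46) (nat_lit 4) (nat_lit 2) (nat_lit 2) true (nat_lit 4) true (nat_lit 9) false (nat_lit 0) true (nat_lit 8) true (nat_lit 9) (.s false (nat_lit 1) (nat_lit 104) (nat_lit 1) (nat_lit 2) (nat_lit 1) true (nat_lit 8) true (nat_lit 10) false (nat_lit 4) true (nat_lit 10) true (nat_lit 9) (.e false (nat_lit 3) (nat_lit 96) (nat_lit 19) (nat_lit 3) (.e true (nat_lit 1) (nat_lit 289) (nat_lit 2) (nat_lit 9) (.e false (nat_lit 1) (nat_lit 290) (nat_lit 2) (nat_lit 9) (.e true (nat_lit 2) (nat_lit 291) (nat_lit 2) (nat_lit 9) (.e false (nat_lit 3) (nat_lit 293) (nat_lit 2) (nat_lit 9) (.e false (nat_lit 3) (nat_lit 294) (nat_lit 2) (nat_lit 9) (.e false (nat_lit 2) (nat_lit 295) (nat_lit 2) (nat_lit 9) (.e true (nat_lit 3) (nat_lit 297) (nat_lit 2) (nat_lit 9) (.e false (nat_lit 1) (nat_lit 300) (nat_lit 2) (nat_lit 9) (.e true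 (nat_lit 1) (nat_lit 301) (nat_lit 2) (nat_lit 9) (.e false (nat_lit 1) (nat_lit 303) (nat_lit 2) (nat_lit 9) (.e true (nat_lit 2) (nat_lit 304) (nat_lit 2) (nat_lit 9) (.e true (nat_lit 3) (nat_lit 296) (nat_lit 2) (nat_lit 9) (.e true (nat_lit 3) (nat_lit 204) (nat_lit 4) (nat_lit 8) (.e true (nat_lit 1) (nat_lit 324) (nat_lit 1) (nat_lit 10) (.e true (nat_lit 3) (nat_lit 325) (nat_lit 1) (nat_lit 10) (.e false (nat_lit 1) (nat_lit 326) (nat_lit 1) (nat_lit 10) (.e true (nat_lit 1) (nat_lit 327) (nat_lit 1) (nat_lit 10) (.e true (nat_lit 3) (nat_lit 328) (nat_lit 1) (nat_lit 10) (.e false (nat_lit 2) (nat_lit 331) (nat_lit 1) (nat_lit 10) (.e true (nat_lit 2) (nat_lit 330) (nat_lit 1) (nat_lit 10) (.e false (nat_lit 1) (nat_lit 329) (nat_lit 1) (nat_lit 10) (.u (nat_lit 2) (.n (nat_lit 0) (nat_lit 2) (.p (nat_lit 2) (nat_lit 1) (.p (nat_lit 3) (nat_lit 2) (.n (nat_lit 4) (nat_lit 2) (.n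 (nat_lit 5) (nat_lit 1) (.p (nat_lit 6) (nat_lit 3) (.n (nat_lit 7) (nat_lit 2) (.p (nat_lit 8) (nat_lit 3) (.n (nat_lit 11) (nat_lit 1) (.n (nat_lit 12) (nat_lit 1) (.p (nat_lit 13) (nat_lit 1) (.n (nat_lit 14) (nat_lit 2) (.n (nat_lit 76) (nat_lit 1) (.p (nat_lit 77) (nat_lit 1) (.p (nat_lit 80) (nat_lit 2) (.p (nat_lit 82) (nat_lit 2) (.n (nat_lit 83) (nat_lit 1) (.n (nat_lit 84) (nat_lit 2) (.n (nat_lit 85) (nat_lit 2) (.n (nat_lit 86) (nat_lit 2) (.p (nat_lit 87) (nat_lit 1) (.n (nat_lit 88) (nat_lit 2) (.n (nat_lit 89) (nat_lit 2) (.n (nat_lit 91) (nat_lit 2) (.p (nat_lit 92) (nat_lit 2) (.p (nat_lit 94) (nat_lit 3) (.n (nat_lit 95) (nat_lit 2) (.p (nat_lit 97) (nat_lit 1) (.p (nat_lit 98) (nat_lit 1) (.n (nat_lit 99) (nat_lit 1) (.p (nat_lit 100) (nat_lit 1) (.p (nat_lit 102) (nat_lit 1) (.n (nat_lit 103) (nat_lit 1) .z))))))))))))))))))))))))))))))))) .nil)))))))))))))))))))))))))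

noncomputable def dC2c_i74 : IL := (.e true (nat_lit 1) (nat_lit 47) (nat_lit 26) (nat_lit 2) (.e true (nat_lit 1) (nat_lit 107) (nat_lit 7) (nat_lit 11) (.e false (nat_lit 1) (nat_lit 111) (nat_lit 7) (nat_lit 11) (.e true (nat_lit 1) (nat_lit 117) (nat_lit 7) (nat_lit 11) (.e false (nat_lit 1) (nat_lit 118) (nat_lit 7) (nat_lit 11) (.e false (nat_lit 1) (nat_lit 119) (nat_lit 7) (nat_lit 11) (.e true (nat_lit 1) (nat_lit 120) (nat_lit 7) (nat_lit 11) (.e false (nat_lit 1) (nat_lit 122) (nat_lit 7) (nat_lit 11) (.e false (nat_lit 1) (nat_lit 128) (nat_lit 7) (nat_lit 11) (.e true (nat_lit 1) (nat_lit 205) (nat_lit 2) (nat_lit 16) (.e true (nat_lit 3) (nat_lit 206) (nat_lit 2) (nat_lit 16) (.e true (nat_lit 3) (nat_lit 207) (nat_lit 2) (nat_lit 16) (.e false (nat_lit 2) (nat_lit 208) (nat_lit 2) (nat_lit 16) (.e true (nat_lit 2) (nat_lit 210) (nat_lit 2) (nat_lit 16) (.e false (nat_lit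 1) (nat_lit 211) (nat_lit 2) (nat_lit 16) (.e true (nat_lit 1) (nat_lit 213) (nat_lit 2) (nat_lit 16) (.e true (nat_lit 1) (nat_lit 215) (nat_lit 2) (nat_lit 16) (.e true (nat_lit 1) (nat_lit 217) (nat_lit 2) (nat_lit 16) (.e false (nat_lit 1) (nat_lit 225) (nat_lit 2) (nat_lit 16) (.e true (nat_lit 3) (nat_lit 227) (nat_lit 2) (nat_lit 16) (.e true (nat_lit 3) (nat_lit 228) (nat_lit 2) (nat_lit 16) (.e false (nat_lit 3) (nat_lit 246) (nat_lit 2) (nat_lit 16) (.e false (nat_lit 3) (nat_lit 247) (nat_lit 2) (nat_lit 16) (.e true (nat_lit 1) (nat_lit 248) (nat_lit 2) (nat_lit 16) (.u (nat_lit 2) (.n (nat_lit 0) (nat_lit 4) (.n (nat_lit 1) (nat_lit 1) (.n (nat_lit 3) (nat_lit 1) (.n (nat_lit 4) (nat_lit 1) (.n (nat_lit 5) (nat_lit 2) (.n (nat_lit 6) (nat_lit 3) (.p (nat_lit 7) (nat_lit 3) (.n (nat_lit 9) (nat_lit 1) (.p (nat_lit 10) (nat_lit 3) (.n (nat_lit 11) (nat_lit 2) (.n (nat_lit 14)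 (nat_lit 3) (.n (nat_lit 15) (nat_lit 3) (.n (nat_lit 16) (nat_lit 2) (.n (nat_lit 17) (nat_lit 2) (.p (nat_lit 19) (nat_lit 1) (.p (nat_lit 21) (nat_lit 3) (.n (nat_lit 22) (nat_lit 3) (.p (nat_lit 23) (nat_lit 4) (.n (nat_lit 24) (nat_lit 2) (.n (nat_lit 25) (nat_lit 3) (.p (nat_lit 26) (nat_lit 1) (.n (nat_lit 27) (nat_lit 1) (.p (nat_lit 28) (nat_lit 2) (.p (nat_lit 29) (nat_lit 3) (.n (nat_lit 31) (nat_lit 3) (.p (nat_lit 32) (nat_lit 4) (.p (nat_lit 34) (nat_lit 2) (.p (nat_lit 36) (nat_lit 5) (.p (nat_lit 37) (nat_lit 1) (.n (nat_lit 39) (nat_lit 1) (.n (nat_lit 42) (nat_lit 1) (.n (nat_lit 45) (nat_lit 1) (.n (nat_lit 46) (nat_lit 1) (.n (nat_lit 47) (nat_lit 2) (.n (nat_lit 48) (nat_lit 2) .z))))))))))))))))))))))))))))))))))) .nil)))))))))))))))))))))))))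

noncomputable def dC2c_i75 : IL := (.e false (nat_lit 1) (nat_lit 98) (nat_lit 10) (nat_lit 9) (.e false (nat_lit 1) (nat_lit 99) (nat_lit 10) (nat_lit 9) (.e true (nat_lit 3) (nat_lit 106) (nat_lit 7) (nat_lit 11) (.e true (nat_lit 3) (nat_lit 107) (nat_lit 7) (nat_lit 11) (.e true (nat_lit 1) (nat_lit 109) (nat_lit 7) (nat_lit 11) (.e false (nat_lit 2) (nat_lit 110) (nat_lit 7) (nat_lit 11) (.e false (nat_lit 2) (nat_lit 112) (nat_lit 7) (nat_lit 11) (.e true (nat_lit 2) (nat_lit 114) (nat_lit 7) (nat_lit 11) (.e true (nat_lit 3) (nat_lit 116) (nat_lit 7) (nat_lit 11) (.e false (nat_lit 3) (nat_lit 117) (nat_lit 7) (nat_lit 11) (.e true (nat_lit 3) (nat_lit 118) (nat_lit 7) (nat_lit 11) (.e false (nat_lit 2) (nat_lit 120) (nat_lit 7) (nat_lit 11) (.e true (nat_lit 3) (nat_lit 122) (nat_lit 7) (nat_lit 11) (.e true (nat_lit 1) (nat_lit 131) (nat_lit 7) (nat_lit 11) (.e true (nat_lit 1)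 (nat_lit 55) (nat_lit 20) (nat_lit 4) (.e false (nat_lit 1) (nat_lit 244) (nat_lit 2) (nat_lit 16) (.e false (nat_lit 1) (nat_lit 46) (nat_lit 27) (nat_lit 2) (.e false (nat_lit 1) (nat_lit 111) (nat_lit 7) (nat_lit 11) (.e true (nat_lit 2) (nat_lit 119) (nat_lit 7) (nat_lit 11) (.e true (nat_lit 2) (nat_lit 123) (nat_lit 7) (nat_lit 11) (.e false (nat_lit 1) (nat_lit 126) (nat_lit 7) (nat_lit 11) (.e false (nat_lit 2) (nat_lit 127) (nat_lit 7) (nat_lit 11) (.e true (nat_lit 1) (nat_lit 128) (nat_lit 7) (nat_lit 11) (.e false (nat_lit 1) (nat_lit 286) (nat_lit 1) (nat_lit 17) (.u (nat_lit 2) (.n (nat_lit 0) (nat_lit 2) (.n (nat_lit 1) (nat_lit 2) (.p (nat_lit 2) (nat_lit 3) (.p (nat_lit 3) (nat_lit 1) (.n (nat_lit 4) (nat_lit 1) (.p (nat_lit 6) (nat_lit 2) (.p (nat_lit 7) (nat_lit 2) (.p (nat_lit 8) (nat_lit 4) (.n (nat_lit 9) (nat_lit 2) (.n (nat_lit 10) (nat_lit 4) (.n (nat_lit 11) (nat_lit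 3) (.p (nat_lit 12) (nat_lit 1) (.n (nat_lit 14) (nat_lit 2) (.n (nat_lit 15) (nat_lit 4) (.p (nat_lit 16) (nat_lit 4) (.n (nat_lit 17) (nat_lit 4) (.n (nat_lit 18) (nat_lit 2) (.p (nat_lit 19) (nat_lit 1) (.p (nat_lit 20) (nat_lit 1) (.p (nat_lit 21) (nat_lit 1) (.n (nat_lit 22) (nat_lit 1) (.p (nat_lit 23) (nat_lit 1) (.p (nat_lit 25) (nat_lit 2) (.p (nat_lit 26) (nat_lit 3) (.p (nat_lit 27) (nat_lit 1) (.n (nat_lit 28) (nat_lit 4) (.p (nat_lit 29) (nat_lit 3) (.n (nat_lit 31) (nat_lit 1) (.p (nat_lit 32) (nat_lit 2) (.p (nat_lit 35) (nat_lit 2) (.n (nat_lit 36) (nat_lit 4) (.n (nat_lit 37) (nat_lit 3) (.p (nat_lit 39) (nat_lit 1) (.p (nat_lit 42) (nat_lit 3) (.n (nat_lit 45) (nat_lit 1) (.n (nat_lit 46) (nat_lit 2) (.p (nat_lit 47) (nat_lit 4) (.n (nat_lit 48) (nat_lit 3) (.n (nat_lit 202) (nat_lit 1) (.n (nat_lit 203) (nat_lit 1) (.p (nat_lit 213) (nat_lit 1) (.n (nat_lit 216) (nat_lit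 1) (.n (nat_lit 217) (nat_lit 1) (.p (nat_lit 223) (nat_lit 2) (.n (nat_lit 224) (nat_lit 1) (.p (nat_lit 227) (nat_lit 1) (.p (nat_lit 237) (nat_lit 1) (.p (nat_lit 238) (nat_lit 1) .z)))))))))))))))))))))))))))))))))))))))))))))))) .nil)))))))))))))))))))))))))

noncomputable def dC2c_i76 : IL := (.e true (nat_lit 2) (nat_lit 205) (nat_lit 2) (nat_lit 16) (.e false (nat_lit 3) (nat_lit 206) (nat_lit 2) (nat_lit 16) (.e false (nat_lit 3) (nat_lit 207) (nat_lit 2) (nat_lit 16) (.e false (nat_lit 1) (nat_lit 208) (nat_lit 2) (nat_lit 16) (.e true (nat_lit 2) (nat_lit 209) (nat_lit 2) (nat_lit 16) (.e false (nat_lit 1) (nat_lit 210) (nat_lit 2) (nat_lit 16) (.e true (nat_lit 2) (nat_lit 211) (nat_lit 2) (nat_lit 16) (.e false (nat_lit 2) (nat_lit 212) (nat_lit 2) (nat_lit 16) (.e false (nat_lit 1) (nat_lit 213) (nat_lit 2) (nat_lit 16) (.e true (nat_lit 3) (nat_lit 214) (nat_lit 2) (nat_lit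 16) (.e false (nat_lit 2) (nat_lit 215) (nat_lit 2) (nat_lit 16) (.e false (nat_lit 2) (nat_lit 216) (nat_lit 2) (nat_lit 16) (.e true (nat_lit 2) (nat_lit 218) (nat_lit 2) (nat_lit 16) (.e true (nat_lit 2) (nat_lit 219) (nat_lit 2) (nat_lit 16) (.e false (nat_lit 3) (nat_lit 221) (nat_lit 2) (nat_lit 16) (.e true (nat_lit 2) (nat_lit 222) (nat_lit 2) (nat_lit 16) (.e false (nat_lit 1) (nat_lit 225) (nat_lit 2) (nat_lit 16) (.e false (nat_lit 2) (nat_lit 226) (nat_lit 2) (nat_lit 16) (.e true (nat_lit 1) (nat_lit 227) (nat_lit 2) (nat_lit 16) (.e false (nat_lit 3) (nat_lit 229) (nat_lit 2) (nat_lit 16) (.e false (nat_lit 3) (nat_lit 230) (nat_lit 2) (nat_lit 16) (.e false (nat_lit 1) (nat_lit 244) (nat_lit 2) (nat_lit 16) (.e false (nat_lit 1) (nat_lit 250) (nat_lit 2) (nat_lit 16) (.e false (nat_lit 1) (nat_lit 255) (nat_lit 1) (nat_lit 17) (.u (nat_lit 2) (.n (nat_lit 1) (nat_lit 6) (.p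 (nat_lit 2) (nat_lit 5) (.p (nat_lit 4) (nat_lit 2) (.p (nat_lit 7) (nat_lit 4) (.n (nat_lit 8) (nat_lit 3) (.n (nat_lit 9) (nat_lit 1) (.n (nat_lit 10) (nat_lit 3) (.n (nat_lit 12) (nat_lit 2) (.n (nat_lit 15) (nat_lit 3) (.n (nat_lit 17) (nat_lit 3) (.p (nat_lit 18) (nat_lit 1) (.p (nat_lit 19) (nat_lit 2) (.p (nat_lit 20) (nat_lit 1) (.n (nat_lit 21) (nat_lit 1) (.p (nat_lit 22) (nat_lit 1) (.n (nat_lit 25) (nat_lit 3) (.p (nat_lit 26) (nat_lit 1) (.n (nat_lit 27) (nat_lit 1) (.p (nat_lit 28) (nat_lit 4) (.n (nat_lit 31) (nat_lit 3) (.n (nat_lit 32) (nat_lit 2) (.p (nat_lit 34) (nat_lit 2) (.n (nat_lit 36) (nat_lit 5) (.n (nat_lit 37) (nat_lit 2) (.p (nat_lit 39) (nat_lit 3) (.n (nat_lit 40) (nat_lit 1) (.p (nat_lit 42) (nat_lit 1) (.n (nat_lit 44) (nat_lit 1) (.p (nat_lit 46) (nat_lit 1) (.n (nat_lit 47) (nat_lit 1) (.n (nat_lit 48) (nat_lit 1) .z))))))))))))))))))))))))))))))) .nil)))))))))))))))))))))))))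

noncomputable def dC2c_i77 : IL := (.e false (nat_lit 1) (nat_lit 279) (nat_lit 1) (nat_lit 17) (.e false (nat_lit 1) (nat_lit 288) (nat_lit 1) (nat_lit 17) (.e true (nat_lit 1) (nat_lit 39) (nat_lit 34) (nat_lit 0) (.e false (nat_lit 1) (nat_lit 40) (nat_lit 34) (nat_lit 0) (.e false (nat_lit 1) (nat_lit 41) (nat_lit 34) (nat_lit 0) (.e true (nat_lit 2) (nat_lit 106) (nat_lit 7) (nat_lit 11) (.e false (nat_lit 3) (nat_lit 107) (nat_lit 7) (nat_lit 11) (.e true (nat_lit 2) (nat_lit 108) (nat_lit 7) (nat_lit 11) (.e false (nat_lit 2) (nat_lit 110) (nat_lit 7) (nat_lit 11) (.e true (nat_lit 1) (nat_lit 113) (nat_lit 7) (nat_lit 11) (.e false (nat_lit 1) (nat_lit 115) (nat_lit 7) (nat_lit 11) (.e true (nat_lit 1) (nat_lit 116) (nat_lit 7) (nat_lit 11) (.e false (nat_lit 3) (nat_lit 117) (nat_lit 7) (nat_lit 11) (.e false (nat_lit 1) (nat_lit 118) (nat_lit 7) (nat_lit 11) (.e true (nat_lit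 3) (nat_lit 119) (nat_lit 7) (nat_lit 11) (.e false (nat_lit 1) (nat_lit 120) (nat_lit 7) (nat_lit 11) (.e false (nat_lit 3) (nat_lit 123) (nat_lit 7) (nat_lit 11) (.e true (nat_lit 2) (nat_lit 124) (nat_lit 7) (nat_lit 11) (.e false (nat_lit 2) (nat_lit 126) (nat_lit 7) (nat_lit 11) (.e true (nat_lit 3) (nat_lit 127) (nat_lit 7) (nat_lit 11) (.e true (nat_lit 1) (nat_lit 128) (nat_lit 7) (nat_lit 11) (.e true (nat_lit 1) (nat_lit 130) (nat_lit 7) (nat_lit 11) (.e true (nat_lit 1) (nat_lit 131) (nat_lit 7) (nat_lit 11) (.e false (nat_lit 1) (nat_lit 253) (nat_lit 1) (nat_lit 17) (.u (nat_lit 2) (.p (nat_lit 0) (nat_lit 3) (.p (nat_lit 1) (nat_lit 3) (.n (nat_lit 2) (nat_lit 5) (.n (nat_lit 3) (nat_lit 3) (.n (nat_lit 5) (nat_lit 3) (.p (nat_lit 6) (nat_lit 3) (.p (nat_lit 8) (nat_lit 3) (.n (nat_lit 9) (nat_lit 1) (.n (nat_lit 10) (nat_lit 3) (.n (nat_lit 11) (nat_lit 1) (.n (nat_lit 12)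 (nat_lit 1) (.n (nat_lit 14) (nat_lit 4) (.p (nat_lit 15) (nat_lit 1) (.p (nat_lit 16) (nat_lit 1) (.p (nat_lit 17) (nat_lit 1) (.n (nat_lit 18) (nat_lit 4) (.p (nat_lit 19) (nat_lit 1) (.p (nat_lit 20) (nat_lit 1) (.p (nat_lit 21) (nat_lit 5) (.n (nat_lit 22) (nat_lit 5) (.n (nat_lit 23) (nat_lit 3) (.p (nat_lit 24) (nat_lit 1) (.n (nat_lit 25) (nat_lit 2) (.n (nat_lit 26) (nat_lit 1) (.n (nat_lit 27) (nat_lit 7) (.p (nat_lit 28) (nat_lit 4) (.n (nat_lit 29) (nat_lit 2) (.p (nat_lit 31) (nat_lit 1) (.p (nat_lit 32) (nat_lit 2) (.p (nat_lit 35) (nat_lit 1) (.n (nat_lit 36) (nat_lit 1) (.n (nat_lit 39) (nat_lit 1) (.n (nat_lit 40) (nat_lit 1) (.n (nat_lit 44) (nat_lit 1) (.n (nat_lit 45) (nat_lit 2) (.n (nat_lit 46) (nat_lit 3) (.p (nat_lit 47) (nat_lit 1) (.n (nat_lit 48) (nat_lit 1) (.n (nat_lit 51) (nat_lit 2) (.n (nat_lit 355) (nat_lit 1) (.n (nat_lit 356) (nat_lit 1) (.p (nat_lit 357)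 (nat_lit 1) (.p (nat_lit 364) (nat_lit 1) .z))))))))))))))))))))))))))))))))))))))))))) .nil)))))))))))))))))))))))))

noncomputable def dC2c_i78 : IL := (.e false (nat_lit 1) (nat_lit 267) (nat_lit 1) (nat_lit 17) (.e false (nat_lit 3) (nat_lit 270) (nat_lit 1) (nat_lit 17) (.e false (nat_lit 1) (nat_lit 275) (nat_lit 1) (nat_lit 17) (.e false (nat_lit 3) (nat_lit 279) (nat_lit 1) (nat_lit 17) (.e true (nat_lit 1) (nat_lit 262) (nat_lit 1) (nat_lit 17) (.e true (nat_lit 3) (nat_lit 271) (nat_lit 1) (nat_lit 17) (.e false (nat_lit 3) (nat_lit 276) (nat_lit 1) (nat_lit 17) (.e true (nat_lit 3) (nat_lit 289) (nat_lit 0) (nat_lit 18) (.e false (nat_lit 2) (nat_lit 292) (nat_lit 0) (nat_lit 18) (.e true (nat_lit 2) (nat_lit 293) (nat_lit 0) (nat_lit 18) (.e true (nat_lit 2) (nat_lit 294) (nat_lit 0) (nat_lit 18) (.e false (nat_lit 1) (nat_lit 290) (nat_lit 0) (nat_lit 18) (.e true (nat_lit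 2) (nat_lit 295) (nat_lit 0) (nat_lit 18) (.e false (nat_lit 1) (nat_lit 297) (nat_lit 0) (nat_lit 18) (.e true (nat_lit 1) (nat_lit 280) (nat_lit 1) (nat_lit 17) (.e false (nat_lit 2) (nat_lit 170) (nat_lit 4) (nat_lit 14) (.e false (nat_lit 2) (nat_lit 291) (nat_lit 0) (nat_lit 18) (.e false (nat_lit 1) (nat_lit 296) (nat_lit 0) (nat_lit 18) (.e true (nat_lit 1) (nat_lit 299) (nat_lit 0) (nat_lit 18) (.e false (nat_lit 3) (nat_lit 300) (nat_lit 0) (nat_lit 18) (.e true (nat_lit 1) (nat_lit 301) (nat_lit 0) (nat_lit 18) (.u (nat_lit 2) (.p (nat_lit 0) (nat_lit 3) (.p (nat_lit 1) (nat_lit 1) (.p (nat_lit 3) (nat_lit 3) (.n (nat_lit 4) (nat_lit 5) (.p (nat_lit 5) (nat_lit 1) (.p (nat_lit 6) (nat_lit 1) (.n (nat_lit 7) (nat_lit 1) (.n (nat_lit 8) (nat_lit 3) (.n (nat_lit 10) (nat_lit 1) (.p (nat_lit 11) (nat_lit 2) (.n (nat_lit 12) (nat_lit 2) (.n (nat_lit 14) (nat_lit 2) (.p (nat_lit 15)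 (nat_lit 3) (.p (nat_lit 16) (nat_lit 2) (.p (nat_lit 17) (nat_lit 2) (.n (nat_lit 18) (nat_lit 2) (.p (nat_lit 19) (nat_lit 2) (.p (nat_lit 21) (nat_lit 3) (.n (nat_lit 22) (nat_lit 3) (.p (nat_lit 23) (nat_lit 3) (.p (nat_lit 24) (nat_lit 4) (.n (nat_lit 25) (nat_lit 2) (.p (nat_lit 26) (nat_lit 3) (.n (nat_lit 27) (nat_lit 1) (.n (nat_lit 28) (nat_lit 1) (.p (nat_lit 29) (nat_lit 2) (.p (nat_lit 32) (nat_lit 1) (.p (nat_lit 34) (nat_lit 4) (.n (nat_lit 35) (nat_lit 2) (.n (nat_lit 36) (nat_lit 3) (.n (nat_lit 37) (nat_lit 2) (.p (nat_lit 39) (nat_lit 1) (.p (nat_lit 41) (nat_lit 1) (.p (nat_lit 42) (nat_lit 1) (.n (nat_lit 44) (nat_lit 1) (.n (nat_lit 45) (nat_lit 4) (.p (nat_lit 48) (nat_lit 2) (.p (nat_lit 57) (nat_lit 1) (.p (nat_lit 62) (nat_lit 1) (.n (nat_lit 63) (nat_lit 1) (.p (nat_lit 66) (nat_lit 1) (.p (nat_lit 78) (nat_lit 1) (.n (nat_lit 79) (nat_lit 1) (.p (nat_lit 90)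 (nat_lit 1) (.p (nat_lit 92) (nat_lit 1) (.n (nat_lit 96) (nat_lit 1) (.p (nat_lit 97) (nat_lit 1) (.n (nat_lit 99) (nat_lit 1) (.p (nat_lit 105) (nat_lit 1) (.p (nat_lit 107) (nat_lit 1) (.p (nat_lit 108) (nat_lit 1) (.n (nat_lit 111) (nat_lit 1) (.n (nat_lit 112) (nat_lit 1) (.n (nat_lit 113) (nat_lit 2) (.p (nat_lit 114) (nat_lit 1) (.p (nat_lit 115) (nat_lit 2) (.p (nat_lit 120) (nat_lit 1) (.p (nat_lit 123) (nat_lit 1) (.n (nat_lit 127) (nat_lit 1) (.n (nat_lit 128) (nat_lit 1) .z)))))))))))))))))))))))))))))))))))))))))))))))))))))))))))) (.u (nat_lit 2) (.p (nat_lit 135) (nat_lit 1) (.n (nat_lit 141) (nat_lit 1) (.p (nat_lit 146) (nat_lit 1) (.p (nat_lit 147) (nat_lit 1) (.p (nat_lit 154) (nat_lit 1) (.n (nat_lit 166) (nat_lit 1) (.p (nat_lit 172) (nat_lit 1) (.p (nat_lit 177) (nat_lit 1) (.n (nat_lit 183) (nat_lit 1) (.n (nat_lit 184) (nat_lit 1) (.p (nat_lit 185) (nat_lit 1) (.n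 (nat_lit 186) (nat_lit 2) (.n (nat_lit 187) (nat_lit 1) (.p (nat_lit 191) (nat_lit 1) (.n (nat_lit 204) (nat_lit 1) (.p (nat_lit 206) (nat_lit 1) (.n (nat_lit 207) (nat_lit 1) (.p (nat_lit 208) (nat_lit 1) (.n (nat_lit 210) (nat_lit 1) (.p (nat_lit 211) (nat_lit 1) (.n (nat_lit 213) (nat_lit 2) (.p (nat_lit 214) (nat_lit 6) (.p (nat_lit 215) (nat_lit 7) (.p (nat_lit 217) (nat_lit 2) (.n (nat_lit 219) (nat_lit 4) (.n (nat_lit 220) (nat_lit 1) (.p (nat_lit 221) (nat_lit 4) (.p (nat_lit 222) (nat_lit 1) (.n (nat_lit 224) (nat_lit 3) (.p (nat_lit 225) (nat_lit 1) (.p (nat_lit 226) (nat_lit 2) (.n (nat_lit 229) (nat_lit 1) (.n (nat_lit 230) (nat_lit 3) (.p (nat_lit 232) (nat_lit 1) (.n (nat_lit 233) (nat_lit 2) (.p (nat_lit 234) (nat_lit 1) (.p (nat_lit 236) (nat_lit 1) (.p (nat_lit 237) (nat_lit 1) (.n (nat_lit 238) (nat_lit 1) (.p (nat_lit 240) (nat_lit 5) (.n (nat_lit 241) (nat_lit 1) (.n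 (nat_lit 242) (nat_lit 6) (.n (nat_lit 243) (nat_lit 3) (.p (nat_lit 244) (nat_lit 4) (.n (nat_lit 245) (nat_lit 2) (.p (nat_lit 246) (nat_lit 1) (.n (nat_lit 248) (nat_lit 3) (.p (nat_lit 250) (nat_lit 1) (.p (nat_lit 251) (nat_lit 2) (.p (nat_lit 252) (nat_lit 1) (.p (nat_lit 253) (nat_lit 1) (.n (nat_lit 254) (nat_lit 3) (.p (nat_lit 256) (nat_lit 2) (.p (nat_lit 257) (nat_lit 3) (.p (nat_lit 258) (nat_lit 2) (.n (nat_lit 259) (nat_lit 1) (.n (nat_lit 260) (nat_lit 3) (.p (nat_lit 261) (nat_lit 1) (.p (nat_lit 262) (nat_lit 5) (.n (nat_lit 263) (nat_lit 3) .z)))))))))))))))))))))))))))))))))))))))))))))))))))))))))))) (.u (nat_lit 2) (.p (nat_lit 264) (nat_lit 3) (.p (nat_lit 270) (nat_lit 1) (.n (nat_lit 280) (nat_lit 1) (.p (nat_lit 282) (nat_lit 1) (.p (nat_lit 283) (nat_lit 1) (.p (nat_lit 285) (nat_lit 1) (.p (nat_lit 286) (nat_lit 1) (.p (nat_lit 293) (nat_lit 2) (.p (nat_lit 295)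 (nat_lit 2) (.n (nat_lit 296) (nat_lit 1) (.p (nat_lit 297) (nat_lit 1) (.n (nat_lit 299) (nat_lit 1) (.p (nat_lit 300) (nat_lit 1) (.p (nat_lit 302) (nat_lit 7) (.n (nat_lit 303) (nat_lit 17) (.p (nat_lit 304) (nat_lit 5) (.p (nat_lit 305) (nat_lit 14) (.n (nat_lit 306) (nat_lit 11) (.n (nat_lit 307) (nat_lit 2) (.n (nat_lit 308) (nat_lit 21) (.n (nat_lit 309) (nat_lit 1) (.p (nat_lit 310) (nat_lit 15) (.n (nat_lit 311) (nat_lit 2) (.p (nat_lit 312) (nat_lit 15) (.p (nat_lit 313) (nat_lit 11) (.p (nat_lit 314) (nat_lit 8) (.p (nat_lit 315) (nat_lit 2) (.p (nat_lit 316) (nat_lit 6) (.n (nat_lit 317) (nat_lit 3) (.n (nat_lit 318) (nat_lit 17) (.p (nat_lit 319) (nat_lit 23) (.n (nat_lit 320) (nat_lit 2) (.n (nat_lit 321) (nat_lit 2) (.n (nat_lit 322) (nat_lit 6) (.n (nat_lit 323) (nat_lit 14) (.n (nat_lit 324) (nat_lit 17) (.n (nat_lit 325) (nat_lit 2) (.n (nat_lit 326) (nat_lit 10) (.n (nat_lit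 327) (nat_lit 21) (.n (nat_lit 328) (nat_lit 14) (.p (nat_lit 329) (nat_lit 9) (.p (nat_lit 330) (nat_lit 8) (.n (nat_lit 331) (nat_lit 2) (.n (nat_lit 333) (nat_lit 1) (.n (nat_lit 334) (nat_lit 1) (.p (nat_lit 335) (nat_lit 3) (.n (nat_lit 336) (nat_lit 10) (.n (nat_lit 337) (nat_lit 1) (.n (nat_lit 338) (nat_lit 2) (.p (nat_lit 339) (nat_lit 10) (.n (nat_lit 340) (nat_lit 10) (.n (nat_lit 341) (nat_lit 4) (.n (nat_lit 342) (nat_lit 8) (.p (nat_lit 343) (nat_lit 7) (.p (nat_lit 344) (nat_lit 13) (.p (nat_lit 345) (nat_lit 13) (.p (nat_lit 346) (nat_lit 12) (.p (nat_lit 347) (nat_lit 14) (.n (nat_lit 348) (nat_lit 4) (.n (nat_lit 350) (nat_lit 20) .z)))))))))))))))))))))))))))))))))))))))))))))))))))))))))))) (.u (nat_lit 2) (.n (nat_lit 351) (nat_lit 12) (.p (nat_lit 352) (nat_lit 20) (.p (nat_lit 353) (nat_lit 24) (.n (nat_lit 354) (nat_lit 4) (.n (nat_lit 355) (nat_lit 14) (.p (nat_lit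 356) (nat_lit 16) (.n (nat_lit 357) (nat_lit 11) (.p (nat_lit 358) (nat_lit 12) (.p (nat_lit 359) (nat_lit 8) (.p (nat_lit 360) (nat_lit 13) (.n (nat_lit 361) (nat_lit 2) (.p (nat_lit 362) (nat_lit 13) (.n (nat_lit 363) (nat_lit 4) (.p (nat_lit 364) (nat_lit 8) (.p (nat_lit 365) (nat_lit 1) (.p (nat_lit 366) (nat_lit 12) (.p (nat_lit 367) (nat_lit 12) (.n (nat_lit 368) (nat_lit 11) (.p (nat_lit 369) (nat_lit 15) (.n (nat_lit 370) (nat_lit 6) (.n (nat_lit 371) (nat_lit 7) (.p (nat_lit 373) (nat_lit 6) (.p (nat_lit 374) (nat_lit 9) (.p (nat_lit 375) (nat_lit 5) (.p (nat_lit 376) (nat_lit 10) (.n (nat_lit 377) (nat_lit 10) (.p (nat_lit 378) (nat_lit 1) (.p (nat_lit 379) (nat_lit 6) (.n (nat_lit 380) (nat_lit 5) (.n (nat_lit 381) (nat_lit 1) (.p (nat_lit 382) (nat_lit 4) (.p (nat_lit 383) (nat_lit 4) (.p (nat_lit 384) (nat_lit 5) (.n (nat_lit 385) (nat_lit 4) (.p (nat_lit 386) (nat_lit 5) (.n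 (nat_lit 387) (nat_lit 1) (.n (nat_lit 388) (nat_lit 6) (.p (nat_lit 389) (nat_lit 5) (.p (nat_lit 390) (nat_lit 4) (.n (nat_lit 391) (nat_lit 2) (.p (nat_lit 392) (nat_lit 2) (.n (nat_lit 393) (nat_lit 5) (.n (nat_lit 394) (nat_lit 2) (.n (nat_lit 395) (nat_lit 7) (.p (nat_lit 396) (nat_lit 2) (.n (nat_lit 398) (nat_lit 6) (.p (nat_lit 399) (nat_lit 3) (.n (nat_lit 400) (nat_lit 2) (.p (nat_lit 401) (nat_lit 3) .z))))))))))))))))))))))))))))))))))))))))))))))))) .nil)))))))))))))))))))))))))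

noncomputable def dC2c_i79 : IL := (.e true (nat_lit 1) (nat_lit 266) (nat_lit 1) (nat_lit 17) (.e false (nat_lit 1) (nat_lit 269) (nat_lit 1) (nat_lit 17) (.e false (nat_lit 2) (nat_lit 272) (nat_lit 1) (nat_lit 17) (.e true (nat_lit 3) (nat_lit 274) (nat_lit 1) (nat_lit 17) (.e false (nat_lit 1) (nat_lit 278) (nat_lit 1) (nat_lit 17) (.e false (nat_lit 1) (nat_lit 264) (nat_lit 1) (nat_lit 17) (.e false (nat_lit 1) (nat_lit 218) (nat_lit 2) (nat_lit 16) (.e true (nat_lit 1) (nat_lit 229) (nat_lit 2) (nat_lit 16) (.e true (nat_lit 2) (nat_lit 250) (nat_lit 2) (nat_lit 16) (.e false (nat_lit 1) (nat_lit 233) (nat_lit 2) (nat_lit 16) (.e false (nat_lit 1) (nat_lit 235) (nat_lit 2) (nat_lit 16) (.e true (nat_lit 1) (nat_lit 138) (nat_lit 6) (nat_lit 12) (.e true (nat_lit 1) (nat_lit 134) (nat_lit 6) (nat_lit 12) (.e false (nat_lit 2) (nat_lit 155) (nat_lit 6) (nat_lit 12) (.e true (nat_lit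 3) (nat_lit 252) (nat_lit 1) (nat_lit 17) (.e true (nat_lit 2) (nat_lit 253) (nat_lit 1) (nat_lit 17) (.e false (nat_lit 2) (nat_lit 255) (nat_lit 1) (nat_lit 17) (.e true (nat_lit 2) (nat_lit 257) (nat_lit 1) (nat_lit 17) (.e false (nat_lit 3) (nat_lit 258) (nat_lit 1) (nat_lit 17) (.e true (nat_lit 3) (nat_lit 277) (nat_lit 1) (nat_lit 17) (.e false (nat_lit 1) (nat_lit 256) (nat_lit 1) (nat_lit 17) (.e false (nat_lit 2) (nat_lit 259) (nat_lit 1) (nat_lit 17) (.e true (nat_lit 2) (nat_lit 260) (nat_lit 1) (nat_lit 17) (.e true (nat_lit 3) (nat_lit 261) (nat_lit 1) (nat_lit 17) (.e true (nat_lit 1) (nat_lit 263) (nat_lit 1) (nat_lit 17) dC2c_i78)))))))))))))))))))))))))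

noncomputable def dC2c_i80 : IL := (.s true (nat_lit 1) (nat_lit 101) (nat_lit 0) (nat_lit 1) (nat_lit 1) true (nat_lit 15) true (nat_lit 17) false (nat_lit 10) true (nat_lit 18) true (nat_lit 17) (.s true (nat_lit 3) (nat_lit 102) (nat_lit 0) (nat_lit 1) (nat_lit 1) true (nat_lit 15) true (nat_lit 17) false (nat_lit 10) true (nat_lit 18) true (nat_lit 17) (.s false (nat_lit 1) (nat_lit 103) (nat_lit 0) (nat_lit 1) (nat_lit 1) true (nat_lit 15) true (nat_lit 17) false (nat_lit 10) true (nat_lit 18) true (nat_lit 17) (.s false (nat_lit 2) (nat_lit 102) (nat_lit 1) (nat_lit 1) (nat_lit 0) true (nat_lit 15) true (nat_lit 18) false (nat_lit 10) true (nat_lit 17) true (nat_lit 17) (.s true (nat_lit 3) (nat_lit 103) (nat_lit 1) (nat_lit 1) (nat_lit 0) true (nat_lit 15) true (nat_lit 18) false (nat_lit 10) true (nat_lit 17) true (nat_lit 17) (.s false (nat_lit 1) (nat_lit 104) (nat_lit 1) (nat_lit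 1) (nat_lit 0) true (nat_lit 15) true (nat_lit 18) false (nat_lit 10) true (nat_lit 17) true (nat_lit 17) (.e false (nat_lit 3) (nat_lit 129) (nat_lit 7) (nat_lit 11) (.e false (nat_lit 2) (nat_lit 227) (nat_lit 2) (nat_lit 16) (.e false (nat_lit 1) (nat_lit 208) (nat_lit 2) (nat_lit 16) (.e false (nat_lit 1) (nat_lit 144) (nat_lit 6) (nat_lit 12) (.e true (nat_lit 2) (nat_lit 231) (nat_lit 2) (nat_lit 16) (.e true (nat_lit 2) (nat_lit 210) (nat_lit 2) (nat_lit 16) (.e false (nat_lit 1) (nat_lit 211) (nat_lit 2) (nat_lit 16) (.e false (nat_lit 1) (nat_lit 213) (nat_lit 2) (nat_lit 16) (.e false (nat_lit 2) (nat_lit 219) (nat_lit 2) (nat_lit 16) (.e false (nat_lit 2) (nat_lit 209) (nat_lit 2) (nat_lit 16) (.e false (nat_lit 2) (nat_lit 212) (nat_lit 2) (nat_lit 16) (.e false (nat_lit 3) (nat_lit 230) (nat_lit 2) (nat_lit 16) (.e false (nat_lit 3) (nat_lit 234) (nat_lit 2) (nat_lit 16) (.e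 false (nat_lit 1) (nat_lit 249) (nat_lit 2) (nat_lit 16) (.e true (nat_lit 1) (nat_lit 226) (nat_lit 2) (nat_lit 16) (.e true (nat_lit 1) (nat_lit 207) (nat_lit 2) (nat_lit 16) (.e true (nat_lit 3) (nat_lit 298) (nat_lit 0) (nat_lit 18) (.e false (nat_lit 1) (nat_lit 254) (nat_lit 1) (nat_lit 17) (.e true (nat_lit 3) (nat_lit 265) (nat_lit 1) (nat_lit 17) dC2c_i79)))))))))))))))))))))))))

noncomputable def dC2c_i81 : IL := (.s true (nat_lit 3) (nat_lit 80) (nat_lit 1) (nat_lit 2) (nat_lit 1) true (nat_lit 14) true (nat_lit 17) false (nat_lit 7) true (nat_lit 17) true (nat_lit 16) (.s false (nat_lit 2) (nat_lit 82) (nat_lit 1) (nat_lit 2) (nat_lit 1) true (nat_lit 14) true (nat_lit 17) false (nat_lit 7) true (nat_lit 17) true (nat_lit 16) (.s true (nat_lit 3) (nat_lit 83) (nat_lit 1) (nat_lit 2) (nat_lit 1) true (nat_lit 14) true (nat_lit 17) false (nat_lit 7) true (nat_lit 17) true (nat_lit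 16) (.s true (nat_lit 1) (nat_lit 84) (nat_lit 1) (nat_lit 2) (nat_lit 1) true (nat_lit 14) true (nat_lit 17) false (nat_lit 7) true (nat_lit 17) true (nat_lit 16) (.s true (nat_lit 3) (nat_lit 85) (nat_lit 1) (nat_lit 2) (nat_lit 1) true (nat_lit 14) true (nat_lit 17) false (nat_lit 7) true (nat_lit 17) true (nat_lit 16) (.s false (nat_lit 1) (nat_lit 86) (nat_lit 1) (nat_lit 2) (nat_lit 1) true (nat_lit 14) true (nat_lit 17) false (nat_lit 7) true (nat_lit 17) true (nat_lit 16) (.s false (nat_lit 1) (nat_lit 87) (nat_lit 1) (nat_lit 2) (nat_lit 1) true (nat_lit 14) true (nat_lit 17) false (nat_lit 7) true (nat_lit 17) true (nat_lit 16) (.s false (nat_lit 1) (nat_lit 88) (nat_lit 1) (nat_lit 2) (nat_lit 1) true (nat_lit 14) true (nat_lit 17) false (nat_lit 7) true (nat_lit 17) true (nat_lit 16) (.s false (nat_lit 1) (nat_lit 89) (nat_lit 1) (nat_lit 2) (nat_lit 1) true (nat_lit 14) true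 (nat_lit 17) false (nat_lit 7) true (nat_lit 17) true (nat_lit 16) (.s true (nat_lit 2) (nat_lit 80) (nat_lit 2) (nat_lit 1) (nat_lit 1) true (nat_lit 12) true (nat_lit 17) false (nat_lit 7) true (nat_lit 16) true (nat_lit 17) (.s false (nat_lit 1) (nat_lit 83) (nat_lit 2) (nat_lit 1) (nat_lit 1) true (nat_lit 12) true (nat_lit 17) false (nat_lit 7) true (nat_lit 16) true (nat_lit 17) (.s true (nat_lit 3) (nat_lit 88) (nat_lit 2) (nat_lit 1) (nat_lit 1) true (nat_lit 12) true (nat_lit 17) false (nat_lit 7) true (nat_lit 16) true (nat_lit 17) (.s true (nat_lit 2) (nat_lit 89) (nat_lit 2) (nat_lit 1) (nat_lit 1) true (nat_lit 12) true (nat_lit 17) false (nat_lit 7) true (nat_lit 16) true (nat_lit 17) (.s false (nat_lit 2) (nat_lit 92) (nat_lit 0) (nat_lit 1) (nat_lit 2) true (nat_lit 13) true (nat_lit 16) false (nat_lit 8) true (nat_lit 18) true (nat_lit 17) (.s true (nat_lit 1) (nat_lit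 93) (nat_lit 0) (nat_lit 1) (nat_lit 2) true (nat_lit 13) true (nat_lit 16) false (nat_lit 8) true (nat_lit 18) true (nat_lit 17) (.s true (nat_lit 1) (nat_lit 94) (nat_lit 0) (nat_lit 1) (nat_lit 2) true (nat_lit 13) true (nat_lit 16) false (nat_lit 8) true (nat_lit 18) true (nat_lit 17) (.s false (nat_lit 2) (nat_lit 93) (nat_lit 0) (nat_lit 2) (nat_lit 1) true (nat_lit 15) true (nat_lit 17) false (nat_lit 8) true (nat_lit 18) true (nat_lit 16) (.s true (nat_lit 2) (nat_lit 94) (nat_lit 0) (nat_lit 2) (nat_lit 1) true (nat_lit 15) true (nat_lit 17) false (nat_lit 8) true (nat_lit 18) true (nat_lit 16) (.s false (nat_lit 1) (nat_lit 92) (nat_lit 1) (nat_lit 0) (nat_lit 2) true (nat_lit 12) true (nat_lit 16) false (nat_lit 8) true (nat_lit 17) true (nat_lit 18) (.s true (nat_lit 1) (nat_lit 93) (nat_lit 1) (nat_lit 2) (nat_lit 0) true (nat_lit 15) true (nat_lit 18) false (nat_lit 8) true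 (nat_lit 17) true (nat_lit 16) (.s false (nat_lit 2) (nat_lit 95) (nat_lit 1) (nat_lit 2) (nat_lit 0) true (nat_lit 15) true (nat_lit 18) false (nat_lit 8) true (nat_lit 17) true (nat_lit 16) (.s false (nat_lit 2) (nat_lit 96) (nat_lit 1) (nat_lit 2) (nat_lit 0) true (nat_lit 15) true (nat_lit 18) false (nat_lit 8) true (nat_lit 17) true (nat_lit 16) (.s true (nat_lit 2) (nat_lit 92) (nat_lit 2) (nat_lit 1) (nat_lit 0) true (nat_lit 13) true (nat_lit 18) false (nat_lit 8) true (nat_lit 16) true (nat_lit 17) (.s false (nat_lit 1) (nat_lit 93) (nat_lit 2) (nat_lit 1) (nat_lit 0) true (nat_lit 13) true (nat_lit 18) false (nat_lit 8) true (nat_lit 16) true (nat_lit 17) (.s false (nat_lit 2) (nat_lit 97) (nat_lit 1) (nat_lit 1) (nat_lit 1) true (nat_lit 14) true (nat_lit 17) false (nat_lit 9) true (nat_lit 17) true (nat_lit 17) dC2c_i80)))))))))))))))))))))))))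

noncomputable def dC2c_i82 : IL := (.s false (nat_lit 3) (nat_lit 65) (nat_lit 2) (nat_lit 1) (nat_lit 2) true (nat_lit 11) true (nat_lit 16) false (nat_lit 5) true (nat_lit 16) true (nat_lit 17) (.s false (nat_lit 1) (nat_lit 69) (nat_lit 2) (nat_lit 1) (nat_lit 2) true (nat_lit 11) true (nat_lit 16) false (nat_lit 5) true (nat_lit 16) true (nat_lit 17) (.s true (nat_lit 1) (nat_lit 72) (nat_lit 2) (nat_lit 1) (nat_lit 2) true (nat_lit 11) true (nat_lit 16) false (nat_lit 5) true (nat_lit 16) true (nat_lit 17) (.s true (nat_lit 1) (nat_lit 73) (nat_lit 2) (nat_lit 1) (nat_lit 2) true (nat_lit 11) true (nat_lit 16) false (nat_lit 5) true (nat_lit 16) true (nat_lit 17) (.s true (nat_lit 3) (nat_lit 60) (nat_lit 2) (nat_lit 2) (nat_lit 1) true (nat_lit 12) true (nat_lit 17) false (nat_lit 5) true (nat_lit 16) true (nat_lit 16) (.s true (nat_lit 2) (nat_lit 61) (nat_lit 2) (nat_lit 2) (nat_lit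 1) true (nat_lit 12) true (nat_lit 17) false (nat_lit 5) true (nat_lit 16) true (nat_lit 16) (.s false (nat_lit 2) (nat_lit 62) (nat_lit 2) (nat_lit 2) (nat_lit 1) true (nat_lit 12) true (nat_lit 17) false (nat_lit 5) true (nat_lit 16) true (nat_lit 16) (.s false (nat_lit 2) (nat_lit 63) (nat_lit 2) (nat_lit 2) (nat_lit 1) true (nat_lit 12) true (nat_lit 17) false (nat_lit 5) true (nat_lit 16) true (nat_lit 16) (.s true (nat_lit 2) (nat_lit 64) (nat_lit 2) (nat_lit 2) (nat_lit 1) true (nat_lit 12) true (nat_lit 17) false (nat_lit 5) true (nat_lit 16) true (nat_lit 16) (.s true (nat_lit 3) (nat_lit 66) (nat_lit 2) (nat_lit 2) (nat_lit 1) true (nat_lit 12) true (nat_lit 17) false (nat_lit 5) true (nat_lit 16) true (nat_lit 16) (.s true (nat_lit 2) (nat_lit 67) (nat_lit 2) (nat_lit 2) (nat_lit 1) true (nat_lit 12) true (nat_lit 17) false (nat_lit 5) true (nat_lit 16) true (nat_lit 16) (.s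 false (nat_lit 2) (nat_lit 68) (nat_lit 2) (nat_lit 2) (nat_lit 1) true (nat_lit 12) true (nat_lit 17) false (nat_lit 5) true (nat_lit 16) true (nat_lit 16) (.s false (nat_lit 2) (nat_lit 69) (nat_lit 2) (nat_lit 2) (nat_lit 1) true (nat_lit 12) true (nat_lit 17) false (nat_lit 5) true (nat_lit 16) true (nat_lit 16) (.s true (nat_lit 3) (nat_lit 71) (nat_lit 2) (nat_lit 2) (nat_lit 1) true (nat_lit 12) true (nat_lit 17) false (nat_lit 5) true (nat_lit 16) true (nat_lit 16) (.s false (nat_lit 3) (nat_lit 72) (nat_lit 2) (nat_lit 2) (nat_lit 1) true (nat_lit 12) true (nat_lit 17) false (nat_lit 5) true (nat_lit 16) true (nat_lit 16) (.s false (nat_lit 2) (nat_lit 73) (nat_lit 2) (nat_lit 2) (nat_lit 1) true (nat_lit 12) true (nat_lit 17) false (nat_lit 5) true (nat_lit 16) true (nat_lit 16) (.s true (nat_lit 1) (nat_lit 74) (nat_lit 0) (nat_lit 2) (nat_lit 2) true (nat_lit 13) true (nat_lit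 16) false (nat_lit 6) true (nat_lit 18) true (nat_lit 16) (.s false (nat_lit 3) (nat_lit 79) (nat_lit 0) (nat_lit 2) (nat_lit 2) true (nat_lit 13) true (nat_lit 16) false (nat_lit 6) true (nat_lit 18) true (nat_lit 16) (.s true (nat_lit 2) (nat_lit 77) (nat_lit 2) (nat_lit 0) (nat_lit 2) true (nat_lit 11) true (nat_lit 16) false (nat_lit 6) true (nat_lit 16) true (nat_lit 18) (.s false (nat_lit 2) (nat_lit 74) (nat_lit 2) (nat_lit 2) (nat_lit 0) true (nat_lit 13) true (nat_lit 18) false (nat_lit 6) true (nat_lit 16) true (nat_lit 16) (.s false (nat_lit 2) (nat_lit 79) (nat_lit 2) (nat_lit 2) (nat_lit 0) true (nat_lit 13) true (nat_lit 18) false (nat_lit 6) true (nat_lit 16) true (nat_lit 16) (.s false (nat_lit 2) (nat_lit 80) (nat_lit 1) (nat_lit 1) (nat_lit 2) true (nat_lit 12) true (nat_lit 16) false (nat_lit 7) true (nat_lit 17) true (nat_lit 17) (.s true (nat_lit 2) (nat_lit 81) (nat_lit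 1) (nat_lit 1) (nat_lit 2) true (nat_lit 12) true (nat_lit 16) false (nat_lit 7) true (nat_lit 17) true (nat_lit 17) (.s true (nat_lit 1) (nat_lit 83) (nat_lit 1) (nat_lit 1) (nat_lit 2) true (nat_lit 12) true (nat_lit 16) false (nat_lit 7) true (nat_lit 17) true (nat_lit 17) (.s false (nat_lit 2) (nat_lit 88) (nat_lit 1) (nat_lit 1) (nat_lit 2) true (nat_lit 12) true (nat_lit 16) false (nat_lit 7) true (nat_lit 17) true (nat_lit 17) dC2c_i81)))))))))))))))))))))))))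

noncomputable def dC2c_i83 : IL := (.s true (nat_lit 2) (nat_lit 46) (nat_lit 6) (nat_lit 1) (nat_lit 0) true (nat_lit 8) true (nat_lit 18) false (nat_lit 2) true (nat_lit 12) true (nat_lit 17) (.s true (nat_lit 3) (nat_lit 48) (nat_lit 3) (nat_lit 1) (nat_lit 1) true (nat_lit 10) true (nat_lit 17) false (nat_lit 3) true (nat_lit 15) true (nat_lit 17) (.s true (nat_lit 2) (nat_lit 48) (nat_lit 4) (nat_lit 1) (nat_lit 0) true (nat_lit 10) true (nat_lit 18) false (nat_lit 3) true (nat_lit 14) true (nat_lit 17) (.s true (nat_lit 1) (nat_lit 52) (nat_lit 2) (nat_lit 2) (nat_lit 2) true (nat_lit 11) true (nat_lit 16) false (nat_lit 4) true (nat_lit 16) true (nat_lit 16) (.s true (nat_lit 2) (nat_lit 53) (nat_lit 2) (nat_lit 2) (nat_lit 2) true (nat_lit 11) true (nat_lit 16) false (nat_lit 4) true (nat_lit 16) true (nat_lit 16) (.s true (nat_lit 2) (nat_lit 54) (nat_lit 2) (nat_lit 2) (nat_lit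 2) true (nat_lit 11) true (nat_lit 16) false (nat_lit 4) true (nat_lit 16) true (nat_lit 16) (.s true (nat_lit 1) (nat_lit 55) (nat_lit 2) (nat_lit 2) (nat_lit 2) true (nat_lit 11) true (nat_lit 16) false (nat_lit 4) true (nat_lit 16) true (nat_lit 16) (.s true (nat_lit 2) (nat_lit 56) (nat_lit 2) (nat_lit 2) (nat_lit 2) true (nat_lit 11) true (nat_lit 16) false (nat_lit 4) true (nat_lit 16) true (nat_lit 16) (.s false (nat_lit 1) (nat_lit 58) (nat_lit 2) (nat_lit 2) (nat_lit 2) true (nat_lit 11) true (nat_lit 16) false (nat_lit 4) true (nat_lit 16) true (nat_lit 16) (.s true (nat_lit 3) (nat_lit 59) (nat_lit 2) (nat_lit 2) (nat_lit 2) true (nat_lit 11) true (nat_lit 16) false (nat_lit 4) true (nat_lit 16) true (nat_lit 16) (.s false (nat_lit 1) (nat_lit 60) (nat_lit 1) (nat_lit 2) (nat_lit 2) true (nat_lit 12) true (nat_lit 16) false (nat_lit 5) true (nat_lit 17) true (nat_lit 16) (.s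 true (nat_lit 1) (nat_lit 61) (nat_lit 1) (nat_lit 2) (nat_lit 2) true (nat_lit 12) true (nat_lit 16) false (nat_lit 5) true (nat_lit 17) true (nat_lit 16) (.s true (nat_lit 2) (nat_lit 62) (nat_lit 1) (nat_lit 2) (nat_lit 2) true (nat_lit 12) true (nat_lit 16) false (nat_lit 5) true (nat_lit 17) true (nat_lit 16) (.s true (nat_lit 1) (nat_lit 63) (nat_lit 1) (nat_lit 2) (nat_lit 2) true (nat_lit 12) true (nat_lit 16) false (nat_lit 5) true (nat_lit 17) true (nat_lit 16) (.s false (nat_lit 3) (nat_lit 64) (nat_lit 1) (nat_lit 2) (nat_lit 2) true (nat_lit 12) true (nat_lit 16) false (nat_lit 5) true (nat_lit 17) true (nat_lit 16) (.s true (nat_lit 2) (nat_lit 65) (nat_lit 1) (nat_lit 2) (nat_lit 2) true (nat_lit 12) true (nat_lit 16) false (nat_lit 5) true (nat_lit 17) true (nat_lit 16) (.s false (nat_lit 3) (nat_lit 67) (nat_lit 1) (nat_lit 2) (nat_lit 2) true (nat_lit 12) true (nat_lit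 16) false (nat_lit 5) true (nat_lit 17) true (nat_lit 16) (.s false (nat_lit 1) (nat_lit 68) (nat_lit 1) (nat_lit 2) (nat_lit 2) true (nat_lit 12) true (nat_lit 16) false (nat_lit 5) true (nat_lit 17) true (nat_lit 16) (.s true (nat_lit 3) (nat_lit 69) (nat_lit 1) (nat_lit 2) (nat_lit 2) true (nat_lit 12) true (nat_lit 16) false (nat_lit 5) true (nat_lit 17) true (nat_lit 16) (.s true (nat_lit 2) (nat_lit 71) (nat_lit 1) (nat_lit 2) (nat_lit 2) true (nat_lit 12) true (nat_lit 16) false (nat_lit 5) true (nat_lit 17) true (nat_lit 16) (.s false (nat_lit 2) (nat_lit 72) (nat_lit 1) (nat_lit 2) (nat_lit 2) true (nat_lit 12) true (nat_lit 16) false (nat_lit 5) true (nat_lit 17) true (nat_lit 16) (.s true (nat_lit 3) (nat_lit 73) (nat_lit 1) (nat_lit 2) (nat_lit 2) true (nat_lit 12) true (nat_lit 16) false (nat_lit 5) true (nat_lit 17) true (nat_lit 16) (.s true (nat_lit 1) (nat_lit 61) (nat_lit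 2) (nat_lit 1) (nat_lit 2) true (nat_lit 11) true (nat_lit 16) false (nat_lit 5) true (nat_lit 16) true (nat_lit 17) (.s true (nat_lit 2) (nat_lit 63) (nat_lit 2) (nat_lit 1) (nat_lit 2) true (nat_lit 11) true (nat_lit 16) false (nat_lit 5) true (nat_lit 16) true (nat_lit 17) (.s true (nat_lit 2) (nat_lit 64) (nat_lit 2) (nat_lit 1) (nat_lit 2) true (nat_lit 11) true (nat_lit 16) false (nat_lit 5) true (nat_lit 16) true (nat_lit 17) dC2c_i82)))))))))))))))))))))))))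

noncomputable def dC2c_i84 : IL := (.s false (nat_lit 2) (nat_lit 33) (nat_lit 1) (nat_lit 7) (nat_lit 1) true (nat_lit 14) true (nat_lit 17) true (nat_lit 0) true (nat_lit 17) true (nat_lit 11) (.s false (nat_lit 1) (nat_lit 36) (nat_lit 2) (nat_lit 2) (nat_lit 4) true (nat_lit 7) true (nat_lit 14) true (nat_lit 0) true (nat_lit 16) true (nat_lit 16) (.s true (nat_lit 2) (nat_lit 37) (nat_lit 2) (nat_lit 2) (nat_lit 4) true (nat_lit 7) true (nat_lit 14) true (nat_lit 0) true (nat_lit 16) true (nat_lit 16) (.s false (nat_lit 3) (nat_lit 38) (nat_lit 2) (nat_lit 2) (nat_lit 4) true (nat_lit 7) true (nat_lit 14) true (nat_lit 0) true (nat_lit 16) true (nat_lit 16) (.s true (nat_lit 1) (nat_lit 33) (nat_lit 2) (nat_lit 4) (nat_lit 2) true (nat_lit 11) true (nat_lit 16) true (nat_lit 0) true (nat_lit 16) true (nat_lit 14) (.s true (nat_lit 1) (nat_lit 33) (nat_lit 2) (nat_lit 6) (nat_lit 1)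 true (nat_lit 12) true (nat_lit 17) true (nat_lit 0) true (nat_lit 16) true (nat_lit 12) (.s true (nat_lit 3) (nat_lit 35) (nat_lit 4) (nat_lit 2) (nat_lit 2) true (nat_lit 7) true (nat_lit 16) true (nat_lit 0) true (nat_lit 14) true (nat_lit 16) (.s false (nat_lit 2) (nat_lit 34) (nat_lit 6) (nat_lit 1) (nat_lit 2) true (nat_lit 5) true (nat_lit 16) true (nat_lit 0) true (nat_lit 12) true (nat_lit 17) (.s true (nat_lit 3) (nat_lit 33) (nat_lit 6) (nat_lit 2) (nat_lit 1) true (nat_lit 7) true (nat_lit 17) true (nat_lit 0) true (nat_lit 12) true (nat_lit 16) (.s false (nat_lit 1) (nat_lit 33) (nat_lit 7) (nat_lit 1) (nat_lit 1) true (nat_lit 5) true (nat_lit 17) true (nat_lit 0) true (nat_lit 11) true (nat_lit 17) (.s true (nat_lit 3) (nat_lit 39) (nat_lit 2) (nat_lit 3) (nat_lit 2) true (nat_lit 11) true (nat_lit 16) false (nat_lit 0) true (nat_lit 16) true (nat_lit 15) (.s false (nat_lit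 2) (nat_lit 41) (nat_lit 2) (nat_lit 3) (nat_lit 2) true (nat_lit 11) true (nat_lit 16) false (nat_lit 0) true (nat_lit 16) true (nat_lit 15) (.s false (nat_lit 1) (nat_lit 41) (nat_lit 2) (nat_lit 6) (nat_lit 0) true (nat_lit 13) true (nat_lit 18) false (nat_lit 0) true (nat_lit 16) true (nat_lit 12) (.s false (nat_lit 2) (nat_lit 40) (nat_lit 6) (nat_lit 2) (nat_lit 0) true (nat_lit 8) true (nat_lit 18) false (nat_lit 0) true (nat_lit 12) true (nat_lit 16) (.s true (nat_lit 2) (nat_lit 42) (nat_lit 1) (nat_lit 4) (nat_lit 2) true (nat_lit 12) true (nat_lit 16) false (nat_lit 1) true (nat_lit 17) true (nat_lit 14) (.s false (nat_lit 2) (nat_lit 47) (nat_lit 0) (nat_lit 6) (nat_lit 1) true (nat_lit 15) true (nat_lit 17) false (nat_lit 2) true (nat_lit 18) true (nat_lit 12) (.s false (nat_lit 1) (nat_lit 45) (nat_lit 1) (nat_lit 1) (nat_lit 5) true (nat_lit 8) true (nat_lit 13) false (nat_lit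 2) true (nat_lit 17) true (nat_lit 17) (.s false (nat_lit 2) (nat_lit 46) (nat_lit 1) (nat_lit 2) (nat_lit 3) true (nat_lit 10) true (nat_lit 15) false (nat_lit 2) true (nat_lit 17) true (nat_lit 16) (.s false (nat_lit 2) (nat_lit 45) (nat_lit 1) (nat_lit 3) (nat_lit 2) true (nat_lit 12) true (nat_lit 16) false (nat_lit 2) true (nat_lit 17) true (nat_lit 15) (.s true (nat_lit 2) (nat_lit 46) (nat_lit 1) (nat_lit 3) (nat_lit 2) true (nat_lit 12) true (nat_lit 16) false (nat_lit 2) true (nat_lit 17) true (nat_lit 15) (.s true (nat_lit 2) (nat_lit 47) (nat_lit 1) (nat_lit 3) (nat_lit 2) true (nat_lit 12) true (nat_lit 16) false (nat_lit 2) true (nat_lit 17) true (nat_lit 15) (.s false (nat_lit 2) (nat_lit 46) (nat_lit 2) (nat_lit 3) (nat_lit 1) true (nat_lit 12) true (nat_lit 17) false (nat_lit 2) true (nat_lit 16) true (nat_lit 15) (.s true (nat_lit 2) (nat_lit 46) (nat_lit 3) (nat_lit 1)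 (nat_lit 2) true (nat_lit 8) true (nat_lit 16) false (nat_lit 2) true (nat_lit 15) true (nat_lit 17) (.s true (nat_lit 2) (nat_lit 45) (nat_lit 4) (nat_lit 0) (nat_lit 2) true (nat_lit 7) true (nat_lit 16) false (nat_lit 2) true (nat_lit 14) true (nat_lit 18) (.s false (nat_lit 3) (nat_lit 47) (nat_lit 5) (nat_lit 1) (nat_lit 1) true (nat_lit 8) true (nat_lit 17) false (nat_lit 2) true (nat_lit 13) true (nat_lit 17) dC2c_i83)))))))))))))))))))))))))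

noncomputable def dC2c_i85 : IL := (.s false (nat_lit 1) (nat_lit 24) (nat_lit 2) (nat_lit 2) (nat_lit 6) true (nat_lit 5) true (nat_lit 12) true (nat_lit 2) true (nat_lit 16) true (nat_lit 16) (.s true (nat_lit 2) (nat_lit 26) (nat_lit 2) (nat_lit 2) (nat_lit 6) true (nat_lit 5) true (nat_lit 12) true (nat_lit 2) true (nat_lit 16) true (nat_lit 16) (.s true (nat_lit 3) (nat_lit 27) (nat_lit 2) (nat_lit 2) (nat_lit 6) true (nat_lit 5) true (nat_lit 12) true (nat_lit 2) true (nat_lit 16) true (nat_lit 16) (.s false (nat_lit 1) (nat_lit 29) (nat_lit 2) (nat_lit 2) (nat_lit 6) true (nat_lit 5) true (nat_lit 12) true (nat_lit 2) true (nat_lit 16) true (nat_lit 16) (.s true (nat_lit 3) (nat_lit 25) (nat_lit 2) (nat_lit 6) (nat_lit 2) true (nat_lit 11) true (nat_lit 16) true (nat_lit 2) true (nat_lit 16) true (nat_lit 12) (.s true (nat_lit 2) (nat_lit 24) (nat_lit 2) (nat_lit 7) (nat_lit 1)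 true (nat_lit 12) true (nat_lit 17) true (nat_lit 2) true (nat_lit 16) true (nat_lit 11) (.s false (nat_lit 3) (nat_lit 25) (nat_lit 2) (nat_lit 7) (nat_lit 1) true (nat_lit 12) true (nat_lit 17) true (nat_lit 2) true (nat_lit 16) true (nat_lit 11) (.s true (nat_lit 1) (nat_lit 24) (nat_lit 6) (nat_lit 2) (nat_lit 2) true (nat_lit 5) true (nat_lit 16) true (nat_lit 2) true (nat_lit 12) true (nat_lit 16) (.s false (nat_lit 1) (nat_lit 25) (nat_lit 6) (nat_lit 2) (nat_lit 2) true (nat_lit 5) true (nat_lit 16) true (nat_lit 2) true (nat_lit 12) true (nat_lit 16) (.s false (nat_lit 3) (nat_lit 27) (nat_lit 6) (nat_lit 2) (nat_lit 2) true (nat_lit 5) true (nat_lit 16) true (nat_lit 2) true (nat_lit 12) true (nat_lit 16) (.s true (nat_lit 1) (nat_lit 28) (nat_lit 6) (nat_lit 2) (nat_lit 2) true (nat_lit 5) true (nat_lit 16) true (nat_lit 2) true (nat_lit 12) true (nat_lit 16) (.s true (nat_lit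 1) (nat_lit 29) (nat_lit 6) (nat_lit 2) (nat_lit 2) true (nat_lit 5) true (nat_lit 16) true (nat_lit 2) true (nat_lit 12) true (nat_lit 16) (.s false (nat_lit 3) (nat_lit 25) (nat_lit 7) (nat_lit 2) (nat_lit 1) true (nat_lit 5) true (nat_lit 17) true (nat_lit 2) true (nat_lit 11) true (nat_lit 16) (.s false (nat_lit 2) (nat_lit 30) (nat_lit 0) (nat_lit 2) (nat_lit 7) true (nat_lit 6) true (nat_lit 11) true (nat_lit 1) true (nat_lit 18) true (nat_lit 16) (.s true (nat_lit 1) (nat_lit 30) (nat_lit 2) (nat_lit 2) (nat_lit 5) true (nat_lit 6) true (nat_lit 13) true (nat_lit 1) true (nat_lit 16) true (nat_lit 16) (.s true (nat_lit 2) (nat_lit 30) (nat_lit 5) (nat_lit 2) (nat_lit 2) true (nat_lit 6) true (nat_lit 16) true (nat_lit 1) true (nat_lit 13) true (nat_lit 16) (.s false (nat_lit 2) (nat_lit 33) (nat_lit 1) (nat_lit 1) (nat_lit 7) true (nat_lit 5) true (nat_lit 11) true (nat_lit 0) true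 (nat_lit 17) true (nat_lit 17) (.s true (nat_lit 2) (nat_lit 37) (nat_lit 1) (nat_lit 1) (nat_lit 7) true (nat_lit 5) true (nat_lit 11) true (nat_lit 0) true (nat_lit 17) true (nat_lit 17) (.s true (nat_lit 2) (nat_lit 38) (nat_lit 1) (nat_lit 1) (nat_lit 7) true (nat_lit 5) true (nat_lit 11) true (nat_lit 0) true (nat_lit 17) true (nat_lit 17) (.s true (nat_lit 1) (nat_lit 35) (nat_lit 1) (nat_lit 2) (nat_lit 6) true (nat_lit 7) true (nat_lit 12) true (nat_lit 0) true (nat_lit 17) true (nat_lit 16) (.s false (nat_lit 2) (nat_lit 36) (nat_lit 1) (nat_lit 2) (nat_lit 6) true (nat_lit 7) true (nat_lit 12) true (nat_lit 0) true (nat_lit 17) true (nat_lit 16) (.s false (nat_lit 2) (nat_lit 37) (nat_lit 1) (nat_lit 2) (nat_lit 6) true (nat_lit 7) true (nat_lit 12) true (nat_lit 0) true (nat_lit 17) true (nat_lit 16) (.s true (nat_lit 2) (nat_lit 38) (nat_lit 1) (nat_lit 2) (nat_lit 6) true (nat_lit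 7) true (nat_lit 12) true (nat_lit 0) true (nat_lit 17) true (nat_lit 16) (.s false (nat_lit 2) (nat_lit 33) (nat_lit 1) (nat_lit 6) (nat_lit 2) true (nat_lit 12) true (nat_lit 16) true (nat_lit 0) true (nat_lit 17) true (nat_lit 12) (.s true (nat_lit 3) (nat_lit 34) (nat_lit 1) (nat_lit 6) (nat_lit 2) true (nat_lit 12) true (nat_lit 16) true (nat_lit 0) true (nat_lit 17) true (nat_lit 12) dC2c_i84)))))))))))))))))))))))))

noncomputable def dC2c_i86 : IL := (.s false (nat_lit 1) (nat_lit 19) (nat_lit 11) (nat_lit 2) (nat_lit 1) true (nat_lit 2) true (nat_lit 17) true (nat_lit 5) true (nat_lit 8) true (nat_lit 16) (.s false (nat_lit 3) (nat_lit 20) (nat_lit 1) (nat_lit 8) (nat_lit 2) true (nat_lit 12) true (nat_lit 16) true (nat_lit 4) true (nat_lit 17) true (nat_lit 10) (.s true (nat_lit 3) (nat_lit 20) (nat_lit 1) (nat_lit 12) (nat_lit 1) true (nat_lit 14) true (nat_lit 17) true (nat_lit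 4) true (nat_lit 17) true (nat_lit 8) (.s false (nat_lit 3) (nat_lit 20) (nat_lit 2) (nat_lit 1) (nat_lit 8) true (nat_lit 2) true (nat_lit 10) true (nat_lit 4) true (nat_lit 16) true (nat_lit 17) (.s true (nat_lit 3) (nat_lit 20) (nat_lit 2) (nat_lit 9) (nat_lit 1) true (nat_lit 12) true (nat_lit 17) true (nat_lit 4) true (nat_lit 16) true (nat_lit 10) (.s false (nat_lit 2) (nat_lit 20) (nat_lit 3) (nat_lit 2) (nat_lit 4) true (nat_lit 3) true (nat_lit 14) true (nat_lit 4) true (nat_lit 15) true (nat_lit 16) (.s false (nat_lit 3) (nat_lit 20) (nat_lit 4) (nat_lit 5) (nat_lit 1) true (nat_lit 9) true (nat_lit 17) true (nat_lit 4) true (nat_lit 14) true (nat_lit 13) (.s true (nat_lit 2) (nat_lit 20) (nat_lit 9) (nat_lit 2) (nat_lit 1) true (nat_lit 3) true (nat_lit 17) true (nat_lit 4) true (nat_lit 10) true (nat_lit 16) (.s true (nat_lit 2) (nat_lit 20) (nat_lit 11) (nat_lit 1) (nat_lit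 1) true (nat_lit 2) true (nat_lit 17) true (nat_lit 4) true (nat_lit 8) true (nat_lit 17) (.s false (nat_lit 2) (nat_lit 20) (nat_lit 13) (nat_lit 1) (nat_lit 1) true (nat_lit 2) true (nat_lit 17) true (nat_lit 4) true (nat_lit 8) true (nat_lit 17) (.s false (nat_lit 1) (nat_lit 21) (nat_lit 2) (nat_lit 2) (nat_lit 7) true (nat_lit 4) true (nat_lit 11) true (nat_lit 3) true (nat_lit 16) true (nat_lit 16) (.s false (nat_lit 2) (nat_lit 23) (nat_lit 2) (nat_lit 2) (nat_lit 7) true (nat_lit 4) true (nat_lit 11) true (nat_lit 3) true (nat_lit 16) true (nat_lit 16) (.s true (nat_lit 3) (nat_lit 21) (nat_lit 2) (nat_lit 7) (nat_lit 2) true (nat_lit 11) true (nat_lit 16) true (nat_lit 3) true (nat_lit 16) true (nat_lit 11) (.s true (nat_lit 3) (nat_lit 22) (nat_lit 2) (nat_lit 7) (nat_lit 2) true (nat_lit 11) true (nat_lit 16) true (nat_lit 3) true (nat_lit 16) true (nat_lit 11) (.s false (nat_lit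 2) (nat_lit 23) (nat_lit 2) (nat_lit 7) (nat_lit 2) true (nat_lit 11) true (nat_lit 16) true (nat_lit 3) true (nat_lit 16) true (nat_lit 11) (.s false (nat_lit 1) (nat_lit 21) (nat_lit 7) (nat_lit 2) (nat_lit 2) true (nat_lit 4) true (nat_lit 16) true (nat_lit 3) true (nat_lit 11) true (nat_lit 16) (.s true (nat_lit 2) (nat_lit 23) (nat_lit 7) (nat_lit 2) (nat_lit 2) true (nat_lit 4) true (nat_lit 16) true (nat_lit 3) true (nat_lit 11) true (nat_lit 16) (.s true (nat_lit 1) (nat_lit 24) (nat_lit 1) (nat_lit 2) (nat_lit 7) true (nat_lit 5) true (nat_lit 11) true (nat_lit 2) true (nat_lit 17) true (nat_lit 16) (.s false (nat_lit 3) (nat_lit 26) (nat_lit 1) (nat_lit 2) (nat_lit 7) true (nat_lit 5) true (nat_lit 11) true (nat_lit 2) true (nat_lit 17) true (nat_lit 16) (.s false (nat_lit 1) (nat_lit 24) (nat_lit 1) (nat_lit 7) (nat_lit 2) true (nat_lit 12) true (nat_lit 16) true (nat_lit 2)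 true (nat_lit 17) true (nat_lit 11) (.s true (nat_lit 1) (nat_lit 25) (nat_lit 1) (nat_lit 7) (nat_lit 2) true (nat_lit 12) true (nat_lit 16) true (nat_lit 2) true (nat_lit 17) true (nat_lit 11) (.s false (nat_lit 1) (nat_lit 26) (nat_lit 1) (nat_lit 7) (nat_lit 2) true (nat_lit 12) true (nat_lit 16) true (nat_lit 2) true (nat_lit 17) true (nat_lit 11) (.s false (nat_lit 2) (nat_lit 27) (nat_lit 1) (nat_lit 7) (nat_lit 2) true (nat_lit 12) true (nat_lit 16) true (nat_lit 2) true (nat_lit 17) true (nat_lit 11) (.s true (nat_lit 3) (nat_lit 29) (nat_lit 1) (nat_lit 7) (nat_lit 2) true (nat_lit 12) true (nat_lit 16) true (nat_lit 2) true (nat_lit 17) true (nat_lit 11) (.s false (nat_lit 1) (nat_lit 29) (nat_lit 2) (nat_lit 1) (nat_lit 7) true (nat_lit 4) true (nat_lit 11) true (nat_lit 2) true (nat_lit 16) true (nat_lit 17) dC2c_i85)))))))))))))))))))))))))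

noncomputable def dC2c_i87 : IL := (.s true (nat_lit 3) (nat_lit 14) (nat_lit 13) (nat_lit 2) (nat_lit 2) true (nat_lit 0) true (nat_lit 16) true (nat_lit 7) true (nat_lit 8) true (nat_lit 16) (.s false (nat_lit 1) (nat_lit 16) (nat_lit 2) (nat_lit 2) (nat_lit 10) true (nat_lit 1) true (nat_lit 9) true (nat_lit 6) true (nat_lit 16) true (nat_lit 16) (.s false (nat_lit 2) (nat_lit 16) (nat_lit 2) (nat_lit 6) (nat_lit 4) true (nat_lit 7) true (nat_lit 14) true (nat_lit 6) true (nat_lit 16) true (nat_lit 12) (.s true (nat_lit 1) (nat_lit 16) (nat_lit 2) (nat_lit 10) (nat_lit 2) true (nat_lit 11) true (nat_lit 16) true (nat_lit 6) true (nat_lit 16) true (nat_lit 9) (.s false (nat_lit 3) (nat_lit 16) (nat_lit 10) (nat_lit 2) (nat_lit 2) true (nat_lit 1) true (nat_lit 16) true (nat_lit 6) true (nat_lit 9) true (nat_lit 16) (.s true (nat_lit 1) (nat_lit 18) (nat_lit 1) (nat_lit 2) (nat_lit 11)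 true (nat_lit 2) true (nat_lit 8) true (nat_lit 5) true (nat_lit 17) true (nat_lit 16) (.s false (nat_lit 3) (nat_lit 18) (nat_lit 1) (nat_lit 2) (nat_lit 12) true (nat_lit 2) true (nat_lit 8) true (nat_lit 5) true (nat_lit 17) true (nat_lit 16) (.s false (nat_lit 3) (nat_lit 19) (nat_lit 1) (nat_lit 3) (nat_lit 7) true (nat_lit 5) true (nat_lit 11) true (nat_lit 5) true (nat_lit 17) true (nat_lit 15) (.s false (nat_lit 2) (nat_lit 18) (nat_lit 1) (nat_lit 7) (nat_lit 3) true (nat_lit 10) true (nat_lit 15) true (nat_lit 5) true (nat_lit 17) true (nat_lit 11) (.s true (nat_lit 3) (nat_lit 18) (nat_lit 1) (nat_lit 11) (nat_lit 2) true (nat_lit 12) true (nat_lit 16) true (nat_lit 5) true (nat_lit 17) true (nat_lit 8) (.s false (nat_lit 3) (nat_lit 18) (nat_lit 1) (nat_lit 12) (nat_lit 2) true (nat_lit 12) true (nat_lit 16) true (nat_lit 5) true (nat_lit 17) true (nat_lit 8) (.s false (nat_lit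 1) (nat_lit 18) (nat_lit 2) (nat_lit 0) (nat_lit 15) false (nat_lit 0) true (nat_lit 7) true (nat_lit 5) true (nat_lit 16) true (nat_lit 18) (.s true (nat_lit 1) (nat_lit 18) (nat_lit 2) (nat_lit 1) (nat_lit 11) true (nat_lit 0) true (nat_lit 8) true (nat_lit 5) true (nat_lit 16) true (nat_lit 17) (.s true (nat_lit 2) (nat_lit 18) (nat_lit 2) (nat_lit 1) (nat_lit 12) true (nat_lit 0) true (nat_lit 8) true (nat_lit 5) true (nat_lit 16) true (nat_lit 17) (.s false (nat_lit 1) (nat_lit 18) (nat_lit 2) (nat_lit 2) (nat_lit 8) true (nat_lit 2) true (nat_lit 10) true (nat_lit 5) true (nat_lit 16) true (nat_lit 16) (.s true (nat_lit 3) (nat_lit 19) (nat_lit 2) (nat_lit 2) (nat_lit 8) true (nat_lit 2) true (nat_lit 10) true (nat_lit 5) true (nat_lit 16) true (nat_lit 16) (.s false (nat_lit 2) (nat_lit 19) (nat_lit 2) (nat_lit 3) (nat_lit 6) true (nat_lit 5) true (nat_lit 12) true (nat_lit 5) true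 (nat_lit 16) true (nat_lit 15) (.s true (nat_lit 3) (nat_lit 19) (nat_lit 2) (nat_lit 6) (nat_lit 3) true (nat_lit 8) true (nat_lit 15) true (nat_lit 5) true (nat_lit 16) true (nat_lit 12) (.s false (nat_lit 3) (nat_lit 18) (nat_lit 2) (nat_lit 11) (nat_lit 1) true (nat_lit 12) true (nat_lit 17) true (nat_lit 5) true (nat_lit 16) true (nat_lit 8) (.s false (nat_lit 2) (nat_lit 18) (nat_lit 2) (nat_lit 12) (nat_lit 1) true (nat_lit 12) true (nat_lit 17) true (nat_lit 5) true (nat_lit 16) true (nat_lit 8) (.s true (nat_lit 3) (nat_lit 18) (nat_lit 3) (nat_lit 6) (nat_lit 2) true (nat_lit 8) true (nat_lit 16) true (nat_lit 5) true (nat_lit 15) true (nat_lit 12) (.s false (nat_lit 1) (nat_lit 18) (nat_lit 6) (nat_lit 5) (nat_lit 1) true (nat_lit 7) true (nat_lit 17) true (nat_lit 5) true (nat_lit 12) true (nat_lit 13) (.s true (nat_lit 3) (nat_lit 18) (nat_lit 8) (nat_lit 2) (nat_lit 2) true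 (nat_lit 2) true (nat_lit 16) true (nat_lit 5) true (nat_lit 10) true (nat_lit 16) (.s true (nat_lit 1) (nat_lit 18) (nat_lit 9) (nat_lit 2) (nat_lit 2) true (nat_lit 2) true (nat_lit 16) true (nat_lit 5) true (nat_lit 10) true (nat_lit 16) (.s false (nat_lit 3) (nat_lit 19) (nat_lit 9) (nat_lit 2) (nat_lit 2) true (nat_lit 2) true (nat_lit 16) true (nat_lit 5) true (nat_lit 10) true (nat_lit 16) dC2c_i86)))))))))))))))))))))))))

noncomputable def dC2c_i88 : IL := (.e false (nat_lit 2) (nat_lit 211) (nat_lit 2) (nat_lit 16) (.e true (nat_lit 1) (nat_lit 213) (nat_lit 2) (nat_lit 16) (.e true (nat_lit 1) (nat_lit 214) (nat_lit 2) (nat_lit 16) (.e false (nat_lit 2) (nat_lit 215) (nat_lit 2) (nat_lit 16) (.e false (nat_lit 3) (nat_lit 216) (nat_lit 2) (nat_lit 16) (.e false (nat_lit 1) (nat_lit 218) (nat_lit 2) (nat_lit 16) (.e false (nat_lit 3) (nat_lit 219) (nat_lit 2) (nat_lit 16) (.e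 false (nat_lit 1) (nat_lit 220) (nat_lit 2) (nat_lit 16) (.e false (nat_lit 3) (nat_lit 221) (nat_lit 2) (nat_lit 16) (.e false (nat_lit 3) (nat_lit 222) (nat_lit 2) (nat_lit 16) (.e false (nat_lit 3) (nat_lit 225) (nat_lit 2) (nat_lit 16) (.e true (nat_lit 2) (nat_lit 226) (nat_lit 2) (nat_lit 16) (.e false (nat_lit 2) (nat_lit 227) (nat_lit 2) (nat_lit 16) (.e false (nat_lit 2) (nat_lit 228) (nat_lit 2) (nat_lit 16) (.e true (nat_lit 3) (nat_lit 229) (nat_lit 2) (nat_lit 16) (.e true (nat_lit 3) (nat_lit 230) (nat_lit 2) (nat_lit 16) (.e true (nat_lit 2) (nat_lit 231) (nat_lit 2) (nat_lit 16) (.e false (nat_lit 1) (nat_lit 242) (nat_lit 2) (nat_lit 16) (.e true (nat_lit 3) (nat_lit 245) (nat_lit 2) (nat_lit 16) (.e true (nat_lit 2) (nat_lit 246) (nat_lit 2) (nat_lit 16) (.e true (nat_lit 2) (nat_lit 247) (nat_lit 2) (nat_lit 16) (.e true (nat_lit 3) (nat_lit 248) (nat_lit 2) (nat_lit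 16) (.e false (nat_lit 3) (nat_lit 251) (nat_lit 2) (nat_lit 16) (.e false (nat_lit 1) (nat_lit 258) (nat_lit 1) (nat_lit 17) (.u (nat_lit 2) (.p (nat_lit 0) (nat_lit 2) (.p (nat_lit 1) (nat_lit 8) (.n (nat_lit 2) (nat_lit 5) (.n (nat_lit 3) (nat_lit 2) (.n (nat_lit 4) (nat_lit 4) (.p (nat_lit 5) (nat_lit 3) (.n (nat_lit 7) (nat_lit 2) (.p (nat_lit 8) (nat_lit 5) (.p (nat_lit 9) (nat_lit 1) (.p (nat_lit 10) (nat_lit 2) (.n (nat_lit 11) (nat_lit 1) (.p (nat_lit 12) (nat_lit 2) (.p (nat_lit 14) (nat_lit 4) (.p (nat_lit 15) (nat_lit 3) (.p (nat_lit 16) (nat_lit 1) (.p (nat_lit 17) (nat_lit 6) (.n (nat_lit 18) (nat_lit 1) (.p (nat_lit 19) (nat_lit 3) (.p (nat_lit 20) (nat_lit 1) (.n (nat_lit 21) (nat_lit 2) (.p (nat_lit 22) (nat_lit 2) (.n (nat_lit 23) (nat_lit 1) (.p (nat_lit 24) (nat_lit 5) (.p (nat_lit 25) (nat_lit 1) (.p (nat_lit 26) (nat_lit 3) (.p (nat_lit 27) (nat_lit 6) (.n (nat_lit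 28) (nat_lit 3) (.p (nat_lit 29) (nat_lit 2) (.n (nat_lit 33) (nat_lit 1) (.n (nat_lit 34) (nat_lit 2) (.n (nat_lit 35) (nat_lit 1) (.p (nat_lit 36) (nat_lit 4) (.p (nat_lit 37) (nat_lit 1) (.p (nat_lit 38) (nat_lit 1) (.p (nat_lit 39) (nat_lit 2) (.n (nat_lit 40) (nat_lit 1) (.p (nat_lit 44) (nat_lit 1) (.n (nat_lit 45) (nat_lit 2) (.p (nat_lit 46) (nat_lit 5) (.p (nat_lit 47) (nat_lit 5) (.p (nat_lit 48) (nat_lit 2) (.p (nat_lit 52) (nat_lit 1) .z)))))))))))))))))))))))))))))))))))))))))) .nil)))))))))))))))))))))))))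

noncomputable def dC2c_i89 : IL := (.e false (nat_lit 2) (nat_lit 215) (nat_lit 2) (nat_lit 16) (.e false (nat_lit 1) (nat_lit 216) (nat_lit 2) (nat_lit 16) (.e false (nat_lit 1) (nat_lit 217) (nat_lit 2) (nat_lit 16) (.e true (nat_lit 2) (nat_lit 218) (nat_lit 2) (nat_lit 16) (.e true (nat_lit 3) (nat_lit 220) (nat_lit 2) (nat_lit 16) (.e false (nat_lit 3) (nat_lit 221) (nat_lit 2) (nat_lit 16) (.e false (nat_lit 2) (nat_lit 222) (nat_lit 2) (nat_lit 16) (.e true (nat_lit 2) (nat_lit 226) (nat_lit 2) (nat_lit 16) (.e true (nat_lit 1) (nat_lit 228) (nat_lit 2) (nat_lit 16) (.e true (nat_lit 1) (nat_lit 231) (nat_lit 2) (nat_lit 16) (.e false (nat_lit 3) (nat_lit 232) (nat_lit 2) (nat_lit 16) (.e true (nat_lit 1) (nat_lit 234) (nat_lit 2) (nat_lit 16) (.e false (nat_lit 2) (nat_lit 242) (nat_lit 2) (nat_lit 16) (.e false (nat_lit 3) (nat_lit 243) (nat_lit 2) (nat_lit 16) (.e true (nat_lit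 3) (nat_lit 244) (nat_lit 2) (nat_lit 16) (.e false (nat_lit 3) (nat_lit 245) (nat_lit 2) (nat_lit 16) (.e true (nat_lit 2) (nat_lit 247) (nat_lit 2) (nat_lit 16) (.e true (nat_lit 2) (nat_lit 249) (nat_lit 2) (nat_lit 16) (.e true (nat_lit 3) (nat_lit 250) (nat_lit 2) (nat_lit 16) (.e true (nat_lit 2) (nat_lit 251) (nat_lit 2) (nat_lit 16) (.e false (nat_lit 1) (nat_lit 67) (nat_lit 18) (nat_lit 5) (.e false (nat_lit 1) (nat_lit 223) (nat_lit 2) (nat_lit 16) (.e false (nat_lit 1) (nat_lit 248) (nat_lit 2) (nat_lit 16) (.e false (nat_lit 1) (nat_lit 259) (nat_lit 1) (nat_lit 17) (.u (nat_lit 2) (.n (nat_lit 1) (nat_lit 6) (.p (nat_lit 2) (nat_lit 7) (.p (nat_lit 3) (nat_lit 1) (.n (nat_lit 5) (nat_lit 2) (.p (nat_lit 6) (nat_lit 3) (.n (nat_lit 7) (nat_lit 1) (.n (nat_lit 8) (nat_lit 2) (.p (nat_lit 9) (nat_lit 2) (.p (nat_lit 10) (nat_lit 2) (.p (nat_lit 12) (nat_lit 1) (.n (nat_lit 14)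 (nat_lit 3) (.p (nat_lit 15) (nat_lit 5) (.p (nat_lit 17) (nat_lit 3) (.n (nat_lit 18) (nat_lit 4) (.n (nat_lit 19) (nat_lit 1) (.n (nat_lit 20) (nat_lit 4) (.p (nat_lit 21) (nat_lit 4) (.n (nat_lit 22) (nat_lit 4) (.p (nat_lit 23) (nat_lit 1) (.p (nat_lit 24) (nat_lit 1) (.p (nat_lit 25) (nat_lit 2) (.n (nat_lit 26) (nat_lit 3) (.n (nat_lit 27) (nat_lit 2) (.n (nat_lit 29) (nat_lit 1) (.p (nat_lit 31) (nat_lit 1) (.n (nat_lit 32) (nat_lit 2) (.n (nat_lit 33) (nat_lit 2) (.p (nat_lit 34) (nat_lit 8) (.n (nat_lit 36) (nat_lit 5) (.p (nat_lit 38) (nat_lit 2) (.p (nat_lit 39) (nat_lit 1) (.n (nat_lit 40) (nat_lit 1) (.n (nat_lit 44) (nat_lit 1) (.p (nat_lit 45) (nat_lit 2) (.p (nat_lit 46) (nat_lit 5) (.p (nat_lit 48) (nat_lit 1) (.n (nat_lit 51) (nat_lit 1) (.n (nat_lit 57) (nat_lit 1) (.p (nat_lit 307) (nat_lit 1) (.n (nat_lit 309) (nat_lit 1) (.n (nat_lit 329) (nat_lit 1) (.n (nat_lit 342)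 (nat_lit 1) (.p (nat_lit 347) (nat_lit 1) .z))))))))))))))))))))))))))))))))))))))))))) .nil)))))))))))))))))))))))))

noncomputable def dC2c_i90 : IL := (.e true (nat_lit 3) (nat_lit 285) (nat_lit 1) (nat_lit 17) (.e true (nat_lit 2) (nat_lit 94) (nat_lit 11) (nat_lit 8) (.e true (nat_lit 3) (nat_lit 62) (nat_lit 19) (nat_lit 5) (.e false (nat_lit 3) (nat_lit 65) (nat_lit 19) (nat_lit 5) (.e false (nat_lit 1) (nat_lit 114) (nat_lit 7) (nat_lit 11) (.e true (nat_lit 3) (nat_lit 252) (nat_lit 1) (nat_lit 17) (.e true (nat_lit 2) (nat_lit 253) (nat_lit 1) (nat_lit 17) (.e false (nat_lit 1) (nat_lit 257) (nat_lit 1) (nat_lit 17) (.e true (nat_lit 1) (nat_lit 273) (nat_lit 1) (nat_lit 17) (.e true (nat_lit 3) (nat_lit 275) (nat_lit 1) (nat_lit 17) (.e true (nat_lit 3) (nat_lit 277) (nat_lit 1) (nat_lit 17) (.e true (nat_lit 3) (nat_lit 243) (nat_lit 2) (nat_lit 16) (.e false (nat_lit 1) (nat_lit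 152) (nat_lit 6) (nat_lit 12) (.e true (nat_lit 3) (nat_lit 249) (nat_lit 2) (nat_lit 16) (.e true (nat_lit 3) (nat_lit 135) (nat_lit 6) (nat_lit 12) (.e false (nat_lit 3) (nat_lit 137) (nat_lit 6) (nat_lit 12) (.e false (nat_lit 3) (nat_lit 155) (nat_lit 6) (nat_lit 12) (.e true (nat_lit 1) (nat_lit 255) (nat_lit 1) (nat_lit 17) (.e false (nat_lit 2) (nat_lit 212) (nat_lit 2) (nat_lit 16) (.e true (nat_lit 3) (nat_lit 250) (nat_lit 2) (nat_lit 16) (.e true (nat_lit 3) (nat_lit 46) (nat_lit 26) (nat_lit 2) (.e false (nat_lit 3) (nat_lit 46) (nat_lit 27) (nat_lit 2) (.e false (nat_lit 2) (nat_lit 232) (nat_lit 2) (nat_lit 16) (.u (nat_lit 2) (.n (nat_lit 0) (nat_lit 3) (.p (nat_lit 2) (nat_lit 8) (.n (nat_lit 3) (nat_lit 1) (.n (nat_lit 4) (nat_lit 2) (.n (nat_lit 5) (nat_lit 2) (.p (nat_lit 6) (nat_lit 1) (.n (nat_lit 7) (nat_lit 4) (.n (nat_lit 8) (nat_lit 9) (.n (nat_lit 9) (nat_lit 3)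 (.n (nat_lit 10) (nat_lit 1) (.p (nat_lit 11) (nat_lit 1) (.p (nat_lit 12) (nat_lit 1) (.p (nat_lit 14) (nat_lit 1) (.p (nat_lit 15) (nat_lit 4) (.p (nat_lit 16) (nat_lit 6) (.n (nat_lit 17) (nat_lit 1) (.p (nat_lit 18) (nat_lit 3) (.p (nat_lit 19) (nat_lit 1) (.p (nat_lit 20) (nat_lit 3) (.n (nat_lit 21) (nat_lit 4) (.p (nat_lit 22) (nat_lit 4) (.p (nat_lit 23) (nat_lit 7) (.p (nat_lit 24) (nat_lit 2) (.n (nat_lit 25) (nat_lit 11) (.p (nat_lit 26) (nat_lit 4) (.n (nat_lit 27) (nat_lit 5) (.n (nat_lit 28) (nat_lit 1) (.n (nat_lit 29) (nat_lit 1) (.n (nat_lit 31) (nat_lit 3) (.p (nat_lit 32) (nat_lit 4) (.p (nat_lit 33) (nat_lit 3) (.n (nat_lit 34) (nat_lit 3) (.p (nat_lit 35) (nat_lit 6) (.p (nat_lit 36) (nat_lit 1) (.n (nat_lit 37) (nat_lit 7) (.n (nat_lit 38) (nat_lit 3) (.n (nat_lit 39) (nat_lit 2) (.n (nat_lit 40) (nat_lit 1) (.p (nat_lit 42) (nat_lit 2) (.n (nat_lit 44) (nat_lit 1)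 (.p (nat_lit 45) (nat_lit 3) (.n (nat_lit 46) (nat_lit 4) (.n (nat_lit 47) (nat_lit 1) (.n (nat_lit 48) (nat_lit 1) (.n (nat_lit 49) (nat_lit 1) (.p (nat_lit 55) (nat_lit 1) (.n (nat_lit 221) (nat_lit 1) (.p (nat_lit 239) (nat_lit 1) (.n (nat_lit 241) (nat_lit 1) (.p (nat_lit 245) (nat_lit 1) (.p (nat_lit 256) (nat_lit 1) (.n (nat_lit 259) (nat_lit 1) (.p (nat_lit 302) (nat_lit 4) (.p (nat_lit 303) (nat_lit 6) (.p (nat_lit 304) (nat_lit 4) (.n (nat_lit 307) (nat_lit 1) (.n (nat_lit 308) (nat_lit 1) (.p (nat_lit 309) (nat_lit 1) (.p (nat_lit 310) (nat_lit 4) (.p (nat_lit 311) (nat_lit 1) .z)))))))))))))))))))))))))))))))))))))))))))))))))))))))))))) (.u (nat_lit 2) (.p (nat_lit 312) (nat_lit 6) (.p (nat_lit 313) (nat_lit 2) (.n (nat_lit 314) (nat_lit 4) (.p (nat_lit 316) (nat_lit 3) (.n (nat_lit 317) (nat_lit 1) (.n (nat_lit 318) (nat_lit 2) (.n (nat_lit 319) (nat_lit 1) (.n (nat_lit 322)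 (nat_lit 2) (.p (nat_lit 323) (nat_lit 1) (.n (nat_lit 324) (nat_lit 3) (.n (nat_lit 326) (nat_lit 3) (.n (nat_lit 328) (nat_lit 2) (.p (nat_lit 329) (nat_lit 1) (.p (nat_lit 330) (nat_lit 1) (.n (nat_lit 332) (nat_lit 1) (.n (nat_lit 335) (nat_lit 2) (.n (nat_lit 342) (nat_lit 3) (.n (nat_lit 343) (nat_lit 1) (.n (nat_lit 344) (nat_lit 1) (.p (nat_lit 345) (nat_lit 4) (.p (nat_lit 348) (nat_lit 2) (.p (nat_lit 349) (nat_lit 3) (.n (nat_lit 350) (nat_lit 1) (.p (nat_lit 351) (nat_lit 3) (.p (nat_lit 352) (nat_lit 1) (.p (nat_lit 354) (nat_lit 2) (.n (nat_lit 362) (nat_lit 2) (.p (nat_lit 363) (nat_lit 2) (.n (nat_lit 366) (nat_lit 2) (.p (nat_lit 369) (nat_lit 1) (.n (nat_lit 370) (nat_lit 2) (.n (nat_lit 371) (nat_lit 2) (.p (nat_lit 374) (nat_lit 3) (.p (nat_lit 382) (nat_lit 1) .z)))))))))))))))))))))))))))))))))) .nil)))))))))))))))))))))))))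

noncomputable def dC2c_i91 : IL := (.e true (nat_lit 2) (nat_lit 226) (nat_lit 2) (nat_lit 16) (.e true (nat_lit 2) (nat_lit 227) (nat_lit 2) (nat_lit 16) (.e false (nat_lit 3) (nat_lit 230) (nat_lit 2) (nat_lit 16) (.e false (nat_lit 2) (nat_lit 231) (nat_lit 2) (nat_lit 16) (.e true (nat_lit 2) (nat_lit 233) (nat_lit 2) (nat_lit 16) (.e true (nat_lit 3) (nat_lit 242) (nat_lit 2) (nat_lit 16) (.e false (nat_lit 2) (nat_lit 248) (nat_lit 2) (nat_lit 16) (.e true (nat_lit 2) (nat_lit 251) (nat_lit 2) (nat_lit 16) (.e false (nat_lit 3) (nat_lit 138) (nat_lit 6) (nat_lit 12) (.e true (nat_lit 3) (nat_lit 145) (nat_lit 6) (nat_lit 12) (.e true (nat_lit 3) (nat_lit 134) (nat_lit 6) (nat_lit 12) (.e true (nat_lit 2) (nat_lit 208) (nat_lit 2) (nat_lit 16) (.e false (nat_lit 3) (nat_lit 228) (nat_lit 2) (nat_lit 16) (.e true (nat_lit 2) (nat_lit 246) (nat_lit 2) (nat_lit 16) (.e true (nat_lit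 2) (nat_lit 247) (nat_lit 2) (nat_lit 16) (.e false (nat_lit 2) (nat_lit 62) (nat_lit 18) (nat_lit 5) (.e true (nat_lit 3) (nat_lit 254) (nat_lit 1) (nat_lit 17) (.e true (nat_lit 1) (nat_lit 258) (nat_lit 1) (nat_lit 17) (.e false (nat_lit 2) (nat_lit 264) (nat_lit 1) (nat_lit 17) (.e false (nat_lit 1) (nat_lit 265) (nat_lit 1) (nat_lit 17) (.e false (nat_lit 2) (nat_lit 266) (nat_lit 1) (nat_lit 17) (.e true (nat_lit 3) (nat_lit 269) (nat_lit 1) (nat_lit 17) (.e true (nat_lit 3) (nat_lit 272) (nat_lit 1) (nat_lit 17) (.e true (nat_lit 1) (nat_lit 274) (nat_lit 1) (nat_lit 17) (.e false (nat_lit 2) (nat_lit 278) (nat_lit 1) (nat_lit 17) dC2c_i90)))))))))))))))))))))))))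

noncomputable def dC2c_i92 : IL := (.s true (nat_lit 1) (nat_lit 11) (nat_lit 6) (nat_lit 6) (nat_lit 2) true (nat_lit 5) true (nat_lit 16) true (nat_lit 8) true (nat_lit 12) true (nat_lit 12) (.s true (nat_lit 2) (nat_lit 18) (nat_lit 1) (nat_lit 11) (nat_lit 2) true (nat_lit 12) true (nat_lit 16) true (nat_lit 5) true (nat_lit 17) true (nat_lit 8) (.s false (nat_lit 3) (nat_lit 19) (nat_lit 1) (nat_lit 11) (nat_lit 2) true (nat_lit 12) true (nat_lit 16) true (nat_lit 5) true (nat_lit 17) true (nat_lit 8) (.s true (nat_lit 3) (nat_lit 29) (nat_lit 1) (nat_lit 2) (nat_lit 7) true (nat_lit 5) true (nat_lit 11) true (nat_lit 2) true (nat_lit 17) true (nat_lit 16) (.s false (nat_lit 3) (nat_lit 24) (nat_lit 1) (nat_lit 7) (nat_lit 2) true (nat_lit 12) true (nat_lit 16) true (nat_lit 2) true (nat_lit 17) true (nat_lit 11) (.s true (nat_lit 3) (nat_lit 25) (nat_lit 1) (nat_lit 7) (nat_lit 2)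 true (nat_lit 12) true (nat_lit 16) true (nat_lit 2) true (nat_lit 17) true (nat_lit 11) (.s true (nat_lit 3) (nat_lit 29) (nat_lit 2) (nat_lit 7) (nat_lit 1) true (nat_lit 12) true (nat_lit 17) true (nat_lit 2) true (nat_lit 16) true (nat_lit 11) (.s true (nat_lit 3) (nat_lit 46) (nat_lit 1) (nat_lit 3) (nat_lit 2) true (nat_lit 12) true (nat_lit 16) false (nat_lit 2) true (nat_lit 17) true (nat_lit 15) (.s true (nat_lit 3) (nat_lit 46) (nat_lit 2) (nat_lit 1) (nat_lit 3) true (nat_lit 8) true (nat_lit 15) false (nat_lit 2) true (nat_lit 16) true (nat_lit 17) (.s false (nat_lit 3) (nat_lit 60) (nat_lit 1) (nat_lit 2) (nat_lit 2) true (nat_lit 12) true (nat_lit 16) false (nat_lit 5) true (nat_lit 17) true (nat_lit 16) (.s true (nat_lit 3) (nat_lit 61) (nat_lit 1) (nat_lit 2) (nat_lit 2) true (nat_lit 12) true (nat_lit 16) false (nat_lit 5) true (nat_lit 17) true (nat_lit 16) (.s true (nat_lit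 3) (nat_lit 60) (nat_lit 2) (nat_lit 1) (nat_lit 2) true (nat_lit 11) true (nat_lit 16) false (nat_lit 5) true (nat_lit 16) true (nat_lit 17) (.s false (nat_lit 3) (nat_lit 61) (nat_lit 2) (nat_lit 1) (nat_lit 2) true (nat_lit 11) true (nat_lit 16) false (nat_lit 5) true (nat_lit 16) true (nat_lit 17) (.e false (nat_lit 1) (nat_lit 73) (nat_lit 18) (nat_lit 5) (.e true (nat_lit 1) (nat_lit 206) (nat_lit 2) (nat_lit 16) (.e true (nat_lit 3) (nat_lit 209) (nat_lit 2) (nat_lit 16) (.e true (nat_lit 3) (nat_lit 213) (nat_lit 2) (nat_lit 16) (.e true (nat_lit 1) (nat_lit 214) (nat_lit 2) (nat_lit 16) (.e true (nat_lit 2) (nat_lit 215) (nat_lit 2) (nat_lit 16) (.e false (nat_lit 3) (nat_lit 217) (nat_lit 2) (nat_lit 16) (.e false (nat_lit 3) (nat_lit 218) (nat_lit 2) (nat_lit 16) (.e false (nat_lit 2) (nat_lit 219) (nat_lit 2) (nat_lit 16) (.e true (nat_lit 2) (nat_lit 220) (nat_lit 2) (nat_lit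 16) (.e false (nat_lit 1) (nat_lit 222) (nat_lit 2) (nat_lit 16) (.e true (nat_lit 2) (nat_lit 225) (nat_lit 2) (nat_lit 16) dC2c_i91)))))))))))))))))))))))))

noncomputable def dC2c_i93 : IL := (.e false (nat_lit 2) (nat_lit 103) (nat_lit 11) (nat_lit 7) (.e true (nat_lit 1) (nat_lit 134) (nat_lit 7) (nat_lit 9) (.e false (nat_lit 1) (nat_lit 145) (nat_lit 7) (nat_lit 9) (.e false (nat_lit 1) (nat_lit 146) (nat_lit 7) (nat_lit 9) (.e true (nat_lit 1) (nat_lit 154) (nat_lit 7) (nat_lit 9) (.e false (nat_lit 2) (nat_lit 285) (nat_lit 2) (nat_lit 14) (.e true (nat_lit 1) (nat_lit 72) (nat_lit 20) (nat_lit 3) (.e true (nat_lit 2) (nat_lit 283) (nat_lit 2) (nat_lit 14) (.e true (nat_lit 3) (nat_lit 306) (nat_lit 1) (nat_lit 15) (.e false (nat_lit 3) (nat_lit 307) (nat_lit 1) (nat_lit 15) (.e true (nat_lit 2) (nat_lit 310) (nat_lit 1) (nat_lit 15) (.e true (nat_lit 3) (nat_lit 313) (nat_lit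 1) (nat_lit 15) (.e false (nat_lit 2) (nat_lit 314) (nat_lit 1) (nat_lit 15) (.e false (nat_lit 1) (nat_lit 317) (nat_lit 1) (nat_lit 15) (.e true (nat_lit 1) (nat_lit 62) (nat_lit 20) (nat_lit 3) (.e false (nat_lit 1) (nat_lit 73) (nat_lit 20) (nat_lit 3) (.e true (nat_lit 1) (nat_lit 144) (nat_lit 7) (nat_lit 9) (.e true (nat_lit 3) (nat_lit 305) (nat_lit 1) (nat_lit 15) (.e false (nat_lit 2) (nat_lit 309) (nat_lit 1) (nat_lit 15) (.e true (nat_lit 1) (nat_lit 311) (nat_lit 1) (nat_lit 15) (.e true (nat_lit 1) (nat_lit 312) (nat_lit 1) (nat_lit 15) (.e true (nat_lit 1) (nat_lit 321) (nat_lit 1) (nat_lit 15) (.e false (nat_lit 1) (nat_lit 322) (nat_lit 1) (nat_lit 15) (.e false (nat_lit 1) (nat_lit 104) (nat_lit 11) (nat_lit 7) (.u (nat_lit 2) (.n (nat_lit 0) (nat_lit 2) (.p (nat_lit 1) (nat_lit 2) (.n (nat_lit 2) (nat_lit 1) (.n (nat_lit 3) (nat_lit 1) (.n (nat_lit 5) (nat_lit 3) (.p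 (nat_lit 6) (nat_lit 2) (.p (nat_lit 7) (nat_lit 2) (.n (nat_lit 9) (nat_lit 1) (.p (nat_lit 10) (nat_lit 3) (.p (nat_lit 11) (nat_lit 1) (.p (nat_lit 13) (nat_lit 4) (.p (nat_lit 15) (nat_lit 1) (.p (nat_lit 16) (nat_lit 1) (.p (nat_lit 17) (nat_lit 1) (.n (nat_lit 18) (nat_lit 1) (.n (nat_lit 21) (nat_lit 2) (.p (nat_lit 23) (nat_lit 2) (.p (nat_lit 24) (nat_lit 1) (.p (nat_lit 25) (nat_lit 1) (.p (nat_lit 27) (nat_lit 1) (.n (nat_lit 30) (nat_lit 1) (.p (nat_lit 38) (nat_lit 2) (.p (nat_lit 206) (nat_lit 1) (.n (nat_lit 207) (nat_lit 2) (.n (nat_lit 208) (nat_lit 1) (.p (nat_lit 209) (nat_lit 2) (.n (nat_lit 211) (nat_lit 1) (.p (nat_lit 212) (nat_lit 1) (.n (nat_lit 215) (nat_lit 1) (.n (nat_lit 218) (nat_lit 1) (.n (nat_lit 219) (nat_lit 1) (.n (nat_lit 221) (nat_lit 2) (.n (nat_lit 224) (nat_lit 1) (.p (nat_lit 226) (nat_lit 1) (.p (nat_lit 227) (nat_lit 1) (.p (nat_lit 229) (nat_lit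 1) (.n (nat_lit 235) (nat_lit 1) (.p (nat_lit 237) (nat_lit 2) (.n (nat_lit 243) (nat_lit 1) (.n (nat_lit 244) (nat_lit 1) (.p (nat_lit 249) (nat_lit 1) (.n (nat_lit 250) (nat_lit 1) .z)))))))))))))))))))))))))))))))))))))))))) .nil)))))))))))))))))))))))))

noncomputable def dC2c_i94 : IL := (.s false (nat_lit 1) (nat_lit 20) (nat_lit 2) (nat_lit 2) (nat_lit 8) true (nat_lit 2) true (nat_lit 8) true (nat_lit 3) true (nat_lit 14) true (nat_lit 14) (.s false (nat_lit 1) (nat_lit 20) (nat_lit 3) (nat_lit 7) (nat_lit 1) true (nat_lit 8) true (nat_lit 15) true (nat_lit 3) true (nat_lit 13) true (nat_lit 9) (.s false (nat_lit 1) (nat_lit 20) (nat_lit 6) (nat_lit 2) (nat_lit 3) true (nat_lit 2) true (nat_lit 13) true (nat_lit 3) true (nat_lit 10) true (nat_lit 14) (.s true (nat_lit 2) (nat_lit 20) (nat_lit 8) (nat_lit 2) (nat_lit 2) true (nat_lit 2) true (nat_lit 14) true (nat_lit 3) true (nat_lit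 8) true (nat_lit 14) (.s true (nat_lit 1) (nat_lit 24) (nat_lit 2) (nat_lit 2) (nat_lit 7) true (nat_lit 3) true (nat_lit 9) true (nat_lit 2) true (nat_lit 14) true (nat_lit 14) (.s true (nat_lit 1) (nat_lit 33) (nat_lit 2) (nat_lit 2) (nat_lit 6) true (nat_lit 4) true (nat_lit 10) true (nat_lit 1) true (nat_lit 14) true (nat_lit 14) (.s true (nat_lit 1) (nat_lit 46) (nat_lit 2) (nat_lit 3) (nat_lit 2) true (nat_lit 9) true (nat_lit 14) false (nat_lit 1) true (nat_lit 14) true (nat_lit 13) (.s true (nat_lit 1) (nat_lit 45) (nat_lit 3) (nat_lit 2) (nat_lit 2) true (nat_lit 7) true (nat_lit 14) false (nat_lit 1) true (nat_lit 13) true (nat_lit 14) (.s false (nat_lit 1) (nat_lit 47) (nat_lit 3) (nat_lit 2) (nat_lit 2) true (nat_lit 7) true (nat_lit 14) false (nat_lit 1) true (nat_lit 13) true (nat_lit 14) (.s true (nat_lit 1) (nat_lit 48) (nat_lit 1) (nat_lit 2) (nat_lit 3) true (nat_lit 8)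 true (nat_lit 13) false (nat_lit 2) true (nat_lit 15) true (nat_lit 14) (.s false (nat_lit 1) (nat_lit 48) (nat_lit 3) (nat_lit 1) (nat_lit 2) true (nat_lit 7) true (nat_lit 14) false (nat_lit 2) true (nat_lit 13) true (nat_lit 15) (.s false (nat_lit 1) (nat_lit 80) (nat_lit 1) (nat_lit 2) (nat_lit 2) true (nat_lit 10) true (nat_lit 14) false (nat_lit 4) true (nat_lit 15) true (nat_lit 14) (.e true (nat_lit 2) (nat_lit 88) (nat_lit 18) (nat_lit 4) (.e true (nat_lit 2) (nat_lit 252) (nat_lit 2) (nat_lit 14) (.e true (nat_lit 2) (nat_lit 253) (nat_lit 2) (nat_lit 14) (.e false (nat_lit 2) (nat_lit 254) (nat_lit 2) (nat_lit 14) (.e false (nat_lit 2) (nat_lit 255) (nat_lit 2) (nat_lit 14) (.e true (nat_lit 2) (nat_lit 257) (nat_lit 2) (nat_lit 14) (.e false (nat_lit 3) (nat_lit 258) (nat_lit 2) (nat_lit 14) (.e false (nat_lit 3) (nat_lit 264) (nat_lit 2) (nat_lit 14) (.e false (nat_lit 2) (nat_lit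 266) (nat_lit 2) (nat_lit 14) (.e true (nat_lit 3) (nat_lit 269) (nat_lit 2) (nat_lit 14) (.e true (nat_lit 2) (nat_lit 272) (nat_lit 2) (nat_lit 14) (.e false (nat_lit 1) (nat_lit 274) (nat_lit 2) (nat_lit 14) (.e true (nat_lit 1) (nat_lit 277) (nat_lit 2) (nat_lit 14) dC2c_i93)))))))))))))))))))))))))

noncomputable def dC2c_i95 : IL := (.e false (nat_lit 3) (nat_lit 234) (nat_lit 2) (nat_lit 16) (.e true (nat_lit 3) (nat_lit 244) (nat_lit 2) (nat_lit 16) (.e false (nat_lit 2) (nat_lit 246) (nat_lit 2) (nat_lit 16) (.e false (nat_lit 2) (nat_lit 247) (nat_lit 2) (nat_lit 16) (.e true (nat_lit 3) (nat_lit 250) (nat_lit 2) (nat_lit 16) (.e false (nat_lit 3) (nat_lit 144) (nat_lit 6) (nat_lit 12) (.e false (nat_lit 3) (nat_lit 245) (nat_lit 2) (nat_lit 16) (.e false (nat_lit 3) (nat_lit 47) (nat_lit 24) (nat_lit 2) (.e false (nat_lit 3) (nat_lit 253) (nat_lit 1) (nat_lit 17) (.e false (nat_lit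 1) (nat_lit 254) (nat_lit 1) (nat_lit 17) (.e true (nat_lit 3) (nat_lit 255) (nat_lit 1) (nat_lit 17) (.e false (nat_lit 3) (nat_lit 257) (nat_lit 1) (nat_lit 17) (.e false (nat_lit 2) (nat_lit 258) (nat_lit 1) (nat_lit 17) (.e false (nat_lit 2) (nat_lit 265) (nat_lit 1) (nat_lit 17) (.e false (nat_lit 2) (nat_lit 269) (nat_lit 1) (nat_lit 17) (.e false (nat_lit 3) (nat_lit 285) (nat_lit 1) (nat_lit 17) (.e false (nat_lit 3) (nat_lit 193) (nat_lit 3) (nat_lit 15) (.e false (nat_lit 3) (nat_lit 94) (nat_lit 11) (nat_lit 8) (.e false (nat_lit 3) (nat_lit 191) (nat_lit 3) (nat_lit 15) (.e false (nat_lit 3) (nat_lit 45) (nat_lit 26) (nat_lit 2) (.e true (nat_lit 3) (nat_lit 45) (nat_lit 27) (nat_lit 2) (.e true (nat_lit 3) (nat_lit 274) (nat_lit 1) (nat_lit 17) (.e true (nat_lit 3) (nat_lit 284) (nat_lit 1) (nat_lit 17) (.u (nat_lit 2) (.n (nat_lit 0) (nat_lit 4) (.p (nat_lit 1) (nat_lit 2)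 (.p (nat_lit 2) (nat_lit 2) (.p (nat_lit 3) (nat_lit 3) (.n (nat_lit 4) (nat_lit 2) (.p (nat_lit 5) (nat_lit 4) (.p (nat_lit 6) (nat_lit 4) (.p (nat_lit 7) (nat_lit 5) (.n (nat_lit 8) (nat_lit 2) (.n (nat_lit 9) (nat_lit 2) (.n (nat_lit 10) (nat_lit 7) (.n (nat_lit 11) (nat_lit 5) (.p (nat_lit 12) (nat_lit 4) (.p (nat_lit 14) (nat_lit 6) (.n (nat_lit 15) (nat_lit 3) (.n (nat_lit 16) (nat_lit 5) (.n (nat_lit 17) (nat_lit 3) (.n (nat_lit 18) (nat_lit 11) (.p (nat_lit 19) (nat_lit 7) (.p (nat_lit 20) (nat_lit 2) (.p (nat_lit 21) (nat_lit 7) (.n (nat_lit 22) (nat_lit 7) (.p (nat_lit 23) (nat_lit 3) (.p (nat_lit 25) (nat_lit 2) (.n (nat_lit 26) (nat_lit 8) (.n (nat_lit 27) (nat_lit 1) (.p (nat_lit 28) (nat_lit 2) (.p (nat_lit 29) (nat_lit 9) (.n (nat_lit 31) (nat_lit 3) (.p (nat_lit 32) (nat_lit 3) (.p (nat_lit 33) (nat_lit 2) (.p (nat_lit 34) (nat_lit 4) (.p (nat_lit 35) (nat_lit 5) (.p (nat_lit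 36) (nat_lit 7) (.p (nat_lit 37) (nat_lit 3) (.n (nat_lit 38) (nat_lit 2) (.p (nat_lit 39) (nat_lit 2) (.n (nat_lit 40) (nat_lit 3) (.p (nat_lit 42) (nat_lit 2) (.n (nat_lit 44) (nat_lit 3) (.n (nat_lit 45) (nat_lit 2) (.n (nat_lit 47) (nat_lit 7) (.n (nat_lit 48) (nat_lit 3) (.p (nat_lit 52) (nat_lit 1) (.p (nat_lit 55) (nat_lit 1) (.p (nat_lit 240) (nat_lit 1) (.n (nat_lit 302) (nat_lit 2) (.n (nat_lit 303) (nat_lit 7) (.n (nat_lit 304) (nat_lit 3) (.n (nat_lit 305) (nat_lit 2) (.p (nat_lit 306) (nat_lit 3) (.p (nat_lit 308) (nat_lit 2) (.p (nat_lit 310) (nat_lit 1) (.p (nat_lit 311) (nat_lit 3) (.p (nat_lit 313) (nat_lit 5) (.p (nat_lit 314) (nat_lit 10) (.p (nat_lit 315) (nat_lit 5) (.p (nat_lit 316) (nat_lit 1) (.n (nat_lit 317) (nat_lit 3) (.p (nat_lit 318) (nat_lit 4) .z)))))))))))))))))))))))))))))))))))))))))))))))))))))))))))) (.u (nat_lit 2) (.p (nat_lit 319) (nat_lit 5) (.p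 (nat_lit 322) (nat_lit 2) (.n (nat_lit 323) (nat_lit 8) (.n (nat_lit 324) (nat_lit 2) (.n (nat_lit 325) (nat_lit 3) (.p (nat_lit 326) (nat_lit 6) (.n (nat_lit 327) (nat_lit 3) (.n (nat_lit 329) (nat_lit 1) (.p (nat_lit 335) (nat_lit 3) (.n (nat_lit 339) (nat_lit 2) (.p (nat_lit 340) (nat_lit 2) (.p (nat_lit 342) (nat_lit 3) (.p (nat_lit 343) (nat_lit 4) (.p (nat_lit 344) (nat_lit 4) (.p (nat_lit 346) (nat_lit 1) (.p (nat_lit 348) (nat_lit 1) (.n (nat_lit 351) (nat_lit 1) (.p (nat_lit 355) (nat_lit 1) (.p (nat_lit 362) (nat_lit 1) (.p (nat_lit 366) (nat_lit 1) .z)))))))))))))))))))) .nil)))))))))))))))))))))))))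

noncomputable def dC2c_i96 : IL := (.e false (nat_lit 2) (nat_lit 227) (nat_lit 2) (nat_lit 16) (.e true (nat_lit 2) (nat_lit 232) (nat_lit 2) (nat_lit 16) (.e true (nat_lit 1) (nat_lit 242) (nat_lit 2) (nat_lit 16) (.e true (nat_lit 2) (nat_lit 243) (nat_lit 2) (nat_lit 16) (.e true (nat_lit 1) (nat_lit 249) (nat_lit 2) (nat_lit 16) (.e false (nat_lit 2) (nat_lit 251) (nat_lit 2) (nat_lit 16) (.e false (nat_lit 3) (nat_lit 65) (nat_lit 18) (nat_lit 5) (.e false (nat_lit 1) (nat_lit 218) (nat_lit 2) (nat_lit 16) (.e false (nat_lit 2) (nat_lit 219) (nat_lit 2) (nat_lit 16) (.e true (nat_lit 1) (nat_lit 221) (nat_lit 2) (nat_lit 16) (.e false (nat_lit 1) (nat_lit 222) (nat_lit 2) (nat_lit 16) (.e false (nat_lit 1) (nat_lit 225) (nat_lit 2) (nat_lit 16) (.e true (nat_lit 1) (nat_lit 226) (nat_lit 2) (nat_lit 16) (.e false (nat_lit 3) (nat_lit 229) (nat_lit 2) (nat_lit 16) (.e false (nat_lit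 3) (nat_lit 230) (nat_lit 2) (nat_lit 16) (.e false (nat_lit 3) (nat_lit 132) (nat_lit 6) (nat_lit 12) (.e false (nat_lit 3) (nat_lit 134) (nat_lit 6) (nat_lit 12) (.e true (nat_lit 3) (nat_lit 135) (nat_lit 6) (nat_lit 12) (.e false (nat_lit 3) (nat_lit 137) (nat_lit 6) (nat_lit 12) (.e true (nat_lit 3) (nat_lit 138) (nat_lit 6) (nat_lit 12) (.e false (nat_lit 3) (nat_lit 145) (nat_lit 6) (nat_lit 12) (.e true (nat_lit 3) (nat_lit 152) (nat_lit 6) (nat_lit 12) (.e true (nat_lit 3) (nat_lit 153) (nat_lit 6) (nat_lit 12) (.e true (nat_lit 3) (nat_lit 154) (nat_lit 6) (nat_lit 12) (.e false (nat_lit 3) (nat_lit 155) (nat_lit 6) (nat_lit 12) dC2c_i95)))))))))))))))))))))))))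

noncomputable def dC2c_i97 : IL := (.e false (nat_lit 3) (nat_lit 291) (nat_lit 0) (nat_lit 18) (.e false (nat_lit 1) (nat_lit 292) (nat_lit 0) (nat_lit 18) (.e true (nat_lit 3) (nat_lit 293) (nat_lit 0) (nat_lit 18) (.e true (nat_lit 3) (nat_lit 294) (nat_lit 0) (nat_lit 18) (.e true (nat_lit 2) (nat_lit 295) (nat_lit 0) (nat_lit 18) (.e false (nat_lit 3) (nat_lit 297) (nat_lit 0) (nat_lit 18) (.e false (nat_lit 1) (nat_lit 299) (nat_lit 0) (nat_lit 18) (.e true (nat_lit 2) (nat_lit 301) (nat_lit 0) (nat_lit 18) (.e false (nat_lit 2) (nat_lit 303) (nat_lit 0) (nat_lit 18) (.e false (nat_lit 3) (nat_lit 256) (nat_lit 1) (nat_lit 17) (.e true (nat_lit 1) (nat_lit 259) (nat_lit 1) (nat_lit 17) (.e false (nat_lit 1) (nat_lit 260) (nat_lit 1) (nat_lit 17) (.e true (nat_lit 2) (nat_lit 279) (nat_lit 1) (nat_lit 17) (.e false (nat_lit 1) (nat_lit 282) (nat_lit 1) (nat_lit 17) (.e true (nat_lit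 2) (nat_lit 275) (nat_lit 1) (nat_lit 17) (.e true (nat_lit 2) (nat_lit 257) (nat_lit 1) (nat_lit 17) (.e true (nat_lit 2) (nat_lit 280) (nat_lit 1) (nat_lit 17) (.e true (nat_lit 1) (nat_lit 300) (nat_lit 0) (nat_lit 18) (.e false (nat_lit 2) (nat_lit 261) (nat_lit 1) (nat_lit 17) (.e false (nat_lit 2) (nat_lit 155) (nat_lit 6) (nat_lit 12) (.e false (nat_lit 1) (nat_lit 170) (nat_lit 4) (nat_lit 14) (.u (nat_lit 2) (.n (nat_lit 0) (nat_lit 1) (.p (nat_lit 2) (nat_lit 2) (.n (nat_lit 5) (nat_lit 1) (.p (nat_lit 6) (nat_lit 2) (.p (nat_lit 7) (nat_lit 3) (.p (nat_lit 8) (nat_lit 1) (.n (nat_lit 9) (nat_lit 3) (.p (nat_lit 10) (nat_lit 1) (.n (nat_lit 11) (nat_lit 1) (.p (nat_lit 14) (nat_lit 1) (.n (nat_lit 15) (nat_lit 1) (.n (nat_lit 16) (nat_lit 2) (.n (nat_lit 17) (nat_lit 2) (.p (nat_lit 18) (nat_lit 4) (.n (nat_lit 19) (nat_lit 2) (.p (nat_lit 21) (nat_lit 2) (.n (nat_lit 22) (nat_lit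 2) (.n (nat_lit 23) (nat_lit 1) (.n (nat_lit 25) (nat_lit 2) (.p (nat_lit 26) (nat_lit 1) (.n (nat_lit 27) (nat_lit 3) (.p (nat_lit 29) (nat_lit 1) (.n (nat_lit 31) (nat_lit 2) (.p (nat_lit 32) (nat_lit 3) (.p (nat_lit 33) (nat_lit 3) (.n (nat_lit 34) (nat_lit 2) (.p (nat_lit 35) (nat_lit 3) (.n (nat_lit 37) (nat_lit 1) (.n (nat_lit 38) (nat_lit 3) (.p (nat_lit 39) (nat_lit 1) (.p (nat_lit 45) (nat_lit 2) (.n (nat_lit 46) (nat_lit 2) (.n (nat_lit 48) (nat_lit 2) (.n (nat_lit 50) (nat_lit 1) (.p (nat_lit 57) (nat_lit 1) (.n (nat_lit 63) (nat_lit 2) (.p (nat_lit 64) (nat_lit 2) (.p (nat_lit 67) (nat_lit 1) (.p (nat_lit 79) (nat_lit 1) (.n (nat_lit 81) (nat_lit 1) (.n (nat_lit 82) (nat_lit 1) (.p (nat_lit 89) (nat_lit 1) (.n (nat_lit 93) (nat_lit 1) (.n (nat_lit 95) (nat_lit 1) (.n (nat_lit 96) (nat_lit 1) (.p (nat_lit 97) (nat_lit 1) (.p (nat_lit 98) (nat_lit 1) (.p (nat_lit 108) (nat_lit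 1) (.p (nat_lit 109) (nat_lit 1) (.n (nat_lit 113) (nat_lit 1) (.p (nat_lit 115) (nat_lit 1) (.n (nat_lit 116) (nat_lit 1) (.n (nat_lit 117) (nat_lit 1) (.n (nat_lit 121) (nat_lit 1) (.n (nat_lit 122) (nat_lit 1) (.p (nat_lit 123) (nat_lit 1) (.n (nat_lit 124) (nat_lit 1) (.n (nat_lit 126) (nat_lit 1) (.n (nat_lit 128) (nat_lit 1) (.p (nat_lit 133) (nat_lit 1) .z)))))))))))))))))))))))))))))))))))))))))))))))))))))))))))) (.u (nat_lit 2) (.p (nat_lit 134) (nat_lit 1) (.n (nat_lit 141) (nat_lit 2) (.p (nat_lit 147) (nat_lit 1) (.n (nat_lit 184) (nat_lit 2) (.n (nat_lit 186) (nat_lit 1) (.n (nat_lit 189) (nat_lit 1) (.p (nat_lit 190) (nat_lit 2) (.n (nat_lit 191) (nat_lit 1) (.p (nat_lit 192) (nat_lit 1) (.n (nat_lit 196) (nat_lit 1) (.p (nat_lit 204) (nat_lit 1) (.p (nat_lit 207) (nat_lit 1) (.p (nat_lit 208) (nat_lit 1) (.n (nat_lit 213) (nat_lit 3) (.n (nat_lit 214) (nat_lit 1) (.n (nat_lit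 215) (nat_lit 2) (.n (nat_lit 216) (nat_lit 4) (.p (nat_lit 217) (nat_lit 5) (.p (nat_lit 218) (nat_lit 1) (.n (nat_lit 219) (nat_lit 6) (.p (nat_lit 220) (nat_lit 2) (.p (nat_lit 221) (nat_lit 5) (.n (nat_lit 222) (nat_lit 2) (.n (nat_lit 223) (nat_lit 1) (.p (nat_lit 224) (nat_lit 2) (.n (nat_lit 227) (nat_lit 1) (.p (nat_lit 229) (nat_lit 3) (.p (nat_lit 230) (nat_lit 4) (.p (nat_lit 231) (nat_lit 1) (.n (nat_lit 232) (nat_lit 1) (.n (nat_lit 233) (nat_lit 3) (.n (nat_lit 234) (nat_lit 1) (.p (nat_lit 235) (nat_lit 1) (.p (nat_lit 237) (nat_lit 2) (.p (nat_lit 239) (nat_lit 1) (.p (nat_lit 240) (nat_lit 1) (.n (nat_lit 241) (nat_lit 2) (.p (nat_lit 244) (nat_lit 2) (.p (nat_lit 245) (nat_lit 1) (.n (nat_lit 250) (nat_lit 1) (.n (nat_lit 251) (nat_lit 2) (.n (nat_lit 252) (nat_lit 1) (.p (nat_lit 256) (nat_lit 1) (.p (nat_lit 257) (nat_lit 1) (.p (nat_lit 258) (nat_lit 1) (.n (nat_lit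 259) (nat_lit 1) (.n (nat_lit 260) (nat_lit 1) (.n (nat_lit 263) (nat_lit 1) (.p (nat_lit 264) (nat_lit 1) (.p (nat_lit 267) (nat_lit 1) (.n (nat_lit 269) (nat_lit 1) (.p (nat_lit 272) (nat_lit 1) (.n (nat_lit 274) (nat_lit 1) (.n (nat_lit 293) (nat_lit 3) (.p (nat_lit 294) (nat_lit 1) (.p (nat_lit 295) (nat_lit 1) (.n (nat_lit 296) (nat_lit 2) (.n (nat_lit 299) (nat_lit 1) (.n (nat_lit 301) (nat_lit 2) (.n (nat_lit 302) (nat_lit 4) .z)))))))))))))))))))))))))))))))))))))))))))))))))))))))))))) (.u (nat_lit 2) (.n (nat_lit 303) (nat_lit 5) (.n (nat_lit 304) (nat_lit 9) (.n (nat_lit 305) (nat_lit 10) (.p (nat_lit 306) (nat_lit 9) (.n (nat_lit 307) (nat_lit 15) (.p (nat_lit 308) (nat_lit 11) (.p (nat_lit 309) (nat_lit 3) (.n (nat_lit 310) (nat_lit 2) (.p (nat_lit 311) (nat_lit 13) (.n (nat_lit 312) (nat_lit 4) (.p (nat_lit 313) (nat_lit 9) (.p (nat_lit 314) (nat_lit 6) (.p (nat_lit 315) (nat_lit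 7) (.n (nat_lit 316) (nat_lit 24) (.p (nat_lit 317) (nat_lit 11) (.n (nat_lit 318) (nat_lit 4) (.n (nat_lit 319) (nat_lit 24) (.p (nat_lit 320) (nat_lit 2) (.p (nat_lit 321) (nat_lit 5) (.n (nat_lit 322) (nat_lit 14) (.p (nat_lit 323) (nat_lit 18) (.p (nat_lit 324) (nat_lit 13) (.p (nat_lit 326) (nat_lit 20) (.p (nat_lit 327) (nat_lit 32) (.p (nat_lit 328) (nat_lit 21) (.n (nat_lit 329) (nat_lit 5) (.p (nat_lit 330) (nat_lit 1) (.n (nat_lit 331) (nat_lit 1) (.n (nat_lit 332) (nat_lit 1) (.n (nat_lit 335) (nat_lit 2) (.n (nat_lit 339) (nat_lit 13) (.n (nat_lit 340) (nat_lit 5) (.n (nat_lit 341) (nat_lit 5) (.p (nat_lit 342) (nat_lit 19) (.n (nat_lit 343) (nat_lit 14) (.n (nat_lit 344) (nat_lit 9) (.p (nat_lit 345) (nat_lit 7) (.n (nat_lit 346) (nat_lit 17) (.n (nat_lit 347) (nat_lit 23) (.n (nat_lit 348) (nat_lit 11) (.n (nat_lit 349) (nat_lit 5) (.p (nat_lit 350) (nat_lit 2) (.p (nat_lit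 351) (nat_lit 12) (.n (nat_lit 353) (nat_lit 2) (.p (nat_lit 354) (nat_lit 6) (.n (nat_lit 355) (nat_lit 5) (.p (nat_lit 356) (nat_lit 7) (.n (nat_lit 357) (nat_lit 5) (.p (nat_lit 358) (nat_lit 2) (.p (nat_lit 360) (nat_lit 8) (.p (nat_lit 361) (nat_lit 3) (.p (nat_lit 362) (nat_lit 4) (.p (nat_lit 363) (nat_lit 14) (.p (nat_lit 364) (nat_lit 6) (.n (nat_lit 365) (nat_lit 1) (.p (nat_lit 366) (nat_lit 3) (.p (nat_lit 367) (nat_lit 15) (.p (nat_lit 369) (nat_lit 15) (.p (nat_lit 370) (nat_lit 3) (.n (nat_lit 371) (nat_lit 2) .z)))))))))))))))))))))))))))))))))))))))))))))))))))))))))))) (.u (nat_lit 2) (.p (nat_lit 372) (nat_lit 10) (.n (nat_lit 373) (nat_lit 1) (.p (nat_lit 374) (nat_lit 5) (.n (nat_lit 375) (nat_lit 2) (.p (nat_lit 376) (nat_lit 4) (.n (nat_lit 377) (nat_lit 2) (.n (nat_lit 378) (nat_lit 2) (.p (nat_lit 379) (nat_lit 4) (.n (nat_lit 380) (nat_lit 3) (.n (nat_lit 381)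 (nat_lit 1) (.p (nat_lit 382) (nat_lit 1) (.p (nat_lit 383) (nat_lit 8) (.n (nat_lit 385) (nat_lit 12) (.n (nat_lit 386) (nat_lit 7) (.p (nat_lit 387) (nat_lit 7) (.p (nat_lit 388) (nat_lit 9) (.p (nat_lit 389) (nat_lit 2) (.p (nat_lit 390) (nat_lit 2) (.n (nat_lit 391) (nat_lit 1) (.p (nat_lit 392) (nat_lit 9) (.p (nat_lit 393) (nat_lit 11) (.n (nat_lit 395) (nat_lit 8) (.p (nat_lit 397) (nat_lit 3) (.p (nat_lit 398) (nat_lit 1) (.n (nat_lit 399) (nat_lit 3) (.p (nat_lit 400) (nat_lit 2) (.p (nat_lit 401) (nat_lit 1) .z))))))))))))))))))))))))))) .nil)))))))))))))))))))))))))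

noncomputable def dC2c_i98 : IL := (.e true (nat_lit 3) (nat_lit 267) (nat_lit 1) (nat_lit 17) (.e false (nat_lit 2) (nat_lit 269) (nat_lit 1) (nat_lit 17) (.e true (nat_lit 2) (nat_lit 270) (nat_lit 1) (nat_lit 17) (.e false (nat_lit 1) (nat_lit 271) (nat_lit 1) (nat_lit 17) (.e false (nat_lit 3) (nat_lit 272) (nat_lit 1) (nat_lit 17) (.e false (nat_lit 3) (nat_lit 273) (nat_lit 1) (nat_lit 17) (.e true (nat_lit 1) (nat_lit 276) (nat_lit 1) (nat_lit 17) (.e false (nat_lit 2) (nat_lit 277) (nat_lit 1) (nat_lit 17) (.e true (nat_lit 1) (nat_lit 255) (nat_lit 1) (nat_lit 17) (.e false (nat_lit 3) (nat_lit 262) (nat_lit 1) (nat_lit 17) (.e false (nat_lit 3) (nat_lit 264) (nat_lit 1) (nat_lit 17) (.e true (nat_lit 3) (nat_lit 211) (nat_lit 2) (nat_lit 16) (.e true (nat_lit 3) (nat_lit 212) (nat_lit 2) (nat_lit 16) (.e false (nat_lit 1) (nat_lit 229) (nat_lit 2) (nat_lit 16) (.e false (nat_lit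 1) (nat_lit 230) (nat_lit 2) (nat_lit 16) (.e false (nat_lit 3) (nat_lit 246) (nat_lit 2) (nat_lit 16) (.e false (nat_lit 1) (nat_lit 298) (nat_lit 0) (nat_lit 18) (.e true (nat_lit 3) (nat_lit 274) (nat_lit 1) (nat_lit 17) (.e false (nat_lit 1) (nat_lit 278) (nat_lit 1) (nat_lit 17) (.e false (nat_lit 3) (nat_lit 210) (nat_lit 2) (nat_lit 16) (.e false (nat_lit 1) (nat_lit 233) (nat_lit 2) (nat_lit 16) (.e true (nat_lit 3) (nat_lit 235) (nat_lit 2) (nat_lit 16) (.e false (nat_lit 3) (nat_lit 234) (nat_lit 2) (nat_lit 16) (.e false (nat_lit 2) (nat_lit 289) (nat_lit 0) (nat_lit 18) (.e true (nat_lit 2) (nat_lit 290) (nat_lit 0) (nat_lit 18) dC2c_i97)))))))))))))))))))))))))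

noncomputable def dC2c_i99 : IL := (.s true (nat_lit 1) (nat_lit 92) (nat_lit 1) (nat_lit 0) (nat_lit 2) true (nat_lit 12) true (nat_lit 16) false (nat_lit 8) true (nat_lit 17) true (nat_lit 18) (.s false (nat_lit 1) (nat_lit 92) (nat_lit 1) (nat_lit 2) (nat_lit 0) true (nat_lit 15) true (nat_lit 18) false (nat_lit 8) true (nat_lit 17) true (nat_lit 16) (.s true (nat_lit 3) (nat_lit 93) (nat_lit 1) (nat_lit 2) (nat_lit 0) true (nat_lit 15) true (nat_lit 18) false (nat_lit 8) true (nat_lit 17) true (nat_lit 16) (.s false (nat_lit 1) (nat_lit 94) (nat_lit 1) (nat_lit 2) (nat_lit 0) true (nat_lit 15) true (nat_lit 18) false (nat_lit 8) true (nat_lit 17) true (nat_lit 16) (.s false (nat_lit 3) (nat_lit 92) (nat_lit 2) (nat_lit 1) (nat_lit 0) true (nat_lit 13) true (nat_lit 18) false (nat_lit 8) true (nat_lit 16) true (nat_lit 17) (.s false (nat_lit 3) (nat_lit 93) (nat_lit 2) (nat_lit 1) (nat_lit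 0) true (nat_lit 13) true (nat_lit 18) false (nat_lit 8) true (nat_lit 16) true (nat_lit 17) (.s false (nat_lit 2) (nat_lit 101) (nat_lit 0) (nat_lit 1) (nat_lit 1) true (nat_lit 15) true (nat_lit 17) false (nat_lit 10) true (nat_lit 18) true (nat_lit 17) (.s true (nat_lit 1) (nat_lit 102) (nat_lit 0) (nat_lit 1) (nat_lit 1) true (nat_lit 15) true (nat_lit 17) false (nat_lit 10) true (nat_lit 18) true (nat_lit 17) (.s false (nat_lit 1) (nat_lit 103) (nat_lit 0) (nat_lit 1) (nat_lit 1) true (nat_lit 15) true (nat_lit 17) false (nat_lit 10) true (nat_lit 18) true (nat_lit 17) (.s true (nat_lit 3) (nat_lit 102) (nat_lit 1) (nat_lit 1) (nat_lit 0) true (nat_lit 15) true (nat_lit 18) false (nat_lit 10) true (nat_lit 17) true (nat_lit 17) (.s false (nat_lit 1) (nat_lit 103) (nat_lit 1) (nat_lit 1) (nat_lit 0) true (nat_lit 15) true (nat_lit 18) false (nat_lit 10) true (nat_lit 17) true (nat_lit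 17) (.e true (nat_lit 2) (nat_lit 227) (nat_lit 2) (nat_lit 16) (.e false (nat_lit 1) (nat_lit 208) (nat_lit 2) (nat_lit 16) (.e false (nat_lit 1) (nat_lit 207) (nat_lit 2) (nat_lit 16) (.e true (nat_lit 2) (nat_lit 209) (nat_lit 2) (nat_lit 16) (.e true (nat_lit 1) (nat_lit 213) (nat_lit 2) (nat_lit 16) (.e false (nat_lit 2) (nat_lit 205) (nat_lit 2) (nat_lit 16) (.e false (nat_lit 1) (nat_lit 206) (nat_lit 2) (nat_lit 16) (.e false (nat_lit 3) (nat_lit 138) (nat_lit 6) (nat_lit 12) (.e false (nat_lit 1) (nat_lit 129) (nat_lit 7) (nat_lit 11) (.e false (nat_lit 2) (nat_lit 252) (nat_lit 1) (nat_lit 17) (.e false (nat_lit 2) (nat_lit 253) (nat_lit 1) (nat_lit 17) (.e true (nat_lit 2) (nat_lit 254) (nat_lit 1) (nat_lit 17) (.e false (nat_lit 3) (nat_lit 258) (nat_lit 1) (nat_lit 17) (.e false (nat_lit 2) (nat_lit 265) (nat_lit 1) (nat_lit 17) dC2c_i98)))))))))))))))))))))))))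

noncomputable def dC2c_i100 : IL := (.s false (nat_lit 1) (nat_lit 63) (nat_lit 2) (nat_lit 2) (nat_lit 1) true (nat_lit 12) true (nat_lit 17) false (nat_lit 5) true (nat_lit 16) true (nat_lit 16) (.s false (nat_lit 3) (nat_lit 66) (nat_lit 2) (nat_lit 2) (nat_lit 1) true (nat_lit 12) true (nat_lit 17) false (nat_lit 5) true (nat_lit 16) true (nat_lit 16) (.s true (nat_lit 2) (nat_lit 67) (nat_lit 2) (nat_lit 2) (nat_lit 1) true (nat_lit 12) true (nat_lit 17) false (nat_lit 5) true (nat_lit 16) true (nat_lit 16) (.s false (nat_lit 1) (nat_lit 69) (nat_lit 2) (nat_lit 2) (nat_lit 1) true (nat_lit 12) true (nat_lit 17) false (nat_lit 5) true (nat_lit 16) true (nat_lit 16) (.s true (nat_lit 2) (nat_lit 74) (nat_lit 0) (nat_lit 2) (nat_lit 2) true (nat_lit 13) true (nat_lit 16) false (nat_lit 6) true (nat_lit 18) true (nat_lit 16) (.s false (nat_lit 2) (nat_lit 78) (nat_lit 0) (nat_lit 2)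 (nat_lit 2) true (nat_lit 13) true (nat_lit 16) false (nat_lit 6) true (nat_lit 18) true (nat_lit 16) (.s true (nat_lit 3) (nat_lit 79) (nat_lit 0) (nat_lit 2) (nat_lit 2) true (nat_lit 13) true (nat_lit 16) false (nat_lit 6) true (nat_lit 18) true (nat_lit 16) (.s false (nat_lit 2) (nat_lit 78) (nat_lit 2) (nat_lit 0) (nat_lit 2) true (nat_lit 11) true (nat_lit 16) false (nat_lit 6) true (nat_lit 16) true (nat_lit 18) (.s false (nat_lit 1) (nat_lit 79) (nat_lit 2) (nat_lit 2) (nat_lit 0) true (nat_lit 13) true (nat_lit 18) false (nat_lit 6) true (nat_lit 16) true (nat_lit 16) (.s false (nat_lit 3) (nat_lit 89) (nat_lit 1) (nat_lit 1) (nat_lit 2) true (nat_lit 12) true (nat_lit 16) false (nat_lit 7) true (nat_lit 17) true (nat_lit 17) (.s false (nat_lit 2) (nat_lit 81) (nat_lit 1) (nat_lit 2) (nat_lit 1) true (nat_lit 14) true (nat_lit 17) false (nat_lit 7) true (nat_lit 17) true (nat_lit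 16) (.s true (nat_lit 1) (nat_lit 82) (nat_lit 1) (nat_lit 2) (nat_lit 1) true (nat_lit 14) true (nat_lit 17) false (nat_lit 7) true (nat_lit 17) true (nat_lit 16) (.s true (nat_lit 1) (nat_lit 83) (nat_lit 1) (nat_lit 2) (nat_lit 1) true (nat_lit 14) true (nat_lit 17) false (nat_lit 7) true (nat_lit 17) true (nat_lit 16) (.s false (nat_lit 2) (nat_lit 85) (nat_lit 1) (nat_lit 2) (nat_lit 1) true (nat_lit 14) true (nat_lit 17) false (nat_lit 7) true (nat_lit 17) true (nat_lit 16) (.s false (nat_lit 2) (nat_lit 88) (nat_lit 1) (nat_lit 2) (nat_lit 1) true (nat_lit 14) true (nat_lit 17) false (nat_lit 7) true (nat_lit 17) true (nat_lit 16) (.s false (nat_lit 1) (nat_lit 89) (nat_lit 1) (nat_lit 2) (nat_lit 1) true (nat_lit 14) true (nat_lit 17) false (nat_lit 7) true (nat_lit 17) true (nat_lit 16) (.s false (nat_lit 1) (nat_lit 80) (nat_lit 2) (nat_lit 1) (nat_lit 1) true (nat_lit 12) true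 (nat_lit 17) false (nat_lit 7) true (nat_lit 16) true (nat_lit 17) (.s true (nat_lit 2) (nat_lit 81) (nat_lit 2) (nat_lit 1) (nat_lit 1) true (nat_lit 12) true (nat_lit 17) false (nat_lit 7) true (nat_lit 16) true (nat_lit 17) (.s false (nat_lit 1) (nat_lit 88) (nat_lit 2) (nat_lit 1) (nat_lit 1) true (nat_lit 12) true (nat_lit 17) false (nat_lit 7) true (nat_lit 16) true (nat_lit 17) (.s true (nat_lit 1) (nat_lit 89) (nat_lit 2) (nat_lit 1) (nat_lit 1) true (nat_lit 12) true (nat_lit 17) false (nat_lit 7) true (nat_lit 16) true (nat_lit 17) (.s true (nat_lit 1) (nat_lit 92) (nat_lit 0) (nat_lit 1) (nat_lit 2) true (nat_lit 13) true (nat_lit 16) false (nat_lit 8) true (nat_lit 18) true (nat_lit 17) (.s true (nat_lit 3) (nat_lit 93) (nat_lit 0) (nat_lit 1) (nat_lit 2) true (nat_lit 13) true (nat_lit 16) false (nat_lit 8) true (nat_lit 18) true (nat_lit 17) (.s true (nat_lit 3) (nat_lit 91)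 (nat_lit 0) (nat_lit 2) (nat_lit 1) true (nat_lit 15) true (nat_lit 17) false (nat_lit 8) true (nat_lit 18) true (nat_lit 16) (.s false (nat_lit 1) (nat_lit 94) (nat_lit 0) (nat_lit 2) (nat_lit 1) true (nat_lit 15) true (nat_lit 17) false (nat_lit 8) true (nat_lit 18) true (nat_lit 16) (.s true (nat_lit 1) (nat_lit 96) (nat_lit 0) (nat_lit 2) (nat_lit 1) true (nat_lit 15) true (nat_lit 17) false (nat_lit 8) true (nat_lit 18) true (nat_lit 16) dC2c_i99)))))))))))))))))))))))))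

noncomputable def dC2c_i101 : IL := (.s false (nat_lit 3) (nat_lit 56) (nat_lit 2) (nat_lit 2) (nat_lit 2) true (nat_lit 11) true (nat_lit 16) false (nat_lit 4) true (nat_lit 16) true (nat_lit 16) (.s true (nat_lit 2) (nat_lit 57) (nat_lit 2) (nat_lit 2) (nat_lit 2) true (nat_lit 11) true (nat_lit 16) false (nat_lit 4) true (nat_lit 16) true (nat_lit 16) (.s true (nat_lit 1) (nat_lit 59) (nat_lit 2) (nat_lit 2) (nat_lit 2) true (nat_lit 11) true (nat_lit 16) false (nat_lit 4) true (nat_lit 16) true (nat_lit 16) (.s false (nat_lit 3) (nat_lit 60) (nat_lit 1) (nat_lit 2) (nat_lit 2) true (nat_lit 12) true (nat_lit 16) false (nat_lit 5) true (nat_lit 17) true (nat_lit 16) (.s false (nat_lit 2) (nat_lit 61) (nat_lit 1) (nat_lit 2) (nat_lit 2) true (nat_lit 12) true (nat_lit 16) false (nat_lit 5) true (nat_lit 17) true (nat_lit 16) (.s true (nat_lit 3) (nat_lit 62) (nat_lit 1) (nat_lit 2) (nat_lit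 2) true (nat_lit 12) true (nat_lit 16) false (nat_lit 5) true (nat_lit 17) true (nat_lit 16) (.s false (nat_lit 2) (nat_lit 63) (nat_lit 1) (nat_lit 2) (nat_lit 2) true (nat_lit 12) true (nat_lit 16) false (nat_lit 5) true (nat_lit 17) true (nat_lit 16) (.s true (nat_lit 1) (nat_lit 64) (nat_lit 1) (nat_lit 2) (nat_lit 2) true (nat_lit 12) true (nat_lit 16) false (nat_lit 5) true (nat_lit 17) true (nat_lit 16) (.s false (nat_lit 1) (nat_lit 65) (nat_lit 1) (nat_lit 2) (nat_lit 2) true (nat_lit 12) true (nat_lit 16) false (nat_lit 5) true (nat_lit 17) true (nat_lit 16) (.s true (nat_lit 1) (nat_lit 66) (nat_lit 1) (nat_lit 2) (nat_lit 2) true (nat_lit 12) true (nat_lit 16) false (nat_lit 5) true (nat_lit 17) true (nat_lit 16) (.s false (nat_lit 1) (nat_lit 67) (nat_lit 1) (nat_lit 2) (nat_lit 2) true (nat_lit 12) true (nat_lit 16) false (nat_lit 5) true (nat_lit 17) true (nat_lit 16) (.s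 true (nat_lit 1) (nat_lit 68) (nat_lit 1) (nat_lit 2) (nat_lit 2) true (nat_lit 12) true (nat_lit 16) false (nat_lit 5) true (nat_lit 17) true (nat_lit 16) (.s true (nat_lit 2) (nat_lit 69) (nat_lit 1) (nat_lit 2) (nat_lit 2) true (nat_lit 12) true (nat_lit 16) false (nat_lit 5) true (nat_lit 17) true (nat_lit 16) (.s false (nat_lit 3) (nat_lit 70) (nat_lit 1) (nat_lit 2) (nat_lit 2) true (nat_lit 12) true (nat_lit 16) false (nat_lit 5) true (nat_lit 17) true (nat_lit 16) (.s true (nat_lit 1) (nat_lit 71) (nat_lit 1) (nat_lit 2) (nat_lit 2) true (nat_lit 12) true (nat_lit 16) false (nat_lit 5) true (nat_lit 17) true (nat_lit 16) (.s true (nat_lit 3) (nat_lit 72) (nat_lit 1) (nat_lit 2) (nat_lit 2) true (nat_lit 12) true (nat_lit 16) false (nat_lit 5) true (nat_lit 17) true (nat_lit 16) (.s true (nat_lit 1) (nat_lit 73) (nat_lit 1) (nat_lit 2) (nat_lit 2) true (nat_lit 12) true (nat_lit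 16) false (nat_lit 5) true (nat_lit 17) true (nat_lit 16) (.s false (nat_lit 1) (nat_lit 62) (nat_lit 2) (nat_lit 1) (nat_lit 2) true (nat_lit 11) true (nat_lit 16) false (nat_lit 5) true (nat_lit 16) true (nat_lit 17) (.s false (nat_lit 3) (nat_lit 63) (nat_lit 2) (nat_lit 1) (nat_lit 2) true (nat_lit 11) true (nat_lit 16) false (nat_lit 5) true (nat_lit 16) true (nat_lit 17) (.s false (nat_lit 1) (nat_lit 66) (nat_lit 2) (nat_lit 1) (nat_lit 2) true (nat_lit 11) true (nat_lit 16) false (nat_lit 5) true (nat_lit 16) true (nat_lit 17) (.s false (nat_lit 1) (nat_lit 69) (nat_lit 2) (nat_lit 1) (nat_lit 2) true (nat_lit 11) true (nat_lit 16) false (nat_lit 5) true (nat_lit 16) true (nat_lit 17) (.s true (nat_lit 2) (nat_lit 70) (nat_lit 2) (nat_lit 1) (nat_lit 2) true (nat_lit 11) true (nat_lit 16) false (nat_lit 5) true (nat_lit 16) true (nat_lit 17) (.s true (nat_lit 2) (nat_lit 73) (nat_lit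 2) (nat_lit 1) (nat_lit 2) true (nat_lit 11) true (nat_lit 16) false (nat_lit 5) true (nat_lit 16) true (nat_lit 17) (.s false (nat_lit 1) (nat_lit 60) (nat_lit 2) (nat_lit 2) (nat_lit 1) true (nat_lit 12) true (nat_lit 17) false (nat_lit 5) true (nat_lit 16) true (nat_lit 16) (.s true (nat_lit 3) (nat_lit 62) (nat_lit 2) (nat_lit 2) (nat_lit 1) true (nat_lit 12) true (nat_lit 17) false (nat_lit 5) true (nat_lit 16) true (nat_lit 16) dC2c_i100)))))))))))))))))))))))))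

noncomputable def dC2c_i102 : IL := (.s false (nat_lit 3) (nat_lit 40) (nat_lit 2) (nat_lit 3) (nat_lit 2) true (nat_lit 11) true (nat_lit 16) false (nat_lit 0) true (nat_lit 16) true (nat_lit 15) (.s true (nat_lit 2) (nat_lit 39) (nat_lit 3) (nat_lit 2) (nat_lit 2) true (nat_lit 8) true (nat_lit 16) false (nat_lit 0) true (nat_lit 15) true (nat_lit 16) (.s true (nat_lit 2) (nat_lit 41) (nat_lit 5) (nat_lit 2) (nat_lit 1) true (nat_lit 8) true (nat_lit 17) false (nat_lit 0) true (nat_lit 13) true (nat_lit 16) (.s false (nat_lit 3) (nat_lit 40) (nat_lit 6) (nat_lit 2) (nat_lit 0) true (nat_lit 8) true (nat_lit 18) false (nat_lit 0) true (nat_lit 12) true (nat_lit 16) (.s false (nat_lit 3) (nat_lit 45) (nat_lit 1) (nat_lit 1) (nat_lit 5) true (nat_lit 8) true (nat_lit 13) false (nat_lit 2) true (nat_lit 17) true (nat_lit 17) (.s true (nat_lit 1) (nat_lit 45) (nat_lit 1) (nat_lit 2) (nat_lit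 3) true (nat_lit 10) true (nat_lit 15) false (nat_lit 2) true (nat_lit 17) true (nat_lit 16) (.s false (nat_lit 1) (nat_lit 46) (nat_lit 1) (nat_lit 2) (nat_lit 3) true (nat_lit 10) true (nat_lit 15) false (nat_lit 2) true (nat_lit 17) true (nat_lit 16) (.s false (nat_lit 1) (nat_lit 47) (nat_lit 1) (nat_lit 2) (nat_lit 3) true (nat_lit 10) true (nat_lit 15) false (nat_lit 2) true (nat_lit 17) true (nat_lit 16) (.s true (nat_lit 3) (nat_lit 46) (nat_lit 1) (nat_lit 3) (nat_lit 2) true (nat_lit 12) true (nat_lit 16) false (nat_lit 2) true (nat_lit 17) true (nat_lit 15) (.s true (nat_lit 2) (nat_lit 45) (nat_lit 2) (nat_lit 1) (nat_lit 3) true (nat_lit 8) true (nat_lit 15) false (nat_lit 2) true (nat_lit 16) true (nat_lit 17) (.s true (nat_lit 3) (nat_lit 46) (nat_lit 2) (nat_lit 1) (nat_lit 3) true (nat_lit 8) true (nat_lit 15) false (nat_lit 2) true (nat_lit 16) true (nat_lit 17) (.s true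 (nat_lit 3) (nat_lit 45) (nat_lit 2) (nat_lit 3) (nat_lit 1) true (nat_lit 12) true (nat_lit 17) false (nat_lit 2) true (nat_lit 16) true (nat_lit 15) (.s false (nat_lit 3) (nat_lit 46) (nat_lit 2) (nat_lit 3) (nat_lit 1) true (nat_lit 12) true (nat_lit 17) false (nat_lit 2) true (nat_lit 16) true (nat_lit 15) (.s false (nat_lit 2) (nat_lit 47) (nat_lit 3) (nat_lit 1) (nat_lit 2) true (nat_lit 8) true (nat_lit 16) false (nat_lit 2) true (nat_lit 15) true (nat_lit 17) (.s false (nat_lit 2) (nat_lit 45) (nat_lit 5) (nat_lit 1) (nat_lit 1) true (nat_lit 8) true (nat_lit 17) false (nat_lit 2) true (nat_lit 13) true (nat_lit 17) (.s false (nat_lit 2) (nat_lit 46) (nat_lit 5) (nat_lit 1) (nat_lit 1) true (nat_lit 8) true (nat_lit 17) false (nat_lit 2) true (nat_lit 13) true (nat_lit 17) (.s false (nat_lit 1) (nat_lit 45) (nat_lit 6) (nat_lit 1) (nat_lit 0) true (nat_lit 8) true (nat_lit 18) false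 (nat_lit 2) true (nat_lit 12) true (nat_lit 17) (.s true (nat_lit 3) (nat_lit 48) (nat_lit 0) (nat_lit 4) (nat_lit 1) true (nat_lit 15) true (nat_lit 17) false (nat_lit 3) true (nat_lit 18) true (nat_lit 14) (.s true (nat_lit 3) (nat_lit 48) (nat_lit 1) (nat_lit 0) (nat_lit 4) true (nat_lit 9) true (nat_lit 14) false (nat_lit 3) true (nat_lit 17) true (nat_lit 18) (.s false (nat_lit 3) (nat_lit 48) (nat_lit 3) (nat_lit 1) (nat_lit 1) true (nat_lit 10) true (nat_lit 17) false (nat_lit 3) true (nat_lit 15) true (nat_lit 17) (.s true (nat_lit 2) (nat_lit 48) (nat_lit 4) (nat_lit 0) (nat_lit 1) true (nat_lit 9) true (nat_lit 17) false (nat_lit 3) true (nat_lit 14) true (nat_lit 18) (.s false (nat_lit 1) (nat_lit 52) (nat_lit 2) (nat_lit 2) (nat_lit 2) true (nat_lit 11) true (nat_lit 16) false (nat_lit 4) true (nat_lit 16) true (nat_lit 16) (.s false (nat_lit 3) (nat_lit 53) (nat_lit 2) (nat_lit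 2) (nat_lit 2) true (nat_lit 11) true (nat_lit 16) false (nat_lit 4) true (nat_lit 16) true (nat_lit 16) (.s false (nat_lit 2) (nat_lit 54) (nat_lit 2) (nat_lit 2) (nat_lit 2) true (nat_lit 11) true (nat_lit 16) false (nat_lit 4) true (nat_lit 16) true (nat_lit 16) (.s false (nat_lit 3) (nat_lit 55) (nat_lit 2) (nat_lit 2) (nat_lit 2) true (nat_lit 11) true (nat_lit 16) false (nat_lit 4) true (nat_lit 16) true (nat_lit 16) dC2c_i101)))))))))))))))))))))))))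

noncomputable def dC2c_i103 : IL := (.s false (nat_lit 1) (nat_lit 24) (nat_lit 6) (nat_lit 2) (nat_lit 2) true (nat_lit 5) true (nat_lit 16) true (nat_lit 2) true (nat_lit 12) true (nat_lit 16) (.s true (nat_lit 3) (nat_lit 26) (nat_lit 6) (nat_lit 2) (nat_lit 2) true (nat_lit 5) true (nat_lit 16) true (nat_lit 2) true (nat_lit 12) true (nat_lit 16) (.s false (nat_lit 3) (nat_lit 27) (nat_lit 6) (nat_lit 2) (nat_lit 2) true (nat_lit 5) true (nat_lit 16) true (nat_lit 2) true (nat_lit 12) true (nat_lit 16) (.s false (nat_lit 1) (nat_lit 29) (nat_lit 6) (nat_lit 2) (nat_lit 2) true (nat_lit 5) true (nat_lit 16) true (nat_lit 2) true (nat_lit 12) true (nat_lit 16) (.s false (nat_lit 2) (nat_lit 26) (nat_lit 7) (nat_lit 2) (nat_lit 1) true (nat_lit 5) true (nat_lit 17) true (nat_lit 2) true (nat_lit 11) true (nat_lit 16) (.s false (nat_lit 2) (nat_lit 30) (nat_lit 0) (nat_lit 7) (nat_lit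 2) true (nat_lit 13) true (nat_lit 16) true (nat_lit 1) true (nat_lit 18) true (nat_lit 11) (.s false (nat_lit 2) (nat_lit 30) (nat_lit 2) (nat_lit 2) (nat_lit 5) true (nat_lit 6) true (nat_lit 13) true (nat_lit 1) true (nat_lit 16) true (nat_lit 16) (.s false (nat_lit 2) (nat_lit 30) (nat_lit 2) (nat_lit 7) (nat_lit 0) true (nat_lit 13) true (nat_lit 18) true (nat_lit 1) true (nat_lit 16) true (nat_lit 11) (.s false (nat_lit 2) (nat_lit 30) (nat_lit 5) (nat_lit 2) (nat_lit 2) true (nat_lit 6) true (nat_lit 16) true (nat_lit 1) true (nat_lit 13) true (nat_lit 16) (.s false (nat_lit 3) (nat_lit 33) (nat_lit 1) (nat_lit 1) (nat_lit 7) true (nat_lit 5) true (nat_lit 11) true (nat_lit 0) true (nat_lit 17) true (nat_lit 17) (.s false (nat_lit 3) (nat_lit 34) (nat_lit 1) (nat_lit 1) (nat_lit 7) true (nat_lit 5) true (nat_lit 11) true (nat_lit 0) true (nat_lit 17) true (nat_lit 17) (.s true (nat_lit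 3) (nat_lit 38) (nat_lit 1) (nat_lit 1) (nat_lit 7) true (nat_lit 5) true (nat_lit 11) true (nat_lit 0) true (nat_lit 17) true (nat_lit 17) (.s true (nat_lit 3) (nat_lit 38) (nat_lit 1) (nat_lit 2) (nat_lit 6) true (nat_lit 7) true (nat_lit 12) true (nat_lit 0) true (nat_lit 17) true (nat_lit 16) (.s true (nat_lit 3) (nat_lit 34) (nat_lit 1) (nat_lit 6) (nat_lit 2) true (nat_lit 12) true (nat_lit 16) true (nat_lit 0) true (nat_lit 17) true (nat_lit 12) (.s false (nat_lit 1) (nat_lit 33) (nat_lit 1) (nat_lit 7) (nat_lit 1) true (nat_lit 14) true (nat_lit 17) true (nat_lit 0) true (nat_lit 17) true (nat_lit 11) (.s true (nat_lit 2) (nat_lit 34) (nat_lit 1) (nat_lit 7) (nat_lit 1) true (nat_lit 14) true (nat_lit 17) true (nat_lit 0) true (nat_lit 17) true (nat_lit 11) (.s true (nat_lit 3) (nat_lit 38) (nat_lit 1) (nat_lit 7) (nat_lit 1) true (nat_lit 14) true (nat_lit 17) true (nat_lit 0)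 true (nat_lit 17) true (nat_lit 11) (.s false (nat_lit 3) (nat_lit 34) (nat_lit 2) (nat_lit 1) (nat_lit 6) true (nat_lit 5) true (nat_lit 12) true (nat_lit 0) true (nat_lit 16) true (nat_lit 17) (.s true (nat_lit 3) (nat_lit 38) (nat_lit 2) (nat_lit 2) (nat_lit 4) true (nat_lit 7) true (nat_lit 14) true (nat_lit 0) true (nat_lit 16) true (nat_lit 16) (.s false (nat_lit 3) (nat_lit 34) (nat_lit 2) (nat_lit 6) (nat_lit 1) true (nat_lit 12) true (nat_lit 17) true (nat_lit 0) true (nat_lit 16) true (nat_lit 12) (.s false (nat_lit 3) (nat_lit 38) (nat_lit 4) (nat_lit 2) (nat_lit 2) true (nat_lit 7) true (nat_lit 16) true (nat_lit 0) true (nat_lit 14) true (nat_lit 16) (.s true (nat_lit 1) (nat_lit 33) (nat_lit 6) (nat_lit 2) (nat_lit 1) true (nat_lit 7) true (nat_lit 17) true (nat_lit 0) true (nat_lit 12) true (nat_lit 16) (.s false (nat_lit 1) (nat_lit 34) (nat_lit 6) (nat_lit 2) (nat_lit 1)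 true (nat_lit 7) true (nat_lit 17) true (nat_lit 0) true (nat_lit 12) true (nat_lit 16) (.s false (nat_lit 2) (nat_lit 33) (nat_lit 7) (nat_lit 1) (nat_lit 1) true (nat_lit 5) true (nat_lit 17) true (nat_lit 0) true (nat_lit 11) true (nat_lit 17) (.s true (nat_lit 2) (nat_lit 41) (nat_lit 2) (nat_lit 0) (nat_lit 6) true (nat_lit 5) true (nat_lit 12) false (nat_lit 0) true (nat_lit 16) true (nat_lit 18) dC2c_i102)))))))))))))))))))))))))

noncomputable def dC2c_i104 : IL := (.s true (nat_lit 2) (nat_lit 21) (nat_lit 2) (nat_lit 2) (nat_lit 7) true (nat_lit 4) true (nat_lit 11) true (nat_lit 3) true (nat_lit 16) true (nat_lit 16) (.s false (nat_lit 1) (nat_lit 22) (nat_lit 2) (nat_lit 2) (nat_lit 7) true (nat_lit 4) true (nat_lit 11) true (nat_lit 3) true (nat_lit 16) true (nat_lit 16) (.s true (nat_lit 2) (nat_lit 23) (nat_lit 2) (nat_lit 2) (nat_lit 7) true (nat_lit 4) true (nat_lit 11)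 true (nat_lit 3) true (nat_lit 16) true (nat_lit 16) (.s true (nat_lit 2) (nat_lit 21) (nat_lit 2) (nat_lit 7) (nat_lit 2) true (nat_lit 11) true (nat_lit 16) true (nat_lit 3) true (nat_lit 16) true (nat_lit 11) (.s true (nat_lit 2) (nat_lit 22) (nat_lit 2) (nat_lit 7) (nat_lit 2) true (nat_lit 11) true (nat_lit 16) true (nat_lit 3) true (nat_lit 16) true (nat_lit 11) (.s true (nat_lit 2) (nat_lit 23) (nat_lit 2) (nat_lit 7) (nat_lit 2) true (nat_lit 11) true (nat_lit 16) true (nat_lit 3) true (nat_lit 16) true (nat_lit 11) (.s true (nat_lit 1) (nat_lit 21) (nat_lit 7) (nat_lit 2) (nat_lit 2) true (nat_lit 4) true (nat_lit 16) true (nat_lit 3) true (nat_lit 11) true (nat_lit 16) (.s true (nat_lit 1) (nat_lit 23) (nat_lit 7) (nat_lit 2) (nat_lit 2) true (nat_lit 4) true (nat_lit 16) true (nat_lit 3) true (nat_lit 11) true (nat_lit 16) (.s true (nat_lit 1) (nat_lit 24) (nat_lit 1) (nat_lit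 2) (nat_lit 7) true (nat_lit 5) true (nat_lit 11) true (nat_lit 2) true (nat_lit 17) true (nat_lit 16) (.s false (nat_lit 2) (nat_lit 25) (nat_lit 1) (nat_lit 2) (nat_lit 7) true (nat_lit 5) true (nat_lit 11) true (nat_lit 2) true (nat_lit 17) true (nat_lit 16) (.s false (nat_lit 1) (nat_lit 26) (nat_lit 1) (nat_lit 2) (nat_lit 7) true (nat_lit 5) true (nat_lit 11) true (nat_lit 2) true (nat_lit 17) true (nat_lit 16) (.s false (nat_lit 1) (nat_lit 27) (nat_lit 1) (nat_lit 2) (nat_lit 7) true (nat_lit 5) true (nat_lit 11) true (nat_lit 2) true (nat_lit 17) true (nat_lit 16) (.s true (nat_lit 3) (nat_lit 29) (nat_lit 1) (nat_lit 2) (nat_lit 7) true (nat_lit 5) true (nat_lit 11) true (nat_lit 2) true (nat_lit 17) true (nat_lit 16) (.s false (nat_lit 2) (nat_lit 24) (nat_lit 1) (nat_lit 7) (nat_lit 2) true (nat_lit 12) true (nat_lit 16) true (nat_lit 2) true (nat_lit 17) true (nat_lit 11) (.s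 false (nat_lit 3) (nat_lit 25) (nat_lit 1) (nat_lit 7) (nat_lit 2) true (nat_lit 12) true (nat_lit 16) true (nat_lit 2) true (nat_lit 17) true (nat_lit 11) (.s false (nat_lit 1) (nat_lit 26) (nat_lit 1) (nat_lit 7) (nat_lit 2) true (nat_lit 12) true (nat_lit 16) true (nat_lit 2) true (nat_lit 17) true (nat_lit 11) (.s true (nat_lit 2) (nat_lit 27) (nat_lit 1) (nat_lit 7) (nat_lit 2) true (nat_lit 12) true (nat_lit 16) true (nat_lit 2) true (nat_lit 17) true (nat_lit 11) (.s true (nat_lit 1) (nat_lit 25) (nat_lit 2) (nat_lit 1) (nat_lit 7) true (nat_lit 4) true (nat_lit 11) true (nat_lit 2) true (nat_lit 16) true (nat_lit 17) (.s false (nat_lit 2) (nat_lit 29) (nat_lit 2) (nat_lit 1) (nat_lit 7) true (nat_lit 4) true (nat_lit 11) true (nat_lit 2) true (nat_lit 16) true (nat_lit 17) (.s false (nat_lit 1) (nat_lit 24) (nat_lit 2) (nat_lit 2) (nat_lit 6) true (nat_lit 5) true (nat_lit 12) true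 (nat_lit 2) true (nat_lit 16) true (nat_lit 16) (.s false (nat_lit 2) (nat_lit 25) (nat_lit 2) (nat_lit 2) (nat_lit 6) true (nat_lit 5) true (nat_lit 12) true (nat_lit 2) true (nat_lit 16) true (nat_lit 16) (.s true (nat_lit 3) (nat_lit 26) (nat_lit 2) (nat_lit 2) (nat_lit 6) true (nat_lit 5) true (nat_lit 12) true (nat_lit 2) true (nat_lit 16) true (nat_lit 16) (.s false (nat_lit 1) (nat_lit 29) (nat_lit 2) (nat_lit 2) (nat_lit 6) true (nat_lit 5) true (nat_lit 12) true (nat_lit 2) true (nat_lit 16) true (nat_lit 16) (.s true (nat_lit 3) (nat_lit 25) (nat_lit 2) (nat_lit 6) (nat_lit 2) true (nat_lit 11) true (nat_lit 16) true (nat_lit 2) true (nat_lit 16) true (nat_lit 12) (.s false (nat_lit 3) (nat_lit 28) (nat_lit 2) (nat_lit 6) (nat_lit 2) true (nat_lit 11) true (nat_lit 16) true (nat_lit 2) true (nat_lit 16) true (nat_lit 12) dC2c_i103)))))))))))))))))))))))))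

noncomputable def dC2c_i105 : IL := (.s false (nat_lit 3) (nat_lit 18) (nat_lit 1) (nat_lit 0) (nat_lit 18) false (nat_lit 0) true (nat_lit 5) true (nat_lit 5) true (nat_lit 17) true (nat_lit 18) (.s true (nat_lit 2) (nat_lit 18) (nat_lit 1) (nat_lit 11) (nat_lit 2) true (nat_lit 12) true (nat_lit 16) true (nat_lit 5) true (nat_lit 17) true (nat_lit 8) (.s false (nat_lit 2) (nat_lit 18) (nat_lit 1) (nat_lit 12) (nat_lit 2) true (nat_lit 12) true (nat_lit 16) true (nat_lit 5) true (nat_lit 17) true (nat_lit 8) (.s false (nat_lit 2) (nat_lit 18) (nat_lit 2) (nat_lit 1) (nat_lit 13) true (nat_lit 0) true (nat_lit 8) true (nat_lit 5) true (nat_lit 16) true (nat_lit 17) (.s true (nat_lit 3) (nat_lit 18) (nat_lit 2) (nat_lit 2) (nat_lit 8) true (nat_lit 2) true (nat_lit 10) true (nat_lit 5) true (nat_lit 16) true (nat_lit 16) (.s true (nat_lit 3) (nat_lit 19) (nat_lit 2) (nat_lit 6) (nat_lit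 3) true (nat_lit 8) true (nat_lit 15) true (nat_lit 5) true (nat_lit 16) true (nat_lit 12) (.s false (nat_lit 2) (nat_lit 18) (nat_lit 2) (nat_lit 8) (nat_lit 2) true (nat_lit 11) true (nat_lit 16) true (nat_lit 5) true (nat_lit 16) true (nat_lit 10) (.s true (nat_lit 2) (nat_lit 19) (nat_lit 2) (nat_lit 9) (nat_lit 2) true (nat_lit 11) true (nat_lit 16) true (nat_lit 5) true (nat_lit 16) true (nat_lit 10) (.s false (nat_lit 2) (nat_lit 18) (nat_lit 2) (nat_lit 11) (nat_lit 1) true (nat_lit 12) true (nat_lit 17) true (nat_lit 5) true (nat_lit 16) true (nat_lit 8) (.s true (nat_lit 1) (nat_lit 18) (nat_lit 2) (nat_lit 12) (nat_lit 1) true (nat_lit 12) true (nat_lit 17) true (nat_lit 5) true (nat_lit 16) true (nat_lit 8) (.s false (nat_lit 3) (nat_lit 19) (nat_lit 9) (nat_lit 2) (nat_lit 2) true (nat_lit 2) true (nat_lit 16) true (nat_lit 5) true (nat_lit 10) true (nat_lit 16) (.s true (nat_lit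 1) (nat_lit 19) (nat_lit 12) (nat_lit 1) (nat_lit 2) true (nat_lit 0) true (nat_lit 16) true (nat_lit 5) true (nat_lit 8) true (nat_lit 17) (.s false (nat_lit 1) (nat_lit 18) (nat_lit 11) (nat_lit 2) (nat_lit 1) true (nat_lit 2) true (nat_lit 17) true (nat_lit 5) true (nat_lit 8) true (nat_lit 16) (.s true (nat_lit 3) (nat_lit 18) (nat_lit 12) (nat_lit 2) (nat_lit 1) true (nat_lit 2) true (nat_lit 17) true (nat_lit 5) true (nat_lit 8) true (nat_lit 16) (.s true (nat_lit 3) (nat_lit 19) (nat_lit 11) (nat_lit 2) (nat_lit 1) true (nat_lit 2) true (nat_lit 17) true (nat_lit 5) true (nat_lit 8) true (nat_lit 16) (.s false (nat_lit 1) (nat_lit 19) (nat_lit 12) (nat_lit 2) (nat_lit 1) true (nat_lit 2) true (nat_lit 17) true (nat_lit 5) true (nat_lit 8) true (nat_lit 16) (.s false (nat_lit 3) (nat_lit 20) (nat_lit 1) (nat_lit 8) (nat_lit 2) true (nat_lit 12) true (nat_lit 16) true (nat_lit 4) true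 (nat_lit 17) true (nat_lit 10) (.s true (nat_lit 1) (nat_lit 20) (nat_lit 1) (nat_lit 12) (nat_lit 1) true (nat_lit 14) true (nat_lit 17) true (nat_lit 4) true (nat_lit 17) true (nat_lit 8) (.s true (nat_lit 1) (nat_lit 20) (nat_lit 2) (nat_lit 1) (nat_lit 8) true (nat_lit 2) true (nat_lit 10) true (nat_lit 4) true (nat_lit 16) true (nat_lit 17) (.s true (nat_lit 2) (nat_lit 20) (nat_lit 2) (nat_lit 4) (nat_lit 3) true (nat_lit 8) true (nat_lit 15) true (nat_lit 4) true (nat_lit 16) true (nat_lit 14) (.s false (nat_lit 1) (nat_lit 20) (nat_lit 2) (nat_lit 10) (nat_lit 0) true (nat_lit 13) true (nat_lit 18) true (nat_lit 4) true (nat_lit 16) true (nat_lit 9) (.s false (nat_lit 3) (nat_lit 20) (nat_lit 3) (nat_lit 2) (nat_lit 4) true (nat_lit 3) true (nat_lit 14) true (nat_lit 4) true (nat_lit 15) true (nat_lit 16) (.s false (nat_lit 2) (nat_lit 20) (nat_lit 4) (nat_lit 5) (nat_lit 1) true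 (nat_lit 9) true (nat_lit 17) true (nat_lit 4) true (nat_lit 14) true (nat_lit 13) (.s true (nat_lit 2) (nat_lit 20) (nat_lit 8) (nat_lit 2) (nat_lit 1) true (nat_lit 3) true (nat_lit 17) true (nat_lit 4) true (nat_lit 10) true (nat_lit 16) (.s false (nat_lit 1) (nat_lit 20) (nat_lit 15) (nat_lit 1) (nat_lit 0) true (nat_lit 2) true (nat_lit 18) true (nat_lit 4) true (nat_lit 7) true (nat_lit 17) dC2c_i104)))))))))))))))))))))))))

noncomputable def dC2c_i106 : IL := (.e true (nat_lit 2) (nat_lit 152) (nat_lit 7) (nat_lit 9) (.e false (nat_lit 3) (nat_lit 153) (nat_lit 7) (nat_lit 9) (.e false (nat_lit 1) (nat_lit 324) (nat_lit 0) (nat_lit 16) (.e true (nat_lit 1) (nat_lit 326) (nat_lit 0) (nat_lit 16) (.e true (nat_lit 2) (nat_lit 327) (nat_lit 0) (nat_lit 16) (.e false (nat_lit 2) (nat_lit 328) (nat_lit 0) (nat_lit 16) (.e true (nat_lit 1) (nat_lit 330) (nat_lit 0) (nat_lit 16) (.e false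 (nat_lit 3) (nat_lit 329) (nat_lit 0) (nat_lit 16) (.e true (nat_lit 2) (nat_lit 331) (nat_lit 0) (nat_lit 16) (.e true (nat_lit 1) (nat_lit 305) (nat_lit 1) (nat_lit 15) (.e true (nat_lit 1) (nat_lit 307) (nat_lit 1) (nat_lit 15) (.e true (nat_lit 1) (nat_lit 308) (nat_lit 1) (nat_lit 15) (.e false (nat_lit 3) (nat_lit 309) (nat_lit 1) (nat_lit 15) (.e true (nat_lit 1) (nat_lit 310) (nat_lit 1) (nat_lit 15) (.e true (nat_lit 1) (nat_lit 311) (nat_lit 1) (nat_lit 15) (.e true (nat_lit 1) (nat_lit 312) (nat_lit 1) (nat_lit 15) (.e false (nat_lit 1) (nat_lit 315) (nat_lit 1) (nat_lit 15) (.e true (nat_lit 1) (nat_lit 306) (nat_lit 1) (nat_lit 15) (.e true (nat_lit 3) (nat_lit 314) (nat_lit 1) (nat_lit 15) (.e false (nat_lit 1) (nat_lit 72) (nat_lit 20) (nat_lit 3) (.e true (nat_lit 3) (nat_lit 333) (nat_lit 0) (nat_lit 16) (.e false (nat_lit 2) (nat_lit 319) (nat_lit 1) (nat_lit 15) (.u (nat_lit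 2) (.p (nat_lit 0) (nat_lit 3) (.n (nat_lit 1) (nat_lit 1) (.p (nat_lit 2) (nat_lit 1) (.p (nat_lit 3) (nat_lit 1) (.n (nat_lit 4) (nat_lit 4) (.p (nat_lit 5) (nat_lit 1) (.n (nat_lit 6) (nat_lit 1) (.p (nat_lit 8) (nat_lit 3) (.p (nat_lit 9) (nat_lit 1) (.p (nat_lit 10) (nat_lit 2) (.n (nat_lit 11) (nat_lit 1) (.n (nat_lit 12) (nat_lit 1) (.n (nat_lit 13) (nat_lit 2) (.n (nat_lit 14) (nat_lit 4) (.n (nat_lit 17) (nat_lit 3) (.n (nat_lit 21) (nat_lit 1) (.n (nat_lit 23) (nat_lit 1) (.n (nat_lit 24) (nat_lit 1) (.p (nat_lit 26) (nat_lit 1) (.p (nat_lit 28) (nat_lit 1) (.n (nat_lit 31) (nat_lit 1) (.n (nat_lit 33) (nat_lit 1) (.n (nat_lit 34) (nat_lit 2) (.p (nat_lit 35) (nat_lit 2) (.n (nat_lit 38) (nat_lit 3) (.p (nat_lit 39) (nat_lit 1) (.p (nat_lit 41) (nat_lit 1) (.n (nat_lit 43) (nat_lit 1) (.n (nat_lit 44) (nat_lit 1) (.p (nat_lit 46) (nat_lit 1) (.p (nat_lit 47) (nat_lit 1) (.n (nat_lit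 49) (nat_lit 1) (.p (nat_lit 50) (nat_lit 1) (.n (nat_lit 52) (nat_lit 1) (.p (nat_lit 55) (nat_lit 1) (.n (nat_lit 56) (nat_lit 1) (.n (nat_lit 72) (nat_lit 1) (.n (nat_lit 73) (nat_lit 1) (.p (nat_lit 75) (nat_lit 1) (.n (nat_lit 78) (nat_lit 1) (.n (nat_lit 80) (nat_lit 1) (.p (nat_lit 83) (nat_lit 2) (.n (nat_lit 86) (nat_lit 1) (.p (nat_lit 87) (nat_lit 3) (.n (nat_lit 88) (nat_lit 1) (.n (nat_lit 89) (nat_lit 1) (.p (nat_lit 90) (nat_lit 1) (.p (nat_lit 91) (nat_lit 1) (.n (nat_lit 92) (nat_lit 1) (.n (nat_lit 95) (nat_lit 1) (.p (nat_lit 97) (nat_lit 1) (.n (nat_lit 98) (nat_lit 1) (.n (nat_lit 102) (nat_lit 1) (.n (nat_lit 104) (nat_lit 1) (.p (nat_lit 107) (nat_lit 1) (.p (nat_lit 109) (nat_lit 1) (.p (nat_lit 115) (nat_lit 1) (.n (nat_lit 116) (nat_lit 1) (.p (nat_lit 119) (nat_lit 1) (.n (nat_lit 123) (nat_lit 1) .z))))))))))))))))))))))))))))))))))))))))))))))))))))))))))))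 (.u (nat_lit 2) (.n (nat_lit 129) (nat_lit 1) (.p (nat_lit 130) (nat_lit 1) (.p (nat_lit 131) (nat_lit 1) (.n (nat_lit 133) (nat_lit 1) (.p (nat_lit 134) (nat_lit 1) (.n (nat_lit 135) (nat_lit 1) (.p (nat_lit 137) (nat_lit 1) (.n (nat_lit 142) (nat_lit 3) (.p (nat_lit 143) (nat_lit 1) (.n (nat_lit 144) (nat_lit 3) (.p (nat_lit 145) (nat_lit 2) (.p (nat_lit 147) (nat_lit 1) (.n (nat_lit 148) (nat_lit 2) (.n (nat_lit 149) (nat_lit 1) (.p (nat_lit 150) (nat_lit 2) (.p (nat_lit 151) (nat_lit 1) (.p (nat_lit 154) (nat_lit 1) (.p (nat_lit 155) (nat_lit 1) (.p (nat_lit 156) (nat_lit 1) (.p (nat_lit 157) (nat_lit 1) (.p (nat_lit 160) (nat_lit 4) (.p (nat_lit 161) (nat_lit 3) (.n (nat_lit 162) (nat_lit 1) (.n (nat_lit 163) (nat_lit 1) (.n (nat_lit 164) (nat_lit 1) (.p (nat_lit 165) (nat_lit 4) (.n (nat_lit 166) (nat_lit 3) (.p (nat_lit 167) (nat_lit 1) (.n (nat_lit 172) (nat_lit 1) (.p (nat_lit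 174) (nat_lit 1) (.p (nat_lit 175) (nat_lit 1) (.n (nat_lit 177) (nat_lit 1) (.n (nat_lit 178) (nat_lit 2) (.n (nat_lit 184) (nat_lit 2) (.p (nat_lit 185) (nat_lit 1) (.p (nat_lit 186) (nat_lit 2) (.n (nat_lit 187) (nat_lit 2) (.n (nat_lit 188) (nat_lit 1) (.p (nat_lit 189) (nat_lit 1) (.n (nat_lit 192) (nat_lit 1) (.p (nat_lit 193) (nat_lit 1) (.p (nat_lit 195) (nat_lit 1) (.p (nat_lit 196) (nat_lit 1) (.n (nat_lit 204) (nat_lit 7) (.p (nat_lit 205) (nat_lit 23) (.n (nat_lit 206) (nat_lit 3) (.p (nat_lit 207) (nat_lit 9) (.p (nat_lit 208) (nat_lit 6) (.n (nat_lit 209) (nat_lit 20) (.n (nat_lit 210) (nat_lit 20) (.p (nat_lit 211) (nat_lit 17) (.n (nat_lit 212) (nat_lit 26) (.n (nat_lit 213) (nat_lit 29) (.n (nat_lit 214) (nat_lit 1) (.n (nat_lit 215) (nat_lit 9) (.n (nat_lit 216) (nat_lit 10) (.p (nat_lit 217) (nat_lit 11) (.n (nat_lit 218) (nat_lit 8) (.p (nat_lit 219) (nat_lit 1) (.p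 (nat_lit 220) (nat_lit 4) .z)))))))))))))))))))))))))))))))))))))))))))))))))))))))))))) (.u (nat_lit 2) (.n (nat_lit 221) (nat_lit 6) (.p (nat_lit 222) (nat_lit 16) (.n (nat_lit 223) (nat_lit 11) (.p (nat_lit 224) (nat_lit 10) (.n (nat_lit 225) (nat_lit 10) (.p (nat_lit 226) (nat_lit 1) (.p (nat_lit 227) (nat_lit 8) (.p (nat_lit 228) (nat_lit 9) (.p (nat_lit 229) (nat_lit 1) (.p (nat_lit 230) (nat_lit 3) (.n (nat_lit 231) (nat_lit 1) (.n (nat_lit 232) (nat_lit 1) (.n (nat_lit 234) (nat_lit 5) (.p (nat_lit 235) (nat_lit 3) (.n (nat_lit 236) (nat_lit 2) (.n (nat_lit 237) (nat_lit 6) (.n (nat_lit 238) (nat_lit 5) (.p (nat_lit 239) (nat_lit 5) (.p (nat_lit 240) (nat_lit 11) (.p (nat_lit 241) (nat_lit 9) (.p (nat_lit 242) (nat_lit 2) (.p (nat_lit 243) (nat_lit 6) (.n (nat_lit 244) (nat_lit 5) (.n (nat_lit 245) (nat_lit 7) (.n (nat_lit 246) (nat_lit 1) (.n (nat_lit 247) (nat_lit 6) (.n (nat_lit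 248) (nat_lit 5) (.p (nat_lit 249) (nat_lit 2) (.p (nat_lit 250) (nat_lit 4) (.p (nat_lit 251) (nat_lit 5) (.n (nat_lit 252) (nat_lit 2) (.p (nat_lit 253) (nat_lit 2) (.n (nat_lit 254) (nat_lit 2) (.n (nat_lit 256) (nat_lit 1) (.n (nat_lit 257) (nat_lit 1) (.n (nat_lit 258) (nat_lit 2) (.p (nat_lit 259) (nat_lit 1) (.n (nat_lit 260) (nat_lit 4) (.p (nat_lit 261) (nat_lit 1) (.n (nat_lit 262) (nat_lit 1) (.p (nat_lit 263) (nat_lit 1) (.n (nat_lit 264) (nat_lit 3) (.n (nat_lit 265) (nat_lit 4) (.p (nat_lit 266) (nat_lit 3) (.p (nat_lit 267) (nat_lit 2) (.p (nat_lit 270) (nat_lit 1) .z)))))))))))))))))))))))))))))))))))))))))))))) .nil)))))))))))))))))))))))))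

noncomputable def dC2c_i107 : IL := (.s true (nat_lit 3) (nat_lit 105) (nat_lit 0) (nat_lit 1) (nat_lit 1) true (nat_lit 13) true (nat_lit 15) false (nat_lit 8) true (nat_lit 16) true (nat_lit 15) (.s true (nat_lit 1) (nat_lit 105) (nat_lit 1) (nat_lit 0) (nat_lit 1) true (nat_lit 12) true (nat_lit 15) false (nat_lit 8) true (nat_lit 15) true (nat_lit 16) (.s false (nat_lit 2) (nat_lit 105) (nat_lit 1) (nat_lit 1) (nat_lit 0) true (nat_lit 13) true (nat_lit 16) false (nat_lit 8) true (nat_lit 15) true (nat_lit 15) (.e false (nat_lit 1) (nat_lit 154) (nat_lit 7) (nat_lit 9) (.e false (nat_lit 2) (nat_lit 254) (nat_lit 2) (nat_lit 14) (.e false (nat_lit 3) (nat_lit 255) (nat_lit 2) (nat_lit 14) (.e true (nat_lit 3) (nat_lit 258) (nat_lit 2) (nat_lit 14) (.e false (nat_lit 3) (nat_lit 259) (nat_lit 2) (nat_lit 14) (.e false (nat_lit 2) (nat_lit 261) (nat_lit 2) (nat_lit 14) (.e false (nat_lit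 2) (nat_lit 263) (nat_lit 2) (nat_lit 14) (.e true (nat_lit 3) (nat_lit 264) (nat_lit 2) (nat_lit 14) (.e true (nat_lit 3) (nat_lit 265) (nat_lit 2) (nat_lit 14) (.e true (nat_lit 1) (nat_lit 267) (nat_lit 2) (nat_lit 14) (.e true (nat_lit 3) (nat_lit 270) (nat_lit 2) (nat_lit 14) (.e false (nat_lit 1) (nat_lit 274) (nat_lit 2) (nat_lit 14) (.e true (nat_lit 3) (nat_lit 272) (nat_lit 2) (nat_lit 14) (.e false (nat_lit 2) (nat_lit 140) (nat_lit 7) (nat_lit 9) (.e true (nat_lit 2) (nat_lit 253) (nat_lit 2) (nat_lit 14) (.e false (nat_lit 2) (nat_lit 257) (nat_lit 2) (nat_lit 14) (.e true (nat_lit 3) (nat_lit 271) (nat_lit 2) (nat_lit 14) (.e true (nat_lit 3) (nat_lit 273) (nat_lit 2) (nat_lit 14) (.e false (nat_lit 1) (nat_lit 313) (nat_lit 1) (nat_lit 15) (.e true (nat_lit 2) (nat_lit 282) (nat_lit 2) (nat_lit 14) (.e false (nat_lit 2) (nat_lit 283) (nat_lit 2) (nat_lit 14) (.e false (nat_lit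 2) (nat_lit 285) (nat_lit 2) (nat_lit 14) dC2c_i106)))))))))))))))))))))))))

noncomputable def dC2c_i108 : IL := (.s false (nat_lit 1) (nat_lit 81) (nat_lit 2) (nat_lit 2) (nat_lit 1) true (nat_lit 10) true (nat_lit 15) false (nat_lit 4) true (nat_lit 14) true (nat_lit 14) (.s false (nat_lit 1) (nat_lit 82) (nat_lit 2) (nat_lit 2) (nat_lit 1) true (nat_lit 10) true (nat_lit 15) false (nat_lit 4) true (nat_lit 14) true (nat_lit 14) (.s true (nat_lit 1) (nat_lit 83) (nat_lit 2) (nat_lit 2) (nat_lit 1) true (nat_lit 10) true (nat_lit 15) false (nat_lit 4) true (nat_lit 14) true (nat_lit 14) (.s true (nat_lit 3) (nat_lit 84) (nat_lit 2) (nat_lit 2) (nat_lit 1) true (nat_lit 10) true (nat_lit 15) false (nat_lit 4) true (nat_lit 14) true (nat_lit 14) (.s false (nat_lit 1) (nat_lit 86) (nat_lit 2) (nat_lit 2) (nat_lit 1) true (nat_lit 10) true (nat_lit 15) false (nat_lit 4) true (nat_lit 14)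 true (nat_lit 14) (.s false (nat_lit 1) (nat_lit 87) (nat_lit 2) (nat_lit 2) (nat_lit 1) true (nat_lit 10) true (nat_lit 15) false (nat_lit 4) true (nat_lit 14) true (nat_lit 14) (.s true (nat_lit 2) (nat_lit 89) (nat_lit 2) (nat_lit 2) (nat_lit 1) true (nat_lit 10) true (nat_lit 15) false (nat_lit 4) true (nat_lit 14) true (nat_lit 14) (.s true (nat_lit 2) (nat_lit 90) (nat_lit 2) (nat_lit 2) (nat_lit 1) true (nat_lit 10) true (nat_lit 15) false (nat_lit 4) true (nat_lit 14) true (nat_lit 14) (.s true (nat_lit 1) (nat_lit 91) (nat_lit 0) (nat_lit 2) (nat_lit 2) true (nat_lit 11) true (nat_lit 14) false (nat_lit 5) true (nat_lit 16) true (nat_lit 14) (.s false (nat_lit 2) (nat_lit 92) (nat_lit 0) (nat_lit 2) (nat_lit 2) true (nat_lit 11) true (nat_lit 14) false (nat_lit 5) true (nat_lit 16) true (nat_lit 14) (.s false (nat_lit 1) (nat_lit 93) (nat_lit 0) (nat_lit 2) (nat_lit 2) true (nat_lit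 11) true (nat_lit 14) false (nat_lit 5) true (nat_lit 16) true (nat_lit 14) (.s false (nat_lit 3) (nat_lit 95) (nat_lit 0) (nat_lit 2) (nat_lit 2) true (nat_lit 11) true (nat_lit 14) false (nat_lit 5) true (nat_lit 16) true (nat_lit 14) (.s false (nat_lit 2) (nat_lit 96) (nat_lit 0) (nat_lit 2) (nat_lit 2) true (nat_lit 11) true (nat_lit 14) false (nat_lit 5) true (nat_lit 16) true (nat_lit 14) (.s true (nat_lit 1) (nat_lit 91) (nat_lit 2) (nat_lit 2) (nat_lit 0) true (nat_lit 11) true (nat_lit 16) false (nat_lit 5) true (nat_lit 14) true (nat_lit 14) (.s false (nat_lit 2) (nat_lit 93) (nat_lit 2) (nat_lit 2) (nat_lit 0) true (nat_lit 11) true (nat_lit 16) false (nat_lit 5) true (nat_lit 14) true (nat_lit 14) (.s true (nat_lit 2) (nat_lit 94) (nat_lit 2) (nat_lit 2) (nat_lit 0) true (nat_lit 11) true (nat_lit 16) false (nat_lit 5) true (nat_lit 14) true (nat_lit 14) (.s true (nat_lit 2)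 (nat_lit 95) (nat_lit 2) (nat_lit 2) (nat_lit 0) true (nat_lit 11) true (nat_lit 16) false (nat_lit 5) true (nat_lit 14) true (nat_lit 14) (.s false (nat_lit 1) (nat_lit 97) (nat_lit 1) (nat_lit 1) (nat_lit 2) true (nat_lit 10) true (nat_lit 14) false (nat_lit 6) true (nat_lit 15) true (nat_lit 15) (.s false (nat_lit 3) (nat_lit 98) (nat_lit 1) (nat_lit 2) (nat_lit 1) true (nat_lit 12) true (nat_lit 15) false (nat_lit 6) true (nat_lit 15) true (nat_lit 14) (.s false (nat_lit 2) (nat_lit 99) (nat_lit 1) (nat_lit 2) (nat_lit 1) true (nat_lit 12) true (nat_lit 15) false (nat_lit 6) true (nat_lit 15) true (nat_lit 14) (.s false (nat_lit 1) (nat_lit 100) (nat_lit 1) (nat_lit 2) (nat_lit 1) true (nat_lit 12) true (nat_lit 15) false (nat_lit 6) true (nat_lit 15) true (nat_lit 14) (.s true (nat_lit 3) (nat_lit 102) (nat_lit 0) (nat_lit 2) (nat_lit 1) true (nat_lit 13) true (nat_lit 15) false (nat_lit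 7) true (nat_lit 16) true (nat_lit 14) (.s true (nat_lit 3) (nat_lit 104) (nat_lit 0) (nat_lit 2) (nat_lit 1) true (nat_lit 13) true (nat_lit 15) false (nat_lit 7) true (nat_lit 16) true (nat_lit 14) (.s true (nat_lit 2) (nat_lit 103) (nat_lit 1) (nat_lit 2) (nat_lit 0) true (nat_lit 13) true (nat_lit 16) false (nat_lit 7) true (nat_lit 15) true (nat_lit 14) (.s true (nat_lit 2) (nat_lit 103) (nat_lit 2) (nat_lit 1) (nat_lit 0) true (nat_lit 11) true (nat_lit 16) false (nat_lit 7) true (nat_lit 14) true (nat_lit 15) dC2c_i107)))))))))))))))))))))))))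

noncomputable def dC2c_i109 : IL := (.s true (nat_lit 3) (nat_lit 46) (nat_lit 2) (nat_lit 3) (nat_lit 2) true (nat_lit 9) true (nat_lit 14) false (nat_lit 1) true (nat_lit 14) true (nat_lit 13) (.s true (nat_lit 3) (nat_lit 45) (nat_lit 3) (nat_lit 2) (nat_lit 2) true (nat_lit 7) true (nat_lit 14) false (nat_lit 1) true (nat_lit 13) true (nat_lit 14) (.s false (nat_lit 1) (nat_lit 47) (nat_lit 3) (nat_lit 2) (nat_lit 2) true (nat_lit 7) true (nat_lit 14) false (nat_lit 1) true (nat_lit 13) true (nat_lit 14) (.s false (nat_lit 3) (nat_lit 47) (nat_lit 6) (nat_lit 2) (nat_lit 0) true (nat_lit 7) true (nat_lit 16) false (nat_lit 1) true (nat_lit 10) true (nat_lit 14) (.s false (nat_lit 2) (nat_lit 48) (nat_lit 2) (nat_lit 1) (nat_lit 3) true (nat_lit 7) true (nat_lit 13) false (nat_lit 2) true (nat_lit 14) true (nat_lit 15) (.s true (nat_lit 1) (nat_lit 48) (nat_lit 2) (nat_lit 3) (nat_lit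 1) true (nat_lit 10) true (nat_lit 15) false (nat_lit 2) true (nat_lit 14) true (nat_lit 13) (.s false (nat_lit 2) (nat_lit 48) (nat_lit 6) (nat_lit 0) (nat_lit 1) true (nat_lit 6) true (nat_lit 15) false (nat_lit 2) true (nat_lit 10) true (nat_lit 16) (.s true (nat_lit 3) (nat_lit 48) (nat_lit 6) (nat_lit 1) (nat_lit 0) true (nat_lit 7) true (nat_lit 16) false (nat_lit 2) true (nat_lit 10) true (nat_lit 15) (.s false (nat_lit 3) (nat_lit 66) (nat_lit 2) (nat_lit 2) (nat_lit 2) true (nat_lit 9) true (nat_lit 14) false (nat_lit 3) true (nat_lit 14) true (nat_lit 14) (.s true (nat_lit 2) (nat_lit 67) (nat_lit 2) (nat_lit 2) (nat_lit 2) true (nat_lit 9) true (nat_lit 14) false (nat_lit 3) true (nat_lit 14) true (nat_lit 14) (.s false (nat_lit 2) (nat_lit 68) (nat_lit 2) (nat_lit 2) (nat_lit 2) true (nat_lit 9) true (nat_lit 14) false (nat_lit 3) true (nat_lit 14) true (nat_lit 14) (.s false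 (nat_lit 3) (nat_lit 69) (nat_lit 2) (nat_lit 2) (nat_lit 2) true (nat_lit 9) true (nat_lit 14) false (nat_lit 3) true (nat_lit 14) true (nat_lit 14) (.s false (nat_lit 1) (nat_lit 70) (nat_lit 2) (nat_lit 2) (nat_lit 2) true (nat_lit 9) true (nat_lit 14) false (nat_lit 3) true (nat_lit 14) true (nat_lit 14) (.s true (nat_lit 1) (nat_lit 71) (nat_lit 2) (nat_lit 2) (nat_lit 2) true (nat_lit 9) true (nat_lit 14) false (nat_lit 3) true (nat_lit 14) true (nat_lit 14) (.s true (nat_lit 2) (nat_lit 81) (nat_lit 1) (nat_lit 2) (nat_lit 2) true (nat_lit 10) true (nat_lit 14) false (nat_lit 4) true (nat_lit 15) true (nat_lit 14) (.s false (nat_lit 1) (nat_lit 82) (nat_lit 1) (nat_lit 2) (nat_lit 2) true (nat_lit 10) true (nat_lit 14) false (nat_lit 4) true (nat_lit 15) true (nat_lit 14) (.s false (nat_lit 2) (nat_lit 83) (nat_lit 1) (nat_lit 2) (nat_lit 2) true (nat_lit 10) true (nat_lit 14) false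 (nat_lit 4) true (nat_lit 15) true (nat_lit 14) (.s false (nat_lit 1) (nat_lit 85) (nat_lit 1) (nat_lit 2) (nat_lit 2) true (nat_lit 10) true (nat_lit 14) false (nat_lit 4) true (nat_lit 15) true (nat_lit 14) (.s false (nat_lit 3) (nat_lit 86) (nat_lit 1) (nat_lit 2) (nat_lit 2) true (nat_lit 10) true (nat_lit 14) false (nat_lit 4) true (nat_lit 15) true (nat_lit 14) (.s false (nat_lit 2) (nat_lit 87) (nat_lit 1) (nat_lit 2) (nat_lit 2) true (nat_lit 10) true (nat_lit 14) false (nat_lit 4) true (nat_lit 15) true (nat_lit 14) (.s false (nat_lit 3) (nat_lit 89) (nat_lit 1) (nat_lit 2) (nat_lit 2) true (nat_lit 10) true (nat_lit 14) false (nat_lit 4) true (nat_lit 15) true (nat_lit 14) (.s true (nat_lit 2) (nat_lit 90) (nat_lit 1) (nat_lit 2) (nat_lit 2) true (nat_lit 10) true (nat_lit 14) false (nat_lit 4) true (nat_lit 15) true (nat_lit 14) (.s true (nat_lit 2) (nat_lit 80) (nat_lit 2) (nat_lit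 1) (nat_lit 2) true (nat_lit 9) true (nat_lit 14) false (nat_lit 4) true (nat_lit 14) true (nat_lit 15) (.s true (nat_lit 3) (nat_lit 81) (nat_lit 2) (nat_lit 1) (nat_lit 2) true (nat_lit 9) true (nat_lit 14) false (nat_lit 4) true (nat_lit 14) true (nat_lit 15) (.s true (nat_lit 2) (nat_lit 89) (nat_lit 2) (nat_lit 1) (nat_lit 2) true (nat_lit 9) true (nat_lit 14) false (nat_lit 4) true (nat_lit 14) true (nat_lit 15) dC2c_i108)))))))))))))))))))))))))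

noncomputable def dC2c_i110 : IL := (.s false (nat_lit 1) (nat_lit 34) (nat_lit 2) (nat_lit 7) (nat_lit 1) true (nat_lit 10) true (nat_lit 15) true (nat_lit 1) true (nat_lit 14) true (nat_lit 9) (.s false (nat_lit 3) (nat_lit 35) (nat_lit 2) (nat_lit 7) (nat_lit 1) true (nat_lit 10) true (nat_lit 15) true (nat_lit 1) true (nat_lit 14) true (nat_lit 9) (.s false (nat_lit 2) (nat_lit 33) (nat_lit 6) (nat_lit 2) (nat_lit 2) true (nat_lit 4) true (nat_lit 14) true (nat_lit 1) true (nat_lit 10) true (nat_lit 14) (.s false (nat_lit 1) (nat_lit 34) (nat_lit 6) (nat_lit 2) (nat_lit 2) true (nat_lit 4) true (nat_lit 14) true (nat_lit 1) true (nat_lit 10) true (nat_lit 14) (.s false (nat_lit 1) (nat_lit 35) (nat_lit 6) (nat_lit 2) (nat_lit 2) true (nat_lit 4) true (nat_lit 14) true (nat_lit 1) true (nat_lit 10) true (nat_lit 14) (.s false (nat_lit 1) (nat_lit 39) (nat_lit 0) (nat_lit 2) (nat_lit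 7) true (nat_lit 5) true (nat_lit 9) true (nat_lit 0) true (nat_lit 16) true (nat_lit 14) (.s false (nat_lit 3) (nat_lit 40) (nat_lit 0) (nat_lit 2) (nat_lit 7) true (nat_lit 5) true (nat_lit 9) true (nat_lit 0) true (nat_lit 16) true (nat_lit 14) (.s false (nat_lit 1) (nat_lit 40) (nat_lit 2) (nat_lit 0) (nat_lit 7) true (nat_lit 3) true (nat_lit 9) true (nat_lit 0) true (nat_lit 14) true (nat_lit 16) (.s true (nat_lit 2) (nat_lit 39) (nat_lit 2) (nat_lit 2) (nat_lit 5) true (nat_lit 5) true (nat_lit 11) true (nat_lit 0) true (nat_lit 14) true (nat_lit 14) (.s false (nat_lit 2) (nat_lit 40) (nat_lit 2) (nat_lit 2) (nat_lit 5) true (nat_lit 5) true (nat_lit 11) true (nat_lit 0) true (nat_lit 14) true (nat_lit 14) (.s true (nat_lit 3) (nat_lit 41) (nat_lit 2) (nat_lit 2) (nat_lit 5) true (nat_lit 5) true (nat_lit 11) true (nat_lit 0) true (nat_lit 14) true (nat_lit 14) (.s false (nat_lit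 1) (nat_lit 40) (nat_lit 2) (nat_lit 5) (nat_lit 2) true (nat_lit 9) true (nat_lit 14) true (nat_lit 0) true (nat_lit 14) true (nat_lit 11) (.s true (nat_lit 3) (nat_lit 39) (nat_lit 2) (nat_lit 7) (nat_lit 0) true (nat_lit 11) true (nat_lit 16) true (nat_lit 0) true (nat_lit 14) true (nat_lit 9) (.s true (nat_lit 2) (nat_lit 39) (nat_lit 5) (nat_lit 2) (nat_lit 2) true (nat_lit 5) true (nat_lit 14) true (nat_lit 0) true (nat_lit 11) true (nat_lit 14) (.s false (nat_lit 2) (nat_lit 41) (nat_lit 5) (nat_lit 2) (nat_lit 2) true (nat_lit 5) true (nat_lit 14) true (nat_lit 0) true (nat_lit 11) true (nat_lit 14) (.s false (nat_lit 1) (nat_lit 42) (nat_lit 1) (nat_lit 2) (nat_lit 6) true (nat_lit 6) true (nat_lit 10) false (nat_lit 0) true (nat_lit 15) true (nat_lit 14) (.s false (nat_lit 3) (nat_lit 44) (nat_lit 1) (nat_lit 2) (nat_lit 6) true (nat_lit 6) true (nat_lit 10) false (nat_lit 0)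 true (nat_lit 15) true (nat_lit 14) (.s true (nat_lit 1) (nat_lit 42) (nat_lit 1) (nat_lit 6) (nat_lit 2) true (nat_lit 10) true (nat_lit 14) false (nat_lit 0) true (nat_lit 15) true (nat_lit 10) (.s false (nat_lit 2) (nat_lit 42) (nat_lit 2) (nat_lit 1) (nat_lit 6) true (nat_lit 4) true (nat_lit 10) false (nat_lit 0) true (nat_lit 14) true (nat_lit 15) (.s false (nat_lit 2) (nat_lit 43) (nat_lit 2) (nat_lit 2) (nat_lit 4) true (nat_lit 6) true (nat_lit 12) false (nat_lit 0) true (nat_lit 14) true (nat_lit 14) (.s false (nat_lit 2) (nat_lit 44) (nat_lit 2) (nat_lit 2) (nat_lit 4) true (nat_lit 6) true (nat_lit 12) false (nat_lit 0) true (nat_lit 14) true (nat_lit 14) (.s true (nat_lit 1) (nat_lit 42) (nat_lit 4) (nat_lit 2) (nat_lit 2) true (nat_lit 6) true (nat_lit 14) false (nat_lit 0) true (nat_lit 12) true (nat_lit 14) (.s true (nat_lit 2) (nat_lit 44) (nat_lit 4) (nat_lit 2) (nat_lit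 2) true (nat_lit 6) true (nat_lit 14) false (nat_lit 0) true (nat_lit 12) true (nat_lit 14) (.s true (nat_lit 1) (nat_lit 42) (nat_lit 6) (nat_lit 2) (nat_lit 1) true (nat_lit 6) true (nat_lit 15) false (nat_lit 0) true (nat_lit 10) true (nat_lit 14) (.s false (nat_lit 3) (nat_lit 47) (nat_lit 1) (nat_lit 5) (nat_lit 2) true (nat_lit 10) true (nat_lit 14) false (nat_lit 1) true (nat_lit 15) true (nat_lit 11) dC2c_i109)))))))))))))))))))))))))

noncomputable def dC2c_i111 : IL := (.s true (nat_lit 1) (nat_lit 20) (nat_lit 3) (nat_lit 7) (nat_lit 1) true (nat_lit 8) true (nat_lit 15) true (nat_lit 3) true (nat_lit 13) true (nat_lit 9) (.s true (nat_lit 3) (nat_lit 20) (nat_lit 6) (nat_lit 2) (nat_lit 3) true (nat_lit 2) true (nat_lit 13) true (nat_lit 3) true (nat_lit 10) true (nat_lit 14) (.s false (nat_lit 3) (nat_lit 20) (nat_lit 7) (nat_lit 4) (nat_lit 0) true (nat_lit 5) true (nat_lit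 16) true (nat_lit 3) true (nat_lit 9) true (nat_lit 12) (.s true (nat_lit 2) (nat_lit 20) (nat_lit 8) (nat_lit 2) (nat_lit 2) true (nat_lit 2) true (nat_lit 14) true (nat_lit 3) true (nat_lit 8) true (nat_lit 14) (.s true (nat_lit 3) (nat_lit 20) (nat_lit 9) (nat_lit 2) (nat_lit 2) true (nat_lit 2) true (nat_lit 14) true (nat_lit 3) true (nat_lit 8) true (nat_lit 14) (.s false (nat_lit 2) (nat_lit 20) (nat_lit 11) (nat_lit 2) (nat_lit 1) true (nat_lit 2) true (nat_lit 15) true (nat_lit 3) true (nat_lit 7) true (nat_lit 14) (.s true (nat_lit 2) (nat_lit 20) (nat_lit 12) (nat_lit 2) (nat_lit 1) true (nat_lit 2) true (nat_lit 15) true (nat_lit 3) true (nat_lit 7) true (nat_lit 14) (.s true (nat_lit 2) (nat_lit 20) (nat_lit 13) (nat_lit 2) (nat_lit 1) true (nat_lit 2) true (nat_lit 15) true (nat_lit 3) true (nat_lit 7) true (nat_lit 14) (.s false (nat_lit 2) (nat_lit 24) (nat_lit 2) (nat_lit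 2) (nat_lit 7) true (nat_lit 3) true (nat_lit 9) true (nat_lit 2) true (nat_lit 14) true (nat_lit 14) (.s true (nat_lit 3) (nat_lit 25) (nat_lit 2) (nat_lit 2) (nat_lit 7) true (nat_lit 3) true (nat_lit 9) true (nat_lit 2) true (nat_lit 14) true (nat_lit 14) (.s true (nat_lit 1) (nat_lit 26) (nat_lit 2) (nat_lit 2) (nat_lit 7) true (nat_lit 3) true (nat_lit 9) true (nat_lit 2) true (nat_lit 14) true (nat_lit 14) (.s false (nat_lit 3) (nat_lit 27) (nat_lit 2) (nat_lit 2) (nat_lit 7) true (nat_lit 3) true (nat_lit 9) true (nat_lit 2) true (nat_lit 14) true (nat_lit 14) (.s false (nat_lit 1) (nat_lit 29) (nat_lit 2) (nat_lit 2) (nat_lit 7) true (nat_lit 3) true (nat_lit 9) true (nat_lit 2) true (nat_lit 14) true (nat_lit 14) (.s true (nat_lit 3) (nat_lit 26) (nat_lit 2) (nat_lit 7) (nat_lit 2) true (nat_lit 9) true (nat_lit 14) true (nat_lit 2) true (nat_lit 14) true (nat_lit 9) (.s false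 (nat_lit 3) (nat_lit 27) (nat_lit 2) (nat_lit 7) (nat_lit 2) true (nat_lit 9) true (nat_lit 14) true (nat_lit 2) true (nat_lit 14) true (nat_lit 9) (.s true (nat_lit 2) (nat_lit 27) (nat_lit 7) (nat_lit 2) (nat_lit 2) true (nat_lit 3) true (nat_lit 14) true (nat_lit 2) true (nat_lit 9) true (nat_lit 14) (.s false (nat_lit 3) (nat_lit 34) (nat_lit 1) (nat_lit 2) (nat_lit 7) true (nat_lit 4) true (nat_lit 9) true (nat_lit 1) true (nat_lit 15) true (nat_lit 14) (.s true (nat_lit 3) (nat_lit 35) (nat_lit 1) (nat_lit 2) (nat_lit 7) true (nat_lit 4) true (nat_lit 9) true (nat_lit 1) true (nat_lit 15) true (nat_lit 14) (.s true (nat_lit 1) (nat_lit 38) (nat_lit 1) (nat_lit 2) (nat_lit 7) true (nat_lit 4) true (nat_lit 9) true (nat_lit 1) true (nat_lit 15) true (nat_lit 14) (.s false (nat_lit 2) (nat_lit 33) (nat_lit 2) (nat_lit 1) (nat_lit 7) true (nat_lit 3) true (nat_lit 9) true (nat_lit 1)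 true (nat_lit 14) true (nat_lit 15) (.s true (nat_lit 3) (nat_lit 33) (nat_lit 2) (nat_lit 2) (nat_lit 6) true (nat_lit 4) true (nat_lit 10) true (nat_lit 1) true (nat_lit 14) true (nat_lit 14) (.s false (nat_lit 1) (nat_lit 34) (nat_lit 2) (nat_lit 2) (nat_lit 6) true (nat_lit 4) true (nat_lit 10) true (nat_lit 1) true (nat_lit 14) true (nat_lit 14) (.s false (nat_lit 1) (nat_lit 35) (nat_lit 2) (nat_lit 2) (nat_lit 6) true (nat_lit 4) true (nat_lit 10) true (nat_lit 1) true (nat_lit 14) true (nat_lit 14) (.s true (nat_lit 1) (nat_lit 38) (nat_lit 2) (nat_lit 2) (nat_lit 6) true (nat_lit 4) true (nat_lit 10) true (nat_lit 1) true (nat_lit 14) true (nat_lit 14) (.s false (nat_lit 2) (nat_lit 33) (nat_lit 2) (nat_lit 6) (nat_lit 2) true (nat_lit 9) true (nat_lit 14) true (nat_lit 1) true (nat_lit 14) true (nat_lit 10) dC2c_i110)))))))))))))))))))))))))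

noncomputable def dC2c_i112 : IL := (.s false (nat_lit 2) (nat_lit 16) (nat_lit 2) (nat_lit 14) (nat_lit 2) true (nat_lit 9) true (nat_lit 14) true (nat_lit 5) true (nat_lit 14) true (nat_lit 6) (.s true (nat_lit 1) (nat_lit 17) (nat_lit 7) (nat_lit 6) (nat_lit 1) true (nat_lit 4) true (nat_lit 15) true (nat_lit 5) true (nat_lit 9) true (nat_lit 10) (.s false (nat_lit 3) (nat_lit 16) (nat_lit 14) (nat_lit 2) (nat_lit 2) true (nat_lit 0) true (nat_lit 14) true (nat_lit 5) true (nat_lit 6) true (nat_lit 14) (.s false (nat_lit 3) (nat_lit 16) (nat_lit 15) (nat_lit 2) (nat_lit 2) true (nat_lit 0) true (nat_lit 14) true (nat_lit 5) true (nat_lit 6) true (nat_lit 14) (.s true (nat_lit 3) (nat_lit 19) (nat_lit 2) (nat_lit 1) (nat_lit 16) false (nat_lit 0) true (nat_lit 5) true (nat_lit 4) true (nat_lit 14) true (nat_lit 15) (.s false (nat_lit 3) (nat_lit 18) (nat_lit 2) (nat_lit 2) (nat_lit 11)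 true (nat_lit 1) true (nat_lit 7) true (nat_lit 4) true (nat_lit 14) true (nat_lit 14) (.s true (nat_lit 1) (nat_lit 19) (nat_lit 2) (nat_lit 2) (nat_lit 11) true (nat_lit 1) true (nat_lit 7) true (nat_lit 4) true (nat_lit 14) true (nat_lit 14) (.s false (nat_lit 3) (nat_lit 19) (nat_lit 2) (nat_lit 2) (nat_lit 12) true (nat_lit 1) true (nat_lit 7) true (nat_lit 4) true (nat_lit 14) true (nat_lit 14) (.s false (nat_lit 2) (nat_lit 19) (nat_lit 2) (nat_lit 5) (nat_lit 6) true (nat_lit 4) true (nat_lit 10) true (nat_lit 4) true (nat_lit 14) true (nat_lit 11) (.s true (nat_lit 1) (nat_lit 19) (nat_lit 2) (nat_lit 11) (nat_lit 2) true (nat_lit 9) true (nat_lit 14) true (nat_lit 4) true (nat_lit 14) true (nat_lit 7) (.s true (nat_lit 2) (nat_lit 18) (nat_lit 3) (nat_lit 7) (nat_lit 2) true (nat_lit 7) true (nat_lit 14) true (nat_lit 4) true (nat_lit 13) true (nat_lit 9) (.s false (nat_lit 1)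 (nat_lit 18) (nat_lit 12) (nat_lit 2) (nat_lit 2) true (nat_lit 1) true (nat_lit 14) true (nat_lit 4) true (nat_lit 7) true (nat_lit 14) (.s false (nat_lit 1) (nat_lit 18) (nat_lit 13) (nat_lit 2) (nat_lit 2) true (nat_lit 1) true (nat_lit 14) true (nat_lit 4) true (nat_lit 7) true (nat_lit 14) (.s false (nat_lit 3) (nat_lit 19) (nat_lit 11) (nat_lit 2) (nat_lit 2) true (nat_lit 1) true (nat_lit 14) true (nat_lit 4) true (nat_lit 7) true (nat_lit 14) (.s true (nat_lit 3) (nat_lit 19) (nat_lit 13) (nat_lit 2) (nat_lit 2) true (nat_lit 1) true (nat_lit 14) true (nat_lit 4) true (nat_lit 7) true (nat_lit 14) (.s false (nat_lit 3) (nat_lit 20) (nat_lit 0) (nat_lit 1) (nat_lit 18) true (nat_lit 1) true (nat_lit 4) true (nat_lit 3) true (nat_lit 16) true (nat_lit 15) (.s false (nat_lit 3) (nat_lit 20) (nat_lit 0) (nat_lit 14) (nat_lit 2) true (nat_lit 11) true (nat_lit 14) true (nat_lit 3) true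 (nat_lit 16) true (nat_lit 6) (.s true (nat_lit 1) (nat_lit 20) (nat_lit 1) (nat_lit 2) (nat_lit 11) true (nat_lit 2) true (nat_lit 7) true (nat_lit 3) true (nat_lit 15) true (nat_lit 14) (.s false (nat_lit 1) (nat_lit 20) (nat_lit 1) (nat_lit 7) (nat_lit 3) true (nat_lit 8) true (nat_lit 13) true (nat_lit 3) true (nat_lit 15) true (nat_lit 9) (.s false (nat_lit 2) (nat_lit 20) (nat_lit 2) (nat_lit 2) (nat_lit 8) true (nat_lit 2) true (nat_lit 8) true (nat_lit 3) true (nat_lit 14) true (nat_lit 14) (.s true (nat_lit 2) (nat_lit 20) (nat_lit 2) (nat_lit 6) (nat_lit 3) true (nat_lit 7) true (nat_lit 13) true (nat_lit 3) true (nat_lit 14) true (nat_lit 10) (.s false (nat_lit 2) (nat_lit 20) (nat_lit 2) (nat_lit 9) (nat_lit 2) true (nat_lit 9) true (nat_lit 14) true (nat_lit 3) true (nat_lit 14) true (nat_lit 8) (.s false (nat_lit 3) (nat_lit 20) (nat_lit 2) (nat_lit 13) (nat_lit 1) true (nat_lit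 10) true (nat_lit 15) true (nat_lit 3) true (nat_lit 14) true (nat_lit 7) (.s false (nat_lit 1) (nat_lit 20) (nat_lit 2) (nat_lit 14) (nat_lit 0) true (nat_lit 11) true (nat_lit 16) true (nat_lit 3) true (nat_lit 14) true (nat_lit 6) (.s true (nat_lit 2) (nat_lit 20) (nat_lit 3) (nat_lit 2) (nat_lit 6) true (nat_lit 2) true (nat_lit 10) true (nat_lit 3) true (nat_lit 13) true (nat_lit 14) dC2c_i111)))))))))))))))))))))))))

noncomputable def dC2c_i113 : IL := (.e false (nat_lit 3) (nat_lit 267) (nat_lit 1) (nat_lit 17) (.e true (nat_lit 1) (nat_lit 270) (nat_lit 1) (nat_lit 17) (.e true (nat_lit 3) (nat_lit 272) (nat_lit 1) (nat_lit 17) (.e false (nat_lit 2) (nat_lit 274) (nat_lit 1) (nat_lit 17) (.e true (nat_lit 2) (nat_lit 275) (nat_lit 1) (nat_lit 17) (.e true (nat_lit 1) (nat_lit 279) (nat_lit 1) (nat_lit 17) (.e false (nat_lit 2) (nat_lit 286) (nat_lit 1) (nat_lit 17) (.e false (nat_lit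 1) (nat_lit 41) (nat_lit 34) (nat_lit 0) (.e true (nat_lit 1) (nat_lit 66) (nat_lit 18) (nat_lit 5) (.e false (nat_lit 1) (nat_lit 72) (nat_lit 18) (nat_lit 5) (.e false (nat_lit 2) (nat_lit 206) (nat_lit 2) (nat_lit 16) (.e false (nat_lit 1) (nat_lit 216) (nat_lit 2) (nat_lit 16) (.e true (nat_lit 1) (nat_lit 221) (nat_lit 2) (nat_lit 16) (.e true (nat_lit 2) (nat_lit 253) (nat_lit 1) (nat_lit 17) (.e false (nat_lit 1) (nat_lit 223) (nat_lit 2) (nat_lit 16) (.e true (nat_lit 3) (nat_lit 257) (nat_lit 1) (nat_lit 17) (.e true (nat_lit 2) (nat_lit 262) (nat_lit 1) (nat_lit 17) (.e true (nat_lit 3) (nat_lit 266) (nat_lit 1) (nat_lit 17) (.e true (nat_lit 3) (nat_lit 271) (nat_lit 1) (nat_lit 17) (.e true (nat_lit 3) (nat_lit 273) (nat_lit 1) (nat_lit 17) (.e false (nat_lit 3) (nat_lit 276) (nat_lit 1) (nat_lit 17) (.e false (nat_lit 2) (nat_lit 277) (nat_lit 1) (nat_lit 17) (.e true (nat_lit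 1) (nat_lit 285) (nat_lit 1) (nat_lit 17) (.e true (nat_lit 1) (nat_lit 236) (nat_lit 2) (nat_lit 16) (.u (nat_lit 2) (.p (nat_lit 0) (nat_lit 2) (.p (nat_lit 1) (nat_lit 3) (.p (nat_lit 4) (nat_lit 3) (.n (nat_lit 5) (nat_lit 2) (.p (nat_lit 6) (nat_lit 3) (.p (nat_lit 7) (nat_lit 2) (.p (nat_lit 9) (nat_lit 4) (.n (nat_lit 12) (nat_lit 3) (.n (nat_lit 15) (nat_lit 1) (.p (nat_lit 16) (nat_lit 3) (.p (nat_lit 17) (nat_lit 4) (.p (nat_lit 18) (nat_lit 1) (.n (nat_lit 20) (nat_lit 2) (.p (nat_lit 21) (nat_lit 1) (.n (nat_lit 22) (nat_lit 1) (.n (nat_lit 23) (nat_lit 2) (.p (nat_lit 24) (nat_lit 1) (.n (nat_lit 26) (nat_lit 2) (.p (nat_lit 27) (nat_lit 1) (.n (nat_lit 29) (nat_lit 2) (.p (nat_lit 31) (nat_lit 2) (.n (nat_lit 32) (nat_lit 6) (.n (nat_lit 33) (nat_lit 3) (.p (nat_lit 34) (nat_lit 2) (.n (nat_lit 35) (nat_lit 5) (.p (nat_lit 36) (nat_lit 2) (.p (nat_lit 38) (nat_lit 3) (.p (nat_lit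 40) (nat_lit 1) (.p (nat_lit 44) (nat_lit 1) (.n (nat_lit 45) (nat_lit 5) (.n (nat_lit 46) (nat_lit 1) (.n (nat_lit 47) (nat_lit 2) (.n (nat_lit 55) (nat_lit 1) (.p (nat_lit 57) (nat_lit 1) (.p (nat_lit 318) (nat_lit 1) (.p (nat_lit 351) (nat_lit 1) (.p (nat_lit 353) (nat_lit 1) (.n (nat_lit 357) (nat_lit 1) (.p (nat_lit 361) (nat_lit 1) (.n (nat_lit 364) (nat_lit 1) .z)))))))))))))))))))))))))))))))))))))))) .nil)))))))))))))))))))))))))

noncomputable def dC2c_i114 : IL := (.e true (nat_lit 3) (nat_lit 228) (nat_lit 2) (nat_lit 16) (.e true (nat_lit 1) (nat_lit 229) (nat_lit 2) (nat_lit 16) (.e true (nat_lit 1) (nat_lit 230) (nat_lit 2) (nat_lit 16) (.e false (nat_lit 2) (nat_lit 231) (nat_lit 2) (nat_lit 16) (.e false (nat_lit 2) (nat_lit 232) (nat_lit 2) (nat_lit 16) (.e false (nat_lit 2) (nat_lit 234) (nat_lit 2) (nat_lit 16) (.e false (nat_lit 1) (nat_lit 239) (nat_lit 2) (nat_lit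 16) (.e true (nat_lit 1) (nat_lit 242) (nat_lit 2) (nat_lit 16) (.e false (nat_lit 3) (nat_lit 243) (nat_lit 2) (nat_lit 16) (.e false (nat_lit 2) (nat_lit 244) (nat_lit 2) (nat_lit 16) (.e true (nat_lit 1) (nat_lit 245) (nat_lit 2) (nat_lit 16) (.e true (nat_lit 3) (nat_lit 246) (nat_lit 2) (nat_lit 16) (.e false (nat_lit 3) (nat_lit 249) (nat_lit 2) (nat_lit 16) (.e false (nat_lit 3) (nat_lit 250) (nat_lit 2) (nat_lit 16) (.e true (nat_lit 2) (nat_lit 251) (nat_lit 2) (nat_lit 16) (.e false (nat_lit 1) (nat_lit 252) (nat_lit 1) (nat_lit 17) (.e true (nat_lit 1) (nat_lit 254) (nat_lit 1) (nat_lit 17) (.e true (nat_lit 2) (nat_lit 255) (nat_lit 1) (nat_lit 17) (.e true (nat_lit 3) (nat_lit 256) (nat_lit 1) (nat_lit 17) (.e true (nat_lit 1) (nat_lit 258) (nat_lit 1) (nat_lit 17) (.e true (nat_lit 3) (nat_lit 259) (nat_lit 1) (nat_lit 17) (.e false (nat_lit 2) (nat_lit 260) (nat_lit 1) (nat_lit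 17) (.e false (nat_lit 3) (nat_lit 261) (nat_lit 1) (nat_lit 17) (.e false (nat_lit 2) (nat_lit 263) (nat_lit 1) (nat_lit 17) (.e true (nat_lit 2) (nat_lit 265) (nat_lit 1) (nat_lit 17) dC2c_i113)))))))))))))))))))))))))

noncomputable def dC2c_i115 : IL := (.s true (nat_lit 1) (nat_lit 18) (nat_lit 2) (nat_lit 1) (nat_lit 12) true (nat_lit 0) true (nat_lit 8) true (nat_lit 5) true (nat_lit 16) true (nat_lit 17) (.s true (nat_lit 1) (nat_lit 61) (nat_lit 1) (nat_lit 2) (nat_lit 2) true (nat_lit 12) true (nat_lit 16) false (nat_lit 5) true (nat_lit 17) true (nat_lit 16) (.s false (nat_lit 1) (nat_lit 68) (nat_lit 1) (nat_lit 2) (nat_lit 2) true (nat_lit 12) true (nat_lit 16) false (nat_lit 5) true (nat_lit 17) true (nat_lit 16) (.e false (nat_lit 1) (nat_lit 138) (nat_lit 6) (nat_lit 12) (.e false (nat_lit 1) (nat_lit 139) (nat_lit 6) (nat_lit 12) (.e true (nat_lit 1) (nat_lit 144) (nat_lit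 6) (nat_lit 12) (.e true (nat_lit 1) (nat_lit 147) (nat_lit 6) (nat_lit 12) (.e false (nat_lit 1) (nat_lit 155) (nat_lit 6) (nat_lit 12) (.e false (nat_lit 1) (nat_lit 205) (nat_lit 2) (nat_lit 16) (.e true (nat_lit 2) (nat_lit 207) (nat_lit 2) (nat_lit 16) (.e false (nat_lit 3) (nat_lit 208) (nat_lit 2) (nat_lit 16) (.e false (nat_lit 2) (nat_lit 209) (nat_lit 2) (nat_lit 16) (.e false (nat_lit 2) (nat_lit 210) (nat_lit 2) (nat_lit 16) (.e true (nat_lit 3) (nat_lit 211) (nat_lit 2) (nat_lit 16) (.e true (nat_lit 3) (nat_lit 212) (nat_lit 2) (nat_lit 16) (.e true (nat_lit 1) (nat_lit 213) (nat_lit 2) (nat_lit 16) (.e false (nat_lit 1) (nat_lit 214) (nat_lit 2) (nat_lit 16) (.e false (nat_lit 1) (nat_lit 215) (nat_lit 2) (nat_lit 16) (.e false (nat_lit 2) (nat_lit 217) (nat_lit 2) (nat_lit 16) (.e false (nat_lit 1) (nat_lit 218) (nat_lit 2) (nat_lit 16) (.e false (nat_lit 3) (nat_lit 219)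 (nat_lit 2) (nat_lit 16) (.e true (nat_lit 2) (nat_lit 220) (nat_lit 2) (nat_lit 16) (.e true (nat_lit 3) (nat_lit 225) (nat_lit 2) (nat_lit 16) (.e false (nat_lit 1) (nat_lit 226) (nat_lit 2) (nat_lit 16) (.e false (nat_lit 2) (nat_lit 227) (nat_lit 2) (nat_lit 16) dC2c_i114)))))))))))))))))))))))))

noncomputable def dC2c_i116 : IL := (.e true (nat_lit 1) (nat_lit 72) (nat_lit 20) (nat_lit 3) (.e false (nat_lit 2) (nat_lit 73) (nat_lit 20) (nat_lit 3) (.e false (nat_lit 3) (nat_lit 324) (nat_lit 0) (nat_lit 16) (.e false (nat_lit 1) (nat_lit 325) (nat_lit 0) (nat_lit 16) (.e false (nat_lit 3) (nat_lit 326) (nat_lit 0) (nat_lit 16) (.e false (nat_lit 2) (nat_lit 327) (nat_lit 0) (nat_lit 16) (.e false (nat_lit 2) (nat_lit 330) (nat_lit 0) (nat_lit 16) (.e true (nat_lit 2) (nat_lit 331) (nat_lit 0) (nat_lit 16) (.e false (nat_lit 1) (nat_lit 333) (nat_lit 0) (nat_lit 16) (.e false (nat_lit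 3) (nat_lit 88) (nat_lit 19) (nat_lit 4) (.e true (nat_lit 1) (nat_lit 62) (nat_lit 20) (nat_lit 3) (.e false (nat_lit 2) (nat_lit 306) (nat_lit 1) (nat_lit 15) (.e false (nat_lit 3) (nat_lit 314) (nat_lit 1) (nat_lit 15) (.e true (nat_lit 1) (nat_lit 134) (nat_lit 7) (nat_lit 9) (.e false (nat_lit 2) (nat_lit 152) (nat_lit 7) (nat_lit 9) (.e true (nat_lit 2) (nat_lit 154) (nat_lit 7) (nat_lit 9) (.e false (nat_lit 1) (nat_lit 141) (nat_lit 7) (nat_lit 9) (.e true (nat_lit 3) (nat_lit 103) (nat_lit 11) (nat_lit 7) (.e false (nat_lit 3) (nat_lit 102) (nat_lit 11) (nat_lit 7) (.e false (nat_lit 3) (nat_lit 104) (nat_lit 11) (nat_lit 7) (.e true (nat_lit 3) (nat_lit 48) (nat_lit 24) (nat_lit 2) (.e true (nat_lit 3) (nat_lit 105) (nat_lit 8) (nat_lit 8) (.e false (nat_lit 3) (nat_lit 48) (nat_lit 26) (nat_lit 2) (.u (nat_lit 2) (.p (nat_lit 0) (nat_lit 3) (.p (nat_lit 1) (nat_lit 1) (.p (nat_lit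 2) (nat_lit 4) (.p (nat_lit 3) (nat_lit 4) (.n (nat_lit 4) (nat_lit 2) (.n (nat_lit 5) (nat_lit 3) (.n (nat_lit 6) (nat_lit 3) (.n (nat_lit 7) (nat_lit 4) (.n (nat_lit 8) (nat_lit 1) (.n (nat_lit 9) (nat_lit 1) (.p (nat_lit 10) (nat_lit 6) (.n (nat_lit 11) (nat_lit 2) (.n (nat_lit 12) (nat_lit 2) (.n (nat_lit 13) (nat_lit 4) (.n (nat_lit 14) (nat_lit 8) (.p (nat_lit 15) (nat_lit 4) (.p (nat_lit 16) (nat_lit 4) (.p (nat_lit 17) (nat_lit 6) (.p (nat_lit 18) (nat_lit 1) (.p (nat_lit 19) (nat_lit 1) (.n (nat_lit 21) (nat_lit 2) (.p (nat_lit 23) (nat_lit 1) (.p (nat_lit 24) (nat_lit 4) (.n (nat_lit 25) (nat_lit 1) (.n (nat_lit 28) (nat_lit 1) (.p (nat_lit 30) (nat_lit 2) (.p (nat_lit 34) (nat_lit 2) (.p (nat_lit 38) (nat_lit 1) (.n (nat_lit 76) (nat_lit 1) (.n (nat_lit 78) (nat_lit 1) (.p (nat_lit 84) (nat_lit 1) (.n (nat_lit 99) (nat_lit 1) (.n (nat_lit 102) (nat_lit 1) (.n (nat_lit 109) (nat_lit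 1) (.p (nat_lit 110) (nat_lit 1) (.n (nat_lit 121) (nat_lit 1) (.n (nat_lit 122) (nat_lit 1) (.n (nat_lit 133) (nat_lit 1) (.p (nat_lit 134) (nat_lit 1) (.n (nat_lit 143) (nat_lit 1) (.n (nat_lit 145) (nat_lit 1) (.n (nat_lit 148) (nat_lit 1) (.p (nat_lit 150) (nat_lit 1) (.p (nat_lit 155) (nat_lit 1) (.p (nat_lit 157) (nat_lit 2) (.n (nat_lit 160) (nat_lit 1) (.n (nat_lit 165) (nat_lit 1) (.n (nat_lit 185) (nat_lit 1) (.p (nat_lit 186) (nat_lit 1) (.n (nat_lit 203) (nat_lit 1) (.n (nat_lit 204) (nat_lit 3) (.n (nat_lit 205) (nat_lit 10) (.p (nat_lit 206) (nat_lit 9) (.n (nat_lit 207) (nat_lit 2) (.n (nat_lit 208) (nat_lit 7) (.p (nat_lit 209) (nat_lit 12) (.p (nat_lit 210) (nat_lit 11) (.n (nat_lit 213) (nat_lit 2) (.p (nat_lit 214) (nat_lit 6) (.n (nat_lit 215) (nat_lit 2) .z)))))))))))))))))))))))))))))))))))))))))))))))))))))))))))) (.u (nat_lit 2) (.p (nat_lit 216) (nat_lit 16) (.p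 (nat_lit 217) (nat_lit 5) (.p (nat_lit 218) (nat_lit 1) (.n (nat_lit 219) (nat_lit 8) (.p (nat_lit 220) (nat_lit 2) (.n (nat_lit 221) (nat_lit 3) (.n (nat_lit 222) (nat_lit 9) (.n (nat_lit 223) (nat_lit 1) (.n (nat_lit 224) (nat_lit 24) (.n (nat_lit 225) (nat_lit 6) (.p (nat_lit 226) (nat_lit 2) (.p (nat_lit 227) (nat_lit 6) (.p (nat_lit 228) (nat_lit 5) (.p (nat_lit 229) (nat_lit 3) (.n (nat_lit 230) (nat_lit 3) (.p (nat_lit 232) (nat_lit 1) (.n (nat_lit 234) (nat_lit 3) (.n (nat_lit 235) (nat_lit 1) (.p (nat_lit 237) (nat_lit 5) (.n (nat_lit 238) (nat_lit 3) (.n (nat_lit 240) (nat_lit 2) (.n (nat_lit 241) (nat_lit 2) (.n (nat_lit 242) (nat_lit 1) (.p (nat_lit 243) (nat_lit 1) (.p (nat_lit 244) (nat_lit 2) (.p (nat_lit 245) (nat_lit 1) (.p (nat_lit 246) (nat_lit 2) (.p (nat_lit 247) (nat_lit 2) (.p (nat_lit 248) (nat_lit 2) (.n (nat_lit 249) (nat_lit 2) (.n (nat_lit 250) (nat_lit 1) (.p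 (nat_lit 251) (nat_lit 1) (.p (nat_lit 253) (nat_lit 2) (.n (nat_lit 254) (nat_lit 2) (.n (nat_lit 257) (nat_lit 1) (.p (nat_lit 259) (nat_lit 1) (.n (nat_lit 261) (nat_lit 1) (.p (nat_lit 262) (nat_lit 3) (.p (nat_lit 263) (nat_lit 1) (.n (nat_lit 266) (nat_lit 2) (.n (nat_lit 267) (nat_lit 1) (.n (nat_lit 269) (nat_lit 1) .z)))))))))))))))))))))))))))))))))))))))))) .nil)))))))))))))))))))))))))

noncomputable def dC2c_i117 : IL := (.e true (nat_lit 2) (nat_lit 140) (nat_lit 7) (nat_lit 9) (.e false (nat_lit 1) (nat_lit 144) (nat_lit 7) (nat_lit 9) (.e false (nat_lit 1) (nat_lit 253) (nat_lit 2) (nat_lit 14) (.e false (nat_lit 1) (nat_lit 257) (nat_lit 2) (nat_lit 14) (.e true (nat_lit 2) (nat_lit 262) (nat_lit 2) (nat_lit 14) (.e false (nat_lit 3) (nat_lit 266) (nat_lit 2) (nat_lit 14) (.e true (nat_lit 1) (nat_lit 269) (nat_lit 2) (nat_lit 14) (.e true (nat_lit 2) (nat_lit 277) (nat_lit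 2) (nat_lit 14) (.e true (nat_lit 1) (nat_lit 283) (nat_lit 2) (nat_lit 14) (.e false (nat_lit 2) (nat_lit 285) (nat_lit 2) (nat_lit 14) (.e false (nat_lit 1) (nat_lit 136) (nat_lit 7) (nat_lit 9) (.e true (nat_lit 3) (nat_lit 145) (nat_lit 7) (nat_lit 9) (.e true (nat_lit 2) (nat_lit 273) (nat_lit 2) (nat_lit 14) (.e false (nat_lit 2) (nat_lit 307) (nat_lit 1) (nat_lit 15) (.e false (nat_lit 1) (nat_lit 308) (nat_lit 1) (nat_lit 15) (.e false (nat_lit 1) (nat_lit 309) (nat_lit 1) (nat_lit 15) (.e true (nat_lit 1) (nat_lit 310) (nat_lit 1) (nat_lit 15) (.e true (nat_lit 3) (nat_lit 311) (nat_lit 1) (nat_lit 15) (.e true (nat_lit 3) (nat_lit 312) (nat_lit 1) (nat_lit 15) (.e false (nat_lit 2) (nat_lit 313) (nat_lit 1) (nat_lit 15) (.e true (nat_lit 2) (nat_lit 315) (nat_lit 1) (nat_lit 15) (.e false (nat_lit 3) (nat_lit 318) (nat_lit 1) (nat_lit 15) (.e false (nat_lit 1) (nat_lit 321) (nat_lit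 1) (nat_lit 15) (.e true (nat_lit 1) (nat_lit 323) (nat_lit 1) (nat_lit 15) (.e false (nat_lit 2) (nat_lit 66) (nat_lit 20) (nat_lit 3) dC2c_i116)))))))))))))))))))))))))

noncomputable def dC2c_i118 : IL := (.s false (nat_lit 3) (nat_lit 84) (nat_lit 1) (nat_lit 2) (nat_lit 2) true (nat_lit 10) true (nat_lit 14) false (nat_lit 4) true (nat_lit 15) true (nat_lit 14) (.s true (nat_lit 1) (nat_lit 85) (nat_lit 1) (nat_lit 2) (nat_lit 2) true (nat_lit 10) true (nat_lit 14) false (nat_lit 4) true (nat_lit 15) true (nat_lit 14) (.s true (nat_lit 1) (nat_lit 89) (nat_lit 2) (nat_lit 1) (nat_lit 2) true (nat_lit 9) true (nat_lit 14) false (nat_lit 4) true (nat_lit 14) true (nat_lit 15) (.s false (nat_lit 3) (nat_lit 90) (nat_lit 2) (nat_lit 2) (nat_lit 1) true (nat_lit 10) true (nat_lit 15) false (nat_lit 4) true (nat_lit 14) true (nat_lit 14) (.s true (nat_lit 3) (nat_lit 91) (nat_lit 0) (nat_lit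 2) (nat_lit 2) true (nat_lit 11) true (nat_lit 14) false (nat_lit 5) true (nat_lit 16) true (nat_lit 14) (.s true (nat_lit 3) (nat_lit 92) (nat_lit 0) (nat_lit 2) (nat_lit 2) true (nat_lit 11) true (nat_lit 14) false (nat_lit 5) true (nat_lit 16) true (nat_lit 14) (.s false (nat_lit 3) (nat_lit 93) (nat_lit 0) (nat_lit 2) (nat_lit 2) true (nat_lit 11) true (nat_lit 14) false (nat_lit 5) true (nat_lit 16) true (nat_lit 14) (.s false (nat_lit 1) (nat_lit 96) (nat_lit 0) (nat_lit 2) (nat_lit 2) true (nat_lit 11) true (nat_lit 14) false (nat_lit 5) true (nat_lit 16) true (nat_lit 14) (.s false (nat_lit 2) (nat_lit 96) (nat_lit 2) (nat_lit 2) (nat_lit 0) true (nat_lit 11) true (nat_lit 16) false (nat_lit 5) true (nat_lit 14) true (nat_lit 14) (.s false (nat_lit 3) (nat_lit 103) (nat_lit 1) (nat_lit 2) (nat_lit 0) true (nat_lit 13) true (nat_lit 16) false (nat_lit 7) true (nat_lit 15) true (nat_lit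 14) (.e false (nat_lit 2) (nat_lit 252) (nat_lit 2) (nat_lit 14) (.e false (nat_lit 2) (nat_lit 254) (nat_lit 2) (nat_lit 14) (.e false (nat_lit 3) (nat_lit 255) (nat_lit 2) (nat_lit 14) (.e false (nat_lit 2) (nat_lit 258) (nat_lit 2) (nat_lit 14) (.e true (nat_lit 3) (nat_lit 259) (nat_lit 2) (nat_lit 14) (.e false (nat_lit 3) (nat_lit 261) (nat_lit 2) (nat_lit 14) (.e false (nat_lit 1) (nat_lit 263) (nat_lit 2) (nat_lit 14) (.e false (nat_lit 1) (nat_lit 264) (nat_lit 2) (nat_lit 14) (.e true (nat_lit 3) (nat_lit 265) (nat_lit 2) (nat_lit 14) (.e true (nat_lit 2) (nat_lit 267) (nat_lit 2) (nat_lit 14) (.e false (nat_lit 1) (nat_lit 270) (nat_lit 2) (nat_lit 14) (.e true (nat_lit 3) (nat_lit 274) (nat_lit 2) (nat_lit 14) (.e true (nat_lit 2) (nat_lit 275) (nat_lit 2) (nat_lit 14) (.e false (nat_lit 1) (nat_lit 272) (nat_lit 2) (nat_lit 14) (.e false (nat_lit 1) (nat_lit 138) (nat_lit 7)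 (nat_lit 9) dC2c_i117)))))))))))))))))))))))))

noncomputable def dC2c_i119 : IL := (.s false (nat_lit 2) (nat_lit 20) (nat_lit 2) (nat_lit 14) (nat_lit 0) true (nat_lit 11) true (nat_lit 16) true (nat_lit 3) true (nat_lit 14) true (nat_lit 6) (.s false (nat_lit 3) (nat_lit 20) (nat_lit 3) (nat_lit 1) (nat_lit 7) true (nat_lit 1) true (nat_lit 9) true (nat_lit 3) true (nat_lit 13) true (nat_lit 15) (.s true (nat_lit 3) (nat_lit 20) (nat_lit 13) (nat_lit 1) (nat_lit 2) true (nat_lit 1) true (nat_lit 14) true (nat_lit 3) true (nat_lit 7) true (nat_lit 15) (.s true (nat_lit 3) (nat_lit 25) (nat_lit 2) (nat_lit 2) (nat_lit 7) true (nat_lit 3) true (nat_lit 9) true (nat_lit 2) true (nat_lit 14) true (nat_lit 14) (.s false (nat_lit 3) (nat_lit 27) (nat_lit 2) (nat_lit 2) (nat_lit 7) true (nat_lit 3) true (nat_lit 9) true (nat_lit 2) true (nat_lit 14) true (nat_lit 14) (.s false (nat_lit 2) (nat_lit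 27) (nat_lit 2) (nat_lit 7) (nat_lit 2) true (nat_lit 9) true (nat_lit 14) true (nat_lit 2) true (nat_lit 14) true (nat_lit 9) (.s false (nat_lit 2) (nat_lit 27) (nat_lit 7) (nat_lit 2) (nat_lit 2) true (nat_lit 3) true (nat_lit 14) true (nat_lit 2) true (nat_lit 9) true (nat_lit 14) (.s false (nat_lit 1) (nat_lit 35) (nat_lit 1) (nat_lit 2) (nat_lit 7) true (nat_lit 4) true (nat_lit 9) true (nat_lit 1) true (nat_lit 15) true (nat_lit 14) (.s true (nat_lit 3) (nat_lit 37) (nat_lit 1) (nat_lit 2) (nat_lit 7) true (nat_lit 4) true (nat_lit 9) true (nat_lit 1) true (nat_lit 15) true (nat_lit 14) (.s false (nat_lit 1) (nat_lit 38) (nat_lit 1) (nat_lit 2) (nat_lit 7) true (nat_lit 4) true (nat_lit 9) true (nat_lit 1) true (nat_lit 15) true (nat_lit 14) (.s false (nat_lit 1) (nat_lit 35) (nat_lit 2) (nat_lit 2) (nat_lit 6) true (nat_lit 4) true (nat_lit 10) true (nat_lit 1) true (nat_lit 14)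 true (nat_lit 14) (.s true (nat_lit 3) (nat_lit 37) (nat_lit 2) (nat_lit 2) (nat_lit 6) true (nat_lit 4) true (nat_lit 10) true (nat_lit 1) true (nat_lit 14) true (nat_lit 14) (.s false (nat_lit 1) (nat_lit 38) (nat_lit 2) (nat_lit 2) (nat_lit 6) true (nat_lit 4) true (nat_lit 10) true (nat_lit 1) true (nat_lit 14) true (nat_lit 14) (.s false (nat_lit 3) (nat_lit 35) (nat_lit 2) (nat_lit 7) (nat_lit 1) true (nat_lit 10) true (nat_lit 15) true (nat_lit 1) true (nat_lit 14) true (nat_lit 9) (.s true (nat_lit 1) (nat_lit 34) (nat_lit 6) (nat_lit 2) (nat_lit 2) true (nat_lit 4) true (nat_lit 14) true (nat_lit 1) true (nat_lit 10) true (nat_lit 14) (.s true (nat_lit 2) (nat_lit 39) (nat_lit 0) (nat_lit 2) (nat_lit 7) true (nat_lit 5) true (nat_lit 9) true (nat_lit 0) true (nat_lit 16) true (nat_lit 14) (.s false (nat_lit 3) (nat_lit 39) (nat_lit 2) (nat_lit 2) (nat_lit 5) true (nat_lit 5) true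 (nat_lit 11) true (nat_lit 0) true (nat_lit 14) true (nat_lit 14) (.s true (nat_lit 3) (nat_lit 47) (nat_lit 2) (nat_lit 2) (nat_lit 3) true (nat_lit 7) true (nat_lit 13) false (nat_lit 1) true (nat_lit 14) true (nat_lit 14) (.s false (nat_lit 3) (nat_lit 48) (nat_lit 3) (nat_lit 1) (nat_lit 2) true (nat_lit 7) true (nat_lit 14) false (nat_lit 2) true (nat_lit 13) true (nat_lit 15) (.s true (nat_lit 3) (nat_lit 48) (nat_lit 3) (nat_lit 2) (nat_lit 1) true (nat_lit 8) true (nat_lit 15) false (nat_lit 2) true (nat_lit 13) true (nat_lit 14) (.s false (nat_lit 1) (nat_lit 67) (nat_lit 2) (nat_lit 2) (nat_lit 2) true (nat_lit 9) true (nat_lit 14) false (nat_lit 3) true (nat_lit 14) true (nat_lit 14) (.s true (nat_lit 1) (nat_lit 68) (nat_lit 2) (nat_lit 2) (nat_lit 2) true (nat_lit 9) true (nat_lit 14) false (nat_lit 3) true (nat_lit 14) true (nat_lit 14) (.s false (nat_lit 2) (nat_lit 70) (nat_lit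 2) (nat_lit 2) (nat_lit 2) true (nat_lit 9) true (nat_lit 14) false (nat_lit 3) true (nat_lit 14) true (nat_lit 14) (.s false (nat_lit 2) (nat_lit 71) (nat_lit 2) (nat_lit 2) (nat_lit 2) true (nat_lit 9) true (nat_lit 14) false (nat_lit 3) true (nat_lit 14) true (nat_lit 14) (.s true (nat_lit 1) (nat_lit 82) (nat_lit 1) (nat_lit 2) (nat_lit 2) true (nat_lit 10) true (nat_lit 14) false (nat_lit 4) true (nat_lit 15) true (nat_lit 14) dC2c_i118)))))))))))))))))))))))))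

noncomputable def dC2c_i120 : IL := (.e true (nat_lit 3) (nat_lit 106) (nat_lit 2) (nat_lit 12) (.e true (nat_lit 2) (nat_lit 117) (nat_lit 2) (nat_lit 12) (.e false (nat_lit 2) (nat_lit 130) (nat_lit 2) (nat_lit 12) (.e true (nat_lit 2) (nat_lit 129) (nat_lit 2) (nat_lit 12) (.e false (nat_lit 2) (nat_lit 25) (nat_lit 19) (nat_lit 1) (.e false (nat_lit 2) (nat_lit 27) (nat_lit 19) (nat_lit 1) (.e false (nat_lit 2) (nat_lit 50) (nat_lit 7) (nat_lit 7) (.e true (nat_lit 1) (nat_lit 51) (nat_lit 7) (nat_lit 7) (.e false (nat_lit 2) (nat_lit 52) (nat_lit 7) (nat_lit 7) (.e false (nat_lit 3) (nat_lit 133) (nat_lit 1) (nat_lit 13) (.e false (nat_lit 3) (nat_lit 138) (nat_lit 1) (nat_lit 13) (.e true (nat_lit 3) (nat_lit 140) (nat_lit 1) (nat_lit 13) (.e false (nat_lit 3) (nat_lit 113) (nat_lit 2) (nat_lit 12) (.e false (nat_lit 2) (nat_lit 115) (nat_lit 2) (nat_lit 12) (.e false (nat_lit 1)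 (nat_lit 118) (nat_lit 2) (nat_lit 12) (.e true (nat_lit 1) (nat_lit 120) (nat_lit 2) (nat_lit 12) (.e true (nat_lit 3) (nat_lit 128) (nat_lit 2) (nat_lit 12) (.e true (nat_lit 3) (nat_lit 124) (nat_lit 2) (nat_lit 12) (.e true (nat_lit 3) (nat_lit 60) (nat_lit 6) (nat_lit 8) (.e false (nat_lit 3) (nat_lit 67) (nat_lit 6) (nat_lit 8) (.e false (nat_lit 1) (nat_lit 45) (nat_lit 8) (nat_lit 6) (.e false (nat_lit 1) (nat_lit 24) (nat_lit 19) (nat_lit 1) (.e true (nat_lit 1) (nat_lit 47) (nat_lit 8) (nat_lit 6) (.u (nat_lit 2) (.p (nat_lit 0) (nat_lit 2) (.n (nat_lit 1) (nat_lit 1) (.n (nat_lit 2) (nat_lit 1) (.p (nat_lit 3) (nat_lit 2) (.p (nat_lit 4) (nat_lit 1) (.p (nat_lit 5) (nat_lit 1) (.p (nat_lit 6) (nat_lit 1) (.n (nat_lit 7) (nat_lit 1) (.p (nat_lit 9) (nat_lit 1) (.n (nat_lit 11) (nat_lit 2) (.p (nat_lit 12) (nat_lit 2) (.p (nat_lit 13) (nat_lit 2) (.p (nat_lit 14) (nat_lit 1) (.n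 (nat_lit 16) (nat_lit 2) (.p (nat_lit 17) (nat_lit 2) (.n (nat_lit 21) (nat_lit 2) (.n (nat_lit 22) (nat_lit 2) (.n (nat_lit 23) (nat_lit 1) (.n (nat_lit 24) (nat_lit 1) (.n (nat_lit 25) (nat_lit 3) (.n (nat_lit 27) (nat_lit 1) (.p (nat_lit 38) (nat_lit 1) (.n (nat_lit 40) (nat_lit 1) (.p (nat_lit 41) (nat_lit 1) (.p (nat_lit 43) (nat_lit 1) (.p (nat_lit 44) (nat_lit 1) (.p (nat_lit 49) (nat_lit 1) (.p (nat_lit 52) (nat_lit 1) (.n (nat_lit 53) (nat_lit 1) (.n (nat_lit 57) (nat_lit 1) (.p (nat_lit 74) (nat_lit 1) (.n (nat_lit 77) (nat_lit 1) (.n (nat_lit 81) (nat_lit 1) (.n (nat_lit 98) (nat_lit 1) (.p (nat_lit 99) (nat_lit 1) (.p (nat_lit 101) (nat_lit 2) (.n (nat_lit 103) (nat_lit 1) (.p (nat_lit 105) (nat_lit 1) (.p (nat_lit 106) (nat_lit 2) (.n (nat_lit 108) (nat_lit 1) (.p (nat_lit 109) (nat_lit 1) (.n (nat_lit 118) (nat_lit 1) (.n (nat_lit 120) (nat_lit 1) (.n (nat_lit 128) (nat_lit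 1) (.n (nat_lit 141) (nat_lit 1) (.n (nat_lit 142) (nat_lit 1) (.p (nat_lit 143) (nat_lit 1) (.n (nat_lit 146) (nat_lit 8) (.p (nat_lit 147) (nat_lit 5) (.p (nat_lit 148) (nat_lit 3) (.p (nat_lit 149) (nat_lit 7) (.p (nat_lit 150) (nat_lit 4) (.p (nat_lit 151) (nat_lit 1) (.p (nat_lit 153) (nat_lit 1) (.n (nat_lit 155) (nat_lit 3) (.n (nat_lit 156) (nat_lit 1) (.n (nat_lit 157) (nat_lit 9) (.p (nat_lit 158) (nat_lit 3) (.n (nat_lit 159) (nat_lit 8) (.n (nat_lit 160) (nat_lit 3) .z)))))))))))))))))))))))))))))))))))))))))))))))))))))))))))) (.u (nat_lit 2) (.p (nat_lit 162) (nat_lit 1) (.p (nat_lit 163) (nat_lit 6) (.n (nat_lit 165) (nat_lit 1) (.n (nat_lit 166) (nat_lit 7) (.n (nat_lit 167) (nat_lit 1) (.p (nat_lit 168) (nat_lit 1) (.p (nat_lit 169) (nat_lit 1) (.p (nat_lit 170) (nat_lit 4) (.n (nat_lit 172) (nat_lit 2) (.n (nat_lit 173) (nat_lit 1) (.n (nat_lit 174) (nat_lit 2) (.p (nat_lit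 175) (nat_lit 3) (.n (nat_lit 176) (nat_lit 4) (.p (nat_lit 178) (nat_lit 1) (.n (nat_lit 181) (nat_lit 1) (.p (nat_lit 183) (nat_lit 1) (.p (nat_lit 184) (nat_lit 2) (.n (nat_lit 186) (nat_lit 2) (.n (nat_lit 187) (nat_lit 1) (.p (nat_lit 189) (nat_lit 4) (.n (nat_lit 190) (nat_lit 4) (.n (nat_lit 191) (nat_lit 1) (.n (nat_lit 192) (nat_lit 2) (.n (nat_lit 193) (nat_lit 4) (.p (nat_lit 194) (nat_lit 3) (.p (nat_lit 195) (nat_lit 2) (.p (nat_lit 196) (nat_lit 1) (.p (nat_lit 197) (nat_lit 3) (.n (nat_lit 198) (nat_lit 1) (.n (nat_lit 200) (nat_lit 1) (.p (nat_lit 201) (nat_lit 1) (.p (nat_lit 202) (nat_lit 1) (.n (nat_lit 203) (nat_lit 1) (.p (nat_lit 207) (nat_lit 1) .z)))))))))))))))))))))))))))))))))) .nil)))))))))))))))))))))))))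

noncomputable def dC2c_i121 : IL := (.e false (nat_lit 3) (nat_lit 61) (nat_lit 6) (nat_lit 8) (.e true (nat_lit 3) (nat_lit 63) (nat_lit 6) (nat_lit 8) (.e true (nat_lit 3) (nat_lit 72) (nat_lit 6) (nat_lit 8) (.e false (nat_lit 1) (nat_lit 134) (nat_lit 1) (nat_lit 13) (.e true (nat_lit 3) (nat_lit 135) (nat_lit 1) (nat_lit 13) (.e false (nat_lit 2) (nat_lit 155) (nat_lit 1) (nat_lit 13) (.e true (nat_lit 2) (nat_lit 132) (nat_lit 1) (nat_lit 13) (.e false (nat_lit 2) (nat_lit 153) (nat_lit 1) (nat_lit 13) (.e false (nat_lit 3) (nat_lit 25) (nat_lit 18) (nat_lit 1) (.e false (nat_lit 1) (nat_lit 27) (nat_lit 18) (nat_lit 1) (.e false (nat_lit 1) (nat_lit 107) (nat_lit 2) (nat_lit 12) (.e false (nat_lit 2) (nat_lit 111) (nat_lit 2) (nat_lit 12) (.e false (nat_lit 2) (nat_lit 119) (nat_lit 2) (nat_lit 12) (.e true (nat_lit 3) (nat_lit 122) (nat_lit 2) (nat_lit 12) (.e true (nat_lit 3)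 (nat_lit 109) (nat_lit 2) (nat_lit 12) (.e false (nat_lit 2) (nat_lit 110) (nat_lit 2) (nat_lit 12) (.e true (nat_lit 3) (nat_lit 114) (nat_lit 2) (nat_lit 12) (.e false (nat_lit 2) (nat_lit 123) (nat_lit 2) (nat_lit 12) (.e false (nat_lit 3) (nat_lit 126) (nat_lit 2) (nat_lit 12) (.e true (nat_lit 2) (nat_lit 127) (nat_lit 2) (nat_lit 12) (.e false (nat_lit 2) (nat_lit 22) (nat_lit 20) (nat_lit 0) (.e true (nat_lit 2) (nat_lit 23) (nat_lit 20) (nat_lit 0) (.e true (nat_lit 1) (nat_lit 53) (nat_lit 7) (nat_lit 7) (.e true (nat_lit 3) (nat_lit 55) (nat_lit 7) (nat_lit 7) (.e true (nat_lit 2) (nat_lit 59) (nat_lit 7) (nat_lit 7) dC2c_i120)))))))))))))))))))))))))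

noncomputable def dC2c_i122 : IL := (.s false (nat_lit 3) (nat_lit 16) (nat_lit 1) (nat_lit 1) (nat_lit 6) true (nat_lit 3) true (nat_lit 8) true (nat_lit 2) true (nat_lit 13) true (nat_lit 13) (.s false (nat_lit 1) (nat_lit 18) (nat_lit 1) (nat_lit 2) (nat_lit 3) true (nat_lit 6) true (nat_lit 11) true (nat_lit 1) true (nat_lit 13) true (nat_lit 12) (.s true (nat_lit 1) (nat_lit 19) (nat_lit 1) (nat_lit 3) (nat_lit 2) true (nat_lit 8) true (nat_lit 12) true (nat_lit 1) true (nat_lit 13) true (nat_lit 11) (.s false (nat_lit 3) (nat_lit 18) (nat_lit 2) (nat_lit 1) (nat_lit 3) true (nat_lit 4) true (nat_lit 11) true (nat_lit 1) true (nat_lit 12) true (nat_lit 13) (.s true (nat_lit 1) (nat_lit 20) (nat_lit 1) (nat_lit 1) (nat_lit 3) true (nat_lit 6) true (nat_lit 11) true (nat_lit 0) true (nat_lit 13) true (nat_lit 13) (.s true (nat_lit 1) (nat_lit 26) (nat_lit 2) (nat_lit 1) (nat_lit 2)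 true (nat_lit 7) true (nat_lit 12) false (nat_lit 1) true (nat_lit 12) true (nat_lit 13) (.s true (nat_lit 1) (nat_lit 28) (nat_lit 2) (nat_lit 1) (nat_lit 2) true (nat_lit 7) true (nat_lit 12) false (nat_lit 1) true (nat_lit 12) true (nat_lit 13) (.s false (nat_lit 3) (nat_lit 29) (nat_lit 2) (nat_lit 1) (nat_lit 2) true (nat_lit 7) true (nat_lit 12) false (nat_lit 1) true (nat_lit 12) true (nat_lit 13) (.s true (nat_lit 2) (nat_lit 26) (nat_lit 2) (nat_lit 2) (nat_lit 1) true (nat_lit 8) true (nat_lit 13) false (nat_lit 1) true (nat_lit 12) true (nat_lit 12) (.s true (nat_lit 2) (nat_lit 29) (nat_lit 2) (nat_lit 2) (nat_lit 1) true (nat_lit 8) true (nat_lit 13) false (nat_lit 1) true (nat_lit 12) true (nat_lit 12) (.s false (nat_lit 2) (nat_lit 30) (nat_lit 0) (nat_lit 2) (nat_lit 2) true (nat_lit 9) true (nat_lit 12) false (nat_lit 2) true (nat_lit 14) true (nat_lit 12) (.s false (nat_lit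 3) (nat_lit 31) (nat_lit 2) (nat_lit 0) (nat_lit 2) true (nat_lit 7) true (nat_lit 12) false (nat_lit 2) true (nat_lit 12) true (nat_lit 14) (.s true (nat_lit 2) (nat_lit 32) (nat_lit 2) (nat_lit 0) (nat_lit 2) true (nat_lit 7) true (nat_lit 12) false (nat_lit 2) true (nat_lit 12) true (nat_lit 14) (.s true (nat_lit 3) (nat_lit 30) (nat_lit 2) (nat_lit 2) (nat_lit 0) true (nat_lit 9) true (nat_lit 14) false (nat_lit 2) true (nat_lit 12) true (nat_lit 12) (.s true (nat_lit 3) (nat_lit 33) (nat_lit 1) (nat_lit 2) (nat_lit 1) true (nat_lit 10) true (nat_lit 13) false (nat_lit 3) true (nat_lit 13) true (nat_lit 12) (.s false (nat_lit 3) (nat_lit 34) (nat_lit 1) (nat_lit 2) (nat_lit 1) true (nat_lit 10) true (nat_lit 13) false (nat_lit 3) true (nat_lit 13) true (nat_lit 12) (.s true (nat_lit 3) (nat_lit 33) (nat_lit 2) (nat_lit 1) (nat_lit 1) true (nat_lit 8) true (nat_lit 13) false (nat_lit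 3) true (nat_lit 12) true (nat_lit 13) (.s true (nat_lit 2) (nat_lit 38) (nat_lit 2) (nat_lit 1) (nat_lit 1) true (nat_lit 8) true (nat_lit 13) false (nat_lit 3) true (nat_lit 12) true (nat_lit 13) (.s true (nat_lit 3) (nat_lit 39) (nat_lit 0) (nat_lit 2) (nat_lit 1) true (nat_lit 11) true (nat_lit 13) false (nat_lit 4) true (nat_lit 14) true (nat_lit 12) (.s false (nat_lit 1) (nat_lit 41) (nat_lit 0) (nat_lit 2) (nat_lit 1) true (nat_lit 11) true (nat_lit 13) false (nat_lit 4) true (nat_lit 14) true (nat_lit 12) (.s false (nat_lit 2) (nat_lit 40) (nat_lit 1) (nat_lit 0) (nat_lit 2) true (nat_lit 8) true (nat_lit 12) false (nat_lit 4) true (nat_lit 13) true (nat_lit 14) (.s true (nat_lit 2) (nat_lit 41) (nat_lit 1) (nat_lit 0) (nat_lit 2) true (nat_lit 8) true (nat_lit 12) false (nat_lit 4) true (nat_lit 13) true (nat_lit 14) (.s true (nat_lit 3) (nat_lit 40) (nat_lit 1) (nat_lit 2) (nat_lit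 0) true (nat_lit 11) true (nat_lit 14) false (nat_lit 4) true (nat_lit 13) true (nat_lit 12) (.s false (nat_lit 3) (nat_lit 40) (nat_lit 2) (nat_lit 1) (nat_lit 0) true (nat_lit 9) true (nat_lit 14) false (nat_lit 4) true (nat_lit 12) true (nat_lit 13) (.s false (nat_lit 2) (nat_lit 45) (nat_lit 1) (nat_lit 1) (nat_lit 0) true (nat_lit 11) true (nat_lit 14) false (nat_lit 6) true (nat_lit 13) true (nat_lit 13) dC2c_i121)))))))))))))))))))))))))

noncomputable def dC2c_i123 : IL := (.s false (nat_lit 3) (nat_lit 9) (nat_lit 2) (nat_lit 2) (nat_lit 6) true (nat_lit 1) true (nat_lit 8) true (nat_lit 6) true (nat_lit 12) true (nat_lit 12) (.s true (nat_lit 2) (nat_lit 9) (nat_lit 2) (nat_lit 6) (nat_lit 2) true (nat_lit 7) true (nat_lit 12) true (nat_lit 6) true (nat_lit 12) true (nat_lit 8) (.s true (nat_lit 3) (nat_lit 10) (nat_lit 0) (nat_lit 7) (nat_lit 2) true (nat_lit 9) true (nat_lit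 12) true (nat_lit 5) true (nat_lit 14) true (nat_lit 7) (.s true (nat_lit 1) (nat_lit 10) (nat_lit 2) (nat_lit 5) (nat_lit 2) true (nat_lit 7) true (nat_lit 12) true (nat_lit 5) true (nat_lit 12) true (nat_lit 9) (.s false (nat_lit 3) (nat_lit 10) (nat_lit 2) (nat_lit 7) (nat_lit 0) true (nat_lit 9) true (nat_lit 14) true (nat_lit 5) true (nat_lit 12) true (nat_lit 7) (.s false (nat_lit 1) (nat_lit 10) (nat_lit 5) (nat_lit 2) (nat_lit 2) true (nat_lit 2) true (nat_lit 12) true (nat_lit 5) true (nat_lit 9) true (nat_lit 12) (.s true (nat_lit 3) (nat_lit 10) (nat_lit 7) (nat_lit 0) (nat_lit 2) true (nat_lit 0) true (nat_lit 12) true (nat_lit 5) true (nat_lit 7) true (nat_lit 14) (.s false (nat_lit 3) (nat_lit 10) (nat_lit 7) (nat_lit 2) (nat_lit 0) true (nat_lit 2) true (nat_lit 14) true (nat_lit 5) true (nat_lit 7) true (nat_lit 12) (.s false (nat_lit 1) (nat_lit 11) (nat_lit 1) (nat_lit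 2) (nat_lit 6) true (nat_lit 3) true (nat_lit 8) true (nat_lit 4) true (nat_lit 13) true (nat_lit 12) (.s true (nat_lit 1) (nat_lit 12) (nat_lit 1) (nat_lit 2) (nat_lit 6) true (nat_lit 3) true (nat_lit 8) true (nat_lit 4) true (nat_lit 13) true (nat_lit 12) (.s false (nat_lit 3) (nat_lit 11) (nat_lit 1) (nat_lit 6) (nat_lit 2) true (nat_lit 8) true (nat_lit 12) true (nat_lit 4) true (nat_lit 13) true (nat_lit 8) (.s false (nat_lit 1) (nat_lit 13) (nat_lit 2) (nat_lit 1) (nat_lit 6) true (nat_lit 1) true (nat_lit 8) true (nat_lit 4) true (nat_lit 12) true (nat_lit 13) (.s false (nat_lit 3) (nat_lit 11) (nat_lit 2) (nat_lit 4) (nat_lit 2) true (nat_lit 7) true (nat_lit 12) true (nat_lit 4) true (nat_lit 12) true (nat_lit 10) (.s true (nat_lit 3) (nat_lit 12) (nat_lit 2) (nat_lit 4) (nat_lit 2) true (nat_lit 7) true (nat_lit 12) true (nat_lit 4) true (nat_lit 12) true (nat_lit 10) (.s false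 (nat_lit 3) (nat_lit 11) (nat_lit 2) (nat_lit 6) (nat_lit 1) true (nat_lit 8) true (nat_lit 13) true (nat_lit 4) true (nat_lit 12) true (nat_lit 8) (.s false (nat_lit 3) (nat_lit 11) (nat_lit 4) (nat_lit 2) (nat_lit 2) true (nat_lit 3) true (nat_lit 12) true (nat_lit 4) true (nat_lit 10) true (nat_lit 12) (.s true (nat_lit 2) (nat_lit 11) (nat_lit 6) (nat_lit 2) (nat_lit 1) true (nat_lit 3) true (nat_lit 13) true (nat_lit 4) true (nat_lit 8) true (nat_lit 12) (.s true (nat_lit 1) (nat_lit 12) (nat_lit 6) (nat_lit 2) (nat_lit 1) true (nat_lit 3) true (nat_lit 13) true (nat_lit 4) true (nat_lit 8) true (nat_lit 12) (.s false (nat_lit 1) (nat_lit 15) (nat_lit 1) (nat_lit 5) (nat_lit 2) true (nat_lit 8) true (nat_lit 12) true (nat_lit 3) true (nat_lit 13) true (nat_lit 9) (.s true (nat_lit 2) (nat_lit 15) (nat_lit 1) (nat_lit 7) (nat_lit 0) true (nat_lit 11) true (nat_lit 14) true (nat_lit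 3) true (nat_lit 13) true (nat_lit 7) (.s true (nat_lit 3) (nat_lit 15) (nat_lit 2) (nat_lit 0) (nat_lit 6) true (nat_lit 1) true (nat_lit 8) true (nat_lit 3) true (nat_lit 12) true (nat_lit 14) (.s true (nat_lit 2) (nat_lit 15) (nat_lit 2) (nat_lit 1) (nat_lit 5) true (nat_lit 2) true (nat_lit 9) true (nat_lit 3) true (nat_lit 12) true (nat_lit 13) (.s true (nat_lit 2) (nat_lit 15) (nat_lit 2) (nat_lit 2) (nat_lit 3) true (nat_lit 4) true (nat_lit 11) true (nat_lit 3) true (nat_lit 12) true (nat_lit 12) (.s true (nat_lit 3) (nat_lit 14) (nat_lit 2) (nat_lit 3) (nat_lit 2) true (nat_lit 7) true (nat_lit 12) true (nat_lit 3) true (nat_lit 12) true (nat_lit 11) (.s false (nat_lit 2) (nat_lit 15) (nat_lit 2) (nat_lit 3) (nat_lit 2) true (nat_lit 7) true (nat_lit 12) true (nat_lit 3) true (nat_lit 12) true (nat_lit 11) dC2c_i122)))))))))))))))))))))))))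

noncomputable def dC2c_i124 : IL := (.e true (nat_lit 1) (nat_lit 213) (nat_lit 2) (nat_lit 16) (.e false (nat_lit 3) (nat_lit 214) (nat_lit 2) (nat_lit 16) (.e true (nat_lit 3) (nat_lit 215) (nat_lit 2) (nat_lit 16) (.e false (nat_lit 1) (nat_lit 216) (nat_lit 2) (nat_lit 16) (.e true (nat_lit 2) (nat_lit 218) (nat_lit 2) (nat_lit 16) (.e true (nat_lit 3) (nat_lit 219) (nat_lit 2) (nat_lit 16) (.e false (nat_lit 3) (nat_lit 221) (nat_lit 2) (nat_lit 16) (.e true (nat_lit 2) (nat_lit 222) (nat_lit 2) (nat_lit 16) (.e true (nat_lit 2) (nat_lit 225) (nat_lit 2) (nat_lit 16) (.e false (nat_lit 2) (nat_lit 226) (nat_lit 2) (nat_lit 16) (.e false (nat_lit 1) (nat_lit 227) (nat_lit 2) (nat_lit 16) (.e false (nat_lit 3) (nat_lit 228) (nat_lit 2) (nat_lit 16) (.e false (nat_lit 3) (nat_lit 229) (nat_lit 2) (nat_lit 16) (.e false (nat_lit 3) (nat_lit 230) (nat_lit 2) (nat_lit 16) (.e false (nat_lit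 1) (nat_lit 232) (nat_lit 2) (nat_lit 16) (.e false (nat_lit 1) (nat_lit 233) (nat_lit 2) (nat_lit 16) (.e true (nat_lit 1) (nat_lit 234) (nat_lit 2) (nat_lit 16) (.e true (nat_lit 1) (nat_lit 242) (nat_lit 2) (nat_lit 16) (.e false (nat_lit 1) (nat_lit 244) (nat_lit 2) (nat_lit 16) (.e false (nat_lit 3) (nat_lit 245) (nat_lit 2) (nat_lit 16) (.e true (nat_lit 3) (nat_lit 246) (nat_lit 2) (nat_lit 16) (.e true (nat_lit 3) (nat_lit 247) (nat_lit 2) (nat_lit 16) (.e true (nat_lit 3) (nat_lit 248) (nat_lit 2) (nat_lit 16) (.e true (nat_lit 1) (nat_lit 251) (nat_lit 2) (nat_lit 16) (.u (nat_lit 2) (.p (nat_lit 0) (nat_lit 1) (.p (nat_lit 1) (nat_lit 4) (.n (nat_lit 2) (nat_lit 2) (.p (nat_lit 3) (nat_lit 2) (.n (nat_lit 4) (nat_lit 6) (.n (nat_lit 5) (nat_lit 6) (.p (nat_lit 6) (nat_lit 1) (.p (nat_lit 7) (nat_lit 2) (.p (nat_lit 9) (nat_lit 2) (.n (nat_lit 10) (nat_lit 3) (.p (nat_lit 11)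 (nat_lit 3) (.p (nat_lit 12) (nat_lit 1) (.p (nat_lit 15) (nat_lit 4) (.p (nat_lit 16) (nat_lit 6) (.p (nat_lit 17) (nat_lit 3) (.p (nat_lit 18) (nat_lit 6) (.n (nat_lit 19) (nat_lit 2) (.n (nat_lit 20) (nat_lit 2) (.n (nat_lit 21) (nat_lit 3) (.p (nat_lit 22) (nat_lit 3) (.n (nat_lit 23) (nat_lit 4) (.p (nat_lit 24) (nat_lit 5) (.n (nat_lit 25) (nat_lit 3) (.n (nat_lit 27) (nat_lit 1) (.p (nat_lit 28) (nat_lit 3) (.n (nat_lit 29) (nat_lit 4) (.p (nat_lit 31) (nat_lit 3) (.n (nat_lit 32) (nat_lit 6) (.n (nat_lit 33) (nat_lit 1) (.p (nat_lit 34) (nat_lit 2) (.n (nat_lit 35) (nat_lit 1) (.n (nat_lit 36) (nat_lit 3) (.p (nat_lit 37) (nat_lit 2) (.p (nat_lit 38) (nat_lit 1) (.p (nat_lit 39) (nat_lit 1) (.n (nat_lit 40) (nat_lit 1) (.n (nat_lit 44) (nat_lit 1) (.n (nat_lit 45) (nat_lit 1) (.n (nat_lit 46) (nat_lit 5) (.p (nat_lit 47) (nat_lit 4) (.p (nat_lit 48) (nat_lit 4) .z)))))))))))))))))))))))))))))))))))))))))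 .nil)))))))))))))))))))))))))

noncomputable def dC2c_i125 : IL := (.e true (nat_lit 3) (nat_lit 261) (nat_lit 1) (nat_lit 17) (.e true (nat_lit 2) (nat_lit 262) (nat_lit 1) (nat_lit 17) (.e false (nat_lit 2) (nat_lit 263) (nat_lit 1) (nat_lit 17) (.e true (nat_lit 3) (nat_lit 264) (nat_lit 1) (nat_lit 17) (.e false (nat_lit 3) (nat_lit 265) (nat_lit 1) (nat_lit 17) (.e false (nat_lit 3) (nat_lit 267) (nat_lit 1) (nat_lit 17) (.e false (nat_lit 3) (nat_lit 269) (nat_lit 1) (nat_lit 17) (.e false (nat_lit 2) (nat_lit 270) (nat_lit 1) (nat_lit 17) (.e true (nat_lit 2) (nat_lit 271) (nat_lit 1) (nat_lit 17) (.e false (nat_lit 2) (nat_lit 272) (nat_lit 1) (nat_lit 17) (.e true (nat_lit 2) (nat_lit 273) (nat_lit 1) (nat_lit 17) (.e false (nat_lit 2) (nat_lit 274) (nat_lit 1) (nat_lit 17) (.e false (nat_lit 2) (nat_lit 276) (nat_lit 1) (nat_lit 17) (.e false (nat_lit 3) (nat_lit 277) (nat_lit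 1) (nat_lit 17) (.e false (nat_lit 3) (nat_lit 283) (nat_lit 1) (nat_lit 17) (.e false (nat_lit 1) (nat_lit 284) (nat_lit 1) (nat_lit 17) (.e true (nat_lit 2) (nat_lit 285) (nat_lit 1) (nat_lit 17) (.e true (nat_lit 1) (nat_lit 286) (nat_lit 1) (nat_lit 17) (.e false (nat_lit 1) (nat_lit 205) (nat_lit 2) (nat_lit 16) (.e false (nat_lit 3) (nat_lit 206) (nat_lit 2) (nat_lit 16) (.e true (nat_lit 1) (nat_lit 207) (nat_lit 2) (nat_lit 16) (.e true (nat_lit 3) (nat_lit 208) (nat_lit 2) (nat_lit 16) (.e true (nat_lit 2) (nat_lit 209) (nat_lit 2) (nat_lit 16) (.e false (nat_lit 1) (nat_lit 211) (nat_lit 2) (nat_lit 16) (.e true (nat_lit 3) (nat_lit 212) (nat_lit 2) (nat_lit 16) dC2c_i124)))))))))))))))))))))))))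

noncomputable def dC2c_i126 : IL := (.e true (nat_lit 1) (nat_lit 331) (nat_lit 0) (nat_lit 16) (.e false (nat_lit 1) (nat_lit 253) (nat_lit 2) (nat_lit 14) (.e false (nat_lit 3) (nat_lit 257) (nat_lit 2) (nat_lit 14) (.e false (nat_lit 1) (nat_lit 271) (nat_lit 2) (nat_lit 14) (.e false (nat_lit 1) (nat_lit 273) (nat_lit 2) (nat_lit 14) (.e false (nat_lit 3) (nat_lit 282) (nat_lit 2) (nat_lit 14) (.e false (nat_lit 3) (nat_lit 283) (nat_lit 2) (nat_lit 14) (.e true (nat_lit 1) (nat_lit 284) (nat_lit 2) (nat_lit 14) (.e true (nat_lit 1) (nat_lit 62) (nat_lit 20) (nat_lit 3) (.e true (nat_lit 2) (nat_lit 72) (nat_lit 20) (nat_lit 3) (.e true (nat_lit 3) (nat_lit 318) (nat_lit 1) (nat_lit 15) (.e false (nat_lit 1) (nat_lit 307) (nat_lit 1) (nat_lit 15) (.e false (nat_lit 2) (nat_lit 314) (nat_lit 1) (nat_lit 15) (.e true (nat_lit 3) (nat_lit 315) (nat_lit 1) (nat_lit 15) (.e false (nat_lit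 3) (nat_lit 308) (nat_lit 1) (nat_lit 15) (.e false (nat_lit 2) (nat_lit 310) (nat_lit 1) (nat_lit 15) (.e true (nat_lit 2) (nat_lit 305) (nat_lit 1) (nat_lit 15) (.e true (nat_lit 1) (nat_lit 309) (nat_lit 1) (nat_lit 15) (.e true (nat_lit 1) (nat_lit 311) (nat_lit 1) (nat_lit 15) (.e true (nat_lit 1) (nat_lit 312) (nat_lit 1) (nat_lit 15) (.e false (nat_lit 1) (nat_lit 333) (nat_lit 0) (nat_lit 16) (.e true (nat_lit 3) (nat_lit 319) (nat_lit 1) (nat_lit 15) (.e false (nat_lit 1) (nat_lit 48) (nat_lit 26) (nat_lit 2) (.u (nat_lit 2) (.n (nat_lit 0) (nat_lit 1) (.n (nat_lit 2) (nat_lit 4) (.n (nat_lit 3) (nat_lit 1) (.p (nat_lit 4) (nat_lit 2) (.n (nat_lit 5) (nat_lit 1) (.n (nat_lit 6) (nat_lit 3) (.n (nat_lit 7) (nat_lit 2) (.p (nat_lit 9) (nat_lit 2) (.p (nat_lit 10) (nat_lit 2) (.p (nat_lit 11) (nat_lit 2) (.p (nat_lit 12) (nat_lit 2) (.p (nat_lit 13) (nat_lit 5) (.p (nat_lit 14) (nat_lit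 4) (.n (nat_lit 15) (nat_lit 2) (.n (nat_lit 16) (nat_lit 2) (.p (nat_lit 17) (nat_lit 3) (.n (nat_lit 19) (nat_lit 2) (.n (nat_lit 21) (nat_lit 1) (.p (nat_lit 23) (nat_lit 3) (.p (nat_lit 24) (nat_lit 1) (.p (nat_lit 25) (nat_lit 1) (.p (nat_lit 31) (nat_lit 1) (.p (nat_lit 33) (nat_lit 1) (.p (nat_lit 34) (nat_lit 3) (.n (nat_lit 35) (nat_lit 1) (.p (nat_lit 38) (nat_lit 5) (.n (nat_lit 40) (nat_lit 1) (.n (nat_lit 41) (nat_lit 1) (.n (nat_lit 44) (nat_lit 1) (.n (nat_lit 75) (nat_lit 1) (.n (nat_lit 83) (nat_lit 1) (.n (nat_lit 85) (nat_lit 1) (.n (nat_lit 87) (nat_lit 1) (.p (nat_lit 106) (nat_lit 1) (.p (nat_lit 121) (nat_lit 1) (.p (nat_lit 122) (nat_lit 1) (.p (nat_lit 130) (nat_lit 1) (.n (nat_lit 133) (nat_lit 1) (.p (nat_lit 137) (nat_lit 1) (.p (nat_lit 139) (nat_lit 1) (.p (nat_lit 142) (nat_lit 1) (.p (nat_lit 144) (nat_lit 3) (.n (nat_lit 145) (nat_lit 1) (.p (nat_lit 146)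 (nat_lit 3) (.n (nat_lit 147) (nat_lit 2) (.p (nat_lit 148) (nat_lit 1) (.p (nat_lit 149) (nat_lit 1) (.n (nat_lit 150) (nat_lit 1) (.n (nat_lit 154) (nat_lit 2) (.n (nat_lit 159) (nat_lit 1) (.n (nat_lit 160) (nat_lit 3) (.n (nat_lit 161) (nat_lit 4) (.n (nat_lit 164) (nat_lit 1) (.n (nat_lit 165) (nat_lit 2) (.p (nat_lit 166) (nat_lit 3) (.n (nat_lit 167) (nat_lit 1) (.p (nat_lit 169) (nat_lit 1) (.p (nat_lit 180) (nat_lit 1) (.n (nat_lit 201) (nat_lit 1) (.p (nat_lit 204) (nat_lit 10) .z)))))))))))))))))))))))))))))))))))))))))))))))))))))))))))) (.u (nat_lit 2) (.n (nat_lit 205) (nat_lit 11) (.p (nat_lit 206) (nat_lit 21) (.n (nat_lit 207) (nat_lit 2) (.n (nat_lit 208) (nat_lit 8) (.p (nat_lit 209) (nat_lit 12) (.n (nat_lit 210) (nat_lit 6) (.n (nat_lit 211) (nat_lit 13) (.p (nat_lit 212) (nat_lit 20) (.n (nat_lit 213) (nat_lit 7) (.p (nat_lit 214) (nat_lit 9) (.p (nat_lit 215) (nat_lit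 7) (.p (nat_lit 216) (nat_lit 5) (.n (nat_lit 217) (nat_lit 8) (.n (nat_lit 218) (nat_lit 17) (.n (nat_lit 219) (nat_lit 1) (.p (nat_lit 221) (nat_lit 2) (.n (nat_lit 222) (nat_lit 13) (.p (nat_lit 223) (nat_lit 2) (.n (nat_lit 224) (nat_lit 22) (.p (nat_lit 225) (nat_lit 3) (.p (nat_lit 226) (nat_lit 9) (.p (nat_lit 227) (nat_lit 9) (.p (nat_lit 228) (nat_lit 3) (.p (nat_lit 229) (nat_lit 11) (.p (nat_lit 230) (nat_lit 2) (.n (nat_lit 231) (nat_lit 2) (.p (nat_lit 232) (nat_lit 1) (.p (nat_lit 234) (nat_lit 5) (.n (nat_lit 235) (nat_lit 1) (.p (nat_lit 237) (nat_lit 1) (.p (nat_lit 238) (nat_lit 2) (.n (nat_lit 239) (nat_lit 1) (.p (nat_lit 240) (nat_lit 1) (.p (nat_lit 241) (nat_lit 2) (.n (nat_lit 243) (nat_lit 5) (.n (nat_lit 244) (nat_lit 5) (.n (nat_lit 245) (nat_lit 3) (.p (nat_lit 246) (nat_lit 3) (.p (nat_lit 247) (nat_lit 4) (.p (nat_lit 248) (nat_lit 4) (.p (nat_lit 249) (nat_lit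 4) (.n (nat_lit 250) (nat_lit 2) (.p (nat_lit 251) (nat_lit 4) (.p (nat_lit 254) (nat_lit 1) (.p (nat_lit 259) (nat_lit 1) (.n (nat_lit 261) (nat_lit 1) (.n (nat_lit 262) (nat_lit 3) (.p (nat_lit 263) (nat_lit 4) (.n (nat_lit 264) (nat_lit 3) (.n (nat_lit 266) (nat_lit 8) (.p (nat_lit 267) (nat_lit 4) (.p (nat_lit 270) (nat_lit 1) .z)))))))))))))))))))))))))))))))))))))))))))))))))))) .nil)))))))))))))))))))))))))

noncomputable def dC2c_i127 : IL := (.s false (nat_lit 3) (nat_lit 105) (nat_lit 0) (nat_lit 1) (nat_lit 1) true (nat_lit 13) true (nat_lit 15) false (nat_lit 8) true (nat_lit 16) true (nat_lit 15) (.e false (nat_lit 2) (nat_lit 254) (nat_lit 2) (nat_lit 14) (.e false (nat_lit 3) (nat_lit 265) (nat_lit 2) (nat_lit 14) (.e false (nat_lit 1) (nat_lit 272) (nat_lit 2) (nat_lit 14) (.e false (nat_lit 3) (nat_lit 285) (nat_lit 2) (nat_lit 14) (.e true (nat_lit 3) (nat_lit 264) (nat_lit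 2) (nat_lit 14) (.e true (nat_lit 2) (nat_lit 255) (nat_lit 2) (nat_lit 14) (.e true (nat_lit 1) (nat_lit 258) (nat_lit 2) (nat_lit 14) (.e true (nat_lit 2) (nat_lit 261) (nat_lit 2) (nat_lit 14) (.e true (nat_lit 2) (nat_lit 263) (nat_lit 2) (nat_lit 14) (.e false (nat_lit 1) (nat_lit 267) (nat_lit 2) (nat_lit 14) (.e false (nat_lit 3) (nat_lit 270) (nat_lit 2) (nat_lit 14) (.e false (nat_lit 2) (nat_lit 275) (nat_lit 2) (nat_lit 14) (.e true (nat_lit 1) (nat_lit 313) (nat_lit 1) (nat_lit 15) (.e true (nat_lit 1) (nat_lit 134) (nat_lit 7) (nat_lit 9) (.e true (nat_lit 3) (nat_lit 317) (nat_lit 1) (nat_lit 15) (.e false (nat_lit 3) (nat_lit 152) (nat_lit 7) (nat_lit 9) (.e false (nat_lit 3) (nat_lit 153) (nat_lit 7) (nat_lit 9) (.e true (nat_lit 2) (nat_lit 324) (nat_lit 0) (nat_lit 16) (.e false (nat_lit 1) (nat_lit 325) (nat_lit 0) (nat_lit 16) (.e true (nat_lit 3) (nat_lit 326) (nat_lit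 0) (nat_lit 16) (.e true (nat_lit 1) (nat_lit 327) (nat_lit 0) (nat_lit 16) (.e false (nat_lit 2) (nat_lit 328) (nat_lit 0) (nat_lit 16) (.e true (nat_lit 3) (nat_lit 330) (nat_lit 0) (nat_lit 16) (.e true (nat_lit 2) (nat_lit 329) (nat_lit 0) (nat_lit 16) dC2c_i126)))))))))))))))))))))))))

noncomputable def dC2c_i128 : IL := (.s false (nat_lit 3) (nat_lit 86) (nat_lit 1) (nat_lit 2) (nat_lit 2) true (nat_lit 10) true (nat_lit 14) false (nat_lit 4) true (nat_lit 15) true (nat_lit 14) (.s false (nat_lit 2) (nat_lit 88) (nat_lit 1) (nat_lit 2) (nat_lit 2) true (nat_lit 10) true (nat_lit 14) false (nat_lit 4) true (nat_lit 15) true (nat_lit 14) (.s false (nat_lit 2) (nat_lit 89) (nat_lit 1) (nat_lit 2) (nat_lit 2) true (nat_lit 10) true (nat_lit 14) false (nat_lit 4) true (nat_lit 15) true (nat_lit 14) (.s false (nat_lit 1) (nat_lit 80) (nat_lit 2) (nat_lit 1) (nat_lit 2) true (nat_lit 9)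 true (nat_lit 14) false (nat_lit 4) true (nat_lit 14) true (nat_lit 15) (.s false (nat_lit 1) (nat_lit 81) (nat_lit 2) (nat_lit 1) (nat_lit 2) true (nat_lit 9) true (nat_lit 14) false (nat_lit 4) true (nat_lit 14) true (nat_lit 15) (.s false (nat_lit 1) (nat_lit 88) (nat_lit 2) (nat_lit 1) (nat_lit 2) true (nat_lit 9) true (nat_lit 14) false (nat_lit 4) true (nat_lit 14) true (nat_lit 15) (.s false (nat_lit 1) (nat_lit 80) (nat_lit 2) (nat_lit 2) (nat_lit 1) true (nat_lit 10) true (nat_lit 15) false (nat_lit 4) true (nat_lit 14) true (nat_lit 14) (.s false (nat_lit 1) (nat_lit 81) (nat_lit 2) (nat_lit 2) (nat_lit 1) true (nat_lit 10) true (nat_lit 15) false (nat_lit 4) true (nat_lit 14) true (nat_lit 14) (.s true (nat_lit 2) (nat_lit 89) (nat_lit 2) (nat_lit 2) (nat_lit 1) true (nat_lit 10) true (nat_lit 15) false (nat_lit 4) true (nat_lit 14) true (nat_lit 14) (.s false (nat_lit 1) (nat_lit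 91) (nat_lit 0) (nat_lit 2) (nat_lit 2) true (nat_lit 11) true (nat_lit 14) false (nat_lit 5) true (nat_lit 16) true (nat_lit 14) (.s true (nat_lit 1) (nat_lit 92) (nat_lit 0) (nat_lit 2) (nat_lit 2) true (nat_lit 11) true (nat_lit 14) false (nat_lit 5) true (nat_lit 16) true (nat_lit 14) (.s true (nat_lit 3) (nat_lit 91) (nat_lit 2) (nat_lit 2) (nat_lit 0) true (nat_lit 11) true (nat_lit 16) false (nat_lit 5) true (nat_lit 14) true (nat_lit 14) (.s false (nat_lit 3) (nat_lit 92) (nat_lit 2) (nat_lit 2) (nat_lit 0) true (nat_lit 11) true (nat_lit 16) false (nat_lit 5) true (nat_lit 14) true (nat_lit 14) (.s false (nat_lit 2) (nat_lit 96) (nat_lit 2) (nat_lit 2) (nat_lit 0) true (nat_lit 11) true (nat_lit 16) false (nat_lit 5) true (nat_lit 14) true (nat_lit 14) (.s false (nat_lit 3) (nat_lit 97) (nat_lit 1) (nat_lit 1) (nat_lit 2) true (nat_lit 10) true (nat_lit 14) false (nat_lit 6) true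 (nat_lit 15) true (nat_lit 15) (.s true (nat_lit 2) (nat_lit 98) (nat_lit 1) (nat_lit 2) (nat_lit 1) true (nat_lit 12) true (nat_lit 15) false (nat_lit 6) true (nat_lit 15) true (nat_lit 14) (.s true (nat_lit 2) (nat_lit 99) (nat_lit 1) (nat_lit 2) (nat_lit 1) true (nat_lit 12) true (nat_lit 15) false (nat_lit 6) true (nat_lit 15) true (nat_lit 14) (.s true (nat_lit 1) (nat_lit 100) (nat_lit 1) (nat_lit 2) (nat_lit 1) true (nat_lit 12) true (nat_lit 15) false (nat_lit 6) true (nat_lit 15) true (nat_lit 14) (.s false (nat_lit 3) (nat_lit 103) (nat_lit 0) (nat_lit 1) (nat_lit 2) true (nat_lit 11) true (nat_lit 14) false (nat_lit 7) true (nat_lit 16) true (nat_lit 15) (.s true (nat_lit 2) (nat_lit 102) (nat_lit 0) (nat_lit 2) (nat_lit 1) true (nat_lit 13) true (nat_lit 15) false (nat_lit 7) true (nat_lit 16) true (nat_lit 14) (.s true (nat_lit 2) (nat_lit 103) (nat_lit 0) (nat_lit 2) (nat_lit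 1) true (nat_lit 13) true (nat_lit 15) false (nat_lit 7) true (nat_lit 16) true (nat_lit 14) (.s true (nat_lit 2) (nat_lit 104) (nat_lit 0) (nat_lit 2) (nat_lit 1) true (nat_lit 13) true (nat_lit 15) false (nat_lit 7) true (nat_lit 16) true (nat_lit 14) (.s true (nat_lit 3) (nat_lit 102) (nat_lit 1) (nat_lit 2) (nat_lit 0) true (nat_lit 13) true (nat_lit 16) false (nat_lit 7) true (nat_lit 15) true (nat_lit 14) (.s true (nat_lit 3) (nat_lit 104) (nat_lit 1) (nat_lit 2) (nat_lit 0) true (nat_lit 13) true (nat_lit 16) false (nat_lit 7) true (nat_lit 15) true (nat_lit 14) (.s true (nat_lit 3) (nat_lit 103) (nat_lit 2) (nat_lit 1) (nat_lit 0) true (nat_lit 11) true (nat_lit 16) false (nat_lit 7) true (nat_lit 14) true (nat_lit 15) dC2c_i127)))))))))))))))))))))))))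

noncomputable def dC2c_i129 : IL := (.s false (nat_lit 1) (nat_lit 33) (nat_lit 7) (nat_lit 2) (nat_lit 1) true (nat_lit 4) true (nat_lit 15) true (nat_lit 1) true (nat_lit 9) true (nat_lit 14) (.s true (nat_lit 1) (nat_lit 40) (nat_lit 0) (nat_lit 2) (nat_lit 7) true (nat_lit 5) true (nat_lit 9) true (nat_lit 0) true (nat_lit 16) true (nat_lit 14) (.s true (nat_lit 1) (nat_lit 40) (nat_lit 2) (nat_lit 0) (nat_lit 7) true (nat_lit 3) true (nat_lit 9) true (nat_lit 0) true (nat_lit 14) true (nat_lit 16) (.s false (nat_lit 2) (nat_lit 39) (nat_lit 2) (nat_lit 2) (nat_lit 5) true (nat_lit 5) true (nat_lit 11) true (nat_lit 0) true (nat_lit 14) true (nat_lit 14) (.s false (nat_lit 1) (nat_lit 40) (nat_lit 2) (nat_lit 2) (nat_lit 5) true (nat_lit 5) true (nat_lit 11) true (nat_lit 0) true (nat_lit 14) true (nat_lit 14) (.s false (nat_lit 3) (nat_lit 40) (nat_lit 2) (nat_lit 5) (nat_lit 2) true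 (nat_lit 9) true (nat_lit 14) true (nat_lit 0) true (nat_lit 14) true (nat_lit 11) (.s false (nat_lit 2) (nat_lit 39) (nat_lit 2) (nat_lit 7) (nat_lit 0) true (nat_lit 11) true (nat_lit 16) true (nat_lit 0) true (nat_lit 14) true (nat_lit 9) (.s true (nat_lit 3) (nat_lit 40) (nat_lit 7) (nat_lit 2) (nat_lit 0) true (nat_lit 5) true (nat_lit 16) true (nat_lit 0) true (nat_lit 9) true (nat_lit 14) (.s true (nat_lit 3) (nat_lit 42) (nat_lit 1) (nat_lit 2) (nat_lit 6) true (nat_lit 6) true (nat_lit 10) false (nat_lit 0) true (nat_lit 15) true (nat_lit 14) (.s true (nat_lit 3) (nat_lit 42) (nat_lit 2) (nat_lit 1) (nat_lit 6) true (nat_lit 4) true (nat_lit 10) false (nat_lit 0) true (nat_lit 14) true (nat_lit 15) (.s false (nat_lit 1) (nat_lit 47) (nat_lit 3) (nat_lit 2) (nat_lit 2) true (nat_lit 7) true (nat_lit 14) false (nat_lit 1) true (nat_lit 13) true (nat_lit 14) (.s false (nat_lit 3)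 (nat_lit 48) (nat_lit 1) (nat_lit 3) (nat_lit 2) true (nat_lit 10) true (nat_lit 14) false (nat_lit 2) true (nat_lit 15) true (nat_lit 13) (.s false (nat_lit 1) (nat_lit 48) (nat_lit 3) (nat_lit 1) (nat_lit 2) true (nat_lit 7) true (nat_lit 14) false (nat_lit 2) true (nat_lit 13) true (nat_lit 15) (.s true (nat_lit 1) (nat_lit 48) (nat_lit 3) (nat_lit 2) (nat_lit 1) true (nat_lit 8) true (nat_lit 15) false (nat_lit 2) true (nat_lit 13) true (nat_lit 14) (.s true (nat_lit 1) (nat_lit 48) (nat_lit 6) (nat_lit 1) (nat_lit 0) true (nat_lit 7) true (nat_lit 16) false (nat_lit 2) true (nat_lit 10) true (nat_lit 15) (.s false (nat_lit 3) (nat_lit 66) (nat_lit 2) (nat_lit 2) (nat_lit 2) true (nat_lit 9) true (nat_lit 14) false (nat_lit 3) true (nat_lit 14) true (nat_lit 14) (.s false (nat_lit 3) (nat_lit 67) (nat_lit 2) (nat_lit 2) (nat_lit 2) true (nat_lit 9) true (nat_lit 14) false (nat_lit 3)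 true (nat_lit 14) true (nat_lit 14) (.s false (nat_lit 2) (nat_lit 70) (nat_lit 2) (nat_lit 2) (nat_lit 2) true (nat_lit 9) true (nat_lit 14) false (nat_lit 3) true (nat_lit 14) true (nat_lit 14) (.s true (nat_lit 1) (nat_lit 71) (nat_lit 2) (nat_lit 2) (nat_lit 2) true (nat_lit 9) true (nat_lit 14) false (nat_lit 3) true (nat_lit 14) true (nat_lit 14) (.s false (nat_lit 1) (nat_lit 73) (nat_lit 2) (nat_lit 2) (nat_lit 2) true (nat_lit 9) true (nat_lit 14) false (nat_lit 3) true (nat_lit 14) true (nat_lit 14) (.s false (nat_lit 1) (nat_lit 80) (nat_lit 1) (nat_lit 2) (nat_lit 2) true (nat_lit 10) true (nat_lit 14) false (nat_lit 4) true (nat_lit 15) true (nat_lit 14) (.s false (nat_lit 3) (nat_lit 81) (nat_lit 1) (nat_lit 2) (nat_lit 2) true (nat_lit 10) true (nat_lit 14) false (nat_lit 4) true (nat_lit 15) true (nat_lit 14) (.s false (nat_lit 2) (nat_lit 82) (nat_lit 1) (nat_lit 2) (nat_lit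 2) true (nat_lit 10) true (nat_lit 14) false (nat_lit 4) true (nat_lit 15) true (nat_lit 14) (.s false (nat_lit 2) (nat_lit 83) (nat_lit 1) (nat_lit 2) (nat_lit 2) true (nat_lit 10) true (nat_lit 14) false (nat_lit 4) true (nat_lit 15) true (nat_lit 14) (.s false (nat_lit 2) (nat_lit 85) (nat_lit 1) (nat_lit 2) (nat_lit 2) true (nat_lit 10) true (nat_lit 14) false (nat_lit 4) true (nat_lit 15) true (nat_lit 14) dC2c_i128)))))))))))))))))))))))))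

noncomputable def dC2c_i130 : IL := (.s true (nat_lit 2) (nat_lit 19) (nat_lit 2) (nat_lit 2) (nat_lit 12) true (nat_lit 1) true (nat_lit 7) true (nat_lit 4) true (nat_lit 14) true (nat_lit 14) (.s true (nat_lit 1) (nat_lit 19) (nat_lit 2) (nat_lit 12) (nat_lit 2) true (nat_lit 9) true (nat_lit 14) true (nat_lit 4) true (nat_lit 14) true (nat_lit 7) (.s false (nat_lit 2) (nat_lit 18) (nat_lit 3) (nat_lit 7) (nat_lit 2) true (nat_lit 7) true (nat_lit 14) true (nat_lit 4) true (nat_lit 13) true (nat_lit 9) (.s true (nat_lit 2) (nat_lit 20) (nat_lit 1) (nat_lit 3) (nat_lit 7) true (nat_lit 4) true (nat_lit 9) true (nat_lit 3) true (nat_lit 15) true (nat_lit 13) (.s true (nat_lit 1) (nat_lit 20) (nat_lit 1) (nat_lit 7) (nat_lit 3) true (nat_lit 8) true (nat_lit 13) true (nat_lit 3) true (nat_lit 15) true (nat_lit 9) (.s false (nat_lit 3) (nat_lit 20) (nat_lit 1) (nat_lit 13) (nat_lit 2) true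 (nat_lit 10) true (nat_lit 14) true (nat_lit 3) true (nat_lit 15) true (nat_lit 7) (.s false (nat_lit 2) (nat_lit 20) (nat_lit 2) (nat_lit 1) (nat_lit 11) true (nat_lit 1) true (nat_lit 7) true (nat_lit 3) true (nat_lit 14) true (nat_lit 15) (.s true (nat_lit 2) (nat_lit 20) (nat_lit 2) (nat_lit 2) (nat_lit 8) true (nat_lit 2) true (nat_lit 8) true (nat_lit 3) true (nat_lit 14) true (nat_lit 14) (.s true (nat_lit 2) (nat_lit 20) (nat_lit 2) (nat_lit 6) (nat_lit 3) true (nat_lit 7) true (nat_lit 13) true (nat_lit 3) true (nat_lit 14) true (nat_lit 10) (.s true (nat_lit 3) (nat_lit 20) (nat_lit 2) (nat_lit 13) (nat_lit 1) true (nat_lit 10) true (nat_lit 15) true (nat_lit 3) true (nat_lit 14) true (nat_lit 7) (.s false (nat_lit 2) (nat_lit 20) (nat_lit 2) (nat_lit 14) (nat_lit 0) true (nat_lit 11) true (nat_lit 16) true (nat_lit 3) true (nat_lit 14) true (nat_lit 6) (.s false (nat_lit 2) (nat_lit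 20) (nat_lit 7) (nat_lit 3) (nat_lit 1) true (nat_lit 4) true (nat_lit 15) true (nat_lit 3) true (nat_lit 9) true (nat_lit 13) (.s true (nat_lit 2) (nat_lit 20) (nat_lit 8) (nat_lit 2) (nat_lit 2) true (nat_lit 2) true (nat_lit 14) true (nat_lit 3) true (nat_lit 8) true (nat_lit 14) (.s true (nat_lit 2) (nat_lit 20) (nat_lit 11) (nat_lit 1) (nat_lit 2) true (nat_lit 1) true (nat_lit 14) true (nat_lit 3) true (nat_lit 7) true (nat_lit 15) (.s false (nat_lit 3) (nat_lit 20) (nat_lit 14) (nat_lit 0) (nat_lit 2) true (nat_lit 0) true (nat_lit 14) true (nat_lit 3) true (nat_lit 6) true (nat_lit 16) (.s false (nat_lit 3) (nat_lit 20) (nat_lit 15) (nat_lit 0) (nat_lit 2) true (nat_lit 0) true (nat_lit 14) true (nat_lit 3) true (nat_lit 6) true (nat_lit 16) (.s true (nat_lit 1) (nat_lit 20) (nat_lit 15) (nat_lit 2) (nat_lit 0) true (nat_lit 2) true (nat_lit 16) true (nat_lit 3) true (nat_lit 6)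 true (nat_lit 14) (.s true (nat_lit 2) (nat_lit 24) (nat_lit 2) (nat_lit 2) (nat_lit 7) true (nat_lit 3) true (nat_lit 9) true (nat_lit 2) true (nat_lit 14) true (nat_lit 14) (.s false (nat_lit 1) (nat_lit 25) (nat_lit 2) (nat_lit 2) (nat_lit 7) true (nat_lit 3) true (nat_lit 9) true (nat_lit 2) true (nat_lit 14) true (nat_lit 14) (.s false (nat_lit 1) (nat_lit 29) (nat_lit 2) (nat_lit 2) (nat_lit 7) true (nat_lit 3) true (nat_lit 9) true (nat_lit 2) true (nat_lit 14) true (nat_lit 14) (.s true (nat_lit 2) (nat_lit 33) (nat_lit 1) (nat_lit 2) (nat_lit 7) true (nat_lit 4) true (nat_lit 9) true (nat_lit 1) true (nat_lit 15) true (nat_lit 14) (.s false (nat_lit 3) (nat_lit 34) (nat_lit 1) (nat_lit 7) (nat_lit 2) true (nat_lit 10) true (nat_lit 14) true (nat_lit 1) true (nat_lit 15) true (nat_lit 9) (.s true (nat_lit 2) (nat_lit 33) (nat_lit 2) (nat_lit 2) (nat_lit 6) true (nat_lit 4) true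 (nat_lit 10) true (nat_lit 1) true (nat_lit 14) true (nat_lit 14) (.s false (nat_lit 1) (nat_lit 34) (nat_lit 2) (nat_lit 2) (nat_lit 6) true (nat_lit 4) true (nat_lit 10) true (nat_lit 1) true (nat_lit 14) true (nat_lit 14) (.s true (nat_lit 1) (nat_lit 34) (nat_lit 2) (nat_lit 7) (nat_lit 1) true (nat_lit 10) true (nat_lit 15) true (nat_lit 1) true (nat_lit 14) true (nat_lit 9) dC2c_i129)))))))))))))))))))))))))

noncomputable def dC2c_i131 : IL := (.e false (nat_lit 3) (nat_lit 145) (nat_lit 1) (nat_lit 13) (.e false (nat_lit 2) (nat_lit 146) (nat_lit 1) (nat_lit 13) (.e true (nat_lit 2) (nat_lit 117) (nat_lit 2) (nat_lit 12) (.e false (nat_lit 1) (nat_lit 118) (nat_lit 2) (nat_lit 12) (.e true (nat_lit 3) (nat_lit 120) (nat_lit 2) (nat_lit 12) (.e false (nat_lit 3) (nat_lit 128) (nat_lit 2) (nat_lit 12) (.e true (nat_lit 1) (nat_lit 134) (nat_lit 1) (nat_lit 13) (.e false (nat_lit 3)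 (nat_lit 45) (nat_lit 8) (nat_lit 6) (.e true (nat_lit 3) (nat_lit 46) (nat_lit 8) (nat_lit 6) (.e true (nat_lit 3) (nat_lit 25) (nat_lit 19) (nat_lit 1) (.e false (nat_lit 3) (nat_lit 27) (nat_lit 19) (nat_lit 1) (.e true (nat_lit 3) (nat_lit 24) (nat_lit 18) (nat_lit 1) (.e false (nat_lit 2) (nat_lit 133) (nat_lit 1) (nat_lit 13) (.e true (nat_lit 2) (nat_lit 135) (nat_lit 1) (nat_lit 13) (.e false (nat_lit 3) (nat_lit 47) (nat_lit 8) (nat_lit 6) (.e true (nat_lit 1) (nat_lit 132) (nat_lit 1) (nat_lit 13) (.e false (nat_lit 1) (nat_lit 152) (nat_lit 1) (nat_lit 13) (.e true (nat_lit 3) (nat_lit 21) (nat_lit 20) (nat_lit 0) (.e true (nat_lit 1) (nat_lit 157) (nat_lit 1) (nat_lit 13) (.e true (nat_lit 2) (nat_lit 153) (nat_lit 1) (nat_lit 13) (.e false (nat_lit 2) (nat_lit 155) (nat_lit 1) (nat_lit 13) (.e false (nat_lit 1) (nat_lit 113) (nat_lit 2) (nat_lit 12) (.e false (nat_lit 2) (nat_lit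 115) (nat_lit 2) (nat_lit 12) (.e true (nat_lit 2) (nat_lit 130) (nat_lit 2) (nat_lit 12) (.u (nat_lit 2) (.n (nat_lit 0) (nat_lit 1) (.p (nat_lit 1) (nat_lit 1) (.p (nat_lit 2) (nat_lit 1) (.n (nat_lit 4) (nat_lit 1) (.p (nat_lit 5) (nat_lit 2) (.n (nat_lit 9) (nat_lit 2) (.n (nat_lit 12) (nat_lit 3) (.n (nat_lit 13) (nat_lit 1) (.n (nat_lit 14) (nat_lit 1) (.p (nat_lit 15) (nat_lit 1) (.p (nat_lit 16) (nat_lit 4) (.p (nat_lit 20) (nat_lit 2) (.p (nat_lit 22) (nat_lit 2) (.n (nat_lit 23) (nat_lit 1) (.n (nat_lit 24) (nat_lit 1) (.p (nat_lit 25) (nat_lit 1) (.n (nat_lit 26) (nat_lit 2) (.p (nat_lit 27) (nat_lit 1) (.n (nat_lit 29) (nat_lit 1) (.p (nat_lit 30) (nat_lit 1) (.p (nat_lit 33) (nat_lit 1) (.p (nat_lit 37) (nat_lit 2) (.n (nat_lit 38) (nat_lit 1) (.p (nat_lit 39) (nat_lit 1) (.n (nat_lit 40) (nat_lit 3) (.p (nat_lit 41) (nat_lit 1) (.p (nat_lit 42) (nat_lit 1) (.n (nat_lit 44)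 (nat_lit 1) (.p (nat_lit 45) (nat_lit 1) (.p (nat_lit 46) (nat_lit 2) (.p (nat_lit 51) (nat_lit 1) (.p (nat_lit 52) (nat_lit 1) (.n (nat_lit 53) (nat_lit 1) (.p (nat_lit 55) (nat_lit 1) (.n (nat_lit 114) (nat_lit 1) (.n (nat_lit 115) (nat_lit 1) (.p (nat_lit 146) (nat_lit 1) (.p (nat_lit 147) (nat_lit 2) (.p (nat_lit 148) (nat_lit 2) (.p (nat_lit 149) (nat_lit 1) (.n (nat_lit 151) (nat_lit 1) (.n (nat_lit 152) (nat_lit 2) (.n (nat_lit 153) (nat_lit 1) (.p (nat_lit 154) (nat_lit 2) (.p (nat_lit 155) (nat_lit 1) (.n (nat_lit 157) (nat_lit 2) (.n (nat_lit 159) (nat_lit 6) (.n (nat_lit 160) (nat_lit 1) (.p (nat_lit 162) (nat_lit 3) (.p (nat_lit 163) (nat_lit 4) (.p (nat_lit 167) (nat_lit 6) (.p (nat_lit 168) (nat_lit 1) (.n (nat_lit 170) (nat_lit 1) (.p (nat_lit 171) (nat_lit 2) (.p (nat_lit 174) (nat_lit 1) (.n (nat_lit 186) (nat_lit 1) (.p (nat_lit 187) (nat_lit 3) .z)))))))))))))))))))))))))))))))))))))))))))))))))))))))))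 .nil)))))))))))))))))))))))))

noncomputable def dC2c_i132 : IL := (.s true (nat_lit 2) (nat_lit 29) (nat_lit 1) (nat_lit 2) (nat_lit 2) true (nat_lit 8) true (nat_lit 12) false (nat_lit 1) true (nat_lit 13) true (nat_lit 12) (.s true (nat_lit 3) (nat_lit 26) (nat_lit 2) (nat_lit 2) (nat_lit 1) true (nat_lit 8) true (nat_lit 13) false (nat_lit 1) true (nat_lit 12) true (nat_lit 12) (.s true (nat_lit 3) (nat_lit 29) (nat_lit 2) (nat_lit 2) (nat_lit 1) true (nat_lit 8) true (nat_lit 13) false (nat_lit 1) true (nat_lit 12) true (nat_lit 12) (.s true (nat_lit 3) (nat_lit 33) (nat_lit 1) (nat_lit 1) (nat_lit 2) true (nat_lit 8) true (nat_lit 12) false (nat_lit 3) true (nat_lit 13) true (nat_lit 13) (.e true (nat_lit 2) (nat_lit 25) (nat_lit 18) (nat_lit 1) (.e false (nat_lit 2) (nat_lit 27) (nat_lit 18) (nat_lit 1) (.e true (nat_lit 2) (nat_lit 61) (nat_lit 6) (nat_lit 8) (.e false (nat_lit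 2) (nat_lit 63) (nat_lit 6) (nat_lit 8) (.e false (nat_lit 2) (nat_lit 72) (nat_lit 6) (nat_lit 8) (.e false (nat_lit 2) (nat_lit 131) (nat_lit 2) (nat_lit 12) (.e true (nat_lit 2) (nat_lit 119) (nat_lit 2) (nat_lit 12) (.e false (nat_lit 1) (nat_lit 122) (nat_lit 2) (nat_lit 12) (.e true (nat_lit 1) (nat_lit 109) (nat_lit 2) (nat_lit 12) (.e true (nat_lit 3) (nat_lit 110) (nat_lit 2) (nat_lit 12) (.e true (nat_lit 2) (nat_lit 112) (nat_lit 2) (nat_lit 12) (.e false (nat_lit 3) (nat_lit 114) (nat_lit 2) (nat_lit 12) (.e true (nat_lit 2) (nat_lit 116) (nat_lit 2) (nat_lit 12) (.e false (nat_lit 1) (nat_lit 123) (nat_lit 2) (nat_lit 12) (.e false (nat_lit 1) (nat_lit 126) (nat_lit 2) (nat_lit 12) (.e false (nat_lit 2) (nat_lit 127) (nat_lit 2) (nat_lit 12) (.e false (nat_lit 2) (nat_lit 106) (nat_lit 2) (nat_lit 12) (.e true (nat_lit 3) (nat_lit 50) (nat_lit 7) (nat_lit 7) (.e true (nat_lit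 3) (nat_lit 51) (nat_lit 7) (nat_lit 7) (.e true (nat_lit 3) (nat_lit 92) (nat_lit 3) (nat_lit 11) (.e false (nat_lit 2) (nat_lit 138) (nat_lit 1) (nat_lit 13) dC2c_i131)))))))))))))))))))))))))

noncomputable def dC2c_i133 : IL := (.e true (nat_lit 3) (nat_lit 215) (nat_lit 2) (nat_lit 16) (.e false (nat_lit 2) (nat_lit 219) (nat_lit 2) (nat_lit 16) (.e true (nat_lit 1) (nat_lit 225) (nat_lit 2) (nat_lit 16) (.e false (nat_lit 3) (nat_lit 227) (nat_lit 2) (nat_lit 16) (.e true (nat_lit 1) (nat_lit 228) (nat_lit 2) (nat_lit 16) (.e true (nat_lit 2) (nat_lit 230) (nat_lit 2) (nat_lit 16) (.e true (nat_lit 3) (nat_lit 231) (nat_lit 2) (nat_lit 16) (.e true (nat_lit 3) (nat_lit 232) (nat_lit 2) (nat_lit 16) (.e false (nat_lit 3) (nat_lit 234) (nat_lit 2) (nat_lit 16) (.e false (nat_lit 2) (nat_lit 242) (nat_lit 2) (nat_lit 16) (.e false (nat_lit 1) (nat_lit 246) (nat_lit 2) (nat_lit 16) (.e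 false (nat_lit 1) (nat_lit 247) (nat_lit 2) (nat_lit 16) (.e true (nat_lit 3) (nat_lit 251) (nat_lit 2) (nat_lit 16) (.e false (nat_lit 1) (nat_lit 122) (nat_lit 7) (nat_lit 11) (.e true (nat_lit 1) (nat_lit 210) (nat_lit 2) (nat_lit 16) (.e true (nat_lit 2) (nat_lit 212) (nat_lit 2) (nat_lit 16) (.e false (nat_lit 3) (nat_lit 214) (nat_lit 2) (nat_lit 16) (.e true (nat_lit 2) (nat_lit 216) (nat_lit 2) (nat_lit 16) (.e false (nat_lit 3) (nat_lit 217) (nat_lit 2) (nat_lit 16) (.e false (nat_lit 1) (nat_lit 243) (nat_lit 2) (nat_lit 16) (.e true (nat_lit 1) (nat_lit 244) (nat_lit 2) (nat_lit 16) (.e false (nat_lit 1) (nat_lit 248) (nat_lit 2) (nat_lit 16) (.e false (nat_lit 1) (nat_lit 249) (nat_lit 2) (nat_lit 16) (.e true (nat_lit 1) (nat_lit 250) (nat_lit 2) (nat_lit 16) (.u (nat_lit 2) (.p (nat_lit 0) (nat_lit 5) (.n (nat_lit 1) (nat_lit 2) (.p (nat_lit 3) (nat_lit 1) (.p (nat_lit 4)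 (nat_lit 3) (.p (nat_lit 5) (nat_lit 2) (.p (nat_lit 6) (nat_lit 7) (.n (nat_lit 7) (nat_lit 2) (.p (nat_lit 8) (nat_lit 3) (.n (nat_lit 9) (nat_lit 1) (.p (nat_lit 12) (nat_lit 7) (.p (nat_lit 14) (nat_lit 2) (.n (nat_lit 15) (nat_lit 6) (.p (nat_lit 16) (nat_lit 2) (.n (nat_lit 17) (nat_lit 3) (.n (nat_lit 18) (nat_lit 3) (.n (nat_lit 19) (nat_lit 6) (.n (nat_lit 20) (nat_lit 3) (.n (nat_lit 21) (nat_lit 4) (.p (nat_lit 22) (nat_lit 4) (.p (nat_lit 23) (nat_lit 2) (.p (nat_lit 24) (nat_lit 1) (.p (nat_lit 25) (nat_lit 2) (.n (nat_lit 27) (nat_lit 2) (.p (nat_lit 28) (nat_lit 2) (.n (nat_lit 29) (nat_lit 1) (.p (nat_lit 31) (nat_lit 1) (.n (nat_lit 32) (nat_lit 3) (.p (nat_lit 33) (nat_lit 3) (.n (nat_lit 34) (nat_lit 5) (.p (nat_lit 35) (nat_lit 1) (.p (nat_lit 36) (nat_lit 2) (.p (nat_lit 37) (nat_lit 3) (.n (nat_lit 38) (nat_lit 3) (.p (nat_lit 39) (nat_lit 2) (.n (nat_lit 40) (nat_lit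 2) (.n (nat_lit 42) (nat_lit 1) (.n (nat_lit 44) (nat_lit 2) (.n (nat_lit 45) (nat_lit 1) (.p (nat_lit 46) (nat_lit 1) (.n (nat_lit 47) (nat_lit 2) (.p (nat_lit 48) (nat_lit 1) (.n (nat_lit 50) (nat_lit 1) (.p (nat_lit 52) (nat_lit 1) (.n (nat_lit 55) (nat_lit 1) (.p (nat_lit 302) (nat_lit 1) (.p (nat_lit 310) (nat_lit 1) (.p (nat_lit 312) (nat_lit 1) (.p (nat_lit 315) (nat_lit 1) (.p (nat_lit 316) (nat_lit 1) (.n (nat_lit 318) (nat_lit 1) (.p (nat_lit 319) (nat_lit 1) (.n (nat_lit 323) (nat_lit 1) (.n (nat_lit 324) (nat_lit 1) (.n (nat_lit 326) (nat_lit 1) (.n (nat_lit 327) (nat_lit 1) (.n (nat_lit 354) (nat_lit 1) .z)))))))))))))))))))))))))))))))))))))))))))))))))))))))) .nil)))))))))))))))))))))))))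

noncomputable def dC2c_i134 : IL := (.e false (nat_lit 2) (nat_lit 260) (nat_lit 1) (nat_lit 17) (.e true (nat_lit 1) (nat_lit 261) (nat_lit 1) (nat_lit 17) (.e true (nat_lit 2) (nat_lit 262) (nat_lit 1) (nat_lit 17) (.e true (nat_lit 1) (nat_lit 265) (nat_lit 1) (nat_lit 17) (.e false (nat_lit 3) (nat_lit 266) (nat_lit 1) (nat_lit 17) (.e true (nat_lit 2) (nat_lit 267) (nat_lit 1) (nat_lit 17) (.e true (nat_lit 1) (nat_lit 269) (nat_lit 1) (nat_lit 17) (.e false (nat_lit 1) (nat_lit 270) (nat_lit 1) (nat_lit 17) (.e false (nat_lit 2) (nat_lit 271) (nat_lit 1) (nat_lit 17) (.e true (nat_lit 3) (nat_lit 272) (nat_lit 1) (nat_lit 17) (.e false (nat_lit 3) (nat_lit 273) (nat_lit 1) (nat_lit 17) (.e true (nat_lit 3) (nat_lit 274) (nat_lit 1) (nat_lit 17) (.e false (nat_lit 3) (nat_lit 275) (nat_lit 1) (nat_lit 17) (.e true (nat_lit 2) (nat_lit 276) (nat_lit 1) (nat_lit 17) (.e true (nat_lit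 3) (nat_lit 277) (nat_lit 1) (nat_lit 17) (.e true (nat_lit 3) (nat_lit 283) (nat_lit 1) (nat_lit 17) (.e true (nat_lit 1) (nat_lit 284) (nat_lit 1) (nat_lit 17) (.e false (nat_lit 2) (nat_lit 285) (nat_lit 1) (nat_lit 17) (.e false (nat_lit 1) (nat_lit 286) (nat_lit 1) (nat_lit 17) (.e false (nat_lit 3) (nat_lit 206) (nat_lit 2) (nat_lit 16) (.e false (nat_lit 3) (nat_lit 207) (nat_lit 2) (nat_lit 16) (.e true (nat_lit 3) (nat_lit 208) (nat_lit 2) (nat_lit 16) (.e true (nat_lit 2) (nat_lit 209) (nat_lit 2) (nat_lit 16) (.e true (nat_lit 3) (nat_lit 211) (nat_lit 2) (nat_lit 16) (.e true (nat_lit 3) (nat_lit 213) (nat_lit 2) (nat_lit 16) dC2c_i133)))))))))))))))))))))))))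

noncomputable def dC2c_i135 : IL := (.e true (nat_lit 2) (nat_lit 256) (nat_lit 2) (nat_lit 14) (.e true (nat_lit 3) (nat_lit 257) (nat_lit 2) (nat_lit 14) (.e true (nat_lit 2) (nat_lit 259) (nat_lit 2) (nat_lit 14) (.e false (nat_lit 2) (nat_lit 260) (nat_lit 2) (nat_lit 14) (.e true (nat_lit 1) (nat_lit 261) (nat_lit 2) (nat_lit 14) (.e true (nat_lit 2) (nat_lit 262) (nat_lit 2) (nat_lit 14) (.e true (nat_lit 1) (nat_lit 265) (nat_lit 2) (nat_lit 14) (.e false (nat_lit 3) (nat_lit 266) (nat_lit 2) (nat_lit 14) (.e true (nat_lit 2) (nat_lit 267) (nat_lit 2) (nat_lit 14) (.e true (nat_lit 1) (nat_lit 269) (nat_lit 2) (nat_lit 14) (.e false (nat_lit 1) (nat_lit 270) (nat_lit 2) (nat_lit 14) (.e false (nat_lit 2) (nat_lit 271) (nat_lit 2) (nat_lit 14) (.e true (nat_lit 3) (nat_lit 272) (nat_lit 2) (nat_lit 14) (.e false (nat_lit 3) (nat_lit 273) (nat_lit 2) (nat_lit 14) (.e true (nat_lit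 3) (nat_lit 274) (nat_lit 2) (nat_lit 14) (.e false (nat_lit 3) (nat_lit 275) (nat_lit 2) (nat_lit 14) (.e true (nat_lit 2) (nat_lit 276) (nat_lit 2) (nat_lit 14) (.e true (nat_lit 3) (nat_lit 277) (nat_lit 2) (nat_lit 14) (.e true (nat_lit 3) (nat_lit 283) (nat_lit 2) (nat_lit 14) (.e true (nat_lit 1) (nat_lit 284) (nat_lit 2) (nat_lit 14) (.e false (nat_lit 2) (nat_lit 285) (nat_lit 2) (nat_lit 14) (.e false (nat_lit 1) (nat_lit 286) (nat_lit 2) (nat_lit 14) (.e true (nat_lit 1) (nat_lit 255) (nat_lit 2) (nat_lit 14) (.e false (nat_lit 1) (nat_lit 258) (nat_lit 2) (nat_lit 14) (.u (nat_lit 2) (.n (nat_lit 0) (nat_lit 2) (.n (nat_lit 1) (nat_lit 1) (.n (nat_lit 2) (nat_lit 1) (.p (nat_lit 3) (nat_lit 3) (.p (nat_lit 4) (nat_lit 2) (.n (nat_lit 5) (nat_lit 3) (.n (nat_lit 6) (nat_lit 1) (.p (nat_lit 7) (nat_lit 2) (.n (nat_lit 8) (nat_lit 3) (.n (nat_lit 9) (nat_lit 2) (.p (nat_lit 10)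 (nat_lit 3) (.n (nat_lit 11) (nat_lit 2) (.p (nat_lit 12) (nat_lit 2) (.n (nat_lit 13) (nat_lit 1) (.n (nat_lit 14) (nat_lit 3) (.n (nat_lit 17) (nat_lit 2) (.p (nat_lit 18) (nat_lit 2) (.p (nat_lit 19) (nat_lit 2) (.p (nat_lit 23) (nat_lit 2) (.n (nat_lit 24) (nat_lit 3) (.n (nat_lit 25) (nat_lit 2) (.p (nat_lit 27) (nat_lit 2) (.n (nat_lit 29) (nat_lit 1) (.p (nat_lit 30) (nat_lit 1) (.p (nat_lit 35) (nat_lit 1) (.p (nat_lit 38) (nat_lit 1) (.p (nat_lit 204) (nat_lit 1) (.p (nat_lit 209) (nat_lit 1) (.n (nat_lit 225) (nat_lit 1) (.p (nat_lit 229) (nat_lit 1) .z)))))))))))))))))))))))))))))) .nil)))))))))))))))))))))))))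

noncomputable def dC2c_i136 : IL := (.e false (nat_lit 1) (nat_lit 235) (nat_lit 2) (nat_lit 16) (.e true (nat_lit 2) (nat_lit 289) (nat_lit 0) (nat_lit 18) (.e false (nat_lit 3) (nat_lit 290) (nat_lit 0) (nat_lit 18) (.e true (nat_lit 1) (nat_lit 291) (nat_lit 0) (nat_lit 18) (.e true (nat_lit 2) (nat_lit 292) (nat_lit 0) (nat_lit 18) (.e false (nat_lit 3) (nat_lit 293) (nat_lit 0) (nat_lit 18) (.e true (nat_lit 1) (nat_lit 295) (nat_lit 0) (nat_lit 18) (.e false (nat_lit 3) (nat_lit 297) (nat_lit 0) (nat_lit 18) (.e true (nat_lit 3) (nat_lit 299) (nat_lit 0) (nat_lit 18) (.e true (nat_lit 1) (nat_lit 300) (nat_lit 0) (nat_lit 18) (.e true (nat_lit 2) (nat_lit 301) (nat_lit 0) (nat_lit 18) (.e true (nat_lit 3) (nat_lit 294) (nat_lit 0) (nat_lit 18) (.e false (nat_lit 1) (nat_lit 296) (nat_lit 0) (nat_lit 18) (.e false (nat_lit 3) (nat_lit 256) (nat_lit 1) (nat_lit 17) (.e false (nat_lit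 3) (nat_lit 261) (nat_lit 1) (nat_lit 17) (.e false (nat_lit 2) (nat_lit 275) (nat_lit 1) (nat_lit 17) (.e true (nat_lit 3) (nat_lit 257) (nat_lit 1) (nat_lit 17) (.e false (nat_lit 1) (nat_lit 259) (nat_lit 1) (nat_lit 17) (.e true (nat_lit 1) (nat_lit 260) (nat_lit 1) (nat_lit 17) (.e true (nat_lit 1) (nat_lit 170) (nat_lit 4) (nat_lit 14) (.e false (nat_lit 2) (nat_lit 279) (nat_lit 1) (nat_lit 17) (.u (nat_lit 2) (.n (nat_lit 5) (nat_lit 1) (.n (nat_lit 6) (nat_lit 1) (.n (nat_lit 10) (nat_lit 1) (.n (nat_lit 15) (nat_lit 1) (.p (nat_lit 16) (nat_lit 1) (.p (nat_lit 25) (nat_lit 1) (.n (nat_lit 32) (nat_lit 1) (.n (nat_lit 36) (nat_lit 1) (.p (nat_lit 37) (nat_lit 1) (.p (nat_lit 46) (nat_lit 1) (.p (nat_lit 47) (nat_lit 1) (.p (nat_lit 48) (nat_lit 1) (.n (nat_lit 62) (nat_lit 1) (.p (nat_lit 63) (nat_lit 1) (.p (nat_lit 64) (nat_lit 1) (.p (nat_lit 66) (nat_lit 1) (.n (nat_lit 67)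 (nat_lit 1) (.n (nat_lit 78) (nat_lit 1) (.p (nat_lit 79) (nat_lit 1) (.p (nat_lit 89) (nat_lit 1) (.n (nat_lit 93) (nat_lit 1) (.p (nat_lit 94) (nat_lit 1) (.n (nat_lit 96) (nat_lit 1) (.p (nat_lit 104) (nat_lit 1) (.n (nat_lit 107) (nat_lit 1) (.n (nat_lit 110) (nat_lit 1) (.n (nat_lit 114) (nat_lit 1) (.n (nat_lit 117) (nat_lit 1) (.p (nat_lit 124) (nat_lit 1) (.p (nat_lit 126) (nat_lit 1) (.n (nat_lit 127) (nat_lit 1) (.p (nat_lit 129) (nat_lit 1) (.p (nat_lit 132) (nat_lit 1) (.p (nat_lit 133) (nat_lit 1) (.n (nat_lit 134) (nat_lit 1) (.n (nat_lit 148) (nat_lit 1) (.p (nat_lit 154) (nat_lit 1) (.p (nat_lit 162) (nat_lit 1) (.n (nat_lit 163) (nat_lit 1) (.n (nat_lit 164) (nat_lit 1) (.n (nat_lit 166) (nat_lit 1) (.p (nat_lit 169) (nat_lit 1) (.p (nat_lit 173) (nat_lit 1) (.n (nat_lit 174) (nat_lit 1) (.n (nat_lit 183) (nat_lit 1) (.n (nat_lit 184) (nat_lit 2) (.n (nat_lit 186) (nat_lit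 2) (.n (nat_lit 187) (nat_lit 1) (.p (nat_lit 188) (nat_lit 1) (.n (nat_lit 202) (nat_lit 1) (.n (nat_lit 203) (nat_lit 1) (.n (nat_lit 206) (nat_lit 1) (.n (nat_lit 208) (nat_lit 1) (.p (nat_lit 211) (nat_lit 1) (.n (nat_lit 212) (nat_lit 1) (.n (nat_lit 213) (nat_lit 1) (.p (nat_lit 214) (nat_lit 3) (.p (nat_lit 215) (nat_lit 2) (.p (nat_lit 217) (nat_lit 3) (.p (nat_lit 218) (nat_lit 1) .z)))))))))))))))))))))))))))))))))))))))))))))))))))))))))))) (.u (nat_lit 2) (.n (nat_lit 219) (nat_lit 4) (.p (nat_lit 221) (nat_lit 3) (.n (nat_lit 223) (nat_lit 3) (.n (nat_lit 224) (nat_lit 2) (.p (nat_lit 226) (nat_lit 1) (.p (nat_lit 227) (nat_lit 2) (.p (nat_lit 229) (nat_lit 1) (.n (nat_lit 230) (nat_lit 1) (.p (nat_lit 232) (nat_lit 1) (.n (nat_lit 233) (nat_lit 2) (.p (nat_lit 234) (nat_lit 1) (.p (nat_lit 239) (nat_lit 1) (.n (nat_lit 241) (nat_lit 3) (.p (nat_lit 242) (nat_lit 1) (.p (nat_lit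 244) (nat_lit 1) (.p (nat_lit 245) (nat_lit 2) (.n (nat_lit 246) (nat_lit 3) (.p (nat_lit 247) (nat_lit 3) (.p (nat_lit 248) (nat_lit 1) (.n (nat_lit 249) (nat_lit 1) (.n (nat_lit 250) (nat_lit 3) (.n (nat_lit 251) (nat_lit 1) (.p (nat_lit 252) (nat_lit 4) (.p (nat_lit 253) (nat_lit 1) (.p (nat_lit 256) (nat_lit 4) (.n (nat_lit 257) (nat_lit 1) (.p (nat_lit 258) (nat_lit 1) (.n (nat_lit 260) (nat_lit 1) (.p (nat_lit 262) (nat_lit 1) (.n (nat_lit 263) (nat_lit 1) (.p (nat_lit 264) (nat_lit 2) (.p (nat_lit 267) (nat_lit 1) (.n (nat_lit 269) (nat_lit 1) (.n (nat_lit 271) (nat_lit 2) (.p (nat_lit 272) (nat_lit 3) (.n (nat_lit 273) (nat_lit 1) (.p (nat_lit 276) (nat_lit 3) (.n (nat_lit 277) (nat_lit 2) (.p (nat_lit 279) (nat_lit 3) (.n (nat_lit 280) (nat_lit 3) (.n (nat_lit 282) (nat_lit 1) (.n (nat_lit 283) (nat_lit 1) (.n (nat_lit 284) (nat_lit 1) (.n (nat_lit 285) (nat_lit 2) (.n (nat_lit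 286) (nat_lit 1) (.p (nat_lit 288) (nat_lit 1) (.n (nat_lit 289) (nat_lit 1) (.p (nat_lit 292) (nat_lit 2) (.n (nat_lit 294) (nat_lit 2) (.p (nat_lit 296) (nat_lit 3) (.p (nat_lit 297) (nat_lit 2) (.n (nat_lit 299) (nat_lit 2) (.n (nat_lit 302) (nat_lit 22) (.p (nat_lit 303) (nat_lit 1) (.n (nat_lit 304) (nat_lit 5) (.n (nat_lit 305) (nat_lit 18) (.p (nat_lit 306) (nat_lit 7) (.p (nat_lit 307) (nat_lit 1) (.p (nat_lit 308) (nat_lit 20) (.p (nat_lit 309) (nat_lit 1) .z)))))))))))))))))))))))))))))))))))))))))))))))))))))))))))) (.u (nat_lit 2) (.n (nat_lit 310) (nat_lit 17) (.p (nat_lit 311) (nat_lit 3) (.n (nat_lit 312) (nat_lit 21) (.p (nat_lit 313) (nat_lit 13) (.n (nat_lit 314) (nat_lit 1) (.n (nat_lit 316) (nat_lit 10) (.n (nat_lit 317) (nat_lit 7) (.p (nat_lit 318) (nat_lit 17) (.n (nat_lit 319) (nat_lit 3) (.n (nat_lit 320) (nat_lit 3) (.p (nat_lit 321) (nat_lit 1) (.p (nat_lit 322)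 (nat_lit 21) (.p (nat_lit 323) (nat_lit 9) (.p (nat_lit 324) (nat_lit 10) (.p (nat_lit 325) (nat_lit 3) (.p (nat_lit 326) (nat_lit 13) (.p (nat_lit 327) (nat_lit 9) (.p (nat_lit 328) (nat_lit 22) (.n (nat_lit 329) (nat_lit 5) (.n (nat_lit 330) (nat_lit 8) (.n (nat_lit 331) (nat_lit 10) (.p (nat_lit 332) (nat_lit 4) (.n (nat_lit 334) (nat_lit 1) (.p (nat_lit 335) (nat_lit 11) (.p (nat_lit 336) (nat_lit 10) (.n (nat_lit 337) (nat_lit 2) (.n (nat_lit 338) (nat_lit 4) (.p (nat_lit 339) (nat_lit 3) (.p (nat_lit 340) (nat_lit 10) (.n (nat_lit 341) (nat_lit 7) (.n (nat_lit 342) (nat_lit 1) (.n (nat_lit 343) (nat_lit 2) (.n (nat_lit 344) (nat_lit 9) (.n (nat_lit 345) (nat_lit 7) (.n (nat_lit 346) (nat_lit 7) (.n (nat_lit 347) (nat_lit 7) (.p (nat_lit 348) (nat_lit 12) (.n (nat_lit 349) (nat_lit 11) (.p (nat_lit 350) (nat_lit 4) (.p (nat_lit 351) (nat_lit 11) (.p (nat_lit 352) (nat_lit 12) (.p (nat_lit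 353) (nat_lit 11) (.n (nat_lit 354) (nat_lit 7) (.n (nat_lit 355) (nat_lit 18) (.p (nat_lit 356) (nat_lit 5) (.n (nat_lit 357) (nat_lit 6) (.n (nat_lit 358) (nat_lit 6) (.p (nat_lit 359) (nat_lit 12) (.p (nat_lit 360) (nat_lit 6) (.p (nat_lit 361) (nat_lit 4) (.p (nat_lit 362) (nat_lit 17) (.n (nat_lit 363) (nat_lit 9) (.p (nat_lit 364) (nat_lit 25) (.p (nat_lit 366) (nat_lit 10) (.p (nat_lit 367) (nat_lit 13) (.n (nat_lit 368) (nat_lit 15) (.n (nat_lit 369) (nat_lit 4) (.n (nat_lit 370) (nat_lit 7) (.p (nat_lit 371) (nat_lit 16) (.n (nat_lit 372) (nat_lit 9) .z)))))))))))))))))))))))))))))))))))))))))))))))))))))))))))) (.u (nat_lit 2) (.p (nat_lit 373) (nat_lit 18) (.p (nat_lit 374) (nat_lit 20) (.p (nat_lit 375) (nat_lit 7) (.p (nat_lit 376) (nat_lit 6) (.n (nat_lit 377) (nat_lit 3) (.n (nat_lit 378) (nat_lit 1) (.n (nat_lit 379) (nat_lit 1) (.n (nat_lit 380) (nat_lit 7) (.p (nat_lit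 381) (nat_lit 1) (.n (nat_lit 382) (nat_lit 5) (.p (nat_lit 383) (nat_lit 6) (.p (nat_lit 384) (nat_lit 6) (.n (nat_lit 385) (nat_lit 2) (.n (nat_lit 386) (nat_lit 2) (.p (nat_lit 389) (nat_lit 3) (.p (nat_lit 390) (nat_lit 1) (.p (nat_lit 392) (nat_lit 3) (.n (nat_lit 393) (nat_lit 4) (.p (nat_lit 396) (nat_lit 2) (.n (nat_lit 397) (nat_lit 1) (.n (nat_lit 398) (nat_lit 3) (.p (nat_lit 400) (nat_lit 6) (.n (nat_lit 401) (nat_lit 2) .z))))))))))))))))))))))) .nil)))))))))))))))))))))))))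

noncomputable def dC2c_i137 : IL := (.s false (nat_lit 2) (nat_lit 101) (nat_lit 0) (nat_lit 1) (nat_lit 1) true (nat_lit 15) true (nat_lit 17) false (nat_lit 10) true (nat_lit 18) true (nat_lit 17) (.s true (nat_lit 3) (nat_lit 102) (nat_lit 0) (nat_lit 1) (nat_lit 1) true (nat_lit 15) true (nat_lit 17) false (nat_lit 10) true (nat_lit 18) true (nat_lit 17) (.s true (nat_lit 2) (nat_lit 103) (nat_lit 0) (nat_lit 1) (nat_lit 1) true (nat_lit 15) true (nat_lit 17) false (nat_lit 10) true (nat_lit 18) true (nat_lit 17) (.s true (nat_lit 1) (nat_lit 103) (nat_lit 1) (nat_lit 0) (nat_lit 1) true (nat_lit 14) true (nat_lit 17) false (nat_lit 10) true (nat_lit 17) true (nat_lit 18) (.s true (nat_lit 3) (nat_lit 102) (nat_lit 1) (nat_lit 1) (nat_lit 0) true (nat_lit 15) true (nat_lit 18) false (nat_lit 10) true (nat_lit 17) true (nat_lit 17) (.s true (nat_lit 3) (nat_lit 103) (nat_lit 1) (nat_lit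 1) (nat_lit 0) true (nat_lit 15) true (nat_lit 18) false (nat_lit 10) true (nat_lit 17) true (nat_lit 17) (.s false (nat_lit 3) (nat_lit 104) (nat_lit 1) (nat_lit 1) (nat_lit 0) true (nat_lit 15) true (nat_lit 18) false (nat_lit 10) true (nat_lit 17) true (nat_lit 17) (.e false (nat_lit 3) (nat_lit 208) (nat_lit 2) (nat_lit 16) (.e true (nat_lit 1) (nat_lit 252) (nat_lit 1) (nat_lit 17) (.e true (nat_lit 3) (nat_lit 253) (nat_lit 1) (nat_lit 17) (.e false (nat_lit 3) (nat_lit 254) (nat_lit 1) (nat_lit 17) (.e false (nat_lit 2) (nat_lit 263) (nat_lit 1) (nat_lit 17) (.e false (nat_lit 1) (nat_lit 265) (nat_lit 1) (nat_lit 17) (.e true (nat_lit 1) (nat_lit 267) (nat_lit 1) (nat_lit 17) (.e true (nat_lit 3) (nat_lit 270) (nat_lit 1) (nat_lit 17) (.e false (nat_lit 1) (nat_lit 277) (nat_lit 1) (nat_lit 17) (.e false (nat_lit 3) (nat_lit 255) (nat_lit 1) (nat_lit 17) (.e false (nat_lit 3) (nat_lit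 262) (nat_lit 1) (nat_lit 17) (.e true (nat_lit 1) (nat_lit 264) (nat_lit 1) (nat_lit 17) (.e false (nat_lit 2) (nat_lit 266) (nat_lit 1) (nat_lit 17) (.e false (nat_lit 1) (nat_lit 205) (nat_lit 2) (nat_lit 16) (.e false (nat_lit 3) (nat_lit 206) (nat_lit 2) (nat_lit 16) (.e true (nat_lit 1) (nat_lit 298) (nat_lit 0) (nat_lit 18) (.e true (nat_lit 1) (nat_lit 274) (nat_lit 1) (nat_lit 17) (.e false (nat_lit 2) (nat_lit 209) (nat_lit 2) (nat_lit 16) dC2c_i136)))))))))))))))))))))))))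

noncomputable def dC2c_i138 : IL := (.s false (nat_lit 3) (nat_lit 74) (nat_lit 2) (nat_lit 2) (nat_lit 0) true (nat_lit 13) true (nat_lit 18) false (nat_lit 6) true (nat_lit 16) true (nat_lit 16) (.s true (nat_lit 1) (nat_lit 79) (nat_lit 2) (nat_lit 2) (nat_lit 0) true (nat_lit 13) true (nat_lit 18) false (nat_lit 6) true (nat_lit 16) true (nat_lit 16) (.s true (nat_lit 2) (nat_lit 81) (nat_lit 1) (nat_lit 1) (nat_lit 2) true (nat_lit 12) true (nat_lit 16) false (nat_lit 7) true (nat_lit 17) true (nat_lit 17) (.s true (nat_lit 2) (nat_lit 88) (nat_lit 1) (nat_lit 1) (nat_lit 2) true (nat_lit 12) true (nat_lit 16) false (nat_lit 7) true (nat_lit 17) true (nat_lit 17) (.s false (nat_lit 1) (nat_lit 89) (nat_lit 1) (nat_lit 1) (nat_lit 2) true (nat_lit 12) true (nat_lit 16) false (nat_lit 7) true (nat_lit 17) true (nat_lit 17) (.s true (nat_lit 3) (nat_lit 80) (nat_lit 1) (nat_lit 2) (nat_lit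 1) true (nat_lit 14) true (nat_lit 17) false (nat_lit 7) true (nat_lit 17) true (nat_lit 16) (.s false (nat_lit 1) (nat_lit 81) (nat_lit 1) (nat_lit 2) (nat_lit 1) true (nat_lit 14) true (nat_lit 17) false (nat_lit 7) true (nat_lit 17) true (nat_lit 16) (.s false (nat_lit 2) (nat_lit 83) (nat_lit 1) (nat_lit 2) (nat_lit 1) true (nat_lit 14) true (nat_lit 17) false (nat_lit 7) true (nat_lit 17) true (nat_lit 16) (.s false (nat_lit 3) (nat_lit 84) (nat_lit 1) (nat_lit 2) (nat_lit 1) true (nat_lit 14) true (nat_lit 17) false (nat_lit 7) true (nat_lit 17) true (nat_lit 16) (.s false (nat_lit 1) (nat_lit 85) (nat_lit 1) (nat_lit 2) (nat_lit 1) true (nat_lit 14) true (nat_lit 17) false (nat_lit 7) true (nat_lit 17) true (nat_lit 16) (.s true (nat_lit 3) (nat_lit 89) (nat_lit 1) (nat_lit 2) (nat_lit 1) true (nat_lit 14) true (nat_lit 17) false (nat_lit 7) true (nat_lit 17) true (nat_lit 16) (.s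 true (nat_lit 2) (nat_lit 80) (nat_lit 2) (nat_lit 1) (nat_lit 1) true (nat_lit 12) true (nat_lit 17) false (nat_lit 7) true (nat_lit 16) true (nat_lit 17) (.s true (nat_lit 3) (nat_lit 81) (nat_lit 2) (nat_lit 1) (nat_lit 1) true (nat_lit 12) true (nat_lit 17) false (nat_lit 7) true (nat_lit 16) true (nat_lit 17) (.s true (nat_lit 2) (nat_lit 83) (nat_lit 2) (nat_lit 1) (nat_lit 1) true (nat_lit 12) true (nat_lit 17) false (nat_lit 7) true (nat_lit 16) true (nat_lit 17) (.s false (nat_lit 3) (nat_lit 88) (nat_lit 2) (nat_lit 1) (nat_lit 1) true (nat_lit 12) true (nat_lit 17) false (nat_lit 7) true (nat_lit 16) true (nat_lit 17) (.s false (nat_lit 3) (nat_lit 89) (nat_lit 2) (nat_lit 1) (nat_lit 1) true (nat_lit 12) true (nat_lit 17) false (nat_lit 7) true (nat_lit 16) true (nat_lit 17) (.s false (nat_lit 1) (nat_lit 92) (nat_lit 0) (nat_lit 1) (nat_lit 2) true (nat_lit 13) true (nat_lit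 16) false (nat_lit 8) true (nat_lit 18) true (nat_lit 17) (.s true (nat_lit 1) (nat_lit 93) (nat_lit 0) (nat_lit 1) (nat_lit 2) true (nat_lit 13) true (nat_lit 16) false (nat_lit 8) true (nat_lit 18) true (nat_lit 17) (.s true (nat_lit 1) (nat_lit 92) (nat_lit 1) (nat_lit 0) (nat_lit 2) true (nat_lit 12) true (nat_lit 16) false (nat_lit 8) true (nat_lit 17) true (nat_lit 18) (.s true (nat_lit 1) (nat_lit 93) (nat_lit 1) (nat_lit 2) (nat_lit 0) true (nat_lit 15) true (nat_lit 18) false (nat_lit 8) true (nat_lit 17) true (nat_lit 16) (.s true (nat_lit 1) (nat_lit 92) (nat_lit 2) (nat_lit 1) (nat_lit 0) true (nat_lit 13) true (nat_lit 18) false (nat_lit 8) true (nat_lit 16) true (nat_lit 17) (.s false (nat_lit 1) (nat_lit 93) (nat_lit 2) (nat_lit 1) (nat_lit 0) true (nat_lit 13) true (nat_lit 18) false (nat_lit 8) true (nat_lit 16) true (nat_lit 17) (.s false (nat_lit 1) (nat_lit 94) (nat_lit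 2) (nat_lit 1) (nat_lit 0) true (nat_lit 13) true (nat_lit 18) false (nat_lit 8) true (nat_lit 16) true (nat_lit 17) (.s true (nat_lit 3) (nat_lit 97) (nat_lit 1) (nat_lit 1) (nat_lit 1) true (nat_lit 14) true (nat_lit 17) false (nat_lit 9) true (nat_lit 17) true (nat_lit 17) (.s false (nat_lit 3) (nat_lit 100) (nat_lit 1) (nat_lit 1) (nat_lit 1) true (nat_lit 14) true (nat_lit 17) false (nat_lit 9) true (nat_lit 17) true (nat_lit 17) dC2c_i137)))))))))))))))))))))))))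

noncomputable def dC2c_i139 : IL := (.s false (nat_lit 3) (nat_lit 66) (nat_lit 1) (nat_lit 2) (nat_lit 2) true (nat_lit 12) true (nat_lit 16) false (nat_lit 5) true (nat_lit 17) true (nat_lit 16) (.s true (nat_lit 2) (nat_lit 67) (nat_lit 1) (nat_lit 2) (nat_lit 2) true (nat_lit 12) true (nat_lit 16) false (nat_lit 5) true (nat_lit 17) true (nat_lit 16) (.s true (nat_lit 2) (nat_lit 68) (nat_lit 1) (nat_lit 2) (nat_lit 2) true (nat_lit 12) true (nat_lit 16) false (nat_lit 5) true (nat_lit 17) true (nat_lit 16) (.s false (nat_lit 3) (nat_lit 69) (nat_lit 1) (nat_lit 2) (nat_lit 2) true (nat_lit 12) true (nat_lit 16) false (nat_lit 5) true (nat_lit 17) true (nat_lit 16) (.s true (nat_lit 3) (nat_lit 71) (nat_lit 1) (nat_lit 2) (nat_lit 2) true (nat_lit 12) true (nat_lit 16) false (nat_lit 5) true (nat_lit 17) true (nat_lit 16) (.s false (nat_lit 1) (nat_lit 73) (nat_lit 1) (nat_lit 2) (nat_lit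 2) true (nat_lit 12) true (nat_lit 16) false (nat_lit 5) true (nat_lit 17) true (nat_lit 16) (.s false (nat_lit 2) (nat_lit 62) (nat_lit 2) (nat_lit 1) (nat_lit 2) true (nat_lit 11) true (nat_lit 16) false (nat_lit 5) true (nat_lit 16) true (nat_lit 17) (.s true (nat_lit 1) (nat_lit 64) (nat_lit 2) (nat_lit 1) (nat_lit 2) true (nat_lit 11) true (nat_lit 16) false (nat_lit 5) true (nat_lit 16) true (nat_lit 17) (.s true (nat_lit 1) (nat_lit 65) (nat_lit 2) (nat_lit 1) (nat_lit 2) true (nat_lit 11) true (nat_lit 16) false (nat_lit 5) true (nat_lit 16) true (nat_lit 17) (.s false (nat_lit 3) (nat_lit 66) (nat_lit 2) (nat_lit 1) (nat_lit 2) true (nat_lit 11) true (nat_lit 16) false (nat_lit 5) true (nat_lit 16) true (nat_lit 17) (.s false (nat_lit 2) (nat_lit 67) (nat_lit 2) (nat_lit 1) (nat_lit 2) true (nat_lit 11) true (nat_lit 16) false (nat_lit 5) true (nat_lit 16) true (nat_lit 17) (.s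 false (nat_lit 3) (nat_lit 69) (nat_lit 2) (nat_lit 1) (nat_lit 2) true (nat_lit 11) true (nat_lit 16) false (nat_lit 5) true (nat_lit 16) true (nat_lit 17) (.s true (nat_lit 2) (nat_lit 71) (nat_lit 2) (nat_lit 1) (nat_lit 2) true (nat_lit 11) true (nat_lit 16) false (nat_lit 5) true (nat_lit 16) true (nat_lit 17) (.s false (nat_lit 3) (nat_lit 73) (nat_lit 2) (nat_lit 1) (nat_lit 2) true (nat_lit 11) true (nat_lit 16) false (nat_lit 5) true (nat_lit 16) true (nat_lit 17) (.s false (nat_lit 2) (nat_lit 61) (nat_lit 2) (nat_lit 2) (nat_lit 1) true (nat_lit 12) true (nat_lit 17) false (nat_lit 5) true (nat_lit 16) true (nat_lit 16) (.s true (nat_lit 3) (nat_lit 62) (nat_lit 2) (nat_lit 2) (nat_lit 1) true (nat_lit 12) true (nat_lit 17) false (nat_lit 5) true (nat_lit 16) true (nat_lit 16) (.s false (nat_lit 1) (nat_lit 63) (nat_lit 2) (nat_lit 2) (nat_lit 1) true (nat_lit 12) true (nat_lit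 17) false (nat_lit 5) true (nat_lit 16) true (nat_lit 16) (.s false (nat_lit 3) (nat_lit 64) (nat_lit 2) (nat_lit 2) (nat_lit 1) true (nat_lit 12) true (nat_lit 17) false (nat_lit 5) true (nat_lit 16) true (nat_lit 16) (.s false (nat_lit 2) (nat_lit 67) (nat_lit 2) (nat_lit 2) (nat_lit 1) true (nat_lit 12) true (nat_lit 17) false (nat_lit 5) true (nat_lit 16) true (nat_lit 16) (.s false (nat_lit 1) (nat_lit 69) (nat_lit 2) (nat_lit 2) (nat_lit 1) true (nat_lit 12) true (nat_lit 17) false (nat_lit 5) true (nat_lit 16) true (nat_lit 16) (.s true (nat_lit 1) (nat_lit 71) (nat_lit 2) (nat_lit 2) (nat_lit 1) true (nat_lit 12) true (nat_lit 17) false (nat_lit 5) true (nat_lit 16) true (nat_lit 16) (.s false (nat_lit 3) (nat_lit 73) (nat_lit 2) (nat_lit 2) (nat_lit 1) true (nat_lit 12) true (nat_lit 17) false (nat_lit 5) true (nat_lit 16) true (nat_lit 16) (.s false (nat_lit 3) (nat_lit 74) (nat_lit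 0) (nat_lit 2) (nat_lit 2) true (nat_lit 13) true (nat_lit 16) false (nat_lit 6) true (nat_lit 18) true (nat_lit 16) (.s false (nat_lit 1) (nat_lit 79) (nat_lit 0) (nat_lit 2) (nat_lit 2) true (nat_lit 13) true (nat_lit 16) false (nat_lit 6) true (nat_lit 18) true (nat_lit 16) (.s true (nat_lit 1) (nat_lit 79) (nat_lit 2) (nat_lit 0) (nat_lit 2) true (nat_lit 11) true (nat_lit 16) false (nat_lit 6) true (nat_lit 16) true (nat_lit 18) dC2c_i138)))))))))))))))))))))))))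

noncomputable def dC2c_i140 : IL := (.s true (nat_lit 2) (nat_lit 46) (nat_lit 3) (nat_lit 1) (nat_lit 2) true (nat_lit 8) true (nat_lit 16) false (nat_lit 2) true (nat_lit 15) true (nat_lit 17) (.s false (nat_lit 2) (nat_lit 47) (nat_lit 3) (nat_lit 1) (nat_lit 2) true (nat_lit 8) true (nat_lit 16) false (nat_lit 2) true (nat_lit 15) true (nat_lit 17) (.s true (nat_lit 1) (nat_lit 46) (nat_lit 3) (nat_lit 2) (nat_lit 1) true (nat_lit 10) true (nat_lit 17) false (nat_lit 2) true (nat_lit 15) true (nat_lit 16) (.s false (nat_lit 1) (nat_lit 47) (nat_lit 3) (nat_lit 2) (nat_lit 1) true (nat_lit 10) true (nat_lit 17) false (nat_lit 2) true (nat_lit 15) true (nat_lit 16) (.s true (nat_lit 3) (nat_lit 45) (nat_lit 5) (nat_lit 1) (nat_lit 1) true (nat_lit 8) true (nat_lit 17) false (nat_lit 2) true (nat_lit 13) true (nat_lit 17) (.s true (nat_lit 2) (nat_lit 47) (nat_lit 5) (nat_lit 1) (nat_lit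 1) true (nat_lit 8) true (nat_lit 17) false (nat_lit 2) true (nat_lit 13) true (nat_lit 17) (.s true (nat_lit 1) (nat_lit 45) (nat_lit 6) (nat_lit 1) (nat_lit 0) true (nat_lit 8) true (nat_lit 18) false (nat_lit 2) true (nat_lit 12) true (nat_lit 17) (.s true (nat_lit 3) (nat_lit 48) (nat_lit 0) (nat_lit 4) (nat_lit 1) true (nat_lit 15) true (nat_lit 17) false (nat_lit 3) true (nat_lit 18) true (nat_lit 14) (.s true (nat_lit 2) (nat_lit 48) (nat_lit 1) (nat_lit 0) (nat_lit 4) true (nat_lit 9) true (nat_lit 14) false (nat_lit 3) true (nat_lit 17) true (nat_lit 18) (.s true (nat_lit 3) (nat_lit 48) (nat_lit 1) (nat_lit 1) (nat_lit 3) true (nat_lit 10) true (nat_lit 15) false (nat_lit 3) true (nat_lit 17) true (nat_lit 17) (.s false (nat_lit 2) (nat_lit 48) (nat_lit 1) (nat_lit 3) (nat_lit 1) true (nat_lit 14) true (nat_lit 17) false (nat_lit 3) true (nat_lit 17) true (nat_lit 15) (.s true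 (nat_lit 1) (nat_lit 48) (nat_lit 3) (nat_lit 1) (nat_lit 1) true (nat_lit 10) true (nat_lit 17) false (nat_lit 3) true (nat_lit 15) true (nat_lit 17) (.s true (nat_lit 2) (nat_lit 48) (nat_lit 4) (nat_lit 0) (nat_lit 1) true (nat_lit 9) true (nat_lit 17) false (nat_lit 3) true (nat_lit 14) true (nat_lit 18) (.s true (nat_lit 2) (nat_lit 48) (nat_lit 4) (nat_lit 1) (nat_lit 0) true (nat_lit 10) true (nat_lit 18) false (nat_lit 3) true (nat_lit 14) true (nat_lit 17) (.s false (nat_lit 3) (nat_lit 53) (nat_lit 2) (nat_lit 2) (nat_lit 2) true (nat_lit 11) true (nat_lit 16) false (nat_lit 4) true (nat_lit 16) true (nat_lit 16) (.s false (nat_lit 3) (nat_lit 54) (nat_lit 2) (nat_lit 2) (nat_lit 2) true (nat_lit 11) true (nat_lit 16) false (nat_lit 4) true (nat_lit 16) true (nat_lit 16) (.s true (nat_lit 2) (nat_lit 55) (nat_lit 2) (nat_lit 2) (nat_lit 2) true (nat_lit 11) true (nat_lit 16) false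 (nat_lit 4) true (nat_lit 16) true (nat_lit 16) (.s true (nat_lit 3) (nat_lit 57) (nat_lit 2) (nat_lit 2) (nat_lit 2) true (nat_lit 11) true (nat_lit 16) false (nat_lit 4) true (nat_lit 16) true (nat_lit 16) (.s false (nat_lit 1) (nat_lit 59) (nat_lit 2) (nat_lit 2) (nat_lit 2) true (nat_lit 11) true (nat_lit 16) false (nat_lit 4) true (nat_lit 16) true (nat_lit 16) (.s false (nat_lit 2) (nat_lit 60) (nat_lit 1) (nat_lit 2) (nat_lit 2) true (nat_lit 12) true (nat_lit 16) false (nat_lit 5) true (nat_lit 17) true (nat_lit 16) (.s false (nat_lit 1) (nat_lit 61) (nat_lit 1) (nat_lit 2) (nat_lit 2) true (nat_lit 12) true (nat_lit 16) false (nat_lit 5) true (nat_lit 17) true (nat_lit 16) (.s false (nat_lit 3) (nat_lit 62) (nat_lit 1) (nat_lit 2) (nat_lit 2) true (nat_lit 12) true (nat_lit 16) false (nat_lit 5) true (nat_lit 17) true (nat_lit 16) (.s true (nat_lit 2) (nat_lit 63) (nat_lit 1) (nat_lit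 2) (nat_lit 2) true (nat_lit 12) true (nat_lit 16) false (nat_lit 5) true (nat_lit 17) true (nat_lit 16) (.s false (nat_lit 2) (nat_lit 64) (nat_lit 1) (nat_lit 2) (nat_lit 2) true (nat_lit 12) true (nat_lit 16) false (nat_lit 5) true (nat_lit 17) true (nat_lit 16) (.s true (nat_lit 3) (nat_lit 65) (nat_lit 1) (nat_lit 2) (nat_lit 2) true (nat_lit 12) true (nat_lit 16) false (nat_lit 5) true (nat_lit 17) true (nat_lit 16) dC2c_i139)))))))))))))))))))))))))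

noncomputable def dC2c_i141 : IL := (.s true (nat_lit 3) (nat_lit 33) (nat_lit 1) (nat_lit 7) (nat_lit 1) true (nat_lit 14) true (nat_lit 17) true (nat_lit 0) true (nat_lit 17) true (nat_lit 11) (.s true (nat_lit 1) (nat_lit 38) (nat_lit 1) (nat_lit 7) (nat_lit 1) true (nat_lit 14) true (nat_lit 17) true (nat_lit 0) true (nat_lit 17) true (nat_lit 11) (.s true (nat_lit 2) (nat_lit 34) (nat_lit 2) (nat_lit 1) (nat_lit 6) true (nat_lit 5) true (nat_lit 12) true (nat_lit 0) true (nat_lit 16) true (nat_lit 17) (.s false (nat_lit 2) (nat_lit 36) (nat_lit 2) (nat_lit 1) (nat_lit 6) true (nat_lit 5) true (nat_lit 12) true (nat_lit 0) true (nat_lit 16) true (nat_lit 17) (.s false (nat_lit 2) (nat_lit 35) (nat_lit 2) (nat_lit 2) (nat_lit 4) true (nat_lit 7) true (nat_lit 14) true (nat_lit 0) true (nat_lit 16) true (nat_lit 16) (.s false (nat_lit 2) (nat_lit 36) (nat_lit 2) (nat_lit 2) (nat_lit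 4) true (nat_lit 7) true (nat_lit 14) true (nat_lit 0) true (nat_lit 16) true (nat_lit 16) (.s false (nat_lit 1) (nat_lit 38) (nat_lit 2) (nat_lit 2) (nat_lit 4) true (nat_lit 7) true (nat_lit 14) true (nat_lit 0) true (nat_lit 16) true (nat_lit 16) (.s false (nat_lit 1) (nat_lit 38) (nat_lit 4) (nat_lit 2) (nat_lit 2) true (nat_lit 7) true (nat_lit 16) true (nat_lit 0) true (nat_lit 14) true (nat_lit 16) (.s true (nat_lit 1) (nat_lit 33) (nat_lit 6) (nat_lit 2) (nat_lit 1) true (nat_lit 7) true (nat_lit 17) true (nat_lit 0) true (nat_lit 12) true (nat_lit 16) (.s false (nat_lit 1) (nat_lit 34) (nat_lit 6) (nat_lit 2) (nat_lit 1) true (nat_lit 7) true (nat_lit 17) true (nat_lit 0) true (nat_lit 12) true (nat_lit 16) (.s true (nat_lit 1) (nat_lit 40) (nat_lit 0) (nat_lit 2) (nat_lit 6) true (nat_lit 8) true (nat_lit 12) false (nat_lit 0) true (nat_lit 18) true (nat_lit 16) (.s false (nat_lit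 1) (nat_lit 40) (nat_lit 0) (nat_lit 7) (nat_lit 1) true (nat_lit 15) true (nat_lit 17) false (nat_lit 0) true (nat_lit 18) true (nat_lit 11) (.s true (nat_lit 1) (nat_lit 40) (nat_lit 2) (nat_lit 0) (nat_lit 6) true (nat_lit 5) true (nat_lit 12) false (nat_lit 0) true (nat_lit 16) true (nat_lit 18) (.s false (nat_lit 1) (nat_lit 41) (nat_lit 2) (nat_lit 3) (nat_lit 2) true (nat_lit 11) true (nat_lit 16) false (nat_lit 0) true (nat_lit 16) true (nat_lit 15) (.s true (nat_lit 3) (nat_lit 41) (nat_lit 3) (nat_lit 2) (nat_lit 2) true (nat_lit 8) true (nat_lit 16) false (nat_lit 0) true (nat_lit 15) true (nat_lit 16) (.s false (nat_lit 1) (nat_lit 40) (nat_lit 7) (nat_lit 0) (nat_lit 1) true (nat_lit 5) true (nat_lit 17) false (nat_lit 0) true (nat_lit 11) true (nat_lit 18) (.s false (nat_lit 2) (nat_lit 47) (nat_lit 0) (nat_lit 4) (nat_lit 2) true (nat_lit 13) true (nat_lit 16) false (nat_lit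 2) true (nat_lit 18) true (nat_lit 14) (.s false (nat_lit 3) (nat_lit 45) (nat_lit 1) (nat_lit 1) (nat_lit 5) true (nat_lit 8) true (nat_lit 13) false (nat_lit 2) true (nat_lit 17) true (nat_lit 17) (.s false (nat_lit 3) (nat_lit 46) (nat_lit 1) (nat_lit 3) (nat_lit 2) true (nat_lit 12) true (nat_lit 16) false (nat_lit 2) true (nat_lit 17) true (nat_lit 15) (.s false (nat_lit 3) (nat_lit 47) (nat_lit 1) (nat_lit 3) (nat_lit 2) true (nat_lit 12) true (nat_lit 16) false (nat_lit 2) true (nat_lit 17) true (nat_lit 15) (.s true (nat_lit 3) (nat_lit 45) (nat_lit 1) (nat_lit 5) (nat_lit 1) true (nat_lit 14) true (nat_lit 17) false (nat_lit 2) true (nat_lit 17) true (nat_lit 13) (.s false (nat_lit 3) (nat_lit 46) (nat_lit 2) (nat_lit 3) (nat_lit 1) true (nat_lit 12) true (nat_lit 17) false (nat_lit 2) true (nat_lit 16) true (nat_lit 15) (.s false (nat_lit 3) (nat_lit 47) (nat_lit 2) (nat_lit 3)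 (nat_lit 1) true (nat_lit 12) true (nat_lit 17) false (nat_lit 2) true (nat_lit 16) true (nat_lit 15) (.s false (nat_lit 3) (nat_lit 45) (nat_lit 2) (nat_lit 4) (nat_lit 0) true (nat_lit 13) true (nat_lit 18) false (nat_lit 2) true (nat_lit 16) true (nat_lit 14) (.s true (nat_lit 2) (nat_lit 45) (nat_lit 3) (nat_lit 1) (nat_lit 2) true (nat_lit 8) true (nat_lit 16) false (nat_lit 2) true (nat_lit 15) true (nat_lit 17) dC2c_i140)))))))))))))))))))))))))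

noncomputable def dC2c_i142 : IL := (.s false (nat_lit 2) (nat_lit 21) (nat_lit 7) (nat_lit 2) (nat_lit 2) true (nat_lit 4) true (nat_lit 16) true (nat_lit 3) true (nat_lit 11) true (nat_lit 16) (.s false (nat_lit 1) (nat_lit 22) (nat_lit 7) (nat_lit 2) (nat_lit 2) true (nat_lit 4) true (nat_lit 16) true (nat_lit 3) true (nat_lit 11) true (nat_lit 16) (.s true (nat_lit 3) (nat_lit 23) (nat_lit 7) (nat_lit 2) (nat_lit 2) true (nat_lit 4) true (nat_lit 16) true (nat_lit 3) true (nat_lit 11) true (nat_lit 16) (.s false (nat_lit 1) (nat_lit 25) (nat_lit 1) (nat_lit 2) (nat_lit 7) true (nat_lit 5) true (nat_lit 11) true (nat_lit 2) true (nat_lit 17) true (nat_lit 16) (.s false (nat_lit 2) (nat_lit 26) (nat_lit 1) (nat_lit 2) (nat_lit 7) true (nat_lit 5) true (nat_lit 11) true (nat_lit 2) true (nat_lit 17) true (nat_lit 16) (.s true (nat_lit 1) (nat_lit 27) (nat_lit 1) (nat_lit 2) (nat_lit 7)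 true (nat_lit 5) true (nat_lit 11) true (nat_lit 2) true (nat_lit 17) true (nat_lit 16) (.s true (nat_lit 2) (nat_lit 24) (nat_lit 1) (nat_lit 7) (nat_lit 2) true (nat_lit 12) true (nat_lit 16) true (nat_lit 2) true (nat_lit 17) true (nat_lit 11) (.s true (nat_lit 2) (nat_lit 25) (nat_lit 1) (nat_lit 7) (nat_lit 2) true (nat_lit 12) true (nat_lit 16) true (nat_lit 2) true (nat_lit 17) true (nat_lit 11) (.s false (nat_lit 2) (nat_lit 27) (nat_lit 1) (nat_lit 7) (nat_lit 2) true (nat_lit 12) true (nat_lit 16) true (nat_lit 2) true (nat_lit 17) true (nat_lit 11) (.s false (nat_lit 3) (nat_lit 25) (nat_lit 2) (nat_lit 1) (nat_lit 7) true (nat_lit 4) true (nat_lit 11) true (nat_lit 2) true (nat_lit 16) true (nat_lit 17) (.s true (nat_lit 1) (nat_lit 27) (nat_lit 2) (nat_lit 1) (nat_lit 7) true (nat_lit 4) true (nat_lit 11) true (nat_lit 2) true (nat_lit 16) true (nat_lit 17) (.s true (nat_lit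 1) (nat_lit 24) (nat_lit 2) (nat_lit 2) (nat_lit 6) true (nat_lit 5) true (nat_lit 12) true (nat_lit 2) true (nat_lit 16) true (nat_lit 16) (.s true (nat_lit 3) (nat_lit 27) (nat_lit 2) (nat_lit 2) (nat_lit 6) true (nat_lit 5) true (nat_lit 12) true (nat_lit 2) true (nat_lit 16) true (nat_lit 16) (.s true (nat_lit 1) (nat_lit 29) (nat_lit 2) (nat_lit 6) (nat_lit 2) true (nat_lit 11) true (nat_lit 16) true (nat_lit 2) true (nat_lit 16) true (nat_lit 12) (.s false (nat_lit 1) (nat_lit 26) (nat_lit 6) (nat_lit 2) (nat_lit 2) true (nat_lit 5) true (nat_lit 16) true (nat_lit 2) true (nat_lit 12) true (nat_lit 16) (.s true (nat_lit 2) (nat_lit 29) (nat_lit 6) (nat_lit 2) (nat_lit 2) true (nat_lit 5) true (nat_lit 16) true (nat_lit 2) true (nat_lit 12) true (nat_lit 16) (.s true (nat_lit 1) (nat_lit 25) (nat_lit 7) (nat_lit 2) (nat_lit 1) true (nat_lit 5) true (nat_lit 17) true (nat_lit 2) true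 (nat_lit 11) true (nat_lit 16) (.s false (nat_lit 3) (nat_lit 30) (nat_lit 0) (nat_lit 2) (nat_lit 7) true (nat_lit 6) true (nat_lit 11) true (nat_lit 1) true (nat_lit 18) true (nat_lit 16) (.s true (nat_lit 3) (nat_lit 30) (nat_lit 2) (nat_lit 2) (nat_lit 5) true (nat_lit 6) true (nat_lit 13) true (nat_lit 1) true (nat_lit 16) true (nat_lit 16) (.s false (nat_lit 3) (nat_lit 30) (nat_lit 2) (nat_lit 5) (nat_lit 2) true (nat_lit 11) true (nat_lit 16) true (nat_lit 1) true (nat_lit 16) true (nat_lit 13) (.s true (nat_lit 2) (nat_lit 34) (nat_lit 1) (nat_lit 1) (nat_lit 7) true (nat_lit 5) true (nat_lit 11) true (nat_lit 0) true (nat_lit 17) true (nat_lit 17) (.s false (nat_lit 2) (nat_lit 38) (nat_lit 1) (nat_lit 1) (nat_lit 7) true (nat_lit 5) true (nat_lit 11) true (nat_lit 0) true (nat_lit 17) true (nat_lit 17) (.s false (nat_lit 1) (nat_lit 35) (nat_lit 1) (nat_lit 2) (nat_lit 6) true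 (nat_lit 7) true (nat_lit 12) true (nat_lit 0) true (nat_lit 17) true (nat_lit 16) (.s false (nat_lit 1) (nat_lit 34) (nat_lit 1) (nat_lit 6) (nat_lit 2) true (nat_lit 12) true (nat_lit 16) true (nat_lit 0) true (nat_lit 17) true (nat_lit 12) (.s false (nat_lit 2) (nat_lit 38) (nat_lit 1) (nat_lit 6) (nat_lit 2) true (nat_lit 12) true (nat_lit 16) true (nat_lit 0) true (nat_lit 17) true (nat_lit 12) dC2c_i141)))))))))))))))))))))))))

noncomputable def dC2c_i143 : IL := (.s true (nat_lit 2) (nat_lit 20) (nat_lit 0) (nat_lit 14) (nat_lit 1) true (nat_lit 15) true (nat_lit 17) true (nat_lit 4) true (nat_lit 18) true (nat_lit 7) (.s false (nat_lit 2) (nat_lit 20) (nat_lit 1) (nat_lit 0) (nat_lit 14) true (nat_lit 1) true (nat_lit 7) true (nat_lit 4) true (nat_lit 17) true (nat_lit 18) (.s false (nat_lit 2) (nat_lit 20) (nat_lit 1) (nat_lit 1) (nat_lit 12) true (nat_lit 2) true (nat_lit 8)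 true (nat_lit 4) true (nat_lit 17) true (nat_lit 17) (.s false (nat_lit 3) (nat_lit 20) (nat_lit 1) (nat_lit 2) (nat_lit 8) true (nat_lit 3) true (nat_lit 10) true (nat_lit 4) true (nat_lit 17) true (nat_lit 16) (.s true (nat_lit 1) (nat_lit 20) (nat_lit 1) (nat_lit 3) (nat_lit 6) true (nat_lit 7) true (nat_lit 12) true (nat_lit 4) true (nat_lit 17) true (nat_lit 15) (.s true (nat_lit 3) (nat_lit 20) (nat_lit 1) (nat_lit 5) (nat_lit 4) true (nat_lit 9) true (nat_lit 14) true (nat_lit 4) true (nat_lit 17) true (nat_lit 13) (.s false (nat_lit 2) (nat_lit 20) (nat_lit 1) (nat_lit 8) (nat_lit 2) true (nat_lit 12) true (nat_lit 16) true (nat_lit 4) true (nat_lit 17) true (nat_lit 10) (.s true (nat_lit 1) (nat_lit 20) (nat_lit 1) (nat_lit 9) (nat_lit 2) true (nat_lit 12) true (nat_lit 16) true (nat_lit 4) true (nat_lit 17) true (nat_lit 10) (.s false (nat_lit 3) (nat_lit 20) (nat_lit 1) (nat_lit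 11) (nat_lit 1) true (nat_lit 14) true (nat_lit 17) true (nat_lit 4) true (nat_lit 17) true (nat_lit 8) (.s true (nat_lit 3) (nat_lit 20) (nat_lit 1) (nat_lit 15) (nat_lit 0) true (nat_lit 15) true (nat_lit 18) true (nat_lit 4) true (nat_lit 17) true (nat_lit 7) (.s true (nat_lit 3) (nat_lit 20) (nat_lit 2) (nat_lit 1) (nat_lit 8) true (nat_lit 2) true (nat_lit 10) true (nat_lit 4) true (nat_lit 16) true (nat_lit 17) (.s true (nat_lit 1) (nat_lit 20) (nat_lit 2) (nat_lit 3) (nat_lit 4) true (nat_lit 7) true (nat_lit 14) true (nat_lit 4) true (nat_lit 16) true (nat_lit 15) (.s false (nat_lit 2) (nat_lit 20) (nat_lit 3) (nat_lit 2) (nat_lit 4) true (nat_lit 3) true (nat_lit 14) true (nat_lit 4) true (nat_lit 15) true (nat_lit 16) (.s true (nat_lit 2) (nat_lit 20) (nat_lit 5) (nat_lit 4) (nat_lit 1) true (nat_lit 8) true (nat_lit 17) true (nat_lit 4) true (nat_lit 13) true (nat_lit 14) (.s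 true (nat_lit 2) (nat_lit 20) (nat_lit 9) (nat_lit 1) (nat_lit 2) true (nat_lit 2) true (nat_lit 16) true (nat_lit 4) true (nat_lit 10) true (nat_lit 17) (.s false (nat_lit 2) (nat_lit 20) (nat_lit 8) (nat_lit 2) (nat_lit 1) true (nat_lit 3) true (nat_lit 17) true (nat_lit 4) true (nat_lit 10) true (nat_lit 16) (.s true (nat_lit 2) (nat_lit 20) (nat_lit 11) (nat_lit 1) (nat_lit 1) true (nat_lit 2) true (nat_lit 17) true (nat_lit 4) true (nat_lit 8) true (nat_lit 17) (.s false (nat_lit 1) (nat_lit 20) (nat_lit 12) (nat_lit 1) (nat_lit 1) true (nat_lit 2) true (nat_lit 17) true (nat_lit 4) true (nat_lit 8) true (nat_lit 17) (.s true (nat_lit 2) (nat_lit 20) (nat_lit 14) (nat_lit 0) (nat_lit 1) true (nat_lit 1) true (nat_lit 17) true (nat_lit 4) true (nat_lit 7) true (nat_lit 18) (.s false (nat_lit 3) (nat_lit 20) (nat_lit 15) (nat_lit 1) (nat_lit 0) true (nat_lit 2) true (nat_lit 18) true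 (nat_lit 4) true (nat_lit 7) true (nat_lit 17) (.s false (nat_lit 1) (nat_lit 21) (nat_lit 2) (nat_lit 2) (nat_lit 7) true (nat_lit 4) true (nat_lit 11) true (nat_lit 3) true (nat_lit 16) true (nat_lit 16) (.s true (nat_lit 1) (nat_lit 22) (nat_lit 2) (nat_lit 2) (nat_lit 7) true (nat_lit 4) true (nat_lit 11) true (nat_lit 3) true (nat_lit 16) true (nat_lit 16) (.s true (nat_lit 1) (nat_lit 23) (nat_lit 2) (nat_lit 2) (nat_lit 7) true (nat_lit 4) true (nat_lit 11) true (nat_lit 3) true (nat_lit 16) true (nat_lit 16) (.s false (nat_lit 3) (nat_lit 21) (nat_lit 2) (nat_lit 7) (nat_lit 2) true (nat_lit 11) true (nat_lit 16) true (nat_lit 3) true (nat_lit 16) true (nat_lit 11) (.s false (nat_lit 1) (nat_lit 22) (nat_lit 2) (nat_lit 7) (nat_lit 2) true (nat_lit 11) true (nat_lit 16) true (nat_lit 3) true (nat_lit 16) true (nat_lit 11) dC2c_i142)))))))))))))))))))))))))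

noncomputable def dC2c_i144 : IL := (.s true (nat_lit 3) (nat_lit 11) (nat_lit 1) (nat_lit 7) (nat_lit 6) true (nat_lit 7) true (nat_lit 12) true (nat_lit 8) true (nat_lit 17) true (nat_lit 11) (.s true (nat_lit 2) (nat_lit 11) (nat_lit 2) (nat_lit 6) (nat_lit 6) true (nat_lit 5) true (nat_lit 12) true (nat_lit 8) true (nat_lit 16) true (nat_lit 12) (.s false (nat_lit 1) (nat_lit 12) (nat_lit 2) (nat_lit 7) (nat_lit 4) true (nat_lit 7) true (nat_lit 14) true (nat_lit 8) true (nat_lit 16) true (nat_lit 11) (.s true (nat_lit 2) (nat_lit 11) (nat_lit 6) (nat_lit 6) (nat_lit 2) true (nat_lit 5) true (nat_lit 16) true (nat_lit 8) true (nat_lit 12) true (nat_lit 12) (.s true (nat_lit 3) (nat_lit 13) (nat_lit 6) (nat_lit 6) (nat_lit 2) true (nat_lit 5) true (nat_lit 16) true (nat_lit 8) true (nat_lit 12) true (nat_lit 12) (.s true (nat_lit 2) (nat_lit 14) (nat_lit 2) (nat_lit 7) (nat_lit 3) true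 (nat_lit 8) true (nat_lit 15) true (nat_lit 7) true (nat_lit 16) true (nat_lit 11) (.s true (nat_lit 2) (nat_lit 15) (nat_lit 2) (nat_lit 7) (nat_lit 3) true (nat_lit 8) true (nat_lit 15) true (nat_lit 7) true (nat_lit 16) true (nat_lit 11) (.s false (nat_lit 3) (nat_lit 15) (nat_lit 3) (nat_lit 7) (nat_lit 2) true (nat_lit 8) true (nat_lit 16) true (nat_lit 7) true (nat_lit 15) true (nat_lit 11) (.s true (nat_lit 3) (nat_lit 16) (nat_lit 2) (nat_lit 2) (nat_lit 10) true (nat_lit 1) true (nat_lit 9) true (nat_lit 6) true (nat_lit 16) true (nat_lit 16) (.s false (nat_lit 1) (nat_lit 18) (nat_lit 0) (nat_lit 2) (nat_lit 15) true (nat_lit 2) true (nat_lit 7) true (nat_lit 5) true (nat_lit 18) true (nat_lit 16) (.s false (nat_lit 3) (nat_lit 19) (nat_lit 0) (nat_lit 2) (nat_lit 15) true (nat_lit 2) true (nat_lit 7) true (nat_lit 5) true (nat_lit 18) true (nat_lit 16) (.s false (nat_lit 1) (nat_lit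 18) (nat_lit 1) (nat_lit 7) (nat_lit 3) true (nat_lit 10) true (nat_lit 15) true (nat_lit 5) true (nat_lit 17) true (nat_lit 11) (.s true (nat_lit 3) (nat_lit 19) (nat_lit 2) (nat_lit 1) (nat_lit 11) true (nat_lit 0) true (nat_lit 8) true (nat_lit 5) true (nat_lit 16) true (nat_lit 17) (.s true (nat_lit 2) (nat_lit 18) (nat_lit 2) (nat_lit 2) (nat_lit 8) true (nat_lit 2) true (nat_lit 10) true (nat_lit 5) true (nat_lit 16) true (nat_lit 16) (.s true (nat_lit 1) (nat_lit 19) (nat_lit 2) (nat_lit 2) (nat_lit 8) true (nat_lit 2) true (nat_lit 10) true (nat_lit 5) true (nat_lit 16) true (nat_lit 16) (.s true (nat_lit 1) (nat_lit 19) (nat_lit 2) (nat_lit 3) (nat_lit 6) true (nat_lit 5) true (nat_lit 12) true (nat_lit 5) true (nat_lit 16) true (nat_lit 15) (.s true (nat_lit 3) (nat_lit 18) (nat_lit 2) (nat_lit 11) (nat_lit 1) true (nat_lit 12) true (nat_lit 17) true (nat_lit 5) true (nat_lit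 16) true (nat_lit 8) (.s true (nat_lit 3) (nat_lit 19) (nat_lit 3) (nat_lit 2) (nat_lit 6) true (nat_lit 2) true (nat_lit 12) true (nat_lit 5) true (nat_lit 15) true (nat_lit 16) (.s false (nat_lit 3) (nat_lit 18) (nat_lit 8) (nat_lit 2) (nat_lit 2) true (nat_lit 2) true (nat_lit 16) true (nat_lit 5) true (nat_lit 10) true (nat_lit 16) (.s false (nat_lit 3) (nat_lit 18) (nat_lit 9) (nat_lit 2) (nat_lit 2) true (nat_lit 2) true (nat_lit 16) true (nat_lit 5) true (nat_lit 10) true (nat_lit 16) (.s false (nat_lit 2) (nat_lit 19) (nat_lit 9) (nat_lit 2) (nat_lit 2) true (nat_lit 2) true (nat_lit 16) true (nat_lit 5) true (nat_lit 10) true (nat_lit 16) (.s false (nat_lit 1) (nat_lit 18) (nat_lit 11) (nat_lit 1) (nat_lit 2) true (nat_lit 0) true (nat_lit 16) true (nat_lit 5) true (nat_lit 8) true (nat_lit 17) (.s true (nat_lit 1) (nat_lit 19) (nat_lit 11) (nat_lit 1) (nat_lit 2) true (nat_lit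 0) true (nat_lit 16) true (nat_lit 5) true (nat_lit 8) true (nat_lit 17) (.s false (nat_lit 1) (nat_lit 18) (nat_lit 11) (nat_lit 2) (nat_lit 1) true (nat_lit 2) true (nat_lit 17) true (nat_lit 5) true (nat_lit 8) true (nat_lit 16) (.s true (nat_lit 3) (nat_lit 20) (nat_lit 0) (nat_lit 1) (nat_lit 15) true (nat_lit 2) true (nat_lit 7) true (nat_lit 4) true (nat_lit 18) true (nat_lit 17) dC2c_i143)))))))))))))))))))))))))

noncomputable def dC2c_i145 : IL := (.e false (nat_lit 1) (nat_lit 255) (nat_lit 2) (nat_lit 14) (.e true (nat_lit 2) (nat_lit 48) (nat_lit 26) (nat_lit 2) (.e false (nat_lit 2) (nat_lit 306) (nat_lit 1) (nat_lit 15) (.e false (nat_lit 2) (nat_lit 307) (nat_lit 1) (nat_lit 15) (.e true (nat_lit 3) (nat_lit 308) (nat_lit 1) (nat_lit 15) (.e false (nat_lit 3) (nat_lit 310) (nat_lit 1) (nat_lit 15) (.e false (nat_lit 1) (nat_lit 311) (nat_lit 1) (nat_lit 15) (.e false (nat_lit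 1) (nat_lit 312) (nat_lit 1) (nat_lit 15) (.e true (nat_lit 2) (nat_lit 314) (nat_lit 1) (nat_lit 15) (.e true (nat_lit 1) (nat_lit 317) (nat_lit 1) (nat_lit 15) (.e false (nat_lit 1) (nat_lit 322) (nat_lit 1) (nat_lit 15) (.e false (nat_lit 1) (nat_lit 318) (nat_lit 1) (nat_lit 15) (.e false (nat_lit 2) (nat_lit 315) (nat_lit 1) (nat_lit 15) (.e false (nat_lit 3) (nat_lit 284) (nat_lit 2) (nat_lit 14) (.e false (nat_lit 2) (nat_lit 153) (nat_lit 7) (nat_lit 9) (.e true (nat_lit 3) (nat_lit 325) (nat_lit 0) (nat_lit 16) (.e false (nat_lit 3) (nat_lit 326) (nat_lit 0) (nat_lit 16) (.e true (nat_lit 3) (nat_lit 327) (nat_lit 0) (nat_lit 16) (.e false (nat_lit 1) (nat_lit 328) (nat_lit 0) (nat_lit 16) (.e false (nat_lit 3) (nat_lit 329) (nat_lit 0) (nat_lit 16) (.e false (nat_lit 1) (nat_lit 333) (nat_lit 0) (nat_lit 16) (.e false (nat_lit 2) (nat_lit 324) (nat_lit 0) (nat_lit 16) (.e true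 (nat_lit 1) (nat_lit 330) (nat_lit 0) (nat_lit 16) (.u (nat_lit 2) (.n (nat_lit 0) (nat_lit 1) (.n (nat_lit 1) (nat_lit 3) (.n (nat_lit 2) (nat_lit 1) (.n (nat_lit 3) (nat_lit 1) (.p (nat_lit 4) (nat_lit 1) (.p (nat_lit 5) (nat_lit 1) (.p (nat_lit 6) (nat_lit 3) (.n (nat_lit 10) (nat_lit 2) (.p (nat_lit 12) (nat_lit 2) (.n (nat_lit 13) (nat_lit 2) (.p (nat_lit 14) (nat_lit 2) (.n (nat_lit 17) (nat_lit 2) (.p (nat_lit 18) (nat_lit 1) (.p (nat_lit 21) (nat_lit 1) (.n (nat_lit 24) (nat_lit 3) (.p (nat_lit 35) (nat_lit 1) (.n (nat_lit 38) (nat_lit 1) (.n (nat_lit 74) (nat_lit 1) (.p (nat_lit 78) (nat_lit 1) (.n (nat_lit 84) (nat_lit 1) (.p (nat_lit 85) (nat_lit 2) (.p (nat_lit 105) (nat_lit 1) (.n (nat_lit 129) (nat_lit 1) (.p (nat_lit 130) (nat_lit 1) (.p (nat_lit 144) (nat_lit 2) (.n (nat_lit 151) (nat_lit 2) (.n (nat_lit 155) (nat_lit 1) (.n (nat_lit 157) (nat_lit 2) (.n (nat_lit 159) (nat_lit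 1) (.n (nat_lit 161) (nat_lit 2) (.n (nat_lit 164) (nat_lit 1) (.n (nat_lit 165) (nat_lit 2) (.p (nat_lit 166) (nat_lit 2) (.p (nat_lit 176) (nat_lit 1) (.n (nat_lit 200) (nat_lit 1) (.p (nat_lit 201) (nat_lit 1) (.n (nat_lit 203) (nat_lit 1) (.n (nat_lit 204) (nat_lit 5) (.p (nat_lit 205) (nat_lit 1) (.n (nat_lit 206) (nat_lit 5) (.n (nat_lit 207) (nat_lit 2) (.n (nat_lit 208) (nat_lit 2) (.n (nat_lit 209) (nat_lit 6) (.n (nat_lit 210) (nat_lit 5) (.n (nat_lit 211) (nat_lit 2) (.p (nat_lit 212) (nat_lit 2) (.n (nat_lit 213) (nat_lit 3) (.n (nat_lit 214) (nat_lit 4) (.p (nat_lit 215) (nat_lit 1) (.n (nat_lit 216) (nat_lit 2) (.n (nat_lit 217) (nat_lit 2) (.n (nat_lit 218) (nat_lit 5) (.n (nat_lit 219) (nat_lit 1) (.n (nat_lit 221) (nat_lit 5) (.p (nat_lit 222) (nat_lit 2) (.p (nat_lit 223) (nat_lit 4) (.p (nat_lit 224) (nat_lit 6) (.p (nat_lit 225) (nat_lit 6) (.p (nat_lit 226) (nat_lit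 3) (.p (nat_lit 227) (nat_lit 4) .z)))))))))))))))))))))))))))))))))))))))))))))))))))))))))))) (.u (nat_lit 2) (.n (nat_lit 228) (nat_lit 4) (.n (nat_lit 229) (nat_lit 4) (.n (nat_lit 235) (nat_lit 2) (.n (nat_lit 236) (nat_lit 1) (.p (nat_lit 237) (nat_lit 3) (.n (nat_lit 242) (nat_lit 1) (.n (nat_lit 243) (nat_lit 3) (.n (nat_lit 244) (nat_lit 4) (.n (nat_lit 245) (nat_lit 1) (.n (nat_lit 247) (nat_lit 2) (.n (nat_lit 248) (nat_lit 2) (.p (nat_lit 250) (nat_lit 1) (.p (nat_lit 251) (nat_lit 4) (.p (nat_lit 253) (nat_lit 2) (.n (nat_lit 254) (nat_lit 1) (.n (nat_lit 257) (nat_lit 1) (.n (nat_lit 260) (nat_lit 2) (.p (nat_lit 261) (nat_lit 3) (.n (nat_lit 264) (nat_lit 1) (.n (nat_lit 265) (nat_lit 3) (.p (nat_lit 266) (nat_lit 1) (.n (nat_lit 269) (nat_lit 1) .z)))))))))))))))))))))) .nil)))))))))))))))))))))))))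

noncomputable def dC2c_i146 : IL := (.s false (nat_lit 3) (nat_lit 47) (nat_lit 3) (nat_lit 2) (nat_lit 2) true (nat_lit 7) true (nat_lit 14) false (nat_lit 1) true (nat_lit 13) true (nat_lit 14) (.s false (nat_lit 3) (nat_lit 48) (nat_lit 3) (nat_lit 2) (nat_lit 1) true (nat_lit 8) true (nat_lit 15) false (nat_lit 2) true (nat_lit 13) true (nat_lit 14) (.s false (nat_lit 3) (nat_lit 66) (nat_lit 2) (nat_lit 2) (nat_lit 2) true (nat_lit 9) true (nat_lit 14) false (nat_lit 3) true (nat_lit 14) true (nat_lit 14) (.s true (nat_lit 1) (nat_lit 73) (nat_lit 2) (nat_lit 2) (nat_lit 2) true (nat_lit 9) true (nat_lit 14) false (nat_lit 3) true (nat_lit 14) true (nat_lit 14) (.s true (nat_lit 1) (nat_lit 80) (nat_lit 1) (nat_lit 2) (nat_lit 2) true (nat_lit 10) true (nat_lit 14) false (nat_lit 4) true (nat_lit 15) true (nat_lit 14) (.s false (nat_lit 2) (nat_lit 88) (nat_lit 1) (nat_lit 2) (nat_lit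 2) true (nat_lit 10) true (nat_lit 14) false (nat_lit 4) true (nat_lit 15) true (nat_lit 14) (.s false (nat_lit 1) (nat_lit 88) (nat_lit 2) (nat_lit 1) (nat_lit 2) true (nat_lit 9) true (nat_lit 14) false (nat_lit 4) true (nat_lit 14) true (nat_lit 15) (.s true (nat_lit 1) (nat_lit 88) (nat_lit 2) (nat_lit 2) (nat_lit 1) true (nat_lit 10) true (nat_lit 15) false (nat_lit 4) true (nat_lit 14) true (nat_lit 14) (.s false (nat_lit 3) (nat_lit 103) (nat_lit 0) (nat_lit 1) (nat_lit 2) true (nat_lit 11) true (nat_lit 14) false (nat_lit 7) true (nat_lit 16) true (nat_lit 15) (.s false (nat_lit 3) (nat_lit 103) (nat_lit 1) (nat_lit 2) (nat_lit 0) true (nat_lit 13) true (nat_lit 16) false (nat_lit 7) true (nat_lit 15) true (nat_lit 14) (.s true (nat_lit 3) (nat_lit 103) (nat_lit 2) (nat_lit 1) (nat_lit 0) true (nat_lit 11) true (nat_lit 16) false (nat_lit 7) true (nat_lit 14) true (nat_lit 15) (.s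 true (nat_lit 3) (nat_lit 105) (nat_lit 0) (nat_lit 1) (nat_lit 1) true (nat_lit 13) true (nat_lit 15) false (nat_lit 8) true (nat_lit 16) true (nat_lit 15) (.e false (nat_lit 3) (nat_lit 134) (nat_lit 7) (nat_lit 9) (.e true (nat_lit 1) (nat_lit 152) (nat_lit 7) (nat_lit 9) (.e false (nat_lit 2) (nat_lit 265) (nat_lit 2) (nat_lit 14) (.e true (nat_lit 2) (nat_lit 272) (nat_lit 2) (nat_lit 14) (.e true (nat_lit 3) (nat_lit 274) (nat_lit 2) (nat_lit 14) (.e true (nat_lit 1) (nat_lit 285) (nat_lit 2) (nat_lit 14) (.e false (nat_lit 2) (nat_lit 264) (nat_lit 2) (nat_lit 14) (.e false (nat_lit 1) (nat_lit 313) (nat_lit 1) (nat_lit 15) (.e true (nat_lit 1) (nat_lit 72) (nat_lit 20) (nat_lit 3) (.e true (nat_lit 1) (nat_lit 252) (nat_lit 2) (nat_lit 14) (.e true (nat_lit 1) (nat_lit 253) (nat_lit 2) (nat_lit 14) (.e true (nat_lit 1) (nat_lit 257) (nat_lit 2) (nat_lit 14) (.e false (nat_lit 3)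 (nat_lit 283) (nat_lit 2) (nat_lit 14) dC2c_i145)))))))))))))))))))))))))

noncomputable def dC2c_i147 : IL := (.e true (nat_lit 2) (nat_lit 118) (nat_lit 2) (nat_lit 12) (.e false (nat_lit 1) (nat_lit 129) (nat_lit 2) (nat_lit 12) (.e false (nat_lit 3) (nat_lit 25) (nat_lit 18) (nat_lit 1) (.e true (nat_lit 3) (nat_lit 28) (nat_lit 19) (nat_lit 1) (.e true (nat_lit 3) (nat_lit 141) (nat_lit 1) (nat_lit 13) (.e false (nat_lit 1) (nat_lit 154) (nat_lit 1) (nat_lit 13) (.e false (nat_lit 1) (nat_lit 155) (nat_lit 1) (nat_lit 13) (.e true (nat_lit 1) (nat_lit 72) (nat_lit 6) (nat_lit 8) (.e true (nat_lit 2) (nat_lit 106) (nat_lit 2) (nat_lit 12) (.e true (nat_lit 3) (nat_lit 111) (nat_lit 2) (nat_lit 12) (.e false (nat_lit 2) (nat_lit 119) (nat_lit 2) (nat_lit 12) (.e true (nat_lit 2) (nat_lit 120) (nat_lit 2) (nat_lit 12) (.e true (nat_lit 2) (nat_lit 123) (nat_lit 2) (nat_lit 12) (.e true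 (nat_lit 3) (nat_lit 126) (nat_lit 2) (nat_lit 12) (.e false (nat_lit 3) (nat_lit 127) (nat_lit 2) (nat_lit 12) (.e true (nat_lit 1) (nat_lit 128) (nat_lit 2) (nat_lit 12) (.e false (nat_lit 1) (nat_lit 130) (nat_lit 2) (nat_lit 12) (.e false (nat_lit 2) (nat_lit 67) (nat_lit 6) (nat_lit 8) (.e false (nat_lit 3) (nat_lit 121) (nat_lit 2) (nat_lit 12) (.e true (nat_lit 2) (nat_lit 124) (nat_lit 2) (nat_lit 12) (.e false (nat_lit 2) (nat_lit 27) (nat_lit 18) (nat_lit 1) (.e false (nat_lit 2) (nat_lit 64) (nat_lit 6) (nat_lit 8) (.e true (nat_lit 2) (nat_lit 40) (nat_lit 11) (nat_lit 4) (.u (nat_lit 2) (.p (nat_lit 0) (nat_lit 3) (.n (nat_lit 1) (nat_lit 4) (.n (nat_lit 2) (nat_lit 2) (.n (nat_lit 4) (nat_lit 3) (.p (nat_lit 5) (nat_lit 2) (.p (nat_lit 6) (nat_lit 3) (.n (nat_lit 7) (nat_lit 1) (.p (nat_lit 8) (nat_lit 2) (.n (nat_lit 9) (nat_lit 2) (.p (nat_lit 11) (nat_lit 1) (.p (nat_lit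 12) (nat_lit 4) (.n (nat_lit 14) (nat_lit 1) (.p (nat_lit 16) (nat_lit 3) (.p (nat_lit 20) (nat_lit 3) (.p (nat_lit 21) (nat_lit 2) (.p (nat_lit 23) (nat_lit 1) (.p (nat_lit 24) (nat_lit 2) (.n (nat_lit 25) (nat_lit 1) (.n (nat_lit 27) (nat_lit 1) (.n (nat_lit 28) (nat_lit 2) (.p (nat_lit 29) (nat_lit 1) (.n (nat_lit 33) (nat_lit 1) (.p (nat_lit 38) (nat_lit 2) (.n (nat_lit 41) (nat_lit 4) (.n (nat_lit 42) (nat_lit 3) (.n (nat_lit 43) (nat_lit 2) (.p (nat_lit 44) (nat_lit 2) (.p (nat_lit 45) (nat_lit 2) (.p (nat_lit 46) (nat_lit 2) (.n (nat_lit 87) (nat_lit 1) (.p (nat_lit 88) (nat_lit 1) (.n (nat_lit 110) (nat_lit 1) (.p (nat_lit 146) (nat_lit 4) (.n (nat_lit 147) (nat_lit 1) (.n (nat_lit 148) (nat_lit 1) (.n (nat_lit 149) (nat_lit 1) (.p (nat_lit 150) (nat_lit 5) (.p (nat_lit 151) (nat_lit 1) (.n (nat_lit 152) (nat_lit 2) (.n (nat_lit 153) (nat_lit 2) (.p (nat_lit 154) (nat_lit 3) (.p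 (nat_lit 155) (nat_lit 3) (.n (nat_lit 156) (nat_lit 4) (.p (nat_lit 157) (nat_lit 3) (.n (nat_lit 158) (nat_lit 3) (.n (nat_lit 159) (nat_lit 2) (.n (nat_lit 160) (nat_lit 2) (.n (nat_lit 161) (nat_lit 1) (.p (nat_lit 162) (nat_lit 6) (.n (nat_lit 166) (nat_lit 1) (.n (nat_lit 167) (nat_lit 1) (.n (nat_lit 170) (nat_lit 3) (.n (nat_lit 171) (nat_lit 3) (.n (nat_lit 172) (nat_lit 1) (.n (nat_lit 173) (nat_lit 1) (.p (nat_lit 174) (nat_lit 1) (.p (nat_lit 175) (nat_lit 1) (.p (nat_lit 176) (nat_lit 1) (.n (nat_lit 177) (nat_lit 1) (.n (nat_lit 178) (nat_lit 1) .z)))))))))))))))))))))))))))))))))))))))))))))))))))))))))))) (.u (nat_lit 2) (.p (nat_lit 179) (nat_lit 3) (.n (nat_lit 180) (nat_lit 3) (.p (nat_lit 181) (nat_lit 3) (.p (nat_lit 183) (nat_lit 2) (.p (nat_lit 187) (nat_lit 2) (.n (nat_lit 189) (nat_lit 1) (.n (nat_lit 190) (nat_lit 2) (.p (nat_lit 193) (nat_lit 1) (.n (nat_lit 195)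 (nat_lit 1) (.p (nat_lit 196) (nat_lit 1) .z)))))))))) .nil)))))))))))))))))))))))))

noncomputable def dC2c_i148 : IL := (.e false (nat_lit 2) (nat_lit 152) (nat_lit 1) (nat_lit 13) (.e true (nat_lit 3) (nat_lit 157) (nat_lit 1) (nat_lit 13) (.e true (nat_lit 2) (nat_lit 95) (nat_lit 3) (nat_lit 11) (.e true (nat_lit 2) (nat_lit 91) (nat_lit 3) (nat_lit 11) (.e false (nat_lit 1) (nat_lit 92) (nat_lit 3) (nat_lit 11) (.e true (nat_lit 2) (nat_lit 94) (nat_lit 3) (nat_lit 11) (.e false (nat_lit 2) (nat_lit 96) (nat_lit 3) (nat_lit 11) (.e false (nat_lit 3) (nat_lit 25) (nat_lit 19) (nat_lit 1) (.e true (nat_lit 3) (nat_lit 50) (nat_lit 7) (nat_lit 7) (.e true (nat_lit 1) (nat_lit 136) (nat_lit 1) (nat_lit 13) (.e true (nat_lit 1) (nat_lit 140) (nat_lit 1) (nat_lit 13) (.e true (nat_lit 3) (nat_lit 143) (nat_lit 1) (nat_lit 13) (.e false (nat_lit 2) (nat_lit 144) (nat_lit 1) (nat_lit 13)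 (.e false (nat_lit 3) (nat_lit 153) (nat_lit 1) (nat_lit 13) (.e true (nat_lit 1) (nat_lit 117) (nat_lit 2) (nat_lit 12) (.e true (nat_lit 2) (nat_lit 122) (nat_lit 2) (nat_lit 12) (.e true (nat_lit 2) (nat_lit 107) (nat_lit 2) (nat_lit 12) (.e true (nat_lit 3) (nat_lit 108) (nat_lit 2) (nat_lit 12) (.e true (nat_lit 2) (nat_lit 112) (nat_lit 2) (nat_lit 12) (.e true (nat_lit 2) (nat_lit 113) (nat_lit 2) (nat_lit 12) (.e true (nat_lit 1) (nat_lit 114) (nat_lit 2) (nat_lit 12) (.e true (nat_lit 3) (nat_lit 115) (nat_lit 2) (nat_lit 12) (.e false (nat_lit 3) (nat_lit 116) (nat_lit 2) (nat_lit 12) (.e true (nat_lit 3) (nat_lit 131) (nat_lit 2) (nat_lit 12) (.e true (nat_lit 2) (nat_lit 109) (nat_lit 2) (nat_lit 12) dC2c_i147)))))))))))))))))))))))))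

noncomputable def dC2c_i149 : IL := (.s true (nat_lit 2) (nat_lit 12) (nat_lit 6) (nat_lit 1) (nat_lit 2) true (nat_lit 1) true (nat_lit 12) true (nat_lit 4) true (nat_lit 8) true (nat_lit 13) (.s false (nat_lit 1) (nat_lit 12) (nat_lit 6) (nat_lit 2) (nat_lit 1) true (nat_lit 3) true (nat_lit 13) true (nat_lit 4) true (nat_lit 8) true (nat_lit 12) (.s false (nat_lit 1) (nat_lit 13) (nat_lit 6) (nat_lit 2) (nat_lit 1) true (nat_lit 3) true (nat_lit 13) true (nat_lit 4) true (nat_lit 8) true (nat_lit 12) (.s true (nat_lit 2) (nat_lit 15) (nat_lit 1) (nat_lit 5) (nat_lit 2) true (nat_lit 8) true (nat_lit 12) true (nat_lit 3) true (nat_lit 13) true (nat_lit 9) (.s false (nat_lit 1) (nat_lit 18) (nat_lit 6) (nat_lit 0) (nat_lit 1) true (nat_lit 3) true (nat_lit 13) true (nat_lit 1) true (nat_lit 8) true (nat_lit 14) (.s true (nat_lit 3) (nat_lit 28) (nat_lit 2) (nat_lit 1) (nat_lit 2) true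 (nat_lit 7) true (nat_lit 12) false (nat_lit 1) true (nat_lit 12) true (nat_lit 13) (.s false (nat_lit 1) (nat_lit 36) (nat_lit 2) (nat_lit 1) (nat_lit 1) true (nat_lit 8) true (nat_lit 13) false (nat_lit 3) true (nat_lit 12) true (nat_lit 13) (.s true (nat_lit 1) (nat_lit 41) (nat_lit 0) (nat_lit 2) (nat_lit 1) true (nat_lit 11) true (nat_lit 13) false (nat_lit 4) true (nat_lit 14) true (nat_lit 12) (.s false (nat_lit 2) (nat_lit 40) (nat_lit 1) (nat_lit 0) (nat_lit 2) true (nat_lit 8) true (nat_lit 12) false (nat_lit 4) true (nat_lit 13) true (nat_lit 14) (.s false (nat_lit 3) (nat_lit 40) (nat_lit 1) (nat_lit 2) (nat_lit 0) true (nat_lit 11) true (nat_lit 14) false (nat_lit 4) true (nat_lit 13) true (nat_lit 12) (.s true (nat_lit 3) (nat_lit 40) (nat_lit 2) (nat_lit 0) (nat_lit 1) true (nat_lit 8) true (nat_lit 13) false (nat_lit 4) true (nat_lit 12) true (nat_lit 14) (.s true (nat_lit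 2) (nat_lit 40) (nat_lit 2) (nat_lit 1) (nat_lit 0) true (nat_lit 9) true (nat_lit 14) false (nat_lit 4) true (nat_lit 12) true (nat_lit 13) (.e false (nat_lit 3) (nat_lit 61) (nat_lit 6) (nat_lit 8) (.e true (nat_lit 3) (nat_lit 62) (nat_lit 6) (nat_lit 8) (.e false (nat_lit 1) (nat_lit 63) (nat_lit 6) (nat_lit 8) (.e true (nat_lit 2) (nat_lit 65) (nat_lit 6) (nat_lit 8) (.e false (nat_lit 2) (nat_lit 66) (nat_lit 6) (nat_lit 8) (.e false (nat_lit 1) (nat_lit 59) (nat_lit 7) (nat_lit 7) (.e false (nat_lit 1) (nat_lit 132) (nat_lit 1) (nat_lit 13) (.e true (nat_lit 1) (nat_lit 133) (nat_lit 1) (nat_lit 13) (.e true (nat_lit 2) (nat_lit 134) (nat_lit 1) (nat_lit 13) (.e false (nat_lit 2) (nat_lit 135) (nat_lit 1) (nat_lit 13) (.e true (nat_lit 3) (nat_lit 137) (nat_lit 1) (nat_lit 13) (.e true (nat_lit 2) (nat_lit 145) (nat_lit 1) (nat_lit 13) (.e true (nat_lit 1) (nat_lit 149) (nat_lit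 1) (nat_lit 13) dC2c_i148)))))))))))))))))))))))))

noncomputable def dC2c_i150 : IL := (.e true (nat_lit 2) (nat_lit 220) (nat_lit 2) (nat_lit 16) (.e false (nat_lit 1) (nat_lit 221) (nat_lit 2) (nat_lit 16) (.e false (nat_lit 2) (nat_lit 222) (nat_lit 2) (nat_lit 16) (.e true (nat_lit 1) (nat_lit 225) (nat_lit 2) (nat_lit 16) (.e true (nat_lit 2) (nat_lit 226) (nat_lit 2) (nat_lit 16) (.e false (nat_lit 2) (nat_lit 228) (nat_lit 2) (nat_lit 16) (.e true (nat_lit 2) (nat_lit 231) (nat_lit 2) (nat_lit 16) (.e false (nat_lit 1) (nat_lit 236) (nat_lit 2) (nat_lit 16) (.e true (nat_lit 3) (nat_lit 242) (nat_lit 2) (nat_lit 16) (.e false (nat_lit 3) (nat_lit 243) (nat_lit 2) (nat_lit 16) (.e true (nat_lit 1) (nat_lit 244) (nat_lit 2) (nat_lit 16) (.e false (nat_lit 1) (nat_lit 245) (nat_lit 2) (nat_lit 16) (.e false (nat_lit 2) (nat_lit 247) (nat_lit 2) (nat_lit 16) (.e false (nat_lit 1) (nat_lit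 249) (nat_lit 2) (nat_lit 16) (.e true (nat_lit 1) (nat_lit 250) (nat_lit 2) (nat_lit 16) (.e true (nat_lit 2) (nat_lit 251) (nat_lit 2) (nat_lit 16) (.e false (nat_lit 1) (nat_lit 239) (nat_lit 2) (nat_lit 16) (.e true (nat_lit 3) (nat_lit 214) (nat_lit 2) (nat_lit 16) (.e false (nat_lit 3) (nat_lit 216) (nat_lit 2) (nat_lit 16) (.e false (nat_lit 1) (nat_lit 219) (nat_lit 2) (nat_lit 16) (.e false (nat_lit 3) (nat_lit 229) (nat_lit 2) (nat_lit 16) (.e false (nat_lit 3) (nat_lit 230) (nat_lit 2) (nat_lit 16) (.e false (nat_lit 2) (nat_lit 234) (nat_lit 2) (nat_lit 16) (.e false (nat_lit 1) (nat_lit 246) (nat_lit 2) (nat_lit 16) (.u (nat_lit 2) (.n (nat_lit 0) (nat_lit 1) (.n (nat_lit 1) (nat_lit 6) (.p (nat_lit 2) (nat_lit 3) (.p (nat_lit 4) (nat_lit 3) (.n (nat_lit 5) (nat_lit 4) (.n (nat_lit 6) (nat_lit 2) (.p (nat_lit 7) (nat_lit 1) (.p (nat_lit 8) (nat_lit 2) (.n (nat_lit 9) (nat_lit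 1) (.n (nat_lit 10) (nat_lit 4) (.p (nat_lit 11) (nat_lit 2) (.p (nat_lit 14) (nat_lit 2) (.n (nat_lit 16) (nat_lit 2) (.p (nat_lit 18) (nat_lit 4) (.n (nat_lit 19) (nat_lit 2) (.p (nat_lit 20) (nat_lit 1) (.p (nat_lit 21) (nat_lit 1) (.n (nat_lit 22) (nat_lit 2) (.n (nat_lit 23) (nat_lit 1) (.p (nat_lit 24) (nat_lit 2) (.n (nat_lit 25) (nat_lit 1) (.p (nat_lit 26) (nat_lit 6) (.n (nat_lit 27) (nat_lit 5) (.p (nat_lit 28) (nat_lit 2) (.p (nat_lit 29) (nat_lit 3) (.n (nat_lit 31) (nat_lit 3) (.p (nat_lit 32) (nat_lit 2) (.n (nat_lit 33) (nat_lit 2) (.p (nat_lit 34) (nat_lit 1) (.n (nat_lit 35) (nat_lit 2) (.n (nat_lit 36) (nat_lit 4) (.n (nat_lit 37) (nat_lit 3) (.p (nat_lit 38) (nat_lit 2) (.n (nat_lit 39) (nat_lit 1) (.p (nat_lit 40) (nat_lit 1) (.p (nat_lit 44) (nat_lit 1) (.p (nat_lit 45) (nat_lit 2) (.p (nat_lit 46) (nat_lit 2) (.p (nat_lit 48) (nat_lit 4) (.n (nat_lit 50) (nat_lit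 1) (.n (nat_lit 51) (nat_lit 1) (.n (nat_lit 55) (nat_lit 3) (.n (nat_lit 302) (nat_lit 1) (.n (nat_lit 305) (nat_lit 1) (.n (nat_lit 307) (nat_lit 1) (.p (nat_lit 309) (nat_lit 1) (.p (nat_lit 315) (nat_lit 1) (.p (nat_lit 317) (nat_lit 1) (.n (nat_lit 318) (nat_lit 1) (.n (nat_lit 319) (nat_lit 1) (.p (nat_lit 323) (nat_lit 1) (.p (nat_lit 328) (nat_lit 1) (.p (nat_lit 329) (nat_lit 1) (.n (nat_lit 340) (nat_lit 1) (.p (nat_lit 341) (nat_lit 1) (.p (nat_lit 342) (nat_lit 1) (.n (nat_lit 347) (nat_lit 1) (.p (nat_lit 348) (nat_lit 1) .z)))))))))))))))))))))))))))))))))))))))))))))))))))))))))) .nil)))))))))))))))))))))))))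

noncomputable def dC2c_i151 : IL := (.e true (nat_lit 3) (nat_lit 260) (nat_lit 1) (nat_lit 17) (.e false (nat_lit 3) (nat_lit 261) (nat_lit 1) (nat_lit 17) (.e false (nat_lit 3) (nat_lit 263) (nat_lit 1) (nat_lit 17) (.e false (nat_lit 3) (nat_lit 264) (nat_lit 1) (nat_lit 17) (.e true (nat_lit 3) (nat_lit 265) (nat_lit 1) (nat_lit 17) (.e true (nat_lit 2) (nat_lit 267) (nat_lit 1) (nat_lit 17) (.e false (nat_lit 1) (nat_lit 270) (nat_lit 1) (nat_lit 17) (.e true (nat_lit 2) (nat_lit 272) (nat_lit 1) (nat_lit 17) (.e false (nat_lit 2) (nat_lit 274) (nat_lit 1) (nat_lit 17) (.e true (nat_lit 2) (nat_lit 275) (nat_lit 1) (nat_lit 17) (.e true (nat_lit 1) (nat_lit 279) (nat_lit 1) (nat_lit 17) (.e false (nat_lit 1) (nat_lit 286) (nat_lit 1) (nat_lit 17) (.e true (nat_lit 2) (nat_lit 232) (nat_lit 2) (nat_lit 16) (.e true (nat_lit 1) (nat_lit 235) (nat_lit 2) (nat_lit 16) (.e false (nat_lit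 1) (nat_lit 205) (nat_lit 2) (nat_lit 16) (.e true (nat_lit 2) (nat_lit 206) (nat_lit 2) (nat_lit 16) (.e false (nat_lit 1) (nat_lit 207) (nat_lit 2) (nat_lit 16) (.e true (nat_lit 1) (nat_lit 208) (nat_lit 2) (nat_lit 16) (.e false (nat_lit 3) (nat_lit 209) (nat_lit 2) (nat_lit 16) (.e false (nat_lit 3) (nat_lit 210) (nat_lit 2) (nat_lit 16) (.e false (nat_lit 1) (nat_lit 211) (nat_lit 2) (nat_lit 16) (.e true (nat_lit 3) (nat_lit 213) (nat_lit 2) (nat_lit 16) (.e true (nat_lit 3) (nat_lit 215) (nat_lit 2) (nat_lit 16) (.e true (nat_lit 3) (nat_lit 217) (nat_lit 2) (nat_lit 16) (.e true (nat_lit 3) (nat_lit 218) (nat_lit 2) (nat_lit 16) dC2c_i150)))))))))))))))))))))))))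

noncomputable def dC2c_i152 : IL := (.e false (nat_lit 2) (nat_lit 274) (nat_lit 2) (nat_lit 14) (.e false (nat_lit 3) (nat_lit 253) (nat_lit 2) (nat_lit 14) (.e true (nat_lit 1) (nat_lit 255) (nat_lit 2) (nat_lit 14) (.e true (nat_lit 3) (nat_lit 256) (nat_lit 2) (nat_lit 14) (.e false (nat_lit 2) (nat_lit 257) (nat_lit 2) (nat_lit 14) (.e true (nat_lit 1) (nat_lit 259) (nat_lit 2) (nat_lit 14) (.e false (nat_lit 2) (nat_lit 260) (nat_lit 2) (nat_lit 14) (.e true (nat_lit 1) (nat_lit 262) (nat_lit 2) (nat_lit 14) (.e false (nat_lit 3) (nat_lit 263) (nat_lit 2) (nat_lit 14) (.e false (nat_lit 2) (nat_lit 271) (nat_lit 2) (nat_lit 14) (.e false (nat_lit 2) (nat_lit 273) (nat_lit 2) (nat_lit 14) (.e true (nat_lit 1) (nat_lit 275) (nat_lit 2) (nat_lit 14) (.e true (nat_lit 2) (nat_lit 276) (nat_lit 2) (nat_lit 14) (.e false (nat_lit 1) (nat_lit 277) (nat_lit 2) (nat_lit 14) (.e true (nat_lit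 1) (nat_lit 272) (nat_lit 2) (nat_lit 14) (.e true (nat_lit 1) (nat_lit 286) (nat_lit 2) (nat_lit 14) (.e true (nat_lit 3) (nat_lit 63) (nat_lit 20) (nat_lit 3) (.e false (nat_lit 2) (nat_lit 317) (nat_lit 1) (nat_lit 15) (.e true (nat_lit 1) (nat_lit 322) (nat_lit 1) (nat_lit 15) (.e true (nat_lit 3) (nat_lit 66) (nat_lit 20) (nat_lit 3) (.e false (nat_lit 3) (nat_lit 68) (nat_lit 20) (nat_lit 3) (.e false (nat_lit 3) (nat_lit 72) (nat_lit 20) (nat_lit 3) (.e true (nat_lit 1) (nat_lit 314) (nat_lit 1) (nat_lit 15) (.e false (nat_lit 3) (nat_lit 284) (nat_lit 2) (nat_lit 14) (.u (nat_lit 2) (.n (nat_lit 0) (nat_lit 2) (.p (nat_lit 1) (nat_lit 4) (.p (nat_lit 2) (nat_lit 3) (.n (nat_lit 3) (nat_lit 4) (.n (nat_lit 4) (nat_lit 1) (.p (nat_lit 6) (nat_lit 2) (.n (nat_lit 7) (nat_lit 3) (.p (nat_lit 8) (nat_lit 3) (.p (nat_lit 9) (nat_lit 2) (.n (nat_lit 10) (nat_lit 1) (.p (nat_lit 11) (nat_lit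 3) (.n (nat_lit 13) (nat_lit 1) (.n (nat_lit 15) (nat_lit 1) (.n (nat_lit 16) (nat_lit 1) (.p (nat_lit 17) (nat_lit 6) (.n (nat_lit 18) (nat_lit 6) (.p (nat_lit 19) (nat_lit 4) (.n (nat_lit 24) (nat_lit 3) (.p (nat_lit 25) (nat_lit 1) (.n (nat_lit 26) (nat_lit 3) (.p (nat_lit 27) (nat_lit 1) (.n (nat_lit 28) (nat_lit 1) (.n (nat_lit 29) (nat_lit 1) (.p (nat_lit 34) (nat_lit 2) (.n (nat_lit 38) (nat_lit 5) (.p (nat_lit 75) (nat_lit 1) (.n (nat_lit 133) (nat_lit 1) (.n (nat_lit 135) (nat_lit 1) (.p (nat_lit 149) (nat_lit 1) (.p (nat_lit 177) (nat_lit 1) (.n (nat_lit 181) (nat_lit 1) (.n (nat_lit 205) (nat_lit 1) (.p (nat_lit 206) (nat_lit 2) (.n (nat_lit 207) (nat_lit 1) (.p (nat_lit 208) (nat_lit 1) (.n (nat_lit 209) (nat_lit 2) (.n (nat_lit 210) (nat_lit 1) (.p (nat_lit 211) (nat_lit 1) (.n (nat_lit 212) (nat_lit 2) (.n (nat_lit 214) (nat_lit 1) (.n (nat_lit 215) (nat_lit 1) (.p (nat_lit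 216) (nat_lit 1) (.p (nat_lit 217) (nat_lit 1) (.n (nat_lit 219) (nat_lit 1) (.p (nat_lit 221) (nat_lit 1) (.n (nat_lit 222) (nat_lit 1) (.n (nat_lit 223) (nat_lit 2) (.n (nat_lit 224) (nat_lit 1) (.n (nat_lit 225) (nat_lit 2) (.n (nat_lit 226) (nat_lit 2) (.p (nat_lit 227) (nat_lit 1) (.p (nat_lit 228) (nat_lit 2) (.p (nat_lit 229) (nat_lit 1) (.p (nat_lit 250) (nat_lit 1) (.n (nat_lit 253) (nat_lit 1) .z))))))))))))))))))))))))))))))))))))))))))))))))))))))) .nil)))))))))))))))))))))))))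

noncomputable def dC2c_i153 : IL := (.e false (nat_lit 1) (nat_lit 138) (nat_lit 6) (nat_lit 12) (.e false (nat_lit 2) (nat_lit 139) (nat_lit 6) (nat_lit 12) (.e true (nat_lit 1) (nat_lit 144) (nat_lit 6) (nat_lit 12) (.e true (nat_lit 1) (nat_lit 147) (nat_lit 6) (nat_lit 12) (.e false (nat_lit 1) (nat_lit 150) (nat_lit 6) (nat_lit 12) (.e false (nat_lit 1) (nat_lit 155) (nat_lit 6) (nat_lit 12) (.e true (nat_lit 1) (nat_lit 205) (nat_lit 2) (nat_lit 16) (.e true (nat_lit 1) (nat_lit 206) (nat_lit 2) (nat_lit 16) (.e false (nat_lit 3) (nat_lit 208) (nat_lit 2) (nat_lit 16) (.e true (nat_lit 1) (nat_lit 210) (nat_lit 2) (nat_lit 16) (.e false (nat_lit 1) (nat_lit 211) (nat_lit 2) (nat_lit 16) (.e false (nat_lit 1) (nat_lit 212) (nat_lit 2) (nat_lit 16) (.e true (nat_lit 1) (nat_lit 215) (nat_lit 2) (nat_lit 16) (.e true (nat_lit 2) (nat_lit 216) (nat_lit 2) (nat_lit 16) (.e true (nat_lit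 1) (nat_lit 223) (nat_lit 2) (nat_lit 16) (.e false (nat_lit 1) (nat_lit 225) (nat_lit 2) (nat_lit 16) (.e false (nat_lit 1) (nat_lit 227) (nat_lit 2) (nat_lit 16) (.e false (nat_lit 1) (nat_lit 232) (nat_lit 2) (nat_lit 16) (.e false (nat_lit 1) (nat_lit 235) (nat_lit 2) (nat_lit 16) (.e true (nat_lit 1) (nat_lit 236) (nat_lit 2) (nat_lit 16) (.e true (nat_lit 1) (nat_lit 242) (nat_lit 2) (nat_lit 16) (.e false (nat_lit 1) (nat_lit 245) (nat_lit 2) (nat_lit 16) (.e true (nat_lit 1) (nat_lit 248) (nat_lit 2) (nat_lit 16) (.e true (nat_lit 1) (nat_lit 250) (nat_lit 2) (nat_lit 16) (.u (nat_lit 2) (.p (nat_lit 1) (nat_lit 1) (.n (nat_lit 3) (nat_lit 1) (.n (nat_lit 4) (nat_lit 1) (.n (nat_lit 5) (nat_lit 3) (.p (nat_lit 6) (nat_lit 1) (.p (nat_lit 7) (nat_lit 1) (.p (nat_lit 8) (nat_lit 1) (.n (nat_lit 9) (nat_lit 1) (.p (nat_lit 10) (nat_lit 2) (.p (nat_lit 12) (nat_lit 1) (.n (nat_lit 14)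 (nat_lit 1) (.p (nat_lit 15) (nat_lit 3) (.p (nat_lit 16) (nat_lit 2) (.n (nat_lit 17) (nat_lit 1) (.p (nat_lit 18) (nat_lit 2) (.p (nat_lit 19) (nat_lit 1) (.n (nat_lit 20) (nat_lit 2) (.n (nat_lit 21) (nat_lit 2) (.p (nat_lit 22) (nat_lit 2) (.p (nat_lit 23) (nat_lit 3) (.n (nat_lit 24) (nat_lit 1) (.p (nat_lit 27) (nat_lit 3) (.p (nat_lit 29) (nat_lit 2) (.p (nat_lit 31) (nat_lit 1) (.p (nat_lit 33) (nat_lit 1) (.n (nat_lit 34) (nat_lit 2) (.p (nat_lit 35) (nat_lit 2) (.n (nat_lit 37) (nat_lit 1) (.n (nat_lit 38) (nat_lit 1) (.n (nat_lit 39) (nat_lit 4) (.n (nat_lit 40) (nat_lit 1) (.n (nat_lit 44) (nat_lit 1) (.p (nat_lit 45) (nat_lit 1) (.n (nat_lit 46) (nat_lit 1) (.p (nat_lit 47) (nat_lit 2) (.p (nat_lit 48) (nat_lit 2) .z)))))))))))))))))))))))))))))))))))) .nil)))))))))))))))))))))))))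

noncomputable def dC2c_i154 : IL := (.e true (nat_lit 1) (nat_lit 153) (nat_lit 7) (nat_lit 9) (.e false (nat_lit 3) (nat_lit 324) (nat_lit 0) (nat_lit 16) (.e false (nat_lit 1) (nat_lit 325) (nat_lit 0) (nat_lit 16) (.e true (nat_lit 2) (nat_lit 326) (nat_lit 0) (nat_lit 16) (.e true (nat_lit 2) (nat_lit 327) (nat_lit 0) (nat_lit 16) (.e true (nat_lit 3) (nat_lit 328) (nat_lit 0) (nat_lit 16) (.e true (nat_lit 3) (nat_lit 330) (nat_lit 0) (nat_lit 16) (.e true (nat_lit 2) (nat_lit 329) (nat_lit 0) (nat_lit 16) (.e false (nat_lit 3) (nat_lit 331) (nat_lit 0) (nat_lit 16) (.e false (nat_lit 2) (nat_lit 284) (nat_lit 2) (nat_lit 14) (.e true (nat_lit 3) (nat_lit 305) (nat_lit 1) (nat_lit 15) (.e false (nat_lit 2) (nat_lit 306) (nat_lit 1) (nat_lit 15) (.e false (nat_lit 3) (nat_lit 307) (nat_lit 1) (nat_lit 15) (.e false (nat_lit 2) (nat_lit 308) (nat_lit 1) (nat_lit 15) (.e false (nat_lit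 1) (nat_lit 309) (nat_lit 1) (nat_lit 15) (.e false (nat_lit 2) (nat_lit 311) (nat_lit 1) (nat_lit 15) (.e false (nat_lit 2) (nat_lit 312) (nat_lit 1) (nat_lit 15) (.e false (nat_lit 1) (nat_lit 314) (nat_lit 1) (nat_lit 15) (.e false (nat_lit 3) (nat_lit 315) (nat_lit 1) (nat_lit 15) (.e false (nat_lit 3) (nat_lit 318) (nat_lit 1) (nat_lit 15) (.e false (nat_lit 2) (nat_lit 310) (nat_lit 1) (nat_lit 15) (.e false (nat_lit 3) (nat_lit 332) (nat_lit 0) (nat_lit 16) (.u (nat_lit 2) (.p (nat_lit 0) (nat_lit 1) (.n (nat_lit 9) (nat_lit 1) (.p (nat_lit 14) (nat_lit 1) (.p (nat_lit 15) (nat_lit 1) (.p (nat_lit 16) (nat_lit 1) (.p (nat_lit 19) (nat_lit 1) (.p (nat_lit 21) (nat_lit 1) (.n (nat_lit 23) (nat_lit 1) (.p (nat_lit 24) (nat_lit 1) (.n (nat_lit 34) (nat_lit 1) (.n (nat_lit 42) (nat_lit 1) (.p (nat_lit 48) (nat_lit 1) (.n (nat_lit 54) (nat_lit 1) (.p (nat_lit 72) (nat_lit 1) (.p (nat_lit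 73) (nat_lit 1) (.n (nat_lit 75) (nat_lit 1) (.p (nat_lit 77) (nat_lit 1) (.n (nat_lit 78) (nat_lit 1) (.n (nat_lit 86) (nat_lit 1) (.p (nat_lit 87) (nat_lit 1) (.p (nat_lit 90) (nat_lit 1) (.p (nat_lit 91) (nat_lit 1) (.n (nat_lit 92) (nat_lit 1) (.n (nat_lit 96) (nat_lit 1) (.n (nat_lit 106) (nat_lit 1) (.n (nat_lit 109) (nat_lit 1) (.p (nat_lit 130) (nat_lit 1) (.p (nat_lit 131) (nat_lit 1) (.p (nat_lit 133) (nat_lit 1) (.n (nat_lit 134) (nat_lit 2) (.n (nat_lit 137) (nat_lit 1) (.p (nat_lit 138) (nat_lit 1) (.n (nat_lit 139) (nat_lit 1) (.p (nat_lit 142) (nat_lit 1) (.n (nat_lit 143) (nat_lit 2) (.n (nat_lit 145) (nat_lit 3) (.p (nat_lit 146) (nat_lit 1) (.p (nat_lit 148) (nat_lit 1) (.p (nat_lit 150) (nat_lit 1) (.p (nat_lit 151) (nat_lit 1) (.n (nat_lit 155) (nat_lit 1) (.p (nat_lit 157) (nat_lit 3) (.n (nat_lit 160) (nat_lit 2) (.n (nat_lit 161) (nat_lit 1) (.p (nat_lit 162) (nat_lit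 1) (.p (nat_lit 163) (nat_lit 1) (.p (nat_lit 164) (nat_lit 1) (.n (nat_lit 165) (nat_lit 3) (.n (nat_lit 168) (nat_lit 5) (.p (nat_lit 169) (nat_lit 1) (.p (nat_lit 170) (nat_lit 1) (.n (nat_lit 171) (nat_lit 2) (.p (nat_lit 172) (nat_lit 4) (.n (nat_lit 173) (nat_lit 1) (.n (nat_lit 174) (nat_lit 3) (.n (nat_lit 175) (nat_lit 3) (.n (nat_lit 176) (nat_lit 2) (.p (nat_lit 177) (nat_lit 1) (.p (nat_lit 178) (nat_lit 3) (.p (nat_lit 179) (nat_lit 2) .z)))))))))))))))))))))))))))))))))))))))))))))))))))))))))))) (.u (nat_lit 2) (.n (nat_lit 180) (nat_lit 1) (.n (nat_lit 181) (nat_lit 2) (.p (nat_lit 182) (nat_lit 1) (.p (nat_lit 183) (nat_lit 1) (.p (nat_lit 191) (nat_lit 1) (.p (nat_lit 200) (nat_lit 1) (.n (nat_lit 201) (nat_lit 1) (.p (nat_lit 203) (nat_lit 1) (.n (nat_lit 204) (nat_lit 10) (.n (nat_lit 205) (nat_lit 14) (.p (nat_lit 206) (nat_lit 23) (.p (nat_lit 207) (nat_lit 3) (.p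 (nat_lit 208) (nat_lit 5) (.p (nat_lit 209) (nat_lit 5) (.p (nat_lit 210) (nat_lit 10) (.n (nat_lit 211) (nat_lit 9) (.p (nat_lit 212) (nat_lit 24) (.n (nat_lit 214) (nat_lit 19) (.p (nat_lit 215) (nat_lit 21) (.p (nat_lit 216) (nat_lit 1) (.n (nat_lit 217) (nat_lit 4) (.n (nat_lit 218) (nat_lit 20) (.n (nat_lit 219) (nat_lit 2) (.n (nat_lit 220) (nat_lit 1) (.p (nat_lit 221) (nat_lit 8) (.n (nat_lit 223) (nat_lit 6) (.n (nat_lit 224) (nat_lit 2) (.p (nat_lit 225) (nat_lit 7) (.p (nat_lit 226) (nat_lit 4) (.n (nat_lit 227) (nat_lit 7) (.p (nat_lit 228) (nat_lit 5) (.n (nat_lit 229) (nat_lit 10) (.n (nat_lit 230) (nat_lit 1) (.n (nat_lit 231) (nat_lit 2) (.n (nat_lit 233) (nat_lit 1) (.p (nat_lit 235) (nat_lit 12) (.p (nat_lit 236) (nat_lit 3) (.n (nat_lit 237) (nat_lit 8) (.n (nat_lit 239) (nat_lit 2) (.p (nat_lit 240) (nat_lit 1) (.n (nat_lit 241) (nat_lit 1) (.n (nat_lit 242) (nat_lit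 3) (.p (nat_lit 243) (nat_lit 3) (.p (nat_lit 244) (nat_lit 1) (.n (nat_lit 245) (nat_lit 1) (.n (nat_lit 246) (nat_lit 3) (.n (nat_lit 247) (nat_lit 1) (.p (nat_lit 248) (nat_lit 3) (.p (nat_lit 249) (nat_lit 3) (.n (nat_lit 250) (nat_lit 2) (.n (nat_lit 251) (nat_lit 11) (.n (nat_lit 252) (nat_lit 2) (.p (nat_lit 253) (nat_lit 5) (.p (nat_lit 254) (nat_lit 1) (.n (nat_lit 255) (nat_lit 1) (.n (nat_lit 257) (nat_lit 1) (.p (nat_lit 258) (nat_lit 2) (.n (nat_lit 259) (nat_lit 1) (.p (nat_lit 261) (nat_lit 2) (.n (nat_lit 262) (nat_lit 3) .z)))))))))))))))))))))))))))))))))))))))))))))))))))))))))))) (.u (nat_lit 2) (.p (nat_lit 263) (nat_lit 5) (.p (nat_lit 264) (nat_lit 1) (.n (nat_lit 265) (nat_lit 2) (.n (nat_lit 266) (nat_lit 3) .z)))) .nil)))))))))))))))))))))))))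

noncomputable def dC2c_i155 : IL := (.s true (nat_lit 3) (nat_lit 90) (nat_lit 2) (nat_lit 2) (nat_lit 1) true (nat_lit 10) true (nat_lit 15) false (nat_lit 4) true (nat_lit 14) true (nat_lit 14) (.s false (nat_lit 3) (nat_lit 92) (nat_lit 2) (nat_lit 0) (nat_lit 2) true (nat_lit 9) true (nat_lit 14) false (nat_lit 5) true (nat_lit 14) true (nat_lit 16) (.s true (nat_lit 2) (nat_lit 99) (nat_lit 1) (nat_lit 2) (nat_lit 1) true (nat_lit 12) true (nat_lit 15) false (nat_lit 6) true (nat_lit 15) true (nat_lit 14) (.s true (nat_lit 1) (nat_lit 100) (nat_lit 2) (nat_lit 1) (nat_lit 1) true (nat_lit 10) true (nat_lit 15) false (nat_lit 6) true (nat_lit 14) true (nat_lit 15) (.s false (nat_lit 3) (nat_lit 102) (nat_lit 0) (nat_lit 1) (nat_lit 2) true (nat_lit 11) true (nat_lit 14) false (nat_lit 7) true (nat_lit 16) true (nat_lit 15) (.s false (nat_lit 1) (nat_lit 102) (nat_lit 0) (nat_lit 2)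 (nat_lit 1) true (nat_lit 13) true (nat_lit 15) false (nat_lit 7) true (nat_lit 16) true (nat_lit 14) (.s true (nat_lit 2) (nat_lit 103) (nat_lit 0) (nat_lit 2) (nat_lit 1) true (nat_lit 13) true (nat_lit 15) false (nat_lit 7) true (nat_lit 16) true (nat_lit 14) (.s true (nat_lit 1) (nat_lit 104) (nat_lit 0) (nat_lit 2) (nat_lit 1) true (nat_lit 13) true (nat_lit 15) false (nat_lit 7) true (nat_lit 16) true (nat_lit 14) (.s false (nat_lit 2) (nat_lit 102) (nat_lit 1) (nat_lit 0) (nat_lit 2) true (nat_lit 10) true (nat_lit 14) false (nat_lit 7) true (nat_lit 15) true (nat_lit 16) (.s true (nat_lit 3) (nat_lit 104) (nat_lit 1) (nat_lit 0) (nat_lit 2) true (nat_lit 10) true (nat_lit 14) false (nat_lit 7) true (nat_lit 15) true (nat_lit 16) (.s true (nat_lit 2) (nat_lit 104) (nat_lit 1) (nat_lit 2) (nat_lit 0) true (nat_lit 13) true (nat_lit 16) false (nat_lit 7) true (nat_lit 15) true (nat_lit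 14) (.s true (nat_lit 3) (nat_lit 104) (nat_lit 2) (nat_lit 0) (nat_lit 1) true (nat_lit 10) true (nat_lit 15) false (nat_lit 7) true (nat_lit 14) true (nat_lit 16) (.s false (nat_lit 2) (nat_lit 102) (nat_lit 2) (nat_lit 1) (nat_lit 0) true (nat_lit 11) true (nat_lit 16) false (nat_lit 7) true (nat_lit 14) true (nat_lit 15) (.s true (nat_lit 2) (nat_lit 105) (nat_lit 0) (nat_lit 1) (nat_lit 1) true (nat_lit 13) true (nat_lit 15) false (nat_lit 8) true (nat_lit 16) true (nat_lit 15) (.e false (nat_lit 1) (nat_lit 154) (nat_lit 7) (nat_lit 9) (.e false (nat_lit 1) (nat_lit 144) (nat_lit 7) (nat_lit 9) (.e true (nat_lit 3) (nat_lit 252) (nat_lit 2) (nat_lit 14) (.e false (nat_lit 3) (nat_lit 253) (nat_lit 2) (nat_lit 14) (.e false (nat_lit 3) (nat_lit 254) (nat_lit 2) (nat_lit 14) (.e false (nat_lit 2) (nat_lit 258) (nat_lit 2) (nat_lit 14) (.e false (nat_lit 2) (nat_lit 259) (nat_lit 2)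 (nat_lit 14) (.e true (nat_lit 3) (nat_lit 272) (nat_lit 2) (nat_lit 14) (.e false (nat_lit 3) (nat_lit 273) (nat_lit 2) (nat_lit 14) (.e true (nat_lit 3) (nat_lit 283) (nat_lit 2) (nat_lit 14) (.e true (nat_lit 1) (nat_lit 313) (nat_lit 1) (nat_lit 15) dC2c_i154)))))))))))))))))))))))))

noncomputable def dC2c_i156 : IL := (.s true (nat_lit 1) (nat_lit 48) (nat_lit 1) (nat_lit 6) (nat_lit 0) true (nat_lit 13) true (nat_lit 16) false (nat_lit 2) true (nat_lit 15) true (nat_lit 10) (.s false (nat_lit 1) (nat_lit 48) (nat_lit 2) (nat_lit 1) (nat_lit 3) true (nat_lit 7) true (nat_lit 13) false (nat_lit 2) true (nat_lit 14) true (nat_lit 15) (.s false (nat_lit 2) (nat_lit 48) (nat_lit 2) (nat_lit 4) (nat_lit 0) true (nat_lit 11) true (nat_lit 16) false (nat_lit 2) true (nat_lit 14) true (nat_lit 12) (.s false (nat_lit 2) (nat_lit 48) (nat_lit 3) (nat_lit 1) (nat_lit 2) true (nat_lit 7) true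 (nat_lit 14) false (nat_lit 2) true (nat_lit 13) true (nat_lit 15) (.s true (nat_lit 2) (nat_lit 48) (nat_lit 5) (nat_lit 1) (nat_lit 1) true (nat_lit 7) true (nat_lit 15) false (nat_lit 2) true (nat_lit 11) true (nat_lit 15) (.s true (nat_lit 2) (nat_lit 48) (nat_lit 6) (nat_lit 0) (nat_lit 1) true (nat_lit 6) true (nat_lit 15) false (nat_lit 2) true (nat_lit 10) true (nat_lit 16) (.s false (nat_lit 2) (nat_lit 48) (nat_lit 6) (nat_lit 1) (nat_lit 0) true (nat_lit 7) true (nat_lit 16) false (nat_lit 2) true (nat_lit 10) true (nat_lit 15) (.s false (nat_lit 2) (nat_lit 66) (nat_lit 2) (nat_lit 2) (nat_lit 2) true (nat_lit 9) true (nat_lit 14) false (nat_lit 3) true (nat_lit 14) true (nat_lit 14) (.s false (nat_lit 1) (nat_lit 68) (nat_lit 2) (nat_lit 2) (nat_lit 2) true (nat_lit 9) true (nat_lit 14) false (nat_lit 3) true (nat_lit 14) true (nat_lit 14) (.s true (nat_lit 2) (nat_lit 69)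 (nat_lit 2) (nat_lit 2) (nat_lit 2) true (nat_lit 9) true (nat_lit 14) false (nat_lit 3) true (nat_lit 14) true (nat_lit 14) (.s true (nat_lit 1) (nat_lit 80) (nat_lit 1) (nat_lit 2) (nat_lit 2) true (nat_lit 10) true (nat_lit 14) false (nat_lit 4) true (nat_lit 15) true (nat_lit 14) (.s false (nat_lit 1) (nat_lit 82) (nat_lit 1) (nat_lit 2) (nat_lit 2) true (nat_lit 10) true (nat_lit 14) false (nat_lit 4) true (nat_lit 15) true (nat_lit 14) (.s false (nat_lit 1) (nat_lit 83) (nat_lit 1) (nat_lit 2) (nat_lit 2) true (nat_lit 10) true (nat_lit 14) false (nat_lit 4) true (nat_lit 15) true (nat_lit 14) (.s true (nat_lit 3) (nat_lit 84) (nat_lit 1) (nat_lit 2) (nat_lit 2) true (nat_lit 10) true (nat_lit 14) false (nat_lit 4) true (nat_lit 15) true (nat_lit 14) (.s true (nat_lit 1) (nat_lit 85) (nat_lit 1) (nat_lit 2) (nat_lit 2) true (nat_lit 10) true (nat_lit 14) false (nat_lit 4) true (nat_lit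 15) true (nat_lit 14) (.s true (nat_lit 1) (nat_lit 86) (nat_lit 1) (nat_lit 2) (nat_lit 2) true (nat_lit 10) true (nat_lit 14) false (nat_lit 4) true (nat_lit 15) true (nat_lit 14) (.s true (nat_lit 1) (nat_lit 88) (nat_lit 1) (nat_lit 2) (nat_lit 2) true (nat_lit 10) true (nat_lit 14) false (nat_lit 4) true (nat_lit 15) true (nat_lit 14) (.s true (nat_lit 2) (nat_lit 89) (nat_lit 1) (nat_lit 2) (nat_lit 2) true (nat_lit 10) true (nat_lit 14) false (nat_lit 4) true (nat_lit 15) true (nat_lit 14) (.s false (nat_lit 2) (nat_lit 90) (nat_lit 1) (nat_lit 2) (nat_lit 2) true (nat_lit 10) true (nat_lit 14) false (nat_lit 4) true (nat_lit 15) true (nat_lit 14) (.s true (nat_lit 2) (nat_lit 88) (nat_lit 2) (nat_lit 1) (nat_lit 2) true (nat_lit 9) true (nat_lit 14) false (nat_lit 4) true (nat_lit 14) true (nat_lit 15) (.s false (nat_lit 3) (nat_lit 89) (nat_lit 2) (nat_lit 1) (nat_lit 2) true (nat_lit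 9) true (nat_lit 14) false (nat_lit 4) true (nat_lit 14) true (nat_lit 15) (.s true (nat_lit 3) (nat_lit 80) (nat_lit 2) (nat_lit 2) (nat_lit 1) true (nat_lit 10) true (nat_lit 15) false (nat_lit 4) true (nat_lit 14) true (nat_lit 14) (.s true (nat_lit 1) (nat_lit 81) (nat_lit 2) (nat_lit 2) (nat_lit 1) true (nat_lit 10) true (nat_lit 15) false (nat_lit 4) true (nat_lit 14) true (nat_lit 14) (.s false (nat_lit 2) (nat_lit 85) (nat_lit 2) (nat_lit 2) (nat_lit 1) true (nat_lit 10) true (nat_lit 15) false (nat_lit 4) true (nat_lit 14) true (nat_lit 14) (.s true (nat_lit 2) (nat_lit 87) (nat_lit 2) (nat_lit 2) (nat_lit 1) true (nat_lit 10) true (nat_lit 15) false (nat_lit 4) true (nat_lit 14) true (nat_lit 14) dC2c_i155)))))))))))))))))))))))))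

noncomputable def dC2c_i157 : IL := (.s false (nat_lit 3) (nat_lit 35) (nat_lit 2) (nat_lit 2) (nat_lit 6) true (nat_lit 4) true (nat_lit 10) true (nat_lit 1) true (nat_lit 14) true (nat_lit 14) (.s true (nat_lit 2) (nat_lit 33) (nat_lit 2) (nat_lit 6) (nat_lit 2) true (nat_lit 9) true (nat_lit 14) true (nat_lit 1) true (nat_lit 14) true (nat_lit 10) (.s false (nat_lit 3) (nat_lit 34) (nat_lit 2) (nat_lit 7) (nat_lit 1) true (nat_lit 10) true (nat_lit 15) true (nat_lit 1) true (nat_lit 14) true (nat_lit 9) (.s true (nat_lit 1) (nat_lit 35) (nat_lit 2) (nat_lit 7) (nat_lit 1) true (nat_lit 10) true (nat_lit 15) true (nat_lit 1) true (nat_lit 14) true (nat_lit 9) (.s false (nat_lit 3) (nat_lit 33) (nat_lit 6) (nat_lit 2) (nat_lit 2) true (nat_lit 4) true (nat_lit 14) true (nat_lit 1) true (nat_lit 10) true (nat_lit 14) (.s true (nat_lit 1) (nat_lit 34) (nat_lit 6) (nat_lit 2) (nat_lit 2)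 true (nat_lit 4) true (nat_lit 14) true (nat_lit 1) true (nat_lit 10) true (nat_lit 14) (.s true (nat_lit 3) (nat_lit 35) (nat_lit 6) (nat_lit 2) (nat_lit 2) true (nat_lit 4) true (nat_lit 14) true (nat_lit 1) true (nat_lit 10) true (nat_lit 14) (.s true (nat_lit 1) (nat_lit 40) (nat_lit 2) (nat_lit 2) (nat_lit 5) true (nat_lit 5) true (nat_lit 11) true (nat_lit 0) true (nat_lit 14) true (nat_lit 14) (.s true (nat_lit 1) (nat_lit 40) (nat_lit 2) (nat_lit 5) (nat_lit 2) true (nat_lit 9) true (nat_lit 14) true (nat_lit 0) true (nat_lit 14) true (nat_lit 11) (.s false (nat_lit 2) (nat_lit 40) (nat_lit 7) (nat_lit 2) (nat_lit 0) true (nat_lit 5) true (nat_lit 16) true (nat_lit 0) true (nat_lit 9) true (nat_lit 14) (.s true (nat_lit 2) (nat_lit 42) (nat_lit 1) (nat_lit 2) (nat_lit 6) true (nat_lit 6) true (nat_lit 10) false (nat_lit 0) true (nat_lit 15) true (nat_lit 14) (.s true (nat_lit 2)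 (nat_lit 43) (nat_lit 1) (nat_lit 6) (nat_lit 2) true (nat_lit 10) true (nat_lit 14) false (nat_lit 0) true (nat_lit 15) true (nat_lit 10) (.s false (nat_lit 3) (nat_lit 42) (nat_lit 2) (nat_lit 1) (nat_lit 6) true (nat_lit 4) true (nat_lit 10) false (nat_lit 0) true (nat_lit 14) true (nat_lit 15) (.s false (nat_lit 1) (nat_lit 43) (nat_lit 2) (nat_lit 1) (nat_lit 6) true (nat_lit 4) true (nat_lit 10) false (nat_lit 0) true (nat_lit 14) true (nat_lit 15) (.s false (nat_lit 1) (nat_lit 42) (nat_lit 2) (nat_lit 6) (nat_lit 1) true (nat_lit 10) true (nat_lit 15) false (nat_lit 0) true (nat_lit 14) true (nat_lit 10) (.s false (nat_lit 3) (nat_lit 42) (nat_lit 6) (nat_lit 1) (nat_lit 2) true (nat_lit 4) true (nat_lit 14) false (nat_lit 0) true (nat_lit 10) true (nat_lit 15) (.s true (nat_lit 1) (nat_lit 43) (nat_lit 6) (nat_lit 1) (nat_lit 2) true (nat_lit 4) true (nat_lit 14) false (nat_lit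 0) true (nat_lit 10) true (nat_lit 15) (.s false (nat_lit 1) (nat_lit 44) (nat_lit 6) (nat_lit 1) (nat_lit 2) true (nat_lit 4) true (nat_lit 14) false (nat_lit 0) true (nat_lit 10) true (nat_lit 15) (.s false (nat_lit 2) (nat_lit 42) (nat_lit 6) (nat_lit 2) (nat_lit 1) true (nat_lit 6) true (nat_lit 15) false (nat_lit 0) true (nat_lit 10) true (nat_lit 14) (.s true (nat_lit 2) (nat_lit 46) (nat_lit 1) (nat_lit 5) (nat_lit 2) true (nat_lit 10) true (nat_lit 14) false (nat_lit 1) true (nat_lit 15) true (nat_lit 11) (.s false (nat_lit 1) (nat_lit 45) (nat_lit 3) (nat_lit 2) (nat_lit 2) true (nat_lit 7) true (nat_lit 14) false (nat_lit 1) true (nat_lit 13) true (nat_lit 14) (.s false (nat_lit 1) (nat_lit 47) (nat_lit 3) (nat_lit 2) (nat_lit 2) true (nat_lit 7) true (nat_lit 14) false (nat_lit 1) true (nat_lit 13) true (nat_lit 14) (.s false (nat_lit 3) (nat_lit 45) (nat_lit 6) (nat_lit 0) (nat_lit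 2) true (nat_lit 4) true (nat_lit 14) false (nat_lit 1) true (nat_lit 10) true (nat_lit 16) (.s true (nat_lit 2) (nat_lit 47) (nat_lit 6) (nat_lit 2) (nat_lit 0) true (nat_lit 7) true (nat_lit 16) false (nat_lit 1) true (nat_lit 10) true (nat_lit 14) (.s false (nat_lit 2) (nat_lit 48) (nat_lit 1) (nat_lit 2) (nat_lit 3) true (nat_lit 8) true (nat_lit 13) false (nat_lit 2) true (nat_lit 15) true (nat_lit 14) dC2c_i156)))))))))))))))))))))))))

noncomputable def dC2c_i158 : IL := (.s true (nat_lit 1) (nat_lit 18) (nat_lit 12) (nat_lit 2) (nat_lit 2) true (nat_lit 1) true (nat_lit 14) true (nat_lit 4) true (nat_lit 7) true (nat_lit 14) (.s false (nat_lit 1) (nat_lit 18) (nat_lit 13) (nat_lit 2) (nat_lit 2) true (nat_lit 1) true (nat_lit 14) true (nat_lit 4) true (nat_lit 7) true (nat_lit 14) (.s true (nat_lit 2) (nat_lit 19) (nat_lit 12) (nat_lit 2) (nat_lit 2) true (nat_lit 1) true (nat_lit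 14) true (nat_lit 4) true (nat_lit 7) true (nat_lit 14) (.s false (nat_lit 1) (nat_lit 18) (nat_lit 16) (nat_lit 1) (nat_lit 2) false (nat_lit 0) true (nat_lit 14) true (nat_lit 4) true (nat_lit 5) true (nat_lit 15) (.s false (nat_lit 2) (nat_lit 20) (nat_lit 0) (nat_lit 6) (nat_lit 6) true (nat_lit 7) true (nat_lit 10) true (nat_lit 3) true (nat_lit 16) true (nat_lit 10) (.s true (nat_lit 2) (nat_lit 20) (nat_lit 1) (nat_lit 2) (nat_lit 12) true (nat_lit 2) true (nat_lit 7) true (nat_lit 3) true (nat_lit 15) true (nat_lit 14) (.s false (nat_lit 3) (nat_lit 20) (nat_lit 1) (nat_lit 7) (nat_lit 3) true (nat_lit 8) true (nat_lit 13) true (nat_lit 3) true (nat_lit 15) true (nat_lit 9) (.s false (nat_lit 2) (nat_lit 20) (nat_lit 2) (nat_lit 0) (nat_lit 15) true (nat_lit 0) true (nat_lit 6) true (nat_lit 3) true (nat_lit 14) true (nat_lit 16) (.s true (nat_lit 1) (nat_lit 20) (nat_lit 2) (nat_lit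 1) (nat_lit 11) true (nat_lit 1) true (nat_lit 7) true (nat_lit 3) true (nat_lit 14) true (nat_lit 15) (.s true (nat_lit 2) (nat_lit 20) (nat_lit 2) (nat_lit 1) (nat_lit 13) true (nat_lit 1) true (nat_lit 7) true (nat_lit 3) true (nat_lit 14) true (nat_lit 15) (.s false (nat_lit 1) (nat_lit 20) (nat_lit 2) (nat_lit 13) (nat_lit 1) true (nat_lit 10) true (nat_lit 15) true (nat_lit 3) true (nat_lit 14) true (nat_lit 7) (.s false (nat_lit 2) (nat_lit 20) (nat_lit 3) (nat_lit 7) (nat_lit 1) true (nat_lit 8) true (nat_lit 15) true (nat_lit 3) true (nat_lit 13) true (nat_lit 9) (.s true (nat_lit 2) (nat_lit 20) (nat_lit 6) (nat_lit 2) (nat_lit 3) true (nat_lit 2) true (nat_lit 13) true (nat_lit 3) true (nat_lit 10) true (nat_lit 14) (.s false (nat_lit 3) (nat_lit 20) (nat_lit 9) (nat_lit 2) (nat_lit 2) true (nat_lit 2) true (nat_lit 14) true (nat_lit 3) true (nat_lit 8) true (nat_lit 14) (.s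 false (nat_lit 2) (nat_lit 20) (nat_lit 11) (nat_lit 2) (nat_lit 1) true (nat_lit 2) true (nat_lit 15) true (nat_lit 3) true (nat_lit 7) true (nat_lit 14) (.s false (nat_lit 1) (nat_lit 25) (nat_lit 2) (nat_lit 2) (nat_lit 7) true (nat_lit 3) true (nat_lit 9) true (nat_lit 2) true (nat_lit 14) true (nat_lit 14) (.s false (nat_lit 3) (nat_lit 26) (nat_lit 2) (nat_lit 2) (nat_lit 7) true (nat_lit 3) true (nat_lit 9) true (nat_lit 2) true (nat_lit 14) true (nat_lit 14) (.s true (nat_lit 2) (nat_lit 28) (nat_lit 2) (nat_lit 2) (nat_lit 7) true (nat_lit 3) true (nat_lit 9) true (nat_lit 2) true (nat_lit 14) true (nat_lit 14) (.s false (nat_lit 1) (nat_lit 26) (nat_lit 2) (nat_lit 7) (nat_lit 2) true (nat_lit 9) true (nat_lit 14) true (nat_lit 2) true (nat_lit 14) true (nat_lit 9) (.s false (nat_lit 1) (nat_lit 27) (nat_lit 2) (nat_lit 7) (nat_lit 2) true (nat_lit 9) true (nat_lit 14) true (nat_lit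 2) true (nat_lit 14) true (nat_lit 9) (.s false (nat_lit 2) (nat_lit 27) (nat_lit 7) (nat_lit 2) (nat_lit 2) true (nat_lit 3) true (nat_lit 14) true (nat_lit 2) true (nat_lit 9) true (nat_lit 14) (.s false (nat_lit 2) (nat_lit 34) (nat_lit 1) (nat_lit 2) (nat_lit 7) true (nat_lit 4) true (nat_lit 9) true (nat_lit 1) true (nat_lit 15) true (nat_lit 14) (.s true (nat_lit 2) (nat_lit 38) (nat_lit 1) (nat_lit 2) (nat_lit 7) true (nat_lit 4) true (nat_lit 9) true (nat_lit 1) true (nat_lit 15) true (nat_lit 14) (.s false (nat_lit 2) (nat_lit 33) (nat_lit 2) (nat_lit 1) (nat_lit 7) true (nat_lit 3) true (nat_lit 9) true (nat_lit 1) true (nat_lit 14) true (nat_lit 15) (.s true (nat_lit 2) (nat_lit 34) (nat_lit 2) (nat_lit 2) (nat_lit 6) true (nat_lit 4) true (nat_lit 10) true (nat_lit 1) true (nat_lit 14) true (nat_lit 14) dC2c_i157)))))))))))))))))))))))))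

noncomputable def dC2c_i159 : IL := (.e false (nat_lit 1) (nat_lit 257) (nat_lit 1) (nat_lit 17) (.e true (nat_lit 2) (nat_lit 258) (nat_lit 1) (nat_lit 17) (.e true (nat_lit 2) (nat_lit 259) (nat_lit 1) (nat_lit 17) (.e false (nat_lit 2) (nat_lit 260) (nat_lit 1) (nat_lit 17) (.e false (nat_lit 3) (nat_lit 261) (nat_lit 1) (nat_lit 17) (.e true (nat_lit 1) (nat_lit 262) (nat_lit 1) (nat_lit 17) (.e false (nat_lit 2) (nat_lit 263) (nat_lit 1) (nat_lit 17) (.e false (nat_lit 2) (nat_lit 264) (nat_lit 1) (nat_lit 17) (.e true (nat_lit 1) (nat_lit 265) (nat_lit 1) (nat_lit 17) (.e false (nat_lit 1) (nat_lit 266) (nat_lit 1) (nat_lit 17) (.e true (nat_lit 2) (nat_lit 267) (nat_lit 1) (nat_lit 17) (.e false (nat_lit 3) (nat_lit 269) (nat_lit 1) (nat_lit 17) (.e false (nat_lit 1) (nat_lit 270) (nat_lit 1) (nat_lit 17) (.e true (nat_lit 3) (nat_lit 271) (nat_lit 1) (nat_lit 17) (.e false (nat_lit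 1) (nat_lit 272) (nat_lit 1) (nat_lit 17) (.e true (nat_lit 2) (nat_lit 273) (nat_lit 1) (nat_lit 17) (.e true (nat_lit 1) (nat_lit 274) (nat_lit 1) (nat_lit 17) (.e false (nat_lit 1) (nat_lit 275) (nat_lit 1) (nat_lit 17) (.e false (nat_lit 3) (nat_lit 276) (nat_lit 1) (nat_lit 17) (.e false (nat_lit 3) (nat_lit 283) (nat_lit 1) (nat_lit 17) (.e true (nat_lit 1) (nat_lit 284) (nat_lit 1) (nat_lit 17) (.e false (nat_lit 3) (nat_lit 285) (nat_lit 1) (nat_lit 17) (.e false (nat_lit 1) (nat_lit 286) (nat_lit 1) (nat_lit 17) (.e false (nat_lit 1) (nat_lit 237) (nat_lit 2) (nat_lit 16) (.u (nat_lit 2) (.p (nat_lit 0) (nat_lit 1) (.n (nat_lit 2) (nat_lit 1) (.p (nat_lit 3) (nat_lit 1) (.n (nat_lit 4) (nat_lit 1) (.p (nat_lit 8) (nat_lit 1) (.n (nat_lit 9) (nat_lit 1) (.n (nat_lit 10) (nat_lit 4) (.n (nat_lit 12) (nat_lit 1) (.p (nat_lit 14) (nat_lit 2) (.n (nat_lit 15) (nat_lit 1) (.n (nat_lit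 17) (nat_lit 2) (.n (nat_lit 19) (nat_lit 1) (.n (nat_lit 20) (nat_lit 2) (.p (nat_lit 23) (nat_lit 1) (.p (nat_lit 25) (nat_lit 1) (.n (nat_lit 26) (nat_lit 2) (.p (nat_lit 27) (nat_lit 2) (.p (nat_lit 28) (nat_lit 1) (.p (nat_lit 29) (nat_lit 1) (.p (nat_lit 32) (nat_lit 1) (.n (nat_lit 35) (nat_lit 1) (.n (nat_lit 36) (nat_lit 1) (.n (nat_lit 39) (nat_lit 1) .z))))))))))))))))))))))) .nil)))))))))))))))))))))))))

noncomputable def dC2c_i160 : IL := (.e false (nat_lit 1) (nat_lit 324) (nat_lit 0) (nat_lit 16) (.e false (nat_lit 3) (nat_lit 325) (nat_lit 0) (nat_lit 16) (.e false (nat_lit 1) (nat_lit 326) (nat_lit 0) (nat_lit 16) (.e false (nat_lit 2) (nat_lit 330) (nat_lit 0) (nat_lit 16) (.e false (nat_lit 3) (nat_lit 329) (nat_lit 0) (nat_lit 16) (.e false (nat_lit 1) (nat_lit 331) (nat_lit 0) (nat_lit 16) (.e false (nat_lit 2) (nat_lit 282) (nat_lit 2) (nat_lit 14) (.e false (nat_lit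 1) (nat_lit 284) (nat_lit 2) (nat_lit 14) (.e false (nat_lit 1) (nat_lit 62) (nat_lit 20) (nat_lit 3) (.e true (nat_lit 1) (nat_lit 72) (nat_lit 20) (nat_lit 3) (.e false (nat_lit 2) (nat_lit 318) (nat_lit 1) (nat_lit 15) (.e false (nat_lit 2) (nat_lit 306) (nat_lit 1) (nat_lit 15) (.e false (nat_lit 1) (nat_lit 307) (nat_lit 1) (nat_lit 15) (.e true (nat_lit 1) (nat_lit 314) (nat_lit 1) (nat_lit 15) (.e true (nat_lit 3) (nat_lit 308) (nat_lit 1) (nat_lit 15) (.e false (nat_lit 1) (nat_lit 310) (nat_lit 1) (nat_lit 15) (.e true (nat_lit 3) (nat_lit 48) (nat_lit 26) (nat_lit 2) (.e false (nat_lit 2) (nat_lit 305) (nat_lit 1) (nat_lit 15) (.e false (nat_lit 3) (nat_lit 309) (nat_lit 1) (nat_lit 15) (.e false (nat_lit 2) (nat_lit 311) (nat_lit 1) (nat_lit 15) (.e false (nat_lit 2) (nat_lit 312) (nat_lit 1) (nat_lit 15) (.e true (nat_lit 2) (nat_lit 319) (nat_lit 1) (nat_lit 15) (.u (nat_lit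 2) (.n (nat_lit 1) (nat_lit 1) (.p (nat_lit 2) (nat_lit 3) (.n (nat_lit 3) (nat_lit 1) (.n (nat_lit 4) (nat_lit 1) (.p (nat_lit 6) (nat_lit 5) (.n (nat_lit 7) (nat_lit 1) (.n (nat_lit 8) (nat_lit 1) (.n (nat_lit 9) (nat_lit 1) (.n (nat_lit 11) (nat_lit 1) (.p (nat_lit 12) (nat_lit 1) (.n (nat_lit 13) (nat_lit 3) (.n (nat_lit 14) (nat_lit 1) (.n (nat_lit 17) (nat_lit 3) (.n (nat_lit 19) (nat_lit 2) (.p (nat_lit 21) (nat_lit 2) (.n (nat_lit 23) (nat_lit 2) (.n (nat_lit 24) (nat_lit 3) (.n (nat_lit 25) (nat_lit 1) (.n (nat_lit 26) (nat_lit 1) (.n (nat_lit 31) (nat_lit 1) (.p (nat_lit 33) (nat_lit 1) (.n (nat_lit 34) (nat_lit 1) (.p (nat_lit 35) (nat_lit 1) (.n (nat_lit 38) (nat_lit 2) (.n (nat_lit 40) (nat_lit 1) (.n (nat_lit 49) (nat_lit 1) (.p (nat_lit 50) (nat_lit 1) (.n (nat_lit 53) (nat_lit 1) (.n (nat_lit 55) (nat_lit 1) (.p (nat_lit 68) (nat_lit 1) (.n (nat_lit 72) (nat_lit 1) (.n (nat_lit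 73) (nat_lit 1) (.p (nat_lit 75) (nat_lit 1) (.n (nat_lit 77) (nat_lit 1) (.n (nat_lit 79) (nat_lit 1) (.p (nat_lit 80) (nat_lit 1) (.p (nat_lit 82) (nat_lit 1) (.p (nat_lit 84) (nat_lit 1) (.p (nat_lit 87) (nat_lit 1) (.p (nat_lit 91) (nat_lit 1) (.p (nat_lit 94) (nat_lit 1) (.n (nat_lit 97) (nat_lit 1) (.p (nat_lit 98) (nat_lit 1) (.p (nat_lit 105) (nat_lit 1) (.n (nat_lit 110) (nat_lit 1) (.p (nat_lit 119) (nat_lit 1) (.p (nat_lit 127) (nat_lit 1) (.n (nat_lit 129) (nat_lit 1) (.p (nat_lit 130) (nat_lit 1) (.n (nat_lit 133) (nat_lit 1) (.p (nat_lit 134) (nat_lit 1) (.n (nat_lit 137) (nat_lit 1) (.p (nat_lit 138) (nat_lit 1) (.n (nat_lit 142) (nat_lit 2) (.p (nat_lit 143) (nat_lit 3) (.n (nat_lit 144) (nat_lit 6) (.p (nat_lit 145) (nat_lit 1) (.n (nat_lit 146) (nat_lit 3) (.p (nat_lit 147) (nat_lit 4) (.n (nat_lit 148) (nat_lit 2) .z))))))))))))))))))))))))))))))))))))))))))))))))))))))))))))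 (.u (nat_lit 2) (.n (nat_lit 149) (nat_lit 1) (.p (nat_lit 150) (nat_lit 2) (.n (nat_lit 151) (nat_lit 2) (.n (nat_lit 153) (nat_lit 1) (.p (nat_lit 154) (nat_lit 5) (.n (nat_lit 155) (nat_lit 1) (.n (nat_lit 157) (nat_lit 4) (.p (nat_lit 159) (nat_lit 2) (.p (nat_lit 160) (nat_lit 5) (.p (nat_lit 161) (nat_lit 4) (.n (nat_lit 162) (nat_lit 3) (.n (nat_lit 163) (nat_lit 3) (.p (nat_lit 164) (nat_lit 1) (.p (nat_lit 165) (nat_lit 7) (.n (nat_lit 166) (nat_lit 7) (.p (nat_lit 167) (nat_lit 3) (.p (nat_lit 168) (nat_lit 2) (.n (nat_lit 169) (nat_lit 2) (.p (nat_lit 170) (nat_lit 1) (.n (nat_lit 172) (nat_lit 1) (.p (nat_lit 173) (nat_lit 1) (.n (nat_lit 174) (nat_lit 1) (.n (nat_lit 176) (nat_lit 1) (.p (nat_lit 177) (nat_lit 2) (.p (nat_lit 178) (nat_lit 1) (.p (nat_lit 179) (nat_lit 1) (.n (nat_lit 181) (nat_lit 1) (.n (nat_lit 182) (nat_lit 1) (.p (nat_lit 185) (nat_lit 1) (.n (nat_lit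 186) (nat_lit 1) (.p (nat_lit 193) (nat_lit 1) (.n (nat_lit 200) (nat_lit 1) (.p (nat_lit 201) (nat_lit 1) (.n (nat_lit 204) (nat_lit 2) (.n (nat_lit 205) (nat_lit 3) (.n (nat_lit 207) (nat_lit 1) (.p (nat_lit 208) (nat_lit 8) (.n (nat_lit 209) (nat_lit 20) (.n (nat_lit 210) (nat_lit 5) (.p (nat_lit 211) (nat_lit 4) (.n (nat_lit 212) (nat_lit 7) (.p (nat_lit 213) (nat_lit 5) (.n (nat_lit 214) (nat_lit 5) (.p (nat_lit 215) (nat_lit 1) (.n (nat_lit 216) (nat_lit 12) (.p (nat_lit 217) (nat_lit 5) (.p (nat_lit 219) (nat_lit 10) (.p (nat_lit 220) (nat_lit 1) (.p (nat_lit 221) (nat_lit 4) (.p (nat_lit 222) (nat_lit 13) (.n (nat_lit 223) (nat_lit 5) (.p (nat_lit 224) (nat_lit 5) (.n (nat_lit 225) (nat_lit 1) (.n (nat_lit 226) (nat_lit 2) (.p (nat_lit 227) (nat_lit 19) (.p (nat_lit 228) (nat_lit 9) (.p (nat_lit 229) (nat_lit 5) (.p (nat_lit 230) (nat_lit 2) (.p (nat_lit 231) (nat_lit 2) (.n (nat_lit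 232) (nat_lit 9) .z)))))))))))))))))))))))))))))))))))))))))))))))))))))))))))) (.u (nat_lit 2) (.p (nat_lit 233) (nat_lit 1) (.n (nat_lit 234) (nat_lit 1) (.n (nat_lit 235) (nat_lit 7) (.n (nat_lit 237) (nat_lit 5) (.p (nat_lit 238) (nat_lit 9) (.n (nat_lit 240) (nat_lit 7) (.p (nat_lit 241) (nat_lit 2) (.n (nat_lit 243) (nat_lit 1) (.p (nat_lit 244) (nat_lit 4) (.n (nat_lit 245) (nat_lit 1) (.p (nat_lit 246) (nat_lit 3) (.n (nat_lit 247) (nat_lit 3) (.n (nat_lit 248) (nat_lit 4) (.p (nat_lit 249) (nat_lit 3) (.p (nat_lit 250) (nat_lit 2) (.n (nat_lit 252) (nat_lit 1) (.p (nat_lit 253) (nat_lit 1) (.p (nat_lit 254) (nat_lit 1) (.p (nat_lit 258) (nat_lit 2) (.n (nat_lit 260) (nat_lit 1) (.n (nat_lit 261) (nat_lit 4) (.n (nat_lit 262) (nat_lit 5) (.p (nat_lit 263) (nat_lit 6) (.n (nat_lit 264) (nat_lit 4) (.n (nat_lit 265) (nat_lit 6) (.p (nat_lit 266) (nat_lit 3) (.p (nat_lit 267) (nat_lit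 3) .z))))))))))))))))))))))))))) .nil)))))))))))))))))))))))))

noncomputable def dC2c_i161 : IL := (.s true (nat_lit 3) (nat_lit 100) (nat_lit 1) (nat_lit 2) (nat_lit 1) true (nat_lit 12) true (nat_lit 15) false (nat_lit 6) true (nat_lit 15) true (nat_lit 14) (.s false (nat_lit 2) (nat_lit 103) (nat_lit 0) (nat_lit 1) (nat_lit 2) true (nat_lit 11) true (nat_lit 14) false (nat_lit 7) true (nat_lit 16) true (nat_lit 15) (.s true (nat_lit 2) (nat_lit 103) (nat_lit 2) (nat_lit 1) (nat_lit 0) true (nat_lit 11) true (nat_lit 16) false (nat_lit 7) true (nat_lit 14) true (nat_lit 15) (.s false (nat_lit 2) (nat_lit 105) (nat_lit 0) (nat_lit 1) (nat_lit 1) true (nat_lit 13) true (nat_lit 15) false (nat_lit 8) true (nat_lit 16) true (nat_lit 15) (.e false (nat_lit 1) (nat_lit 154) (nat_lit 7) (nat_lit 9) (.e false (nat_lit 2) (nat_lit 254) (nat_lit 2) (nat_lit 14) (.e true (nat_lit 2) (nat_lit 265)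 (nat_lit 2) (nat_lit 14) (.e true (nat_lit 3) (nat_lit 272) (nat_lit 2) (nat_lit 14) (.e true (nat_lit 2) (nat_lit 274) (nat_lit 2) (nat_lit 14) (.e true (nat_lit 1) (nat_lit 285) (nat_lit 2) (nat_lit 14) (.e false (nat_lit 1) (nat_lit 264) (nat_lit 2) (nat_lit 14) (.e false (nat_lit 1) (nat_lit 140) (nat_lit 7) (nat_lit 9) (.e true (nat_lit 2) (nat_lit 252) (nat_lit 2) (nat_lit 14) (.e true (nat_lit 2) (nat_lit 253) (nat_lit 2) (nat_lit 14) (.e false (nat_lit 2) (nat_lit 255) (nat_lit 2) (nat_lit 14) (.e true (nat_lit 3) (nat_lit 257) (nat_lit 2) (nat_lit 14) (.e true (nat_lit 2) (nat_lit 259) (nat_lit 2) (nat_lit 14) (.e false (nat_lit 2) (nat_lit 261) (nat_lit 2) (nat_lit 14) (.e true (nat_lit 3) (nat_lit 267) (nat_lit 2) (nat_lit 14) (.e true (nat_lit 2) (nat_lit 270) (nat_lit 2) (nat_lit 14) (.e false (nat_lit 3) (nat_lit 271) (nat_lit 2) (nat_lit 14) (.e false (nat_lit 2) (nat_lit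 273) (nat_lit 2) (nat_lit 14) (.e true (nat_lit 2) (nat_lit 275) (nat_lit 2) (nat_lit 14) (.e false (nat_lit 2) (nat_lit 313) (nat_lit 1) (nat_lit 15) (.e false (nat_lit 1) (nat_lit 134) (nat_lit 7) (nat_lit 9) dC2c_i160)))))))))))))))))))))))))

noncomputable def dC2c_i162 : IL := (.s false (nat_lit 2) (nat_lit 84) (nat_lit 1) (nat_lit 2) (nat_lit 2) true (nat_lit 10) true (nat_lit 14) false (nat_lit 4) true (nat_lit 15) true (nat_lit 14) (.s true (nat_lit 2) (nat_lit 85) (nat_lit 1) (nat_lit 2) (nat_lit 2) true (nat_lit 10) true (nat_lit 14) false (nat_lit 4) true (nat_lit 15) true (nat_lit 14) (.s true (nat_lit 3) (nat_lit 86) (nat_lit 1) (nat_lit 2) (nat_lit 2) true (nat_lit 10) true (nat_lit 14) false (nat_lit 4) true (nat_lit 15) true (nat_lit 14) (.s false (nat_lit 2) (nat_lit 87) (nat_lit 1) (nat_lit 2) (nat_lit 2) true (nat_lit 10) true (nat_lit 14) false (nat_lit 4) true (nat_lit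 15) true (nat_lit 14) (.s true (nat_lit 3) (nat_lit 88) (nat_lit 1) (nat_lit 2) (nat_lit 2) true (nat_lit 10) true (nat_lit 14) false (nat_lit 4) true (nat_lit 15) true (nat_lit 14) (.s true (nat_lit 2) (nat_lit 90) (nat_lit 1) (nat_lit 2) (nat_lit 2) true (nat_lit 10) true (nat_lit 14) false (nat_lit 4) true (nat_lit 15) true (nat_lit 14) (.s true (nat_lit 2) (nat_lit 80) (nat_lit 2) (nat_lit 1) (nat_lit 2) true (nat_lit 9) true (nat_lit 14) false (nat_lit 4) true (nat_lit 14) true (nat_lit 15) (.s true (nat_lit 1) (nat_lit 81) (nat_lit 2) (nat_lit 1) (nat_lit 2) true (nat_lit 9) true (nat_lit 14) false (nat_lit 4) true (nat_lit 14) true (nat_lit 15) (.s true (nat_lit 2) (nat_lit 88) (nat_lit 2) (nat_lit 1) (nat_lit 2) true (nat_lit 9) true (nat_lit 14) false (nat_lit 4) true (nat_lit 14) true (nat_lit 15) (.s false (nat_lit 3) (nat_lit 80) (nat_lit 2) (nat_lit 2) (nat_lit 1) true (nat_lit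 10) true (nat_lit 15) false (nat_lit 4) true (nat_lit 14) true (nat_lit 14) (.s true (nat_lit 2) (nat_lit 81) (nat_lit 2) (nat_lit 2) (nat_lit 1) true (nat_lit 10) true (nat_lit 15) false (nat_lit 4) true (nat_lit 14) true (nat_lit 14) (.s true (nat_lit 1) (nat_lit 83) (nat_lit 2) (nat_lit 2) (nat_lit 1) true (nat_lit 10) true (nat_lit 15) false (nat_lit 4) true (nat_lit 14) true (nat_lit 14) (.s false (nat_lit 2) (nat_lit 85) (nat_lit 2) (nat_lit 2) (nat_lit 1) true (nat_lit 10) true (nat_lit 15) false (nat_lit 4) true (nat_lit 14) true (nat_lit 14) (.s true (nat_lit 1) (nat_lit 90) (nat_lit 2) (nat_lit 2) (nat_lit 1) true (nat_lit 10) true (nat_lit 15) false (nat_lit 4) true (nat_lit 14) true (nat_lit 14) (.s false (nat_lit 2) (nat_lit 92) (nat_lit 0) (nat_lit 2) (nat_lit 2) true (nat_lit 11) true (nat_lit 14) false (nat_lit 5) true (nat_lit 16) true (nat_lit 14) (.s true (nat_lit 2)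 (nat_lit 93) (nat_lit 0) (nat_lit 2) (nat_lit 2) true (nat_lit 11) true (nat_lit 14) false (nat_lit 5) true (nat_lit 16) true (nat_lit 14) (.s true (nat_lit 2) (nat_lit 94) (nat_lit 0) (nat_lit 2) (nat_lit 2) true (nat_lit 11) true (nat_lit 14) false (nat_lit 5) true (nat_lit 16) true (nat_lit 14) (.s true (nat_lit 1) (nat_lit 95) (nat_lit 0) (nat_lit 2) (nat_lit 2) true (nat_lit 11) true (nat_lit 14) false (nat_lit 5) true (nat_lit 16) true (nat_lit 14) (.s false (nat_lit 3) (nat_lit 96) (nat_lit 0) (nat_lit 2) (nat_lit 2) true (nat_lit 11) true (nat_lit 14) false (nat_lit 5) true (nat_lit 16) true (nat_lit 14) (.s true (nat_lit 2) (nat_lit 91) (nat_lit 2) (nat_lit 2) (nat_lit 0) true (nat_lit 11) true (nat_lit 16) false (nat_lit 5) true (nat_lit 14) true (nat_lit 14) (.s true (nat_lit 2) (nat_lit 92) (nat_lit 2) (nat_lit 2) (nat_lit 0) true (nat_lit 11) true (nat_lit 16) false (nat_lit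 5) true (nat_lit 14) true (nat_lit 14) (.s true (nat_lit 2) (nat_lit 96) (nat_lit 2) (nat_lit 2) (nat_lit 0) true (nat_lit 11) true (nat_lit 16) false (nat_lit 5) true (nat_lit 14) true (nat_lit 14) (.s false (nat_lit 2) (nat_lit 97) (nat_lit 1) (nat_lit 1) (nat_lit 2) true (nat_lit 10) true (nat_lit 14) false (nat_lit 6) true (nat_lit 15) true (nat_lit 15) (.s false (nat_lit 1) (nat_lit 98) (nat_lit 1) (nat_lit 2) (nat_lit 1) true (nat_lit 12) true (nat_lit 15) false (nat_lit 6) true (nat_lit 15) true (nat_lit 14) (.s false (nat_lit 1) (nat_lit 99) (nat_lit 1) (nat_lit 2) (nat_lit 1) true (nat_lit 12) true (nat_lit 15) false (nat_lit 6) true (nat_lit 15) true (nat_lit 14) dC2c_i161)))))))))))))))))))))))))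

noncomputable def dC2c_i163 : IL := (.s true (nat_lit 2) (nat_lit 39) (nat_lit 5) (nat_lit 2) (nat_lit 2) true (nat_lit 5) true (nat_lit 14) true (nat_lit 0) true (nat_lit 11) true (nat_lit 14) (.s true (nat_lit 3) (nat_lit 41) (nat_lit 5) (nat_lit 2) (nat_lit 2) true (nat_lit 5) true (nat_lit 14) true (nat_lit 0) true (nat_lit 11) true (nat_lit 14) (.s false (nat_lit 3) (nat_lit 40) (nat_lit 7) (nat_lit 2) (nat_lit 0) true (nat_lit 5) true (nat_lit 16) true (nat_lit 0) true (nat_lit 9) true (nat_lit 14) (.s false (nat_lit 2) (nat_lit 42) (nat_lit 1) (nat_lit 6) (nat_lit 2) true (nat_lit 10) true (nat_lit 14) false (nat_lit 0) true (nat_lit 15) true (nat_lit 10) (.s false (nat_lit 1) (nat_lit 42) (nat_lit 2) (nat_lit 1) (nat_lit 6) true (nat_lit 4) true (nat_lit 10) false (nat_lit 0) true (nat_lit 14) true (nat_lit 15) (.s false (nat_lit 2) (nat_lit 43) (nat_lit 2) (nat_lit 1) (nat_lit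 6) true (nat_lit 4) true (nat_lit 10) false (nat_lit 0) true (nat_lit 14) true (nat_lit 15) (.s false (nat_lit 1) (nat_lit 43) (nat_lit 4) (nat_lit 2) (nat_lit 2) true (nat_lit 6) true (nat_lit 14) false (nat_lit 0) true (nat_lit 12) true (nat_lit 14) (.s false (nat_lit 1) (nat_lit 44) (nat_lit 4) (nat_lit 2) (nat_lit 2) true (nat_lit 6) true (nat_lit 14) false (nat_lit 0) true (nat_lit 12) true (nat_lit 14) (.s false (nat_lit 3) (nat_lit 47) (nat_lit 0) (nat_lit 2) (nat_lit 6) true (nat_lit 7) true (nat_lit 10) false (nat_lit 1) true (nat_lit 16) true (nat_lit 14) (.s false (nat_lit 3) (nat_lit 47) (nat_lit 2) (nat_lit 0) (nat_lit 6) true (nat_lit 4) true (nat_lit 10) false (nat_lit 1) true (nat_lit 14) true (nat_lit 16) (.s false (nat_lit 3) (nat_lit 46) (nat_lit 2) (nat_lit 3) (nat_lit 2) true (nat_lit 9) true (nat_lit 14) false (nat_lit 1) true (nat_lit 14) true (nat_lit 13) (.s false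 (nat_lit 2) (nat_lit 46) (nat_lit 3) (nat_lit 2) (nat_lit 2) true (nat_lit 7) true (nat_lit 14) false (nat_lit 1) true (nat_lit 13) true (nat_lit 14) (.s true (nat_lit 2) (nat_lit 47) (nat_lit 3) (nat_lit 2) (nat_lit 2) true (nat_lit 7) true (nat_lit 14) false (nat_lit 1) true (nat_lit 13) true (nat_lit 14) (.s false (nat_lit 3) (nat_lit 47) (nat_lit 6) (nat_lit 0) (nat_lit 2) true (nat_lit 4) true (nat_lit 14) false (nat_lit 1) true (nat_lit 10) true (nat_lit 16) (.s false (nat_lit 2) (nat_lit 47) (nat_lit 6) (nat_lit 2) (nat_lit 0) true (nat_lit 7) true (nat_lit 16) false (nat_lit 1) true (nat_lit 10) true (nat_lit 14) (.s true (nat_lit 2) (nat_lit 48) (nat_lit 1) (nat_lit 6) (nat_lit 0) true (nat_lit 13) true (nat_lit 16) false (nat_lit 2) true (nat_lit 15) true (nat_lit 10) (.s true (nat_lit 1) (nat_lit 48) (nat_lit 2) (nat_lit 3) (nat_lit 1) true (nat_lit 10) true (nat_lit 15) false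 (nat_lit 2) true (nat_lit 14) true (nat_lit 13) (.s true (nat_lit 3) (nat_lit 66) (nat_lit 2) (nat_lit 2) (nat_lit 2) true (nat_lit 9) true (nat_lit 14) false (nat_lit 3) true (nat_lit 14) true (nat_lit 14) (.s false (nat_lit 3) (nat_lit 67) (nat_lit 2) (nat_lit 2) (nat_lit 2) true (nat_lit 9) true (nat_lit 14) false (nat_lit 3) true (nat_lit 14) true (nat_lit 14) (.s true (nat_lit 1) (nat_lit 68) (nat_lit 2) (nat_lit 2) (nat_lit 2) true (nat_lit 9) true (nat_lit 14) false (nat_lit 3) true (nat_lit 14) true (nat_lit 14) (.s false (nat_lit 2) (nat_lit 69) (nat_lit 2) (nat_lit 2) (nat_lit 2) true (nat_lit 9) true (nat_lit 14) false (nat_lit 3) true (nat_lit 14) true (nat_lit 14) (.s true (nat_lit 2) (nat_lit 70) (nat_lit 2) (nat_lit 2) (nat_lit 2) true (nat_lit 9) true (nat_lit 14) false (nat_lit 3) true (nat_lit 14) true (nat_lit 14) (.s false (nat_lit 1) (nat_lit 71) (nat_lit 2) (nat_lit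 2) (nat_lit 2) true (nat_lit 9) true (nat_lit 14) false (nat_lit 3) true (nat_lit 14) true (nat_lit 14) (.s true (nat_lit 2) (nat_lit 73) (nat_lit 2) (nat_lit 2) (nat_lit 2) true (nat_lit 9) true (nat_lit 14) false (nat_lit 3) true (nat_lit 14) true (nat_lit 14) (.s true (nat_lit 3) (nat_lit 82) (nat_lit 1) (nat_lit 2) (nat_lit 2) true (nat_lit 10) true (nat_lit 14) false (nat_lit 4) true (nat_lit 15) true (nat_lit 14) dC2c_i162)))))))))))))))))))))))))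

noncomputable def dC2c_i164 : IL := (.s false (nat_lit 2) (nat_lit 27) (nat_lit 2) (nat_lit 2) (nat_lit 7) true (nat_lit 3) true (nat_lit 9) true (nat_lit 2) true (nat_lit 14) true (nat_lit 14) (.s false (nat_lit 3) (nat_lit 29) (nat_lit 2) (nat_lit 2) (nat_lit 7) true (nat_lit 3) true (nat_lit 9) true (nat_lit 2) true (nat_lit 14) true (nat_lit 14) (.s false (nat_lit 1) (nat_lit 27) (nat_lit 2) (nat_lit 7) (nat_lit 2) true (nat_lit 9) true (nat_lit 14) true (nat_lit 2) true (nat_lit 14) true (nat_lit 9) (.s false (nat_lit 2) (nat_lit 27) (nat_lit 7) (nat_lit 2) (nat_lit 2) true (nat_lit 3) true (nat_lit 14) true (nat_lit 2) true (nat_lit 9) true (nat_lit 14) (.s true (nat_lit 1) (nat_lit 29) (nat_lit 7) (nat_lit 2) (nat_lit 2) true (nat_lit 3) true (nat_lit 14) true (nat_lit 2) true (nat_lit 9) true (nat_lit 14) (.s false (nat_lit 2) (nat_lit 33) (nat_lit 1) (nat_lit 2) (nat_lit 7) true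 (nat_lit 4) true (nat_lit 9) true (nat_lit 1) true (nat_lit 15) true (nat_lit 14) (.s true (nat_lit 2) (nat_lit 34) (nat_lit 1) (nat_lit 2) (nat_lit 7) true (nat_lit 4) true (nat_lit 9) true (nat_lit 1) true (nat_lit 15) true (nat_lit 14) (.s false (nat_lit 2) (nat_lit 35) (nat_lit 1) (nat_lit 2) (nat_lit 7) true (nat_lit 4) true (nat_lit 9) true (nat_lit 1) true (nat_lit 15) true (nat_lit 14) (.s true (nat_lit 3) (nat_lit 38) (nat_lit 1) (nat_lit 2) (nat_lit 7) true (nat_lit 4) true (nat_lit 9) true (nat_lit 1) true (nat_lit 15) true (nat_lit 14) (.s true (nat_lit 2) (nat_lit 33) (nat_lit 2) (nat_lit 2) (nat_lit 6) true (nat_lit 4) true (nat_lit 10) true (nat_lit 1) true (nat_lit 14) true (nat_lit 14) (.s true (nat_lit 1) (nat_lit 35) (nat_lit 2) (nat_lit 2) (nat_lit 6) true (nat_lit 4) true (nat_lit 10) true (nat_lit 1) true (nat_lit 14) true (nat_lit 14) (.s true (nat_lit 3) (nat_lit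 38) (nat_lit 2) (nat_lit 2) (nat_lit 6) true (nat_lit 4) true (nat_lit 10) true (nat_lit 1) true (nat_lit 14) true (nat_lit 14) (.s false (nat_lit 2) (nat_lit 33) (nat_lit 2) (nat_lit 7) (nat_lit 1) true (nat_lit 10) true (nat_lit 15) true (nat_lit 1) true (nat_lit 14) true (nat_lit 9) (.s false (nat_lit 3) (nat_lit 34) (nat_lit 2) (nat_lit 7) (nat_lit 1) true (nat_lit 10) true (nat_lit 15) true (nat_lit 1) true (nat_lit 14) true (nat_lit 9) (.s false (nat_lit 2) (nat_lit 35) (nat_lit 2) (nat_lit 7) (nat_lit 1) true (nat_lit 10) true (nat_lit 15) true (nat_lit 1) true (nat_lit 14) true (nat_lit 9) (.s true (nat_lit 2) (nat_lit 38) (nat_lit 2) (nat_lit 7) (nat_lit 1) true (nat_lit 10) true (nat_lit 15) true (nat_lit 1) true (nat_lit 14) true (nat_lit 9) (.s true (nat_lit 3) (nat_lit 33) (nat_lit 6) (nat_lit 2) (nat_lit 2) true (nat_lit 4) true (nat_lit 14) true (nat_lit 1) true (nat_lit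 10) true (nat_lit 14) (.s true (nat_lit 2) (nat_lit 35) (nat_lit 6) (nat_lit 2) (nat_lit 2) true (nat_lit 4) true (nat_lit 14) true (nat_lit 1) true (nat_lit 10) true (nat_lit 14) (.s false (nat_lit 2) (nat_lit 33) (nat_lit 7) (nat_lit 2) (nat_lit 1) true (nat_lit 4) true (nat_lit 15) true (nat_lit 1) true (nat_lit 9) true (nat_lit 14) (.s false (nat_lit 1) (nat_lit 40) (nat_lit 2) (nat_lit 0) (nat_lit 7) true (nat_lit 3) true (nat_lit 9) true (nat_lit 0) true (nat_lit 14) true (nat_lit 16) (.s false (nat_lit 1) (nat_lit 39) (nat_lit 2) (nat_lit 2) (nat_lit 5) true (nat_lit 5) true (nat_lit 11) true (nat_lit 0) true (nat_lit 14) true (nat_lit 14) (.s false (nat_lit 2) (nat_lit 40) (nat_lit 2) (nat_lit 2) (nat_lit 5) true (nat_lit 5) true (nat_lit 11) true (nat_lit 0) true (nat_lit 14) true (nat_lit 14) (.s false (nat_lit 3) (nat_lit 41) (nat_lit 2) (nat_lit 5) (nat_lit 2) true (nat_lit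 9) true (nat_lit 14) true (nat_lit 0) true (nat_lit 14) true (nat_lit 11) (.s true (nat_lit 2) (nat_lit 39) (nat_lit 2) (nat_lit 7) (nat_lit 0) true (nat_lit 11) true (nat_lit 16) true (nat_lit 0) true (nat_lit 14) true (nat_lit 9) (.s false (nat_lit 2) (nat_lit 40) (nat_lit 2) (nat_lit 7) (nat_lit 0) true (nat_lit 11) true (nat_lit 16) true (nat_lit 0) true (nat_lit 14) true (nat_lit 9) dC2c_i163)))))))))))))))))))))))))

noncomputable def dC2c_i165 : IL := (.s false (nat_lit 1) (nat_lit 17) (nat_lit 15) (nat_lit 2) (nat_lit 2) true (nat_lit 0) true (nat_lit 14) true (nat_lit 5) true (nat_lit 6) true (nat_lit 14) (.s true (nat_lit 2) (nat_lit 19) (nat_lit 2) (nat_lit 2) (nat_lit 11) true (nat_lit 1) true (nat_lit 7) true (nat_lit 4) true (nat_lit 14) true (nat_lit 14) (.s false (nat_lit 2) (nat_lit 19) (nat_lit 2) (nat_lit 2) (nat_lit 12) true (nat_lit 1) true (nat_lit 7) true (nat_lit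 4) true (nat_lit 14) true (nat_lit 14) (.s false (nat_lit 1) (nat_lit 19) (nat_lit 2) (nat_lit 2) (nat_lit 13) true (nat_lit 1) true (nat_lit 7) true (nat_lit 4) true (nat_lit 14) true (nat_lit 14) (.s true (nat_lit 2) (nat_lit 19) (nat_lit 2) (nat_lit 12) (nat_lit 2) true (nat_lit 9) true (nat_lit 14) true (nat_lit 4) true (nat_lit 14) true (nat_lit 7) (.s true (nat_lit 3) (nat_lit 18) (nat_lit 11) (nat_lit 2) (nat_lit 2) true (nat_lit 1) true (nat_lit 14) true (nat_lit 4) true (nat_lit 7) true (nat_lit 14) (.s true (nat_lit 2) (nat_lit 18) (nat_lit 13) (nat_lit 2) (nat_lit 2) true (nat_lit 1) true (nat_lit 14) true (nat_lit 4) true (nat_lit 7) true (nat_lit 14) (.s false (nat_lit 3) (nat_lit 19) (nat_lit 13) (nat_lit 2) (nat_lit 2) true (nat_lit 1) true (nat_lit 14) true (nat_lit 4) true (nat_lit 7) true (nat_lit 14) (.s true (nat_lit 2) (nat_lit 20) (nat_lit 0) (nat_lit 15) (nat_lit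 2) true (nat_lit 11) true (nat_lit 14) true (nat_lit 3) true (nat_lit 16) true (nat_lit 6) (.s true (nat_lit 1) (nat_lit 20) (nat_lit 1) (nat_lit 3) (nat_lit 7) true (nat_lit 4) true (nat_lit 9) true (nat_lit 3) true (nat_lit 15) true (nat_lit 13) (.s true (nat_lit 2) (nat_lit 20) (nat_lit 1) (nat_lit 7) (nat_lit 3) true (nat_lit 8) true (nat_lit 13) true (nat_lit 3) true (nat_lit 15) true (nat_lit 9) (.s true (nat_lit 2) (nat_lit 20) (nat_lit 2) (nat_lit 1) (nat_lit 13) true (nat_lit 1) true (nat_lit 7) true (nat_lit 3) true (nat_lit 14) true (nat_lit 15) (.s true (nat_lit 2) (nat_lit 20) (nat_lit 2) (nat_lit 2) (nat_lit 8) true (nat_lit 2) true (nat_lit 8) true (nat_lit 3) true (nat_lit 14) true (nat_lit 14) (.s true (nat_lit 2) (nat_lit 20) (nat_lit 2) (nat_lit 3) (nat_lit 6) true (nat_lit 4) true (nat_lit 10) true (nat_lit 3) true (nat_lit 14) true (nat_lit 13) (.s true (nat_lit 2)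 (nat_lit 20) (nat_lit 2) (nat_lit 13) (nat_lit 1) true (nat_lit 10) true (nat_lit 15) true (nat_lit 3) true (nat_lit 14) true (nat_lit 7) (.s false (nat_lit 3) (nat_lit 20) (nat_lit 2) (nat_lit 14) (nat_lit 0) true (nat_lit 11) true (nat_lit 16) true (nat_lit 3) true (nat_lit 14) true (nat_lit 6) (.s false (nat_lit 2) (nat_lit 20) (nat_lit 2) (nat_lit 15) (nat_lit 0) true (nat_lit 11) true (nat_lit 16) true (nat_lit 3) true (nat_lit 14) true (nat_lit 6) (.s false (nat_lit 3) (nat_lit 20) (nat_lit 6) (nat_lit 2) (nat_lit 3) true (nat_lit 2) true (nat_lit 13) true (nat_lit 3) true (nat_lit 10) true (nat_lit 14) (.s false (nat_lit 2) (nat_lit 20) (nat_lit 8) (nat_lit 2) (nat_lit 2) true (nat_lit 2) true (nat_lit 14) true (nat_lit 3) true (nat_lit 8) true (nat_lit 14) (.s false (nat_lit 3) (nat_lit 20) (nat_lit 9) (nat_lit 2) (nat_lit 2) true (nat_lit 2) true (nat_lit 14) true (nat_lit 3) true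 (nat_lit 8) true (nat_lit 14) (.s true (nat_lit 1) (nat_lit 20) (nat_lit 11) (nat_lit 1) (nat_lit 2) true (nat_lit 1) true (nat_lit 14) true (nat_lit 3) true (nat_lit 7) true (nat_lit 15) (.s false (nat_lit 2) (nat_lit 20) (nat_lit 12) (nat_lit 1) (nat_lit 2) true (nat_lit 1) true (nat_lit 14) true (nat_lit 3) true (nat_lit 7) true (nat_lit 15) (.s true (nat_lit 2) (nat_lit 20) (nat_lit 12) (nat_lit 2) (nat_lit 1) true (nat_lit 2) true (nat_lit 15) true (nat_lit 3) true (nat_lit 7) true (nat_lit 14) (.s false (nat_lit 3) (nat_lit 24) (nat_lit 2) (nat_lit 2) (nat_lit 7) true (nat_lit 3) true (nat_lit 9) true (nat_lit 2) true (nat_lit 14) true (nat_lit 14) (.s false (nat_lit 1) (nat_lit 25) (nat_lit 2) (nat_lit 2) (nat_lit 7) true (nat_lit 3) true (nat_lit 9) true (nat_lit 2) true (nat_lit 14) true (nat_lit 14) dC2c_i164)))))))))))))))))))))))))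

noncomputable def dC2c_i166 : IL := (.e true (nat_lit 1) (nat_lit 22) (nat_lit 20) (nat_lit 0) (.e false (nat_lit 1) (nat_lit 53) (nat_lit 7) (nat_lit 7) (.e false (nat_lit 2) (nat_lit 107) (nat_lit 2) (nat_lit 12) (.e false (nat_lit 1) (nat_lit 108) (nat_lit 2) (nat_lit 12) (.e false (nat_lit 1) (nat_lit 109) (nat_lit 2) (nat_lit 12) (.e true (nat_lit 1) (nat_lit 112) (nat_lit 2) (nat_lit 12) (.e false (nat_lit 1) (nat_lit 113) (nat_lit 2) (nat_lit 12) (.e false (nat_lit 1) (nat_lit 114) (nat_lit 2) (nat_lit 12) (.e true (nat_lit 1) (nat_lit 115) (nat_lit 2) (nat_lit 12) (.e true (nat_lit 1) (nat_lit 116) (nat_lit 2) (nat_lit 12) (.e true (nat_lit 1) (nat_lit 131) (nat_lit 2) (nat_lit 12) (.e true (nat_lit 2) (nat_lit 132) (nat_lit 1) (nat_lit 13) (.e true (nat_lit 1) (nat_lit 134) (nat_lit 1) (nat_lit 13) (.e false (nat_lit 2) (nat_lit 136) (nat_lit 1) (nat_lit 13) (.e true (nat_lit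 2) (nat_lit 137) (nat_lit 1) (nat_lit 13) (.e false (nat_lit 2) (nat_lit 138) (nat_lit 1) (nat_lit 13) (.e false (nat_lit 1) (nat_lit 139) (nat_lit 1) (nat_lit 13) (.e true (nat_lit 1) (nat_lit 140) (nat_lit 1) (nat_lit 13) (.e true (nat_lit 2) (nat_lit 143) (nat_lit 1) (nat_lit 13) (.e true (nat_lit 2) (nat_lit 144) (nat_lit 1) (nat_lit 13) (.e true (nat_lit 1) (nat_lit 145) (nat_lit 1) (nat_lit 13) (.e true (nat_lit 1) (nat_lit 25) (nat_lit 18) (nat_lit 1) (.e false (nat_lit 1) (nat_lit 61) (nat_lit 6) (nat_lit 8) (.e true (nat_lit 1) (nat_lit 129) (nat_lit 2) (nat_lit 12) (.u (nat_lit 2) (.n (nat_lit 0) (nat_lit 2) (.n (nat_lit 2) (nat_lit 2) (.n (nat_lit 3) (nat_lit 1) (.n (nat_lit 7) (nat_lit 1) (.n (nat_lit 8) (nat_lit 1) (.p (nat_lit 9) (nat_lit 1) (.n (nat_lit 10) (nat_lit 3) (.n (nat_lit 13) (nat_lit 1) (.n (nat_lit 14) (nat_lit 3) (.p (nat_lit 16) (nat_lit 2) (.n (nat_lit 17)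 (nat_lit 2) (.p (nat_lit 20) (nat_lit 1) (.p (nat_lit 21) (nat_lit 2) (.p (nat_lit 22) (nat_lit 1) (.p (nat_lit 23) (nat_lit 1) (.p (nat_lit 24) (nat_lit 2) (.p (nat_lit 25) (nat_lit 2) (.p (nat_lit 27) (nat_lit 2) (.p (nat_lit 39) (nat_lit 1) (.p (nat_lit 40) (nat_lit 2) (.n (nat_lit 41) (nat_lit 1) (.n (nat_lit 43) (nat_lit 2) (.p (nat_lit 44) (nat_lit 1) .z))))))))))))))))))))))) .nil)))))))))))))))))))))))))

noncomputable def dC2c_i167 : IL := (.e false (nat_lit 3) (nat_lit 214) (nat_lit 2) (nat_lit 16) (.e true (nat_lit 2) (nat_lit 215) (nat_lit 2) (nat_lit 16) (.e true (nat_lit 2) (nat_lit 216) (nat_lit 2) (nat_lit 16) (.e false (nat_lit 2) (nat_lit 217) (nat_lit 2) (nat_lit 16) (.e false (nat_lit 1) (nat_lit 222) (nat_lit 2) (nat_lit 16) (.e true (nat_lit 3) (nat_lit 224) (nat_lit 2) (nat_lit 16) (.e false (nat_lit 1) (nat_lit 225) (nat_lit 2) (nat_lit 16) (.e false (nat_lit 2)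 (nat_lit 226) (nat_lit 2) (nat_lit 16) (.e false (nat_lit 2) (nat_lit 227) (nat_lit 2) (nat_lit 16) (.e false (nat_lit 1) (nat_lit 228) (nat_lit 2) (nat_lit 16) (.e true (nat_lit 1) (nat_lit 232) (nat_lit 2) (nat_lit 16) (.e false (nat_lit 2) (nat_lit 234) (nat_lit 2) (nat_lit 16) (.e true (nat_lit 2) (nat_lit 235) (nat_lit 2) (nat_lit 16) (.e false (nat_lit 2) (nat_lit 237) (nat_lit 2) (nat_lit 16) (.e false (nat_lit 2) (nat_lit 242) (nat_lit 2) (nat_lit 16) (.e true (nat_lit 1) (nat_lit 244) (nat_lit 2) (nat_lit 16) (.e false (nat_lit 1) (nat_lit 245) (nat_lit 2) (nat_lit 16) (.e false (nat_lit 2) (nat_lit 246) (nat_lit 2) (nat_lit 16) (.e true (nat_lit 1) (nat_lit 247) (nat_lit 2) (nat_lit 16) (.e false (nat_lit 1) (nat_lit 248) (nat_lit 2) (nat_lit 16) (.e true (nat_lit 2) (nat_lit 249) (nat_lit 2) (nat_lit 16) (.e true (nat_lit 2) (nat_lit 250) (nat_lit 2) (nat_lit 16) (.e false (nat_lit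 1) (nat_lit 251) (nat_lit 2) (nat_lit 16) (.e true (nat_lit 2) (nat_lit 218) (nat_lit 2) (nat_lit 16) (.u (nat_lit 2) (.n (nat_lit 0) (nat_lit 1) (.p (nat_lit 1) (nat_lit 1) (.p (nat_lit 3) (nat_lit 2) (.n (nat_lit 4) (nat_lit 5) (.p (nat_lit 5) (nat_lit 1) (.p (nat_lit 6) (nat_lit 2) (.n (nat_lit 7) (nat_lit 4) (.n (nat_lit 8) (nat_lit 1) (.p (nat_lit 9) (nat_lit 1) (.p (nat_lit 10) (nat_lit 2) (.p (nat_lit 12) (nat_lit 4) (.n (nat_lit 14) (nat_lit 2) (.p (nat_lit 15) (nat_lit 2) (.p (nat_lit 16) (nat_lit 1) (.n (nat_lit 17) (nat_lit 1) (.n (nat_lit 18) (nat_lit 2) (.n (nat_lit 19) (nat_lit 2) (.n (nat_lit 21) (nat_lit 3) (.p (nat_lit 22) (nat_lit 3) (.p (nat_lit 23) (nat_lit 4) (.p (nat_lit 24) (nat_lit 1) (.p (nat_lit 25) (nat_lit 1) (.n (nat_lit 26) (nat_lit 2) (.p (nat_lit 27) (nat_lit 4) (.n (nat_lit 28) (nat_lit 1) (.p (nat_lit 29) (nat_lit 2) (.p (nat_lit 35) (nat_lit 2) (.n (nat_lit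 37) (nat_lit 2) (.n (nat_lit 39) (nat_lit 1) (.n (nat_lit 40) (nat_lit 3) (.p (nat_lit 42) (nat_lit 1) (.p (nat_lit 45) (nat_lit 1) (.n (nat_lit 46) (nat_lit 1) (.n (nat_lit 47) (nat_lit 2) (.n (nat_lit 48) (nat_lit 3) (.p (nat_lit 49) (nat_lit 1) (.p (nat_lit 50) (nat_lit 1) (.n (nat_lit 308) (nat_lit 1) (.p (nat_lit 313) (nat_lit 1) (.n (nat_lit 314) (nat_lit 1) (.n (nat_lit 319) (nat_lit 1) (.p (nat_lit 321) (nat_lit 1) .z)))))))))))))))))))))))))))))))))))))))))) .nil)))))))))))))))))))))))))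

noncomputable def dC2c_i168 : IL := (.e true (nat_lit 1) (nat_lit 252) (nat_lit 2) (nat_lit 14) (.e false (nat_lit 2) (nat_lit 253) (nat_lit 2) (nat_lit 14) (.e true (nat_lit 3) (nat_lit 254) (nat_lit 2) (nat_lit 14) (.e false (nat_lit 2) (nat_lit 255) (nat_lit 2) (nat_lit 14) (.e true (nat_lit 2) (nat_lit 257) (nat_lit 2) (nat_lit 14) (.e false (nat_lit 1) (nat_lit 258) (nat_lit 2) (nat_lit 14) (.e true (nat_lit 2) (nat_lit 259) (nat_lit 2) (nat_lit 14) (.e false (nat_lit 2) (nat_lit 260) (nat_lit 2) (nat_lit 14) (.e false (nat_lit 1) (nat_lit 261) (nat_lit 2) (nat_lit 14) (.e true (nat_lit 1) (nat_lit 263) (nat_lit 2) (nat_lit 14) (.e true (nat_lit 3) (nat_lit 264) (nat_lit 2) (nat_lit 14) (.e false (nat_lit 1) (nat_lit 265) (nat_lit 2) (nat_lit 14) (.e true (nat_lit 3) (nat_lit 266) (nat_lit 2) (nat_lit 14) (.e true (nat_lit 1) (nat_lit 267) (nat_lit 2) (nat_lit 14) (.e true (nat_lit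 3) (nat_lit 269) (nat_lit 2) (nat_lit 14) (.e true (nat_lit 3) (nat_lit 270) (nat_lit 2) (nat_lit 14) (.e false (nat_lit 3) (nat_lit 271) (nat_lit 2) (nat_lit 14) (.e false (nat_lit 3) (nat_lit 272) (nat_lit 2) (nat_lit 14) (.e false (nat_lit 3) (nat_lit 273) (nat_lit 2) (nat_lit 14) (.e true (nat_lit 3) (nat_lit 276) (nat_lit 2) (nat_lit 14) (.e true (nat_lit 1) (nat_lit 277) (nat_lit 2) (nat_lit 14) (.e true (nat_lit 2) (nat_lit 283) (nat_lit 2) (nat_lit 14) (.e false (nat_lit 1) (nat_lit 284) (nat_lit 2) (nat_lit 14) (.e false (nat_lit 2) (nat_lit 285) (nat_lit 2) (nat_lit 14) (.u (nat_lit 2) (.n (nat_lit 0) (nat_lit 2) (.n (nat_lit 1) (nat_lit 1) (.n (nat_lit 5) (nat_lit 3) (.n (nat_lit 6) (nat_lit 1) (.p (nat_lit 7) (nat_lit 1) (.p (nat_lit 8) (nat_lit 2) (.p (nat_lit 10) (nat_lit 3) (.p (nat_lit 13) (nat_lit 1) (.n (nat_lit 14) (nat_lit 1) (.p (nat_lit 15) (nat_lit 2) (.p (nat_lit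 16) (nat_lit 2) (.n (nat_lit 17) (nat_lit 1) (.p (nat_lit 18) (nat_lit 2) (.n (nat_lit 19) (nat_lit 5) (.n (nat_lit 21) (nat_lit 1) (.p (nat_lit 23) (nat_lit 3) (.n (nat_lit 24) (nat_lit 4) (.p (nat_lit 27) (nat_lit 1) (.n (nat_lit 30) (nat_lit 1) (.n (nat_lit 31) (nat_lit 1) (.p (nat_lit 34) (nat_lit 1) (.p (nat_lit 35) (nat_lit 3) (.p (nat_lit 38) (nat_lit 1) .z))))))))))))))))))))))) .nil)))))))))))))))))))))))))

noncomputable def dC2c_i169 : IL := (.e true (nat_lit 1) (nat_lit 64) (nat_lit 6) (nat_lit 8) (.e true (nat_lit 1) (nat_lit 141) (nat_lit 1) (nat_lit 13) (.e false (nat_lit 2) (nat_lit 146) (nat_lit 1) (nat_lit 13) (.e false (nat_lit 2) (nat_lit 149) (nat_lit 1) (nat_lit 13) (.e false (nat_lit 1) (nat_lit 152) (nat_lit 1) (nat_lit 13) (.e true (nat_lit 2) (nat_lit 154) (nat_lit 1) (nat_lit 13) (.e true (nat_lit 1) (nat_lit 157) (nat_lit 1) (nat_lit 13) (.e false (nat_lit 2)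 (nat_lit 62) (nat_lit 6) (nat_lit 8) (.e false (nat_lit 3) (nat_lit 65) (nat_lit 6) (nat_lit 8) (.e true (nat_lit 3) (nat_lit 66) (nat_lit 6) (nat_lit 8) (.e false (nat_lit 3) (nat_lit 72) (nat_lit 6) (nat_lit 8) (.e false (nat_lit 1) (nat_lit 111) (nat_lit 2) (nat_lit 12) (.e true (nat_lit 1) (nat_lit 53) (nat_lit 7) (nat_lit 7) (.e false (nat_lit 3) (nat_lit 54) (nat_lit 7) (nat_lit 7) (.e true (nat_lit 2) (nat_lit 27) (nat_lit 18) (nat_lit 1) (.e false (nat_lit 3) (nat_lit 33) (nat_lit 15) (nat_lit 3) (.e false (nat_lit 1) (nat_lit 60) (nat_lit 6) (nat_lit 8) (.e true (nat_lit 2) (nat_lit 67) (nat_lit 6) (nat_lit 8) (.e false (nat_lit 3) (nat_lit 29) (nat_lit 19) (nat_lit 1) (.e false (nat_lit 3) (nat_lit 93) (nat_lit 3) (nat_lit 11) (.e false (nat_lit 3) (nat_lit 40) (nat_lit 11) (nat_lit 4) (.e true (nat_lit 1) (nat_lit 91) (nat_lit 3) (nat_lit 11) (.e false (nat_lit 2) (nat_lit 92)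 (nat_lit 3) (nat_lit 11) (.u (nat_lit 2) (.n (nat_lit 0) (nat_lit 3) (.p (nat_lit 1) (nat_lit 4) (.p (nat_lit 2) (nat_lit 2) (.n (nat_lit 3) (nat_lit 4) (.p (nat_lit 4) (nat_lit 1) (.p (nat_lit 5) (nat_lit 3) (.n (nat_lit 6) (nat_lit 4) (.n (nat_lit 7) (nat_lit 1) (.p (nat_lit 8) (nat_lit 3) (.n (nat_lit 9) (nat_lit 1) (.n (nat_lit 10) (nat_lit 2) (.n (nat_lit 11) (nat_lit 5) (.n (nat_lit 12) (nat_lit 3) (.n (nat_lit 13) (nat_lit 1) (.n (nat_lit 14) (nat_lit 1) (.n (nat_lit 15) (nat_lit 1) (.n (nat_lit 16) (nat_lit 4) (.n (nat_lit 17) (nat_lit 3) (.p (nat_lit 20) (nat_lit 4) (.p (nat_lit 21) (nat_lit 2) (.p (nat_lit 23) (nat_lit 1) (.p (nat_lit 24) (nat_lit 4) (.p (nat_lit 25) (nat_lit 3) (.p (nat_lit 27) (nat_lit 1) (.n (nat_lit 28) (nat_lit 1) (.p (nat_lit 33) (nat_lit 1) (.p (nat_lit 37) (nat_lit 1) (.n (nat_lit 38) (nat_lit 1) (.p (nat_lit 39) (nat_lit 2) (.p (nat_lit 40) (nat_lit 2)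 (.n (nat_lit 41) (nat_lit 2) (.n (nat_lit 42) (nat_lit 2) (.n (nat_lit 43) (nat_lit 1) (.n (nat_lit 44) (nat_lit 1) (.p (nat_lit 45) (nat_lit 1) (.n (nat_lit 46) (nat_lit 2) (.p (nat_lit 62) (nat_lit 1) (.n (nat_lit 89) (nat_lit 1) (.p (nat_lit 98) (nat_lit 1) (.p (nat_lit 100) (nat_lit 1) (.n (nat_lit 101) (nat_lit 1) (.n (nat_lit 103) (nat_lit 1) (.p (nat_lit 104) (nat_lit 1) (.n (nat_lit 106) (nat_lit 1) (.p (nat_lit 108) (nat_lit 1) (.p (nat_lit 120) (nat_lit 1) (.p (nat_lit 146) (nat_lit 6) (.p (nat_lit 147) (nat_lit 2) (.p (nat_lit 148) (nat_lit 4) (.n (nat_lit 149) (nat_lit 5) (.n (nat_lit 150) (nat_lit 4) (.n (nat_lit 153) (nat_lit 2) (.p (nat_lit 155) (nat_lit 2) (.p (nat_lit 156) (nat_lit 9) (.n (nat_lit 157) (nat_lit 3) (.n (nat_lit 158) (nat_lit 3) (.n (nat_lit 159) (nat_lit 3) (.p (nat_lit 160) (nat_lit 9) (.p (nat_lit 161) (nat_lit 2) (.n (nat_lit 162) (nat_lit 2) .z))))))))))))))))))))))))))))))))))))))))))))))))))))))))))))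 (.u (nat_lit 2) (.n (nat_lit 163) (nat_lit 9) (.p (nat_lit 165) (nat_lit 3) (.p (nat_lit 166) (nat_lit 7) (.p (nat_lit 167) (nat_lit 10) (.n (nat_lit 168) (nat_lit 1) (.n (nat_lit 169) (nat_lit 1) (.n (nat_lit 170) (nat_lit 2) (.p (nat_lit 171) (nat_lit 3) (.p (nat_lit 172) (nat_lit 1) (.n (nat_lit 173) (nat_lit 1) (.p (nat_lit 174) (nat_lit 6) (.n (nat_lit 175) (nat_lit 3) (.p (nat_lit 176) (nat_lit 5) (.n (nat_lit 177) (nat_lit 3) (.p (nat_lit 178) (nat_lit 1) (.p (nat_lit 179) (nat_lit 6) (.n (nat_lit 180) (nat_lit 6) (.p (nat_lit 181) (nat_lit 1) (.n (nat_lit 184) (nat_lit 4) (.n (nat_lit 185) (nat_lit 3) (.n (nat_lit 186) (nat_lit 1) (.n (nat_lit 187) (nat_lit 1) (.p (nat_lit 188) (nat_lit 1) (.n (nat_lit 189) (nat_lit 4) (.n (nat_lit 190) (nat_lit 5) (.n (nat_lit 191) (nat_lit 4) (.p (nat_lit 192) (nat_lit 2) (.p (nat_lit 193) (nat_lit 1) (.n (nat_lit 195) (nat_lit 4) (.p (nat_lit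 196) (nat_lit 4) (.n (nat_lit 197) (nat_lit 1) (.p (nat_lit 198) (nat_lit 1) (.p (nat_lit 200) (nat_lit 1) (.n (nat_lit 201) (nat_lit 1) (.n (nat_lit 202) (nat_lit 1) (.p (nat_lit 203) (nat_lit 1) (.n (nat_lit 207) (nat_lit 1) .z))))))))))))))))))))))))))))))))))))) .nil)))))))))))))))))))))))))

noncomputable def dC2c_i170 : IL := (.e true (nat_lit 1) (nat_lit 116) (nat_lit 2) (nat_lit 12) (.e true (nat_lit 2) (nat_lit 131) (nat_lit 2) (nat_lit 12) (.e true (nat_lit 1) (nat_lit 109) (nat_lit 2) (nat_lit 12) (.e false (nat_lit 3) (nat_lit 118) (nat_lit 2) (nat_lit 12) (.e true (nat_lit 1) (nat_lit 25) (nat_lit 18) (nat_lit 1) (.e false (nat_lit 1) (nat_lit 61) (nat_lit 6) (nat_lit 8) (.e true (nat_lit 3) (nat_lit 130) (nat_lit 2) (nat_lit 12) (.e true (nat_lit 2) (nat_lit 52) (nat_lit 7) (nat_lit 7) (.e true (nat_lit 2) (nat_lit 59) (nat_lit 7) (nat_lit 7) (.e true (nat_lit 1) (nat_lit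 55) (nat_lit 7) (nat_lit 7) (.e false (nat_lit 3) (nat_lit 120) (nat_lit 2) (nat_lit 12) (.e true (nat_lit 3) (nat_lit 128) (nat_lit 2) (nat_lit 12) (.e false (nat_lit 1) (nat_lit 106) (nat_lit 2) (nat_lit 12) (.e true (nat_lit 3) (nat_lit 51) (nat_lit 7) (nat_lit 7) (.e true (nat_lit 2) (nat_lit 23) (nat_lit 20) (nat_lit 0) (.e false (nat_lit 2) (nat_lit 63) (nat_lit 6) (nat_lit 8) (.e true (nat_lit 2) (nat_lit 133) (nat_lit 1) (nat_lit 13) (.e false (nat_lit 3) (nat_lit 135) (nat_lit 1) (nat_lit 13) (.e false (nat_lit 2) (nat_lit 155) (nat_lit 1) (nat_lit 13) (.e true (nat_lit 1) (nat_lit 123) (nat_lit 2) (nat_lit 12) (.e false (nat_lit 2) (nat_lit 119) (nat_lit 2) (nat_lit 12) (.e true (nat_lit 2) (nat_lit 121) (nat_lit 2) (nat_lit 12) (.e false (nat_lit 2) (nat_lit 124) (nat_lit 2) (nat_lit 12) (.e false (nat_lit 1) (nat_lit 126) (nat_lit 2) (nat_lit 12) (.e true (nat_lit 1) (nat_lit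 127) (nat_lit 2) (nat_lit 12) dC2c_i169)))))))))))))))))))))))))

noncomputable def dC2c_i171 : IL := (.s true (nat_lit 1) (nat_lit 35) (nat_lit 1) (nat_lit 2) (nat_lit 1) true (nat_lit 10) true (nat_lit 13) false (nat_lit 3) true (nat_lit 13) true (nat_lit 12) (.s false (nat_lit 2) (nat_lit 36) (nat_lit 2) (nat_lit 1) (nat_lit 1) true (nat_lit 8) true (nat_lit 13) false (nat_lit 3) true (nat_lit 12) true (nat_lit 13) (.s true (nat_lit 3) (nat_lit 38) (nat_lit 2) (nat_lit 1) (nat_lit 1) true (nat_lit 8) true (nat_lit 13) false (nat_lit 3) true (nat_lit 12) true (nat_lit 13) (.s false (nat_lit 3) (nat_lit 41) (nat_lit 0) (nat_lit 2) (nat_lit 1) true (nat_lit 11) true (nat_lit 13) false (nat_lit 4) true (nat_lit 14) true (nat_lit 12) (.s true (nat_lit 3) (nat_lit 40) (nat_lit 1) (nat_lit 0) (nat_lit 2) true (nat_lit 8) true (nat_lit 12) false (nat_lit 4) true (nat_lit 13) true (nat_lit 14)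 (.s true (nat_lit 1) (nat_lit 39) (nat_lit 1) (nat_lit 2) (nat_lit 0) true (nat_lit 11) true (nat_lit 14) false (nat_lit 4) true (nat_lit 13) true (nat_lit 12) (.s false (nat_lit 2) (nat_lit 40) (nat_lit 1) (nat_lit 2) (nat_lit 0) true (nat_lit 11) true (nat_lit 14) false (nat_lit 4) true (nat_lit 13) true (nat_lit 12) (.s false (nat_lit 3) (nat_lit 42) (nat_lit 1) (nat_lit 1) (nat_lit 1) true (nat_lit 10) true (nat_lit 13) false (nat_lit 5) true (nat_lit 13) true (nat_lit 13) (.e true (nat_lit 1) (nat_lit 25) (nat_lit 19) (nat_lit 1) (.e true (nat_lit 3) (nat_lit 50) (nat_lit 7) (nat_lit 7) (.e false (nat_lit 2) (nat_lit 132) (nat_lit 1) (nat_lit 13) (.e true (nat_lit 1) (nat_lit 134) (nat_lit 1) (nat_lit 13) (.e false (nat_lit 1) (nat_lit 136) (nat_lit 1) (nat_lit 13) (.e false (nat_lit 1) (nat_lit 137) (nat_lit 1) (nat_lit 13) (.e false (nat_lit 2) (nat_lit 138) (nat_lit 1) (nat_lit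 13) (.e false (nat_lit 2) (nat_lit 140) (nat_lit 1) (nat_lit 13) (.e true (nat_lit 3) (nat_lit 144) (nat_lit 1) (nat_lit 13) (.e true (nat_lit 2) (nat_lit 145) (nat_lit 1) (nat_lit 13) (.e true (nat_lit 1) (nat_lit 153) (nat_lit 1) (nat_lit 13) (.e true (nat_lit 1) (nat_lit 117) (nat_lit 2) (nat_lit 12) (.e false (nat_lit 2) (nat_lit 122) (nat_lit 2) (nat_lit 12) (.e false (nat_lit 3) (nat_lit 107) (nat_lit 2) (nat_lit 12) (.e true (nat_lit 2) (nat_lit 108) (nat_lit 2) (nat_lit 12) (.e true (nat_lit 1) (nat_lit 113) (nat_lit 2) (nat_lit 12) (.e true (nat_lit 3) (nat_lit 115) (nat_lit 2) (nat_lit 12) dC2c_i170)))))))))))))))))))))))))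

noncomputable def dC2c_i172 : IL := (.s false (nat_lit 2) (nat_lit 10) (nat_lit 0) (nat_lit 7) (nat_lit 2) true (nat_lit 9) true (nat_lit 12) true (nat_lit 5) true (nat_lit 14) true (nat_lit 7) (.s false (nat_lit 2) (nat_lit 10) (nat_lit 2) (nat_lit 5) (nat_lit 2) true (nat_lit 7) true (nat_lit 12) true (nat_lit 5) true (nat_lit 12) true (nat_lit 9) (.s true (nat_lit 1) (nat_lit 10) (nat_lit 2) (nat_lit 7) (nat_lit 0) true (nat_lit 9) true (nat_lit 14) true (nat_lit 5) true (nat_lit 12) true (nat_lit 7) (.s false (nat_lit 2) (nat_lit 10) (nat_lit 5) (nat_lit 2) (nat_lit 2) true (nat_lit 2) true (nat_lit 12) true (nat_lit 5) true (nat_lit 9) true (nat_lit 12) (.s false (nat_lit 2) (nat_lit 10) (nat_lit 7) (nat_lit 0) (nat_lit 2) true (nat_lit 0) true (nat_lit 12) true (nat_lit 5) true (nat_lit 7) true (nat_lit 14) (.s true (nat_lit 1) (nat_lit 10) (nat_lit 7) (nat_lit 2) (nat_lit 0) true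 (nat_lit 2) true (nat_lit 14) true (nat_lit 5) true (nat_lit 7) true (nat_lit 12) (.s true (nat_lit 1) (nat_lit 12) (nat_lit 1) (nat_lit 2) (nat_lit 6) true (nat_lit 3) true (nat_lit 8) true (nat_lit 4) true (nat_lit 13) true (nat_lit 12) (.s false (nat_lit 1) (nat_lit 13) (nat_lit 1) (nat_lit 2) (nat_lit 6) true (nat_lit 3) true (nat_lit 8) true (nat_lit 4) true (nat_lit 13) true (nat_lit 12) (.s true (nat_lit 2) (nat_lit 13) (nat_lit 1) (nat_lit 6) (nat_lit 2) true (nat_lit 8) true (nat_lit 12) true (nat_lit 4) true (nat_lit 13) true (nat_lit 8) (.s false (nat_lit 1) (nat_lit 13) (nat_lit 2) (nat_lit 4) (nat_lit 2) true (nat_lit 7) true (nat_lit 12) true (nat_lit 4) true (nat_lit 12) true (nat_lit 10) (.s false (nat_lit 3) (nat_lit 12) (nat_lit 6) (nat_lit 1) (nat_lit 2) true (nat_lit 1) true (nat_lit 12) true (nat_lit 4) true (nat_lit 8) true (nat_lit 13) (.s true (nat_lit 2) (nat_lit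 12) (nat_lit 6) (nat_lit 2) (nat_lit 1) true (nat_lit 3) true (nat_lit 13) true (nat_lit 4) true (nat_lit 8) true (nat_lit 12) (.s true (nat_lit 3) (nat_lit 15) (nat_lit 1) (nat_lit 2) (nat_lit 5) true (nat_lit 4) true (nat_lit 9) true (nat_lit 3) true (nat_lit 13) true (nat_lit 12) (.s false (nat_lit 1) (nat_lit 14) (nat_lit 1) (nat_lit 5) (nat_lit 2) true (nat_lit 8) true (nat_lit 12) true (nat_lit 3) true (nat_lit 13) true (nat_lit 9) (.s true (nat_lit 3) (nat_lit 15) (nat_lit 2) (nat_lit 5) (nat_lit 1) true (nat_lit 8) true (nat_lit 13) true (nat_lit 3) true (nat_lit 12) true (nat_lit 9) (.s true (nat_lit 3) (nat_lit 15) (nat_lit 7) (nat_lit 0) (nat_lit 1) true (nat_lit 1) true (nat_lit 13) true (nat_lit 3) true (nat_lit 7) true (nat_lit 14) (.s true (nat_lit 3) (nat_lit 16) (nat_lit 1) (nat_lit 4) (nat_lit 2) true (nat_lit 8) true (nat_lit 12) true (nat_lit 2) true (nat_lit 13) true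 (nat_lit 10) (.s false (nat_lit 1) (nat_lit 16) (nat_lit 6) (nat_lit 1) (nat_lit 1) true (nat_lit 3) true (nat_lit 13) true (nat_lit 2) true (nat_lit 8) true (nat_lit 13) (.s true (nat_lit 1) (nat_lit 18) (nat_lit 5) (nat_lit 1) (nat_lit 1) true (nat_lit 4) true (nat_lit 13) true (nat_lit 1) true (nat_lit 9) true (nat_lit 13) (.s true (nat_lit 2) (nat_lit 28) (nat_lit 1) (nat_lit 2) (nat_lit 2) true (nat_lit 8) true (nat_lit 12) false (nat_lit 1) true (nat_lit 13) true (nat_lit 12) (.s false (nat_lit 2) (nat_lit 28) (nat_lit 2) (nat_lit 1) (nat_lit 2) true (nat_lit 7) true (nat_lit 12) false (nat_lit 1) true (nat_lit 12) true (nat_lit 13) (.s false (nat_lit 2) (nat_lit 30) (nat_lit 0) (nat_lit 2) (nat_lit 2) true (nat_lit 9) true (nat_lit 12) false (nat_lit 2) true (nat_lit 14) true (nat_lit 12) (.s false (nat_lit 1) (nat_lit 32) (nat_lit 2) (nat_lit 0) (nat_lit 2) true (nat_lit 7) true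 (nat_lit 12) false (nat_lit 2) true (nat_lit 12) true (nat_lit 14) (.s false (nat_lit 1) (nat_lit 30) (nat_lit 2) (nat_lit 2) (nat_lit 0) true (nat_lit 9) true (nat_lit 14) false (nat_lit 2) true (nat_lit 12) true (nat_lit 12) (.s true (nat_lit 1) (nat_lit 34) (nat_lit 1) (nat_lit 1) (nat_lit 2) true (nat_lit 8) true (nat_lit 12) false (nat_lit 3) true (nat_lit 13) true (nat_lit 13) dC2c_i171)))))))))))))))))))))))))

noncomputable def dC2c_i173 : IL := (.e true (nat_lit 1) (nat_lit 137) (nat_lit 6) (nat_lit 12) (.e false (nat_lit 1) (nat_lit 138) (nat_lit 6) (nat_lit 12) (.e true (nat_lit 3) (nat_lit 139) (nat_lit 6) (nat_lit 12) (.e false (nat_lit 3) (nat_lit 140) (nat_lit 6) (nat_lit 12) (.e false (nat_lit 3) (nat_lit 142) (nat_lit 6) (nat_lit 12) (.e true (nat_lit 1) (nat_lit 144) (nat_lit 6) (nat_lit 12) (.e false (nat_lit 3) (nat_lit 145) (nat_lit 6) (nat_lit 12) (.e true (nat_lit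 3) (nat_lit 153) (nat_lit 6) (nat_lit 12) (.e true (nat_lit 1) (nat_lit 252) (nat_lit 1) (nat_lit 17) (.e false (nat_lit 3) (nat_lit 254) (nat_lit 1) (nat_lit 17) (.e false (nat_lit 1) (nat_lit 256) (nat_lit 1) (nat_lit 17) (.e true (nat_lit 1) (nat_lit 257) (nat_lit 1) (nat_lit 17) (.e false (nat_lit 1) (nat_lit 258) (nat_lit 1) (nat_lit 17) (.e true (nat_lit 3) (nat_lit 259) (nat_lit 1) (nat_lit 17) (.e false (nat_lit 3) (nat_lit 260) (nat_lit 1) (nat_lit 17) (.e false (nat_lit 3) (nat_lit 262) (nat_lit 1) (nat_lit 17) (.e true (nat_lit 1) (nat_lit 263) (nat_lit 1) (nat_lit 17) (.e true (nat_lit 1) (nat_lit 264) (nat_lit 1) (nat_lit 17) (.e false (nat_lit 3) (nat_lit 265) (nat_lit 1) (nat_lit 17) (.e true (nat_lit 3) (nat_lit 284) (nat_lit 1) (nat_lit 17) (.e false (nat_lit 3) (nat_lit 53) (nat_lit 20) (nat_lit 4) (.e false (nat_lit 3) (nat_lit 228) (nat_lit 2) (nat_lit 16) (.e true (nat_lit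 3) (nat_lit 246) (nat_lit 2) (nat_lit 16) (.e true (nat_lit 3) (nat_lit 103) (nat_lit 9) (nat_lit 10) (.u (nat_lit 2) (.p (nat_lit 0) (nat_lit 2) (.p (nat_lit 1) (nat_lit 3) (.n (nat_lit 2) (nat_lit 4) (.n (nat_lit 5) (nat_lit 1) (.p (nat_lit 6) (nat_lit 4) (.p (nat_lit 8) (nat_lit 4) (.n (nat_lit 9) (nat_lit 2) (.n (nat_lit 10) (nat_lit 1) (.n (nat_lit 11) (nat_lit 3) (.n (nat_lit 12) (nat_lit 3) (.p (nat_lit 14) (nat_lit 4) (.n (nat_lit 15) (nat_lit 2) (.n (nat_lit 16) (nat_lit 1) (.p (nat_lit 17) (nat_lit 6) (.n (nat_lit 18) (nat_lit 5) (.p (nat_lit 19) (nat_lit 5) (.n (nat_lit 20) (nat_lit 4) (.n (nat_lit 23) (nat_lit 4) (.p (nat_lit 24) (nat_lit 1) (.n (nat_lit 25) (nat_lit 4) (.n (nat_lit 26) (nat_lit 3) (.p (nat_lit 27) (nat_lit 3) (.p (nat_lit 28) (nat_lit 3) (.n (nat_lit 31) (nat_lit 4) (.n (nat_lit 33) (nat_lit 1) (.p (nat_lit 34) (nat_lit 1) (.p (nat_lit 35) (nat_lit 2) (.p (nat_lit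 36) (nat_lit 1) (.p (nat_lit 37) (nat_lit 2) (.p (nat_lit 38) (nat_lit 1) (.p (nat_lit 39) (nat_lit 6) (.n (nat_lit 45) (nat_lit 1) (.n (nat_lit 46) (nat_lit 4) (.p (nat_lit 47) (nat_lit 2) (.n (nat_lit 48) (nat_lit 1) (.p (nat_lit 55) (nat_lit 2) (.p (nat_lit 56) (nat_lit 1) (.p (nat_lit 60) (nat_lit 1) (.p (nat_lit 239) (nat_lit 1) (.n (nat_lit 243) (nat_lit 1) (.p (nat_lit 244) (nat_lit 1) (.n (nat_lit 245) (nat_lit 1) (.p (nat_lit 250) (nat_lit 1) (.p (nat_lit 251) (nat_lit 1) (.p (nat_lit 349) (nat_lit 1) (.n (nat_lit 353) (nat_lit 1) (.p (nat_lit 354) (nat_lit 1) (.n (nat_lit 355) (nat_lit 1) (.p (nat_lit 360) (nat_lit 1) (.p (nat_lit 361) (nat_lit 1) .z)))))))))))))))))))))))))))))))))))))))))))))))))) .nil)))))))))))))))))))))))))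

noncomputable def dC2c_i174 : IL := (.e true (nat_lit 2) (nat_lit 253) (nat_lit 2) (nat_lit 14) (.e false (nat_lit 3) (nat_lit 254) (nat_lit 2) (nat_lit 14) (.e false (nat_lit 3) (nat_lit 255) (nat_lit 2) (nat_lit 14) (.e false (nat_lit 2) (nat_lit 256) (nat_lit 2) (nat_lit 14) (.e false (nat_lit 3) (nat_lit 257) (nat_lit 2) (nat_lit 14) (.e true (nat_lit 2) (nat_lit 258) (nat_lit 2) (nat_lit 14) (.e false (nat_lit 1) (nat_lit 259) (nat_lit 2) (nat_lit 14) (.e true (nat_lit 1) (nat_lit 260) (nat_lit 2) (nat_lit 14) (.e true (nat_lit 1) (nat_lit 261) (nat_lit 2) (nat_lit 14) (.e false (nat_lit 3) (nat_lit 262) (nat_lit 2) (nat_lit 14) (.e false (nat_lit 3) (nat_lit 264) (nat_lit 2) (nat_lit 14) (.e true (nat_lit 1) (nat_lit 265) (nat_lit 2) (nat_lit 14) (.e true (nat_lit 2) (nat_lit 266) (nat_lit 2) (nat_lit 14) (.e false (nat_lit 2) (nat_lit 267) (nat_lit 2) (nat_lit 14) (.e false (nat_lit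 2) (nat_lit 269) (nat_lit 2) (nat_lit 14) (.e true (nat_lit 1) (nat_lit 270) (nat_lit 2) (nat_lit 14) (.e true (nat_lit 3) (nat_lit 272) (nat_lit 2) (nat_lit 14) (.e false (nat_lit 2) (nat_lit 274) (nat_lit 2) (nat_lit 14) (.e true (nat_lit 3) (nat_lit 275) (nat_lit 2) (nat_lit 14) (.e false (nat_lit 1) (nat_lit 277) (nat_lit 2) (nat_lit 14) (.e true (nat_lit 1) (nat_lit 283) (nat_lit 2) (nat_lit 14) (.e false (nat_lit 1) (nat_lit 284) (nat_lit 2) (nat_lit 14) (.e false (nat_lit 2) (nat_lit 285) (nat_lit 2) (nat_lit 14) (.e true (nat_lit 1) (nat_lit 286) (nat_lit 2) (nat_lit 14) (.u (nat_lit 2) (.p (nat_lit 0) (nat_lit 3) (.p (nat_lit 1) (nat_lit 2) (.p (nat_lit 2) (nat_lit 3) (.n (nat_lit 4) (nat_lit 3) (.p (nat_lit 5) (nat_lit 1) (.p (nat_lit 6) (nat_lit 3) (.n (nat_lit 8) (nat_lit 2) (.p (nat_lit 9) (nat_lit 1) (.n (nat_lit 10) (nat_lit 1) (.p (nat_lit 11) (nat_lit 4) (.n (nat_lit 12)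 (nat_lit 3) (.p (nat_lit 13) (nat_lit 2) (.p (nat_lit 14) (nat_lit 1) (.n (nat_lit 18) (nat_lit 6) (.n (nat_lit 19) (nat_lit 2) (.n (nat_lit 21) (nat_lit 1) (.p (nat_lit 24) (nat_lit 2) (.p (nat_lit 25) (nat_lit 2) (.n (nat_lit 27) (nat_lit 2) (.p (nat_lit 29) (nat_lit 1) (.n (nat_lit 34) (nat_lit 1) (.n (nat_lit 38) (nat_lit 1) .z)))))))))))))))))))))) .nil)))))))))))))))))))))))))

noncomputable def dC2c_i175 : IL := (.e false (nat_lit 2) (nat_lit 250) (nat_lit 2) (nat_lit 16) (.e false (nat_lit 1) (nat_lit 218) (nat_lit 2) (nat_lit 16) (.e true (nat_lit 1) (nat_lit 235) (nat_lit 2) (nat_lit 16) (.e false (nat_lit 2) (nat_lit 289) (nat_lit 0) (nat_lit 18) (.e true (nat_lit 1) (nat_lit 290) (nat_lit 0) (nat_lit 18) (.e true (nat_lit 2) (nat_lit 291) (nat_lit 0) (nat_lit 18) (.e false (nat_lit 1) (nat_lit 295) (nat_lit 0) (nat_lit 18) (.e true (nat_lit 2) (nat_lit 297) (nat_lit 0) (nat_lit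 18) (.e true (nat_lit 1) (nat_lit 299) (nat_lit 0) (nat_lit 18) (.e false (nat_lit 2) (nat_lit 300) (nat_lit 0) (nat_lit 18) (.e false (nat_lit 1) (nat_lit 301) (nat_lit 0) (nat_lit 18) (.e false (nat_lit 1) (nat_lit 303) (nat_lit 0) (nat_lit 18) (.e true (nat_lit 1) (nat_lit 256) (nat_lit 1) (nat_lit 17) (.e true (nat_lit 3) (nat_lit 257) (nat_lit 1) (nat_lit 17) (.e false (nat_lit 1) (nat_lit 261) (nat_lit 1) (nat_lit 17) (.e false (nat_lit 1) (nat_lit 275) (nat_lit 1) (nat_lit 17) (.e false (nat_lit 3) (nat_lit 279) (nat_lit 1) (nat_lit 17) (.e false (nat_lit 2) (nat_lit 294) (nat_lit 0) (nat_lit 18) (.e false (nat_lit 2) (nat_lit 296) (nat_lit 0) (nat_lit 18) (.e false (nat_lit 2) (nat_lit 170) (nat_lit 4) (nat_lit 14) (.e false (nat_lit 3) (nat_lit 282) (nat_lit 1) (nat_lit 17) (.u (nat_lit 2) (.p (nat_lit 0) (nat_lit 2) (.p (nat_lit 1) (nat_lit 1) (.n (nat_lit 2) (nat_lit 1) (.n (nat_lit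 3) (nat_lit 2) (.p (nat_lit 5) (nat_lit 4) (.n (nat_lit 6) (nat_lit 2) (.n (nat_lit 7) (nat_lit 1) (.n (nat_lit 8) (nat_lit 1) (.p (nat_lit 9) (nat_lit 2) (.n (nat_lit 10) (nat_lit 5) (.p (nat_lit 11) (nat_lit 1) (.n (nat_lit 12) (nat_lit 7) (.n (nat_lit 14) (nat_lit 2) (.p (nat_lit 15) (nat_lit 3) (.p (nat_lit 16) (nat_lit 2) (.p (nat_lit 17) (nat_lit 4) (.n (nat_lit 18) (nat_lit 3) (.p (nat_lit 19) (nat_lit 4) (.p (nat_lit 20) (nat_lit 1) (.p (nat_lit 21) (nat_lit 2) (.n (nat_lit 22) (nat_lit 2) (.p (nat_lit 23) (nat_lit 2) (.n (nat_lit 25) (nat_lit 3) (.p (nat_lit 26) (nat_lit 2) (.p (nat_lit 28) (nat_lit 3) (.n (nat_lit 29) (nat_lit 2) (.n (nat_lit 31) (nat_lit 2) (.n (nat_lit 32) (nat_lit 3) (.n (nat_lit 33) (nat_lit 1) (.p (nat_lit 34) (nat_lit 6) (.n (nat_lit 35) (nat_lit 2) (.n (nat_lit 36) (nat_lit 3) (.n (nat_lit 37) (nat_lit 3) (.p (nat_lit 38) (nat_lit 1) (.p (nat_lit 39) (nat_lit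 4) (.p (nat_lit 41) (nat_lit 1) (.p (nat_lit 42) (nat_lit 1) (.n (nat_lit 45) (nat_lit 2) (.p (nat_lit 46) (nat_lit 1) (.n (nat_lit 47) (nat_lit 1) (.p (nat_lit 50) (nat_lit 1) (.n (nat_lit 82) (nat_lit 1) (.p (nat_lit 90) (nat_lit 1) (.n (nat_lit 93) (nat_lit 1) (.n (nat_lit 97) (nat_lit 1) (.n (nat_lit 100) (nat_lit 1) (.n (nat_lit 105) (nat_lit 1) (.p (nat_lit 106) (nat_lit 1) (.p (nat_lit 107) (nat_lit 1) (.n (nat_lit 113) (nat_lit 1) (.n (nat_lit 118) (nat_lit 1) (.p (nat_lit 122) (nat_lit 1) (.n (nat_lit 123) (nat_lit 1) (.p (nat_lit 126) (nat_lit 1) (.p (nat_lit 127) (nat_lit 1) (.n (nat_lit 129) (nat_lit 1) (.p (nat_lit 130) (nat_lit 1) (.p (nat_lit 132) (nat_lit 1) (.n (nat_lit 133) (nat_lit 1) (.p (nat_lit 134) (nat_lit 1) .z)))))))))))))))))))))))))))))))))))))))))))))))))))))))))))) (.u (nat_lit 2) (.p (nat_lit 136) (nat_lit 1) (.p (nat_lit 138) (nat_lit 1) (.p (nat_lit 142)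 (nat_lit 1) (.n (nat_lit 173) (nat_lit 1) (.n (nat_lit 180) (nat_lit 1) (.p (nat_lit 183) (nat_lit 1) (.p (nat_lit 184) (nat_lit 2) (.n (nat_lit 185) (nat_lit 2) (.p (nat_lit 186) (nat_lit 1) (.p (nat_lit 187) (nat_lit 1) (.n (nat_lit 188) (nat_lit 1) (.n (nat_lit 189) (nat_lit 1) (.p (nat_lit 190) (nat_lit 1) (.n (nat_lit 193) (nat_lit 1) (.p (nat_lit 194) (nat_lit 1) (.p (nat_lit 202) (nat_lit 1) (.p (nat_lit 203) (nat_lit 1) (.p (nat_lit 206) (nat_lit 1) (.n (nat_lit 207) (nat_lit 1) (.n (nat_lit 208) (nat_lit 1) (.p (nat_lit 213) (nat_lit 1) (.n (nat_lit 214) (nat_lit 3) (.n (nat_lit 215) (nat_lit 1) (.n (nat_lit 216) (nat_lit 1) (.p (nat_lit 217) (nat_lit 1) (.n (nat_lit 220) (nat_lit 1) (.p (nat_lit 221) (nat_lit 1) (.p (nat_lit 222) (nat_lit 1) (.p (nat_lit 223) (nat_lit 2) (.p (nat_lit 224) (nat_lit 1) (.p (nat_lit 225) (nat_lit 1) (.n (nat_lit 227) (nat_lit 1) (.p (nat_lit 229)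 (nat_lit 5) (.p (nat_lit 233) (nat_lit 2) (.p (nat_lit 234) (nat_lit 2) (.n (nat_lit 235) (nat_lit 1) (.n (nat_lit 236) (nat_lit 1) (.n (nat_lit 238) (nat_lit 1) (.p (nat_lit 239) (nat_lit 1) (.n (nat_lit 240) (nat_lit 1) (.n (nat_lit 242) (nat_lit 1) (.p (nat_lit 244) (nat_lit 1) (.n (nat_lit 245) (nat_lit 1) (.n (nat_lit 246) (nat_lit 3) (.p (nat_lit 247) (nat_lit 2) (.p (nat_lit 251) (nat_lit 1) (.p (nat_lit 252) (nat_lit 1) (.p (nat_lit 254) (nat_lit 1) (.p (nat_lit 256) (nat_lit 1) (.n (nat_lit 257) (nat_lit 2) (.n (nat_lit 259) (nat_lit 1) (.n (nat_lit 260) (nat_lit 1) (.n (nat_lit 261) (nat_lit 1) (.n (nat_lit 262) (nat_lit 1) (.p (nat_lit 264) (nat_lit 1) (.p (nat_lit 270) (nat_lit 1) (.n (nat_lit 274) (nat_lit 1) (.p (nat_lit 284) (nat_lit 1) (.p (nat_lit 292) (nat_lit 1) (.p (nat_lit 293) (nat_lit 2) .z)))))))))))))))))))))))))))))))))))))))))))))))))))))))))))) (.u (nat_lit 2)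 (.n (nat_lit 294) (nat_lit 1) (.p (nat_lit 295) (nat_lit 1) (.n (nat_lit 296) (nat_lit 1) (.n (nat_lit 297) (nat_lit 1) (.n (nat_lit 302) (nat_lit 7) (.p (nat_lit 303) (nat_lit 17) (.n (nat_lit 304) (nat_lit 3) (.n (nat_lit 305) (nat_lit 3) (.n (nat_lit 306) (nat_lit 4) (.p (nat_lit 307) (nat_lit 4) (.n (nat_lit 308) (nat_lit 3) (.n (nat_lit 309) (nat_lit 6) (.n (nat_lit 310) (nat_lit 7) (.n (nat_lit 311) (nat_lit 1) (.p (nat_lit 312) (nat_lit 4) (.n (nat_lit 313) (nat_lit 1) (.p (nat_lit 315) (nat_lit 1) (.p (nat_lit 316) (nat_lit 3) (.n (nat_lit 317) (nat_lit 2) (.p (nat_lit 318) (nat_lit 6) (.n (nat_lit 319) (nat_lit 6) (.p (nat_lit 320) (nat_lit 2) (.p (nat_lit 322) (nat_lit 1) (.p (nat_lit 323) (nat_lit 6) (.n (nat_lit 324) (nat_lit 11) (.n (nat_lit 325) (nat_lit 6) (.n (nat_lit 326) (nat_lit 16) (.n (nat_lit 327) (nat_lit 11) (.n (nat_lit 328) (nat_lit 3) (.p (nat_lit 329) (nat_lit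 2) (.n (nat_lit 332) (nat_lit 2) (.p (nat_lit 333) (nat_lit 1) (.n (nat_lit 335) (nat_lit 1) (.n (nat_lit 336) (nat_lit 1) (.p (nat_lit 339) (nat_lit 6) (.n (nat_lit 341) (nat_lit 4) (.n (nat_lit 342) (nat_lit 9) (.p (nat_lit 343) (nat_lit 3) (.p (nat_lit 344) (nat_lit 7) (.p (nat_lit 345) (nat_lit 7) (.n (nat_lit 346) (nat_lit 3) (.p (nat_lit 347) (nat_lit 3) (.n (nat_lit 348) (nat_lit 3) (.n (nat_lit 349) (nat_lit 4) (.p (nat_lit 350) (nat_lit 5) (.n (nat_lit 351) (nat_lit 10) (.n (nat_lit 352) (nat_lit 1) (.p (nat_lit 353) (nat_lit 9) (.p (nat_lit 354) (nat_lit 1) (.p (nat_lit 355) (nat_lit 17) (.p (nat_lit 356) (nat_lit 2) (.n (nat_lit 357) (nat_lit 6) (.p (nat_lit 358) (nat_lit 5) (.n (nat_lit 359) (nat_lit 1) (.n (nat_lit 360) (nat_lit 1) (.p (nat_lit 361) (nat_lit 6) (.n (nat_lit 362) (nat_lit 6) (.p (nat_lit 363) (nat_lit 4) (.p (nat_lit 366) (nat_lit 26) (.n (nat_lit 367) (nat_lit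 1) .z)))))))))))))))))))))))))))))))))))))))))))))))))))))))))))) (.u (nat_lit 2) (.p (nat_lit 368) (nat_lit 1) (.p (nat_lit 369) (nat_lit 11) (.p (nat_lit 370) (nat_lit 1) (.p (nat_lit 371) (nat_lit 7) (.n (nat_lit 372) (nat_lit 5) (.p (nat_lit 373) (nat_lit 3) (.n (nat_lit 374) (nat_lit 12) (.n (nat_lit 375) (nat_lit 4) (.n (nat_lit 376) (nat_lit 3) (.p (nat_lit 377) (nat_lit 2) (.n (nat_lit 379) (nat_lit 2) (.n (nat_lit 380) (nat_lit 2) (.p (nat_lit 381) (nat_lit 1) (.p (nat_lit 382) (nat_lit 3) (.p (nat_lit 383) (nat_lit 4) (.n (nat_lit 384) (nat_lit 1) (.n (nat_lit 385) (nat_lit 5) (.n (nat_lit 387) (nat_lit 1) (.n (nat_lit 388) (nat_lit 1) (.p (nat_lit 389) (nat_lit 1) (.p (nat_lit 390) (nat_lit 3) (.n (nat_lit 391) (nat_lit 1) (.p (nat_lit 392) (nat_lit 3) (.n (nat_lit 393) (nat_lit 3) (.n (nat_lit 394) (nat_lit 2) (.n (nat_lit 395) (nat_lit 4) (.n (nat_lit 397) (nat_lit 2) (.n (nat_lit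 400) (nat_lit 1) (.p (nat_lit 401) (nat_lit 2) .z))))))))))))))))))))))))))))) .nil)))))))))))))))))))))))))

noncomputable def dC2c_i176 : IL := (.e true (nat_lit 2) (nat_lit 234) (nat_lit 2) (nat_lit 16) (.e true (nat_lit 3) (nat_lit 246) (nat_lit 2) (nat_lit 16) (.e true (nat_lit 1) (nat_lit 226) (nat_lit 2) (nat_lit 16) (.e false (nat_lit 3) (nat_lit 252) (nat_lit 1) (nat_lit 17) (.e false (nat_lit 2) (nat_lit 253) (nat_lit 1) (nat_lit 17) (.e false (nat_lit 1) (nat_lit 254) (nat_lit 1) (nat_lit 17) (.e true (nat_lit 3) (nat_lit 258) (nat_lit 1) (nat_lit 17) (.e true (nat_lit 1) (nat_lit 263) (nat_lit 1) (nat_lit 17) (.e true (nat_lit 3) (nat_lit 267) (nat_lit 1) (nat_lit 17) (.e true (nat_lit 1) (nat_lit 269) (nat_lit 1) (nat_lit 17) (.e true (nat_lit 2) (nat_lit 270) (nat_lit 1) (nat_lit 17) (.e true (nat_lit 2) (nat_lit 271) (nat_lit 1) (nat_lit 17) (.e false (nat_lit 3) (nat_lit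 272) (nat_lit 1) (nat_lit 17) (.e false (nat_lit 3) (nat_lit 273) (nat_lit 1) (nat_lit 17) (.e false (nat_lit 2) (nat_lit 276) (nat_lit 1) (nat_lit 17) (.e false (nat_lit 3) (nat_lit 277) (nat_lit 1) (nat_lit 17) (.e false (nat_lit 1) (nat_lit 262) (nat_lit 1) (nat_lit 17) (.e true (nat_lit 3) (nat_lit 264) (nat_lit 1) (nat_lit 17) (.e false (nat_lit 1) (nat_lit 266) (nat_lit 1) (nat_lit 17) (.e true (nat_lit 3) (nat_lit 207) (nat_lit 2) (nat_lit 16) (.e false (nat_lit 3) (nat_lit 229) (nat_lit 2) (nat_lit 16) (.e false (nat_lit 3) (nat_lit 298) (nat_lit 0) (nat_lit 18) (.e true (nat_lit 3) (nat_lit 274) (nat_lit 1) (nat_lit 17) (.e true (nat_lit 3) (nat_lit 278) (nat_lit 1) (nat_lit 17) (.e false (nat_lit 1) (nat_lit 155) (nat_lit 6) (nat_lit 12) dC2c_i175)))))))))))))))))))))))))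

noncomputable def dC2c_i177 : IL := (.s true (nat_lit 2) (nat_lit 91) (nat_lit 0) (nat_lit 2) (nat_lit 1) true (nat_lit 15) true (nat_lit 17) false (nat_lit 8) true (nat_lit 18) true (nat_lit 16) (.s true (nat_lit 1) (nat_lit 96) (nat_lit 0) (nat_lit 2) (nat_lit 1) true (nat_lit 15) true (nat_lit 17) false (nat_lit 8) true (nat_lit 18) true (nat_lit 16) (.s true (nat_lit 1) (nat_lit 92) (nat_lit 1) (nat_lit 0) (nat_lit 2) true (nat_lit 12) true (nat_lit 16) false (nat_lit 8) true (nat_lit 17) true (nat_lit 18) (.s false (nat_lit 3) (nat_lit 92) (nat_lit 1) (nat_lit 2) (nat_lit 0) true (nat_lit 15) true (nat_lit 18) false (nat_lit 8) true (nat_lit 17) true (nat_lit 16) (.s false (nat_lit 1) (nat_lit 92) (nat_lit 2) (nat_lit 0) (nat_lit 1) true (nat_lit 12) true (nat_lit 17) false (nat_lit 8) true (nat_lit 16) true (nat_lit 18) (.s true (nat_lit 3) (nat_lit 92) (nat_lit 2) (nat_lit 1) (nat_lit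 0) true (nat_lit 13) true (nat_lit 18) false (nat_lit 8) true (nat_lit 16) true (nat_lit 17) (.s true (nat_lit 1) (nat_lit 101) (nat_lit 0) (nat_lit 1) (nat_lit 1) true (nat_lit 15) true (nat_lit 17) false (nat_lit 10) true (nat_lit 18) true (nat_lit 17) (.s true (nat_lit 1) (nat_lit 102) (nat_lit 0) (nat_lit 1) (nat_lit 1) true (nat_lit 15) true (nat_lit 17) false (nat_lit 10) true (nat_lit 18) true (nat_lit 17) (.s true (nat_lit 3) (nat_lit 101) (nat_lit 1) (nat_lit 1) (nat_lit 0) true (nat_lit 15) true (nat_lit 18) false (nat_lit 10) true (nat_lit 17) true (nat_lit 17) (.s true (nat_lit 1) (nat_lit 102) (nat_lit 1) (nat_lit 1) (nat_lit 0) true (nat_lit 15) true (nat_lit 18) false (nat_lit 10) true (nat_lit 17) true (nat_lit 17) (.s false (nat_lit 1) (nat_lit 103) (nat_lit 1) (nat_lit 1) (nat_lit 0) true (nat_lit 15) true (nat_lit 18) false (nat_lit 10) true (nat_lit 17) true (nat_lit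 17) (.s false (nat_lit 3) (nat_lit 104) (nat_lit 1) (nat_lit 1) (nat_lit 0) true (nat_lit 15) true (nat_lit 18) false (nat_lit 10) true (nat_lit 17) true (nat_lit 17) (.e false (nat_lit 3) (nat_lit 129) (nat_lit 7) (nat_lit 11) (.e false (nat_lit 1) (nat_lit 227) (nat_lit 2) (nat_lit 16) (.e true (nat_lit 1) (nat_lit 208) (nat_lit 2) (nat_lit 16) (.e false (nat_lit 1) (nat_lit 216) (nat_lit 2) (nat_lit 16) (.e false (nat_lit 1) (nat_lit 138) (nat_lit 6) (nat_lit 12) (.e false (nat_lit 2) (nat_lit 231) (nat_lit 2) (nat_lit 16) (.e false (nat_lit 2) (nat_lit 206) (nat_lit 2) (nat_lit 16) (.e true (nat_lit 3) (nat_lit 210) (nat_lit 2) (nat_lit 16) (.e false (nat_lit 1) (nat_lit 211) (nat_lit 2) (nat_lit 16) (.e true (nat_lit 1) (nat_lit 213) (nat_lit 2) (nat_lit 16) (.e true (nat_lit 3) (nat_lit 209) (nat_lit 2) (nat_lit 16) (.e false (nat_lit 3) (nat_lit 212) (nat_lit 2) (nat_lit 16) (.e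 false (nat_lit 3) (nat_lit 230) (nat_lit 2) (nat_lit 16) dC2c_i176)))))))))))))))))))))))))

noncomputable def dC2c_i178 : IL := (.s false (nat_lit 2) (nat_lit 72) (nat_lit 2) (nat_lit 1) (nat_lit 2) true (nat_lit 11) true (nat_lit 16) false (nat_lit 5) true (nat_lit 16) true (nat_lit 17) (.s true (nat_lit 1) (nat_lit 73) (nat_lit 2) (nat_lit 1) (nat_lit 2) true (nat_lit 11) true (nat_lit 16) false (nat_lit 5) true (nat_lit 16) true (nat_lit 17) (.s true (nat_lit 2) (nat_lit 60) (nat_lit 2) (nat_lit 2) (nat_lit 1) true (nat_lit 12) true (nat_lit 17) false (nat_lit 5) true (nat_lit 16) true (nat_lit 16) (.s true (nat_lit 3) (nat_lit 61) (nat_lit 2) (nat_lit 2) (nat_lit 1) true (nat_lit 12) true (nat_lit 17) false (nat_lit 5) true (nat_lit 16) true (nat_lit 16) (.s false (nat_lit 2) (nat_lit 62) (nat_lit 2) (nat_lit 2) (nat_lit 1) true (nat_lit 12) true (nat_lit 17) false (nat_lit 5) true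 (nat_lit 16) true (nat_lit 16) (.s true (nat_lit 2) (nat_lit 63) (nat_lit 2) (nat_lit 2) (nat_lit 1) true (nat_lit 12) true (nat_lit 17) false (nat_lit 5) true (nat_lit 16) true (nat_lit 16) (.s true (nat_lit 2) (nat_lit 64) (nat_lit 2) (nat_lit 2) (nat_lit 1) true (nat_lit 12) true (nat_lit 17) false (nat_lit 5) true (nat_lit 16) true (nat_lit 16) (.s true (nat_lit 1) (nat_lit 65) (nat_lit 2) (nat_lit 2) (nat_lit 1) true (nat_lit 12) true (nat_lit 17) false (nat_lit 5) true (nat_lit 16) true (nat_lit 16) (.s true (nat_lit 3) (nat_lit 66) (nat_lit 2) (nat_lit 2) (nat_lit 1) true (nat_lit 12) true (nat_lit 17) false (nat_lit 5) true (nat_lit 16) true (nat_lit 16) (.s true (nat_lit 3) (nat_lit 67) (nat_lit 2) (nat_lit 2) (nat_lit 1) true (nat_lit 12) true (nat_lit 17) false (nat_lit 5) true (nat_lit 16) true (nat_lit 16) (.s false (nat_lit 2) (nat_lit 71) (nat_lit 2) (nat_lit 2) (nat_lit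 1) true (nat_lit 12) true (nat_lit 17) false (nat_lit 5) true (nat_lit 16) true (nat_lit 16) (.s true (nat_lit 1) (nat_lit 72) (nat_lit 2) (nat_lit 2) (nat_lit 1) true (nat_lit 12) true (nat_lit 17) false (nat_lit 5) true (nat_lit 16) true (nat_lit 16) (.s false (nat_lit 2) (nat_lit 73) (nat_lit 2) (nat_lit 2) (nat_lit 1) true (nat_lit 12) true (nat_lit 17) false (nat_lit 5) true (nat_lit 16) true (nat_lit 16) (.s false (nat_lit 1) (nat_lit 74) (nat_lit 0) (nat_lit 2) (nat_lit 2) true (nat_lit 13) true (nat_lit 16) false (nat_lit 6) true (nat_lit 18) true (nat_lit 16) (.s false (nat_lit 1) (nat_lit 79) (nat_lit 0) (nat_lit 2) (nat_lit 2) true (nat_lit 13) true (nat_lit 16) false (nat_lit 6) true (nat_lit 18) true (nat_lit 16) (.s false (nat_lit 3) (nat_lit 79) (nat_lit 2) (nat_lit 2) (nat_lit 0) true (nat_lit 13) true (nat_lit 18) false (nat_lit 6) true (nat_lit 16) true (nat_lit 16) (.s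 false (nat_lit 1) (nat_lit 88) (nat_lit 1) (nat_lit 1) (nat_lit 2) true (nat_lit 12) true (nat_lit 16) false (nat_lit 7) true (nat_lit 17) true (nat_lit 17) (.s true (nat_lit 1) (nat_lit 89) (nat_lit 1) (nat_lit 1) (nat_lit 2) true (nat_lit 12) true (nat_lit 16) false (nat_lit 7) true (nat_lit 17) true (nat_lit 17) (.s true (nat_lit 3) (nat_lit 80) (nat_lit 1) (nat_lit 2) (nat_lit 1) true (nat_lit 14) true (nat_lit 17) false (nat_lit 7) true (nat_lit 17) true (nat_lit 16) (.s false (nat_lit 2) (nat_lit 81) (nat_lit 1) (nat_lit 2) (nat_lit 1) true (nat_lit 14) true (nat_lit 17) false (nat_lit 7) true (nat_lit 17) true (nat_lit 16) (.s false (nat_lit 3) (nat_lit 88) (nat_lit 1) (nat_lit 2) (nat_lit 1) true (nat_lit 14) true (nat_lit 17) false (nat_lit 7) true (nat_lit 17) true (nat_lit 16) (.s false (nat_lit 2) (nat_lit 89) (nat_lit 1) (nat_lit 2) (nat_lit 1) true (nat_lit 14) true (nat_lit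 17) false (nat_lit 7) true (nat_lit 17) true (nat_lit 16) (.s false (nat_lit 1) (nat_lit 81) (nat_lit 2) (nat_lit 1) (nat_lit 1) true (nat_lit 12) true (nat_lit 17) false (nat_lit 7) true (nat_lit 16) true (nat_lit 17) (.s true (nat_lit 2) (nat_lit 89) (nat_lit 2) (nat_lit 1) (nat_lit 1) true (nat_lit 12) true (nat_lit 17) false (nat_lit 7) true (nat_lit 16) true (nat_lit 17) (.s false (nat_lit 3) (nat_lit 92) (nat_lit 0) (nat_lit 1) (nat_lit 2) true (nat_lit 13) true (nat_lit 16) false (nat_lit 8) true (nat_lit 18) true (nat_lit 17) dC2c_i177)))))))))))))))))))))))))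

noncomputable def dC2c_i179 : IL := (.s false (nat_lit 3) (nat_lit 45) (nat_lit 3) (nat_lit 2) (nat_lit 1) true (nat_lit 10) true (nat_lit 17) false (nat_lit 2) true (nat_lit 15) true (nat_lit 16) (.s true (nat_lit 2) (nat_lit 48) (nat_lit 3) (nat_lit 1) (nat_lit 1) true (nat_lit 10) true (nat_lit 17) false (nat_lit 3) true (nat_lit 15) true (nat_lit 17) (.s false (nat_lit 3) (nat_lit 52) (nat_lit 2) (nat_lit 2) (nat_lit 2) true (nat_lit 11) true (nat_lit 16) false (nat_lit 4) true (nat_lit 16) true (nat_lit 16) (.s true (nat_lit 1) (nat_lit 53) (nat_lit 2) (nat_lit 2) (nat_lit 2) true (nat_lit 11) true (nat_lit 16) false (nat_lit 4) true (nat_lit 16) true (nat_lit 16) (.s false (nat_lit 3) (nat_lit 54) (nat_lit 2) (nat_lit 2) (nat_lit 2) true (nat_lit 11) true (nat_lit 16) false (nat_lit 4) true (nat_lit 16) true (nat_lit 16) (.s false (nat_lit 3) (nat_lit 55) (nat_lit 2) (nat_lit 2)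 (nat_lit 2) true (nat_lit 11) true (nat_lit 16) false (nat_lit 4) true (nat_lit 16) true (nat_lit 16) (.s false (nat_lit 3) (nat_lit 57) (nat_lit 2) (nat_lit 2) (nat_lit 2) true (nat_lit 11) true (nat_lit 16) false (nat_lit 4) true (nat_lit 16) true (nat_lit 16) (.s false (nat_lit 3) (nat_lit 59) (nat_lit 2) (nat_lit 2) (nat_lit 2) true (nat_lit 11) true (nat_lit 16) false (nat_lit 4) true (nat_lit 16) true (nat_lit 16) (.s false (nat_lit 2) (nat_lit 60) (nat_lit 1) (nat_lit 2) (nat_lit 2) true (nat_lit 12) true (nat_lit 16) false (nat_lit 5) true (nat_lit 17) true (nat_lit 16) (.s true (nat_lit 3) (nat_lit 61) (nat_lit 1) (nat_lit 2) (nat_lit 2) true (nat_lit 12) true (nat_lit 16) false (nat_lit 5) true (nat_lit 17) true (nat_lit 16) (.s false (nat_lit 3) (nat_lit 62) (nat_lit 1) (nat_lit 2) (nat_lit 2) true (nat_lit 12) true (nat_lit 16) false (nat_lit 5) true (nat_lit 17) true (nat_lit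 16) (.s true (nat_lit 3) (nat_lit 63) (nat_lit 1) (nat_lit 2) (nat_lit 2) true (nat_lit 12) true (nat_lit 16) false (nat_lit 5) true (nat_lit 17) true (nat_lit 16) (.s false (nat_lit 2) (nat_lit 64) (nat_lit 1) (nat_lit 2) (nat_lit 2) true (nat_lit 12) true (nat_lit 16) false (nat_lit 5) true (nat_lit 17) true (nat_lit 16) (.s true (nat_lit 1) (nat_lit 66) (nat_lit 1) (nat_lit 2) (nat_lit 2) true (nat_lit 12) true (nat_lit 16) false (nat_lit 5) true (nat_lit 17) true (nat_lit 16) (.s false (nat_lit 2) (nat_lit 68) (nat_lit 1) (nat_lit 2) (nat_lit 2) true (nat_lit 12) true (nat_lit 16) false (nat_lit 5) true (nat_lit 17) true (nat_lit 16) (.s true (nat_lit 3) (nat_lit 69) (nat_lit 1) (nat_lit 2) (nat_lit 2) true (nat_lit 12) true (nat_lit 16) false (nat_lit 5) true (nat_lit 17) true (nat_lit 16) (.s true (nat_lit 2) (nat_lit 71) (nat_lit 1) (nat_lit 2) (nat_lit 2) true (nat_lit 12) true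 (nat_lit 16) false (nat_lit 5) true (nat_lit 17) true (nat_lit 16) (.s false (nat_lit 1) (nat_lit 72) (nat_lit 1) (nat_lit 2) (nat_lit 2) true (nat_lit 12) true (nat_lit 16) false (nat_lit 5) true (nat_lit 17) true (nat_lit 16) (.s true (nat_lit 1) (nat_lit 73) (nat_lit 1) (nat_lit 2) (nat_lit 2) true (nat_lit 12) true (nat_lit 16) false (nat_lit 5) true (nat_lit 17) true (nat_lit 16) (.s true (nat_lit 1) (nat_lit 62) (nat_lit 2) (nat_lit 1) (nat_lit 2) true (nat_lit 11) true (nat_lit 16) false (nat_lit 5) true (nat_lit 16) true (nat_lit 17) (.s true (nat_lit 3) (nat_lit 63) (nat_lit 2) (nat_lit 1) (nat_lit 2) true (nat_lit 11) true (nat_lit 16) false (nat_lit 5) true (nat_lit 16) true (nat_lit 17) (.s true (nat_lit 1) (nat_lit 64) (nat_lit 2) (nat_lit 1) (nat_lit 2) true (nat_lit 11) true (nat_lit 16) false (nat_lit 5) true (nat_lit 16) true (nat_lit 17) (.s true (nat_lit 1) (nat_lit 65)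 (nat_lit 2) (nat_lit 1) (nat_lit 2) true (nat_lit 11) true (nat_lit 16) false (nat_lit 5) true (nat_lit 16) true (nat_lit 17) (.s true (nat_lit 1) (nat_lit 69) (nat_lit 2) (nat_lit 1) (nat_lit 2) true (nat_lit 11) true (nat_lit 16) false (nat_lit 5) true (nat_lit 16) true (nat_lit 17) (.s true (nat_lit 1) (nat_lit 71) (nat_lit 2) (nat_lit 1) (nat_lit 2) true (nat_lit 11) true (nat_lit 16) false (nat_lit 5) true (nat_lit 16) true (nat_lit 17) dC2c_i178)))))))))))))))))))))))))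

noncomputable def dC2c_i180 : IL := (.s true (nat_lit 1) (nat_lit 29) (nat_lit 2) (nat_lit 2) (nat_lit 6) true (nat_lit 5) true (nat_lit 12) true (nat_lit 2) true (nat_lit 16) true (nat_lit 16) (.s false (nat_lit 3) (nat_lit 25) (nat_lit 2) (nat_lit 6) (nat_lit 2) true (nat_lit 11) true (nat_lit 16) true (nat_lit 2) true (nat_lit 16) true (nat_lit 12) (.s true (nat_lit 3) (nat_lit 24) (nat_lit 6) (nat_lit 2) (nat_lit 2) true (nat_lit 5) true (nat_lit 16) true (nat_lit 2) true (nat_lit 12) true (nat_lit 16) (.s true (nat_lit 3) (nat_lit 29) (nat_lit 6) (nat_lit 2) (nat_lit 2) true (nat_lit 5) true (nat_lit 16) true (nat_lit 2) true (nat_lit 12) true (nat_lit 16) (.s true (nat_lit 3) (nat_lit 25) (nat_lit 7) (nat_lit 2) (nat_lit 1) true (nat_lit 5) true (nat_lit 17) true (nat_lit 2) true (nat_lit 11) true (nat_lit 16) (.s true (nat_lit 2) (nat_lit 30) (nat_lit 0) (nat_lit 7) (nat_lit 2)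 true (nat_lit 13) true (nat_lit 16) true (nat_lit 1) true (nat_lit 18) true (nat_lit 11) (.s true (nat_lit 1) (nat_lit 30) (nat_lit 2) (nat_lit 2) (nat_lit 5) true (nat_lit 6) true (nat_lit 13) true (nat_lit 1) true (nat_lit 16) true (nat_lit 16) (.s false (nat_lit 3) (nat_lit 30) (nat_lit 2) (nat_lit 7) (nat_lit 0) true (nat_lit 13) true (nat_lit 18) true (nat_lit 1) true (nat_lit 16) true (nat_lit 11) (.s true (nat_lit 2) (nat_lit 34) (nat_lit 1) (nat_lit 1) (nat_lit 7) true (nat_lit 5) true (nat_lit 11) true (nat_lit 0) true (nat_lit 17) true (nat_lit 17) (.s false (nat_lit 3) (nat_lit 38) (nat_lit 1) (nat_lit 2) (nat_lit 6) true (nat_lit 7) true (nat_lit 12) true (nat_lit 0) true (nat_lit 17) true (nat_lit 16) (.s false (nat_lit 1) (nat_lit 33) (nat_lit 1) (nat_lit 6) (nat_lit 2) true (nat_lit 12) true (nat_lit 16) true (nat_lit 0) true (nat_lit 17) true (nat_lit 12) (.s false (nat_lit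 3) (nat_lit 34) (nat_lit 1) (nat_lit 6) (nat_lit 2) true (nat_lit 12) true (nat_lit 16) true (nat_lit 0) true (nat_lit 17) true (nat_lit 12) (.s true (nat_lit 1) (nat_lit 34) (nat_lit 2) (nat_lit 1) (nat_lit 6) true (nat_lit 5) true (nat_lit 12) true (nat_lit 0) true (nat_lit 16) true (nat_lit 17) (.s false (nat_lit 3) (nat_lit 33) (nat_lit 2) (nat_lit 4) (nat_lit 2) true (nat_lit 11) true (nat_lit 16) true (nat_lit 0) true (nat_lit 16) true (nat_lit 14) (.s true (nat_lit 2) (nat_lit 33) (nat_lit 6) (nat_lit 1) (nat_lit 2) true (nat_lit 5) true (nat_lit 16) true (nat_lit 0) true (nat_lit 12) true (nat_lit 17) (.s false (nat_lit 3) (nat_lit 34) (nat_lit 6) (nat_lit 2) (nat_lit 1) true (nat_lit 7) true (nat_lit 17) true (nat_lit 0) true (nat_lit 12) true (nat_lit 16) (.s true (nat_lit 2) (nat_lit 40) (nat_lit 2) (nat_lit 3) (nat_lit 2) true (nat_lit 11) true (nat_lit 16) false (nat_lit 0)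 true (nat_lit 16) true (nat_lit 15) (.s true (nat_lit 1) (nat_lit 39) (nat_lit 3) (nat_lit 2) (nat_lit 2) true (nat_lit 8) true (nat_lit 16) false (nat_lit 0) true (nat_lit 15) true (nat_lit 16) (.s true (nat_lit 3) (nat_lit 46) (nat_lit 1) (nat_lit 3) (nat_lit 2) true (nat_lit 12) true (nat_lit 16) false (nat_lit 2) true (nat_lit 17) true (nat_lit 15) (.s true (nat_lit 1) (nat_lit 47) (nat_lit 1) (nat_lit 3) (nat_lit 2) true (nat_lit 12) true (nat_lit 16) false (nat_lit 2) true (nat_lit 17) true (nat_lit 15) (.s true (nat_lit 3) (nat_lit 45) (nat_lit 2) (nat_lit 3) (nat_lit 1) true (nat_lit 12) true (nat_lit 17) false (nat_lit 2) true (nat_lit 16) true (nat_lit 15) (.s false (nat_lit 2) (nat_lit 46) (nat_lit 2) (nat_lit 3) (nat_lit 1) true (nat_lit 12) true (nat_lit 17) false (nat_lit 2) true (nat_lit 16) true (nat_lit 15) (.s false (nat_lit 3) (nat_lit 47) (nat_lit 2) (nat_lit 3) (nat_lit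 1) true (nat_lit 12) true (nat_lit 17) false (nat_lit 2) true (nat_lit 16) true (nat_lit 15) (.s false (nat_lit 1) (nat_lit 45) (nat_lit 3) (nat_lit 1) (nat_lit 2) true (nat_lit 8) true (nat_lit 16) false (nat_lit 2) true (nat_lit 15) true (nat_lit 17) (.s true (nat_lit 3) (nat_lit 47) (nat_lit 3) (nat_lit 1) (nat_lit 2) true (nat_lit 8) true (nat_lit 16) false (nat_lit 2) true (nat_lit 15) true (nat_lit 17) dC2c_i179)))))))))))))))))))))))))

noncomputable def dC2c_i181 : IL := (.s false (nat_lit 2) (nat_lit 19) (nat_lit 12) (nat_lit 2) (nat_lit 1) true (nat_lit 2) true (nat_lit 17) true (nat_lit 5) true (nat_lit 8) true (nat_lit 16) (.s false (nat_lit 1) (nat_lit 20) (nat_lit 1) (nat_lit 12) (nat_lit 1) true (nat_lit 14) true (nat_lit 17) true (nat_lit 4) true (nat_lit 17) true (nat_lit 8) (.s false (nat_lit 3) (nat_lit 20) (nat_lit 2) (nat_lit 1) (nat_lit 8) true (nat_lit 2) true (nat_lit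 10) true (nat_lit 4) true (nat_lit 16) true (nat_lit 17) (.s false (nat_lit 2) (nat_lit 20) (nat_lit 10) (nat_lit 0) (nat_lit 2) true (nat_lit 1) true (nat_lit 16) true (nat_lit 4) true (nat_lit 9) true (nat_lit 18) (.s false (nat_lit 3) (nat_lit 20) (nat_lit 11) (nat_lit 1) (nat_lit 1) true (nat_lit 2) true (nat_lit 17) true (nat_lit 4) true (nat_lit 8) true (nat_lit 17) (.s false (nat_lit 3) (nat_lit 20) (nat_lit 12) (nat_lit 1) (nat_lit 1) true (nat_lit 2) true (nat_lit 17) true (nat_lit 4) true (nat_lit 8) true (nat_lit 17) (.s true (nat_lit 2) (nat_lit 21) (nat_lit 2) (nat_lit 2) (nat_lit 7) true (nat_lit 4) true (nat_lit 11) true (nat_lit 3) true (nat_lit 16) true (nat_lit 16) (.s true (nat_lit 2) (nat_lit 22) (nat_lit 2) (nat_lit 2) (nat_lit 7) true (nat_lit 4) true (nat_lit 11) true (nat_lit 3) true (nat_lit 16) true (nat_lit 16) (.s true (nat_lit 2) (nat_lit 23) (nat_lit 2) (nat_lit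 2) (nat_lit 7) true (nat_lit 4) true (nat_lit 11) true (nat_lit 3) true (nat_lit 16) true (nat_lit 16) (.s true (nat_lit 2) (nat_lit 21) (nat_lit 2) (nat_lit 7) (nat_lit 2) true (nat_lit 11) true (nat_lit 16) true (nat_lit 3) true (nat_lit 16) true (nat_lit 11) (.s false (nat_lit 2) (nat_lit 23) (nat_lit 2) (nat_lit 7) (nat_lit 2) true (nat_lit 11) true (nat_lit 16) true (nat_lit 3) true (nat_lit 16) true (nat_lit 11) (.s false (nat_lit 3) (nat_lit 21) (nat_lit 7) (nat_lit 2) (nat_lit 2) true (nat_lit 4) true (nat_lit 16) true (nat_lit 3) true (nat_lit 11) true (nat_lit 16) (.s false (nat_lit 2) (nat_lit 23) (nat_lit 7) (nat_lit 2) (nat_lit 2) true (nat_lit 4) true (nat_lit 16) true (nat_lit 3) true (nat_lit 11) true (nat_lit 16) (.s false (nat_lit 2) (nat_lit 25) (nat_lit 1) (nat_lit 2) (nat_lit 7) true (nat_lit 5) true (nat_lit 11) true (nat_lit 2) true (nat_lit 17) true (nat_lit 16)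 (.s true (nat_lit 2) (nat_lit 27) (nat_lit 1) (nat_lit 2) (nat_lit 7) true (nat_lit 5) true (nat_lit 11) true (nat_lit 2) true (nat_lit 17) true (nat_lit 16) (.s false (nat_lit 3) (nat_lit 29) (nat_lit 1) (nat_lit 2) (nat_lit 7) true (nat_lit 5) true (nat_lit 11) true (nat_lit 2) true (nat_lit 17) true (nat_lit 16) (.s true (nat_lit 1) (nat_lit 24) (nat_lit 1) (nat_lit 7) (nat_lit 2) true (nat_lit 12) true (nat_lit 16) true (nat_lit 2) true (nat_lit 17) true (nat_lit 11) (.s false (nat_lit 1) (nat_lit 25) (nat_lit 1) (nat_lit 7) (nat_lit 2) true (nat_lit 12) true (nat_lit 16) true (nat_lit 2) true (nat_lit 17) true (nat_lit 11) (.s false (nat_lit 2) (nat_lit 27) (nat_lit 1) (nat_lit 7) (nat_lit 2) true (nat_lit 12) true (nat_lit 16) true (nat_lit 2) true (nat_lit 17) true (nat_lit 11) (.s false (nat_lit 2) (nat_lit 24) (nat_lit 2) (nat_lit 1) (nat_lit 7) true (nat_lit 4) true (nat_lit 11)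 true (nat_lit 2) true (nat_lit 16) true (nat_lit 17) (.s false (nat_lit 3) (nat_lit 29) (nat_lit 2) (nat_lit 1) (nat_lit 7) true (nat_lit 4) true (nat_lit 11) true (nat_lit 2) true (nat_lit 16) true (nat_lit 17) (.s false (nat_lit 1) (nat_lit 24) (nat_lit 2) (nat_lit 2) (nat_lit 6) true (nat_lit 5) true (nat_lit 12) true (nat_lit 2) true (nat_lit 16) true (nat_lit 16) (.s true (nat_lit 1) (nat_lit 25) (nat_lit 2) (nat_lit 2) (nat_lit 6) true (nat_lit 5) true (nat_lit 12) true (nat_lit 2) true (nat_lit 16) true (nat_lit 16) (.s false (nat_lit 1) (nat_lit 26) (nat_lit 2) (nat_lit 2) (nat_lit 6) true (nat_lit 5) true (nat_lit 12) true (nat_lit 2) true (nat_lit 16) true (nat_lit 16) (.s false (nat_lit 2) (nat_lit 27) (nat_lit 2) (nat_lit 2) (nat_lit 6) true (nat_lit 5) true (nat_lit 12) true (nat_lit 2) true (nat_lit 16) true (nat_lit 16) dC2c_i180)))))))))))))))))))))))))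

noncomputable def dC2c_i182 : IL := (.s true (nat_lit 1) (nat_lit 12) (nat_lit 2) (nat_lit 7) (nat_lit 4) true (nat_lit 7) true (nat_lit 14) true (nat_lit 8) true (nat_lit 16) true (nat_lit 11) (.s true (nat_lit 2) (nat_lit 11) (nat_lit 6) (nat_lit 6) (nat_lit 2) true (nat_lit 5) true (nat_lit 16) true (nat_lit 8) true (nat_lit 12) true (nat_lit 12) (.s true (nat_lit 1) (nat_lit 12) (nat_lit 7) (nat_lit 2) (nat_lit 4) false (nat_lit 0) true (nat_lit 14) true (nat_lit 8) true (nat_lit 11) true (nat_lit 16) (.s true (nat_lit 2) (nat_lit 14) (nat_lit 2) (nat_lit 2) (nat_lit 11) true (nat_lit 0) true (nat_lit 8) true (nat_lit 7) true (nat_lit 16) true (nat_lit 16) (.s true (nat_lit 1) (nat_lit 15) (nat_lit 2) (nat_lit 2) (nat_lit 11) true (nat_lit 0) true (nat_lit 8) true (nat_lit 7) true (nat_lit 16) true (nat_lit 16) (.s true (nat_lit 1) (nat_lit 14) (nat_lit 2) (nat_lit 3) (nat_lit 7) true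 (nat_lit 4) true (nat_lit 11) true (nat_lit 7) true (nat_lit 16) true (nat_lit 15) (.s true (nat_lit 2) (nat_lit 15) (nat_lit 2) (nat_lit 3) (nat_lit 7) true (nat_lit 4) true (nat_lit 11) true (nat_lit 7) true (nat_lit 16) true (nat_lit 15) (.s false (nat_lit 3) (nat_lit 15) (nat_lit 2) (nat_lit 11) (nat_lit 2) true (nat_lit 11) true (nat_lit 16) true (nat_lit 7) true (nat_lit 16) true (nat_lit 8) (.s true (nat_lit 1) (nat_lit 15) (nat_lit 12) (nat_lit 2) (nat_lit 2) true (nat_lit 0) true (nat_lit 16) true (nat_lit 7) true (nat_lit 8) true (nat_lit 16) (.s false (nat_lit 3) (nat_lit 18) (nat_lit 0) (nat_lit 2) (nat_lit 15) true (nat_lit 2) true (nat_lit 7) true (nat_lit 5) true (nat_lit 18) true (nat_lit 16) (.s true (nat_lit 2) (nat_lit 18) (nat_lit 0) (nat_lit 19) (nat_lit 1) true (nat_lit 15) true (nat_lit 17) true (nat_lit 5) true (nat_lit 18) true (nat_lit 5) (.s false (nat_lit 1)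 (nat_lit 18) (nat_lit 1) (nat_lit 12) (nat_lit 2) true (nat_lit 12) true (nat_lit 16) true (nat_lit 5) true (nat_lit 17) true (nat_lit 8) (.s true (nat_lit 3) (nat_lit 19) (nat_lit 1) (nat_lit 12) (nat_lit 2) true (nat_lit 12) true (nat_lit 16) true (nat_lit 5) true (nat_lit 17) true (nat_lit 8) (.s false (nat_lit 1) (nat_lit 18) (nat_lit 2) (nat_lit 1) (nat_lit 12) true (nat_lit 0) true (nat_lit 8) true (nat_lit 5) true (nat_lit 16) true (nat_lit 17) (.s true (nat_lit 2) (nat_lit 18) (nat_lit 2) (nat_lit 2) (nat_lit 8) true (nat_lit 2) true (nat_lit 10) true (nat_lit 5) true (nat_lit 16) true (nat_lit 16) (.s true (nat_lit 3) (nat_lit 18) (nat_lit 2) (nat_lit 9) (nat_lit 2) true (nat_lit 11) true (nat_lit 16) true (nat_lit 5) true (nat_lit 16) true (nat_lit 10) (.s true (nat_lit 1) (nat_lit 18) (nat_lit 2) (nat_lit 11) (nat_lit 1) true (nat_lit 12) true (nat_lit 17) true (nat_lit 5) true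 (nat_lit 16) true (nat_lit 8) (.s false (nat_lit 3) (nat_lit 18) (nat_lit 2) (nat_lit 12) (nat_lit 1) true (nat_lit 12) true (nat_lit 17) true (nat_lit 5) true (nat_lit 16) true (nat_lit 8) (.s false (nat_lit 2) (nat_lit 18) (nat_lit 3) (nat_lit 7) (nat_lit 1) true (nat_lit 10) true (nat_lit 17) true (nat_lit 5) true (nat_lit 15) true (nat_lit 11) (.s true (nat_lit 2) (nat_lit 19) (nat_lit 6) (nat_lit 3) (nat_lit 2) true (nat_lit 5) true (nat_lit 16) true (nat_lit 5) true (nat_lit 12) true (nat_lit 15) (.s true (nat_lit 2) (nat_lit 18) (nat_lit 8) (nat_lit 2) (nat_lit 2) true (nat_lit 2) true (nat_lit 16) true (nat_lit 5) true (nat_lit 10) true (nat_lit 16) (.s true (nat_lit 3) (nat_lit 18) (nat_lit 9) (nat_lit 2) (nat_lit 2) true (nat_lit 2) true (nat_lit 16) true (nat_lit 5) true (nat_lit 10) true (nat_lit 16) (.s true (nat_lit 2) (nat_lit 19) (nat_lit 8) (nat_lit 2) (nat_lit 2) true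 (nat_lit 2) true (nat_lit 16) true (nat_lit 5) true (nat_lit 10) true (nat_lit 16) (.s false (nat_lit 3) (nat_lit 19) (nat_lit 9) (nat_lit 2) (nat_lit 2) true (nat_lit 2) true (nat_lit 16) true (nat_lit 5) true (nat_lit 10) true (nat_lit 16) (.s true (nat_lit 1) (nat_lit 19) (nat_lit 11) (nat_lit 2) (nat_lit 1) true (nat_lit 2) true (nat_lit 17) true (nat_lit 5) true (nat_lit 8) true (nat_lit 16) dC2c_i181)))))))))))))))))))))))))

noncomputable def dC2c_i183 : IL := (.e true (nat_lit 1) (nat_lit 138) (nat_lit 1) (nat_lit 13) (.e true (nat_lit 3) (nat_lit 140) (nat_lit 1) (nat_lit 13) (.e false (nat_lit 2) (nat_lit 146) (nat_lit 1) (nat_lit 13) (.e false (nat_lit 2) (nat_lit 118) (nat_lit 2) (nat_lit 12) (.e true (nat_lit 1) (nat_lit 120) (nat_lit 2) (nat_lit 12) (.e false (nat_lit 3) (nat_lit 106) (nat_lit 2) (nat_lit 12) (.e true (nat_lit 3) (nat_lit 113) (nat_lit 2) (nat_lit 12) (.e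 false (nat_lit 3) (nat_lit 115) (nat_lit 2) (nat_lit 12) (.e true (nat_lit 2) (nat_lit 117) (nat_lit 2) (nat_lit 12) (.e true (nat_lit 2) (nat_lit 121) (nat_lit 2) (nat_lit 12) (.e true (nat_lit 3) (nat_lit 124) (nat_lit 2) (nat_lit 12) (.e false (nat_lit 2) (nat_lit 130) (nat_lit 2) (nat_lit 12) (.e true (nat_lit 1) (nat_lit 59) (nat_lit 7) (nat_lit 7) (.e true (nat_lit 1) (nat_lit 128) (nat_lit 2) (nat_lit 12) (.e true (nat_lit 3) (nat_lit 28) (nat_lit 19) (nat_lit 1) (.e false (nat_lit 1) (nat_lit 50) (nat_lit 7) (nat_lit 7) (.e false (nat_lit 1) (nat_lit 51) (nat_lit 7) (nat_lit 7) (.e false (nat_lit 1) (nat_lit 52) (nat_lit 7) (nat_lit 7) (.e true (nat_lit 1) (nat_lit 46) (nat_lit 8) (nat_lit 6) (.e true (nat_lit 1) (nat_lit 25) (nat_lit 19) (nat_lit 1) (.e false (nat_lit 1) (nat_lit 24) (nat_lit 18) (nat_lit 1) (.e false (nat_lit 1) (nat_lit 60) (nat_lit 6) (nat_lit 8) (.e false (nat_lit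 3) (nat_lit 67) (nat_lit 6) (nat_lit 8) (.u (nat_lit 2) (.p (nat_lit 0) (nat_lit 1) (.n (nat_lit 2) (nat_lit 3) (.n (nat_lit 3) (nat_lit 6) (.p (nat_lit 4) (nat_lit 1) (.n (nat_lit 5) (nat_lit 1) (.p (nat_lit 6) (nat_lit 2) (.n (nat_lit 7) (nat_lit 2) (.n (nat_lit 8) (nat_lit 3) (.p (nat_lit 9) (nat_lit 4) (.n (nat_lit 10) (nat_lit 2) (.p (nat_lit 11) (nat_lit 1) (.p (nat_lit 13) (nat_lit 1) (.n (nat_lit 14) (nat_lit 1) (.n (nat_lit 15) (nat_lit 1) (.n (nat_lit 16) (nat_lit 4) (.p (nat_lit 22) (nat_lit 2) (.p (nat_lit 23) (nat_lit 4) (.n (nat_lit 25) (nat_lit 3) (.p (nat_lit 26) (nat_lit 1) (.n (nat_lit 27) (nat_lit 1) (.n (nat_lit 28) (nat_lit 1) (.p (nat_lit 29) (nat_lit 1) (.n (nat_lit 30) (nat_lit 1) (.n (nat_lit 37) (nat_lit 3) (.n (nat_lit 39) (nat_lit 1) (.p (nat_lit 40) (nat_lit 1) (.n (nat_lit 41) (nat_lit 4) (.n (nat_lit 42) (nat_lit 4) (.n (nat_lit 43) (nat_lit 1) (.n (nat_lit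 51) (nat_lit 1) (.n (nat_lit 52) (nat_lit 1) (.p (nat_lit 53) (nat_lit 1) (.n (nat_lit 55) (nat_lit 1) (.p (nat_lit 74) (nat_lit 1) (.n (nat_lit 82) (nat_lit 1) (.n (nat_lit 84) (nat_lit 1) (.p (nat_lit 85) (nat_lit 1) (.p (nat_lit 88) (nat_lit 1) (.p (nat_lit 110) (nat_lit 1) (.n (nat_lit 112) (nat_lit 1) (.p (nat_lit 113) (nat_lit 1) (.p (nat_lit 114) (nat_lit 1) (.p (nat_lit 115) (nat_lit 1) (.n (nat_lit 120) (nat_lit 1) (.n (nat_lit 121) (nat_lit 1) (.n (nat_lit 122) (nat_lit 1) (.n (nat_lit 131) (nat_lit 1) (.n (nat_lit 146) (nat_lit 2) (.p (nat_lit 147) (nat_lit 3) (.p (nat_lit 148) (nat_lit 1) (.p (nat_lit 149) (nat_lit 3) (.n (nat_lit 150) (nat_lit 1) (.n (nat_lit 152) (nat_lit 1) (.p (nat_lit 154) (nat_lit 2) (.p (nat_lit 156) (nat_lit 2) (.p (nat_lit 157) (nat_lit 1) (.n (nat_lit 158) (nat_lit 1) (.n (nat_lit 159) (nat_lit 5) (.p (nat_lit 160) (nat_lit 2) (.p (nat_lit 162) (nat_lit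 6) .z)))))))))))))))))))))))))))))))))))))))))))))))))))))))))))) (.u (nat_lit 2) (.n (nat_lit 163) (nat_lit 1) (.p (nat_lit 165) (nat_lit 2) (.p (nat_lit 166) (nat_lit 5) (.p (nat_lit 167) (nat_lit 5) (.n (nat_lit 168) (nat_lit 2) (.n (nat_lit 170) (nat_lit 1) (.p (nat_lit 171) (nat_lit 3) (.n (nat_lit 172) (nat_lit 1) (.n (nat_lit 173) (nat_lit 1) (.p (nat_lit 174) (nat_lit 3) (.n (nat_lit 175) (nat_lit 4) (.n (nat_lit 176) (nat_lit 1) (.n (nat_lit 177) (nat_lit 2) (.n (nat_lit 178) (nat_lit 3) (.n (nat_lit 179) (nat_lit 2) (.p (nat_lit 180) (nat_lit 2) (.p (nat_lit 181) (nat_lit 1) (.p (nat_lit 184) (nat_lit 1) (.n (nat_lit 185) (nat_lit 2) (.n (nat_lit 186) (nat_lit 1) (.p (nat_lit 187) (nat_lit 2) (.n (nat_lit 189) (nat_lit 4) (.p (nat_lit 190) (nat_lit 1) (.p (nat_lit 191) (nat_lit 2) (.p (nat_lit 193) (nat_lit 2) (.n (nat_lit 196) (nat_lit 2) (.n (nat_lit 197) (nat_lit 3) .z)))))))))))))))))))))))))))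 .nil)))))))))))))))))))))))))

noncomputable def dC2c_i184 : IL := (.e false (nat_lit 3) (nat_lit 135) (nat_lit 1) (nat_lit 13) (.e true (nat_lit 2) (nat_lit 144) (nat_lit 1) (nat_lit 13) (.e true (nat_lit 2) (nat_lit 155) (nat_lit 1) (nat_lit 13) (.e false (nat_lit 2) (nat_lit 132) (nat_lit 1) (nat_lit 13) (.e false (nat_lit 2) (nat_lit 136) (nat_lit 1) (nat_lit 13) (.e true (nat_lit 2) (nat_lit 152) (nat_lit 1) (nat_lit 13) (.e false (nat_lit 2) (nat_lit 153) (nat_lit 1) (nat_lit 13) (.e false (nat_lit 1) (nat_lit 157) (nat_lit 1) (nat_lit 13) (.e false (nat_lit 3) (nat_lit 25) (nat_lit 18) (nat_lit 1) (.e true (nat_lit 3) (nat_lit 27) (nat_lit 18) (nat_lit 1) (.e true (nat_lit 2) (nat_lit 131) (nat_lit 2) (nat_lit 12) (.e false (nat_lit 3) (nat_lit 107) (nat_lit 2) (nat_lit 12) (.e true (nat_lit 1) (nat_lit 108) (nat_lit 2) (nat_lit 12) (.e false (nat_lit 1) (nat_lit 111) (nat_lit 2)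 (nat_lit 12) (.e true (nat_lit 3) (nat_lit 119) (nat_lit 2) (nat_lit 12) (.e true (nat_lit 3) (nat_lit 122) (nat_lit 2) (nat_lit 12) (.e false (nat_lit 1) (nat_lit 109) (nat_lit 2) (nat_lit 12) (.e true (nat_lit 3) (nat_lit 110) (nat_lit 2) (nat_lit 12) (.e false (nat_lit 1) (nat_lit 112) (nat_lit 2) (nat_lit 12) (.e false (nat_lit 3) (nat_lit 116) (nat_lit 2) (nat_lit 12) (.e true (nat_lit 3) (nat_lit 123) (nat_lit 2) (nat_lit 12) (.e false (nat_lit 3) (nat_lit 127) (nat_lit 2) (nat_lit 12) (.e true (nat_lit 2) (nat_lit 27) (nat_lit 19) (nat_lit 1) (.e false (nat_lit 3) (nat_lit 55) (nat_lit 7) (nat_lit 7) (.e true (nat_lit 3) (nat_lit 133) (nat_lit 1) (nat_lit 13) dC2c_i183)))))))))))))))))))))))))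

noncomputable def dC2c_i185 : IL := (.s true (nat_lit 3) (nat_lit 11) (nat_lit 6) (nat_lit 2) (nat_lit 1) true (nat_lit 3) true (nat_lit 13) true (nat_lit 4) true (nat_lit 8) true (nat_lit 12) (.s true (nat_lit 2) (nat_lit 12) (nat_lit 6) (nat_lit 2) (nat_lit 1) true (nat_lit 3) true (nat_lit 13) true (nat_lit 4) true (nat_lit 8) true (nat_lit 12) (.s false (nat_lit 3) (nat_lit 13) (nat_lit 7) (nat_lit 1) (nat_lit 1) true (nat_lit 1) true (nat_lit 13) true (nat_lit 4) true (nat_lit 7) true (nat_lit 13) (.s true (nat_lit 1) (nat_lit 15) (nat_lit 2) (nat_lit 3) (nat_lit 2) true (nat_lit 7) true (nat_lit 12) true (nat_lit 3) true (nat_lit 12) true (nat_lit 11) (.s true (nat_lit 1) (nat_lit 19) (nat_lit 1) (nat_lit 2) (nat_lit 3) true (nat_lit 6) true (nat_lit 11) true (nat_lit 1) true (nat_lit 13) true (nat_lit 12) (.s true (nat_lit 1) (nat_lit 18) (nat_lit 1) (nat_lit 3) (nat_lit 2) true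 (nat_lit 8) true (nat_lit 12) true (nat_lit 1) true (nat_lit 13) true (nat_lit 11) (.s true (nat_lit 1) (nat_lit 18) (nat_lit 2) (nat_lit 1) (nat_lit 3) true (nat_lit 4) true (nat_lit 11) true (nat_lit 1) true (nat_lit 12) true (nat_lit 13) (.s true (nat_lit 1) (nat_lit 19) (nat_lit 2) (nat_lit 3) (nat_lit 1) true (nat_lit 8) true (nat_lit 13) true (nat_lit 1) true (nat_lit 12) true (nat_lit 11) (.s false (nat_lit 2) (nat_lit 26) (nat_lit 1) (nat_lit 2) (nat_lit 2) true (nat_lit 8) true (nat_lit 12) false (nat_lit 1) true (nat_lit 13) true (nat_lit 12) (.s false (nat_lit 1) (nat_lit 28) (nat_lit 1) (nat_lit 2) (nat_lit 2) true (nat_lit 8) true (nat_lit 12) false (nat_lit 1) true (nat_lit 13) true (nat_lit 12) (.s false (nat_lit 3) (nat_lit 29) (nat_lit 1) (nat_lit 2) (nat_lit 2) true (nat_lit 8) true (nat_lit 12) false (nat_lit 1) true (nat_lit 13) true (nat_lit 12) (.s false (nat_lit 1)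 (nat_lit 26) (nat_lit 2) (nat_lit 1) (nat_lit 2) true (nat_lit 7) true (nat_lit 12) false (nat_lit 1) true (nat_lit 12) true (nat_lit 13) (.s true (nat_lit 1) (nat_lit 29) (nat_lit 2) (nat_lit 2) (nat_lit 1) true (nat_lit 8) true (nat_lit 13) false (nat_lit 1) true (nat_lit 12) true (nat_lit 12) (.s false (nat_lit 2) (nat_lit 35) (nat_lit 1) (nat_lit 1) (nat_lit 2) true (nat_lit 8) true (nat_lit 12) false (nat_lit 3) true (nat_lit 13) true (nat_lit 13) (.s true (nat_lit 2) (nat_lit 35) (nat_lit 1) (nat_lit 2) (nat_lit 1) true (nat_lit 10) true (nat_lit 13) false (nat_lit 3) true (nat_lit 13) true (nat_lit 12) (.s false (nat_lit 3) (nat_lit 33) (nat_lit 2) (nat_lit 1) (nat_lit 1) true (nat_lit 8) true (nat_lit 13) false (nat_lit 3) true (nat_lit 12) true (nat_lit 13) (.s true (nat_lit 3) (nat_lit 37) (nat_lit 2) (nat_lit 1) (nat_lit 1) true (nat_lit 8) true (nat_lit 13) false (nat_lit 3)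 true (nat_lit 12) true (nat_lit 13) (.s true (nat_lit 3) (nat_lit 38) (nat_lit 2) (nat_lit 1) (nat_lit 1) true (nat_lit 8) true (nat_lit 13) false (nat_lit 3) true (nat_lit 12) true (nat_lit 13) (.s true (nat_lit 1) (nat_lit 40) (nat_lit 1) (nat_lit 2) (nat_lit 0) true (nat_lit 11) true (nat_lit 14) false (nat_lit 4) true (nat_lit 13) true (nat_lit 12) (.s false (nat_lit 1) (nat_lit 40) (nat_lit 2) (nat_lit 0) (nat_lit 1) true (nat_lit 8) true (nat_lit 13) false (nat_lit 4) true (nat_lit 12) true (nat_lit 14) (.e false (nat_lit 2) (nat_lit 64) (nat_lit 6) (nat_lit 8) (.e true (nat_lit 1) (nat_lit 61) (nat_lit 6) (nat_lit 8) (.e true (nat_lit 3) (nat_lit 63) (nat_lit 6) (nat_lit 8) (.e true (nat_lit 1) (nat_lit 72) (nat_lit 6) (nat_lit 8) (.e true (nat_lit 3) (nat_lit 154) (nat_lit 1) (nat_lit 13) dC2c_i184)))))))))))))))))))))))))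

noncomputable def dC2c_i186 : IL := (.e false (nat_lit 1) (nat_lit 247) (nat_lit 2) (nat_lit 16) (.e false (nat_lit 2) (nat_lit 248) (nat_lit 2) (nat_lit 16) (.e false (nat_lit 3) (nat_lit 251) (nat_lit 2) (nat_lit 16) (.e true (nat_lit 1) (nat_lit 243) (nat_lit 2) (nat_lit 16) (.e true (nat_lit 1) (nat_lit 249) (nat_lit 2) (nat_lit 16) (.e true (nat_lit 2) (nat_lit 279) (nat_lit 1) (nat_lit 17) (.e false (nat_lit 1) (nat_lit 280) (nat_lit 1) (nat_lit 17) (.e false (nat_lit 2) (nat_lit 288) (nat_lit 1) (nat_lit 17) (.e true (nat_lit 2) (nat_lit 285) (nat_lit 1) (nat_lit 17) (.e false (nat_lit 3) (nat_lit 282) (nat_lit 1) (nat_lit 17) (.e true (nat_lit 1) (nat_lit 263) (nat_lit 1) (nat_lit 17) (.e false (nat_lit 2) (nat_lit 292) (nat_lit 0) (nat_lit 18) (.e false (nat_lit 3) (nat_lit 293) (nat_lit 0) (nat_lit 18) (.e true (nat_lit 1) (nat_lit 295) (nat_lit 0) (nat_lit 18) (.e false (nat_lit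 2) (nat_lit 297) (nat_lit 0) (nat_lit 18) (.e false (nat_lit 3) (nat_lit 298) (nat_lit 0) (nat_lit 18) (.e false (nat_lit 2) (nat_lit 300) (nat_lit 0) (nat_lit 18) (.e true (nat_lit 2) (nat_lit 301) (nat_lit 0) (nat_lit 18) (.e true (nat_lit 1) (nat_lit 303) (nat_lit 0) (nat_lit 18) (.e false (nat_lit 1) (nat_lit 304) (nat_lit 0) (nat_lit 18) (.e true (nat_lit 2) (nat_lit 286) (nat_lit 1) (nat_lit 17) (.e true (nat_lit 2) (nat_lit 290) (nat_lit 0) (nat_lit 18) (.e true (nat_lit 2) (nat_lit 296) (nat_lit 0) (nat_lit 18) (.u (nat_lit 2) (.n (nat_lit 0) (nat_lit 4) (.p (nat_lit 1) (nat_lit 6) (.n (nat_lit 2) (nat_lit 5) (.p (nat_lit 3) (nat_lit 3) (.p (nat_lit 4) (nat_lit 1) (.n (nat_lit 5) (nat_lit 3) (.n (nat_lit 7) (nat_lit 7) (.n (nat_lit 8) (nat_lit 2) (.p (nat_lit 9) (nat_lit 2) (.p (nat_lit 10) (nat_lit 4) (.p (nat_lit 11) (nat_lit 1) (.p (nat_lit 12) (nat_lit 1) (.n (nat_lit 14) (nat_lit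 2) (.n (nat_lit 15) (nat_lit 8) (.n (nat_lit 16) (nat_lit 5) (.n (nat_lit 17) (nat_lit 4) (.n (nat_lit 18) (nat_lit 2) (.n (nat_lit 19) (nat_lit 4) (.n (nat_lit 20) (nat_lit 3) (.p (nat_lit 21) (nat_lit 2) (.n (nat_lit 22) (nat_lit 2) (.p (nat_lit 23) (nat_lit 2) (.n (nat_lit 25) (nat_lit 7) (.p (nat_lit 26) (nat_lit 1) (.n (nat_lit 27) (nat_lit 4) (.n (nat_lit 28) (nat_lit 1) (.n (nat_lit 29) (nat_lit 1) (.n (nat_lit 31) (nat_lit 4) (.p (nat_lit 32) (nat_lit 6) (.p (nat_lit 33) (nat_lit 6) (.n (nat_lit 34) (nat_lit 7) (.p (nat_lit 35) (nat_lit 6) (.p (nat_lit 36) (nat_lit 6) (.n (nat_lit 37) (nat_lit 1) (.n (nat_lit 38) (nat_lit 6) (.n (nat_lit 39) (nat_lit 2) (.n (nat_lit 40) (nat_lit 3) (.n (nat_lit 42) (nat_lit 5) (.n (nat_lit 44) (nat_lit 2) (.n (nat_lit 46) (nat_lit 3) (.n (nat_lit 47) (nat_lit 5) (.n (nat_lit 48) (nat_lit 2) (.p (nat_lit 52) (nat_lit 1) (.p (nat_lit 55) (nat_lit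 1) (.p (nat_lit 206) (nat_lit 1) (.n (nat_lit 207) (nat_lit 1) (.n (nat_lit 214) (nat_lit 3) (.n (nat_lit 215) (nat_lit 3) (.p (nat_lit 216) (nat_lit 3) (.n (nat_lit 217) (nat_lit 3) (.p (nat_lit 219) (nat_lit 3) (.n (nat_lit 221) (nat_lit 3) (.p (nat_lit 233) (nat_lit 3) (.p (nat_lit 252) (nat_lit 1) (.p (nat_lit 299) (nat_lit 1) (.n (nat_lit 300) (nat_lit 1) (.n (nat_lit 302) (nat_lit 2) (.p (nat_lit 303) (nat_lit 2) (.n (nat_lit 304) (nat_lit 1) (.n (nat_lit 305) (nat_lit 2) .z)))))))))))))))))))))))))))))))))))))))))))))))))))))))))))) (.u (nat_lit 2) (.n (nat_lit 307) (nat_lit 1) (.n (nat_lit 308) (nat_lit 2) (.p (nat_lit 310) (nat_lit 1) (.p (nat_lit 311) (nat_lit 1) (.n (nat_lit 312) (nat_lit 1) (.p (nat_lit 313) (nat_lit 1) (.p (nat_lit 314) (nat_lit 3) (.n (nat_lit 315) (nat_lit 1) (.n (nat_lit 316) (nat_lit 3) (.n (nat_lit 317) (nat_lit 1) (.n (nat_lit 318) (nat_lit 3) (.n (nat_lit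 319) (nat_lit 2) (.p (nat_lit 322) (nat_lit 2) (.p (nat_lit 323) (nat_lit 2) (.p (nat_lit 325) (nat_lit 1) (.p (nat_lit 326) (nat_lit 3) (.p (nat_lit 327) (nat_lit 2) (.n (nat_lit 329) (nat_lit 2) (.n (nat_lit 330) (nat_lit 1) (.n (nat_lit 332) (nat_lit 1) (.p (nat_lit 340) (nat_lit 1) (.p (nat_lit 342) (nat_lit 3) (.n (nat_lit 343) (nat_lit 1) (.n (nat_lit 344) (nat_lit 1) (.n (nat_lit 345) (nat_lit 2) (.p (nat_lit 346) (nat_lit 1) (.n (nat_lit 348) (nat_lit 3) (.p (nat_lit 349) (nat_lit 2) (.n (nat_lit 350) (nat_lit 1) (.p (nat_lit 351) (nat_lit 1) (.n (nat_lit 352) (nat_lit 2) (.n (nat_lit 353) (nat_lit 1) (.p (nat_lit 354) (nat_lit 4) (.p (nat_lit 355) (nat_lit 1) (.n (nat_lit 356) (nat_lit 4) (.p (nat_lit 357) (nat_lit 4) (.p (nat_lit 358) (nat_lit 2) (.p (nat_lit 359) (nat_lit 1) (.p (nat_lit 361) (nat_lit 3) (.p (nat_lit 362) (nat_lit 1) (.p (nat_lit 363) (nat_lit 1) (.p (nat_lit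 366) (nat_lit 1) (.n (nat_lit 367) (nat_lit 3) (.p (nat_lit 368) (nat_lit 4) (.n (nat_lit 369) (nat_lit 2) (.n (nat_lit 371) (nat_lit 3) (.n (nat_lit 373) (nat_lit 4) (.n (nat_lit 374) (nat_lit 1) (.n (nat_lit 375) (nat_lit 2) (.p (nat_lit 377) (nat_lit 1) (.n (nat_lit 379) (nat_lit 1) (.p (nat_lit 382) (nat_lit 1) (.n (nat_lit 383) (nat_lit 1) (.n (nat_lit 384) (nat_lit 1) (.n (nat_lit 390) (nat_lit 1) .z))))))))))))))))))))))))))))))))))))))))))))))))))))))) .nil)))))))))))))))))))))))))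

noncomputable def dC2c_i187 : IL := (.e false (nat_lit 2) (nat_lit 232) (nat_lit 2) (nat_lit 16) (.e true (nat_lit 2) (nat_lit 226) (nat_lit 2) (nat_lit 16) (.e false (nat_lit 2) (nat_lit 269) (nat_lit 1) (nat_lit 17) (.e false (nat_lit 2) (nat_lit 205) (nat_lit 2) (nat_lit 16) (.e true (nat_lit 2) (nat_lit 206) (nat_lit 2) (nat_lit 16) (.e false (nat_lit 1) (nat_lit 207) (nat_lit 2) (nat_lit 16) (.e false (nat_lit 2) (nat_lit 208) (nat_lit 2) (nat_lit 16) (.e false (nat_lit 1) (nat_lit 210) (nat_lit 2) (nat_lit 16) (.e false (nat_lit 2) (nat_lit 211) (nat_lit 2) (nat_lit 16) (.e true (nat_lit 1) (nat_lit 213) (nat_lit 2) (nat_lit 16) (.e true (nat_lit 1) (nat_lit 214) (nat_lit 2) (nat_lit 16) (.e false (nat_lit 1) (nat_lit 215) (nat_lit 2) (nat_lit 16) (.e false (nat_lit 1) (nat_lit 218) (nat_lit 2) (nat_lit 16) (.e false (nat_lit 3) (nat_lit 219) (nat_lit 2) (nat_lit 16) (.e false (nat_lit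 1) (nat_lit 220) (nat_lit 2) (nat_lit 16) (.e false (nat_lit 3) (nat_lit 221) (nat_lit 2) (nat_lit 16) (.e false (nat_lit 2) (nat_lit 222) (nat_lit 2) (nat_lit 16) (.e true (nat_lit 2) (nat_lit 225) (nat_lit 2) (nat_lit 16) (.e true (nat_lit 1) (nat_lit 228) (nat_lit 2) (nat_lit 16) (.e true (nat_lit 3) (nat_lit 229) (nat_lit 2) (nat_lit 16) (.e true (nat_lit 2) (nat_lit 230) (nat_lit 2) (nat_lit 16) (.e false (nat_lit 1) (nat_lit 233) (nat_lit 2) (nat_lit 16) (.e false (nat_lit 1) (nat_lit 235) (nat_lit 2) (nat_lit 16) (.e true (nat_lit 3) (nat_lit 245) (nat_lit 2) (nat_lit 16) (.e false (nat_lit 1) (nat_lit 246) (nat_lit 2) (nat_lit 16) dC2c_i186)))))))))))))))))))))))))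

noncomputable def dC2c_i188 : IL := (.e false (nat_lit 3) (nat_lit 123) (nat_lit 7) (nat_lit 11) (.e true (nat_lit 3) (nat_lit 129) (nat_lit 7) (nat_lit 11) (.e true (nat_lit 3) (nat_lit 130) (nat_lit 7) (nat_lit 11) (.e false (nat_lit 1) (nat_lit 253) (nat_lit 1) (nat_lit 17) (.e true (nat_lit 2) (nat_lit 255) (nat_lit 1) (nat_lit 17) (.e false (nat_lit 2) (nat_lit 259) (nat_lit 1) (nat_lit 17) (.e true (nat_lit 2) (nat_lit 260) (nat_lit 1) (nat_lit 17) (.e false (nat_lit 2) (nat_lit 264) (nat_lit 1) (nat_lit 17) (.e true (nat_lit 2) (nat_lit 252) (nat_lit 1) (nat_lit 17) (.e true (nat_lit 1) (nat_lit 256) (nat_lit 1) (nat_lit 17) (.e true (nat_lit 2) (nat_lit 261) (nat_lit 1) (nat_lit 17) (.e true (nat_lit 1) (nat_lit 265) (nat_lit 1) (nat_lit 17) (.e true (nat_lit 2) (nat_lit 266) (nat_lit 1) (nat_lit 17) (.e true (nat_lit 1) (nat_lit 271) (nat_lit 1) (nat_lit 17) (.e false (nat_lit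 3) (nat_lit 273) (nat_lit 1) (nat_lit 17) (.e false (nat_lit 3) (nat_lit 274) (nat_lit 1) (nat_lit 17) (.e false (nat_lit 1) (nat_lit 276) (nat_lit 1) (nat_lit 17) (.e true (nat_lit 2) (nat_lit 278) (nat_lit 1) (nat_lit 17) (.e false (nat_lit 1) (nat_lit 283) (nat_lit 1) (nat_lit 17) (.e true (nat_lit 2) (nat_lit 287) (nat_lit 1) (nat_lit 17) (.e true (nat_lit 3) (nat_lit 267) (nat_lit 1) (nat_lit 17) (.e true (nat_lit 3) (nat_lit 270) (nat_lit 1) (nat_lit 17) (.e true (nat_lit 1) (nat_lit 216) (nat_lit 2) (nat_lit 16) (.e false (nat_lit 3) (nat_lit 217) (nat_lit 2) (nat_lit 16) (.e true (nat_lit 3) (nat_lit 284) (nat_lit 1) (nat_lit 17) dC2c_i187)))))))))))))))))))))))))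

noncomputable def dC2c_i189 : IL := (.e true (nat_lit 2) (nat_lit 309) (nat_lit 1) (nat_lit 15) (.e false (nat_lit 2) (nat_lit 310) (nat_lit 1) (nat_lit 15) (.e false (nat_lit 1) (nat_lit 311) (nat_lit 1) (nat_lit 15) (.e false (nat_lit 1) (nat_lit 312) (nat_lit 1) (nat_lit 15) (.e true (nat_lit 3) (nat_lit 313) (nat_lit 1) (nat_lit 15) (.e false (nat_lit 1) (nat_lit 314) (nat_lit 1) (nat_lit 15) (.e true (nat_lit 2) (nat_lit 317) (nat_lit 1) (nat_lit 15) (.e false (nat_lit 1) (nat_lit 321) (nat_lit 1) (nat_lit 15) (.e true (nat_lit 1) (nat_lit 322) (nat_lit 1) (nat_lit 15) (.e false (nat_lit 2) (nat_lit 254) (nat_lit 2) (nat_lit 14) (.e true (nat_lit 2) (nat_lit 258) (nat_lit 2) (nat_lit 14) (.e false (nat_lit 2) (nat_lit 265) (nat_lit 2) (nat_lit 14) (.e false (nat_lit 2) (nat_lit 264) (nat_lit 2) (nat_lit 14) (.e true (nat_lit 1) (nat_lit 274) (nat_lit 2) (nat_lit 14) (.e true (nat_lit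 1) (nat_lit 62) (nat_lit 20) (nat_lit 3) (.e false (nat_lit 1) (nat_lit 66) (nat_lit 20) (nat_lit 3) (.e false (nat_lit 1) (nat_lit 318) (nat_lit 1) (nat_lit 15) (.e true (nat_lit 3) (nat_lit 315) (nat_lit 1) (nat_lit 15) (.e true (nat_lit 1) (nat_lit 134) (nat_lit 7) (nat_lit 9) (.e false (nat_lit 1) (nat_lit 138) (nat_lit 7) (nat_lit 9) (.e true (nat_lit 1) (nat_lit 152) (nat_lit 7) (nat_lit 9) (.e false (nat_lit 1) (nat_lit 154) (nat_lit 7) (nat_lit 9) (.e true (nat_lit 1) (nat_lit 285) (nat_lit 2) (nat_lit 14) (.e false (nat_lit 1) (nat_lit 47) (nat_lit 33) (nat_lit 1) (.u (nat_lit 2) (.p (nat_lit 0) (nat_lit 1) (.n (nat_lit 1) (nat_lit 1) (.n (nat_lit 2) (nat_lit 2) (.p (nat_lit 3) (nat_lit 1) (.p (nat_lit 4) (nat_lit 2) (.p (nat_lit 5) (nat_lit 1) (.p (nat_lit 7) (nat_lit 1) (.n (nat_lit 9) (nat_lit 2) (.n (nat_lit 10) (nat_lit 1) (.n (nat_lit 11) (nat_lit 1) (.p (nat_lit 12) (nat_lit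 2) (.p (nat_lit 13) (nat_lit 1) (.p (nat_lit 14) (nat_lit 2) (.n (nat_lit 17) (nat_lit 1) (.p (nat_lit 18) (nat_lit 2) (.p (nat_lit 19) (nat_lit 1) (.p (nat_lit 23) (nat_lit 1) (.p (nat_lit 24) (nat_lit 1) (.n (nat_lit 25) (nat_lit 1) (.p (nat_lit 34) (nat_lit 1) (.n (nat_lit 157) (nat_lit 1) (.p (nat_lit 204) (nat_lit 1) (.p (nat_lit 209) (nat_lit 1) (.p (nat_lit 210) (nat_lit 1) (.n (nat_lit 217) (nat_lit 1) (.p (nat_lit 218) (nat_lit 1) (.n (nat_lit 224) (nat_lit 1) (.n (nat_lit 225) (nat_lit 1) (.n (nat_lit 226) (nat_lit 1) (.n (nat_lit 250) (nat_lit 1) (.p (nat_lit 251) (nat_lit 1) .z))))))))))))))))))))))))))))))) .nil)))))))))))))))))))))))))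

noncomputable def dC2c_i190 : IL := (.e true (nat_lit 2) (nat_lit 256) (nat_lit 1) (nat_lit 17) (.e true (nat_lit 3) (nat_lit 257) (nat_lit 1) (nat_lit 17) (.e true (nat_lit 1) (nat_lit 259) (nat_lit 1) (nat_lit 17) (.e false (nat_lit 1) (nat_lit 260) (nat_lit 1) (nat_lit 17) (.e false (nat_lit 1) (nat_lit 261) (nat_lit 1) (nat_lit 17) (.e true (nat_lit 3) (nat_lit 262) (nat_lit 1) (nat_lit 17) (.e false (nat_lit 2) (nat_lit 263) (nat_lit 1) (nat_lit 17) (.e true (nat_lit 1) (nat_lit 264) (nat_lit 1) (nat_lit 17) (.e false (nat_lit 3) (nat_lit 267) (nat_lit 1) (nat_lit 17) (.e true (nat_lit 1) (nat_lit 268) (nat_lit 1) (nat_lit 17) (.e true (nat_lit 2) (nat_lit 269) (nat_lit 1) (nat_lit 17) (.e true (nat_lit 1) (nat_lit 270) (nat_lit 1) (nat_lit 17) (.e true (nat_lit 3) (nat_lit 272) (nat_lit 1) (nat_lit 17) (.e false (nat_lit 2) (nat_lit 274) (nat_lit 1) (nat_lit 17) (.e true (nat_lit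 3) (nat_lit 275) (nat_lit 1) (nat_lit 17) (.e false (nat_lit 1) (nat_lit 276) (nat_lit 1) (nat_lit 17) (.e false (nat_lit 1) (nat_lit 277) (nat_lit 1) (nat_lit 17) (.e false (nat_lit 1) (nat_lit 278) (nat_lit 1) (nat_lit 17) (.e false (nat_lit 1) (nat_lit 279) (nat_lit 1) (nat_lit 17) (.e true (nat_lit 1) (nat_lit 280) (nat_lit 1) (nat_lit 17) (.e true (nat_lit 1) (nat_lit 281) (nat_lit 1) (nat_lit 17) (.e true (nat_lit 3) (nat_lit 283) (nat_lit 1) (nat_lit 17) (.e false (nat_lit 1) (nat_lit 284) (nat_lit 1) (nat_lit 17) (.e false (nat_lit 3) (nat_lit 285) (nat_lit 1) (nat_lit 17) (.u (nat_lit 2) (.n (nat_lit 0) (nat_lit 1) (.n (nat_lit 1) (nat_lit 5) (.p (nat_lit 2) (nat_lit 2) (.n (nat_lit 3) (nat_lit 1) (.p (nat_lit 4) (nat_lit 2) (.p (nat_lit 5) (nat_lit 3) (.p (nat_lit 6) (nat_lit 1) (.n (nat_lit 7) (nat_lit 3) (.p (nat_lit 8) (nat_lit 2) (.p (nat_lit 10) (nat_lit 2) (.p (nat_lit 11)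 (nat_lit 2) (.n (nat_lit 14) (nat_lit 4) (.n (nat_lit 15) (nat_lit 2) (.n (nat_lit 17) (nat_lit 1) (.n (nat_lit 18) (nat_lit 2) (.n (nat_lit 19) (nat_lit 1) (.p (nat_lit 20) (nat_lit 2) (.p (nat_lit 23) (nat_lit 4) (.n (nat_lit 24) (nat_lit 2) (.p (nat_lit 25) (nat_lit 2) (.p (nat_lit 26) (nat_lit 2) (.n (nat_lit 27) (nat_lit 1) (.p (nat_lit 28) (nat_lit 2) (.p (nat_lit 29) (nat_lit 3) (.n (nat_lit 31) (nat_lit 1) (.p (nat_lit 33) (nat_lit 2) (.n (nat_lit 34) (nat_lit 3) (.p (nat_lit 35) (nat_lit 1) (.n (nat_lit 37) (nat_lit 3) (.n (nat_lit 38) (nat_lit 2) (.p (nat_lit 41) (nat_lit 1) (.p (nat_lit 44) (nat_lit 1) (.n (nat_lit 45) (nat_lit 1) (.p (nat_lit 47) (nat_lit 2) (.p (nat_lit 386) (nat_lit 3) (.n (nat_lit 388) (nat_lit 1) (.n (nat_lit 390) (nat_lit 1) (.n (nat_lit 392) (nat_lit 1) (.n (nat_lit 393) (nat_lit 1) (.p (nat_lit 395) (nat_lit 2) (.n (nat_lit 397) (nat_lit 1) (.p (nat_lit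 400) (nat_lit 1) (.n (nat_lit 401) (nat_lit 1) .z))))))))))))))))))))))))))))))))))))))))))) .nil)))))))))))))))))))))))))

noncomputable def dC2c_i191 : IL := (.e false (nat_lit 1) (nat_lit 94) (nat_lit 13) (nat_lit 8) (.e false (nat_lit 1) (nat_lit 301) (nat_lit 0) (nat_lit 18) (.e true (nat_lit 1) (nat_lit 302) (nat_lit 0) (nat_lit 18) (.e true (nat_lit 3) (nat_lit 289) (nat_lit 0) (nat_lit 18) (.e true (nat_lit 1) (nat_lit 291) (nat_lit 0) (nat_lit 18) (.e true (nat_lit 1) (nat_lit 292) (nat_lit 0) (nat_lit 18) (.e true (nat_lit 3) (nat_lit 295) (nat_lit 0) (nat_lit 18) (.e true (nat_lit 3) (nat_lit 296) (nat_lit 0) (nat_lit 18) (.e true (nat_lit 3) (nat_lit 298) (nat_lit 0) (nat_lit 18) (.e true (nat_lit 3) (nat_lit 303) (nat_lit 0) (nat_lit 18) (.e false (nat_lit 3) (nat_lit 304) (nat_lit 0) (nat_lit 18) (.e true (nat_lit 3) (nat_lit 290) (nat_lit 0) (nat_lit 18) (.e false (nat_lit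 1) (nat_lit 45) (nat_lit 29) (nat_lit 2) (.e true (nat_lit 1) (nat_lit 132) (nat_lit 6) (nat_lit 12) (.e true (nat_lit 2) (nat_lit 133) (nat_lit 6) (nat_lit 12) (.e false (nat_lit 2) (nat_lit 135) (nat_lit 6) (nat_lit 12) (.e true (nat_lit 2) (nat_lit 137) (nat_lit 6) (nat_lit 12) (.e false (nat_lit 1) (nat_lit 144) (nat_lit 6) (nat_lit 12) (.e true (nat_lit 1) (nat_lit 145) (nat_lit 6) (nat_lit 12) (.e false (nat_lit 1) (nat_lit 152) (nat_lit 6) (nat_lit 12) (.e false (nat_lit 1) (nat_lit 154) (nat_lit 6) (nat_lit 12) (.e true (nat_lit 1) (nat_lit 157) (nat_lit 6) (nat_lit 12) (.e true (nat_lit 1) (nat_lit 252) (nat_lit 1) (nat_lit 17) (.e true (nat_lit 3) (nat_lit 254) (nat_lit 1) (nat_lit 17) (.e false (nat_lit 3) (nat_lit 255) (nat_lit 1) (nat_lit 17) dC2c_i190)))))))))))))))))))))))))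

noncomputable def dC2c_i192 : IL := (.s true (nat_lit 1) (nat_lit 33) (nat_lit 2) (nat_lit 1) (nat_lit 7) true (nat_lit 3) true (nat_lit 9) true (nat_lit 1) true (nat_lit 14) true (nat_lit 15) (.e true (nat_lit 1) (nat_lit 80) (nat_lit 19) (nat_lit 4) (.e false (nat_lit 1) (nat_lit 138) (nat_lit 7) (nat_lit 9) (.e false (nat_lit 3) (nat_lit 305) (nat_lit 1) (nat_lit 15) (.e false (nat_lit 2) (nat_lit 306) (nat_lit 1) (nat_lit 15) (.e true (nat_lit 2) (nat_lit 307) (nat_lit 1) (nat_lit 15) (.e false (nat_lit 1) (nat_lit 308) (nat_lit 1) (nat_lit 15) (.e true (nat_lit 2) (nat_lit 309) (nat_lit 1) (nat_lit 15) (.e false (nat_lit 3) (nat_lit 310) (nat_lit 1) (nat_lit 15) (.e false (nat_lit 1) (nat_lit 311) (nat_lit 1) (nat_lit 15) (.e false (nat_lit 1) (nat_lit 312) (nat_lit 1) (nat_lit 15) (.e false (nat_lit 2) (nat_lit 313) (nat_lit 1) (nat_lit 15) (.e true (nat_lit 2) (nat_lit 314) (nat_lit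 1) (nat_lit 15) (.e true (nat_lit 1) (nat_lit 317) (nat_lit 1) (nat_lit 15) (.e false (nat_lit 1) (nat_lit 321) (nat_lit 1) (nat_lit 15) (.e true (nat_lit 1) (nat_lit 322) (nat_lit 1) (nat_lit 15) (.e true (nat_lit 2) (nat_lit 254) (nat_lit 2) (nat_lit 14) (.e false (nat_lit 2) (nat_lit 258) (nat_lit 2) (nat_lit 14) (.e true (nat_lit 1) (nat_lit 264) (nat_lit 2) (nat_lit 14) (.e false (nat_lit 3) (nat_lit 265) (nat_lit 2) (nat_lit 14) (.e false (nat_lit 1) (nat_lit 272) (nat_lit 2) (nat_lit 14) (.e false (nat_lit 2) (nat_lit 274) (nat_lit 2) (nat_lit 14) (.e false (nat_lit 1) (nat_lit 285) (nat_lit 2) (nat_lit 14) (.e false (nat_lit 1) (nat_lit 66) (nat_lit 20) (nat_lit 3) (.u (nat_lit 2) (.p (nat_lit 0) (nat_lit 1) (.p (nat_lit 1) (nat_lit 1) (.n (nat_lit 3) (nat_lit 1) (.n (nat_lit 5) (nat_lit 1) (.n (nat_lit 6) (nat_lit 1) (.p (nat_lit 8) (nat_lit 2) (.n (nat_lit 10) (nat_lit 1) (.p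 (nat_lit 12) (nat_lit 1) (.p (nat_lit 13) (nat_lit 2) (.p (nat_lit 14) (nat_lit 2) (.n (nat_lit 15) (nat_lit 1) (.n (nat_lit 16) (nat_lit 1) (.p (nat_lit 17) (nat_lit 2) (.n (nat_lit 19) (nat_lit 3) (.n (nat_lit 21) (nat_lit 1) (.p (nat_lit 23) (nat_lit 1) (.n (nat_lit 24) (nat_lit 1) (.p (nat_lit 25) (nat_lit 1) (.p (nat_lit 27) (nat_lit 1) (.p (nat_lit 34) (nat_lit 1) (.p (nat_lit 38) (nat_lit 1) (.n (nat_lit 210) (nat_lit 1) .z)))))))))))))))))))))) .nil)))))))))))))))))))))))))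

noncomputable def dC2c_i193 : IL := (.e false (nat_lit 3) (nat_lit 213) (nat_lit 2) (nat_lit 16) (.e true (nat_lit 2) (nat_lit 214) (nat_lit 2) (nat_lit 16) (.e true (nat_lit 1) (nat_lit 215) (nat_lit 2) (nat_lit 16) (.e true (nat_lit 1) (nat_lit 216) (nat_lit 2) (nat_lit 16) (.e true (nat_lit 3) (nat_lit 218) (nat_lit 2) (nat_lit 16) (.e false (nat_lit 2) (nat_lit 219) (nat_lit 2) (nat_lit 16) (.e true (nat_lit 2) (nat_lit 220) (nat_lit 2) (nat_lit 16) (.e false (nat_lit 2) (nat_lit 222) (nat_lit 2) (nat_lit 16) (.e false (nat_lit 2) (nat_lit 225) (nat_lit 2) (nat_lit 16) (.e true (nat_lit 2) (nat_lit 226) (nat_lit 2) (nat_lit 16) (.e false (nat_lit 2) (nat_lit 229) (nat_lit 2) (nat_lit 16) (.e false (nat_lit 2) (nat_lit 230) (nat_lit 2) (nat_lit 16) (.e false (nat_lit 3) (nat_lit 231) (nat_lit 2) (nat_lit 16) (.e true (nat_lit 2) (nat_lit 232) (nat_lit 2) (nat_lit 16) (.e false (nat_lit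 2) (nat_lit 239) (nat_lit 2) (nat_lit 16) (.e false (nat_lit 2) (nat_lit 243) (nat_lit 2) (nat_lit 16) (.e false (nat_lit 1) (nat_lit 245) (nat_lit 2) (nat_lit 16) (.e false (nat_lit 1) (nat_lit 246) (nat_lit 2) (nat_lit 16) (.e true (nat_lit 2) (nat_lit 247) (nat_lit 2) (nat_lit 16) (.e false (nat_lit 1) (nat_lit 248) (nat_lit 2) (nat_lit 16) (.e true (nat_lit 3) (nat_lit 249) (nat_lit 2) (nat_lit 16) (.e true (nat_lit 1) (nat_lit 250) (nat_lit 2) (nat_lit 16) (.e false (nat_lit 1) (nat_lit 251) (nat_lit 2) (nat_lit 16) (.e false (nat_lit 1) (nat_lit 267) (nat_lit 1) (nat_lit 17) (.u (nat_lit 2) (.n (nat_lit 0) (nat_lit 2) (.n (nat_lit 1) (nat_lit 3) (.p (nat_lit 2) (nat_lit 2) (.p (nat_lit 3) (nat_lit 5) (.n (nat_lit 4) (nat_lit 3) (.n (nat_lit 5) (nat_lit 1) (.p (nat_lit 7) (nat_lit 2) (.n (nat_lit 8) (nat_lit 3) (.n (nat_lit 9) (nat_lit 1) (.p (nat_lit 10) (nat_lit 1) (.n (nat_lit 11)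 (nat_lit 5) (.n (nat_lit 12) (nat_lit 1) (.p (nat_lit 15) (nat_lit 1) (.p (nat_lit 17) (nat_lit 1) (.p (nat_lit 19) (nat_lit 1) (.p (nat_lit 21) (nat_lit 1) (.n (nat_lit 22) (nat_lit 1) (.n (nat_lit 24) (nat_lit 2) (.p (nat_lit 25) (nat_lit 5) (.p (nat_lit 26) (nat_lit 2) (.p (nat_lit 27) (nat_lit 2) (.n (nat_lit 28) (nat_lit 2) (.p (nat_lit 29) (nat_lit 4) (.p (nat_lit 31) (nat_lit 1) (.p (nat_lit 32) (nat_lit 5) (.n (nat_lit 33) (nat_lit 4) (.p (nat_lit 34) (nat_lit 3) (.n (nat_lit 35) (nat_lit 1) (.n (nat_lit 36) (nat_lit 4) (.n (nat_lit 37) (nat_lit 2) (.p (nat_lit 38) (nat_lit 4) (.p (nat_lit 39) (nat_lit 6) (.n (nat_lit 40) (nat_lit 1) (.p (nat_lit 42) (nat_lit 1) (.n (nat_lit 44) (nat_lit 1) (.n (nat_lit 46) (nat_lit 3) (.p (nat_lit 47) (nat_lit 3) (.n (nat_lit 51) (nat_lit 1) (.n (nat_lit 55) (nat_lit 1) .z))))))))))))))))))))))))))))))))))))))) .nil)))))))))))))))))))))))))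

noncomputable def dC2c_i194 : IL := (.e false (nat_lit 2) (nat_lit 257) (nat_lit 2) (nat_lit 14) (.e false (nat_lit 2) (nat_lit 269) (nat_lit 2) (nat_lit 14) (.e false (nat_lit 3) (nat_lit 284) (nat_lit 2) (nat_lit 14) (.e false (nat_lit 1) (nat_lit 322) (nat_lit 1) (nat_lit 15) (.e false (nat_lit 2) (nat_lit 314) (nat_lit 1) (nat_lit 15) (.e false (nat_lit 3) (nat_lit 315) (nat_lit 1) (nat_lit 15) (.e true (nat_lit 1) (nat_lit 323) (nat_lit 1) (nat_lit 15) (.e true (nat_lit 1) (nat_lit 102) (nat_lit 11) (nat_lit 7) (.e true (nat_lit 1) (nat_lit 104) (nat_lit 11) (nat_lit 7) (.e false (nat_lit 1) (nat_lit 48) (nat_lit 24) (nat_lit 2) (.e true (nat_lit 2) (nat_lit 305) (nat_lit 1) (nat_lit 15) (.e false (nat_lit 2) (nat_lit 306) (nat_lit 1) (nat_lit 15) (.e true (nat_lit 2) (nat_lit 307) (nat_lit 1) (nat_lit 15) (.e false (nat_lit 3) (nat_lit 308) (nat_lit 1) (nat_lit 15) (.e true (nat_lit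 1) (nat_lit 309) (nat_lit 1) (nat_lit 15) (.e true (nat_lit 3) (nat_lit 310) (nat_lit 1) (nat_lit 15) (.e true (nat_lit 3) (nat_lit 311) (nat_lit 1) (nat_lit 15) (.e true (nat_lit 3) (nat_lit 312) (nat_lit 1) (nat_lit 15) (.e true (nat_lit 3) (nat_lit 321) (nat_lit 1) (nat_lit 15) (.e false (nat_lit 1) (nat_lit 105) (nat_lit 8) (nat_lit 8) (.e true (nat_lit 1) (nat_lit 48) (nat_lit 26) (nat_lit 2) (.e true (nat_lit 3) (nat_lit 146) (nat_lit 7) (nat_lit 9) (.e false (nat_lit 3) (nat_lit 80) (nat_lit 19) (nat_lit 4) (.u (nat_lit 2) (.p (nat_lit 0) (nat_lit 2) (.p (nat_lit 2) (nat_lit 1) (.p (nat_lit 3) (nat_lit 2) (.n (nat_lit 4) (nat_lit 1) (.p (nat_lit 5) (nat_lit 1) (.p (nat_lit 6) (nat_lit 1) (.n (nat_lit 7) (nat_lit 1) (.n (nat_lit 8) (nat_lit 1) (.n (nat_lit 9) (nat_lit 1) (.p (nat_lit 10) (nat_lit 1) (.p (nat_lit 11) (nat_lit 2) (.n (nat_lit 12) (nat_lit 2) (.p (nat_lit 13) (nat_lit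 3) (.p (nat_lit 14) (nat_lit 2) (.p (nat_lit 15) (nat_lit 4) (.p (nat_lit 16) (nat_lit 4) (.n (nat_lit 17) (nat_lit 6) (.n (nat_lit 18) (nat_lit 5) (.n (nat_lit 19) (nat_lit 2) (.p (nat_lit 21) (nat_lit 2) (.n (nat_lit 24) (nat_lit 1) (.p (nat_lit 26) (nat_lit 1) (.p (nat_lit 29) (nat_lit 1) (.n (nat_lit 30) (nat_lit 1) (.n (nat_lit 31) (nat_lit 1) (.p (nat_lit 34) (nat_lit 2) (.p (nat_lit 35) (nat_lit 1) (.p (nat_lit 38) (nat_lit 1) (.n (nat_lit 52) (nat_lit 1) (.p (nat_lit 73) (nat_lit 1) (.n (nat_lit 75) (nat_lit 1) (.p (nat_lit 78) (nat_lit 1) (.n (nat_lit 80) (nat_lit 1) (.n (nat_lit 84) (nat_lit 1) (.p (nat_lit 133) (nat_lit 1) (.p (nat_lit 135) (nat_lit 1) (.p (nat_lit 139) (nat_lit 1) (.p (nat_lit 145) (nat_lit 2) (.p (nat_lit 157) (nat_lit 1) (.p (nat_lit 165) (nat_lit 1) (.p (nat_lit 182) (nat_lit 1) (.n (nat_lit 204) (nat_lit 4) (.p (nat_lit 205) (nat_lit 3) (.n (nat_lit 206)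 (nat_lit 4) (.n (nat_lit 209) (nat_lit 1) (.p (nat_lit 210) (nat_lit 1) (.p (nat_lit 212) (nat_lit 1) (.p (nat_lit 213) (nat_lit 3) (.p (nat_lit 214) (nat_lit 1) (.n (nat_lit 215) (nat_lit 1) (.p (nat_lit 217) (nat_lit 3) (.p (nat_lit 218) (nat_lit 6) (.n (nat_lit 221) (nat_lit 3) (.p (nat_lit 223) (nat_lit 1) (.n (nat_lit 224) (nat_lit 1) (.p (nat_lit 225) (nat_lit 5) (.p (nat_lit 226) (nat_lit 4) (.p (nat_lit 227) (nat_lit 3) (.n (nat_lit 228) (nat_lit 1) (.n (nat_lit 230) (nat_lit 2) .z)))))))))))))))))))))))))))))))))))))))))))))))))))))))))))) (.u (nat_lit 2) (.n (nat_lit 231) (nat_lit 2) (.n (nat_lit 235) (nat_lit 2) (.p (nat_lit 236) (nat_lit 1) (.p (nat_lit 237) (nat_lit 1) (.n (nat_lit 240) (nat_lit 2) (.p (nat_lit 241) (nat_lit 2) (.p (nat_lit 242) (nat_lit 1) (.n (nat_lit 243) (nat_lit 1) (.n (nat_lit 245) (nat_lit 1) (.p (nat_lit 246) (nat_lit 2) (.p (nat_lit 247) (nat_lit 1)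 (.p (nat_lit 248) (nat_lit 1) (.n (nat_lit 250) (nat_lit 1) (.n (nat_lit 253) (nat_lit 2) (.n (nat_lit 254) (nat_lit 1) (.p (nat_lit 257) (nat_lit 1) (.p (nat_lit 259) (nat_lit 1) .z))))))))))))))))) .nil)))))))))))))))))))))))))

noncomputable def dC2c_i195 : IL := (.s true (nat_lit 3) (nat_lit 80) (nat_lit 2) (nat_lit 1) (nat_lit 2) true (nat_lit 9) true (nat_lit 14) false (nat_lit 4) true (nat_lit 14) true (nat_lit 15) (.s true (nat_lit 3) (nat_lit 80) (nat_lit 2) (nat_lit 2) (nat_lit 1) true (nat_lit 10) true (nat_lit 15) false (nat_lit 4) true (nat_lit 14) true (nat_lit 14) (.s false (nat_lit 3) (nat_lit 90) (nat_lit 2) (nat_lit 2) (nat_lit 1) true (nat_lit 10) true (nat_lit 15) false (nat_lit 4) true (nat_lit 14) true (nat_lit 14) (.e true (nat_lit 3) (nat_lit 66) (nat_lit 20) (nat_lit 3) (.e false (nat_lit 3) (nat_lit 72) (nat_lit 20) (nat_lit 3) (.e false (nat_lit 1) (nat_lit 135)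 (nat_lit 7) (nat_lit 9) (.e false (nat_lit 3) (nat_lit 138) (nat_lit 7) (nat_lit 9) (.e true (nat_lit 3) (nat_lit 144) (nat_lit 7) (nat_lit 9) (.e true (nat_lit 3) (nat_lit 254) (nat_lit 2) (nat_lit 14) (.e false (nat_lit 3) (nat_lit 255) (nat_lit 2) (nat_lit 14) (.e false (nat_lit 2) (nat_lit 258) (nat_lit 2) (nat_lit 14) (.e true (nat_lit 3) (nat_lit 263) (nat_lit 2) (nat_lit 14) (.e true (nat_lit 2) (nat_lit 264) (nat_lit 2) (nat_lit 14) (.e true (nat_lit 3) (nat_lit 265) (nat_lit 2) (nat_lit 14) (.e true (nat_lit 1) (nat_lit 267) (nat_lit 2) (nat_lit 14) (.e true (nat_lit 2) (nat_lit 270) (nat_lit 2) (nat_lit 14) (.e false (nat_lit 3) (nat_lit 274) (nat_lit 2) (nat_lit 14) (.e true (nat_lit 3) (nat_lit 272) (nat_lit 2) (nat_lit 14) (.e false (nat_lit 3) (nat_lit 253) (nat_lit 2) (nat_lit 14) (.e false (nat_lit 2) (nat_lit 262) (nat_lit 2) (nat_lit 14) (.e true (nat_lit 1) (nat_lit 266)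 (nat_lit 2) (nat_lit 14) (.e true (nat_lit 2) (nat_lit 273) (nat_lit 2) (nat_lit 14) (.e true (nat_lit 1) (nat_lit 277) (nat_lit 2) (nat_lit 14) (.e false (nat_lit 1) (nat_lit 283) (nat_lit 2) (nat_lit 14) (.e false (nat_lit 1) (nat_lit 285) (nat_lit 2) (nat_lit 14) dC2c_i194)))))))))))))))))))))))))

noncomputable def dC2c_i196 : IL := (.e true (nat_lit 2) (nat_lit 292) (nat_lit 0) (nat_lit 18) (.e false (nat_lit 1) (nat_lit 294) (nat_lit 0) (nat_lit 18) (.e false (nat_lit 1) (nat_lit 300) (nat_lit 0) (nat_lit 18) (.e true (nat_lit 1) (nat_lit 132) (nat_lit 6) (nat_lit 12) (.e false (nat_lit 2) (nat_lit 133) (nat_lit 6) (nat_lit 12) (.e false (nat_lit 3) (nat_lit 134) (nat_lit 6) (nat_lit 12) (.e false (nat_lit 3) (nat_lit 135) (nat_lit 6) (nat_lit 12) (.e true (nat_lit 1) (nat_lit 137) (nat_lit 6) (nat_lit 12) (.e true (nat_lit 1) (nat_lit 138) (nat_lit 6) (nat_lit 12) (.e true (nat_lit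 1) (nat_lit 139) (nat_lit 6) (nat_lit 12) (.e false (nat_lit 1) (nat_lit 140) (nat_lit 6) (nat_lit 12) (.e false (nat_lit 1) (nat_lit 141) (nat_lit 6) (nat_lit 12) (.e true (nat_lit 1) (nat_lit 142) (nat_lit 6) (nat_lit 12) (.e false (nat_lit 1) (nat_lit 144) (nat_lit 6) (nat_lit 12) (.e true (nat_lit 2) (nat_lit 147) (nat_lit 6) (nat_lit 12) (.e false (nat_lit 1) (nat_lit 149) (nat_lit 6) (nat_lit 12) (.e true (nat_lit 2) (nat_lit 150) (nat_lit 6) (nat_lit 12) (.e true (nat_lit 2) (nat_lit 151) (nat_lit 6) (nat_lit 12) (.e true (nat_lit 1) (nat_lit 153) (nat_lit 6) (nat_lit 12) (.e true (nat_lit 3) (nat_lit 155) (nat_lit 6) (nat_lit 12) (.e false (nat_lit 2) (nat_lit 156) (nat_lit 6) (nat_lit 12) (.e false (nat_lit 3) (nat_lit 136) (nat_lit 6) (nat_lit 12) (.e true (nat_lit 1) (nat_lit 152) (nat_lit 6) (nat_lit 12) (.u (nat_lit 2) (.n (nat_lit 0) (nat_lit 1) (.p (nat_lit 1) (nat_lit 5)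 (.n (nat_lit 2) (nat_lit 9) (.n (nat_lit 3) (nat_lit 1) (.p (nat_lit 4) (nat_lit 5) (.p (nat_lit 5) (nat_lit 3) (.n (nat_lit 6) (nat_lit 2) (.n (nat_lit 7) (nat_lit 3) (.p (nat_lit 8) (nat_lit 4) (.p (nat_lit 9) (nat_lit 5) (.n (nat_lit 10) (nat_lit 3) (.p (nat_lit 11) (nat_lit 5) (.n (nat_lit 12) (nat_lit 2) (.p (nat_lit 13) (nat_lit 2) (.n (nat_lit 14) (nat_lit 1) (.n (nat_lit 15) (nat_lit 4) (.n (nat_lit 17) (nat_lit 2) (.n (nat_lit 18) (nat_lit 5) (.p (nat_lit 20) (nat_lit 4) (.n (nat_lit 21) (nat_lit 1) (.n (nat_lit 23) (nat_lit 2) (.p (nat_lit 24) (nat_lit 1) (.n (nat_lit 25) (nat_lit 3) (.n (nat_lit 26) (nat_lit 1) (.p (nat_lit 27) (nat_lit 3) (.n (nat_lit 28) (nat_lit 2) (.p (nat_lit 30) (nat_lit 2) (.p (nat_lit 31) (nat_lit 1) (.p (nat_lit 32) (nat_lit 4) (.n (nat_lit 33) (nat_lit 5) (.p (nat_lit 34) (nat_lit 4) (.p (nat_lit 37) (nat_lit 1) (.p (nat_lit 39) (nat_lit 2) (.n (nat_lit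 41) (nat_lit 1) (.p (nat_lit 43) (nat_lit 2) (.n (nat_lit 45) (nat_lit 2) (.n (nat_lit 46) (nat_lit 2) (.n (nat_lit 47) (nat_lit 6) (.n (nat_lit 48) (nat_lit 1) (.p (nat_lit 49) (nat_lit 1) (.n (nat_lit 50) (nat_lit 3) (.n (nat_lit 51) (nat_lit 3) (.n (nat_lit 52) (nat_lit 1) (.p (nat_lit 53) (nat_lit 2) (.n (nat_lit 55) (nat_lit 1) (.p (nat_lit 57) (nat_lit 1) (.n (nat_lit 58) (nat_lit 2) (.p (nat_lit 61) (nat_lit 1) (.p (nat_lit 239) (nat_lit 1) (.p (nat_lit 240) (nat_lit 1) (.n (nat_lit 242) (nat_lit 3) (.n (nat_lit 244) (nat_lit 2) (.n (nat_lit 245) (nat_lit 2) (.p (nat_lit 246) (nat_lit 1) (.n (nat_lit 247) (nat_lit 1) (.p (nat_lit 248) (nat_lit 2) (.p (nat_lit 249) (nat_lit 1) (.p (nat_lit 250) (nat_lit 3) (.p (nat_lit 251) (nat_lit 2) (.p (nat_lit 254) (nat_lit 2) .z)))))))))))))))))))))))))))))))))))))))))))))))))))))))))))) (.u (nat_lit 2) (.p (nat_lit 255) (nat_lit 1) (.n (nat_lit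 256) (nat_lit 4) (.p (nat_lit 257) (nat_lit 5) (.p (nat_lit 258) (nat_lit 2) (.p (nat_lit 259) (nat_lit 1) (.p (nat_lit 260) (nat_lit 4) (.p (nat_lit 262) (nat_lit 3) (.n (nat_lit 263) (nat_lit 2) (.n (nat_lit 264) (nat_lit 3) (.n (nat_lit 386) (nat_lit 2) (.p (nat_lit 388) (nat_lit 5) (.n (nat_lit 389) (nat_lit 1) (.n (nat_lit 391) (nat_lit 1) (.p (nat_lit 393) (nat_lit 2) (.p (nat_lit 394) (nat_lit 3) (.p (nat_lit 395) (nat_lit 1) (.n (nat_lit 397) (nat_lit 1) (.p (nat_lit 399) (nat_lit 1) (.n (nat_lit 400) (nat_lit 3) (.p (nat_lit 401) (nat_lit 3) .z)))))))))))))))))))) .nil)))))))))))))))))))))))))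

noncomputable def dC2c_i197 : IL := (.e true (nat_lit 1) (nat_lit 257) (nat_lit 2) (nat_lit 14) (.e true (nat_lit 3) (nat_lit 258) (nat_lit 2) (nat_lit 14) (.e false (nat_lit 2) (nat_lit 259) (nat_lit 2) (nat_lit 14) (.e true (nat_lit 2) (nat_lit 260) (nat_lit 2) (nat_lit 14) (.e true (nat_lit 1) (nat_lit 261) (nat_lit 2) (nat_lit 14) (.e true (nat_lit 1) (nat_lit 262) (nat_lit 2) (nat_lit 14) (.e false (nat_lit 1) (nat_lit 263) (nat_lit 2) (nat_lit 14) (.e false (nat_lit 2) (nat_lit 264) (nat_lit 2) (nat_lit 14) (.e true (nat_lit 2) (nat_lit 266) (nat_lit 2) (nat_lit 14) (.e false (nat_lit 1) (nat_lit 268) (nat_lit 2) (nat_lit 14) (.e true (nat_lit 2) (nat_lit 269) (nat_lit 2) (nat_lit 14) (.e false (nat_lit 3) (nat_lit 270) (nat_lit 2) (nat_lit 14) (.e false (nat_lit 3) (nat_lit 271) (nat_lit 2) (nat_lit 14) (.e true (nat_lit 1) (nat_lit 272) (nat_lit 2) (nat_lit 14) (.e false (nat_lit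 3) (nat_lit 273) (nat_lit 2) (nat_lit 14) (.e true (nat_lit 3) (nat_lit 274) (nat_lit 2) (nat_lit 14) (.e false (nat_lit 1) (nat_lit 275) (nat_lit 2) (nat_lit 14) (.e true (nat_lit 3) (nat_lit 276) (nat_lit 2) (nat_lit 14) (.e true (nat_lit 3) (nat_lit 277) (nat_lit 2) (nat_lit 14) (.e true (nat_lit 1) (nat_lit 279) (nat_lit 2) (nat_lit 14) (.e false (nat_lit 1) (nat_lit 283) (nat_lit 2) (nat_lit 14) (.e true (nat_lit 1) (nat_lit 285) (nat_lit 2) (nat_lit 14) (.e false (nat_lit 1) (nat_lit 288) (nat_lit 2) (nat_lit 14) (.e false (nat_lit 1) (nat_lit 308) (nat_lit 1) (nat_lit 15) (.u (nat_lit 2) (.n (nat_lit 0) (nat_lit 1) (.n (nat_lit 1) (nat_lit 2) (.n (nat_lit 2) (nat_lit 2) (.p (nat_lit 3) (nat_lit 3) (.p (nat_lit 4) (nat_lit 1) (.p (nat_lit 5) (nat_lit 2) (.n (nat_lit 6) (nat_lit 2) (.p (nat_lit 7) (nat_lit 4) (.n (nat_lit 8) (nat_lit 3) (.n (nat_lit 9) (nat_lit 1) (.n (nat_lit 11)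 (nat_lit 1) (.p (nat_lit 12) (nat_lit 1) (.n (nat_lit 13) (nat_lit 1) (.n (nat_lit 14) (nat_lit 2) (.p (nat_lit 15) (nat_lit 3) (.p (nat_lit 16) (nat_lit 3) (.n (nat_lit 17) (nat_lit 2) (.p (nat_lit 18) (nat_lit 4) (.p (nat_lit 19) (nat_lit 3) (.n (nat_lit 21) (nat_lit 4) (.p (nat_lit 23) (nat_lit 2) (.p (nat_lit 24) (nat_lit 1) (.n (nat_lit 25) (nat_lit 2) (.p (nat_lit 27) (nat_lit 1) (.n (nat_lit 29) (nat_lit 1) (.p (nat_lit 31) (nat_lit 1) (.p (nat_lit 34) (nat_lit 2) (.n (nat_lit 35) (nat_lit 1) (.p (nat_lit 38) (nat_lit 1) .z))))))))))))))))))))))))))))) .nil)))))))))))))))))))))))))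

noncomputable def dC2c_i198 : IL := (.e false (nat_lit 2) (nat_lit 25) (nat_lit 18) (nat_lit 1) (.e true (nat_lit 2) (nat_lit 27) (nat_lit 18) (nat_lit 1) (.e true (nat_lit 2) (nat_lit 61) (nat_lit 6) (nat_lit 8) (.e false (nat_lit 2) (nat_lit 63) (nat_lit 6) (nat_lit 8) (.e false (nat_lit 2) (nat_lit 72) (nat_lit 6) (nat_lit 8) (.e true (nat_lit 2) (nat_lit 122) (nat_lit 2) (nat_lit 12) (.e true (nat_lit 1) (nat_lit 109) (nat_lit 2) (nat_lit 12) (.e false (nat_lit 2) (nat_lit 114) (nat_lit 2) (nat_lit 12) (.e true (nat_lit 1) (nat_lit 116) (nat_lit 2) (nat_lit 12) (.e true (nat_lit 1) (nat_lit 126) (nat_lit 2) (nat_lit 12) (.e false (nat_lit 1) (nat_lit 138) (nat_lit 1) (nat_lit 13) (.e false (nat_lit 2) (nat_lit 145) (nat_lit 1) (nat_lit 13) (.e true (nat_lit 2) (nat_lit 146) (nat_lit 1) (nat_lit 13) (.e true (nat_lit 3) (nat_lit 154) (nat_lit 1) (nat_lit 13) (.e false (nat_lit 1) (nat_lit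 106) (nat_lit 2) (nat_lit 12) (.e false (nat_lit 1) (nat_lit 134) (nat_lit 1) (nat_lit 13) (.e true (nat_lit 2) (nat_lit 132) (nat_lit 1) (nat_lit 13) (.e true (nat_lit 2) (nat_lit 133) (nat_lit 1) (nat_lit 13) (.e false (nat_lit 2) (nat_lit 135) (nat_lit 1) (nat_lit 13) (.e true (nat_lit 2) (nat_lit 137) (nat_lit 1) (nat_lit 13) (.e false (nat_lit 2) (nat_lit 152) (nat_lit 1) (nat_lit 13) (.e false (nat_lit 2) (nat_lit 153) (nat_lit 1) (nat_lit 13) (.e true (nat_lit 2) (nat_lit 155) (nat_lit 1) (nat_lit 13) (.e true (nat_lit 2) (nat_lit 157) (nat_lit 1) (nat_lit 13) (.u (nat_lit 2) (.n (nat_lit 0) (nat_lit 2) (.n (nat_lit 1) (nat_lit 1) (.n (nat_lit 2) (nat_lit 1) (.n (nat_lit 3) (nat_lit 2) (.p (nat_lit 6) (nat_lit 2) (.n (nat_lit 8) (nat_lit 2) (.n (nat_lit 10) (nat_lit 2) (.p (nat_lit 14) (nat_lit 2) (.p (nat_lit 16) (nat_lit 2) (.p (nat_lit 20) (nat_lit 2) (.p (nat_lit 22) (nat_lit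 3) (.p (nat_lit 23) (nat_lit 1) (.n (nat_lit 28) (nat_lit 1) (.p (nat_lit 30) (nat_lit 1) (.n (nat_lit 40) (nat_lit 2) (.n (nat_lit 41) (nat_lit 1) (.n (nat_lit 42) (nat_lit 1) (.p (nat_lit 43) (nat_lit 2) (.p (nat_lit 46) (nat_lit 2) (.n (nat_lit 147) (nat_lit 1) (.n (nat_lit 148) (nat_lit 1) (.n (nat_lit 149) (nat_lit 1) (.p (nat_lit 150) (nat_lit 1) (.p (nat_lit 152) (nat_lit 1) (.n (nat_lit 154) (nat_lit 1) (.p (nat_lit 159) (nat_lit 1) (.n (nat_lit 162) (nat_lit 2) (.p (nat_lit 163) (nat_lit 1) (.n (nat_lit 166) (nat_lit 1) (.n (nat_lit 167) (nat_lit 1) (.n (nat_lit 171) (nat_lit 2) (.n (nat_lit 185) (nat_lit 1) (.p (nat_lit 194) (nat_lit 1) .z))))))))))))))))))))))))))))))))) .nil)))))))))))))))))))))))))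

noncomputable def dC2c_i199 : IL := (.e true (nat_lit 3) (nat_lit 274) (nat_lit 1) (nat_lit 17) (.e false (nat_lit 3) (nat_lit 275) (nat_lit 1) (nat_lit 17) (.e false (nat_lit 3) (nat_lit 277) (nat_lit 1) (nat_lit 17) (.e true (nat_lit 3) (nat_lit 283) (nat_lit 1) (nat_lit 17) (.e false (nat_lit 3) (nat_lit 285) (nat_lit 1) (nat_lit 17) (.e true (nat_lit 3) (nat_lit 258) (nat_lit 1) (nat_lit 17) (.e false (nat_lit 2) (nat_lit 271) (nat_lit 1) (nat_lit 17) (.e false (nat_lit 3) (nat_lit 273) (nat_lit 1) (nat_lit 17) (.e true (nat_lit 2) (nat_lit 276) (nat_lit 1) (nat_lit 17) (.e false (nat_lit 2) (nat_lit 266) (nat_lit 1) (nat_lit 17) (.e true (nat_lit 1) (nat_lit 253) (nat_lit 1) (nat_lit 17) (.e true (nat_lit 1) (nat_lit 53) (nat_lit 20) (nat_lit 4) (.e true (nat_lit 1) (nat_lit 54) (nat_lit 20) (nat_lit 4) (.e false (nat_lit 1) (nat_lit 55) (nat_lit 20) (nat_lit 4) (.e true (nat_lit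 1) (nat_lit 57) (nat_lit 20) (nat_lit 4) (.e true (nat_lit 1) (nat_lit 185) (nat_lit 3) (nat_lit 15) (.e false (nat_lit 2) (nat_lit 186) (nat_lit 3) (nat_lit 15) (.e false (nat_lit 2) (nat_lit 190) (nat_lit 3) (nat_lit 15) (.e true (nat_lit 1) (nat_lit 193) (nat_lit 3) (nat_lit 15) (.e true (nat_lit 1) (nat_lit 194) (nat_lit 3) (nat_lit 15) (.e false (nat_lit 2) (nat_lit 134) (nat_lit 6) (nat_lit 12) (.e true (nat_lit 2) (nat_lit 138) (nat_lit 6) (nat_lit 12) (.e false (nat_lit 1) (nat_lit 144) (nat_lit 6) (nat_lit 12) (.e true (nat_lit 1) (nat_lit 157) (nat_lit 6) (nat_lit 12) (.u (nat_lit 2) (.p (nat_lit 0) (nat_lit 1) (.n (nat_lit 1) (nat_lit 1) (.n (nat_lit 2) (nat_lit 2) (.n (nat_lit 3) (nat_lit 1) (.p (nat_lit 4) (nat_lit 3) (.n (nat_lit 5) (nat_lit 1) (.p (nat_lit 6) (nat_lit 1) (.n (nat_lit 7) (nat_lit 1) (.n (nat_lit 8) (nat_lit 1) (.p (nat_lit 11) (nat_lit 2) (.p (nat_lit 12)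 (nat_lit 1) (.n (nat_lit 14) (nat_lit 1) (.n (nat_lit 15) (nat_lit 4) (.n (nat_lit 16) (nat_lit 1) (.n (nat_lit 18) (nat_lit 1) (.p (nat_lit 19) (nat_lit 1) (.p (nat_lit 20) (nat_lit 3) (.p (nat_lit 23) (nat_lit 4) (.n (nat_lit 24) (nat_lit 1) (.n (nat_lit 26) (nat_lit 2) (.p (nat_lit 28) (nat_lit 1) (.p (nat_lit 29) (nat_lit 1) (.p (nat_lit 31) (nat_lit 1) (.n (nat_lit 32) (nat_lit 1) (.p (nat_lit 33) (nat_lit 1) (.n (nat_lit 34) (nat_lit 1) (.p (nat_lit 36) (nat_lit 2) (.n (nat_lit 38) (nat_lit 2) (.p (nat_lit 39) (nat_lit 2) (.p (nat_lit 44) (nat_lit 1) (.n (nat_lit 45) (nat_lit 2) (.n (nat_lit 46) (nat_lit 3) (.p (nat_lit 48) (nat_lit 1) (.p (nat_lit 55) (nat_lit 1) (.p (nat_lit 56) (nat_lit 1) (.n (nat_lit 349) (nat_lit 1) (.n (nat_lit 351) (nat_lit 1) (.p (nat_lit 353) (nat_lit 1) (.n (nat_lit 354) (nat_lit 1) (.p (nat_lit 356) (nat_lit 1) (.n (nat_lit 357) (nat_lit 1) (.p (nat_lit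 360) (nat_lit 1) (.n (nat_lit 363) (nat_lit 1) (.p (nat_lit 364) (nat_lit 1) (.p (nat_lit 369) (nat_lit 1) (.n (nat_lit 372) (nat_lit 1) (.n (nat_lit 374) (nat_lit 1) (.p (nat_lit 380) (nat_lit 1) (.n (nat_lit 382) (nat_lit 1) .z))))))))))))))))))))))))))))))))))))))))))))))))) .nil)))))))))))))))))))))))))

noncomputable def dC2c_i200 : IL := (.e true (nat_lit 1) (nat_lit 61) (nat_lit 6) (nat_lit 8) (.e true (nat_lit 3) (nat_lit 63) (nat_lit 6) (nat_lit 8) (.e true (nat_lit 1) (nat_lit 66) (nat_lit 6) (nat_lit 8) (.e false (nat_lit 1) (nat_lit 72) (nat_lit 6) (nat_lit 8) (.e false (nat_lit 2) (nat_lit 133) (nat_lit 1) (nat_lit 13) (.e true (nat_lit 1) (nat_lit 139) (nat_lit 1) (nat_lit 13) (.e true (nat_lit 2) (nat_lit 147) (nat_lit 1) (nat_lit 13) (.e true (nat_lit 1) (nat_lit 107) (nat_lit 2) (nat_lit 12) (.e true (nat_lit 2) (nat_lit 119) (nat_lit 2) (nat_lit 12) (.e true (nat_lit 1)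 (nat_lit 128) (nat_lit 2) (nat_lit 12) (.e true (nat_lit 3) (nat_lit 34) (nat_lit 15) (nat_lit 3) (.e true (nat_lit 3) (nat_lit 109) (nat_lit 2) (nat_lit 12) (.e true (nat_lit 3) (nat_lit 111) (nat_lit 2) (nat_lit 12) (.e false (nat_lit 1) (nat_lit 64) (nat_lit 6) (nat_lit 8) (.e false (nat_lit 3) (nat_lit 132) (nat_lit 1) (nat_lit 13) (.e false (nat_lit 1) (nat_lit 136) (nat_lit 1) (nat_lit 13) (.e false (nat_lit 1) (nat_lit 142) (nat_lit 1) (nat_lit 13) (.e true (nat_lit 2) (nat_lit 149) (nat_lit 1) (nat_lit 13) (.e false (nat_lit 3) (nat_lit 151) (nat_lit 1) (nat_lit 13) (.e false (nat_lit 2) (nat_lit 152) (nat_lit 1) (nat_lit 13) (.e false (nat_lit 2) (nat_lit 153) (nat_lit 1) (nat_lit 13) (.e false (nat_lit 2) (nat_lit 154) (nat_lit 1) (nat_lit 13) (.e true (nat_lit 3) (nat_lit 156) (nat_lit 1) (nat_lit 13) (.e true (nat_lit 2) (nat_lit 157) (nat_lit 1) (nat_lit 13) (.u (nat_lit 2)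 (.p (nat_lit 2) (nat_lit 1) (.n (nat_lit 3) (nat_lit 4) (.p (nat_lit 4) (nat_lit 1) (.n (nat_lit 7) (nat_lit 2) (.n (nat_lit 8) (nat_lit 2) (.p (nat_lit 9) (nat_lit 2) (.n (nat_lit 10) (nat_lit 2) (.n (nat_lit 11) (nat_lit 3) (.n (nat_lit 12) (nat_lit 1) (.n (nat_lit 15) (nat_lit 1) (.n (nat_lit 16) (nat_lit 1) (.p (nat_lit 17) (nat_lit 3) (.n (nat_lit 20) (nat_lit 1) (.n (nat_lit 21) (nat_lit 3) (.p (nat_lit 22) (nat_lit 1) (.n (nat_lit 23) (nat_lit 2) (.p (nat_lit 26) (nat_lit 1) (.n (nat_lit 27) (nat_lit 3) (.p (nat_lit 30) (nat_lit 1) (.n (nat_lit 34) (nat_lit 1) (.n (nat_lit 37) (nat_lit 2) (.p (nat_lit 42) (nat_lit 1) (.n (nat_lit 43) (nat_lit 4) (.p (nat_lit 44) (nat_lit 1) (.p (nat_lit 45) (nat_lit 1) (.n (nat_lit 46) (nat_lit 2) (.p (nat_lit 110) (nat_lit 1) (.p (nat_lit 115) (nat_lit 1) (.n (nat_lit 117) (nat_lit 1) (.n (nat_lit 121) (nat_lit 1) (.p (nat_lit 146) (nat_lit 1) (.n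 (nat_lit 147) (nat_lit 2) (.n (nat_lit 148) (nat_lit 3) (.p (nat_lit 150) (nat_lit 2) (.p (nat_lit 152) (nat_lit 1) (.n (nat_lit 153) (nat_lit 2) (.n (nat_lit 154) (nat_lit 1) (.p (nat_lit 155) (nat_lit 2) (.n (nat_lit 156) (nat_lit 2) (.n (nat_lit 157) (nat_lit 1) (.p (nat_lit 159) (nat_lit 2) (.n (nat_lit 162) (nat_lit 3) (.p (nat_lit 163) (nat_lit 2) (.p (nat_lit 164) (nat_lit 1) (.n (nat_lit 166) (nat_lit 1) (.n (nat_lit 167) (nat_lit 2) (.p (nat_lit 168) (nat_lit 1) (.n (nat_lit 170) (nat_lit 2) (.n (nat_lit 171) (nat_lit 2) (.p (nat_lit 179) (nat_lit 1) (.p (nat_lit 184) (nat_lit 1) (.p (nat_lit 190) (nat_lit 1) .z)))))))))))))))))))))))))))))))))))))))))))))))))))) .nil)))))))))))))))))))))))))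

noncomputable def dC2c_i201 : IL := (.e false (nat_lit 1) (nat_lit 219) (nat_lit 2) (nat_lit 16) (.e true (nat_lit 3) (nat_lit 220) (nat_lit 2) (nat_lit 16) (.e false (nat_lit 2) (nat_lit 221) (nat_lit 2) (nat_lit 16) (.e true (nat_lit 2) (nat_lit 222) (nat_lit 2) (nat_lit 16) (.e true (nat_lit 2) (nat_lit 225) (nat_lit 2) (nat_lit 16) (.e false (nat_lit 2) (nat_lit 226) (nat_lit 2) (nat_lit 16) (.e false (nat_lit 1) (nat_lit 227) (nat_lit 2) (nat_lit 16) (.e true (nat_lit 3) (nat_lit 228) (nat_lit 2) (nat_lit 16) (.e false (nat_lit 1) (nat_lit 230) (nat_lit 2) (nat_lit 16) (.e false (nat_lit 1) (nat_lit 231) (nat_lit 2) (nat_lit 16) (.e true (nat_lit 3) (nat_lit 232) (nat_lit 2) (nat_lit 16) (.e false (nat_lit 2) (nat_lit 234) (nat_lit 2) (nat_lit 16) (.e true (nat_lit 3) (nat_lit 239) (nat_lit 2) (nat_lit 16) (.e true (nat_lit 2) (nat_lit 242) (nat_lit 2) (nat_lit 16) (.e true (nat_lit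 3) (nat_lit 243) (nat_lit 2) (nat_lit 16) (.e true (nat_lit 1) (nat_lit 244) (nat_lit 2) (nat_lit 16) (.e true (nat_lit 2) (nat_lit 245) (nat_lit 2) (nat_lit 16) (.e false (nat_lit 1) (nat_lit 246) (nat_lit 2) (nat_lit 16) (.e true (nat_lit 2) (nat_lit 247) (nat_lit 2) (nat_lit 16) (.e true (nat_lit 2) (nat_lit 248) (nat_lit 2) (nat_lit 16) (.e true (nat_lit 3) (nat_lit 249) (nat_lit 2) (nat_lit 16) (.e true (nat_lit 3) (nat_lit 250) (nat_lit 2) (nat_lit 16) (.e true (nat_lit 1) (nat_lit 251) (nat_lit 2) (nat_lit 16) (.e false (nat_lit 1) (nat_lit 270) (nat_lit 1) (nat_lit 17) (.u (nat_lit 2) (.p (nat_lit 2) (nat_lit 4) (.p (nat_lit 3) (nat_lit 4) (.n (nat_lit 4) (nat_lit 2) (.n (nat_lit 5) (nat_lit 2) (.p (nat_lit 6) (nat_lit 5) (.p (nat_lit 7) (nat_lit 5) (.n (nat_lit 8) (nat_lit 9) (.p (nat_lit 9) (nat_lit 1) (.p (nat_lit 10) (nat_lit 1) (.n (nat_lit 11) (nat_lit 4) (.p (nat_lit 12)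 (nat_lit 4) (.p (nat_lit 14) (nat_lit 3) (.n (nat_lit 15) (nat_lit 4) (.p (nat_lit 16) (nat_lit 9) (.n (nat_lit 17) (nat_lit 3) (.n (nat_lit 19) (nat_lit 2) (.n (nat_lit 20) (nat_lit 1) (.n (nat_lit 21) (nat_lit 8) (.p (nat_lit 22) (nat_lit 8) (.p (nat_lit 23) (nat_lit 2) (.p (nat_lit 24) (nat_lit 1) (.n (nat_lit 25) (nat_lit 1) (.p (nat_lit 26) (nat_lit 4) (.p (nat_lit 28) (nat_lit 1) (.p (nat_lit 29) (nat_lit 1) (.n (nat_lit 31) (nat_lit 4) (.p (nat_lit 32) (nat_lit 3) (.n (nat_lit 33) (nat_lit 1) (.p (nat_lit 34) (nat_lit 1) (.n (nat_lit 37) (nat_lit 2) (.p (nat_lit 38) (nat_lit 1) (.p (nat_lit 39) (nat_lit 2) (.n (nat_lit 40) (nat_lit 1) (.n (nat_lit 44) (nat_lit 1) (.p (nat_lit 46) (nat_lit 1) (.n (nat_lit 47) (nat_lit 5) (.n (nat_lit 48) (nat_lit 3) (.n (nat_lit 61) (nat_lit 1) .z)))))))))))))))))))))))))))))))))))))) .nil)))))))))))))))))))))))))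

noncomputable def dC2c_i202 : IL := (.e true (nat_lit 3) (nat_lit 213) (nat_lit 2) (nat_lit 16) (.e true (nat_lit 1) (nat_lit 214) (nat_lit 2) (nat_lit 16) (.e false (nat_lit 3) (nat_lit 215) (nat_lit 2) (nat_lit 16) (.e true (nat_lit 1) (nat_lit 216) (nat_lit 2) (nat_lit 16) (.e true (nat_lit 3) (nat_lit 217) (nat_lit 2) (nat_lit 16) (.e true (nat_lit 2) (nat_lit 218) (nat_lit 2) (nat_lit 16) (.e true (nat_lit 2) (nat_lit 219) (nat_lit 2) (nat_lit 16) (.e false (nat_lit 1) (nat_lit 220) (nat_lit 2) (nat_lit 16) (.e false (nat_lit 1) (nat_lit 221) (nat_lit 2) (nat_lit 16) (.e true (nat_lit 2) (nat_lit 222) (nat_lit 2) (nat_lit 16) (.e false (nat_lit 1) (nat_lit 226) (nat_lit 2) (nat_lit 16) (.e false (nat_lit 3) (nat_lit 227) (nat_lit 2) (nat_lit 16) (.e true (nat_lit 1) (nat_lit 228) (nat_lit 2) (nat_lit 16) (.e true (nat_lit 3) (nat_lit 229) (nat_lit 2) (nat_lit 16) (.e true (nat_lit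 3) (nat_lit 230) (nat_lit 2) (nat_lit 16) (.e true (nat_lit 2) (nat_lit 231) (nat_lit 2) (nat_lit 16) (.e false (nat_lit 1) (nat_lit 238) (nat_lit 2) (nat_lit 16) (.e false (nat_lit 1) (nat_lit 242) (nat_lit 2) (nat_lit 16) (.e true (nat_lit 3) (nat_lit 245) (nat_lit 2) (nat_lit 16) (.e false (nat_lit 2) (nat_lit 246) (nat_lit 2) (nat_lit 16) (.e false (nat_lit 2) (nat_lit 247) (nat_lit 2) (nat_lit 16) (.e true (nat_lit 3) (nat_lit 248) (nat_lit 2) (nat_lit 16) (.e false (nat_lit 2) (nat_lit 251) (nat_lit 2) (nat_lit 16) (.e false (nat_lit 1) (nat_lit 295) (nat_lit 0) (nat_lit 18) (.u (nat_lit 2) (.p (nat_lit 0) (nat_lit 3) (.p (nat_lit 1) (nat_lit 8) (.n (nat_lit 2) (nat_lit 7) (.n (nat_lit 3) (nat_lit 2) (.p (nat_lit 4) (nat_lit 2) (.p (nat_lit 5) (nat_lit 2) (.n (nat_lit 6) (nat_lit 2) (.p (nat_lit 8) (nat_lit 3) (.p (nat_lit 10) (nat_lit 4) (.n (nat_lit 11) (nat_lit 1) (.p (nat_lit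 14) (nat_lit 1) (.n (nat_lit 15) (nat_lit 1) (.p (nat_lit 19) (nat_lit 4) (.n (nat_lit 20) (nat_lit 1) (.n (nat_lit 21) (nat_lit 2) (.p (nat_lit 22) (nat_lit 2) (.p (nat_lit 24) (nat_lit 4) (.n (nat_lit 25) (nat_lit 2) (.p (nat_lit 26) (nat_lit 2) (.p (nat_lit 27) (nat_lit 3) (.n (nat_lit 28) (nat_lit 2) (.n (nat_lit 29) (nat_lit 2) (.n (nat_lit 31) (nat_lit 4) (.n (nat_lit 32) (nat_lit 2) (.n (nat_lit 34) (nat_lit 3) (.p (nat_lit 36) (nat_lit 7) (.p (nat_lit 37) (nat_lit 1) (.n (nat_lit 39) (nat_lit 3) (.p (nat_lit 40) (nat_lit 1) (.n (nat_lit 42) (nat_lit 2) (.n (nat_lit 44) (nat_lit 1) (.p (nat_lit 46) (nat_lit 7) (.n (nat_lit 47) (nat_lit 1) (.p (nat_lit 48) (nat_lit 3) (.n (nat_lit 50) (nat_lit 1) .z))))))))))))))))))))))))))))))))))) .nil)))))))))))))))))))))))))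

noncomputable def dC2c_i203 : IL := (.e false (nat_lit 3) (nat_lit 258) (nat_lit 1) (nat_lit 17) (.e true (nat_lit 2) (nat_lit 259) (nat_lit 1) (nat_lit 17) (.e false (nat_lit 2) (nat_lit 260) (nat_lit 1) (nat_lit 17) (.e false (nat_lit 3) (nat_lit 261) (nat_lit 1) (nat_lit 17) (.e true (nat_lit 3) (nat_lit 262) (nat_lit 1) (nat_lit 17) (.e true (nat_lit 1) (nat_lit 263) (nat_lit 1) (nat_lit 17) (.e false (nat_lit 2) (nat_lit 264) (nat_lit 1) (nat_lit 17) (.e true (nat_lit 1) (nat_lit 265) (nat_lit 1) (nat_lit 17) (.e false (nat_lit 1) (nat_lit 266) (nat_lit 1) (nat_lit 17) (.e false (nat_lit 3) (nat_lit 267) (nat_lit 1) (nat_lit 17) (.e false (nat_lit 3) (nat_lit 269) (nat_lit 1) (nat_lit 17) (.e false (nat_lit 2) (nat_lit 270) (nat_lit 1) (nat_lit 17) (.e false (nat_lit 2) (nat_lit 272) (nat_lit 1) (nat_lit 17) (.e false (nat_lit 1) (nat_lit 273) (nat_lit 1) (nat_lit 17) (.e false (nat_lit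 3) (nat_lit 274) (nat_lit 1) (nat_lit 17) (.e true (nat_lit 3) (nat_lit 275) (nat_lit 1) (nat_lit 17) (.e true (nat_lit 1) (nat_lit 282) (nat_lit 1) (nat_lit 17) (.e false (nat_lit 1) (nat_lit 284) (nat_lit 1) (nat_lit 17) (.e false (nat_lit 1) (nat_lit 285) (nat_lit 1) (nat_lit 17) (.e true (nat_lit 1) (nat_lit 92) (nat_lit 12) (nat_lit 8) (.e true (nat_lit 3) (nat_lit 205) (nat_lit 2) (nat_lit 16) (.e false (nat_lit 3) (nat_lit 206) (nat_lit 2) (nat_lit 16) (.e true (nat_lit 1) (nat_lit 207) (nat_lit 2) (nat_lit 16) (.e true (nat_lit 3) (nat_lit 209) (nat_lit 2) (nat_lit 16) (.e true (nat_lit 3) (nat_lit 211) (nat_lit 2) (nat_lit 16) dC2c_i202)))))))))))))))))))))))))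

noncomputable def dC2c_i204 : IL := (.e false (nat_lit 3) (nat_lit 150) (nat_lit 7) (nat_lit 9) (.e true (nat_lit 3) (nat_lit 152) (nat_lit 7) (nat_lit 9) (.e true (nat_lit 1) (nat_lit 153) (nat_lit 7) (nat_lit 9) (.e false (nat_lit 1) (nat_lit 154) (nat_lit 7) (nat_lit 9) (.e false (nat_lit 1) (nat_lit 157) (nat_lit 7) (nat_lit 9) (.e false (nat_lit 3) (nat_lit 252) (nat_lit 2) (nat_lit 14) (.e true (nat_lit 1) (nat_lit 258) (nat_lit 2) (nat_lit 14) (.e true (nat_lit 1) (nat_lit 259) (nat_lit 2) (nat_lit 14) (.e false (nat_lit 1) (nat_lit 260) (nat_lit 2) (nat_lit 14) (.e true (nat_lit 2) (nat_lit 264) (nat_lit 2) (nat_lit 14) (.e true (nat_lit 3) (nat_lit 267) (nat_lit 2) (nat_lit 14) (.e true (nat_lit 2) (nat_lit 270) (nat_lit 2) (nat_lit 14) (.e false (nat_lit 3) (nat_lit 271) (nat_lit 2) (nat_lit 14) (.e true (nat_lit 2) (nat_lit 272) (nat_lit 2) (nat_lit 14) (.e false (nat_lit 3)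 (nat_lit 273) (nat_lit 2) (nat_lit 14) (.e true (nat_lit 2) (nat_lit 274) (nat_lit 2) (nat_lit 14) (.e false (nat_lit 1) (nat_lit 275) (nat_lit 2) (nat_lit 14) (.e true (nat_lit 2) (nat_lit 276) (nat_lit 2) (nat_lit 14) (.e false (nat_lit 2) (nat_lit 96) (nat_lit 16) (nat_lit 5) (.e true (nat_lit 3) (nat_lit 254) (nat_lit 2) (nat_lit 14) (.e true (nat_lit 2) (nat_lit 255) (nat_lit 2) (nat_lit 14) (.e true (nat_lit 1) (nat_lit 262) (nat_lit 2) (nat_lit 14) (.e false (nat_lit 3) (nat_lit 263) (nat_lit 2) (nat_lit 14) (.e true (nat_lit 2) (nat_lit 329) (nat_lit 0) (nat_lit 16) (.u (nat_lit 2) (.n (nat_lit 0) (nat_lit 1) (.n (nat_lit 1) (nat_lit 1) (.n (nat_lit 2) (nat_lit 3) (.p (nat_lit 3) (nat_lit 2) (.n (nat_lit 4) (nat_lit 2) (.n (nat_lit 5) (nat_lit 4) (.p (nat_lit 6) (nat_lit 1) (.p (nat_lit 7) (nat_lit 2) (.p (nat_lit 8) (nat_lit 1) (.n (nat_lit 9) (nat_lit 2) (.n (nat_lit 10) (nat_lit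 2) (.n (nat_lit 11) (nat_lit 2) (.n (nat_lit 12) (nat_lit 1) (.p (nat_lit 13) (nat_lit 2) (.n (nat_lit 14) (nat_lit 5) (.p (nat_lit 15) (nat_lit 2) (.p (nat_lit 16) (nat_lit 2) (.n (nat_lit 17) (nat_lit 2) (.p (nat_lit 18) (nat_lit 2) (.p (nat_lit 19) (nat_lit 2) (.n (nat_lit 21) (nat_lit 6) (.n (nat_lit 24) (nat_lit 5) (.n (nat_lit 25) (nat_lit 1) (.p (nat_lit 27) (nat_lit 1) (.n (nat_lit 31) (nat_lit 2) (.n (nat_lit 33) (nat_lit 1) (.n (nat_lit 34) (nat_lit 2) (.n (nat_lit 35) (nat_lit 3) (.p (nat_lit 142) (nat_lit 1) (.n (nat_lit 143) (nat_lit 1) (.n (nat_lit 144) (nat_lit 1) (.p (nat_lit 149) (nat_lit 1) (.n (nat_lit 150) (nat_lit 1) (.p (nat_lit 151) (nat_lit 1) (.p (nat_lit 152) (nat_lit 1) (.n (nat_lit 154) (nat_lit 1) (.n (nat_lit 157) (nat_lit 1) (.n (nat_lit 159) (nat_lit 1) (.n (nat_lit 160) (nat_lit 1) (.p (nat_lit 161) (nat_lit 1) (.p (nat_lit 162) (nat_lit 1) (.p (nat_lit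 163) (nat_lit 1) (.n (nat_lit 164) (nat_lit 1) (.n (nat_lit 167) (nat_lit 1) (.n (nat_lit 204) (nat_lit 1) (.p (nat_lit 206) (nat_lit 1) (.p (nat_lit 210) (nat_lit 1) (.n (nat_lit 211) (nat_lit 1) (.p (nat_lit 212) (nat_lit 1) (.p (nat_lit 214) (nat_lit 1) (.n (nat_lit 215) (nat_lit 1) (.p (nat_lit 216) (nat_lit 2) (.p (nat_lit 219) (nat_lit 1) (.p (nat_lit 223) (nat_lit 1) (.p (nat_lit 225) (nat_lit 1) (.n (nat_lit 227) (nat_lit 1) .z)))))))))))))))))))))))))))))))))))))))))))))))))))))))) .nil)))))))))))))))))))))))))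

noncomputable def dC2c_i205 : IL := (.e true (nat_lit 1) (nat_lit 271) (nat_lit 1) (nat_lit 17) (.e false (nat_lit 1) (nat_lit 276) (nat_lit 1) (nat_lit 17) (.e true (nat_lit 2) (nat_lit 277) (nat_lit 1) (nat_lit 17) (.e false (nat_lit 3) (nat_lit 278) (nat_lit 1) (nat_lit 17) (.e false (nat_lit 3) (nat_lit 287) (nat_lit 1) (nat_lit 17) (.e false (nat_lit 3) (nat_lit 261) (nat_lit 1) (nat_lit 17) (.e false (nat_lit 1) (nat_lit 263) (nat_lit 1) (nat_lit 17) (.e false (nat_lit 2) (nat_lit 269) (nat_lit 1) (nat_lit 17) (.e true (nat_lit 1) (nat_lit 289) (nat_lit 0) (nat_lit 18) (.e true (nat_lit 2) (nat_lit 291) (nat_lit 0) (nat_lit 18) (.e true (nat_lit 2) (nat_lit 292) (nat_lit 0) (nat_lit 18) (.e false (nat_lit 1) (nat_lit 293) (nat_lit 0) (nat_lit 18) (.e true (nat_lit 1) (nat_lit 294) (nat_lit 0) (nat_lit 18) (.e true (nat_lit 2) (nat_lit 295) (nat_lit 0) (nat_lit 18) (.e true (nat_lit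 3) (nat_lit 297) (nat_lit 0) (nat_lit 18) (.e true (nat_lit 2) (nat_lit 298) (nat_lit 0) (nat_lit 18) (.e true (nat_lit 3) (nat_lit 300) (nat_lit 0) (nat_lit 18) (.e false (nat_lit 3) (nat_lit 301) (nat_lit 0) (nat_lit 18) (.e false (nat_lit 2) (nat_lit 303) (nat_lit 0) (nat_lit 18) (.e true (nat_lit 2) (nat_lit 304) (nat_lit 0) (nat_lit 18) (.e false (nat_lit 3) (nat_lit 286) (nat_lit 1) (nat_lit 17) (.e false (nat_lit 3) (nat_lit 290) (nat_lit 0) (nat_lit 18) (.e false (nat_lit 3) (nat_lit 296) (nat_lit 0) (nat_lit 18) (.u (nat_lit 2) (.p (nat_lit 0) (nat_lit 2) (.n (nat_lit 1) (nat_lit 3) (.p (nat_lit 2) (nat_lit 1) (.p (nat_lit 3) (nat_lit 1) (.p (nat_lit 4) (nat_lit 3) (.n (nat_lit 5) (nat_lit 3) (.p (nat_lit 6) (nat_lit 1) (.p (nat_lit 7) (nat_lit 3) (.n (nat_lit 8) (nat_lit 1) (.n (nat_lit 9) (nat_lit 2) (.n (nat_lit 10) (nat_lit 6) (.n (nat_lit 11) (nat_lit 1) (.p (nat_lit 12) (nat_lit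 5) (.n (nat_lit 15) (nat_lit 4) (.n (nat_lit 16) (nat_lit 1) (.n (nat_lit 17) (nat_lit 3) (.n (nat_lit 18) (nat_lit 1) (.n (nat_lit 19) (nat_lit 1) (.p (nat_lit 20) (nat_lit 2) (.n (nat_lit 21) (nat_lit 1) (.p (nat_lit 22) (nat_lit 1) (.p (nat_lit 23) (nat_lit 3) (.p (nat_lit 25) (nat_lit 2) (.p (nat_lit 26) (nat_lit 2) (.n (nat_lit 27) (nat_lit 2) (.p (nat_lit 28) (nat_lit 3) (.p (nat_lit 29) (nat_lit 2) (.n (nat_lit 31) (nat_lit 2) (.p (nat_lit 32) (nat_lit 4) (.p (nat_lit 33) (nat_lit 3) (.p (nat_lit 34) (nat_lit 2) (.p (nat_lit 35) (nat_lit 3) (.n (nat_lit 36) (nat_lit 3) (.n (nat_lit 37) (nat_lit 2) (.n (nat_lit 38) (nat_lit 3) (.p (nat_lit 40) (nat_lit 2) (.p (nat_lit 44) (nat_lit 1) (.p (nat_lit 45) (nat_lit 2) (.p (nat_lit 46) (nat_lit 4) (.n (nat_lit 47) (nat_lit 2) (.n (nat_lit 48) (nat_lit 1) (.n (nat_lit 55) (nat_lit 2) (.n (nat_lit 210) (nat_lit 1) (.p (nat_lit 211) (nat_lit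 1) (.n (nat_lit 302) (nat_lit 1) (.n (nat_lit 305) (nat_lit 1) (.p (nat_lit 306) (nat_lit 2) (.n (nat_lit 313) (nat_lit 2) (.n (nat_lit 314) (nat_lit 4) (.n (nat_lit 325) (nat_lit 1) (.p (nat_lit 329) (nat_lit 2) (.n (nat_lit 339) (nat_lit 1) (.n (nat_lit 340) (nat_lit 2) (.n (nat_lit 346) (nat_lit 1) (.p (nat_lit 348) (nat_lit 1) (.n (nat_lit 349) (nat_lit 1) (.p (nat_lit 350) (nat_lit 1) (.p (nat_lit 351) (nat_lit 1) (.p (nat_lit 352) (nat_lit 6) (.p (nat_lit 353) (nat_lit 4) .z)))))))))))))))))))))))))))))))))))))))))))))))))))))))))))) (.u (nat_lit 2) (.n (nat_lit 354) (nat_lit 5) (.n (nat_lit 355) (nat_lit 1) (.p (nat_lit 356) (nat_lit 3) (.n (nat_lit 357) (nat_lit 3) (.n (nat_lit 358) (nat_lit 3) (.n (nat_lit 359) (nat_lit 1) (.p (nat_lit 360) (nat_lit 1) (.n (nat_lit 361) (nat_lit 2) (.p (nat_lit 364) (nat_lit 2) (.n (nat_lit 366) (nat_lit 1) (.p (nat_lit 367) (nat_lit 6) (.n (nat_lit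 368) (nat_lit 3) (.p (nat_lit 369) (nat_lit 1) (.n (nat_lit 370) (nat_lit 3) (.n (nat_lit 371) (nat_lit 1) (.n (nat_lit 372) (nat_lit 2) (.p (nat_lit 373) (nat_lit 3) (.p (nat_lit 374) (nat_lit 5) (.p (nat_lit 375) (nat_lit 2) (.n (nat_lit 377) (nat_lit 3) (.p (nat_lit 379) (nat_lit 1) (.n (nat_lit 382) (nat_lit 2) (.p (nat_lit 383) (nat_lit 2) (.p (nat_lit 386) (nat_lit 1) .z)))))))))))))))))))))))) .nil)))))))))))))))))))))))))

noncomputable def dC2c_i206 : IL := (.e false (nat_lit 3) (nat_lit 153) (nat_lit 6) (nat_lit 12) (.e true (nat_lit 2) (nat_lit 249) (nat_lit 2) (nat_lit 16) (.e false (nat_lit 2) (nat_lit 273) (nat_lit 1) (nat_lit 17) (.e true (nat_lit 2) (nat_lit 231) (nat_lit 2) (nat_lit 16) (.e true (nat_lit 2) (nat_lit 232) (nat_lit 2) (nat_lit 16) (.e false (nat_lit 1) (nat_lit 253) (nat_lit 1) (nat_lit 17) (.e false (nat_lit 1) (nat_lit 252) (nat_lit 1) (nat_lit 17) (.e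 false (nat_lit 2) (nat_lit 255) (nat_lit 1) (nat_lit 17) (.e false (nat_lit 1) (nat_lit 257) (nat_lit 1) (nat_lit 17) (.e false (nat_lit 3) (nat_lit 258) (nat_lit 1) (nat_lit 17) (.e false (nat_lit 3) (nat_lit 266) (nat_lit 1) (nat_lit 17) (.e true (nat_lit 1) (nat_lit 274) (nat_lit 1) (nat_lit 17) (.e false (nat_lit 3) (nat_lit 279) (nat_lit 1) (nat_lit 17) (.e false (nat_lit 2) (nat_lit 280) (nat_lit 1) (nat_lit 17) (.e true (nat_lit 1) (nat_lit 265) (nat_lit 1) (nat_lit 17) (.e false (nat_lit 1) (nat_lit 256) (nat_lit 1) (nat_lit 17) (.e false (nat_lit 2) (nat_lit 264) (nat_lit 1) (nat_lit 17) (.e false (nat_lit 2) (nat_lit 275) (nat_lit 1) (nat_lit 17) (.e true (nat_lit 3) (nat_lit 288) (nat_lit 1) (nat_lit 17) (.e false (nat_lit 3) (nat_lit 285) (nat_lit 1) (nat_lit 17) (.e false (nat_lit 2) (nat_lit 259) (nat_lit 1) (nat_lit 17) (.e true (nat_lit 2) (nat_lit 260) (nat_lit 1) (nat_lit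 17) (.e true (nat_lit 1) (nat_lit 282) (nat_lit 1) (nat_lit 17) (.e false (nat_lit 2) (nat_lit 262) (nat_lit 1) (nat_lit 17) (.e false (nat_lit 3) (nat_lit 267) (nat_lit 1) (nat_lit 17) dC2c_i205)))))))))))))))))))))))))

noncomputable def dC2c_i207 : IL := (.s true (nat_lit 1) (nat_lit 24) (nat_lit 2) (nat_lit 2) (nat_lit 6) true (nat_lit 5) true (nat_lit 12) true (nat_lit 2) true (nat_lit 16) true (nat_lit 16) (.s false (nat_lit 1) (nat_lit 24) (nat_lit 2) (nat_lit 7) (nat_lit 1) true (nat_lit 12) true (nat_lit 17) true (nat_lit 2) true (nat_lit 16) true (nat_lit 11) (.s true (nat_lit 1) (nat_lit 59) (nat_lit 2) (nat_lit 2) (nat_lit 2) true (nat_lit 11) true (nat_lit 16) false (nat_lit 4) true (nat_lit 16) true (nat_lit 16) (.s false (nat_lit 1) (nat_lit 60) (nat_lit 1) (nat_lit 2) (nat_lit 2) true (nat_lit 12) true (nat_lit 16) false (nat_lit 5) true (nat_lit 17) true (nat_lit 16) (.s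 true (nat_lit 3) (nat_lit 61) (nat_lit 1) (nat_lit 2) (nat_lit 2) true (nat_lit 12) true (nat_lit 16) false (nat_lit 5) true (nat_lit 17) true (nat_lit 16) (.s false (nat_lit 3) (nat_lit 61) (nat_lit 2) (nat_lit 1) (nat_lit 2) true (nat_lit 11) true (nat_lit 16) false (nat_lit 5) true (nat_lit 16) true (nat_lit 17) (.s false (nat_lit 3) (nat_lit 61) (nat_lit 2) (nat_lit 2) (nat_lit 1) true (nat_lit 12) true (nat_lit 17) false (nat_lit 5) true (nat_lit 16) true (nat_lit 16) (.s true (nat_lit 1) (nat_lit 102) (nat_lit 0) (nat_lit 1) (nat_lit 1) true (nat_lit 15) true (nat_lit 17) false (nat_lit 10) true (nat_lit 18) true (nat_lit 17) (.s false (nat_lit 1) (nat_lit 103) (nat_lit 0) (nat_lit 1) (nat_lit 1) true (nat_lit 15) true (nat_lit 17) false (nat_lit 10) true (nat_lit 18) true (nat_lit 17) (.s false (nat_lit 1) (nat_lit 102) (nat_lit 1) (nat_lit 1) (nat_lit 0) true (nat_lit 15) true (nat_lit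 18) false (nat_lit 10) true (nat_lit 17) true (nat_lit 17) (.s true (nat_lit 1) (nat_lit 103) (nat_lit 1) (nat_lit 1) (nat_lit 0) true (nat_lit 15) true (nat_lit 18) false (nat_lit 10) true (nat_lit 17) true (nat_lit 17) (.e false (nat_lit 1) (nat_lit 205) (nat_lit 2) (nat_lit 16) (.e true (nat_lit 1) (nat_lit 208) (nat_lit 2) (nat_lit 16) (.e false (nat_lit 2) (nat_lit 216) (nat_lit 2) (nat_lit 16) (.e true (nat_lit 2) (nat_lit 227) (nat_lit 2) (nat_lit 16) (.e true (nat_lit 1) (nat_lit 251) (nat_lit 2) (nat_lit 16) (.e true (nat_lit 1) (nat_lit 128) (nat_lit 7) (nat_lit 11) (.e false (nat_lit 3) (nat_lit 206) (nat_lit 2) (nat_lit 16) (.e false (nat_lit 1) (nat_lit 209) (nat_lit 2) (nat_lit 16) (.e true (nat_lit 2) (nat_lit 217) (nat_lit 2) (nat_lit 16) (.e true (nat_lit 2) (nat_lit 228) (nat_lit 2) (nat_lit 16) (.e true (nat_lit 1) (nat_lit 243) (nat_lit 2) (nat_lit 16) (.e false (nat_lit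 3) (nat_lit 246) (nat_lit 2) (nat_lit 16) (.e false (nat_lit 1) (nat_lit 248) (nat_lit 2) (nat_lit 16) (.e true (nat_lit 1) (nat_lit 272) (nat_lit 1) (nat_lit 17) dC2c_i206)))))))))))))))))))))))))

noncomputable def dC2c_i208 : IL := (.s false (nat_lit 2) (nat_lit 25) (nat_lit 2) (nat_lit 6) (nat_lit 2) true (nat_lit 11) true (nat_lit 16) true (nat_lit 2) true (nat_lit 16) true (nat_lit 12) (.s false (nat_lit 2) (nat_lit 25) (nat_lit 2) (nat_lit 7) (nat_lit 1) true (nat_lit 12) true (nat_lit 17) true (nat_lit 2) true (nat_lit 16) true (nat_lit 11) (.s false (nat_lit 2) (nat_lit 25) (nat_lit 6) (nat_lit 2) (nat_lit 2) true (nat_lit 5) true (nat_lit 16) true (nat_lit 2) true (nat_lit 12) true (nat_lit 16) (.s true (nat_lit 1) (nat_lit 61) (nat_lit 1) (nat_lit 2) (nat_lit 2) true (nat_lit 12) true (nat_lit 16) false (nat_lit 5) true (nat_lit 17) true (nat_lit 16) (.s false (nat_lit 1) (nat_lit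 61) (nat_lit 2) (nat_lit 1) (nat_lit 2) true (nat_lit 11) true (nat_lit 16) false (nat_lit 5) true (nat_lit 16) true (nat_lit 17) (.s false (nat_lit 1) (nat_lit 61) (nat_lit 2) (nat_lit 2) (nat_lit 1) true (nat_lit 12) true (nat_lit 17) false (nat_lit 5) true (nat_lit 16) true (nat_lit 16) (.e true (nat_lit 1) (nat_lit 129) (nat_lit 7) (nat_lit 11) (.e false (nat_lit 1) (nat_lit 273) (nat_lit 1) (nat_lit 17) (.e false (nat_lit 1) (nat_lit 206) (nat_lit 2) (nat_lit 16) (.e true (nat_lit 2) (nat_lit 208) (nat_lit 2) (nat_lit 16) (.e true (nat_lit 3) (nat_lit 209) (nat_lit 2) (nat_lit 16) (.e true (nat_lit 1) (nat_lit 217) (nat_lit 2) (nat_lit 16) (.e true (nat_lit 1) (nat_lit 230) (nat_lit 2) (nat_lit 16) (.e true (nat_lit 2) (nat_lit 205) (nat_lit 2) (nat_lit 16) (.e true (nat_lit 3) (nat_lit 216) (nat_lit 2) (nat_lit 16) (.e true (nat_lit 1) (nat_lit 227) (nat_lit 2) (nat_lit 16) (.e true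 (nat_lit 3) (nat_lit 228) (nat_lit 2) (nat_lit 16) (.e true (nat_lit 3) (nat_lit 242) (nat_lit 2) (nat_lit 16) (.e false (nat_lit 1) (nat_lit 243) (nat_lit 2) (nat_lit 16) (.e false (nat_lit 1) (nat_lit 246) (nat_lit 2) (nat_lit 16) (.e false (nat_lit 2) (nat_lit 251) (nat_lit 2) (nat_lit 16) (.e true (nat_lit 2) (nat_lit 249) (nat_lit 2) (nat_lit 16) (.e false (nat_lit 3) (nat_lit 232) (nat_lit 2) (nat_lit 16) (.u (nat_lit 2) (.n (nat_lit 0) (nat_lit 3) (.n (nat_lit 2) (nat_lit 2) (.p (nat_lit 3) (nat_lit 3) (.p (nat_lit 4) (nat_lit 1) (.n (nat_lit 5) (nat_lit 4) (.n (nat_lit 6) (nat_lit 3) (.n (nat_lit 7) (nat_lit 1) (.n (nat_lit 8) (nat_lit 2) (.p (nat_lit 9) (nat_lit 3) (.p (nat_lit 10) (nat_lit 5) (.n (nat_lit 11) (nat_lit 2) (.n (nat_lit 14) (nat_lit 1) (.p (nat_lit 15) (nat_lit 1) (.p (nat_lit 16) (nat_lit 1) (.n (nat_lit 17) (nat_lit 4) (.p (nat_lit 18) (nat_lit 1) (.p (nat_lit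 19) (nat_lit 1) (.n (nat_lit 20) (nat_lit 1) (.p (nat_lit 21) (nat_lit 1) (.n (nat_lit 22) (nat_lit 1) (.p (nat_lit 23) (nat_lit 3) (.n (nat_lit 24) (nat_lit 2) (.p (nat_lit 25) (nat_lit 1) (.n (nat_lit 26) (nat_lit 1) (.n (nat_lit 28) (nat_lit 1) (.p (nat_lit 29) (nat_lit 2) (.n (nat_lit 31) (nat_lit 1) (.p (nat_lit 32) (nat_lit 2) (.p (nat_lit 33) (nat_lit 1) (.n (nat_lit 34) (nat_lit 2) (.p (nat_lit 35) (nat_lit 4) (.p (nat_lit 36) (nat_lit 4) (.n (nat_lit 37) (nat_lit 2) (.n (nat_lit 38) (nat_lit 1) (.n (nat_lit 39) (nat_lit 1) (.n (nat_lit 40) (nat_lit 1) (.n (nat_lit 42) (nat_lit 1) (.n (nat_lit 44) (nat_lit 1) (.n (nat_lit 46) (nat_lit 1) (.n (nat_lit 47) (nat_lit 1) (.n (nat_lit 48) (nat_lit 1) (.n (nat_lit 214) (nat_lit 1) (.n (nat_lit 215) (nat_lit 1) (.n (nat_lit 216) (nat_lit 1) (.p (nat_lit 217) (nat_lit 1) (.n (nat_lit 219) (nat_lit 1) (.p (nat_lit 221) (nat_lit 1) (.n (nat_lit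 223) (nat_lit 1) (.p (nat_lit 224) (nat_lit 1) (.n (nat_lit 225) (nat_lit 1) (.p (nat_lit 229) (nat_lit 2) (.p (nat_lit 314) (nat_lit 1) (.n (nat_lit 327) (nat_lit 1) (.n (nat_lit 329) (nat_lit 1) (.p (nat_lit 346) (nat_lit 1) (.p (nat_lit 349) (nat_lit 1) (.p (nat_lit 350) (nat_lit 1) (.p (nat_lit 351) (nat_lit 3) (.n (nat_lit 352) (nat_lit 2) (.n (nat_lit 355) (nat_lit 1) .z)))))))))))))))))))))))))))))))))))))))))))))))))))))))))))) (.u (nat_lit 2) (.n (nat_lit 359) (nat_lit 1) (.p (nat_lit 360) (nat_lit 1) (.n (nat_lit 361) (nat_lit 1) (.p (nat_lit 362) (nat_lit 1) (.p (nat_lit 363) (nat_lit 1) (.p (nat_lit 364) (nat_lit 1) (.p (nat_lit 366) (nat_lit 2) (.p (nat_lit 367) (nat_lit 1) (.n (nat_lit 368) (nat_lit 2) (.p (nat_lit 369) (nat_lit 1) (.n (nat_lit 370) (nat_lit 2) (.p (nat_lit 373) (nat_lit 2) (.p (nat_lit 374) (nat_lit 2) (.p (nat_lit 380) (nat_lit 2) (.n (nat_lit 382) (nat_lit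 2) .z))))))))))))))) .nil)))))))))))))))))))))))))

noncomputable def dC2c_i209 : IL := (.e false (nat_lit 2) (nat_lit 49) (nat_lit 7) (nat_lit 7) (.e true (nat_lit 3) (nat_lit 50) (nat_lit 7) (nat_lit 7) (.e false (nat_lit 2) (nat_lit 52) (nat_lit 7) (nat_lit 7) (.e true (nat_lit 2) (nat_lit 55) (nat_lit 7) (nat_lit 7) (.e true (nat_lit 2) (nat_lit 59) (nat_lit 7) (nat_lit 7) (.e true (nat_lit 1) (nat_lit 133) (nat_lit 1) (nat_lit 13) (.e true (nat_lit 1) (nat_lit 22) (nat_lit 20) (nat_lit 0) (.e false (nat_lit 1) (nat_lit 23) (nat_lit 20) (nat_lit 0) (.e false (nat_lit 2) (nat_lit 51) (nat_lit 7) (nat_lit 7) (.e false (nat_lit 1) (nat_lit 53) (nat_lit 7) (nat_lit 7) (.e false (nat_lit 1) (nat_lit 106) (nat_lit 2) (nat_lit 12) (.e false (nat_lit 1) (nat_lit 117) (nat_lit 2) (nat_lit 12) (.e false (nat_lit 3) (nat_lit 129) (nat_lit 2) (nat_lit 12) (.e true (nat_lit 3) (nat_lit 113) (nat_lit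 2) (nat_lit 12) (.e true (nat_lit 2) (nat_lit 118) (nat_lit 2) (nat_lit 12) (.e false (nat_lit 3) (nat_lit 120) (nat_lit 2) (nat_lit 12) (.e false (nat_lit 2) (nat_lit 128) (nat_lit 2) (nat_lit 12) (.e false (nat_lit 3) (nat_lit 27) (nat_lit 19) (nat_lit 1) (.e false (nat_lit 1) (nat_lit 121) (nat_lit 2) (nat_lit 12) (.e true (nat_lit 1) (nat_lit 24) (nat_lit 18) (nat_lit 1) (.e true (nat_lit 3) (nat_lit 60) (nat_lit 6) (nat_lit 8) (.e true (nat_lit 1) (nat_lit 47) (nat_lit 8) (nat_lit 6) (.e false (nat_lit 1) (nat_lit 21) (nat_lit 20) (nat_lit 0) (.u (nat_lit 2) (.n (nat_lit 0) (nat_lit 1) (.p (nat_lit 1) (nat_lit 2) (.p (nat_lit 2) (nat_lit 2) (.p (nat_lit 3) (nat_lit 4) (.n (nat_lit 4) (nat_lit 1) (.p (nat_lit 5) (nat_lit 2) (.p (nat_lit 8) (nat_lit 1) (.n (nat_lit 9) (nat_lit 2) (.n (nat_lit 11) (nat_lit 1) (.p (nat_lit 12) (nat_lit 1) (.n (nat_lit 14) (nat_lit 1) (.p (nat_lit 16) (nat_lit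 2) (.p (nat_lit 20) (nat_lit 2) (.n (nat_lit 22) (nat_lit 1) (.p (nat_lit 23) (nat_lit 1) (.p (nat_lit 24) (nat_lit 2) (.p (nat_lit 25) (nat_lit 1) (.p (nat_lit 26) (nat_lit 1) (.n (nat_lit 27) (nat_lit 1) (.n (nat_lit 29) (nat_lit 1) (.n (nat_lit 37) (nat_lit 1) (.p (nat_lit 39) (nat_lit 1) (.n (nat_lit 41) (nat_lit 1) (.p (nat_lit 44) (nat_lit 1) (.p (nat_lit 45) (nat_lit 1) (.p (nat_lit 62) (nat_lit 1) (.p (nat_lit 75) (nat_lit 1) (.n (nat_lit 79) (nat_lit 1) (.n (nat_lit 81) (nat_lit 1) (.n (nat_lit 84) (nat_lit 1) (.n (nat_lit 86) (nat_lit 1) (.n (nat_lit 98) (nat_lit 2) (.p (nat_lit 99) (nat_lit 2) (.p (nat_lit 101) (nat_lit 3) (.n (nat_lit 102) (nat_lit 1) (.n (nat_lit 103) (nat_lit 1) (.n (nat_lit 108) (nat_lit 2) (.n (nat_lit 110) (nat_lit 1) (.n (nat_lit 114) (nat_lit 1) (.p (nat_lit 115) (nat_lit 1) (.n (nat_lit 116) (nat_lit 1) (.p (nat_lit 117) (nat_lit 1) (.n (nat_lit 120)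 (nat_lit 2) (.n (nat_lit 122) (nat_lit 1) (.p (nat_lit 123) (nat_lit 1) (.p (nat_lit 124) (nat_lit 1) (.n (nat_lit 125) (nat_lit 1) (.p (nat_lit 126) (nat_lit 1) (.n (nat_lit 130) (nat_lit 1) (.p (nat_lit 131) (nat_lit 1) (.p (nat_lit 132) (nat_lit 1) (.p (nat_lit 134) (nat_lit 1) (.p (nat_lit 141) (nat_lit 2) (.n (nat_lit 142) (nat_lit 1) (.n (nat_lit 146) (nat_lit 3) (.n (nat_lit 147) (nat_lit 11) (.n (nat_lit 148) (nat_lit 12) (.p (nat_lit 149) (nat_lit 13) (.p (nat_lit 150) (nat_lit 9) (.n (nat_lit 151) (nat_lit 1) .z)))))))))))))))))))))))))))))))))))))))))))))))))))))))))))) (.u (nat_lit 2) (.n (nat_lit 152) (nat_lit 11) (.p (nat_lit 154) (nat_lit 12) (.p (nat_lit 155) (nat_lit 1) (.n (nat_lit 156) (nat_lit 14) (.n (nat_lit 157) (nat_lit 7) (.p (nat_lit 158) (nat_lit 2) (.p (nat_lit 159) (nat_lit 12) (.p (nat_lit 161) (nat_lit 1) (.p (nat_lit 162) (nat_lit 15) (.p (nat_lit 163) (nat_lit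 11) (.p (nat_lit 165) (nat_lit 1) (.n (nat_lit 166) (nat_lit 12) (.n (nat_lit 167) (nat_lit 17) (.n (nat_lit 168) (nat_lit 2) (.p (nat_lit 169) (nat_lit 1) (.p (nat_lit 170) (nat_lit 2) (.n (nat_lit 171) (nat_lit 10) (.p (nat_lit 172) (nat_lit 1) (.p (nat_lit 173) (nat_lit 4) (.n (nat_lit 174) (nat_lit 3) (.p (nat_lit 176) (nat_lit 7) (.n (nat_lit 177) (nat_lit 1) (.n (nat_lit 178) (nat_lit 1) (.p (nat_lit 181) (nat_lit 2) (.n (nat_lit 182) (nat_lit 2) (.n (nat_lit 183) (nat_lit 2) (.n (nat_lit 184) (nat_lit 3) (.p (nat_lit 185) (nat_lit 4) (.p (nat_lit 186) (nat_lit 1) (.p (nat_lit 190) (nat_lit 4) (.p (nat_lit 191) (nat_lit 3) (.p (nat_lit 192) (nat_lit 5) (.p (nat_lit 193) (nat_lit 3) (.p (nat_lit 195) (nat_lit 2) (.n (nat_lit 196) (nat_lit 4) (.n (nat_lit 197) (nat_lit 3) (.p (nat_lit 198) (nat_lit 1) (.n (nat_lit 200) (nat_lit 1) (.n (nat_lit 201) (nat_lit 1) (.p (nat_lit 202) (nat_lit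 1) (.p (nat_lit 203) (nat_lit 2) (.p (nat_lit 204) (nat_lit 1) (.n (nat_lit 205) (nat_lit 1) (.p (nat_lit 206) (nat_lit 1) .z)))))))))))))))))))))))))))))))))))))))))))) .nil)))))))))))))))))))))))))

noncomputable def dC2c_i210 : IL := (.s true (nat_lit 3) (nat_lit 40) (nat_lit 2) (nat_lit 1) (nat_lit 0) true (nat_lit 9) true (nat_lit 14) false (nat_lit 4) true (nat_lit 12) true (nat_lit 13) (.s false (nat_lit 2) (nat_lit 42) (nat_lit 1) (nat_lit 1) (nat_lit 1) true (nat_lit 10) true (nat_lit 13) false (nat_lit 5) true (nat_lit 13) true (nat_lit 13) (.e false (nat_lit 3) (nat_lit 61) (nat_lit 6) (nat_lit 8) (.e false (nat_lit 3) (nat_lit 63) (nat_lit 6) (nat_lit 8) (.e true (nat_lit 2) (nat_lit 72) (nat_lit 6) (nat_lit 8) (.e false (nat_lit 2) (nat_lit 134) (nat_lit 1) (nat_lit 13) (.e true (nat_lit 1) (nat_lit 135) (nat_lit 1) (nat_lit 13) (.e true (nat_lit 1) (nat_lit 144) (nat_lit 1)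 (nat_lit 13) (.e false (nat_lit 1) (nat_lit 155) (nat_lit 1) (nat_lit 13) (.e false (nat_lit 1) (nat_lit 132) (nat_lit 1) (nat_lit 13) (.e true (nat_lit 3) (nat_lit 153) (nat_lit 1) (nat_lit 13) (.e false (nat_lit 3) (nat_lit 25) (nat_lit 18) (nat_lit 1) (.e false (nat_lit 3) (nat_lit 27) (nat_lit 18) (nat_lit 1) (.e true (nat_lit 2) (nat_lit 131) (nat_lit 2) (nat_lit 12) (.e true (nat_lit 3) (nat_lit 107) (nat_lit 2) (nat_lit 12) (.e false (nat_lit 3) (nat_lit 111) (nat_lit 2) (nat_lit 12) (.e false (nat_lit 2) (nat_lit 119) (nat_lit 2) (nat_lit 12) (.e false (nat_lit 1) (nat_lit 109) (nat_lit 2) (nat_lit 12) (.e true (nat_lit 1) (nat_lit 110) (nat_lit 2) (nat_lit 12) (.e true (nat_lit 2) (nat_lit 112) (nat_lit 2) (nat_lit 12) (.e true (nat_lit 2) (nat_lit 114) (nat_lit 2) (nat_lit 12) (.e false (nat_lit 1) (nat_lit 116) (nat_lit 2) (nat_lit 12) (.e false (nat_lit 3) (nat_lit 123) (nat_lit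 2) (nat_lit 12) (.e true (nat_lit 3) (nat_lit 126) (nat_lit 2) (nat_lit 12) (.e true (nat_lit 3) (nat_lit 127) (nat_lit 2) (nat_lit 12) dC2c_i209)))))))))))))))))))))))))

noncomputable def dC2c_i211 : IL := (.s true (nat_lit 2) (nat_lit 28) (nat_lit 2) (nat_lit 1) (nat_lit 2) true (nat_lit 7) true (nat_lit 12) false (nat_lit 1) true (nat_lit 12) true (nat_lit 13) (.s true (nat_lit 2) (nat_lit 29) (nat_lit 2) (nat_lit 1) (nat_lit 2) true (nat_lit 7) true (nat_lit 12) false (nat_lit 1) true (nat_lit 12) true (nat_lit 13) (.s true (nat_lit 2) (nat_lit 26) (nat_lit 2) (nat_lit 2) (nat_lit 1) true (nat_lit 8) true (nat_lit 13) false (nat_lit 1) true (nat_lit 12) true (nat_lit 12) (.s false (nat_lit 2) (nat_lit 28) (nat_lit 2) (nat_lit 2) (nat_lit 1) true (nat_lit 8) true (nat_lit 13) false (nat_lit 1) true (nat_lit 12) true (nat_lit 12) (.s true (nat_lit 2) (nat_lit 29) (nat_lit 2) (nat_lit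 2) (nat_lit 1) true (nat_lit 8) true (nat_lit 13) false (nat_lit 1) true (nat_lit 12) true (nat_lit 12) (.s false (nat_lit 3) (nat_lit 30) (nat_lit 0) (nat_lit 2) (nat_lit 2) true (nat_lit 9) true (nat_lit 12) false (nat_lit 2) true (nat_lit 14) true (nat_lit 12) (.s false (nat_lit 3) (nat_lit 31) (nat_lit 0) (nat_lit 2) (nat_lit 2) true (nat_lit 9) true (nat_lit 12) false (nat_lit 2) true (nat_lit 14) true (nat_lit 12) (.s false (nat_lit 1) (nat_lit 32) (nat_lit 0) (nat_lit 2) (nat_lit 2) true (nat_lit 9) true (nat_lit 12) false (nat_lit 2) true (nat_lit 14) true (nat_lit 12) (.s true (nat_lit 3) (nat_lit 32) (nat_lit 2) (nat_lit 0) (nat_lit 2) true (nat_lit 7) true (nat_lit 12) false (nat_lit 2) true (nat_lit 12) true (nat_lit 14) (.s true (nat_lit 2) (nat_lit 30) (nat_lit 2) (nat_lit 2) (nat_lit 0) true (nat_lit 9) true (nat_lit 14) false (nat_lit 2) true (nat_lit 12) true (nat_lit 12)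 (.s false (nat_lit 2) (nat_lit 33) (nat_lit 1) (nat_lit 1) (nat_lit 2) true (nat_lit 8) true (nat_lit 12) false (nat_lit 3) true (nat_lit 13) true (nat_lit 13) (.s true (nat_lit 2) (nat_lit 34) (nat_lit 1) (nat_lit 1) (nat_lit 2) true (nat_lit 8) true (nat_lit 12) false (nat_lit 3) true (nat_lit 13) true (nat_lit 13) (.s true (nat_lit 2) (nat_lit 34) (nat_lit 1) (nat_lit 2) (nat_lit 1) true (nat_lit 10) true (nat_lit 13) false (nat_lit 3) true (nat_lit 13) true (nat_lit 12) (.s false (nat_lit 1) (nat_lit 35) (nat_lit 1) (nat_lit 2) (nat_lit 1) true (nat_lit 10) true (nat_lit 13) false (nat_lit 3) true (nat_lit 13) true (nat_lit 12) (.s false (nat_lit 2) (nat_lit 38) (nat_lit 1) (nat_lit 2) (nat_lit 1) true (nat_lit 10) true (nat_lit 13) false (nat_lit 3) true (nat_lit 13) true (nat_lit 12) (.s false (nat_lit 3) (nat_lit 33) (nat_lit 2) (nat_lit 1) (nat_lit 1) true (nat_lit 8) true (nat_lit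 13) false (nat_lit 3) true (nat_lit 12) true (nat_lit 13) (.s false (nat_lit 3) (nat_lit 35) (nat_lit 2) (nat_lit 1) (nat_lit 1) true (nat_lit 8) true (nat_lit 13) false (nat_lit 3) true (nat_lit 12) true (nat_lit 13) (.s false (nat_lit 3) (nat_lit 38) (nat_lit 2) (nat_lit 1) (nat_lit 1) true (nat_lit 8) true (nat_lit 13) false (nat_lit 3) true (nat_lit 12) true (nat_lit 13) (.s true (nat_lit 2) (nat_lit 39) (nat_lit 0) (nat_lit 2) (nat_lit 1) true (nat_lit 11) true (nat_lit 13) false (nat_lit 4) true (nat_lit 14) true (nat_lit 12) (.s true (nat_lit 3) (nat_lit 41) (nat_lit 0) (nat_lit 2) (nat_lit 1) true (nat_lit 11) true (nat_lit 13) false (nat_lit 4) true (nat_lit 14) true (nat_lit 12) (.s false (nat_lit 3) (nat_lit 40) (nat_lit 1) (nat_lit 0) (nat_lit 2) true (nat_lit 8) true (nat_lit 12) false (nat_lit 4) true (nat_lit 13) true (nat_lit 14) (.s true (nat_lit 1) (nat_lit 41) (nat_lit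 1) (nat_lit 0) (nat_lit 2) true (nat_lit 8) true (nat_lit 12) false (nat_lit 4) true (nat_lit 13) true (nat_lit 14) (.s false (nat_lit 2) (nat_lit 39) (nat_lit 1) (nat_lit 2) (nat_lit 0) true (nat_lit 11) true (nat_lit 14) false (nat_lit 4) true (nat_lit 13) true (nat_lit 12) (.s false (nat_lit 2) (nat_lit 40) (nat_lit 1) (nat_lit 2) (nat_lit 0) true (nat_lit 11) true (nat_lit 14) false (nat_lit 4) true (nat_lit 13) true (nat_lit 12) (.s false (nat_lit 2) (nat_lit 40) (nat_lit 2) (nat_lit 0) (nat_lit 1) true (nat_lit 8) true (nat_lit 13) false (nat_lit 4) true (nat_lit 12) true (nat_lit 14) dC2c_i210)))))))))))))))))))))))))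

noncomputable def dC2c_i212 : IL := (.s true (nat_lit 2) (nat_lit 13) (nat_lit 4) (nat_lit 2) (nat_lit 2) true (nat_lit 3) true (nat_lit 12) true (nat_lit 4) true (nat_lit 10) true (nat_lit 12) (.s true (nat_lit 2) (nat_lit 11) (nat_lit 6) (nat_lit 1) (nat_lit 2) true (nat_lit 1) true (nat_lit 12) true (nat_lit 4) true (nat_lit 8) true (nat_lit 13) (.s false (nat_lit 3) (nat_lit 13) (nat_lit 6) (nat_lit 1) (nat_lit 2) true (nat_lit 1) true (nat_lit 12) true (nat_lit 4) true (nat_lit 8) true (nat_lit 13) (.s true (nat_lit 2) (nat_lit 11) (nat_lit 6) (nat_lit 2) (nat_lit 1) true (nat_lit 3) true (nat_lit 13) true (nat_lit 4) true (nat_lit 8) true (nat_lit 12) (.s true (nat_lit 1) (nat_lit 12) (nat_lit 6) (nat_lit 2) (nat_lit 1) true (nat_lit 3) true (nat_lit 13) true (nat_lit 4) true (nat_lit 8) true (nat_lit 12) (.s true (nat_lit 2) (nat_lit 14) (nat_lit 1) (nat_lit 0) (nat_lit 7) true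 (nat_lit 1) true (nat_lit 7) true (nat_lit 3) true (nat_lit 13) true (nat_lit 14) (.s true (nat_lit 2) (nat_lit 15) (nat_lit 2) (nat_lit 1) (nat_lit 5) true (nat_lit 2) true (nat_lit 9) true (nat_lit 3) true (nat_lit 12) true (nat_lit 13) (.s false (nat_lit 1) (nat_lit 15) (nat_lit 2) (nat_lit 2) (nat_lit 3) true (nat_lit 4) true (nat_lit 11) true (nat_lit 3) true (nat_lit 12) true (nat_lit 12) (.s true (nat_lit 2) (nat_lit 14) (nat_lit 2) (nat_lit 3) (nat_lit 2) true (nat_lit 7) true (nat_lit 12) true (nat_lit 3) true (nat_lit 12) true (nat_lit 11) (.s true (nat_lit 1) (nat_lit 15) (nat_lit 2) (nat_lit 3) (nat_lit 2) true (nat_lit 7) true (nat_lit 12) true (nat_lit 3) true (nat_lit 12) true (nat_lit 11) (.s false (nat_lit 3) (nat_lit 15) (nat_lit 2) (nat_lit 5) (nat_lit 1) true (nat_lit 8) true (nat_lit 13) true (nat_lit 3) true (nat_lit 12) true (nat_lit 9) (.s true (nat_lit 2) (nat_lit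 15) (nat_lit 5) (nat_lit 1) (nat_lit 2) true (nat_lit 2) true (nat_lit 12) true (nat_lit 3) true (nat_lit 9) true (nat_lit 13) (.s false (nat_lit 1) (nat_lit 15) (nat_lit 5) (nat_lit 2) (nat_lit 1) true (nat_lit 4) true (nat_lit 13) true (nat_lit 3) true (nat_lit 9) true (nat_lit 12) (.s false (nat_lit 2) (nat_lit 14) (nat_lit 6) (nat_lit 0) (nat_lit 2) true (nat_lit 1) true (nat_lit 12) true (nat_lit 3) true (nat_lit 8) true (nat_lit 14) (.s false (nat_lit 3) (nat_lit 15) (nat_lit 6) (nat_lit 2) (nat_lit 0) true (nat_lit 4) true (nat_lit 14) true (nat_lit 3) true (nat_lit 8) true (nat_lit 12) (.s true (nat_lit 3) (nat_lit 16) (nat_lit 1) (nat_lit 1) (nat_lit 6) true (nat_lit 3) true (nat_lit 8) true (nat_lit 2) true (nat_lit 13) true (nat_lit 13) (.s false (nat_lit 2) (nat_lit 18) (nat_lit 0) (nat_lit 4) (nat_lit 2) true (nat_lit 9) true (nat_lit 12) true (nat_lit 1) true (nat_lit 14)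 true (nat_lit 10) (.s false (nat_lit 1) (nat_lit 18) (nat_lit 1) (nat_lit 3) (nat_lit 2) true (nat_lit 8) true (nat_lit 12) true (nat_lit 1) true (nat_lit 13) true (nat_lit 11) (.s true (nat_lit 2) (nat_lit 19) (nat_lit 1) (nat_lit 3) (nat_lit 2) true (nat_lit 8) true (nat_lit 12) true (nat_lit 1) true (nat_lit 13) true (nat_lit 11) (.s false (nat_lit 3) (nat_lit 18) (nat_lit 2) (nat_lit 1) (nat_lit 3) true (nat_lit 4) true (nat_lit 11) true (nat_lit 1) true (nat_lit 12) true (nat_lit 13) (.s true (nat_lit 2) (nat_lit 18) (nat_lit 3) (nat_lit 1) (nat_lit 2) true (nat_lit 4) true (nat_lit 12) true (nat_lit 1) true (nat_lit 11) true (nat_lit 13) (.s true (nat_lit 1) (nat_lit 20) (nat_lit 3) (nat_lit 1) (nat_lit 1) true (nat_lit 6) true (nat_lit 13) true (nat_lit 0) true (nat_lit 11) true (nat_lit 13) (.s false (nat_lit 1) (nat_lit 26) (nat_lit 1) (nat_lit 2) (nat_lit 2) true (nat_lit 8) true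 (nat_lit 12) false (nat_lit 1) true (nat_lit 13) true (nat_lit 12) (.s false (nat_lit 1) (nat_lit 29) (nat_lit 1) (nat_lit 2) (nat_lit 2) true (nat_lit 8) true (nat_lit 12) false (nat_lit 1) true (nat_lit 13) true (nat_lit 12) (.s false (nat_lit 1) (nat_lit 26) (nat_lit 2) (nat_lit 1) (nat_lit 2) true (nat_lit 7) true (nat_lit 12) false (nat_lit 1) true (nat_lit 12) true (nat_lit 13) dC2c_i211)))))))))))))))))))))))))

noncomputable def dC2c_i213 : IL := (.e true (nat_lit 3) (nat_lit 245) (nat_lit 2) (nat_lit 16) (.e true (nat_lit 2) (nat_lit 246) (nat_lit 2) (nat_lit 16) (.e true (nat_lit 2) (nat_lit 247) (nat_lit 2) (nat_lit 16) (.e false (nat_lit 2) (nat_lit 248) (nat_lit 2) (nat_lit 16) (.e false (nat_lit 1) (nat_lit 251) (nat_lit 2) (nat_lit 16) (.e false (nat_lit 1) (nat_lit 62) (nat_lit 18) (nat_lit 5) (.e false (nat_lit 2) (nat_lit 258) (nat_lit 1) (nat_lit 17) (.e false (nat_lit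 2) (nat_lit 264) (nat_lit 1) (nat_lit 17) (.e true (nat_lit 2) (nat_lit 265) (nat_lit 1) (nat_lit 17) (.e true (nat_lit 3) (nat_lit 266) (nat_lit 1) (nat_lit 17) (.e true (nat_lit 3) (nat_lit 269) (nat_lit 1) (nat_lit 17) (.e false (nat_lit 1) (nat_lit 274) (nat_lit 1) (nat_lit 17) (.e false (nat_lit 1) (nat_lit 278) (nat_lit 1) (nat_lit 17) (.e true (nat_lit 1) (nat_lit 285) (nat_lit 1) (nat_lit 17) (.e true (nat_lit 1) (nat_lit 41) (nat_lit 33) (nat_lit 0) (.e false (nat_lit 1) (nat_lit 210) (nat_lit 2) (nat_lit 16) (.e false (nat_lit 2) (nat_lit 233) (nat_lit 2) (nat_lit 16) (.e false (nat_lit 1) (nat_lit 66) (nat_lit 18) (nat_lit 5) (.e true (nat_lit 1) (nat_lit 252) (nat_lit 1) (nat_lit 17) (.e true (nat_lit 1) (nat_lit 253) (nat_lit 1) (nat_lit 17) (.e false (nat_lit 1) (nat_lit 255) (nat_lit 1) (nat_lit 17) (.e true (nat_lit 1) (nat_lit 257) (nat_lit 1) (nat_lit 17) (.e true (nat_lit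 1) (nat_lit 277) (nat_lit 1) (nat_lit 17) (.e false (nat_lit 1) (nat_lit 235) (nat_lit 2) (nat_lit 16) (.u (nat_lit 2) (.p (nat_lit 0) (nat_lit 5) (.p (nat_lit 3) (nat_lit 5) (.n (nat_lit 4) (nat_lit 2) (.p (nat_lit 5) (nat_lit 5) (.p (nat_lit 6) (nat_lit 1) (.n (nat_lit 7) (nat_lit 4) (.n (nat_lit 8) (nat_lit 2) (.n (nat_lit 9) (nat_lit 2) (.n (nat_lit 10) (nat_lit 1) (.n (nat_lit 11) (nat_lit 1) (.n (nat_lit 12) (nat_lit 2) (.p (nat_lit 14) (nat_lit 3) (.p (nat_lit 15) (nat_lit 1) (.p (nat_lit 16) (nat_lit 2) (.p (nat_lit 17) (nat_lit 4) (.n (nat_lit 18) (nat_lit 1) (.n (nat_lit 19) (nat_lit 1) (.p (nat_lit 20) (nat_lit 2) (.n (nat_lit 23) (nat_lit 2) (.n (nat_lit 24) (nat_lit 1) (.p (nat_lit 25) (nat_lit 2) (.p (nat_lit 26) (nat_lit 2) (.n (nat_lit 27) (nat_lit 1) (.n (nat_lit 28) (nat_lit 4) (.n (nat_lit 29) (nat_lit 2) (.p (nat_lit 31) (nat_lit 1) (.n (nat_lit 32) (nat_lit 1) (.n (nat_lit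 33) (nat_lit 3) (.n (nat_lit 34) (nat_lit 1) (.n (nat_lit 35) (nat_lit 3) (.n (nat_lit 36) (nat_lit 4) (.p (nat_lit 38) (nat_lit 3) (.p (nat_lit 39) (nat_lit 5) (.n (nat_lit 40) (nat_lit 1) (.n (nat_lit 44) (nat_lit 2) (.p (nat_lit 47) (nat_lit 4) (.p (nat_lit 48) (nat_lit 4) (.n (nat_lit 302) (nat_lit 1) (.p (nat_lit 308) (nat_lit 1) (.n (nat_lit 310) (nat_lit 1) (.p (nat_lit 318) (nat_lit 1) (.n (nat_lit 324) (nat_lit 1) (.n (nat_lit 325) (nat_lit 1) (.n (nat_lit 326) (nat_lit 1) (.n (nat_lit 327) (nat_lit 1) (.p (nat_lit 343) (nat_lit 1) (.p (nat_lit 344) (nat_lit 1) (.p (nat_lit 348) (nat_lit 1) .z)))))))))))))))))))))))))))))))))))))))))))))))) .nil)))))))))))))))))))))))))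

noncomputable def dC2c_i214 : IL := (.s true (nat_lit 1) (nat_lit 33) (nat_lit 2) (nat_lit 1) (nat_lit 6) true (nat_lit 5) true (nat_lit 12) true (nat_lit 0) true (nat_lit 16) true (nat_lit 17) (.s true (nat_lit 1) (nat_lit 73) (nat_lit 1) (nat_lit 2) (nat_lit 2) true (nat_lit 12) true (nat_lit 16) false (nat_lit 5) true (nat_lit 17) true (nat_lit 16) (.e true (nat_lit 1) (nat_lit 138) (nat_lit 6) (nat_lit 12) (.e false (nat_lit 3) (nat_lit 205) (nat_lit 2) (nat_lit 16) (.e false (nat_lit 3) (nat_lit 207) (nat_lit 2) (nat_lit 16) (.e true (nat_lit 1) (nat_lit 209) (nat_lit 2) (nat_lit 16) (.e true (nat_lit 2) (nat_lit 211) (nat_lit 2) (nat_lit 16) (.e false (nat_lit 3) (nat_lit 213) (nat_lit 2) (nat_lit 16) (.e true (nat_lit 1) (nat_lit 214) (nat_lit 2) (nat_lit 16) (.e false (nat_lit 1) (nat_lit 215) (nat_lit 2) (nat_lit 16) (.e true (nat_lit 3) (nat_lit 216) (nat_lit 2) (nat_lit 16)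 (.e false (nat_lit 1) (nat_lit 217) (nat_lit 2) (nat_lit 16) (.e false (nat_lit 1) (nat_lit 218) (nat_lit 2) (nat_lit 16) (.e true (nat_lit 2) (nat_lit 219) (nat_lit 2) (nat_lit 16) (.e false (nat_lit 1) (nat_lit 220) (nat_lit 2) (nat_lit 16) (.e false (nat_lit 1) (nat_lit 221) (nat_lit 2) (nat_lit 16) (.e false (nat_lit 1) (nat_lit 222) (nat_lit 2) (nat_lit 16) (.e true (nat_lit 1) (nat_lit 225) (nat_lit 2) (nat_lit 16) (.e true (nat_lit 3) (nat_lit 226) (nat_lit 2) (nat_lit 16) (.e false (nat_lit 3) (nat_lit 227) (nat_lit 2) (nat_lit 16) (.e false (nat_lit 2) (nat_lit 228) (nat_lit 2) (nat_lit 16) (.e false (nat_lit 2) (nat_lit 229) (nat_lit 2) (nat_lit 16) (.e false (nat_lit 2) (nat_lit 230) (nat_lit 2) (nat_lit 16) (.e true (nat_lit 2) (nat_lit 231) (nat_lit 2) (nat_lit 16) (.e false (nat_lit 1) (nat_lit 242) (nat_lit 2) (nat_lit 16) dC2c_i213)))))))))))))))))))))))))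

noncomputable def dC2c_i215 : IL := (.e true (nat_lit 1) (nat_lit 205) (nat_lit 2) (nat_lit 16) (.e true (nat_lit 1) (nat_lit 209) (nat_lit 2) (nat_lit 16) (.e true (nat_lit 3) (nat_lit 274) (nat_lit 1) (nat_lit 17) (.e true (nat_lit 3) (nat_lit 206) (nat_lit 2) (nat_lit 16) (.e false (nat_lit 2) (nat_lit 234) (nat_lit 2) (nat_lit 16) (.e false (nat_lit 3) (nat_lit 257) (nat_lit 1) (nat_lit 17) (.e true (nat_lit 2) (nat_lit 261) (nat_lit 1) (nat_lit 17) (.e true (nat_lit 1) (nat_lit 275) (nat_lit 1) (nat_lit 17) (.e false (nat_lit 1) (nat_lit 256) (nat_lit 1) (nat_lit 17) (.e true (nat_lit 1) (nat_lit 300) (nat_lit 0) (nat_lit 18) (.e false (nat_lit 1) (nat_lit 301) (nat_lit 0) (nat_lit 18) (.e false (nat_lit 3) (nat_lit 289) (nat_lit 0) (nat_lit 18) (.e true (nat_lit 1) (nat_lit 291) (nat_lit 0) (nat_lit 18) (.e true (nat_lit 2) (nat_lit 293) (nat_lit 0) (nat_lit 18) (.e true (nat_lit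 2) (nat_lit 296) (nat_lit 0) (nat_lit 18) (.e true (nat_lit 1) (nat_lit 297) (nat_lit 0) (nat_lit 18) (.e false (nat_lit 3) (nat_lit 290) (nat_lit 0) (nat_lit 18) (.e true (nat_lit 3) (nat_lit 294) (nat_lit 0) (nat_lit 18) (.e false (nat_lit 1) (nat_lit 295) (nat_lit 0) (nat_lit 18) (.e true (nat_lit 1) (nat_lit 292) (nat_lit 0) (nat_lit 18) (.e true (nat_lit 1) (nat_lit 299) (nat_lit 0) (nat_lit 18) (.u (nat_lit 2) (.p (nat_lit 64) (nat_lit 1) (.p (nat_lit 67) (nat_lit 1) (.n (nat_lit 69) (nat_lit 1) (.n (nat_lit 73) (nat_lit 1) (.n (nat_lit 79) (nat_lit 1) (.p (nat_lit 83) (nat_lit 1) (.p (nat_lit 91) (nat_lit 1) (.n (nat_lit 93) (nat_lit 1) (.p (nat_lit 94) (nat_lit 1) (.p (nat_lit 97) (nat_lit 1) (.n (nat_lit 99) (nat_lit 1) (.n (nat_lit 103) (nat_lit 1) (.p (nat_lit 108) (nat_lit 1) (.p (nat_lit 110) (nat_lit 1) (.n (nat_lit 113) (nat_lit 2) (.n (nat_lit 114) (nat_lit 1) (.p (nat_lit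 120) (nat_lit 1) (.p (nat_lit 121) (nat_lit 1) (.p (nat_lit 122) (nat_lit 1) (.p (nat_lit 123) (nat_lit 1) (.n (nat_lit 125) (nat_lit 1) (.n (nat_lit 127) (nat_lit 1) (.n (nat_lit 128) (nat_lit 1) (.p (nat_lit 132) (nat_lit 2) (.p (nat_lit 133) (nat_lit 1) (.n (nat_lit 135) (nat_lit 1) (.p (nat_lit 144) (nat_lit 1) (.n (nat_lit 147) (nat_lit 1) (.p (nat_lit 148) (nat_lit 1) (.p (nat_lit 149) (nat_lit 1) (.p (nat_lit 150) (nat_lit 1) (.n (nat_lit 151) (nat_lit 1) (.n (nat_lit 152) (nat_lit 1) (.p (nat_lit 153) (nat_lit 1) (.p (nat_lit 154) (nat_lit 1) (.p (nat_lit 162) (nat_lit 1) (.n (nat_lit 163) (nat_lit 1) (.n (nat_lit 164) (nat_lit 1) (.n (nat_lit 166) (nat_lit 1) (.p (nat_lit 169) (nat_lit 1) (.p (nat_lit 172) (nat_lit 1) (.n (nat_lit 173) (nat_lit 2) (.p (nat_lit 174) (nat_lit 2) (.p (nat_lit 175) (nat_lit 1) (.n (nat_lit 180) (nat_lit 2) (.n (nat_lit 184) (nat_lit 2) (.p (nat_lit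 188) (nat_lit 1) (.p (nat_lit 196) (nat_lit 1) (.p (nat_lit 200) (nat_lit 1) (.p (nat_lit 202) (nat_lit 1) (.p (nat_lit 203) (nat_lit 1) (.p (nat_lit 206) (nat_lit 1) (.p (nat_lit 208) (nat_lit 1) (.n (nat_lit 210) (nat_lit 1) (.p (nat_lit 211) (nat_lit 1) (.p (nat_lit 213) (nat_lit 2) (.n (nat_lit 214) (nat_lit 3) (.n (nat_lit 215) (nat_lit 1) (.p (nat_lit 216) (nat_lit 3) (.n (nat_lit 217) (nat_lit 3) .z)))))))))))))))))))))))))))))))))))))))))))))))))))))))))))) (.u (nat_lit 2) (.p (nat_lit 218) (nat_lit 2) (.p (nat_lit 219) (nat_lit 5) (.p (nat_lit 220) (nat_lit 1) (.n (nat_lit 221) (nat_lit 4) (.p (nat_lit 223) (nat_lit 6) (.p (nat_lit 224) (nat_lit 1) (.p (nat_lit 225) (nat_lit 4) (.p (nat_lit 226) (nat_lit 1) (.p (nat_lit 229) (nat_lit 1) (.n (nat_lit 230) (nat_lit 1) (.p (nat_lit 233) (nat_lit 2) (.p (nat_lit 234) (nat_lit 1) (.n (nat_lit 235) (nat_lit 1) (.p (nat_lit 237) (nat_lit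 1) (.p (nat_lit 239) (nat_lit 3) (.p (nat_lit 240) (nat_lit 1) (.p (nat_lit 241) (nat_lit 2) (.p (nat_lit 243) (nat_lit 1) (.n (nat_lit 245) (nat_lit 3) (.n (nat_lit 246) (nat_lit 2) (.p (nat_lit 247) (nat_lit 2) (.p (nat_lit 249) (nat_lit 1) (.p (nat_lit 251) (nat_lit 3) (.p (nat_lit 252) (nat_lit 1) (.p (nat_lit 254) (nat_lit 4) (.n (nat_lit 255) (nat_lit 1) (.n (nat_lit 256) (nat_lit 4) (.p (nat_lit 257) (nat_lit 3) (.p (nat_lit 258) (nat_lit 2) (.p (nat_lit 259) (nat_lit 2) (.p (nat_lit 260) (nat_lit 2) (.n (nat_lit 261) (nat_lit 3) (.n (nat_lit 262) (nat_lit 4) (.n (nat_lit 263) (nat_lit 1) (.n (nat_lit 264) (nat_lit 4) (.n (nat_lit 266) (nat_lit 1) (.n (nat_lit 267) (nat_lit 2) (.p (nat_lit 268) (nat_lit 1) (.p (nat_lit 269) (nat_lit 2) (.p (nat_lit 270) (nat_lit 1) (.n (nat_lit 272) (nat_lit 2) (.p (nat_lit 273) (nat_lit 1) (.n (nat_lit 274) (nat_lit 1) (.p (nat_lit 279) (nat_lit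 1) (.n (nat_lit 281) (nat_lit 1) (.p (nat_lit 285) (nat_lit 3) (.p (nat_lit 286) (nat_lit 2) (.p (nat_lit 288) (nat_lit 1) (.n (nat_lit 292) (nat_lit 1) (.p (nat_lit 293) (nat_lit 1) (.p (nat_lit 294) (nat_lit 1) (.p (nat_lit 297) (nat_lit 1) (.p (nat_lit 299) (nat_lit 1) (.n (nat_lit 300) (nat_lit 1) (.n (nat_lit 301) (nat_lit 1) (.n (nat_lit 302) (nat_lit 7) (.p (nat_lit 303) (nat_lit 6) (.p (nat_lit 304) (nat_lit 12) (.p (nat_lit 305) (nat_lit 10) (.p (nat_lit 306) (nat_lit 21) .z)))))))))))))))))))))))))))))))))))))))))))))))))))))))))))) (.u (nat_lit 2) (.n (nat_lit 307) (nat_lit 6) (.n (nat_lit 308) (nat_lit 18) (.p (nat_lit 309) (nat_lit 10) (.p (nat_lit 310) (nat_lit 12) (.p (nat_lit 311) (nat_lit 4) (.p (nat_lit 312) (nat_lit 18) (.n (nat_lit 313) (nat_lit 26) (.p (nat_lit 314) (nat_lit 3) (.p (nat_lit 315) (nat_lit 6) (.n (nat_lit 316) (nat_lit 14) (.p (nat_lit 317) (nat_lit 11)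 (.n (nat_lit 318) (nat_lit 20) (.p (nat_lit 319) (nat_lit 6) (.p (nat_lit 320) (nat_lit 2) (.p (nat_lit 321) (nat_lit 7) (.p (nat_lit 322) (nat_lit 2) (.n (nat_lit 323) (nat_lit 11) (.p (nat_lit 324) (nat_lit 1) (.n (nat_lit 325) (nat_lit 9) (.p (nat_lit 326) (nat_lit 12) (.p (nat_lit 327) (nat_lit 13) (.p (nat_lit 328) (nat_lit 2) (.n (nat_lit 329) (nat_lit 1) (.p (nat_lit 330) (nat_lit 5) (.n (nat_lit 331) (nat_lit 13) (.n (nat_lit 332) (nat_lit 5) (.n (nat_lit 334) (nat_lit 3) (.p (nat_lit 335) (nat_lit 4) (.p (nat_lit 336) (nat_lit 3) (.p (nat_lit 337) (nat_lit 1) (.n (nat_lit 338) (nat_lit 5) (.n (nat_lit 339) (nat_lit 15) (.p (nat_lit 341) (nat_lit 2) (.p (nat_lit 342) (nat_lit 8) (.p (nat_lit 343) (nat_lit 8) (.p (nat_lit 344) (nat_lit 8) (.n (nat_lit 345) (nat_lit 2) (.n (nat_lit 346) (nat_lit 6) (.n (nat_lit 347) (nat_lit 9) (.n (nat_lit 348) (nat_lit 12) (.p (nat_lit 349) (nat_lit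 20) (.p (nat_lit 350) (nat_lit 7) (.p (nat_lit 351) (nat_lit 10) (.n (nat_lit 352) (nat_lit 14) (.n (nat_lit 353) (nat_lit 8) (.p (nat_lit 354) (nat_lit 7) (.p (nat_lit 355) (nat_lit 13) (.n (nat_lit 356) (nat_lit 1) (.n (nat_lit 357) (nat_lit 4) (.p (nat_lit 358) (nat_lit 12) (.p (nat_lit 359) (nat_lit 9) (.n (nat_lit 360) (nat_lit 8) (.p (nat_lit 361) (nat_lit 4) (.n (nat_lit 362) (nat_lit 3) (.n (nat_lit 363) (nat_lit 3) (.p (nat_lit 364) (nat_lit 1) (.n (nat_lit 365) (nat_lit 4) (.n (nat_lit 366) (nat_lit 3) (.n (nat_lit 367) (nat_lit 15) (.p (nat_lit 368) (nat_lit 13) .z)))))))))))))))))))))))))))))))))))))))))))))))))))))))))))) (.u (nat_lit 2) (.n (nat_lit 369) (nat_lit 13) (.p (nat_lit 370) (nat_lit 10) (.n (nat_lit 371) (nat_lit 1) (.n (nat_lit 372) (nat_lit 6) (.n (nat_lit 373) (nat_lit 14) (.p (nat_lit 374) (nat_lit 3) (.n (nat_lit 375) (nat_lit 3) (.p (nat_lit 376) (nat_lit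 5) (.p (nat_lit 377) (nat_lit 14) (.n (nat_lit 378) (nat_lit 6) (.p (nat_lit 379) (nat_lit 5) (.n (nat_lit 380) (nat_lit 5) (.p (nat_lit 382) (nat_lit 3) (.n (nat_lit 383) (nat_lit 4) (.n (nat_lit 384) (nat_lit 1) (.p (nat_lit 385) (nat_lit 2) (.p (nat_lit 386) (nat_lit 7) (.n (nat_lit 387) (nat_lit 5) (.n (nat_lit 388) (nat_lit 3) (.n (nat_lit 389) (nat_lit 13) (.n (nat_lit 390) (nat_lit 5) (.p (nat_lit 391) (nat_lit 3) (.n (nat_lit 392) (nat_lit 7) (.n (nat_lit 393) (nat_lit 8) (.p (nat_lit 395) (nat_lit 9) (.n (nat_lit 397) (nat_lit 6) (.p (nat_lit 398) (nat_lit 8) (.n (nat_lit 399) (nat_lit 3) (.p (nat_lit 400) (nat_lit 1) (.p (nat_lit 401) (nat_lit 1) .z)))))))))))))))))))))))))))))) .nil)))))))))))))))))))))))))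

noncomputable def dC2c_i216 : IL := (.s true (nat_lit 1) (nat_lit 103) (nat_lit 0) (nat_lit 1) (nat_lit 1) true (nat_lit 15) true (nat_lit 17) false (nat_lit 10) true (nat_lit 18) true (nat_lit 17) (.s false (nat_lit 3) (nat_lit 104) (nat_lit 0) (nat_lit 1) (nat_lit 1) true (nat_lit 15) true (nat_lit 17) false (nat_lit 10) true (nat_lit 18) true (nat_lit 17) (.s true (nat_lit 1) (nat_lit 101) (nat_lit 1) (nat_lit 1) (nat_lit 0) true (nat_lit 15) true (nat_lit 18) false (nat_lit 10) true (nat_lit 17) true (nat_lit 17) (.s true (nat_lit 1) (nat_lit 102) (nat_lit 1) (nat_lit 1) (nat_lit 0) true (nat_lit 15) true (nat_lit 18) false (nat_lit 10) true (nat_lit 17) true (nat_lit 17) (.s false (nat_lit 3) (nat_lit 103) (nat_lit 1) (nat_lit 1) (nat_lit 0) true (nat_lit 15) true (nat_lit 18) false (nat_lit 10) true (nat_lit 17) true (nat_lit 17) (.s true (nat_lit 2) (nat_lit 104) (nat_lit 1) (nat_lit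 1) (nat_lit 0) true (nat_lit 15) true (nat_lit 18) false (nat_lit 10) true (nat_lit 17) true (nat_lit 17) (.e false (nat_lit 2) (nat_lit 208) (nat_lit 2) (nat_lit 16) (.e true (nat_lit 3) (nat_lit 252) (nat_lit 1) (nat_lit 17) (.e false (nat_lit 2) (nat_lit 253) (nat_lit 1) (nat_lit 17) (.e true (nat_lit 2) (nat_lit 254) (nat_lit 1) (nat_lit 17) (.e false (nat_lit 1) (nat_lit 258) (nat_lit 1) (nat_lit 17) (.e true (nat_lit 3) (nat_lit 263) (nat_lit 1) (nat_lit 17) (.e true (nat_lit 3) (nat_lit 265) (nat_lit 1) (nat_lit 17) (.e false (nat_lit 3) (nat_lit 267) (nat_lit 1) (nat_lit 17) (.e true (nat_lit 1) (nat_lit 269) (nat_lit 1) (nat_lit 17) (.e false (nat_lit 2) (nat_lit 270) (nat_lit 1) (nat_lit 17) (.e false (nat_lit 3) (nat_lit 271) (nat_lit 1) (nat_lit 17) (.e false (nat_lit 2) (nat_lit 272) (nat_lit 1) (nat_lit 17) (.e false (nat_lit 3) (nat_lit 273) (nat_lit 1) (nat_lit 17) (.e true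 (nat_lit 3) (nat_lit 276) (nat_lit 1) (nat_lit 17) (.e true (nat_lit 2) (nat_lit 277) (nat_lit 1) (nat_lit 17) (.e false (nat_lit 1) (nat_lit 262) (nat_lit 1) (nat_lit 17) (.e false (nat_lit 1) (nat_lit 264) (nat_lit 1) (nat_lit 17) (.e true (nat_lit 2) (nat_lit 266) (nat_lit 1) (nat_lit 17) (.e true (nat_lit 1) (nat_lit 298) (nat_lit 0) (nat_lit 18) dC2c_i215)))))))))))))))))))))))))

noncomputable def dC2c_i217 : IL := (.s true (nat_lit 3) (nat_lit 88) (nat_lit 1) (nat_lit 1) (nat_lit 2) true (nat_lit 12) true (nat_lit 16) false (nat_lit 7) true (nat_lit 17) true (nat_lit 17) (.s false (nat_lit 2) (nat_lit 80) (nat_lit 1) (nat_lit 2) (nat_lit 1) true (nat_lit 14) true (nat_lit 17) false (nat_lit 7) true (nat_lit 17) true (nat_lit 16) (.s true (nat_lit 1) (nat_lit 81) (nat_lit 1) (nat_lit 2) (nat_lit 1) true (nat_lit 14) true (nat_lit 17) false (nat_lit 7) true (nat_lit 17) true (nat_lit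 16) (.s true (nat_lit 1) (nat_lit 82) (nat_lit 1) (nat_lit 2) (nat_lit 1) true (nat_lit 14) true (nat_lit 17) false (nat_lit 7) true (nat_lit 17) true (nat_lit 16) (.s false (nat_lit 1) (nat_lit 83) (nat_lit 1) (nat_lit 2) (nat_lit 1) true (nat_lit 14) true (nat_lit 17) false (nat_lit 7) true (nat_lit 17) true (nat_lit 16) (.s true (nat_lit 1) (nat_lit 84) (nat_lit 1) (nat_lit 2) (nat_lit 1) true (nat_lit 14) true (nat_lit 17) false (nat_lit 7) true (nat_lit 17) true (nat_lit 16) (.s false (nat_lit 2) (nat_lit 85) (nat_lit 1) (nat_lit 2) (nat_lit 1) true (nat_lit 14) true (nat_lit 17) false (nat_lit 7) true (nat_lit 17) true (nat_lit 16) (.s true (nat_lit 3) (nat_lit 87) (nat_lit 1) (nat_lit 2) (nat_lit 1) true (nat_lit 14) true (nat_lit 17) false (nat_lit 7) true (nat_lit 17) true (nat_lit 16) (.s true (nat_lit 1) (nat_lit 88) (nat_lit 1) (nat_lit 2) (nat_lit 1) true (nat_lit 14) true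 (nat_lit 17) false (nat_lit 7) true (nat_lit 17) true (nat_lit 16) (.s false (nat_lit 1) (nat_lit 81) (nat_lit 2) (nat_lit 1) (nat_lit 1) true (nat_lit 12) true (nat_lit 17) false (nat_lit 7) true (nat_lit 16) true (nat_lit 17) (.s true (nat_lit 1) (nat_lit 83) (nat_lit 2) (nat_lit 1) (nat_lit 1) true (nat_lit 12) true (nat_lit 17) false (nat_lit 7) true (nat_lit 16) true (nat_lit 17) (.s true (nat_lit 2) (nat_lit 88) (nat_lit 2) (nat_lit 1) (nat_lit 1) true (nat_lit 12) true (nat_lit 17) false (nat_lit 7) true (nat_lit 16) true (nat_lit 17) (.s false (nat_lit 1) (nat_lit 89) (nat_lit 2) (nat_lit 1) (nat_lit 1) true (nat_lit 12) true (nat_lit 17) false (nat_lit 7) true (nat_lit 16) true (nat_lit 17) (.s true (nat_lit 2) (nat_lit 92) (nat_lit 0) (nat_lit 1) (nat_lit 2) true (nat_lit 13) true (nat_lit 16) false (nat_lit 8) true (nat_lit 18) true (nat_lit 17) (.s false (nat_lit 3) (nat_lit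 93) (nat_lit 0) (nat_lit 1) (nat_lit 2) true (nat_lit 13) true (nat_lit 16) false (nat_lit 8) true (nat_lit 18) true (nat_lit 17) (.s false (nat_lit 2) (nat_lit 94) (nat_lit 0) (nat_lit 1) (nat_lit 2) true (nat_lit 13) true (nat_lit 16) false (nat_lit 8) true (nat_lit 18) true (nat_lit 17) (.s true (nat_lit 1) (nat_lit 96) (nat_lit 0) (nat_lit 1) (nat_lit 2) true (nat_lit 13) true (nat_lit 16) false (nat_lit 8) true (nat_lit 18) true (nat_lit 17) (.s true (nat_lit 2) (nat_lit 91) (nat_lit 0) (nat_lit 2) (nat_lit 1) true (nat_lit 15) true (nat_lit 17) false (nat_lit 8) true (nat_lit 18) true (nat_lit 16) (.s true (nat_lit 2) (nat_lit 92) (nat_lit 1) (nat_lit 0) (nat_lit 2) true (nat_lit 12) true (nat_lit 16) false (nat_lit 8) true (nat_lit 17) true (nat_lit 18) (.s true (nat_lit 3) (nat_lit 92) (nat_lit 1) (nat_lit 2) (nat_lit 0) true (nat_lit 15) true (nat_lit 18) false (nat_lit 8) true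 (nat_lit 17) true (nat_lit 16) (.s false (nat_lit 1) (nat_lit 93) (nat_lit 1) (nat_lit 2) (nat_lit 0) true (nat_lit 15) true (nat_lit 18) false (nat_lit 8) true (nat_lit 17) true (nat_lit 16) (.s true (nat_lit 3) (nat_lit 95) (nat_lit 1) (nat_lit 2) (nat_lit 0) true (nat_lit 15) true (nat_lit 18) false (nat_lit 8) true (nat_lit 17) true (nat_lit 16) (.s true (nat_lit 1) (nat_lit 92) (nat_lit 2) (nat_lit 1) (nat_lit 0) true (nat_lit 13) true (nat_lit 18) false (nat_lit 8) true (nat_lit 16) true (nat_lit 17) (.s true (nat_lit 3) (nat_lit 93) (nat_lit 2) (nat_lit 1) (nat_lit 0) true (nat_lit 13) true (nat_lit 18) false (nat_lit 8) true (nat_lit 16) true (nat_lit 17) (.s true (nat_lit 3) (nat_lit 96) (nat_lit 2) (nat_lit 1) (nat_lit 0) true (nat_lit 13) true (nat_lit 18) false (nat_lit 8) true (nat_lit 16) true (nat_lit 17) dC2c_i216)))))))))))))))))))))))))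

noncomputable def dC2c_i218 : IL := (.s false (nat_lit 3) (nat_lit 65) (nat_lit 2) (nat_lit 1) (nat_lit 2) true (nat_lit 11) true (nat_lit 16) false (nat_lit 5) true (nat_lit 16) true (nat_lit 17) (.s false (nat_lit 2) (nat_lit 66) (nat_lit 2) (nat_lit 1) (nat_lit 2) true (nat_lit 11) true (nat_lit 16) false (nat_lit 5) true (nat_lit 16) true (nat_lit 17) (.s false (nat_lit 2) (nat_lit 67) (nat_lit 2) (nat_lit 1) (nat_lit 2) true (nat_lit 11) true (nat_lit 16) false (nat_lit 5) true (nat_lit 16) true (nat_lit 17) (.s true (nat_lit 2) (nat_lit 73) (nat_lit 2) (nat_lit 1) (nat_lit 2) true (nat_lit 11) true (nat_lit 16) false (nat_lit 5) true (nat_lit 16) true (nat_lit 17) (.s false (nat_lit 1) (nat_lit 60) (nat_lit 2) (nat_lit 2) (nat_lit 1) true (nat_lit 12) true (nat_lit 17) false (nat_lit 5) true (nat_lit 16) true (nat_lit 16) (.s false (nat_lit 2) (nat_lit 61) (nat_lit 2) (nat_lit 2)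 (nat_lit 1) true (nat_lit 12) true (nat_lit 17) false (nat_lit 5) true (nat_lit 16) true (nat_lit 16) (.s true (nat_lit 2) (nat_lit 62) (nat_lit 2) (nat_lit 2) (nat_lit 1) true (nat_lit 12) true (nat_lit 17) false (nat_lit 5) true (nat_lit 16) true (nat_lit 16) (.s true (nat_lit 1) (nat_lit 63) (nat_lit 2) (nat_lit 2) (nat_lit 1) true (nat_lit 12) true (nat_lit 17) false (nat_lit 5) true (nat_lit 16) true (nat_lit 16) (.s true (nat_lit 2) (nat_lit 65) (nat_lit 2) (nat_lit 2) (nat_lit 1) true (nat_lit 12) true (nat_lit 17) false (nat_lit 5) true (nat_lit 16) true (nat_lit 16) (.s true (nat_lit 3) (nat_lit 67) (nat_lit 2) (nat_lit 2) (nat_lit 1) true (nat_lit 12) true (nat_lit 17) false (nat_lit 5) true (nat_lit 16) true (nat_lit 16) (.s true (nat_lit 1) (nat_lit 68) (nat_lit 2) (nat_lit 2) (nat_lit 1) true (nat_lit 12) true (nat_lit 17) false (nat_lit 5) true (nat_lit 16) true (nat_lit 16)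 (.s true (nat_lit 3) (nat_lit 69) (nat_lit 2) (nat_lit 2) (nat_lit 1) true (nat_lit 12) true (nat_lit 17) false (nat_lit 5) true (nat_lit 16) true (nat_lit 16) (.s true (nat_lit 3) (nat_lit 73) (nat_lit 2) (nat_lit 2) (nat_lit 1) true (nat_lit 12) true (nat_lit 17) false (nat_lit 5) true (nat_lit 16) true (nat_lit 16) (.s true (nat_lit 1) (nat_lit 74) (nat_lit 0) (nat_lit 2) (nat_lit 2) true (nat_lit 13) true (nat_lit 16) false (nat_lit 6) true (nat_lit 18) true (nat_lit 16) (.s false (nat_lit 3) (nat_lit 75) (nat_lit 0) (nat_lit 2) (nat_lit 2) true (nat_lit 13) true (nat_lit 16) false (nat_lit 6) true (nat_lit 18) true (nat_lit 16) (.s false (nat_lit 1) (nat_lit 76) (nat_lit 0) (nat_lit 2) (nat_lit 2) true (nat_lit 13) true (nat_lit 16) false (nat_lit 6) true (nat_lit 18) true (nat_lit 16) (.s false (nat_lit 3) (nat_lit 77) (nat_lit 0) (nat_lit 2) (nat_lit 2) true (nat_lit 13) true (nat_lit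 16) false (nat_lit 6) true (nat_lit 18) true (nat_lit 16) (.s true (nat_lit 1) (nat_lit 78) (nat_lit 0) (nat_lit 2) (nat_lit 2) true (nat_lit 13) true (nat_lit 16) false (nat_lit 6) true (nat_lit 18) true (nat_lit 16) (.s false (nat_lit 2) (nat_lit 79) (nat_lit 0) (nat_lit 2) (nat_lit 2) true (nat_lit 13) true (nat_lit 16) false (nat_lit 6) true (nat_lit 18) true (nat_lit 16) (.s true (nat_lit 1) (nat_lit 74) (nat_lit 2) (nat_lit 0) (nat_lit 2) true (nat_lit 11) true (nat_lit 16) false (nat_lit 6) true (nat_lit 16) true (nat_lit 18) (.s false (nat_lit 2) (nat_lit 79) (nat_lit 2) (nat_lit 0) (nat_lit 2) true (nat_lit 11) true (nat_lit 16) false (nat_lit 6) true (nat_lit 16) true (nat_lit 18) (.s true (nat_lit 3) (nat_lit 74) (nat_lit 2) (nat_lit 2) (nat_lit 0) true (nat_lit 13) true (nat_lit 18) false (nat_lit 6) true (nat_lit 16) true (nat_lit 16) (.s false (nat_lit 2) (nat_lit 79) (nat_lit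 2) (nat_lit 2) (nat_lit 0) true (nat_lit 13) true (nat_lit 18) false (nat_lit 6) true (nat_lit 16) true (nat_lit 16) (.s true (nat_lit 3) (nat_lit 80) (nat_lit 1) (nat_lit 1) (nat_lit 2) true (nat_lit 12) true (nat_lit 16) false (nat_lit 7) true (nat_lit 17) true (nat_lit 17) (.s true (nat_lit 2) (nat_lit 81) (nat_lit 1) (nat_lit 1) (nat_lit 2) true (nat_lit 12) true (nat_lit 16) false (nat_lit 7) true (nat_lit 17) true (nat_lit 17) dC2c_i217)))))))))))))))))))))))))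

noncomputable def dC2c_i219 : IL := (.s false (nat_lit 3) (nat_lit 46) (nat_lit 6) (nat_lit 1) (nat_lit 0) true (nat_lit 8) true (nat_lit 18) false (nat_lit 2) true (nat_lit 12) true (nat_lit 17) (.s false (nat_lit 3) (nat_lit 48) (nat_lit 0) (nat_lit 1) (nat_lit 4) true (nat_lit 10) true (nat_lit 14) false (nat_lit 3) true (nat_lit 18) true (nat_lit 17) (.s false (nat_lit 1) (nat_lit 48) (nat_lit 1) (nat_lit 0) (nat_lit 4) true (nat_lit 9) true (nat_lit 14) false (nat_lit 3) true (nat_lit 17) true (nat_lit 18) (.s false (nat_lit 3) (nat_lit 48) (nat_lit 1) (nat_lit 1) (nat_lit 3) true (nat_lit 10) true (nat_lit 15) false (nat_lit 3) true (nat_lit 17) true (nat_lit 17) (.s true (nat_lit 1) (nat_lit 48) (nat_lit 1) (nat_lit 4) (nat_lit 0) true (nat_lit 15) true (nat_lit 18) false (nat_lit 3) true (nat_lit 17) true (nat_lit 14) (.s false (nat_lit 1) (nat_lit 48) (nat_lit 4) (nat_lit 0) (nat_lit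 1) true (nat_lit 9) true (nat_lit 17) false (nat_lit 3) true (nat_lit 14) true (nat_lit 18) (.s false (nat_lit 2) (nat_lit 48) (nat_lit 4) (nat_lit 1) (nat_lit 0) true (nat_lit 10) true (nat_lit 18) false (nat_lit 3) true (nat_lit 14) true (nat_lit 17) (.s false (nat_lit 2) (nat_lit 52) (nat_lit 2) (nat_lit 2) (nat_lit 2) true (nat_lit 11) true (nat_lit 16) false (nat_lit 4) true (nat_lit 16) true (nat_lit 16) (.s false (nat_lit 3) (nat_lit 53) (nat_lit 2) (nat_lit 2) (nat_lit 2) true (nat_lit 11) true (nat_lit 16) false (nat_lit 4) true (nat_lit 16) true (nat_lit 16) (.s false (nat_lit 1) (nat_lit 54) (nat_lit 2) (nat_lit 2) (nat_lit 2) true (nat_lit 11) true (nat_lit 16) false (nat_lit 4) true (nat_lit 16) true (nat_lit 16) (.s false (nat_lit 2) (nat_lit 55) (nat_lit 2) (nat_lit 2) (nat_lit 2) true (nat_lit 11) true (nat_lit 16) false (nat_lit 4) true (nat_lit 16) true (nat_lit 16) (.s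 false (nat_lit 3) (nat_lit 56) (nat_lit 2) (nat_lit 2) (nat_lit 2) true (nat_lit 11) true (nat_lit 16) false (nat_lit 4) true (nat_lit 16) true (nat_lit 16) (.s false (nat_lit 1) (nat_lit 57) (nat_lit 2) (nat_lit 2) (nat_lit 2) true (nat_lit 11) true (nat_lit 16) false (nat_lit 4) true (nat_lit 16) true (nat_lit 16) (.s false (nat_lit 3) (nat_lit 59) (nat_lit 2) (nat_lit 2) (nat_lit 2) true (nat_lit 11) true (nat_lit 16) false (nat_lit 4) true (nat_lit 16) true (nat_lit 16) (.s true (nat_lit 2) (nat_lit 60) (nat_lit 1) (nat_lit 2) (nat_lit 2) true (nat_lit 12) true (nat_lit 16) false (nat_lit 5) true (nat_lit 17) true (nat_lit 16) (.s true (nat_lit 2) (nat_lit 61) (nat_lit 1) (nat_lit 2) (nat_lit 2) true (nat_lit 12) true (nat_lit 16) false (nat_lit 5) true (nat_lit 17) true (nat_lit 16) (.s false (nat_lit 1) (nat_lit 62) (nat_lit 1) (nat_lit 2) (nat_lit 2) true (nat_lit 12) true (nat_lit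 16) false (nat_lit 5) true (nat_lit 17) true (nat_lit 16) (.s false (nat_lit 1) (nat_lit 64) (nat_lit 1) (nat_lit 2) (nat_lit 2) true (nat_lit 12) true (nat_lit 16) false (nat_lit 5) true (nat_lit 17) true (nat_lit 16) (.s false (nat_lit 2) (nat_lit 65) (nat_lit 1) (nat_lit 2) (nat_lit 2) true (nat_lit 12) true (nat_lit 16) false (nat_lit 5) true (nat_lit 17) true (nat_lit 16) (.s false (nat_lit 1) (nat_lit 66) (nat_lit 1) (nat_lit 2) (nat_lit 2) true (nat_lit 12) true (nat_lit 16) false (nat_lit 5) true (nat_lit 17) true (nat_lit 16) (.s false (nat_lit 3) (nat_lit 67) (nat_lit 1) (nat_lit 2) (nat_lit 2) true (nat_lit 12) true (nat_lit 16) false (nat_lit 5) true (nat_lit 17) true (nat_lit 16) (.s false (nat_lit 3) (nat_lit 68) (nat_lit 1) (nat_lit 2) (nat_lit 2) true (nat_lit 12) true (nat_lit 16) false (nat_lit 5) true (nat_lit 17) true (nat_lit 16) (.s false (nat_lit 2) (nat_lit 69) (nat_lit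 1) (nat_lit 2) (nat_lit 2) true (nat_lit 12) true (nat_lit 16) false (nat_lit 5) true (nat_lit 17) true (nat_lit 16) (.s true (nat_lit 3) (nat_lit 71) (nat_lit 1) (nat_lit 2) (nat_lit 2) true (nat_lit 12) true (nat_lit 16) false (nat_lit 5) true (nat_lit 17) true (nat_lit 16) (.s false (nat_lit 1) (nat_lit 62) (nat_lit 2) (nat_lit 1) (nat_lit 2) true (nat_lit 11) true (nat_lit 16) false (nat_lit 5) true (nat_lit 16) true (nat_lit 17) dC2c_i218)))))))))))))))))))))))))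

noncomputable def dC2c_i220 : IL := (.s true (nat_lit 1) (nat_lit 33) (nat_lit 2) (nat_lit 4) (nat_lit 2) true (nat_lit 11) true (nat_lit 16) true (nat_lit 0) true (nat_lit 16) true (nat_lit 14) (.s false (nat_lit 2) (nat_lit 33) (nat_lit 2) (nat_lit 6) (nat_lit 1) true (nat_lit 12) true (nat_lit 17) true (nat_lit 0) true (nat_lit 16) true (nat_lit 12) (.s false (nat_lit 2) (nat_lit 35) (nat_lit 2) (nat_lit 6) (nat_lit 1) true (nat_lit 12) true (nat_lit 17) true (nat_lit 0) true (nat_lit 16) true (nat_lit 12) (.s false (nat_lit 1) (nat_lit 34) (nat_lit 4) (nat_lit 2) (nat_lit 2) true (nat_lit 7) true (nat_lit 16) true (nat_lit 0) true (nat_lit 14) true (nat_lit 16) (.s true (nat_lit 1) (nat_lit 35) (nat_lit 4) (nat_lit 2) (nat_lit 2) true (nat_lit 7) true (nat_lit 16) true (nat_lit 0) true (nat_lit 14) true (nat_lit 16) (.s false (nat_lit 2) (nat_lit 33) (nat_lit 7) (nat_lit 1) (nat_lit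 1) true (nat_lit 5) true (nat_lit 17) true (nat_lit 0) true (nat_lit 11) true (nat_lit 17) (.s true (nat_lit 2) (nat_lit 38) (nat_lit 7) (nat_lit 1) (nat_lit 1) true (nat_lit 5) true (nat_lit 17) true (nat_lit 0) true (nat_lit 11) true (nat_lit 17) (.s false (nat_lit 1) (nat_lit 40) (nat_lit 1) (nat_lit 5) (nat_lit 2) true (nat_lit 12) true (nat_lit 16) false (nat_lit 0) true (nat_lit 17) true (nat_lit 13) (.s true (nat_lit 2) (nat_lit 40) (nat_lit 2) (nat_lit 2) (nat_lit 3) true (nat_lit 8) true (nat_lit 15) false (nat_lit 0) true (nat_lit 16) true (nat_lit 16) (.s true (nat_lit 1) (nat_lit 40) (nat_lit 2) (nat_lit 3) (nat_lit 2) true (nat_lit 11) true (nat_lit 16) false (nat_lit 0) true (nat_lit 16) true (nat_lit 15) (.s false (nat_lit 2) (nat_lit 40) (nat_lit 2) (nat_lit 5) (nat_lit 1) true (nat_lit 12) true (nat_lit 17) false (nat_lit 0) true (nat_lit 16) true (nat_lit 13) (.s true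 (nat_lit 1) (nat_lit 41) (nat_lit 6) (nat_lit 0) (nat_lit 2) true (nat_lit 5) true (nat_lit 16) false (nat_lit 0) true (nat_lit 12) true (nat_lit 18) (.s true (nat_lit 1) (nat_lit 40) (nat_lit 6) (nat_lit 2) (nat_lit 0) true (nat_lit 8) true (nat_lit 18) false (nat_lit 0) true (nat_lit 12) true (nat_lit 16) (.s false (nat_lit 3) (nat_lit 42) (nat_lit 1) (nat_lit 2) (nat_lit 4) true (nat_lit 9) true (nat_lit 14) false (nat_lit 1) true (nat_lit 17) true (nat_lit 16) (.s true (nat_lit 1) (nat_lit 45) (nat_lit 1) (nat_lit 3) (nat_lit 2) true (nat_lit 12) true (nat_lit 16) false (nat_lit 2) true (nat_lit 17) true (nat_lit 15) (.s false (nat_lit 2) (nat_lit 46) (nat_lit 1) (nat_lit 3) (nat_lit 2) true (nat_lit 12) true (nat_lit 16) false (nat_lit 2) true (nat_lit 17) true (nat_lit 15) (.s true (nat_lit 3) (nat_lit 47) (nat_lit 1) (nat_lit 3) (nat_lit 2) true (nat_lit 12) true (nat_lit 16) false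 (nat_lit 2) true (nat_lit 17) true (nat_lit 15) (.s true (nat_lit 2) (nat_lit 47) (nat_lit 1) (nat_lit 5) (nat_lit 1) true (nat_lit 14) true (nat_lit 17) false (nat_lit 2) true (nat_lit 17) true (nat_lit 13) (.s true (nat_lit 3) (nat_lit 46) (nat_lit 2) (nat_lit 3) (nat_lit 1) true (nat_lit 12) true (nat_lit 17) false (nat_lit 2) true (nat_lit 16) true (nat_lit 15) (.s false (nat_lit 3) (nat_lit 46) (nat_lit 2) (nat_lit 4) (nat_lit 0) true (nat_lit 13) true (nat_lit 18) false (nat_lit 2) true (nat_lit 16) true (nat_lit 14) (.s false (nat_lit 1) (nat_lit 47) (nat_lit 4) (nat_lit 0) (nat_lit 2) true (nat_lit 7) true (nat_lit 16) false (nat_lit 2) true (nat_lit 14) true (nat_lit 18) (.s true (nat_lit 3) (nat_lit 47) (nat_lit 4) (nat_lit 2) (nat_lit 0) true (nat_lit 10) true (nat_lit 18) false (nat_lit 2) true (nat_lit 14) true (nat_lit 16) (.s true (nat_lit 2) (nat_lit 47) (nat_lit 5) (nat_lit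 1) (nat_lit 1) true (nat_lit 8) true (nat_lit 17) false (nat_lit 2) true (nat_lit 13) true (nat_lit 17) (.s true (nat_lit 3) (nat_lit 46) (nat_lit 6) (nat_lit 0) (nat_lit 1) true (nat_lit 7) true (nat_lit 17) false (nat_lit 2) true (nat_lit 12) true (nat_lit 18) (.s true (nat_lit 3) (nat_lit 47) (nat_lit 6) (nat_lit 0) (nat_lit 1) true (nat_lit 7) true (nat_lit 17) false (nat_lit 2) true (nat_lit 12) true (nat_lit 18) dC2c_i219)))))))))))))))))))))))))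

noncomputable def dC2c_i221 : IL := (.s true (nat_lit 3) (nat_lit 25) (nat_lit 2) (nat_lit 2) (nat_lit 6) true (nat_lit 5) true (nat_lit 12) true (nat_lit 2) true (nat_lit 16) true (nat_lit 16) (.s true (nat_lit 1) (nat_lit 27) (nat_lit 2) (nat_lit 2) (nat_lit 6) true (nat_lit 5) true (nat_lit 12) true (nat_lit 2) true (nat_lit 16) true (nat_lit 16) (.s false (nat_lit 3) (nat_lit 28) (nat_lit 2) (nat_lit 7) (nat_lit 1) true (nat_lit 12) true (nat_lit 17) true (nat_lit 2) true (nat_lit 16) true (nat_lit 11) (.s false (nat_lit 2) (nat_lit 25) (nat_lit 6) (nat_lit 2) (nat_lit 2) true (nat_lit 5) true (nat_lit 16) true (nat_lit 2) true (nat_lit 12) true (nat_lit 16) (.s true (nat_lit 2) (nat_lit 26) (nat_lit 7) (nat_lit 1) (nat_lit 2) true (nat_lit 4) true (nat_lit 16) true (nat_lit 2) true (nat_lit 11) true (nat_lit 17) (.s true (nat_lit 2) (nat_lit 25) (nat_lit 7) (nat_lit 2) (nat_lit 1)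 true (nat_lit 5) true (nat_lit 17) true (nat_lit 2) true (nat_lit 11) true (nat_lit 16) (.s false (nat_lit 3) (nat_lit 27) (nat_lit 7) (nat_lit 2) (nat_lit 1) true (nat_lit 5) true (nat_lit 17) true (nat_lit 2) true (nat_lit 11) true (nat_lit 16) (.s true (nat_lit 3) (nat_lit 30) (nat_lit 0) (nat_lit 2) (nat_lit 7) true (nat_lit 6) true (nat_lit 11) true (nat_lit 1) true (nat_lit 18) true (nat_lit 16) (.s true (nat_lit 3) (nat_lit 30) (nat_lit 2) (nat_lit 0) (nat_lit 7) true (nat_lit 4) true (nat_lit 11) true (nat_lit 1) true (nat_lit 16) true (nat_lit 18) (.s false (nat_lit 2) (nat_lit 31) (nat_lit 2) (nat_lit 7) (nat_lit 0) true (nat_lit 13) true (nat_lit 18) true (nat_lit 1) true (nat_lit 16) true (nat_lit 11) (.s false (nat_lit 1) (nat_lit 31) (nat_lit 5) (nat_lit 2) (nat_lit 2) true (nat_lit 6) true (nat_lit 16) true (nat_lit 1) true (nat_lit 13) true (nat_lit 16) (.s false (nat_lit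 3) (nat_lit 33) (nat_lit 1) (nat_lit 1) (nat_lit 7) true (nat_lit 5) true (nat_lit 11) true (nat_lit 0) true (nat_lit 17) true (nat_lit 17) (.s false (nat_lit 2) (nat_lit 34) (nat_lit 1) (nat_lit 1) (nat_lit 7) true (nat_lit 5) true (nat_lit 11) true (nat_lit 0) true (nat_lit 17) true (nat_lit 17) (.s false (nat_lit 2) (nat_lit 35) (nat_lit 1) (nat_lit 1) (nat_lit 7) true (nat_lit 5) true (nat_lit 11) true (nat_lit 0) true (nat_lit 17) true (nat_lit 17) (.s false (nat_lit 1) (nat_lit 36) (nat_lit 1) (nat_lit 1) (nat_lit 7) true (nat_lit 5) true (nat_lit 11) true (nat_lit 0) true (nat_lit 17) true (nat_lit 17) (.s true (nat_lit 1) (nat_lit 38) (nat_lit 1) (nat_lit 1) (nat_lit 7) true (nat_lit 5) true (nat_lit 11) true (nat_lit 0) true (nat_lit 17) true (nat_lit 17) (.s true (nat_lit 3) (nat_lit 33) (nat_lit 1) (nat_lit 2) (nat_lit 6) true (nat_lit 7) true (nat_lit 12) true (nat_lit 0) true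 (nat_lit 17) true (nat_lit 16) (.s true (nat_lit 2) (nat_lit 35) (nat_lit 1) (nat_lit 2) (nat_lit 6) true (nat_lit 7) true (nat_lit 12) true (nat_lit 0) true (nat_lit 17) true (nat_lit 16) (.s true (nat_lit 1) (nat_lit 33) (nat_lit 1) (nat_lit 6) (nat_lit 2) true (nat_lit 12) true (nat_lit 16) true (nat_lit 0) true (nat_lit 17) true (nat_lit 12) (.s true (nat_lit 2) (nat_lit 34) (nat_lit 1) (nat_lit 6) (nat_lit 2) true (nat_lit 12) true (nat_lit 16) true (nat_lit 0) true (nat_lit 17) true (nat_lit 12) (.s true (nat_lit 2) (nat_lit 33) (nat_lit 1) (nat_lit 7) (nat_lit 1) true (nat_lit 14) true (nat_lit 17) true (nat_lit 0) true (nat_lit 17) true (nat_lit 11) (.s true (nat_lit 2) (nat_lit 38) (nat_lit 1) (nat_lit 7) (nat_lit 1) true (nat_lit 14) true (nat_lit 17) true (nat_lit 0) true (nat_lit 17) true (nat_lit 11) (.s true (nat_lit 1) (nat_lit 34) (nat_lit 2) (nat_lit 1) (nat_lit 6) true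 (nat_lit 5) true (nat_lit 12) true (nat_lit 0) true (nat_lit 16) true (nat_lit 17) (.s true (nat_lit 3) (nat_lit 37) (nat_lit 2) (nat_lit 1) (nat_lit 6) true (nat_lit 5) true (nat_lit 12) true (nat_lit 0) true (nat_lit 16) true (nat_lit 17) (.s false (nat_lit 3) (nat_lit 36) (nat_lit 2) (nat_lit 2) (nat_lit 4) true (nat_lit 7) true (nat_lit 14) true (nat_lit 0) true (nat_lit 16) true (nat_lit 16) dC2c_i220)))))))))))))))))))))))))

noncomputable def dC2c_i222 : IL := (.s false (nat_lit 2) (nat_lit 20) (nat_lit 1) (nat_lit 12) (nat_lit 1) true (nat_lit 14) true (nat_lit 17) true (nat_lit 4) true (nat_lit 17) true (nat_lit 8) (.s true (nat_lit 1) (nat_lit 20) (nat_lit 1) (nat_lit 15) (nat_lit 0) true (nat_lit 15) true (nat_lit 18) true (nat_lit 4) true (nat_lit 17) true (nat_lit 7) (.s false (nat_lit 2) (nat_lit 20) (nat_lit 2) (nat_lit 1) (nat_lit 8) true (nat_lit 2) true (nat_lit 10) true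 (nat_lit 4) true (nat_lit 16) true (nat_lit 17) (.s false (nat_lit 2) (nat_lit 20) (nat_lit 3) (nat_lit 1) (nat_lit 6) true (nat_lit 2) true (nat_lit 12) true (nat_lit 4) true (nat_lit 15) true (nat_lit 17) (.s false (nat_lit 3) (nat_lit 20) (nat_lit 4) (nat_lit 2) (nat_lit 3) true (nat_lit 3) true (nat_lit 15) true (nat_lit 4) true (nat_lit 14) true (nat_lit 16) (.s false (nat_lit 1) (nat_lit 20) (nat_lit 9) (nat_lit 1) (nat_lit 2) true (nat_lit 2) true (nat_lit 16) true (nat_lit 4) true (nat_lit 10) true (nat_lit 17) (.s true (nat_lit 2) (nat_lit 20) (nat_lit 8) (nat_lit 2) (nat_lit 1) true (nat_lit 3) true (nat_lit 17) true (nat_lit 4) true (nat_lit 10) true (nat_lit 16) (.s true (nat_lit 1) (nat_lit 20) (nat_lit 11) (nat_lit 1) (nat_lit 1) true (nat_lit 2) true (nat_lit 17) true (nat_lit 4) true (nat_lit 8) true (nat_lit 17) (.s true (nat_lit 1) (nat_lit 20) (nat_lit 12) (nat_lit 1)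 (nat_lit 1) true (nat_lit 2) true (nat_lit 17) true (nat_lit 4) true (nat_lit 8) true (nat_lit 17) (.s false (nat_lit 3) (nat_lit 20) (nat_lit 13) (nat_lit 1) (nat_lit 1) true (nat_lit 2) true (nat_lit 17) true (nat_lit 4) true (nat_lit 8) true (nat_lit 17) (.s false (nat_lit 1) (nat_lit 20) (nat_lit 14) (nat_lit 1) (nat_lit 0) true (nat_lit 2) true (nat_lit 18) true (nat_lit 4) true (nat_lit 7) true (nat_lit 17) (.s true (nat_lit 3) (nat_lit 20) (nat_lit 15) (nat_lit 1) (nat_lit 0) true (nat_lit 2) true (nat_lit 18) true (nat_lit 4) true (nat_lit 7) true (nat_lit 17) (.s true (nat_lit 3) (nat_lit 22) (nat_lit 2) (nat_lit 2) (nat_lit 7) true (nat_lit 4) true (nat_lit 11) true (nat_lit 3) true (nat_lit 16) true (nat_lit 16) (.s true (nat_lit 3) (nat_lit 21) (nat_lit 2) (nat_lit 7) (nat_lit 2) true (nat_lit 11) true (nat_lit 16) true (nat_lit 3) true (nat_lit 16) true (nat_lit 11) (.s false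 (nat_lit 2) (nat_lit 23) (nat_lit 2) (nat_lit 7) (nat_lit 2) true (nat_lit 11) true (nat_lit 16) true (nat_lit 3) true (nat_lit 16) true (nat_lit 11) (.s true (nat_lit 3) (nat_lit 21) (nat_lit 7) (nat_lit 2) (nat_lit 2) true (nat_lit 4) true (nat_lit 16) true (nat_lit 3) true (nat_lit 11) true (nat_lit 16) (.s true (nat_lit 3) (nat_lit 23) (nat_lit 7) (nat_lit 2) (nat_lit 2) true (nat_lit 4) true (nat_lit 16) true (nat_lit 3) true (nat_lit 11) true (nat_lit 16) (.s false (nat_lit 2) (nat_lit 24) (nat_lit 1) (nat_lit 2) (nat_lit 7) true (nat_lit 5) true (nat_lit 11) true (nat_lit 2) true (nat_lit 17) true (nat_lit 16) (.s true (nat_lit 2) (nat_lit 24) (nat_lit 1) (nat_lit 7) (nat_lit 2) true (nat_lit 12) true (nat_lit 16) true (nat_lit 2) true (nat_lit 17) true (nat_lit 11) (.s false (nat_lit 3) (nat_lit 25) (nat_lit 1) (nat_lit 7) (nat_lit 2) true (nat_lit 12) true (nat_lit 16) true (nat_lit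 2) true (nat_lit 17) true (nat_lit 11) (.s false (nat_lit 3) (nat_lit 26) (nat_lit 1) (nat_lit 7) (nat_lit 2) true (nat_lit 12) true (nat_lit 16) true (nat_lit 2) true (nat_lit 17) true (nat_lit 11) (.s true (nat_lit 1) (nat_lit 27) (nat_lit 1) (nat_lit 7) (nat_lit 2) true (nat_lit 12) true (nat_lit 16) true (nat_lit 2) true (nat_lit 17) true (nat_lit 11) (.s false (nat_lit 2) (nat_lit 25) (nat_lit 2) (nat_lit 1) (nat_lit 7) true (nat_lit 4) true (nat_lit 11) true (nat_lit 2) true (nat_lit 16) true (nat_lit 17) (.s false (nat_lit 1) (nat_lit 27) (nat_lit 2) (nat_lit 1) (nat_lit 7) true (nat_lit 4) true (nat_lit 11) true (nat_lit 2) true (nat_lit 16) true (nat_lit 17) (.s true (nat_lit 1) (nat_lit 24) (nat_lit 2) (nat_lit 2) (nat_lit 6) true (nat_lit 5) true (nat_lit 12) true (nat_lit 2) true (nat_lit 16) true (nat_lit 16) dC2c_i221)))))))))))))))))))))))))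

noncomputable def dC2c_i223 : IL := (.s true (nat_lit 3) (nat_lit 14) (nat_lit 11) (nat_lit 2) (nat_lit 2) true (nat_lit 0) true (nat_lit 16) true (nat_lit 7) true (nat_lit 8) true (nat_lit 16) (.s true (nat_lit 1) (nat_lit 14) (nat_lit 13) (nat_lit 2) (nat_lit 2) true (nat_lit 0) true (nat_lit 16) true (nat_lit 7) true (nat_lit 8) true (nat_lit 16) (.s false (nat_lit 3) (nat_lit 16) (nat_lit 1) (nat_lit 2) (nat_lit 14) true (nat_lit 1) true (nat_lit 7) true (nat_lit 6) true (nat_lit 17) true (nat_lit 16) (.s true (nat_lit 1) (nat_lit 16) (nat_lit 2) (nat_lit 1) (nat_lit 15) false (nat_lit 0) true (nat_lit 7) true (nat_lit 6) true (nat_lit 16) true (nat_lit 17) (.s false (nat_lit 3) (nat_lit 16) (nat_lit 2) (nat_lit 2) (nat_lit 10) true (nat_lit 1) true (nat_lit 9) true (nat_lit 6) true (nat_lit 16) true (nat_lit 16) (.s true (nat_lit 2) (nat_lit 18) (nat_lit 1) (nat_lit 0) (nat_lit 18)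 false (nat_lit 0) true (nat_lit 5) true (nat_lit 5) true (nat_lit 17) true (nat_lit 18) (.s false (nat_lit 2) (nat_lit 18) (nat_lit 1) (nat_lit 3) (nat_lit 7) true (nat_lit 5) true (nat_lit 11) true (nat_lit 5) true (nat_lit 17) true (nat_lit 15) (.s true (nat_lit 3) (nat_lit 19) (nat_lit 1) (nat_lit 3) (nat_lit 7) true (nat_lit 5) true (nat_lit 11) true (nat_lit 5) true (nat_lit 17) true (nat_lit 15) (.s false (nat_lit 1) (nat_lit 19) (nat_lit 2) (nat_lit 2) (nat_lit 8) true (nat_lit 2) true (nat_lit 10) true (nat_lit 5) true (nat_lit 16) true (nat_lit 16) (.s true (nat_lit 1) (nat_lit 18) (nat_lit 2) (nat_lit 9) (nat_lit 2) true (nat_lit 11) true (nat_lit 16) true (nat_lit 5) true (nat_lit 16) true (nat_lit 10) (.s true (nat_lit 3) (nat_lit 18) (nat_lit 2) (nat_lit 11) (nat_lit 1) true (nat_lit 12) true (nat_lit 17) true (nat_lit 5) true (nat_lit 16) true (nat_lit 8) (.s true (nat_lit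 2) (nat_lit 18) (nat_lit 6) (nat_lit 5) (nat_lit 1) true (nat_lit 7) true (nat_lit 17) true (nat_lit 5) true (nat_lit 12) true (nat_lit 13) (.s true (nat_lit 3) (nat_lit 18) (nat_lit 7) (nat_lit 1) (nat_lit 3) true (nat_lit 0) true (nat_lit 15) true (nat_lit 5) true (nat_lit 11) true (nat_lit 17) (.s false (nat_lit 1) (nat_lit 18) (nat_lit 8) (nat_lit 2) (nat_lit 2) true (nat_lit 2) true (nat_lit 16) true (nat_lit 5) true (nat_lit 10) true (nat_lit 16) (.s false (nat_lit 2) (nat_lit 18) (nat_lit 9) (nat_lit 2) (nat_lit 2) true (nat_lit 2) true (nat_lit 16) true (nat_lit 5) true (nat_lit 10) true (nat_lit 16) (.s false (nat_lit 2) (nat_lit 19) (nat_lit 9) (nat_lit 2) (nat_lit 2) true (nat_lit 2) true (nat_lit 16) true (nat_lit 5) true (nat_lit 10) true (nat_lit 16) (.s false (nat_lit 1) (nat_lit 18) (nat_lit 11) (nat_lit 1) (nat_lit 2) true (nat_lit 0) true (nat_lit 16) true (nat_lit 5)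 true (nat_lit 8) true (nat_lit 17) (.s false (nat_lit 1) (nat_lit 19) (nat_lit 11) (nat_lit 2) (nat_lit 1) true (nat_lit 2) true (nat_lit 17) true (nat_lit 5) true (nat_lit 8) true (nat_lit 16) (.s true (nat_lit 3) (nat_lit 20) (nat_lit 0) (nat_lit 1) (nat_lit 15) true (nat_lit 2) true (nat_lit 7) true (nat_lit 4) true (nat_lit 18) true (nat_lit 17) (.s false (nat_lit 3) (nat_lit 20) (nat_lit 0) (nat_lit 14) (nat_lit 1) true (nat_lit 15) true (nat_lit 17) true (nat_lit 4) true (nat_lit 18) true (nat_lit 7) (.s true (nat_lit 3) (nat_lit 20) (nat_lit 0) (nat_lit 15) (nat_lit 1) true (nat_lit 15) true (nat_lit 17) true (nat_lit 4) true (nat_lit 18) true (nat_lit 7) (.s true (nat_lit 2) (nat_lit 20) (nat_lit 1) (nat_lit 0) (nat_lit 14) true (nat_lit 1) true (nat_lit 7) true (nat_lit 4) true (nat_lit 17) true (nat_lit 18) (.s false (nat_lit 2) (nat_lit 20) (nat_lit 1) (nat_lit 2) (nat_lit 8)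 true (nat_lit 3) true (nat_lit 10) true (nat_lit 4) true (nat_lit 17) true (nat_lit 16) (.s false (nat_lit 3) (nat_lit 20) (nat_lit 1) (nat_lit 3) (nat_lit 6) true (nat_lit 7) true (nat_lit 12) true (nat_lit 4) true (nat_lit 17) true (nat_lit 15) (.s true (nat_lit 2) (nat_lit 20) (nat_lit 1) (nat_lit 9) (nat_lit 2) true (nat_lit 12) true (nat_lit 16) true (nat_lit 4) true (nat_lit 17) true (nat_lit 10) dC2c_i222)))))))))))))))))))))))))

noncomputable def dC2c_i224 : IL := (.e false (nat_lit 2) (nat_lit 34) (nat_lit 15) (nat_lit 3) (.e false (nat_lit 2) (nat_lit 109) (nat_lit 2) (nat_lit 12) (.e false (nat_lit 2) (nat_lit 111) (nat_lit 2) (nat_lit 12) (.e true (nat_lit 3) (nat_lit 91) (nat_lit 3) (nat_lit 11) (.e true (nat_lit 1) (nat_lit 92) (nat_lit 3) (nat_lit 11) (.e true (nat_lit 3) (nat_lit 93) (nat_lit 3) (nat_lit 11) (.e true (nat_lit 3) (nat_lit 94) (nat_lit 3) (nat_lit 11) (.e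 true (nat_lit 3) (nat_lit 95) (nat_lit 3) (nat_lit 11) (.e false (nat_lit 3) (nat_lit 96) (nat_lit 3) (nat_lit 11) (.e true (nat_lit 3) (nat_lit 29) (nat_lit 18) (nat_lit 1) (.e false (nat_lit 1) (nat_lit 132) (nat_lit 1) (nat_lit 13) (.e false (nat_lit 2) (nat_lit 136) (nat_lit 1) (nat_lit 13) (.e false (nat_lit 3) (nat_lit 142) (nat_lit 1) (nat_lit 13) (.e true (nat_lit 2) (nat_lit 145) (nat_lit 1) (nat_lit 13) (.e false (nat_lit 1) (nat_lit 146) (nat_lit 1) (nat_lit 13) (.e true (nat_lit 2) (nat_lit 149) (nat_lit 1) (nat_lit 13) (.e false (nat_lit 1) (nat_lit 151) (nat_lit 1) (nat_lit 13) (.e false (nat_lit 1) (nat_lit 152) (nat_lit 1) (nat_lit 13) (.e true (nat_lit 2) (nat_lit 153) (nat_lit 1) (nat_lit 13) (.e true (nat_lit 3) (nat_lit 154) (nat_lit 1) (nat_lit 13) (.e true (nat_lit 1) (nat_lit 157) (nat_lit 1) (nat_lit 13) (.e true (nat_lit 3) (nat_lit 65) (nat_lit 6) (nat_lit 8) (.e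 false (nat_lit 3) (nat_lit 129) (nat_lit 2) (nat_lit 12) (.u (nat_lit 2) (.p (nat_lit 0) (nat_lit 2) (.p (nat_lit 1) (nat_lit 4) (.n (nat_lit 2) (nat_lit 2) (.n (nat_lit 3) (nat_lit 4) (.n (nat_lit 4) (nat_lit 4) (.n (nat_lit 5) (nat_lit 1) (.p (nat_lit 6) (nat_lit 4) (.n (nat_lit 7) (nat_lit 3) (.n (nat_lit 8) (nat_lit 1) (.p (nat_lit 9) (nat_lit 4) (.p (nat_lit 10) (nat_lit 1) (.n (nat_lit 11) (nat_lit 4) (.p (nat_lit 12) (nat_lit 3) (.p (nat_lit 13) (nat_lit 2) (.p (nat_lit 14) (nat_lit 5) (.n (nat_lit 16) (nat_lit 1) (.p (nat_lit 17) (nat_lit 2) (.p (nat_lit 22) (nat_lit 5) (.p (nat_lit 23) (nat_lit 3) (.n (nat_lit 24) (nat_lit 3) (.n (nat_lit 25) (nat_lit 2) (.p (nat_lit 26) (nat_lit 1) (.n (nat_lit 27) (nat_lit 4) (.n (nat_lit 28) (nat_lit 1) (.p (nat_lit 29) (nat_lit 1) (.n (nat_lit 33) (nat_lit 3) (.p (nat_lit 38) (nat_lit 2) (.n (nat_lit 39) (nat_lit 3) (.n (nat_lit 40) (nat_lit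 1) (.n (nat_lit 41) (nat_lit 7) (.n (nat_lit 42) (nat_lit 9) (.p (nat_lit 43) (nat_lit 1) (.n (nat_lit 44) (nat_lit 1) (.n (nat_lit 45) (nat_lit 1) (.n (nat_lit 46) (nat_lit 4) (.n (nat_lit 110) (nat_lit 1) (.p (nat_lit 112) (nat_lit 1) (.n (nat_lit 115) (nat_lit 1) (.p (nat_lit 121) (nat_lit 1) (.p (nat_lit 141) (nat_lit 1) (.p (nat_lit 142) (nat_lit 1) (.p (nat_lit 147) (nat_lit 2) (.p (nat_lit 148) (nat_lit 2) (.n (nat_lit 149) (nat_lit 2) (.n (nat_lit 150) (nat_lit 2) (.p (nat_lit 152) (nat_lit 1) (.n (nat_lit 154) (nat_lit 1) (.n (nat_lit 155) (nat_lit 1) (.p (nat_lit 156) (nat_lit 3) (.p (nat_lit 157) (nat_lit 1) (.n (nat_lit 158) (nat_lit 2) (.n (nat_lit 159) (nat_lit 3) (.p (nat_lit 160) (nat_lit 2) (.p (nat_lit 161) (nat_lit 1) (.n (nat_lit 162) (nat_lit 1) (.n (nat_lit 163) (nat_lit 3) (.p (nat_lit 165) (nat_lit 1) (.p (nat_lit 166) (nat_lit 3) (.p (nat_lit 167) (nat_lit 5) (.n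 (nat_lit 168) (nat_lit 1) .z)))))))))))))))))))))))))))))))))))))))))))))))))))))))))))) (.u (nat_lit 2) (.n (nat_lit 169) (nat_lit 1) (.p (nat_lit 171) (nat_lit 4) (.p (nat_lit 172) (nat_lit 2) (.n (nat_lit 173) (nat_lit 3) (.p (nat_lit 174) (nat_lit 5) (.n (nat_lit 175) (nat_lit 1) (.p (nat_lit 176) (nat_lit 2) (.p (nat_lit 179) (nat_lit 4) (.n (nat_lit 180) (nat_lit 4) (.p (nat_lit 181) (nat_lit 3) (.n (nat_lit 184) (nat_lit 3) (.n (nat_lit 185) (nat_lit 2) (.n (nat_lit 186) (nat_lit 1) (.n (nat_lit 189) (nat_lit 4) (.n (nat_lit 190) (nat_lit 4) (.n (nat_lit 191) (nat_lit 1) (.p (nat_lit 192) (nat_lit 2) (.p (nat_lit 193) (nat_lit 2) (.n (nat_lit 195) (nat_lit 4) (.p (nat_lit 196) (nat_lit 4) (.n (nat_lit 197) (nat_lit 2) (.n (nat_lit 208) (nat_lit 1) .z)))))))))))))))))))))) .nil)))))))))))))))))))))))))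

noncomputable def dC2c_i225 : IL := (.e true (nat_lit 2) (nat_lit 123) (nat_lit 2) (nat_lit 12) (.e false (nat_lit 2) (nat_lit 124) (nat_lit 2) (nat_lit 12) (.e false (nat_lit 2) (nat_lit 126) (nat_lit 2) (nat_lit 12) (.e true (nat_lit 2) (nat_lit 127) (nat_lit 2) (nat_lit 12) (.e false (nat_lit 2) (nat_lit 130) (nat_lit 2) (nat_lit 12) (.e true (nat_lit 2) (nat_lit 131) (nat_lit 2) (nat_lit 12) (.e true (nat_lit 2) (nat_lit 134) (nat_lit 1) (nat_lit 13) (.e false (nat_lit 3) (nat_lit 137) (nat_lit 1) (nat_lit 13) (.e false (nat_lit 2) (nat_lit 138) (nat_lit 1) (nat_lit 13) (.e false (nat_lit 3) (nat_lit 140) (nat_lit 1) (nat_lit 13) (.e true (nat_lit 3) (nat_lit 141) (nat_lit 1) (nat_lit 13) (.e false (nat_lit 2) (nat_lit 143) (nat_lit 1) (nat_lit 13) (.e true (nat_lit 2) (nat_lit 144) (nat_lit 1) (nat_lit 13) (.e false (nat_lit 1) (nat_lit 61) (nat_lit 6) (nat_lit 8) (.e true (nat_lit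 2) (nat_lit 63) (nat_lit 6) (nat_lit 8) (.e false (nat_lit 1) (nat_lit 66) (nat_lit 6) (nat_lit 8) (.e true (nat_lit 1) (nat_lit 72) (nat_lit 6) (nat_lit 8) (.e true (nat_lit 1) (nat_lit 133) (nat_lit 1) (nat_lit 13) (.e false (nat_lit 3) (nat_lit 135) (nat_lit 1) (nat_lit 13) (.e true (nat_lit 3) (nat_lit 139) (nat_lit 1) (nat_lit 13) (.e true (nat_lit 2) (nat_lit 147) (nat_lit 1) (nat_lit 13) (.e true (nat_lit 3) (nat_lit 155) (nat_lit 1) (nat_lit 13) (.e true (nat_lit 1) (nat_lit 107) (nat_lit 2) (nat_lit 12) (.e false (nat_lit 3) (nat_lit 119) (nat_lit 2) (nat_lit 12) (.e false (nat_lit 3) (nat_lit 128) (nat_lit 2) (nat_lit 12) dC2c_i224)))))))))))))))))))))))))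

noncomputable def dC2c_i226 : IL := (.e true (nat_lit 3) (nat_lit 214) (nat_lit 2) (nat_lit 16) (.e false (nat_lit 1) (nat_lit 224) (nat_lit 2) (nat_lit 16) (.e true (nat_lit 1) (nat_lit 235) (nat_lit 2) (nat_lit 16) (.e false (nat_lit 1) (nat_lit 237) (nat_lit 2) (nat_lit 16) (.e false (nat_lit 1) (nat_lit 239) (nat_lit 2) (nat_lit 16) (.e false (nat_lit 3) (nat_lit 242) (nat_lit 2) (nat_lit 16) (.e false (nat_lit 1) (nat_lit 230) (nat_lit 2) (nat_lit 16) (.e false (nat_lit 1) (nat_lit 238) (nat_lit 2) (nat_lit 16) (.e false (nat_lit 2) (nat_lit 215) (nat_lit 2) (nat_lit 16) (.e true (nat_lit 1) (nat_lit 219) (nat_lit 2) (nat_lit 16) (.e true (nat_lit 3) (nat_lit 245) (nat_lit 2) (nat_lit 16) (.e false (nat_lit 1) (nat_lit 40) (nat_lit 35) (nat_lit 0) (.e true (nat_lit 2) (nat_lit 289) (nat_lit 0) (nat_lit 18) (.e true (nat_lit 1) (nat_lit 290) (nat_lit 0) (nat_lit 18) (.e false (nat_lit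 3) (nat_lit 291) (nat_lit 0) (nat_lit 18) (.e true (nat_lit 3) (nat_lit 292) (nat_lit 0) (nat_lit 18) (.e false (nat_lit 1) (nat_lit 293) (nat_lit 0) (nat_lit 18) (.e false (nat_lit 2) (nat_lit 295) (nat_lit 0) (nat_lit 18) (.e false (nat_lit 2) (nat_lit 297) (nat_lit 0) (nat_lit 18) (.e true (nat_lit 1) (nat_lit 299) (nat_lit 0) (nat_lit 18) (.e false (nat_lit 1) (nat_lit 301) (nat_lit 0) (nat_lit 18) (.e true (nat_lit 2) (nat_lit 303) (nat_lit 0) (nat_lit 18) (.e false (nat_lit 3) (nat_lit 304) (nat_lit 0) (nat_lit 18) (.u (nat_lit 2) (.n (nat_lit 0) (nat_lit 1) (.p (nat_lit 1) (nat_lit 1) (.p (nat_lit 2) (nat_lit 2) (.p (nat_lit 3) (nat_lit 2) (.p (nat_lit 4) (nat_lit 3) (.n (nat_lit 5) (nat_lit 1) (.n (nat_lit 6) (nat_lit 5) (.p (nat_lit 7) (nat_lit 2) (.n (nat_lit 8) (nat_lit 2) (.n (nat_lit 9) (nat_lit 1) (.p (nat_lit 10) (nat_lit 1) (.n (nat_lit 11) (nat_lit 1) (.n (nat_lit 12) (nat_lit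 1) (.n (nat_lit 14) (nat_lit 2) (.n (nat_lit 15) (nat_lit 2) (.p (nat_lit 16) (nat_lit 3) (.p (nat_lit 17) (nat_lit 1) (.p (nat_lit 18) (nat_lit 4) (.p (nat_lit 19) (nat_lit 8) (.p (nat_lit 20) (nat_lit 2) (.n (nat_lit 21) (nat_lit 1) (.p (nat_lit 22) (nat_lit 1) (.p (nat_lit 23) (nat_lit 3) (.n (nat_lit 25) (nat_lit 3) (.p (nat_lit 26) (nat_lit 2) (.p (nat_lit 27) (nat_lit 5) (.n (nat_lit 28) (nat_lit 3) (.n (nat_lit 29) (nat_lit 1) (.n (nat_lit 31) (nat_lit 5) (.n (nat_lit 32) (nat_lit 2) (.n (nat_lit 33) (nat_lit 3) (.p (nat_lit 34) (nat_lit 1) (.n (nat_lit 36) (nat_lit 3) (.p (nat_lit 37) (nat_lit 2) (.p (nat_lit 38) (nat_lit 3) (.p (nat_lit 39) (nat_lit 3) (.n (nat_lit 40) (nat_lit 4) (.p (nat_lit 45) (nat_lit 5) (.p (nat_lit 46) (nat_lit 4) (.p (nat_lit 47) (nat_lit 1) (.p (nat_lit 48) (nat_lit 2) (.p (nat_lit 57) (nat_lit 1) (.p (nat_lit 302) (nat_lit 1) (.p (nat_lit 303) (nat_lit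 2) (.p (nat_lit 305) (nat_lit 1) (.n (nat_lit 306) (nat_lit 1) (.p (nat_lit 307) (nat_lit 1) (.p (nat_lit 310) (nat_lit 2) (.p (nat_lit 315) (nat_lit 1) (.p (nat_lit 316) (nat_lit 1) (.p (nat_lit 317) (nat_lit 2) (.n (nat_lit 318) (nat_lit 1) (.n (nat_lit 319) (nat_lit 1) (.n (nat_lit 322) (nat_lit 2) (.n (nat_lit 323) (nat_lit 1) (.p (nat_lit 324) (nat_lit 1) (.p (nat_lit 325) (nat_lit 1) (.n (nat_lit 326) (nat_lit 1) (.n (nat_lit 328) (nat_lit 1) (.p (nat_lit 331) (nat_lit 2) .z)))))))))))))))))))))))))))))))))))))))))))))))))))))))))))) (.u (nat_lit 2) (.n (nat_lit 335) (nat_lit 1) (.p (nat_lit 338) (nat_lit 1) (.p (nat_lit 341) (nat_lit 1) (.n (nat_lit 343) (nat_lit 1) (.p (nat_lit 344) (nat_lit 1) (.p (nat_lit 345) (nat_lit 1) (.n (nat_lit 346) (nat_lit 1) (.n (nat_lit 348) (nat_lit 1) .z)))))))) .nil)))))))))))))))))))))))))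

noncomputable def dC2c_i227 : IL := (.s true (nat_lit 1) (nat_lit 40) (nat_lit 6) (nat_lit 0) (nat_lit 2) true (nat_lit 5) true (nat_lit 16) false (nat_lit 0) true (nat_lit 12) true (nat_lit 18) (.e false (nat_lit 1) (nat_lit 71) (nat_lit 18) (nat_lit 5) (.e false (nat_lit 1) (nat_lit 205) (nat_lit 2) (nat_lit 16) (.e false (nat_lit 2) (nat_lit 206) (nat_lit 2) (nat_lit 16) (.e true (nat_lit 2) (nat_lit 213) (nat_lit 2) (nat_lit 16) (.e false (nat_lit 2) (nat_lit 221) (nat_lit 2) (nat_lit 16) (.e false (nat_lit 2) (nat_lit 225) (nat_lit 2) (nat_lit 16) (.e true (nat_lit 2) (nat_lit 227) (nat_lit 2) (nat_lit 16) (.e true (nat_lit 2) (nat_lit 231) (nat_lit 2) (nat_lit 16) (.e false (nat_lit 3) (nat_lit 232) (nat_lit 2) (nat_lit 16) (.e false (nat_lit 3) (nat_lit 243) (nat_lit 2) (nat_lit 16) (.e true (nat_lit 2) (nat_lit 247) (nat_lit 2) (nat_lit 16) (.e false (nat_lit 1) (nat_lit 248) (nat_lit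 2) (nat_lit 16) (.e true (nat_lit 2) (nat_lit 249) (nat_lit 2) (nat_lit 16) (.e false (nat_lit 2) (nat_lit 210) (nat_lit 2) (nat_lit 16) (.e true (nat_lit 2) (nat_lit 218) (nat_lit 2) (nat_lit 16) (.e true (nat_lit 1) (nat_lit 220) (nat_lit 2) (nat_lit 16) (.e false (nat_lit 3) (nat_lit 222) (nat_lit 2) (nat_lit 16) (.e false (nat_lit 3) (nat_lit 226) (nat_lit 2) (nat_lit 16) (.e false (nat_lit 1) (nat_lit 234) (nat_lit 2) (nat_lit 16) (.e false (nat_lit 3) (nat_lit 244) (nat_lit 2) (nat_lit 16) (.e false (nat_lit 2) (nat_lit 250) (nat_lit 2) (nat_lit 16) (.e false (nat_lit 1) (nat_lit 207) (nat_lit 2) (nat_lit 16) (.e false (nat_lit 2) (nat_lit 209) (nat_lit 2) (nat_lit 16) (.e true (nat_lit 3) (nat_lit 216) (nat_lit 2) (nat_lit 16) dC2c_i226)))))))))))))))))))))))))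

noncomputable def dC2c_i228 : IL := (.e true (nat_lit 3) (nat_lit 59) (nat_lit 7) (nat_lit 7) (.e false (nat_lit 2) (nat_lit 106) (nat_lit 2) (nat_lit 12) (.e false (nat_lit 2) (nat_lit 117) (nat_lit 2) (nat_lit 12) (.e true (nat_lit 3) (nat_lit 130) (nat_lit 2) (nat_lit 12) (.e false (nat_lit 2) (nat_lit 27) (nat_lit 19) (nat_lit 1) (.e false (nat_lit 3) (nat_lit 133) (nat_lit 1) (nat_lit 13) (.e false (nat_lit 2) (nat_lit 138) (nat_lit 1) (nat_lit 13) (.e false (nat_lit 3) (nat_lit 140) (nat_lit 1) (nat_lit 13) (.e true (nat_lit 2) (nat_lit 146) (nat_lit 1) (nat_lit 13) (.e false (nat_lit 3) (nat_lit 118) (nat_lit 2) (nat_lit 12) (.e false (nat_lit 2) (nat_lit 120) (nat_lit 2) (nat_lit 12) (.e true (nat_lit 2) (nat_lit 113) (nat_lit 2) (nat_lit 12) (.e false (nat_lit 2) (nat_lit 115) (nat_lit 2) (nat_lit 12) (.e false (nat_lit 1) (nat_lit 121) (nat_lit 2) (nat_lit 12) (.e false (nat_lit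 3) (nat_lit 124) (nat_lit 2) (nat_lit 12) (.e true (nat_lit 2) (nat_lit 128) (nat_lit 2) (nat_lit 12) (.e true (nat_lit 1) (nat_lit 50) (nat_lit 7) (nat_lit 7) (.e true (nat_lit 1) (nat_lit 51) (nat_lit 7) (nat_lit 7) (.e true (nat_lit 3) (nat_lit 52) (nat_lit 7) (nat_lit 7) (.e false (nat_lit 3) (nat_lit 45) (nat_lit 8) (nat_lit 6) (.e false (nat_lit 2) (nat_lit 47) (nat_lit 8) (nat_lit 6) (.e true (nat_lit 2) (nat_lit 21) (nat_lit 20) (nat_lit 0) (.e true (nat_lit 3) (nat_lit 67) (nat_lit 6) (nat_lit 8) (.u (nat_lit 2) (.p (nat_lit 0) (nat_lit 3) (.n (nat_lit 1) (nat_lit 2) (.n (nat_lit 2) (nat_lit 1) (.n (nat_lit 3) (nat_lit 1) (.p (nat_lit 4) (nat_lit 1) (.p (nat_lit 6) (nat_lit 2) (.n (nat_lit 7) (nat_lit 3) (.p (nat_lit 9) (nat_lit 3) (.n (nat_lit 10) (nat_lit 3) (.n (nat_lit 11) (nat_lit 1) (.p (nat_lit 15) (nat_lit 1) (.p (nat_lit 17) (nat_lit 1) (.n (nat_lit 20) (nat_lit 1) (.n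 (nat_lit 21) (nat_lit 1) (.n (nat_lit 22) (nat_lit 1) (.n (nat_lit 24) (nat_lit 1) (.n (nat_lit 26) (nat_lit 1) (.p (nat_lit 27) (nat_lit 1) (.p (nat_lit 28) (nat_lit 1) (.p (nat_lit 30) (nat_lit 1) (.n (nat_lit 37) (nat_lit 1) (.p (nat_lit 40) (nat_lit 3) (.n (nat_lit 43) (nat_lit 3) (.n (nat_lit 45) (nat_lit 1) (.n (nat_lit 46) (nat_lit 1) (.n (nat_lit 68) (nat_lit 1) (.p (nat_lit 80) (nat_lit 1) (.p (nat_lit 81) (nat_lit 1) (.p (nat_lit 84) (nat_lit 1) (.n (nat_lit 85) (nat_lit 1) (.n (nat_lit 87) (nat_lit 1) (.p (nat_lit 98) (nat_lit 1) (.p (nat_lit 108) (nat_lit 1) (.p (nat_lit 112) (nat_lit 1) (.n (nat_lit 113) (nat_lit 1) (.n (nat_lit 115) (nat_lit 1) (.p (nat_lit 117) (nat_lit 1) (.p (nat_lit 120) (nat_lit 1) (.p (nat_lit 121) (nat_lit 1) (.p (nat_lit 122) (nat_lit 1) (.p (nat_lit 141) (nat_lit 2) (.n (nat_lit 142) (nat_lit 1) (.n (nat_lit 146) (nat_lit 3) (.p (nat_lit 147) (nat_lit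 3) (.p (nat_lit 148) (nat_lit 3) (.p (nat_lit 149) (nat_lit 5) (.p (nat_lit 150) (nat_lit 6) (.n (nat_lit 151) (nat_lit 1) (.n (nat_lit 152) (nat_lit 2) (.p (nat_lit 153) (nat_lit 3) (.p (nat_lit 154) (nat_lit 2) (.n (nat_lit 155) (nat_lit 3) (.n (nat_lit 156) (nat_lit 1) (.n (nat_lit 157) (nat_lit 2) (.p (nat_lit 158) (nat_lit 2) (.p (nat_lit 159) (nat_lit 1) (.n (nat_lit 160) (nat_lit 2) (.p (nat_lit 162) (nat_lit 2) (.p (nat_lit 163) (nat_lit 6) (.n (nat_lit 164) (nat_lit 1) .z)))))))))))))))))))))))))))))))))))))))))))))))))))))))))))) (.u (nat_lit 2) (.n (nat_lit 165) (nat_lit 2) (.n (nat_lit 166) (nat_lit 11) (.n (nat_lit 167) (nat_lit 6) (.n (nat_lit 168) (nat_lit 1) (.p (nat_lit 169) (nat_lit 1) (.p (nat_lit 170) (nat_lit 5) (.n (nat_lit 171) (nat_lit 4) (.n (nat_lit 172) (nat_lit 2) (.p (nat_lit 175) (nat_lit 2) (.p (nat_lit 178) (nat_lit 1) (.n (nat_lit 179) (nat_lit 1) (.n (nat_lit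 181) (nat_lit 3) (.n (nat_lit 184) (nat_lit 2) (.p (nat_lit 185) (nat_lit 2) (.p (nat_lit 186) (nat_lit 1) (.p (nat_lit 189) (nat_lit 3) (.n (nat_lit 190) (nat_lit 2) (.n (nat_lit 191) (nat_lit 4) (.n (nat_lit 193) (nat_lit 3) (.n (nat_lit 194) (nat_lit 2) (.p (nat_lit 196) (nat_lit 4) (.p (nat_lit 197) (nat_lit 3) .z)))))))))))))))))))))) .nil)))))))))))))))))))))))))

noncomputable def dC2c_i229 : IL := (.e true (nat_lit 2) (nat_lit 144) (nat_lit 1) (nat_lit 13) (.e true (nat_lit 3) (nat_lit 155) (nat_lit 1) (nat_lit 13) (.e true (nat_lit 1) (nat_lit 132) (nat_lit 1) (nat_lit 13) (.e false (nat_lit 3) (nat_lit 136) (nat_lit 1) (nat_lit 13) (.e false (nat_lit 1) (nat_lit 152) (nat_lit 1) (nat_lit 13) (.e false (nat_lit 2) (nat_lit 153) (nat_lit 1) (nat_lit 13) (.e false (nat_lit 2) (nat_lit 25) (nat_lit 18) (nat_lit 1) (.e true (nat_lit 2) (nat_lit 27) (nat_lit 18) (nat_lit 1) (.e false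 (nat_lit 2) (nat_lit 131) (nat_lit 2) (nat_lit 12) (.e true (nat_lit 3) (nat_lit 107) (nat_lit 2) (nat_lit 12) (.e false (nat_lit 1) (nat_lit 108) (nat_lit 2) (nat_lit 12) (.e true (nat_lit 1) (nat_lit 119) (nat_lit 2) (nat_lit 12) (.e true (nat_lit 3) (nat_lit 122) (nat_lit 2) (nat_lit 12) (.e true (nat_lit 2) (nat_lit 109) (nat_lit 2) (nat_lit 12) (.e false (nat_lit 3) (nat_lit 112) (nat_lit 2) (nat_lit 12) (.e true (nat_lit 2) (nat_lit 114) (nat_lit 2) (nat_lit 12) (.e true (nat_lit 1) (nat_lit 116) (nat_lit 2) (nat_lit 12) (.e false (nat_lit 1) (nat_lit 123) (nat_lit 2) (nat_lit 12) (.e false (nat_lit 2) (nat_lit 126) (nat_lit 2) (nat_lit 12) (.e true (nat_lit 1) (nat_lit 127) (nat_lit 2) (nat_lit 12) (.e false (nat_lit 3) (nat_lit 22) (nat_lit 20) (nat_lit 0) (.e false (nat_lit 3) (nat_lit 23) (nat_lit 20) (nat_lit 0) (.e true (nat_lit 2) (nat_lit 49) (nat_lit 7) (nat_lit 7) (.e true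 (nat_lit 1) (nat_lit 53) (nat_lit 7) (nat_lit 7) (.e true (nat_lit 1) (nat_lit 55) (nat_lit 7) (nat_lit 7) dC2c_i228)))))))))))))))))))))))))

noncomputable def dC2c_i230 : IL := (.s false (nat_lit 1) (nat_lit 11) (nat_lit 6) (nat_lit 2) (nat_lit 1) true (nat_lit 3) true (nat_lit 13) true (nat_lit 4) true (nat_lit 8) true (nat_lit 12) (.s true (nat_lit 2) (nat_lit 15) (nat_lit 0) (nat_lit 2) (nat_lit 6) true (nat_lit 4) true (nat_lit 8) true (nat_lit 3) true (nat_lit 14) true (nat_lit 12) (.s true (nat_lit 2) (nat_lit 15) (nat_lit 2) (nat_lit 0) (nat_lit 6) true (nat_lit 1) true (nat_lit 8) true (nat_lit 3) true (nat_lit 12) true (nat_lit 14) (.s true (nat_lit 1) (nat_lit 15) (nat_lit 2) (nat_lit 3) (nat_lit 2) true (nat_lit 7) true (nat_lit 12) true (nat_lit 3) true (nat_lit 12) true (nat_lit 11) (.s false (nat_lit 2) (nat_lit 14) (nat_lit 3) (nat_lit 2) (nat_lit 2) true (nat_lit 4) true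 (nat_lit 12) true (nat_lit 3) true (nat_lit 11) true (nat_lit 12) (.s false (nat_lit 3) (nat_lit 18) (nat_lit 1) (nat_lit 2) (nat_lit 3) true (nat_lit 6) true (nat_lit 11) true (nat_lit 1) true (nat_lit 13) true (nat_lit 12) (.s true (nat_lit 2) (nat_lit 18) (nat_lit 2) (nat_lit 3) (nat_lit 1) true (nat_lit 8) true (nat_lit 13) true (nat_lit 1) true (nat_lit 12) true (nat_lit 11) (.s false (nat_lit 2) (nat_lit 20) (nat_lit 3) (nat_lit 1) (nat_lit 1) true (nat_lit 6) true (nat_lit 13) true (nat_lit 0) true (nat_lit 11) true (nat_lit 13) (.s false (nat_lit 1) (nat_lit 26) (nat_lit 1) (nat_lit 2) (nat_lit 2) true (nat_lit 8) true (nat_lit 12) false (nat_lit 1) true (nat_lit 13) true (nat_lit 12) (.s true (nat_lit 1) (nat_lit 29) (nat_lit 1) (nat_lit 2) (nat_lit 2) true (nat_lit 8) true (nat_lit 12) false (nat_lit 1) true (nat_lit 13) true (nat_lit 12) (.s false (nat_lit 3) (nat_lit 26) (nat_lit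 2) (nat_lit 1) (nat_lit 2) true (nat_lit 7) true (nat_lit 12) false (nat_lit 1) true (nat_lit 12) true (nat_lit 13) (.s false (nat_lit 1) (nat_lit 29) (nat_lit 2) (nat_lit 1) (nat_lit 2) true (nat_lit 7) true (nat_lit 12) false (nat_lit 1) true (nat_lit 12) true (nat_lit 13) (.s true (nat_lit 2) (nat_lit 33) (nat_lit 2) (nat_lit 1) (nat_lit 1) true (nat_lit 8) true (nat_lit 13) false (nat_lit 3) true (nat_lit 12) true (nat_lit 13) (.s false (nat_lit 3) (nat_lit 37) (nat_lit 2) (nat_lit 1) (nat_lit 1) true (nat_lit 8) true (nat_lit 13) false (nat_lit 3) true (nat_lit 12) true (nat_lit 13) (.s false (nat_lit 3) (nat_lit 38) (nat_lit 2) (nat_lit 1) (nat_lit 1) true (nat_lit 8) true (nat_lit 13) false (nat_lit 3) true (nat_lit 12) true (nat_lit 13) (.s true (nat_lit 2) (nat_lit 41) (nat_lit 0) (nat_lit 2) (nat_lit 1) true (nat_lit 11) true (nat_lit 13) false (nat_lit 4) true (nat_lit 14) true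 (nat_lit 12) (.s false (nat_lit 3) (nat_lit 40) (nat_lit 1) (nat_lit 2) (nat_lit 0) true (nat_lit 11) true (nat_lit 14) false (nat_lit 4) true (nat_lit 13) true (nat_lit 12) (.s true (nat_lit 3) (nat_lit 40) (nat_lit 2) (nat_lit 0) (nat_lit 1) true (nat_lit 8) true (nat_lit 13) false (nat_lit 4) true (nat_lit 12) true (nat_lit 14) (.e false (nat_lit 1) (nat_lit 64) (nat_lit 6) (nat_lit 8) (.e true (nat_lit 2) (nat_lit 61) (nat_lit 6) (nat_lit 8) (.e true (nat_lit 1) (nat_lit 63) (nat_lit 6) (nat_lit 8) (.e true (nat_lit 2) (nat_lit 72) (nat_lit 6) (nat_lit 8) (.e false (nat_lit 1) (nat_lit 134) (nat_lit 1) (nat_lit 13) (.e false (nat_lit 2) (nat_lit 154) (nat_lit 1) (nat_lit 13) (.e true (nat_lit 3) (nat_lit 135) (nat_lit 1) (nat_lit 13) dC2c_i229)))))))))))))))))))))))))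

noncomputable def dC2c_i231 : IL := (.e true (nat_lit 2) (nat_lit 268) (nat_lit 1) (nat_lit 17) (.e true (nat_lit 2) (nat_lit 280) (nat_lit 1) (nat_lit 17) (.e true (nat_lit 1) (nat_lit 259) (nat_lit 1) (nat_lit 17) (.e false (nat_lit 1) (nat_lit 260) (nat_lit 1) (nat_lit 17) (.e false (nat_lit 3) (nat_lit 262) (nat_lit 1) (nat_lit 17) (.e true (nat_lit 1) (nat_lit 288) (nat_lit 1) (nat_lit 17) (.e false (nat_lit 3) (nat_lit 253) (nat_lit 1) (nat_lit 17) (.e false (nat_lit 1) (nat_lit 271) (nat_lit 1) (nat_lit 17) (.e false (nat_lit 1) (nat_lit 273) (nat_lit 1) (nat_lit 17) (.e false (nat_lit 1) (nat_lit 276) (nat_lit 1) (nat_lit 17) (.e false (nat_lit 3) (nat_lit 279) (nat_lit 1) (nat_lit 17) (.e true (nat_lit 2) (nat_lit 281) (nat_lit 1) (nat_lit 17) (.e true (nat_lit 2) (nat_lit 261) (nat_lit 1) (nat_lit 17) (.e true (nat_lit 1) (nat_lit 267) (nat_lit 1) (nat_lit 17) (.e true (nat_lit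 3) (nat_lit 277) (nat_lit 1) (nat_lit 17) (.e true (nat_lit 3) (nat_lit 283) (nat_lit 1) (nat_lit 17) (.e true (nat_lit 2) (nat_lit 257) (nat_lit 1) (nat_lit 17) (.e true (nat_lit 1) (nat_lit 265) (nat_lit 1) (nat_lit 17) (.e true (nat_lit 1) (nat_lit 269) (nat_lit 1) (nat_lit 17) (.e false (nat_lit 1) (nat_lit 278) (nat_lit 1) (nat_lit 17) (.e false (nat_lit 1) (nat_lit 287) (nat_lit 1) (nat_lit 17) (.e false (nat_lit 3) (nat_lit 263) (nat_lit 1) (nat_lit 17) (.e true (nat_lit 3) (nat_lit 264) (nat_lit 1) (nat_lit 17) (.e false (nat_lit 2) (nat_lit 274) (nat_lit 1) (nat_lit 17) (.u (nat_lit 2) (.p (nat_lit 0) (nat_lit 1) (.n (nat_lit 1) (nat_lit 1) (.p (nat_lit 2) (nat_lit 2) (.p (nat_lit 4) (nat_lit 2) (.p (nat_lit 6) (nat_lit 3) (.n (nat_lit 7) (nat_lit 1) (.p (nat_lit 8) (nat_lit 2) (.n (nat_lit 9) (nat_lit 1) (.n (nat_lit 10) (nat_lit 1) (.p (nat_lit 12) (nat_lit 1) (.n (nat_lit 15)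 (nat_lit 1) (.p (nat_lit 16) (nat_lit 1) (.p (nat_lit 17) (nat_lit 1) (.n (nat_lit 18) (nat_lit 1) (.p (nat_lit 20) (nat_lit 1) (.p (nat_lit 23) (nat_lit 2) (.p (nat_lit 25) (nat_lit 2) (.p (nat_lit 29) (nat_lit 2) (.n (nat_lit 31) (nat_lit 2) (.p (nat_lit 33) (nat_lit 2) (.n (nat_lit 34) (nat_lit 1) (.p (nat_lit 35) (nat_lit 2) (.p (nat_lit 36) (nat_lit 1) (.n (nat_lit 37) (nat_lit 1) (.n (nat_lit 38) (nat_lit 2) (.p (nat_lit 39) (nat_lit 1) (.p (nat_lit 41) (nat_lit 1) (.p (nat_lit 46) (nat_lit 1) (.p (nat_lit 48) (nat_lit 1) (.p (nat_lit 351) (nat_lit 1) (.n (nat_lit 353) (nat_lit 1) (.n (nat_lit 355) (nat_lit 1) (.n (nat_lit 359) (nat_lit 1) (.p (nat_lit 364) (nat_lit 1) (.n (nat_lit 368) (nat_lit 1) (.n (nat_lit 369) (nat_lit 1) (.n (nat_lit 370) (nat_lit 1) (.p (nat_lit 372) (nat_lit 1) (.p (nat_lit 374) (nat_lit 1) (.p (nat_lit 386) (nat_lit 2) (.n (nat_lit 387) (nat_lit 1) (.n (nat_lit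 389) (nat_lit 1) (.n (nat_lit 390) (nat_lit 2) (.p (nat_lit 391) (nat_lit 1) (.n (nat_lit 392) (nat_lit 2) (.p (nat_lit 393) (nat_lit 1) (.p (nat_lit 395) (nat_lit 1) (.n (nat_lit 396) (nat_lit 1) (.n (nat_lit 397) (nat_lit 1) (.p (nat_lit 398) (nat_lit 3) (.n (nat_lit 399) (nat_lit 1) (.p (nat_lit 400) (nat_lit 2) (.n (nat_lit 401) (nat_lit 2) .z))))))))))))))))))))))))))))))))))))))))))))))))))))) .nil)))))))))))))))))))))))))

noncomputable def dC2c_i232 : IL := (.e false (nat_lit 2) (nat_lit 301) (nat_lit 0) (nat_lit 18) (.e true (nat_lit 2) (nat_lit 302) (nat_lit 0) (nat_lit 18) (.e true (nat_lit 2) (nat_lit 289) (nat_lit 0) (nat_lit 18) (.e false (nat_lit 3) (nat_lit 291) (nat_lit 0) (nat_lit 18) (.e true (nat_lit 1) (nat_lit 292) (nat_lit 0) (nat_lit 18) (.e false (nat_lit 2) (nat_lit 293) (nat_lit 0) (nat_lit 18) (.e false (nat_lit 2) (nat_lit 294) (nat_lit 0) (nat_lit 18) (.e false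 (nat_lit 2) (nat_lit 296) (nat_lit 0) (nat_lit 18) (.e false (nat_lit 3) (nat_lit 297) (nat_lit 0) (nat_lit 18) (.e true (nat_lit 1) (nat_lit 303) (nat_lit 0) (nat_lit 18) (.e false (nat_lit 1) (nat_lit 304) (nat_lit 0) (nat_lit 18) (.e false (nat_lit 3) (nat_lit 290) (nat_lit 0) (nat_lit 18) (.e true (nat_lit 2) (nat_lit 298) (nat_lit 0) (nat_lit 18) (.e true (nat_lit 1) (nat_lit 46) (nat_lit 29) (nat_lit 2) (.e true (nat_lit 2) (nat_lit 252) (nat_lit 1) (nat_lit 17) (.e true (nat_lit 1) (nat_lit 255) (nat_lit 1) (nat_lit 17) (.e false (nat_lit 1) (nat_lit 256) (nat_lit 1) (nat_lit 17) (.e true (nat_lit 3) (nat_lit 266) (nat_lit 1) (nat_lit 17) (.e false (nat_lit 2) (nat_lit 270) (nat_lit 1) (nat_lit 17) (.e true (nat_lit 2) (nat_lit 272) (nat_lit 1) (nat_lit 17) (.e true (nat_lit 2) (nat_lit 275) (nat_lit 1) (nat_lit 17) (.e true (nat_lit 1) (nat_lit 284) (nat_lit 1) (nat_lit 17) (.e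 false (nat_lit 1) (nat_lit 285) (nat_lit 1) (nat_lit 17) (.e false (nat_lit 2) (nat_lit 286) (nat_lit 1) (nat_lit 17) (.e false (nat_lit 3) (nat_lit 258) (nat_lit 1) (nat_lit 17) dC2c_i231)))))))))))))))))))))))))

noncomputable def dC2c_i233 : IL := (.e true (nat_lit 3) (nat_lit 254) (nat_lit 2) (nat_lit 14) (.e true (nat_lit 2) (nat_lit 256) (nat_lit 2) (nat_lit 14) (.e false (nat_lit 3) (nat_lit 257) (nat_lit 2) (nat_lit 14) (.e true (nat_lit 2) (nat_lit 259) (nat_lit 2) (nat_lit 14) (.e false (nat_lit 2) (nat_lit 260) (nat_lit 2) (nat_lit 14) (.e true (nat_lit 1) (nat_lit 261) (nat_lit 2) (nat_lit 14) (.e true (nat_lit 2) (nat_lit 262) (nat_lit 2) (nat_lit 14) (.e false (nat_lit 3) (nat_lit 265) (nat_lit 2) (nat_lit 14) (.e true (nat_lit 3) (nat_lit 266) (nat_lit 2) (nat_lit 14) (.e true (nat_lit 2) (nat_lit 267) (nat_lit 2) (nat_lit 14) (.e false (nat_lit 1) (nat_lit 270) (nat_lit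 2) (nat_lit 14) (.e false (nat_lit 2) (nat_lit 271) (nat_lit 2) (nat_lit 14) (.e true (nat_lit 3) (nat_lit 272) (nat_lit 2) (nat_lit 14) (.e false (nat_lit 3) (nat_lit 273) (nat_lit 2) (nat_lit 14) (.e false (nat_lit 2) (nat_lit 274) (nat_lit 2) (nat_lit 14) (.e false (nat_lit 3) (nat_lit 275) (nat_lit 2) (nat_lit 14) (.e true (nat_lit 2) (nat_lit 276) (nat_lit 2) (nat_lit 14) (.e false (nat_lit 2) (nat_lit 277) (nat_lit 2) (nat_lit 14) (.e true (nat_lit 2) (nat_lit 283) (nat_lit 2) (nat_lit 14) (.e true (nat_lit 3) (nat_lit 285) (nat_lit 2) (nat_lit 14) (.e false (nat_lit 1) (nat_lit 47) (nat_lit 33) (nat_lit 1) (.e true (nat_lit 1) (nat_lit 253) (nat_lit 2) (nat_lit 14) (.e false (nat_lit 1) (nat_lit 264) (nat_lit 2) (nat_lit 14) (.e false (nat_lit 1) (nat_lit 202) (nat_lit 3) (nat_lit 13) (.u (nat_lit 2) (.n (nat_lit 0) (nat_lit 1) (.p (nat_lit 1) (nat_lit 1) (.n (nat_lit 2) (nat_lit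 5) (.p (nat_lit 3) (nat_lit 1) (.n (nat_lit 4) (nat_lit 1) (.n (nat_lit 5) (nat_lit 3) (.p (nat_lit 6) (nat_lit 2) (.p (nat_lit 7) (nat_lit 2) (.p (nat_lit 8) (nat_lit 2) (.p (nat_lit 9) (nat_lit 1) (.n (nat_lit 10) (nat_lit 3) (.p (nat_lit 11) (nat_lit 2) (.p (nat_lit 12) (nat_lit 4) (.p (nat_lit 13) (nat_lit 2) (.p (nat_lit 14) (nat_lit 1) (.n (nat_lit 15) (nat_lit 1) (.n (nat_lit 16) (nat_lit 1) (.p (nat_lit 17) (nat_lit 5) (.n (nat_lit 18) (nat_lit 1) (.p (nat_lit 19) (nat_lit 1) (.p (nat_lit 21) (nat_lit 2) (.p (nat_lit 23) (nat_lit 1) (.p (nat_lit 24) (nat_lit 1) (.p (nat_lit 25) (nat_lit 1) (.p (nat_lit 26) (nat_lit 1) (.n (nat_lit 29) (nat_lit 1) (.n (nat_lit 30) (nat_lit 1) (.n (nat_lit 34) (nat_lit 1) (.p (nat_lit 35) (nat_lit 1) (.n (nat_lit 38) (nat_lit 1) (.n (nat_lit 204) (nat_lit 1) (.n (nat_lit 209) (nat_lit 1) (.p (nat_lit 224) (nat_lit 1) (.p (nat_lit 237) (nat_lit 1)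 .z)))))))))))))))))))))))))))))))))) .nil)))))))))))))))))))))))))

noncomputable def dC2c_i234 : IL := (.e true (nat_lit 2) (nat_lit 207) (nat_lit 2) (nat_lit 16) (.e false (nat_lit 2) (nat_lit 208) (nat_lit 2) (nat_lit 16) (.e false (nat_lit 3) (nat_lit 209) (nat_lit 2) (nat_lit 16) (.e false (nat_lit 1) (nat_lit 211) (nat_lit 2) (nat_lit 16) (.e false (nat_lit 1) (nat_lit 212) (nat_lit 2) (nat_lit 16) (.e true (nat_lit 1) (nat_lit 213) (nat_lit 2) (nat_lit 16) (.e true (nat_lit 1) (nat_lit 214) (nat_lit 2) (nat_lit 16) (.e true (nat_lit 2) (nat_lit 215) (nat_lit 2) (nat_lit 16) (.e true (nat_lit 2) (nat_lit 219) (nat_lit 2) (nat_lit 16) (.e false (nat_lit 2) (nat_lit 221) (nat_lit 2) (nat_lit 16) (.e true (nat_lit 2) (nat_lit 227) (nat_lit 2) (nat_lit 16) (.e false (nat_lit 1) (nat_lit 230) (nat_lit 2) (nat_lit 16) (.e true (nat_lit 2) (nat_lit 231) (nat_lit 2) (nat_lit 16) (.e true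 (nat_lit 1) (nat_lit 232) (nat_lit 2) (nat_lit 16) (.e true (nat_lit 3) (nat_lit 242) (nat_lit 2) (nat_lit 16) (.e true (nat_lit 1) (nat_lit 243) (nat_lit 2) (nat_lit 16) (.e false (nat_lit 2) (nat_lit 245) (nat_lit 2) (nat_lit 16) (.e true (nat_lit 1) (nat_lit 246) (nat_lit 2) (nat_lit 16) (.e false (nat_lit 1) (nat_lit 247) (nat_lit 2) (nat_lit 16) (.e true (nat_lit 1) (nat_lit 248) (nat_lit 2) (nat_lit 16) (.e false (nat_lit 2) (nat_lit 249) (nat_lit 2) (nat_lit 16) (.e true (nat_lit 1) (nat_lit 251) (nat_lit 2) (nat_lit 16) (.e false (nat_lit 1) (nat_lit 205) (nat_lit 2) (nat_lit 16) (.e false (nat_lit 1) (nat_lit 229) (nat_lit 2) (nat_lit 16) (.u (nat_lit 2) (.n (nat_lit 0) (nat_lit 2) (.n (nat_lit 1) (nat_lit 2) (.p (nat_lit 2) (nat_lit 2) (.n (nat_lit 4) (nat_lit 1) (.n (nat_lit 5) (nat_lit 3) (.n (nat_lit 6) (nat_lit 2) (.p (nat_lit 7) (nat_lit 1) (.n (nat_lit 8) (nat_lit 1) (.n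 (nat_lit 9) (nat_lit 1) (.n (nat_lit 10) (nat_lit 2) (.p (nat_lit 11) (nat_lit 1) (.n (nat_lit 12) (nat_lit 1) (.n (nat_lit 14) (nat_lit 2) (.p (nat_lit 15) (nat_lit 1) (.n (nat_lit 17) (nat_lit 2) (.p (nat_lit 19) (nat_lit 1) (.p (nat_lit 23) (nat_lit 2) (.n (nat_lit 25) (nat_lit 1) (.p (nat_lit 26) (nat_lit 2) (.p (nat_lit 28) (nat_lit 3) (.p (nat_lit 29) (nat_lit 4) (.p (nat_lit 32) (nat_lit 1) (.p (nat_lit 33) (nat_lit 2) (.n (nat_lit 37) (nat_lit 1) (.n (nat_lit 38) (nat_lit 2) (.n (nat_lit 39) (nat_lit 1) (.n (nat_lit 40) (nat_lit 1) (.n (nat_lit 44) (nat_lit 1) (.n (nat_lit 45) (nat_lit 2) (.n (nat_lit 46) (nat_lit 4) (.p (nat_lit 47) (nat_lit 3) (.p (nat_lit 48) (nat_lit 1) (.n (nat_lit 55) (nat_lit 1) (.p (nat_lit 312) (nat_lit 1) (.p (nat_lit 316) (nat_lit 1) (.n (nat_lit 318) (nat_lit 1) .z)))))))))))))))))))))))))))))))))))) .nil)))))))))))))))))))))))))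

noncomputable def dC2c_i235 : IL := (.e true (nat_lit 2) (nat_lit 106) (nat_lit 2) (nat_lit 12) (.e false (nat_lit 1) (nat_lit 108) (nat_lit 2) (nat_lit 12) (.e false (nat_lit 2) (nat_lit 109) (nat_lit 2) (nat_lit 12) (.e false (nat_lit 3) (nat_lit 110) (nat_lit 2) (nat_lit 12) (.e false (nat_lit 3) (nat_lit 112) (nat_lit 2) (nat_lit 12) (.e false (nat_lit 3) (nat_lit 113) (nat_lit 2) (nat_lit 12) (.e true (nat_lit 2) (nat_lit 115) (nat_lit 2) (nat_lit 12) (.e false (nat_lit 1) (nat_lit 116) (nat_lit 2) (nat_lit 12) (.e false (nat_lit 1) (nat_lit 117) (nat_lit 2) (nat_lit 12) (.e false (nat_lit 2) (nat_lit 118) (nat_lit 2) (nat_lit 12) (.e true (nat_lit 2) (nat_lit 119) (nat_lit 2) (nat_lit 12) (.e true (nat_lit 1) (nat_lit 120) (nat_lit 2) (nat_lit 12) (.e false (nat_lit 1) (nat_lit 122) (nat_lit 2) (nat_lit 12) (.e true (nat_lit 2) (nat_lit 123) (nat_lit 2) (nat_lit 12) (.e false (nat_lit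 2) (nat_lit 126) (nat_lit 2) (nat_lit 12) (.e false (nat_lit 2) (nat_lit 127) (nat_lit 2) (nat_lit 12) (.e false (nat_lit 2) (nat_lit 128) (nat_lit 2) (nat_lit 12) (.e true (nat_lit 1) (nat_lit 129) (nat_lit 2) (nat_lit 12) (.e false (nat_lit 1) (nat_lit 130) (nat_lit 2) (nat_lit 12) (.e false (nat_lit 3) (nat_lit 131) (nat_lit 2) (nat_lit 12) (.e false (nat_lit 1) (nat_lit 31) (nat_lit 16) (nat_lit 2) (.e false (nat_lit 2) (nat_lit 107) (nat_lit 2) (nat_lit 12) (.e false (nat_lit 1) (nat_lit 111) (nat_lit 2) (nat_lit 12) (.e true (nat_lit 2) (nat_lit 114) (nat_lit 2) (nat_lit 12) (.u (nat_lit 2) (.p (nat_lit 3) (nat_lit 1) (.p (nat_lit 6) (nat_lit 1) (.n (nat_lit 8) (nat_lit 1) (.n (nat_lit 12) (nat_lit 1) (.n (nat_lit 17) (nat_lit 1) (.n (nat_lit 38) (nat_lit 1) (.p (nat_lit 43) (nat_lit 1) (.n (nat_lit 46) (nat_lit 1) (.p (nat_lit 146) (nat_lit 1) (.n (nat_lit 149) (nat_lit 1) (.n (nat_lit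 150) (nat_lit 1) (.n (nat_lit 156) (nat_lit 1) (.n (nat_lit 158) (nat_lit 1) (.p (nat_lit 159) (nat_lit 1) (.p (nat_lit 163) (nat_lit 1) .z))))))))))))))) .nil)))))))))))))))))))))))))

noncomputable def dC2c_i236 : IL := (.e false (nat_lit 1) (nat_lit 58) (nat_lit 7) (nat_lit 7) (.e true (nat_lit 3) (nat_lit 106) (nat_lit 2) (nat_lit 12) (.e false (nat_lit 3) (nat_lit 107) (nat_lit 2) (nat_lit 12) (.e false (nat_lit 3) (nat_lit 108) (nat_lit 2) (nat_lit 12) (.e true (nat_lit 2) (nat_lit 109) (nat_lit 2) (nat_lit 12) (.e false (nat_lit 3) (nat_lit 110) (nat_lit 2) (nat_lit 12) (.e false (nat_lit 2) (nat_lit 113) (nat_lit 2) (nat_lit 12) (.e true (nat_lit 2) (nat_lit 114) (nat_lit 2) (nat_lit 12) (.e true (nat_lit 2) (nat_lit 115) (nat_lit 2) (nat_lit 12) (.e true (nat_lit 1) (nat_lit 116) (nat_lit 2) (nat_lit 12) (.e true (nat_lit 1) (nat_lit 117) (nat_lit 2) (nat_lit 12) (.e false (nat_lit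 2) (nat_lit 118) (nat_lit 2) (nat_lit 12) (.e true (nat_lit 1) (nat_lit 119) (nat_lit 2) (nat_lit 12) (.e false (nat_lit 1) (nat_lit 120) (nat_lit 2) (nat_lit 12) (.e true (nat_lit 1) (nat_lit 122) (nat_lit 2) (nat_lit 12) (.e true (nat_lit 1) (nat_lit 123) (nat_lit 2) (nat_lit 12) (.e false (nat_lit 1) (nat_lit 126) (nat_lit 2) (nat_lit 12) (.e false (nat_lit 1) (nat_lit 127) (nat_lit 2) (nat_lit 12) (.e false (nat_lit 2) (nat_lit 128) (nat_lit 2) (nat_lit 12) (.e false (nat_lit 3) (nat_lit 130) (nat_lit 2) (nat_lit 12) (.e true (nat_lit 3) (nat_lit 131) (nat_lit 2) (nat_lit 12) (.e false (nat_lit 1) (nat_lit 32) (nat_lit 16) (nat_lit 2) (.e true (nat_lit 1) (nat_lit 111) (nat_lit 2) (nat_lit 12) (.e false (nat_lit 1) (nat_lit 112) (nat_lit 2) (nat_lit 12) (.u (nat_lit 2) (.p (nat_lit 1) (nat_lit 1) (.p (nat_lit 7) (nat_lit 1) (.p (nat_lit 8) (nat_lit 1) (.p (nat_lit 12) (nat_lit 1) (.n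 (nat_lit 17) (nat_lit 1) (.p (nat_lit 24) (nat_lit 1) (.p (nat_lit 38) (nat_lit 1) (.p (nat_lit 42) (nat_lit 1) (.n (nat_lit 150) (nat_lit 1) (.p (nat_lit 171) (nat_lit 1) .z)))))))))) .nil)))))))))))))))))))))))))

noncomputable def dC2c_i237 : IL := (.e false (nat_lit 3) (nat_lit 259) (nat_lit 1) (nat_lit 17) (.e false (nat_lit 3) (nat_lit 260) (nat_lit 1) (nat_lit 17) (.e true (nat_lit 3) (nat_lit 262) (nat_lit 1) (nat_lit 17) (.e true (nat_lit 3) (nat_lit 267) (nat_lit 1) (nat_lit 17) (.e true (nat_lit 2) (nat_lit 270) (nat_lit 1) (nat_lit 17) (.e false (nat_lit 2) (nat_lit 271) (nat_lit 1) (nat_lit 17) (.e true (nat_lit 1) (nat_lit 272) (nat_lit 1) (nat_lit 17) (.e false (nat_lit 2) (nat_lit 273) (nat_lit 1) (nat_lit 17) (.e false (nat_lit 1) (nat_lit 274) (nat_lit 1) (nat_lit 17) (.e false (nat_lit 2) (nat_lit 275) (nat_lit 1) (nat_lit 17) (.e true (nat_lit 2) (nat_lit 276) (nat_lit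 1) (nat_lit 17) (.e true (nat_lit 2) (nat_lit 277) (nat_lit 1) (nat_lit 17) (.e false (nat_lit 1) (nat_lit 288) (nat_lit 1) (nat_lit 17) (.e true (nat_lit 1) (nat_lit 252) (nat_lit 1) (nat_lit 17) (.e true (nat_lit 1) (nat_lit 258) (nat_lit 1) (nat_lit 17) (.e false (nat_lit 1) (nat_lit 261) (nat_lit 1) (nat_lit 17) (.e true (nat_lit 3) (nat_lit 264) (nat_lit 1) (nat_lit 17) (.e true (nat_lit 2) (nat_lit 283) (nat_lit 1) (nat_lit 17) (.e false (nat_lit 2) (nat_lit 285) (nat_lit 1) (nat_lit 17) (.e true (nat_lit 1) (nat_lit 280) (nat_lit 1) (nat_lit 17) (.e true (nat_lit 1) (nat_lit 279) (nat_lit 1) (nat_lit 17) (.e false (nat_lit 3) (nat_lit 266) (nat_lit 1) (nat_lit 17) (.e false (nat_lit 1) (nat_lit 281) (nat_lit 1) (nat_lit 17) (.e false (nat_lit 1) (nat_lit 282) (nat_lit 1) (nat_lit 17) (.u (nat_lit 2) (.p (nat_lit 0) (nat_lit 2) (.n (nat_lit 1) (nat_lit 1) (.p (nat_lit 2) (nat_lit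 2) (.n (nat_lit 3) (nat_lit 2) (.p (nat_lit 4) (nat_lit 2) (.p (nat_lit 5) (nat_lit 2) (.p (nat_lit 6) (nat_lit 1) (.p (nat_lit 9) (nat_lit 1) (.p (nat_lit 11) (nat_lit 1) (.p (nat_lit 12) (nat_lit 1) (.n (nat_lit 14) (nat_lit 1) (.n (nat_lit 15) (nat_lit 1) (.n (nat_lit 18) (nat_lit 1) (.n (nat_lit 19) (nat_lit 1) (.p (nat_lit 20) (nat_lit 1) (.p (nat_lit 21) (nat_lit 1) (.p (nat_lit 23) (nat_lit 2) (.n (nat_lit 24) (nat_lit 2) (.p (nat_lit 25) (nat_lit 2) (.n (nat_lit 27) (nat_lit 1) (.p (nat_lit 28) (nat_lit 2) (.p (nat_lit 29) (nat_lit 1) (.p (nat_lit 33) (nat_lit 2) (.n (nat_lit 34) (nat_lit 2) (.p (nat_lit 35) (nat_lit 3) (.p (nat_lit 36) (nat_lit 2) (.n (nat_lit 38) (nat_lit 2) (.n (nat_lit 39) (nat_lit 1) (.p (nat_lit 44) (nat_lit 1) (.p (nat_lit 46) (nat_lit 1) (.p (nat_lit 48) (nat_lit 1) (.p (nat_lit 350) (nat_lit 2) (.n (nat_lit 351) (nat_lit 1) (.n (nat_lit 352) (nat_lit 3)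 (.n (nat_lit 353) (nat_lit 1) (.p (nat_lit 355) (nat_lit 4) (.n (nat_lit 357) (nat_lit 1) (.n (nat_lit 358) (nat_lit 1) (.n (nat_lit 359) (nat_lit 2) (.n (nat_lit 360) (nat_lit 2) (.n (nat_lit 362) (nat_lit 2) (.n (nat_lit 364) (nat_lit 1) (.p (nat_lit 366) (nat_lit 1) (.n (nat_lit 367) (nat_lit 2) (.n (nat_lit 369) (nat_lit 2) (.n (nat_lit 371) (nat_lit 1) (.n (nat_lit 374) (nat_lit 1) (.n (nat_lit 375) (nat_lit 1) (.n (nat_lit 376) (nat_lit 2) (.p (nat_lit 377) (nat_lit 1) (.p (nat_lit 380) (nat_lit 1) (.n (nat_lit 384) (nat_lit 1) .z)))))))))))))))))))))))))))))))))))))))))))))))))))) .nil)))))))))))))))))))))))))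

noncomputable def dC2c_t0 : Tr := (.nd (.nd (.nd (.nd (.nd (.nd (.nd .leaf (nat_lit 88082) (nat_lit 1344) (.p (nat_lit 398) (nat_lit 3) (.p (nat_lit 399) (nat_lit 3) (.p (nat_lit 400) (nat_lit 1) (.p (nat_lit 401) (nat_lit 1) (.n (nat_lit 402) (nat_lit 1) (.p (nat_lit 403) (nat_lit 3) (.p (nat_lit 404) (nat_lit 3) (.p (nat_lit 405) (nat_lit 1) (.n (nat_lit 407) (nat_lit 3) (.p (nat_lit 410) (nat_lit 3) (.n (nat_lit 411) (nat_lit 1) (.n (nat_lit 412) (nat_lit 1) (.p (nat_lit 415) (nat_lit 1) (.p (nat_lit 416) (nat_lit 2) (.p (nat_lit 418) (nat_lit 2) (.p (nat_lit 420) (nat_lit 2) (.p (nat_lit 421) (nat_lit 2) (.p (nat_lit 423) (nat_lit 1) (.p (nat_lit 424) (nat_lit 1) (.n (nat_lit 426) (nat_lit 1) (.n (nat_lit 430) (nat_lit 1) (.n (nat_lit 431) (nat_lit 1) (.n (nat_lit 432) (nat_lit 2) (.n (nat_lit 435) (nat_lit 1) .z)))))))))))))))))))))))) (.ct dC2c_c293 (nat_lit 1) (nat_lit 4) (.s false (nat_lit 1) (nat_lit 42) (nat_lit 2) (nat_lit 1) (nat_lit 6) true (nat_lit 4) true (nat_lit 10) false (nat_lit 0) true (nat_lit 14) true (nat_lit 15) (.e false (nat_lit 1) (nat_lit 180) (nat_lit 6) (nat_lit 10) (.e false (nat_lit 1) (nat_lit 252) (nat_lit 2) (nat_lit 14) (.e true (nat_lit 2) (nat_lit 253) (nat_lit 2) (nat_lit 14) (.e true (nat_lit 2) (nat_lit 254) (nat_lit 2) (nat_lit 14) (.e true (nat_lit 1) (nat_lit 255) (nat_lit 2) (nat_lit 14) (.e false (nat_lit 3) (nat_lit 256) (nat_lit 2) (nat_lit 14) (.e true (nat_lit 3) (nat_lit 257) (nat_lit 2) (nat_lit 14) (.e true (nat_lit 2) (nat_lit 258) (nat_lit 2) (nat_lit 14) (.e false (nat_lit 3) (nat_lit 259) (nat_lit 2) (nat_lit 14) (.e true (nat_lit 3) (nat_lit 260) (nat_lit 2) (nat_lit 14) (.e true (nat_lit 2) (nat_lit 261) (nat_lit 2) (nat_lit 14) (.e true (nat_lit 1) (nat_lit 262) (nat_lit 2) (nat_lit 14) (.e true (nat_lit 3) (nat_lit 263) (nat_lit 2) (nat_lit 14) (.e false (nat_lit 1) (nat_lit 264) (nat_lit 2) (nat_lit 14) (.e false (nat_lit 2) (nat_lit 265) (nat_lit 2) (nat_lit 14) (.e false (nat_lit 1) (nat_lit 267) (nat_lit 2) (nat_lit 14) (.e false (nat_lit 1) (nat_lit 269) (nat_lit 2) (nat_lit 14) dC2c_i0))))))))))))))))))) .leaf) (nat_lit 88083) (nat_lit 1346) (.p (nat_lit 397) (nat_lit 3) (.n (nat_lit 398) (nat_lit 3) (.p (nat_lit 399) (nat_lit 1) (.n (nat_lit 400) (nat_lit 1) (.p (nat_lit 401) (nat_lit 1) (.n (nat_lit 402) (nat_lit 2) (.p (nat_lit 403) (nat_lit 2) (.p (nat_lit 404) (nat_lit 2) (.p (nat_lit 405) (nat_lit 3) (.p (nat_lit 406) (nat_lit 1) (.p (nat_lit 407) (nat_lit 2) (.n (nat_lit 408) (nat_lit 2) (.n (nat_lit 409) (nat_lit 2) (.p (nat_lit 410) (nat_lit 2) (.n (nat_lit 411) (nat_lit 3) (.n (nat_lit 413) (nat_lit 2) (.p (nat_lit 414) (nat_lit 1) (.n (nat_lit 415) (nat_lit 1) (.n (nat_lit 416) (nat_lit 2) (.n (nat_lit 418) (nat_lit 3) (.p (nat_lit 420) (nat_lit 3) (.n (nat_lit 421) (nat_lit 3) (.n (nat_lit 423) (nat_lit 2) (.n (nat_lit 424) (nat_lit 2) (.p (nat_lit 426) (nat_lit 2) (.p (nat_lit 430) (nat_lit 2) (.p (nat_lit 431) (nat_lit 3) (.n (nat_lit 432) (nat_lit 3) (.p (nat_lit 435) (nat_lit 1) .z))))))))))))))))))))))))))))) (.ct dC2c_c293 (nat_lit 1) (nat_lit 4) dC2c_i1) .leaf) (nat_lit 89089) (nat_lit 272) (.n (nat_lit 132) (nat_lit 3) (.n (nat_lit 133) (nat_lit 3) (.p (nat_lit 134) (nat_lit 2) (.n (nat_lit 135) (nat_lit 3) (.n (nat_lit 136) (nat_lit 2) (.n (nat_lit 137) (nat_lit 2) (.n (nat_lit 138) (nat_lit 1) (.n (nat_lit 141) (nat_lit 2) (.n (nat_lit 144) (nat_lit 3) (.n (nat_lit 145) (nat_lit 2) (.n (nat_lit 146) (nat_lit 1) (.n (nat_lit 148) (nat_lit 1) (.p (nat_lit 149) (nat_lit 2) (.n (nat_lit 150) (nat_lit 3) (.n (nat_lit 151) (nat_lit 2) (.n (nat_lit 152) (nat_lit 2) (.n (nat_lit 153) (nat_lit 2) (.p (nat_lit 155) (nat_lit 3) (.p (nat_lit 156) (nat_lit 3) (.p (nat_lit 157) (nat_lit 1) .z)))))))))))))))))))) (.ct dC2c_c291 (nat_lit 1) (nat_lit 9) (.s false (nat_lit 3) (nat_lit 7) (nat_lit 5) (nat_lit 1) (nat_lit 1) true (nat_lit 1) true (nat_lit 9) true (nat_lit 3) true (nat_lit 5) true (nat_lit 9) (.e false (nat_lit 3) (nat_lit 19) (nat_lit 12) (nat_lit 1) (.e true (nat_lit 1) (nat_lit 81) (nat_lit 1) (nat_lit 9) (.e true (nat_lit 1) (nat_lit 83) (nat_lit 1) (nat_lit 9) (.e true (nat_lit 2) (nat_lit 85) (nat_lit 1) (nat_lit 9) (.e false (nat_lit 1) (nat_lit 86) (nat_lit 1) (nat_lit 9) (.e false (nat_lit 1) (nat_lit 90) (nat_lit 1) (nat_lit 9) (.e false (nat_lit 3) (nat_lit 89) (nat_lit 1) (nat_lit 9) (.e false (nat_lit 3) (nat_lit 27) (nat_lit 7) (nat_lit 3) (.e false (nat_lit 1) (nat_lit 40) (nat_lit 5) (nat_lit 5) (.e true (nat_lit 1) (nat_lit 41) (nat_lit 5) (nat_lit 5) (.e false (nat_lit 1) (nat_lit 80) (nat_lit 1) (nat_lit 9) (.e true (nat_lit 1) (nat_lit 84) (nat_lit 1) (nat_lit 9) (.u (nat_lit 2) (.p (nat_lit 0) (nat_lit 1) (.n (nat_lit 1) (nat_lit 1) (.n (nat_lit 3) (nat_lit 1) (.p (nat_lit 4) (nat_lit 2) (.n (nat_lit 6) (nat_lit 1) (.n (nat_lit 7) (nat_lit 1) (.p (nat_lit 8) (nat_lit 1) (.p (nat_lit 9) (nat_lit 1) (.p (nat_lit 12) (nat_lit 1) (.p (nat_lit 15) (nat_lit 1) (.n (nat_lit 17) (nat_lit 1) (.p (nat_lit 18) (nat_lit 1) (.p (nat_lit 19) (nat_lit 1) (.p (nat_lit 20) (nat_lit 2) (.p (nat_lit 21) (nat_lit 1) (.n (nat_lit 23) (nat_lit 1) (.n (nat_lit 24) (nat_lit 1) (.n (nat_lit 25) (nat_lit 1) (.n (nat_lit 51) (nat_lit 1) (.p (nat_lit 52) (nat_lit 1) (.n (nat_lit 73) (nat_lit 1) (.p (nat_lit 74) (nat_lit 1) (.p (nat_lit 76) (nat_lit 1) (.p (nat_lit 77) (nat_lit 1) (.p (nat_lit 78) (nat_lit 2) (.n (nat_lit 79) (nat_lit 1) (.p (nat_lit 80) (nat_lit 1) (.n (nat_lit 83) (nat_lit 1) .z)))))))))))))))))))))))))))) .nil))))))))))))))) (.nd (.nd .leaf (nat_lit 89090) (nat_lit 323) (.p (nat_lit 176) (nat_lit 1) .z) .df .leaf) (nat_lit 89092) (nat_lit 558) (.p (nat_lit 206) (nat_lit 2) (.p (nat_lit 207) (nat_lit 2) (.p (nat_lit 208) (nat_lit 2) (.n (nat_lit 209) (nat_lit 2) (.n (nat_lit 210) (nat_lit 2) (.p (nat_lit 212) (nat_lit 2) (.p (nat_lit 213) (nat_lit 1) (.n (nat_lit 215) (nat_lit 2) (.p (nat_lit 216) (nat_lit 2) (.n (nat_lit 217) (nat_lit 1) (.n (nat_lit 218) (nat_lit 1) (.n (nat_lit 219) (nat_lit 1) (.p (nat_lit 220) (nat_lit 1) (.p (nat_lit 225) (nat_lit 3) (.p (nat_lit 227) (nat_lit 1) (.p (nat_lit 228) (nat_lit 1) (.n (nat_lit 229) (nat_lit 3) (.n (nat_lit 230) (nat_lit 3) (.p (nat_lit 231) (nat_lit 1) (.n (nat_lit 232) (nat_lit 2) (.n (nat_lit 234) (nat_lit 1) (.n (nat_lit 235) (nat_lit 2) (.p (nat_lit 237) (nat_lit 2) (.p (nat_lit 238) (nat_lit 2) (.p (nat_lit 239) (nat_lit 2) (.n (nat_lit 240) (nat_lit 2) (.p (nat_lit 241) (nat_lit 2) (.p (nat_lit 242) (nat_lit 3) (.n (nat_lit 243) (nat_lit 2) (.p (nat_lit 244) (nat_lit 3) (.p (nat_lit 245) (nat_lit 1) (.p (nat_lit 246) (nat_lit 3) (.p (nat_lit 247) (nat_lit 3) (.n (nat_lit 248) (nat_lit 3) (.p (nat_lit 249) (nat_lit 1) (.p (nat_lit 250) (nat_lit 2) (.p (nat_lit 251) (nat_lit 3) .z))))))))))))))))))))))))))))))))))))) (.ct dC2c_c307 (nat_lit 1) (nat_lit 10) (.s true (nat_lit 1) (nat_lit 18) (nat_lit 2) (nat_lit 0) (nat_lit 4) true (nat_lit 3) true (nat_lit 10) true (nat_lit 1) true (nat_lit 12) true (nat_lit 14) (.e true (nat_lit 1) (nat_lit 38) (nat_lit 14) (nat_lit 3) (.e false (nat_lit 1) (nat_lit 24) (nat_lit 18) (nat_lit 1) (.e true (nat_lit 1) (nat_lit 26) (nat_lit 18) (nat_lit 1) (.e false (nat_lit 1) (nat_lit 28) (nat_lit 18) (nat_lit 1) (.e false (nat_lit 1) (nat_lit 29) (nat_lit 18) (nat_lit 1) (.e true (nat_lit 1) (nat_lit 107) (nat_lit 2) (nat_lit 12) (.e true (nat_lit 1) (nat_lit 108) (nat_lit 2) (nat_lit 12) (.e true (nat_lit 1) (nat_lit 109) (nat_lit 2) (nat_lit 12) (.e false (nat_lit 1) (nat_lit 112) (nat_lit 2) (nat_lit 12) (.e true (nat_lit 1) (nat_lit 113) (nat_lit 2) (nat_lit 12) (.e true (nat_lit 1) (nat_lit 114) (nat_lit 2) (nat_lit 12) (.e false (nat_lit 1) (nat_lit 115) (nat_lit 2) (nat_lit 12) (.e false (nat_lit 1) (nat_lit 116) (nat_lit 2) (nat_lit 12) (.e true (nat_lit 1) (nat_lit 118) (nat_lit 2) (nat_lit 12) (.e false (nat_lit 1) (nat_lit 129) (nat_lit 2) (nat_lit 12) (.e true (nat_lit 1) (nat_lit 158) (nat_lit 0) (nat_lit 14) (.e false (nat_lit 1) (nat_lit 161) (nat_lit 0) (nat_lit 14) (.e true (nat_lit 1) (nat_lit 163) (nat_lit 0) (nat_lit 14) (.u (nat_lit 2) (.n (nat_lit 9) (nat_lit 1) (.n (nat_lit 10) (nat_lit 1) (.p (nat_lit 12) (nat_lit 1) (.p (nat_lit 13) (nat_lit 1) (.p (nat_lit 17) (nat_lit 1) (.n (nat_lit 20) (nat_lit 1) (.n (nat_lit 21) (nat_lit 1) (.n (nat_lit 22) (nat_lit 1) (.n (nat_lit 23) (nat_lit 1) (.n (nat_lit 25) (nat_lit 1) (.p (nat_lit 27) (nat_lit 1) (.p (nat_lit 38) (nat_lit 1) (.p (nat_lit 41) (nat_lit 1) (.p (nat_lit 43) (nat_lit 1) (.n (nat_lit 44) (nat_lit 1) .z))))))))))))))) .nil))))))))))))))))))))) .leaf)) (nat_lit 89094) (nat_lit 659) (.n (nat_lit 252) (nat_lit 1) (.n (nat_lit 254) (nat_lit 3) (.p (nat_lit 255) (nat_lit 3) (.n (nat_lit 256) (nat_lit 2) (.n (nat_lit 257) (nat_lit 3) (.n (nat_lit 259) (nat_lit 1) (.p (nat_lit 260) (nat_lit 1) (.p (nat_lit 261) (nat_lit 1) (.n (nat_lit 262) (nat_lit 3) (.p (nat_lit 263) (nat_lit 2) (.n (nat_lit 264) (nat_lit 1) (.p (nat_lit 267) (nat_lit 3) (.n (nat_lit 268) (nat_lit 1) (.n (nat_lit 269) (nat_lit 2) (.n (nat_lit 270) (nat_lit 1) (.n (nat_lit 272) (nat_lit 3) (.p (nat_lit 274) (nat_lit 2) (.n (nat_lit 275) (nat_lit 3) (.p (nat_lit 276) (nat_lit 1) (.p (nat_lit 277) (nat_lit 1) (.p (nat_lit 278) (nat_lit 1) (.p (nat_lit 279) (nat_lit 1) (.n (nat_lit 280) (nat_lit 1) (.n (nat_lit 281) (nat_lit 1) (.n (nat_lit 283) (nat_lit 3) (.p (nat_lit 284) (nat_lit 1) (.p (nat_lit 285) (nat_lit 3) .z))))))))))))))))))))))))))) (.ct dC2c_c292 (nat_lit 1) (nat_lit 7) (.s false (nat_lit 1) (nat_lit 6) (nat_lit 2) (nat_lit 5) (nat_lit 6) true (nat_lit 1) true (nat_lit 7) true (nat_lit 7) true (nat_lit 11) true (nat_lit 8) (.e true (nat_lit 1) (nat_lit 33) (nat_lit 18) (nat_lit 1) (.e false (nat_lit 1) (nat_lit 34) (nat_lit 18) (nat_lit 1) (.e false (nat_lit 1) (nat_lit 37) (nat_lit 18) (nat_lit 1) (.e false (nat_lit 1) (nat_lit 38) (nat_lit 18) (nat_lit 1) (.e false (nat_lit 2) (nat_lit 80) (nat_lit 6) (nat_lit 7) (.e true (nat_lit 2) (nat_lit 81) (nat_lit 6) (nat_lit 7) (.e false (nat_lit 1) (nat_lit 83) (nat_lit 6) (nat_lit 7) dC2c_i2))))))))) (.nd (.nd (.nd .leaf (nat_lit 89095) (nat_lit 781) (.n (nat_lit 305) (nat_lit 2) (.n (nat_lit 306) (nat_lit 1) (.n (nat_lit 307) (nat_lit 2) (.n (nat_lit 308) (nat_lit 1) (.p (nat_lit 309) (nat_lit 2) (.n (nat_lit 310) (nat_lit 1) (.n (nat_lit 311) (nat_lit 3) (.n (nat_lit 312) (nat_lit 1) (.n (nat_lit 313) (nat_lit 2) (.n (nat_lit 314) (nat_lit 3) (.n (nat_lit 315) (nat_lit 2) (.p (nat_lit 323) (nat_lit 1) .z)))))))))))) (.ct dC2c_c277 (nat_lit 1) (nat_lit 4) dC2c_i3) .leaf) (nat_lit 89106) (nat_lit 1370) (.n (nat_lit 397) (nat_lit 3) (.p (nat_lit 398) (nat_lit 2) (.n (nat_lit 399) (nat_lit 3) (.n (nat_lit 400) (nat_lit 2) (.n (nat_lit 401) (nat_lit 2) (.p (nat_lit 402) (nat_lit 3) (.n (nat_lit 403) (nat_lit 3) (.n (nat_lit 404) (nat_lit 1) (.n (nat_lit 405) (nat_lit 2) (.p (nat_lit 406) (nat_lit 1) (.n (nat_lit 407) (nat_lit 2) (.p (nat_lit 408) (nat_lit 1) (.p (nat_lit 409) (nat_lit 3) (.n (nat_lit 411) (nat_lit 2) (.n (nat_lit 412) (nat_lit 2) (.n (nat_lit 413) (nat_lit 3) (.n (nat_lit 414) (nat_lit 3) (.p (nat_lit 415) (nat_lit 1) (.n (nat_lit 416) (nat_lit 3) (.p (nat_lit 420) (nat_lit 1) (.p (nat_lit 421) (nat_lit 2) (.n (nat_lit 423) (nat_lit 1) (.n (nat_lit 424) (nat_lit 1) (.p (nat_lit 426) (nat_lit 1) (.p (nat_lit 427) (nat_lit 1) (.p (nat_lit 428) (nat_lit 1) (.n (nat_lit 429) (nat_lit 1) (.p (nat_lit 430) (nat_lit 1) (.n (nat_lit 435) (nat_lit 1) .z))))))))))))))))))))))))))))) (.ct dC2c_c293 (nat_lit 1) (nat_lit 4) (.s true (nat_lit 1) (nat_lit 18) (nat_lit 2) (nat_lit 1) (nat_lit 16) false (nat_lit 0) true (nat_lit 5) true (nat_lit 4) true (nat_lit 14) true (nat_lit 15) (.e true (nat_lit 1) (nat_lit 42) (nat_lit 41) (nat_lit 0) (.e true (nat_lit 1) (nat_lit 94) (nat_lit 16) (nat_lit 5) (.e false (nat_lit 1) (nat_lit 80) (nat_lit 18) (nat_lit 4) (.e true (nat_lit 1) (nat_lit 81) (nat_lit 18) (nat_lit 4) (.e true (nat_lit 1) (nat_lit 84) (nat_lit 18) (nat_lit 4) (.e true (nat_lit 2) (nat_lit 85) (nat_lit 18) (nat_lit 4) (.e false (nat_lit 1) (nat_lit 90) (nat_lit 18) (nat_lit 4) (.e false (nat_lit 1) (nat_lit 252) (nat_lit 2) (nat_lit 14) (.e false (nat_lit 2) (nat_lit 253) (nat_lit 2) (nat_lit 14) (.e false (nat_lit 2) (nat_lit 254) (nat_lit 2) (nat_lit 14) (.e false (nat_lit 2) (nat_lit 255) (nat_lit 2) (nat_lit 14) (.e true (nat_lit 1) (nat_lit 256) (nat_lit 2) (nat_lit 14) (.e true (nat_lit 1) (nat_lit 257) (nat_lit 2) (nat_lit 14) (.e true (nat_lit 3) (nat_lit 258) (nat_lit 2) (nat_lit 14) (.e false (nat_lit 1) (nat_lit 259) (nat_lit 2) (nat_lit 14) (.e true (nat_lit 1) (nat_lit 260) (nat_lit 2) (nat_lit 14) (.e true (nat_lit 3) (nat_lit 261) (nat_lit 2) (nat_lit 14) (.e true (nat_lit 3) (nat_lit 262) (nat_lit 2) (nat_lit 14) (.e true (nat_lit 1) (nat_lit 263) (nat_lit 2) (nat_lit 14) dC2c_i4))))))))))))))))))))) .leaf) (nat_lit 89107) (nat_lit 1354) (.p (nat_lit 397) (nat_lit 1) (.n (nat_lit 398) (nat_lit 1) (.n (nat_lit 399) (nat_lit 2) (.p (nat_lit 400) (nat_lit 2) (.n (nat_lit 401) (nat_lit 3) (.n (nat_lit 402) (nat_lit 1) (.n (nat_lit 403) (nat_lit 1) (.n (nat_lit 404) (nat_lit 2) (.n (nat_lit 405) (nat_lit 1) (.p (nat_lit 407) (nat_lit 2) (.n (nat_lit 408) (nat_lit 3) (.p (nat_lit 409) (nat_lit 3) (.n (nat_lit 410) (nat_lit 2) (.n (nat_lit 411) (nat_lit 2) (.p (nat_lit 412) (nat_lit 1) (.p (nat_lit 413) (nat_lit 3) (.n (nat_lit 414) (nat_lit 1) (.n (nat_lit 415) (nat_lit 3) (.n (nat_lit 416) (nat_lit 1) (.n (nat_lit 418) (nat_lit 3) (.n (nat_lit 420) (nat_lit 1) (.p (nat_lit 421) (nat_lit 3) (.p (nat_lit 423) (nat_lit 2) (.p (nat_lit 424) (nat_lit 2) (.n (nat_lit 426) (nat_lit 2) (.n (nat_lit 427) (nat_lit 2) (.n (nat_lit 428) (nat_lit 2) (.p (nat_lit 429) (nat_lit 2) (.n (nat_lit 430) (nat_lit 2) (.p (nat_lit 431) (nat_lit 2) (.p (nat_lit 432) (nat_lit 3) (.p (nat_lit 435) (nat_lit 3) .z)))))))))))))))))))))))))))))))) (.ct dC2c_c293 (nat_lit 1) (nat_lit 4) (.s true (nat_lit 1) (nat_lit 43) (nat_lit 7) (nat_lit 1) (nat_lit 1) true (nat_lit 4) true (nat_lit 15) false (nat_lit 0) true (nat_lit 9) true (nat_lit 15) (.e false (nat_lit 2) (nat_lit 80) (nat_lit 19) (nat_lit 4) (.e true (nat_lit 2) (nat_lit 81) (nat_lit 19) (nat_lit 4) (.e false (nat_lit 1) (nat_lit 82) (nat_lit 19) (nat_lit 4) (.e true (nat_lit 1) (nat_lit 83) (nat_lit 19) (nat_lit 4) (.e true (nat_lit 1) (nat_lit 84) (nat_lit 19) (nat_lit 4) (.e true (nat_lit 2) (nat_lit 85) (nat_lit 19) (nat_lit 4) (.e false (nat_lit 1) (nat_lit 86) (nat_lit 19) (nat_lit 4) (.e true (nat_lit 1) (nat_lit 88) (nat_lit 19) (nat_lit 4) (.e false (nat_lit 1) (nat_lit 90) (nat_lit 19) (nat_lit 4) (.e true (nat_lit 2) (nat_lit 320) (nat_lit 1) (nat_lit 15) (.e true (nat_lit 1) (nat_lit 321) (nat_lit 1) (nat_lit 15) (.e true (nat_lit 1) (nat_lit 305) (nat_lit 1) (nat_lit 15) (.e false (nat_lit 1) (nat_lit 307) (nat_lit 1) (nat_lit 15) (.e false (nat_lit 3) (nat_lit 308) (nat_lit 1) (nat_lit 15) (.e false (nat_lit 2) (nat_lit 309) (nat_lit 1) (nat_lit 15) (.e false (nat_lit 2) (nat_lit 311) (nat_lit 1) (nat_lit 15) (.e true (nat_lit 1) (nat_lit 312) (nat_lit 1) (nat_lit 15) (.e false (nat_lit 1) (nat_lit 313) (nat_lit 1) (nat_lit 15) (.e true (nat_lit 1) (nat_lit 314) (nat_lit 1) (nat_lit 15) (.e false (nat_lit 1) (nat_lit 315) (nat_lit 1) (nat_lit 15) (.e true (nat_lit 3) (nat_lit 317) (nat_lit 1) (nat_lit 15) dC2c_i5))))))))))))))))))))))) (.nd (.nd .leaf (nat_lit 90113) (nat_lit 243) (.p (nat_lit 149) (nat_lit 1) .z) .df .leaf) (nat_lit 90114) (nat_lit 324) (.p (nat_lit 177) (nat_lit 1) .z) .df .leaf))) (nat_lit 90116) (nat_lit 484) (.p (nat_lit 205) (nat_lit 3) (.p (nat_lit 206) (nat_lit 1) (.p (nat_lit 208) (nat_lit 3) (.n (nat_lit 209) (nat_lit 2) (.p (nat_lit 210) (nat_lit 2) (.p (nat_lit 211) (nat_lit 3) (.n (nat_lit 213) (nat_lit 1) (.n (nat_lit 214) (nat_lit 2) (.n (nat_lit 215) (nat_lit 2) (.n (nat_lit 216) (nat_lit 3) (.p (nat_lit 217) (nat_lit 3) (.p (nat_lit 218) (nat_lit 1) (.p (nat_lit 219) (nat_lit 2) (.p (nat_lit 220) (nat_lit 2) (.p (nat_lit 221) (nat_lit 3) (.p (nat_lit 222) (nat_lit 3) (.n (nat_lit 225) (nat_lit 2) (.n (nat_lit 226) (nat_lit 3) (.n (nat_lit 227) (nat_lit 3) (.p (nat_lit 228) (nat_lit 3) (.p (nat_lit 229) (nat_lit 3) (.p (nat_lit 230) (nat_lit 2) (.p (nat_lit 231) (nat_lit 3) (.n (nat_lit 238) (nat_lit 3) (.p (nat_lit 242) (nat_lit 2) (.p (nat_lit 245) (nat_lit 2) (.n (nat_lit 246) (nat_lit 2) (.n (nat_lit 247) (nat_lit 2) (.n (nat_lit 248) (nat_lit 2) .z))))))))))))))))))))))))))))) (.ct dC2c_c307 (nat_lit 1) (nat_lit 10) (.s false (nat_lit 1) (nat_lit 11) (nat_lit 1) (nat_lit 7) (nat_lit 1) true (nat_lit 10) true (nat_lit 13) true (nat_lit 4) true (nat_lit 13) true (nat_lit 7) (.s false (nat_lit 1) (nat_lit 19) (nat_lit 1) (nat_lit 3) (nat_lit 2) true (nat_lit 8) true (nat_lit 12) true (nat_lit 1) true (nat_lit 13) true (nat_lit 11) (.s false (nat_lit 1) (nat_lit 19) (nat_lit 2) (nat_lit 1) (nat_lit 3) true (nat_lit 4) true (nat_lit 11) true (nat_lit 1) true (nat_lit 12) true (nat_lit 13) (.s false (nat_lit 1) (nat_lit 29) (nat_lit 2) (nat_lit 2) (nat_lit 1) true (nat_lit 8) true (nat_lit 13) false (nat_lit 1) true (nat_lit 12) true (nat_lit 12) (.e false (nat_lit 3) (nat_lit 154) (nat_lit 1) (nat_lit 13) (.e true (nat_lit 3) (nat_lit 134) (nat_lit 1) (nat_lit 13) (.e false (nat_lit 3) (nat_lit 138) (nat_lit 1) (nat_lit 13) (.e false (nat_lit 2) (nat_lit 145) (nat_lit 1) (nat_lit 13) (.e false (nat_lit 2) (nat_lit 149) (nat_lit 1) (nat_lit 13) (.e false (nat_lit 1) (nat_lit 54) (nat_lit 7) (nat_lit 7) (.e true (nat_lit 1) (nat_lit 60) (nat_lit 6) (nat_lit 8) (.e true (nat_lit 1) (nat_lit 61) (nat_lit 6) (nat_lit 8) (.e true (nat_lit 1) (nat_lit 62) (nat_lit 6) (nat_lit 8) (.e false (nat_lit 1) (nat_lit 63) (nat_lit 6) (nat_lit 8) (.e false (nat_lit 1) (nat_lit 66) (nat_lit 6) (nat_lit 8) (.e false (nat_lit 1) (nat_lit 73) (nat_lit 6) (nat_lit 8) (.e false (nat_lit 1) (nat_lit 106) (nat_lit 2) (nat_lit 12) (.e true (nat_lit 1) (nat_lit 107) (nat_lit 2) (nat_lit 12) (.e true (nat_lit 1) (nat_lit 108) (nat_lit 2) (nat_lit 12) (.e false (nat_lit 1) (nat_lit 110) (nat_lit 2) (nat_lit 12) (.e false (nat_lit 3) (nat_lit 112) (nat_lit 2) (nat_lit 12) dC2c_i6)))))))))))))))))))))) (.nd (.nd (.nd (.nd .leaf (nat_lit 90118) (nat_lit 615) (.p (nat_lit 252) (nat_lit 1) (.p (nat_lit 253) (nat_lit 1) (.p (nat_lit 254) (nat_lit 3) (.n (nat_lit 255) (nat_lit 1) (.p (nat_lit 257) (nat_lit 1) (.p (nat_lit 258) (nat_lit 1) (.p (nat_lit 265) (nat_lit 1) (.p (nat_lit 266) (nat_lit 2) (.n (nat_lit 269) (nat_lit 3) (.n (nat_lit 272) (nat_lit 2) (.n (nat_lit 274) (nat_lit 2) (.p (nat_lit 277) (nat_lit 1) (.p (nat_lit 278) (nat_lit 1) (.n (nat_lit 285) (nat_lit 1) (.p (nat_lit 287) (nat_lit 1) .z))))))))))))))) (.ct dC2c_c292 (nat_lit 1) (nat_lit 7) (.s false (nat_lit 1) (nat_lit 11) (nat_lit 6) (nat_lit 2) (nat_lit 2) true (nat_lit 1) true (nat_lit 11) true (nat_lit 4) true (nat_lit 7) true (nat_lit 11) (.e true (nat_lit 1) (nat_lit 33) (nat_lit 18) (nat_lit 1) (.e false (nat_lit 1) (nat_lit 45) (nat_lit 11) (nat_lit 4) (.e true (nat_lit 1) (nat_lit 134) (nat_lit 2) (nat_lit 11) (.e false (nat_lit 2) (nat_lit 138) (nat_lit 2) (nat_lit 11) (.e true (nat_lit 1) (nat_lit 146) (nat_lit 2) (nat_lit 11) (.e false (nat_lit 1) (nat_lit 149) (nat_lit 2) (nat_lit 11) (.e false (nat_lit 1) (nat_lit 154) (nat_lit 2) (nat_lit 11) .nil))))))))) .leaf) (nat_lit 90119) (nat_lit 765) (.p (nat_lit 313) (nat_lit 2) .z) (.ct dC2c_c277 (nat_lit 1) (nat_lit 4) (.s false (nat_lit 1) (nat_lit 7) (nat_lit 2) (nat_lit 7) (nat_lit 3) true (nat_lit 3) true (nat_lit 7) true (nat_lit 4) true (nat_lit 8) true (nat_lit 4) (.e false (nat_lit 2) (nat_lit 177) (nat_lit 2) (nat_lit 8) .nil))) .leaf) (nat_lit 90127) (nat_lit 1140) (.p (nat_lit 335) (nat_lit 3) (.p (nat_lit 336) (nat_lit 1) (.p (nat_lit 337) (nat_lit 2) (.p (nat_lit 339) (nat_lit 2) (.n (nat_lit 340) (nat_lit 3) (.n (nat_lit 341) (nat_lit 2) (.p (nat_lit 343) (nat_lit 3) (.n (nat_lit 345) (nat_lit 2) (.n (nat_lit 347) (nat_lit 2) (.n (nat_lit 348) (nat_lit 2) (.n (nat_lit 349) (nat_lit 3) (.p (nat_lit 350) (nat_lit 3) (.p (nat_lit 351) (nat_lit 2) (.n (nat_lit 352) (nat_lit 1) (.n (nat_lit 355) (nat_lit 1) (.p (nat_lit 356) (nat_lit 1) (.n (nat_lit 357) (nat_lit 3) (.n (nat_lit 358) (nat_lit 3) (.n (nat_lit 359) (nat_lit 3) (.n (nat_lit 361) (nat_lit 3) (.p (nat_lit 362) (nat_lit 1) (.p (nat_lit 363) (nat_lit 2) (.n (nat_lit 364) (nat_lit 2) (.n (nat_lit 365) (nat_lit 2) (.n (nat_lit 366) (nat_lit 1) (.p (nat_lit 367) (nat_lit 3) (.n (nat_lit 368) (nat_lit 2) (.n (nat_lit 370) (nat_lit 1) (.p (nat_lit 371) (nat_lit 2) (.p (nat_lit 372) (nat_lit 2) (.n (nat_lit 373) (nat_lit 3) (.n (nat_lit 374) (nat_lit 3) (.n (nat_lit 375) (nat_lit 2) (.n (nat_lit 376) (nat_lit 3) (.n (nat_lit 378) (nat_lit 2) (.n (nat_lit 379) (nat_lit 1) (.n (nat_lit 380) (nat_lit 2) (.n (nat_lit 381) (nat_lit 2) (.p (nat_lit 382) (nat_lit 2) (.p (nat_lit 384) (nat_lit 2) (.p (nat_lit 386) (nat_lit 2) (.p (nat_lit 390) (nat_lit 3) (.p (nat_lit 391) (nat_lit 3) (.p (nat_lit 393) (nat_lit 2) .z)))))))))))))))))))))))))))))))))))))))))))) (.ct dC2c_c308 (nat_lit 1) (nat_lit 7) (.s true (nat_lit 1) (nat_lit 11) (nat_lit 1) (nat_lit 7) (nat_lit 6) true (nat_lit 7) true (nat_lit 12) true (nat_lit 8) true (nat_lit 17) true (nat_lit 11) (.e true (nat_lit 1) (nat_lit 154) (nat_lit 6) (nat_lit 12) (.e false (nat_lit 1) (nat_lit 91) (nat_lit 11) (nat_lit 8) (.e true (nat_lit 1) (nat_lit 92) (nat_lit 11) (nat_lit 8) (.e true (nat_lit 1) (nat_lit 93) (nat_lit 11) (nat_lit 8) (.e false (nat_lit 1) (nat_lit 95) (nat_lit 11) (nat_lit 8) (.e true (nat_lit 1) (nat_lit 96) (nat_lit 11) (nat_lit 8) (.e false (nat_lit 3) (nat_lit 254) (nat_lit 1) (nat_lit 17) (.e true (nat_lit 2) (nat_lit 265) (nat_lit 1) (nat_lit 17) (.e false (nat_lit 3) (nat_lit 266) (nat_lit 1) (nat_lit 17) (.e true (nat_lit 1) (nat_lit 269) (nat_lit 1) (nat_lit 17) (.e true (nat_lit 1) (nat_lit 272) (nat_lit 1) (nat_lit 17) (.e false (nat_lit 3) (nat_lit 274) (nat_lit 1) (nat_lit 17) (.e false (nat_lit 1) (nat_lit 278) (nat_lit 1) (nat_lit 17) (.e true (nat_lit 1) (nat_lit 285) (nat_lit 1) (nat_lit 17) (.e false (nat_lit 1) (nat_lit 287) (nat_lit 1) (nat_lit 17) (.e false (nat_lit 1) (nat_lit 264) (nat_lit 1) (nat_lit 17) (.e false (nat_lit 1) (nat_lit 127) (nat_lit 7) (nat_lit 11) (.u (nat_lit 2) (.n (nat_lit 1) (nat_lit 1) (.p (nat_lit 3) (nat_lit 2) (.n (nat_lit 4) (nat_lit 1) (.n (nat_lit 5) (nat_lit 1) (.n (nat_lit 6) (nat_lit 2) (.p (nat_lit 7) (nat_lit 1) (.n (nat_lit 8) (nat_lit 1) (.p (nat_lit 13) (nat_lit 1) (.n (nat_lit 16) (nat_lit 1) (.p (nat_lit 17) (nat_lit 1) (.p (nat_lit 18) (nat_lit 1) (.n (nat_lit 21) (nat_lit 1) (.p (nat_lit 23) (nat_lit 1) (.p (nat_lit 26) (nat_lit 2) (.p (nat_lit 28) (nat_lit 1) (.p (nat_lit 30) (nat_lit 1) (.p (nat_lit 33) (nat_lit 1) (.p (nat_lit 34) (nat_lit 1) (.p (nat_lit 35) (nat_lit 1) (.n (nat_lit 37) (nat_lit 1) (.p (nat_lit 40) (nat_lit 1) (.p (nat_lit 41) (nat_lit 1) (.p (nat_lit 43) (nat_lit 1) (.n (nat_lit 47) (nat_lit 1) (.n (nat_lit 51) (nat_lit 1) (.n (nat_lit 55) (nat_lit 1) (.n (nat_lit 56) (nat_lit 1) (.n (nat_lit 58) (nat_lit 1) (.n (nat_lit 351) (nat_lit 1) (.p (nat_lit 362) (nat_lit 1) (.n (nat_lit 363) (nat_lit 1) (.p (nat_lit 366) (nat_lit 1) .z)))))))))))))))))))))))))))))))) .nil)))))))))))))))))))) (.nd (.nd .leaf (nat_lit 90130) (nat_lit 1238) (.p (nat_lit 397) (nat_lit 2) (.p (nat_lit 398) (nat_lit 1) (.p (nat_lit 399) (nat_lit 2) (.p (nat_lit 400) (nat_lit 1) (.n (nat_lit 401) (nat_lit 1) (.n (nat_lit 403) (nat_lit 3) (.p (nat_lit 404) (nat_lit 1) (.n (nat_lit 405) (nat_lit 3) (.p (nat_lit 406) (nat_lit 3) (.n (nat_lit 407) (nat_lit 3) (.p (nat_lit 408) (nat_lit 1) (.n (nat_lit 409) (nat_lit 2) (.p (nat_lit 410) (nat_lit 2) (.n (nat_lit 411) (nat_lit 2) (.n (nat_lit 412) (nat_lit 3) (.n (nat_lit 413) (nat_lit 3) (.n (nat_lit 414) (nat_lit 3) (.n (nat_lit 416) (nat_lit 3) (.p (nat_lit 418) (nat_lit 2) (.p (nat_lit 420) (nat_lit 3) (.n (nat_lit 421) (nat_lit 2) (.p (nat_lit 427) (nat_lit 2) (.n (nat_lit 431) (nat_lit 1) (.n (nat_lit 435) (nat_lit 1) .z)))))))))))))))))))))))) (.ct dC2c_c293 (nat_lit 1) (nat_lit 4) (.s false (nat_lit 1) (nat_lit 88) (nat_lit 2) (nat_lit 1) (nat_lit 2) true (nat_lit 9) true (nat_lit 14) false (nat_lit 4) true (nat_lit 14) true (nat_lit 15) (.e false (nat_lit 1) (nat_lit 149) (nat_lit 7) (nat_lit 9) (.e true (nat_lit 2) (nat_lit 254) (nat_lit 2) (nat_lit 14) (.e true (nat_lit 2) (nat_lit 258) (nat_lit 2) (nat_lit 14) (.e true (nat_lit 3) (nat_lit 266) (nat_lit 2) (nat_lit 14) (.e true (nat_lit 1) (nat_lit 252) (nat_lit 2) (nat_lit 14) (.e true (nat_lit 1) (nat_lit 253) (nat_lit 2) (nat_lit 14) (.e false (nat_lit 1) (nat_lit 255) (nat_lit 2) (nat_lit 14) (.e true (nat_lit 1) (nat_lit 257) (nat_lit 2) (nat_lit 14) (.e false (nat_lit 3) (nat_lit 269) (nat_lit 2) (nat_lit 14) (.e false (nat_lit 2) (nat_lit 272) (nat_lit 2) (nat_lit 14) (.e false (nat_lit 2) (nat_lit 274) (nat_lit 2) (nat_lit 14) (.e true (nat_lit 1) (nat_lit 277) (nat_lit 2) (nat_lit 14) (.e true (nat_lit 1) (nat_lit 313) (nat_lit 1) (nat_lit 15) (.u (nat_lit 2) (.p (nat_lit 0) (nat_lit 1) (.p (nat_lit 2) (nat_lit 1) (.n (nat_lit 3) (nat_lit 1) (.p (nat_lit 6) (nat_lit 1) (.n (nat_lit 7) (nat_lit 1) (.n (nat_lit 8) (nat_lit 1) (.n (nat_lit 10) (nat_lit 1) (.n (nat_lit 12) (nat_lit 2) (.n (nat_lit 13) (nat_lit 2) (.n (nat_lit 18) (nat_lit 1) (.p (nat_lit 21) (nat_lit 2) (.n (nat_lit 23) (nat_lit 2) (.n (nat_lit 38) (nat_lit 2) .z))))))))))))) .nil)))))))))))))))) .leaf) (nat_lit 90131) (nat_lit 1235) (.n (nat_lit 397) (nat_lit 1) (.n (nat_lit 398) (nat_lit 2) (.n (nat_lit 399) (nat_lit 1) (.n (nat_lit 400) (nat_lit 2) (.n (nat_lit 401) (nat_lit 3) (.n (nat_lit 402) (nat_lit 1) (.p (nat_lit 403) (nat_lit 1) (.n (nat_lit 404) (nat_lit 2) (.p (nat_lit 405) (nat_lit 3) (.n (nat_lit 406) (nat_lit 3) (.n (nat_lit 407) (nat_lit 1) (.n (nat_lit 408) (nat_lit 3) (.p (nat_lit 409) (nat_lit 1) (.n (nat_lit 410) (nat_lit 1) (.n (nat_lit 411) (nat_lit 1) (.p (nat_lit 414) (nat_lit 2) (.p (nat_lit 415) (nat_lit 2) (.n (nat_lit 416) (nat_lit 2) (.p (nat_lit 418) (nat_lit 2) (.p (nat_lit 421) (nat_lit 3) (.p (nat_lit 427) (nat_lit 3) (.n (nat_lit 431) (nat_lit 1) (.n (nat_lit 435) (nat_lit 1) .z))))))))))))))))))))))) (.ct dC2c_c293 (nat_lit 1) (nat_lit 4) (.s false (nat_lit 1) (nat_lit 11) (nat_lit 7) (nat_lit 7) (nat_lit 1) true (nat_lit 4) true (nat_lit 15) true (nat_lit 7) true (nat_lit 9) true (nat_lit 9) (.e false (nat_lit 2) (nat_lit 313) (nat_lit 1) (nat_lit 15) (.e false (nat_lit 2) (nat_lit 134) (nat_lit 7) (nat_lit 9) (.e true (nat_lit 2) (nat_lit 138) (nat_lit 7) (nat_lit 9) (.e false (nat_lit 2) (nat_lit 145) (nat_lit 7) (nat_lit 9) (.e true (nat_lit 1) (nat_lit 149) (nat_lit 7) (nat_lit 9) (.e true (nat_lit 2) (nat_lit 154) (nat_lit 7) (nat_lit 9) (.u (nat_lit 2) (.p (nat_lit 1) (nat_lit 1) (.n (nat_lit 3) (nat_lit 1) (.n (nat_lit 5) (nat_lit 2) (.p (nat_lit 7) (nat_lit 1) (.p (nat_lit 9) (nat_lit 3) (.p (nat_lit 11) (nat_lit 1) (.n (nat_lit 18) (nat_lit 2) (.n (nat_lit 19) (nat_lit 1) (.n (nat_lit 21) (nat_lit 1) (.n (nat_lit 24) (nat_lit 3) (.p (nat_lit 25) (nat_lit 2) (.n (nat_lit 34) (nat_lit 2) (.p (nat_lit 38) (nat_lit 1) .z))))))))))))) .nil))))))))) .leaf)) (nat_lit 91137) (nat_lit 244) (.p (nat_lit 150) (nat_lit 1) .z) .df (.nd (.nd (.nd .leaf (nat_lit 91138) (nat_lit 325) (.p (nat_lit 178) (nat_lit 1) .z) .df .leaf) (nat_lit 91140) (nat_lit 506) (.p (nat_lit 205) (nat_lit 3) (.n (nat_lit 206) (nat_lit 2) (.p (nat_lit 207) (nat_lit 3) (.n (nat_lit 208) (nat_lit 3) (.n (nat_lit 209) (nat_lit 3) (.n (nat_lit 210) (nat_lit 2) (.p (nat_lit 211) (nat_lit 2) (.p (nat_lit 212) (nat_lit 1) (.p (nat_lit 213) (nat_lit 2) (.p (nat_lit 214) (nat_lit 1) (.p (nat_lit 217) (nat_lit 2) (.p (nat_lit 218) (nat_lit 1) (.p (nat_lit 219) (nat_lit 1) (.n (nat_lit 220) (nat_lit 3) (.p (nat_lit 221) (nat_lit 2) (.n (nat_lit 222) (nat_lit 2) (.n (nat_lit 225) (nat_lit 2) (.p (nat_lit 226) (nat_lit 2) (.p (nat_lit 227) (nat_lit 1) (.n (nat_lit 228) (nat_lit 3) (.p (nat_lit 230) (nat_lit 1) (.p (nat_lit 231) (nat_lit 1) (.n (nat_lit 232) (nat_lit 3) (.p (nat_lit 234) (nat_lit 2) (.n (nat_lit 239) (nat_lit 3) (.n (nat_lit 242) (nat_lit 2) (.n (nat_lit 243) (nat_lit 3) (.n (nat_lit 244) (nat_lit 1) (.n (nat_lit 245) (nat_lit 2) (.p (nat_lit 246) (nat_lit 1) (.n (nat_lit 247) (nat_lit 2) (.n (nat_lit 248) (nat_lit 2) (.n (nat_lit 249) (nat_lit 3) (.n (nat_lit 250) (nat_lit 3) (.n (nat_lit 251) (nat_lit 1) .z))))))))))))))))))))))))))))))))))) (.ct dC2c_c307 (nat_lit 1) (nat_lit 10) (.s false (nat_lit 1) (nat_lit 12) (nat_lit 4) (nat_lit 2) (nat_lit 2) true (nat_lit 3) true (nat_lit 12) true (nat_lit 4) true (nat_lit 10) true (nat_lit 12) dC2c_i7)) .leaf) (nat_lit 91142) (nat_lit 651) (.n (nat_lit 252) (nat_lit 1) (.p (nat_lit 253) (nat_lit 1) (.p (nat_lit 254) (nat_lit 3) (.p (nat_lit 255) (nat_lit 2) (.n (nat_lit 256) (nat_lit 2) (.n (nat_lit 257) (nat_lit 3) (.n (nat_lit 258) (nat_lit 3) (.p (nat_lit 259) (nat_lit 2) (.n (nat_lit 260) (nat_lit 2) (.n (nat_lit 261) (nat_lit 3) (.n (nat_lit 262) (nat_lit 2) (.p (nat_lit 263) (nat_lit 3) (.n (nat_lit 264) (nat_lit 3) (.n (nat_lit 265) (nat_lit 2) (.p (nat_lit 267) (nat_lit 3) (.p (nat_lit 269) (nat_lit 2) (.n (nat_lit 270) (nat_lit 1) (.n (nat_lit 271) (nat_lit 3) (.n (nat_lit 273) (nat_lit 3) (.p (nat_lit 274) (nat_lit 2) (.n (nat_lit 275) (nat_lit 1) (.p (nat_lit 276) (nat_lit 3) (.p (nat_lit 277) (nat_lit 2) (.p (nat_lit 279) (nat_lit 1) (.n (nat_lit 286) (nat_lit 1) (.p (nat_lit 288) (nat_lit 1) .z)))))))))))))))))))))))))) (.ct dC2c_c292 (nat_lit 1) (nat_lit 7) (.s false (nat_lit 1) (nat_lit 12) (nat_lit 2) (nat_lit 7) (nat_lit 1) true (nat_lit 7) true (nat_lit 12) true (nat_lit 4) true (nat_lit 11) true (nat_lit 6) (.e false (nat_lit 1) (nat_lit 182) (nat_lit 1) (nat_lit 12) (.e true (nat_lit 1) (nat_lit 47) (nat_lit 12) (nat_lit 4) (.e false (nat_lit 2) (nat_lit 133) (nat_lit 2) (nat_lit 11) (.e false (nat_lit 3) (nat_lit 135) (nat_lit 2) (nat_lit 11) (.e false (nat_lit 2) (nat_lit 138) (nat_lit 2) (nat_lit 11) (.e false (nat_lit 2) (nat_lit 139) (nat_lit 2) (nat_lit 11) (.e true (nat_lit 2) (nat_lit 140) (nat_lit 2) (nat_lit 11) (.e true (nat_lit 2) (nat_lit 144) (nat_lit 2) (nat_lit 11) (.e false (nat_lit 1) (nat_lit 150) (nat_lit 2) (nat_lit 11) (.e false (nat_lit 1) (nat_lit 155) (nat_lit 2) (nat_lit 11) (.e false (nat_lit 1) (nat_lit 63) (nat_lit 7) (nat_lit 6) (.u (nat_lit 2) (.n (nat_lit 2) (nat_lit 1) (.n (nat_lit 11) (nat_lit 1) (.p (nat_lit 13) (nat_lit 1) (.n (nat_lit 22) (nat_lit 1) (.p (nat_lit 23) (nat_lit 1) .z))))) .nil)))))))))))))) (.nd .leaf (nat_lit 91143) (nat_lit 768) (.p (nat_lit 317) (nat_lit 2) .z) (.ct dC2c_c277 (nat_lit 1) (nat_lit 4) (.s true (nat_lit 3) (nat_lit 12) (nat_lit 2) (nat_lit 7) (nat_lit 2) true (nat_lit 4) true (nat_lit 8) true (nat_lit 3) true (nat_lit 8) true (nat_lit 4) (.s true (nat_lit 3) (nat_lit 12) (nat_lit 7) (nat_lit 2) (nat_lit 2) true (nat_lit 0) true (nat_lit 8) true (nat_lit 3) true (nat_lit 4) true (nat_lit 8) (.e true (nat_lit 2) (nat_lit 182) (nat_lit 2) (nat_lit 8) (.e true (nat_lit 3) (nat_lit 81) (nat_lit 7) (nat_lit 4) (.e false (nat_lit 3) (nat_lit 34) (nat_lit 20) (nat_lit 0) (.u (nat_lit 2) (.n (nat_lit 12) (nat_lit 1) (.p (nat_lit 49) (nat_lit 1) (.n (nat_lit 73) (nat_lit 1) .z))) .nil))))))) .leaf)))) (nat_lit 91150) (nat_lit 1092) (.p (nat_lit 335) (nat_lit 2) (.n (nat_lit 338) (nat_lit 1) (.n (nat_lit 339) (nat_lit 2) (.p (nat_lit 340) (nat_lit 1) (.p (nat_lit 341) (nat_lit 2) (.n (nat_lit 342) (nat_lit 2) (.p (nat_lit 343) (nat_lit 1) (.n (nat_lit 344) (nat_lit 3) (.n (nat_lit 346) (nat_lit 3) (.n (nat_lit 347) (nat_lit 3) (.n (nat_lit 350) (nat_lit 3) (.n (nat_lit 351) (nat_lit 1) (.p (nat_lit 352) (nat_lit 1) (.p (nat_lit 353) (nat_lit 3) (.p (nat_lit 354) (nat_lit 1) (.n (nat_lit 355) (nat_lit 3) (.p (nat_lit 356) (nat_lit 2) (.n (nat_lit 357) (nat_lit 2) (.n (nat_lit 358) (nat_lit 1) (.n (nat_lit 359) (nat_lit 3) (.p (nat_lit 360) (nat_lit 3) (.n (nat_lit 361) (nat_lit 2) (.n (nat_lit 362) (nat_lit 3) (.p (nat_lit 363) (nat_lit 1) (.n (nat_lit 364) (nat_lit 2) (.p (nat_lit 366) (nat_lit 2) (.p (nat_lit 367) (nat_lit 1) (.n (nat_lit 368) (nat_lit 3) (.p (nat_lit 369) (nat_lit 3) (.n (nat_lit 370) (nat_lit 2) (.n (nat_lit 371) (nat_lit 2) (.p (nat_lit 372) (nat_lit 1) (.p (nat_lit 373) (nat_lit 3) (.n (nat_lit 374) (nat_lit 1) (.p (nat_lit 376) (nat_lit 3) (.n (nat_lit 380) (nat_lit 3) (.n (nat_lit 381) (nat_lit 2) (.n (nat_lit 382) (nat_lit 2) (.p (nat_lit 383) (nat_lit 1) (.n (nat_lit 396) (nat_lit 3) .z)))))))))))))))))))))))))))))))))))))))) (.ct dC2c_c308 (nat_lit 1) (nat_lit 7) (.s false (nat_lit 1) (nat_lit 14) (nat_lit 2) (nat_lit 2) (nat_lit 12) true (nat_lit 0) true (nat_lit 8) true (nat_lit 7) true (nat_lit 16) true (nat_lit 16) (.e true (nat_lit 1) (nat_lit 39) (nat_lit 34) (nat_lit 0) (.e false (nat_lit 1) (nat_lit 91) (nat_lit 12) (nat_lit 8) (.e false (nat_lit 2) (nat_lit 206) (nat_lit 2) (nat_lit 16) (.e false (nat_lit 1) (nat_lit 208) (nat_lit 2) (nat_lit 16) (.e false (nat_lit 2) (nat_lit 209) (nat_lit 2) (nat_lit 16) (.e false (nat_lit 1) (nat_lit 210) (nat_lit 2) (nat_lit 16) (.e true (nat_lit 2) (nat_lit 211) (nat_lit 2) (nat_lit 16) (.e false (nat_lit 2) (nat_lit 212) (nat_lit 2) (nat_lit 16) (.e false (nat_lit 2) (nat_lit 213) (nat_lit 2) (nat_lit 16) (.e true (nat_lit 3) (nat_lit 214) (nat_lit 2) (nat_lit 16) (.e true (nat_lit 3) (nat_lit 215) (nat_lit 2) (nat_lit 16) (.e true (nat_lit 2) (nat_lit 217) (nat_lit 2) (nat_lit 16) (.e true (nat_lit 2) (nat_lit 218) (nat_lit 2) (nat_lit 16) (.e false (nat_lit 1) (nat_lit 219) (nat_lit 2) (nat_lit 16) dC2c_i8)))))))))))))))) (.nd (.nd (.nd (.nd (.nd .leaf (nat_lit 91151) (nat_lit 1082) (.p (nat_lit 335) (nat_lit 2) (.p (nat_lit 340) (nat_lit 3) (.p (nat_lit 341) (nat_lit 2) (.n (nat_lit 342) (nat_lit 1) (.n (nat_lit 343) (nat_lit 1) (.p (nat_lit 345) (nat_lit 1) (.n (nat_lit 346) (nat_lit 1) (.n (nat_lit 347) (nat_lit 3) (.n (nat_lit 350) (nat_lit 1) (.n (nat_lit 351) (nat_lit 3) (.p (nat_lit 353) (nat_lit 1) (.n (nat_lit 354) (nat_lit 2) (.n (nat_lit 355) (nat_lit 1) (.n (nat_lit 356) (nat_lit 3) (.p (nat_lit 357) (nat_lit 3) (.n (nat_lit 358) (nat_lit 2) (.n (nat_lit 359) (nat_lit 1) (.n (nat_lit 362) (nat_lit 2) (.n (nat_lit 363) (nat_lit 3) (.n (nat_lit 364) (nat_lit 3) (.n (nat_lit 366) (nat_lit 3) (.n (nat_lit 367) (nat_lit 2) (.p (nat_lit 368) (nat_lit 3) (.n (nat_lit 369) (nat_lit 1) (.n (nat_lit 370) (nat_lit 3) (.p (nat_lit 371) (nat_lit 3) (.n (nat_lit 372) (nat_lit 3) (.n (nat_lit 373) (nat_lit 3) (.n (nat_lit 374) (nat_lit 1) (.p (nat_lit 376) (nat_lit 2) (.p (nat_lit 380) (nat_lit 2) (.n (nat_lit 381) (nat_lit 1) (.n (nat_lit 382) (nat_lit 3) (.n (nat_lit 383) (nat_lit 2) (.n (nat_lit 396) (nat_lit 2) .z))))))))))))))))))))))))))))))))))) (.ct dC2c_c308 (nat_lit 1) (nat_lit 7) (.s false (nat_lit 1) (nat_lit 89) (nat_lit 1) (nat_lit 2) (nat_lit 1) true (nat_lit 14) true (nat_lit 17) false (nat_lit 7) true (nat_lit 17) true (nat_lit 16) (.e false (nat_lit 1) (nat_lit 178) (nat_lit 4) (nat_lit 14) (.e false (nat_lit 2) (nat_lit 270) (nat_lit 1) (nat_lit 17) (.e false (nat_lit 1) (nat_lit 252) (nat_lit 1) (nat_lit 17) (.e true (nat_lit 1) (nat_lit 253) (nat_lit 1) (nat_lit 17) (.e true (nat_lit 3) (nat_lit 254) (nat_lit 1) (nat_lit 17) (.e true (nat_lit 2) (nat_lit 255) (nat_lit 1) (nat_lit 17) (.e false (nat_lit 2) (nat_lit 256) (nat_lit 1) (nat_lit 17) (.e false (nat_lit 3) (nat_lit 257) (nat_lit 1) (nat_lit 17) (.e false (nat_lit 3) (nat_lit 258) (nat_lit 1) (nat_lit 17) dC2c_i10))))))))))) .leaf) (nat_lit 91154) (nat_lit 1281) (.p (nat_lit 397) (nat_lit 3) (.p (nat_lit 398) (nat_lit 1) (.p (nat_lit 399) (nat_lit 3) (.n (nat_lit 400) (nat_lit 3) (.p (nat_lit 401) (nat_lit 3) (.p (nat_lit 402) (nat_lit 3) (.n (nat_lit 403) (nat_lit 1) (.n (nat_lit 404) (nat_lit 1) (.p (nat_lit 405) (nat_lit 2) (.p (nat_lit 406) (nat_lit 2) (.n (nat_lit 408) (nat_lit 2) (.p (nat_lit 409) (nat_lit 1) (.n (nat_lit 410) (nat_lit 1) (.p (nat_lit 411) (nat_lit 1) (.n (nat_lit 412) (nat_lit 2) (.n (nat_lit 413) (nat_lit 2) (.n (nat_lit 415) (nat_lit 3) (.n (nat_lit 418) (nat_lit 3) (.n (nat_lit 420) (nat_lit 3) (.n (nat_lit 421) (nat_lit 1) (.p (nat_lit 428) (nat_lit 2) (.n (nat_lit 431) (nat_lit 2) (.n (nat_lit 432) (nat_lit 1) (.n (nat_lit 435) (nat_lit 2) .z)))))))))))))))))))))))) (.ct dC2c_c293 (nat_lit 1) (nat_lit 4) (.s false (nat_lit 1) (nat_lit 89) (nat_lit 1) (nat_lit 2) (nat_lit 2) true (nat_lit 10) true (nat_lit 14) false (nat_lit 4) true (nat_lit 15) true (nat_lit 14) (.e false (nat_lit 1) (nat_lit 178) (nat_lit 6) (nat_lit 10) (.e false (nat_lit 1) (nat_lit 270) (nat_lit 2) (nat_lit 14) (.e true (nat_lit 2) (nat_lit 317) (nat_lit 1) (nat_lit 15) (.e false (nat_lit 1) (nat_lit 253) (nat_lit 2) (nat_lit 14) (.e true (nat_lit 2) (nat_lit 255) (nat_lit 2) (nat_lit 14) (.e false (nat_lit 1) (nat_lit 258) (nat_lit 2) (nat_lit 14) (.e false (nat_lit 1) (nat_lit 259) (nat_lit 2) (nat_lit 14) (.e true (nat_lit 1) (nat_lit 260) (nat_lit 2) (nat_lit 14) (.e true (nat_lit 1) (nat_lit 264) (nat_lit 2) (nat_lit 14) (.e false (nat_lit 1) (nat_lit 267) (nat_lit 2) (nat_lit 14) (.e true (nat_lit 1) (nat_lit 279) (nat_lit 2) (nat_lit 14) (.e false (nat_lit 1) (nat_lit 286) (nat_lit 2) (nat_lit 14) (.e true (nat_lit 1) (nat_lit 288) (nat_lit 2) (nat_lit 14) (.u (nat_lit 2) (.n (nat_lit 1) (nat_lit 1) (.n (nat_lit 2) (nat_lit 2) (.p (nat_lit 5) (nat_lit 1) (.n (nat_lit 6) (nat_lit 1) (.n (nat_lit 9) (nat_lit 1) (.n (nat_lit 12) (nat_lit 1) (.p (nat_lit 14) (nat_lit 2) (.p (nat_lit 15) (nat_lit 1) (.p (nat_lit 16) (nat_lit 1) (.p (nat_lit 18) (nat_lit 2) (.p (nat_lit 19) (nat_lit 2) (.p (nat_lit 24) (nat_lit 1) (.p (nat_lit 38) (nat_lit 1) .z))))))))))))) .nil)))))))))))))))) .leaf) (nat_lit 91155) (nat_lit 1284) (.p (nat_lit 397) (nat_lit 2) (.n (nat_lit 398) (nat_lit 3) (.n (nat_lit 399) (nat_lit 3) (.p (nat_lit 400) (nat_lit 3) (.p (nat_lit 401) (nat_lit 2) (.n (nat_lit 402) (nat_lit 2) (.n (nat_lit 404) (nat_lit 2) (.p (nat_lit 405) (nat_lit 1) (.p (nat_lit 406) (nat_lit 2) (.n (nat_lit 407) (nat_lit 2) (.p (nat_lit 409) (nat_lit 1) (.n (nat_lit 410) (nat_lit 1) (.n (nat_lit 411) (nat_lit 2) (.p (nat_lit 412) (nat_lit 1) (.p (nat_lit 413) (nat_lit 1) (.n (nat_lit 414) (nat_lit 1) (.p (nat_lit 415) (nat_lit 2) (.n (nat_lit 416) (nat_lit 3) (.p (nat_lit 420) (nat_lit 2) (.n (nat_lit 421) (nat_lit 2) (.p (nat_lit 428) (nat_lit 3) (.n (nat_lit 431) (nat_lit 1) (.p (nat_lit 432) (nat_lit 3) (.n (nat_lit 435) (nat_lit 2) .z)))))))))))))))))))))))) (.ct dC2c_c293 (nat_lit 1) (nat_lit 4) (.s false (nat_lit 1) (nat_lit 19) (nat_lit 2) (nat_lit 2) (nat_lit 12) true (nat_lit 1) true (nat_lit 7) true (nat_lit 4) true (nat_lit 14) true (nat_lit 14) (.e true (nat_lit 1) (nat_lit 46) (nat_lit 34) (nat_lit 1) (.e false (nat_lit 1) (nat_lit 102) (nat_lit 12) (nat_lit 7) (.e false (nat_lit 3) (nat_lit 253) (nat_lit 2) (nat_lit 14) (.e false (nat_lit 1) (nat_lit 255) (nat_lit 2) (nat_lit 14) (.e false (nat_lit 3) (nat_lit 258) (nat_lit 2) (nat_lit 14) (.e true (nat_lit 2) (nat_lit 259) (nat_lit 2) (nat_lit 14) (.e true (nat_lit 3) (nat_lit 260) (nat_lit 2) (nat_lit 14) (.e true (nat_lit 3) (nat_lit 264) (nat_lit 2) (nat_lit 14) (.e true (nat_lit 1) (nat_lit 267) (nat_lit 2) (nat_lit 14) (.e false (nat_lit 2) (nat_lit 270) (nat_lit 2) (nat_lit 14) (.e false (nat_lit 2) (nat_lit 275) (nat_lit 2) (nat_lit 14) (.e true (nat_lit 1) (nat_lit 279) (nat_lit 2) (nat_lit 14) (.e true (nat_lit 1) (nat_lit 288) (nat_lit 2) (nat_lit 14) (.u (nat_lit 2) (.n (nat_lit 1) (nat_lit 2) (.n (nat_lit 2) (nat_lit 1) (.n (nat_lit 3) (nat_lit 1) (.p (nat_lit 5) (nat_lit 3) (.n (nat_lit 6) (nat_lit 1) (.n (nat_lit 7) (nat_lit 1) (.p (nat_lit 8) (nat_lit 1) (.p (nat_lit 10) (nat_lit 1) (.n (nat_lit 11) (nat_lit 1) (.n (nat_lit 12) (nat_lit 1) (.n (nat_lit 13) (nat_lit 1) (.p (nat_lit 14) (nat_lit 1) (.n (nat_lit 15) (nat_lit 1) (.n (nat_lit 16) (nat_lit 1) (.p (nat_lit 17) (nat_lit 1) (.p (nat_lit 18) (nat_lit 2) (.p (nat_lit 19) (nat_lit 2) (.n (nat_lit 21) (nat_lit 2) (.n (nat_lit 23) (nat_lit 3) (.p (nat_lit 24) (nat_lit 2) (.p (nat_lit 26) (nat_lit 1) (.n (nat_lit 28) (nat_lit 1) (.p (nat_lit 34) (nat_lit 1) (.n (nat_lit 35) (nat_lit 3) (.p (nat_lit 38) (nat_lit 2) (.p (nat_lit 211) (nat_lit 1) .z)))))))))))))))))))))))))) .nil)))))))))))))))) (.nd (.nd .leaf (nat_lit 92161) (nat_lit 265) (.n (nat_lit 132) (nat_lit 2) (.n (nat_lit 135) (nat_lit 2) (.p (nat_lit 136) (nat_lit 3) (.n (nat_lit 137) (nat_lit 3) (.p (nat_lit 138) (nat_lit 2) (.n (nat_lit 139) (nat_lit 3) (.p (nat_lit 140) (nat_lit 3) (.n (nat_lit 141) (nat_lit 1) (.n (nat_lit 143) (nat_lit 2) (.n (nat_lit 144) (nat_lit 3) (.n (nat_lit 145) (nat_lit 1) (.n (nat_lit 147) (nat_lit 2) (.n (nat_lit 149) (nat_lit 1) (.p (nat_lit 150) (nat_lit 2) (.p (nat_lit 151) (nat_lit 1) (.p (nat_lit 152) (nat_lit 2) (.p (nat_lit 153) (nat_lit 1) (.p (nat_lit 154) (nat_lit 1) (.p (nat_lit 155) (nat_lit 1) (.n (nat_lit 156) (nat_lit 1) (.n (nat_lit 157) (nat_lit 2) .z))))))))))))))))))))) (.ct dC2c_c291 (nat_lit 1) (nat_lit 9) dC2c_i11) .leaf) (nat_lit 92162) (nat_lit 326) (.p (nat_lit 179) (nat_lit 1) .z) .df .leaf)) (nat_lit 92164) (nat_lit 546) (.p (nat_lit 205) (nat_lit 3) (.p (nat_lit 206) (nat_lit 2) (.n (nat_lit 207) (nat_lit 2) (.p (nat_lit 208) (nat_lit 2) (.n (nat_lit 211) (nat_lit 2) (.n (nat_lit 212) (nat_lit 2) (.p (nat_lit 213) (nat_lit 1) (.p (nat_lit 214) (nat_lit 2) (.p (nat_lit 215) (nat_lit 3) (.n (nat_lit 216) (nat_lit 2) (.n (nat_lit 217) (nat_lit 3) (.p (nat_lit 218) (nat_lit 1) (.n (nat_lit 219) (nat_lit 2) (.n (nat_lit 220) (nat_lit 1) (.p (nat_lit 221) (nat_lit 3) (.n (nat_lit 225) (nat_lit 2) (.p (nat_lit 227) (nat_lit 2) (.n (nat_lit 228) (nat_lit 1) (.p (nat_lit 229) (nat_lit 2) (.n (nat_lit 230) (nat_lit 3) (.n (nat_lit 231) (nat_lit 3) (.n (nat_lit 232) (nat_lit 3) (.p (nat_lit 234) (nat_lit 2) (.n (nat_lit 238) (nat_lit 3) (.n (nat_lit 239) (nat_lit 3) (.n (nat_lit 242) (nat_lit 1) (.p (nat_lit 243) (nat_lit 1) (.n (nat_lit 244) (nat_lit 1) (.n (nat_lit 245) (nat_lit 1) (.n (nat_lit 246) (nat_lit 2) (.n (nat_lit 248) (nat_lit 3) (.p (nat_lit 249) (nat_lit 2) (.n (nat_lit 250) (nat_lit 3) (.p (nat_lit 251) (nat_lit 1) .z)))))))))))))))))))))))))))))))))) (.ct dC2c_c307 (nat_lit 1) (nat_lit 10) (.s false (nat_lit 1) (nat_lit 13) (nat_lit 4) (nat_lit 2) (nat_lit 2) true (nat_lit 3) true (nat_lit 12) true (nat_lit 4) true (nat_lit 10) true (nat_lit 12) dC2c_i12)) (.nd (.nd (.nd .leaf (nat_lit 92166) (nat_lit 655) (.p (nat_lit 252) (nat_lit 2) (.n (nat_lit 253) (nat_lit 1) (.n (nat_lit 254) (nat_lit 2) (.n (nat_lit 255) (nat_lit 3) (.p (nat_lit 256) (nat_lit 1) (.n (nat_lit 257) (nat_lit 2) (.p (nat_lit 258) (nat_lit 1) (.p (nat_lit 259) (nat_lit 1) (.n (nat_lit 260) (nat_lit 1) (.p (nat_lit 263) (nat_lit 3) (.p (nat_lit 264) (nat_lit 2) (.n (nat_lit 265) (nat_lit 2) (.n (nat_lit 266) (nat_lit 3) (.p (nat_lit 267) (nat_lit 2) (.p (nat_lit 269) (nat_lit 1) (.p (nat_lit 270) (nat_lit 3) (.n (nat_lit 271) (nat_lit 3) (.p (nat_lit 272) (nat_lit 2) (.n (nat_lit 273) (nat_lit 1) (.n (nat_lit 274) (nat_lit 2) (.p (nat_lit 275) (nat_lit 3) (.p (nat_lit 276) (nat_lit 3) (.n (nat_lit 277) (nat_lit 1) (.p (nat_lit 278) (nat_lit 1) (.p (nat_lit 279) (nat_lit 1) (.n (nat_lit 283) (nat_lit 2) (.p (nat_lit 285) (nat_lit 1) (.n (nat_lit 286) (nat_lit 1) (.p (nat_lit 287) (nat_lit 1) (.p (nat_lit 288) (nat_lit 1) .z)))))))))))))))))))))))))))))) (.ct dC2c_c292 (nat_lit 1) (nat_lit 7) (.s false (nat_lit 1) (nat_lit 13) (nat_lit 2) (nat_lit 7) (nat_lit 1) true (nat_lit 7) true (nat_lit 12) true (nat_lit 4) true (nat_lit 11) true (nat_lit 6) dC2c_i13)) .leaf) (nat_lit 92167) (nat_lit 770) (.p (nat_lit 318) (nat_lit 2) .z) (.ct dC2c_c277 (nat_lit 1) (nat_lit 4) (.s true (nat_lit 3) (nat_lit 13) (nat_lit 2) (nat_lit 7) (nat_lit 2) true (nat_lit 4) true (nat_lit 8) true (nat_lit 3) true (nat_lit 8) true (nat_lit 4) (.s true (nat_lit 3) (nat_lit 13) (nat_lit 7) (nat_lit 2) (nat_lit 2) true (nat_lit 0) true (nat_lit 8) true (nat_lit 3) true (nat_lit 4) true (nat_lit 8) (.e true (nat_lit 2) (nat_lit 183) (nat_lit 2) (nat_lit 8) (.e true (nat_lit 3) (nat_lit 82) (nat_lit 7) (nat_lit 4) (.e false (nat_lit 3) (nat_lit 35) (nat_lit 20) (nat_lit 0) (.u (nat_lit 2) (.n (nat_lit 13) (nat_lit 1) (.p (nat_lit 50) (nat_lit 1) (.n (nat_lit 74) (nat_lit 1) .z))) .nil))))))) .leaf) (nat_lit 92178) (nat_lit 1348) (.p (nat_lit 397) (nat_lit 3) (.n (nat_lit 398) (nat_lit 1) (.p (nat_lit 399) (nat_lit 3) (.p (nat_lit 400) (nat_lit 2) (.p (nat_lit 402) (nat_lit 3) (.p (nat_lit 403) (nat_lit 1) (.p (nat_lit 404) (nat_lit 1) (.n (nat_lit 405) (nat_lit 2) (.n (nat_lit 406) (nat_lit 2) (.n (nat_lit 407) (nat_lit 2) (.n (nat_lit 408) (nat_lit 1) (.p (nat_lit 410) (nat_lit 2) (.n (nat_lit 411) (nat_lit 2) (.n (nat_lit 412) (nat_lit 1) (.n (nat_lit 413) (nat_lit 1) (.p (nat_lit 414) (nat_lit 2) (.p (nat_lit 415) (nat_lit 1) (.p (nat_lit 416) (nat_lit 1) (.n (nat_lit 418) (nat_lit 1) (.p (nat_lit 420) (nat_lit 1) (.n (nat_lit 421) (nat_lit 2) (.p (nat_lit 427) (nat_lit 2) (.p (nat_lit 428) (nat_lit 2) (.p (nat_lit 431) (nat_lit 3) (.n (nat_lit 432) (nat_lit 2) (.p (nat_lit 435) (nat_lit 3) .z)))))))))))))))))))))))))) (.ct dC2c_c293 (nat_lit 1) (nat_lit 4) (.s false (nat_lit 1) (nat_lit 20) (nat_lit 0) (nat_lit 18) (nat_lit 1) true (nat_lit 13) true (nat_lit 15) true (nat_lit 3) true (nat_lit 16) true (nat_lit 4) (.e false (nat_lit 1) (nat_lit 202) (nat_lit 3) (nat_lit 13) (.e true (nat_lit 1) (nat_lit 203) (nat_lit 3) (nat_lit 13) (.e false (nat_lit 1) (nat_lit 204) (nat_lit 3) (nat_lit 13) (.e true (nat_lit 3) (nat_lit 305) (nat_lit 1) (nat_lit 15) dC2c_i14)))))) (.nd (.nd .leaf (nat_lit 92179) (nat_lit 1338) (.n (nat_lit 398) (nat_lit 2) (.p (nat_lit 400) (nat_lit 1) (.n (nat_lit 401) (nat_lit 3) (.p (nat_lit 402) (nat_lit 3) (.n (nat_lit 403) (nat_lit 2) (.n (nat_lit 404) (nat_lit 1) (.p (nat_lit 406) (nat_lit 3) (.p (nat_lit 407) (nat_lit 1) (.p (nat_lit 408) (nat_lit 1) (.n (nat_lit 409) (nat_lit 2) (.p (nat_lit 410) (nat_lit 3) (.p (nat_lit 411) (nat_lit 2) (.p (nat_lit 412) (nat_lit 2) (.p (nat_lit 413) (nat_lit 2) (.n (nat_lit 414) (nat_lit 2) (.p (nat_lit 416) (nat_lit 2) (.n (nat_lit 418) (nat_lit 2) (.n (nat_lit 420) (nat_lit 3) (.p (nat_lit 421) (nat_lit 3) (.p (nat_lit 427) (nat_lit 3) (.p (nat_lit 428) (nat_lit 3) (.n (nat_lit 431) (nat_lit 2) (.p (nat_lit 432) (nat_lit 2) .z))))))))))))))))))))))) (.ct dC2c_c293 (nat_lit 1) (nat_lit 4) (.s false (nat_lit 1) (nat_lit 13) (nat_lit 7) (nat_lit 7) (nat_lit 1) true (nat_lit 4) true (nat_lit 15) true (nat_lit 7) true (nat_lit 9) true (nat_lit 9) dC2c_i15)) .leaf) (nat_lit 93184) (nat_lit 287) (.p (nat_lit 133) (nat_lit 3) (.n (nat_lit 134) (nat_lit 3) (.n (nat_lit 135) (nat_lit 3) (.n (nat_lit 137) (nat_lit 1) (.p (nat_lit 139) (nat_lit 1) (.n (nat_lit 140) (nat_lit 1) (.n (nat_lit 141) (nat_lit 3) (.p (nat_lit 143) (nat_lit 1) (.p (nat_lit 144) (nat_lit 2) (.n (nat_lit 145) (nat_lit 1) (.n (nat_lit 147) (nat_lit 2) (.p (nat_lit 149) (nat_lit 1) (.p (nat_lit 150) (nat_lit 1) (.p (nat_lit 151) (nat_lit 1) (.n (nat_lit 152) (nat_lit 1) (.p (nat_lit 154) (nat_lit 1) (.p (nat_lit 155) (nat_lit 2) (.n (nat_lit 156) (nat_lit 3) (.p (nat_lit 157) (nat_lit 1) .z))))))))))))))))))) (.ct dC2c_c291 (nat_lit 1) (nat_lit 10) (.s true (nat_lit 1) (nat_lit 14) (nat_lit 2) (nat_lit 0) (nat_lit 2) true (nat_lit 3) true (nat_lit 8) true (nat_lit 0) true (nat_lit 8) true (nat_lit 10) (.e false (nat_lit 1) (nat_lit 24) (nat_lit 7) (nat_lit 3) (.e false (nat_lit 1) (nat_lit 25) (nat_lit 7) (nat_lit 3) (.e false (nat_lit 1) (nat_lit 26) (nat_lit 7) (nat_lit 3) (.e true (nat_lit 2) (nat_lit 27) (nat_lit 7) (nat_lit 3) (.e true (nat_lit 1) (nat_lit 28) (nat_lit 7) (nat_lit 3) (.e false (nat_lit 1) (nat_lit 29) (nat_lit 7) (nat_lit 3) (.e true (nat_lit 1) (nat_lit 70) (nat_lit 2) (nat_lit 8) (.e true (nat_lit 1) (nat_lit 16) (nat_lit 14) (nat_lit 0) (.e true (nat_lit 1) (nat_lit 60) (nat_lit 2) (nat_lit 8) (.e true (nat_lit 1) (nat_lit 61) (nat_lit 2) (nat_lit 8) (.e false (nat_lit 2) (nat_lit 63) (nat_lit 2) (nat_lit 8) (.e false (nat_lit 1) (nat_lit 64) (nat_lit 2) (nat_lit 8) (.e true (nat_lit 1) (nat_lit 65) (nat_lit 2) (nat_lit 8) (.e true (nat_lit 1) (nat_lit 67) (nat_lit 2) (nat_lit 8) (.e false (nat_lit 1) (nat_lit 68) (nat_lit 2) (nat_lit 8) (.e true (nat_lit 2) (nat_lit 71) (nat_lit 2) (nat_lit 8) (.e true (nat_lit 1) (nat_lit 73) (nat_lit 2) (nat_lit 8) (.u (nat_lit 2) (.p (nat_lit 3) (nat_lit 1) (.p (nat_lit 6) (nat_lit 1) (.n (nat_lit 11) (nat_lit 1) (.n (nat_lit 23) (nat_lit 1) .z)))) .nil)))))))))))))))))))) .leaf))) (nat_lit 93185) (nat_lit 313) (.p (nat_lit 158) (nat_lit 1) (.p (nat_lit 159) (nat_lit 1) (.p (nat_lit 160) (nat_lit 2) (.n (nat_lit 161) (nat_lit 1) (.n (nat_lit 162) (nat_lit 3) (.p (nat_lit 163) (nat_lit 2) (.n (nat_lit 164) (nat_lit 1) (.p (nat_lit 165) (nat_lit 2) (.p (nat_lit 167) (nat_lit 1) (.n (nat_lit 168) (nat_lit 1) .z)))))))))) (.ct dC2c_c51 (nat_lit 1) (nat_lit 6) (.s true (nat_lit 1) (nat_lit 14) (nat_lit 2) (nat_lit 2) (nat_lit 1) true (nat_lit 3) true (nat_lit 6) true (nat_lit 0) true (nat_lit 5) true (nat_lit 5) (.e true (nat_lit 1) (nat_lit 39) (nat_lit 6) (nat_lit 3) (.e false (nat_lit 1) (nat_lit 19) (nat_lit 14) (nat_lit 0) (.e true (nat_lit 2) (nat_lit 74) (nat_lit 2) (nat_lit 5) (.e false (nat_lit 3) (nat_lit 76) (nat_lit 2) (nat_lit 5) (.e false (nat_lit 3) (nat_lit 77) (nat_lit 2) (nat_lit 5) (.e true (nat_lit 3) (nat_lit 78) (nat_lit 2) (nat_lit 5) (.e true (nat_lit 3) (nat_lit 79) (nat_lit 2) (nat_lit 5) .nil))))))))) (.nd (.nd (.nd (.nd .leaf (nat_lit 93186) (nat_lit 355) (.p (nat_lit 185) (nat_lit 1) .z) .df .leaf) (nat_lit 93187) (nat_lit 489) (.n (nat_lit 205) (nat_lit 1) (.n (nat_lit 210) (nat_lit 2) (.p (nat_lit 211) (nat_lit 1) (.n (nat_lit 213) (nat_lit 1) (.p (nat_lit 215) (nat_lit 1) (.n (nat_lit 216) (nat_lit 1) (.p (nat_lit 217) (nat_lit 2) (.p (nat_lit 218) (nat_lit 3) (.n (nat_lit 219) (nat_lit 3) (.p (nat_lit 221) (nat_lit 3) (.p (nat_lit 222) (nat_lit 1) (.n (nat_lit 226) (nat_lit 3) (.n (nat_lit 227) (nat_lit 1) (.n (nat_lit 228) (nat_lit 3) (.p (nat_lit 238) (nat_lit 2) (.p (nat_lit 245) (nat_lit 2) (.p (nat_lit 246) (nat_lit 2) (.p (nat_lit 247) (nat_lit 2) (.n (nat_lit 248) (nat_lit 3) (.p (nat_lit 251) (nat_lit 2) .z)))))))))))))))))))) (.ct dC2c_c307 (nat_lit 1) (nat_lit 11) (.s false (nat_lit 1) (nat_lit 14) (nat_lit 2) (nat_lit 3) (nat_lit 2) true (nat_lit 7) true (nat_lit 12) true (nat_lit 3) true (nat_lit 12) true (nat_lit 11) (.e false (nat_lit 1) (nat_lit 49) (nat_lit 7) (nat_lit 7) (.e true (nat_lit 1) (nat_lit 53) (nat_lit 7) (nat_lit 7) (.e true (nat_lit 2) (nat_lit 54) (nat_lit 7) (nat_lit 7) (.e false (nat_lit 1) (nat_lit 55) (nat_lit 7) (nat_lit 7) (.e true (nat_lit 1) (nat_lit 57) (nat_lit 7) (nat_lit 7) (.e false (nat_lit 1) (nat_lit 59) (nat_lit 7) (nat_lit 7) (.e false (nat_lit 1) (nat_lit 106) (nat_lit 2) (nat_lit 12) (.e true (nat_lit 2) (nat_lit 107) (nat_lit 2) (nat_lit 12) (.e true (nat_lit 2) (nat_lit 108) (nat_lit 2) (nat_lit 12) (.e true (nat_lit 1) (nat_lit 110) (nat_lit 2) (nat_lit 12) (.e false (nat_lit 1) (nat_lit 112) (nat_lit 2) (nat_lit 12) (.e true (nat_lit 1) (nat_lit 114) (nat_lit 2) (nat_lit 12) (.e false (nat_lit 1) (nat_lit 116) (nat_lit 2) (nat_lit 12) (.e true (nat_lit 2) (nat_lit 117) (nat_lit 2) (nat_lit 12) (.e false (nat_lit 2) (nat_lit 118) (nat_lit 2) (nat_lit 12) (.e true (nat_lit 2) (nat_lit 120) (nat_lit 2) (nat_lit 12) (.e false (nat_lit 2) (nat_lit 122) (nat_lit 2) (nat_lit 12) (.e false (nat_lit 2) (nat_lit 128) (nat_lit 2) (nat_lit 12) (.e true (nat_lit 1) (nat_lit 129) (nat_lit 2) (nat_lit 12) (.e true (nat_lit 1) (nat_lit 130) (nat_lit 2) (nat_lit 12) (.e true (nat_lit 1) (nat_lit 33) (nat_lit 14) (nat_lit 3) (.e false (nat_lit 2) (nat_lit 111) (nat_lit 2) (nat_lit 12) (.u (nat_lit 2) (.n (nat_lit 1) (nat_lit 2) (.n (nat_lit 2) (nat_lit 2) .z)) .nil))))))))))))))))))))))))) .leaf) (nat_lit 93189) (nat_lit 671) (.p (nat_lit 252) (nat_lit 2) (.n (nat_lit 253) (nat_lit 1) (.n (nat_lit 254) (nat_lit 3) (.n (nat_lit 255) (nat_lit 1) (.p (nat_lit 256) (nat_lit 1) (.p (nat_lit 257) (nat_lit 3) (.n (nat_lit 258) (nat_lit 1) (.n (nat_lit 259) (nat_lit 3) (.p (nat_lit 260) (nat_lit 3) (.p (nat_lit 261) (nat_lit 2) (.n (nat_lit 262) (nat_lit 3) (.p (nat_lit 263) (nat_lit 3) (.p (nat_lit 264) (nat_lit 1) (.n (nat_lit 265) (nat_lit 3) (.n (nat_lit 266) (nat_lit 2) (.n (nat_lit 267) (nat_lit 1) (.n (nat_lit 269) (nat_lit 2) (.n (nat_lit 270) (nat_lit 3) (.n (nat_lit 271) (nat_lit 2) (.p (nat_lit 272) (nat_lit 2) (.n (nat_lit 273) (nat_lit 3) (.n (nat_lit 274) (nat_lit 1) (.p (nat_lit 275) (nat_lit 3) (.n (nat_lit 276) (nat_lit 3) (.n (nat_lit 277) (nat_lit 3) (.p (nat_lit 282) (nat_lit 2) (.n (nat_lit 283) (nat_lit 3) (.p (nat_lit 285) (nat_lit 3) (.n (nat_lit 286) (nat_lit 1) .z))))))))))))))))))))))))))))) (.ct dC2c_c292 (nat_lit 1) (nat_lit 8) (.s false (nat_lit 1) (nat_lit 14) (nat_lit 2) (nat_lit 5) (nat_lit 2) true (nat_lit 6) true (nat_lit 11) true (nat_lit 3) true (nat_lit 11) true (nat_lit 8) (.e true (nat_lit 1) (nat_lit 60) (nat_lit 7) (nat_lit 6) (.e true (nat_lit 1) (nat_lit 61) (nat_lit 7) (nat_lit 6) (.e false (nat_lit 2) (nat_lit 63) (nat_lit 7) (nat_lit 6) dC2c_i16))))) (.nd (.nd .leaf (nat_lit 93190) (nat_lit 732) (.p (nat_lit 289) (nat_lit 3) (.n (nat_lit 290) (nat_lit 2) (.n (nat_lit 291) (nat_lit 1) (.p (nat_lit 294) (nat_lit 1) (.p (nat_lit 295) (nat_lit 1) (.n (nat_lit 297) (nat_lit 1) (.n (nat_lit 298) (nat_lit 2) (.n (nat_lit 299) (nat_lit 1) (.n (nat_lit 300) (nat_lit 2) (.p (nat_lit 301) (nat_lit 2) (.p (nat_lit 303) (nat_lit 2) (.n (nat_lit 304) (nat_lit 1) .z)))))))))))) (.ct dC2c_c52 (nat_lit 1) (nat_lit 5) (.s false (nat_lit 1) (nat_lit 14) (nat_lit 6) (nat_lit 2) (nat_lit 2) true (nat_lit 1) true (nat_lit 7) true (nat_lit 2) true (nat_lit 5) true (nat_lit 7) (.s true (nat_lit 1) (nat_lit 39) (nat_lit 1) (nat_lit 2) (nat_lit 2) true (nat_lit 5) true (nat_lit 7) false (nat_lit 1) true (nat_lit 8) true (nat_lit 7) (.e true (nat_lit 2) (nat_lit 158) (nat_lit 2) (nat_lit 7) (.e true (nat_lit 1) (nat_lit 159) (nat_lit 2) (nat_lit 7) (.e false (nat_lit 3) (nat_lit 160) (nat_lit 2) (nat_lit 7) (.e false (nat_lit 3) (nat_lit 161) (nat_lit 2) (nat_lit 7) (.e true (nat_lit 3) (nat_lit 162) (nat_lit 2) (nat_lit 7) (.e true (nat_lit 3) (nat_lit 163) (nat_lit 2) (nat_lit 7) (.e false (nat_lit 1) (nat_lit 45) (nat_lit 14) (nat_lit 2) (.e true (nat_lit 1) (nat_lit 96) (nat_lit 6) (nat_lit 5) (.e true (nat_lit 2) (nat_lit 164) (nat_lit 2) (nat_lit 7) (.e false (nat_lit 1) (nat_lit 194) (nat_lit 1) (nat_lit 8) (.e false (nat_lit 2) (nat_lit 165) (nat_lit 2) (nat_lit 7) (.e false (nat_lit 1) (nat_lit 167) (nat_lit 2) (nat_lit 7) (.u (nat_lit 2) (.n (nat_lit 0) (nat_lit 1) (.p (nat_lit 3) (nat_lit 1) (.n (nat_lit 4) (nat_lit 1) (.p (nat_lit 9) (nat_lit 1) (.p (nat_lit 14) (nat_lit 1) (.n (nat_lit 15) (nat_lit 1) .z)))))) .nil)))))))))))))))) .leaf) (nat_lit 93191) (nat_lit 823) (.p (nat_lit 334) (nat_lit 1) .z) .df .leaf)) (nat_lit 93195) (nat_lit 1134) (.p (nat_lit 335) (nat_lit 2) (.n (nat_lit 336) (nat_lit 3) (.p (nat_lit 337) (nat_lit 1) (.p (nat_lit 338) (nat_lit 3) (.n (nat_lit 339) (nat_lit 3) (.p (nat_lit 340) (nat_lit 3) (.n (nat_lit 341) (nat_lit 3) (.p (nat_lit 342) (nat_lit 2) (.n (nat_lit 343) (nat_lit 3) (.p (nat_lit 344) (nat_lit 1) (.p (nat_lit 345) (nat_lit 2) (.p (nat_lit 346) (nat_lit 1) (.n (nat_lit 347) (nat_lit 3) (.p (nat_lit 348) (nat_lit 2) (.n (nat_lit 349) (nat_lit 2) (.p (nat_lit 350) (nat_lit 1) (.n (nat_lit 351) (nat_lit 2) (.n (nat_lit 352) (nat_lit 1) (.p (nat_lit 353) (nat_lit 3) (.n (nat_lit 354) (nat_lit 2) (.n (nat_lit 355) (nat_lit 1) (.n (nat_lit 356) (nat_lit 2) (.n (nat_lit 357) (nat_lit 3) (.n (nat_lit 359) (nat_lit 2) (.n (nat_lit 360) (nat_lit 3) (.p (nat_lit 361) (nat_lit 3) (.p (nat_lit 362) (nat_lit 2) (.n (nat_lit 363) (nat_lit 3) (.n (nat_lit 364) (nat_lit 3) (.p (nat_lit 365) (nat_lit 2) (.p (nat_lit 366) (nat_lit 1) (.p (nat_lit 367) (nat_lit 3) (.p (nat_lit 368) (nat_lit 1) (.p (nat_lit 369) (nat_lit 2) (.p (nat_lit 370) (nat_lit 2) (.n (nat_lit 371) (nat_lit 1) (.p (nat_lit 372) (nat_lit 2) (.n (nat_lit 373) (nat_lit 3) (.n (nat_lit 374) (nat_lit 1) (.p (nat_lit 375) (nat_lit 3) (.p (nat_lit 376) (nat_lit 3) (.p (nat_lit 378) (nat_lit 2) (.n (nat_lit 380) (nat_lit 1) (.n (nat_lit 381) (nat_lit 3) (.n (nat_lit 382) (nat_lit 2) (.p (nat_lit 384) (nat_lit 3) (.n (nat_lit 386) (nat_lit 2) (.n (nat_lit 390) (nat_lit 3) (.n (nat_lit 391) (nat_lit 3) (.n (nat_lit 393) (nat_lit 2) .z)))))))))))))))))))))))))))))))))))))))))))))))))) (.ct dC2c_c308 (nat_lit 1) (nat_lit 8) (.s true (nat_lit 1) (nat_lit 39) (nat_lit 3) (nat_lit 2) (nat_lit 2) true (nat_lit 8) true (nat_lit 16) false (nat_lit 0) true (nat_lit 15) true (nat_lit 16) (.e true (nat_lit 2) (nat_lit 205) (nat_lit 2) (nat_lit 16) (.e false (nat_lit 1) (nat_lit 206) (nat_lit 2) (nat_lit 16) (.e false (nat_lit 1) (nat_lit 207) (nat_lit 2) (nat_lit 16) (.e false (nat_lit 1) (nat_lit 209) (nat_lit 2) (nat_lit 16) (.e false (nat_lit 1) (nat_lit 217) (nat_lit 2) (nat_lit 16) (.e true (nat_lit 3) (nat_lit 218) (nat_lit 2) (nat_lit 16) (.e true (nat_lit 2) (nat_lit 219) (nat_lit 2) (nat_lit 16) (.e false (nat_lit 2) (nat_lit 221) (nat_lit 2) (nat_lit 16) (.e false (nat_lit 3) (nat_lit 226) (nat_lit 2) (nat_lit 16) (.e true (nat_lit 2) (nat_lit 227) (nat_lit 2) (nat_lit 16) (.e true (nat_lit 2) (nat_lit 228) (nat_lit 2) (nat_lit 16) (.e false (nat_lit 1) (nat_lit 229) (nat_lit 2) (nat_lit 16) (.e false (nat_lit 1) (nat_lit 39) (nat_lit 33) (nat_lit 0) (.e false (nat_lit 1) (nat_lit 194) (nat_lit 3) (nat_lit 15) (.e true (nat_lit 2) (nat_lit 210) (nat_lit 2) (nat_lit 16) (.e false (nat_lit 2) (nat_lit 238) (nat_lit 2) (nat_lit 16) (.e false (nat_lit 2) (nat_lit 245) (nat_lit 2) (nat_lit 16) (.e false (nat_lit 2) (nat_lit 246) (nat_lit 2) (nat_lit 16) (.e false (nat_lit 2) (nat_lit 247) (nat_lit 2) (nat_lit 16) (.e true (nat_lit 3) (nat_lit 248) (nat_lit 2) (nat_lit 16) (.e false (nat_lit 2) (nat_lit 251) (nat_lit 2) (nat_lit 16) (.u (nat_lit 2) (.n (nat_lit 0) (nat_lit 3) (.p (nat_lit 2) (nat_lit 2) (.p (nat_lit 3) (nat_lit 1) (.n (nat_lit 4) (nat_lit 1) (.n (nat_lit 5) (nat_lit 4) (.n (nat_lit 6) (nat_lit 2) (.p (nat_lit 7) (nat_lit 3) (.n (nat_lit 9) (nat_lit 1) (.p (nat_lit 10) (nat_lit 2) (.p (nat_lit 12) (nat_lit 1) (.n (nat_lit 14) (nat_lit 3) (.n (nat_lit 15) (nat_lit 1) (.p (nat_lit 16) (nat_lit 2) (.n (nat_lit 17) (nat_lit 4) (.n (nat_lit 18) (nat_lit 1) (.n (nat_lit 20) (nat_lit 1) (.n (nat_lit 21) (nat_lit 1) (.p (nat_lit 22) (nat_lit 2) (.p (nat_lit 23) (nat_lit 2) (.p (nat_lit 24) (nat_lit 3) (.n (nat_lit 25) (nat_lit 3) (.n (nat_lit 27) (nat_lit 2) (.p (nat_lit 28) (nat_lit 4) (.p (nat_lit 29) (nat_lit 3) (.n (nat_lit 31) (nat_lit 4) (.n (nat_lit 32) (nat_lit 2) (.p (nat_lit 33) (nat_lit 3) (.n (nat_lit 34) (nat_lit 2) (.p (nat_lit 35) (nat_lit 2) (.p (nat_lit 36) (nat_lit 2) (.p (nat_lit 37) (nat_lit 1) (.n (nat_lit 38) (nat_lit 3) (.n (nat_lit 39) (nat_lit 1) (.n (nat_lit 40) (nat_lit 2) (.n (nat_lit 41) (nat_lit 1) (.p (nat_lit 46) (nat_lit 1) (.n (nat_lit 48) (nat_lit 1) (.n (nat_lit 49) (nat_lit 1) (.p (nat_lit 55) (nat_lit 1) (.p (nat_lit 56) (nat_lit 1) (.p (nat_lit 315) (nat_lit 1) (.n (nat_lit 323) (nat_lit 1) .z)))))))))))))))))))))))))))))))))))))))))) .nil)))))))))))))))))))))))) (.nd (.nd (.nd .leaf (nat_lit 93196) (nat_lit 1091) (.p (nat_lit 335) (nat_lit 2) (.n (nat_lit 336) (nat_lit 3) (.p (nat_lit 337) (nat_lit 1) (.n (nat_lit 338) (nat_lit 1) (.n (nat_lit 339) (nat_lit 2) (.p (nat_lit 340) (nat_lit 3) (.n (nat_lit 341) (nat_lit 2) (.n (nat_lit 342) (nat_lit 3) (.p (nat_lit 343) (nat_lit 2) (.p (nat_lit 344) (nat_lit 2) (.n (nat_lit 345) (nat_lit 3) (.p (nat_lit 346) (nat_lit 3) (.p (nat_lit 347) (nat_lit 2) (.p (nat_lit 349) (nat_lit 2) (.p (nat_lit 350) (nat_lit 1) (.n (nat_lit 351) (nat_lit 3) (.p (nat_lit 352) (nat_lit 3) (.n (nat_lit 353) (nat_lit 3) (.n (nat_lit 354) (nat_lit 1) (.n (nat_lit 355) (nat_lit 1) (.n (nat_lit 356) (nat_lit 3) (.p (nat_lit 357) (nat_lit 3) (.n (nat_lit 358) (nat_lit 2) (.n (nat_lit 359) (nat_lit 3) (.n (nat_lit 360) (nat_lit 3) (.n (nat_lit 361) (nat_lit 3) (.n (nat_lit 362) (nat_lit 3) (.n (nat_lit 363) (nat_lit 1) (.n (nat_lit 364) (nat_lit 1) (.n (nat_lit 366) (nat_lit 1) (.n (nat_lit 367) (nat_lit 3) (.p (nat_lit 368) (nat_lit 2) (.p (nat_lit 369) (nat_lit 2) (.p (nat_lit 370) (nat_lit 3) (.n (nat_lit 371) (nat_lit 1) (.n (nat_lit 372) (nat_lit 3) (.n (nat_lit 373) (nat_lit 2) (.p (nat_lit 374) (nat_lit 2) (.n (nat_lit 376) (nat_lit 2) (.p (nat_lit 380) (nat_lit 3) (.p (nat_lit 381) (nat_lit 2) (.p (nat_lit 382) (nat_lit 1) (.p (nat_lit 383) (nat_lit 3) (.n (nat_lit 385) (nat_lit 2) (.p (nat_lit 388) (nat_lit 2) (.p (nat_lit 396) (nat_lit 2) .z)))))))))))))))))))))))))))))))))))))))))))))) (.ct dC2c_c308 (nat_lit 1) (nat_lit 8) (.s true (nat_lit 3) (nat_lit 20) (nat_lit 1) (nat_lit 12) (nat_lit 1) true (nat_lit 14) true (nat_lit 17) true (nat_lit 4) true (nat_lit 17) true (nat_lit 8) (.e false (nat_lit 3) (nat_lit 178) (nat_lit 4) (nat_lit 14) (.e true (nat_lit 3) (nat_lit 182) (nat_lit 4) (nat_lit 14) (.e true (nat_lit 3) (nat_lit 253) (nat_lit 1) (nat_lit 17) (.e true (nat_lit 3) (nat_lit 254) (nat_lit 1) (nat_lit 17) (.e false (nat_lit 1) (nat_lit 255) (nat_lit 1) (nat_lit 17) (.e false (nat_lit 3) (nat_lit 256) (nat_lit 1) (nat_lit 17) (.e true (nat_lit 2) (nat_lit 257) (nat_lit 1) (nat_lit 17) dC2c_i17))))))))) .leaf) (nat_lit 93197) (nat_lit 1142) (.n (nat_lit 335) (nat_lit 2) (.p (nat_lit 336) (nat_lit 2) (.n (nat_lit 337) (nat_lit 3) (.n (nat_lit 338) (nat_lit 2) (.p (nat_lit 339) (nat_lit 1) (.n (nat_lit 340) (nat_lit 2) (.p (nat_lit 342) (nat_lit 1) (.n (nat_lit 343) (nat_lit 2) (.p (nat_lit 344) (nat_lit 2) (.n (nat_lit 345) (nat_lit 2) (.p (nat_lit 346) (nat_lit 3) (.p (nat_lit 348) (nat_lit 2) (.p (nat_lit 349) (nat_lit 1) (.n (nat_lit 350) (nat_lit 1) (.n (nat_lit 351) (nat_lit 3) (.p (nat_lit 352) (nat_lit 1) (.p (nat_lit 353) (nat_lit 3) (.n (nat_lit 354) (nat_lit 2) (.n (nat_lit 355) (nat_lit 2) (.p (nat_lit 356) (nat_lit 3) (.n (nat_lit 357) (nat_lit 1) (.n (nat_lit 360) (nat_lit 3) (.p (nat_lit 362) (nat_lit 2) (.p (nat_lit 364) (nat_lit 2) (.p (nat_lit 365) (nat_lit 2) (.n (nat_lit 367) (nat_lit 3) (.n (nat_lit 368) (nat_lit 2) (.p (nat_lit 369) (nat_lit 3) (.p (nat_lit 370) (nat_lit 3) (.n (nat_lit 371) (nat_lit 1) (.p (nat_lit 372) (nat_lit 1) (.p (nat_lit 374) (nat_lit 3) (.p (nat_lit 375) (nat_lit 3) (.p (nat_lit 376) (nat_lit 1) (.p (nat_lit 378) (nat_lit 2) (.p (nat_lit 380) (nat_lit 3) (.p (nat_lit 381) (nat_lit 2) (.n (nat_lit 382) (nat_lit 1) (.p (nat_lit 383) (nat_lit 3) (.p (nat_lit 384) (nat_lit 3) (.n (nat_lit 385) (nat_lit 2) (.n (nat_lit 386) (nat_lit 2) (.p (nat_lit 388) (nat_lit 2) (.n (nat_lit 390) (nat_lit 3) (.n (nat_lit 391) (nat_lit 3) (.n (nat_lit 393) (nat_lit 2) (.p (nat_lit 396) (nat_lit 2) .z))))))))))))))))))))))))))))))))))))))))))))))) (.ct dC2c_c308 (nat_lit 1) (nat_lit 8) (.s true (nat_lit 3) (nat_lit 20) (nat_lit 1) (nat_lit 13) (nat_lit 1) true (nat_lit 14) true (nat_lit 17) true (nat_lit 4) true (nat_lit 17) true (nat_lit 8) (.e false (nat_lit 3) (nat_lit 179) (nat_lit 4) (nat_lit 14) (.e true (nat_lit 3) (nat_lit 183) (nat_lit 4) (nat_lit 14) (.e true (nat_lit 1) (nat_lit 252) (nat_lit 1) (nat_lit 17) (.e false (nat_lit 1) (nat_lit 254) (nat_lit 1) (nat_lit 17) (.e false (nat_lit 1) (nat_lit 256) (nat_lit 1) (nat_lit 17) (.e false (nat_lit 1) (nat_lit 257) (nat_lit 1) (nat_lit 17) (.e true (nat_lit 1) (nat_lit 258) (nat_lit 1) (nat_lit 17) (.e true (nat_lit 3) (nat_lit 259) (nat_lit 1) (nat_lit 17) (.e false (nat_lit 3) (nat_lit 260) (nat_lit 1) (nat_lit 17) (.e false (nat_lit 1) (nat_lit 261) (nat_lit 1) (nat_lit 17) (.e true (nat_lit 3) (nat_lit 262) (nat_lit 1) (nat_lit 17) (.e false (nat_lit 2) (nat_lit 264) (nat_lit 1) (nat_lit 17) (.e false (nat_lit 3) (nat_lit 267) (nat_lit 1) (nat_lit 17) dC2c_i18))))))))))))))) .leaf) (nat_lit 93200) (nat_lit 1334) (.n (nat_lit 398) (nat_lit 3) (.p (nat_lit 399) (nat_lit 3) (.p (nat_lit 400) (nat_lit 1) (.p (nat_lit 401) (nat_lit 3) (.p (nat_lit 402) (nat_lit 1) (.n (nat_lit 403) (nat_lit 1) (.n (nat_lit 405) (nat_lit 2) (.n (nat_lit 406) (nat_lit 2) (.p (nat_lit 407) (nat_lit 2) (.p (nat_lit 408) (nat_lit 1) (.p (nat_lit 409) (nat_lit 1) (.n (nat_lit 410) (nat_lit 1) (.n (nat_lit 411) (nat_lit 3) (.p (nat_lit 412) (nat_lit 2) (.p (nat_lit 413) (nat_lit 2) (.n (nat_lit 414) (nat_lit 2) (.n (nat_lit 415) (nat_lit 2) (.p (nat_lit 416) (nat_lit 3) (.n (nat_lit 420) (nat_lit 3) (.n (nat_lit 421) (nat_lit 2) (.p (nat_lit 430) (nat_lit 2) (.p (nat_lit 431) (nat_lit 1) (.n (nat_lit 432) (nat_lit 1) (.n (nat_lit 435) (nat_lit 3) .z)))))))))))))))))))))))) (.ct dC2c_c293 (nat_lit 1) (nat_lit 5) (.s true (nat_lit 1) (nat_lit 91) (nat_lit 0) (nat_lit 2) (nat_lit 2) true (nat_lit 11) true (nat_lit 14) false (nat_lit 5) true (nat_lit 16) true (nat_lit 14) (.e true (nat_lit 1) (nat_lit 185) (nat_lit 5) (nat_lit 11) (.e true (nat_lit 1) (nat_lit 253) (nat_lit 2) (nat_lit 14) (.e true (nat_lit 2) (nat_lit 254) (nat_lit 2) (nat_lit 14) (.e false (nat_lit 3) (nat_lit 255) (nat_lit 2) (nat_lit 14) (.e true (nat_lit 2) (nat_lit 257) (nat_lit 2) (nat_lit 14) (.e false (nat_lit 2) (nat_lit 259) (nat_lit 2) (nat_lit 14) dC2c_i19)))))))) (.nd .leaf (nat_lit 93201) (nat_lit 1332) (.n (nat_lit 398) (nat_lit 1) (.p (nat_lit 399) (nat_lit 2) (.n (nat_lit 400) (nat_lit 3) (.p (nat_lit 401) (nat_lit 1) (.n (nat_lit 402) (nat_lit 3) (.n (nat_lit 403) (nat_lit 3) (.n (nat_lit 404) (nat_lit 1) (.n (nat_lit 405) (nat_lit 2) (.n (nat_lit 407) (nat_lit 1) (.p (nat_lit 408) (nat_lit 1) (.p (nat_lit 409) (nat_lit 2) (.n (nat_lit 410) (nat_lit 1) (.p (nat_lit 411) (nat_lit 1) (.n (nat_lit 412) (nat_lit 1) (.n (nat_lit 413) (nat_lit 1) (.n (nat_lit 414) (nat_lit 3) (.n (nat_lit 415) (nat_lit 2) (.n (nat_lit 416) (nat_lit 2) (.p (nat_lit 418) (nat_lit 1) (.n (nat_lit 421) (nat_lit 1) (.n (nat_lit 430) (nat_lit 3) (.n (nat_lit 431) (nat_lit 1) (.n (nat_lit 432) (nat_lit 1) (.p (nat_lit 435) (nat_lit 2) .z)))))))))))))))))))))))) (.ct dC2c_c293 (nat_lit 1) (nat_lit 5) (.s true (nat_lit 1) (nat_lit 39) (nat_lit 0) (nat_lit 2) (nat_lit 7) true (nat_lit 5) true (nat_lit 9) true (nat_lit 0) true (nat_lit 16) true (nat_lit 14) (.e true (nat_lit 1) (nat_lit 142) (nat_lit 7) (nat_lit 9) (.e false (nat_lit 1) (nat_lit 43) (nat_lit 39) (nat_lit 0) (.e false (nat_lit 1) (nat_lit 44) (nat_lit 39) (nat_lit 0) (.e false (nat_lit 1) (nat_lit 329) (nat_lit 0) (nat_lit 16) (.e true (nat_lit 1) (nat_lit 334) (nat_lit 0) (nat_lit 16) (.e false (nat_lit 2) (nat_lit 252) (nat_lit 2) (nat_lit 14) dC2c_i20)))))))) .leaf))))) (nat_lit 93202) (nat_lit 1440) (.n (nat_lit 436) (nat_lit 1) (.p (nat_lit 437) (nat_lit 3) (.n (nat_lit 438) (nat_lit 1) (.p (nat_lit 439) (nat_lit 3) (.n (nat_lit 440) (nat_lit 1) (.n (nat_lit 441) (nat_lit 2) (.n (nat_lit 442) (nat_lit 2) (.n (nat_lit 443) (nat_lit 3) (.n (nat_lit 444) (nat_lit 2) (.p (nat_lit 447) (nat_lit 2) (.n (nat_lit 448) (nat_lit 1) (.n (nat_lit 450) (nat_lit 2) .z)))))))))))) (.ct dC2c_c53 (nat_lit 1) (nat_lit 3) (.s false (nat_lit 1) (nat_lit 91) (nat_lit 1) (nat_lit 2) (nat_lit 2) true (nat_lit 7) true (nat_lit 9) false (nat_lit 3) true (nat_lit 10) true (nat_lit 9) (.e false (nat_lit 1) (nat_lit 185) (nat_lit 6) (nat_lit 7) (.e true (nat_lit 2) (nat_lit 289) (nat_lit 2) (nat_lit 9) (.e false (nat_lit 3) (nat_lit 291) (nat_lit 2) (nat_lit 9) (.e false (nat_lit 3) (nat_lit 292) (nat_lit 2) (nat_lit 9) (.e true (nat_lit 1) (nat_lit 293) (nat_lit 2) (nat_lit 9) (.e true (nat_lit 3) (nat_lit 294) (nat_lit 2) (nat_lit 9) (.e false (nat_lit 3) (nat_lit 295) (nat_lit 2) (nat_lit 9) (.e false (nat_lit 2) (nat_lit 296) (nat_lit 2) (nat_lit 9) (.e false (nat_lit 2) (nat_lit 298) (nat_lit 2) (nat_lit 9) (.e true (nat_lit 1) (nat_lit 297) (nat_lit 2) (nat_lit 9) (.e false (nat_lit 1) (nat_lit 303) (nat_lit 2) (nat_lit 9) (.e true (nat_lit 1) (nat_lit 304) (nat_lit 2) (nat_lit 9) (.e true (nat_lit 1) (nat_lit 334) (nat_lit 1) (nat_lit 10) (.e true (nat_lit 1) (nat_lit 299) (nat_lit 2) (nat_lit 9) (.u (nat_lit 2) (.n (nat_lit 0) (nat_lit 1) (.n (nat_lit 1) (nat_lit 1) (.p (nat_lit 2) (nat_lit 1) (.p (nat_lit 5) (nat_lit 1) (.p (nat_lit 8) (nat_lit 1) (.p (nat_lit 14) (nat_lit 1) (.n (nat_lit 83) (nat_lit 1) (.p (nat_lit 85) (nat_lit 1) (.n (nat_lit 86) (nat_lit 1) .z))))))))) .nil))))))))))))))))) (.nd (.nd (.nd (.nd (.nd (.nd .leaf (nat_lit 93203) (nat_lit 1438) (.n (nat_lit 436) (nat_lit 3) (.n (nat_lit 437) (nat_lit 1) (.n (nat_lit 438) (nat_lit 2) (.p (nat_lit 439) (nat_lit 2) (.n (nat_lit 440) (nat_lit 3) (.p (nat_lit 441) (nat_lit 3) (.p (nat_lit 442) (nat_lit 2) (.p (nat_lit 443) (nat_lit 1) (.n (nat_lit 444) (nat_lit 3) (.p (nat_lit 447) (nat_lit 2) (.p (nat_lit 450) (nat_lit 3) .z))))))))))) (.ct dC2c_c53 (nat_lit 1) (nat_lit 3) (.s false (nat_lit 1) (nat_lit 19) (nat_lit 14) (nat_lit 2) (nat_lit 2) true (nat_lit 0) true (nat_lit 9) true (nat_lit 3) true (nat_lit 4) true (nat_lit 9) (.e false (nat_lit 1) (nat_lit 46) (nat_lit 39) (nat_lit 0) (.e true (nat_lit 1) (nat_lit 289) (nat_lit 2) (nat_lit 9) (.e true (nat_lit 2) (nat_lit 291) (nat_lit 2) (nat_lit 9) (.e true (nat_lit 1) (nat_lit 292) (nat_lit 2) (nat_lit 9) (.e false (nat_lit 2) (nat_lit 293) (nat_lit 2) (nat_lit 9) (.e false (nat_lit 2) (nat_lit 294) (nat_lit 2) (nat_lit 9) (.e false (nat_lit 3) (nat_lit 295) (nat_lit 2) (nat_lit 9) (.e true (nat_lit 3) (nat_lit 296) (nat_lit 2) (nat_lit 9) (.e false (nat_lit 2) (nat_lit 298) (nat_lit 2) (nat_lit 9) (.e true (nat_lit 2) (nat_lit 102) (nat_lit 14) (nat_lit 4) (.e false (nat_lit 2) (nat_lit 103) (nat_lit 14) (nat_lit 4) (.e false (nat_lit 2) (nat_lit 290) (nat_lit 2) (nat_lit 9) (.e true (nat_lit 2) (nat_lit 300) (nat_lit 2) (nat_lit 9) (.e false (nat_lit 2) (nat_lit 301) (nat_lit 2) (nat_lit 9) (.e true (nat_lit 1) (nat_lit 303) (nat_lit 2) (nat_lit 9) (.u (nat_lit 2) (.p (nat_lit 0) (nat_lit 1) (.p (nat_lit 1) (nat_lit 2) (.n (nat_lit 2) (nat_lit 1) (.n (nat_lit 3) (nat_lit 1) (.p (nat_lit 5) (nat_lit 1) (.n (nat_lit 6) (nat_lit 1) (.n (nat_lit 7) (nat_lit 2) (.p (nat_lit 8) (nat_lit 1) (.n (nat_lit 9) (nat_lit 2) (.n (nat_lit 11) (nat_lit 1) (.n (nat_lit 86) (nat_lit 1) (.p (nat_lit 87) (nat_lit 1) .z)))))))))))) .nil)))))))))))))))))) .leaf) (nat_lit 94208) (nat_lit 245) (.p (nat_lit 151) (nat_lit 1) .z) .df .leaf) (nat_lit 94209) (nat_lit 296) (.p (nat_lit 164) (nat_lit 1) .z) .df (.nd (.nd .leaf (nat_lit 94210) (nat_lit 356) (.p (nat_lit 186) (nat_lit 1) .z) .df .leaf) (nat_lit 94211) (nat_lit 470) (.p (nat_lit 205) (nat_lit 3) (.n (nat_lit 206) (nat_lit 3) (.p (nat_lit 207) (nat_lit 1) (.p (nat_lit 209) (nat_lit 3) (.p (nat_lit 211) (nat_lit 3) (.p (nat_lit 213) (nat_lit 3) (.p (nat_lit 214) (nat_lit 1) (.n (nat_lit 215) (nat_lit 3) (.p (nat_lit 216) (nat_lit 1) (.p (nat_lit 217) (nat_lit 3) (.p (nat_lit 218) (nat_lit 2) (.p (nat_lit 219) (nat_lit 2) (.n (nat_lit 220) (nat_lit 1) (.n (nat_lit 221) (nat_lit 1) (.p (nat_lit 222) (nat_lit 2) (.n (nat_lit 226) (nat_lit 1) (.n (nat_lit 227) (nat_lit 3) (.p (nat_lit 228) (nat_lit 1) (.p (nat_lit 229) (nat_lit 3) (.p (nat_lit 230) (nat_lit 3) (.p (nat_lit 231) (nat_lit 2) (.n (nat_lit 238) (nat_lit 1) (.n (nat_lit 242) (nat_lit 1) (.p (nat_lit 245) (nat_lit 3) (.n (nat_lit 246) (nat_lit 2) (.n (nat_lit 247) (nat_lit 2) (.p (nat_lit 248) (nat_lit 3) (.n (nat_lit 251) (nat_lit 2) .z)))))))))))))))))))))))))))) (.ct dC2c_c307 (nat_lit 1) (nat_lit 11) (.s true (nat_lit 1) (nat_lit 11) (nat_lit 1) (nat_lit 2) (nat_lit 6) true (nat_lit 3) true (nat_lit 8) true (nat_lit 4) true (nat_lit 13) true (nat_lit 12) (.s false (nat_lit 1) (nat_lit 15) (nat_lit 2) (nat_lit 3) (nat_lit 2) true (nat_lit 7) true (nat_lit 12) true (nat_lit 3) true (nat_lit 12) true (nat_lit 11) (.s false (nat_lit 1) (nat_lit 26) (nat_lit 1) (nat_lit 2) (nat_lit 2) true (nat_lit 8) true (nat_lit 12) false (nat_lit 1) true (nat_lit 13) true (nat_lit 12) (.s true (nat_lit 1) (nat_lit 26) (nat_lit 2) (nat_lit 1) (nat_lit 2) true (nat_lit 7) true (nat_lit 12) false (nat_lit 1) true (nat_lit 12) true (nat_lit 13) (.e false (nat_lit 1) (nat_lit 138) (nat_lit 1) (nat_lit 13) (.e true (nat_lit 1) (nat_lit 145) (nat_lit 1) (nat_lit 13) dC2c_i21))))))) .leaf)) (nat_lit 94213) (nat_lit 653) (.n (nat_lit 252) (nat_lit 1) (.n (nat_lit 253) (nat_lit 1) (.n (nat_lit 254) (nat_lit 3) (.n (nat_lit 255) (nat_lit 1) (.p (nat_lit 256) (nat_lit 3) (.p (nat_lit 257) (nat_lit 3) (.p (nat_lit 258) (nat_lit 2) (.n (nat_lit 261) (nat_lit 3) (.p (nat_lit 262) (nat_lit 2) (.n (nat_lit 263) (nat_lit 1) (.p (nat_lit 264) (nat_lit 3) (.n (nat_lit 265) (nat_lit 3) (.p (nat_lit 266) (nat_lit 3) (.n (nat_lit 270) (nat_lit 3) (.p (nat_lit 271) (nat_lit 3) (.p (nat_lit 273) (nat_lit 2) (.n (nat_lit 274) (nat_lit 3) (.p (nat_lit 275) (nat_lit 1) (.p (nat_lit 276) (nat_lit 3) (.n (nat_lit 277) (nat_lit 2) (.p (nat_lit 279) (nat_lit 1) (.n (nat_lit 282) (nat_lit 1) (.n (nat_lit 283) (nat_lit 3) (.p (nat_lit 285) (nat_lit 3) (.n (nat_lit 288) (nat_lit 1) .z))))))))))))))))))))))))) (.ct dC2c_c292 (nat_lit 1) (nat_lit 8) (.s false (nat_lit 1) (nat_lit 15) (nat_lit 2) (nat_lit 5) (nat_lit 2) true (nat_lit 6) true (nat_lit 11) true (nat_lit 3) true (nat_lit 11) true (nat_lit 8) (.e true (nat_lit 1) (nat_lit 64) (nat_lit 7) (nat_lit 6) (.e true (nat_lit 1) (nat_lit 69) (nat_lit 7) (nat_lit 6) (.e false (nat_lit 1) (nat_lit 73) (nat_lit 7) (nat_lit 6) (.e false (nat_lit 1) (nat_lit 156) (nat_lit 2) (nat_lit 11) (.e true (nat_lit 1) (nat_lit 42) (nat_lit 15) (nat_lit 3) (.e false (nat_lit 1) (nat_lit 132) (nat_lit 2) (nat_lit 11) (.e false (nat_lit 1) (nat_lit 133) (nat_lit 2) (nat_lit 11) (.e true (nat_lit 1) (nat_lit 134) (nat_lit 2) (nat_lit 11) (.e true (nat_lit 1) (nat_lit 135) (nat_lit 2) (nat_lit 11) (.e true (nat_lit 1) (nat_lit 136) (nat_lit 2) (nat_lit 11) (.e false (nat_lit 1) (nat_lit 137) (nat_lit 2) (nat_lit 11) (.e false (nat_lit 1) (nat_lit 138) (nat_lit 2) (nat_lit 11) (.e true (nat_lit 1) (nat_lit 141) (nat_lit 2) (nat_lit 11) (.e true (nat_lit 1) (nat_lit 143) (nat_lit 2) (nat_lit 11) (.e false (nat_lit 2) (nat_lit 145) (nat_lit 2) (nat_lit 11) (.e false (nat_lit 1) (nat_lit 149) (nat_lit 2) (nat_lit 11) (.e true (nat_lit 1) (nat_lit 151) (nat_lit 2) (nat_lit 11) (.e true (nat_lit 1) (nat_lit 152) (nat_lit 2) (nat_lit 11) (.e true (nat_lit 1) (nat_lit 153) (nat_lit 2) (nat_lit 11) (.e true (nat_lit 1) (nat_lit 154) (nat_lit 2) (nat_lit 11) (.e false (nat_lit 1) (nat_lit 155) (nat_lit 2) (nat_lit 11) (.e false (nat_lit 1) (nat_lit 157) (nat_lit 2) (nat_lit 11) (.u (nat_lit 2) (.n (nat_lit 2) (nat_lit 1) (.n (nat_lit 5) (nat_lit 1) (.p (nat_lit 7) (nat_lit 1) (.n (nat_lit 8) (nat_lit 1) (.n (nat_lit 11) (nat_lit 1) (.p (nat_lit 13) (nat_lit 1) (.n (nat_lit 14) (nat_lit 1) (.n (nat_lit 17) (nat_lit 1) (.n (nat_lit 24) (nat_lit 1) (.n (nat_lit 33) (nat_lit 1) .z)))))))))) .nil))))))))))))))))))))))))) (.nd (.nd (.nd .leaf (nat_lit 94214) (nat_lit 738) (.n (nat_lit 289) (nat_lit 2) (.n (nat_lit 290) (nat_lit 1) (.p (nat_lit 291) (nat_lit 3) (.n (nat_lit 292) (nat_lit 3) (.p (nat_lit 293) (nat_lit 1) (.p (nat_lit 295) (nat_lit 2) (.p (nat_lit 297) (nat_lit 2) (.n (nat_lit 299) (nat_lit 1) (.p (nat_lit 301) (nat_lit 1) (.n (nat_lit 303) (nat_lit 2) (.p (nat_lit 304) (nat_lit 3) .z))))))))))) (.ct dC2c_c52 (nat_lit 1) (nat_lit 5) (.s true (nat_lit 1) (nat_lit 40) (nat_lit 2) (nat_lit 2) (nat_lit 1) true (nat_lit 5) true (nat_lit 8) false (nat_lit 1) true (nat_lit 7) true (nat_lit 7) (.e true (nat_lit 1) (nat_lit 186) (nat_lit 1) (nat_lit 8) (.e false (nat_lit 1) (nat_lit 40) (nat_lit 19) (nat_lit 1) (.e false (nat_lit 1) (nat_lit 158) (nat_lit 2) (nat_lit 7) (.e false (nat_lit 1) (nat_lit 159) (nat_lit 2) (nat_lit 7) (.e false (nat_lit 2) (nat_lit 160) (nat_lit 2) (nat_lit 7) (.e true (nat_lit 2) (nat_lit 161) (nat_lit 2) (nat_lit 7) (.e true (nat_lit 1) (nat_lit 162) (nat_lit 2) (nat_lit 7) (.e false (nat_lit 1) (nat_lit 163) (nat_lit 2) (nat_lit 7) (.e true (nat_lit 1) (nat_lit 164) (nat_lit 2) (nat_lit 7) (.e false (nat_lit 1) (nat_lit 165) (nat_lit 2) (nat_lit 7) (.e true (nat_lit 1) (nat_lit 166) (nat_lit 2) (nat_lit 7) (.e false (nat_lit 1) (nat_lit 168) (nat_lit 2) (nat_lit 7) (.u (nat_lit 2) (.p (nat_lit 0) (nat_lit 1) (.p (nat_lit 3) (nat_lit 1) (.n (nat_lit 4) (nat_lit 1) .z))) .nil))))))))))))))) .leaf) (nat_lit 94215) (nat_lit 849) (.n (nat_lit 324) (nat_lit 2) (.n (nat_lit 325) (nat_lit 2) (.n (nat_lit 326) (nat_lit 3) (.p (nat_lit 327) (nat_lit 3) (.n (nat_lit 328) (nat_lit 3) (.n (nat_lit 330) (nat_lit 1) (.p (nat_lit 333) (nat_lit 1) (.p (nat_lit 334) (nat_lit 1) .z)))))))) (.ct dC2c_c37 (nat_lit 1) (nat_lit 3) (.s false (nat_lit 3) (nat_lit 7) (nat_lit 4) (nat_lit 2) (nat_lit 7) false (nat_lit 0) true (nat_lit 3) true (nat_lit 3) true (nat_lit 5) true (nat_lit 6) (.e false (nat_lit 1) (nat_lit 40) (nat_lit 20) (nat_lit 0) (.e true (nat_lit 1) (nat_lit 41) (nat_lit 20) (nat_lit 0) (.e false (nat_lit 1) (nat_lit 93) (nat_lit 7) (nat_lit 3) (.e false (nat_lit 3) (nat_lit 96) (nat_lit 7) (nat_lit 3) (.u (nat_lit 2) (.p (nat_lit 5) (nat_lit 1) (.p (nat_lit 6) (nat_lit 1) (.p (nat_lit 7) (nat_lit 1) (.n (nat_lit 12) (nat_lit 1) (.p (nat_lit 13) (nat_lit 1) (.p (nat_lit 23) (nat_lit 1) (.n (nat_lit 24) (nat_lit 1) .z))))))) .nil))))))) .leaf) (nat_lit 94219) (nat_lit 1137) (.n (nat_lit 335) (nat_lit 3) (.p (nat_lit 336) (nat_lit 2) (.n (nat_lit 337) (nat_lit 3) (.p (nat_lit 338) (nat_lit 1) (.p (nat_lit 339) (nat_lit 3) (.n (nat_lit 340) (nat_lit 2) (.p (nat_lit 341) (nat_lit 2) (.p (nat_lit 342) (nat_lit 3) (.n (nat_lit 343) (nat_lit 2) (.n (nat_lit 344) (nat_lit 1) (.n (nat_lit 345) (nat_lit 2) (.p (nat_lit 346) (nat_lit 1) (.n (nat_lit 347) (nat_lit 2) (.n (nat_lit 348) (nat_lit 1) (.n (nat_lit 349) (nat_lit 1) (.n (nat_lit 350) (nat_lit 2) (.p (nat_lit 351) (nat_lit 3) (.n (nat_lit 352) (nat_lit 2) (.n (nat_lit 353) (nat_lit 2) (.n (nat_lit 354) (nat_lit 2) (.n (nat_lit 355) (nat_lit 1) (.n (nat_lit 357) (nat_lit 1) (.n (nat_lit 359) (nat_lit 1) (.p (nat_lit 360) (nat_lit 3) (.p (nat_lit 361) (nat_lit 3) (.n (nat_lit 363) (nat_lit 3) (.n (nat_lit 365) (nat_lit 1) (.p (nat_lit 366) (nat_lit 2) (.p (nat_lit 367) (nat_lit 1) (.p (nat_lit 368) (nat_lit 1) (.n (nat_lit 369) (nat_lit 2) (.p (nat_lit 370) (nat_lit 2) (.n (nat_lit 371) (nat_lit 1) (.p (nat_lit 372) (nat_lit 2) (.n (nat_lit 374) (nat_lit 1) (.p (nat_lit 375) (nat_lit 2) (.p (nat_lit 376) (nat_lit 2) (.n (nat_lit 378) (nat_lit 1) (.n (nat_lit 380) (nat_lit 1) (.n (nat_lit 381) (nat_lit 3) (.p (nat_lit 382) (nat_lit 3) (.n (nat_lit 383) (nat_lit 1) (.p (nat_lit 384) (nat_lit 2) (.p (nat_lit 386) (nat_lit 1) (.n (nat_lit 390) (nat_lit 2) (.n (nat_lit 391) (nat_lit 2) (.p (nat_lit 393) (nat_lit 1) .z))))))))))))))))))))))))))))))))))))))))))))))) (.ct dC2c_c308 (nat_lit 1) (nat_lit 8) (.s false (nat_lit 3) (nat_lit 20) (nat_lit 11) (nat_lit 1) (nat_lit 1) true (nat_lit 2) true (nat_lit 17) true (nat_lit 4) true (nat_lit 8) true (nat_lit 17) (.e true (nat_lit 3) (nat_lit 47) (nat_lit 26) (nat_lit 2) (.e false (nat_lit 2) (nat_lit 254) (nat_lit 1) (nat_lit 17) (.e false (nat_lit 1) (nat_lit 265) (nat_lit 1) (nat_lit 17) (.e true (nat_lit 2) (nat_lit 266) (nat_lit 1) (nat_lit 17) (.e true (nat_lit 2) (nat_lit 269) (nat_lit 1) (nat_lit 17) (.e true (nat_lit 1) (nat_lit 272) (nat_lit 1) (nat_lit 17) (.e false (nat_lit 2) (nat_lit 274) (nat_lit 1) (nat_lit 17) (.e false (nat_lit 3) (nat_lit 54) (nat_lit 20) (nat_lit 4) (.e false (nat_lit 1) (nat_lit 93) (nat_lit 11) (nat_lit 8) (.e false (nat_lit 3) (nat_lit 96) (nat_lit 11) (nat_lit 8) (.e true (nat_lit 3) (nat_lit 252) (nat_lit 1) (nat_lit 17) (.e true (nat_lit 3) (nat_lit 253) (nat_lit 1) (nat_lit 17) (.e false (nat_lit 3) (nat_lit 255) (nat_lit 1) (nat_lit 17) (.e true (nat_lit 3) (nat_lit 257) (nat_lit 1) (nat_lit 17) (.e true (nat_lit 3) (nat_lit 277) (nat_lit 1) (nat_lit 17) (.e false (nat_lit 3) (nat_lit 285) (nat_lit 1) (nat_lit 17) (.u (nat_lit 2) (.p (nat_lit 0) (nat_lit 1) (.n (nat_lit 1) (nat_lit 1) (.p (nat_lit 2) (nat_lit 2) (.n (nat_lit 3) (nat_lit 1) (.p (nat_lit 5) (nat_lit 5) (.p (nat_lit 6) (nat_lit 1) (.n (nat_lit 7) (nat_lit 1) (.p (nat_lit 8) (nat_lit 1) (.p (nat_lit 9) (nat_lit 2) (.n (nat_lit 10) (nat_lit 2) (.n (nat_lit 13) (nat_lit 1) (.n (nat_lit 14) (nat_lit 1) (.n (nat_lit 15) (nat_lit 2) (.p (nat_lit 16) (nat_lit 1) (.n (nat_lit 17) (nat_lit 1) (.n (nat_lit 18) (nat_lit 1) (.p (nat_lit 19) (nat_lit 1) (.p (nat_lit 21) (nat_lit 1) (.p (nat_lit 22) (nat_lit 1) (.p (nat_lit 23) (nat_lit 3) (.p (nat_lit 25) (nat_lit 1) (.n (nat_lit 26) (nat_lit 2) (.n (nat_lit 27) (nat_lit 1) (.n (nat_lit 28) (nat_lit 1) (.p (nat_lit 29) (nat_lit 2) (.n (nat_lit 30) (nat_lit 1) (.n (nat_lit 31) (nat_lit 4) (.n (nat_lit 34) (nat_lit 3) (.n (nat_lit 36) (nat_lit 3) (.n (nat_lit 38) (nat_lit 2) (.n (nat_lit 39) (nat_lit 2) (.n (nat_lit 40) (nat_lit 1) (.n (nat_lit 41) (nat_lit 1) (.n (nat_lit 43) (nat_lit 1) (.p (nat_lit 48) (nat_lit 1) (.n (nat_lit 49) (nat_lit 1) (.p (nat_lit 51) (nat_lit 1) (.p (nat_lit 55) (nat_lit 1) (.p (nat_lit 56) (nat_lit 1) (.p (nat_lit 58) (nat_lit 1) (.p (nat_lit 184) (nat_lit 1) (.n (nat_lit 185) (nat_lit 1) (.n (nat_lit 351) (nat_lit 2) (.p (nat_lit 362) (nat_lit 2) (.n (nat_lit 363) (nat_lit 1) (.p (nat_lit 366) (nat_lit 2) (.p (nat_lit 369) (nat_lit 1) (.p (nat_lit 371) (nat_lit 1) .z)))))))))))))))))))))))))))))))))))))))))))))))) .nil))))))))))))))))))) (.nd (.nd .leaf (nat_lit 94220) (nat_lit 1088) (.p (nat_lit 335) (nat_lit 3) (.n (nat_lit 336) (nat_lit 3) (.p (nat_lit 337) (nat_lit 1) (.p (nat_lit 338) (nat_lit 3) (.n (nat_lit 339) (nat_lit 1) (.n (nat_lit 340) (nat_lit 3) (.p (nat_lit 342) (nat_lit 3) (.p (nat_lit 343) (nat_lit 1) (.n (nat_lit 344) (nat_lit 2) (.p (nat_lit 345) (nat_lit 2) (.p (nat_lit 346) (nat_lit 2) (.n (nat_lit 347) (nat_lit 2) (.p (nat_lit 349) (nat_lit 1) (.n (nat_lit 350) (nat_lit 2) (.p (nat_lit 351) (nat_lit 1) (.n (nat_lit 352) (nat_lit 1) (.p (nat_lit 353) (nat_lit 3) (.n (nat_lit 354) (nat_lit 2) (.p (nat_lit 355) (nat_lit 2) (.p (nat_lit 358) (nat_lit 3) (.n (nat_lit 359) (nat_lit 3) (.p (nat_lit 360) (nat_lit 3) (.n (nat_lit 361) (nat_lit 2) (.p (nat_lit 362) (nat_lit 3) (.n (nat_lit 363) (nat_lit 1) (.p (nat_lit 364) (nat_lit 2) (.p (nat_lit 366) (nat_lit 1) (.n (nat_lit 367) (nat_lit 1) (.p (nat_lit 368) (nat_lit 1) (.p (nat_lit 369) (nat_lit 3) (.p (nat_lit 370) (nat_lit 2) (.p (nat_lit 371) (nat_lit 3) (.n (nat_lit 373) (nat_lit 1) (.n (nat_lit 374) (nat_lit 3) (.p (nat_lit 376) (nat_lit 1) (.n (nat_lit 380) (nat_lit 3) (.n (nat_lit 381) (nat_lit 2) (.n (nat_lit 382) (nat_lit 1) (.n (nat_lit 383) (nat_lit 3) (.p (nat_lit 385) (nat_lit 1) (.n (nat_lit 388) (nat_lit 1) (.n (nat_lit 396) (nat_lit 1) .z)))))))))))))))))))))))))))))))))))))))))) (.ct dC2c_c308 (nat_lit 1) (nat_lit 8) (.s false (nat_lit 3) (nat_lit 20) (nat_lit 12) (nat_lit 1) (nat_lit 1) true (nat_lit 2) true (nat_lit 17) true (nat_lit 4) true (nat_lit 8) true (nat_lit 17) (.e true (nat_lit 3) (nat_lit 47) (nat_lit 27) (nat_lit 2) (.e false (nat_lit 2) (nat_lit 255) (nat_lit 1) (nat_lit 17) (.e true (nat_lit 2) (nat_lit 258) (nat_lit 1) (nat_lit 17) dC2c_i22))))) .leaf) (nat_lit 94221) (nat_lit 1139) (.n (nat_lit 336) (nat_lit 2) (.p (nat_lit 337) (nat_lit 3) (.p (nat_lit 338) (nat_lit 2) (.n (nat_lit 339) (nat_lit 2) (.n (nat_lit 340) (nat_lit 3) (.n (nat_lit 341) (nat_lit 2) (.p (nat_lit 342) (nat_lit 1) (.p (nat_lit 343) (nat_lit 1) (.p (nat_lit 344) (nat_lit 3) (.n (nat_lit 346) (nat_lit 3) (.n (nat_lit 347) (nat_lit 3) (.n (nat_lit 348) (nat_lit 1) (.p (nat_lit 349) (nat_lit 2) (.p (nat_lit 350) (nat_lit 1) (.p (nat_lit 351) (nat_lit 1) (.n (nat_lit 352) (nat_lit 2) (.p (nat_lit 354) (nat_lit 1) (.n (nat_lit 355) (nat_lit 2) (.n (nat_lit 357) (nat_lit 1) (.p (nat_lit 361) (nat_lit 1) (.p (nat_lit 362) (nat_lit 1) (.n (nat_lit 363) (nat_lit 3) (.p (nat_lit 364) (nat_lit 1) (.n (nat_lit 365) (nat_lit 1) (.p (nat_lit 366) (nat_lit 2) (.n (nat_lit 367) (nat_lit 3) (.n (nat_lit 368) (nat_lit 1) (.n (nat_lit 370) (nat_lit 3) (.p (nat_lit 371) (nat_lit 2) (.p (nat_lit 372) (nat_lit 3) (.p (nat_lit 373) (nat_lit 2) (.n (nat_lit 374) (nat_lit 1) (.p (nat_lit 375) (nat_lit 2) (.p (nat_lit 376) (nat_lit 3) (.n (nat_lit 378) (nat_lit 1) (.n (nat_lit 380) (nat_lit 2) (.p (nat_lit 381) (nat_lit 1) (.p (nat_lit 382) (nat_lit 3) (.n (nat_lit 383) (nat_lit 1) (.p (nat_lit 384) (nat_lit 2) (.p (nat_lit 385) (nat_lit 1) (.p (nat_lit 386) (nat_lit 1) (.n (nat_lit 388) (nat_lit 1) (.n (nat_lit 390) (nat_lit 2) (.n (nat_lit 391) (nat_lit 2) (.p (nat_lit 393) (nat_lit 1) (.n (nat_lit 396) (nat_lit 1) .z))))))))))))))))))))))))))))))))))))))))))))))) (.ct dC2c_c308 (nat_lit 1) (nat_lit 8) (.s false (nat_lit 1) (nat_lit 92) (nat_lit 1) (nat_lit 2) (nat_lit 0) true (nat_lit 15) true (nat_lit 18) false (nat_lit 8) true (nat_lit 17) true (nat_lit 16) (.e false (nat_lit 1) (nat_lit 186) (nat_lit 3) (nat_lit 15) (.e false (nat_lit 1) (nat_lit 295) (nat_lit 0) (nat_lit 18) (.e true (nat_lit 1) (nat_lit 252) (nat_lit 1) (nat_lit 17) (.e true (nat_lit 1) (nat_lit 253) (nat_lit 1) (nat_lit 17) dC2c_i23)))))) .leaf))) (nat_lit 94224) (nat_lit 1308) (.p (nat_lit 397) (nat_lit 3) (.p (nat_lit 398) (nat_lit 2) (.n (nat_lit 399) (nat_lit 3) (.n (nat_lit 400) (nat_lit 3) (.n (nat_lit 401) (nat_lit 3) (.n (nat_lit 402) (nat_lit 1) (.n (nat_lit 403) (nat_lit 1) (.p (nat_lit 404) (nat_lit 2) (.n (nat_lit 405) (nat_lit 3) (.p (nat_lit 406) (nat_lit 2) (.n (nat_lit 407) (nat_lit 3) (.p (nat_lit 408) (nat_lit 1) (.p (nat_lit 409) (nat_lit 2) (.n (nat_lit 411) (nat_lit 1) (.p (nat_lit 412) (nat_lit 3) (.p (nat_lit 413) (nat_lit 3) (.n (nat_lit 414) (nat_lit 1) (.p (nat_lit 415) (nat_lit 1) (.p (nat_lit 416) (nat_lit 3) (.n (nat_lit 418) (nat_lit 1) (.p (nat_lit 420) (nat_lit 3) (.p (nat_lit 421) (nat_lit 2) (.n (nat_lit 430) (nat_lit 1) (.n (nat_lit 431) (nat_lit 2) (.p (nat_lit 435) (nat_lit 1) .z))))))))))))))))))))))))) (.ct dC2c_c293 (nat_lit 1) (nat_lit 5) (.s false (nat_lit 1) (nat_lit 92) (nat_lit 2) (nat_lit 0) (nat_lit 2) true (nat_lit 9) true (nat_lit 14) false (nat_lit 5) true (nat_lit 14) true (nat_lit 16) (.e true (nat_lit 1) (nat_lit 151) (nat_lit 7) (nat_lit 9) (.e true (nat_lit 1) (nat_lit 253) (nat_lit 2) (nat_lit 14) (.e false (nat_lit 2) (nat_lit 254) (nat_lit 2) (nat_lit 14) (.e true (nat_lit 1) (nat_lit 255) (nat_lit 2) (nat_lit 14) (.e true (nat_lit 2) (nat_lit 256) (nat_lit 2) (nat_lit 14) (.e false (nat_lit 1) (nat_lit 258) (nat_lit 2) (nat_lit 14) dC2c_i24)))))))) (.nd (.nd (.nd (.nd .leaf (nat_lit 94225) (nat_lit 1311) (.n (nat_lit 397) (nat_lit 1) (.n (nat_lit 398) (nat_lit 1) (.p (nat_lit 399) (nat_lit 1) (.n (nat_lit 400) (nat_lit 3) (.n (nat_lit 401) (nat_lit 3) (.n (nat_lit 402) (nat_lit 1) (.n (nat_lit 403) (nat_lit 2) (.n (nat_lit 404) (nat_lit 2) (.n (nat_lit 405) (nat_lit 3) (.n (nat_lit 406) (nat_lit 1) (.p (nat_lit 407) (nat_lit 3) (.n (nat_lit 408) (nat_lit 2) (.p (nat_lit 409) (nat_lit 1) (.p (nat_lit 410) (nat_lit 3) (.n (nat_lit 411) (nat_lit 1) (.p (nat_lit 412) (nat_lit 1) (.p (nat_lit 413) (nat_lit 1) (.n (nat_lit 414) (nat_lit 2) (.n (nat_lit 415) (nat_lit 1) (.p (nat_lit 420) (nat_lit 3) (.p (nat_lit 421) (nat_lit 2) (.n (nat_lit 430) (nat_lit 2) (.p (nat_lit 431) (nat_lit 1) (.p (nat_lit 432) (nat_lit 2) (.p (nat_lit 435) (nat_lit 1) .z))))))))))))))))))))))))) (.ct dC2c_c293 (nat_lit 1) (nat_lit 5) (.s false (nat_lit 1) (nat_lit 92) (nat_lit 2) (nat_lit 2) (nat_lit 0) true (nat_lit 11) true (nat_lit 16) false (nat_lit 5) true (nat_lit 14) true (nat_lit 14) (.e false (nat_lit 1) (nat_lit 186) (nat_lit 5) (nat_lit 11) (.e false (nat_lit 1) (nat_lit 325) (nat_lit 0) (nat_lit 16) (.e true (nat_lit 1) (nat_lit 252) (nat_lit 2) (nat_lit 14) dC2c_i25))))) .leaf) (nat_lit 94226) (nat_lit 1409) (.n (nat_lit 437) (nat_lit 3) (.p (nat_lit 438) (nat_lit 1) (.n (nat_lit 439) (nat_lit 2) (.p (nat_lit 440) (nat_lit 3) (.n (nat_lit 441) (nat_lit 3) (.n (nat_lit 442) (nat_lit 3) (.n (nat_lit 443) (nat_lit 2) (.n (nat_lit 444) (nat_lit 1) (.n (nat_lit 447) (nat_lit 2) (.p (nat_lit 448) (nat_lit 2) (.n (nat_lit 450) (nat_lit 3) .z))))))))))) (.ct dC2c_c53 (nat_lit 1) (nat_lit 3) (.s false (nat_lit 1) (nat_lit 92) (nat_lit 2) (nat_lit 1) (nat_lit 2) true (nat_lit 6) true (nat_lit 9) false (nat_lit 3) true (nat_lit 9) true (nat_lit 10) (.e false (nat_lit 1) (nat_lit 164) (nat_lit 7) (nat_lit 6) (.e false (nat_lit 1) (nat_lit 300) (nat_lit 2) (nat_lit 9) (.e false (nat_lit 2) (nat_lit 289) (nat_lit 2) (nat_lit 9) (.e false (nat_lit 1) (nat_lit 290) (nat_lit 2) (nat_lit 9) (.e true (nat_lit 3) (nat_lit 291) (nat_lit 2) (nat_lit 9) (.e false (nat_lit 3) (nat_lit 292) (nat_lit 2) (nat_lit 9) (.e true (nat_lit 1) (nat_lit 293) (nat_lit 2) (nat_lit 9) (.e true (nat_lit 2) (nat_lit 295) (nat_lit 2) (nat_lit 9) (.e true (nat_lit 2) (nat_lit 297) (nat_lit 2) (nat_lit 9) (.e false (nat_lit 1) (nat_lit 299) (nat_lit 2) (nat_lit 9) (.e true (nat_lit 1) (nat_lit 301) (nat_lit 2) (nat_lit 9) (.e false (nat_lit 2) (nat_lit 303) (nat_lit 2) (nat_lit 9) (.e true (nat_lit 3) (nat_lit 304) (nat_lit 2) (nat_lit 9) (.e true (nat_lit 1) (nat_lit 325) (nat_lit 1) (nat_lit 10) (.u (nat_lit 2) (.n (nat_lit 1) (nat_lit 1) (.p (nat_lit 2) (nat_lit 1) (.p (nat_lit 3) (nat_lit 2) (.n (nat_lit 4) (nat_lit 2) (.p (nat_lit 9) (nat_lit 1) .z))))) .nil))))))))))))))))) .leaf) (nat_lit 94227) (nat_lit 1449) (.p (nat_lit 436) (nat_lit 3) (.p (nat_lit 437) (nat_lit 2) (.n (nat_lit 438) (nat_lit 3) (.n (nat_lit 441) (nat_lit 3) (.n (nat_lit 443) (nat_lit 2) (.n (nat_lit 444) (nat_lit 3) (.p (nat_lit 447) (nat_lit 2) (.n (nat_lit 448) (nat_lit 1) (.n (nat_lit 450) (nat_lit 1) .z))))))))) (.ct dC2c_c53 (nat_lit 1) (nat_lit 3) (.s false (nat_lit 1) (nat_lit 92) (nat_lit 2) (nat_lit 2) (nat_lit 1) true (nat_lit 7) true (nat_lit 10) false (nat_lit 3) true (nat_lit 9) true (nat_lit 9) (.e false (nat_lit 1) (nat_lit 186) (nat_lit 6) (nat_lit 7) (.e false (nat_lit 1) (nat_lit 325) (nat_lit 1) (nat_lit 10) (.e false (nat_lit 2) (nat_lit 289) (nat_lit 2) (nat_lit 9) (.e false (nat_lit 1) (nat_lit 290) (nat_lit 2) (nat_lit 9) (.e true (nat_lit 3) (nat_lit 291) (nat_lit 2) (nat_lit 9) (.e false (nat_lit 3) (nat_lit 292) (nat_lit 2) (nat_lit 9) (.e true (nat_lit 1) (nat_lit 293) (nat_lit 2) (nat_lit 9) (.e true (nat_lit 3) (nat_lit 295) (nat_lit 2) (nat_lit 9) (.e true (nat_lit 2) (nat_lit 297) (nat_lit 2) (nat_lit 9) (.e false (nat_lit 1) (nat_lit 299) (nat_lit 2) (nat_lit 9) (.e true (nat_lit 1) (nat_lit 301) (nat_lit 2) (nat_lit 9) (.e false (nat_lit 2) (nat_lit 303) (nat_lit 2) (nat_lit 9) (.e true (nat_lit 3) (nat_lit 304) (nat_lit 2) (nat_lit 9) (.u (nat_lit 2) (.n (nat_lit 0) (nat_lit 1) (.n (nat_lit 1) (nat_lit 1) (.p (nat_lit 2) (nat_lit 1) (.p (nat_lit 3) (nat_lit 1) (.n (nat_lit 4) (nat_lit 1) (.n (nat_lit 7) (nat_lit 1) (.p (nat_lit 9) (nat_lit 1) .z))))))) .nil)))))))))))))))) (.nd (.nd .leaf (nat_lit 95232) (nat_lit 278) (.p (nat_lit 132) (nat_lit 1) (.p (nat_lit 133) (nat_lit 2) (.p (nat_lit 134) (nat_lit 3) (.n (nat_lit 135) (nat_lit 3) (.p (nat_lit 136) (nat_lit 2) (.n (nat_lit 137) (nat_lit 2) (.n (nat_lit 138) (nat_lit 1) (.p (nat_lit 139) (nat_lit 1) (.n (nat_lit 140) (nat_lit 1) (.n (nat_lit 141) (nat_lit 2) (.p (nat_lit 142) (nat_lit 1) (.p (nat_lit 143) (nat_lit 2) (.n (nat_lit 147) (nat_lit 1) (.n (nat_lit 149) (nat_lit 2) (.n (nat_lit 150) (nat_lit 3) (.n (nat_lit 151) (nat_lit 3) (.p (nat_lit 152) (nat_lit 2) (.p (nat_lit 153) (nat_lit 3) (.p (nat_lit 154) (nat_lit 3) (.n (nat_lit 155) (nat_lit 2) (.p (nat_lit 156) (nat_lit 2) (.n (nat_lit 157) (nat_lit 2) .z)))))))))))))))))))))) (.ct dC2c_c291 (nat_lit 1) (nat_lit 10) (.s true (nat_lit 1) (nat_lit 18) (nat_lit 2) (nat_lit 0) (nat_lit 1) true (nat_lit 4) true (nat_lit 9) false (nat_lit 1) true (nat_lit 8) true (nat_lit 10) (.e false (nat_lit 1) (nat_lit 38) (nat_lit 6) (nat_lit 4) (.e true (nat_lit 1) (nat_lit 87) (nat_lit 1) (nat_lit 9) (.e false (nat_lit 1) (nat_lit 18) (nat_lit 12) (nat_lit 1) (.e true (nat_lit 1) (nat_lit 61) (nat_lit 2) (nat_lit 8) (.e false (nat_lit 1) (nat_lit 63) (nat_lit 2) (nat_lit 8) (.e true (nat_lit 1) (nat_lit 65) (nat_lit 2) (nat_lit 8) (.e true (nat_lit 1) (nat_lit 66) (nat_lit 2) (nat_lit 8) (.e false (nat_lit 1) (nat_lit 72) (nat_lit 2) (nat_lit 8) (.u (nat_lit 2) (.n (nat_lit 2) (nat_lit 1) (.p (nat_lit 3) (nat_lit 1) (.p (nat_lit 9) (nat_lit 1) (.p (nat_lit 12) (nat_lit 1) (.p (nat_lit 18) (nat_lit 1) (.p (nat_lit 19) (nat_lit 1) (.n (nat_lit 24) (nat_lit 1) .z))))))) .nil))))))))))) .leaf) (nat_lit 95233) (nat_lit 297) (.p (nat_lit 165) (nat_lit 1) .z) .df .leaf)) (nat_lit 95234) (nat_lit 357) (.p (nat_lit 187) (nat_lit 1) .z) .df (.nd (.nd (.nd .leaf (nat_lit 95235) (nat_lit 490) (.p (nat_lit 205) (nat_lit 3) (.p (nat_lit 209) (nat_lit 2) (.n (nat_lit 210) (nat_lit 1) (.n (nat_lit 211) (nat_lit 2) (.p (nat_lit 213) (nat_lit 2) (.n (nat_lit 215) (nat_lit 2) (.n (nat_lit 216) (nat_lit 3) (.n (nat_lit 217) (nat_lit 3) (.p (nat_lit 219) (nat_lit 3) (.n (nat_lit 221) (nat_lit 3) (.n (nat_lit 222) (nat_lit 1) (.p (nat_lit 225) (nat_lit 3) (.n (nat_lit 227) (nat_lit 3) (.p (nat_lit 228) (nat_lit 1) (.p (nat_lit 229) (nat_lit 1) (.p (nat_lit 238) (nat_lit 1) (.p (nat_lit 245) (nat_lit 1) (.n (nat_lit 246) (nat_lit 1) (.n (nat_lit 247) (nat_lit 1) (.n (nat_lit 248) (nat_lit 2) (.p (nat_lit 251) (nat_lit 2) .z))))))))))))))))))))) (.ct dC2c_c307 (nat_lit 1) (nat_lit 11) (.s true (nat_lit 3) (nat_lit 7) (nat_lit 4) (nat_lit 2) (nat_lit 3) false (nat_lit 0) true (nat_lit 11) true (nat_lit 7) true (nat_lit 10) true (nat_lit 12) (.e true (nat_lit 3) (nat_lit 22) (nat_lit 20) (nat_lit 0) (.e true (nat_lit 3) (nat_lit 23) (nat_lit 20) (nat_lit 0) (.e false (nat_lit 1) (nat_lit 92) (nat_lit 3) (nat_lit 11) (.e true (nat_lit 3) (nat_lit 49) (nat_lit 7) (nat_lit 7) (.e false (nat_lit 3) (nat_lit 53) (nat_lit 7) (nat_lit 7) (.e true (nat_lit 1) (nat_lit 54) (nat_lit 7) (nat_lit 7) (.e true (nat_lit 3) (nat_lit 55) (nat_lit 7) (nat_lit 7) (.e false (nat_lit 3) (nat_lit 57) (nat_lit 7) (nat_lit 7) (.e true (nat_lit 3) (nat_lit 59) (nat_lit 7) (nat_lit 7) (.e true (nat_lit 3) (nat_lit 88) (nat_lit 4) (nat_lit 10) (.e true (nat_lit 1) (nat_lit 106) (nat_lit 2) (nat_lit 12) (.e false (nat_lit 1) (nat_lit 119) (nat_lit 2) (nat_lit 12) (.e true (nat_lit 1) (nat_lit 123) (nat_lit 2) (nat_lit 12) (.e true (nat_lit 1) (nat_lit 127) (nat_lit 2) (nat_lit 12) (.e false (nat_lit 1) (nat_lit 109) (nat_lit 2) (nat_lit 12) (.e true (nat_lit 3) (nat_lit 130) (nat_lit 2) (nat_lit 12) (.e true (nat_lit 1) (nat_lit 116) (nat_lit 2) (nat_lit 12) (.e true (nat_lit 3) (nat_lit 129) (nat_lit 2) (nat_lit 12) (.u (nat_lit 2) (.n (nat_lit 0) (nat_lit 2) (.p (nat_lit 2) (nat_lit 1) (.p (nat_lit 4) (nat_lit 1) (.n (nat_lit 5) (nat_lit 1) (.p (nat_lit 9) (nat_lit 1) (.p (nat_lit 11) (nat_lit 1) (.n (nat_lit 12) (nat_lit 1) (.n (nat_lit 14) (nat_lit 1) (.n (nat_lit 15) (nat_lit 1) (.n (nat_lit 16) (nat_lit 1) (.n (nat_lit 17) (nat_lit 1) (.p (nat_lit 20) (nat_lit 1) (.p (nat_lit 21) (nat_lit 1) (.n (nat_lit 23) (nat_lit 3) (.n (nat_lit 24) (nat_lit 1) (.n (nat_lit 26) (nat_lit 1) (.p (nat_lit 33) (nat_lit 1) (.n (nat_lit 37) (nat_lit 1) (.n (nat_lit 40) (nat_lit 1) (.p (nat_lit 41) (nat_lit 2) (.p (nat_lit 42) (nat_lit 2) (.p (nat_lit 43) (nat_lit 1) (.n (nat_lit 46) (nat_lit 1) (.p (nat_lit 103) (nat_lit 1) (.n (nat_lit 141) (nat_lit 1) (.p (nat_lit 142) (nat_lit 1) (.p (nat_lit 146) (nat_lit 1) (.n (nat_lit 149) (nat_lit 1) (.p (nat_lit 156) (nat_lit 1) (.p (nat_lit 157) (nat_lit 3) (.n (nat_lit 159) (nat_lit 1) (.n (nat_lit 162) (nat_lit 3) (.p (nat_lit 163) (nat_lit 1) (.n (nat_lit 167) (nat_lit 2) .z)))))))))))))))))))))))))))))))))) .nil))))))))))))))))))))) .leaf) (nat_lit 95237) (nat_lit 678) (.n (nat_lit 252) (nat_lit 3) (.n (nat_lit 253) (nat_lit 3) (.n (nat_lit 254) (nat_lit 1) (.n (nat_lit 255) (nat_lit 2) (.p (nat_lit 256) (nat_lit 3) (.n (nat_lit 257) (nat_lit 1) (.n (nat_lit 258) (nat_lit 3) (.n (nat_lit 261) (nat_lit 3) (.p (nat_lit 263) (nat_lit 3) (.p (nat_lit 264) (nat_lit 1) (.p (nat_lit 265) (nat_lit 3) (.n (nat_lit 266) (nat_lit 3) (.n (nat_lit 267) (nat_lit 3) (.n (nat_lit 270) (nat_lit 2) (.p (nat_lit 272) (nat_lit 2) (.n (nat_lit 273) (nat_lit 1) (.n (nat_lit 274) (nat_lit 2) (.p (nat_lit 275) (nat_lit 1) (.p (nat_lit 276) (nat_lit 1) (.p (nat_lit 277) (nat_lit 2) (.p (nat_lit 282) (nat_lit 1) (.n (nat_lit 283) (nat_lit 1) (.p (nat_lit 285) (nat_lit 1) (.n (nat_lit 286) (nat_lit 1) .z)))))))))))))))))))))))) (.ct dC2c_c292 (nat_lit 1) (nat_lit 8) (.s true (nat_lit 3) (nat_lit 20) (nat_lit 5) (nat_lit 1) (nat_lit 1) true (nat_lit 4) true (nat_lit 12) true (nat_lit 0) true (nat_lit 8) true (nat_lit 12) (.e true (nat_lit 3) (nat_lit 47) (nat_lit 12) (nat_lit 4) (.e false (nat_lit 3) (nat_lit 169) (nat_lit 1) (nat_lit 12) (.e true (nat_lit 3) (nat_lit 170) (nat_lit 1) (nat_lit 12) (.e true (nat_lit 3) (nat_lit 173) (nat_lit 1) (nat_lit 12) (.e false (nat_lit 3) (nat_lit 174) (nat_lit 1) (nat_lit 12) (.e true (nat_lit 1) (nat_lit 175) (nat_lit 1) (nat_lit 12) (.e false (nat_lit 1) (nat_lit 172) (nat_lit 1) (nat_lit 12) (.e true (nat_lit 1) (nat_lit 176) (nat_lit 1) (nat_lit 12) (.e false (nat_lit 3) (nat_lit 177) (nat_lit 1) (nat_lit 12) (.e false (nat_lit 1) (nat_lit 178) (nat_lit 1) (nat_lit 12) (.e true (nat_lit 2) (nat_lit 179) (nat_lit 1) (nat_lit 12) (.e false (nat_lit 3) (nat_lit 27) (nat_lit 20) (nat_lit 0) (.e false (nat_lit 1) (nat_lit 92) (nat_lit 5) (nat_lit 8) (.e true (nat_lit 3) (nat_lit 96) (nat_lit 5) (nat_lit 8) (.e false (nat_lit 3) (nat_lit 182) (nat_lit 1) (nat_lit 12) (.u (nat_lit 2) (.n (nat_lit 0) (nat_lit 1) (.n (nat_lit 1) (nat_lit 1) (.n (nat_lit 2) (nat_lit 3) (.p (nat_lit 3) (nat_lit 3) (.p (nat_lit 4) (nat_lit 1) (.n (nat_lit 5) (nat_lit 3) (.n (nat_lit 6) (nat_lit 2) (.p (nat_lit 7) (nat_lit 3) (.n (nat_lit 8) (nat_lit 3) (.n (nat_lit 9) (nat_lit 3) (.n (nat_lit 10) (nat_lit 4) (.n (nat_lit 11) (nat_lit 1) (.n (nat_lit 12) (nat_lit 2) (.p (nat_lit 13) (nat_lit 1) (.p (nat_lit 14) (nat_lit 2) (.p (nat_lit 15) (nat_lit 1) (.p (nat_lit 18) (nat_lit 1) (.n (nat_lit 19) (nat_lit 3) (.n (nat_lit 21) (nat_lit 3) (.n (nat_lit 22) (nat_lit 3) (.p (nat_lit 23) (nat_lit 3) (.p (nat_lit 24) (nat_lit 2) (.p (nat_lit 25) (nat_lit 2) (.p (nat_lit 26) (nat_lit 1) (.p (nat_lit 27) (nat_lit 1) (.n (nat_lit 28) (nat_lit 1) (.p (nat_lit 30) (nat_lit 1) (.n (nat_lit 31) (nat_lit 2) (.p (nat_lit 33) (nat_lit 1) (.p (nat_lit 34) (nat_lit 2) (.n (nat_lit 36) (nat_lit 1) (.n (nat_lit 104) (nat_lit 1) (.p (nat_lit 105) (nat_lit 1) (.n (nat_lit 146) (nat_lit 1) (.p (nat_lit 147) (nat_lit 3) (.n (nat_lit 148) (nat_lit 3) (.p (nat_lit 149) (nat_lit 1) (.p (nat_lit 150) (nat_lit 1) (.p (nat_lit 152) (nat_lit 2) (.p (nat_lit 153) (nat_lit 2) .z)))))))))))))))))))))))))))))))))))))))) .nil)))))))))))))))))) .leaf) (nat_lit 95238) (nat_lit 735) (.p (nat_lit 289) (nat_lit 1) (.n (nat_lit 290) (nat_lit 3) (.p (nat_lit 291) (nat_lit 2) (.p (nat_lit 292) (nat_lit 3) (.n (nat_lit 293) (nat_lit 1) (.p (nat_lit 294) (nat_lit 1) (.n (nat_lit 295) (nat_lit 1) (.n (nat_lit 296) (nat_lit 1) (.p (nat_lit 297) (nat_lit 2) (.p (nat_lit 298) (nat_lit 2) (.n (nat_lit 299) (nat_lit 1) (.n (nat_lit 300) (nat_lit 1) (.p (nat_lit 301) (nat_lit 2) (.n (nat_lit 303) (nat_lit 1) (.p (nat_lit 304) (nat_lit 2) .z))))))))))))))) (.ct dC2c_c52 (nat_lit 1) (nat_lit 5) (.s true (nat_lit 1) (nat_lit 41) (nat_lit 2) (nat_lit 2) (nat_lit 1) true (nat_lit 5) true (nat_lit 8) false (nat_lit 1) true (nat_lit 7) true (nat_lit 7) (.e true (nat_lit 1) (nat_lit 187) (nat_lit 1) (nat_lit 8) (.e false (nat_lit 1) (nat_lit 41) (nat_lit 19) (nat_lit 1) (.e false (nat_lit 1) (nat_lit 168) (nat_lit 2) (nat_lit 7) (.e true (nat_lit 1) (nat_lit 158) (nat_lit 2) (nat_lit 7) (.e true (nat_lit 1) (nat_lit 159) (nat_lit 2) (nat_lit 7) (.e true (nat_lit 2) (nat_lit 160) (nat_lit 2) (nat_lit 7) (.e false (nat_lit 2) (nat_lit 161) (nat_lit 2) (nat_lit 7) (.e false (nat_lit 3) (nat_lit 162) (nat_lit 2) (nat_lit 7) (.e true (nat_lit 2) (nat_lit 163) (nat_lit 2) (nat_lit 7) (.u (nat_lit 2) (.n (nat_lit 2) (nat_lit 1) (.n (nat_lit 5) (nat_lit 1) (.p (nat_lit 6) (nat_lit 1) .z))) .nil)))))))))))) (.nd .leaf (nat_lit 95239) (nat_lit 848) (.n (nat_lit 325) (nat_lit 3) (.n (nat_lit 326) (nat_lit 3) (.p (nat_lit 327) (nat_lit 3) (.n (nat_lit 328) (nat_lit 3) (.n (nat_lit 329) (nat_lit 2) (.p (nat_lit 330) (nat_lit 3) (.p (nat_lit 331) (nat_lit 2) (.p (nat_lit 333) (nat_lit 1) (.p (nat_lit 334) (nat_lit 1) .z))))))))) (.ct dC2c_c37 (nat_lit 1) (nat_lit 3) (.s true (nat_lit 1) (nat_lit 41) (nat_lit 2) (nat_lit 2) (nat_lit 2) true (nat_lit 3) true (nat_lit 6) false (nat_lit 0) true (nat_lit 6) true (nat_lit 6) (.e true (nat_lit 2) (nat_lit 187) (nat_lit 2) (nat_lit 6) (.e false (nat_lit 1) (nat_lit 41) (nat_lit 20) (nat_lit 0) (.e false (nat_lit 2) (nat_lit 185) (nat_lit 2) (nat_lit 6) (.e false (nat_lit 3) (nat_lit 186) (nat_lit 2) (nat_lit 6) (.e false (nat_lit 2) (nat_lit 188) (nat_lit 2) (nat_lit 6) (.e false (nat_lit 1) (nat_lit 189) (nat_lit 2) (nat_lit 6) (.e true (nat_lit 2) (nat_lit 190) (nat_lit 2) (nat_lit 6) (.e false (nat_lit 1) (nat_lit 193) (nat_lit 2) (nat_lit 6) (.e false (nat_lit 1) (nat_lit 194) (nat_lit 2) (nat_lit 6) (.u (nat_lit 2) (.p (nat_lit 1) (nat_lit 1) (.n (nat_lit 3) (nat_lit 1) (.p (nat_lit 4) (nat_lit 1) (.n (nat_lit 7) (nat_lit 1) .z)))) .nil)))))))))))) .leaf)))) (nat_lit 95243) (nat_lit 1129) (.p (nat_lit 335) (nat_lit 1) (.p (nat_lit 336) (nat_lit 1) (.p (nat_lit 337) (nat_lit 2) (.n (nat_lit 338) (nat_lit 3) (.p (nat_lit 340) (nat_lit 3) (.p (nat_lit 341) (nat_lit 3) (.p (nat_lit 342) (nat_lit 2) (.p (nat_lit 343) (nat_lit 2) (.n (nat_lit 344) (nat_lit 2) (.p (nat_lit 345) (nat_lit 2) (.n (nat_lit 346) (nat_lit 2) (.p (nat_lit 347) (nat_lit 1) (.p (nat_lit 348) (nat_lit 1) (.p (nat_lit 349) (nat_lit 1) (.p (nat_lit 350) (nat_lit 2) (.p (nat_lit 351) (nat_lit 2) (.p (nat_lit 353) (nat_lit 3) (.p (nat_lit 354) (nat_lit 2) (.p (nat_lit 355) (nat_lit 2) (.n (nat_lit 356) (nat_lit 2) (.p (nat_lit 357) (nat_lit 3) (.n (nat_lit 358) (nat_lit 3) (.n (nat_lit 359) (nat_lit 1) (.n (nat_lit 360) (nat_lit 2) (.n (nat_lit 361) (nat_lit 2) (.n (nat_lit 362) (nat_lit 2) (.n (nat_lit 363) (nat_lit 2) (.p (nat_lit 364) (nat_lit 2) (.p (nat_lit 365) (nat_lit 1) (.p (nat_lit 366) (nat_lit 3) (.n (nat_lit 367) (nat_lit 2) (.n (nat_lit 368) (nat_lit 2) (.p (nat_lit 369) (nat_lit 2) (.n (nat_lit 370) (nat_lit 1) (.p (nat_lit 372) (nat_lit 2) (.p (nat_lit 373) (nat_lit 1) (.n (nat_lit 375) (nat_lit 2) (.n (nat_lit 376) (nat_lit 2) (.p (nat_lit 378) (nat_lit 1) (.n (nat_lit 380) (nat_lit 1) (.n (nat_lit 381) (nat_lit 3) (.p (nat_lit 383) (nat_lit 3) (.n (nat_lit 384) (nat_lit 2) (.n (nat_lit 386) (nat_lit 1) (.p (nat_lit 390) (nat_lit 2) (.p (nat_lit 391) (nat_lit 2) (.n (nat_lit 393) (nat_lit 1) .z))))))))))))))))))))))))))))))))))))))))))))))) (.ct dC2c_c308 (nat_lit 1) (nat_lit 8) (.s true (nat_lit 1) (nat_lit 18) (nat_lit 2) (nat_lit 11) (nat_lit 1) true (nat_lit 12) true (nat_lit 17) true (nat_lit 5) true (nat_lit 16) true (nat_lit 8) (.e true (nat_lit 1) (nat_lit 138) (nat_lit 6) (nat_lit 12) (.e false (nat_lit 1) (nat_lit 145) (nat_lit 6) (nat_lit 12) (.e false (nat_lit 1) (nat_lit 146) (nat_lit 6) (nat_lit 12) (.e true (nat_lit 1) (nat_lit 154) (nat_lit 6) (nat_lit 12) (.e true (nat_lit 1) (nat_lit 252) (nat_lit 1) (nat_lit 17) (.e true (nat_lit 1) (nat_lit 253) (nat_lit 1) (nat_lit 17) (.e true (nat_lit 1) (nat_lit 254) (nat_lit 1) (nat_lit 17) (.e false (nat_lit 1) (nat_lit 255) (nat_lit 1) (nat_lit 17) (.e true (nat_lit 1) (nat_lit 257) (nat_lit 1) (nat_lit 17) (.e false (nat_lit 2) (nat_lit 258) (nat_lit 1) (nat_lit 17) (.e false (nat_lit 1) (nat_lit 264) (nat_lit 1) (nat_lit 17) (.e true (nat_lit 3) (nat_lit 265) (nat_lit 1) (nat_lit 17) dC2c_i26)))))))))))))) (.nd (.nd (.nd (.nd (.nd .leaf (nat_lit 95244) (nat_lit 1087) (.n (nat_lit 335) (nat_lit 3) (.p (nat_lit 336) (nat_lit 1) (.p (nat_lit 337) (nat_lit 2) (.p (nat_lit 338) (nat_lit 1) (.p (nat_lit 339) (nat_lit 2) (.p (nat_lit 340) (nat_lit 1) (.p (nat_lit 341) (nat_lit 1) (.p (nat_lit 342) (nat_lit 2) (.n (nat_lit 343) (nat_lit 2) (.p (nat_lit 344) (nat_lit 3) (.p (nat_lit 345) (nat_lit 3) (.n (nat_lit 346) (nat_lit 1) (.p (nat_lit 349) (nat_lit 3) (.p (nat_lit 350) (nat_lit 1) (.p (nat_lit 351) (nat_lit 2) (.n (nat_lit 352) (nat_lit 3) (.n (nat_lit 353) (nat_lit 2) (.p (nat_lit 354) (nat_lit 3) (.n (nat_lit 355) (nat_lit 3) (.n (nat_lit 356) (nat_lit 1) (.p (nat_lit 357) (nat_lit 1) (.n (nat_lit 358) (nat_lit 3) (.p (nat_lit 359) (nat_lit 1) (.n (nat_lit 360) (nat_lit 3) (.n (nat_lit 361) (nat_lit 2) (.n (nat_lit 363) (nat_lit 1) (.n (nat_lit 364) (nat_lit 1) (.n (nat_lit 366) (nat_lit 2) (.n (nat_lit 367) (nat_lit 3) (.p (nat_lit 368) (nat_lit 2) (.p (nat_lit 369) (nat_lit 3) (.p (nat_lit 370) (nat_lit 3) (.n (nat_lit 371) (nat_lit 1) (.p (nat_lit 372) (nat_lit 1) (.n (nat_lit 373) (nat_lit 2) (.p (nat_lit 374) (nat_lit 1) (.n (nat_lit 376) (nat_lit 1) (.n (nat_lit 380) (nat_lit 3) (.n (nat_lit 381) (nat_lit 2) (.n (nat_lit 385) (nat_lit 1) (.p (nat_lit 388) (nat_lit 1) (.p (nat_lit 396) (nat_lit 1) .z)))))))))))))))))))))))))))))))))))))))))) (.ct dC2c_c308 (nat_lit 1) (nat_lit 8) (.s true (nat_lit 1) (nat_lit 18) (nat_lit 2) (nat_lit 12) (nat_lit 1) true (nat_lit 12) true (nat_lit 17) true (nat_lit 5) true (nat_lit 16) true (nat_lit 8) (.e true (nat_lit 1) (nat_lit 133) (nat_lit 6) (nat_lit 12) (.e false (nat_lit 1) (nat_lit 135) (nat_lit 6) (nat_lit 12) (.e true (nat_lit 1) (nat_lit 138) (nat_lit 6) (nat_lit 12) (.e true (nat_lit 1) (nat_lit 139) (nat_lit 6) (nat_lit 12) dC2c_i28)))))) .leaf) (nat_lit 95245) (nat_lit 1135) (.n (nat_lit 336) (nat_lit 2) (.p (nat_lit 337) (nat_lit 3) (.n (nat_lit 338) (nat_lit 3) (.n (nat_lit 340) (nat_lit 1) (.n (nat_lit 341) (nat_lit 2) (.p (nat_lit 342) (nat_lit 3) (.n (nat_lit 343) (nat_lit 3) (.n (nat_lit 344) (nat_lit 1) (.n (nat_lit 345) (nat_lit 2) (.n (nat_lit 346) (nat_lit 1) (.p (nat_lit 347) (nat_lit 3) (.p (nat_lit 348) (nat_lit 1) (.p (nat_lit 349) (nat_lit 3) (.p (nat_lit 350) (nat_lit 3) (.n (nat_lit 351) (nat_lit 3) (.p (nat_lit 352) (nat_lit 1) (.n (nat_lit 353) (nat_lit 1) (.p (nat_lit 354) (nat_lit 1) (.n (nat_lit 355) (nat_lit 3) (.n (nat_lit 356) (nat_lit 2) (.p (nat_lit 357) (nat_lit 3) (.p (nat_lit 358) (nat_lit 2) (.n (nat_lit 359) (nat_lit 2) (.p (nat_lit 360) (nat_lit 3) (.p (nat_lit 361) (nat_lit 2) (.p (nat_lit 362) (nat_lit 1) (.p (nat_lit 365) (nat_lit 1) (.n (nat_lit 367) (nat_lit 1) (.p (nat_lit 368) (nat_lit 3) (.p (nat_lit 369) (nat_lit 3) (.p (nat_lit 370) (nat_lit 1) (.n (nat_lit 371) (nat_lit 2) (.n (nat_lit 372) (nat_lit 3) (.p (nat_lit 373) (nat_lit 3) (.n (nat_lit 374) (nat_lit 2) (.n (nat_lit 375) (nat_lit 2) (.n (nat_lit 376) (nat_lit 3) (.p (nat_lit 378) (nat_lit 1) (.p (nat_lit 380) (nat_lit 2) (.n (nat_lit 381) (nat_lit 1) (.n (nat_lit 382) (nat_lit 3) (.p (nat_lit 383) (nat_lit 1) (.n (nat_lit 384) (nat_lit 2) (.n (nat_lit 385) (nat_lit 1) (.n (nat_lit 386) (nat_lit 1) (.p (nat_lit 388) (nat_lit 1) (.p (nat_lit 390) (nat_lit 2) (.p (nat_lit 391) (nat_lit 2) (.n (nat_lit 393) (nat_lit 1) (.p (nat_lit 396) (nat_lit 1) .z)))))))))))))))))))))))))))))))))))))))))))))))))) (.ct dC2c_c308 (nat_lit 1) (nat_lit 8) (.s false (nat_lit 1) (nat_lit 93) (nat_lit 2) (nat_lit 1) (nat_lit 0) true (nat_lit 13) true (nat_lit 18) false (nat_lit 8) true (nat_lit 16) true (nat_lit 17) (.e false (nat_lit 1) (nat_lit 165) (nat_lit 5) (nat_lit 13) (.e false (nat_lit 1) (nat_lit 301) (nat_lit 0) (nat_lit 18) (.e false (nat_lit 3) (nat_lit 205) (nat_lit 2) (nat_lit 16) (.e false (nat_lit 2) (nat_lit 209) (nat_lit 2) (nat_lit 16) (.e true (nat_lit 1) (nat_lit 210) (nat_lit 2) (nat_lit 16) (.e true (nat_lit 2) (nat_lit 211) (nat_lit 2) (nat_lit 16) (.e false (nat_lit 2) (nat_lit 213) (nat_lit 2) (nat_lit 16) (.e true (nat_lit 2) (nat_lit 215) (nat_lit 2) (nat_lit 16) (.e true (nat_lit 3) (nat_lit 216) (nat_lit 2) (nat_lit 16) (.e true (nat_lit 3) (nat_lit 217) (nat_lit 2) (nat_lit 16) (.e false (nat_lit 3) (nat_lit 219) (nat_lit 2) (nat_lit 16) (.e true (nat_lit 3) (nat_lit 221) (nat_lit 2) (nat_lit 16) (.e true (nat_lit 1) (nat_lit 222) (nat_lit 2) (nat_lit 16) (.e false (nat_lit 3) (nat_lit 225) (nat_lit 2) (nat_lit 16) (.e true (nat_lit 3) (nat_lit 227) (nat_lit 2) (nat_lit 16) (.e false (nat_lit 1) (nat_lit 228) (nat_lit 2) (nat_lit 16) (.e false (nat_lit 1) (nat_lit 229) (nat_lit 2) (nat_lit 16) (.e false (nat_lit 1) (nat_lit 238) (nat_lit 2) (nat_lit 16) (.e false (nat_lit 1) (nat_lit 245) (nat_lit 2) (nat_lit 16) (.e true (nat_lit 1) (nat_lit 246) (nat_lit 2) (nat_lit 16) (.e true (nat_lit 1) (nat_lit 247) (nat_lit 2) (nat_lit 16) dC2c_i29))))))))))))))))))))))) .leaf) (nat_lit 95248) (nat_lit 1327) (.n (nat_lit 397) (nat_lit 3) (.n (nat_lit 398) (nat_lit 3) (.n (nat_lit 400) (nat_lit 2) (.p (nat_lit 401) (nat_lit 2) (.p (nat_lit 402) (nat_lit 2) (.n (nat_lit 403) (nat_lit 3) (.n (nat_lit 404) (nat_lit 3) (.n (nat_lit 405) (nat_lit 1) (.p (nat_lit 406) (nat_lit 2) (.p (nat_lit 407) (nat_lit 3) (.n (nat_lit 408) (nat_lit 1) (.p (nat_lit 409) (nat_lit 2) (.p (nat_lit 410) (nat_lit 1) (.n (nat_lit 411) (nat_lit 1) (.n (nat_lit 412) (nat_lit 2) (.n (nat_lit 413) (nat_lit 2) (.p (nat_lit 414) (nat_lit 1) (.n (nat_lit 416) (nat_lit 2) (.p (nat_lit 418) (nat_lit 2) (.p (nat_lit 420) (nat_lit 2) (.p (nat_lit 421) (nat_lit 3) (.p (nat_lit 430) (nat_lit 1) (.p (nat_lit 431) (nat_lit 3) (.p (nat_lit 432) (nat_lit 1) (.n (nat_lit 435) (nat_lit 1) .z))))))))))))))))))))))))) (.ct dC2c_c293 (nat_lit 1) (nat_lit 5) (.s true (nat_lit 3) (nat_lit 20) (nat_lit 16) (nat_lit 1) (nat_lit 1) true (nat_lit 1) true (nat_lit 15) true (nat_lit 3) true (nat_lit 5) true (nat_lit 15) (.e false (nat_lit 3) (nat_lit 47) (nat_lit 36) (nat_lit 1) (.e true (nat_lit 3) (nat_lit 305) (nat_lit 1) (nat_lit 15) dC2c_i30)))) (.nd (.nd .leaf (nat_lit 95249) (nat_lit 1312) (.p (nat_lit 397) (nat_lit 1) (.p (nat_lit 398) (nat_lit 2) (.n (nat_lit 399) (nat_lit 1) (.n (nat_lit 401) (nat_lit 3) (.n (nat_lit 402) (nat_lit 2) (.n (nat_lit 403) (nat_lit 1) (.p (nat_lit 404) (nat_lit 1) (.p (nat_lit 405) (nat_lit 1) (.p (nat_lit 406) (nat_lit 1) (.n (nat_lit 407) (nat_lit 2) (.n (nat_lit 408) (nat_lit 2) (.n (nat_lit 409) (nat_lit 3) (.n (nat_lit 410) (nat_lit 1) (.p (nat_lit 411) (nat_lit 2) (.n (nat_lit 414) (nat_lit 1) (.n (nat_lit 415) (nat_lit 2) (.n (nat_lit 416) (nat_lit 3) (.n (nat_lit 420) (nat_lit 3) (.p (nat_lit 430) (nat_lit 2) (.n (nat_lit 431) (nat_lit 2) (.p (nat_lit 432) (nat_lit 1) (.n (nat_lit 435) (nat_lit 1) .z)))))))))))))))))))))) (.ct dC2c_c293 (nat_lit 1) (nat_lit 5) (.s true (nat_lit 3) (nat_lit 20) (nat_lit 17) (nat_lit 1) (nat_lit 1) true (nat_lit 1) true (nat_lit 15) true (nat_lit 3) true (nat_lit 5) true (nat_lit 15) (.e false (nat_lit 3) (nat_lit 47) (nat_lit 37) (nat_lit 1) (.e true (nat_lit 2) (nat_lit 305) (nat_lit 1) (nat_lit 15) (.e true (nat_lit 1) (nat_lit 307) (nat_lit 1) (nat_lit 15) dC2c_i31))))) .leaf) (nat_lit 95250) (nat_lit 1421) (.p (nat_lit 436) (nat_lit 1) (.n (nat_lit 437) (nat_lit 1) (.n (nat_lit 438) (nat_lit 2) (.n (nat_lit 439) (nat_lit 2) (.p (nat_lit 440) (nat_lit 3) (.p (nat_lit 441) (nat_lit 3) (.n (nat_lit 442) (nat_lit 2) (.n (nat_lit 443) (nat_lit 2) (.n (nat_lit 444) (nat_lit 1) (.p (nat_lit 447) (nat_lit 2) (.n (nat_lit 448) (nat_lit 2) (.n (nat_lit 450) (nat_lit 3) .z)))))))))))) (.ct dC2c_c53 (nat_lit 1) (nat_lit 3) (.s false (nat_lit 1) (nat_lit 93) (nat_lit 2) (nat_lit 1) (nat_lit 2) true (nat_lit 6) true (nat_lit 9) false (nat_lit 3) true (nat_lit 9) true (nat_lit 10) (.e false (nat_lit 1) (nat_lit 165) (nat_lit 7) (nat_lit 6) (.e true (nat_lit 1) (nat_lit 301) (nat_lit 2) (nat_lit 9) (.e true (nat_lit 1) (nat_lit 289) (nat_lit 2) (nat_lit 9) (.e false (nat_lit 3) (nat_lit 290) (nat_lit 2) (nat_lit 9) (.e true (nat_lit 2) (nat_lit 291) (nat_lit 2) (nat_lit 9) (.e true (nat_lit 3) (nat_lit 292) (nat_lit 2) (nat_lit 9) (.e false (nat_lit 1) (nat_lit 293) (nat_lit 2) (nat_lit 9) (.e true (nat_lit 1) (nat_lit 294) (nat_lit 2) (nat_lit 9) (.e false (nat_lit 1) (nat_lit 295) (nat_lit 2) (nat_lit 9) (.e false (nat_lit 1) (nat_lit 296) (nat_lit 2) (nat_lit 9) (.e true (nat_lit 2) (nat_lit 297) (nat_lit 2) (nat_lit 9) (.e true (nat_lit 2) (nat_lit 298) (nat_lit 2) (nat_lit 9) (.e false (nat_lit 1) (nat_lit 299) (nat_lit 2) (nat_lit 9) (.e false (nat_lit 1) (nat_lit 300) (nat_lit 2) (nat_lit 9) (.e false (nat_lit 1) (nat_lit 303) (nat_lit 2) (nat_lit 9) (.e true (nat_lit 2) (nat_lit 304) (nat_lit 2) (nat_lit 9) (.e true (nat_lit 1) (nat_lit 326) (nat_lit 1) (nat_lit 10) (.u (nat_lit 2) (.n (nat_lit 4) (nat_lit 1) (.p (nat_lit 6) (nat_lit 1) (.n (nat_lit 8) (nat_lit 1) (.p (nat_lit 9) (nat_lit 1) (.n (nat_lit 11) (nat_lit 1) (.p (nat_lit 12) (nat_lit 1) (.p (nat_lit 14) (nat_lit 1) .z))))))) .nil)))))))))))))))))))) .leaf)) (nat_lit 95251) (nat_lit 1450) (.n (nat_lit 436) (nat_lit 1) (.n (nat_lit 437) (nat_lit 1) (.n (nat_lit 438) (nat_lit 2) (.p (nat_lit 439) (nat_lit 1) (.p (nat_lit 440) (nat_lit 2) (.n (nat_lit 441) (nat_lit 3) (.p (nat_lit 442) (nat_lit 3) (.n (nat_lit 443) (nat_lit 2) (.p (nat_lit 444) (nat_lit 1) (.p (nat_lit 447) (nat_lit 1) .z)))))))))) (.ct dC2c_c53 (nat_lit 1) (nat_lit 3) (.s true (nat_lit 3) (nat_lit 20) (nat_lit 7) (nat_lit 4) (nat_lit 1) true (nat_lit 3) true (nat_lit 10) true (nat_lit 2) true (nat_lit 6) true (nat_lit 8) (.e false (nat_lit 1) (nat_lit 92) (nat_lit 19) (nat_lit 3) (.e true (nat_lit 3) (nat_lit 96) (nat_lit 19) (nat_lit 3) (.e false (nat_lit 2) (nat_lit 78) (nat_lit 20) (nat_lit 2) (.e true (nat_lit 1) (nat_lit 74) (nat_lit 20) (nat_lit 2) (.e true (nat_lit 1) (nat_lit 75) (nat_lit 20) (nat_lit 2) (.e true (nat_lit 2) (nat_lit 76) (nat_lit 20) (nat_lit 2) (.e false (nat_lit 2) (nat_lit 77) (nat_lit 20) (nat_lit 2) (.e true (nat_lit 2) (nat_lit 79) (nat_lit 20) (nat_lit 2) (.e true (nat_lit 3) (nat_lit 163) (nat_lit 7) (nat_lit 6) (.e false (nat_lit 3) (nat_lit 167) (nat_lit 7) (nat_lit 6) (.e false (nat_lit 3) (nat_lit 204) (nat_lit 4) (nat_lit 8) (.u (nat_lit 2) (.p (nat_lit 0) (nat_lit 2) (.n (nat_lit 2) (nat_lit 1) (.n (nat_lit 3) (nat_lit 1) (.n (nat_lit 6) (nat_lit 2) (.p (nat_lit 7) (nat_lit 1) (.n (nat_lit 8) (nat_lit 3) (.p (nat_lit 11) (nat_lit 1) (.n (nat_lit 12) (nat_lit 1) (.n (nat_lit 14) (nat_lit 1) (.p (nat_lit 27) (nat_lit 1) (.p (nat_lit 28) (nat_lit 1) (.p (nat_lit 29) (nat_lit 2) (.n (nat_lit 30) (nat_lit 2) (.n (nat_lit 31) (nat_lit 2) (.p (nat_lit 32) (nat_lit 2) (.n (nat_lit 40) (nat_lit 1) (.p (nat_lit 41) (nat_lit 1) .z))))))))))))))))) .nil)))))))))))))) (.nd (.nd (.nd .leaf (nat_lit 96256) (nat_lit 283) (.n (nat_lit 132) (nat_lit 3) (.p (nat_lit 133) (nat_lit 1) (.n (nat_lit 134) (nat_lit 2) (.n (nat_lit 135) (nat_lit 2) (.p (nat_lit 136) (nat_lit 1) (.p (nat_lit 137) (nat_lit 3) (.n (nat_lit 139) (nat_lit 3) (.p (nat_lit 140) (nat_lit 3) (.p (nat_lit 141) (nat_lit 3) (.p (nat_lit 142) (nat_lit 1) (.p (nat_lit 143) (nat_lit 2) (.n (nat_lit 145) (nat_lit 2) (.n (nat_lit 147) (nat_lit 3) (.n (nat_lit 148) (nat_lit 1) (.n (nat_lit 149) (nat_lit 1) (.p (nat_lit 150) (nat_lit 2) (.p (nat_lit 151) (nat_lit 3) (.p (nat_lit 152) (nat_lit 1) (.p (nat_lit 153) (nat_lit 2) (.p (nat_lit 154) (nat_lit 3) (.p (nat_lit 155) (nat_lit 2) (.n (nat_lit 156) (nat_lit 2) (.n (nat_lit 157) (nat_lit 2) .z))))))))))))))))))))))) (.ct dC2c_c291 (nat_lit 1) (nat_lit 10) (.s true (nat_lit 1) (nat_lit 18) (nat_lit 2) (nat_lit 1) (nat_lit 0) true (nat_lit 5) true (nat_lit 10) false (nat_lit 1) true (nat_lit 8) true (nat_lit 9) (.e true (nat_lit 1) (nat_lit 41) (nat_lit 5) (nat_lit 5) (.e false (nat_lit 1) (nat_lit 18) (nat_lit 13) (nat_lit 1) (.e false (nat_lit 1) (nat_lit 61) (nat_lit 2) (nat_lit 8) (.e true (nat_lit 1) (nat_lit 63) (nat_lit 2) (nat_lit 8) (.e false (nat_lit 1) (nat_lit 65) (nat_lit 2) (nat_lit 8) (.e false (nat_lit 1) (nat_lit 66) (nat_lit 2) (nat_lit 8) (.e true (nat_lit 1) (nat_lit 72) (nat_lit 2) (nat_lit 8) (.e false (nat_lit 1) (nat_lit 85) (nat_lit 1) (nat_lit 9) (.u (nat_lit 2) (.p (nat_lit 2) (nat_lit 1) (.n (nat_lit 3) (nat_lit 1) (.n (nat_lit 4) (nat_lit 1) (.p (nat_lit 6) (nat_lit 1) (.n (nat_lit 9) (nat_lit 1) (.n (nat_lit 12) (nat_lit 1) (.n (nat_lit 18) (nat_lit 1) (.n (nat_lit 19) (nat_lit 1) (.n (nat_lit 20) (nat_lit 1) (.n (nat_lit 21) (nat_lit 1) (.n (nat_lit 22) (nat_lit 1) (.n (nat_lit 23) (nat_lit 1) (.p (nat_lit 24) (nat_lit 1) (.p (nat_lit 25) (nat_lit 1) .z)))))))))))))) .nil))))))))))) .leaf) (nat_lit 96257) (nat_lit 304) (.p (nat_lit 160) (nat_lit 1) (.n (nat_lit 162) (nat_lit 1) (.p (nat_lit 165) (nat_lit 1) .z))) (.ct dC2c_c51 (nat_lit 1) (nat_lit 6) (.s true (nat_lit 1) (nat_lit 18) (nat_lit 2) (nat_lit 1) (nat_lit 1) true (nat_lit 3) true (nat_lit 6) false (nat_lit 0) true (nat_lit 5) true (nat_lit 6) (.e true (nat_lit 1) (nat_lit 41) (nat_lit 6) (nat_lit 3) (.e false (nat_lit 1) (nat_lit 18) (nat_lit 15) (nat_lit 0) (.e true (nat_lit 1) (nat_lit 74) (nat_lit 2) (nat_lit 5) (.e false (nat_lit 1) (nat_lit 77) (nat_lit 2) (nat_lit 5) (.e true (nat_lit 1) (nat_lit 79) (nat_lit 2) (nat_lit 5) (.e false (nat_lit 1) (nat_lit 93) (nat_lit 1) (nat_lit 6) .nil)))))))) .leaf) (nat_lit 96258) (nat_lit 358) (.p (nat_lit 188) (nat_lit 1) .z) .df (.nd .leaf (nat_lit 96259) (nat_lit 491) (.n (nat_lit 205) (nat_lit 1) (.p (nat_lit 206) (nat_lit 1) (.n (nat_lit 207) (nat_lit 2) (.n (nat_lit 209) (nat_lit 2) (.n (nat_lit 210) (nat_lit 1) (.n (nat_lit 211) (nat_lit 3) (.p (nat_lit 213) (nat_lit 2) (.p (nat_lit 214) (nat_lit 1) (.p (nat_lit 215) (nat_lit 1) (.p (nat_lit 216) (nat_lit 3) (.p (nat_lit 217) (nat_lit 2) (.p (nat_lit 218) (nat_lit 1) (.n (nat_lit 220) (nat_lit 1) (.p (nat_lit 221) (nat_lit 1) (.p (nat_lit 225) (nat_lit 1) (.p (nat_lit 227) (nat_lit 2) (.n (nat_lit 228) (nat_lit 3) (.p (nat_lit 229) (nat_lit 1) (.p (nat_lit 231) (nat_lit 2) (.p (nat_lit 233) (nat_lit 1) (.n (nat_lit 235) (nat_lit 1) (.n (nat_lit 238) (nat_lit 1) (.p (nat_lit 245) (nat_lit 2) (.p (nat_lit 246) (nat_lit 3) (.p (nat_lit 247) (nat_lit 3) (.n (nat_lit 248) (nat_lit 3) (.p (nat_lit 251) (nat_lit 2) .z))))))))))))))))))))))))))) (.ct dC2c_c307 (nat_lit 1) (nat_lit 11) (.s true (nat_lit 1) (nat_lit 18) (nat_lit 2) (nat_lit 1) (nat_lit 3) true (nat_lit 4) true (nat_lit 11) true (nat_lit 1) true (nat_lit 12) true (nat_lit 13) (.e true (nat_lit 1) (nat_lit 41) (nat_lit 11) (nat_lit 4) (.e true (nat_lit 1) (nat_lit 25) (nat_lit 18) (nat_lit 1) (.e true (nat_lit 1) (nat_lit 26) (nat_lit 18) (nat_lit 1) (.e false (nat_lit 1) (nat_lit 27) (nat_lit 18) (nat_lit 1) (.e true (nat_lit 1) (nat_lit 29) (nat_lit 18) (nat_lit 1) (.e true (nat_lit 1) (nat_lit 109) (nat_lit 2) (nat_lit 12) (.e false (nat_lit 1) (nat_lit 116) (nat_lit 2) (nat_lit 12) (.e false (nat_lit 1) (nat_lit 117) (nat_lit 2) (nat_lit 12) (.e true (nat_lit 1) (nat_lit 128) (nat_lit 2) (nat_lit 12) (.e true (nat_lit 1) (nat_lit 133) (nat_lit 1) (nat_lit 13) (.e false (nat_lit 1) (nat_lit 135) (nat_lit 1) (nat_lit 13) (.e true (nat_lit 1) (nat_lit 137) (nat_lit 1) (nat_lit 13) (.e true (nat_lit 1) (nat_lit 138) (nat_lit 1) (nat_lit 13) (.e false (nat_lit 1) (nat_lit 144) (nat_lit 1) (nat_lit 13) (.u (nat_lit 2) (.n (nat_lit 0) (nat_lit 1) (.p (nat_lit 2) (nat_lit 1) (.p (nat_lit 3) (nat_lit 1) (.p (nat_lit 6) (nat_lit 1) (.n (nat_lit 8) (nat_lit 1) (.n (nat_lit 13) (nat_lit 1) (.n (nat_lit 14) (nat_lit 1) (.p (nat_lit 16) (nat_lit 1) (.n (nat_lit 17) (nat_lit 1) (.p (nat_lit 21) (nat_lit 1) (.n (nat_lit 22) (nat_lit 1) (.p (nat_lit 24) (nat_lit 1) (.p (nat_lit 25) (nat_lit 1) (.p (nat_lit 43) (nat_lit 1) .z)))))))))))))) .nil))))))))))))))))) .leaf))) (nat_lit 96261) (nat_lit 669) (.n (nat_lit 252) (nat_lit 2) (.n (nat_lit 253) (nat_lit 2) (.n (nat_lit 254) (nat_lit 3) (.n (nat_lit 255) (nat_lit 2) (.n (nat_lit 256) (nat_lit 1) (.p (nat_lit 258) (nat_lit 1) (.p (nat_lit 259) (nat_lit 3) (.p (nat_lit 260) (nat_lit 3) (.n (nat_lit 261) (nat_lit 2) (.p (nat_lit 262) (nat_lit 3) (.p (nat_lit 263) (nat_lit 3) (.n (nat_lit 264) (nat_lit 3) (.n (nat_lit 265) (nat_lit 2) (.n (nat_lit 266) (nat_lit 2) (.n (nat_lit 267) (nat_lit 3) (.p (nat_lit 269) (nat_lit 1) (.p (nat_lit 270) (nat_lit 2) (.p (nat_lit 271) (nat_lit 1) (.n (nat_lit 272) (nat_lit 2) (.p (nat_lit 274) (nat_lit 3) (.p (nat_lit 275) (nat_lit 2) (.n (nat_lit 276) (nat_lit 1) (.p (nat_lit 279) (nat_lit 2) (.p (nat_lit 280) (nat_lit 1) (.n (nat_lit 281) (nat_lit 1) (.n (nat_lit 282) (nat_lit 1) (.n (nat_lit 286) (nat_lit 1) .z))))))))))))))))))))))))))) (.ct dC2c_c292 (nat_lit 1) (nat_lit 8) (.s true (nat_lit 1) (nat_lit 18) (nat_lit 2) (nat_lit 1) (nat_lit 5) true (nat_lit 2) true (nat_lit 8) true (nat_lit 1) true (nat_lit 11) true (nat_lit 12) (.e true (nat_lit 1) (nat_lit 41) (nat_lit 16) (nat_lit 2) (.e false (nat_lit 1) (nat_lit 33) (nat_lit 18) (nat_lit 1) (.e true (nat_lit 1) (nat_lit 34) (nat_lit 18) (nat_lit 1) (.e true (nat_lit 1) (nat_lit 37) (nat_lit 18) (nat_lit 1) (.e true (nat_lit 1) (nat_lit 38) (nat_lit 18) (nat_lit 1) (.e true (nat_lit 1) (nat_lit 133) (nat_lit 2) (nat_lit 11) (.e false (nat_lit 1) (nat_lit 135) (nat_lit 2) (nat_lit 11) (.e true (nat_lit 1) (nat_lit 138) (nat_lit 2) (nat_lit 11) (.e true (nat_lit 1) (nat_lit 139) (nat_lit 2) (nat_lit 11) (.e false (nat_lit 1) (nat_lit 140) (nat_lit 2) (nat_lit 11) (.e false (nat_lit 1) (nat_lit 144) (nat_lit 2) (nat_lit 11) (.e false (nat_lit 1) (nat_lit 147) (nat_lit 2) (nat_lit 11) (.e true (nat_lit 1) (nat_lit 155) (nat_lit 2) (nat_lit 11) (.e false (nat_lit 1) (nat_lit 169) (nat_lit 1) (nat_lit 12) (.e true (nat_lit 1) (nat_lit 170) (nat_lit 1) (nat_lit 12) (.e false (nat_lit 1) (nat_lit 172) (nat_lit 1) (nat_lit 12) (.e true (nat_lit 1) (nat_lit 173) (nat_lit 1) (nat_lit 12) (.e true (nat_lit 1) (nat_lit 174) (nat_lit 1) (nat_lit 12) (.e true (nat_lit 1) (nat_lit 175) (nat_lit 1) (nat_lit 12) (.e false (nat_lit 1) (nat_lit 178) (nat_lit 1) (nat_lit 12) (.u (nat_lit 2) (.n (nat_lit 1) (nat_lit 1) (.p (nat_lit 3) (nat_lit 1) (.n (nat_lit 4) (nat_lit 1) (.n (nat_lit 6) (nat_lit 2) (.p (nat_lit 9) (nat_lit 1) (.n (nat_lit 11) (nat_lit 1) (.p (nat_lit 13) (nat_lit 2) (.n (nat_lit 14) (nat_lit 1) (.p (nat_lit 15) (nat_lit 1) (.p (nat_lit 17) (nat_lit 1) (.n (nat_lit 18) (nat_lit 1) (.p (nat_lit 23) (nat_lit 1) (.n (nat_lit 31) (nat_lit 1) (.p (nat_lit 33) (nat_lit 1) .z)))))))))))))) .nil))))))))))))))))))))))) (.nd (.nd (.nd (.nd .leaf (nat_lit 96262) (nat_lit 713) (.p (nat_lit 289) (nat_lit 3) (.n (nat_lit 290) (nat_lit 3) (.n (nat_lit 291) (nat_lit 2) (.p (nat_lit 292) (nat_lit 1) (.p (nat_lit 293) (nat_lit 1) (.p (nat_lit 294) (nat_lit 3) (.n (nat_lit 295) (nat_lit 2) (.p (nat_lit 296) (nat_lit 2) (.p (nat_lit 297) (nat_lit 1) (.n (nat_lit 298) (nat_lit 2) (.n (nat_lit 299) (nat_lit 1) (.n (nat_lit 300) (nat_lit 1) (.p (nat_lit 301) (nat_lit 1) (.p (nat_lit 302) (nat_lit 1) (.p (nat_lit 303) (nat_lit 2) (.n (nat_lit 304) (nat_lit 1) .z)))))))))))))))) (.ct dC2c_c52 (nat_lit 1) (nat_lit 5) (.s false (nat_lit 2) (nat_lit 7) (nat_lit 1) (nat_lit 7) (nat_lit 4) true (nat_lit 3) true (nat_lit 6) true (nat_lit 4) true (nat_lit 8) true (nat_lit 4) (.s true (nat_lit 2) (nat_lit 7) (nat_lit 4) (nat_lit 6) (nat_lit 2) true (nat_lit 2) true (nat_lit 7) true (nat_lit 4) true (nat_lit 6) true (nat_lit 5) (.s false (nat_lit 3) (nat_lit 7) (nat_lit 6) (nat_lit 4) (nat_lit 2) true (nat_lit 1) true (nat_lit 7) true (nat_lit 4) true (nat_lit 5) true (nat_lit 6) (.s false (nat_lit 1) (nat_lit 15) (nat_lit 2) (nat_lit 6) (nat_lit 2) true (nat_lit 4) true (nat_lit 7) true (nat_lit 2) true (nat_lit 7) true (nat_lit 5) (.s true (nat_lit 1) (nat_lit 14) (nat_lit 2) (nat_lit 7) (nat_lit 1) true (nat_lit 5) true (nat_lit 8) true (nat_lit 2) true (nat_lit 7) true (nat_lit 4) (.s true (nat_lit 2) (nat_lit 14) (nat_lit 6) (nat_lit 2) (nat_lit 2) true (nat_lit 1) true (nat_lit 7) true (nat_lit 2) true (nat_lit 5) true (nat_lit 7) (.s false (nat_lit 3) (nat_lit 15) (nat_lit 6) (nat_lit 2) (nat_lit 2) true (nat_lit 1) true (nat_lit 7) true (nat_lit 2) true (nat_lit 5) true (nat_lit 7) (.s false (nat_lit 3) (nat_lit 18) (nat_lit 2) (nat_lit 1) (nat_lit 6) true (nat_lit 1) true (nat_lit 5) true (nat_lit 1) true (nat_lit 7) true (nat_lit 8) (.s true (nat_lit 2) (nat_lit 19) (nat_lit 2) (nat_lit 1) (nat_lit 6) true (nat_lit 1) true (nat_lit 5) true (nat_lit 1) true (nat_lit 7) true (nat_lit 8) (.s false (nat_lit 2) (nat_lit 19) (nat_lit 2) (nat_lit 2) (nat_lit 4) true (nat_lit 2) true (nat_lit 6) true (nat_lit 1) true (nat_lit 7) true (nat_lit 7) (.s true (nat_lit 3) (nat_lit 19) (nat_lit 2) (nat_lit 4) (nat_lit 2) true (nat_lit 4) true (nat_lit 7) true (nat_lit 1) true (nat_lit 7) true (nat_lit 6) (.s true (nat_lit 2) (nat_lit 18) (nat_lit 4) (nat_lit 2) (nat_lit 2) true (nat_lit 2) true (nat_lit 7) true (nat_lit 1) true (nat_lit 6) true (nat_lit 7) (.s false (nat_lit 2) (nat_lit 18) (nat_lit 6) (nat_lit 2) (nat_lit 1) true (nat_lit 2) true (nat_lit 8) true (nat_lit 1) true (nat_lit 5) true (nat_lit 7) (.s true (nat_lit 3) (nat_lit 19) (nat_lit 7) (nat_lit 1) (nat_lit 1) true (nat_lit 1) true (nat_lit 8) true (nat_lit 1) true (nat_lit 4) true (nat_lit 8) (.s false (nat_lit 2) (nat_lit 20) (nat_lit 1) (nat_lit 4) (nat_lit 2) true (nat_lit 5) true (nat_lit 7) true (nat_lit 0) true (nat_lit 8) true (nat_lit 6) (.s true (nat_lit 1) (nat_lit 20) (nat_lit 2) (nat_lit 1) (nat_lit 4) true (nat_lit 2) true (nat_lit 6) true (nat_lit 0) true (nat_lit 7) true (nat_lit 8) (.s true (nat_lit 2) (nat_lit 39) (nat_lit 1) (nat_lit 2) (nat_lit 2) true (nat_lit 5) true (nat_lit 7) false (nat_lit 1) true (nat_lit 8) true (nat_lit 7) (.s false (nat_lit 3) (nat_lit 39) (nat_lit 2) (nat_lit 2) (nat_lit 1) true (nat_lit 5) true (nat_lit 8) false (nat_lit 1) true (nat_lit 7) true (nat_lit 7) dC2c_i32))))))))))))))))))) .leaf) (nat_lit 96263) (nat_lit 844) (.n (nat_lit 324) (nat_lit 1) (.n (nat_lit 325) (nat_lit 3) (.n (nat_lit 326) (nat_lit 1) (.n (nat_lit 328) (nat_lit 2) (.p (nat_lit 329) (nat_lit 1) (.n (nat_lit 330) (nat_lit 1) (.p (nat_lit 333) (nat_lit 1) (.p (nat_lit 334) (nat_lit 1) .z)))))))) (.ct dC2c_c37 (nat_lit 1) (nat_lit 3) (.s true (nat_lit 1) (nat_lit 45) (nat_lit 2) (nat_lit 1) (nat_lit 2) true (nat_lit 3) true (nat_lit 6) false (nat_lit 1) true (nat_lit 6) true (nat_lit 7) (.e true (nat_lit 2) (nat_lit 191) (nat_lit 2) (nat_lit 6) (.e false (nat_lit 1) (nat_lit 45) (nat_lit 18) (nat_lit 1) (.e false (nat_lit 2) (nat_lit 185) (nat_lit 2) (nat_lit 6) (.e false (nat_lit 2) (nat_lit 186) (nat_lit 2) (nat_lit 6) (.e true (nat_lit 1) (nat_lit 187) (nat_lit 2) (nat_lit 6) (.e false (nat_lit 3) (nat_lit 188) (nat_lit 2) (nat_lit 6) (.e false (nat_lit 1) (nat_lit 189) (nat_lit 2) (nat_lit 6) (.e true (nat_lit 3) (nat_lit 190) (nat_lit 2) (nat_lit 6) (.e true (nat_lit 1) (nat_lit 192) (nat_lit 2) (nat_lit 6) (.e false (nat_lit 2) (nat_lit 193) (nat_lit 2) (nat_lit 6) (.e false (nat_lit 1) (nat_lit 194) (nat_lit 2) (nat_lit 6) (.e false (nat_lit 1) (nat_lit 200) (nat_lit 1) (nat_lit 7) (.u (nat_lit 2) (.p (nat_lit 1) (nat_lit 1) (.p (nat_lit 2) (nat_lit 1) (.p (nat_lit 4) (nat_lit 1) (.p (nat_lit 6) (nat_lit 1) (.n (nat_lit 7) (nat_lit 1) .z))))) .nil))))))))))))))) .leaf) (nat_lit 96267) (nat_lit 1010) (.n (nat_lit 335) (nat_lit 1) (.n (nat_lit 336) (nat_lit 2) (.p (nat_lit 337) (nat_lit 3) (.p (nat_lit 338) (nat_lit 1) (.p (nat_lit 339) (nat_lit 2) (.n (nat_lit 340) (nat_lit 2) (.p (nat_lit 341) (nat_lit 3) (.p (nat_lit 342) (nat_lit 3) (.n (nat_lit 344) (nat_lit 1) (.p (nat_lit 346) (nat_lit 3) (.p (nat_lit 347) (nat_lit 3) (.p (nat_lit 349) (nat_lit 1) (.n (nat_lit 350) (nat_lit 3) (.n (nat_lit 351) (nat_lit 3) (.p (nat_lit 352) (nat_lit 3) (.n (nat_lit 353) (nat_lit 1) (.n (nat_lit 354) (nat_lit 2) (.p (nat_lit 356) (nat_lit 2) (.n (nat_lit 357) (nat_lit 2) (.n (nat_lit 358) (nat_lit 1) (.n (nat_lit 359) (nat_lit 1) (.p (nat_lit 360) (nat_lit 3) (.n (nat_lit 361) (nat_lit 3) (.n (nat_lit 362) (nat_lit 2) (.p (nat_lit 364) (nat_lit 1) (.p (nat_lit 366) (nat_lit 2) (.p (nat_lit 367) (nat_lit 3) (.p (nat_lit 368) (nat_lit 1) (.p (nat_lit 369) (nat_lit 2) (.p (nat_lit 370) (nat_lit 2) (.n (nat_lit 371) (nat_lit 3) (.n (nat_lit 373) (nat_lit 1) (.n (nat_lit 374) (nat_lit 2) (.p (nat_lit 375) (nat_lit 1) (.p (nat_lit 380) (nat_lit 3) (.p (nat_lit 381) (nat_lit 2) (.n (nat_lit 382) (nat_lit 2) (.p (nat_lit 383) (nat_lit 1) (.p (nat_lit 384) (nat_lit 1) (.p (nat_lit 386) (nat_lit 1) (.n (nat_lit 391) (nat_lit 1) .z))))))))))))))))))))))))))))))))))))))))) (.ct dC2c_c308 (nat_lit 1) (nat_lit 8) (.s true (nat_lit 1) (nat_lit 18) (nat_lit 2) (nat_lit 1) (nat_lit 11) true (nat_lit 0) true (nat_lit 8) true (nat_lit 5) true (nat_lit 16) true (nat_lit 17) dC2c_i33)) (.nd (.nd .leaf (nat_lit 96268) (nat_lit 1086) (.p (nat_lit 336) (nat_lit 3) (.n (nat_lit 337) (nat_lit 1) (.n (nat_lit 338) (nat_lit 2) (.p (nat_lit 339) (nat_lit 3) (.p (nat_lit 340) (nat_lit 3) (.p (nat_lit 341) (nat_lit 1) (.n (nat_lit 342) (nat_lit 1) (.n (nat_lit 343) (nat_lit 3) (.p (nat_lit 345) (nat_lit 1) (.p (nat_lit 346) (nat_lit 3) (.p (nat_lit 347) (nat_lit 1) (.n (nat_lit 350) (nat_lit 2) (.p (nat_lit 351) (nat_lit 3) (.n (nat_lit 352) (nat_lit 2) (.n (nat_lit 354) (nat_lit 1) (.n (nat_lit 355) (nat_lit 2) (.n (nat_lit 357) (nat_lit 1) (.p (nat_lit 358) (nat_lit 3) (.n (nat_lit 359) (nat_lit 1) (.n (nat_lit 360) (nat_lit 2) (.n (nat_lit 361) (nat_lit 3) (.n (nat_lit 362) (nat_lit 3) (.p (nat_lit 363) (nat_lit 2) (.p (nat_lit 366) (nat_lit 1) (.n (nat_lit 367) (nat_lit 3) (.p (nat_lit 368) (nat_lit 3) (.p (nat_lit 369) (nat_lit 3) (.n (nat_lit 370) (nat_lit 3) (.n (nat_lit 371) (nat_lit 2) (.n (nat_lit 372) (nat_lit 3) (.n (nat_lit 373) (nat_lit 3) (.p (nat_lit 374) (nat_lit 2) (.p (nat_lit 376) (nat_lit 1) (.p (nat_lit 380) (nat_lit 2) (.n (nat_lit 381) (nat_lit 1) (.p (nat_lit 382) (nat_lit 2) (.n (nat_lit 383) (nat_lit 1) (.p (nat_lit 385) (nat_lit 1) (.p (nat_lit 387) (nat_lit 1) (.n (nat_lit 392) (nat_lit 1) .z)))))))))))))))))))))))))))))))))))))))) (.ct dC2c_c308 (nat_lit 1) (nat_lit 8) (.s true (nat_lit 1) (nat_lit 18) (nat_lit 2) (nat_lit 1) (nat_lit 12) true (nat_lit 0) true (nat_lit 8) true (nat_lit 5) true (nat_lit 16) true (nat_lit 17) (.e false (nat_lit 1) (nat_lit 41) (nat_lit 34) (nat_lit 0) (.e true (nat_lit 1) (nat_lit 61) (nat_lit 18) (nat_lit 5) (.e false (nat_lit 1) (nat_lit 63) (nat_lit 18) (nat_lit 5) (.e true (nat_lit 1) (nat_lit 66) (nat_lit 18) (nat_lit 5) (.e false (nat_lit 1) (nat_lit 68) (nat_lit 18) (nat_lit 5) (.e false (nat_lit 1) (nat_lit 72) (nat_lit 18) (nat_lit 5) (.e true (nat_lit 2) (nat_lit 205) (nat_lit 2) (nat_lit 16) (.e false (nat_lit 3) (nat_lit 206) (nat_lit 2) (nat_lit 16) (.e false (nat_lit 3) (nat_lit 207) (nat_lit 2) (nat_lit 16) (.e false (nat_lit 1) (nat_lit 208) (nat_lit 2) (nat_lit 16) (.e true (nat_lit 2) (nat_lit 209) (nat_lit 2) (nat_lit 16) (.e false (nat_lit 1) (nat_lit 210) (nat_lit 2) (nat_lit 16) (.e true (nat_lit 1) (nat_lit 211) (nat_lit 2) (nat_lit 16) dC2c_i34))))))))))))))) .leaf) (nat_lit 96269) (nat_lit 1125) (.p (nat_lit 335) (nat_lit 2) (.n (nat_lit 336) (nat_lit 3) (.p (nat_lit 337) (nat_lit 1) (.n (nat_lit 340) (nat_lit 3) (.p (nat_lit 341) (nat_lit 3) (.p (nat_lit 342) (nat_lit 3) (.n (nat_lit 345) (nat_lit 2) (.p (nat_lit 346) (nat_lit 3) (.n (nat_lit 349) (nat_lit 2) (.n (nat_lit 350) (nat_lit 1) (.p (nat_lit 351) (nat_lit 3) (.n (nat_lit 352) (nat_lit 3) (.n (nat_lit 353) (nat_lit 3) (.p (nat_lit 354) (nat_lit 1) (.p (nat_lit 355) (nat_lit 1) (.n (nat_lit 357) (nat_lit 1) (.p (nat_lit 358) (nat_lit 1) (.p (nat_lit 359) (nat_lit 3) (.n (nat_lit 360) (nat_lit 3) (.p (nat_lit 361) (nat_lit 3) (.p (nat_lit 362) (nat_lit 3) (.p (nat_lit 363) (nat_lit 3) (.n (nat_lit 366) (nat_lit 2) (.n (nat_lit 367) (nat_lit 3) (.p (nat_lit 368) (nat_lit 3) (.n (nat_lit 369) (nat_lit 1) (.p (nat_lit 370) (nat_lit 1) (.p (nat_lit 371) (nat_lit 2) (.n (nat_lit 372) (nat_lit 2) (.n (nat_lit 373) (nat_lit 3) (.n (nat_lit 374) (nat_lit 1) (.p (nat_lit 375) (nat_lit 1) (.p (nat_lit 376) (nat_lit 1) (.n (nat_lit 380) (nat_lit 1) (.n (nat_lit 381) (nat_lit 3) (.p (nat_lit 382) (nat_lit 2) (.n (nat_lit 383) (nat_lit 1) (.p (nat_lit 384) (nat_lit 1) (.p (nat_lit 385) (nat_lit 1) (.p (nat_lit 386) (nat_lit 1) (.p (nat_lit 387) (nat_lit 1) (.n (nat_lit 391) (nat_lit 1) (.n (nat_lit 392) (nat_lit 1) .z))))))))))))))))))))))))))))))))))))))))))) (.ct dC2c_c308 (nat_lit 1) (nat_lit 8) (.s true (nat_lit 1) (nat_lit 18) (nat_lit 2) (nat_lit 1) (nat_lit 13) true (nat_lit 0) true (nat_lit 8) true (nat_lit 5) true (nat_lit 16) true (nat_lit 17) (.e false (nat_lit 1) (nat_lit 41) (nat_lit 35) (nat_lit 0) (.e false (nat_lit 1) (nat_lit 62) (nat_lit 18) (nat_lit 5) (.e false (nat_lit 1) (nat_lit 65) (nat_lit 18) (nat_lit 5) (.e true (nat_lit 1) (nat_lit 66) (nat_lit 18) (nat_lit 5) (.e false (nat_lit 1) (nat_lit 68) (nat_lit 18) (nat_lit 5) (.e false (nat_lit 1) (nat_lit 69) (nat_lit 18) (nat_lit 5) (.e false (nat_lit 1) (nat_lit 71) (nat_lit 18) (nat_lit 5) (.e false (nat_lit 1) (nat_lit 72) (nat_lit 18) (nat_lit 5) (.e true (nat_lit 3) (nat_lit 205) (nat_lit 2) (nat_lit 16) (.e false (nat_lit 1) (nat_lit 207) (nat_lit 2) (nat_lit 16) (.e true (nat_lit 3) (nat_lit 208) (nat_lit 2) (nat_lit 16) (.e true (nat_lit 1) (nat_lit 210) (nat_lit 2) (nat_lit 16) (.e false (nat_lit 1) (nat_lit 211) (nat_lit 2) (nat_lit 16) dC2c_i36))))))))))))))) .leaf)) (nat_lit 96272) (nat_lit 1369) (.p (nat_lit 397) (nat_lit 2) (.n (nat_lit 398) (nat_lit 1) (.p (nat_lit 399) (nat_lit 3) (.n (nat_lit 400) (nat_lit 2) (.p (nat_lit 401) (nat_lit 2) (.n (nat_lit 402) (nat_lit 2) (.n (nat_lit 403) (nat_lit 2) (.n (nat_lit 404) (nat_lit 1) (.p (nat_lit 406) (nat_lit 3) (.n (nat_lit 408) (nat_lit 3) (.p (nat_lit 409) (nat_lit 1) (.p (nat_lit 410) (nat_lit 2) (.p (nat_lit 411) (nat_lit 1) (.n (nat_lit 412) (nat_lit 3) (.n (nat_lit 413) (nat_lit 3) (.p (nat_lit 414) (nat_lit 2) (.n (nat_lit 415) (nat_lit 3) (.n (nat_lit 418) (nat_lit 1) (.n (nat_lit 420) (nat_lit 1) (.n (nat_lit 421) (nat_lit 3) (.p (nat_lit 422) (nat_lit 1) (.p (nat_lit 423) (nat_lit 1) (.n (nat_lit 426) (nat_lit 1) (.n (nat_lit 427) (nat_lit 2) (.n (nat_lit 428) (nat_lit 1) (.p (nat_lit 429) (nat_lit 1) (.n (nat_lit 430) (nat_lit 1) (.n (nat_lit 431) (nat_lit 2) (.n (nat_lit 432) (nat_lit 1) (.p (nat_lit 435) (nat_lit 2) .z)))))))))))))))))))))))))))))) (.ct dC2c_c293 (nat_lit 1) (nat_lit 5) (.s true (nat_lit 3) (nat_lit 20) (nat_lit 1) (nat_lit 1) (nat_lit 16) true (nat_lit 1) true (nat_lit 5) true (nat_lit 3) true (nat_lit 15) true (nat_lit 15) (.e false (nat_lit 3) (nat_lit 47) (nat_lit 36) (nat_lit 1) (.e true (nat_lit 1) (nat_lit 91) (nat_lit 16) (nat_lit 5) dC2c_i37)))) (.nd (.nd (.nd .leaf (nat_lit 96273) (nat_lit 1362) (.p (nat_lit 397) (nat_lit 3) (.n (nat_lit 398) (nat_lit 2) (.n (nat_lit 399) (nat_lit 1) (.p (nat_lit 400) (nat_lit 3) (.p (nat_lit 401) (nat_lit 1) (.n (nat_lit 402) (nat_lit 1) (.n (nat_lit 403) (nat_lit 2) (.n (nat_lit 404) (nat_lit 3) (.p (nat_lit 405) (nat_lit 1) (.p (nat_lit 406) (nat_lit 1) (.p (nat_lit 407) (nat_lit 1) (.n (nat_lit 408) (nat_lit 2) (.n (nat_lit 411) (nat_lit 3) (.p (nat_lit 412) (nat_lit 3) (.p (nat_lit 413) (nat_lit 3) (.n (nat_lit 414) (nat_lit 2) (.p (nat_lit 416) (nat_lit 2) (.n (nat_lit 418) (nat_lit 3) (.p (nat_lit 420) (nat_lit 2) (.n (nat_lit 421) (nat_lit 1) (.p (nat_lit 422) (nat_lit 2) (.p (nat_lit 423) (nat_lit 2) (.n (nat_lit 426) (nat_lit 2) (.p (nat_lit 427) (nat_lit 3) (.n (nat_lit 428) (nat_lit 2) (.p (nat_lit 429) (nat_lit 2) (.n (nat_lit 430) (nat_lit 2) (.p (nat_lit 431) (nat_lit 2) (.p (nat_lit 432) (nat_lit 3) (.p (nat_lit 435) (nat_lit 3) .z)))))))))))))))))))))))))))))) (.ct dC2c_c293 (nat_lit 1) (nat_lit 5) (.s true (nat_lit 3) (nat_lit 20) (nat_lit 1) (nat_lit 17) (nat_lit 1) true (nat_lit 12) true (nat_lit 15) true (nat_lit 3) true (nat_lit 15) true (nat_lit 5) (.e false (nat_lit 3) (nat_lit 199) (nat_lit 4) (nat_lit 12) (.e false (nat_lit 2) (nat_lit 305) (nat_lit 1) (nat_lit 15) (.e true (nat_lit 2) (nat_lit 306) (nat_lit 1) (nat_lit 15) (.e true (nat_lit 3) (nat_lit 307) (nat_lit 1) (nat_lit 15) (.e true (nat_lit 2) (nat_lit 308) (nat_lit 1) (nat_lit 15) dC2c_i38))))))) .leaf) (nat_lit 96274) (nat_lit 1426) (.n (nat_lit 436) (nat_lit 1) (.n (nat_lit 437) (nat_lit 2) (.n (nat_lit 438) (nat_lit 3) (.n (nat_lit 439) (nat_lit 2) (.p (nat_lit 440) (nat_lit 2) (.p (nat_lit 441) (nat_lit 1) (.n (nat_lit 442) (nat_lit 2) (.p (nat_lit 443) (nat_lit 1) (.n (nat_lit 447) (nat_lit 2) (.p (nat_lit 448) (nat_lit 3) (.n (nat_lit 449) (nat_lit 1) .z))))))))))) (.ct dC2c_c53 (nat_lit 1) (nat_lit 3) (.s false (nat_lit 1) (nat_lit 94) (nat_lit 2) (nat_lit 1) (nat_lit 2) true (nat_lit 6) true (nat_lit 9) false (nat_lit 3) true (nat_lit 9) true (nat_lit 10) (.e false (nat_lit 1) (nat_lit 160) (nat_lit 7) (nat_lit 6) (.e true (nat_lit 1) (nat_lit 162) (nat_lit 7) (nat_lit 6) (.e false (nat_lit 1) (nat_lit 165) (nat_lit 7) (nat_lit 6) (.e true (nat_lit 3) (nat_lit 289) (nat_lit 2) (nat_lit 9) (.e false (nat_lit 3) (nat_lit 290) (nat_lit 2) (nat_lit 9) (.e false (nat_lit 2) (nat_lit 291) (nat_lit 2) (nat_lit 9) (.e true (nat_lit 1) (nat_lit 292) (nat_lit 2) (nat_lit 9) (.e true (nat_lit 1) (nat_lit 293) (nat_lit 2) (nat_lit 9) (.e true (nat_lit 3) (nat_lit 294) (nat_lit 2) (nat_lit 9) (.e false (nat_lit 2) (nat_lit 295) (nat_lit 2) (nat_lit 9) (.e true (nat_lit 2) (nat_lit 296) (nat_lit 2) (nat_lit 9) (.e true (nat_lit 1) (nat_lit 297) (nat_lit 2) (nat_lit 9) (.e false (nat_lit 2) (nat_lit 298) (nat_lit 2) (nat_lit 9) (.e false (nat_lit 1) (nat_lit 299) (nat_lit 2) (nat_lit 9) (.e false (nat_lit 1) (nat_lit 300) (nat_lit 2) (nat_lit 9) (.e true (nat_lit 1) (nat_lit 301) (nat_lit 2) (nat_lit 9) (.e true (nat_lit 2) (nat_lit 303) (nat_lit 2) (nat_lit 9) (.e false (nat_lit 1) (nat_lit 304) (nat_lit 2) (nat_lit 9) (.e true (nat_lit 1) (nat_lit 327) (nat_lit 1) (nat_lit 10) (.u (nat_lit 2) (.n (nat_lit 3) (nat_lit 1) (.p (nat_lit 4) (nat_lit 1) (.n (nat_lit 5) (nat_lit 1) (.p (nat_lit 6) (nat_lit 1) (.n (nat_lit 8) (nat_lit 1) (.p (nat_lit 9) (nat_lit 1) (.p (nat_lit 14) (nat_lit 1) .z))))))) .nil)))))))))))))))))))))) .leaf) (nat_lit 97280) (nat_lit 289) (.p (nat_lit 132) (nat_lit 2) (.p (nat_lit 133) (nat_lit 3) (.n (nat_lit 134) (nat_lit 3) (.p (nat_lit 135) (nat_lit 2) (.n (nat_lit 136) (nat_lit 3) (.n (nat_lit 137) (nat_lit 3) (.n (nat_lit 138) (nat_lit 2) (.p (nat_lit 139) (nat_lit 3) (.n (nat_lit 140) (nat_lit 3) (.n (nat_lit 141) (nat_lit 3) (.p (nat_lit 142) (nat_lit 2) (.p (nat_lit 143) (nat_lit 1) (.p (nat_lit 144) (nat_lit 2) (.p (nat_lit 145) (nat_lit 3) (.p (nat_lit 147) (nat_lit 3) (.p (nat_lit 148) (nat_lit 2) (.p (nat_lit 150) (nat_lit 1) (.n (nat_lit 152) (nat_lit 1) (.n (nat_lit 153) (nat_lit 1) (.n (nat_lit 154) (nat_lit 3) (.p (nat_lit 155) (nat_lit 3) (.n (nat_lit 156) (nat_lit 2) (.p (nat_lit 157) (nat_lit 2) .z))))))))))))))))))))))) (.ct dC2c_c291 (nat_lit 1) (nat_lit 10) (.s false (nat_lit 1) (nat_lit 15) (nat_lit 0) (nat_lit 2) (nat_lit 2) true (nat_lit 5) true (nat_lit 8) true (nat_lit 0) true (nat_lit 10) true (nat_lit 8) (.e false (nat_lit 1) (nat_lit 40) (nat_lit 5) (nat_lit 5) (.e false (nat_lit 1) (nat_lit 65) (nat_lit 2) (nat_lit 8) (.e true (nat_lit 1) (nat_lit 16) (nat_lit 15) (nat_lit 0) (.e true (nat_lit 1) (nat_lit 91) (nat_lit 0) (nat_lit 10) (.e false (nat_lit 2) (nat_lit 92) (nat_lit 0) (nat_lit 10) (.e false (nat_lit 2) (nat_lit 93) (nat_lit 0) (nat_lit 10) (.e true (nat_lit 2) (nat_lit 94) (nat_lit 0) (nat_lit 10) (.e false (nat_lit 1) (nat_lit 96) (nat_lit 0) (nat_lit 10) (.e false (nat_lit 1) (nat_lit 71) (nat_lit 2) (nat_lit 8) (.u (nat_lit 2) (.p (nat_lit 0) (nat_lit 1) (.n (nat_lit 1) (nat_lit 1) (.p (nat_lit 2) (nat_lit 2) (.p (nat_lit 4) (nat_lit 1) (.n (nat_lit 5) (nat_lit 1) (.p (nat_lit 7) (nat_lit 1) (.n (nat_lit 8) (nat_lit 1) (.n (nat_lit 12) (nat_lit 1) (.n (nat_lit 17) (nat_lit 1) (.n (nat_lit 18) (nat_lit 2) (.n (nat_lit 19) (nat_lit 1) (.p (nat_lit 20) (nat_lit 1) (.p (nat_lit 21) (nat_lit 1) (.n (nat_lit 23) (nat_lit 2) (.p (nat_lit 24) (nat_lit 2) (.n (nat_lit 25) (nat_lit 1) .z)))))))))))))))) .nil)))))))))))) (.nd .leaf (nat_lit 97281) (nat_lit 314) (.n (nat_lit 158) (nat_lit 1) (.n (nat_lit 160) (nat_lit 2) (.p (nat_lit 162) (nat_lit 3) (.n (nat_lit 163) (nat_lit 2) (.p (nat_lit 164) (nat_lit 2) (.n (nat_lit 165) (nat_lit 1) (.n (nat_lit 167) (nat_lit 1) (.p (nat_lit 168) (nat_lit 1) .z)))))))) (.ct dC2c_c51 (nat_lit 1) (nat_lit 6) (.s false (nat_lit 1) (nat_lit 6) (nat_lit 1) (nat_lit 2) (nat_lit 6) true (nat_lit 0) true (nat_lit 3) true (nat_lit 3) true (nat_lit 6) true (nat_lit 5) (.e true (nat_lit 1) (nat_lit 18) (nat_lit 15) (nat_lit 0) (.e false (nat_lit 1) (nat_lit 40) (nat_lit 6) (nat_lit 3) (.e true (nat_lit 1) (nat_lit 91) (nat_lit 1) (nat_lit 6) (.e false (nat_lit 2) (nat_lit 92) (nat_lit 1) (nat_lit 6) (.e false (nat_lit 1) (nat_lit 93) (nat_lit 1) (nat_lit 6) (.e true (nat_lit 1) (nat_lit 94) (nat_lit 1) (nat_lit 6) (.e false (nat_lit 1) (nat_lit 96) (nat_lit 1) (nat_lit 6) .nil))))))))) .leaf))))))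

noncomputable def dC2c_t1 : Tr := (.nd (.nd (.nd (.nd (.nd (.nd (.nd .leaf (nat_lit 97283) (nat_lit 494) (.p (nat_lit 205) (nat_lit 1) (.n (nat_lit 206) (nat_lit 1) (.p (nat_lit 207) (nat_lit 2) (.p (nat_lit 208) (nat_lit 2) (.p (nat_lit 209) (nat_lit 3) (.p (nat_lit 210) (nat_lit 1) (.p (nat_lit 211) (nat_lit 3) (.n (nat_lit 213) (nat_lit 2) (.n (nat_lit 214) (nat_lit 1) (.n (nat_lit 215) (nat_lit 3) (.p (nat_lit 218) (nat_lit 1) (.n (nat_lit 219) (nat_lit 3) (.p (nat_lit 220) (nat_lit 1) (.p (nat_lit 221) (nat_lit 2) (.p (nat_lit 222) (nat_lit 2) (.p (nat_lit 225) (nat_lit 2) (.n (nat_lit 226) (nat_lit 2) (.n (nat_lit 227) (nat_lit 1) (.p (nat_lit 228) (nat_lit 1) (.n (nat_lit 230) (nat_lit 2) (.n (nat_lit 231) (nat_lit 2) (.n (nat_lit 233) (nat_lit 2) (.p (nat_lit 235) (nat_lit 2) (.p (nat_lit 238) (nat_lit 2) (.n (nat_lit 242) (nat_lit 1) (.n (nat_lit 245) (nat_lit 1) (.n (nat_lit 251) (nat_lit 1) .z))))))))))))))))))))))))))) (.ct dC2c_c307 (nat_lit 1) (nat_lit 11) (.s false (nat_lit 1) (nat_lit 15) (nat_lit 3) (nat_lit 2) (nat_lit 2) true (nat_lit 4) true (nat_lit 12) true (nat_lit 3) true (nat_lit 11) true (nat_lit 12) (.e false (nat_lit 1) (nat_lit 40) (nat_lit 11) (nat_lit 4) (.e false (nat_lit 3) (nat_lit 107) (nat_lit 2) (nat_lit 12) (.e false (nat_lit 3) (nat_lit 108) (nat_lit 2) (nat_lit 12) (.e false (nat_lit 2) (nat_lit 109) (nat_lit 2) (nat_lit 12) (.e false (nat_lit 1) (nat_lit 111) (nat_lit 2) (nat_lit 12) (.e false (nat_lit 1) (nat_lit 116) (nat_lit 2) (nat_lit 12) (.e true (nat_lit 1) (nat_lit 33) (nat_lit 15) (nat_lit 3) (.e true (nat_lit 1) (nat_lit 91) (nat_lit 3) (nat_lit 11) (.e false (nat_lit 2) (nat_lit 92) (nat_lit 3) (nat_lit 11) (.e false (nat_lit 2) (nat_lit 93) (nat_lit 3) (nat_lit 11) (.e true (nat_lit 2) (nat_lit 94) (nat_lit 3) (nat_lit 11) (.e false (nat_lit 1) (nat_lit 96) (nat_lit 3) (nat_lit 11) (.e true (nat_lit 3) (nat_lit 110) (nat_lit 2) (nat_lit 12) (.e false (nat_lit 3) (nat_lit 112) (nat_lit 2) (nat_lit 12) (.e true (nat_lit 3) (nat_lit 114) (nat_lit 2) (nat_lit 12) (.e false (nat_lit 1) (nat_lit 117) (nat_lit 2) (nat_lit 12) (.e false (nat_lit 3) (nat_lit 119) (nat_lit 2) (nat_lit 12) (.e true (nat_lit 3) (nat_lit 123) (nat_lit 2) (nat_lit 12) (.e false (nat_lit 3) (nat_lit 126) (nat_lit 2) (nat_lit 12) (.e true (nat_lit 3) (nat_lit 127) (nat_lit 2) (nat_lit 12) (.e true (nat_lit 1) (nat_lit 128) (nat_lit 2) (nat_lit 12) (.u (nat_lit 2) (.p (nat_lit 0) (nat_lit 3) (.p (nat_lit 2) (nat_lit 2) (.p (nat_lit 3) (nat_lit 1) (.p (nat_lit 4) (nat_lit 1) (.p (nat_lit 6) (nat_lit 1) (.p (nat_lit 8) (nat_lit 1) (.n (nat_lit 10) (nat_lit 2) (.n (nat_lit 11) (nat_lit 1) (.n (nat_lit 12) (nat_lit 1) (.p (nat_lit 14) (nat_lit 2) (.n (nat_lit 16) (nat_lit 2) (.n (nat_lit 17) (nat_lit 1) (.p (nat_lit 21) (nat_lit 1) (.n (nat_lit 22) (nat_lit 2) (.p (nat_lit 23) (nat_lit 1) (.p (nat_lit 24) (nat_lit 1) (.p (nat_lit 25) (nat_lit 2) (.p (nat_lit 26) (nat_lit 1) (.n (nat_lit 33) (nat_lit 1) (.p (nat_lit 40) (nat_lit 1) (.n (nat_lit 41) (nat_lit 2) (.n (nat_lit 42) (nat_lit 2) (.p (nat_lit 43) (nat_lit 2) (.n (nat_lit 46) (nat_lit 1) (.n (nat_lit 147) (nat_lit 1) (.n (nat_lit 148) (nat_lit 1) .z)))))))))))))))))))))))))) .nil)))))))))))))))))))))))) .leaf) (nat_lit 97285) (nat_lit 681) (.p (nat_lit 252) (nat_lit 3) (.n (nat_lit 253) (nat_lit 2) (.n (nat_lit 254) (nat_lit 3) (.n (nat_lit 255) (nat_lit 1) (.p (nat_lit 257) (nat_lit 2) (.p (nat_lit 258) (nat_lit 1) (.p (nat_lit 259) (nat_lit 1) (.p (nat_lit 260) (nat_lit 1) (.p (nat_lit 261) (nat_lit 3) (.n (nat_lit 262) (nat_lit 3) (.p (nat_lit 263) (nat_lit 3) (.p (nat_lit 264) (nat_lit 2) (.n (nat_lit 265) (nat_lit 3) (.p (nat_lit 266) (nat_lit 1) (.n (nat_lit 267) (nat_lit 1) (.n (nat_lit 269) (nat_lit 3) (.p (nat_lit 271) (nat_lit 1) (.n (nat_lit 272) (nat_lit 2) (.n (nat_lit 274) (nat_lit 3) (.n (nat_lit 275) (nat_lit 3) (.n (nat_lit 276) (nat_lit 1) (.p (nat_lit 277) (nat_lit 1) (.n (nat_lit 279) (nat_lit 3) (.n (nat_lit 280) (nat_lit 2) (.p (nat_lit 281) (nat_lit 2) (.p (nat_lit 282) (nat_lit 2) (.p (nat_lit 283) (nat_lit 2) (.n (nat_lit 285) (nat_lit 2) (.n (nat_lit 288) (nat_lit 1) .z))))))))))))))))))))))))))))) (.ct dC2c_c292 (nat_lit 1) (nat_lit 8) (.s false (nat_lit 1) (nat_lit 15) (nat_lit 5) (nat_lit 2) (nat_lit 2) true (nat_lit 2) true (nat_lit 11) true (nat_lit 3) true (nat_lit 8) true (nat_lit 11) (.e false (nat_lit 1) (nat_lit 40) (nat_lit 16) (nat_lit 2) (.e true (nat_lit 1) (nat_lit 136) (nat_lit 2) (nat_lit 11) (.e true (nat_lit 1) (nat_lit 141) (nat_lit 2) (nat_lit 11) (.e false (nat_lit 1) (nat_lit 145) (nat_lit 2) (nat_lit 11) (.e true (nat_lit 1) (nat_lit 42) (nat_lit 15) (nat_lit 3) (.e true (nat_lit 1) (nat_lit 91) (nat_lit 5) (nat_lit 8) (.e false (nat_lit 2) (nat_lit 92) (nat_lit 5) (nat_lit 8) (.e false (nat_lit 2) (nat_lit 93) (nat_lit 5) (nat_lit 8) (.e true (nat_lit 2) (nat_lit 94) (nat_lit 5) (nat_lit 8) (.e false (nat_lit 1) (nat_lit 96) (nat_lit 5) (nat_lit 8) (.e true (nat_lit 1) (nat_lit 156) (nat_lit 2) (nat_lit 11) (.u (nat_lit 2) (.n (nat_lit 0) (nat_lit 2) (.p (nat_lit 2) (nat_lit 1) (.p (nat_lit 4) (nat_lit 2) (.n (nat_lit 5) (nat_lit 1) (.n (nat_lit 6) (nat_lit 1) (.n (nat_lit 7) (nat_lit 1) (.n (nat_lit 8) (nat_lit 1) (.n (nat_lit 9) (nat_lit 3) (.p (nat_lit 10) (nat_lit 1) (.n (nat_lit 11) (nat_lit 2) (.p (nat_lit 12) (nat_lit 2) (.p (nat_lit 13) (nat_lit 2) (.p (nat_lit 14) (nat_lit 1) (.p (nat_lit 15) (nat_lit 1) (.p (nat_lit 17) (nat_lit 1) (.n (nat_lit 18) (nat_lit 1) (.p (nat_lit 19) (nat_lit 1) (.p (nat_lit 20) (nat_lit 1) (.p (nat_lit 21) (nat_lit 1) (.n (nat_lit 22) (nat_lit 2) (.p (nat_lit 24) (nat_lit 2) (.n (nat_lit 30) (nat_lit 1) .z)))))))))))))))))))))) .nil)))))))))))))) .leaf) (nat_lit 97286) (nat_lit 743) (.p (nat_lit 289) (nat_lit 2) (.n (nat_lit 290) (nat_lit 1) (.n (nat_lit 291) (nat_lit 3) (.p (nat_lit 293) (nat_lit 2) (.p (nat_lit 295) (nat_lit 2) (.n (nat_lit 296) (nat_lit 3) (.n (nat_lit 297) (nat_lit 1) (.p (nat_lit 298) (nat_lit 1) (.n (nat_lit 299) (nat_lit 1) (.p (nat_lit 300) (nat_lit 1) (.p (nat_lit 301) (nat_lit 3) (.n (nat_lit 302) (nat_lit 2) (.n (nat_lit 303) (nat_lit 1) (.p (nat_lit 304) (nat_lit 2) .z)))))))))))))) (.ct dC2c_c52 (nat_lit 1) (nat_lit 5) (.s true (nat_lit 1) (nat_lit 19) (nat_lit 2) (nat_lit 1) (nat_lit 6) true (nat_lit 1) true (nat_lit 5) true (nat_lit 1) true (nat_lit 7) true (nat_lit 8) (.e true (nat_lit 1) (nat_lit 39) (nat_lit 18) (nat_lit 1) (.e false (nat_lit 1) (nat_lit 40) (nat_lit 18) (nat_lit 1) (.e false (nat_lit 1) (nat_lit 41) (nat_lit 18) (nat_lit 1) (.e false (nat_lit 1) (nat_lit 159) (nat_lit 2) (nat_lit 7) (.e true (nat_lit 1) (nat_lit 161) (nat_lit 2) (nat_lit 7) (.e true (nat_lit 1) (nat_lit 162) (nat_lit 2) (nat_lit 7) (.e false (nat_lit 1) (nat_lit 165) (nat_lit 2) (nat_lit 7) (.e true (nat_lit 1) (nat_lit 166) (nat_lit 2) (nat_lit 7) (.e false (nat_lit 1) (nat_lit 168) (nat_lit 2) (nat_lit 7) (.e false (nat_lit 1) (nat_lit 185) (nat_lit 1) (nat_lit 8) (.e true (nat_lit 1) (nat_lit 186) (nat_lit 1) (nat_lit 8) (.e true (nat_lit 1) (nat_lit 187) (nat_lit 1) (nat_lit 8) (.e false (nat_lit 1) (nat_lit 189) (nat_lit 1) (nat_lit 8) (.e true (nat_lit 1) (nat_lit 190) (nat_lit 1) (nat_lit 8) (.u (nat_lit 2) (.n (nat_lit 0) (nat_lit 1) (.p (nat_lit 2) (nat_lit 1) (.n (nat_lit 4) (nat_lit 1) (.p (nat_lit 7) (nat_lit 1) (.p (nat_lit 8) (nat_lit 1) (.n (nat_lit 9) (nat_lit 1) .z)))))) .nil))))))))))))))))) (.nd (.nd .leaf (nat_lit 97287) (nat_lit 828) (.p (nat_lit 325) (nat_lit 2) (.n (nat_lit 326) (nat_lit 3) (.p (nat_lit 327) (nat_lit 3) (.n (nat_lit 328) (nat_lit 2) (.n (nat_lit 329) (nat_lit 1) (.n (nat_lit 330) (nat_lit 2) (.p (nat_lit 333) (nat_lit 2) (.p (nat_lit 334) (nat_lit 1) .z)))))))) (.ct dC2c_c37 (nat_lit 1) (nat_lit 3) (.s true (nat_lit 2) (nat_lit 7) (nat_lit 6) (nat_lit 6) (nat_lit 2) true (nat_lit 1) true (nat_lit 6) true (nat_lit 3) true (nat_lit 4) true (nat_lit 4) (.s false (nat_lit 2) (nat_lit 18) (nat_lit 6) (nat_lit 2) (nat_lit 2) true (nat_lit 1) true (nat_lit 6) true (nat_lit 1) true (nat_lit 4) true (nat_lit 6) (.s false (nat_lit 3) (nat_lit 46) (nat_lit 1) (nat_lit 2) (nat_lit 2) true (nat_lit 4) true (nat_lit 6) false (nat_lit 1) true (nat_lit 7) true (nat_lit 6) (.s true (nat_lit 2) (nat_lit 47) (nat_lit 1) (nat_lit 2) (nat_lit 2) true (nat_lit 4) true (nat_lit 6) false (nat_lit 1) true (nat_lit 7) true (nat_lit 6) (.s true (nat_lit 1) (nat_lit 46) (nat_lit 2) (nat_lit 1) (nat_lit 2) true (nat_lit 3) true (nat_lit 6) false (nat_lit 1) true (nat_lit 6) true (nat_lit 7) (.s true (nat_lit 1) (nat_lit 48) (nat_lit 1) (nat_lit 1) (nat_lit 2) true (nat_lit 4) true (nat_lit 6) false (nat_lit 2) true (nat_lit 7) true (nat_lit 7) (.e false (nat_lit 2) (nat_lit 186) (nat_lit 2) (nat_lit 6) (.e true (nat_lit 3) (nat_lit 187) (nat_lit 2) (nat_lit 6) (.e false (nat_lit 3) (nat_lit 188) (nat_lit 2) (nat_lit 6) (.e true (nat_lit 2) (nat_lit 189) (nat_lit 2) (nat_lit 6) (.e true (nat_lit 3) (nat_lit 190) (nat_lit 2) (nat_lit 6) (.e true (nat_lit 2) (nat_lit 191) (nat_lit 2) (nat_lit 6) (.e false (nat_lit 3) (nat_lit 194) (nat_lit 2) (nat_lit 6) (.e false (nat_lit 2) (nat_lit 201) (nat_lit 1) (nat_lit 7) (.e false (nat_lit 1) (nat_lit 48) (nat_lit 14) (nat_lit 2) (.u (nat_lit 2) (.n (nat_lit 31) (nat_lit 1) (.p (nat_lit 33) (nat_lit 2) (.p (nat_lit 34) (nat_lit 2) (.n (nat_lit 35) (nat_lit 1) (.p (nat_lit 36) (nat_lit 2) (.p (nat_lit 37) (nat_lit 1) (.n (nat_lit 38) (nat_lit 2) (.n (nat_lit 40) (nat_lit 1) (.p (nat_lit 41) (nat_lit 1) (.n (nat_lit 44) (nat_lit 1) (.p (nat_lit 45) (nat_lit 1) .z))))))))))) .nil))))))))))))))))) .leaf) (nat_lit 97291) (nat_lit 1049) (.p (nat_lit 335) (nat_lit 2) (.n (nat_lit 336) (nat_lit 2) (.p (nat_lit 337) (nat_lit 3) (.p (nat_lit 338) (nat_lit 3) (.n (nat_lit 339) (nat_lit 1) (.n (nat_lit 340) (nat_lit 2) (.p (nat_lit 342) (nat_lit 3) (.p (nat_lit 343) (nat_lit 1) (.p (nat_lit 344) (nat_lit 3) (.n (nat_lit 345) (nat_lit 2) (.n (nat_lit 346) (nat_lit 1) (.p (nat_lit 347) (nat_lit 3) (.n (nat_lit 350) (nat_lit 2) (.p (nat_lit 351) (nat_lit 2) (.n (nat_lit 352) (nat_lit 3) (.p (nat_lit 353) (nat_lit 2) (.n (nat_lit 354) (nat_lit 2) (.n (nat_lit 355) (nat_lit 2) (.p (nat_lit 356) (nat_lit 3) (.n (nat_lit 357) (nat_lit 3) (.p (nat_lit 358) (nat_lit 2) (.p (nat_lit 360) (nat_lit 3) (.n (nat_lit 361) (nat_lit 2) (.n (nat_lit 362) (nat_lit 1) (.p (nat_lit 363) (nat_lit 1) (.p (nat_lit 364) (nat_lit 3) (.n (nat_lit 366) (nat_lit 1) (.p (nat_lit 367) (nat_lit 2) (.n (nat_lit 368) (nat_lit 1) (.n (nat_lit 372) (nat_lit 2) (.p (nat_lit 373) (nat_lit 1) (.n (nat_lit 374) (nat_lit 3) (.n (nat_lit 375) (nat_lit 2) (.n (nat_lit 380) (nat_lit 1) (.n (nat_lit 381) (nat_lit 3) (.p (nat_lit 382) (nat_lit 1) (.p (nat_lit 383) (nat_lit 3) (.n (nat_lit 384) (nat_lit 2) (.n (nat_lit 386) (nat_lit 2) (.p (nat_lit 391) (nat_lit 2) .z)))))))))))))))))))))))))))))))))))))))) (.ct dC2c_c308 (nat_lit 1) (nat_lit 8) (.s true (nat_lit 1) (nat_lit 19) (nat_lit 2) (nat_lit 1) (nat_lit 11) true (nat_lit 0) true (nat_lit 8) true (nat_lit 5) true (nat_lit 16) true (nat_lit 17) (.e true (nat_lit 1) (nat_lit 39) (nat_lit 33) (nat_lit 0) (.e false (nat_lit 1) (nat_lit 40) (nat_lit 33) (nat_lit 0) (.e false (nat_lit 1) (nat_lit 41) (nat_lit 33) (nat_lit 0) (.e false (nat_lit 1) (nat_lit 73) (nat_lit 19) (nat_lit 5) (.e true (nat_lit 3) (nat_lit 205) (nat_lit 2) (nat_lit 16) (.e false (nat_lit 3) (nat_lit 206) (nat_lit 2) (nat_lit 16) (.e true (nat_lit 1) (nat_lit 207) (nat_lit 2) (nat_lit 16) dC2c_i39))))))))) .leaf)) (nat_lit 97292) (nat_lit 1090) (.p (nat_lit 335) (nat_lit 2) (.n (nat_lit 336) (nat_lit 3) (.p (nat_lit 337) (nat_lit 1) (.p (nat_lit 338) (nat_lit 1) (.p (nat_lit 339) (nat_lit 2) (.n (nat_lit 340) (nat_lit 2) (.n (nat_lit 341) (nat_lit 2) (.p (nat_lit 342) (nat_lit 2) (.n (nat_lit 343) (nat_lit 1) (.p (nat_lit 344) (nat_lit 3) (.n (nat_lit 345) (nat_lit 2) (.n (nat_lit 346) (nat_lit 2) (.p (nat_lit 347) (nat_lit 2) (.p (nat_lit 349) (nat_lit 1) (.p (nat_lit 350) (nat_lit 3) (.n (nat_lit 351) (nat_lit 3) (.n (nat_lit 352) (nat_lit 1) (.p (nat_lit 353) (nat_lit 3) (.p (nat_lit 355) (nat_lit 1) (.n (nat_lit 356) (nat_lit 1) (.p (nat_lit 357) (nat_lit 3) (.p (nat_lit 358) (nat_lit 1) (.n (nat_lit 359) (nat_lit 1) (.n (nat_lit 360) (nat_lit 1) (.p (nat_lit 361) (nat_lit 3) (.p (nat_lit 362) (nat_lit 2) (.n (nat_lit 363) (nat_lit 3) (.n (nat_lit 366) (nat_lit 2) (.n (nat_lit 367) (nat_lit 1) (.n (nat_lit 369) (nat_lit 1) (.p (nat_lit 370) (nat_lit 1) (.n (nat_lit 371) (nat_lit 1) (.p (nat_lit 372) (nat_lit 1) (.n (nat_lit 376) (nat_lit 2) (.p (nat_lit 380) (nat_lit 3) (.p (nat_lit 381) (nat_lit 2) (.n (nat_lit 385) (nat_lit 2) (.n (nat_lit 387) (nat_lit 2) (.p (nat_lit 392) (nat_lit 2) .z))))))))))))))))))))))))))))))))))))))) (.ct dC2c_c308 (nat_lit 1) (nat_lit 8) (.s true (nat_lit 1) (nat_lit 19) (nat_lit 2) (nat_lit 1) (nat_lit 12) true (nat_lit 0) true (nat_lit 8) true (nat_lit 5) true (nat_lit 16) true (nat_lit 17) (.e true (nat_lit 1) (nat_lit 39) (nat_lit 34) (nat_lit 0) (.e false (nat_lit 1) (nat_lit 40) (nat_lit 34) (nat_lit 0) (.e false (nat_lit 1) (nat_lit 41) (nat_lit 34) (nat_lit 0) (.e true (nat_lit 1) (nat_lit 61) (nat_lit 19) (nat_lit 5) (.e false (nat_lit 1) (nat_lit 63) (nat_lit 19) (nat_lit 5) (.e true (nat_lit 1) (nat_lit 66) (nat_lit 19) (nat_lit 5) (.e false (nat_lit 1) (nat_lit 68) (nat_lit 19) (nat_lit 5) (.e false (nat_lit 1) (nat_lit 72) (nat_lit 19) (nat_lit 5) (.e false (nat_lit 3) (nat_lit 205) (nat_lit 2) (nat_lit 16) (.e true (nat_lit 1) (nat_lit 206) (nat_lit 2) (nat_lit 16) (.e true (nat_lit 1) (nat_lit 207) (nat_lit 2) (nat_lit 16) (.e false (nat_lit 2) (nat_lit 208) (nat_lit 2) (nat_lit 16) (.e false (nat_lit 3) (nat_lit 209) (nat_lit 2) (nat_lit 16) (.e false (nat_lit 2) (nat_lit 210) (nat_lit 2) (nat_lit 16) (.e false (nat_lit 3) (nat_lit 211) (nat_lit 2) (nat_lit 16) dC2c_i40))))))))))))))))) (.nd (.nd (.nd .leaf (nat_lit 97293) (nat_lit 1126) (.p (nat_lit 335) (nat_lit 3) (.n (nat_lit 336) (nat_lit 2) (.p (nat_lit 337) (nat_lit 3) (.n (nat_lit 338) (nat_lit 2) (.p (nat_lit 339) (nat_lit 3) (.p (nat_lit 340) (nat_lit 1) (.n (nat_lit 341) (nat_lit 3) (.p (nat_lit 343) (nat_lit 1) (.p (nat_lit 344) (nat_lit 1) (.n (nat_lit 345) (nat_lit 3) (.p (nat_lit 346) (nat_lit 1) (.n (nat_lit 349) (nat_lit 3) (.p (nat_lit 350) (nat_lit 1) (.p (nat_lit 351) (nat_lit 1) (.n (nat_lit 352) (nat_lit 1) (.n (nat_lit 354) (nat_lit 3) (.p (nat_lit 355) (nat_lit 2) (.n (nat_lit 356) (nat_lit 3) (.n (nat_lit 357) (nat_lit 2) (.p (nat_lit 358) (nat_lit 1) (.p (nat_lit 359) (nat_lit 1) (.n (nat_lit 360) (nat_lit 1) (.p (nat_lit 361) (nat_lit 1) (.n (nat_lit 363) (nat_lit 2) (.n (nat_lit 364) (nat_lit 1) (.p (nat_lit 366) (nat_lit 3) (.p (nat_lit 367) (nat_lit 3) (.n (nat_lit 368) (nat_lit 3) (.p (nat_lit 369) (nat_lit 2) (.p (nat_lit 370) (nat_lit 2) (.p (nat_lit 371) (nat_lit 2) (.n (nat_lit 372) (nat_lit 3) (.p (nat_lit 373) (nat_lit 3) (.p (nat_lit 374) (nat_lit 3) (.n (nat_lit 375) (nat_lit 2) (.n (nat_lit 376) (nat_lit 2) (.p (nat_lit 380) (nat_lit 2) (.n (nat_lit 381) (nat_lit 1) (.n (nat_lit 382) (nat_lit 1) (.n (nat_lit 383) (nat_lit 3) (.n (nat_lit 384) (nat_lit 2) (.n (nat_lit 385) (nat_lit 2) (.n (nat_lit 386) (nat_lit 2) (.n (nat_lit 387) (nat_lit 2) (.p (nat_lit 391) (nat_lit 2) (.p (nat_lit 392) (nat_lit 2) .z)))))))))))))))))))))))))))))))))))))))))))))) (.ct dC2c_c308 (nat_lit 1) (nat_lit 8) (.s true (nat_lit 1) (nat_lit 19) (nat_lit 2) (nat_lit 1) (nat_lit 13) true (nat_lit 0) true (nat_lit 8) true (nat_lit 5) true (nat_lit 16) true (nat_lit 17) (.e true (nat_lit 1) (nat_lit 39) (nat_lit 35) (nat_lit 0) (.e false (nat_lit 1) (nat_lit 40) (nat_lit 35) (nat_lit 0) (.e false (nat_lit 1) (nat_lit 41) (nat_lit 35) (nat_lit 0) (.e false (nat_lit 1) (nat_lit 62) (nat_lit 19) (nat_lit 5) (.e false (nat_lit 1) (nat_lit 65) (nat_lit 19) (nat_lit 5) (.e true (nat_lit 1) (nat_lit 66) (nat_lit 19) (nat_lit 5) (.e false (nat_lit 1) (nat_lit 68) (nat_lit 19) (nat_lit 5) (.e false (nat_lit 1) (nat_lit 69) (nat_lit 19) (nat_lit 5) (.e false (nat_lit 1) (nat_lit 71) (nat_lit 19) (nat_lit 5) (.e false (nat_lit 1) (nat_lit 72) (nat_lit 19) (nat_lit 5) (.e true (nat_lit 1) (nat_lit 205) (nat_lit 2) (nat_lit 16) (.e false (nat_lit 2) (nat_lit 206) (nat_lit 2) (nat_lit 16) (.e false (nat_lit 1) (nat_lit 207) (nat_lit 2) (nat_lit 16) (.e false (nat_lit 1) (nat_lit 208) (nat_lit 2) (nat_lit 16) (.e true (nat_lit 2) (nat_lit 210) (nat_lit 2) (nat_lit 16) (.e true (nat_lit 3) (nat_lit 211) (nat_lit 2) (nat_lit 16) dC2c_i42)))))))))))))))))) .leaf) (nat_lit 97296) (nat_lit 1368) (.p (nat_lit 397) (nat_lit 2) (.p (nat_lit 398) (nat_lit 1) (.p (nat_lit 399) (nat_lit 1) (.n (nat_lit 400) (nat_lit 1) (.n (nat_lit 401) (nat_lit 1) (.p (nat_lit 402) (nat_lit 2) (.p (nat_lit 403) (nat_lit 2) (.n (nat_lit 405) (nat_lit 3) (.p (nat_lit 406) (nat_lit 1) (.p (nat_lit 407) (nat_lit 1) (.p (nat_lit 408) (nat_lit 2) (.p (nat_lit 409) (nat_lit 1) (.n (nat_lit 410) (nat_lit 1) (.n (nat_lit 411) (nat_lit 2) (.p (nat_lit 412) (nat_lit 1) (.p (nat_lit 413) (nat_lit 1) (.p (nat_lit 414) (nat_lit 2) (.p (nat_lit 415) (nat_lit 1) (.n (nat_lit 416) (nat_lit 2) (.n (nat_lit 418) (nat_lit 1) (.p (nat_lit 420) (nat_lit 3) (.p (nat_lit 421) (nat_lit 1) (.n (nat_lit 422) (nat_lit 2) (.n (nat_lit 423) (nat_lit 2) (.p (nat_lit 426) (nat_lit 2) (.n (nat_lit 427) (nat_lit 3) (.p (nat_lit 428) (nat_lit 2) (.n (nat_lit 429) (nat_lit 2) (.p (nat_lit 430) (nat_lit 2) (.p (nat_lit 432) (nat_lit 1) (.p (nat_lit 435) (nat_lit 3) .z))))))))))))))))))))))))))))))) (.ct dC2c_c293 (nat_lit 1) (nat_lit 5) (.s true (nat_lit 1) (nat_lit 95) (nat_lit 0) (nat_lit 2) (nat_lit 2) true (nat_lit 11) true (nat_lit 14) false (nat_lit 5) true (nat_lit 16) true (nat_lit 14) (.e true (nat_lit 1) (nat_lit 189) (nat_lit 5) (nat_lit 11) (.e false (nat_lit 1) (nat_lit 253) (nat_lit 2) (nat_lit 14) (.e true (nat_lit 1) (nat_lit 254) (nat_lit 2) (nat_lit 14) (.e false (nat_lit 3) (nat_lit 255) (nat_lit 2) (nat_lit 14) (.e true (nat_lit 1) (nat_lit 256) (nat_lit 2) (nat_lit 14) (.e true (nat_lit 2) (nat_lit 257) (nat_lit 2) (nat_lit 14) (.e false (nat_lit 1) (nat_lit 258) (nat_lit 2) (nat_lit 14) (.e false (nat_lit 1) (nat_lit 259) (nat_lit 2) (nat_lit 14) (.e true (nat_lit 3) (nat_lit 260) (nat_lit 2) (nat_lit 14) (.e true (nat_lit 3) (nat_lit 261) (nat_lit 2) (nat_lit 14) (.e false (nat_lit 1) (nat_lit 263) (nat_lit 2) (nat_lit 14) (.e false (nat_lit 1) (nat_lit 264) (nat_lit 2) (nat_lit 14) (.e true (nat_lit 2) (nat_lit 267) (nat_lit 2) (nat_lit 14) (.e false (nat_lit 3) (nat_lit 268) (nat_lit 2) (nat_lit 14) dC2c_i43)))))))))))))))) .leaf) (nat_lit 97297) (nat_lit 1361) (.p (nat_lit 397) (nat_lit 2) (.n (nat_lit 398) (nat_lit 2) (.n (nat_lit 399) (nat_lit 2) (.p (nat_lit 400) (nat_lit 3) (.n (nat_lit 401) (nat_lit 3) (.n (nat_lit 402) (nat_lit 2) (.p (nat_lit 403) (nat_lit 2) (.n (nat_lit 404) (nat_lit 1) (.p (nat_lit 405) (nat_lit 1) (.p (nat_lit 406) (nat_lit 3) (.n (nat_lit 408) (nat_lit 2) (.p (nat_lit 409) (nat_lit 1) (.p (nat_lit 410) (nat_lit 2) (.p (nat_lit 411) (nat_lit 3) (.p (nat_lit 412) (nat_lit 2) (.p (nat_lit 413) (nat_lit 2) (.p (nat_lit 414) (nat_lit 3) (.n (nat_lit 415) (nat_lit 1) (.p (nat_lit 416) (nat_lit 2) (.n (nat_lit 418) (nat_lit 1) (.p (nat_lit 420) (nat_lit 1) (.p (nat_lit 421) (nat_lit 2) (.p (nat_lit 422) (nat_lit 3) (.p (nat_lit 423) (nat_lit 3) (.n (nat_lit 426) (nat_lit 3) (.p (nat_lit 427) (nat_lit 1) (.n (nat_lit 428) (nat_lit 3) (.p (nat_lit 429) (nat_lit 3) (.n (nat_lit 430) (nat_lit 3) (.p (nat_lit 431) (nat_lit 2) (.n (nat_lit 432) (nat_lit 2) (.n (nat_lit 435) (nat_lit 2) .z)))))))))))))))))))))))))))))))) (.ct dC2c_c293 (nat_lit 1) (nat_lit 5) (.s false (nat_lit 1) (nat_lit 19) (nat_lit 17) (nat_lit 2) (nat_lit 1) true (nat_lit 1) true (nat_lit 15) true (nat_lit 4) true (nat_lit 5) true (nat_lit 14) (.e true (nat_lit 1) (nat_lit 46) (nat_lit 37) (nat_lit 1) (.e true (nat_lit 1) (nat_lit 305) (nat_lit 1) (nat_lit 15) (.e true (nat_lit 1) (nat_lit 308) (nat_lit 1) (nat_lit 15) dC2c_i45))))) (.nd (.nd .leaf (nat_lit 98304) (nat_lit 284) (.p (nat_lit 132) (nat_lit 2) (.n (nat_lit 133) (nat_lit 2) (.n (nat_lit 134) (nat_lit 3) (.p (nat_lit 136) (nat_lit 1) (.n (nat_lit 137) (nat_lit 1) (.p (nat_lit 138) (nat_lit 1) (.p (nat_lit 139) (nat_lit 3) (.n (nat_lit 140) (nat_lit 3) (.p (nat_lit 141) (nat_lit 3) (.p (nat_lit 142) (nat_lit 2) (.n (nat_lit 144) (nat_lit 3) (.n (nat_lit 147) (nat_lit 3) (.n (nat_lit 149) (nat_lit 3) (.n (nat_lit 150) (nat_lit 2) (.p (nat_lit 151) (nat_lit 3) (.p (nat_lit 152) (nat_lit 2) (.p (nat_lit 153) (nat_lit 3) (.n (nat_lit 154) (nat_lit 3) (.n (nat_lit 157) (nat_lit 3) .z))))))))))))))))))) (.ct dC2c_c291 (nat_lit 1) (nat_lit 10) (.s false (nat_lit 1) (nat_lit 7) (nat_lit 0) (nat_lit 2) (nat_lit 4) true (nat_lit 2) true (nat_lit 6) true (nat_lit 3) true (nat_lit 10) true (nat_lit 8) (.e false (nat_lit 1) (nat_lit 20) (nat_lit 9) (nat_lit 2) (.e false (nat_lit 1) (nat_lit 43) (nat_lit 4) (nat_lit 6) (.e true (nat_lit 1) (nat_lit 24) (nat_lit 7) (nat_lit 3) (.e false (nat_lit 1) (nat_lit 26) (nat_lit 7) (nat_lit 3) (.e true (nat_lit 1) (nat_lit 28) (nat_lit 7) (nat_lit 3) (.e true (nat_lit 1) (nat_lit 29) (nat_lit 7) (nat_lit 3) (.e false (nat_lit 3) (nat_lit 71) (nat_lit 2) (nat_lit 8) (.e false (nat_lit 2) (nat_lit 61) (nat_lit 2) (nat_lit 8) (.e true (nat_lit 2) (nat_lit 63) (nat_lit 2) (nat_lit 8) (.e false (nat_lit 2) (nat_lit 64) (nat_lit 2) (nat_lit 8) (.e false (nat_lit 2) (nat_lit 66) (nat_lit 2) (nat_lit 8) (.e true (nat_lit 2) (nat_lit 72) (nat_lit 2) (nat_lit 8) (.e true (nat_lit 2) (nat_lit 73) (nat_lit 2) (nat_lit 8) (.u (nat_lit 2) (.p (nat_lit 1) (nat_lit 1) (.n (nat_lit 7) (nat_lit 1) (.p (nat_lit 8) (nat_lit 1) (.p (nat_lit 11) (nat_lit 1) (.p (nat_lit 12) (nat_lit 1) (.p (nat_lit 15) (nat_lit 1) (.p (nat_lit 18) (nat_lit 1) (.p (nat_lit 22) (nat_lit 1) (.n (nat_lit 23) (nat_lit 1) (.n (nat_lit 70) (nat_lit 1) .z)))))))))) .nil)))))))))))))))) .leaf) (nat_lit 98305) (nat_lit 298) (.p (nat_lit 166) (nat_lit 1) .z) .df .leaf))) (nat_lit 98306) (nat_lit 360) (.p (nat_lit 190) (nat_lit 1) .z) .df (.nd (.nd (.nd (.nd .leaf (nat_lit 98307) (nat_lit 486) (.p (nat_lit 205) (nat_lit 3) (.p (nat_lit 206) (nat_lit 3) (.p (nat_lit 207) (nat_lit 2) (.p (nat_lit 208) (nat_lit 3) (.n (nat_lit 209) (nat_lit 2) (.n (nat_lit 210) (nat_lit 2) (.p (nat_lit 211) (nat_lit 3) (.n (nat_lit 213) (nat_lit 1) (.n (nat_lit 214) (nat_lit 2) (.n (nat_lit 215) (nat_lit 2) (.n (nat_lit 216) (nat_lit 1) (.p (nat_lit 217) (nat_lit 1) (.p (nat_lit 218) (nat_lit 3) (.n (nat_lit 219) (nat_lit 3) (.p (nat_lit 220) (nat_lit 2) (.p (nat_lit 221) (nat_lit 1) (.p (nat_lit 222) (nat_lit 1) (.n (nat_lit 225) (nat_lit 2) (.p (nat_lit 226) (nat_lit 2) (.p (nat_lit 227) (nat_lit 2) (.n (nat_lit 228) (nat_lit 3) (.n (nat_lit 229) (nat_lit 3) (.p (nat_lit 230) (nat_lit 2) (.p (nat_lit 231) (nat_lit 3) (.n (nat_lit 238) (nat_lit 3) (.p (nat_lit 242) (nat_lit 2) (.p (nat_lit 245) (nat_lit 2) (.n (nat_lit 246) (nat_lit 2) (.n (nat_lit 247) (nat_lit 2) (.n (nat_lit 248) (nat_lit 2) .z)))))))))))))))))))))))))))))) (.ct dC2c_c307 (nat_lit 1) (nat_lit 11) (.s false (nat_lit 1) (nat_lit 14) (nat_lit 3) (nat_lit 2) (nat_lit 2) true (nat_lit 4) true (nat_lit 12) true (nat_lit 3) true (nat_lit 11) true (nat_lit 12) (.e false (nat_lit 1) (nat_lit 39) (nat_lit 11) (nat_lit 4) (.e true (nat_lit 2) (nat_lit 111) (nat_lit 2) (nat_lit 12) (.e true (nat_lit 1) (nat_lit 33) (nat_lit 14) (nat_lit 3) (.e false (nat_lit 1) (nat_lit 107) (nat_lit 2) (nat_lit 12) (.e false (nat_lit 1) (nat_lit 108) (nat_lit 2) (nat_lit 12) (.e false (nat_lit 1) (nat_lit 117) (nat_lit 2) (nat_lit 12) (.e true (nat_lit 1) (nat_lit 118) (nat_lit 2) (nat_lit 12) (.e false (nat_lit 1) (nat_lit 119) (nat_lit 2) (nat_lit 12) (.e false (nat_lit 1) (nat_lit 120) (nat_lit 2) (nat_lit 12) (.e true (nat_lit 1) (nat_lit 122) (nat_lit 2) (nat_lit 12) (.e true (nat_lit 1) (nat_lit 123) (nat_lit 2) (nat_lit 12) (.e true (nat_lit 1) (nat_lit 127) (nat_lit 2) (nat_lit 12) (.e true (nat_lit 1) (nat_lit 128) (nat_lit 2) (nat_lit 12) (.e false (nat_lit 1) (nat_lit 129) (nat_lit 2) (nat_lit 12) (.e false (nat_lit 1) (nat_lit 130) (nat_lit 2) (nat_lit 12) (.u (nat_lit 2) (.n (nat_lit 0) (nat_lit 1) (.n (nat_lit 1) (nat_lit 1) (.n (nat_lit 2) (nat_lit 1) (.n (nat_lit 3) (nat_lit 1) (.n (nat_lit 6) (nat_lit 1) (.n (nat_lit 21) (nat_lit 1) (.p (nat_lit 23) (nat_lit 1) (.p (nat_lit 24) (nat_lit 1) (.p (nat_lit 33) (nat_lit 1) .z))))))))) .nil)))))))))))))))))) .leaf) (nat_lit 98309) (nat_lit 674) (.n (nat_lit 252) (nat_lit 3) (.p (nat_lit 253) (nat_lit 3) (.p (nat_lit 254) (nat_lit 2) (.n (nat_lit 255) (nat_lit 1) (.p (nat_lit 258) (nat_lit 1) (.n (nat_lit 259) (nat_lit 3) (.p (nat_lit 260) (nat_lit 3) (.n (nat_lit 261) (nat_lit 2) (.p (nat_lit 262) (nat_lit 3) (.n (nat_lit 263) (nat_lit 2) (.p (nat_lit 264) (nat_lit 3) (.p (nat_lit 265) (nat_lit 1) (.n (nat_lit 266) (nat_lit 1) (.p (nat_lit 267) (nat_lit 3) (.p (nat_lit 269) (nat_lit 2) (.p (nat_lit 270) (nat_lit 1) (.p (nat_lit 271) (nat_lit 2) (.n (nat_lit 272) (nat_lit 2) (.p (nat_lit 273) (nat_lit 2) (.n (nat_lit 275) (nat_lit 1) (.p (nat_lit 276) (nat_lit 2) (.n (nat_lit 277) (nat_lit 2) (.n (nat_lit 279) (nat_lit 2) (.n (nat_lit 282) (nat_lit 3) (.p (nat_lit 283) (nat_lit 3) (.n (nat_lit 285) (nat_lit 3) (.n (nat_lit 286) (nat_lit 2) (.p (nat_lit 288) (nat_lit 2) .z)))))))))))))))))))))))))))) (.ct dC2c_c292 (nat_lit 1) (nat_lit 8) (.s false (nat_lit 1) (nat_lit 14) (nat_lit 5) (nat_lit 2) (nat_lit 2) true (nat_lit 2) true (nat_lit 11) true (nat_lit 3) true (nat_lit 8) true (nat_lit 11) (.e false (nat_lit 1) (nat_lit 39) (nat_lit 16) (nat_lit 2) (.e false (nat_lit 2) (nat_lit 132) (nat_lit 2) (nat_lit 11) (.e false (nat_lit 3) (nat_lit 133) (nat_lit 2) (nat_lit 11) (.e true (nat_lit 3) (nat_lit 136) (nat_lit 2) (nat_lit 11) (.e true (nat_lit 2) (nat_lit 139) (nat_lit 2) (nat_lit 11) (.e false (nat_lit 2) (nat_lit 140) (nat_lit 2) (nat_lit 11) (.e false (nat_lit 2) (nat_lit 143) (nat_lit 2) (nat_lit 11) (.e true (nat_lit 2) (nat_lit 145) (nat_lit 2) (nat_lit 11) (.e true (nat_lit 1) (nat_lit 42) (nat_lit 14) (nat_lit 3) (.e true (nat_lit 2) (nat_lit 134) (nat_lit 2) (nat_lit 11) (.e false (nat_lit 2) (nat_lit 138) (nat_lit 2) (nat_lit 11) (.e false (nat_lit 1) (nat_lit 141) (nat_lit 2) (nat_lit 11) (.e true (nat_lit 1) (nat_lit 142) (nat_lit 2) (nat_lit 11) (.e false (nat_lit 2) (nat_lit 144) (nat_lit 2) (nat_lit 11) (.e true (nat_lit 2) (nat_lit 149) (nat_lit 2) (nat_lit 11) (.e false (nat_lit 2) (nat_lit 151) (nat_lit 2) (nat_lit 11) (.e false (nat_lit 2) (nat_lit 152) (nat_lit 2) (nat_lit 11) (.e false (nat_lit 2) (nat_lit 153) (nat_lit 2) (nat_lit 11) (.e false (nat_lit 2) (nat_lit 154) (nat_lit 2) (nat_lit 11) (.e true (nat_lit 1) (nat_lit 155) (nat_lit 2) (nat_lit 11) (.e true (nat_lit 2) (nat_lit 157) (nat_lit 2) (nat_lit 11) (.u (nat_lit 2) (.p (nat_lit 0) (nat_lit 1) (.p (nat_lit 6) (nat_lit 1) (.p (nat_lit 9) (nat_lit 1) (.n (nat_lit 10) (nat_lit 1) (.p (nat_lit 20) (nat_lit 1) (.p (nat_lit 22) (nat_lit 1) (.p (nat_lit 30) (nat_lit 1) (.n (nat_lit 31) (nat_lit 1) (.p (nat_lit 33) (nat_lit 1) (.n (nat_lit 118) (nat_lit 1) (.p (nat_lit 121) (nat_lit 1) (.n (nat_lit 128) (nat_lit 1) .z)))))))))))) .nil)))))))))))))))))))))))) .leaf) (nat_lit 98310) (nat_lit 719) (.p (nat_lit 289) (nat_lit 1) (.p (nat_lit 290) (nat_lit 2) (.p (nat_lit 291) (nat_lit 2) (.n (nat_lit 292) (nat_lit 3) (.p (nat_lit 293) (nat_lit 1) (.n (nat_lit 294) (nat_lit 2) (.p (nat_lit 295) (nat_lit 2) (.p (nat_lit 296) (nat_lit 2) (.p (nat_lit 297) (nat_lit 1) (.n (nat_lit 298) (nat_lit 1) (.n (nat_lit 300) (nat_lit 2) (.p (nat_lit 301) (nat_lit 2) (.n (nat_lit 303) (nat_lit 3) (.p (nat_lit 304) (nat_lit 3) .z)))))))))))))) (.ct dC2c_c52 (nat_lit 1) (nat_lit 5) (.s false (nat_lit 1) (nat_lit 14) (nat_lit 2) (nat_lit 7) (nat_lit 1) true (nat_lit 5) true (nat_lit 8) true (nat_lit 2) true (nat_lit 7) true (nat_lit 4) (.s true (nat_lit 1) (nat_lit 20) (nat_lit 2) (nat_lit 1) (nat_lit 4) true (nat_lit 2) true (nat_lit 6) true (nat_lit 0) true (nat_lit 7) true (nat_lit 8) (.s false (nat_lit 1) (nat_lit 48) (nat_lit 1) (nat_lit 1) (nat_lit 1) true (nat_lit 6) true (nat_lit 8) false (nat_lit 3) true (nat_lit 8) true (nat_lit 8) (.e false (nat_lit 2) (nat_lit 158) (nat_lit 2) (nat_lit 7) (.e true (nat_lit 3) (nat_lit 160) (nat_lit 2) (nat_lit 7) (.e true (nat_lit 2) (nat_lit 161) (nat_lit 2) (nat_lit 7) (.e false (nat_lit 3) (nat_lit 162) (nat_lit 2) (nat_lit 7) (.e false (nat_lit 2) (nat_lit 163) (nat_lit 2) (nat_lit 7) (.e true (nat_lit 2) (nat_lit 164) (nat_lit 2) (nat_lit 7) (.e false (nat_lit 2) (nat_lit 165) (nat_lit 2) (nat_lit 7) (.e false (nat_lit 2) (nat_lit 167) (nat_lit 2) (nat_lit 7) (.e false (nat_lit 1) (nat_lit 75) (nat_lit 7) (nat_lit 4) (.e true (nat_lit 1) (nat_lit 30) (nat_lit 20) (nat_lit 0) (.e false (nat_lit 1) (nat_lit 31) (nat_lit 20) (nat_lit 0) (.e false (nat_lit 3) (nat_lit 186) (nat_lit 1) (nat_lit 8) (.e true (nat_lit 3) (nat_lit 187) (nat_lit 1) (nat_lit 8) (.e true (nat_lit 1) (nat_lit 190) (nat_lit 1) (nat_lit 8) (.e true (nat_lit 1) (nat_lit 48) (nat_lit 10) (nat_lit 3) (.u (nat_lit 2) (.n (nat_lit 2) (nat_lit 1) (.p (nat_lit 4) (nat_lit 1) (.p (nat_lit 5) (nat_lit 1) (.p (nat_lit 11) (nat_lit 1) (.n (nat_lit 12) (nat_lit 1) (.n (nat_lit 60) (nat_lit 1) (.p (nat_lit 61) (nat_lit 1) .z))))))) .nil)))))))))))))))))))) (.nd (.nd .leaf (nat_lit 98311) (nat_lit 824) (.p (nat_lit 329) (nat_lit 2) .z) (.ct dC2c_c37 (nat_lit 1) (nat_lit 3) (.s true (nat_lit 1) (nat_lit 7) (nat_lit 2) (nat_lit 7) (nat_lit 4) true (nat_lit 2) true (nat_lit 5) true (nat_lit 3) true (nat_lit 6) true (nat_lit 3) (.e false (nat_lit 2) (nat_lit 190) (nat_lit 2) (nat_lit 6) .nil))) .leaf) (nat_lit 98315) (nat_lit 1136) (.p (nat_lit 335) (nat_lit 3) (.p (nat_lit 336) (nat_lit 1) (.p (nat_lit 337) (nat_lit 2) (.n (nat_lit 338) (nat_lit 3) (.n (nat_lit 339) (nat_lit 3) (.p (nat_lit 340) (nat_lit 3) (.n (nat_lit 342) (nat_lit 3) (.n (nat_lit 343) (nat_lit 1) (.p (nat_lit 344) (nat_lit 3) (.n (nat_lit 345) (nat_lit 2) (.p (nat_lit 346) (nat_lit 2) (.n (nat_lit 347) (nat_lit 1) (.n (nat_lit 348) (nat_lit 3) (.n (nat_lit 349) (nat_lit 2) (.n (nat_lit 350) (nat_lit 1) (.p (nat_lit 351) (nat_lit 1) (.n (nat_lit 353) (nat_lit 3) (.n (nat_lit 354) (nat_lit 1) (.p (nat_lit 356) (nat_lit 2) (.p (nat_lit 357) (nat_lit 2) (.p (nat_lit 358) (nat_lit 2) (.p (nat_lit 359) (nat_lit 2) (.n (nat_lit 360) (nat_lit 2) (.n (nat_lit 361) (nat_lit 2) (.n (nat_lit 362) (nat_lit 1) (.n (nat_lit 363) (nat_lit 3) (.p (nat_lit 364) (nat_lit 2) (.n (nat_lit 365) (nat_lit 3) (.n (nat_lit 366) (nat_lit 3) (.p (nat_lit 367) (nat_lit 2) (.n (nat_lit 368) (nat_lit 2) (.n (nat_lit 369) (nat_lit 3) (.n (nat_lit 370) (nat_lit 2) (.n (nat_lit 371) (nat_lit 1) (.n (nat_lit 372) (nat_lit 1) (.n (nat_lit 373) (nat_lit 2) (.n (nat_lit 374) (nat_lit 2) (.n (nat_lit 375) (nat_lit 1) (.n (nat_lit 376) (nat_lit 1) (.n (nat_lit 378) (nat_lit 3) (.p (nat_lit 380) (nat_lit 3) (.p (nat_lit 381) (nat_lit 2) (.n (nat_lit 382) (nat_lit 2) (.n (nat_lit 383) (nat_lit 1) (.n (nat_lit 384) (nat_lit 1) (.p (nat_lit 386) (nat_lit 3) (.p (nat_lit 390) (nat_lit 1) (.p (nat_lit 391) (nat_lit 1) (.p (nat_lit 393) (nat_lit 3) .z))))))))))))))))))))))))))))))))))))))))))))))))) (.ct dC2c_c308 (nat_lit 1) (nat_lit 8) (.s false (nat_lit 1) (nat_lit 14) (nat_lit 11) (nat_lit 2) (nat_lit 2) true (nat_lit 0) true (nat_lit 16) true (nat_lit 7) true (nat_lit 8) true (nat_lit 16) (.e true (nat_lit 1) (nat_lit 39) (nat_lit 33) (nat_lit 0) (.e true (nat_lit 1) (nat_lit 206) (nat_lit 2) (nat_lit 16) (.e true (nat_lit 2) (nat_lit 207) (nat_lit 2) (nat_lit 16) (.e true (nat_lit 2) (nat_lit 210) (nat_lit 2) (nat_lit 16) dC2c_i46)))))) .leaf)) (nat_lit 98316) (nat_lit 1006) (.p (nat_lit 340) (nat_lit 2) (.n (nat_lit 341) (nat_lit 2) (.p (nat_lit 342) (nat_lit 2) (.n (nat_lit 343) (nat_lit 1) (.p (nat_lit 344) (nat_lit 1) (.p (nat_lit 345) (nat_lit 1) (.n (nat_lit 346) (nat_lit 3) (.p (nat_lit 347) (nat_lit 2) (.p (nat_lit 349) (nat_lit 1) (.n (nat_lit 350) (nat_lit 2) (.p (nat_lit 351) (nat_lit 2) (.n (nat_lit 352) (nat_lit 3) (.p (nat_lit 353) (nat_lit 3) (.p (nat_lit 354) (nat_lit 2) (.p (nat_lit 355) (nat_lit 1) (.n (nat_lit 359) (nat_lit 2) (.n (nat_lit 361) (nat_lit 1) (.n (nat_lit 362) (nat_lit 3) (.p (nat_lit 363) (nat_lit 2) (.p (nat_lit 364) (nat_lit 2) (.n (nat_lit 366) (nat_lit 2) (.n (nat_lit 367) (nat_lit 1) (.p (nat_lit 368) (nat_lit 3) (.p (nat_lit 369) (nat_lit 2) (.p (nat_lit 370) (nat_lit 3) (.n (nat_lit 372) (nat_lit 1) (.n (nat_lit 373) (nat_lit 3) (.n (nat_lit 374) (nat_lit 1) (.p (nat_lit 376) (nat_lit 3) (.p (nat_lit 382) (nat_lit 2) (.n (nat_lit 383) (nat_lit 1) (.p (nat_lit 385) (nat_lit 3) (.n (nat_lit 388) (nat_lit 3) (.n (nat_lit 396) (nat_lit 3) .z)))))))))))))))))))))))))))))))))) (.ct dC2c_c308 (nat_lit 1) (nat_lit 8) (.s false (nat_lit 1) (nat_lit 14) (nat_lit 12) (nat_lit 2) (nat_lit 2) true (nat_lit 0) true (nat_lit 16) true (nat_lit 7) true (nat_lit 8) true (nat_lit 16) (.e true (nat_lit 1) (nat_lit 39) (nat_lit 34) (nat_lit 0) (.e true (nat_lit 1) (nat_lit 205) (nat_lit 2) (nat_lit 16) (.e false (nat_lit 1) (nat_lit 207) (nat_lit 2) (nat_lit 16) (.e true (nat_lit 3) (nat_lit 208) (nat_lit 2) (nat_lit 16) (.e true (nat_lit 3) (nat_lit 209) (nat_lit 2) (nat_lit 16) (.e true (nat_lit 2) (nat_lit 210) (nat_lit 2) (nat_lit 16) (.e false (nat_lit 3) (nat_lit 211) (nat_lit 2) (nat_lit 16) (.e true (nat_lit 3) (nat_lit 212) (nat_lit 2) (nat_lit 16) (.e false (nat_lit 1) (nat_lit 215) (nat_lit 2) (nat_lit 16) dC2c_i47))))))))))) (.nd (.nd (.nd .leaf (nat_lit 98317) (nat_lit 1141) (.p (nat_lit 335) (nat_lit 2) (.n (nat_lit 336) (nat_lit 2) (.p (nat_lit 337) (nat_lit 3) (.p (nat_lit 338) (nat_lit 3) (.p (nat_lit 339) (nat_lit 2) (.p (nat_lit 341) (nat_lit 3) (.n (nat_lit 343) (nat_lit 1) (.n (nat_lit 344) (nat_lit 3) (.n (nat_lit 345) (nat_lit 3) (.n (nat_lit 346) (nat_lit 2) (.n (nat_lit 347) (nat_lit 3) (.n (nat_lit 348) (nat_lit 3) (.p (nat_lit 349) (nat_lit 1) (.n (nat_lit 350) (nat_lit 1) (.p (nat_lit 352) (nat_lit 3) (.p (nat_lit 353) (nat_lit 2) (.n (nat_lit 354) (nat_lit 2) (.n (nat_lit 356) (nat_lit 1) (.n (nat_lit 357) (nat_lit 2) (.n (nat_lit 358) (nat_lit 1) (.n (nat_lit 359) (nat_lit 2) (.p (nat_lit 360) (nat_lit 3) (.n (nat_lit 361) (nat_lit 1) (.p (nat_lit 362) (nat_lit 3) (.p (nat_lit 363) (nat_lit 1) (.p (nat_lit 364) (nat_lit 1) (.n (nat_lit 365) (nat_lit 3) (.n (nat_lit 366) (nat_lit 3) (.n (nat_lit 367) (nat_lit 1) (.p (nat_lit 368) (nat_lit 3) (.n (nat_lit 369) (nat_lit 2) (.p (nat_lit 370) (nat_lit 3) (.n (nat_lit 372) (nat_lit 1) (.n (nat_lit 375) (nat_lit 1) (.p (nat_lit 376) (nat_lit 2) (.n (nat_lit 378) (nat_lit 3) (.p (nat_lit 380) (nat_lit 2) (.n (nat_lit 381) (nat_lit 1) (.p (nat_lit 382) (nat_lit 1) (.p (nat_lit 383) (nat_lit 1) (.n (nat_lit 384) (nat_lit 1) (.p (nat_lit 385) (nat_lit 3) (.p (nat_lit 386) (nat_lit 3) (.n (nat_lit 388) (nat_lit 3) (.p (nat_lit 390) (nat_lit 1) (.p (nat_lit 391) (nat_lit 1) (.p (nat_lit 393) (nat_lit 3) (.n (nat_lit 396) (nat_lit 3) .z)))))))))))))))))))))))))))))))))))))))))))))))) (.ct dC2c_c308 (nat_lit 1) (nat_lit 8) (.s true (nat_lit 1) (nat_lit 20) (nat_lit 13) (nat_lit 1) (nat_lit 1) true (nat_lit 2) true (nat_lit 17) true (nat_lit 4) true (nat_lit 8) true (nat_lit 17) (.e false (nat_lit 1) (nat_lit 47) (nat_lit 28) (nat_lit 2) (.e false (nat_lit 3) (nat_lit 252) (nat_lit 1) (nat_lit 17) (.e false (nat_lit 1) (nat_lit 253) (nat_lit 1) (nat_lit 17) (.e true (nat_lit 3) (nat_lit 255) (nat_lit 1) (nat_lit 17) (.e false (nat_lit 2) (nat_lit 257) (nat_lit 1) (nat_lit 17) (.e true (nat_lit 1) (nat_lit 258) (nat_lit 1) (nat_lit 17) dC2c_i48)))))))) .leaf) (nat_lit 98320) (nat_lit 1305) (.n (nat_lit 398) (nat_lit 2) (.n (nat_lit 399) (nat_lit 1) (.n (nat_lit 400) (nat_lit 1) (.p (nat_lit 401) (nat_lit 3) (.n (nat_lit 402) (nat_lit 1) (.p (nat_lit 403) (nat_lit 3) (.n (nat_lit 404) (nat_lit 2) (.p (nat_lit 406) (nat_lit 2) (.n (nat_lit 407) (nat_lit 1) (.p (nat_lit 408) (nat_lit 1) (.p (nat_lit 409) (nat_lit 3) (.p (nat_lit 410) (nat_lit 3) (.p (nat_lit 412) (nat_lit 2) (.p (nat_lit 413) (nat_lit 2) (.p (nat_lit 414) (nat_lit 3) (.p (nat_lit 415) (nat_lit 1) (.n (nat_lit 416) (nat_lit 3) (.p (nat_lit 418) (nat_lit 1) (.p (nat_lit 420) (nat_lit 1) (.n (nat_lit 421) (nat_lit 2) (.n (nat_lit 430) (nat_lit 3) (.n (nat_lit 431) (nat_lit 1) (.p (nat_lit 432) (nat_lit 1) (.p (nat_lit 435) (nat_lit 2) .z)))))))))))))))))))))))) (.ct dC2c_c293 (nat_lit 1) (nat_lit 5) (.s true (nat_lit 1) (nat_lit 96) (nat_lit 0) (nat_lit 2) (nat_lit 2) true (nat_lit 11) true (nat_lit 14) false (nat_lit 5) true (nat_lit 16) true (nat_lit 14) (.e true (nat_lit 1) (nat_lit 190) (nat_lit 5) (nat_lit 11) (.e true (nat_lit 1) (nat_lit 252) (nat_lit 2) (nat_lit 14) (.e true (nat_lit 1) (nat_lit 253) (nat_lit 2) (nat_lit 14) (.e false (nat_lit 3) (nat_lit 254) (nat_lit 2) (nat_lit 14) dC2c_i49)))))) .leaf) (nat_lit 98321) (nat_lit 1306) (.n (nat_lit 397) (nat_lit 1) (.p (nat_lit 398) (nat_lit 3) (.p (nat_lit 399) (nat_lit 1) (.n (nat_lit 400) (nat_lit 3) (.p (nat_lit 401) (nat_lit 1) (.n (nat_lit 402) (nat_lit 2) (.n (nat_lit 403) (nat_lit 2) (.p (nat_lit 404) (nat_lit 3) (.n (nat_lit 405) (nat_lit 2) (.n (nat_lit 407) (nat_lit 3) (.n (nat_lit 408) (nat_lit 2) (.n (nat_lit 410) (nat_lit 1) (.n (nat_lit 412) (nat_lit 2) (.n (nat_lit 413) (nat_lit 2) (.p (nat_lit 414) (nat_lit 1) (.n (nat_lit 415) (nat_lit 1) (.p (nat_lit 416) (nat_lit 1) (.n (nat_lit 420) (nat_lit 2) (.n (nat_lit 421) (nat_lit 1) (.p (nat_lit 430) (nat_lit 1) (.p (nat_lit 435) (nat_lit 1) .z))))))))))))))))))))) (.ct dC2c_c293 (nat_lit 1) (nat_lit 5) (.s false (nat_lit 1) (nat_lit 96) (nat_lit 2) (nat_lit 2) (nat_lit 0) true (nat_lit 11) true (nat_lit 16) false (nat_lit 5) true (nat_lit 14) true (nat_lit 14) (.e false (nat_lit 1) (nat_lit 190) (nat_lit 5) (nat_lit 11) (.e false (nat_lit 1) (nat_lit 329) (nat_lit 0) (nat_lit 16) (.e false (nat_lit 2) (nat_lit 252) (nat_lit 2) (nat_lit 14) (.e true (nat_lit 2) (nat_lit 253) (nat_lit 2) (nat_lit 14) (.e true (nat_lit 2) (nat_lit 254) (nat_lit 2) (nat_lit 14) (.e true (nat_lit 1) (nat_lit 255) (nat_lit 2) (nat_lit 14) (.e false (nat_lit 1) (nat_lit 259) (nat_lit 2) (nat_lit 14) (.e true (nat_lit 1) (nat_lit 260) (nat_lit 2) (nat_lit 14) dC2c_i50)))))))))) (.nd .leaf (nat_lit 98322) (nat_lit 1412) (.n (nat_lit 437) (nat_lit 1) (.n (nat_lit 438) (nat_lit 2) (.p (nat_lit 441) (nat_lit 2) (.p (nat_lit 442) (nat_lit 1) (.p (nat_lit 443) (nat_lit 3) (.p (nat_lit 444) (nat_lit 2) (.p (nat_lit 447) (nat_lit 1) (.n (nat_lit 448) (nat_lit 1) (.n (nat_lit 450) (nat_lit 1) .z))))))))) (.ct dC2c_c53 (nat_lit 1) (nat_lit 3) (.s false (nat_lit 1) (nat_lit 96) (nat_lit 1) (nat_lit 2) (nat_lit 2) true (nat_lit 7) true (nat_lit 9) false (nat_lit 3) true (nat_lit 10) true (nat_lit 9) (.e false (nat_lit 1) (nat_lit 190) (nat_lit 6) (nat_lit 7) (.e false (nat_lit 1) (nat_lit 297) (nat_lit 2) (nat_lit 9) (.e true (nat_lit 2) (nat_lit 329) (nat_lit 1) (nat_lit 10) (.e true (nat_lit 3) (nat_lit 289) (nat_lit 2) (nat_lit 9) (.e false (nat_lit 2) (nat_lit 290) (nat_lit 2) (nat_lit 9) (.e false (nat_lit 1) (nat_lit 291) (nat_lit 2) (nat_lit 9) (.e false (nat_lit 1) (nat_lit 292) (nat_lit 2) (nat_lit 9) (.e false (nat_lit 2) (nat_lit 293) (nat_lit 2) (nat_lit 9) (.e true (nat_lit 1) (nat_lit 294) (nat_lit 2) (nat_lit 9) (.e false (nat_lit 2) (nat_lit 295) (nat_lit 2) (nat_lit 9) (.e false (nat_lit 2) (nat_lit 296) (nat_lit 2) (nat_lit 9) (.e true (nat_lit 3) (nat_lit 298) (nat_lit 2) (nat_lit 9) (.e false (nat_lit 2) (nat_lit 300) (nat_lit 2) (nat_lit 9) (.e true (nat_lit 2) (nat_lit 301) (nat_lit 2) (nat_lit 9) (.e true (nat_lit 1) (nat_lit 303) (nat_lit 2) (nat_lit 9) (.e false (nat_lit 1) (nat_lit 304) (nat_lit 2) (nat_lit 9) (.u (nat_lit 2) (.n (nat_lit 0) (nat_lit 1) (.n (nat_lit 1) (nat_lit 1) (.p (nat_lit 4) (nat_lit 2) (.n (nat_lit 5) (nat_lit 1) (.n (nat_lit 8) (nat_lit 1) (.p (nat_lit 9) (nat_lit 2) (.p (nat_lit 14) (nat_lit 1) .z))))))) .nil))))))))))))))))))) .leaf)))) (nat_lit 98323) (nat_lit 1414) (.p (nat_lit 436) (nat_lit 1) (.p (nat_lit 437) (nat_lit 1) (.p (nat_lit 438) (nat_lit 2) (.p (nat_lit 442) (nat_lit 3) (.n (nat_lit 443) (nat_lit 1) (.p (nat_lit 444) (nat_lit 2) (.n (nat_lit 447) (nat_lit 2) (.p (nat_lit 448) (nat_lit 2) (.n (nat_lit 450) (nat_lit 3) .z))))))))) (.ct dC2c_c53 (nat_lit 1) (nat_lit 3) (.s false (nat_lit 1) (nat_lit 14) (nat_lit 7) (nat_lit 7) (nat_lit 1) true (nat_lit 3) true (nat_lit 10) true (nat_lit 4) true (nat_lit 6) true (nat_lit 6) (.e false (nat_lit 2) (nat_lit 329) (nat_lit 1) (nat_lit 10) (.e true (nat_lit 3) (nat_lit 164) (nat_lit 7) (nat_lit 6) (.e false (nat_lit 3) (nat_lit 165) (nat_lit 7) (nat_lit 6) (.e true (nat_lit 2) (nat_lit 167) (nat_lit 7) (nat_lit 6) (.e false (nat_lit 1) (nat_lit 166) (nat_lit 7) (nat_lit 6) (.u (nat_lit 2) (.p (nat_lit 0) (nat_lit 1) (.p (nat_lit 1) (nat_lit 2) (.n (nat_lit 2) (nat_lit 2) (.n (nat_lit 3) (nat_lit 2) (.p (nat_lit 4) (nat_lit 1) (.p (nat_lit 5) (nat_lit 2) (.p (nat_lit 6) (nat_lit 2) (.n (nat_lit 7) (nat_lit 1) (.n (nat_lit 8) (nat_lit 2) (.p (nat_lit 14) (nat_lit 2) (.p (nat_lit 60) (nat_lit 1) (.n (nat_lit 61) (nat_lit 1) .z)))))))))))) .nil)))))))) (.nd (.nd (.nd (.nd (.nd .leaf (nat_lit 99329) (nat_lit 327) (.p (nat_lit 180) (nat_lit 1) .z) .df .leaf) (nat_lit 99330) (nat_lit 377) (.p (nat_lit 195) (nat_lit 1) .z) .df .leaf) (nat_lit 99332) (nat_lit 663) (.p (nat_lit 252) (nat_lit 1) (.n (nat_lit 253) (nat_lit 2) (.p (nat_lit 254) (nat_lit 3) (.n (nat_lit 255) (nat_lit 1) (.n (nat_lit 256) (nat_lit 2) (.n (nat_lit 257) (nat_lit 3) (.n (nat_lit 258) (nat_lit 2) (.n (nat_lit 259) (nat_lit 3) (.p (nat_lit 260) (nat_lit 3) (.p (nat_lit 262) (nat_lit 2) (.n (nat_lit 265) (nat_lit 2) (.n (nat_lit 266) (nat_lit 2) (.n (nat_lit 267) (nat_lit 3) (.n (nat_lit 269) (nat_lit 3) (.n (nat_lit 270) (nat_lit 3) (.n (nat_lit 271) (nat_lit 3) (.n (nat_lit 272) (nat_lit 2) (.n (nat_lit 273) (nat_lit 3) (.n (nat_lit 274) (nat_lit 1) (.n (nat_lit 275) (nat_lit 3) (.p (nat_lit 276) (nat_lit 3) (.p (nat_lit 277) (nat_lit 3) (.n (nat_lit 279) (nat_lit 2) (.p (nat_lit 282) (nat_lit 2) (.n (nat_lit 283) (nat_lit 2) (.p (nat_lit 285) (nat_lit 2) (.n (nat_lit 286) (nat_lit 1) (.p (nat_lit 288) (nat_lit 2) .z)))))))))))))))))))))))))))) (.ct dC2c_c292 (nat_lit 1) (nat_lit 9) (.s true (nat_lit 1) (nat_lit 42) (nat_lit 1) (nat_lit 2) (nat_lit 1) true (nat_lit 9) true (nat_lit 12) false (nat_lit 3) true (nat_lit 12) true (nat_lit 11) (.e true (nat_lit 1) (nat_lit 175) (nat_lit 1) (nat_lit 12) (.e false (nat_lit 1) (nat_lit 42) (nat_lit 15) (nat_lit 3) (.e false (nat_lit 1) (nat_lit 184) (nat_lit 1) (nat_lit 12) (.e true (nat_lit 1) (nat_lit 132) (nat_lit 2) (nat_lit 11) (.e false (nat_lit 1) (nat_lit 134) (nat_lit 2) (nat_lit 11) (.e false (nat_lit 2) (nat_lit 135) (nat_lit 2) (nat_lit 11) (.e false (nat_lit 2) (nat_lit 136) (nat_lit 2) (nat_lit 11) (.e false (nat_lit 1) (nat_lit 137) (nat_lit 2) (nat_lit 11) (.e true (nat_lit 3) (nat_lit 141) (nat_lit 2) (nat_lit 11) (.e false (nat_lit 3) (nat_lit 144) (nat_lit 2) (nat_lit 11) (.e false (nat_lit 2) (nat_lit 145) (nat_lit 2) (nat_lit 11) (.e true (nat_lit 1) (nat_lit 147) (nat_lit 2) (nat_lit 11) (.e false (nat_lit 3) (nat_lit 149) (nat_lit 2) (nat_lit 11) (.e true (nat_lit 3) (nat_lit 150) (nat_lit 2) (nat_lit 11) (.e true (nat_lit 3) (nat_lit 151) (nat_lit 2) (nat_lit 11) (.e false (nat_lit 3) (nat_lit 152) (nat_lit 2) (nat_lit 11) (.e true (nat_lit 3) (nat_lit 153) (nat_lit 2) (nat_lit 11) (.e true (nat_lit 2) (nat_lit 154) (nat_lit 2) (nat_lit 11) (.e true (nat_lit 2) (nat_lit 155) (nat_lit 2) (nat_lit 11) (.e false (nat_lit 2) (nat_lit 156) (nat_lit 2) (nat_lit 11) (.e false (nat_lit 3) (nat_lit 157) (nat_lit 2) (nat_lit 11) (.u (nat_lit 2) (.p (nat_lit 1) (nat_lit 1) (.p (nat_lit 3) (nat_lit 1) (.p (nat_lit 5) (nat_lit 1) (.p (nat_lit 6) (nat_lit 1) (.p (nat_lit 17) (nat_lit 1) .z))))) .nil)))))))))))))))))))))))) (.nd (.nd .leaf (nat_lit 99334) (nat_lit 803) (.n (nat_lit 305) (nat_lit 3) (.p (nat_lit 307) (nat_lit 3) (.p (nat_lit 308) (nat_lit 2) (.p (nat_lit 309) (nat_lit 3) (.p (nat_lit 311) (nat_lit 1) (.p (nat_lit 312) (nat_lit 1) (.n (nat_lit 313) (nat_lit 1) (.p (nat_lit 314) (nat_lit 1) (.n (nat_lit 315) (nat_lit 3) (.p (nat_lit 316) (nat_lit 1) (.n (nat_lit 317) (nat_lit 1) (.n (nat_lit 319) (nat_lit 1) (.p (nat_lit 320) (nat_lit 1) (.p (nat_lit 321) (nat_lit 1) (.p (nat_lit 322) (nat_lit 1) .z))))))))))))))) (.ct dC2c_c277 (nat_lit 1) (nat_lit 5) (.s true (nat_lit 1) (nat_lit 16) (nat_lit 2) (nat_lit 6) (nat_lit 2) true (nat_lit 4) true (nat_lit 8) true (nat_lit 2) true (nat_lit 8) true (nat_lit 5) (.e false (nat_lit 1) (nat_lit 80) (nat_lit 7) (nat_lit 4) (.e true (nat_lit 1) (nat_lit 81) (nat_lit 7) (nat_lit 4) (.e true (nat_lit 1) (nat_lit 84) (nat_lit 7) (nat_lit 4) (.e true (nat_lit 2) (nat_lit 85) (nat_lit 7) (nat_lit 4) (.e true (nat_lit 1) (nat_lit 87) (nat_lit 7) (nat_lit 4) (.e false (nat_lit 1) (nat_lit 90) (nat_lit 7) (nat_lit 4) (.e true (nat_lit 1) (nat_lit 184) (nat_lit 2) (nat_lit 8) (.e false (nat_lit 1) (nat_lit 45) (nat_lit 16) (nat_lit 2) (.e false (nat_lit 2) (nat_lit 169) (nat_lit 2) (nat_lit 8) (.e true (nat_lit 1) (nat_lit 170) (nat_lit 2) (nat_lit 8) (.e false (nat_lit 1) (nat_lit 171) (nat_lit 2) (nat_lit 8) (.e true (nat_lit 3) (nat_lit 172) (nat_lit 2) (nat_lit 8) (.e true (nat_lit 2) (nat_lit 173) (nat_lit 2) (nat_lit 8) (.e false (nat_lit 1) (nat_lit 175) (nat_lit 2) (nat_lit 8) (.e false (nat_lit 1) (nat_lit 176) (nat_lit 2) (nat_lit 8) (.e true (nat_lit 1) (nat_lit 177) (nat_lit 2) (nat_lit 8) (.e true (nat_lit 2) (nat_lit 178) (nat_lit 2) (nat_lit 8) (.e true (nat_lit 1) (nat_lit 179) (nat_lit 2) (nat_lit 8) (.e false (nat_lit 1) (nat_lit 180) (nat_lit 2) (nat_lit 8) (.e true (nat_lit 1) (nat_lit 182) (nat_lit 2) (nat_lit 8) (.u (nat_lit 2) (.n (nat_lit 0) (nat_lit 1) (.n (nat_lit 1) (nat_lit 1) (.n (nat_lit 3) (nat_lit 1) (.p (nat_lit 4) (nat_lit 1) (.p (nat_lit 8) (nat_lit 1) (.p (nat_lit 9) (nat_lit 1) (.p (nat_lit 10) (nat_lit 1) .z))))))) .nil))))))))))))))))))))))) .leaf) (nat_lit 99342) (nat_lit 1339) (.n (nat_lit 397) (nat_lit 2) (.p (nat_lit 398) (nat_lit 2) (.p (nat_lit 399) (nat_lit 1) (.p (nat_lit 400) (nat_lit 1) (.p (nat_lit 401) (nat_lit 2) (.n (nat_lit 402) (nat_lit 3) (.p (nat_lit 404) (nat_lit 1) (.p (nat_lit 405) (nat_lit 3) (.n (nat_lit 407) (nat_lit 1) (.n (nat_lit 408) (nat_lit 1) (.n (nat_lit 409) (nat_lit 2) (.n (nat_lit 410) (nat_lit 1) (.n (nat_lit 411) (nat_lit 1) (.n (nat_lit 412) (nat_lit 3) (.n (nat_lit 413) (nat_lit 3) (.n (nat_lit 414) (nat_lit 3) (.n (nat_lit 415) (nat_lit 3) (.n (nat_lit 416) (nat_lit 3) (.n (nat_lit 418) (nat_lit 2) (.p (nat_lit 420) (nat_lit 1) (.p (nat_lit 421) (nat_lit 2) (.n (nat_lit 423) (nat_lit 2) (.n (nat_lit 430) (nat_lit 3) (.n (nat_lit 431) (nat_lit 3) (.p (nat_lit 432) (nat_lit 1) (.n (nat_lit 435) (nat_lit 2) .z)))))))))))))))))))))))))) (.ct dC2c_c293 (nat_lit 1) (nat_lit 6) (.s true (nat_lit 1) (nat_lit 16) (nat_lit 2) (nat_lit 2) (nat_lit 14) true (nat_lit 0) true (nat_lit 6) true (nat_lit 5) true (nat_lit 14) true (nat_lit 14) (.e true (nat_lit 1) (nat_lit 42) (nat_lit 39) (nat_lit 0) (.e false (nat_lit 1) (nat_lit 96) (nat_lit 16) (nat_lit 5) (.e false (nat_lit 3) (nat_lit 253) (nat_lit 2) (nat_lit 14) (.e false (nat_lit 3) (nat_lit 254) (nat_lit 2) (nat_lit 14) (.e false (nat_lit 3) (nat_lit 257) (nat_lit 2) (nat_lit 14) (.e false (nat_lit 1) (nat_lit 258) (nat_lit 2) (nat_lit 14) (.e true (nat_lit 1) (nat_lit 259) (nat_lit 2) (nat_lit 14) dC2c_i51))))))))) .leaf)) (nat_lit 99343) (nat_lit 1341) (.p (nat_lit 397) (nat_lit 1) (.n (nat_lit 398) (nat_lit 2) (.n (nat_lit 399) (nat_lit 1) (.n (nat_lit 400) (nat_lit 1) (.n (nat_lit 401) (nat_lit 2) (.p (nat_lit 402) (nat_lit 2) (.p (nat_lit 403) (nat_lit 2) (.n (nat_lit 405) (nat_lit 3) (.n (nat_lit 406) (nat_lit 1) (.n (nat_lit 407) (nat_lit 3) (.n (nat_lit 408) (nat_lit 1) (.n (nat_lit 409) (nat_lit 3) (.n (nat_lit 410) (nat_lit 3) (.p (nat_lit 411) (nat_lit 2) (.p (nat_lit 412) (nat_lit 3) (.p (nat_lit 413) (nat_lit 3) (.p (nat_lit 414) (nat_lit 3) (.n (nat_lit 415) (nat_lit 2) (.p (nat_lit 416) (nat_lit 1) (.n (nat_lit 418) (nat_lit 2) (.p (nat_lit 420) (nat_lit 3) (.p (nat_lit 421) (nat_lit 2) (.p (nat_lit 423) (nat_lit 1) (.n (nat_lit 430) (nat_lit 2) (.p (nat_lit 431) (nat_lit 3) (.p (nat_lit 432) (nat_lit 3) (.n (nat_lit 435) (nat_lit 3) .z))))))))))))))))))))))))))) (.ct dC2c_c293 (nat_lit 1) (nat_lit 6) (.s false (nat_lit 1) (nat_lit 97) (nat_lit 2) (nat_lit 1) (nat_lit 1) true (nat_lit 10) true (nat_lit 15) false (nat_lit 6) true (nat_lit 14) true (nat_lit 15) (.e false (nat_lit 1) (nat_lit 180) (nat_lit 6) (nat_lit 10) (.e false (nat_lit 1) (nat_lit 319) (nat_lit 1) (nat_lit 15) (.e true (nat_lit 1) (nat_lit 252) (nat_lit 2) (nat_lit 14) (.e false (nat_lit 2) (nat_lit 253) (nat_lit 2) (nat_lit 14) (.e true (nat_lit 3) (nat_lit 254) (nat_lit 2) (nat_lit 14) (.e false (nat_lit 1) (nat_lit 255) (nat_lit 2) (nat_lit 14) (.e false (nat_lit 2) (nat_lit 256) (nat_lit 2) (nat_lit 14) dC2c_i52))))))))) (.nd (.nd (.nd .leaf (nat_lit 100353) (nat_lit 338) (.p (nat_lit 169) (nat_lit 3) (.n (nat_lit 170) (nat_lit 2) (.p (nat_lit 171) (nat_lit 1) (.n (nat_lit 173) (nat_lit 2) (.n (nat_lit 174) (nat_lit 3) (.n (nat_lit 175) (nat_lit 2) (.n (nat_lit 176) (nat_lit 1) (.n (nat_lit 177) (nat_lit 2) (.p (nat_lit 178) (nat_lit 2) (.p (nat_lit 179) (nat_lit 1) (.p (nat_lit 180) (nat_lit 1) (.p (nat_lit 181) (nat_lit 1) (.n (nat_lit 182) (nat_lit 2) (.p (nat_lit 184) (nat_lit 1) .z)))))))))))))) (.ct dC2c_c276 (nat_lit 1) (nat_lit 7) (.s true (nat_lit 1) (nat_lit 6) (nat_lit 5) (nat_lit 2) (nat_lit 2) true (nat_lit 0) true (nat_lit 6) true (nat_lit 3) true (nat_lit 4) true (nat_lit 6) (.s true (nat_lit 1) (nat_lit 7) (nat_lit 5) (nat_lit 1) (nat_lit 2) true (nat_lit 0) true (nat_lit 6) true (nat_lit 2) true (nat_lit 4) true (nat_lit 7) (.s false (nat_lit 1) (nat_lit 16) (nat_lit 1) (nat_lit 2) (nat_lit 2) true (nat_lit 3) true (nat_lit 6) true (nat_lit 0) true (nat_lit 7) true (nat_lit 6) (.e false (nat_lit 1) (nat_lit 81) (nat_lit 2) (nat_lit 6) (.e true (nat_lit 1) (nat_lit 85) (nat_lit 2) (nat_lit 6) (.e true (nat_lit 1) (nat_lit 86) (nat_lit 2) (nat_lit 6) (.e true (nat_lit 1) (nat_lit 19) (nat_lit 16) (nat_lit 0) (.e true (nat_lit 1) (nat_lit 87) (nat_lit 2) (nat_lit 6) (.e false (nat_lit 1) (nat_lit 90) (nat_lit 2) (nat_lit 6) (.e true (nat_lit 1) (nat_lit 34) (nat_lit 7) (nat_lit 2) (.e true (nat_lit 1) (nat_lit 99) (nat_lit 1) (nat_lit 7) (.u (nat_lit 2) (.n (nat_lit 0) (nat_lit 1) (.p (nat_lit 1) (nat_lit 1) (.p (nat_lit 5) (nat_lit 1) .z))) .nil))))))))))))) .leaf) (nat_lit 100354) (nat_lit 378) (.p (nat_lit 196) (nat_lit 1) .z) .df .leaf) (nat_lit 100356) (nat_lit 680) (.n (nat_lit 252) (nat_lit 2) (.p (nat_lit 253) (nat_lit 2) (.n (nat_lit 254) (nat_lit 3) (.n (nat_lit 255) (nat_lit 3) (.n (nat_lit 256) (nat_lit 2) (.p (nat_lit 257) (nat_lit 1) (.p (nat_lit 258) (nat_lit 1) (.n (nat_lit 259) (nat_lit 1) (.p (nat_lit 260) (nat_lit 1) (.p (nat_lit 261) (nat_lit 3) (.p (nat_lit 262) (nat_lit 3) (.p (nat_lit 263) (nat_lit 1) (.n (nat_lit 264) (nat_lit 3) (.p (nat_lit 266) (nat_lit 2) (.n (nat_lit 267) (nat_lit 3) (.n (nat_lit 269) (nat_lit 2) (.n (nat_lit 270) (nat_lit 3) (.p (nat_lit 271) (nat_lit 1) (.n (nat_lit 272) (nat_lit 3) (.p (nat_lit 273) (nat_lit 1) (.n (nat_lit 274) (nat_lit 3) (.n (nat_lit 275) (nat_lit 3) (.n (nat_lit 276) (nat_lit 1) (.n (nat_lit 277) (nat_lit 1) (.n (nat_lit 279) (nat_lit 2) (.n (nat_lit 282) (nat_lit 3) (.n (nat_lit 283) (nat_lit 3) (.p (nat_lit 284) (nat_lit 1) (.p (nat_lit 285) (nat_lit 3) (.n (nat_lit 286) (nat_lit 2) (.p (nat_lit 288) (nat_lit 2) .z))))))))))))))))))))))))))))))) (.ct dC2c_c292 (nat_lit 1) (nat_lit 9) (.s true (nat_lit 1) (nat_lit 17) (nat_lit 2) (nat_lit 2) (nat_lit 4) true (nat_lit 3) true (nat_lit 9) true (nat_lit 2) true (nat_lit 11) true (nat_lit 11) (.e false (nat_lit 1) (nat_lit 43) (nat_lit 14) (nat_lit 3) (.e true (nat_lit 2) (nat_lit 40) (nat_lit 17) (nat_lit 2) (.e false (nat_lit 2) (nat_lit 41) (nat_lit 17) (nat_lit 2) (.e true (nat_lit 2) (nat_lit 133) (nat_lit 2) (nat_lit 11) (.e false (nat_lit 1) (nat_lit 134) (nat_lit 2) (nat_lit 11) (.e false (nat_lit 2) (nat_lit 135) (nat_lit 2) (nat_lit 11) (.e false (nat_lit 1) (nat_lit 136) (nat_lit 2) (nat_lit 11) (.e true (nat_lit 1) (nat_lit 137) (nat_lit 2) (nat_lit 11) (.e false (nat_lit 2) (nat_lit 138) (nat_lit 2) (nat_lit 11) (.e true (nat_lit 3) (nat_lit 141) (nat_lit 2) (nat_lit 11) (.e true (nat_lit 2) (nat_lit 142) (nat_lit 2) (nat_lit 11) (.e false (nat_lit 2) (nat_lit 145) (nat_lit 2) (nat_lit 11) (.e false (nat_lit 2) (nat_lit 147) (nat_lit 2) (nat_lit 11) (.e true (nat_lit 3) (nat_lit 149) (nat_lit 2) (nat_lit 11) (.e true (nat_lit 1) (nat_lit 150) (nat_lit 2) (nat_lit 11) (.e false (nat_lit 1) (nat_lit 151) (nat_lit 2) (nat_lit 11) (.e false (nat_lit 3) (nat_lit 152) (nat_lit 2) (nat_lit 11) (.e false (nat_lit 2) (nat_lit 153) (nat_lit 2) (nat_lit 11) (.e false (nat_lit 1) (nat_lit 154) (nat_lit 2) (nat_lit 11) (.e true (nat_lit 3) (nat_lit 155) (nat_lit 2) (nat_lit 11) (.e false (nat_lit 3) (nat_lit 156) (nat_lit 2) (nat_lit 11) (.e true (nat_lit 3) (nat_lit 157) (nat_lit 2) (nat_lit 11) (.u (nat_lit 2) (.p (nat_lit 0) (nat_lit 1) (.p (nat_lit 2) (nat_lit 1) (.p (nat_lit 3) (nat_lit 2) (.p (nat_lit 4) (nat_lit 1) (.n (nat_lit 5) (nat_lit 1) (.p (nat_lit 6) (nat_lit 1) (.n (nat_lit 9) (nat_lit 2) (.p (nat_lit 11) (nat_lit 1) (.p (nat_lit 12) (nat_lit 1) (.n (nat_lit 13) (nat_lit 1) (.n (nat_lit 17) (nat_lit 1) (.n (nat_lit 19) (nat_lit 1) (.p (nat_lit 20) (nat_lit 1) (.n (nat_lit 21) (nat_lit 1) (.p (nat_lit 22) (nat_lit 1) (.p (nat_lit 23) (nat_lit 1) (.p (nat_lit 24) (nat_lit 2) (.p (nat_lit 25) (nat_lit 1) (.p (nat_lit 30) (nat_lit 2) (.p (nat_lit 31) (nat_lit 1) (.p (nat_lit 33) (nat_lit 1) (.p (nat_lit 118) (nat_lit 1) (.n (nat_lit 120) (nat_lit 1) .z))))))))))))))))))))))) .nil))))))))))))))))))))))))) (.nd (.nd .leaf (nat_lit 100358) (nat_lit 791) (.n (nat_lit 305) (nat_lit 3) (.n (nat_lit 307) (nat_lit 2) (.n (nat_lit 308) (nat_lit 1) (.p (nat_lit 309) (nat_lit 3) (.p (nat_lit 310) (nat_lit 3) (.p (nat_lit 311) (nat_lit 2) (.p (nat_lit 312) (nat_lit 2) (.p (nat_lit 313) (nat_lit 3) (.n (nat_lit 314) (nat_lit 3) (.p (nat_lit 315) (nat_lit 3) (.p (nat_lit 316) (nat_lit 2) (.n (nat_lit 317) (nat_lit 1) (.p (nat_lit 320) (nat_lit 1) (.p (nat_lit 321) (nat_lit 1) (.p (nat_lit 323) (nat_lit 1) .z))))))))))))))) (.ct dC2c_c277 (nat_lit 1) (nat_lit 5) (.s true (nat_lit 3) (nat_lit 17) (nat_lit 2) (nat_lit 7) (nat_lit 1) true (nat_lit 5) true (nat_lit 9) true (nat_lit 2) true (nat_lit 8) true (nat_lit 4) (.e true (nat_lit 1) (nat_lit 99) (nat_lit 6) (nat_lit 5) (.e false (nat_lit 1) (nat_lit 196) (nat_lit 1) (nat_lit 9) (.e false (nat_lit 1) (nat_lit 197) (nat_lit 1) (nat_lit 9) (.e false (nat_lit 3) (nat_lit 199) (nat_lit 1) (nat_lit 9) (.e false (nat_lit 3) (nat_lit 47) (nat_lit 17) (nat_lit 2) (.e false (nat_lit 1) (nat_lit 169) (nat_lit 2) (nat_lit 8) (.e true (nat_lit 1) (nat_lit 172) (nat_lit 2) (nat_lit 8) (.e true (nat_lit 1) (nat_lit 173) (nat_lit 2) (nat_lit 8) (.e true (nat_lit 1) (nat_lit 174) (nat_lit 2) (nat_lit 8) (.e true (nat_lit 1) (nat_lit 175) (nat_lit 2) (nat_lit 8) (.e false (nat_lit 2) (nat_lit 177) (nat_lit 2) (nat_lit 8) (.e true (nat_lit 3) (nat_lit 178) (nat_lit 2) (nat_lit 8) (.e true (nat_lit 3) (nat_lit 179) (nat_lit 2) (nat_lit 8) (.e false (nat_lit 1) (nat_lit 180) (nat_lit 2) (nat_lit 8) (.e true (nat_lit 3) (nat_lit 181) (nat_lit 2) (nat_lit 8) (.e false (nat_lit 2) (nat_lit 182) (nat_lit 2) (nat_lit 8) (.e true (nat_lit 3) (nat_lit 183) (nat_lit 2) (nat_lit 8) (.e false (nat_lit 1) (nat_lit 184) (nat_lit 2) (nat_lit 8) (.e true (nat_lit 3) (nat_lit 84) (nat_lit 7) (nat_lit 4) (.u (nat_lit 2) (.n (nat_lit 0) (nat_lit 1) (.p (nat_lit 1) (nat_lit 3) (.p (nat_lit 2) (nat_lit 3) (.p (nat_lit 3) (nat_lit 1) (.p (nat_lit 4) (nat_lit 1) (.n (nat_lit 5) (nat_lit 1) (.p (nat_lit 6) (nat_lit 1) (.p (nat_lit 7) (nat_lit 1) (.n (nat_lit 8) (nat_lit 3) (.p (nat_lit 10) (nat_lit 1) (.n (nat_lit 13) (nat_lit 1) (.p (nat_lit 52) (nat_lit 1) (.p (nat_lit 53) (nat_lit 1) (.n (nat_lit 60) (nat_lit 1) (.p (nat_lit 63) (nat_lit 1) (.p (nat_lit 64) (nat_lit 1) (.p (nat_lit 65) (nat_lit 1) (.p (nat_lit 66) (nat_lit 1) (.p (nat_lit 68) (nat_lit 1) (.n (nat_lit 71) (nat_lit 1) (.p (nat_lit 73) (nat_lit 1) (.n (nat_lit 75) (nat_lit 1) (.n (nat_lit 77) (nat_lit 1) (.n (nat_lit 78) (nat_lit 1) .z)))))))))))))))))))))))) .nil)))))))))))))))))))))) .leaf) (nat_lit 100362) (nat_lit 1056) (.p (nat_lit 335) (nat_lit 1) (.p (nat_lit 338) (nat_lit 2) (.n (nat_lit 339) (nat_lit 3) (.p (nat_lit 340) (nat_lit 3) (.n (nat_lit 341) (nat_lit 3) (.n (nat_lit 342) (nat_lit 3) (.n (nat_lit 344) (nat_lit 3) (.p (nat_lit 345) (nat_lit 3) (.p (nat_lit 346) (nat_lit 1) (.p (nat_lit 347) (nat_lit 2) (.n (nat_lit 350) (nat_lit 1) (.n (nat_lit 351) (nat_lit 1) (.p (nat_lit 352) (nat_lit 2) (.n (nat_lit 354) (nat_lit 1) (.p (nat_lit 355) (nat_lit 1) (.p (nat_lit 356) (nat_lit 3) (.n (nat_lit 357) (nat_lit 3) (.p (nat_lit 358) (nat_lit 3) (.p (nat_lit 359) (nat_lit 3) (.p (nat_lit 360) (nat_lit 1) (.p (nat_lit 361) (nat_lit 2) (.n (nat_lit 362) (nat_lit 1) (.n (nat_lit 363) (nat_lit 2) (.p (nat_lit 364) (nat_lit 3) (.p (nat_lit 366) (nat_lit 1) (.p (nat_lit 367) (nat_lit 2) (.p (nat_lit 368) (nat_lit 1) (.p (nat_lit 371) (nat_lit 1) (.p (nat_lit 372) (nat_lit 3) (.n (nat_lit 373) (nat_lit 1) (.p (nat_lit 380) (nat_lit 3) (.p (nat_lit 381) (nat_lit 2) (.n (nat_lit 382) (nat_lit 2) (.p (nat_lit 383) (nat_lit 1) .z)))))))))))))))))))))))))))))))))) (.ct dC2c_c308 (nat_lit 1) (nat_lit 9) (.s false (nat_lit 3) (nat_lit 10) (nat_lit 7) (nat_lit 0) (nat_lit 7) false (nat_lit 3) true (nat_lit 11) true (nat_lit 9) true (nat_lit 11) true (nat_lit 18) (.e true (nat_lit 1) (nat_lit 110) (nat_lit 7) (nat_lit 11) (.e true (nat_lit 2) (nat_lit 117) (nat_lit 7) (nat_lit 11) (.e true (nat_lit 1) (nat_lit 118) (nat_lit 7) (nat_lit 11) (.e false (nat_lit 2) (nat_lit 120) (nat_lit 7) (nat_lit 11) (.e true (nat_lit 2) (nat_lit 122) (nat_lit 7) (nat_lit 11) (.e true (nat_lit 3) (nat_lit 130) (nat_lit 7) (nat_lit 11) (.e false (nat_lit 1) (nat_lit 131) (nat_lit 7) (nat_lit 11) (.e true (nat_lit 1) (nat_lit 99) (nat_lit 10) (nat_lit 9) (.e false (nat_lit 1) (nat_lit 298) (nat_lit 0) (nat_lit 18) (.u (nat_lit 2) (.p (nat_lit 1) (nat_lit 1) (.n (nat_lit 2) (nat_lit 1) (.p (nat_lit 3) (nat_lit 2) (.n (nat_lit 4) (nat_lit 2) (.p (nat_lit 5) (nat_lit 2) (.p (nat_lit 6) (nat_lit 2) (.n (nat_lit 7) (nat_lit 1) (.p (nat_lit 8) (nat_lit 1) (.p (nat_lit 9) (nat_lit 1) (.n (nat_lit 10) (nat_lit 2) (.n (nat_lit 12) (nat_lit 2) (.n (nat_lit 18) (nat_lit 1) (.n (nat_lit 20) (nat_lit 1) (.n (nat_lit 21) (nat_lit 1) (.p (nat_lit 22) (nat_lit 1) (.p (nat_lit 23) (nat_lit 1) (.n (nat_lit 24) (nat_lit 1) (.p (nat_lit 26) (nat_lit 1) (.n (nat_lit 27) (nat_lit 1) (.p (nat_lit 29) (nat_lit 1) (.n (nat_lit 32) (nat_lit 3) (.n (nat_lit 33) (nat_lit 1) (.n (nat_lit 34) (nat_lit 1) (.p (nat_lit 35) (nat_lit 1) (.p (nat_lit 36) (nat_lit 2) (.p (nat_lit 37) (nat_lit 1) (.p (nat_lit 38) (nat_lit 1) (.n (nat_lit 39) (nat_lit 2) (.p (nat_lit 45) (nat_lit 1) (.p (nat_lit 46) (nat_lit 2) (.p (nat_lit 47) (nat_lit 1) (.p (nat_lit 202) (nat_lit 1) (.p (nat_lit 203) (nat_lit 1) (.p (nat_lit 217) (nat_lit 1) (.p (nat_lit 224) (nat_lit 2) (.p (nat_lit 225) (nat_lit 1) (.n (nat_lit 227) (nat_lit 2) (.p (nat_lit 229) (nat_lit 2) (.n (nat_lit 238) (nat_lit 1) (.n (nat_lit 395) (nat_lit 1) .z)))))))))))))))))))))))))))))))))))))))) .nil)))))))))))) .leaf))) (nat_lit 100366) (nat_lit 1329) (.n (nat_lit 397) (nat_lit 2) (.p (nat_lit 399) (nat_lit 3) (.n (nat_lit 400) (nat_lit 1) (.p (nat_lit 402) (nat_lit 2) (.p (nat_lit 403) (nat_lit 3) (.p (nat_lit 404) (nat_lit 3) (.p (nat_lit 405) (nat_lit 1) (.p (nat_lit 406) (nat_lit 3) (.p (nat_lit 407) (nat_lit 1) (.p (nat_lit 408) (nat_lit 3) (.n (nat_lit 409) (nat_lit 3) (.p (nat_lit 410) (nat_lit 1) (.n (nat_lit 411) (nat_lit 2) (.p (nat_lit 412) (nat_lit 1) (.p (nat_lit 413) (nat_lit 1) (.p (nat_lit 414) (nat_lit 2) (.p (nat_lit 415) (nat_lit 2) (.p (nat_lit 416) (nat_lit 2) (.n (nat_lit 418) (nat_lit 3) (.p (nat_lit 420) (nat_lit 2) (.p (nat_lit 421) (nat_lit 1) (.p (nat_lit 423) (nat_lit 3) (.p (nat_lit 430) (nat_lit 1) (.p (nat_lit 431) (nat_lit 1) (.p (nat_lit 435) (nat_lit 3) .z))))))))))))))))))))))))) (.ct dC2c_c293 (nat_lit 1) (nat_lit 6) dC2c_i53) (.nd (.nd (.nd (.nd .leaf (nat_lit 100367) (nat_lit 1314) (.n (nat_lit 397) (nat_lit 2) (.n (nat_lit 398) (nat_lit 1) (.p (nat_lit 399) (nat_lit 1) (.n (nat_lit 400) (nat_lit 1) (.p (nat_lit 401) (nat_lit 1) (.n (nat_lit 402) (nat_lit 3) (.p (nat_lit 403) (nat_lit 1) (.n (nat_lit 404) (nat_lit 2) (.p (nat_lit 405) (nat_lit 3) (.n (nat_lit 406) (nat_lit 2) (.n (nat_lit 407) (nat_lit 1) (.n (nat_lit 409) (nat_lit 1) (.p (nat_lit 410) (nat_lit 2) (.p (nat_lit 412) (nat_lit 3) (.p (nat_lit 413) (nat_lit 3) (.n (nat_lit 414) (nat_lit 3) (.n (nat_lit 416) (nat_lit 1) (.n (nat_lit 420) (nat_lit 1) (.n (nat_lit 421) (nat_lit 2) (.p (nat_lit 423) (nat_lit 2) (.p (nat_lit 430) (nat_lit 3) (.p (nat_lit 431) (nat_lit 1) (.n (nat_lit 432) (nat_lit 3) (.n (nat_lit 435) (nat_lit 2) .z)))))))))))))))))))))))) (.ct dC2c_c293 (nat_lit 1) (nat_lit 6) (.s false (nat_lit 3) (nat_lit 15) (nat_lit 7) (nat_lit 0) (nat_lit 7) false (nat_lit 2) true (nat_lit 9) true (nat_lit 6) true (nat_lit 9) true (nat_lit 16) dC2c_i54)) .leaf) (nat_lit 101377) (nat_lit 336) (.p (nat_lit 169) (nat_lit 3) (.n (nat_lit 170) (nat_lit 3) (.n (nat_lit 171) (nat_lit 1) (.n (nat_lit 172) (nat_lit 1) (.p (nat_lit 173) (nat_lit 3) (.n (nat_lit 174) (nat_lit 3) (.p (nat_lit 175) (nat_lit 1) (.p (nat_lit 176) (nat_lit 1) (.p (nat_lit 177) (nat_lit 2) (.n (nat_lit 178) (nat_lit 2) (.n (nat_lit 179) (nat_lit 1) (.n (nat_lit 181) (nat_lit 1) (.p (nat_lit 182) (nat_lit 1) .z))))))))))))) (.ct dC2c_c276 (nat_lit 1) (nat_lit 7) dC2c_i55) .leaf) (nat_lit 101378) (nat_lit 379) (.p (nat_lit 197) (nat_lit 1) .z) .df (.nd (.nd .leaf (nat_lit 101380) (nat_lit 687) (.n (nat_lit 252) (nat_lit 1) (.p (nat_lit 253) (nat_lit 1) (.p (nat_lit 254) (nat_lit 2) (.p (nat_lit 255) (nat_lit 3) (.p (nat_lit 256) (nat_lit 3) (.p (nat_lit 257) (nat_lit 3) (.n (nat_lit 258) (nat_lit 2) (.n (nat_lit 259) (nat_lit 1) (.p (nat_lit 260) (nat_lit 1) (.p (nat_lit 261) (nat_lit 2) (.p (nat_lit 262) (nat_lit 2) (.p (nat_lit 263) (nat_lit 2) (.p (nat_lit 264) (nat_lit 1) (.n (nat_lit 265) (nat_lit 2) (.n (nat_lit 266) (nat_lit 3) (.p (nat_lit 267) (nat_lit 2) (.p (nat_lit 269) (nat_lit 1) (.n (nat_lit 270) (nat_lit 1) (.n (nat_lit 271) (nat_lit 3) (.n (nat_lit 272) (nat_lit 2) (.n (nat_lit 273) (nat_lit 2) (.n (nat_lit 274) (nat_lit 2) (.n (nat_lit 275) (nat_lit 1) (.p (nat_lit 276) (nat_lit 3) (.p (nat_lit 277) (nat_lit 3) (.n (nat_lit 283) (nat_lit 1) (.n (nat_lit 284) (nat_lit 1) (.p (nat_lit 285) (nat_lit 1) .z)))))))))))))))))))))))))))) (.ct dC2c_c292 (nat_lit 1) (nat_lit 9) (.s true (nat_lit 3) (nat_lit 17) (nat_lit 4) (nat_lit 2) (nat_lit 2) true (nat_lit 3) true (nat_lit 11) true (nat_lit 2) true (nat_lit 9) true (nat_lit 11) (.e false (nat_lit 3) (nat_lit 43) (nat_lit 14) (nat_lit 3) (.e false (nat_lit 2) (nat_lit 133) (nat_lit 2) (nat_lit 11) (.e false (nat_lit 2) (nat_lit 134) (nat_lit 2) (nat_lit 11) (.e true (nat_lit 2) (nat_lit 135) (nat_lit 2) (nat_lit 11) (.e true (nat_lit 1) (nat_lit 139) (nat_lit 2) (nat_lit 11) (.e false (nat_lit 1) (nat_lit 140) (nat_lit 2) (nat_lit 11) (.e false (nat_lit 3) (nat_lit 142) (nat_lit 2) (nat_lit 11) (.e true (nat_lit 1) (nat_lit 143) (nat_lit 2) (nat_lit 11) (.e true (nat_lit 2) (nat_lit 145) (nat_lit 2) (nat_lit 11) (.e true (nat_lit 3) (nat_lit 39) (nat_lit 17) (nat_lit 2) (.e true (nat_lit 1) (nat_lit 98) (nat_lit 4) (nat_lit 9) (.e false (nat_lit 3) (nat_lit 138) (nat_lit 2) (nat_lit 11) (.e true (nat_lit 2) (nat_lit 141) (nat_lit 2) (nat_lit 11) (.e true (nat_lit 3) (nat_lit 144) (nat_lit 2) (nat_lit 11) (.e true (nat_lit 2) (nat_lit 147) (nat_lit 2) (nat_lit 11) (.e false (nat_lit 1) (nat_lit 150) (nat_lit 2) (nat_lit 11) (.e true (nat_lit 3) (nat_lit 153) (nat_lit 2) (nat_lit 11) (.e false (nat_lit 2) (nat_lit 155) (nat_lit 2) (nat_lit 11) (.e true (nat_lit 2) (nat_lit 156) (nat_lit 2) (nat_lit 11) (.u (nat_lit 2) (.n (nat_lit 1) (nat_lit 1) (.p (nat_lit 2) (nat_lit 3) (.n (nat_lit 3) (nat_lit 2) (.n (nat_lit 4) (nat_lit 1) (.n (nat_lit 5) (nat_lit 1) (.p (nat_lit 6) (nat_lit 1) (.n (nat_lit 7) (nat_lit 2) (.p (nat_lit 8) (nat_lit 2) (.n (nat_lit 9) (nat_lit 1) (.n (nat_lit 10) (nat_lit 2) (.n (nat_lit 11) (nat_lit 1) (.p (nat_lit 12) (nat_lit 2) (.n (nat_lit 14) (nat_lit 2) (.n (nat_lit 15) (nat_lit 1) (.p (nat_lit 17) (nat_lit 1) (.n (nat_lit 18) (nat_lit 1) (.p (nat_lit 19) (nat_lit 2) (.n (nat_lit 20) (nat_lit 1) (.p (nat_lit 21) (nat_lit 1) (.n (nat_lit 22) (nat_lit 1) (.p (nat_lit 23) (nat_lit 3) (.n (nat_lit 24) (nat_lit 1) (.p (nat_lit 25) (nat_lit 1) (.p (nat_lit 27) (nat_lit 2) (.p (nat_lit 30) (nat_lit 3) (.p (nat_lit 31) (nat_lit 1) (.n (nat_lit 33) (nat_lit 1) (.p (nat_lit 34) (nat_lit 2) (.n (nat_lit 36) (nat_lit 2) (.p (nat_lit 110) (nat_lit 1) (.p (nat_lit 111) (nat_lit 1) (.n (nat_lit 118) (nat_lit 2) (.p (nat_lit 119) (nat_lit 1) (.p (nat_lit 120) (nat_lit 2) (.p (nat_lit 124) (nat_lit 1) (.n (nat_lit 125) (nat_lit 1) (.n (nat_lit 126) (nat_lit 1) (.n (nat_lit 128) (nat_lit 2) (.n (nat_lit 130) (nat_lit 1) (.n (nat_lit 132) (nat_lit 1) (.n (nat_lit 135) (nat_lit 1) (.p (nat_lit 140) (nat_lit 1) (.n (nat_lit 141) (nat_lit 1) .z))))))))))))))))))))))))))))))))))))))))))) .nil)))))))))))))))))))))) .leaf) (nat_lit 101382) (nat_lit 774) (.n (nat_lit 305) (nat_lit 1) (.n (nat_lit 306) (nat_lit 1) (.n (nat_lit 307) (nat_lit 3) (.p (nat_lit 309) (nat_lit 1) (.p (nat_lit 311) (nat_lit 2) (.p (nat_lit 312) (nat_lit 2) (.p (nat_lit 313) (nat_lit 2) (.p (nat_lit 314) (nat_lit 3) (.n (nat_lit 315) (nat_lit 1) (.n (nat_lit 317) (nat_lit 1) (.p (nat_lit 318) (nat_lit 1) (.n (nat_lit 323) (nat_lit 1) .z)))))))))))) (.ct dC2c_c277 (nat_lit 1) (nat_lit 5) (.s false (nat_lit 3) (nat_lit 7) (nat_lit 6) (nat_lit 2) (nat_lit 5) false (nat_lit 0) true (nat_lit 6) true (nat_lit 4) true (nat_lit 5) true (nat_lit 8) (.s true (nat_lit 3) (nat_lit 11) (nat_lit 2) (nat_lit 2) (nat_lit 7) true (nat_lit 0) true (nat_lit 4) true (nat_lit 3) true (nat_lit 8) true (nat_lit 8) (.s false (nat_lit 3) (nat_lit 16) (nat_lit 2) (nat_lit 1) (nat_lit 7) true (nat_lit 0) true (nat_lit 4) true (nat_lit 2) true (nat_lit 8) true (nat_lit 9) (.s true (nat_lit 1) (nat_lit 16) (nat_lit 6) (nat_lit 2) (nat_lit 2) true (nat_lit 1) true (nat_lit 8) true (nat_lit 2) true (nat_lit 5) true (nat_lit 8) (.s false (nat_lit 3) (nat_lit 19) (nat_lit 2) (nat_lit 2) (nat_lit 5) true (nat_lit 2) true (nat_lit 6) true (nat_lit 1) true (nat_lit 8) true (nat_lit 8) (.s false (nat_lit 1) (nat_lit 18) (nat_lit 5) (nat_lit 2) (nat_lit 2) true (nat_lit 2) true (nat_lit 8) true (nat_lit 1) true (nat_lit 6) true (nat_lit 8) (.s false (nat_lit 3) (nat_lit 20) (nat_lit 0) (nat_lit 6) (nat_lit 2) true (nat_lit 6) true (nat_lit 8) true (nat_lit 0) true (nat_lit 10) true (nat_lit 5) (.s false (nat_lit 3) (nat_lit 20) (nat_lit 1) (nat_lit 2) (nat_lit 5) true (nat_lit 3) true (nat_lit 6) true (nat_lit 0) true (nat_lit 9) true (nat_lit 8) (.s false (nat_lit 3) (nat_lit 20) (nat_lit 2) (nat_lit 0) (nat_lit 6) true (nat_lit 1) true (nat_lit 5) true (nat_lit 0) true (nat_lit 8) true (nat_lit 10) (.s true (nat_lit 3) (nat_lit 36) (nat_lit 2) (nat_lit 2) (nat_lit 2) true (nat_lit 4) true (nat_lit 8) false (nat_lit 0) true (nat_lit 8) true (nat_lit 8) (.s false (nat_lit 3) (nat_lit 37) (nat_lit 2) (nat_lit 2) (nat_lit 2) true (nat_lit 4) true (nat_lit 8) false (nat_lit 0) true (nat_lit 8) true (nat_lit 8) (.s false (nat_lit 3) (nat_lit 38) (nat_lit 2) (nat_lit 2) (nat_lit 2) true (nat_lit 4) true (nat_lit 8) false (nat_lit 0) true (nat_lit 8) true (nat_lit 8) (.s false (nat_lit 3) (nat_lit 44) (nat_lit 1) (nat_lit 2) (nat_lit 2) true (nat_lit 5) true (nat_lit 8) false (nat_lit 1) true (nat_lit 9) true (nat_lit 8) dC2c_i56)))))))))))))) .leaf)) (nat_lit 101386) (nat_lit 1055) (.p (nat_lit 335) (nat_lit 3) (.p (nat_lit 336) (nat_lit 1) (.p (nat_lit 337) (nat_lit 2) (.n (nat_lit 338) (nat_lit 3) (.p (nat_lit 339) (nat_lit 1) (.n (nat_lit 340) (nat_lit 1) (.n (nat_lit 344) (nat_lit 2) (.n (nat_lit 346) (nat_lit 2) (.n (nat_lit 347) (nat_lit 2) (.p (nat_lit 350) (nat_lit 3) (.p (nat_lit 351) (nat_lit 3) (.n (nat_lit 352) (nat_lit 2) (.p (nat_lit 353) (nat_lit 1) (.p (nat_lit 354) (nat_lit 3) (.n (nat_lit 355) (nat_lit 2) (.p (nat_lit 356) (nat_lit 2) (.n (nat_lit 357) (nat_lit 2) (.p (nat_lit 358) (nat_lit 2) (.n (nat_lit 359) (nat_lit 1) (.n (nat_lit 361) (nat_lit 3) (.p (nat_lit 362) (nat_lit 1) (.n (nat_lit 363) (nat_lit 2) (.p (nat_lit 364) (nat_lit 2) (.n (nat_lit 366) (nat_lit 3) (.n (nat_lit 367) (nat_lit 1) (.p (nat_lit 369) (nat_lit 1) (.p (nat_lit 370) (nat_lit 1) (.n (nat_lit 371) (nat_lit 2) (.n (nat_lit 372) (nat_lit 1) (.p (nat_lit 374) (nat_lit 3) (.p (nat_lit 380) (nat_lit 2) (.n (nat_lit 381) (nat_lit 1) (.n (nat_lit 382) (nat_lit 3) (.n (nat_lit 383) (nat_lit 2) .z)))))))))))))))))))))))))))))))))) (.ct dC2c_c308 (nat_lit 1) (nat_lit 9) (.s true (nat_lit 1) (nat_lit 20) (nat_lit 0) (nat_lit 2) (nat_lit 10) true (nat_lit 3) true (nat_lit 9) true (nat_lit 4) true (nat_lit 18) true (nat_lit 16) (.e true (nat_lit 1) (nat_lit 48) (nat_lit 23) (nat_lit 3) (.e false (nat_lit 1) (nat_lit 49) (nat_lit 20) (nat_lit 4) (.e true (nat_lit 1) (nat_lit 50) (nat_lit 20) (nat_lit 4) (.e true (nat_lit 2) (nat_lit 52) (nat_lit 20) (nat_lit 4) (.e false (nat_lit 1) (nat_lit 55) (nat_lit 20) (nat_lit 4) (.e true (nat_lit 1) (nat_lit 57) (nat_lit 20) (nat_lit 4) (.e false (nat_lit 1) (nat_lit 59) (nat_lit 20) (nat_lit 4) (.e false (nat_lit 1) (nat_lit 298) (nat_lit 0) (nat_lit 18) dC2c_i57)))))))))) (.nd (.nd (.nd .leaf (nat_lit 101390) (nat_lit 1301) (.n (nat_lit 400) (nat_lit 1) (.n (nat_lit 401) (nat_lit 2) (.p (nat_lit 402) (nat_lit 3) (.n (nat_lit 404) (nat_lit 1) (.n (nat_lit 405) (nat_lit 3) (.p (nat_lit 406) (nat_lit 1) (.n (nat_lit 407) (nat_lit 1) (.p (nat_lit 408) (nat_lit 3) (.p (nat_lit 409) (nat_lit 1) (.p (nat_lit 410) (nat_lit 1) (.p (nat_lit 411) (nat_lit 1) (.p (nat_lit 412) (nat_lit 2) (.p (nat_lit 413) (nat_lit 2) (.p (nat_lit 414) (nat_lit 3) (.p (nat_lit 415) (nat_lit 1) (.p (nat_lit 416) (nat_lit 3) (.p (nat_lit 418) (nat_lit 1) (.n (nat_lit 420) (nat_lit 3) (.p (nat_lit 421) (nat_lit 2) (.p (nat_lit 431) (nat_lit 3) (.p (nat_lit 432) (nat_lit 1) (.n (nat_lit 435) (nat_lit 1) .z)))))))))))))))))))))) (.ct dC2c_c293 (nat_lit 1) (nat_lit 6) (.s true (nat_lit 1) (nat_lit 20) (nat_lit 0) (nat_lit 2) (nat_lit 14) true (nat_lit 2) true (nat_lit 6) true (nat_lit 3) true (nat_lit 16) true (nat_lit 14) (.e true (nat_lit 1) (nat_lit 48) (nat_lit 24) (nat_lit 2) (.e true (nat_lit 1) (nat_lit 48) (nat_lit 25) (nat_lit 2) (.e true (nat_lit 1) (nat_lit 48) (nat_lit 26) (nat_lit 2) (.e false (nat_lit 2) (nat_lit 48) (nat_lit 27) (nat_lit 2) (.e false (nat_lit 1) (nat_lit 48) (nat_lit 28) (nat_lit 2) (.e true (nat_lit 1) (nat_lit 48) (nat_lit 29) (nat_lit 2) (.e true (nat_lit 1) (nat_lit 60) (nat_lit 20) (nat_lit 3) (.e true (nat_lit 1) (nat_lit 61) (nat_lit 20) (nat_lit 3) (.e false (nat_lit 2) (nat_lit 63) (nat_lit 20) (nat_lit 3) (.e false (nat_lit 1) (nat_lit 64) (nat_lit 20) (nat_lit 3) (.e true (nat_lit 1) (nat_lit 65) (nat_lit 20) (nat_lit 3) (.e true (nat_lit 1) (nat_lit 67) (nat_lit 20) (nat_lit 3) (.e false (nat_lit 1) (nat_lit 68) (nat_lit 20) (nat_lit 3) (.e true (nat_lit 2) (nat_lit 71) (nat_lit 20) (nat_lit 3) (.e true (nat_lit 1) (nat_lit 73) (nat_lit 20) (nat_lit 3) (.e false (nat_lit 1) (nat_lit 329) (nat_lit 0) (nat_lit 16) dC2c_i58)))))))))))))))))) .leaf) (nat_lit 101391) (nat_lit 1292) (.p (nat_lit 397) (nat_lit 2) (.p (nat_lit 398) (nat_lit 2) (.n (nat_lit 399) (nat_lit 2) (.p (nat_lit 400) (nat_lit 2) (.p (nat_lit 401) (nat_lit 2) (.n (nat_lit 402) (nat_lit 2) (.p (nat_lit 403) (nat_lit 2) (.n (nat_lit 404) (nat_lit 3) (.p (nat_lit 405) (nat_lit 2) (.n (nat_lit 406) (nat_lit 3) (.n (nat_lit 408) (nat_lit 2) (.n (nat_lit 410) (nat_lit 1) (.n (nat_lit 411) (nat_lit 1) (.n (nat_lit 412) (nat_lit 1) (.n (nat_lit 413) (nat_lit 1) (.n (nat_lit 414) (nat_lit 3) (.p (nat_lit 415) (nat_lit 2) (.p (nat_lit 416) (nat_lit 3) (.n (nat_lit 420) (nat_lit 3) (.p (nat_lit 421) (nat_lit 3) (.p (nat_lit 432) (nat_lit 1) .z))))))))))))))))))))) (.ct dC2c_c293 (nat_lit 1) (nat_lit 6) (.s true (nat_lit 1) (nat_lit 20) (nat_lit 0) (nat_lit 2) (nat_lit 15) true (nat_lit 2) true (nat_lit 6) true (nat_lit 3) true (nat_lit 16) true (nat_lit 14) (.e true (nat_lit 1) (nat_lit 48) (nat_lit 29) (nat_lit 2) (.e true (nat_lit 1) (nat_lit 64) (nat_lit 20) (nat_lit 3) (.e true (nat_lit 1) (nat_lit 69) (nat_lit 20) (nat_lit 3) (.e false (nat_lit 1) (nat_lit 73) (nat_lit 20) (nat_lit 3) (.e false (nat_lit 3) (nat_lit 324) (nat_lit 0) (nat_lit 16) (.e true (nat_lit 2) (nat_lit 325) (nat_lit 0) (nat_lit 16) (.e false (nat_lit 3) (nat_lit 326) (nat_lit 0) (nat_lit 16) (.e false (nat_lit 3) (nat_lit 327) (nat_lit 0) (nat_lit 16) (.e true (nat_lit 1) (nat_lit 328) (nat_lit 0) (nat_lit 16) (.e true (nat_lit 2) (nat_lit 329) (nat_lit 0) (nat_lit 16) (.e true (nat_lit 3) (nat_lit 330) (nat_lit 0) (nat_lit 16) (.e true (nat_lit 2) (nat_lit 331) (nat_lit 0) (nat_lit 16) (.e true (nat_lit 1) (nat_lit 333) (nat_lit 0) (nat_lit 16) dC2c_i59))))))))))))))) .leaf) (nat_lit 102401) (nat_lit 340) (.p (nat_lit 169) (nat_lit 2) (.n (nat_lit 170) (nat_lit 1) (.p (nat_lit 171) (nat_lit 1) (.n (nat_lit 172) (nat_lit 2) (.n (nat_lit 173) (nat_lit 2) (.p (nat_lit 176) (nat_lit 1) (.n (nat_lit 177) (nat_lit 1) (.n (nat_lit 178) (nat_lit 2) (.n (nat_lit 179) (nat_lit 1) (.p (nat_lit 180) (nat_lit 1) (.n (nat_lit 182) (nat_lit 1) (.p (nat_lit 184) (nat_lit 1) .z)))))))))))) (.ct dC2c_c276 (nat_lit 1) (nat_lit 7) (.s false (nat_lit 1) (nat_lit 20) (nat_lit 0) (nat_lit 1) (nat_lit 2) true (nat_lit 4) true (nat_lit 6) false (nat_lit 1) true (nat_lit 8) true (nat_lit 7) (.s true (nat_lit 1) (nat_lit 20) (nat_lit 2) (nat_lit 1) (nat_lit 0) true (nat_lit 4) true (nat_lit 8) false (nat_lit 1) true (nat_lit 6) true (nat_lit 7) (.e true (nat_lit 2) (nat_lit 80) (nat_lit 2) (nat_lit 6) (.e false (nat_lit 2) (nat_lit 81) (nat_lit 2) (nat_lit 6) (.e false (nat_lit 1) (nat_lit 84) (nat_lit 2) (nat_lit 6) (.e false (nat_lit 2) (nat_lit 85) (nat_lit 2) (nat_lit 6) (.e true (nat_lit 1) (nat_lit 89) (nat_lit 2) (nat_lit 6) (.e false (nat_lit 1) (nat_lit 20) (nat_lit 11) (nat_lit 1) (.e true (nat_lit 1) (nat_lit 103) (nat_lit 0) (nat_lit 8) (.e false (nat_lit 1) (nat_lit 98) (nat_lit 1) (nat_lit 7) (.e false (nat_lit 1) (nat_lit 20) (nat_lit 13) (nat_lit 1) (.e false (nat_lit 1) (nat_lit 99) (nat_lit 1) (nat_lit 7) (.u (nat_lit 2) (.p (nat_lit 4) (nat_lit 1) (.n (nat_lit 5) (nat_lit 1) .z)) .nil)))))))))))))) (.nd .leaf (nat_lit 102402) (nat_lit 385) (.p (nat_lit 196) (nat_lit 1) (.p (nat_lit 197) (nat_lit 1) .z)) (.ct dC2c_c261 (nat_lit 1) (nat_lit 3) (.s true (nat_lit 1) (nat_lit 20) (nat_lit 2) (nat_lit 2) (nat_lit 0) true (nat_lit 2) true (nat_lit 4) false (nat_lit 0) true (nat_lit 3) true (nat_lit 3) (.e true (nat_lit 1) (nat_lit 48) (nat_lit 5) (nat_lit 2) (.e true (nat_lit 1) (nat_lit 105) (nat_lit 0) (nat_lit 4) (.e false (nat_lit 1) (nat_lit 20) (nat_lit 17) (nat_lit 0) (.e false (nat_lit 1) (nat_lit 98) (nat_lit 2) (nat_lit 3) (.e false (nat_lit 2) (nat_lit 99) (nat_lit 2) (nat_lit 3) .nil))))))) .leaf))))) (nat_lit 102404) (nat_lit 675) (.n (nat_lit 252) (nat_lit 2) (.p (nat_lit 253) (nat_lit 3) (.p (nat_lit 254) (nat_lit 1) (.p (nat_lit 255) (nat_lit 2) (.n (nat_lit 256) (nat_lit 2) (.p (nat_lit 257) (nat_lit 1) (.p (nat_lit 258) (nat_lit 2) (.p (nat_lit 259) (nat_lit 1) (.n (nat_lit 260) (nat_lit 1) (.p (nat_lit 261) (nat_lit 3) (.n (nat_lit 262) (nat_lit 3) (.p (nat_lit 263) (nat_lit 2) (.p (nat_lit 264) (nat_lit 3) (.n (nat_lit 265) (nat_lit 1) (.n (nat_lit 266) (nat_lit 1) (.p (nat_lit 267) (nat_lit 2) (.p (nat_lit 269) (nat_lit 2) (.n (nat_lit 270) (nat_lit 2) (.p (nat_lit 271) (nat_lit 2) (.n (nat_lit 272) (nat_lit 1) (.p (nat_lit 273) (nat_lit 2) (.n (nat_lit 274) (nat_lit 1) (.n (nat_lit 275) (nat_lit 2) (.n (nat_lit 276) (nat_lit 2) (.n (nat_lit 277) (nat_lit 2) (.n (nat_lit 279) (nat_lit 2) (.n (nat_lit 282) (nat_lit 3) (.p (nat_lit 283) (nat_lit 3) (.n (nat_lit 285) (nat_lit 3) (.n (nat_lit 286) (nat_lit 2) (.p (nat_lit 288) (nat_lit 2) .z))))))))))))))))))))))))))))))) (.ct dC2c_c292 (nat_lit 1) (nat_lit 9) (.s false (nat_lit 1) (nat_lit 16) (nat_lit 4) (nat_lit 2) (nat_lit 2) true (nat_lit 3) true (nat_lit 11) true (nat_lit 2) true (nat_lit 9) true (nat_lit 11) (.e true (nat_lit 1) (nat_lit 42) (nat_lit 14) (nat_lit 3) dC2c_i60))) (.nd (.nd (.nd (.nd (.nd (.nd .leaf (nat_lit 102406) (nat_lit 792) (.n (nat_lit 305) (nat_lit 1) (.p (nat_lit 306) (nat_lit 1) (.p (nat_lit 308) (nat_lit 3) (.p (nat_lit 309) (nat_lit 1) (.p (nat_lit 310) (nat_lit 3) (.p (nat_lit 311) (nat_lit 2) (.p (nat_lit 312) (nat_lit 2) (.n (nat_lit 314) (nat_lit 1) (.n (nat_lit 315) (nat_lit 2) (.p (nat_lit 316) (nat_lit 2) (.n (nat_lit 317) (nat_lit 2) (.p (nat_lit 320) (nat_lit 1) (.p (nat_lit 321) (nat_lit 1) .z))))))))))))) (.ct dC2c_c277 (nat_lit 1) (nat_lit 5) (.s false (nat_lit 1) (nat_lit 20) (nat_lit 2) (nat_lit 0) (nat_lit 6) true (nat_lit 1) true (nat_lit 5) true (nat_lit 0) true (nat_lit 8) true (nat_lit 10) (.e false (nat_lit 1) (nat_lit 44) (nat_lit 18) (nat_lit 1) (.e false (nat_lit 1) (nat_lit 98) (nat_lit 6) (nat_lit 5) (.e false (nat_lit 1) (nat_lit 33) (nat_lit 20) (nat_lit 0) (.e true (nat_lit 1) (nat_lit 34) (nat_lit 20) (nat_lit 0) (.e true (nat_lit 1) (nat_lit 37) (nat_lit 20) (nat_lit 0) (.e true (nat_lit 1) (nat_lit 38) (nat_lit 20) (nat_lit 0) (.e false (nat_lit 1) (nat_lit 179) (nat_lit 2) (nat_lit 8) (.e true (nat_lit 1) (nat_lit 183) (nat_lit 2) (nat_lit 8) (.u (nat_lit 2) (.n (nat_lit 0) (nat_lit 1) (.n (nat_lit 1) (nat_lit 1) (.n (nat_lit 3) (nat_lit 1) (.p (nat_lit 4) (nat_lit 1) (.n (nat_lit 5) (nat_lit 1) (.p (nat_lit 9) (nat_lit 1) (.p (nat_lit 10) (nat_lit 1) .z))))))) .nil))))))))))) .leaf) (nat_lit 102410) (nat_lit 1070) (.n (nat_lit 335) (nat_lit 1) (.n (nat_lit 338) (nat_lit 1) (.n (nat_lit 339) (nat_lit 2) (.n (nat_lit 340) (nat_lit 1) (.n (nat_lit 341) (nat_lit 2) (.n (nat_lit 342) (nat_lit 3) (.p (nat_lit 343) (nat_lit 2) (.p (nat_lit 344) (nat_lit 3) (.p (nat_lit 345) (nat_lit 2) (.p (nat_lit 346) (nat_lit 2) (.n (nat_lit 347) (nat_lit 2) (.p (nat_lit 349) (nat_lit 2) (.p (nat_lit 350) (nat_lit 2) (.n (nat_lit 351) (nat_lit 2) (.n (nat_lit 352) (nat_lit 3) (.n (nat_lit 354) (nat_lit 2) (.p (nat_lit 355) (nat_lit 1) (.p (nat_lit 356) (nat_lit 1) (.n (nat_lit 357) (nat_lit 1) (.p (nat_lit 358) (nat_lit 1) (.p (nat_lit 359) (nat_lit 3) (.p (nat_lit 360) (nat_lit 1) (.p (nat_lit 361) (nat_lit 1) (.n (nat_lit 362) (nat_lit 2) (.n (nat_lit 363) (nat_lit 3) (.n (nat_lit 364) (nat_lit 3) (.p (nat_lit 366) (nat_lit 1) (.n (nat_lit 367) (nat_lit 2) (.n (nat_lit 368) (nat_lit 1) (.p (nat_lit 369) (nat_lit 3) (.n (nat_lit 371) (nat_lit 1) (.n (nat_lit 372) (nat_lit 1) (.p (nat_lit 373) (nat_lit 1) (.p (nat_lit 374) (nat_lit 3) (.p (nat_lit 380) (nat_lit 2) (.n (nat_lit 381) (nat_lit 1) (.n (nat_lit 382) (nat_lit 2) (.p (nat_lit 383) (nat_lit 1) .z)))))))))))))))))))))))))))))))))))))) (.ct dC2c_c308 (nat_lit 1) (nat_lit 9) (.s false (nat_lit 1) (nat_lit 16) (nat_lit 10) (nat_lit 2) (nat_lit 2) true (nat_lit 1) true (nat_lit 16) true (nat_lit 6) true (nat_lit 9) true (nat_lit 16) (.e false (nat_lit 1) (nat_lit 42) (nat_lit 30) (nat_lit 1) (.e true (nat_lit 1) (nat_lit 205) (nat_lit 2) (nat_lit 16) (.e false (nat_lit 1) (nat_lit 206) (nat_lit 2) (nat_lit 16) (.e true (nat_lit 1) (nat_lit 208) (nat_lit 2) (nat_lit 16) (.e true (nat_lit 2) (nat_lit 209) (nat_lit 2) (nat_lit 16) dC2c_i61))))))) .leaf) (nat_lit 102414) (nat_lit 1330) (.n (nat_lit 397) (nat_lit 2) (.p (nat_lit 398) (nat_lit 1) (.p (nat_lit 399) (nat_lit 3) (.p (nat_lit 400) (nat_lit 1) (.p (nat_lit 401) (nat_lit 3) (.n (nat_lit 403) (nat_lit 3) (.n (nat_lit 404) (nat_lit 1) (.n (nat_lit 405) (nat_lit 2) (.n (nat_lit 406) (nat_lit 2) (.n (nat_lit 408) (nat_lit 3) (.n (nat_lit 409) (nat_lit 2) (.p (nat_lit 410) (nat_lit 3) (.n (nat_lit 411) (nat_lit 3) (.p (nat_lit 414) (nat_lit 1) (.p (nat_lit 415) (nat_lit 2) (.p (nat_lit 416) (nat_lit 1) (.p (nat_lit 418) (nat_lit 2) (.p (nat_lit 420) (nat_lit 1) (.n (nat_lit 421) (nat_lit 2) (.p (nat_lit 423) (nat_lit 3) (.p (nat_lit 430) (nat_lit 1) (.n (nat_lit 432) (nat_lit 1) (.p (nat_lit 435) (nat_lit 1) .z))))))))))))))))))))))) (.ct dC2c_c293 (nat_lit 1) (nat_lit 6) (.s false (nat_lit 1) (nat_lit 48) (nat_lit 2) (nat_lit 0) (nat_lit 4) true (nat_lit 6) true (nat_lit 12) false (nat_lit 2) true (nat_lit 14) true (nat_lit 16) (.e false (nat_lit 1) (nat_lit 98) (nat_lit 14) (nat_lit 6) (.e false (nat_lit 1) (nat_lit 198) (nat_lit 4) (nat_lit 12) (.e true (nat_lit 1) (nat_lit 48) (nat_lit 24) (nat_lit 2) (.e false (nat_lit 1) (nat_lit 48) (nat_lit 26) (nat_lit 2) (.e true (nat_lit 1) (nat_lit 48) (nat_lit 28) (nat_lit 2) (.e true (nat_lit 1) (nat_lit 48) (nat_lit 29) (nat_lit 2) (.e true (nat_lit 2) (nat_lit 252) (nat_lit 2) (nat_lit 14) (.e true (nat_lit 1) (nat_lit 254) (nat_lit 2) (nat_lit 14) (.e false (nat_lit 2) (nat_lit 256) (nat_lit 2) (nat_lit 14) (.e true (nat_lit 2) (nat_lit 257) (nat_lit 2) (nat_lit 14) (.e false (nat_lit 2) (nat_lit 258) (nat_lit 2) (nat_lit 14) (.e false (nat_lit 1) (nat_lit 259) (nat_lit 2) (nat_lit 14) (.e true (nat_lit 1) (nat_lit 260) (nat_lit 2) (nat_lit 14) (.e true (nat_lit 1) (nat_lit 262) (nat_lit 2) (nat_lit 14) (.e true (nat_lit 2) (nat_lit 263) (nat_lit 2) (nat_lit 14) (.e true (nat_lit 2) (nat_lit 264) (nat_lit 2) (nat_lit 14) (.e true (nat_lit 1) (nat_lit 265) (nat_lit 2) (nat_lit 14) (.e false (nat_lit 1) (nat_lit 284) (nat_lit 2) (nat_lit 14) (.e true (nat_lit 2) (nat_lit 325) (nat_lit 0) (nat_lit 16) (.e false (nat_lit 2) (nat_lit 326) (nat_lit 0) (nat_lit 16) (.e true (nat_lit 1) (nat_lit 329) (nat_lit 0) (nat_lit 16) (.u (nat_lit 2) (.n (nat_lit 1) (nat_lit 2) (.p (nat_lit 2) (nat_lit 1) (.p (nat_lit 4) (nat_lit 1) (.n (nat_lit 5) (nat_lit 1) (.p (nat_lit 8) (nat_lit 1) (.p (nat_lit 9) (nat_lit 2) (.n (nat_lit 12) (nat_lit 1) (.p (nat_lit 15) (nat_lit 2) (.p (nat_lit 16) (nat_lit 2) (.p (nat_lit 17) (nat_lit 1) (.p (nat_lit 18) (nat_lit 3) (.n (nat_lit 19) (nat_lit 1) (.n (nat_lit 21) (nat_lit 2) (.n (nat_lit 23) (nat_lit 1) (.p (nat_lit 24) (nat_lit 2) (.p (nat_lit 35) (nat_lit 1) (.p (nat_lit 38) (nat_lit 2) .z))))))))))))))))) .nil)))))))))))))))))))))))) (.nd (.nd .leaf (nat_lit 102415) (nat_lit 1321) (.p (nat_lit 397) (nat_lit 3) (.n (nat_lit 398) (nat_lit 3) (.n (nat_lit 400) (nat_lit 3) (.p (nat_lit 402) (nat_lit 3) (.n (nat_lit 403) (nat_lit 3) (.p (nat_lit 404) (nat_lit 3) (.p (nat_lit 405) (nat_lit 3) (.p (nat_lit 406) (nat_lit 3) (.p (nat_lit 407) (nat_lit 1) (.n (nat_lit 408) (nat_lit 3) (.n (nat_lit 409) (nat_lit 2) (.p (nat_lit 410) (nat_lit 2) (.n (nat_lit 411) (nat_lit 3) (.n (nat_lit 412) (nat_lit 2) (.n (nat_lit 413) (nat_lit 2) (.p (nat_lit 414) (nat_lit 1) (.n (nat_lit 415) (nat_lit 3) (.p (nat_lit 416) (nat_lit 1) (.n (nat_lit 418) (nat_lit 3) (.n (nat_lit 420) (nat_lit 2) (.p (nat_lit 421) (nat_lit 3) (.p (nat_lit 423) (nat_lit 2) (.p (nat_lit 430) (nat_lit 3) (.n (nat_lit 431) (nat_lit 3) (.p (nat_lit 432) (nat_lit 3) (.n (nat_lit 435) (nat_lit 3) .z)))))))))))))))))))))))))) (.ct dC2c_c293 (nat_lit 1) (nat_lit 6) (.s false (nat_lit 1) (nat_lit 20) (nat_lit 15) (nat_lit 0) (nat_lit 2) true (nat_lit 0) true (nat_lit 14) true (nat_lit 3) true (nat_lit 6) true (nat_lit 16) (.e true (nat_lit 1) (nat_lit 44) (nat_lit 40) (nat_lit 0) (.e false (nat_lit 1) (nat_lit 252) (nat_lit 2) (nat_lit 14) (.e false (nat_lit 2) (nat_lit 253) (nat_lit 2) (nat_lit 14) (.e false (nat_lit 1) (nat_lit 256) (nat_lit 2) (nat_lit 14) (.e false (nat_lit 1) (nat_lit 257) (nat_lit 2) (nat_lit 14) (.e false (nat_lit 1) (nat_lit 259) (nat_lit 2) (nat_lit 14) (.e true (nat_lit 1) (nat_lit 260) (nat_lit 2) (nat_lit 14) (.e false (nat_lit 3) (nat_lit 261) (nat_lit 2) (nat_lit 14) (.e true (nat_lit 1) (nat_lit 262) (nat_lit 2) (nat_lit 14) (.e false (nat_lit 1) (nat_lit 265) (nat_lit 2) (nat_lit 14) (.e true (nat_lit 1) (nat_lit 271) (nat_lit 2) (nat_lit 14) dC2c_i62))))))))))))) .leaf) (nat_lit 103424) (nat_lit 352) (.n (nat_lit 169) (nat_lit 3) (.n (nat_lit 170) (nat_lit 2) (.p (nat_lit 171) (nat_lit 2) (.p (nat_lit 172) (nat_lit 2) (.p (nat_lit 173) (nat_lit 3) (.p (nat_lit 174) (nat_lit 1) (.p (nat_lit 175) (nat_lit 2) (.p (nat_lit 176) (nat_lit 2) (.n (nat_lit 178) (nat_lit 3) (.n (nat_lit 179) (nat_lit 3) (.p (nat_lit 180) (nat_lit 1) (.n (nat_lit 182) (nat_lit 1) (.n (nat_lit 183) (nat_lit 1) .z))))))))))))) (.ct dC2c_c276 (nat_lit 1) (nat_lit 8) (.s true (nat_lit 1) (nat_lit 18) (nat_lit 2) (nat_lit 0) (nat_lit 2) true (nat_lit 2) true (nat_lit 6) false (nat_lit 0) true (nat_lit 6) true (nat_lit 8) (.e false (nat_lit 1) (nat_lit 38) (nat_lit 7) (nat_lit 2) (.e true (nat_lit 1) (nat_lit 87) (nat_lit 2) (nat_lit 6) (.e false (nat_lit 1) (nat_lit 18) (nat_lit 16) (nat_lit 0) (.e false (nat_lit 1) (nat_lit 80) (nat_lit 2) (nat_lit 6) (.e true (nat_lit 1) (nat_lit 81) (nat_lit 2) (nat_lit 6) (.e false (nat_lit 1) (nat_lit 83) (nat_lit 2) (nat_lit 6) (.e true (nat_lit 1) (nat_lit 84) (nat_lit 2) (nat_lit 6) (.e true (nat_lit 1) (nat_lit 85) (nat_lit 2) (nat_lit 6) (.e true (nat_lit 1) (nat_lit 86) (nat_lit 2) (nat_lit 6) (.e false (nat_lit 1) (nat_lit 89) (nat_lit 2) (nat_lit 6) (.u (nat_lit 2) (.p (nat_lit 0) (nat_lit 1) (.n (nat_lit 3) (nat_lit 1) (.n (nat_lit 4) (nat_lit 1) .z))) .nil))))))))))))) .leaf)) (nat_lit 103425) (nat_lit 361) (.p (nat_lit 191) (nat_lit 1) .z) .df (.nd (.nd (.nd .leaf (nat_lit 103426) (nat_lit 388) (.p (nat_lit 200) (nat_lit 1) .z) .df .leaf) (nat_lit 103427) (nat_lit 621) (.p (nat_lit 252) (nat_lit 2) (.n (nat_lit 253) (nat_lit 2) (.p (nat_lit 254) (nat_lit 3) (.p (nat_lit 255) (nat_lit 3) (.p (nat_lit 256) (nat_lit 2) (.p (nat_lit 257) (nat_lit 1) (.p (nat_lit 259) (nat_lit 2) (.n (nat_lit 260) (nat_lit 2) (.p (nat_lit 261) (nat_lit 1) (.p (nat_lit 262) (nat_lit 2) (.p (nat_lit 264) (nat_lit 3) (.p (nat_lit 265) (nat_lit 3) (.p (nat_lit 266) (nat_lit 1) (.p (nat_lit 267) (nat_lit 2) (.n (nat_lit 269) (nat_lit 2) (.n (nat_lit 270) (nat_lit 1) (.n (nat_lit 271) (nat_lit 2) (.n (nat_lit 272) (nat_lit 3) (.n (nat_lit 273) (nat_lit 3) (.n (nat_lit 274) (nat_lit 2) (.n (nat_lit 275) (nat_lit 3) (.p (nat_lit 276) (nat_lit 2) (.p (nat_lit 277) (nat_lit 2) (.p (nat_lit 278) (nat_lit 1) (.p (nat_lit 283) (nat_lit 3) (.p (nat_lit 285) (nat_lit 3) .z)))))))))))))))))))))))))) (.ct dC2c_c292 (nat_lit 1) (nat_lit 10) (.s false (nat_lit 1) (nat_lit 18) (nat_lit 2) (nat_lit 3) (nat_lit 2) true (nat_lit 6) true (nat_lit 11) true (nat_lit 1) true (nat_lit 11) true (nat_lit 10) (.e true (nat_lit 1) (nat_lit 61) (nat_lit 7) (nat_lit 6) (.e false (nat_lit 1) (nat_lit 63) (nat_lit 7) (nat_lit 6) (.e true (nat_lit 1) (nat_lit 65) (nat_lit 7) (nat_lit 6) (.e true (nat_lit 1) (nat_lit 66) (nat_lit 7) (nat_lit 6) (.e false (nat_lit 1) (nat_lit 72) (nat_lit 7) (nat_lit 6) (.e true (nat_lit 1) (nat_lit 132) (nat_lit 2) (nat_lit 11) (.e true (nat_lit 2) (nat_lit 133) (nat_lit 2) (nat_lit 11) (.e false (nat_lit 2) (nat_lit 135) (nat_lit 2) (nat_lit 11) (.e true (nat_lit 2) (nat_lit 137) (nat_lit 2) (nat_lit 11) (.e false (nat_lit 1) (nat_lit 144) (nat_lit 2) (nat_lit 11) (.e true (nat_lit 2) (nat_lit 145) (nat_lit 2) (nat_lit 11) (.e true (nat_lit 2) (nat_lit 146) (nat_lit 2) (nat_lit 11) (.e false (nat_lit 1) (nat_lit 152) (nat_lit 2) (nat_lit 11) (.e false (nat_lit 2) (nat_lit 154) (nat_lit 2) (nat_lit 11) (.e true (nat_lit 1) (nat_lit 157) (nat_lit 2) (nat_lit 11) (.e true (nat_lit 1) (nat_lit 33) (nat_lit 18) (nat_lit 1) (.e false (nat_lit 1) (nat_lit 138) (nat_lit 2) (nat_lit 11) (.u (nat_lit 2) (.n (nat_lit 13) (nat_lit 1) (.n (nat_lit 14) (nat_lit 1) (.p (nat_lit 20) (nat_lit 1) (.p (nat_lit 22) (nat_lit 1) (.n (nat_lit 33) (nat_lit 1) .z))))) .nil)))))))))))))))))))) .leaf) (nat_lit 103428) (nat_lit 740) (.p (nat_lit 289) (nat_lit 1) (.n (nat_lit 290) (nat_lit 3) (.n (nat_lit 291) (nat_lit 3) (.p (nat_lit 292) (nat_lit 3) (.p (nat_lit 293) (nat_lit 2) (.n (nat_lit 295) (nat_lit 3) (.n (nat_lit 296) (nat_lit 3) (.n (nat_lit 298) (nat_lit 3) (.n (nat_lit 299) (nat_lit 1) (.p (nat_lit 303) (nat_lit 2) (.n (nat_lit 304) (nat_lit 1) .z))))))))))) (.ct dC2c_c52 (nat_lit 1) (nat_lit 6) (.s true (nat_lit 1) (nat_lit 18) (nat_lit 2) (nat_lit 4) (nat_lit 2) true (nat_lit 4) true (nat_lit 7) true (nat_lit 1) true (nat_lit 7) true (nat_lit 6) (.e true (nat_lit 1) (nat_lit 74) (nat_lit 7) (nat_lit 4) (.e false (nat_lit 1) (nat_lit 77) (nat_lit 7) (nat_lit 4) (.e true (nat_lit 1) (nat_lit 79) (nat_lit 7) (nat_lit 4) (.e false (nat_lit 2) (nat_lit 159) (nat_lit 2) (nat_lit 7) (.e true (nat_lit 3) (nat_lit 160) (nat_lit 2) (nat_lit 7) (.e true (nat_lit 3) (nat_lit 161) (nat_lit 2) (nat_lit 7) (.e false (nat_lit 1) (nat_lit 162) (nat_lit 2) (nat_lit 7) (.e false (nat_lit 3) (nat_lit 163) (nat_lit 2) (nat_lit 7) (.e false (nat_lit 2) (nat_lit 165) (nat_lit 2) (nat_lit 7) (.e true (nat_lit 2) (nat_lit 168) (nat_lit 2) (nat_lit 7) (.e false (nat_lit 1) (nat_lit 39) (nat_lit 18) (nat_lit 1) (.e false (nat_lit 1) (nat_lit 158) (nat_lit 2) (nat_lit 7) (.u (nat_lit 2) (.n (nat_lit 0) (nat_lit 1) (.p (nat_lit 1) (nat_lit 1) (.p (nat_lit 2) (nat_lit 1) (.n (nat_lit 3) (nat_lit 2) (.p (nat_lit 4) (nat_lit 1) (.p (nat_lit 5) (nat_lit 1) (.p (nat_lit 7) (nat_lit 1) (.p (nat_lit 50) (nat_lit 1) (.n (nat_lit 52) (nat_lit 1) .z))))))))) .nil))))))))))))))) (.nd (.nd .leaf (nat_lit 103429) (nat_lit 801) (.n (nat_lit 305) (nat_lit 2) (.n (nat_lit 306) (nat_lit 3) (.p (nat_lit 307) (nat_lit 3) (.p (nat_lit 308) (nat_lit 2) (.p (nat_lit 309) (nat_lit 2) (.p (nat_lit 310) (nat_lit 2) (.p (nat_lit 311) (nat_lit 2) (.n (nat_lit 312) (nat_lit 3) (.n (nat_lit 313) (nat_lit 3) (.p (nat_lit 314) (nat_lit 1) (.n (nat_lit 315) (nat_lit 3) (.n (nat_lit 317) (nat_lit 1) (.n (nat_lit 318) (nat_lit 1) (.p (nat_lit 319) (nat_lit 1) (.n (nat_lit 322) (nat_lit 1) .z))))))))))))))) (.ct dC2c_c277 (nat_lit 1) (nat_lit 6) (.s true (nat_lit 1) (nat_lit 18) (nat_lit 2) (nat_lit 2) (nat_lit 5) true (nat_lit 2) true (nat_lit 6) true (nat_lit 1) true (nat_lit 8) true (nat_lit 8) (.e true (nat_lit 1) (nat_lit 45) (nat_lit 16) (nat_lit 2) (.e true (nat_lit 1) (nat_lit 43) (nat_lit 18) (nat_lit 1) (.e true (nat_lit 1) (nat_lit 44) (nat_lit 18) (nat_lit 1) (.e false (nat_lit 3) (nat_lit 169) (nat_lit 2) (nat_lit 8) (.e true (nat_lit 2) (nat_lit 170) (nat_lit 2) (nat_lit 8) (.e false (nat_lit 1) (nat_lit 171) (nat_lit 2) (nat_lit 8) (.e true (nat_lit 2) (nat_lit 172) (nat_lit 2) (nat_lit 8) (.e true (nat_lit 3) (nat_lit 173) (nat_lit 2) (nat_lit 8) (.e false (nat_lit 1) (nat_lit 176) (nat_lit 2) (nat_lit 8) (.e true (nat_lit 1) (nat_lit 177) (nat_lit 2) (nat_lit 8) (.e true (nat_lit 1) (nat_lit 178) (nat_lit 2) (nat_lit 8) (.e true (nat_lit 1) (nat_lit 179) (nat_lit 2) (nat_lit 8) (.e false (nat_lit 1) (nat_lit 180) (nat_lit 2) (nat_lit 8) (.e true (nat_lit 1) (nat_lit 182) (nat_lit 2) (nat_lit 8) (.e true (nat_lit 1) (nat_lit 174) (nat_lit 2) (nat_lit 8) (.u (nat_lit 2) (.p (nat_lit 0) (nat_lit 2) (.p (nat_lit 1) (nat_lit 1) (.n (nat_lit 2) (nat_lit 1) (.n (nat_lit 3) (nat_lit 1) (.n (nat_lit 4) (nat_lit 2) (.n (nat_lit 6) (nat_lit 1) (.p (nat_lit 8) (nat_lit 1) (.n (nat_lit 9) (nat_lit 1) .z)))))))) .nil)))))))))))))))))) .leaf) (nat_lit 103430) (nat_lit 840) (.p (nat_lit 324) (nat_lit 1) (.p (nat_lit 326) (nat_lit 3) (.n (nat_lit 327) (nat_lit 3) (.n (nat_lit 330) (nat_lit 1) (.n (nat_lit 332) (nat_lit 1) (.p (nat_lit 333) (nat_lit 1) (.p (nat_lit 334) (nat_lit 1) .z))))))) (.ct dC2c_c37 (nat_lit 1) (nat_lit 4) (.s true (nat_lit 1) (nat_lit 45) (nat_lit 2) (nat_lit 2) (nat_lit 1) true (nat_lit 4) true (nat_lit 7) false (nat_lit 1) true (nat_lit 6) true (nat_lit 6) (.e true (nat_lit 1) (nat_lit 200) (nat_lit 1) (nat_lit 7) (.e false (nat_lit 1) (nat_lit 45) (nat_lit 19) (nat_lit 1) (.e false (nat_lit 2) (nat_lit 185) (nat_lit 2) (nat_lit 6) (.e false (nat_lit 2) (nat_lit 186) (nat_lit 2) (nat_lit 6) (.e true (nat_lit 1) (nat_lit 187) (nat_lit 2) (nat_lit 6) (.e true (nat_lit 3) (nat_lit 188) (nat_lit 2) (nat_lit 6) (.e false (nat_lit 1) (nat_lit 189) (nat_lit 2) (nat_lit 6) (.e true (nat_lit 3) (nat_lit 190) (nat_lit 2) (nat_lit 6) (.e true (nat_lit 1) (nat_lit 191) (nat_lit 2) (nat_lit 6) (.e true (nat_lit 1) (nat_lit 192) (nat_lit 2) (nat_lit 6) (.e false (nat_lit 2) (nat_lit 193) (nat_lit 2) (nat_lit 6) (.e false (nat_lit 1) (nat_lit 194) (nat_lit 2) (nat_lit 6) (.u (nat_lit 2) (.n (nat_lit 3) (nat_lit 1) (.p (nat_lit 4) (nat_lit 1) (.p (nat_lit 6) (nat_lit 1) (.n (nat_lit 7) (nat_lit 1) (.p (nat_lit 36) (nat_lit 1) .z))))) .nil))))))))))))))) .leaf))) (nat_lit 103432) (nat_lit 1017) (.p (nat_lit 335) (nat_lit 2) (.p (nat_lit 336) (nat_lit 1) (.p (nat_lit 337) (nat_lit 2) (.p (nat_lit 338) (nat_lit 2) (.p (nat_lit 339) (nat_lit 2) (.n (nat_lit 341) (nat_lit 2) (.n (nat_lit 342) (nat_lit 1) (.n (nat_lit 343) (nat_lit 2) (.p (nat_lit 344) (nat_lit 3) (.n (nat_lit 345) (nat_lit 2) (.n (nat_lit 346) (nat_lit 3) (.p (nat_lit 349) (nat_lit 3) (.p (nat_lit 350) (nat_lit 1) (.p (nat_lit 352) (nat_lit 2) (.p (nat_lit 353) (nat_lit 3) (.p (nat_lit 354) (nat_lit 1) (.p (nat_lit 355) (nat_lit 3) (.p (nat_lit 356) (nat_lit 2) (.n (nat_lit 357) (nat_lit 2) (.p (nat_lit 358) (nat_lit 3) (.n (nat_lit 359) (nat_lit 3) (.n (nat_lit 360) (nat_lit 1) (.p (nat_lit 361) (nat_lit 1) (.n (nat_lit 362) (nat_lit 1) (.n (nat_lit 363) (nat_lit 2) (.p (nat_lit 364) (nat_lit 2) (.n (nat_lit 366) (nat_lit 1) (.n (nat_lit 367) (nat_lit 1) (.n (nat_lit 368) (nat_lit 2) (.n (nat_lit 369) (nat_lit 1) (.n (nat_lit 370) (nat_lit 1) (.p (nat_lit 371) (nat_lit 1) (.n (nat_lit 372) (nat_lit 3) (.p (nat_lit 373) (nat_lit 2) (.n (nat_lit 374) (nat_lit 2) (.n (nat_lit 375) (nat_lit 1) (.p (nat_lit 377) (nat_lit 2) (.n (nat_lit 379) (nat_lit 1) (.n (nat_lit 380) (nat_lit 3) (.n (nat_lit 381) (nat_lit 2) .z)))))))))))))))))))))))))))))))))))))))) (.ct dC2c_c308 (nat_lit 1) (nat_lit 10) (.s true (nat_lit 1) (nat_lit 18) (nat_lit 2) (nat_lit 2) (nat_lit 8) true (nat_lit 2) true (nat_lit 10) true (nat_lit 5) true (nat_lit 16) true (nat_lit 16) (.e false (nat_lit 1) (nat_lit 45) (nat_lit 24) (nat_lit 2) (.e false (nat_lit 1) (nat_lit 72) (nat_lit 18) (nat_lit 5) (.e false (nat_lit 1) (nat_lit 205) (nat_lit 2) (nat_lit 16) (.e true (nat_lit 3) (nat_lit 208) (nat_lit 2) (nat_lit 16) (.e false (nat_lit 2) (nat_lit 215) (nat_lit 2) (nat_lit 16) (.e false (nat_lit 3) (nat_lit 216) (nat_lit 2) (nat_lit 16) (.e true (nat_lit 1) (nat_lit 225) (nat_lit 2) (nat_lit 16) (.e true (nat_lit 2) (nat_lit 227) (nat_lit 2) (nat_lit 16) (.e true (nat_lit 1) (nat_lit 231) (nat_lit 2) (nat_lit 16) (.e false (nat_lit 1) (nat_lit 248) (nat_lit 2) (nat_lit 16) (.u (nat_lit 2) (.n (nat_lit 0) (nat_lit 1) (.n (nat_lit 1) (nat_lit 1) (.p (nat_lit 2) (nat_lit 2) (.n (nat_lit 3) (nat_lit 2) (.p (nat_lit 4) (nat_lit 1) (.p (nat_lit 7) (nat_lit 1) (.p (nat_lit 9) (nat_lit 1) (.n (nat_lit 10) (nat_lit 1) (.p (nat_lit 11) (nat_lit 1) (.n (nat_lit 15) (nat_lit 1) (.n (nat_lit 16) (nat_lit 1) (.n (nat_lit 18) (nat_lit 2) (.n (nat_lit 19) (nat_lit 2) (.p (nat_lit 20) (nat_lit 1) (.p (nat_lit 21) (nat_lit 1) (.n (nat_lit 22) (nat_lit 1) (.n (nat_lit 23) (nat_lit 3) (.p (nat_lit 24) (nat_lit 1) (.n (nat_lit 27) (nat_lit 3) (.p (nat_lit 28) (nat_lit 1) (.n (nat_lit 29) (nat_lit 2) (.n (nat_lit 31) (nat_lit 1) (.p (nat_lit 34) (nat_lit 2) (.n (nat_lit 36) (nat_lit 1) (.n (nat_lit 39) (nat_lit 1) (.p (nat_lit 40) (nat_lit 1) (.p (nat_lit 44) (nat_lit 1) (.p (nat_lit 46) (nat_lit 1) (.n (nat_lit 47) (nat_lit 2) (.n (nat_lit 48) (nat_lit 1) .z)))))))))))))))))))))))))))))) .nil))))))))))))) (.nd (.nd (.nd (.nd .leaf (nat_lit 103433) (nat_lit 1033) (.n (nat_lit 335) (nat_lit 2) (.n (nat_lit 336) (nat_lit 3) (.p (nat_lit 337) (nat_lit 1) (.p (nat_lit 338) (nat_lit 1) (.n (nat_lit 339) (nat_lit 2) (.p (nat_lit 340) (nat_lit 2) (.p (nat_lit 341) (nat_lit 2) (.n (nat_lit 342) (nat_lit 2) (.p (nat_lit 343) (nat_lit 1) (.n (nat_lit 344) (nat_lit 1) (.p (nat_lit 345) (nat_lit 1) (.n (nat_lit 346) (nat_lit 3) (.n (nat_lit 349) (nat_lit 2) (.n (nat_lit 350) (nat_lit 3) (.n (nat_lit 351) (nat_lit 3) (.n (nat_lit 352) (nat_lit 3) (.p (nat_lit 353) (nat_lit 3) (.n (nat_lit 354) (nat_lit 2) (.n (nat_lit 355) (nat_lit 2) (.p (nat_lit 356) (nat_lit 3) (.n (nat_lit 357) (nat_lit 3) (.p (nat_lit 358) (nat_lit 2) (.n (nat_lit 360) (nat_lit 2) (.p (nat_lit 361) (nat_lit 1) (.n (nat_lit 362) (nat_lit 3) (.p (nat_lit 363) (nat_lit 1) (.p (nat_lit 364) (nat_lit 3) (.p (nat_lit 367) (nat_lit 2) (.n (nat_lit 368) (nat_lit 3) (.p (nat_lit 369) (nat_lit 2) (.p (nat_lit 370) (nat_lit 2) (.p (nat_lit 371) (nat_lit 1) (.p (nat_lit 372) (nat_lit 1) (.p (nat_lit 373) (nat_lit 3) (.n (nat_lit 374) (nat_lit 3) (.n (nat_lit 375) (nat_lit 2) (.n (nat_lit 377) (nat_lit 3) (.n (nat_lit 379) (nat_lit 2) (.p (nat_lit 380) (nat_lit 3) (.p (nat_lit 381) (nat_lit 2) .z)))))))))))))))))))))))))))))))))))))))) (.ct dC2c_c308 (nat_lit 1) (nat_lit 10) (.s false (nat_lit 1) (nat_lit 101) (nat_lit 1) (nat_lit 1) (nat_lit 0) true (nat_lit 15) true (nat_lit 18) false (nat_lit 10) true (nat_lit 17) true (nat_lit 17) (.e false (nat_lit 1) (nat_lit 191) (nat_lit 3) (nat_lit 15) (.e true (nat_lit 2) (nat_lit 289) (nat_lit 0) (nat_lit 18) (.e false (nat_lit 3) (nat_lit 290) (nat_lit 0) (nat_lit 18) (.e false (nat_lit 1) (nat_lit 291) (nat_lit 0) (nat_lit 18) (.e true (nat_lit 1) (nat_lit 292) (nat_lit 0) (nat_lit 18) (.e false (nat_lit 3) (nat_lit 293) (nat_lit 0) (nat_lit 18) (.e false (nat_lit 1) (nat_lit 294) (nat_lit 0) (nat_lit 18) (.e false (nat_lit 3) (nat_lit 296) (nat_lit 0) (nat_lit 18) (.e false (nat_lit 1) (nat_lit 297) (nat_lit 0) (nat_lit 18) (.e false (nat_lit 2) (nat_lit 298) (nat_lit 0) (nat_lit 18) (.e false (nat_lit 1) (nat_lit 300) (nat_lit 0) (nat_lit 18) (.e false (nat_lit 3) (nat_lit 303) (nat_lit 0) (nat_lit 18) (.e true (nat_lit 3) (nat_lit 304) (nat_lit 0) (nat_lit 18) (.e true (nat_lit 1) (nat_lit 252) (nat_lit 1) (nat_lit 17) (.e false (nat_lit 1) (nat_lit 253) (nat_lit 1) (nat_lit 17) (.e false (nat_lit 3) (nat_lit 254) (nat_lit 1) (nat_lit 17) (.e true (nat_lit 1) (nat_lit 255) (nat_lit 1) (nat_lit 17) (.e false (nat_lit 1) (nat_lit 256) (nat_lit 1) (nat_lit 17) (.e true (nat_lit 3) (nat_lit 257) (nat_lit 1) (nat_lit 17) dC2c_i63))))))))))))))))))))) .leaf) (nat_lit 103435) (nat_lit 1379) (.p (nat_lit 397) (nat_lit 1) (.n (nat_lit 398) (nat_lit 2) (.n (nat_lit 401) (nat_lit 1) (.p (nat_lit 402) (nat_lit 1) (.p (nat_lit 403) (nat_lit 3) (.p (nat_lit 404) (nat_lit 2) (.n (nat_lit 405) (nat_lit 2) (.p (nat_lit 407) (nat_lit 1) (.p (nat_lit 408) (nat_lit 1) (.n (nat_lit 409) (nat_lit 3) (.p (nat_lit 410) (nat_lit 1) (.n (nat_lit 411) (nat_lit 3) (.p (nat_lit 412) (nat_lit 2) (.p (nat_lit 413) (nat_lit 2) (.n (nat_lit 414) (nat_lit 1) (.p (nat_lit 415) (nat_lit 1) (.p (nat_lit 416) (nat_lit 3) (.p (nat_lit 418) (nat_lit 1) (.n (nat_lit 420) (nat_lit 1) (.p (nat_lit 421) (nat_lit 1) (.n (nat_lit 422) (nat_lit 1) (.p (nat_lit 427) (nat_lit 2) (.p (nat_lit 431) (nat_lit 3) .z))))))))))))))))))))))) (.ct dC2c_c293 (nat_lit 1) (nat_lit 7) (.s true (nat_lit 1) (nat_lit 18) (nat_lit 2) (nat_lit 2) (nat_lit 11) true (nat_lit 1) true (nat_lit 7) true (nat_lit 4) true (nat_lit 14) true (nat_lit 14) (.e false (nat_lit 1) (nat_lit 45) (nat_lit 33) (nat_lit 1) (.e false (nat_lit 1) (nat_lit 88) (nat_lit 18) (nat_lit 4) (.e true (nat_lit 3) (nat_lit 254) (nat_lit 2) (nat_lit 14) (.e true (nat_lit 2) (nat_lit 258) (nat_lit 2) (nat_lit 14) (.e true (nat_lit 1) (nat_lit 264) (nat_lit 2) (nat_lit 14) (.e false (nat_lit 3) (nat_lit 265) (nat_lit 2) (nat_lit 14) (.e true (nat_lit 1) (nat_lit 266) (nat_lit 2) (nat_lit 14) (.e false (nat_lit 1) (nat_lit 269) (nat_lit 2) (nat_lit 14) (.e false (nat_lit 1) (nat_lit 272) (nat_lit 2) (nat_lit 14) (.e false (nat_lit 2) (nat_lit 274) (nat_lit 2) (nat_lit 14) (.e true (nat_lit 1) (nat_lit 278) (nat_lit 2) (nat_lit 14) (.e false (nat_lit 1) (nat_lit 285) (nat_lit 2) (nat_lit 14) (.u (nat_lit 2) (.p (nat_lit 1) (nat_lit 1) (.p (nat_lit 2) (nat_lit 1) (.n (nat_lit 3) (nat_lit 1) (.p (nat_lit 4) (nat_lit 1) (.n (nat_lit 5) (nat_lit 1) (.n (nat_lit 7) (nat_lit 1) (.p (nat_lit 8) (nat_lit 1) (.p (nat_lit 9) (nat_lit 1) (.n (nat_lit 10) (nat_lit 2) (.p (nat_lit 11) (nat_lit 1) (.p (nat_lit 13) (nat_lit 2) (.p (nat_lit 14) (nat_lit 2) (.n (nat_lit 15) (nat_lit 2) (.n (nat_lit 16) (nat_lit 2) (.p (nat_lit 17) (nat_lit 2) (.n (nat_lit 19) (nat_lit 3) (.p (nat_lit 21) (nat_lit 1) (.p (nat_lit 23) (nat_lit 2) (.n (nat_lit 24) (nat_lit 2) (.p (nat_lit 25) (nat_lit 1) (.n (nat_lit 38) (nat_lit 1) .z))))))))))))))))))))) .nil))))))))))))))) .leaf) (nat_lit 103436) (nat_lit 1282) (.p (nat_lit 397) (nat_lit 2) (.p (nat_lit 398) (nat_lit 3) (.p (nat_lit 399) (nat_lit 3) (.p (nat_lit 400) (nat_lit 1) (.p (nat_lit 401) (nat_lit 2) (.p (nat_lit 402) (nat_lit 3) (.p (nat_lit 404) (nat_lit 1) (.p (nat_lit 405) (nat_lit 3) (.n (nat_lit 407) (nat_lit 2) (.n (nat_lit 408) (nat_lit 1) (.p (nat_lit 409) (nat_lit 2) (.p (nat_lit 410) (nat_lit 2) (.n (nat_lit 412) (nat_lit 1) (.n (nat_lit 413) (nat_lit 1) (.p (nat_lit 414) (nat_lit 2) (.n (nat_lit 415) (nat_lit 1) (.p (nat_lit 416) (nat_lit 1) (.n (nat_lit 418) (nat_lit 2) (.p (nat_lit 421) (nat_lit 1) (.n (nat_lit 423) (nat_lit 1) (.p (nat_lit 428) (nat_lit 2) (.p (nat_lit 435) (nat_lit 3) .z)))))))))))))))))))))) (.ct dC2c_c293 (nat_lit 1) (nat_lit 7) (.s true (nat_lit 1) (nat_lit 18) (nat_lit 2) (nat_lit 2) (nat_lit 12) true (nat_lit 1) true (nat_lit 7) true (nat_lit 4) true (nat_lit 14) true (nat_lit 14) (.e false (nat_lit 1) (nat_lit 45) (nat_lit 34) (nat_lit 1) (.e false (nat_lit 1) (nat_lit 89) (nat_lit 18) (nat_lit 4) (.e false (nat_lit 1) (nat_lit 252) (nat_lit 2) (nat_lit 14) (.e false (nat_lit 3) (nat_lit 254) (nat_lit 2) (nat_lit 14) (.e false (nat_lit 3) (nat_lit 256) (nat_lit 2) (nat_lit 14) (.e false (nat_lit 2) (nat_lit 258) (nat_lit 2) (nat_lit 14) (.e false (nat_lit 3) (nat_lit 259) (nat_lit 2) (nat_lit 14) (.e true (nat_lit 2) (nat_lit 260) (nat_lit 2) (nat_lit 14) (.e false (nat_lit 3) (nat_lit 261) (nat_lit 2) (nat_lit 14) (.e false (nat_lit 3) (nat_lit 263) (nat_lit 2) (nat_lit 14) (.e true (nat_lit 3) (nat_lit 264) (nat_lit 2) (nat_lit 14) (.e true (nat_lit 3) (nat_lit 265) (nat_lit 2) (nat_lit 14) (.e true (nat_lit 1) (nat_lit 267) (nat_lit 2) (nat_lit 14) (.e false (nat_lit 1) (nat_lit 270) (nat_lit 2) (nat_lit 14) (.e true (nat_lit 2) (nat_lit 272) (nat_lit 2) (nat_lit 14) (.e false (nat_lit 2) (nat_lit 274) (nat_lit 2) (nat_lit 14) (.e true (nat_lit 3) (nat_lit 275) (nat_lit 2) (nat_lit 14) (.e true (nat_lit 1) (nat_lit 279) (nat_lit 2) (nat_lit 14) (.e false (nat_lit 1) (nat_lit 286) (nat_lit 2) (nat_lit 14) (.e true (nat_lit 1) (nat_lit 253) (nat_lit 2) (nat_lit 14) (.u (nat_lit 2) (.p (nat_lit 0) (nat_lit 2) (.p (nat_lit 1) (nat_lit 1) (.p (nat_lit 2) (nat_lit 4) (.n (nat_lit 3) (nat_lit 2) (.n (nat_lit 4) (nat_lit 2) (.p (nat_lit 5) (nat_lit 4) (.n (nat_lit 6) (nat_lit 4) (.n (nat_lit 7) (nat_lit 1) (.p (nat_lit 8) (nat_lit 2) (.p (nat_lit 9) (nat_lit 1) (.n (nat_lit 11) (nat_lit 2) (.n (nat_lit 12) (nat_lit 4) (.n (nat_lit 13) (nat_lit 4) (.p (nat_lit 15) (nat_lit 1) (.p (nat_lit 16) (nat_lit 1) (.n (nat_lit 17) (nat_lit 1) (.p (nat_lit 18) (nat_lit 2) (.n (nat_lit 21) (nat_lit 4) (.n (nat_lit 23) (nat_lit 3) (.p (nat_lit 24) (nat_lit 2) (.p (nat_lit 25) (nat_lit 1) (.n (nat_lit 34) (nat_lit 2) (.n (nat_lit 38) (nat_lit 1) (.n (nat_lit 211) (nat_lit 1) (.p (nat_lit 216) (nat_lit 1) .z))))))))))))))))))))))))) .nil))))))))))))))))))))))) (.nd (.nd .leaf (nat_lit 103438) (nat_lit 1442) (.p (nat_lit 436) (nat_lit 2) (.p (nat_lit 437) (nat_lit 2) (.p (nat_lit 438) (nat_lit 2) (.n (nat_lit 439) (nat_lit 2) (.p (nat_lit 440) (nat_lit 3) (.p (nat_lit 441) (nat_lit 3) (.n (nat_lit 442) (nat_lit 2) (.p (nat_lit 443) (nat_lit 2) (.p (nat_lit 444) (nat_lit 1) (.n (nat_lit 447) (nat_lit 2) (.p (nat_lit 448) (nat_lit 1) (.n (nat_lit 450) (nat_lit 2) .z)))))))))))) (.ct dC2c_c53 (nat_lit 1) (nat_lit 4) (.s true (nat_lit 1) (nat_lit 18) (nat_lit 2) (nat_lit 2) (nat_lit 14) true (nat_lit 0) true (nat_lit 4) true (nat_lit 3) true (nat_lit 9) true (nat_lit 9) (.e true (nat_lit 1) (nat_lit 45) (nat_lit 39) (nat_lit 0) (.e true (nat_lit 1) (nat_lit 96) (nat_lit 18) (nat_lit 3) (.e false (nat_lit 1) (nat_lit 289) (nat_lit 2) (nat_lit 9) (.e true (nat_lit 1) (nat_lit 290) (nat_lit 2) (nat_lit 9) (.e false (nat_lit 2) (nat_lit 291) (nat_lit 2) (nat_lit 9) (.e true (nat_lit 1) (nat_lit 292) (nat_lit 2) (nat_lit 9) (.e true (nat_lit 1) (nat_lit 294) (nat_lit 2) (nat_lit 9) (.e true (nat_lit 2) (nat_lit 296) (nat_lit 2) (nat_lit 9) (.e false (nat_lit 1) (nat_lit 299) (nat_lit 2) (nat_lit 9) (.e false (nat_lit 1) (nat_lit 303) (nat_lit 2) (nat_lit 9) (.e true (nat_lit 2) (nat_lit 304) (nat_lit 2) (nat_lit 9) (.e true (nat_lit 1) (nat_lit 298) (nat_lit 2) (nat_lit 9) (.u (nat_lit 2) (.n (nat_lit 1) (nat_lit 1) (.p (nat_lit 2) (nat_lit 1) (.p (nat_lit 3) (nat_lit 1) (.n (nat_lit 4) (nat_lit 1) (.n (nat_lit 7) (nat_lit 1) (.n (nat_lit 8) (nat_lit 1) (.p (nat_lit 14) (nat_lit 1) (.n (nat_lit 82) (nat_lit 1) (.p (nat_lit 83) (nat_lit 1) .z))))))))) .nil))))))))))))))) .leaf) (nat_lit 104448) (nat_lit 348) (.n (nat_lit 169) (nat_lit 1) (.n (nat_lit 171) (nat_lit 1) (.p (nat_lit 172) (nat_lit 2) (.n (nat_lit 174) (nat_lit 1) (.n (nat_lit 176) (nat_lit 1) (.p (nat_lit 177) (nat_lit 2) (.p (nat_lit 179) (nat_lit 1) (.n (nat_lit 180) (nat_lit 1) (.n (nat_lit 181) (nat_lit 1) (.p (nat_lit 182) (nat_lit 1) (.n (nat_lit 183) (nat_lit 1) (.n (nat_lit 184) (nat_lit 1) .z)))))))))))) (.ct dC2c_c276 (nat_lit 1) (nat_lit 8) (.s true (nat_lit 1) (nat_lit 20) (nat_lit 2) (nat_lit 1) (nat_lit 0) true (nat_lit 4) true (nat_lit 8) false (nat_lit 1) true (nat_lit 6) true (nat_lit 7) (.e true (nat_lit 1) (nat_lit 47) (nat_lit 5) (nat_lit 4) (.e true (nat_lit 1) (nat_lit 104) (nat_lit 0) (nat_lit 8) (.e false (nat_lit 1) (nat_lit 20) (nat_lit 13) (nat_lit 1) (.e true (nat_lit 1) (nat_lit 81) (nat_lit 2) (nat_lit 6) (.e false (nat_lit 1) (nat_lit 82) (nat_lit 2) (nat_lit 6) (.e false (nat_lit 1) (nat_lit 83) (nat_lit 2) (nat_lit 6) (.e false (nat_lit 1) (nat_lit 85) (nat_lit 2) (nat_lit 6) (.e true (nat_lit 1) (nat_lit 88) (nat_lit 2) (nat_lit 6) (.e false (nat_lit 1) (nat_lit 99) (nat_lit 1) (nat_lit 7) (.u (nat_lit 2) (.p (nat_lit 0) (nat_lit 1) (.n (nat_lit 1) (nat_lit 1) (.n (nat_lit 9) (nat_lit 1) (.n (nat_lit 10) (nat_lit 1) .z)))) .nil)))))))))))) .leaf)) (nat_lit 104449) (nat_lit 362) (.p (nat_lit 192) (nat_lit 1) .z) .df (.nd (.nd (.nd .leaf (nat_lit 104450) (nat_lit 389) (.p (nat_lit 201) (nat_lit 1) .z) .df .leaf) (nat_lit 104451) (nat_lit 619) (.p (nat_lit 252) (nat_lit 2) (.n (nat_lit 253) (nat_lit 1) (.p (nat_lit 254) (nat_lit 1) (.p (nat_lit 255) (nat_lit 2) (.p (nat_lit 256) (nat_lit 2) (.p (nat_lit 257) (nat_lit 2) (.p (nat_lit 258) (nat_lit 3) (.p (nat_lit 259) (nat_lit 2) (.n (nat_lit 260) (nat_lit 2) (.p (nat_lit 261) (nat_lit 1) (.p (nat_lit 262) (nat_lit 2) (.p (nat_lit 265) (nat_lit 1) (.p (nat_lit 266) (nat_lit 3) (.p (nat_lit 267) (nat_lit 2) (.p (nat_lit 269) (nat_lit 2) (.n (nat_lit 270) (nat_lit 1) (.n (nat_lit 271) (nat_lit 2) (.n (nat_lit 272) (nat_lit 2) (.n (nat_lit 273) (nat_lit 3) (.n (nat_lit 274) (nat_lit 3) (.n (nat_lit 275) (nat_lit 3) (.p (nat_lit 276) (nat_lit 2) (.p (nat_lit 277) (nat_lit 3) (.n (nat_lit 278) (nat_lit 1) (.p (nat_lit 283) (nat_lit 2) (.n (nat_lit 285) (nat_lit 2) (.n (nat_lit 287) (nat_lit 1) .z))))))))))))))))))))))))))) (.ct dC2c_c292 (nat_lit 1) (nat_lit 10) (.s false (nat_lit 1) (nat_lit 19) (nat_lit 2) (nat_lit 3) (nat_lit 2) true (nat_lit 6) true (nat_lit 11) true (nat_lit 1) true (nat_lit 11) true (nat_lit 10) (.e true (nat_lit 1) (nat_lit 60) (nat_lit 7) (nat_lit 6) (.e true (nat_lit 1) (nat_lit 61) (nat_lit 7) (nat_lit 6) (.e true (nat_lit 1) (nat_lit 62) (nat_lit 7) (nat_lit 6) (.e false (nat_lit 1) (nat_lit 63) (nat_lit 7) (nat_lit 6) (.e true (nat_lit 1) (nat_lit 65) (nat_lit 7) (nat_lit 6) (.e false (nat_lit 1) (nat_lit 66) (nat_lit 7) (nat_lit 6) (.e false (nat_lit 1) (nat_lit 73) (nat_lit 7) (nat_lit 6) (.e false (nat_lit 1) (nat_lit 157) (nat_lit 2) (nat_lit 11) (.e true (nat_lit 1) (nat_lit 33) (nat_lit 19) (nat_lit 1) (.e true (nat_lit 2) (nat_lit 134) (nat_lit 2) (nat_lit 11) (.e false (nat_lit 2) (nat_lit 138) (nat_lit 2) (nat_lit 11) (.e true (nat_lit 2) (nat_lit 145) (nat_lit 2) (nat_lit 11) (.e false (nat_lit 1) (nat_lit 149) (nat_lit 2) (nat_lit 11) (.e false (nat_lit 1) (nat_lit 154) (nat_lit 2) (nat_lit 11) (.u (nat_lit 2) (.n (nat_lit 14) (nat_lit 1) (.p (nat_lit 20) (nat_lit 1) (.p (nat_lit 22) (nat_lit 1) .z))) .nil))))))))))))))))) .leaf) (nat_lit 104452) (nat_lit 727) (.p (nat_lit 289) (nat_lit 3) (.n (nat_lit 291) (nat_lit 1) (.n (nat_lit 292) (nat_lit 3) (.p (nat_lit 293) (nat_lit 2) (.p (nat_lit 294) (nat_lit 1) (.n (nat_lit 295) (nat_lit 1) (.n (nat_lit 297) (nat_lit 2) (.n (nat_lit 298) (nat_lit 3) (.n (nat_lit 300) (nat_lit 2) (.p (nat_lit 301) (nat_lit 2) (.p (nat_lit 303) (nat_lit 3) (.n (nat_lit 304) (nat_lit 2) .z)))))))))))) (.ct dC2c_c52 (nat_lit 1) (nat_lit 6) (.s false (nat_lit 3) (nat_lit 7) (nat_lit 1) (nat_lit 7) (nat_lit 4) true (nat_lit 3) true (nat_lit 6) true (nat_lit 4) true (nat_lit 8) true (nat_lit 4) (.e false (nat_lit 1) (nat_lit 103) (nat_lit 4) (nat_lit 6) (.e false (nat_lit 2) (nat_lit 74) (nat_lit 7) (nat_lit 4) (.e false (nat_lit 2) (nat_lit 75) (nat_lit 7) (nat_lit 4) (.e true (nat_lit 3) (nat_lit 76) (nat_lit 7) (nat_lit 4) (.e false (nat_lit 3) (nat_lit 77) (nat_lit 7) (nat_lit 4) (.e false (nat_lit 3) (nat_lit 78) (nat_lit 7) (nat_lit 4) (.e false (nat_lit 1) (nat_lit 190) (nat_lit 1) (nat_lit 8) (.u (nat_lit 2) (.p (nat_lit 1) (nat_lit 2) (.n (nat_lit 2) (nat_lit 1) (.n (nat_lit 3) (nat_lit 2) (.p (nat_lit 5) (nat_lit 1) (.n (nat_lit 7) (nat_lit 1) (.p (nat_lit 8) (nat_lit 2) (.n (nat_lit 14) (nat_lit 1) (.n (nat_lit 15) (nat_lit 1) (.n (nat_lit 32) (nat_lit 2) (.n (nat_lit 33) (nat_lit 2) (.n (nat_lit 37) (nat_lit 3) (.p (nat_lit 45) (nat_lit 1) (.n (nat_lit 46) (nat_lit 1) (.n (nat_lit 64) (nat_lit 1) .z)))))))))))))) .nil)))))))))) (.nd .leaf (nat_lit 104453) (nat_lit 808) (.n (nat_lit 306) (nat_lit 3) (.n (nat_lit 307) (nat_lit 2) (.p (nat_lit 308) (nat_lit 1) (.p (nat_lit 310) (nat_lit 3) (.p (nat_lit 311) (nat_lit 2) (.n (nat_lit 312) (nat_lit 2) (.n (nat_lit 313) (nat_lit 3) (.p (nat_lit 315) (nat_lit 1) (.n (nat_lit 318) (nat_lit 1) (.n (nat_lit 320) (nat_lit 1) (.n (nat_lit 321) (nat_lit 1) (.n (nat_lit 322) (nat_lit 1) .z)))))))))))) (.ct dC2c_c277 (nat_lit 1) (nat_lit 6) (.s true (nat_lit 1) (nat_lit 20) (nat_lit 5) (nat_lit 2) (nat_lit 1) true (nat_lit 3) true (nat_lit 9) true (nat_lit 0) true (nat_lit 6) true (nat_lit 8) (.e true (nat_lit 1) (nat_lit 48) (nat_lit 12) (nat_lit 3) (.e false (nat_lit 1) (nat_lit 36) (nat_lit 20) (nat_lit 0) (.e false (nat_lit 1) (nat_lit 103) (nat_lit 5) (nat_lit 6) (.e true (nat_lit 1) (nat_lit 104) (nat_lit 5) (nat_lit 6) (.e true (nat_lit 3) (nat_lit 169) (nat_lit 2) (nat_lit 8) (.e false (nat_lit 3) (nat_lit 170) (nat_lit 2) (nat_lit 8) (.e false (nat_lit 1) (nat_lit 171) (nat_lit 2) (nat_lit 8) (.e true (nat_lit 3) (nat_lit 172) (nat_lit 2) (nat_lit 8) (.e false (nat_lit 3) (nat_lit 173) (nat_lit 2) (nat_lit 8) (.e false (nat_lit 3) (nat_lit 175) (nat_lit 2) (nat_lit 8) (.e false (nat_lit 3) (nat_lit 176) (nat_lit 2) (nat_lit 8) (.e false (nat_lit 3) (nat_lit 178) (nat_lit 2) (nat_lit 8) (.e false (nat_lit 3) (nat_lit 179) (nat_lit 2) (nat_lit 8) (.e false (nat_lit 1) (nat_lit 182) (nat_lit 2) (nat_lit 8) (.u (nat_lit 2) (.n (nat_lit 0) (nat_lit 1) (.p (nat_lit 4) (nat_lit 1) (.p (nat_lit 6) (nat_lit 1) (.p (nat_lit 7) (nat_lit 1) (.p (nat_lit 10) (nat_lit 1) .z))))) .nil))))))))))))))))) .leaf)))) (nat_lit 104454) (nat_lit 830) (.n (nat_lit 324) (nat_lit 2) (.n (nat_lit 325) (nat_lit 1) (.n (nat_lit 326) (nat_lit 1) (.p (nat_lit 327) (nat_lit 1) (.n (nat_lit 328) (nat_lit 3) (.n (nat_lit 330) (nat_lit 2) (.p (nat_lit 333) (nat_lit 1) (.p (nat_lit 334) (nat_lit 1) .z)))))))) (.ct dC2c_c37 (nat_lit 1) (nat_lit 4) (.s true (nat_lit 3) (nat_lit 15) (nat_lit 2) (nat_lit 2) (nat_lit 7) true (nat_lit 0) true (nat_lit 3) true (nat_lit 2) true (nat_lit 6) true (nat_lit 6) (.s false (nat_lit 3) (nat_lit 19) (nat_lit 7) (nat_lit 1) (nat_lit 2) true (nat_lit 0) true (nat_lit 6) true (nat_lit 1) true (nat_lit 3) true (nat_lit 7) (.s true (nat_lit 3) (nat_lit 41) (nat_lit 2) (nat_lit 2) (nat_lit 2) true (nat_lit 3) true (nat_lit 6) false (nat_lit 0) true (nat_lit 6) true (nat_lit 6) (.s false (nat_lit 3) (nat_lit 46) (nat_lit 1) (nat_lit 2) (nat_lit 2) true (nat_lit 4) true (nat_lit 6) false (nat_lit 1) true (nat_lit 7) true (nat_lit 6) (.s false (nat_lit 3) (nat_lit 46) (nat_lit 2) (nat_lit 2) (nat_lit 1) true (nat_lit 4) true (nat_lit 7) false (nat_lit 1) true (nat_lit 6) true (nat_lit 6) (.e true (nat_lit 3) (nat_lit 190) (nat_lit 2) (nat_lit 6) (.e false (nat_lit 3) (nat_lit 194) (nat_lit 2) (nat_lit 6) (.e true (nat_lit 3) (nat_lit 189) (nat_lit 2) (nat_lit 6) (.e false (nat_lit 3) (nat_lit 39) (nat_lit 20) (nat_lit 0) (.e true (nat_lit 3) (nat_lit 91) (nat_lit 7) (nat_lit 3) (.e true (nat_lit 3) (nat_lit 95) (nat_lit 7) (nat_lit 3) (.e false (nat_lit 3) (nat_lit 96) (nat_lit 7) (nat_lit 3) (.e false (nat_lit 3) (nat_lit 201) (nat_lit 1) (nat_lit 7) (.e true (nat_lit 3) (nat_lit 46) (nat_lit 18) (nat_lit 1) (.u (nat_lit 2) (.n (nat_lit 0) (nat_lit 1) (.n (nat_lit 1) (nat_lit 2) (.p (nat_lit 2) (nat_lit 1) (.n (nat_lit 3) (nat_lit 1) (.p (nat_lit 6) (nat_lit 2) (.n (nat_lit 9) (nat_lit 1) (.n (nat_lit 10) (nat_lit 1) (.p (nat_lit 29) (nat_lit 1) (.p (nat_lit 33) (nat_lit 3) (.n (nat_lit 35) (nat_lit 3) (.p (nat_lit 36) (nat_lit 3) (.n (nat_lit 38) (nat_lit 3) .z)))))))))))) .nil)))))))))))))))) (.nd (.nd (.nd (.nd (.nd .leaf (nat_lit 104456) (nat_lit 1026) (.p (nat_lit 338) (nat_lit 1) (.n (nat_lit 339) (nat_lit 1) (.n (nat_lit 340) (nat_lit 2) (.n (nat_lit 341) (nat_lit 2) (.n (nat_lit 342) (nat_lit 3) (.p (nat_lit 343) (nat_lit 2) (.n (nat_lit 345) (nat_lit 3) (.n (nat_lit 346) (nat_lit 3) (.n (nat_lit 347) (nat_lit 2) (.n (nat_lit 350) (nat_lit 1) (.p (nat_lit 351) (nat_lit 2) (.p (nat_lit 352) (nat_lit 1) (.n (nat_lit 353) (nat_lit 2) (.p (nat_lit 354) (nat_lit 3) (.n (nat_lit 355) (nat_lit 2) (.n (nat_lit 356) (nat_lit 2) (.p (nat_lit 357) (nat_lit 2) (.n (nat_lit 358) (nat_lit 3) (.p (nat_lit 359) (nat_lit 1) (.p (nat_lit 360) (nat_lit 2) (.p (nat_lit 361) (nat_lit 3) (.n (nat_lit 362) (nat_lit 2) (.p (nat_lit 363) (nat_lit 2) (.n (nat_lit 364) (nat_lit 2) (.p (nat_lit 367) (nat_lit 1) (.n (nat_lit 368) (nat_lit 3) (.p (nat_lit 369) (nat_lit 1) (.n (nat_lit 370) (nat_lit 2) (.n (nat_lit 372) (nat_lit 1) (.p (nat_lit 373) (nat_lit 3) (.p (nat_lit 374) (nat_lit 1) (.p (nat_lit 375) (nat_lit 2) (.p (nat_lit 377) (nat_lit 3) (.p (nat_lit 379) (nat_lit 2) (.n (nat_lit 380) (nat_lit 2) (.p (nat_lit 381) (nat_lit 1) (.p (nat_lit 382) (nat_lit 3) (.p (nat_lit 383) (nat_lit 2) .z)))))))))))))))))))))))))))))))))))))) (.ct dC2c_c308 (nat_lit 1) (nat_lit 10) (.s true (nat_lit 1) (nat_lit 20) (nat_lit 2) (nat_lit 1) (nat_lit 8) true (nat_lit 2) true (nat_lit 10) true (nat_lit 4) true (nat_lit 16) true (nat_lit 17) (.e false (nat_lit 1) (nat_lit 47) (nat_lit 24) (nat_lit 2) (.e true (nat_lit 1) (nat_lit 104) (nat_lit 8) (nat_lit 10) (.e false (nat_lit 1) (nat_lit 59) (nat_lit 20) (nat_lit 4) (.e true (nat_lit 1) (nat_lit 227) (nat_lit 2) (nat_lit 16) (.e false (nat_lit 1) (nat_lit 245) (nat_lit 2) (nat_lit 16) (.e false (nat_lit 1) (nat_lit 264) (nat_lit 1) (nat_lit 17) (.e true (nat_lit 1) (nat_lit 272) (nat_lit 1) (nat_lit 17) (.u (nat_lit 2) (.n (nat_lit 0) (nat_lit 1) (.n (nat_lit 3) (nat_lit 1) (.p (nat_lit 4) (nat_lit 1) (.p (nat_lit 5) (nat_lit 1) (.p (nat_lit 10) (nat_lit 1) (.n (nat_lit 14) (nat_lit 1) (.p (nat_lit 15) (nat_lit 1) (.n (nat_lit 16) (nat_lit 1) (.n (nat_lit 17) (nat_lit 1) (.p (nat_lit 21) (nat_lit 2) (.n (nat_lit 22) (nat_lit 2) (.n (nat_lit 25) (nat_lit 1) (.n (nat_lit 26) (nat_lit 1) (.p (nat_lit 29) (nat_lit 1) (.p (nat_lit 31) (nat_lit 1) (.p (nat_lit 33) (nat_lit 1) (.p (nat_lit 35) (nat_lit 1) (.p (nat_lit 37) (nat_lit 1) (.n (nat_lit 38) (nat_lit 1) (.p (nat_lit 45) (nat_lit 1) (.n (nat_lit 46) (nat_lit 1) .z))))))))))))))))))))) .nil)))))))))) .leaf) (nat_lit 104457) (nat_lit 1031) (.n (nat_lit 335) (nat_lit 2) (.p (nat_lit 336) (nat_lit 3) (.n (nat_lit 337) (nat_lit 1) (.n (nat_lit 338) (nat_lit 2) (.n (nat_lit 339) (nat_lit 3) (.p (nat_lit 340) (nat_lit 2) (.n (nat_lit 342) (nat_lit 3) (.n (nat_lit 343) (nat_lit 1) (.n (nat_lit 344) (nat_lit 1) (.p (nat_lit 345) (nat_lit 2) (.p (nat_lit 346) (nat_lit 3) (.p (nat_lit 347) (nat_lit 3) (.n (nat_lit 349) (nat_lit 1) (.n (nat_lit 350) (nat_lit 1) (.p (nat_lit 351) (nat_lit 3) (.n (nat_lit 352) (nat_lit 3) (.p (nat_lit 353) (nat_lit 1) (.n (nat_lit 354) (nat_lit 2) (.n (nat_lit 355) (nat_lit 1) (.p (nat_lit 358) (nat_lit 1) (.n (nat_lit 359) (nat_lit 1) (.p (nat_lit 360) (nat_lit 1) (.n (nat_lit 361) (nat_lit 1) (.n (nat_lit 362) (nat_lit 3) (.n (nat_lit 363) (nat_lit 3) (.n (nat_lit 364) (nat_lit 1) (.n (nat_lit 367) (nat_lit 3) (.n (nat_lit 368) (nat_lit 2) (.p (nat_lit 369) (nat_lit 1) (.p (nat_lit 370) (nat_lit 3) (.p (nat_lit 371) (nat_lit 1) (.p (nat_lit 372) (nat_lit 2) (.p (nat_lit 373) (nat_lit 2) (.p (nat_lit 374) (nat_lit 2) (.n (nat_lit 375) (nat_lit 3) (.n (nat_lit 377) (nat_lit 1) (.n (nat_lit 379) (nat_lit 3) (.p (nat_lit 380) (nat_lit 2) (.n (nat_lit 381) (nat_lit 1) (.n (nat_lit 382) (nat_lit 3) (.n (nat_lit 383) (nat_lit 2) .z))))))))))))))))))))))))))))))))))))))))) (.ct dC2c_c308 (nat_lit 1) (nat_lit 10) (.s false (nat_lit 1) (nat_lit 102) (nat_lit 1) (nat_lit 1) (nat_lit 0) true (nat_lit 15) true (nat_lit 18) false (nat_lit 10) true (nat_lit 17) true (nat_lit 17) (.e false (nat_lit 1) (nat_lit 192) (nat_lit 3) (nat_lit 15) (.e false (nat_lit 3) (nat_lit 289) (nat_lit 0) (nat_lit 18) (.e true (nat_lit 1) (nat_lit 290) (nat_lit 0) (nat_lit 18) (.e true (nat_lit 1) (nat_lit 291) (nat_lit 0) (nat_lit 18) (.e true (nat_lit 2) (nat_lit 292) (nat_lit 0) (nat_lit 18) (.e true (nat_lit 2) (nat_lit 295) (nat_lit 0) (nat_lit 18) (.e false (nat_lit 3) (nat_lit 296) (nat_lit 0) (nat_lit 18) (.e true (nat_lit 3) (nat_lit 297) (nat_lit 0) (nat_lit 18) (.e false (nat_lit 2) (nat_lit 298) (nat_lit 0) (nat_lit 18) (.e true (nat_lit 1) (nat_lit 299) (nat_lit 0) (nat_lit 18) (.e true (nat_lit 1) (nat_lit 300) (nat_lit 0) (nat_lit 18) (.e false (nat_lit 3) (nat_lit 301) (nat_lit 0) (nat_lit 18) (.e true (nat_lit 2) (nat_lit 303) (nat_lit 0) (nat_lit 18) (.e false (nat_lit 2) (nat_lit 304) (nat_lit 0) (nat_lit 18) (.e true (nat_lit 3) (nat_lit 252) (nat_lit 1) (nat_lit 17) (.e true (nat_lit 3) (nat_lit 253) (nat_lit 1) (nat_lit 17) dC2c_i64)))))))))))))))))) .leaf) (nat_lit 104459) (nat_lit 1236) (.p (nat_lit 397) (nat_lit 2) (.p (nat_lit 398) (nat_lit 1) (.p (nat_lit 399) (nat_lit 3) (.n (nat_lit 400) (nat_lit 3) (.n (nat_lit 402) (nat_lit 1) (.p (nat_lit 403) (nat_lit 3) (.n (nat_lit 404) (nat_lit 1) (.p (nat_lit 405) (nat_lit 3) (.n (nat_lit 406) (nat_lit 1) (.p (nat_lit 407) (nat_lit 1) (.n (nat_lit 408) (nat_lit 2) (.p (nat_lit 409) (nat_lit 1) (.n (nat_lit 411) (nat_lit 2) (.p (nat_lit 412) (nat_lit 3) (.p (nat_lit 413) (nat_lit 3) (.n (nat_lit 415) (nat_lit 3) (.p (nat_lit 416) (nat_lit 1) (.p (nat_lit 418) (nat_lit 1) (.n (nat_lit 420) (nat_lit 2) (.n (nat_lit 421) (nat_lit 2) (.p (nat_lit 422) (nat_lit 2) (.p (nat_lit 427) (nat_lit 3) (.p (nat_lit 431) (nat_lit 3) .z))))))))))))))))))))))) (.ct dC2c_c293 (nat_lit 1) (nat_lit 7) (.s true (nat_lit 3) (nat_lit 11) (nat_lit 1) (nat_lit 7) (nat_lit 7) true (nat_lit 4) true (nat_lit 9) true (nat_lit 7) true (nat_lit 15) true (nat_lit 9) (.e true (nat_lit 3) (nat_lit 88) (nat_lit 19) (nat_lit 4) (.e true (nat_lit 3) (nat_lit 154) (nat_lit 7) (nat_lit 9) (.e false (nat_lit 1) (nat_lit 103) (nat_lit 11) (nat_lit 7) (.e false (nat_lit 3) (nat_lit 149) (nat_lit 7) (nat_lit 9) (.u (nat_lit 2) (.n (nat_lit 0) (nat_lit 1) (.n (nat_lit 3) (nat_lit 1) (.p (nat_lit 5) (nat_lit 1) (.p (nat_lit 7) (nat_lit 1) (.n (nat_lit 8) (nat_lit 2) (.p (nat_lit 9) (nat_lit 2) (.p (nat_lit 10) (nat_lit 2) (.p (nat_lit 11) (nat_lit 3) (.n (nat_lit 14) (nat_lit 1) (.n (nat_lit 15) (nat_lit 3) (.n (nat_lit 16) (nat_lit 3) (.n (nat_lit 17) (nat_lit 2) (.n (nat_lit 21) (nat_lit 1) (.n (nat_lit 24) (nat_lit 1) (.p (nat_lit 25) (nat_lit 1) (.n (nat_lit 30) (nat_lit 3) (.p (nat_lit 34) (nat_lit 1) (.p (nat_lit 38) (nat_lit 1) (.p (nat_lit 129) (nat_lit 1) (.n (nat_lit 130) (nat_lit 1) .z)))))))))))))))))))) .nil))))))) (.nd (.nd .leaf (nat_lit 104460) (nat_lit 1283) (.n (nat_lit 398) (nat_lit 3) (.p (nat_lit 399) (nat_lit 1) (.n (nat_lit 400) (nat_lit 3) (.p (nat_lit 402) (nat_lit 3) (.n (nat_lit 403) (nat_lit 1) (.n (nat_lit 404) (nat_lit 3) (.p (nat_lit 405) (nat_lit 3) (.n (nat_lit 406) (nat_lit 3) (.n (nat_lit 408) (nat_lit 1) (.p (nat_lit 409) (nat_lit 1) (.n (nat_lit 410) (nat_lit 1) (.n (nat_lit 412) (nat_lit 1) (.n (nat_lit 413) (nat_lit 1) (.p (nat_lit 414) (nat_lit 3) (.n (nat_lit 415) (nat_lit 1) (.n (nat_lit 416) (nat_lit 1) (.n (nat_lit 418) (nat_lit 3) (.n (nat_lit 420) (nat_lit 2) (.n (nat_lit 421) (nat_lit 3) (.p (nat_lit 423) (nat_lit 2) (.p (nat_lit 428) (nat_lit 3) (.p (nat_lit 431) (nat_lit 3) (.n (nat_lit 432) (nat_lit 1) (.n (nat_lit 435) (nat_lit 2) .z)))))))))))))))))))))))) (.ct dC2c_c293 (nat_lit 1) (nat_lit 7) dC2c_i65) .leaf) (nat_lit 104461) (nat_lit 1323) (.p (nat_lit 397) (nat_lit 1) (.n (nat_lit 398) (nat_lit 3) (.p (nat_lit 400) (nat_lit 1) (.n (nat_lit 401) (nat_lit 2) (.p (nat_lit 402) (nat_lit 2) (.p (nat_lit 403) (nat_lit 1) (.p (nat_lit 405) (nat_lit 2) (.p (nat_lit 406) (nat_lit 3) (.p (nat_lit 407) (nat_lit 1) (.p (nat_lit 408) (nat_lit 2) (.n (nat_lit 409) (nat_lit 3) (.n (nat_lit 410) (nat_lit 2) (.n (nat_lit 411) (nat_lit 2) (.p (nat_lit 412) (nat_lit 2) (.p (nat_lit 413) (nat_lit 2) (.n (nat_lit 414) (nat_lit 1) (.n (nat_lit 415) (nat_lit 1) (.p (nat_lit 416) (nat_lit 3) (.p (nat_lit 420) (nat_lit 1) (.p (nat_lit 421) (nat_lit 3) (.p (nat_lit 422) (nat_lit 2) (.p (nat_lit 423) (nat_lit 2) (.p (nat_lit 427) (nat_lit 3) (.p (nat_lit 428) (nat_lit 3) (.n (nat_lit 431) (nat_lit 3) (.n (nat_lit 432) (nat_lit 1) (.n (nat_lit 435) (nat_lit 1) .z))))))))))))))))))))))))))) (.ct dC2c_c293 (nat_lit 1) (nat_lit 7) (.s false (nat_lit 3) (nat_lit 13) (nat_lit 7) (nat_lit 1) (nat_lit 7) false (nat_lit 2) true (nat_lit 9) true (nat_lit 7) true (nat_lit 9) true (nat_lit 15) (.e false (nat_lit 2) (nat_lit 136) (nat_lit 7) (nat_lit 9) (.e true (nat_lit 3) (nat_lit 137) (nat_lit 7) (nat_lit 9) (.e false (nat_lit 2) (nat_lit 138) (nat_lit 7) (nat_lit 9) (.e false (nat_lit 3) (nat_lit 139) (nat_lit 7) (nat_lit 9) (.e true (nat_lit 3) (nat_lit 140) (nat_lit 7) (nat_lit 9) (.e false (nat_lit 2) (nat_lit 141) (nat_lit 7) (nat_lit 9) (.e true (nat_lit 1) (nat_lit 143) (nat_lit 7) (nat_lit 9) (.e false (nat_lit 2) (nat_lit 144) (nat_lit 7) (nat_lit 9) (.e false (nat_lit 1) (nat_lit 145) (nat_lit 7) (nat_lit 9) (.e true (nat_lit 1) (nat_lit 147) (nat_lit 7) (nat_lit 9) (.e false (nat_lit 3) (nat_lit 150) (nat_lit 7) (nat_lit 9) (.e true (nat_lit 3) (nat_lit 151) (nat_lit 7) (nat_lit 9) (.e true (nat_lit 1) (nat_lit 152) (nat_lit 7) (nat_lit 9) (.e false (nat_lit 1) (nat_lit 155) (nat_lit 7) (nat_lit 9) (.e false (nat_lit 3) (nat_lit 156) (nat_lit 7) (nat_lit 9) (.e false (nat_lit 1) (nat_lit 157) (nat_lit 7) (nat_lit 9) (.e false (nat_lit 1) (nat_lit 103) (nat_lit 13) (nat_lit 7) (.e false (nat_lit 1) (nat_lit 133) (nat_lit 7) (nat_lit 9) (.e false (nat_lit 3) (nat_lit 134) (nat_lit 7) (nat_lit 9) (.e true (nat_lit 3) (nat_lit 142) (nat_lit 7) (nat_lit 9) (.e false (nat_lit 1) (nat_lit 318) (nat_lit 1) (nat_lit 15) (.u (nat_lit 2) (.p (nat_lit 1) (nat_lit 1) (.n (nat_lit 2) (nat_lit 1) (.p (nat_lit 4) (nat_lit 2) (.n (nat_lit 5) (nat_lit 4) (.n (nat_lit 6) (nat_lit 1) (.n (nat_lit 8) (nat_lit 1) (.n (nat_lit 9) (nat_lit 1) (.n (nat_lit 10) (nat_lit 4) (.p (nat_lit 11) (nat_lit 1) (.n (nat_lit 12) (nat_lit 2) (.p (nat_lit 13) (nat_lit 1) (.p (nat_lit 15) (nat_lit 4) (.p (nat_lit 16) (nat_lit 4) (.p (nat_lit 17) (nat_lit 5) (.n (nat_lit 18) (nat_lit 3) (.p (nat_lit 19) (nat_lit 2) (.n (nat_lit 21) (nat_lit 4) (.n (nat_lit 24) (nat_lit 2) (.p (nat_lit 25) (nat_lit 1) (.n (nat_lit 26) (nat_lit 1) (.n (nat_lit 27) (nat_lit 2) (.p (nat_lit 29) (nat_lit 3) (.n (nat_lit 31) (nat_lit 2) (.n (nat_lit 34) (nat_lit 2) (.n (nat_lit 35) (nat_lit 4) (.p (nat_lit 38) (nat_lit 4) (.p (nat_lit 137) (nat_lit 1) (.n (nat_lit 138) (nat_lit 1) (.n (nat_lit 143) (nat_lit 1) (.p (nat_lit 146) (nat_lit 1) (.p (nat_lit 148) (nat_lit 1) (.n (nat_lit 149) (nat_lit 3) (.p (nat_lit 150) (nat_lit 3) (.n (nat_lit 151) (nat_lit 2) (.n (nat_lit 153) (nat_lit 2) (.n (nat_lit 154) (nat_lit 2) (.n (nat_lit 155) (nat_lit 1) (.n (nat_lit 157) (nat_lit 2) (.p (nat_lit 162) (nat_lit 1) (.n (nat_lit 165) (nat_lit 1) (.n (nat_lit 167) (nat_lit 1) (.n (nat_lit 254) (nat_lit 1) .z)))))))))))))))))))))))))))))))))))))))))) .nil)))))))))))))))))))))))) .leaf)) (nat_lit 104462) (nat_lit 1436) (.n (nat_lit 436) (nat_lit 3) (.p (nat_lit 437) (nat_lit 1) (.n (nat_lit 438) (nat_lit 1) (.n (nat_lit 439) (nat_lit 3) (.p (nat_lit 440) (nat_lit 1) (.p (nat_lit 441) (nat_lit 2) (.n (nat_lit 442) (nat_lit 2) (.p (nat_lit 443) (nat_lit 3) (.p (nat_lit 444) (nat_lit 1) (.n (nat_lit 447) (nat_lit 2) (.n (nat_lit 450) (nat_lit 3) .z))))))))))) (.ct dC2c_c53 (nat_lit 1) (nat_lit 4) (.s true (nat_lit 1) (nat_lit 20) (nat_lit 14) (nat_lit 2) (nat_lit 1) true (nat_lit 1) true (nat_lit 10) true (nat_lit 2) true (nat_lit 4) true (nat_lit 9) (.e true (nat_lit 1) (nat_lit 48) (nat_lit 31) (nat_lit 1) (.e false (nat_lit 1) (nat_lit 77) (nat_lit 20) (nat_lit 2) (.e false (nat_lit 1) (nat_lit 103) (nat_lit 14) (nat_lit 4) (.e true (nat_lit 1) (nat_lit 104) (nat_lit 14) (nat_lit 4) (.e true (nat_lit 2) (nat_lit 289) (nat_lit 2) (nat_lit 9) (.e false (nat_lit 1) (nat_lit 290) (nat_lit 2) (nat_lit 9) (.e false (nat_lit 3) (nat_lit 291) (nat_lit 2) (nat_lit 9) (.e false (nat_lit 1) (nat_lit 292) (nat_lit 2) (nat_lit 9) (.e false (nat_lit 2) (nat_lit 293) (nat_lit 2) (nat_lit 9) (.e true (nat_lit 2) (nat_lit 294) (nat_lit 2) (nat_lit 9) (.e true (nat_lit 1) (nat_lit 295) (nat_lit 2) (nat_lit 9) (.e false (nat_lit 3) (nat_lit 296) (nat_lit 2) (nat_lit 9) (.e true (nat_lit 1) (nat_lit 297) (nat_lit 2) (nat_lit 9) (.e true (nat_lit 2) (nat_lit 298) (nat_lit 2) (nat_lit 9) (.e true (nat_lit 1) (nat_lit 303) (nat_lit 2) (nat_lit 9) (.e false (nat_lit 2) (nat_lit 304) (nat_lit 2) (nat_lit 9) (.u (nat_lit 2) (.p (nat_lit 1) (nat_lit 1) (.p (nat_lit 4) (nat_lit 1) (.n (nat_lit 5) (nat_lit 1) (.p (nat_lit 6) (nat_lit 1) (.n (nat_lit 8) (nat_lit 1) .z))))) .nil))))))))))))))))))) (.nd (.nd (.nd .leaf (nat_lit 105472) (nat_lit 339) (.p (nat_lit 169) (nat_lit 2) (.n (nat_lit 170) (nat_lit 2) (.n (nat_lit 171) (nat_lit 1) (.p (nat_lit 172) (nat_lit 1) (.n (nat_lit 173) (nat_lit 3) (.p (nat_lit 174) (nat_lit 3) (.n (nat_lit 175) (nat_lit 1) (.n (nat_lit 176) (nat_lit 1) (.p (nat_lit 177) (nat_lit 2) (.p (nat_lit 178) (nat_lit 1) (.p (nat_lit 179) (nat_lit 2) (.n (nat_lit 181) (nat_lit 1) (.n (nat_lit 183) (nat_lit 1) .z))))))))))))) (.ct dC2c_c276 (nat_lit 1) (nat_lit 8) (.s false (nat_lit 1) (nat_lit 20) (nat_lit 1) (nat_lit 0) (nat_lit 2) true (nat_lit 3) true (nat_lit 6) false (nat_lit 1) true (nat_lit 7) true (nat_lit 8) (.s true (nat_lit 1) (nat_lit 20) (nat_lit 2) (nat_lit 0) (nat_lit 1) true (nat_lit 3) true (nat_lit 7) false (nat_lit 1) true (nat_lit 6) true (nat_lit 8) (.s true (nat_lit 1) (nat_lit 20) (nat_lit 2) (nat_lit 1) (nat_lit 0) true (nat_lit 4) true (nat_lit 8) false (nat_lit 1) true (nat_lit 6) true (nat_lit 7) (.e false (nat_lit 2) (nat_lit 82) (nat_lit 2) (nat_lit 6) (.e false (nat_lit 1) (nat_lit 84) (nat_lit 2) (nat_lit 6) (.e false (nat_lit 2) (nat_lit 85) (nat_lit 2) (nat_lit 6) (.e true (nat_lit 1) (nat_lit 88) (nat_lit 2) (nat_lit 6) (.e true (nat_lit 1) (nat_lit 90) (nat_lit 2) (nat_lit 6) (.e true (nat_lit 1) (nat_lit 20) (nat_lit 11) (nat_lit 1) (.e false (nat_lit 2) (nat_lit 99) (nat_lit 1) (nat_lit 7) (.e false (nat_lit 1) (nat_lit 20) (nat_lit 12) (nat_lit 1) (.e true (nat_lit 1) (nat_lit 47) (nat_lit 5) (nat_lit 4) (.e false (nat_lit 1) (nat_lit 20) (nat_lit 13) (nat_lit 1) (.u (nat_lit 2) (.p (nat_lit 0) (nat_lit 1) (.n (nat_lit 1) (nat_lit 1) (.p (nat_lit 4) (nat_lit 1) (.n (nat_lit 5) (nat_lit 1) (.n (nat_lit 9) (nat_lit 1) (.n (nat_lit 10) (nat_lit 1) .z)))))) .nil))))))))))))))) .leaf) (nat_lit 105473) (nat_lit 363) (.p (nat_lit 193) (nat_lit 1) .z) .df .leaf) (nat_lit 105474) (nat_lit 390) (.p (nat_lit 202) (nat_lit 1) .z) .df (.nd .leaf (nat_lit 105475) (nat_lit 620) (.p (nat_lit 252) (nat_lit 3) (.p (nat_lit 254) (nat_lit 1) (.p (nat_lit 255) (nat_lit 1) (.p (nat_lit 256) (nat_lit 2) (.p (nat_lit 257) (nat_lit 3) (.p (nat_lit 258) (nat_lit 3) (.p (nat_lit 259) (nat_lit 2) (.n (nat_lit 260) (nat_lit 2) (.p (nat_lit 261) (nat_lit 1) (.p (nat_lit 262) (nat_lit 2) (.n (nat_lit 265) (nat_lit 1) (.p (nat_lit 266) (nat_lit 2) (.p (nat_lit 267) (nat_lit 2) (.p (nat_lit 269) (nat_lit 3) (.n (nat_lit 270) (nat_lit 1) (.n (nat_lit 271) (nat_lit 2) (.n (nat_lit 272) (nat_lit 3) (.n (nat_lit 273) (nat_lit 3) (.n (nat_lit 274) (nat_lit 2) (.n (nat_lit 275) (nat_lit 3) (.p (nat_lit 276) (nat_lit 2) (.n (nat_lit 277) (nat_lit 3) (.p (nat_lit 283) (nat_lit 2) (.n (nat_lit 285) (nat_lit 3) .z)))))))))))))))))))))))) (.ct dC2c_c292 (nat_lit 1) (nat_lit 10) (.s true (nat_lit 3) (nat_lit 7) (nat_lit 1) (nat_lit 7) (nat_lit 3) true (nat_lit 5) true (nat_lit 10) true (nat_lit 6) true (nat_lit 12) true (nat_lit 6) (.e false (nat_lit 1) (nat_lit 102) (nat_lit 3) (nat_lit 10) (.e false (nat_lit 1) (nat_lit 62) (nat_lit 7) (nat_lit 6) (.e true (nat_lit 1) (nat_lit 66) (nat_lit 7) (nat_lit 6) (.e true (nat_lit 1) (nat_lit 73) (nat_lit 7) (nat_lit 6) (.e false (nat_lit 1) (nat_lit 177) (nat_lit 1) (nat_lit 12) (.e true (nat_lit 3) (nat_lit 72) (nat_lit 7) (nat_lit 6) (.u (nat_lit 2) (.n (nat_lit 20) (nat_lit 1) (.p (nat_lit 25) (nat_lit 1) (.n (nat_lit 80) (nat_lit 1) (.p (nat_lit 84) (nat_lit 1) (.p (nat_lit 91) (nat_lit 1) (.n (nat_lit 114) (nat_lit 1) (.p (nat_lit 115) (nat_lit 1) (.n (nat_lit 151) (nat_lit 1) .z)))))))) .nil))))))))) .leaf))) (nat_lit 105476) (nat_lit 724) (.p (nat_lit 289) (nat_lit 3) (.n (nat_lit 290) (nat_lit 2) (.n (nat_lit 291) (nat_lit 1) (.n (nat_lit 292) (nat_lit 1) (.n (nat_lit 293) (nat_lit 2) (.p (nat_lit 294) (nat_lit 1) (.n (nat_lit 295) (nat_lit 2) (.n (nat_lit 296) (nat_lit 2) (.p (nat_lit 303) (nat_lit 2) (.n (nat_lit 304) (nat_lit 1) .z)))))))))) (.ct dC2c_c52 (nat_lit 1) (nat_lit 6) (.s true (nat_lit 1) (nat_lit 20) (nat_lit 1) (nat_lit 2) (nat_lit 4) true (nat_lit 3) true (nat_lit 6) true (nat_lit 0) true (nat_lit 8) true (nat_lit 7) (.e false (nat_lit 1) (nat_lit 48) (nat_lit 10) (nat_lit 3) (.e true (nat_lit 1) (nat_lit 30) (nat_lit 20) (nat_lit 0) (.e false (nat_lit 1) (nat_lit 31) (nat_lit 20) (nat_lit 0) (.e true (nat_lit 1) (nat_lit 190) (nat_lit 1) (nat_lit 8) (.e false (nat_lit 1) (nat_lit 194) (nat_lit 1) (nat_lit 8) (.e true (nat_lit 2) (nat_lit 164) (nat_lit 2) (nat_lit 7) (.e false (nat_lit 2) (nat_lit 165) (nat_lit 2) (nat_lit 7) (.e true (nat_lit 1) (nat_lit 166) (nat_lit 2) (nat_lit 7) (.u (nat_lit 2) (.n (nat_lit 0) (nat_lit 1) (.p (nat_lit 1) (nat_lit 1) (.p (nat_lit 4) (nat_lit 1) (.p (nat_lit 6) (nat_lit 1) (.p (nat_lit 7) (nat_lit 1) .z))))) .nil))))))))))) (.nd (.nd (.nd (.nd .leaf (nat_lit 105477) (nat_lit 807) (.n (nat_lit 305) (nat_lit 1) (.n (nat_lit 306) (nat_lit 2) (.n (nat_lit 307) (nat_lit 2) (.p (nat_lit 308) (nat_lit 1) (.p (nat_lit 309) (nat_lit 1) (.p (nat_lit 310) (nat_lit 1) (.p (nat_lit 311) (nat_lit 2) (.p (nat_lit 312) (nat_lit 2) (.n (nat_lit 313) (nat_lit 2) (.n (nat_lit 314) (nat_lit 1) (.p (nat_lit 315) (nat_lit 3) (.p (nat_lit 317) (nat_lit 1) (.n (nat_lit 318) (nat_lit 1) (.n (nat_lit 322) (nat_lit 1) .z)))))))))))))) (.ct dC2c_c277 (nat_lit 1) (nat_lit 6) (.s true (nat_lit 1) (nat_lit 47) (nat_lit 2) (nat_lit 2) (nat_lit 0) true (nat_lit 6) true (nat_lit 10) false (nat_lit 2) true (nat_lit 8) true (nat_lit 8) (.e true (nat_lit 1) (nat_lit 202) (nat_lit 0) (nat_lit 10) (.e false (nat_lit 1) (nat_lit 47) (nat_lit 17) (nat_lit 2) (.e false (nat_lit 3) (nat_lit 169) (nat_lit 2) (nat_lit 8) (.e true (nat_lit 3) (nat_lit 170) (nat_lit 2) (nat_lit 8) (.e false (nat_lit 1) (nat_lit 171) (nat_lit 2) (nat_lit 8) (.e false (nat_lit 3) (nat_lit 172) (nat_lit 2) (nat_lit 8) (.e true (nat_lit 2) (nat_lit 173) (nat_lit 2) (nat_lit 8) (.e true (nat_lit 3) (nat_lit 175) (nat_lit 2) (nat_lit 8) (.e true (nat_lit 3) (nat_lit 176) (nat_lit 2) (nat_lit 8) (.e true (nat_lit 3) (nat_lit 178) (nat_lit 2) (nat_lit 8) (.e false (nat_lit 3) (nat_lit 179) (nat_lit 2) (nat_lit 8) (.e true (nat_lit 1) (nat_lit 182) (nat_lit 2) (nat_lit 8) (.e false (nat_lit 2) (nat_lit 174) (nat_lit 2) (nat_lit 8) (.e true (nat_lit 1) (nat_lit 177) (nat_lit 2) (nat_lit 8) (.u (nat_lit 2) (.p (nat_lit 2) (nat_lit 1) (.p (nat_lit 3) (nat_lit 1) (.n (nat_lit 9) (nat_lit 1) (.n (nat_lit 70) (nat_lit 1) .z)))) .nil))))))))))))))))) .leaf) (nat_lit 105478) (nat_lit 835) (.n (nat_lit 325) (nat_lit 1) (.p (nat_lit 326) (nat_lit 2) (.n (nat_lit 327) (nat_lit 1) (.p (nat_lit 328) (nat_lit 2) (.p (nat_lit 329) (nat_lit 2) (.n (nat_lit 331) (nat_lit 3) (.p (nat_lit 333) (nat_lit 1) (.p (nat_lit 334) (nat_lit 1) .z)))))))) (.ct dC2c_c37 (nat_lit 1) (nat_lit 4) (.s false (nat_lit 1) (nat_lit 7) (nat_lit 6) (nat_lit 6) (nat_lit 2) true (nat_lit 1) true (nat_lit 6) true (nat_lit 3) true (nat_lit 4) true (nat_lit 4) (.e true (nat_lit 1) (nat_lit 46) (nat_lit 18) (nat_lit 1) (.e false (nat_lit 1) (nat_lit 47) (nat_lit 18) (nat_lit 1) (.e false (nat_lit 2) (nat_lit 185) (nat_lit 2) (nat_lit 6) (.e true (nat_lit 3) (nat_lit 186) (nat_lit 2) (nat_lit 6) (.e true (nat_lit 3) (nat_lit 187) (nat_lit 2) (nat_lit 6) (.e false (nat_lit 2) (nat_lit 188) (nat_lit 2) (nat_lit 6) (.e false (nat_lit 2) (nat_lit 189) (nat_lit 2) (nat_lit 6) (.e true (nat_lit 1) (nat_lit 190) (nat_lit 2) (nat_lit 6) (.e false (nat_lit 1) (nat_lit 192) (nat_lit 2) (nat_lit 6) (.e true (nat_lit 1) (nat_lit 193) (nat_lit 2) (nat_lit 6) (.e false (nat_lit 2) (nat_lit 104) (nat_lit 6) (nat_lit 4) (.e false (nat_lit 1) (nat_lit 102) (nat_lit 6) (nat_lit 4) (.u (nat_lit 2) (.n (nat_lit 0) (nat_lit 1) (.n (nat_lit 1) (nat_lit 2) (.n (nat_lit 2) (nat_lit 2) (.p (nat_lit 3) (nat_lit 2) (.n (nat_lit 4) (nat_lit 2) (.n (nat_lit 5) (nat_lit 1) (.n (nat_lit 6) (nat_lit 1) (.p (nat_lit 7) (nat_lit 1) (.n (nat_lit 33) (nat_lit 1) (.p (nat_lit 35) (nat_lit 1) (.n (nat_lit 36) (nat_lit 1) (.p (nat_lit 38) (nat_lit 1) .z)))))))))))) .nil))))))))))))))) .leaf) (nat_lit 105480) (nat_lit 1027) (.p (nat_lit 335) (nat_lit 1) (.p (nat_lit 336) (nat_lit 2) (.n (nat_lit 337) (nat_lit 3) (.p (nat_lit 338) (nat_lit 2) (.n (nat_lit 339) (nat_lit 3) (.n (nat_lit 340) (nat_lit 3) (.p (nat_lit 341) (nat_lit 3) (.p (nat_lit 342) (nat_lit 1) (.n (nat_lit 343) (nat_lit 3) (.p (nat_lit 344) (nat_lit 3) (.n (nat_lit 346) (nat_lit 1) (.n (nat_lit 347) (nat_lit 1) (.p (nat_lit 350) (nat_lit 1) (.p (nat_lit 351) (nat_lit 2) (.n (nat_lit 353) (nat_lit 1) (.p (nat_lit 354) (nat_lit 3) (.p (nat_lit 355) (nat_lit 2) (.n (nat_lit 356) (nat_lit 1) (.p (nat_lit 357) (nat_lit 1) (.p (nat_lit 358) (nat_lit 1) (.n (nat_lit 359) (nat_lit 1) (.n (nat_lit 360) (nat_lit 3) (.n (nat_lit 361) (nat_lit 3) (.p (nat_lit 362) (nat_lit 3) (.p (nat_lit 364) (nat_lit 3) (.p (nat_lit 367) (nat_lit 2) (.p (nat_lit 368) (nat_lit 2) (.n (nat_lit 369) (nat_lit 2) (.p (nat_lit 370) (nat_lit 3) (.n (nat_lit 371) (nat_lit 2) (.n (nat_lit 372) (nat_lit 1) (.n (nat_lit 373) (nat_lit 2) (.p (nat_lit 380) (nat_lit 2) (.n (nat_lit 381) (nat_lit 1) (.n (nat_lit 382) (nat_lit 1) (.n (nat_lit 383) (nat_lit 3) .z)))))))))))))))))))))))))))))))))))) (.ct dC2c_c308 (nat_lit 1) (nat_lit 10) (.s false (nat_lit 3) (nat_lit 8) (nat_lit 1) (nat_lit 7) (nat_lit 7) true (nat_lit 5) true (nat_lit 11) true (nat_lit 10) true (nat_lit 17) true (nat_lit 11) (.e false (nat_lit 3) (nat_lit 72) (nat_lit 19) (nat_lit 5) (.e false (nat_lit 3) (nat_lit 128) (nat_lit 7) (nat_lit 11) (.e false (nat_lit 1) (nat_lit 102) (nat_lit 8) (nat_lit 10) (.e true (nat_lit 3) (nat_lit 126) (nat_lit 7) (nat_lit 11) (.u (nat_lit 2) (.n (nat_lit 0) (nat_lit 1) (.n (nat_lit 1) (nat_lit 2) (.p (nat_lit 2) (nat_lit 3) (.n (nat_lit 3) (nat_lit 1) (.p (nat_lit 4) (nat_lit 2) (.p (nat_lit 5) (nat_lit 1) (.n (nat_lit 6) (nat_lit 2) (.p (nat_lit 7) (nat_lit 2) (.n (nat_lit 8) (nat_lit 1) (.n (nat_lit 11) (nat_lit 2) (.n (nat_lit 12) (nat_lit 1) (.p (nat_lit 15) (nat_lit 1) (.p (nat_lit 17) (nat_lit 4) (.p (nat_lit 18) (nat_lit 2) (.n (nat_lit 20) (nat_lit 1) (.n (nat_lit 21) (nat_lit 1) (.p (nat_lit 22) (nat_lit 1) (.n (nat_lit 23) (nat_lit 1) (.n (nat_lit 24) (nat_lit 1) (.p (nat_lit 25) (nat_lit 2) (.p (nat_lit 27) (nat_lit 1) (.n (nat_lit 28) (nat_lit 1) (.n (nat_lit 29) (nat_lit 2) (.n (nat_lit 32) (nat_lit 1) (.n (nat_lit 33) (nat_lit 2) (.n (nat_lit 35) (nat_lit 2) (.p (nat_lit 36) (nat_lit 2) (.p (nat_lit 38) (nat_lit 2) (.p (nat_lit 39) (nat_lit 1) (.p (nat_lit 40) (nat_lit 2) (.p (nat_lit 42) (nat_lit 3) (.p (nat_lit 44) (nat_lit 2) (.n (nat_lit 45) (nat_lit 1) (.p (nat_lit 46) (nat_lit 2) (.n (nat_lit 47) (nat_lit 2) (.n (nat_lit 48) (nat_lit 1) (.n (nat_lit 206) (nat_lit 1) (.p (nat_lit 207) (nat_lit 1) .z)))))))))))))))))))))))))))))))))))))) .nil))))))) (.nd (.nd .leaf (nat_lit 105481) (nat_lit 1029) (.n (nat_lit 336) (nat_lit 2) (.p (nat_lit 337) (nat_lit 3) (.n (nat_lit 338) (nat_lit 2) (.p (nat_lit 339) (nat_lit 3) (.p (nat_lit 340) (nat_lit 2) (.p (nat_lit 341) (nat_lit 1) (.p (nat_lit 343) (nat_lit 2) (.p (nat_lit 344) (nat_lit 2) (.n (nat_lit 345) (nat_lit 2) (.p (nat_lit 346) (nat_lit 1) (.n (nat_lit 347) (nat_lit 2) (.n (nat_lit 349) (nat_lit 2) (.p (nat_lit 350) (nat_lit 3) (.n (nat_lit 351) (nat_lit 3) (.n (nat_lit 352) (nat_lit 2) (.p (nat_lit 355) (nat_lit 3) (.p (nat_lit 356) (nat_lit 2) (.n (nat_lit 357) (nat_lit 2) (.p (nat_lit 359) (nat_lit 3) (.n (nat_lit 360) (nat_lit 1) (.n (nat_lit 361) (nat_lit 3) (.n (nat_lit 363) (nat_lit 2) (.n (nat_lit 364) (nat_lit 2) (.n (nat_lit 366) (nat_lit 2) (.p (nat_lit 367) (nat_lit 1) (.p (nat_lit 369) (nat_lit 1) (.n (nat_lit 370) (nat_lit 2) (.p (nat_lit 371) (nat_lit 1) (.p (nat_lit 372) (nat_lit 1) (.n (nat_lit 374) (nat_lit 3) (.n (nat_lit 380) (nat_lit 2) (.p (nat_lit 381) (nat_lit 1) (.p (nat_lit 382) (nat_lit 1) (.p (nat_lit 383) (nat_lit 3) .z)))))))))))))))))))))))))))))))))) (.ct dC2c_c308 (nat_lit 1) (nat_lit 10) (.s false (nat_lit 1) (nat_lit 103) (nat_lit 1) (nat_lit 1) (nat_lit 0) true (nat_lit 15) true (nat_lit 18) false (nat_lit 10) true (nat_lit 17) true (nat_lit 17) (.e false (nat_lit 1) (nat_lit 193) (nat_lit 3) (nat_lit 15) (.e true (nat_lit 3) (nat_lit 289) (nat_lit 0) (nat_lit 18) (.e true (nat_lit 2) (nat_lit 290) (nat_lit 0) (nat_lit 18) (.e false (nat_lit 1) (nat_lit 291) (nat_lit 0) (nat_lit 18) (.e true (nat_lit 2) (nat_lit 292) (nat_lit 0) (nat_lit 18) (.e false (nat_lit 3) (nat_lit 293) (nat_lit 0) (nat_lit 18) (.e false (nat_lit 1) (nat_lit 294) (nat_lit 0) (nat_lit 18) (.e false (nat_lit 1) (nat_lit 295) (nat_lit 0) (nat_lit 18) (.e false (nat_lit 2) (nat_lit 296) (nat_lit 0) (nat_lit 18) (.e true (nat_lit 2) (nat_lit 297) (nat_lit 0) (nat_lit 18) (.e false (nat_lit 1) (nat_lit 298) (nat_lit 0) (nat_lit 18) (.e true (nat_lit 1) (nat_lit 299) (nat_lit 0) (nat_lit 18) (.e false (nat_lit 2) (nat_lit 301) (nat_lit 0) (nat_lit 18) (.e true (nat_lit 3) (nat_lit 303) (nat_lit 0) (nat_lit 18) (.e false (nat_lit 3) (nat_lit 304) (nat_lit 0) (nat_lit 18) (.e true (nat_lit 1) (nat_lit 254) (nat_lit 1) (nat_lit 17) (.e true (nat_lit 2) (nat_lit 255) (nat_lit 1) (nat_lit 17) dC2c_i66))))))))))))))))))) .leaf) (nat_lit 105483) (nat_lit 1233) (.p (nat_lit 397) (nat_lit 1) (.p (nat_lit 398) (nat_lit 1) (.n (nat_lit 400) (nat_lit 1) (.n (nat_lit 402) (nat_lit 3) (.p (nat_lit 403) (nat_lit 3) (.p (nat_lit 404) (nat_lit 3) (.p (nat_lit 405) (nat_lit 1) (.p (nat_lit 406) (nat_lit 1) (.p (nat_lit 408) (nat_lit 1) (.p (nat_lit 409) (nat_lit 1) (.p (nat_lit 410) (nat_lit 3) (.p (nat_lit 411) (nat_lit 3) (.n (nat_lit 412) (nat_lit 3) (.n (nat_lit 413) (nat_lit 3) (.n (nat_lit 414) (nat_lit 2) (.p (nat_lit 416) (nat_lit 1) (.p (nat_lit 420) (nat_lit 1) (.p (nat_lit 421) (nat_lit 3) (.n (nat_lit 431) (nat_lit 2) (.p (nat_lit 435) (nat_lit 1) .z)))))))))))))))))))) (.ct dC2c_c293 (nat_lit 1) (nat_lit 7) dC2c_i67) .leaf)) (nat_lit 105484) (nat_lit 1279) (.n (nat_lit 397) (nat_lit 1) (.n (nat_lit 398) (nat_lit 1) (.n (nat_lit 399) (nat_lit 2) (.n (nat_lit 400) (nat_lit 1) (.n (nat_lit 401) (nat_lit 3) (.n (nat_lit 402) (nat_lit 3) (.n (nat_lit 403) (nat_lit 2) (.p (nat_lit 404) (nat_lit 2) (.p (nat_lit 405) (nat_lit 2) (.n (nat_lit 406) (nat_lit 3) (.p (nat_lit 407) (nat_lit 2) (.p (nat_lit 409) (nat_lit 2) (.n (nat_lit 410) (nat_lit 3) (.p (nat_lit 411) (nat_lit 3) (.n (nat_lit 414) (nat_lit 1) (.n (nat_lit 415) (nat_lit 2) (.p (nat_lit 416) (nat_lit 1) (.n (nat_lit 420) (nat_lit 1) (.p (nat_lit 431) (nat_lit 2) (.p (nat_lit 432) (nat_lit 1) .z)))))))))))))))))))) (.ct dC2c_c293 (nat_lit 1) (nat_lit 7) (.s true (nat_lit 1) (nat_lit 103) (nat_lit 0) (nat_lit 2) (nat_lit 1) true (nat_lit 13) true (nat_lit 15) false (nat_lit 7) true (nat_lit 16) true (nat_lit 14) dC2c_i69)) (.nd (.nd (.nd .leaf (nat_lit 105485) (nat_lit 1277) (.n (nat_lit 397) (nat_lit 3) (.p (nat_lit 398) (nat_lit 2) (.p (nat_lit 399) (nat_lit 3) (.p (nat_lit 401) (nat_lit 2) (.n (nat_lit 402) (nat_lit 1) (.n (nat_lit 404) (nat_lit 1) (.n (nat_lit 405) (nat_lit 3) (.n (nat_lit 406) (nat_lit 3) (.p (nat_lit 407) (nat_lit 2) (.n (nat_lit 408) (nat_lit 1) (.n (nat_lit 409) (nat_lit 1) (.n (nat_lit 410) (nat_lit 1) (.n (nat_lit 411) (nat_lit 1) (.n (nat_lit 412) (nat_lit 2) (.n (nat_lit 413) (nat_lit 2) (.p (nat_lit 414) (nat_lit 2) (.n (nat_lit 415) (nat_lit 1) (.p (nat_lit 416) (nat_lit 1) (.n (nat_lit 418) (nat_lit 3) (.n (nat_lit 420) (nat_lit 3) (.p (nat_lit 421) (nat_lit 3) (.p (nat_lit 432) (nat_lit 1) .z)))))))))))))))))))))) (.ct dC2c_c293 (nat_lit 1) (nat_lit 7) (.s false (nat_lit 1) (nat_lit 103) (nat_lit 1) (nat_lit 2) (nat_lit 0) true (nat_lit 13) true (nat_lit 16) false (nat_lit 7) true (nat_lit 15) true (nat_lit 14) (.e false (nat_lit 1) (nat_lit 202) (nat_lit 3) (nat_lit 13) (.e true (nat_lit 1) (nat_lit 324) (nat_lit 0) (nat_lit 16) (.e false (nat_lit 2) (nat_lit 326) (nat_lit 0) (nat_lit 16) (.e true (nat_lit 3) (nat_lit 327) (nat_lit 0) (nat_lit 16) (.e false (nat_lit 2) (nat_lit 328) (nat_lit 0) (nat_lit 16) (.e false (nat_lit 3) (nat_lit 330) (nat_lit 0) (nat_lit 16) (.e true (nat_lit 2) (nat_lit 331) (nat_lit 0) (nat_lit 16) (.e true (nat_lit 1) (nat_lit 305) (nat_lit 1) (nat_lit 15) (.e true (nat_lit 2) (nat_lit 306) (nat_lit 1) (nat_lit 15) (.e true (nat_lit 2) (nat_lit 307) (nat_lit 1) (nat_lit 15) (.e false (nat_lit 1) (nat_lit 308) (nat_lit 1) (nat_lit 15) (.e false (nat_lit 1) (nat_lit 309) (nat_lit 1) (nat_lit 15) (.e false (nat_lit 1) (nat_lit 310) (nat_lit 1) (nat_lit 15) (.e false (nat_lit 2) (nat_lit 311) (nat_lit 1) (nat_lit 15) (.e false (nat_lit 2) (nat_lit 312) (nat_lit 1) (nat_lit 15) (.e true (nat_lit 2) (nat_lit 313) (nat_lit 1) (nat_lit 15) (.e true (nat_lit 1) (nat_lit 314) (nat_lit 1) (nat_lit 15) (.e false (nat_lit 3) (nat_lit 315) (nat_lit 1) (nat_lit 15) (.e false (nat_lit 1) (nat_lit 317) (nat_lit 1) (nat_lit 15) (.e true (nat_lit 1) (nat_lit 318) (nat_lit 1) (nat_lit 15) (.e true (nat_lit 1) (nat_lit 322) (nat_lit 1) (nat_lit 15) (.e true (nat_lit 3) (nat_lit 252) (nat_lit 2) (nat_lit 14) dC2c_i70)))))))))))))))))))))))) .leaf) (nat_lit 105486) (nat_lit 1433) (.n (nat_lit 436) (nat_lit 3) (.p (nat_lit 437) (nat_lit 2) (.n (nat_lit 438) (nat_lit 3) (.n (nat_lit 439) (nat_lit 3) (.p (nat_lit 440) (nat_lit 1) (.p (nat_lit 441) (nat_lit 2) (.n (nat_lit 442) (nat_lit 1) (.n (nat_lit 443) (nat_lit 1) (.n (nat_lit 447) (nat_lit 3) (.p (nat_lit 448) (nat_lit 1) (.n (nat_lit 450) (nat_lit 1) .z))))))))))) (.ct dC2c_c53 (nat_lit 1) (nat_lit 4) (.s false (nat_lit 1) (nat_lit 47) (nat_lit 4) (nat_lit 2) (nat_lit 2) true (nat_lit 4) true (nat_lit 9) false (nat_lit 0) true (nat_lit 8) true (nat_lit 9) (.e false (nat_lit 3) (nat_lit 295) (nat_lit 2) (nat_lit 9) (.e true (nat_lit 1) (nat_lit 297) (nat_lit 2) (nat_lit 9) (.e false (nat_lit 1) (nat_lit 298) (nat_lit 2) (nat_lit 9) (.e true (nat_lit 1) (nat_lit 47) (nat_lit 39) (nat_lit 0) (.e true (nat_lit 1) (nat_lit 204) (nat_lit 4) (nat_lit 8) (.e false (nat_lit 3) (nat_lit 289) (nat_lit 2) (nat_lit 9) (.e true (nat_lit 2) (nat_lit 290) (nat_lit 2) (nat_lit 9) (.e true (nat_lit 1) (nat_lit 291) (nat_lit 2) (nat_lit 9) (.e true (nat_lit 1) (nat_lit 292) (nat_lit 2) (nat_lit 9) (.e true (nat_lit 2) (nat_lit 293) (nat_lit 2) (nat_lit 9) (.e false (nat_lit 2) (nat_lit 303) (nat_lit 2) (nat_lit 9) (.e true (nat_lit 1) (nat_lit 304) (nat_lit 2) (nat_lit 9) (.u (nat_lit 2) (.n (nat_lit 1) (nat_lit 1) (.p (nat_lit 2) (nat_lit 1) (.p (nat_lit 3) (nat_lit 1) (.n (nat_lit 4) (nat_lit 1) (.p (nat_lit 8) (nat_lit 1) (.n (nat_lit 86) (nat_lit 1) .z)))))) .nil))))))))))))))) .leaf) (nat_lit 106496) (nat_lit 347) (.p (nat_lit 172) (nat_lit 1) (.n (nat_lit 174) (nat_lit 1) (.n (nat_lit 175) (nat_lit 2) (.n (nat_lit 176) (nat_lit 1) (.n (nat_lit 177) (nat_lit 1) (.p (nat_lit 178) (nat_lit 2) (.p (nat_lit 179) (nat_lit 3) (.p (nat_lit 180) (nat_lit 1) (.n (nat_lit 182) (nat_lit 1) (.p (nat_lit 184) (nat_lit 1) .z)))))))))) (.ct dC2c_c276 (nat_lit 1) (nat_lit 8) (.s false (nat_lit 1) (nat_lit 18) (nat_lit 0) (nat_lit 2) (nat_lit 2) true (nat_lit 4) true (nat_lit 6) false (nat_lit 0) true (nat_lit 8) true (nat_lit 6) (.e false (nat_lit 1) (nat_lit 45) (nat_lit 5) (nat_lit 4) (.e false (nat_lit 1) (nat_lit 85) (nat_lit 2) (nat_lit 6) (.e false (nat_lit 1) (nat_lit 18) (nat_lit 16) (nat_lit 0) (.e false (nat_lit 1) (nat_lit 87) (nat_lit 2) (nat_lit 6) (.u (nat_lit 2) (.n (nat_lit 3) (nat_lit 1) (.n (nat_lit 9) (nat_lit 1) (.n (nat_lit 10) (nat_lit 1) .z))) .nil))))))) (.nd .leaf (nat_lit 106497) (nat_lit 372) (.n (nat_lit 185) (nat_lit 1) (.p (nat_lit 186) (nat_lit 1) (.p (nat_lit 187) (nat_lit 3) (.n (nat_lit 188) (nat_lit 2) (.n (nat_lit 189) (nat_lit 1) (.n (nat_lit 192) (nat_lit 1) (.p (nat_lit 193) (nat_lit 1) .z))))))) (.ct dC2c_c36 (nat_lit 1) (nat_lit 6) (.s false (nat_lit 1) (nat_lit 18) (nat_lit 1) (nat_lit 2) (nat_lit 2) true (nat_lit 3) true (nat_lit 5) true (nat_lit 0) true (nat_lit 6) true (nat_lit 5) (.e false (nat_lit 1) (nat_lit 45) (nat_lit 6) (nat_lit 3) (.e false (nat_lit 1) (nat_lit 93) (nat_lit 2) (nat_lit 5) (.e true (nat_lit 1) (nat_lit 18) (nat_lit 18) (nat_lit 0) (.e true (nat_lit 1) (nat_lit 94) (nat_lit 2) (nat_lit 5) (.u (nat_lit 2) (.p (nat_lit 3) (nat_lit 1) .z) .nil))))))) .leaf))))))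

noncomputable def dC2c_t2 : Tr := (.nd dC2c_t0 (nat_lit 97282) (nat_lit 359) (.p (nat_lit 189) (nat_lit 1) .z) .df dC2c_t1)

noncomputable def dC2c_t3 : Tr := (.nd (.nd (.nd (.nd (.nd (.nd (.nd .leaf (nat_lit 106499) (nat_lit 616) (.p (nat_lit 252) (nat_lit 2) (.p (nat_lit 253) (nat_lit 2) (.n (nat_lit 254) (nat_lit 3) (.n (nat_lit 255) (nat_lit 2) (.p (nat_lit 257) (nat_lit 2) (.n (nat_lit 258) (nat_lit 2) (.p (nat_lit 265) (nat_lit 2) (.n (nat_lit 266) (nat_lit 3) (.p (nat_lit 269) (nat_lit 3) (.n (nat_lit 272) (nat_lit 3) (.p (nat_lit 274) (nat_lit 3) (.p (nat_lit 277) (nat_lit 2) (.p (nat_lit 278) (nat_lit 1) (.n (nat_lit 285) (nat_lit 1) (.p (nat_lit 287) (nat_lit 1) .z))))))))))))))) (.ct dC2c_c292 (nat_lit 1) (nat_lit 10) (.s false (nat_lit 1) (nat_lit 18) (nat_lit 3) (nat_lit 2) (nat_lit 2) true (nat_lit 4) true (nat_lit 11) true (nat_lit 1) true (nat_lit 10) true (nat_lit 11) (.e false (nat_lit 1) (nat_lit 45) (nat_lit 11) (nat_lit 4) (.e false (nat_lit 1) (nat_lit 133) (nat_lit 2) (nat_lit 11) (.e true (nat_lit 1) (nat_lit 135) (nat_lit 2) (nat_lit 11) (.e false (nat_lit 1) (nat_lit 137) (nat_lit 2) (nat_lit 11) (.e true (nat_lit 1) (nat_lit 138) (nat_lit 2) (nat_lit 11) (.e true (nat_lit 1) (nat_lit 33) (nat_lit 18) (nat_lit 1) (.e false (nat_lit 1) (nat_lit 132) (nat_lit 2) (nat_lit 11) (.e false (nat_lit 1) (nat_lit 145) (nat_lit 2) (nat_lit 11) (.e false (nat_lit 1) (nat_lit 146) (nat_lit 2) (nat_lit 11) (.e true (nat_lit 1) (nat_lit 152) (nat_lit 2) (nat_lit 11) (.e true (nat_lit 1) (nat_lit 154) (nat_lit 2) (nat_lit 11) (.e false (nat_lit 1) (nat_lit 157) (nat_lit 2) (nat_lit 11) (.u (nat_lit 2) (.p (nat_lit 2) (nat_lit 1) (.p (nat_lit 14) (nat_lit 1) (.n (nat_lit 17) (nat_lit 1) (.n (nat_lit 22) (nat_lit 1) .z)))) .nil))))))))))))))) .leaf) (nat_lit 106500) (nat_lit 728) (.p (nat_lit 289) (nat_lit 1) (.p (nat_lit 290) (nat_lit 3) (.p (nat_lit 291) (nat_lit 2) (.p (nat_lit 292) (nat_lit 3) (.n (nat_lit 293) (nat_lit 2) (.n (nat_lit 294) (nat_lit 2) (.n (nat_lit 295) (nat_lit 3) (.p (nat_lit 296) (nat_lit 3) (.p (nat_lit 297) (nat_lit 2) (.n (nat_lit 298) (nat_lit 1) (.p (nat_lit 300) (nat_lit 2) (.n (nat_lit 301) (nat_lit 2) (.p (nat_lit 303) (nat_lit 1) (.n (nat_lit 304) (nat_lit 1) .z)))))))))))))) (.ct dC2c_c52 (nat_lit 1) (nat_lit 6) (.s true (nat_lit 1) (nat_lit 48) (nat_lit 1) (nat_lit 1) (nat_lit 1) true (nat_lit 6) true (nat_lit 8) false (nat_lit 3) true (nat_lit 8) true (nat_lit 8) (.e true (nat_lit 1) (nat_lit 102) (nat_lit 4) (nat_lit 6) (.e false (nat_lit 2) (nat_lit 186) (nat_lit 1) (nat_lit 8) (.e true (nat_lit 2) (nat_lit 187) (nat_lit 1) (nat_lit 8) (.e false (nat_lit 1) (nat_lit 48) (nat_lit 10) (nat_lit 3) (.e false (nat_lit 1) (nat_lit 194) (nat_lit 1) (nat_lit 8) (.u (nat_lit 2) (.n (nat_lit 0) (nat_lit 1) (.p (nat_lit 6) (nat_lit 1) (.p (nat_lit 9) (nat_lit 1) .z))) .nil)))))))) .leaf) (nat_lit 106501) (nat_lit 798) (.p (nat_lit 305) (nat_lit 2) (.p (nat_lit 306) (nat_lit 3) (.n (nat_lit 307) (nat_lit 2) (.n (nat_lit 308) (nat_lit 3) (.n (nat_lit 309) (nat_lit 2) (.n (nat_lit 310) (nat_lit 2) (.n (nat_lit 311) (nat_lit 2) (.p (nat_lit 312) (nat_lit 2) (.n (nat_lit 313) (nat_lit 1) (.p (nat_lit 314) (nat_lit 2) (.p (nat_lit 315) (nat_lit 1) (.p (nat_lit 320) (nat_lit 1) (.p (nat_lit 321) (nat_lit 1) .z))))))))))))) (.ct dC2c_c277 (nat_lit 1) (nat_lit 6) (.s false (nat_lit 1) (nat_lit 18) (nat_lit 5) (nat_lit 2) (nat_lit 2) true (nat_lit 2) true (nat_lit 8) true (nat_lit 1) true (nat_lit 6) true (nat_lit 8) (.e false (nat_lit 1) (nat_lit 45) (nat_lit 16) (nat_lit 2) (.e false (nat_lit 3) (nat_lit 169) (nat_lit 2) (nat_lit 8) (.e true (nat_lit 2) (nat_lit 170) (nat_lit 2) (nat_lit 8) (.e true (nat_lit 3) (nat_lit 172) (nat_lit 2) (nat_lit 8) (.e true (nat_lit 3) (nat_lit 173) (nat_lit 2) (nat_lit 8) (.e false (nat_lit 1) (nat_lit 174) (nat_lit 2) (nat_lit 8) (.e false (nat_lit 2) (nat_lit 175) (nat_lit 2) (nat_lit 8) (.e true (nat_lit 3) (nat_lit 178) (nat_lit 2) (nat_lit 8) (.e true (nat_lit 1) (nat_lit 42) (nat_lit 18) (nat_lit 1) (.e false (nat_lit 1) (nat_lit 171) (nat_lit 2) (nat_lit 8) (.e false (nat_lit 3) (nat_lit 176) (nat_lit 2) (nat_lit 8) (.e false (nat_lit 3) (nat_lit 179) (nat_lit 2) (nat_lit 8) (.e true (nat_lit 1) (nat_lit 184) (nat_lit 2) (nat_lit 8) (.u (nat_lit 2) (.n (nat_lit 0) (nat_lit 1) (.n (nat_lit 1) (nat_lit 1) (.p (nat_lit 2) (nat_lit 1) (.p (nat_lit 3) (nat_lit 1) (.p (nat_lit 4) (nat_lit 1) (.p (nat_lit 5) (nat_lit 1) (.p (nat_lit 8) (nat_lit 1) (.p (nat_lit 63) (nat_lit 1) (.p (nat_lit 69) (nat_lit 1) .z))))))))) .nil)))))))))))))))) (.nd (.nd .leaf (nat_lit 106502) (nat_lit 833) (.n (nat_lit 324) (nat_lit 1) (.n (nat_lit 325) (nat_lit 3) (.n (nat_lit 326) (nat_lit 3) (.p (nat_lit 327) (nat_lit 3) (.n (nat_lit 328) (nat_lit 3) (.n (nat_lit 329) (nat_lit 1) (.n (nat_lit 330) (nat_lit 2) (.p (nat_lit 331) (nat_lit 2) .z)))))))) (.ct dC2c_c37 (nat_lit 1) (nat_lit 4) (.s false (nat_lit 1) (nat_lit 18) (nat_lit 6) (nat_lit 2) (nat_lit 2) true (nat_lit 1) true (nat_lit 6) true (nat_lit 1) true (nat_lit 4) true (nat_lit 6) (.e false (nat_lit 1) (nat_lit 185) (nat_lit 2) (nat_lit 6) (.e true (nat_lit 3) (nat_lit 186) (nat_lit 2) (nat_lit 6) (.e false (nat_lit 2) (nat_lit 188) (nat_lit 2) (nat_lit 6) (.e true (nat_lit 2) (nat_lit 190) (nat_lit 2) (nat_lit 6) (.e true (nat_lit 1) (nat_lit 191) (nat_lit 2) (nat_lit 6) (.e true (nat_lit 1) (nat_lit 192) (nat_lit 2) (nat_lit 6) (.e false (nat_lit 2) (nat_lit 193) (nat_lit 2) (nat_lit 6) (.e false (nat_lit 1) (nat_lit 194) (nat_lit 2) (nat_lit 6) (.u (nat_lit 2) (.p (nat_lit 2) (nat_lit 1) (.n (nat_lit 3) (nat_lit 1) (.p (nat_lit 4) (nat_lit 1) (.p (nat_lit 6) (nat_lit 1) (.n (nat_lit 7) (nat_lit 1) (.p (nat_lit 34) (nat_lit 1) .z)))))) .nil))))))))))) .leaf) (nat_lit 106504) (nat_lit 960) (.p (nat_lit 335) (nat_lit 3) (.n (nat_lit 336) (nat_lit 2) (.p (nat_lit 337) (nat_lit 3) (.p (nat_lit 338) (nat_lit 2) (.n (nat_lit 340) (nat_lit 3) (.p (nat_lit 342) (nat_lit 1) (.n (nat_lit 343) (nat_lit 2) (.p (nat_lit 344) (nat_lit 2) (.n (nat_lit 345) (nat_lit 3) (.p (nat_lit 346) (nat_lit 3) (.p (nat_lit 349) (nat_lit 1) (.n (nat_lit 350) (nat_lit 1) (.p (nat_lit 351) (nat_lit 3) (.p (nat_lit 352) (nat_lit 2) (.n (nat_lit 353) (nat_lit 1) (.n (nat_lit 354) (nat_lit 1) (.n (nat_lit 355) (nat_lit 1) (.n (nat_lit 356) (nat_lit 3) (.p (nat_lit 357) (nat_lit 3) (.p (nat_lit 358) (nat_lit 2) (.n (nat_lit 359) (nat_lit 3) (.p (nat_lit 360) (nat_lit 3) (.n (nat_lit 361) (nat_lit 3) (.n (nat_lit 362) (nat_lit 1) (.p (nat_lit 363) (nat_lit 2) (.p (nat_lit 364) (nat_lit 3) (.n (nat_lit 366) (nat_lit 3) (.p (nat_lit 367) (nat_lit 2) (.n (nat_lit 369) (nat_lit 1) (.n (nat_lit 371) (nat_lit 2) (.n (nat_lit 374) (nat_lit 2) (.n (nat_lit 375) (nat_lit 2) (.n (nat_lit 377) (nat_lit 3) (.n (nat_lit 379) (nat_lit 2) (.p (nat_lit 380) (nat_lit 3) (.p (nat_lit 381) (nat_lit 2) (.n (nat_lit 382) (nat_lit 3) (.n (nat_lit 383) (nat_lit 2) .z)))))))))))))))))))))))))))))))))))))) (.ct dC2c_c308 (nat_lit 1) (nat_lit 10) (.s false (nat_lit 1) (nat_lit 18) (nat_lit 8) (nat_lit 2) (nat_lit 2) true (nat_lit 2) true (nat_lit 16) true (nat_lit 5) true (nat_lit 10) true (nat_lit 16) (.s false (nat_lit 1) (nat_lit 24) (nat_lit 6) (nat_lit 2) (nat_lit 2) true (nat_lit 5) true (nat_lit 16) true (nat_lit 2) true (nat_lit 12) true (nat_lit 16) (.e true (nat_lit 2) (nat_lit 208) (nat_lit 2) (nat_lit 16) (.e true (nat_lit 3) (nat_lit 216) (nat_lit 2) (nat_lit 16) (.e true (nat_lit 2) (nat_lit 231) (nat_lit 2) (nat_lit 16) (.e false (nat_lit 2) (nat_lit 242) (nat_lit 2) (nat_lit 16) (.e false (nat_lit 2) (nat_lit 248) (nat_lit 2) (nat_lit 16) (.e true (nat_lit 1) (nat_lit 251) (nat_lit 2) (nat_lit 16) (.e true (nat_lit 1) (nat_lit 152) (nat_lit 6) (nat_lit 12) (.u (nat_lit 2) (.p (nat_lit 0) (nat_lit 1) (.n (nat_lit 2) (nat_lit 1) (.p (nat_lit 3) (nat_lit 1) (.p (nat_lit 4) (nat_lit 1) (.p (nat_lit 5) (nat_lit 2) (.n (nat_lit 7) (nat_lit 1) (.n (nat_lit 9) (nat_lit 2) (.n (nat_lit 11) (nat_lit 1) (.n (nat_lit 12) (nat_lit 1) (.n (nat_lit 14) (nat_lit 1) (.n (nat_lit 16) (nat_lit 1) (.n (nat_lit 17) (nat_lit 1) (.n (nat_lit 18) (nat_lit 1) (.p (nat_lit 19) (nat_lit 1) (.n (nat_lit 20) (nat_lit 1) (.p (nat_lit 21) (nat_lit 2) (.n (nat_lit 22) (nat_lit 2) (.n (nat_lit 24) (nat_lit 1) (.n (nat_lit 26) (nat_lit 1) (.p (nat_lit 27) (nat_lit 1) (.n (nat_lit 28) (nat_lit 2) (.n (nat_lit 29) (nat_lit 2) (.p (nat_lit 31) (nat_lit 1) (.n (nat_lit 32) (nat_lit 1) (.n (nat_lit 33) (nat_lit 1) (.p (nat_lit 34) (nat_lit 1) (.n (nat_lit 35) (nat_lit 1) (.n (nat_lit 36) (nat_lit 1) (.p (nat_lit 37) (nat_lit 2) (.p (nat_lit 38) (nat_lit 1) (.p (nat_lit 39) (nat_lit 1) (.n (nat_lit 40) (nat_lit 1) (.n (nat_lit 44) (nat_lit 1) (.p (nat_lit 45) (nat_lit 1) (.n (nat_lit 46) (nat_lit 1) (.p (nat_lit 48) (nat_lit 1) (.p (nat_lit 313) (nat_lit 1) .z))))))))))))))))))))))))))))))))))))) .nil))))))))))) .leaf)) (nat_lit 106505) (nat_lit 954) (.p (nat_lit 335) (nat_lit 3) (.p (nat_lit 336) (nat_lit 1) (.p (nat_lit 337) (nat_lit 2) (.n (nat_lit 339) (nat_lit 1) (.p (nat_lit 340) (nat_lit 1) (.p (nat_lit 341) (nat_lit 2) (.p (nat_lit 342) (nat_lit 1) (.p (nat_lit 343) (nat_lit 2) (.p (nat_lit 344) (nat_lit 2) (.p (nat_lit 345) (nat_lit 3) (.p (nat_lit 346) (nat_lit 3) (.n (nat_lit 349) (nat_lit 1) (.p (nat_lit 350) (nat_lit 3) (.n (nat_lit 351) (nat_lit 1) (.n (nat_lit 353) (nat_lit 2) (.n (nat_lit 354) (nat_lit 3) (.p (nat_lit 355) (nat_lit 3) (.n (nat_lit 356) (nat_lit 1) (.p (nat_lit 357) (nat_lit 1) (.n (nat_lit 358) (nat_lit 2) (.n (nat_lit 359) (nat_lit 3) (.p (nat_lit 360) (nat_lit 1) (.p (nat_lit 361) (nat_lit 3) (.p (nat_lit 363) (nat_lit 3) (.n (nat_lit 364) (nat_lit 3) (.p (nat_lit 366) (nat_lit 3) (.n (nat_lit 367) (nat_lit 2) (.n (nat_lit 368) (nat_lit 2) (.p (nat_lit 369) (nat_lit 2) (.n (nat_lit 370) (nat_lit 2) (.n (nat_lit 371) (nat_lit 3) (.n (nat_lit 372) (nat_lit 1) (.p (nat_lit 373) (nat_lit 2) (.p (nat_lit 374) (nat_lit 1) (.p (nat_lit 375) (nat_lit 3) (.p (nat_lit 377) (nat_lit 1) (.p (nat_lit 379) (nat_lit 3) (.n (nat_lit 380) (nat_lit 3) (.n (nat_lit 381) (nat_lit 2) (.p (nat_lit 382) (nat_lit 3) (.p (nat_lit 383) (nat_lit 2) .z))))))))))))))))))))))))))))))))))))))))) (.ct dC2c_c308 (nat_lit 1) (nat_lit 10) (.s false (nat_lit 1) (nat_lit 18) (nat_lit 9) (nat_lit 2) (nat_lit 2) true (nat_lit 2) true (nat_lit 16) true (nat_lit 5) true (nat_lit 10) true (nat_lit 16) (.s false (nat_lit 1) (nat_lit 25) (nat_lit 6) (nat_lit 2) (nat_lit 2) true (nat_lit 5) true (nat_lit 16) true (nat_lit 2) true (nat_lit 12) true (nat_lit 16) (.e true (nat_lit 1) (nat_lit 206) (nat_lit 2) (nat_lit 16) (.e false (nat_lit 2) (nat_lit 208) (nat_lit 2) (nat_lit 16) (.e true (nat_lit 1) (nat_lit 217) (nat_lit 2) (nat_lit 16) (.e false (nat_lit 3) (nat_lit 228) (nat_lit 2) (nat_lit 16) (.e false (nat_lit 2) (nat_lit 205) (nat_lit 2) (nat_lit 16) (.e true (nat_lit 3) (nat_lit 209) (nat_lit 2) (nat_lit 16) (.e false (nat_lit 3) (nat_lit 216) (nat_lit 2) (nat_lit 16) (.e false (nat_lit 1) (nat_lit 227) (nat_lit 2) (nat_lit 16) (.e true (nat_lit 2) (nat_lit 232) (nat_lit 2) (nat_lit 16) (.e false (nat_lit 3) (nat_lit 242) (nat_lit 2) (nat_lit 16) (.e true (nat_lit 3) (nat_lit 243) (nat_lit 2) (nat_lit 16) (.e false (nat_lit 2) (nat_lit 249) (nat_lit 2) (nat_lit 16) (.e true (nat_lit 2) (nat_lit 251) (nat_lit 2) (nat_lit 16) (.e true (nat_lit 1) (nat_lit 153) (nat_lit 6) (nat_lit 12) (.u (nat_lit 2) (.p (nat_lit 0) (nat_lit 1) (.p (nat_lit 1) (nat_lit 1) (.p (nat_lit 2) (nat_lit 1) (.n (nat_lit 3) (nat_lit 4) (.p (nat_lit 5) (nat_lit 2) (.p (nat_lit 6) (nat_lit 4) (.p (nat_lit 7) (nat_lit 2) (.p (nat_lit 8) (nat_lit 4) (.n (nat_lit 9) (nat_lit 4) (.n (nat_lit 10) (nat_lit 4) (.p (nat_lit 11) (nat_lit 2) (.p (nat_lit 12) (nat_lit 1) (.p (nat_lit 14) (nat_lit 1) (.n (nat_lit 15) (nat_lit 2) (.n (nat_lit 16) (nat_lit 3) (.p (nat_lit 17) (nat_lit 3) (.p (nat_lit 18) (nat_lit 1) (.n (nat_lit 19) (nat_lit 1) (.p (nat_lit 20) (nat_lit 1) (.n (nat_lit 21) (nat_lit 2) (.p (nat_lit 22) (nat_lit 2) (.n (nat_lit 23) (nat_lit 3) (.p (nat_lit 24) (nat_lit 1) (.n (nat_lit 25) (nat_lit 2) (.p (nat_lit 26) (nat_lit 1) (.p (nat_lit 27) (nat_lit 1) (.n (nat_lit 28) (nat_lit 1) (.n (nat_lit 29) (nat_lit 1) (.p (nat_lit 31) (nat_lit 1) (.n (nat_lit 32) (nat_lit 1) (.p (nat_lit 34) (nat_lit 2) (.n (nat_lit 35) (nat_lit 1) (.n (nat_lit 36) (nat_lit 2) (.p (nat_lit 37) (nat_lit 2) (.n (nat_lit 39) (nat_lit 2) (.p (nat_lit 40) (nat_lit 1) (.p (nat_lit 44) (nat_lit 1) (.p (nat_lit 45) (nat_lit 1) (.n (nat_lit 48) (nat_lit 2) (.p (nat_lit 55) (nat_lit 2) (.p (nat_lit 314) (nat_lit 1) (.n (nat_lit 325) (nat_lit 1) (.p (nat_lit 340) (nat_lit 1) .z))))))))))))))))))))))))))))))))))))))))))) .nil)))))))))))))))))) (.nd (.nd (.nd .leaf (nat_lit 106507) (nat_lit 1237) (.p (nat_lit 397) (nat_lit 2) (.n (nat_lit 398) (nat_lit 2) (.p (nat_lit 399) (nat_lit 2) (.n (nat_lit 400) (nat_lit 3) (.p (nat_lit 401) (nat_lit 1) (.p (nat_lit 403) (nat_lit 1) (.p (nat_lit 404) (nat_lit 1) (.n (nat_lit 405) (nat_lit 2) (.n (nat_lit 406) (nat_lit 1) (.p (nat_lit 407) (nat_lit 2) (.n (nat_lit 409) (nat_lit 1) (.p (nat_lit 410) (nat_lit 1) (.p (nat_lit 411) (nat_lit 1) (.p (nat_lit 414) (nat_lit 2) (.p (nat_lit 415) (nat_lit 2) (.n (nat_lit 416) (nat_lit 1) (.n (nat_lit 418) (nat_lit 2) (.n (nat_lit 420) (nat_lit 2) (.n (nat_lit 422) (nat_lit 2) (.n (nat_lit 427) (nat_lit 3) (.n (nat_lit 431) (nat_lit 3) (.p (nat_lit 435) (nat_lit 2) .z)))))))))))))))))))))) (.ct dC2c_c293 (nat_lit 1) (nat_lit 7) (.s true (nat_lit 1) (nat_lit 20) (nat_lit 2) (nat_lit 1) (nat_lit 11) true (nat_lit 1) true (nat_lit 7) true (nat_lit 3) true (nat_lit 14) true (nat_lit 15) (.e false (nat_lit 1) (nat_lit 47) (nat_lit 33) (nat_lit 1) (.e true (nat_lit 1) (nat_lit 102) (nat_lit 11) (nat_lit 7) (.e false (nat_lit 1) (nat_lit 73) (nat_lit 20) (nat_lit 3) (.e true (nat_lit 1) (nat_lit 274) (nat_lit 2) (nat_lit 14) (.e false (nat_lit 1) (nat_lit 285) (nat_lit 2) (nat_lit 14) (.u (nat_lit 2) (.p (nat_lit 1) (nat_lit 1) (.p (nat_lit 3) (nat_lit 1) (.n (nat_lit 5) (nat_lit 1) (.n (nat_lit 8) (nat_lit 1) (.p (nat_lit 9) (nat_lit 1) (.p (nat_lit 12) (nat_lit 1) (.n (nat_lit 17) (nat_lit 1) (.p (nat_lit 23) (nat_lit 1) .z)))))))) .nil)))))))) .leaf) (nat_lit 106508) (nat_lit 1270) (.n (nat_lit 397) (nat_lit 2) (.n (nat_lit 398) (nat_lit 1) (.n (nat_lit 399) (nat_lit 1) (.n (nat_lit 400) (nat_lit 3) (.n (nat_lit 401) (nat_lit 3) (.n (nat_lit 402) (nat_lit 3) (.n (nat_lit 404) (nat_lit 1) (.n (nat_lit 405) (nat_lit 3) (.n (nat_lit 406) (nat_lit 3) (.p (nat_lit 407) (nat_lit 3) (.p (nat_lit 408) (nat_lit 1) (.p (nat_lit 410) (nat_lit 3) (.n (nat_lit 411) (nat_lit 3) (.p (nat_lit 412) (nat_lit 2) (.p (nat_lit 413) (nat_lit 2) (.p (nat_lit 414) (nat_lit 1) (.n (nat_lit 415) (nat_lit 1) (.p (nat_lit 416) (nat_lit 2) (.p (nat_lit 418) (nat_lit 2) (.p (nat_lit 420) (nat_lit 3) (.n (nat_lit 421) (nat_lit 2) (.n (nat_lit 423) (nat_lit 2) (.n (nat_lit 428) (nat_lit 3) (.p (nat_lit 431) (nat_lit 1) (.p (nat_lit 432) (nat_lit 2) (.p (nat_lit 435) (nat_lit 3) .z)))))))))))))))))))))))))) (.ct dC2c_c293 (nat_lit 1) (nat_lit 7) (.s false (nat_lit 1) (nat_lit 18) (nat_lit 12) (nat_lit 2) (nat_lit 2) true (nat_lit 1) true (nat_lit 14) true (nat_lit 4) true (nat_lit 7) true (nat_lit 14) dC2c_i71)) .leaf) (nat_lit 106509) (nat_lit 1324) (.n (nat_lit 398) (nat_lit 2) (.n (nat_lit 400) (nat_lit 3) (.p (nat_lit 401) (nat_lit 3) (.p (nat_lit 402) (nat_lit 1) (.n (nat_lit 403) (nat_lit 2) (.p (nat_lit 404) (nat_lit 2) (.p (nat_lit 405) (nat_lit 2) (.n (nat_lit 406) (nat_lit 3) (.p (nat_lit 407) (nat_lit 2) (.p (nat_lit 408) (nat_lit 1) (.p (nat_lit 409) (nat_lit 3) (.p (nat_lit 410) (nat_lit 3) (.p (nat_lit 411) (nat_lit 2) (.n (nat_lit 414) (nat_lit 3) (.n (nat_lit 415) (nat_lit 1) (.n (nat_lit 416) (nat_lit 3) (.n (nat_lit 418) (nat_lit 2) (.p (nat_lit 420) (nat_lit 1) (.n (nat_lit 421) (nat_lit 2) (.n (nat_lit 422) (nat_lit 2) (.n (nat_lit 423) (nat_lit 2) (.n (nat_lit 427) (nat_lit 3) (.n (nat_lit 428) (nat_lit 3) (.p (nat_lit 431) (nat_lit 1) (.p (nat_lit 432) (nat_lit 2) .z))))))))))))))))))))))))) (.ct dC2c_c293 (nat_lit 1) (nat_lit 7) (.s true (nat_lit 1) (nat_lit 20) (nat_lit 13) (nat_lit 2) (nat_lit 1) true (nat_lit 2) true (nat_lit 15) true (nat_lit 3) true (nat_lit 7) true (nat_lit 14) (.e false (nat_lit 1) (nat_lit 48) (nat_lit 28) (nat_lit 2) (.e true (nat_lit 1) (nat_lit 315) (nat_lit 1) (nat_lit 15) (.e false (nat_lit 1) (nat_lit 318) (nat_lit 1) (nat_lit 15) (.e true (nat_lit 1) (nat_lit 68) (nat_lit 20) (nat_lit 3) dC2c_i72)))))) (.nd (.nd .leaf (nat_lit 106510) (nat_lit 1417) (.n (nat_lit 436) (nat_lit 1) (.p (nat_lit 437) (nat_lit 1) (.n (nat_lit 438) (nat_lit 2) (.p (nat_lit 439) (nat_lit 1) (.p (nat_lit 440) (nat_lit 2) (.n (nat_lit 441) (nat_lit 1) (.p (nat_lit 443) (nat_lit 3) (.n (nat_lit 447) (nat_lit 1) (.p (nat_lit 448) (nat_lit 1) (.p (nat_lit 450) (nat_lit 3) .z)))))))))) (.ct dC2c_c53 (nat_lit 1) (nat_lit 4) (.s false (nat_lit 1) (nat_lit 18) (nat_lit 14) (nat_lit 2) (nat_lit 2) true (nat_lit 0) true (nat_lit 9) true (nat_lit 3) true (nat_lit 4) true (nat_lit 9) (.s true (nat_lit 1) (nat_lit 39) (nat_lit 6) (nat_lit 2) (nat_lit 2) true (nat_lit 3) true (nat_lit 9) true (nat_lit 0) true (nat_lit 7) true (nat_lit 9) (.e false (nat_lit 2) (nat_lit 289) (nat_lit 2) (nat_lit 9) (.e true (nat_lit 3) (nat_lit 291) (nat_lit 2) (nat_lit 9) (.e true (nat_lit 2) (nat_lit 292) (nat_lit 2) (nat_lit 9) (.e false (nat_lit 3) (nat_lit 293) (nat_lit 2) (nat_lit 9) (.e true (nat_lit 3) (nat_lit 294) (nat_lit 2) (nat_lit 9) (.e true (nat_lit 3) (nat_lit 295) (nat_lit 2) (nat_lit 9) (.e true (nat_lit 2) (nat_lit 290) (nat_lit 2) (nat_lit 9) (.e false (nat_lit 2) (nat_lit 298) (nat_lit 2) (nat_lit 9) (.e false (nat_lit 2) (nat_lit 303) (nat_lit 2) (nat_lit 9) (.e false (nat_lit 3) (nat_lit 304) (nat_lit 2) (nat_lit 9) (.e false (nat_lit 3) (nat_lit 296) (nat_lit 2) (nat_lit 9) (.e false (nat_lit 2) (nat_lit 299) (nat_lit 2) (nat_lit 9) (.e true (nat_lit 3) (nat_lit 300) (nat_lit 2) (nat_lit 9) (.e false (nat_lit 3) (nat_lit 301) (nat_lit 2) (nat_lit 9) (.e false (nat_lit 1) (nat_lit 194) (nat_lit 6) (nat_lit 7) (.u (nat_lit 2) (.p (nat_lit 0) (nat_lit 1) (.p (nat_lit 1) (nat_lit 3) (.n (nat_lit 2) (nat_lit 2) (.n (nat_lit 3) (nat_lit 2) (.p (nat_lit 4) (nat_lit 1) (.p (nat_lit 5) (nat_lit 1) (.n (nat_lit 7) (nat_lit 1) (.p (nat_lit 8) (nat_lit 1) (.n (nat_lit 9) (nat_lit 2) (.n (nat_lit 80) (nat_lit 1) (.p (nat_lit 81) (nat_lit 1) (.p (nat_lit 82) (nat_lit 1) (.p (nat_lit 91) (nat_lit 1) (.n (nat_lit 92) (nat_lit 1) (.n (nat_lit 94) (nat_lit 1) .z))))))))))))))) .nil))))))))))))))))))) .leaf) (nat_lit 106511) (nat_lit 1429) (.n (nat_lit 436) (nat_lit 1) (.p (nat_lit 438) (nat_lit 2) (.n (nat_lit 439) (nat_lit 3) (.p (nat_lit 440) (nat_lit 1) (.p (nat_lit 442) (nat_lit 1) (.n (nat_lit 443) (nat_lit 1) (.n (nat_lit 444) (nat_lit 2) (.n (nat_lit 447) (nat_lit 3) (.p (nat_lit 448) (nat_lit 3) (.p (nat_lit 450) (nat_lit 3) .z)))))))))) (.ct dC2c_c53 (nat_lit 1) (nat_lit 4) (.s false (nat_lit 3) (nat_lit 19) (nat_lit 2) (nat_lit 2) (nat_lit 14) true (nat_lit 0) true (nat_lit 4) true (nat_lit 3) true (nat_lit 9) true (nat_lit 9) dC2c_i73)) .leaf))) (nat_lit 107520) (nat_lit 380) (.p (nat_lit 198) (nat_lit 1) .z) .df (.nd (.nd (.nd (.nd .leaf (nat_lit 107521) (nat_lit 391) (.p (nat_lit 203) (nat_lit 1) .z) .df .leaf) (nat_lit 107523) (nat_lit 784) (.p (nat_lit 305) (nat_lit 3) (.p (nat_lit 306) (nat_lit 2) (.n (nat_lit 307) (nat_lit 2) (.p (nat_lit 308) (nat_lit 1) (.n (nat_lit 309) (nat_lit 2) (.p (nat_lit 310) (nat_lit 3) (.p (nat_lit 311) (nat_lit 1) (.p (nat_lit 312) (nat_lit 1) (.n (nat_lit 313) (nat_lit 1) (.p (nat_lit 314) (nat_lit 2) (.p (nat_lit 315) (nat_lit 3) (.n (nat_lit 318) (nat_lit 1) (.p (nat_lit 321) (nat_lit 1) (.n (nat_lit 322) (nat_lit 1) .z)))))))))))))) (.ct dC2c_c277 (nat_lit 1) (nat_lit 7) (.s false (nat_lit 1) (nat_lit 20) (nat_lit 2) (nat_lit 3) (nat_lit 2) true (nat_lit 4) true (nat_lit 8) true (nat_lit 0) true (nat_lit 8) true (nat_lit 7) (.e false (nat_lit 1) (nat_lit 81) (nat_lit 7) (nat_lit 4) (.e true (nat_lit 1) (nat_lit 82) (nat_lit 7) (nat_lit 4) (.e true (nat_lit 1) (nat_lit 83) (nat_lit 7) (nat_lit 4) (.e true (nat_lit 1) (nat_lit 85) (nat_lit 7) (nat_lit 4) (.e false (nat_lit 1) (nat_lit 88) (nat_lit 7) (nat_lit 4) (.e false (nat_lit 1) (nat_lit 170) (nat_lit 2) (nat_lit 8) (.e true (nat_lit 1) (nat_lit 171) (nat_lit 2) (nat_lit 8) (.e true (nat_lit 1) (nat_lit 172) (nat_lit 2) (nat_lit 8) (.e true (nat_lit 1) (nat_lit 174) (nat_lit 2) (nat_lit 8) (.e false (nat_lit 2) (nat_lit 181) (nat_lit 2) (nat_lit 8) (.e true (nat_lit 1) (nat_lit 33) (nat_lit 20) (nat_lit 0) (.e true (nat_lit 1) (nat_lit 177) (nat_lit 2) (nat_lit 8) (.u (nat_lit 2) (.n (nat_lit 2) (nat_lit 1) (.n (nat_lit 3) (nat_lit 1) (.p (nat_lit 8) (nat_lit 1) (.n (nat_lit 9) (nat_lit 1) .z)))) .nil))))))))))))))) .leaf) (nat_lit 107524) (nat_lit 845) (.n (nat_lit 324) (nat_lit 3) (.p (nat_lit 325) (nat_lit 3) (.p (nat_lit 326) (nat_lit 2) (.n (nat_lit 329) (nat_lit 1) (.p (nat_lit 330) (nat_lit 1) (.n (nat_lit 331) (nat_lit 3) (.p (nat_lit 334) (nat_lit 1) .z))))))) (.ct dC2c_c37 (nat_lit 1) (nat_lit 5) (.s true (nat_lit 1) (nat_lit 48) (nat_lit 1) (nat_lit 2) (nat_lit 1) true (nat_lit 5) true (nat_lit 7) false (nat_lit 2) true (nat_lit 7) true (nat_lit 6) (.e false (nat_lit 1) (nat_lit 48) (nat_lit 15) (nat_lit 2) (.e true (nat_lit 1) (nat_lit 203) (nat_lit 1) (nat_lit 7) (.e false (nat_lit 1) (nat_lit 204) (nat_lit 1) (nat_lit 7) (.e true (nat_lit 1) (nat_lit 185) (nat_lit 2) (nat_lit 6) (.e false (nat_lit 1) (nat_lit 186) (nat_lit 2) (nat_lit 6) (.e false (nat_lit 3) (nat_lit 187) (nat_lit 2) (nat_lit 6) (.e true (nat_lit 2) (nat_lit 188) (nat_lit 2) (nat_lit 6) (.e true (nat_lit 1) (nat_lit 189) (nat_lit 2) (nat_lit 6) (.e false (nat_lit 1) (nat_lit 193) (nat_lit 2) (nat_lit 6) (.u (nat_lit 2) (.n (nat_lit 3) (nat_lit 1) (.p (nat_lit 4) (nat_lit 1) .z)) .nil)))))))))))) (.nd (.nd .leaf (nat_lit 107528) (nat_lit 1243) (.n (nat_lit 398) (nat_lit 3) (.p (nat_lit 399) (nat_lit 3) (.n (nat_lit 400) (nat_lit 1) (.p (nat_lit 401) (nat_lit 3) (.p (nat_lit 402) (nat_lit 2) (.n (nat_lit 403) (nat_lit 3) (.p (nat_lit 404) (nat_lit 2) (.n (nat_lit 406) (nat_lit 2) (.n (nat_lit 407) (nat_lit 3) (.n (nat_lit 408) (nat_lit 3) (.p (nat_lit 409) (nat_lit 3) (.p (nat_lit 410) (nat_lit 2) (.p (nat_lit 411) (nat_lit 2) (.n (nat_lit 412) (nat_lit 2) (.n (nat_lit 413) (nat_lit 2) (.n (nat_lit 414) (nat_lit 1) (.n (nat_lit 415) (nat_lit 3) (.n (nat_lit 420) (nat_lit 3) (.n (nat_lit 421) (nat_lit 1) (.n (nat_lit 431) (nat_lit 3) (.p (nat_lit 435) (nat_lit 1) .z))))))))))))))))))))) (.ct dC2c_c293 (nat_lit 1) (nat_lit 8) (.s true (nat_lit 1) (nat_lit 20) (nat_lit 2) (nat_lit 2) (nat_lit 8) true (nat_lit 2) true (nat_lit 8) true (nat_lit 3) true (nat_lit 14) true (nat_lit 14) (.e false (nat_lit 1) (nat_lit 48) (nat_lit 24) (nat_lit 2) (.e false (nat_lit 1) (nat_lit 72) (nat_lit 20) (nat_lit 3) (.e true (nat_lit 2) (nat_lit 272) (nat_lit 2) (nat_lit 14) (.e false (nat_lit 1) (nat_lit 283) (nat_lit 2) (nat_lit 14) (.e false (nat_lit 1) (nat_lit 264) (nat_lit 2) (nat_lit 14) (.u (nat_lit 2) (.p (nat_lit 1) (nat_lit 1) (.p (nat_lit 6) (nat_lit 1) (.p (nat_lit 11) (nat_lit 1) (.p (nat_lit 23) (nat_lit 1) .z)))) .nil)))))))) .leaf) (nat_lit 107529) (nat_lit 1274) (.p (nat_lit 397) (nat_lit 3) (.n (nat_lit 400) (nat_lit 2) (.n (nat_lit 401) (nat_lit 1) (.p (nat_lit 402) (nat_lit 2) (.n (nat_lit 406) (nat_lit 1) (.n (nat_lit 407) (nat_lit 3) (.p (nat_lit 408) (nat_lit 3) (.n (nat_lit 409) (nat_lit 1) (.p (nat_lit 410) (nat_lit 2) (.p (nat_lit 411) (nat_lit 1) (.p (nat_lit 412) (nat_lit 2) (.p (nat_lit 413) (nat_lit 2) (.p (nat_lit 414) (nat_lit 1) (.n (nat_lit 415) (nat_lit 1) (.p (nat_lit 416) (nat_lit 1) (.n (nat_lit 418) (nat_lit 1) (.p (nat_lit 420) (nat_lit 3) (.p (nat_lit 421) (nat_lit 1) (.p (nat_lit 431) (nat_lit 3) (.n (nat_lit 435) (nat_lit 1) .z)))))))))))))))))))) (.ct dC2c_c293 (nat_lit 1) (nat_lit 8) (.s false (nat_lit 1) (nat_lit 105) (nat_lit 1) (nat_lit 1) (nat_lit 0) true (nat_lit 13) true (nat_lit 16) false (nat_lit 8) true (nat_lit 15) true (nat_lit 15) (.e false (nat_lit 1) (nat_lit 203) (nat_lit 3) (nat_lit 13) (.e true (nat_lit 3) (nat_lit 325) (nat_lit 0) (nat_lit 16) (.e false (nat_lit 2) (nat_lit 326) (nat_lit 0) (nat_lit 16) (.e false (nat_lit 3) (nat_lit 327) (nat_lit 0) (nat_lit 16) (.e true (nat_lit 3) (nat_lit 328) (nat_lit 0) (nat_lit 16) (.e true (nat_lit 1) (nat_lit 329) (nat_lit 0) (nat_lit 16) (.e true (nat_lit 2) (nat_lit 330) (nat_lit 0) (nat_lit 16) (.e false (nat_lit 3) (nat_lit 331) (nat_lit 0) (nat_lit 16) (.e false (nat_lit 1) (nat_lit 333) (nat_lit 0) (nat_lit 16) (.e false (nat_lit 1) (nat_lit 305) (nat_lit 1) (nat_lit 15) (.e true (nat_lit 3) (nat_lit 306) (nat_lit 1) (nat_lit 15) (.e true (nat_lit 1) (nat_lit 307) (nat_lit 1) (nat_lit 15) (.e false (nat_lit 3) (nat_lit 308) (nat_lit 1) (nat_lit 15) (.e true (nat_lit 3) (nat_lit 310) (nat_lit 1) (nat_lit 15) (.e true (nat_lit 1) (nat_lit 311) (nat_lit 1) (nat_lit 15) (.e true (nat_lit 1) (nat_lit 312) (nat_lit 1) (nat_lit 15) (.e false (nat_lit 2) (nat_lit 313) (nat_lit 1) (nat_lit 15) (.e true (nat_lit 1) (nat_lit 322) (nat_lit 1) (nat_lit 15) (.u (nat_lit 2) (.n (nat_lit 0) (nat_lit 1) (.p (nat_lit 2) (nat_lit 1) (.p (nat_lit 3) (nat_lit 1) (.n (nat_lit 6) (nat_lit 1) (.n (nat_lit 8) (nat_lit 1) (.n (nat_lit 11) (nat_lit 1) (.p (nat_lit 12) (nat_lit 1) (.n (nat_lit 14) (nat_lit 1) (.n (nat_lit 15) (nat_lit 1) (.n (nat_lit 16) (nat_lit 1) (.p (nat_lit 242) (nat_lit 1) (.p (nat_lit 246) (nat_lit 1) .z)))))))))))) .nil))))))))))))))))))))) .leaf)) (nat_lit 108546) (nat_lit 399) (.p (nat_lit 205) (nat_lit 1) .z) .df (.nd (.nd (.nd .leaf (nat_lit 108551) (nat_lit 1023) (.p (nat_lit 336) (nat_lit 3) (.n (nat_lit 337) (nat_lit 1) (.n (nat_lit 338) (nat_lit 2) (.p (nat_lit 339) (nat_lit 3) (.p (nat_lit 340) (nat_lit 2) (.p (nat_lit 341) (nat_lit 1) (.n (nat_lit 342) (nat_lit 1) (.n (nat_lit 343) (nat_lit 3) (.p (nat_lit 344) (nat_lit 3) (.p (nat_lit 345) (nat_lit 1) (.p (nat_lit 346) (nat_lit 3) (.p (nat_lit 347) (nat_lit 1) (.p (nat_lit 349) (nat_lit 1) (.n (nat_lit 350) (nat_lit 2) (.p (nat_lit 351) (nat_lit 1) (.n (nat_lit 352) (nat_lit 2) (.p (nat_lit 353) (nat_lit 2) (.n (nat_lit 354) (nat_lit 2) (.p (nat_lit 355) (nat_lit 3) (.p (nat_lit 358) (nat_lit 2) (.p (nat_lit 360) (nat_lit 2) (.p (nat_lit 361) (nat_lit 1) (.p (nat_lit 362) (nat_lit 2) (.n (nat_lit 369) (nat_lit 3) (.p (nat_lit 371) (nat_lit 1) (.p (nat_lit 372) (nat_lit 1) (.n (nat_lit 380) (nat_lit 1) (.n (nat_lit 381) (nat_lit 2) (.n (nat_lit 382) (nat_lit 2) (.p (nat_lit 383) (nat_lit 1) .z)))))))))))))))))))))))))))))) (.ct dC2c_c308 (nat_lit 1) (nat_lit 11) (.s false (nat_lit 3) (nat_lit 8) (nat_lit 7) (nat_lit 7) (nat_lit 1) true (nat_lit 5) true (nat_lit 17) true (nat_lit 10) true (nat_lit 11) true (nat_lit 11) (.e true (nat_lit 3) (nat_lit 72) (nat_lit 19) (nat_lit 5) (.e true (nat_lit 1) (nat_lit 272) (nat_lit 1) (nat_lit 17) (.e false (nat_lit 1) (nat_lit 109) (nat_lit 7) (nat_lit 11) (.e true (nat_lit 1) (nat_lit 116) (nat_lit 7) (nat_lit 11) (.e true (nat_lit 3) (nat_lit 126) (nat_lit 7) (nat_lit 11) (.e false (nat_lit 1) (nat_lit 128) (nat_lit 7) (nat_lit 11) (.u (nat_lit 2) (.n (nat_lit 0) (nat_lit 3) (.p (nat_lit 1) (nat_lit 1) (.p (nat_lit 2) (nat_lit 1) (.n (nat_lit 6) (nat_lit 3) (.n (nat_lit 8) (nat_lit 1) (.p (nat_lit 10) (nat_lit 2) (.p (nat_lit 15) (nat_lit 1) (.n (nat_lit 16) (nat_lit 1) (.n (nat_lit 18) (nat_lit 2) (.p (nat_lit 19) (nat_lit 2) (.p (nat_lit 20) (nat_lit 1) (.n (nat_lit 21) (nat_lit 3) (.p (nat_lit 22) (nat_lit 3) (.p (nat_lit 24) (nat_lit 1) (.n (nat_lit 25) (nat_lit 1) (.p (nat_lit 26) (nat_lit 1) (.p (nat_lit 27) (nat_lit 2) (.n (nat_lit 28) (nat_lit 3) (.p (nat_lit 29) (nat_lit 2) (.p (nat_lit 32) (nat_lit 1) (.p (nat_lit 33) (nat_lit 1) (.n (nat_lit 34) (nat_lit 1) (.n (nat_lit 37) (nat_lit 1) (.n (nat_lit 38) (nat_lit 1) (.p (nat_lit 39) (nat_lit 1) (.n (nat_lit 46) (nat_lit 1) (.n (nat_lit 48) (nat_lit 2) (.p (nat_lit 213) (nat_lit 1) (.n (nat_lit 216) (nat_lit 1) (.p (nat_lit 223) (nat_lit 1) (.n (nat_lit 235) (nat_lit 1) (.p (nat_lit 369) (nat_lit 1) .z)))))))))))))))))))))))))))))))) .nil))))))))) .leaf) (nat_lit 109570) (nat_lit 400) (.p (nat_lit 206) (nat_lit 1) .z) .df .leaf) (nat_lit 109575) (nat_lit 1045) (.n (nat_lit 335) (nat_lit 2) (.p (nat_lit 336) (nat_lit 1) (.p (nat_lit 337) (nat_lit 2) (.p (nat_lit 338) (nat_lit 1) (.p (nat_lit 339) (nat_lit 2) (.n (nat_lit 340) (nat_lit 2) (.n (nat_lit 341) (nat_lit 3) (.n (nat_lit 342) (nat_lit 1) (.p (nat_lit 343) (nat_lit 3) (.n (nat_lit 344) (nat_lit 1) (.p (nat_lit 345) (nat_lit 2) (.p (nat_lit 346) (nat_lit 1) (.n (nat_lit 347) (nat_lit 3) (.p (nat_lit 349) (nat_lit 1) (.p (nat_lit 350) (nat_lit 1) (.p (nat_lit 351) (nat_lit 1) (.p (nat_lit 352) (nat_lit 2) (.n (nat_lit 353) (nat_lit 1) (.p (nat_lit 354) (nat_lit 1) (.n (nat_lit 355) (nat_lit 2) (.n (nat_lit 356) (nat_lit 3) (.p (nat_lit 357) (nat_lit 3) (.n (nat_lit 358) (nat_lit 1) (.n (nat_lit 359) (nat_lit 1) (.p (nat_lit 360) (nat_lit 3) (.p (nat_lit 361) (nat_lit 1) (.p (nat_lit 363) (nat_lit 3) (.p (nat_lit 366) (nat_lit 2) (.p (nat_lit 368) (nat_lit 1) (.n (nat_lit 369) (nat_lit 1) (.p (nat_lit 370) (nat_lit 1) (.n (nat_lit 372) (nat_lit 1) (.n (nat_lit 373) (nat_lit 1) (.p (nat_lit 380) (nat_lit 2) (.p (nat_lit 381) (nat_lit 1) (.p (nat_lit 382) (nat_lit 3) (.p (nat_lit 383) (nat_lit 2) .z))))))))))))))))))))))))))))))))))))) (.ct dC2c_c308 (nat_lit 1) (nat_lit 11) (.s true (nat_lit 1) (nat_lit 22) (nat_lit 2) (nat_lit 2) (nat_lit 7) true (nat_lit 4) true (nat_lit 11) true (nat_lit 3) true (nat_lit 16) true (nat_lit 16) (.e false (nat_lit 1) (nat_lit 50) (nat_lit 20) (nat_lit 4) (.e false (nat_lit 1) (nat_lit 246) (nat_lit 2) (nat_lit 16) (.u (nat_lit 2) (.p (nat_lit 6) (nat_lit 1) (.p (nat_lit 12) (nat_lit 1) (.n (nat_lit 15) (nat_lit 1) (.n (nat_lit 17) (nat_lit 1) (.n (nat_lit 28) (nat_lit 1) (.n (nat_lit 47) (nat_lit 1) (.n (nat_lit 48) (nat_lit 1) .z))))))) .nil))))) (.nd .leaf (nat_lit 110594) (nat_lit 401) (.p (nat_lit 207) (nat_lit 1) .z) .df .leaf)))) (nat_lit 110599) (nat_lit 1051) (.n (nat_lit 335) (nat_lit 3) (.n (nat_lit 336) (nat_lit 1) (.n (nat_lit 337) (nat_lit 2) (.n (nat_lit 338) (nat_lit 2) (.p (nat_lit 339) (nat_lit 3) (.n (nat_lit 340) (nat_lit 3) (.n (nat_lit 341) (nat_lit 1) (.n (nat_lit 343) (nat_lit 2) (.n (nat_lit 345) (nat_lit 2) (.p (nat_lit 346) (nat_lit 2) (.n (nat_lit 347) (nat_lit 1) (.n (nat_lit 350) (nat_lit 2) (.n (nat_lit 351) (nat_lit 2) (.n (nat_lit 352) (nat_lit 3) (.n (nat_lit 353) (nat_lit 1) (.p (nat_lit 354) (nat_lit 1) (.n (nat_lit 355) (nat_lit 3) (.n (nat_lit 356) (nat_lit 2) (.p (nat_lit 357) (nat_lit 2) (.n (nat_lit 358) (nat_lit 3) (.n (nat_lit 359) (nat_lit 3) (.p (nat_lit 360) (nat_lit 2) (.p (nat_lit 361) (nat_lit 3) (.p (nat_lit 362) (nat_lit 3) (.p (nat_lit 363) (nat_lit 3) (.n (nat_lit 364) (nat_lit 1) (.n (nat_lit 366) (nat_lit 2) (.n (nat_lit 367) (nat_lit 3) (.p (nat_lit 368) (nat_lit 3) (.p (nat_lit 369) (nat_lit 1) (.n (nat_lit 370) (nat_lit 3) (.n (nat_lit 371) (nat_lit 3) (.n (nat_lit 372) (nat_lit 2) (.n (nat_lit 373) (nat_lit 3) (.p (nat_lit 374) (nat_lit 3) (.p (nat_lit 380) (nat_lit 1) (.p (nat_lit 381) (nat_lit 3) .z))))))))))))))))))))))))))))))))))))) (.ct dC2c_c308 (nat_lit 1) (nat_lit 11) (.s true (nat_lit 1) (nat_lit 26) (nat_lit 7) (nat_lit 2) (nat_lit 1) true (nat_lit 5) true (nat_lit 17) true (nat_lit 2) true (nat_lit 11) true (nat_lit 16) (.e false (nat_lit 1) (nat_lit 62) (nat_lit 19) (nat_lit 5) (.e true (nat_lit 1) (nat_lit 274) (nat_lit 1) (nat_lit 17) dC2c_i74)))) (.nd (.nd (.nd (.nd (.nd .leaf (nat_lit 111618) (nat_lit 402) (.p (nat_lit 208) (nat_lit 1) .z) .df .leaf) (nat_lit 111623) (nat_lit 1021) (.p (nat_lit 335) (nat_lit 2) (.p (nat_lit 336) (nat_lit 3) (.n (nat_lit 337) (nat_lit 1) (.n (nat_lit 338) (nat_lit 2) (.p (nat_lit 339) (nat_lit 3) (.p (nat_lit 340) (nat_lit 2) (.n (nat_lit 341) (nat_lit 3) (.n (nat_lit 342) (nat_lit 2) (.n (nat_lit 343) (nat_lit 2) (.p (nat_lit 344) (nat_lit 3) (.n (nat_lit 345) (nat_lit 1) (.p (nat_lit 347) (nat_lit 2) (.p (nat_lit 349) (nat_lit 2) (.p (nat_lit 350) (nat_lit 3) (.p (nat_lit 351) (nat_lit 1) (.n (nat_lit 352) (nat_lit 3) (.n (nat_lit 353) (nat_lit 3) (.n (nat_lit 354) (nat_lit 3) (.n (nat_lit 356) (nat_lit 2) (.p (nat_lit 357) (nat_lit 2) (.n (nat_lit 358) (nat_lit 1) (.p (nat_lit 359) (nat_lit 1) (.n (nat_lit 360) (nat_lit 2) (.n (nat_lit 361) (nat_lit 2) (.n (nat_lit 362) (nat_lit 1) (.p (nat_lit 363) (nat_lit 1) (.n (nat_lit 364) (nat_lit 3) (.p (nat_lit 366) (nat_lit 3) (.n (nat_lit 367) (nat_lit 2) (.p (nat_lit 368) (nat_lit 3) (.n (nat_lit 369) (nat_lit 3) (.p (nat_lit 370) (nat_lit 3) (.n (nat_lit 371) (nat_lit 2) (.p (nat_lit 372) (nat_lit 1) (.n (nat_lit 373) (nat_lit 3) (.n (nat_lit 380) (nat_lit 1) (.n (nat_lit 381) (nat_lit 3) (.n (nat_lit 382) (nat_lit 2) (.p (nat_lit 383) (nat_lit 2) .z))))))))))))))))))))))))))))))))))))))) (.ct dC2c_c308 (nat_lit 1) (nat_lit 11) (.s true (nat_lit 1) (nat_lit 24) (nat_lit 1) (nat_lit 2) (nat_lit 7) true (nat_lit 5) true (nat_lit 11) true (nat_lit 2) true (nat_lit 17) true (nat_lit 16) (.e false (nat_lit 1) (nat_lit 60) (nat_lit 19) (nat_lit 5) (.e false (nat_lit 1) (nat_lit 46) (nat_lit 24) (nat_lit 2) (.e true (nat_lit 1) (nat_lit 47) (nat_lit 24) (nat_lit 2) (.e true (nat_lit 1) (nat_lit 272) (nat_lit 1) (nat_lit 17) (.e false (nat_lit 1) (nat_lit 283) (nat_lit 1) (nat_lit 17) (.e false (nat_lit 1) (nat_lit 242) (nat_lit 2) (nat_lit 16) (.u (nat_lit 2) (.n (nat_lit 2) (nat_lit 1) (.n (nat_lit 4) (nat_lit 1) (.n (nat_lit 5) (nat_lit 1) (.n (nat_lit 9) (nat_lit 1) (.n (nat_lit 10) (nat_lit 1) (.n (nat_lit 12) (nat_lit 1) (.n (nat_lit 15) (nat_lit 1) (.n (nat_lit 16) (nat_lit 1) (.p (nat_lit 17) (nat_lit 1) (.p (nat_lit 18) (nat_lit 1) (.n (nat_lit 20) (nat_lit 1) (.p (nat_lit 21) (nat_lit 1) (.n (nat_lit 22) (nat_lit 1) (.p (nat_lit 24) (nat_lit 1) (.n (nat_lit 28) (nat_lit 1) (.n (nat_lit 31) (nat_lit 1) (.n (nat_lit 33) (nat_lit 1) (.p (nat_lit 34) (nat_lit 1) (.n (nat_lit 35) (nat_lit 1) (.p (nat_lit 37) (nat_lit 1) (.p (nat_lit 38) (nat_lit 1) (.p (nat_lit 47) (nat_lit 1) .z)))))))))))))))))))))) .nil))))))))) .leaf) (nat_lit 112642) (nat_lit 403) (.p (nat_lit 209) (nat_lit 1) .z) .df (.nd (.nd .leaf (nat_lit 112647) (nat_lit 1042) (.n (nat_lit 335) (nat_lit 2) (.p (nat_lit 336) (nat_lit 2) (.n (nat_lit 337) (nat_lit 3) (.n (nat_lit 338) (nat_lit 2) (.p (nat_lit 339) (nat_lit 3) (.p (nat_lit 340) (nat_lit 3) (.n (nat_lit 341) (nat_lit 3) (.p (nat_lit 343) (nat_lit 1) (.n (nat_lit 344) (nat_lit 3) (.n (nat_lit 345) (nat_lit 3) (.p (nat_lit 346) (nat_lit 1) (.p (nat_lit 349) (nat_lit 2) (.p (nat_lit 351) (nat_lit 1) (.p (nat_lit 352) (nat_lit 2) (.p (nat_lit 355) (nat_lit 3) (.p (nat_lit 356) (nat_lit 1) (.n (nat_lit 357) (nat_lit 1) (.n (nat_lit 358) (nat_lit 3) (.n (nat_lit 359) (nat_lit 2) (.p (nat_lit 360) (nat_lit 2) (.p (nat_lit 362) (nat_lit 1) (.p (nat_lit 363) (nat_lit 2) (.n (nat_lit 364) (nat_lit 2) (.n (nat_lit 366) (nat_lit 1) (.p (nat_lit 367) (nat_lit 1) (.n (nat_lit 368) (nat_lit 2) (.n (nat_lit 369) (nat_lit 2) (.n (nat_lit 370) (nat_lit 2) (.n (nat_lit 371) (nat_lit 1) (.n (nat_lit 372) (nat_lit 1) (.p (nat_lit 373) (nat_lit 2) (.p (nat_lit 380) (nat_lit 2) (.n (nat_lit 381) (nat_lit 1) (.p (nat_lit 382) (nat_lit 3) (.n (nat_lit 383) (nat_lit 3) .z))))))))))))))))))))))))))))))))))) (.ct dC2c_c308 (nat_lit 1) (nat_lit 11) (.s true (nat_lit 1) (nat_lit 53) (nat_lit 2) (nat_lit 2) (nat_lit 2) true (nat_lit 11) true (nat_lit 16) false (nat_lit 4) true (nat_lit 16) true (nat_lit 16) (.e false (nat_lit 1) (nat_lit 53) (nat_lit 20) (nat_lit 4) (.e false (nat_lit 1) (nat_lit 249) (nat_lit 2) (nat_lit 16) (.u (nat_lit 2) (.n (nat_lit 1) (nat_lit 1) (.p (nat_lit 2) (nat_lit 1) (.p (nat_lit 6) (nat_lit 1) (.n (nat_lit 16) (nat_lit 1) (.n (nat_lit 20) (nat_lit 1) (.p (nat_lit 24) (nat_lit 1) (.p (nat_lit 29) (nat_lit 1) (.p (nat_lit 33) (nat_lit 1) (.n (nat_lit 38) (nat_lit 1) (.n (nat_lit 45) (nat_lit 1) (.p (nat_lit 48) (nat_lit 1) .z))))))))))) .nil))))) .leaf) (nat_lit 113666) (nat_lit 404) (.p (nat_lit 210) (nat_lit 1) .z) .df .leaf)) (nat_lit 113671) (nat_lit 949) (.p (nat_lit 335) (nat_lit 2) (.n (nat_lit 338) (nat_lit 3) (.p (nat_lit 339) (nat_lit 1) (.n (nat_lit 340) (nat_lit 2) (.p (nat_lit 341) (nat_lit 2) (.p (nat_lit 342) (nat_lit 1) (.p (nat_lit 343) (nat_lit 2) (.p (nat_lit 344) (nat_lit 2) (.p (nat_lit 345) (nat_lit 3) (.n (nat_lit 346) (nat_lit 3) (.n (nat_lit 347) (nat_lit 2) (.n (nat_lit 349) (nat_lit 1) (.n (nat_lit 350) (nat_lit 1) (.n (nat_lit 352) (nat_lit 3) (.p (nat_lit 354) (nat_lit 1) (.p (nat_lit 355) (nat_lit 1) (.p (nat_lit 356) (nat_lit 3) (.n (nat_lit 357) (nat_lit 3) (.p (nat_lit 358) (nat_lit 3) (.p (nat_lit 359) (nat_lit 3) (.p (nat_lit 360) (nat_lit 1) (.p (nat_lit 361) (nat_lit 3) (.n (nat_lit 362) (nat_lit 2) (.p (nat_lit 363) (nat_lit 2) (.p (nat_lit 364) (nat_lit 1) (.p (nat_lit 366) (nat_lit 2) (.p (nat_lit 367) (nat_lit 3) (.p (nat_lit 368) (nat_lit 1) (.n (nat_lit 369) (nat_lit 1) (.p (nat_lit 370) (nat_lit 1) (.n (nat_lit 371) (nat_lit 2) (.p (nat_lit 372) (nat_lit 1) (.n (nat_lit 373) (nat_lit 1) (.p (nat_lit 374) (nat_lit 3) (.p (nat_lit 382) (nat_lit 2) (.n (nat_lit 383) (nat_lit 1) (.p (nat_lit 384) (nat_lit 2) .z))))))))))))))))))))))))))))))))))))) (.ct dC2c_c308 (nat_lit 1) (nat_lit 11) (.s true (nat_lit 1) (nat_lit 26) (nat_lit 1) (nat_lit 2) (nat_lit 7) true (nat_lit 5) true (nat_lit 11) true (nat_lit 2) true (nat_lit 17) true (nat_lit 16) (.s true (nat_lit 1) (nat_lit 26) (nat_lit 2) (nat_lit 2) (nat_lit 6) true (nat_lit 5) true (nat_lit 12) true (nat_lit 2) true (nat_lit 16) true (nat_lit 16) (.s false (nat_lit 1) (nat_lit 62) (nat_lit 2) (nat_lit 2) (nat_lit 1) true (nat_lit 12) true (nat_lit 17) false (nat_lit 5) true (nat_lit 16) true (nat_lit 16) (.e true (nat_lit 1) (nat_lit 274) (nat_lit 1) (nat_lit 17) (.e false (nat_lit 1) (nat_lit 285) (nat_lit 1) (nat_lit 17) (.e true (nat_lit 1) (nat_lit 206) (nat_lit 2) (nat_lit 16) (.e true (nat_lit 1) (nat_lit 207) (nat_lit 2) (nat_lit 16) (.e false (nat_lit 2) (nat_lit 210) (nat_lit 2) (nat_lit 16) (.e true (nat_lit 1) (nat_lit 218) (nat_lit 2) (nat_lit 16) (.e true (nat_lit 1) (nat_lit 219) (nat_lit 2) (nat_lit 16) (.e false (nat_lit 1) (nat_lit 221) (nat_lit 2) (nat_lit 16) (.e false (nat_lit 1) (nat_lit 227) (nat_lit 2) (nat_lit 16) (.e false (nat_lit 1) (nat_lit 62) (nat_lit 18) (nat_lit 5) (.e true (nat_lit 1) (nat_lit 216) (nat_lit 2) (nat_lit 16) (.e false (nat_lit 1) (nat_lit 217) (nat_lit 2) (nat_lit 16) (.e false (nat_lit 1) (nat_lit 254) (nat_lit 1) (nat_lit 17) (.u (nat_lit 2) (.p (nat_lit 3) (nat_lit 2) (.n (nat_lit 4) (nat_lit 1) (.p (nat_lit 5) (nat_lit 1) (.p (nat_lit 6) (nat_lit 1) (.n (nat_lit 7) (nat_lit 1) (.n (nat_lit 9) (nat_lit 1) (.p (nat_lit 16) (nat_lit 1) (.n (nat_lit 18) (nat_lit 1) (.n (nat_lit 20) (nat_lit 1) (.n (nat_lit 21) (nat_lit 1) (.p (nat_lit 22) (nat_lit 1) (.p (nat_lit 23) (nat_lit 1) (.p (nat_lit 25) (nat_lit 1) (.n (nat_lit 26) (nat_lit 1) (.p (nat_lit 27) (nat_lit 2) (.n (nat_lit 32) (nat_lit 2) (.n (nat_lit 34) (nat_lit 1) (.p (nat_lit 36) (nat_lit 1) (.n (nat_lit 40) (nat_lit 1) (.n (nat_lit 44) (nat_lit 1) (.n (nat_lit 45) (nat_lit 1) (.n (nat_lit 46) (nat_lit 1) (.p (nat_lit 48) (nat_lit 1) (.p (nat_lit 302) (nat_lit 1) (.n (nat_lit 303) (nat_lit 1) (.p (nat_lit 310) (nat_lit 1) (.n (nat_lit 322) (nat_lit 1) .z))))))))))))))))))))))))))) .nil)))))))))))))))))) (.nd (.nd (.nd .leaf (nat_lit 114690) (nat_lit 405) (.p (nat_lit 211) (nat_lit 1) .z) .df .leaf) (nat_lit 114695) (nat_lit 1002) (.n (nat_lit 335) (nat_lit 3) (.p (nat_lit 336) (nat_lit 1) (.p (nat_lit 337) (nat_lit 2) (.p (nat_lit 338) (nat_lit 1) (.p (nat_lit 339) (nat_lit 2) (.n (nat_lit 340) (nat_lit 1) (.p (nat_lit 341) (nat_lit 2) (.n (nat_lit 342) (nat_lit 1) (.n (nat_lit 343) (nat_lit 1) (.p (nat_lit 344) (nat_lit 1) (.p (nat_lit 346) (nat_lit 2) (.p (nat_lit 347) (nat_lit 2) (.n (nat_lit 349) (nat_lit 3) (.n (nat_lit 350) (nat_lit 1) (.p (nat_lit 351) (nat_lit 3) (.p (nat_lit 352) (nat_lit 2) (.p (nat_lit 353) (nat_lit 3) (.n (nat_lit 354) (nat_lit 3) (.n (nat_lit 356) (nat_lit 3) (.p (nat_lit 357) (nat_lit 3) (.p (nat_lit 358) (nat_lit 1) (.n (nat_lit 359) (nat_lit 3) (.n (nat_lit 360) (nat_lit 1) (.p (nat_lit 361) (nat_lit 3) (.n (nat_lit 362) (nat_lit 1) (.p (nat_lit 364) (nat_lit 1) (.n (nat_lit 366) (nat_lit 2) (.p (nat_lit 367) (nat_lit 3) (.p (nat_lit 368) (nat_lit 3) (.n (nat_lit 369) (nat_lit 2) (.p (nat_lit 370) (nat_lit 3) (.p (nat_lit 371) (nat_lit 3) (.n (nat_lit 372) (nat_lit 1) (.n (nat_lit 373) (nat_lit 3) (.n (nat_lit 374) (nat_lit 2) (.n (nat_lit 380) (nat_lit 1) (.n (nat_lit 381) (nat_lit 3) (.n (nat_lit 382) (nat_lit 1) (.n (nat_lit 383) (nat_lit 3) (.p (nat_lit 385) (nat_lit 2) .z)))))))))))))))))))))))))))))))))))))))) (.ct dC2c_c308 (nat_lit 1) (nat_lit 11) (.s true (nat_lit 1) (nat_lit 27) (nat_lit 1) (nat_lit 2) (nat_lit 7) true (nat_lit 5) true (nat_lit 11) true (nat_lit 2) true (nat_lit 17) true (nat_lit 16) (.e false (nat_lit 1) (nat_lit 63) (nat_lit 19) (nat_lit 5) (.e false (nat_lit 1) (nat_lit 46) (nat_lit 27) (nat_lit 2) (.e true (nat_lit 1) (nat_lit 47) (nat_lit 27) (nat_lit 2) (.e true (nat_lit 1) (nat_lit 275) (nat_lit 1) (nat_lit 17) (.e false (nat_lit 1) (nat_lit 286) (nat_lit 1) (nat_lit 17) (.e false (nat_lit 1) (nat_lit 244) (nat_lit 2) (nat_lit 16) (.u (nat_lit 2) (.p (nat_lit 0) (nat_lit 1) (.p (nat_lit 1) (nat_lit 1) (.n (nat_lit 6) (nat_lit 1) (.p (nat_lit 7) (nat_lit 1) (.n (nat_lit 8) (nat_lit 1) (.n (nat_lit 12) (nat_lit 1) (.p (nat_lit 14) (nat_lit 1) (.n (nat_lit 15) (nat_lit 1) (.p (nat_lit 16) (nat_lit 1) (.p (nat_lit 23) (nat_lit 1) (.p (nat_lit 24) (nat_lit 1) (.n (nat_lit 26) (nat_lit 1) (.p (nat_lit 27) (nat_lit 1) (.p (nat_lit 28) (nat_lit 1) (.n (nat_lit 37) (nat_lit 1) (.p (nat_lit 39) (nat_lit 1) .z)))))))))))))))) .nil))))))))) .leaf) (nat_lit 115714) (nat_lit 406) (.p (nat_lit 212) (nat_lit 1) .z) .df (.nd (.nd .leaf (nat_lit 115719) (nat_lit 1073) (.n (nat_lit 335) (nat_lit 3) (.p (nat_lit 336) (nat_lit 2) (.n (nat_lit 337) (nat_lit 3) (.n (nat_lit 338) (nat_lit 3) (.p (nat_lit 339) (nat_lit 1) (.p (nat_lit 340) (nat_lit 1) (.n (nat_lit 341) (nat_lit 2) (.p (nat_lit 342) (nat_lit 3) (.n (nat_lit 343) (nat_lit 3) (.p (nat_lit 344) (nat_lit 1) (.p (nat_lit 345) (nat_lit 2) (.p (nat_lit 347) (nat_lit 3) (.p (nat_lit 349) (nat_lit 1) (.p (nat_lit 350) (nat_lit 2) (.n (nat_lit 352) (nat_lit 1) (.n (nat_lit 354) (nat_lit 3) (.p (nat_lit 355) (nat_lit 2) (.p (nat_lit 358) (nat_lit 2) (.n (nat_lit 359) (nat_lit 1) (.p (nat_lit 360) (nat_lit 2) (.n (nat_lit 361) (nat_lit 3) (.p (nat_lit 363) (nat_lit 1) (.p (nat_lit 364) (nat_lit 2) (.n (nat_lit 366) (nat_lit 2) (.n (nat_lit 367) (nat_lit 1) (.n (nat_lit 368) (nat_lit 2) (.p (nat_lit 369) (nat_lit 2) (.n (nat_lit 370) (nat_lit 2) (.n (nat_lit 371) (nat_lit 2) (.p (nat_lit 372) (nat_lit 2) (.p (nat_lit 373) (nat_lit 2) (.p (nat_lit 374) (nat_lit 2) (.p (nat_lit 380) (nat_lit 2) (.n (nat_lit 381) (nat_lit 1) (.p (nat_lit 382) (nat_lit 3) (.p (nat_lit 383) (nat_lit 2) (.p (nat_lit 384) (nat_lit 2) (.p (nat_lit 385) (nat_lit 2) .z)))))))))))))))))))))))))))))))))))))) (.ct dC2c_c308 (nat_lit 1) (nat_lit 11) (.s false (nat_lit 3) (nat_lit 10) (nat_lit 0) (nat_lit 7) (nat_lit 7) true (nat_lit 6) true (nat_lit 11) true (nat_lit 9) true (nat_lit 18) true (nat_lit 11) (.s false (nat_lit 1) (nat_lit 27) (nat_lit 7) (nat_lit 1) (nat_lit 2) true (nat_lit 4) true (nat_lit 16) true (nat_lit 2) true (nat_lit 11) true (nat_lit 17) (.e false (nat_lit 3) (nat_lit 79) (nat_lit 17) (nat_lit 6) (.e false (nat_lit 2) (nat_lit 130) (nat_lit 7) (nat_lit 11) dC2c_i75))))) .leaf) (nat_lit 116738) (nat_lit 407) (.p (nat_lit 213) (nat_lit 1) .z) .df .leaf))) (nat_lit 116743) (nat_lit 985) (.p (nat_lit 335) (nat_lit 3) (.n (nat_lit 336) (nat_lit 3) (.p (nat_lit 337) (nat_lit 1) (.p (nat_lit 338) (nat_lit 3) (.n (nat_lit 339) (nat_lit 1) (.n (nat_lit 340) (nat_lit 2) (.p (nat_lit 341) (nat_lit 1) (.n (nat_lit 342) (nat_lit 2) (.n (nat_lit 343) (nat_lit 1) (.p (nat_lit 344) (nat_lit 1) (.n (nat_lit 346) (nat_lit 1) (.n (nat_lit 347) (nat_lit 1) (.n (nat_lit 349) (nat_lit 1) (.p (nat_lit 350) (nat_lit 2) (.n (nat_lit 351) (nat_lit 2) (.n (nat_lit 352) (nat_lit 1) (.n (nat_lit 353) (nat_lit 1) (.p (nat_lit 354) (nat_lit 2) (.n (nat_lit 356) (nat_lit 3) (.p (nat_lit 357) (nat_lit 3) (.n (nat_lit 358) (nat_lit 2) (.n (nat_lit 359) (nat_lit 1) (.p (nat_lit 360) (nat_lit 1) (.p (nat_lit 362) (nat_lit 2) (.n (nat_lit 363) (nat_lit 3) (.n (nat_lit 364) (nat_lit 1) (.p (nat_lit 366) (nat_lit 3) (.n (nat_lit 367) (nat_lit 3) (.p (nat_lit 368) (nat_lit 2) (.n (nat_lit 369) (nat_lit 2) (.p (nat_lit 370) (nat_lit 3) (.n (nat_lit 371) (nat_lit 1) (.n (nat_lit 373) (nat_lit 2) (.n (nat_lit 374) (nat_lit 2) (.p (nat_lit 380) (nat_lit 3) (.p (nat_lit 381) (nat_lit 2) (.n (nat_lit 382) (nat_lit 1) (.p (nat_lit 383) (nat_lit 3) (.p (nat_lit 385) (nat_lit 2) .z))))))))))))))))))))))))))))))))))))))) (.ct dC2c_c308 (nat_lit 1) (nat_lit 11) (.s true (nat_lit 1) (nat_lit 57) (nat_lit 2) (nat_lit 2) (nat_lit 2) true (nat_lit 11) true (nat_lit 16) false (nat_lit 4) true (nat_lit 16) true (nat_lit 16) (.e true (nat_lit 1) (nat_lit 213) (nat_lit 2) (nat_lit 16) (.e false (nat_lit 1) (nat_lit 57) (nat_lit 20) (nat_lit 4) (.e true (nat_lit 1) (nat_lit 205) (nat_lit 2) (nat_lit 16) (.e false (nat_lit 3) (nat_lit 206) (nat_lit 2) (nat_lit 16) (.e false (nat_lit 3) (nat_lit 207) (nat_lit 2) (nat_lit 16) (.e false (nat_lit 2) (nat_lit 208) (nat_lit 2) (nat_lit 16) (.e false (nat_lit 1) (nat_lit 211) (nat_lit 2) (nat_lit 16) (.e true (nat_lit 1) (nat_lit 215) (nat_lit 2) (nat_lit 16) (.e true (nat_lit 2) (nat_lit 216) (nat_lit 2) (nat_lit 16) (.e true (nat_lit 1) (nat_lit 217) (nat_lit 2) (nat_lit 16) (.e false (nat_lit 1) (nat_lit 225) (nat_lit 2) (nat_lit 16) (.e true (nat_lit 2) (nat_lit 227) (nat_lit 2) (nat_lit 16) (.e true (nat_lit 3) (nat_lit 228) (nat_lit 2) (nat_lit 16) (.e false (nat_lit 1) (nat_lit 230) (nat_lit 2) (nat_lit 16) (.e false (nat_lit 3) (nat_lit 246) (nat_lit 2) (nat_lit 16) (.e false (nat_lit 3) (nat_lit 247) (nat_lit 2) (nat_lit 16) (.e true (nat_lit 1) (nat_lit 248) (nat_lit 2) (nat_lit 16) (.e true (nat_lit 1) (nat_lit 249) (nat_lit 2) (nat_lit 16) (.e false (nat_lit 1) (nat_lit 250) (nat_lit 2) (nat_lit 16) (.u (nat_lit 2) (.n (nat_lit 0) (nat_lit 2) (.n (nat_lit 1) (nat_lit 3) (.n (nat_lit 2) (nat_lit 1) (.p (nat_lit 4) (nat_lit 2) (.n (nat_lit 5) (nat_lit 2) (.n (nat_lit 6) (nat_lit 2) (.p (nat_lit 7) (nat_lit 3) (.n (nat_lit 9) (nat_lit 2) (.p (nat_lit 10) (nat_lit 2) (.n (nat_lit 14) (nat_lit 2) (.n (nat_lit 15) (nat_lit 4) (.n (nat_lit 17) (nat_lit 5) (.n (nat_lit 20) (nat_lit 2) (.p (nat_lit 23) (nat_lit 3) (.n (nat_lit 24) (nat_lit 3) (.n (nat_lit 25) (nat_lit 4) (.p (nat_lit 26) (nat_lit 1) (.n (nat_lit 27) (nat_lit 2) (.p (nat_lit 28) (nat_lit 1) (.p (nat_lit 29) (nat_lit 2) (.n (nat_lit 31) (nat_lit 4) (.p (nat_lit 32) (nat_lit 3) (.p (nat_lit 33) (nat_lit 1) (.n (nat_lit 34) (nat_lit 2) (.p (nat_lit 35) (nat_lit 2) (.p (nat_lit 36) (nat_lit 2) (.p (nat_lit 37) (nat_lit 2) (.n (nat_lit 38) (nat_lit 1) (.n (nat_lit 40) (nat_lit 1) (.n (nat_lit 44) (nat_lit 1) (.p (nat_lit 45) (nat_lit 3) (.p (nat_lit 46) (nat_lit 2) (.n (nat_lit 47) (nat_lit 1) (.n (nat_lit 48) (nat_lit 2) .z)))))))))))))))))))))))))))))))))) .nil)))))))))))))))))))))) (.nd (.nd (.nd (.nd .leaf (nat_lit 117762) (nat_lit 408) (.p (nat_lit 214) (nat_lit 1) .z) .df .leaf) (nat_lit 117767) (nat_lit 1074) (.n (nat_lit 336) (nat_lit 3) (.p (nat_lit 337) (nat_lit 1) (.n (nat_lit 338) (nat_lit 1) (.n (nat_lit 339) (nat_lit 2) (.n (nat_lit 340) (nat_lit 1) (.p (nat_lit 342) (nat_lit 1) (.n (nat_lit 343) (nat_lit 2) (.n (nat_lit 344) (nat_lit 3) (.p (nat_lit 345) (nat_lit 1) (.n (nat_lit 346) (nat_lit 1) (.n (nat_lit 347) (nat_lit 3) (.p (nat_lit 349) (nat_lit 2) (.n (nat_lit 350) (nat_lit 2) (.p (nat_lit 351) (nat_lit 3) (.n (nat_lit 352) (nat_lit 1) (.p (nat_lit 353) (nat_lit 2) (.p (nat_lit 354) (nat_lit 3) (.n (nat_lit 358) (nat_lit 2) (.p (nat_lit 360) (nat_lit 2) (.p (nat_lit 362) (nat_lit 1) (.n (nat_lit 363) (nat_lit 3) (.p (nat_lit 364) (nat_lit 3) (.p (nat_lit 366) (nat_lit 1) (.p (nat_lit 367) (nat_lit 2) (.p (nat_lit 368) (nat_lit 3) (.n (nat_lit 369) (nat_lit 2) (.p (nat_lit 370) (nat_lit 2) (.p (nat_lit 371) (nat_lit 1) (.n (nat_lit 372) (nat_lit 2) (.n (nat_lit 373) (nat_lit 3) (.p (nat_lit 374) (nat_lit 3) (.n (nat_lit 381) (nat_lit 1) (.n (nat_lit 382) (nat_lit 1) (.p (nat_lit 383) (nat_lit 3) (.p (nat_lit 384) (nat_lit 2) (.p (nat_lit 385) (nat_lit 2) .z)))))))))))))))))))))))))))))))))))) (.ct dC2c_c308 (nat_lit 1) (nat_lit 11) (.s false (nat_lit 1) (nat_lit 10) (nat_lit 7) (nat_lit 7) (nat_lit 0) true (nat_lit 6) true (nat_lit 18) true (nat_lit 9) true (nat_lit 11) true (nat_lit 11) (.e true (nat_lit 1) (nat_lit 79) (nat_lit 17) (nat_lit 6) (.e false (nat_lit 2) (nat_lit 298) (nat_lit 0) (nat_lit 18) (.e true (nat_lit 2) (nat_lit 106) (nat_lit 7) (nat_lit 11) (.e false (nat_lit 2) (nat_lit 107) (nat_lit 7) (nat_lit 11) (.e false (nat_lit 1) (nat_lit 108) (nat_lit 7) (nat_lit 11) (.e false (nat_lit 3) (nat_lit 109) (nat_lit 7) (nat_lit 11) (.e true (nat_lit 1) (nat_lit 110) (nat_lit 7) (nat_lit 11) (.e true (nat_lit 1) (nat_lit 112) (nat_lit 7) (nat_lit 11) (.e false (nat_lit 1) (nat_lit 113) (nat_lit 7) (nat_lit 11) (.e false (nat_lit 1) (nat_lit 114) (nat_lit 7) (nat_lit 11) (.e true (nat_lit 3) (nat_lit 116) (nat_lit 7) (nat_lit 11) (.e true (nat_lit 2) (nat_lit 117) (nat_lit 7) (nat_lit 11) (.e true (nat_lit 1) (nat_lit 118) (nat_lit 7) (nat_lit 11) (.e false (nat_lit 2) (nat_lit 120) (nat_lit 7) (nat_lit 11) (.e true (nat_lit 2) (nat_lit 122) (nat_lit 7) (nat_lit 11) (.e false (nat_lit 1) (nat_lit 131) (nat_lit 7) (nat_lit 11) (.e true (nat_lit 1) (nat_lit 130) (nat_lit 7) (nat_lit 11) (.u (nat_lit 2) (.p (nat_lit 1) (nat_lit 3) (.n (nat_lit 2) (nat_lit 1) (.p (nat_lit 3) (nat_lit 2) (.n (nat_lit 4) (nat_lit 1) (.p (nat_lit 5) (nat_lit 3) (.n (nat_lit 6) (nat_lit 2) (.n (nat_lit 7) (nat_lit 2) (.p (nat_lit 8) (nat_lit 1) (.p (nat_lit 9) (nat_lit 1) (.n (nat_lit 10) (nat_lit 2) (.n (nat_lit 11) (nat_lit 2) (.n (nat_lit 12) (nat_lit 2) (.p (nat_lit 14) (nat_lit 2) (.p (nat_lit 15) (nat_lit 2) (.p (nat_lit 16) (nat_lit 1) (.n (nat_lit 17) (nat_lit 2) (.n (nat_lit 18) (nat_lit 5) (.n (nat_lit 19) (nat_lit 1) (.n (nat_lit 20) (nat_lit 2) (.n (nat_lit 21) (nat_lit 3) (.p (nat_lit 22) (nat_lit 3) (.n (nat_lit 23) (nat_lit 2) (.n (nat_lit 24) (nat_lit 2) (.n (nat_lit 27) (nat_lit 1) (.p (nat_lit 31) (nat_lit 2) (.n (nat_lit 32) (nat_lit 6) (.n (nat_lit 33) (nat_lit 1) (.n (nat_lit 36) (nat_lit 3) (.p (nat_lit 38) (nat_lit 1) (.n (nat_lit 39) (nat_lit 2) (.p (nat_lit 45) (nat_lit 4) (.p (nat_lit 46) (nat_lit 4) (.p (nat_lit 47) (nat_lit 1) (.p (nat_lit 48) (nat_lit 1) .z)))))))))))))))))))))))))))))))))) .nil)))))))))))))))))))) .leaf) (nat_lit 118786) (nat_lit 409) (.p (nat_lit 215) (nat_lit 1) .z) .df (.nd (.nd .leaf (nat_lit 118791) (nat_lit 968) (.p (nat_lit 335) (nat_lit 3) (.n (nat_lit 336) (nat_lit 3) (.p (nat_lit 337) (nat_lit 1) (.n (nat_lit 340) (nat_lit 2) (.p (nat_lit 342) (nat_lit 1) (.n (nat_lit 343) (nat_lit 2) (.n (nat_lit 344) (nat_lit 1) (.p (nat_lit 345) (nat_lit 1) (.p (nat_lit 346) (nat_lit 3) (.p (nat_lit 347) (nat_lit 1) (.n (nat_lit 349) (nat_lit 1) (.p (nat_lit 350) (nat_lit 3) (.n (nat_lit 351) (nat_lit 1) (.p (nat_lit 352) (nat_lit 2) (.p (nat_lit 353) (nat_lit 2) (.p (nat_lit 354) (nat_lit 1) (.n (nat_lit 355) (nat_lit 1) (.p (nat_lit 356) (nat_lit 3) (.n (nat_lit 357) (nat_lit 3) (.p (nat_lit 358) (nat_lit 2) (.p (nat_lit 359) (nat_lit 3) (.p (nat_lit 362) (nat_lit 1) (.p (nat_lit 363) (nat_lit 1) (.n (nat_lit 364) (nat_lit 2) (.n (nat_lit 366) (nat_lit 1) (.p (nat_lit 367) (nat_lit 1) (.p (nat_lit 368) (nat_lit 1) (.n (nat_lit 369) (nat_lit 1) (.p (nat_lit 370) (nat_lit 2) (.p (nat_lit 371) (nat_lit 3) (.p (nat_lit 372) (nat_lit 1) (.n (nat_lit 373) (nat_lit 1) (.p (nat_lit 374) (nat_lit 3) (.n (nat_lit 380) (nat_lit 1) (.n (nat_lit 381) (nat_lit 2) (.p (nat_lit 383) (nat_lit 1) .z)))))))))))))))))))))))))))))))))))) (.ct dC2c_c308 (nat_lit 1) (nat_lit 11) (.s true (nat_lit 3) (nat_lit 8) (nat_lit 1) (nat_lit 7) (nat_lit 7) true (nat_lit 5) true (nat_lit 11) true (nat_lit 10) true (nat_lit 17) true (nat_lit 11) (.s false (nat_lit 1) (nat_lit 8) (nat_lit 2) (nat_lit 7) (nat_lit 6) true (nat_lit 5) true (nat_lit 12) true (nat_lit 10) true (nat_lit 16) true (nat_lit 11) (.e true (nat_lit 3) (nat_lit 72) (nat_lit 19) (nat_lit 5) (.e true (nat_lit 3) (nat_lit 128) (nat_lit 7) (nat_lit 11) (.e false (nat_lit 3) (nat_lit 126) (nat_lit 7) (nat_lit 11) (.e false (nat_lit 1) (nat_lit 72) (nat_lit 18) (nat_lit 5) (.e false (nat_lit 1) (nat_lit 152) (nat_lit 6) (nat_lit 12) (.e false (nat_lit 1) (nat_lit 104) (nat_lit 8) (nat_lit 10) (.e false (nat_lit 1) (nat_lit 227) (nat_lit 2) (nat_lit 16) (.e true (nat_lit 1) (nat_lit 242) (nat_lit 2) (nat_lit 16) (.e false (nat_lit 2) (nat_lit 208) (nat_lit 2) (nat_lit 16) (.e true (nat_lit 2) (nat_lit 216) (nat_lit 2) (nat_lit 16) (.u (nat_lit 2) (.p (nat_lit 0) (nat_lit 1) (.p (nat_lit 1) (nat_lit 3) (.n (nat_lit 2) (nat_lit 4) (.p (nat_lit 3) (nat_lit 2) (.n (nat_lit 4) (nat_lit 2) (.n (nat_lit 5) (nat_lit 2) (.p (nat_lit 6) (nat_lit 1) (.n (nat_lit 7) (nat_lit 3) (.p (nat_lit 8) (nat_lit 1) (.p (nat_lit 10) (nat_lit 1) (.p (nat_lit 11) (nat_lit 1) (.p (nat_lit 12) (nat_lit 1) (.n (nat_lit 15) (nat_lit 2) (.p (nat_lit 16) (nat_lit 2) (.n (nat_lit 17) (nat_lit 5) (.n (nat_lit 18) (nat_lit 2) (.n (nat_lit 20) (nat_lit 1) (.n (nat_lit 21) (nat_lit 1) (.p (nat_lit 22) (nat_lit 1) (.p (nat_lit 23) (nat_lit 2) (.p (nat_lit 24) (nat_lit 1) (.p (nat_lit 26) (nat_lit 1) (.n (nat_lit 27) (nat_lit 1) (.p (nat_lit 28) (nat_lit 1) (.p (nat_lit 29) (nat_lit 2) (.p (nat_lit 32) (nat_lit 1) (.p (nat_lit 33) (nat_lit 1) (.n (nat_lit 34) (nat_lit 1) (.p (nat_lit 35) (nat_lit 1) (.n (nat_lit 36) (nat_lit 2) (.n (nat_lit 37) (nat_lit 1) (.n (nat_lit 38) (nat_lit 1) (.n (nat_lit 39) (nat_lit 2) (.n (nat_lit 40) (nat_lit 3) (.n (nat_lit 42) (nat_lit 3) (.n (nat_lit 44) (nat_lit 3) (.p (nat_lit 45) (nat_lit 1) (.n (nat_lit 46) (nat_lit 3) (.p (nat_lit 47) (nat_lit 3) (.p (nat_lit 48) (nat_lit 2) (.p (nat_lit 206) (nat_lit 1) (.n (nat_lit 207) (nat_lit 1) .z)))))))))))))))))))))))))))))))))))))))))) .nil)))))))))))))) .leaf) (nat_lit 119810) (nat_lit 410) (.p (nat_lit 216) (nat_lit 1) .z) .df .leaf)) (nat_lit 119815) (nat_lit 1018) (.p (nat_lit 335) (nat_lit 1) (.n (nat_lit 338) (nat_lit 1) (.p (nat_lit 339) (nat_lit 3) (.n (nat_lit 340) (nat_lit 3) (.p (nat_lit 341) (nat_lit 1) (.p (nat_lit 343) (nat_lit 2) (.p (nat_lit 344) (nat_lit 1) (.n (nat_lit 346) (nat_lit 1) (.n (nat_lit 347) (nat_lit 2) (.n (nat_lit 349) (nat_lit 2) (.p (nat_lit 351) (nat_lit 1) (.n (nat_lit 353) (nat_lit 3) (.p (nat_lit 354) (nat_lit 1) (.n (nat_lit 355) (nat_lit 1) (.n (nat_lit 356) (nat_lit 2) (.p (nat_lit 357) (nat_lit 2) (.p (nat_lit 359) (nat_lit 2) (.p (nat_lit 360) (nat_lit 2) (.n (nat_lit 361) (nat_lit 2) (.n (nat_lit 362) (nat_lit 1) (.n (nat_lit 364) (nat_lit 2) (.p (nat_lit 367) (nat_lit 1) (.p (nat_lit 368) (nat_lit 2) (.p (nat_lit 370) (nat_lit 2) (.n (nat_lit 371) (nat_lit 2) (.p (nat_lit 372) (nat_lit 1) (.n (nat_lit 373) (nat_lit 2) (.n (nat_lit 375) (nat_lit 1) (.p (nat_lit 377) (nat_lit 2) (.n (nat_lit 379) (nat_lit 1) (.n (nat_lit 380) (nat_lit 2) (.n (nat_lit 381) (nat_lit 2) (.p (nat_lit 382) (nat_lit 1) (.p (nat_lit 383) (nat_lit 3) .z)))))))))))))))))))))))))))))))))) (.ct dC2c_c308 (nat_lit 1) (nat_lit 11) (.s true (nat_lit 1) (nat_lit 60) (nat_lit 2) (nat_lit 1) (nat_lit 2) true (nat_lit 11) true (nat_lit 16) false (nat_lit 5) true (nat_lit 16) true (nat_lit 17) (.e true (nat_lit 2) (nat_lit 231) (nat_lit 2) (nat_lit 16) (.e false (nat_lit 1) (nat_lit 60) (nat_lit 18) (nat_lit 5) (.e false (nat_lit 1) (nat_lit 205) (nat_lit 2) (nat_lit 16) (.e true (nat_lit 3) (nat_lit 208) (nat_lit 2) (nat_lit 16) (.e false (nat_lit 1) (nat_lit 215) (nat_lit 2) (nat_lit 16) (.e false (nat_lit 3) (nat_lit 216) (nat_lit 2) (nat_lit 16) (.e true (nat_lit 1) (nat_lit 225) (nat_lit 2) (nat_lit 16) (.e true (nat_lit 1) (nat_lit 227) (nat_lit 2) (nat_lit 16) (.e false (nat_lit 1) (nat_lit 242) (nat_lit 2) (nat_lit 16) (.e false (nat_lit 1) (nat_lit 248) (nat_lit 2) (nat_lit 16) (.e false (nat_lit 1) (nat_lit 252) (nat_lit 1) (nat_lit 17) (.u (nat_lit 2) (.n (nat_lit 1) (nat_lit 1) (.p (nat_lit 2) (nat_lit 2) (.n (nat_lit 3) (nat_lit 1) (.p (nat_lit 4) (nat_lit 1) (.p (nat_lit 5) (nat_lit 1) (.p (nat_lit 9) (nat_lit 1) (.n (nat_lit 10) (nat_lit 2) (.p (nat_lit 11) (nat_lit 1) (.p (nat_lit 14) (nat_lit 1) (.n (nat_lit 15) (nat_lit 1) (.n (nat_lit 16) (nat_lit 2) (.p (nat_lit 17) (nat_lit 1) (.n (nat_lit 18) (nat_lit 1) (.n (nat_lit 19) (nat_lit 2) (.p (nat_lit 20) (nat_lit 2) (.p (nat_lit 21) (nat_lit 2) (.n (nat_lit 22) (nat_lit 2) (.n (nat_lit 23) (nat_lit 2) (.n (nat_lit 25) (nat_lit 1) (.n (nat_lit 27) (nat_lit 2) (.p (nat_lit 28) (nat_lit 1) (.n (nat_lit 29) (nat_lit 1) (.p (nat_lit 34) (nat_lit 2) (.n (nat_lit 36) (nat_lit 1) (.n (nat_lit 37) (nat_lit 1) (.n (nat_lit 39) (nat_lit 1) (.p (nat_lit 40) (nat_lit 2) (.p (nat_lit 44) (nat_lit 2) (.p (nat_lit 46) (nat_lit 2) (.n (nat_lit 47) (nat_lit 2) (.n (nat_lit 48) (nat_lit 1) .z))))))))))))))))))))))))))))))) .nil)))))))))))))) (.nd (.nd (.nd .leaf (nat_lit 120834) (nat_lit 411) (.p (nat_lit 217) (nat_lit 1) .z) .df .leaf) (nat_lit 120839) (nat_lit 1040) (.n (nat_lit 335) (nat_lit 1) (.n (nat_lit 336) (nat_lit 1) (.n (nat_lit 337) (nat_lit 2) (.n (nat_lit 338) (nat_lit 2) (.n (nat_lit 339) (nat_lit 1) (.n (nat_lit 340) (nat_lit 1) (.n (nat_lit 341) (nat_lit 3) (.n (nat_lit 342) (nat_lit 3) (.p (nat_lit 345) (nat_lit 2) (.n (nat_lit 346) (nat_lit 2) (.n (nat_lit 347) (nat_lit 1) (.n (nat_lit 349) (nat_lit 1) (.p (nat_lit 350) (nat_lit 2) (.n (nat_lit 351) (nat_lit 2) (.p (nat_lit 352) (nat_lit 3) (.p (nat_lit 354) (nat_lit 2) (.p (nat_lit 355) (nat_lit 1) (.p (nat_lit 356) (nat_lit 1) (.n (nat_lit 357) (nat_lit 1) (.p (nat_lit 358) (nat_lit 2) (.p (nat_lit 359) (nat_lit 3) (.n (nat_lit 360) (nat_lit 3) (.p (nat_lit 361) (nat_lit 2) (.n (nat_lit 362) (nat_lit 2) (.p (nat_lit 363) (nat_lit 2) (.p (nat_lit 364) (nat_lit 1) (.n (nat_lit 366) (nat_lit 1) (.p (nat_lit 367) (nat_lit 3) (.n (nat_lit 368) (nat_lit 3) (.p (nat_lit 369) (nat_lit 2) (.n (nat_lit 370) (nat_lit 3) (.p (nat_lit 371) (nat_lit 2) (.p (nat_lit 372) (nat_lit 1) (.p (nat_lit 373) (nat_lit 3) (.n (nat_lit 375) (nat_lit 2) (.n (nat_lit 377) (nat_lit 3) (.n (nat_lit 379) (nat_lit 2) (.n (nat_lit 380) (nat_lit 3) (.n (nat_lit 381) (nat_lit 1) (.n (nat_lit 382) (nat_lit 2) (.p (nat_lit 383) (nat_lit 1) .z))))))))))))))))))))))))))))))))))))))))) (.ct dC2c_c308 (nat_lit 1) (nat_lit 11) (.s true (nat_lit 1) (nat_lit 25) (nat_lit 1) (nat_lit 7) (nat_lit 2) true (nat_lit 12) true (nat_lit 16) true (nat_lit 2) true (nat_lit 17) true (nat_lit 11) (.e false (nat_lit 1) (nat_lit 153) (nat_lit 6) (nat_lit 12) (.e true (nat_lit 1) (nat_lit 249) (nat_lit 2) (nat_lit 16) (.e false (nat_lit 1) (nat_lit 46) (nat_lit 25) (nat_lit 2) (.e false (nat_lit 1) (nat_lit 273) (nat_lit 1) (nat_lit 17) (.e true (nat_lit 1) (nat_lit 284) (nat_lit 1) (nat_lit 17) (.u (nat_lit 2) (.p (nat_lit 0) (nat_lit 1) (.p (nat_lit 3) (nat_lit 1) (.p (nat_lit 12) (nat_lit 1) (.n (nat_lit 15) (nat_lit 1) (.p (nat_lit 16) (nat_lit 1) (.p (nat_lit 25) (nat_lit 1) (.n (nat_lit 29) (nat_lit 1) (.n (nat_lit 31) (nat_lit 1) (.p (nat_lit 33) (nat_lit 1) (.n (nat_lit 34) (nat_lit 1) (.p (nat_lit 35) (nat_lit 1) (.n (nat_lit 38) (nat_lit 1) (.p (nat_lit 39) (nat_lit 1) (.p (nat_lit 45) (nat_lit 1) (.p (nat_lit 46) (nat_lit 1) .z))))))))))))))) .nil)))))))) .leaf) (nat_lit 121858) (nat_lit 412) (.p (nat_lit 218) (nat_lit 1) .z) .df (.nd .leaf (nat_lit 121863) (nat_lit 966) (.p (nat_lit 335) (nat_lit 1) (.n (nat_lit 338) (nat_lit 1) (.n (nat_lit 339) (nat_lit 2) (.p (nat_lit 340) (nat_lit 3) (.n (nat_lit 341) (nat_lit 3) (.n (nat_lit 342) (nat_lit 1) (.p (nat_lit 343) (nat_lit 3) (.n (nat_lit 344) (nat_lit 2) (.p (nat_lit 345) (nat_lit 2) (.p (nat_lit 346) (nat_lit 1) (.n (nat_lit 347) (nat_lit 3) (.p (nat_lit 349) (nat_lit 3) (.p (nat_lit 350) (nat_lit 3) (.p (nat_lit 351) (nat_lit 3) (.p (nat_lit 352) (nat_lit 3) (.p (nat_lit 353) (nat_lit 2) (.p (nat_lit 354) (nat_lit 3) (.n (nat_lit 355) (nat_lit 3) (.n (nat_lit 356) (nat_lit 3) (.p (nat_lit 357) (nat_lit 3) (.n (nat_lit 358) (nat_lit 1) (.p (nat_lit 359) (nat_lit 2) (.p (nat_lit 360) (nat_lit 2) (.n (nat_lit 361) (nat_lit 2) (.p (nat_lit 362) (nat_lit 2) (.p (nat_lit 363) (nat_lit 2) (.n (nat_lit 364) (nat_lit 2) (.p (nat_lit 366) (nat_lit 3) (.p (nat_lit 367) (nat_lit 1) (.p (nat_lit 368) (nat_lit 1) (.p (nat_lit 369) (nat_lit 3) (.p (nat_lit 370) (nat_lit 1) (.p (nat_lit 371) (nat_lit 3) (.p (nat_lit 372) (nat_lit 3) (.n (nat_lit 373) (nat_lit 1) (.n (nat_lit 374) (nat_lit 3) (.p (nat_lit 380) (nat_lit 1) (.p (nat_lit 381) (nat_lit 3) (.p (nat_lit 382) (nat_lit 1) (.p (nat_lit 383) (nat_lit 3) (.p (nat_lit 386) (nat_lit 2) .z))))))))))))))))))))))))))))))))))))))))) (.ct dC2c_c308 (nat_lit 1) (nat_lit 11) (.s true (nat_lit 1) (nat_lit 62) (nat_lit 2) (nat_lit 1) (nat_lit 2) true (nat_lit 11) true (nat_lit 16) false (nat_lit 5) true (nat_lit 16) true (nat_lit 17) (.e false (nat_lit 1) (nat_lit 62) (nat_lit 18) (nat_lit 5) (.e true (nat_lit 3) (nat_lit 205) (nat_lit 2) (nat_lit 16) (.e false (nat_lit 2) (nat_lit 206) (nat_lit 2) (nat_lit 16) (.e true (nat_lit 2) (nat_lit 207) (nat_lit 2) (nat_lit 16) (.e true (nat_lit 1) (nat_lit 208) (nat_lit 2) (nat_lit 16) (.e false (nat_lit 1) (nat_lit 210) (nat_lit 2) (nat_lit 16) (.e true (nat_lit 3) (nat_lit 211) (nat_lit 2) (nat_lit 16) (.e true (nat_lit 3) (nat_lit 213) (nat_lit 2) (nat_lit 16) (.e true (nat_lit 1) (nat_lit 214) (nat_lit 2) (nat_lit 16) (.e false (nat_lit 3) (nat_lit 215) (nat_lit 2) (nat_lit 16) (.e false (nat_lit 1) (nat_lit 216) (nat_lit 2) (nat_lit 16) (.e true (nat_lit 1) (nat_lit 219) (nat_lit 2) (nat_lit 16) (.e false (nat_lit 1) (nat_lit 220) (nat_lit 2) (nat_lit 16) (.e false (nat_lit 3) (nat_lit 225) (nat_lit 2) (nat_lit 16) (.e true (nat_lit 1) (nat_lit 227) (nat_lit 2) (nat_lit 16) (.e true (nat_lit 2) (nat_lit 231) (nat_lit 2) (nat_lit 16) (.e false (nat_lit 1) (nat_lit 242) (nat_lit 2) (nat_lit 16) (.e false (nat_lit 3) (nat_lit 245) (nat_lit 2) (nat_lit 16) (.e true (nat_lit 2) (nat_lit 248) (nat_lit 2) (nat_lit 16) (.e true (nat_lit 1) (nat_lit 251) (nat_lit 2) (nat_lit 16) (.e false (nat_lit 1) (nat_lit 254) (nat_lit 1) (nat_lit 17) (.u (nat_lit 2) (.n (nat_lit 0) (nat_lit 3) (.n (nat_lit 3) (nat_lit 2) (.p (nat_lit 4) (nat_lit 1) (.n (nat_lit 6) (nat_lit 1) (.p (nat_lit 7) (nat_lit 3) (.p (nat_lit 8) (nat_lit 4) (.n (nat_lit 9) (nat_lit 3) (.p (nat_lit 11) (nat_lit 2) (.n (nat_lit 12) (nat_lit 1) (.n (nat_lit 14) (nat_lit 1) (.p (nat_lit 15) (nat_lit 1) (.n (nat_lit 16) (nat_lit 3) (.n (nat_lit 17) (nat_lit 2) (.n (nat_lit 18) (nat_lit 1) (.p (nat_lit 19) (nat_lit 2) (.n (nat_lit 20) (nat_lit 1) (.p (nat_lit 21) (nat_lit 3) (.n (nat_lit 22) (nat_lit 3) (.p (nat_lit 23) (nat_lit 1) (.p (nat_lit 24) (nat_lit 2) (.p (nat_lit 28) (nat_lit 1) (.p (nat_lit 29) (nat_lit 1) (.n (nat_lit 32) (nat_lit 1) (.p (nat_lit 33) (nat_lit 1) (.p (nat_lit 34) (nat_lit 1) (.p (nat_lit 35) (nat_lit 1) (.p (nat_lit 37) (nat_lit 3) (.n (nat_lit 38) (nat_lit 1) (.p (nat_lit 42) (nat_lit 1) (.p (nat_lit 45) (nat_lit 2) (.p (nat_lit 46) (nat_lit 2) (.p (nat_lit 47) (nat_lit 1) (.n (nat_lit 50) (nat_lit 1) .z))))))))))))))))))))))))))))))))) .nil)))))))))))))))))))))))) .leaf))))) (nat_lit 122882) (nat_lit 413) (.p (nat_lit 219) (nat_lit 1) .z) .df (.nd (.nd (.nd (.nd (.nd (.nd .leaf (nat_lit 122887) (nat_lit 999) (.p (nat_lit 335) (nat_lit 2) (.p (nat_lit 336) (nat_lit 1) (.p (nat_lit 337) (nat_lit 2) (.n (nat_lit 338) (nat_lit 1) (.n (nat_lit 339) (nat_lit 2) (.p (nat_lit 340) (nat_lit 2) (.n (nat_lit 341) (nat_lit 3) (.p (nat_lit 342) (nat_lit 1) (.n (nat_lit 343) (nat_lit 1) (.n (nat_lit 344) (nat_lit 1) (.n (nat_lit 345) (nat_lit 3) (.n (nat_lit 346) (nat_lit 1) (.n (nat_lit 347) (nat_lit 2) (.n (nat_lit 349) (nat_lit 2) (.p (nat_lit 350) (nat_lit 3) (.p (nat_lit 351) (nat_lit 3) (.p (nat_lit 352) (nat_lit 3) (.n (nat_lit 353) (nat_lit 3) (.p (nat_lit 354) (nat_lit 2) (.n (nat_lit 356) (nat_lit 1) (.p (nat_lit 357) (nat_lit 1) (.n (nat_lit 358) (nat_lit 1) (.n (nat_lit 359) (nat_lit 1) (.n (nat_lit 360) (nat_lit 1) (.p (nat_lit 361) (nat_lit 3) (.n (nat_lit 362) (nat_lit 3) (.n (nat_lit 363) (nat_lit 2) (.n (nat_lit 364) (nat_lit 1) (.p (nat_lit 366) (nat_lit 3) (.n (nat_lit 367) (nat_lit 3) (.n (nat_lit 368) (nat_lit 2) (.p (nat_lit 369) (nat_lit 1) (.n (nat_lit 370) (nat_lit 2) (.p (nat_lit 371) (nat_lit 3) (.n (nat_lit 372) (nat_lit 1) (.p (nat_lit 373) (nat_lit 2) (.p (nat_lit 374) (nat_lit 2) (.p (nat_lit 380) (nat_lit 3) (.p (nat_lit 381) (nat_lit 2) (.p (nat_lit 382) (nat_lit 2) (.n (nat_lit 383) (nat_lit 1) (.p (nat_lit 387) (nat_lit 2) .z)))))))))))))))))))))))))))))))))))))))))) (.ct dC2c_c308 (nat_lit 1) (nat_lit 11) (.s true (nat_lit 1) (nat_lit 63) (nat_lit 2) (nat_lit 1) (nat_lit 2) true (nat_lit 11) true (nat_lit 16) false (nat_lit 5) true (nat_lit 16) true (nat_lit 17) (.e true (nat_lit 2) (nat_lit 234) (nat_lit 2) (nat_lit 16) (.e false (nat_lit 1) (nat_lit 63) (nat_lit 18) (nat_lit 5) dC2c_i76)))) .leaf) (nat_lit 123906) (nat_lit 414) (.p (nat_lit 220) (nat_lit 1) .z) .df .leaf) (nat_lit 123911) (nat_lit 1077) (.p (nat_lit 335) (nat_lit 1) (.p (nat_lit 336) (nat_lit 3) (.n (nat_lit 337) (nat_lit 1) (.n (nat_lit 340) (nat_lit 1) (.n (nat_lit 341) (nat_lit 3) (.p (nat_lit 343) (nat_lit 1) (.p (nat_lit 344) (nat_lit 1) (.p (nat_lit 345) (nat_lit 1) (.n (nat_lit 346) (nat_lit 3) (.p (nat_lit 347) (nat_lit 2) (.p (nat_lit 349) (nat_lit 2) (.p (nat_lit 350) (nat_lit 2) (.n (nat_lit 351) (nat_lit 3) (.p (nat_lit 352) (nat_lit 2) (.n (nat_lit 353) (nat_lit 2) (.n (nat_lit 354) (nat_lit 3) (.p (nat_lit 355) (nat_lit 2) (.n (nat_lit 356) (nat_lit 3) (.p (nat_lit 357) (nat_lit 3) (.p (nat_lit 358) (nat_lit 1) (.p (nat_lit 359) (nat_lit 1) (.n (nat_lit 360) (nat_lit 2) (.p (nat_lit 361) (nat_lit 1) (.n (nat_lit 362) (nat_lit 3) (.n (nat_lit 363) (nat_lit 2) (.n (nat_lit 366) (nat_lit 1) (.n (nat_lit 368) (nat_lit 2) (.p (nat_lit 369) (nat_lit 1) (.n (nat_lit 370) (nat_lit 2) (.n (nat_lit 371) (nat_lit 1) (.n (nat_lit 372) (nat_lit 2) (.p (nat_lit 373) (nat_lit 2) (.n (nat_lit 374) (nat_lit 2) (.p (nat_lit 380) (nat_lit 3) (.p (nat_lit 381) (nat_lit 2) (.p (nat_lit 382) (nat_lit 2) (.n (nat_lit 383) (nat_lit 1) (.p (nat_lit 386) (nat_lit 2) (.p (nat_lit 387) (nat_lit 2) .z))))))))))))))))))))))))))))))))))))))) (.ct dC2c_c308 (nat_lit 1) (nat_lit 11) (.s false (nat_lit 1) (nat_lit 34) (nat_lit 7) (nat_lit 1) (nat_lit 1) true (nat_lit 5) true (nat_lit 17) true (nat_lit 0) true (nat_lit 11) true (nat_lit 17) (.e true (nat_lit 1) (nat_lit 67) (nat_lit 19) (nat_lit 5) (.e true (nat_lit 2) (nat_lit 255) (nat_lit 1) (nat_lit 17) (.e false (nat_lit 1) (nat_lit 258) (nat_lit 1) (nat_lit 17) (.e false (nat_lit 3) (nat_lit 259) (nat_lit 1) (nat_lit 17) (.e true (nat_lit 1) (nat_lit 260) (nat_lit 1) (nat_lit 17) (.e true (nat_lit 1) (nat_lit 264) (nat_lit 1) (nat_lit 17) (.e true (nat_lit 3) (nat_lit 267) (nat_lit 1) (nat_lit 17) (.e false (nat_lit 1) (nat_lit 270) (nat_lit 1) (nat_lit 17) (.e false (nat_lit 1) (nat_lit 275) (nat_lit 1) (nat_lit 17) dC2c_i77))))))))))) (.nd (.nd .leaf (nat_lit 124930) (nat_lit 415) (.p (nat_lit 221) (nat_lit 1) .z) .df .leaf) (nat_lit 124935) (nat_lit 930) (.p (nat_lit 336) (nat_lit 1) (.p (nat_lit 337) (nat_lit 2) (.n (nat_lit 338) (nat_lit 3) (.p (nat_lit 339) (nat_lit 3) (.n (nat_lit 340) (nat_lit 3) (.n (nat_lit 341) (nat_lit 2) (.p (nat_lit 342) (nat_lit 3) (.n (nat_lit 343) (nat_lit 3) (.p (nat_lit 344) (nat_lit 1) (.p (nat_lit 346) (nat_lit 1) (.p (nat_lit 347) (nat_lit 2) (.n (nat_lit 349) (nat_lit 1) (.n (nat_lit 350) (nat_lit 1) (.n (nat_lit 351) (nat_lit 2) (.p (nat_lit 352) (nat_lit 2) (.p (nat_lit 353) (nat_lit 2) (.n (nat_lit 354) (nat_lit 2) (.p (nat_lit 355) (nat_lit 1) (.n (nat_lit 356) (nat_lit 2) (.p (nat_lit 357) (nat_lit 2) (.n (nat_lit 358) (nat_lit 1) (.n (nat_lit 359) (nat_lit 3) (.n (nat_lit 360) (nat_lit 3) (.n (nat_lit 361) (nat_lit 2) (.n (nat_lit 362) (nat_lit 3) (.p (nat_lit 363) (nat_lit 2) (.n (nat_lit 364) (nat_lit 2) (.p (nat_lit 366) (nat_lit 2) (.p (nat_lit 367) (nat_lit 1) (.p (nat_lit 368) (nat_lit 3) (.p (nat_lit 369) (nat_lit 1) (.n (nat_lit 370) (nat_lit 3) (.p (nat_lit 371) (nat_lit 2) (.n (nat_lit 372) (nat_lit 1) (.n (nat_lit 373) (nat_lit 3) (.p (nat_lit 374) (nat_lit 3) (.p (nat_lit 375) (nat_lit 1) (.n (nat_lit 377) (nat_lit 2) (.p (nat_lit 379) (nat_lit 1) (.p (nat_lit 380) (nat_lit 1) (.n (nat_lit 381) (nat_lit 1) (.n (nat_lit 382) (nat_lit 1) (.n (nat_lit 383) (nat_lit 3) (.p (nat_lit 387) (nat_lit 2) .z)))))))))))))))))))))))))))))))))))))))))))) (.ct dC2c_c308 (nat_lit 1) (nat_lit 11) (.s true (nat_lit 1) (nat_lit 7) (nat_lit 3) (nat_lit 7) (nat_lit 4) true (nat_lit 3) true (nat_lit 14) true (nat_lit 11) true (nat_lit 15) true (nat_lit 11) (.s true (nat_lit 1) (nat_lit 7) (nat_lit 4) (nat_lit 3) (nat_lit 7) false (nat_lit 0) true (nat_lit 11) true (nat_lit 11) true (nat_lit 14) true (nat_lit 15) (.s true (nat_lit 3) (nat_lit 8) (nat_lit 1) (nat_lit 7) (nat_lit 7) true (nat_lit 5) true (nat_lit 11) true (nat_lit 10) true (nat_lit 17) true (nat_lit 11) (.s false (nat_lit 2) (nat_lit 8) (nat_lit 2) (nat_lit 7) (nat_lit 6) true (nat_lit 5) true (nat_lit 12) true (nat_lit 10) true (nat_lit 16) true (nat_lit 11) (.s false (nat_lit 1) (nat_lit 8) (nat_lit 6) (nat_lit 2) (nat_lit 7) false (nat_lit 2) true (nat_lit 11) true (nat_lit 10) true (nat_lit 12) true (nat_lit 16) (.s false (nat_lit 1) (nat_lit 9) (nat_lit 7) (nat_lit 6) (nat_lit 2) true (nat_lit 4) true (nat_lit 16) true (nat_lit 10) true (nat_lit 11) true (nat_lit 12) (.s false (nat_lit 2) (nat_lit 10) (nat_lit 0) (nat_lit 7) (nat_lit 7) true (nat_lit 6) true (nat_lit 11) true (nat_lit 9) true (nat_lit 18) true (nat_lit 11) (.s true (nat_lit 1) (nat_lit 10) (nat_lit 5) (nat_lit 2) (nat_lit 7) false (nat_lit 1) true (nat_lit 11) true (nat_lit 9) true (nat_lit 13) true (nat_lit 16) (.s true (nat_lit 3) (nat_lit 10) (nat_lit 5) (nat_lit 7) (nat_lit 2) true (nat_lit 6) true (nat_lit 16) true (nat_lit 9) true (nat_lit 13) true (nat_lit 11) (.s false (nat_lit 2) (nat_lit 10) (nat_lit 7) (nat_lit 0) (nat_lit 7) false (nat_lit 3) true (nat_lit 11) true (nat_lit 9) true (nat_lit 11) true (nat_lit 18) (.s true (nat_lit 2) (nat_lit 11) (nat_lit 1) (nat_lit 7) (nat_lit 6) true (nat_lit 7) true (nat_lit 12) true (nat_lit 8) true (nat_lit 17) true (nat_lit 11) (.s false (nat_lit 3) (nat_lit 11) (nat_lit 2) (nat_lit 4) (nat_lit 7) true (nat_lit 4) true (nat_lit 11) true (nat_lit 8) true (nat_lit 16) true (nat_lit 14) (.s true (nat_lit 2) (nat_lit 13) (nat_lit 2) (nat_lit 7) (nat_lit 4) true (nat_lit 7) true (nat_lit 14) true (nat_lit 8) true (nat_lit 16) true (nat_lit 11) (.s true (nat_lit 1) (nat_lit 13) (nat_lit 4) (nat_lit 2) (nat_lit 7) false (nat_lit 0) true (nat_lit 11) true (nat_lit 8) true (nat_lit 14) true (nat_lit 16) (.s false (nat_lit 3) (nat_lit 11) (nat_lit 6) (nat_lit 6) (nat_lit 2) true (nat_lit 5) true (nat_lit 16) true (nat_lit 8) true (nat_lit 12) true (nat_lit 12) (.s true (nat_lit 3) (nat_lit 12) (nat_lit 6) (nat_lit 6) (nat_lit 2) true (nat_lit 5) true (nat_lit 16) true (nat_lit 8) true (nat_lit 12) true (nat_lit 12) (.s true (nat_lit 3) (nat_lit 11) (nat_lit 7) (nat_lit 6) (nat_lit 1) true (nat_lit 5) true (nat_lit 17) true (nat_lit 8) true (nat_lit 11) true (nat_lit 12) (.s true (nat_lit 2) (nat_lit 14) (nat_lit 2) (nat_lit 2) (nat_lit 11) true (nat_lit 0) true (nat_lit 8) true (nat_lit 7) true (nat_lit 16) true (nat_lit 16) (.s true (nat_lit 1) (nat_lit 15) (nat_lit 7) (nat_lit 3) (nat_lit 2) true (nat_lit 4) true (nat_lit 16) true (nat_lit 7) true (nat_lit 11) true (nat_lit 15) dC2c_i87)))))))))))))))))))) .leaf)) (nat_lit 125954) (nat_lit 416) (.p (nat_lit 222) (nat_lit 1) .z) .df (.nd (.nd (.nd .leaf (nat_lit 125959) (nat_lit 974) (.p (nat_lit 335) (nat_lit 3) (.p (nat_lit 336) (nat_lit 2) (.n (nat_lit 337) (nat_lit 3) (.n (nat_lit 338) (nat_lit 3) (.p (nat_lit 339) (nat_lit 1) (.n (nat_lit 340) (nat_lit 1) (.n (nat_lit 341) (nat_lit 1) (.n (nat_lit 343) (nat_lit 2) (.n (nat_lit 344) (nat_lit 3) (.n (nat_lit 345) (nat_lit 2) (.p (nat_lit 346) (nat_lit 3) (.p (nat_lit 347) (nat_lit 1) (.n (nat_lit 349) (nat_lit 2) (.p (nat_lit 350) (nat_lit 2) (.n (nat_lit 351) (nat_lit 1) (.p (nat_lit 352) (nat_lit 3) (.p (nat_lit 354) (nat_lit 2) (.n (nat_lit 355) (nat_lit 3) (.p (nat_lit 356) (nat_lit 3) (.n (nat_lit 357) (nat_lit 3) (.n (nat_lit 358) (nat_lit 2) (.p (nat_lit 359) (nat_lit 1) (.p (nat_lit 360) (nat_lit 1) (.p (nat_lit 361) (nat_lit 2) (.n (nat_lit 362) (nat_lit 3) (.p (nat_lit 363) (nat_lit 3) (.n (nat_lit 364) (nat_lit 2) (.p (nat_lit 367) (nat_lit 1) (.p (nat_lit 368) (nat_lit 1) (.p (nat_lit 369) (nat_lit 1) (.p (nat_lit 370) (nat_lit 1) (.n (nat_lit 371) (nat_lit 3) (.p (nat_lit 372) (nat_lit 1) (.n (nat_lit 373) (nat_lit 1) (.n (nat_lit 374) (nat_lit 2) (.p (nat_lit 375) (nat_lit 1) (.n (nat_lit 379) (nat_lit 1) (.p (nat_lit 380) (nat_lit 1) (.n (nat_lit 382) (nat_lit 2) (.p (nat_lit 383) (nat_lit 1) .z)))))))))))))))))))))))))))))))))))))))) (.ct dC2c_c308 (nat_lit 1) (nat_lit 11) (.s true (nat_lit 1) (nat_lit 66) (nat_lit 2) (nat_lit 1) (nat_lit 2) true (nat_lit 11) true (nat_lit 16) false (nat_lit 5) true (nat_lit 16) true (nat_lit 17) (.e false (nat_lit 1) (nat_lit 66) (nat_lit 18) (nat_lit 5) (.e false (nat_lit 3) (nat_lit 205) (nat_lit 2) (nat_lit 16) (.e false (nat_lit 2) (nat_lit 206) (nat_lit 2) (nat_lit 16) (.e true (nat_lit 2) (nat_lit 207) (nat_lit 2) (nat_lit 16) (.e true (nat_lit 1) (nat_lit 208) (nat_lit 2) (nat_lit 16) (.e true (nat_lit 2) (nat_lit 209) (nat_lit 2) (nat_lit 16) (.e false (nat_lit 1) (nat_lit 210) (nat_lit 2) (nat_lit 16) dC2c_i88))))))))) .leaf) (nat_lit 126978) (nat_lit 417) (.p (nat_lit 223) (nat_lit 1) .z) .df .leaf) (nat_lit 126983) (nat_lit 983) (.n (nat_lit 335) (nat_lit 2) (.p (nat_lit 336) (nat_lit 1) (.p (nat_lit 337) (nat_lit 2) (.p (nat_lit 338) (nat_lit 1) (.p (nat_lit 339) (nat_lit 2) (.n (nat_lit 341) (nat_lit 3) (.n (nat_lit 342) (nat_lit 3) (.n (nat_lit 344) (nat_lit 3) (.n (nat_lit 345) (nat_lit 1) (.p (nat_lit 346) (nat_lit 1) (.p (nat_lit 347) (nat_lit 3) (.p (nat_lit 349) (nat_lit 2) (.p (nat_lit 350) (nat_lit 1) (.p (nat_lit 351) (nat_lit 3) (.p (nat_lit 352) (nat_lit 1) (.n (nat_lit 353) (nat_lit 1) (.n (nat_lit 354) (nat_lit 3) (.n (nat_lit 356) (nat_lit 3) (.p (nat_lit 357) (nat_lit 3) (.p (nat_lit 358) (nat_lit 2) (.n (nat_lit 359) (nat_lit 3) (.p (nat_lit 360) (nat_lit 1) (.n (nat_lit 361) (nat_lit 3) (.n (nat_lit 363) (nat_lit 3) (.n (nat_lit 366) (nat_lit 3) (.p (nat_lit 368) (nat_lit 2) (.p (nat_lit 369) (nat_lit 1) (.p (nat_lit 370) (nat_lit 2) (.n (nat_lit 372) (nat_lit 2) (.n (nat_lit 373) (nat_lit 2) (.n (nat_lit 374) (nat_lit 1) (.p (nat_lit 380) (nat_lit 2) (.n (nat_lit 381) (nat_lit 1) (.p (nat_lit 382) (nat_lit 3) (.p (nat_lit 383) (nat_lit 2) (.p (nat_lit 388) (nat_lit 2) .z)))))))))))))))))))))))))))))))))))) (.ct dC2c_c308 (nat_lit 1) (nat_lit 11) (.s true (nat_lit 1) (nat_lit 67) (nat_lit 2) (nat_lit 1) (nat_lit 2) true (nat_lit 11) true (nat_lit 16) false (nat_lit 5) true (nat_lit 16) true (nat_lit 17) (.e false (nat_lit 3) (nat_lit 205) (nat_lit 2) (nat_lit 16) (.e false (nat_lit 2) (nat_lit 206) (nat_lit 2) (nat_lit 16) (.e true (nat_lit 1) (nat_lit 207) (nat_lit 2) (nat_lit 16) (.e true (nat_lit 1) (nat_lit 208) (nat_lit 2) (nat_lit 16) (.e true (nat_lit 1) (nat_lit 209) (nat_lit 2) (nat_lit 16) (.e true (nat_lit 3) (nat_lit 210) (nat_lit 2) (nat_lit 16) (.e false (nat_lit 3) (nat_lit 212) (nat_lit 2) (nat_lit 16) (.e false (nat_lit 3) (nat_lit 213) (nat_lit 2) (nat_lit 16) dC2c_i89)))))))))) (.nd (.nd .leaf (nat_lit 128002) (nat_lit 418) (.p (nat_lit 224) (nat_lit 1) .z) .df .leaf) (nat_lit 129026) (nat_lit 419) (.p (nat_lit 225) (nat_lit 1) .z) .df .leaf))) (nat_lit 129031) (nat_lit 964) (.p (nat_lit 335) (nat_lit 3) (.p (nat_lit 336) (nat_lit 2) (.n (nat_lit 337) (nat_lit 3) (.p (nat_lit 338) (nat_lit 1) (.n (nat_lit 339) (nat_lit 2) (.p (nat_lit 341) (nat_lit 3) (.n (nat_lit 342) (nat_lit 2) (.p (nat_lit 343) (nat_lit 3) (.p (nat_lit 344) (nat_lit 1) (.n (nat_lit 345) (nat_lit 2) (.n (nat_lit 346) (nat_lit 1) (.p (nat_lit 347) (nat_lit 1) (.p (nat_lit 349) (nat_lit 1) (.n (nat_lit 350) (nat_lit 3) (.p (nat_lit 351) (nat_lit 2) (.n (nat_lit 352) (nat_lit 3) (.n (nat_lit 354) (nat_lit 2) (.p (nat_lit 355) (nat_lit 1) (.p (nat_lit 356) (nat_lit 3) (.n (nat_lit 357) (nat_lit 3) (.p (nat_lit 358) (nat_lit 1) (.n (nat_lit 359) (nat_lit 2) (.n (nat_lit 360) (nat_lit 3) (.n (nat_lit 362) (nat_lit 3) (.p (nat_lit 363) (nat_lit 3) (.n (nat_lit 364) (nat_lit 3) (.n (nat_lit 367) (nat_lit 2) (.p (nat_lit 369) (nat_lit 3) (.p (nat_lit 370) (nat_lit 1) (.n (nat_lit 371) (nat_lit 1) (.n (nat_lit 372) (nat_lit 1) (.n (nat_lit 374) (nat_lit 2) (.n (nat_lit 375) (nat_lit 2) (.n (nat_lit 377) (nat_lit 3) (.n (nat_lit 379) (nat_lit 2) (.p (nat_lit 380) (nat_lit 2) (.p (nat_lit 382) (nat_lit 1) (.p (nat_lit 383) (nat_lit 3) .z)))))))))))))))))))))))))))))))))))))) (.ct dC2c_c308 (nat_lit 1) (nat_lit 11) (.s true (nat_lit 1) (nat_lit 72) (nat_lit 2) (nat_lit 1) (nat_lit 2) true (nat_lit 11) true (nat_lit 16) false (nat_lit 5) true (nat_lit 16) true (nat_lit 17) (.e false (nat_lit 3) (nat_lit 205) (nat_lit 2) (nat_lit 16) (.e false (nat_lit 1) (nat_lit 208) (nat_lit 2) (nat_lit 16) (.e false (nat_lit 3) (nat_lit 215) (nat_lit 2) (nat_lit 16) (.e false (nat_lit 3) (nat_lit 216) (nat_lit 2) (nat_lit 16) (.e false (nat_lit 3) (nat_lit 225) (nat_lit 2) (nat_lit 16) (.e true (nat_lit 3) (nat_lit 227) (nat_lit 2) (nat_lit 16) (.e false (nat_lit 1) (nat_lit 245) (nat_lit 2) (nat_lit 16) (.e true (nat_lit 1) (nat_lit 248) (nat_lit 2) (nat_lit 16) (.e false (nat_lit 1) (nat_lit 72) (nat_lit 18) (nat_lit 5) (.e true (nat_lit 1) (nat_lit 251) (nat_lit 2) (nat_lit 16) (.e false (nat_lit 1) (nat_lit 264) (nat_lit 1) (nat_lit 17) (.u (nat_lit 2) (.n (nat_lit 0) (nat_lit 3) (.n (nat_lit 1) (nat_lit 2) (.p (nat_lit 2) (nat_lit 3) (.n (nat_lit 3) (nat_lit 4) (.p (nat_lit 4) (nat_lit 1) (.p (nat_lit 7) (nat_lit 4) (.p (nat_lit 8) (nat_lit 1) (.n (nat_lit 9) (nat_lit 2) (.p (nat_lit 11) (nat_lit 1) (.n (nat_lit 16) (nat_lit 2) (.n (nat_lit 17) (nat_lit 1) (.n (nat_lit 18) (nat_lit 2) (.p (nat_lit 19) (nat_lit 1) (.n (nat_lit 20) (nat_lit 1) (.n (nat_lit 23) (nat_lit 1) (.n (nat_lit 27) (nat_lit 2) (.p (nat_lit 28) (nat_lit 1) (.p (nat_lit 29) (nat_lit 1) (.p (nat_lit 32) (nat_lit 1) (.p (nat_lit 34) (nat_lit 2) (.n (nat_lit 36) (nat_lit 1) (.p (nat_lit 37) (nat_lit 2) (.p (nat_lit 39) (nat_lit 1) (.p (nat_lit 40) (nat_lit 1) (.p (nat_lit 42) (nat_lit 2) (.p (nat_lit 44) (nat_lit 1) (.p (nat_lit 45) (nat_lit 3) (.p (nat_lit 46) (nat_lit 1) (.p (nat_lit 47) (nat_lit 1) (.n (nat_lit 48) (nat_lit 2) (.n (nat_lit 302) (nat_lit 1) (.n (nat_lit 305) (nat_lit 1) (.n (nat_lit 312) (nat_lit 1) (.n (nat_lit 313) (nat_lit 1) (.p (nat_lit 324) (nat_lit 1) .z))))))))))))))))))))))))))))))))))) .nil)))))))))))))) (.nd (.nd (.nd (.nd .leaf (nat_lit 130050) (nat_lit 420) (.p (nat_lit 226) (nat_lit 1) .z) .df .leaf) (nat_lit 130055) (nat_lit 1011) (.n (nat_lit 335) (nat_lit 1) (.n (nat_lit 336) (nat_lit 2) (.p (nat_lit 337) (nat_lit 3) (.p (nat_lit 338) (nat_lit 3) (.n (nat_lit 339) (nat_lit 1) (.n (nat_lit 340) (nat_lit 1) (.n (nat_lit 341) (nat_lit 3) (.n (nat_lit 342) (nat_lit 3) (.n (nat_lit 344) (nat_lit 1) (.n (nat_lit 345) (nat_lit 1) (.p (nat_lit 346) (nat_lit 1) (.n (nat_lit 347) (nat_lit 3) (.p (nat_lit 349) (nat_lit 1) (.n (nat_lit 350) (nat_lit 1) (.n (nat_lit 351) (nat_lit 2) (.p (nat_lit 352) (nat_lit 2) (.p (nat_lit 353) (nat_lit 1) (.p (nat_lit 354) (nat_lit 3) (.n (nat_lit 355) (nat_lit 2) (.n (nat_lit 356) (nat_lit 3) (.p (nat_lit 357) (nat_lit 3) (.p (nat_lit 358) (nat_lit 2) (.n (nat_lit 359) (nat_lit 1) (.p (nat_lit 360) (nat_lit 2) (.p (nat_lit 361) (nat_lit 2) (.p (nat_lit 362) (nat_lit 2) (.p (nat_lit 363) (nat_lit 1) (.p (nat_lit 364) (nat_lit 2) (.p (nat_lit 366) (nat_lit 2) (.n (nat_lit 367) (nat_lit 1) (.n (nat_lit 369) (nat_lit 3) (.p (nat_lit 370) (nat_lit 1) (.n (nat_lit 371) (nat_lit 3) (.n (nat_lit 372) (nat_lit 3) (.n (nat_lit 374) (nat_lit 1) (.p (nat_lit 375) (nat_lit 1) (.n (nat_lit 379) (nat_lit 1) (.p (nat_lit 380) (nat_lit 1) (.n (nat_lit 382) (nat_lit 2) (.p (nat_lit 383) (nat_lit 1) (.p (nat_lit 386) (nat_lit 2) .z))))))))))))))))))))))))))))))))))))))))) (.ct dC2c_c308 (nat_lit 1) (nat_lit 11) (.s true (nat_lit 1) (nat_lit 73) (nat_lit 2) (nat_lit 1) (nat_lit 2) true (nat_lit 11) true (nat_lit 16) false (nat_lit 5) true (nat_lit 16) true (nat_lit 17) (.e true (nat_lit 1) (nat_lit 205) (nat_lit 2) (nat_lit 16) (.e false (nat_lit 1) (nat_lit 208) (nat_lit 2) (nat_lit 16) (.e true (nat_lit 2) (nat_lit 211) (nat_lit 2) (nat_lit 16) (.e false (nat_lit 2) (nat_lit 213) (nat_lit 2) (nat_lit 16) (.e true (nat_lit 3) (nat_lit 216) (nat_lit 2) (nat_lit 16) (.e true (nat_lit 1) (nat_lit 217) (nat_lit 2) (nat_lit 16) (.e false (nat_lit 1) (nat_lit 218) (nat_lit 2) (nat_lit 16) (.e false (nat_lit 3) (nat_lit 219) (nat_lit 2) (nat_lit 16) (.e true (nat_lit 3) (nat_lit 221) (nat_lit 2) (nat_lit 16) (.e false (nat_lit 1) (nat_lit 222) (nat_lit 2) (nat_lit 16) (.e true (nat_lit 1) (nat_lit 225) (nat_lit 2) (nat_lit 16) (.e false (nat_lit 2) (nat_lit 227) (nat_lit 2) (nat_lit 16) (.e false (nat_lit 1) (nat_lit 228) (nat_lit 2) (nat_lit 16) (.e false (nat_lit 2) (nat_lit 229) (nat_lit 2) (nat_lit 16) (.e false (nat_lit 2) (nat_lit 230) (nat_lit 2) (nat_lit 16) (.e true (nat_lit 1) (nat_lit 246) (nat_lit 2) (nat_lit 16) (.e true (nat_lit 1) (nat_lit 247) (nat_lit 2) (nat_lit 16) (.e false (nat_lit 2) (nat_lit 251) (nat_lit 2) (nat_lit 16) (.e false (nat_lit 1) (nat_lit 73) (nat_lit 18) (nat_lit 5) (.e false (nat_lit 1) (nat_lit 265) (nat_lit 1) (nat_lit 17) (.u (nat_lit 2) (.p (nat_lit 0) (nat_lit 1) (.p (nat_lit 1) (nat_lit 2) (.n (nat_lit 2) (nat_lit 2) (.p (nat_lit 3) (nat_lit 2) (.n (nat_lit 4) (nat_lit 1) (.p (nat_lit 5) (nat_lit 2) (.n (nat_lit 6) (nat_lit 1) (.n (nat_lit 7) (nat_lit 1) (.n (nat_lit 8) (nat_lit 1) (.p (nat_lit 10) (nat_lit 1) (.p (nat_lit 11) (nat_lit 1) (.n (nat_lit 12) (nat_lit 2) (.p (nat_lit 15) (nat_lit 3) (.p (nat_lit 17) (nat_lit 2) (.p (nat_lit 18) (nat_lit 3) (.p (nat_lit 19) (nat_lit 2) (.p (nat_lit 20) (nat_lit 1) (.p (nat_lit 21) (nat_lit 2) (.n (nat_lit 22) (nat_lit 2) (.p (nat_lit 25) (nat_lit 2) (.p (nat_lit 27) (nat_lit 1) (.n (nat_lit 28) (nat_lit 3) (.n (nat_lit 31) (nat_lit 1) (.p (nat_lit 32) (nat_lit 1) (.n (nat_lit 33) (nat_lit 1) (.p (nat_lit 34) (nat_lit 1) (.n (nat_lit 35) (nat_lit 1) (.n (nat_lit 36) (nat_lit 2) (.n (nat_lit 37) (nat_lit 2) (.p (nat_lit 38) (nat_lit 1) (.p (nat_lit 39) (nat_lit 1) (.n (nat_lit 40) (nat_lit 1) (.p (nat_lit 44) (nat_lit 1) (.n (nat_lit 46) (nat_lit 1) (.p (nat_lit 47) (nat_lit 3) (.p (nat_lit 48) (nat_lit 1) (.n (nat_lit 316) (nat_lit 1) (.p (nat_lit 322) (nat_lit 1) (.n (nat_lit 348) (nat_lit 1) .z))))))))))))))))))))))))))))))))))))))) .nil))))))))))))))))))))))) .leaf) (nat_lit 131074) (nat_lit 421) (.p (nat_lit 227) (nat_lit 1) .z) .df (.nd (.nd .leaf (nat_lit 131079) (nat_lit 958) (.n (nat_lit 335) (nat_lit 2) (.p (nat_lit 336) (nat_lit 1) (.p (nat_lit 337) (nat_lit 2) (.p (nat_lit 340) (nat_lit 1) (.n (nat_lit 341) (nat_lit 2) (.p (nat_lit 342) (nat_lit 2) (.n (nat_lit 343) (nat_lit 1) (.p (nat_lit 344) (nat_lit 2) (.p (nat_lit 345) (nat_lit 2) (.n (nat_lit 346) (nat_lit 3) (.p (nat_lit 349) (nat_lit 1) (.n (nat_lit 350) (nat_lit 1) (.p (nat_lit 351) (nat_lit 1) (.p (nat_lit 352) (nat_lit 3) (.p (nat_lit 353) (nat_lit 2) (.p (nat_lit 354) (nat_lit 1) (.p (nat_lit 355) (nat_lit 3) (.n (nat_lit 356) (nat_lit 1) (.p (nat_lit 357) (nat_lit 1) (.p (nat_lit 358) (nat_lit 2) (.n (nat_lit 359) (nat_lit 3) (.n (nat_lit 360) (nat_lit 3) (.p (nat_lit 361) (nat_lit 1) (.p (nat_lit 362) (nat_lit 3) (.n (nat_lit 363) (nat_lit 3) (.n (nat_lit 364) (nat_lit 3) (.n (nat_lit 366) (nat_lit 1) (.n (nat_lit 367) (nat_lit 2) (.n (nat_lit 368) (nat_lit 1) (.p (nat_lit 369) (nat_lit 2) (.n (nat_lit 370) (nat_lit 1) (.p (nat_lit 371) (nat_lit 3) (.n (nat_lit 372) (nat_lit 3) (.p (nat_lit 373) (nat_lit 1) (.p (nat_lit 374) (nat_lit 1) (.p (nat_lit 380) (nat_lit 2) (.p (nat_lit 381) (nat_lit 1) (.n (nat_lit 382) (nat_lit 3) (.n (nat_lit 383) (nat_lit 2) .z))))))))))))))))))))))))))))))))))))))) (.ct dC2c_c308 (nat_lit 1) (nat_lit 11) (.s false (nat_lit 3) (nat_lit 21) (nat_lit 2) (nat_lit 2) (nat_lit 7) true (nat_lit 4) true (nat_lit 11) true (nat_lit 3) true (nat_lit 16) true (nat_lit 16) (.s true (nat_lit 3) (nat_lit 21) (nat_lit 2) (nat_lit 7) (nat_lit 2) true (nat_lit 11) true (nat_lit 16) true (nat_lit 3) true (nat_lit 16) true (nat_lit 11) (.s true (nat_lit 3) (nat_lit 21) (nat_lit 7) (nat_lit 2) (nat_lit 2) true (nat_lit 4) true (nat_lit 16) true (nat_lit 3) true (nat_lit 11) true (nat_lit 16) (.e false (nat_lit 2) (nat_lit 245) (nat_lit 2) (nat_lit 16) (.u (nat_lit 2) (.n (nat_lit 1) (nat_lit 1) (.n (nat_lit 5) (nat_lit 1) (.p (nat_lit 8) (nat_lit 1) (.p (nat_lit 11) (nat_lit 1) (.n (nat_lit 14) (nat_lit 1) (.p (nat_lit 15) (nat_lit 1) (.n (nat_lit 16) (nat_lit 1) (.n (nat_lit 17) (nat_lit 1) (.n (nat_lit 19) (nat_lit 1) (.n (nat_lit 20) (nat_lit 1) (.p (nat_lit 21) (nat_lit 1) (.n (nat_lit 22) (nat_lit 1) (.p (nat_lit 24) (nat_lit 1) (.p (nat_lit 25) (nat_lit 1) (.n (nat_lit 26) (nat_lit 1) (.n (nat_lit 27) (nat_lit 1) (.p (nat_lit 28) (nat_lit 1) (.p (nat_lit 29) (nat_lit 1) (.p (nat_lit 31) (nat_lit 1) (.p (nat_lit 33) (nat_lit 1) (.p (nat_lit 35) (nat_lit 1) (.n (nat_lit 36) (nat_lit 1) (.p (nat_lit 37) (nat_lit 1) (.n (nat_lit 38) (nat_lit 1) (.n (nat_lit 39) (nat_lit 1) (.n (nat_lit 46) (nat_lit 1) (.p (nat_lit 47) (nat_lit 1) (.p (nat_lit 235) (nat_lit 1) (.n (nat_lit 342) (nat_lit 2) .z))))))))))))))))))))))))))))) .nil)))))) .leaf) (nat_lit 132098) (nat_lit 422) (.p (nat_lit 228) (nat_lit 1) .z) .df .leaf)) (nat_lit 132103) (nat_lit 923) (.p (nat_lit 335) (nat_lit 3) (.p (nat_lit 336) (nat_lit 3) (.n (nat_lit 337) (nat_lit 1) (.n (nat_lit 338) (nat_lit 1) (.n (nat_lit 339) (nat_lit 2) (.p (nat_lit 340) (nat_lit 3) (.n (nat_lit 341) (nat_lit 3) (.p (nat_lit 342) (nat_lit 2) (.n (nat_lit 343) (nat_lit 3) (.p (nat_lit 344) (nat_lit 3) (.n (nat_lit 345) (nat_lit 3) (.n (nat_lit 346) (nat_lit 2) (.n (nat_lit 347) (nat_lit 3) (.p (nat_lit 350) (nat_lit 1) (.p (nat_lit 351) (nat_lit 3) (.p (nat_lit 352) (nat_lit 1) (.n (nat_lit 353) (nat_lit 3) (.p (nat_lit 354) (nat_lit 3) (.p (nat_lit 356) (nat_lit 3) (.n (nat_lit 357) (nat_lit 3) (.p (nat_lit 358) (nat_lit 2) (.p (nat_lit 363) (nat_lit 3) (.n (nat_lit 364) (nat_lit 1) (.n (nat_lit 366) (nat_lit 2) (.n (nat_lit 367) (nat_lit 3) (.p (nat_lit 368) (nat_lit 2) (.p (nat_lit 369) (nat_lit 1) (.n (nat_lit 370) (nat_lit 3) (.n (nat_lit 371) (nat_lit 3) (.p (nat_lit 372) (nat_lit 3) (.n (nat_lit 373) (nat_lit 2) (.p (nat_lit 374) (nat_lit 3) (.n (nat_lit 380) (nat_lit 3) (.p (nat_lit 381) (nat_lit 2) (.p (nat_lit 382) (nat_lit 1) (.p (nat_lit 383) (nat_lit 3) .z)))))))))))))))))))))))))))))))))))) (.ct dC2c_c308 (nat_lit 1) (nat_lit 11) (.s false (nat_lit 3) (nat_lit 22) (nat_lit 2) (nat_lit 2) (nat_lit 7) true (nat_lit 4) true (nat_lit 11) true (nat_lit 3) true (nat_lit 16) true (nat_lit 16) (.s true (nat_lit 3) (nat_lit 22) (nat_lit 2) (nat_lit 7) (nat_lit 2) true (nat_lit 11) true (nat_lit 16) true (nat_lit 3) true (nat_lit 16) true (nat_lit 11) (.s true (nat_lit 3) (nat_lit 22) (nat_lit 7) (nat_lit 2) (nat_lit 2) true (nat_lit 4) true (nat_lit 16) true (nat_lit 3) true (nat_lit 11) true (nat_lit 16) (.e false (nat_lit 2) (nat_lit 246) (nat_lit 2) (nat_lit 16) (.u (nat_lit 2) (.n (nat_lit 0) (nat_lit 1) (.n (nat_lit 1) (nat_lit 1) (.p (nat_lit 2) (nat_lit 1) (.p (nat_lit 3) (nat_lit 1) (.n (nat_lit 5) (nat_lit 1) (.p (nat_lit 6) (nat_lit 1) (.p (nat_lit 8) (nat_lit 1) (.n (nat_lit 9) (nat_lit 1) (.p (nat_lit 10) (nat_lit 1) (.p (nat_lit 12) (nat_lit 1) (.n (nat_lit 15) (nat_lit 1) (.n (nat_lit 16) (nat_lit 1) (.n (nat_lit 17) (nat_lit 1) (.p (nat_lit 18) (nat_lit 1) (.n (nat_lit 19) (nat_lit 1) (.n (nat_lit 21) (nat_lit 1) (.p (nat_lit 22) (nat_lit 1) (.n (nat_lit 28) (nat_lit 1) (.p (nat_lit 29) (nat_lit 1) (.p (nat_lit 32) (nat_lit 1) (.n (nat_lit 34) (nat_lit 1) (.p (nat_lit 35) (nat_lit 1) (.p (nat_lit 36) (nat_lit 1) (.n (nat_lit 37) (nat_lit 1) (.n (nat_lit 39) (nat_lit 1) (.p (nat_lit 45) (nat_lit 1) (.n (nat_lit 47) (nat_lit 1) (.n (nat_lit 48) (nat_lit 1) (.p (nat_lit 236) (nat_lit 1) (.n (nat_lit 343) (nat_lit 2) .z)))))))))))))))))))))))))))))) .nil)))))) (.nd (.nd (.nd .leaf (nat_lit 133122) (nat_lit 423) (.p (nat_lit 229) (nat_lit 1) .z) .df .leaf) (nat_lit 133127) (nat_lit 938) (.n (nat_lit 336) (nat_lit 2) (.p (nat_lit 337) (nat_lit 3) (.n (nat_lit 341) (nat_lit 2) (.p (nat_lit 342) (nat_lit 3) (.n (nat_lit 343) (nat_lit 3) (.n (nat_lit 344) (nat_lit 2) (.p (nat_lit 345) (nat_lit 2) (.p (nat_lit 347) (nat_lit 3) (.p (nat_lit 349) (nat_lit 1) (.p (nat_lit 350) (nat_lit 1) (.p (nat_lit 351) (nat_lit 3) (.n (nat_lit 352) (nat_lit 2) (.p (nat_lit 353) (nat_lit 1) (.p (nat_lit 355) (nat_lit 1) (.p (nat_lit 356) (nat_lit 2) (.n (nat_lit 357) (nat_lit 2) (.n (nat_lit 358) (nat_lit 3) (.p (nat_lit 359) (nat_lit 1) (.p (nat_lit 360) (nat_lit 1) (.p (nat_lit 361) (nat_lit 3) (.p (nat_lit 362) (nat_lit 3) (.n (nat_lit 363) (nat_lit 3) (.n (nat_lit 364) (nat_lit 2) (.p (nat_lit 366) (nat_lit 1) (.p (nat_lit 367) (nat_lit 1) (.n (nat_lit 368) (nat_lit 2) (.p (nat_lit 369) (nat_lit 2) (.n (nat_lit 370) (nat_lit 2) (.n (nat_lit 371) (nat_lit 3) (.n (nat_lit 372) (nat_lit 3) (.p (nat_lit 373) (nat_lit 2) (.p (nat_lit 374) (nat_lit 3) .z)))))))))))))))))))))))))))))))) (.ct dC2c_c308 (nat_lit 1) (nat_lit 11) (.s false (nat_lit 3) (nat_lit 23) (nat_lit 2) (nat_lit 2) (nat_lit 7) true (nat_lit 4) true (nat_lit 11) true (nat_lit 3) true (nat_lit 16) true (nat_lit 16) (.s true (nat_lit 3) (nat_lit 23) (nat_lit 2) (nat_lit 7) (nat_lit 2) true (nat_lit 11) true (nat_lit 16) true (nat_lit 3) true (nat_lit 16) true (nat_lit 11) (.s true (nat_lit 3) (nat_lit 23) (nat_lit 7) (nat_lit 2) (nat_lit 2) true (nat_lit 4) true (nat_lit 16) true (nat_lit 3) true (nat_lit 11) true (nat_lit 16) (.e false (nat_lit 2) (nat_lit 247) (nat_lit 2) (nat_lit 16) (.u (nat_lit 2) (.n (nat_lit 2) (nat_lit 1) (.n (nat_lit 7) (nat_lit 1) (.p (nat_lit 8) (nat_lit 1) (.n (nat_lit 12) (nat_lit 1) (.n (nat_lit 14) (nat_lit 1) (.n (nat_lit 15) (nat_lit 1) (.n (nat_lit 16) (nat_lit 1) (.n (nat_lit 18) (nat_lit 1) (.n (nat_lit 20) (nat_lit 1) (.p (nat_lit 23) (nat_lit 1) (.n (nat_lit 24) (nat_lit 1) (.n (nat_lit 25) (nat_lit 1) (.n (nat_lit 26) (nat_lit 1) (.n (nat_lit 27) (nat_lit 1) (.p (nat_lit 28) (nat_lit 1) (.n (nat_lit 31) (nat_lit 1) (.n (nat_lit 32) (nat_lit 1) (.p (nat_lit 36) (nat_lit 1) (.p (nat_lit 37) (nat_lit 1) (.n (nat_lit 39) (nat_lit 1) (.p (nat_lit 237) (nat_lit 1) (.n (nat_lit 344) (nat_lit 2) .z)))))))))))))))))))))) .nil)))))) .leaf) (nat_lit 134146) (nat_lit 424) (.p (nat_lit 230) (nat_lit 1) .z) .df (.nd .leaf (nat_lit 134151) (nat_lit 955) (.n (nat_lit 335) (nat_lit 1) (.p (nat_lit 336) (nat_lit 3) (.n (nat_lit 337) (nat_lit 1) (.p (nat_lit 338) (nat_lit 3) (.p (nat_lit 339) (nat_lit 2) (.p (nat_lit 340) (nat_lit 2) (.p (nat_lit 341) (nat_lit 3) (.n (nat_lit 343) (nat_lit 1) (.n (nat_lit 344) (nat_lit 2) (.n (nat_lit 347) (nat_lit 2) (.p (nat_lit 349) (nat_lit 2) (.n (nat_lit 350) (nat_lit 1) (.p (nat_lit 351) (nat_lit 2) (.n (nat_lit 352) (nat_lit 3) (.p (nat_lit 353) (nat_lit 1) (.n (nat_lit 354) (nat_lit 2) (.n (nat_lit 355) (nat_lit 1) (.p (nat_lit 358) (nat_lit 2) (.n (nat_lit 359) (nat_lit 1) (.p (nat_lit 360) (nat_lit 3) (.p (nat_lit 361) (nat_lit 3) (.n (nat_lit 362) (nat_lit 1) (.n (nat_lit 363) (nat_lit 1) (.n (nat_lit 364) (nat_lit 1) (.n (nat_lit 366) (nat_lit 3) (.n (nat_lit 367) (nat_lit 3) (.n (nat_lit 368) (nat_lit 3) (.n (nat_lit 370) (nat_lit 1) (.n (nat_lit 371) (nat_lit 1) (.p (nat_lit 372) (nat_lit 2) (.p (nat_lit 373) (nat_lit 3) (.n (nat_lit 375) (nat_lit 2) (.n (nat_lit 377) (nat_lit 3) (.n (nat_lit 379) (nat_lit 2) (.p (nat_lit 380) (nat_lit 3) (.p (nat_lit 381) (nat_lit 3) (.n (nat_lit 382) (nat_lit 1) (.n (nat_lit 383) (nat_lit 1) .z)))))))))))))))))))))))))))))))))))))) (.ct dC2c_c308 (nat_lit 1) (nat_lit 11) (.s true (nat_lit 1) (nat_lit 18) (nat_lit 9) (nat_lit 2) (nat_lit 2) true (nat_lit 2) true (nat_lit 16) true (nat_lit 5) true (nat_lit 10) true (nat_lit 16) (.s false (nat_lit 1) (nat_lit 25) (nat_lit 2) (nat_lit 6) (nat_lit 2) true (nat_lit 11) true (nat_lit 16) true (nat_lit 2) true (nat_lit 16) true (nat_lit 12) (.s true (nat_lit 1) (nat_lit 61) (nat_lit 1) (nat_lit 2) (nat_lit 2) true (nat_lit 12) true (nat_lit 16) false (nat_lit 5) true (nat_lit 17) true (nat_lit 16) (.e false (nat_lit 1) (nat_lit 206) (nat_lit 2) (nat_lit 16) (.e true (nat_lit 2) (nat_lit 208) (nat_lit 2) (nat_lit 16) (.e true (nat_lit 2) (nat_lit 217) (nat_lit 2) (nat_lit 16) (.e true (nat_lit 3) (nat_lit 228) (nat_lit 2) (nat_lit 16) (.e false (nat_lit 1) (nat_lit 104) (nat_lit 9) (nat_lit 10) (.e true (nat_lit 2) (nat_lit 205) (nat_lit 2) (nat_lit 16) (.e false (nat_lit 1) (nat_lit 209) (nat_lit 2) (nat_lit 16) (.e true (nat_lit 3) (nat_lit 216) (nat_lit 2) (nat_lit 16) (.e true (nat_lit 1) (nat_lit 227) (nat_lit 2) (nat_lit 16) (.e true (nat_lit 3) (nat_lit 242) (nat_lit 2) (nat_lit 16) (.e true (nat_lit 2) (nat_lit 243) (nat_lit 2) (nat_lit 16) (.e false (nat_lit 1) (nat_lit 249) (nat_lit 2) (nat_lit 16) (.e false (nat_lit 2) (nat_lit 251) (nat_lit 2) (nat_lit 16) (.e true (nat_lit 2) (nat_lit 230) (nat_lit 2) (nat_lit 16) (.e false (nat_lit 1) (nat_lit 284) (nat_lit 1) (nat_lit 17) (.u (nat_lit 2) (.n (nat_lit 0) (nat_lit 2) (.p (nat_lit 1) (nat_lit 2) (.n (nat_lit 2) (nat_lit 2) (.n (nat_lit 3) (nat_lit 1) (.p (nat_lit 4) (nat_lit 1) (.n (nat_lit 5) (nat_lit 2) (.n (nat_lit 6) (nat_lit 4) (.p (nat_lit 7) (nat_lit 1) (.n (nat_lit 8) (nat_lit 2) (.p (nat_lit 9) (nat_lit 2) (.p (nat_lit 10) (nat_lit 4) (.n (nat_lit 11) (nat_lit 1) (.n (nat_lit 14) (nat_lit 1) (.p (nat_lit 15) (nat_lit 2) (.n (nat_lit 17) (nat_lit 4) (.p (nat_lit 18) (nat_lit 1) (.p (nat_lit 19) (nat_lit 1) (.p (nat_lit 21) (nat_lit 1) (.n (nat_lit 22) (nat_lit 1) (.p (nat_lit 23) (nat_lit 2) (.n (nat_lit 24) (nat_lit 1) (.p (nat_lit 25) (nat_lit 1) (.p (nat_lit 26) (nat_lit 3) (.p (nat_lit 27) (nat_lit 1) (.p (nat_lit 29) (nat_lit 2) (.p (nat_lit 31) (nat_lit 1) (.p (nat_lit 32) (nat_lit 3) (.p (nat_lit 33) (nat_lit 3) (.n (nat_lit 34) (nat_lit 2) (.p (nat_lit 35) (nat_lit 1) (.p (nat_lit 36) (nat_lit 2) (.n (nat_lit 37) (nat_lit 1) (.n (nat_lit 38) (nat_lit 3) (.n (nat_lit 39) (nat_lit 2) (.n (nat_lit 42) (nat_lit 1) (.n (nat_lit 45) (nat_lit 3) (.n (nat_lit 46) (nat_lit 3) (.p (nat_lit 47) (nat_lit 2) (.p (nat_lit 325) (nat_lit 1) .z))))))))))))))))))))))))))))))))))))))) .nil)))))))))))))))))))) .leaf)))) (nat_lit 135169) (nat_lit 425) (.p (nat_lit 231) (nat_lit 1) .z) .df (.nd (.nd (.nd (.nd (.nd .leaf (nat_lit 135170) (nat_lit 561) (.p (nat_lit 252) (nat_lit 1) .z) .df .leaf) (nat_lit 135174) (nat_lit 1013) (.p (nat_lit 335) (nat_lit 1) (.n (nat_lit 336) (nat_lit 1) (.n (nat_lit 337) (nat_lit 2) (.p (nat_lit 340) (nat_lit 3) (.p (nat_lit 341) (nat_lit 2) (.p (nat_lit 342) (nat_lit 3) (.n (nat_lit 343) (nat_lit 2) (.p (nat_lit 344) (nat_lit 2) (.n (nat_lit 345) (nat_lit 2) (.n (nat_lit 346) (nat_lit 2) (.p (nat_lit 347) (nat_lit 2) (.p (nat_lit 349) (nat_lit 3) (.p (nat_lit 350) (nat_lit 1) (.n (nat_lit 351) (nat_lit 2) (.p (nat_lit 352) (nat_lit 2) (.n (nat_lit 353) (nat_lit 1) (.n (nat_lit 354) (nat_lit 3) (.p (nat_lit 355) (nat_lit 1) (.n (nat_lit 356) (nat_lit 3) (.p (nat_lit 357) (nat_lit 3) (.p (nat_lit 358) (nat_lit 2) (.p (nat_lit 359) (nat_lit 3) (.p (nat_lit 360) (nat_lit 3) (.n (nat_lit 361) (nat_lit 3) (.n (nat_lit 363) (nat_lit 2) (.n (nat_lit 364) (nat_lit 1) (.n (nat_lit 366) (nat_lit 3) (.n (nat_lit 367) (nat_lit 3) (.n (nat_lit 368) (nat_lit 2) (.n (nat_lit 369) (nat_lit 2) (.n (nat_lit 370) (nat_lit 2) (.p (nat_lit 371) (nat_lit 2) (.p (nat_lit 372) (nat_lit 1) (.p (nat_lit 373) (nat_lit 2) (.p (nat_lit 374) (nat_lit 3) (.n (nat_lit 380) (nat_lit 3) (.n (nat_lit 381) (nat_lit 2) (.n (nat_lit 382) (nat_lit 3) (.n (nat_lit 383) (nat_lit 2) (.p (nat_lit 390) (nat_lit 1) .z)))))))))))))))))))))))))))))))))))))))) (.ct dC2c_c308 (nat_lit 1) (nat_lit 12) dC2c_i92) .leaf) (nat_lit 135175) (nat_lit 1240) (.p (nat_lit 398) (nat_lit 2) (.p (nat_lit 399) (nat_lit 3) (.n (nat_lit 400) (nat_lit 3) (.p (nat_lit 401) (nat_lit 3) (.p (nat_lit 402) (nat_lit 3) (.p (nat_lit 403) (nat_lit 1) (.p (nat_lit 405) (nat_lit 2) (.n (nat_lit 406) (nat_lit 1) (.n (nat_lit 407) (nat_lit 1) (.p (nat_lit 408) (nat_lit 2) (.p (nat_lit 409) (nat_lit 2) (.n (nat_lit 410) (nat_lit 1) (.p (nat_lit 411) (nat_lit 2) (.n (nat_lit 412) (nat_lit 2) (.n (nat_lit 413) (nat_lit 2) (.n (nat_lit 414) (nat_lit 1) (.n (nat_lit 416) (nat_lit 2) (.n (nat_lit 418) (nat_lit 1) (.p (nat_lit 420) (nat_lit 2) (.n (nat_lit 421) (nat_lit 3) (.p (nat_lit 431) (nat_lit 1) (.p (nat_lit 435) (nat_lit 1) .z)))))))))))))))))))))) (.ct dC2c_c293 (nat_lit 1) (nat_lit 9) (.s false (nat_lit 1) (nat_lit 11) (nat_lit 6) (nat_lit 7) (nat_lit 2) true (nat_lit 4) true (nat_lit 14) true (nat_lit 7) true (nat_lit 10) true (nat_lit 9) (.s false (nat_lit 1) (nat_lit 18) (nat_lit 2) (nat_lit 2) (nat_lit 11) true (nat_lit 1) true (nat_lit 7) true (nat_lit 4) true (nat_lit 14) true (nat_lit 14) dC2c_i94))) (.nd (.nd .leaf (nat_lit 136193) (nat_lit 426) (.p (nat_lit 232) (nat_lit 1) .z) .df .leaf) (nat_lit 136194) (nat_lit 562) (.p (nat_lit 253) (nat_lit 1) .z) .df .leaf)) (nat_lit 136198) (nat_lit 1034) (.p (nat_lit 335) (nat_lit 1) (.p (nat_lit 336) (nat_lit 3) (.n (nat_lit 337) (nat_lit 1) (.n (nat_lit 338) (nat_lit 2) (.p (nat_lit 339) (nat_lit 3) (.n (nat_lit 340) (nat_lit 3) (.n (nat_lit 342) (nat_lit 1) (.p (nat_lit 343) (nat_lit 2) (.p (nat_lit 344) (nat_lit 1) (.n (nat_lit 345) (nat_lit 1) (.n (nat_lit 346) (nat_lit 2) (.p (nat_lit 349) (nat_lit 3) (.n (nat_lit 350) (nat_lit 1) (.p (nat_lit 351) (nat_lit 2) (.n (nat_lit 352) (nat_lit 1) (.p (nat_lit 354) (nat_lit 3) (.n (nat_lit 355) (nat_lit 3) (.n (nat_lit 356) (nat_lit 2) (.p (nat_lit 357) (nat_lit 2) (.n (nat_lit 358) (nat_lit 1) (.p (nat_lit 359) (nat_lit 2) (.p (nat_lit 360) (nat_lit 2) (.n (nat_lit 361) (nat_lit 1) (.p (nat_lit 362) (nat_lit 3) (.n (nat_lit 363) (nat_lit 3) (.n (nat_lit 364) (nat_lit 2) (.p (nat_lit 366) (nat_lit 2) (.p (nat_lit 367) (nat_lit 1) (.p (nat_lit 368) (nat_lit 1) (.p (nat_lit 370) (nat_lit 1) (.n (nat_lit 371) (nat_lit 3) (.n (nat_lit 372) (nat_lit 1) (.n (nat_lit 373) (nat_lit 1) (.n (nat_lit 374) (nat_lit 3) (.n (nat_lit 380) (nat_lit 1) (.n (nat_lit 381) (nat_lit 3) (.n (nat_lit 382) (nat_lit 2) (.p (nat_lit 383) (nat_lit 1) (.p (nat_lit 390) (nat_lit 2) .z))))))))))))))))))))))))))))))))))))))) (.ct dC2c_c308 (nat_lit 1) (nat_lit 12) (.s false (nat_lit 3) (nat_lit 18) (nat_lit 9) (nat_lit 2) (nat_lit 2) true (nat_lit 2) true (nat_lit 16) true (nat_lit 5) true (nat_lit 10) true (nat_lit 16) (.s true (nat_lit 3) (nat_lit 29) (nat_lit 6) (nat_lit 2) (nat_lit 2) true (nat_lit 5) true (nat_lit 16) true (nat_lit 2) true (nat_lit 12) true (nat_lit 16) (.s true (nat_lit 3) (nat_lit 47) (nat_lit 1) (nat_lit 3) (nat_lit 2) true (nat_lit 12) true (nat_lit 16) false (nat_lit 2) true (nat_lit 17) true (nat_lit 15) (.s false (nat_lit 3) (nat_lit 45) (nat_lit 2) (nat_lit 1) (nat_lit 3) true (nat_lit 8) true (nat_lit 15) false (nat_lit 2) true (nat_lit 16) true (nat_lit 17) (.s false (nat_lit 3) (nat_lit 61) (nat_lit 1) (nat_lit 2) (nat_lit 2) true (nat_lit 12) true (nat_lit 16) false (nat_lit 5) true (nat_lit 17) true (nat_lit 16) (.e false (nat_lit 1) (nat_lit 206) (nat_lit 2) (nat_lit 16) (.e true (nat_lit 3) (nat_lit 207) (nat_lit 2) (nat_lit 16) (.e true (nat_lit 1) (nat_lit 208) (nat_lit 2) (nat_lit 16) (.e false (nat_lit 1) (nat_lit 211) (nat_lit 2) (nat_lit 16) (.e false (nat_lit 2) (nat_lit 213) (nat_lit 2) (nat_lit 16) (.e false (nat_lit 3) (nat_lit 215) (nat_lit 2) (nat_lit 16) (.e false (nat_lit 2) (nat_lit 217) (nat_lit 2) (nat_lit 16) (.e true (nat_lit 3) (nat_lit 104) (nat_lit 9) (nat_lit 10) (.e true (nat_lit 1) (nat_lit 205) (nat_lit 2) (nat_lit 16) (.e true (nat_lit 3) (nat_lit 209) (nat_lit 2) (nat_lit 16) (.e false (nat_lit 1) (nat_lit 216) (nat_lit 2) (nat_lit 16) dC2c_i96))))))))))))))))) (.nd (.nd (.nd .leaf (nat_lit 136199) (nat_lit 1286) (.p (nat_lit 397) (nat_lit 3) (.p (nat_lit 398) (nat_lit 3) (.p (nat_lit 400) (nat_lit 1) (.n (nat_lit 401) (nat_lit 1) (.n (nat_lit 402) (nat_lit 3) (.p (nat_lit 403) (nat_lit 1) (.p (nat_lit 404) (nat_lit 3) (.n (nat_lit 405) (nat_lit 3) (.p (nat_lit 406) (nat_lit 1) (.p (nat_lit 407) (nat_lit 1) (.n (nat_lit 408) (nat_lit 1) (.n (nat_lit 409) (nat_lit 3) (.p (nat_lit 410) (nat_lit 3) (.p (nat_lit 411) (nat_lit 1) (.p (nat_lit 412) (nat_lit 2) (.p (nat_lit 413) (nat_lit 2) (.p (nat_lit 414) (nat_lit 1) (.n (nat_lit 415) (nat_lit 2) (.n (nat_lit 416) (nat_lit 3) (.n (nat_lit 418) (nat_lit 3) (.n (nat_lit 420) (nat_lit 1) (.n (nat_lit 421) (nat_lit 3) (.p (nat_lit 431) (nat_lit 3) (.n (nat_lit 432) (nat_lit 3) (.n (nat_lit 435) (nat_lit 1) .z))))))))))))))))))))))))) (.ct dC2c_c293 (nat_lit 1) (nat_lit 9) (.s true (nat_lit 3) (nat_lit 12) (nat_lit 7) (nat_lit 7) (nat_lit 1) true (nat_lit 4) true (nat_lit 15) true (nat_lit 7) true (nat_lit 9) true (nat_lit 9) (.e false (nat_lit 3) (nat_lit 89) (nat_lit 19) (nat_lit 4) (.e false (nat_lit 1) (nat_lit 317) (nat_lit 1) (nat_lit 15) (.e false (nat_lit 2) (nat_lit 135) (nat_lit 7) (nat_lit 9) (.e true (nat_lit 1) (nat_lit 138) (nat_lit 7) (nat_lit 9) (.e true (nat_lit 1) (nat_lit 139) (nat_lit 7) (nat_lit 9) (.e false (nat_lit 1) (nat_lit 140) (nat_lit 7) (nat_lit 9) (.e false (nat_lit 1) (nat_lit 144) (nat_lit 7) (nat_lit 9) (.e false (nat_lit 3) (nat_lit 150) (nat_lit 7) (nat_lit 9) (.e true (nat_lit 1) (nat_lit 155) (nat_lit 7) (nat_lit 9) (.u (nat_lit 2) (.n (nat_lit 2) (nat_lit 2) (.p (nat_lit 3) (nat_lit 1) (.p (nat_lit 4) (nat_lit 2) (.n (nat_lit 5) (nat_lit 1) (.p (nat_lit 6) (nat_lit 3) (.n (nat_lit 7) (nat_lit 1) (.p (nat_lit 8) (nat_lit 1) (.n (nat_lit 10) (nat_lit 3) (.p (nat_lit 12) (nat_lit 1) (.n (nat_lit 13) (nat_lit 1) (.n (nat_lit 14) (nat_lit 2) (.n (nat_lit 17) (nat_lit 1) (.p (nat_lit 18) (nat_lit 1) (.n (nat_lit 19) (nat_lit 1) (.n (nat_lit 21) (nat_lit 1) (.n (nat_lit 24) (nat_lit 1) (.p (nat_lit 26) (nat_lit 1) (.n (nat_lit 34) (nat_lit 2) (.p (nat_lit 35) (nat_lit 1) (.p (nat_lit 143) (nat_lit 1) (.p (nat_lit 145) (nat_lit 1) (.p (nat_lit 148) (nat_lit 1) (.p (nat_lit 149) (nat_lit 1) (.n (nat_lit 150) (nat_lit 1) (.n (nat_lit 154) (nat_lit 1) (.p (nat_lit 165) (nat_lit 1) (.n (nat_lit 253) (nat_lit 1) .z))))))))))))))))))))))))))) .nil)))))))))))) .leaf) (nat_lit 137217) (nat_lit 427) (.p (nat_lit 233) (nat_lit 1) .z) .df .leaf) (nat_lit 137218) (nat_lit 563) (.p (nat_lit 254) (nat_lit 1) .z) .df (.nd .leaf (nat_lit 137222) (nat_lit 924) (.n (nat_lit 335) (nat_lit 1) (.p (nat_lit 336) (nat_lit 2) (.n (nat_lit 337) (nat_lit 3) (.n (nat_lit 338) (nat_lit 2) (.p (nat_lit 339) (nat_lit 3) (.n (nat_lit 340) (nat_lit 3) (.n (nat_lit 341) (nat_lit 2) (.p (nat_lit 343) (nat_lit 3) (.p (nat_lit 344) (nat_lit 3) (.n (nat_lit 345) (nat_lit 1) (.n (nat_lit 346) (nat_lit 2) (.n (nat_lit 351) (nat_lit 3) (.p (nat_lit 352) (nat_lit 3) (.n (nat_lit 353) (nat_lit 3) (.p (nat_lit 354) (nat_lit 3) (.p (nat_lit 355) (nat_lit 2) (.n (nat_lit 356) (nat_lit 1) (.p (nat_lit 357) (nat_lit 1) (.p (nat_lit 358) (nat_lit 3) (.n (nat_lit 359) (nat_lit 1) (.n (nat_lit 360) (nat_lit 3) (.n (nat_lit 361) (nat_lit 3) (.p (nat_lit 362) (nat_lit 2) (.p (nat_lit 363) (nat_lit 3) (.p (nat_lit 364) (nat_lit 1) (.n (nat_lit 366) (nat_lit 1) (.p (nat_lit 367) (nat_lit 3) (.n (nat_lit 368) (nat_lit 3) (.p (nat_lit 369) (nat_lit 1) (.n (nat_lit 370) (nat_lit 3) (.p (nat_lit 371) (nat_lit 2) (.p (nat_lit 372) (nat_lit 2) (.p (nat_lit 373) (nat_lit 3) (.n (nat_lit 374) (nat_lit 3) (.p (nat_lit 382) (nat_lit 1) (.p (nat_lit 383) (nat_lit 3) (.p (nat_lit 391) (nat_lit 1) .z))))))))))))))))))))))))))))))))))))) (.ct dC2c_c308 (nat_lit 1) (nat_lit 12) (.s false (nat_lit 3) (nat_lit 8) (nat_lit 1) (nat_lit 7) (nat_lit 7) true (nat_lit 5) true (nat_lit 11) true (nat_lit 10) true (nat_lit 17) true (nat_lit 11) (.s true (nat_lit 1) (nat_lit 8) (nat_lit 2) (nat_lit 6) (nat_lit 7) true (nat_lit 4) true (nat_lit 11) true (nat_lit 10) true (nat_lit 16) true (nat_lit 12) (.s true (nat_lit 1) (nat_lit 9) (nat_lit 6) (nat_lit 7) (nat_lit 2) true (nat_lit 5) true (nat_lit 16) true (nat_lit 10) true (nat_lit 12) true (nat_lit 11) (.s false (nat_lit 2) (nat_lit 9) (nat_lit 7) (nat_lit 1) (nat_lit 7) false (nat_lit 3) true (nat_lit 11) true (nat_lit 10) true (nat_lit 11) true (nat_lit 17) (.s true (nat_lit 3) (nat_lit 8) (nat_lit 7) (nat_lit 2) (nat_lit 6) false (nat_lit 2) true (nat_lit 12) true (nat_lit 10) true (nat_lit 11) true (nat_lit 16) (.s true (nat_lit 1) (nat_lit 8) (nat_lit 7) (nat_lit 7) (nat_lit 1) true (nat_lit 5) true (nat_lit 17) true (nat_lit 10) true (nat_lit 11) true (nat_lit 11) (.s false (nat_lit 1) (nat_lit 10) (nat_lit 0) (nat_lit 7) (nat_lit 7) true (nat_lit 6) true (nat_lit 11) true (nat_lit 9) true (nat_lit 18) true (nat_lit 11) (.s true (nat_lit 3) (nat_lit 10) (nat_lit 2) (nat_lit 7) (nat_lit 5) true (nat_lit 6) true (nat_lit 13) true (nat_lit 9) true (nat_lit 16) true (nat_lit 11) (.s false (nat_lit 3) (nat_lit 10) (nat_lit 5) (nat_lit 2) (nat_lit 7) false (nat_lit 1) true (nat_lit 11) true (nat_lit 9) true (nat_lit 13) true (nat_lit 16) (.s false (nat_lit 2) (nat_lit 10) (nat_lit 7) (nat_lit 0) (nat_lit 7) false (nat_lit 3) true (nat_lit 11) true (nat_lit 9) true (nat_lit 11) true (nat_lit 18) (.s false (nat_lit 2) (nat_lit 11) (nat_lit 1) (nat_lit 7) (nat_lit 6) true (nat_lit 7) true (nat_lit 12) true (nat_lit 8) true (nat_lit 17) true (nat_lit 11) (.s false (nat_lit 3) (nat_lit 11) (nat_lit 4) (nat_lit 2) (nat_lit 7) false (nat_lit 0) true (nat_lit 11) true (nat_lit 8) true (nat_lit 14) true (nat_lit 16) (.s true (nat_lit 2) (nat_lit 11) (nat_lit 6) (nat_lit 6) (nat_lit 2) true (nat_lit 5) true (nat_lit 16) true (nat_lit 8) true (nat_lit 12) true (nat_lit 12) (.s false (nat_lit 3) (nat_lit 12) (nat_lit 7) (nat_lit 4) (nat_lit 2) true (nat_lit 4) true (nat_lit 16) true (nat_lit 8) true (nat_lit 11) true (nat_lit 14) (.s false (nat_lit 1) (nat_lit 14) (nat_lit 2) (nat_lit 2) (nat_lit 11) true (nat_lit 0) true (nat_lit 8) true (nat_lit 7) true (nat_lit 16) true (nat_lit 16) (.s true (nat_lit 3) (nat_lit 14) (nat_lit 2) (nat_lit 2) (nat_lit 12) true (nat_lit 0) true (nat_lit 8) true (nat_lit 7) true (nat_lit 16) true (nat_lit 16) (.s false (nat_lit 1) (nat_lit 14) (nat_lit 2) (nat_lit 3) (nat_lit 7) true (nat_lit 4) true (nat_lit 11) true (nat_lit 7) true (nat_lit 16) true (nat_lit 15) (.s true (nat_lit 2) (nat_lit 16) (nat_lit 10) (nat_lit 2) (nat_lit 2) true (nat_lit 1) true (nat_lit 16) true (nat_lit 6) true (nat_lit 9) true (nat_lit 16) (.s false (nat_lit 1) (nat_lit 18) (nat_lit 0) (nat_lit 1) (nat_lit 18) true (nat_lit 0) true (nat_lit 5) true (nat_lit 5) true (nat_lit 18) true (nat_lit 17) (.s true (nat_lit 2) (nat_lit 18) (nat_lit 0) (nat_lit 1) (nat_lit 19) true (nat_lit 0) true (nat_lit 5) true (nat_lit 5) true (nat_lit 18) true (nat_lit 17) dC2c_i105))))))))))))))))))))) .leaf))) (nat_lit 137223) (nat_lit 1215) (.n (nat_lit 398) (nat_lit 1) (.n (nat_lit 399) (nat_lit 1) (.n (nat_lit 401) (nat_lit 2) (.n (nat_lit 402) (nat_lit 3) (.p (nat_lit 403) (nat_lit 3) (.n (nat_lit 404) (nat_lit 1) (.p (nat_lit 405) (nat_lit 3) (.p (nat_lit 406) (nat_lit 2) (.n (nat_lit 407) (nat_lit 3) (.p (nat_lit 408) (nat_lit 3) (.p (nat_lit 409) (nat_lit 2) (.n (nat_lit 410) (nat_lit 3) (.p (nat_lit 412) (nat_lit 3) (.p (nat_lit 413) (nat_lit 3) (.n (nat_lit 414) (nat_lit 1) (.n (nat_lit 415) (nat_lit 2) (.n (nat_lit 416) (nat_lit 3) (.p (nat_lit 420) (nat_lit 1) (.n (nat_lit 421) (nat_lit 2) (.p (nat_lit 422) (nat_lit 2) (.n (nat_lit 431) (nat_lit 2) .z))))))))))))))))))))) (.ct dC2c_c293 (nat_lit 1) (nat_lit 9) (.s false (nat_lit 2) (nat_lit 11) (nat_lit 1) (nat_lit 7) (nat_lit 7) true (nat_lit 4) true (nat_lit 9) true (nat_lit 7) true (nat_lit 15) true (nat_lit 9) (.s false (nat_lit 1) (nat_lit 12) (nat_lit 1) (nat_lit 7) (nat_lit 7) true (nat_lit 4) true (nat_lit 9) true (nat_lit 7) true (nat_lit 15) true (nat_lit 9) (.s true (nat_lit 3) (nat_lit 12) (nat_lit 2) (nat_lit 7) (nat_lit 6) true (nat_lit 4) true (nat_lit 10) true (nat_lit 7) true (nat_lit 14) true (nat_lit 9) (.s false (nat_lit 2) (nat_lit 12) (nat_lit 6) (nat_lit 2) (nat_lit 7) false (nat_lit 1) true (nat_lit 9) true (nat_lit 7) true (nat_lit 10) true (nat_lit 14) (.s true (nat_lit 3) (nat_lit 11) (nat_lit 7) (nat_lit 2) (nat_lit 6) false (nat_lit 1) true (nat_lit 10) true (nat_lit 7) true (nat_lit 9) true (nat_lit 14) (.s false (nat_lit 3) (nat_lit 11) (nat_lit 7) (nat_lit 7) (nat_lit 1) true (nat_lit 4) true (nat_lit 15) true (nat_lit 7) true (nat_lit 9) true (nat_lit 9) (.s true (nat_lit 1) (nat_lit 12) (nat_lit 7) (nat_lit 7) (nat_lit 1) true (nat_lit 4) true (nat_lit 15) true (nat_lit 7) true (nat_lit 9) true (nat_lit 9) (.s false (nat_lit 3) (nat_lit 15) (nat_lit 2) (nat_lit 5) (nat_lit 7) true (nat_lit 3) true (nat_lit 9) true (nat_lit 6) true (nat_lit 14) true (nat_lit 11) (.s false (nat_lit 2) (nat_lit 15) (nat_lit 7) (nat_lit 0) (nat_lit 7) false (nat_lit 2) true (nat_lit 9) true (nat_lit 6) true (nat_lit 9) true (nat_lit 16) (.s true (nat_lit 1) (nat_lit 14) (nat_lit 7) (nat_lit 2) (nat_lit 5) false (nat_lit 0) true (nat_lit 11) true (nat_lit 6) true (nat_lit 9) true (nat_lit 14) (.s true (nat_lit 1) (nat_lit 15) (nat_lit 7) (nat_lit 2) (nat_lit 5) false (nat_lit 0) true (nat_lit 11) true (nat_lit 6) true (nat_lit 9) true (nat_lit 14) (.s false (nat_lit 2) (nat_lit 16) (nat_lit 2) (nat_lit 2) (nat_lit 14) true (nat_lit 0) true (nat_lit 6) true (nat_lit 5) true (nat_lit 14) true (nat_lit 14) (.s true (nat_lit 2) (nat_lit 17) (nat_lit 2) (nat_lit 2) (nat_lit 14) true (nat_lit 0) true (nat_lit 6) true (nat_lit 5) true (nat_lit 14) true (nat_lit 14) dC2c_i112)))))))))))))) (.nd (.nd (.nd (.nd .leaf (nat_lit 138241) (nat_lit 428) (.p (nat_lit 234) (nat_lit 1) .z) .df .leaf) (nat_lit 138242) (nat_lit 564) (.p (nat_lit 255) (nat_lit 1) .z) .df .leaf) (nat_lit 138246) (nat_lit 995) (.n (nat_lit 335) (nat_lit 2) (.n (nat_lit 336) (nat_lit 1) (.n (nat_lit 337) (nat_lit 2) (.p (nat_lit 338) (nat_lit 3) (.n (nat_lit 339) (nat_lit 1) (.p (nat_lit 340) (nat_lit 1) (.n (nat_lit 341) (nat_lit 1) (.n (nat_lit 342) (nat_lit 2) (.p (nat_lit 343) (nat_lit 2) (.p (nat_lit 344) (nat_lit 2) (.p (nat_lit 345) (nat_lit 2) (.p (nat_lit 346) (nat_lit 1) (.n (nat_lit 347) (nat_lit 3) (.n (nat_lit 349) (nat_lit 3) (.n (nat_lit 350) (nat_lit 3) (.p (nat_lit 352) (nat_lit 1) (.n (nat_lit 353) (nat_lit 1) (.n (nat_lit 354) (nat_lit 1) (.n (nat_lit 356) (nat_lit 2) (.p (nat_lit 357) (nat_lit 2) (.n (nat_lit 358) (nat_lit 2) (.n (nat_lit 359) (nat_lit 1) (.p (nat_lit 360) (nat_lit 3) (.p (nat_lit 361) (nat_lit 1) (.n (nat_lit 363) (nat_lit 2) (.p (nat_lit 364) (nat_lit 1) (.p (nat_lit 366) (nat_lit 1) (.p (nat_lit 367) (nat_lit 3) (.p (nat_lit 369) (nat_lit 2) (.n (nat_lit 371) (nat_lit 3) (.p (nat_lit 372) (nat_lit 1) (.n (nat_lit 380) (nat_lit 3) (.n (nat_lit 381) (nat_lit 2) (.p (nat_lit 392) (nat_lit 1) .z)))))))))))))))))))))))))))))))))) (.ct dC2c_c308 (nat_lit 1) (nat_lit 12) (.s false (nat_lit 1) (nat_lit 18) (nat_lit 1) (nat_lit 12) (nat_lit 2) true (nat_lit 12) true (nat_lit 16) true (nat_lit 5) true (nat_lit 17) true (nat_lit 8) dC2c_i115)) (.nd (.nd .leaf (nat_lit 138247) (nat_lit 1246) (.p (nat_lit 397) (nat_lit 1) (.p (nat_lit 398) (nat_lit 2) (.p (nat_lit 400) (nat_lit 3) (.p (nat_lit 401) (nat_lit 2) (.n (nat_lit 402) (nat_lit 1) (.p (nat_lit 403) (nat_lit 3) (.p (nat_lit 404) (nat_lit 3) (.p (nat_lit 405) (nat_lit 1) (.n (nat_lit 406) (nat_lit 1) (.n (nat_lit 407) (nat_lit 1) (.n (nat_lit 408) (nat_lit 3) (.n (nat_lit 409) (nat_lit 1) (.p (nat_lit 410) (nat_lit 1) (.p (nat_lit 411) (nat_lit 1) (.n (nat_lit 414) (nat_lit 2) (.p (nat_lit 415) (nat_lit 2) (.p (nat_lit 416) (nat_lit 2) (.n (nat_lit 418) (nat_lit 2) (.p (nat_lit 420) (nat_lit 1) (.n (nat_lit 421) (nat_lit 3) (.p (nat_lit 423) (nat_lit 2) (.p (nat_lit 431) (nat_lit 2) (.n (nat_lit 432) (nat_lit 1) (.p (nat_lit 435) (nat_lit 3) .z)))))))))))))))))))))))) (.ct dC2c_c293 (nat_lit 1) (nat_lit 9) (.s false (nat_lit 3) (nat_lit 12) (nat_lit 1) (nat_lit 7) (nat_lit 7) true (nat_lit 4) true (nat_lit 9) true (nat_lit 7) true (nat_lit 15) true (nat_lit 9) (.s true (nat_lit 1) (nat_lit 12) (nat_lit 2) (nat_lit 7) (nat_lit 6) true (nat_lit 4) true (nat_lit 10) true (nat_lit 7) true (nat_lit 14) true (nat_lit 9) (.s false (nat_lit 3) (nat_lit 12) (nat_lit 7) (nat_lit 7) (nat_lit 1) true (nat_lit 4) true (nat_lit 15) true (nat_lit 7) true (nat_lit 9) true (nat_lit 9) (.s true (nat_lit 1) (nat_lit 14) (nat_lit 2) (nat_lit 7) (nat_lit 5) true (nat_lit 5) true (nat_lit 11) true (nat_lit 6) true (nat_lit 14) true (nat_lit 9) (.s true (nat_lit 1) (nat_lit 14) (nat_lit 5) (nat_lit 2) (nat_lit 7) false (nat_lit 0) true (nat_lit 9) true (nat_lit 6) true (nat_lit 11) true (nat_lit 14) (.s true (nat_lit 2) (nat_lit 17) (nat_lit 2) (nat_lit 2) (nat_lit 14) true (nat_lit 0) true (nat_lit 6) true (nat_lit 5) true (nat_lit 14) true (nat_lit 14) (.s false (nat_lit 2) (nat_lit 17) (nat_lit 14) (nat_lit 2) (nat_lit 2) true (nat_lit 0) true (nat_lit 14) true (nat_lit 5) true (nat_lit 6) true (nat_lit 14) (.s true (nat_lit 1) (nat_lit 18) (nat_lit 12) (nat_lit 2) (nat_lit 2) true (nat_lit 1) true (nat_lit 14) true (nat_lit 4) true (nat_lit 7) true (nat_lit 14) (.s true (nat_lit 3) (nat_lit 20) (nat_lit 0) (nat_lit 19) (nat_lit 1) true (nat_lit 13) true (nat_lit 15) true (nat_lit 3) true (nat_lit 16) true (nat_lit 4) (.s true (nat_lit 1) (nat_lit 20) (nat_lit 1) (nat_lit 7) (nat_lit 3) true (nat_lit 8) true (nat_lit 13) true (nat_lit 3) true (nat_lit 15) true (nat_lit 9) (.s false (nat_lit 3) (nat_lit 20) (nat_lit 1) (nat_lit 13) (nat_lit 2) true (nat_lit 10) true (nat_lit 14) true (nat_lit 3) true (nat_lit 15) true (nat_lit 7) (.s true (nat_lit 2) (nat_lit 20) (nat_lit 2) (nat_lit 4) (nat_lit 5) true (nat_lit 5) true (nat_lit 11) true (nat_lit 3) true (nat_lit 14) true (nat_lit 12) dC2c_i119))))))))))))) .leaf) (nat_lit 139265) (nat_lit 465) (.p (nat_lit 205) (nat_lit 1) (.p (nat_lit 206) (nat_lit 3) (.n (nat_lit 207) (nat_lit 1) (.n (nat_lit 208) (nat_lit 3) (.n (nat_lit 209) (nat_lit 2) (.p (nat_lit 211) (nat_lit 1) (.n (nat_lit 212) (nat_lit 3) (.n (nat_lit 213) (nat_lit 1) (.p (nat_lit 214) (nat_lit 3) (.n (nat_lit 215) (nat_lit 3) (.p (nat_lit 216) (nat_lit 1) (.n (nat_lit 218) (nat_lit 2) (.n (nat_lit 219) (nat_lit 3) (.p (nat_lit 221) (nat_lit 3) (.n (nat_lit 222) (nat_lit 2) (.n (nat_lit 225) (nat_lit 2) (.p (nat_lit 226) (nat_lit 2) (.p (nat_lit 227) (nat_lit 1) (.p (nat_lit 228) (nat_lit 3) (.p (nat_lit 229) (nat_lit 3) (.p (nat_lit 230) (nat_lit 3) (.p (nat_lit 232) (nat_lit 1) (.p (nat_lit 233) (nat_lit 1) (.n (nat_lit 234) (nat_lit 1) (.n (nat_lit 242) (nat_lit 1) (.p (nat_lit 244) (nat_lit 1) (.p (nat_lit 245) (nat_lit 3) (.n (nat_lit 246) (nat_lit 3) (.n (nat_lit 247) (nat_lit 3) (.n (nat_lit 248) (nat_lit 3) (.n (nat_lit 251) (nat_lit 1) .z))))))))))))))))))))))))))))))) (.ct dC2c_c307 (nat_lit 1) (nat_lit 13) (.s false (nat_lit 1) (nat_lit 6) (nat_lit 1) (nat_lit 5) (nat_lit 6) true (nat_lit 3) true (nat_lit 8) true (nat_lit 8) true (nat_lit 13) true (nat_lit 9) (.s false (nat_lit 2) (nat_lit 6) (nat_lit 2) (nat_lit 3) (nat_lit 6) true (nat_lit 1) true (nat_lit 8) true (nat_lit 8) true (nat_lit 12) true (nat_lit 11) (.s false (nat_lit 3) (nat_lit 7) (nat_lit 4) (nat_lit 2) (nat_lit 3) false (nat_lit 0) true (nat_lit 11) true (nat_lit 7) true (nat_lit 10) true (nat_lit 12) (.s true (nat_lit 2) (nat_lit 7) (nat_lit 6) (nat_lit 1) (nat_lit 3) false (nat_lit 1) true (nat_lit 11) true (nat_lit 7) true (nat_lit 8) true (nat_lit 13) (.s false (nat_lit 3) (nat_lit 9) (nat_lit 1) (nat_lit 2) (nat_lit 7) true (nat_lit 1) true (nat_lit 7) true (nat_lit 6) true (nat_lit 13) true (nat_lit 12) dC2c_i123)))))) .leaf)) (nat_lit 139266) (nat_lit 565) (.p (nat_lit 256) (nat_lit 1) .z) .df (.nd (.nd (.nd .leaf (nat_lit 139270) (nat_lit 1079) (.n (nat_lit 335) (nat_lit 3) (.p (nat_lit 336) (nat_lit 2) (.n (nat_lit 337) (nat_lit 3) (.p (nat_lit 338) (nat_lit 1) (.p (nat_lit 339) (nat_lit 2) (.p (nat_lit 340) (nat_lit 3) (.p (nat_lit 341) (nat_lit 2) (.p (nat_lit 342) (nat_lit 1) (.p (nat_lit 343) (nat_lit 2) (.p (nat_lit 344) (nat_lit 1) (.n (nat_lit 345) (nat_lit 3) (.p (nat_lit 346) (nat_lit 1) (.p (nat_lit 349) (nat_lit 1) (.n (nat_lit 350) (nat_lit 1) (.p (nat_lit 351) (nat_lit 3) (.p (nat_lit 352) (nat_lit 1) (.n (nat_lit 353) (nat_lit 1) (.p (nat_lit 354) (nat_lit 3) (.n (nat_lit 356) (nat_lit 3) (.p (nat_lit 357) (nat_lit 3) (.n (nat_lit 358) (nat_lit 1) (.n (nat_lit 359) (nat_lit 2) (.p (nat_lit 360) (nat_lit 1) (.p (nat_lit 362) (nat_lit 2) (.n (nat_lit 363) (nat_lit 3) (.n (nat_lit 364) (nat_lit 2) (.p (nat_lit 367) (nat_lit 1) (.p (nat_lit 368) (nat_lit 1) (.p (nat_lit 369) (nat_lit 1) (.p (nat_lit 370) (nat_lit 1) (.n (nat_lit 372) (nat_lit 1) (.n (nat_lit 373) (nat_lit 1) (.p (nat_lit 374) (nat_lit 2) (.n (nat_lit 380) (nat_lit 3) (.n (nat_lit 381) (nat_lit 2) (.n (nat_lit 382) (nat_lit 3) (.n (nat_lit 383) (nat_lit 2) (.p (nat_lit 391) (nat_lit 1) (.p (nat_lit 392) (nat_lit 1) .z))))))))))))))))))))))))))))))))))))))) (.ct dC2c_c308 (nat_lit 1) (nat_lit 12) (.s true (nat_lit 1) (nat_lit 64) (nat_lit 1) (nat_lit 2) (nat_lit 2) true (nat_lit 12) true (nat_lit 16) false (nat_lit 5) true (nat_lit 17) true (nat_lit 16) (.e true (nat_lit 1) (nat_lit 220) (nat_lit 2) (nat_lit 16) (.e false (nat_lit 1) (nat_lit 64) (nat_lit 18) (nat_lit 5) (.e false (nat_lit 1) (nat_lit 252) (nat_lit 1) (nat_lit 17) (.e false (nat_lit 2) (nat_lit 253) (nat_lit 1) (nat_lit 17) (.e false (nat_lit 2) (nat_lit 254) (nat_lit 1) (nat_lit 17) (.e true (nat_lit 1) (nat_lit 255) (nat_lit 1) (nat_lit 17) (.e true (nat_lit 2) (nat_lit 256) (nat_lit 1) (nat_lit 17) (.e true (nat_lit 3) (nat_lit 258) (nat_lit 1) (nat_lit 17) (.e true (nat_lit 2) (nat_lit 259) (nat_lit 1) (nat_lit 17) (.e false (nat_lit 2) (nat_lit 260) (nat_lit 1) (nat_lit 17) dC2c_i125)))))))))))) .leaf) (nat_lit 139271) (nat_lit 1221) (.n (nat_lit 398) (nat_lit 2) (.p (nat_lit 400) (nat_lit 1) (.n (nat_lit 401) (nat_lit 1) (.n (nat_lit 402) (nat_lit 1) (.n (nat_lit 403) (nat_lit 3) (.p (nat_lit 404) (nat_lit 1) (.n (nat_lit 405) (nat_lit 3) (.n (nat_lit 406) (nat_lit 2) (.n (nat_lit 407) (nat_lit 2) (.n (nat_lit 409) (nat_lit 1) (.p (nat_lit 410) (nat_lit 3) (.n (nat_lit 412) (nat_lit 2) (.n (nat_lit 413) (nat_lit 2) (.p (nat_lit 414) (nat_lit 2) (.p (nat_lit 415) (nat_lit 2) (.p (nat_lit 416) (nat_lit 2) (.n (nat_lit 418) (nat_lit 2) (.p (nat_lit 420) (nat_lit 3) (.n (nat_lit 421) (nat_lit 1) (.p (nat_lit 422) (nat_lit 2) (.p (nat_lit 423) (nat_lit 2) (.n (nat_lit 431) (nat_lit 1) (.n (nat_lit 432) (nat_lit 1) (.p (nat_lit 435) (nat_lit 3) .z)))))))))))))))))))))))) (.ct dC2c_c293 (nat_lit 1) (nat_lit 9) (.s false (nat_lit 1) (nat_lit 11) (nat_lit 1) (nat_lit 7) (nat_lit 7) true (nat_lit 4) true (nat_lit 9) true (nat_lit 7) true (nat_lit 15) true (nat_lit 9) (.s false (nat_lit 2) (nat_lit 12) (nat_lit 1) (nat_lit 7) (nat_lit 7) true (nat_lit 4) true (nat_lit 9) true (nat_lit 7) true (nat_lit 15) true (nat_lit 9) (.s false (nat_lit 3) (nat_lit 11) (nat_lit 2) (nat_lit 7) (nat_lit 6) true (nat_lit 4) true (nat_lit 10) true (nat_lit 7) true (nat_lit 14) true (nat_lit 9) (.s false (nat_lit 2) (nat_lit 12) (nat_lit 2) (nat_lit 7) (nat_lit 6) true (nat_lit 4) true (nat_lit 10) true (nat_lit 7) true (nat_lit 14) true (nat_lit 9) (.s false (nat_lit 1) (nat_lit 11) (nat_lit 7) (nat_lit 7) (nat_lit 1) true (nat_lit 4) true (nat_lit 15) true (nat_lit 7) true (nat_lit 9) true (nat_lit 9) (.s true (nat_lit 1) (nat_lit 12) (nat_lit 7) (nat_lit 7) (nat_lit 1) true (nat_lit 4) true (nat_lit 15) true (nat_lit 7) true (nat_lit 9) true (nat_lit 9) (.s true (nat_lit 2) (nat_lit 15) (nat_lit 7) (nat_lit 0) (nat_lit 7) false (nat_lit 2) true (nat_lit 9) true (nat_lit 6) true (nat_lit 9) true (nat_lit 16) (.s false (nat_lit 3) (nat_lit 16) (nat_lit 2) (nat_lit 2) (nat_lit 14) true (nat_lit 0) true (nat_lit 6) true (nat_lit 5) true (nat_lit 14) true (nat_lit 14) (.s true (nat_lit 2) (nat_lit 17) (nat_lit 2) (nat_lit 2) (nat_lit 14) true (nat_lit 0) true (nat_lit 6) true (nat_lit 5) true (nat_lit 14) true (nat_lit 14) (.s true (nat_lit 3) (nat_lit 16) (nat_lit 2) (nat_lit 4) (nat_lit 7) true (nat_lit 3) true (nat_lit 9) true (nat_lit 5) true (nat_lit 14) true (nat_lit 12) (.s false (nat_lit 3) (nat_lit 16) (nat_lit 2) (nat_lit 15) (nat_lit 2) true (nat_lit 9) true (nat_lit 14) true (nat_lit 5) true (nat_lit 14) true (nat_lit 6) (.s true (nat_lit 3) (nat_lit 16) (nat_lit 14) (nat_lit 2) (nat_lit 2) true (nat_lit 0) true (nat_lit 14) true (nat_lit 5) true (nat_lit 6) true (nat_lit 14) (.s true (nat_lit 3) (nat_lit 16) (nat_lit 15) (nat_lit 2) (nat_lit 2) true (nat_lit 0) true (nat_lit 14) true (nat_lit 5) true (nat_lit 6) true (nat_lit 14) (.s true (nat_lit 3) (nat_lit 17) (nat_lit 14) (nat_lit 2) (nat_lit 2) true (nat_lit 0) true (nat_lit 14) true (nat_lit 5) true (nat_lit 6) true (nat_lit 14) (.s false (nat_lit 1) (nat_lit 17) (nat_lit 15) (nat_lit 2) (nat_lit 2) true (nat_lit 0) true (nat_lit 14) true (nat_lit 5) true (nat_lit 6) true (nat_lit 14) dC2c_i130)))))))))))))))) .leaf) (nat_lit 140289) (nat_lit 471) (.p (nat_lit 205) (nat_lit 3) (.p (nat_lit 206) (nat_lit 3) (.p (nat_lit 207) (nat_lit 3) (.n (nat_lit 208) (nat_lit 1) (.n (nat_lit 209) (nat_lit 1) (.n (nat_lit 211) (nat_lit 2) (.p (nat_lit 213) (nat_lit 2) (.p (nat_lit 215) (nat_lit 3) (.p (nat_lit 218) (nat_lit 2) (.p (nat_lit 219) (nat_lit 3) (.n (nat_lit 221) (nat_lit 3) (.p (nat_lit 222) (nat_lit 2) (.n (nat_lit 225) (nat_lit 2) (.n (nat_lit 226) (nat_lit 2) (.n (nat_lit 227) (nat_lit 3) (.n (nat_lit 228) (nat_lit 1) (.n (nat_lit 229) (nat_lit 3) (.n (nat_lit 230) (nat_lit 3) (.n (nat_lit 231) (nat_lit 1) (.n (nat_lit 232) (nat_lit 1) (.p (nat_lit 234) (nat_lit 1) (.p (nat_lit 242) (nat_lit 1) (.p (nat_lit 246) (nat_lit 1) (.p (nat_lit 247) (nat_lit 1) (.n (nat_lit 251) (nat_lit 3) .z))))))))))))))))))))))))) (.ct dC2c_c307 (nat_lit 1) (nat_lit 13) (.s true (nat_lit 1) (nat_lit 6) (nat_lit 2) (nat_lit 3) (nat_lit 6) true (nat_lit 1) true (nat_lit 8) true (nat_lit 8) true (nat_lit 12) true (nat_lit 11) (.s false (nat_lit 3) (nat_lit 7) (nat_lit 4) (nat_lit 3) (nat_lit 2) true (nat_lit 3) true (nat_lit 12) true (nat_lit 7) true (nat_lit 10) true (nat_lit 11) (.s false (nat_lit 2) (nat_lit 11) (nat_lit 1) (nat_lit 2) (nat_lit 6) true (nat_lit 3) true (nat_lit 8) true (nat_lit 4) true (nat_lit 13) true (nat_lit 12) (.s true (nat_lit 2) (nat_lit 11) (nat_lit 2) (nat_lit 1) (nat_lit 6) true (nat_lit 1) true (nat_lit 8) true (nat_lit 4) true (nat_lit 12) true (nat_lit 13) (.s false (nat_lit 1) (nat_lit 11) (nat_lit 2) (nat_lit 6) (nat_lit 1) true (nat_lit 8) true (nat_lit 13) true (nat_lit 4) true (nat_lit 12) true (nat_lit 8) (.s false (nat_lit 3) (nat_lit 11) (nat_lit 4) (nat_lit 2) (nat_lit 2) true (nat_lit 3) true (nat_lit 12) true (nat_lit 4) true (nat_lit 10) true (nat_lit 12) (.s true (nat_lit 2) (nat_lit 11) (nat_lit 6) (nat_lit 2) (nat_lit 1) true (nat_lit 3) true (nat_lit 13) true (nat_lit 4) true (nat_lit 8) true (nat_lit 12) (.s true (nat_lit 3) (nat_lit 14) (nat_lit 2) (nat_lit 2) (nat_lit 3) true (nat_lit 4) true (nat_lit 11) true (nat_lit 3) true (nat_lit 12) true (nat_lit 12) (.s false (nat_lit 3) (nat_lit 18) (nat_lit 1) (nat_lit 2) (nat_lit 3) true (nat_lit 6) true (nat_lit 11) true (nat_lit 1) true (nat_lit 13) true (nat_lit 12) (.s true (nat_lit 3) (nat_lit 19) (nat_lit 1) (nat_lit 2) (nat_lit 3) true (nat_lit 6) true (nat_lit 11) true (nat_lit 1) true (nat_lit 13) true (nat_lit 12) (.s false (nat_lit 3) (nat_lit 18) (nat_lit 1) (nat_lit 3) (nat_lit 2) true (nat_lit 8) true (nat_lit 12) true (nat_lit 1) true (nat_lit 13) true (nat_lit 11) (.s false (nat_lit 3) (nat_lit 18) (nat_lit 2) (nat_lit 1) (nat_lit 3) true (nat_lit 4) true (nat_lit 11) true (nat_lit 1) true (nat_lit 12) true (nat_lit 13) (.s false (nat_lit 3) (nat_lit 20) (nat_lit 3) (nat_lit 1) (nat_lit 1) true (nat_lit 6) true (nat_lit 13) true (nat_lit 0) true (nat_lit 11) true (nat_lit 13) dC2c_i132)))))))))))))) (.nd .leaf (nat_lit 140290) (nat_lit 566) (.p (nat_lit 257) (nat_lit 1) .z) .df .leaf))))))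

noncomputable def dC2c_t4 : Tr := (.nd (.nd (.nd (.nd (.nd (.nd (.nd .leaf (nat_lit 140295) (nat_lit 1291) (.n (nat_lit 397) (nat_lit 1) (.p (nat_lit 398) (nat_lit 2) (.n (nat_lit 400) (nat_lit 3) (.p (nat_lit 401) (nat_lit 1) (.p (nat_lit 402) (nat_lit 3) (.n (nat_lit 403) (nat_lit 3) (.n (nat_lit 404) (nat_lit 1) (.n (nat_lit 405) (nat_lit 2) (.p (nat_lit 406) (nat_lit 3) (.p (nat_lit 407) (nat_lit 3) (.p (nat_lit 408) (nat_lit 3) (.n (nat_lit 409) (nat_lit 1) (.p (nat_lit 410) (nat_lit 1) (.p (nat_lit 412) (nat_lit 1) (.p (nat_lit 413) (nat_lit 1) (.n (nat_lit 414) (nat_lit 3) (.n (nat_lit 415) (nat_lit 3) (.p (nat_lit 418) (nat_lit 3) (.n (nat_lit 420) (nat_lit 1) (.p (nat_lit 421) (nat_lit 2) (.p (nat_lit 423) (nat_lit 2) (.n (nat_lit 431) (nat_lit 2) (.p (nat_lit 432) (nat_lit 2) (.p (nat_lit 435) (nat_lit 3) .z)))))))))))))))))))))))) (.ct dC2c_c293 (nat_lit 1) (nat_lit 9) (.s true (nat_lit 1) (nat_lit 29) (nat_lit 2) (nat_lit 2) (nat_lit 7) true (nat_lit 3) true (nat_lit 9) true (nat_lit 2) true (nat_lit 14) true (nat_lit 14) (.e false (nat_lit 1) (nat_lit 65) (nat_lit 20) (nat_lit 3) (.e true (nat_lit 3) (nat_lit 252) (nat_lit 2) (nat_lit 14) (.e true (nat_lit 3) (nat_lit 254) (nat_lit 2) (nat_lit 14) dC2c_i135))))) .leaf) (nat_lit 141313) (nat_lit 429) (.p (nat_lit 235) (nat_lit 1) .z) .df .leaf) (nat_lit 141314) (nat_lit 567) (.p (nat_lit 258) (nat_lit 1) .z) .df (.nd (.nd .leaf (nat_lit 141318) (nat_lit 914) (.n (nat_lit 335) (nat_lit 3) (.p (nat_lit 336) (nat_lit 1) (.p (nat_lit 337) (nat_lit 2) (.n (nat_lit 338) (nat_lit 3) (.p (nat_lit 339) (nat_lit 1) (.p (nat_lit 340) (nat_lit 2) (.p (nat_lit 341) (nat_lit 3) (.p (nat_lit 342) (nat_lit 2) (.p (nat_lit 343) (nat_lit 2) (.n (nat_lit 344) (nat_lit 2) (.p (nat_lit 345) (nat_lit 3) (.n (nat_lit 346) (nat_lit 3) (.n (nat_lit 347) (nat_lit 2) (.p (nat_lit 350) (nat_lit 2) (.n (nat_lit 351) (nat_lit 1) (.p (nat_lit 352) (nat_lit 3) (.p (nat_lit 353) (nat_lit 3) (.n (nat_lit 355) (nat_lit 3) (.p (nat_lit 356) (nat_lit 3) (.n (nat_lit 357) (nat_lit 3) (.n (nat_lit 360) (nat_lit 2) (.n (nat_lit 361) (nat_lit 1) (.p (nat_lit 362) (nat_lit 3) (.p (nat_lit 363) (nat_lit 2) (.p (nat_lit 364) (nat_lit 1) (.n (nat_lit 366) (nat_lit 3) (.p (nat_lit 367) (nat_lit 3) (.p (nat_lit 368) (nat_lit 2) (.n (nat_lit 369) (nat_lit 3) (.p (nat_lit 370) (nat_lit 2) (.p (nat_lit 371) (nat_lit 3) (.n (nat_lit 372) (nat_lit 3) (.n (nat_lit 373) (nat_lit 2) (.n (nat_lit 374) (nat_lit 2) (.p (nat_lit 380) (nat_lit 2) (.n (nat_lit 381) (nat_lit 1) (.n (nat_lit 382) (nat_lit 1) (.n (nat_lit 383) (nat_lit 3) (.p (nat_lit 393) (nat_lit 1) .z))))))))))))))))))))))))))))))))))))))) (.ct dC2c_c308 (nat_lit 1) (nat_lit 12) (.s false (nat_lit 2) (nat_lit 7) (nat_lit 3) (nat_lit 4) (nat_lit 7) true (nat_lit 0) true (nat_lit 11) true (nat_lit 11) true (nat_lit 15) true (nat_lit 14) (.s false (nat_lit 1) (nat_lit 7) (nat_lit 3) (nat_lit 7) (nat_lit 4) true (nat_lit 3) true (nat_lit 14) true (nat_lit 11) true (nat_lit 15) true (nat_lit 11) (.s false (nat_lit 1) (nat_lit 8) (nat_lit 2) (nat_lit 6) (nat_lit 7) true (nat_lit 4) true (nat_lit 11) true (nat_lit 10) true (nat_lit 16) true (nat_lit 12) (.s false (nat_lit 1) (nat_lit 9) (nat_lit 7) (nat_lit 1) (nat_lit 7) false (nat_lit 3) true (nat_lit 11) true (nat_lit 10) true (nat_lit 11) true (nat_lit 17) (.s true (nat_lit 1) (nat_lit 8) (nat_lit 7) (nat_lit 2) (nat_lit 6) false (nat_lit 2) true (nat_lit 12) true (nat_lit 10) true (nat_lit 11) true (nat_lit 16) (.s false (nat_lit 1) (nat_lit 8) (nat_lit 7) (nat_lit 7) (nat_lit 1) true (nat_lit 5) true (nat_lit 17) true (nat_lit 10) true (nat_lit 11) true (nat_lit 11) (.s true (nat_lit 2) (nat_lit 10) (nat_lit 5) (nat_lit 7) (nat_lit 2) true (nat_lit 6) true (nat_lit 16) true (nat_lit 9) true (nat_lit 13) true (nat_lit 11) (.s true (nat_lit 1) (nat_lit 10) (nat_lit 7) (nat_lit 0) (nat_lit 7) false (nat_lit 3) true (nat_lit 11) true (nat_lit 9) true (nat_lit 11) true (nat_lit 18) (.s false (nat_lit 1) (nat_lit 10) (nat_lit 7) (nat_lit 7) (nat_lit 0) true (nat_lit 6) true (nat_lit 18) true (nat_lit 9) true (nat_lit 11) true (nat_lit 11) dC2c_i144)))))))))) .leaf) (nat_lit 141319) (nat_lit 1223) (.n (nat_lit 397) (nat_lit 1) (.p (nat_lit 398) (nat_lit 1) (.n (nat_lit 399) (nat_lit 1) (.p (nat_lit 400) (nat_lit 2) (.p (nat_lit 401) (nat_lit 2) (.n (nat_lit 402) (nat_lit 1) (.p (nat_lit 404) (nat_lit 3) (.p (nat_lit 405) (nat_lit 2) (.n (nat_lit 406) (nat_lit 2) (.p (nat_lit 407) (nat_lit 1) (.p (nat_lit 408) (nat_lit 1) (.p (nat_lit 409) (nat_lit 1) (.p (nat_lit 410) (nat_lit 3) (.n (nat_lit 411) (nat_lit 2) (.p (nat_lit 412) (nat_lit 2) (.p (nat_lit 413) (nat_lit 2) (.n (nat_lit 414) (nat_lit 2) (.n (nat_lit 415) (nat_lit 1) (.p (nat_lit 416) (nat_lit 2) (.n (nat_lit 418) (nat_lit 3) (.p (nat_lit 420) (nat_lit 3) (.p (nat_lit 424) (nat_lit 2) (.p (nat_lit 431) (nat_lit 3) (.p (nat_lit 435) (nat_lit 3) .z)))))))))))))))))))))))) (.ct dC2c_c293 (nat_lit 1) (nat_lit 9) (.s true (nat_lit 2) (nat_lit 7) (nat_lit 3) (nat_lit 7) (nat_lit 6) true (nat_lit 2) true (nat_lit 10) true (nat_lit 9) true (nat_lit 13) true (nat_lit 9) (.s false (nat_lit 3) (nat_lit 11) (nat_lit 1) (nat_lit 7) (nat_lit 7) true (nat_lit 4) true (nat_lit 9) true (nat_lit 7) true (nat_lit 15) true (nat_lit 9) (.s false (nat_lit 2) (nat_lit 11) (nat_lit 2) (nat_lit 7) (nat_lit 6) true (nat_lit 4) true (nat_lit 10) true (nat_lit 7) true (nat_lit 14) true (nat_lit 9) (.s true (nat_lit 1) (nat_lit 11) (nat_lit 7) (nat_lit 7) (nat_lit 1) true (nat_lit 4) true (nat_lit 15) true (nat_lit 7) true (nat_lit 9) true (nat_lit 9) (.s false (nat_lit 1) (nat_lit 18) (nat_lit 2) (nat_lit 3) (nat_lit 7) true (nat_lit 3) true (nat_lit 9) true (nat_lit 4) true (nat_lit 14) true (nat_lit 13) (.s true (nat_lit 2) (nat_lit 19) (nat_lit 7) (nat_lit 3) (nat_lit 2) true (nat_lit 3) true (nat_lit 14) true (nat_lit 4) true (nat_lit 9) true (nat_lit 13) (.s true (nat_lit 1) (nat_lit 18) (nat_lit 11) (nat_lit 2) (nat_lit 2) true (nat_lit 1) true (nat_lit 14) true (nat_lit 4) true (nat_lit 7) true (nat_lit 14) (.s true (nat_lit 3) (nat_lit 20) (nat_lit 1) (nat_lit 2) (nat_lit 11) true (nat_lit 2) true (nat_lit 7) true (nat_lit 3) true (nat_lit 15) true (nat_lit 14) (.s true (nat_lit 2) (nat_lit 20) (nat_lit 1) (nat_lit 3) (nat_lit 7) true (nat_lit 4) true (nat_lit 9) true (nat_lit 3) true (nat_lit 15) true (nat_lit 13) (.s true (nat_lit 2) (nat_lit 20) (nat_lit 1) (nat_lit 7) (nat_lit 3) true (nat_lit 8) true (nat_lit 13) true (nat_lit 3) true (nat_lit 15) true (nat_lit 9) (.s true (nat_lit 3) (nat_lit 20) (nat_lit 2) (nat_lit 1) (nat_lit 11) true (nat_lit 1) true (nat_lit 7) true (nat_lit 3) true (nat_lit 14) true (nat_lit 15) (.s false (nat_lit 3) (nat_lit 20) (nat_lit 3) (nat_lit 7) (nat_lit 1) true (nat_lit 8) true (nat_lit 15) true (nat_lit 3) true (nat_lit 13) true (nat_lit 9) (.s true (nat_lit 2) (nat_lit 20) (nat_lit 6) (nat_lit 2) (nat_lit 3) true (nat_lit 2) true (nat_lit 13) true (nat_lit 3) true (nat_lit 10) true (nat_lit 14) (.s true (nat_lit 2) (nat_lit 20) (nat_lit 9) (nat_lit 2) (nat_lit 2) true (nat_lit 2) true (nat_lit 14) true (nat_lit 3) true (nat_lit 8) true (nat_lit 14) (.s true (nat_lit 1) (nat_lit 24) (nat_lit 2) (nat_lit 2) (nat_lit 7) true (nat_lit 3) true (nat_lit 9) true (nat_lit 2) true (nat_lit 14) true (nat_lit 14) (.s true (nat_lit 2) (nat_lit 27) (nat_lit 7) (nat_lit 2) (nat_lit 2) true (nat_lit 3) true (nat_lit 14) true (nat_lit 2) true (nat_lit 9) true (nat_lit 14) (.s false (nat_lit 2) (nat_lit 29) (nat_lit 7) (nat_lit 2) (nat_lit 2) true (nat_lit 3) true (nat_lit 14) true (nat_lit 2) true (nat_lit 9) true (nat_lit 14) (.s false (nat_lit 1) (nat_lit 33) (nat_lit 2) (nat_lit 6) (nat_lit 2) true (nat_lit 9) true (nat_lit 14) true (nat_lit 1) true (nat_lit 14) true (nat_lit 10) dC2c_i146))))))))))))))))))) .leaf)) (nat_lit 142337) (nat_lit 496) (.n (nat_lit 205) (nat_lit 2) (.n (nat_lit 206) (nat_lit 1) (.p (nat_lit 207) (nat_lit 1) (.n (nat_lit 208) (nat_lit 2) (.p (nat_lit 209) (nat_lit 1) (.n (nat_lit 210) (nat_lit 3) (.n (nat_lit 211) (nat_lit 1) (.p (nat_lit 212) (nat_lit 3) (.n (nat_lit 213) (nat_lit 3) (.n (nat_lit 215) (nat_lit 1) (.p (nat_lit 216) (nat_lit 1) (.n (nat_lit 217) (nat_lit 1) (.p (nat_lit 218) (nat_lit 2) (.p (nat_lit 220) (nat_lit 3) (.n (nat_lit 221) (nat_lit 3) (.n (nat_lit 222) (nat_lit 2) (.n (nat_lit 225) (nat_lit 1) (.p (nat_lit 226) (nat_lit 2) (.n (nat_lit 227) (nat_lit 1) (.p (nat_lit 228) (nat_lit 1) (.p (nat_lit 231) (nat_lit 1) (.p (nat_lit 232) (nat_lit 3) (.p (nat_lit 234) (nat_lit 1) (.n (nat_lit 235) (nat_lit 1) (.p (nat_lit 236) (nat_lit 1) (.n (nat_lit 242) (nat_lit 1) (.n (nat_lit 243) (nat_lit 3) (.p (nat_lit 244) (nat_lit 3) (.p (nat_lit 245) (nat_lit 3) (.p (nat_lit 247) (nat_lit 2) (.p (nat_lit 249) (nat_lit 2) (.n (nat_lit 250) (nat_lit 3) (.p (nat_lit 251) (nat_lit 2) .z))))))))))))))))))))))))))))))))) (.ct dC2c_c307 (nat_lit 1) (nat_lit 13) (.s false (nat_lit 1) (nat_lit 7) (nat_lit 1) (nat_lit 3) (nat_lit 6) true (nat_lit 3) true (nat_lit 8) true (nat_lit 7) true (nat_lit 13) true (nat_lit 11) (.s true (nat_lit 3) (nat_lit 9) (nat_lit 1) (nat_lit 2) (nat_lit 7) true (nat_lit 1) true (nat_lit 7) true (nat_lit 6) true (nat_lit 13) true (nat_lit 12) (.s true (nat_lit 3) (nat_lit 9) (nat_lit 2) (nat_lit 2) (nat_lit 6) true (nat_lit 1) true (nat_lit 8) true (nat_lit 6) true (nat_lit 12) true (nat_lit 12) (.s false (nat_lit 3) (nat_lit 13) (nat_lit 1) (nat_lit 1) (nat_lit 7) true (nat_lit 1) true (nat_lit 7) true (nat_lit 4) true (nat_lit 13) true (nat_lit 13) (.s false (nat_lit 1) (nat_lit 12) (nat_lit 1) (nat_lit 6) (nat_lit 2) true (nat_lit 8) true (nat_lit 12) true (nat_lit 4) true (nat_lit 13) true (nat_lit 8) (.s false (nat_lit 2) (nat_lit 13) (nat_lit 2) (nat_lit 1) (nat_lit 6) true (nat_lit 1) true (nat_lit 8) true (nat_lit 4) true (nat_lit 12) true (nat_lit 13) dC2c_i149))))))) (.nd (.nd (.nd .leaf (nat_lit 142338) (nat_lit 568) (.p (nat_lit 259) (nat_lit 1) .z) .df .leaf) (nat_lit 142342) (nat_lit 980) (.n (nat_lit 335) (nat_lit 1) (.p (nat_lit 336) (nat_lit 2) (.n (nat_lit 337) (nat_lit 3) (.p (nat_lit 338) (nat_lit 1) (.p (nat_lit 339) (nat_lit 2) (.p (nat_lit 340) (nat_lit 1) (.p (nat_lit 342) (nat_lit 3) (.p (nat_lit 343) (nat_lit 1) (.p (nat_lit 344) (nat_lit 2) (.p (nat_lit 346) (nat_lit 2) (.p (nat_lit 347) (nat_lit 2) (.n (nat_lit 350) (nat_lit 1) (.p (nat_lit 352) (nat_lit 1) (.n (nat_lit 353) (nat_lit 1) (.n (nat_lit 354) (nat_lit 3) (.p (nat_lit 355) (nat_lit 3) (.n (nat_lit 356) (nat_lit 1) (.p (nat_lit 357) (nat_lit 2) (.p (nat_lit 358) (nat_lit 1) (.n (nat_lit 359) (nat_lit 3) (.p (nat_lit 360) (nat_lit 3) (.n (nat_lit 361) (nat_lit 2) (.p (nat_lit 362) (nat_lit 2) (.n (nat_lit 363) (nat_lit 3) (.p (nat_lit 364) (nat_lit 2) (.p (nat_lit 366) (nat_lit 2) (.n (nat_lit 367) (nat_lit 1) (.n (nat_lit 368) (nat_lit 1) (.n (nat_lit 370) (nat_lit 1) (.n (nat_lit 371) (nat_lit 1) (.n (nat_lit 372) (nat_lit 2) (.p (nat_lit 373) (nat_lit 1) (.n (nat_lit 374) (nat_lit 3) (.n (nat_lit 380) (nat_lit 2) (.p (nat_lit 381) (nat_lit 1) (.p (nat_lit 382) (nat_lit 1) (.p (nat_lit 383) (nat_lit 3) (.n (nat_lit 393) (nat_lit 1) (.p (nat_lit 394) (nat_lit 1) .z))))))))))))))))))))))))))))))))))))))) (.ct dC2c_c308 (nat_lit 1) (nat_lit 12) (.s true (nat_lit 1) (nat_lit 34) (nat_lit 1) (nat_lit 2) (nat_lit 6) true (nat_lit 7) true (nat_lit 12) true (nat_lit 0) true (nat_lit 17) true (nat_lit 16) (.e false (nat_lit 1) (nat_lit 81) (nat_lit 15) (nat_lit 7) (.e false (nat_lit 1) (nat_lit 252) (nat_lit 1) (nat_lit 17) (.e false (nat_lit 3) (nat_lit 254) (nat_lit 1) (nat_lit 17) (.e true (nat_lit 1) (nat_lit 255) (nat_lit 1) (nat_lit 17) (.e false (nat_lit 3) (nat_lit 256) (nat_lit 1) (nat_lit 17) (.e false (nat_lit 3) (nat_lit 258) (nat_lit 1) (nat_lit 17) (.e true (nat_lit 3) (nat_lit 259) (nat_lit 1) (nat_lit 17) dC2c_i151))))))))) .leaf) (nat_lit 142343) (nat_lit 1260) (.p (nat_lit 397) (nat_lit 2) (.n (nat_lit 398) (nat_lit 1) (.n (nat_lit 401) (nat_lit 1) (.n (nat_lit 402) (nat_lit 1) (.n (nat_lit 403) (nat_lit 3) (.n (nat_lit 404) (nat_lit 1) (.n (nat_lit 405) (nat_lit 2) (.n (nat_lit 406) (nat_lit 1) (.p (nat_lit 408) (nat_lit 2) (.p (nat_lit 409) (nat_lit 3) (.p (nat_lit 412) (nat_lit 3) (.p (nat_lit 413) (nat_lit 3) (.p (nat_lit 414) (nat_lit 3) (.n (nat_lit 415) (nat_lit 1) (.n (nat_lit 416) (nat_lit 1) (.p (nat_lit 418) (nat_lit 3) (.p (nat_lit 421) (nat_lit 3) (.p (nat_lit 425) (nat_lit 2) (.p (nat_lit 431) (nat_lit 3) (.n (nat_lit 435) (nat_lit 3) .z)))))))))))))))))))) (.ct dC2c_c293 (nat_lit 1) (nat_lit 9) (.s false (nat_lit 3) (nat_lit 12) (nat_lit 7) (nat_lit 2) (nat_lit 6) false (nat_lit 1) true (nat_lit 10) true (nat_lit 7) true (nat_lit 9) true (nat_lit 14) (.s true (nat_lit 1) (nat_lit 20) (nat_lit 1) (nat_lit 12) (nat_lit 2) true (nat_lit 10) true (nat_lit 14) true (nat_lit 3) true (nat_lit 15) true (nat_lit 7) (.s true (nat_lit 3) (nat_lit 20) (nat_lit 2) (nat_lit 1) (nat_lit 12) true (nat_lit 1) true (nat_lit 7) true (nat_lit 3) true (nat_lit 14) true (nat_lit 15) (.s true (nat_lit 3) (nat_lit 20) (nat_lit 2) (nat_lit 12) (nat_lit 1) true (nat_lit 10) true (nat_lit 15) true (nat_lit 3) true (nat_lit 14) true (nat_lit 7) (.s true (nat_lit 3) (nat_lit 25) (nat_lit 2) (nat_lit 2) (nat_lit 7) true (nat_lit 3) true (nat_lit 9) true (nat_lit 2) true (nat_lit 14) true (nat_lit 14) (.s false (nat_lit 3) (nat_lit 34) (nat_lit 1) (nat_lit 7) (nat_lit 2) true (nat_lit 10) true (nat_lit 14) true (nat_lit 1) true (nat_lit 15) true (nat_lit 9) (.s false (nat_lit 3) (nat_lit 67) (nat_lit 2) (nat_lit 2) (nat_lit 2) true (nat_lit 9) true (nat_lit 14) false (nat_lit 3) true (nat_lit 14) true (nat_lit 14) (.e true (nat_lit 3) (nat_lit 135) (nat_lit 7) (nat_lit 9) (.e false (nat_lit 3) (nat_lit 138) (nat_lit 7) (nat_lit 9) (.e true (nat_lit 3) (nat_lit 140) (nat_lit 7) (nat_lit 9) (.e true (nat_lit 3) (nat_lit 144) (nat_lit 7) (nat_lit 9) (.e false (nat_lit 3) (nat_lit 155) (nat_lit 7) (nat_lit 9) (.e false (nat_lit 3) (nat_lit 254) (nat_lit 2) (nat_lit 14) (.e true (nat_lit 1) (nat_lit 258) (nat_lit 2) (nat_lit 14) (.e false (nat_lit 1) (nat_lit 264) (nat_lit 2) (nat_lit 14) (.e false (nat_lit 1) (nat_lit 265) (nat_lit 2) (nat_lit 14) (.e false (nat_lit 1) (nat_lit 269) (nat_lit 2) (nat_lit 14) dC2c_i152)))))))))))))))))) (.nd (.nd .leaf (nat_lit 143361) (nat_lit 430) (.p (nat_lit 236) (nat_lit 1) .z) .df .leaf) (nat_lit 143362) (nat_lit 569) (.p (nat_lit 260) (nat_lit 1) .z) .df .leaf))) (nat_lit 143366) (nat_lit 1084) (.p (nat_lit 335) (nat_lit 2) (.p (nat_lit 336) (nat_lit 3) (.n (nat_lit 337) (nat_lit 1) (.n (nat_lit 338) (nat_lit 2) (.p (nat_lit 339) (nat_lit 3) (.p (nat_lit 340) (nat_lit 2) (.n (nat_lit 341) (nat_lit 1) (.n (nat_lit 342) (nat_lit 2) (.p (nat_lit 343) (nat_lit 2) (.p (nat_lit 344) (nat_lit 2) (.p (nat_lit 345) (nat_lit 1) (.p (nat_lit 346) (nat_lit 3) (.p (nat_lit 347) (nat_lit 1) (.p (nat_lit 349) (nat_lit 1) (.n (nat_lit 350) (nat_lit 3) (.n (nat_lit 351) (nat_lit 2) (.p (nat_lit 352) (nat_lit 3) (.n (nat_lit 353) (nat_lit 2) (.p (nat_lit 354) (nat_lit 1) (.n (nat_lit 355) (nat_lit 2) (.p (nat_lit 356) (nat_lit 2) (.n (nat_lit 357) (nat_lit 1) (.n (nat_lit 358) (nat_lit 3) (.p (nat_lit 359) (nat_lit 3) (.n (nat_lit 360) (nat_lit 3) (.n (nat_lit 361) (nat_lit 2) (.n (nat_lit 362) (nat_lit 1) (.n (nat_lit 363) (nat_lit 2) (.n (nat_lit 364) (nat_lit 3) (.n (nat_lit 366) (nat_lit 3) (.n (nat_lit 367) (nat_lit 2) (.n (nat_lit 368) (nat_lit 1) (.n (nat_lit 369) (nat_lit 1) (.n (nat_lit 370) (nat_lit 1) (.p (nat_lit 371) (nat_lit 3) (.n (nat_lit 372) (nat_lit 1) (.p (nat_lit 373) (nat_lit 1) (.p (nat_lit 374) (nat_lit 3) (.n (nat_lit 380) (nat_lit 3) (.n (nat_lit 381) (nat_lit 2) (.n (nat_lit 382) (nat_lit 1) (.n (nat_lit 383) (nat_lit 3) (.p (nat_lit 394) (nat_lit 1) .z))))))))))))))))))))))))))))))))))))))))))) (.ct dC2c_c308 (nat_lit 1) (nat_lit 12) (.s true (nat_lit 1) (nat_lit 34) (nat_lit 6) (nat_lit 2) (nat_lit 1) true (nat_lit 7) true (nat_lit 17) true (nat_lit 0) true (nat_lit 12) true (nat_lit 16) (.e false (nat_lit 1) (nat_lit 81) (nat_lit 15) (nat_lit 7) (.e true (nat_lit 1) (nat_lit 253) (nat_lit 1) (nat_lit 17) (.e false (nat_lit 2) (nat_lit 255) (nat_lit 1) (nat_lit 17) (.e true (nat_lit 1) (nat_lit 258) (nat_lit 1) (nat_lit 17) (.e true (nat_lit 2) (nat_lit 259) (nat_lit 1) (nat_lit 17) (.e false (nat_lit 1) (nat_lit 260) (nat_lit 1) (nat_lit 17) (.e false (nat_lit 1) (nat_lit 264) (nat_lit 1) (nat_lit 17) (.e false (nat_lit 1) (nat_lit 267) (nat_lit 1) (nat_lit 17) (.e true (nat_lit 1) (nat_lit 270) (nat_lit 1) (nat_lit 17) (.e true (nat_lit 1) (nat_lit 275) (nat_lit 1) (nat_lit 17) (.e true (nat_lit 1) (nat_lit 41) (nat_lit 34) (nat_lit 0) (.e false (nat_lit 1) (nat_lit 133) (nat_lit 6) (nat_lit 12) (.e true (nat_lit 2) (nat_lit 135) (nat_lit 6) (nat_lit 12) dC2c_i153))))))))))))))) (.nd (.nd (.nd (.nd .leaf (nat_lit 143367) (nat_lit 1207) (.n (nat_lit 397) (nat_lit 2) (.n (nat_lit 399) (nat_lit 3) (.n (nat_lit 401) (nat_lit 3) (.n (nat_lit 402) (nat_lit 1) (.n (nat_lit 403) (nat_lit 1) (.p (nat_lit 404) (nat_lit 1) (.p (nat_lit 405) (nat_lit 1) (.p (nat_lit 406) (nat_lit 1) (.n (nat_lit 407) (nat_lit 1) (.p (nat_lit 409) (nat_lit 2) (.n (nat_lit 411) (nat_lit 3) (.n (nat_lit 412) (nat_lit 2) (.n (nat_lit 413) (nat_lit 2) (.n (nat_lit 414) (nat_lit 1) (.p (nat_lit 415) (nat_lit 2) (.n (nat_lit 416) (nat_lit 3) (.n (nat_lit 418) (nat_lit 1) (.p (nat_lit 420) (nat_lit 3) (.n (nat_lit 421) (nat_lit 1) (.p (nat_lit 424) (nat_lit 2) (.p (nat_lit 425) (nat_lit 2) (.p (nat_lit 431) (nat_lit 1) (.p (nat_lit 432) (nat_lit 3) (.n (nat_lit 435) (nat_lit 2) .z)))))))))))))))))))))))) (.ct dC2c_c293 (nat_lit 1) (nat_lit 9) (.s false (nat_lit 1) (nat_lit 7) (nat_lit 3) (nat_lit 7) (nat_lit 6) true (nat_lit 2) true (nat_lit 10) true (nat_lit 9) true (nat_lit 13) true (nat_lit 9) (.s false (nat_lit 1) (nat_lit 11) (nat_lit 1) (nat_lit 7) (nat_lit 7) true (nat_lit 4) true (nat_lit 9) true (nat_lit 7) true (nat_lit 15) true (nat_lit 9) (.s true (nat_lit 3) (nat_lit 12) (nat_lit 1) (nat_lit 7) (nat_lit 7) true (nat_lit 4) true (nat_lit 9) true (nat_lit 7) true (nat_lit 15) true (nat_lit 9) (.s true (nat_lit 2) (nat_lit 13) (nat_lit 2) (nat_lit 7) (nat_lit 6) true (nat_lit 4) true (nat_lit 10) true (nat_lit 7) true (nat_lit 14) true (nat_lit 9) (.s true (nat_lit 1) (nat_lit 12) (nat_lit 6) (nat_lit 2) (nat_lit 7) false (nat_lit 1) true (nat_lit 9) true (nat_lit 7) true (nat_lit 10) true (nat_lit 14) (.s false (nat_lit 2) (nat_lit 11) (nat_lit 7) (nat_lit 2) (nat_lit 6) false (nat_lit 1) true (nat_lit 10) true (nat_lit 7) true (nat_lit 9) true (nat_lit 14) (.s false (nat_lit 1) (nat_lit 11) (nat_lit 7) (nat_lit 7) (nat_lit 1) true (nat_lit 4) true (nat_lit 15) true (nat_lit 7) true (nat_lit 9) true (nat_lit 9) (.s false (nat_lit 3) (nat_lit 12) (nat_lit 7) (nat_lit 7) (nat_lit 1) true (nat_lit 4) true (nat_lit 15) true (nat_lit 7) true (nat_lit 9) true (nat_lit 9) (.s true (nat_lit 1) (nat_lit 15) (nat_lit 7) (nat_lit 0) (nat_lit 7) false (nat_lit 2) true (nat_lit 9) true (nat_lit 6) true (nat_lit 9) true (nat_lit 16) (.s true (nat_lit 1) (nat_lit 16) (nat_lit 2) (nat_lit 6) (nat_lit 6) true (nat_lit 4) true (nat_lit 10) true (nat_lit 5) true (nat_lit 14) true (nat_lit 10) (.s false (nat_lit 2) (nat_lit 17) (nat_lit 2) (nat_lit 15) (nat_lit 2) true (nat_lit 9) true (nat_lit 14) true (nat_lit 5) true (nat_lit 14) true (nat_lit 6) (.s true (nat_lit 3) (nat_lit 16) (nat_lit 15) (nat_lit 2) (nat_lit 2) true (nat_lit 0) true (nat_lit 14) true (nat_lit 5) true (nat_lit 6) true (nat_lit 14) (.s true (nat_lit 2) (nat_lit 18) (nat_lit 2) (nat_lit 0) (nat_lit 19) false (nat_lit 1) true (nat_lit 4) true (nat_lit 4) true (nat_lit 14) true (nat_lit 16) (.s true (nat_lit 1) (nat_lit 18) (nat_lit 2) (nat_lit 2) (nat_lit 11) true (nat_lit 1) true (nat_lit 7) true (nat_lit 4) true (nat_lit 14) true (nat_lit 14) (.s false (nat_lit 1) (nat_lit 19) (nat_lit 2) (nat_lit 2) (nat_lit 12) true (nat_lit 1) true (nat_lit 7) true (nat_lit 4) true (nat_lit 14) true (nat_lit 14) (.s false (nat_lit 3) (nat_lit 19) (nat_lit 2) (nat_lit 2) (nat_lit 13) true (nat_lit 1) true (nat_lit 7) true (nat_lit 4) true (nat_lit 14) true (nat_lit 14) (.s true (nat_lit 3) (nat_lit 18) (nat_lit 2) (nat_lit 3) (nat_lit 7) true (nat_lit 3) true (nat_lit 9) true (nat_lit 4) true (nat_lit 14) true (nat_lit 13) (.s false (nat_lit 3) (nat_lit 19) (nat_lit 2) (nat_lit 11) (nat_lit 2) true (nat_lit 9) true (nat_lit 14) true (nat_lit 4) true (nat_lit 14) true (nat_lit 7) (.s true (nat_lit 3) (nat_lit 19) (nat_lit 2) (nat_lit 12) (nat_lit 2) true (nat_lit 9) true (nat_lit 14) true (nat_lit 4) true (nat_lit 14) true (nat_lit 7) (.s false (nat_lit 2) (nat_lit 19) (nat_lit 3) (nat_lit 7) (nat_lit 2) true (nat_lit 7) true (nat_lit 14) true (nat_lit 4) true (nat_lit 13) true (nat_lit 9) (.s false (nat_lit 1) (nat_lit 18) (nat_lit 7) (nat_lit 3) (nat_lit 2) true (nat_lit 3) true (nat_lit 14) true (nat_lit 4) true (nat_lit 9) true (nat_lit 13) (.s false (nat_lit 2) (nat_lit 19) (nat_lit 7) (nat_lit 3) (nat_lit 2) true (nat_lit 3) true (nat_lit 14) true (nat_lit 4) true (nat_lit 9) true (nat_lit 13) (.s true (nat_lit 2) (nat_lit 18) (nat_lit 11) (nat_lit 2) (nat_lit 2) true (nat_lit 1) true (nat_lit 14) true (nat_lit 4) true (nat_lit 7) true (nat_lit 14) dC2c_i158)))))))))))))))))))))))) .leaf) (nat_lit 144385) (nat_lit 431) (.p (nat_lit 237) (nat_lit 1) .z) .df .leaf) (nat_lit 144386) (nat_lit 570) (.p (nat_lit 261) (nat_lit 1) .z) .df (.nd (.nd .leaf (nat_lit 144390) (nat_lit 1111) (.n (nat_lit 335) (nat_lit 2) (.n (nat_lit 336) (nat_lit 2) (.p (nat_lit 337) (nat_lit 3) (.n (nat_lit 338) (nat_lit 2) (.p (nat_lit 339) (nat_lit 3) (.n (nat_lit 340) (nat_lit 2) (.p (nat_lit 341) (nat_lit 3) (.n (nat_lit 342) (nat_lit 2) (.p (nat_lit 343) (nat_lit 3) (.n (nat_lit 344) (nat_lit 2) (.p (nat_lit 345) (nat_lit 2) (.n (nat_lit 346) (nat_lit 3) (.p (nat_lit 349) (nat_lit 2) (.n (nat_lit 351) (nat_lit 1) (.n (nat_lit 352) (nat_lit 3) (.p (nat_lit 355) (nat_lit 3) (.n (nat_lit 356) (nat_lit 2) (.p (nat_lit 357) (nat_lit 2) (.p (nat_lit 358) (nat_lit 2) (.n (nat_lit 359) (nat_lit 1) (.n (nat_lit 360) (nat_lit 2) (.p (nat_lit 361) (nat_lit 3) (.p (nat_lit 362) (nat_lit 1) (.n (nat_lit 364) (nat_lit 3) (.n (nat_lit 367) (nat_lit 2) (.p (nat_lit 368) (nat_lit 1) (.p (nat_lit 369) (nat_lit 3) (.p (nat_lit 370) (nat_lit 2) (.n (nat_lit 372) (nat_lit 2) (.n (nat_lit 373) (nat_lit 1) (.p (nat_lit 380) (nat_lit 1) (.p (nat_lit 381) (nat_lit 3) (.p (nat_lit 382) (nat_lit 3) (.p (nat_lit 383) (nat_lit 2) (.p (nat_lit 395) (nat_lit 1) .z))))))))))))))))))))))))))))))))))) (.ct dC2c_c308 (nat_lit 1) (nat_lit 12) (.s true (nat_lit 1) (nat_lit 69) (nat_lit 1) (nat_lit 2) (nat_lit 2) true (nat_lit 12) true (nat_lit 16) false (nat_lit 5) true (nat_lit 17) true (nat_lit 16) (.e true (nat_lit 1) (nat_lit 224) (nat_lit 2) (nat_lit 16) (.e false (nat_lit 1) (nat_lit 69) (nat_lit 18) (nat_lit 5) (.e false (nat_lit 1) (nat_lit 252) (nat_lit 1) (nat_lit 17) (.e true (nat_lit 3) (nat_lit 253) (nat_lit 1) (nat_lit 17) (.e false (nat_lit 3) (nat_lit 254) (nat_lit 1) (nat_lit 17) (.e false (nat_lit 1) (nat_lit 255) (nat_lit 1) (nat_lit 17) (.e false (nat_lit 1) (nat_lit 256) (nat_lit 1) (nat_lit 17) dC2c_i159))))))))) .leaf) (nat_lit 144391) (nat_lit 1219) (.p (nat_lit 398) (nat_lit 2) (.p (nat_lit 399) (nat_lit 2) (.p (nat_lit 400) (nat_lit 1) (.p (nat_lit 401) (nat_lit 3) (.p (nat_lit 402) (nat_lit 2) (.n (nat_lit 403) (nat_lit 2) (.p (nat_lit 404) (nat_lit 3) (.n (nat_lit 405) (nat_lit 2) (.p (nat_lit 406) (nat_lit 2) (.n (nat_lit 407) (nat_lit 2) (.n (nat_lit 408) (nat_lit 1) (.n (nat_lit 409) (nat_lit 2) (.p (nat_lit 411) (nat_lit 2) (.p (nat_lit 412) (nat_lit 3) (.p (nat_lit 413) (nat_lit 3) (.p (nat_lit 415) (nat_lit 3) (.p (nat_lit 416) (nat_lit 2) (.p (nat_lit 418) (nat_lit 2) (.n (nat_lit 420) (nat_lit 1) (.p (nat_lit 421) (nat_lit 2) (.p (nat_lit 426) (nat_lit 2) (.n (nat_lit 431) (nat_lit 3) (.p (nat_lit 432) (nat_lit 1) (.n (nat_lit 435) (nat_lit 2) .z)))))))))))))))))))))))) (.ct dC2c_c293 (nat_lit 1) (nat_lit 9) (.s false (nat_lit 2) (nat_lit 11) (nat_lit 1) (nat_lit 7) (nat_lit 7) true (nat_lit 4) true (nat_lit 9) true (nat_lit 7) true (nat_lit 15) true (nat_lit 9) (.s false (nat_lit 3) (nat_lit 12) (nat_lit 1) (nat_lit 7) (nat_lit 7) true (nat_lit 4) true (nat_lit 9) true (nat_lit 7) true (nat_lit 15) true (nat_lit 9) (.s true (nat_lit 2) (nat_lit 11) (nat_lit 2) (nat_lit 7) (nat_lit 6) true (nat_lit 4) true (nat_lit 10) true (nat_lit 7) true (nat_lit 14) true (nat_lit 9) (.s false (nat_lit 1) (nat_lit 12) (nat_lit 6) (nat_lit 2) (nat_lit 7) false (nat_lit 1) true (nat_lit 9) true (nat_lit 7) true (nat_lit 10) true (nat_lit 14) (.s false (nat_lit 1) (nat_lit 12) (nat_lit 7) (nat_lit 2) (nat_lit 6) false (nat_lit 1) true (nat_lit 10) true (nat_lit 7) true (nat_lit 9) true (nat_lit 14) (.s true (nat_lit 2) (nat_lit 11) (nat_lit 7) (nat_lit 7) (nat_lit 1) true (nat_lit 4) true (nat_lit 15) true (nat_lit 7) true (nat_lit 9) true (nat_lit 9) (.s false (nat_lit 1) (nat_lit 12) (nat_lit 7) (nat_lit 7) (nat_lit 1) true (nat_lit 4) true (nat_lit 15) true (nat_lit 7) true (nat_lit 9) true (nat_lit 9) (.s true (nat_lit 1) (nat_lit 15) (nat_lit 5) (nat_lit 7) (nat_lit 2) true (nat_lit 5) true (nat_lit 14) true (nat_lit 6) true (nat_lit 11) true (nat_lit 9) (.s false (nat_lit 3) (nat_lit 15) (nat_lit 7) (nat_lit 0) (nat_lit 7) false (nat_lit 2) true (nat_lit 9) true (nat_lit 6) true (nat_lit 9) true (nat_lit 16) (.s false (nat_lit 2) (nat_lit 16) (nat_lit 2) (nat_lit 2) (nat_lit 14) true (nat_lit 0) true (nat_lit 6) true (nat_lit 5) true (nat_lit 14) true (nat_lit 14) (.s true (nat_lit 3) (nat_lit 17) (nat_lit 2) (nat_lit 2) (nat_lit 14) true (nat_lit 0) true (nat_lit 6) true (nat_lit 5) true (nat_lit 14) true (nat_lit 14) (.s true (nat_lit 2) (nat_lit 17) (nat_lit 2) (nat_lit 4) (nat_lit 7) true (nat_lit 3) true (nat_lit 9) true (nat_lit 5) true (nat_lit 14) true (nat_lit 12) (.s true (nat_lit 2) (nat_lit 16) (nat_lit 15) (nat_lit 2) (nat_lit 2) true (nat_lit 0) true (nat_lit 14) true (nat_lit 5) true (nat_lit 6) true (nat_lit 14) (.s true (nat_lit 2) (nat_lit 17) (nat_lit 14) (nat_lit 2) (nat_lit 2) true (nat_lit 0) true (nat_lit 14) true (nat_lit 5) true (nat_lit 6) true (nat_lit 14) dC2c_i165))))))))))))))) .leaf)) (nat_lit 145409) (nat_lit 498) (.p (nat_lit 205) (nat_lit 3) (.n (nat_lit 206) (nat_lit 1) (.p (nat_lit 207) (nat_lit 1) (.n (nat_lit 208) (nat_lit 3) (.n (nat_lit 209) (nat_lit 3) (.p (nat_lit 210) (nat_lit 2) (.n (nat_lit 211) (nat_lit 2) (.n (nat_lit 212) (nat_lit 1) (.p (nat_lit 213) (nat_lit 2) (.n (nat_lit 214) (nat_lit 1) (.p (nat_lit 215) (nat_lit 3) (.n (nat_lit 216) (nat_lit 2) (.n (nat_lit 217) (nat_lit 1) (.p (nat_lit 219) (nat_lit 2) (.n (nat_lit 221) (nat_lit 2) (.p (nat_lit 225) (nat_lit 1) (.n (nat_lit 227) (nat_lit 3) (.n (nat_lit 228) (nat_lit 3) (.p (nat_lit 229) (nat_lit 1) (.n (nat_lit 231) (nat_lit 1) (.n (nat_lit 232) (nat_lit 3) (.p (nat_lit 234) (nat_lit 3) (.n (nat_lit 235) (nat_lit 2) (.p (nat_lit 237) (nat_lit 2) (.n (nat_lit 242) (nat_lit 2) (.n (nat_lit 243) (nat_lit 2) (.p (nat_lit 244) (nat_lit 2) (.p (nat_lit 245) (nat_lit 2) (.n (nat_lit 246) (nat_lit 1) (.n (nat_lit 247) (nat_lit 1) (.n (nat_lit 248) (nat_lit 3) (.p (nat_lit 250) (nat_lit 1) (.p (nat_lit 251) (nat_lit 3) .z))))))))))))))))))))))))))))))))) (.ct dC2c_c307 (nat_lit 1) (nat_lit 13) (.s false (nat_lit 1) (nat_lit 9) (nat_lit 2) (nat_lit 1) (nat_lit 7) true (nat_lit 0) true (nat_lit 7) true (nat_lit 6) true (nat_lit 12) true (nat_lit 13) (.s false (nat_lit 1) (nat_lit 9) (nat_lit 2) (nat_lit 2) (nat_lit 6) true (nat_lit 1) true (nat_lit 8) true (nat_lit 6) true (nat_lit 12) true (nat_lit 12) dC2c_i166))) (.nd (.nd (.nd .leaf (nat_lit 145410) (nat_lit 571) (.p (nat_lit 262) (nat_lit 1) .z) .df .leaf) (nat_lit 145414) (nat_lit 1122) (.p (nat_lit 335) (nat_lit 2) (.p (nat_lit 338) (nat_lit 1) (.p (nat_lit 339) (nat_lit 2) (.n (nat_lit 340) (nat_lit 1) (.p (nat_lit 341) (nat_lit 3) (.p (nat_lit 342) (nat_lit 3) (.n (nat_lit 344) (nat_lit 2) (.n (nat_lit 346) (nat_lit 2) (.n (nat_lit 347) (nat_lit 2) (.n (nat_lit 349) (nat_lit 2) (.p (nat_lit 350) (nat_lit 2) (.p (nat_lit 351) (nat_lit 2) (.p (nat_lit 352) (nat_lit 1) (.p (nat_lit 354) (nat_lit 1) (.p (nat_lit 355) (nat_lit 1) (.n (nat_lit 356) (nat_lit 1) (.p (nat_lit 357) (nat_lit 1) (.p (nat_lit 358) (nat_lit 3) (.n (nat_lit 359) (nat_lit 1) (.n (nat_lit 360) (nat_lit 1) (.n (nat_lit 361) (nat_lit 1) (.n (nat_lit 362) (nat_lit 1) (.n (nat_lit 363) (nat_lit 2) (.n (nat_lit 364) (nat_lit 3) (.p (nat_lit 366) (nat_lit 3) (.n (nat_lit 367) (nat_lit 2) (.p (nat_lit 369) (nat_lit 2) (.n (nat_lit 370) (nat_lit 1) (.p (nat_lit 371) (nat_lit 1) (.n (nat_lit 372) (nat_lit 1) (.p (nat_lit 374) (nat_lit 2) (.p (nat_lit 380) (nat_lit 1) (.p (nat_lit 381) (nat_lit 3) (.p (nat_lit 382) (nat_lit 3) (.p (nat_lit 383) (nat_lit 2) (.p (nat_lit 390) (nat_lit 2) (.n (nat_lit 393) (nat_lit 2) (.p (nat_lit 395) (nat_lit 2) .z)))))))))))))))))))))))))))))))))))))) (.ct dC2c_c308 (nat_lit 1) (nat_lit 12) (.s true (nat_lit 1) (nat_lit 70) (nat_lit 2) (nat_lit 2) (nat_lit 1) true (nat_lit 12) true (nat_lit 17) false (nat_lit 5) true (nat_lit 16) true (nat_lit 16) (.e true (nat_lit 1) (nat_lit 262) (nat_lit 1) (nat_lit 17) (.e false (nat_lit 1) (nat_lit 70) (nat_lit 19) (nat_lit 5) (.e false (nat_lit 3) (nat_lit 206) (nat_lit 2) (nat_lit 16) (.e true (nat_lit 1) (nat_lit 208) (nat_lit 2) (nat_lit 16) (.e true (nat_lit 1) (nat_lit 209) (nat_lit 2) (nat_lit 16) (.e false (nat_lit 1) (nat_lit 210) (nat_lit 2) (nat_lit 16) (.e false (nat_lit 3) (nat_lit 211) (nat_lit 2) (nat_lit 16) (.e false (nat_lit 3) (nat_lit 212) (nat_lit 2) (nat_lit 16) (.e false (nat_lit 2) (nat_lit 213) (nat_lit 2) (nat_lit 16) dC2c_i167))))))))))) .leaf) (nat_lit 145415) (nat_lit 1298) (.p (nat_lit 397) (nat_lit 2) (.n (nat_lit 398) (nat_lit 2) (.n (nat_lit 399) (nat_lit 1) (.n (nat_lit 400) (nat_lit 1) (.n (nat_lit 401) (nat_lit 2) (.p (nat_lit 403) (nat_lit 3) (.n (nat_lit 404) (nat_lit 3) (.n (nat_lit 405) (nat_lit 3) (.p (nat_lit 406) (nat_lit 2) (.p (nat_lit 407) (nat_lit 3) (.p (nat_lit 409) (nat_lit 3) (.n (nat_lit 411) (nat_lit 3) (.n (nat_lit 412) (nat_lit 1) (.n (nat_lit 413) (nat_lit 1) (.p (nat_lit 414) (nat_lit 3) (.p (nat_lit 415) (nat_lit 1) (.n (nat_lit 416) (nat_lit 3) (.p (nat_lit 418) (nat_lit 1) (.n (nat_lit 420) (nat_lit 3) (.p (nat_lit 421) (nat_lit 2) (.p (nat_lit 424) (nat_lit 3) (.n (nat_lit 426) (nat_lit 3) (.p (nat_lit 431) (nat_lit 2) (.p (nat_lit 432) (nat_lit 1) (.n (nat_lit 435) (nat_lit 3) .z))))))))))))))))))))))))) (.ct dC2c_c293 (nat_lit 1) (nat_lit 9) (.s true (nat_lit 1) (nat_lit 70) (nat_lit 2) (nat_lit 2) (nat_lit 2) true (nat_lit 9) true (nat_lit 14) false (nat_lit 3) true (nat_lit 14) true (nat_lit 14) (.e true (nat_lit 1) (nat_lit 262) (nat_lit 2) (nat_lit 14) (.e false (nat_lit 1) (nat_lit 70) (nat_lit 20) (nat_lit 3) dC2c_i168)))) (.nd .leaf (nat_lit 146433) (nat_lit 495) (.n (nat_lit 205) (nat_lit 1) (.p (nat_lit 206) (nat_lit 2) (.p (nat_lit 207) (nat_lit 3) (.p (nat_lit 209) (nat_lit 1) (.n (nat_lit 210) (nat_lit 3) (.p (nat_lit 211) (nat_lit 2) (.p (nat_lit 212) (nat_lit 3) (.n (nat_lit 213) (nat_lit 1) (.n (nat_lit 215) (nat_lit 1) (.n (nat_lit 216) (nat_lit 1) (.p (nat_lit 217) (nat_lit 1) (.p (nat_lit 219) (nat_lit 2) (.p (nat_lit 220) (nat_lit 1) (.n (nat_lit 221) (nat_lit 3) (.p (nat_lit 222) (nat_lit 1) (.n (nat_lit 225) (nat_lit 2) (.n (nat_lit 226) (nat_lit 1) (.p (nat_lit 227) (nat_lit 3) (.p (nat_lit 228) (nat_lit 3) (.p (nat_lit 231) (nat_lit 2) (.n (nat_lit 232) (nat_lit 2) (.n (nat_lit 234) (nat_lit 3) (.p (nat_lit 235) (nat_lit 1) (.n (nat_lit 237) (nat_lit 1) (.n (nat_lit 242) (nat_lit 3) (.n (nat_lit 244) (nat_lit 2) (.n (nat_lit 245) (nat_lit 1) (.n (nat_lit 246) (nat_lit 1) (.n (nat_lit 247) (nat_lit 3) (.p (nat_lit 248) (nat_lit 3) (.n (nat_lit 249) (nat_lit 2) (.n (nat_lit 250) (nat_lit 2) .z)))))))))))))))))))))))))))))))) (.ct dC2c_c307 (nat_lit 1) (nat_lit 13) (.s false (nat_lit 1) (nat_lit 9) (nat_lit 1) (nat_lit 2) (nat_lit 7) true (nat_lit 1) true (nat_lit 7) true (nat_lit 6) true (nat_lit 13) true (nat_lit 12) (.s false (nat_lit 1) (nat_lit 9) (nat_lit 2) (nat_lit 2) (nat_lit 6) true (nat_lit 1) true (nat_lit 8) true (nat_lit 6) true (nat_lit 12) true (nat_lit 12) dC2c_i172))) .leaf)))) (nat_lit 146434) (nat_lit 572) (.p (nat_lit 263) (nat_lit 1) .z) .df (.nd (.nd (.nd (.nd (.nd .leaf (nat_lit 146438) (nat_lit 1123) (.p (nat_lit 340) (nat_lit 1) (.p (nat_lit 341) (nat_lit 2) (.p (nat_lit 342) (nat_lit 1) (.p (nat_lit 343) (nat_lit 2) (.p (nat_lit 344) (nat_lit 1) (.n (nat_lit 345) (nat_lit 3) (.n (nat_lit 346) (nat_lit 3) (.p (nat_lit 347) (nat_lit 3) (.n (nat_lit 349) (nat_lit 1) (.p (nat_lit 350) (nat_lit 2) (.p (nat_lit 351) (nat_lit 3) (.n (nat_lit 352) (nat_lit 2) (.p (nat_lit 353) (nat_lit 3) (.p (nat_lit 354) (nat_lit 2) (.p (nat_lit 355) (nat_lit 2) (.n (nat_lit 356) (nat_lit 1) (.p (nat_lit 357) (nat_lit 1) (.n (nat_lit 359) (nat_lit 1) (.p (nat_lit 361) (nat_lit 3) (.p (nat_lit 362) (nat_lit 2) (.n (nat_lit 363) (nat_lit 1) (.n (nat_lit 364) (nat_lit 3) (.p (nat_lit 366) (nat_lit 3) (.n (nat_lit 367) (nat_lit 2) (.n (nat_lit 368) (nat_lit 1) (.n (nat_lit 369) (nat_lit 2) (.n (nat_lit 370) (nat_lit 2) (.n (nat_lit 371) (nat_lit 3) (.p (nat_lit 372) (nat_lit 2) (.p (nat_lit 373) (nat_lit 1) (.n (nat_lit 374) (nat_lit 1) (.p (nat_lit 380) (nat_lit 1) (.p (nat_lit 381) (nat_lit 3) (.p (nat_lit 382) (nat_lit 2) (.n (nat_lit 383) (nat_lit 1) (.n (nat_lit 390) (nat_lit 1) (.p (nat_lit 393) (nat_lit 1) (.n (nat_lit 395) (nat_lit 1) .z)))))))))))))))))))))))))))))))))))))) (.ct dC2c_c308 (nat_lit 1) (nat_lit 12) (.s true (nat_lit 3) (nat_lit 20) (nat_lit 2) (nat_lit 9) (nat_lit 1) true (nat_lit 12) true (nat_lit 17) true (nat_lit 4) true (nat_lit 16) true (nat_lit 10) (.e true (nat_lit 1) (nat_lit 132) (nat_lit 6) (nat_lit 12) (.e false (nat_lit 3) (nat_lit 134) (nat_lit 6) (nat_lit 12) (.e false (nat_lit 1) (nat_lit 136) (nat_lit 6) (nat_lit 12) dC2c_i173))))) .leaf) (nat_lit 146439) (nat_lit 1296) (.p (nat_lit 397) (nat_lit 1) (.n (nat_lit 398) (nat_lit 2) (.p (nat_lit 399) (nat_lit 1) (.p (nat_lit 400) (nat_lit 3) (.p (nat_lit 401) (nat_lit 3) (.p (nat_lit 402) (nat_lit 1) (.n (nat_lit 403) (nat_lit 2) (.p (nat_lit 405) (nat_lit 3) (.n (nat_lit 407) (nat_lit 3) (.n (nat_lit 409) (nat_lit 1) (.n (nat_lit 410) (nat_lit 1) (.p (nat_lit 411) (nat_lit 2) (.p (nat_lit 412) (nat_lit 2) (.p (nat_lit 413) (nat_lit 2) (.n (nat_lit 414) (nat_lit 3) (.p (nat_lit 415) (nat_lit 3) (.n (nat_lit 416) (nat_lit 1) (.p (nat_lit 418) (nat_lit 2) (.n (nat_lit 421) (nat_lit 1) (.p (nat_lit 424) (nat_lit 2) (.n (nat_lit 426) (nat_lit 2) (.n (nat_lit 431) (nat_lit 1) (.n (nat_lit 435) (nat_lit 3) .z))))))))))))))))))))))) (.ct dC2c_c293 (nat_lit 1) (nat_lit 9) (.s true (nat_lit 1) (nat_lit 71) (nat_lit 2) (nat_lit 2) (nat_lit 2) true (nat_lit 9) true (nat_lit 14) false (nat_lit 3) true (nat_lit 14) true (nat_lit 14) (.e false (nat_lit 1) (nat_lit 71) (nat_lit 20) (nat_lit 3) (.e false (nat_lit 2) (nat_lit 252) (nat_lit 2) (nat_lit 14) dC2c_i174)))) .leaf) (nat_lit 147457) (nat_lit 455) (.p (nat_lit 205) (nat_lit 2) (.p (nat_lit 208) (nat_lit 3) (.p (nat_lit 215) (nat_lit 2) (.p (nat_lit 216) (nat_lit 2) (.n (nat_lit 225) (nat_lit 1) (.n (nat_lit 227) (nat_lit 1) (.p (nat_lit 242) (nat_lit 1) (.n (nat_lit 245) (nat_lit 1) (.p (nat_lit 248) (nat_lit 1) .z))))))))) (.ct dC2c_c307 (nat_lit 1) (nat_lit 13) (.s false (nat_lit 1) (nat_lit 8) (nat_lit 1) (nat_lit 7) (nat_lit 2) true (nat_lit 8) true (nat_lit 12) true (nat_lit 6) true (nat_lit 13) true (nat_lit 7) (.e true (nat_lit 1) (nat_lit 72) (nat_lit 6) (nat_lit 8) (.e false (nat_lit 1) (nat_lit 128) (nat_lit 2) (nat_lit 12) (.e true (nat_lit 1) (nat_lit 46) (nat_lit 8) (nat_lit 6) (.e false (nat_lit 1) (nat_lit 152) (nat_lit 1) (nat_lit 13) (.e false (nat_lit 1) (nat_lit 52) (nat_lit 7) (nat_lit 7) .nil))))))) (.nd (.nd .leaf (nat_lit 147458) (nat_lit 573) (.p (nat_lit 264) (nat_lit 1) .z) .df .leaf) (nat_lit 147462) (nat_lit 928) (.n (nat_lit 335) (nat_lit 1) (.p (nat_lit 338) (nat_lit 1) (.p (nat_lit 339) (nat_lit 2) (.p (nat_lit 340) (nat_lit 2) (.n (nat_lit 341) (nat_lit 2) (.p (nat_lit 342) (nat_lit 3) (.n (nat_lit 343) (nat_lit 3) (.p (nat_lit 344) (nat_lit 1) (.n (nat_lit 345) (nat_lit 3) (.n (nat_lit 346) (nat_lit 3) (.p (nat_lit 347) (nat_lit 3) (.p (nat_lit 349) (nat_lit 3) (.n (nat_lit 350) (nat_lit 1) (.p (nat_lit 353) (nat_lit 1) (.p (nat_lit 354) (nat_lit 3) (.p (nat_lit 355) (nat_lit 2) (.p (nat_lit 356) (nat_lit 3) (.n (nat_lit 357) (nat_lit 3) (.p (nat_lit 358) (nat_lit 2) (.p (nat_lit 359) (nat_lit 3) (.n (nat_lit 360) (nat_lit 2) (.p (nat_lit 362) (nat_lit 3) (.p (nat_lit 364) (nat_lit 3) (.p (nat_lit 366) (nat_lit 2) (.p (nat_lit 367) (nat_lit 2) (.p (nat_lit 368) (nat_lit 3) (.n (nat_lit 370) (nat_lit 3) (.p (nat_lit 371) (nat_lit 3) (.n (nat_lit 372) (nat_lit 2) (.n (nat_lit 373) (nat_lit 3) (.p (nat_lit 374) (nat_lit 2) (.n (nat_lit 380) (nat_lit 3) (.n (nat_lit 381) (nat_lit 2) (.n (nat_lit 382) (nat_lit 3) (.n (nat_lit 383) (nat_lit 2) (.p (nat_lit 390) (nat_lit 2) .z)))))))))))))))))))))))))))))))))))) (.ct dC2c_c308 (nat_lit 1) (nat_lit 12) (.s true (nat_lit 2) (nat_lit 7) (nat_lit 3) (nat_lit 7) (nat_lit 4) true (nat_lit 3) true (nat_lit 14) true (nat_lit 11) true (nat_lit 15) true (nat_lit 11) (.s true (nat_lit 3) (nat_lit 8) (nat_lit 1) (nat_lit 7) (nat_lit 7) true (nat_lit 5) true (nat_lit 11) true (nat_lit 10) true (nat_lit 17) true (nat_lit 11) (.s false (nat_lit 3) (nat_lit 8) (nat_lit 2) (nat_lit 6) (nat_lit 7) true (nat_lit 4) true (nat_lit 11) true (nat_lit 10) true (nat_lit 16) true (nat_lit 12) (.s true (nat_lit 3) (nat_lit 8) (nat_lit 2) (nat_lit 7) (nat_lit 6) true (nat_lit 5) true (nat_lit 12) true (nat_lit 10) true (nat_lit 16) true (nat_lit 11) (.s true (nat_lit 2) (nat_lit 8) (nat_lit 6) (nat_lit 2) (nat_lit 7) false (nat_lit 2) true (nat_lit 11) true (nat_lit 10) true (nat_lit 12) true (nat_lit 16) (.s true (nat_lit 3) (nat_lit 9) (nat_lit 6) (nat_lit 2) (nat_lit 7) false (nat_lit 2) true (nat_lit 11) true (nat_lit 10) true (nat_lit 12) true (nat_lit 16) (.s false (nat_lit 1) (nat_lit 9) (nat_lit 7) (nat_lit 1) (nat_lit 7) false (nat_lit 3) true (nat_lit 11) true (nat_lit 10) true (nat_lit 11) true (nat_lit 17) (.s true (nat_lit 3) (nat_lit 9) (nat_lit 7) (nat_lit 2) (nat_lit 6) false (nat_lit 2) true (nat_lit 12) true (nat_lit 10) true (nat_lit 11) true (nat_lit 16) (.s false (nat_lit 1) (nat_lit 10) (nat_lit 2) (nat_lit 7) (nat_lit 5) true (nat_lit 6) true (nat_lit 13) true (nat_lit 9) true (nat_lit 16) true (nat_lit 11) (.s false (nat_lit 3) (nat_lit 10) (nat_lit 5) (nat_lit 2) (nat_lit 7) false (nat_lit 1) true (nat_lit 11) true (nat_lit 9) true (nat_lit 13) true (nat_lit 16) (.s false (nat_lit 2) (nat_lit 10) (nat_lit 7) (nat_lit 0) (nat_lit 7) false (nat_lit 3) true (nat_lit 11) true (nat_lit 9) true (nat_lit 11) true (nat_lit 18) (.s true (nat_lit 3) (nat_lit 10) (nat_lit 7) (nat_lit 7) (nat_lit 0) true (nat_lit 6) true (nat_lit 18) true (nat_lit 9) true (nat_lit 11) true (nat_lit 11) (.s true (nat_lit 3) (nat_lit 11) (nat_lit 1) (nat_lit 7) (nat_lit 6) true (nat_lit 7) true (nat_lit 12) true (nat_lit 8) true (nat_lit 17) true (nat_lit 11) (.s true (nat_lit 2) (nat_lit 12) (nat_lit 2) (nat_lit 6) (nat_lit 6) true (nat_lit 5) true (nat_lit 12) true (nat_lit 8) true (nat_lit 16) true (nat_lit 12) dC2c_i182))))))))))))))) .leaf)) (nat_lit 147463) (nat_lit 1198) (.p (nat_lit 435) (nat_lit 1) .z) .df (.nd (.nd (.nd .leaf (nat_lit 148481) (nat_lit 469) (.p (nat_lit 205) (nat_lit 3) (.n (nat_lit 206) (nat_lit 2) (.p (nat_lit 207) (nat_lit 1) (.n (nat_lit 208) (nat_lit 1) (.n (nat_lit 209) (nat_lit 1) (.p (nat_lit 210) (nat_lit 1) (.p (nat_lit 211) (nat_lit 2) (.n (nat_lit 213) (nat_lit 1) (.n (nat_lit 214) (nat_lit 1) (.p (nat_lit 215) (nat_lit 2) (.p (nat_lit 216) (nat_lit 3) (.n (nat_lit 217) (nat_lit 1) (.p (nat_lit 218) (nat_lit 1) (.p (nat_lit 219) (nat_lit 3) (.p (nat_lit 220) (nat_lit 1) (.p (nat_lit 221) (nat_lit 3) (.p (nat_lit 222) (nat_lit 2) (.n (nat_lit 225) (nat_lit 3) (.n (nat_lit 226) (nat_lit 2) (.n (nat_lit 227) (nat_lit 1) (.n (nat_lit 228) (nat_lit 1) (.n (nat_lit 229) (nat_lit 3) (.n (nat_lit 230) (nat_lit 3) (.n (nat_lit 231) (nat_lit 2) (.p (nat_lit 233) (nat_lit 1) (.p (nat_lit 235) (nat_lit 1) (.p (nat_lit 242) (nat_lit 1) (.n (nat_lit 245) (nat_lit 3) (.p (nat_lit 246) (nat_lit 1) (.p (nat_lit 247) (nat_lit 1) (.p (nat_lit 248) (nat_lit 3) (.p (nat_lit 251) (nat_lit 3) .z)))))))))))))))))))))))))))))))) (.ct dC2c_c307 (nat_lit 1) (nat_lit 13) (.s true (nat_lit 3) (nat_lit 6) (nat_lit 1) (nat_lit 5) (nat_lit 6) true (nat_lit 3) true (nat_lit 8) true (nat_lit 8) true (nat_lit 13) true (nat_lit 9) (.s true (nat_lit 3) (nat_lit 6) (nat_lit 2) (nat_lit 3) (nat_lit 6) true (nat_lit 1) true (nat_lit 8) true (nat_lit 8) true (nat_lit 12) true (nat_lit 11) (.s false (nat_lit 3) (nat_lit 12) (nat_lit 1) (nat_lit 1) (nat_lit 7) true (nat_lit 1) true (nat_lit 7) true (nat_lit 4) true (nat_lit 13) true (nat_lit 13) (.s true (nat_lit 3) (nat_lit 11) (nat_lit 1) (nat_lit 2) (nat_lit 6) true (nat_lit 3) true (nat_lit 8) true (nat_lit 4) true (nat_lit 13) true (nat_lit 12) (.s true (nat_lit 1) (nat_lit 12) (nat_lit 1) (nat_lit 2) (nat_lit 6) true (nat_lit 3) true (nat_lit 8) true (nat_lit 4) true (nat_lit 13) true (nat_lit 12) (.s false (nat_lit 2) (nat_lit 13) (nat_lit 1) (nat_lit 2) (nat_lit 6) true (nat_lit 3) true (nat_lit 8) true (nat_lit 4) true (nat_lit 13) true (nat_lit 12) (.s true (nat_lit 1) (nat_lit 13) (nat_lit 2) (nat_lit 1) (nat_lit 6) true (nat_lit 1) true (nat_lit 8) true (nat_lit 4) true (nat_lit 12) true (nat_lit 13) (.s true (nat_lit 2) (nat_lit 13) (nat_lit 2) (nat_lit 2) (nat_lit 4) true (nat_lit 3) true (nat_lit 10) true (nat_lit 4) true (nat_lit 12) true (nat_lit 12) (.s true (nat_lit 3) (nat_lit 13) (nat_lit 2) (nat_lit 4) (nat_lit 2) true (nat_lit 7) true (nat_lit 12) true (nat_lit 4) true (nat_lit 12) true (nat_lit 10) (.s false (nat_lit 3) (nat_lit 11) (nat_lit 2) (nat_lit 6) (nat_lit 1) true (nat_lit 8) true (nat_lit 13) true (nat_lit 4) true (nat_lit 12) true (nat_lit 8) (.s true (nat_lit 3) (nat_lit 12) (nat_lit 2) (nat_lit 6) (nat_lit 1) true (nat_lit 8) true (nat_lit 13) true (nat_lit 4) true (nat_lit 12) true (nat_lit 8) dC2c_i185)))))))))))) .leaf) (nat_lit 148482) (nat_lit 574) (.p (nat_lit 265) (nat_lit 1) .z) .df .leaf) (nat_lit 148486) (nat_lit 1007) (.n (nat_lit 335) (nat_lit 1) (.p (nat_lit 336) (nat_lit 2) (.n (nat_lit 337) (nat_lit 3) (.p (nat_lit 338) (nat_lit 2) (.n (nat_lit 339) (nat_lit 3) (.p (nat_lit 341) (nat_lit 3) (.p (nat_lit 342) (nat_lit 3) (.p (nat_lit 344) (nat_lit 1) (.p (nat_lit 345) (nat_lit 1) (.n (nat_lit 346) (nat_lit 1) (.n (nat_lit 347) (nat_lit 3) (.p (nat_lit 349) (nat_lit 2) (.n (nat_lit 350) (nat_lit 3) (.p (nat_lit 351) (nat_lit 1) (.n (nat_lit 352) (nat_lit 1) (.p (nat_lit 354) (nat_lit 1) (.p (nat_lit 355) (nat_lit 2) (.p (nat_lit 356) (nat_lit 2) (.n (nat_lit 357) (nat_lit 2) (.n (nat_lit 358) (nat_lit 3) (.p (nat_lit 359) (nat_lit 1) (.n (nat_lit 360) (nat_lit 1) (.p (nat_lit 361) (nat_lit 2) (.p (nat_lit 362) (nat_lit 3) (.p (nat_lit 363) (nat_lit 3) (.p (nat_lit 364) (nat_lit 2) (.n (nat_lit 366) (nat_lit 2) (.n (nat_lit 367) (nat_lit 1) (.p (nat_lit 369) (nat_lit 1) (.p (nat_lit 370) (nat_lit 1) (.n (nat_lit 371) (nat_lit 1) (.p (nat_lit 374) (nat_lit 3) (.n (nat_lit 380) (nat_lit 3) (.n (nat_lit 381) (nat_lit 2) (.n (nat_lit 382) (nat_lit 3) (.n (nat_lit 383) (nat_lit 2) (.p (nat_lit 391) (nat_lit 1) (.p (nat_lit 393) (nat_lit 1) .z)))))))))))))))))))))))))))))))))))))) (.ct dC2c_c308 (nat_lit 1) (nat_lit 12) (.s true (nat_lit 3) (nat_lit 8) (nat_lit 1) (nat_lit 7) (nat_lit 7) true (nat_lit 5) true (nat_lit 11) true (nat_lit 10) true (nat_lit 17) true (nat_lit 11) (.s true (nat_lit 3) (nat_lit 8) (nat_lit 7) (nat_lit 7) (nat_lit 1) true (nat_lit 5) true (nat_lit 17) true (nat_lit 10) true (nat_lit 11) true (nat_lit 11) (.s true (nat_lit 3) (nat_lit 19) (nat_lit 1) (nat_lit 3) (nat_lit 7) true (nat_lit 5) true (nat_lit 11) true (nat_lit 5) true (nat_lit 17) true (nat_lit 15) (.s false (nat_lit 3) (nat_lit 60) (nat_lit 1) (nat_lit 2) (nat_lit 2) true (nat_lit 12) true (nat_lit 16) false (nat_lit 5) true (nat_lit 17) true (nat_lit 16) (.s false (nat_lit 3) (nat_lit 61) (nat_lit 1) (nat_lit 2) (nat_lit 2) true (nat_lit 12) true (nat_lit 16) false (nat_lit 5) true (nat_lit 17) true (nat_lit 16) (.s false (nat_lit 3) (nat_lit 73) (nat_lit 1) (nat_lit 2) (nat_lit 2) true (nat_lit 12) true (nat_lit 16) false (nat_lit 5) true (nat_lit 17) true (nat_lit 16) (.s true (nat_lit 3) (nat_lit 60) (nat_lit 2) (nat_lit 1) (nat_lit 2) true (nat_lit 11) true (nat_lit 16) false (nat_lit 5) true (nat_lit 16) true (nat_lit 17) (.s true (nat_lit 3) (nat_lit 61) (nat_lit 2) (nat_lit 1) (nat_lit 2) true (nat_lit 11) true (nat_lit 16) false (nat_lit 5) true (nat_lit 16) true (nat_lit 17) (.s true (nat_lit 3) (nat_lit 73) (nat_lit 2) (nat_lit 1) (nat_lit 2) true (nat_lit 11) true (nat_lit 16) false (nat_lit 5) true (nat_lit 16) true (nat_lit 17) (.s true (nat_lit 3) (nat_lit 60) (nat_lit 2) (nat_lit 2) (nat_lit 1) true (nat_lit 12) true (nat_lit 17) false (nat_lit 5) true (nat_lit 16) true (nat_lit 16) (.s true (nat_lit 3) (nat_lit 61) (nat_lit 2) (nat_lit 2) (nat_lit 1) true (nat_lit 12) true (nat_lit 17) false (nat_lit 5) true (nat_lit 16) true (nat_lit 16) (.s false (nat_lit 3) (nat_lit 73) (nat_lit 2) (nat_lit 2) (nat_lit 1) true (nat_lit 12) true (nat_lit 17) false (nat_lit 5) true (nat_lit 16) true (nat_lit 16) (.s false (nat_lit 1) (nat_lit 102) (nat_lit 0) (nat_lit 1) (nat_lit 1) true (nat_lit 15) true (nat_lit 17) false (nat_lit 10) true (nat_lit 18) true (nat_lit 17) (.s true (nat_lit 1) (nat_lit 103) (nat_lit 0) (nat_lit 1) (nat_lit 1) true (nat_lit 15) true (nat_lit 17) false (nat_lit 10) true (nat_lit 18) true (nat_lit 17) (.e true (nat_lit 3) (nat_lit 72) (nat_lit 19) (nat_lit 5) (.e false (nat_lit 3) (nat_lit 126) (nat_lit 7) (nat_lit 11) (.e false (nat_lit 1) (nat_lit 272) (nat_lit 1) (nat_lit 17) (.e true (nat_lit 3) (nat_lit 62) (nat_lit 19) (nat_lit 5) (.e false (nat_lit 3) (nat_lit 63) (nat_lit 19) (nat_lit 5) (.e true (nat_lit 3) (nat_lit 65) (nat_lit 19) (nat_lit 5) (.e false (nat_lit 3) (nat_lit 66) (nat_lit 19) (nat_lit 5) (.e true (nat_lit 3) (nat_lit 119) (nat_lit 7) (nat_lit 11) (.e true (nat_lit 3) (nat_lit 120) (nat_lit 7) (nat_lit 11) (.e false (nat_lit 3) (nat_lit 122) (nat_lit 7) (nat_lit 11) dC2c_i188))))))))))))))))))))))))) (.nd (.nd .leaf (nat_lit 148487) (nat_lit 1231) (.p (nat_lit 398) (nat_lit 2) (.n (nat_lit 399) (nat_lit 2) (.n (nat_lit 400) (nat_lit 2) (.p (nat_lit 401) (nat_lit 1) (.n (nat_lit 402) (nat_lit 3) (.p (nat_lit 403) (nat_lit 1) (.p (nat_lit 404) (nat_lit 3) (.n (nat_lit 405) (nat_lit 3) (.p (nat_lit 406) (nat_lit 1) (.p (nat_lit 407) (nat_lit 1) (.n (nat_lit 408) (nat_lit 3) (.p (nat_lit 410) (nat_lit 3) (.n (nat_lit 411) (nat_lit 2) (.p (nat_lit 412) (nat_lit 1) (.p (nat_lit 413) (nat_lit 1) (.n (nat_lit 414) (nat_lit 2) (.n (nat_lit 415) (nat_lit 3) (.p (nat_lit 416) (nat_lit 1) (.n (nat_lit 418) (nat_lit 1) (.n (nat_lit 421) (nat_lit 3) (.p (nat_lit 422) (nat_lit 2) (.p (nat_lit 424) (nat_lit 2) (.n (nat_lit 431) (nat_lit 1) (.p (nat_lit 435) (nat_lit 2) .z)))))))))))))))))))))))) (.ct dC2c_c293 (nat_lit 1) (nat_lit 9) (.s false (nat_lit 1) (nat_lit 20) (nat_lit 1) (nat_lit 2) (nat_lit 11) true (nat_lit 2) true (nat_lit 7) true (nat_lit 3) true (nat_lit 15) true (nat_lit 14) (.s true (nat_lit 1) (nat_lit 20) (nat_lit 1) (nat_lit 7) (nat_lit 3) true (nat_lit 8) true (nat_lit 13) true (nat_lit 3) true (nat_lit 15) true (nat_lit 9) (.s true (nat_lit 1) (nat_lit 24) (nat_lit 2) (nat_lit 2) (nat_lit 7) true (nat_lit 3) true (nat_lit 9) true (nat_lit 2) true (nat_lit 14) true (nat_lit 14) (.s true (nat_lit 1) (nat_lit 25) (nat_lit 2) (nat_lit 2) (nat_lit 7) true (nat_lit 3) true (nat_lit 9) true (nat_lit 2) true (nat_lit 14) true (nat_lit 14) (.s false (nat_lit 1) (nat_lit 27) (nat_lit 2) (nat_lit 2) (nat_lit 7) true (nat_lit 3) true (nat_lit 9) true (nat_lit 2) true (nat_lit 14) true (nat_lit 14) (.s true (nat_lit 1) (nat_lit 29) (nat_lit 2) (nat_lit 2) (nat_lit 7) true (nat_lit 3) true (nat_lit 9) true (nat_lit 2) true (nat_lit 14) true (nat_lit 14) (.s true (nat_lit 1) (nat_lit 47) (nat_lit 3) (nat_lit 2) (nat_lit 2) true (nat_lit 7) true (nat_lit 14) false (nat_lit 1) true (nat_lit 13) true (nat_lit 14) (.e true (nat_lit 1) (nat_lit 48) (nat_lit 26) (nat_lit 2) (.e false (nat_lit 3) (nat_lit 305) (nat_lit 1) (nat_lit 15) (.e false (nat_lit 3) (nat_lit 306) (nat_lit 1) (nat_lit 15) (.e true (nat_lit 3) (nat_lit 307) (nat_lit 1) (nat_lit 15) dC2c_i189)))))))))))) .leaf) (nat_lit 149505) (nat_lit 432) (.p (nat_lit 238) (nat_lit 1) .z) .df .leaf))) (nat_lit 149506) (nat_lit 575) (.p (nat_lit 266) (nat_lit 1) .z) .df (.nd (.nd (.nd (.nd .leaf (nat_lit 149510) (nat_lit 1128) (.p (nat_lit 335) (nat_lit 2) (.p (nat_lit 336) (nat_lit 1) (.p (nat_lit 337) (nat_lit 2) (.p (nat_lit 338) (nat_lit 3) (.n (nat_lit 339) (nat_lit 2) (.n (nat_lit 340) (nat_lit 3) (.p (nat_lit 341) (nat_lit 1) (.n (nat_lit 342) (nat_lit 2) (.n (nat_lit 343) (nat_lit 1) (.n (nat_lit 344) (nat_lit 3) (.p (nat_lit 345) (nat_lit 3) (.p (nat_lit 346) (nat_lit 1) (.n (nat_lit 347) (nat_lit 2) (.p (nat_lit 348) (nat_lit 1) (.p (nat_lit 349) (nat_lit 3) (.n (nat_lit 350) (nat_lit 1) (.n (nat_lit 351) (nat_lit 1) (.p (nat_lit 352) (nat_lit 3) (.n (nat_lit 353) (nat_lit 1) (.n (nat_lit 354) (nat_lit 3) (.n (nat_lit 355) (nat_lit 3) (.n (nat_lit 356) (nat_lit 3) (.n (nat_lit 357) (nat_lit 3) (.n (nat_lit 358) (nat_lit 3) (.p (nat_lit 359) (nat_lit 2) (.p (nat_lit 362) (nat_lit 3) (.n (nat_lit 363) (nat_lit 1) (.n (nat_lit 364) (nat_lit 2) (.p (nat_lit 365) (nat_lit 1) (.p (nat_lit 368) (nat_lit 1) (.p (nat_lit 370) (nat_lit 1) (.n (nat_lit 371) (nat_lit 3) (.n (nat_lit 372) (nat_lit 2) (.n (nat_lit 373) (nat_lit 2) (.n (nat_lit 374) (nat_lit 3) (.p (nat_lit 375) (nat_lit 2) (.n (nat_lit 376) (nat_lit 2) (.p (nat_lit 378) (nat_lit 1) (.n (nat_lit 379) (nat_lit 3) (.n (nat_lit 380) (nat_lit 3) (.p (nat_lit 381) (nat_lit 3) (.p (nat_lit 383) (nat_lit 3) (.n (nat_lit 384) (nat_lit 1) (.n (nat_lit 386) (nat_lit 1) (.p (nat_lit 390) (nat_lit 2) (.p (nat_lit 391) (nat_lit 2) (.n (nat_lit 393) (nat_lit 1) .z))))))))))))))))))))))))))))))))))))))))))))))) (.ct dC2c_c308 (nat_lit 1) (nat_lit 12) (.s true (nat_lit 1) (nat_lit 45) (nat_lit 6) (nat_lit 1) (nat_lit 0) true (nat_lit 8) true (nat_lit 18) false (nat_lit 2) true (nat_lit 12) true (nat_lit 17) dC2c_i191)) .leaf) (nat_lit 149511) (nat_lit 1230) (.n (nat_lit 397) (nat_lit 3) (.n (nat_lit 398) (nat_lit 2) (.n (nat_lit 399) (nat_lit 3) (.n (nat_lit 400) (nat_lit 1) (.p (nat_lit 401) (nat_lit 3) (.p (nat_lit 406) (nat_lit 3) (.p (nat_lit 407) (nat_lit 2) (.p (nat_lit 408) (nat_lit 2) (.n (nat_lit 409) (nat_lit 1) (.n (nat_lit 410) (nat_lit 2) (.n (nat_lit 411) (nat_lit 3) (.n (nat_lit 412) (nat_lit 2) (.n (nat_lit 413) (nat_lit 2) (.p (nat_lit 414) (nat_lit 3) (.p (nat_lit 415) (nat_lit 2) (.p (nat_lit 416) (nat_lit 3) (.p (nat_lit 418) (nat_lit 1) (.p (nat_lit 420) (nat_lit 3) (.p (nat_lit 427) (nat_lit 2) (.n (nat_lit 431) (nat_lit 3) (.n (nat_lit 435) (nat_lit 1) .z))))))))))))))))))))) (.ct dC2c_c293 (nat_lit 1) (nat_lit 9) (.s false (nat_lit 1) (nat_lit 33) (nat_lit 1) (nat_lit 2) (nat_lit 7) true (nat_lit 4) true (nat_lit 9) true (nat_lit 1) true (nat_lit 15) true (nat_lit 14) dC2c_i192)) .leaf) (nat_lit 150529) (nat_lit 433) (.p (nat_lit 239) (nat_lit 1) .z) .df (.nd (.nd .leaf (nat_lit 150530) (nat_lit 576) (.p (nat_lit 267) (nat_lit 1) .z) .df .leaf) (nat_lit 150534) (nat_lit 977) (.n (nat_lit 335) (nat_lit 2) (.p (nat_lit 336) (nat_lit 2) (.n (nat_lit 337) (nat_lit 3) (.p (nat_lit 338) (nat_lit 1) (.p (nat_lit 339) (nat_lit 2) (.n (nat_lit 340) (nat_lit 1) (.n (nat_lit 341) (nat_lit 3) (.n (nat_lit 342) (nat_lit 3) (.p (nat_lit 344) (nat_lit 1) (.p (nat_lit 345) (nat_lit 1) (.n (nat_lit 346) (nat_lit 3) (.p (nat_lit 347) (nat_lit 2) (.n (nat_lit 350) (nat_lit 1) (.n (nat_lit 351) (nat_lit 1) (.p (nat_lit 352) (nat_lit 2) (.p (nat_lit 353) (nat_lit 2) (.p (nat_lit 354) (nat_lit 2) (.n (nat_lit 355) (nat_lit 2) (.p (nat_lit 358) (nat_lit 3) (.p (nat_lit 359) (nat_lit 3) (.p (nat_lit 360) (nat_lit 3) (.n (nat_lit 361) (nat_lit 1) (.n (nat_lit 362) (nat_lit 2) (.n (nat_lit 363) (nat_lit 3) (.n (nat_lit 364) (nat_lit 1) (.p (nat_lit 366) (nat_lit 1) (.p (nat_lit 367) (nat_lit 1) (.n (nat_lit 368) (nat_lit 1) (.n (nat_lit 370) (nat_lit 1) (.p (nat_lit 371) (nat_lit 1) (.n (nat_lit 372) (nat_lit 3) (.p (nat_lit 373) (nat_lit 1) (.p (nat_lit 374) (nat_lit 3) (.p (nat_lit 380) (nat_lit 3) (.p (nat_lit 381) (nat_lit 2) (.p (nat_lit 382) (nat_lit 1) (.p (nat_lit 383) (nat_lit 3) (.p (nat_lit 396) (nat_lit 1) .z)))))))))))))))))))))))))))))))))))))) (.ct dC2c_c308 (nat_lit 1) (nat_lit 12) (.s true (nat_lit 1) (nat_lit 81) (nat_lit 2) (nat_lit 1) (nat_lit 1) true (nat_lit 12) true (nat_lit 17) false (nat_lit 7) true (nat_lit 16) true (nat_lit 17) (.e true (nat_lit 1) (nat_lit 279) (nat_lit 1) (nat_lit 17) (.e false (nat_lit 1) (nat_lit 81) (nat_lit 15) (nat_lit 7) (.e true (nat_lit 3) (nat_lit 205) (nat_lit 2) (nat_lit 16) (.e true (nat_lit 3) (nat_lit 206) (nat_lit 2) (nat_lit 16) (.e true (nat_lit 3) (nat_lit 207) (nat_lit 2) (nat_lit 16) (.e false (nat_lit 3) (nat_lit 209) (nat_lit 2) (nat_lit 16) (.e false (nat_lit 3) (nat_lit 210) (nat_lit 2) (nat_lit 16) (.e false (nat_lit 2) (nat_lit 211) (nat_lit 2) (nat_lit 16) (.e true (nat_lit 1) (nat_lit 212) (nat_lit 2) (nat_lit 16) dC2c_i193))))))))))) .leaf)) (nat_lit 150535) (nat_lit 1247) (.n (nat_lit 397) (nat_lit 1) (.p (nat_lit 398) (nat_lit 1) (.n (nat_lit 399) (nat_lit 1) (.p (nat_lit 400) (nat_lit 3) (.p (nat_lit 401) (nat_lit 1) (.p (nat_lit 402) (nat_lit 2) (.n (nat_lit 403) (nat_lit 2) (.p (nat_lit 404) (nat_lit 1) (.n (nat_lit 405) (nat_lit 1) (.n (nat_lit 406) (nat_lit 2) (.p (nat_lit 407) (nat_lit 3) (.p (nat_lit 408) (nat_lit 1) (.p (nat_lit 409) (nat_lit 1) (.p (nat_lit 410) (nat_lit 1) (.p (nat_lit 412) (nat_lit 3) (.p (nat_lit 413) (nat_lit 3) (.n (nat_lit 414) (nat_lit 3) (.n (nat_lit 415) (nat_lit 2) (.p (nat_lit 416) (nat_lit 3) (.n (nat_lit 418) (nat_lit 1) (.p (nat_lit 421) (nat_lit 3) (.p (nat_lit 428) (nat_lit 2) (.p (nat_lit 431) (nat_lit 2) (.n (nat_lit 432) (nat_lit 3) (.n (nat_lit 435) (nat_lit 3) .z))))))))))))))))))))))))) (.ct dC2c_c293 (nat_lit 1) (nat_lit 9) (.s true (nat_lit 3) (nat_lit 12) (nat_lit 2) (nat_lit 6) (nat_lit 7) true (nat_lit 3) true (nat_lit 9) true (nat_lit 7) true (nat_lit 14) true (nat_lit 10) (.s false (nat_lit 3) (nat_lit 13) (nat_lit 2) (nat_lit 7) (nat_lit 6) true (nat_lit 4) true (nat_lit 10) true (nat_lit 7) true (nat_lit 14) true (nat_lit 9) (.s false (nat_lit 3) (nat_lit 13) (nat_lit 6) (nat_lit 2) (nat_lit 7) false (nat_lit 1) true (nat_lit 9) true (nat_lit 7) true (nat_lit 10) true (nat_lit 14) (.s true (nat_lit 3) (nat_lit 12) (nat_lit 7) (nat_lit 7) (nat_lit 1) true (nat_lit 4) true (nat_lit 15) true (nat_lit 7) true (nat_lit 9) true (nat_lit 9) (.s false (nat_lit 3) (nat_lit 19) (nat_lit 2) (nat_lit 2) (nat_lit 12) true (nat_lit 1) true (nat_lit 7) true (nat_lit 4) true (nat_lit 14) true (nat_lit 14) (.s true (nat_lit 3) (nat_lit 19) (nat_lit 2) (nat_lit 2) (nat_lit 13) true (nat_lit 1) true (nat_lit 7) true (nat_lit 4) true (nat_lit 14) true (nat_lit 14) (.s true (nat_lit 1) (nat_lit 18) (nat_lit 13) (nat_lit 2) (nat_lit 2) true (nat_lit 1) true (nat_lit 14) true (nat_lit 4) true (nat_lit 7) true (nat_lit 14) (.s false (nat_lit 3) (nat_lit 20) (nat_lit 1) (nat_lit 12) (nat_lit 2) true (nat_lit 10) true (nat_lit 14) true (nat_lit 3) true (nat_lit 15) true (nat_lit 7) (.s false (nat_lit 1) (nat_lit 20) (nat_lit 2) (nat_lit 1) (nat_lit 12) true (nat_lit 1) true (nat_lit 7) true (nat_lit 3) true (nat_lit 14) true (nat_lit 15) (.s false (nat_lit 3) (nat_lit 20) (nat_lit 2) (nat_lit 13) (nat_lit 1) true (nat_lit 10) true (nat_lit 15) true (nat_lit 3) true (nat_lit 14) true (nat_lit 7) (.s true (nat_lit 3) (nat_lit 25) (nat_lit 2) (nat_lit 2) (nat_lit 7) true (nat_lit 3) true (nat_lit 9) true (nat_lit 2) true (nat_lit 14) true (nat_lit 14) (.s false (nat_lit 2) (nat_lit 27) (nat_lit 2) (nat_lit 2) (nat_lit 7) true (nat_lit 3) true (nat_lit 9) true (nat_lit 2) true (nat_lit 14) true (nat_lit 14) (.s true (nat_lit 2) (nat_lit 27) (nat_lit 2) (nat_lit 7) (nat_lit 2) true (nat_lit 9) true (nat_lit 14) true (nat_lit 2) true (nat_lit 14) true (nat_lit 9) (.s true (nat_lit 2) (nat_lit 27) (nat_lit 7) (nat_lit 2) (nat_lit 2) true (nat_lit 3) true (nat_lit 14) true (nat_lit 2) true (nat_lit 9) true (nat_lit 14) (.s false (nat_lit 3) (nat_lit 34) (nat_lit 1) (nat_lit 7) (nat_lit 2) true (nat_lit 10) true (nat_lit 14) true (nat_lit 1) true (nat_lit 15) true (nat_lit 9) (.s true (nat_lit 1) (nat_lit 34) (nat_lit 2) (nat_lit 2) (nat_lit 6) true (nat_lit 4) true (nat_lit 10) true (nat_lit 1) true (nat_lit 14) true (nat_lit 14) (.s false (nat_lit 3) (nat_lit 35) (nat_lit 2) (nat_lit 7) (nat_lit 1) true (nat_lit 10) true (nat_lit 15) true (nat_lit 1) true (nat_lit 14) true (nat_lit 9) (.s true (nat_lit 1) (nat_lit 35) (nat_lit 6) (nat_lit 2) (nat_lit 2) true (nat_lit 4) true (nat_lit 14) true (nat_lit 1) true (nat_lit 10) true (nat_lit 14) (.s true (nat_lit 1) (nat_lit 48) (nat_lit 3) (nat_lit 1) (nat_lit 2) true (nat_lit 7) true (nat_lit 14) false (nat_lit 2) true (nat_lit 13) true (nat_lit 15) (.s false (nat_lit 1) (nat_lit 48) (nat_lit 3) (nat_lit 2) (nat_lit 1) true (nat_lit 8) true (nat_lit 15) false (nat_lit 2) true (nat_lit 13) true (nat_lit 14) (.s false (nat_lit 3) (nat_lit 80) (nat_lit 1) (nat_lit 2) (nat_lit 2) true (nat_lit 10) true (nat_lit 14) false (nat_lit 4) true (nat_lit 15) true (nat_lit 14) (.s false (nat_lit 1) (nat_lit 81) (nat_lit 1) (nat_lit 2) (nat_lit 2) true (nat_lit 10) true (nat_lit 14) false (nat_lit 4) true (nat_lit 15) true (nat_lit 14) (.s false (nat_lit 3) (nat_lit 90) (nat_lit 1) (nat_lit 2) (nat_lit 2) true (nat_lit 10) true (nat_lit 14) false (nat_lit 4) true (nat_lit 15) true (nat_lit 14) dC2c_i195)))))))))))))))))))))))) (.nd (.nd (.nd .leaf (nat_lit 151553) (nat_lit 434) (.p (nat_lit 240) (nat_lit 1) .z) .df .leaf) (nat_lit 151554) (nat_lit 577) (.p (nat_lit 268) (nat_lit 1) .z) .df .leaf) (nat_lit 151558) (nat_lit 1149) (.p (nat_lit 335) (nat_lit 2) (.n (nat_lit 336) (nat_lit 2) (.p (nat_lit 337) (nat_lit 2) (.n (nat_lit 339) (nat_lit 2) (.n (nat_lit 340) (nat_lit 1) (.p (nat_lit 342) (nat_lit 1) (.p (nat_lit 343) (nat_lit 1) (.p (nat_lit 345) (nat_lit 3) (.n (nat_lit 346) (nat_lit 2) (.n (nat_lit 347) (nat_lit 3) (.p (nat_lit 348) (nat_lit 2) (.p (nat_lit 349) (nat_lit 1) (.p (nat_lit 350) (nat_lit 3) (.n (nat_lit 351) (nat_lit 3) (.p (nat_lit 352) (nat_lit 3) (.p (nat_lit 353) (nat_lit 3) (.p (nat_lit 354) (nat_lit 3) (.p (nat_lit 355) (nat_lit 3) (.n (nat_lit 356) (nat_lit 1) (.p (nat_lit 357) (nat_lit 3) (.p (nat_lit 358) (nat_lit 3) (.p (nat_lit 359) (nat_lit 3) (.n (nat_lit 361) (nat_lit 1) (.p (nat_lit 362) (nat_lit 1) (.p (nat_lit 363) (nat_lit 2) (.p (nat_lit 364) (nat_lit 1) (.p (nat_lit 365) (nat_lit 3) (.p (nat_lit 366) (nat_lit 1) (.p (nat_lit 367) (nat_lit 1) (.p (nat_lit 368) (nat_lit 2) (.n (nat_lit 369) (nat_lit 3) (.p (nat_lit 370) (nat_lit 2) (.p (nat_lit 371) (nat_lit 1) (.n (nat_lit 372) (nat_lit 3) (.p (nat_lit 373) (nat_lit 2) (.n (nat_lit 374) (nat_lit 2) (.p (nat_lit 375) (nat_lit 3) (.p (nat_lit 376) (nat_lit 1) (.p (nat_lit 378) (nat_lit 3) (.p (nat_lit 379) (nat_lit 1) (.n (nat_lit 380) (nat_lit 3) (.p (nat_lit 381) (nat_lit 1) (.p (nat_lit 382) (nat_lit 3) (.n (nat_lit 383) (nat_lit 3) (.n (nat_lit 384) (nat_lit 3) (.n (nat_lit 386) (nat_lit 2) (.p (nat_lit 387) (nat_lit 1) (.p (nat_lit 388) (nat_lit 1) (.n (nat_lit 390) (nat_lit 1) (.n (nat_lit 391) (nat_lit 3) (.n (nat_lit 392) (nat_lit 2) (.n (nat_lit 393) (nat_lit 3) (.p (nat_lit 395) (nat_lit 1) (.p (nat_lit 396) (nat_lit 2) .z)))))))))))))))))))))))))))))))))))))))))))))))))))))) (.ct dC2c_c308 (nat_lit 1) (nat_lit 12) (.s true (nat_lit 3) (nat_lit 19) (nat_lit 6) (nat_lit 6) (nat_lit 0) true (nat_lit 8) true (nat_lit 18) true (nat_lit 5) true (nat_lit 12) true (nat_lit 12) (.e false (nat_lit 3) (nat_lit 91) (nat_lit 13) (nat_lit 8) (.e true (nat_lit 3) (nat_lit 92) (nat_lit 13) (nat_lit 8) (.e true (nat_lit 3) (nat_lit 93) (nat_lit 13) (nat_lit 8) (.e false (nat_lit 3) (nat_lit 95) (nat_lit 13) (nat_lit 8) (.e true (nat_lit 3) (nat_lit 96) (nat_lit 13) (nat_lit 8) (.e true (nat_lit 1) (nat_lit 289) (nat_lit 0) (nat_lit 18) (.e false (nat_lit 3) (nat_lit 290) (nat_lit 0) (nat_lit 18) (.e true (nat_lit 2) (nat_lit 291) (nat_lit 0) (nat_lit 18) (.e true (nat_lit 1) (nat_lit 298) (nat_lit 0) (nat_lit 18) (.e true (nat_lit 2) (nat_lit 296) (nat_lit 0) (nat_lit 18) (.e true (nat_lit 3) (nat_lit 293) (nat_lit 0) (nat_lit 18) (.e true (nat_lit 1) (nat_lit 302) (nat_lit 0) (nat_lit 18) dC2c_i196)))))))))))))) (.nd .leaf (nat_lit 151559) (nat_lit 1320) (.n (nat_lit 397) (nat_lit 1) (.n (nat_lit 398) (nat_lit 2) (.p (nat_lit 399) (nat_lit 3) (.n (nat_lit 400) (nat_lit 2) (.n (nat_lit 401) (nat_lit 3) (.n (nat_lit 402) (nat_lit 2) (.n (nat_lit 403) (nat_lit 1) (.n (nat_lit 404) (nat_lit 3) (.p (nat_lit 405) (nat_lit 3) (.p (nat_lit 406) (nat_lit 2) (.p (nat_lit 407) (nat_lit 1) (.n (nat_lit 408) (nat_lit 3) (.n (nat_lit 409) (nat_lit 2) (.p (nat_lit 410) (nat_lit 3) (.n (nat_lit 411) (nat_lit 1) (.n (nat_lit 412) (nat_lit 2) (.n (nat_lit 413) (nat_lit 2) (.n (nat_lit 414) (nat_lit 2) (.n (nat_lit 415) (nat_lit 2) (.p (nat_lit 416) (nat_lit 1) (.p (nat_lit 418) (nat_lit 3) (.n (nat_lit 420) (nat_lit 1) (.p (nat_lit 421) (nat_lit 2) (.p (nat_lit 429) (nat_lit 2) (.p (nat_lit 431) (nat_lit 1) (.n (nat_lit 432) (nat_lit 2) (.n (nat_lit 435) (nat_lit 1) .z))))))))))))))))))))))))))) (.ct dC2c_c293 (nat_lit 1) (nat_lit 9) (.s true (nat_lit 1) (nat_lit 83) (nat_lit 2) (nat_lit 1) (nat_lit 2) true (nat_lit 9) true (nat_lit 14) false (nat_lit 4) true (nat_lit 14) true (nat_lit 15) (.e false (nat_lit 1) (nat_lit 83) (nat_lit 18) (nat_lit 4) (.e false (nat_lit 1) (nat_lit 253) (nat_lit 2) (nat_lit 14) (.e true (nat_lit 2) (nat_lit 254) (nat_lit 2) (nat_lit 14) (.e true (nat_lit 3) (nat_lit 255) (nat_lit 2) (nat_lit 14) (.e false (nat_lit 2) (nat_lit 256) (nat_lit 2) (nat_lit 14) dC2c_i197))))))) .leaf))))) (nat_lit 152577) (nat_lit 472) (.p (nat_lit 205) (nat_lit 2) (.n (nat_lit 206) (nat_lit 1) (.p (nat_lit 207) (nat_lit 2) (.p (nat_lit 208) (nat_lit 2) (.n (nat_lit 209) (nat_lit 2) (.p (nat_lit 210) (nat_lit 1) (.n (nat_lit 211) (nat_lit 2) (.p (nat_lit 213) (nat_lit 3) (.n (nat_lit 214) (nat_lit 1) (.p (nat_lit 215) (nat_lit 3) (.n (nat_lit 216) (nat_lit 2) (.n (nat_lit 218) (nat_lit 1) (.p (nat_lit 220) (nat_lit 1) (.n (nat_lit 221) (nat_lit 1) (.p (nat_lit 225) (nat_lit 2) (.n (nat_lit 227) (nat_lit 2) (.n (nat_lit 228) (nat_lit 2) (.p (nat_lit 229) (nat_lit 2) (.p (nat_lit 230) (nat_lit 2) (.n (nat_lit 231) (nat_lit 2) (.p (nat_lit 238) (nat_lit 2) (.p (nat_lit 242) (nat_lit 1) (.n (nat_lit 245) (nat_lit 1) (.p (nat_lit 246) (nat_lit 2) (.p (nat_lit 247) (nat_lit 2) (.p (nat_lit 248) (nat_lit 1) (.p (nat_lit 251) (nat_lit 1) .z))))))))))))))))))))))))))) (.ct dC2c_c307 (nat_lit 1) (nat_lit 13) (.s false (nat_lit 2) (nat_lit 6) (nat_lit 2) (nat_lit 3) (nat_lit 6) true (nat_lit 1) true (nat_lit 8) true (nat_lit 8) true (nat_lit 12) true (nat_lit 11) (.s true (nat_lit 1) (nat_lit 11) (nat_lit 1) (nat_lit 2) (nat_lit 6) true (nat_lit 3) true (nat_lit 8) true (nat_lit 4) true (nat_lit 13) true (nat_lit 12) (.s false (nat_lit 2) (nat_lit 11) (nat_lit 2) (nat_lit 1) (nat_lit 6) true (nat_lit 1) true (nat_lit 8) true (nat_lit 4) true (nat_lit 12) true (nat_lit 13) (.s false (nat_lit 1) (nat_lit 11) (nat_lit 2) (nat_lit 6) (nat_lit 1) true (nat_lit 8) true (nat_lit 13) true (nat_lit 4) true (nat_lit 12) true (nat_lit 8) (.s false (nat_lit 1) (nat_lit 11) (nat_lit 6) (nat_lit 2) (nat_lit 1) true (nat_lit 3) true (nat_lit 13) true (nat_lit 4) true (nat_lit 8) true (nat_lit 12) (.s false (nat_lit 2) (nat_lit 29) (nat_lit 1) (nat_lit 2) (nat_lit 2) true (nat_lit 8) true (nat_lit 12) false (nat_lit 1) true (nat_lit 13) true (nat_lit 12) dC2c_i198))))))) (.nd (.nd (.nd (.nd (.nd (.nd .leaf (nat_lit 152578) (nat_lit 578) (.p (nat_lit 269) (nat_lit 1) .z) .df .leaf) (nat_lit 152582) (nat_lit 1130) (.p (nat_lit 335) (nat_lit 3) (.n (nat_lit 338) (nat_lit 2) (.p (nat_lit 339) (nat_lit 1) (.p (nat_lit 340) (nat_lit 1) (.p (nat_lit 341) (nat_lit 3) (.n (nat_lit 342) (nat_lit 3) (.n (nat_lit 343) (nat_lit 2) (.n (nat_lit 344) (nat_lit 2) (.n (nat_lit 345) (nat_lit 3) (.n (nat_lit 346) (nat_lit 3) (.p (nat_lit 347) (nat_lit 2) (.p (nat_lit 348) (nat_lit 2) (.p (nat_lit 349) (nat_lit 1) (.p (nat_lit 350) (nat_lit 3) (.n (nat_lit 351) (nat_lit 1) (.p (nat_lit 352) (nat_lit 3) (.p (nat_lit 353) (nat_lit 3) (.n (nat_lit 354) (nat_lit 1) (.p (nat_lit 355) (nat_lit 2) (.n (nat_lit 356) (nat_lit 3) (.n (nat_lit 357) (nat_lit 2) (.n (nat_lit 358) (nat_lit 1) (.n (nat_lit 359) (nat_lit 1) (.p (nat_lit 360) (nat_lit 2) (.p (nat_lit 361) (nat_lit 2) (.p (nat_lit 362) (nat_lit 2) (.n (nat_lit 363) (nat_lit 2) (.p (nat_lit 365) (nat_lit 2) (.p (nat_lit 366) (nat_lit 3) (.n (nat_lit 367) (nat_lit 2) (.p (nat_lit 368) (nat_lit 2) (.n (nat_lit 369) (nat_lit 1) (.p (nat_lit 370) (nat_lit 3) (.n (nat_lit 371) (nat_lit 3) (.p (nat_lit 372) (nat_lit 3) (.p (nat_lit 373) (nat_lit 3) (.n (nat_lit 374) (nat_lit 3) (.n (nat_lit 375) (nat_lit 3) (.p (nat_lit 376) (nat_lit 3) (.p (nat_lit 378) (nat_lit 2) (.p (nat_lit 379) (nat_lit 1) (.p (nat_lit 381) (nat_lit 3) (.n (nat_lit 383) (nat_lit 1) (.n (nat_lit 384) (nat_lit 2) (.n (nat_lit 386) (nat_lit 2) (.n (nat_lit 390) (nat_lit 3) (.n (nat_lit 391) (nat_lit 3) (.n (nat_lit 393) (nat_lit 2) .z)))))))))))))))))))))))))))))))))))))))))))))))) (.ct dC2c_c308 (nat_lit 1) (nat_lit 12) (.s true (nat_lit 1) (nat_lit 20) (nat_lit 3) (nat_lit 6) (nat_lit 1) true (nat_lit 10) true (nat_lit 17) true (nat_lit 4) true (nat_lit 15) true (nat_lit 12) (.e true (nat_lit 1) (nat_lit 102) (nat_lit 8) (nat_lit 10) (.e false (nat_lit 1) (nat_lit 103) (nat_lit 8) (nat_lit 10) (.e true (nat_lit 1) (nat_lit 104) (nat_lit 8) (nat_lit 10) (.e false (nat_lit 3) (nat_lit 252) (nat_lit 1) (nat_lit 17) (.e false (nat_lit 2) (nat_lit 254) (nat_lit 1) (nat_lit 17) (.e true (nat_lit 2) (nat_lit 256) (nat_lit 1) (nat_lit 17) (.e false (nat_lit 3) (nat_lit 257) (nat_lit 1) (nat_lit 17) (.e true (nat_lit 2) (nat_lit 259) (nat_lit 1) (nat_lit 17) (.e false (nat_lit 2) (nat_lit 260) (nat_lit 1) (nat_lit 17) (.e true (nat_lit 1) (nat_lit 261) (nat_lit 1) (nat_lit 17) (.e true (nat_lit 2) (nat_lit 262) (nat_lit 1) (nat_lit 17) (.e false (nat_lit 1) (nat_lit 265) (nat_lit 1) (nat_lit 17) (.e true (nat_lit 2) (nat_lit 267) (nat_lit 1) (nat_lit 17) (.e false (nat_lit 2) (nat_lit 269) (nat_lit 1) (nat_lit 17) (.e false (nat_lit 1) (nat_lit 270) (nat_lit 1) (nat_lit 17) (.e true (nat_lit 2) (nat_lit 272) (nat_lit 1) (nat_lit 17) dC2c_i199)))))))))))))))))) .leaf) (nat_lit 152583) (nat_lit 1234) (.n (nat_lit 397) (nat_lit 1) (.n (nat_lit 398) (nat_lit 3) (.n (nat_lit 399) (nat_lit 1) (.n (nat_lit 400) (nat_lit 3) (.n (nat_lit 401) (nat_lit 3) (.p (nat_lit 402) (nat_lit 3) (.p (nat_lit 403) (nat_lit 3) (.n (nat_lit 404) (nat_lit 3) (.n (nat_lit 405) (nat_lit 3) (.n (nat_lit 406) (nat_lit 2) (.p (nat_lit 407) (nat_lit 1) (.p (nat_lit 409) (nat_lit 1) (.n (nat_lit 410) (nat_lit 3) (.n (nat_lit 411) (nat_lit 3) (.n (nat_lit 412) (nat_lit 2) (.n (nat_lit 413) (nat_lit 2) (.n (nat_lit 414) (nat_lit 2) (.p (nat_lit 415) (nat_lit 2) (.n (nat_lit 416) (nat_lit 1) (.p (nat_lit 418) (nat_lit 3) (.n (nat_lit 420) (nat_lit 2) (.p (nat_lit 421) (nat_lit 2) (.n (nat_lit 427) (nat_lit 3) (.p (nat_lit 431) (nat_lit 3) (.n (nat_lit 435) (nat_lit 2) .z))))))))))))))))))))))))) (.ct dC2c_c293 (nat_lit 1) (nat_lit 9) (.s false (nat_lit 1) (nat_lit 33) (nat_lit 7) (nat_lit 2) (nat_lit 1) true (nat_lit 4) true (nat_lit 15) true (nat_lit 1) true (nat_lit 9) true (nat_lit 14) (.e true (nat_lit 1) (nat_lit 80) (nat_lit 19) (nat_lit 4) (.e false (nat_lit 1) (nat_lit 313) (nat_lit 1) (nat_lit 15) (.e false (nat_lit 1) (nat_lit 47) (nat_lit 33) (nat_lit 1) (.e false (nat_lit 1) (nat_lit 134) (nat_lit 7) (nat_lit 9) (.e true (nat_lit 2) (nat_lit 138) (nat_lit 7) (nat_lit 9) (.e false (nat_lit 1) (nat_lit 145) (nat_lit 7) (nat_lit 9) (.e false (nat_lit 1) (nat_lit 146) (nat_lit 7) (nat_lit 9) (.e true (nat_lit 1) (nat_lit 154) (nat_lit 7) (nat_lit 9) (.e false (nat_lit 3) (nat_lit 254) (nat_lit 2) (nat_lit 14) (.e false (nat_lit 1) (nat_lit 258) (nat_lit 2) (nat_lit 14) (.e true (nat_lit 1) (nat_lit 264) (nat_lit 2) (nat_lit 14) (.e false (nat_lit 1) (nat_lit 265) (nat_lit 2) (nat_lit 14) (.e false (nat_lit 3) (nat_lit 266) (nat_lit 2) (nat_lit 14) (.e false (nat_lit 2) (nat_lit 269) (nat_lit 2) (nat_lit 14) (.e false (nat_lit 1) (nat_lit 272) (nat_lit 2) (nat_lit 14) (.e true (nat_lit 3) (nat_lit 274) (nat_lit 2) (nat_lit 14) (.e false (nat_lit 1) (nat_lit 285) (nat_lit 2) (nat_lit 14) (.u (nat_lit 2) (.n (nat_lit 1) (nat_lit 1) (.p (nat_lit 2) (nat_lit 1) (.n (nat_lit 3) (nat_lit 1) (.p (nat_lit 4) (nat_lit 2) (.n (nat_lit 5) (nat_lit 2) (.p (nat_lit 6) (nat_lit 1) (.p (nat_lit 7) (nat_lit 1) (.n (nat_lit 8) (nat_lit 1) (.p (nat_lit 9) (nat_lit 4) (.n (nat_lit 10) (nat_lit 1) (.n (nat_lit 11) (nat_lit 1) (.n (nat_lit 13) (nat_lit 2) (.n (nat_lit 15) (nat_lit 2) (.n (nat_lit 16) (nat_lit 2) (.p (nat_lit 18) (nat_lit 1) (.p (nat_lit 19) (nat_lit 1) (.n (nat_lit 24) (nat_lit 3) (.p (nat_lit 25) (nat_lit 1) (.p (nat_lit 30) (nat_lit 2) (.n (nat_lit 34) (nat_lit 3) .z)))))))))))))))))))) .nil)))))))))))))))))))) (.nd (.nd .leaf (nat_lit 153601) (nat_lit 500) (.n (nat_lit 207) (nat_lit 1) (.n (nat_lit 208) (nat_lit 1) (.p (nat_lit 209) (nat_lit 1) (.p (nat_lit 210) (nat_lit 2) (.p (nat_lit 211) (nat_lit 3) (.p (nat_lit 212) (nat_lit 1) (.p (nat_lit 213) (nat_lit 3) (.n (nat_lit 214) (nat_lit 3) (.p (nat_lit 215) (nat_lit 1) (.p (nat_lit 216) (nat_lit 3) (.n (nat_lit 217) (nat_lit 1) (.p (nat_lit 219) (nat_lit 1) (.n (nat_lit 220) (nat_lit 1) (.n (nat_lit 222) (nat_lit 1) (.p (nat_lit 226) (nat_lit 1) (.p (nat_lit 227) (nat_lit 1) (.p (nat_lit 229) (nat_lit 3) (.p (nat_lit 230) (nat_lit 3) (.p (nat_lit 231) (nat_lit 3) (.n (nat_lit 232) (nat_lit 2) (.p (nat_lit 234) (nat_lit 2) (.p (nat_lit 239) (nat_lit 2) (.p (nat_lit 243) (nat_lit 2) (.n (nat_lit 244) (nat_lit 1) (.p (nat_lit 245) (nat_lit 1) (.p (nat_lit 246) (nat_lit 1) (.n (nat_lit 247) (nat_lit 2) (.p (nat_lit 248) (nat_lit 1) (.n (nat_lit 249) (nat_lit 3) (.n (nat_lit 250) (nat_lit 2) (.p (nat_lit 251) (nat_lit 1) .z))))))))))))))))))))))))))))))) (.ct dC2c_c307 (nat_lit 1) (nat_lit 13) (.s true (nat_lit 1) (nat_lit 13) (nat_lit 2) (nat_lit 1) (nat_lit 6) true (nat_lit 1) true (nat_lit 8) true (nat_lit 4) true (nat_lit 12) true (nat_lit 13) (.s false (nat_lit 3) (nat_lit 12) (nat_lit 2) (nat_lit 6) (nat_lit 1) true (nat_lit 8) true (nat_lit 13) true (nat_lit 4) true (nat_lit 12) true (nat_lit 8) (.s false (nat_lit 3) (nat_lit 12) (nat_lit 6) (nat_lit 2) (nat_lit 1) true (nat_lit 3) true (nat_lit 13) true (nat_lit 4) true (nat_lit 8) true (nat_lit 12) (.s false (nat_lit 1) (nat_lit 28) (nat_lit 1) (nat_lit 2) (nat_lit 2) true (nat_lit 8) true (nat_lit 12) false (nat_lit 1) true (nat_lit 13) true (nat_lit 12) (.e true (nat_lit 1) (nat_lit 106) (nat_lit 2) (nat_lit 12) (.e false (nat_lit 2) (nat_lit 108) (nat_lit 2) (nat_lit 12) (.e true (nat_lit 1) (nat_lit 110) (nat_lit 2) (nat_lit 12) (.e true (nat_lit 1) (nat_lit 112) (nat_lit 2) (nat_lit 12) (.e false (nat_lit 1) (nat_lit 113) (nat_lit 2) (nat_lit 12) (.e true (nat_lit 2) (nat_lit 114) (nat_lit 2) (nat_lit 12) (.e false (nat_lit 2) (nat_lit 115) (nat_lit 2) (nat_lit 12) (.e true (nat_lit 3) (nat_lit 117) (nat_lit 2) (nat_lit 12) (.e true (nat_lit 1) (nat_lit 118) (nat_lit 2) (nat_lit 12) (.e false (nat_lit 2) (nat_lit 120) (nat_lit 2) (nat_lit 12) (.e true (nat_lit 3) (nat_lit 124) (nat_lit 2) (nat_lit 12) (.e false (nat_lit 1) (nat_lit 127) (nat_lit 2) (nat_lit 12) (.e true (nat_lit 2) (nat_lit 130) (nat_lit 2) (nat_lit 12) (.e true (nat_lit 1) (nat_lit 131) (nat_lit 2) (nat_lit 12) (.e true (nat_lit 2) (nat_lit 134) (nat_lit 1) (nat_lit 13) (.e false (nat_lit 1) (nat_lit 137) (nat_lit 1) (nat_lit 13) (.e false (nat_lit 2) (nat_lit 138) (nat_lit 1) (nat_lit 13) (.e false (nat_lit 1) (nat_lit 140) (nat_lit 1) (nat_lit 13) (.e false (nat_lit 1) (nat_lit 141) (nat_lit 1) (nat_lit 13) (.e true (nat_lit 3) (nat_lit 144) (nat_lit 1) (nat_lit 13) dC2c_i200))))))))))))))))))))))))) .leaf) (nat_lit 153602) (nat_lit 579) (.p (nat_lit 270) (nat_lit 1) .z) .df .leaf)) (nat_lit 153606) (nat_lit 1083) (.n (nat_lit 335) (nat_lit 2) (.n (nat_lit 336) (nat_lit 2) (.p (nat_lit 337) (nat_lit 3) (.n (nat_lit 338) (nat_lit 1) (.n (nat_lit 339) (nat_lit 2) (.p (nat_lit 340) (nat_lit 1) (.p (nat_lit 341) (nat_lit 2) (.p (nat_lit 342) (nat_lit 1) (.p (nat_lit 343) (nat_lit 2) (.n (nat_lit 344) (nat_lit 1) (.p (nat_lit 345) (nat_lit 2) (.n (nat_lit 346) (nat_lit 2) (.p (nat_lit 347) (nat_lit 1) (.p (nat_lit 349) (nat_lit 1) (.n (nat_lit 350) (nat_lit 2) (.p (nat_lit 351) (nat_lit 1) (.n (nat_lit 352) (nat_lit 1) (.p (nat_lit 353) (nat_lit 1) (.p (nat_lit 354) (nat_lit 3) (.n (nat_lit 355) (nat_lit 3) (.n (nat_lit 356) (nat_lit 1) (.p (nat_lit 357) (nat_lit 1) (.n (nat_lit 358) (nat_lit 2) (.n (nat_lit 359) (nat_lit 2) (.n (nat_lit 360) (nat_lit 3) (.n (nat_lit 361) (nat_lit 2) (.p (nat_lit 362) (nat_lit 3) (.p (nat_lit 363) (nat_lit 2) (.n (nat_lit 364) (nat_lit 2) (.p (nat_lit 366) (nat_lit 2) (.p (nat_lit 367) (nat_lit 2) (.n (nat_lit 368) (nat_lit 3) (.n (nat_lit 369) (nat_lit 2) (.n (nat_lit 370) (nat_lit 2) (.n (nat_lit 371) (nat_lit 2) (.p (nat_lit 372) (nat_lit 2) (.p (nat_lit 373) (nat_lit 3) (.p (nat_lit 374) (nat_lit 3) (.n (nat_lit 380) (nat_lit 2) (.p (nat_lit 381) (nat_lit 1) (.p (nat_lit 382) (nat_lit 3) (.p (nat_lit 383) (nat_lit 2) (.p (nat_lit 396) (nat_lit 2) .z))))))))))))))))))))))))))))))))))))))))))) (.ct dC2c_c308 (nat_lit 1) (nat_lit 12) (.s true (nat_lit 1) (nat_lit 89) (nat_lit 2) (nat_lit 1) (nat_lit 1) true (nat_lit 12) true (nat_lit 17) false (nat_lit 7) true (nat_lit 16) true (nat_lit 17) (.e false (nat_lit 1) (nat_lit 253) (nat_lit 1) (nat_lit 17) (.e true (nat_lit 2) (nat_lit 255) (nat_lit 1) (nat_lit 17) (.e false (nat_lit 1) (nat_lit 258) (nat_lit 1) (nat_lit 17) (.e false (nat_lit 1) (nat_lit 259) (nat_lit 1) (nat_lit 17) (.e true (nat_lit 1) (nat_lit 260) (nat_lit 1) (nat_lit 17) (.e true (nat_lit 1) (nat_lit 264) (nat_lit 1) (nat_lit 17) (.e false (nat_lit 1) (nat_lit 267) (nat_lit 1) (nat_lit 17) (.e true (nat_lit 1) (nat_lit 279) (nat_lit 1) (nat_lit 17) (.e false (nat_lit 1) (nat_lit 286) (nat_lit 1) (nat_lit 17) (.e true (nat_lit 1) (nat_lit 288) (nat_lit 1) (nat_lit 17) (.e false (nat_lit 1) (nat_lit 89) (nat_lit 15) (nat_lit 7) (.e false (nat_lit 3) (nat_lit 205) (nat_lit 2) (nat_lit 16) (.e true (nat_lit 2) (nat_lit 206) (nat_lit 2) (nat_lit 16) (.e false (nat_lit 3) (nat_lit 207) (nat_lit 2) (nat_lit 16) (.e true (nat_lit 3) (nat_lit 208) (nat_lit 2) (nat_lit 16) (.e true (nat_lit 3) (nat_lit 209) (nat_lit 2) (nat_lit 16) (.e true (nat_lit 2) (nat_lit 210) (nat_lit 2) (nat_lit 16) (.e false (nat_lit 2) (nat_lit 211) (nat_lit 2) (nat_lit 16) (.e false (nat_lit 1) (nat_lit 212) (nat_lit 2) (nat_lit 16) (.e false (nat_lit 2) (nat_lit 213) (nat_lit 2) (nat_lit 16) (.e false (nat_lit 1) (nat_lit 214) (nat_lit 2) (nat_lit 16) (.e false (nat_lit 2) (nat_lit 217) (nat_lit 2) (nat_lit 16) (.e false (nat_lit 1) (nat_lit 218) (nat_lit 2) (nat_lit 16) dC2c_i201))))))))))))))))))))))))) (.nd (.nd (.nd .leaf (nat_lit 153607) (nat_lit 1285) (.n (nat_lit 397) (nat_lit 1) (.p (nat_lit 398) (nat_lit 3) (.n (nat_lit 399) (nat_lit 2) (.n (nat_lit 400) (nat_lit 3) (.p (nat_lit 401) (nat_lit 2) (.p (nat_lit 403) (nat_lit 3) (.n (nat_lit 404) (nat_lit 2) (.n (nat_lit 406) (nat_lit 2) (.n (nat_lit 407) (nat_lit 2) (.p (nat_lit 408) (nat_lit 3) (.p (nat_lit 409) (nat_lit 1) (.n (nat_lit 411) (nat_lit 1) (.p (nat_lit 412) (nat_lit 2) (.p (nat_lit 413) (nat_lit 2) (.p (nat_lit 414) (nat_lit 1) (.n (nat_lit 415) (nat_lit 3) (.n (nat_lit 418) (nat_lit 2) (.n (nat_lit 420) (nat_lit 3) (.p (nat_lit 421) (nat_lit 1) (.n (nat_lit 428) (nat_lit 3) (.n (nat_lit 431) (nat_lit 2) (.n (nat_lit 432) (nat_lit 3) (.n (nat_lit 435) (nat_lit 1) .z))))))))))))))))))))))) (.ct dC2c_c293 (nat_lit 1) (nat_lit 9) (.s false (nat_lit 1) (nat_lit 12) (nat_lit 1) (nat_lit 7) (nat_lit 7) true (nat_lit 4) true (nat_lit 9) true (nat_lit 7) true (nat_lit 15) true (nat_lit 9) (.e false (nat_lit 1) (nat_lit 89) (nat_lit 19) (nat_lit 4) (.e false (nat_lit 1) (nat_lit 155) (nat_lit 7) (nat_lit 9) (.e true (nat_lit 2) (nat_lit 102) (nat_lit 12) (nat_lit 7) (.e false (nat_lit 2) (nat_lit 103) (nat_lit 12) (nat_lit 7) (.u (nat_lit 2) (.n (nat_lit 2) (nat_lit 1) (.p (nat_lit 3) (nat_lit 1) (.n (nat_lit 4) (nat_lit 1) (.n (nat_lit 5) (nat_lit 2) (.n (nat_lit 6) (nat_lit 1) (.p (nat_lit 7) (nat_lit 1) (.p (nat_lit 9) (nat_lit 1) (.p (nat_lit 10) (nat_lit 1) (.n (nat_lit 13) (nat_lit 1) (.p (nat_lit 14) (nat_lit 1) (.n (nat_lit 17) (nat_lit 1) (.p (nat_lit 21) (nat_lit 1) (.p (nat_lit 23) (nat_lit 1) (.n (nat_lit 26) (nat_lit 1) (.p (nat_lit 35) (nat_lit 1) .z))))))))))))))) .nil))))))) .leaf) (nat_lit 154625) (nat_lit 435) (.p (nat_lit 241) (nat_lit 1) .z) .df .leaf) (nat_lit 154626) (nat_lit 580) (.p (nat_lit 271) (nat_lit 1) .z) .df (.nd (.nd .leaf (nat_lit 154630) (nat_lit 1148) (.n (nat_lit 335) (nat_lit 2) (.n (nat_lit 336) (nat_lit 2) (.p (nat_lit 337) (nat_lit 3) (.n (nat_lit 338) (nat_lit 3) (.n (nat_lit 342) (nat_lit 2) (.p (nat_lit 343) (nat_lit 2) (.n (nat_lit 344) (nat_lit 3) (.p (nat_lit 346) (nat_lit 3) (.p (nat_lit 347) (nat_lit 2) (.p (nat_lit 348) (nat_lit 1) (.n (nat_lit 349) (nat_lit 1) (.p (nat_lit 350) (nat_lit 3) (.p (nat_lit 351) (nat_lit 2) (.p (nat_lit 352) (nat_lit 3) (.p (nat_lit 353) (nat_lit 1) (.n (nat_lit 354) (nat_lit 1) (.n (nat_lit 355) (nat_lit 3) (.p (nat_lit 356) (nat_lit 3) (.n (nat_lit 357) (nat_lit 2) (.n (nat_lit 358) (nat_lit 1) (.p (nat_lit 359) (nat_lit 1) (.p (nat_lit 360) (nat_lit 2) (.p (nat_lit 361) (nat_lit 3) (.p (nat_lit 362) (nat_lit 1) (.p (nat_lit 363) (nat_lit 2) (.n (nat_lit 364) (nat_lit 3) (.p (nat_lit 365) (nat_lit 1) (.p (nat_lit 366) (nat_lit 2) (.n (nat_lit 367) (nat_lit 3) (.p (nat_lit 370) (nat_lit 2) (.p (nat_lit 371) (nat_lit 2) (.p (nat_lit 372) (nat_lit 3) (.n (nat_lit 373) (nat_lit 1) (.p (nat_lit 374) (nat_lit 1) (.n (nat_lit 375) (nat_lit 2) (.n (nat_lit 376) (nat_lit 3) (.p (nat_lit 378) (nat_lit 1) (.n (nat_lit 380) (nat_lit 2) (.p (nat_lit 381) (nat_lit 1) (.p (nat_lit 382) (nat_lit 1) (.n (nat_lit 383) (nat_lit 1) (.n (nat_lit 384) (nat_lit 2) (.n (nat_lit 385) (nat_lit 1) (.n (nat_lit 386) (nat_lit 1) (.p (nat_lit 388) (nat_lit 1) (.p (nat_lit 390) (nat_lit 2) (.p (nat_lit 391) (nat_lit 2) (.n (nat_lit 393) (nat_lit 1) (.p (nat_lit 396) (nat_lit 1) .z))))))))))))))))))))))))))))))))))))))))))))))))) (.ct dC2c_c308 (nat_lit 1) (nat_lit 12) (.s false (nat_lit 1) (nat_lit 92) (nat_lit 2) (nat_lit 0) (nat_lit 1) true (nat_lit 12) true (nat_lit 17) false (nat_lit 8) true (nat_lit 16) true (nat_lit 18) (.e true (nat_lit 1) (nat_lit 252) (nat_lit 1) (nat_lit 17) (.e true (nat_lit 2) (nat_lit 253) (nat_lit 1) (nat_lit 17) (.e true (nat_lit 1) (nat_lit 254) (nat_lit 1) (nat_lit 17) (.e true (nat_lit 2) (nat_lit 255) (nat_lit 1) (nat_lit 17) (.e false (nat_lit 1) (nat_lit 256) (nat_lit 1) (nat_lit 17) dC2c_i203))))))) .leaf) (nat_lit 154631) (nat_lit 1307) (.n (nat_lit 397) (nat_lit 2) (.p (nat_lit 399) (nat_lit 2) (.p (nat_lit 400) (nat_lit 1) (.p (nat_lit 401) (nat_lit 2) (.p (nat_lit 402) (nat_lit 1) (.p (nat_lit 404) (nat_lit 1) (.p (nat_lit 405) (nat_lit 3) (.n (nat_lit 406) (nat_lit 3) (.p (nat_lit 407) (nat_lit 3) (.p (nat_lit 409) (nat_lit 2) (.n (nat_lit 410) (nat_lit 3) (.p (nat_lit 411) (nat_lit 3) (.n (nat_lit 414) (nat_lit 3) (.n (nat_lit 415) (nat_lit 1) (.p (nat_lit 416) (nat_lit 1) (.p (nat_lit 418) (nat_lit 2) (.n (nat_lit 420) (nat_lit 2) (.p (nat_lit 421) (nat_lit 1) (.p (nat_lit 430) (nat_lit 2) (.p (nat_lit 431) (nat_lit 3) (.n (nat_lit 432) (nat_lit 2) (.n (nat_lit 435) (nat_lit 3) .z)))))))))))))))))))))) (.ct dC2c_c293 (nat_lit 1) (nat_lit 9) (.s true (nat_lit 2) (nat_lit 96) (nat_lit 2) (nat_lit 0) (nat_lit 2) true (nat_lit 9) true (nat_lit 14) false (nat_lit 5) true (nat_lit 14) true (nat_lit 16) (.e true (nat_lit 3) (nat_lit 132) (nat_lit 7) (nat_lit 9) (.e false (nat_lit 3) (nat_lit 133) (nat_lit 7) (nat_lit 9) (.e false (nat_lit 1) (nat_lit 134) (nat_lit 7) (nat_lit 9) (.e false (nat_lit 2) (nat_lit 136) (nat_lit 7) (nat_lit 9) (.e true (nat_lit 2) (nat_lit 137) (nat_lit 7) (nat_lit 9) (.e false (nat_lit 2) (nat_lit 138) (nat_lit 7) (nat_lit 9) (.e true (nat_lit 1) (nat_lit 139) (nat_lit 7) (nat_lit 9) (.e false (nat_lit 1) (nat_lit 140) (nat_lit 7) (nat_lit 9) (.e true (nat_lit 1) (nat_lit 141) (nat_lit 7) (nat_lit 9) (.e true (nat_lit 3) (nat_lit 142) (nat_lit 7) (nat_lit 9) (.e false (nat_lit 1) (nat_lit 144) (nat_lit 7) (nat_lit 9) (.e false (nat_lit 1) (nat_lit 147) (nat_lit 7) (nat_lit 9) (.e false (nat_lit 1) (nat_lit 149) (nat_lit 7) (nat_lit 9) dC2c_i204))))))))))))))) .leaf))) (nat_lit 155649) (nat_lit 436) (.p (nat_lit 242) (nat_lit 1) .z) .df (.nd (.nd (.nd (.nd .leaf (nat_lit 155650) (nat_lit 581) (.p (nat_lit 272) (nat_lit 1) .z) .df .leaf) (nat_lit 155654) (nat_lit 959) (.n (nat_lit 335) (nat_lit 2) (.n (nat_lit 338) (nat_lit 3) (.p (nat_lit 339) (nat_lit 1) (.n (nat_lit 340) (nat_lit 3) (.n (nat_lit 341) (nat_lit 1) (.n (nat_lit 343) (nat_lit 2) (.p (nat_lit 345) (nat_lit 2) (.p (nat_lit 347) (nat_lit 3) (.n (nat_lit 349) (nat_lit 1) (.n (nat_lit 350) (nat_lit 3) (.p (nat_lit 353) (nat_lit 2) (.n (nat_lit 354) (nat_lit 3) (.p (nat_lit 355) (nat_lit 1) (.n (nat_lit 356) (nat_lit 1) (.p (nat_lit 357) (nat_lit 1) (.p (nat_lit 358) (nat_lit 3) (.p (nat_lit 361) (nat_lit 2) (.p (nat_lit 362) (nat_lit 2) (.n (nat_lit 364) (nat_lit 2) (.p (nat_lit 367) (nat_lit 1) (.p (nat_lit 368) (nat_lit 3) (.p (nat_lit 370) (nat_lit 3) (.n (nat_lit 371) (nat_lit 2) (.n (nat_lit 372) (nat_lit 3) (.n (nat_lit 373) (nat_lit 3) (.n (nat_lit 380) (nat_lit 1) (.n (nat_lit 381) (nat_lit 3) (.p (nat_lit 382) (nat_lit 2) (.n (nat_lit 383) (nat_lit 1) (.p (nat_lit 390) (nat_lit 2) .z)))))))))))))))))))))))))))))) (.ct dC2c_c308 (nat_lit 1) (nat_lit 12) (.s false (nat_lit 1) (nat_lit 8) (nat_lit 7) (nat_lit 6) (nat_lit 2) true (nat_lit 4) true (nat_lit 16) true (nat_lit 10) true (nat_lit 11) true (nat_lit 12) (.s false (nat_lit 3) (nat_lit 19) (nat_lit 9) (nat_lit 2) (nat_lit 2) true (nat_lit 2) true (nat_lit 16) true (nat_lit 5) true (nat_lit 10) true (nat_lit 16) (.s true (nat_lit 1) (nat_lit 24) (nat_lit 1) (nat_lit 7) (nat_lit 2) true (nat_lit 12) true (nat_lit 16) true (nat_lit 2) true (nat_lit 17) true (nat_lit 11) (.s true (nat_lit 3) (nat_lit 25) (nat_lit 1) (nat_lit 7) (nat_lit 2) true (nat_lit 12) true (nat_lit 16) true (nat_lit 2) true (nat_lit 17) true (nat_lit 11) dC2c_i207))))) .leaf) (nat_lit 155655) (nat_lit 1199) (.p (nat_lit 431) (nat_lit 2) .z) (.ct dC2c_c293 (nat_lit 1) (nat_lit 9) (.s true (nat_lit 1) (nat_lit 8) (nat_lit 7) (nat_lit 2) (nat_lit 7) false (nat_lit 2) true (nat_lit 9) true (nat_lit 8) true (nat_lit 9) true (nat_lit 14) (.e false (nat_lit 2) (nat_lit 272) (nat_lit 2) (nat_lit 14) .nil))) (.nd (.nd .leaf (nat_lit 156673) (nat_lit 437) (.p (nat_lit 243) (nat_lit 1) .z) .df .leaf) (nat_lit 156674) (nat_lit 582) (.p (nat_lit 273) (nat_lit 1) .z) .df .leaf)) (nat_lit 156678) (nat_lit 953) (.p (nat_lit 335) (nat_lit 1) (.n (nat_lit 341) (nat_lit 3) (.n (nat_lit 342) (nat_lit 2) (.n (nat_lit 343) (nat_lit 2) (.p (nat_lit 346) (nat_lit 2) (.p (nat_lit 347) (nat_lit 2) (.n (nat_lit 349) (nat_lit 2) (.p (nat_lit 351) (nat_lit 2) (.p (nat_lit 352) (nat_lit 1) (.p (nat_lit 353) (nat_lit 3) (.p (nat_lit 358) (nat_lit 3) (.p (nat_lit 359) (nat_lit 3) (.p (nat_lit 361) (nat_lit 2) (.n (nat_lit 362) (nat_lit 3) (.p (nat_lit 363) (nat_lit 2) (.n (nat_lit 364) (nat_lit 2) (.n (nat_lit 366) (nat_lit 1) (.p (nat_lit 367) (nat_lit 1) (.p (nat_lit 368) (nat_lit 2) (.n (nat_lit 369) (nat_lit 2) (.n (nat_lit 370) (nat_lit 3) (.n (nat_lit 371) (nat_lit 1) (.n (nat_lit 372) (nat_lit 2) (.n (nat_lit 373) (nat_lit 2) (.p (nat_lit 380) (nat_lit 1) (.p (nat_lit 381) (nat_lit 3) (.p (nat_lit 382) (nat_lit 1) (.p (nat_lit 383) (nat_lit 3) (.n (nat_lit 390) (nat_lit 3) .z))))))))))))))))))))))))))))) (.ct dC2c_c308 (nat_lit 1) (nat_lit 12) (.s false (nat_lit 1) (nat_lit 9) (nat_lit 7) (nat_lit 1) (nat_lit 7) false (nat_lit 3) true (nat_lit 11) true (nat_lit 10) true (nat_lit 11) true (nat_lit 17) (.s false (nat_lit 1) (nat_lit 19) (nat_lit 9) (nat_lit 2) (nat_lit 2) true (nat_lit 2) true (nat_lit 16) true (nat_lit 5) true (nat_lit 10) true (nat_lit 16) (.s true (nat_lit 3) (nat_lit 25) (nat_lit 1) (nat_lit 7) (nat_lit 2) true (nat_lit 12) true (nat_lit 16) true (nat_lit 2) true (nat_lit 17) true (nat_lit 11) (.s true (nat_lit 2) (nat_lit 25) (nat_lit 2) (nat_lit 2) (nat_lit 6) true (nat_lit 5) true (nat_lit 12) true (nat_lit 2) true (nat_lit 16) true (nat_lit 16) dC2c_i208))))) (.nd (.nd (.nd .leaf (nat_lit 156679) (nat_lit 1200) (.p (nat_lit 432) (nat_lit 2) .z) (.ct dC2c_c293 (nat_lit 1) (nat_lit 9) (.s true (nat_lit 1) (nat_lit 9) (nat_lit 7) (nat_lit 2) (nat_lit 7) false (nat_lit 2) true (nat_lit 9) true (nat_lit 8) true (nat_lit 9) true (nat_lit 14) (.e false (nat_lit 2) (nat_lit 273) (nat_lit 2) (nat_lit 14) (.u (nat_lit 2) (.n (nat_lit 204) (nat_lit 1) (.n (nat_lit 205) (nat_lit 1) (.n (nat_lit 206) (nat_lit 3) (.p (nat_lit 207) (nat_lit 2) (.p (nat_lit 210) (nat_lit 1) (.p (nat_lit 214) (nat_lit 1) (.n (nat_lit 215) (nat_lit 1) (.p (nat_lit 216) (nat_lit 1) (.n (nat_lit 217) (nat_lit 1) (.n (nat_lit 218) (nat_lit 1) (.n (nat_lit 219) (nat_lit 1) (.n (nat_lit 221) (nat_lit 2) (.n (nat_lit 222) (nat_lit 1) (.p (nat_lit 223) (nat_lit 2) (.n (nat_lit 224) (nat_lit 1) (.p (nat_lit 225) (nat_lit 2) (.n (nat_lit 228) (nat_lit 2) (.n (nat_lit 229) (nat_lit 2) (.n (nat_lit 235) (nat_lit 2) (.p (nat_lit 237) (nat_lit 2) .z)))))))))))))))))))) .nil)))) .leaf) (nat_lit 157697) (nat_lit 464) (.p (nat_lit 205) (nat_lit 3) (.n (nat_lit 206) (nat_lit 2) (.p (nat_lit 207) (nat_lit 1) (.p (nat_lit 208) (nat_lit 1) (.p (nat_lit 210) (nat_lit 1) (.n (nat_lit 211) (nat_lit 2) (.p (nat_lit 213) (nat_lit 3) (.n (nat_lit 214) (nat_lit 1) (.p (nat_lit 215) (nat_lit 2) (.n (nat_lit 218) (nat_lit 1) (.n (nat_lit 219) (nat_lit 2) (.p (nat_lit 220) (nat_lit 1) (.p (nat_lit 221) (nat_lit 1) (.n (nat_lit 225) (nat_lit 3) (.n (nat_lit 227) (nat_lit 3) (.n (nat_lit 228) (nat_lit 3) (.n (nat_lit 231) (nat_lit 2) (.p (nat_lit 233) (nat_lit 2) (.p (nat_lit 242) (nat_lit 1) (.p (nat_lit 245) (nat_lit 3) (.p (nat_lit 246) (nat_lit 3) (.p (nat_lit 247) (nat_lit 3) (.n (nat_lit 248) (nat_lit 3) (.n (nat_lit 251) (nat_lit 1) .z)))))))))))))))))))))))) (.ct dC2c_c307 (nat_lit 1) (nat_lit 13) (.s false (nat_lit 2) (nat_lit 6) (nat_lit 1) (nat_lit 5) (nat_lit 6) true (nat_lit 3) true (nat_lit 8) true (nat_lit 8) true (nat_lit 13) true (nat_lit 9) (.s true (nat_lit 2) (nat_lit 6) (nat_lit 2) (nat_lit 3) (nat_lit 6) true (nat_lit 1) true (nat_lit 8) true (nat_lit 8) true (nat_lit 12) true (nat_lit 11) (.s false (nat_lit 2) (nat_lit 7) (nat_lit 1) (nat_lit 4) (nat_lit 5) true (nat_lit 4) true (nat_lit 9) true (nat_lit 7) true (nat_lit 13) true (nat_lit 10) (.s true (nat_lit 3) (nat_lit 7) (nat_lit 3) (nat_lit 2) (nat_lit 4) false (nat_lit 0) true (nat_lit 10) true (nat_lit 7) true (nat_lit 11) true (nat_lit 12) (.s false (nat_lit 2) (nat_lit 7) (nat_lit 4) (nat_lit 2) (nat_lit 3) false (nat_lit 0) true (nat_lit 11) true (nat_lit 7) true (nat_lit 10) true (nat_lit 12) (.s true (nat_lit 2) (nat_lit 7) (nat_lit 4) (nat_lit 3) (nat_lit 2) true (nat_lit 3) true (nat_lit 12) true (nat_lit 7) true (nat_lit 10) true (nat_lit 11) (.s true (nat_lit 2) (nat_lit 9) (nat_lit 1) (nat_lit 2) (nat_lit 7) true (nat_lit 1) true (nat_lit 7) true (nat_lit 6) true (nat_lit 13) true (nat_lit 12) (.s true (nat_lit 2) (nat_lit 9) (nat_lit 2) (nat_lit 2) (nat_lit 6) true (nat_lit 1) true (nat_lit 8) true (nat_lit 6) true (nat_lit 12) true (nat_lit 12) (.s true (nat_lit 2) (nat_lit 10) (nat_lit 0) (nat_lit 7) (nat_lit 2) true (nat_lit 9) true (nat_lit 12) true (nat_lit 5) true (nat_lit 14) true (nat_lit 7) (.s true (nat_lit 3) (nat_lit 10) (nat_lit 2) (nat_lit 5) (nat_lit 2) true (nat_lit 7) true (nat_lit 12) true (nat_lit 5) true (nat_lit 12) true (nat_lit 9) (.s false (nat_lit 2) (nat_lit 10) (nat_lit 2) (nat_lit 7) (nat_lit 0) true (nat_lit 9) true (nat_lit 14) true (nat_lit 5) true (nat_lit 12) true (nat_lit 7) (.s false (nat_lit 1) (nat_lit 10) (nat_lit 5) (nat_lit 2) (nat_lit 2) true (nat_lit 2) true (nat_lit 12) true (nat_lit 5) true (nat_lit 9) true (nat_lit 12) (.s true (nat_lit 2) (nat_lit 10) (nat_lit 7) (nat_lit 0) (nat_lit 2) true (nat_lit 0) true (nat_lit 12) true (nat_lit 5) true (nat_lit 7) true (nat_lit 14) (.s false (nat_lit 2) (nat_lit 10) (nat_lit 7) (nat_lit 2) (nat_lit 0) true (nat_lit 2) true (nat_lit 14) true (nat_lit 5) true (nat_lit 7) true (nat_lit 12) (.s false (nat_lit 1) (nat_lit 12) (nat_lit 1) (nat_lit 1) (nat_lit 7) true (nat_lit 1) true (nat_lit 7) true (nat_lit 4) true (nat_lit 13) true (nat_lit 13) (.s true (nat_lit 3) (nat_lit 12) (nat_lit 1) (nat_lit 2) (nat_lit 6) true (nat_lit 3) true (nat_lit 8) true (nat_lit 4) true (nat_lit 13) true (nat_lit 12) (.s true (nat_lit 3) (nat_lit 13) (nat_lit 1) (nat_lit 2) (nat_lit 6) true (nat_lit 3) true (nat_lit 8) true (nat_lit 4) true (nat_lit 13) true (nat_lit 12) (.s false (nat_lit 3) (nat_lit 11) (nat_lit 1) (nat_lit 6) (nat_lit 2) true (nat_lit 8) true (nat_lit 12) true (nat_lit 4) true (nat_lit 13) true (nat_lit 8) (.s false (nat_lit 1) (nat_lit 13) (nat_lit 1) (nat_lit 6) (nat_lit 2) true (nat_lit 8) true (nat_lit 12) true (nat_lit 4) true (nat_lit 13) true (nat_lit 8) (.s true (nat_lit 1) (nat_lit 11) (nat_lit 2) (nat_lit 1) (nat_lit 6) true (nat_lit 1) true (nat_lit 8) true (nat_lit 4) true (nat_lit 12) true (nat_lit 13) (.s false (nat_lit 1) (nat_lit 13) (nat_lit 2) (nat_lit 1) (nat_lit 6) true (nat_lit 1) true (nat_lit 8) true (nat_lit 4) true (nat_lit 12) true (nat_lit 13) (.s false (nat_lit 3) (nat_lit 13) (nat_lit 2) (nat_lit 4) (nat_lit 2) true (nat_lit 7) true (nat_lit 12) true (nat_lit 4) true (nat_lit 12) true (nat_lit 10) (.s false (nat_lit 2) (nat_lit 12) (nat_lit 2) (nat_lit 6) (nat_lit 1) true (nat_lit 8) true (nat_lit 13) true (nat_lit 4) true (nat_lit 12) true (nat_lit 8) (.s false (nat_lit 2) (nat_lit 12) (nat_lit 4) (nat_lit 2) (nat_lit 2) true (nat_lit 3) true (nat_lit 12) true (nat_lit 4) true (nat_lit 10) true (nat_lit 12) dC2c_i212))))))))))))))))))))))))) .leaf) (nat_lit 157698) (nat_lit 583) (.p (nat_lit 274) (nat_lit 1) .z) .df (.nd .leaf (nat_lit 157702) (nat_lit 989) (.p (nat_lit 335) (nat_lit 1) (.n (nat_lit 336) (nat_lit 3) (.p (nat_lit 337) (nat_lit 1) (.p (nat_lit 338) (nat_lit 3) (.n (nat_lit 339) (nat_lit 1) (.p (nat_lit 340) (nat_lit 3) (.p (nat_lit 341) (nat_lit 3) (.n (nat_lit 342) (nat_lit 2) (.p (nat_lit 343) (nat_lit 3) (.p (nat_lit 344) (nat_lit 3) (.p (nat_lit 345) (nat_lit 3) (.n (nat_lit 346) (nat_lit 3) (.n (nat_lit 347) (nat_lit 2) (.p (nat_lit 349) (nat_lit 2) (.p (nat_lit 350) (nat_lit 2) (.p (nat_lit 351) (nat_lit 2) (.n (nat_lit 352) (nat_lit 3) (.n (nat_lit 353) (nat_lit 1) (.p (nat_lit 354) (nat_lit 3) (.n (nat_lit 355) (nat_lit 2) (.p (nat_lit 356) (nat_lit 2) (.n (nat_lit 357) (nat_lit 2) (.p (nat_lit 359) (nat_lit 3) (.p (nat_lit 360) (nat_lit 2) (.n (nat_lit 361) (nat_lit 3) (.p (nat_lit 362) (nat_lit 2) (.n (nat_lit 363) (nat_lit 1) (.n (nat_lit 364) (nat_lit 3) (.p (nat_lit 366) (nat_lit 3) (.n (nat_lit 367) (nat_lit 2) (.n (nat_lit 368) (nat_lit 3) (.n (nat_lit 369) (nat_lit 2) (.n (nat_lit 370) (nat_lit 3) (.n (nat_lit 371) (nat_lit 3) (.n (nat_lit 372) (nat_lit 3) (.p (nat_lit 373) (nat_lit 3) (.n (nat_lit 374) (nat_lit 1) (.p (nat_lit 382) (nat_lit 1) (.p (nat_lit 383) (nat_lit 3) (.p (nat_lit 391) (nat_lit 2) .z)))))))))))))))))))))))))))))))))))))))) (.ct dC2c_c308 (nat_lit 1) (nat_lit 12) (.s true (nat_lit 1) (nat_lit 18) (nat_lit 1) (nat_lit 11) (nat_lit 2) true (nat_lit 12) true (nat_lit 16) true (nat_lit 5) true (nat_lit 17) true (nat_lit 8) (.s false (nat_lit 1) (nat_lit 18) (nat_lit 2) (nat_lit 1) (nat_lit 11) true (nat_lit 0) true (nat_lit 8) true (nat_lit 5) true (nat_lit 16) true (nat_lit 17) dC2c_i214))) .leaf)))) (nat_lit 157703) (nat_lit 1205) (.p (nat_lit 397) (nat_lit 2) (.n (nat_lit 398) (nat_lit 1) (.n (nat_lit 399) (nat_lit 1) (.p (nat_lit 400) (nat_lit 2) (.p (nat_lit 402) (nat_lit 1) (.p (nat_lit 403) (nat_lit 2) (.n (nat_lit 404) (nat_lit 2) (.n (nat_lit 405) (nat_lit 2) (.n (nat_lit 406) (nat_lit 3) (.n (nat_lit 407) (nat_lit 3) (.n (nat_lit 408) (nat_lit 3) (.n (nat_lit 410) (nat_lit 1) (.p (nat_lit 411) (nat_lit 2) (.p (nat_lit 412) (nat_lit 3) (.p (nat_lit 413) (nat_lit 3) (.p (nat_lit 415) (nat_lit 1) (.p (nat_lit 416) (nat_lit 1) (.p (nat_lit 418) (nat_lit 3) (.n (nat_lit 420) (nat_lit 1) (.p (nat_lit 421) (nat_lit 3) (.n (nat_lit 422) (nat_lit 3) (.n (nat_lit 435) (nat_lit 3) .z)))))))))))))))))))))) (.ct dC2c_c293 (nat_lit 1) (nat_lit 9) (.s false (nat_lit 3) (nat_lit 26) (nat_lit 2) (nat_lit 2) (nat_lit 7) true (nat_lit 3) true (nat_lit 9) true (nat_lit 2) true (nat_lit 14) true (nat_lit 14) (.s true (nat_lit 3) (nat_lit 26) (nat_lit 2) (nat_lit 7) (nat_lit 2) true (nat_lit 9) true (nat_lit 14) true (nat_lit 2) true (nat_lit 14) true (nat_lit 9) (.s true (nat_lit 3) (nat_lit 26) (nat_lit 7) (nat_lit 2) (nat_lit 2) true (nat_lit 3) true (nat_lit 14) true (nat_lit 2) true (nat_lit 9) true (nat_lit 14) (.e false (nat_lit 2) (nat_lit 285) (nat_lit 2) (nat_lit 14) (.u (nat_lit 2) (.p (nat_lit 1) (nat_lit 1) (.p (nat_lit 2) (nat_lit 1) (.n (nat_lit 5) (nat_lit 1) (.p (nat_lit 9) (nat_lit 1) (.p (nat_lit 10) (nat_lit 1) (.p (nat_lit 11) (nat_lit 1) (.p (nat_lit 13) (nat_lit 1) (.n (nat_lit 15) (nat_lit 1) (.n (nat_lit 16) (nat_lit 1) (.n (nat_lit 18) (nat_lit 1) (.n (nat_lit 19) (nat_lit 1) (.n (nat_lit 21) (nat_lit 1) (.p (nat_lit 23) (nat_lit 1) (.n (nat_lit 24) (nat_lit 1) (.p (nat_lit 25) (nat_lit 1) (.p (nat_lit 38) (nat_lit 1) (.p (nat_lit 164) (nat_lit 1) (.n (nat_lit 237) (nat_lit 2) .z)))))))))))))))))) .nil)))))) (.nd (.nd (.nd (.nd (.nd .leaf (nat_lit 158721) (nat_lit 438) (.p (nat_lit 244) (nat_lit 1) .z) .df .leaf) (nat_lit 158722) (nat_lit 584) (.p (nat_lit 275) (nat_lit 1) .z) .df .leaf) (nat_lit 158726) (nat_lit 912) (.p (nat_lit 335) (nat_lit 3) (.p (nat_lit 336) (nat_lit 3) (.n (nat_lit 337) (nat_lit 1) (.n (nat_lit 338) (nat_lit 1) (.n (nat_lit 339) (nat_lit 2) (.n (nat_lit 340) (nat_lit 3) (.p (nat_lit 341) (nat_lit 1) (.n (nat_lit 342) (nat_lit 2) (.n (nat_lit 343) (nat_lit 1) (.n (nat_lit 344) (nat_lit 1) (.n (nat_lit 345) (nat_lit 1) (.n (nat_lit 346) (nat_lit 1) (.p (nat_lit 347) (nat_lit 1) (.n (nat_lit 349) (nat_lit 3) (.p (nat_lit 350) (nat_lit 2) (.n (nat_lit 351) (nat_lit 2) (.p (nat_lit 353) (nat_lit 1) (.p (nat_lit 354) (nat_lit 3) (.p (nat_lit 355) (nat_lit 1) (.n (nat_lit 358) (nat_lit 2) (.p (nat_lit 359) (nat_lit 1) (.n (nat_lit 360) (nat_lit 3) (.p (nat_lit 361) (nat_lit 1) (.n (nat_lit 362) (nat_lit 3) (.n (nat_lit 363) (nat_lit 2) (.p (nat_lit 364) (nat_lit 3) (.n (nat_lit 366) (nat_lit 1) (.p (nat_lit 367) (nat_lit 2) (.p (nat_lit 368) (nat_lit 3) (.p (nat_lit 369) (nat_lit 2) (.p (nat_lit 370) (nat_lit 3) (.n (nat_lit 371) (nat_lit 3) (.n (nat_lit 372) (nat_lit 1) (.n (nat_lit 373) (nat_lit 3) (.n (nat_lit 374) (nat_lit 2) (.n (nat_lit 380) (nat_lit 1) (.n (nat_lit 381) (nat_lit 3) (.p (nat_lit 382) (nat_lit 2) (.n (nat_lit 383) (nat_lit 1) (.p (nat_lit 392) (nat_lit 2) .z)))))))))))))))))))))))))))))))))))))))) (.ct dC2c_c308 (nat_lit 1) (nat_lit 12) (.s true (nat_lit 1) (nat_lit 7) (nat_lit 3) (nat_lit 7) (nat_lit 4) true (nat_lit 3) true (nat_lit 14) true (nat_lit 11) true (nat_lit 15) true (nat_lit 11) (.s true (nat_lit 3) (nat_lit 8) (nat_lit 1) (nat_lit 7) (nat_lit 7) true (nat_lit 5) true (nat_lit 11) true (nat_lit 10) true (nat_lit 17) true (nat_lit 11) (.s true (nat_lit 3) (nat_lit 8) (nat_lit 2) (nat_lit 6) (nat_lit 7) true (nat_lit 4) true (nat_lit 11) true (nat_lit 10) true (nat_lit 16) true (nat_lit 12) (.s false (nat_lit 2) (nat_lit 8) (nat_lit 6) (nat_lit 7) (nat_lit 2) true (nat_lit 5) true (nat_lit 16) true (nat_lit 10) true (nat_lit 12) true (nat_lit 11) (.s true (nat_lit 2) (nat_lit 9) (nat_lit 7) (nat_lit 1) (nat_lit 7) false (nat_lit 3) true (nat_lit 11) true (nat_lit 10) true (nat_lit 11) true (nat_lit 17) (.s false (nat_lit 1) (nat_lit 8) (nat_lit 7) (nat_lit 2) (nat_lit 6) false (nat_lit 2) true (nat_lit 12) true (nat_lit 10) true (nat_lit 11) true (nat_lit 16) (.s true (nat_lit 1) (nat_lit 8) (nat_lit 7) (nat_lit 7) (nat_lit 1) true (nat_lit 5) true (nat_lit 17) true (nat_lit 10) true (nat_lit 11) true (nat_lit 11) (.s false (nat_lit 3) (nat_lit 10) (nat_lit 7) (nat_lit 0) (nat_lit 7) false (nat_lit 3) true (nat_lit 11) true (nat_lit 9) true (nat_lit 11) true (nat_lit 18) (.s true (nat_lit 1) (nat_lit 10) (nat_lit 7) (nat_lit 5) (nat_lit 2) true (nat_lit 4) true (nat_lit 16) true (nat_lit 9) true (nat_lit 11) true (nat_lit 13) (.s true (nat_lit 2) (nat_lit 10) (nat_lit 7) (nat_lit 7) (nat_lit 0) true (nat_lit 6) true (nat_lit 18) true (nat_lit 9) true (nat_lit 11) true (nat_lit 11) (.s true (nat_lit 3) (nat_lit 11) (nat_lit 1) (nat_lit 7) (nat_lit 6) true (nat_lit 7) true (nat_lit 12) true (nat_lit 8) true (nat_lit 17) true (nat_lit 11) (.s false (nat_lit 1) (nat_lit 12) (nat_lit 2) (nat_lit 7) (nat_lit 4) true (nat_lit 7) true (nat_lit 14) true (nat_lit 8) true (nat_lit 16) true (nat_lit 11) (.s true (nat_lit 1) (nat_lit 11) (nat_lit 6) (nat_lit 2) (nat_lit 6) false (nat_lit 0) true (nat_lit 12) true (nat_lit 8) true (nat_lit 12) true (nat_lit 16) (.s false (nat_lit 2) (nat_lit 12) (nat_lit 6) (nat_lit 6) (nat_lit 2) true (nat_lit 5) true (nat_lit 16) true (nat_lit 8) true (nat_lit 12) true (nat_lit 12) (.s true (nat_lit 2) (nat_lit 13) (nat_lit 7) (nat_lit 4) (nat_lit 2) true (nat_lit 4) true (nat_lit 16) true (nat_lit 8) true (nat_lit 11) true (nat_lit 14) (.s true (nat_lit 2) (nat_lit 11) (nat_lit 7) (nat_lit 6) (nat_lit 1) true (nat_lit 5) true (nat_lit 17) true (nat_lit 8) true (nat_lit 11) true (nat_lit 12) (.s false (nat_lit 1) (nat_lit 14) (nat_lit 2) (nat_lit 2) (nat_lit 12) true (nat_lit 0) true (nat_lit 8) true (nat_lit 7) true (nat_lit 16) true (nat_lit 16) (.s true (nat_lit 2) (nat_lit 15) (nat_lit 2) (nat_lit 3) (nat_lit 7) true (nat_lit 4) true (nat_lit 11) true (nat_lit 7) true (nat_lit 16) true (nat_lit 15) (.s true (nat_lit 3) (nat_lit 14) (nat_lit 2) (nat_lit 7) (nat_lit 3) true (nat_lit 8) true (nat_lit 15) true (nat_lit 7) true (nat_lit 16) true (nat_lit 11) (.s false (nat_lit 1) (nat_lit 14) (nat_lit 2) (nat_lit 12) (nat_lit 2) true (nat_lit 11) true (nat_lit 16) true (nat_lit 7) true (nat_lit 16) true (nat_lit 8) (.s true (nat_lit 3) (nat_lit 14) (nat_lit 3) (nat_lit 7) (nat_lit 2) true (nat_lit 8) true (nat_lit 16) true (nat_lit 7) true (nat_lit 15) true (nat_lit 11) (.s true (nat_lit 1) (nat_lit 15) (nat_lit 7) (nat_lit 2) (nat_lit 3) true (nat_lit 0) true (nat_lit 15) true (nat_lit 7) true (nat_lit 11) true (nat_lit 16) (.s false (nat_lit 1) (nat_lit 15) (nat_lit 7) (nat_lit 3) (nat_lit 2) true (nat_lit 4) true (nat_lit 16) true (nat_lit 7) true (nat_lit 11) true (nat_lit 15) dC2c_i223)))))))))))))))))))))))) (.nd (.nd .leaf (nat_lit 158727) (nat_lit 1250) (.n (nat_lit 397) (nat_lit 1) (.p (nat_lit 398) (nat_lit 2) (.n (nat_lit 400) (nat_lit 3) (.n (nat_lit 401) (nat_lit 1) (.n (nat_lit 403) (nat_lit 2) (.n (nat_lit 404) (nat_lit 3) (.p (nat_lit 405) (nat_lit 1) (.p (nat_lit 406) (nat_lit 3) (.p (nat_lit 407) (nat_lit 3) (.p (nat_lit 408) (nat_lit 1) (.n (nat_lit 409) (nat_lit 2) (.n (nat_lit 410) (nat_lit 2) (.p (nat_lit 411) (nat_lit 2) (.n (nat_lit 412) (nat_lit 1) (.n (nat_lit 413) (nat_lit 1) (.p (nat_lit 414) (nat_lit 3) (.n (nat_lit 415) (nat_lit 3) (.n (nat_lit 416) (nat_lit 1) (.n (nat_lit 418) (nat_lit 1) (.n (nat_lit 421) (nat_lit 3) (.n (nat_lit 423) (nat_lit 3) (.p (nat_lit 431) (nat_lit 1) (.n (nat_lit 432) (nat_lit 3) (.n (nat_lit 435) (nat_lit 3) .z)))))))))))))))))))))))) (.ct dC2c_c293 (nat_lit 1) (nat_lit 9) (.s true (nat_lit 3) (nat_lit 27) (nat_lit 2) (nat_lit 7) (nat_lit 2) true (nat_lit 9) true (nat_lit 14) true (nat_lit 2) true (nat_lit 14) true (nat_lit 9) (.s true (nat_lit 3) (nat_lit 27) (nat_lit 7) (nat_lit 2) (nat_lit 2) true (nat_lit 3) true (nat_lit 14) true (nat_lit 2) true (nat_lit 9) true (nat_lit 14) (.e true (nat_lit 2) (nat_lit 286) (nat_lit 2) (nat_lit 14) (.e true (nat_lit 3) (nat_lit 135) (nat_lit 7) (nat_lit 9) (.e false (nat_lit 3) (nat_lit 63) (nat_lit 20) (nat_lit 3) (.u (nat_lit 2) (.n (nat_lit 0) (nat_lit 2) (.n (nat_lit 1) (nat_lit 1) (.n (nat_lit 3) (nat_lit 1) (.n (nat_lit 4) (nat_lit 2) (.n (nat_lit 6) (nat_lit 2) (.n (nat_lit 7) (nat_lit 1) (.n (nat_lit 8) (nat_lit 1) (.p (nat_lit 9) (nat_lit 1) (.p (nat_lit 10) (nat_lit 1) (.p (nat_lit 11) (nat_lit 2) (.p (nat_lit 12) (nat_lit 1) (.p (nat_lit 13) (nat_lit 1) (.n (nat_lit 14) (nat_lit 1) (.n (nat_lit 15) (nat_lit 2) (.n (nat_lit 16) (nat_lit 2) (.p (nat_lit 17) (nat_lit 1) (.n (nat_lit 18) (nat_lit 1) (.n (nat_lit 19) (nat_lit 2) (.p (nat_lit 21) (nat_lit 1) (.p (nat_lit 24) (nat_lit 2) (.n (nat_lit 26) (nat_lit 1) (.n (nat_lit 34) (nat_lit 1) (.n (nat_lit 35) (nat_lit 1) (.n (nat_lit 38) (nat_lit 1) (.p (nat_lit 165) (nat_lit 1) (.n (nat_lit 238) (nat_lit 1) .z)))))))))))))))))))))))))) .nil))))))) .leaf) (nat_lit 159745) (nat_lit 499) (.p (nat_lit 205) (nat_lit 1) (.n (nat_lit 206) (nat_lit 2) (.p (nat_lit 207) (nat_lit 1) (.p (nat_lit 208) (nat_lit 1) (.n (nat_lit 209) (nat_lit 3) (.p (nat_lit 210) (nat_lit 2) (.n (nat_lit 211) (nat_lit 1) (.n (nat_lit 212) (nat_lit 2) (.p (nat_lit 213) (nat_lit 1) (.p (nat_lit 216) (nat_lit 2) (.n (nat_lit 218) (nat_lit 3) (.p (nat_lit 219) (nat_lit 1) (.n (nat_lit 221) (nat_lit 1) (.n (nat_lit 222) (nat_lit 3) (.n (nat_lit 225) (nat_lit 2) (.p (nat_lit 226) (nat_lit 3) (.n (nat_lit 227) (nat_lit 2) (.p (nat_lit 228) (nat_lit 3) (.n (nat_lit 229) (nat_lit 3) (.n (nat_lit 230) (nat_lit 3) (.n (nat_lit 231) (nat_lit 2) (.p (nat_lit 232) (nat_lit 3) (.p (nat_lit 234) (nat_lit 3) (.n (nat_lit 235) (nat_lit 1) (.p (nat_lit 237) (nat_lit 1) (.p (nat_lit 241) (nat_lit 1) (.p (nat_lit 242) (nat_lit 1) (.n (nat_lit 243) (nat_lit 3) (.p (nat_lit 244) (nat_lit 2) (.p (nat_lit 245) (nat_lit 3) (.p (nat_lit 246) (nat_lit 1) (.p (nat_lit 247) (nat_lit 1) (.p (nat_lit 248) (nat_lit 3) (.p (nat_lit 250) (nat_lit 1) (.p (nat_lit 251) (nat_lit 3) .z))))))))))))))))))))))))))))))))))) (.ct dC2c_c307 (nat_lit 1) (nat_lit 13) (.s true (nat_lit 3) (nat_lit 13) (nat_lit 2) (nat_lit 1) (nat_lit 6) true (nat_lit 1) true (nat_lit 8) true (nat_lit 4) true (nat_lit 12) true (nat_lit 13) (.s true (nat_lit 1) (nat_lit 12) (nat_lit 2) (nat_lit 6) (nat_lit 1) true (nat_lit 8) true (nat_lit 13) true (nat_lit 4) true (nat_lit 12) true (nat_lit 8) (.s true (nat_lit 2) (nat_lit 12) (nat_lit 6) (nat_lit 2) (nat_lit 1) true (nat_lit 3) true (nat_lit 13) true (nat_lit 4) true (nat_lit 8) true (nat_lit 12) (.s true (nat_lit 3) (nat_lit 18) (nat_lit 1) (nat_lit 6) (nat_lit 0) true (nat_lit 11) true (nat_lit 14) true (nat_lit 1) true (nat_lit 13) true (nat_lit 8) (.s false (nat_lit 3) (nat_lit 18) (nat_lit 6) (nat_lit 0) (nat_lit 1) true (nat_lit 3) true (nat_lit 13) true (nat_lit 1) true (nat_lit 8) true (nat_lit 14) (.s true (nat_lit 3) (nat_lit 38) (nat_lit 2) (nat_lit 1) (nat_lit 1) true (nat_lit 8) true (nat_lit 13) false (nat_lit 3) true (nat_lit 12) true (nat_lit 13) (.s false (nat_lit 1) (nat_lit 41) (nat_lit 0) (nat_lit 2) (nat_lit 1) true (nat_lit 11) true (nat_lit 13) false (nat_lit 4) true (nat_lit 14) true (nat_lit 12) (.e false (nat_lit 3) (nat_lit 106) (nat_lit 2) (nat_lit 12) (.e true (nat_lit 3) (nat_lit 108) (nat_lit 2) (nat_lit 12) (.e false (nat_lit 3) (nat_lit 110) (nat_lit 2) (nat_lit 12) (.e false (nat_lit 3) (nat_lit 112) (nat_lit 2) (nat_lit 12) (.e false (nat_lit 1) (nat_lit 113) (nat_lit 2) (nat_lit 12) (.e true (nat_lit 2) (nat_lit 114) (nat_lit 2) (nat_lit 12) (.e false (nat_lit 1) (nat_lit 115) (nat_lit 2) (nat_lit 12) (.e false (nat_lit 2) (nat_lit 116) (nat_lit 2) (nat_lit 12) (.e false (nat_lit 3) (nat_lit 118) (nat_lit 2) (nat_lit 12) (.e false (nat_lit 1) (nat_lit 120) (nat_lit 2) (nat_lit 12) (.e true (nat_lit 1) (nat_lit 121) (nat_lit 2) (nat_lit 12) (.e true (nat_lit 2) (nat_lit 122) (nat_lit 2) (nat_lit 12) dC2c_i225)))))))))))))))))))) .leaf)) (nat_lit 159746) (nat_lit 585) (.p (nat_lit 276) (nat_lit 1) .z) .df (.nd (.nd (.nd .leaf (nat_lit 159750) (nat_lit 1146) (.p (nat_lit 335) (nat_lit 3) (.p (nat_lit 336) (nat_lit 2) (.n (nat_lit 337) (nat_lit 3) (.n (nat_lit 339) (nat_lit 1) (.p (nat_lit 340) (nat_lit 3) (.n (nat_lit 341) (nat_lit 2) (.n (nat_lit 342) (nat_lit 3) (.n (nat_lit 344) (nat_lit 2) (.n (nat_lit 345) (nat_lit 2) (.p (nat_lit 346) (nat_lit 1) (.n (nat_lit 347) (nat_lit 3) (.p (nat_lit 348) (nat_lit 1) (.p (nat_lit 350) (nat_lit 2) (.n (nat_lit 351) (nat_lit 1) (.n (nat_lit 352) (nat_lit 2) (.n (nat_lit 353) (nat_lit 3) (.p (nat_lit 354) (nat_lit 2) (.p (nat_lit 355) (nat_lit 2) (.p (nat_lit 356) (nat_lit 2) (.n (nat_lit 357) (nat_lit 1) (.n (nat_lit 358) (nat_lit 2) (.p (nat_lit 359) (nat_lit 3) (.p (nat_lit 360) (nat_lit 3) (.n (nat_lit 361) (nat_lit 1) (.p (nat_lit 362) (nat_lit 3) (.n (nat_lit 363) (nat_lit 2) (.p (nat_lit 365) (nat_lit 1) (.n (nat_lit 366) (nat_lit 3) (.n (nat_lit 367) (nat_lit 1) (.p (nat_lit 368) (nat_lit 1) (.n (nat_lit 369) (nat_lit 1) (.p (nat_lit 371) (nat_lit 1) (.n (nat_lit 372) (nat_lit 1) (.n (nat_lit 373) (nat_lit 2) (.p (nat_lit 374) (nat_lit 1) (.n (nat_lit 375) (nat_lit 2) (.n (nat_lit 376) (nat_lit 3) (.p (nat_lit 378) (nat_lit 1) (.n (nat_lit 380) (nat_lit 3) (.n (nat_lit 381) (nat_lit 2) (.n (nat_lit 382) (nat_lit 1) (.n (nat_lit 384) (nat_lit 2) (.n (nat_lit 385) (nat_lit 1) (.n (nat_lit 386) (nat_lit 1) (.p (nat_lit 388) (nat_lit 1) (.p (nat_lit 390) (nat_lit 3) (.p (nat_lit 391) (nat_lit 2) (.n (nat_lit 393) (nat_lit 2) (.p (nat_lit 395) (nat_lit 1) (.p (nat_lit 396) (nat_lit 1) .z)))))))))))))))))))))))))))))))))))))))))))))))))) (.ct dC2c_c308 (nat_lit 1) (nat_lit 12) dC2c_i227) .leaf) (nat_lit 159751) (nat_lit 1313) (.n (nat_lit 397) (nat_lit 3) (.n (nat_lit 398) (nat_lit 3) (.n (nat_lit 399) (nat_lit 2) (.p (nat_lit 400) (nat_lit 2) (.p (nat_lit 401) (nat_lit 2) (.p (nat_lit 402) (nat_lit 1) (.n (nat_lit 403) (nat_lit 3) (.n (nat_lit 404) (nat_lit 2) (.p (nat_lit 405) (nat_lit 2) (.p (nat_lit 406) (nat_lit 3) (.p (nat_lit 407) (nat_lit 3) (.n (nat_lit 408) (nat_lit 1) (.n (nat_lit 409) (nat_lit 2) (.n (nat_lit 410) (nat_lit 3) (.n (nat_lit 411) (nat_lit 1) (.p (nat_lit 414) (nat_lit 2) (.n (nat_lit 415) (nat_lit 2) (.p (nat_lit 416) (nat_lit 1) (.n (nat_lit 420) (nat_lit 2) (.n (nat_lit 424) (nat_lit 2) (.p (nat_lit 426) (nat_lit 2) (.p (nat_lit 430) (nat_lit 2) (.n (nat_lit 432) (nat_lit 2) (.p (nat_lit 435) (nat_lit 3) .z)))))))))))))))))))))))) (.ct dC2c_c293 (nat_lit 1) (nat_lit 9) (.s false (nat_lit 1) (nat_lit 14) (nat_lit 7) (nat_lit 7) (nat_lit 0) true (nat_lit 5) true (nat_lit 16) true (nat_lit 6) true (nat_lit 9) true (nat_lit 9) (.e true (nat_lit 1) (nat_lit 96) (nat_lit 17) (nat_lit 5) (.e false (nat_lit 2) (nat_lit 329) (nat_lit 0) (nat_lit 16) (.e false (nat_lit 1) (nat_lit 132) (nat_lit 7) (nat_lit 9) (.e true (nat_lit 1) (nat_lit 134) (nat_lit 7) (nat_lit 9) (.e false (nat_lit 2) (nat_lit 135) (nat_lit 7) (nat_lit 9) (.e false (nat_lit 3) (nat_lit 137) (nat_lit 7) (nat_lit 9) (.e true (nat_lit 2) (nat_lit 138) (nat_lit 7) (nat_lit 9) (.e true (nat_lit 1) (nat_lit 139) (nat_lit 7) (nat_lit 9) (.e false (nat_lit 1) (nat_lit 140) (nat_lit 7) (nat_lit 9) (.e true (nat_lit 3) (nat_lit 141) (nat_lit 7) (nat_lit 9) (.e true (nat_lit 2) (nat_lit 142) (nat_lit 7) (nat_lit 9) (.e true (nat_lit 1) (nat_lit 143) (nat_lit 7) (nat_lit 9) (.e false (nat_lit 1) (nat_lit 147) (nat_lit 7) (nat_lit 9) (.e true (nat_lit 2) (nat_lit 149) (nat_lit 7) (nat_lit 9) (.e false (nat_lit 3) (nat_lit 150) (nat_lit 7) (nat_lit 9) (.e true (nat_lit 2) (nat_lit 151) (nat_lit 7) (nat_lit 9) (.e false (nat_lit 1) (nat_lit 152) (nat_lit 7) (nat_lit 9) (.e true (nat_lit 1) (nat_lit 154) (nat_lit 7) (nat_lit 9) (.e false (nat_lit 1) (nat_lit 155) (nat_lit 7) (nat_lit 9) (.e true (nat_lit 2) (nat_lit 157) (nat_lit 7) (nat_lit 9) (.e true (nat_lit 3) (nat_lit 144) (nat_lit 7) (nat_lit 9) (.u (nat_lit 2) (.n (nat_lit 0) (nat_lit 1) (.p (nat_lit 1) (nat_lit 5) (.n (nat_lit 2) (nat_lit 1) (.n (nat_lit 3) (nat_lit 2) (.p (nat_lit 4) (nat_lit 1) (.p (nat_lit 6) (nat_lit 1) (.p (nat_lit 8) (nat_lit 1) (.p (nat_lit 9) (nat_lit 1) (.p (nat_lit 11) (nat_lit 2) (.n (nat_lit 12) (nat_lit 1) (.p (nat_lit 13) (nat_lit 2) (.p (nat_lit 14) (nat_lit 1) (.n (nat_lit 15) (nat_lit 1) (.n (nat_lit 16) (nat_lit 1) (.n (nat_lit 18) (nat_lit 4) (.n (nat_lit 19) (nat_lit 1) (.n (nat_lit 21) (nat_lit 3) (.p (nat_lit 23) (nat_lit 2) (.n (nat_lit 24) (nat_lit 3) (.p (nat_lit 25) (nat_lit 1) (.p (nat_lit 26) (nat_lit 1) (.n (nat_lit 27) (nat_lit 2) (.n (nat_lit 31) (nat_lit 1) (.n (nat_lit 33) (nat_lit 1) (.n (nat_lit 34) (nat_lit 2) (.n (nat_lit 35) (nat_lit 1) (.p (nat_lit 38) (nat_lit 3) (.n (nat_lit 142) (nat_lit 1) (.p (nat_lit 144) (nat_lit 1) (.n (nat_lit 145) (nat_lit 1) (.n (nat_lit 147) (nat_lit 1) (.n (nat_lit 160) (nat_lit 1) (.p (nat_lit 166) (nat_lit 1) .z))))))))))))))))))))))))))))))))) .nil)))))))))))))))))))))))) .leaf) (nat_lit 160769) (nat_lit 468) (.p (nat_lit 206) (nat_lit 2) (.n (nat_lit 207) (nat_lit 1) (.p (nat_lit 208) (nat_lit 1) (.p (nat_lit 209) (nat_lit 2) (.n (nat_lit 210) (nat_lit 1) (.n (nat_lit 213) (nat_lit 1) (.p (nat_lit 214) (nat_lit 1) (.n (nat_lit 215) (nat_lit 1) (.p (nat_lit 216) (nat_lit 2) (.n (nat_lit 217) (nat_lit 2) (.p (nat_lit 218) (nat_lit 1) (.n (nat_lit 219) (nat_lit 3) (.n (nat_lit 220) (nat_lit 1) (.n (nat_lit 221) (nat_lit 3) (.n (nat_lit 225) (nat_lit 3) (.p (nat_lit 228) (nat_lit 2) (.n (nat_lit 229) (nat_lit 1) (.n (nat_lit 230) (nat_lit 1) (.p (nat_lit 231) (nat_lit 2) (.p (nat_lit 233) (nat_lit 2) (.n (nat_lit 235) (nat_lit 2) (.n (nat_lit 238) (nat_lit 2) (.n (nat_lit 246) (nat_lit 2) (.n (nat_lit 247) (nat_lit 2) (.n (nat_lit 251) (nat_lit 1) .z))))))))))))))))))))))))) (.ct dC2c_c307 (nat_lit 1) (nat_lit 13) (.s false (nat_lit 3) (nat_lit 6) (nat_lit 1) (nat_lit 5) (nat_lit 6) true (nat_lit 3) true (nat_lit 8) true (nat_lit 8) true (nat_lit 13) true (nat_lit 9) (.s true (nat_lit 1) (nat_lit 6) (nat_lit 2) (nat_lit 3) (nat_lit 6) true (nat_lit 1) true (nat_lit 8) true (nat_lit 8) true (nat_lit 12) true (nat_lit 11) (.s false (nat_lit 3) (nat_lit 7) (nat_lit 4) (nat_lit 2) (nat_lit 3) false (nat_lit 0) true (nat_lit 11) true (nat_lit 7) true (nat_lit 10) true (nat_lit 12) (.s true (nat_lit 2) (nat_lit 12) (nat_lit 1) (nat_lit 1) (nat_lit 7) true (nat_lit 1) true (nat_lit 7) true (nat_lit 4) true (nat_lit 13) true (nat_lit 13) (.s true (nat_lit 1) (nat_lit 11) (nat_lit 1) (nat_lit 2) (nat_lit 6) true (nat_lit 3) true (nat_lit 8) true (nat_lit 4) true (nat_lit 13) true (nat_lit 12) (.s false (nat_lit 3) (nat_lit 12) (nat_lit 1) (nat_lit 2) (nat_lit 6) true (nat_lit 3) true (nat_lit 8) true (nat_lit 4) true (nat_lit 13) true (nat_lit 12) (.s true (nat_lit 3) (nat_lit 11) (nat_lit 1) (nat_lit 6) (nat_lit 2) true (nat_lit 8) true (nat_lit 12) true (nat_lit 4) true (nat_lit 13) true (nat_lit 8) (.s false (nat_lit 1) (nat_lit 13) (nat_lit 1) (nat_lit 6) (nat_lit 2) true (nat_lit 8) true (nat_lit 12) true (nat_lit 4) true (nat_lit 13) true (nat_lit 8) (.s false (nat_lit 1) (nat_lit 13) (nat_lit 2) (nat_lit 1) (nat_lit 6) true (nat_lit 1) true (nat_lit 8) true (nat_lit 4) true (nat_lit 12) true (nat_lit 13) (.s false (nat_lit 2) (nat_lit 11) (nat_lit 2) (nat_lit 2) (nat_lit 4) true (nat_lit 3) true (nat_lit 10) true (nat_lit 4) true (nat_lit 12) true (nat_lit 12) (.s true (nat_lit 2) (nat_lit 11) (nat_lit 2) (nat_lit 4) (nat_lit 2) true (nat_lit 7) true (nat_lit 12) true (nat_lit 4) true (nat_lit 12) true (nat_lit 10) (.s true (nat_lit 3) (nat_lit 11) (nat_lit 2) (nat_lit 6) (nat_lit 1) true (nat_lit 8) true (nat_lit 13) true (nat_lit 4) true (nat_lit 12) true (nat_lit 8) (.s false (nat_lit 1) (nat_lit 12) (nat_lit 2) (nat_lit 6) (nat_lit 1) true (nat_lit 8) true (nat_lit 13) true (nat_lit 4) true (nat_lit 12) true (nat_lit 8) (.s false (nat_lit 3) (nat_lit 11) (nat_lit 4) (nat_lit 2) (nat_lit 2) true (nat_lit 3) true (nat_lit 12) true (nat_lit 4) true (nat_lit 10) true (nat_lit 12) (.s true (nat_lit 1) (nat_lit 13) (nat_lit 6) (nat_lit 1) (nat_lit 2) true (nat_lit 1) true (nat_lit 12) true (nat_lit 4) true (nat_lit 8) true (nat_lit 13) dC2c_i230)))))))))))))))) (.nd .leaf (nat_lit 160770) (nat_lit 586) (.p (nat_lit 277) (nat_lit 1) .z) .df .leaf))) (nat_lit 160774) (nat_lit 1127) (.p (nat_lit 336) (nat_lit 1) (.p (nat_lit 337) (nat_lit 2) (.p (nat_lit 338) (nat_lit 2) (.n (nat_lit 339) (nat_lit 1) (.p (nat_lit 340) (nat_lit 1) (.n (nat_lit 341) (nat_lit 2) (.p (nat_lit 342) (nat_lit 2) (.n (nat_lit 343) (nat_lit 1) (.p (nat_lit 344) (nat_lit 1) (.p (nat_lit 345) (nat_lit 3) (.p (nat_lit 347) (nat_lit 2) (.n (nat_lit 348) (nat_lit 2) (.p (nat_lit 349) (nat_lit 3) (.p (nat_lit 350) (nat_lit 1) (.n (nat_lit 351) (nat_lit 3) (.p (nat_lit 352) (nat_lit 2) (.p (nat_lit 353) (nat_lit 1) (.p (nat_lit 355) (nat_lit 1) (.p (nat_lit 356) (nat_lit 3) (.p (nat_lit 357) (nat_lit 2) (.n (nat_lit 359) (nat_lit 2) (.n (nat_lit 361) (nat_lit 3) (.n (nat_lit 362) (nat_lit 2) (.p (nat_lit 363) (nat_lit 3) (.p (nat_lit 364) (nat_lit 2) (.n (nat_lit 365) (nat_lit 2) (.p (nat_lit 366) (nat_lit 2) (.p (nat_lit 367) (nat_lit 1) (.p (nat_lit 368) (nat_lit 3) (.n (nat_lit 369) (nat_lit 2) (.p (nat_lit 370) (nat_lit 2) (.p (nat_lit 371) (nat_lit 2) (.n (nat_lit 373) (nat_lit 1) (.n (nat_lit 374) (nat_lit 2) (.p (nat_lit 375) (nat_lit 3) (.n (nat_lit 376) (nat_lit 3) (.n (nat_lit 378) (nat_lit 2) (.n (nat_lit 379) (nat_lit 1) (.n (nat_lit 381) (nat_lit 3) (.p (nat_lit 382) (nat_lit 1) (.n (nat_lit 383) (nat_lit 3) (.p (nat_lit 384) (nat_lit 2) (.p (nat_lit 386) (nat_lit 2) (.n (nat_lit 390) (nat_lit 2) (.n (nat_lit 391) (nat_lit 2) .z))))))))))))))))))))))))))))))))))))))))))))) (.ct dC2c_c308 (nat_lit 1) (nat_lit 12) (.s false (nat_lit 1) (nat_lit 46) (nat_lit 6) (nat_lit 1) (nat_lit 0) true (nat_lit 8) true (nat_lit 18) false (nat_lit 2) true (nat_lit 12) true (nat_lit 17) (.e true (nat_lit 1) (nat_lit 95) (nat_lit 13) (nat_lit 8) dC2c_i232))) (.nd (.nd (.nd (.nd .leaf (nat_lit 160775) (nat_lit 1276) (.p (nat_lit 397) (nat_lit 1) (.n (nat_lit 398) (nat_lit 2) (.n (nat_lit 399) (nat_lit 1) (.n (nat_lit 400) (nat_lit 3) (.n (nat_lit 401) (nat_lit 2) (.p (nat_lit 402) (nat_lit 2) (.n (nat_lit 403) (nat_lit 3) (.n (nat_lit 404) (nat_lit 3) (.n (nat_lit 405) (nat_lit 1) (.n (nat_lit 406) (nat_lit 1) (.p (nat_lit 407) (nat_lit 2) (.p (nat_lit 408) (nat_lit 2) (.n (nat_lit 409) (nat_lit 1) (.p (nat_lit 410) (nat_lit 2) (.n (nat_lit 411) (nat_lit 3) (.n (nat_lit 412) (nat_lit 1) (.n (nat_lit 413) (nat_lit 1) (.n (nat_lit 414) (nat_lit 3) (.p (nat_lit 415) (nat_lit 1) (.p (nat_lit 416) (nat_lit 3) (.n (nat_lit 418) (nat_lit 2) (.n (nat_lit 420) (nat_lit 2) (.p (nat_lit 421) (nat_lit 1) (.n (nat_lit 422) (nat_lit 3) (.p (nat_lit 424) (nat_lit 3) (.p (nat_lit 427) (nat_lit 3) (.p (nat_lit 435) (nat_lit 1) .z))))))))))))))))))))))))))) (.ct dC2c_c293 (nat_lit 1) (nat_lit 9) (.s true (nat_lit 1) (nat_lit 47) (nat_lit 2) (nat_lit 3) (nat_lit 2) true (nat_lit 9) true (nat_lit 14) false (nat_lit 1) true (nat_lit 14) true (nat_lit 13) (.e false (nat_lit 2) (nat_lit 134) (nat_lit 7) (nat_lit 9) (.e true (nat_lit 2) (nat_lit 138) (nat_lit 7) (nat_lit 9) (.e false (nat_lit 1) (nat_lit 144) (nat_lit 7) (nat_lit 9) (.e true (nat_lit 1) (nat_lit 149) (nat_lit 7) (nat_lit 9) (.e false (nat_lit 3) (nat_lit 252) (nat_lit 2) (nat_lit 14) dC2c_i233))))))) .leaf) (nat_lit 161792) (nat_lit 550) (.n (nat_lit 205) (nat_lit 2) (.p (nat_lit 206) (nat_lit 1) (.n (nat_lit 208) (nat_lit 3) (.p (nat_lit 209) (nat_lit 2) (.p (nat_lit 211) (nat_lit 3) (.n (nat_lit 212) (nat_lit 1) (.n (nat_lit 213) (nat_lit 3) (.p (nat_lit 214) (nat_lit 1) (.n (nat_lit 215) (nat_lit 1) (.n (nat_lit 217) (nat_lit 1) (.n (nat_lit 219) (nat_lit 3) (.p (nat_lit 221) (nat_lit 3) (.p (nat_lit 225) (nat_lit 3) (.p (nat_lit 227) (nat_lit 1) (.p (nat_lit 228) (nat_lit 2) (.p (nat_lit 229) (nat_lit 3) (.p (nat_lit 230) (nat_lit 3) (.n (nat_lit 231) (nat_lit 2) (.n (nat_lit 232) (nat_lit 1) (.p (nat_lit 242) (nat_lit 1) (.n (nat_lit 243) (nat_lit 3) (.n (nat_lit 245) (nat_lit 3) (.n (nat_lit 246) (nat_lit 2) (.p (nat_lit 247) (nat_lit 2) (.n (nat_lit 248) (nat_lit 3) (.n (nat_lit 249) (nat_lit 2) (.p (nat_lit 251) (nat_lit 3) .z))))))))))))))))))))))))))) (.ct dC2c_c307 (nat_lit 1) (nat_lit 14) (.s true (nat_lit 1) (nat_lit 30) (nat_lit 2) (nat_lit 2) (nat_lit 0) true (nat_lit 9) true (nat_lit 14) false (nat_lit 2) true (nat_lit 12) true (nat_lit 12) (.e true (nat_lit 1) (nat_lit 74) (nat_lit 5) (nat_lit 9) (.e false (nat_lit 1) (nat_lit 30) (nat_lit 17) (nat_lit 2) (.e false (nat_lit 2) (nat_lit 107) (nat_lit 2) (nat_lit 12) (.e false (nat_lit 1) (nat_lit 108) (nat_lit 2) (nat_lit 12) (.e true (nat_lit 2) (nat_lit 112) (nat_lit 2) (nat_lit 12) (.e false (nat_lit 2) (nat_lit 114) (nat_lit 2) (nat_lit 12) (.e true (nat_lit 2) (nat_lit 117) (nat_lit 2) (nat_lit 12) (.e true (nat_lit 2) (nat_lit 118) (nat_lit 2) (nat_lit 12) (.e true (nat_lit 3) (nat_lit 120) (nat_lit 2) (nat_lit 12) (.e false (nat_lit 3) (nat_lit 122) (nat_lit 2) (nat_lit 12) (.e true (nat_lit 1) (nat_lit 128) (nat_lit 2) (nat_lit 12) (.e false (nat_lit 1) (nat_lit 130) (nat_lit 2) (nat_lit 12) (.e false (nat_lit 1) (nat_lit 131) (nat_lit 2) (nat_lit 12) (.e true (nat_lit 1) (nat_lit 106) (nat_lit 2) (nat_lit 12) (.e false (nat_lit 1) (nat_lit 109) (nat_lit 2) (nat_lit 12) (.e false (nat_lit 1) (nat_lit 113) (nat_lit 2) (nat_lit 12) (.e true (nat_lit 1) (nat_lit 115) (nat_lit 2) (nat_lit 12) (.e true (nat_lit 2) (nat_lit 116) (nat_lit 2) (nat_lit 12) (.u (nat_lit 2) (.p (nat_lit 1) (nat_lit 1) (.p (nat_lit 3) (nat_lit 1) (.p (nat_lit 7) (nat_lit 1) (.n (nat_lit 9) (nat_lit 1) (.n (nat_lit 37) (nat_lit 1) (.p (nat_lit 40) (nat_lit 1) (.p (nat_lit 44) (nat_lit 1) (.n (nat_lit 46) (nat_lit 1) .z)))))))) .nil))))))))))))))))))))) .leaf) (nat_lit 161794) (nat_lit 693) (.p (nat_lit 289) (nat_lit 1) .z) .df (.nd (.nd .leaf (nat_lit 161797) (nat_lit 1067) (.n (nat_lit 335) (nat_lit 2) (.p (nat_lit 336) (nat_lit 2) (.n (nat_lit 337) (nat_lit 3) (.n (nat_lit 338) (nat_lit 1) (.n (nat_lit 339) (nat_lit 2) (.n (nat_lit 340) (nat_lit 2) (.p (nat_lit 341) (nat_lit 1) (.p (nat_lit 343) (nat_lit 2) (.n (nat_lit 344) (nat_lit 1) (.p (nat_lit 345) (nat_lit 3) (.p (nat_lit 347) (nat_lit 1) (.n (nat_lit 349) (nat_lit 3) (.p (nat_lit 350) (nat_lit 2) (.p (nat_lit 351) (nat_lit 1) (.p (nat_lit 352) (nat_lit 1) (.n (nat_lit 353) (nat_lit 3) (.p (nat_lit 354) (nat_lit 2) (.n (nat_lit 355) (nat_lit 2) (.p (nat_lit 356) (nat_lit 1) (.n (nat_lit 357) (nat_lit 1) (.p (nat_lit 358) (nat_lit 3) (.p (nat_lit 359) (nat_lit 3) (.p (nat_lit 361) (nat_lit 3) (.n (nat_lit 362) (nat_lit 3) (.p (nat_lit 363) (nat_lit 1) (.n (nat_lit 364) (nat_lit 3) (.n (nat_lit 366) (nat_lit 2) (.n (nat_lit 367) (nat_lit 2) (.p (nat_lit 368) (nat_lit 2) (.n (nat_lit 369) (nat_lit 3) (.n (nat_lit 371) (nat_lit 3) (.n (nat_lit 373) (nat_lit 2) (.p (nat_lit 374) (nat_lit 2) (.n (nat_lit 382) (nat_lit 3) (.n (nat_lit 383) (nat_lit 2) .z))))))))))))))))))))))))))))))))))) (.ct dC2c_c308 (nat_lit 1) (nat_lit 13) (.s true (nat_lit 1) (nat_lit 74) (nat_lit 2) (nat_lit 2) (nat_lit 0) true (nat_lit 13) true (nat_lit 18) false (nat_lit 6) true (nat_lit 16) true (nat_lit 16) (.e true (nat_lit 1) (nat_lit 289) (nat_lit 0) (nat_lit 18) (.e false (nat_lit 1) (nat_lit 74) (nat_lit 17) (nat_lit 6) (.e false (nat_lit 3) (nat_lit 206) (nat_lit 2) (nat_lit 16) dC2c_i234))))) .leaf) (nat_lit 161799) (nat_lit 1443) (.n (nat_lit 437) (nat_lit 3) (.p (nat_lit 438) (nat_lit 1) (.p (nat_lit 447) (nat_lit 3) (.n (nat_lit 448) (nat_lit 1) (.n (nat_lit 450) (nat_lit 1) .z))))) (.ct dC2c_c53 (nat_lit 1) (nat_lit 6) (.s true (nat_lit 3) (nat_lit 14) (nat_lit 1) (nat_lit 7) (nat_lit 7) true (nat_lit 3) true (nat_lit 6) true (nat_lit 4) true (nat_lit 10) true (nat_lit 6) (.e true (nat_lit 3) (nat_lit 96) (nat_lit 19) (nat_lit 3) (.e true (nat_lit 2) (nat_lit 160) (nat_lit 7) (nat_lit 6) (.e false (nat_lit 1) (nat_lit 161) (nat_lit 7) (nat_lit 6) (.e false (nat_lit 2) (nat_lit 162) (nat_lit 7) (nat_lit 6) (.e false (nat_lit 2) (nat_lit 163) (nat_lit 7) (nat_lit 6) (.e true (nat_lit 1) (nat_lit 164) (nat_lit 7) (nat_lit 6) (.e false (nat_lit 1) (nat_lit 165) (nat_lit 7) (nat_lit 6) (.e true (nat_lit 1) (nat_lit 166) (nat_lit 7) (nat_lit 6) (.e true (nat_lit 3) (nat_lit 167) (nat_lit 7) (nat_lit 6) (.e false (nat_lit 1) (nat_lit 102) (nat_lit 14) (nat_lit 4) (.e true (nat_lit 1) (nat_lit 103) (nat_lit 14) (nat_lit 4) (.u (nat_lit 2) (.p (nat_lit 1) (nat_lit 1) (.n (nat_lit 2) (nat_lit 1) (.p (nat_lit 5) (nat_lit 1) (.n (nat_lit 6) (nat_lit 2) (.p (nat_lit 11) (nat_lit 1) (.n (nat_lit 12) (nat_lit 1) (.p (nat_lit 14) (nat_lit 2) (.n (nat_lit 46) (nat_lit 1) (.p (nat_lit 47) (nat_lit 1) (.p (nat_lit 54) (nat_lit 1) (.n (nat_lit 56) (nat_lit 1) (.n (nat_lit 57) (nat_lit 1) (.p (nat_lit 58) (nat_lit 1) (.p (nat_lit 59) (nat_lit 1) (.p (nat_lit 60) (nat_lit 1) (.n (nat_lit 61) (nat_lit 1) (.p (nat_lit 62) (nat_lit 1) .z))))))))))))))))) .nil)))))))))))))) .leaf)) (nat_lit 162816) (nat_lit 556) (.n (nat_lit 205) (nat_lit 1) (.n (nat_lit 208) (nat_lit 3) (.n (nat_lit 209) (nat_lit 2) (.n (nat_lit 210) (nat_lit 1) (.n (nat_lit 211) (nat_lit 3) (.n (nat_lit 212) (nat_lit 2) (.n (nat_lit 213) (nat_lit 1) (.p (nat_lit 214) (nat_lit 1) (.p (nat_lit 215) (nat_lit 3) (.p (nat_lit 217) (nat_lit 3) (.n (nat_lit 218) (nat_lit 1) (.p (nat_lit 219) (nat_lit 2) (.n (nat_lit 220) (nat_lit 2) (.p (nat_lit 222) (nat_lit 2) (.p (nat_lit 224) (nat_lit 2) (.p (nat_lit 225) (nat_lit 3) (.p (nat_lit 226) (nat_lit 3) (.p (nat_lit 227) (nat_lit 1) (.n (nat_lit 228) (nat_lit 3) (.p (nat_lit 230) (nat_lit 1) (.n (nat_lit 231) (nat_lit 1) (.p (nat_lit 232) (nat_lit 2) (.n (nat_lit 234) (nat_lit 3) (.p (nat_lit 240) (nat_lit 2) (.n (nat_lit 241) (nat_lit 2) (.n (nat_lit 242) (nat_lit 1) (.p (nat_lit 243) (nat_lit 1) (.n (nat_lit 244) (nat_lit 1) (.n (nat_lit 245) (nat_lit 1) (.n (nat_lit 248) (nat_lit 3) (.p (nat_lit 249) (nat_lit 1) (.n (nat_lit 250) (nat_lit 2) (.p (nat_lit 251) (nat_lit 3) .z))))))))))))))))))))))))))))))))) (.ct dC2c_c307 (nat_lit 1) (nat_lit 14) (.s true (nat_lit 1) (nat_lit 31) (nat_lit 2) (nat_lit 0) (nat_lit 2) true (nat_lit 7) true (nat_lit 12) false (nat_lit 2) true (nat_lit 12) true (nat_lit 14) (.e true (nat_lit 1) (nat_lit 49) (nat_lit 7) (nat_lit 7) (.e false (nat_lit 2) (nat_lit 50) (nat_lit 7) (nat_lit 7) (.e false (nat_lit 1) (nat_lit 51) (nat_lit 7) (nat_lit 7) (.e false (nat_lit 2) (nat_lit 52) (nat_lit 7) (nat_lit 7) (.e true (nat_lit 1) (nat_lit 54) (nat_lit 7) (nat_lit 7) (.e true (nat_lit 1) (nat_lit 57) (nat_lit 7) (nat_lit 7) (.e true (nat_lit 1) (nat_lit 58) (nat_lit 7) (nat_lit 7) (.e true (nat_lit 2) (nat_lit 59) (nat_lit 7) (nat_lit 7) dC2c_i235)))))))))) (.nd (.nd (.nd .leaf (nat_lit 162818) (nat_lit 694) (.p (nat_lit 290) (nat_lit 1) .z) .df .leaf) (nat_lit 163840) (nat_lit 554) (.n (nat_lit 205) (nat_lit 3) (.n (nat_lit 206) (nat_lit 3) (.p (nat_lit 207) (nat_lit 3) (.n (nat_lit 208) (nat_lit 1) (.p (nat_lit 209) (nat_lit 3) (.n (nat_lit 210) (nat_lit 3) (.p (nat_lit 211) (nat_lit 2) (.n (nat_lit 212) (nat_lit 2) (.n (nat_lit 213) (nat_lit 3) (.n (nat_lit 214) (nat_lit 1) (.n (nat_lit 216) (nat_lit 2) (.n (nat_lit 218) (nat_lit 3) (.p (nat_lit 219) (nat_lit 1) (.n (nat_lit 220) (nat_lit 2) (.p (nat_lit 221) (nat_lit 1) (.p (nat_lit 222) (nat_lit 3) (.n (nat_lit 224) (nat_lit 1) (.n (nat_lit 225) (nat_lit 1) (.n (nat_lit 226) (nat_lit 2) (.p (nat_lit 227) (nat_lit 1) (.n (nat_lit 229) (nat_lit 2) (.n (nat_lit 230) (nat_lit 1) (.n (nat_lit 231) (nat_lit 1) (.p (nat_lit 234) (nat_lit 1) (.n (nat_lit 240) (nat_lit 1) (.p (nat_lit 241) (nat_lit 1) (.n (nat_lit 243) (nat_lit 3) (.n (nat_lit 244) (nat_lit 1) (.n (nat_lit 245) (nat_lit 3) (.n (nat_lit 247) (nat_lit 3) (.n (nat_lit 248) (nat_lit 2) (.n (nat_lit 249) (nat_lit 2) (.n (nat_lit 250) (nat_lit 1) (.p (nat_lit 251) (nat_lit 2) .z)))))))))))))))))))))))))))))))))) (.ct dC2c_c307 (nat_lit 1) (nat_lit 14) (.s true (nat_lit 1) (nat_lit 32) (nat_lit 2) (nat_lit 0) (nat_lit 2) true (nat_lit 7) true (nat_lit 12) false (nat_lit 2) true (nat_lit 12) true (nat_lit 14) dC2c_i236)) .leaf) (nat_lit 163842) (nat_lit 695) (.p (nat_lit 291) (nat_lit 1) .z) .df (.nd .leaf (nat_lit 163845) (nat_lit 1144) (.n (nat_lit 335) (nat_lit 2) (.p (nat_lit 336) (nat_lit 2) (.n (nat_lit 337) (nat_lit 3) (.p (nat_lit 338) (nat_lit 1) (.p (nat_lit 339) (nat_lit 1) (.p (nat_lit 340) (nat_lit 2) (.n (nat_lit 342) (nat_lit 1) (.p (nat_lit 344) (nat_lit 3) (.n (nat_lit 345) (nat_lit 3) (.p (nat_lit 346) (nat_lit 1) (.p (nat_lit 347) (nat_lit 2) (.p (nat_lit 348) (nat_lit 1) (.p (nat_lit 349) (nat_lit 2) (.p (nat_lit 350) (nat_lit 2) (.n (nat_lit 351) (nat_lit 1) (.n (nat_lit 352) (nat_lit 1) (.n (nat_lit 355) (nat_lit 1) (.n (nat_lit 356) (nat_lit 2) (.p (nat_lit 357) (nat_lit 3) (.p (nat_lit 358) (nat_lit 2) (.n (nat_lit 359) (nat_lit 2) (.n (nat_lit 361) (nat_lit 3) (.n (nat_lit 362) (nat_lit 2) (.n (nat_lit 363) (nat_lit 3) (.n (nat_lit 364) (nat_lit 2) (.p (nat_lit 365) (nat_lit 1) (.p (nat_lit 366) (nat_lit 1) (.n (nat_lit 368) (nat_lit 3) (.p (nat_lit 369) (nat_lit 2) (.p (nat_lit 370) (nat_lit 2) (.p (nat_lit 371) (nat_lit 2) (.p (nat_lit 372) (nat_lit 1) (.p (nat_lit 373) (nat_lit 2) (.p (nat_lit 374) (nat_lit 1) (.p (nat_lit 375) (nat_lit 1) (.n (nat_lit 376) (nat_lit 3) (.p (nat_lit 378) (nat_lit 2) (.n (nat_lit 379) (nat_lit 2) (.n (nat_lit 381) (nat_lit 2) (.p (nat_lit 382) (nat_lit 1) (.n (nat_lit 383) (nat_lit 1) (.n (nat_lit 384) (nat_lit 2) (.n (nat_lit 386) (nat_lit 1) (.p (nat_lit 387) (nat_lit 1) (.p (nat_lit 389) (nat_lit 1) (.p (nat_lit 390) (nat_lit 3) (.p (nat_lit 391) (nat_lit 2) (.n (nat_lit 392) (nat_lit 1) (.n (nat_lit 393) (nat_lit 2) (.p (nat_lit 395) (nat_lit 1) (.p (nat_lit 396) (nat_lit 1) .z))))))))))))))))))))))))))))))))))))))))))))))))))) (.ct dC2c_c308 (nat_lit 1) (nat_lit 13) (.s true (nat_lit 1) (nat_lit 45) (nat_lit 1) (nat_lit 1) (nat_lit 5) true (nat_lit 8) true (nat_lit 13) false (nat_lit 2) true (nat_lit 17) true (nat_lit 17) (.e true (nat_lit 1) (nat_lit 94) (nat_lit 12) (nat_lit 8) (.e false (nat_lit 1) (nat_lit 162) (nat_lit 5) (nat_lit 13) (.e true (nat_lit 1) (nat_lit 165) (nat_lit 5) (nat_lit 13) (.e true (nat_lit 1) (nat_lit 45) (nat_lit 24) (nat_lit 2) (.e false (nat_lit 1) (nat_lit 45) (nat_lit 26) (nat_lit 2) (.e true (nat_lit 1) (nat_lit 45) (nat_lit 28) (nat_lit 2) (.e true (nat_lit 1) (nat_lit 45) (nat_lit 29) (nat_lit 2) (.e false (nat_lit 1) (nat_lit 253) (nat_lit 1) (nat_lit 17) (.e true (nat_lit 3) (nat_lit 254) (nat_lit 1) (nat_lit 17) (.e false (nat_lit 2) (nat_lit 255) (nat_lit 1) (nat_lit 17) (.e false (nat_lit 1) (nat_lit 256) (nat_lit 1) (nat_lit 17) (.e true (nat_lit 1) (nat_lit 257) (nat_lit 1) (nat_lit 17) dC2c_i237)))))))))))))) .leaf))))))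

noncomputable def dC2c_t5 : Tr := (.nd dC2c_t3 (nat_lit 140294) (nat_lit 971) (.n (nat_lit 335) (nat_lit 2) (.p (nat_lit 336) (nat_lit 1) (.p (nat_lit 337) (nat_lit 2) (.n (nat_lit 338) (nat_lit 3) (.p (nat_lit 339) (nat_lit 1) (.p (nat_lit 340) (nat_lit 3) (.n (nat_lit 341) (nat_lit 1) (.n (nat_lit 342) (nat_lit 1) (.n (nat_lit 345) (nat_lit 3) (.n (nat_lit 347) (nat_lit 1) (.n (nat_lit 350) (nat_lit 2) (.p (nat_lit 351) (nat_lit 2) (.p (nat_lit 352) (nat_lit 1) (.p (nat_lit 353) (nat_lit 2) (.p (nat_lit 354) (nat_lit 1) (.p (nat_lit 355) (nat_lit 3) (.n (nat_lit 356) (nat_lit 2) (.p (nat_lit 357) (nat_lit 2) (.n (nat_lit 358) (nat_lit 1) (.n (nat_lit 359) (nat_lit 2) (.p (nat_lit 360) (nat_lit 1) (.n (nat_lit 361) (nat_lit 2) (.n (nat_lit 363) (nat_lit 1) (.n (nat_lit 364) (nat_lit 3) (.n (nat_lit 366) (nat_lit 1) (.n (nat_lit 367) (nat_lit 2) (.p (nat_lit 368) (nat_lit 1) (.p (nat_lit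 369) (nat_lit 1) (.p (nat_lit 370) (nat_lit 2) (.p (nat_lit 371) (nat_lit 3) (.p (nat_lit 372) (nat_lit 2) (.n (nat_lit 373) (nat_lit 1) (.p (nat_lit 374) (nat_lit 2) (.p (nat_lit 380) (nat_lit 2) (.n (nat_lit 381) (nat_lit 1) (.n (nat_lit 382) (nat_lit 2) (.p (nat_lit 383) (nat_lit 1) (.n (nat_lit 390) (nat_lit 1) (.p (nat_lit 392) (nat_lit 1) .z))))))))))))))))))))))))))))))))))))))) (.ct dC2c_c308 (nat_lit 1) (nat_lit 12) (.s true (nat_lit 1) (nat_lit 65) (nat_lit 1) (nat_lit 2) (nat_lit 2) true (nat_lit 12) true (nat_lit 16) false (nat_lit 5) true (nat_lit 17) true (nat_lit 16) (.s false (nat_lit 1) (nat_lit 65) (nat_lit 2) (nat_lit 1) (nat_lit 2) true (nat_lit 11) true (nat_lit 16) false (nat_lit 5) true (nat_lit 16) true (nat_lit 17) (.e false (nat_lit 3) (nat_lit 221) (nat_lit 2) (nat_lit 16) (.e true (nat_lit 3) (nat_lit 252) (nat_lit 1) (nat_lit 17) (.e true (nat_lit 3) (nat_lit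 254) (nat_lit 1) (nat_lit 17) (.e true (nat_lit 1) (nat_lit 255) (nat_lit 1) (nat_lit 17) (.e true (nat_lit 2) (nat_lit 256) (nat_lit 1) (nat_lit 17) (.e false (nat_lit 3) (nat_lit 257) (nat_lit 1) (nat_lit 17) (.e false (nat_lit 1) (nat_lit 258) (nat_lit 1) (nat_lit 17) (.e true (nat_lit 2) (nat_lit 259) (nat_lit 1) (nat_lit 17) dC2c_i134))))))))))) dC2c_t4)

noncomputable def dC2c_t6 : Tr := (.nd dC2c_t2 (nat_lit 106498) (nat_lit 396) (.n (nat_lit 201) (nat_lit 1) (.p (nat_lit 202) (nat_lit 1) .z)) (.ct dC2c_c21 (nat_lit 1) (nat_lit 3) (.s true (nat_lit 1) (nat_lit 20) (nat_lit 2) (nat_lit 2) (nat_lit 1) true (nat_lit 2) true (nat_lit 4) false (nat_lit 0) true (nat_lit 3) true (nat_lit 3) (.e true (nat_lit 1) (nat_lit 48) (nat_lit 6) (nat_lit 2) (.e true (nat_lit 1) (nat_lit 105) (nat_lit 1) (nat_lit 4) (.e false (nat_lit 1) (nat_lit 20) (nat_lit 19) (nat_lit 0) (.e true (nat_lit 1) (nat_lit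 102) (nat_lit 2) (nat_lit 3) (.e false (nat_lit 2) (nat_lit 103) (nat_lit 2) (nat_lit 3) .nil))))))) dC2c_t5)

end Pool.Agent.MalP.Chk7
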